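import Pool.Agent.PLT.ObS
import Pool.Agent.PHK.Pot

/-!
# The potentials of the objects of the six kinds in an unsymmetric strip (pure)

`PGC δ lo hi P`: all offsets of the quanta of the objects have distance `≥ δ` from the integers in the strip
`lo ≤ Im z ≤ hi`.  In it, for `FO6 P O s` (the landed potential):
* `PGC.of`, `PGC.mono`, `PGC.of6` (from `PG6`), `pgc_th` (the point `P_th`);
* `hasDerivAt_FO6C`, **`norm_FO6C`**, `ext_FO6C`;
* **`exp_FO6C`**: exactness, `Π potN6 = exp Re FO6` at `l + I z`;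
* `fO6_gq`: the potential of an object is the sum of the potentials `gq` of its quanta.
-/

set_option autoImplicit false
set_option linter.unusedSectionVars false
set_option linter.unusedVariables false
set_option linter.unusedSimpArgs false

open MeasureTheory Set Filter Topology Complex

namespace PLT.Cv

open NUMF (l l_pos)
open NUO (Xo ht sp Off posL posT posS bk bk1 cp cp1 wz yw mlt pp)
open PHK (Par6 Kd6 k6 fO6 fO61 FO6 FO61 offK6 potN6 parts6 PG6 posB)

noncomputable section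

variable {δ lo hi j : ℝ}

theorem OffS.add_int (h : OffS δ lo hi j) (n : ℤ) : OffS δ lo hi (n + j) := by
  intro v h1 h2 k
  have h3 := h v h1 h2 (k - n)
  have e : (n : ℝ) + j - v - k = j - v - ((k - n : ℤ) : ℝ) := by
    push_cast
    ring
  rw [e]
  exact h3

/-- the offset is in a box between two integers -/
theorem OffS.of_box (a : ℤ) (h1 : a + δ ≤ j - hi / l) (h2 : j - lo / l ≤ a + 1 - δ) :
    OffS δ lo hi j := by
  intro v v1 v2 n
  have hl := l_pos
  have h3 : lo / l ≤ v := by rwa [div_le_iff₀ hl]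
  have h4 : v ≤ hi / l := by rwa [le_div_iff₀ hl]
  rcases le_or_gt n a with hn | hn
  · have h5 : (n : ℝ) ≤ a := by exact_mod_cast hn
    exact le_trans (by linarith) (le_abs_self _)
  · have h5 : (a : ℝ) + 1 ≤ n := by exact_mod_cast hn
    refine le_trans ?_ (neg_le_abs _)
    linarith

/-- **all offsets are away from the integers in the strip** -/
structure PGC (δ lo hi : ℝ) (P : Par6) : Prop where
  δ0 : 0 < δ
  δ1 : δ ≤ 1
  lo0 : lo ≤ 0
  hi0 : 0 ≤ hi
  oL : OffS δ lo hi P.jL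
  oe : OffS δ lo hi P.e
  o1 : OffS δ lo hi P.j1
  o2 : OffS δ lo hi P.j2
  oT : OffS δ lo hi (3 / 2)

namespace PGC

variable {P : Par6}

theorem mono {δ' lo' hi' : ℝ} (h : PGC δ lo hi P) (h0 : 0 < δ') (h1 : δ' ≤ δ) (h2 : lo ≤ lo')
    (h3 : hi' ≤ hi) (h4 : lo' ≤ 0) (h5 : 0 ≤ hi') : PGC δ' lo' hi' P :=
  ⟨h0, h1.trans h.δ1, h4, h5, (h.oL.weak h1).mono h2 h3, (h.oe.weak h1).mono h2 h3,
    (h.o1.weak h1).mono h2 h3, (h.o2.weak h1).mono h2 h3, (h.oT.weak h1).mono h2 h3⟩

/-- from the landed hypothesis: symmetric strip of half width `b` -/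
theorem of6 {b : ℝ} (h : PG6 δ P) (hb0 : 0 ≤ b) (hb : b < δ * l) : PGC (δ - b / l) (-b) b P := by
  have hl := l_pos
  have key : ∀ j : ℝ, Off δ j → OffS (δ - b / l) (-b) b j := by
    intro j hj v h1 h2 n
    have h3 := hj n
    have h4 : |v| ≤ b / l := by
      rw [le_div_iff₀ hl, ← abs_of_pos hl, ← abs_mul]
      exact abs_le.2 ⟨h1, h2⟩
    have h5 : |j - n| ≤ |j - v - n| + |v| := by
      have e : j - n = (j - v - n) + v := by ring
      rw [e]
      exact abs_add_le _ _
    linarith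
  have h6 : b / l < δ := by rwa [div_lt_iff₀ hl]
  have h7 : 0 ≤ b / l := by positivity
  refine ⟨by linarith, by linarith [h.δ1], by linarith, hb0, key _ h.oL, key _ h.oe, key _ h.o1,
    key _ h.o2, key _ ?_⟩
  intro n
  have h1 := h.δ1
  rcases le_or_gt n 1 with hn | hn
  · have h3 : (n : ℝ) ≤ 1 := by exact_mod_cast hn
    exact le_trans (by linarith) (le_abs_self _)
  · have h3 : (1 : ℝ) + 1 ≤ n := by exact_mod_cast hn
    refine le_trans ?_ (neg_le_abs _)
    linarith

/-- from the numbers: strip `- x l ≤ Im z ≤ y l` -/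
theorem of_num {x y : ℝ} (h0 : 0 < δ) (h1 : δ ≤ 1) (hx : 0 ≤ x) (hy : 0 ≤ y)
    (a1 : 2 + δ ≤ P.jL - y) (a2 : P.jL + x ≤ 3 - δ) (b1 : δ ≤ P.e - y) (b2 : P.e + x ≤ 1 - δ)
    (c1 : δ ≤ P.j1 - y) (c2 : P.j1 + x ≤ 1 - δ) (d1 : δ ≤ P.j2 - y) (d2 : P.j2 + x ≤ 1 - δ)
    (t1 : δ ≤ 1 / 2 - y) (t2 : x ≤ 1 / 2 - δ) : PGC δ (-(x * l)) (y * l) P := by
  have hl := l_pos
  have e1 : y * l / l = y := mul_div_cancel_right₀ _ hl.ne'
  have e2 : -(x * l) / l = -x := by
    rw [neg_div, mul_div_cancel_right₀ _ hl.ne']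
  have key : ∀ (j : ℝ) (a : ℤ), a + δ ≤ j - y → j + x ≤ a + 1 - δ → OffS δ (-(x * l)) (y * l) j :=
    fun j a u v => OffS.of_box a (by rw [e1]; exact u) (by rw [e2]; linarith)
  have hxl : 0 ≤ x * l := by positivity
  have hyl : 0 ≤ y * l := by positivity
  exact ⟨h0, h1, by linarith, hyl, key _ 2 (by push_cast; exact a1) (by push_cast; linarith),
    key _ 0 (by push_cast; linarith) (by push_cast; linarith),
    key _ 0 (by push_cast; linarith) (by push_cast; linarith),
    key _ 0 (by push_cast; linarith) (by push_cast; linarith),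
    key _ 1 (by push_cast; linarith) (by push_cast; linarith)⟩

/-- **the point `P_th`** (`parTh` of `PtTh`), strip `[- l / 250, 7 / 120 l + l / 250]` -/
theorem of_th (hL : P.jL = 31 / 15) (he : P.e = 9 / 20) (h1 : P.j1 = 3 / 40) (h2 : P.j2 = 39 / 40) :
    PGC (1 / 300) (-(1 / 250 * l)) ((7 / 120 + 1 / 250) * l) P := by
  refine of_num ?_ ?_ ?_ ?_ ?_ ?_ ?_ ?_ ?_ ?_ ?_ ?_ ?_ ?_ <;>
    first
      | (rw [hL]; norm_num)
      | (rw [he]; norm_num)
      | (rw [h1]; norm_num)
      | (rw [h2]; norm_num)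
      | norm_num

/-- the strip of `GDC` at the point `P_th` -/
theorem of_th' (hL : P.jL = 31 / 15) (he : P.e = 9 / 20) (h1 : P.j1 = 3 / 40) (h2 : P.j2 = 39 / 40)
    {w : ℝ} (hw : 0 < w) (hw1 : w ≤ l / 1000) : PGC (1 / 300) (-(l / 1000) - w) (7 / 120 * l + w) P := by
  have hl := l_pos
  exact (of_th hL he h1 h2).mono (by norm_num) le_rfl (by linarith) (by linarith) (by linarith)
    (by linarith)

/-- the offsets of the quanta of an object -/
theorem off (h : PGC δ lo hi P) (K : Kd6) : ∀ p ∈ offK6 P K, OffS δ lo hi p.2.1 := by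
  have t2 : OffS δ lo hi (5 / 2) := by
    have := h.oT.add_int 1
    push_cast at this
    convert this using 1
    norm_num
  have s2 : OffS δ lo hi (2 + P.e) := by
    have := h.oe.add_int 2
    push_cast at this
    exact this
  have s3 : OffS δ lo hi (3 + P.e) := by
    have := h.oe.add_int 3
    push_cast at this
    exact this
  cases K <;> simp only [offK6, List.forall_mem_cons]
  · exact ⟨h.oL, by simp⟩
  · exact ⟨h.oT, t2, by simp⟩
  · exact ⟨s2, s3, h.oe, by simp⟩
  · exact ⟨s2, s3, h.oe, h.oe, by simp⟩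
  · exact ⟨h.o1, by simp⟩
  · exact ⟨h.o2, by simp⟩

end PGC

/-! ### the potential of an object is the sum of the potentials of its quanta -/

/-- the species of a quantum of an object of species `y` -/
def qsp (o y : Bool) : Bool := if o = true then y else !y

lemma gq_ite (s y o : Bool) (j τ : ℝ) (z : ℂ) :
    (if (s = y) = (o = true) then NUO.fq j (z - τ) else NUO.fg j (z - τ)) = gq (qsp o y) j τ s z := by
  unfold gq qsp
  cases s <;> cases y <;> cases o <;> simp

theorem fO6_gq (P : Par6) (x : Xo) (s : Bool) (z : ℂ) : fO6 P x s z =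
    ((offK6 P (k6 x)).map fun p => ((p.2.2 : ℝ) : ℂ) * gq (qsp p.1 (sp x)) p.2.1 (ht x) s z).sum := by
  rw [PHK.fO6_eq]
  congr 1
  refine List.map_congr_left fun p _ => ?_
  rw [gq_ite]

lemma sum_abs_offK6 (P : Par6) (K : Kd6) {C : ℝ} (hC : 0 ≤ C) :
    ((offK6 P K).map fun p => |(p.2.2 : ℝ)| * C).sum ≤ 5 * C := by
  cases K <;> simp [offK6] <;> linarith

lemma norm_list_sum {ι : Type*} (L : List ι) (f : ι → ℂ) :
    ‖(L.map f).sum‖ ≤ (L.map fun p => ‖f p‖).sum := by
  induction L with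
  | nil => simp
  | cons a L ih =>
    rw [List.map_cons, List.sum_cons, List.map_cons, List.sum_cons]
    exact (norm_add_le _ _).trans (add_le_add le_rfl ih)

lemma hd_list_sum {ι : Type*} (L : List ι) {f : ι → ℂ → ℂ} {f1 : ι → ℂ} {z : ℂ}
    (h : ∀ p ∈ L, HasDerivAt (f p) (f1 p) z) :
    HasDerivAt (fun w => (L.map fun p => f p w).sum) (L.map f1).sum z := by
  induction L with
  | nil =>
    simp only [List.map_nil, List.sum_nil]
    exact hasDerivAt_const _ _
  | cons a L ih =>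
    simp only [List.map_cons, List.sum_cons]
    exact (h a (by simp)).add (ih fun p hp => h p (by simp [hp]))

/-! ### the blocks -/

section block

variable {w z : ℂ} (h : OffS δ lo hi (-(w.re / l))) (hδ : 0 < δ) (h1 : lo ≤ 0) (h2 : 0 ≤ hi)
include h hδ h1 h2

/-- **no wrap** -/
theorem wzS_le (hz1 : lo ≤ z.im) (hz2 : z.im ≤ hi) (k : ℤ) :
    |(wz w k z).im| ≤ Real.pi / 2 - δ * l := by
  have hl := l_pos
  have e0 : z.im / l * l = z.im := div_mul_cancel₀ _ hl.ne'
  have h3 := h.red_le hδ h1 h2 (v := z.im / l) (by rw [e0]; exact hz1) (by rw [e0]; exact hz2) (3 - k)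
  have e1 : (wz w k z).im = (z.im / l + NUO.red (((3 - k : ℤ) : ℝ) - (-(w.re / l)))) * l := by
    rw [NUO.wz_im, add_mul, e0]
    rfl
  rw [e1, abs_mul, abs_of_pos hl, ← NUO.four_l, ← sub_mul]
  exact mul_le_mul_of_nonneg_right h3 hl.le

theorem wzS_lt (hz1 : lo ≤ z.im) (hz2 : z.im ≤ hi) (k : ℤ) : |(wz w k z).im| < Real.pi / 2 :=
  (wzS_le h hδ h1 h2 hz1 hz2 k).trans_lt (by have := mul_pos hδ l_pos; linarith)

theorem hasDerivAt_bkS (hz1 : lo ≤ z.im) (hz2 : z.im ≤ hi) (k : ℤ) :
    HasDerivAt (bk w k) (bk1 w k z) z := by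
  have h4 := (Complex.hasDerivAt_cosh (wz w k z)).clog (NUMF.cosh_slit (wzS_lt h hδ h1 h2 hz1 hz2 k))
  have h5 : HasDerivAt (wz w k) 1 z := by
    unfold wz
    exact ((hasDerivAt_id z).sub_const _).add_const _
  have h3 := h4.comp z h5
  rw [mul_one] at h3
  unfold bk1
  rw [Complex.tanh_eq_sinh_div_cosh]
  exact h3

theorem exp_bkS (hz1 : lo ≤ z.im) (hz2 : z.im ≤ hi) (k : ℤ) :
    Real.exp (bk w k z).re = ‖sin ((l + I * z) - w + k * l)‖ := by
  rw [NUO.norm_sin_bk]
  unfold bk
  rw [Complex.log_re, Real.exp_log (norm_pos_iff.2 (NUMF.cosh_ne (wzS_lt h hδ h1 h2 hz1 hz2 k)))]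

end block

theorem hasDerivAt_cpS {x : Bool × Bool × ℂ} {z : ℂ} (h : OffS δ lo hi (-(x.2.2.re / l))) (hδ : 0 < δ)
    (h1 : lo ≤ 0) (h2 : 0 ≤ hi) (hz1 : lo ≤ z.im) (hz2 : z.im ≤ hi) (s : Bool) :
    HasDerivAt (cp s x) (cp1 s x z) z := by
  unfold cp cp1
  exact hd_list_sum _ fun kc _ => (hasDerivAt_bkS h hδ h1 h2 hz1 hz2 kc.1).const_mul _

/-- **modulus of the pair function**, from the moduli of the sines -/
theorem exp_cp_of (s : Bool) (x : Bool × Bool × ℂ) {ζ : ℂ}
    (hS : ∀ k : ℤ, Real.exp (bk x.2.2 k ζ).re = ‖sin ((l + I * ζ) - x.2.2 + k * l)‖) :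
    Real.exp (cp s x ζ).re = ‖pp (s, false, l + I * ζ) x‖ := by
  obtain ⟨sx, ty, w⟩ := x
  simp only at hS
  set z : ℂ := (l + I * ζ) - w with hz
  have hS : ∀ k : ℤ, ‖sin (z + k * l)‖ = Real.exp (bk w k ζ).re := fun k => (hS k).symm
  have s0 : ‖sin z‖ = Real.exp (bk w 0 ζ).re := by
    have := hS 0
    simpa using this
  have s1 : ‖sin (z + NUP1.l)‖ = Real.exp (bk w 1 ζ).re := by
    have := hS 1
    rw [NUO.ll_eq]
    simpa using this
  have s2 : ‖sin (z + 2 * NUP1.l)‖ = Real.exp (bk w 2 ζ).re := by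
    have := hS 2
    rw [NUO.ll_eq]
    simpa using this
  have s3 : ‖sin (z + 3 * NUP1.l)‖ = Real.exp (bk w 3 ζ).re := by
    have := hS 3
    rw [NUO.ll_eq]
    simpa using this
  have s4 : ‖cos z‖ = Real.exp (bk w 4 ζ).re := by
    have := hS 4
    have e : z + ((4 : ℤ) : ℂ) * l = z + Real.pi / 2 := by
      unfold NUMF.l
      push_cast
      ring
    rw [e, Complex.sin_add_pi_div_two] at this
    exact this
  have sm1 : ‖sin (z - NUP1.l)‖ = Real.exp (bk w (-1) ζ).re := by
    have := hS (-1)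
    rw [← this]
    congr 2
    rw [NUO.ll_eq]
    push_cast
    ring
  have sm2 : ‖sin (z - 2 * NUP1.l)‖ = Real.exp (bk w (-2) ζ).re := by
    have := hS (-2)
    rw [← this]
    congr 2
    rw [NUO.ll_eq]
    push_cast
    ring
  have sm3 : ‖sin (z - 3 * NUP1.l)‖ = Real.exp (bk w (-3) ζ).re := by
    have := hS (-3)
    rw [← this]
    congr 2
    rw [NUO.ll_eq]
    push_cast
    ring
  have c1 : ‖cos (z + NUP1.l)‖ = ‖sin (z - 3 * NUP1.l)‖ := by
    have e : z + NUP1.l = (z - 3 * NUP1.l) + Real.pi / 2 := by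
      unfold NUP1.l
      push_cast
      ring
    rw [e, Complex.cos_add_pi_div_two, norm_neg]
  have c2 : ‖sin (z + NUP1.l + 3 * NUP1.l)‖ = ‖cos z‖ := by
    have e : z + NUP1.l + 3 * NUP1.l = z + Real.pi / 2 := by
      unfold NUP1.l
      push_cast
      ring
    rw [e, Complex.sin_add_pi_div_two]
  have c3 : ‖sin (z + NUP1.l - 3 * NUP1.l)‖ = ‖sin (z - 2 * NUP1.l)‖ := by
    congr 2
    ring
  have p : ∀ k : ℤ, Real.exp (bk w k ζ).re ≠ 0 := fun k => (Real.exp_pos _).ne'
  unfold cp pp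
  by_cases hs : s = sx
  · subst hs
    cases ty
    · simp only [decide_true, mlt, List.map_cons, List.map_nil, List.sum_cons, List.sum_nil,
        if_true, NUP1.Kn.pz]
      rw [← hz]
      unfold NUP1.q
      rw [norm_div, norm_neg, norm_mul, norm_mul, norm_mul, norm_pow, s0, s2, sm2, s1, sm1]
      simp only [Complex.add_re, Complex.re_ofReal_mul, add_zero, one_mul,
        neg_one_mul, Real.exp_add, Real.exp_neg, NUO.exp_two]
      have := p 1
      have := p (-1)
      field_simp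
    · simp only [decide_true, mlt, List.map_cons, List.map_nil, List.sum_cons, List.sum_nil,
        if_true, NUP1.Kn.pz]
      rw [← hz]
      unfold NUP1.q1
      rw [norm_mul, norm_mul, norm_mul, s0, s1, sm2, s3]
      simp only [Complex.add_re, Complex.re_ofReal_mul, add_zero, one_mul,
        Real.exp_add]
      ring
  · have hd : decide (s = sx) = false := by simpa using hs
    cases ty
    · simp only [hd, mlt, List.map_cons, List.map_nil, List.sum_cons, List.sum_nil, if_neg hs,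
        NUP1.Kn.cz]
      rw [← hz]
      unfold NUP1.Bd.qg
      rw [norm_div, norm_mul, norm_pow, norm_pow, norm_pow, s4, s3, sm3]
      simp only [Complex.add_re, Complex.re_ofReal_mul, add_zero,
        neg_mul, Real.exp_add, Real.exp_neg, NUO.exp_two]
      have := p 3
      have := p (-3)
      field_simp
    · simp only [hd, mlt, List.map_cons, List.map_nil, List.sum_cons, List.sum_nil, if_neg hs,
        NUP1.Kn.cz]
      rw [← hz]
      unfold NUP1.Bd.qg
      rw [norm_mul, norm_div, norm_div, norm_mul, norm_mul, norm_pow, norm_pow, norm_pow, norm_pow,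
        norm_pow, norm_pow, c1, c2, c3, s4, s3, sm3, sm2]
      simp only [Complex.add_re, Complex.re_ofReal_mul, add_zero,
        neg_mul, Real.exp_add, Real.exp_neg, NUO.exp_two]
      have := p 3
      have := p (-3)
      have := p (-2)
      have := p 4
      field_simp

/-! ### objects -/

lemma offS_posL (t : ℝ) (h : OffS δ lo hi j) : OffS δ lo hi (-((posL j t).re / l)) := by
  have hl := l_pos
  have e : -((posL j t).re / l) = ((-1 : ℤ) : ℝ) + j := by
    simp [posL, NUP1.vl, NUO.ll_eq]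
    field_simp
    ring
  rw [e]
  exact h.add_int (-1)

/-- all constituents are away from the lattice, at the height of the object -/
theorem parts6_off {P : Par6} (h : PGC δ lo hi P) (x : Xo) :
    ∀ y ∈ parts6 P x, OffS δ lo hi (-(y.1.2.2.re / l)) ∧ y.1.2.2.im = ht x := by
  have hS : ∀ t, OffS δ lo hi (-((posS P.e t).re / l)) := by
    intro t
    rw [PHK.posS_eq]
    refine offS_posL t ?_
    have := h.oe.add_int 2
    push_cast at this
    exact this
  intro y hy
  unfold parts6 at hy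
  rcases hk : k6 x with _ | _ | _ | _ | _ | _ <;> simp only [hk] at hy
  · simp only [List.mem_cons, List.not_mem_nil, or_false] at hy
    subst hy
    exact ⟨offS_posL _ h.oL, PHK.posL_im _ _⟩
  · simp only [List.mem_cons, List.not_mem_nil, or_false] at hy
    subst hy
    refine ⟨?_, PHK.posT_im _⟩
    rw [PHK.posT_eq]
    exact offS_posL _ h.oT
  · simp only [List.mem_cons, List.not_mem_nil, or_false] at hy
    rcases hy with hy | hy
    · subst hy
      exact ⟨hS _, PHK.posS_im _ _⟩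
    · subst hy
      rw [PHK.posB_eq]
      exact ⟨offS_posL _ h.oe, PHK.posL_im _ _⟩
  · simp only [List.mem_cons, List.not_mem_nil, or_false] at hy
    rcases hy with hy | hy | hy
    · subst hy
      exact ⟨hS _, PHK.posS_im _ _⟩
    · subst hy
      rw [PHK.posB_eq]
      exact ⟨offS_posL _ h.oe, PHK.posL_im _ _⟩
    · subst hy
      rw [PHK.posB_eq]
      exact ⟨offS_posL _ h.oe, PHK.posL_im _ _⟩
  · simp only [List.mem_cons, List.not_mem_nil, or_false] at hy
    subst hy
    exact ⟨offS_posL _ h.o1, PHK.posL_im _ _⟩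
  · simp only [List.mem_cons, List.not_mem_nil, or_false] at hy
    subst hy
    exact ⟨offS_posL _ h.o2, PHK.posL_im _ _⟩

section obj

variable {P : Par6} (h : PGC δ lo hi P) {z : ℂ} (hz1 : lo ≤ z.im) (hz2 : z.im ≤ hi)
include h hz1 hz2

theorem hasDerivAt_fO6C (x : Xo) (s : Bool) : HasDerivAt (fO6 P x s) (fO61 P x s z) z := by
  unfold fO6 fO61
  exact hd_list_sum _ fun y hy =>
    (hasDerivAt_cpS (parts6_off h x y hy).1 h.δ0 h.lo0 h.hi0 hz1 hz2 s).const_mul _

/-- **size** -/
theorem norm_fO6C (x : Xo) (s : Bool) : ‖fO6 P x s z‖ ≤ 5 * AS δ * (1 + |z.re - ht x|) := by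
  have hA := AS_pos h.δ0 h.δ1
  rw [fO6_gq]
  refine (norm_list_sum _ _).trans ?_
  have h3 : ∀ p ∈ offK6 P (k6 x), ‖((p.2.2 : ℝ) : ℂ) * gq (qsp p.1 (sp x)) p.2.1 (ht x) s z‖ ≤
      |(p.2.2 : ℝ)| * (AS δ * (1 + |z.re - ht x|)) := by
    intro p hp
    rw [norm_mul, Complex.norm_real, Real.norm_eq_abs]
    exact mul_le_mul_of_nonneg_left (gqS_bd (h.off _ p hp) h.δ0 h.lo0 h.hi0 h.δ1 hz1 hz2)
      (abs_nonneg _)
  refine (List.sum_le_sum h3).trans ((sum_abs_offK6 P _ (by positivity)).trans (le_of_eq ?_))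
  ring

/-- **exactness** -/
theorem exp_fO6C {r : ℕ} (O : Fin r → Xo) (i : Fin r) (s : Bool) :
    potN6 P O i s (l + I * z) = Real.exp (fO6 P (O i) s z).re := by
  have hc := parts6_off h (O i)
  have key : ∀ L : List ((Bool × Bool × ℂ) × ℤ), (∀ y ∈ L, OffS δ lo hi (-(y.1.2.2.re / l))) →
      (L.map fun y => ‖pp (s, false, (l + I * z : ℂ)) y.1‖ ^ y.2).prod =
        Real.exp ((L.map fun y => ((y.2 : ℝ) : ℂ) * cp s y.1 z).sum).re := by
    intro L hL
    induction L with
    | nil => simp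
    | cons a L ih =>
      rw [List.map_cons, List.prod_cons, List.map_cons, List.sum_cons, Complex.add_re, Real.exp_add,
        ih fun y hy => hL y (by simp [hy]), Complex.re_ofReal_mul, PHK.exp_smul_int,
        exp_cp_of s a.1 (exp_bkS (hL a (by simp)) h.δ0 h.lo0 h.hi0 hz1 hz2)]
  unfold potN6 PHK.ppN6 PHK.cons6 fO6 PHK.pp6
  rw [List.map_cons, List.map_nil, List.prod_cons, List.prod_nil, mul_one]
  simp only [one_mul, norm_zpow]
  exact key _ fun y hy => (hc y hy).1

variable {r : ℕ} (O : Fin r → Xo) (s : Bool)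

theorem hasDerivAt_FO6C : HasDerivAt (FO6 P O s) (FO61 P O s z) z :=
  HasDerivAt.fun_sum fun i _ => hasDerivAt_fO6C h hz1 hz2 (O i) s

/-- **size of the potential of a configuration** -/
theorem norm_FO6C : ‖FO6 P O s z‖ ≤ 5 * AS δ * ∑ i, (1 + |z.re - ht (O i)|) := by
  unfold FO6
  rw [Finset.mul_sum]
  exact (norm_sum_le _ _).trans (Finset.sum_le_sum fun i _ => norm_fO6C h hz1 hz2 (O i) s)

/-- **exactness** -/
theorem exp_FO6C : ∏ i, potN6 P O i s (l + I * z) = Real.exp (FO6 P O s z).re := by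
  unfold FO6
  rw [Complex.re_sum, Real.exp_sum]
  exact Finset.prod_congr rfl fun i _ => exp_fO6C h hz1 hz2 O i s

end obj

/-- **the potential is admissible** -/
theorem ext_FO6C {P : Par6} (h : PGC δ lo hi P) {r : ℕ} (O : Fin r → Xo) (s : Bool) :
    SExt lo hi (FO6 P O s) := by
  have hA := AS_pos h.δ0 h.δ1
  refine SExt_of_lin (K := 5 * AS δ * ∑ i, (1 + |ht (O i)|)) (fun z a b =>
    (hasDerivAt_FO6C h a b O s).differentiableAt) fun z a b => ?_
  refine (norm_FO6C h a b O s).trans ?_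
  rw [mul_assoc (5 * AS δ)]
  refine mul_le_mul_of_nonneg_left ?_ (by positivity)
  rw [Finset.sum_mul]
  refine Finset.sum_le_sum fun i _ => ?_
  have h1 := abs_sub z.re (ht (O i))
  have h2 := abs_nonneg z.re
  have h3 := abs_nonneg (ht (O i))
  nlinarith

end

end PLT.Cv
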