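import Pool.Agent.PLT.SEval
import Pool.Agent.PLT.PotS
import Pool.Agent.PHK.WK
import Pool.Agent.PHK.OneB

/-!
# The constant of the action for a configuration of objects of the six kinds, static curve

Twin of `PHK/H0/CfgS6` over `PLT/SEval`.  **`S_cfgC`**:

`gas.S = ∑_i (mfo6 s - 2 π wind6 h) + ∫ P (s true Re A true (ga) + s false Re A false (ga)) + bil h' h'
  - ∑_a Re ∫ B_a A_a(ζ_a) + small`, `h = s true P η true`, `mfo6` the mean field over the static curve.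
-/

set_option autoImplicit false
set_option linter.unusedSectionVars false

open MeasureTheory Set Filter Topology Complex

noncomputable section

namespace PLT.Cv

open PHK hiding mfo6
open NUO (Xo ht sp fq fg wnu)
open NUMF (l)
open NUSea.PLX (Com)

variable {Q : Par6} {r : ℕ}

/-- **the interaction with the clouds, over the quanta** -/
theorem mfo6C_offK (B : SeaCB) [SeaC] [SeaCU B] (s : Bool → ℝ) (Q : Par6) (x : Xo) :
    mfo6 s (parts6 Q x) = ((offK6 Q (k6 x)).map fun p => (p.2.2 : ℝ) *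
      clo s (qsp p.1 (sp x)) p.2.1 (ht x)).sum := by
  rw [mfo6C_parts B, offS6_offK6, List.map_map]
  rfl

lemma sum_idxC (O' : Fin r → Xo) {M : Type*} [AddCommMonoid M]
    (f : Fin r → Bool × ℝ × ℤ → M) :
    ∑ c : (Σ i : Fin r, Fin (offK6 Q (k6 (O' i))).length), f c.1 ((offK6 Q (k6 (O' c.1)))[c.2.1]) =
      ∑ i, ((offK6 Q (k6 (O' i))).map (f i)).sum := by
  rw [Fintype.sum_sigma]
  refine Finset.sum_congr rfl fun i _ => ?_
  exact Fin.sum_univ_fun_getElem (offK6 Q (k6 (O' i))) (f i)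

/-- **The constant of the action of a configuration.** -/
theorem S_cfgC (B : SeaCB) {δ r0 : ℝ} (hδ : 0 < δ) (hδ1 : δ ≤ 1) (hr : 0 < r0) (hr1 : r0 ≤ 1) : ∃ C : ℝ, 1 ≤ C ∧
    ∀ [SeaC] [SeaCU B], ∀ (lo hi : ℝ), Str B lo hi →
    ∀ (s : Bool → ℝ) (ε M b K : ℝ) (e : ℝ → ℝ) (η η1 : Bool → ℝ → ℝ) (Q : Par6) (r : ℕ)
      (O' : Fin r → Xo) (A : Bool → ℂ → ℂ),
      Ok6 Q → PGC δ lo hi Q → (∀ a, 0 ≤ s a) → (∀ a, Cur (s a) ε M b e (η a)) →
      (∀ a t, HasDerivAt (η a) (η1 a t) t) → Com M s e η η1 → 0 ≤ b → C * ε ≤ 1 →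
      lo + C * ε + r0 ≤ -B.d → B.top + C * ε + r0 ≤ hi →
      0 ≤ K → (∀ t t', |s true * P t * η true t - s true * P t' * η true t'| ≤ K * |t - t'|) →
      (∀ a, SExt lo hi (A a)) →
      |(gas s η η1 (fun a z => FO6 Q O' a z + A a z)).S -
        ((∑ i, (mfo6 s (parts6 Q (O' i)) -
          2 * Real.pi * (wind6 (k6 (O' i)) * (s true * P (ht (O' i)) * η true (ht (O' i)))))) +
        (∫ t : ℝ, P t * (s true * (A true (ga t)).re + s false * (A false (ga t)).re)) +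
        NUCR.bil (hd (s true) (η true) (η1 true)) (hd (s true) (η true) (η1 true)) -
        ∑ a, (∫ t, Bf (s a) (gD (η a)) (gD1 (η a) (η1 a)) t * A a (zt (gD (η a)) t)).re)| ≤
        C * r * ((b + 1) ^ 2 * (M * ε) + K) + C * (b + 1) ^ 3 * (M ^ 2 * ε) + C * K ^ 2 := by
  obtain ⟨C, hC, H⟩ := main6C B hδ hδ1 hr hr1
  refine ⟨10 * C, by linarith, ?_⟩
  intro _ hS lo hi St s ε M b K e η η1 Q r O' A hOk hQ hs hcur h1 hcom hb hsm hlo hhi hK hKL hA
  have hε0 := (hcur true).ε0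
  have hM0 := (hcur true).M0 B (hs true)
  have hMε := mul_nonneg hM0 hε0
  have hCp : 0 < C := by linarith
  have q0 : 0 ≤ C * ε := by positivity
  have hExt : ∀ a, SExt lo hi (fun z => FO6 Q O' a z + A a z) := fun a => (ext_FO6C hQ O' a).add (hA a)
  have h2 := @H _ hS lo hi St s ε M b K 0 e η η1 (fun a z => FO6 Q O' a z + A a z) A
    (Σ i : Fin r, Fin (offK6 Q (k6 (O' i))).length) _
    (fun c => (((offK6 Q (k6 (O' c.1)))[c.2.1]).2.2 : ℝ))
    (fun c => qsp ((offK6 Q (k6 (O' c.1)))[c.2.1]).1 (sp (O' c.1)))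
    (fun c => ((offK6 Q (k6 (O' c.1)))[c.2.1]).2.1) (fun c => ht (O' c.1))
    (fun c => ht (O' c.1)) hs hcur h1 hcom hb (by linarith) (by linarith) (by linarith) hK hKL hExt
    (fun c => hQ.off _ _ (List.getElem_mem c.2.2))
    (fun c => by rw [sub_self, abs_zero]) (fun a z _ _ => by
      rw [sum_idxC O' (fun i p => ((p.2.2 : ℝ) : ℂ) * gq (qsp p.1 (sp (O' i))) p.2.1 (ht (O' i)) a z)]
      congr 1
      unfold FO6
      exact Finset.sum_congr rfl fun i _ => fO6_gq Q (O' i) a z)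
  have s1 : ∑ c : (Σ i : Fin r, Fin (offK6 Q (k6 (O' i))).length),
      (((offK6 Q (k6 (O' c.1)))[c.2.1]).2.2 : ℝ) *
      clo s (qsp ((offK6 Q (k6 (O' c.1)))[c.2.1]).1 (sp (O' c.1)))
        ((offK6 Q (k6 (O' c.1)))[c.2.1]).2.1 (ht (O' c.1)) = ∑ i, mfo6 s (parts6 Q (O' i)) := by
    rw [sum_idxC O' (fun i p => (p.2.2 : ℝ) * clo s (qsp p.1 (sp (O' i))) p.2.1 (ht (O' i)))]
    exact Finset.sum_congr rfl fun i _ => (mfo6C_offK B s Q (O' i)).symm
  have s2 : ∑ c : (Σ i : Fin r, Fin (offK6 Q (k6 (O' i))).length),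
      (((offK6 Q (k6 (O' c.1)))[c.2.1]).2.2 : ℝ) * (wnu ((offK6 Q (k6 (O' c.1)))[c.2.1]).2.1 *
        (s true * P (ht (O' c.1)) * η true (ht (O' c.1)))) =
      ∑ i, wind6 (k6 (O' i)) * (s true * P (ht (O' i)) * η true (ht (O' i))) := by
    rw [sum_idxC O' (fun i p => (p.2.2 : ℝ) * (wnu p.2.1 *
      (s true * P (ht (O' i)) * η true (ht (O' i)))))]
    refine Finset.sum_congr rfl fun i _ => ?_
    simp_rw [← mul_assoc ((_ : ℤ) : ℝ)]
    rw [List.sum_map_mul_right, (wnu_sum6 hOk _).1]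
  have s3 : ∑ c : (Σ i : Fin r, Fin (offK6 Q (k6 (O' i))).length),
      |(((offK6 Q (k6 (O' c.1)))[c.2.1]).2.2 : ℝ)| *
        (1 + |wnu ((offK6 Q (k6 (O' c.1)))[c.2.1]).2.1|) ≤ 10 * r := by
    rw [sum_idxC O' (fun _ p => |(p.2.2 : ℝ)| * (1 + |wnu p.2.1|))]
    refine (Finset.sum_le_sum fun i _ => (wnu_sum6 hOk _).2).trans (le_of_eq ?_)
    rw [Finset.sum_const, Finset.card_univ, Fintype.card_fin, nsmul_eq_mul]
    ring
  rw [s1, s2] at h2
  rw [Finset.sum_sub_distrib, ← Finset.mul_sum]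
  have e3 : ∀ X a c d f g : ℝ, X - (a - c + d + f - g) = X - (a + d - c + f - g) := fun _ _ _ _ _ _ => by
    ring
  rw [e3]
  refine h2.trans ?_
  have hE0 : 0 ≤ (b + 1) ^ 2 * (M * ε) := by positivity
  have t1 : C * (∑ c : (Σ i : Fin r, Fin (offK6 Q (k6 (O' i))).length),
      |(((offK6 Q (k6 (O' c.1)))[c.2.1]).2.2 : ℝ)| *
        (1 + |wnu ((offK6 Q (k6 (O' c.1)))[c.2.1]).2.1|)) * ((b + 1) ^ 2 * (M * ε) + K * (1 + 0)) ≤
      C * (10 * r) * ((b + 1) ^ 2 * (M * ε) + K * (1 + 0)) := by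
    gcongr
  have t2 : C * (10 * r) * ((b + 1) ^ 2 * (M * ε) + K * (1 + 0)) =
      10 * C * r * ((b + 1) ^ 2 * (M * ε) + K) := by ring
  have t3 : C * (b + 1) ^ 3 * (M ^ 2 * ε) ≤ 10 * C * (b + 1) ^ 3 * (M ^ 2 * ε) := by
    have : 0 ≤ C * (b + 1) ^ 3 * (M ^ 2 * ε) := by positivity
    nlinarith
  have t4 : C * K ^ 2 ≤ 10 * C * K ^ 2 := by
    have : 0 ≤ C * K ^ 2 := by positivity
    linarith
  linarith

end PLT.Cv

end
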