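import Pool.Agent.PLT.SeaD
import Pool.Agent.NUAct.Cur

/-!
# Weighted calculus on the static curve and the transported density of a current

* `Pr_OC`, `P_OC`, `inv_OC`: all derivatives along the curve of `Pc`, `P`, `1 / P`;
* `Tn`, `Sn`, `Br = Bf - af`, `Br_OC`, `af_OC`;
* a real current `h = s P η` displaces the curve by **`gD η = I η ga'`**, derivative `gD1 η η1`;
  `af s (gD η) (gD1 η η1) = I hd`, `hd = (s P η)'`;
* `Cur s ε M b e η`, `exists_cur`, `Cur_disp`, **`exists_BB`**.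
-/

set_option autoImplicit false
set_option linter.unusedSectionVars false
set_option linter.unusedVariables false

open MeasureTheory Set Filter Topology Complex
open scoped ContDiff

namespace PLT.Cv

open NUMF (l l_pos)
open NUAct (OC OC_of_iter)
open NUKer (iD)

noncomputable section

/-! ### the density along the curve -/

theorem Pr_OC (B : SeaCB) (j : ℕ) : ∀ k : ℕ, ∃ C : ℝ, 0 < C ∧ ∀ [SeaC] [SeaCU B],
    OC j (fun t => C * P t) fun t => iteratedDeriv k Pc (ga t) := by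
  induction j with
  | zero =>
    intro k
    obtain ⟨C, hC, h⟩ := Pn_bd B k
    refine ⟨C, hC, @fun _ hS => ⟨continuous_iff_continuousAt.2 fun x =>
      (hasDerivAt_real B k x).continuousAt, fun t => ?_⟩⟩
    have := h t 0 (by simpa using B.r0.le)
    rwa [add_zero] at this
  | succ j ih =>
    intro k
    obtain ⟨C, hC, h⟩ := Pn_bd B k
    obtain ⟨C', hC', h'⟩ := ih (k + 1)
    obtain ⟨G, hG, hg⟩ := ga'_OC B j
    refine ⟨C + 2 ^ j * (C' * G), by positivity, @fun _ hS => ⟨fun t => ?_,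
      fun t => iteratedDeriv (k + 1) Pc (ga t) * ga' t, hasDerivAt_real B k,
      (h'.mul hg).mono fun t => ?_⟩⟩
    · have := h t 0 (by simpa using B.r0.le)
      rw [add_zero] at this
      have hp := P_pos B t
      have h1 : 0 ≤ 2 ^ j * (C' * G) * P t := by positivity
      refine this.trans ?_
      show C * P t ≤ (C + 2 ^ j * (C' * G)) * P t
      rw [add_mul]
      linarith
    · have hp := P_pos B t
      have h1 : 0 ≤ C * P t := by positivity
      calc 2 ^ j * (C' * P t * G) = 2 ^ j * (C' * G) * P t := by ring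
        _ ≤ _ := by rw [add_mul]; linarith

theorem P_OC (B : SeaCB) (j : ℕ) : ∃ C : ℝ, 0 < C ∧ ∀ [SeaC] [SeaCU B],
    OC j (fun t => C * P t) fun t => (P t : ℂ) := by
  obtain ⟨C, hC, h⟩ := Pr_OC B j 0
  obtain ⟨G, hG, hg⟩ := ga'_OC B j
  refine ⟨2 ^ j * (C * G), by positivity, @fun _ hS => ((h.mul hg).mono fun t => le_of_eq
    (by ring)).congr fun t => ?_⟩
  simp only [iteratedDeriv_zero]
  exact Pc_ga t

theorem PD_OC (B : SeaCB) (j : ℕ) : ∃ C : ℝ, 0 < C ∧ ∀ [SeaC] [SeaCU B],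
    OC j (fun t => C * P t) PD := by
  obtain ⟨C, hC, h⟩ := P_OC B (j + 1)
  refine ⟨C, hC, @fun _ hS => ?_⟩
  obtain ⟨-, f', h1, h2⟩ := @h _ hS
  have e : f' = PD := funext fun t => (h1 t).unique (hasDerivAt_Pt B t)
  rwa [e] at h2

/-- the inverse density -/
theorem inv_OC (B : SeaCB) (j : ℕ) : ∃ C : ℝ, 0 < C ∧ ∀ [SeaC] [SeaCU B],
    OC j (fun t => C / P t) fun t => (((P t)⁻¹ : ℝ) : ℂ) := by
  induction j with
  | zero =>
    refine ⟨1, one_pos, @fun _ hS => ⟨Complex.continuous_ofReal.comp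
      ((P_cont B).inv₀ fun t => (P_pos B t).ne'), fun t => ?_⟩⟩
    rw [Complex.norm_real, Real.norm_eq_abs, abs_of_pos (inv_pos.2 (P_pos B t))]
    exact (one_div (P t)).symm.le
  | succ j ih =>
    obtain ⟨C', hC', h'⟩ := ih
    obtain ⟨C1, hC1, h1⟩ := PD_OC B j
    refine ⟨1 + 2 ^ j * (2 ^ j * (C1 * C') * C'), by positivity, @fun _ hS => ⟨fun t => ?_,
      fun t => -(PD t * (((P t)⁻¹ : ℝ) : ℂ) * (((P t)⁻¹ : ℝ) : ℂ)), fun t => ?_, ?_⟩⟩
    · rw [Complex.norm_real, Real.norm_eq_abs, abs_of_pos (inv_pos.2 (P_pos B t)), ← one_div]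
      have hp := P_pos B t
      have : 0 ≤ 2 ^ j * (2 ^ j * (C1 * C') * C') := by positivity
      exact div_le_div_of_nonneg_right (by linarith) hp.le
    · have hp : (P t : ℂ) ≠ 0 := by exact_mod_cast (P_pos B t).ne'
      have h2 := (hasDerivAt_Pt B t).inv hp
      refine (h2.congr_deriv ?_).congr_of_eventuallyEq (Eventually.of_forall fun x => ?_)
      · push_cast
        field_simp
      · push_cast
        rfl
    · refine ((h1.mul h').mul h').neg.mono fun t => ?_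
      have hp := (P_pos B t).ne'
      have hp' := P_pos B t
      have e : 2 ^ j * (2 ^ j * (C1 * P t * (C' / P t)) * (C' / P t)) =
          (2 ^ j * (2 ^ j * (C1 * C') * C')) / P t := by
        field_simp
      rw [e]
      gcongr
      linarith

theorem P_comp (B : SeaCB) : ∃ c : ℝ, 0 < c ∧ ∀ [SeaC] [SeaCU B], ∀ b t : ℝ, 0 ≤ b →
    |t| ≤ b + 1 → c * P b ≤ P t := by
  obtain ⟨C, hC, h1⟩ := P_le B
  obtain ⟨c, hc, h2⟩ := le_P B
  refine ⟨c / C * Real.exp (-(8 / 3)), by positivity, @fun _ hS b t hb ht => ?_⟩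
  have h3 := h1 b
  rw [abs_of_nonneg hb] at h3
  have h4 : Real.exp (-(8 / 3)) * Real.exp (-(8 / 3) * b) ≤ Real.exp (-(8 / 3) * |t|) := by
    rw [← Real.exp_add]
    exact Real.exp_le_exp.2 (by linarith)
  calc c / C * Real.exp (-(8 / 3)) * P b ≤
        c / C * Real.exp (-(8 / 3)) * (C * Real.exp (-(8 / 3) * b)) := by gcongr
    _ = c * (Real.exp (-(8 / 3)) * Real.exp (-(8 / 3) * b)) := by field_simp
    _ ≤ c * Real.exp (-(8 / 3) * |t|) := by gcongr
    _ ≤ _ := h2 t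

/-! ### increments -/

section

variable [SeaC]

/-- first order increments -/
def Tn (k : ℕ) (δ : ℝ → ℂ) (t : ℝ) : ℂ := iteratedDeriv k Pc (zt δ t) - iteratedDeriv k Pc (ga t)

/-- second order increments -/
def Sn (k : ℕ) (δ : ℝ → ℂ) (t : ℝ) : ℂ :=
  iteratedDeriv k Pc (zt δ t) - iteratedDeriv k Pc (ga t) - iteratedDeriv (k + 1) Pc (ga t) * δ t

/-- second order part of the transported density -/
def Br (s : ℝ) (δ δ1 : ℝ → ℂ) (t : ℝ) : ℂ := (s : ℂ) * (ga' t * Sn 0 δ t + δ1 t * Tn 0 δ t)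

lemma Bf_eq (s : ℝ) (δ δ1 : ℝ → ℂ) (t : ℝ) : Bf s δ δ1 t = af s δ δ1 t + Br s δ δ1 t := by
  unfold Bf af Br Sn Tn zt zd
  simp only [iteratedDeriv_zero, zero_add]
  rw [Complex.ofReal_mul, ← Pc_ga]
  ring

end

theorem Tn_OC (B : SeaCB) (j : ℕ) : ∀ k : ℕ, ∃ C : ℝ, 0 < C ∧ ∀ [SeaC] [SeaCU B],
    ∀ {e : ℝ → ℝ} {δ : ℝ → ℂ}, OC j e δ → (∀ t, e t ≤ B.r) →
    OC j (fun t => C * (P t * e t)) (Tn k δ) := by
  induction j with
  | zero =>
    intro k
    obtain ⟨C, hC, h⟩ := tay1 B k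
    obtain ⟨C0, hC0, h0⟩ := Pr_OC B 0 k
    refine ⟨C, hC, @fun _ hS e δ hδ he => ⟨?_, fun t => ?_⟩⟩
    · exact (cont_PcD B k hδ.cont fun t => (hδ.le t).trans (he t)).sub h0.cont
    · refine (h t (δ t) ((hδ.le t).trans (he t))).trans ?_
      have := P_pos B t
      have := hδ.le t
      calc C * P t * ‖δ t‖ ≤ C * P t * e t := by gcongr
        _ = _ := by ring
  | succ j ih =>
    intro k
    obtain ⟨C, hC, h⟩ := tay1 B k
    obtain ⟨C', hC', h'⟩ := ih (k + 1)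
    obtain ⟨C2, hC2, h2⟩ := Pr_OC B j (k + 1)
    obtain ⟨G, hG, hg⟩ := ga'_OC B j
    refine ⟨C + (2 ^ j * (C' * (G + 1)) + 2 ^ j * C2), by positivity, @fun _ hS e δ hδ he => ?_⟩
    have hδl := hδ.lower
    have hsm : ∀ t, ‖δ t‖ ≤ B.r := fun t => (hδ.le t).trans (he t)
    have he0 := hδ.nonneg
    obtain ⟨d0, δ1, d1, d2⟩ := hδ
    refine ⟨fun t => ?_, fun t => Tn (k + 1) δ t * (ga' t + δ1 t) +
      δ1 t * iteratedDeriv (k + 1) Pc (ga t), fun t => ?_, ?_⟩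
    · refine (h t (δ t) (hsm t)).trans ?_
      have hp := P_pos B t
      have h0 : 0 ≤ P t * e t := mul_nonneg hp.le (he0 t)
      calc C * P t * ‖δ t‖ ≤ C * P t * e t := by
            have := d0 t
            gcongr
        _ = C * (P t * e t) := by ring
        _ ≤ _ := by
            refine mul_le_mul_of_nonneg_right ?_ h0
            have : 0 ≤ 2 ^ j * (C' * (G + 1)) + 2 ^ j * C2 := by positivity
            linarith
    · have h3 := (hasDerivAt_PcD B k d1 hsm t).sub (hasDerivAt_real B k t)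
      refine h3.congr_deriv ?_
      unfold Tn
      ring
    · have e1 : OC j (fun _ => G + 1) fun t => ga' t + δ1 t := by
        have := hg.add d2
        refine this.mono fun t => ?_
        have := he t
        have := r_small B
        linarith
      have e2 := ((h' hδl he).mul e1).add (d2.mul h2)
      refine e2.mono fun t => ?_
      have hp := P_pos B t
      have h0 : 0 ≤ P t * e t := mul_nonneg hp.le (he0 t)
      have h1 : 0 ≤ C * (P t * e t) := by positivity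
      calc 2 ^ j * (C' * (P t * e t) * (G + 1)) + 2 ^ j * (e t * (C2 * P t)) =
            (2 ^ j * (C' * (G + 1)) + 2 ^ j * C2) * (P t * e t) := by ring
        _ ≤ _ := by rw [add_mul C]; linarith

theorem Sn_OC (B : SeaCB) (j : ℕ) : ∀ k : ℕ, ∃ C : ℝ, 0 < C ∧ ∀ [SeaC] [SeaCU B],
    ∀ {e : ℝ → ℝ} {δ : ℝ → ℂ}, OC j e δ → (∀ t, e t ≤ B.r) →
    OC j (fun t => C * (P t * e t ^ 2)) (Sn k δ) := by
  induction j with
  | zero =>
    intro k
    obtain ⟨C, hC, h⟩ := tay2 B k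
    obtain ⟨C0, hC0, h0⟩ := Pr_OC B 0 k
    obtain ⟨C1, hC1, h1⟩ := Pr_OC B 0 (k + 1)
    refine ⟨C, hC, @fun _ hS e δ hδ he => ⟨?_, fun t => ?_⟩⟩
    · exact ((cont_PcD B k hδ.cont fun t => (hδ.le t).trans (he t)).sub h0.cont).sub
        (h1.cont.mul hδ.cont)
    · refine (h t (δ t) ((hδ.le t).trans (he t))).trans ?_
      have := P_pos B t
      have := hδ.le t
      calc C * P t * ‖δ t‖ ^ 2 ≤ C * P t * e t ^ 2 := by gcongr
        _ = _ := by ring
  | succ j ih =>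
    intro k
    obtain ⟨C, hC, h⟩ := tay2 B k
    obtain ⟨C', hC', h'⟩ := ih (k + 1)
    obtain ⟨C2, hC2, h2⟩ := Tn_OC B j (k + 1)
    obtain ⟨G, hG, hg⟩ := ga'_OC B j
    refine ⟨C + (2 ^ j * (C' * G) + 2 ^ j * C2), by positivity, @fun _ hS e δ hδ he => ?_⟩
    have hδl := hδ.lower
    have hsm : ∀ t, ‖δ t‖ ≤ B.r := fun t => (hδ.le t).trans (he t)
    have he0 := hδ.nonneg
    obtain ⟨d0, δ1, d1, d2⟩ := hδ
    refine ⟨fun t => ?_, fun t => Sn (k + 1) δ t * ga' t + δ1 t * Tn (k + 1) δ t, fun t => ?_, ?_⟩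
    · refine (h t (δ t) (hsm t)).trans ?_
      have hp := P_pos B t
      have h0 : 0 ≤ P t * e t ^ 2 := by positivity
      calc C * P t * ‖δ t‖ ^ 2 ≤ C * P t * e t ^ 2 := by
            have := d0 t
            gcongr
        _ = C * (P t * e t ^ 2) := by ring
        _ ≤ _ := by
            refine mul_le_mul_of_nonneg_right ?_ h0
            have : 0 ≤ 2 ^ j * (C' * G) + 2 ^ j * C2 := by positivity
            linarith
    · have h3 := ((hasDerivAt_PcD B k d1 hsm t).sub (hasDerivAt_real B k t)).sub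
        ((hasDerivAt_real B (k + 1) t).mul (d1 t))
      refine h3.congr_deriv ?_
      unfold Sn Tn
      ring
    · have e2 := ((h' hδl he).mul hg).add (d2.mul (h2 hδl he))
      refine e2.mono fun t => ?_
      have hp := P_pos B t
      have h0 : 0 ≤ P t * e t ^ 2 := by positivity
      have h1 : 0 ≤ C * (P t * e t ^ 2) := by positivity
      calc 2 ^ j * (C' * (P t * e t ^ 2) * G) + 2 ^ j * (e t * (C2 * (P t * e t))) =
            (2 ^ j * (C' * G) + 2 ^ j * C2) * (P t * e t ^ 2) := by ring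
        _ ≤ _ := by rw [add_mul C]; linarith

theorem Br_OC (B : SeaCB) (j : ℕ) : ∃ C : ℝ, 0 < C ∧ ∀ [SeaC] [SeaCU B], ∀ {s : ℝ} {e : ℝ → ℝ}
    {δ δ1 : ℝ → ℂ}, 0 ≤ s → (∀ t, HasDerivAt δ (δ1 t) t) → OC j e δ → OC j e δ1 →
    (∀ t, e t ≤ B.r) → OC j (fun t => C * (s * P t * e t ^ 2)) (Br s δ δ1) := by
  obtain ⟨C1, h1, H1⟩ := Sn_OC B j 0
  obtain ⟨C2, h2, H2⟩ := Tn_OC B j 0
  obtain ⟨G, hG, hg⟩ := ga'_OC B j
  refine ⟨2 ^ j * (G * C1) + 2 ^ j * C2, by positivity, @fun _ hS s e δ δ1 hs _ h h' he => ?_⟩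
  have := (((hg.mul (H1 h he)).add (h'.mul (H2 h he))).smul (s : ℂ))
  refine this.mono fun t => le_of_eq ?_
  rw [Complex.norm_real, Real.norm_eq_abs, abs_of_nonneg hs]
  ring

theorem af_OC (B : SeaCB) (j : ℕ) : ∃ C : ℝ, 0 < C ∧ ∀ [SeaC] [SeaCU B], ∀ {s : ℝ} {e : ℝ → ℝ}
    {δ δ1 : ℝ → ℂ}, 0 ≤ s → OC j e δ → OC j e δ1 →
    OC j (fun t => C * (s * P t * e t)) (af s δ δ1) := by
  obtain ⟨C1, h1, H1⟩ := Pr_OC B j 1
  obtain ⟨C0, h0, H0⟩ := Pr_OC B j 0
  obtain ⟨G, hG, hg⟩ := ga'_OC B j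
  simp only [iteratedDeriv_zero] at H0
  refine ⟨2 ^ j * (2 ^ j * (C1 * G)) + 2 ^ j * C0, by positivity, @fun _ hS s e δ δ1 hs h h' => ?_⟩
  have := ((((H1.mul hg).mul h).add (H0.mul h')).smul (s : ℂ))
  refine this.mono fun t => le_of_eq ?_
  rw [Complex.norm_real, Real.norm_eq_abs, abs_of_nonneg hs]
  ring

/-! ### real currents -/

section

variable [SeaC]

/-- the displacement of a real function: `I η` in the direction of the curve -/
def gD (η : ℝ → ℝ) (t : ℝ) : ℂ := iD η t * ga' t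

/-- its derivative -/
def gD1 (η η1 : ℝ → ℝ) (t : ℝ) : ℂ := iD η1 t * ga' t + iD η t * ga2 t

lemma hasDerivAt_gD {η η1 : ℝ → ℝ} (h1 : ∀ t, HasDerivAt η (η1 t) t) (t : ℝ) :
    HasDerivAt (gD η) (gD1 η η1 t) t :=
  ((h1 t).ofReal_comp.mul_const I).mul (hasDerivAt_ga' t)

/-- an admissible real displacement -/
structure Cur (s ε M b : ℝ) (e : ℝ → ℝ) (η : ℝ → ℝ) : Prop where
  oc : OC 4 e (iD η)
  le : ∀ t, e t ≤ ε
  mass : ∀ t, s * P t * e t ≤ M
  supp : ∀ t, b < |t| → e t = 0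

variable {s ε M b : ℝ} {e η η1 : ℝ → ℝ}

namespace Cur

lemma nonneg (h : Cur s ε M b e η) (t : ℝ) : 0 ≤ e t := h.oc.nonneg t

lemma ε0 (h : Cur s ε M b e η) : 0 ≤ ε := (h.nonneg 0).trans (h.le 0)

lemma O4 (h : Cur s ε M b e η) : NUOC.O 4 ε η := by
  refine (h.oc.im h.le).congr fun t => ?_
  simp [iD]

lemma oc1 (h : Cur s ε M b e η) (h1 : ∀ t, HasDerivAt η (η1 t) t) : OC 3 e (iD η1) := by
  obtain ⟨a0, f', a1, a2⟩ := h.oc
  have e1 : f' = iD η1 := by
    funext t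
    have h2 : HasDerivAt (iD η) (iD η1 t) t := (h1 t).ofReal_comp.mul_const I
    exact (a1 t).unique h2
  rwa [e1] at a2

lemma exists_deriv (h : Cur s ε M b e η) : ∃ η1 : ℝ → ℝ, ∀ t, HasDerivAt η (η1 t) t := by
  obtain ⟨_, f', h1, _⟩ := h.O4
  exact ⟨f', h1⟩

end Cur

end

lemma Cur.M0 (B : SeaCB) [SeaC] [SeaCU B] {s ε M b : ℝ} {e η : ℝ → ℝ} (h : Cur s ε M b e η)
    (hs : 0 ≤ s) : 0 ≤ M :=
  (mul_nonneg (mul_nonneg hs (P_pos B 0).le) (h.nonneg 0)).trans (h.mass 0)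

/-- **currents give admissible displacements** -/
theorem exists_cur (B : SeaCB) : ∃ C : ℝ, 1 ≤ C ∧ ∀ [SeaC] [SeaCU B], ∀ s M b : ℝ, 0 < s → 0 ≤ b →
    ∀ h : ℝ → ℝ, ContDiff ℝ 4 h → (∀ k ≤ 4, ∀ t, |iteratedDeriv k h t| ≤ M) →
    (∀ t, b ≤ |t| → h t = 0) →
    ∃ e : ℝ → ℝ, Cur s (C * M / (s * P b)) (C * M) b e fun t => h t / (s * P t) := by
  obtain ⟨C1, hC1, a1⟩ := inv_OC B 4
  obtain ⟨c1, hc1, Hc⟩ := P_comp B
  obtain ⟨C2, hC2d⟩ : ∃ C2 : ℝ, C2 = 16 * C1 := ⟨_, rfl⟩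
  have hC2 : 0 < C2 := by rw [hC2d]; positivity
  refine ⟨1 + C2 + C2 / c1, by
    have : 0 < C2 / c1 := by positivity
    linarith, @fun _ hS s M b hs hb h hh hM hsupp => ?_⟩
  have hM0 : 0 ≤ M := (abs_nonneg _).trans (hM 0 (by norm_num) 0)
  -- the current
  have a2 : OC 4 (fun t => if |t| ≤ b then M else 0) fun t => (h t : ℂ) := by
    refine OC_of_iter hh fun k hk t => ?_
    split_ifs with ht
    · exact hM k hk t
    · rw [NUCUR.iter_zero_out hsupp k t (not_le.1 ht), abs_zero]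
  have a3 := (a2.mul a1).smul (I * ((s⁻¹ : ℝ) : ℂ))
  refine ⟨fun t => if |t| ≤ b then C2 * M / (s * P t) else 0, ⟨?_, ?_, ?_, ?_⟩⟩
  · refine (a3.mono fun t => le_of_eq ?_).congr fun t => ?_
    · rw [norm_mul, Complex.norm_I, one_mul, Complex.norm_real, Real.norm_eq_abs,
        abs_of_pos (inv_pos.2 hs), hC2d]
      have hp := (P_pos B t).ne'
      split_ifs
      · field_simp
        ring
      · simp
    · unfold iD
      push_cast
      rw [div_eq_mul_inv, mul_inv]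
      ring
  · intro t
    have hpb := P_pos B b
    have hp := P_pos B t
    split_ifs with ht
    · have h1 := Hc b t hb (ht.trans (by linarith : b ≤ b + 1))
      have h2 : 0 ≤ C2 * M := by positivity
      rw [div_le_div_iff₀ (by positivity) (by positivity)]
      have h3 : P b ≤ P t / c1 := by
        rw [le_div_iff₀ hc1]
        linarith
      calc C2 * M * (s * P b) ≤ C2 * M * (s * (P t / c1)) := by gcongr
        _ = C2 / c1 * (M * (s * P t)) := by ring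
        _ ≤ (1 + C2 + C2 / c1) * (M * (s * P t)) := by
            refine mul_le_mul_of_nonneg_right ?_ (by positivity)
            linarith
        _ = _ := by ring
    · positivity
  · intro t
    have hp := P_pos B t
    have h2 : C2 * M ≤ (1 + C2 + C2 / c1) * M := by
      refine mul_le_mul_of_nonneg_right ?_ hM0
      have : 0 < C2 / c1 := by positivity
      linarith
    split_ifs with ht
    · rw [mul_div_cancel₀ _ (by positivity : s * P t ≠ 0)]
      exact h2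
    · rw [mul_zero]
      exact le_trans (by positivity) h2
  · intro t ht
    rw [if_neg (not_le.2 ht)]

/-- the displacement of a current, with all derivatives -/
theorem gD_OC (B : SeaCB) : ∃ C : ℝ, 1 ≤ C ∧ ∀ [SeaC] [SeaCU B], ∀ {s ε M b : ℝ}
    {e η η1 : ℝ → ℝ}, Cur s ε M b e η → (∀ t, HasDerivAt η (η1 t) t) →
    OC 4 (fun t => C * e t) (gD η) ∧ OC 3 (fun t => C * e t) (gD1 η η1) := by
  obtain ⟨G, hG, hg⟩ := ga'_OC B 4
  refine ⟨2 ^ 4 * G, by linarith, @fun _ hS s ε M b e η η1 hc h1 => ?_⟩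
  have a : OC 4 (fun t => 2 ^ 4 * G * e t) (gD η) :=
    (hc.oc.mul hg).mono fun t => le_of_eq (by ring)
  refine ⟨a, ?_⟩
  obtain ⟨-, f', b1, b2⟩ := a
  have e1 : f' = gD1 η η1 := funext fun t => (b1 t).unique (hasDerivAt_gD h1 t)
  rwa [e1] at b2

/-- displacement of a current -/
theorem Cur_disp (B : SeaCB) : ∃ C : ℝ, 1 ≤ C ∧ ∀ [SeaC] [SeaCU B], ∀ {s ε M b : ℝ}
    {e η η1 : ℝ → ℝ}, 0 ≤ s → Cur s ε M b e η → (∀ t, HasDerivAt η (η1 t) t) →
    ∃ δ2 : ℝ → ℂ, Disp s (C * ε) (C * M) (b + 1) (gD η) (gD1 η η1) δ2 ∧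
      OC 2 (fun t => C * e t) δ2 := by
  obtain ⟨C, hC, H⟩ := gD_OC B
  refine ⟨C, hC, @fun _ hS s ε M b e η η1 hs hc h1 => ?_⟩
  obtain ⟨o0, o1⟩ := H hc h1
  have hC0 : 0 ≤ C := by linarith
  obtain ⟨-, δ2, b1, b2⟩ := id o1
  have hsp : ∀ {f : ℝ → ℂ} {j : ℕ}, OC j (fun t => C * e t) f → ∀ t, b + 1 ≤ |t| → f t = 0 := by
    intro f j hf t ht
    have := hf.le t
    rw [hc.supp t (by linarith), mul_zero] at this
    exact norm_le_zero_iff.1 this
  have hle : ∀ {f : ℝ → ℂ} {j : ℕ}, OC j (fun t => C * e t) f → ∀ t, ‖f t‖ ≤ C * ε :=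
    fun hf t => (hf.le t).trans (mul_le_mul_of_nonneg_left (hc.le t) hC0)
  have hms : ∀ {f : ℝ → ℂ} {j : ℕ}, OC j (fun t => C * e t) f → ∀ t, s * P t * ‖f t‖ ≤ C * M :=
    fun hf t => by
      have h2 := mul_le_mul_of_nonneg_left (hf.le t) (mul_nonneg hs (P_pos B t).le)
      have h3 := mul_le_mul_of_nonneg_left (hc.mass t) hC0
      calc _ ≤ s * P t * (C * e t) := h2
        _ = C * (s * P t * e t) := by ring
        _ ≤ _ := h3
  exact ⟨δ2, ⟨hasDerivAt_gD h1, b1, b2.cont, hle o0, hle o1, hle b2, hms o0, hms o1, hms b2,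
    fun t ht => ⟨hsp o0 t ht, hsp o1 t ht, hsp b2 t ht⟩⟩, b2⟩

/-! ### the transported density of a current -/

section

variable [SeaC] {s : ℝ} {η η1 : ℝ → ℝ}

/-- derivative of the current `s P η` -/
def hd (s : ℝ) (η η1 : ℝ → ℝ) (t : ℝ) : ℝ := (af s (gD η) (gD1 η η1) t).im

end

section

variable (B : SeaCB) [SeaC] [SeaCU B] {s : ℝ} {η η1 : ℝ → ℝ}

include B

lemma PD_im (t : ℝ) : (PD t).im = 0 := by
  have h1 : HasDerivAt (fun t : ℝ => ((P t : ℂ)).im) (PD t).im t :=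
    Complex.imCLM.hasFDerivAt.comp_hasDerivAt t (hasDerivAt_Pt B t)
  have h2 : HasDerivAt (fun t : ℝ => ((P t : ℂ)).im) 0 t := by
    simp only [Complex.ofReal_im]
    exact hasDerivAt_const t 0
  exact h1.unique h2

lemma hasDerivAt_P (t : ℝ) : HasDerivAt P (PD t).re t := by
  have h1 : HasDerivAt (fun t : ℝ => ((P t : ℂ)).re) (PD t).re t :=
    Complex.reCLM.hasFDerivAt.comp_hasDerivAt t (hasDerivAt_Pt B t)
  exact h1

/-- the first order part of the transported density of a current is purely imaginary -/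
lemma af_gD (s : ℝ) (η η1 : ℝ → ℝ) (t : ℝ) : af s (gD η) (gD1 η η1) t =
    (s : ℂ) * (PD t * iD η t + (P t : ℂ) * iD η1 t) := by
  unfold af gD gD1 PD
  rw [← Pc_ga]
  ring

lemma af_re (s : ℝ) (η η1 : ℝ → ℝ) (t : ℝ) : (af s (gD η) (gD1 η η1) t).re = 0 := by
  rw [af_gD B, Complex.re_ofReal_mul]
  have h1 := PD_im B t
  have : (PD t * iD η t + (P t : ℂ) * iD η1 t).re = 0 := by
    unfold iD
    rw [Complex.add_re, ← mul_assoc, ← mul_assoc, Complex.mul_I_re, Complex.mul_I_re,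
      Complex.im_mul_ofReal, h1, ← Complex.ofReal_mul, Complex.ofReal_im]
    ring
  rw [this, mul_zero]

lemma af_eq (s : ℝ) (η η1 : ℝ → ℝ) (t : ℝ) : af s (gD η) (gD1 η η1) t = (hd s η η1 t : ℂ) * I := by
  apply Complex.ext
  · rw [af_re B]
    simp
  · unfold hd
    simp

lemma hd_eq (s : ℝ) (η η1 : ℝ → ℝ) (t : ℝ) : hd s η η1 t = s * ((PD t).re * η t + P t * η1 t) := by
  unfold hd
  rw [af_gD B, Complex.im_ofReal_mul]
  unfold iD
  rw [Complex.add_im, ← mul_assoc, ← mul_assoc, Complex.mul_I_im, Complex.mul_I_im,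
    Complex.re_mul_ofReal, ← Complex.ofReal_mul, Complex.ofReal_re]

lemma hasDerivAt_hd (s : ℝ) {η η1 : ℝ → ℝ} (h1 : ∀ t, HasDerivAt η (η1 t) t) (t : ℝ) :
    HasDerivAt (fun t => s * P t * η t) (hd s η η1 t) t := by
  have h2 := ((hasDerivAt_P B t).const_mul s).mul (h1 t)
  refine h2.congr_deriv ?_
  rw [hd_eq B]
  ring

lemma B_eq (s : ℝ) (η η1 : ℝ → ℝ) (t : ℝ) :
    Bf s (gD η) (gD1 η η1) t = (hd s η η1 t : ℂ) * I + Br s (gD η) (gD1 η η1) t := by
  rw [Bf_eq, af_eq B]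

lemma B_re (s : ℝ) (η η1 : ℝ → ℝ) (t : ℝ) :
    (Bf s (gD η) (gD1 η η1) t).re = (Br s (gD η) (gD1 η η1) t).re := by
  rw [B_eq B]
  simp

end

/-- what is used of the transported density -/
structure BB [SeaC] (s μ M b : ℝ) (η η1 : ℝ → ℝ) : Prop where
  cont : Continuous (Bf s (gD η) (gD1 η η1))
  le : ∀ t, ‖Bf s (gD η) (gD1 η η1) t‖ ≤ M
  supp : ∀ t, b < |t| → Bf s (gD η) (gD1 η η1) t = 0
  re : NUOC.O 3 μ fun t => (Bf s (gD η) (gD1 η η1) t).re
  hc : Continuous (hd s η η1)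
  hle : ∀ t, |hd s η η1 t| ≤ M
  hsupp : ∀ t, b < |t| → hd s η η1 t = 0
  rc : Continuous (Br s (gD η) (gD1 η η1))
  rle : ∀ t, ‖Br s (gD η) (gD1 η η1) t‖ ≤ μ
  rsupp : ∀ t, b < |t| → Br s (gD η) (gD1 η η1) t = 0

/-- **the transported density** -/
theorem exists_BB (B : SeaCB) : ∃ C : ℝ, 1 ≤ C ∧ ∀ [SeaC] [SeaCU B], ∀ {s ε M b : ℝ}
    {e η η1 : ℝ → ℝ}, 0 ≤ s → C * ε ≤ 1 →
    Cur s ε M b e η → (∀ t, HasDerivAt η (η1 t) t) → BB s (C * (M * ε)) (C * M) b η η1 := by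
  obtain ⟨C1, h1, H1⟩ := Br_OC B 3
  obtain ⟨C2, h2, H2⟩ := af_OC B 3
  obtain ⟨G, hG, hg⟩ := gD_OC B
  have hh := B.r0
  have hG0 : 0 < G := by linarith
  have hGG : G ≤ G ^ 2 := by nlinarith
  refine ⟨1 + C1 * G ^ 2 + C2 * G + G / B.r, by
    have : 0 ≤ C1 * G ^ 2 + C2 * G + G / B.r := by positivity
    linarith, @fun _ hS s ε M b e η η1 hs hε hc hη => ?_⟩
  obtain ⟨o0', o1⟩ := hg hc hη
  have o0 := o0'.lower
  have hM := hc.M0 B hs
  have hε0 := hc.ε0
  have hq : 0 ≤ C1 * G ^ 2 + C2 * G := by positivity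
  have hq2 : 0 ≤ G / B.r := by positivity
  have hε1 : ε ≤ 1 := by
    nlinarith [mul_nonneg hq hε0, mul_nonneg hq2 hε0]
  have hεh : G * ε ≤ B.r := by
    have h3 : G / B.r * ε ≤ 1 := by nlinarith [mul_nonneg hq hε0]
    have h4 : G / B.r * ε * B.r = G * ε := by field_simp
    nlinarith
  have hse : ∀ t, G * e t ≤ B.r := fun t => (mul_le_mul_of_nonneg_left (hc.le t) hG0.le).trans hεh
  have b1 := H1 hs (hasDerivAt_gD hη) o0 o1 hse
  have b2 := H2 hs o0 o1
  have m1 : ∀ t, C1 * (s * P t * (G * e t) ^ 2) ≤ C1 * G ^ 2 * (M * ε) := fun t => by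
    have q1 := hc.mass t
    have q2 := hc.le t
    have q3 := hc.nonneg t
    calc C1 * (s * P t * (G * e t) ^ 2) = C1 * G ^ 2 * ((s * P t * e t) * e t) := by ring
      _ ≤ C1 * G ^ 2 * (M * ε) := by gcongr
  have m2 : ∀ t, C2 * (s * P t * (G * e t)) ≤ C2 * G * M := fun t => by
    have q1 := hc.mass t
    calc C2 * (s * P t * (G * e t)) = C2 * G * (s * P t * e t) := by ring
      _ ≤ _ := by gcongr
  have z1 : ∀ t, b < |t| → C1 * (s * P t * (G * e t) ^ 2) = 0 := fun t ht => by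
    rw [hc.supp t ht]; ring
  have z2 : ∀ t, b < |t| → C2 * (s * P t * (G * e t)) = 0 := fun t ht => by
    rw [hc.supp t ht]; ring
  have hMε : M * ε ≤ M := by nlinarith
  have rle : ∀ t, ‖Br s (gD η) (gD1 η η1) t‖ ≤ C1 * G ^ 2 * (M * ε) := fun t =>
    (b1.le t).trans (m1 t)
  have ale : ∀ t, ‖af s (gD η) (gD1 η η1) t‖ ≤ C2 * G * M := fun t => (b2.le t).trans (m2 t)
  have rz : ∀ t, b < |t| → Br s (gD η) (gD1 η η1) t = 0 := fun t ht => by
    have := b1.le t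
    rw [z1 t ht] at this
    exact norm_le_zero_iff.1 this
  have az : ∀ t, b < |t| → af s (gD η) (gD1 η η1) t = 0 := fun t ht => by
    have := b2.le t
    rw [z2 t ht] at this
    exact norm_le_zero_iff.1 this
  have eB : Bf s (gD η) (gD1 η η1) = fun t => af s (gD η) (gD1 η η1) t +
      Br s (gD η) (gD1 η η1) t := by
    funext t
    exact Bf_eq _ _ _ _
  have hMε0 : 0 ≤ M * ε := mul_nonneg hM hε0
  obtain ⟨CC, hCC⟩ : ∃ CC, CC = 1 + C1 * G ^ 2 + C2 * G + G / B.r := ⟨_, rfl⟩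
  rw [← hCC]
  have k1 : C1 * G ^ 2 ≤ CC := by
    have : 0 ≤ C2 * G := by positivity
    linarith
  have k2 : C2 * G ≤ CC := by
    have : 0 ≤ C1 * G ^ 2 := by positivity
    linarith
  have t1 : C1 * G ^ 2 * (M * ε) ≤ CC * (M * ε) := mul_le_mul_of_nonneg_right k1 hMε0
  have t2 : C2 * G * M ≤ CC * M := mul_le_mul_of_nonneg_right k2 hM
  have t3 : C2 * G * M + C1 * G ^ 2 * (M * ε) ≤ CC * M := by
    have h3 : C1 * G ^ 2 * (M * ε) ≤ C1 * G ^ 2 * M := mul_le_mul_of_nonneg_left hMε (by positivity)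
    have h4 : (C2 * G + C1 * G ^ 2) * M ≤ CC * M := mul_le_mul_of_nonneg_right (by linarith) hM
    linarith
  refine ⟨?_, fun t => ?_, fun t ht => ?_, ?_, ?_, fun t => ?_, fun t ht => ?_, b1.cont,
    fun t => (rle t).trans t1, rz⟩
  · rw [eB]
    exact b2.cont.add b1.cont
  · rw [Bf_eq]
    exact (norm_add_le _ _).trans ((add_le_add (ale t) (rle t)).trans t3)
  · rw [Bf_eq, rz t ht, az t ht, add_zero]
  · refine (b1.re (a := CC * (M * ε)) fun t => (m1 t).trans t1).congr fun t => ?_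
    exact (B_re B s η η1 t).symm
  · exact Complex.continuous_im.comp b2.cont
  · exact (Complex.abs_im_le_norm _).trans ((ale t).trans t2)
  · unfold hd
    rw [az t ht]
    simp

end

end PLT.Cv
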