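import Pool.Agent.PLT.GasTwo
import Pool.Agent.PLT.SeaO
import Pool.Agent.PLX.NUS4C.Sharp

/-!
# The data of the sharp bound over a sea on a static curve (definition)

**`GDC lo hi`**: twin of `NUS4C.PLX.GD`: curves `η` of the two species over the static curve, one body factors
`exp Re (vb + F) (zt (gD η))` with `F` analytic in the strip `lo < Im z < hi` around the curves.
-/

set_option autoImplicit false
set_option linter.unusedSectionVars false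

open MeasureTheory Set Filter Topology

namespace PLT

open NUS4 (R1f)

noncomputable section

variable [SeaC]

/-- **curve and one body data of the gas in the bulk**, over a sea on a static curve -/
structure GDC (lo hi : ℝ) (m : ℕ) (k : ℕ) (κ e : ℝ) (s : Bool → ℝ) (R b : ℝ) (ηX ηX1 ηY ηY1 aX aY : ℝ → ℝ) :
    Prop where
  s1 : ∀ d, (m : ℝ) / 2 ≤ s d
  s2 : ∀ d, s d ≤ (m : ℝ) ^ 2
  R1 : Real.log m ≤ R
  R2 : R ≤ 2 * Real.log m ^ 2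
  b1 : R1f e m + 1 ≤ b
  b2 : b + 3 ≤ R
  cX : ∃ (ε M : ℝ) (eX : ℝ → ℝ), Cv.Cur (s true) ε M b eX ηX ∧ ε ≤ (m : ℝ) ^ (-κ) ∧ M ≤ Real.log m ^ k
  cY : ∃ (ε M : ℝ) (eY : ℝ → ℝ), Cv.Cur (s false) ε M b eY ηY ∧ ε ≤ (m : ℝ) ^ (-κ) ∧ M ≤ Real.log m ^ k
  dX : ∀ t, HasDerivAt ηX (ηX1 t) t
  dY : ∀ t, HasDerivAt ηY (ηY1 t) t
  aX0 : ∀ x, 0 ≤ aX x
  aY0 : ∀ x, 0 ≤ aY x
  aXm : Measurable aX
  aYm : Measurable aY
  fX : ∃ (A Ar : ℝ) (F : ℂ → ℂ) (Er : ℝ → ℝ), 0 ≤ A ∧ A ≤ Real.log m ^ k ∧ Ar ≤ Real.log m ^ k ∧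
    (∀ z : ℂ, |z.re| ≤ b + 2 → lo < z.im → z.im < hi → DifferentiableAt ℂ F z ∧ ‖F z‖ ≤ A) ∧
    NUR2.Ext 4 b Ar Er ∧ ∀ x, |x| ≤ b → aX x = Real.exp ((Cv.vb s true (Cv.zt (Cv.gD ηX) x)).re +
      (F (Cv.zt (Cv.gD ηX) x)).re + Er x)
  fY : ∃ (A Ar : ℝ) (F : ℂ → ℂ) (Er : ℝ → ℝ), 0 ≤ A ∧ A ≤ Real.log m ^ k ∧ Ar ≤ Real.log m ^ k ∧
    (∀ z : ℂ, |z.re| ≤ b + 2 → lo < z.im → z.im < hi → DifferentiableAt ℂ F z ∧ ‖F z‖ ≤ A) ∧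
    NUR2.Ext 4 b Ar Er ∧ ∀ x, |x| ≤ b → aY x = Real.exp ((Cv.vb s false (Cv.zt (Cv.gD ηY) x)).re +
      (F (Cv.zt (Cv.gD ηY) x)).re + Er x)

end

end PLT
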