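import Pool.Agent.PLT.DatOc
import Pool.Agent.PLT.GDCdef
import Pool.Agent.PLX.PB.GasM
import Pool.Agent.NUO.Ranges
import Pool.Agent.NUH0.Inst

/-!
# The gas of a configuration of abstract objects on a static curve: data and statements

* **`DatCC`**: hypotheses on the data `datC I O` (rows `I.s`, displacements `I.η` of the static curve, extra
  analytic potentials `I.A`, real potentials `I.B`, densities `I.ν`, splitting `I.τD`, objects `O : Fin r → Oc`), on the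
  places `g` of the extra densities and on the one body factors `aX * cf`, `aY * cf` (as `DatC6`);
* `Par7`: the numbers fixed before all constants: window `[lo, hi]` of the paths, room `w`, constant `Cp` of the
  paths, size `kd` of the objects, decay `c`;
* `confCC`: the exponent; **`CrudeCC`**, **`GasSharpCC`**: the bounds of the gas integral.  Order of the numbers:
  `K`; `kb G kap ep e1 δ k κ CB`; `εo` (energy of the remainders of the objects); `A` (size of the densities of the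
  objects); `ϑ`, constants, `m0`; the sea of the class.
-/

set_option autoImplicit false
set_option linter.unusedSectionVars false
set_option linter.unusedVariables false

noncomputable section

open MeasureTheory Finset
open scoped ENNReal

namespace PLT.Cv

open NUDispW (win)
open NUO (TW Tb)
open NUSea.PLX.H0 (Inp)
open NUR2 (Cfg)

/-- excess of the heights over `T'` -/
def excC (T' : ℝ) {r : ℕ} (O : Fin r → Oc) : ℝ := ∑ i, max (|(O i).h| - T') 0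

theorem excC_nonneg (T' : ℝ) {r : ℕ} (O : Fin r → Oc) : 0 ≤ excC T' O :=
  Finset.sum_nonneg fun _ _ => le_max_right _ _

theorem excC_ge (T' : ℝ) {r : ℕ} (O : Fin r → Oc) (i : Fin r) : |(O i).h| - T' ≤ excC T' O :=
  (le_max_left _ _).trans
    (Finset.single_le_sum (f := fun i => max (|(O i).h| - T') 0) (fun _ _ => le_max_right _ _)
      (mem_univ i))

/-- the excess of objects with the heights of `O'` -/
theorem excC_eq {T' : ℝ} {r : ℕ} {O : Fin r → Oc} {O' : Fin r → NUO.Xo} (h : ∀ i, (O i).h = NUO.ht (O' i)) :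
    excC T' O = NUO.excS T' O' := by
  unfold excC NUO.excS
  exact Finset.sum_congr rfl fun i _ => by rw [h]

/-- the numbers fixed before all constants -/
structure Par7 where
  /-- window of the paths -/
  lo : ℝ
  /-- window of the paths -/
  hi : ℝ
  /-- room of the objects around the window -/
  w : ℝ
  /-- constant of the paths -/
  Cp : ℝ
  /-- size of the objects -/
  kd : ℝ
  /-- decay of the remainders of the objects -/
  c : ℝ

/-- the numbers are admissible -/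
structure Par7.Ok (Q : Par7) : Prop where
  w0 : 0 < Q.w
  Cp0 : 0 ≤ Q.Cp
  kd0 : 0 ≤ Q.kd
  c0 : 0 < Q.c

/-- **data of the gas**.  `κ`: the curve has size `m^(-κ)`; `k`: power of the logarithm in the mass
of the curve; `CB`: bound of the extra potentials and densities, of the slope of the current; `ϑ`: density of the
energy of the extra potential; `g`: places of the extra densities; `A`: size of the densities of the objects, `εo`
size of their remainders and of the energy of the differences of their two densities -/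
structure DatCC (B : SeaCB) [SeaC] (Q : Par7) (A εo : ℝ) (ep e1 κ CB ϑ kb : ℝ) (k m : ℕ) (I : Inp) {r : ℕ}
    (O : Fin r → Oc) {G : ℕ} (g : Fin G → ℝ) (p n : ℕ) (aX aY cf B1 : ℝ → ℝ) (T1 D q S : ℝ) : Prop where
  s1 : ∀ a, (m : ℝ) / 2 ≤ I.s a
  s2 : ∀ a, I.s a ≤ kb * m
  pk : (p : ℝ) ≤ kb * m
  nk : (n : ℝ) ≤ kb * m
  rk : (r : ℝ) ≤ kb * m
  ok : ∃ (ε M : ℝ) (e : ℝ → ℝ), IOkC B Q.lo Q.hi Q.Cp ε M ((1 - e1) * Tb (Real.log m)) e I ∧
    ε ≤ (m : ℝ) ^ (-κ) ∧ M ≤ Real.log m ^ k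
  h1 : ∀ t, |hd (I.s true) (I.η true) (I.η1 true) t| ≤ CB
  obj : ∀ i, (O i).Ok (Q.lo - Q.w) (Q.hi + Q.w) Q.kd A εo Q.c
  pr : ∀ i j, Oc.Pr εo Q.c (O i) (O j)
  fld : Gs.Fld (datC I O) p n
  shl : Gs.Shl (datC I O) aX aY cf B1 D q
  q1 : 49 / 20 ≤ q
  tw : TW ep e1 m + excC (TW ep e1 m) O ≤ T1
  DS : D * Real.exp (-(q * T1)) ≤ S
  gs : ∀ j, |g j| ≤ T1
  ν0 : ∀ a t, |I.ν a t| ≤ CB * (∑ j, Real.exp (-(5 / 2 * |t - g j|)) + NUH0.plt (TW ep e1 m) t)
  w0 : ∀ a t, |Sp.wOC (zI I) I a t| ≤ CB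
  w1 : ∀ a T, 0 ≤ T → ∫ t in (-(T + 1))..(T + 1), (Sp.wOC (zI I) I a t ^ 2 +
    deriv (Sp.wOC (zI I) I a) t ^ 2) ≤ CB + ϑ * (T + 1)
  c2 : ∀ t, cf t ≤ CB * m * Real.exp (-(|t| / 2))

/-- the right side: mean field exponent, `En`, `K` per object, far factor, windows -/
def confCC [SeaC] (ep e1 : ℝ) (m : ℕ) (I : Inp) (p n : ℕ) (K kap : ℝ) {r : ℕ} (O : Fin r → Oc)
    (T1 : ℝ) : ℝ :=
  (datC I O).Mp p n + (datC I O).En + K * r + 12 / 5 * (T1 - TW ep e1 m) +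
    kap * win univ (fun i => (O i).h)

/-- **the crude bound** -/
def CrudeCC (B : SeaCB) (Q : Par7) : Prop :=
  ∃ K Ca : ℝ, 0 ≤ K ∧ 0 ≤ Ca ∧ ∀ kb : ℝ, 1 ≤ kb → ∀ (G : ℕ) (kap : ℝ), 0 < kap →
    ∀ ep : ℝ, 0 < ep → ep ≤ 1 / 100 → ∀ e1 : ℝ, 0 < e1 → e1 ≤ 1 / 100 → ∀ δ : ℝ, 0 < δ →
    ∃ εo : ℝ, 0 < εo ∧ ∀ (k : ℕ) (κ CB : ℝ), 0 < κ → 0 ≤ CB → ∀ A : ℝ, 0 ≤ A →
    ∃ ϑ Cst : ℝ, 0 < ϑ ∧ 0 ≤ Cst ∧ ∃ m0 : ℕ, ∀ [SeaC] [SeaCU B], ∀ m ≥ m0,
      ∀ (I : Inp) (r : ℕ) (O : Fin r → Oc) (g : Fin G → ℝ) (p n : ℕ)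
        (aX aY cf B1 : ℝ → ℝ) (T1 D q S : ℝ),
      DatCC B Q A εo ep e1 κ CB ϑ kb k m I O g p n aX aY cf B1 T1 D q S →
        ∫⁻ x, ENNReal.ofReal (Gs.W0 (datC I O) p n aX aY cf x) ≤
          ENNReal.ofReal ((p.factorial : ℝ) * n.factorial *
            (Cst * (m : ℝ) ^ (7 / 8 + Ca * (ep + e1) + δ) * (1 + S) *
              Real.exp (confCC ep e1 m I p n K kap O T1)))

/-- **the gas of a configuration with all its statistics**: at most `log m` objects and places, at heights at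
most `(log m)^2`; `GDC` = the one body factors in the bulk, analytic in the strip `[lg, hg]`; `S` bounds the cutoff
at the end of the window -/
def GasSharpCC (B : SeaCB) (Q : Par7) (lg hg : ℝ) : Prop :=
  ∃ K Ca : ℝ, 0 ≤ K ∧ 0 ≤ Ca ∧ ∀ kb : ℝ, 1 ≤ kb → ∀ (G : ℕ) (kap : ℝ), 0 < kap →
    ∀ ep : ℝ, 0 < ep → ep ≤ 1 / 100 → ∀ e1 : ℝ, 0 < e1 → e1 ≤ 1 / 100 → ∀ δ : ℝ, 0 < δ →
    ∃ εo : ℝ, 0 < εo ∧ ∀ (k : ℕ) (κ CB : ℝ), 0 < κ → 0 ≤ CB → ∀ A : ℝ, 0 ≤ A →
    ∃ ϑ Cst Cc : ℝ, 0 < ϑ ∧ 0 ≤ Cst ∧ 1 ≤ Cc ∧ ∃ m0 : ℕ, ∀ [SeaC] [SeaCU B], ∀ m ≥ m0,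
      ∀ (I : Inp) (r : ℕ) (O : Fin r → Oc) (g : Fin G → ℝ) (p n : ℕ)
        (aX aY cf B1 : ℝ → ℝ) (T1 D q S : ℝ),
      DatCC B Q A εo ep e1 κ CB ϑ kb k m I O g p n aX aY cf B1 T1 D q S →
      GDC lg hg m k κ e1 I.s (2 * Real.log m ^ 2) ((1 - e1) * Tb (Real.log m)) (I.η true)
        (I.η1 true) (I.η false) (I.η1 false) (fun t => aX t * cf t) (fun t => aY t * cf t) →
      (r : ℝ) + G ≤ Real.log m → (∀ i, |(O i).h| ≤ Real.log m ^ 2) →
      (∀ j, |g j| ≤ Real.log m ^ 2) → D * Real.exp (-(q * TW ep e1 m)) ≤ S →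
        PBM.PLX.GasM (fun x : Cfg p n => ENNReal.ofReal (Gs.W0 (datC I O) p n aX aY cf x))
          (2 * Real.log m ^ 2) (datC I O).ρ
          (ENNReal.ofReal ((p.factorial : ℝ) * n.factorial *
            (Cst * (m : ℝ) ^ (3 / 8 + Ca * (ep + e1) + δ) * (1 + S) *
              Real.exp (confCC ep e1 m I p n K kap O T1))))
          (1 / (Cc * Real.log m ^ 2)) (Cc * Real.log m ^ 6) (Real.log m ^ 2 / 40)

variable {B : SeaCB} [SeaC] {Q : Par7} {A εo ep e1 κ CB ϑ kb : ℝ} {k m : ℕ} {I : Inp} {r : ℕ}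
  {O : Fin r → Oc} {G : ℕ} {g : Fin G → ℝ} {p n : ℕ} {aX aY cf B1 : ℝ → ℝ} {T1 D q S : ℝ}

/-- the power of the logarithm may grow -/
theorem DatCC.mono_k {k' : ℕ} (h : DatCC B Q A εo ep e1 κ CB ϑ kb k m I O g p n aX aY cf B1 T1 D q S)
    (hk : k ≤ k') (hm : 1 ≤ Real.log m) :
    DatCC B Q A εo ep e1 κ CB ϑ kb k' m I O g p n aX aY cf B1 T1 D q S := by
  obtain ⟨ε, M, e, h0, h1, h2⟩ := h.ok
  exact { h with ok := ⟨ε, M, e, h0, h1, h2.trans (pow_le_pow_right₀ hm hk)⟩ }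

/-- the density of the energy of the extra potential may grow -/
theorem DatCC.mono_th {ϑ' : ℝ} (h : DatCC B Q A εo ep e1 κ CB ϑ kb k m I O g p n aX aY cf B1 T1 D q S)
    (hϑ : ϑ ≤ ϑ') : DatCC B Q A εo ep e1 κ CB ϑ' kb k m I O g p n aX aY cf B1 T1 D q S :=
  { h with w1 := fun a T hT => (h.w1 a T hT).trans (by
      have : ϑ * (T + 1) ≤ ϑ' * (T + 1) := mul_le_mul_of_nonneg_right hϑ (by linarith)
      linarith) }

end PLT.Cv

end
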