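import Pool.Agent.PLT.SeaO
import Pool.Agent.PLX.NUSea.CurCv
import Pool.Agent.PLX.NUGC.CurEx
import Pool.Agent.PLX.PotH.Crv
import Pool.Agent.PLX.PotH.CrvI
import Pool.Agent.NUSea.Inst

/-!
# Admissible curves over a sea on a static curve, two species

* `Cv.Cur.cv`, `Cv.Cur.com`: the curves `Fil.cv a η` of the two species (as `PLX/NUSea/CurCv`);
  `Cv.Com_cur`, `Cv.exists_com` (as `PLX/NUSea/Com`);
* `Cv.etaC`, `Cv.etaC'`, `mul_etaC`, `hd_curC`, `bil_curC`, **`exists_curC`**: the displacement of TARGET-C over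
  the sea (as `PLX/NUGC/CurEx`; the current `hC` is the landed one);
* **`CrvP e1 Cc m η η1`** (as `PotH.PLX.CrvP`), `CrvP.spc`, **`exists_crvC`**;
* **`dsp η a t = eta t I + gD (Fil.cv a η) t`**, `dsp1 η η1`: the displacement of the curves of the two species
  from the straight line (`ptC`, `CrvC` of `FDefC`, `GasPotC`); `zt_gD`, `hasDerivAt_dsp`.
-/

set_option autoImplicit false
set_option linter.unusedSectionVars false
set_option linter.unusedVariables false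

open MeasureTheory Set Filter Topology Complex
open scoped ContDiff
open PLX (Fil Ends)

namespace PLT.Cv

open NUMF (l l_pos)
open NUAct (OC)
open NUKer (iD)
open NUSea.PLX (Com)
open NUO (Tb)
open NUGC.PLX (hC hC_contDiff hC_nonneg hC_zero hC_iter hC_cs hC_slope hC_lip energyC)

noncomputable section

/-! ### the curves of the two species -/

section

variable [SeaC] {s ε M b : ℝ} {e η η1 : ℝ → ℝ}

theorem Cur.abs_le (h : Cur s ε M b e η) (t : ℝ) : |η t| ≤ e t := by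
  have h1 := h.oc.le t
  unfold iD at h1
  rwa [norm_mul, Complex.norm_I, mul_one, Complex.norm_real, Real.norm_eq_abs] at h1

theorem Cur.abs_le1 (h : Cur s ε M b e η) (h1 : ∀ t, HasDerivAt η (η1 t) t) (t : ℝ) :
    |η1 t| ≤ e t := by
  have h2 := (h.oc1 h1).le t
  unfold iD at h2
  rwa [norm_mul, Complex.norm_I, mul_one, Complex.norm_real, Real.norm_eq_abs] at h2

variable [Fil]

theorem iD_cv (a : Bool) (η : ℝ → ℝ) (t : ℝ) :
    iD (Fil.cv a η) t = (((Fil.b a)⁻¹ : ℝ) : ℂ) * iD η t := by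
  unfold iD
  rw [Fil.cv_apply]
  push_cast
  ring

/-- **the curve of species `a` is admissible** -/
theorem Cur.cv (h : Cur s ε M b e η) (hs : 0 < s) (a : Bool) {s' : ℝ} (hs' : 0 ≤ s') :
    Cur s' ε (s' / s * M) b e (Fil.cv a η) where
  oc := by
    have h1 := h.oc.smul (((Fil.b a)⁻¹ : ℝ) : ℂ)
    refine (h1.mono fun t => ?_).congr fun t => (iD_cv a η t).symm
    have h2 : ‖(((Fil.b a)⁻¹ : ℝ) : ℂ)‖ ≤ 1 := by
      rw [Complex.norm_real, Real.norm_eq_abs, abs_of_pos (Fil.inv_b_pos a)]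
      exact Fil.inv_b_le a
    exact mul_le_of_le_one_left (h.oc.nonneg t) h2
  le := h.le
  mass t := by
    have h1 := h.mass t
    have h2 : s' * P t * e t = s' / s * (s * P t * e t) := by
      field_simp
    rw [h2]
    exact mul_le_mul_of_nonneg_left h1 (div_nonneg hs' hs.le)
  supp := h.supp

/-- **the currents of the two species are nearly equal** -/
theorem Cur.com (h : Cur s ε M b e η) (h1 : ∀ t, HasDerivAt η (η1 t) t) {s' : Bool → ℝ} {κ : ℝ}
    (hκ : 0 ≤ κ) (hk : ∀ a, |s' a / Fil.b a - s' true| ≤ κ) :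
    Com κ s' e (fun a => Fil.cv a η) fun a => Fil.cv a η1 := by
  have key : ∀ (ζ : ℝ → ℝ), (∀ t, |ζ t| ≤ e t) → ∀ a t,
      |s' a * Fil.cv a ζ t - s' true * Fil.cv true ζ t| ≤ κ * e t := by
    intro ζ hζ a t
    have e1 : s' a * Fil.cv a ζ t - s' true * Fil.cv true ζ t =
        (s' a / Fil.b a - s' true) * ζ t := by
      rw [Fil.cv_true, Fil.cv_apply]
      ring
    rw [e1, abs_mul]
    exact mul_le_mul (hk a) (hζ t) (abs_nonneg _) hκ
  exact ⟨hκ, fun a t => key η h.abs_le a t, fun a t => key η1 (h.abs_le1 h1) a t⟩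

end

section

variable (B : SeaCB) [SeaC] [SeaCU B]

include B

/-- the difference of the currents -/
theorem Com_cur {κ : ℝ} {s : Bool → ℝ} {e : ℝ → ℝ} {η η1 : Bool → ℝ → ℝ} (h : Com κ s e η η1)
    (a : Bool) (t : ℝ) :
    |s a * P t * η a t - s true * P t * η true t| ≤ κ * (P t * e t) := by
  have h1 := h.c0 a t
  have hp := (P_pos B t).le
  have e1 : s a * P t * η a t - s true * P t * η true t =
      P t * (s a * η a t - s true * η true t) := by ring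
  rw [e1, abs_mul, abs_of_nonneg hp]
  nlinarith

end

/-- **the difference of the derivatives of the currents** -/
theorem exists_com (B : SeaCB) : ∃ C : ℝ, 1 ≤ C ∧ ∀ [SeaC] [SeaCU B], ∀ {κ : ℝ} {s : Bool → ℝ}
    {e : ℝ → ℝ} {η η1 : Bool → ℝ → ℝ}, Com κ s e η η1 → ∀ a t,
      |s a * P t * η a t - s true * P t * η true t| ≤ C * (κ * (P t * e t)) ∧
      |hd (s a) (η a) (η1 a) t - hd (s true) (η true) (η1 true) t| ≤ C * (κ * (P t * e t)) := by
  obtain ⟨C, hC, h⟩ := PD_OC B 0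
  refine ⟨1 + C, by linarith, @fun _ hS κ s e η η1 hc a t => ?_⟩
  have hp := (P_pos B t).le
  have h0 := Com_cur B hc a t
  have hke : 0 ≤ κ * e t := (abs_nonneg _).trans (hc.c0 a t)
  have hkp : 0 ≤ κ * (P t * e t) := by
    have : 0 ≤ P t * (κ * e t) := mul_nonneg hp hke
    linarith
  refine ⟨h0.trans (by nlinarith), ?_⟩
  have h2 : |(PD t).re| ≤ C * P t := (Complex.abs_re_le_norm _).trans ((@h _ hS).le t)
  rw [hd_eq B, hd_eq B]
  have e1 : s a * ((PD t).re * η a t + P t * η1 a t) -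
      s true * ((PD t).re * η true t + P t * η1 true t) =
      (PD t).re * (s a * η a t - s true * η true t) +
        P t * (s a * η1 a t - s true * η1 true t) := by ring
  rw [e1]
  refine (abs_add_le _ _).trans ?_
  rw [abs_mul, abs_mul, abs_of_nonneg hp]
  have g1 : |(PD t).re| * |s a * η a t - s true * η true t| ≤
      C * P t * (κ * e t) := mul_le_mul h2 (hc.c0 a t) (abs_nonneg _) (by positivity)
  have g2 : P t * |s a * η1 a t - s true * η1 true t| ≤ P t * (κ * e t) :=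
    mul_le_mul_of_nonneg_left (hc.c1 a t) hp
  calc _ ≤ C * P t * (κ * e t) + P t * (κ * e t) := add_le_add g1 g2
    _ = _ := by ring

/-! ### the displacement of TARGET-C -/

section

variable [SeaC]

/-- **the displacement of TARGET-C**, real row number `s` -/
def etaC (e1 J : ℝ) (m : ℕ) (s t : ℝ) : ℝ := hC e1 J m t / (s * P t)

/-- its derivative -/
def etaC' (e1 J : ℝ) (m : ℕ) (s t : ℝ) : ℝ := deriv (etaC e1 J m s) t

end

section

variable (B : SeaCB) [SeaC] [SeaCU B] {m : ℕ} {e1 J : ℝ}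

include B

/-- the density is smooth -/
theorem P_contDiff (n : ℕ) : ContDiff ℝ n P := by
  have key : ∀ n : ℕ, ∀ f : ℝ → ℂ, (∃ e : ℝ → ℝ, OC n e f) → ContDiff ℝ (n : ℕ) f := by
    intro n
    induction n with
    | zero =>
      rintro f ⟨e, h⟩
      have h1 : ContDiff ℝ 0 f := contDiff_zero.2 h.cont
      exact_mod_cast h1
    | succ n ih =>
      rintro f ⟨e, h⟩
      obtain ⟨-, f', h1, h2⟩ := h
      have hd : deriv f = f' := funext fun t => (h1 t).deriv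
      rw [show ((n + 1 : ℕ) : WithTop ℕ∞) = (n : WithTop ℕ∞) + 1 by push_cast; rfl,
        contDiff_succ_iff_deriv]
      refine ⟨fun t => (h1 t).differentiableAt, fun h => ?_, ?_⟩
      · exact absurd h (by simp)
      · rw [hd]
        exact ih f' ⟨e, h2⟩
  obtain ⟨C, hC, h⟩ := P_OC B n
  have h1 := key n _ ⟨_, h⟩
  have h2 := Complex.reCLM.contDiff.comp h1
  exact h2

theorem etaC_contDiff (e1 J : ℝ) (m : ℕ) (s : ℝ) (n : ℕ) : ContDiff ℝ n (etaC e1 J m s) := by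
  by_cases hs : s = 0
  · have : etaC e1 J m s = fun _ => 0 := by
      funext t
      unfold etaC
      rw [hs, zero_mul, div_zero]
    rw [this]
    exact contDiff_const
  · refine (hC_contDiff e1 J m n).div (contDiff_const.mul (P_contDiff B n)) fun t => ?_
    exact mul_ne_zero hs (P_pos B t).ne'

theorem etaC_hasDeriv (e1 J : ℝ) (m : ℕ) (s t : ℝ) :
    HasDerivAt (etaC e1 J m s) (etaC' e1 J m s t) t :=
  (((etaC_contDiff B e1 J m s 1).differentiable (by simp)) t).hasDerivAt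

theorem etaC'_cont (e1 J : ℝ) (m : ℕ) (s : ℝ) : Continuous (etaC' e1 J m s) :=
  (etaC_contDiff B e1 J m s 1).continuous_deriv le_rfl

theorem etaC_nonneg (he1 : e1 ≤ 1 / 100) (hJ : 0 ≤ J) (hT : 20 ≤ Tb (Real.log m)) {s : ℝ}
    (hs : 0 ≤ s) (t : ℝ) : 0 ≤ etaC e1 J m s t :=
  div_nonneg (hC_nonneg he1 hJ hT t) (mul_nonneg hs (P_pos B t).le)

/-- the current of the displacement -/
theorem mul_etaC {s : ℝ} (hs : 0 < s) (t : ℝ) : s * P t * etaC e1 J m s t = hC e1 J m t := by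
  unfold etaC
  have := P_pos B t
  field_simp

theorem cur_etaC {s : ℝ} (hs : 0 < s) : (fun t => s * P t * etaC e1 J m s t) = hC e1 J m :=
  funext (mul_etaC B hs)

/-- its derivative -/
theorem hd_curC {s : ℝ} (hs : 0 < s) :
    hd s (etaC e1 J m s) (etaC' e1 J m s) = deriv (hC e1 J m) := by
  funext t
  have h1 := hasDerivAt_hd B s (etaC_hasDeriv B e1 J m s) t
  rw [cur_etaC B hs] at h1
  exact h1.deriv.symm

end

/-- **the energy of the displacement** -/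
theorem bil_curC {e1 : ℝ} (he : 0 < e1) : ∃ C : ℝ, 0 ≤ C ∧ ∀ (B : SeaCB) [SeaC] [SeaCU B],
    ∀ J : ℝ, 0 ≤ J → ∀ m : ℕ, e1 ≤ 1 / 100 → 20 ≤ Tb (Real.log m) → ∀ s : ℝ, 0 < s →
      NUCR.bil (hd s (etaC e1 J m s) (etaC' e1 J m s))
        (hd s (etaC e1 J m s) (etaC' e1 J m s)) ≤
        9 * Real.pi ^ 2 / 32 * (∫ t, deriv (hC e1 J m) t ^ 2) ∧
      NUCR.bil (hd s (etaC e1 J m s) (etaC' e1 J m s))
        (hd s (etaC e1 J m s) (etaC' e1 J m s)) - 12 * (Real.pi / 8) * hC e1 J m 0 ≤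
        -((1 - e1) * Tb (Real.log m)) + C * (1 + J) ^ 2 := by
  obtain ⟨C, hC0, H⟩ := energyC he
  obtain ⟨C1, hC1, H1⟩ := hC_slope he
  refine ⟨C, hC0, fun B _ _ J hJ m he1 hT s hs => ?_⟩
  rw [hd_curC B hs]
  have hb : NUCR.BI (NUGC.aC + C1 * J / Tb (Real.log m)) (deriv (hC e1 J m)) :=
    ⟨(((hC_contDiff e1 J m 1).continuous_deriv le_rfl)).integrable_of_hasCompactSupport
      (hC_cs he he1 hT).deriv, H1 J hJ m he1 hT⟩
  have h1 := NUCR.bil_self_le hb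
  unfold NUCR.kap0 at h1
  exact ⟨h1, by linarith [H J hJ m he1 hT]⟩

/-- **the displacement of TARGET-C is an admissible current** -/
theorem exists_curC (B : SeaCB) {e1 J : ℝ} (he : 0 < e1) (he1 : e1 ≤ 1 / 100) (hJ : 0 ≤ J) {x : ℝ}
    (hx : 0 < x) : ∃ C : ℝ, 1 ≤ C ∧ ∃ m0 : ℕ, 1 ≤ m0 ∧ ∀ [SeaC] [SeaCU B], ∀ m ≥ m0,
      20 ≤ Tb (Real.log m) ∧ ∀ s : ℝ, (m : ℝ) / 2 ≤ s → ∃ (ε : ℝ) (e : ℝ → ℝ),
        Cur s ε (C * Real.log m) ((1 - e1) * Tb (Real.log m)) e (etaC e1 J m s) ∧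
          0 ≤ ε ∧ ε ≤ (m : ℝ) ^ (-(e1 / 2)) ∧ ε ≤ x := by
  obtain ⟨C0, hC0, H0⟩ := exists_cur B
  obtain ⟨C1, hC1, H1⟩ := hC_iter he
  obtain ⟨c, hc, hP⟩ := le_P B
  obtain ⟨Q, hQ⟩ : ∃ Q, Q = C0 * (C1 * (1 + J)) := ⟨_, rfl⟩
  have hQ1 : 1 ≤ Q := by
    rw [hQ]
    have h1 : 1 ≤ C1 * (1 + J) := by nlinarith
    nlinarith
  obtain ⟨m1, hm1⟩ := @NUGC.PLX.log_pow_small NUSea.seaP (Q * (2 / c)) (e1 / 2) (min 1 x) 1 (by linarith)
    (lt_min one_pos hx)
  have h3 := (Real.tendsto_log_atTop.comp tendsto_natCast_atTop_atTop).eventually_ge_atTop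
    (160 / 3 : ℝ)
  obtain ⟨m2, hm2⟩ := eventually_atTop.1 h3
  refine ⟨Q, hQ1, max (max m1 m2) 1, le_max_right _ _, @fun _ hS m hm => ?_⟩
  have a1 := hm1 m ((le_max_left _ _).trans ((le_max_left _ _).trans hm))
  have a2 : (160 / 3 : ℝ) ≤ Real.log m := hm2 m ((le_max_right _ _).trans ((le_max_left _ _).trans hm))
  have hm1 : 1 ≤ m := (le_max_right _ _).trans hm
  have hmp : (0 : ℝ) < m := by exact_mod_cast hm1
  have hT : 20 ≤ Tb (Real.log m) := by
    unfold Tb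
    linarith
  refine ⟨hT, fun s hs => ?_⟩
  have hs0 : 0 < s := by
    have : 0 < (m : ℝ) / 2 := by positivity
    linarith
  have hb0 : 0 ≤ (1 - e1) * Tb (Real.log m) := by nlinarith
  obtain ⟨e, he'⟩ := H0 s (C1 * (1 + J) * Real.log m) ((1 - e1) * Tb (Real.log m)) hs0 hb0
    (hC e1 J m) (hC_contDiff e1 J m 4) (H1 J hJ m he1 hT).1
    (fun t ht => hC_zero he he1 hT ht)
  have e2 : C0 * (C1 * (1 + J) * Real.log m) = Q * Real.log m := by
    rw [hQ]
    ring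
  rw [e2] at he'
  have hPb := P_pos B ((1 - e1) * Tb (Real.log m))
  have hL : 0 ≤ Real.log m := by linarith
  -- the size of the displacement
  have h6 : 0 < (m : ℝ) ^ (-(e1 / 2)) := Real.rpow_pos_of_pos hmp _
  have key : Q * Real.log m / (s * P ((1 - e1) * Tb (Real.log m))) ≤
      min 1 x * (m : ℝ) ^ (-(e1 / 2)) := by
    have h1 := hP ((1 - e1) * Tb (Real.log m))
    rw [abs_of_nonneg hb0] at h1
    have e1' : Real.exp (-(8 / 3) * ((1 - e1) * Tb (Real.log m))) = (m : ℝ)⁻¹ * (m : ℝ) ^ e1 := by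
      have e2 : (m : ℝ)⁻¹ = Real.exp (-Real.log m) := by rw [Real.exp_neg, Real.exp_log hmp]
      rw [Real.rpow_def_of_pos hmp, e2, ← Real.exp_add]
      congr 1
      unfold Tb
      ring
    rw [e1'] at h1
    have hme : 0 < (m : ℝ) ^ e1 := Real.rpow_pos_of_pos hmp _
    have h2 : c / 2 * (m : ℝ) ^ e1 ≤ s * P ((1 - e1) * Tb (Real.log m)) := by
      calc c / 2 * (m : ℝ) ^ e1 = (m : ℝ) / 2 * (c * ((m : ℝ)⁻¹ * (m : ℝ) ^ e1)) := by
            field_simp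
        _ ≤ _ := mul_le_mul hs h1 (by positivity) hs0.le
    have e3 : (m : ℝ) ^ (-(e1 / 2)) * (m : ℝ) ^ (-(e1 / 2)) * (m : ℝ) ^ e1 = 1 := by
      rw [← Real.rpow_add hmp, ← Real.rpow_add hmp,
        show -(e1 / 2) + -(e1 / 2) + e1 = 0 by ring, Real.rpow_zero]
    rw [div_le_iff₀ (by positivity)]
    have h7 : Q * (2 / c) * Real.log m * (m : ℝ) ^ (-(e1 / 2)) ≤ min 1 x := by
      refine le_trans ?_ a1
      rw [pow_one]
      have : 0 ≤ Q * (2 / c) := by positivity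
      refine mul_le_mul_of_nonneg_right ?_ h6.le
      exact mul_le_mul_of_nonneg_left (by linarith) this
    calc Q * Real.log m = (Q * (2 / c) * Real.log m * (m : ℝ) ^ (-(e1 / 2))) *
          (m : ℝ) ^ (-(e1 / 2)) * (c / 2 * (m : ℝ) ^ e1) := by
          have : Q * (2 / c) * Real.log m * (m : ℝ) ^ (-(e1 / 2)) * (m : ℝ) ^ (-(e1 / 2)) *
              (c / 2 * (m : ℝ) ^ e1) = Q * Real.log m * ((2 / c) * (c / 2)) *
              ((m : ℝ) ^ (-(e1 / 2)) * (m : ℝ) ^ (-(e1 / 2)) * (m : ℝ) ^ e1) := by ring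
          rw [this, e3]
          field_simp
      _ ≤ min 1 x * (m : ℝ) ^ (-(e1 / 2)) * (s * P ((1 - e1) * Tb (Real.log m))) := by
          have : 0 ≤ min 1 x := (lt_min one_pos hx).le
          gcongr
  have hm1' : (m : ℝ) ^ (-(e1 / 2)) ≤ 1 :=
    Real.rpow_le_one_of_one_le_of_nonpos (by exact_mod_cast hm1) (by linarith)
  refine ⟨_, e, he', by positivity, key.trans ?_, key.trans ?_⟩
  · calc min 1 x * (m : ℝ) ^ (-(e1 / 2)) ≤ 1 * (m : ℝ) ^ (-(e1 / 2)) :=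
        mul_le_mul_of_nonneg_right (min_le_left _ _) h6.le
      _ = _ := one_mul _
  · calc min 1 x * (m : ℝ) ^ (-(e1 / 2)) ≤ x * 1 :=
        mul_le_mul (min_le_right _ _) hm1' h6.le hx.le
      _ = x := mul_one x

end

end PLT.Cv

namespace PLT

open NUO (Tb)
open NUKer (iD)
open NUMF (l l_pos)
open PotH.PLX (sN sN_true sN_nonneg le_sN sN_le sN_sub sN_div)
open NUGC.PLX (hC)

noncomputable section

/-! ### admissible curves -/

section

variable [SeaC]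

/-- **admissible curves**: `m` rows, window `(1 - e1) Tb`; the current `m P η` is Lipschitz -/
structure CrvP (e1 Cc : ℝ) (m : ℕ) (η η1 : ℝ → ℝ) : Prop where
  cur : ∃ (ε : ℝ) (e : ℝ → ℝ),
    Cv.Cur m ε (Cc * Real.log m) ((1 - e1) * Tb (Real.log m)) e η ∧ 0 ≤ ε ∧
      ε ≤ (m : ℝ) ^ (-(e1 / 2)) ∧ ε ≤ l / 1000
  d : ∀ t, HasDerivAt η (η1 t) t
  c : Continuous η1
  nn : ∀ t, 0 ≤ η t
  lip : ∀ t t', |(m : ℝ) * Cv.P t * η t - (m : ℝ) * Cv.P t' * η t'| ≤ |t - t'|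

variable {e1 Cc : ℝ} {m : ℕ} {η η1 : ℝ → ℝ}

lemma CrvP.le (h : CrvP e1 Cc m η η1) (t : ℝ) : |η t| ≤ l / 1000 := by
  obtain ⟨ε, e, h1, -, -, h4⟩ := h.cur
  exact (h1.abs_le t).trans ((h1.le t).trans h4)

lemma CrvP.le1 (h : CrvP e1 Cc m η η1) (t : ℝ) : |η1 t| ≤ l / 1000 := by
  obtain ⟨ε, e, h1, -, -, h4⟩ := h.cur
  exact (h1.abs_le1 h.d t).trans ((h1.le t).trans h4)

variable [Fil]

lemma CrvP.dcv (h : CrvP e1 Cc m η η1) (a : Bool) (t : ℝ) :
    HasDerivAt (Fil.cv a η) (Fil.cv a η1 t) t := Fil.hasDerivAt_cv a (h.d t)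

lemma CrvP.ccv (h : CrvP e1 Cc m η η1) (a : Bool) : Continuous (Fil.cv a η1) :=
  Fil.continuous_cv a h.c

lemma CrvP.nncv (h : CrvP e1 Cc m η η1) (a : Bool) (t : ℝ) : 0 ≤ Fil.cv a η t :=
  Fil.cv_nonneg (h.nn t)

lemma CrvP.lecv (h : CrvP e1 Cc m η η1) (a : Bool) (t : ℝ) : |Fil.cv a η t| ≤ l / 1000 :=
  Fil.abs_cv_le_of (h.le t)

end

section

variable (B : SeaCB) [SeaC] [SeaCU B] [Fil] [Ends] {e1 Cc : ℝ} {m : ℕ} {η η1 : ℝ → ℝ}

include B

/-- **the curves of the two species**: the numbers `sN m a`, the same weight, nearly equal currents -/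
lemma CrvP.spc (h : CrvP e1 Cc m η η1) (hm : 1 ≤ m) :
    ∃ (ε : ℝ) (e : ℝ → ℝ),
      (∀ a, Cv.Cur (sN m a) ε ((Fil.qo : ℕ) * (Cc * Real.log m))
        ((1 - e1) * Tb (Real.log m)) e (Fil.cv a η)) ∧
      NUSea.PLX.Com ((Fil.qo : ℕ) : ℝ) (sN m) e (fun a => Fil.cv a η) (fun a => Fil.cv a η1) ∧
      0 ≤ ε ∧ ε ≤ (m : ℝ) ^ (-(e1 / 2)) ∧ ε ≤ l / 1000 := by
  obtain ⟨ε, e, h1, h2, h3, h4⟩ := h.cur
  have hm0 : (0 : ℝ) < m := by exact_mod_cast hm
  refine ⟨ε, e, fun a => ?_, ?_, h2, h3, h4⟩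
  · obtain ⟨k1, k2, k3, k4⟩ := h1.cv hm0 a (sN_nonneg m a)
    refine ⟨k1, k2, fun t => (k3 t).trans ?_, k4⟩
    have hM : 0 ≤ Cc * Real.log m := by
      have h5 := h1.mass 0
      have h6 := h1.oc.nonneg 0
      have h7 := Cv.P_pos B 0
      refine le_trans ?_ h5
      positivity
    refine mul_le_mul_of_nonneg_right ?_ hM
    rw [div_le_iff₀ hm0]
    exact sN_le hm a
  · exact h1.com h.d (Nat.cast_nonneg _) (sN_div hm)

end

/-- **the curve of TARGET-C is admissible**, every number of rows `m ≥ m0` -/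
theorem exists_crvC (B : SeaCB) {e1 J : ℝ} (he : 0 < e1) (he1 : e1 ≤ 1 / 100) (hJ : 0 ≤ J) :
    ∃ Cc : ℝ, 1 ≤ Cc ∧ ∃ m0 : ℕ, 1 ≤ m0 ∧ ∀ [SeaC] [SeaCU B], ∀ m : ℕ, m0 ≤ m →
      20 ≤ Tb (Real.log m) ∧ CrvP e1 Cc m (Cv.etaC e1 J m m) (Cv.etaC' e1 J m m) := by
  obtain ⟨C, hC, m1, hm1, H⟩ := Cv.exists_curC B he he1 hJ (x := l / 1000)
    (by have := l_pos; positivity)
  obtain ⟨m2, H2⟩ := PotH.PLX.slope_hC he J hJ
  refine ⟨C, hC, max m1 m2, hm1.trans (le_max_left _ _), @fun _ hS m hm => ?_⟩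
  have k1 : m1 ≤ m := (le_max_left _ _).trans hm
  have k2 : m2 ≤ m := (le_max_right _ _).trans hm
  obtain ⟨hT, Hs⟩ := H m k1
  have hmp : (0 : ℝ) < m := by
    have : 0 < m := lt_of_lt_of_le (by omega) (hm1.trans k1)
    exact_mod_cast this
  obtain ⟨ε, e, h1, h2, h3, h4⟩ := Hs m (by linarith)
  exact ⟨hT,
    { cur := ⟨ε, e, h1, h2, h3, h4⟩
      d := Cv.etaC_hasDeriv B e1 J m m
      c := Cv.etaC'_cont B e1 J m m
      nn := Cv.etaC_nonneg B he1 hJ hT hmp.le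
      lip := fun t t' => by
        rw [Cv.mul_etaC B hmp, Cv.mul_etaC B hmp]
        exact H2 m k2 he1 hT t t' }⟩

/-! ### the displacement from the straight line -/

section

variable [SeaC] [Fil]

/-- **the displacement of the curves of the two species from the straight line** -/
def dsp (η : ℝ → ℝ) (a : Bool) (t : ℝ) : ℂ := Cv.eta t * Complex.I + Cv.gD (Fil.cv a η) t

/-- its derivative -/
def dsp1 (η η1 : ℝ → ℝ) (a : Bool) (t : ℝ) : ℂ :=
  deriv Cv.eta t * Complex.I + Cv.gD1 (Fil.cv a η) (Fil.cv a η1) t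

/-- the point of the curve in the rotated coordinate -/
lemma zt_gD (η : ℝ → ℝ) (a : Bool) (t : ℝ) : Cv.zt (Cv.gD (Fil.cv a η)) t = t + dsp η a t := by
  unfold Cv.zt Cv.ga dsp
  ring

lemma zd_gD (η η1 : ℝ → ℝ) (a : Bool) (t : ℝ) :
    Cv.zd (Cv.gD1 (Fil.cv a η) (Fil.cv a η1)) t = 1 + dsp1 η η1 a t := by
  unfold Cv.zd Cv.ga' dsp1
  ring

lemma hasDerivAt_dsp {η η1 : ℝ → ℝ} (h : ∀ t, HasDerivAt η (η1 t) t) (a : Bool) (t : ℝ) :
    HasDerivAt (dsp η a) (dsp1 η η1 a t) t :=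
  ((Cv.hasDerivAt_eta t).ofReal_comp.mul_const Complex.I).add
    (Cv.hasDerivAt_gD (fun t => Fil.hasDerivAt_cv a (h t)) t)

lemma continuous_dsp1 {η η1 : ℝ → ℝ} (hη : Continuous η) (hη1 : Continuous η1) (a : Bool) :
    Continuous (dsp1 η η1 a) := by
  have c1 := Fil.continuous_cv a hη
  have c2 := Fil.continuous_cv a hη1
  have h1 := Cv.continuous_eta'
  have h2 := Cv.continuous_ga'
  have h3 := Cv.continuous_ga2
  unfold dsp1 Cv.gD1 iD
  fun_prop

end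

end

end PLT
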