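import Pool.Agent.PLT.GasTwo
import Pool.Agent.PLT.CrvC

/-!
# The gas of two displaced seas around a static curve

`gas s η η1 Fe`: contours `zt (gD (η a))`; `Cur_path_w`, `gas_ok_w` (`exists_com` is in `PLT/CrvC`).  `SAsy lo hi κ c a φ τ f`: asymptotics `± c (z - τ) + a ± i φ` in a strip.
-/

set_option autoImplicit false
set_option linter.unusedSectionVars false
set_option linter.unusedVariables false

open MeasureTheory Set Filter Topology Complex

namespace PLT.Cv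

open NUMF (l l_pos w g V)
open NUAct (Us Ux Uc ks kx gr Kern Up Gas)
open NUKer (iD)
open NUAct (OC)
open NUSea.PLX (Com)

noncomputable section

/-- asymptotics of a potential in a strip: `f = ± c (z - τ) + a ± i φ + O(e^{-2 |Re z - τ|})` -/
structure SAsy (lo hi κ c a φ τ : ℝ) (f : ℂ → ℂ) : Prop where
  ar : ∀ z : ℂ, lo ≤ z.im → z.im ≤ hi → τ ≤ z.re →
    ‖f z - (c * (z - τ) + a + φ * I)‖ ≤ κ * Real.exp (-2 * |z.re - τ|)
  al : ∀ z : ℂ, lo ≤ z.im → z.im ≤ hi → z.re ≤ τ →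
    ‖f z - (-c * (z - τ) + a - φ * I)‖ ≤ κ * Real.exp (-2 * |z.re - τ|)

namespace SAsy

variable {lo hi κ c a φ τ κ' c' a' φ' : ℝ} {f g : ℂ → ℂ}

theorem mono (h : SAsy lo hi κ c a φ τ f) (hk : κ ≤ κ') : SAsy lo hi κ' c a φ τ f :=
  ⟨fun z h1 h2 hr => (h.ar z h1 h2 hr).trans (mul_le_mul_of_nonneg_right hk (Real.exp_pos _).le),
    fun z h1 h2 hr => (h.al z h1 h2 hr).trans (mul_le_mul_of_nonneg_right hk (Real.exp_pos _).le)⟩

theorem sub {lo' hi' : ℝ} (h : SAsy lo hi κ c a φ τ f) (h1 : lo ≤ lo') (h2 : hi' ≤ hi) :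
    SAsy lo' hi' κ c a φ τ f :=
  ⟨fun z a b hr => h.ar z (h1.trans a) (b.trans h2) hr, fun z a b hr => h.al z (h1.trans a) (b.trans h2) hr⟩

theorem add (h : SAsy lo hi κ c a φ τ f) (h' : SAsy lo hi κ' c' a' φ' τ g) :
    SAsy lo hi (κ + κ') (c + c') (a + a') (φ + φ') τ (fun z => f z + g z) := by
  refine ⟨fun z h1 h2 hr => ?_, fun z h1 h2 hr => ?_⟩
  · have e : f z + g z - (((c + c' : ℝ) : ℂ) * (z - τ) + (a + a' : ℝ) + (φ + φ' : ℝ) * I) =
        (f z - (c * (z - τ) + a + φ * I)) + (g z - (c' * (z - τ) + a' + φ' * I)) := by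
      push_cast; ring
    rw [e, add_mul]
    exact (norm_add_le _ _).trans (add_le_add (h.ar z h1 h2 hr) (h'.ar z h1 h2 hr))
  · have e : f z + g z - (-((c + c' : ℝ) : ℂ) * (z - τ) + (a + a' : ℝ) - (φ + φ' : ℝ) * I) =
        (f z - (-c * (z - τ) + a - φ * I)) + (g z - (-c' * (z - τ) + a' - φ' * I)) := by
      push_cast; ring
    rw [e, add_mul]
    exact (norm_add_le _ _).trans (add_le_add (h.al z h1 h2 hr) (h'.al z h1 h2 hr))

theorem smul (h : SAsy lo hi κ c a φ τ f) (m : ℝ) :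
    SAsy lo hi (|m| * κ) (m * c) (m * a) (m * φ) τ (fun z => m * f z) := by
  refine ⟨fun z h1 h2 hr => ?_, fun z h1 h2 hr => ?_⟩
  · have e : (m : ℂ) * f z - (((m * c : ℝ) : ℂ) * (z - τ) + (m * a : ℝ) + (m * φ : ℝ) * I) =
        m * (f z - (c * (z - τ) + a + φ * I)) := by push_cast; ring
    rw [e, norm_mul, Complex.norm_real, Real.norm_eq_abs, mul_assoc]
    exact mul_le_mul_of_nonneg_left (h.ar z h1 h2 hr) (abs_nonneg _)
  · have e : (m : ℂ) * f z - (-((m * c : ℝ) : ℂ) * (z - τ) + (m * a : ℝ) - (m * φ : ℝ) * I) =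
        m * (f z - (-c * (z - τ) + a - φ * I)) := by push_cast; ring
    rw [e, norm_mul, Complex.norm_real, Real.norm_eq_abs, mul_assoc]
    exact mul_le_mul_of_nonneg_left (h.al z h1 h2 hr) (abs_nonneg _)

end SAsy

/-! ### the paths -/

/-- **the displaced curve of a real current stays near the static curve** -/
theorem Cur_path_w (B : SeaCB) : ∃ C : ℝ, 1 ≤ C ∧ ∀ [SeaC] [SeaCU B], ∀ {s ε M b lo hi : ℝ}
    {e η η1 : ℝ → ℝ}, 0 ≤ s → C * ε ≤ 1 → lo + C * ε ≤ -B.d → B.top + C * ε ≤ hi →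
    Cur s ε M b e η → (∀ t, HasDerivAt η (η1 t) t) →
    SPath lo hi (1 / 2) C (zt (gD η)) (zd (gD1 η η1)) := by
  obtain ⟨C1, hC1, H1⟩ := Cur_disp B
  obtain ⟨C2, hC2, H2⟩ := Disp_path B
  have hh := B.r0
  refine ⟨C1 + C2 + C1 / B.r, by have : 0 < C1 / B.r := by positivity
                                 linarith, @fun _ _ s ε M b lo hi e η η1 hs hε hlo hhi hc hη => ?_⟩
  have hε0 := hc.ε0
  obtain ⟨δ2, D, -⟩ := H1 hs hc hη
  have hp : 0 < C1 / B.r := by positivity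
  have a1 : C1 / B.r * ε ≤ 1 := by
    have : 0 ≤ C1 * ε := by positivity
    have : 0 ≤ C2 * ε := by positivity
    have e1 : (C1 + C2 + C1 / B.r) * ε = C1 * ε + C2 * ε + C1 / B.r * ε := by ring
    linarith
  have a2 : C1 * ε ≤ B.r := by
    rw [div_mul_eq_mul_div, div_le_iff₀ hh] at a1
    linarith
  have a3 : C1 * ε ≤ (C1 + C2 + C1 / B.r) * ε := mul_le_mul_of_nonneg_right (by linarith) hε0
  obtain ⟨P1, -⟩ := H2 D a2
  have him : ∀ t, |(zt (gD η) t).im - eta t| ≤ C1 * ε := by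
    intro t
    have h1 := D.e0 t
    have h2 := Complex.abs_im_le_norm (gD η t)
    have e1 : (zt (gD η) t).im - eta t = (gD η t).im := by
      unfold zt
      rw [Complex.add_im, ga_im]
      ring
    rw [e1]
    exact h2.trans h1
  exact { P1 with
    im_ge := fun t => by
      have h1 := him t
      have h2 := eta_lo B t
      rw [abs_le] at h1
      linarith [h1.1]
    im_le := fun t => by
      have h1 := him t
      have h2 := eta_top B t
      rw [abs_le] at h1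
      linarith [h1.2]
    dle := fun t => (P1.dle t).trans (by linarith)
    near := fun t => (P1.near t).trans (by linarith) }

/-! ### the gas -/

/-- the two species gas on the displaced curves -/
def gas [SeaC] (s : Bool → ℝ) (η η1 : Bool → ℝ → ℝ) (Fe : Bool → ℂ → ℂ) : Gas Bool :=
  two s (fun a => zt (gD (η a))) (fun a => zd (gD1 (η a) (η1 a))) Fe

/-- the pair kernels on the paths -/
def Kf (ζ : Bool → ℝ → ℂ) (a d : Bool) (t y : ℝ) : ℂ := if a = d then Up Us (ζ a) t y else Ux (ζ a t - ζ d y)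

lemma gas_B [SeaC] (s : Bool → ℝ) (η η1 : Bool → ℝ → ℝ) (Fe : Bool → ℂ → ℂ) (a : Bool) (t : ℝ) :
    (gas s η η1 Fe).B a t = Bf (s a) (gD (η a)) (gD1 (η a) (η1 a)) t := rfl

lemma gas_KB [SeaC] (s : Bool → ℝ) (η η1 : Bool → ℝ → ℝ) (Fe : Bool → ℂ → ℂ) (a d : Bool) (t : ℝ) :
    (gas s η η1 Fe).KB a d t =
      ∫ y, Kf (fun a => zt (gD (η a))) a d t y * Bf (s d) (gD (η d)) (gD1 (η d) (η1 d)) y := rfl

/-- **the hypotheses of the action identity** -/
theorem gas_ok_w (B : SeaCB) : ∃ C : ℝ, 1 ≤ C ∧ ∀ [SeaC] [SeaCU B], ∀ {s : Bool → ℝ} {ε M b lo hi : ℝ}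
    {e η η1 : Bool → ℝ → ℝ} {Fe : Bool → ℂ → ℂ}, Str B lo hi → (∀ a, 0 ≤ s a) → C * ε ≤ 1 →
    lo + C * ε ≤ -B.d → B.top + C * ε ≤ hi → (∀ a, Cur (s a) ε M b (e a) (η a)) →
    (∀ a t, HasDerivAt (η a) (η1 a t) t) → (∀ a, SExt lo hi (Fe a)) → (gas s η η1 Fe).Okr := by
  obtain ⟨C, hC, H⟩ := Cur_path_w B
  exact ⟨C, hC, @fun _ _ s ε M b lo hi e η η1 Fe S hs hε hlo hhi hc hη hF =>
    two_ok B s S (fun a => H (hs a) hε hlo hhi (hc a) (hη a)) hF⟩

end

end PLT.Cv
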