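import Pool.Agent.PLT.SeaO
import Pool.Agent.PLX.NUSea.H0.SpG
import Pool.Agent.NUSea.Inst

/-!
# Spectators in the data of a configuration on a path: the remainder `wOC`

Twin of `PLX/NUSea/H0/WoC` and `SpG` for a path `ζ` near the real axis (`PthR`); the hypotheses `Spc`,
`SpI` are the landed ones (they see no curve).

* `wOC ζ I a t = Re A(ζ a t) + B - sg a (log g * τD) - V * ν`;
* `re_pt`, `dre_pt`: the real part of a potential at a point near a real one, at most `|c|` times the real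
  displacement up to `K e^{-2|t - τ|}`; the derivative along a path;
* `Spc.wOC_eq`, `Spc.xiC`, `Spc.wOC_le`, `Spc.xiC_energy`, `Spc.wcC`;
* **`exists_spGC`**: families of groups, everything uniform in the family and in the path;
* `exists_pthR`: the curves `zt (gD η)` over a sea on a static curve are such paths, `ρ = C ε`.
-/

set_option autoImplicit false
set_option linter.unusedSectionVars false
set_option linter.unusedVariables false

open MeasureTheory Set Filter Topology Complex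

namespace PLT.Sp

open NUMF (V)
open NUO (PotB)
open NUGC (Sr muS tauS linS)
open NUSp (qc)
open NUSea.PLX.H0 (Inp Vn Spc SpI pf Gd TG IG kG0 kG0_nonneg exists_nuG int_tauG)

noncomputable section

/-! ### the path -/

/-- a path near the real axis, small localised real displacement -/
structure PthR (b K ρ : ℝ) (ζ ζ' : ℝ → ℂ) : Prop where
  hd : ∀ t, HasDerivAt ζ (ζ' t) t
  hc : Continuous ζ'
  im : ∀ t, |(ζ t).im| < b
  re : ∀ t, |(ζ t).re - t| ≤ ρ * Real.exp (-|t|)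
  re1 : ∀ t, |(ζ' t).re - 1| ≤ ρ * Real.exp (-|t|)
  bd : ∀ t, ‖ζ' t‖ ≤ 1 + K
  K0 : 0 ≤ K
  ρ0 : 0 ≤ ρ
  ρ1 : ρ ≤ 1 / 2

variable {b K ρ κ c τ t : ℝ} {f f1 : ℂ → ℂ} {z z1 : ℂ} {ζ ζ' : ℝ → ℂ}

lemma PthR.cont (h : PthR b K ρ ζ ζ') : Continuous ζ :=
  continuous_iff_continuousAt.2 fun t => (h.hd t).continuousAt

lemma PthR.exp_le (h : PthR b K ρ ζ ζ') (t : ℝ) : ρ * Real.exp (-|t|) ≤ 1 / 2 := by
  have h1 : Real.exp (-|t|) ≤ 1 := Real.exp_le_one_iff.2 (by have := abs_nonneg t; linarith)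
  have := h.ρ1
  have := h.ρ0
  nlinarith

lemma PthR.re2 (h : PthR b K ρ ζ ζ') (t : ℝ) : |(ζ t).re - t| ≤ 1 / 2 := (h.re t).trans (h.exp_le t)

lemma PthR.mono {ρ' : ℝ} (h : PthR b K ρ ζ ζ') (h1 : ρ ≤ ρ') (h2 : ρ' ≤ 1 / 2) : PthR b K ρ' ζ ζ' :=
  { h with
    re := fun t => (h.re t).trans (mul_le_mul_of_nonneg_right h1 (Real.exp_pos _).le)
    re1 := fun t => (h.re1 t).trans (mul_le_mul_of_nonneg_right h1 (Real.exp_pos _).le)
    ρ0 := h.ρ0.trans h1
    ρ1 := h2 }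

/-! ### a potential near a real point -/

private lemma e3 {x : ℝ} (hx : |x - t| ≤ 1 / 2) :
    Real.exp (-2 * |x - τ|) ≤ 3 * Real.exp (-2 * |t - τ|) := by
  have h5 : |t - τ| ≤ |x - τ| + 1 / 2 := by
    have e : t - τ = (x - τ) - (x - t) := by ring
    rw [e]
    exact (abs_sub _ _).trans (by linarith)
  calc Real.exp (-2 * |x - τ|) ≤ Real.exp (1 + -2 * |t - τ|) := Real.exp_le_exp.2 (by linarith)
    _ = Real.exp 1 * Real.exp (-2 * |t - τ|) := Real.exp_add _ _
    _ ≤ _ := mul_le_mul_of_nonneg_right (by have := Real.exp_one_lt_d9; linarith)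
        (Real.exp_pos _).le

lemma norm_f1 (h : PotB b κ c τ f f1) (hz : |z.im| < b) :
    ‖f1 z‖ ≤ |c| + κ * Real.exp (-2 * |z.re - τ|) := by
  rcases le_total τ z.re with ht | ht
  · have h1 := h.tr z hz ht
    have h2 := norm_add_le (f1 z - c) (c : ℂ)
    rw [sub_add_cancel, Complex.norm_real, Real.norm_eq_abs] at h2
    linarith
  · have h1 := h.tl z hz ht
    have h2 := norm_sub_le (f1 z + c) (c : ℂ)
    rw [add_sub_cancel_right, Complex.norm_real, Real.norm_eq_abs] at h2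
    linarith

/-- **the real part near a real point** -/
theorem re_pt (h : PotB b κ c τ f f1) (hz : |z.im| < b) (hx : |z.re - t| ≤ 1 / 2) :
    |(f z).re - (f t).re| ≤ |c| * |z.re - t| +
      3 * κ * (|z.re - t| + |z.im|) * Real.exp (-2 * |t - τ|) := by
  have hk := h.κ0
  have hb := h.b0
  have hE := Real.exp_pos (-2 * |t - τ|)
  -- vertical
  have h1 := NUSp.re_curve h (t := z.re) hz
  rw [Complex.re_add_im] at h1
  have h2 := e3 (τ := τ) hx
  have h3 : κ * |z.im| * Real.exp (-2 * |z.re - τ|) ≤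
      κ * |z.im| * (3 * Real.exp (-2 * |t - τ|)) := mul_le_mul_of_nonneg_left h2 (by positivity)
  -- horizontal
  have h4 : ‖(f (z.re : ℂ)).re - (f (t : ℂ)).re‖ ≤
      (|c| + 3 * κ * Real.exp (-2 * |t - τ|)) * ‖z.re - t‖ := by
    refine Convex.norm_image_sub_le_of_norm_hasDerivWithin_le (f := fun u : ℝ => (f (u : ℂ)).re)
      (f' := fun u : ℝ => (f1 (u : ℂ)).re) (s := uIcc t z.re) (fun u hu => ?_) (fun u hu => ?_)
      (convex_uIcc _ _) left_mem_uIcc right_mem_uIcc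
    · have h1 := (h.hd (u : ℂ) (by simpa using hb)).comp_ofReal
      exact (Complex.reCLM.hasFDerivAt.comp_hasDerivAt u h1).hasDerivWithinAt
    · have h5 : |u - t| ≤ 1 / 2 := by
        have := abs_sub_left_of_mem_uIcc hu
        linarith
      have h6 := norm_f1 h (z := (u : ℂ)) (by simpa using hb)
      rw [Complex.ofReal_re] at h6
      have h7 := mul_le_mul_of_nonneg_left (e3 (τ := τ) h5) hk
      rw [Real.norm_eq_abs]
      exact (Complex.abs_re_le_norm _).trans (by linarith)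
  rw [Real.norm_eq_abs, Real.norm_eq_abs] at h4
  have h5 : |(f z).re - (f t).re| ≤ |(f z).re - (f (z.re : ℂ)).re| +
      |(f (z.re : ℂ)).re - (f (t : ℂ)).re| := abs_sub_le _ _ _
  nlinarith

/-- **the derivative of the real part along a path** -/
theorem dre_pt (h : PotB b κ c τ f f1) (hz : |z.im| < b) (hx : |z.re - t| ≤ 1 / 2) (hK : 0 ≤ K)
    (hz1 : ‖z1‖ ≤ 1 + K) :
    |(f1 z * z1).re - (f1 t).re| ≤ |c| * |z1.re - 1| +
      3 * (|c| + κ) * (2 + K) * Real.exp (-2 * |t - τ|) := by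
  have hk := h.κ0
  have hb := h.b0
  have hc := abs_nonneg c
  have ht0 : |((t : ℝ) : ℂ).im| < b := by simpa using hb
  have hE := Real.exp_pos (-2 * |t - τ|)
  have hE3 := e3 (τ := τ) hx
  have hz0 := norm_nonneg z1
  have fin : ∀ A B : ℝ, 0 ≤ A → A ≤ κ * (3 * Real.exp (-2 * |t - τ|)) →
      B ≤ κ * Real.exp (-2 * |t - τ|) → A * ‖z1‖ + B + |c| * |z1.re - 1| ≤
      |c| * |z1.re - 1| + 3 * (|c| + κ) * (2 + K) * Real.exp (-2 * |t - τ|) := by
    intro A B hA0 hA hB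
    have h1 : A * ‖z1‖ ≤ κ * (3 * Real.exp (-2 * |t - τ|)) * (1 + K) :=
      mul_le_mul hA hz1 hz0 (by positivity)
    have h2 : 0 ≤ |c| * (2 + K) * Real.exp (-2 * |t - τ|) := by positivity
    have h3 : 0 ≤ κ * Real.exp (-2 * |t - τ|) := by positivity
    nlinarith
  have key : ∀ s : ℝ, |s| = |c| → ‖f1 z - s‖ ≤ κ * Real.exp (-2 * |z.re - τ|) →
      ‖f1 (t : ℂ) - s‖ ≤ κ * Real.exp (-2 * |t - τ|) →
      |(f1 z * z1).re - (f1 t).re| ≤ |c| * |z1.re - 1| +
        3 * (|c| + κ) * (2 + K) * Real.exp (-2 * |t - τ|) := by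
    intro s hs h1 h2
    have e : (f1 z * z1).re - (f1 t).re =
        ((f1 z - s) * z1).re - (f1 t - s).re + s * (z1.re - 1) := by
      have e1 : f1 z * z1 = (f1 z - s) * z1 + s * z1 := by ring
      rw [e1, Complex.add_re, Complex.re_ofReal_mul, Complex.sub_re, Complex.ofReal_re]
      ring
    rw [e]
    have a1 : |((f1 z - s) * z1).re| ≤ ‖f1 z - s‖ * ‖z1‖ := by
      rw [← norm_mul]
      exact Complex.abs_re_le_norm _
    have a2 : |(f1 (t : ℂ) - s).re| ≤ ‖f1 (t : ℂ) - s‖ := Complex.abs_re_le_norm _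
    have a3 : |s * (z1.re - 1)| = |c| * |z1.re - 1| := by rw [abs_mul, hs]
    have a4 := fin ‖f1 z - s‖ ‖f1 (t : ℂ) - s‖ (norm_nonneg _)
      (h1.trans (mul_le_mul_of_nonneg_left hE3 hk)) h2
    have a5 := abs_add_le (((f1 z - s) * z1).re - (f1 (t : ℂ) - s).re) (s * (z1.re - 1))
    have a6 := abs_sub ((f1 z - s) * z1).re (f1 (t : ℂ) - s).re
    linarith
  rcases le_total τ t with ht | ht <;> rcases le_total τ z.re with hzr | hzr
  · exact key c rfl (h.tr z hz hzr) (by simpa using h.tr (t : ℂ) ht0 (by simpa using ht))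
  · -- crossing
    have h1 : |t - τ| ≤ 1 / 2 := by
      rw [abs_le] at hx
      rw [abs_of_nonneg (by linarith)]
      linarith
    have h2 : 1 ≤ 3 * Real.exp (-2 * |t - τ|) := by
      have h3 : Real.exp (-1) ≤ Real.exp (-2 * |t - τ|) := Real.exp_le_exp.2 (by linarith)
      have h4 : Real.exp (-1) * Real.exp 1 = 1 := by rw [← Real.exp_add]; simp
      have h5 := Real.exp_one_lt_d9
      have h6 := Real.exp_pos (-1)
      nlinarith
    have b1 := norm_f1 h hz
    have b2 := norm_f1 h ht0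
    rw [Complex.ofReal_re] at b2
    have b3 : Real.exp (-2 * |z.re - τ|) ≤ 1 :=
      Real.exp_le_one_iff.2 (by have := abs_nonneg (z.re - τ); linarith)
    have b4 : Real.exp (-2 * |t - τ|) ≤ 1 :=
      Real.exp_le_one_iff.2 (by have := abs_nonneg (t - τ); linarith)
    have a1 : |(f1 z * z1).re| ≤ ‖f1 z‖ * ‖z1‖ := by
      rw [← norm_mul]
      exact Complex.abs_re_le_norm _
    have a2 : |(f1 (t : ℂ)).re| ≤ ‖f1 (t : ℂ)‖ := Complex.abs_re_le_norm _
    have a3 : ‖f1 z‖ * ‖z1‖ ≤ (|c| + κ) * (1 + K) :=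
      mul_le_mul (by nlinarith) hz1 hz0 (by positivity)
    have a4 : ‖f1 (t : ℂ)‖ ≤ |c| + κ := by nlinarith
    have a5 : (|c| + κ) * (2 + K) * 1 ≤ (|c| + κ) * (2 + K) * (3 * Real.exp (-2 * |t - τ|)) :=
      mul_le_mul_of_nonneg_left h2 (by positivity)
    have a6 : 0 ≤ |c| * |z1.re - 1| := by positivity
    have a7 := abs_sub (f1 z * z1).re (f1 (t : ℂ)).re
    nlinarith
  · -- crossing
    have h1 : |t - τ| ≤ 1 / 2 := by
      rw [abs_le] at hx
      rw [abs_of_nonpos (by linarith)]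
      linarith
    have h2 : 1 ≤ 3 * Real.exp (-2 * |t - τ|) := by
      have h3 : Real.exp (-1) ≤ Real.exp (-2 * |t - τ|) := Real.exp_le_exp.2 (by linarith)
      have h4 : Real.exp (-1) * Real.exp 1 = 1 := by rw [← Real.exp_add]; simp
      have h5 := Real.exp_one_lt_d9
      have h6 := Real.exp_pos (-1)
      nlinarith
    have b1 := norm_f1 h hz
    have b2 := norm_f1 h ht0
    rw [Complex.ofReal_re] at b2
    have b3 : Real.exp (-2 * |z.re - τ|) ≤ 1 :=
      Real.exp_le_one_iff.2 (by have := abs_nonneg (z.re - τ); linarith)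
    have b4 : Real.exp (-2 * |t - τ|) ≤ 1 :=
      Real.exp_le_one_iff.2 (by have := abs_nonneg (t - τ); linarith)
    have a1 : |(f1 z * z1).re| ≤ ‖f1 z‖ * ‖z1‖ := by
      rw [← norm_mul]
      exact Complex.abs_re_le_norm _
    have a2 : |(f1 (t : ℂ)).re| ≤ ‖f1 (t : ℂ)‖ := Complex.abs_re_le_norm _
    have a3 : ‖f1 z‖ * ‖z1‖ ≤ (|c| + κ) * (1 + K) :=
      mul_le_mul (by nlinarith) hz1 hz0 (by positivity)
    have a4 : ‖f1 (t : ℂ)‖ ≤ |c| + κ := by nlinarith
    have a5 : (|c| + κ) * (2 + K) * 1 ≤ (|c| + κ) * (2 + K) * (3 * Real.exp (-2 * |t - τ|)) :=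
      mul_le_mul_of_nonneg_left h2 (by positivity)
    have a6 : 0 ≤ |c| * |z1.re - 1| := by positivity
    have a7 := abs_sub (f1 z * z1).re (f1 (t : ℂ)).re
    nlinarith
  · refine key (-c) (abs_neg c) ?_ ?_
    · have := h.tl z hz hzr
      simpa using this
    · have := h.tl (t : ℂ) ht0 (by simpa using ht)
      simpa using this

/-! ### the remainder -/

/-- the part of the remainder which comes from the extra data, on the path `ζ` -/
def wOC (ζ : Bool → ℝ → ℂ) (I : Inp) (a : Bool) (t : ℝ) : ℝ :=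
  (I.A a (ζ a t)).re + I.B a t - NUC43.sg a * NUC43.lgp I.τD t - Vn I a t

/-- constant of the remainder -/
def Kz (κ cm K : ℝ) : ℝ := 3 * (|cm| + κ) * (2 + K)

lemma Kz_nonneg {cm : ℝ} (hκ : 0 ≤ κ) (hK : 0 ≤ K) : 0 ≤ Kz κ cm K := by
  unfold Kz
  positivity

/-- profile of the remainder -/
def pz {ι : Type*} [Fintype ι] (h : ι → ℝ) (ρ t : ℝ) : ℝ :=
  pf h t + Fintype.card ι * (ρ * Real.exp (-|t|))

attribute [local instance] NUSea.seaP in
private lemma pf0 {ι : Type*} [Fintype ι] (h : ι → ℝ) (t : ℝ) : 0 ≤ pf h t :=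
  NUSea.PLX.H0.pf_nonneg h t

attribute [local instance] NUSea.seaP in
private lemma pfle {ι : Type*} [Fintype ι] (h : ι → ℝ) (t : ℝ) : pf h t ≤ Fintype.card ι :=
  NUSea.PLX.H0.pf_le h t

attribute [local instance] NUSea.seaP in
private lemma pfc {ι : Type*} [Fintype ι] (h : ι → ℝ) : Continuous (pf h) := NUSea.PLX.H0.pf_cont h

attribute [local instance] NUSea.seaP in
private lemma pfi {ι : Type*} [Fintype ι] (h : ι → ℝ) :
    Integrable (pf h) ∧ ∫ t, pf h t = Fintype.card ι := NUSea.PLX.H0.pf_int h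

attribute [local instance] NUSea.seaP in
private lemma f1c {b κ c τ : ℝ} {f f1 : ℂ → ℂ} (h : PotB b κ c τ f f1) :
    ContinuousOn f1 {z : ℂ | |z.im| < b} := NUSea.PLX.H0.f1_cont h

lemma pz_nonneg {ι : Type*} [Fintype ι] (h : ι → ℝ) (hρ : 0 ≤ ρ) (t : ℝ) : 0 ≤ pz h ρ t := by
  unfold pz
  have := pf0 h t
  positivity

lemma pz_le {ι : Type*} [Fintype ι] (h : ι → ℝ) (hρ : 0 ≤ ρ) (hρ1 : ρ ≤ 1 / 2) (t : ℝ) :
    pz h ρ t ≤ 2 * Fintype.card ι := by
  unfold pz
  have h1 := pfle h t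
  have h2 : Real.exp (-|t|) ≤ 1 := Real.exp_le_one_iff.2 (by have := abs_nonneg t; linarith)
  have h3 : ρ * Real.exp (-|t|) ≤ 1 := by
    have := Real.exp_pos (-|t|)
    nlinarith
  have h4 : (0:ℝ) ≤ Fintype.card ι := Nat.cast_nonneg _
  nlinarith

lemma pz_int {ι : Type*} [Fintype ι] (h : ι → ℝ) (hρ : 0 ≤ ρ) (hρ1 : ρ ≤ 1 / 2) :
    Integrable (pz h ρ) ∧ ∫ t, pz h ρ t ≤ 2 * Fintype.card ι := by
  have h1 := NUDispW.int_exp_abs (c := 1) one_pos 0
  have e : (fun x : ℝ => Real.exp (-(1 * |x - 0|))) = fun x => Real.exp (-|x|) := by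
    funext x; simp
  rw [e] at h1
  have h2 : Integrable fun t : ℝ => (Fintype.card ι : ℝ) * (ρ * Real.exp (-|t|)) :=
    (h1.1.const_mul ρ).const_mul _
  refine ⟨(pfi h).1.add h2, ?_⟩
  show (∫ t, (pf h t + (Fintype.card ι : ℝ) * (ρ * Real.exp (-|t|)))) ≤ _
  rw [integral_add (pfi h).1 h2, (pfi h).2, integral_const_mul, integral_const_mul, h1.2]
  have h4 : (0:ℝ) ≤ Fintype.card ι := Nat.cast_nonneg _
  nlinarith

lemma pz_cont {ι : Type*} [Fintype ι] (h : ι → ℝ) (ρ : ℝ) : Continuous (pz h ρ) := by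
  have := pfc h
  unfold pz
  fun_prop

section

variable {ι κ' : Type*} [Fintype ι] [Fintype κ'] {cm : ℝ} {I : Inp} {c : ι → Bool → ℝ} {h : ι → ℝ}
  {f f1 : ι → Bool → ℂ → ℂ} {T : κ' → Sr} {R R' : Bool → ℝ → ℝ}
  (S : Spc b κ cm I c h f f1 T R R')

include S

/-- the remainder: displacement of the path and `R` -/
theorem wOC_eq (ζ : Bool → ℝ → ℂ) (a : Bool) (t : ℝ) : wOC ζ I a t =
    (∑ i, ((f i a (ζ a t)).re - (f i a t).re)) + R a t := by
  have h1 := NUGC.muS_eq S.ok a t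
  have e1 : wOC ζ I a t = (I.A a (ζ a t)).re + I.B a t - NUC43.sg a * NUC43.lgp I.τD t -
      Vn I a t := rfl
  have e2 : Vn I a t = ∫ u, muS T a u * V (t - u) := by
    unfold Vn
    rw [S.ν]
  have e3 := S.lin a t
  rw [e1, e2, S.τ, S.A, Complex.re_sum, Finset.sum_sub_distrib, ← e3]
  linarith

variable {ζ ζ' : Bool → ℝ → ℂ}

/-- **the remainder of the spectators is `C^1`; size and derivative** -/
theorem xiC (a : Bool) (hb : b ≤ 1) (hζ : PthR b K ρ (ζ a) (ζ' a)) : ∃ xi1 : ℝ → ℝ,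
      (∀ t, HasDerivAt (wOC ζ I a) (xi1 t) t) ∧ Continuous xi1 ∧
      (∀ t, |wOC ζ I a t - R a t| ≤ Kz κ cm K * pz h ρ t) ∧
      ∀ t, |xi1 t - R' a t| ≤ Kz κ cm K * pz h ρ t := by
  have hK := hζ.K0
  have hρ := hζ.ρ0
  have hz := hζ.cont
  have hc : ∀ i, |c i a| ≤ |cm| := fun i => (S.cm i a).trans (le_abs_self _)
  have d0 : ∀ (i : ι) (t : ℝ), HasDerivAt (fun t : ℝ => (f i a t).re) (f1 i a t).re t := by
    intro i t
    have h1 := ((S.pot i a).hd (t : ℂ) (by simpa using (S.pot i a).b0)).comp_ofReal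
    exact Complex.reCLM.hasFDerivAt.comp_hasDerivAt t h1
  have d1 : ∀ (i : ι) (t : ℝ), HasDerivAt (fun t : ℝ => (f i a (ζ a t)).re)
      (f1 i a (ζ a t) * ζ' a t).re t := by
    intro i t
    have h1 := ((S.pot i a).hd (ζ a t) (hζ.im t)).comp t (hζ.hd t)
    exact Complex.reCLM.hasFDerivAt.comp_hasDerivAt t h1
  have hcard : (Fintype.card ι : ℝ) = ∑ _i : ι, (1:ℝ) := by simp
  refine ⟨fun t => (∑ i, ((f1 i a (ζ a t) * ζ' a t).re - (f1 i a t).re)) + R' a t,
    fun t => ?_, ?_, fun t => ?_, fun t => ?_⟩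
  · have e1 : wOC ζ I a = fun t => (∑ i, ((f i a (ζ a t)).re - (f i a t).re)) + R a t :=
      funext fun t => wOC_eq S ζ a t
    rw [e1]
    exact (HasDerivAt.fun_sum fun i _ => (d1 i t).sub (d0 i t)).add (S.dR a t)
  · refine (continuous_finsetSum _ fun i _ => ?_).add (S.cR a)
    have hf1 := f1c (S.pot i a)
    have k1 : Continuous fun t : ℝ => f1 i a (ζ a t) := hf1.comp_continuous hz fun t => hζ.im t
    have k2 : Continuous fun t : ℝ => f1 i a (t : ℂ) :=
      hf1.comp_continuous Complex.continuous_ofReal fun t => by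
        show |(t : ℂ).im| < b
        simpa using (S.pot i a).b0
    exact (Complex.continuous_re.comp (k1.mul hζ.hc)).sub (Complex.continuous_re.comp k2)
  · rw [wOC_eq S ζ a t, add_sub_cancel_right]
    have e2 : Kz κ cm K * pz h ρ t =
        ∑ i, Kz κ cm K * (Real.exp (-2 * |t - h i|) + ρ * Real.exp (-|t|)) := by
      rw [← Finset.mul_sum, Finset.sum_add_distrib]
      unfold pz pf
      rw [hcard, Finset.sum_mul, Finset.sum_congr rfl fun i _ => one_mul _]
    rw [e2]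
    refine (Finset.abs_sum_le_sum_abs _ _).trans (Finset.sum_le_sum fun i _ => ?_)
    have h1 := re_pt (S.pot i a) (hζ.im t) (hζ.re2 t)
    have h2 := hζ.re t
    have h3 := hζ.re2 t
    have h4 := (hζ.im t).le.trans hb
    have hE := Real.exp_pos (-2 * |t - h i|)
    have hE' := Real.exp_pos (-|t|)
    have hk := (S.pot i a).κ0
    have hci := hc i
    have hcm := abs_nonneg cm
    refine h1.trans ?_
    have a1 : |c i a| * |(ζ a t).re - t| ≤ |cm| * (ρ * Real.exp (-|t|)) :=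
      mul_le_mul hci h2 (abs_nonneg _) hcm
    have a2 : 3 * κ * (|(ζ a t).re - t| + |(ζ a t).im|) * Real.exp (-2 * |t - h i|) ≤
        3 * κ * 2 * Real.exp (-2 * |t - h i|) := by
      gcongr
      linarith
    have a3 : |cm| * (ρ * Real.exp (-|t|)) ≤ Kz κ cm K * (ρ * Real.exp (-|t|)) := by
      refine mul_le_mul_of_nonneg_right ?_ (by positivity)
      unfold Kz
      nlinarith [mul_nonneg hcm hK, mul_nonneg hk hK]
    have a4 : 3 * κ * 2 * Real.exp (-2 * |t - h i|) ≤ Kz κ cm K * Real.exp (-2 * |t - h i|) := by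
      refine mul_le_mul_of_nonneg_right ?_ hE.le
      unfold Kz
      nlinarith [mul_nonneg hcm hK, mul_nonneg hk hK]
    rw [mul_add]
    linarith
  · rw [add_sub_cancel_right]
    have e2 : Kz κ cm K * pz h ρ t =
        ∑ i, Kz κ cm K * (Real.exp (-2 * |t - h i|) + ρ * Real.exp (-|t|)) := by
      rw [← Finset.mul_sum, Finset.sum_add_distrib]
      unfold pz pf
      rw [hcard, Finset.sum_mul, Finset.sum_congr rfl fun i _ => one_mul _]
    rw [e2]
    refine (Finset.abs_sum_le_sum_abs _ _).trans (Finset.sum_le_sum fun i _ => ?_)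
    have h1 := dre_pt (S.pot i a) (hζ.im t) (hζ.re2 t) hK (hζ.bd t)
    have h2 := hζ.re1 t
    have hE := Real.exp_pos (-2 * |t - h i|)
    have hE' := Real.exp_pos (-|t|)
    have hk := (S.pot i a).κ0
    have hci := hc i
    have hcm := abs_nonneg cm
    refine h1.trans ?_
    have a1 : |c i a| * |(ζ' a t).re - 1| ≤ |cm| * (ρ * Real.exp (-|t|)) :=
      mul_le_mul hci h2 (abs_nonneg _) hcm
    have a2 : 3 * (|c i a| + κ) * (2 + K) * Real.exp (-2 * |t - h i|) ≤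
        Kz κ cm K * Real.exp (-2 * |t - h i|) := by
      unfold Kz
      gcongr
    have a3 : |cm| * (ρ * Real.exp (-|t|)) ≤ Kz κ cm K * (ρ * Real.exp (-|t|)) := by
      refine mul_le_mul_of_nonneg_right ?_ (by positivity)
      unfold Kz
      nlinarith [mul_nonneg hcm hK, mul_nonneg hk hK]
    rw [mul_add]
    linarith

/-- size of the remainder -/
theorem wOC_le (a : Bool) (hb : b ≤ 1) (hζ : PthR b K ρ (ζ a) (ζ' a)) (t : ℝ) :
    |wOC ζ I a t| ≤ |R a t| + 2 * Kz κ cm K * Fintype.card ι := by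
  obtain ⟨xi1, -, -, h3, -⟩ := xiC S a hb hζ
  have hK := Kz_nonneg (cm := cm) S.κ0 hζ.K0
  have h4 := h3 t
  have h7 := mul_le_mul_of_nonneg_left (pz_le h hζ.ρ0 hζ.ρ1 t) hK
  have h9 := abs_add_le (R a t) (wOC ζ I a t - R a t)
  rw [add_sub_cancel] at h9
  linarith

/-- **local energy of the remainder** -/
theorem xiC_energy (a : Bool) (hb : b ≤ 1) (hζ : PthR b K ρ (ζ a) (ζ' a)) {xi1 : ℝ → ℝ}
    (hx : ∀ t, HasDerivAt (wOC ζ I a) (xi1 t) t) {x : ℝ} (hx0 : 0 ≤ x) :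
    ∫ t in (-x)..x, (wOC ζ I a t ^ 2 + xi1 t ^ 2) ≤
      2 * (∫ t in (-x)..x, (R a t ^ 2 + R' a t ^ 2)) + (4 * Kz κ cm K * Fintype.card ι) ^ 2 := by
  obtain ⟨y1, k1, k2, k3, k4⟩ := xiC S a hb hζ
  have exy : xi1 = y1 := funext fun t => (hx t).unique (k1 t)
  subst exy
  have hK := Kz_nonneg (cm := cm) S.κ0 hζ.K0
  have hR : Continuous (R a) := continuous_iff_continuousAt.2 fun t => (S.dR a t).continuousAt
  have hR' := S.cR a
  have hw : Continuous (wOC ζ I a) := continuous_iff_continuousAt.2 fun t => (hx t).continuousAt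
  have hle : -x ≤ x := by linarith
  have hcp := pz_cont h ρ
  obtain ⟨X, hX⟩ : ∃ X : ℝ, X = Kz κ cm K := ⟨_, rfl⟩
  rw [← hX] at hK k3 k4 ⊢
  obtain ⟨n, hn⟩ : ∃ n : ℝ, n = (Fintype.card ι : ℝ) := ⟨_, rfl⟩
  have hn0 : 0 ≤ n := by rw [hn]; exact Nat.cast_nonneg _
  rw [← hn]
  have pt : ∀ t, wOC ζ I a t ^ 2 + xi1 t ^ 2 ≤
      2 * (R a t ^ 2 + R' a t ^ 2) + 8 * X ^ 2 * n * pz h ρ t := by
    intro t
    have h7 := pz_le h hζ.ρ0 hζ.ρ1 t
    rw [← hn] at h7
    have h8 := pz_nonneg h hζ.ρ0 t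
    have a1 := k3 t
    have a2 := k4 t
    have b1 : (wOC ζ I a t - R a t) ^ 2 ≤ (X * pz h ρ t) ^ 2 := by
      rw [← sq_abs]
      gcongr
    have b2 : (xi1 t - R' a t) ^ 2 ≤ (X * pz h ρ t) ^ 2 := by
      rw [← sq_abs]
      gcongr
    have b3 : (X * pz h ρ t) ^ 2 ≤ X ^ 2 * (2 * n) * pz h ρ t := by
      rw [mul_pow, sq (pz h ρ t), mul_assoc]
      exact mul_le_mul_of_nonneg_left (mul_le_mul_of_nonneg_right h7 h8) (sq_nonneg X)
    nlinarith [sq_nonneg (R a t - (wOC ζ I a t - R a t)), sq_nonneg (R' a t - (xi1 t - R' a t))]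
  have j1 : Continuous fun t => wOC ζ I a t ^ 2 + xi1 t ^ 2 := by fun_prop
  have j2 : Continuous fun t => R a t ^ 2 + R' a t ^ 2 := by fun_prop
  have j3 : Continuous fun t => 8 * X ^ 2 * n * pz h ρ t := by fun_prop
  refine (intervalIntegral.integral_mono_on hle (j1.intervalIntegrable _ _)
    (((j2.intervalIntegrable _ _).const_mul 2).add (j3.intervalIntegrable _ _)) fun t _ => pt t).trans ?_
  rw [intervalIntegral.integral_add ((j2.intervalIntegrable _ _).const_mul 2)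
    (j3.intervalIntegrable _ _), intervalIntegral.integral_const_mul,
    intervalIntegral.integral_const_mul]
  obtain ⟨p1, p2⟩ := pz_int h hζ.ρ0 hζ.ρ1
  rw [← hn] at p2
  have q1 : ∫ t in (-x)..x, pz h ρ t ≤ 2 * n := by
    rw [intervalIntegral.integral_of_le hle]
    exact (setIntegral_le_integral p1 (ae_of_all _ fun t => pz_nonneg h hζ.ρ0 t)).trans p2
  have q2 : 8 * X ^ 2 * n * ∫ t in (-x)..x, pz h ρ t ≤ 8 * X ^ 2 * n * (2 * n) :=
    mul_le_mul_of_nonneg_left q1 (by positivity)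
  have q3 : (4 * X * n) ^ 2 = 8 * X ^ 2 * n * (2 * n) := by ring
  rw [q3]
  linarith

theorem wcC (a : Bool) (hb : b ≤ 1) (hζ : PthR b K ρ (ζ a) (ζ' a)) : ContDiff ℝ 1 (wOC ζ I a) := by
  obtain ⟨xi1, h1, h2, -, -⟩ := xiC S a hb hζ
  rw [contDiff_one_iff_deriv]
  refine ⟨fun t => (h1 t).differentiableAt, ?_⟩
  rw [show deriv (wOC ζ I a) = xi1 from funext fun t => (h1 t).deriv]
  exact h2

end

/-! ### families of groups -/

attribute [local instance] NUSea.seaP in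
private theorem spIspc {n : ℕ} {g : Fin n → Gd} {p q : ℂ} {I : Inp} {B' : Bool → ℝ → ℝ}
    (h : SpI p q g I B') : Spc (NUMF.l / 5) kG0 15 I (NUSea.PLX.H0.cD fun i => (g i).G)
      (NUSea.PLX.H0.hD p fun i => (g i).τ) (NUSea.PLX.H0.fD p q fun i => (g i).G)
      (NUSea.PLX.H0.fD1 p q fun i => (g i).G) (TG g) I.B B' := h.spc

attribute [local instance] NUSea.seaP in
private theorem spAll {ι κ' : Type*} [Fintype ι] [Fintype κ'] {b κ cm : ℝ} {I : Inp}
    {c : ι → Bool → ℝ} {h : ι → ℝ} {f f1 : ι → Bool → ℂ → ℂ} {T : κ' → Sr} {R R' : Bool → ℝ → ℝ}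
    (S : Spc b κ cm I c h f f1 T R R') : (∀ a, NUAct.Ext (NUMF.l / 10) (I.A a)) ∧
    (∀ a, Continuous (I.ν a)) ∧ (∀ a, Integrable (I.ν a)) ∧ (∀ a, ∃ C, ∀ t, |I.ν a t| ≤ C) ∧
    Integrable I.τD ∧ Integrable fun x => I.τD x * x :=
  ⟨S.Ae, S.νc, S.νi, S.νb, S.τi, S.τ1⟩

/-- **families of groups in the data**: everything uniform in the family and in the path -/
theorem exists_spGC (Kp : ℝ) : ∃ K : ℝ, 1 ≤ K ∧ ∀ (n : ℕ) (g : Fin n → Gd) (p q : ℂ) (I : Inp)
    (B' : Bool → ℝ → ℝ), SpI p q g I B' → ∀ (ρ : ℝ) (ζ ζ' : Bool → ℝ → ℂ),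
      (∀ a, PthR (NUMF.l / 5) Kp ρ (ζ a) (ζ' a)) →
    (∀ a t, |wOC ζ I a t| ≤ |I.B a t| + K * (n + 1)) ∧
    (∀ a, ContDiff ℝ 1 (wOC ζ I a)) ∧
    (∀ a T, 0 ≤ T → ∫ t in (-(T + 1))..(T + 1), (wOC ζ I a t ^ 2 + deriv (wOC ζ I a) t ^ 2) ≤
      2 * (∫ t in (-(T + 1))..(T + 1), (I.B a t ^ 2 + B' a t ^ 2)) + (K * (n + 1)) ^ 2) ∧
    (∀ a t, |I.ν a t| ≤ K * ∑ i, Real.exp (-(5 / 2 * |t - (g i).τ|))) ∧
    (∀ a, ∫ t, |I.ν a t| ≤ K * n) ∧
    (∫ x, I.τD x = -∑ i, NUC43.sg (g i).σ * qc (g i).c / 2) ∧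
    (∀ a, NUAct.Ext (NUMF.l / 10) (I.A a)) ∧
    (∀ a, Continuous (I.ν a)) ∧ (∀ a, Integrable (I.ν a)) ∧ (∀ a, ∃ C, ∀ t, |I.ν a t| ≤ C) ∧
    Integrable I.τD ∧ (Integrable fun x => I.τD x * x) ∧ ∀ a, Continuous (I.B a) := by
  obtain ⟨M, hM0, HM⟩ := exists_nuG
  obtain ⟨k, hk⟩ : ∃ k : ℝ, k = |Kz kG0 15 Kp| := ⟨_, rfl⟩
  have hk0 : 0 ≤ k := by rw [hk]; exact abs_nonneg _
  refine ⟨1 + M + 4 * k, by linarith, ?_⟩
  intro n g p q I B' h ρ ζ ζ' hζ
  obtain ⟨-, h2, h3⟩ := HM n g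
  have S := spIspc h
  obtain ⟨s1, s2, s3, s4, s5, s6⟩ := spAll S
  have hl1 : NUMF.l / 5 ≤ 1 := by
    unfold NUMF.l
    have := Real.pi_le_four
    linarith
  have hn : (0:ℝ) ≤ n := Nat.cast_nonneg n
  have hKz : 0 ≤ Kz kG0 15 Kp := Kz_nonneg kG0_nonneg (hζ true).K0
  have hkz : Kz kG0 15 Kp = k := by rw [hk, abs_of_nonneg hKz]
  have hcard : ((Fintype.card (Option (Fin n)) : ℕ) : ℝ) = n + 1 := by
    rw [Fintype.card_option, Fintype.card_fin]
    push_cast
    ring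
  have hS0 : ∀ t, 0 ≤ ∑ i, Real.exp (-(5 / 2 * |t - (g i).τ|)) := fun t =>
    Finset.sum_nonneg fun _ _ => (Real.exp_pos _).le
  refine ⟨fun a t => ?_, fun a => wcC S a hl1 (hζ a), fun a T hT => ?_, fun a t => ?_, fun a => ?_, ?_,
    s1, s2, s3, s4, s5, s6, fun a => continuous_iff_continuousAt.2 fun t => (h.dB a t).continuousAt⟩
  · refine (wOC_le S a hl1 (hζ a) t).trans (add_le_add le_rfl ?_)
    rw [hcard, hkz]
    nlinarith
  · have h1 := wcC S a hl1 (hζ a)
    refine (xiC_energy S a hl1 (hζ a) (xi1 := deriv (wOC ζ I a))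
      (fun t => ((h1.differentiable (by norm_num)) t).hasDerivAt)
      (by linarith : (0:ℝ) ≤ T + 1)).trans (add_le_add le_rfl ?_)
    rw [hcard, hkz]
    refine pow_le_pow_left₀ (by positivity) ?_ 2
    exact mul_le_mul_of_nonneg_right (by linarith) (by positivity)
  · rw [h.ν]
    refine (h2 a t).trans (mul_le_mul_of_nonneg_right ?_ (hS0 t))
    linarith
  · rw [h.ν]
    refine (h3 a).trans (mul_le_mul_of_nonneg_right ?_ hn)
    linarith
  · rw [h.τ]
    exact int_tauG g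

end

end PLT.Sp

namespace PLT.Cv

open NUMF (l l_pos)
open NUKer (iD)

noncomputable section

/-- **the displaced static curves are paths near the real axis** -/
theorem exists_pthR (B : SeaCB) : ∃ C : ℝ, 1 ≤ C ∧ ∀ [SeaC] [SeaCU B], ∀ {s ε M b : ℝ}
    {e η η1 : ℝ → ℝ}, 0 ≤ s → C * ε ≤ 1 / 2 → Cur s ε M b e η → (∀ t, HasDerivAt η (η1 t) t) →
    Sp.PthR (l / 5) C (C * ε) (zt (gD η)) (zd (gD1 η η1)) := by
  obtain ⟨C1, hC1, H1⟩ := ga'_bd B
  obtain ⟨C2, hC2, H2⟩ := ga2_bd B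
  obtain ⟨C3, hC3, H3⟩ := eta_exp B 1
  obtain ⟨C4, hC4, H4⟩ := eta_exp B 2
  have hl := l_pos
  have hl1 : l ≤ 1 := by
    unfold l
    linarith [Real.pi_le_four]
  refine ⟨2 * C1 + C2 + C3 + C4 + 100 / l, by
    have : 0 ≤ 100 / l := by positivity
    linarith, @fun _ hS s ε M b e η η1 hs hε hc h1 => ?_⟩
  obtain ⟨C, hC⟩ : ∃ C : ℝ, C = 2 * C1 + C2 + C3 + C4 + 100 / l := ⟨_, rfl⟩
  rw [← hC] at hε ⊢
  have h100 : 0 ≤ 100 / l := by positivity
  have hε0 := hc.ε0
  have k1 : 100 / l * ε ≤ C * ε := mul_le_mul_of_nonneg_right (by rw [hC]; linarith) hε0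
  have k2 : ε ≤ l / 100 := by
    have h4 : 100 / l * ε * l = 100 * ε := by field_simp
    nlinarith
  have g0 : ∀ t, |η t| ≤ ε := fun t => by
    have := hc.oc.le t
    rw [iD, norm_mul, Complex.norm_I, mul_one, Complex.norm_real, Real.norm_eq_abs] at this
    exact this.trans (hc.le t)
  have g1 : ∀ t, |η1 t| ≤ ε := fun t => by
    have := (hc.oc1 h1).le t
    rw [iD, norm_mul, Complex.norm_I, mul_one, Complex.norm_real, Real.norm_eq_abs] at this
    exact this.trans (hc.le t)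
  have hη : Continuous η := continuous_iff_continuousAt.2 fun t => (h1 t).continuousAt
  have hη1 : Continuous η1 := by
    have h2 := Complex.continuous_im.comp (hc.oc1 h1).cont
    refine h2.congr fun t => ?_
    simp [iD]
  have e32 : ∀ t : ℝ, Real.exp (-(32 / 3) * |t|) ≤ Real.exp (-|t|) := fun t =>
    Real.exp_le_exp.2 (by have := abs_nonneg t; linarith)
  have j3 : ∀ t, |deriv eta t| ≤ C3 * Real.exp (-|t|) := fun t => by
    have := @H3 _ hS t
    rw [iteratedDeriv_one] at this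
    exact this.trans (mul_le_mul_of_nonneg_left (e32 t) hC3)
  have j4 : ∀ t, |iteratedDeriv 2 eta t| ≤ C4 * Real.exp (-|t|) := fun t =>
    (@H4 _ hS t).trans (mul_le_mul_of_nonneg_left (e32 t) hC4)
  have hre : ∀ t, (zt (gD η) t).re = t - η t * deriv eta t := fun t => by
    unfold zt gD iD ga'
    simp
    ring
  have him : ∀ t, (zt (gD η) t).im = eta t + η t := fun t => by
    unfold zt gD iD ga'
    simp
  have hre1 : ∀ t, (zd (gD1 η η1) t).re = 1 - η1 t * deriv eta t - η t * iteratedDeriv 2 eta t :=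
    fun t => by
    unfold zd gD1 iD ga2 ga'
    simp
    ring
  refine
    { hd := fun t => (hasDerivAt_ga t).add (hasDerivAt_gD h1 t)
      hc := ?_
      im := fun t => ?_
      re := fun t => ?_
      re1 := fun t => ?_
      bd := fun t => ?_
      K0 := by rw [hC]; linarith
      ρ0 := by
        rw [hC]
        have : 0 ≤ 2 * C1 + C2 + C3 + C4 + 100 / l := by linarith
        positivity
      ρ1 := hε }
  · have h2 := continuous_ga'
    have h3 := continuous_ga2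
    unfold zd gD1 iD
    fun_prop
  · rw [him]
    have h2 : |eta t| ≤ 3 / 50 * l := abs_le.2 ⟨by have := eta_nn t; linarith, eta_le t⟩
    have h3 := g0 t
    have := abs_add_le (eta t) (η t)
    linarith
  · rw [hre, show t - η t * deriv eta t - t = -(η t * deriv eta t) by ring, abs_neg, abs_mul]
    have hE := Real.exp_pos (-|t|)
    calc |η t| * |deriv eta t| ≤ ε * (C3 * Real.exp (-|t|)) :=
          mul_le_mul (g0 t) (j3 t) (abs_nonneg _) hε0
      _ = C3 * ε * Real.exp (-|t|) := by ring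
      _ ≤ C * ε * Real.exp (-|t|) := by
          refine mul_le_mul_of_nonneg_right (mul_le_mul_of_nonneg_right ?_ hε0) hE.le
          rw [hC]
          linarith
  · rw [hre1, show 1 - η1 t * deriv eta t - η t * iteratedDeriv 2 eta t - 1 =
      -(η1 t * deriv eta t + η t * iteratedDeriv 2 eta t) by ring, abs_neg]
    have hE := Real.exp_pos (-|t|)
    have h2 : |η1 t * deriv eta t| ≤ ε * (C3 * Real.exp (-|t|)) := by
      rw [abs_mul]
      exact mul_le_mul (g1 t) (j3 t) (abs_nonneg _) hε0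
    have h3 : |η t * iteratedDeriv 2 eta t| ≤ ε * (C4 * Real.exp (-|t|)) := by
      rw [abs_mul]
      exact mul_le_mul (g0 t) (j4 t) (abs_nonneg _) hε0
    have h4 := abs_add_le (η1 t * deriv eta t) (η t * iteratedDeriv 2 eta t)
    have h5 : (C3 + C4) * ε * Real.exp (-|t|) ≤ C * ε * Real.exp (-|t|) := by
      refine mul_le_mul_of_nonneg_right (mul_le_mul_of_nonneg_right ?_ hε0) hE.le
      rw [hC]
      linarith
    nlinarith
  · unfold zd gD1 iD
    have h2 := @H1 _ hS t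
    have h3 := @H2 _ hS t
    have h4 : ε ≤ 1 := by linarith
    have e1' : ‖((η1 t : ℂ) * I) * ga' t + ((η t : ℂ) * I) * ga2 t‖ ≤ 1 * C1 + 1 * C2 := by
      refine (norm_add_le _ _).trans ?_
      rw [norm_mul, norm_mul, norm_mul, norm_mul, Complex.norm_I, mul_one, mul_one,
        Complex.norm_real, Complex.norm_real, Real.norm_eq_abs, Real.norm_eq_abs]
      exact add_le_add (mul_le_mul ((g1 t).trans h4) h2 (norm_nonneg _) zero_le_one)
        (mul_le_mul ((g0 t).trans h4) h3 (norm_nonneg _) zero_le_one)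
    refine (norm_add_le _ _).trans ?_
    rw [hC]
    linarith

end

end PLT.Cv
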