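import Pool.Agent.PLT.GStat
import Pool.Agent.PLT.Gas2
import Pool.Agent.PLT.WoC

/-!
# The data of a configuration of abstract objects over a sea on a static curve

* `Oc`: an object: analytic potentials `F a`, density `μ a` for `V`, density `r a` for the static kernels, density `τ`
  of the splitting, remainder `φ a`, height `h`, charge `q`; **`Oc.Ok`**: field equation, decay; `Oc.Pr`, `Oc.PrK`:
  energy of the differences `μ - r` of two objects;
* `ksC a b`: the pair kernels of the static curve (`kw`, `kg` of `I eta`); `KsP r a t = ∑ b, ∫ ks a b t u r b u`;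
* **`datC I O : Gs.Dat`**: the data of the configuration `O`, `I : Inp` the landed extra data.
-/

set_option autoImplicit false
set_option linter.unusedSectionVars false
set_option linter.unusedVariables false

open MeasureTheory Set Filter Topology Complex

namespace PLT.Cv

open NUMF (l l_pos w g V)
open NUKer (iD kw kg)
open NUAct (Gas)
open NUSea.PLX (Com)
open NUSea.PLX.H0 (Inp Vn)

noncomputable section

/-- an object -/
structure Oc where
  /-- the potentials of the two species -/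
  F : Bool → ℂ → ℂ
  /-- densities for `V` -/
  μ : Bool → ℝ → ℝ
  /-- densities for the static kernels -/
  r : Bool → ℝ → ℝ
  /-- density of the splitting -/
  τ : ℝ → ℝ
  /-- remainder of the field equation -/
  φ : Bool → ℝ → ℝ
  /-- its derivative -/
  φ' : Bool → ℝ → ℝ
  /-- height -/
  h : ℝ
  /-- charge -/
  q : ℝ

section

variable [SeaC]

/-- the pair kernels of the static curve against the straight ones -/
def ksC (a b : Bool) : ℝ → ℝ → ℝ :=
  if a = b then kw (iD eta) (iD (deriv eta)) else kg (iD eta) (iD eta)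

/-- the static kernels on the densities `r` -/
def KsP (r : Bool → ℝ → ℝ) (a : Bool) (t : ℝ) : ℝ := ∑ b, ∫ u, ksC a b t u * r b u

/-- **an admissible object**: `kd + A e^{-c|h|}` size of the densities, `ε` size of the remainder, `c` its decay, `kd`
size of the charges and of the asymptotics -/
structure Oc.Ok (lo hi kd A ε c : ℝ) (X : Oc) : Prop where
  diff : ∀ a (z : ℂ), lo ≤ z.im → z.im ≤ hi → DifferentiableAt ℂ (X.F a) z
  asy : ∀ a, ∃ c₀ a₀ f₀ : ℝ, |c₀| ≤ kd ∧ SAsy lo hi kd c₀ a₀ f₀ X.h (X.F a)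
  eq : ∀ a t, (X.F a (ga t)).re - Gs.Dat.sg a * NUC43.lgp X.τ t + KsP X.r a t =
    (∫ u, X.μ a u * V (t - u)) + X.φ a t
  μc : ∀ a, Continuous (X.μ a)
  rc : ∀ a, Continuous (X.r a)
  τc : Continuous X.τ
  A0 : 0 ≤ A
  c0 : 0 ≤ c
  ε0 : 0 ≤ ε
  μb : ∀ a t, |X.μ a t| ≤ (kd + A * Real.exp (-(c * |X.h|))) * Real.exp (-(5 / 2) * |t - X.h|)
  rb : ∀ a t, |X.r a t| ≤ (kd + A * Real.exp (-(c * |X.h|))) * Real.exp (-(5 / 2) * |t - X.h|)
  τb : ∀ t, |X.τ t| ≤ (kd + A * Real.exp (-(c * |X.h|))) * Real.exp (-(5 / 2) * |t - X.h|)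
  τq : ∫ t, X.τ t = -X.q
  τe : ∀ t, X.τ t = X.μ true t - X.μ false t
  φd : ∀ a t, HasDerivAt (X.φ a) (X.φ' a t) t
  φc : ∀ a, Continuous (X.φ' a)
  φb : ∀ a t, |X.φ a t| ≤ ε * Real.exp (-(c * |t|) - c * |X.h|)
  φb' : ∀ a t, |X.φ' a t| ≤ ε * Real.exp (-(c * |t|) - c * |X.h|)

/-- the energy of the differences `μ - r` of two objects -/
def Oc.Pr (ε c : ℝ) (X Y : Oc) : Prop :=
  |∑ a, ∫ t, (X.μ a t - X.r a t) * ∫ u, (Y.μ a u - Y.r a u) * V (t - u)| ≤
    ε * Real.exp (-(c * |X.h|) - c * |Y.h|)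

/-- the same for the static kernels -/
def Oc.PrK (ε c : ℝ) (X Y : Oc) : Prop :=
  |∑ a, ∑ b, ∫ t, (X.μ a t - X.r a t) * ∫ u, ksC a b t u * (Y.μ b u - Y.r b u)| ≤
    ε * Real.exp (-(c * |X.h|) - c * |Y.h|)

/-! ### the data -/

/-- all analytic potentials -/
def FC (I : Inp) {r : ℕ} (O : Fin r → Oc) (a : Bool) (z : ℂ) : ℂ := (∑ i, (O i).F a z) + I.A a z

/-- the path of the species `a` -/
def zI (I : Inp) (a : Bool) : ℝ → ℂ := zt (gD (I.η a))

/-- the gas on the displaced curves -/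
def gasI (I : Inp) {r : ℕ} (O : Fin r → Oc) : Gas Bool := gas I.s I.η I.η1 (FC I O)

/-- the quadratic part of the one body potential -/
def QrC (I : Inp) {r : ℕ} (O : Fin r → Oc) (a : Bool) (t : ℝ) : ℝ := (∑ d, (gasI I O).KB a d t).re

/-- the displacement fields of the objects -/
def dFC (I : Inp) {r : ℕ} (O : Fin r → Oc) (a : Bool) (t : ℝ) : ℝ :=
  ∑ i, (((O i).F a (zI I a t)).re - ((O i).F a (ga t)).re)

/-- the remainders of the objects -/
def phS {r : ℕ} (O : Fin r → Oc) (a : Bool) (t : ℝ) : ℝ := ∑ i, (O i).φ a t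

/-- **the remainder** -/
def phiC (I : Inp) {r : ℕ} (O : Fin r → Oc) (a : Bool) (t : ℝ) : ℝ :=
  QrC I O a t + dFC I O a t + phS O a t + KsP I.ν a t + Sp.wOC (zI I) I a t

/-- **the data of a configuration** -/
def datC (I : Inp) {r : ℕ} (O : Fin r → Oc) : Gs.Dat where
  s := I.s
  P := P
  D a t := iD eta t + gD (I.η a) t
  D1 a t := iD (deriv eta) t + gD1 (I.η a) (I.η1 a) t
  ks := ksC
  pot a t := (vb I.s a (zI I a t) + FC I O a (zI I a t)).re + I.B a t
  lin a t := QrC I O a t + (FC I O a (zI I a t)).re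
  E := I.B
  S := (gasI I O).S - 1 / 2 * ∑ a, ∑ b, ∫ t, I.s a * P t * ∫ u, ksC a b t u * (I.s b * P u)
  τ t := (∑ i, (O i).τ t) + I.τD t
  μ a t := (∑ i, (O i).μ a t) + I.ν a t
  r a t := (∑ i, (O i).r a t) + I.ν a t
  φ := phiC I O
  φ' a := deriv (phiC I O a)

lemma zI_eq (I : Inp) (a : Bool) (t : ℝ) : zI I a t = ga t + gD (I.η a) t := rfl

/-- the charge of the objects -/
def qS {r : ℕ} (O : Fin r → Oc) : ℝ := ∑ i, (O i).q

end

/-! ### hypotheses -/

/-- **hypotheses of the instance**: `Cp` the constant of the paths -/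
structure IOkC (B : SeaCB) [SeaC] (lo hi Cp ε M b : ℝ) (e : ℝ → ℝ) (I : Inp) : Prop where
  str : Str B lo hi
  s0 : ∀ a, 0 ≤ I.s a
  b0 : 0 ≤ b
  cur : ∀ a, Cur (I.s a) ε M b e (I.η a)
  der : ∀ a t, HasDerivAt (I.η a) (I.η1 a t) t
  com : Com M I.s e I.η I.η1
  pth : ∀ a, SPath lo hi (1 / 2) Cp (zt (gD (I.η a))) (zd (gD1 (I.η a) (I.η1 a)))
  Ae : ∀ a, SExt lo hi (I.A a)
  Bc : ∀ a, Continuous (I.B a)
  Bb : ∀ a, ∃ C, ∀ t, |I.B a t| ≤ C
  νc : ∀ a, Continuous (I.ν a)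
  νi : ∀ a, Integrable (I.ν a)
  νb : ∀ a, ∃ C, ∀ t, |I.ν a t| ≤ C
  τi : Integrable I.τD
  τ1 : Integrable fun x => I.τD x * x
  wc : ∀ a, ContDiff ℝ 1 (Sp.wOC (zI I) I a)
  wb : ∀ a, ∃ C, ∀ t, |Sp.wOC (zI I) I a t| ≤ C

end

end PLT.Cv
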