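import Pool.Agent.PLT.FDefC

/-!
# The positive gas with an insertion on curves given by complex displacements, constants

`gasIC_const`, `gasIC_mono`, `FnIC_const`, `FnIC_mono` (twins of `PHK/GasI`).
-/

set_option autoImplicit false
set_option linter.unusedSectionVars false

noncomputable section

open Complex MeasureTheory Finset
open scoped ENNReal

namespace PLT

open NUO NUP1 NUGC NUGC.PLX NUCR PHK

/-- constants in front of the insertion -/
theorem gasIC_const (B : OB) (P : Par6) (D D1 : Bool → ℝ → ℂ) {r : ℕ} (O : Fin r → Xo) (p q : ℕ)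
    {c : ℝ≥0∞} (hc : c ≠ ∞) (ψ : (Fin p → ℝ) × (Fin q → ℝ) → ℝ≥0∞) :
    gasIC B P D D1 O p q (fun x => c * ψ x) = c * gasIC B P D D1 O p q ψ := by
  unfold gasIC
  have h : ∀ x : (Fin p → ℝ) × (Fin q → ℝ),
      ENNReal.ofReal (NU42.WO (D true) (D1 true) (D false) (D1 false) (qAC B P D O true)
        (qAC B P D O false) x.1 x.2) * (c * ψ x) =
      c * (ENNReal.ofReal (NU42.WO (D true) (D1 true) (D false) (D1 false) (qAC B P D O true)
        (qAC B P D O false) x.1 x.2) * ψ x) := fun x => by ring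
  simp only [h]
  rw [lintegral_const_mul' _ _ hc]
  ring

theorem gasIC_mono (B : OB) (P : Par6) (D D1 : Bool → ℝ → ℂ) {r : ℕ} (O : Fin r → Xo) (p q : ℕ)
    {ψ ψ' : (Fin p → ℝ) × (Fin q → ℝ) → ℝ≥0∞} (h : ∀ x, ψ x ≤ ψ' x) :
    gasIC B P D D1 O p q ψ ≤ gasIC B P D D1 O p q ψ' := by
  unfold gasIC
  exact mul_le_mul' le_rfl (lintegral_mono fun x => mul_le_mul' le_rfl (h x))

theorem FnIC_const (B : OB) (P : Par6) (D D1 : Bool → ℝ → ℂ) (nX nY : ℕ) {r : ℕ}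
    (O : Fin r → Xo) {c : ℝ≥0∞} (hc : c ≠ ∞)
    (ψ : (a b : ℕ) → (Fin a → ℝ) × (Fin b → ℝ) → ℝ≥0∞) :
    FnIC B P D D1 nX nY O (fun a b x => c * ψ a b x) = c * FnIC B P D D1 nX nY O ψ := by
  by_cases h : chgO6 O true ≤ nX ∧ chgO6 O false ≤ nY ∧ cnt6 O
  · rw [FnIC_eq B P D D1 O _ h, FnIC_eq B P D D1 O _ h, gasIC_const B P D D1 O _ _ hc]
    ring
  · rw [FnIC_zero B P D D1 O _ h, FnIC_zero B P D D1 O _ h, mul_zero]

theorem FnIC_mono (B : OB) (P : Par6) (D D1 : Bool → ℝ → ℂ) (nX nY : ℕ) {r : ℕ} (O : Fin r → Xo)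
    {ψ ψ' : (a b : ℕ) → (Fin a → ℝ) × (Fin b → ℝ) → ℝ≥0∞} (h : ∀ a b x, ψ a b x ≤ ψ' a b x) :
    FnIC B P D D1 nX nY O ψ ≤ FnIC B P D D1 nX nY O ψ' := by
  unfold FnIC
  split_ifs
  · exact mul_le_mul' le_rfl (mul_le_mul' le_rfl (lintegral_mono fun x =>
      mul_le_mul' le_rfl (h _ _ x)))
  · exact le_rfl

end PLT

end
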