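import Pool.Agent.PLT.CurD
import Pool.Agent.PLT.GasIC
import Pool.Agent.PHK.AsmR
import Pool.Agent.PLX.KPair
import Pool.Agent.PLX.PB.PinAct

/-!
# Sea on a curve: the geometry of the class level

Everything is a statement about the sequence `m ↦ data of size m`: the sea, the curves and the energy of
the objects may depend on `m` in any way.

* **`GeoC`**: a landed geometry `Geo` with the curves `D e1 J m`, `D1 e1 J m` (complex displacements) and the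
  energy `en m` of the objects in the sea of size `m`; `GeoC.sel`: selection in a family;
* `StabU P en`: stability, constants uniform in the size; `SpecPinC P C`; `enRC`, `confRC`;
* `CurG h1 h0 G`: the curves are in the strip of the offsets `-(h1 + ep / 4) .. h0 + ep / 4`;
* **`S4RC`** (the gas with objects and groups), **`S4KC`**, **`S4IC`** (the same with a statistic),
  **`OneRC`**, **`OneRTC`** (one body factor of an object against the activity).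
-/

set_option autoImplicit false
set_option linter.unusedSectionVars false

noncomputable section

open MeasureTheory Finset
open scoped ENNReal

open PLX (Fil Ends)

namespace PLT

open PHK PBO.PLX
open NUGC NUGC.PLX
open NUO NUP1 NUStabP NUDispW
open NUC43 (sg)
open NUSea.PLX.H0 (Gd IG TG cstF)
open NUSp (kG spo qc)
open PBF.PLX (InsE)
open PBP.PLX (gT)

/-- **a geometry over a sea on curves** -/
structure GeoC extends PBO.PLX.Geo where
  /-- complex displacements of the curves of the two species (parameters `e1`, `J`, size `m`) -/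
  D : ℝ → ℝ → ℕ → Bool → ℝ → ℂ
  /-- their derivatives -/
  D1 : ℝ → ℝ → ℕ → Bool → ℝ → ℂ
  /-- energy of the objects in the sea of size `m` -/
  en : ℕ → (r : ℕ) → (Fin r → Xo) → ℝ

/-- the geometry which has the data of `G (i m)` at size `m` -/
def GeoC.sel {ι : Type*} (G : ι → GeoC) (i : ℕ → ι) : GeoC where
  B m := (G (i m)).B m
  one m := (G (i m)).one m
  EM m := (G (i m)).EM m
  MF m := (G (i m)).MF m
  D e1 J m := (G (i m)).D e1 J m
  D1 e1 J m := (G (i m)).D1 e1 J m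
  en m := (G (i m)).en m

/-- **stability** of the pairs of objects with the energies `en m`, constants uniform in the size -/
def StabU (P : Par6) (en : ℕ → (r : ℕ) → (Fin r → Xo) → ℝ) : Prop :=
  ∃ C2 c1 : ℝ, 0 < c1 ∧ ∀ (m r : ℕ) (O : Fin r → Xo) (W : Finset ℤ),
    (∏ i, ∏ j, if i < j then pairN6 P O i j else 1) * Real.exp (en m r O) ≤
      Real.exp (C2 * r) * Real.exp (-(c1 * ∑ w ∈ W, (cnt (fun i => ht (O i)) w : ℝ) ^ 2))

/-- one energy for all sizes -/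
theorem stabU_of {P : Par6} {en : (r : ℕ) → (Fin r → Xo) → ℝ} (h : StabE P en) :
    StabU P fun _ => en := by
  obtain ⟨C2, c1, hc1, h⟩ := h
  exact ⟨C2, c1, hc1, fun _ => h⟩

/-- **the groups against an object**, pinned energies and far constants -/
def SpecPinC (P : Par6) (C : ℝ) : Prop := ∀ (x : Xo) (T1 : ℝ), |ht x| ≤ T1 →
    ∀ (n : ℕ) (g : Fin n → Gd), n ≤ 2 →
    facL6 (spF g) (parts6 P x) *
      Real.exp (∑ d, ES (obSr6 P x) (TG (fun i => (g i).pin T1) d) -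
        cstF T1 g true * (sg (sp x) * kq6 (k6 x))) ≤ C

theorem specPinC_six {C : ℝ} (h : SpecPin6 C) : SpecPinC par6 C := h

/-- **the curves of the geometry** are in the strip of the offsets `-(h1 + ep / 4) .. h0 + ep / 4` -/
def CurG (h1 h0 : ℝ) (G : GeoC) : Prop :=
  ∀ ep : ℝ, 0 < ep → ep ≤ 1 / 100 → ∀ e1 : ℝ, 0 < e1 → e1 ≤ 1 / 100 → ∀ J : ℝ, 0 ≤ J →
    ∃ m1 : ℕ, ∀ m ≥ m1, CurC (-(h1 + ep / 4)) (h0 + ep / 4) (G.D e1 J m) (G.D1 e1 J m)

/-- the same, uniformly in a family -/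
def CurGU {ι : Type*} (h1 h0 : ℝ) (G : ι → GeoC) : Prop :=
  ∀ ep : ℝ, 0 < ep → ep ≤ 1 / 100 → ∀ e1 : ℝ, 0 < e1 → e1 ≤ 1 / 100 → ∀ J : ℝ, 0 ≤ J →
    ∃ m1 : ℕ, ∀ m ≥ m1, ∀ i, CurC (-(h1 + ep / 4)) (h0 + ep / 4) ((G i).D e1 J m) ((G i).D1 e1 J m)

theorem CurGU.sel {ι : Type*} {h1 h0 : ℝ} {G : ι → GeoC} (h : CurGU h1 h0 G) (i : ℕ → ι) :
    CurG h1 h0 (GeoC.sel G i) := by
  intro ep hep hep1 e1 he1 he11 J hJ
  obtain ⟨m1, h⟩ := h ep hep hep1 e1 he1 he11 J hJ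
  exact ⟨m1, fun m hm => h m hm (i m)⟩

/-- **from every selection**: uniform in the family -/
theorem curGU_of {ι : Type*} [Nonempty ι] {h1 h0 : ℝ} {G : ι → GeoC}
    (h : ∀ i : ℕ → ι, CurG h1 h0 (GeoC.sel G i)) : CurGU h1 h0 G := by
  classical
  intro ep hep hep1 e1 he1 he11 J hJ
  by_contra hc
  push Not at hc
  choose m hm i hi using hc
  -- a size with a bad instance: select it
  let sel : ℕ → ι := fun k => if hk : ∃ n, m n = k then i (Classical.choose hk) else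
    Classical.arbitrary ι
  obtain ⟨m1, hs⟩ := h sel ep hep hep1 e1 he1 he11 J hJ
  have hk : ∃ n, m n = m m1 := ⟨m1, rfl⟩
  have h2 := hs (m m1) (hm m1)
  have e : sel (m m1) = i (Classical.choose hk) := dif_pos hk
  have h3 := hi (Classical.choose hk)
  have e2 : m (Classical.choose hk) = m m1 := Classical.choose_spec hk
  rw [e2] at h3
  apply h3
  show CurC _ _ ((G (i (Classical.choose hk))).D e1 J (m m1))
    ((G (i (Classical.choose hk))).D1 e1 J (m m1))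
  rw [← e]
  exact h2

/-! ### the exponents -/

/-- exponent of a configuration -/
def confRC (G : GeoC) (m : ℕ) (ep e1 J K kap : ℝ) {r : ℕ} (O : Fin r → Xo) : ℝ :=
  ∑ i, G.one m ep e1 J r O i + K * r + G.en m r O + kap * win univ (fun i => ht (O i))

section

variable [Fil] [Ends]

/-- energies objects - groups and groups - groups (groups pinned at `T1`), far constants of the groups
with `p` quanta X, `q` quanta Y in the gas -/
def enRC (P : Par6) (m : ℕ) {n : ℕ} (g : Fin n → Gd) {r : ℕ} (O : Fin r → Xo) (T1 : ℝ)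
    (p q : ℕ) : ℝ :=
  ∑ i, ∑ d, ES (obSr6 P (O i)) (TG (fun i => (g i).pin T1) d) +
    1 / 2 * (∑ d, ∑ d', ES (TG (fun i => (g i).pin T1) d) (TG (fun i => (g i).pin T1) d')) +
    cstF T1 g true * ((p : ℝ) - q + Fil.xe m)

end

/-! ### the gas -/

/-- the left side: tilt and positive gas -/
def lhsRC (P : Par6) (G : GeoC) (ep e1 J : ℝ) (m : ℕ) {n : ℕ} (g : Fin n → Gd) (aX aY : ℕ)
    (ν : ℝ) (N : ℕ) (b' : ℝ) {r : ℕ} (O : Fin r → Xo) : ℝ≥0∞ :=
  ENNReal.ofReal (Real.exp (b' * (ν - N))) *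
    Z1C ((G.B m (4 / 3 * (1 - ep))).mul (spF g)) P (G.D e1 J m) (G.D1 e1 J m) O
      (nA6 (N + aX) O true) (nA6 (N + aY) O false)

/-- the left side: tilt and positive gas with a statistic -/
def lhsIC (P : Par6) (G : GeoC) (ep e1 J : ℝ) (m : ℕ) {n : ℕ} (g : Fin n → Gd) (aX aY : ℕ)
    (ν : ℝ) (N : ℕ) (b' : ℝ) {r : ℕ} (O : Fin r → Xo) (φ : InsE) : ℝ≥0∞ :=
  ENNReal.ofReal (Real.exp (b' * (ν - N))) *
    gasIC ((G.B m (4 / 3 * (1 - ep))).mul (spF g)) P (G.D e1 J m) (G.D1 e1 J m) O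
      (nA6 (N + aX) O true) (nA6 (N + aY) O false)
      (φ r O (nA6 (N + aX) O true) (nA6 (N + aY) O false))

section

variable [Fil] [Ends]

/-- **the gas in the presence of the objects and of the groups**, the gain kept -/
def S4RC (P : Par6) (G : GeoC) : Prop :=
  ∃ K Ca : ℝ, 0 ≤ K ∧ 0 ≤ Ca ∧ ∀ kap : ℝ, 0 < kap →
    ∀ ep : ℝ, 0 < ep → ep ≤ 1 / 100 → ∀ e1 : ℝ, 0 < e1 → e1 ≤ 1 / 100 → ∀ J : ℝ, 0 ≤ J →
    ∀ δ : ℝ, 0 < δ → ∃ d Cst : ℝ, 0 < d ∧ 0 ≤ Cst ∧ ∃ m0 : ℕ, ∀ m ≥ m0,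
      ∀ (n : ℕ) (g : Fin n → Gd) (aX aY : ℕ) (ν : ℝ) (N : ℕ) (b' : ℝ) (r : ℕ) (O : Fin r → Xo)
        (E x : ℝ), b' = d ∨ b' = -d → RgR6 ep e1 m g aX aY ν N O E x →
        lhsRC P G ep e1 J m g aX aY ν N b' O ≤
          ENNReal.ofReal (prefR G.toGeo m g E x Cst * (m : ℝ) ^ (Ca * (ep + e1) + δ) *
            (if ∀ i, |(g i).τ| ≤ TW ep e1 m then 1 else Real.exp (Real.log m / 2)) *
            Real.exp (-gnF e1 J m g) *
            Real.exp (confRC G m ep e1 J K kap O +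
              enRC P m g O (T1R ep e1 m O E) (nA6 (N + aX) O true) (nA6 (N + aY) O false)))

/-- **the gas with a statistic in the presence of the objects and of near groups**, the gain kept;
`K` = constant per object, `Ca` = constant of the exponent -/
def S4KC (P : Par6) (G : GeoC) {ι : Type*} (ok : ℕ → ι → Prop) (Φ : ι → ℕ → ℕ → InsE)
    (K Ca : ℝ) : Prop :=
  ∀ kap : ℝ, 0 < kap →
    ∀ ep : ℝ, 0 < ep → ep ≤ 1 / 100 → ∀ e1 : ℝ, 0 < e1 → e1 ≤ 1 / 100 → ∀ J : ℝ, 0 ≤ J →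
    ∀ δ : ℝ, 0 < δ → ∃ d Cst : ℝ, 0 < d ∧ 0 ≤ Cst ∧ ∃ m0 : ℕ, ∀ m ≥ m0,
      ∀ (n : ℕ) (g : Fin n → Gd) (aX aY : ℕ) (ν : ℝ) (N : ℕ) (b' : ℝ) (r : ℕ) (O : Fin r → Xo),
        b' = d ∨ b' = -d → RgR6 ep e1 m g aX aY ν N O 0 0 → (∀ i, |(g i).τ| ≤ TW ep e1 m) →
        ∀ i : ι, ok m i → lhsIC P G ep e1 J m g aX aY ν N b' O (Φ i m N) ≤
          ENNReal.ofReal (prefR G.toGeo m g 0 0 Cst * (m : ℝ) ^ (Ca * (ep + e1) + δ) *
            Real.exp (-gnF e1 J m g) * Real.exp (confRC G m ep e1 J K kap O +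
              enRC P m g O (T1R ep e1 m O 0) (nA6 (N + aX) O true) (nA6 (N + aY) O false)))

/-- **the gas with a statistic**, some constants -/
def S4IC (P : Par6) (G : GeoC) {ι : Type*} (ok : ℕ → ι → Prop) (Φ : ι → ℕ → ℕ → InsE) : Prop :=
  ∃ K Ca : ℝ, 0 ≤ K ∧ 0 ≤ Ca ∧ S4KC P G ok Φ K Ca

end

/-! ### one body -/

/-- **one body factor of an object against the activity** -/
def OneRC (P : Par6) (G : GeoC) : Prop := ∃ aS c2 τ : ℝ, 0 ≤ aS ∧ 0 < c2 ∧ ∀ K0 : ℝ,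
  ∃ C c : ℝ, 0 < C ∧ 0 < c ∧
  ∀ ep : ℝ, 0 < ep → ep ≤ 1 / 100 → ∀ e1 : ℝ, 0 < e1 → e1 ≤ 1 / 100 → ∀ J : ℝ, 0 ≤ J →
  ∃ m1 : ℕ, ∀ m ≥ m1, ∀ (r : ℕ) (O : Fin r → Xo) (i : Fin r),
    ob6 (G.B m (4 / 3 * (1 - ep))) P (O i) * Real.exp (G.one m ep e1 J r O i + K0) ≤
    act6 C c c2 aS τ 6 (Real.log m) ep e1 J r (k6 (O i)) (ht (O i))

/-- **one body factor of an object against the activity**, the gain of the tent kept -/
def OneRTC (P : Par6) (G : GeoC) : Prop := ∃ aS c2 τ : ℝ, 0 ≤ aS ∧ 0 < c2 ∧ ∀ K0 : ℝ,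
  ∃ C c : ℝ, 0 < C ∧ 0 < c ∧
  ∀ ep : ℝ, 0 < ep → ep ≤ 1 / 100 → ∀ e1 : ℝ, 0 < e1 → e1 ≤ 1 / 100 → ∀ J : ℝ, 0 ≤ J →
  ∃ m1 : ℕ, ∀ m ≥ m1, ∀ (r : ℕ) (O : Fin r → Xo) (i : Fin r),
    ob6 (G.B m (4 / 3 * (1 - ep))) P (O i) * Real.exp (G.one m ep e1 J r O i + K0) ≤
    act6 C c c2 aS τ 6 (Real.log m) ep e1 J r (k6 (O i)) (ht (O i)) *
      Real.exp (-gT e1 (Real.log m) (ht (O i)))

theorem OneRTC.oneRC {P : Par6} {G : GeoC} (h : OneRTC P G) : OneRC P G := by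
  obtain ⟨aS, c2, τ, haS, hc2, h⟩ := h
  refine ⟨aS, c2, τ, haS, hc2, fun K0 => ?_⟩
  obtain ⟨C, c, hC, hc, h⟩ := h K0
  refine ⟨C, c, hC, hc, fun ep hep hep1 e1 he1 he11 J hJ => ?_⟩
  obtain ⟨m1, h⟩ := h ep hep hep1 e1 he1 he11 J hJ
  refine ⟨m1, fun m hm r O i => (h m hm r O i).trans ?_⟩
  have h0 : 0 ≤ act6 C c c2 aS τ 6 (Real.log m) ep e1 J r (k6 (O i)) (ht (O i)) :=
    act6_nonneg hC.le (log_nn m) _ _
  exact mul_le_of_le_one_right h0
    (Real.exp_le_one_iff.2 (by linarith [PBP.PLX.gT_nonneg e1 (Real.log m) (ht (O i))]))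

end PLT

end
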