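import Pool.Agent.PLT.EnB
import Pool.Agent.PLT.DatOc
import Pool.Agent.PLT.PotS
import Pool.Agent.PLT.GeoC

/-!
# The energy of the gas in the field of the objects on a static curve (helper38, helper82's literals)

* `ChO O μ`: admissible densities (neutral with the objects); `fT P O a t = Re FO6 P O a (ga t)`;
* **`enT P S r O`** = supremum of `EQ ksC (fT P O) μ` over the admissible densities;
* `HT q t δ`: the certificate and the room of a point; `eq_le_T`: the bound of every energy, `bdd_T`,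
  **`le_enT`**, `enT_le`;
* **`stabU_enT`**: `StabU q.par (fun m => enT q.par (S m))` for every sequence of seas in the window.
-/

set_option autoImplicit false
set_option linter.unusedSectionVars false
set_option linter.unusedVariables false

noncomputable section

open Finset MeasureTheory Set Filter

namespace PLT

open PHK NUP1 NUO NUDispO Pool.Agent.NUM3
open Gs (EQ)

/-- **admissible densities**: good, total charge opposite to the one of the objects -/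
def ChO {r : ℕ} (O : Fin r → Xo) (μ : Bool → ℝ → ℝ) : Prop :=
  (∀ a, NUC43.Dn (μ a)) ∧ ∫ t, (μ true t - μ false t) = -∑ i, sg6 (sp (O i)) * kq6 (k6 (O i))

/-- the field of the objects on the static curve -/
def fT [SeaC] (P : Par6) {r : ℕ} (O : Fin r → Xo) (a : Bool) (t : ℝ) : ℝ := (FO6 P O a (Cv.ga t)).re

/-- **the energy** -/
def enT (P : Par6) (S : SeaC) (r : ℕ) (O : Fin r → Xo) : ℝ :=
  sSup {x | ∃ μ, ChO O μ ∧ x = EQ (@Cv.ksC S) (@fT S P r O) μ}

/-- **admissible densities exist** -/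
theorem chO_nonempty {r : ℕ} (O : Fin r → Xo) : ∃ μ, ChO O μ := by
  set E : ℝ → ℝ := fun t => Real.exp (-(5 / 2) * |t|) with hE
  have hi : Integrable E := NUMF.int_exp_abs (by norm_num)
  have hc : Continuous E := by fun_prop
  have hpos : 0 < ∫ t, E t := by
    rw [integral_pos_iff_support_of_nonneg (fun t => (Real.exp_pos _).le) hi]
    have : Function.support E = univ := by
      ext t
      simp [hE, (Real.exp_pos _).ne']
    rw [this]
    simp
  set c : ℝ := -∑ i, sg6 (sp (O i)) * kq6 (k6 (O i)) with hcc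
  refine ⟨fun a t => if a then c / (∫ t, E t) * E t else 0, fun a => ?_, ?_⟩
  · cases a
    · refine ⟨continuous_const, 0, le_rfl, fun t => ?_⟩
      simp
    · have hcc : Continuous fun t => c / (∫ t, E t) * E t := continuous_const.mul hc
      refine ⟨by simpa using hcc, |c / (∫ t, E t)|, abs_nonneg _, fun t => ?_⟩
      simp only [if_true]
      rw [abs_mul, abs_of_pos (Real.exp_pos _ : 0 < E t)]
  · simp only [if_true, Bool.false_eq_true, if_false, sub_zero]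
    rw [integral_const_mul, div_mul_cancel₀ _ hpos.ne']

/-- **a point with its certificate** -/
structure HT (q : Pt) (t : Tb8) (δ : ℝ) : Prop extends HQ q t where
  pgc : Cv.PGC δ (q.of 0 * NUMF.l) (q.of 1 * NUMF.l) q.par
  ok6 : Ok6 q.par
  nd6 : Nd6 q.par

/-- the static curve is in the window of the point -/
structure WinQ (q : Pt) (S : SeaC) : Prop where
  lo : ∀ x, q.of 0 * NUMF.l ≤ Cv.eta x
  hi : ∀ x, Cv.eta x ≤ q.of 1 * NUMF.l
  osc : ∀ x y, |Cv.eta x - Cv.eta y| ≤ 1 / 40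

theorem WinQ.cu {q : Pt} {S : SeaC} (h : WinQ q S) : CuB (@Cv.eta S) (deriv (@Cv.eta S)) :=
  ⟨fun x => Cv.hasDerivAt_eta x, Cv.continuous_eta', fun x => (Cv.eta'_le x).trans (by norm_num), h.osc⟩

theorem WinQ.pot {q : Pt} {t : Tb8} {δ : ℝ} (hT : HT q t δ) {S : SeaC} (h : WinQ q S) {r : ℕ} (O : Fin r → Xo)
    (a : Bool) (x : ℝ) :
    ∏ i, potN6 q.par O i a (vl (NUP1.l - Cv.eta x) x) = Real.exp (fT q.par O a x) := by
  have h1 := Cv.exp_FO6C hT.pgc (z := Cv.ga x) (by rw [Cv.ga_im]; exact h.lo x)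
    (by rw [Cv.ga_im]; exact h.hi x) O a
  have e : vl (NUP1.l - Cv.eta x) x = NUMF.l + Complex.I * Cv.ga x := by
    unfold vl Cv.ga
    rw [ll_eq]
    push_cast
    linear_combination (-(Cv.eta x : ℂ)) * Complex.I_mul_I
  rw [e]
  exact h1

/-- **the bound of every energy** -/
theorem eq_le_T {q : Pt} {t : Tb8} {δ : ℝ} (hT : HT q t δ) : ∃ c0 : ℝ, 0 < c0 ∧ ∀ (S : SeaC), WinQ q S →
    ∀ (r : ℕ) (O : Fin r → Xo) (μ : Bool → ℝ → ℝ), ChO O μ →
    EQ (@Cv.ksC S) (@fT S q.par r O) μ ≤ 1 / 2 * (∑ i, ∑ j, Dr6 12 q.par (sp (O i) == sp (O j)) (k6 (O i))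
      (k6 (O j)) (ht (O i) - ht (O j))) - c0 / 2 * W2 univ (fun i => ⌊ht (O i)⌋) := by
  obtain ⟨c0, h0, H⟩ := EQ_le hT.toHQ
  refine ⟨c0, h0, fun S hW r O μ hμ => ?_⟩
  have h2 := hμ.2
  rw [integral_sub (hμ.1 true).int (hμ.1 false).int] at h2
  exact H _ _ hW.cu (fun x => ⟨hW.lo x, hW.hi x⟩) r O _ (hW.pot hT O) μ hμ.1 h2

theorem bdd_T {q : Pt} {t : Tb8} {δ : ℝ} (hT : HT q t δ) {S : SeaC} (hW : WinQ q S) {r : ℕ} (O : Fin r → Xo) :
    BddAbove {x | ∃ μ, ChO O μ ∧ x = EQ (@Cv.ksC S) (@fT S q.par r O) μ} := by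
  obtain ⟨c0, h0, H⟩ := eq_le_T hT
  refine ⟨1 / 2 * (∑ i, ∑ j, Dr6 12 q.par (sp (O i) == sp (O j)) (k6 (O i))
      (k6 (O j)) (ht (O i) - ht (O j))) - c0 / 2 * W2 univ (fun i => ⌊ht (O i)⌋), ?_⟩
  rintro x ⟨μ, hμ, rfl⟩
  exact H S hW r O μ hμ

/-- **every admissible energy is at most `enT`** -/
theorem le_enT {q : Pt} {t : Tb8} {δ : ℝ} (hT : HT q t δ) {S : SeaC} (hW : WinQ q S) {r : ℕ} {O : Fin r → Xo}
    {μ : Bool → ℝ → ℝ} (hμ : ChO O μ) : EQ (@Cv.ksC S) (@fT S q.par r O) μ ≤ enT q.par S r O :=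
  le_csSup (bdd_T hT hW O) ⟨μ, hμ, rfl⟩

/-- **the bound of `enT`** -/
theorem enT_le {q : Pt} {t : Tb8} {δ : ℝ} (hT : HT q t δ) : ∃ c0 : ℝ, 0 < c0 ∧ ∀ (S : SeaC), WinQ q S →
    ∀ (r : ℕ) (O : Fin r → Xo),
    enT q.par S r O ≤ 1 / 2 * (∑ i, ∑ j, Dr6 12 q.par (sp (O i) == sp (O j)) (k6 (O i))
      (k6 (O j)) (ht (O i) - ht (O j))) - c0 / 2 * W2 univ (fun i => ⌊ht (O i)⌋) := by
  obtain ⟨c0, h0, H⟩ := eq_le_T hT
  refine ⟨c0, h0, fun S hW r O => csSup_le ?_ ?_⟩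
  · obtain ⟨μ, hμ⟩ := chO_nonempty O
    exact ⟨_, μ, hμ, rfl⟩
  · rintro x ⟨μ, hμ, rfl⟩
    exact H S hW r O μ hμ

/-- **stability with the constants of the point only** -/
theorem stab_enT {q : Pt} {t : Tb8} {δ : ℝ} (hT : HT q t δ) : ∃ C c1 : ℝ, 0 < c1 ∧ ∀ (S : SeaC), WinQ q S →
    ∀ (r : ℕ) (O : Fin r → Xo) (W : Finset ℤ),
    (∏ i, ∏ j, if i < j then pairN6 q.par O i j else 1) * Real.exp (enT q.par S r O) ≤
      Real.exp (C * r) * Real.exp (-(c1 * ∑ w ∈ W, (cnt (fun i => ht (O i)) w : ℝ) ^ 2)) := by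
  obtain ⟨c0, h0, H⟩ := enT_le hT
  obtain ⟨C, hC⟩ := prod_of_le hT.ok6 hT.nd6 12
  exact ⟨C, c0 / 2, by positivity, fun S hW r O W => hC h0.le O W _ (H S hW r O)⟩

/-- **`StabU` for every sequence of seas in the window** -/
theorem stabU_enT {q : Pt} {t : Tb8} {δ : ℝ} (hT : HT q t δ) {S : ℕ → SeaC} (hW : ∀ m, WinQ q (S m)) :
    StabU q.par fun m => enT q.par (S m) := by
  obtain ⟨C, c1, hc, H⟩ := stab_enT hT
  exact ⟨C, c1, hc, fun m r O W => H (S m) (hW m) r O W⟩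

end PLT

end
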