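import Pool.Agent.PLT.EnId
import Pool.Agent.PLT.EnT
import Pool.Agent.PLT.DatCC

/-!
# The exponent of a configuration over a sea on a static curve: statements

* `curC I`: the current of the data;
* `EnOkC`: what the exponent needs of the data, of the objects and of the sources `T` of the spectators;
* **`EnGCSt B P Q W CB kb`**: the exponent of a configuration with ends and groups, upper bound (twin of
  `PotH.PLX.exists_enD6`), for any bound `en` of the energies `EQ` of the admissible densities.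
-/

set_option autoImplicit false
set_option linter.unusedSectionVars false
set_option linter.unusedVariables false

open MeasureTheory Set Filter Topology Complex

namespace PLT.Cv

open NUMF (l l_pos)
open NUO (Xo ht sp Tb)
open NUGC
open PHK hiding mfo6
open NUDispW (win)
open NUSea.PLX.H0 (Inp)

noncomputable section

variable [SeaC]

/-- the current of the data (that of the species `true`) -/
def curC (I : Inp) (t : ℝ) : ℝ := I.s true * P t * I.η true t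

/-- mean field and current of the object `i` -/
def oneC (I : Inp) (R : Par6) {r : ℕ} (O : Fin r → Xo) (h : ℝ → ℝ) (i : Fin r) : ℝ :=
  mfo6 I.s (parts6 R (O i)) - 2 * Real.pi * wind6 (k6 (O i)) * h (ht (O i))

/-- **what the exponent needs of the data.**  `κ`: the curve has size `m^(-κ)`; `k`: power of the
logarithm in the mass of the curve; `W`: bound of the extra remainder; `CB`: mass of the densities of
the spectators; `A`, `εo`: sizes of the objects -/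
structure EnOkC (B : SeaCB) (Q : Par7) (A εo e1 κ W CB kb : ℝ) (k m : ℕ) (I : Inp) (R : Par6) {r : ℕ}
    (O : Fin r → Xo) (O' : Fin r → Oc) {ι : Type} [Fintype ι] (T : ι → Sr) : Prop where
  s1 : ∀ a, (m : ℝ) / 2 ≤ I.s a
  rk : (r : ℝ) ≤ kb * m
  ok : ∃ (ε M : ℝ) (e : ℝ → ℝ), IOkC B Q.lo Q.hi Q.Cp ε M ((1 - e1) * Tb (Real.log m)) e I ∧
    ε ≤ (m : ℝ) ^ (-κ) ∧ M ≤ Real.log m ^ k
  lip : ∀ t t', |curC I t - curC I t'| ≤ |t - t'|
  fld : ∃ p n : ℕ, Gs.Fld (datC I O') p n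
  lnk : ∀ i, OcL R (O i) (O' i)
  obj : ∀ i, (O' i).Ok (Q.lo - Q.w) (Q.hi + Q.w) Q.kd A εo Q.c
  prk : ∀ i j, Oc.PrK εo Q.c (O' i) (O' j)
  Tok : ∀ d, (T d).Ok
  sy : ∀ i d, Sym (obSr6 R (O i)) (T d)
  nu : ∀ a, I.ν a = muS T a
  tau : I.τD = tauS T
  mass : ∀ a, ∫ t, |I.ν a t| ≤ CB
  w0 : ∀ a t, |Sp.wOC (zI I) I a t| ≤ W

omit [SeaC] in
/-- **the exponent of a configuration with ends and groups**, exact linear term and energy of the current -/
def EnGCSt (B : SeaCB) (R : Par6) (Q : Par7) (W CB kb : ℝ) : Prop :=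
  ∃ K0 : ℝ, 0 ≤ K0 ∧ ∀ kap : ℝ, 0 < kap → ∃ ε1 : ℝ, 0 < ε1 ∧ ∀ A κ : ℝ, 0 ≤ A → 0 < κ → ∀ k : ℕ,
    ∀ δ0 N : ℝ, 1 / 10 < δ0 → δ0 ≤ 1 → 2 ≤ N → ∀ n : ℕ,
    ∃ (Cc : ℝ) (m0 : ℕ), ∀ [SeaC] [SeaCU B], ∀ m ≥ m0, ∀ e1 : ℝ, 0 < e1 → e1 ≤ 1 / 100 →
    ∀ (εo : ℝ), 0 ≤ εo → εo ≤ ε1 → ∀ (I : Inp) (r : ℕ) (O : Fin r → Xo) (O' : Fin r → Oc) (ι : Type)
      [Fintype ι] (T : ι → Sr), EnOkC B Q A εo e1 κ W CB kb k m I R O O' T →
    ∀ en : ℝ, (∀ μ, ChO O μ → Gs.EQ ksC (fOC R O) μ ≤ en) →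
    ∀ (p q : ℂ) (G : Fin n → NUSp.Grp) (τ : Fin n → ℝ),
      NUO.Away δ0 p → NUO.Away δ0 q → q.im = p.im → |p.re| < l → |q.re| < l →
      (∀ i, (G i).Ok δ0 (τ i)) → (∀ i, NUSp.gn (G i) ≤ N) →
      (∀ a z, |z.im| < l / 10 → I.A a z = ∑ i, NUSea.PLX.H0.fD p q G i a z) →
      (datC I O').M0 + (datC I O').En ≤ MF I.s + (∑ i, oneC I R O (curC I) i) + en +
        (∑ i, ∑ d, ES (obSr6 R (O i)) (T d)) + 1 / 2 * (∑ d, ∑ d', ES (T d) (T d')) +
        (∫ t : ℝ, P t * (I.s true * (I.A true (ga t)).re + I.s false * (I.A false (ga t)).re)) +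
        (∑ a, ∫ t, I.s a * P t * I.B a t) -
        2 * (12 * l * curC I p.im + ∑ i, (NUSp.gph true (G i) + NUSp.gph false (G i)) *
          curC I (τ i)) + NUCR.bil (hd (I.s true) (I.η true) (I.η1 true))
            (hd (I.s true) (I.η true) (I.η1 true)) +
        K0 * r + kap * win Finset.univ (fun i => ht (O i)) + Cc

end

end PLT.Cv
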