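import Pool.Agent.PLT.EnGA
import Pool.Agent.PLT.EnDef
import Pool.Agent.PLT.CfgSC
import Pool.Agent.PLX.NUGC.ExpC
import Pool.Agent.NUSea.Inst

/-!
# The exponent of a configuration over a sea on a static curve, upper bound

* `exists_numE`: the numbers;
* **`exists_enGC`**: `EnGCSt`, twin of `PotH.PLX.exists_enD6`.
-/

set_option autoImplicit false
set_option linter.unusedSectionVars false
set_option linter.unusedVariables false

open MeasureTheory Set Filter Topology Complex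

namespace PLT.Cv

open NUMF (l l_pos)
open NUO (Xo ht sp Tb)
open NUGC
open PHK hiding mfo6
open NUDispW (win Sd Sd_pos)
open NUSea.PLX.H0 (Inp)

noncomputable section

/-- slope of the current -/
lemma hd_leC (B : SeaCB) [SeaC] [SeaCU B] {s : ℝ} {η η1 : ℝ → ℝ} (h1 : ∀ t, HasDerivAt η (η1 t) t)
    (hL : ∀ t t', |s * P t * η t - s * P t' * η t'| ≤ |t - t'|) (t : ℝ) : |hd s η η1 t| ≤ 1 :=
  deriv_le_lip (f := fun t => s * P t * η t) (fun t => hasDerivAt_hd B s h1 t) zero_le_one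
    (fun t t' => by rw [one_mul]; exact hL t t') t

/-- **the numbers** -/
theorem exists_numE (X Y Z : ℝ) {x y z : ℝ} (hx : 0 < x) (hy : 0 < y) (hz : 0 < z) (k : ℕ) {κ : ℝ}
    (hκ : 0 < κ) : ∃ m0 : ℕ, 1 ≤ m0 ∧ ∀ m ≥ m0, 1 ≤ Real.log m ∧ X * (m : ℝ) ^ (-κ) ≤ x ∧
      (2 * Real.log m) ^ 2 * (Real.log m ^ k * (m : ℝ) ^ (-κ)) ≤ 1 ∧
      (2 * Real.log m) ^ 3 * ((Real.log m ^ k) ^ 2 * (m : ℝ) ^ (-κ)) ≤ 1 ∧
      Y * (Real.log m ^ k / m) ≤ y ∧ Z * ((Real.log m ^ k) ^ 2 / m) ≤ z := by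
  letI : NUSea.Sea := NUSea.seaP
  obtain ⟨n0, h0⟩ := NUGC.PLX.loglargeC 1
  obtain ⟨n1, h1⟩ := NUGC.PLX.polylogC X 0 hκ hx
  obtain ⟨n2, h2⟩ := NUGC.PLX.polylogC 4 (2 + k) hκ one_pos
  obtain ⟨n3, h3⟩ := NUGC.PLX.polylogC 8 (3 + 2 * k) hκ one_pos
  obtain ⟨n4, h4⟩ := NUGC.PLX.polylogC Y k one_pos hy
  obtain ⟨n5, h5⟩ := NUGC.PLX.polylogC Z (2 * k) one_pos hz
  refine ⟨max 1 (max n0 (max n1 (max n2 (max n3 (max n4 n5))))), le_max_left _ _, fun m hm => ?_⟩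
  simp only [ge_iff_le, max_le_iff] at hm
  obtain ⟨g, g0, g1, g2, g3, g4, g5⟩ := hm
  have h1 := h1 m g1
  have h2 := h2 m g2
  have h3 := h3 m g3
  have h4 := h4 m g4
  have h5 := h5 m g5
  rw [Real.rpow_neg_one] at h4 h5
  refine ⟨h0 m g0, by rwa [pow_zero, mul_one] at h1, ?_, ?_, ?_, ?_⟩
  · refine le_trans (le_of_eq ?_) h2
    rw [pow_add]
    ring
  · refine le_trans (le_of_eq ?_) h3
    rw [pow_add, mul_comm 2 k, pow_mul]
    ring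
  · refine le_trans (le_of_eq ?_) h4
    rw [div_eq_mul_inv]
    ring
  · refine le_trans (le_of_eq ?_) h5
    rw [div_eq_mul_inv, mul_comm 2 k, pow_mul]
    ring

/-- the remainders against the window energy -/
lemma num_fin {S1 kd r A y1 y2 Wn CB kA K4 ε u E1 Ec kb m L2 kap εo : ℝ} (hkap : 0 < kap) (hr : 0 ≤ r)
    (hkA : 0 ≤ kA) (hK4 : 0 ≤ K4) (hW : 0 ≤ Wn) (hE1 : 0 ≤ E1) (hEc : 0 < Ec) (hm : 0 < m) (hkb : 0 ≤ kb)
    (hrk : r ≤ kb * m) (hy1 : (8 / 5 * S1 + 128 / 5 * CB) * A * y1 ≤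
      kap / 4 * Wn + ((8 / 5 * S1 + 128 / 5 * CB) * A) ^ 2 * Ec / (4 * (kap / 4)))
    (hy2 : y2 ^ 2 ≤ E1 * Wn) (hu : u ^ 2 ≤ 4 * (L2 / m ^ 2)) (hε : 4 * kA * K4 * E1 * ε ≤ kap / 8)
    (hC : 2 * CB * K4 * ε ≤ 1 / 2) (hCu : 2 * CB * K4 * u ≤ 1 / 2)
    (hL : 64 * kb * kA ^ 2 * K4 ^ 2 * E1 * (L2 / m) ≤ kap / 8) (ho : εo ≤ kap / (2 * Ec)) :
    2 * (S1 * (4 / 5 * (kd * r + A * y1) + CB) + (kA * (K4 * ε * (2 * E1 * Wn) + K4 * r * u * (2 * y2)) +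
      (K4 * ε * r + K4 * r * u) * CB)) + 8 * (2 * CB) * (2 * (4 / 5 * (kd * r + A * y1))) +
      1 / 2 * (8 * (2 * CB) * (2 * CB)) + 1 / 2 * (εo * (Ec * Wn)) ≤
      ((8 / 5 * S1 + 128 / 5 * CB) * kd + 2) * r + kap * Wn + 2 * S1 * CB + 16 * CB ^ 2 +
        ((8 / 5 * S1 + 128 / 5 * CB) * A) ^ 2 * Ec / (4 * (kap / 4)) := by
  have a1 : 4 * kA * K4 * r * u * y2 ≤ r + kap / 8 * Wn := by
    have b1 : 4 * kA * K4 * u * y2 ≤ 1 + (4 * kA * K4 * u * y2) ^ 2 := by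
      nlinarith [sq_nonneg (4 * kA * K4 * u * y2 - 1)]
    have b2 : (4 * kA * K4 * u * y2) ^ 2 ≤ 16 * kA ^ 2 * K4 ^ 2 * (4 * (L2 / m ^ 2)) * (E1 * Wn) := by
      calc (4 * kA * K4 * u * y2) ^ 2 = 16 * kA ^ 2 * K4 ^ 2 * u ^ 2 * y2 ^ 2 := by ring
        _ ≤ 16 * kA ^ 2 * K4 ^ 2 * (4 * (L2 / m ^ 2)) * (E1 * Wn) := by
          have : 0 ≤ 4 * (L2 / m ^ 2) := (sq_nonneg u).trans hu
          gcongr
    have b3 : r * (16 * kA ^ 2 * K4 ^ 2 * (4 * (L2 / m ^ 2)) * (E1 * Wn)) ≤ kap / 8 * Wn := by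
      have c0 : 0 ≤ 4 * (L2 / m ^ 2) := (sq_nonneg u).trans hu
      calc r * (16 * kA ^ 2 * K4 ^ 2 * (4 * (L2 / m ^ 2)) * (E1 * Wn)) ≤
            kb * m * (16 * kA ^ 2 * K4 ^ 2 * (4 * (L2 / m ^ 2)) * (E1 * Wn)) :=
            mul_le_mul_of_nonneg_right hrk (by positivity)
        _ = 64 * kb * kA ^ 2 * K4 ^ 2 * E1 * (L2 / m) * Wn := by
            field_simp
            ring
        _ ≤ kap / 8 * Wn := mul_le_mul_of_nonneg_right hL hW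
    calc 4 * kA * K4 * r * u * y2 = r * (4 * kA * K4 * u * y2) := by ring
      _ ≤ r * (1 + 16 * kA ^ 2 * K4 ^ 2 * (4 * (L2 / m ^ 2)) * (E1 * Wn)) :=
          mul_le_mul_of_nonneg_left (by linarith) hr
      _ = r + r * (16 * kA ^ 2 * K4 ^ 2 * (4 * (L2 / m ^ 2)) * (E1 * Wn)) := by ring
      _ ≤ r + kap / 8 * Wn := by linarith
  have a2 : 4 * kA * K4 * E1 * ε * Wn ≤ kap / 8 * Wn := mul_le_mul_of_nonneg_right hε hW
  have a3 : 2 * CB * K4 * ε * r ≤ 1 / 2 * r := mul_le_mul_of_nonneg_right hC hr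
  have a4 : 2 * CB * K4 * u * r ≤ 1 / 2 * r := mul_le_mul_of_nonneg_right hCu hr
  have a5 : 1 / 2 * (εo * (Ec * Wn)) ≤ kap / 4 * Wn := by
    have b1 : εo * (Ec * Wn) ≤ kap / (2 * Ec) * (Ec * Wn) := mul_le_mul_of_nonneg_right ho (by positivity)
    have b2 : kap / (2 * Ec) * (Ec * Wn) = kap / 2 * Wn := by
      field_simp
    linarith
  have a6 : 0 ≤ kap * Wn := by positivity
  linarith

/-- **the exponent of a configuration with ends and groups** -/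
theorem exists_enGC (B : SeaCB) {δ : ℝ} {R : Par6} {Q : Par7} (hP : Ok6 R) (hPG : PGC δ Q.lo Q.hi R)
    (hQ : Q.Ok) (h1 : Q.lo < -B.d) (h2 : B.top < Q.hi) (h3 : -B.h ≤ Q.lo) (h4 : Q.hi ≤ l / 10)
    {W CB kb : ℝ} (hW : 0 ≤ W) (hCB : 0 ≤ CB) (hkb : 0 ≤ kb) : EnGCSt B R Q W CB kb := by
  have hl := l_pos
  have hl1 : l ≤ 1 := by
    unfold l
    linarith [Real.pi_le_four]
  have hBh := B.h1
  have hBd := B.d0
  have hBt := B.top0
  have hBt' := B.top_le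
  obtain ⟨hi1, hhi1⟩ : ∃ hi1 : ℝ, hi1 = (B.top + Q.hi) / 2 := ⟨_, rfl⟩
  obtain ⟨r0, hr0d⟩ : ∃ r0 : ℝ, r0 = min ((-B.d - Q.lo) / 2) ((hi1 - B.top) / 2) := ⟨_, rfl⟩
  have hr0 : 0 < r0 := by
    rw [hr0d]
    exact lt_min (by linarith) (by linarith)
  have hr1 : r0 ≤ (-B.d - Q.lo) / 2 := by
    rw [hr0d]
    exact min_le_left _ _
  have hr2 : r0 ≤ (hi1 - B.top) / 2 := by
    rw [hr0d]
    exact min_le_right _ _
  have hr01 : r0 ≤ 1 := by linarith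
  have hδ := hPG.δ0
  have hδ1 := hPG.δ1
  have hGS := GS_pos hδ hδ1
  obtain ⟨C1, hC1, H1⟩ := S_cfgC B hδ hδ1 hr0 hr01
  obtain ⟨tc, K2, htc, hK2, H2⟩ := exists_geoC B
  obtain ⟨K3, hK3, H3⟩ := exists_QrC B
  obtain ⟨K4, hK4, H4⟩ := exists_dFC B (kd := Q.kd) hQ.w0
  obtain ⟨K5, hK5, H5⟩ := exists_regC B (kd := Q.kd) hQ.w0
  obtain ⟨C6, hC6, H6⟩ := exists_linSC B
  have hkd := hQ.kd0
  have hc := hQ.c0
  obtain ⟨S1, hS1⟩ : ∃ S1 : ℝ, S1 = K3 + W := ⟨_, rfl⟩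
  have hS10 : 0 ≤ S1 := by rw [hS1]; linarith
  obtain ⟨Ec, hEc⟩ : ∃ Ec : ℝ, Ec = Real.exp Q.c * Sd Q.c := ⟨_, rfl⟩
  obtain ⟨E1, hE1⟩ : ∃ E1 : ℝ, E1 = Real.exp 1 * Sd 1 := ⟨_, rfl⟩
  have hEc0 : 0 < Ec := by
    rw [hEc]
    have := Sd_pos hc
    positivity
  have hE10 : 0 < E1 := by
    rw [hE1]
    have := Sd_pos (d := 1) one_pos
    positivity
  obtain ⟨Ks, hKs⟩ : ∃ Ks : ℝ, Ks = 10 * GS δ * (|Q.lo| + |Q.hi|) * CB := ⟨_, rfl⟩
  have hKs0 : 0 ≤ Ks := by rw [hKs]; positivity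
  obtain ⟨x1, hx1⟩ : ∃ x1 : ℝ, x1 = 8 / 5 * S1 + 128 / 5 * CB := ⟨_, rfl⟩
  have hx10 : 0 ≤ x1 := by rw [hx1]; positivity
  refine ⟨2 * C1 + x1 * Q.kd + 2 + Ks, by positivity, ?_⟩
  intro kap hkap
  refine ⟨kap / (2 * Ec), by positivity, ?_⟩
  intro A κ hA hκ k δ0 N hδ0 hδ01 hN n
  have hsz := by
    letI : NUSea.Sea := NUSea.seaP
    exact NUGC.PLX.szD_nonneg hδ0 hδ01 (by linarith : 0 ≤ N) n
  obtain ⟨sz, hszd⟩ : ∃ sz : ℝ, sz = NUGC.PLX.szD δ0 N n := ⟨_, rfl⟩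
  have hsz0 : 0 ≤ sz := by rw [hszd]; exact hsz
  obtain ⟨kA, hkA⟩ : ∃ kA : ℝ, kA = |Q.kd| + |A| := ⟨_, rfl⟩
  have hkA0 : 0 ≤ kA := by rw [hkA]; positivity
  obtain ⟨X, hX⟩ : ∃ X : ℝ, X = C1 + K2 + K3 + K4 + K5 + C6 := ⟨_, rfl⟩
  obtain ⟨X2, hX2⟩ : ∃ X2 : ℝ, X2 = 4 * kA * K4 * E1 := ⟨_, rfl⟩
  obtain ⟨X3, hX3⟩ : ∃ X3 : ℝ, X3 = 2 * CB * K4 := ⟨_, rfl⟩
  obtain ⟨x0, hx0d⟩ : ∃ x0 : ℝ, x0 = min r0 (min (kap / 8) (1 / 2)) := ⟨_, rfl⟩
  have hx00 : 0 < x0 := by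
    rw [hx0d]
    exact lt_min hr0 (lt_min (by linarith) (by norm_num))
  have hX20 : 0 ≤ X2 := by rw [hX2]; positivity
  have hX30 : 0 ≤ X3 := by rw [hX3]; positivity
  obtain ⟨m0, hm0, HN⟩ := exists_numE (X + X2 + X3) (2 * X3) (64 * kb * kA ^ 2 * K4 ^ 2 * E1)
    hx00 (y := 1 / 2) (by norm_num) (z := kap / 8) (by linarith) k hκ
  refine ⟨C1 + C1 + 2 * S1 * CB + 16 * CB ^ 2 + (x1 * A) ^ 2 * Ec / (4 * (kap / 4)) +
    (C6 * sz + C6 * sz + C6 * (sz / r0)), m0, ?_⟩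
  intro hS hSU m hm e1 he1 he1' εo hεo hεo1 I r O O' ι _ T hE en hen p q G τ hp hq him hpl hql hG hGn hA'
  obtain ⟨n1, n2, n3, n4, n5, n6⟩ := HN m hm
  obtain ⟨ε, M, e, hI, hε, hM⟩ := hE.ok
  have hmp : (0 : ℝ) < m := by
    have : 0 < m := by omega
    exact_mod_cast this
  obtain ⟨mk, hmk⟩ : ∃ mk, mk = (m : ℝ) ^ (-κ) := ⟨_, rfl⟩
  obtain ⟨L, hLd⟩ : ∃ L, L = Real.log m := ⟨_, rfl⟩
  rw [← hmk] at n2 n3 n4 hε
  rw [← hLd] at n1 n3 n4 n5 n6 hM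
  have hmk0 : 0 ≤ mk := by rw [hmk]; positivity
  have hε0 : 0 ≤ ε := (hI.cur true).ε0
  have hM0 : 0 ≤ M := (hI.cur true).M0 B (hI.s0 true)
  have hr0' : (0 : ℝ) ≤ r := Nat.cast_nonneg r
  obtain ⟨b, hb⟩ : ∃ b, b = (1 - e1) * Tb (Real.log m) := ⟨_, rfl⟩
  rw [← hb] at hI
  have hb0 : 0 ≤ b := hI.b0
  have hbL : b + 1 ≤ 2 * L := by
    have hTL : Tb (Real.log m) = 3 / 8 * L := by rw [hLd]; rfl
    rw [hb, hTL]
    nlinarith
  -- small numbers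
  have p1 : (X + X2 + X3) * ε ≤ x0 := by
    refine le_trans (mul_le_mul_of_nonneg_left hε ?_) n2
    rw [hX]
    linarith
  have p2 : ∀ Y : ℝ, 0 ≤ Y → Y ≤ X + X2 + X3 → Y * ε ≤ x0 := fun Y _ hY =>
    (mul_le_mul_of_nonneg_right hY hε0).trans p1
  have x0r : x0 ≤ r0 := by rw [hx0d]; exact min_le_left _ _
  have x0k : x0 ≤ kap / 8 := by
    rw [hx0d]
    exact (min_le_right _ _).trans (min_le_left _ _)
  have x0h : x0 ≤ 1 / 2 := by
    rw [hx0d]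
    exact (min_le_right _ _).trans (min_le_right _ _)
  have eC1 := p2 C1 (by linarith) (by rw [hX]; linarith)
  have eK2 := p2 K2 (by linarith) (by rw [hX]; linarith)
  have eK3 := p2 K3 (by linarith) (by rw [hX]; linarith)
  have eK4 := p2 K4 (by linarith) (by rw [hX]; linarith)
  have eK5 := p2 K5 (by linarith) (by rw [hX]; linarith)
  have eC6 := p2 C6 (by linarith) (by rw [hX]; linarith)
  have eX2 := p2 X2 hX20 (by rw [hX]; linarith)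
  have eX3 := p2 X3 hX30 (by rw [hX]; linarith)
  have hL0 : 0 ≤ L := by linarith
  have hLk : 0 ≤ L ^ k := by positivity
  have hMε : M * ε ≤ L ^ k * mk := mul_le_mul hM hε hε0 hLk
  have hMε0 : 0 ≤ M * ε := mul_nonneg hM0 hε0
  have tb2 : (b + 1) ^ 2 * (M * ε) ≤ 1 := by
    refine le_trans ?_ n3
    gcongr
  have tb3 : (b + 1) ^ 3 * (M ^ 2 * ε) ≤ 1 := by
    refine le_trans ?_ n4
    gcongr
  have tb0 : M * ε ≤ 1 := by
    refine le_trans ?_ tb2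
    exact le_mul_of_one_le_left hMε0 (one_le_pow₀ (by linarith))
  have tb1 : (b + 1) * (M * ε) ≤ 1 := by
    refine le_trans ?_ tb2
    refine mul_le_mul_of_nonneg_right ?_ hMε0
    nlinarith
  -- the data
  have hs0 : ∀ a, 0 < I.s a := fun a => by
    have := hE.s1 a
    have : 0 < (m : ℝ) / 2 := by positivity
    linarith [hE.s1 a]
  have hhd : ∀ t, |hd (I.s true) (I.η true) (I.η1 true) t| ≤ 1 := hd_leC B (hI.der true) hE.lip
  have hGe := @H2 hS hSU Q.lo Q.hi Q.Cp ε M b e I hI (by linarith) r O' fun i a =>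
    ((hE.obj i).ext a).mono (by linarith [hQ.w0]) (by linarith [hQ.w0])
  have hRe := @H5 hS hSU Q.lo Q.hi Q.Cp ε M b e I hI (by linarith) hhd tb0 hs0 A εo Q.c r O' hE.obj
  obtain ⟨pp, nn, hF⟩ := hE.fld
  have hwin : ∀ t, Q.lo ≤ eta t ∧ eta t ≤ Q.hi := fun t =>
    ⟨by linarith [eta_lo B t], by linarith [eta_top B t]⟩
  have hEn := En_datC B hGe hF hRe hE.obj hE.Tok hE.nu hE.tau hE.lnk hPG hwin
  -- the action
  have hgas : gasI I O' = gas I.s I.η I.η1 (fun a z => FO6 R O a z + I.A a z) := by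
    unfold gasI
    congr 1
    funext a z
    unfold FC FO6
    congr 1
    exact Finset.sum_congr rfl fun i _ => (hE.lnk i).F a z
  have hL' : ∀ t t', |I.s true * P t * I.η true t - I.s true * P t' * I.η true t'| ≤
      1 * |t - t'| := fun t t' => by
    rw [one_mul]
    exact hE.lip t t'
  have hA1 := @H1 hS hSU Q.lo Q.hi hI.str I.s ε M b 1 e I.η I.η1 R r O I.A hP hPG hI.s0 hI.cur hI.der
    hI.com hb0 (by linarith) (by linarith) (by linarith) zero_le_one hL' hI.Ae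
  rw [← hgas] at hA1
  have hA2 := (abs_le.1 hA1).2
  -- ends and groups
  obtain ⟨hgr1, hgr2, hgr3, hgr4, hgr5, hgr6⟩ := by
    letI : NUSea.Sea := NUSea.seaP
    exact NUGC.PLX.grOk_D (I := I) hδ0 hδ01 hp hq him hG hN hGn hA'
  have hin : ∀ z : ℂ, Q.lo ≤ z.im → z.im ≤ hi1 → |z.im| < l / 10 := fun z z1 z2 => by
    rw [abs_lt]
    constructor <;> linarith
  rw [← hszd] at hgr4 hgr6
  have hlin := (@H6 hS hSU I.s ε M b e I.η I.η1 hI.s0 (by linarith) hI.cur hI.der hI.com hb0 _ _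
    Q.lo hi1 1 sz r0 _ _ _ _ _ I.A hr0 hr01 (by linarith) (by linarith)
    (fun d => ⟨fun z z1 z2 h => (hgr1 d).ar z (hin z z1 z2) h, fun z z1 z2 h => (hgr1 d).al z (hin z z1 z2) h⟩)
    (fun d z z1 z2 => hgr2 d z (hin z z1 z2)) (fun x z z1 z2 => hgr5 x z (hin z z1 z2))
    (fun x z w z1 z2 w1 w2 => hgr6 x z w (hin z z1 z2) (hin w w1 w2))
    (fun z z1 z2 => hgr3 z (hin z z1 z2)) hhd).2
  rw [Complex.re_sum] at hlin
  have hlin' := (abs_le.1 hlin).2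
  -- the heights
  obtain ⟨h, hh⟩ : ∃ h : Fin r → ℝ, h = fun i => ht (O i) := ⟨_, rfl⟩
  have hh' : (fun i => (O' i).h) = h := by
    rw [hh]
    funext i
    exact (hE.lnk i).h
  obtain ⟨Wn, hWn⟩ : ∃ Wn : ℝ, Wn = win Finset.univ h := ⟨_, rfl⟩
  have hWn0 : 0 ≤ Wn := by rw [hWn]; exact NUDispW.win_nonneg _ _
  -- masses
  have m1 := fun a => int_muO hE.obj a
  rw [hh'] at m1
  have hmT : ∀ a, ∫ t, |muS T a t| ≤ CB := fun a => by
    rw [← hE.nu]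
    exact hE.mass a
  have dO : ∀ a, NUC43.Dn (muO O' a) := fun a => dnSμ hE.obj a
  have dT : ∀ a, NUC43.Dn (muS T a) := fun a => dn_muS hE.Tok a
  -- remainders
  have hσ : 0 < (m : ℝ) / 2 := by positivity
  have hq := @H3 hS hSU Q.lo Q.hi Q.Cp ε M b e I hI (by linarith) hhd tb0 r O'
  have hd := fun a => @H4 hS hSU Q.lo Q.hi Q.Cp ε M b e I hI (by linarith) _ hσ hE.s1 A εo Q.c r O' hE.obj a
  have hu0 : 0 ≤ M / ((m : ℝ) / 2) := by positivity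
  have hF1 := Fq_bd (h := h) (f := fun a t => QrC I O' a t + dFC I O' a t + Sp.wOC (zI I) I a t)
    (μ := muO O') (ν := muS T) (S1 := S1) (D1 := K4 * ε) (D2 := K4 * r * (M / ((m : ℝ) / 2))) (kA := kA)
    (m1 := 4 / 5 * (Q.kd * r + A * sE Q.c h)) (CB := CB) hS10 (by positivity) (by positivity) hkA0
    (fun a t => by
      obtain ⟨F', -, -, g3, -⟩ := hd a
      have k1 := g3 t
      rw [hh'] at k1
      have k2 := hq.2 a t
      have k3 := hE.w0 a t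
      refine (abs_add_le _ _).trans ?_
      have k4 := abs_add_le (QrC I O' a t) (dFC I O' a t)
      rw [hS1]
      linarith)
    (fun a => (dO a).int) (fun a => (dT a).int)
    (fun a t => by
      have k1 := muO_bmaj hc.le hE.obj a t
      rw [hh', ← hkA] at k1
      exact k1) m1 hmT
  have eμ : (datC I O').μ = fun a t => muO O' a t + muS T a t := by
    funext a t
    show (∑ i, (O' i).μ a t) + I.ν a t = _
    rw [hE.nu]
    rfl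
  rw [eμ] at hEn
  -- energy of the objects
  have hch : ChO O (muO O') := by
    refine ⟨dO, ?_⟩
    have e1 : ∀ t, muO O' true t - muO O' false t = ∑ i, (O' i).τ t := fun t => by
      unfold muO
      rw [← Finset.sum_sub_distrib]
      exact Finset.sum_congr rfl fun i _ => ((hE.obj i).τe t).symm
    simp only [e1]
    rw [integral_finsetSum _ fun i _ => (hE.obj i).dnτ.int, ← Finset.sum_neg_distrib]
    refine Finset.sum_congr rfl fun i _ => ?_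
    rw [(hE.obj i).τq, (hE.lnk i).q]
    rfl
  have hen' := hen _ hch
  -- static kernels
  have k1 := Gs.Kq_abs (C := 8) bk_ks dO dT
  have k2 := Gs.Kq_abs (C := 8) bk_ks dT dT
  have k3 := Kq_pr hc hεo hE.obj hE.prk
  rw [hh', ← hEc, ← hWn] at k3
  have k1' := (abs_le.1 k1).2
  have k2' := (abs_le.1 k2).2
  have k3' := (abs_le.1 k3).1
  have g1 : ∑ b, ∫ u, |muS T b u| ≤ 2 * CB := by
    rw [Fintype.sum_bool]
    linarith [hmT true, hmT false]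
  have g2 : ∑ a, ∫ t, |muO O' a t| ≤ 2 * (4 / 5 * (Q.kd * r + A * sE Q.c h)) := by
    rw [Fintype.sum_bool]
    linarith [m1 true, m1 false]
  have g0 : 0 ≤ ∑ b, ∫ u, |muS T b u| :=
    Finset.sum_nonneg fun _ _ => integral_nonneg fun _ => abs_nonneg _
  have g0' : 0 ≤ ∑ a, ∫ t, |muO O' a t| :=
    Finset.sum_nonneg fun _ _ => integral_nonneg fun _ => abs_nonneg _
  have g3 : 8 * (∑ b, ∫ u, |muS T b u|) * (∑ a, ∫ t, |muO O' a t|) ≤
      8 * (2 * CB) * (2 * (4 / 5 * (Q.kd * r + A * sE Q.c h))) := by gcongr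
  have g4 : 8 * (∑ b, ∫ u, |muS T b u|) * (∑ a, ∫ t, |muS T a t|) ≤ 8 * (2 * CB) * (2 * CB) := by gcongr
  -- sources
  have k4 := (abs_le.1 (Fq_fOC_src (A := CB) hP hPG hwin hE.Tok O hE.sy hmT)).2
  rw [← hKs] at k4
  -- numbers
  have y1 := sE_lin hc (k := kap / 4) (x := x1 * A) (by positivity) h
  rw [← hEc, ← hWn] at y1
  have y2 := sE_sq (c := 1) one_pos h
  rw [← hE1, ← hWn] at y2
  have u2 : (M / ((m : ℝ) / 2)) ^ 2 ≤ 4 * ((L ^ k) ^ 2 / (m : ℝ) ^ 2) := by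
    have e1 : (M / ((m : ℝ) / 2)) ^ 2 = 4 * (M ^ 2 / (m : ℝ) ^ 2) := by
      field_simp
      ring
    rw [e1]
    gcongr
  have u1 : 2 * CB * K4 * (M / ((m : ℝ) / 2)) ≤ 1 / 2 := by
    refine le_trans ?_ n5
    have e1 : 2 * CB * K4 * (M / ((m : ℝ) / 2)) = 2 * X3 * (M / m) := by
      rw [hX3]
      field_simp
    rw [e1]
    gcongr
  rw [hx1] at y1
  have hnum := num_fin (S1 := S1) (kd := Q.kd) (r := r) (A := A) (y1 := sE Q.c h) (y2 := sE 1 h) (Wn := Wn)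
    (CB := CB) (kA := kA) (K4 := K4) (ε := ε) (u := M / ((m : ℝ) / 2)) (E1 := E1) (Ec := Ec) (kb := kb)
    (m := m) (L2 := (L ^ k) ^ 2) (kap := kap) (εo := εo) hkap hr0' hkA0 (by linarith) hWn0 hE10.le hEc0 hmp
    hkb hE.rk y1 y2 u2 (by rw [← hX2]; linarith) (by rw [← hX3]; linarith) u1 n6 hεo1
  rw [← hE1, ← hWn] at hF1
  have hF2 := (abs_le.1 hF1).2
  -- the action, numbers
  have s1 : C1 * r * ((b + 1) ^ 2 * (M * ε) + 1) ≤ 2 * C1 * r := by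
    have : C1 * r * ((b + 1) ^ 2 * (M * ε) + 1) ≤ C1 * r * (1 + 1) :=
      mul_le_mul_of_nonneg_left (by linarith) (by positivity)
    linarith
  have s2 : C1 * (b + 1) ^ 3 * (M ^ 2 * ε) ≤ C1 := by
    have : C1 * ((b + 1) ^ 3 * (M ^ 2 * ε)) ≤ C1 * 1 := mul_le_mul_of_nonneg_left tb3 (by linarith)
    linarith
  -- one body
  have s3 : (∑ i, (mfo6 I.s (parts6 R (O i)) -
      2 * Real.pi * (wind6 (k6 (O i)) * (I.s true * P (ht (O i)) * I.η true (ht (O i)))))) =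
      ∑ i, oneC I R O (curC I) i := by
    refine Finset.sum_congr rfl fun i _ => ?_
    unfold oneC curC
    ring
  rw [s3] at hA2
  -- the linear term
  have e1' : (∑ d, NUGC.PLX.φD p q G d * (I.s true * P (NUSea.PLX.H0.hD p τ d) *
      I.η true (NUSea.PLX.H0.hD p τ d))) = 12 * l * curC I p.im +
      ∑ i, (NUSp.gph true (G i) + NUSp.gph false (G i)) * curC I (τ i) := by
    rw [Fintype.sum_option, @NUGC.PLX.φD_none NUSea.seaP _ _ hpl hql]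
    rfl
  have hsz1 : ∑ d, NUGC.PLX.kD δ0 (l / 10) G d ≤ sz := by
    refine (Finset.sum_le_sum fun d _ => ?_).trans hgr4
    have := abs_nonneg (NUGC.PLX.φD p q G d)
    have := abs_nonneg (0 : ℝ)
    linarith
  have t1 : C6 * ((∑ d, NUGC.PLX.kD δ0 (l / 10) G d) * 1) ≤ C6 * sz := by
    rw [mul_one]
    exact mul_le_mul_of_nonneg_left hsz1 (by linarith)
  have t2 : C6 * (∑ d, (|(0:ℝ)| + |NUGC.PLX.φD p q G d| + NUGC.PLX.kD δ0 (l / 10) G d)) * (b + 1) * (M * ε) ≤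
      C6 * sz := by
    have : C6 * (∑ d, (|(0:ℝ)| + |NUGC.PLX.φD p q G d| + NUGC.PLX.kD δ0 (l / 10) G d)) * ((b + 1) * (M * ε)) ≤
        C6 * sz * 1 :=
      mul_le_mul (mul_le_mul_of_nonneg_left hgr4 (by linarith)) tb1 (by positivity) (by positivity)
    linarith
  have t3 : C6 * (b + 1) ^ 2 * (sz / r0) * (M * ε) ≤ C6 * (sz / r0) := by
    have h4 : 0 ≤ C6 * (sz / r0) := by positivity
    calc C6 * (b + 1) ^ 2 * (sz / r0) * (M * ε) = C6 * (sz / r0) * ((b + 1) ^ 2 * (M * ε)) := by ring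
      _ ≤ C6 * (sz / r0) * 1 := mul_le_mul_of_nonneg_left tb2 h4
      _ = _ := by ring
  rw [e1'] at hlin'
  rw [hEn, hx1]
  rw [← hh, ← hWn]
  linarith only [hA2, hlin', s1, s2, t1, t2, t3, hnum, hF2, hen', k1', k2', k3', g3, g4, k4]

end

end PLT.Cv
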