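import Pool.Agent.PLT.GAct
import Pool.Agent.NUH0.Point
import Pool.Agent.NUC43.Cfg

/-!
# The data of a configuration on a static curve: equation, regularity

* `Oc.Ok.dnμ`, `dnr`, `dnτ`: the densities of an object;
* **`datC_eq`**: the equation of the data; **`fldC`**: `Gs.Fld`; **`regC`**: `Gs.Reg` (the remainder being continuous
  and bounded);
* `datC_τe`: the density of the splitting is the difference of the densities.
-/

set_option autoImplicit false
set_option linter.unusedSectionVars false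
set_option linter.unusedVariables false

open MeasureTheory Set Filter Topology Complex

namespace PLT.Cv

open NUMF (l l_pos w g V)
open NUKer
open NU42
open NUC43 (Dn V_in lg_in)
open NUSea.PLX.H0 (Inp Vn)

noncomputable section

/-- decay around a point -/
lemma dn_of {f : ℝ → ℝ} {M h : ℝ} (hc : Continuous f) (hM : 0 ≤ M)
    (hf : ∀ t, |f t| ≤ M * Real.exp (-(5 / 2) * |t - h|)) : Dn f := by
  refine ⟨hc, M * Real.exp (5 / 2 * |h|), by positivity, fun t => (hf t).trans ?_⟩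
  rw [mul_assoc, ← Real.exp_add]
  refine mul_le_mul_of_nonneg_left (Real.exp_le_exp.2 ?_) hM
  have := abs_sub_abs_le_abs_sub t h
  linarith

section

variable [SeaC] {lo hi kd A ε c : ℝ} {X : Oc}

lemma Oc.Ok.kd0 (h : X.Ok lo hi kd A ε c) : 0 ≤ kd := by
  obtain ⟨c0, a0, f0, h1, h2⟩ := h.asy true
  exact (abs_nonneg _).trans h1

lemma Oc.Ok.kA0 (h : X.Ok lo hi kd A ε c) : 0 ≤ kd + A * Real.exp (-(c * |X.h|)) := by
  have h1 := h.kd0
  have h2 := h.A0
  positivity

lemma Oc.Ok.dnμ (h : X.Ok lo hi kd A ε c) (a : Bool) : Dn (X.μ a) := dn_of (h.μc a) h.kA0 (h.μb a)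

lemma Oc.Ok.dnr (h : X.Ok lo hi kd A ε c) (a : Bool) : Dn (X.r a) := dn_of (h.rc a) h.kA0 (h.rb a)

lemma Oc.Ok.dnτ (h : X.Ok lo hi kd A ε c) : Dn X.τ := dn_of h.τc h.kA0 h.τb

end

section

variable [SeaC] {lo hi kd A ε' c : ℝ} {I : Inp} {r : ℕ} {O : Fin r → Oc}

lemma dnSμ (hO : ∀ i, (O i).Ok lo hi kd A ε' c) (a : Bool) : Dn fun t => ∑ i, (O i).μ a t :=
  Dn.sum _ fun i => (hO i).dnμ a

lemma dnSr (hO : ∀ i, (O i).Ok lo hi kd A ε' c) (a : Bool) : Dn fun t => ∑ i, (O i).r a t :=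
  Dn.sum _ fun i => (hO i).dnr a

lemma dnSτ (hO : ∀ i, (O i).Ok lo hi kd A ε' c) : Dn fun t => ∑ i, (O i).τ t :=
  Dn.sum _ fun i => (hO i).dnτ

lemma int_b {f h : ℝ → ℝ} {C : ℝ} (hf : Integrable f) (hc : Continuous h) (hb : ∀ t, |h t| ≤ C) :
    Integrable fun t => h t * f t :=
  (hf.mul_bdd (c := C) hc.aestronglyMeasurable (ae_of_all _ hb)).congr (ae_of_all _ fun t => mul_comm _ _)

/-- the static kernels on a sum -/
lemma KsP_add {ρ σ : Bool → ℝ → ℝ} (h1 : ∀ a, Integrable (ρ a)) (h2 : ∀ a, Integrable (σ a)) (a : Bool)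
    (t : ℝ) : KsP (fun a t => ρ a t + σ a t) a t = KsP ρ a t + KsP σ a t := by
  unfold KsP
  rw [← Finset.sum_add_distrib]
  refine Finset.sum_congr rfl fun b _ => ?_
  rw [← integral_add (int_b (h1 b) ((bk_ks a b).right t) ((bk_ks a b).le t))
    (int_b (h2 b) ((bk_ks a b).right t) ((bk_ks a b).le t))]
  refine integral_congr_ae (ae_of_all _ fun u => ?_)
  simp only
  ring

lemma KsP_sum {ρ : Fin r → Bool → ℝ → ℝ} (h1 : ∀ i a, Integrable (ρ i a)) (a : Bool)
    (t : ℝ) : KsP (fun a t => ∑ i, ρ i a t) a t = ∑ i, KsP (ρ i) a t := by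
  unfold KsP
  rw [Finset.sum_comm]
  refine Finset.sum_congr rfl fun b _ => ?_
  rw [← integral_finsetSum _ fun i _ => int_b (h1 i b) ((bk_ks a b).right t) ((bk_ks a b).le t)]
  refine integral_congr_ae (ae_of_all _ fun u => ?_)
  simp only
  rw [Finset.mul_sum]

/-- **the equation of the data** -/
theorem datC_eq (hO : ∀ i, (O i).Ok lo hi kd A ε' c) (hνc : ∀ a, Continuous (I.ν a))
    (hνi : ∀ a, Integrable (I.ν a)) (hνb : ∀ a, ∃ C, ∀ t, |I.ν a t| ≤ C) (hτi : Integrable I.τD)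
    (hτ1 : Integrable fun x => I.τD x * x) (a : Bool) (t : ℝ) :
    (datC I O).lin a t - Gs.Dat.sg a * (datC I O).Gt t + (datC I O).E a t + (datC I O).Kr a t =
      (datC I O).Vm a t + (datC I O).φ a t := by
  have e1 : (datC I O).lin a t = QrC I O a t + ((∑ i, ((O i).F a (zI I a t)).re) + (I.A a (zI I a t)).re) := by
    show QrC I O a t + (FC I O a (zI I a t)).re = _
    unfold FC
    rw [Complex.add_re, Complex.re_sum]
  have e2 : (datC I O).Gt t = (∑ i, NUC43.lgp (O i).τ t) + NUC43.lgp I.τD t := by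
    have i1 : ∀ i, Integrable fun u => (O i).τ u * Real.log (g (t - u)) := fun i => lg_in (hO i).dnτ t
    have i2 := NUH0.tau_logg_int hτi hτ1 t
    unfold Gs.Dat.Gt NUC43.lgp
    rw [← integral_finsetSum _ fun i _ => i1 i, ← integral_add (integrable_finsetSum _ fun i _ => i1 i) i2]
    refine integral_congr_ae (ae_of_all _ fun u => ?_)
    show ((∑ i, (O i).τ u) + I.τD u) * Real.log (g (t - u)) = _
    simp only
    rw [add_mul, Finset.sum_mul]
  have e3 : (datC I O).Kr a t = (∑ i, KsP (O i).r a t) + KsP I.ν a t := by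
    have h1 := KsP_add (ρ := fun a t => ∑ i, (O i).r a t) (σ := I.ν) (fun a => (dnSr hO a).int) hνi a t
    rw [KsP_sum fun i a => ((hO i).dnr a).int] at h1
    rw [← h1]
    rfl
  have e5 : (datC I O).Vm a t = (∑ i, ∫ u, (O i).μ a u * V (t - u)) + Vn I a t := by
    obtain ⟨C, hC⟩ := hνb a
    have i1 : ∀ i, Integrable fun u => (O i).μ a u * V (t - u) := fun i => V_in ((hO i).dnμ a) t
    have i2 : Integrable fun u => I.ν a u * V (t - u) := by
      have h1 : Integrable fun u => V (t - u) := NUMF.V_integral.1.comp_sub_left t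
      exact (h1.mul_bdd (c := C) (hνc a).aestronglyMeasurable (ae_of_all _ hC)).congr
        (ae_of_all _ fun u => mul_comm _ _)
    unfold Gs.Dat.Vm Vn
    rw [← integral_finsetSum _ fun i _ => i1 i, ← integral_add (integrable_finsetSum _ fun i _ => i1 i) i2]
    refine integral_congr_ae (ae_of_all _ fun u => ?_)
    show ((∑ i, (O i).μ a u) + I.ν a u) * V (t - u) = _
    simp only
    rw [add_mul, Finset.sum_mul]
  have e6 : (datC I O).φ a t = QrC I O a t + dFC I O a t + phS O a t + KsP I.ν a t +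
      ((I.A a (zI I a t)).re + I.B a t - Gs.Dat.sg a * NUC43.lgp I.τD t - Vn I a t) := rfl
  have e7 : (datC I O).E a t = I.B a t := rfl
  have e8 : dFC I O a t = (∑ i, ((O i).F a (zI I a t)).re) - ∑ i, ((O i).F a (ga t)).re := by
    unfold dFC
    rw [Finset.sum_sub_distrib]
  have e9 : (∑ i, ((O i).F a (ga t)).re) - Gs.Dat.sg a * (∑ i, NUC43.lgp (O i).τ t) + ∑ i, KsP (O i).r a t =
      (∑ i, ∫ u, (O i).μ a u * V (t - u)) + phS O a t := by
    unfold phS
    rw [Finset.mul_sum, ← Finset.sum_sub_distrib, ← Finset.sum_add_distrib, ← Finset.sum_add_distrib]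
    exact Finset.sum_congr rfl fun i _ => (hO i).eq a t
  rw [e1, e2, e3, e5, e6, e7, e8]
  linear_combination e9

/-- the mass of the density of the splitting -/
lemma datC_τint (hO : ∀ i, (O i).Ok lo hi kd A ε' c) (hτi : Integrable I.τD) :
    ∫ t, (datC I O).τ t = -qS O + ∫ t, I.τD t := by
  have h4 : ∫ t, (datC I O).τ t = (∫ t, ∑ i, (O i).τ t) + ∫ t, I.τD t :=
    integral_add (dnSτ hO).int hτi
  rw [h4, integral_finsetSum _ fun i _ => (hO i).dnτ.int]
  unfold qS
  rw [← Finset.sum_neg_distrib]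
  congr 1
  exact Finset.sum_congr rfl fun i _ => (hO i).τq

lemma datC_τe (hO : ∀ i, (O i).Ok lo hi kd A ε' c) (h : ∀ t, I.τD t = I.ν true t - I.ν false t) (t : ℝ) :
    (datC I O).τ t = (datC I O).μ true t - (datC I O).μ false t := by
  show (∑ i, (O i).τ t) + I.τD t = (∑ i, (O i).μ true t) + I.ν true t - ((∑ i, (O i).μ false t) + I.ν false t)
  rw [h, Finset.sum_congr rfl fun i _ => (hO i).τe t, Finset.sum_sub_distrib]
  ring

end

section

variable {B : SeaCB} [SeaC] [SeaCU B] {lo hi Cp ε M b : ℝ} {e : ℝ → ℝ} {I : Inp} {lo' hi' kd A ε' c : ℝ}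
  {r : ℕ} {O : Fin r → Oc}

/-- **the field equation** -/
theorem fldC (h : IOkC B lo hi Cp ε M b e I) (hO : ∀ i, (O i).Ok lo' hi' kd A ε' c) {p n : ℕ}
    (hpn : ((p : ℝ) - I.s true) - ((n : ℝ) - I.s false) = -qS O + ∫ x, I.τD x) :
    Gs.Fld (datC I O) p n where
  τi := (dnSτ hO).int.add h.τi
  τ1 := by
    have hd := dnSτ hO
    have h2 : Integrable fun x => |x| * ∑ i, (O i).τ x := by
      refine (hd.wint.sub hd.int).congr (ae_of_all _ fun x => ?_)
      simp only [Pi.sub_apply]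
      ring
    have hc := hd.cont
    have h3 : Integrable fun x => (∑ i, (O i).τ x) * x := by
      refine h2.mono (Continuous.aestronglyMeasurable (hc.mul continuous_id)) (ae_of_all _ fun x => ?_)
      rw [norm_mul, norm_mul, Real.norm_eq_abs |x|, abs_abs, Real.norm_eq_abs x, mul_comm]
    refine (h3.add h.τ1).congr (ae_of_all _ fun x => ?_)
    show (∑ i, (O i).τ x) * x + I.τD x * x = ((∑ i, (O i).τ x) + I.τD x) * x
    ring
  τ0 := by
    rw [datC_τint hO h.τi, ← hpn]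
    rfl
  eq := datC_eq hO h.νc h.νi h.νb h.τi h.τ1

/-- **regularity of the data** -/
theorem regC (h : IOkC B lo hi Cp ε M b e I) (hO : ∀ i, (O i).Ok lo' hi' kd A ε' c)
    (hφc : ∀ a, Continuous (phiC I O a)) (hφb : ∀ a, ∃ M, ∀ t, |phiC I O a t| ≤ M) :
    Gs.Reg (datC I O) where
  μi a := (dnSμ hO a).int.add (h.νi a)
  μc a := (dnSμ hO a).cont.add (h.νc a)
  μb a := by
    obtain ⟨C1, h0, h1⟩ := (dnSμ hO a).bdd
    obtain ⟨C2, h2⟩ := h.νb a
    exact ⟨C1 + C2, fun t => (abs_add_le _ _).trans (add_le_add (h1 t) (h2 t))⟩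
  ri a := (dnSr hO a).int.add (h.νi a)
  rc a := (dnSr hO a).cont.add (h.νc a)
  rb a := by
    obtain ⟨C1, h0, h1⟩ := (dnSr hO a).bdd
    obtain ⟨C2, h2⟩ := h.νb a
    exact ⟨C1 + C2, fun t => (abs_add_le _ _).trans (add_le_add (h1 t) (h2 t))⟩
  φc := hφc
  φb := hφb
  Ec a := h.Bc a
  Eb a := h.Bb a

end

end

end PLT.Cv
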