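import Pool.Agent.NUAct.Abs

/-!
# The action of a transported gas, fields with real parts only

`Gas.Okr`: the hypotheses `Gas.Ok` with the contour invariance of the own fields required only for the real parts
(static curves which are not symmetric).  Same conclusions: `iB`, `iκ`, `sum_KB`, `κρ_eq`, `sum_κρ`, `lin_eq`,
`act_eq`.
-/

set_option autoImplicit false

open MeasureTheory Set Filter Topology Complex

namespace NUAct

noncomputable section

variable {ι : Type*} [Fintype ι]

namespace Gas

variable (X : Gas ι)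

/-- the hypotheses, real parts of the own fields -/
structure Okr : Prop where
  symm : ∀ a b t t', X.K a b t t' = X.K b a t' t
  i0 : ∀ a b t, Integrable fun t' => X.K0 a b t t' * X.ρ b t'
  i1 : ∀ a b t, Integrable fun t' => X.K a b t t' * X.ρ b t'
  i2 : ∀ a b t, Integrable fun t' => X.K a b t t' * X.ρh b t'
  fe0 : ∀ a t, ∑ b, (∫ t', X.K0 a b t t' * X.ρ b t') = X.v a t
  fe : ∀ a t, ∑ b, (∫ t', X.K a b t t' * X.ρh b t') = X.vh a t
  p1 : ∀ a b, Integrable fun p : ℝ × ℝ => X.ρ a p.1 * X.K a b p.1 p.2 * X.B b p.2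
  p2 : ∀ a b, Integrable fun p : ℝ × ℝ => X.B a p.1 * X.K a b p.1 p.2 * X.B b p.2
  j1 : ∀ a, Integrable fun t => X.ρ a t * X.v a t
  j2 : ∀ a, Integrable fun t => X.ρ a t * X.vh a t
  j3 : ∀ a, Integrable fun t => X.ρh a t * X.vh a t
  j4 : ∀ a, Integrable fun t => X.ρ a t * X.F a t
  j5 : ∀ a, Integrable fun t => X.ρ a t * X.Fh a t
  j6 : ∀ a, Integrable fun t => X.ρh a t * X.Fh a t
  cv : ∀ a, (∫ t, X.ρh a t * X.vh a t).re = ∫ t, X.ρ a t * X.v a t
  cF : ∀ a, ∫ t, X.ρh a t * X.Fh a t = ∫ t, (X.ρ a t : ℂ) * X.F a t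

variable {X}

namespace Okr

variable (h : X.Okr)

include h

lemma iB (a b : ι) (t : ℝ) : Integrable fun t' => X.K a b t t' * X.B b t' := by
  refine ((h.i2 a b t).sub (h.i1 a b t)).congr (Eventually.of_forall fun t' => ?_)
  simp only [Pi.sub_apply, B]
  ring

lemma iκ (a b : ι) (t : ℝ) : Integrable fun t' => X.κ a b t t' * X.ρ b t' := by
  have h1 : Integrable fun t' => (X.K a b t t' * X.ρ b t').re := (h.i1 a b t).re
  refine ((h.i0 a b t).sub h1).congr (Eventually.of_forall fun t' => ?_)
  simp only [Pi.sub_apply, κ]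
  rw [mul_comm (X.K a b t t') _, Complex.re_ofReal_mul]
  ring

lemma sum_KB (a : ι) (t : ℝ) : ∑ b, X.KB a b t =
    X.vh a t - ∑ b, (∫ t', X.K a b t t' * X.ρ b t') := by
  rw [← h.fe a t, ← Finset.sum_sub_distrib]
  refine Finset.sum_congr rfl fun b _ => ?_
  rw [← integral_sub (h.i2 a b t) (h.i1 a b t)]
  refine integral_congr_ae (Eventually.of_forall fun t' => ?_)
  simp only [B]
  ring

lemma κρ_eq (a b : ι) (t : ℝ) : X.κρ a b t =
    (∫ t', X.K0 a b t t' * X.ρ b t') - (∫ t', X.K a b t t' * X.ρ b t').re := by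
  have h1 : Integrable fun t' => (X.K a b t t' * X.ρ b t').re := (h.i1 a b t).re
  have h2 : (∫ t', X.K a b t t' * X.ρ b t').re = ∫ t', (X.K a b t t' * X.ρ b t').re :=
    (integral_re (h.i1 a b t)).symm
  rw [h2, ← integral_sub (h.i0 a b t) h1]
  refine integral_congr_ae (Eventually.of_forall fun t' => ?_)
  simp only [κ]
  rw [mul_comm (X.K a b t t') _, Complex.re_ofReal_mul]
  ring

lemma sum_κρ (a : ι) (t : ℝ) : ∑ b, X.κρ a b t =
    ∑ b, (X.KB a b t).re + (X.v a t - (X.vh a t).re) := by
  have e2 := congrArg Complex.re (h.sum_KB a t)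
  rw [Complex.sub_re, Complex.re_sum, Complex.re_sum] at e2
  rw [Finset.sum_congr rfl fun b _ => h.κρ_eq a b t, Finset.sum_sub_distrib, h.fe0, e2]
  ring

/-- the linear term of the action -/
theorem lin_eq (a : ι) (t : ℝ) : ∑ b, X.κρ a b t + X.G a t = X.lin a t := by
  unfold lin G
  rw [h.sum_κρ, Complex.add_re, Complex.re_sum]
  ring

/-- the constant term of the action -/
theorem act_eq : (1 / 2) * ∑ a, (∫ t, X.ρ a t * ∑ b, X.κρ a b t) +
    ∑ a, (∫ t, X.ρ a t * X.G a t) = X.S := by
  -- integrability of the iterated integrals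
  have q1 : ∀ a b, Integrable fun t => (X.ρ a t : ℂ) * X.KB a b t := by
    intro a b
    refine (h.p1 a b).integral_prod_left.congr (Eventually.of_forall fun t => ?_)
    simp only [KB]
    rw [← integral_const_mul]
    refine integral_congr_ae (Eventually.of_forall fun t' => ?_)
    simp only
    ring
  have q2 : ∀ a b, Integrable fun t => X.B a t * X.KB a b t := by
    intro a b
    refine (h.p2 a b).integral_prod_left.congr (Eventually.of_forall fun t => ?_)
    simp only [KB]
    rw [← integral_const_mul]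
    refine integral_congr_ae (Eventually.of_forall fun t' => ?_)
    simp only
    ring
  have jB : ∀ a, Integrable fun t => X.B a t * X.vh a t := by
    intro a
    refine ((h.j3 a).sub (h.j2 a)).congr (Eventually.of_forall fun t => ?_)
    simp only [Pi.sub_apply, B]
    ring
  have jBF : ∀ a, Integrable fun t => X.B a t * X.Fh a t := by
    intro a
    refine ((h.j6 a).sub (h.j5 a)).congr (Eventually.of_forall fun t => ?_)
    simp only [Pi.sub_apply, B]
    ring
  -- Fubini
  have swap : ∀ a b, (∫ t, (X.ρ a t : ℂ) * X.KB a b t) =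
      ∫ t', X.B b t' * ∫ t, X.K b a t' t * X.ρ a t := by
    intro a b
    have e1 : (∫ t, (X.ρ a t : ℂ) * X.KB a b t) =
        ∫ t, ∫ t', X.ρ a t * X.K a b t t' * X.B b t' := by
      refine integral_congr_ae (Eventually.of_forall fun t => ?_)
      simp only [KB]
      rw [← integral_const_mul]
      refine integral_congr_ae (Eventually.of_forall fun t' => ?_)
      simp only
      ring
    rw [e1, integral_integral_swap (h.p1 a b)]
    refine integral_congr_ae (Eventually.of_forall fun t' => ?_)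
    simp only
    rw [← integral_const_mul]
    refine integral_congr_ae (Eventually.of_forall fun t => ?_)
    simp only
    rw [h.symm a b]
    ring
  have r2 : ∀ a b, Integrable fun t' => X.B b t' * ∫ t, X.K b a t' t * X.ρ a t := by
    intro a b
    refine ((h.p1 a b).swap.integral_prod_left).congr (Eventually.of_forall fun t' => ?_)
    simp only [Function.comp, Prod.swap_prod_mk]
    rw [← integral_const_mul]
    refine integral_congr_ae (Eventually.of_forall fun t => ?_)
    simp only
    rw [h.symm a b]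
    ring
  -- the main computation
  have m1 : ∑ a, ∑ b, (∫ t, (X.ρ a t : ℂ) * X.KB a b t) =
      ∑ b, (∫ t, X.B b t * X.vh b t) - ∑ a, ∑ b, (∫ t, X.B a t * X.KB a b t) := by
    rw [Finset.sum_comm, ← Finset.sum_sub_distrib]
    refine Finset.sum_congr rfl fun b _ => ?_
    rw [Finset.sum_congr rfl fun a _ => swap a b, ← integral_finsetSum _ fun a _ => r2 a b,
      ← integral_finsetSum _ fun a _ => q2 b a,
      ← integral_sub (jB b) (integrable_finsetSum _ fun a _ => q2 b a)]
    refine integral_congr_ae (Eventually.of_forall fun t' => ?_)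
    simp only
    rw [← Finset.mul_sum, ← Finset.mul_sum, h.sum_KB b t']
    ring
  have m2 : ∀ a, (∫ t, (X.ρ a t : ℂ) * X.vh a t).re =
      (∫ t, X.ρ a t * X.v a t) - (∫ t, X.B a t * X.vh a t).re := by
    intro a
    rw [← h.cv a, ← Complex.sub_re, ← integral_sub (h.j3 a) (jB a)]
    congr 1
    refine integral_congr_ae (Eventually.of_forall fun t => ?_)
    simp only [B]
    ring
  have m3 : ∀ a, (∫ t, (X.ρ a t : ℂ) * X.Fh a t) =
      (∫ t, (X.ρ a t : ℂ) * X.F a t) - ∫ t, X.B a t * X.Fh a t := by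
    intro a
    rw [← h.cF a, ← integral_sub (h.j6 a) (jBF a)]
    refine integral_congr_ae (Eventually.of_forall fun t => ?_)
    simp only [B]
    ring
  -- real parts of the left hand side
  have hre : ∀ (f : ℝ → ℂ) (g : ℝ → ℝ), Integrable (fun t => (g t : ℂ) * f t) →
      Integrable (fun t => g t * (f t).re) ∧
      ∫ t, g t * (f t).re = (∫ t, (g t : ℂ) * f t).re := by
    intro f g hi
    have h1 : ∀ t, ((g t : ℂ) * f t).re = g t * (f t).re := fun t => Complex.re_ofReal_mul _ _
    refine ⟨hi.re.congr (Eventually.of_forall h1), ?_⟩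
    have h2 : (∫ t, (g t : ℂ) * f t).re = ∫ t, ((g t : ℂ) * f t).re := (integral_re hi).symm
    rw [h2]
    exact integral_congr_ae (Eventually.of_forall fun t => (h1 t).symm)
  have iv : ∀ a, Integrable fun t => X.ρ a t * (X.vh a t).re := fun a => (hre _ _ (h.j2 a)).1
  have ev : ∀ a, ∫ t, X.ρ a t * (X.vh a t).re =
      (∫ t, X.ρ a t * X.v a t) - (∫ t, X.B a t * X.vh a t).re := by
    intro a
    rw [(hre _ _ (h.j2 a)).2, m2 a]
  have eF : ∀ a, ∫ t, X.ρ a t * (X.Fh a t).re =
      (∫ t, (X.ρ a t : ℂ) * X.F a t).re - (∫ t, X.B a t * X.Fh a t).re := by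
    intro a
    rw [(hre _ _ (h.j5 a)).2, m3 a, Complex.sub_re]
  have e0 : ∀ a, (∫ t, X.ρ a t * ∑ b, X.κρ a b t) = ∑ b, (∫ t, (X.ρ a t : ℂ) * X.KB a b t).re +
      (∫ t, X.B a t * X.vh a t).re := by
    intro a
    have e1 : ∀ t, X.ρ a t * ∑ b, X.κρ a b t = ∑ b, X.ρ a t * (X.KB a b t).re +
        (X.ρ a t * X.v a t - X.ρ a t * (X.vh a t).re) := by
      intro t
      rw [h.sum_κρ, mul_add, Finset.mul_sum]
      ring
    simp only [e1]
    have i3 : Integrable fun t => ∑ b, X.ρ a t * (X.KB a b t).re :=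
      integrable_finsetSum _ fun b _ => (hre _ _ (q1 a b)).1
    have b1 := integral_add i3 ((h.j1 a).sub (iv a))
    have b2 := integral_sub (h.j1 a) (iv a)
    simp only [Pi.sub_apply] at b1
    rw [b1, integral_finsetSum _ fun b _ => (hre _ _ (q1 a b)).1, b2, ev]
    rw [Finset.sum_congr rfl fun b _ => (hre _ _ (q1 a b)).2]
    ring
  have e3 : ∀ a, (∫ t, X.ρ a t * X.G a t) = (∫ t, (X.ρ a t : ℂ) * X.F a t).re -
      (∫ t, X.B a t * X.Fh a t).re - (∫ t, X.B a t * X.vh a t).re := by
    intro a
    have e1 : ∀ t, X.ρ a t * X.G a t = X.ρ a t * (X.vh a t).re - X.ρ a t * X.v a t +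
        X.ρ a t * (X.Fh a t).re := by
      intro t
      unfold G
      ring
    simp only [e1]
    have b1 := integral_add ((iv a).sub (h.j1 a)) (hre _ _ (h.j5 a)).1
    have b2 := integral_sub (iv a) (h.j1 a)
    simp only [Pi.sub_apply] at b1
    rw [b1, b2, ev, eF]
    ring
  have m1r := congrArg Complex.re m1
  simp only [Complex.re_sum, Complex.sub_re] at m1r
  rw [Finset.sum_congr rfl fun a _ => e0 a, Finset.sum_congr rfl fun a _ => e3 a,
    Finset.sum_add_distrib, m1r]
  unfold S
  simp only [Finset.sum_sub_distrib, Complex.sub_re, Complex.re_sum]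
  rw [show (1 / 2 : ℂ) = ((1 / 2 : ℝ) : ℂ) by push_cast; ring, Complex.re_ofReal_mul]
  simp only [Complex.re_sum]
  ring

end Okr

end Gas

end

end NUAct
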