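import Pool.Agent.PLT.SeaC
import Pool.Agent.PLT.AbsC
import Pool.Agent.NUAct.Two

/-!
# The two species gas on deformed contours around a static curve

`two s ζ ζ' Fe : NUAct.Gas Bool`: before = the static curve `ga` with real kernels `Re K`, densities `s a P`, fields
`Re vb s a (ga t)`; after = the contours `ζ a`.  `two_ok`: the hypotheses of the abstract action identity.
`SExt lo hi F`: potentials analytic in `lo ≤ Im z ≤ hi` with growth `e^{|Re z|}`.
-/

set_option autoImplicit false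
set_option linter.unusedSectionVars false
set_option linter.unusedVariables false

open MeasureTheory Set Filter Topology Complex

namespace PLT.Cv

open NUMF (l l_pos w g V)
open NUAct (Us Ux Uc ks kx gr Kern Up Gas Ly Us_kern Ux_gr ks_bd kx_bd gr_nonneg int_exp_abs' Us_meas Ux_meas
  Up_meas Up_symm Ux_neg Up_of_lt Up_of_le ker_int ker_int2 int_dens l8)

noncomputable section

/-! ### reflection of the kernels -/

lemma Ly_conj {y : ℝ} {z : ℂ} (h : |z.im| + |y| < Real.pi / 2) :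
    Ly y ((starRingEnd ℂ) z) = (starRingEnd ℂ) (Ly y z) := by
  unfold Ly
  have e1 : (starRingEnd ℂ) z + y * I = (starRingEnd ℂ) (z - y * I) := by
    apply Complex.ext <;> simp
  have e2 : (starRingEnd ℂ) z - y * I = (starRingEnd ℂ) (z + y * I) := by
    apply Complex.ext <;> simp [sub_eq_add_neg, add_comm]
  rw [e1, e2, NUAct.log_cosh_conj (NUAct.im_sub_lt h), NUAct.log_cosh_conj (NUAct.im_add_lt h), map_add, map_add,
    Complex.conj_ofReal]
  ring

lemma Ux_conj {z : ℂ} (h : |z.im| < l) : Ux ((starRingEnd ℂ) z) = (starRingEnd ℂ) (Ux z) := by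
  unfold Ux
  have h0 : |z.im| + |(0:ℝ)| < Real.pi / 2 := NUAct.a0 h
  rw [Ly_conj (NUAct.a1 h), Ly_conj h0, map_sub, map_sub, map_mul, Complex.conj_ofReal, map_ofNat]

lemma Us_conj {z : ℂ} (h0 : 0 < z.re) (h : |z.im| < l) :
    Us ((starRingEnd ℂ) z) = (starRingEnd ℂ) (Us z) := by
  have hl := l_pos
  have h8 := l8
  have hs := NUAct.sinh_slit h0 (by linarith : |z.im| < Real.pi / 2)
  unfold Us
  rw [Ly_conj (NUAct.a3 h), Ly_conj (NUAct.a2 h), Complex.sinh_conj, Complex.log_conj _ (by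
    intro h1
    rw [Complex.arg_eq_pi_iff] at h1
    rcases hs with h2 | h2
    · linarith [h1.1]
    · exact h2 h1.2), map_sub, map_sub, map_mul, map_ofNat]

/-! ### potentials in a strip -/

/-- admissible external potentials in a strip -/
structure SExt (lo hi : ℝ) (F : ℂ → ℂ) : Prop where
  diff : ∀ z : ℂ, lo ≤ z.im → z.im ≤ hi → DifferentiableAt ℂ F z
  bd : ∃ A : ℝ, ∀ z : ℂ, lo ≤ z.im → z.im ≤ hi → ‖F z‖ ≤ A * Real.exp |z.re|

variable {lo hi : ℝ}

lemma SExt_of_lin {K : ℝ} {F : ℂ → ℂ} (h1 : ∀ z : ℂ, lo ≤ z.im → z.im ≤ hi → DifferentiableAt ℂ F z)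
    (h2 : ∀ z : ℂ, lo ≤ z.im → z.im ≤ hi → ‖F z‖ ≤ K * (1 + |z.re|)) : SExt lo hi F := by
  refine ⟨h1, |K|, fun z hz hz' => (h2 z hz hz').trans ?_⟩
  have h3 := Real.add_one_le_exp |z.re|
  have h4 := abs_nonneg z.re
  calc K * (1 + |z.re|) ≤ |K| * (1 + |z.re|) := by gcongr; exact le_abs_self _
    _ ≤ _ := by gcongr; linarith

lemma SExt.mono {lo' hi' : ℝ} {F : ℂ → ℂ} (h : SExt lo hi F) (h1 : lo ≤ lo') (h2 : hi' ≤ hi) :
    SExt lo' hi' F := by
  obtain ⟨A, hA⟩ := h.bd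
  exact ⟨fun z a b => h.diff z (h1.trans a) (b.trans h2), A, fun z a b => hA z (h1.trans a) (b.trans h2)⟩

lemma SExt.add {F G : ℂ → ℂ} (h : SExt lo hi F) (h' : SExt lo hi G) : SExt lo hi fun z => F z + G z := by
  obtain ⟨A, hA⟩ := h.bd
  obtain ⟨A', hA'⟩ := h'.bd
  refine ⟨fun z a b => (h.diff z a b).add (h'.diff z a b), A + A', fun z a b => ?_⟩
  rw [add_mul]
  exact (norm_add_le _ _).trans (add_le_add (hA z a b) (hA' z a b))

lemma SExt.const_mul {F : ℂ → ℂ} (h : SExt lo hi F) (k : ℂ) : SExt lo hi fun z => k * F z := by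
  obtain ⟨A, hA⟩ := h.bd
  refine ⟨fun z a b => (h.diff z a b).const_mul k, ‖k‖ * A, fun z a b => ?_⟩
  rw [norm_mul, mul_assoc]
  exact mul_le_mul_of_nonneg_left (hA z a b) (norm_nonneg _)

lemma SExt.zero : SExt lo hi fun _ => 0 :=
  ⟨fun _ _ _ => differentiableAt_const _, 0, fun _ _ _ => by simp⟩

lemma SExt.sum {ι : Type*} (S : Finset ι) {F : ι → ℂ → ℂ} (h : ∀ i, SExt lo hi (F i)) :
    SExt lo hi fun z => ∑ i ∈ S, F i z := by
  classical
  induction S using Finset.induction_on with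
  | empty => simpa using SExt.zero
  | insert a S ha ih =>
    have := (h a).add ih
    refine ⟨fun z h1 h2 => ?_, ?_⟩
    · have h3 := this.diff z h1 h2
      simpa only [Finset.sum_insert ha] using h3
    · obtain ⟨A, hA⟩ := this.bd
      exact ⟨A, fun z h1 h2 => by simpa only [Finset.sum_insert ha] using hA z h1 h2⟩

variable {c C : ℝ} {ζ ζ' : ℝ → ℂ}

lemma SExt.cont {F : ℂ → ℂ} (hF : SExt lo hi F) (P' : SPath lo hi c C ζ ζ') : Continuous fun t => F (ζ t) := by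
  have hc : ContinuousOn F {z : ℂ | lo ≤ z.im ∧ z.im ≤ hi} := fun z hz =>
    (hF.diff z hz.1 hz.2).continuousAt.continuousWithinAt
  exact hc.comp_continuous P'.continuous fun t => ⟨P'.im_ge t, P'.im_le t⟩

lemma SExt.bd_path {F : ℂ → ℂ} (hF : SExt lo hi F) (P' : SPath lo hi c C ζ ζ') :
    ∃ A : ℝ, 0 ≤ A ∧ ∀ t, ‖F (ζ t)‖ ≤ A * Real.exp |t| := by
  obtain ⟨A, hA⟩ := hF.bd
  have hA0 : 0 ≤ A := by
    have h1 := (norm_nonneg _).trans (hA (ζ 0) (P'.im_ge 0) (P'.im_le 0))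
    have := Real.exp_pos |(ζ 0).re|
    by_contra h
    have : A * Real.exp |(ζ 0).re| < 0 := mul_neg_of_neg_of_pos (not_le.1 h) this
    linarith
  refine ⟨A * Real.exp C, by positivity, fun t => (hA _ (P'.im_ge t) (P'.im_le t)).trans ?_⟩
  have h1 : |(ζ t).re| ≤ |t| + C := by
    have := abs_add_le ((ζ t).re - t) t
    have e : (ζ t).re - t + t = (ζ t).re := by ring
    rw [e] at this
    linarith [P'.re_near t]
  calc A * Real.exp |(ζ t).re| ≤ A * Real.exp (|t| + C) := by gcongr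
    _ = _ := by rw [Real.exp_add]; ring

/-- strips which contain the static curve -/
structure Str (B : SeaCB) (lo hi : ℝ) : Prop where
  h1 : -B.h ≤ lo
  h2 : lo ≤ -B.d
  h3 : B.top ≤ hi
  h4 : hi ≤ l / 4

/-! ### kernels on paths -/

lemma Up_sub_const (Φ : ℂ → ℂ) (ζ : ℝ → ℂ) (k : ℂ) (t t' : ℝ) :
    Up Φ (fun t => ζ t - k) t t' = Up Φ ζ t t' := by
  unfold Up
  simp only [sub_sub_sub_cancel_right]

lemma SPath.Up_bd {K d : ℝ} {Φ : ℂ → ℂ} (hd : hi - lo ≤ d) (hΦ : Kern d K Φ) (P' : SPath lo hi c C ζ ζ') :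
    ∃ K' : ℝ, 0 ≤ K' ∧ ∀ t t', t ≠ t' → ‖Up Φ ζ t t'‖ ≤ K' * gr |t - t'| := by
  have hΦ' : Kern (2 * ((hi - lo) / 2)) K Φ := ⟨fun z h0 h => hΦ.diff z h0 (by linarith),
    fun z h0 h => hΦ.bd z h0 (by linarith), hΦ.K0⟩
  have h := NUAct.Up_bd hΦ' P'.cen
  simp only [Up_sub_const] at h
  exact ⟨_, by have := hΦ.K0; positivity, h⟩

section

variable [SeaC]

/-! ### the fields -/

/-- the field of the species `a` -/
def vb (s : Bool → ℝ) (a : Bool) (z : ℂ) : ℂ := (s a : ℂ) * vs z + (s (!a) : ℂ) * vx z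

lemma ga_diff_re (t t' : ℝ) : (ga t - ga t').re = t - t' := by simp

lemma ga_diff_im (t t' : ℝ) : |(ga t - ga t').im| < l := by
  have h1 := eta_nn t
  have h2 := eta_le t
  have h3 := eta_nn t'
  have h4 := eta_le t'
  have hl := l_pos
  rw [Complex.sub_im, ga_im, ga_im, abs_lt]
  constructor <;> linarith

end

section

variable (B : SeaCB) [SeaC] [SeaCU B]

include B

/-- the static curve in a strip which contains it -/
lemma ga_spath (S : Str B lo hi) : ∃ C : ℝ, SPath lo hi 1 C ga ga' := by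
  obtain ⟨C, hC, h⟩ := ga_path B
  exact ⟨C, h.weaken S.h2 S.h3⟩

lemma conv_ga_s (t : ℝ) : Integrable (fun t' => Up Us ga t t' * (P t' : ℂ)) ∧
    ∫ t', Up Us ga t t' * (P t' : ℂ) = vs (ga t) := by
  have hl := l_pos
  have hh := B.h0
  obtain ⟨C, hC, h⟩ := ga_path B
  have h1 := fe_s B (h.weaken (neg_le_neg B.dh') B.top_l4) t
  simpa only [Pc_ga] using h1

lemma conv_ga_x (t : ℝ) : Integrable (fun t' => Ux (ga t - ga t') * (P t' : ℂ)) ∧
    ∫ t', Ux (ga t - ga t') * (P t' : ℂ) = vx (ga t) := by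
  have hl := l_pos
  have hh := B.h0
  obtain ⟨C, hC, h⟩ := ga_path B
  have h1 := fe_x B (h.weaken (neg_le_neg B.dh') B.top_l4) (z := ga t)
    (by rw [ga_im]; exact eta_h B t) (by rw [ga_im]; exact eta_l4 B t)
  simpa only [Pc_ga] using h1

lemma vb_ext (S : Str B lo hi) (s : Bool → ℝ) (a : Bool) : SExt lo hi (vb s a) := by
  have hl := l_pos
  have hh := B.h0
  have hK := B.K0
  have a1 := S.h1
  have a4 := S.h4
  refine SExt_of_lin (K := |s a| * B.K + |s (!a)| * B.K)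
    (fun z hz hz' => ((diff_vs B (by linarith) (by linarith)).const_mul _).add
      ((diff_vx B (by linarith) (by linarith)).const_mul _)) (fun z hz hz' => ?_)
  unfold vb
  refine (norm_add_le _ _).trans ?_
  rw [norm_mul, norm_mul, Complex.norm_real, Complex.norm_real, Real.norm_eq_abs, Real.norm_eq_abs]
  have b1 := mul_le_mul_of_nonneg_left (SeaCU.fs_gr (B := B) z (by linarith) (by linarith)) (abs_nonneg (s a))
  have b2 := mul_le_mul_of_nonneg_left (SeaCU.fx_gr (B := B) z (by linarith) (by linarith)) (abs_nonneg (s (!a)))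
  have e1 : vs z = SeaC.fs z := rfl
  have e2 : vx z = SeaC.fx z := rfl
  rw [e1, e2]
  linarith

lemma vc_ext (S : Str B lo hi) : SExt lo hi vc := by
  have h := vb_ext B S (fun _ => 1) true
  have e : vb (fun _ => 1) true = vc := by
    funext z
    unfold vb vc
    simp
  rwa [e] at h

/-- `Pc F` decays -/
lemma ext_dec {F : ℂ → ℂ} (S : Str B lo hi) (hF : SExt lo hi F) :
    ∃ C : ℝ, SDec lo hi C (5 / 3) (fun z => Pc z * F z) := by
  obtain ⟨A, hA⟩ := hF.bd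
  obtain ⟨C, hC0, hC⟩ := Pc_dec B
  have a1 := S.h1
  have a4 := S.h4
  refine ⟨C * A, fun z h1 h2 => (hC.diff z (by linarith) (by linarith)).mul (hF.diff z h1 h2), fun z h1 h2 => ?_⟩
  rw [norm_mul]
  have h8 : Real.exp (-(5 / 3) * |z.re|) = Real.exp (-(8 / 3) * |z.re|) * Real.exp |z.re| := by
    rw [← Real.exp_add]; congr 1; ring
  calc ‖Pc z‖ * ‖F z‖ ≤ (C * Real.exp (-(8 / 3) * |z.re|)) * (A * Real.exp |z.re|) :=
        mul_le_mul (hC.bd z (by linarith) (by linarith)) (hA z h1 h2) (norm_nonneg _) (by positivity)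
    _ = _ := by rw [h8]; ring

/-! ### densities -/

lemma rho_bd (s : ℝ) : ∃ C : ℝ, 0 ≤ C ∧ ∀ t : ℝ, ‖((s * P t : ℝ) : ℂ)‖ ≤ C * Real.exp (-(8 / 3) * |t|) := by
  obtain ⟨C, hC, h⟩ := P_le B
  refine ⟨|s| * C, by positivity, fun t => ?_⟩
  rw [Complex.norm_real, Real.norm_eq_abs, abs_mul, abs_of_pos (P_pos B t), mul_assoc]
  exact mul_le_mul_of_nonneg_left (h t) (abs_nonneg s)

lemma rhoh_bd (s : ℝ) (S : Str B lo hi) (P' : SPath lo hi c C ζ ζ') :
    ∃ D : ℝ, 0 ≤ D ∧ ∀ t : ℝ, ‖(s : ℂ) * (Pc (ζ t) * ζ' t)‖ ≤ D * Real.exp (-(8 / 3) * |t|) := by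
  obtain ⟨K, hK0, hK⟩ := Pc_dec B
  have hC := P'.B0
  have a1 := S.h1
  have a4 := S.h4
  refine ⟨|s| * (K * Real.exp (8 / 3 * C) * C), by positivity, fun t => ?_⟩
  have h1 := hK.bd _ (a1.trans (P'.im_ge t)) ((P'.im_le t).trans a4)
  have h2 := P'.re_ge t
  have h3 : Real.exp (-(8 / 3) * |(ζ t).re|) ≤ Real.exp (8 / 3 * C) * Real.exp (-(8 / 3) * |t|) := by
    rw [← Real.exp_add]
    exact Real.exp_le_exp.2 (by linarith)
  rw [norm_mul, norm_mul, Complex.norm_real, Real.norm_eq_abs, mul_assoc]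
  refine mul_le_mul_of_nonneg_left ?_ (abs_nonneg s)
  calc ‖Pc (ζ t)‖ * ‖ζ' t‖ ≤ (K * (Real.exp (8 / 3 * C) * Real.exp (-(8 / 3) * |t|))) * C :=
        mul_le_mul (h1.trans (mul_le_mul_of_nonneg_left h3 hK0)) (P'.dle t) (norm_nonneg _)
          (by positivity)
    _ = _ := by ring

lemma Pc_cont_path (S : Str B lo hi) (P' : SPath lo hi c C ζ ζ') : Continuous fun t => Pc (ζ t) := by
  have a1 := S.h1
  have a4 := S.h4
  have hc : ContinuousOn Pc {z : ℂ | lo ≤ z.im ∧ z.im ≤ hi} := fun z hz =>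
    (Pc_diff' B (a1.trans hz.1) (hz.2.trans a4)).continuousAt.continuousWithinAt
  exact hc.comp_continuous P'.continuous fun t => ⟨P'.im_ge t, P'.im_le t⟩

lemma rhoh_cont (s : ℝ) (S : Str B lo hi) (P' : SPath lo hi c C ζ ζ') :
    Continuous fun t => (s : ℂ) * (Pc (ζ t) * ζ' t) :=
  continuous_const.mul ((Pc_cont_path B S P').mul P'.cont)

lemma rho_cont (s : ℝ) : Continuous fun t => ((s * P t : ℝ) : ℂ) :=
  Complex.continuous_ofReal.comp (continuous_const.mul (P_cont B))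

/-! ### contour invariance -/

lemma cv_gen (s : ℝ) {F : ℂ → ℂ} (S : Str B lo hi) (P' : SPath lo hi c C ζ ζ') (hF : SExt lo hi F) :
    Integrable (fun t => (s : ℂ) * (Pc (ζ t) * ζ' t) * F (ζ t)) ∧
    ∫ t, (s : ℂ) * (Pc (ζ t) * ζ' t) * F (ζ t) = ∫ t : ℝ, ((s * P t : ℝ) : ℂ) * F (ga t) := by
  obtain ⟨D, hD⟩ := ext_dec B S hF
  obtain ⟨C0, G⟩ := ga_spath B S
  have i1 := (P'.shift (by norm_num) hD).1
  have e := P'.shift2 G (by norm_num) hD
  have e1 : (fun t => (s : ℂ) * (Pc (ζ t) * ζ' t) * F (ζ t)) =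
      fun t => (s : ℂ) * (Pc (ζ t) * F (ζ t) * ζ' t) := by
    funext t
    ring
  rw [e1]
  refine ⟨i1.const_mul _, ?_⟩
  rw [integral_const_mul, e, ← integral_const_mul]
  refine integral_congr_ae (Eventually.of_forall fun t => ?_)
  simp only
  rw [show (s : ℂ) * (Pc (ga t) * F (ga t) * ga' t) = (s : ℂ) * (Pc (ga t) * ga' t) * F (ga t) by ring, Pc_ga]
  push_cast
  ring

lemma int_rF (s : ℝ) {F : ℂ → ℂ} (S : Str B lo hi) (hF : SExt lo hi F) :
    Integrable fun t : ℝ => ((s * P t : ℝ) : ℂ) * F (ga t) := by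
  obtain ⟨C0, G⟩ := ga_spath B S
  obtain ⟨Cr, hCr0, hCr⟩ := rho_bd B s
  obtain ⟨A, hA0, hA⟩ := hF.bd_path G
  exact int_dens (A := A) (rho_cont B s) (hF.cont G) hCr hA

lemma int_rFh (s : ℝ) {F : ℂ → ℂ} (P' : SPath lo hi c C ζ ζ') (hF : SExt lo hi F) :
    Integrable fun t : ℝ => ((s * P t : ℝ) : ℂ) * F (ζ t) := by
  obtain ⟨Cr, hCr0, hCr⟩ := rho_bd B s
  obtain ⟨A, hA0, hA⟩ := hF.bd_path P'
  exact int_dens (A := A) (rho_cont B s) (hF.cont P') hCr hA

/-- the real part of the price of the own field -/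
lemma int_vb_re (s : Bool → ℝ) (a : Bool) :
    (∫ t : ℝ, ((s a * P t : ℝ) : ℂ) * vb s a (ga t)).re = ∫ t : ℝ, s a * P t * (vb s a (ga t)).re := by
  have hl := l_pos
  have hh := B.h0
  have S : Str B (-B.h) (l / 4) := ⟨le_rfl, neg_le_neg B.dh', B.top_l4, le_rfl⟩
  have hi := int_rF B (s a) S (vb_ext B S s a)
  have e2 : (∫ t : ℝ, (((s a * P t : ℝ) : ℂ) * vb s a (ga t)).re) =
      (∫ t : ℝ, ((s a * P t : ℝ) : ℂ) * vb s a (ga t)).re := integral_re hi
  rw [← e2]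
  refine integral_congr_ae (Eventually.of_forall fun t => ?_)
  simp only
  rw [Complex.re_ofReal_mul]

end

/-! ### two species -/

section

variable [SeaC]

/-- the two species gas on the contours `ζ a` -/
def two (s : Bool → ℝ) (ζ ζ' : Bool → ℝ → ℂ) (Fe : Bool → ℂ → ℂ) : Gas Bool where
  K0 a b t t' := if a = b then (Up Us ga t t').re else (Ux (ga t - ga t')).re
  K a b t t' := if a = b then Up Us (ζ a) t t' else Ux (ζ a t - ζ b t')
  ρ a t := s a * P t
  ρh a t := s a * (Pc (ζ a t) * ζ' a t)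
  v a t := (vb s a (ga t)).re
  vh a t := vb s a (ζ a t)
  F a t := Fe a (ga t)
  Fh a t := Fe a (ζ a t)

variable {ζ ζ' : Bool → ℝ → ℂ} {Fe : Bool → ℂ → ℂ}

lemma two_K (s : Bool → ℝ) (a b' : Bool) (t t' : ℝ) :
    (two s ζ ζ' Fe).K a b' t t' = if a = b' then Up Us (ζ a) t t' else Ux (ζ a t - ζ b' t') := rfl

lemma two_K0 (s : Bool → ℝ) (a b' : Bool) (t t' : ℝ) :
    (two s ζ ζ' Fe).K0 a b' t t' =
      if a = b' then (Up Us ga t t').re else (Ux (ga t - ga t')).re := rfl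

lemma two_rho (s : Bool → ℝ) (a : Bool) (t : ℝ) : (two s ζ ζ' Fe).ρ a t = s a * P t := rfl

lemma two_rhoh (s : Bool → ℝ) (a : Bool) (t : ℝ) :
    (two s ζ ζ' Fe).ρh a t = s a * (Pc (ζ a t) * ζ' a t) := rfl

lemma two_B (s : Bool → ℝ) (a : Bool) (t : ℝ) :
    (two s ζ ζ' Fe).B a t = (s a : ℂ) * (Pc (ζ a t) * ζ' a t) - ((s a * P t : ℝ) : ℂ) := rfl

lemma two_symm (s : Bool → ℝ) (a b' : Bool) (t t' : ℝ) :
    (two s ζ ζ' Fe).K a b' t t' = (two s ζ ζ' Fe).K b' a t' t := by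
  rw [two_K, two_K]
  by_cases hab : a = b'
  · rw [if_pos hab, if_pos hab.symm, hab]
    exact Up_symm _ _ _
  · rw [if_neg hab, if_neg (Ne.symm hab), ← Ux_neg, neg_sub]

end

section

variable (B : SeaCB) [SeaC] [SeaCU B]
variable {ζ ζ' : Bool → ℝ → ℂ} {Fe : Bool → ℂ → ℂ}

include B

lemma two_Kbd (s : Bool → ℝ) (S : Str B lo hi) (P' : ∀ a, SPath lo hi c C (ζ a) (ζ' a)) :
    ∃ K : ℝ, 0 ≤ K ∧ ∀ a b t t', t ≠ t' → ‖(two s ζ ζ' Fe).K a b t t'‖ ≤ K * gr |t - t'| := by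
  have hl := l_pos
  have hh := B.h0
  have hh1 := B.h1
  have a1 := S.h1
  have a4 := S.h4
  obtain ⟨Ks, hKs⟩ := Us_kern
  obtain ⟨K1, hK1, HK1⟩ := (P' true).Up_bd (d := l / 2) (by linarith) hKs
  obtain ⟨K2, hK2, HK2⟩ := (P' false).Up_bd (d := l / 2) (by linarith) hKs
  obtain ⟨Kx, hKx0, hKx⟩ := Ux_gr
  have hC := (P' true).B0
  have hK3 : 0 ≤ Kx * (1 + 2 * C) := by positivity
  refine ⟨K1 + K2 + Kx * (1 + 2 * C), by positivity, fun a b' t t' hne => ?_⟩
  have hpos : 0 < |t - t'| := abs_pos.2 (sub_ne_zero.2 hne)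
  have hg := gr_nonneg hpos
  rw [two_K]
  split_ifs with hab
  · cases a
    · refine (HK2 t t' hne).trans (mul_le_mul_of_nonneg_right (by linarith) hg)
    · refine (HK1 t t' hne).trans (mul_le_mul_of_nonneg_right (by linarith) hg)
  · have h1 := hKx (ζ a t - ζ b' t') (by
      rw [Complex.sub_im, abs_le]
      have b1 := (P' a).im_ge t
      have b2 := (P' a).im_le t
      have b3 := (P' b').im_ge t'
      have b4 := (P' b').im_le t'
      constructor <;> linarith)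
    have h2 : |(ζ a t - ζ b' t').re| ≤ |t - t'| + 2 * C := by
      have a1 := (P' a).re_near t
      have a2 := (P' b').re_near t'
      have e : (ζ a t - ζ b' t').re = ((ζ a t).re - t) - ((ζ b' t').re - t') + (t - t') := by
        rw [Complex.sub_re]; ring
      rw [e]
      have a3 := abs_add_le (((ζ a t).re - t) - ((ζ b' t').re - t')) (t - t')
      have a4 := abs_sub ((ζ a t).re - t) ((ζ b' t').re - t')
      linarith
    have h3 : 1 + |(ζ a t - ζ b' t').re| ≤ (1 + 2 * C) * gr |t - t'| := by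
      unfold gr
      have := abs_nonneg (Real.log |t - t'|)
      nlinarith [mul_nonneg hC hpos.le, mul_nonneg hC this]
    calc ‖Ux (ζ a t - ζ b' t')‖ ≤ Kx * ((1 + 2 * C) * gr |t - t'|) :=
          h1.trans (mul_le_mul_of_nonneg_left h3 hKx0)
      _ = (Kx * (1 + 2 * C)) * gr |t - t'| := by ring
      _ ≤ _ := mul_le_mul_of_nonneg_right (by linarith) hg

omit [SeaCU B] in
lemma two_Km (s : Bool → ℝ) (P' : ∀ a, SPath lo hi c C (ζ a) (ζ' a)) (a b' : Bool) :
    Measurable fun p : ℝ × ℝ => (two s ζ ζ' Fe).K a b' p.1 p.2 := by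
  simp only [two_K]
  by_cases hab : a = b'
  · simp only [hab, if_true]
    exact Up_meas Us_meas (P' b').continuous
  · simp only [hab, if_false]
    have h1 := (P' a).continuous.measurable
    have h2 := (P' b').continuous.measurable
    exact Ux_meas.comp ((h1.comp measurable_fst).sub (h2.comp measurable_snd))

omit [SeaCU B] in
lemma two_Km1 (s : Bool → ℝ) (P' : ∀ a, SPath lo hi c C (ζ a) (ζ' a)) (a b' : Bool) (t : ℝ) :
    Measurable fun t' : ℝ => (two s ζ ζ' Fe).K a b' t t' :=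
  Measurable.of_uncurry_left (f := fun t t' => (two s ζ ζ' Fe).K a b' t t') (two_Km B s P' a b')

lemma two_Bbd (s : Bool → ℝ) (S : Str B lo hi) (P' : ∀ a, SPath lo hi c C (ζ a) (ζ' a)) (a : Bool) :
    ∃ D : ℝ, ∀ t, ‖(two s ζ ζ' Fe).B a t‖ ≤ D * Real.exp (-(8 / 3) * |t|) := by
  obtain ⟨D, hD0, hD⟩ := rhoh_bd B (s a) S (P' a)
  obtain ⟨Cr, hCr0, hCr⟩ := rho_bd B (s a)
  refine ⟨D + Cr, fun t => ?_⟩
  rw [two_B]
  refine (norm_sub_le _ _).trans ?_
  rw [add_mul]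
  exact add_le_add (hD t) (hCr t)

lemma two_Bm (s : Bool → ℝ) (S : Str B lo hi) (P' : ∀ a, SPath lo hi c C (ζ a) (ζ' a)) (a : Bool) :
    Measurable fun t => (two s ζ ζ' Fe).B a t := by
  simp only [two_B]
  exact (rhoh_cont B (s a) S (P' a)).measurable.sub (rho_cont B (s a)).measurable

lemma two_i0' (s : Bool → ℝ) (a b' : Bool) (t : ℝ) :
    Integrable (fun t' => (if a = b' then Up Us ga t t' else Ux (ga t - ga t')) * ((s b' * P t' : ℝ) : ℂ)) ∧
    ∫ t', (if a = b' then Up Us ga t t' else Ux (ga t - ga t')) * ((s b' * P t' : ℝ) : ℂ) =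
      s b' * if a = b' then vs (ga t) else vx (ga t) := by
  by_cases hab : a = b'
  · simp only [hab, if_true]
    obtain ⟨h1, h2⟩ := conv_ga_s B t
    have e : (fun t' => Up Us ga t t' * ((s b' * P t' : ℝ) : ℂ)) =
        fun t' => (s b' : ℂ) * (Up Us ga t t' * (P t' : ℂ)) := by
      funext t'
      push_cast
      ring
    rw [e]
    exact ⟨h1.const_mul _, by rw [integral_const_mul, h2]⟩
  · simp only [hab, if_false]
    obtain ⟨h1, h2⟩ := conv_ga_x B t
    have e : (fun t' => Ux (ga t - ga t') * ((s b' * P t' : ℝ) : ℂ)) =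
        fun t' => (s b' : ℂ) * (Ux (ga t - ga t') * (P t' : ℂ)) := by
      funext t'
      push_cast
      ring
    rw [e]
    exact ⟨h1.const_mul _, by rw [integral_const_mul, h2]⟩

lemma two_i0 (s : Bool → ℝ) (a b' : Bool) (t : ℝ) :
    Integrable (fun t' => (two s ζ ζ' Fe).K0 a b' t t' * (two s ζ ζ' Fe).ρ b' t') ∧
    ∫ t', (two s ζ ζ' Fe).K0 a b' t t' * (two s ζ ζ' Fe).ρ b' t' =
      s b' * (if a = b' then vs (ga t) else vx (ga t)).re := by
  obtain ⟨h1, h2⟩ := two_i0' B s a b' t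
  have e : ∀ t', ((if a = b' then Up Us ga t t' else Ux (ga t - ga t')) * ((s b' * P t' : ℝ) : ℂ)).re =
      (two s ζ ζ' Fe).K0 a b' t t' * (two s ζ ζ' Fe).ρ b' t' := by
    intro t'
    rw [two_K0, two_rho, mul_comm _ ((s b' * P t' : ℝ) : ℂ), Complex.re_ofReal_mul]
    split_ifs <;> ring
  refine ⟨h1.re.congr (Eventually.of_forall e), ?_⟩
  have h3 : (∫ t', (if a = b' then Up Us ga t t' else Ux (ga t - ga t')) * ((s b' * P t' : ℝ) : ℂ)).re =
      ∫ t', ((if a = b' then Up Us ga t t' else Ux (ga t - ga t')) * ((s b' * P t' : ℝ) : ℂ)).re :=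
    (integral_re h1).symm
  rw [h2, Complex.re_ofReal_mul] at h3
  rw [h3]
  exact integral_congr_ae (Eventually.of_forall fun t' => (e t').symm)

lemma two_fe0 (s : Bool → ℝ) (a : Bool) (t : ℝ) :
    ∑ b', (∫ t', (two s ζ ζ' Fe).K0 a b' t t' * (two s ζ ζ' Fe).ρ b' t') = (vb s a (ga t)).re := by
  rw [Fintype.sum_bool, (two_i0 B s a true t).2, (two_i0 B s a false t).2]
  unfold vb
  rw [Complex.add_re, Complex.re_ofReal_mul, Complex.re_ofReal_mul]
  cases a
  · simp only [Bool.false_eq_true, if_false, if_true, Bool.not_false]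
    ring
  · simp only [Bool.true_eq_false, if_false, if_true, Bool.not_true]

lemma two_i1 (s : Bool → ℝ) (S : Str B lo hi) (P' : ∀ a, SPath lo hi c C (ζ a) (ζ' a)) (a b' : Bool) (t : ℝ) :
    Integrable fun t' => (two s ζ ζ' Fe).K a b' t t' * (two s ζ ζ' Fe).ρ b' t' := by
  obtain ⟨K, hK0, hK⟩ := two_Kbd (Fe := Fe) B s S P'
  obtain ⟨Cr, hCr0, hCr⟩ := rho_bd B (s b')
  simp only [two_rho]
  have h := ker_int (k := fun t' => (two s ζ ζ' Fe).K a b' t t') (f := fun t' => ((s b' * P t' : ℝ) : ℂ))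
    (κ := 8 / 3) (two_Km1 B s P' a b' t)
    (rho_cont B (s b')).measurable (by norm_num) (fun t' ht => hK a b' t t' ht) hCr
  exact h

lemma two_i2 (s : Bool → ℝ) (S : Str B lo hi) (P' : ∀ a, SPath lo hi c C (ζ a) (ζ' a)) (a b' : Bool) (t : ℝ) :
    Integrable fun t' => (two s ζ ζ' Fe).K a b' t t' * (two s ζ ζ' Fe).ρh b' t' := by
  obtain ⟨K, hK0, hK⟩ := two_Kbd (Fe := Fe) B s S P'
  obtain ⟨D, hD0, hD⟩ := rhoh_bd B (s b') S (P' b')
  simp only [two_rhoh]
  have h := ker_int (k := fun t' => (two s ζ ζ' Fe).K a b' t t')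
    (f := fun t' => (s b' : ℂ) * (Pc (ζ b' t') * ζ' b' t'))
    (κ := 8 / 3) (two_Km1 B s P' a b' t)
    (rhoh_cont B (s b') S (P' b')).measurable (by norm_num) (fun t' ht => hK a b' t t' ht) hD
  exact h

lemma two_fe (s : Bool → ℝ) (S : Str B lo hi) (P' : ∀ a, SPath lo hi c C (ζ a) (ζ' a)) (a : Bool) (t : ℝ) :
    ∑ b', (∫ t', (two s ζ ζ' Fe).K a b' t t' * (two s ζ ζ' Fe).ρh b' t') = vb s a (ζ a t) := by
  have hp := fun a => (P' a).weaken S.h1 S.h4
  have hs := (fe_s B (hp a) t).2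
  have hx : ∀ b', ∫ t', Ux (ζ a t - ζ b' t') * (Pc (ζ b' t') * ζ' b' t') = vx (ζ a t) :=
    fun b' => (fe_x B (hp b') ((hp a).im_ge t) ((hp a).im_le t)).2
  have hs' : ∀ r : ℝ, ∫ t', Up Us (ζ a) t t' * ((r : ℂ) * (Pc (ζ a t') * ζ' a t')) = r * vs (ζ a t) := by
    intro r
    rw [← hs, ← integral_const_mul]
    refine integral_congr_ae (Eventually.of_forall fun t' => ?_)
    simp only
    ring
  have hx' : ∀ (r : ℝ) (b' : Bool), ∫ t', Ux (ζ a t - ζ b' t') * ((r : ℂ) * (Pc (ζ b' t') * ζ' b' t')) =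
      r * vx (ζ a t) := by
    intro r b'
    rw [← hx b', ← integral_const_mul]
    refine integral_congr_ae (Eventually.of_forall fun t' => ?_)
    simp only
    ring
  simp only [two_K, two_rhoh]
  rw [Fintype.sum_bool]
  unfold vb
  cases a
  · simp only [Bool.false_eq_true, if_false, if_true, Bool.not_false]
    rw [hs', hx']
    ring
  · simp only [Bool.true_eq_false, if_false, if_true, Bool.not_true]
    rw [hs', hx']

lemma two_p1 (s : Bool → ℝ) (S : Str B lo hi) (P' : ∀ a, SPath lo hi c C (ζ a) (ζ' a)) (a b' : Bool) :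
    Integrable fun p : ℝ × ℝ => (two s ζ ζ' Fe).ρ a p.1 * (two s ζ ζ' Fe).K a b' p.1 p.2 *
      (two s ζ ζ' Fe).B b' p.2 := by
  obtain ⟨K, hK0, hK⟩ := two_Kbd (Fe := Fe) B s S P'
  obtain ⟨D, hD⟩ := two_Bbd (Fe := Fe) B s S P' b'
  obtain ⟨Cr, hCr0, hCr⟩ := rho_bd B (s a)
  have e83 : -(8 / 3 : ℝ) = -(2 * (4 / 3)) := by norm_num
  rw [e83] at hD hCr
  simp only [two_rho]
  have h := ker_int2 (k := fun p => (two s ζ ζ' Fe).K a b' p.1 p.2)
    (f1 := fun t => ((s a * P t : ℝ) : ℂ)) (f2 := fun t => (two s ζ ζ' Fe).B b' t) (κ := 4 / 3)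
    (two_Km B s P' a b')
    (rho_cont B (s a)).measurable (two_Bm B s S P' b') (by norm_num) (fun t t' ht => hK a b' t t' ht) hCr hD
  exact h

lemma two_p2 (s : Bool → ℝ) (S : Str B lo hi) (P' : ∀ a, SPath lo hi c C (ζ a) (ζ' a)) (a b' : Bool) :
    Integrable fun p : ℝ × ℝ => (two s ζ ζ' Fe).B a p.1 * (two s ζ ζ' Fe).K a b' p.1 p.2 *
      (two s ζ ζ' Fe).B b' p.2 := by
  obtain ⟨K, hK0, hK⟩ := two_Kbd (Fe := Fe) B s S P'
  obtain ⟨D, hD⟩ := two_Bbd (Fe := Fe) B s S P' b'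
  obtain ⟨D', hD'⟩ := two_Bbd (Fe := Fe) B s S P' a
  have e83 : -(8 / 3 : ℝ) = -(2 * (4 / 3)) := by norm_num
  rw [e83] at hD hD'
  exact ker_int2 (k := fun p => (two s ζ ζ' Fe).K a b' p.1 p.2) (κ := 4 / 3) (two_Km B s P' a b')
    (two_Bm B s S P' a) (two_Bm B s S P' b') (by norm_num) (fun t t' ht => hK a b' t t' ht) hD' hD

/-- `ρ v` of a species -/
lemma int_rvb (s : Bool → ℝ) (a : Bool) : Integrable fun t : ℝ => s a * P t * (vb s a (ga t)).re := by
  have hl := l_pos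
  have hh := B.h0
  have S : Str B (-B.h) (l / 4) := ⟨le_rfl, neg_le_neg B.dh', B.top_l4, le_rfl⟩
  have hi := int_rF B (s a) S (vb_ext B S s a)
  refine hi.re.congr (Eventually.of_forall fun t => ?_)
  show (((s a * P t : ℝ) : ℂ) * vb s a (ga t)).re = s a * P t * (vb s a (ga t)).re
  rw [Complex.re_ofReal_mul]

/-- **the two species gas satisfies the hypotheses of the abstract action identity** -/
theorem two_ok (s : Bool → ℝ) (S : Str B lo hi)
    (P' : ∀ a, SPath lo hi c C (ζ a) (ζ' a)) (hF : ∀ a, SExt lo hi (Fe a)) : (two s ζ ζ' Fe).Okr where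
  symm := two_symm s
  i0 a b t := (two_i0 B s a b t).1
  i1 := two_i1 B s S P'
  i2 := two_i2 B s S P'
  fe0 := two_fe0 B s
  fe := two_fe B s S P'
  p1 := two_p1 B s S P'
  p2 := two_p2 B s S P'
  j1 a := int_rvb B s a
  j2 a := int_rFh B (s a) (P' a) (vb_ext B S s a)
  j3 a := (cv_gen B (s a) S (P' a) (vb_ext B S s a)).1
  j4 a := int_rF B (s a) S (hF a)
  j5 a := int_rFh B (s a) (P' a) (hF a)
  j6 a := (cv_gen B (s a) S (P' a) (hF a)).1
  cv a := (congrArg Complex.re (cv_gen B (s a) S (P' a) (vb_ext B S s a)).2).trans (int_vb_re B s a)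
  cF a := (cv_gen B (s a) S (P' a) (hF a)).2

end

end

end PLT.Cv
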