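import Pool.Agent.PHK.FDef6
import Pool.Agent.PHK.PerH
import Pool.Agent.PHK.HolU6

/-!
# Sea on a curve: the functional of a class, complex displacements of the two species

The functionals of `PHK/FDef6`, `PHK/PerH`, `PHK/HolU6` with the curves of the two species given by
complex displacements `D s t` (point `ptC D s t = vl l t + I D s t`, derivative `D1 s t`).

* `ptC`, `gKC`, `qGC`, `norm_gKC`; `CrsC`; `trmC`, `FFC`, `trAC`, `FAC`, `GoodC`, `FFC_add`, `FFC_cmul`;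
* `qAC`, `Z1C`, `FncC`, `FnIC`, `gasIC`; `trEC`, `FEC`, `FEC_mono`, `FEC_holder`;
* `dF η`: the displacement of the curves of (P): `gKC_dF`, `trAC_dF`, .. (by definition).
-/

set_option autoImplicit false
set_option linter.unusedSectionVars false

noncomputable section

open Complex MeasureTheory Finset
open scoped ENNReal
open PLX (Fil)

namespace PLT

open NUO NUP1 NUP1S NUP1S.Ab NUP1S.AbC NUGC NUGC.PLX NUCR PHK
open PBF.PLX (gK Ins Crs pA_crv InsE pw holder_w const_split)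

variable {r : ℕ}

theorem enorm_inv_natCast (q : ℕ) (h : q ≠ 0) : ‖((q : ℕ) : ℂ)⁻¹‖ₑ = ((q : ℕ) : ℝ≥0∞)⁻¹ := by
  have h0 : ((q : ℕ) : ℂ) ≠ 0 := by exact_mod_cast h
  rw [enorm_inv h0]
  congr 1
  rw [← ofReal_norm, Complex.norm_natCast, ENNReal.ofReal_natCast]

theorem enorm_fac (a b : ℕ) : ‖((a.factorial : ℂ) * b.factorial)⁻¹‖ₑ =
    ((a.factorial : ℝ≥0∞) * b.factorial)⁻¹ := by
  have h := enorm_inv_natCast (a.factorial * b.factorial)
    (Nat.mul_ne_zero a.factorial_ne_zero b.factorial_ne_zero)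
  push_cast at h
  exact h

theorem enorm_pw {p : ℝ} (hp : 0 ≤ p) (Ψ : Ins) (r : ℕ) (O : Fin r → Xo) (a b : ℕ)
    (x : (Fin a → ℝ) × (Fin b → ℝ)) : ‖pw p Ψ r O a b x‖ₑ = ‖Ψ r O a b x‖ₑ ^ p := by
  unfold pw
  rw [← ofReal_norm, norm_real, Real.norm_of_nonneg (by positivity), ← ofReal_norm,
    ENNReal.ofReal_rpow_of_nonneg (norm_nonneg _) hp]

/-! ### the quanta on the curves -/

/-- curves of the two species depending on the configuration: complex displacements -/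
abbrev CrsC : Type := (r : ℕ) → (Fin r → Xo) → Bool → ℝ → ℂ

/-- the point of the curve of species `s` -/
def ptC (D : Bool → ℝ → ℂ) (s : Bool) (t : ℝ) : ℂ := vl NUP1.l t + I * D s t

/-- the integrand of `a` quanta X and `b` quanta Y on their curves -/
def gKC (G : Bool → ℂ → ℂ) (D D1 : Bool → ℝ → ℂ) (a b : ℕ) (x : (Fin a → ℝ) × (Fin b → ℝ)) : ℂ :=
  Fc p0 G (cCt a b (crvC true NUP1.l (D true) (D1 true)) (crvC false NUP1.l (D false) (D1 false)))
    (Sum.elim x.1 x.2)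

/-- one body factor of a quantum with a general one body function -/
def qGC (G : ℂ → ℂ) (P : Par6) (D : Bool → ℝ → ℂ) (O : Fin r → Xo) (s : Bool) (t : ℝ) : ℝ :=
  (2 * Real.pi)⁻¹ * ‖G (ptC D s t)‖ * ∏ i, potN6 P O i s (ptC D s t)

/-- modulus of the integrand of the quanta, general one body functions -/
theorem norm_gKC_gen (G : Bool → ℂ → ℂ) (D D1 : Bool → ℝ → ℂ) (a b : ℕ)
    (x : (Fin a → ℝ) × (Fin b → ℝ)) :
    ‖gKC G D D1 a b x‖ = NU42.WO (D true) (D1 true) (D false) (D1 false)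
      (fun t => (2 * Real.pi)⁻¹ * ‖G true (ptC D true t)‖)
      (fun t => (2 * Real.pi)⁻¹ * ‖G false (ptC D false t)‖) x.1 x.2 := by
  unfold gKC
  rw [norm_Fc]
  have hq : ∀ (s : Bool), (fun t => (2 * Real.pi)⁻¹ * ‖G s (ptC D s t)‖) =
      fun t => (2 * Real.pi)⁻¹ * ‖Wt p0 G s (vl NUP1.l t + I * D s t)‖ := by
    intro s
    funext t
    rw [Wt_p0]
    rfl
  rw [hq true, hq false, WO_smul]

theorem norm_gKC (Z : Bool → Option O3 → ℂ → ℂ) (P : Par6) (O : Fin r → Xo) (D D1 : Bool → ℝ → ℂ)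
    (a b : ℕ) (x : (Fin a → ℝ) × (Fin b → ℝ)) :
    ‖gKC (gF6 Z P O) D D1 a b x‖ = NU42.WO (D true) (D1 true) (D false) (D1 false)
      (qGC (Z true none) P D O true) (qGC (Z false none) P D O false) x.1 x.2 := by
  rw [norm_gKC_gen]
  have hq : ∀ s : Bool, qGC (Z s none) P D O s =
      fun t => (2 * Real.pi)⁻¹ * ‖gF6 Z P O s (ptC D s t)‖ := by
    intro s
    funext t
    unfold qGC gF6
    rw [norm_mul, norm_potO6]
    ring
  rw [hq true, hq false]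

/-! ### the functional -/

section

variable (Z : Bool → Option O3 → ℂ → ℂ) (P : Par6) (n n' : ℕ) (D D1 : CrsC)

/-- the term of a configuration -/
def trmC (Ψ : Ins) (r : ℕ) (O : Fin r → Xo) : ℂ :=
  if chgO6 O true ≤ n ∧ chgO6 O false ≤ n' ∧ cnt6 O then
    wK6 Z P O * ((((nA6 n O true).factorial : ℂ) * (nA6 n' O false).factorial)⁻¹ *
      ∫ x, gKC (gF6 Z P O) (D r O) (D1 r O) (nA6 n O true) (nA6 n' O false) x *
        Ψ r O (nA6 n O true) (nA6 n' O false) x)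
  else 0

/-- **the functional** -/
def FFC (Ψ : Ins) : ℂ :=
  ∑ r ∈ range (2 * (n + n') + 1), ((r.factorial : ℕ) : ℂ)⁻¹ *
    ∫ O : Fin r → Xo, trmC Z P n n' D D1 Ψ r O ∂(Measure.pi fun _ => nu)

/-- the modulus of the term of a configuration -/
def trAC (Ψ : Ins) (r : ℕ) (O : Fin r → Xo) : ℝ≥0∞ :=
  if chgO6 O true ≤ n ∧ chgO6 O false ≤ n' ∧ cnt6 O then
    ‖wK6 Z P O‖ₑ * ((((nA6 n O true).factorial : ℝ≥0∞) * (nA6 n' O false).factorial)⁻¹ *
      ∫⁻ x, ‖gKC (gF6 Z P O) (D r O) (D1 r O) (nA6 n O true) (nA6 n' O false) x‖ₑ *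
        ‖Ψ r O (nA6 n O true) (nA6 n' O false) x‖ₑ)
  else 0

/-- **the functional with moduli** -/
def FAC (Ψ : Ins) : ℝ≥0∞ :=
  ∑ r ∈ range (2 * (n + n') + 1), ((r.factorial : ℕ) : ℝ≥0∞)⁻¹ *
    ∫⁻ O : Fin r → Xo, trAC Z P n n' D D1 Ψ r O ∂(Measure.pi fun _ => nu)

variable {Z P n n' D D1}

theorem trmC_le (Ψ : Ins) (r : ℕ) (O : Fin r → Xo) :
    ‖trmC Z P n n' D D1 Ψ r O‖ₑ ≤ trAC Z P n n' D D1 Ψ r O := by
  unfold trmC trAC
  split_ifs
  · rw [enorm_mul, enorm_mul, enorm_fac]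
    refine mul_le_mul' le_rfl (mul_le_mul' le_rfl ?_)
    refine (enorm_integral_le_lintegral_enorm _).trans (le_of_eq ?_)
    exact lintegral_congr fun x => enorm_mul _ _
  · rw [enorm_zero]

/-- **the functional is bounded by the functional with moduli** -/
theorem FFC_le (Ψ : Ins) : ‖FFC Z P n n' D D1 Ψ‖ₑ ≤ FAC Z P n n' D D1 Ψ := by
  unfold FFC FAC
  refine (enorm_sum_le _ _).trans (Finset.sum_le_sum fun r _ => ?_)
  rw [enorm_mul, enorm_inv_natCast _ r.factorial_ne_zero]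
  refine mul_le_mul' le_rfl ((enorm_integral_le_lintegral_enorm _).trans ?_)
  exact lintegral_mono fun O => trmC_le Ψ r O

/-- `FAC` is monotone -/
theorem trAC_mono {Ψ Ψ' : Ins} (h : ∀ r O a b x, ‖Ψ r O a b x‖ₑ ≤ ‖Ψ' r O a b x‖ₑ) (r : ℕ)
    (O : Fin r → Xo) : trAC Z P n n' D D1 Ψ r O ≤ trAC Z P n n' D D1 Ψ' r O := by
  unfold trAC
  split_ifs
  · refine mul_le_mul' le_rfl (mul_le_mul' le_rfl (lintegral_mono fun x => ?_))
    exact mul_le_mul' le_rfl (h _ _ _ _ _)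
  · exact le_rfl

theorem FAC_mono {Ψ Ψ' : Ins} (h : ∀ r O a b x, ‖Ψ r O a b x‖ₑ ≤ ‖Ψ' r O a b x‖ₑ) :
    FAC Z P n n' D D1 Ψ ≤ FAC Z P n n' D D1 Ψ' := by
  unfold FAC
  exact Finset.sum_le_sum fun r _ => mul_le_mul' le_rfl (lintegral_mono fun O => trAC_mono h r O)

/-! ### admissible insertions -/

variable (Z P n n' D D1)

/-- **admissible insertions** -/
structure GoodC (Ψ : Ins) : Prop where
  /-- the integrand of the quanta -/
  mi : ∀ (r : ℕ) (O : Fin r → Xo), AEStronglyMeasurable (fun x =>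
    gKC (gF6 Z P O) (D r O) (D1 r O) (nA6 n O true) (nA6 n' O false) x *
      Ψ r O (nA6 n O true) (nA6 n' O false) x)
  /-- the terms -/
  mo : ∀ r : ℕ, AEStronglyMeasurable (fun O : Fin r → Xo => trmC Z P n n' D D1 Ψ r O)
    (Measure.pi fun _ => nu)
  /-- finite -/
  fin : FAC Z P n n' D D1 Ψ < ∞
  /-- the moduli are measurable -/
  ma : ∀ r : ℕ, AEMeasurable (fun O : Fin r → Xo => trAC Z P n n' D D1 Ψ r O)
    (Measure.pi fun _ => nu)

variable {Z P n n' D D1}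

theorem GoodC.lint {Ψ : Ins} (h : GoodC Z P n n' D D1 Ψ) {r : ℕ} (hr : r ≤ 2 * (n + n')) :
    ∫⁻ O : Fin r → Xo, trAC Z P n n' D D1 Ψ r O ∂(Measure.pi fun _ => nu) < ∞ := by
  have h1 := h.fin
  unfold FAC at h1
  rw [ENNReal.sum_lt_top] at h1
  have h2 := h1 r (Finset.mem_range.2 (by omega))
  by_contra hc
  rw [not_lt, top_le_iff] at hc
  rw [hc, ENNReal.mul_top] at h2
  · exact (lt_irrefl _ h2)
  · exact ENNReal.inv_ne_zero.2 (ENNReal.natCast_ne_top _)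

theorem GoodC.integrable {Ψ : Ins} (h : GoodC Z P n n' D D1 Ψ) {r : ℕ} (hr : r ≤ 2 * (n + n')) :
    Integrable (fun O : Fin r → Xo => trmC Z P n n' D D1 Ψ r O) (Measure.pi fun _ => nu) :=
  ⟨h.mo r, lt_of_le_of_lt (lintegral_mono fun O => trmC_le Ψ r O) (h.lint hr)⟩

theorem GoodC.ae {Ψ : Ins} (h : GoodC Z P n n' D D1 Ψ) {r : ℕ} (hr : r ≤ 2 * (n + n')) :
    ∀ᵐ O : Fin r → Xo ∂(Measure.pi fun _ => nu), trAC Z P n n' D D1 Ψ r O < ∞ :=
  ae_lt_top' (h.ma r) (h.lint hr).ne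

/-- for almost every configuration the weight vanishes or the integrand of the quanta is
integrable -/
theorem GoodC.inner {Ψ : Ins} (h : GoodC Z P n n' D D1 Ψ) {r : ℕ} {O : Fin r → Xo}
    (hO : trAC Z P n n' D D1 Ψ r O < ∞)
    (hc : chgO6 O true ≤ n ∧ chgO6 O false ≤ n' ∧ cnt6 O) (hw : wK6 Z P O ≠ 0) :
    Integrable (fun x =>
      gKC (gF6 Z P O) (D r O) (D1 r O) (nA6 n O true) (nA6 n' O false) x *
        Ψ r O (nA6 n O true) (nA6 n' O false) x) := by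
  refine ⟨h.mi r O, ?_⟩
  unfold trAC at hO
  rw [if_pos hc] at hO
  have e : ∀ x, ‖gKC (gF6 Z P O) (D r O) (D1 r O) (nA6 n O true) (nA6 n' O false) x *
      Ψ r O (nA6 n O true) (nA6 n' O false) x‖ₑ =
      ‖gKC (gF6 Z P O) (D r O) (D1 r O) (nA6 n O true) (nA6 n' O false) x‖ₑ *
        ‖Ψ r O (nA6 n O true) (nA6 n' O false) x‖ₑ := fun x => enorm_mul _ _
  show (∫⁻ x, ‖gKC (gF6 Z P O) (D r O) (D1 r O) (nA6 n O true) (nA6 n' O false) x *
      Ψ r O (nA6 n O true) (nA6 n' O false) x‖ₑ) < ∞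
  simp only [e]
  by_contra hc'
  rw [not_lt, top_le_iff] at hc'
  rw [hc', ENNReal.mul_top, ENNReal.mul_top] at hO
  · exact lt_irrefl _ hO
  · exact enorm_ne_zero.2 hw
  · refine ENNReal.inv_ne_zero.2 (ENNReal.mul_ne_top ?_ ?_)
    · exact ENNReal.natCast_ne_top _
    · exact ENNReal.natCast_ne_top _

theorem trmC_add {Ψ Ψ' : Ins} (h : GoodC Z P n n' D D1 Ψ) (h' : GoodC Z P n n' D D1 Ψ') {r : ℕ}
    {O : Fin r → Xo} (hO : trAC Z P n n' D D1 Ψ r O < ∞) (hO' : trAC Z P n n' D D1 Ψ' r O < ∞) :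
    trmC Z P n n' D D1 (Ψ + Ψ') r O =
      trmC Z P n n' D D1 Ψ r O + trmC Z P n n' D D1 Ψ' r O := by
  unfold trmC
  by_cases hc : chgO6 O true ≤ n ∧ chgO6 O false ≤ n' ∧ cnt6 O
  swap
  · simp only [if_neg hc, add_zero]
  simp only [if_pos hc]
  by_cases hw : wK6 Z P O = 0
  · simp [hw]
  rw [← mul_add, ← mul_add, ← integral_add (h.inner hO hc hw) (h'.inner hO' hc hw)]
  congr 3
  funext x
  simp only [Pi.add_apply]
  ring

theorem trAC_add_le (Ψ Ψ' : Ins) {r : ℕ} (O : Fin r → Xo)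
    (hm : AEStronglyMeasurable (fun x =>
      gKC (gF6 Z P O) (D r O) (D1 r O) (nA6 n O true) (nA6 n' O false) x *
        Ψ r O (nA6 n O true) (nA6 n' O false) x)) :
    trAC Z P n n' D D1 (Ψ + Ψ') r O ≤
      trAC Z P n n' D D1 Ψ r O + trAC Z P n n' D D1 Ψ' r O := by
  unfold trAC
  split_ifs
  · rw [← mul_add, ← mul_add]
    refine mul_le_mul' le_rfl (mul_le_mul' le_rfl ?_)
    have e : ∀ x, ‖gKC (gF6 Z P O) (D r O) (D1 r O) (nA6 n O true) (nA6 n' O false) x‖ₑ *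
        ‖Ψ r O (nA6 n O true) (nA6 n' O false) x‖ₑ =
        ‖gKC (gF6 Z P O) (D r O) (D1 r O) (nA6 n O true) (nA6 n' O false) x *
          Ψ r O (nA6 n O true) (nA6 n' O false) x‖ₑ := fun x => (enorm_mul _ _).symm
    simp only [e]
    rw [← lintegral_add_left' hm.enorm]
    refine lintegral_mono fun x => ?_
    rw [← enorm_mul, ← enorm_mul]
    simp only [Pi.add_apply]
    rw [mul_add]
    exact enorm_add_le _ _
  · simp

/-- **the functional is additive** -/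
theorem FFC_add {Ψ Ψ' : Ins} (h : GoodC Z P n n' D D1 Ψ) (h' : GoodC Z P n n' D D1 Ψ') :
    FFC Z P n n' D D1 (Ψ + Ψ') = FFC Z P n n' D D1 Ψ + FFC Z P n n' D D1 Ψ' := by
  unfold FFC
  rw [← Finset.sum_add_distrib]
  refine Finset.sum_congr rfl fun r hr => ?_
  have hr' : r ≤ 2 * (n + n') := by
    have := Finset.mem_range.1 hr
    omega
  rw [← mul_add, ← integral_add (h.integrable hr') (h'.integrable hr')]
  congr 1
  refine integral_congr_ae ?_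
  filter_upwards [h.ae hr', h'.ae hr'] with O hO hO'
  exact trmC_add h h' hO hO'

theorem trmC_cmul (c : ℂ) (Ψ : Ins) (r : ℕ) (O : Fin r → Xo) :
    trmC Z P n n' D D1 (fun r O a b x => c * Ψ r O a b x) r O =
      c * trmC Z P n n' D D1 Ψ r O := by
  unfold trmC
  split_ifs
  · have e : ∀ x, gKC (gF6 Z P O) (D r O) (D1 r O) (nA6 n O true) (nA6 n' O false) x *
        (c * Ψ r O (nA6 n O true) (nA6 n' O false) x) =
        c * (gKC (gF6 Z P O) (D r O) (D1 r O) (nA6 n O true) (nA6 n' O false) x *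
          Ψ r O (nA6 n O true) (nA6 n' O false) x) := fun x => by ring
    simp only [e]
    rw [integral_const_mul]
    ring
  · rw [mul_zero]

/-- **the functional is homogeneous** -/
theorem FFC_cmul (c : ℂ) (Ψ : Ins) :
    FFC Z P n n' D D1 (fun r O a b x => c * Ψ r O a b x) = c * FFC Z P n n' D D1 Ψ := by
  unfold FFC
  simp only [trmC_cmul, integral_const_mul]
  rw [Finset.mul_sum]
  exact Finset.sum_congr rfl fun r _ => by ring

/-! ### the positive gas -/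

/-- one body factor of a quantum of species `a` in the field of the objects -/
def qAC (B : OB) (P : Par6) (D : Bool → ℝ → ℂ) {r : ℕ} (O : Fin r → Xo) (a : Bool) (t : ℝ) : ℝ :=
  (2 * Real.pi)⁻¹ * (B.R a (ptC D a t) * ‖B.φ a (ptC D a t)‖) * ∏ i, potN6 P O i a (ptC D a t)

/-- the positive gas of `p` quanta X and `q` quanta Y on their curves -/
def Z1C (B : OB) (P : Par6) (D D1 : Bool → ℝ → ℂ) {r : ℕ} (O : Fin r → Xo) (p q : ℕ) : ℝ≥0∞ :=
  ((p.factorial : ℝ≥0∞) * q.factorial)⁻¹ * ∫⁻ x : (Fin p → ℝ) × (Fin q → ℝ),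
    ENNReal.ofReal (NU42.WO (D true) (D1 true) (D false) (D1 false) (qAC B P D O true)
      (qAC B P D O false) x.1 x.2)

/-- the term of the configuration `O` with `nX` quanta X and `nY` quanta Y -/
def FncC (B : OB) (P : Par6) (D D1 : Bool → ℝ → ℂ) (nX nY : ℕ) {r : ℕ} (O : Fin r → Xo) : ℝ≥0∞ :=
  if chgO6 O true ≤ nX ∧ chgO6 O false ≤ nY ∧ cnt6 O then
    ENNReal.ofReal (objWc6 B P O) * Z1C B P D D1 O (nA6 nX O true) (nA6 nY O false)
  else 0


/-- the term of the positive gas with the insertion `ψ` (modulus) -/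
def FnIC (B : OB) (P : Par6) (D D1 : Bool → ℝ → ℂ) (nX nY : ℕ) {r : ℕ} (O : Fin r → Xo)
    (ψ : (a b : ℕ) → (Fin a → ℝ) × (Fin b → ℝ) → ℝ≥0∞) : ℝ≥0∞ :=
  if chgO6 O true ≤ nX ∧ chgO6 O false ≤ nY ∧ cnt6 O then
    ENNReal.ofReal (objWc6 B P O) *
      ((((nA6 nX O true).factorial : ℝ≥0∞) * (nA6 nY O false).factorial)⁻¹ *
        ∫⁻ x : (Fin (nA6 nX O true) → ℝ) × (Fin (nA6 nY O false) → ℝ),
          ENNReal.ofReal (NU42.WO (D true) (D1 true) (D false) (D1 false) (qAC B P D O true)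
            (qAC B P D O false) x.1 x.2) * ψ (nA6 nX O true) (nA6 nY O false) x)
  else 0

theorem FnIC_one (B : OB) (P : Par6) (D D1 : Bool → ℝ → ℂ) (nX nY : ℕ) {r : ℕ} (O : Fin r → Xo) :
    FnIC B P D D1 nX nY O (fun _ _ _ => 1) = FncC B P D D1 nX nY O := by
  unfold FnIC FncC Z1C
  simp only [mul_one]

/-- insertions of the objects -/
theorem FnIC_obj (B : OB) (P : Par6) (D D1 : Bool → ℝ → ℂ) (nX nY : ℕ) {r : ℕ} (O : Fin r → Xo)
    {c : ℝ≥0∞} (hc : c ≠ ∞) :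
    FnIC B P D D1 nX nY O (fun _ _ _ => c) = c * FncC B P D D1 nX nY O := by
  unfold FnIC FncC Z1C
  split_ifs
  · rw [lintegral_mul_const' _ _ hc]
    ring
  · rw [mul_zero]

/-- the positive gas with the insertion `ψ` -/
def gasIC (B : OB) (P : Par6) (D D1 : Bool → ℝ → ℂ) {r : ℕ} (O : Fin r → Xo) (p q : ℕ)
    (ψ : (Fin p → ℝ) × (Fin q → ℝ) → ℝ≥0∞) : ℝ≥0∞ :=
  ((p.factorial : ℝ≥0∞) * q.factorial)⁻¹ * ∫⁻ x : (Fin p → ℝ) × (Fin q → ℝ),
    ENNReal.ofReal (NU42.WO (D true) (D1 true) (D false) (D1 false) (qAC B P D O true)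
      (qAC B P D O false) x.1 x.2) * ψ x

theorem gasIC_one (B : OB) (P : Par6) (D D1 : Bool → ℝ → ℂ) {r : ℕ} (O : Fin r → Xo) (p q : ℕ) :
    gasIC B P D D1 O p q (fun _ => 1) = Z1C B P D D1 O p q := by
  unfold gasIC Z1C
  simp only [mul_one]

theorem FnIC_eq (B : OB) (P : Par6) (D D1 : Bool → ℝ → ℂ) {nX nY : ℕ} {r : ℕ} (O : Fin r → Xo)
    (ψ : (a b : ℕ) → (Fin a → ℝ) × (Fin b → ℝ) → ℝ≥0∞)
    (hc : chgO6 O true ≤ nX ∧ chgO6 O false ≤ nY ∧ cnt6 O) :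
    FnIC B P D D1 nX nY O ψ = ENNReal.ofReal (objWc6 B P O) *
      gasIC B P D D1 O (nA6 nX O true) (nA6 nY O false) (ψ (nA6 nX O true) (nA6 nY O false)) := by
  unfold FnIC gasIC
  rw [if_pos hc]

theorem FnIC_zero (B : OB) (P : Par6) (D D1 : Bool → ℝ → ℂ) {nX nY : ℕ} {r : ℕ} (O : Fin r → Xo)
    (ψ : (a b : ℕ) → (Fin a → ℝ) × (Fin b → ℝ) → ℝ≥0∞)
    (hc : ¬ (chgO6 O true ≤ nX ∧ chgO6 O false ≤ nY ∧ cnt6 O)) :
    FnIC B P D D1 nX nY O ψ = 0 := by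
  unfold FnIC
  rw [if_neg hc]

/-! ### nonnegative insertions -/

section holder

variable (Z : Bool → Option O3 → ℂ → ℂ) (P : Par6) (n n' : ℕ) (D D1 : CrsC)

/-- the modulus of the term of a configuration, nonnegative insertion -/
def trEC (φ : InsE) (r : ℕ) (O : Fin r → Xo) : ℝ≥0∞ :=
  if chgO6 O true ≤ n ∧ chgO6 O false ≤ n' ∧ cnt6 O then
    ‖wK6 Z P O‖ₑ * ((((nA6 n O true).factorial : ℝ≥0∞) * (nA6 n' O false).factorial)⁻¹ *
      ∫⁻ x, ‖gKC (gF6 Z P O) (D r O) (D1 r O) (nA6 n O true) (nA6 n' O false) x‖ₑ *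
        φ r O (nA6 n O true) (nA6 n' O false) x)
  else 0

/-- the functional with moduli, nonnegative insertion -/
def FEC (φ : InsE) : ℝ≥0∞ :=
  ∑ r ∈ range (2 * (n + n') + 1), ((r.factorial : ℕ) : ℝ≥0∞)⁻¹ *
    ∫⁻ O : Fin r → Xo, trEC Z P n n' D D1 φ r O ∂(Measure.pi fun _ => nu)

/-- the integrand of the quanta is measurable for every configuration -/
def MGC : Prop := ∀ (r : ℕ) (O : Fin r → Xo), AEMeasurable fun x =>
  ‖gKC (gF6 Z P O) (D r O) (D1 r O) (nA6 n O true) (nA6 n' O false) x‖ₑ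

/-- measurability of a nonnegative insertion in the quanta -/
def MIC (φ : InsE) : Prop := ∀ (r : ℕ) (O : Fin r → Xo), AEMeasurable fun x =>
  φ r O (nA6 n O true) (nA6 n' O false) x

/-- measurability of the terms -/
def MOC (φ : InsE) : Prop := ∀ r : ℕ,
  AEMeasurable (fun O : Fin r → Xo => trEC Z P n n' D D1 φ r O) (Measure.pi fun _ => nu)

variable {Z P n n' D D1}

theorem FAC_eq_FEC (Ψ : Ins) :
    FAC Z P n n' D D1 Ψ = FEC Z P n n' D D1 (fun r O a b x => ‖Ψ r O a b x‖ₑ) := rfl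

theorem FEC_mono {φ ψ : InsE} (h : ∀ r O a b x, φ r O a b x ≤ ψ r O a b x) :
    FEC Z P n n' D D1 φ ≤ FEC Z P n n' D D1 ψ := by
  unfold FEC
  refine Finset.sum_le_sum fun r _ => mul_le_mul' le_rfl (lintegral_mono fun O => ?_)
  unfold trEC
  split_ifs
  · refine mul_le_mul' le_rfl (mul_le_mul' le_rfl (lintegral_mono fun x => ?_))
    exact mul_le_mul' le_rfl (h _ _ _ _ _)
  · exact le_rfl

theorem trEC_holder {p q : ℝ} (hpq : p.HolderConjugate q) (hG : MGC Z P n n' D D1) {φ ψ : InsE}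
    (hφ : MIC n n' φ) (hψ : MIC n n' ψ) (r : ℕ) (O : Fin r → Xo) :
    trEC Z P n n' D D1 (fun r O a b x => φ r O a b x * ψ r O a b x) r O ≤
      trEC Z P n n' D D1 (fun r O a b x => φ r O a b x ^ p) r O ^ (1 / p) *
        trEC Z P n n' D D1 (fun r O a b x => ψ r O a b x ^ q) r O ^ (1 / q) := by
  have hp := hpq.pos
  have hq := hpq.symm.pos
  unfold trEC
  split_ifs with hc
  · rw [← const_split hpq, ← const_split hpq]
    exact mul_le_mul' le_rfl (mul_le_mul' le_rfl (holder_w hpq (hG r O) (hφ r O) (hψ r O)))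
  · exact zero_le

/-- **Hölder** -/
theorem FEC_holder {p q : ℝ} (hpq : p.HolderConjugate q) (hG : MGC Z P n n' D D1) {φ ψ : InsE}
    (hφ : MIC n n' φ) (hψ : MIC n n' ψ)
    (hφo : MOC Z P n n' D D1 (fun r O a b x => φ r O a b x ^ p))
    (hψo : MOC Z P n n' D D1 (fun r O a b x => ψ r O a b x ^ q)) :
    FEC Z P n n' D D1 (fun r O a b x => φ r O a b x * ψ r O a b x) ≤
      FEC Z P n n' D D1 (fun r O a b x => φ r O a b x ^ p) ^ (1 / p) *
        FEC Z P n n' D D1 (fun r O a b x => ψ r O a b x ^ q) ^ (1 / q) := by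
  have hp := hpq.pos
  have hq := hpq.symm.pos
  have h1 : ∀ r : ℕ, ((r.factorial : ℕ) : ℝ≥0∞)⁻¹ *
      ∫⁻ O : Fin r → Xo, trEC Z P n n' D D1 (fun r O a b x => φ r O a b x * ψ r O a b x) r O
        ∂(Measure.pi fun _ => nu) ≤
      (((r.factorial : ℕ) : ℝ≥0∞)⁻¹ * ∫⁻ O : Fin r → Xo,
        trEC Z P n n' D D1 (fun r O a b x => φ r O a b x ^ p) r O ∂(Measure.pi fun _ => nu)) ^ (1 / p) *
      (((r.factorial : ℕ) : ℝ≥0∞)⁻¹ * ∫⁻ O : Fin r → Xo,
        trEC Z P n n' D D1 (fun r O a b x => ψ r O a b x ^ q) r O ∂(Measure.pi fun _ => nu)) ^ (1 / q) := by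
    intro r
    rw [← const_split hpq]
    refine mul_le_mul' le_rfl ((lintegral_mono fun O => trEC_holder hpq hG hφ hψ r O).trans ?_)
    have h2 := ENNReal.lintegral_mul_le_Lp_mul_Lq (Measure.pi fun _ : Fin r => nu) hpq
      ((hφo r).pow_const (1 / p)) ((hψo r).pow_const (1 / q))
    simp only [Pi.mul_apply, ← ENNReal.rpow_mul, one_div_mul_cancel hp.ne',
      one_div_mul_cancel hq.ne', ENNReal.rpow_one] at h2
    exact h2
  unfold FEC
  refine (Finset.sum_le_sum fun r _ => h1 r).trans ?_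
  have h3 := ENNReal.inner_le_Lp_mul_Lq (range (2 * (n + n') + 1))
    (fun r => (((r.factorial : ℕ) : ℝ≥0∞)⁻¹ * ∫⁻ O : Fin r → Xo,
        trEC Z P n n' D D1 (fun r O a b x => φ r O a b x ^ p) r O ∂(Measure.pi fun _ => nu)) ^ (1 / p))
    (fun r => (((r.factorial : ℕ) : ℝ≥0∞)⁻¹ * ∫⁻ O : Fin r → Xo,
        trEC Z P n n' D D1 (fun r O a b x => ψ r O a b x ^ q) r O ∂(Measure.pi fun _ => nu)) ^ (1 / q))
    hpq
  simp only [← ENNReal.rpow_mul, one_div_mul_cancel hp.ne', one_div_mul_cancel hq.ne',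
    ENNReal.rpow_one] at h3
  exact h3

/-- **Hölder for the functional with moduli** -/
theorem FAC_holder {p q : ℝ} (hpq : p.HolderConjugate q) (hG : MGC Z P n n' D D1) {Ψ Φ : Ins}
    (hφ : MIC n n' (fun r O a b x => ‖Ψ r O a b x‖ₑ)) (hψ : MIC n n' (fun r O a b x => ‖Φ r O a b x‖ₑ))
    (hφo : ∀ r : ℕ, AEMeasurable (fun O : Fin r → Xo => trAC Z P n n' D D1 (pw p Ψ) r O)
      (Measure.pi fun _ => nu))
    (hψo : ∀ r : ℕ, AEMeasurable (fun O : Fin r → Xo => trAC Z P n n' D D1 (pw q Φ) r O)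
      (Measure.pi fun _ => nu)) :
    FAC Z P n n' D D1 (fun r O a b x => Ψ r O a b x * Φ r O a b x) ≤
      FAC Z P n n' D D1 (pw p Ψ) ^ (1 / p) * FAC Z P n n' D D1 (pw q Φ) ^ (1 / q) := by
  have hp := hpq.pos
  have hq := hpq.symm.pos
  have e1 : (fun (r : ℕ) (O : Fin r → Xo) (a b : ℕ) (x : (Fin a → ℝ) × (Fin b → ℝ)) =>
      ‖pw p Ψ r O a b x‖ₑ) = fun r O a b x => ‖Ψ r O a b x‖ₑ ^ p := by
    funext r O a b x
    exact enorm_pw hp.le Ψ r O a b x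
  have e2 : (fun (r : ℕ) (O : Fin r → Xo) (a b : ℕ) (x : (Fin a → ℝ) × (Fin b → ℝ)) =>
      ‖pw q Φ r O a b x‖ₑ) = fun r O a b x => ‖Φ r O a b x‖ₑ ^ q := by
    funext r O a b x
    exact enorm_pw hq.le Φ r O a b x
  have e3 : (fun (r : ℕ) (O : Fin r → Xo) (a b : ℕ) (x : (Fin a → ℝ) × (Fin b → ℝ)) =>
      ‖Ψ r O a b x * Φ r O a b x‖ₑ) = fun r O a b x => ‖Ψ r O a b x‖ₑ * ‖Φ r O a b x‖ₑ := by
    funext r O a b x
    exact enorm_mul _ _
  rw [FAC_eq_FEC, FAC_eq_FEC, FAC_eq_FEC, e1, e2, e3]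
  refine FEC_holder hpq hG hφ hψ ?_ ?_
  · rw [← e1]
    exact hφo
  · rw [← e2]
    exact hψo

end holder

end

/-! ### the curves of (P) -/

section bridge

variable [Fil]

/-- the displacement of the curves of (P) -/
def dF (η : ℝ → ℝ) (s : Bool) : ℝ → ℂ := dA (Fil.cv s η)

theorem ptC_dF (η : ℝ → ℝ) (s : Bool) (t : ℝ) : ptC (dF η) s t = NUO.pA (Fil.cv s η) t := pA_crv _ _

theorem gKC_dF (G : Bool → ℂ → ℂ) (η η' : ℝ → ℝ) (a b : ℕ) (x : (Fin a → ℝ) × (Fin b → ℝ)) :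
    gKC G (dF η) (dF η') a b x = gK G η η' a b x := rfl

theorem FFC_dF (Z : Bool → Option O3 → ℂ → ℂ) (P : Par6) (n n' : ℕ) (η η' : Crs) (Ψ : Ins) :
    FFC Z P n n' (fun r O => dF (η r O)) (fun r O => dF (η' r O)) Ψ = FF6 Z P n n' η η' Ψ := rfl

theorem FAC_dF (Z : Bool → Option O3 → ℂ → ℂ) (P : Par6) (n n' : ℕ) (η η' : Crs) (Ψ : Ins) :
    FAC Z P n n' (fun r O => dF (η r O)) (fun r O => dF (η' r O)) Ψ = FA6 Z P n n' η η' Ψ := rfl

theorem FEC_dF (Z : Bool → Option O3 → ℂ → ℂ) (P : Par6) (n n' : ℕ) (η η' : Crs) (φ : InsE) :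
    FEC Z P n n' (fun r O => dF (η r O)) (fun r O => dF (η' r O)) φ = PBF.PLX.FE6 Z P n n' η η' φ := rfl

theorem qAC_dF (B : OB) (P : Par6) (η : ℝ → ℝ) (O : Fin r → Xo) (a : Bool) :
    qAC B P (dF η) O a = qA6 B P η O a := by
  funext t
  unfold qAC qA6
  rw [ptC_dF]

theorem gasIC_dF (B : OB) (P : Par6) (η η' : ℝ → ℝ) (O : Fin r → Xo) (p q : ℕ)
    (ψ : (Fin p → ℝ) × (Fin q → ℝ) → ℝ≥0∞) :
    gasIC B P (dF η) (dF η') O p q ψ = gasI6 B P η η' O p q ψ := by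
  unfold gasIC gasI6
  rw [qAC_dF, qAC_dF]
  rfl

end bridge

end PLT

end
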