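import Pool.Agent.PLT.CurS

/-!
# Clouds against `2 |t|`, uniformly in the offset and in the curve

* `h_near : x ≠ 0 → |h x y - 2 |x|| ≤ 2 + 2 g x`, `g = |log|` on `[-1, 1]`, integrable;
* `cloud_bd` : for every density `|r s| ≤ C e^(-κ|s|)` and every measurable offset `o s` (curve, straight
  line, own, cross): `|∫ r s h (t - s) (o s) - 2 |t| ∫ r| ≤ K`, `K = K (κ, C)`;
* `H_bd : |H t y - 2 |t|| ≤ K`, the same with `2 log cosh t`.
-/

set_option autoImplicit false

noncomputable section

open MeasureTheory Set Filter Topology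

namespace PLT

open NUMF (l l_pos)

namespace HBd

/-- the singular part: `|log |x||` for `|x| ≤ 1` -/
def g (x : ℝ) : ℝ := (Icc (-1 : ℝ) 1).indicator (fun u => |Real.log u|) x

theorem g_nonneg (x : ℝ) : 0 ≤ g x := indicator_nonneg (fun _ _ => abs_nonneg _) x

theorem g_meas : Measurable g := by
  unfold g
  exact (Real.measurable_log.norm).indicator measurableSet_Icc

theorem g_int : Integrable g := by
  have h2 : IntervalIntegrable Real.log volume (-1) 1 := intervalIntegral.intervalIntegrable_log'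
  have h3 : IntegrableOn Real.log (Icc (-1) 1) := by
    rw [integrableOn_Icc_iff_integrableOn_Ioc]
    exact (intervalIntegrable_iff_integrableOn_Ioc_of_le (by norm_num)).1 h2
  have h4 : IntegrableOn (fun u => |Real.log u|) (Icc (-1) 1) := h3.norm
  exact h4.integrable_indicator measurableSet_Icc

theorem h_up (x y : ℝ) : NUMF.h x y ≤ 2 * |x| + 1 := by
  have h2 := NUMF.arg_le x y
  rcases eq_or_lt_of_le (le_trans (by positivity : (0:ℝ) ≤ 2 * x ^ 2) (NUMF.arg_ge x y)) with h | h
  · unfold NUMF.h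
    rw [← h, Real.log_zero]
    positivity
  · unfold NUMF.h
    have h3 := Real.log_le_log h h2
    rw [Real.log_mul two_ne_zero (Real.exp_pos _).ne', Real.log_exp] at h3
    have := Real.log_two_lt_d9
    linarith

theorem h_lo {x : ℝ} (hx : x ≠ 0) (y : ℝ) : 2 * |x| - 2 - 2 * g x ≤ NUMF.h x y := by
  have hx2 : 0 < 2 * x ^ 2 := by positivity
  have l2 : 0 < Real.log 2 := Real.log_pos (by norm_num)
  rcases le_or_gt |x| 1 with h1 | h1
  · have hlo : Real.log 2 + 2 * Real.log x ≤ NUMF.h x y := by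
      unfold NUMF.h
      have := Real.log_le_log hx2 (NUMF.arg_ge x y)
      rw [Real.log_mul two_ne_zero (by positivity), Real.log_pow] at this
      push_cast at this
      linarith
    have hg : g x = |Real.log x| := by
      unfold g
      rw [indicator_of_mem]
      exact abs_le.1 h1
    rw [hg]
    have := neg_abs_le (Real.log x)
    linarith
  · have hg := g_nonneg x
    have hc : Real.exp (2 * |x|) * Real.exp (-2) ≤ Real.cosh (2 * x) + Real.cos (2 * y) := by
      rw [← Real.cosh_abs (2 * x), abs_mul, abs_two, Real.cosh_eq]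
      have e1 := Real.neg_one_le_cos (2 * y)
      have e2 := Real.exp_pos (-(2 * |x|))
      have e3 : (7 : ℝ) ≤ Real.exp (2 * |x|) := by
        have a1 : Real.exp 2 ≤ Real.exp (2 * |x|) := Real.exp_le_exp.2 (by linarith)
        have a2 : Real.exp 2 = Real.exp 1 * Real.exp 1 := by rw [← Real.exp_add]; norm_num
        have a3 := Real.exp_one_gt_d9
        nlinarith
      have e4 : Real.exp (-2) ≤ 1 / 7 := by
        rw [Real.exp_neg, ← one_div]
        have a2 : Real.exp 2 = Real.exp 1 * Real.exp 1 := by rw [← Real.exp_add]; norm_num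
        have a3 := Real.exp_one_gt_d9
        refine one_div_le_one_div_of_le (by norm_num) ?_
        nlinarith
      nlinarith [Real.exp_pos (-2)]
    have h0 : 0 < Real.exp (2 * |x|) * Real.exp (-2) := by positivity
    unfold NUMF.h
    have h3 := Real.log_le_log h0 hc
    rw [Real.log_mul (Real.exp_pos _).ne' (Real.exp_pos _).ne', Real.log_exp, Real.log_exp] at h3
    linarith

/-- **`h` against `2 |x|`** -/
theorem h_near {x : ℝ} (hx : x ≠ 0) (y : ℝ) : abs (NUMF.h x y - 2 * |x|) ≤ 2 + 2 * g x := by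
  have h1 := h_up x y
  have h2 := h_lo hx y
  have h3 := g_nonneg x
  rw [abs_le]
  constructor <;> linarith

theorem h_meas2 : Measurable fun p : ℝ × ℝ => NUMF.h p.1 p.2 := by
  unfold NUMF.h
  fun_prop

/-- **clouds**: the constant depends on `κ, C` only -/
theorem cloud_bd {κ C : ℝ} (hκ : 0 < κ) (hC : 0 ≤ C) : ∃ K : ℝ, 0 ≤ K ∧ ∀ r : ℝ → ℝ, Measurable r →
    (∀ s, |r s| ≤ C * Real.exp (-κ * |s|)) → ∀ o : ℝ → ℝ, Measurable o → ∀ t : ℝ,
    Integrable (fun s => r s * NUMF.h (t - s) (o s)) ∧
      abs ((∫ s, r s * NUMF.h (t - s) (o s)) - 2 * |t| * ∫ s, r s) ≤ K := by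
  have hE := NUMF.int_exp_abs hκ
  have hL := int_exp_lin hκ 1
  have hM : ∀ t, Integrable fun s : ℝ => C * 2 * (Real.exp (-κ * |s|) * (1 + |s|)) + C * 2 * g (t - s) :=
    fun t => (hL.const_mul _).add (((g_int.comp_sub_left t)).const_mul _)
  refine ⟨C * 2 * (∫ s : ℝ, Real.exp (-κ * |s|) * (1 + |s|)) + C * 2 * ∫ s, g s, ?_, ?_⟩
  · have h1 : 0 ≤ ∫ s : ℝ, Real.exp (-κ * |s|) * (1 + |s|) := integral_nonneg fun s => by positivity
    have h2 : 0 ≤ ∫ s, g s := integral_nonneg g_nonneg
    positivity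
  · intro r hr hb o ho t
    have hrI : Integrable r := (hE.const_mul C).mono' hr.aestronglyMeasurable
      (Eventually.of_forall fun s => by rw [Real.norm_eq_abs]; exact hb s)
    have hm : Measurable fun s => r s * NUMF.h (t - s) (o s) := by
      have := h_meas2.comp (show Measurable fun s : ℝ => (t - s, o s) by fun_prop)
      exact hr.mul this
    have hbd : ∀ᵐ s : ℝ, ‖r s * NUMF.h (t - s) (o s) - 2 * |t| * r s‖ ≤
        C * 2 * (Real.exp (-κ * |s|) * (1 + |s|)) + C * 2 * g (t - s) := by
      filter_upwards [NUMF.ae_ne t] with s hs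
      have h1 := h_near hs (o s)
      have h2 : abs (|t - s| - |t|) ≤ |s| := by
        have := abs_abs_sub_abs_le_abs_sub (t - s) t
        rwa [show t - s - t = -s by ring, abs_neg] at this
      have h3 : abs (NUMF.h (t - s) (o s) - 2 * |t|) ≤ 2 + 2 * g (t - s) + 2 * |s| := by
        rw [abs_le] at h1 h2 ⊢
        constructor <;> linarith [h1.1, h1.2, h2.1, h2.2]
      have h4 := hb s
      have h5 := g_nonneg (t - s)
      have h6 := abs_nonneg s
      rw [show r s * NUMF.h (t - s) (o s) - 2 * |t| * r s = r s * (NUMF.h (t - s) (o s) - 2 * |t|) by ring,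
        norm_mul, Real.norm_eq_abs, Real.norm_eq_abs]
      have h7 : Real.exp (-κ * |s|) ≤ 1 := by
        rw [Real.exp_le_one_iff]
        nlinarith
      calc |r s| * abs (NUMF.h (t - s) (o s) - 2 * |t|) ≤
            (C * Real.exp (-κ * |s|)) * (2 + 2 * g (t - s) + 2 * |s|) :=
            mul_le_mul h4 h3 (abs_nonneg _) (by positivity)
        _ = C * 2 * (Real.exp (-κ * |s|) * (1 + |s|)) + C * 2 * (Real.exp (-κ * |s|) * g (t - s)) := by ring
        _ ≤ _ := by
            have : Real.exp (-κ * |s|) * g (t - s) ≤ 1 * g (t - s) := mul_le_mul_of_nonneg_right h7 h5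
            have : C * 2 * (Real.exp (-κ * |s|) * g (t - s)) ≤ C * 2 * g (t - s) :=
              mul_le_mul_of_nonneg_left (by linarith) (by positivity)
            linarith
    have hI : Integrable fun s => r s * NUMF.h (t - s) (o s) - 2 * |t| * r s :=
      (hM t).mono' ((hm.sub (hr.const_mul _)).aestronglyMeasurable) hbd
    have hI2 : Integrable fun s => r s * NUMF.h (t - s) (o s) := by
      have := hI.add (hrI.const_mul (2 * |t|))
      refine this.congr (Eventually.of_forall fun s => ?_)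
      simp only [Pi.add_apply]
      ring
    refine ⟨hI2, ?_⟩
    have e : (∫ s, r s * NUMF.h (t - s) (o s)) - 2 * |t| * ∫ s, r s =
        ∫ s, (r s * NUMF.h (t - s) (o s) - 2 * |t| * r s) := by
      rw [integral_sub hI2 (hrI.const_mul _), integral_const_mul]
    rw [e, ← Real.norm_eq_abs]
    refine (norm_integral_le_of_norm_le (hM t) hbd).trans (le_of_eq ?_)
    rw [integral_add (hL.const_mul _) ((g_int.comp_sub_left t).const_mul _), integral_const_mul,
      integral_const_mul]
    congr 2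
    exact integral_sub_left_eq_self g volume t

/-- `2 log cosh t` against `2 |t|` -/
theorem logcosh_bd (t : ℝ) : abs (2 * Real.log (Real.cosh t) - 2 * |t|) ≤ 2 := by
  have hc := Real.cosh_pos t
  have h1 : Real.cosh t ≤ Real.exp |t| := by
    rw [← Real.cosh_abs t, Real.cosh_eq]
    have : Real.exp (-|t|) ≤ Real.exp |t| := Real.exp_le_exp.2 (by have := abs_nonneg t; linarith)
    linarith
  have h2 : Real.exp |t| / 2 ≤ Real.cosh t := by
    rw [← Real.cosh_abs t, Real.cosh_eq]
    have := Real.exp_pos (-|t|)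
    linarith
  have h3 := Real.log_le_log hc h1
  rw [Real.log_exp] at h3
  have h4 := Real.log_le_log (by positivity) h2
  rw [Real.log_div (Real.exp_pos _).ne' two_ne_zero, Real.log_exp] at h4
  have h5 := Real.log_two_lt_d9
  rw [abs_le]
  constructor <;> linarith

/-- **the averaged potential**: uniform in the offset -/
theorem H_bd : ∃ K : ℝ, 0 ≤ K ∧ ∀ t y : ℝ, abs (NUMF.H t y - 2 * |t|) ≤ K ∧
    abs (NUMF.H t y - 2 * Real.log (Real.cosh t)) ≤ K := by
  obtain ⟨K, hK, h⟩ := cloud_bd (κ := 8 / 3) (C := 32 / (3 * √3 * Real.pi)) (by norm_num) (by positivity)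
  refine ⟨K + 2, by linarith, fun t y => ?_⟩
  have h1 := (h NUMF.P NUMF.P_cont.measurable (fun s => by
    rw [abs_of_pos (NUMF.P_pos s)]
    exact NUMF.P_le s) (fun _ => y) measurable_const t).2
  rw [NUMF.integral_P, mul_one] at h1
  have h2 := logcosh_bd t
  change abs (NUMF.H t y - 2 * |t|) ≤ K at h1
  rw [abs_le] at h1 h2
  constructor
  · rw [abs_le]
    constructor <;> linarith [h1.1, h1.2]
  · rw [abs_le]
    constructor <;> linarith [h1.1, h1.2, h2.1, h2.2]

/-- the cloud of a density on a curve -/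
theorem curve_bd {κ C : ℝ} (hκ : 0 < κ) (hC : 0 ≤ C) : ∃ K : ℝ, 0 ≤ K ∧ ∀ r η : ℝ → ℝ, Dns κ C r →
    Continuous η → (∫ s, r s) = 1 → ∀ t y : ℝ, Integrable (fun s => r s * NUMF.h (t - s) (y - η s)) ∧
      abs ((∫ s, r s * NUMF.h (t - s) (y - η s)) - 2 * |t|) ≤ K ∧
      abs ((∫ s, r s * NUMF.h (t - s) (y - η s)) - 2 * Real.log (Real.cosh t)) ≤ K := by
  obtain ⟨K, hK, h⟩ := cloud_bd hκ hC
  refine ⟨K + 2, by linarith, fun r η hr hη h1 t y => ?_⟩
  obtain ⟨h2, h3⟩ := h r hr.cont.measurable hr.le (fun s => y - η s) (by fun_prop) t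
  rw [h1, mul_one] at h3
  have h4 := logcosh_bd t
  rw [abs_le] at h3 h4
  refine ⟨h2, ?_, ?_⟩
  · rw [abs_le]
    constructor <;> linarith [h3.1, h3.2]
  · rw [abs_le]
    constructor <;> linarith [h3.1, h3.2, h4.1, h4.2]

end HBd

end PLT

end
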