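import Pool.Agent.PLT.Strip
import Pool.Agent.NUAct.FE

/-!
# A sea on a static curve

* `SeaCB`: numbers; **`class SeaC`**: density `dens` (real, along the curve), its analytic function `densc`,
  the static curve `eta`, the fields `fs`, `fx`; **`class SeaCU B`**: all bounds, with the numbers of `B` only.
* `Cv.ga t = t + eta t I`, `Cv.ga' t = 1 + eta' t I`; `Pc (ga t) * ga' t = P t`.
* the curve: `- d ≤ eta ≤ 7/120 l`, `d ≤ h / 2`, no evenness, only the derivatives of `eta` decay;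
  `B.r = h / 2`: radius of the balls around the curve in the strip.
* the strip of the sea: `- h ≤ Im z ≤ l / 4`; **`Cv.fe_s`, `Cv.fe_x`**: the field equations on every path in it.

Every lemma with constants: `∃ C, ∀ [SeaC] [SeaCU B], ..`.
-/

set_option autoImplicit false
set_option linter.unusedSectionVars false
set_option linter.unusedVariables false

open MeasureTheory Set Filter Topology Complex
open scoped ContDiff

namespace PLT

open NUMF (l l_pos)
open NUAct (Us Ux ks kx gr Kern Up Us_kern Ux_gr ks_bd kx_bd ks_meas kx_cont ks_abs Ux_ofReal diff_Ux)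

noncomputable section

/-- numbers of a family of seas -/
structure SeaCB where
  /-- depth of the strip below the line -/
  h : ℝ
  /-- dip of the curve below the line -/
  d : ℝ
  /-- largest height of the curve -/
  top : ℝ
  /-- derivatives of the density -/
  Cb : ℕ → ℝ
  /-- derivatives of the curve -/
  Ce : ℕ → ℝ
  /-- lower bound of the density -/
  c0 : ℝ
  /-- growth of the fields -/
  K : ℝ
  h0 : 0 < h
  h1 : h ≤ l / 40
  d0 : 0 ≤ d
  dh : 2 * d ≤ h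
  dl : d ≤ l / 1000
  top0 : 0 ≤ top
  top1 : top ≤ 7 / 120 * l
  Cb0 : ∀ n, 0 ≤ Cb n
  Ce0 : ∀ n, 0 ≤ Ce n
  c0p : 0 < c0
  K0 : 0 ≤ K

/-- radius of the balls around the curve -/
def SeaCB.r (B : SeaCB) : ℝ := B.h / 2

lemma SeaCB.r0 (B : SeaCB) : 0 < B.r := by
  have := B.h0
  unfold SeaCB.r
  linarith

lemma SeaCB.rd (B : SeaCB) : B.r + B.d ≤ B.h := by
  have := B.dh
  unfold SeaCB.r
  linarith

lemma SeaCB.dh' (B : SeaCB) : B.d ≤ B.h := by
  have h1 := B.dh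
  have h2 := B.d0
  linarith

lemma SeaCB.rh (B : SeaCB) : B.r ≤ B.h := by
  have := B.h0
  unfold SeaCB.r
  linarith

lemma SeaCB.top_le (B : SeaCB) : B.top ≤ 3 / 50 * l := by
  have h1 := B.top1
  have h2 := l_pos
  linarith

lemma SeaCB.top_l4 (B : SeaCB) : B.top ≤ l / 4 := by
  have h1 := B.top1
  have h2 := l_pos
  linarith

/-- a sea on a static curve -/
class SeaC where
  /-- the density along the curve -/
  dens : ℝ → ℝ
  /-- the analytic density -/
  densc : ℂ → ℂ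
  /-- field of the own species -/
  fs : ℂ → ℂ
  /-- field of the other species -/
  fx : ℂ → ℂ
  /-- the static curve -/
  eta : ℝ → ℝ
  smooth : ContDiff ℝ ∞ eta
  eta_nn : ∀ t, -(l / 1000) ≤ eta t
  eta_le7 : ∀ t, eta t ≤ 7 / 120 * l
  eta'_le : ∀ t, |deriv eta t| ≤ 1 / 4
  real : ∀ t : ℝ, densc ((t : ℂ) + eta t * I) * (1 + deriv eta t * I) = (dens t : ℂ)
  mass : ∫ t, dens t = 1

/-- the bounds of a sea on a static curve -/
class SeaCU (B : SeaCB) [S : SeaC] : Prop where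
  diff : ∀ z : ℂ, -(2 * B.h) < z.im → z.im < l / 2 → DifferentiableAt ℂ S.densc z
  bd : ∀ (n : ℕ) (z : ℂ), -B.h ≤ z.im → z.im ≤ l / 4 →
    ‖iteratedDeriv n S.densc z‖ ≤ B.Cb n * Real.exp (-(8 / 3) * |z.re|)
  low : ∀ t : ℝ, B.c0 * Real.exp (-(8 / 3) * |t|) ≤ S.dens t
  eta_lo : ∀ t : ℝ, -B.d ≤ S.eta t
  eta_top : ∀ t : ℝ, S.eta t ≤ B.top
  cur : ∀ (n : ℕ) (t : ℝ), 1 ≤ n → |iteratedDeriv n S.eta t| ≤ B.Ce n * Real.exp (-(32 / 3) * |t|)
  fs_diff : ∀ z : ℂ, -(2 * B.h) < z.im → z.im < l / 2 → DifferentiableAt ℂ S.fs z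
  fx_diff : ∀ z : ℂ, -(2 * B.h) < z.im → z.im < l / 2 → DifferentiableAt ℂ S.fx z
  fs_gr : ∀ z : ℂ, -B.h ≤ z.im → z.im ≤ l / 4 → ‖S.fs z‖ ≤ B.K * (1 + |z.re|)
  fx_gr : ∀ z : ℂ, -B.h ≤ z.im → z.im ≤ l / 4 → ‖S.fx z‖ ≤ B.K * (1 + |z.re|)
  conv_s : ∀ z : ℂ, -B.h ≤ z.im → z.im ≤ l / 4 → ∫ u : ℝ, S.densc (z - u) * ks u = S.fs z
  conv_x : ∀ z : ℂ, -B.h ≤ z.im → z.im ≤ l / 4 → ∫ u : ℝ, S.densc (z - u) * kx u = S.fx z

namespace Cv

section

variable [X : SeaC]

/-- the density along the curve -/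
def P : ℝ → ℝ := X.dens

/-- the analytic density -/
def Pc : ℂ → ℂ := X.densc

/-- the static curve -/
def eta : ℝ → ℝ := X.eta

/-- field of the own species -/
def vs : ℂ → ℂ := X.fs

/-- field of the other species -/
def vx : ℂ → ℂ := X.fx

/-- the field of both species -/
def vc (z : ℂ) : ℂ := vs z + vx z

/-- the static curve in the plane -/
def ga (t : ℝ) : ℂ := (t : ℂ) + eta t * I

/-- the real part of the field on the curve -/
def v (t : ℝ) : ℝ := (vc (ga t)).re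

/-- its derivative -/
def ga' (t : ℝ) : ℂ := 1 + deriv eta t * I

lemma vc_eq (z : ℂ) : vc z = vs z + vx z := rfl

lemma eta_nn (t : ℝ) : -(l / 1000) ≤ eta t := X.eta_nn t

lemma eta_le7 (t : ℝ) : eta t ≤ 7 / 120 * l := X.eta_le7 t

lemma eta_le (t : ℝ) : eta t ≤ 3 / 50 * l := (eta_le7 t).trans (by have := l_pos; linarith)

lemma eta_abs (t : ℝ) : |eta t| ≤ 3 / 50 * l := by
  have h1 := eta_nn t
  have h2 := l_pos
  exact abs_le.2 ⟨by linarith, eta_le t⟩

lemma eta_abs1 (t : ℝ) : |eta t| ≤ 1 := by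
  refine (eta_abs t).trans ?_
  unfold NUMF.l
  have := Real.pi_le_four
  linarith

/-- the oscillation of the curve -/
lemma eta_osc3 (t u : ℝ) : |eta t - eta u| ≤ 3 / 50 * l := by
  have h1 := eta_nn t
  have h2 := eta_nn u
  have h3 := eta_le7 t
  have h4 := eta_le7 u
  have h5 := l_pos
  rw [abs_le]
  constructor <;> linarith

lemma eta'_le (t : ℝ) : |deriv eta t| ≤ 1 / 4 := X.eta'_le t

theorem P_mass : ∫ t, P t = 1 := X.mass

lemma eta_smooth : ContDiff ℝ ∞ eta := X.smooth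

lemma Pc_ga (t : ℝ) : Pc (ga t) * ga' t = (P t : ℂ) := X.real t

@[simp] lemma ga_re (t : ℝ) : (ga t).re = t := by simp [ga]

@[simp] lemma ga_im (t : ℝ) : (ga t).im = eta t := by simp [ga]

@[simp] lemma ga'_re (t : ℝ) : (ga' t).re = 1 := by simp [ga']

@[simp] lemma ga'_im (t : ℝ) : (ga' t).im = deriv eta t := by simp [ga']

lemma ga'_ne (t : ℝ) : ga' t ≠ 0 := by
  intro h
  have := congrArg Complex.re h
  simp at this

lemma hasDerivAt_eta (t : ℝ) : HasDerivAt eta (deriv eta t) t :=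
  (eta_smooth.differentiable (by simp) t).hasDerivAt

lemma hasDerivAt_ga (t : ℝ) : HasDerivAt ga (ga' t) t := by
  have h1 : HasDerivAt (fun t : ℝ => (t : ℂ)) 1 t := Complex.ofRealCLM.hasDerivAt
  exact h1.add ((hasDerivAt_eta t).ofReal_comp.mul_const I)

lemma continuous_eta : Continuous eta := eta_smooth.continuous

lemma continuous_eta' : Continuous (deriv eta) := eta_smooth.continuous_deriv (by simp)

lemma continuous_ga : Continuous ga := by
  unfold ga
  exact Complex.continuous_ofReal.add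
    ((Complex.continuous_ofReal.comp continuous_eta).mul continuous_const)

lemma continuous_ga' : Continuous ga' := by
  unfold ga'
  exact continuous_const.add
    ((Complex.continuous_ofReal.comp continuous_eta').mul continuous_const)

end

/-! ### uniform bounds -/

lemma strip_open (a b : ℝ) : IsOpen {z : ℂ | a < z.im ∧ z.im < b} :=
  (isOpen_lt continuous_const Complex.continuous_im).inter
    (isOpen_lt Complex.continuous_im continuous_const)

section

variable (B : SeaCB) [SeaC] [SeaCU B]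

include B

lemma eta_l4 (t : ℝ) : eta t ≤ l / 4 := (eta_le t).trans (by have := l_pos; linarith)

lemma eta_lo (t : ℝ) : -B.d ≤ eta t := SeaCU.eta_lo (B := B) t

lemma eta_top (t : ℝ) : eta t ≤ B.top := SeaCU.eta_top (B := B) t

lemma eta_h (t : ℝ) : -B.h ≤ eta t := by
  have h1 := eta_lo B t
  have h2 := B.dh
  have h3 := B.d0
  linarith

lemma Pc_diff {z : ℂ} (h1 : -(2 * B.h) < z.im) (h2 : z.im < l / 2) : DifferentiableAt ℂ Pc z :=
  SeaCU.diff (B := B) z h1 h2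

lemma Pc_diff' {z : ℂ} (h1 : -B.h ≤ z.im) (h2 : z.im ≤ l / 4) : DifferentiableAt ℂ Pc z :=
  Pc_diff B (by linarith [B.h0]) (by linarith [l_pos])

lemma diff_vs {z : ℂ} (h1 : -(2 * B.h) < z.im) (h2 : z.im < l / 2) : DifferentiableAt ℂ vs z :=
  SeaCU.fs_diff (B := B) z h1 h2

lemma diff_vx {z : ℂ} (h1 : -(2 * B.h) < z.im) (h2 : z.im < l / 2) : DifferentiableAt ℂ vx z :=
  SeaCU.fx_diff (B := B) z h1 h2

/-- `Pc` is analytic on the open strip -/
theorem Pc_analyticAt {z : ℂ} (h1 : -(2 * B.h) < z.im) (h2 : z.im < l / 2) : AnalyticAt ℂ Pc z := by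
  have hd : DifferentiableOn ℂ Pc {z : ℂ | -(2 * B.h) < z.im ∧ z.im < l / 2} := fun w hw =>
    (Pc_diff B hw.1 hw.2).differentiableWithinAt
  exact hd.analyticAt ((strip_open _ _).mem_nhds ⟨h1, h2⟩)

lemma an_iter (n : ℕ) : ∀ w : ℂ, -(2 * B.h) < w.im → w.im < l / 2 →
    AnalyticAt ℂ (iteratedDeriv n Pc) w := by
  induction n with
  | zero =>
    intro w h1 h2
    rw [iteratedDeriv_zero]
    exact Pc_analyticAt B h1 h2
  | succ n ih =>
    intro w h1 h2
    rw [iteratedDeriv_succ]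
    exact AnalyticAt.deriv (ih w h1 h2)

lemma hasDerivAt_iter (n : ℕ) {w : ℂ} (h1 : -(2 * B.h) < w.im) (h2 : w.im < l / 2) :
    HasDerivAt (iteratedDeriv n Pc) (iteratedDeriv (n + 1) Pc w) w := by
  have h3 := (an_iter B n w h1 h2).differentiableAt.hasDerivAt
  rwa [← iteratedDeriv_succ] at h3

lemma P_pos (t : ℝ) : 0 < P t :=
  lt_of_lt_of_le (mul_pos B.c0p (Real.exp_pos _)) (SeaCU.low (B := B) t)

end

theorem Pc_deriv_exp (B : SeaCB) (n : ℕ) : ∃ C : ℝ, 0 ≤ C ∧ ∀ [SeaC] [SeaCU B], ∀ z : ℂ,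
    -B.h ≤ z.im → z.im ≤ l / 4 → ‖iteratedDeriv n Pc z‖ ≤ C * Real.exp (-(8 / 3) * |z.re|) :=
  ⟨B.Cb n, B.Cb0 n, @fun _ hS => hS.bd n⟩

theorem le_P (B : SeaCB) : ∃ c : ℝ, 0 < c ∧ ∀ [SeaC] [SeaCU B], ∀ t : ℝ,
    c * Real.exp (-(8 / 3) * |t|) ≤ P t := ⟨B.c0, B.c0p, @fun _ hS => hS.low⟩

theorem eta_exp (B : SeaCB) (n : ℕ) [NeZero n] : ∃ C : ℝ, 0 ≤ C ∧ ∀ [SeaC] [SeaCU B], ∀ t : ℝ,
    |iteratedDeriv n eta t| ≤ C * Real.exp (-(32 / 3) * |t|) :=
  ⟨B.Ce n, B.Ce0 n, @fun _ hS t => hS.cur n t (Nat.one_le_iff_ne_zero.2 (NeZero.ne n))⟩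

theorem eta'_exp (B : SeaCB) : ∃ C : ℝ, 0 ≤ C ∧ ∀ [SeaC] [SeaCU B], ∀ t : ℝ,
    |deriv eta t| ≤ C * Real.exp (-(32 / 3) * |t|) := by
  obtain ⟨C, hC, H⟩ := eta_exp B 1
  refine ⟨C, hC, fun t => ?_⟩
  have := H t
  rwa [iteratedDeriv_one] at this

/-- the slope of the curve is bounded -/
theorem ga'_bd (B : SeaCB) : ∃ C : ℝ, 1 ≤ C ∧ ∀ [SeaC] [SeaCU B], ∀ t : ℝ, ‖ga' t‖ ≤ C := by
  obtain ⟨C, hC, H⟩ := eta'_exp B
  refine ⟨1 + C, by linarith, fun t => ?_⟩
  have h1 := H t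
  have h2 : Real.exp (-(32 / 3) * |t|) ≤ 1 := by
    rw [Real.exp_le_one_iff]
    have := abs_nonneg t
    linarith
  unfold ga'
  refine (norm_add_le _ _).trans ?_
  rw [norm_one, norm_mul, Complex.norm_I, mul_one, Complex.norm_real, Real.norm_eq_abs]
  have h3 : C * Real.exp (-(32 / 3) * |t|) ≤ C * 1 := mul_le_mul_of_nonneg_left h2 hC
  linarith

/-- the static curve is a path of its strip -/
theorem ga_path (B : SeaCB) : ∃ C : ℝ, 1 ≤ C ∧ ∀ [SeaC] [SeaCU B],
    SPath (-B.d) B.top 1 C ga ga' := by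
  obtain ⟨C, hC, H⟩ := ga'_bd B
  refine ⟨C, hC, @fun _ hS => ⟨hasDerivAt_ga, continuous_ga', fun t => ?_, fun t => ?_, H, one_pos,
    le_rfl, fun s t hst => ?_, fun t => ?_⟩⟩
  · rw [ga_im]; exact eta_lo B t
  · rw [ga_im]; exact eta_top B t
  · rw [Complex.sub_re, ga_re, ga_re]; linarith
  · have e : ga t - t = eta t * I := by unfold ga; ring
    rw [e, norm_mul, Complex.norm_I, mul_one, Complex.norm_real, Real.norm_eq_abs]
    exact (eta_abs1 t).trans hC

theorem P_le (B : SeaCB) : ∃ C : ℝ, 0 < C ∧ ∀ [SeaC] [SeaCU B], ∀ t : ℝ,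
    P t ≤ C * Real.exp (-(8 / 3) * |t|) := by
  obtain ⟨C, hC, h⟩ := Pc_deriv_exp B 0
  obtain ⟨C', hC', h'⟩ := ga'_bd B
  refine ⟨(C + 1) * C', by positivity, @fun _ hS t => ?_⟩
  have h1 := h (ga t) (by rw [ga_im]; exact eta_h B t) (by rw [ga_im]; exact eta_l4 B t)
  rw [iteratedDeriv_zero, ga_re] at h1
  have h2 := congrArg norm (Pc_ga t)
  rw [norm_mul, Complex.norm_real, Real.norm_eq_abs, abs_of_pos (P_pos B t)] at h2
  rw [← h2]
  have h3 := h' t
  have h4 := Real.exp_pos (-(8 / 3) * |t|)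
  calc ‖Pc (ga t)‖ * ‖ga' t‖ ≤ (C * Real.exp (-(8 / 3) * |t|)) * C' :=
        mul_le_mul h1 h3 (norm_nonneg _) (by positivity)
    _ = C * C' * Real.exp (-(8 / 3) * |t|) := by ring
    _ ≤ _ := by
        refine mul_le_mul_of_nonneg_right ?_ h4.le
        nlinarith

section

variable (B : SeaCB) [SeaC] [SeaCU B]

include B

lemma P_cont : Continuous P := by
  have hc : ContinuousOn Pc {w : ℂ | -(2 * B.h) < w.im ∧ w.im < l / 2} := fun w hw =>
    (Pc_diff B hw.1 hw.2).continuousAt.continuousWithinAt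
  have h1 : Continuous fun t : ℝ => (Pc (ga t) * ga' t).re := by
    refine Complex.continuous_re.comp ((hc.comp_continuous continuous_ga fun t => ?_).mul
      continuous_ga')
    have h1 := eta_h B t
    have h2 := eta_le t
    have h3 := l_pos
    have h4 := B.h0
    simp only [mem_ofPred_eq, ga_im]
    constructor <;> linarith
  refine h1.congr fun t => ?_
  rw [Pc_ga, Complex.ofReal_re]

theorem P_int : Integrable P := by
  obtain ⟨C, hC, h1⟩ := P_le B
  refine ((NUAct.int_exp_abs' (κ := 8 / 3) (by norm_num)).const_mul C).mono'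
    (P_cont B).aestronglyMeasurable (Eventually.of_forall fun t => ?_)
  rw [Real.norm_eq_abs, abs_of_pos (P_pos B t)]
  exact h1 t

end

/-- all derivatives of `Pc` are dominated by `P (Re z)` -/
theorem Pc_deriv_P (B : SeaCB) (n : ℕ) : ∃ C : ℝ, 0 ≤ C ∧ ∀ [SeaC] [SeaCU B], ∀ z : ℂ,
    -B.h ≤ z.im → z.im ≤ l / 4 → ‖iteratedDeriv n Pc z‖ ≤ C * P z.re := by
  obtain ⟨C, hC, h⟩ := Pc_deriv_exp B n
  obtain ⟨c, hc, h'⟩ := le_P B
  refine ⟨C / c, by positivity, @fun _ hS z h1 h2 => ?_⟩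
  calc ‖iteratedDeriv n Pc z‖ ≤ C * Real.exp (-(8 / 3) * |z.re|) := h z h1 h2
    _ = C / c * (c * Real.exp (-(8 / 3) * |z.re|)) := by field_simp
    _ ≤ _ := mul_le_mul_of_nonneg_left (h' _) (by positivity)

/-- exponential weights -/
theorem P_comp_exp (B : SeaCB) : ∃ c : ℝ, 0 < c ∧ ∀ [SeaC] [SeaCU B], ∀ t u : ℝ,
    c * (Real.exp (-(8 / 3) * |t - u|) * P u) ≤ P t := by
  obtain ⟨C, hC, h1⟩ := P_le B
  obtain ⟨c, hc, h2⟩ := le_P B
  refine ⟨c / C, by positivity, @fun _ hS t u => ?_⟩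
  have h3 : |t| ≤ |t - u| + |u| := by
    have := abs_add_le (t - u) u
    rwa [sub_add_cancel] at this
  have h4 : Real.exp (-(8 / 3) * |t - u|) * Real.exp (-(8 / 3) * |u|) ≤
      Real.exp (-(8 / 3) * |t|) := by
    rw [← Real.exp_add]
    exact Real.exp_le_exp.2 (by linarith)
  calc c / C * (Real.exp (-(8 / 3) * |t - u|) * P u) ≤
        c / C * (Real.exp (-(8 / 3) * |t - u|) * (C * Real.exp (-(8 / 3) * |u|))) := by
        gcongr
        exact h1 u
    _ = c * (Real.exp (-(8 / 3) * |t - u|) * Real.exp (-(8 / 3) * |u|)) := by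
        field_simp
    _ ≤ c * Real.exp (-(8 / 3) * |t|) := by gcongr
    _ ≤ _ := h2 t

theorem P_near (B : SeaCB) : ∃ C : ℝ, 0 < C ∧ ∀ [SeaC] [SeaCU B], ∀ t x : ℝ, |x - t| ≤ 1 →
    P x ≤ C * P t := by
  obtain ⟨c, hc, h⟩ := P_comp_exp B
  refine ⟨Real.exp (8 / 3) / c, by positivity, @fun _ hS t x hx => ?_⟩
  have h1 := h t x
  have h2 : Real.exp (-(8 / 3)) ≤ Real.exp (-(8 / 3) * |t - x|) := by
    refine Real.exp_le_exp.2 ?_
    rw [abs_sub_comm] at hx
    linarith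
  have h3 : c * (Real.exp (-(8 / 3)) * P x) ≤ P t := by
    refine le_trans ?_ h1
    have := (P_pos B x).le
    gcongr
  have h4 : Real.exp (8 / 3) * Real.exp (-(8 / 3)) = 1 := by
    rw [← Real.exp_add]; simp
  calc P x = Real.exp (8 / 3) * Real.exp (-(8 / 3)) * P x := by rw [h4, one_mul]
    _ = Real.exp (8 / 3) / c * (c * (Real.exp (-(8 / 3)) * P x)) := by
        field_simp
    _ ≤ _ := by gcongr

/-- the density is comparable with that of the rows at `0` -/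
theorem P_le_NUMF (B : SeaCB) : ∃ C : ℝ, 0 < C ∧ ∀ [SeaC] [SeaCU B], ∀ t : ℝ,
    P t ≤ C * NUMF.P t := by
  obtain ⟨C, hC, h⟩ := P_le B
  obtain ⟨c, hcd⟩ : ∃ c : ℝ, c = 4 / (√3 * Real.pi) := ⟨_, rfl⟩
  have hc : 0 < c := by
    rw [hcd]
    have := Real.pi_pos
    positivity
  have h' : ∀ t : ℝ, c * Real.exp (-(8 / 3) * |t|) ≤ NUMF.P t := fun t => by
    rw [hcd]
    exact NUMF.le_P t
  refine ⟨C / c, by positivity, @fun _ hS t => (h t).trans ?_⟩
  calc C * Real.exp (-(8 / 3) * |t|) = C / c * (c * Real.exp (-(8 / 3) * |t|)) := by field_simp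
    _ ≤ _ := mul_le_mul_of_nonneg_left (h' t) (by positivity)

/-! ### the field equations -/

lemma Pc_dec (B : SeaCB) : ∃ C : ℝ, 0 ≤ C ∧ ∀ [SeaC] [SeaCU B], SDec (-B.h) (l / 4) C (8 / 3) Pc := by
  obtain ⟨C, hC0, hC⟩ := Pc_deriv_exp B 0
  exact ⟨C, hC0, @fun _ hS => ⟨fun z h1 h2 => Pc_diff' B h1 h2,
    fun z h1 h2 => by simpa using hC z h1 h2⟩⟩

section

variable (B : SeaCB) [SeaC] [SeaCU B]

include B

lemma horiz_s {z : ℂ} (h1 : -B.h ≤ z.im) (h2 : z.im ≤ l / 4) :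
    ∫ u : ℝ, Pc (z - u) * ks u = vs z := SeaCU.conv_s (B := B) z h1 h2

lemma horiz_x {z : ℂ} (h1 : -B.h ≤ z.im) (h2 : z.im ≤ l / 4) :
    ∫ u : ℝ, Pc (z - u) * kx u = vx z := SeaCU.conv_x (B := B) z h1 h2

variable {c B' : ℝ} {ζ ζ' : ℝ → ℂ}

/-- **the field equation, same species** -/
theorem fe_s (P' : SPath (-B.h) (l / 4) c B' ζ ζ') (t : ℝ) :
    Integrable (fun t' => Up Us ζ t t' * (Pc (ζ t') * ζ' t')) ∧
      ∫ t', Up Us ζ t t' * (Pc (ζ t') * ζ' t') = vs (ζ t) := by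
  have hl := l_pos
  have hh := B.h0
  have hh1 := B.h1
  obtain ⟨K, hK⟩ := Us_kern
  obtain ⟨C, hC0, hC⟩ := Pc_dec B
  obtain ⟨i1, i2, i3, e⟩ := sing_shift (κ := 8 / 3) (by norm_num) hC (by linarith) hK P' t
  have hcomm : (fun t' => Up Us ζ t t' * (Pc (ζ t') * ζ' t')) =
      fun t' => Pc (ζ t') * ζ' t' * Up Us ζ t t' := by
    funext t'
    ring
  rw [hcomm]
  refine ⟨i1, ?_⟩
  rw [e, ← horiz_s B (P'.im_ge t) (P'.im_le t)]
  -- split the line
  have e1 : (fun u : ℝ => Pc (ζ t + u) * Us u) =ᵐ[volume.restrict (Ioi 0)]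
      fun u : ℝ => Pc (ζ t - ((-u : ℝ) : ℂ)) * ks (-u) := by
    filter_upwards [ae_restrict_mem measurableSet_Ioi] with u hu
    have hu' : (0:ℝ) < u := hu
    have h2 : ks (-u) = Us u := by
      rw [ks_abs (neg_ne_zero.2 hu'.ne'), abs_neg, abs_of_pos hu']
    rw [h2, Complex.ofReal_neg, sub_neg_eq_add]
  have e2 : (fun u : ℝ => Pc (ζ t - u) * Us u) =ᵐ[volume.restrict (Ioi 0)]
      fun u : ℝ => Pc (ζ t - u) * ks u := by
    filter_upwards [ae_restrict_mem measurableSet_Ioi] with u hu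
    have hu' : (0:ℝ) < u := hu
    have h2 : ks u = Us u := by
      rw [ks_abs hu'.ne', abs_of_pos hu']
    rw [h2]
  have j2 : IntegrableOn (fun u : ℝ => Pc (ζ t - u) * ks u) (Ioi 0) := i3.congr e2
  have j1 : IntegrableOn (fun u : ℝ => Pc (ζ t - u) * ks u) (Iio 0) := by
    have h1 : IntegrableOn (fun u : ℝ => Pc (ζ t - ((-u : ℝ) : ℂ)) * ks (-u)) (Ioi 0) :=
      i2.congr e1
    have h2 := (Measure.measurePreserving_neg (volume : Measure ℝ)).integrableOn_comp_preimage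
      (Homeomorph.neg ℝ).measurableEmbedding (f := fun u : ℝ => Pc (ζ t - u) * ks u) (s := Iio 0)
    have h3 : (Neg.neg : ℝ → ℝ) ⁻¹' Iio 0 = Ioi 0 := by
      ext u
      simp
    rw [h3] at h2
    exact h2.1 h1
  have j1' : IntegrableOn (fun u : ℝ => Pc (ζ t - u) * ks u) (Iic 0) := by
    rw [integrableOn_Iic_iff_integrableOn_Iio]
    exact j1
  rw [← intervalIntegral.integral_Iic_add_Ioi j1' j2 (b := 0), integral_congr_ae e1,
    integral_congr_ae e2]
  congr 1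
  have h1 := integral_comp_neg_Ioi (0:ℝ) (fun u : ℝ => Pc (ζ t - u) * ks u)
  rw [neg_zero] at h1
  exact h1

/-- **the field equation, other species** -/
theorem fe_x (P' : SPath (-B.h) (l / 4) c B' ζ ζ') {z : ℂ} (h1 : -B.h ≤ z.im) (h2 : z.im ≤ l / 4) :
    Integrable (fun t' => Ux (z - ζ t') * (Pc (ζ t') * ζ' t')) ∧
      ∫ t', Ux (z - ζ t') * (Pc (ζ t') * ζ' t') = vx z := by
  have hl := l_pos
  have hh := B.h0
  have hh1 := B.h1
  obtain ⟨K, hK0, hK⟩ := Ux_gr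
  obtain ⟨C, hC0, hC⟩ := Pc_dec B
  -- the integrand as a function of the second point
  have D : SDec (-B.h) (l / 4) (C * (K * (2 + |z.re|))) (5 / 3) (fun w' => Pc w' * Ux (z - w')) := by
    have him : ∀ w' : ℂ, -B.h ≤ w'.im → w'.im ≤ l / 4 → |(z - w').im| ≤ l / 2 := by
      intro w' g1 g2
      rw [Complex.sub_im, abs_le]
      constructor <;> linarith
    refine ⟨fun w' g1 g2 => ?_, fun w' g1 g2 => ?_⟩
    · refine (hC.diff w' g1 g2).mul ?_
      exact (diff_Ux (lt_of_le_of_lt (him w' g1 g2) (by linarith))).comp w'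
        ((differentiableAt_const _).sub differentiableAt_id)
    · rw [norm_mul]
      have h2 := hK _ (him w' g1 g2)
      have h3 : |(z - w').re| ≤ |z.re| + |w'.re| := by
        rw [Complex.sub_re]
        exact abs_sub _ _
      have h4 : 1 + |(z - w').re| ≤ (2 + |z.re|) * Real.exp |w'.re| := by
        have h5 := Real.add_one_le_exp |w'.re|
        have h6 := abs_nonneg z.re
        have h7 := abs_nonneg w'.re
        nlinarith
      have h8 : Real.exp (-(5 / 3) * |w'.re|) = Real.exp (-(8 / 3) * |w'.re|) * Real.exp |w'.re| := by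
        rw [← Real.exp_add]; congr 1; ring
      calc ‖Pc w'‖ * ‖Ux (z - w')‖ ≤ (C * Real.exp (-(8 / 3) * |w'.re|)) *
            (K * ((2 + |z.re|) * Real.exp |w'.re|)) :=
            mul_le_mul (hC.bd w' g1 g2) (h2.trans (mul_le_mul_of_nonneg_left h4 hK0)) (norm_nonneg _)
              (by positivity)
        _ = _ := by rw [h8]; ring
  have Q := hline (lo := -B.h) (hi := l / 4) h1 h2
  obtain ⟨i1, -, -⟩ := P'.shift (by norm_num) D
  have e := P'.shift2 Q (by norm_num) D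
  have hcomm : (fun t' => Ux (z - ζ t') * (Pc (ζ t') * ζ' t')) =
      fun t' => Pc (ζ t') * Ux (z - ζ t') * ζ' t' := by
    funext t'
    ring
  rw [hcomm]
  refine ⟨i1, ?_⟩
  rw [e, ← horiz_x B h1 h2]
  have h3 := integral_sub_left_eq_self (fun u : ℝ => Pc (z - u) * kx u) volume z.re
  rw [← h3]
  refine integral_congr_ae (Eventually.of_forall fun u => ?_)
  simp only
  have h4 : z - ((z.re - u : ℝ) : ℂ) = (u : ℂ) + z.im * I := by
    apply Complex.ext <;> simp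
  have h5 : z - ((u : ℂ) + z.im * I) = ((z.re - u : ℝ) : ℂ) := by
    apply Complex.ext <;> simp
  rw [h4, h5, mul_one]
  unfold kx
  rw [Ux_ofReal]

end

end Cv

end

end PLT
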