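import Pool.Agent.PLT.ObC
import Pool.Agent.PLT.SeaC
import Pool.Agent.PLT.HBd
import Pool.Agent.PLT.FDefC
import Pool.Agent.PHK.OneB
import Pool.Agent.PHK.MfS

/-!
# Clouds of the objects over a sea on a static curve

Twin of `PHK/OneB` (and of `PLX/NUSea/OOneB`, `NUSea/Clo`) over `PLT.SeaC`: the quantum of the sea at
height `t` is at `vl (l - eta t) t`.

* `Cv.clP`, `Cv.clX`, `Cv.clo s a j τ`: clouds of a quantum at offset `j`, height `τ`; integrability for
  EVERY offset (`int_lqC`, `int_lqgC`); **`clo_bd`**: `|clP - 2 |τ|| ≤ K`, `|clX + 2 |τ|| ≤ K`;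
* `Cv.mfo6 s B`, `Cv.Cloud6C s B v`; **`Cv.cloud6C`** for every list, `Cv.mfo6C_eq`, `Cv.mfo6C_parts`;
* **`Cv.mfo6C_clK`**: `mfo6 s (parts6 P x) = clK (clo s) P x`;
* `Cv.log_part0C`, `Cv.log_partC`, `Cv.log_offXC`: the logarithm over the quanta at the point of the
  curve; `Cv.ptC_cv`.
-/

set_option autoImplicit false
set_option linter.unusedSectionVars false

noncomputable section

open Complex MeasureTheory Set

namespace PLT

namespace Cv

open NUP1
open NUO hiding Cloud clo mfo vl_re vl_im posS_eq posT_eq posL_eq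
open PHK hiding mfo6

/-! ### the point of the curve, by translation -/

/-- signed constituents, moved to the right by `y` -/
def shL (y : ℝ) (L : List Part6) : List Part6 := L.map fun b => ((b.1.1, b.1.2.1, b.1.2.2 + y), b.2)

theorem off_shift (w : ℂ) (y : ℝ) : off (w + y) = off w - y / NUMF.l := by
  have hl : NUMF.l ≠ 0 := NUMF.l_pos.ne'
  unfold off
  rw [add_re, ofReal_re]
  field_simp
  ring

theorem vl_curve (y t : ℝ) (w : ℂ) : vl (l - y) t - w = vl l t - (w + y) := by
  unfold vl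
  push_cast
  ring

theorem ppN_shift (a : Bool) (y t : ℝ) (b : Bool × Bool × ℂ) :
    ppN [(a, false, vl (l - y) t)] [b] = ppN [(a, false, vl l t)] [(b.1, b.2.1, b.2.2 + y)] := by
  obtain ⟨σ, ty, w⟩ := b
  rw [ppN_single, ppN_single, List.map_singleton, List.map_singleton, List.prod_singleton,
    List.prod_singleton, pp_false, pp_false, vl_curve]

theorem ppN6_shift (a : Bool) (y t : ℝ) (L : List Part6) :
    ppN6 [((a, false, vl (l - y) t), 1)] L = ppN6 [((a, false, vl l t), 1)] (shL y L) := by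
  induction L with
  | nil => rfl
  | cons b L ih =>
    have e : shL y (b :: L) = ((b.1.1, b.1.2.1, b.1.2.2 + (y : ℂ)), b.2) :: shL y L := rfl
    rw [e, ppN6_q_cons, ppN6_q_cons, ih, ppN_shift]

theorem offs_shift (y : ℝ) (b : Bool × Bool × ℂ) :
    offs (b.1, b.2.1, b.2.2 + (y : ℂ)) = (offs b).map fun p => (p.1 - y / NUMF.l, p.2) := by
  obtain ⟨σ, ty, w⟩ := b
  cases ty
  · simp only [offs_q, List.map_singleton, off_shift, add_im, ofReal_im, add_zero]
  · simp only [offs_s, List.map_cons, List.map_nil, off_shift, add_im, ofReal_im, add_zero]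
    rw [show off w - y / NUMF.l + 1 = off w + 1 - y / NUMF.l by ring]

theorem offX6_shift (y : ℝ) (L : List Part6) :
    offX6 (shL y L) = (offX6 L).map fun p => ((p.1.1, p.1.2.1 - y / NUMF.l, p.1.2.2), p.2) := by
  induction L with
  | nil => rfl
  | cons b L ih =>
    have e : shL y (b :: L) = ((b.1.1, b.1.2.1, b.1.2.2 + (y : ℂ)), b.2) :: shL y L := rfl
    rw [e, offX6_cons, offX6_cons, ih, List.map_append]
    congr 1
    simp only
    rw [offs_shift, List.map_map, List.map_map]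
    rfl

/-- **the logarithm over the quanta at a point `vl (l - y) t`**, at all heights different from those of
the constituents: offsets `j - y / l` -/
theorem log_offX (a : Bool) (L : List Part6) (y t : ℝ) (ht : ∀ b ∈ L, t ≠ b.1.2.2.im) :
    ppN6 [((a, false, vl (l - y) t), 1)] L ≠ 0 ∧
    Real.log (ppN6 [((a, false, vl (l - y) t), 1)] L) = ((offX6 L).map fun p => (p.2 : ℝ) *
        if a = p.1.1 then NUMF.lq (p.1.2.1 - y / NUMF.l) (p.1.2.2 - t)
        else NUMF.lqg (p.1.2.1 - y / NUMF.l) (p.1.2.2 - t)).sum := by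
  have h := @log_ppN6_offX NUSea.seaP a (shL y L) t (by
    intro b hb
    obtain ⟨c, hc, rfl⟩ := List.mem_map.1 hb
    simpa using ht c hc)
  rw [← ppN6_shift, offX6_shift, List.map_map] at h
  exact h

/-- one constituent -/
theorem log_part (a : Bool) (b : Bool × Bool × ℂ) (y t : ℝ) (ht : t ≠ b.2.2.im) :
    ppN [(a, false, vl (l - y) t)] [b] ≠ 0 ∧ Real.log (ppN [(a, false, vl (l - y) t)] [b]) =
      ((offs b).map fun p => if a = b.1 then NUMF.lq (p.1 - y / NUMF.l) (p.2 - t)
        else NUMF.lqg (p.1 - y / NUMF.l) (p.2 - t)).sum := by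
  have h := @PHK.log_part NUSea.seaP a (b.1, b.2.1, b.2.2 + (y : ℂ)) t (by simpa using ht)
  rw [← ppN_shift, offs_shift, List.map_map] at h
  exact h

/-- a constituent at offset `j`, height `τ` -/
theorem log_part0 (a σ ty : Bool) (j τ y t : ℝ) (ht : t ≠ τ) :
    ppN [(a, false, vl (l - y) t)] [(σ, ty, vl ((1 - j) * l) τ)] ≠ 0 ∧
    Real.log (ppN [(a, false, vl (l - y) t)] [(σ, ty, vl ((1 - j) * l) τ)]) =
      if ty = true then
        (if a = σ then NUMF.lq (j - y / NUMF.l) (τ - t) else NUMF.lqg (j - y / NUMF.l) (τ - t)) +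
          (if a = σ then NUMF.lq (j + 1 - y / NUMF.l) (τ - t)
            else NUMF.lqg (j + 1 - y / NUMF.l) (τ - t))
      else if a = σ then NUMF.lq (j - y / NUMF.l) (τ - t) else NUMF.lqg (j - y / NUMF.l) (τ - t) := by
  have h := @PHK.log_part0 NUSea.seaP a σ ty (j - y / NUMF.l) τ t ht
  have hl : (NUMF.l : ℂ) ≠ 0 := by exact_mod_cast NUMF.l_pos.ne'
  have e : vl ((1 - (j - y / NUMF.l)) * l) τ = vl ((1 - j) * l) τ + y := by
    unfold vl
    rw [show (NUP1.l : ℝ) = NUMF.l from rfl]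
    push_cast
    field_simp
    ring
  have e2 := ppN_shift a y t (σ, ty, vl ((1 - j) * l) τ)
  rw [e] at h
  rw [e2]
  rw [show j + 1 - y / NUMF.l = j - y / NUMF.l + 1 by ring]
  exact h

/-! ### the clouds -/

section

variable [SeaC]

/-- own cloud of a quantum at offset `j`, height `τ` -/
def clP (j τ : ℝ) : ℝ := ∫ t, P t * NUMF.lq (j - eta t / NUMF.l) (τ - t)

/-- cross cloud of a quantum at offset `j`, height `τ` -/
def clX (j τ : ℝ) : ℝ := ∫ t, P t * NUMF.lqg (j - eta t / NUMF.l) (τ - t)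

/-- the cloud of a quantum of species `a` at offset `j`, height `τ` -/
def clo (s : Bool → ℝ) (a : Bool) (j τ : ℝ) : ℝ := s a * clP j τ + s (!a) * clX j τ

/-- interaction of the signed constituents `B` with the clouds of the rows -/
def mfo6 (s : Bool → ℝ) (B : List Part6) : ℝ := ∫ t, P t * lpS6 s B (vl (l - eta t) t)

/-- `v` is the interaction of `B` with the clouds -/
structure Cloud6C (s : Bool → ℝ) (B : List Part6) (v : ℝ) : Prop where
  ia : ∀ a : Bool, Integrable fun t => P t * Real.log (ppN6 [((a, false, vl (l - eta t) t), 1)] B)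
  val : mfo6 s B = v
  ne : ∀ᵐ t : ℝ, ∀ s, ppN6 [((s, false, vl (l - eta t) t), 1)] B ≠ 0

theorem Cloud6C.int {s : Bool → ℝ} {B : List Part6} {v : ℝ} (h : Cloud6C s B v) :
    Integrable fun t => P t * lpS6 s B (vl (l - eta t) t) := by
  refine (((h.ia true).const_mul (s true)).add ((h.ia false).const_mul (s false))).congr
    (Filter.Eventually.of_forall fun t => ?_)
  simp only [Pi.add_apply, lpS6]
  ring

/-- the point of the curve in the form of the displacements -/
theorem ptC_cv (a : Bool) (t : ℝ) : ptC (fun _ t => I * eta t) a t = vl (l - eta t) t := by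
  unfold ptC vl
  have h : I * (I * (eta t : ℂ)) = -(eta t : ℂ) := by
    rw [← mul_assoc, I_mul_I]
    ring
  rw [h]
  push_cast
  ring

end

/-! ### integrability and size -/

section

/-- the combination of `lq` -/
theorem lq_comb (j y τ t : ℝ) : NUMF.lq (j - y / NUMF.l) (τ - t) =
    NUMF.h (τ - t) ((4 - j) * NUMF.l + y) + (NUMF.h (τ - t) ((2 - j) * NUMF.l + y) +
      NUMF.h (τ - t) ((2 + j) * NUMF.l - y)) / 2 - (NUMF.h (τ - t) ((3 - j) * NUMF.l + y) +
      NUMF.h (τ - t) ((5 - j) * NUMF.l + y)) / 2 - Real.log 2 := by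
  have hl : NUMF.l ≠ 0 := NUMF.l_pos.ne'
  have e : ∀ k : ℝ, (k - (j - y / NUMF.l)) * NUMF.l = (k - j) * NUMF.l + y := fun k => by
    field_simp
    ring
  have e' : (2 + (j - y / NUMF.l)) * NUMF.l = (2 + j) * NUMF.l - y := by
    field_simp
    ring
  unfold NUMF.lq NUMF.ro
  rw [e, e, e, e, e']

/-- the combination of `lqg` -/
theorem lqg_comb (j y τ t : ℝ) : NUMF.lqg (j - y / NUMF.l) (τ - t) =
    Real.log 2 + NUMF.h (τ - t) (j * NUMF.l - y) - (NUMF.h (τ - t) ((j + 1) * NUMF.l - y) +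
      NUMF.h (τ - t) ((j - 1) * NUMF.l - y)) := by
  have hl : NUMF.l ≠ 0 := NUMF.l_pos.ne'
  have e0 : (j - y / NUMF.l) * NUMF.l = j * NUMF.l - y := by
    field_simp
  unfold NUMF.lqg
  rw [e0, show j * NUMF.l - y + NUMF.l = (j + 1) * NUMF.l - y by ring,
    show j * NUMF.l - y - NUMF.l = (j - 1) * NUMF.l - y by ring]

/-- one potential along the curve, uniformly -/
theorem h_cloud (B : SeaCB) : ∃ K : ℝ, 0 ≤ K ∧ ∀ [SeaC] [SeaCU B], ∀ o : ℝ → ℝ, Measurable o →
    ∀ τ : ℝ, Integrable (fun t => P t * NUMF.h (τ - t) (o t)) ∧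
      abs ((∫ t, P t * NUMF.h (τ - t) (o t)) - 2 * |τ|) ≤ K := by
  obtain ⟨C, hC, h⟩ := P_le B
  obtain ⟨K, hK, H⟩ := HBd.cloud_bd (κ := 8 / 3) (C := C) (by norm_num) hC.le
  refine ⟨K, hK, @fun _ hS o ho τ => ?_⟩
  have h1 := H P (P_cont B).measurable (fun s => by
    rw [abs_of_pos (P_pos B s)]
    exact h s) o ho τ
  rw [P_mass, mul_one] at h1
  exact h1

/-- integrals of the combinations -/
theorem comb5 {f1 f2 f3 f4 f5 p : ℝ → ℝ} {c : ℝ} (h1 : Integrable fun t => p t * f1 t)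
    (h2 : Integrable fun t => p t * f2 t) (h3 : Integrable fun t => p t * f3 t)
    (h4 : Integrable fun t => p t * f4 t) (h5 : Integrable fun t => p t * f5 t) (hp : Integrable p) :
    Integrable (fun t => p t * (f1 t + (f2 t + f3 t) / 2 - (f4 t + f5 t) / 2 - c)) ∧
    (∫ t, p t * (f1 t + (f2 t + f3 t) / 2 - (f4 t + f5 t) / 2 - c)) = (∫ t, p t * f1 t) +
      ((∫ t, p t * f2 t) + ∫ t, p t * f3 t) / 2 - ((∫ t, p t * f4 t) + ∫ t, p t * f5 t) / 2 -
      c * ∫ t, p t := by
  have e : (fun t => p t * (f1 t + (f2 t + f3 t) / 2 - (f4 t + f5 t) / 2 - c)) = fun t =>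
      ((p t * f1 t + (1 / 2) * (p t * f2 t + p t * f3 t)) - (1 / 2) * (p t * f4 t + p t * f5 t)) -
        c * p t := by
    funext t
    ring
  have i1 := h1.add ((h2.add h3).const_mul (1 / 2))
  have i2 := (h4.add h5).const_mul (1 / 2)
  rw [e]
  refine ⟨(i1.sub i2).sub (hp.const_mul c), ?_⟩
  have k1 := integral_sub (i1.sub i2) (hp.const_mul c)
  have k2 := integral_sub i1 i2
  have k3 := integral_add h1 ((h2.add h3).const_mul (1 / 2))
  have k4 := integral_add h2 h3
  have k5 := integral_add h4 h5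
  simp only [Pi.add_apply, Pi.sub_apply] at k1 k2 k3 k4 k5
  rw [k1, k2, k3, integral_const_mul, integral_const_mul, integral_const_mul, k4, k5]
  ring

theorem comb3 {f1 f2 f3 p : ℝ → ℝ} {c : ℝ} (h1 : Integrable fun t => p t * f1 t)
    (h2 : Integrable fun t => p t * f2 t) (h3 : Integrable fun t => p t * f3 t) (hp : Integrable p) :
    Integrable (fun t => p t * (c + f1 t - (f2 t + f3 t))) ∧
    (∫ t, p t * (c + f1 t - (f2 t + f3 t))) = c * (∫ t, p t) + (∫ t, p t * f1 t) -
      ((∫ t, p t * f2 t) + ∫ t, p t * f3 t) := by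
  have e : (fun t => p t * (c + f1 t - (f2 t + f3 t))) = fun t =>
      (c * p t + p t * f1 t) - (p t * f2 t + p t * f3 t) := by
    funext t
    ring
  have i1 := (hp.const_mul c).add h1
  have i2 := h2.add h3
  rw [e]
  refine ⟨i1.sub i2, ?_⟩
  have k1 := integral_sub i1 i2
  have k2 := integral_add (hp.const_mul c) h1
  have k3 := integral_add h2 h3
  simp only [Pi.add_apply] at k1 k2 k3
  rw [k1, k2, k3, integral_const_mul]

/-- **the clouds of a quantum**: integrability at every offset, and size, uniformly in offset and sea -/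
theorem clo_all (B : SeaCB) : ∃ K : ℝ, 0 ≤ K ∧ ∀ [SeaC] [SeaCU B], ∀ j τ : ℝ,
    (Integrable (fun t => P t * NUMF.lq (j - eta t / NUMF.l) (τ - t)) ∧ abs (clP j τ - 2 * |τ|) ≤ K) ∧
    Integrable (fun t => P t * NUMF.lqg (j - eta t / NUMF.l) (τ - t)) ∧ abs (clX j τ + 2 * |τ|) ≤ K := by
  obtain ⟨K, hK, H⟩ := h_cloud B
  refine ⟨3 * K + 1, by linarith, @fun _ hS j τ => ?_⟩
  have hm : Measurable eta := continuous_eta.measurable
  have hl2 := Real.log_two_lt_d9
  have hl0 : 0 < Real.log 2 := Real.log_pos (by norm_num)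
  have hmass := P_mass
  obtain ⟨a1, b1⟩ := H (fun t => (4 - j) * NUMF.l + eta t) (by fun_prop) τ
  obtain ⟨a2, b2⟩ := H (fun t => (2 - j) * NUMF.l + eta t) (by fun_prop) τ
  obtain ⟨a3, b3⟩ := H (fun t => (2 + j) * NUMF.l - eta t) (by fun_prop) τ
  obtain ⟨a4, b4⟩ := H (fun t => (3 - j) * NUMF.l + eta t) (by fun_prop) τ
  obtain ⟨a5, b5⟩ := H (fun t => (5 - j) * NUMF.l + eta t) (by fun_prop) τ
  obtain ⟨c1, d1⟩ := H (fun t => j * NUMF.l - eta t) (by fun_prop) τ
  obtain ⟨c2, d2⟩ := H (fun t => (j + 1) * NUMF.l - eta t) (by fun_prop) τ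
  obtain ⟨c3, d3⟩ := H (fun t => (j - 1) * NUMF.l - eta t) (by fun_prop) τ
  obtain ⟨u1, u2⟩ := comb5 (c := Real.log 2) a1 a2 a3 a4 a5 (P_int B)
  obtain ⟨v1, v2⟩ := comb3 (c := Real.log 2) c1 c2 c3 (P_int B)
  have e1 : (fun t => P t * NUMF.lq (j - eta t / NUMF.l) (τ - t)) = fun t => P t *
      (NUMF.h (τ - t) ((4 - j) * NUMF.l + eta t) + (NUMF.h (τ - t) ((2 - j) * NUMF.l + eta t) +
      NUMF.h (τ - t) ((2 + j) * NUMF.l - eta t)) / 2 - (NUMF.h (τ - t) ((3 - j) * NUMF.l + eta t) +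
      NUMF.h (τ - t) ((5 - j) * NUMF.l + eta t)) / 2 - Real.log 2) := by
    funext t
    rw [lq_comb]
  have e2 : (fun t => P t * NUMF.lqg (j - eta t / NUMF.l) (τ - t)) = fun t => P t *
      (Real.log 2 + NUMF.h (τ - t) (j * NUMF.l - eta t) -
        (NUMF.h (τ - t) ((j + 1) * NUMF.l - eta t) +
      NUMF.h (τ - t) ((j - 1) * NUMF.l - eta t))) := by
    funext t
    rw [lqg_comb]
  unfold clP clX
  rw [e1, e2]
  rw [abs_le] at b1 b2 b3 b4 b5 d1 d2 d3
  refine ⟨⟨u1, ?_⟩, v1, ?_⟩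
  · rw [u2, hmass, abs_le]
    constructor <;> linarith [b1.1, b1.2, b2.1, b2.2, b3.1, b3.2, b4.1, b4.2, b5.1, b5.2]
  · rw [v2, hmass, abs_le]
    constructor <;> linarith [d1.1, d1.2, d2.1, d2.2, d3.1, d3.2]

/-- **size of the clouds** -/
theorem clo_bd (B : SeaCB) : ∃ K : ℝ, 0 ≤ K ∧ ∀ [SeaC] [SeaCU B], ∀ j τ : ℝ,
    abs (clP j τ - 2 * |τ|) ≤ K ∧ abs (clX j τ + 2 * |τ|) ≤ K := by
  obtain ⟨K, hK, H⟩ := clo_all B
  exact ⟨K, hK, @fun _ hS j τ => ⟨(H j τ).1.2, (H j τ).2.2⟩⟩

end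

section

variable (B : SeaCB) [SeaC] [SeaCU B]

include B

theorem int_lqC (j τ : ℝ) : Integrable fun t => P t * NUMF.lq (j - eta t / NUMF.l) (τ - t) := by
  obtain ⟨K, -, H⟩ := clo_all B
  exact (H j τ).1.1

theorem int_lqgC (j τ : ℝ) : Integrable fun t => P t * NUMF.lqg (j - eta t / NUMF.l) (τ - t) := by
  obtain ⟨K, -, H⟩ := clo_all B
  exact (H j τ).2.1

/-- the kernel of a quantum of species `a` against a quantum `(σ, j, τ)` -/
theorem int_kC (a σ : Bool) (j τ : ℝ) : Integrable fun t => P t *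
    (if a = σ then NUMF.lq (j - eta t / NUMF.l) (τ - t) else NUMF.lqg (j - eta t / NUMF.l) (τ - t)) := by
  by_cases h : a = σ
  · simp only [if_pos h]
    exact int_lqC B j τ
  · simp only [if_neg h]
    exact int_lqgC B j τ

/-- finite sums of kernels -/
theorem int_sumC (a : Bool) (Q : List ((Bool × ℝ × ℝ) × ℤ)) : Integrable fun t => P t *
    (Q.map fun p => (p.2 : ℝ) * if a = p.1.1 then NUMF.lq (p.1.2.1 - eta t / NUMF.l) (p.1.2.2 - t)
      else NUMF.lqg (p.1.2.1 - eta t / NUMF.l) (p.1.2.2 - t)).sum := by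
  induction Q with
  | nil => simp
  | cons p Q ih =>
    have h := ((int_kC B a p.1.1 p.1.2.1 p.1.2.2).const_mul (p.2 : ℝ)).add ih
    refine h.congr (Filter.Eventually.of_forall fun t => ?_)
    simp only [Pi.add_apply, List.map_cons, List.sum_cons]
    ring

/-- the integral of the kernels of both species over finite sums -/
theorem val_sumC (s : Bool → ℝ) (Q : List ((Bool × ℝ × ℝ) × ℤ)) :
    (∫ t, P t * (s true * (Q.map fun p => (p.2 : ℝ) *
        if true = p.1.1 then NUMF.lq (p.1.2.1 - eta t / NUMF.l) (p.1.2.2 - t)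
        else NUMF.lqg (p.1.2.1 - eta t / NUMF.l) (p.1.2.2 - t)).sum +
      s false * (Q.map fun p => (p.2 : ℝ) *
        if false = p.1.1 then NUMF.lq (p.1.2.1 - eta t / NUMF.l) (p.1.2.2 - t)
        else NUMF.lqg (p.1.2.1 - eta t / NUMF.l) (p.1.2.2 - t)).sum)) =
      (Q.map fun p => (p.2 : ℝ) * clo s p.1.1 p.1.2.1 p.1.2.2).sum := by
  induction Q with
  | nil => simp
  | cons p Q ih =>
    rw [List.map_cons, List.sum_cons, ← ih]
    obtain ⟨⟨σ, j, τ⟩, k⟩ := p
    have i1 := int_lqC B j τ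
    have i2 := int_lqgC B j τ
    have i3 := ((int_sumC B true Q).const_mul (s true)).add ((int_sumC B false Q).const_mul (s false))
    have i4 : Integrable fun t => (k : ℝ) * (s σ * (P t * NUMF.lq (j - eta t / NUMF.l) (τ - t)) +
        s (!σ) * (P t * NUMF.lqg (j - eta t / NUMF.l) (τ - t))) :=
      ((i1.const_mul (s σ)).add (i2.const_mul (s (!σ)))).const_mul (k : ℝ)
    have e0 : (k : ℝ) * clo s σ j τ = ∫ t, (k : ℝ) *
        (s σ * (P t * NUMF.lq (j - eta t / NUMF.l) (τ - t)) +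
        s (!σ) * (P t * NUMF.lqg (j - eta t / NUMF.l) (τ - t))) := by
      rw [integral_const_mul, integral_add (i1.const_mul _) (i2.const_mul _), integral_const_mul,
        integral_const_mul]
      rfl
    simp only
    rw [e0, ← integral_add i4]
    · refine integral_congr_ae (Filter.Eventually.of_forall fun t => ?_)
      simp only [List.map_cons, List.sum_cons]
      cases σ <;> simp <;> ring
    · refine i3.congr (Filter.Eventually.of_forall fun t => ?_)
      simp only [Pi.add_apply]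
      ring

omit [SeaCU B] in
/-- almost every height is different from those of the constituents -/
theorem ae_ne_heights (L : List Part6) : ∀ᵐ t : ℝ, ∀ b ∈ L, t ≠ b.1.2.2.im := by
  induction L with
  | nil => simp
  | cons c L ih =>
    have h : ∀ᵐ t : ℝ, t ≠ c.1.2.2.im := by
      have : ({c.1.2.2.im} : Set ℝ)ᶜ ∈ ae (volume : Measure ℝ) := compl_mem_ae_iff.2 (by simp)
      filter_upwards [this] with t ht using ht
    filter_upwards [h, ih] with t h1 h2 b hb
    rcases List.mem_cons.1 hb with rfl | hb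
    · exact h1
    · exact h2 b hb

/-- **the clouds of signed constituents** -/
theorem cloud6C (s : Bool → ℝ) (L : List Part6) :
    Cloud6C s L ((offX6 L).map fun p => (p.2 : ℝ) * clo s p.1.1 p.1.2.1 p.1.2.2).sum := by
  have hae := ae_ne_heights B L
  refine ⟨fun a => ?_, ?_, ?_⟩
  · refine (int_sumC B a (offX6 L)).congr ?_
    filter_upwards [hae] with t ht
    rw [(log_offX a L (eta t) t ht).2]
  · rw [← val_sumC B]
    unfold mfo6
    refine integral_congr_ae ?_
    filter_upwards [hae] with t ht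
    unfold lpS6
    rw [(log_offX true L (eta t) t ht).2, (log_offX false L (eta t) t ht).2]
  · filter_upwards [hae] with t ht a
    exact (log_offX a L (eta t) t ht).1

/-- **the interaction with the clouds, over the quanta** -/
theorem mfo6C_eq (s : Bool → ℝ) (L : List Part6) :
    mfo6 s L = ((offX6 L).map fun p => (p.2 : ℝ) * clo s p.1.1 p.1.2.1 p.1.2.2).sum :=
  (cloud6C B s L).val

theorem mfo6C_parts (s : Bool → ℝ) (P : Par6) (x : Xo) : mfo6 s (parts6 P x) =
    ((offS6 P x).map fun p => (p.2 : ℝ) * clo s p.1.1 p.1.2.1 p.1.2.2).sum :=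
  mfo6C_eq B s _

theorem mfo6C_append (s : Bool → ℝ) (L L' : List Part6) :
    mfo6 s (L ++ L') = mfo6 s L + mfo6 s L' := by
  rw [mfo6C_eq B, mfo6C_eq B, mfo6C_eq B, ← List.sum_append, ← List.map_append]
  unfold offX6
  rw [List.flatMap_append]

/-- **the clouds of an object in the form of the one body layer** -/
theorem mfo6C_clK (s : Bool → ℝ) (P : Par6) (x : Xo) : mfo6 s (parts6 P x) = clK (clo s) P x := by
  have e1 : (3 : ℝ) / 2 + 1 = 5 / 2 := by norm_num
  have e2 : (2 : ℝ) + P.e + 1 = 3 + P.e := by ring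
  rw [mfo6C_parts B]
  unfold clK
  rcases h : k6 x with _ | _ | _ | _ | _ | _
  · rw [offS6_L P h]
    simp
  · rw [offS6_T P h]
    simp [e1]
  · rw [offS6_E P h]
    simp [e2]
    ring
  · rw [offS6_F P h]
    simp [e2]
    ring
  · rw [offS6_H1 P h]
    simp
  · rw [offS6_H2 P h]
    simp

end

end Cv

end PLT

end
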