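import Pool.Agent.PLT.StatC
import Pool.Agent.NUO.DispW
import Pool.Agent.PHK.ChgB

/-!
# Sea on a curve: the bounds `UXC` of a family from the bound of its gas

* `SeasC B F S`: every index carries its sea (`S m i`, in the class `SeaCU B`, static curve in the window of the
  family); the curves of the family are displaced curves of that sea (`DisK`), its density is `Pc` of that sea;
* `TopFC`: the functional of the family is bounded by its gas; `GasFC`: the bound of the gas with a statistic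
  (= the gas theorem at the data of the family), `Ec`: energy of a configuration;
* **`ux_ofC`**: `SeasC`, `TopFC`, `GasFC` give `UXC F P`.
-/

set_option autoImplicit false
set_option linter.unusedSectionVars false
set_option linter.unusedVariables false

noncomputable section

open Complex MeasureTheory Finset
open scoped ENNReal
open PLX (Fil Ends)

namespace PLT

open NUO NUP1 NUP1S NUP1S.Ab NUP1S.AbC NUGC NUGC.PLX PHK
open PBF.PLX (InsE dN)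
open PBU.PLX (BC)
open PBP.PLX (gT pinB pinB_pos pinB_rpow pin_sum_pow one_le_gPi)
open PotH.PLX (sN)
open NUDispW (win)
open PBZ.PLX (StatOK)
open NUR2 (Cfg)

variable [Fil] [Ends] {ι : Type}

/-! ### the inputs -/

/-- the density of the quanta of species `a` for `m` rows, sea on a curve -/
def rhoMC [SeaC] (m : ℕ) (a : Bool) (t : ℝ) : ℝ := sN m a * Cv.P t

/-- **admissible statistics** of `p` quanta X and `q` quanta Y, `m` rows -/
def StatMC [SeaC] (Cg : ℝ) (m p q : ℕ) (A D : ℝ) (Ψ : Cfg p q → ℝ≥0∞) : Prop :=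
  StatOK (2 * Real.log m ^ 2) (rhoMC m) (1 / (Cg * Real.log m ^ 2)) (Cg * Real.log m ^ 6)
    (Real.log m ^ 2 / 40) p q A D Ψ

/-- **the seas of a family**: one class `SeaCU B`; the curves are displaced curves, the density is `Pc` -/
structure SeasC (B : SeaCB) (F : FamC ι) (S : ℕ → ι → SeaC) : Prop where
  u : ∀ m i, F.ok m i → @SeaCU B (S m i)
  win : ∀ m i, F.ok m i → @WinC (S m i) F.lo F.hi
  dc : ∀ m i, F.ok m i → F.dc m i = fun t : ℝ => @Cv.Pc (S m i) t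
  dis : ∀ e1 : ℝ, 0 < e1 → e1 ≤ 1 / 100 → ∀ J : ℝ, 0 ≤ J → ∀ r : ℝ, 0 < r →
    ∃ W C1 : ℝ, 1 ≤ W ∧ 0 ≤ C1 ∧ ∃ m0 : ℕ, ∀ m ≥ m0, ∀ i, F.ok m i → ∀ a : Bool,
      @DisK (S m i) W r (C1 * Real.log m ^ 2 / m) (F.D e1 J m i a)

/-- **the family from the bound of its gas**; `Ec`: energy of a configuration, `lin`: exponent of the family -/
def TopFC (F : FamC ι) (P : Par6) (B : ℝ → ℕ → ι → OB)
    (Ec : ℝ → ℝ → ℝ → ℕ → ι → (r : ℕ) → (Fin r → Xo) → ℝ) (lin : ℝ → ℝ → ℕ → ι → ℝ) : Prop :=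
  ∀ K K2 : ℝ, ∃ c1 : ℝ, 0 < c1 ∧ ∀ c' : ℝ, 0 ≤ c' →
    ∀ δ : ℝ, 0 < δ → ∃ a0 : ℝ, 0 < a0 ∧ ∀ ep : ℝ, 0 < ep → ep ≤ 1 / 100 → ∀ e1 : ℝ, 0 < e1 →
    e1 ≤ 1 / 100 → ∀ J : ℝ, 0 ≤ J → Real.exp (-(2 * Real.pi * J)) + 3 * e1 + 3 * ep ≤ a0 →
    ∃ C : ℝ, 0 ≤ C ∧ ∃ m0 : ℕ, ∀ m : ℕ, m0 ≤ m → ∀ i : ι, F.ok m i →
      ∀ (φ : ℕ → InsE) (w : ℕ → (r : ℕ) → (Fin r → Xo) → ℝ) (Q Bw d : ℝ), 0 ≤ Q → 0 ≤ Bw →
      0 < d →
      (∀ n ≤ 2 * m, ∀ r ≤ 2 * (2 * n + Fil.xe m), ∀ O : Fin r → Xo, 0 ≤ w n r O ∧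
        w n r O ≤ (if (r : ℝ) ≤ Real.log m then Bw else
          Bw * Real.exp (c' * Real.log m)) * Real.exp (K2 * r) *
            Real.exp (∑ i, gT e1 (Real.log m) (ht (O i)))) →
      (∀ b' : ℝ, |b'| = d → ∀ n ≤ 2 * m, ∀ r ≤ 2 * (2 * n + Fil.xe m), ∀ O : Fin r → Xo,
        chgO6 O true ≤ (n : ℤ) → chgO6 O false ≤ ((n + Fil.xe m : ℕ) : ℤ) → cnt6 O →
        ENNReal.ofReal (Real.exp (b' * ((m : ℝ) - n))) *
          gasIC (B ep m i) P (F.D e1 J m i) (F.D1 e1 J m i) O (nA6 n O true)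
            (nA6 (n + Fil.xe m) O false)
            (φ n r O (nA6 n O true) (nA6 (n + Fil.xe m) O false)) ≤
        ENNReal.ofReal (w n r O * (Q * Real.exp (lin e1 J m i +
          (Ec ep e1 J m i r O + K * r + c1 * win univ fun j => ht (O j)))))) →
      ENNReal.ofReal ‖F.Pf m i‖ *
        ∑ n ∈ range (F.top m + 1), FEC (F.Z ep m i) P n (n + dN (F.top m)) (F.cr e1 J m i)
          (F.cr' e1 J m i) (φ n) ≤
        ENNReal.ofReal (C * Bw * Q * (m : ℝ) ^ (-(3 / 8 : ℝ) + δ) * F.bd m i *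
          (2 / (1 - Real.exp (-d))))

/-- **the bound of the gas of the family with a statistic** -/
def GasFC (F : FamC ι) (P : Par6) (S : ℕ → ι → SeaC) (B : ℝ → ℕ → ι → OB)
    (Ec : ℝ → ℝ → ℝ → ℕ → ι → (r : ℕ) → (Fin r → Xo) → ℝ) (lin : ℝ → ℝ → ℕ → ι → ℝ) : Prop :=
  ∃ K Ca : ℝ, 0 ≤ K ∧ 0 ≤ Ca ∧ ∀ A0 : ℝ, 0 ≤ A0 → ∀ kap : ℝ, 0 < kap →
    ∀ ep : ℝ, 0 < ep → ep ≤ 1 / 100 → ∀ e1 : ℝ, 0 < e1 → e1 ≤ 1 / 100 → ∀ J : ℝ, 0 ≤ J →
    ∀ δ : ℝ, 0 < δ →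
    ∃ d Cst Cg : ℝ, 0 < d ∧ 0 ≤ Cst ∧ 1 ≤ Cg ∧ ∃ m0 : ℕ, ∀ m : ℕ, m0 ≤ m → ∀ i : ι, F.ok m i →
    ∀ b' : ℝ, |b'| ≤ d → ∀ n ≤ 3 * m, ∀ (r : ℕ) (O : Fin r → Xo),
      r ≤ 2 * (2 * n + Fil.xe m) → chgO6 O true ≤ (n : ℤ) →
      chgO6 O false ≤ ((n + Fil.xe m : ℕ) : ℤ) → cnt6 O →
      ∀ (Ψ : Cfg (nA6 n O true) (nA6 (n + Fil.xe m) O false) → ℝ≥0∞) (w D : ℝ), 0 ≤ w → 1 ≤ D →
      (∀ y, Ψ y ≤ ENNReal.ofReal (w * Real.exp (A0 * Real.log m))) →
      (∃ A : ℝ, @StatMC _ _ (S m i) Cg m (nA6 n O true) (nA6 (n + Fil.xe m) O false) A (w * D) Ψ) →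
      ENNReal.ofReal (Real.exp (b' * ((m : ℝ) - n))) *
          gasIC (B ep m i) P (F.D e1 J m i) (F.D1 e1 J m i) O (nA6 n O true)
            (nA6 (n + Fil.xe m) O false) Ψ ≤
        ENNReal.ofReal (w * D * (Cst * (m : ℝ) ^ (3 / 8 + Ca * (ep + e1) + δ) *
          Real.exp (lin e1 J m i + (Ec ep e1 J m i r O + (K + A0) * r +
            kap * win univ fun j => ht (O j)))))

/-- the numbers of quanta of a configuration -/
theorem nA6_leC {n r : ℕ} (O : Fin r → Xo) (s : Bool) (h : chgO6 O s ≤ (n : ℤ)) :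
    (nA6 n O s : ℝ) ≤ n + 2 * r := by
  have e : (nA6 n O s : ℤ) = n - chgO6 O s := Int.toNat_of_nonneg (by omega)
  have e' : (nA6 n O s : ℝ) = n - chgO6 O s := by exact_mod_cast e
  have h1 := (abs_le.1 (abs_chgO6 O s)).1
  rw [e']
  linarith

/-- powers of `m` absorb constants -/
theorem const_le_powC {C ε : ℝ} (hε : 0 < ε) : ∃ m0 : ℕ, ∀ m : ℕ, m0 ≤ m → C ≤ (m : ℝ) ^ ε := by
  have h1 : Filter.Tendsto (fun m : ℕ => (m : ℝ) ^ ε) Filter.atTop Filter.atTop :=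
    (tendsto_rpow_atTop hε).comp tendsto_natCast_atTop_atTop
  exact Filter.eventually_atTop.1 (h1.eventually_ge_atTop C)

/-- **U1, U3, U4 of a family from the bound of its gas** -/
theorem ux_ofC {Bs : SeaCB} {F : FamC ι} {P : Par6} {S : ℕ → ι → SeaC} {B : ℝ → ℕ → ι → OB}
    {Ec : ℝ → ℝ → ℝ → ℕ → ι → (r : ℕ) → (Fin r → Xo) → ℝ} {lin : ℝ → ℝ → ℕ → ι → ℝ}
    (hbd : ∀ m i, F.ok m i → 0 ≤ F.bd m i) (hS : SeasC Bs F S) (hT : TopFC F P B Ec lin)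
    (hG : GasFC F P S B Ec lin) : UXC F P := by
  intro p K ε hε
  obtain ⟨KS, Ca, hKS, hCa, hM⟩ := hG
  have hM := hM ((p : ℝ) + 1) (by positivity)
  obtain ⟨K', hK'⟩ : ∃ K', K' = max |K| 1 := ⟨_, rfl⟩
  have hK1 : 1 ≤ K' := by rw [hK']; exact le_max_right _ _
  obtain ⟨c1, hc1, hT⟩ := hT (KS + ((p : ℝ) + 1)) (Real.log K')
  obtain ⟨a0, ha0, hT⟩ := hT 0 le_rfl (ε / 8) (by positivity)
  refine ⟨min a0 (min (3 / 100) (3 * (ε / 8) / (2 * (Ca + 1)))),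
    lt_min ha0 (lt_min (by norm_num) (by positivity)), ?_⟩
  intro ep e1 J hep he1 hJ hsm
  have hexpJ := Real.exp_pos (-(2 * Real.pi * J))
  have hs1 : Real.exp (-(2 * Real.pi * J)) + 3 * e1 + 3 * ep ≤ a0 := hsm.trans (min_le_left _ _)
  have hs2 : Real.exp (-(2 * Real.pi * J)) + 3 * e1 + 3 * ep ≤ 3 / 100 :=
    hsm.trans ((min_le_right _ _).trans (min_le_left _ _))
  have hs3 : Real.exp (-(2 * Real.pi * J)) + 3 * e1 + 3 * ep ≤ 3 * (ε / 8) / (2 * (Ca + 1)) :=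
    hsm.trans ((min_le_right _ _).trans (min_le_right _ _))
  have hepl : ep ≤ 1 / 100 := by linarith
  have he1l : e1 ≤ 1 / 100 := by linarith
  have hCaε : Ca * (ep + e1) ≤ ε / 8 := by
    have h1 : 3 * (ep + e1) ≤ 3 * (ε / 8) / (2 * (Ca + 1)) := by linarith
    rw [le_div_iff₀ (by positivity)] at h1
    have h2 : 0 ≤ (ep + e1) := by linarith
    nlinarith
  obtain ⟨d, Cst, Cg, hd, hCst, hCg, ms, hM⟩ := hM c1 hc1 ep hep hepl e1 he1 he1l J hJ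
    (ε / 8) (by positivity)
  obtain ⟨C, hC, mt, hT⟩ := hT ep hep hepl e1 he1 he1l J hJ hs1
  intro D0 y₁ y₂ hy1 hy2
  have hqo := Fil.one_le_qor
  obtain ⟨Cn, hCn⟩ : ∃ Cn : ℝ, Cn = 18 + 5 * ((Fil.qo : ℕ) : ℝ) := ⟨_, rfl⟩
  have hCn0 : 0 ≤ Cn := by rw [hCn]; positivity
  obtain ⟨rr, hrr⟩ : ∃ rr, rr = min 1 (min ((F.lo - y₁) / 5) ((y₂ - F.hi) / 5)) := ⟨_, rfl⟩
  have hr0 : 0 < rr := by
    rw [hrr]
    exact lt_min one_pos (lt_min (by linarith) (by linarith))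
  have hr1 : rr ≤ 1 := by rw [hrr]; exact min_le_left _ _
  have hyr1 : y₁ ≤ F.lo - 5 * rr := by
    have : rr ≤ (F.lo - y₁) / 5 := by rw [hrr]; exact (min_le_right _ _).trans (min_le_left _ _)
    linarith
  have hyr2 : F.hi + 5 * rr ≤ y₂ := by
    have : rr ≤ (y₂ - F.hi) / 5 := by
      rw [hrr]; exact (min_le_right _ _).trans (min_le_right _ _)
    linarith
  obtain ⟨W, C1, hW, hC1, md, hdis⟩ := hS.dis e1 he1 he1l J hJ rr hr0
  obtain ⟨mu, hU⟩ := statUC Bs D0 hr0 hr1 hyr1 hyr2 hW hC1 p (Cg := Cg) (ε := ε / 8)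
    (Cn := Cn) hCg (by positivity) hCn0
  have hexpd : Real.exp (-d) < 1 := by
    rw [← Real.exp_zero]
    exact Real.exp_lt_exp.2 (by linarith)
  have hde : 0 ≤ 2 / (1 - Real.exp (-d)) := div_nonneg (by norm_num) (by linarith)
  obtain ⟨mc, hmc⟩ := const_le_powC (C := C * Cst * (2 / (1 - Real.exp (-d))))
    (show 0 < ε / 8 by positivity)
  refine ⟨max (max md ms) (max (max mt mu) (max mc 3)), fun m hm i hi ρ hρ Bw hBw w hw g g' hg => ?_⟩
  have m1 : md ≤ m := ((le_max_left _ _).trans (le_max_left _ _)).trans hm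
  have m2 : ms ≤ m := ((le_max_right _ _).trans (le_max_left _ _)).trans hm
  have m3 : mt ≤ m := (((le_max_left _ _).trans (le_max_left _ _)).trans (le_max_right _ _)).trans hm
  have m4 : mu ≤ m := (((le_max_right _ _).trans (le_max_left _ _)).trans (le_max_right _ _)).trans hm
  have m5 : mc ≤ m := (((le_max_left _ _).trans (le_max_right _ _)).trans (le_max_right _ _)).trans hm
  have m6 : 3 ≤ m := (((le_max_right _ _).trans (le_max_right _ _)).trans (le_max_right _ _)).trans hm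
  have hmn : 1 ≤ m := by omega
  have hmp : (0 : ℝ) < m := by exact_mod_cast (by omega : 0 < m)
  have hm1 : (1 : ℝ) ≤ m := by exact_mod_cast (by omega : 1 ≤ m)
  have hL : 0 ≤ Real.log m := Real.log_nonneg hm1
  have hSu := hS.u m i hi
  have hdc := hS.dc m i hi
  have hDi := hdis m m1 i hi
  rw [hdc] at hρ
  -- the weight of the objects
  obtain ⟨w', hw'⟩ : ∃ w' : (r : ℕ) → (Fin r → Xo) → ℝ, w' = fun r O => max (w r O) 0 := ⟨_, rfl⟩
  have hw0 : ∀ r O, 0 ≤ w' r O := fun r O => by rw [hw']; exact le_max_right _ _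
  have hw1 : ∀ r O, w' r O ≤ Bw * Real.exp (Real.log K' * r) *
      Real.exp (∑ i, gT e1 (Real.log m) (ht (O i))) := by
    intro r O
    have e : w' r O = max (w r O) 0 := by rw [hw']
    rw [e]
    have hk : Real.exp (Real.log K' * r) = K' ^ r := by
      rw [Real.exp_mul, Real.exp_log (by linarith), Real.rpow_natCast]
    rw [hk]
    refine max_le ((hw r O).trans ?_) (by positivity)
    rw [Real.exp_sum]
    refine mul_le_mul_of_nonneg_right (mul_le_mul_of_nonneg_left ?_ hBw)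
      (Finset.prod_nonneg fun i _ => (Real.exp_pos _).le)
    have h1 : K ^ r ≤ |K| ^ r := by
      rw [← abs_pow]
      exact le_abs_self _
    refine h1.trans (pow_le_pow_left₀ (abs_nonneg _) ?_ r)
    rw [hK']
    exact le_max_left _ _
  have hww : ∀ r O, ENNReal.ofReal (w r O) = ENNReal.ofReal (w' r O) := by
    intro r O
    have e : w' r O = max (w r O) 0 := by rw [hw']
    rw [e]
    rcases le_total (w r O) 0 with h | h
    · rw [max_eq_right h, ENNReal.ofReal_of_nonpos h, ENNReal.ofReal_zero]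
    · rw [max_eq_left h]
  -- the price
  have hD1 : 1 ≤ (m : ℝ) ^ (ε / 8) := Real.one_le_rpow hm1 (by positivity)
  have hA : ((m : ℝ) ^ (p + 1)) = Real.exp (((p : ℝ) + 1) * Real.log m) := by
    rw [mul_comm, Real.exp_mul, Real.exp_log hmp, ← Real.rpow_natCast]
    push_cast
    rfl
  obtain ⟨Q, hQ⟩ : ∃ Q, Q = (m : ℝ) ^ (ε / 8) * (Cst * (m : ℝ) ^ (3 / 8 + Ca * (ep + e1) + ε / 8)) :=
    ⟨_, rfl⟩
  have hQ0 : 0 ≤ Q := by rw [hQ]; positivity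
  have key := hT m m3 i hi (fun _ r O _ _ x => ENNReal.ofReal (w r O) *
      ∏ j, nuEC ρ (F.D e1 J m i) (g r O j) (g' r O j) x) (fun _ => w') Q Bw d hQ0 hBw hd ?_ ?_
  · rw [FSC_eq]
    rw [← ofReal_norm]
    refine key.trans (ENNReal.ofReal_le_ofReal ?_)
    have hb := hbd m i hi
    have h1 := hmc m m5
    have hmε : ∀ x : ℝ, 0 ≤ (m : ℝ) ^ x := fun x => Real.rpow_nonneg hmp.le x
    have h2 : (m : ℝ) ^ (ε / 8) * (m : ℝ) ^ (3 / 8 + Ca * (ep + e1) + ε / 8) *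
        (m : ℝ) ^ (-(3 / 8 : ℝ) + ε / 8) * (m : ℝ) ^ (ε / 8) ≤ (m : ℝ) ^ ε := by
      rw [← Real.rpow_add hmp, ← Real.rpow_add hmp, ← Real.rpow_add hmp]
      exact Real.rpow_le_rpow_of_exponent_le hm1 (by linarith)
    calc C * Bw * Q * (m : ℝ) ^ (-(3 / 8 : ℝ) + ε / 8) * F.bd m i * (2 / (1 - Real.exp (-d)))
        = Bw * F.bd m i * ((m : ℝ) ^ (ε / 8) * (m : ℝ) ^ (3 / 8 + Ca * (ep + e1) + ε / 8) *
          (m : ℝ) ^ (-(3 / 8 : ℝ) + ε / 8)) * (C * Cst * (2 / (1 - Real.exp (-d)))) := by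
          rw [hQ]
          ring
      _ ≤ Bw * F.bd m i * ((m : ℝ) ^ (ε / 8) * (m : ℝ) ^ (3 / 8 + Ca * (ep + e1) + ε / 8) *
          (m : ℝ) ^ (-(3 / 8 : ℝ) + ε / 8)) * (m : ℝ) ^ (ε / 8) :=
          mul_le_mul_of_nonneg_left h1 (by positivity)
      _ = Bw * F.bd m i * ((m : ℝ) ^ (ε / 8) * (m : ℝ) ^ (3 / 8 + Ca * (ep + e1) + ε / 8) *
        (m : ℝ) ^ (-(3 / 8 : ℝ) + ε / 8) * (m : ℝ) ^ (ε / 8)) := by ring
      _ ≤ Bw * F.bd m i * (m : ℝ) ^ ε := mul_le_mul_of_nonneg_left h2 (by positivity)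
      _ = _ := by ring
  · intro n _ r _ O
    refine ⟨hw0 r O, (hw1 r O).trans (le_of_eq ?_)⟩
    rw [zero_mul, Real.exp_zero, mul_one, ite_self]
  · intro b' hb' n hn r hr O h1 h2 hcnt
    have hn3 : n ≤ 3 * m := by omega
    have hn2 : (n : ℝ) ≤ 2 * m := by exact_mod_cast hn
    have hxe : ((Fil.xe m : ℕ) : ℝ) ≤ ((Fil.qo : ℕ) : ℝ) * m := by exact_mod_cast Fil.xe_le_qo hmn
    have hrr : (r : ℝ) ≤ 2 * (2 * n + (Fil.xe m : ℕ)) := by exact_mod_cast hr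
    have hqm : 0 ≤ ((Fil.qo : ℕ) : ℝ) * m := by positivity
    have hp1 : (nA6 n O true : ℝ) ≤ Cn * m := by
      have h3 := nA6_leC O true h1
      rw [hCn]
      linarith
    have hp2 : (nA6 (n + Fil.xe m) O false : ℝ) ≤ Cn * m := by
      have h3 := nA6_leC O false h2
      push_cast at h3
      rw [hCn]
      linarith
    have hst := @hU (S m i) hSu (hS.win m i hi) m m4 (F.D e1 J m i) hDi (nA6 n O true)
      (nA6 (n + Fil.xe m) O false) hp1 hp2 ρ hρ (g r O) (g' r O) (hg r O)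
    have hst' := PBZ.PLX.StatOK.smul hst (hw0 r O)
    have h3 := hM m m2 i hi b' (le_of_eq hb') n hn3 r O hr h1 h2 hcnt
      (fun x => ENNReal.ofReal (w r O) * ∏ j, nuEC ρ (F.D e1 J m i) (g r O j) (g' r O j) x)
      (w' r O) ((m : ℝ) ^ (ε / 8)) (hw0 r O) hD1
      (fun y => by
        have := hst'.poly y
        rw [hA] at this
        rw [hww]
        exact this)
      (⟨_, by
        simp only [hww]
        exact hst'⟩)
    refine h3.trans (ENNReal.ofReal_le_ofReal (le_of_eq ?_))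
    rw [hQ]
    ring

end PLT

end
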