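import Pool.Agent.PLT.CrvC
import Pool.Agent.PLT.GasTwo
import Pool.Agent.PLT.MfoC
import Pool.Agent.PLT.UXofC
import Pool.Agent.PHK.PotH.Red6

/-!
# The gas of a configuration over a sea on a static curve: the statements

Six kinds, any parameters `P`, the energy `en` of the objects a parameter (a functional of the sea).

* `Cv.Ms`, `Cv.Mx`, `Cv.MF`, `Cv.MFs`: mean field constants;
* `CutC`: admissible cutoffs (`PotH.PLX.CutR` over the sea); `CutR.toC` below;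
* `DomC`, **`EnvC`**: domination on the curves `zt (gD (Fil.cv a η))`, environment (= `DomH`, `EnvH`);
* `crC`, `seaGC`, **`linC`**: current, sea terms of a group on the static curve, exact linear term (= `crH`,
  `seaG`, `linH`; with the static potential of the ends);
* `oneHC`, `confEC`, `enHC`, `prefC`, `lhsC` (= `oneEH6`, `confEH6`, `enH6`, `prefH`, `lhsH6`);
* **`S4C B P en`**, **`S4MC B P en`** (= `S4H6`, `S4M6`).
-/

set_option autoImplicit false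
set_option linter.unusedSectionVars false
set_option linter.unusedVariables false

noncomputable section

open MeasureTheory Finset Filter Topology Complex
open scoped ENNReal
open PLX (Fil Ends)

namespace PLT

/-! ### mean field constants -/

namespace Cv

variable [SeaC]

/-- `r ^ 2 ∫ P v` -/
def Ms (r : ℝ) : ℝ := r ^ 2 * ∫ t, P t * v t

/-- `∫ P vx` -/
def Mx : ℝ := ∫ t, P t * (vx (ga t)).re

/-- the mean field constant -/
def MF (s : Bool → ℝ) : ℝ := 1 / 2 * (Ms (s true) + Ms (s false)) - 1 / 2 * (s true - s false) ^ 2 * Mx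

/-- mean field exponent of the gas with `p + n` quanta (no activities) -/
def MFs (s : Bool → ℝ) (p n : ℕ) : ℝ := MF s - ((p : ℝ) + n) * Real.log NUMFC.act

end Cv

open PHK hiding mfo6
open NUGC (ES)
open NUGC.PLX (OB gP pE qE)
open NUO (Xo ht Tb TW excS exc)
open NUSea.PLX.H0 (Gd TG cstF)
open NUDispW (win)
open NUR2 (Cfg)
open PotH.PLX (sN HSk T1H RgH6 phG)

variable [SeaC] [Fil] [Ends]

/-! ### the environment -/

/-- **admissible cutoffs of the rows** on the curve: `cr` the cutoff, `Bc` its majorant; in the bulk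
`|t| ≤ b` its logarithm is smooth -/
structure CutC (ep C0 b : ℝ) (m : ℕ) (cr Bc Bc' : ℝ → ℝ) : Prop where
  meas : Measurable cr
  nn : ∀ t, 0 ≤ cr t
  Bd : ∀ t, HasDerivAt Bc (Bc' t) t
  Bcc : Continuous Bc'
  B0 : ∀ t, 0 ≤ Bc t
  B1 : ∀ t, Bc t ≤ 1
  PI : Integrable (fun t => (m : ℝ) * Cv.P t * Bc t)
  PC : ∫ t, (m : ℝ) * Cv.P t * Bc t ≤ C0
  EI : Integrable (fun t => Bc t ^ 2 + Bc' t ^ 2)
  EC : ∫ t, Bc t ^ 2 + Bc' t ^ 2 ≤ C0
  le : ∀ t, cr t ≤ Real.exp (Bc t)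
  le2 : ∀ t, cr t ≤ 2
  dec : ∀ t, cr t ≤ C0 * m * Real.exp (-(8 / 3 * (1 - ep)) * |t|)
  ext : ∃ Ec : ℝ → ℝ, NUR2.Ext 4 b 1 Ec ∧ ∀ t, |t| ≤ b → cr t = Real.exp (Ec t)

/-- **domination of the one body data** on the curve of every species: rows of the sea, ends and groups
at their true heights, potential `H`, cutoff `cr` -/
def DomC (B : OB) (m : ℕ) (η : ℝ → ℝ) (cr : ℝ → ℝ) {n : ℕ} (g : Fin n → Gd)
    (H : Bool → ℝ → ℝ) : Prop :=
  ∀ a t, B.R a (ptC (dsp η) a t) * ‖B.φ a (ptC (dsp η) a t)‖ ≤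
    2 * Real.cos NUP1.l * (Real.exp ((Cv.vb (sN m) a (Cv.zt (Cv.gD (Fil.cv a η)) t)).re +
      (NUSp.DD pE qE (List.ofFn fun i => (g i).G) a (Cv.zt (Cv.gD (Fil.cv a η)) t)).re +
        H a t) * cr t)

/-- **the environment of a configuration**: curve, cutoff, potential, one body data, groups; `th` the
slope of the energy of the potential -/
structure EnvC (ep e1 Cc C0 B0 N0 th : ℝ) (m : ℕ) (η η1 cr Bc Bc' : ℝ → ℝ) (H H' : Bool → ℝ → ℝ)
    (B : OB) {n : ℕ} (g : Fin n → Gd) : Prop where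
  crv : CrvP e1 Cc m η η1
  cut : CutC ep C0 ((1 - e1) * Tb (Real.log m)) m cr Bc Bc'
  hok : HSk B0 N0 th ((1 - e1) * Tb (Real.log m)) (Real.log m ^ 3) H H'
  nn : B.Nn
  dom : DomC B m η cr g H

theorem EnvC.mono {ep e1 Cc C0 B0 N0 th th' : ℝ} {m : ℕ} {η η1 cr Bc Bc' : ℝ → ℝ}
    {H H' : Bool → ℝ → ℝ} {B : OB} {n : ℕ} {g : Fin n → Gd}
    (h : EnvC ep e1 Cc C0 B0 N0 th m η η1 cr Bc Bc' H H' B g) (hth : th ≤ th') :
    EnvC ep e1 Cc C0 B0 N0 th' m η η1 cr Bc Bc' H H' B g :=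
  { h with hok := h.hok.mono_th hth }

theorem EnvC.mono_B {ep e1 Cc C0 B0 B0' N0 N0' th : ℝ} {m : ℕ} {η η1 cr Bc Bc' : ℝ → ℝ}
    {H H' : Bool → ℝ → ℝ} {B : OB} {n : ℕ} {g : Fin n → Gd}
    (h : EnvC ep e1 Cc C0 B0 N0 th m η η1 cr Bc Bc' H H' B g) (hB : B0 ≤ B0') (hN : N0 ≤ N0') :
    EnvC ep e1 Cc C0 B0' N0' th m η η1 cr Bc Bc' H H' B g :=
  { h with hok := h.hok.mono_B hB hN }

/-! ### exponents -/

/-- the current of a curve -/
def crC (η : ℝ → ℝ) (m : ℕ) (t : ℝ) : ℝ := (m : ℝ) * Cv.P t * η t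

/-- the current of the curve of TARGET-C -/
theorem crC_etaC (B : SeaCB) [SeaCU B] {e1 J : ℝ} {m : ℕ} (hm : 0 < m) :
    crC (Cv.etaC e1 J m m) m = NUGC.PLX.hC e1 J m :=
  Cv.cur_etaC B (by exact_mod_cast hm)

/-- the sea term of a group on the static curve: the two species with the numbers `s true`, `s false` -/
def seaGC (s : Bool → ℝ) (g : Gd) : ℝ :=
  ∫ t : ℝ, Cv.P t * (s true * (NUSp.gp true g.G (Cv.ga t)).re + s false * (NUSp.gp false g.G (Cv.ga t)).re)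

/-- **the exact linear term**: energy of the current, ends at height `0` (current and static potential),
groups pinned at `T1`, potentials against the sea -/
def linC (η η1 : ℝ → ℝ) (m : ℕ) {n : ℕ} (g : Fin n → Gd) (T1 : ℝ) (H : Bool → ℝ → ℝ) : ℝ :=
  NUCR.bil (Cv.hd m η η1) (Cv.hd m η η1) - 24 * NUMF.l * crC η m 0 -
    2 * (∑ i, phG (g i) * crC η m (NUSp.pin T1 (g i).τ)) +
    ∑ a, ∫ t, sN m a * Cv.P t * ((NUSp.DD pE qE [] a (Cv.ga t)).re + H a t)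

/-- exponent of an object: mean field, full current of the curve, far factor -/
def oneHC (P : Par6) (m : ℕ) (η : ℝ → ℝ) (T' : ℝ) {r : ℕ} (O : Fin r → Xo) (i : Fin r) : ℝ :=
  Cv.mfo6 (sN m) (parts6 P (O i)) -
    2 * Real.pi * wind6 (k6 (O i)) * crC η m (ht (O i)) + exc T' (ht (O i))

/-- exponent of the objects: one body exponents, `K` per object, energy `en` of the objects, `kap` times
the window energy -/
def confEC (P : Par6) (en : (r : ℕ) → (Fin r → Xo) → ℝ) (m : ℕ) (η : ℝ → ℝ) (T' K kap : ℝ) {r : ℕ}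
    (O : Fin r → Xo) : ℝ :=
  ∑ i, oneHC P m η T' O i + K * r + en r O + kap * win univ (fun i => ht (O i))

/-- energies objects - groups and groups - groups (groups pinned at `T1`), far constants of the groups
with `p` quanta X, `q` quanta Y in the gas -/
def enHC (P : Par6) (m : ℕ) {n : ℕ} (g : Fin n → Gd) {r : ℕ} (O : Fin r → Xo) (T1 : ℝ) (p q : ℕ) : ℝ :=
  ∑ i, ∑ d, ES (obSr6 P (O i)) (TG (fun i => (g i).pin T1) d) +
    1 / 2 * (∑ d, ∑ d', ES (TG (fun i => (g i).pin T1) d) (TG (fun i => (g i).pin T1) d')) +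
    cstF T1 g true * ((p : ℝ) - q + (Fil.xe m : ℕ))

/-- prefactor: mean field value, sea terms of the groups at their true heights, far factors -/
def prefC (m : ℕ) {n : ℕ} (g : Fin n → Gd) (E x Cst : ℝ) : ℝ :=
  Cst * Real.exp (Cv.MF (sN m) + ∑ i, seaGC (sN m) (g i)) * Real.exp (37 / 20 * x + 12 / 5 * E)

/-- the left side: tilt and positive gas with the statistic `Ψ` -/
def lhsC (B : OB) (P : Par6) (m : ℕ) (η η1 : ℝ → ℝ) (aX aY : ℕ) (ν : ℝ) (N : ℕ) (b' : ℝ) {r : ℕ}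
    (O : Fin r → Xo)
    (Ψ : (Fin (nA6 (N + aX) O true) → ℝ) × (Fin (nA6 (N + aY) O false) → ℝ) → ℝ≥0∞) :
    ℝ≥0∞ :=
  ENNReal.ofReal (Real.exp (b' * (ν - N))) *
    gasIC B P (dsp η) (dsp1 η η1) O (nA6 (N + aX) O true) (nA6 (N + aY) O false) Ψ

theorem prefC_nonneg {m : ℕ} {n : ℕ} {g : Fin n → Gd} {E x Cst : ℝ} (h : 0 ≤ Cst) :
    0 ≤ prefC m g E x Cst := by
  unfold prefC
  positivity

theorem prefC_mono {m : ℕ} {n : ℕ} {g : Fin n → Gd} {E x Cst Cst' : ℝ} (h : Cst ≤ Cst') :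
    prefC m g E x Cst ≤ prefC m g E x Cst' := by
  unfold prefC
  clear * - h
  gcongr

theorem prefC_mul {m : ℕ} {n : ℕ} {g : Fin n → Gd} {E x Cst a : ℝ} :
    prefC m g E x (Cst * a) = prefC m g E x Cst * a := by
  unfold prefC
  ring

theorem confEC_add (P : Par6) (en : (r : ℕ) → (Fin r → Xo) → ℝ) (m : ℕ) (η : ℝ → ℝ) (T' K K' kap : ℝ)
    {r : ℕ} (O : Fin r → Xo) :
    confEC P en m η T' (K + K') kap O = confEC P en m η T' K kap O + K' * r := by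
  unfold confEC
  ring

theorem confEC_mono {P : Par6} {en : (r : ℕ) → (Fin r → Xo) → ℝ} {m : ℕ} {η : ℝ → ℝ} {T' K K' kap : ℝ}
    (hK : K ≤ K') {r : ℕ} (O : Fin r → Xo) :
    confEC P en m η T' K kap O ≤ confEC P en m η T' K' kap O := by
  unfold confEC
  have : K * (r : ℝ) ≤ K' * r := mul_le_mul_of_nonneg_right hK (Nat.cast_nonneg r)
  linarith

/-- the exponent of the objects, split -/
lemma confEC_split {P : Par6} {en : (r : ℕ) → (Fin r → Xo) → ℝ} {m : ℕ} {η : ℝ → ℝ} {T' K kap : ℝ} {r : ℕ}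
    (O : Fin r → Xo) :
    confEC P en m η T' K kap O =
      (∑ i, (Cv.mfo6 (sN m) (parts6 P (O i)) -
        2 * Real.pi * wind6 (k6 (O i)) * crC η m (ht (O i)))) +
      5 / 2 * excS T' O + K * r + en r O + kap * win univ (fun i => ht (O i)) := by
  unfold confEC oneHC excS exc
  rw [Finset.sum_add_distrib, ← Finset.mul_sum]

omit [SeaC] in
/-- the potential energy functional of the objects: one for every sea -/
abbrev EnC : Type := SeaC → (r : ℕ) → (Fin r → Xo) → ℝ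

end PLT

namespace PLT

open PHK hiding mfo6
open NUGC.PLX (OB)
open NUO (Xo ht Tb TW)
open NUSea.PLX.H0 (Gd)
open NUR2 (Cfg)
open PotH.PLX (T1H RgH6)

variable [Fil] [Ends]

/-! ### the statements -/

/-- **the gas in the presence of the objects, of at most two groups and of a real potential**, any sea of the
class `SB` -/
def S4C (SB : SeaCB) (P : Par6) (en : EnC) : Prop :=
  ∀ B0 N0 : ℝ, 0 ≤ B0 → 0 ≤ N0 → ∃ K Ca : ℝ, 0 ≤ K ∧ 0 ≤ Ca ∧ ∀ kap : ℝ, 0 < kap →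
    ∀ ep : ℝ, 0 < ep → ep ≤ 1 / 100 → ∀ e1 : ℝ, 0 < e1 → e1 ≤ 1 / 100 →
    ∀ Cc C0 : ℝ, 1 ≤ Cc → 1 ≤ C0 → ∀ δ : ℝ, 0 < δ →
    ∃ d Cst : ℝ, 0 < d ∧ 0 ≤ Cst ∧ ∃ m0 : ℕ, ∀ [S : SeaC] [SeaCU SB], ∀ m : ℕ, m0 ≤ m →
    ∀ (n : ℕ) (η η1 cr Bc Bc' : ℝ → ℝ) (H H' : Bool → ℝ → ℝ) (B : OB) (g : Fin n → Gd),
    EnvC ep e1 Cc C0 B0 N0 d m η η1 cr Bc Bc' H H' B g →
    ∀ (aX aY : ℕ) (ν : ℝ) (N : ℕ) (b' : ℝ) (r : ℕ) (O : Fin r → Xo) (E x : ℝ), |b'| ≤ d →
      RgH6 ep e1 m g aX aY ν N O E x →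
      lhsC B P m η η1 aX aY ν N b' O (fun _ => 1) ≤
        ENNReal.ofReal (prefC m g E x Cst * (m : ℝ) ^ (3 / 8 + Ca * (ep + e1) + δ) *
          (if ∀ i, |(g i).τ| ≤ Real.log m ^ 2 then 1 else Real.exp (Real.log m / 2)) *
          Real.exp (confEC P (en S) m η (TW ep e1 m) K kap O + linC η η1 m g (T1H ep e1 m O E) H +
            enHC P m g O (T1H ep e1 m O E) (nA6 (N + aX) O true) (nA6 (N + aY) O false)))

/-- **the gas in the presence of the objects, of at most two groups and of a real potential, with a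
statistic of the quanta**: `w m^A0` its bound, `w D` its price in the sharp range -/
def S4MC (SB : SeaCB) (P : Par6) (en : EnC) : Prop :=
  ∀ B0 N0 : ℝ, 0 ≤ B0 → 0 ≤ N0 → ∃ K Ca : ℝ, 0 ≤ K ∧ 0 ≤ Ca ∧ ∀ A0 : ℝ, 0 ≤ A0 →
    ∀ kap : ℝ, 0 < kap →
    ∀ ep : ℝ, 0 < ep → ep ≤ 1 / 100 → ∀ e1 : ℝ, 0 < e1 → e1 ≤ 1 / 100 →
    ∀ Cc C0 : ℝ, 1 ≤ Cc → 1 ≤ C0 → ∀ δ : ℝ, 0 < δ →
    ∃ d Cst Cg : ℝ, 0 < d ∧ 0 ≤ Cst ∧ 1 ≤ Cg ∧ ∃ m0 : ℕ, ∀ [S : SeaC] [SeaCU SB], ∀ m : ℕ, m0 ≤ m →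
    ∀ (n : ℕ) (η η1 cr Bc Bc' : ℝ → ℝ) (H H' : Bool → ℝ → ℝ) (B : OB) (g : Fin n → Gd),
    EnvC ep e1 Cc C0 B0 N0 d m η η1 cr Bc Bc' H H' B g →
    ∀ (aX aY : ℕ) (ν : ℝ) (N : ℕ) (b' : ℝ) (r : ℕ) (O : Fin r → Xo) (E x : ℝ), |b'| ≤ d →
      RgH6 ep e1 m g aX aY ν N O E x →
      ∀ (Ψ : Cfg (nA6 (N + aX) O true) (nA6 (N + aY) O false) → ℝ≥0∞) (w D : ℝ), 0 ≤ w → 1 ≤ D →
      (∀ y, Ψ y ≤ ENNReal.ofReal (w * Real.exp (A0 * Real.log m))) →
      ((∀ i, |(g i).τ| ≤ Real.log m ^ 2) → |ν - N| ≤ Real.log m ^ 3 → (r : ℝ) + 2 ≤ Real.log m →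
        (∀ i, |ht (O i)| ≤ Real.log m ^ 2) →
        ∃ A : ℝ, StatMC Cg m (nA6 (N + aX) O true) (nA6 (N + aY) O false) A (w * D) Ψ) →
      lhsC B P m η η1 aX aY ν N b' O Ψ ≤
        ENNReal.ofReal (w * D * (prefC m g E x Cst * (m : ℝ) ^ (3 / 8 + Ca * (ep + e1) + δ) *
          (if ∀ i, |(g i).τ| ≤ Real.log m ^ 2 then 1 else Real.exp ((A0 + 1 / 2) * Real.log m)) *
          Real.exp (confEC P (en S) m η (TW ep e1 m) (K + A0) kap O + linC η η1 m g (T1H ep e1 m O E) H +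
            enHC P m g O (T1H ep e1 m O E) (nA6 (N + aX) O true) (nA6 (N + aY) O false))))

end PLT

end
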