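import Pool.Agent.PLT.PinC
import Pool.Agent.PLT.TopDef

/-!
# The curves of the two species are paths near the real axis

* **`exists_pth`**: `zt (gD (Fil.cv a η))` is a path `Sp.Pth` for every window `T1 ≥ TW`, every admissible curve;
* `zt_re`, `zt_im`: its point.
-/

set_option autoImplicit false
set_option linter.unusedSectionVars false
set_option linter.unusedVariables false

open MeasureTheory Set Filter Topology Complex
open PLX (Fil Ends)

namespace PLT

open NUO (Tb TW)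
open NUKer (iD)
open NUMF (l l_pos)

noncomputable section

namespace Cv

variable [SeaC]

lemma gD_re (η : ℝ → ℝ) (t : ℝ) : (gD η t).re = -(η t * deriv eta t) := by
  unfold gD iD ga'
  simp

lemma gD_im (η : ℝ → ℝ) (t : ℝ) : (gD η t).im = η t := by
  unfold gD iD ga'
  simp

lemma zt_re (η : ℝ → ℝ) (t : ℝ) : (zt (gD η) t).re = t - η t * deriv eta t := by
  unfold zt
  rw [Complex.add_re, gD_re, ga_re]
  ring

lemma zt_im (η : ℝ → ℝ) (t : ℝ) : (zt (gD η) t).im = eta t + η t := by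
  unfold zt
  rw [Complex.add_im, gD_im, ga_im]

lemma hasDerivAt_zt {η η1 : ℝ → ℝ} (h : ∀ t, HasDerivAt η (η1 t) t) (t : ℝ) :
    HasDerivAt (zt (gD η)) (zd (gD1 η η1) t) t := (hasDerivAt_ga t).add (hasDerivAt_gD h t)

lemma continuous_gD {η : ℝ → ℝ} (hη : Continuous η) : Continuous (gD η) := by
  have h2 := continuous_ga'
  unfold gD iD
  fun_prop

lemma continuous_gD1 {η η1 : ℝ → ℝ} (hη : Continuous η) (hη1 : Continuous η1) :
    Continuous (gD1 η η1) := by
  have h2 := continuous_ga'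
  have h3 := continuous_ga2
  unfold gD1 iD
  fun_prop

lemma continuous_zd {η η1 : ℝ → ℝ} (hη : Continuous η) (hη1 : Continuous η1) :
    Continuous (zd (gD1 η η1)) := continuous_ga'.add (continuous_gD1 hη hη1)

end Cv

/-- the window beyond the support of the currents -/
lemma exists_win {e1 : ℝ} (he : 0 < e1) : ∃ m0 : ℕ, 3 ≤ m0 ∧ ∀ m : ℕ, m0 ≤ m → ∀ ep : ℝ, 0 < ep →
    (1 - e1) * Tb (Real.log m) + 3 ≤ TW ep e1 m ∧ 1 ≤ Real.log m := by
  have h1 := (Real.tendsto_log_atTop.comp (tendsto_natCast_atTop_atTop (R := ℝ))).eventually_ge_atTop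
    (8 / (3 * e1) + 1)
  obtain ⟨m0, hm0⟩ := eventually_atTop.1 h1
  refine ⟨max m0 3, le_max_right _ _, fun m hm ep hep => ?_⟩
  have h2 : 8 / (3 * e1) + 1 ≤ Real.log m := hm0 m ((le_max_left _ _).trans hm)
  have h3 : 0 < 8 / (3 * e1) := by positivity
  have h4 : 8 ≤ Real.log m * (3 * e1) := by
    have : 8 / (3 * e1) ≤ Real.log m := by linarith
    rwa [div_le_iff₀ (by positivity)] at this
  refine ⟨?_, by linarith⟩
  unfold TW Tb
  have h5 : 0 ≤ ep * Real.log m := mul_nonneg hep.le (by linarith)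
  nlinarith

/-- **the curves of the two species are paths near the real axis** -/
theorem exists_pth (B : SeaCB) : ∃ K : ℝ, 0 ≤ K ∧ ∀ ep : ℝ, 0 < ep → ∀ e1 : ℝ, 0 < e1 → e1 ≤ 1 / 100 →
    ∃ m0 : ℕ, 3 ≤ m0 ∧ ∀ [Fil] [SeaC] [SeaCU B], ∀ m : ℕ, m0 ≤ m → ∀ (Cc : ℝ) (η η1 : ℝ → ℝ),
    CrvP e1 Cc m η η1 → ∀ T1 : ℝ, TW ep e1 m ≤ T1 → ∀ a : Bool,
      Sp.Pth (l / 5) T1 K (Cv.zt (Cv.gD (Fil.cv a η))) (Cv.zd (Cv.gD1 (Fil.cv a η) (Fil.cv a η1))) := by
  obtain ⟨C1, hC1, H1⟩ := Cv.ga'_bd B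
  obtain ⟨C2, hC2, H2⟩ := Cv.ga2_bd B
  obtain ⟨C3, hC3, H3⟩ := Cv.eta'_exp B
  refine ⟨C1 + (C1 + C2), by linarith, fun ep hep e1 he he1 => ?_⟩
  obtain ⟨m1, hm1, HW⟩ := exists_win he
  have h5 := (tendsto_rpow_neg_atTop (show 0 < e1 / 2 by positivity)).comp
    (tendsto_natCast_atTop_atTop (R := ℝ))
  have h6 := h5.eventually_le_const (show (0 : ℝ) < 1 / (2 * (C3 + 1)) by positivity)
  obtain ⟨m2, hm2⟩ := Filter.eventually_atTop.1 h6
  refine ⟨max m1 m2, hm1.trans (le_max_left _ _), @fun _ _ hS m hm Cc η η1 hc T1 hT1 a => ?_⟩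
  have k1 : m1 ≤ m := (le_max_left _ _).trans hm
  have k2 : m2 ≤ m := (le_max_right _ _).trans hm
  obtain ⟨w1, w2⟩ := HW m k1 ep hep
  obtain ⟨ε, e, hcur, hε0, hεm, hεx⟩ := hc.cur
  have hl := l_pos
  have hl1 : l ≤ 1 := by
    unfold NUMF.l
    linarith [Real.pi_le_four]
  have hε2 : (m : ℝ) ^ (-(e1 / 2)) ≤ 1 / (2 * (C3 + 1)) := hm2 m k2
  have hd := fun t => hc.dcv a t
  have hηc : Continuous (Fil.cv a η) := continuous_iff_continuousAt.2 fun t => (hd t).continuousAt
  have hη : ∀ t, |Fil.cv a η t| ≤ ε := fun t =>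
    (Fil.abs_cv_le a η t).trans ((hcur.abs_le t).trans (hcur.le t))
  have hη1 : ∀ t, |Fil.cv a η1 t| ≤ 1 := fun t =>
    (Fil.abs_cv_le a η1 t).trans ((hc.le1 t).trans (by linarith))
  have hη0 : ∀ t, |Fil.cv a η t| ≤ 1 := fun t =>
    (Fil.abs_cv_le a η t).trans ((hc.le t).trans (by linarith))
  exact
    { hd := fun t => Cv.hasDerivAt_zt hd t
      hc := Cv.continuous_zd hηc (hc.ccv a)
      im := fun t => by
        rw [Cv.zt_im]
        have h1 := Cv.eta_nn t
        have h2 := Cv.eta_le t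
        have h3 := (Fil.abs_cv_le a η t).trans (hc.le t)
        refine (abs_add_le _ _).trans_lt ?_
        have h4 := Cv.eta_abs t
        linarith
      re := fun t => by
        rw [Cv.zt_re]
        have h1 := H3 t
        have h2 : Real.exp (-(32 / 3) * |t|) ≤ 1 := Cv.exp32_le t
        have h3 : |deriv Cv.eta t| ≤ C3 := by nlinarith
        have h4 : |Fil.cv a η t| ≤ 1 / (2 * (C3 + 1)) := (hη t).trans (hεm.trans hε2)
        rw [show t - Fil.cv a η t * deriv Cv.eta t - t = -(Fil.cv a η t * deriv Cv.eta t) by ring,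
          abs_neg, abs_mul]
        calc |Fil.cv a η t| * |deriv Cv.eta t| ≤ 1 / (2 * (C3 + 1)) * C3 :=
              mul_le_mul h4 h3 (abs_nonneg _) (by positivity)
          _ ≤ 1 / 2 := by
              rw [div_mul_eq_mul_div, one_mul, div_le_div_iff₀ (by positivity) (by norm_num)]
              linarith
      ou := fun t ht => by
        rw [Cv.zt_re]
        have h1 : (1 - e1) * Tb (Real.log m) < |t| := by linarith
        have h2 := hcur.abs_le t
        rw [hcur.supp t h1] at h2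
        rw [Fil.cv_apply, abs_nonpos_iff.1 h2, zero_div, zero_mul, sub_zero]
      bd := fun t => by
        unfold Cv.zd Cv.gD1 iD
        have h1 := H1 t
        have h2 := @H2 _ hS t
        have e1' : ‖((Fil.cv a η1 t : ℂ) * I) * Cv.ga' t + ((Fil.cv a η t : ℂ) * I) * Cv.ga2 t‖ ≤
            1 * C1 + 1 * C2 := by
          refine (norm_add_le _ _).trans ?_
          rw [norm_mul, norm_mul, norm_mul, norm_mul, Complex.norm_I, mul_one, mul_one,
            Complex.norm_real, Complex.norm_real, Real.norm_eq_abs, Real.norm_eq_abs]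
          exact add_le_add (mul_le_mul (hη1 t) h1 (norm_nonneg _) zero_le_one)
            (mul_le_mul (hη0 t) h2 (norm_nonneg _) zero_le_one)
        refine (norm_add_le _ _).trans ?_
        linarith }

end

end PLT
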