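import Pool.Agent.PLT.DatOc
import Pool.Agent.PLT.WoC

/-!
# Families of groups in the data of a configuration over a sea on a static curve

Twin of the last statement of `PLX/NUSea/H0/SpG` (and of `PHK/H0/SpG`):
* `sext_of_spI`: the potentials of the groups and of the ends are admissible in the strips below `l / 5`;
* **`exists_spIOk`**: for the extra data of a family (`SpI`): `IOkC`, the size of `wOC`, its local energy, the bound
  of `ν`, uniformly in the family, in the sea and in the curves.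
-/

set_option autoImplicit false
set_option linter.unusedSectionVars false
set_option linter.unusedVariables false

open MeasureTheory Set Filter Topology Complex

namespace PLT.Cv

open NUMF (l l_pos)
open NUSp (qc)
open NUSea.PLX (Com)
open NUSea.PLX.H0 (Inp Spc SpI Gd kG0)

noncomputable section

attribute [local instance] NUSea.seaP in
private theorem spIspc {n : ℕ} {g : Fin n → Gd} {p q : ℂ} {I : Inp} {B' : Bool → ℝ → ℝ}
    (h : SpI p q g I B') : Spc (l / 5) kG0 15 I (NUSea.PLX.H0.cD fun i => (g i).G)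
      (NUSea.PLX.H0.hD p fun i => (g i).τ) (NUSea.PLX.H0.fD p q fun i => (g i).G)
      (NUSea.PLX.H0.fD1 p q fun i => (g i).G) (NUSea.PLX.H0.TG g) I.B B' := h.spc

/-- the potentials of the groups and of the ends in a strip below `l / 5` -/
theorem sext_of_spI {n : ℕ} {g : Fin n → Gd} {p q : ℂ} {I : Inp} {B' : Bool → ℝ → ℝ}
    (h : SpI p q g I B') {lo hi : ℝ} (h1 : -(l / 5) < lo) (h2 : hi < l / 5) (a : Bool) :
    SExt lo hi (I.A a) := by
  have S := spIspc h
  obtain ⟨b', hb⟩ : ∃ b', b' = max (-lo) hi := ⟨_, rfl⟩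
  have hb5 : b' < l / 5 := by
    rw [hb]
    exact max_lt (by linarith) h2
  have h3 : ∀ i, NUAct.Ext b' ((NUSea.PLX.H0.fD p q fun i => (g i).G) i a) := fun i =>
    NUSp.ext_of_potB (S.pot i a) hb5
  have hz : ∀ z : ℂ, lo ≤ z.im → z.im ≤ hi → |z.im| ≤ b' := fun z q1 q2 => by
    rw [hb, abs_le]
    have a1 := le_max_left (-lo) hi
    have a2 := le_max_right (-lo) hi
    constructor <;> linarith
  have e1 : I.A a = fun z => ∑ i, (NUSea.PLX.H0.fD p q fun i => (g i).G) i a z :=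
    funext fun z => S.A a z
  rw [e1]
  choose A hA using fun i => (h3 i).bd
  refine ⟨fun z q1 q2 => ?_, ∑ i, A i, fun z q1 q2 => ?_⟩
  · exact DifferentiableAt.fun_sum fun i _ => (h3 i).diff z (hz z q1 q2)
  · rw [Finset.sum_mul]
    exact (norm_sum_le _ _).trans (Finset.sum_le_sum fun i _ => hA i z (hz z q1 q2))

/-- **families of groups in the data over a sea on a static curve** -/
theorem exists_spIOk (B : SeaCB) : ∃ C K : ℝ, 1 ≤ C ∧ 1 ≤ K ∧ ∀ [SeaC] [SeaCU B], ∀ (n : ℕ)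
    (g : Fin n → Gd) (p q : ℂ) (I : Inp) (B' : Bool → ℝ → ℝ), SpI p q g I B' →
    ∀ (ε M b : ℝ) (e : ℝ → ℝ), (∀ a, 0 ≤ I.s a) → C * ε ≤ 1 / 2 →
      (∀ a, Cur (I.s a) ε M b e (I.η a)) → (∀ a t, HasDerivAt (I.η a) (I.η1 a t) t) →
    (∀ a t, |Sp.wOC (zI I) I a t| ≤ |I.B a t| + K * (n + 1)) ∧
    (∀ a, ContDiff ℝ 1 (Sp.wOC (zI I) I a)) ∧
    (∀ a T, 0 ≤ T → ∫ t in (-(T + 1))..(T + 1), (Sp.wOC (zI I) I a t ^ 2 +
      deriv (Sp.wOC (zI I) I a) t ^ 2) ≤
      2 * (∫ t in (-(T + 1))..(T + 1), (I.B a t ^ 2 + B' a t ^ 2)) + (K * (n + 1)) ^ 2) ∧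
    (∀ a t, |I.ν a t| ≤ K * ∑ i, Real.exp (-(5 / 2 * |t - (g i).τ|))) ∧
    (∀ a, ∫ t, |I.ν a t| ≤ K * n) ∧
    (∫ x, I.τD x = -∑ i, NUC43.sg (g i).σ * qc (g i).c / 2) ∧
    ∀ (lo hi Cp CB : ℝ), Str B lo hi → hi < l / 5 → 0 ≤ b → Com M I.s e I.η I.η1 →
      (∀ a, SPath lo hi (1 / 2) Cp (zt (gD (I.η a))) (zd (gD1 (I.η a) (I.η1 a)))) →
      (∀ a t, |I.B a t| ≤ CB) → IOkC B lo hi Cp ε M b e I := by
  obtain ⟨C, hC, H⟩ := exists_pthR B
  obtain ⟨K, hK, HK⟩ := Sp.exists_spGC C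
  refine ⟨C, K, hC, hK, @fun _ hS n g p q I B' h ε M b e hs hε hcur hd => ?_⟩
  have hP : ∀ a, Sp.PthR (l / 5) C (C * ε) (zI I a) (zd (gD1 (I.η a) (I.η1 a))) := fun a =>
    H (hs a) hε (hcur a) (hd a)
  obtain ⟨k1, k2, k3, k4, k5, k6, k7, k8, k9, k10, k11, k12, k13⟩ :=
    HK n g p q I B' h (C * ε) (zI I) (fun a => zd (gD1 (I.η a) (I.η1 a))) hP
  refine ⟨k1, k2, k3, k4, k5, k6, fun lo hi Cp CB str hhi hb hcom pth hB => ?_⟩
  exact
    { str := str
      s0 := hs
      b0 := hb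
      cur := hcur
      der := hd
      com := hcom
      pth := pth
      Ae := fun a => sext_of_spI h (by
        have h1 := str.h1
        have h2 := B.h1
        have := l_pos
        linarith) hhi a
      Bc := k13
      Bb := fun a => ⟨CB, hB a⟩
      νc := k8
      νi := k9
      νb := k10
      τi := k11
      τ1 := k12
      wc := k2
      wb := fun a => ⟨CB + K * (n + 1), fun t => (k1 a t).trans (by have := hB a t; linarith)⟩ }

end

end PLT.Cv
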