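import Pool.Agent.PLT.InHC
import Pool.Agent.PLT.SpGC
import Pool.Agent.PLT.PthC
import Pool.Agent.PHK.PotH.Fx
import Pool.Agent.PHK.H0.GasS6

/-!
# The data `inC` of a configuration over a sea on a static curve; data with a source

* **`exists_datFxHC`** = `exists_datFxHCp` (twin of `PotH.PLX.exists_datFxH6`): for `inC`, every family of groups, every admissible curve,
  every majorant `B` of bounded energy, every admissible potential `H`: `Cv.IOkC`, the charge, the pinned heights,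
  sizes of `ν` and of the remainder `wOC`, its local energy; constants before the sea;
* `wOC_addS`, **`IOkC.addS`**: the extra data with a source `addS I ν τ ψ`.
-/

set_option autoImplicit false
set_option linter.unusedSectionVars false
set_option linter.unusedVariables false

open MeasureTheory Set Filter Topology
open PLX (Fil Ends)

namespace PLT

open NUO (Tb TW)
open NUSea.PLX.H0 (Inp Gd TG SpI SrcOk RemOk addS srcP)
open NUGC (muS tauS)
open NUGC.PLX (pE qE chG gP)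
open PotH.PLX (sN sN_nonneg HOk energy4x)
open NUMF (l l_pos V)

noncomputable section

/-- **paths, size and energy of the remainder of the data `inC`** -/
theorem exists_datFxHC [Fil] [Ends] (SB : SeaCB) : ∃ Cp : ℝ, 0 ≤ Cp ∧ ∀ {lo hi : ℝ}, lo < -SB.d →
    SB.top < hi → -SB.h ≤ lo → hi ≤ l / 10 → ∀ (G : ℕ) {W C : ℝ}, 0 ≤ W → 0 ≤ C →
    ∀ {e1 Cc : ℝ}, 0 < e1 → e1 ≤ 1 / 100 → 1 ≤ Cc → ∀ {B0 N0 : ℝ}, 0 ≤ B0 → 0 ≤ N0 →
    ∃ (k : ℕ) (κ CB : ℝ), 0 < κ ∧ 0 ≤ CB ∧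
    ∀ ϑ : ℝ, 0 < ϑ → ∃ d : ℝ, 0 < d ∧ ∀ ep : ℝ, 0 < ep → ∃ m0 : ℕ, ∀ [S : SeaC] [SeaCU SB], ∀ m : ℕ,
    m0 ≤ m → ∀ η η1 : ℝ → ℝ, CrvP e1 Cc m η η1 →
    ∀ b' : ℝ, |b'| ≤ d → ∀ (T1 : ℝ) (g : Fin G → Gd), TW ep e1 m ≤ T1 →
    ∀ B B' : ℝ → ℝ, (∀ t, HasDerivAt B (B' t) t) → Continuous B' →
      (∀ t, 0 ≤ B t) → (∀ t, B t ≤ W) →
      Integrable (fun t => B t ^ 2 + B' t ^ 2) → (∫ t, B t ^ 2 + B' t ^ 2) ≤ C →
    ∀ (H H' : Bool → ℝ → ℝ) (bH AH : ℝ), HOk B0 N0 d bH AH H H' →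
    (∃ (ε M : ℝ) (e : ℝ → ℝ), Cv.IOkC SB lo hi Cp ε M ((1 - e1) * Tb (Real.log m)) e
        (inC η η1 m T1 b' g B H) ∧ ε ≤ (m : ℝ) ^ (-κ) ∧ M ≤ Real.log m ^ k) ∧
    (∫ t, (inC η η1 m T1 b' g B H).τD t = -chG g) ∧
    (∀ i, |(gP T1 g i).τ| ≤ T1) ∧
    (∀ a t, |(inC η η1 m T1 b' g B H).ν a t| ≤
      CB * ∑ j, Real.exp (-(5 / 2 * |t - (gP T1 g j).τ|))) ∧
    (∀ a t, |Sp.wOC (Cv.zI (inC η η1 m T1 b' g B H)) (inC η η1 m T1 b' g B H) a t| ≤ CB) ∧
    ∀ a T, 0 ≤ T → ∫ t in (-(T + 1))..(T + 1),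
      (Sp.wOC (Cv.zI (inC η η1 m T1 b' g B H)) (inC η η1 m T1 b' g B H) a t ^ 2 +
        deriv (Sp.wOC (Cv.zI (inC η η1 m T1 b' g B H)) (inC η η1 m T1 b' g B H) a) t ^ 2) ≤
      CB + ϑ * (T + 1) := by
  obtain ⟨Cε, K, hCε, hK, HK⟩ := Cv.exists_spIOk SB
  obtain ⟨Kp, hKp, HP⟩ := exists_pth SB
  obtain ⟨Kb, hKb, HB⟩ := Sp.exists_BF hKp
  obtain ⟨Cw, hCw, HW⟩ := Cv.Cur_path_w SB
  refine ⟨Cw, by linarith, @fun lo hi h1 h2 h3 h4 G W C hW hC e1 Cc he he1 hCc B0 N0 hB0' hN0 => ?_⟩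
  obtain ⟨CB, hCBd⟩ : ∃ CB : ℝ, CB = K + (W + Kb * G + B0 + 1 + K * (G + 1)) +
      (8 * C + 8 * (Kb * G) ^ 2 + 8 * N0 + (K * (G + 1)) ^ 2) := ⟨_, rfl⟩
  have hG0 : (0 : ℝ) ≤ G := Nat.cast_nonneg G
  have q1 : 0 ≤ W + Kb * G + B0 + 1 + K * (G + 1) := by positivity
  have q2 : 0 ≤ 8 * C + 8 * (Kb * G) ^ 2 + 8 * N0 + (K * (G + 1)) ^ 2 := by positivity
  have hK0 : 0 ≤ K := by linarith
  refine ⟨2, e1 / 2, CB, by (clear * - he; linarith), by rw [hCBd]; linarith, fun ϑ hϑ => ?_⟩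
  obtain ⟨d, hd⟩ : ∃ d : ℝ, d = min 1 (ϑ / 12) := ⟨_, rfl⟩
  have hd0 : 0 < d := by
    rw [hd]
    exact lt_min one_pos (by linarith)
  have hd1 : d ≤ 1 := by
    rw [hd]
    exact min_le_left _ _
  have hd2 : d ≤ ϑ / 12 := by
    rw [hd]
    exact min_le_right _ _
  refine ⟨d, hd0, fun ep hep => ?_⟩
  have h4' := (Real.tendsto_log_atTop.comp tendsto_natCast_atTop_atTop).eventually_ge_atTop
    (max 20 ((Fil.qo : ℕ) * Cc) : ℝ)
  obtain ⟨m2, hm2⟩ := Filter.eventually_atTop.1 h4'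
  -- size of the displacement
  obtain ⟨dl, hdl0, hdl1, hdl2, hdl3, hdl4⟩ : ∃ dl : ℝ, 0 < dl ∧ Cε * dl ≤ 1 / 2 ∧ Cw * dl ≤ 1 ∧
      lo + Cw * dl ≤ -SB.d ∧ SB.top + Cw * dl ≤ hi := by
    have c1 : 0 < Cε := by linarith
    have c2 : 0 < Cw := by linarith
    refine ⟨min (1 / (2 * Cε)) (min (1 / Cw) (min ((-SB.d - lo) / Cw) ((hi - SB.top) / Cw))), ?_, ?_, ?_, ?_, ?_⟩
    · have a1 : 0 < (-SB.d - lo) / Cw := div_pos (by linarith) c2
      have a2 : 0 < (hi - SB.top) / Cw := div_pos (by linarith) c2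
      exact lt_min (by positivity) (lt_min (by positivity) (lt_min a1 a2))
    · calc Cε * _ ≤ Cε * (1 / (2 * Cε)) := mul_le_mul_of_nonneg_left (min_le_left _ _) c1.le
        _ = 1 / 2 := by field_simp
    · calc Cw * _ ≤ Cw * (1 / Cw) := mul_le_mul_of_nonneg_left
            ((min_le_right _ _).trans (min_le_left _ _)) c2.le
        _ = 1 := by field_simp
    · have a1 : Cw * min (1 / (2 * Cε)) (min (1 / Cw) (min ((-SB.d - lo) / Cw) ((hi - SB.top) / Cw))) ≤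
          Cw * ((-SB.d - lo) / Cw) := mul_le_mul_of_nonneg_left ((min_le_right _ _).trans
            ((min_le_right _ _).trans (min_le_left _ _))) c2.le
      have a2 : Cw * ((-SB.d - lo) / Cw) = -SB.d - lo := by field_simp
      linarith
    · have a1 : Cw * min (1 / (2 * Cε)) (min (1 / Cw) (min ((-SB.d - lo) / Cw) ((hi - SB.top) / Cw))) ≤
          Cw * ((hi - SB.top) / Cw) := mul_le_mul_of_nonneg_left ((min_le_right _ _).trans
            ((min_le_right _ _).trans (min_le_right _ _))) c2.le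
      have a2 : Cw * ((hi - SB.top) / Cw) = hi - SB.top := by field_simp
      linarith
  have h5 := (tendsto_rpow_neg_atTop (show 0 < e1 / 2 by positivity)).comp
    (tendsto_natCast_atTop_atTop (R := ℝ))
  obtain ⟨m3, hm3⟩ := Filter.eventually_atTop.1 (h5.eventually_le_const hdl0)
  obtain ⟨m4, hm4, HP⟩ := HP ep hep e1 he he1
  obtain ⟨m5, hm5, HWn⟩ := exists_win he
  refine ⟨max m2 (max m3 (max m4 m5)), @fun S hS m km η η1 hcv b' hb' T1 g hT1 B B' hB hB' hB0 hBW hBi hBe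
    H H' bH AH hH => ?_⟩
  have k2 : m2 ≤ m := (le_max_left _ _).trans km
  have k3 : m3 ≤ m := (le_max_left _ _).trans ((le_max_right _ _).trans km)
  have k4 : m4 ≤ m := (le_max_left _ _).trans ((le_max_right _ _).trans ((le_max_right _ _).trans km))
  have k5 : m5 ≤ m := (le_max_right _ _).trans ((le_max_right _ _).trans ((le_max_right _ _).trans km))
  have k1 : 1 ≤ m := by omega
  have hL : max 20 ((Fil.qo : ℕ) * Cc) ≤ Real.log m := hm2 m k2
  have hL1 : 20 ≤ Real.log m := (le_max_left _ _).trans hL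
  have hL2 : (Fil.qo : ℕ) * Cc ≤ Real.log m := (le_max_right _ _).trans hL
  have hqo : (1 : ℝ) ≤ (Fil.qo : ℕ) := Fil.one_le_qor
  have hm0 : (0 : ℝ) ≤ m := Nat.cast_nonneg m
  have hT : 0 ≤ Tb (Real.log m) := by
    show 0 ≤ 3 / 8 * Real.log m
    clear * - he he1 hL1
    linarith
  have b0 : 0 ≤ (1 - e1) * Tb (Real.log m) := by
    have : 0 ≤ 1 - e1 := by linarith
    positivity
  have hT0 : 0 ≤ T1 := by
    obtain ⟨w1, -⟩ := HWn m k5 ep hep
    linarith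
  obtain ⟨ε, e, hcur, hcom, hε0, hε, hε1⟩ := hcv.spc SB k1
  have hεd : ε ≤ dl := hε.trans (hm3 m k3)
  have hP := fun a => HP m k4 Cc η η1 hcv T1 hT1 a
  have HBa := fun a => HB G g T1 (zC η a) (zC' η η1 a) hT0 (hP a)
  have p1 := fun a => (HBa a).1 a
  have p2 := fun a => (HBa a).2.1 a
  have p5 := fun a => (HBa a).2.2.2.2.1 a
  have p6 := fun a => (HBa a).2.2.2.2.2 a
  have hBc : Continuous B := continuous_iff_continuousAt.2 fun t => (hB t).continuousAt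
  have hBFc : ∀ a, Continuous (Sp.BF T1 g (zC η a) a) := fun a =>
    continuous_iff_continuousAt.2 fun t => (p1 a t).continuousAt
  have hHc : ∀ a, Continuous (H a) := fun a =>
    continuous_iff_continuousAt.2 fun t => (hH.d a t).continuousAt
  have SI : SpI pE qE (gP T1 g) (inC η η1 m T1 b' g B H)
      (fun a t => B' t + Sp.BF1 T1 g (zC η a) (zC' η η1 a) a t + H' a t) :=
    { hp := by unfold pE; rw [Complex.ofReal_re]
      hq := by unfold qE; rw [Complex.ofReal_re]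
      him := by unfold pE qE; rw [Complex.ofReal_im, Complex.ofReal_im]
      A := fun a z => rfl
      ν := rfl
      τ := rfl
      dB := fun a t => (((hB t).add (p1 a t)).add (hH.d a t)).sub_const _
      cB := fun a => (hB'.add (p2 a)).add (hH.c a) }
  have e1' : Cε * ε ≤ 1 / 2 := (mul_le_mul_of_nonneg_left hεd (by linarith)).trans hdl1
  obtain ⟨s1, s2, s3, s4, s5, s6, s8⟩ := HK G (gP T1 g) pE qE (inC η η1 m T1 b' g B H) _ SI ε
    ((Fil.qo : ℕ) * (Cc * Real.log m)) ((1 - e1) * Tb (Real.log m)) e (sN_nonneg m) e1' hcur hcv.dcv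
  have hIB : ∀ a t, |(inC η η1 m T1 b' g B H).B a t| ≤ W + Kb * G + B0 + 1 := by
    intro a t
    show |B t + Sp.BF T1 g (zC η a) a t + H a t - b' / 2| ≤ _
    have h1 := abs_sub (B t + Sp.BF T1 g (zC η a) a t + H a t) (b' / 2)
    have h2 := abs_add_le (B t + Sp.BF T1 g (zC η a) a t) (H a t)
    have h2' := abs_add_le (B t) (Sp.BF T1 g (zC η a) a t)
    have h3 := p5 a t
    have h3' := hH.le a t
    have h5 : |b' / 2| ≤ 1 := by
      rw [abs_div, abs_two]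
      clear * - he he1 hd1 hb'
      linarith
    rw [abs_of_nonneg (hB0 t)] at h2'
    clear * - h1 h2 h2' h3 h3' h5 hBW
    linarith [hBW t]
  have hCL : 1 ≤ Cc * Real.log m := by (clear * - he1 hCc hL1 he; nlinarith)
  have hMq : ((Fil.qo : ℕ) : ℝ) ≤ (Fil.qo : ℕ) * (Cc * Real.log m) := le_mul_of_one_le_right (by linarith) hCL
  have hcom' := hcom.mono hMq (hcur true).oc.nonneg
  have hcw : Cw * ε ≤ Cw * dl := mul_le_mul_of_nonneg_left hεd (by linarith)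
  have hIok : Cv.IOkC SB lo hi Cw ε ((Fil.qo : ℕ) * (Cc * Real.log m))
      ((1 - e1) * Tb (Real.log m)) e (inC η η1 m T1 b' g B H) := by
    have hl := l_pos
    refine s8 lo hi Cw (W + Kb * G + B0 + 1) ⟨h3, h1.le, h2.le, by linarith⟩ (by linarith) b0 hcom'
      (fun a => ?_) hIB
    exact HW (sN_nonneg m a) (by linarith) (by linarith) (by linarith) (hcur a) (hcv.dcv a)
  refine ⟨⟨ε, _, e, hIok, hε, ?_⟩, ?_, fun i => ?_, fun a t => ?_, fun a t => ?_, fun a T hT' => ?_⟩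
  · (clear * - hL2 hL1; nlinarith)
  · rw [s6]
    rfl
  · show |NUSp.pin T1 (g i).τ| ≤ T1
    exact NUSp.abs_pin_le hT0 _
  · refine (s4 a t).trans (mul_le_mul_of_nonneg_right ?_
      (Finset.sum_nonneg fun _ _ => (Real.exp_pos _).le))
    rw [hCBd]
    clear * - q1 q2
    linarith
  · refine (s1 a t).trans ?_
    have := hIB a t
    rw [hCBd]
    clear * - he he1 hK q2 this
    linarith
  · have hy : 0 ≤ T + 1 := by linarith
    refine (s3 a T hT').trans ?_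
    have e1' : ∫ t in (-(T + 1))..(T + 1), (B t ^ 2 + B' t ^ 2) ≤ C := by
      rw [intervalIntegral.integral_of_le (by (clear * - he he1 hT'; linarith))]
      exact (setIntegral_le_integral hBi (ae_of_all _ fun t => by (clear * -; positivity))).trans hBe
    have e2 := energy4x hBc hB' (hBFc a) (p2 a) (hHc a) (hH.c a) (b' / 2) hy e1' (p6 a (T + 1) hy)
      (hH.en a (T + 1) hy)
    have e3 : ∫ t in (-(T + 1))..(T + 1), ((inC η η1 m T1 b' g B H).B a t ^ 2 +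
        (B' t + Sp.BF1 T1 g (zC η a) (zC' η η1 a) a t + H' a t) ^ 2) =
        ∫ t in (-(T + 1))..(T + 1), ((B t + Sp.BF T1 g (zC η a) a t + H a t - b' / 2) ^ 2 +
          (B' t + Sp.BF1 T1 g (zC η a) (zC' η η1 a) a t + H' a t) ^ 2) := rfl
    rw [e3]
    have e5 : b' ^ 2 ≤ |b'| := by
      rw [← sq_abs]
      have := abs_nonneg b'
      clear * - hd1 hd0 hb' this
      nlinarith
    have e6 : (8 * d + 4 * b' ^ 2) * (T + 1) ≤ ϑ * (T + 1) :=
      mul_le_mul_of_nonneg_right (by (clear * - hd2 hb' e5; linarith)) hy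
    rw [hCBd]
    clear * - he he1 hK q1 e2 e6
    nlinarith

alias exists_datFxHCp := exists_datFxHC

/-! ### the extra data with a source -/

namespace Sp

variable {s E : ℝ} {ν : Bool → ℝ → ℝ} {τ : ℝ → ℝ} {ψ : Bool → ℝ → ℝ} {I : Inp} {ζ : Bool → ℝ → ℂ}

private lemma sg_eq (a : Bool) : NUC43.sg a = NUSea.PLX.H0.Dat.sg a := by
  cases a <;> simp [NUC43.sg, NUSea.PLX.H0.Dat.sg]

attribute [local instance] NUSea.seaP in
private lemma taulg {f : ℝ → ℝ} (h : Integrable f) (h1 : Integrable fun x => f x * x) (t : ℝ) :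
    Integrable fun u => f u * Real.log (NUMF.g (t - u)) := NUSea.PLX.H0.tau_logg_int h h1 t

/-- **the remainder of the data with a source** -/
theorem wOC_addS (hs : SrcOk s ν τ) (hc : ∀ a, Continuous (I.ν a)) (hb : ∀ a, ∃ C, ∀ t, |I.ν a t| ≤ C)
    (hτ : Integrable I.τD) (hτ1 : Integrable fun x => I.τD x * x) (ζ : Bool → ℝ → ℂ) (a : Bool) (t : ℝ) :
    wOC ζ (addS I ν τ ψ) a t = wOC ζ I a t + ψ a t := by
  obtain ⟨C, hC⟩ := hb a
  have i1 : Integrable fun u => I.ν a u * V (t - u) := by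
    have h1 : Integrable fun u => V (t - u) := NUMF.V_integral.1.comp_sub_left t
    exact (h1.mul_bdd (c := C) (hc a).aestronglyMeasurable (ae_of_all _ hC)).congr
      (ae_of_all _ fun u => mul_comm _ _)
  have e1 : NUSea.PLX.H0.Vn (addS I ν τ ψ) a t = NUSea.PLX.H0.Vn I a t + ∫ u, ν a u * V (t - u) := by
    unfold NUSea.PLX.H0.Vn
    rw [← integral_add i1 ((hs.dν a).V_in t)]
    refine integral_congr_ae (ae_of_all _ fun u => ?_)
    show (I.ν a u + ν a u) * V (t - u) = _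
    ring
  have e2 : NUC43.lgp (addS I ν τ ψ).τD t = NUC43.lgp I.τD t + NUC43.lgp τ t := by
    unfold NUC43.lgp
    rw [← integral_add (taulg hτ hτ1 t) (hs.dτ.lg_in t)]
    refine integral_congr_ae (ae_of_all _ fun u => ?_)
    show (I.τD u + τ u) * Real.log (NUMF.g (t - u)) = _
    ring
  unfold wOC
  rw [e1, e2]
  show (I.A a (ζ a t)).re + (I.B a t + (srcP ν τ a t + ψ a t)) - _ - _ = _
  unfold srcP
  rw [sg_eq]
  ring

end Sp

namespace Cv

variable [SeaC] {SB : SeaCB} {lo hi Cp ε M b s E : ℝ} {e : ℝ → ℝ} {I : Inp} {ν : Bool → ℝ → ℝ} {τ : ℝ → ℝ}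
  {ψ : Bool → ℝ → ℝ}

theorem IOkC.wOC_addS (h : IOkC SB lo hi Cp ε M b e I) (hs : SrcOk s ν τ) (ζ : Bool → ℝ → ℂ) (a : Bool) :
    Sp.wOC ζ (addS I ν τ ψ) a = fun t => Sp.wOC ζ I a t + ψ a t :=
  funext fun t => Sp.wOC_addS hs h.νc h.νb h.τi h.τ1 ζ a t

/-- without a remainder the source does not change `wOC` -/
theorem IOkC.wOC_addS0 (h : IOkC SB lo hi Cp ε M b e I) (hs : SrcOk s ν τ) :
    Sp.wOC (zI (addS I ν τ NUSea.PLX.H0.ψ0)) (addS I ν τ NUSea.PLX.H0.ψ0) = Sp.wOC (zI I) I := by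
  funext a t
  rw [h.wOC_addS hs]
  exact add_zero _

/-- **the extra data with a source are admissible** -/
theorem IOkC.addS (h : IOkC SB lo hi Cp ε M b e I) (hs : SrcOk s ν τ) (hψ : RemOk s E ψ) :
    IOkC SB lo hi Cp ε M b e (NUSea.PLX.H0.addS I ν τ ψ) where
  str := h.str
  s0 := h.s0
  b0 := h.b0
  cur := h.cur
  der := h.der
  com := h.com
  pth := h.pth
  Ae := h.Ae
  Bc a := (h.Bc a).add ((hs.cont a).add (hψ.c a).continuous)
  Bb a := by
    obtain ⟨C, hC⟩ := h.Bb a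
    refine ⟨C + ((12 + ∫ u, |V u|) * s + s), fun t => ?_⟩
    show |I.B a t + (srcP ν τ a t + ψ a t)| ≤ _
    have h1 := hC t
    have h2 := hs.le a t
    have h3 := hψ.b a t
    have h4 := abs_add_le (I.B a t) (srcP ν τ a t + ψ a t)
    have h5 := abs_add_le (srcP ν τ a t) (ψ a t)
    linarith
  νc a := (h.νc a).add (hs.dν a).c
  νi a := (h.νi a).add (hs.dν a).int
  νb a := by
    obtain ⟨C, hC⟩ := h.νb a
    refine ⟨C + s, fun t => ?_⟩
    show |I.ν a t + ν a t| ≤ _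
    have h1 := hC t
    have h2 := (hs.dν a).le t
    have h4 := abs_add_le (I.ν a t) (ν a t)
    linarith
  τi := h.τi.add hs.dτ.int
  τ1 := by
    refine (h.τ1.add hs.dτ.mul_id).congr (ae_of_all _ fun x => ?_)
    show I.τD x * x + τ x * x = (I.τD x + τ x) * x
    ring
  wc a := by
    show ContDiff ℝ 1 (Sp.wOC (zI I) (NUSea.PLX.H0.addS I ν τ ψ) a)
    rw [h.wOC_addS hs]
    exact (h.wc a).add (hψ.c a)
  wb a := by
    obtain ⟨C, hC⟩ := h.wb a
    refine ⟨C + s, fun t => ?_⟩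
    show |Sp.wOC (zI I) (NUSea.PLX.H0.addS I ν τ ψ) a t| ≤ _
    rw [h.wOC_addS hs]
    have h1 := hC t
    have h3 := hψ.b a t
    have h4 := abs_add_le (Sp.wOC (zI I) I a t) (ψ a t)
    linarith

/-- the same, no remainder -/
theorem IOkC.addS0 (h : IOkC SB lo hi Cp ε M b e I) (hs : SrcOk s ν τ) :
    IOkC SB lo hi Cp ε M b e (NUSea.PLX.H0.addS I ν τ NUSea.PLX.H0.ψ0) :=
  h.addS hs (NUSea.PLX.H0.remOk_zero hs.s0)

end Cv

end

end PLT
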