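import Pool.Agent.PLT.DatCC
import Pool.Agent.PLT.DatC
import Pool.Agent.PLT.FxHC

/-!
# The data of the gas with a source, static curve

* `pot_addSC`, `fld_addSC`, `shl_addSC`: potentials, field equation, majorants with a source of the height `0`;
* **`DatCC.addS`**: data of the gas and a source of size `s`: data of the gas for `addS I ν τ 0`, the one body factors
  are multiplied by `exp (srcP ν τ a)`.
-/

set_option autoImplicit false
set_option linter.unusedSectionVars false
set_option linter.unusedVariables false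

noncomputable section

open MeasureTheory Finset Filter Topology

namespace PLT.Cv

open NUO (TW Tb)
open NUSea.PLX.H0 (Inp SrcOk RemOk srcP ψ0 plt_ge remOk_zero)

section

variable [SeaC] {I : Inp} {r : ℕ} {O : Fin r → Oc} {s : ℝ} {ν : Bool → ℝ → ℝ} {τ : ℝ → ℝ} {ψ : Bool → ℝ → ℝ}
  {aX aY cf B1 : ℝ → ℝ} {D q : ℝ}

/-- the potentials with a source -/
theorem pot_addSC (a : Bool) (t : ℝ) :
    (datC (NUSea.PLX.H0.addS I ν τ ψ) O).pot a t = (datC I O).pot a t + (srcP ν τ a t + ψ a t) := by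
  show (vb I.s a (zI I a t) + FC I O a (zI I a t)).re + (I.B a t + (srcP ν τ a t + ψ a t)) =
    (vb I.s a (zI I a t) + FC I O a (zI I a t)).re + I.B a t + (srcP ν τ a t + ψ a t)
  ring

/-- the one body factors with a source -/
theorem shl_addSC (h : Gs.Shl (datC I O) aX aY cf B1 D q) (hs : SrcOk s ν τ) :
    Gs.Shl (datC (NUSea.PLX.H0.addS I ν τ ψ0) O) (fun t => aX t * Real.exp (srcP ν τ true t))
      (fun t => aY t * Real.exp (srcP ν τ false t)) cf B1 D q where
  mX := h.mX.mul (Real.continuous_exp.comp (hs.cont true)).measurable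
  mY := h.mY.mul (Real.continuous_exp.comp (hs.cont false)).measurable
  mc := h.mc
  mB := h.mB
  X0 t := mul_nonneg (h.X0 t) (Real.exp_pos _).le
  Y0 t := mul_nonneg (h.Y0 t) (Real.exp_pos _).le
  c0 := h.c0
  B0 := h.B0
  D0 := h.D0
  q0 := h.q0
  cB := h.cB
  cD := h.cD
  leX t := by
    rw [pot_addSC, show ψ0 true t = 0 from rfl, add_zero, Real.exp_add, mul_right_comm]
    exact mul_le_mul_of_nonneg_right (h.leX t) (Real.exp_pos _).le
  leY t := by
    rw [pot_addSC, show ψ0 false t = 0 from rfl, add_zero, Real.exp_add, mul_right_comm]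
    exact mul_le_mul_of_nonneg_right (h.leY t) (Real.exp_pos _).le

end

section

variable {B : SeaCB} [SeaC] [SeaCU B] {lo hi Cp ε M b : ℝ} {e : ℝ → ℝ} {I : Inp} {lo' hi' kd A ε' c : ℝ}
  {r : ℕ} {O : Fin r → Oc} {s : ℝ} {ν : Bool → ℝ → ℝ} {τ : ℝ → ℝ} {p n : ℕ}

/-- **the field equation with a source** -/
theorem fld_addSC (h : IOkC B lo hi Cp ε M b e I) (hO : ∀ i, (O i).Ok lo' hi' kd A ε' c)
    (hf : Gs.Fld (datC I O) p n) (hs : SrcOk s ν τ) :
    Gs.Fld (datC (NUSea.PLX.H0.addS I ν τ ψ0) O) p n := by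
  refine fldC (h.addS0 hs) hO ?_
  have h1 := hf.τ0
  rw [datC_τint hO h.τi] at h1
  have h2 : ∫ x, (NUSea.PLX.H0.addS I ν τ ψ0).τD x = ∫ x, I.τD x := by
    show ∫ x, (I.τD x + τ x) = _
    rw [integral_add h.τi hs.dτ.int, hs.τ0, add_zero]
  rw [h2]
  exact h1.symm

end

section

variable {B : SeaCB} [SeaC] [SeaCU B] {Q : Par7} {A εo ep e1 κ CB ϑ kb : ℝ} {k m : ℕ} {I : Inp} {r : ℕ}
  {O : Fin r → Oc} {G : ℕ} {g : Fin G → ℝ} {p n : ℕ} {aX aY cf B1 : ℝ → ℝ} {T1 D q S : ℝ}
  {s : ℝ} {ν : Bool → ℝ → ℝ} {τ : ℝ → ℝ}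

/-- **the data of the gas with a source** -/
theorem DatCC.addS (h : DatCC B Q A εo ep e1 κ CB ϑ kb k m I O g p n aX aY cf B1 T1 D q S)
    (hT : 0 ≤ TW ep e1 m) (hs : SrcOk s ν τ) :
    DatCC B Q A εo ep e1 κ (CB + s) ϑ kb k m (NUSea.PLX.H0.addS I ν τ ψ0) O g p n
      (fun t => aX t * Real.exp (srcP ν τ true t)) (fun t => aY t * Real.exp (srcP ν τ false t))
      cf B1 T1 D q S := by
  have s0 := hs.s0
  obtain ⟨ε, M, e, hI, h1, h2⟩ := h.ok
  have hw := hI.wOC_addS0 hs
  exact
    { s1 := h.s1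
      s2 := h.s2
      pk := h.pk
      nk := h.nk
      rk := h.rk
      ok := ⟨ε, M, e, hI.addS0 hs, h1, h2⟩
      h1 := fun t => (h.h1 t).trans (by linarith)
      obj := h.obj
      pr := h.pr
      fld := fld_addSC hI h.obj h.fld hs
      shl := shl_addSC h.shl hs
      q1 := h.q1
      tw := h.tw
      DS := h.DS
      gs := h.gs
      ν0 := fun a t => by
        have b1 := h.ν0 a t
        have b2 := (hs.dν a).b t
        have b3 := plt_ge hT t
        have b4 : 0 ≤ ∑ j, Real.exp (-(5 / 2 * |t - g j|)) :=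
          Finset.sum_nonneg fun _ _ => (Real.exp_pos _).le
        show |I.ν a t + ν a t| ≤ _
        refine (abs_add_le _ _).trans ?_
        have b5 := mul_le_mul_of_nonneg_left b3 s0
        have b6 := mul_nonneg s0 b4
        linarith
      w0 := fun a t => by
        rw [hw]
        have := h.w0 a t
        linarith
      w1 := fun a T hT => by
        rw [hw]
        have := h.w1 a T hT
        linarith
      c2 := fun t => by
        refine (h.c2 t).trans ?_
        have hm : (0 : ℝ) ≤ m := Nat.cast_nonneg m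
        have : 0 ≤ s * m * Real.exp (-(|t| / 2)) := by positivity
        linarith }

end

end PLT.Cv

end
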