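import Pool.Agent.PLT.LinTC
import Pool.Agent.PHK.PotH.InH

/-!
# The data of a configuration over a sea on a static curve (definitions)

Twin of `PHK/PotH/InH`.

* `zC η a`: the curve of the species `a` in the rotated coordinate, `zC' η η1 a` its derivative;
* **`inC`**: extra data (the record `Inp` of `NUSea.PLX.H0`); `raC`: real rest; **`aCC`**: species factor;
* `hasDerivAt_BC`, `spC`: the real potentials of `inC`.
-/

set_option autoImplicit false
set_option linter.unusedSectionVars false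
set_option linter.unusedVariables false

noncomputable section

open MeasureTheory Finset Filter Topology
open PLX (Fil Ends)

namespace PLT

open NUO (Xo ht Tb TW excS)
open NUSea.PLX.H0 (Inp Gd TG)
open NUGC (muS tauS)
open NUGC.PLX (pE qE gP)
open PotH.PLX (sN)

variable [SeaC] [Fil] [Ends]

/-- the curve of the species `a` -/
def zC (η : ℝ → ℝ) (a : Bool) : ℝ → ℂ := Cv.zt (Cv.gD (Fil.cv a η))

/-- its derivative -/
def zC' (η η1 : ℝ → ℝ) (a : Bool) : ℝ → ℂ := Cv.zd (Cv.gD1 (Fil.cv a η) (Fil.cv a η1))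

lemma zC_eq (η : ℝ → ℝ) (a : Bool) (t : ℝ) : zC η a t = t + dsp η a t := zt_gD η a t

/-- **the extra data**: row numbers `sN m a`, curves `Fil.cv a η`, groups at the pinned heights, `B1`
the majorant of the cutoff, `H` the potential, `b'` the tilt -/
def inC (η η1 : ℝ → ℝ) (m : ℕ) (T1 b' : ℝ) {G : ℕ} (g : Fin G → Gd) (B1 : ℝ → ℝ)
    (H : Bool → ℝ → ℝ) : Inp where
  s := sN m
  η a := Fil.cv a η
  η1 a := Fil.cv a η1
  A a z := NUSp.DD pE qE (List.ofFn fun i => (gP T1 g i).G) a z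
  B a t := B1 t + Sp.BF T1 g (zC η a) a t + H a t - b' / 2
  ν := muS (TG (gP T1 g))
  τD := tauS (TG (gP T1 g))

/-- the real rest of the one body factor -/
def raC (η : ℝ → ℝ) (T1 b' : ℝ) {G : ℕ} (g : Fin G → Gd) (H : Bool → ℝ → ℝ) (a : Bool) (t : ℝ) : ℝ :=
  Sp.BF T1 g (zC η a) a t + H a t - b' / 2

/-- **the species factor** of the one body factors of a configuration -/
def aCC (P : PHK.Par6) (η : ℝ → ℝ) (m : ℕ) (T1 b' : ℝ) {G : ℕ} (g : Fin G → Gd)
    (H : Bool → ℝ → ℝ) {r : ℕ} (O : Fin r → Xo) (a : Bool) (t : ℝ) : ℝ :=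
  Real.exp ((Cv.vb (sN m) a (zC η a t)).re +
    (PHK.FO6 P O a (zC η a t) + NUSp.DD pE qE (List.ofFn fun i => (gP T1 g i).G) a (zC η a t)).re +
    raC η T1 b' g H a t)

end PLT

end
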