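import Pool.Agent.PLT.GDCdef
import Pool.Agent.PLT.PotS
import Pool.Agent.PLT.InHC
import Pool.Agent.PLT.PthC
import Pool.Agent.PHK.PotH.Gd

/-!
# The one body factors in the bulk over a sea on a static curve

Twins of `PHK/PotH/GdA` and `PHK/PotH/Gd`.

* `gd_confAC`, `gd_DDAC`: the data `GDC` of a configuration with objects, ends and groups;
* **`exists_gdC`**: the one body factors `aCC` satisfy `GDC`.
-/

set_option autoImplicit false
set_option linter.unusedSectionVars false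
set_option linter.unusedVariables false

open MeasureTheory Set Filter Topology
open PLX (Fil Ends)

namespace PLT

open NUMF (l l_pos)
open NUO (Xo ht Away kb Tb TW)
open NUS4 (R1f)
open NUSp (Grp DD hasDerivAt_DD gn)
open NUS4C.PLX (norm_DD)
open NUSea.PLX.H0 (Gd TG cstF hfar_in)
open NUGC.PLX (pE qE gP)
open PotH.PLX (sN sN_le le_sN cfH cstF_le)
open PHK (Par6 FO6)
open Cv (PGC AS AS_pos)

noncomputable section

/-- **the data of the sharp bound for a configuration**: curve `η`, rows `s`, extra analytic potentials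
`A`, real rests `Er`; at most `log m` objects at heights at most `(log m)²` -/
theorem gd_confAC {δ lo hi e1 κ : ℝ} (hδ : 0 < δ) (hδ1 : δ ≤ 1) (he : 0 < e1) (he1 : e1 ≤ 1 / 4)
    (hκ : 0 < κ) (k : ℕ) : ∃ m0 : ℕ, ∀ m ≥ m0, ∀ [SeaC] (s : Bool → ℝ) (R : ℝ) (P : Par6)
    (η η1 : Bool → ℝ → ℝ) (A : Bool → ℂ → ℂ) (Er : Bool → ℝ → ℝ) (r : ℕ) (O : Fin r → Xo)
    (aX aY : ℝ → ℝ),
    (∀ a, (m : ℝ) / 2 ≤ s a) → (∀ a, s a ≤ (m : ℝ) ^ 2) →
    PGC δ lo hi P → Real.log m ≤ R →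
    R ≤ 2 * Real.log m ^ 2 → (1 - e1) * Tb (Real.log m) + 3 ≤ R →
    (∀ a, ∃ (ε Mc : ℝ) (ec : ℝ → ℝ), Cv.Cur (s a) ε Mc ((1 - e1) * Tb (Real.log m)) ec (η a) ∧
      ε ≤ (m : ℝ) ^ (-κ) ∧ Mc ≤ Real.log m ^ k) →
    (∀ a t, HasDerivAt (η a) (η1 a t) t) →
    (∀ a (z : ℂ), |z.re| ≤ (1 - e1) * Tb (Real.log m) + 2 → lo < z.im →
      z.im < hi → DifferentiableAt ℂ (A a) z ∧ ‖A a z‖ ≤ Real.log m ^ k) →
    (∀ a, NUR2.Ext 4 ((1 - e1) * Tb (Real.log m)) (Real.log m ^ k) (Er a)) →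
    (r : ℝ) ≤ Real.log m → (∀ i, |ht (O i)| ≤ Real.log m ^ 2) →
    (∀ t, 0 ≤ aX t) → (∀ t, 0 ≤ aY t) → Measurable aX → Measurable aY →
    (∀ t, |t| ≤ (1 - e1) * Tb (Real.log m) → aX t = Real.exp ((Cv.vb s true (Cv.zt (Cv.gD (η true)) t)).re +
      (FO6 P O true (Cv.zt (Cv.gD (η true)) t) + A true (Cv.zt (Cv.gD (η true)) t)).re + Er true t)) →
    (∀ t, |t| ≤ (1 - e1) * Tb (Real.log m) → aY t = Real.exp ((Cv.vb s false (Cv.zt (Cv.gD (η false)) t)).re +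
      (FO6 P O false (Cv.zt (Cv.gD (η false)) t) + A false (Cv.zt (Cv.gD (η false)) t)).re +
        Er false t)) →
    GDC lo hi m (k + 5) κ e1 s R ((1 - e1) * Tb (Real.log m)) (η true) (η1 true) (η false)
      (η1 false) aX aY := by
  obtain ⟨K0, hK0⟩ : ∃ K0 : ℝ, K0 = 5 * AS δ := ⟨_, rfl⟩
  have hK00 : 0 ≤ K0 := by
    rw [hK0]
    have := AS_pos hδ hδ1
    positivity
  have h4 := (Real.tendsto_log_atTop.comp tendsto_natCast_atTop_atTop).eventually_ge_atTop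
    (max 8 (K0 + 4))
  obtain ⟨m2, hm2⟩ := Filter.eventually_atTop.1 h4
  refine ⟨m2, fun m hm _ s R P η η1 A Er r O aX aY hs1 hs2 hP hR1 hR2 hbR hcur hd hA hEr
    hr hht ha0 hb0 ham hbm hX hY => ?_⟩
  have g2 := hm2 m hm
  obtain ⟨L, hL⟩ : ∃ L, L = Real.log m := ⟨_, rfl⟩
  have g2' : max 8 (K0 + 4) ≤ Real.log m := g2
  rw [← hL] at g2'
  have hL8 : 8 ≤ L := (le_max_left _ _).trans g2'
  have hLK : K0 + 4 ≤ L := (le_max_right _ _).trans g2'
  have hbd : (1 - e1) * Tb (Real.log m) = R1f e1 m + 1 := by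
    unfold R1f Tb
    ring
  have hb2 : (1 - e1) * Tb (Real.log m) ≤ L := by
    rw [← hL]
    unfold Tb
    nlinarith
  -- the potential
  have hF : ∀ (a : Bool) (z : ℂ), |z.re| ≤ (1 - e1) * Tb (Real.log m) + 2 →
      lo < z.im → z.im < hi →
      DifferentiableAt ℂ (fun z => FO6 P O a z + A a z) z ∧ ‖FO6 P O a z + A a z‖ ≤ L ^ (k + 5) := by
    intro a z hz1 hz2 hz3
    obtain ⟨d1, n1⟩ := hA a z hz1 hz2 hz3
    have d3 := (Cv.hasDerivAt_FO6C hP hz2.le hz3.le O a).differentiableAt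
    have n3 := Cv.norm_FO6C hP hz2.le hz3.le O a
    refine ⟨d3.fun_add d1, ?_⟩
    rw [← hL] at n1 hr
    have hLk : 1 ≤ L ^ k := one_le_pow₀ (by linarith)
    have n4 : ‖FO6 P O a z‖ ≤ K0 * (L * (4 * L ^ 2)) := by
      refine n3.trans ?_
      have s1 : ∑ i, (1 + |z.re - ht (O i)|) ≤ r * (4 * L ^ 2) := by
        have : ∀ i : Fin r, 1 + |z.re - ht (O i)| ≤ 4 * L ^ 2 := by
          intro i
          have t1 := abs_sub z.re (ht (O i))
          have t2 := hht i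
          rw [← hL] at t2
          have t3 : |z.re| ≤ L + 2 := hz1.trans (by linarith)
          nlinarith
        refine (Finset.sum_le_sum fun i _ => this i).trans (le_of_eq ?_)
        rw [Finset.sum_const, Finset.card_univ, Fintype.card_fin, nsmul_eq_mul]
      calc 5 * AS δ * ∑ i, (1 + |z.re - ht (O i)|) = K0 * ∑ i, (1 + |z.re - ht (O i)|) := by
            rw [hK0]
        _ ≤ K0 * (r * (4 * L ^ 2)) := mul_le_mul_of_nonneg_left s1 hK00
        _ ≤ K0 * (L * (4 * L ^ 2)) := by gcongr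
    calc ‖FO6 P O a z + A a z‖ ≤ ‖FO6 P O a z‖ + ‖A a z‖ := norm_add_le _ _
      _ ≤ K0 * (L * (4 * L ^ 2)) + L ^ k := by gcongr
      _ ≤ K0 * (L * (4 * L ^ 2)) * L ^ k + L ^ k := by
          have : K0 * (L * (4 * L ^ 2)) * 1 ≤ K0 * (L * (4 * L ^ 2)) * L ^ k :=
            mul_le_mul_of_nonneg_left hLk (by positivity)
          linarith
      _ = (K0 * 4 * L ^ 3 + 1) * L ^ k := by ring
      _ ≤ L ^ 5 * L ^ k := by
          refine mul_le_mul_of_nonneg_right ?_ (by positivity)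
          have t1 : K0 * 4 * L ^ 3 ≤ (L - 4) * 4 * L ^ 3 := by
            have : K0 ≤ L - 4 := by linarith
            gcongr
          have t2 : 1 ≤ L ^ 3 := one_le_pow₀ (by linarith)
          nlinarith [mul_nonneg (mul_nonneg (by linarith : 0 ≤ L) (by linarith : 0 ≤ L - 8))
            (by positivity : 0 ≤ L ^ 3)]
      _ = L ^ (k + 5) := by ring
  refine ⟨hs1, hs2, hR1, hR2, hbd.ge, hbR, ?_, ?_, hd true, hd false, ha0, hb0, ham, hbm, ?_, ?_⟩
  · obtain ⟨ε, Mc, ec, hc, hc1, hc2⟩ := hcur true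
    refine ⟨ε, Mc, ec, hc, hc1, hc2.trans ?_⟩
    rw [← hL]
    exact pow_le_pow_right₀ (by linarith) (by omega)
  · obtain ⟨ε, Mc, ec, hc, hc1, hc2⟩ := hcur false
    refine ⟨ε, Mc, ec, hc, hc1, hc2.trans ?_⟩
    rw [← hL]
    exact pow_le_pow_right₀ (by linarith) (by omega)
  · refine ⟨L ^ (k + 5), L ^ k, fun z => FO6 P O true z + A true z, Er true,
      by positivity, by rw [hL], ?_, hF true, by rw [hL]; exact hEr true, hX⟩
    rw [← hL]
    exact pow_le_pow_right₀ (by linarith) (by omega)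
  · refine ⟨L ^ (k + 5), L ^ k, fun z => FO6 P O false z + A false z, Er false,
      by positivity, by rw [hL], ?_, hF false, by rw [hL]; exact hEr false, hY⟩
    rw [← hL]
    exact pow_le_pow_right₀ (by linarith) (by omega)

/-- **the data of the sharp bound with spectators**: `gd_confAC` with `A a = DD p q L a`, ends at
height `0`, at most `N` groups at heights at most `(log m)²`, real rests `Er` -/
theorem gd_DDAC {δ lo hi e1 κ : ℝ} (hδ : 0 < δ) (hδ1 : δ ≤ 1) (hlo : -(l / 10) ≤ lo) (hhi : hi ≤ l / 10)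
    (he : 0 < e1) (he1 : e1 ≤ 1 / 4) (hκ : 0 < κ) (N k : ℕ) (hk : 3 ≤ k) : ∃ m0 : ℕ, ∀ m ≥ m0,
    ∀ [SeaC] (s : Bool → ℝ) (R : ℝ) (P : Par6) (η η1 : Bool → ℝ → ℝ) (p q : ℂ) (L : List Grp)
    (Er : Bool → ℝ → ℝ) (r : ℕ) (O : Fin r → Xo) (aX aY : ℝ → ℝ),
    (∀ a, (m : ℝ) / 2 ≤ s a) → (∀ a, s a ≤ (m : ℝ) ^ 2) →
    PGC δ lo hi P → Real.log m ≤ R →
    R ≤ 2 * Real.log m ^ 2 → (1 - e1) * Tb (Real.log m) + 3 ≤ R →
    (∀ a, ∃ (ε Mc : ℝ) (ec : ℝ → ℝ), Cv.Cur (s a) ε Mc ((1 - e1) * Tb (Real.log m)) ec (η a) ∧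
      ε ≤ (m : ℝ) ^ (-κ) ∧ Mc ≤ Real.log m ^ k) →
    (∀ a t, HasDerivAt (η a) (η1 a t) t) →
    Away (1 / 4) p → Away (1 / 4) q → p.im = 0 → q.im = 0 → L.length ≤ N →
    (∀ G ∈ L, gn G ≤ 15 ∧ ∃ τ, |τ| ≤ Real.log m ^ 2 ∧ G.Ok (1 / 4) τ) →
    (∀ a, NUR2.Ext 4 ((1 - e1) * Tb (Real.log m)) (Real.log m ^ k) (Er a)) →
    (r : ℝ) ≤ Real.log m → (∀ i, |ht (O i)| ≤ Real.log m ^ 2) →
    (∀ t, 0 ≤ aX t) → (∀ t, 0 ≤ aY t) → Measurable aX → Measurable aY →
    (∀ t, |t| ≤ (1 - e1) * Tb (Real.log m) → aX t = Real.exp ((Cv.vb s true (Cv.zt (Cv.gD (η true)) t)).re +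
      (FO6 P O true (Cv.zt (Cv.gD (η true)) t) + DD p q L true (Cv.zt (Cv.gD (η true)) t)).re +
        Er true t)) →
    (∀ t, |t| ≤ (1 - e1) * Tb (Real.log m) → aY t = Real.exp ((Cv.vb s false (Cv.zt (Cv.gD (η false)) t)).re +
      (FO6 P O false (Cv.zt (Cv.gD (η false)) t) + DD p q L false (Cv.zt (Cv.gD (η false)) t)).re +
        Er false t)) →
    GDC lo hi m (k + 5) κ e1 s R ((1 - e1) * Tb (Real.log m)) (η true) (η1 true) (η false)
      (η1 false) aX aY := by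
  have hlp := l_pos
  obtain ⟨m1, H⟩ := gd_confAC (lo := lo) (hi := hi) hδ hδ1 he he1 hκ k
  obtain ⟨K, hK⟩ : ∃ K : ℝ, K = |kb (1 / 4) (l / 10)| * (2 + 15 * N) := ⟨_, rfl⟩
  have hK0 : 0 ≤ K := by rw [hK]; positivity
  have h4 := (Real.tendsto_log_atTop.comp tendsto_natCast_atTop_atTop).eventually_ge_atTop
    (max 3 (3 * K))
  obtain ⟨m2, hm2⟩ := Filter.eventually_atTop.1 h4
  refine ⟨max m1 m2, fun m hm _ s R P η η1 p q L Er r O aX aY hs1 hs2 hP hR1 hR2 hbR hcur hd hp hq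
    hp0 hq0 hLN hL hEr hr hht ha0 hb0 ham hbm hX hY => ?_⟩
  have g : max 3 (3 * K) ≤ Real.log m := hm2 m ((le_max_right _ _).trans hm)
  have g1 : 3 ≤ Real.log m := (le_max_left _ _).trans g
  have g2 : 3 * K ≤ Real.log m := (le_max_right _ _).trans g
  obtain ⟨lm, hlm⟩ : ∃ lm, lm = Real.log m := ⟨_, rfl⟩
  refine H m ((le_max_left _ _).trans hm) s R P η η1 (fun a => DD p q L a) Er r O aX aY hs1 hs2
    hP hR1 hR2 hbR hcur hd ?_ hEr hr hht ha0 hb0 ham hbm hX hY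
  intro a z hz1 hz2 hz3
  have hw0 : 0 < l / 10 := by positivity
  have hb4 : l / 10 < 1 / 4 * l := by linarith
  have hz : |z.im| < l / 10 := abs_lt.2 ⟨by linarith, by linarith⟩
  refine ⟨(hasDerivAt_DD hw0 hb4 hp hq (by rw [hp0, hq0]) (fun G hG => ?_) a hz).differentiableAt, ?_⟩
  · obtain ⟨-, τ, -, h⟩ := hL G hG
    exact ⟨τ, h⟩
  · have h1 := norm_DD hw0 hb4 hp hq hp0 hq0 hL (by positivity) a hz
    refine h1.trans ?_
    rw [← hlm] at hz1 g1 g2 ⊢
    have hb2 : (1 - e1) * Tb lm ≤ lm := by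
      unfold Tb
      nlinarith
    have h2 : 1 + |z.re| + lm ^ 2 ≤ 3 * lm ^ 2 := by nlinarith
    have h3 : |kb (1 / 4) (l / 10)| * (2 + 15 * (L.length : ℝ)) ≤ K := by
      rw [hK]
      have : (L.length : ℝ) ≤ N := by exact_mod_cast hLN
      gcongr
    calc |kb (1 / 4) (l / 10)| * (2 + 15 * (L.length : ℝ)) * (1 + |z.re| + lm ^ 2) ≤
          K * (3 * lm ^ 2) := by gcongr
      _ = 3 * K * lm ^ 2 := by ring
      _ ≤ lm * lm ^ 2 := by gcongr
      _ = lm ^ 3 := by ring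
      _ ≤ lm ^ k := pow_le_pow_right₀ (by linarith) hk

/-! ### the one body factors of TARGET-C -/

variable [Fil] [Ends]

/-- the species factor is continuous -/
theorem continuous_aCC (B : SeaCB) [SeaC] [SeaCU B] {δ lo hi : ℝ} {P : Par6} (hP : PGC δ lo hi P)
    {η η1 : ℝ → ℝ} {m : ℕ} {T1 b' K : ℝ} {G : ℕ} {g : Fin G → Gd} {H : Bool → ℝ → ℝ}
    (hH : ∀ a, Continuous (H a)) {r : ℕ} (O : Fin r → Xo) (a : Bool)
    (hp : Sp.Pth (l / 5) T1 K (zC η a) (zC' η η1 a)) (hlo : ∀ t, lo ≤ (zC η a t).im)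
    (hhi : ∀ t, (zC η a t).im ≤ hi) (hh : ∀ t, -(2 * B.h) < (zC η a t).im) :
    Continuous (aCC P η m T1 b' g H O a) := by
  have hl := l_pos
  have hz := hp.cont
  have key : ∀ F : ℂ → ℂ, (∀ t, DifferentiableAt ℂ F (zC η a t)) → Continuous fun t => (F (zC η a t)).re :=
    fun F hF => continuous_iff_continuousAt.2 fun t =>
      Complex.continuous_re.continuousAt.comp
        (ContinuousAt.comp (f := zC η a) (hF t).continuousAt hz.continuousAt)
  have h1 : ∀ t, (zC η a t).im < l / 2 := fun t => by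
    have := (abs_lt.1 (hp.im t)).2
    linarith
  have c1 := key (Cv.vb (sN m) a) fun t => by
    have d1 := Cv.diff_vs B (hh t) (h1 t)
    have d2 := Cv.diff_vx B (hh t) (h1 t)
    unfold Cv.vb
    exact (d1.const_mul _).add (d2.const_mul _)
  have c2 := key (fun z => FO6 P O a z + DD pE qE (List.ofFn fun i => (gP T1 g i).G) a z) fun t => by
    refine ((Cv.hasDerivAt_FO6C hP (hlo t) (hhi t) O a).differentiableAt).add
      (hasDerivAt_DD (δ := 1 / 4) (b := l / 5) (by positivity) (by linarith)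
        (NUSea.PLX.H0.away_p (Complex.ofReal_re _)) (NUSea.PLX.H0.away_q (Complex.ofReal_re _))
        ((Complex.ofReal_im _).trans (Complex.ofReal_im _).symm) (fun G' hG' => ?_) a
        (hp.im t)).differentiableAt
    rw [List.mem_ofFn] at hG'
    obtain ⟨i, rfl⟩ := hG'
    exact ⟨_, (gP T1 g i).ok⟩
  have c3 : Continuous (raC η T1 b' g H a) :=
    ((Sp.cont_BF g a hp).add (hH a)).sub continuous_const
  unfold aCC
  exact Real.continuous_exp.comp ((c1.add c2).add c3)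

/-- **the one body factors in the bulk** -/
theorem exists_gdC (B : SeaCB) {δ lo hi top ep e1 Cc : ℝ} (hδ : 0 < δ) (hδ1 : δ ≤ 1)
    (hlo : -(l / 10) ≤ lo) (hhi : hi ≤ l / 10) (hE : ∀ [SeaC] [SeaCU B], ∀ t, lo ≤ Cv.eta t)
    (hT : ∀ [SeaC] [SeaCU B], ∀ t, Cv.eta t ≤ top) (htop : top < hi) (hep : 0 < ep) (he : 0 < e1)
    (he1 : e1 ≤ 1 / 100) (G k : ℕ) (hk : 4 ≤ k) :
    ∃ m0 : ℕ, 3 ≤ m0 ∧ ∀ [SeaC] [SeaCU B], ∀ m : ℕ, m0 ≤ m → ∀ (P : Par6),
      PGC δ lo hi P → ∀ η η1 : ℝ → ℝ, CrvP e1 Cc m η η1 →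
      ∀ (b' : ℝ), |b'| ≤ 1 → ∀ (T1 x : ℝ) (g : Fin G → Gd) (H : Bool → ℝ → ℝ),
      (∀ a, Continuous (H a)) →
      (∀ a, NUR2.Ext 4 ((1 - e1) * Tb (Real.log m)) (Real.log m ^ 3) (H a)) →
      ∀ (cr : ℝ → ℝ), (∃ Ec : ℝ → ℝ, NUR2.Ext 4 ((1 - e1) * Tb (Real.log m)) 1 Ec ∧
        ∀ t, |t| ≤ (1 - e1) * Tb (Real.log m) → cr t = Real.exp (Ec t)) → ∀ (r : ℕ)
      (O : Fin r → Xo), TW ep e1 m ≤ T1 → (∀ i, |(g i).τ| ≤ Real.log m ^ 2) →
      Measurable (cfH cr G T1 x) → (∀ t, 0 ≤ cfH cr G T1 x t) →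
      (r : ℝ) ≤ Real.log m → (∀ i, |ht (O i)| ≤ Real.log m ^ 2) →
      GDC lo hi m (k + 5) (e1 / 2) e1 (sN m) (2 * Real.log m ^ 2) ((1 - e1) * Tb (Real.log m))
        (Fil.cv true η) (Fil.cv true η1) (Fil.cv false η) (Fil.cv false η1)
        (fun t => aCC P η m T1 b' g H O true t * cfH cr G T1 x t)
        (fun t => aCC P η m T1 b' g H O false t * cfH cr G T1 x t) := by
  have hlp := l_pos
  obtain ⟨m1, HH⟩ := gd_DDAC (κ := e1 / 2) hδ hδ1 hlo hhi he (by linarith) (half_pos he) G k (by omega)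
  obtain ⟨K, hK, HP0⟩ := exists_pth B
  obtain ⟨m2, hm2, HP⟩ := HP0 ep hep e1 he he1
  have h5 := (tendsto_rpow_neg_atTop (half_pos he)).comp (tendsto_natCast_atTop_atTop (R := ℝ))
  have h6 := h5.eventually_le_const (show (0 : ℝ) < hi - top by linarith)
  obtain ⟨m5, hm5⟩ := Filter.eventually_atTop.1 h6
  have h4 := (Real.tendsto_log_atTop.comp tendsto_natCast_atTop_atTop).eventually_ge_atTop
    (3 * (G : ℝ) + 5 + (Fil.qo : ℕ) + |(Fil.qo : ℕ) * Cc|)
  obtain ⟨m3, hm3⟩ := Filter.eventually_atTop.1 h4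
  refine ⟨max (max m1 m3) (max m2 m5), hm2.trans ((le_max_left _ _).trans (le_max_right _ _)),
    @fun _ hS m hm P hP η η1 hc b' hb' T1 x g H hHc hHe cr hcr r O hT1 hg hcm hc0 hr hht => ?_⟩
  have k1 : m1 ≤ m := (le_max_left _ _).trans ((le_max_left _ _).trans hm)
  have k3 : m3 ≤ m := (le_max_right _ _).trans ((le_max_left _ _).trans hm)
  have k2 : m2 ≤ m := (le_max_left _ _).trans ((le_max_right _ _).trans hm)
  have k5 : m5 ≤ m := (le_max_right _ _).trans ((le_max_right _ _).trans hm)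
  have k4 : 3 ≤ m := hm2.trans k2
  have hmε : (m : ℝ) ^ (-(e1 / 2)) ≤ hi - top := hm5 m k5
  have hG0 : (0 : ℝ) ≤ G := Nat.cast_nonneg G
  have hqo : (1 : ℝ) ≤ (Fil.qo : ℕ) := Fil.one_le_qor
  have hLG' : 3 * (G : ℝ) + 5 + (Fil.qo : ℕ) + |(Fil.qo : ℕ) * Cc| ≤ Real.log m := hm3 m k3
  have hCc := le_abs_self ((Fil.qo : ℕ) * Cc)
  have hCc0 := abs_nonneg ((Fil.qo : ℕ) * Cc)
  have hLG : 3 * (G : ℝ) + 5 ≤ Real.log m := by linarith
  have hL : 5 ≤ Real.log m := by linarith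
  have hmp : (0 : ℝ) ≤ m := Nat.cast_nonneg m
  have hm1 : 1 ≤ m := by omega
  have hlm : Real.log m ≤ m := by
    have h1 : (0 : ℝ) < m := by exact_mod_cast hm1
    linarith [Real.log_le_sub_one_of_pos h1]
  have hsN2 : ∀ a, sN m a ≤ (m : ℝ) ^ 2 := by
    intro a
    refine (sN_le hm1 a).trans ?_
    rw [pow_two]
    exact mul_le_mul_of_nonneg_right (by linarith) hmp
  have hTb : Tb (Real.log m) = 3 / 8 * Real.log m := rfl
  have hTW : TW ep e1 m = (1 + 2 * e1 + 2 * ep) * (3 / 8 * Real.log m) := rfl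
  have hbT : (1 - e1) * Tb (Real.log m) ≤ T1 := by
    refine le_trans ?_ hT1
    rw [hTW, hTb]
    refine mul_le_mul_of_nonneg_right (by linarith) (by linarith)
  have hT10 : 0 ≤ T1 := by
    refine le_trans ?_ hbT
    rw [hTb]
    have : 0 ≤ 1 - e1 := by linarith
    have : 0 ≤ Real.log m := by linarith
    positivity
  obtain ⟨Ec, hEc, hcE⟩ := hcr
  have key : ∀ a t, |t| ≤ (1 - e1) * Tb (Real.log m) →
      aCC P η m T1 b' g H O a t * cfH cr G T1 x t =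
      Real.exp ((Cv.vb (sN m) a (Cv.zt (Cv.gD (Fil.cv a η)) t)).re +
        (FO6 P O a (Cv.zt (Cv.gD (Fil.cv a η)) t) +
          DD pE qE (List.ofFn fun i => (g i).G) a (Cv.zt (Cv.gD (Fil.cv a η)) t)).re +
        ((H a t + Ec t) + (-(cstF T1 g a) + -(b' / 2)))) := by
    intro a t ht
    have h1 := Sp.fam_in (g := g) (T := T1) pE qE a (ht.trans hbT) (zC η a)
    have h2 : aCC P η m T1 b' g H O a t = Real.exp ((Cv.vb (sN m) a (zC η a t)).re +
        (FO6 P O a (zC η a t) + DD pE qE (List.ofFn fun i => (gP T1 g i).G) a (zC η a t)).re +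
          raC η T1 b' g H a t) := rfl
    have h3 : cfH cr G T1 x t = Real.exp (Ec t) := by
      unfold cfH
      rw [@hfar_in NUSea.seaP _ _ _ _ (ht.trans hbT), mul_one, hcE t ht]
    have h4 : raC η T1 b' g H a t = Sp.BF T1 g (zC η a) a t + H a t - b' / 2 := rfl
    have h5 : (fun i => (gP T1 g i).G) = fun i => ((g i).pin T1).G := rfl
    have h6 : Cv.zt (Cv.gD (Fil.cv a η)) = zC η a := rfl
    rw [h2, h3, ← Real.exp_add, h4, h6]
    congr 1
    rw [Complex.add_re, Complex.add_re, h1, h5]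
    ring
  have hTb0 : (1 - e1) * Tb (Real.log m) + 3 ≤ 2 * Real.log m ^ 2 := by
    rw [hTb]
    nlinarith
  have hMk : (Fil.qo : ℕ) * (Cc * Real.log m) ≤ Real.log m ^ k := by
    calc ((Fil.qo : ℕ) : ℝ) * (Cc * Real.log m) = ((Fil.qo : ℕ) * Cc) * Real.log m := by ring
      _ ≤ Real.log m * Real.log m := mul_le_mul_of_nonneg_right (by linarith) (by linarith)
      _ = Real.log m ^ 2 := by ring
      _ ≤ Real.log m ^ k := pow_le_pow_right₀ (by linarith) (by omega)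
  obtain ⟨ε, e, hcu, -, hε0, hε, hεl⟩ := hc.spc B hm1
  have hmeas : ∀ a, Measurable (aCC P η m T1 b' g H O a) := by
    intro a
    have hpth := HP m k2 Cc η η1 hc T1 hT1 a
    have him : ∀ t, (zC η a t).im = Cv.eta t + Fil.cv a η t := fun t => Cv.zt_im _ t
    have hnn := hc.nncv a
    have hle : ∀ t, Fil.cv a η t ≤ hi - top := fun t =>
      (le_abs_self _).trans (((hcu a).abs_le t).trans (((hcu a).le t).trans (hε.trans hmε)))
    refine (continuous_aCC B hP hHc O a hpth (fun t => ?_) (fun t => ?_) (fun t => ?_)).measurable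
    · rw [him]
      linarith [hE t, hnn t]
    · rw [him]
      linarith [hT t, hle t]
    · rw [him]
      linarith [Cv.eta_h B t, hnn t, B.h0]
  refine HH m k1 (sN m) (2 * Real.log m ^ 2) P (fun a => Fil.cv a η)
    (fun a => Fil.cv a η1) pE qE (List.ofFn fun i => (g i).G)
    (fun a t => (H a t + Ec t) + (-(cstF T1 g a) + -(b' / 2))) r O _ _
    (fun a => (by linarith : (m : ℝ) / 2 ≤ m).trans (le_sN m a)) hsN2
    hP (by nlinarith) le_rfl hTb0 (fun a => ⟨ε, _, e, hcu a, hε, hMk⟩) hc.dcv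
    (NUSea.PLX.H0.away_p (Complex.ofReal_re _)) (NUSea.PLX.H0.away_q (Complex.ofReal_re _)) (Complex.ofReal_im _)
    (Complex.ofReal_im _) (by rw [List.length_ofFn]) ?_ ?_ hr hht
    (fun t => mul_nonneg (Real.exp_pos _).le (hc0 t)) (fun t => mul_nonneg (Real.exp_pos _).le (hc0 t))
    ((hmeas true).mul hcm) ((hmeas false).mul hcm) (key true) (key false)
  · intro G' hG'
    rw [List.mem_ofFn] at hG'
    obtain ⟨i, rfl⟩ := hG'
    exact ⟨NUSp.gn_grp _ _ _, (g i).τ, hg i, (g i).ok⟩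
  · intro a
    have h1 : NUR2.Ext 4 ((1 - e1) * Tb (Real.log m)) (3 * G * Real.log m ^ 2 + 1)
        (fun _ => -(cstF T1 g a) + -(b' / 2)) := by
      refine NUR2.Ext.of_O (NUOC.O.const 4 ?_)
      refine (abs_add_le _ _).trans (add_le_add ?_ ?_)
      · rw [abs_neg]
        exact @cstF_le NUSea.seaP _ g _ _ hT10 hg a
      · rw [abs_neg, abs_div, abs_two]
        linarith
    refine (((hHe a).add hEc).add h1).mono ?_
    have h3 : Real.log m ^ 4 ≤ Real.log m ^ k := pow_le_pow_right₀ (by linarith) hk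
    have h5 : Real.log m ^ 4 = Real.log m ^ 3 * Real.log m := by ring
    have h6 : Real.log m ^ 3 = Real.log m ^ 2 * Real.log m := by ring
    have h7 : (25 : ℝ) ≤ Real.log m ^ 2 := by nlinarith
    have h8 : 3 * G * Real.log m ^ 2 ≤ Real.log m ^ 3 := by
      rw [h6, mul_comm (Real.log m ^ 2)]
      exact mul_le_mul_of_nonneg_right (by linarith) (by positivity)
    have h9 : 1 ≤ Real.log m ^ 3 := one_le_pow₀ (by linarith)
    nlinarith

end

end PLT
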