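import Pool.Agent.PLT.InHC
import Pool.Agent.PLT.DatOc
import Pool.Agent.PLT.PotS
import Pool.Agent.PHK.Z1S

/-!
# The positive gas of a configuration over a sea on a static curve, with a statistic inside

Twin of `PHK/Z1S` over `SeaC`: displacements `dsp η`, data `Cv.datC I O'` of the objects `O'` with the potentials
`fO6 P (O i)`.

* `qAC_nonneg`, **`qAC_le_inp`**: the one body factor of a configuration on the curve;
* `gasIC_mono`, `gasIC_le_W0`, **`gasIC_le_inp`**: from `Gs.W0` of the data to `gasIC`.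
-/

set_option autoImplicit false
set_option linter.unusedSectionVars false

noncomputable section

open MeasureTheory Finset
open scoped ENNReal
open PLX (Fil Ends)

namespace PLT

open NUO NUBR NUGC.PLX PHK NUBR.PLX
open NUSea.PLX.H0 (Inp)

section

variable [SeaC] [Fil] [Ends]

/-- the displacement of the data is the displacement of the curve -/
lemma datC_D {I : Inp} {η : ℝ → ℝ} (hI : ∀ a, I.η a = Fil.cv a η) {r : ℕ} (O' : Fin r → Cv.Oc)
    (a : Bool) : (Cv.datC I O').D a = dsp η a := by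
  funext t
  show NUKer.iD Cv.eta t + Cv.gD (I.η a) t = Cv.eta t * Complex.I + Cv.gD (Fil.cv a η) t
  rw [hI]
  rfl

lemma datC_D1 {I : Inp} {η η1 : ℝ → ℝ} (hI : ∀ a, I.η a = Fil.cv a η) (hI1 : ∀ a, I.η1 a = Fil.cv a η1)
    {r : ℕ} (O' : Fin r → Cv.Oc) (a : Bool) : (Cv.datC I O').D1 a = dsp1 η η1 a := by
  funext t
  show NUKer.iD (deriv Cv.eta) t + Cv.gD1 (I.η a) (I.η1 a) t =
    deriv Cv.eta t * Complex.I + Cv.gD1 (Fil.cv a η) (Fil.cv a η1) t
  rw [hI, hI1]
  rfl

lemma zI_cv {I : Inp} {η : ℝ → ℝ} (hI : ∀ a, I.η a = Fil.cv a η) (a : Bool) (t : ℝ) :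
    Cv.zI I a t = zC η a t := by
  unfold Cv.zI zC
  rw [hI]

/-- the point of the curve -/
private lemma ptC_dsp (η : ℝ → ℝ) (a : Bool) (t : ℝ) :
    ptC (dsp η) a t = NUMF.l + Complex.I * zC η a t := by
  rw [zC_eq]
  unfold ptC
  rw [show NUP1.vl NUP1.l t = (NUMF.l : ℂ) + t * Complex.I from rfl]
  ring

/-- the potentials of the objects of the data -/
lemma FC_eq {I : Inp} {P : Par6} {r : ℕ} {O : Fin r → Xo} {O' : Fin r → Cv.Oc}
    (hO : ∀ i a z, (O' i).F a z = fO6 P (O i) a z) (a : Bool) (z : ℂ) :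
    Cv.FC I O' a z = FO6 P O a z + I.A a z := by
  unfold Cv.FC FO6
  congr 1
  exact Finset.sum_congr rfl fun i _ => hO i a z

theorem qAC_nonneg {B : OB} (hB : B.Nn) (P : Par6) (D : Bool → ℝ → ℂ) {r : ℕ} (O : Fin r → Xo)
    (a : Bool) (t : ℝ) : 0 ≤ qAC B P D O a t := by
  have h1 := hB a (ptC D a t)
  have h2 := prod_potN6_nonneg P O a (ptC D a t)
  have := Real.pi_pos
  unfold qAC
  positivity

variable {δ lo hi : ℝ} {P : Par6}

/-- **the one body factor of a configuration on the curve** -/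
theorem qAC_le_inp {B : OB} {I : Inp} (hP : Cv.PGC δ lo hi P) {η : ℝ → ℝ} {a : Bool} {t : ℝ} (hlo : lo ≤ (zC η a t).im) (hhi : (zC η a t).im ≤ hi) {r : ℕ}
    (O : Fin r → Xo) {κ e cf : ℝ}
    (h : B.R a (ptC (dsp η) a t) * ‖B.φ a (ptC (dsp η) a t)‖ ≤ 2 * Real.cos NUP1.l * Real.exp κ *
      (Real.exp ((Cv.vb I.s a (zC η a t)).re + (I.A a (zC η a t)).re + e) * cf)) :
    qAC B P (dsp η) O a t ≤ NUMFC.act * Real.exp κ *
      (Real.exp ((Cv.vb I.s a (zC η a t)).re + (FO6 P O a (zC η a t) + I.A a (zC η a t)).re + e) *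
        cf) := by
  have h1 : ∏ i, potN6 P O i a (ptC (dsp η) a t) = Real.exp (FO6 P O a (zC η a t)).re := by
    rw [ptC_dsp]
    exact Cv.exp_FO6C hP hlo hhi O a
  have hpi := Real.pi_pos
  set w := zC η a t
  unfold qAC
  rw [h1, ← act_cos, Complex.add_re]
  calc (2 * Real.pi)⁻¹ * (B.R a (ptC (dsp η) a t) * ‖B.φ a (ptC (dsp η) a t)‖) *
        Real.exp (FO6 P O a w).re ≤ (2 * Real.pi)⁻¹ * (2 * Real.cos NUP1.l * Real.exp κ *
          (Real.exp ((Cv.vb I.s a w).re + (I.A a w).re + e) * cf)) *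
        Real.exp (FO6 P O a w).re := by gcongr
    _ = _ := by
        rw [show (Cv.vb I.s a w).re + ((FO6 P O a w).re + (I.A a w).re) + e =
          ((Cv.vb I.s a w).re + (I.A a w).re + e) + (FO6 P O a w).re by ring, Real.exp_add
            ((Cv.vb I.s a w).re + (I.A a w).re + e)]
        ring

end

/-! ### the positive gas -/

section

variable [SeaC] [Fil] [Ends]

private theorem gasIC_mono {B : OB} {P : Par6} {D D1 : Bool → ℝ → ℂ} {r : ℕ} {O : Fin r → Xo} {p q : ℕ}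
    {Ψ Ψ' : (Fin p → ℝ) × (Fin q → ℝ) → ℝ≥0∞} (h : ∀ x, Ψ x ≤ Ψ' x) :
    gasIC B P D D1 O p q Ψ ≤ gasIC B P D D1 O p q Ψ' := by
  unfold gasIC
  exact mul_le_mul_right (lintegral_mono fun x => mul_le_mul_right (h x) _) _

private theorem gasIC_const {B : OB} {P : Par6} {D D1 : Bool → ℝ → ℂ} {r : ℕ} {O : Fin r → Xo} {p q : ℕ}
    {c : ℝ≥0∞} (hc : c ≠ ⊤) :
    gasIC B P D D1 O p q (fun _ => c) = c * Z1C B P D D1 O p q := by
  unfold gasIC Z1C
  rw [lintegral_mul_const' _ _ hc]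
  ring

private theorem gasIC_le_const {B : OB} {P : Par6} {D D1 : Bool → ℝ → ℂ} {r : ℕ} {O : Fin r → Xo} {p q : ℕ}
    {Ψ : (Fin p → ℝ) × (Fin q → ℝ) → ℝ≥0∞} {c : ℝ≥0∞} (hc : c ≠ ⊤) (h : ∀ x, Ψ x ≤ c) :
    gasIC B P D D1 O p q Ψ ≤ c * Z1C B P D D1 O p q :=
  (gasIC_mono h).trans (gasIC_const hc).le

/-- the activities of the mean field exponent -/
lemma act_Mp (X : Gs.Dat) (p n : ℕ) :
    NUMFC.act ^ (p + n) * Real.exp (X.Mp p n) = Real.exp X.M0 := by
  have hact := NUMFC.act_pos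
  have e : NUMFC.act ^ (p + n) = Real.exp (((p : ℝ) + n) * Real.log NUMFC.act) := by
    rw [← Nat.cast_add, ← Real.log_pow, Real.exp_log (pow_pos hact _)]
  rw [e, ← Real.exp_add]
  unfold Gs.Dat.Mp
  congr 1
  ring

/-- **from `W0` to `gasIC`**: `X` the data of the sea, one body factors dominated up to constants -/
theorem gasIC_le_W0 {B : OB} (hB : B.Nn) {P : Par6} {D D1 : Bool → ℝ → ℂ} {r : ℕ}
    {O : Fin r → Xo} {p n : ℕ} {X : Gs.Dat} {aX aY cf : ℝ → ℝ} {cX cY E : ℝ}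
    {Ψ : (Fin p → ℝ) × (Fin n → ℝ) → ℝ≥0∞} {Y : ℝ≥0∞}
    (hD : ∀ a, X.D a = D a) (hD1 : ∀ a, X.D1 a = D1 a)
    (hX : ∀ t, qAC B P D O true t ≤ NUMFC.act * Real.exp cX * (aX t * cf t))
    (hY : ∀ t, qAC B P D O false t ≤ NUMFC.act * Real.exp cY * (aY t * cf t))
    (h : ∫⁻ x, ENNReal.ofReal (Gs.W0 X p n aX aY cf x) * Ψ x ≤
      ENNReal.ofReal ((p.factorial : ℝ) * n.factorial * Real.exp (X.Mp p n + E)) * Y) :
    gasIC B P D D1 O p n Ψ ≤ ENNReal.ofReal (Real.exp (X.M0 + E + cX * p + cY * n)) * Y := by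
  have hact := NUMFC.act_pos
  have hc : 0 ≤ (NUMFC.act * Real.exp cX) ^ p * (NUMFC.act * Real.exp cY) ^ n := by positivity
  have h1 : ∀ x : (Fin p → ℝ) × (Fin n → ℝ),
      ENNReal.ofReal (NU42.WO (D true) (D1 true) (D false) (D1 false) (qAC B P D O true)
        (qAC B P D O false) x.1 x.2) * Ψ x ≤
        ENNReal.ofReal ((NUMFC.act * Real.exp cX) ^ p * (NUMFC.act * Real.exp cY) ^ n) *
        (ENNReal.ofReal (Gs.W0 X p n aX aY cf x) * Ψ x) := by
    intro x
    rw [← mul_assoc, ← ENNReal.ofReal_mul hc]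
    refine mul_le_mul_left (ENNReal.ofReal_le_ofReal ?_) _
    unfold Gs.W0
    rw [hD, hD, hD1, hD1, ← WO_smul2]
    exact WO_mono _ _ _ _ (fun t => qAC_nonneg hB P D O true t)
      (fun t => qAC_nonneg hB P D O false t) hX hY _ _
  have e1 : (NUMFC.act * Real.exp cX) ^ p * (NUMFC.act * Real.exp cY) ^ n *
      Real.exp (X.Mp p n + E) = Real.exp (X.M0 + E + cX * p + cY * n) := by
    have e2 := act_Mp X p n
    rw [show X.M0 + E + cX * p + cY * n = X.M0 + (E + (p * cX + n * cY)) by ring,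
      Real.exp_add, Real.exp_add, Real.exp_add, Real.exp_add, Real.exp_nat_mul, Real.exp_nat_mul,
      ← e2]
    ring
  unfold gasIC
  calc ((p.factorial : ℝ≥0∞) * n.factorial)⁻¹ * ∫⁻ x : (Fin p → ℝ) × (Fin n → ℝ),
        ENNReal.ofReal (NU42.WO (D true) (D1 true) (D false) (D1 false) (qAC B P D O true)
          (qAC B P D O false) x.1 x.2) * Ψ x ≤
      ((p.factorial : ℝ≥0∞) * n.factorial)⁻¹ * (ENNReal.ofReal
        ((NUMFC.act * Real.exp cX) ^ p * (NUMFC.act * Real.exp cY) ^ n) *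
        (ENNReal.ofReal ((p.factorial : ℝ) * n.factorial * Real.exp (X.Mp p n + E)) * Y)) := by
        refine mul_le_mul_right ?_ _
        refine (lintegral_mono h1).trans ?_
        rw [lintegral_const_mul' _ _ ENNReal.ofReal_ne_top]
        exact mul_le_mul_right h _
    _ = ENNReal.ofReal ((NUMFC.act * Real.exp cX) ^ p * (NUMFC.act * Real.exp cY) ^ n) *
        (((p.factorial : ℝ≥0∞) * n.factorial)⁻¹ *
          ENNReal.ofReal ((p.factorial : ℝ) * n.factorial * Real.exp (X.Mp p n + E))) *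
          Y := by
        ring
    _ = _ := by rw [fac_cancel p n hc e1]

end

section

variable [SeaC] [Fil] [Ends] {δ lo hi : ℝ} {P : Par6}

/-- **from `W0` of the data of a configuration to `gasIC`**: `cc` the constants of the two species, `e` a real
exponent, `c` the tilt per quantum; the one body factors are those of the potentials of the objects, of the
analytic data `I.A` and of the real exponent -/
theorem gasIC_le_inp {B : OB} (hB : B.Nn) {I : Inp} (hP : Cv.PGC δ lo hi P) {η η' : ℝ → ℝ}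
    (hI : ∀ a, I.η a = Fil.cv a η) (hI1 : ∀ a, I.η1 a = Fil.cv a η')
    (hlo : ∀ a t, lo ≤ (zC η a t).im) (hhi : ∀ a t, (zC η a t).im ≤ hi) {r : ℕ} {O : Fin r → Xo}
    {O' : Fin r → Cv.Oc} {p n : ℕ} {cc : Bool → ℝ} {e : Bool → ℝ → ℝ} {cf : ℝ → ℝ} {c E : ℝ}
    {Ψ : (Fin p → ℝ) × (Fin n → ℝ) → ℝ≥0∞} {Y : ℝ≥0∞}
    (h1 : ∀ a t, B.R a (ptC (dsp η) a t) * ‖B.φ a (ptC (dsp η) a t)‖ ≤
      2 * Real.cos NUP1.l * Real.exp (cc a) *
      (Real.exp ((Cv.vb I.s a (zC η a t)).re + (I.A a (zC η a t)).re + e a t) * cf t))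
    (h : ∫⁻ x, ENNReal.ofReal (Gs.W0 (Cv.datC I O') p n
        (fun t => Real.exp ((Cv.vb I.s true (zC η true t)).re +
          (FO6 P O true (zC η true t) + I.A true (zC η true t)).re + (e true t + c)))
        (fun t => Real.exp ((Cv.vb I.s false (zC η false t)).re +
          (FO6 P O false (zC η false t) + I.A false (zC η false t)).re + (e false t + c))) cf x) * Ψ x ≤
      ENNReal.ofReal ((p.factorial : ℝ) * n.factorial * Real.exp ((Cv.datC I O').Mp p n + E)) * Y) :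
    ENNReal.ofReal (Real.exp (c * ((p : ℝ) + n))) * gasIC B P (dsp η) (dsp1 η η') O p n Ψ ≤
      ENNReal.ofReal (Real.exp ((Cv.datC I O').M0 + E + cc true * p + cc false * n)) * Y := by
  have key : ∀ a t, qAC B P (dsp η) O a t ≤ NUMFC.act * Real.exp (cc a - c) *
      (Real.exp ((Cv.vb I.s a (zC η a t)).re +
          (FO6 P O a (zC η a t) + I.A a (zC η a t)).re + (e a t + c)) * cf t) := by
    intro a t
    refine qAC_le_inp (κ := cc a - c) (e := e a t + c) (cf := cf t) hP (hlo a t) (hhi a t) O ?_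
    refine (h1 a t).trans (le_of_eq ?_)
    set w := zC η a t
    rw [show (Cv.vb I.s a w).re + (I.A a w).re + (e a t + c) =
      ((Cv.vb I.s a w).re + (I.A a w).re + e a t) + c by ring, Real.exp_add
        ((Cv.vb I.s a w).re + (I.A a w).re + e a t) c,
      show cc a = (cc a - c) + c by ring, Real.exp_add (cc a - c) c,
      show cc a - c + c - c = cc a - c by ring]
    ring
  have h2 := gasIC_le_W0 (cX := cc true - c) (cY := cc false - c) hB
    (fun a => datC_D hI O' a) (fun a => datC_D1 hI hI1 O' a) (key true) (key false) h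
  calc ENNReal.ofReal (Real.exp (c * ((p : ℝ) + n))) * gasIC B P (dsp η) (dsp1 η η') O p n Ψ ≤
      ENNReal.ofReal (Real.exp (c * ((p : ℝ) + n))) * (ENNReal.ofReal (Real.exp ((Cv.datC I O').M0 + E +
        (cc true - c) * p + (cc false - c) * n)) * Y) := by gcongr
    _ = _ := by
        rw [← mul_assoc, ← ENNReal.ofReal_mul (Real.exp_pos _).le, ← Real.exp_add]
        congr 3
        ring

end

end PLT

end
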