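import Pool.Agent.PLT.TopDef
import Pool.Agent.PLT.Z1C

/-!
# From the gas with the data of a configuration to the gas of any one body data, sea on a static curve

Twin of `PHK/PotH/Red6` over `SeaC`; the data are `Cv.datC I O'`, `O'` objects with the potentials `fO6 P (O i)`.

* `confCC`: exponent of the gas; `gas_zC`: from the gas bound to `gasIC`, with the tilt;
* **`red_stepC`**: one configuration; `en` any energy of the objects.
-/

set_option autoImplicit false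
set_option linter.unusedSectionVars false

noncomputable section

open MeasureTheory Finset Filter Topology
open scoped ENNReal
open PLX (Fil Ends)

namespace PLT

open PHK hiding mfo6
open NUGC (ES)
open NUGC.PLX (OB gP pE qE CcF CcF_one FamOk)
open NUO (Xo ht Tb TW excS exc)
open NUSea.PLX.H0 (Inp Gd TG cstF hfar)
open NUDispW (win)
open PotH.PLX (sN RgH6 T1H sN_true sN_sub)

variable [SeaC] [Fil] [Ends]

/-- exponent of the gas of a configuration -/
def confCC (ep e1 : ℝ) (m : ℕ) (X : Gs.Dat) (p n : ℕ) (K kap : ℝ) {r : ℕ} (O : Fin r → Xo) (T1 : ℝ) : ℝ :=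
  X.Mp p n + X.En + K * r + 12 / 5 * (T1 - TW ep e1 m) + kap * win univ (fun i => ht (O i))

variable {δ lo hi : ℝ} {P : Par6}

/-- **from the gas bound to the gas of the one body data `B`**: any extra data `I` with the numbers
`sN m`, the curves `Fil.cv a η` and the ends and groups `g`; one body factors with the real rest `raC`;
constant `Q`, exponent `E`, statistic `Ψ`, factor `Y` -/
theorem gas_zC {m : ℕ} {η η1 cr : ℝ → ℝ} (hcr : ∀ t, 0 ≤ cr t) {T1 x b' : ℝ} {n : ℕ}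
    {g : Fin n → Gd} {B : OB} (hBn : B.Nn) {H : Bool → ℝ → ℝ} (hD : DomC B m η cr g H)
    (hF : FamOk T1 x g) (hT : 0 ≤ T1) {Kp : ℝ}
    (hζ : ∀ a, Sp.Pth (NUMF.l / 5) T1 Kp (zC η a) (zC' η η1 a)) {I : Inp} (hIs : I.s = sN m)
    (hIη : ∀ a, I.η a = Fil.cv a η) (hIη1 : ∀ a, I.η1 a = Fil.cv a η1)
    (hIA : ∀ a z, I.A a z = NUSp.DD pE qE (List.ofFn fun i => (gP T1 g i).G) a z)
    (hP : Cv.PGC δ lo hi P) (hlo : ∀ a t, lo ≤ (zC η a t).im) (hhi : ∀ a t, (zC η a t).im ≤ hi)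
    {r : ℕ} {O : Fin r → Xo} {O' : Fin r → Cv.Oc} {p q : ℕ}
    {Ψ : (Fin p → ℝ) × (Fin q → ℝ) → ℝ≥0∞} {Y : ℝ≥0∞} {Q E : ℝ} (hQ : 0 < Q)
    (h : ∫⁻ y, ENNReal.ofReal (Gs.W0 (Cv.datC I O') p q
        (aCC P η m T1 b' g H O true) (aCC P η m T1 b' g H O false)
        (fun t => cr t * hfar (CcF n) T1 x t) y) * Ψ y ≤
      ENNReal.ofReal ((p.factorial : ℝ) * q.factorial *
        (Q * Real.exp ((Cv.datC I O').Mp p q + E))) * Y) :
    ENNReal.ofReal (Real.exp (-(b' / 2) * ((p : ℝ) + q))) *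
      gasIC B P (dsp η) (dsp1 η η1) O p q Ψ ≤
      ENNReal.ofReal (Q * Real.exp ((Cv.datC I O').M0 + E + cstF T1 g true * p +
        cstF T1 g false * q)) * Y := by
  have ea : ∀ a, aCC P η m T1 b' g H O a = fun t =>
      Real.exp ((Cv.vb I.s a (zC η a t)).re + (FO6 P O a (zC η a t) + I.A a (zC η a t)).re +
        ((Sp.BF T1 g (zC η a) a t + H a t) + -(b' / 2))) := by
    intro a
    funext t
    unfold aCC raC
    rw [hIs, hIA, sub_eq_add_neg]
  rw [ea true, ea false] at h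
  have eQ : ∀ y : ℝ, Q * Real.exp y = Real.exp (Real.log Q + y) := by
    intro y
    rw [Real.exp_add, Real.exp_log hQ]
  have h' : ∫⁻ y, ENNReal.ofReal (Gs.W0 (Cv.datC I O') p q
      (fun t => Real.exp ((Cv.vb I.s true (zC η true t)).re +
        (FO6 P O true (zC η true t) + I.A true (zC η true t)).re +
        ((Sp.BF T1 g (zC η true) true t + H true t) + -(b' / 2))))
      (fun t => Real.exp ((Cv.vb I.s false (zC η false t)).re +
        (FO6 P O false (zC η false t) + I.A false (zC η false t)).re +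
        ((Sp.BF T1 g (zC η false) false t + H false t) + -(b' / 2))))
      (fun t => cr t * hfar (CcF n) T1 x t) y) * Ψ y ≤
      ENNReal.ofReal ((p.factorial : ℝ) * q.factorial *
        Real.exp ((Cv.datC I O').Mp p q + (Real.log Q + E))) * Y := by
    refine h.trans (le_of_eq ?_)
    rw [eQ]
    congr 4
    ring
  have hcos := NUGC.PLX.cosl_nonneg
  have key := gasIC_le_inp (B := B) hBn (I := I) (P := P) hP
    (η := η) (η' := η1) hIη hIη1 hlo hhi (O := O) (O' := O') (p := p) (n := q) (cc := cstF T1 g)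
    (e := fun a t => Sp.BF T1 g (zC η a) a t + H a t) (cf := fun t => cr t * hfar (CcF n) T1 x t)
    (c := -(b' / 2))
    (E := Real.log Q + E) (Ψ := Ψ) (Y := Y) ?_ h'
  · refine key.trans (le_of_eq ?_)
    rw [eQ]
    congr 3
    ring
  · intro a t
    rw [hIs, hIA]
    refine (hD a t).trans ?_
    have h1 := Sp.dom_fam hF hT pE qE a (hζ a) t
    have h2 : 0 ≤ 2 * Real.cos NUP1.l *
        Real.exp ((Cv.vb (sN m) a (zC η a t)).re) * Real.exp (H a t) * cr t := by
      have := hcr t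
      positivity
    have h3 := mul_le_mul_of_nonneg_left h1 h2
    have ez : Cv.zt (Cv.gD (Fil.cv a η)) t = zC η a t := rfl
    rw [ez, Real.exp_add _ (H a t), Real.exp_add ((Cv.vb (sN m) a (zC η a t)).re)]
    refine le_trans (le_of_eq ?_) (h3.trans (le_of_eq ?_))
    · ring
    · rw [show (Cv.vb (sN m) a (zC η a t)).re +
        (NUSp.DD pE qE (List.ofFn fun i => (gP T1 g i).G) a (zC η a t)).re +
        (Sp.BF T1 g (zC η a) a t + H a t) =
        (Cv.vb (sN m) a (zC η a t)).re +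
        ((NUSp.DD pE qE (List.ofFn fun i => (gP T1 g i).G) a (zC η a t)).re +
        Sp.BF T1 g (zC η a) a t) + H a t by ring, Real.exp_add _ (H a t), Real.exp_add
          ((Cv.vb (sN m) a (zC η a t)).re)]
      ring

/-! ### one configuration -/

omit [SeaC] [Fil] [Ends] in
/-- the tilt -/
private lemma tilt_numC {b' ν m N aX aY xe cX cY r : ℝ} (hb' : |b'| ≤ 1) (hν : |ν - m| ≤ 4) (hax : aX ≤ 3)
    (hay : aY ≤ xe + 3) (hax0 : 0 ≤ aX) (hay0 : xe ≤ aY + 3) (h3 : |cX| ≤ 2 * r)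
    (h4 : |cY| ≤ 2 * r) :
    b' * (ν - N) + b' / 2 * ((N + aX - cX) + (N + aY - cY)) - b' / 2 * (m + (m + xe)) ≤
      7 + 2 * r := by
  have h5 : b' * (ν - N) + b' / 2 * ((N + aX - cX) + (N + aY - cY)) -
      b' / 2 * (m + (m + xe)) =
      b' * (ν - m) + b' / 2 * (aX + (aY - xe)) + -(b' / 2) * (cX + cY) := by ring
  have h6 : |b' * (ν - m)| ≤ 1 * 4 := by
    rw [abs_mul]
    exact mul_le_mul hb' hν (abs_nonneg _) zero_le_one
  have h7 := le_abs_self (b' * (ν - m))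
  obtain ⟨h8, h9⟩ := abs_le.1 hb'
  have h10 : b' / 2 * (aX + (aY - xe)) ≤ 1 / 2 * 6 := by
    refine (le_abs_self _).trans ?_
    rw [abs_mul, abs_div, abs_two]
    refine mul_le_mul (by linarith) ?_ (abs_nonneg _) (by norm_num)
    rw [abs_le]
    constructor <;> linarith
  have h11 : -(b' / 2) * (cX + cY) ≤ 1 / 2 * (4 * r) := by
    refine (le_abs_self _).trans ?_
    rw [abs_mul, abs_neg, abs_div, abs_two]
    have h12 : |cX + cY| ≤ 4 * r := (abs_add_le _ _).trans (by linarith)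
    exact mul_le_mul (by linarith) h12 (abs_nonneg _) (by norm_num)
  rw [h5]
  linarith

omit [SeaC] [Fil] [Ends] in
/-- the numbers of free quanta -/
private lemma nA6_castC {r n : ℕ} (O : Fin r → Xo) (s : Bool) (h : chgO6 O s ≤ n) :
    (nA6 n O s : ℝ) = n - chgO6 O s := by
  have e : (nA6 n O s : ℤ) = n - chgO6 O s := Int.toNat_of_nonneg (by omega)
  exact_mod_cast e

/-- **one configuration**: from the bound of the gas to the bound of `lhsC`; any extra data `I` with the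
numbers `sN m`, the curves `Fil.cv a η` and the ends and groups `g`; `en` the energy of the objects, `α` the
power of `m` in the bound of the gas, `x'` the excess in the cutoff -/
theorem red_stepC {en : (r : ℕ) → (Fin r → Xo) → ℝ} {K0 KG kap C1 Cst α S : ℝ} {ep e1 : ℝ} {m : ℕ}
    {η η1 cr : ℝ → ℝ} {n : ℕ}
    {g : Fin n → Gd} {aX aY : ℕ} {ν : ℝ} {N : ℕ} {b' : ℝ} {r : ℕ} {O : Fin r → Xo}
    {E x x' : ℝ} {B : OB} {H : Bool → ℝ → ℝ} (hm0 : 0 < m) (hBn : B.Nn)
    (hcr : ∀ t, 0 ≤ cr t) (hDom : DomC B m η cr g H) (hb' : |b'| ≤ 1)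
    (hR : RgH6 ep e1 m g aX aY ν N O E x)
    (hF : FamOk (T1H ep e1 m O E) x' g) (hT : 0 ≤ T1H ep e1 m O E) {Kp : ℝ}
    (hζ : ∀ a, Sp.Pth (NUMF.l / 5) (T1H ep e1 m O E) Kp (zC η a) (zC' η η1 a)) {I : Inp}
    (hIs : I.s = sN m)
    (hIη : ∀ a, I.η a = Fil.cv a η) (hIη1 : ∀ a, I.η1 a = Fil.cv a η1)
    (hIA : ∀ a z, I.A a z = NUSp.DD pE qE (List.ofFn fun i => (gP (T1H ep e1 m O E) g i).G) a z)
    (hP : Cv.PGC δ lo hi P) (hlo : ∀ a t, lo ≤ (zC η a t).im) (hhi : ∀ a t, (zC η a t).im ≤ hi)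
    {O' : Fin r → Cv.Oc} (hCst : 0 ≤ Cst) (hS0 : 0 ≤ S) (hS : S ≤ (2 + CcF 2) * Real.exp (37 / 20 * x))
    (hEn : (Cv.datC I O').M0 + (Cv.datC I O').En ≤ Cv.MF (sN m) +
        (∑ i, (Cv.mfo6 (sN m) (parts6 P (O i)) -
          2 * Real.pi * wind6 (k6 (O i)) * crC η m (ht (O i)))) + en r O +
        (∑ i, ∑ d, ES (obSr6 P (O i)) (TG (gP (T1H ep e1 m O E) g) d)) +
        1 / 2 * (∑ d, ∑ d', ES (TG (gP (T1H ep e1 m O E) g) d) (TG (gP (T1H ep e1 m O E) g) d')) +
        (∑ i, seaGC (sN m) (g i)) + cstF (T1H ep e1 m O E) g true * (Fil.xe m : ℕ) -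
        b' / 2 * (sN m true + sN m false) + linC η η1 m g (T1H ep e1 m O E) H +
        K0 * r + kap / 2 * win univ (fun i => ht (O i)) + C1)
    {Ψ : (Fin (nA6 (N + aX) O true) → ℝ) × (Fin (nA6 (N + aY) O false) → ℝ) → ℝ≥0∞}
    {Y : ℝ≥0∞}
    (h : ∫⁻ y, ENNReal.ofReal (Gs.W0 (Cv.datC I O')
        (nA6 (N + aX) O true) (nA6 (N + aY) O false)
        (aCC P η m (T1H ep e1 m O E) b' g H O true) (aCC P η m (T1H ep e1 m O E) b' g H O false)
        (fun t => cr t * hfar (CcF n) (T1H ep e1 m O E) x' t) y) * Ψ y ≤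
      ENNReal.ofReal (((nA6 (N + aX) O true).factorial : ℝ) *
        (nA6 (N + aY) O false).factorial *
        (Cst * (m : ℝ) ^ α * (1 + S) *
          Real.exp (confCC ep e1 m (Cv.datC I O') (nA6 (N + aX) O true) (nA6 (N + aY) O false)
            KG (kap / 2) O (T1H ep e1 m O E)))) * Y) :
    lhsC B P m η η1 aX aY ν N b' O Ψ ≤
      ENNReal.ofReal (prefC m g E x ((Cst + 1) * (3 + CcF 2) * Real.exp (C1 + 7)) *
        (m : ℝ) ^ α *
        Real.exp (confEC P en m η (TW ep e1 m) (KG + K0 + 2) kap O - 1 / 10 * excS (TW ep e1 m) O +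
          linC η η1 m g (T1H ep e1 m O E) H +
          enHC P m g O (T1H ep e1 m O E) (nA6 (N + aX) O true)
            (nA6 (N + aY) O false))) * Y := by
  obtain ⟨T1, hT1⟩ : ∃ T1, T1 = T1H ep e1 m O E := ⟨_, rfl⟩
  rw [← hT1] at hF hT hEn h hIA hζ ⊢
  have hpR := nA6_castC O true hR.hc1
  have hqR := nA6_castC O false hR.hc2
  push_cast at hpR hqR
  unfold lhsC
  generalize hp : nA6 (N + aX) O true = p at Ψ h hpR ⊢
  generalize hq : nA6 (N + aY) O false = q at Ψ h hqR ⊢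
  have hmp' : (0 : ℝ) < m := by exact_mod_cast hm0
  obtain ⟨X, hX⟩ : ∃ X, X = Cv.datC I O' := ⟨_, rfl⟩
  obtain ⟨E', hE'⟩ : ∃ E', E' = X.En + KG * r +
      12 / 5 * (T1 - TW ep e1 m) + kap / 2 * win univ (fun i => ht (O i)) := ⟨_, rfl⟩
  have hconf : confCC ep e1 m (Cv.datC I O') p q KG
      (kap / 2) O T1 = (Cv.datC I O').Mp p q + E' := by
    rw [hE', hX]
    unfold confCC
    ring
  rw [hconf] at h
  obtain ⟨Q, hQd⟩ : ∃ Q, Q = (Cst + 1) * (m : ℝ) ^ α * (1 + S) := ⟨_, rfl⟩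
  have hma : 0 < (m : ℝ) ^ α := Real.rpow_pos_of_pos hmp' _
  have hQ : 0 < Q := by rw [hQd]; positivity
  have h' : ∫⁻ y, ENNReal.ofReal (Gs.W0 (Cv.datC I O') p q
        (aCC P η m T1 b' g H O true) (aCC P η m T1 b' g H O false)
        (fun t => cr t * hfar (CcF n) T1 x' t) y) * Ψ y ≤
      ENNReal.ofReal ((p.factorial : ℝ) * q.factorial *
        (Q * Real.exp ((Cv.datC I O').Mp p q + E'))) * Y := by
    refine h.trans (mul_le_mul_left (ENNReal.ofReal_le_ofReal ?_) _)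
    rw [hQd]
    have h1 : (0 : ℝ) ≤ (p.factorial : ℝ) * q.factorial := by positivity
    refine mul_le_mul_of_nonneg_left (mul_le_mul_of_nonneg_right ?_ (Real.exp_pos _).le) h1
    have h2 : 0 ≤ (m : ℝ) ^ α * (1 + S) := by positivity
    clear * - h2
    nlinarith
  have hz := gas_zC (x := x') hcr hBn hDom hF hT hζ hIs hIη hIη1 hIA hP hlo hhi hQ h'
  -- the tilt
  have e1' : ENNReal.ofReal (Real.exp (b' * (ν - N))) * gasIC B P (dsp η) (dsp1 η η1) O p q Ψ =
      ENNReal.ofReal (Real.exp (b' * (ν - N) + b' / 2 * ((p : ℝ) + q))) *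
        (ENNReal.ofReal (Real.exp (-(b' / 2) * ((p : ℝ) + q))) *
          gasIC B P (dsp η) (dsp1 η η1) O p q Ψ) := by
    rw [← mul_assoc, ← ENNReal.ofReal_mul (Real.exp_pos _).le, ← Real.exp_add]
    congr 3
    ring
  rw [e1']
  refine (mul_le_mul_right hz _).trans ?_
  rw [← mul_assoc, ← ENNReal.ofReal_mul (Real.exp_pos _).le]
  refine mul_le_mul_left (ENNReal.ofReal_le_ofReal ?_) _
  -- the real inequality
  obtain ⟨c1, hc1⟩ : ∃ c1 : ℝ, c1 = cstF T1 g true := ⟨_, rfl⟩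
  have hc2 : cstF T1 g false = -c1 := by
    have := NUSea.PLX.H0.cstF_cancel g T1
    rw [hc1]
    clear * - this
    linarith
  obtain ⟨X1, hX1⟩ : ∃ X1, X1 = b' * (ν - N) + b' / 2 * ((p : ℝ) + q) +
      (X.M0 + E' + cstF T1 g true * p + cstF T1 g false * q) := ⟨_, rfl⟩
  have hSx : 1 + S ≤ (3 + CcF 2) * Real.exp (37 / 20 * x) := by
    have h2 : 1 ≤ Real.exp (37 / 20 * x) := Real.one_le_exp (by have := hR.x0; positivity)
    clear * - hS h2
    nlinarith
  have hCc0 := CcF_one 2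
  have hlhs : Real.exp (b' * (ν - N) + b' / 2 * ((p : ℝ) + q)) *
      (Q * Real.exp ((Cv.datC I O').M0 + E' + cstF T1 g true * p + cstF T1 g false * q)) =
        (Cst + 1) * (m : ℝ) ^ α * (1 + S) * Real.exp X1 := by
    rw [hX1, hQd, hX, Real.exp_add (b' * (ν - N) + b' / 2 * ((p : ℝ) + q))]
    ring
  rw [hlhs]
  obtain ⟨X2, hX2⟩ : ∃ X2, X2 = Cv.MF (sN m) + (∑ i, seaGC (sN m) (g i)) + 12 / 5 * E +
      (C1 + 7) +
      (confEC P en m η (TW ep e1 m) (KG + K0 + 2) kap O - 1 / 10 * excS (TW ep e1 m) O +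
          linC η η1 m g T1 H + enHC P m g O T1 p q) := ⟨_, rfl⟩
  have hrhs : prefC m g E x ((Cst + 1) * (3 + CcF 2) * Real.exp (C1 + 7)) * (m : ℝ) ^ α *
        Real.exp (confEC P en m η (TW ep e1 m) (KG + K0 + 2) kap O -
          1 / 10 * excS (TW ep e1 m) O + linC η η1 m g T1 H + enHC P m g O T1 p q) =
      (Cst + 1) * (m : ℝ) ^ α * ((3 + CcF 2) * Real.exp (37 / 20 * x)) * Real.exp X2 := by
    unfold prefC
    rw [hX2, Real.exp_add _ (confEC P en m η (TW ep e1 m) (KG + K0 + 2) kap O -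
      1 / 10 * excS (TW ep e1 m) O + linC η η1 m g T1 H + enHC P m g O T1 p q),
      Real.exp_add _ (C1 + 7), Real.exp_add _ (12 / 5 * E), Real.exp_add _ (12 / 5 * E)]
    ring
  rw [hrhs]
  refine mul_le_mul (mul_le_mul_of_nonneg_left hSx (by positivity)) (Real.exp_le_exp.2 ?_)
    (Real.exp_pos _).le (by positivity)
  -- exponents
  have hexc : T1 - TW ep e1 m ≤ excS (TW ep e1 m) O + E := by
    rw [hT1]
    unfold T1H
    have h2 := NUO.excS_nonneg (TW ep e1 m) O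
    have h3 : max (excS (TW ep e1 m) O) E ≤ excS (TW ep e1 m) O + E :=
      max_le (by (clear * - hR; linarith [hR.E0])) (by (clear * - h2; linarith))
    clear * - h3
    linarith
  have hax : (aX : ℝ) ≤ 3 := by exact_mod_cast hR.ax
  have hay : (aY : ℝ) ≤ (Fil.xe m : ℕ) + 3 := by exact_mod_cast hR.ay
  have hax0 : (0 : ℝ) ≤ aX := Nat.cast_nonneg _
  have hay0 : ((Fil.xe m : ℕ) : ℝ) ≤ aY + 3 := by exact_mod_cast hR.ay'
  have hsT : sN m true = m := sN_true hm0
  have hsF : sN m false = m + (Fil.xe m : ℕ) := by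
    have := sN_sub m
    clear * - hsT this
    linarith
  have htilt : b' * (ν - N) + b' / 2 * ((p : ℝ) + q) - b' / 2 * (sN m true + sN m false) ≤
      7 + 2 * r := by
    rw [hpR, hqR, hsT, hsF]
    exact tilt_numC hb' hR.nu hax hay hax0 hay0 (abs_chgO6 O true) (abs_chgO6 O false)
  clear hz h' h hconf e1' hlhs hrhs
  rw [← hX] at hEn
  rw [hX1, hX2, hc2, ← hc1, confEC_split]
  unfold enHC
  rw [← hc1, hE']
  have e5 : (fun i => (g i).pin T1) = gP T1 g := rfl
  rw [e5]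
  rw [← hc1] at hEn
  clear * - hEn hexc htilt
  linarith

end PLT

end
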