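import Pool.Agent.PLT.GHCdef
import Pool.Agent.PLT.AddSC
import Pool.Agent.PLT.RedC
import Pool.Agent.PLT.GdC
import Pool.Agent.PLT.EnDef
import Pool.Agent.PHK.PotH.ConfH6

/-!
# The data of every configuration and the reduction of its gas, sea on a static curve

Twin of `PHK/PotH/ConfH6`.

* **`ObjsC SB Q P`**: abstract objects of all objects, arbitrarily small remainders;
* **`EnHCSt SB Q P`**: the exponent of the data of a configuration (with its source), upper bound;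
* **`ConfOkC`**: one configuration: data `I`, `O'`, one body factors in the bulk, reduction;
* **`exists_confHC`**: every configuration has data `DatCC`, and every bound of the gas integral of these data with
  a statistic `Ψ` gives the bound of `lhsC`.  Order of the numbers: `KR`; `G kap ep e1 Cc C0`, then `k κ CB`; `εo`,
  then `A`; `ϑ`, then `d CR m0`; the sea of the class.
-/

set_option autoImplicit false
set_option linter.unusedSectionVars false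
set_option linter.unusedVariables false

noncomputable section

open MeasureTheory Finset Filter Topology
open scoped ENNReal
open PLX (Fil Ends)

namespace PLT

open NUMF (l l_pos)
open PHK hiding mfo6
open NUGC (ES)
open NUGC.PLX (OB gP pE qE CcF CcF_one SC chG FamOk)
open NUO (Xo ht Tb TW excS exc)
open NUSea.PLX.H0 (Inp Gd TG cstF hfar addS ψ0 srcP SrcOk)
open NUDispW (win)
open PotH.PLX (sN sN_sub sN_le sN_nonneg HOk HSk T1H RgH6 cfH TW_nonneg TW_le famOk_ofH)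

/-! ### inputs -/

/-- **abstract objects of all objects** -/
def ObjsC (SB : SeaCB) (Q : Cv.Par7) (P : Par6) : Prop :=
  ∀ εo : ℝ, 0 < εo → ∃ A : ℝ, 0 ≤ A ∧ ∀ [S : SeaC] [SeaCU SB], ∃ T : Xo → Cv.Oc,
    (∀ x, ObjC P x (T x)) ∧ (∀ x, (T x).Ok (Q.lo - Q.w) (Q.hi + Q.w) Q.kd A εo Q.c) ∧
    (∀ x y, Cv.Oc.Pr εo Q.c (T x) (T y)) ∧ ∀ x y, Cv.Oc.PrK εo Q.c (T x) (T y)

/-- **the exponent of the data of a configuration**, upper bound; `en` bounds the energies of the admissible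
densities in the field of the objects -/
def EnHCSt [Fil] [Ends] (SB : SeaCB) (Q : Cv.Par7) (P : Par6) : Prop :=
  ∀ W B0 : ℝ, 0 ≤ W → 0 ≤ B0 → ∃ K0 : ℝ, 0 ≤ K0 ∧ ∀ kap : ℝ, 0 < kap → ∃ ε1 : ℝ, 0 < ε1 ∧ ∀ A : ℝ, 0 ≤ A →
    ∀ ep : ℝ, 0 < ep → ep ≤ 1 / 100 → ∀ e1 : ℝ, 0 < e1 → e1 ≤ 1 / 100 →
    ∀ Cc : ℝ, 0 ≤ Cc → ∀ (k : ℕ) (κ C : ℝ), 0 < κ → ∃ (C1 : ℝ) (m0 : ℕ), ∀ [S : SeaC] [SeaCU SB], ∀ m ≥ m0,
    ∀ εo : ℝ, 0 ≤ εo → εo ≤ ε1 →
    ∀ η η1 : ℝ → ℝ, CrvP e1 Cc m η η1 →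
    ∀ b' : ℝ, |b'| ≤ 1 → ∀ n : ℕ, n ≤ 2 → ∀ (g : Fin n → Gd) (T1 : ℝ), TW ep e1 m ≤ T1 →
    ∀ B1 : ℝ → ℝ, ContDiff ℝ 1 B1 → (∀ t, 0 ≤ B1 t) → (∀ t, B1 t ≤ W) →
    Integrable (fun t => (m : ℝ) * Cv.P t * B1 t) → (∫ t, (m : ℝ) * Cv.P t * B1 t) ≤ C →
    ∀ (H H' : Bool → ℝ → ℝ) (νs : Bool → ℝ → ℝ) (τs : ℝ → ℝ), SrcOk B0 νs τs →
    (∀ a t, HasDerivAt (fun t => H a t - srcP νs τs a t) (H' a t) t) → (∀ a, Continuous (H' a)) →
    (∀ a t, |H a t - srcP νs τs a t| ≤ B0) →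
    ∀ (r : ℕ) (O : Fin r → Xo) (O' : Fin r → Cv.Oc), (r : ℝ) ≤ 64 * (Fil.qo : ℕ) * m →
    (∀ i, Cv.OcL P (O i) (O' i)) →
    (∀ i, (O' i).Ok (Q.lo - Q.w) (Q.hi + Q.w) Q.kd A εo Q.c) → (∀ i j, Cv.Oc.PrK εo Q.c (O' i) (O' j)) →
    (∃ p q : ℕ, Gs.Fld (Cv.datC (inC η η1 m T1 b' g B1 (fun a t => H a t - srcP νs τs a t)) O') p q) →
    (∃ (ε M : ℝ) (e : ℝ → ℝ), Cv.IOkC SB Q.lo Q.hi Q.Cp ε M ((1 - e1) * Tb (Real.log m)) e
      (inC η η1 m T1 b' g B1 (fun a t => H a t - srcP νs τs a t)) ∧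
      ε ≤ (m : ℝ) ^ (-κ) ∧ M ≤ Real.log m ^ k) →
    ∀ en : ℝ, (∀ μ, ChO O μ → Gs.EQ Cv.ksC (Cv.fOC P O) μ ≤ en) →
    (Cv.datC (addS (inC η η1 m T1 b' g B1 (fun a t => H a t - srcP νs τs a t)) νs τs ψ0) O').M0 +
      (Cv.datC (addS (inC η η1 m T1 b' g B1 (fun a t => H a t - srcP νs τs a t)) νs τs ψ0) O').En ≤
      Cv.MF (sN m) +
        (∑ i, (Cv.mfo6 (sN m) (parts6 P (O i)) -
          2 * Real.pi * wind6 (k6 (O i)) * crC η m (ht (O i)))) + en +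
        (∑ i, ∑ d, ES (obSr6 P (O i)) (TG (gP T1 g) d)) +
        1 / 2 * (∑ d, ∑ d', ES (TG (gP T1 g) d) (TG (gP T1 g) d')) +
        (∑ i, seaGC (sN m) (g i)) + cstF T1 g true * (Fil.xe m : ℕ) -
        b' / 2 * (sN m true + sN m false) + linC η η1 m g T1 H +
        K0 * r + kap * win univ (fun i => ht (O i)) + C1

/-! ### one configuration -/

section

variable [SeaC] [Fil] [Ends]

/-- **one configuration: data and reduction.**  `dat`: the data; `dD`: the cutoff at the end of the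
window; `gd`: the one body factors in the bulk; `red`: every bound of the gas of the data with a
statistic gives the bound of `lhsC` -/
structure ConfOkC (SB : SeaCB) (Q : Cv.Par7) (P : Par6) (en : (r : ℕ) → (Fin r → Xo) → ℝ)
    (A εo ep e1 κ CB ϑ lg hg kap KR CR : ℝ) (k m : ℕ) (η η1 cr : ℝ → ℝ) (B : OB)
    (H : Bool → ℝ → ℝ) {n : ℕ} (g : Fin n → Gd) (aX aY : ℕ) (ν : ℝ) (N : ℕ) (b' : ℝ) {r : ℕ}
    (O : Fin r → Xo) (E x : ℝ) (I : Inp) (O' : Fin r → Cv.Oc) (B1 : ℝ → ℝ) (D : ℝ) : Prop where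
  dat : Cv.DatCC SB Q A εo ep e1 κ CB ϑ (64 * (Fil.qo : ℕ)) k m I O'
    (fun i => (gP (T1H ep e1 m O E) g i).τ) (nA6 (N + aX) O true) (nA6 (N + aY) O false)
    (aCC P η m (T1H ep e1 m O E) b' g H O true) (aCC P η m (T1H ep e1 m O E) b' g H O false)
    (cfH cr n (T1H ep e1 m O E) x) B1 (T1H ep e1 m O E) D (49 / 20) (SC n x)
  hh : ∀ i, (O' i).h = ht (O i)
  sI : I.s = sN m
  dD : D * Real.exp (-(49 / 20 * TW ep e1 m)) ≤ SC n x
  gd : (∀ i, |(g i).τ| ≤ Real.log m ^ 2) → (r : ℝ) + n ≤ Real.log m →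
    (∀ i, |ht (O i)| ≤ Real.log m ^ 2) →
    GDC lg hg m k κ e1 I.s (2 * Real.log m ^ 2) ((1 - e1) * Tb (Real.log m))
      (I.η true) (I.η1 true) (I.η false) (I.η1 false)
      (fun t => aCC P η m (T1H ep e1 m O E) b' g H O true t * cfH cr n (T1H ep e1 m O E) x t)
      (fun t => aCC P η m (T1H ep e1 m O E) b' g H O false t * cfH cr n (T1H ep e1 m O E) x t)
  red : ∀ KG Cst α : ℝ, 0 ≤ Cst →
    ∀ (Ψ : (Fin (nA6 (N + aX) O true) → ℝ) × (Fin (nA6 (N + aY) O false) → ℝ) → ℝ≥0∞)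
      (Y : ℝ≥0∞),
    ∫⁻ y, ENNReal.ofReal (Gs.W0 (Cv.datC I O') (nA6 (N + aX) O true) (nA6 (N + aY) O false)
        (aCC P η m (T1H ep e1 m O E) b' g H O true) (aCC P η m (T1H ep e1 m O E) b' g H O false)
        (cfH cr n (T1H ep e1 m O E) x) y) * Ψ y ≤
      ENNReal.ofReal (((nA6 (N + aX) O true).factorial : ℝ) *
        (nA6 (N + aY) O false).factorial *
        (Cst * (m : ℝ) ^ α * (1 + SC n x) *
          Real.exp (Cv.confCC ep e1 m I (nA6 (N + aX) O true) (nA6 (N + aY) O false)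
            KG (kap / 2) O' (T1H ep e1 m O E)))) * Y →
    lhsC B P m η η1 aX aY ν N b' O Ψ ≤
      ENNReal.ofReal (prefC m g E x ((Cst + 1) * CR) * (m : ℝ) ^ α *
        Real.exp (confEC P en m η (TW ep e1 m) (KG + KR) kap O - 1 / 10 * excS (TW ep e1 m) O +
          linC η η1 m g (T1H ep e1 m O E) H +
          enHC P m g O (T1H ep e1 m O E) (nA6 (N + aX) O true)
            (nA6 (N + aY) O false))) * Y

/-- the species factor does not see the source -/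
lemma aCC_addS {P : Par6} {η : ℝ → ℝ} {m : ℕ} {T1 b' : ℝ} {n : ℕ} {g : Fin n → Gd}
    {H : Bool → ℝ → ℝ} {ν : Bool → ℝ → ℝ} {τ : ℝ → ℝ} {r : ℕ} (O : Fin r → Xo) (a : Bool) :
    (fun t => aCC P η m T1 b' g (fun a t => H a t - srcP ν τ a t) O a t *
      Real.exp (srcP ν τ a t)) = aCC P η m T1 b' g H O a := by
  funext t
  unfold aCC raC
  rw [← Real.exp_add]
  congr 1
  ring

/-- the two exponents -/
lemma confCC_eq {ep e1 : ℝ} {m : ℕ} {I : Inp} {p n : ℕ} {K kap : ℝ} {r : ℕ} {O : Fin r → Xo}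
    {O' : Fin r → Cv.Oc} (hh : ∀ i, (O' i).h = ht (O i)) (T1 : ℝ) :
    Cv.confCC ep e1 m I p n K kap O' T1 = confCC ep e1 m (Cv.datC I O') p n K kap O T1 := by
  unfold Cv.confCC confCC
  rw [funext hh]

end

/-! ### monotonicity -/

section

variable [SeaC]

private lemma oc_mono {X : Cv.Oc} {lo hi kd A ε ε' c : ℝ} (h : X.Ok lo hi kd A ε c) (hε : ε ≤ ε') :
    X.Ok lo hi kd A ε' c :=
  { h with
    ε0 := h.ε0.trans hε
    φb := fun a t => (h.φb a t).trans (mul_le_mul_of_nonneg_right hε (Real.exp_pos _).le)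
    φb' := fun a t => (h.φb' a t).trans (mul_le_mul_of_nonneg_right hε (Real.exp_pos _).le) }

private lemma pr_mono {X Y : Cv.Oc} {ε ε' c : ℝ} (h : Cv.Oc.Pr ε c X Y) (hε : ε ≤ ε') : Cv.Oc.Pr ε' c X Y :=
  le_trans h (mul_le_mul_of_nonneg_right hε (Real.exp_pos _).le)

private lemma prk_mono {X Y : Cv.Oc} {ε ε' c : ℝ} (h : Cv.Oc.PrK ε c X Y) (hε : ε ≤ ε') :
    Cv.Oc.PrK ε' c X Y :=
  le_trans h (mul_le_mul_of_nonneg_right hε (Real.exp_pos _).le)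

private lemma gdc_mono {lo hi : ℝ} {m k k' : ℕ} {κ κ' e : ℝ} {s : Bool → ℝ} {R b : ℝ}
    {ηX ηX1 ηY ηY1 aX aY : ℝ → ℝ} (h : GDC lo hi m k κ e s R b ηX ηX1 ηY ηY1 aX aY) (hk : k ≤ k')
    (hκ : κ' ≤ κ) (hm : 1 ≤ m) (hL : 1 ≤ Real.log m) :
    GDC lo hi m k' κ' e s R b ηX ηX1 ηY ηY1 aX aY := by
  have h1 : (m : ℝ) ^ (-κ) ≤ (m : ℝ) ^ (-κ') :=
    Real.rpow_le_rpow_of_exponent_le (by exact_mod_cast hm) (by linarith)
  have h2 : Real.log m ^ k ≤ Real.log m ^ k' := pow_le_pow_right₀ hL hk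
  exact
    { h with
      cX := by
        obtain ⟨ε, M, e, a1, a2, a3⟩ := h.cX
        exact ⟨ε, M, e, a1, a2.trans h1, a3.trans h2⟩
      cY := by
        obtain ⟨ε, M, e, a1, a2, a3⟩ := h.cY
        exact ⟨ε, M, e, a1, a2.trans h1, a3.trans h2⟩
      fX := by
        obtain ⟨A, Ar, F, Er, a1, a2, a3, a4⟩ := h.fX
        exact ⟨A, Ar, F, Er, a1, a2.trans h2, a3.trans h2, a4⟩
      fY := by
        obtain ⟨A, Ar, F, Er, a1, a2, a3, a4⟩ := h.fY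
        exact ⟨A, Ar, F, Er, a1, a2.trans h2, a3.trans h2, a4⟩ }

private lemma dat_mono {B : SeaCB} {Q : Cv.Par7} {A εo ep e1 κ κ' CB ϑ kb : ℝ} {k m : ℕ} {I : Inp} {r : ℕ}
    {O : Fin r → Cv.Oc} {G : ℕ} {g : Fin G → ℝ} {p n : ℕ} {aX aY cf B1 : ℝ → ℝ} {T1 D q S : ℝ}
    (h : Cv.DatCC B Q A εo ep e1 κ CB ϑ kb k m I O g p n aX aY cf B1 T1 D q S) (hκ : κ' ≤ κ) (hm : 1 ≤ m) :
    Cv.DatCC B Q A εo ep e1 κ' CB ϑ kb k m I O g p n aX aY cf B1 T1 D q S := by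
  have h1 : (m : ℝ) ^ (-κ) ≤ (m : ℝ) ^ (-κ') :=
    Real.rpow_le_rpow_of_exponent_le (by exact_mod_cast hm) (by linarith)
  exact
    { h with
      ok := by
        obtain ⟨ε, M, e, a1, a2, a3⟩ := h.ok
        exact ⟨ε, M, e, a1, a2.trans h1, a3⟩ }

end

/-- **the data of every configuration and the reduction of its gas**, potentials with a source -/
theorem exists_confHC [Fil] [Ends] {SB : SeaCB} {Q : Cv.Par7} {P : Par6} {δ lg hg top : ℝ} (hδ : 0 < δ)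
    (hδ1 : δ ≤ 1) (hlg : -(l / 10) ≤ lg) (hhg : hg ≤ l / 10) (hQl : lg ≤ Q.lo) (hQh : Q.hi ≤ hg)
    (hE : ∀ [SeaC] [SeaCU SB], ∀ t, lg ≤ Cv.eta t) (hT : ∀ [SeaC] [SeaCU SB], ∀ t, Cv.eta t ≤ top)
    (htop : top < hg) (hP : Cv.PGC δ lg hg P) (hD : DatGHC SB Q P) (hOb : ObjsC SB Q P)
    (hEn : EnHCSt SB Q P) {en : EnC}
    (hen : ∀ [S : SeaC] [SeaCU SB], ∀ (r : ℕ) (O : Fin r → Xo) (μ : Bool → ℝ → ℝ), ChO O μ →
      Gs.EQ Cv.ksC (Cv.fOC P O) μ ≤ en S r O)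
    {B0 N0 : ℝ} (hB0 : 0 ≤ B0) (hN0 : 0 ≤ N0) :
    ∃ KR : ℝ, 0 ≤ KR ∧ ∀ G : ℕ, G ≤ 2 → ∀ kap : ℝ, 0 < kap → ∀ ep : ℝ, 0 < ep → ep ≤ 1 / 100 →
    ∀ e1 : ℝ, 0 < e1 → e1 ≤ 1 / 100 → ∀ Cc C0 : ℝ, 1 ≤ Cc → 1 ≤ C0 →
    ∃ (k : ℕ) (κ CB : ℝ), 0 < κ ∧ 0 ≤ CB ∧ ∀ εo : ℝ, 0 < εo → ∃ A : ℝ, 0 ≤ A ∧
    ∀ ϑ : ℝ, 0 < ϑ → ∃ d CR : ℝ, 0 < d ∧ d ≤ 1 ∧ 0 ≤ CR ∧ ∃ m0 : ℕ, ∀ [S : SeaC] [SeaCU SB],
    ∀ m : ℕ, m0 ≤ m →
    ∀ (η η1 cr Bc Bc' : ℝ → ℝ) (H H' : Bool → ℝ → ℝ) (B : OB) (g : Fin G → Gd),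
    EnvC ep e1 Cc C0 B0 N0 d m η η1 cr Bc Bc' H H' B g →
    ∀ (aX aY : ℕ) (ν : ℝ) (N : ℕ) (b' : ℝ) (r : ℕ) (O : Fin r → Xo) (E x : ℝ), |b'| ≤ d →
      RgH6 ep e1 m g aX aY ν N O E x →
      ∃ (I : Inp) (O' : Fin r → Cv.Oc) (B1 : ℝ → ℝ) (D : ℝ),
        ConfOkC SB Q P (en S) A εo ep e1 κ CB ϑ lg hg kap KR CR k m η η1 cr B H g aX aY ν N b' O E x I
          O' B1 D := by
  obtain ⟨Kp, hKp, hpth⟩ := exists_pth SB
  choose W hW hD using hD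
  have hW0 := hW 0
  have hW1 := hW 1
  have hW2 := hW 2
  obtain ⟨K0, hK0, hEn⟩ := hEn (W 0 + W 1 + W 2) B0 (by positivity) hB0
  refine ⟨K0 + 2, by positivity, ?_⟩
  intro G hG2 kap hkap ep hep hep1 e1 he he1 Cc C0 hCc hC0
  obtain ⟨k0, κ, CB, C, hκ, hCB, hC, hD⟩ := hD G ep hep hep1 e1 he he1 Cc C0 hCc hC0 B0 N0 hB0 hN0
  refine ⟨max k0 9, min κ (e1 / 2), CB + B0, lt_min hκ (by positivity), by positivity, fun εo hεo => ?_⟩
  obtain ⟨ε1, hε1, hEn⟩ := hEn (kap / 2) (by positivity)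
  obtain ⟨A, hA, hOb⟩ := hOb (min εo ε1) (lt_min hεo hε1)
  refine ⟨A, hA, fun ϑ hϑ => ?_⟩
  obtain ⟨d, hd, m2, hD⟩ := hD ϑ hϑ
  obtain ⟨C1, m3, hEn⟩ := hEn A hA ep hep hep1 e1 he he1 Cc (by linarith) k0 κ C hκ
  obtain ⟨m4, hm43, hgd⟩ := exists_gdC SB (Cc := Cc) hδ hδ1 hlg hhg hE hT htop hep he he1 G 4 le_rfl
  obtain ⟨m5, hm53, hpth⟩ := hpth ep hep e1 he he1
  have hCF := CcF_one 2
  refine ⟨min d 1, (3 + CcF 2) * Real.exp (C1 + 7), lt_min hd one_pos, min_le_right _ _,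
    by positivity, max m2 (max m3 (max m4 (max m5 3))), ?_⟩
  intro S hS m hm η η1 cr Bc Bc' H H' B g hEnv aX aY ν N b' r O E x hb' hR
  obtain ⟨hc, hcut, hH, hBn, hDom⟩ := hEnv
  simp only [max_le_iff] at hm
  obtain ⟨hm2, hm3, hm4, hm5, hm6⟩ := hm
  have hm1 : 1 ≤ m := by omega
  have hmp : (0 : ℝ) < m := by exact_mod_cast hm1
  have hL1 : 1 ≤ Real.log m := by
    rw [Real.le_log_iff_exp_le hmp]
    have h3 : (3 : ℝ) ≤ m := by exact_mod_cast hm6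
    have := Real.exp_one_lt_d9
    clear * - hep hep1 h3 this
    linarith
  obtain ⟨t1, t2, t3⟩ := TW_le ep e1 m O hR.E0
  have hF : FamOk (T1H ep e1 m O E) x g := by
    letI := NUSea.seaP
    exact famOk_ofH hR
  have hTW0 := TW_nonneg hep he hm1
  have hT0 : 0 ≤ T1H ep e1 m O E := hTW0.trans t1
  have hN := hR.hN
  have hax := hR.ax
  have hay := hR.ay
  have hrr := hR.hr
  have hb1 : |b'| ≤ d := hb'.trans (min_le_left _ _)
  have hb2 : |b'| ≤ 1 := hb'.trans (min_le_right _ _)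
  -- the objects
  obtain ⟨T, hTl, hTo, hTp, hTk⟩ := @hOb S hS
  -- the numbers
  have hqo : 1 ≤ (Fil.qo : ℕ) := by exact_mod_cast Fil.one_le_qor
  have hxe : Fil.xe m ≤ Fil.qo * m := by
    have h1 := sN_sub m
    have h2 := sN_le hm1 false
    have h3 := sN_nonneg m true
    have h4 : ((Fil.xe m : ℕ) : ℝ) ≤ (Fil.qo : ℕ) * m := by (clear * - h1 h2 h3; linarith)
    exact_mod_cast h4
  have hqm : m ≤ Fil.qo * m := Nat.le_mul_of_pos_left m hqo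
  have hb8 : 8 * Fil.qo * m = 8 * (Fil.qo * m) := mul_assoc _ _ _
  have hb32 : 32 * Fil.qo * m = 32 * (Fil.qo * m) := mul_assoc _ _ _
  obtain ⟨Qm, hQm⟩ : ∃ Qm, Qm = Fil.qo * m := ⟨_, rfl⟩
  rw [← hQm] at hxe hqm hb8 hb32
  obtain ⟨B1, hB, hB0', hB1, hBi, hBC, hD⟩ := @hD S hS m hm2 η η1 hc cr Bc Bc' hcut b' hb1
    (T1H ep e1 m O E) x g t1 hF
  -- the source
  obtain ⟨νs, τs, H0', hs, hH0⟩ := (hH.mono_th (min_le_left d 1)).src
  obtain ⟨D, hdat, hD0⟩ := hD _ H0' hH0 (N + aX) (N + aY)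
    (by rw [hb8]; omega) (by rw [hb8]; omega)
    (by
      have h1 := hR.q
      unfold chG
      push_cast
      clear * - h1
      linarith) r (by rw [hb32]; omega) O hR.hc1 hR.hc2 t2 A (min εo ε1) (fun i => T (O i))
    (fun i => hTl _) (fun i => hTo _) (fun i j => hTp _ _)
  obtain ⟨ε, Mc, e, hI, i1, i2⟩ := hdat.ok
  have hdat' : Cv.DatCC SB Q A εo ep e1 κ CB ϑ (64 * (Fil.qo : ℕ)) k0 m
      (inC η η1 m (T1H ep e1 m O E) b' g B1 (fun a t => H a t - srcP νs τs a t)) (fun i => T (O i))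
      (fun i => (gP (T1H ep e1 m O E) g i).τ) (nA6 (N + aX) O true) (nA6 (N + aY) O false)
      (aCC P η m (T1H ep e1 m O E) b' g (fun a t => H a t - srcP νs τs a t) O true)
      (aCC P η m (T1H ep e1 m O E) b' g (fun a t => H a t - srcP νs τs a t) O false)
      (cfH cr G (T1H ep e1 m O E) x) B1 (T1H ep e1 m O E) D (49 / 20) (SC G x) :=
    { hdat with
      obj := fun i => oc_mono (hdat.obj i) (min_le_left _ _)
      pr := fun i j => pr_mono (hdat.pr i j) (min_le_left _ _) }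
  have hdS := hdat'.addS hTW0 hs
  rw [aCC_addS O true, aCC_addS O false] at hdS
  have hh : ∀ i, (T (O i)).h = ht (O i) := fun i => (hTl _).h
  have hS0 : 0 ≤ SC G x := by
    unfold SC
    have := CcF_one G
    positivity
  refine ⟨addS (inC η η1 m (T1H ep e1 m O E) b' g B1 (fun a t => H a t - srcP νs τs a t)) νs τs ψ0,
    fun i => T (O i), B1, D, (dat_mono (hdS.mono_k (le_max_left k0 9) hL1) (min_le_left _ _) hm1), hh, rfl,
    hD0, ?_, ?_⟩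
  · intro hg hr hht
    refine gdc_mono (hgd m hm4 P hP η η1 hc b' hb2 (T1H ep e1 m O E) x g H
      (fun a => continuous_iff_continuousAt.2 fun t => (hH.d a t).continuousAt) hH.ext cr hcut.ext r O
      t1 hg hdat.shl.mc hdat.shl.c0 ?_ hht) (le_max_right _ _) (min_le_right _ _) hm1 hL1
    have : (0 : ℝ) ≤ G := Nat.cast_nonneg G
    clear * - hr this
    linarith
  intro KG Cst α hCst Ψ Y h
  have hS1 : SC G x ≤ (2 + CcF 2) * Real.exp (37 / 20 * x) := by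
    have h1 : CcF G ≤ CcF 2 := by
      have h1 : (G : ℝ) ≤ (2 : ℕ) := by exact_mod_cast hG2
      unfold CcF
      exact Real.exp_le_exp.2 (mul_le_mul_of_nonneg_right h1 (NUSp.kfar_nonneg _ _))
    unfold SC
    clear * - h1
    gcongr
  have hrk : (r : ℝ) ≤ 64 * (Fil.qo : ℕ) * m := hdat.rk
  have h2 := @hEn S hS m hm3 (min εo ε1) (le_min hεo.le hε1.le) (min_le_right _ _) η η1 hc b' hb2 G hG2 g
    (T1H ep e1 m O E) t1 B1 hB hB0'
    (fun t => (hB1 t).trans (by interval_cases G <;> (clear * - hW1 hW2 hW0; linarith))) hBi hBC H H0' νs τs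
    hs hH0.d hH0.c hH0.le r O (fun i => T (O i)) hrk (fun i => hTl _) (fun i => hTo _) (fun i j => hTk _ _)
    ⟨_, _, hdat.fld⟩ hdat.ok _ (@hen S hS r O)
  rw [confCC_eq hh] at h
  have h9 := red_stepC (kap := kap) (KG := KG) (α := α) (x' := x) (Ψ := Ψ) (Y := Y) (en := en S)
    (by omega : 0 < m) hBn hcut.nn hDom hb2 hR hF hT0 (fun a => hpth m hm5 Cc η η1 hc _ t1 a)
    (I := addS (inC η η1 m (T1H ep e1 m O E) b' g B1 (fun a t => H a t - srcP νs τs a t)) νs τs ψ0)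
    rfl (fun _ => rfl) (fun _ => rfl) (fun _ _ => rfl) hP
    (fun a t => hQl.trans ((hI.pth a).im_ge t)) (fun a t => ((hI.pth a).im_le t).trans hQh)
    hCst hS0 hS1 h2 h
  refine h9.trans (le_of_eq ?_)
  rw [show (Cst + 1) * (3 + CcF 2) * Real.exp (C1 + 7) =
    (Cst + 1) * ((3 + CcF 2) * Real.exp (C1 + 7)) by ring,
    show KG + K0 + 2 = KG + (K0 + 2) by ring]

end PLT

end
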