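import Pool.Agent.PLT.EnHC
import Pool.Agent.PLT.ConfHC

/-!
# The exponent of a configuration in the form of `ConfHC`

**`enHCSt_of`**: `EnHCSt SB Q P` from the bound `Cv.EnGCSt` of the exponent of a configuration with ends and groups.
-/

set_option autoImplicit false
set_option linter.unusedSectionVars false
set_option linter.unusedVariables false

open PLX (Fil Ends)

namespace PLT

open PHK (Par6 Ok6)

/-- **the exponent of the data with a source, from the exponent with ends and groups** -/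
theorem enHCSt_of [Fil] [Ends] {SB : SeaCB} {Q : Cv.Par7} {P : Par6} (hP : Ok6 P) (hQ : Q.Ok)
    (hS : ∀ W CB : ℝ, 0 ≤ W → 0 ≤ CB → Cv.EnGCSt SB P Q W CB (64 * (Fil.qo : ℕ))) : EnHCSt SB Q P := by
  intro W B0 hW hB0
  obtain ⟨K0, hK0, H⟩ := exists_enHC SB hP hQ hS hW hB0
  refine ⟨K0, hK0, fun kap hkap => ?_⟩
  obtain ⟨ε1, hε1, H⟩ := H kap hkap
  refine ⟨ε1, hε1, fun A hA ep hep hep1 e1 he he1 Cc hCc k κ C hκ => ?_⟩
  obtain ⟨C1, m0, H⟩ := H A hA ep hep hep1 e1 he he1 Cc hCc k κ C hκ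
  refine ⟨C1, m0, ?_⟩
  intro _ hSU m hm εo h1 h2 η η1 hc b' hb n hn g T1 hT1 B1 b1 b2 b3 b4 b5 Hp H' νs τs hs hd hcc hl r O O' hr
    hlnk hobj hprk hfld hok en hen
  exact @H _ hSU m hm εo h1 h2 η η1 hc b' hb n hn g T1 hT1 B1 b1 b2 b3 b4 b5 Hp H' νs τs hs hd hcc hl r O O' hr
    hok hfld hlnk hobj hprk en hen

end PLT
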