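import Mathlib

/-!
# A quadratic form in sub-Gaussian variables

`gfd`: if the exponential moments of `c . y` (any weight) are at most those of a Gaussian vector with
covariance `G` (a small multiple of the identity is allowed), and `G S G ≤ th G` with `th < 1`, then
`exp (1/2 y . S y)` has a bounded moment; the constant depends on the size of the entries, the number
of variables and `th` only.
-/

set_option autoImplicit false

noncomputable section

open MeasureTheory ProbabilityTheory Matrix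

open scoped ENNReal NNReal MatrixOrder

namespace PLT.Gfd

variable {N : ℕ}

/-! ## the Gaussian vector -/

/-- one coordinate: linear exponential -/
theorem lin1 (z : ℝ) : ∫⁻ x, ENNReal.ofReal (Real.exp (z * x)) ∂(gaussianReal 0 1) =
    ENNReal.ofReal (Real.exp (z ^ 2 / 2)) := by
  have h := mgf_fun_id_gaussianReal (μ := 0) (v := 1)
  have h2 := congrFun h z
  unfold mgf at h2
  rw [← ofReal_integral_eq_lintegral_ofReal (integrable_exp_mul_gaussianReal z)
    (Filter.Eventually.of_forall fun x => (Real.exp_pos _).le), h2]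
  congr 2
  simp

/-- one coordinate: quadratic exponential -/
theorem quad1 {t : ℝ} (ht : t < 1) :
    Integrable (fun x => Real.exp (t / 2 * x ^ 2)) (gaussianReal 0 1) := by
  rw [gaussianReal_of_var_ne_zero _ one_ne_zero, gaussianPDF_def]
  have h1 : (fun x => ENNReal.ofReal (gaussianPDFReal 0 1 x)) =
      fun x => ((gaussianPDFReal 0 1 x).toNNReal : ℝ≥0∞) := by
    funext x
    rfl
  rw [h1, integrable_withDensity_iff_integrable_smul
    (measurable_gaussianPDFReal 0 1).real_toNNReal]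
  have h2 : Integrable (fun x : ℝ => Real.exp (-((1 - t) / 2) * x ^ 2)) :=
    integrable_exp_neg_mul_sq (by linarith)
  refine (h2.const_mul ((Real.sqrt (2 * Real.pi * 1))⁻¹)).congr
    (Filter.Eventually.of_forall fun x => ?_)
  show _ = ((gaussianPDFReal 0 1 x).toNNReal : ℝ≥0) • Real.exp (t / 2 * x ^ 2)
  rw [NNReal.smul_def, Real.coe_toNNReal _ (gaussianPDFReal_nonneg 0 1 x), smul_eq_mul]
  unfold gaussianPDFReal
  simp only [NNReal.coe_one, sub_zero, mul_one]
  rw [mul_assoc, ← Real.exp_add]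
  congr 2
  ring

/-- the constant of one coordinate -/
def C1 (t : ℝ) : ℝ := ∫ x, Real.exp (t / 2 * x ^ 2) ∂(gaussianReal 0 1)

theorem C1_nonneg (t : ℝ) : 0 ≤ C1 t := integral_nonneg fun _ => (Real.exp_pos _).le

/-- the standard Gaussian vector -/
def gm (N : ℕ) : Measure (Fin N → ℝ) := Measure.pi fun _ => gaussianReal 0 1

instance : IsProbabilityMeasure (gm N) := by unfold gm; infer_instance

theorem lin (z : Fin N → ℝ) : ∫⁻ x, ENNReal.ofReal (Real.exp (∑ i, z i * x i)) ∂(gm N) =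
    ENNReal.ofReal (Real.exp (1 / 2 * ∑ i, z i ^ 2)) := by
  have e : (fun x : Fin N → ℝ => Real.exp (∑ i, z i * x i)) =
      fun x : Fin N → ℝ => ∏ i, Real.exp (z i * x i) := by
    funext x
    rw [Real.exp_sum]
  have hi : Integrable (fun x : Fin N → ℝ => ∏ i, Real.exp (z i * x i)) (gm N) :=
    Integrable.fintype_prod (f := fun i (x : ℝ) => Real.exp (z i * x))
      fun i => integrable_exp_mul_gaussianReal (z i)
  have h0 : ∀ x : Fin N → ℝ, 0 ≤ ∏ i, Real.exp (z i * x i) := fun x =>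
    Finset.prod_nonneg fun i _ => (Real.exp_pos _).le
  calc ∫⁻ x, ENNReal.ofReal (Real.exp (∑ i, z i * x i)) ∂(gm N) =
      ∫⁻ x, ENNReal.ofReal (∏ i, Real.exp (z i * x i)) ∂(gm N) := by
        refine lintegral_congr fun x => ?_
        rw [Real.exp_sum]
    _ = ENNReal.ofReal (∫ x, ∏ i, Real.exp (z i * x i) ∂(gm N)) :=
        (ofReal_integral_eq_lintegral_ofReal hi (Filter.Eventually.of_forall h0)).symm
    _ = ENNReal.ofReal (∏ i, ∫ x, Real.exp (z i * x) ∂(gaussianReal 0 1)) := by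
        congr 1
        exact integral_fintype_prod_eq_prod (𝕜 := ℝ) (fun i (x : ℝ) => Real.exp (z i * x))
    _ = _ := by
        congr 1
        have h1 : ∀ i, ∫ x, Real.exp (z i * x) ∂(gaussianReal 0 1) = Real.exp (z i ^ 2 / 2) := by
          intro i
          have h2 := congrFun (mgf_fun_id_gaussianReal (μ := 0) (v := 1)) (z i)
          unfold mgf at h2
          rw [h2]
          congr 1
          simp
        simp_rw [h1]
        rw [← Real.exp_sum]
        congr 1
        rw [Finset.mul_sum]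
        exact Finset.sum_congr rfl fun i _ => by ring

theorem quad {t : ℝ} (ht : t < 1) :
    ∫⁻ x, ENNReal.ofReal (Real.exp (t / 2 * ∑ i, x i ^ 2)) ∂(gm N) = ENNReal.ofReal (C1 t ^ N) := by
  have hi : Integrable (fun x : Fin N → ℝ => ∏ i, Real.exp (t / 2 * x i ^ 2)) (gm N) :=
    Integrable.fintype_prod (f := fun _ (x : ℝ) => Real.exp (t / 2 * x ^ 2)) fun i => quad1 ht
  have h0 : ∀ x : Fin N → ℝ, 0 ≤ ∏ i, Real.exp (t / 2 * x i ^ 2) := fun x =>
    Finset.prod_nonneg fun i _ => (Real.exp_pos _).le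
  calc ∫⁻ x, ENNReal.ofReal (Real.exp (t / 2 * ∑ i, x i ^ 2)) ∂(gm N) =
      ∫⁻ x, ENNReal.ofReal (∏ i, Real.exp (t / 2 * x i ^ 2)) ∂(gm N) := by
        refine lintegral_congr fun x => ?_
        rw [← Real.exp_sum, Finset.mul_sum]
    _ = ENNReal.ofReal (∫ x, ∏ i, Real.exp (t / 2 * x i ^ 2) ∂(gm N)) :=
        (ofReal_integral_eq_lintegral_ofReal hi (Filter.Eventually.of_forall h0)).symm
    _ = ENNReal.ofReal (∏ _i : Fin N, C1 t) := by
        congr 1
        exact integral_fintype_prod_eq_prod (𝕜 := ℝ) (fun _ (x : ℝ) => Real.exp (t / 2 * x ^ 2))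
    _ = _ := by rw [Finset.prod_const, Finset.card_univ, Fintype.card_fin]

/-! ## linear algebra -/

/-- the bilinear form -/
def bf (S : Matrix (Fin N) (Fin N) ℝ) (x y : Fin N → ℝ) : ℝ := x ⬝ᵥ (S *ᵥ y)

theorem bf_eq (S : Matrix (Fin N) (Fin N) ℝ) (x y : Fin N → ℝ) :
    bf S x y = ∑ i, ∑ j, S i j * x i * y j := by
  unfold bf dotProduct mulVec dotProduct
  refine Finset.sum_congr rfl fun i _ => ?_
  rw [Finset.mul_sum]
  exact Finset.sum_congr rfl fun j _ => by ring

theorem pow_pos_of_ne {x : ℝ} (h : x ≠ 0) : 0 < x ^ 2 := by positivity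

/-- the sum of squares -/
def sq2 (x : Fin N → ℝ) : ℝ := x ⬝ᵥ x

theorem sq2_eq (x : Fin N → ℝ) : sq2 x = ∑ i, x i ^ 2 := by
  unfold sq2 dotProduct
  exact Finset.sum_congr rfl fun i _ => by ring

theorem sq2_nonneg (x : Fin N → ℝ) : 0 ≤ sq2 x := by
  rw [sq2_eq]
  exact Finset.sum_nonneg fun i _ => sq_nonneg _

/-- entries bounded by `K`: `2 |x . S y| ≤ N K (r |x|^2 + |y|^2 / r)` -/
theorem bf_le {S : Matrix (Fin N) (Fin N) ℝ} {K : ℝ} (hS : ∀ i j, |S i j| ≤ K) {r : ℝ} (hr : 0 < r)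
    (hK : 0 ≤ K) (x y : Fin N → ℝ) : 2 * bf S x y ≤ N * K * (r * sq2 x + sq2 y / r) := by
  rw [bf_eq, sq2_eq, sq2_eq, Finset.mul_sum]
  have h : ∀ i j, 2 * (S i j * x i * y j) ≤ K * (r * x i ^ 2 + y j ^ 2 / r) := by
    intro i j
    have h1 : 2 * (|x i| * |y j|) ≤ r * x i ^ 2 + y j ^ 2 / r := by
      have h2 : 0 ≤ (r * |x i| - |y j|) ^ 2 / r := by positivity
      have h3 : (r * |x i| - |y j|) ^ 2 / r = r * |x i| ^ 2 - 2 * (|x i| * |y j|) + |y j| ^ 2 / r := by
        field_simp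
        ring
      rw [sq_abs, sq_abs] at h3
      linarith
    have h4 : S i j * x i * y j ≤ K * (|x i| * |y j|) := by
      refine (le_abs_self _).trans ?_
      rw [abs_mul, abs_mul, mul_assoc]
      exact mul_le_mul_of_nonneg_right (hS i j) (by positivity)
    nlinarith
  calc ∑ i, 2 * ∑ j, S i j * x i * y j ≤ ∑ i : Fin N, ∑ j : Fin N, K * (r * x i ^ 2 + y j ^ 2 / r) := by
        refine Finset.sum_le_sum fun i _ => ?_
        rw [Finset.mul_sum]
        exact Finset.sum_le_sum fun j _ => h i j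
    _ = N * K * (r * ∑ i, x i ^ 2 + (∑ i, y i ^ 2) / r) := by
        simp only [mul_add, Finset.sum_add_distrib, Finset.sum_const, Finset.card_univ,
          Fintype.card_fin, nsmul_eq_mul, Finset.mul_sum, Finset.sum_div]
        congr 1
        · refine Finset.sum_congr rfl fun i _ => ?_
          ring
        · refine Finset.sum_congr rfl fun i _ => ?_
          ring

/-- Cauchy-Schwarz of the form `G`: `|G c|^2 ≤ (N K) c . G c` -/
theorem sq2_G {G : Matrix (Fin N) (Fin N) ℝ} {K : ℝ} (hK : 0 ≤ K) (hG : ∀ i j, |G i j| ≤ K)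
    (hs : Gᵀ = G) (hp : ∀ c, 0 ≤ bf G c c) (c : Fin N → ℝ) :
    sq2 (G *ᵥ c) ≤ N * K * bf G c c := by
  -- the form is nonnegative at `c - s G c`
  set g := G *ᵥ c with hg
  have e1 : bf G g c = sq2 g := by unfold bf sq2; rw [← hg]
  have e2 : bf G c g = sq2 g := by
    unfold bf
    rw [dotProduct_mulVec, ← mulVec_transpose, hs, ← hg]
    rfl
  have hgg : bf G g g ≤ N * K * sq2 g := by
    have := bf_le hG one_pos hK g g
    rw [one_mul, div_one] at this
    linarith
  have key : ∀ s : ℝ, 0 ≤ bf G c c - 2 * s * sq2 g + s ^ 2 * bf G g g := by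
    intro s
    have h := hp (c - s • g)
    have e : bf G (c - s • g) (c - s • g) = bf G c c - s * bf G c g - s * bf G g c +
        s ^ 2 * bf G g g := by
      unfold bf
      simp only [mulVec_sub, mulVec_smul, dotProduct_sub, sub_dotProduct, dotProduct_smul,
        smul_dotProduct, smul_eq_mul]
      ring
    rw [e, e1, e2] at h
    linarith
  have hq := sq2_nonneg g
  have hcc := hp c
  rcases eq_or_lt_of_le (show 0 ≤ (N : ℝ) * K by positivity) with h0 | h0
  · -- `G = 0` on the vector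
    have h1 : bf G g g ≤ 0 := by rw [← h0] at hgg; linarith
    have h2 : sq2 g ≤ 0 := by
      by_contra hne
      push Not at hne
      have h3 := key ((bf G c c + 1) / sq2 g)
      have h4 : 2 * ((bf G c c + 1) / sq2 g) * sq2 g = 2 * (bf G c c + 1) := by
        field_simp
      have h5 : ((bf G c c + 1) / sq2 g) ^ 2 * bf G g g ≤ 0 :=
        mul_nonpos_of_nonneg_of_nonpos (sq_nonneg _) h1
      linarith
    rw [← h0, zero_mul]
    exact h2
  · have h3 := key (1 / (N * K))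
    have h4 : (1 / (N * K : ℝ)) ^ 2 * bf G g g ≤ (1 / (N * K : ℝ)) * sq2 g := by
      have h5 : (1 / (N * K : ℝ)) ^ 2 * bf G g g ≤ (1 / (N * K : ℝ)) ^ 2 * (N * K * sq2 g) :=
        mul_le_mul_of_nonneg_left hgg (sq_nonneg _)
      refine h5.trans (le_of_eq ?_)
      field_simp
    have h6 : (1 / (N * K : ℝ)) * sq2 g ≤ bf G c c := by
      have : 2 * (1 / (N * K : ℝ)) * sq2 g = 2 * ((1 / (N * K : ℝ)) * sq2 g) := by ring
      linarith
    rw [div_mul_eq_mul_div, one_mul, div_le_iff₀ h0] at h6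
    linarith

/-- the regularised form: `G' S G' ≤ t' G'`, `G' = G + e` -/
theorem reg {G S : Matrix (Fin N) (Fin N) ℝ} {L : ℝ} (hL : 1 ≤ L) (hNL : (N : ℝ) * L ≤ L ^ 2)
    (hG : ∀ i j, |G i j| ≤ L) (hS : ∀ i j, |S i j| ≤ L) (hs : Gᵀ = G) (hs' : Sᵀ = S)
    (hp : ∀ c, 0 ≤ bf G c c) {t d e : ℝ} (hd : 0 < d) (he : 0 < e) (ht : 1 / 2 ≤ t + d)
    (he2 : e * (L ^ 6 / d + L ^ 2) ≤ 1 / 2)
    (h : ∀ c, bf S (G *ᵥ c) (G *ᵥ c) ≤ t * bf G c c) (c : Fin N → ℝ) :
    bf S (G *ᵥ c + e • c) (G *ᵥ c + e • c) ≤ (t + d) * (bf G c c + e * sq2 c) := by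
  have hL0 : 0 < L := by linarith
  set g := G *ᵥ c with hg
  have hgg := sq2_G hL0.le hG hs hp c
  rw [← hg] at hgg
  have hcc := hp c
  have hq := sq2_nonneg c
  have hqg := sq2_nonneg g
  have e1 : bf S g c = bf S c g := by
    unfold bf
    rw [dotProduct_mulVec, ← mulVec_transpose, hs', dotProduct_comm]
  have e2 : bf S (g + e • c) (g + e • c) = bf S g g + 2 * e * bf S c g + e ^ 2 * bf S c c := by
    have : bf S (g + e • c) (g + e • c) = bf S g g + e * bf S g c + e * bf S c g +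
        e ^ 2 * bf S c c := by
      unfold bf
      simp only [mulVec_add, mulVec_smul, dotProduct_add, add_dotProduct, dotProduct_smul,
        smul_dotProduct, smul_eq_mul]
      ring
    rw [this, e1]
    ring
  have b1 : bf S c c ≤ L ^ 2 * sq2 c := by
    have := bf_le hS one_pos hL0.le c c
    rw [one_mul, div_one] at this
    nlinarith
  -- the mixed term
  have hr : 0 < e * L ^ 4 / d := by positivity
  have b2 : 2 * e * bf S c g ≤ d * bf G c c + e ^ 2 * (L ^ 6 / d) * sq2 c := by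
    have h1 := bf_le hS hr hL0.le c g
    have h2 : 2 * bf S c g ≤ L ^ 2 * (e * L ^ 4 / d * sq2 c + sq2 g / (e * L ^ 4 / d)) :=
      h1.trans (mul_le_mul_of_nonneg_right hNL (by positivity))
    have h3 : sq2 g ≤ L ^ 2 * bf G c c :=
      hgg.trans (mul_le_mul_of_nonneg_right hNL hcc)
    have h4 : 2 * e * bf S c g ≤ e * (L ^ 2 * (e * L ^ 4 / d * sq2 c + sq2 g / (e * L ^ 4 / d))) := by
      have := mul_le_mul_of_nonneg_left h2 he.le
      linarith
    have h5 : e * (L ^ 2 * (e * L ^ 4 / d * sq2 c + sq2 g / (e * L ^ 4 / d))) =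
        e ^ 2 * (L ^ 6 / d) * sq2 c + d / L ^ 2 * sq2 g := by
      field_simp
    have h6 : d / L ^ 2 * sq2 g ≤ d * bf G c c := by
      have := mul_le_mul_of_nonneg_left h3 (show 0 ≤ d / L ^ 2 by positivity)
      refine this.trans (le_of_eq ?_)
      field_simp
    linarith
  have b3 := h c
  rw [← hg] at b3
  have b4 : e ^ 2 * bf S c c ≤ e ^ 2 * (L ^ 2 * sq2 c) :=
    mul_le_mul_of_nonneg_left b1 (sq_nonneg _)
  have b5 : e ^ 2 * (L ^ 6 / d) * sq2 c + e ^ 2 * (L ^ 2 * sq2 c) ≤ (t + d) * (e * sq2 c) := by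
    have : e ^ 2 * (L ^ 6 / d) * sq2 c + e ^ 2 * (L ^ 2 * sq2 c) =
        (e * (L ^ 6 / d + L ^ 2)) * (e * sq2 c) := by ring
    rw [this]
    exact mul_le_mul_of_nonneg_right (he2.trans ht) (by positivity)
  rw [e2]
  have : (t + d) * (bf G c c + e * sq2 c) = t * bf G c c + d * bf G c c + (t + d) * (e * sq2 c) := by
    ring
  rw [this]
  linarith

end PLT.Gfd

namespace PLT

open PLT.Gfd

/-- **a quadratic form in sub-Gaussian variables** -/
theorem gfd (N : ℕ) (K : ℝ) {th : ℝ} (hth : th < 1) : ∃ e C : ℝ, 0 < e ∧ 0 ≤ C ∧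
    ∀ G S : Fin N → Fin N → ℝ, (∀ i j, |G i j| ≤ K) → (∀ i j, |S i j| ≤ K) →
    (∀ i j, S i j = S j i) → (∀ i j, G i j = G j i) →
    (∀ c : Fin N → ℝ, 0 ≤ ∑ i, ∑ j, G i j * c i * c j) →
    (∀ c : Fin N → ℝ, ∑ i, ∑ j, S i j * (∑ k, G i k * c k) * (∑ k, G j k * c k) ≤
      th * ∑ i, ∑ j, G i j * c i * c j) →
    ∀ {Ω : Type*} [MeasurableSpace Ω] (μ : Measure Ω) [SFinite μ] (W : Ω → ℝ≥0∞)
      (y : Fin N → Ω → ℝ), Measurable W → (∀ i, Measurable (y i)) → ∀ B : ℝ≥0∞,
    (∀ c : Fin N → ℝ, ∫⁻ ω, W ω * ENNReal.ofReal (Real.exp (∑ i, c i * y i ω)) ∂μ ≤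
      B * ENNReal.ofReal (Real.exp (1 / 2 * (∑ i, ∑ j, G i j * c i * c j) +
        e / 2 * ∑ i, c i ^ 2))) →
    ∫⁻ ω, W ω * ENNReal.ofReal (Real.exp (1 / 2 * ∑ i, ∑ j, S i j * y i ω * y j ω)) ∂μ ≤
      B * ENNReal.ofReal C := by
  -- the numbers
  set t : ℝ := max th 0 with ht
  have ht0 : 0 ≤ t := le_max_right _ _
  have ht1 : t < 1 := max_lt hth one_pos
  set d : ℝ := (1 - t) / 2 with hd
  have hd0 : 0 < d := by rw [hd]; linarith
  have htd : 1 / 2 ≤ t + d := by rw [hd]; linarith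
  have htd1 : t + d < 1 := by rw [hd]; linarith
  set L : ℝ := |K| + N + 1 with hLd
  have hL1 : 1 ≤ L := by
    have := abs_nonneg K
    have : (0 : ℝ) ≤ N := Nat.cast_nonneg N
    rw [hLd]
    linarith
  have hL0 : 0 < L := by linarith
  have hKL : K ≤ L := by
    have := le_abs_self K
    have : (0 : ℝ) ≤ N := Nat.cast_nonneg N
    rw [hLd]
    linarith
  have hNL : (N : ℝ) * L ≤ L ^ 2 := by
    rw [sq]
    refine mul_le_mul_of_nonneg_right ?_ hL0.le
    have := abs_nonneg K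
    rw [hLd]
    linarith
  set e : ℝ := 1 / (2 * (L ^ 6 / d + L ^ 2)) with he
  have hpos : 0 < L ^ 6 / d + L ^ 2 := by positivity
  have he0 : 0 < e := by rw [he]; positivity
  have he2 : e * (L ^ 6 / d + L ^ 2) ≤ 1 / 2 := by
    rw [he]
    refine le_of_eq ?_
    field_simp
  refine ⟨e, C1 (t + d) ^ N, he0, pow_nonneg (C1_nonneg _) _, fun G S hG hS hSs hGs hp h Ω _ μ _ W y
    hW hy B hB => ?_⟩
  -- matrices
  let Gm : Matrix (Fin N) (Fin N) ℝ := G
  let Sm : Matrix (Fin N) (Fin N) ℝ := S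
  have hGm : ∀ i j, |Gm i j| ≤ L := fun i j => (hG i j).trans hKL
  have hSm : ∀ i j, |Sm i j| ≤ L := fun i j => (hS i j).trans hKL
  have hGt : Gmᵀ = Gm := by
    ext i j
    exact hGs j i
  have hSt : Smᵀ = Sm := by
    ext i j
    exact hSs j i
  have hpm : ∀ c, 0 ≤ bf Gm c c := fun c => by
    rw [bf_eq]
    exact hp c
  have hm : ∀ c, bf Sm (Gm *ᵥ c) (Gm *ᵥ c) ≤ t * bf Gm c c := fun c => by
    have h1 := h c
    rw [bf_eq, bf_eq]
    exact h1.trans (mul_le_mul_of_nonneg_right (le_max_left _ _) (hp c))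
  have hreg := reg hL1 hNL hGm hSm hGt hSt hpm hd0 he0 htd he2 hm
  -- the root
  set G' : Matrix (Fin N) (Fin N) ℝ := Gm + e • (1 : Matrix (Fin N) (Fin N) ℝ) with hG'
  have hmul : ∀ c, G' *ᵥ c = Gm *ᵥ c + e • c := fun c => by
    rw [hG', add_mulVec, smul_mulVec, one_mulVec]
  have hG't : G'ᵀ = G' := by
    rw [hG', transpose_add, transpose_smul, transpose_one, hGt]
  have hpd : G'.PosDef := by
    refine PosDef.of_dotProduct_mulVec_pos ?_ fun v hv => ?_
    · unfold IsHermitian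
      rw [conjTranspose_eq_transpose_of_trivial, hG't]
    · rw [hmul, dotProduct_add, dotProduct_smul]
      have h1 := hpm v
      unfold bf at h1
      have h2 : 0 < sq2 v := by
        rw [sq2_eq]
        obtain ⟨i, hi⟩ := Function.ne_iff.1 hv
        refine Finset.sum_pos' (fun j _ => sq_nonneg _) ⟨i, Finset.mem_univ i, ?_⟩
        exact pow_pos_of_ne hi
      have h3 : star v = v := by
        funext i
        simp
      rw [h3]
      unfold sq2 at h2
      have h4 : 0 < e • (v ⬝ᵥ v) := by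
        rw [smul_eq_mul]
        positivity
      linarith
  obtain ⟨R, hR⟩ := CStarAlgebra.nonneg_iff_eq_star_mul_self.mp hpd.posSemidef.nonneg
  have hR' : G' = Rᵀ * R := by
    rw [hR, star_eq_conjTranspose, conjTranspose_eq_transpose_of_trivial]
  have hdet : IsUnit R.det := by
    have h1 : G'.det ≠ 0 := hpd.det_pos.ne'
    rw [hR', det_mul, det_transpose] at h1
    exact isUnit_iff_ne_zero.2 fun h0 => h1 (by rw [h0, zero_mul])
  set Ri := R⁻¹ with hRi
  have i1 : R * Ri = 1 := mul_nonsing_inv R hdet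
  -- the form `G'`
  have hform : ∀ c, bf Gm c c + e * sq2 c = sq2 (R *ᵥ c) := by
    intro c
    have h1 : c ⬝ᵥ (G' *ᵥ c) = sq2 (R *ᵥ c) := by
      rw [hR', ← mulVec_mulVec, dotProduct_mulVec, ← mulVec_transpose, transpose_transpose]
      rfl
    rw [← h1, hmul, dotProduct_add, dotProduct_smul, smul_eq_mul]
    rfl
  -- the pointwise bound
  have point : ∀ v : Fin N → ℝ, bf Sm v v ≤ (t + d) * sq2 (Riᵀ *ᵥ v) := by
    intro v
    have h1 := hreg (Ri *ᵥ (Riᵀ *ᵥ v))
    rw [hform, ← hmul, hR'] at h1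
    have e1 : (Rᵀ * R) *ᵥ (Ri *ᵥ (Riᵀ *ᵥ v)) = v := by
      rw [mulVec_mulVec, mul_assoc, i1, mul_one, mulVec_mulVec, ← transpose_mul]
      have i2 : Ri * R = 1 := nonsing_inv_mul R hdet
      rw [i2, transpose_one, one_mulVec]
    have e2 : R *ᵥ (Ri *ᵥ (Riᵀ *ᵥ v)) = Riᵀ *ᵥ v := by
      rw [mulVec_mulVec, i1, one_mulVec]
    rw [e1, e2] at h1
    exact h1
  set s : ℝ := Real.sqrt (t + d) with hs
  have hs2 : s ^ 2 = t + d := Real.sq_sqrt (by linarith)
  -- the Gaussian representation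
  have rep : ∀ v : Fin N → ℝ, ENNReal.ofReal (Real.exp (1 / 2 * bf Sm v v)) ≤
      ∫⁻ x, ENNReal.ofReal (Real.exp (∑ i, (s • (Ri *ᵥ x)) i * v i)) ∂(gm N) := by
    intro v
    have e1 : ∀ x : Fin N → ℝ, ∑ i, (s • (Ri *ᵥ x)) i * v i = ∑ i, (s • (Riᵀ *ᵥ v)) i * x i := by
      intro x
      show (s • (Ri *ᵥ x)) ⬝ᵥ v = (s • (Riᵀ *ᵥ v)) ⬝ᵥ x
      rw [smul_dotProduct, smul_dotProduct, dotProduct_comm (Ri *ᵥ x), dotProduct_mulVec,
        ← mulVec_transpose]
    simp_rw [e1]
    rw [lin]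
    refine ENNReal.ofReal_le_ofReal (Real.exp_le_exp.2 ?_)
    have h1 := point v
    have e2 : ∑ i, (s • (Riᵀ *ᵥ v)) i ^ 2 = (t + d) * sq2 (Riᵀ *ᵥ v) := by
      rw [sq2_eq, Finset.mul_sum, ← hs2]
      refine Finset.sum_congr rfl fun i _ => ?_
      rw [Pi.smul_apply, smul_eq_mul]
      ring
    rw [e2]
    linarith
  have hmeas : Measurable fun p : Ω × (Fin N → ℝ) =>
      W p.1 * ENNReal.ofReal (Real.exp (∑ i, (s • (Ri *ᵥ p.2)) i * y i p.1)) := by
    refine (hW.comp measurable_fst).mul (ENNReal.measurable_ofReal.comp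
      (Real.measurable_exp.comp ?_))
    refine Finset.measurable_sum _ fun i _ => ?_
    refine Measurable.mul ?_ ((hy i).comp measurable_fst)
    have hc : Continuous fun x : Fin N → ℝ => (s • (Ri *ᵥ x)) i :=
      (continuous_apply i).comp ((Continuous.matrix_mulVec continuous_const continuous_id).const_smul s)
    exact hc.measurable.comp measurable_snd
  calc ∫⁻ ω, W ω * ENNReal.ofReal (Real.exp (1 / 2 * ∑ i, ∑ j, S i j * y i ω * y j ω)) ∂μ
      ≤ ∫⁻ ω, ∫⁻ x, W ω * ENNReal.ofReal (Real.exp (∑ i, (s • (Ri *ᵥ x)) i * y i ω)) ∂(gm N) ∂μ := by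
        refine lintegral_mono fun ω => ?_
        have h1 := rep fun i => y i ω
        rw [bf_eq] at h1
        have h2 := mul_le_mul_right h1 (W ω)
        refine h2.trans (le_of_eq ?_)
        rw [← lintegral_const_mul]
        refine ENNReal.measurable_ofReal.comp (Real.measurable_exp.comp ?_)
        refine Finset.measurable_sum _ fun i _ => ?_
        have hc : Continuous fun x : Fin N → ℝ => (s • (Ri *ᵥ x)) i :=
          (continuous_apply i).comp
            ((Continuous.matrix_mulVec continuous_const continuous_id).const_smul s)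
        exact hc.measurable.mul_const _
    _ = ∫⁻ x, ∫⁻ ω, W ω * ENNReal.ofReal (Real.exp (∑ i, (s • (Ri *ᵥ x)) i * y i ω)) ∂μ ∂(gm N) :=
        lintegral_lintegral_swap hmeas.aemeasurable
    _ ≤ ∫⁻ x, B * ENNReal.ofReal (Real.exp ((t + d) / 2 * ∑ i, x i ^ 2)) ∂(gm N) := by
        refine lintegral_mono fun x => (hB _).trans (le_of_eq ?_)
        congr 3
        have h1 := hform (s • (Ri *ᵥ x))
        rw [bf_eq] at h1
        have e2 : R *ᵥ (s • (Ri *ᵥ x)) = s • x := by
          rw [mulVec_smul, mulVec_mulVec, i1, one_mulVec]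
        rw [e2] at h1
        have e3 : sq2 (s • x) = (t + d) * ∑ i, x i ^ 2 := by
          rw [sq2_eq, Finset.mul_sum, ← hs2]
          refine Finset.sum_congr rfl fun i _ => ?_
          rw [Pi.smul_apply, smul_eq_mul]
          ring
        rw [e3, sq2_eq] at h1
        show 1 / 2 * (∑ i, ∑ j, Gm i j * (s • (Ri *ᵥ x)) i * (s • (Ri *ᵥ x)) j) +
          e / 2 * ∑ i, (s • (Ri *ᵥ x)) i ^ 2 = _
        linarith
    _ = B * ENNReal.ofReal (C1 (t + d) ^ N) := by
        rw [lintegral_const_mul, quad htd1]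
        refine ENNReal.measurable_ofReal.comp (Real.measurable_exp.comp ?_)
        exact (Finset.measurable_sum _ fun i _ => (measurable_pi_apply i).pow_const 2).const_mul _

end PLT

end
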