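import Pool.Agent.PLT.GPoint
import Pool.Agent.NUH0.H0

/-!
# THETA B1a: the crude bound H0 on a static curve, sum over the shells

`H0` (hypothesis: the window bound `ShH0`): the total integral with the squares of any grid, the tail outside a
window, and the exponential squares `SqW2` of all the modes on the window `[-R1, R1]`.  The moving kernels do not
decay: a quantum beyond the cut pays `β` (`d0 (p + n + ss) ≤ β`), its cutoff factor pays for it
(`cf e^β ≤ 1` beyond `Rb`, `β ≤ e1 Rb`); the squares need no payment.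
-/

set_option autoImplicit false
set_option linter.unusedSectionVars false

open MeasureTheory Set Filter Topology
open scoped Real ENNReal

namespace PLT.Gs

open NUH0
open NUMF NUWC NUKer NUDi NUMFC NUR2

noncomputable section

variable {X : Dat} {tc Cκ : ℝ} {p n : ℕ}

/-! ### the sea -/

/-- the tail of the sea -/
theorem sea_tail {m k T : ℝ} (h : Geo X tc Cκ) (a : Bool) (hm : 1 ≤ m) (hs : X.s a ≤ k * m)
    (hT : 3 / 8 * Real.log m ≤ T) : ∫ t in {t | T ≤ |t|}, |X.ρ a t| ≤ tc * k := by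
  have hm0 : 0 < m := by linarith
  have htc := h.tc0
  have hs0 := h.s0 a
  have h1 := tail2 (T := T) (c := tc / 2 * X.s a * Real.exp (-(8 / 3) * T)) (by positivity)
    (h.ρi a) (fun x hx => by
      have h2 := h.PT x
      have h3 : Real.exp (-(8 / 3) * |x|) ≤ Real.exp (-(8 / 3) * T) * Real.exp (-(|x| - T)) := by
        rw [← Real.exp_add]
        exact Real.exp_le_exp.2 (by linarith)
      show |X.s a * X.P x| ≤ _
      rw [abs_mul, abs_of_nonneg (h.P0 x), abs_of_nonneg hs0]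
      calc X.s a * X.P x ≤ X.s a * (tc / 2 * Real.exp (-(8 / 3) * |x|)) := by gcongr
        _ ≤ X.s a * (tc / 2 * (Real.exp (-(8 / 3) * T) * Real.exp (-(|x| - T)))) := by gcongr
        _ = _ := by ring)
  refine h1.trans ?_
  have h2 : Real.exp (-(8 / 3) * T) ≤ 1 / m := by
    rw [one_div, ← Real.exp_log (inv_pos.2 hm0), Real.log_inv]
    exact Real.exp_le_exp.2 (by linarith)
  have h3 : 0 ≤ k * m := hs0.trans hs
  have h4 := (Real.exp_pos (-(8 / 3) * T)).le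
  have h5 : X.s a * Real.exp (-(8 / 3) * T) ≤ (k * m) * (1 / m) := mul_le_mul hs h2 h4 h3
  have h6 : tc * (X.s a * Real.exp (-(8 / 3) * T)) ≤ tc * ((k * m) * (1 / m)) := by gcongr
  have h7 : tc * ((k * m) * (1 / m)) = tc * k := by field_simp
  linarith

/-- without the splitting -/
theorem Wt0_empty (X : Dat) (p n : ℕ) (ch : ℝ → ℝ) (h a0 : ℝ) (aX aY : ℝ → ℝ) :
    Wt0 X p n ch h ∅ a0 aX aY = fun ω =>
      NU42.WO (X.D true) (X.D1 true) (X.D false) (X.D1 false) aX aY ω.1 ω.2 := by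
  funext ω
  unfold Wt0
  simp

theorem Nl_nonneg (X : Dat) {T : ℝ} (hT : 0 ≤ T) (a : Bool) : 0 ≤ Nl X T a :=
  intervalIntegral.integral_nonneg (by linarith) fun t _ => by positivity

theorem NT_nonneg (X : Dat) {T : ℝ} (hT : 0 ≤ T) : 0 ≤ NT X T :=
  add_nonneg (Nl_nonneg X hT true) (Nl_nonneg X hT false)

/-- the hypotheses of the window bound; `stk`: the static kernels; `d0`, `β`: size of the moving kernels beyond the
cut, payment of a quantum there -/
structure Hyp0 (X : Dat) (p n : ℕ) (θ c tc k Kq Λ M : ℝ) (N : ℕ) (m T0 R ε c' m2 m3 d0 β : ℝ)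
    (bb bb' : ℝ → ℝ) : Prop where
  m1 : 1 ≤ m
  pk : (p : ℝ) ≤ k * m
  nk : (n : ℝ) ≤ k * m
  sk : ∀ a, X.s a ≤ k * m
  mT : 3 / 8 * Real.log m ≤ T0
  T0p : 0 < T0
  geo : ∃ Cκ, Geo X tc Cκ
  fld : Fld X p n
  reg : ∃ δ, RegT X T0 δ
  stk : ∃ (hh : Fin N → Bool → ℝ → ℝ) (Sm : Fin N → Fin N → ℝ) (kt : Bool → Bool → ℝ → ℝ → ℝ),
    StK X.ks N hh Sm θ M Λ c kt
  cut : Cut1 R bb bb'
  d00 : 0 ≤ d0
  ker : ∀ a d t t', |X.kd a d t t' - bb t * bb t' * X.kd a d t t'| ≤ ε / 3 + d0 * ((1 - bb t) + (1 - bb t'))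
  dW : d0 * ((p : ℝ) + n + ss X) ≤ β
  dP : d0 * ∫ t, (1 - bb t) * X.P t ≤ ε / 3
  kc : ∃ Λ1, 0 ≤ Λ1 ∧ 4 * Λ1 ≤ c' ∧ ∀ a d, KC R Λ1 (fun t t' => ((X.kd a d t t' : ℝ) : ℂ))
  c0 : 0 < c'
  cq : 8 * c' * (Kq * R) ≤ 1
  m2 : ∀ a, ∫ t in {t | |t| ≤ R}, |X.μ a t| ≤ m2
  m3 : ∀ a, ∫ t, wc c t * |X.μ a t - X.r a t| ≤ m3

/-- the payment is not negative -/
theorem Hyp0.β0 {θ c tc k Kq Λ M m T0 R ε c' m2 m3 d0 β : ℝ} {N : ℕ} {bb bb' : ℝ → ℝ}
    (h : Hyp0 X p n θ c tc k Kq Λ M N m T0 R ε c' m2 m3 d0 β bb bb') : 0 ≤ β := by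
  obtain ⟨Cκ, hG⟩ := h.geo
  have h1 := hG.s0 true
  have h2 := hG.s0 false
  refine le_trans (mul_nonneg h.d00 ?_) h.dW
  unfold ss
  positivity

/-- the sum over the shells with a smaller rate -/
theorem shF_rate {D q g e T0 : ℝ} (hD : 0 ≤ D) (hg : g < q) (he : 0 ≤ e) (heq : e ≤ (q - g) / 2) :
    shF D (q - e) g T0 ≤ 2 * Real.exp (e * T0) * shF D q g T0 := by
  have h1 : 0 < q - g := by linarith
  obtain ⟨a, ha⟩ : ∃ a, a = q - g := ⟨_, rfl⟩
  have ha0 : 0 < a := by rw [ha]; exact h1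
  have h3 : Real.exp (-a) < 1 := by rw [Real.exp_lt_one_iff]; linarith
  have h4 : Real.exp (-(a / 2)) < 1 := by rw [Real.exp_lt_one_iff]; linarith
  have h5 : 0 < 1 - Real.exp (-a) := by linarith
  have h6 : 0 < 1 - Real.exp (-(a / 2)) := by linarith
  have h7 : Real.exp (-(q - e - g)) ≤ Real.exp (-(a / 2)) := Real.exp_le_exp.2 (by rw [ha]; linarith)
  have h8 : 0 < 1 - Real.exp (-(q - e - g)) := by linarith
  have h9 : (1 - Real.exp (-(q - e - g)))⁻¹ ≤ 2 * (1 - Real.exp (-a))⁻¹ := by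
    have e1 : Real.exp (-a) = Real.exp (-(a / 2)) * Real.exp (-(a / 2)) := by
      rw [← Real.exp_add]
      congr 1
      ring
    have e2 : 1 - Real.exp (-a) ≤ 2 * (1 - Real.exp (-(a / 2))) := by
      rw [e1]
      nlinarith [Real.exp_pos (-(a / 2))]
    have e3 : 1 - Real.exp (-a) ≤ 2 * (1 - Real.exp (-(q - e - g))) := by linarith
    rw [inv_le_iff_one_le_mul₀ h8]
    have e4 : (1 - Real.exp (-a)) * (1 - Real.exp (-a))⁻¹ = 1 := mul_inv_cancel₀ h5.ne'
    have e5 : 0 < (1 - Real.exp (-a))⁻¹ := inv_pos.2 h5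
    nlinarith [mul_le_mul_of_nonneg_right e3 e5.le]
  unfold shF
  rw [div_eq_mul_inv, div_eq_mul_inv, ← ha]
  have e6 : Real.exp (-(q - e) * T0) = Real.exp (e * T0) * Real.exp (-q * T0) := by
    rw [← Real.exp_add]
    congr 1
    ring
  rw [e6]
  have h10 : 0 ≤ D * (Real.exp (e * T0) * Real.exp (-q * T0)) * Real.exp g := by positivity
  calc D * (Real.exp (e * T0) * Real.exp (-q * T0)) * Real.exp g * (1 - Real.exp (-(q - e - g)))⁻¹ ≤
      D * (Real.exp (e * T0) * Real.exp (-q * T0)) * Real.exp g * (2 * (1 - Real.exp (-a))⁻¹) :=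
        mul_le_mul_of_nonneg_left h9 h10
    _ = _ := by ring

/-- the two factors of the payment -/
theorem W0_pay {X : Dat} {aX aY cf u : ℝ → ℝ} :
    W0 X p n (fun t => aX t * Real.exp (-u t)) (fun t => aY t * Real.exp (-u t)) (fun t => cf t * Real.exp (u t)) =
      W0 X p n aX aY cf := by
  funext x
  unfold W0
  have e : ∀ a t : ℝ, ∀ v : ℝ, a * Real.exp (-v) * (t * Real.exp v) = a * t := by
    intro a t v
    have h1 : Real.exp (-v) * Real.exp v = 1 := by rw [← Real.exp_add, neg_add_cancel, Real.exp_zero]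
    linear_combination a * t * h1
  simp only [e]

/-- **H0** -/
theorem H0 {ε' θ c tc k : ℝ} (hSh : ShH0 ε' θ c tc k) : ∃ C Kq Λ0 : ℝ, 0 ≤ C ∧ 1 ≤ Kq ∧ 0 < Λ0 ∧
    ∀ (N : ℕ) (M : ℝ), ∃ C1 T1 : ℝ, 0 ≤ C1 ∧ ∀ {X : Dat} {p n : ℕ}
    {m T0 R ε c' m2 m3 Λ d0 β : ℝ} {bb bb' : ℝ → ℝ}, T1 ≤ T0 → Λ ≤ Λ0 →
    Hyp0 X p n θ c tc k Kq Λ M N m T0 R ε c' m2 m3 d0 β bb bb' →
    ∀ {aX aY cf B : ℝ → ℝ} {D q : ℝ}, Shl X aX aY cf B D q → ∀ {E0 g : ℝ}, 0 ≤ g → g < q →
    (∀ T, T0 ≤ T → Ex X p n ε' C C1 Kq T c' R m2 Λ m3 ε ≤ E0 + g * (T - T0)) →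
    (∀ {Rb e1 : ℝ}, (∀ t, 0 ≤ bb t) → (∀ t, |t| ≤ Rb → bb t = 1) → (∀ t, Rb ≤ |t| → cf t * Real.exp β ≤ 1) →
      0 ≤ e1 → β ≤ e1 * Rb → e1 ≤ (q - g) / 2 →
      (∀ {ch : ℝ → ℝ} {K h : ℝ}, Grid ch K h → ∀ (La : Finset ℤ) (a0 : ℝ),
        ∫⁻ x, ENNReal.ofReal (W0 X p n aX aY cf x) * ENNReal.ofReal (Real.exp (1 / 2 *
          ∑ l ∈ La, NU42.Fst ch h a0 (tf X) l x.1 x.2 ^ 2)) ≤
        ENNReal.ofReal ((p.factorial : ℝ) * n.factorial * Real.exp (E0 + e1 * T0 + 1) *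
          (1 + shF D q g T0))) ∧
      (∀ {ch : ℝ → ℝ} {K h : ℝ}, Grid ch K h → ∀ (La : Finset ℤ) (a0 R1 : ℝ), T0 ≤ R1 →
        ∫⁻ x in (NU42.Bw p n R1)ᶜ, ENNReal.ofReal (W0 X p n aX aY cf x) *
          ENNReal.ofReal (Real.exp (1 / 2 * ∑ l ∈ La, NU42.Fst ch h a0 (tf X) l x.1 x.2 ^ 2)) ≤
        ENNReal.ofReal ((p.factorial : ℝ) * n.factorial * Real.exp (E0 + e1 * T0 + 1) *
          (Real.exp (-(q - g - e1) * (R1 - T0)) * shF D q g T0)))) ∧
    (∀ R1, T0 ≤ R1 → (∀ t, |t| ≤ R1 → bb t = 1) → ∀ {τ : ℝ},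
      (∀ a, ∫ t in {t | R1 < |t|}, |X.ρ a t| ≤ τ) →
      SqW2 (p := p) (n := n) (fun x => ENNReal.ofReal (W0 X p n aX aY cf x)) R1 (X.ρ true) (X.ρ false)
        (ENNReal.ofReal ((p.factorial : ℝ) * n.factorial * Real.exp E0 * (1 + shF D q g T0)))
        (c' / 2) (c' * τ ^ 2)) := by
  obtain ⟨C, Kq, Λ0, hC0, hKq, hΛ0, hC⟩ := hSh
  refine ⟨C, Kq, Λ0, hC0, hKq, hΛ0, fun N M => ?_⟩
  obtain ⟨C1, T1, hC1, hC⟩ := hC N M
  refine ⟨C1, T1, hC1, ?_⟩
  intro X p n m T0 R ε c' m2 m3 Λ d0 β bb bb' hT1 hΛ hH aX aY cf B D q hS E0 g hg0 hg hEx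
  have hβ := hH.β0
  obtain ⟨Cκ, hG⟩ := hH.geo
  obtain ⟨δ, hR⟩ := hH.reg
  obtain ⟨hh, Sm, kt, hK⟩ := hH.stk
  obtain ⟨Λ1, hΛ10, hΛ1, hKC⟩ := hH.kc
  have mD := fun a => (hG.Dc a).measurable
  have mD1 := fun a => (hG.D1c a).measurable
  have hA : 0 ≤ (p.factorial : ℝ) * n.factorial * Real.exp E0 := by positivity
  have hT0 := hH.T0p
  have key : ∀ {ch : ℝ → ℝ} {K h : ℝ}, Grid ch K h → ∀ (La : Finset ℤ) (a0 T : ℝ), T0 ≤ T →
      ∀ {a a' : ℝ → ℝ}, _ :=
    fun {ch K h} hg La a0 T hT {a a'} => hC (m := m) (ε := ε) (a0 := a0) hH.m1 hH.pk hH.nk hH.sk hH.mT hT1 hT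
      (by linarith) hG hH.fld hR hK hΛ hg La hH.cut hH.d00 hH.ker hH.dW hH.dP hKC hH.c0 hΛ1 hΛ10 hH.cq hH.m2
      hH.m3 (aX := a) (aY := a')
  have hexp : ∀ T, T0 ≤ T → (p.factorial : ℝ) * n.factorial *
      Real.exp (Ex X p n ε' C C1 Kq T c' R m2 Λ m3 ε) ≤
      (p.factorial : ℝ) * n.factorial * Real.exp E0 * Real.exp (g * (T - T0)) := by
    intro T hT
    rw [mul_assoc _ (Real.exp E0), ← Real.exp_add]
    exact mul_le_mul_of_nonneg_left (Real.exp_le_exp.2 (hEx T hT)) (by positivity)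
  have hE0 : ∀ {ch : ℝ → ℝ} {h : ℝ} (La : Finset ℤ) (a0 : ℝ), ∀ x : Cfg p n,
      0 ≤ Real.exp (1 / 2 * ∑ l ∈ La, NU42.Fst ch h a0 (tf X) l x.1 x.2 ^ 2) :=
    fun La a0 x => (Real.exp_pos _).le
  have hsplit : ∀ {b b' f : ℝ → ℝ} {ch : ℝ → ℝ} {h : ℝ} (La : Finset ℤ) (a0 : ℝ) (x : Cfg p n),
      ENNReal.ofReal (W0 X p n b b' f x) * ENNReal.ofReal (Real.exp (1 / 2 *
        ∑ l ∈ La, NU42.Fst ch h a0 (tf X) l x.1 x.2 ^ 2)) =
      ENNReal.ofReal (NU42.WO (X.D true) (X.D1 true) (X.D false) (X.D1 false)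
        (fun t => b t * f t) (fun t => b' t * f t) x.1 x.2 * Real.exp (1 / 2 *
        ∑ l ∈ La, NU42.Fst ch h a0 (tf X) l x.1 x.2 ^ 2)) := by
    intro b b' f ch h La a0 x
    rw [ENNReal.ofReal_mul' (Real.exp_pos _).le]
    rfl
  refine ⟨?_, ?_⟩
  · intro Rb e1 hbb0 hbb1 hcf he10 hβe he1
    have hbc := hH.cut.cutf.cont
    have hbl : ∀ t, bb t ≤ 1 := fun t => (le_abs_self _).trans (hH.cut.cutf.le t)
    obtain ⟨u, hu⟩ : ∃ u : ℝ → ℝ, u = fun t => β * (1 - bb t) := ⟨_, rfl⟩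
    have hum : Measurable u := by rw [hu]; exact (continuous_const.mul (continuous_const.sub hbc)).measurable
    have hu0 : ∀ t, 0 ≤ u t := fun t => by
      rw [hu]
      exact mul_nonneg hβ (by linarith [hbl t])
    have hu1 : ∀ t, u t ≤ β := fun t => by
      rw [hu]
      have := hbb0 t
      show β * (1 - bb t) ≤ β
      nlinarith
    have hu2 : ∀ t, |t| ≤ Rb → u t = 0 := fun t ht => by
      rw [hu]
      show β * (1 - bb t) = 0
      rw [hbb1 t ht, sub_self, mul_zero]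
    obtain ⟨a, ha⟩ : ∃ a : ℝ → ℝ, a = fun t => aX t * Real.exp (-u t) := ⟨_, rfl⟩
    obtain ⟨a', ha'⟩ : ∃ a' : ℝ → ℝ, a' = fun t => aY t * Real.exp (-u t) := ⟨_, rfl⟩
    obtain ⟨f, hf⟩ : ∃ f : ℝ → ℝ, f = fun t => cf t * Real.exp (u t) := ⟨_, rfl⟩
    have hW : W0 X p n aX aY cf = W0 X p n a a' f := by rw [ha, ha', hf, W0_pay]
    have mexp : Measurable fun t => Real.exp (-u t) := Real.measurable_exp.comp hum.neg
    have ma : Measurable a := by rw [ha]; exact hS.mX.mul mexp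
    have ma' : Measurable a' := by rw [ha']; exact hS.mY.mul mexp
    have a0' : ∀ t, 0 ≤ a t := fun t => by rw [ha]; exact mul_nonneg (hS.X0 t) (Real.exp_pos _).le
    have a0'' : ∀ t, 0 ≤ a' t := fun t => by rw [ha']; exact mul_nonneg (hS.Y0 t) (Real.exp_pos _).le
    have f0 : ∀ t, 0 ≤ f t := fun t => by rw [hf]; exact mul_nonneg (hS.c0 t) (Real.exp_pos _).le
    have f1 : ∀ t, f t ≤ Real.exp (B t) := fun t => by
      rw [hf]
      show cf t * Real.exp (u t) ≤ _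
      rcases le_total |t| Rb with h | h
      · rw [hu2 t h, Real.exp_zero, mul_one]
        exact hS.cB t
      · refine le_trans ((mul_le_mul_of_nonneg_left (Real.exp_le_exp.2 (hu1 t)) (hS.c0 t)).trans
          (hcf t h)) (Real.one_le_exp (hS.B0 t))
    have f2 : ∀ t, f t ≤ D * Real.exp (-(q - e1) * |t|) := fun t => by
      rw [hf]
      show cf t * Real.exp (u t) ≤ _
      have h1 : u t ≤ e1 * |t| := by
        rcases le_total |t| Rb with h | h
        · rw [hu2 t h]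
          positivity
        · exact (hu1 t).trans (hβe.trans (mul_le_mul_of_nonneg_left h he10))
      calc cf t * Real.exp (u t) ≤ (D * Real.exp (-q * |t|)) * Real.exp (e1 * |t|) :=
            mul_le_mul (hS.cD t) (Real.exp_le_exp.2 h1) (Real.exp_pos _).le
              (mul_nonneg hS.D0 (Real.exp_pos _).le)
        _ = _ := by
            rw [mul_assoc, ← Real.exp_add]
            congr 2
            ring
    have hleX : ∀ t, a t * Real.exp (B t) ≤ Real.exp (X.pot true t - β * (1 - bb t)) := fun t => by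
      rw [ha]
      have h1 := mul_le_mul_of_nonneg_right (hS.leX t) (Real.exp_pos (-u t)).le
      rw [← Real.exp_add, hu] at h1
      rw [hu]
      refine le_trans (le_of_eq ?_) (h1.trans (le_of_eq ?_))
      · ring
      · congr 1
    have hleY : ∀ t, a' t * Real.exp (B t) ≤ Real.exp (X.pot false t - β * (1 - bb t)) := fun t => by
      rw [ha']
      have h1 := mul_le_mul_of_nonneg_right (hS.leY t) (Real.exp_pos (-u t)).le
      rw [← Real.exp_add, hu] at h1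
      rw [hu]
      refine le_trans (le_of_eq ?_) (h1.trans (le_of_eq ?_))
      · ring
      · congr 1
    have hq' : 0 < q - e1 := by linarith
    have hg' : g < q - e1 := by linarith
    have hwin : ∀ {ch : ℝ → ℝ} {K h : ℝ}, Grid ch K h → ∀ (La : Finset ℤ) (a0 T : ℝ), T0 ≤ T → _ :=
      fun {ch K h} hgr La a0 T hT => ((key hgr La a0 T hT (a := fun t => a t * Real.exp (B t))
        (a' := fun t => a' t * Real.exp (B t))
        (fun t => mul_nonneg (a0' t) (Real.exp_pos _).le)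
        (fun t => mul_nonneg (a0'' t) (Real.exp_pos _).le) (fun t _ => hleX t) (fun t _ => hleY t)).1).trans
        (ENNReal.ofReal_le_ofReal (hexp T hT))
    have hsh := shF_rate (T0 := T0) hS.D0 hg he10 he1
    have hsh0 := shF_nonneg (T0 := T0) hS.D0 hg
    have hee : 2 * Real.exp (e1 * T0) * Real.exp E0 ≤ Real.exp (E0 + e1 * T0 + 1) := by
      have h1 : (2 : ℝ) ≤ Real.exp 1 := by
        have := Real.add_one_le_exp (1 : ℝ)
        linarith
      rw [Real.exp_add, Real.exp_add]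
      have h2 := Real.exp_pos (e1 * T0)
      have h3 := Real.exp_pos E0
      nlinarith [mul_pos h2 h3]
    have he1T : 1 ≤ Real.exp (e1 * T0) := Real.one_le_exp (by positivity)
    have hpn : 0 ≤ (p.factorial : ℝ) * n.factorial := by positivity
    rw [hW]
    refine ⟨?_, ?_⟩
    · intro ch K h hgr La a0
      have h1 := NU42.WO_full (p := p) (n := n) (mD true) (mD1 true) (mD false) (mD1 false) ma ma'
        a0' a0'' (expFst_meas hgr La a0 (tf X)) (hE0 La a0) hS.mB (T0 := T0) hS.D0 hA hq' hg' hS.B0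
        f0 f1 f2 (fun T hT => hwin hgr La a0 T hT)
      simp only [hsplit]
      refine h1.trans (ENNReal.ofReal_le_ofReal ?_)
      have h2 : D * Real.exp (-(q - e1) * T0) * Real.exp g / (1 - Real.exp (-(q - e1 - g))) =
        shF D (q - e1) g T0 := rfl
      rw [h2]
      have h3 : 1 + shF D (q - e1) g T0 ≤ 2 * Real.exp (e1 * T0) * (1 + shF D q g T0) := by
        nlinarith
      calc (p.factorial : ℝ) * n.factorial * Real.exp E0 * (1 + shF D (q - e1) g T0) ≤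
          (p.factorial : ℝ) * n.factorial * Real.exp E0 * (2 * Real.exp (e1 * T0) * (1 + shF D q g T0)) := by
            gcongr
        _ = (p.factorial : ℝ) * n.factorial * (2 * Real.exp (e1 * T0) * Real.exp E0) * (1 + shF D q g T0) := by
            ring
        _ ≤ _ := by gcongr
    · intro ch K h hgr La a0 R1 hR1
      have h1 := NU42.WO_tail (p := p) (n := n) (mD true) (mD1 true) (mD false) (mD1 false) ma ma'
        a0' a0'' (expFst_meas hgr La a0 (tf X)) (hE0 La a0) hS.mB (T0 := T0) hS.D0 hA hq' hg' hS.B0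
        f0 f1 f2 hR1 (fun T hT => hwin hgr La a0 T hT)
      simp only [hsplit]
      have e9 : q - e1 - g = q - g - e1 := by ring
      have h4 : (p.factorial : ℝ) * n.factorial * Real.exp E0 *
          (Real.exp (-(q - g - e1) * (R1 - T0)) * shF D (q - e1) g T0) ≤
          (p.factorial : ℝ) * n.factorial * Real.exp (E0 + e1 * T0 + 1) *
          (Real.exp (-(q - g - e1) * (R1 - T0)) * shF D q g T0) := by
        calc (p.factorial : ℝ) * n.factorial * Real.exp E0 *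
            (Real.exp (-(q - g - e1) * (R1 - T0)) * shF D (q - e1) g T0) ≤
            (p.factorial : ℝ) * n.factorial * Real.exp E0 *
            (Real.exp (-(q - g - e1) * (R1 - T0)) * (2 * Real.exp (e1 * T0) * shF D q g T0)) := by gcongr
          _ = (p.factorial : ℝ) * n.factorial * (2 * Real.exp (e1 * T0) * Real.exp E0) *
            (Real.exp (-(q - g - e1) * (R1 - T0)) * shF D q g T0) := by ring
          _ ≤ _ := by gcongr
      refine h1.trans (ENNReal.ofReal_le_ofReal (le_trans (le_of_eq ?_) h4))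
      unfold shF
      rw [e9]
      ring
  · intro R1 hR1 hb1 τ hτ
    have h1 := sqW_shells2 (p := p) (n := n) (mD true) (mD1 true) (mD false) (mD1 false) hS.mX hS.mY
      hS.X0 hS.Y0 hS.mB hS.D0 hA hS.q0 hg hg0 hS.B0 hS.c0 hS.cB hS.cD hR1 (hT0.le.trans hR1)
      hH.cut.cutf.cont hb1 hH.cut.cutf.le (hG.ρi true) (hG.ρi false) (hτ true)
      (hτ false) (K := 0) hH.c0.le (fun T hT hTR => by
        have hb : ∀ t, |t| ≤ T → β * (1 - bb t) = 0 := fun t ht => by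
          rw [hb1 t (ht.trans hTR), sub_self, mul_zero]
        have h2 := (key grid0 ∅ 0 T hT (a := fun t => aX t * Real.exp (B t))
          (a' := fun t => aY t * Real.exp (B t))
          (fun t => mul_nonneg (hS.X0 t) (Real.exp_pos _).le)
          (fun t => mul_nonneg (hS.Y0 t) (Real.exp_pos _).le)
          (fun t ht => by rw [hb t ht, sub_zero]; exact hS.leX t)
          (fun t ht => by rw [hb t ht, sub_zero]; exact hS.leY t)).2
        rw [Wt0_empty] at h2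
        refine h2.mono ?_
        rw [Real.exp_zero, mul_one]
        exact hexp T hT)
    rw [zero_add] at h1
    exact h1

end

end PLT.Gs
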