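import Pool.Agent.PLT.GWin
import Pool.Agent.PLT.GFd
import Pool.Agent.PLT.GH0

/-!
# THETA B1a: the window bound on a static curve

`shH0 : θ < 1 → 0 < c → 0 < ε' → ShH0 ε' θ c tc k`.
-/

set_option autoImplicit false

open MeasureTheory Set Filter Topology
open scoped Real ENNReal

namespace PLT.Gs

open NUH0
open NUMF NUWC NUC37 NUKer NUDi NUMFC NUR2
open NU42 (Bk)

noncomputable section

variable {N : ℕ} {h : Fin N → Bool → ℝ → ℝ} {Sm : Fin N → Fin N → ℝ} {θ M M' Λ c : ℝ}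
  {kt : Bool → Bool → ℝ → ℝ → ℝ} {X : Dat} {tc Cκ : ℝ} {p n : ℕ} {T T0 δ η e K Cf : ℝ}

/-- the energy of the difference is not negative -/
theorem eR_nonneg (hG : Geo X tc Cκ) (hR : RegT X T0 δ) : 0 ≤ X.eR := by
  have h1 : ∀ a, 0 ≤ eV (fun s => rm X a s + -1 * rr X a s) (fun s => rm X a s + -1 * rr X a s) := fun a => by
    have h2 := (hR.tl hG a).add ((hR.tlr hG a).smul (-1))
    refine psd hR.T0 ?_ h2
    have := hR.δ0
    positivity
  rw [eR_eq]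
  exact add_nonneg (h1 true) (h1 false)

/-- the constant of one species -/
theorem Bs_le (hR : RegT X T0 δ) (hG : Geo X tc Cκ) (hT0 : 0 < T) (hT : T0 ≤ T) (hη : 0 < η) (a : Bool) (m : ℕ) :
    Bs (Gw T) (Lw T) (dT T0 δ T) η m (rm X a) (fun t => chi T t * X.φ a t) ≤
      (m.factorial : ℝ) * cpc ^ m * Real.exp ((1 / 2 * (∫ t, rm X a t * ∫ u, rm X a u * V (t - u)) +
        ∫ t, rm X a t * X.φ a t) + (7 / 12 * Lw T + NUC62.err (Gw T) (Lw T) m) +
        (46 * cV + 2 + (2 + 1 / η) * (11 * Nl X T a))) := by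
  have hG9 := Gw_ge hT0.le
  have hTL : 2 * T + 2 ≤ Lw T := by linarith [Lw_ge hT0.le]
  have hQ := Qt_cut hG9 hT0.le hTL (hR.φd a) (hR.φc' a)
  have hl := hR.lin hG hT a
  have ht := hR.tent hT
  have hcV := cV_pos
  have hη' : 0 < 1 / η := by positivity
  have e1 : 2 * (cV * dT T0 δ T ^ 2 * (2 * Gw T + 1)) ≤ 46 * cV := by
    calc 2 * (cV * dT T0 δ T ^ 2 * (2 * Gw T + 1)) = 2 * (cV * (dT T0 δ T ^ 2 * (2 * Gw T + 1))) := by ring
      _ ≤ 2 * (cV * 23) := by gcongr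
      _ = _ := by ring
  have e3 : (2 + 1 / η) * Qt (Gw T) (Lw T) (fun x => chi T x * X.φ a x) ≤ (2 + 1 / η) * (11 * Nl X T a) := by
    refine mul_le_mul_of_nonneg_left ?_ (by positivity)
    exact hQ
  unfold Bs
  have hc : (2 * Real.pi / √NUC62.cω) = cpc := rfl
  rw [hc]
  have hcp := cpc_pos
  refine mul_le_mul_of_nonneg_left (Real.exp_le_exp.2 ?_) (by positivity)
  have e2 : eV (rm X a) (rm X a) = ∫ t, rm X a t * ∫ u, rm X a u * V (t - u) := rfl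
  rw [e2]
  linarith

/-- **the total constant** -/
theorem const_le (hG : Geo X tc Cκ) (hF : Fld X p n) (hR : RegT X T0 δ) (hT0 : 0 < T) (hT : T0 ≤ T)
    (hη : 0 < η) {C1 E0 E : ℝ} (hCf : Cf ≤ Real.exp C1) :
    ENNReal.ofReal (Real.exp (C0 X p n + E0)) * Bwin X T0 δ T η Cf p n E ≤
    ENNReal.ofReal ((p.factorial : ℝ) * n.factorial * Real.exp (X.Mp p n + X.En +
      ((7 / 12 * Lw T + NUC62.err (Gw T) (Lw T) p) + (7 / 12 * Lw T + NUC62.err (Gw T) (Lw T) n)) +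
      (92 * cV + 5 + (2 + 1 / η) * (11 * NT X T) + 1 / (2 * η) * X.eR + C1 + E0 + E))) := by
  have hcp := cpc_pos
  have b1 := Bs_le hR hG hT0 hT hη true p
  have b2 := Bs_le hR hG hT0 hT hη false n
  have hNe : NT X T = Nl X T true + Nl X T false := rfl
  obtain ⟨A1, hA1⟩ : ∃ A1, A1 = (1 / 2 * (∫ t, rm X true t * ∫ u, rm X true u * V (t - u)) +
        ∫ t, rm X true t * X.φ true t) := ⟨_, rfl⟩
  obtain ⟨A2, hA2⟩ : ∃ A2, A2 = (1 / 2 * (∫ t, rm X false t * ∫ u, rm X false u * V (t - u)) +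
        ∫ t, rm X false t * X.φ false t) := ⟨_, rfl⟩
  have hC := C0_eq hG hF hR.toReg
  rw [Fintype.sum_bool, ← hA1, ← hA2] at hC
  rw [← hA1] at b1
  rw [← hA2] at b2
  have hM := exp_Mp X p n
  have hs2 : √2 ≤ Real.exp 1 := by
    have h1 : √2 ≤ 2 := by
      rw [Real.sqrt_le_left (by norm_num)]
      norm_num
    have h2 := Real.add_one_le_exp (1 : ℝ)
    linarith
  obtain ⟨B1, hB1⟩ : ∃ B1, B1 = Bs (Gw T) (Lw T) (dT T0 δ T) η p (rm X true) (fun t => chi T t * X.φ true t) :=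
    ⟨_, rfl⟩
  obtain ⟨B2, hB2⟩ : ∃ B2, B2 = Bs (Gw T) (Lw T) (dT T0 δ T) η n (rm X false) (fun t => chi T t * X.φ false t) :=
    ⟨_, rfl⟩
  have p1 : 0 ≤ B1 := by rw [hB1]; unfold Bs; positivity
  have p2 : 0 ≤ B2 := by rw [hB2]; unfold Bs; positivity
  obtain ⟨e1, he1⟩ : ∃ e1, e1 = (7 / 12 * Lw T + NUC62.err (Gw T) (Lw T) p) := ⟨_, rfl⟩
  obtain ⟨e2, he2⟩ : ∃ e2, e2 = (7 / 12 * Lw T + NUC62.err (Gw T) (Lw T) n) := ⟨_, rfl⟩
  rw [← hB1, ← he1] at b1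
  rw [← hB2, ← he2] at b2
  unfold Bwin BW
  rw [← hB1, ← hB2, ← he1, ← he2]
  have hCf' : ENNReal.ofReal Cf ≤ ENNReal.ofReal (Real.exp C1) := ENNReal.ofReal_le_ofReal hCf
  obtain ⟨eT, heT⟩ : ∃ eT, eT = 1 / η * (1 / 2 * X.eR) := ⟨_, rfl⟩
  have heT' : 1 / (2 * η) * X.eR = eT := by
    rw [heT]
    field_simp
  rw [← heT, heT']
  calc ENNReal.ofReal (Real.exp (C0 X p n + E0)) * (ENNReal.ofReal (B1 * B2 * Real.exp eT) * ENNReal.ofReal Cf *
        ENNReal.ofReal (√2 * Real.exp E)) ≤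
      ENNReal.ofReal (Real.exp (C0 X p n + E0)) * (ENNReal.ofReal (B1 * B2 * Real.exp eT) *
        ENNReal.ofReal (Real.exp C1) * ENNReal.ofReal (Real.exp 1 * Real.exp E)) := by
        gcongr
    _ = ENNReal.ofReal (Real.exp (C0 X p n + E0) * (B1 * B2 * Real.exp eT * Real.exp C1 *
        (Real.exp 1 * Real.exp E))) := by
        rw [← ENNReal.ofReal_mul (by positivity), ← ENNReal.ofReal_mul (by positivity),
          ← ENNReal.ofReal_mul (by positivity)]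
    _ ≤ _ := by
        refine ENNReal.ofReal_le_ofReal ?_
        have hprod : B1 * B2 ≤ ((p.factorial : ℝ) * cpc ^ p *
            Real.exp (A1 + e1 + (46 * cV + 2 + (2 + 1 / η) * (11 * Nl X T true)))) *
            ((n.factorial : ℝ) * cpc ^ n *
            Real.exp (A2 + e2 + (46 * cV + 2 + (2 + 1 / η) * (11 * Nl X T false)))) :=
          mul_le_mul b1 b2 p2 (by positivity)
        obtain ⟨N1, hN1⟩ : ∃ N1, N1 = 46 * cV + 2 + (2 + 1 / η) * (11 * Nl X T true) := ⟨_, rfl⟩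
        obtain ⟨N2, hN2⟩ : ∃ N2, N2 = 46 * cV + 2 + (2 + 1 / η) * (11 * Nl X T false) := ⟨_, rfl⟩
        rw [← hN1, ← hN2] at hprod
        have e3 : X.Mp p n + X.En + (e1 + e2) + (92 * cV + 5 + (2 + 1 / η) * (11 * NT X T) + eT + C1 + E0 + E) =
            X.Mp p n + (X.En + (e1 + e2) + (N1 + N2) + 1 + eT + C1 + E0 + E) := by
          rw [hN1, hN2, hNe]
          ring
        rw [e3, Real.exp_add (X.Mp p n), hM]
        calc Real.exp (C0 X p n + E0) * (B1 * B2 * Real.exp eT * Real.exp C1 * (Real.exp 1 * Real.exp E)) ≤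
            Real.exp (C0 X p n + E0) * ((((p.factorial : ℝ) * cpc ^ p * Real.exp (A1 + e1 + N1)) *
            ((n.factorial : ℝ) * cpc ^ n * Real.exp (A2 + e2 + N2))) * Real.exp eT * Real.exp C1 *
            (Real.exp 1 * Real.exp E)) := by gcongr
          _ = (p.factorial : ℝ) * n.factorial * ((cpc ^ p * cpc ^ n) * Real.exp ((C0 X p n + E0) +
              (A1 + e1 + N1) + (A2 + e2 + N2) + eT + C1 + 1 + E)) := by
            rw [Real.exp_add _ E, Real.exp_add _ (1 : ℝ), Real.exp_add _ C1, Real.exp_add _ eT,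
              Real.exp_add _ (A2 + e2 + N2), Real.exp_add (C0 X p n + E0)]
            ring
          _ = _ := by
            have e5 : (C0 X p n + E0) + (A1 + e1 + N1) + (A2 + e2 + N2) + eT + C1 + 1 + E =
                (Real.log (g 0) * (((p : ℝ) + n) / 2) + X.M0) +
                (X.En + (e1 + e2) + (N1 + N2) + 1 + eT + C1 + E0 + E) := by
              linear_combination hC
            rw [e5, Real.exp_add (Real.log (g 0) * (((p : ℝ) + n) / 2) + X.M0)]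
            ring

/-- the tent condition of the fields holds for large windows -/
theorem he_of {A T : ℝ} (N : ℕ) {M e η : ℝ} (he : 0 < e) (hη : 0 < η)
    (hA : A = (2 + 2 * η) * cV * (N * M ^ 2) * 19 * 4 / e) (hT0 : 0 ≤ T) (hT : A ≤ T) :
    (2 + 2 * η) * (cV * (2 * Gw T + 1)) * (N * (M * Real.exp (-2 * T)) ^ 2) ≤ e / 4 := by
  have hcV := cV_pos
  have h1 : Real.log (1 + T) ≤ T := by
    have := Real.log_le_sub_one_of_pos (show 0 < 1 + T by linarith)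
    linarith
  have h2 : 2 * Gw T + 1 ≤ 19 * (1 + T) := by
    unfold Gw
    linarith
  have h3 : (Real.exp (-2 * T)) ^ 2 * (1 + T) ^ 2 ≤ 1 := by
    have h4 := Real.add_one_le_exp T
    have h5 : Real.exp (-2 * T) ^ 2 = Real.exp (-T) ^ 2 * Real.exp (-T) ^ 2 := by
      rw [← Real.exp_nat_mul, ← Real.exp_nat_mul, ← Real.exp_add]
      congr 1
      push_cast
      ring
    have h6 : Real.exp (-T) * (1 + T) ≤ 1 := by
      rw [Real.exp_neg, inv_mul_le_iff₀ (Real.exp_pos T)]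
      linarith
    have h7 : Real.exp (-T) ≤ 1 := Real.exp_le_one_iff.2 (by linarith)
    have h8 := Real.exp_pos (-T)
    have h9 : Real.exp (-T) ^ 2 ≤ 1 := by nlinarith
    have h10 : (Real.exp (-T) * (1 + T)) ^ 2 ≤ 1 := by
      have : 0 ≤ Real.exp (-T) * (1 + T) := by positivity
      nlinarith
    rw [h5]
    calc Real.exp (-T) ^ 2 * Real.exp (-T) ^ 2 * (1 + T) ^ 2 =
        Real.exp (-T) ^ 2 * (Real.exp (-T) * (1 + T)) ^ 2 := by ring
      _ ≤ 1 * 1 := by gcongr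
      _ = 1 := one_mul 1
  have h4 : (2 + 2 * η) * (cV * (2 * Gw T + 1)) * (N * (M * Real.exp (-2 * T)) ^ 2) ≤
      (2 + 2 * η) * cV * (N * M ^ 2) * 19 / (1 + T) := by
    rw [le_div_iff₀ (by linarith)]
    calc (2 + 2 * η) * (cV * (2 * Gw T + 1)) * (N * (M * Real.exp (-2 * T)) ^ 2) * (1 + T) =
        (2 + 2 * η) * cV * (N * M ^ 2) * ((2 * Gw T + 1) * (Real.exp (-2 * T) ^ 2 * (1 + T))) := by ring
      _ ≤ (2 + 2 * η) * cV * (N * M ^ 2) * ((19 * (1 + T)) * (Real.exp (-2 * T) ^ 2 * (1 + T))) := by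
          gcongr
      _ = (2 + 2 * η) * cV * (N * M ^ 2) * 19 * (Real.exp (-2 * T) ^ 2 * (1 + T) ^ 2) := by ring
      _ ≤ (2 + 2 * η) * cV * (N * M ^ 2) * 19 * 1 := by gcongr
      _ = _ := mul_one _
  refine h4.trans ?_
  rw [div_le_iff₀ (by linarith)]
  have h5 : (2 + 2 * η) * cV * (N * M ^ 2) * 19 = A * (e / 4) := by
    rw [hA]
    field_simp
  rw [h5]
  have h6 : A ≤ 1 + T := by linarith
  calc A * (e / 4) ≤ (1 + T) * (e / 4) := by gcongr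
    _ = _ := mul_comm _ _

/-- **THE WINDOW BOUND ON A STATIC CURVE** -/
theorem shH0 {ε' θ c : ℝ} (hθ : θ < 1) (hc : 0 < c) (hε' : 0 < ε') (tc k : ℝ) : ShH0 ε' θ c tc k := by
  obtain ⟨C, hC0, hC⟩ := bk (ε := ε' / 2) (by positivity) k
  have hcV := cV_pos
  -- the loss `η`
  obtain ⟨η, hη, hηθ⟩ : ∃ η : ℝ, 0 < η ∧ (1 + 3 * η) * θ < 1 := by
    refine ⟨(1 - θ) / (6 * (1 + |θ|)), by
      have := abs_nonneg θ
      exact div_pos (by linarith) (by positivity), ?_⟩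
    have h1 := abs_nonneg θ
    have h2 := le_abs_self θ
    have h3 : 3 * ((1 - θ) / (6 * (1 + |θ|))) * θ ≤ (1 - θ) / 2 := by
      have h4 : 3 * ((1 - θ) / (6 * (1 + |θ|))) * θ = (1 - θ) / 2 * (θ / (1 + |θ|)) := by
        field_simp
        ring
      rw [h4]
      have h5 : θ / (1 + |θ|) ≤ 1 := by
        rw [div_le_one (by positivity)]
        linarith
      have h6 : 0 ≤ (1 - θ) / 2 := by linarith
      nlinarith
    nlinarith
  have hη' : 0 < 1 / η := by positivity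
  obtain ⟨κ, hκ⟩ : ∃ κ, κ = 2 + 1 / η := ⟨_, rfl⟩
  have hκ2 : 2 ≤ κ := by rw [hκ]; linarith
  obtain ⟨q1, hq1⟩ : ∃ q1, q1 = 2 * κ * Qr c := ⟨_, rfl⟩
  have hQr := Qr_pos hc.le
  have hq10 : 0 < q1 := by rw [hq1]; positivity
  obtain ⟨D0, hD0⟩ : ∃ D0, D0 = 2 * C + (92 * cV + 5 + 3 + (tc * k) ^ 2) + 11 * κ + 1 / (2 * η) + 32 * q1 +
    1 / (64 * q1) := ⟨_, rfl⟩
  have hη2 : 0 < 1 / (2 * η) := by positivity
  have hq64 : 0 < 1 / (64 * q1) := by positivity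
  have hD00 : 0 ≤ D0 := by rw [hD0]; positivity
  refine ⟨D0, 352 * κ, 1 / (64 * q1), hD00, by linarith, hq64, fun N M => ?_⟩
  obtain ⟨Kf, hKf⟩ : ∃ Kf : ℝ, Kf = max |M| ((1 + 3 * η) * KG |M|) := ⟨_, rfl⟩
  obtain ⟨e, Cf, he, hCf, hfd⟩ := PLT.gfd N Kf hηθ
  obtain ⟨A, hA⟩ : ∃ A : ℝ, A = (2 + 2 * η) * cV * (N * |M| ^ 2) * 19 * 4 / e := ⟨_, rfl⟩
  refine ⟨Real.log (max Cf 1), A, Real.log_nonneg (le_max_right _ _), ?_⟩
  intro X Cκ p n R T T0 δ Λ1 Λ c' ε d0 β m2 m3 a0 K h m bb bb' ch hh Sm kt hm hp hn hs hT0m hT1 hT hT0 hG hF hR hst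
    hΛ hg La hb hd0 he1 hβ hP hKC hc0 hc1 hΛ1 hq hm2 hm3 aX aY haX haY hX hY
  have hTm : 3 / 8 * Real.log m ≤ T := hT0m.trans hT
  have hδ2 := fun a => sea_tail (T := T) hG a hm (hs a) hTm
  have k1 := hC m T p hm hT0.le hTm hp
  have k2 := hC m T n hm hT0.le hTm hn
  have hN1 := Nl0 X hT0.le true
  have hN2 := Nl0 X hT0.le false
  have hNe : NT X T = Nl X T true + Nl X T false := rfl
  have hNT : 0 ≤ NT X T := by linarith
  have heR := eR_nonneg hG hR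
  have hΛ0 : 0 ≤ Λ := (hst.bk true true).C0
  have hM0 := abs_nonneg M
  have hM1 := le_abs_self M
  -- the structure of the finite rank
  have hfr : Fr hh Sm |M| θ η T e Kf Cf := by
    refine ⟨hM0, hst.hc, fun i a t => (hst.hb i a t).trans (mul_le_mul_of_nonneg_right hM1 (Real.exp_pos _).le),
      he_of N he hη hA hT0.le (hT1.trans hT), ?_, by rw [hKf]; exact le_max_right _ _,
      fun i j => ((hst.Sb i j).trans hM1).trans (by rw [hKf]; exact le_max_left _ _), hst.Ss, hst.op⟩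
    intro G S h1 h2 h3 h4 h5 h6 Ω _ μ _ W y
    exact hfd G S h1 h2 h3 h4 h5 h6 μ W y
  -- the masses
  obtain ⟨m1, hm1⟩ : ∃ m1, m1 = (p : ℝ) + ∫ t, |rr X true t| := ⟨_, rfl⟩
  obtain ⟨m1', hm1'⟩ : ∃ m1', m1' = (n : ℝ) + ∫ t, |rr X false t| := ⟨_, rfl⟩
  obtain ⟨Rs, hRs⟩ : ∃ Rs : ℝ, Rs = 1 / c * Real.log (1 + (m1 + m1') ^ 2) := ⟨_, rfl⟩
  have hlog : 0 ≤ Real.log (1 + (m1 + m1') ^ 2) := Real.log_nonneg (by
    have h1 := sq_nonneg (m1 + m1')
    linarith)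
  have hRs0 : 0 ≤ Rs := by rw [hRs]; positivity
  obtain ⟨N0, b, b', cs, hN0, hbf, hbr⟩ := exists_cutR hc.le hRs0
  have hEr : (Λ * (2 * Real.exp (-c * Rs))) / 2 * (m1 + m1') ^ 2 ≤ Λ := by
    have e1 : Real.exp (-c * Rs) = (1 + (m1 + m1') ^ 2)⁻¹ := by
      have e2 : -c * Rs = -Real.log (1 + (m1 + m1') ^ 2) := by
        rw [hRs]
        field_simp
      rw [e2, Real.exp_neg, Real.exp_log (by positivity)]
    rw [e1]
    have e3 : (Λ * (2 * (1 + (m1 + m1') ^ 2)⁻¹)) / 2 * (m1 + m1') ^ 2 =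
        Λ * ((m1 + m1') ^ 2 / (1 + (m1 + m1') ^ 2)) := by
      field_simp
    rw [e3]
    refine mul_le_of_le_one_right hΛ0 ?_
    rw [div_le_one (by positivity)]
    linarith
  -- the size of the forms
  obtain ⟨ϑ, hϑe⟩ : ∃ ϑ : ℝ, ϑ = 1 / (64 * q1 * (1 + m3 ^ 2)) := ⟨_, rfl⟩
  have hϑ : 0 < ϑ := by rw [hϑe]; positivity
  have hϑq : ϑ * q1 * (1 + m3 ^ 2) = 1 / 64 := by
    rw [hϑe]
    field_simp
  have hϑq1 : ϑ * q1 ≤ 1 / 64 := by
    have h1 : 0 ≤ ϑ * q1 * m3 ^ 2 := by positivity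
    have h2 : ϑ * q1 * (1 + m3 ^ 2) = ϑ * q1 + ϑ * q1 * m3 ^ 2 := by ring
    linarith
  have hΛq : Λ * q1 ≤ 1 / 64 := by
    calc Λ * q1 ≤ 1 / (64 * q1) * q1 := by gcongr
      _ = 1 / 64 := by field_simp
  have hR1 := hb.one
  have hEab : Eab η c c' R Λ ϑ m2 (tc * k) m3 ≤
      352 * κ * c' * R * m2 ^ 2 + (tc * k) ^ 2 + (32 * q1 * Λ * m3 ^ 2 + 2 + 1 / 2) := by
    unfold Eab
    rw [← hκ, ← hq1]
    have h1 : (m2 + tc * k) ^ 2 ≤ 2 * m2 ^ 2 + 2 * (tc * k) ^ 2 := by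
      have h0 := sq_nonneg (m2 - tc * k)
      have h2 : (m2 + tc * k) ^ 2 = 2 * m2 ^ 2 + 2 * (tc * k) ^ 2 - (m2 - tc * k) ^ 2 := by ring
      linarith
    have h2 : 352 * κ * c' * R ≤ 1 := by
      have h3 : 0 ≤ 352 * κ * c' * R := by positivity
      have h4 : 8 * c' * (352 * κ * R) = 8 * (352 * κ * c' * R) := by ring
      linarith
    have h3 : 4 * (2 * c') * (2 * κ * (11 * R)) * (m2 + tc * k) ^ 2 ≤
        352 * κ * c' * R * m2 ^ 2 + (tc * k) ^ 2 := by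
      calc 4 * (2 * c') * (2 * κ * (11 * R)) * (m2 + tc * k) ^ 2 = 176 * κ * c' * R * (m2 + tc * k) ^ 2 := by
            ring
        _ ≤ 176 * κ * c' * R * (2 * m2 ^ 2 + 2 * (tc * k) ^ 2) := by gcongr
        _ = 352 * κ * c' * R * m2 ^ 2 + 352 * κ * c' * R * (tc * k) ^ 2 := by ring
        _ ≤ 352 * κ * c' * R * m2 ^ 2 + 1 * (tc * k) ^ 2 := by gcongr
        _ = _ := by ring
    have h4 : (m3 + 2) ^ 2 ≤ 2 * m3 ^ 2 + 8 := by
      have h0 := sq_nonneg (m3 - 2)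
      have h2 : (m3 + 2) ^ 2 = 2 * m3 ^ 2 + 8 - (m3 - 2) ^ 2 := by ring
      linarith
    have h5 : 4 * (4 * Λ + ϑ) * q1 * (m3 + 2) ^ 2 ≤ 32 * q1 * Λ * m3 ^ 2 + 2 + 1 / 2 := by
      calc 4 * (4 * Λ + ϑ) * q1 * (m3 + 2) ^ 2 ≤ 4 * (4 * Λ + ϑ) * q1 * (2 * m3 ^ 2 + 8) := by gcongr
        _ = 32 * q1 * Λ * m3 ^ 2 + 128 * (Λ * q1) + 8 * (ϑ * q1 * (1 + m3 ^ 2)) + 24 * (ϑ * q1) := by ring
        _ ≤ 32 * q1 * Λ * m3 ^ 2 + 128 * (1 / 64) + 8 * (1 / 64) + 24 * (1 / 64) := by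
            rw [hϑq]
            gcongr
        _ = _ := by ring
    linarith
  have hq' : 8 * (2 * c') * (2 * (2 + 1 / η) * (11 * R)) ≤ 1 := by
    rw [← hκ]
    have h1 : 0 ≤ κ * (c' * R) := by positivity
    have h2 : 8 * (2 * c') * (2 * κ * (11 * R)) = 352 * (κ * (c' * R)) := by ring
    have h3 : 8 * c' * (352 * κ * R) = 2816 * (κ * (c' * R)) := by ring
    linarith
  have hq2' : 8 * (4 * Λ + ϑ) * (2 * (2 + 1 / η) * Qr c) ≤ 1 := by
    rw [← hκ, ← hq1]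
    have h1 : 8 * (4 * Λ + ϑ) * q1 = 32 * (Λ * q1) + 8 * (ϑ * q1) := by ring
    linarith
  have hCf1 : Cf ≤ Real.exp (Real.log (max Cf 1)) := by
    rw [Real.exp_log (lt_of_lt_of_le one_pos (le_max_right _ _))]
    exact le_max_left _ _
  have hcl := const_le (p := p) (n := n) (E0 := er X p n ε Λ c Rs (m1 + m1'))
    (E := Eab η c c' R Λ ϑ m2 (tc * k) m3) hG hF hR hT0 hT hη hCf1
  have hfin : ENNReal.ofReal ((p.factorial : ℝ) * n.factorial * Real.exp (X.Mp p n + X.En +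
      ((7 / 12 * Lw T + NUC62.err (Gw T) (Lw T) p) + (7 / 12 * Lw T + NUC62.err (Gw T) (Lw T) n)) +
      (92 * cV + 5 + (2 + 1 / η) * (11 * NT X T) + 1 / (2 * η) * X.eR + Real.log (max Cf 1) +
        er X p n ε Λ c Rs (m1 + m1') + Eab η c c' R Λ ϑ m2 (tc * k) m3))) ≤
      ENNReal.ofReal ((p.factorial : ℝ) * n.factorial * Real.exp (Ex X p n ε' D0 (Real.log (max Cf 1))
        (352 * κ) T c' R m2 Λ m3 ε)) := by
    refine ENNReal.ofReal_le_ofReal (mul_le_mul_of_nonneg_left (Real.exp_le_exp.2 ?_) (by positivity))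
    unfold Ex er
    rw [← hκ]
    have g1 : 92 * cV + 5 + 3 + (tc * k) ^ 2 + 2 * C + 1 / (64 * q1) + κ * (11 * NT X T) + 1 / (2 * η) * X.eR ≤
        D0 * (1 + NT X T + X.eR) := by
      have g2 : D0 = (2 * C + (92 * cV + 5 + 3 + (tc * k) ^ 2) + 1 / (64 * q1)) + (11 * κ + 1 / (2 * η) +
          32 * q1) := by rw [hD0]; ring
      have g3 : 0 ≤ 2 * C + (92 * cV + 5 + 3 + (tc * k) ^ 2) + 1 / (64 * q1) := by positivity
      have g4 : 11 * κ ≤ D0 := by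
        have : 0 ≤ 1 / (2 * η) + 32 * q1 := by positivity
        linarith
      have g5 : 1 / (2 * η) ≤ D0 := by
        have : 0 ≤ 11 * κ + 32 * q1 := by positivity
        linarith
      have g6 : 2 * C + (92 * cV + 5 + 3 + (tc * k) ^ 2) + 1 / (64 * q1) ≤ D0 := by
        have : 0 ≤ 11 * κ + 1 / (2 * η) + 32 * q1 := by positivity
        linarith
      have g7 := mul_le_mul_of_nonneg_right g4 hNT
      have g8 := mul_le_mul_of_nonneg_right g5 heR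
      have g10 : D0 * (1 + NT X T + X.eR) = D0 + D0 * NT X T + D0 * X.eR := by ring
      have g11 : κ * (11 * NT X T) = 11 * κ * NT X T := by ring
      linarith
    have g9 : 32 * q1 * Λ * m3 ^ 2 ≤ D0 * Λ * m3 ^ 2 := by
      have : 32 * q1 ≤ D0 := by
        rw [hD0]
        have : 0 ≤ 2 * C + (92 * cV + 5 + 3 + (tc * k) ^ 2) + 11 * κ + 1 / (2 * η) + 1 / (64 * q1) := by
          positivity
        linarith
      gcongr
    linarith
  have hA2 := hcl.trans hfin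
  exact sh_int hG hF hR hst hg La hb hd0 he1 hβ hP hT0 hT hη hfr hc hbf hbr hKC hc0 hc1 hq' hϑ hq2' hm2 hδ2 hm3
    (by rw [← hm1]) (by rw [← hm1']) haX haY hX hY hA2

end

end PLT.Gs
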