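import Pool.Agent.PLT.SharpIC
import Pool.Agent.PLX.PB.GasM

/-!
# The positive gas of a configuration with all its statistics, on a static curve

* `gasSI`: twin of `PBS.PLX.gasI`: the gas of an instance (same hypotheses as `sharpIC`) has `GasM` with the sharp
  mass, `R = 2 (log m)²`, `c = 1 / (C (log m)²)`, `Λ = C (log m)⁶`, `τ = (log m)² / 40`.
-/

set_option autoImplicit false
set_option linter.unusedSectionVars false

open MeasureTheory Set Filter Topology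
open scoped ENNReal

namespace PLT

open NUS4 (win_le_sq)
open Gs (Dat ShH0 StC Inst Shl W0 Ex1 Ex1_le M3 K3 K3_pos M3_sq NT)
open NUH0 (shF shF_nonneg T0i T0i_cost T0i_ge log_qc T0c qc)
open NUE NUOC NUKer NUR2 NUTr NUDi NUDispW NUEnW PBM.PLX

noncomputable section

/-- the exponent of the bound of `sharpIC` -/
def exIC (X : Dat) (p n : ℕ) {r : ℕ} (h : Fin r → ℝ) (ε' T' Y C N0 x : ℝ) (m : ℕ) : ℝ :=
  X.Mp p n + X.En + ((7 / 3 + 2 * ε') * T' + 12 / 5 * Y + 6 * r + C * (1 + N0) +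
        x * (win Finset.univ h + 1 + Real.log m) + 1)

/-- **the gas of an instance with all its statistics**, on a static curve -/
theorem gasSI {B : SeaCB} {lo hi : ℝ} (HS : SharpSt B lo hi) {ε θ c tc k ε' : ℝ}
    {K : Set (Bool → Bool → ℝ → ℝ → ℝ)} (hε : 0 < ε) (hε1 : ε ≤ 1) (hSh : ShH0 ε' θ c tc k)
    (hK : StC K θ c) (hc : 0 < c) (hk : 0 ≤ k) (hε' : 0 < ε') (hε'1 : ε' ≤ 1 / 200) :
    ∃ C : ℝ, 0 ≤ C ∧ ∀ {A κ : ℝ} (Kd Cf : ℝ) (J : ℕ), 1 ≤ A → 0 < κ → ∀ (kk : ℕ) {e x : ℝ}, 0 < e →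
    e ≤ 1 / 4 → 0 < x → ∃ (C' C₂ : ℝ) (m0 : ℕ), 1 ≤ C' ∧ 1 ≤ C₂ ∧ 3 ≤ m0 ∧ ∀ [SeaC] [SeaCU B], ∀ m ≥ m0,
    ∀ {X : Dat} {p n r : ℕ} {h : Fin r → ℝ} {T' b : ℝ} {η η1 : Bool → ℝ → ℝ},
    Inst X tc K p n k A κ Kd J m h T' b → CrvD X (η true) (η1 true) (η false) (η1 false) →
    0 ≤ b → b ≤ Real.log m →
    ∀ {aX aY cf Bf : ℝ → ℝ} {D q : ℝ}, Shl X aX aY cf Bf D q →
    (∀ t, cf t ≤ Cf * m * Real.exp (-(|t| / 2))) → 7 / 3 + 2 * ε' + 1 / 10 ≤ q →
    GDC lo hi m kk κ e X.s (2 * Real.log m ^ 2) b (η true) (η1 true) (η false) (η1 false)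
      (fun t => aX t * cf t) (fun t => aY t * cf t) →
    ∀ {Y : ℝ}, 3 / 8 * Real.log m ≤ T' → T' ≤ Real.log m → 0 ≤ Y → Y ≤ Real.log m ^ 2 →
    (∀ i, |h i| ≤ T' + Y) → (r : ℝ) ≤ Real.log m →
    ∀ {N0 e1 : ℝ}, 0 ≤ N0 → C * e1 ≤ ε' → (∀ T, T0i T' Y A r m ≤ T → NT X T + X.eR ≤ N0 + e1 * T) →
    GasM (fun y : Cfg p n => ENNReal.ofReal (W0 X p n aX aY cf y)) (2 * Real.log m ^ 2) X.ρ
      (ENNReal.ofReal (C' * ((p.factorial : ℝ) * n.factorial *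
        Real.exp (exIC X p n h ε' T' Y C N0 x m) *
        (1 + shF D q (7 / 3 + 2 * ε') (T0i T' Y A r m))) * (m : ℝ) ^ (-(1 / 2 : ℝ) + (ε + e))))
      (1 / (C₂ * Real.log m ^ 2)) (C₂ * Real.log m ^ 6) (Real.log m ^ 2 / 40) := by
  obtain ⟨Cs, hCs0, HS⟩ := sharpIC HS hε hε1 hSh hK hc hk hε' hε'1
  obtain ⟨Ch, Kq, Λ0, N, C₁, hCh0, hKq, hΛ0, hN, hC₁, HH0⟩ := Gs.H0fin hSh
  obtain ⟨C, hC⟩ : ∃ C : ℝ, C = max Cs Ch := ⟨_, rfl⟩
  have hCs : Cs ≤ C := by rw [hC]; exact le_max_left _ _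
  have hCh : Ch ≤ C := by rw [hC]; exact le_max_right _ _
  have hC0 : 0 ≤ C := hCs0.trans hCs
  refine ⟨C, hC0, ?_⟩
  intro A κ Kd Cf J hA hκ kk e x he he1 hx
  have hK3 := K3_pos hc
  obtain ⟨Λ, hΛ⟩ : ∃ Λ : ℝ, Λ = min Λ0 (x / (4 * ((Ch + 1) * (A ^ 2 * K3 c)))) := ⟨_, rfl⟩
  have hAK : 0 < A ^ 2 * K3 c := by positivity
  have hΛp : 0 < Λ := by
    rw [hΛ]
    exact lt_min hΛ0 (by positivity)
  have hΛ1 : Λ ≤ Λ0 := by
    rw [hΛ]
    exact min_le_left _ _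
  have hΛ2 : Ch * Λ * (A ^ 2 * K3 c) ≤ x / 4 := by
    have h1 : Λ ≤ x / (4 * ((Ch + 1) * (A ^ 2 * K3 c))) := by
      rw [hΛ]
      exact min_le_right _ _
    rw [le_div_iff₀ (by positivity)] at h1
    nlinarith [mul_pos hΛp hAK]
  obtain ⟨Nf, Mf, hSt⟩ := hK Λ hΛp
  obtain ⟨C1, T1, hC10, HH0⟩ := HH0 Nf Mf
  have hKc := (Kc_pos (by norm_num : (0 : ℝ) < 5 / 2)).le
  obtain ⟨C₂, hC₂⟩ : ∃ C₂ : ℝ, C₂ = 4 * (2 + N + N) * (A ^ 2 * Kc (5 / 2)) +
    8 * A ^ 2 * (2 + N + N) ^ 2 + (tc * k) ^ 2 := ⟨_, rfl⟩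
  have hC₂0 : 0 ≤ C₂ := by rw [hC₂]; positivity
  obtain ⟨C', m1, hC', hm1, HM⟩ := HS (A := A) (κ := κ) Kd Cf J hA hκ kk he he1 hx
  obtain ⟨m2, hm2, HH⟩ := Gs.hyp1 (θ := θ) (c := c) (tc := tc) (k := k) (A := A) (κ := κ) (Kd := Kd) hc hk hA hκ
    (x := x / 8) (Kq := Kq) (N := N) (cR := 2) (by positivity) (by linarith) hN J 2 Cf
  obtain ⟨m3, HT⟩ := T0i_cost (x := x / 4) (ε' := 2 * ε') (by positivity) A hA (by linarith)
  obtain ⟨m4, hm4⟩ := (Real.tendsto_log_atTop.comp tendsto_natCast_atTop_atTop).eventually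
    (eventually_ge_atTop (60 + |8 / 3 * T1| + 4 * C1 / x + 8 / x + x)) |>.exists_forall_of_atTop
  obtain ⟨m5, HQ⟩ := log_qc (x := 1) one_pos A hA
  refine ⟨C', C₂ + 24 * C₁ + 2, max (max m1 m2) (max (max m3 m4) m5), hC', by linarith,
    hm1.trans ((le_max_left _ _).trans (le_max_left _ _)), ?_⟩
  intro _ _ m hm X p n r h T' b η η1 hI hcrv hb0 hb aX aY cf Bf D q hS hcf hq hG Y hT1 hT2 hY hY2 hh hr N0 e1
    hN0 he1' hNT
  have hmm1 : m1 ≤ m := ((le_max_left _ _).trans (le_max_left _ _)).trans hm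
  have hmm2 : m2 ≤ m := ((le_max_right _ _).trans (le_max_left _ _)).trans hm
  have hmm34 : max m3 m4 ≤ m := ((le_max_left _ _).trans (le_max_right _ _)).trans hm
  have hmm3 : m3 ≤ m := (le_max_left _ _).trans hmm34
  have hmm4 : m4 ≤ m := (le_max_right _ _).trans hmm34
  have hmm5 : m5 ≤ m := ((le_max_right _ _).trans (le_max_right _ _)).trans hm
  have hm3' : 3 ≤ m := hm1.trans hmm1
  have hmr : (3 : ℝ) ≤ m := by exact_mod_cast hm3'
  have hmp : (0:ℝ) < m := by (clear * - hmr; linarith)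
  have he1s : Cs * e1 ≤ ε' := by
    rcases le_total 0 e1 with h0 | h0
    · exact (mul_le_mul_of_nonneg_right hCs h0).trans he1'
    · exact (mul_nonpos_of_nonneg_of_nonpos hCs0 h0).trans hε'.le
  have he1h : Ch * e1 ≤ ε' := by
    rcases le_total 0 e1 with h0 | h0
    · exact (mul_le_mul_of_nonneg_right hCh h0).trans he1'
    · exact (mul_nonpos_of_nonneg_of_nonpos hCh0 h0).trans hε'.le
  have key0 := HM m hmm1 hI hcrv hb0 hb hS hcf hq hG hT1 hT2 hY hY2 hh hr he1s hNT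
  have hL' := hm4 m hmm4
  simp only [Function.comp] at hL'
  have hC1x : 0 ≤ 4 * C1 / x := by positivity
  have h8x : 0 ≤ 8 / x := by positivity
  have hL : 60 ≤ Real.log m := by linarith [abs_nonneg (8 / 3 * T1)]
  have hLx : x ≤ Real.log m := by linarith [abs_nonneg (8 / 3 * T1)]
  have hLT : 8 / 3 * T1 ≤ Real.log m := by linarith [le_abs_self (8 / 3 * T1)]
  have hL8 : 1 ≤ x / 8 * Real.log m := by
    have h1 : 8 / x ≤ Real.log m := by linarith [abs_nonneg (8 / 3 * T1)]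
    rw [div_le_iff₀ hx] at h1
    linarith
  have hLC : C1 ≤ x / 4 * Real.log m := by
    have h1 : 4 * C1 / x ≤ Real.log m := by linarith [abs_nonneg (8 / 3 * T1)]
    rw [div_le_iff₀ hx] at h1
    linarith
  obtain ⟨L, hLd⟩ : ∃ L, L = Real.log m := ⟨_, rfl⟩
  have hq5 := HQ m hmm5 r
  rw [← hLd] at hL hb hT1 hT2 hY2 hr hq5 hLT hLC hL8 hLx
  have hr0 : (0:ℝ) ≤ r := Nat.cast_nonneg r
  have hLp : 0 ≤ Real.log m := by rw [← hLd]; (clear * - hL; linarith)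
  have hL2 : 60 * L ≤ L ^ 2 := by (clear * - hL; nlinarith)
  have hT0 : T0i T' Y A r m ≤ 3 / 2 * L ^ 2 := by
    unfold T0i T0c
    clear * - hr hY2 hT2 hL hq5 hL2
    nlinarith
  obtain ⟨Rb, ε1, c1, mm, mb, d0, β, eB, hRb, hn, hnb, hH, heB0, hβ, heB1, heB2, hcut⟩ := HH m hmm2 hI (hSt X.ks hI.st) hb0 (R1 := 2 * L ^ 2)
    (by rw [← hLd]; (clear * - hb hL hL2; nlinarith))
    (by rw [← hLd]) (Y := Y) (by rw [← hLd]; exact hT1) (by rw [← hLd]; exact hT2) hY hh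
    (by (clear * - hT0 hL2 hL; nlinarith))
  have hwin : win Finset.univ h ≤ L ^ 2 := by
    refine (win_le_sq h).trans ?_
    exact pow_le_pow_left₀ hr0 hr 2
  have hwin0 := win_nonneg (Finset.univ : Finset (Fin r)) h
  have hT0p := hH.T0p
  have hT0R := hH.T0R
  have hT0' : T' + Y ≤ T0i T' Y A r m := T0i_ge hA hLp hY
  have hL6 : 1 ≤ L ^ 6 := one_le_pow₀ (by (clear * - hL; linarith))
  have hm26 : mm ^ 2 + (tc * k) ^ 2 ≤ C₂ * L ^ 6 := by
    rw [hC₂]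
    have h46 : L ^ 4 ≤ L ^ 6 := pow_le_pow_right₀ (by (clear * - hL; linarith)) (by norm_num)
    have h1 : 2 * L ^ 2 + N ≤ (2 + N + N) * L ^ 2 := by (clear * - hL hL2 hN; nlinarith)
    have h0 : 0 ≤ A ^ 2 * Kc (5 / 2) := by positivity
    have h2 : A ^ 2 * Kc (5 / 2) * win Finset.univ h ≤ A ^ 2 * Kc (5 / 2) * L ^ 2 := by
      (clear * - hwin hA hKc; gcongr)
    have h3 : 0 ≤ A ^ 2 * Kc (5 / 2) * win Finset.univ h := by (clear * - hA hKc hwin0; positivity)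
    have h4 : 4 * (2 * L ^ 2 + N) * (A ^ 2 * Kc (5 / 2) * win Finset.univ h) ≤
        4 * ((2 + N + N) * L ^ 2) * (A ^ 2 * Kc (5 / 2) * L ^ 2) := by
      (clear * - hA hKc hwin0 h1 h2 hN hL; gcongr)
    have h5 : 8 * A ^ 2 * (2 * L ^ 2 + N) ^ 2 ≤ 8 * A ^ 2 * ((2 + N + N) * L ^ 2) ^ 2 := by
      (clear * - hL hN h1 hA; gcongr)
    calc mm ^ 2 + (tc * k) ^ 2 ≤ 4 * (2 * L ^ 2 + N) * (A ^ 2 * Kc (5 / 2) * win Finset.univ h) +
          8 * A ^ 2 * (2 * L ^ 2 + N) ^ 2 + (tc * k) ^ 2 := by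
          have := hn.mw
          clear * - this
          linarith
      _ ≤ 4 * ((2 + N + N) * L ^ 2) * (A ^ 2 * Kc (5 / 2) * L ^ 2) +
          8 * A ^ 2 * ((2 + N + N) * L ^ 2) ^ 2 + (tc * k) ^ 2 * 1 := by (clear * - h4 h5; linarith)
      _ = (4 * (2 + N + N) * (A ^ 2 * Kc (5 / 2)) + 8 * A ^ 2 * (2 + N + N) ^ 2) * L ^ 4 + (tc * k) ^ 2 * 1 := by
          ring
      _ ≤ (4 * (2 + N + N) * (A ^ 2 * Kc (5 / 2)) + 8 * A ^ 2 * (2 + N + N) ^ 2) * L ^ 6 + (tc * k) ^ 2 * L ^ 6 := by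
          clear * - hN hA hKc h46 hL6
          gcongr
      _ = _ := by ring
  have hm3s := M3_sq (A := A) hc h
  have h3Λ : Ch * Λ * M3 c A h ^ 2 ≤ x / 4 * win Finset.univ h := by
    calc Ch * Λ * M3 c A h ^ 2 ≤ Ch * Λ * (A ^ 2 * K3 c * win Finset.univ h) := by gcongr
      _ = Ch * Λ * (A ^ 2 * K3 c) * win Finset.univ h := by ring
      _ ≤ x / 4 * win Finset.univ h := by gcongr
  obtain ⟨g, hg⟩ : ∃ g, g = 7 / 3 + 2 * ε' := ⟨_, rfl⟩
  have hg0 : 0 ≤ g := by rw [hg]; (clear * - hε'; linarith)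
  have hgq : g < q := by rw [hg]; (clear * - hq; linarith)
  obtain ⟨E1, hE1⟩ : ∃ E1, E1 = X.Mp p n + X.En + (7 / 3 + 2 * ε') * T0i T' Y A r m + (Ch * (1 + N0) + C1 +
      x / 4 * win Finset.univ h + 1) := ⟨_, rfl⟩
  obtain ⟨-, h2, h3⟩ := HH0 (by (clear * - hLT hT1 hT0' hY; linarith)) hΛ1 hH hS (hcut cf hcf) hg0 hgq
    heB0 hβ (by rw [hg]; (clear * - hq heB1; linarith)) (E1 := E1)
    (fun T hT => by
      have h2 := hn.e1
      have h4 : Ch * (NT X T + X.eR) ≤ Ch * (N0 + e1 * T) := mul_le_mul_of_nonneg_left (hNT T hT) hCh0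
      have h5 : Ch * e1 * T ≤ ε' * T := mul_le_mul_of_nonneg_right he1h (hT0p.le.trans hT)
      rw [hg, hE1]
      unfold Ex1
      clear * - h2 h4 h5 h3Λ
      linarith)
  have h5 := HT m hmm3 r (T' := T') hY
  have hsh := shF_nonneg (T0 := T0i T' Y A r m) hS.D0 hgq
  have h3' := hnb.cm
  have h6' : eB * T0i T' Y A r m ≤ x / 8 := by
    refine le_trans ?_ heB2
    refine mul_le_mul_of_nonneg_left ?_ heB0
    clear * - hT0 hL2 hL
    nlinarith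
  have h7' : eB ≤ 1 / 100 := by
    have a1 : eB * (2 * L ^ 2) ≤ L / 8 := heB2.trans (by (clear * - hLx; linarith))
    have a2 : eB * L ≤ 1 / 16 := by
      by_contra hcon
      push Not at hcon
      clear * - a1 hcon hL
      nlinarith
    clear * - a2 hL heB0
    nlinarith
  have hCN : Ch * (1 + N0) ≤ C * (1 + N0) := by (clear * - hCh hN0; gcongr)
  have hCsN : Cs * (1 + N0) ≤ C * (1 + N0) := by (clear * - hCs hN0; gcongr)
  have hexp1 : Real.exp (E1 + Kq * c1 * (Rb + N) * mb ^ 2 + eB * T0i T' Y A r m + 1) ≤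
      Real.exp (exIC X p n h ε' T' Y C N0 x m) := by
    refine Real.exp_le_exp.2 ?_
    rw [hE1]
    unfold exIC
    rw [hLd] at hLC hL8
    have a1 := mul_nonneg hx.le hwin0
    have a2 := mul_nonneg hx.le hLp
    clear * - h5 h3' h6' hCN a1 a2 hLC hL8 hx
    linarith
  have hexp2 : Real.exp E1 ≤ Real.exp (exIC X p n h ε' T' Y C N0 x m) := by
    refine (Real.exp_le_exp.2 ?_).trans hexp1
    have h6 : 0 ≤ Kq * c1 * (Rb + N) * mb ^ 2 := by
      have := hn.c0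
      have hKq0 : 0 ≤ Kq := by (clear * - hKq; linarith)
      have hRb0 : 0 ≤ Rb := le_trans (by positivity) hRb
      positivity
    have h7 : 0 ≤ eB * T0i T' Y A r m := mul_nonneg heB0 hT0p.le
    clear * - h6 h7
    linarith
  obtain ⟨G, hGd⟩ : ∃ G : ℝ, G = (p.factorial : ℝ) * n.factorial *
      Real.exp (exIC X p n h ε' T' Y C N0 x m) * (1 + shF D q (7 / 3 + 2 * ε') (T0i T' Y A r m)) :=
    ⟨_, rfl⟩
  rw [← hg] at hGd
  have hG0 : 0 ≤ G := by rw [hGd]; positivity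
  have hmq : 0 ≤ (m : ℝ) ^ (-(1 / 2 : ℝ) + (ε + e)) := (Real.rpow_pos_of_pos hmp _).le
  have hml : Real.exp (-L) ≤ (m : ℝ) ^ (-(1 / 2 : ℝ) + (ε + e)) := by
    rw [Real.rpow_def_of_pos hmp, ← hLd]
    refine Real.exp_le_exp.2 ?_
    clear * - hε hL he
    nlinarith
  have hLpos : 0 < L := by (clear * - hL; linarith)
  have hL26 : L ^ 2 ≤ L ^ 6 := pow_le_pow_right₀ (by (clear * - hL; linarith)) (by norm_num)
  have hLL6 : L ≤ L ^ 6 := by (clear * - hL hL2 hL26; nlinarith)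
  obtain ⟨Cκ, hGeo⟩ := hI.geo
  have mD := fun a => (hGeo.Dc a).measurable
  have mD1 := fun a => (hGeo.D1c a).measurable
  have hρc : ∀ a, Continuous (X.ρ a) := fun a => by
    unfold Dat.ρ
    exact continuous_const.mul hGeo.Pc
  rw [← hLd, ← hg, ← hGd]
  clear HS HH0 HM HH HT HQ hm4 hNT hG hI hH hn hLp hSt hSh hK
  obtain ⟨V, hV⟩ : ∃ V : ℝ, V = C' * G * (m : ℝ) ^ (-(1 / 2 : ℝ) + (ε + e)) := ⟨_, rfl⟩
  have hVG : G * Real.exp (-L) ≤ V := by
    rw [hV]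
    have h1 : G ≤ C' * G := le_mul_of_one_le_left hG0 hC'
    clear * - h1 hml hC' hG0
    gcongr
  have hV0 : 0 ≤ V := le_trans (by positivity) hVG
  rw [← hV]
  refine
    { meas := (NU42.WO_meas (mD true) (mD1 true) (mD false) (mD1 false) (hS.mX.mul hS.mc)
        (hS.mY.mul hS.mc)).ennreal_ofReal
      R0 := by positivity
      ρc := hρc
      c0 := by positivity
      c2 := ?_
      Λ0 := by positivity
      Ut := ENNReal.ofReal_ne_top
      mass := ?_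
      tail := ?_
      sq := ?_ }
  · rw [div_le_iff₀ (by positivity)]
    clear * - hL hL2 hC₂0 hC₁
    nlinarith [mul_nonneg (by positivity : (0:ℝ) ≤ C₂ + 24 * C₁ + 1) (by positivity : (0:ℝ) ≤ L ^ 2)]
  · refine (setLIntegral_le_lintegral _ _).trans (key0.trans (ENNReal.ofReal_le_ofReal ?_))
    rw [hV, hGd, ← hg, ← hLd]
    unfold exIC
    rw [← hg, ← hLd]
    clear * - hCsN hsh hC' hm3' hmq
    gcongr
  · refine (h2 (2 * L ^ 2) hT0R).trans ?_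
    rw [← ENNReal.ofReal_mul hV0]
    refine ENNReal.ofReal_le_ofReal ?_
    have t1 : 9 / 100 ≤ q - g - eB := by rw [hg]; (clear * - hq h7'; linarith)
    have t2 : L ^ 2 / 2 ≤ 2 * L ^ 2 - T0i T' Y A r m := by (clear * - hT0; linarith)
    have t3 : 9 / 100 * (L ^ 2 / 2) ≤ (q - g - eB) * (2 * L ^ 2 - T0i T' Y A r m) :=
      mul_le_mul t1 t2 (by positivity) (by (clear * - t1; linarith))
    have t4 : Real.exp (-(q - g - eB) * (2 * L ^ 2 - T0i T' Y A r m)) ≤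
        Real.exp (-L) * Real.exp (-(L ^ 2 / 40)) := by
      rw [← Real.exp_add]
      refine Real.exp_le_exp.2 ?_
      clear * - hL2 t3
      nlinarith
    have t5 : (p.factorial : ℝ) * n.factorial * Real.exp (E1 + Kq * c1 * (Rb + N) * mb ^ 2 + eB * T0i T' Y A r m + 1) *
        shF D q g (T0i T' Y A r m) ≤ G := by
      rw [hGd]
      clear * - hexp1 hsh
      gcongr
      linarith
    calc (p.factorial : ℝ) * n.factorial * Real.exp (E1 + Kq * c1 * (Rb + N) * mb ^ 2 + eB * T0i T' Y A r m + 1) *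
        (Real.exp (-(q - g - eB) * (2 * L ^ 2 - T0i T' Y A r m)) * shF D q g (T0i T' Y A r m)) =
        ((p.factorial : ℝ) * n.factorial * Real.exp (E1 + Kq * c1 * (Rb + N) * mb ^ 2 + eB * T0i T' Y A r m + 1) *
        shF D q g (T0i T' Y A r m)) *
        Real.exp (-(q - g - eB) * (2 * L ^ 2 - T0i T' Y A r m)) := by ring
      _ ≤ G * (Real.exp (-L) * Real.exp (-(L ^ 2 / 40))) := by (clear * - t5 t4 hG0; gcongr)
      _ = (G * Real.exp (-L)) * Real.exp (-(L ^ 2 / 40)) := by ring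
      _ ≤ V * Real.exp (-(L ^ 2 / 40)) := by (clear * - hVG; gcongr)
  · refine ⟨_, _, h3.monoC ?_ hm26, ?_⟩
    · refine one_div_le_one_div_of_le (by positivity) ?_
      have hL1 : 1 ≤ L ^ 2 := one_le_pow₀ (by (clear * - hL; linarith))
      have c0 : C₁ ≤ C₁ * L ^ 2 := le_mul_of_one_le_right hC₁.le hL1
      have c1 : 0 ≤ (C₂ + 2) * L ^ 2 := by positivity
      clear * - c0 c1
      nlinarith
    · rw [← ENNReal.ofReal_mul (by positivity), ← ENNReal.ofReal_mul hV0]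
      refine ENNReal.ofReal_le_ofReal ?_
      have t5 : (p.factorial : ℝ) * n.factorial * Real.exp E1 *
          (1 + shF D q g (T0i T' Y A r m)) ≤ G := by
        rw [hGd]
        clear * - hexp2 hsh
        gcongr
      have t6 : Real.exp (C₂ * L ^ 6) ≤ Real.exp (-L) * Real.exp ((C₂ + 24 * C₁ + 2) * L ^ 6) := by
        rw [← Real.exp_add]
        refine Real.exp_le_exp.2 ?_
        have : 0 ≤ (24 * C₁ + 1) * L ^ 6 := by positivity
        clear * - hL hL2 hL26 this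
        nlinarith
      calc _ ≤ G * (Real.exp (-L) * Real.exp ((C₂ + 24 * C₁ + 2) * L ^ 6)) := by (clear * - t5 t6 hG0; gcongr)
        _ = (G * Real.exp (-L)) * Real.exp ((C₂ + 24 * C₁ + 2) * L ^ 6) := by ring
        _ ≤ _ := by (clear * - hVG; gcongr)

end

end PLT
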