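import Pool.Agent.PLT.InstC
import Pool.Agent.PLT.SqIC

/-!
# The gas of a configuration on a static curve with all its statistics

**`gasSharpCC`**: `GasSharpCC B Q lg hg` from the instance `InstCC B Q`, the sharp bound `SharpSt B lg hg`, the window
bound `ShH0` and `StC (KC0 B)` (twin of `PBS.PLX.gasSharpC_of6`).
-/

set_option autoImplicit false
set_option linter.unusedSectionVars false
set_option linter.unusedVariables false

noncomputable section

open MeasureTheory Finset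
open scoped ENNReal

namespace PLT.Cv

open NUDispW (win win_nonneg)
open NUO (TW Tb)
open NUSea.PLX.H0 (Inp)
open NUH0 (T0i T0i_ge shF shF_nonneg)

/-- **the gas of a configuration with all its statistics** -/
theorem gasSharpCC (B : SeaCB) {Q : Par7} {lg hg : ℝ} (hI : InstCC B Q) (HS : SharpSt B lg hg) {θ c : ℝ}
    (hc : 0 < c) (hSh : ∀ ε' tc k : ℝ, 0 < ε' → Gs.ShH0 ε' θ c tc k) (hK : Gs.StC (KC0 B) θ c) :
    GasSharpCC B Q lg hg := by
  obtain ⟨tc, Kd, KN, htc, hKd, hKN, hInst⟩ := hI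
  refine ⟨6, 3, by norm_num, by norm_num, ?_⟩
  intro kb hkb G kap hkap ep hep hep1 e1 he he1 δ hδ
  obtain ⟨ε', hε'⟩ : ∃ ε' : ℝ, ε' = min (1 / 200) (δ / 4) := ⟨_, rfl⟩
  have hε'0 : 0 < ε' := by rw [hε']; exact lt_min (by norm_num) (by positivity)
  have hε'1 : ε' ≤ 1 / 200 := by rw [hε']; exact min_le_left _ _
  have hε'2 : ε' ≤ δ / 4 := by rw [hε']; exact min_le_right _ _
  obtain ⟨C, hC, HC⟩ := gasSI HS hε'0 (by linarith) (hSh ε' tc kb hε'0) hK hc (by linarith : 0 ≤ kb) hε'0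
    hε'1
  obtain ⟨x, hx⟩ : ∃ x : ℝ, x = min (kap / 8) (δ / 4) := ⟨_, rfl⟩
  have hx0 : 0 < x := by rw [hx]; exact lt_min (by positivity) (by positivity)
  have hx1 : x ≤ kap / 8 := by rw [hx]; exact min_le_left _ _
  have hx2 : x ≤ δ / 4 := by rw [hx]; exact min_le_right _ _
  obtain ⟨x2, hx2d⟩ : ∃ x2 : ℝ, x2 = min (ε' / (C + 1)) (kap / 8 / (C + 1)) := ⟨_, rfl⟩
  have hC1 : 0 < C + 1 := by linarith
  have hx20 : 0 < x2 := by rw [hx2d]; exact lt_min (by positivity) (by positivity)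
  have hx2a : C * x2 ≤ ε' := by
    have h1 : x2 ≤ ε' / (C + 1) := by rw [hx2d]; exact min_le_left _ _
    rw [le_div_iff₀ hC1] at h1
    clear * - hx20 h1
    nlinarith
  have hx2b : C * x2 ≤ kap / 8 := by
    have h1 : x2 ≤ kap / 8 / (C + 1) := by rw [hx2d]; exact min_le_right _ _
    rw [le_div_iff₀ hC1] at h1
    clear * - hx20 h1
    nlinarith
  have hKNp : 0 < KN := by linarith
  obtain ⟨εo, hεd⟩ : ∃ εo : ℝ, εo = min 1 (kap / (16 * ((C + 1) * KN))) := ⟨_, rfl⟩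
  have hεo : 0 < εo := by rw [hεd]; exact lt_min one_pos (by positivity)
  have hεo1 : εo ≤ 1 := by rw [hεd]; exact min_le_left _ _
  have hεo2 : C * (KN * (εo + εo ^ 2)) ≤ kap / 8 := by
    have h1 : εo ≤ kap / (16 * ((C + 1) * KN)) := by rw [hεd]; exact min_le_right _ _
    rw [le_div_iff₀ (by positivity)] at h1
    have h2 : εo ^ 2 ≤ εo := by
      clear * - hεo hεo1
      nlinarith
    have h3 : C * (KN * (εo + εo ^ 2)) ≤ (C + 1) * (KN * (εo + εo)) := by
      have : 0 ≤ KN * (εo + εo ^ 2) := by positivity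
      have h4 : KN * (εo + εo ^ 2) ≤ KN * (εo + εo) := by gcongr
      calc C * (KN * (εo + εo ^ 2)) ≤ (C + 1) * (KN * (εo + εo ^ 2)) := by
            gcongr
            linarith
        _ ≤ _ := by gcongr
    linarith
  refine ⟨εo, hεo, ?_⟩
  intro k κ CB hκ hCB A hA
  obtain ⟨A', J, hA', hInst⟩ := hInst kb hkb G ep hep hep1 e1 he he1 εo hεo.le k κ CB A hκ hCB hA
  obtain ⟨C', C₂, m1, hC', hC₂, -, HM⟩ := HC Kd CB J hA' hκ k he (by linarith) hx0
  obtain ⟨ϑ, N1, hϑ, hN1, m2, hI2⟩ := hInst x2 hx20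
  refine ⟨ϑ, C' * Real.exp (C * (1 + N1) + x * (1 + 2 * (G : ℝ) ^ 2) + 6 * G + 1) * (1 + shK), C₂, hϑ, by
    have := shK_nonneg
    positivity, hC₂, max (max m1 m2) 3, ?_⟩
  intro _ _ m hm I r O g p n aX aY cf B1 T1 D q S hD hG hr hht hgt hDS
  obtain ⟨i1, i2⟩ := hI2 m ((le_max_right _ _).trans ((le_max_left _ _).trans hm)) I r O g p n aX aY
    cf B1 T1 D q S hD
  have hm3 : 3 ≤ m := (le_max_right _ _).trans hm
  have hmr : (3:ℝ) ≤ m := by exact_mod_cast hm3
  have hmp : (0:ℝ) < m := by (clear * - hmr; linarith)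
  obtain ⟨L, hL⟩ : ∃ L, L = Real.log m := ⟨_, rfl⟩
  have hL0 : 0 ≤ L := by rw [hL]; exact Real.log_nonneg (by (clear * - hmr; linarith))
  obtain ⟨T', hT'⟩ : ∃ T', T' = TW ep e1 m := ⟨_, rfl⟩
  have hTW : T' = (1 + 2 * e1 + 2 * ep) * Tb L := by rw [hT', hL]; rfl
  have hT1 : 3 / 8 * L ≤ T' := by
    rw [hTW]
    unfold Tb
    clear * - hep hL0 hep1 he
    nlinarith
  have hT2 : T' ≤ L := by
    rw [hTW]
    unfold Tb
    clear * - hL0 hep hep1 he1
    nlinarith
  have hb0 : 0 ≤ (1 - e1) * Tb (Real.log m) := by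
    rw [← hL]
    unfold Tb
    have : 0 ≤ 1 - e1 := by (clear * - he1; linarith)
    clear * - this hL0
    positivity
  have hb1 : (1 - e1) * Tb (Real.log m) ≤ Real.log m := by
    rw [← hL]
    unfold Tb
    clear * - hL0 hep hep1 he
    nlinarith
  have hT1' : T' + excC T' O ≤ T1 := by
    have := hD.tw
    rwa [← hT'] at this
  have hT10 : 0 ≤ T1 - T' := by
    have := excC_nonneg T' O
    clear * - hT1' this
    linarith
  obtain ⟨Y, hY⟩ : ∃ Y, Y = min (T1 - T') (L ^ 2) := ⟨_, rfl⟩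
  have hY0 : 0 ≤ Y := by rw [hY]; exact le_min hT10 (by positivity)
  have hYS : Y ≤ T1 - T' := by rw [hY]; exact min_le_left _ _
  have hYL : Y ≤ L ^ 2 := by rw [hY]; exact min_le_right _ _
  obtain ⟨W, hWd⟩ : ∃ W, W = win univ (fun i => (O i).h) := ⟨_, rfl⟩
  have hw0 := win_nonneg (Finset.univ : Finset (Fin r)) (fun i => (O i).h)
  have hw1 := win_htC O g
  rw [← hWd] at i2 hw0 hw1
  have hq1 := hD.q1
  have hT0 : TW ep e1 m ≤ T0i (TW ep e1 m) Y A' (r + G) m := by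
    have h1 := T0i_ge (T' := TW ep e1 m) (Y := Y) (r := r + G) (m := m) hA'
      (by rw [← hL]; exact hL0) hY0
    clear * - hY0 h1
    linarith
  have hxW : 0 ≤ x2 + KN * (εo + εo ^ 2) := by positivity
  have key := HM m ((le_max_left _ _).trans ((le_max_left _ _).trans hm)) i1 ⟨rfl, rfl, rfl, rfl, rfl⟩ hb0
    hb1 hD.shl hD.c2 (by (clear * - hε'1 hq1; linarith)) hG (Y := Y) (by rw [← hT', ← hL]; exact hT1)
    (by rw [← hT', ← hL]; exact hT2) hY0 (by rw [← hL]; exact hYL) (fun i => by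
      rw [← hT', hY]
      refine Fin.addCases (fun i => ?_) (fun j => ?_) i
      · unfold htC
        rw [Fin.append_left]
        have h1 := excC_ge T' O i
        have h2 := hht i
        rw [← hL] at h2
        rcases min_choice (T1 - T') (L ^ 2) with h | h
        · rw [h]
          clear * - hT1' h1
          linarith
        · rw [h]
          clear * - hL0 hT1 h2
          linarith
      · unfold htC
        rw [Fin.append_right]
        have h1 := hD.gs j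
        have h2 := hgt j
        rw [← hL] at h2
        rcases min_choice (T1 - T') (L ^ 2) with h | h
        · rw [h]
          clear * - h1
          linarith
        · rw [h]
          clear * - hL0 hT1 h2
          linarith) (by push_cast; exact hr)
    (N0 := N1 + (x2 + KN * (εo + εo ^ 2)) * W) (e1 := x2) (add_nonneg hN1 (mul_nonneg hxW hw0)) hx2a
    (fun T hT => i2 T (by
      rw [← hT'] at hT0 hT
      clear * - hL0 hT1 hT0 hT
      linarith))
  refine key.mono key.meas (fun _ => le_rfl) (ENNReal.ofReal_le_ofReal ?_) ENNReal.ofReal_ne_top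
  have hS0 : 0 ≤ S := le_trans (mul_nonneg hD.shl.D0 (Real.exp_pos _).le) hDS
  have hsh := shF_leK (ε' := ε') hε'1 hD.shl.D0 hq1 hDS hT0
  have hsh0 := shF_nonneg (T0 := T0i (TW ep e1 m) Y A' (r + G) m) hD.shl.D0
    (show 7 / 3 + 2 * ε' < q by (clear * - hε'1 hq1; linarith))
  have hshC := shK_nonneg
  have hshf : 1 + shF D q (7 / 3 + 2 * ε') (T0i (TW ep e1 m) Y A' (r + G) m) ≤
      (1 + S) * (1 + shK) := by (clear * - hS0 hsh hshC; linarith)
  have hx2c : C * (x2 + KN * (εo + εo ^ 2)) ≤ kap / 4 := by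
    rw [mul_add]
    clear * - hx2b hεo2
    linarith
  have har := arithK (M0 := (datC I O).Mp p n + (datC I O).En) (N1 := N1) (R := r) (G := G)
    (x2 := x2 + KN * (εo + εo ^ 2)) (Y := Y) (S := T1 - T') (W := W) (W' := win univ (htC O g))
    hL0 hTW hep hep1 he he1 hε'0.le hε'2 hx0.le hx2 hx1 hx2c hw0 hYS hw1
  have hexp : Real.exp (exIC (datC I O) p n (htC O g) ε' (TW ep e1 m) Y C
      (N1 + (x2 + KN * (εo + εo ^ 2)) * W) x m) ≤
      Real.exp (C * (1 + N1) + x * (1 + 2 * (G : ℝ) ^ 2) + 6 * G + 1) *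
        ((m : ℝ) ^ (7 / 8 + 2 * (ep + e1) + δ / 2) * Real.exp (confCC ep e1 m I p n 6 kap O T1)) := by
    rw [Real.rpow_def_of_pos hmp, ← Real.exp_add, ← Real.exp_add]
    refine Real.exp_le_exp.2 ?_
    unfold confCC exIC
    rw [← hT', ← hL, ← hWd]
    push_cast
    clear * - har
    linarith
  have hpow : (m : ℝ) ^ (7 / 8 + 2 * (ep + e1) + δ / 2) * (m : ℝ) ^ (-(1 / 2 : ℝ) + (ε' + e1)) ≤
      (m : ℝ) ^ (3 / 8 + 3 * (ep + e1) + δ) := by
    rw [← Real.rpow_add hmp]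
    refine Real.rpow_le_rpow_of_exponent_le (by (clear * - hmr; linarith)) ?_
    clear * - hep hε'0 hε'2
    linarith
  have hp1 : 0 ≤ (m : ℝ) ^ (-(1 / 2 : ℝ) + (ε' + e1)) := (Real.rpow_pos_of_pos hmp _).le
  have hp2 : 0 ≤ (m : ℝ) ^ (7 / 8 + 2 * (ep + e1) + δ / 2) := (Real.rpow_pos_of_pos hmp _).le
  calc C' * ((p.factorial : ℝ) * n.factorial * Real.exp (exIC (datC I O) p n (htC O g) ε' (TW ep e1 m) Y C
      (N1 + (x2 + KN * (εo + εo ^ 2)) * W) x m) *
      (1 + shF D q (7 / 3 + 2 * ε') (T0i (TW ep e1 m) Y A' (r + G) m))) *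
        (m : ℝ) ^ (-(1 / 2 : ℝ) + (ε' + e1))
      ≤ C' * ((p.factorial : ℝ) * n.factorial * (Real.exp (C * (1 + N1) +
        x * (1 + 2 * (G : ℝ) ^ 2) + 6 * G + 1) *
        ((m : ℝ) ^ (7 / 8 + 2 * (ep + e1) + δ / 2) *
        Real.exp (confCC ep e1 m I p n 6 kap O T1))) * ((1 + S) * (1 + shK))) *
        (m : ℝ) ^ (-(1 / 2 : ℝ) + (ε' + e1)) := by (clear * - hexp hshf hsh0 hC' hp1; gcongr)
    _ = (p.factorial : ℝ) * n.factorial * (C' * Real.exp (C * (1 + N1) +
        x * (1 + 2 * (G : ℝ) ^ 2) + 6 * G + 1) * (1 + shK) *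
        ((m : ℝ) ^ (7 / 8 + 2 * (ep + e1) + δ / 2) * (m : ℝ) ^ (-(1 / 2 : ℝ) + (ε' + e1))) * (1 + S) *
        Real.exp (confCC ep e1 m I p n 6 kap O T1)) := by ring
    _ ≤ (p.factorial : ℝ) * n.factorial * (C' * Real.exp (C * (1 + N1) +
        x * (1 + 2 * (G : ℝ) ^ 2) + 6 * G + 1) * (1 + shK) *
        (m : ℝ) ^ (3 / 8 + 3 * (ep + e1) + δ) * (1 + S) *
        Real.exp (confCC ep e1 m I p n 6 kap O T1)) := by (clear * - hpow hC' hshC hS0; gcongr)
    _ = _ := by ring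

end PLT.Cv

end
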