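import Pool.Agent.PLT.GDat
import Pool.Agent.NUH0.H0fin
import Pool.Agent.PLX.R2.SqS

/-!
# THETA B1a: the statement of the window bound on a static curve

`ShH0 ε' θ c tc k`: for every window `[-T, T]`, `T ≥ T0 ≥ (3/8) log m`,
`∫ WO exp (1/2 ∑ F_l²) ≤ p! n! exp (Mp + En + (7/3 + ε') T + C (1 + NT + eR) + C1 + small)`, and the same with one
more square (`SqC2`); the static kernels of the class `StK` (finite rank with form `≤ θ`, small rest).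
The moving kernels do not decay on a bent curve: they are `≤ d0` outside the window of the cut `bb`, and the one body
factors pay `β (1 - bb t)`, `β ≥ d0 (p + n + ss)`.
-/

set_option autoImplicit false

open MeasureTheory Set Filter Topology
open scoped Real ENNReal

namespace PLT.Gs

open NUH0
open NUMF NUWC NUC37 NUKer NUDi NUMFC NUR2

noncomputable section

/-- sea plus objects, for `V` -/
def rm (X : Dat) (a : Bool) (u : ℝ) : ℝ := X.ρ a u + X.μ a u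

/-- sea plus objects, for the static kernels -/
def rr (X : Dat) (a : Bool) (u : ℝ) : ℝ := X.ρ a u + X.r a u

/-- the density of the splitting: excess plus the charge of the seas -/
def tf (X : Dat) (x : ℝ) : ℝ := X.τ x + (X.s true - X.s false) * X.P x

/-- regularity with tails and a `C¹` remainder -/
structure RegT (X : Dat) (T0 δ : ℝ) : Prop extends Reg X where
  tail : ∀ a t, T0 ≤ |t| → |rm X a t| ≤ δ * Real.exp (-(|t| - T0))
  tailr : ∀ a t, T0 ≤ |t| → |rr X a t| ≤ δ * Real.exp (-(|t| - T0))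
  φd : ∀ a t, HasDerivAt (X.φ a) (X.φ' a t) t
  φc' : ∀ a, Continuous (X.φ' a)
  δφ : ∀ a t, δ * |X.φ a t| ≤ 1
  δ0 : 0 ≤ δ
  δ1 : δ ^ 2 * (1 + Real.log (1 + T0)) ≤ 1
  T0 : 0 ≤ T0

/-- energy of the remainder of one species on the window -/
def Nl (X : Dat) (T : ℝ) (a : Bool) : ℝ := ∫ t in (-(T + 1))..(T + 1), (X.φ a t ^ 2 + X.φ' a t ^ 2)

/-- energy of the remainder on the window -/
def NT (X : Dat) (T : ℝ) : ℝ := Nl X T true + Nl X T false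

/-- the sum of the row numbers -/
def ss (X : Dat) : ℝ := X.s true + X.s false

/-- the real weight -/
def Wt0 (X : Dat) (p n : ℕ) (ch : ℝ → ℝ) (h : ℝ) (La : Finset ℤ) (a0 : ℝ) (aX aY : ℝ → ℝ)
    (ω : (Fin p → ℝ) × (Fin n → ℝ)) : ℝ :=
  NU42.WO (X.D true) (X.D1 true) (X.D false) (X.D1 false) aX aY ω.1 ω.2 *
    Real.exp (1 / 2 * ∑ l ∈ La, NU42.Fst ch h a0 (tf X) l ω.1 ω.2 ^ 2)

/-- the weight -/
def W0 (X : Dat) (p n : ℕ) (aX aY cf : ℝ → ℝ) (x : Cfg p n) : ℝ :=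
  NU42.WO (X.D true) (X.D1 true) (X.D false) (X.D1 false) (fun t => aX t * cf t)
    (fun t => aY t * cf t) x.1 x.2

/-- the final exponent of the window `[-T, T]`: `C` the constant of the class, `C1` the constant of the finite
rank, `Λ` size of the rest, `m2` masses of the objects against the moving kernels, `m3` masses of `μ - r` -/
def Ex (X : Dat) (p n : ℕ) (ε' C C1 Kq T c' R m2 Λ m3 ε : ℝ) : ℝ :=
  X.Mp p n + X.En + (7 / 3 + ε') * T + (C * (1 + NT X T + X.eR) + C1 + C * Λ * m3 ^ 2 +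
    Kq * c' * R * m2 ^ 2 + ε / 2 * ((p : ℝ) + n + ss X) ^ 2)

/-- **the window bound** (statement) -/
def ShH0 (ε' θ c tc k : ℝ) : Prop :=
  ∃ C Kq Λ0 : ℝ, 0 ≤ C ∧ 1 ≤ Kq ∧ 0 < Λ0 ∧ ∀ (N : ℕ) (M : ℝ), ∃ C1 T1 : ℝ, 0 ≤ C1 ∧
    ∀ {X : Dat} {Cκ : ℝ} {p n : ℕ} {R T T0 δ Λ1 Λ c' ε d0 β m2 m3 a0 K h m : ℝ} {bb bb' ch : ℝ → ℝ}
    {hh : Fin N → Bool → ℝ → ℝ} {Sm : Fin N → Fin N → ℝ} {kt : Bool → Bool → ℝ → ℝ → ℝ},
    1 ≤ m → (p : ℝ) ≤ k * m → (n : ℝ) ≤ k * m → (∀ a, X.s a ≤ k * m) →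
    3 / 8 * Real.log m ≤ T0 → T1 ≤ T0 → T0 ≤ T → 0 < T → Geo X tc Cκ → Fld X p n → RegT X T0 δ →
    StK X.ks N hh Sm θ M Λ c kt → Λ ≤ Λ0 → Grid ch K h → ∀ (La : Finset ℤ), Cut1 R bb bb' →
    0 ≤ d0 →
    (∀ a d t t', |X.kd a d t t' - bb t * bb t' * X.kd a d t t'| ≤ ε / 3 + d0 * ((1 - bb t) + (1 - bb t'))) →
    d0 * ((p : ℝ) + n + ss X) ≤ β → d0 * ∫ t, (1 - bb t) * X.P t ≤ ε / 3 →
    (∀ a d, KC R Λ1 (fun t t' => ((X.kd a d t t' : ℝ) : ℂ))) → 0 < c' → 4 * Λ1 ≤ c' → 0 ≤ Λ1 →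
    8 * c' * (Kq * R) ≤ 1 → (∀ a, ∫ t in {t | |t| ≤ R}, |X.μ a t| ≤ m2) →
    (∀ a, ∫ t, wc c t * |X.μ a t - X.r a t| ≤ m3) →
    ∀ {aX aY : ℝ → ℝ}, (∀ t, 0 ≤ aX t) → (∀ t, 0 ≤ aY t) →
    (∀ t, |t| ≤ T → aX t ≤ Real.exp (X.pot true t - β * (1 - bb t))) →
    (∀ t, |t| ≤ T → aY t ≤ Real.exp (X.pot false t - β * (1 - bb t))) →
    (∫⁻ ω in NU42.Bw p n T, ENNReal.ofReal (Wt0 X p n ch h La a0 aX aY ω) ≤
      ENNReal.ofReal ((p.factorial : ℝ) * n.factorial *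
        Real.exp (Ex X p n ε' C C1 Kq T c' R m2 Λ m3 ε))) ∧
    SqC2 (Wt0 X p n ch h La a0 aX aY) T bb (X.ρ true) (X.ρ false)
      ((p.factorial : ℝ) * n.factorial * Real.exp (Ex X p n ε' C C1 Kq T c' R m2 Λ m3 ε)) c'

/-- the one body factors `aX * cf`, `aY * cf`: the cutoff `cf` has the regular majorant `e^B` -/
structure Shl (X : Dat) (aX aY cf B : ℝ → ℝ) (D q : ℝ) : Prop where
  mX : Measurable aX
  mY : Measurable aY
  mc : Measurable cf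
  mB : Measurable B
  X0 : ∀ t, 0 ≤ aX t
  Y0 : ∀ t, 0 ≤ aY t
  c0 : ∀ t, 0 ≤ cf t
  B0 : ∀ t, 0 ≤ B t
  D0 : 0 ≤ D
  q0 : 0 < q
  cB : ∀ t, cf t ≤ Real.exp (B t)
  cD : ∀ t, cf t ≤ D * Real.exp (-q * |t|)
  leX : ∀ t, aX t * Real.exp (B t) ≤ Real.exp (X.pot true t)
  leY : ∀ t, aY t * Real.exp (B t) ≤ Real.exp (X.pot false t)

end

end PLT.Gs
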