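import Pool.Agent.PLT.InHC
import Pool.Agent.PLT.GStat
import Pool.Agent.PHK.PotH.ShlH
import Pool.Agent.NUSea.Inst

/-!
# The majorant of the cutoff, sea on a static curve (twin of `PHK/PotH/ShlH`)

* `exists_cfC`: the majorant of the cutoff of the rows with the far factor;
* **`exists_shlC`**: the majorant `B` of the cutoff, its sizes, and the field `shl` (`Gs.Shl`) for any data whose
  exponent is `log aCC + B`.
-/

set_option autoImplicit false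
set_option linter.unusedSectionVars false
set_option linter.unusedVariables false

open MeasureTheory Set Filter Topology
open PLX (Fil Ends)

namespace PLT

open NUO (Xo ht Tb TW excS)
open NUSea.PLX.H0 (Inp Gd hfar)
open NUGC.PLX (pE qE CcF CcF_one SC gP)
open PotH.PLX (DH cfH hfar_anti')

noncomputable section

theorem DHC_nonneg (ep e1 : ℝ) (m G : ℕ) (x : ℝ) : 0 ≤ DH ep e1 m G x :=
  @PotH.PLX.DH_nonneg NUSea.seaP ep e1 m G x

theorem DHC_eq (ep e1 : ℝ) (m G : ℕ) (x : ℝ) :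
    DH ep e1 m G x * Real.exp (-(49 / 20 * TW ep e1 m)) = SC G x :=
  @PotH.PLX.DH_eq NUSea.seaP ep e1 m G x

theorem DHC_le (ep e1 : ℝ) (m G : ℕ) {T1 : ℝ} (x : ℝ) (h : TW ep e1 m ≤ T1) :
    DH ep e1 m G x * Real.exp (-(49 / 20 * T1)) ≤ SC G x :=
  @PotH.PLX.DH_le NUSea.seaP ep e1 m G T1 x h

/-- **the cutoff of the rows with the far factor** -/
theorem exists_cfC (Bs : SeaCB) {Cc : ℝ} (hCc : 1 ≤ Cc) : ∃ W : ℝ, 1 ≤ W ∧ ∀ ep : ℝ, 0 < ep → ep ≤ 1 / 100 →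
    ∀ C0 : ℝ, 1 ≤ C0 → ∃ C : ℝ, 1 ≤ C ∧ ∃ m0 : ℕ, 1 ≤ m0 ∧ ∀ [SeaC] [SeaCU Bs], ∀ (m : ℕ) (T1 : ℝ), m0 ≤ m →
    (1 + 2 * ep) * (3 / 8 * Real.log m) ≤ T1 → ∀ (b : ℝ) (cr Bc Bc' : ℝ → ℝ),
    CutC ep C0 b m cr Bc Bc' →
    ∃ B B' : ℝ → ℝ, ContDiff ℝ 1 B ∧ (∀ t, HasDerivAt B (B' t) t) ∧ Continuous B' ∧ (∀ t, 0 ≤ B t) ∧
      (∀ t, B t ≤ W) ∧
      Integrable (fun t => (m : ℝ) * Cv.P t * B t) ∧ (∫ t, (m : ℝ) * Cv.P t * B t) ≤ C ∧
      Integrable (fun t => B t ^ 2 + B' t ^ 2) ∧ (∫ t, B t ^ 2 + B' t ^ 2) ≤ C ∧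
      ∀ x : ℝ, 0 ≤ x → ∀ t,
        0 ≤ cr t * hfar Cc T1 x t ∧
        cr t * hfar Cc T1 x t ≤ Real.exp (B t) ∧
        cr t * hfar Cc T1 x t ≤
          (2 + Cc) * Real.exp (37 / 20 * x) * Real.exp (49 / 20 * T1) *
            Real.exp (-(49 / 20) * |t|) := by
  obtain ⟨C2, hC2, hF⟩ := @NUSea.PLX.H0.exists_far NUSea.seaP Cc hCc
  obtain ⟨Cp, hCp, hPP⟩ := Cv.P_le_NUMF Bs
  refine ⟨1 + C2, by linarith, fun ep h0 h1 C0 hC0 => ?_⟩
  obtain ⟨m0, hm0, hnum⟩ := @NUSea.PLX.H0.far_num NUSea.seaP ep C0 h0 h1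
  refine ⟨2 * C0 + 2 * C2 + 1 + Cp * C2, by nlinarith, max ⌈max m0 (Real.exp 3)⌉₊ 1, le_max_right _ _, ?_⟩
  intro _ hS m T1 hm hT1 bw cr B B' hcut
  have hmr : max m0 (Real.exp 3) ≤ m :=
    (Nat.le_ceil _).trans (by exact_mod_cast (le_max_left _ _).trans hm)
  have hmm : m0 ≤ (m : ℝ) := (le_max_left _ _).trans hmr
  have hL : 3 ≤ Real.log m := by
    have h2 := (le_max_right m0 (Real.exp 3)).trans hmr
    rw [Real.le_log_iff_exp_le (by linarith [Real.exp_pos 3])]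
    exact h2
  have hT : 1 ≤ T1 := by nlinarith
  obtain ⟨n1, n2⟩ := hnum m m T1 hmm (Nat.cast_nonneg _) le_rfl hT1 (by linarith)
  obtain ⟨b, b', k1, k2, k3, k4, k5, k6, k7, k8, k9, k10⟩ := hF T1 hT
  obtain ⟨k91', k92'⟩ := k9 m (Nat.cast_nonneg _) n2
  have k91 : Integrable fun t => (m : ℝ) * NUMF.P t * b t := k91'
  have k92 : (∫ t, (m : ℝ) * NUMF.P t * b t) ≤ C2 := k92'
  have hbc : Continuous b := k1.continuous
  -- the sea
  have hle : ∀ t, (m : ℝ) * Cv.P t * b t ≤ Cp * ((m : ℝ) * NUMF.P t * b t) := fun t => by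
    have h2 := @hPP _ hS t
    have h3 : 0 ≤ (m : ℝ) * b t := mul_nonneg (Nat.cast_nonneg _) (k3 t)
    calc (m : ℝ) * Cv.P t * b t = Cv.P t * (m * b t) := by ring
      _ ≤ (Cp * NUMF.P t) * (m * b t) := mul_le_mul_of_nonneg_right h2 h3
      _ = _ := by ring
  have hMint : Integrable fun t => (m : ℝ) * Cv.P t * b t := by
    refine Integrable.mono' (k91.const_mul Cp)
      (((continuous_const.mul (Cv.P_cont Bs)).mul hbc).aestronglyMeasurable) (ae_of_all _ fun t => ?_)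
    rw [Real.norm_eq_abs, abs_of_nonneg (mul_nonneg (mul_nonneg (Nat.cast_nonneg _) (Cv.P_pos Bs t).le) (k3 t))]
    exact hle t
  have hMle : (∫ t, (m : ℝ) * Cv.P t * b t) ≤ Cp * C2 := by
    refine (integral_mono hMint (k91.const_mul Cp) hle).trans ?_
    rw [integral_const_mul]
    exact mul_le_mul_of_nonneg_left k92 hCp.le
  have hb' : b' = deriv b := funext fun t => (k2 t).deriv.symm
  have hbc' : Continuous b' := by
    rw [hb']
    exact k1.continuous_deriv (by norm_num)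
  have hBc : Continuous B := continuous_iff_continuousAt.2 fun t => (hcut.Bd t).continuousAt
  have hBC : ContDiff ℝ 1 B := by
    rw [contDiff_one_iff_deriv]
    refine ⟨fun t => (hcut.Bd t).differentiableAt, ?_⟩
    have : deriv B = B' := funext fun t => (hcut.Bd t).deriv
    rw [this]
    exact hcut.Bcc
  have hsq : ∀ t, (B t + b t) ^ 2 + (B' t + b' t) ^ 2 ≤
      2 * (B t ^ 2 + B' t ^ 2) + 2 * (b t ^ 2 + b' t ^ 2) := fun t => by
    nlinarith [sq_nonneg (B t - b t), sq_nonneg (B' t - b' t)]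
  have hI : Integrable fun t => 2 * (B t ^ 2 + B' t ^ 2) + 2 * (b t ^ 2 + b' t ^ 2) :=
    (hcut.EI.const_mul 2).add (k7.const_mul 2)
  have hcont : Continuous fun t => (B t + b t) ^ 2 + (B' t + b' t) ^ 2 :=
    ((hBc.add hbc).pow 2).add ((hcut.Bcc.add hbc').pow 2)
  have hI2 : Integrable fun t => (B t + b t) ^ 2 + (B' t + b' t) ^ 2 := by
    refine hI.mono' hcont.aestronglyMeasurable (ae_of_all _ fun t => ?_)
    rw [Real.norm_eq_abs, abs_of_nonneg (by positivity)]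
    exact hsq t
  have hMP : (fun t => (m : ℝ) * Cv.P t * (B t + b t)) =
      fun t => (m : ℝ) * Cv.P t * B t + m * Cv.P t * b t := funext fun t => by ring
  refine ⟨fun t => B t + b t, fun t => B' t + b' t, hBC.add (k1.of_le (by norm_num)),
    fun t => (hcut.Bd t).add (k2 t),
    hcut.Bcc.add hbc', fun t => add_nonneg (hcut.B0 t) (k3 t), ?_, ?_, ?_, hI2, ?_, ?_⟩
  · intro t
    have e1 := hcut.B1 t
    have e2 := k4 t
    show B t + b t ≤ _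
    linarith
  · rw [hMP]
    exact hcut.PI.add hMint
  · rw [hMP, integral_add hcut.PI hMint]
    have := hcut.PC
    linarith
  · have hCpC : 0 ≤ Cp * C2 := by nlinarith
    calc ∫ t, (B t + b t) ^ 2 + (B' t + b' t) ^ 2 ≤
          ∫ t, (2 * (B t ^ 2 + B' t ^ 2) + 2 * (b t ^ 2 + b' t ^ 2)) := integral_mono hI2 hI hsq
      _ = 2 * (∫ t, B t ^ 2 + B' t ^ 2) + 2 * ∫ t, b t ^ 2 + b' t ^ 2 := by
          rw [integral_add (hcut.EI.const_mul 2) (k7.const_mul 2), integral_const_mul,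
            integral_const_mul]
      _ ≤ _ := by
          have := hcut.EC
          linarith
  · intro x hx t
    obtain ⟨e1, e2⟩ := k10 (cf := cr) (B := B) (a := 8 / 3 * (1 - ep))
      (D := C0 * m) (x := x) (by linarith) hx hcut.nn hcut.B0 hcut.le hcut.le2 hcut.dec n1 t
    exact ⟨mul_nonneg (hcut.nn t) (@NUSea.PLX.H0.hfar_nonneg NUSea.seaP _ _ _ (by linarith) t), e1, e2⟩

/-- **the field `shl`**: any data `X` with `X.pot = log aCC + B` -/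
theorem exists_shlC (Bs : SeaCB) [Fil] [Ends] (G : ℕ) : ∃ W : ℝ, 1 ≤ W ∧ ∀ ep : ℝ, 0 < ep → ep ≤ 1 / 100 →
    ∀ e1 : ℝ, 0 < e1 → e1 ≤ 1 / 100 → ∀ C0 : ℝ, 1 ≤ C0 →
    ∃ C : ℝ, 1 ≤ C ∧ ∃ m0 : ℕ, 1 ≤ m0 ∧ ∀ [SeaC] [SeaCU Bs], ∀ m : ℕ, m0 ≤ m →
    0 ≤ TW ep e1 m ∧
    ∀ T1 : ℝ, TW ep e1 m ≤ T1 → ∀ (bw : ℝ) (cr Bc Bc' : ℝ → ℝ), CutC ep C0 bw m cr Bc Bc' →
    ∃ B B' : ℝ → ℝ, ContDiff ℝ 1 B ∧ (∀ t, HasDerivAt B (B' t) t) ∧ Continuous B' ∧
      (∀ t, 0 ≤ B t) ∧ (∀ t, B t ≤ W) ∧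
      Integrable (fun t => (m : ℝ) * Cv.P t * B t) ∧ (∫ t, (m : ℝ) * Cv.P t * B t) ≤ C ∧
      Integrable (fun t => B t ^ 2 + B' t ^ 2) ∧ (∫ t, B t ^ 2 + B' t ^ 2) ≤ C ∧
      ∀ x : ℝ, 0 ≤ x → ∀ (X : Gs.Dat) (aX aY : ℝ → ℝ), Measurable (X.pot true) → Measurable (X.pot false) →
        (∀ t, aX t * Real.exp (B t) = Real.exp (X.pot true t)) →
        (∀ t, aY t * Real.exp (B t) = Real.exp (X.pot false t)) →
        Gs.Shl X aX aY (cfH cr G T1 x) B (DH ep e1 m G x) (49 / 20) := by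
  obtain ⟨W, hW, HW⟩ := exists_cfC Bs (CcF_one G)
  refine ⟨W, hW, fun ep h0 h1 e1 he he1 C0 hC0 => ?_⟩
  obtain ⟨C, hC, m0, hm0, HH⟩ := HW ep h0 h1 C0 hC0
  refine ⟨C, hC, m0, hm0, @fun _ hS m hm => ?_⟩
  have hm1 : (1 : ℝ) ≤ m := by exact_mod_cast hm0.trans hm
  have hlog : 0 ≤ Real.log m := Real.log_nonneg hm1
  have hTW0 : (1 + 2 * ep) * (3 / 8 * Real.log m) ≤ TW ep e1 m := by
    unfold TW Tb
    nlinarith
  have hTWn : 0 ≤ TW ep e1 m := by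
    refine le_trans ?_ hTW0
    positivity
  refine ⟨hTWn, fun T1 hT1 bw cr Bc Bc' hcut => ?_⟩
  obtain ⟨B, B', g1, g2, g3, g4, g5, g8, g9, g10, g11, g12⟩ :=
    @HH _ hS m T1 hm (hTW0.trans hT1) bw cr Bc Bc' hcut
  obtain ⟨_, _, _, _, _, _, _, _, _, _, _, g13⟩ := @HH _ hS m (TW ep e1 m) hm hTW0 bw cr Bc Bc' hcut
  refine ⟨B, B', g1, g2, g3, g4, g5, g8, g9, g10, g11,
    fun x hx X aX aY hpX hpY hX hY => ?_⟩
  have hmeas : Measurable (cfH cr G T1 x) :=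
    hcut.meas.mul (@NUSea.PLX.H0.hfar_meas NUSea.seaP _ _ _)
  have hBm : Measurable B := g1.continuous.measurable
  have key : ∀ (f p : ℝ → ℝ), Measurable p → (∀ t, f t * Real.exp (B t) = Real.exp (p t)) →
      Measurable f ∧ ∀ t, 0 ≤ f t := by
    intro f p hp hf
    have e : f = fun t => Real.exp (p t - B t) := by
      funext t
      rw [Real.exp_sub, ← hf t, mul_div_assoc, div_self (Real.exp_pos _).ne', mul_one]
    rw [e]
    exact ⟨Real.measurable_exp.comp (hp.sub hBm), fun t => (Real.exp_pos _).le⟩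
  exact
    { mX := (key _ _ hpX hX).1
      mY := (key _ _ hpY hY).1
      mc := hmeas
      mB := hBm
      X0 := (key _ _ hpX hX).2
      Y0 := (key _ _ hpY hY).2
      c0 := fun t => (g12 x hx t).1
      B0 := g4
      D0 := DHC_nonneg _ _ _ _ _
      q0 := by norm_num
      cB := fun t => (g12 x hx t).2.1
      cD := fun t => (mul_le_mul_of_nonneg_left (hfar_anti' (CcF_one G) hx hT1 t) (hcut.nn t)).trans
        (g13 x hx t).2.2
      leX := fun t => (hX t).le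
      leY := fun t => (hY t).le }

end

end PLT
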