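import Pool.Agent.PLT.GHCdef
import Pool.Agent.PLT.DatC
import Pool.Agent.PLT.FxHC
import Pool.Agent.PLT.ShlHC
import Pool.Agent.PHK.PotH.Gc

/-!
# The data of every configuration over a sea on a static curve, with a potential

Twin of `PHK/PotH/Gc` (`datGH6`).

* `Cv.DatCC.mono_κ`, `GDC.mono_κ`, `GDC.mono_k`, `Cv.SPath.mono_B`;
* `CrvP.hd_le`: the slope of the current of `CrvP` is at most `1`;
* `ObjC.FC`, `ObjC.qS`: potentials and charges of the abstract objects; **`pot_inC`**: the potential of `datC (inC ..) O'`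
  is the species factor `aCC` and the majorant; `continuous_potC`; `fld_inC`;
* **`datGHC`**: the data `inC` of every configuration satisfy the hypotheses `DatCC` of the gas bounds.
-/

set_option autoImplicit false
set_option linter.unusedSectionVars false
set_option linter.unusedVariables false

open MeasureTheory Set Filter Topology
open PLX (Fil Ends)

namespace PLT

open NUMF (l l_pos)
open NUO (Xo ht Tb TW excS)
open PHK (Par6 FO6 fO6 kq6 k6 chgO6 nA6)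
open NUSea.PLX.H0 (Inp Gd TG)
open NUGC (muS tauS)
open NUGC.PLX (pE qE CcF SC chG gP FamOk)
open PotH.PLX (sN sN_nonneg sN_le le_sN sN_sub HOk DH cfH nA6_le_add)
open Cv (Par7 DatCC Oc datC)

noncomputable section

/-! ### sizes -/

/-- a smaller power in the size of the curves -/
theorem Cv.DatCC.mono_κ {B : SeaCB} [SeaC] {Q : Par7} {A εo ep e1 κ κ' CB ϑ kb : ℝ} {k m : ℕ} {I : Inp} {r : ℕ}
    {O : Fin r → Oc} {G : ℕ} {g : Fin G → ℝ} {p n : ℕ} {aX aY cf B1 : ℝ → ℝ} {T1 D q S : ℝ}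
    (h : DatCC B Q A εo ep e1 κ CB ϑ kb k m I O g p n aX aY cf B1 T1 D q S) (hm : 1 ≤ m) (hκ : κ' ≤ κ) :
    DatCC B Q A εo ep e1 κ' CB ϑ kb k m I O g p n aX aY cf B1 T1 D q S := by
  have hp : (m : ℝ) ^ (-κ) ≤ (m : ℝ) ^ (-κ') :=
    Real.rpow_le_rpow_of_exponent_le (by exact_mod_cast hm) (by linarith)
  obtain ⟨ε, M, e, h0, h1, h2⟩ := h.ok
  exact { h with ok := ⟨ε, M, e, h0, h1.trans hp, h2⟩ }

/-- a smaller power in the size of the curves -/
theorem GDC.mono_κ [SeaC] {lo hi : ℝ} {m : ℕ} {k : ℕ} {κ κ' e : ℝ} {s : Bool → ℝ} {R b : ℝ}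
    {ηX ηX1 ηY ηY1 aX aY : ℝ → ℝ} (h : GDC lo hi m k κ e s R b ηX ηX1 ηY ηY1 aX aY) (hm : 1 ≤ m)
    (hκ : κ' ≤ κ) : GDC lo hi m k κ' e s R b ηX ηX1 ηY ηY1 aX aY := by
  have hp : (m : ℝ) ^ (-κ) ≤ (m : ℝ) ^ (-κ') :=
    Real.rpow_le_rpow_of_exponent_le (by exact_mod_cast hm) (by linarith)
  exact
    { h with
      cX := by
        obtain ⟨ε, M, e, h1, h2, h3⟩ := h.cX
        exact ⟨ε, M, e, h1, h2.trans hp, h3⟩
      cY := by
        obtain ⟨ε, M, e, h1, h2, h3⟩ := h.cY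
        exact ⟨ε, M, e, h1, h2.trans hp, h3⟩ }

/-- a larger power of the logarithm -/
theorem GDC.mono_k [SeaC] {lo hi : ℝ} {m : ℕ} {k k' : ℕ} {κ e : ℝ} {s : Bool → ℝ} {R b : ℝ}
    {ηX ηX1 ηY ηY1 aX aY : ℝ → ℝ} (h : GDC lo hi m k κ e s R b ηX ηX1 ηY ηY1 aX aY) (hL : 1 ≤ Real.log m)
    (hk : k ≤ k') : GDC lo hi m k' κ e s R b ηX ηX1 ηY ηY1 aX aY := by
  have hp : Real.log m ^ k ≤ Real.log m ^ k' := pow_le_pow_right₀ hL hk
  exact
    { h with
      cX := by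
        obtain ⟨ε, M, e, h1, h2, h3⟩ := h.cX
        exact ⟨ε, M, e, h1, h2, h3.trans hp⟩
      cY := by
        obtain ⟨ε, M, e, h1, h2, h3⟩ := h.cY
        exact ⟨ε, M, e, h1, h2, h3.trans hp⟩
      fX := by
        obtain ⟨A, Ar, F, Er, h0, h1, h2, h3⟩ := h.fX
        exact ⟨A, Ar, F, Er, h0, h1.trans hp, h2.trans hp, h3⟩
      fY := by
        obtain ⟨A, Ar, F, Er, h0, h1, h2, h3⟩ := h.fY
        exact ⟨A, Ar, F, Er, h0, h1.trans hp, h2.trans hp, h3⟩ }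

/-- the constant of a path may grow -/
theorem Cv.SPath.mono_B {lo hi c B B' : ℝ} {ζ ζ' : ℝ → ℂ} (h : Cv.SPath lo hi c B ζ ζ') (hB : B ≤ B') :
    Cv.SPath lo hi c B' ζ ζ' :=
  { h with
    dle := fun t => (h.dle t).trans hB
    near := fun t => (h.near t).trans hB }

section

variable (SB : SeaCB) [SeaC] [SeaCU SB] [Fil] [Ends] {e1 Cc : ℝ} {m : ℕ} {η η1 : ℝ → ℝ}

include SB

/-- **the slope of the current** -/
theorem CrvP.hd_le (h : CrvP e1 Cc m η η1) (hm : 1 ≤ m) (t : ℝ) :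
    |Cv.hd (sN m true) (Fil.cv true η) (Fil.cv true η1) t| ≤ 1 := by
  rw [Fil.cv_true, Fil.cv_true, PotH.PLX.sN_true hm]
  have h1 := Cv.hasDerivAt_hd SB (m : ℝ) h.d t
  have h2 : LipschitzWith 1 fun t => (m : ℝ) * Cv.P t * η t := by
    refine LipschitzWith.of_dist_le_mul fun x y => ?_
    rw [Real.dist_eq, Real.dist_eq, NNReal.coe_one, one_mul]
    exact h.lip x y
  have h3 := norm_deriv_le_of_lipschitz h2 (x₀ := t)
  rw [h1.deriv, NNReal.coe_one, Real.norm_eq_abs] at h3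
  exact h3

end

/-! ### the objects and the data -/

section

variable {P : Par6} {r : ℕ} {O : Fin r → Xo} {O' : Fin r → Oc}

lemma ObjC.FC (h : ∀ i, ObjC P (O i) (O' i)) (I : Inp) (a : Bool) (z : ℂ) :
    Cv.FC I O' a z = FO6 P O a z + I.A a z := by
  unfold Cv.FC PHK.FO6
  rw [Finset.sum_congr rfl fun i _ => (h i).F a z]

lemma ObjC.qS (h : ∀ i, ObjC P (O i) (O' i)) : Cv.qS O' = (chgO6 O true : ℝ) - chgO6 O false := by
  unfold Cv.qS
  rw [Finset.sum_congr rfl fun i _ => (h i).q]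
  exact @NUSea.PLX.H0.sum_kq6 NUSea.seaP _ O

end

section

variable [Fil] [Ends] [SeaC] {P : Par6} {r : ℕ} {O : Fin r → Xo} {O' : Fin r → Oc} {η η1 : ℝ → ℝ} {m : ℕ}
  {T1 b' : ℝ} {G : ℕ} {g : Fin G → Gd} {B1 : ℝ → ℝ} {H : Bool → ℝ → ℝ}

lemma inC_B (a : Bool) (t : ℝ) : (inC η η1 m T1 b' g B1 H).B a t = B1 t + raC η T1 b' g H a t := by
  show B1 t + Sp.BF T1 g (zC η a) a t + H a t - b' / 2 = B1 t + (Sp.BF T1 g (zC η a) a t + H a t - b' / 2)
  ring

/-- **the potential of the data is the species factor and the majorant** -/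
theorem pot_inC (hM : ∀ i, ObjC P (O i) (O' i)) (a : Bool) (t : ℝ) :
    aCC P η m T1 b' g H O a t * Real.exp (B1 t) = Real.exp ((datC (inC η η1 m T1 b' g B1 H) O').pot a t) := by
  have e1 : (datC (inC η η1 m T1 b' g B1 H) O').pot a t =
      (Cv.vb (sN m) a (zC η a t) + Cv.FC (inC η η1 m T1 b' g B1 H) O' a (zC η a t)).re +
        (inC η η1 m T1 b' g B1 H).B a t := rfl
  have e2 : (inC η η1 m T1 b' g B1 H).A a (zC η a t) =
      NUSp.DD pE qE (List.ofFn fun i => (gP T1 g i).G) a (zC η a t) := rfl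
  rw [e1, ObjC.FC hM, e2, inC_B]
  unfold aCC
  rw [← Real.exp_add]
  congr 1
  simp only [Complex.add_re]
  ring

end

section

variable {SB : SeaCB} [SeaC] [SeaCU SB] {lo hi Cp ε M b : ℝ} {e : ℝ → ℝ} {I : Inp} {lo' hi' kd A ε' c : ℝ}
  {r : ℕ} {O' : Fin r → Oc}

/-- the potentials of the data are continuous -/
theorem continuous_potC (h : Cv.IOkC SB lo hi Cp ε M b e I) (hO : ∀ i, (O' i).Ok lo' hi' kd A ε' c)
    (hlo : lo' ≤ lo) (hhi : hi ≤ hi') (a : Bool) : Continuous ((datC I O').pot a) := by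
  have hl := l_pos
  have hp := h.pth a
  have hz : Continuous (Cv.zI I a) := continuous_iff_continuousAt.2 fun t => (hp.der t).continuousAt
  have hS := h.str
  have d1 : ∀ t, DifferentiableAt ℂ (Cv.vb I.s a) (Cv.zI I a t) := fun t => by
    have g1 := hp.im_ge t
    have g2 := hp.im_le t
    have g3 := hS.h1
    have g4 := hS.h4
    have g5 := SB.h0
    have g1' : lo ≤ (Cv.zI I a t).im := g1
    have g2' : (Cv.zI I a t).im ≤ hi := g2
    have k1 := Cv.diff_vs SB (z := Cv.zI I a t) (by linarith) (by linarith)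
    have k2 := Cv.diff_vx SB (z := Cv.zI I a t) (by linarith) (by linarith)
    unfold Cv.vb
    exact (k1.const_mul _).add (k2.const_mul _)
  have d2 : ∀ t, DifferentiableAt ℂ (Cv.FC I O' a) (Cv.zI I a t) := fun t => by
    unfold Cv.FC
    refine (DifferentiableAt.fun_sum fun i _ => (hO i).diff a _ ?_ ?_).fun_add
      ((h.Ae a).diff _ (hp.im_ge t) (hp.im_le t))
    · exact hlo.trans (hp.im_ge t)
    · exact (hp.im_le t).trans hhi
  have key : ∀ F : ℂ → ℂ, (∀ t, DifferentiableAt ℂ F (Cv.zI I a t)) →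
      Continuous fun t => F (Cv.zI I a t) := fun F hF =>
    continuous_iff_continuousAt.2 fun t =>
      ContinuousAt.comp (f := Cv.zI I a) (hF t).continuousAt hz.continuousAt
  exact (Complex.continuous_re.comp ((key _ d1).add (key _ d2))).add (h.Bc a)

variable [Fil] [Ends] {P : Par6} {O : Fin r → Xo} {m : ℕ}

/-- **the field equation**, `nX`, `nY` quanta in all -/
theorem fldC' (h : Cv.IOkC SB lo hi Cp ε M b e I) (hO : ∀ i, (O' i).Ok lo' hi' kd A ε' c)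
    (hM : ∀ i, ObjC P (O i) (O' i)) (hs : I.s = sN m) {q : ℝ} (hτ : ∫ x, I.τD x = -q) {nX nY : ℕ}
    (hX : chgO6 O true ≤ nX) (hY : chgO6 O false ≤ nY) (hn : (nX : ℝ) + (Fil.xe m : ℕ) - nY = -q) :
    Gs.Fld (datC I O') (nA6 nX O true) (nA6 nY O false) := by
  have hnA : ∀ (n : ℕ) (s : Bool), chgO6 O s ≤ n → ((nA6 n O s : ℕ) : ℝ) = n - chgO6 O s := by
    intro n s h
    have : ((nA6 n O s : ℕ) : ℤ) = n - chgO6 O s := by
      unfold PHK.nA6
      exact Int.toNat_of_nonneg (by linarith)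
    exact_mod_cast this
  refine Cv.fldC h hO ?_
  rw [hτ, ObjC.qS hM, hnA nX true hX, hnA nY false hY, hs]
  have e3 := sN_sub m
  linarith

end

/-! ### the theorem -/

variable [Fil] [Ends]

/-- the cutoff decays at every excess of the window -/
private lemma cfH_le [SeaC] {ep C0 b : ℝ} {m : ℕ} {cr Bc Bc' : ℝ → ℝ} (hep : ep ≤ 1 / 100) (hC0 : 0 ≤ C0)
    (h : CutC ep C0 b m cr Bc Bc') {G : ℕ} {T1 x : ℝ} (hT1 : 0 ≤ T1) (t : ℝ) :
    cfH cr G T1 x t ≤ C0 * NUGC.PLX.CcF G * m * Real.exp (-(|t| / 2)) := by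
  have h1 := h.dec t
  have hC := NUGC.PLX.CcF_one G
  have hm : (0 : ℝ) ≤ m := Nat.cast_nonneg m
  have ht := abs_nonneg t
  have h2 : NUSea.PLX.H0.hfar (NUGC.PLX.CcF G) T1 x t ≤ NUGC.PLX.CcF G * Real.exp (2 * |t|) := by
    have h3 : 1 ≤ Real.exp (2 * |t|) := Real.one_le_exp (by positivity)
    by_cases h4 : |t| ≤ T1
    · rw [@NUSea.PLX.H0.hfar_in NUSea.seaP _ _ _ _ h4]
      nlinarith
    · push Not at h4
      rw [@NUSea.PLX.H0.hfar_out NUSea.seaP _ _ _ _ h4]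
      have h5 : min (|t| - T1) x ≤ |t| := (min_le_left _ _).trans (by linarith)
      gcongr
  have h0 : 0 ≤ NUSea.PLX.H0.hfar (NUGC.PLX.CcF G) T1 x t :=
    @NUSea.PLX.H0.hfar_nonneg NUSea.seaP _ _ _ (by linarith) t
  have h6 : Real.exp (-(8 / 3 * (1 - ep)) * |t|) * Real.exp (2 * |t|) ≤ Real.exp (-(|t| / 2)) := by
    rw [← Real.exp_add]
    refine Real.exp_le_exp.2 ?_
    nlinarith
  unfold cfH
  calc cr t * NUSea.PLX.H0.hfar (NUGC.PLX.CcF G) T1 x t ≤
      (C0 * m * Real.exp (-(8 / 3 * (1 - ep)) * |t|)) * (NUGC.PLX.CcF G * Real.exp (2 * |t|)) := by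
        gcongr
    _ = C0 * NUGC.PLX.CcF G * m * (Real.exp (-(8 / 3 * (1 - ep)) * |t|) * Real.exp (2 * |t|)) := by ring
    _ ≤ _ := by
        have : 0 ≤ C0 * NUGC.PLX.CcF G * m := by positivity
        gcongr

/-- **the data of every configuration** -/
theorem datGHC (SB : SeaCB) : ∃ Cp : ℝ, 1 ≤ Cp ∧ ∀ (Q : Par7) (P : Par6), Cp ≤ Q.Cp → 0 ≤ Q.w →
    Q.lo < -SB.d → SB.top < Q.hi → -SB.h ≤ Q.lo → Q.hi ≤ l / 10 → DatGHC SB Q P := by
  obtain ⟨Cw, hCw, HF⟩ := exists_datFxHC SB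
  refine ⟨max Cw 1, le_max_right _ _, fun Q P hCp' hw q1 q2 q3 q4 G => ?_⟩
  have hCp : Cw ≤ Q.Cp := (le_max_left _ _).trans hCp'
  obtain ⟨W, hW, HS⟩ := exists_shlC SB G
  refine ⟨W, by linarith, fun ep hep hep1 e1 he he1 Cc C0 hCc hC0 B0 N0 hB0 hN0 => ?_⟩
  obtain ⟨C, hC, mS, hmS, HS⟩ := HS ep hep hep1 e1 he he1 C0 hC0
  obtain ⟨k, κ, CB, hκ, hCB, HD⟩ := HF q1 q2 q3 q4 G (W := W) (C := C) (by linarith)
    (by linarith) he he1 hCc hB0 hN0
  have hcG : 0 ≤ C0 * NUGC.PLX.CcF G := by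
    have := NUGC.PLX.CcF_one G
    positivity
  refine ⟨k, κ, CB + 1 + C0 * NUGC.PLX.CcF G, C, hκ, by linarith, by linarith, fun ϑ hϑ => ?_⟩
  obtain ⟨d, hd, HD⟩ := HD ϑ hϑ
  obtain ⟨mF, HD⟩ := HD ep hep
  refine ⟨d, hd, max mS mF,
    @fun S hSU m hm η η1 hcv cr Bc Bc' hcut b' hb T1 x g hT1 hF => ?_⟩
  have k1 : mS ≤ m := (le_max_left _ _).trans hm
  have k4 : mF ≤ m := (le_max_right _ _).trans hm
  have hm1 : 1 ≤ m := hmS.trans k1
  have hqo : (1 : ℝ) ≤ (Fil.qo : ℕ) := Fil.one_le_qor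
  obtain ⟨hTW, HS⟩ := HS m k1
  obtain ⟨B, B', b1, b2, b3, b4, b5, b7, b8, b9, b10, HS⟩ := HS T1 hT1 _ cr Bc Bc' hcut
  refine ⟨B, b1, b4, b5, b7, b8, fun H H' hH nX nY hnX hnY hn r hr O hX hY hO A εo O' hM hOk hPr => ?_⟩
  obtain ⟨f1, f2, f3, f4, f5, f6⟩ := HD m k4 η η1 hcv b' hb T1 g
    hT1 B B' b2 b3 b4 b5 b9 b10 H H' _ _ hH
  obtain ⟨ε, Mc, e, hI0, hε, hMc⟩ := f1
  have hI : Cv.IOkC SB Q.lo Q.hi Q.Cp ε Mc ((1 - e1) * Tb (Real.log m)) e (inC η η1 m T1 b' g B H) :=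
    { hI0 with pth := fun a => (hI0.pth a).mono_B hCp }
  have hpc := fun a => continuous_potC hI hOk (by linarith) (by linarith) a
  have hSh := HS x hF.x0 (datC (inC η η1 m T1 b' g B H) O') (aCC P η m T1 b' g H O true)
    (aCC P η m T1 b' g H O false) (hpc true).measurable (hpc false).measurable
    (fun t => pot_inC hM true t) (fun t => pot_inC hM false t)
  have hm0 : (0 : ℝ) ≤ m := Nat.cast_nonneg m
  have hqm : (m : ℝ) ≤ (Fil.qo : ℕ) * m := by (clear * - hqo; nlinarith)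
  have hnum : ∀ (n : ℕ) (s : Bool), n ≤ 8 * Fil.qo * m → ((nA6 n O s : ℕ) : ℝ) ≤
      64 * (Fil.qo : ℕ) * m := by
    intro n s hn'
    have h1 := nA6_le_add n O s
    have h2 : (nA6 n O s : ℝ) ≤ n + r := by exact_mod_cast h1
    have h3 : (n : ℝ) ≤ 8 * (Fil.qo : ℕ) * m := by exact_mod_cast hn'
    have h4 : (r : ℝ) ≤ 32 * (Fil.qo : ℕ) * m := by exact_mod_cast hr
    clear * - hqm h2 h3 h4
    nlinarith
  refine ⟨DH ep e1 m G x, ?_, (DHC_eq _ _ _ _ _).le⟩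
  exact
    { s1 := fun a => (by (clear * -; linarith) : (m : ℝ) / 2 ≤ m).trans (le_sN m a)
      s2 := fun a => (sN_le hm1 a).trans (mul_le_mul_of_nonneg_right (by (clear * - hqo; linarith)) hm0)
      pk := hnum nX true hnX
      nk := hnum nY false hnY
      rk := by
        have h4 : (r : ℝ) ≤ 32 * (Fil.qo : ℕ) * m := by exact_mod_cast hr
        clear * - hqm h4
        nlinarith
      ok := ⟨ε, Mc, e, hI, hε, hMc⟩
      h1 := fun t => (hcv.hd_le SB hm1 t).trans (by linarith)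
      obj := hOk
      pr := hPr
      fld := fldC' hI hOk hM rfl f2 hX hY hn
      shl := hSh
      q1 := le_rfl
      tw := by
        rw [Cv.excC_eq fun i => (hM i).h]
        exact hO
      DS := DHC_le _ _ _ _ x hT1
      gs := f3
      ν0 := fun a t => by
        have c1 := f4 a t
        have c4 : 0 ≤ ∑ j, Real.exp (-(5 / 2 * |t - (gP T1 g j).τ|)) :=
          Finset.sum_nonneg fun _ _ => (Real.exp_pos _).le
        have c7 := mul_nonneg (by linarith : 0 ≤ CB + 1 + C0 * NUGC.PLX.CcF G)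
          (NUH0.plt_nonneg (TW ep e1 m) t)
        have c8 := mul_nonneg (by linarith : 0 ≤ 1 + C0 * NUGC.PLX.CcF G) c4
        linarith
      w0 := fun a t => (f5 a t).trans (by linarith)
      w1 := fun a T hT => (f6 a T hT).trans (by linarith)
      c2 := fun t => by
        refine (cfH_le hep1 (by linarith) hcut (hTW.trans hT1) t).trans ?_
        have := mul_nonneg (mul_nonneg (by linarith : 0 ≤ CB + 1) hm0) (Real.exp_pos (-(|t| / 2))).le
        linarith }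

end

end PLT
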