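import Pool.Agent.PLT.KersE

/-!
# All kernels of the transport argument on a bent curve, from the static ones (helper78)

**`kersC_of`** `: StKB B → ∃ K, .. KersC R (K R ^ 20) (K R ^ 20 lam) (K R ^ 20 (lam + lam0)) ..`.
-/

set_option autoImplicit false
set_option linter.unusedSectionVars false

open Complex Set Filter MeasureTheory

namespace PLT

open NUKer NUOC NUR2

noncomputable section

open Cv (Dt Dt1 gD gD1)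

section

variable [SeaC] {R Λ0 Λ Λ' : ℝ} {η η1 ξ ξ1 ηX ηY ξX ξY : ℝ → ℝ}

lemma re_KC {R Λ : ℝ} {κ : ℝ → ℝ → ℂ} {k : ℝ → ℝ → ℝ} (h : KC R Λ κ) (e : ∀ t t', (κ t t').re = k t t') :
    KC R Λ (fun t t' => ((k t t' : ℝ) : ℂ)) := h.re.congr fun t t' _ _ => by rw [e]

lemma ZW.rS (h : ZW R Λ0 Λ Λ' η η1 ξ ξ1) : KC R Λ0 (fun t t' => ((ksW t t' : ℝ) : ℂ)) := re_KC h.kS fun t t' => Lw_re _ _ t t'

lemma ZW.r (h : ZW R Λ0 Λ Λ' η η1 ξ ξ1) : KC R Λ0 (fun t t' => ((kw (Dt η) (Dt1 η η1) t t' : ℝ) : ℂ)) :=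
  re_KC h.k fun t t' => Lw_re _ _ t t'

lemma ZW.r' (h : ZW R Λ0 Λ Λ' η η1 ξ ξ1) : KC R Λ0 (fun t t' => ((kw (cD ξ (Dt η)) (cD1 ξ ξ1 (Dt1 η η1)) t t' : ℝ) : ℂ)) :=
  re_KC h.k' fun t t' => Lw_re _ _ t t'

lemma ZW.rn (h : ZW R Λ0 Λ Λ' η η1 ξ ξ1) : KC R Λ (fun t t' => ((kw (Dt η) (Dt1 η η1) t t' - ksW t t' : ℝ) : ℂ)) :=
  re_KC h.n fun t t' => by rw [Complex.sub_re, Lw_re, Lw_re]; rfl

lemma ZW.rn' (h : ZW R Λ0 Λ Λ' η η1 ξ ξ1) :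
    KC R Λ' (fun t t' => ((kw (cD ξ (Dt η)) (cD1 ξ ξ1 (Dt1 η η1)) t t' - ksW t t' : ℝ) : ℂ)) :=
  re_KC h.n' fun t t' => by rw [Complex.sub_re, Lw_re, Lw_re]; rfl

lemma ZG.rS (h : ZG R Λ0 Λ Λ' ηX ηY ξX ξY) : KC R Λ0 (fun t t' => ((ksG t t' : ℝ) : ℂ)) := re_KC h.kS fun t t' => Lg_re _ _ t t'

lemma ZG.r (h : ZG R Λ0 Λ Λ' ηX ηY ξX ξY) : KC R Λ0 (fun t t' => ((kg (Dt ηX) (Dt ηY) t t' : ℝ) : ℂ)) :=
  re_KC h.k fun t t' => Lg_re _ _ t t'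

lemma ZG.r' (h : ZG R Λ0 Λ Λ' ηX ηY ξX ξY) : KC R Λ0 (fun t t' => ((kg (cD ξX (Dt ηX)) (cD ξY (Dt ηY)) t t' : ℝ) : ℂ)) :=
  re_KC h.k' fun t t' => Lg_re _ _ t t'

lemma ZG.rn (h : ZG R Λ0 Λ Λ' ηX ηY ξX ξY) : KC R Λ (fun t t' => ((kg (Dt ηX) (Dt ηY) t t' - ksG t t' : ℝ) : ℂ)) :=
  re_KC h.n fun t t' => by rw [Complex.sub_re, Lg_re, Lg_re]; rfl

lemma ZG.rn' (h : ZG R Λ0 Λ Λ' ηX ηY ξX ξY) :
    KC R Λ' (fun t t' => ((kg (cD ξX (Dt ηX)) (cD ξY (Dt ηY)) t t' - ksG t t' : ℝ) : ℂ)) :=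
  re_KC h.n' fun t t' => by rw [Complex.sub_re, Lg_re, Lg_re]; rfl

end

/-- **all kernels, from the static ones** -/
theorem kersC_of {B : SeaCB} (hB : StKB B) : ∃ K : ℝ, 1 ≤ K ∧ ∀ [SeaC] [SeaCU B], ∀ R : ℝ, 1 ≤ R → ∀ (lam lam0 : ℝ)
    (ηX ηX1 ηY ηY1 ξX ξX1 ξY ξY1 : ℝ → ℝ), O 4 lam ηX → O 4 lam ηY → O 4 lam0 ξX → O 4 lam0 ξY →
    (∀ x, HasDerivAt ηX (ηX1 x) x) → (∀ x, HasDerivAt ηY (ηY1 x) x) →
    (∀ x, HasDerivAt ξX (ξX1 x) x) → (∀ x, HasDerivAt ξY (ξY1 x) x) →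
    (∀ x, |x| ≤ R → |x + ξX x| ≤ R) → (∀ x, |x| ≤ R → |x + ξY x| ≤ R) →
    K * R ^ 20 * (lam + lam0) ≤ 1 →
    KersC R (K * R ^ 20) (K * R ^ 20 * lam) (K * R ^ 20 * (lam + lam0)) ηX ηX1 ηY ηY1 ξX ξX1 ξY ξY1 := by
  obtain ⟨K1, hK1, H1⟩ := exists_zW hB
  obtain ⟨K2, hK2, H2⟩ := exists_zG hB
  obtain ⟨K3, hK3, H3⟩ := exists_dispC B
  refine ⟨K1 + K2 + 20 * K3, by linarith, @fun _ hS R hR lam lam0 ηX ηX1 ηY ηY1 ξX ξX1 ξY ξY1 hηX hηY hξX hξY dηX dηY dξX dξY rX rY hsm => ?_⟩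
  have hl := hηX.nonneg
  have hl0 := hξX.nonneg
  have hR20 : (1:ℝ) ≤ R ^ 20 := one_le_pow₀ hR
  have hll : 0 ≤ lam + lam0 := by linarith
  have m1 : K1 * R ^ 20 ≤ (K1 + K2 + 20 * K3) * R ^ 20 := by
    gcongr
    linarith
  have m2 : K2 * R ^ 20 ≤ (K1 + K2 + 20 * K3) * R ^ 20 := by
    gcongr
    linarith
  have m3 : 20 * K3 ≤ (K1 + K2 + 20 * K3) * R ^ 20 := by nlinarith
  have s1 : K1 * R ^ 20 * (lam + lam0) ≤ 1 := (mul_le_mul_of_nonneg_right m1 hll).trans hsm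
  have s2 : K2 * R ^ 20 * (lam + lam0) ≤ 1 := (mul_le_mul_of_nonneg_right m2 hll).trans hsm
  have s3 : 20 * K3 * (lam + lam0) ≤ 1 := (mul_le_mul_of_nonneg_right m3 hll).trans hsm
  have s4 : K3 * lam ≤ 1 / 20 := by nlinarith
  have s5 : lam0 ≤ 1 / 20 := by nlinarith
  have zX := (@H1 _ hS R hR lam lam0 ηX ηX1 ξX ξX1 hηX hξX dηX dξX s1).mono m1 (mul_le_mul_of_nonneg_right m1 hl)
    (mul_le_mul_of_nonneg_right m1 hll)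
  have zY := (@H1 _ hS R hR lam lam0 ηY ηY1 ξY ξY1 hηY hξY dηY dξY s1).mono m1 (mul_le_mul_of_nonneg_right m1 hl)
    (mul_le_mul_of_nonneg_right m1 hll)
  have zc := (@H2 _ hS R hR lam lam0 ηX ηX1 ηY ηY1 ξX ξX1 ξY ξY1 hηX hηY hξX hξY dηX dηY dξX dξY s2).mono m2
    (mul_le_mul_of_nonneg_right m2 hl) (mul_le_mul_of_nonneg_right m2 hll)
  have hj : ∀ {ξ ξ1 : ℝ → ℝ}, O 4 lam0 ξ → (∀ x, HasDerivAt ξ (ξ1 x) x) → ∀ x, 0 < 1 + ξ1 x := by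
    intro ξ ξ1 h h1 x
    obtain ⟨-, ξ1', h2, h3⟩ := h
    obtain rfl : ξ1' = ξ1 := funext fun x => (h2 x).unique (h1 x)
    have := abs_le.1 (h3.le x)
    linarith
  have jX := hj hξX dξX
  have jY := hj hξY dξY
  have he : ∀ {η η1 : ℝ → ℝ}, O 4 lam η → (∀ x, HasDerivAt η (η1 x) x) → ∀ x, 1 + Dt1 η η1 x ≠ 0 := by
    intro η η1 h h1 x
    have hd : Disp (|x|) (K3 * lam) (gD η) (gD1 η η1) := (@H3 _ hS 0 lam (fun _ => 0) (fun _ => 0) η η1 (O.const 4 (by simp))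
      zero_le_one h (fun x => hasDerivAt_const x 0) h1 (|x|)).1
    obtain ⟨D2, D3, D4, -, -, -, -, -, -, b1, -⟩ := hd.ex
    have hb := b1 x (by have := abs_nonneg x; linarith)
    have h2 : ‖Dt1 η η1 x‖ ≤ 1 / 2 := by
      refine (norm_add_le _ _).trans ?_
      have := Cv.iDeta1_le x
      linarith
    exact one_add_ne h2
  have eX := he hηX dηX
  have eY := he hηY dηY
  exact
    { sm_X := zX.sm
      sm_Y := zY.sm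
      sm_c := zc.sm
      sm_X' := zX.sm'
      sm_Y' := zY.sm'
      sm_c' := zc.sm'
      kS := zX.rS
      kG := zc.rS
      kX := zX.r
      kY := zY.r
      kc := zc.r
      kX' := zX.r'
      kY' := zY.r'
      kc' := zc.r'
      nX := zX.rn
      nY := zY.rn
      nc := zc.rn
      nX' := zX.rn'
      nY' := zY.rn'
      nc' := zc.rn'
      sX := fun x y hx hy => kw_symm zX.sm hx hy
      sY := fun x y hx hy => kw_symm zY.sm hx hy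
      sX' := fun x y hx hy => kw_symm zX.sm' hx hy
      sY' := fun x y hx hy => kw_symm zY.sm' hx hy
      wX := fun x y hx hy => comp_w zX.sm zX.sm' hx hy (rX x hx) (rX y hy)
      wY := fun x y hx hy => comp_w zY.sm zY.sm' hx hy (rY x hx) (rY y hy)
      gc := fun x y hx hy => comp_g zc.sm zc.sm' hx hy (rX x hx) (rY y hy)
      jX := jX
      jY := jY
      dX := comp_diag jX eX
      dY := comp_diag jY eY
      eX := eX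
      eY := eY }

end

end PLT
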