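import Pool.Agent.PLT.KerF

/-!
# THETA, row B: (O1) for the static curve (helper69)

`ko`, `kx`: kernels of the own and the cross pairs of a bent curve; **`Bent.O1`**: the form of both is at most
`3 / 4` of the energy. `Bent.ddp`, `Bent.ddm`: their sum and difference have mixed derivatives `≤ 3 / 4 V''`.
-/

set_option autoImplicit false

open MeasureTheory Set Filter Topology Complex

namespace PLT.KF

open NUMF NUKer NUAct NU42

noncomputable section

/-- own kernel -/
def ko (η η1 : ℝ → ℝ) (t s : ℝ) : ℝ := kw (Di η) (Di η1) t s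

/-- cross kernel -/
def kx (η : ℝ → ℝ) (t s : ℝ) : ℝ := kg (Di η) (Di η) t s

/-- the difference of two points of the curve -/
def zc (η : ℝ → ℝ) (t s : ℝ) : ℂ := ((t - s : ℝ) : ℂ) + ((η t - η s : ℝ) : ℂ) * I

variable {η η1 : ℝ → ℝ}

@[simp] lemma zc_re (η : ℝ → ℝ) (t s : ℝ) : (zc η t s).re = t - s := by simp [zc]

@[simp] lemma zc_im (η : ℝ → ℝ) (t s : ℝ) : (zc η t s).im = η t - η s := by simp [zc]

lemma l_ge : 3 / 10 < l := by
  have h := l8
  have := Real.pi_gt_three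
  linarith

lemma Bent.zl (h : Bent η η1) (t s : ℝ) : |(zc η t s).im| < l := by
  rw [zc_im]
  have := h.osc t s
  have := l_ge
  linarith

lemma Bent.zl2 (h : Bent η η1) (t s : ℝ) : |(zc η t s).im| ≤ l / 2 := by
  rw [zc_im]
  have := h.osc t s
  have := l_ge
  linarith

lemma Bent.ko_eq (h : Bent η η1) {t s : ℝ} (hts : s < t) :
    ko η η1 t s = (Us ((t - s : ℝ) : ℂ)).re - (Us (zc η t s)).re := by
  obtain ⟨R, hR⟩ : ∃ R, R = max |t| |s| := ⟨_, rfl⟩
  have h1 := Us_lt (h.small.sX R) (t := t) (t' := s) (hR ▸ le_max_left _ _) (hR ▸ le_max_right _ _) hts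
    (by rw [Di_z]; exact h.zl t s)
  rw [Di_z] at h1
  have h2 := congrArg Complex.re h1
  rw [Complex.sub_re, NUKer.Lw_re] at h2
  rw [Us_ofReal (sub_pos.2 hts)]
  unfold ko zc
  rw [h2]
  unfold ks
  ring

lemma Bent.kx_eq (h : Bent η η1) (t s : ℝ) :
    kx η t s = (Ux ((t - s : ℝ) : ℂ)).re - (Ux (zc η t s)).re := by
  obtain ⟨R, hR⟩ : ∃ R, R = max |t| |s| := ⟨_, rfl⟩
  have h1 := Ux_path (h.small.sXY R) (t := t) (t' := s) (hR ▸ le_max_left _ _) (hR ▸ le_max_right _ _)
    (by rw [Di_z]; exact h.zl t s)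
  rw [Di_z] at h1
  have h2 := congrArg Complex.re h1
  rw [Complex.sub_re, NUKer.Lg_re] at h2
  rw [Ux_ofReal]
  unfold kx zc
  rw [h2]
  unfold NUAct.kx
  ring

lemma Bent.ko_symm (h : Bent η η1) (t s : ℝ) : ko η η1 t s = ko η η1 s t := by
  unfold ko
  rw [← NUKer.Lw_re, ← NUKer.Lw_re, Lw_symm h.Dd h.Dc]

lemma kx_symm (η : ℝ → ℝ) (t s : ℝ) : kx η t s = kx η s t := by
  unfold kx
  rw [← NUKer.Lg_re, ← NUKer.Lg_re, Lg_symm]

/-- slope -/
def slo (η1 : ℝ → ℝ) (t : ℝ) : ℂ := 1 + η1 t * I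

/-- first derivative of `ko` -/
def kot (η η1 : ℝ → ℝ) (t s : ℝ) : ℝ := (Usd ((t - s : ℝ) : ℂ)).re - (Usd (zc η t s) * slo η1 t).re

/-- first derivative of `kx` -/
def kxt (η η1 : ℝ → ℝ) (t s : ℝ) : ℝ := (Uxd ((t - s : ℝ) : ℂ)).re - (Uxd (zc η t s) * slo η1 t).re

/-- mixed derivative of `ko` -/
def Do (η η1 : ℝ → ℝ) (t s : ℝ) : ℝ :=
  ((4 / (Complex.cosh (2 * zc η t s) - 1) + Fo (Complex.cosh (2 * zc η t s))) * sf (η1 t) (η1 s)).re -
    (4 / (Real.cosh (2 * (t - s)) - 1) + FoR (Real.cosh (2 * (t - s))))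

/-- mixed derivative of `kx` -/
def Dx (η η1 : ℝ → ℝ) (t s : ℝ) : ℝ :=
  (Fx (Complex.cosh (2 * zc η t s)) * sf (η1 t) (η1 s)).re - FxR (Real.cosh (2 * (t - s)))

lemma Bent.pw (h : Bent η η1) {t s : ℝ} (hts : s < t) :
    |Do η η1 t s| + |Dx η η1 t s| ≤ 3 / 4 * PV (Real.cosh (2 * (t - s))) := by
  have hx : 0 < t - s := sub_pos.2 hts
  have h1 := pw_bd hx (h.osc t s) (by have := h.lip t s; rwa [abs_of_pos hx] at this) (h.sl t) (h.sl s)
  exact h1

lemma hasDerivAt_x (s t : ℝ) : HasDerivAt (fun t : ℝ => ((t - s : ℝ) : ℂ)) 1 t := by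
  have := ((hasDerivAt_id t).sub_const s).ofReal_comp
  simpa using this

lemma hasDerivAt_xs (s t : ℝ) : HasDerivAt (fun s : ℝ => ((t - s : ℝ) : ℂ)) (-1) s := by
  have := ((hasDerivAt_id s).const_sub t).ofReal_comp
  simpa using this

lemma Bent.zt (h : Bent η η1) (t s : ℝ) : HasDerivAt (fun t => zc η t s) (slo η1 t) t := by
  have h1 := (hasDerivAt_x s t).add ((((h.d t).sub_const (η s)).ofReal_comp).mul_const I)
  exact h1

lemma Bent.zs (h : Bent η η1) (t s : ℝ) : HasDerivAt (fun s => zc η t s) (-slo η1 s) s := by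
  have h1 := (hasDerivAt_xs s t).add ((((h.d s).const_sub (η t)).ofReal_comp).mul_const I)
  refine h1.congr_deriv ?_
  unfold slo
  push_cast
  ring

lemma re_deriv {f : ℝ → ℂ} {f' : ℂ} {t : ℝ} (h : HasDerivAt f f' t) : HasDerivAt (fun t => (f t).re) f'.re t :=
  Complex.reCLM.hasFDerivAt.comp_hasDerivAt t h

lemma real_re {t s : ℝ} (hts : s < t) : 0 < ((t - s : ℝ) : ℂ).re := by
  rw [Complex.ofReal_re]
  linarith

lemma Bent.d1o (h : Bent η η1) {t s : ℝ} (hts : s < t) : HasDerivAt (fun t => ko η η1 t s) (kot η η1 t s) t := by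
  have h1 := (hasDerivAt_Us (real_re hts) (im_real _)).comp t (hasDerivAt_x s t)
  have h2 := (hasDerivAt_Us (z := zc η t s) (by rw [zc_re]; linarith) (h.zl t s)).comp t (h.zt t s)
  have h3 := (re_deriv h1).sub (re_deriv h2)
  rw [mul_one] at h3
  refine h3.congr_of_eventuallyEq ?_
  filter_upwards [lt_mem_nhds hts] with y hy using h.ko_eq hy

lemma Bent.d1x (h : Bent η η1) (t s : ℝ) : HasDerivAt (fun t => kx η t s) (kxt η η1 t s) t := by
  have h1 := (hasDerivAt_Ux (im_real (t - s))).comp t (hasDerivAt_x s t)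
  have h2 := (hasDerivAt_Ux (z := zc η t s) (h.zl t s)).comp t (h.zt t s)
  have h3 := (re_deriv h1).sub (re_deriv h2)
  rw [mul_one] at h3
  refine h3.congr_of_eventuallyEq (Eventually.of_forall fun y => h.kx_eq y s)

lemma cosh_x (x : ℝ) : Complex.cosh (2 * (x : ℂ)) = ((Real.cosh (2 * x) : ℝ) : ℂ) := by
  push_cast
  rfl

lemma Bent.d2o (h : Bent η η1) {t s : ℝ} (hts : s < t) : HasDerivAt (fun s => kot η η1 t s) (Do η η1 t s) s := by
  have h1 := (hasDerivAt_Usd (real_re hts) (im_real _)).comp s (hasDerivAt_xs s t)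
  have h2 := ((hasDerivAt_Usd (z := zc η t s) (by rw [zc_re]; linarith) (h.zl t s)).comp s (h.zs t s)).mul_const (slo η1 t)
  have h3 := (re_deriv h1).sub (re_deriv h2)
  refine h3.congr_deriv ?_
  unfold Do
  rw [cosh_x, Fo_ofReal]
  have e1 : ((4 / (((Real.cosh (2 * (t - s)) : ℝ) : ℂ) - 1) + (FoR (Real.cosh (2 * (t - s))) : ℂ)) * -1).re =
      -(4 / (Real.cosh (2 * (t - s)) - 1) + FoR (Real.cosh (2 * (t - s)))) := by
    rw [← Complex.ofReal_re (-(4 / (Real.cosh (2 * (t - s)) - 1) + FoR (Real.cosh (2 * (t - s)))))]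
    congr 1
    push_cast
    ring
  rw [e1]
  have e2 : (4 / (Complex.cosh (2 * zc η t s) - 1) + Fo (Complex.cosh (2 * zc η t s))) * -slo η1 s * slo η1 t =
      -((4 / (Complex.cosh (2 * zc η t s) - 1) + Fo (Complex.cosh (2 * zc η t s))) * sf (η1 t) (η1 s)) := by
    unfold slo sf
    ring
  rw [e2, Complex.neg_re]
  ring

lemma Bent.d2x (h : Bent η η1) (t s : ℝ) : HasDerivAt (fun s => kxt η η1 t s) (Dx η η1 t s) s := by
  have h1 := (hasDerivAt_Uxd (im_real (t - s))).comp s (hasDerivAt_xs s t)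
  have h2 := ((hasDerivAt_Uxd (z := zc η t s) (h.zl t s)).comp s (h.zs t s)).mul_const (slo η1 t)
  have h3 := (re_deriv h1).sub (re_deriv h2)
  refine h3.congr_deriv ?_
  unfold Dx
  rw [cosh_x, Fx_ofReal]
  have e1 : (((FxR (Real.cosh (2 * (t - s))) : ℝ) : ℂ) * -1).re = -FxR (Real.cosh (2 * (t - s))) := by
    rw [← Complex.ofReal_re (-FxR (Real.cosh (2 * (t - s))))]
    congr 1
    push_cast
    ring
  rw [e1]
  have e2 : Fx (Complex.cosh (2 * zc η t s)) * -slo η1 s * slo η1 t = -(Fx (Complex.cosh (2 * zc η t s)) *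
      sf (η1 t) (η1 s)) := by
    unfold slo sf
    ring
  rw [e2, Complex.neg_re]
  ring

lemma Bent.slo_norm (h : Bent η η1) (t : ℝ) : ‖slo η1 t‖ ≤ 5 / 4 := by
  unfold slo
  refine (norm_add_le _ _).trans ?_
  rw [norm_one, norm_mul, Complex.norm_I, mul_one, Complex.norm_real, Real.norm_eq_abs]
  linarith [h.sl t]

lemma slo_re (η1 : ℝ → ℝ) (t : ℝ) : (slo η1 t).re = 1 := by simp [slo]

lemma Bent.kot_le (h : Bent η η1) {t s : ℝ} (hts : s < t) : |kot η η1 t s| ≤ 14 * dk (t - s) := by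
  have h1 := Usd_dec (real_re hts)
  have h2 := Usd_dec (z := zc η t s) (by rw [zc_re]; linarith)
  rw [Complex.ofReal_re] at h1
  rw [zc_re] at h2
  have e : kot η η1 t s = ((Usd ((t - s : ℝ) : ℂ) + 2) - (Usd (zc η t s) + 2) * slo η1 t).re := by
    unfold kot
    rw [Complex.sub_re, Complex.add_re, add_mul, Complex.add_re]
    have : (2 * slo η1 t).re = 2 := by
      have := slo_re η1 t
      simp [this]
    rw [this]
    simp only [Complex.re_ofNat]
    ring
  rw [e]
  refine (Complex.abs_re_le_norm _).trans ((norm_sub_le _ _).trans ?_)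
  rw [norm_mul]
  have h3 := h.slo_norm t
  have h4 := dk_pos (x := t - s) (by linarith)
  nlinarith [norm_nonneg (slo η1 t), norm_nonneg (Usd (zc η t s) + 2)]

lemma Bent.kxt_le (h : Bent η η1) {t s : ℝ} (hts : s < t) : |kxt η η1 t s| ≤ 14 * dk (t - s) := by
  have h1 := Uxd_dec (real_re hts)
  have h2 := Uxd_dec (z := zc η t s) (by rw [zc_re]; linarith)
  rw [Complex.ofReal_re] at h1
  rw [zc_re] at h2
  have e : kxt η η1 t s = ((Uxd ((t - s : ℝ) : ℂ) - 2) - (Uxd (zc η t s) - 2) * slo η1 t).re := by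
    unfold kxt
    rw [Complex.sub_re, Complex.sub_re, sub_mul, Complex.sub_re]
    have : (2 * slo η1 t).re = 2 := by
      have := slo_re η1 t
      simp [this]
    rw [this]
    simp only [Complex.re_ofNat]
    ring
  rw [e]
  refine (Complex.abs_re_le_norm _).trans ((norm_sub_le _ _).trans ?_)
  rw [norm_mul]
  have h3 := h.slo_norm t
  have h4 := dk_pos (x := t - s) (by linarith)
  nlinarith [norm_nonneg (slo η1 t), norm_nonneg (Uxd (zc η t s) - 2)]

/-- increments of a potential with its linear part taken off -/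
lemma incr {f f' : ℂ → ℂ} {c : ℝ} (hf : ∀ w : ℂ, 0 < w.re → |w.im| ≤ l / 2 → HasDerivAt f (f' w) w)
    (hb : ∀ w : ℂ, 0 < w.re → ‖f' w + (c : ℂ)‖ ≤ 6 * dk w.re) {x δ : ℝ} (hx : 0 < x) (hδ : |δ| ≤ l / 2) :
    |(f (x : ℂ)).re - (f ((x : ℂ) + δ * I)).re| ≤ 6 * dk x * |δ| := by
  have hl := l_pos
  have h1 := Convex.norm_image_sub_le_of_norm_hasDerivWithin_le (f := fun w => f w + (c : ℂ) * w)
    (f' := fun w => f' w + (c : ℂ)) (C := 6 * dk x) (s := {w : ℂ | x ≤ w.re ∧ |w.im| ≤ l / 2}) (x := (x : ℂ))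
    (y := (x : ℂ) + δ * I)
    (fun w hw => ((hf w (lt_of_lt_of_le hx hw.1) hw.2).add
      (by simpa using (hasDerivAt_id w).const_mul (c : ℂ))).hasDerivWithinAt)
    (fun w hw => (hb w (lt_of_lt_of_le hx hw.1)).trans (by
      have := dk_anti hx hw.1
      linarith))
    (convex_HSt' (l / 2) x) ⟨by simp, by simp; linarith⟩ ⟨by simp, by simpa using hδ⟩
  have e : ‖((x : ℂ) + δ * I) - (x : ℂ)‖ = |δ| := by
    rw [add_sub_cancel_left, norm_mul, Complex.norm_I, mul_one, Complex.norm_real, Real.norm_eq_abs]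
  rw [e] at h1
  have h2 := (Complex.abs_re_le_norm _).trans h1
  have e2 : (f ((x : ℂ) + δ * I) + (c : ℂ) * ((x : ℂ) + δ * I) - (f (x : ℂ) + (c : ℂ) * (x : ℂ))).re =
      (f ((x : ℂ) + δ * I)).re - (f (x : ℂ)).re := by
    simp
  rw [e2, abs_sub_comm] at h2
  exact h2

lemma Bent.ko_le (h : Bent η η1) {t s : ℝ} (hts : s < t) : |ko η η1 t s| ≤ 6 * dk (t - s) * |η t - η s| := by
  rw [h.ko_eq hts]
  have hl := l_pos
  refine incr (f := Us) (f' := Usd) (c := 2) (fun w h0 h1 => hasDerivAt_Us h0 (by linarith)) (fun w h0 => ?_)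
    (sub_pos.2 hts) (by have := h.zl2 t s; rwa [zc_im] at this)
  have := Usd_dec h0
  simpa using this

lemma Bent.kx_le (h : Bent η η1) {t s : ℝ} (hts : s < t) : |kx η t s| ≤ 6 * dk (t - s) * |η t - η s| := by
  rw [h.kx_eq]
  have hl := l_pos
  refine incr (f := Ux) (f' := Uxd) (c := -2) (fun w h0 h1 => hasDerivAt_Ux (by linarith)) (fun w h0 => ?_)
    (sub_pos.2 hts) (by have := h.zl2 t s; rwa [zc_im] at this)
  have := Uxd_dec h0
  push_cast
  rwa [← sub_eq_add_neg]

lemma tend_t {f : ℝ → ℝ} {C s : ℝ} (hf : ∀ t, s < t → |f t| ≤ C * dk (t - s)) : Tendsto f atTop (𝓝 0) := by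
  have h := (dk_tend (-s)).const_mul C
  rw [mul_zero] at h
  refine squeeze_zero_norm' ?_ h
  filter_upwards [eventually_gt_atTop s] with t ht
  rw [Real.norm_eq_abs, ← sub_eq_add_neg]
  exact hf t ht

lemma tend_s {f : ℝ → ℝ} {C t : ℝ} (hf : ∀ s, s < t → |f s| ≤ C * dk (t - s)) : Tendsto f atBot (𝓝 0) := by
  have h1 : Tendsto (fun s => f (-s)) atTop (𝓝 0) := by
    refine tend_t (C := C) (s := -t) fun s hs => ?_
    have := hf (-s) (by linarith)
    rwa [show t - -s = s - -t by ring] at this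
  have h2 := h1.comp tendsto_neg_atBot_atTop
  refine h2.congr fun s => ?_
  simp

lemma Fo_meas : Measurable Fo := by
  unfold Fo
  fun_prop

lemma Fx_meas : Measurable Fx := by
  unfold Fx
  fun_prop

lemma FoR_meas : Measurable FoR := by
  unfold FoR
  fun_prop

lemma FxR_meas : Measurable FxR := by
  unfold FxR
  fun_prop

lemma Bent.ηc (h : Bent η η1) : Continuous η := continuous_iff_continuousAt.2 fun t => (h.d t).continuousAt

lemma Bent.ch (h : Bent η η1) : Continuous fun p : ℝ × ℝ => Complex.cosh (2 * zc η p.1 p.2) := by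
  have := h.ηc
  unfold zc
  exact Complex.continuous_cosh.comp (by fun_prop)

lemma Bent.sfc (h : Bent η η1) : Continuous fun p : ℝ × ℝ => sf (η1 p.1) (η1 p.2) := by
  have := h.c
  unfold sf
  fun_prop

lemma Bent.Do_meas (h : Bent η η1) : Measurable fun p : ℝ × ℝ => Do η η1 p.1 p.2 := by
  have h1 := h.ch.measurable
  have h2 := h.sfc.measurable
  have h3 : Measurable fun p : ℝ × ℝ => Real.cosh (2 * (p.1 - p.2)) :=
    (Real.continuous_cosh.comp (by fun_prop)).measurable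
  unfold Do
  exact (Complex.measurable_re.comp (((measurable_const.div (h1.sub_const 1)).add (Fo_meas.comp h1)).mul h2)).sub
    ((measurable_const.div (h3.sub_const 1)).add (FoR_meas.comp h3))

lemma Bent.Dx_meas (h : Bent η η1) : Measurable fun p : ℝ × ℝ => Dx η η1 p.1 p.2 := by
  have h1 := h.ch.measurable
  have h2 := h.sfc.measurable
  have h3 : Measurable fun p : ℝ × ℝ => Real.cosh (2 * (p.1 - p.2)) :=
    (Real.continuous_cosh.comp (by fun_prop)).measurable
  unfold Dx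
  exact (Complex.measurable_re.comp ((Fx_meas.comp h1).mul h2)).sub (FxR_meas.comp h3)

/-- own plus cross -/
theorem Bent.ddp (h : Bent η η1) : KF.Dd (fun t s => ko η η1 t s + kx η t s) (fun t s => kot η η1 t s + kxt η η1 t s)
    (fun t s => Do η η1 t s + Dx η η1 t s) (3 / 4) where
  sy t s := by rw [h.ko_symm, kx_symm]
  Dm := h.Do_meas.add h.Dx_meas
  Db t s hts := (abs_add_le _ _).trans (h.pw hts)
  d1 t s hts := (h.d1o hts).add (h.d1x t s)
  d2 t s hts := (h.d2o hts).add (h.d2x t s)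
  lt t := by
    have h1 := (tend_s (fun s hs => h.kot_le (t := t) hs)).add (tend_s (fun s hs => h.kxt_le (t := t) hs))
    rwa [add_zero] at h1
  lk s := by
    have k : ∀ (t : ℝ), s < t → ∀ K : ℝ, |K| ≤ 6 * dk (t - s) * |η t - η s| → |K| ≤ 1 * dk (t - s) := by
      intro t ht K hK
      refine hK.trans ?_
      have h1 := h.osc t s
      have h2 := dk_pos (x := t - s) (by linarith)
      nlinarith
    have h1 := (tend_t (C := 1) (s := s) (fun t ht => k t ht _ (h.ko_le (s := s) ht))).add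
      (tend_t (C := 1) (s := s) (fun t ht => k t ht _ (h.kx_le (s := s) ht)))
    rwa [add_zero] at h1

/-- own minus cross -/
theorem Bent.ddm (h : Bent η η1) : KF.Dd (fun t s => ko η η1 t s - kx η t s) (fun t s => kot η η1 t s - kxt η η1 t s)
    (fun t s => Do η η1 t s - Dx η η1 t s) (3 / 4) where
  sy t s := by rw [h.ko_symm, kx_symm]
  Dm := h.Do_meas.sub h.Dx_meas
  Db t s hts := (abs_sub _ _).trans (h.pw hts)
  d1 t s hts := (h.d1o hts).sub (h.d1x t s)
  d2 t s hts := (h.d2o hts).sub (h.d2x t s)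
  lt t := by
    have h1 := (tend_s (fun s hs => h.kot_le (t := t) hs)).sub (tend_s (fun s hs => h.kxt_le (t := t) hs))
    rwa [sub_zero] at h1
  lk s := by
    have k : ∀ (t : ℝ), s < t → ∀ K : ℝ, |K| ≤ 6 * dk (t - s) * |η t - η s| → |K| ≤ 1 * dk (t - s) := by
      intro t ht K hK
      refine hK.trans ?_
      have h1 := h.osc t s
      have h2 := dk_pos (x := t - s) (by linarith)
      nlinarith
    have h1 := (tend_t (C := 1) (s := s) (fun t ht => k t ht _ (h.ko_le (s := s) ht))).sub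
      (tend_t (C := 1) (s := s) (fun t ht => k t ht _ (h.kx_le (s := s) ht)))
    rwa [sub_zero] at h1

/-! ### pairs -/

lemma Nc.add {ν ν' : ℝ → ℝ} (h : Nc ν) (h' : Nc ν') : Nc fun t => ν t + ν' t := by
  obtain ⟨B, hB⟩ := h.b
  obtain ⟨B', hB'⟩ := h'.b
  exact ⟨h.m.add h'.m, h.i.add h'.i, B + B', fun t => (abs_add_le _ _).trans (add_le_add (hB t) (hB' t))⟩

lemma Nc.sub {ν ν' : ℝ → ℝ} (h : Nc ν) (h' : Nc ν') : Nc fun t => ν t - ν' t := by
  obtain ⟨B, hB⟩ := h.b
  obtain ⟨B', hB'⟩ := h'.b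
  exact ⟨h.m.sub h'.m, h.i.sub h'.i, B + B', fun t => (abs_sub _ _).trans (add_le_add (hB t) (hB' t))⟩

/-- the form of a pair of kernels on a pair of densities -/
def PF (o x : ℝ → ℝ → ℝ) (νX νY : ℝ → ℝ) : ℝ := BF o νX νX + BF o νY νY + BF x νX νY + BF x νY νX

lemma pair_int {o x pt pD mt mD : ℝ → ℝ → ℝ} {θ θ' : ℝ} (hp : Dd (fun t s => o t s + x t s) pt pD θ)
    (hm : Dd (fun t s => o t s - x t s) mt mD θ') {ν ν' : ℝ → ℝ} (h : Nc ν) (h' : Nc ν') :
    Integrable (fun z : ℝ × ℝ => ν z.1 * ν' z.2 * o z.1 z.2) ∧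
      Integrable (fun z : ℝ × ℝ => ν z.1 * ν' z.2 * x z.1 z.2) := by
  have h1 := (hp.k_int h h').1
  have h2 := (hm.k_int h h').1
  constructor
  · refine ((h1.add h2).const_mul (1 / 2)).congr (Eventually.of_forall fun z => ?_)
    simp only [Pi.add_apply]
    ring
  · refine ((h1.sub h2).const_mul (1 / 2)).congr (Eventually.of_forall fun z => ?_)
    simp only [Pi.sub_apply]
    ring

/-- **the form of a pair of kernels** -/
theorem pair_form {o x pt pD mt mD : ℝ → ℝ → ℝ} {θ : ℝ} (hp : Dd (fun t s => o t s + x t s) pt pD θ)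
    (hm : Dd (fun t s => o t s - x t s) mt mD θ) {νX νY : ℝ → ℝ} (hX : Nc νX) (hY : Nc νY) :
    |PF o x νX νY| ≤ θ * (VF νX νX + VF νY νY) := by
  have hP := hX.add hY
  have hM := hX.sub hY
  have e : 2 * PF o x νX νY = BF (fun t s => o t s + x t s) (fun t => νX t + νY t) (fun t => νX t + νY t) +
      BF (fun t s => o t s - x t s) (fun t => νX t - νY t) (fun t => νX t - νY t) := by
    obtain ⟨a1, -⟩ := pair_int hp hm hX hX
    obtain ⟨a2, -⟩ := pair_int hp hm hY hY
    obtain ⟨-, a3⟩ := pair_int hp hm hX hY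
    obtain ⟨-, a4⟩ := pair_int hp hm hY hX
    have a12 : Integrable (fun z : ℝ × ℝ => νX z.1 * νX z.2 * o z.1 z.2 + νY z.1 * νY z.2 * o z.1 z.2) := a1.add a2
    have a123 : Integrable (fun z : ℝ × ℝ => νX z.1 * νX z.2 * o z.1 z.2 + νY z.1 * νY z.2 * o z.1 z.2 +
      νX z.1 * νY z.2 * x z.1 z.2) := a12.add a3
    unfold PF
    rw [BF_eq o a1, BF_eq o a2, BF_eq x a3, BF_eq x a4, BF_eq _ (hp.k_int hP hP).1, BF_eq _ (hm.k_int hM hM).1,
      ← integral_add a1 a2, ← integral_add a12 a3, ← integral_add a123 a4,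
      ← integral_const_mul, ← integral_add (hp.k_int hP hP).1 (hm.k_int hM hM).1]
    refine integral_congr_ae (Eventually.of_forall fun z => ?_)
    simp only
    ring
  have ev : 2 * (VF νX νX + VF νY νY) = VF (fun t => νX t + νY t) (fun t => νX t + νY t) +
      VF (fun t => νX t - νY t) (fun t => νX t - νY t) := by
    have b1 := nV_int hX hX
    have b2 := nV_int hY hY
    have b3 := nV_int hP hP
    have b4 := nV_int hM hM
    have c : ∀ {ν : ℝ → ℝ}, Integrable (fun z : ℝ × ℝ => ν z.1 * ν z.2 * V (z.1 - z.2)) →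
        VF ν ν = ∫ z : ℝ × ℝ, ν z.1 * ν z.2 * V (z.1 - z.2) := fun {ν} hi => BF_eq (fun t s => V (t - s)) hi
    rw [c b1, c b2, c b3, c b4, ← integral_add b1 b2, ← integral_add b3 b4, ← integral_const_mul]
    refine integral_congr_ae (Eventually.of_forall fun z => ?_)
    simp only
    ring
  have h1 := hp.form hP
  have h2 := hm.form hM
  have h3 := abs_add_le (BF (fun t s => o t s + x t s) (fun t => νX t + νY t) (fun t => νX t + νY t))
    (BF (fun t s => o t s - x t s) (fun t => νX t - νY t) (fun t => νX t - νY t))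
  rw [← e, abs_mul, abs_two] at h3
  have h4 : θ * (2 * (VF νX νX + VF νY νY)) = θ * VF (fun t => νX t + νY t) (fun t => νX t + νY t) +
      θ * VF (fun t => νX t - νY t) (fun t => νX t - νY t) := by rw [ev, mul_add]
  linarith

/-- **(O1)** for the static curve -/
theorem Bent.O1 (h : Bent η η1) {νX νY : ℝ → ℝ} (hX : Nc νX) (hY : Nc νY) :
    |PF (ko η η1) (kx η) νX νY| ≤ 3 / 4 * (VF νX νX + VF νY νY) := pair_form h.ddp h.ddm hX hY

/-- continuous densities with exponential decay -/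
lemma nc_exp {ν : ℝ → ℝ} (hc : Continuous ν) {M a : ℝ} (ha : 0 < a) (hb : ∀ t, |ν t| ≤ M * Real.exp (-a * |t|)) : Nc ν := by
  have hM : 0 ≤ M := by
    have := (abs_nonneg _).trans (hb 0)
    simpa using this
  have hi : Integrable fun t : ℝ => M * Real.exp (-a * |t|) := by
    refine Integrable.const_mul ?_ M
    exact int_exp_abs ha
  refine ⟨hc.measurable, hi.mono' hc.aestronglyMeasurable (Eventually.of_forall fun t => by
    rw [Real.norm_eq_abs]
    exact hb t), M, fun t => (hb t).trans ?_⟩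
  refine mul_le_of_le_one_right hM (Real.exp_le_one_iff.2 ?_)
  have := abs_nonneg t
  nlinarith

end

end PLT.KF
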