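import Pool.Agent.PLT.KersD
import Pool.Agent.PLT.KerB

/-!
# Decay of the static kernels of the curve

`ks_dec`: `|ksW t t'|, |ksG t t'| <= C e^{-(|t| + |t'|) / 2}`, constants of `B : SeaCB` only; from the decay of the slope of
the curve only.
-/

set_option autoImplicit false
set_option linter.unusedSectionVars false

open MeasureTheory Set Filter Topology Complex

namespace PLT

open NUMF NUKer NUAct KF

noncomputable section

section

variable [SeaC]

/-- the static curve is bent in the sense of `KerF2` -/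
lemma bent_eta : Bent Cv.eta (deriv Cv.eta) where
  d := Cv.hasDerivAt_eta
  c := Cv.continuous_eta'
  osc := fun t s => (Cv.eta_osc' t s).trans (by
    have h1 := Real.pi_lt_d2
    have h3 : l = Real.pi / 8 := rfl
    rw [h3]
    linarith)
  sl := Cv.eta'_le

lemma ksW_eq_ko (t s : ℝ) : ksW t s = ko Cv.eta (deriv Cv.eta) t s := rfl

lemma ksG_eq_kx (t s : ℝ) : ksG t s = kx Cv.eta t s := rfl

end

/-- `dk x * |η t - η s|` for a decaying slope -/
lemma dk_incr {C : ℝ} {η η1 : ℝ → ℝ} (hd : ∀ t, HasDerivAt η (η1 t) t) (hC : 0 ≤ C)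
    (h1 : ∀ t, |η1 t| ≤ C * Real.exp (-|t|)) {t s : ℝ} (hts : s < t) :
    dk (t - s) * |η t - η s| ≤ C * Real.exp (-(1 / 2 * |t|) - 1 / 2 * |s|) := by
  have hx : 0 < t - s := sub_pos.2 hts
  have hb : ∀ u ∈ Icc s t, ‖η1 u‖ ≤ C * Real.exp ((t - s) - 1 / 2 * |t| - 1 / 2 * |s|) := by
    intro u hu
    rw [Real.norm_eq_abs]
    refine (h1 u).trans (mul_le_mul_of_nonneg_left (Real.exp_le_exp.2 ?_) hC)
    have e1 : |t| ≤ |u| + (t - s) := by
      have := abs_add_le u (t - u)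
      rw [add_sub_cancel, abs_of_nonneg (by linarith [hu.2] : 0 ≤ t - u)] at this
      linarith [hu.1]
    have e2 : |s| ≤ |u| + (t - s) := by
      have := abs_add_le u (s - u)
      rw [add_sub_cancel, abs_of_nonpos (by linarith [hu.1] : s - u ≤ 0)] at this
      linarith [hu.2]
    linarith
  have h2 := Convex.norm_image_sub_le_of_norm_hasDerivWithin_le (f := η) (f' := η1)
    (C := C * Real.exp ((t - s) - 1 / 2 * |t| - 1 / 2 * |s|)) (s := Icc s t) (x := s) (y := t)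
    (fun u _ => (hd u).hasDerivWithinAt) hb (convex_Icc s t) ⟨le_rfl, hts.le⟩ ⟨hts.le, le_rfl⟩
  rw [Real.norm_eq_abs, Real.norm_eq_abs, abs_of_pos hx] at h2
  have h3 : dk (t - s) ≤ Real.exp (-(t - s)) / (t - s) := by
    unfold dk
    exact div_le_div_of_nonneg_left (Real.exp_pos _).le hx (Real.self_le_sinh_iff.2 hx.le)
  have e3 : Real.exp (-(t - s)) * Real.exp ((t - s) - 1 / 2 * |t| - 1 / 2 * |s|) =
      Real.exp (-(1 / 2 * |t|) - 1 / 2 * |s|) := by
    rw [← Real.exp_add]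
    congr 1
    ring
  calc dk (t - s) * |η t - η s| ≤ Real.exp (-(t - s)) / (t - s) *
        (C * Real.exp ((t - s) - 1 / 2 * |t| - 1 / 2 * |s|) * (t - s)) :=
        mul_le_mul h3 h2 (abs_nonneg _) (by positivity)
    _ = C * (Real.exp (-(t - s)) * Real.exp ((t - s) - 1 / 2 * |t| - 1 / 2 * |s|)) := by
        field_simp
    _ = _ := by rw [e3]

/-- bound off the diagonal gives the bound everywhere -/
lemma bd_diag {k : ℝ → ℝ → ℝ} {C : ℝ} (hc : Continuous fun z : ℝ × ℝ => k z.1 z.2) (hs : ∀ t s, k t s = k s t)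
    (h : ∀ t s, s < t → |k t s| ≤ C * Real.exp (-(1 / 2 * |t|) - 1 / 2 * |s|)) (t s : ℝ) :
    |k t s| ≤ C * Real.exp (-(1 / 2 * |t|) - 1 / 2 * |s|) := by
  rcases lt_trichotomy s t with h1 | h1 | h1
  · exact h t s h1
  · subst h1
    have c1 : Continuous fun u : ℝ => |k s u| :=
      continuous_abs.comp (hc.comp (by fun_prop : Continuous fun u : ℝ => (s, u)))
    have c2 : Continuous fun u : ℝ => C * Real.exp (-(1 / 2 * |s|) - 1 / 2 * |u|) := by fun_prop
    refine le_of_tendsto_of_tendsto (b := 𝓝[<] s) ((c1.tendsto s).mono_left nhdsWithin_le_nhds)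
      ((c2.tendsto s).mono_left nhdsWithin_le_nhds) ?_
    filter_upwards [self_mem_nhdsWithin] with u hu
    exact h s u hu
  · rw [hs t s]
    refine (h s t h1).trans (le_of_eq ?_)
    congr 2
    ring

/-- decay of the static kernels, explicit exponent -/
theorem ks_dec_half (B : SeaCB) : ∃ C : ℝ, 0 ≤ C ∧ ∀ [SeaC] [SeaCU B],
    (∀ t s, |ksW t s| ≤ C * Real.exp (-(1 / 2 * |t|) - 1 / 2 * |s|)) ∧
    ∀ t s, |ksG t s| ≤ C * Real.exp (-(1 / 2 * |t|) - 1 / 2 * |s|) := by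
  obtain ⟨C, hC, H⟩ := Cv.eta'_exp B
  refine ⟨6 * C, by positivity, ?_⟩
  intro _ _
  have h1 : ∀ t, |deriv Cv.eta t| ≤ C * Real.exp (-|t|) := by
    intro t
    refine (H t).trans (mul_le_mul_of_nonneg_left (Real.exp_le_exp.2 ?_) hC)
    have := abs_nonneg t
    linarith
  have h2 : ∀ t s, s < t → 6 * dk (t - s) * |Cv.eta t - Cv.eta s| ≤
      6 * C * Real.exp (-(1 / 2 * |t|) - 1 / 2 * |s|) := by
    intro t s hts
    have := dk_incr Cv.hasDerivAt_eta hC h1 hts
    linarith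
  constructor
  · exact bd_diag ksW_cont ksW_symm fun t s hts => (bent_eta.ko_le hts).trans (h2 t s hts)
  · exact bd_diag ksG_cont ksG_symm fun t s hts => (bent_eta.kx_le hts).trans (h2 t s hts)

/-- **decay of the static kernels** -/
theorem ks_dec (B : SeaCB) : ∃ Cs c0 : ℝ, 0 < c0 ∧ 0 ≤ Cs ∧ ∀ [SeaC] [SeaCU B],
    (∀ t t', |ksW t t'| ≤ Cs * Real.exp (-(c0 * |t|) - c0 * |t'|)) ∧
    ∀ t t', |ksG t t'| ≤ Cs * Real.exp (-(c0 * |t|) - c0 * |t'|) := by
  obtain ⟨C, hC, H⟩ := ks_dec_half B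
  exact ⟨C, 1 / 2, by norm_num, hC, @fun _ _ => H⟩

end

end PLT
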