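import Pool.Agent.PLT.KStat
import Pool.Agent.PLT.KersF
import Pool.Agent.PLT.KsV

/-!
# The static kernels of the curve of a sea

* `exists_cu7 B`: the static curve is a `Cu7 M`, `M` of `B` only;
* **`exists_stk B`**: `StK R (K R^17) (iD eta) (iD eta')`, `K` of `B` only; `stKB B : StKB B` (the kernels of the curves: 78's PLT/KersC).
-/

set_option autoImplicit false
set_option linter.unusedSectionVars false

open MeasureTheory Set Filter Topology Complex
open scoped ContDiff

namespace PLT

open NUMF (l l_pos)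
open NUKer NUOC NUR2

noncomputable section

/-- the derivatives of a real function with complex values -/
theorem KB.iter_ofReal {f : ℝ → ℝ} (hf : ContDiff ℝ ∞ f) (n : ℕ) :
    iteratedDeriv n (fun t => (f t : ℂ)) = fun t => ((iteratedDeriv n f t : ℝ) : ℂ) := by
  induction n with
  | zero => simp only [iteratedDeriv_zero]
  | succ n ih =>
    rw [iteratedDeriv_succ, ih, iteratedDeriv_succ]
    funext t
    have h1 : DifferentiableAt ℝ (iteratedDeriv n f) t :=
      (hf.differentiable_iteratedDeriv n (by exact_mod_cast ENat.natCast_lt_top n)) t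
    exact (h1.hasDerivAt.ofReal_comp).deriv

/-- **the static curve has seven bounded derivatives** -/
theorem KB.exists_cu7 (B : SeaCB) : ∃ M : ℝ, ∀ [SeaC] [SeaCU B], KB.Cu7 M Cv.eta (deriv Cv.eta) := by
  refine ⟨1 + ∑ i ∈ Finset.range 8, B.Ce i, @fun S hS => ⟨bent_eta, ?_, fun n hn t => ?_⟩⟩
  · exact Complex.ofRealCLM.contDiff.comp (contDiff_infty.1 Cv.eta_smooth 7)
  · have hs : 0 ≤ ∑ i ∈ Finset.range 8, B.Ce i := Finset.sum_nonneg fun i _ => B.Ce0 i
    rw [KB.iter_ofReal Cv.eta_smooth n]
    simp only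
    rw [Complex.norm_real, Real.norm_eq_abs]
    rcases Nat.eq_zero_or_pos n with rfl | h0
    · rw [iteratedDeriv_zero]
      have h1 := Cv.eta_h B t
      have h2 := Cv.eta_l4 B t
      have h3 := B.h1
      have h4 := l_pos
      have h5 : l ≤ 1 := by
        unfold NUMF.l
        have := Real.pi_le_four
        linarith
      have h6 : |Cv.eta t| ≤ 1 := by
        rw [abs_le]
        constructor <;> linarith
      linarith
    · have h1 : |iteratedDeriv n Cv.eta t| ≤ B.Ce n * Real.exp (-(32 / 3) * |t|) := by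
        exact hS.cur n t h0
      have h2 : Real.exp (-(32 / 3) * |t|) ≤ 1 := by
        rw [Real.exp_le_one_iff]
        have := abs_nonneg t
        linarith
      have h3 := mul_le_mul_of_nonneg_left h2 (B.Ce0 n)
      have h4 : B.Ce n ≤ ∑ i ∈ Finset.range 8, B.Ce i :=
        Finset.single_le_sum (f := B.Ce) (fun i _ => B.Ce0 i) (Finset.mem_range.2 (by omega))
      linarith

/-- **the static kernels** -/
theorem exists_stk (B : SeaCB) : ∃ K : ℝ, 1 ≤ K ∧ ∀ [SeaC] [SeaCU B], ∀ R : ℝ, 1 ≤ R →
    StK R (K * R ^ 17) (iD Cv.eta) (iD (deriv Cv.eta)) := by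
  obtain ⟨M, hM⟩ := KB.exists_cu7 B
  obtain ⟨K, hK, H⟩ := KB.exists_stk_of M
  exact ⟨K, hK, @fun S hS R hR => H _ _ hM R hR⟩

theorem stKB (B : SeaCB) : StKB B := exists_stk B

end

end PLT
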