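import Pool.Agent.PLT.KersF
import Pool.Agent.PLT.KStC

/-!
# All kernels of the transport argument on a bent curve (helper78; static part: helper2, KStat, KStC)

**`exists_kersC`**.
-/

set_option autoImplicit false
set_option linter.unusedSectionVars false

open Complex Set Filter MeasureTheory

namespace PLT

open NUKer NUOC NUR2

noncomputable section

/-- the static kernel functions of a family of seas -/
theorem stkB (B : SeaCB) : StKB B := exists_stk B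

/-- **all kernels of the transport argument** -/
theorem exists_kersC (B : SeaCB) : ∃ K : ℝ, 1 ≤ K ∧ ∀ [SeaC] [SeaCU B], ∀ R : ℝ, 1 ≤ R → ∀ (lam lam0 : ℝ)
    (ηX ηX1 ηY ηY1 ξX ξX1 ξY ξY1 : ℝ → ℝ), O 4 lam ηX → O 4 lam ηY → O 4 lam0 ξX → O 4 lam0 ξY →
    (∀ x, HasDerivAt ηX (ηX1 x) x) → (∀ x, HasDerivAt ηY (ηY1 x) x) →
    (∀ x, HasDerivAt ξX (ξX1 x) x) → (∀ x, HasDerivAt ξY (ξY1 x) x) →
    (∀ x, |x| ≤ R → |x + ξX x| ≤ R) → (∀ x, |x| ≤ R → |x + ξY x| ≤ R) →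
    K * R ^ 20 * (lam + lam0) ≤ 1 →
    KersC R (K * R ^ 20) (K * R ^ 20 * lam) (K * R ^ 20 * (lam + lam0)) ηX ηX1 ηY ηY1 ξX ξX1 ξY ξY1 :=
  kersC_of (exists_stk B)

end

end PLT
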