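import Pool.Agent.PLT.KdP
import Pool.Agent.PLT.KersC

/-!
# THETA, row B: the moving kernels of the data of a configuration: all bounds (helper69)

**`exists_kdC`**: they vanish far away; pointwise bound; class `KC R (K R ^ J ε)` as long as `K R ^ J ε ≤ 1`.
-/

set_option autoImplicit false
set_option linter.unusedSectionVars false
set_option linter.unusedVariables false

open MeasureTheory Set Filter Topology Complex

namespace PLT.Cv

open NUKer
open NUOC
open NUSea.PLX.H0 (Inp)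

noncomputable section

private lemma O_zero (k : ℕ) : NUOC.O k 0 (fun _ : ℝ => (0 : ℝ)) := O.const k (by simp)

/-- **the moving kernels** -/
theorem exists_kdC (B : SeaCB) : ∃ (K : ℝ) (J : ℕ), 1 ≤ K ∧ ∀ [SeaC] [SeaCU B], ∀ {lo hi Cp ε M b : ℝ}
    {e : ℝ → ℝ} {I : Inp}, IOkC B lo hi Cp ε M b e I → K * ε ≤ 1 → ∀ {σ : ℝ}, 0 < σ → (∀ a, σ ≤ I.s a) →
    ∀ {r : ℕ} {O : Fin r → Oc},
    (∀ a d t t', b < |t| → b < |t'| → (datC I O).kd a d t t' = 0) ∧
    (∀ a d t t', |(datC I O).kd a d t t'| ≤ K * ε * Real.exp (-|t - t'|) +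
      K * (M / σ) * (Real.exp (-|t|) + Real.exp (-|t'|))) ∧
    ∀ R, 1 ≤ R → K * R ^ J * ε ≤ 1 → ∀ a d, KC R (K * R ^ J * ε)
      (fun t t' => (((datC I O).kd a d t t' : ℝ) : ℂ)) := by
  obtain ⟨K1, hK1, H1⟩ := exists_Dt B
  obtain ⟨K2, hK2, H2⟩ := exists_kdP B
  obtain ⟨K3, hK3, H3⟩ := exists_zW (stkB B)
  obtain ⟨K4, hK4, H4⟩ := exists_zG (stkB B)
  obtain ⟨K, hK⟩ : ∃ K : ℝ, K = K1 + K2 + K3 + K4 := ⟨_, rfl⟩
  refine ⟨K, 20, by rw [hK]; linarith, @fun _ hS lo hi Cp ε M b e I h hε σ hσ hs r O => ?_⟩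
  have hc0 := (h.cur true).ε0
  have le : ∀ {k y : ℝ}, k ≤ K → 0 ≤ y → K * y ≤ 1 → k * y ≤ 1 := fun hk hy hKy =>
    (mul_le_mul_of_nonneg_right hk hy).trans hKy
  refine ⟨fun a d t t' ht ht' => ?_, fun a d t t' => ?_, fun R hR hRε a d => ?_⟩
  · exact datC_kb h (fun a => (H1 (h.s0 a) (le (by rw [hK]; linarith) hc0 hε) (h.cur a) (h.der a)).1) a d ht ht'
  · have hM : 0 ≤ M := (mul_nonneg (mul_nonneg (h.s0 true) (P_pos (B := B) 0).le) ((h.cur true).nonneg 0)).trans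
      ((h.cur true).mass 0)
    refine (H2 h (le (by rw [hK]; linarith) hc0 hε) hσ hs (O := O) a d t t').trans (add_le_add ?_ ?_)
    · exact mul_le_mul_of_nonneg_right (mul_le_mul_of_nonneg_right (by rw [hK]; linarith) hc0) (Real.exp_pos _).le
    · exact mul_le_mul_of_nonneg_right (mul_le_mul_of_nonneg_right (by rw [hK]; linarith) (by positivity))
        (by positivity)
  · have hRp : 0 ≤ R ^ 20 * ε := by positivity
    have e1 : ∀ k : ℝ, k * R ^ 20 * ε = k * (R ^ 20 * ε) := fun k => by ring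
    have hm : ∀ {k : ℝ}, k ≤ K → k * R ^ 20 * (ε + 0) ≤ 1 := fun {k} hk => by
      rw [add_zero, e1]
      rw [e1] at hRε
      exact le hk hRp hRε
    have hmo : ∀ {k : ℝ}, k ≤ K → k * R ^ 20 * ε ≤ K * R ^ 20 * ε := fun {k} hk => by
      rw [e1, e1]
      exact mul_le_mul_of_nonneg_right hk hRp
    have hd0 : ∀ x : ℝ, HasDerivAt (fun _ : ℝ => (0 : ℝ)) ((fun _ : ℝ => (0 : ℝ)) x) x := fun x =>
      hasDerivAt_const x (0 : ℝ)
    rcases eq_or_ne a d with rfl | had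
    · have hz := H3 R hR ε 0 (I.η a) (I.η1 a) (fun _ => 0) (fun _ => 0) (h.cur a).O4 (O_zero 4) (h.der a) hd0
        (hm (by rw [hK]; linarith))
      refine (hz.rn.mono (hmo (by rw [hK]; linarith))).congr fun t t' _ _ => ?_
      have e0 : (datC I O).kd a a t t' = (datC I O).κ a a t t' - ksC a a t t' := rfl
      rw [e0]
      unfold Gs.Dat.κ ksC
      rw [if_pos rfl, if_pos rfl]
      rfl
    · have hz := H4 R hR ε 0 (I.η a) (I.η1 a) (I.η d) (I.η1 d) (fun _ => 0) (fun _ => 0) (fun _ => 0) (fun _ => 0)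
        (h.cur a).O4 (h.cur d).O4 (O_zero 4) (O_zero 4) (h.der a) (h.der d) hd0 hd0 (hm (by rw [hK]; linarith))
      refine (hz.rn.mono (hmo (by rw [hK]; linarith))).congr fun t t' _ _ => ?_
      have e0 : (datC I O).kd a d t t' = (datC I O).κ a d t t' - ksC a d t t' := rfl
      rw [e0]
      unfold Gs.Dat.κ ksC
      rw [if_neg had, if_neg had]
      rfl

end

end PLT.Cv
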