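import Pool.Agent.PLT.InsP
import Pool.Agent.PLT.KdQ

/-!
# The moving kernels of a configuration on a static curve

**`kdC`**: `KdC B Q` for every class of seas (helper69's `exists_kdC`).
-/

set_option autoImplicit false

noncomputable section

namespace PLT.Cv

/-- **the moving kernels** -/
theorem kdC (B : SeaCB) (Q : Par7) : KdC B Q := by
  obtain ⟨K, J, hK, H⟩ := exists_kdC B
  refine ⟨K, J, hK, ?_⟩
  intro _ _ ε M b e I h hε σ h0 hs r O
  exact H h hε h0 hs

end PLT.Cv

end
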