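import Pool.Agent.PLT.DatC

/-!
# The static kernels on bounded densities

`KsB K c`: decay of the static kernels and of their first derivatives; **`KsP_C1`**: `KsP ν a` is `C^1`, it and its
derivative are at most `(4 K / c) CB e^{-c|t|}` for `|ν| ≤ CB`; `KsP_en`: energies.
-/

set_option autoImplicit false
set_option linter.unusedSectionVars false
set_option linter.unusedVariables false

open MeasureTheory Set Filter Topology Complex

namespace PLT.Cv

open NUMF (l l_pos w g V)
open NU42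

noncomputable section

/-- decay of the static kernels, with one derivative -/
def KsB [SeaC] (K c : ℝ) : Prop := ∃ k1 : Bool → Bool → ℝ → ℝ → ℝ,
  (∀ a b t u, HasDerivAt (fun t => ksC a b t u) (k1 a b t u) t) ∧
  (∀ a b, Continuous fun p : ℝ × ℝ => k1 a b p.1 p.2) ∧
  (∀ a b t u, |ksC a b t u| ≤ K * Real.exp (-(c * (|t| + |u|)))) ∧
  ∀ a b t u, |k1 a b t u| ≤ K * Real.exp (-(c * (|t| + |u|)))

lemma int_exp_abs_le {c : ℝ} (hc : 0 < c) : Integrable (fun u : ℝ => Real.exp (-(c * |u|))) ∧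
    ∫ u : ℝ, Real.exp (-(c * |u|)) = 2 / c := by
  have h1 := NUMF.int_exp_abs (b := c) hc
  have e : (fun u : ℝ => Real.exp (-(c * |u|))) = fun u : ℝ => Real.exp (-c * |u|) := by
    funext u
    rw [neg_mul]
  rw [e]
  refine ⟨h1, ?_⟩
  have h2 := integral_comp_abs (f := fun x : ℝ => Real.exp (-c * x))
  rw [h2, integral_exp_mul_Ioi (by linarith : -c < 0) 0]
  field_simp
  simp

section

variable [SeaC] {K c CB : ℝ} {ν : Bool → ℝ → ℝ}

lemma ksn_int (hc : 0 < c) (hCB : ∀ b u, |ν b u| ≤ CB) (hν : ∀ b, Continuous (ν b)) {k : ℝ → ℝ → ℝ}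
    (hk : Continuous fun p : ℝ × ℝ => k p.1 p.2) (hb : ∀ t u, |k t u| ≤ K * Real.exp (-(c * (|t| + |u|))))
    (b : Bool) (t : ℝ) : Integrable (fun u => k t u * ν b u) ∧
      |∫ u, k t u * ν b u| ≤ 2 * K / c * CB * Real.exp (-(c * |t|)) := by
  obtain ⟨i1, e1⟩ := int_exp_abs_le hc
  have hCB0 : 0 ≤ CB := (abs_nonneg _).trans (hCB true 0)
  have hK0 : 0 ≤ K := by
    have h1 := (abs_nonneg _).trans (hb 0 0)
    have h2 := Real.exp_pos (-(c * (|(0:ℝ)| + |(0:ℝ)|)))
    by_contra h
    have := mul_neg_of_neg_of_pos (not_le.1 h) h2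
    linarith
  have hp : ∀ u, ‖k t u * ν b u‖ ≤ K * CB * Real.exp (-(c * |t|)) * Real.exp (-(c * |u|)) := by
    intro u
    rw [norm_mul, Real.norm_eq_abs, Real.norm_eq_abs]
    have e2 : Real.exp (-(c * (|t| + |u|))) = Real.exp (-(c * |t|)) * Real.exp (-(c * |u|)) := by
      rw [← Real.exp_add]
      congr 1
      ring
    have h1 := hb t u
    rw [e2] at h1
    calc |k t u| * |ν b u| ≤ (K * (Real.exp (-(c * |t|)) * Real.exp (-(c * |u|)))) * CB := by
          have := hCB b u
          gcongr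
      _ = _ := by ring
  have hm : Continuous fun u => k t u * ν b u :=
    (hk.comp (by fun_prop : Continuous fun u : ℝ => (t, u))).mul (hν b)
  have i2 := i1.const_mul (K * CB * Real.exp (-(c * |t|)))
  refine ⟨i2.mono' hm.aestronglyMeasurable (ae_of_all _ hp), ?_⟩
  rw [← Real.norm_eq_abs]
  refine (norm_integral_le_of_norm_le i2 (ae_of_all _ hp)).trans (le_of_eq ?_)
  rw [integral_const_mul, e1]
  ring

/-- **the static kernels on bounded densities** -/
theorem KsP_C1 (hc : 0 < c) (h : KsB K c) (hν : ∀ b, Continuous (ν b)) (hCB : ∀ b u, |ν b u| ≤ CB) (a : Bool) :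
    ContDiff ℝ 1 (KsP ν a) ∧ ∀ t, |KsP ν a t| ≤ 4 * K / c * CB * Real.exp (-(c * |t|)) ∧
      |deriv (KsP ν a) t| ≤ 4 * K / c * CB * Real.exp (-(c * |t|)) := by
  obtain ⟨k1, hd, hk1, hb0, hb1⟩ := h
  have hCB0 : 0 ≤ CB := (abs_nonneg _).trans (hCB true 0)
  have hK0 : 0 ≤ K := by
    have h1 := (abs_nonneg _).trans (hb0 true true 0 0)
    have h2 := Real.exp_pos (-(c * (|(0:ℝ)| + |(0:ℝ)|)))
    by_contra h
    have := mul_neg_of_neg_of_pos (not_le.1 h) h2
    linarith
  obtain ⟨i1, e1⟩ := int_exp_abs_le hc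
  have hdom : ∀ (b : Bool) (k : ℝ → ℝ → ℝ), (∀ t u, |k t u| ≤ K * Real.exp (-(c * (|t| + |u|)))) →
      ∀ x u, ‖k x u * ν b u‖ ≤ K * CB * Real.exp (-(c * |u|)) := by
    intro b k hk x u
    rw [norm_mul, Real.norm_eq_abs, Real.norm_eq_abs]
    have h1 := hk x u
    have h2 : Real.exp (-(c * (|x| + |u|))) ≤ Real.exp (-(c * |u|)) := by
      refine Real.exp_le_exp.2 ?_
      have := mul_nonneg hc.le (abs_nonneg x)
      linarith
    calc |k x u| * |ν b u| ≤ (K * Real.exp (-(c * |u|))) * CB := by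
          have := hCB b u
          have := h1.trans (mul_le_mul_of_nonneg_left h2 hK0)
          gcongr
      _ = _ := by ring
  have hD : ∀ b t, HasDerivAt (fun t => ∫ u, ksC a b t u * ν b u) (∫ u, k1 a b t u * ν b u) t := by
    intro b t
    refine (hasDerivAt_integral_of_dominated_loc_of_deriv_le (F := fun t u => ksC a b t u * ν b u)
      (F' := fun t u => k1 a b t u * ν b u) (bound := fun u => K * CB * Real.exp (-(c * |u|)))
      (Metric.ball_mem_nhds t one_pos) (Eventually.of_forall fun x => ?_) ?_ ?_ ?_ (i1.const_mul _) ?_).2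
    · exact (((bk_ks a b).right x).mul (hν b)).aestronglyMeasurable
    · exact (ksn_int hc hCB hν (bk_ks a b).cont (hb0 a b) b t).1
    · exact ((((hk1 a b).comp (by fun_prop : Continuous fun u : ℝ => (t, u)))).mul (hν b)).aestronglyMeasurable
    · exact ae_of_all _ fun u x _ => hdom b (k1 a b) (hb1 a b) x u
    · exact ae_of_all _ fun u x _ => (hd a b x u).mul_const _
  have hD2 : ∀ t, HasDerivAt (KsP ν a) (∑ b, ∫ u, k1 a b t u * ν b u) t := by
    intro t
    exact HasDerivAt.fun_sum fun b _ => hD b t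
  have hcont : Continuous fun t => ∑ b, ∫ u, k1 a b t u * ν b u := by
    refine continuous_finsetSum _ fun b _ => ?_
    refine continuous_of_dominated (bound := fun u => K * CB * Real.exp (-(c * |u|))) (fun x => ?_)
      (fun x => ae_of_all _ fun u => hdom b (k1 a b) (hb1 a b) x u) (i1.const_mul _)
      (ae_of_all _ fun u => ?_)
    · exact ((((hk1 a b).comp (by fun_prop : Continuous fun u : ℝ => (x, u)))).mul (hν b)).aestronglyMeasurable
    · exact ((hk1 a b).comp (by fun_prop : Continuous fun t : ℝ => (t, u))).mul continuous_const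
  have e3 : deriv (KsP ν a) = fun t => ∑ b, ∫ u, k1 a b t u * ν b u := funext fun t => (hD2 t).deriv
  refine ⟨?_, fun t => ⟨?_, ?_⟩⟩
  · rw [contDiff_one_iff_deriv, e3]
    exact ⟨fun t => (hD2 t).differentiableAt, hcont⟩
  · unfold KsP
    rw [Fintype.sum_bool]
    have h1 := (ksn_int hc hCB hν (bk_ks a true).cont (hb0 a true) true t).2
    have h2 := (ksn_int hc hCB hν (bk_ks a false).cont (hb0 a false) false t).2
    refine (abs_add_le _ _).trans ((add_le_add h1 h2).trans (le_of_eq ?_))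
    ring
  · rw [e3]
    simp only [Fintype.sum_bool]
    have h1 := (ksn_int hc hCB hν (hk1 a true) (hb1 a true) true t).2
    have h2 := (ksn_int hc hCB hν (hk1 a false) (hb1 a false) false t).2
    refine (abs_add_le _ _).trans ((add_le_add h1 h2).trans (le_of_eq ?_))
    ring

/-- energies of bounded densities -/
theorem KsP_en (hc : 0 < c) (h : KsB K c) (hν : ∀ b, Continuous (ν b)) (hCB : ∀ b u, |ν b u| ≤ CB)
    {σ : ℝ → ℝ} {C' : ℝ} (hσ : Continuous σ) (hσb : ∀ t, |σ t| ≤ C') (a : Bool) :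
    Integrable (fun t => σ t * KsP ν a t) ∧ |∫ t, σ t * KsP ν a t| ≤ 8 * K / c ^ 2 * CB * C' := by
  obtain ⟨h1, h2⟩ := KsP_C1 hc h hν hCB a
  obtain ⟨i1, e1⟩ := int_exp_abs_le hc
  have hC0 : 0 ≤ C' := (abs_nonneg _).trans (hσb 0)
  have hp : ∀ t, ‖σ t * KsP ν a t‖ ≤ C' * (4 * K / c * CB) * Real.exp (-(c * |t|)) := by
    intro t
    rw [norm_mul, Real.norm_eq_abs, Real.norm_eq_abs]
    calc |σ t| * |KsP ν a t| ≤ C' * (4 * K / c * CB * Real.exp (-(c * |t|))) := by
          have a1 := hσb t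
          have a2 := (h2 t).1
          gcongr
      _ = _ := by ring
  have i2 := i1.const_mul (C' * (4 * K / c * CB))
  refine ⟨i2.mono' (hσ.mul h1.continuous).aestronglyMeasurable (ae_of_all _ hp), ?_⟩
  rw [← Real.norm_eq_abs]
  refine (norm_integral_le_of_norm_le i2 (ae_of_all _ hp)).trans (le_of_eq ?_)
  rw [integral_const_mul, e1]
  field_simp
  ring

end

end

end PLT.Cv
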