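import Pool.Agent.PLT.KerT
import Pool.Agent.PLT.KsPB

/-!
# THETA, row B: `KsB` for the static kernels (helper69)
-/

set_option autoImplicit false

open MeasureTheory Set Filter Topology Complex

namespace PLT.Cv

open PLT.KF

noncomputable section

lemma ksC_own [SeaC] (a : Bool) : ksC a a = ko eta (deriv eta) := by
  unfold ksC
  rw [if_pos rfl]
  rfl

lemma ksC_cross [SeaC] {a b : Bool} (h : a ≠ b) : ksC a b = PLT.KF.kx eta := by
  unfold ksC
  rw [if_neg h]
  rfl

/-- **the bounds of the static kernels** -/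
theorem exists_ksB (B : SeaCB) : ∃ K : ℝ, 0 ≤ K ∧ ∀ [SeaC] [SeaCU B], KsB K (1 / 2) := by
  obtain ⟨C, hC, h⟩ := exists_towC B 2
  refine ⟨C, hC, fun {_} {_} => ?_⟩
  obtain ⟨⟨A, hA⟩, A', hA'⟩ := h
  obtain ⟨k1, hk1⟩ : ∃ k1 : Bool → Bool → ℝ → ℝ → ℝ, k1 = fun a b => if a = b then A 1 else A' 1 := ⟨_, rfl⟩
  have h0 : ∀ a, k1 a a = A 1 := fun a => by
    rw [hk1]
    exact if_pos rfl
  have h1 : ∀ {a b}, a ≠ b → k1 a b = A' 1 := fun {a b} hab => by
    rw [hk1]
    exact if_neg hab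
  refine ⟨k1, fun a b t u => ?_, fun a b => ?_, fun a b t u => ?_, fun a b t u => ?_⟩
  · rcases eq_or_ne a b with rfl | hab
    · rw [h0, ksC_own, ← hA.z]
      exact hA.d 0 (by norm_num) t u
    · rw [h1 hab, ksC_cross hab, ← hA'.z]
      exact hA'.d 0 (by norm_num) t u
  · rcases eq_or_ne a b with rfl | hab
    · rw [h0]
      exact hA.c 1 (by norm_num)
    · rw [h1 hab]
      exact hA'.c 1 (by norm_num)
  · rcases eq_or_ne a b with rfl | hab
    · rw [ksC_own, ← hA.z]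
      exact (hA.b 0 (by norm_num) t u).trans (mul_le_mul_of_nonneg_left (wk2 t u) hC)
    · rw [ksC_cross hab, ← hA'.z]
      exact (hA'.b 0 (by norm_num) t u).trans (mul_le_mul_of_nonneg_left (wk2 t u) hC)
  · rcases eq_or_ne a b with rfl | hab
    · rw [h0]
      exact (hA.b 1 (by norm_num) t u).trans (mul_le_mul_of_nonneg_left (wk2 t u) hC)
    · rw [h1 hab]
      exact (hA'.b 1 (by norm_num) t u).trans (mul_le_mul_of_nonneg_left (wk2 t u) hC)

end

end PLT.Cv
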