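import Pool.Agent.PLT.DatNC

/-!
# The remainder of a configuration: the input `RemC` of the instance

`remC`: from `exists_phiC_C1`, `exists_phi_leC`, `exists_NTC` and the decay of the static kernels.
-/

set_option autoImplicit false
set_option linter.unusedSectionVars false
set_option linter.unusedVariables false

open MeasureTheory Set Filter Topology Complex

namespace PLT.Cv

open NUAct (Wb Wm Wm_nonneg Wb_le Wb_nonneg)
open NUSea.PLX.H0 (Inp)
open NUDispW (bmaj win win_nonneg bmaj_nonneg)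

noncomputable section

/-- **the remainder** -/
theorem remC {B : SeaCB} {Q : Par7} {Kk c0 : ℝ} (hQ : Q.Ok) (hc0 : 0 < c0)
    (hk : ∀ [SeaC] [SeaCU B], KsB Kk c0) : RemC B Q := by
  obtain ⟨K1, h1, H1⟩ := exists_phiC_C1 B (w := Q.w) (kd := Q.kd) (Ks := Kk) (c0 := c0) hQ.w0 hc0
  obtain ⟨K2, h2, H2⟩ := exists_phi_leC B (w := Q.w) (kd := Q.kd) (Ks := Kk) (c0 := c0) hQ.w0 hc0
  obtain ⟨K3, h3, H3⟩ := exists_NTC B (w := Q.w) (kd := Q.kd) (Kk := Kk) (c0 := c0) (c := Q.c)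
    hQ.w0 hc0 hQ.c0
  have hW := Wm_nonneg
  have hp : 0 ≤ K2 * Wm := by positivity
  refine ⟨K1 + K2 * (Wm + 3) + 2 * K3, by nlinarith,
    @fun _ hS ε M b e I h hε CB σ hσ hσs hAH hν A εo r O hO a => ?_⟩
  have hε0 := (h.cur a).ε0
  have hM0 := (h.cur a).M0 B (h.s0 a)
  have hCB0 : 0 ≤ CB := (abs_nonneg _).trans (hν a 0)
  have r0 : (0 : ℝ) ≤ r := Nat.cast_nonneg r
  have hks := @hk _ hS
  have e1 : K1 * ε ≤ 1 := by
    refine le_trans (mul_le_mul_of_nonneg_right ?_ hε0) hε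
    nlinarith
  have e2 : K2 * ε ≤ 1 := by
    refine le_trans (mul_le_mul_of_nonneg_right ?_ hε0) hε
    nlinarith
  have e3 : K3 * ε ≤ 1 := by
    refine le_trans (mul_le_mul_of_nonneg_right ?_ hε0) hε
    nlinarith
  have hεr : 0 ≤ εo * r := by
    rcases Nat.eq_zero_or_pos r with h0 | h0
    · subst h0
      simp
    · exact mul_nonneg (hO ⟨0, h0⟩).ε0 r0
  have hεs : εo * sH O Q.c ≤ εo * r := by
    rcases Nat.eq_zero_or_pos r with h0 | h0
    · subst h0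
      simp [sH]
    · exact mul_le_mul_of_nonneg_left (sH_le O hQ.c0.le) (hO ⟨0, h0⟩).ε0
  have hεs0 : 0 ≤ εo * sH O Q.c := by
    rcases Nat.eq_zero_or_pos r with h0 | h0
    · subst h0
      simp [sH]
    · exact mul_nonneg (hO ⟨0, h0⟩).ε0 (sH_nonneg O _)
  refine ⟨@H1 _ hS hks _ _ _ _ _ _ _ _ h e1 _ hσ hσs _ hAH _ hν _ _ _ _ _ hO a, fun t => ?_,
    fun T hT => ?_⟩
  · have key := (@H2 _ hS hks _ _ _ _ _ _ _ _ h e2 _ hσ hσs _ hAH _ hν _ _ _ _ _ hO a t).1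
    have t1 : |phiC I O a t| ≤ |phiC I O a t - Sp.wOC (zI I) I a t| + |Sp.wOC (zI I) I a t| := by
      have := abs_add_le (phiC I O a t - Sp.wOC (zI I) I a t) (Sp.wOC (zI I) I a t)
      rwa [sub_add_cancel] at this
    have ex : ∀ {x : ℝ}, 0 ≤ x → Real.exp (-x) ≤ 1 := fun hx => Real.exp_le_one_iff.2 (by linarith)
    have x8 : Real.exp (-(1 / 8 * |t|)) ≤ 1 := ex (by positivity)
    have x1 : Real.exp (-|t|) ≤ 1 := ex (abs_nonneg t)
    have xc : Real.exp (-(Q.c * |t|)) ≤ 1 := ex (mul_nonneg hQ.c0.le (abs_nonneg t))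
    have x0 : Real.exp (-(c0 * |t|)) ≤ 1 := ex (mul_nonneg hc0.le (abs_nonneg t))
    have b1 : K2 * (M * ε) * (Wb b t + 1) ≤ K2 * (M * ε) * (Wm + 1) :=
      mul_le_mul_of_nonneg_left (by linarith [Wb_le b t]) (by positivity)
    have b2 : K2 * CB * Real.exp (-(1 / 8 * |t|)) ≤ K2 * CB :=
      mul_le_of_le_one_right (by positivity) x8
    have b3 : K2 * ε * bmaj Finset.univ (fun i => (O i).h) 2 t ≤ 1 * r :=
      mul_le_mul e2 (bmaj_le_r O t) (bmaj_nonneg _ _ _ _) zero_le_one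
    have b4 : K2 * r * (M / σ) * Real.exp (-|t|) ≤ K2 * r * (M / σ) :=
      mul_le_of_le_one_right (by positivity) x1
    have b5 : εo * sH O Q.c * Real.exp (-(Q.c * |t|)) ≤ εo * r :=
      (mul_le_of_le_one_right hεs0 xc).trans hεs
    have b6 : K2 * CB * Real.exp (-(c0 * |t|)) ≤ K2 * CB :=
      mul_le_of_le_one_right (by positivity) x0
    obtain ⟨X, hX⟩ : ∃ X : ℝ, X = 1 + CB + M * ε + (1 + εo + M / σ) * r := ⟨_, rfl⟩
    have n1 : 0 ≤ M * ε := by positivity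
    have n2 : 0 ≤ M / σ * r := by positivity
    have hXe : X = 1 + CB + M * ε + (r + εo * r + M / σ * r) := by rw [hX]; ring
    have c1 : K2 * (M * ε) * (Wm + 1) ≤ K2 * (Wm + 1) * X := by
      have : K2 * (M * ε) * (Wm + 1) = K2 * (Wm + 1) * (M * ε) := by ring
      rw [this]
      exact mul_le_mul_of_nonneg_left (by rw [hXe]; linarith) (by positivity)
    have c2 : K2 * (2 * CB + M / σ * r) ≤ K2 * (2 * X) :=
      mul_le_mul_of_nonneg_left (by rw [hXe]; linarith) (by linarith)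
    have c3 : r + εo * r ≤ X := by rw [hXe]; linarith
    have c4 : 0 ≤ X := by rw [hXe]; linarith
    have c5 : 1 * X ≤ K1 * X := mul_le_mul_of_nonneg_right h1 c4
    have c6 : 0 ≤ K3 * X := mul_nonneg (by linarith) c4
    rw [← hX]
    have c7 : K2 * r * (M / σ) = K2 * (M / σ * r) := by ring
    nlinarith
  · refine (@H3 _ hS hks _ _ _ _ _ _ _ _ h e3 _ hσ hσs _ hAH _ hν _ _ _ _ hO T hT a).trans
      (add_le_add ?_ le_rfl)
    have hb := h.b0
    have hw0 := win_nonneg (Finset.univ : Finset (Fin r)) fun i => (O i).h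
    have e4 : (r : ℝ) * (M / σ) = r * M / σ := by ring
    rw [e4]
    obtain ⟨Y, hY⟩ : ∃ Y : ℝ, Y = (M * ε) ^ 2 * (b + T + 1) + (r * M / σ) ^ 2 +
        (ε ^ 2 + εo ^ 2) * win Finset.univ (fun i => (O i).h) := ⟨_, rfl⟩
    have hY0 : 0 ≤ Y := by rw [hY]; positivity
    have l1 : CB ^ 2 + CB ^ 2 + (M * ε) ^ 2 * (b + T + 1) + (r * M / σ) ^ 2 +
        (ε ^ 2 + εo ^ 2) * win Finset.univ (fun i => (O i).h) = 2 * CB ^ 2 + Y := by rw [hY]; ring
    have l2 : 1 + CB ^ 2 + (M * ε) ^ 2 * (b + T + 1) + (r * M / σ) ^ 2 +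
        (ε ^ 2 + εo ^ 2) * win Finset.univ (fun i => (O i).h) = 1 + CB ^ 2 + Y := by rw [hY]; ring
    rw [l1, l2]
    have l3 : K3 * (2 * CB ^ 2 + Y) ≤ 2 * K3 * (1 + CB ^ 2 + Y) := by
      have : 0 ≤ K3 * Y := mul_nonneg (by linarith) hY0
      nlinarith
    have l4 : 0 ≤ (K1 + K2 * (Wm + 3)) * (1 + CB ^ 2 + Y) := by positivity
    nlinarith

end

end PLT.Cv
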