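import Pool.Agent.PLT.GAct
import Pool.Agent.NUR2.Ext

/-!
# Analytic functions along the displaced static curve

`exists_extC`: real parts of functions analytic in a strip around the static curve, along the displaced curve `zt (gD η)`, are of
the class `Ext`; **`exists_anC`**: their differences along a small displacement of the parameter.
-/

set_option autoImplicit false
set_option linter.unusedSectionVars false
set_option linter.unusedVariables false

open MeasureTheory Set Filter Topology Complex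

namespace PLT.Cv

open NUMF (l l_pos)
open NUAct (OC)
open NUR2 (OZ Ext)
open NUOC (O)
open NUKer (iD)

noncomputable section

/-- **analytic functions along a path**, displacement of any size -/
theorem canalL (j : ℕ) {L : ℝ} (hL : 1 ≤ L) : ∃ C : ℝ, 1 ≤ C ∧ ∀ {S : Set ℝ} {Ω : Set ℂ} {A : ℝ} {G : ℕ → ℂ → ℂ}
    {D : ℝ → ℂ} (i : ℕ), 0 ≤ A → (∀ k, ∀ z ∈ Ω, HasDerivAt (G k) (G (k + 1) z) z) →
    (∀ k ≤ i + j, ∀ z ∈ Ω, ‖G k z‖ ≤ A) →
    (∀ x ∈ S, (x : ℂ) + D x ∈ Ω) → OZ S j L D → OZ S j (C * A) fun x => G i (x + D x) := by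
  induction j with
  | zero =>
    refine ⟨1, le_refl _, fun {S Ω A G D} i hA h1 h2 h3 h4 => ⟨?_, fun x hx => ?_⟩⟩
    · intro x hx
      have e1 : ContinuousAt (G i) ((x : ℂ) + D x) := (h1 i _ (h3 x hx)).continuousAt
      have e2 : ContinuousWithinAt (fun x : ℝ => (x : ℂ) + D x) S x :=
        Complex.continuous_ofReal.continuousWithinAt.add (h4.1 x hx)
      exact ContinuousAt.comp_continuousWithinAt (g := G i) (f := fun x : ℝ => (x : ℂ) + D x) e1 e2
    · rw [one_mul]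
      exact h2 i (by omega) _ (h3 x hx)
  | succ j ih =>
    obtain ⟨C, hC1, hC⟩ := ih
    have hp : (1:ℝ) ≤ 2 ^ j := one_le_pow₀ (by norm_num)
    have hCL : 1 ≤ C * (1 + L) := by nlinarith
    refine ⟨2 ^ j * (C * (1 + L)), one_le_mul_of_one_le_of_one_le hp hCL, fun {S Ω A G D} i hA h1 h2 h3 h4 => ?_⟩
    have hDl := h4.lower
    obtain ⟨k1, D', k2, k3⟩ := h4
    refine ⟨fun x hx => ?_, fun x => G (i + 1) (x + D x) * (1 + D' x), fun x hx => ?_, ?_⟩
    · refine (h2 i (by omega) _ (h3 x hx)).trans ?_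
      exact le_mul_of_one_le_left hA (one_le_mul_of_one_le_of_one_le hp hCL)
    · have e1 : HasDerivAt (fun x : ℝ => (x : ℂ) + D x) (1 + D' x) x := by
        have e0 : HasDerivAt (fun x : ℝ => (x : ℂ)) 1 x := by
          simpa using (hasDerivAt_id x).ofReal_comp
        exact e0.add (k2 x hx)
      exact HasDerivAt.comp (h₂ := G i) (h := fun x : ℝ => (x : ℂ) + D x) x (h1 i _ (h3 x hx)) e1
    · have e1 := hC (i + 1) hA h1 (fun k hk => h2 k (by omega)) h3 hDl
      have e2 : OZ S j (1 + L) fun x => 1 + D' x := (OZ.const j (by simp)).add k3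
      refine (e1.mul (by positivity) (by linarith) e2).mono (le_of_eq ?_)
      ring

lemma OZ_of_OC {S : Set ℝ} {j : ℕ} : ∀ {w : ℝ → ℝ} {a : ℝ} {f : ℝ → ℂ}, OC j w f → (∀ t, w t ≤ a) → OZ S j a f := by
  induction j with
  | zero => exact fun {w a f} h ha => ⟨h.1.continuousOn, fun x _ => (h.2 x).trans (ha x)⟩
  | succ j ih =>
    rintro w a f ⟨h1, f', h2, h3⟩ ha
    exact ⟨fun x _ => (h1 x).trans (ha x), f', fun x _ => h2 x, ih h3 ha⟩

/-- the total displacement with all derivatives -/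
theorem Dt_OC (B : SeaCB) : ∃ C : ℝ, 1 ≤ C ∧ ∀ [SeaC] [SeaCU B], ∀ {s ε M b : ℝ} {e η η1 : ℝ → ℝ},
    Cur s ε M b e η → (∀ t, HasDerivAt η (η1 t) t) → C * ε ≤ 1 →
    OC 4 (fun _ => C) (Dt η) ∧ (∀ t, ‖gD η t‖ ≤ C * ε) := by
  obtain ⟨G, hG, hg⟩ := gD_OC B
  obtain ⟨K, hK, hk⟩ := ga'_OC B 3
  refine ⟨G + K + 2, by linarith, @fun _ _ s ε M b e η η1 hc hη hε => ?_⟩
  have hε0 := hc.ε0
  obtain ⟨o0, -⟩ := hg hc hη
  have h1 : G * ε ≤ 1 := by
    have : 0 ≤ (K + 2) * ε := by positivity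
    linarith
  have e1 : OC 4 (fun _ => K + 1) (iD eta) := by
    refine ⟨fun t => ?_, iD (deriv eta), hasDerivAt_iDeta, ?_⟩
    · rw [norm_iD]
      have h2 := eta_le t
      have h3 := eta_nn t
      have h4 := l_pos
      have h5 : l ≤ 1 := by
        have := Real.pi_le_four
        have h6 : l = Real.pi / 8 := rfl
        linarith
      rw [abs_le]
      constructor <;> linarith
    · have h2 := (@hk _ _).sub (OC.const 3 (e := fun _ => (1:ℝ)) (c := 1) (by simp))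
      refine h2.congr fun t => ?_
      unfold ga' iD
      ring
  have e2 : OC 4 (fun _ => (1:ℝ)) (gD η) := o0.mono fun t =>
    (mul_le_mul_of_nonneg_left (hc.le t) (by linarith)).trans h1
  refine ⟨((e1.add e2).mono fun t => by linarith).congr fun t => rfl, fun t => ?_⟩
  refine (o0.le t).trans ?_
  calc G * e t ≤ G * ε := mul_le_mul_of_nonneg_left (hc.le t) (by linarith)
    _ ≤ _ := mul_le_mul_of_nonneg_right (by linarith) hε0

/-- **real parts of analytic functions along the displaced curve** -/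
theorem exists_extC (B : SeaCB) {lo hi κ : ℝ} (hκ : 0 < κ) (hκ1 : κ ≤ 1 / 4) : ∃ C : ℝ, 1 ≤ C ∧
    ∀ [SeaC] [SeaCU B], (∀ t, lo + κ ≤ eta t ∧ eta t + κ ≤ hi) → ∀ {s ε M b A : ℝ} {e η η1 : ℝ → ℝ} {F : ℂ → ℂ},
    Cur s ε M b e η → (∀ t, HasDerivAt η (η1 t) t) → C * ε ≤ 1 → 0 ≤ A →
    (∀ z : ℂ, |z.re| ≤ b + 2 → lo < z.im → z.im < hi → DifferentiableAt ℂ F z ∧ ‖F z‖ ≤ A) →
    Ext 4 b (C * A) fun x => (F (zt (gD η) x)).re := by
  obtain ⟨L, hL, HL⟩ := Dt_OC B
  obtain ⟨C1, hC1, H1⟩ := canalL 4 hL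
  obtain ⟨C2, hC2⟩ := NUE.BD_Hc 4
  have hC20 : 0 ≤ C2 := (hC2 0).nonneg
  obtain ⟨r, hr⟩ : ∃ r : ℝ, r = κ / 4 := ⟨_, rfl⟩
  have hr0 : 0 < r := by rw [hr]; positivity
  have hr1 : r ≤ 1 := by rw [hr]; linarith
  have hX : 0 ≤ 2 ^ 4 * (C2 * (C1 * ((Nat.factorial 4 : ℝ) / r ^ 4))) := by positivity
  have hκ2 : 0 < 2 / κ := by positivity
  have hLκ : 0 ≤ 2 * L / κ := by positivity
  refine ⟨L + 2 * L / κ + 2 ^ 4 * (C2 * (C1 * ((Nat.factorial 4 : ℝ) / r ^ 4))), by linarith,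
    @fun _ _ hst s ε M b A e η η1 F hc hη hε hA hF => ?_⟩
  have hε0 := hc.ε0
  have hε1 : L * ε ≤ 1 := by
    have h1 : 0 ≤ 2 * L / κ * ε := by positivity
    have h2 : 0 ≤ 2 ^ 4 * (C2 * (C1 * ((Nat.factorial 4 : ℝ) / r ^ 4))) * ε := by positivity
    linarith
  have hε2 : L * ε ≤ κ / 2 := by
    have h1 : 0 ≤ L * ε := by positivity
    have h2 : 0 ≤ 2 ^ 4 * (C2 * (C1 * ((Nat.factorial 4 : ℝ) / r ^ 4))) * ε := by positivity
    have h3 : 2 * L / κ * ε ≤ 1 := by linarith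
    have h4 : 2 * L / κ * ε = (L * ε) / (κ / 2) := by field_simp
    rw [h4, div_le_one (by positivity)] at h3
    exact h3
  obtain ⟨oD, hg⟩ := HL hc hη hε1
  -- the regions
  set Ω1 : Set ℂ := {z | |z.re| < b + 2 ∧ lo < z.im ∧ z.im < hi} with hΩ1
  set Ω : Set ℂ := {z | |z.re| < b + 7 / 4 ∧ lo + κ / 2 ≤ z.im ∧ z.im ≤ hi - κ / 2} with hΩ
  have hr4 : r ≤ 1 / 16 := by rw [hr]; linarith
  have hop : IsOpen Ω1 := (isOpen_lt (continuous_abs.comp Complex.continuous_re) continuous_const).inter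
    ((isOpen_lt continuous_const Complex.continuous_im).inter
      (isOpen_lt Complex.continuous_im continuous_const))
  have hball : ∀ z ∈ Ω, Metric.closedBall z r ⊆ Ω1 := by
    intro z hz w hw
    rw [Metric.mem_closedBall, dist_eq_norm] at hw
    have e1 : |w.re - z.re| ≤ r := by
      rw [← Complex.sub_re]; exact (Complex.abs_re_le_norm _).trans hw
    have e2 : |w.im - z.im| ≤ r := by
      rw [← Complex.sub_im]; exact (Complex.abs_im_le_norm _).trans hw
    have e3 : |w.re| ≤ |z.re| + r := by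
      have := abs_add_le (w.re - z.re) z.re
      rw [sub_add_cancel] at this
      linarith
    rw [abs_le] at e2
    obtain ⟨z1, z2, z3⟩ := hz
    refine ⟨?_, ?_, ?_⟩
    · linarith
    · rw [hr] at e2
      linarith [e2.1]
    · rw [hr] at e2
      linarith [e2.2]
  have hsub : Ω ⊆ Ω1 := fun z hz => hball z hz (Metric.mem_closedBall_self hr0.le)
  have hFd : DifferentiableOn ℂ F Ω1 := fun z hz => (hF z hz.1.le hz.2.1 hz.2.2).1.differentiableWithinAt
  have hder : ∀ k, ∀ z ∈ Ω1, HasDerivAt (iteratedDeriv k F) (iteratedDeriv (k + 1) F z) z := by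
    intro k z hz
    have h1 : AnalyticAt ℂ F z := hFd.analyticAt (hop.mem_nhds hz)
    have h2 : AnalyticAt ℂ (iteratedDeriv k F) z := by
      rw [iteratedDeriv_eq_iterate]
      exact h1.iterated_deriv k
    rw [iteratedDeriv_succ]
    exact h2.differentiableAt.hasDerivAt
  have hbd : ∀ k ≤ 0 + 4, ∀ z ∈ Ω, ‖iteratedDeriv k F z‖ ≤ (Nat.factorial 4 : ℝ) / r ^ 4 * A := by
    intro k hk z hz
    have h1 := Complex.norm_iteratedDeriv_le_of_forall_mem_sphere_norm_le (n := k) (c := z) (R := r) (C := A)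
      (f := F) hr0 ?_ ?_
    · refine h1.trans ?_
      have e1 : (k.factorial : ℝ) ≤ Nat.factorial 4 := by exact_mod_cast Nat.factorial_le (by omega)
      have e2 : r ^ 4 ≤ r ^ k := pow_le_pow_of_le_one hr0.le hr1 (by omega)
      have e3 : 0 < r ^ 4 := by positivity
      rw [mul_div_assoc, div_mul_eq_mul_div, mul_div_assoc]
      have e4 : A / r ^ k ≤ A / r ^ 4 := div_le_div_of_nonneg_left hA e3 e2
      exact mul_le_mul e1 e4 (by positivity) (by positivity)
    · refine ⟨?_, ?_⟩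
      · exact hFd.mono (Metric.ball_subset_closedBall.trans (hball z hz))
      · have := (hFd.mono (hball z hz)).continuousOn
        exact this.mono (closure_minimal Metric.ball_subset_closedBall Metric.isClosed_closedBall)
    · intro w hw
      have := hball z hz (Metric.sphere_subset_closedBall hw)
      exact (hF w this.1.le this.2.1 this.2.2).2
  have h3 : OZ {x : ℝ | |x| < b + 3 / 2} 4 L (Dt η) := OZ_of_OC oD fun _ => le_rfl
  have h4 : OZ {x : ℝ | |x| < b + 3 / 2} 4 (C1 * ((Nat.factorial 4 : ℝ) / r ^ 4 * A)) fun x : ℝ =>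
      iteratedDeriv 0 F ((x : ℂ) + Dt η x) := by
    refine H1 (Ω := Ω) (G := fun k => iteratedDeriv k F) 0 (by positivity)
      (fun k z hz => hder k z (hsub hz)) hbd (fun x hx => ?_) h3
    rw [← zt_Dt]
    have q1 := hg x
    have q2 := (Complex.abs_re_le_norm (gD η x)).trans q1
    have q3 := (Complex.abs_im_le_norm (gD η x)).trans q1
    have q4 : (zt (gD η) x).re = x + (gD η x).re := by unfold zt; simp
    have q5 : (zt (gD η) x).im = eta x + (gD η x).im := by unfold zt; simp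
    obtain ⟨q6, q7⟩ := hst x
    rw [abs_le] at q3
    rw [hΩ, mem_ofPred_eq, q4, q5]
    refine ⟨?_, by linarith [q3.1], by linarith [q3.2]⟩
    have hx' : |x| < b + 3 / 2 := hx
    refine (abs_add_le _ _).trans_lt ?_
    linarith
  have h5 := OZ.cut 4 (b := b + 1) (B := b + 3 / 2) (H := NUE.Hc b) (by linarith) (by positivity) h4
    (NUR2.O_of_BD 4 (hC2 b)) (fun x hx => NUE.Hc_zero hx.le)
  refine ⟨_, h5.mono ?_, fun x hx => ?_⟩
  · have e : 2 ^ 4 * (C2 * (C1 * ((Nat.factorial 4 : ℝ) / r ^ 4 * A))) =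
        (2 ^ 4 * (C2 * (C1 * ((Nat.factorial 4 : ℝ) / r ^ 4)))) * A := by ring
    rw [e]
    exact mul_le_mul_of_nonneg_right (by linarith) hA
  · rw [NUE.Hc_one hx, one_mul, iteratedDeriv_zero]
    show _ = (F (zt (gD η) x)).re
    rw [zt_Dt]

/-- **analytic potentials: the difference along a small displacement of the parameter** -/
theorem exists_anC (B : SeaCB) {lo hi κ : ℝ} (hκ : 0 < κ) (hκ1 : κ ≤ 1 / 4) : ∃ C : ℝ, 1 ≤ C ∧
    ∀ [SeaC] [SeaCU B], (∀ t, lo + κ ≤ eta t ∧ eta t + κ ≤ hi) → ∀ {s ε M b A lam : ℝ} {e η η1 ξ : ℝ → ℝ}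
    {F : ℂ → ℂ}, Cur s ε M b e η → (∀ t, HasDerivAt η (η1 t) t) → C * ε ≤ 1 → lam ≤ 1 → 0 ≤ A →
    (∀ z : ℂ, |z.re| ≤ b + 2 → lo < z.im → z.im < hi → DifferentiableAt ℂ F z ∧ ‖F z‖ ≤ A) →
    O 3 lam ξ → (∀ x, b ≤ |x| → ξ x = 0) → (∀ x, |x| ≤ b → |x + ξ x| ≤ b) →
    O 3 (C * A * lam) fun x => (F (zt (gD η) (x + ξ x))).re - (F (zt (gD η) x)).re := by
  obtain ⟨C1, hC1, H1⟩ := exists_extC B hκ hκ1 (lo := lo) (hi := hi)
  obtain ⟨C2, hC2, H2⟩ := NUR2.ext_delta 3
  refine ⟨C1 * C2, one_le_mul_of_one_le_of_one_le hC1 hC2,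
    @fun _ _ hst s ε M b A lam e η η1 ξ F hc hη hε hl hA hF hξ h0 hin => ?_⟩
  have hε0 := hc.ε0
  have hε1 : C1 * ε ≤ 1 := by
    refine le_trans ?_ hε
    exact mul_le_mul_of_nonneg_right (le_mul_of_one_le_right (by linarith) hC2) hε0
  have e1 := H1 hst hc hη hε1 hA hF
  exact (H2 e1 hξ hl h0 hin).mono (le_of_eq (by ring))

end

end PLT.Cv
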