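import Pool.Agent.PLT.SeaE
import Pool.Agent.NUR2.OC
import Pool.Agent.NUP.Trans

/-!
# The exact transport along a static curve

Twin of `NUSea/DispT` and `SeaU/DispT` for the real density `P` along the curve:
`ψ = G⁻¹ (G + F / s)`: the increasing diffeomorphism of the line with `s P (ψ x) ψ' x = s P x + F' x`;
`ψ - id` and its derivatives are `O (M / (s P b))`; constants depend on `B : SeaCB` only.
-/

set_option autoImplicit false
set_option linter.unusedSectionVars false
set_option linter.unusedVariables false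

open MeasureTheory Set Filter Topology NUOC NUTr
open scoped ContDiff

namespace PLT.Cv

noncomputable section

/-- `O.mul_exp` with a constant which depends on the order and on the bound only -/
theorem O_mul_exp (j : ℕ) (a1 : ℝ) : ∃ C : ℝ, 1 ≤ C ∧ ∀ {ell ell' : ℝ → ℝ}, (∀ x, HasDerivAt ell (ell' x) x) →
    O j a1 ell' → ∀ {M b E : ℝ} {G : ℝ → ℝ}, O j M G → (∀ x, b < |x| → G x = 0) →
      (∀ x, |x| ≤ b → Real.exp (- ell x) ≤ E) → 0 ≤ E → O j (C * (M * E)) fun x => G x * Real.exp (- ell x) := by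
  induction j with
  | zero =>
    refine ⟨1, le_refl _, fun {ell ell'} he ha1 {M b E G} hG hs hE hE0 => ?_⟩
    have hec : Continuous ell := continuous_iff_continuousAt.2 fun x => (he x).continuousAt
    refine ⟨hG.1.mul (Real.continuous_exp.comp hec.neg), fun x => ?_⟩
    rw [abs_mul, Real.abs_exp, one_mul]
    rcases le_or_gt |x| b with hx | hx
    · exact mul_le_mul (hG.2 x) (hE x hx) (Real.exp_pos _).le hG.nonneg
    · rw [hs x hx, abs_zero, zero_mul]
      exact mul_nonneg hG.nonneg hE0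
  | succ j ih =>
    obtain ⟨C, hC1, hC⟩ := ih
    refine ⟨C * (1 + 2 ^ j * |a1|), ?_, fun {ell ell'} he ha1 {M b E G} hG hs hE hE0 => ?_⟩
    · have : (0:ℝ) ≤ 2 ^ j * |a1| := by positivity
      nlinarith
    · have ha0 := ha1.nonneg
      rw [abs_of_nonneg ha0]
      have hM := hG.nonneg
      have hGl := hG.lower
      obtain ⟨h1, G', h2, h3⟩ := hG
      have hs' : ∀ x, b < |x| → G' x = 0 := by
        intro x hx
        have e : G =ᶠ[𝓝 x] fun _ => 0 := by
          filter_upwards [(continuous_abs.tendsto x).eventually (lt_mem_nhds hx)] with y hy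
          exact hs y hy
        exact (h2 x).unique ((hasDerivAt_const x (0:ℝ)).congr_of_eventuallyEq e)
      refine ⟨fun x => ?_, fun x => (G' x - G x * ell' x) * Real.exp (- ell x), fun x => ?_, ?_⟩
      · rw [abs_mul, Real.abs_exp]
        have e1 : |G x| * Real.exp (- ell x) ≤ M * E := by
          rcases le_or_gt |x| b with hx | hx
          · exact mul_le_mul (h1 x) (hE x hx) (Real.exp_pos _).le hM
          · rw [hs x hx, abs_zero, zero_mul]
            exact mul_nonneg hM hE0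
        refine e1.trans ?_
        have e2 : (1:ℝ) ≤ C * (1 + 2 ^ j * a1) := by
          have : (0:ℝ) ≤ 2 ^ j * a1 := by positivity
          nlinarith
        nlinarith [mul_nonneg hM hE0]
      · have e1 := (h2 x).mul ((he x).neg.exp)
        refine HasDerivAt.congr_deriv e1 ?_
        simp only [Pi.neg_apply]
        ring
      · have e1 : O j (M + 2 ^ j * (M * a1)) fun x => G' x - G x * ell' x := h3.sub (hGl.mul ha1.lower)
        have e2 := hC he ha1.lower e1 (b := b) (E := E) (fun x hx => by rw [hs' x hx, hs x hx]; ring) hE hE0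
        refine e2.mono (le_of_eq ?_)
        ring

/-! ### the logarithmic derivative of `P` -/

section

variable [SeaC]

/-- the derivatives of `P` on the line -/
def Pn (k : ℕ) (x : ℝ) : ℝ := iteratedDeriv k P x

/-- their ratios with `P` -/
def qk (k : ℕ) (x : ℝ) : ℝ := Pn k x / P x

/-- `log P` -/
def ell (x : ℝ) : ℝ := Real.log (P x)

/-- its derivative -/
def ell' (x : ℝ) : ℝ := qk 1 x

lemma Pn_zero (x : ℝ) : Pn 0 x = P x := by
  unfold Pn
  rw [iteratedDeriv_zero]

/-- the distribution function of `P` -/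
def G (t : ℝ) : ℝ := ∫ u in (0:ℝ)..t, P u

/-- the mass to the right of `0` -/
def mR : ℝ := ∫ t in Ioi (0:ℝ), P t

/-- the mass to the left of `0` -/
def mL : ℝ := ∫ t in Iic (0:ℝ), P t

/-- the inverse of `G` -/
def Gi (u : ℝ) : ℝ := Function.invFun G u

/-- the transport of the mass equation -/
def ps (s : ℝ) (F : ℝ → ℝ) (x : ℝ) : ℝ := Gi (G x + F x / s)

/-- hypotheses on `F` -/
structure Hy (j : ℕ) (c s M b : ℝ) (F F' : ℝ → ℝ) : Prop where
  s0 : 0 < s
  b0 : 0 ≤ b
  der : ∀ x, HasDerivAt F (F' x) x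
  bd : ∀ x, |F x| ≤ M
  od : O j M F'
  zero : ∀ x, b ≤ |x| → F x = 0
  sm : M ≤ c * (s * P b)

/-- the derivative of the transport -/
def ps' (s : ℝ) (F F' : ℝ → ℝ) (x : ℝ) : ℝ := (P x + F' x / s) / P (ps s F x)

end

section

variable (B : SeaCB) [SeaC] [SeaCU B]

include B

lemma Pn_deriv (k : ℕ) (x : ℝ) : HasDerivAt (Pn k) (Pn (k + 1) x) x := by
  have h : ContDiff ℝ ∞ P := contDiff_P B
  have h1 : DifferentiableAt ℝ (iteratedDeriv k P) x :=
    (h.differentiable_iteratedDeriv k (by exact_mod_cast WithTop.coe_lt_top k)) x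
  have h2 := h1.hasDerivAt
  unfold Pn
  rwa [iteratedDeriv_succ]

lemma P_deriv (x : ℝ) : HasDerivAt P (Pn 1 x) x := by
  have h := Pn_deriv B 0 x
  have e : Pn 0 = P := funext Pn_zero
  rwa [e] at h

lemma qk_deriv (k : ℕ) (x : ℝ) : HasDerivAt (qk k) (qk (k + 1) x - qk k x * qk 1 x) x := by
  have h := (Pn_deriv B k x).div (P_deriv B x) (P_pos B x).ne'
  refine HasDerivAt.congr_deriv h ?_
  have := P_pos B x
  unfold qk
  field_simp

lemma ell_deriv (x : ℝ) : HasDerivAt ell (ell' x) x := (P_deriv B x).log (P_pos B x).ne'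

/-! ### the distribution function -/

lemma hasDerivAt_G (t : ℝ) : HasDerivAt G (P t) t :=
  intervalIntegral.integral_hasDerivAt_right ((P_cont B).intervalIntegrable _ _)
    (P_cont B).stronglyMeasurable.stronglyMeasurableAtFilter (P_cont B).continuousAt

lemma G_cont : Continuous G :=
  continuous_iff_continuousAt.2 fun x => (hasDerivAt_G B x).continuousAt

lemma G_strictMono : StrictMono G := by
  apply strictMono_of_deriv_pos
  intro x
  rw [(hasDerivAt_G B x).deriv]
  exact P_pos B x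

lemma mL_mR : mL + mR = 1 := by
  rw [← P_mass]
  have := integral_add_compl (measurableSet_Iic (a := (0:ℝ))) (P_int B)
  rwa [compl_Iic] at this

lemma G_top : Tendsto G atTop (𝓝 mR) :=
  intervalIntegral_tendsto_integral_Ioi 0 (P_int B).integrableOn tendsto_id

lemma G_bot : Tendsto G atBot (𝓝 (-mL)) := by
  have h := (intervalIntegral_tendsto_integral_Iic 0 (P_int B).integrableOn tendsto_id).neg
  refine h.congr fun t => ?_
  simp only [id, G]
  rw [intervalIntegral.integral_symm t 0]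

lemma G_lt (x : ℝ) : G x < mR :=
  (G_strictMono B (by linarith : x < x + 1)).trans_le
    (ge_of_tendsto (G_top B) ((eventually_ge_atTop (x + 1)).mono fun y hy =>
      (G_strictMono B).monotone hy))

lemma lt_G (x : ℝ) : -mL < G x :=
  (le_of_tendsto (G_bot B) ((eventually_le_atBot (x - 1)).mono fun y hy =>
      (G_strictMono B).monotone hy)).trans_lt (G_strictMono B (by linarith : x - 1 < x))

lemma G_surj {u : ℝ} (h1 : -mL < u) (h2 : u < mR) : ∃ x, G x = u := by
  obtain ⟨a, ha⟩ := ((G_bot B).eventually (gt_mem_nhds h1)).exists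
  obtain ⟨b, hb⟩ := ((G_top B).eventually (lt_mem_nhds h2)).exists
  exact mem_range_of_exists_le_of_exists_ge (G_cont B) ⟨a, ha.le⟩ ⟨b, hb.le⟩

lemma G_Gi {u : ℝ} (h1 : -mL < u) (h2 : u < mR) : G (Gi u) = u :=
  Function.invFun_eq (G_surj B h1 h2)

lemma Gi_G (x : ℝ) : Gi (G x) = x := (G_strictMono B).injective (G_Gi B (lt_G B x) (G_lt B x))

lemma Gi_cont {u : ℝ} (h1 : -mL < u) (h2 : u < mR) : ContinuousAt Gi u := by
  have hG := G_Gi B h1 h2
  refine tendsto_order.2 ⟨fun a ha => ?_, fun a ha => ?_⟩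
  · have h3 : G a < u := by
      rw [← hG]
      exact G_strictMono B ha
    filter_upwards [Ioo_mem_nhds h3 h2] with y hy
    rw [← (G_strictMono B).lt_iff_lt, G_Gi B ((lt_G B a).trans hy.1) hy.2]
    exact hy.1
  · have h3 : u < G a := by
      rw [← hG]
      exact G_strictMono B ha
    filter_upwards [Ioo_mem_nhds h1 h3] with y hy
    rw [← (G_strictMono B).lt_iff_lt, G_Gi B hy.1 (hy.2.trans (G_lt B a))]
    exact hy.2

lemma Gi_deriv {u : ℝ} (h1 : -mL < u) (h2 : u < mR) : HasDerivAt Gi (P (Gi u))⁻¹ u := by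
  refine HasDerivAt.of_local_left_inverse (Gi_cont B h1 h2) (hasDerivAt_G B (Gi u))
    (P_pos B _).ne' ?_
  filter_upwards [Ioo_mem_nhds h1 h2] with y hy
  exact G_Gi B hy.1 hy.2

end

theorem Pn_le (B : SeaCB) (k : ℕ) : ∃ C : ℝ, 0 ≤ C ∧ ∀ [SeaC] [SeaCU B], ∀ x : ℝ,
    |Pn k x| ≤ C * P x := by
  obtain ⟨C, hC, h⟩ := P_iter B k
  exact ⟨C, hC.le, @fun _ hS => h⟩

theorem qk_le (B : SeaCB) (k : ℕ) : ∃ C : ℝ, 0 ≤ C ∧ ∀ [SeaC] [SeaCU B], ∀ x : ℝ, |qk k x| ≤ C := by
  obtain ⟨C, hC, h⟩ := Pn_le B k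
  refine ⟨C, hC, @fun _ hS x => ?_⟩
  unfold qk
  rw [abs_div, abs_of_pos (P_pos B x), div_le_iff₀ (P_pos B x)]
  exact h x

theorem qk_O (B : SeaCB) (j : ℕ) : ∀ k : ℕ, ∃ a : ℝ, ∀ [SeaC] [SeaCU B], O j a (qk k) := by
  induction j with
  | zero =>
    intro k
    obtain ⟨C, hC, h⟩ := qk_le B k
    exact ⟨C, @fun _ hS => ⟨continuous_iff_continuousAt.2 fun x =>
      (qk_deriv B k x).continuousAt, h⟩⟩
  | succ j ih =>
    intro k
    obtain ⟨C, hC, h⟩ := qk_le B k
    obtain ⟨a, ha⟩ := ih k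
    obtain ⟨a', ha'⟩ := ih (k + 1)
    obtain ⟨b, hb⟩ := ih 1
    exact ⟨max C (a' + 2 ^ j * (a * b)), @fun _ hS => ⟨fun x => (h x).trans (le_max_left _ _), _,
      qk_deriv B k, (ha'.sub (ha.mul hb)).mono (le_max_right _ _)⟩⟩

theorem ell'_O (B : SeaCB) (j : ℕ) : ∃ a : ℝ, ∀ [SeaC] [SeaCU B], O j a ell' := qk_O B j 1

/-! ### comparison of values of `P` -/

/-- the constant of comparison -/
def c1 (B : SeaCB) : ℝ := (P_comp B).choose

lemma c1_pos (B : SeaCB) : 0 < c1 B := (P_comp B).choose_spec.1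

/-- the size of the displacement -/
def dd (B : SeaCB) [SeaC] (s M b : ℝ) : ℝ := M / (c1 B * (s * P b))

section

variable (B : SeaCB) [SeaC] [SeaCU B]

lemma P_compT {b y : ℝ} (hb : 0 ≤ b) (hy : |y| ≤ b + 1) : c1 B * P b ≤ P y :=
  (P_comp B).choose_spec.2 b y hb hy

include B

lemma G_gap {b x d : ℝ} (hb : 0 ≤ b) (hx : |x| ≤ b) (hd : 0 ≤ d) (hd1 : d ≤ 1) :
    c1 B * P b * d ≤ G (x + d) - G x := by
  have hx' := abs_le.1 hx
  have h1 : ∀ y ∈ Icc x (x + d), c1 B * P b ≤ P y := by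
    intro y hy
    apply P_compT B hb
    rw [abs_le]
    constructor <;> linarith [hy.1, hy.2, hx'.1, hx'.2]
  have := Convex.mul_sub_le_image_sub_of_le_deriv (D := Icc x (x + d)) (f := G) (C := c1 B * P b)
    (convex_Icc _ _) (fun y _ => (hasDerivAt_G B y).continuousAt.continuousWithinAt)
    (fun y _ => (hasDerivAt_G B y).differentiableAt.differentiableWithinAt)
    (fun y hy => by
      rw [(hasDerivAt_G B y).deriv]
      exact h1 y (interior_subset hy)) x ⟨le_refl _, by linarith⟩ (x + d)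
    ⟨by linarith, le_refl _⟩ (by linarith)
  rw [add_sub_cancel_left] at this
  exact this

lemma G_gap' {b x d : ℝ} (hb : 0 ≤ b) (hx : |x| ≤ b) (hd : 0 ≤ d) (hd1 : d ≤ 1) :
    c1 B * P b * d ≤ G x - G (x - d) := by
  have hx' := abs_le.1 hx
  have h1 : ∀ y ∈ Icc (x - d) x, c1 B * P b ≤ P y := by
    intro y hy
    apply P_compT B hb
    rw [abs_le]
    constructor <;> linarith [hy.1, hy.2, hx'.1, hx'.2]
  have := Convex.mul_sub_le_image_sub_of_le_deriv (D := Icc (x - d) x) (f := G) (C := c1 B * P b)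
    (convex_Icc _ _) (fun y _ => (hasDerivAt_G B y).continuousAt.continuousWithinAt)
    (fun y _ => (hasDerivAt_G B y).differentiableAt.differentiableWithinAt)
    (fun y hy => by
      rw [(hasDerivAt_G B y).deriv]
      exact h1 y (interior_subset hy)) (x - d) ⟨le_refl _, by linarith⟩ x
    ⟨by linarith, le_refl _⟩ (by linarith)
  rw [sub_sub_cancel] at this
  exact this

end

section

variable [SeaC] {j : ℕ} {c s M b : ℝ} {F F' : ℝ → ℝ}

lemma Hy.M0 (h : Hy j c s M b F F') : 0 ≤ M := (abs_nonneg _).trans (h.bd 0)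

lemma Hy.low (h : Hy (j + 1) c s M b F F') : Hy j c s M b F F' :=
  ⟨h.s0, h.b0, h.der, h.bd, h.od.lower, h.zero, h.sm⟩

lemma Hy.zero' (h : Hy j c s M b F F') {x : ℝ} (hx : b < |x|) : F' x = 0 := by
  have e : F =ᶠ[𝓝 x] fun _ => 0 := by
    filter_upwards [(continuous_abs.tendsto x).eventually (lt_mem_nhds hx)] with y hy
    exact h.zero y (le_of_lt hy)
  exact (h.der x).unique ((hasDerivAt_const x (0:ℝ)).congr_of_eventuallyEq e)

end

section

variable (B : SeaCB) [SeaC] [SeaCU B] {j : ℕ} {c s M b : ℝ} {F F' : ℝ → ℝ}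

include B

lemma Hy.rho (h : Hy j c s M b F F') : 0 < s * P b := mul_pos h.s0 (P_pos B b)

lemma Hy.weak {c' : ℝ} (h : Hy j c s M b F F') (hc : c ≤ c') : Hy j c' s M b F F' :=
  ⟨h.s0, h.b0, h.der, h.bd, h.od, h.zero, h.sm.trans (mul_le_mul_of_nonneg_right hc (h.rho B).le)⟩

lemma ps_zero (h : Hy j c s M b F F') {x : ℝ} (hx : b ≤ |x|) : ps s F x = x := by
  unfold ps
  rw [h.zero x hx, zero_div, add_zero, Gi_G B]

lemma dd_nonneg (h : Hy j c s M b F F') : 0 ≤ dd B s M b :=
  div_nonneg h.M0 (mul_pos (c1_pos B) (h.rho B)).le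

lemma dd_le (h : Hy j c s M b F F') (hc : c ≤ c1 B) : dd B s M b ≤ 1 := by
  unfold dd
  rw [div_le_one (mul_pos (c1_pos B) (h.rho B))]
  exact h.sm.trans (mul_le_mul_of_nonneg_right hc (h.rho B).le)

lemma dd_eq (h : Hy j c s M b F F') : c1 B * P b * dd B s M b = M / s := by
  have := h.s0
  have := P_pos B b
  have := (c1_pos B)
  unfold dd
  field_simp

lemma U_le (h : Hy j c s M b F F') (hc : c ≤ c1 B) (x : ℝ) : G x + F x / s ≤ G (x + dd B s M b) := by
  have hd := dd_nonneg B h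
  rcases le_or_gt b |x| with hx | hx
  · rw [h.zero x hx, zero_div, add_zero]
    exact (G_strictMono B).monotone (by linarith)
  · have h1 := G_gap B h.b0 hx.le hd (dd_le B h hc)
    rw [dd_eq B h] at h1
    have h2 : F x / s ≤ M / s := div_le_div_of_nonneg_right ((le_abs_self _).trans (h.bd x)) h.s0.le
    linarith

lemma le_U (h : Hy j c s M b F F') (hc : c ≤ c1 B) (x : ℝ) : G (x - dd B s M b) ≤ G x + F x / s := by
  have hd := dd_nonneg B h
  rcases le_or_gt b |x| with hx | hx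
  · rw [h.zero x hx, zero_div, add_zero]
    exact (G_strictMono B).monotone (by linarith)
  · have h1 := G_gap' B h.b0 hx.le hd (dd_le B h hc)
    rw [dd_eq B h] at h1
    have h2 : (-F x) / s ≤ M / s := div_le_div_of_nonneg_right ((neg_le_abs _).trans (h.bd x)) h.s0.le
    rw [neg_div] at h2
    linarith

lemma U_lt (h : Hy j c s M b F F') (hc : c ≤ c1 B) (x : ℝ) : G x + F x / s < mR :=
  (U_le B h hc x).trans_lt (G_lt B _)

lemma lt_U (h : Hy j c s M b F F') (hc : c ≤ c1 B) (x : ℝ) : -mL < G x + F x / s :=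
  (lt_G B _).trans_le (le_U B h hc x)

lemma G_ps (h : Hy j c s M b F F') (hc : c ≤ c1 B) (x : ℝ) : G (ps s F x) = G x + F x / s :=
  G_Gi B (lt_U B h hc x) (U_lt B h hc x)

lemma ps_le (h : Hy j c s M b F F') (hc : c ≤ c1 B) (x : ℝ) : |ps s F x - x| ≤ dd B s M b := by
  have h1 := U_le B h hc x
  have h2 := le_U B h hc x
  rw [← G_ps B h hc] at h1 h2
  have h3 := (G_strictMono B).le_iff_le.1 h1
  have h4 := (G_strictMono B).le_iff_le.1 h2
  rw [abs_le]
  constructor <;> linarith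

lemma ps_deriv (h : Hy j c s M b F F') (hc : c ≤ c1 B) (x : ℝ) : HasDerivAt (ps s F) (ps' s F F' x) x := by
  have h1 := Gi_deriv B (lt_U B h hc x) (U_lt B h hc x)
  have h2 := (hasDerivAt_G B x).add ((h.der x).div_const s)
  have h3 := HasDerivAt.comp x h1 h2
  refine HasDerivAt.congr_deriv h3 ?_
  unfold ps'
  rw [mul_comm, ← div_eq_mul_inv]
  rfl

lemma ps_cont (h : Hy j c s M b F F') (hc : c ≤ c1 B) : Continuous (ps s F) :=
  continuous_iff_continuousAt.2 fun x => (ps_deriv B h hc x).continuousAt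

lemma ps'_pos (h : Hy j c s M b F F') (hc : c ≤ c1 B / 2) (x : ℝ) : 0 < ps' s F F' x := by
  unfold ps'
  apply div_pos _ (P_pos B _)
  have hs := h.s0
  rcases lt_or_ge b |x| with hx | hx
  · rw [h.zero' hx, zero_div, add_zero]
    exact P_pos B x
  · have h1 := P_compT B h.b0 (hx.trans (by linarith) : |x| ≤ b + 1)
    have h2 : |F' x / s| ≤ c1 B / 2 * P b := by
      rw [abs_div, abs_of_pos hs, div_le_iff₀ hs]
      refine (h.od.le x).trans (h.sm.trans ?_)
      have := mul_le_mul_of_nonneg_right hc (h.rho B).le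
      linarith
    have h3 := (abs_le.1 h2).1
    have h4 := mul_pos (c1_pos B) (P_pos B b)
    linarith

theorem ps_dif (h : Hy j c s M b F F') (hc : c ≤ c1 B / 2) : Dif (ps s F) (ps' s F F') := by
  have hc1 := (c1_pos B)
  have hc' : c ≤ c1 B := by linarith
  refine ⟨ps_deriv B h hc', ps'_pos B h hc, ?_⟩
  apply Continuous.surjective (ps_cont B h hc')
  · refine tendsto_id.congr' ?_
    filter_upwards [eventually_ge_atTop b] with x hx
    exact (ps_zero B h (hx.trans (le_abs_self x))).symm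
  · refine tendsto_id.congr' ?_
    filter_upwards [eventually_le_atBot (-b)] with x hx
    have : b ≤ |x| := by
      rw [le_abs]
      right
      linarith
    exact (ps_zero B h this).symm

lemma ps_mono (h : Hy j c s M b F F') (hc : c ≤ c1 B / 2) : StrictMono (ps s F) := by
  have hd := ps_dif B h hc
  apply strictMono_of_deriv_pos
  intro x
  rw [(hd.der x).deriv]
  exact hd.pos x

theorem ps_abs (h : Hy j c s M b F F') (hc : c ≤ c1 B / 2) {R : ℝ} (hR : b ≤ R) (x : ℝ) :
    |ps s F x| ≤ R ↔ |x| ≤ R := by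
  have hb := h.b0
  have hR0 : 0 ≤ R := hb.trans hR
  have e1 : ps s F R = R := ps_zero B h (by rwa [abs_of_nonneg hR0])
  have e2 : ps s F (-R) = -R := ps_zero B h (by rwa [abs_neg, abs_of_nonneg hR0])
  have hm := ps_mono B h hc
  rw [abs_le, abs_le]
  constructor
  · rintro ⟨h1, h2⟩
    constructor
    · rw [← hm.le_iff_le, e2]; exact h1
    · rw [← hm.le_iff_le, e1]; exact h2
  · rintro ⟨h1, h2⟩
    constructor
    · rw [← e2]; exact hm.monotone h1
    · rw [← e1]; exact hm.monotone h2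

/-- the derivative of the displacement -/
lemma xi_deriv (h : Hy j c s M b F F') (hc : c ≤ c1 B) (x : ℝ) : HasDerivAt (fun x => ps s F x - x)
    ((Real.exp (-(ell (x + (ps s F x - x)) - ell x)) - 1) + F' x / s * Real.exp (- ell x) *
      (1 + (Real.exp (-(ell (x + (ps s F x - x)) - ell x)) - 1))) x := by
  refine HasDerivAt.congr_deriv ((ps_deriv B h hc x).sub (hasDerivAt_id x)) ?_
  have hP := P_pos B x
  have hP' := P_pos B (ps s F x)
  have e1 : x + (ps s F x - x) = ps s F x := by ring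
  rw [e1]
  have e2 : Real.exp (-(ell (ps s F x) - ell x)) = P x / P (ps s F x) := by
    unfold ell
    rw [neg_sub, Real.exp_sub, Real.exp_log hP, Real.exp_log hP']
  have e3 : Real.exp (- ell x) = (P x)⁻¹ := by
    unfold ell
    rw [Real.exp_neg, Real.exp_log hP]
  rw [e2, e3]
  unfold ps'
  have := h.s0
  field_simp
  ring

end

lemma xi_step (B : SeaCB) (j : ℕ) {C c : ℝ} (hC1 : 1 ≤ C) (hc0 : 0 < c) (hc : c ≤ c1 B / 2)
    (H : ∀ [SeaC] [SeaCU B], ∀ {s M b : ℝ} {F F' : ℝ → ℝ}, Hy j c s M b F F' → O j (C * (M / (s * P b))) fun x => ps s F x - x) :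
    ∃ C' c' : ℝ, 1 ≤ C' ∧ 0 < c' ∧ c' ≤ c1 B / 2 ∧ ∀ [SeaC] [SeaCU B], ∀ {s M b : ℝ} {F F' : ℝ → ℝ},
    Hy j c' s M b F F' → O (j + 1) (C' * (M / (s * P b))) fun x => ps s F x - x := by
  obtain ⟨a2, ha2⟩ := ell'_O B j
  obtain ⟨a1, ha0, ha1⟩ : ∃ a1 : ℝ, 0 ≤ a1 ∧ ∀ [SeaC] [SeaCU B], O j a1 ell' :=
    ⟨max a2 0, le_max_right _ _, ha2.mono (le_max_left _ _)⟩
  obtain ⟨Cd, hCd1, hCd⟩ := O.delta j
  obtain ⟨Ce, hCe1, hCe⟩ := O.exp j
  obtain ⟨Cm, hCm1, hCm⟩ := O_mul_exp j a1
  have hc1 := (c1_pos B)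
  have hA : 0 < C * (1 + Cd * a1) := by
    have : 0 ≤ Cd * a1 := by positivity
    positivity
  refine ⟨C + (Ce * (Cd * (a1 * C)) + 2 ^ j * (Cm / c1 B * (1 + Ce))), min c (1 / (C * (1 + Cd * a1))), ?_,
    lt_min hc0 (by positivity), (min_le_left _ _).trans hc, @fun _ hS s M b F F' h => ?_⟩
  · have : 0 ≤ Ce * (Cd * (a1 * C)) + 2 ^ j * (Cm / c1 B * (1 + Ce)) := by positivity
    linarith
  have hr := (h.rho B)
  have hM := h.M0
  set mu := M / (s * P b) with hmu
  have hmu0 : 0 ≤ mu := div_nonneg hM hr.le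
  have hmu1 : mu ≤ 1 / (C * (1 + Cd * a1)) := by
    rw [hmu, div_le_iff₀ hr]
    exact h.sm.trans (mul_le_mul_of_nonneg_right (min_le_right _ _) hr.le)
  have hmu2 : mu * (C * (1 + Cd * a1)) ≤ 1 := (le_div_iff₀ hA).1 hmu1
  have hh := h.weak B (min_le_left c _)
  have hcc : c ≤ c1 B := by linarith
  have g1 := H hh
  have hl : C * mu ≤ 1 := by
    have : 0 ≤ mu * C * (Cd * a1) := by positivity
    nlinarith
  have hl' : Cd * (a1 * (C * mu)) ≤ 1 := by
    have : 0 ≤ C * mu := by positivity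
    nlinarith
  have g2 := (hCd (ell_deriv B) ha1 g1 hl).neg
  have g3 := hCe g2 hl'
  have hE0 : 0 ≤ 1 / (c1 B * P b) := by
    have := P_pos B b
    positivity
  have g4 : O j (Cm * (|1 / s| * M * (1 / (c1 B * P b)))) fun x => (1 / s) * F' x * Real.exp (- ell x) := by
    refine hCm (ell_deriv B) ha1 (h.od.smul (1 / s)) (b := b) (fun x hx => by rw [h.zero' hx, mul_zero]) (fun x hx => ?_) hE0
    unfold ell
    rw [Real.exp_neg, Real.exp_log (P_pos B x), ← one_div]
    have := P_pos B b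
    exact one_div_le_one_div_of_le (by positivity) (P_compT B h.b0 (by linarith))
  have g5 : O j (1 + Ce) fun x => 1 + (Real.exp (-(ell (x + (ps s F x - x)) - ell x)) - 1) := by
    refine ((O.const (a := 1) (c := 1) j (by simp)).add g3).mono ?_
    have : Ce * (Cd * (a1 * (C * mu))) ≤ Ce * 1 := mul_le_mul_of_nonneg_left hl' (by linarith)
    linarith
  have e0 : Cm * (|1 / s| * M * (1 / (c1 B * P b))) = Cm / c1 B * mu := by
    have := h.s0
    have := P_pos B b
    rw [abs_of_pos (by positivity), hmu]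
    field_simp
  rw [e0] at g4
  have g6 := g3.add (g4.mul g5)
  refine ⟨fun x => (g1.le x).trans ?_, _, xi_deriv B hh hcc, ?_⟩
  · have : 0 ≤ (Ce * (Cd * (a1 * C)) + 2 ^ j * (Cm / c1 B * (1 + Ce))) * mu := by positivity
    nlinarith
  · refine (g6.mono ?_).congr fun x => ?_
    · have : 0 ≤ C * mu := by positivity
      nlinarith
    · simp only [one_div]
      ring

lemma xi_base (B : SeaCB) (j : ℕ) : ∃ C c : ℝ, 1 ≤ C ∧ 0 < c ∧ c ≤ c1 B / 2 ∧ ∀ [SeaC] [SeaCU B], ∀ {s M b : ℝ} {F F' : ℝ → ℝ},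
    Hy j c s M b F F' → O j (C * (M / (s * P b))) fun x => ps s F x - x := by
  induction j with
  | zero =>
    have hc1 := (c1_pos B)
    refine ⟨max 1 (1 / c1 B), c1 B / 2, le_max_left _ _, by positivity, le_refl _, @fun _ hS s M b F F' h => ?_⟩
    have hcc : c1 B / 2 ≤ c1 B := by linarith
    refine ⟨(ps_cont B h hcc).sub continuous_id, fun x => (ps_le B h hcc x).trans ?_⟩
    have hr := (h.rho B)
    have hM := h.M0
    have e : dd B s M b = 1 / c1 B * (M / (s * P b)) := by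
      unfold dd
      field_simp
    rw [e]
    exact mul_le_mul_of_nonneg_right (le_max_right _ _) (div_nonneg hM hr.le)
  | succ j ih =>
    obtain ⟨C, c, h1, h2, h3, h4⟩ := ih
    obtain ⟨C', c', k1, k2, k3, k4⟩ := xi_step B j h1 h2 h3 h4
    exact ⟨C', c', k1, k2, k3, @fun _ hS _ _ _ _ _ h => k4 h.low⟩

/-- **the displacement is small with its derivatives** -/
theorem xi_O (B : SeaCB) (j : ℕ) : ∃ C c : ℝ, 1 ≤ C ∧ 0 < c ∧ c ≤ c1 B / 2 ∧ ∀ [SeaC] [SeaCU B], ∀ {s M b : ℝ} {F F' : ℝ → ℝ},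
    Hy j c s M b F F' → O (j + 1) (C * (M / (s * P b))) fun x => ps s F x - x := by
  obtain ⟨C, c, h1, h2, h3, h4⟩ := xi_base B j
  exact xi_step B j h1 h2 h3 h4

end

end PLT.Cv
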