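import Pool.Agent.NU42.Split
import Pool.Agent.NU42.NuF

/-!
# Displacements with slope at most `3 / 10` and oscillation at most `1 / 40`: the kernels `kw`, `kg` are defined

`sm_of`, `sm2_of`, **`small_of`**: the hypotheses `Sm`, `Sm2`, `Small` of the pair kernels for a static curve (oscillation
`3 / 50 l`, slope `1 / 4`) with a small displacement; `bk_of`: the kernels are bounded and continuous.
-/

set_option autoImplicit false

open MeasureTheory Set Filter Topology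

namespace PLT.Cv

open NUKer NU42

noncomputable section

variable {D D1 D' D1' : ℝ → ℂ}

lemma exp20_le {x : ℝ} (h : x ≤ 1 / 20) : Real.exp x ≤ 11 / 10 := by
  refine (Real.exp_le_exp.2 h).trans ?_
  have h1 : Real.exp (1 / 20) ^ 20 = Real.exp 1 := by
    rw [← Real.exp_nat_mul]
    norm_num
  have h2 := Real.exp_one_lt_d9
  by_contra h3
  push Not at h3
  have h4 : (11 / 10 : ℝ) ^ 20 < Real.exp (1 / 20) ^ 20 := pow_lt_pow_left₀ h3 (by norm_num) (by norm_num)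
  rw [h1] at h4
  norm_num at h4
  linarith

lemma r_le7 : NUMF.r ≤ 71 / 100 := by
  unfold NUMF.r
  have : √2 ≤ 142 / 100 := by
    rw [Real.sqrt_le_left (by norm_num)]
    norm_num
  linarith

lemma Bc_le {c : ℝ} (h0 : -1 ≤ c) (h1 : c ≤ 71 / 100) : Bc c ≤ 7 := by
  unfold Bc
  have h2 : 0 < 1 - c := by linarith
  have h3 : (1 + |c|) / (1 - c) ≤ 6 := by
    rw [div_le_iff₀ h2]
    rcases abs_cases c with ⟨h, -⟩ | ⟨h, -⟩ <;> rw [h] <;> linarith
  linarith

/-- the relative change of `cosh 2z - c` -/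
lemma yc_le {c : ℝ} (h0 : -1 ≤ c) (h1 : c ≤ 71 / 100) {t t' : ℝ} (h : ‖D t - D' t'‖ ≤ 1 / 40) :
    ‖Yc c D D' t t'‖ ≤ 1 / 2 := by
  have hc : c < 1 := by linarith
  have hz : ‖2 * (D t - D' t')‖ ≤ 1 / 20 := by
    rw [norm_mul, Complex.norm_ofNat]
    linarith
  have hz0 := norm_nonneg (2 * (D t - D' t'))
  have he : Real.exp ‖2 * (D t - D' t')‖ ≤ 11 / 10 := exp20_le hz
  have hE := (Real.exp_pos ‖2 * (D t - D' t')‖).le
  have e1 := norm_cosh_sub_one_le (2 * (D t - D' t'))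
  have e2 := norm_sinh_le (2 * (D t - D' t'))
  have f1 := (fC_abs hc (t - t')).trans (Bc_le h0 h1)
  have f2 := (fS_abs hc (t - t')).trans (Bc_le h0 h1)
  have g1 : ‖Complex.cosh (2 * (D t - D' t')) - 1‖ ≤ (1 / 20) ^ 2 * (11 / 10) := e1.trans (by gcongr)
  have g2 : ‖Complex.sinh (2 * (D t - D' t'))‖ ≤ 1 / 20 * (11 / 10) := e2.trans (by gcongr)
  unfold Yc
  refine (norm_add_le _ _).trans ?_
  rw [norm_mul, norm_mul, Complex.norm_real, Complex.norm_real, Real.norm_eq_abs, Real.norm_eq_abs]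
  calc ‖Complex.cosh (2 * (D t - D' t')) - 1‖ * |fC c (t - t')| +
      ‖Complex.sinh (2 * (D t - D' t'))‖ * |fS c (t - t')| ≤
      (1 / 20) ^ 2 * (11 / 10) * 7 + 1 / 20 * (11 / 10) * 7 := by gcongr
    _ ≤ 1 / 2 := by norm_num

/-- the relative change of `sinh z` -/
lemma y0_le (hD : ∀ x, HasDerivAt D (D1 x) x) (hc : Continuous D1) (h1 : ∀ x, ‖D1 x‖ ≤ 3 / 10) {t t' : ℝ}
    (h : ‖D t - D t'‖ ≤ 1 / 40) : ‖Y0 D D1 t t'‖ ≤ 1 / 2 := by
  have hz0 := norm_nonneg (D t - D t')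
  have he : Real.exp ‖D t - D t'‖ ≤ 11 / 10 := exp20_le (h.trans (by norm_num))
  have q1 := norm_cosh_sub_one_le (D t - D t')
  have q2 := norm_shc_le (D t - D t')
  have q3 := sub_eq_qd hD hc t t'
  have q4 : |t - t'| * ‖qd D1 t t'‖ ≤ 1 / 40 := by
    have : ‖D t - D t'‖ = |t - t'| * ‖qd D1 t t'‖ := by
      rw [q3, norm_mul, Complex.norm_real, Real.norm_eq_abs]
    linarith
  have q5 := norm_nonneg (qd D1 t t')
  have q6 := qd_norm_le h1 t t'
  have q7 : |xcoth (t - t')| * ‖qd D1 t t'‖ ≤ 3 / 10 + 1 / 40 := by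
    calc |xcoth (t - t')| * ‖qd D1 t t'‖ ≤ (1 + |t - t'|) * ‖qd D1 t t'‖ := by
          gcongr
          exact xcoth_abs _
      _ = ‖qd D1 t t'‖ + |t - t'| * ‖qd D1 t t'‖ := by ring
      _ ≤ _ := by linarith
  have g1 : ‖Complex.cosh (D t - D t') - 1‖ ≤ (1 / 40) ^ 2 * (11 / 10) := by
    refine q1.trans ?_
    gcongr
  have g2 : ‖(xcoth (t - t') : ℂ) * qd D1 t t' * shc (D t - D t')‖ ≤ (3 / 10 + 1 / 40) * (11 / 10) := by
    rw [norm_mul, norm_mul, Complex.norm_real, Real.norm_eq_abs]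
    have := q2.trans he
    gcongr
  unfold Y0
  refine (norm_add_le _ _).trans ((add_le_add g1 g2).trans (by norm_num))

/-- one curve -/
theorem sm_of (hD : ∀ x, HasDerivAt D (D1 x) x) (hc : Continuous D1) (h1 : ∀ x, ‖D1 x‖ ≤ 3 / 10)
    (h0 : ∀ t t', ‖D t - D t'‖ ≤ 1 / 40) (R : ℝ) : Sm R D D1 where
  hD := hD
  hc := hc
  y0 t t' _ _ := y0_le hD hc h1 (h0 t t')
  yz t t' _ _ := yc_le (by norm_num) (by norm_num) (h0 t t')
  yr t t' _ _ := yc_le (by linarith [r_pos]) r_le7 (h0 t t')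

/-- two curves -/
theorem sm2_of (h0 : ∀ t t', ‖D t - D' t'‖ ≤ 1 / 40) (R : ℝ) : Sm2 R D D' where
  y1 t t' _ _ := yc_le (by norm_num) (by norm_num) (h0 t t')
  y2 t t' _ _ := yc_le (by linarith [r_le7]) (by linarith [r_pos]) (h0 t t')

/-- **both species** -/
theorem small_of (hD : ∀ x, HasDerivAt D (D1 x) x) (hc : Continuous D1) (h1 : ∀ x, ‖D1 x‖ ≤ 3 / 10)
    (hD' : ∀ x, HasDerivAt D' (D1' x) x) (hc' : Continuous D1') (h1' : ∀ x, ‖D1' x‖ ≤ 3 / 10)
    (h0 : ∀ t t', ‖D t - D t'‖ ≤ 1 / 40) (h0' : ∀ t t', ‖D' t - D' t'‖ ≤ 1 / 40)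
    (h2 : ∀ t t', ‖D t - D' t'‖ ≤ 1 / 40) : Small D D1 D' D1' where
  sX := sm_of hD hc h1 h0
  sY := sm_of hD' hc' h1' h0'
  sXY := sm2_of h2
  jX t := one_add_ne ((h1 t).trans (by norm_num))
  jY t := one_add_ne ((h1' t).trans (by norm_num))

/-! ### bounds and continuity -/

lemma kc_abs {c : ℝ} {t t' : ℝ} (h : ‖Yc c D D' t t'‖ ≤ 1 / 2) : |kc c D D' t t'| ≤ 2 := by
  have h1 := (Complex.abs_re_le_norm _).trans (norm_log_le h)
  unfold kc
  linarith

lemma k0_abs {t t' : ℝ} (h : ‖Y0 D D1 t t'‖ ≤ 1 / 2) : |k0 D D1 t t'| ≤ 2 := by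
  have h1 := (Complex.abs_re_le_norm _).trans (norm_log_le h)
  unfold k0
  linarith

/-- **the own kernel is bounded and continuous** -/
theorem bk_w (hD : ∀ x, HasDerivAt D (D1 x) x) (hc : Continuous D1) (h1 : ∀ x, ‖D1 x‖ ≤ 3 / 10)
    (h0 : ∀ t t', ‖D t - D t'‖ ≤ 1 / 40) : NU42.Bk 8 (kw D D1) where
  cont := by
    have cD : Continuous D := continuous_iff_continuousAt.2 fun x => (hD x).continuousAt
    have c0 := k0_cont cD hc fun t t' => y0_le hD hc h1 (h0 t t')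
    have c1 := kc_cont (c := 0) (by norm_num) cD cD fun t t' => yc_le (by norm_num) (by norm_num) (h0 t t')
    have c2 := kc_cont (c := NUMF.r) r_lt cD cD fun t t' => yc_le (by linarith [r_pos]) r_le7 (h0 t t')
    unfold kw
    fun_prop
  le t t' := by
    have q0 := abs_le.1 (k0_abs (y0_le hD hc h1 (h0 t t')))
    have q1 := abs_le.1 (kc_abs (yc_le (c := 0) (by norm_num) (by norm_num) (h0 t t')))
    have q2 := abs_le.1 (kc_abs (yc_le (by linarith [r_pos]) r_le7 (h0 t t')))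
    unfold kw
    rw [abs_le]
    constructor <;> linarith

/-- **the cross kernel is bounded and continuous** -/
theorem bk_g (cD : Continuous D) (cD' : Continuous D') (h0 : ∀ t t', ‖D t - D' t'‖ ≤ 1 / 40) :
    NU42.Bk 8 (kg D D') where
  cont := by
    have c1 := kc_cont (c := -1) (by norm_num) cD cD' fun t t' => yc_le (by norm_num) (by norm_num) (h0 t t')
    have c2 := kc_cont (c := -NUMF.r) (by linarith [r_pos]) cD cD' fun t t' =>
      yc_le (by linarith [r_le7]) (by linarith [r_pos]) (h0 t t')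
    unfold kg
    fun_prop
  le t t' := by
    have q1 := abs_le.1 (kc_abs (yc_le (c := -1) (by norm_num) (by norm_num) (h0 t t')))
    have q2 := abs_le.1 (kc_abs (yc_le (c := -NUMF.r) (by linarith [r_le7]) (by linarith [r_pos]) (h0 t t')))
    unfold kg
    rw [abs_le]
    constructor <;> linarith

end

end PLT.Cv
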