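import Pool.Agent.PLT.DatOc
import Pool.Agent.PLT.SmallC
import Pool.Agent.PLT.ExpoR
import Pool.Agent.NUKer.LogC

/-!
# The action identity of the data of a configuration on a static curve

`NF_eq`: expansion of the form of all species; `kap_eq`: the kernels of the gas are the moving kernels `X.kd`;
`vr_eq`: the straight field of the sea; **`datC_act`**, **`exists_geoC`**: `Gs.Geo (datC I O) tc 8`.
-/

set_option autoImplicit false
set_option linter.unusedSectionVars false
set_option linter.unusedVariables false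

open MeasureTheory Set Filter Topology Complex

namespace PLT

open NUMF (l l_pos w g V)
open NUKer
open NU42

noncomputable section

/-! ### the form of all species -/

namespace Gs

variable {ρ : Bool → ℝ → ℝ} {κ κ' : Bool → Bool → ℝ → ℝ → ℝ} {C C' : ℝ} {p n : ℕ}

/-- species of a point -/
def sig (p n : ℕ) : Fin p ⊕ Fin n → Bool := Sum.elim (fun _ => true) (fun _ => false)

/-- all points -/
def pts (t : Fin p → ℝ) (t' : Fin n → ℝ) : Fin p ⊕ Fin n → ℝ := Sum.elim t t'

lemma int_rk (hρ : ∀ a, Dens (ρ a)) (hk : ∀ a b, Bk C (κ a b)) (a b : Bool) :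
    Integrable fun x => ρ a x * ∫ u, κ a b x u * ρ b u := by
  refine (int_bd (hρ a) (cv_cont (hρ b) (hk a b))
    fun x => abs_int_le (hρ b) ((hk a b).le x)).congr (ae_of_all _ fun x => ?_)
  simp only
  ring

/-- **expansion of the form of all species** -/
theorem NF_eq (hρ : ∀ a, Dens (ρ a)) (hk : ∀ a b, Bk C (κ a b)) (hs : ∀ a b t t', κ a b t t' = κ b a t' t)
    (t : Fin p → ℝ) (t' : Fin n → ℝ) : NF ρ κ t t' =
      ∑ i, ∑ j, κ (sig p n i) (sig p n j) (pts t t' i) (pts t t' j) -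
        2 * ∑ i, ∑ b, (∫ u, κ (sig p n i) b (pts t t' i) u * ρ b u) +
        ∑ a, ∫ x, ρ a x * ∑ b, ∫ u, κ a b x u * ρ b u := by
  have hT := hρ true
  have hF := hρ false
  unfold NF
  rw [nuF2_expand hT hT t t (hk true true), nuF2_expand hT hF t t' (hk true false),
    nuF2_expand hF hT t' t (hk false true), nuF2_expand hF hF t' t' (hk false false)]
  unfold sig pts
  simp only [Fintype.sum_sum_type, Sum.elim_inl, Sum.elim_inr, Fintype.sum_bool]
  have e1 : ∀ (a b : Bool) (x : ℝ), ∫ u, κ a b u x * ρ a u = ∫ u, κ b a x u * ρ a u := by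
    intro a b x
    refine integral_congr_ae (ae_of_all _ fun u => ?_)
    simp only
    rw [hs a b u x]
  simp only [e1]
  have e3 : ∀ a : Bool, ∫ x, ρ a x * ((∫ u, κ a true x u * ρ true u) +
      ∫ u, κ a false x u * ρ false u) = (∫ x, (∫ u, κ a true x u * ρ true u) * ρ a x) +
        ∫ x, (∫ u, κ a false x u * ρ false u) * ρ a x := by
    intro a
    have e4 : ∀ x, ρ a x * ((∫ u, κ a true x u * ρ true u) +
        ∫ u, κ a false x u * ρ false u) =
        ρ a x * (∫ u, κ a true x u * ρ true u) + ρ a x * ∫ u, κ a false x u * ρ false u := by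
      intro x
      ring
    simp_rw [e4]
    rw [integral_add (int_rk hρ hk a true) (int_rk hρ hk a false)]
    congr 1
    · refine integral_congr_ae (ae_of_all _ fun x => ?_)
      simp only
      ring
    · refine integral_congr_ae (ae_of_all _ fun x => ?_)
      simp only
      ring
  rw [e3, e3]
  simp only [Finset.sum_add_distrib]
  ring

/-- the form is linear in the kernels -/
theorem NF_add (hρ : ∀ a, Dens (ρ a)) (hk : ∀ a b, Bk C (κ a b)) (hk' : ∀ a b, Bk C' (κ' a b))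
    (hs : ∀ a b t t', κ a b t t' = κ b a t' t) (hs' : ∀ a b t t', κ' a b t t' = κ' b a t' t)
    (t : Fin p → ℝ) (t' : Fin n → ℝ) : NF ρ (fun a b t t' => κ a b t t' + κ' a b t t') t t' =
      NF ρ κ t t' + NF ρ κ' t t' := by
  have hk2 : ∀ a b, Bk (C + C') (fun t t' => κ a b t t' + κ' a b t t') := fun a b =>
    ⟨(hk a b).cont.add (hk' a b).cont, fun t t' =>
      (abs_add_le _ _).trans (add_le_add ((hk a b).le t t') ((hk' a b).le t t'))⟩
  have hs2 : ∀ a b t t', κ a b t t' + κ' a b t t' = κ b a t' t + κ' b a t' t := fun a b t t' => by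
    rw [hs a b t t', hs' a b t t']
  rw [NF_eq hρ hk2 hs2, NF_eq hρ hk hs, NF_eq hρ hk' hs']
  have e1 : ∀ a b x, ∫ u, (κ a b x u + κ' a b x u) * ρ b u =
      (∫ u, κ a b x u * ρ b u) + ∫ u, κ' a b x u * ρ b u := by
    intro a b x
    rw [← integral_add (int_bd (hρ b) ((hk a b).right x) ((hk a b).le x))
      (int_bd (hρ b) ((hk' a b).right x) ((hk' a b).le x))]
    refine integral_congr_ae (ae_of_all _ fun u => ?_)
    simp only
    ring
  simp only [e1]
  have e2 : ∀ a, ∫ x, ρ a x * ∑ b, ((∫ u, κ a b x u * ρ b u) + ∫ u, κ' a b x u * ρ b u) =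
      (∫ x, ρ a x * ∑ b, ∫ u, κ a b x u * ρ b u) + ∫ x, ρ a x * ∑ b, ∫ u, κ' a b x u * ρ b u := by
    intro a
    have i1 : Integrable fun x => ρ a x * ∑ b, ∫ u, κ a b x u * ρ b u := by
      simp only [Finset.mul_sum]
      exact integrable_finsetSum _ fun b _ => int_rk hρ hk a b
    have i2 : Integrable fun x => ρ a x * ∑ b, ∫ u, κ' a b x u * ρ b u := by
      simp only [Finset.mul_sum]
      exact integrable_finsetSum _ fun b _ => int_rk hρ hk' a b
    rw [← integral_add i1 i2]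
    refine integral_congr_ae (ae_of_all _ fun x => ?_)
    simp only [Finset.sum_add_distrib]
    ring
  simp only [e2]
  simp only [Finset.sum_add_distrib]
  ring

end Gs

namespace Cv

open NUAct (Us Ux Up Gas)
open NUSea.PLX.H0 (Inp Vn)

/-! ### the total displacement -/

section

variable [SeaC]

/-- the total displacement -/
def Dt (η : ℝ → ℝ) (t : ℝ) : ℂ := iD eta t + gD η t

/-- its derivative -/
def Dt1 (η η1 : ℝ → ℝ) (t : ℝ) : ℂ := iD (deriv eta) t + gD1 η η1 t

lemma zt_Dt (η : ℝ → ℝ) (t : ℝ) : zt (gD η) t = (t : ℂ) + Dt η t := by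
  unfold zt Dt ga iD
  ring

lemma zt_fun (η : ℝ → ℝ) : (fun x : ℝ => (x : ℂ) + Dt η x) = zt (gD η) := funext fun t => (zt_Dt η t).symm

lemma ga_Dt (t : ℝ) : ga t = (t : ℂ) + iD eta t := by
  unfold ga iD
  ring

lemma ga_fun : (fun x : ℝ => (x : ℂ) + iD eta x) = ga := funext fun t => (ga_Dt t).symm

lemma hasDerivAt_Dt {η η1 : ℝ → ℝ} (h1 : ∀ t, HasDerivAt η (η1 t) t) (t : ℝ) :
    HasDerivAt (Dt η) (Dt1 η η1 t) t :=
  ((hasDerivAt_eta t).ofReal_comp.mul_const I).add (hasDerivAt_gD h1 t)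

lemma norm_iD (η : ℝ → ℝ) (t : ℝ) : ‖iD η t‖ = |η t| := by
  unfold iD
  rw [norm_mul, Complex.norm_I, mul_one, Complex.norm_real, Real.norm_eq_abs]

lemma hasDerivAt_iDeta (t : ℝ) : HasDerivAt (iD eta) (iD (deriv eta) t) t :=
  (hasDerivAt_eta t).ofReal_comp.mul_const I

lemma cont_iDeta' : Continuous (iD (deriv eta)) := by
  unfold iD
  exact (Complex.continuous_ofReal.comp continuous_eta').mul continuous_const

lemma eta_osc' (t u : ℝ) : |eta t - eta u| ≤ 3 / 50 * l := by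
  first
  | exact eta_osc3 t u
  | (have h1 := eta_nn t
     have h2 := eta_le t
     have h3 := eta_nn u
     have h4 := eta_le u
     rw [abs_le]
     constructor <;> linarith)

lemma iDeta_osc (t u : ℝ) : ‖iD eta t - iD eta u‖ ≤ 3 / 50 * l := by
  have e : iD eta t - iD eta u = iD (fun _ => eta t - eta u) 0 := by
    unfold iD
    push_cast
    ring
  rw [e, norm_iD]
  exact eta_osc' t u

lemma iDeta1_le (t : ℝ) : ‖iD (deriv eta) t‖ ≤ 1 / 4 := by
  rw [norm_iD]
  exact eta'_le t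

lemma l_lt40 : 3 / 50 * l ≤ 1 / 40 - 1 / 1000 := by
  have h1 := Real.pi_lt_d2
  have h3 : l = Real.pi / 8 := rfl
  rw [h3]
  linarith

/-- the static displacement is small -/
lemma small_st : Small (iD eta) (iD (deriv eta)) (iD eta) (iD (deriv eta)) := by
  have h1 : ∀ x, ‖iD (deriv eta) x‖ ≤ 3 / 10 := fun x => (iDeta1_le x).trans (by norm_num)
  have h0 : ∀ t t', ‖iD eta t - iD eta t'‖ ≤ 1 / 40 := fun t t' =>
    (iDeta_osc t t').trans (l_lt40.trans (by norm_num))
  exact small_of hasDerivAt_iDeta cont_iDeta' h1 hasDerivAt_iDeta cont_iDeta' h1 h0 h0 h0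

/-- the static kernels are bounded and continuous -/
lemma bk_ks (a b : Bool) : Bk 8 (ksC a b) := by
  have h1 : ∀ x, ‖iD (deriv eta) x‖ ≤ 3 / 10 := fun x => (iDeta1_le x).trans (by norm_num)
  have h0 : ∀ t t', ‖iD eta t - iD eta t'‖ ≤ 1 / 40 := fun t t' =>
    (iDeta_osc t t').trans (l_lt40.trans (by norm_num))
  have cD : Continuous (iD eta) := continuous_iff_continuousAt.2 fun x => (hasDerivAt_iDeta x).continuousAt
  unfold ksC
  split_ifs
  · exact bk_w hasDerivAt_iDeta cont_iDeta' h1 h0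
  · exact bk_g cD cD h0

lemma ks_symm (a b : Bool) (t t' : ℝ) : ksC a b t t' = ksC b a t' t := by
  unfold ksC
  by_cases hab : a = b
  · rw [if_pos hab, if_pos hab.symm]
    exact kw_symm (R := max |t| |t'|) (small_st.sX _) (le_max_left _ _) (le_max_right _ _)
  · rw [if_neg hab, if_neg (Ne.symm hab)]
    exact kg_symm _ _ _ _

end

/-- **the total displacement** -/
theorem exists_Dt (B : SeaCB) : ∃ K : ℝ, 1 ≤ K ∧ ∀ [SeaC] [SeaCU B], ∀ {s ε M b : ℝ}
    {e η η1 : ℝ → ℝ}, 0 ≤ s → K * ε ≤ 1 → Cur s ε M b e η → (∀ t, HasDerivAt η (η1 t) t) →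
    Continuous (Dt1 η η1) ∧ (∀ t, ‖Dt1 η η1 t‖ ≤ 3 / 10) ∧ ∀ t, ‖gD η t‖ ≤ 1 / 10000 := by
  obtain ⟨C, hC, H⟩ := Cur_disp B
  refine ⟨10000 * C, by linarith, @fun _ hS s ε M b e η η1 hs hε hc h1 => ?_⟩
  obtain ⟨δ2, D, -⟩ := H hs hc h1
  have h2 : C * ε ≤ 1 / 10000 := by linarith
  refine ⟨cont_iDeta'.add D.c1, fun t => ?_, fun t => (D.e0 t).trans h2⟩
  unfold Dt1
  refine (norm_add_le _ _).trans ?_
  linarith [D.e1 t, iDeta1_le t]

section

variable [SeaC]

lemma Dt_osc {η η' : ℝ → ℝ} (h : ∀ t, ‖gD η t‖ ≤ 1 / 10000) (h' : ∀ t, ‖gD η' t‖ ≤ 1 / 10000) (t t' : ℝ) :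
    ‖Dt η t - Dt η' t'‖ ≤ 1 / 40 := by
  have e : Dt η t - Dt η' t' = (iD eta t - iD eta t') + (gD η t - gD η' t') := by
    unfold Dt
    ring
  rw [e]
  refine (norm_add_le _ _).trans ?_
  have h1 := iDeta_osc t t'
  have h2 := (norm_sub_le (gD η t) (gD η' t')).trans (add_le_add (h t) (h' t'))
  linarith [l_lt40]

lemma im_lt {D D' : ℝ → ℂ} {t t' : ℝ} (h : ‖D t - D' t'‖ ≤ 1 / 40) :
    |(((t : ℂ) + D t) - (t' + D' t')).im| < l := by
  have e : (((t : ℂ) + D t) - (t' + D' t')).im = (D t - D' t').im := by simp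
  rw [e]
  refine (Complex.abs_im_le_norm _).trans_lt (h.trans_lt ?_)
  have h1 := Real.pi_gt_three
  have h3 : l = Real.pi / 8 := rfl
  rw [h3]
  linarith

variable {I : Inp} {r : ℕ} {O : Fin r → Oc}

/-- the displacements of the data are small -/
lemma small_tot (h1 : ∀ a, Continuous (Dt1 (I.η a) (I.η1 a))) (h2 : ∀ a t, ‖Dt1 (I.η a) (I.η1 a) t‖ ≤ 3 / 10)
    (h3 : ∀ a t, ‖gD (I.η a) t‖ ≤ 1 / 10000) (hd : ∀ a t, HasDerivAt (I.η a) (I.η1 a t) t) :
    Small (Dt (I.η true)) (Dt1 (I.η true) (I.η1 true)) (Dt (I.η false)) (Dt1 (I.η false) (I.η1 false)) :=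
  small_of (hasDerivAt_Dt (hd true)) (h1 true) (h2 true) (hasDerivAt_Dt (hd false)) (h1 false) (h2 false)
    (Dt_osc (h3 true) (h3 true)) (Dt_osc (h3 false) (h3 false)) (Dt_osc (h3 true) (h3 false))

lemma bk_tot (h1 : ∀ a, Continuous (Dt1 (I.η a) (I.η1 a))) (h2 : ∀ a t, ‖Dt1 (I.η a) (I.η1 a) t‖ ≤ 3 / 10)
    (h3 : ∀ a t, ‖gD (I.η a) t‖ ≤ 1 / 10000) (hd : ∀ a t, HasDerivAt (I.η a) (I.η1 a t) t) (a b : Bool) :
    Bk 8 ((datC I O).κ a b) := by
  have cD : ∀ a, Continuous (Dt (I.η a)) := fun a =>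
    continuous_iff_continuousAt.2 fun x => (hasDerivAt_Dt (hd a) x).continuousAt
  unfold Gs.Dat.κ
  split_ifs
  · exact bk_w (hasDerivAt_Dt (hd a)) (h1 a) (h2 a) (Dt_osc (h3 a) (h3 a))
  · exact bk_g (cD a) (cD b) (Dt_osc (h3 a) (h3 b))

lemma smD (hs : Small (Dt (I.η true)) (Dt1 (I.η true) (I.η1 true)) (Dt (I.η false)) (Dt1 (I.η false) (I.η1 false)))
    (a : Bool) (R : ℝ) : Sm R (Dt (I.η a)) (Dt1 (I.η a) (I.η1 a)) := by
  cases a
  · exact hs.sY R
  · exact hs.sX R

lemma sm2_symm {R : ℝ} {D D' : ℝ → ℂ} (h : Sm2 R D D') : Sm2 R D' D where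
  y1 t t' ht ht' := by rw [Yc_symm (by norm_num)]; exact h.y1 t' t ht' ht
  y2 t t' ht ht' := by rw [Yc_symm (by linarith [NUKer.r_pos])]; exact h.y2 t' t ht' ht

lemma sm2D (hs : Small (Dt (I.η true)) (Dt1 (I.η true) (I.η1 true)) (Dt (I.η false)) (Dt1 (I.η false) (I.η1 false)))
    {a b : Bool} (hab : a ≠ b) (R : ℝ) : Sm2 R (Dt (I.η a)) (Dt (I.η b)) := by
  cases a <;> cases b
  · exact absurd rfl hab
  · exact sm2_symm (hs.sXY R)
  · exact hs.sXY R
  · exact absurd rfl hab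

lemma kappa_symm (hs : Small (Dt (I.η true)) (Dt1 (I.η true) (I.η1 true)) (Dt (I.η false))
    (Dt1 (I.η false) (I.η1 false))) (a b : Bool) (t t' : ℝ) :
    (datC I O).κ a b t t' = (datC I O).κ b a t' t := by
  unfold Gs.Dat.κ
  by_cases hab : a = b
  · subst hab
    rw [if_pos rfl]
    exact kw_symm (R := max |t| |t'|) (smD hs a _) (le_max_left _ _) (le_max_right _ _)
  · rw [if_neg hab, if_neg (Ne.symm hab)]
    exact kg_symm _ _ _ _

/-- the static kernel of the gas, off the diagonal -/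
lemma K0_eq (a b : Bool) {t t' : ℝ} (hne : t ≠ t') : (gasI I O).K0 a b t t' + ksC a b t t' =
    if a = b then -Real.log (w (t - t')) else -Real.log (g (t - t')) := by
  have h0 : ∀ t t', ‖iD eta t - iD eta t'‖ ≤ 1 / 40 := fun t t' =>
    (iDeta_osc t t').trans (l_lt40.trans (by norm_num))
  set R := max |t| |t'|
  have ht : |t| ≤ R := le_max_left _ _
  have ht' : |t'| ≤ R := le_max_right _ _
  have e0 : (gasI I O).K0 a b t t' = if a = b then (Up Us ga t t').re else (Ux (ga t - ga t')).re := rfl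
  rw [e0]
  unfold ksC
  by_cases hab : a = b
  · rw [if_pos hab, if_pos hab, if_pos hab]
    have h1 := Up_eq (small_st.sX R) ht ht' hne (im_lt (h0 t t'))
    rw [ga_fun] at h1
    rw [h1, Complex.sub_re, NUKer.Lw_re, NUAct.ks, Complex.ofReal_re]
    ring
  · rw [if_neg hab, if_neg hab, if_neg hab]
    have h1 := Ux_path (small_st.sXY R) ht ht' (im_lt (h0 t t'))
    rw [← ga_Dt, ← ga_Dt] at h1
    rw [h1, Complex.sub_re, NUKer.Lg_re, NUAct.kx, Complex.ofReal_re]
    ring

/-- **the kernels of the gas are the moving kernels** -/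
lemma kap_eq (hs : Small (Dt (I.η true)) (Dt1 (I.η true) (I.η1 true)) (Dt (I.η false))
    (Dt1 (I.η false) (I.η1 false))) (h3 : ∀ a t, ‖gD (I.η a) t‖ ≤ 1 / 10000) (a b : Bool) {t t' : ℝ}
    (hne : t ≠ t') : (gasI I O).κ a b t t' = (datC I O).kd a b t t' := by
  have e0 := K0_eq (I := I) (O := O) a b hne
  set R := max |t| |t'|
  have ht : |t| ≤ R := le_max_left _ _
  have ht' : |t'| ≤ R := le_max_right _ _
  have e1 : (gasI I O).K a b t t' = if a = b then Up Us (zt (gD (I.η a))) t t'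
      else Ux (zt (gD (I.η a)) t - zt (gD (I.η b)) t') := rfl
  have e2 : (gasI I O).κ a b t t' = (gasI I O).K0 a b t t' - ((gasI I O).K a b t t').re := rfl
  have e3 : (datC I O).kd a b t t' = (datC I O).κ a b t t' - ksC a b t t' := rfl
  rw [e2, e3, e1]
  unfold Gs.Dat.κ
  by_cases hab : a = b
  · subst hab
    rw [if_pos rfl] at e0
    rw [if_pos rfl, if_pos rfl]
    have h1 := Up_eq (smD hs a R) ht ht' hne (im_lt (Dt_osc (h3 a) (h3 a) t t'))
    rw [zt_fun] at h1
    rw [h1, Complex.sub_re, NUKer.Lw_re, NUAct.ks, Complex.ofReal_re]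
    have e4 : kw ((datC I O).D a) ((datC I O).D1 a) t t' = kw (Dt (I.η a)) (Dt1 (I.η a) (I.η1 a)) t t' := rfl
    rw [e4]
    linarith
  · rw [if_neg hab] at e0
    rw [if_neg hab, if_neg hab]
    have h1 := Ux_path (sm2D hs hab R) ht ht' (im_lt (Dt_osc (h3 a) (h3 b) t t'))
    rw [← zt_Dt, ← zt_Dt] at h1
    rw [h1, Complex.sub_re, NUKer.Lg_re, NUAct.kx, Complex.ofReal_re]
    have e4 : kg ((datC I O).D a) ((datC I O).D b) t t' = kg (Dt (I.η a)) (Dt (I.η b)) t t' := rfl
    rw [e4]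
    linarith

end

section

variable (B : SeaCB) [SeaC] [SeaCU B]
variable {I : Inp} {r : ℕ} {O : Fin r → Oc}

include B

lemma dens_P (s : ℝ) (hs : 0 ≤ s) : Dens fun t => s * P t where
  int := (P_int B).const_mul s
  nonneg t := mul_nonneg hs (P_pos B t).le
  cont := continuous_const.mul (P_cont B)

/-- the straight kernels on the profile -/
lemma int_kk (a b : Bool) (t : ℝ) :
    Integrable (fun u => (if a = b then -Real.log (w (t - u)) else -Real.log (g (t - u))) * P u) ∧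
    ∫ u, (if a = b then -Real.log (w (t - u)) else -Real.log (g (t - u))) * P u =
      (if a = b then vs (ga t) else vx (ga t)).re + ∫ u, ksC a b t u * P u := by
  obtain ⟨h1, h2⟩ := two_i0 (ζ := fun _ => ga) (ζ' := fun _ => ga') (Fe := fun _ _ => 0) B (fun _ => 1) a b t
  have hP : Dens P := by simpa using dens_P B 1 (by norm_num)
  have h3 : Integrable fun u => ksC a b t u * P u := int_bd hP ((bk_ks a b).right t) ((bk_ks a b).le t)
  have e1 : (fun u => (two (fun _ => 1) (fun _ => ga) (fun _ => ga') (fun _ _ => 0)).K0 a b t u *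
      (two (fun _ => 1) (fun _ => ga) (fun _ => ga') (fun _ _ => 0)).ρ b u + ksC a b t u * P u) =ᵐ[volume]
      fun u => (if a = b then -Real.log (w (t - u)) else -Real.log (g (t - u))) * P u := by
    filter_upwards [(Set.countable_singleton t).ae_notMem volume] with u hu
    have hne : t ≠ u := fun he => hu (by simp [he])
    rw [← K0_eq (I := ⟨fun _ => 0, fun _ _ => 0, fun _ _ => 0, fun _ _ => 0, fun _ _ => 0, fun _ _ => 0,
      fun _ => 0⟩) (O := (Fin.elim0 : Fin 0 → Oc)) a b hne]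
    show (two (fun _ => 1) (fun _ => ga) (fun _ => ga') (fun _ _ => 0)).K0 a b t u * (1 * P u) + _ = _
    rw [two_K0]
    have e2 : (gasI ⟨fun _ => 0, fun _ _ => 0, fun _ _ => 0, fun _ _ => 0, fun _ _ => 0, fun _ _ => 0,
      fun _ => 0⟩ (Fin.elim0 : Fin 0 → Oc)).K0 a b t u =
      if a = b then (Up Us ga t u).re else (Ux (ga t - ga u)).re := rfl
    rw [e2]
    ring
  refine ⟨(h1.add h3).congr e1, ?_⟩
  rw [← integral_congr_ae e1, integral_add h1 h3, h2, one_mul]

/-- **the straight field of the sea** -/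
theorem vr_eq (a : Bool) (t : ℝ) : (datC I O).vr a t =
    (vb I.s a (ga t)).re + ∑ b, ∫ u, ksC a b t u * (I.s b * P u) := by
  obtain ⟨i1, e1⟩ := int_kk B a a t
  obtain ⟨i2, e2⟩ := int_kk B a (!a) t
  have hne : a ≠ !a := by cases a <;> simp
  simp only [if_true, if_neg hne] at i1 e1 i2 e2
  have hV : (datC I O).VP t = (∫ u, -Real.log (w (t - u)) * P u) + ∫ u, -Real.log (g (t - u)) * P u := by
    rw [← integral_add i1 i2]
    refine integral_congr_ae ?_
    filter_upwards [(Set.countable_singleton t).ae_notMem volume] with u hu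
    have hne : t - u ≠ 0 := sub_ne_zero.2 fun he => hu (by simp [he])
    show P u * V (t - u) = _
    rw [NUMF.V_eq hne]
    ring
  have hG : (datC I O).GP t = -∫ u, -Real.log (g (t - u)) * P u := by
    rw [← integral_neg]
    refine integral_congr_ae (ae_of_all _ fun u => ?_)
    show P u * Real.log (g (t - u)) = _
    ring
  have e3 : ∀ (a b : Bool) (s : ℝ), ∫ u, ksC a b t u * (s * P u) = s * ∫ u, ksC a b t u * P u := by
    intro a b s
    rw [← integral_const_mul]
    refine integral_congr_ae (ae_of_all _ fun u => ?_)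
    simp only
    ring
  have e4 : (datC I O).vr a t = I.s a * (datC I O).VP t +
      Gs.Dat.sg a * ((I.s true - I.s false) * (datC I O).GP t) := rfl
  rw [e4, hV, hG, e1, e2]
  simp only [e3, Fintype.sum_bool]
  unfold vb
  rw [Complex.add_re, Complex.re_ofReal_mul, Complex.re_ofReal_mul]
  cases a
  · simp only [Gs.Dat.sg, Bool.false_eq_true, if_false, Bool.not_false]
    ring
  · simp only [Gs.Dat.sg, if_true, Bool.not_true]
    ring

/-- the pair part of the exponent -/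
lemma ke_eqC {κ : Bool → Bool → ℝ → ℝ → ℝ} {DX DX1 DY DY1 : ℝ → ℂ} {p n : ℕ} (h1 : κ true true = kw DX DX1)
    (h2 : κ false false = kw DY DY1) (h3 : κ true false = kg DX DY)
    (hs : ∀ a b t t', κ a b t t' = κ b a t' t) (t : Fin p → ℝ) (t' : Fin n → ℝ) :
    KE DX DX1 DY DY1 t t' =
      1 / 2 * ∑ i, ∑ j, κ (Gs.sig p n i) (Gs.sig p n j) (Gs.pts t t' i) (Gs.pts t t' j) := by
  unfold KE Gs.sig Gs.pts
  simp only [Fintype.sum_sum_type, Sum.elim_inl, Sum.elim_inr]
  have e1 : ∑ i : Fin n, ∑ j : Fin p, κ false true (t' i) (t j) =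
      ∑ i : Fin p, ∑ j : Fin n, κ true false (t i) (t' j) := by
    rw [Finset.sum_comm]
    exact Finset.sum_congr rfl fun i _ => Finset.sum_congr rfl fun j _ => hs _ _ _ _
  simp only [Finset.sum_add_distrib]
  rw [e1, h1, h2, h3]
  ring

/-- **the action identity** -/
theorem datC_act (hok : (gasI I O).Okr) (h0 : ∀ a, 0 ≤ I.s a)
    (hs : Small (Dt (I.η true)) (Dt1 (I.η true) (I.η1 true)) (Dt (I.η false)) (Dt1 (I.η false) (I.η1 false)))
    (hb : ∀ a b, Bk 8 ((datC I O).κ a b)) (h3 : ∀ a t, ‖gD (I.η a) t‖ ≤ 1 / 10000) {p n : ℕ}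
    (t : Fin p → ℝ) (t' : Fin n → ℝ) :
    (∑ i, ((datC I O).pot true (t i) - (datC I O).E true (t i) - (datC I O).vr true (t i))) +
      (∑ j, ((datC I O).pot false (t' j) - (datC I O).E false (t' j) - (datC I O).vr false (t' j))) +
      KE ((datC I O).D true) ((datC I O).D1 true) ((datC I O).D false) ((datC I O).D1 false) t t' =
    (datC I O).S + (∑ i, (datC I O).lin true (t i)) + (∑ j, (datC I O).lin false (t' j)) -
      (∑ a, ∫ t, (datC I O).ρ a t * (datC I O).lin a t) +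
      1 / 2 * Gs.NF (datC I O).ρ (datC I O).κ t t' := by
  obtain ⟨X, hX⟩ : ∃ X : Gs.Dat, X = datC I O := ⟨_, rfl⟩
  obtain ⟨Y, hY⟩ : ∃ Y : Gas Bool, Y = gasI I O := ⟨_, rfl⟩
  have hρ : ∀ a, Dens (X.ρ a) := fun a => by
    rw [hX]
    exact dens_P B (I.s a) (h0 a)
  have hkd : ∀ a b, Bk (8 + 8) (X.kd a b) := fun a b => by
    rw [hX]
    exact (hb a b).sub (bk_ks a b)
  have hk : ∀ a b, Bk 8 (X.κ a b) := fun a b => by
    rw [hX]
    exact hb a b
  have sk : ∀ a b t t', X.κ a b t t' = X.κ b a t' t := fun a b t t' => by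
    rw [hX]
    exact kappa_symm hs a b t t'
  have skd : ∀ a b t t', X.kd a b t t' = X.kd b a t' t := fun a b t t' => by
    have e : ∀ a b t t', X.kd a b t t' = X.κ a b t t' - ksC a b t t' := fun a b t t' => by
      rw [hX]
      rfl
    rw [e, e, sk a b, ks_symm a b]
  have hkap : ∀ a b t u, t ≠ u → Y.κ a b t u = X.kd a b t u := fun a b t u hne => by
    rw [hX, hY]
    exact kap_eq hs h3 a b hne
  have hρY : ∀ a t, Y.ρ a t = X.ρ a t := fun a t => by
    rw [hX, hY]
    rfl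
  have kr : ∀ a b x, Y.κρ a b x = ∫ u, X.kd a b x u * X.ρ b u := by
    intro a b x
    unfold Gas.κρ
    refine integral_congr_ae ?_
    filter_upwards [(Set.countable_singleton x).ae_notMem volume] with u hu
    have hne : x ≠ u := fun he => hu (by simp [he])
    rw [hkap a b x u hne, hρY]
  have hlin : ∀ a t, Y.lin a t = X.lin a t := fun a t => by
    have e1 : Y.lin a t = (∑ b, Y.KB a b t + Y.Fh a t).re := rfl
    rw [e1, Complex.add_re, hX, hY]
    rfl
  have hS : X.S = Y.S - 1 / 2 * ∑ a, ∫ t, X.ρ a t * ∑ b, ∫ u, ksC a b t u * X.ρ b u := by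
    have e1 : X.S = Y.S - 1 / 2 * ∑ a, ∑ b, ∫ t, X.ρ a t * ∫ u, ksC a b t u * X.ρ b u := by
      rw [hX, hY]
      rfl
    rw [e1]
    congr 2
    refine Finset.sum_congr rfl fun a _ => ?_
    rw [← integral_finsetSum _ fun b _ => Gs.int_rk hρ (fun a b => bk_ks a b) a b]
    refine integral_congr_ae (ae_of_all _ fun x => ?_)
    simp only
    rw [Finset.mul_sum]
  have hG : ∀ a x, X.pot a x - X.E a x - X.vr a x = Y.G a x - ∑ b, ∫ u, ksC a b x u * X.ρ b u := by
    intro a x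
    have e1 : X.vr a x = (vb I.s a (ga x)).re + ∑ b, ∫ u, ksC a b x u * X.ρ b u := by
      rw [hX]
      exact vr_eq B a x
    have e2 : X.pot a x = (vb I.s a (zI I a x) + FC I O a (zI I a x)).re + X.E a x := by
      rw [hX]
      rfl
    have e3 : Y.G a x = (vb I.s a (zI I a x)).re - (vb I.s a (ga x)).re + (FC I O a (zI I a x)).re := by
      rw [hY]
      rfl
    rw [e1, e2, e3, Complex.add_re]
    ring
  have hE := hok.expo (Gs.sig p n) (Gs.pts t t') X.kd
  rw [← hY] at hE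
  -- the forms
  have n1 : Y.nu2 (Gs.sig p n) (Gs.pts t t') X.kd = Gs.NF X.ρ X.kd t t' := by
    rw [Gs.NF_eq hρ hkd skd]
    unfold Gas.nu2
    simp only [kr, hρY]
  have n2 : Gs.NF X.ρ X.κ t t' = Gs.NF X.ρ X.kd t t' + Gs.NF X.ρ ksC t t' := by
    rw [← Gs.NF_add hρ hkd (fun a b => bk_ks a b) skd ks_symm]
    congr 1
    funext a b u v
    have : X.kd a b u v = X.κ a b u v - ksC a b u v := by
      rw [hX]
      rfl
    rw [this]
    ring
  have n3 := Gs.NF_eq hρ (fun a b => bk_ks a b) ks_symm t t'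
  have n4 : KE (X.D true) (X.D1 true) (X.D false) (X.D1 false) t t' =
      1 / 2 * ∑ i, ∑ j, X.κ (Gs.sig p n i) (Gs.sig p n j) (Gs.pts t t' i) (Gs.pts t t' j) :=
    ke_eqC (κ := X.κ) B rfl rfl rfl sk t t'
  have n5 : ∑ i, ∑ j, X.κ (Gs.sig p n i) (Gs.sig p n j) (Gs.pts t t' i) (Gs.pts t t' j) =
      (∑ i, ∑ j, X.kd (Gs.sig p n i) (Gs.sig p n j) (Gs.pts t t' i) (Gs.pts t t' j)) +
      ∑ i, ∑ j, ksC (Gs.sig p n i) (Gs.sig p n j) (Gs.pts t t' i) (Gs.pts t t' j) := by
    rw [← Finset.sum_add_distrib]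
    refine Finset.sum_congr rfl fun i _ => ?_
    rw [← Finset.sum_add_distrib]
    refine Finset.sum_congr rfl fun j _ => ?_
    have : ∀ a b u v, X.kd a b u v = X.κ a b u v - ksC a b u v := fun a b u v => by
      rw [hX]
      rfl
    rw [this]
    ring
  have n6 : ∀ f : Bool → ℝ → ℝ, ∑ i, f (Gs.sig p n i) (Gs.pts t t' i) =
      (∑ i, f true (t i)) + ∑ j, f false (t' j) := by
    intro f
    unfold Gs.sig Gs.pts
    simp only [Fintype.sum_sum_type, Sum.elim_inl, Sum.elim_inr]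
  have n7 : Y.nu (Gs.sig p n) (Gs.pts t t') Y.lin = (∑ i, X.lin true (t i)) + (∑ j, X.lin false (t' j)) -
      ∑ a, ∫ t, X.ρ a t * X.lin a t := by
    unfold Gas.nu
    rw [n6]
    simp only [hlin, hρY]
  rw [n1, n7, n6] at hE
  rw [← hX]
  simp only [hG, Finset.sum_sub_distrib]
  rw [n4, n5, hS, n2]
  have n8 := n6 fun a x => ∑ b, ∫ u, ksC a b x u * X.ρ b u
  rw [n8] at n3
  linarith

end

/-- objects are admissible potentials -/
lemma Oc.Ok.ext [SeaC] {lo hi kd A ε c : ℝ} {X : Oc} (h : X.Ok lo hi kd A ε c) (a : Bool) :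
    SExt lo hi (X.F a) := by
  obtain ⟨c0, a0, f0, h1, h2⟩ := h.asy a
  have key : ∀ z : ℂ, lo ≤ z.im → z.im ≤ hi →
      ‖X.F a z‖ ≤ (|c0| + |a0| + |f0| + |kd|) * (1 + |X.h| + |lo| + |hi|) * (1 + |z.re|) := by
    intro z hz hz'
    have him : |z.im| ≤ |lo| + |hi| := by
      rw [abs_le]
      have e1 := neg_abs_le lo
      have e2 := le_abs_self hi
      have e3 := abs_nonneg lo
      have e4 := abs_nonneg hi
      constructor <;> linarith
    have hd : ‖z - (X.h : ℂ)‖ ≤ |z.re| + |X.h| + (|lo| + |hi|) := by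
      refine (Complex.norm_le_abs_re_add_abs_im _).trans ?_
      have e1 : (z - (X.h : ℂ)).re = z.re - X.h := by simp
      have e2 : (z - (X.h : ℂ)).im = z.im := by simp
      rw [e1, e2]
      linarith [abs_sub z.re X.h]
    have hx : Real.exp (-2 * |z.re - X.h|) ≤ 1 := by
      rw [Real.exp_le_one_iff]
      have := abs_nonneg (z.re - X.h)
      linarith
    have hk0 : kd * Real.exp (-2 * |z.re - X.h|) ≤ |kd| := by
      have h4 := le_abs_self kd
      have h5 := abs_nonneg kd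
      have h6 := (Real.exp_pos (-2 * |z.re - X.h|)).le
      nlinarith
    have fin : ∀ s : ℂ, ‖s‖ ≤ |c0| * (|z.re| + |X.h| + (|lo| + |hi|)) + |a0| + |f0| →
        ‖X.F a z - s‖ ≤ |kd| → ‖X.F a z‖ ≤
        (|c0| + |a0| + |f0| + |kd|) * (1 + |X.h| + |lo| + |hi|) * (1 + |z.re|) := by
      intro s hs1 hs2
      have e1 : X.F a z = (X.F a z - s) + s := by ring
      have e2 := norm_add_le (X.F a z - s) s
      rw [← e1] at e2
      have p1 := abs_nonneg c0
      have p2 := abs_nonneg a0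
      have p3 := abs_nonneg f0
      have p4 := abs_nonneg kd
      have p5 := abs_nonneg X.h
      have p6 := abs_nonneg lo
      have p7 := abs_nonneg hi
      have p8 := abs_nonneg z.re
      obtain ⟨H, hH⟩ : ∃ H, H = |X.h| + |lo| + |hi| := ⟨_, rfl⟩
      have hH0 : 0 ≤ H := by rw [hH]; positivity
      have q1 : |c0| * (|z.re| + H) + |a0| + |f0| + |kd| ≤
          (|c0| + |a0| + |f0| + |kd|) * (1 + H) * (1 + |z.re|) := by
        have r1 : 0 ≤ (|a0| + |f0| + |kd|) := by positivity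
        have r2 : 1 ≤ (1 + H) * (1 + |z.re|) := by nlinarith
        have r3 : |z.re| + H ≤ (1 + H) * (1 + |z.re|) := by nlinarith
        nlinarith [mul_nonneg r1 (by linarith : 0 ≤ (1 + H) * (1 + |z.re|) - 1),
          mul_nonneg p1 (by linarith : 0 ≤ (1 + H) * (1 + |z.re|) - (|z.re| + H))]
      have q2 : 1 + |X.h| + |lo| + |hi| = 1 + H := by rw [hH]; ring
      have q3 : |z.re| + |X.h| + (|lo| + |hi|) = |z.re| + H := by rw [hH]; ring
      rw [q2]
      rw [q3] at hs1
      linarith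
    have hnr : ∀ x : ℝ, ‖(x : ℂ)‖ = |x| := fun x => by rw [Complex.norm_real, Real.norm_eq_abs]
    rcases le_total X.h z.re with hr | hr
    · refine fin _ ?_ ((h2.ar z hz hz' hr).trans hk0)
      refine (norm_add_le _ _).trans (add_le_add ((norm_add_le _ _).trans (add_le_add ?_ ?_)) ?_)
      · rw [norm_mul, hnr]
        exact mul_le_mul_of_nonneg_left hd (abs_nonneg _)
      · rw [hnr]
      · rw [norm_mul, Complex.norm_I, mul_one, hnr]
    · refine fin _ ?_ ((h2.al z hz hz' hr).trans hk0)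
      refine (norm_sub_le _ _).trans (add_le_add ((norm_add_le _ _).trans (add_le_add ?_ ?_)) ?_)
      · rw [norm_mul, norm_neg, hnr]
        exact mul_le_mul_of_nonneg_left hd (abs_nonneg _)
      · rw [hnr]
      · rw [norm_mul, Complex.norm_I, mul_one, hnr]
  exact SExt_of_lin (h.diff a) key

/-- **the geometry of the data** -/
theorem exists_geoC (B : SeaCB) : ∃ tc K : ℝ, 1 ≤ tc ∧ 1 ≤ K ∧ ∀ [SeaC] [SeaCU B],
    ∀ {lo hi Cp ε M b : ℝ} {e : ℝ → ℝ} {I : Inp}, IOkC B lo hi Cp ε M b e I → K * ε ≤ 1 →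
    ∀ {r : ℕ} {O : Fin r → Oc}, (∀ i a, SExt lo hi ((O i).F a)) → Gs.Geo (datC I O) tc 8 := by
  obtain ⟨C, hC, HP⟩ := P_le B
  obtain ⟨K, hK, H⟩ := exists_Dt B
  refine ⟨2 * C + 1, K, by linarith, hK, @fun _ hS lo hi Cp ε M b e I h hε r O hO => ?_⟩
  have h1 : ∀ a, Continuous (Dt1 (I.η a) (I.η1 a)) := fun a => (H (h.s0 a) hε (h.cur a) (h.der a)).1
  have h2 : ∀ a t, ‖Dt1 (I.η a) (I.η1 a) t‖ ≤ 3 / 10 := fun a => (H (h.s0 a) hε (h.cur a) (h.der a)).2.1
  have h3 : ∀ a t, ‖gD (I.η a) t‖ ≤ 1 / 10000 := fun a => (H (h.s0 a) hε (h.cur a) (h.der a)).2.2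
  have hs := small_tot h1 h2 h3 h.der
  have hb := bk_tot (O := O) h1 h2 h3 h.der
  have hF : ∀ a, SExt lo hi (FC I O a) := fun a => by
    have e1 := (SExt.sum Finset.univ fun i => hO i a).add (h.Ae a)
    exact e1
  have hok : (gasI I O).Okr := two_ok B I.s h.str h.pth hF
  exact
    { s0 := h.s0
      Pc := P_cont B
      P0 := fun t => (P_pos B t).le
      P1 := P_mass
      PT := fun t => by
        refine (HP t).trans (mul_le_mul_of_nonneg_right ?_ (Real.exp_pos _).le)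
        linarith
      small := hs
      Dc := fun a => continuous_iff_continuousAt.2 fun x => (hasDerivAt_Dt (h.der a) x).continuousAt
      D1c := h1
      bk := hb
      bs := fun a b => bk_ks a b
      sy := ks_symm
      act := fun t t' => datC_act B hok h.s0 hs hb h3 t t' }

end Cv

end

end PLT
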