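import Pool.Agent.PLT.GDCdef
import Pool.Agent.PLT.GAct
import Pool.Agent.NUS4.H1d
import Pool.Agent.PLX.R2.Fin

/-!
# The weight of the gas over a sea on a static curve (for the sharp bound)

`WtC`: the weight `NU42.WO` with the total displacements `Cv.Dt`; `mGC`: the measure of the window;
`h1_lintC`: the form needed in the glue.
-/

set_option autoImplicit false
set_option linter.unusedSectionVars false

open MeasureTheory Set Filter Topology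

namespace PLT

open NUS4 (gN gM gp gLa R1f Xf Fi chi_cont sum_Fi)
open NUE NUOC NUDp NUKer NUR2 NUTr
open scoped ENNReal

noncomputable section

variable [SeaC]
variable {δ K : ℝ} {c : ℝ → ℝ} {p n : ℕ}

/-- the weight -/
abbrev WtC (ηX ηX1 ηY ηY1 aX aY : ℝ → ℝ) (x : Cfg p n) : ℝ≥0∞ :=
  ENNReal.ofReal (NU42.WO (Cv.Dt ηX) (Cv.Dt1 ηX ηX1) (Cv.Dt ηY) (Cv.Dt1 ηY ηY1) aX aY x.1 x.2)

lemma Dt_meas {η : ℝ → ℝ} (h : Measurable η) : Measurable (Cv.Dt η) := by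
  have h1 := Cv.continuous_eta.measurable
  have h2 := Cv.continuous_ga'.measurable
  unfold Cv.Dt Cv.gD iD
  fun_prop

lemma Dt1_meas {η η1 : ℝ → ℝ} (h : Measurable η) (h' : Measurable η1) : Measurable (Cv.Dt1 η η1) := by
  have h1 := Cv.continuous_eta'.measurable
  have h2 := Cv.continuous_ga'.measurable
  have h3 := Cv.continuous_ga2.measurable
  unfold Cv.Dt1 Cv.gD1 iD
  fun_prop

lemma WtC_meas {ηX ηX1 ηY ηY1 aX aY : ℝ → ℝ} (h1 : Measurable ηX) (h2 : Measurable ηX1)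
    (h3 : Measurable ηY) (h4 : Measurable ηY1) (h5 : Measurable aX) (h6 : Measurable aY) :
    Measurable (WtC (p := p) (n := n) ηX ηX1 ηY ηY1 aX aY) :=
  ENNReal.measurable_ofReal.comp
    (NU42.WO_meas (Dt_meas h1) (Dt1_meas h1 h2) (Dt_meas h3) (Dt1_meas h3 h4) h5 h6)

/-- the transported kernel -/
abbrev kTC (η η1 ψ ψ' : ℝ → ℝ) : ℝ → ℝ → ℝ :=
  kw (cD (fun t => ψ t - t) (Cv.Dt η)) (cD1 (fun t => ψ t - t) (fun t => ψ' t - 1) (Cv.Dt1 η η1))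

/-- the measure of the window -/
abbrev mGC (R : ℝ) (ηX ηX1 ηY ηY1 aX aY : ℝ → ℝ) : Measure (Cfg p n) :=
  mu R (pW (Cv.Dt ηX)) (pW (Cv.Dt ηY)) (pG (Cv.Dt ηX) (Cv.Dt ηY)) (fun t => ‖1 + Cv.Dt1 ηX ηX1 t‖ * aX t)
    (fun t => ‖1 + Cv.Dt1 ηY ηY1 t‖ * aY t)

lemma mGC_eq (R : ℝ) (ηX ηX1 ηY ηY1 aX aY : ℝ → ℝ) :
    mGC (p := p) (n := n) R ηX ηX1 ηY ηY1 aX aY =
      (volume.restrict (Bx R)).withDensity (WtC ηX ηX1 ηY ηY1 aX aY) := by
  unfold mGC mu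
  congr 1
  funext x
  rw [W_eq]

/-- **the form needed in the glue** -/
theorem h1_lintC {h X R E : ℝ} {ηX ηX1 ηY ηY1 aX aY : ℝ → ℝ} (h1 : Measurable ηX)
    (h2 : Measurable ηX1) (h3 : Measurable ηY) (h4 : Measurable ηY1) (h5 : Measurable aX)
    (h6 : Measurable aY) (hP : Prof δ K c) (g cc : Fin (gN h X) → ℝ)
    (hfin : IsFiniteMeasure (mGC (p := p) (n := n) R ηX ηX1 ηY ηY1 aX aY))
    (key : ENNReal.ofReal ((mGC (p := p) (n := n) R ηX ηX1 ηY ηY1 aX aY).real univ * Real.exp E) ≤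
      ∫⁻ y, ENNReal.ofReal (Real.exp (∑ i, grid (chi c h) (-(h * gM h X)) h g (y.1 i) -
      ∑ j, grid (chi c h) (-(h * gM h X)) h g (y.2 j))) ∂(mGC (p := p) (n := n) R ηX ηX1 ηY ηY1 aX aY)) :
    (∫⁻ x in Bx R, WtC (p := p) (n := n) ηX ηX1 ηY ηY1 aX aY x) *
      ENNReal.ofReal (Real.exp (E - ∑ i, g i * cc i)) ≤
    ∫⁻ x in Bx R, WtC (p := p) (n := n) ηX ηX1 ηY ηY1 aX aY x *
      ENNReal.ofReal (Real.exp (∑ i, g i * Fi c h X cc i x)) := by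
  have hW := WtC_meas (p := p) (n := n) h1 h2 h3 h4 h5 h6
  have hG : Measurable fun y : Cfg p n => ∑ i, grid (chi c h) (-(h * gM h X)) h g (y.1 i) -
      ∑ j, grid (chi c h) (-(h * gM h X)) h g (y.2 j) := by
    have c0 : Measurable (grid (chi c h) (-(h * gM h X)) h g) := by
      have := (chi_cont hP h).measurable
      unfold grid
      exact Finset.measurable_sum _ fun j _ => by fun_prop
    have h2 : ∀ a : Fin p, Measurable fun x : Cfg p n => x.1 a := fun a => by fun_prop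
    have h3 : ∀ a : Fin n, Measurable fun x : Cfg p n => x.2 a := fun a => by fun_prop
    exact (Finset.measurable_sum _ fun a _ => c0.comp (h2 a)).sub
      (Finset.measurable_sum _ fun a _ => c0.comp (h3 a))
  have e1 : ENNReal.ofReal ((mGC (p := p) (n := n) R ηX ηX1 ηY ηY1 aX aY).real univ * Real.exp E) =
      (∫⁻ x in Bx R, WtC (p := p) (n := n) ηX ηX1 ηY ηY1 aX aY x) * ENNReal.ofReal (Real.exp E) := by
    rw [ENNReal.ofReal_mul measureReal_nonneg]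
    congr 1
    unfold Measure.real
    rw [ENNReal.ofReal_toReal (measure_ne_top _ _), mGC_eq, withDensity_apply _ MeasurableSet.univ,
      Measure.restrict_univ]
  have e2 : ∫⁻ x in Bx R, WtC (p := p) (n := n) ηX ηX1 ηY ηY1 aX aY x *
      ENNReal.ofReal (Real.exp (∑ i, g i * Fi c h X cc i x)) =
      (∫⁻ y, ENNReal.ofReal (Real.exp (∑ i, grid (chi c h) (-(h * gM h X)) h g (y.1 i) -
      ∑ j, grid (chi c h) (-(h * gM h X)) h g (y.2 j))) ∂(mGC (p := p) (n := n) R ηX ηX1 ηY ηY1 aX aY)) *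
      ENNReal.ofReal (Real.exp (-∑ i, g i * cc i)) := by
    rw [mGC_eq, lintegral_withDensity_eq_lintegral_mul _ hW (by fun_prop), ← lintegral_mul_const]
    · refine lintegral_congr fun x => ?_
      simp only [Pi.mul_apply]
      rw [mul_assoc, ← ENNReal.ofReal_mul (Real.exp_pos _).le, ← Real.exp_add, sum_Fi]
      congr 3
    · exact hW.mul (by fun_prop)
  rw [e2]
  rw [e1] at key
  have e3 : ENNReal.ofReal (Real.exp (E - ∑ i, g i * cc i)) =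
      ENNReal.ofReal (Real.exp E) * ENNReal.ofReal (Real.exp (-∑ i, g i * cc i)) := by
    rw [← ENNReal.ofReal_mul (Real.exp_pos _).le, ← Real.exp_add, sub_eq_add_neg]
  rw [e3, ← mul_assoc]
  exact mul_le_mul_left key _

end

section

open NUDi

noncomputable section

/-! ### the statement -/

/-- **the sharp bound of the positive gas** (statement) -/
def SharpSt (B : SeaCB) (lo hi : ℝ) : Prop :=
  ∀ {ε : ℝ}, 0 < ε → ε ≤ 1 → ∃ (δ K : ℝ) (c : ℝ → ℝ), 0 < δ ∧ δ < K ∧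
    ContDiff ℝ ((⊤ : ℕ∞) : WithTop ℕ∞) c ∧ (∀ k, 0 ≤ c k) ∧ (∀ k, c (-k) = c k) ∧ (∀ k, |k| ≤ δ → c k = 0) ∧
    (∀ k, K ≤ |k| → c k = 0) ∧ (∀ k, k ≠ 0 → c k ^ 2 ≤ NUMF.Lh k) ∧
    ∀ h : ℝ, 0 < h → K * h < Real.pi → ∀ {C₁ C₂ C₃ : ℝ}, 0 < C₁ → 0 ≤ C₂ → 0 ≤ C₃ →
      ∀ (k : ℕ) {κ e : ℝ}, 0 < κ → 0 < e → e ≤ 1 / 4 →
      ∃ (C : ℝ) (m0 : ℕ), 1 ≤ C ∧ 3 ≤ m0 ∧ ∀ [SeaC] [SeaCU B], ∀ m : ℕ, m0 ≤ m →
      ∀ {p n : ℕ} (s : Bool → ℝ) (R b A a M : ℝ) (τ ηX ηX1 ηY ηY1 aX aY : ℝ → ℝ),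
        GDC lo hi m k κ e s R b ηX ηX1 ηY ηY1 aX aY → 0 ≤ M → M ≤ C₂ * Real.log m ^ 6 → 0 ≤ A → 1 / 2 ≤ a →
        ∫⁻ x, WtC (p := p) (n := n) ηX ηX1 ηY ηY1 aX aY x * ENNReal.ofReal (Real.exp (1 / 2 *
          ∑ i ∈ gLa h (Xf e m), NU42.Fst c h (-(h * gM h (Xf e m))) τ i x.1 x.2 ^ 2)) ≤
          ENNReal.ofReal (A * (m : ℝ) ^ a) →
        ∫⁻ x in (Bx R)ᶜ, WtC (p := p) (n := n) ηX ηX1 ηY ηY1 aX aY x ≤ ENNReal.ofReal A →
        SqW2 (WtC (p := p) (n := n) ηX ηX1 ηY ηY1 aX aY) R (fun t => s true * Cv.P t)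
          (fun t => s false * Cv.P t)
          (ENNReal.ofReal (A * (m : ℝ) ^ a * Real.exp C₃)) (1 / (8 * (C₁ * (R + 1)))) (1 + M) →
        ∫⁻ x, WtC (p := p) (n := n) ηX ηX1 ηY ηY1 aX aY x ≤
          ENNReal.ofReal (C * A * (m : ℝ) ^ (a - 1 / 2 + (ε + e)))

end

end

end PLT
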