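import Pool.Agent.PLT.H1bC
import Pool.Agent.PLT.H1num
import Pool.Agent.PLT.SharpW

/-!
# The field data of a mode over a sea on a static curve (definition)

Twin of `PLX/NUS4C/H1c` `FD`: total displacements `Cv.Dt`, `Cv.Dt1`, transports of `PLT/H1bC`.
-/

set_option autoImplicit false
set_option linter.unusedSectionVars false

open MeasureTheory Set Filter Topology

namespace PLT

open NUE NUOC NUKer NUR2 NUTr

noncomputable section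

variable [SeaC] {N : ℕ}

namespace Cv

/-- the displacement map of the first species -/
abbrev pX (c : ℝ → ℝ) (h R1 a s : ℝ) (x : Fin N → ℝ) : ℝ → ℝ := ps s (cutF c h R1 a x)

/-- its derivative -/
abbrev pX' (c : ℝ → ℝ) (h R1 a s : ℝ) (x : Fin N → ℝ) : ℝ → ℝ :=
  ps' s (cutF c h R1 a x) (cutF' c h R1 a x)

/-- the displacement map of the second species -/
abbrev pY (c : ℝ → ℝ) (h R1 a s : ℝ) (x : Fin N → ℝ) : ℝ → ℝ := ps s fun t => - cutF c h R1 a x t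

/-- its derivative -/
abbrev pY' (c : ℝ → ℝ) (h R1 a s : ℝ) (x : Fin N → ℝ) : ℝ → ℝ :=
  ps' s (fun t => - cutF c h R1 a x t) fun t => - cutF' c h R1 a x t

end Cv

/-- the field data of the two species at the mode `x` -/
structure FDC (c : ℝ → ℝ) (h R R1 a : ℝ) (s : Bool → ℝ) (l1 : ℝ) (ηX ηX1 ηY ηY1 aX aY EX EY : ℝ → ℝ)
    (x : Fin N → ℝ) : Prop where
  oX : OB R l1 (Cv.pX c h R1 a (s true) x) (Cv.pX' c h R1 a (s true) x) (fun t => ‖1 + Cv.Dt1 ηX ηX1 t‖ * aX t) EX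
    (IX2 R (fun t => s true * Cv.P t) (fun t => s false * Cv.P t) Uw Ug
      (kw (Cv.Dt ηX) (Cv.Dt1 ηX ηX1)) (kg (Cv.Dt ηX) (Cv.Dt ηY)))
    (kw (Cv.Dt ηX) (Cv.Dt1 ηX ηX1)) (kTC ηX ηX1 (Cv.pX c h R1 a (s true) x) (Cv.pX' c h R1 a (s true) x))
  oY : OB R l1 (Cv.pY c h R1 a (s false) x) (Cv.pY' c h R1 a (s false) x) (fun t => ‖1 + Cv.Dt1 ηY ηY1 t‖ * aY t) EY
    (IY2 R (fun t => s true * Cv.P t) (fun t => s false * Cv.P t) Uw Ug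
      (kw (Cv.Dt ηY) (Cv.Dt1 ηY ηY1)) (kg (Cv.Dt ηX) (Cv.Dt ηY)))
    (kw (Cv.Dt ηY) (Cv.Dt1 ηY ηY1)) (kTC ηY ηY1 (Cv.pY c h R1 a (s false) x) (Cv.pY' c h R1 a (s false) x))

lemma ob_mono' {R l l' : ℝ} {ψ ψ' a E I : ℝ → ℝ} {k k' : ℝ → ℝ → ℝ} (h : OB R l ψ ψ' a E I k k')
    (hl : l ≤ l') : OB R l' ψ ψ' a E I k k' :=
  ⟨h.a0, h.am, h.cE, h.rel, h.small.mono hl⟩

lemma FDC.mono {c : ℝ → ℝ} {h R R1 a : ℝ} {s : Bool → ℝ} {l1 l2 : ℝ} {ηX ηX1 ηY ηY1 aX aY EX EY : ℝ → ℝ}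
    {x : Fin N → ℝ} (H : FDC c h R R1 a s l1 ηX ηX1 ηY ηY1 aX aY EX EY x) (hl : l1 ≤ l2) :
    FDC c h R R1 a s l2 ηX ηX1 ηY ηY1 aX aY EX EY x :=
  ⟨ob_mono' H.oX hl, ob_mono' H.oY hl⟩

end

end PLT
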