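import Pool.Agent.NUE.RevToep

/-!
# Reverse linearisation with a quadratic penalty (pure)

As `NURev.rev_lin_basis`, `NUE.rev_lin_det`, with a lower bound of the exponential moments that contains
`- Σ w_j ⟪u_j, g⟫²`, `|u_j| = 1`, `w_j ≥ 0`, `Σ w_j ≤ W`: the loss is the constant `exp (8 W / δ)`.
-/

set_option autoImplicit false

namespace PLT.Rev

open MeasureTheory ProbabilityTheory ENNReal Module NURev

open scoped RealInnerProductSpace NNReal

/-- the quadratic one dimensional integral with a linear term -/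
lemma g3 {c : ℝ} (hc : c < 1) (t : ℝ) :
    ∫⁻ x, ENNReal.ofReal (Real.exp (t * x + c * x ^ 2 / 2)) ∂(gaussianReal 0 1) =
      ENNReal.ofReal ((Real.sqrt (1 - c))⁻¹ * Real.exp (t ^ 2 / (2 * (1 - c)))) := by
  have hq : 0 < 1 - c := by linarith
  obtain ⟨v, hv⟩ : ∃ v : ℝ≥0, v = 1 / (1 - c).toNNReal := ⟨_, rfl⟩
  have hvr : (v : ℝ) = 1 / (1 - c) := by
    rw [hv, NNReal.coe_div, Real.coe_toNNReal _ hq.le]
    simp
  have hvne : v ≠ 0 := by
    intro h
    rw [h] at hvr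
    have : (0 : ℝ) < 1 / (1 - c) := div_pos one_pos hq
    rw [← hvr] at this
    simp at this
  rw [gaussianReal_of_var_ne_zero _ one_ne_zero, lintegral_withDensity_eq_lintegral_mul _
    (measurable_gaussianPDF _ _) (by fun_prop)]
  have key : ∀ x : ℝ, (gaussianPDF 0 1 * fun x => ENNReal.ofReal (Real.exp (t * x + c * x ^ 2 / 2))) x =
      ENNReal.ofReal ((Real.sqrt (1 - c))⁻¹ * Real.exp (t ^ 2 / (2 * (1 - c)))) *
        ENNReal.ofReal (gaussianPDFReal (t / (1 - c)) v x) := by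
    intro x
    rw [Pi.mul_apply]
    unfold gaussianPDF
    rw [← ENNReal.ofReal_mul (gaussianPDFReal_nonneg _ _ _), ← ENNReal.ofReal_mul (by positivity)]
    congr 1
    unfold gaussianPDFReal
    rw [hvr]
    have e1 : Real.sqrt (2 * Real.pi * (1 / (1 - c))) = Real.sqrt (2 * Real.pi) * (Real.sqrt (1 - c))⁻¹ := by
      rw [Real.sqrt_mul (by positivity), one_div, Real.sqrt_inv]
    rw [e1]
    have e2 : Real.exp (-(x - 0) ^ 2 / (2 * ((1 : ℝ≥0) : ℝ))) * Real.exp (t * x + c * x ^ 2 / 2) =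
        Real.exp (t ^ 2 / (2 * (1 - c))) * Real.exp (-(x - t / (1 - c)) ^ 2 / (2 * (1 / (1 - c)))) := by
      rw [← Real.exp_add, ← Real.exp_add]
      congr 1
      push_cast
      field_simp
      ring
    have hs : 0 < Real.sqrt (1 - c) := Real.sqrt_pos.2 hq
    have hs2 : 0 < Real.sqrt (2 * Real.pi) := Real.sqrt_pos.2 (by positivity)
    rw [mul_assoc, e2, NNReal.coe_one, mul_one]
    field_simp
  rw [lintegral_congr key, lintegral_const_mul _ (by fun_prop), lintegral_gaussianPDFReal_eq_one _ hvne, mul_one]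

set_option linter.unusedSectionVars false

variable {E : Type*} [NormedAddCommGroup E] [InnerProductSpace ℝ E] [FiniteDimensional ℝ E] [MeasurableSpace E]
  [BorelSpace E]

/-- the Gaussian integral with a linear term -/
lemma quad_lin {ι : Type*} [Fintype ι] (b : OrthonormalBasis ι ℝ E) {c : ι → ℝ} {δ : ℝ} (hδ : 0 < δ)
    (hc : ∀ i, c i ≤ 1 - δ) (v : E) :
    ∫⁻ g, ENNReal.ofReal (Real.exp (⟪v, g⟫ + (∑ i, c i * ⟪b i, g⟫ ^ 2) / 2)) ∂(stdGaussian E) ≤
      ENNReal.ofReal (Real.exp (‖v‖ ^ 2 / (2 * δ)) * ∏ i, (Real.sqrt (1 - c i))⁻¹) := by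
  classical
  rw [stdGaussian_eq_map_pi_orthonormalBasis b, lintegral_map (by fun_prop) (by fun_prop)]
  have h1 : ∀ x : ι → ℝ, ENNReal.ofReal (Real.exp (⟪v, ∑ j, x j • b j⟫ +
      (∑ i, c i * ⟪b i, ∑ j, x j • b j⟫ ^ 2) / 2)) =
      ∏ i, ENNReal.ofReal (Real.exp (⟪v, b i⟫ * x i + c i * x i ^ 2 / 2)) := by
    intro x
    rw [inner_sum, Finset.sum_div, ← Finset.sum_add_distrib, Real.exp_sum,
      ENNReal.ofReal_prod_of_nonneg (fun i _ => (Real.exp_pos _).le)]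
    refine Finset.prod_congr rfl fun i _ => ?_
    rw [b.orthonormal.inner_right_fintype, real_inner_smul_right, mul_comm (x i)]
  simp_rw [h1]
  rw [tonelli (fun i x => ENNReal.ofReal (Real.exp (⟪v, b i⟫ * x + c i * x ^ 2 / 2)))
    (fun i => by fun_prop)]
  have hq : ∀ i, 0 < 1 - c i := fun i => by linarith [hc i]
  rw [Finset.prod_congr rfl fun i _ => g3 (by linarith [hc i]) _,
    ← ENNReal.ofReal_prod_of_nonneg (fun i _ => by positivity), Finset.prod_mul_distrib, ← Real.exp_sum, mul_comm]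
  refine ENNReal.ofReal_le_ofReal (mul_le_mul_of_nonneg_right (Real.exp_le_exp.2 ?_)
    (Finset.prod_nonneg fun i _ => by positivity))
  rw [← b.sum_sq_inner_left v, Finset.sum_div]
  refine Finset.sum_le_sum fun i _ => ?_
  exact div_le_div_of_nonneg_left (sq_nonneg _) (by positivity) (by linarith [hc i])

/-- the second moment in a direction -/
lemma quad_sq {ι : Type*} [Fintype ι] (b : OrthonormalBasis ι ℝ E) {c : ι → ℝ} {δ : ℝ} (hδ : 0 < δ)
    (hc : ∀ i, c i ≤ 1 - δ) {u : E} (hu : ‖u‖ ≤ 1) :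
    ∫⁻ g, ENNReal.ofReal (⟪u, g⟫ ^ 2 * Real.exp ((∑ i, c i * ⟪b i, g⟫ ^ 2) / 2)) ∂(stdGaussian E) ≤
      ENNReal.ofReal (4 / δ * ∏ i, (Real.sqrt (1 - c i))⁻¹) := by
  obtain ⟨s, hs⟩ : ∃ s, s = Real.sqrt δ := ⟨_, rfl⟩
  have hs0 : 0 < s := by rw [hs]; exact Real.sqrt_pos.2 hδ
  have hs2 : s ^ 2 = δ := by rw [hs]; exact Real.sq_sqrt hδ.le
  obtain ⟨P, hP⟩ : ∃ P, P = ∏ i, (Real.sqrt (1 - c i))⁻¹ := ⟨_, rfl⟩
  have hP0 : 0 ≤ P := by rw [hP]; exact Finset.prod_nonneg fun i _ => by positivity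
  have hlin : ∀ t : ℝ, t ^ 2 = δ → ∫⁻ g, ENNReal.ofReal (Real.exp (⟪t • u, g⟫ +
      (∑ i, c i * ⟪b i, g⟫ ^ 2) / 2)) ∂(stdGaussian E) ≤ ENNReal.ofReal (2 * P) := by
    intro t ht
    refine (quad_lin b hδ hc (t • u)).trans (ENNReal.ofReal_le_ofReal ?_)
    rw [← hP]
    refine mul_le_mul_of_nonneg_right ?_ hP0
    have h1 : ‖t • u‖ ^ 2 ≤ δ := by
      rw [norm_smul, mul_pow, Real.norm_eq_abs, sq_abs, ht]
      have : ‖u‖ ^ 2 ≤ 1 := pow_le_one₀ (norm_nonneg _) hu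
      nlinarith
    have h2 : ‖t • u‖ ^ 2 / (2 * δ) ≤ 1 / 2 := by
      rw [div_le_div_iff₀ (by positivity) (by norm_num)]
      linarith
    refine (Real.exp_le_exp.2 h2).trans ?_
    have h3 := Real.exp_one_lt_d9
    have h4 : Real.exp (1 / 2) ^ 2 = Real.exp 1 := by
      rw [← Real.exp_nat_mul]
      norm_num
    nlinarith [Real.exp_pos (1 / 2 : ℝ)]
  have hpt : ∀ g : E, ENNReal.ofReal (⟪u, g⟫ ^ 2 * Real.exp ((∑ i, c i * ⟪b i, g⟫ ^ 2) / 2)) ≤
      ENNReal.ofReal (1 / δ) * (ENNReal.ofReal (Real.exp (⟪s • u, g⟫ + (∑ i, c i * ⟪b i, g⟫ ^ 2) / 2)) +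
        ENNReal.ofReal (Real.exp (⟪(-s) • u, g⟫ + (∑ i, c i * ⟪b i, g⟫ ^ 2) / 2))) := by
    intro g
    rw [← ENNReal.ofReal_add (Real.exp_pos _).le (Real.exp_pos _).le, ← ENNReal.ofReal_mul (by positivity)]
    refine ENNReal.ofReal_le_ofReal ?_
    rw [Real.exp_add, Real.exp_add, ← add_mul, ← mul_assoc]
    refine mul_le_mul_of_nonneg_right ?_ (Real.exp_pos _).le
    rw [real_inner_smul_left, real_inner_smul_left, neg_mul]
    obtain ⟨y, hy⟩ : ∃ y, y = s * ⟪u, g⟫ := ⟨_, rfl⟩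
    rw [← hy]
    have h1 : ⟪u, g⟫ ^ 2 = 1 / δ * y ^ 2 := by
      rw [hy, mul_pow, hs2]
      field_simp
    rw [h1]
    refine mul_le_mul_of_nonneg_left ?_ (by positivity)
    rcases le_total 0 y with h | h
    · have := Real.quadratic_le_exp_of_nonneg h
      have h2 := Real.add_one_le_exp y
      have h3 := Real.add_one_le_exp (-y)
      have h4 := Real.exp_pos (-y)
      have h5 : y ^ 2 ≤ Real.exp y := by
        have e1 := Real.exp_one_gt_d9
        have e3 : y ^ 3 / 6 + y ^ 2 / 2 + y + 1 ≤ Real.exp y := by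
          have := Real.sum_le_exp_of_nonneg h 4
          simp only [Finset.sum_range_succ, Finset.sum_range_zero, Nat.factorial] at this
          norm_num at this
          linarith
        nlinarith [mul_nonneg h (sq_nonneg (y - 3 / 2)), mul_nonneg h (sq_nonneg (y - 1))]
      linarith
    · have h' : 0 ≤ -y := by linarith
      have h4 := Real.exp_pos y
      have h5 : y ^ 2 ≤ Real.exp (-y) := by
        have e3 : (-y) ^ 3 / 6 + (-y) ^ 2 / 2 + (-y) + 1 ≤ Real.exp (-y) := by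
          have := Real.sum_le_exp_of_nonneg h' 4
          simp only [Finset.sum_range_succ, Finset.sum_range_zero, Nat.factorial] at this
          norm_num at this
          linarith
        nlinarith [mul_nonneg h' (sq_nonneg (-y - 3 / 2)), mul_nonneg h' (sq_nonneg (-y - 1))]
      linarith
  refine (lintegral_mono hpt).trans ?_
  rw [lintegral_const_mul _ (by fun_prop), lintegral_add_left (by fun_prop)]
  calc ENNReal.ofReal (1 / δ) * ((∫⁻ g, ENNReal.ofReal (Real.exp (⟪s • u, g⟫ +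
        (∑ i, c i * ⟪b i, g⟫ ^ 2) / 2)) ∂(stdGaussian E)) + ∫⁻ g, ENNReal.ofReal (Real.exp (⟪(-s) • u, g⟫ +
        (∑ i, c i * ⟪b i, g⟫ ^ 2) / 2)) ∂(stdGaussian E))
      ≤ ENNReal.ofReal (1 / δ) * (ENNReal.ofReal (2 * P) + ENNReal.ofReal (2 * P)) := by
        gcongr
        · exact hlin s hs2
        · exact hlin (-s) (by rw [neg_sq, hs2])
    _ = _ := by
        rw [← ENNReal.ofReal_add (by positivity) (by positivity), ← ENNReal.ofReal_mul (by positivity), hP]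
        congr 1
        ring

/-- the penalty -/
noncomputable def pen {J : Type*} [Fintype J] (w : J → ℝ) (u : J → E) (g : E) : ℝ := ∑ j, w j * ⟪u j, g⟫ ^ 2

lemma pen_nonneg {J : Type*} [Fintype J] {w : J → ℝ} (hw : ∀ j, 0 ≤ w j) (u : J → E) (g : E) : 0 ≤ pen w u g :=
  Finset.sum_nonneg fun j _ => mul_nonneg (hw j) (sq_nonneg _)

lemma pen_neg {J : Type*} [Fintype J] (w : J → ℝ) (u : J → E) (g : E) : pen w u (-g) = pen w u g := by
  unfold pen
  simp only [inner_neg_right, neg_sq]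

lemma pen_meas {J : Type*} [Fintype J] (w : J → ℝ) (u : J → E) : Measurable (pen w u) := by
  unfold pen
  fun_prop

/-- the expectation of the penalty -/
lemma quad_pen {ι : Type*} [Fintype ι] (b : OrthonormalBasis ι ℝ E) {c : ι → ℝ} {δ : ℝ} (hδ : 0 < δ)
    (hc : ∀ i, c i ≤ 1 - δ) {J : Type*} [Fintype J] {w : J → ℝ} (hw : ∀ j, 0 ≤ w j) {u : J → E}
    (hu : ∀ j, ‖u j‖ ≤ 1) {W : ℝ} (hW : ∑ j, w j ≤ W) :
    ∫⁻ g, ENNReal.ofReal (pen w u g * Real.exp ((∑ i, c i * ⟪b i, g⟫ ^ 2) / 2)) ∂(stdGaussian E) ≤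
      ENNReal.ofReal (4 * W / δ * ∏ i, (Real.sqrt (1 - c i))⁻¹) := by
  obtain ⟨P, hP⟩ : ∃ P, P = ∏ i, (Real.sqrt (1 - c i))⁻¹ := ⟨_, rfl⟩
  have hP0 : 0 ≤ P := by rw [hP]; exact Finset.prod_nonneg fun i _ => by positivity
  have h1 : ∀ g : E, ENNReal.ofReal (pen w u g * Real.exp ((∑ i, c i * ⟪b i, g⟫ ^ 2) / 2)) =
      ∑ j, ENNReal.ofReal (w j) * ENNReal.ofReal (⟪u j, g⟫ ^ 2 * Real.exp ((∑ i, c i * ⟪b i, g⟫ ^ 2) / 2)) := by
    intro g
    unfold pen
    rw [Finset.sum_mul, ENNReal.ofReal_sum_of_nonneg (fun j _ => by have := hw j; positivity)]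
    refine Finset.sum_congr rfl fun j _ => ?_
    rw [← ENNReal.ofReal_mul (hw j), mul_assoc]
  rw [lintegral_congr h1, lintegral_finsetSum _ (fun j _ => by fun_prop)]
  calc ∑ j, ∫⁻ g, ENNReal.ofReal (w j) * ENNReal.ofReal (⟪u j, g⟫ ^ 2 *
        Real.exp ((∑ i, c i * ⟪b i, g⟫ ^ 2) / 2)) ∂(stdGaussian E)
      ≤ ∑ j, ENNReal.ofReal (w j) * ENNReal.ofReal (4 / δ * P) := by
        refine Finset.sum_le_sum fun j _ => ?_
        rw [lintegral_const_mul _ (by fun_prop), hP]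
        gcongr
        exact quad_sq b hδ hc (hu j)
    _ = ENNReal.ofReal ((∑ j, w j) * (4 / δ * P)) := by
        rw [Finset.sum_mul, ENNReal.ofReal_sum_of_nonneg (fun j _ => by have := hw j; positivity)]
        exact Finset.sum_congr rfl fun j _ => (ENNReal.ofReal_mul (hw j)).symm
    _ ≤ _ := by
        refine ENNReal.ofReal_le_ofReal ?_
        rw [← hP]
        have h2 : 0 ≤ 4 / δ * P := by positivity
        calc (∑ j, w j) * (4 / δ * P) ≤ W * (4 / δ * P) := mul_le_mul_of_nonneg_right hW h2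
          _ = _ := by ring

/-- **lower bound on the ball with the penalty** -/
lemma pen_ball {ι : Type*} [Fintype ι] (b : OrthonormalBasis ι ℝ E) {c : ι → ℝ} {δ R : ℝ} (hδ : 0 < δ)
    (hR0 : 0 ≤ R) (hc : ∀ i, c i ≤ 1 - δ) (hR : 2 * (Fintype.card ι : ℝ) + 4 ≤ δ * R ^ 2)
    {J : Type*} [Fintype J] {w : J → ℝ} (hw : ∀ j, 0 ≤ w j) {u : J → E}
    (hu : ∀ j, ‖u j‖ ≤ 1) {W : ℝ} (hW : ∑ j, w j ≤ W) :
    ENNReal.ofReal (Real.exp (-(8 * W / δ)) * ((∏ i, (Real.sqrt (1 - c i))⁻¹) / 2)) ≤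
      ∫⁻ g in Metric.closedBall 0 R, ENNReal.ofReal (Real.exp ((∑ i, c i * ⟪b i, g⟫ ^ 2) / 2 - pen w u g))
        ∂(stdGaussian E) := by
  obtain ⟨P, hP⟩ : ∃ P, P = ∏ i, (Real.sqrt (1 - c i))⁻¹ := ⟨_, rfl⟩
  have hP0 : 0 ≤ P := by rw [hP]; exact Finset.prod_nonneg fun i _ => by positivity
  have hW0 : 0 ≤ W := (Finset.sum_nonneg fun j _ => hw j).trans hW
  obtain ⟨A, hA⟩ : ∃ A, A = 8 * W / δ := ⟨_, rfl⟩
  have hA0 : 0 ≤ A := by rw [hA]; positivity
  have hball := quad_ball b hδ hR0 hc hR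
  have hpen := quad_pen b hδ hc hw hu hW
  have hA4 : 4 * W / δ = A / 2 := by rw [hA]; ring
  rw [← hP, hA4] at hpen
  rw [← hP] at hball ⊢
  rw [← hA]
  have hm := pen_meas w u
  have hpt : ∀ g : E, ENNReal.ofReal (1 + A) * ENNReal.ofReal (Real.exp ((∑ i, c i * ⟪b i, g⟫ ^ 2) / 2)) ≤
      ENNReal.ofReal (Real.exp A) * ENNReal.ofReal (Real.exp ((∑ i, c i * ⟪b i, g⟫ ^ 2) / 2 - pen w u g)) +
        ENNReal.ofReal (pen w u g * Real.exp ((∑ i, c i * ⟪b i, g⟫ ^ 2) / 2)) := by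
    intro g
    have h0 := pen_nonneg hw u g
    rw [← ENNReal.ofReal_mul (by positivity), ← ENNReal.ofReal_mul (Real.exp_pos _).le,
      ← ENNReal.ofReal_add (by positivity) (by positivity)]
    refine ENNReal.ofReal_le_ofReal ?_
    obtain ⟨Q, hQ⟩ : ∃ Q, Q = (∑ i, c i * ⟪b i, g⟫ ^ 2) / 2 := ⟨_, rfl⟩
    rw [← hQ]
    have e1 : Real.exp A * Real.exp (Q - pen w u g) = Real.exp (A - pen w u g) * Real.exp Q := by
      rw [← Real.exp_add, ← Real.exp_add]
      congr 1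
      ring
    rw [e1, ← add_mul]
    refine mul_le_mul_of_nonneg_right ?_ (Real.exp_pos _).le
    have := Real.add_one_le_exp (A - pen w u g)
    linarith
  have hint : ENNReal.ofReal (1 + A) * ∫⁻ g in Metric.closedBall 0 R,
      ENNReal.ofReal (Real.exp ((∑ i, c i * ⟪b i, g⟫ ^ 2) / 2)) ∂(stdGaussian E) ≤
      ENNReal.ofReal (Real.exp A) * (∫⁻ g in Metric.closedBall 0 R,
        ENNReal.ofReal (Real.exp ((∑ i, c i * ⟪b i, g⟫ ^ 2) / 2 - pen w u g)) ∂(stdGaussian E)) +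
        ENNReal.ofReal (A / 2 * P) := by
    rw [← lintegral_const_mul _ (by fun_prop), ← lintegral_const_mul _ (by fun_prop)]
    refine (lintegral_mono hpt).trans ?_
    rw [lintegral_add_left (by fun_prop)]
    gcongr
    exact (setLIntegral_le_lintegral _ _).trans hpen
  have h2 : ENNReal.ofReal (P / 2) + ENNReal.ofReal (A / 2 * P) ≤
      ENNReal.ofReal (Real.exp A) * (∫⁻ g in Metric.closedBall 0 R,
        ENNReal.ofReal (Real.exp ((∑ i, c i * ⟪b i, g⟫ ^ 2) / 2 - pen w u g)) ∂(stdGaussian E)) +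
        ENNReal.ofReal (A / 2 * P) := by
    refine le_trans ?_ hint
    calc ENNReal.ofReal (P / 2) + ENNReal.ofReal (A / 2 * P) = ENNReal.ofReal (1 + A) * ENNReal.ofReal (P / 2) := by
          rw [← ENNReal.ofReal_mul (by positivity), ← ENNReal.ofReal_add (by positivity) (by positivity)]
          congr 1
          ring
      _ ≤ _ := by gcongr
  have h3 := (ENNReal.add_le_add_iff_right ENNReal.ofReal_ne_top).1 h2
  rw [ENNReal.ofReal_mul (Real.exp_pos _).le]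
  calc ENNReal.ofReal (Real.exp (-A)) * ENNReal.ofReal (P / 2)
      ≤ ENNReal.ofReal (Real.exp (-A)) * (ENNReal.ofReal (Real.exp A) * (∫⁻ g in Metric.closedBall 0 R,
        ENNReal.ofReal (Real.exp ((∑ i, c i * ⟪b i, g⟫ ^ 2) / 2 - pen w u g)) ∂(stdGaussian E))) := by gcongr
    _ = _ := by
        rw [← mul_assoc, ← ENNReal.ofReal_mul (Real.exp_pos _).le, ← Real.exp_add]
        simp

variable {Ω : Type*} [MeasurableSpace Ω]

/-- **reverse linearisation with a penalty**, orthonormal basis form -/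
theorem rev_lin_basis_pen {ι : Type*} [Fintype ι] (b : OrthonormalBasis ι ℝ E) {c : ι → ℝ} {δ R : ℝ} (hδ : 0 < δ)
    (hR0 : 0 ≤ R) (hc : ∀ i, c i ≤ 1 - δ) (hR : 2 * (Fintype.card ι : ℝ) + 4 ≤ δ * R ^ 2)
    {J : Type*} [Fintype J] {w : J → ℝ} (hw : ∀ j, 0 ≤ w j) {u : J → E}
    (hu : ∀ j, ‖u j‖ ≤ 1) {W : ℝ} (hW : ∑ j, w j ≤ W)
    {μ : Measure Ω} [SFinite μ] {F : Ω → E} (hF : Measurable F) {Z₀ Z₁ e : ℝ} {l : E → ℝ}
    (hl : ∀ g, l (-g) = -l g) (hZ0 : 0 ≤ Z₀) (hZ1 : 0 ≤ Z₁)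
    (hup : ∫⁻ x, ENNReal.ofReal (Real.exp (‖F x‖ ^ 2 / 2)) ∂μ ≤ ENNReal.ofReal Z₀)
    (hlow : ∀ g : E, ‖g‖ ≤ R → ENNReal.ofReal (Z₁ * Real.exp ((∑ i, c i * ⟪b i, g⟫ ^ 2) / 2 - pen w u g +
      l g - e)) ≤ ∫⁻ x, ENNReal.ofReal (Real.exp ⟪g, F x⟫) ∂μ) :
    Z₁ ≤ 2 * Real.exp (e + 8 * W / δ) * Z₀ * ∏ i, Real.sqrt (1 - c i) := by
  have hq : ∀ i, 0 < 1 - c i := fun i => by linarith [hc i]
  obtain ⟨I, hI⟩ : ∃ I : E → ℝ≥0∞, I = fun g => ∫⁻ x, ENNReal.ofReal (Real.exp ⟪g, F x⟫) ∂μ := ⟨_, rfl⟩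
  have hIm : Measurable I := by
    rw [hI]
    exact Measurable.lintegral_prod_right' (f := fun p : E × Ω => ENNReal.ofReal (Real.exp ⟪p.1, F p.2⟫))
      (by fun_prop)
  have h1 : ∫⁻ g, I g ∂(stdGaussian E) ≤ ENNReal.ofReal Z₀ := by
    rw [hI, lintegral_lintegral_swap (by fun_prop)]
    simp_rw [lin]
    exact hup
  have h2 : ∫⁻ g in Metric.closedBall 0 R, I (-g) ∂(stdGaussian E) =
      ∫⁻ g in Metric.closedBall 0 R, I g ∂(stdGaussian E) := by
    rw [← lintegral_indicator Metric.isClosed_closedBall.measurableSet,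
      ← lintegral_indicator Metric.isClosed_closedBall.measurableSet,
      ← lint_neg _ (hIm.indicator Metric.isClosed_closedBall.measurableSet)]
    refine lintegral_congr fun g => ?_
    by_cases h : ‖g‖ ≤ R
    · rw [Set.indicator_of_mem (by simpa using h), Set.indicator_of_mem (by simpa using h)]
    · rw [Set.indicator_of_notMem (by simpa using h), Set.indicator_of_notMem (by simpa using h)]
  have h3 : ∫⁻ g in Metric.closedBall 0 R, (I g + I (-g)) ∂(stdGaussian E) ≤ 2 * ENNReal.ofReal Z₀ := by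
    rw [lintegral_add_left hIm, h2, ← two_mul]
    gcongr
    exact (setLIntegral_le_lintegral _ _).trans h1
  have hm := pen_meas w u
  have h4 : ∀ g ∈ Metric.closedBall (0 : E) R, ENNReal.ofReal (2 * Z₁ * Real.exp (-e)) *
      ENNReal.ofReal (Real.exp ((∑ i, c i * ⟪b i, g⟫ ^ 2) / 2 - pen w u g)) ≤ I g + I (-g) := by
    intro g hg
    have hg1 : ‖g‖ ≤ R := by simpa using hg
    have a1 := hlow g hg1
    have a2 := hlow (-g) (by rwa [norm_neg])
    have a3 : ∑ i, c i * ⟪b i, -g⟫ ^ 2 = ∑ i, c i * ⟪b i, g⟫ ^ 2 := by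
      refine Finset.sum_congr rfl fun i _ => ?_
      rw [inner_neg_right, neg_sq]
    rw [a3, hl, pen_neg] at a2
    obtain ⟨Q, hQ⟩ : ∃ Q, Q = (∑ i, c i * ⟪b i, g⟫ ^ 2) / 2 - pen w u g := ⟨_, rfl⟩
    rw [← hQ] at a1 a2 ⊢
    rw [hI]
    refine le_trans ?_ (add_le_add a1 a2)
    rw [← ENNReal.ofReal_mul (by positivity), ← ENNReal.ofReal_add (by positivity) (by positivity)]
    refine ENNReal.ofReal_le_ofReal ?_
    have a4 : Real.exp (Q + l g - e) = Real.exp (-e) * Real.exp Q * Real.exp (l g) := by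
      rw [← Real.exp_add, ← Real.exp_add]
      congr 1
      ring
    have a5 : Real.exp (Q + -l g - e) = Real.exp (-e) * Real.exp Q * Real.exp (-l g) := by
      rw [← Real.exp_add, ← Real.exp_add]
      congr 1
      ring
    have a6 : 2 ≤ Real.exp (l g) + Real.exp (-l g) := by
      have b1 := Real.add_one_le_exp (l g)
      have b2 := Real.add_one_le_exp (-l g)
      linarith
    rw [a4, a5]
    have a7 : 0 ≤ Z₁ * (Real.exp (-e) * Real.exp Q) := by positivity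
    nlinarith [mul_le_mul_of_nonneg_left a6 a7]
  obtain ⟨A, hA⟩ : ∃ A, A = 8 * W / δ := ⟨_, rfl⟩
  have h5 : ENNReal.ofReal (2 * Z₁ * Real.exp (-e)) *
      ENNReal.ofReal (Real.exp (-A) * ((∏ i, (Real.sqrt (1 - c i))⁻¹) / 2)) ≤ 2 * ENNReal.ofReal Z₀ := by
    calc ENNReal.ofReal (2 * Z₁ * Real.exp (-e)) *
          ENNReal.ofReal (Real.exp (-A) * ((∏ i, (Real.sqrt (1 - c i))⁻¹) / 2))
        ≤ ENNReal.ofReal (2 * Z₁ * Real.exp (-e)) * ∫⁻ g in Metric.closedBall 0 R,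
          ENNReal.ofReal (Real.exp ((∑ i, c i * ⟪b i, g⟫ ^ 2) / 2 - pen w u g)) ∂(stdGaussian E) := by
          gcongr
          rw [hA]
          exact pen_ball b hδ hR0 hc hR hw hu hW
      _ = ∫⁻ g in Metric.closedBall 0 R, ENNReal.ofReal (2 * Z₁ * Real.exp (-e)) *
          ENNReal.ofReal (Real.exp ((∑ i, c i * ⟪b i, g⟫ ^ 2) / 2 - pen w u g)) ∂(stdGaussian E) := by
          rw [lintegral_const_mul _ (by fun_prop)]
      _ ≤ ∫⁻ g in Metric.closedBall 0 R, (I g + I (-g)) ∂(stdGaussian E) :=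
          setLIntegral_mono' Metric.isClosed_closedBall.measurableSet h4
      _ ≤ _ := h3
  have h0 : 0 ≤ ∏ i, (Real.sqrt (1 - c i))⁻¹ := Finset.prod_nonneg fun i _ => by positivity
  rw [← ENNReal.ofReal_mul (by positivity), show (2 : ℝ≥0∞) = ENNReal.ofReal 2 by simp,
    ← ENNReal.ofReal_mul (by norm_num), ENNReal.ofReal_le_ofReal_iff (by positivity)] at h5
  have h6 : (∏ i, (Real.sqrt (1 - c i))⁻¹) * ∏ i, Real.sqrt (1 - c i) = 1 := by
    rw [← Finset.prod_mul_distrib]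
    exact Finset.prod_eq_one fun i _ => inv_mul_cancel₀ (Real.sqrt_pos.2 (hq i)).ne'
  have h7 : 0 ≤ ∏ i, Real.sqrt (1 - c i) := Finset.prod_nonneg fun i _ => Real.sqrt_nonneg _
  have h8 : Real.exp e * Real.exp (-e) = 1 := by rw [← Real.exp_add]; simp
  have h9 : Real.exp A * Real.exp (-A) = 1 := by rw [← Real.exp_add]; simp
  rw [← hA, Real.exp_add]
  calc Z₁ = (2 * Z₁ * Real.exp (-e) * (Real.exp (-A) * ((∏ i, (Real.sqrt (1 - c i))⁻¹) / 2))) *
        (Real.exp e * Real.exp A * ∏ i, Real.sqrt (1 - c i)) := by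
        rw [show (2 * Z₁ * Real.exp (-e) * (Real.exp (-A) * ((∏ i, (Real.sqrt (1 - c i))⁻¹) / 2))) *
          (Real.exp e * Real.exp A * ∏ i, Real.sqrt (1 - c i)) = Z₁ * (Real.exp e * Real.exp (-e)) *
          (Real.exp A * Real.exp (-A)) *
          ((∏ i, (Real.sqrt (1 - c i))⁻¹) * ∏ i, Real.sqrt (1 - c i)) by ring, h6, h8, h9]
        ring
    _ ≤ (2 * Z₀) * (Real.exp e * Real.exp A * ∏ i, Real.sqrt (1 - c i)) :=
        mul_le_mul_of_nonneg_right h5 (by positivity)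
    _ = _ := by ring

end PLT.Rev
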