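import Pool.Agent.NUE.RevProf
import Pool.Agent.PLT.RevPen

/-!
# Reverse linearisation with a quadratic penalty: Toeplitz form and profile

Copies of `NUE.rev_lin_det`, `NUE.rev_toep`, `NUE.R3` with a lower bound of the exponential moments that contains
`- Σ w_j g_j²`, `w_j ≥ 0`, `Σ w_j ≤ W`: the loss is the constant `exp (8 W / δ)`.
-/

set_option autoImplicit false

namespace PLT.Rev

open MeasureTheory ProbabilityTheory Module NURev NUE NUMF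

open scoped RealInnerProductSpace NNReal ComplexConjugate

variable {Ω : Type*} [MeasurableSpace Ω]

/-- **reverse linearisation with a penalty, matrix and determinant form** -/
theorem rev_lin_det_pen {K : ℕ} {C : Matrix (Fin K) (Fin K) ℝ} (hC : ∀ a b, C a b = C b a) {δ R : ℝ} (hδ : 0 < δ)
    (hR0 : 0 ≤ R) (hc : ∀ g : Fin K → ℝ, ∑ a, ∑ b, g a * C a b * g b ≤ (1 - δ) * ∑ a, g a ^ 2)
    (hR : 2 * (K : ℝ) + 4 ≤ δ * R ^ 2) {μ : Measure Ω} [SFinite μ] {F : Fin K → Ω → ℝ}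
    (hF : ∀ a, Measurable (F a)) {w : Fin K → ℝ} (hw : ∀ j, 0 ≤ w j) {W : ℝ} (hW : ∑ j, w j ≤ W)
    {Z₀ Z₁ e : ℝ} {l : (Fin K → ℝ) → ℝ}
    (hl : ∀ g, l (-g) = -l g) (hZ0 : 0 ≤ Z₀) (hZ1 : 0 ≤ Z₁)
    (hup : ∫⁻ x, ENNReal.ofReal (Real.exp ((∑ a, F a x ^ 2) / 2)) ∂μ ≤ ENNReal.ofReal Z₀)
    (hlow : ∀ g : Fin K → ℝ, ∑ a, g a ^ 2 ≤ R ^ 2 →
      ENNReal.ofReal (Z₁ * Real.exp ((∑ a, ∑ b, g a * C a b * g b) / 2 - ∑ j, w j * g j ^ 2 + l g - e)) ≤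
        ∫⁻ x, ENNReal.ofReal (Real.exp (∑ a, g a * F a x)) ∂μ) :
    0 ≤ (1 - C).det ∧ Z₁ ≤ 2 * Real.exp (e + 8 * W / δ) * Z₀ * Real.sqrt (1 - C).det := by
  have hH : (1 - C).IsHermitian := by
    ext a b
    rw [Matrix.conjTranspose_apply, Matrix.sub_apply, Matrix.sub_apply, star_trivial, hC b a]
    congr 1
    by_cases h : a = b
    · rw [h]
    · rw [Matrix.one_apply_ne h, Matrix.one_apply_ne (Ne.symm h)]
  obtain ⟨b, hb⟩ : ∃ b, b = hH.eigenvectorBasis := ⟨_, rfl⟩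
  obtain ⟨d, hd⟩ : ∃ d, d = hH.eigenvalues := ⟨_, rfl⟩
  have hdet : (1 - C).det = ∏ i, d i := by
    have := hH.det_eq_prod_eigenvalues
    rw [this, hd]
    rfl
  obtain ⟨T, hT⟩ : ∃ T : EuclideanSpace ℝ (Fin K) →ₗ[ℝ] EuclideanSpace ℝ (Fin K),
    T = (1 - C).toEuclideanLin := ⟨_, rfl⟩
  have hquad : ∀ g : EuclideanSpace ℝ (Fin K), ⟪T g, g⟫ = ∑ a, g a ^ 2 - ∑ a, ∑ b, g a * C a b * g b := by
    intro g
    rw [hT, PiLp.inner_apply, ← Finset.sum_sub_distrib]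
    refine Finset.sum_congr rfl fun a _ => ?_
    rw [Matrix.toLpLin_apply]
    simp only [RCLike.inner_apply, conj_trivial, Matrix.mulVec, dotProduct, Matrix.sub_apply, sub_mul,
      Finset.sum_sub_distrib, mul_sub]
    congr 1
    · rw [Finset.sum_eq_single a]
      · rw [Matrix.one_apply_eq]
        ring
      · intro j _ hj
        rw [Matrix.one_apply_ne (Ne.symm hj), zero_mul]
      · intro h0
        exact absurd (Finset.mem_univ _) h0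
    · rw [Finset.mul_sum]
      exact Finset.sum_congr rfl fun b _ => by ring
  have hsym : T.IsSymmetric := by
    rw [hT, Matrix.isSymmetric_toEuclideanLin_iff]
    exact hH
  have hTb : ∀ i, T (b i) = d i • b i := by
    intro i
    rw [hT, hb, hd]
    have h1 := hH.mulVec_eigenvectorBasis i
    rw [Matrix.toLpLin_apply]
    apply (WithLp.ofLp_injective 2)
    rw [WithLp.ofLp_toLp, h1]
    rfl
  have hdiag : ∀ g, ⟪T g, g⟫ = ∑ i, d i * ⟪b i, g⟫ ^ 2 := by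
    intro g
    rw [← b.sum_inner_mul_inner (T g) g]
    refine Finset.sum_congr rfl fun i _ => ?_
    rw [hsym g (b i), hTb, real_inner_smul_right, real_inner_comm]
    ring
  have hnorm : ∀ g : EuclideanSpace ℝ (Fin K), ‖g‖ ^ 2 = ∑ a, g a ^ 2 := EuclideanSpace.real_norm_sq_eq
  have hCdiag : ∀ g : EuclideanSpace ℝ (Fin K),
      ∑ a, ∑ b, g a * C a b * g b = ∑ i, (1 - d i) * ⟪b i, g⟫ ^ 2 := by
    intro g
    have h1 := hquad g
    rw [hdiag, ← hnorm, ← b.sum_sq_inner_right g] at h1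
    have h2 : ∑ i, (1 - d i) * ⟪b i, g⟫ ^ 2 = ∑ i, ⟪b i, g⟫ ^ 2 - ∑ i, d i * ⟪b i, g⟫ ^ 2 := by
      rw [← Finset.sum_sub_distrib]
      exact Finset.sum_congr rfl fun i _ => by ring
    rw [h2]
    linarith
  have hd1 : ∀ i, δ ≤ d i := by
    intro i
    have h1 := hc (WithLp.ofLp (b i))
    rw [← hnorm, b.orthonormal.1 i] at h1
    have h2 := hquad (b i)
    rw [hTb, real_inner_smul_left, real_inner_self_eq_norm_sq, ← hnorm, b.orthonormal.1 i] at h2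
    linarith
  have hd0 : ∀ i, 0 ≤ d i := fun i => hδ.le.trans (hd1 i)
  obtain ⟨G, hG⟩ : ∃ G : Ω → EuclideanSpace ℝ (Fin K), G = fun x => WithLp.toLp 2 (fun a => F a x) := ⟨_, rfl⟩
  have hGm : Measurable G := by
    rw [hG]
    have : Measurable fun x => (fun a => F a x) := measurable_pi_lambda _ hF
    exact (WithLp.measurable_toLp 2 (Fin K → ℝ)).comp this
  have hpen : ∀ g : EuclideanSpace ℝ (Fin K), pen w (fun j => EuclideanSpace.single j (1 : ℝ)) g =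
      ∑ j, w j * g j ^ 2 := by
    intro g
    unfold pen
    refine Finset.sum_congr rfl fun j _ => ?_
    rw [EuclideanSpace.inner_single_left]
    simp
  have h := rev_lin_basis_pen b (c := fun i => 1 - d i) hδ hR0 (fun i => by linarith [hd1 i])
    (by rw [Fintype.card_fin]; exact hR) hw (u := fun j => EuclideanSpace.single j (1 : ℝ))
    (fun j => by simp) hW (μ := μ) hGm (Z₀ := Z₀) (Z₁ := Z₁) (e := e)
    (l := fun g => l (WithLp.ofLp g)) (fun g => by simpa using hl _) hZ0 hZ1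
    (by
      refine le_trans (le_of_eq ?_) hup
      refine lintegral_congr fun x => ?_
      rw [hnorm, hG])
    (fun g hg => by
      have h1 := hlow (WithLp.ofLp g) (by
        have := hnorm g
        have h2 : ‖g‖ ^ 2 ≤ R ^ 2 := by gcongr
        rw [this] at h2
        exact h2)
      rw [← hCdiag, hpen]
      refine h1.trans (le_of_eq ?_)
      refine lintegral_congr fun x => ?_
      congr 2
      rw [PiLp.inner_apply, hG]
      refine Finset.sum_congr rfl fun a _ => ?_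
      simp only [RCLike.inner_apply, conj_trivial]
      ring)
  refine ⟨by rw [hdet]; exact Finset.prod_nonneg fun i _ => hd0 i, ?_⟩
  have h3 : ∏ i, Real.sqrt (1 - (1 - d i)) = Real.sqrt (1 - C).det := by
    rw [hdet, Real.sqrt_prod _ (fun i _ => hd0 i)]
    exact Finset.prod_congr rfl fun i _ => by rw [sub_sub_cancel]
  rw [← h3]
  exact h

/-- **reverse linearisation with a Toeplitz matrix and a penalty** -/
theorem rev_toep_pen {s : ℝ → ℝ} (hs : Continuous s) (he : ∀ θ, s (-θ) = s θ)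
    {δ : ℝ} (hδ : 0 < δ) (h1 : ∀ θ, s θ ≤ 1 - δ) {e : ℝ} (hepos : 0 < e) :
    ∃ Cst : ℝ, ∀ (N : ℕ) (R : ℝ), 0 ≤ R → 2 * (N : ℝ) + 4 ≤ δ * R ^ 2 →
      ∀ {Ω : Type*} [MeasurableSpace Ω] (μ : Measure Ω) [SFinite μ] (F : Fin N → Ω → ℝ) (Z₀ Z₁ e' W : ℝ)
        (w : Fin N → ℝ) (l : (Fin N → ℝ) → ℝ), (∀ j, 0 ≤ w j) → ∑ j, w j ≤ W → (∀ a, Measurable (F a)) → (∀ g, l (-g) = -l g) → 0 ≤ Z₀ → 0 ≤ Z₁ →
        ∫⁻ x, ENNReal.ofReal (Real.exp ((∑ a, F a x ^ 2) / 2)) ∂μ ≤ ENNReal.ofReal Z₀ →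
        (∀ g : Fin N → ℝ, ∑ a, g a ^ 2 ≤ R ^ 2 →
          ENNReal.ofReal (Z₁ * Real.exp ((∑ a, ∑ b, g a * toep s N a b * g b) / 2 - ∑ j, w j * g j ^ 2 +
            l g - e')) ≤ ∫⁻ x, ENNReal.ofReal (Real.exp (∑ a, g a * F a x)) ∂μ) →
        Z₁ ≤ Z₀ * Real.exp (e' + 8 * W / δ + (N : ℝ) / 2 *
          ((1 / (2 * Real.pi) * ∫ θ in (-Real.pi)..Real.pi, Real.log (1 - s θ)) + e) + Cst) := by
  obtain ⟨Cst, hC⟩ := det_upper hs he hδ h1 hepos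
  refine ⟨Real.log 2 + Cst / 2, ?_⟩
  intro N R hR0 hR Ω _ μ _ F Z₀ Z₁ e' W w l hw hW hF hl hZ0 hZ1 hup hlow
  have hpi := Real.pi_pos
  have hcle : ∀ g : Fin N → ℝ, ∑ a, ∑ b, g a * toep s N a b * g b ≤ (1 - δ) * ∑ a, g a ^ 2 := by
    intro g
    rw [toep_quad hs, ← int_sq g, mul_left_comm]
    have hcs := continuous_sq g
    refine mul_le_mul_of_nonneg_left ?_ (by positivity)
    rw [← intervalIntegral.integral_const_mul]
    refine intervalIntegral.integral_mono_on (by linarith) (by apply Continuous.intervalIntegrable; fun_prop)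
      (by apply Continuous.intervalIntegrable; fun_prop) fun θ _ => ?_
    exact mul_le_mul_of_nonneg_right (h1 θ) (sq_nonneg' g θ)
  obtain ⟨hdet0, h⟩ := rev_lin_det_pen (toep_symm s) hδ hR0 hcle hR hF hw hW hl hZ0 hZ1 hup hlow
  refine h.trans ?_
  obtain ⟨J, hJ⟩ : ∃ J : ℝ, J = (1 / (2 * Real.pi) * ∫ θ in (-Real.pi)..Real.pi, Real.log (1 - s θ)) + e := ⟨_, rfl⟩
  have h2 := hC N
  rw [← hJ] at h2 ⊢
  have h3 : Real.sqrt (1 - toep s N).det ≤ Real.exp ((N : ℝ) / 2 * J + Cst / 2) := by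
    rw [Real.sqrt_le_left (Real.exp_pos _).le, ← Real.exp_nat_mul]
    refine h2.trans (le_of_eq ?_)
    congr 1
    push_cast
    ring
  calc 2 * Real.exp (e' + 8 * W / δ) * Z₀ * Real.sqrt (1 - toep s N).det
      ≤ 2 * Real.exp (e' + 8 * W / δ) * Z₀ * Real.exp ((N : ℝ) / 2 * J + Cst / 2) := by gcongr
    _ = Z₀ * Real.exp (e' + 8 * W / δ + (N : ℝ) / 2 * J + (Real.log 2 + Cst / 2)) := by
        rw [show e' + 8 * W / δ + (N : ℝ) / 2 * J + (Real.log 2 + Cst / 2) =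
          Real.log 2 + ((e' + 8 * W / δ) + ((N : ℝ) / 2 * J + Cst / 2)) by
          ring, Real.exp_add (Real.log 2), Real.exp_log two_pos, Real.exp_add (e' + 8 * W / δ)]
        ring

/-- **R3 with a penalty, final form**: profile, grid step `h`, number of grid points `N`: gain `exp (-(2/3)(1-ε) N h)` -/
theorem R3p {ε : ℝ} (hε : 0 < ε) : ∃ (δ K η : ℝ) (c : ℝ → ℝ), 0 < δ ∧ δ < K ∧ 0 < η ∧
    ContDiff ℝ ((⊤ : ℕ∞) : WithTop ℕ∞) c ∧ (∀ k, 0 ≤ c k) ∧ (∀ k, c (-k) = c k) ∧ (∀ k, |k| ≤ δ → c k = 0) ∧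
    (∀ k, K ≤ |k| → c k = 0) ∧ (∀ k, k ≠ 0 → c k ^ 2 ≤ Lh k) ∧ Continuous (rs c) ∧ (∀ k, rs c k ≤ 1 - η) ∧
    ∀ h : ℝ, 0 < h → K * h < Real.pi → ∃ Cst : ℝ, ∀ (N : ℕ) (R : ℝ), 0 ≤ R → 2 * (N : ℝ) + 4 ≤ η * R ^ 2 →
      ∀ {Ω : Type*} [MeasurableSpace Ω] (μ : Measure Ω) [SFinite μ] (F : Fin N → Ω → ℝ) (Z₀ Z₁ e' W : ℝ)
        (w : Fin N → ℝ) (l : (Fin N → ℝ) → ℝ), (∀ j, 0 ≤ w j) → ∑ j, w j ≤ W → (∀ a, Measurable (F a)) → (∀ g, l (-g) = -l g) → 0 ≤ Z₀ → 0 ≤ Z₁ →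
        ∫⁻ x, ENNReal.ofReal (Real.exp ((∑ a, F a x ^ 2) / 2)) ∂μ ≤ ENNReal.ofReal Z₀ →
        (∀ g : Fin N → ℝ, ∑ a, g a ^ 2 ≤ R ^ 2 →
          ENNReal.ofReal (Z₁ * Real.exp ((∑ a, ∑ b, g a * toep (fun θ => rs c (θ / h)) N a b * g b) / 2 -
            ∑ j, w j * g j ^ 2 + l g - e')) ≤ ∫⁻ x, ENNReal.ofReal (Real.exp (∑ a, g a * F a x)) ∂μ) →
        Z₁ ≤ Z₀ * Real.exp (e' + 8 * W / η - 2 / 3 * (1 - ε) * (N * h) + Cst) := by
  obtain ⟨δ, K, η, c, hδ, hK, hη, hc1, hc2, hc3, hc4, hc5, hc6, hc7, hc8, hc9⟩ := exists_rs (half_pos hε)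
  refine ⟨δ, K, η, c, hδ, hK, hη, hc1, hc2, hc3, hc4, hc5, hc6, hc7, hc8, fun h hh hKh => ?_⟩
  obtain ⟨Cst, hC⟩ := rev_toep_pen (s := fun θ => rs c (θ / h)) (hc7.comp (continuous_id.div_const h))
    (fun θ => by simp only [neg_div]; exact rs_neg hc3 _) hη (fun θ => hc8 _) (e := 2 / 3 * ε * h) (by positivity)
  refine ⟨Cst, ?_⟩
  intro N R hR0 hR Ω _ μ _ F Z₀ Z₁ e' W w l hw hW hF hl hZ0 hZ1 hup hlow
  refine (hC N R hR0 hR μ F Z₀ Z₁ e' W w l hw hW hF hl hZ0 hZ1 hup hlow).trans ?_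
  have h1 := hc9 h hh hKh
  refine mul_le_mul_of_nonneg_left (Real.exp_le_exp.2 ?_) hZ0
  have hN : (0:ℝ) ≤ (N : ℝ) / 2 := by positivity
  have h2 := mul_le_mul_of_nonneg_left (add_le_add_left h1 (2 / 3 * ε * h)) hN
  have h3 : (N : ℝ) / 2 * (-(4 / 3 * (1 - ε / 2) * h) + 2 / 3 * ε * h) = -(2 / 3 * (1 - ε) * (N * h)) := by
    ring
  linarith

end PLT.Rev
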