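import Pool.Agent.PLX.R2.Fin
import Pool.Agent.PLT.RevPenT

/-!
# [4.9] with a quadratic penalty in the lower bound of the exponential moments

Copies of `NUS4.core`, `NUS4.core_lint`, `NUS4.fin2` with `H1p` (the landed `H1` with `- Σ w_i g_i²`,
`Σ w_i ≤ W₀`); the penalty weight `pw` and the bound of its sum over a grid.
-/

set_option autoImplicit false

namespace PLT.FP

open MeasureTheory Set Filter Topology NUMF NUE NUKer NUR2 NUDi NUS4 PLT.Rev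
open scoped ENNReal

noncomputable section

/-- **[4.9], abstract form, with a penalty.**  For `ε, e` small: profile `c`, then for every grid step `h < π / K` a constant `C₀`;
for every `m ≥ 1` and every positive measure `μ` with fields `F` on the grid in `|t| ≤ (1 - 2e)(3/8) log m`:
if either `Z₁ ≤ A m^(a-1/2)` or the lower bound of the exponential moments holds, then
`Z₁ ≤ C₀ e^{e'} A m^{a - 1/2 + ε}` whenever `∫ e^{½ Σ F²} dμ ≤ A m^a`, `a ≥ 1/2`. -/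
theorem corep {ε : ℝ} (hε : 0 < ε) (hε1 : ε ≤ 1) : ∃ (δ K η : ℝ) (c : ℝ → ℝ), 0 < δ ∧ δ < K ∧ 0 < η ∧
    ContDiff ℝ ((⊤ : ℕ∞) : WithTop ℕ∞) c ∧ (∀ k, 0 ≤ c k) ∧ (∀ k, c (-k) = c k) ∧ (∀ k, |k| ≤ δ → c k = 0) ∧
    (∀ k, K ≤ |k| → c k = 0) ∧ (∀ k, k ≠ 0 → c k ^ 2 ≤ Lh k) ∧ Continuous (rs c) ∧ (∀ k, rs c k ≤ 1 - η) ∧
    ∀ h : ℝ, 0 < h → K * h < Real.pi → ∀ W₀ : ℝ, 0 ≤ W₀ → ∃ C₀ : ℝ, 1 ≤ C₀ ∧ ∀ (e : ℝ), 0 ≤ e → e ≤ 1 / 2 →
      ∀ (m : ℕ), 1 ≤ m → ∀ (N : ℕ), N = gN h ((1 - 2 * e) * (3 / 8 * Real.log m)) →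
      ∀ {Ω : Type*} [MeasurableSpace Ω] (μ : Measure Ω) [SFinite μ] (F : Fin N → Ω → ℝ) (A Z₁ e' a : ℝ)
        (w : Fin N → ℝ) (l : (Fin N → ℝ) → ℝ), (∀ j, 0 ≤ w j) → ∑ j, w j ≤ W₀ → (∀ i, Measurable (F i)) → (∀ g, l (-g) = -l g) → 0 ≤ A → 0 ≤ Z₁ → 0 ≤ e' → 1 / 2 ≤ a →
        ∫⁻ x, ENNReal.ofReal (Real.exp ((∑ i, F i x ^ 2) / 2)) ∂μ ≤ ENNReal.ofReal (A * (m : ℝ) ^ a) →
        (Z₁ ≤ A * (m : ℝ) ^ (a - 1 / 2) ∨ ∀ g : Fin N → ℝ, ∑ i, g i ^ 2 ≤ (2 * (N : ℝ) + 4) / η →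
          ENNReal.ofReal (Z₁ * Real.exp ((∑ i, ∑ j, g i * toep (fun θ => rs c (θ / h)) N i j * g j) / 2 -
            ∑ j, w j * g j ^ 2 + l g - e')) ≤ ∫⁻ x, ENNReal.ofReal (Real.exp (∑ i, g i * F i x)) ∂μ) →
        Z₁ ≤ C₀ * Real.exp e' * A * (m : ℝ) ^ (a - 1 / 2 + (ε + e)) := by
  obtain ⟨δ, K, η, c, hδ, hK, hη, hc1, hc2, hc3, hc4, hc5, hc6, hc7, hc8, hc9⟩ := R3p hε
  refine ⟨δ, K, η, c, hδ, hK, hη, hc1, hc2, hc3, hc4, hc5, hc6, hc7, hc8, fun h hh hKh W₀ hW₀ => ?_⟩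
  obtain ⟨Cst, hC⟩ := hc9 h hh hKh
  refine ⟨Real.exp (|Cst| + h + 8 * W₀ / η), Real.one_le_exp (by positivity), ?_⟩
  intro e he0 he1 m hm N hN Ω _ μ _ F A Z₁ e' a w l hw hw2 hF hl hA hZ1 he' ha hup hor
  have hm1 : (1 : ℝ) ≤ m := by exact_mod_cast hm
  have hm0 : (0 : ℝ) < m := by linarith
  have hlog : 0 ≤ Real.log m := Real.log_nonneg hm1
  have hC1 : 1 ≤ Real.exp (|Cst| + h + 8 * W₀ / η) := Real.one_le_exp (by positivity)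
  rcases hor with h1 | h1
  · have h2 : (m : ℝ) ^ (a - 1 / 2) ≤ (m : ℝ) ^ (a - 1 / 2 + (ε + e)) :=
      Real.rpow_le_rpow_of_exponent_le hm1 (by linarith)
    have h3 : (1 : ℝ) ≤ Real.exp e' := Real.one_le_exp he'
    have h5 : 1 ≤ Real.exp (|Cst| + h + 8 * W₀ / η) * Real.exp e' := one_le_mul_of_one_le_of_one_le hC1 h3
    calc Z₁ ≤ A * (m : ℝ) ^ (a - 1 / 2) := h1
      _ ≤ A * (m : ℝ) ^ (a - 1 / 2 + (ε + e)) := mul_le_mul_of_nonneg_left h2 hA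
      _ = 1 * (A * (m : ℝ) ^ (a - 1 / 2 + (ε + e))) := (one_mul _).symm
      _ ≤ (Real.exp (|Cst| + h + 8 * W₀ / η) * Real.exp e') * (A * (m : ℝ) ^ (a - 1 / 2 + (ε + e))) :=
          mul_le_mul_of_nonneg_right h5 (by positivity)
      _ = _ := by ring
  · have h2 := hC N (gR η N) (gR_nonneg η N) (by
      rw [gR_sq hη]
      rw [mul_div_cancel₀ _ hη.ne']) μ F (A * (m : ℝ) ^ a) Z₁ e' W₀ w l hw hw2 hF hl (by positivity) hZ1 hup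
      (fun g hg => h1 g (by rwa [gR_sq hη] at hg))
    refine h2.trans ?_
    have h3 := le_gN (h := h) (X := (1 - 2 * e) * (3 / 8 * Real.log m)) hh
    rw [← hN] at h3
    have hε2 : e' + 8 * W₀ / η - 2 / 3 * (1 - ε) * (N * h) + Cst ≤
        (|Cst| + h + 8 * W₀ / η) + e' - (1 / 2 - (ε + e)) * Real.log m := by
      have h4 := le_abs_self Cst
      have h5 : 0 ≤ (N : ℝ) * h := by positivity
      have h7 : 2 / 3 * (1 - ε) * (2 * ((1 - 2 * e) * (3 / 8 * Real.log m)) - h) ≤ 2 / 3 * (1 - ε) * (N * h) :=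
        mul_le_mul_of_nonneg_left h3 (by linarith)
      have h8 : 2 / 3 * (1 - ε) * (2 * ((1 - 2 * e) * (3 / 8 * Real.log m)) - h) =
          (1 / 2 - (ε / 2 + e) + ε * e) * Real.log m - 2 / 3 * (1 - ε) * h := by ring
      have h9 : 2 / 3 * (1 - ε) * h ≤ h := by nlinarith
      have h10 : 0 ≤ ε * e * Real.log m := by positivity
      have h11 : 0 ≤ ε / 2 * Real.log m := by positivity
      nlinarith
    calc A * (m : ℝ) ^ a * Real.exp (e' + 8 * W₀ / η - 2 / 3 * (1 - ε) * (N * h) + Cst)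
        ≤ A * (m : ℝ) ^ a * Real.exp ((|Cst| + h + 8 * W₀ / η) + e' - (1 / 2 - (ε + e)) * Real.log m) := by
          gcongr
      _ = _ := by
        rw [Real.rpow_def_of_pos hm0, Real.rpow_def_of_pos hm0, sub_eq_add_neg, Real.exp_add, Real.exp_add]
        have : Real.exp (Real.log m * (a - 1 / 2 + (ε + e))) =
            Real.exp (Real.log m * a) * Real.exp (-((1 / 2 - (ε + e)) * Real.log m)) := by
          rw [← Real.exp_add]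
          congr 1
          ring
        rw [this]
        ring

/-- the glue with a penalty -/
theorem core_lintp {ε : ℝ} (hε : 0 < ε) (hε1 : ε ≤ 1) : ∃ (δ K η : ℝ) (c : ℝ → ℝ), 0 < δ ∧ δ < K ∧ 0 < η ∧
    ContDiff ℝ ((⊤ : ℕ∞) : WithTop ℕ∞) c ∧ (∀ k, 0 ≤ c k) ∧ (∀ k, c (-k) = c k) ∧ (∀ k, |k| ≤ δ → c k = 0) ∧
    (∀ k, K ≤ |k| → c k = 0) ∧ (∀ k, k ≠ 0 → c k ^ 2 ≤ Lh k) ∧ Continuous (rs c) ∧ (∀ k, rs c k ≤ 1 - η) ∧
    ∀ h : ℝ, 0 < h → K * h < Real.pi → ∀ W₀ : ℝ, 0 ≤ W₀ → ∃ C₀ : ℝ, 1 ≤ C₀ ∧ ∀ (e : ℝ), 0 ≤ e → e ≤ 1 / 2 →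
      ∀ (m : ℕ), 1 ≤ m → ∀ (N : ℕ), N = gN h ((1 - 2 * e) * (3 / 8 * Real.log m)) →
      ∀ {Ω : Type*} [MeasurableSpace Ω] (μ : Measure Ω) [SFinite μ] (W : Ω → ℝ≥0∞) (B : Set Ω)
        (F : Fin N → Ω → ℝ) (A e' a : ℝ) (w : Fin N → ℝ) (l : (Fin N → ℝ) → ℝ), (∀ j, 0 ≤ w j) →
        ∑ j, w j ≤ W₀ → Measurable W → MeasurableSet B →
        (∀ i, Measurable (F i)) → (∀ g, l (-g) = -l g) → 0 ≤ A → 0 ≤ e' → 1 / 2 ≤ a →
        ∫⁻ x, W x * ENNReal.ofReal (Real.exp ((∑ i, F i x ^ 2) / 2)) ∂μ ≤ ENNReal.ofReal (A * (m : ℝ) ^ a) →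
        ∫⁻ x in Bᶜ, W x ∂μ ≤ ENNReal.ofReal A →
        (∫⁻ x in B, W x ∂μ ≤ ENNReal.ofReal (A * (m : ℝ) ^ (a - 1 / 2)) ∨
          ∀ g : Fin N → ℝ, ∑ i, g i ^ 2 ≤ (2 * (N : ℝ) + 4) / η →
          (∫⁻ x in B, W x ∂μ) * ENNReal.ofReal (Real.exp ((∑ i, ∑ j, g i *
            toep (fun θ => rs c (θ / h)) N i j * g j) / 2 - ∑ j, w j * g j ^ 2 + l g - e')) ≤
            ∫⁻ x in B, W x * ENNReal.ofReal (Real.exp (∑ i, g i * F i x)) ∂μ) →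
        ∫⁻ x, W x ∂μ ≤ ENNReal.ofReal ((C₀ * Real.exp e' + 1) * A * (m : ℝ) ^ (a - 1 / 2 + (ε + e))) := by
  obtain ⟨δ, K, η, c, hδ, hK, hη, hc1, hc2, hc3, hc4, hc5, hc6, hc7, hc8, hc9⟩ := corep hε hε1
  refine ⟨δ, K, η, c, hδ, hK, hη, hc1, hc2, hc3, hc4, hc5, hc6, hc7, hc8, fun h hh hKh W₀ hW₀ => ?_⟩
  obtain ⟨C₀, hC0, hC⟩ := hc9 h hh hKh W₀ hW₀
  refine ⟨C₀, hC0, ?_⟩
  intro e he0 he1 m hm N hN Ω _ μ _ W B F A e' a w l hw hw2 hW hB hF hl hA he' ha hup htail hor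
  have hm1 : (1 : ℝ) ≤ m := by exact_mod_cast hm
  have hm0 : (0 : ℝ) < m := by linarith
  -- the window part is finite
  have hone : ∀ x, W x ≤ W x * ENNReal.ofReal (Real.exp ((∑ i, F i x ^ 2) / 2)) := by
    intro x
    have h1 : (1 : ℝ≥0∞) ≤ ENNReal.ofReal (Real.exp ((∑ i, F i x ^ 2) / 2)) := by
      rw [← ENNReal.ofReal_one]
      refine ENNReal.ofReal_le_ofReal (Real.one_le_exp ?_)
      have := Finset.sum_nonneg (fun i (_ : i ∈ Finset.univ) => sq_nonneg (F i x))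
      positivity
    calc W x = W x * 1 := (mul_one _).symm
      _ ≤ _ := by gcongr
  have hfin : ∫⁻ x in B, W x ∂μ ≠ ∞ := by
    refine ne_top_of_le_ne_top ENNReal.ofReal_ne_top (le_trans ?_ hup)
    calc ∫⁻ x in B, W x ∂μ ≤ ∫⁻ x, W x ∂μ := setLIntegral_le_lintegral _ _
      _ ≤ _ := lintegral_mono hone
  -- the measure
  set ν : Measure Ω := (μ.restrict B).withDensity W with hν
  have hint : ∀ f : Ω → ℝ≥0∞, Measurable f → ∫⁻ x, f x ∂ν = ∫⁻ x in B, W x * f x ∂μ := by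
    intro f hf
    rw [hν, lintegral_withDensity_eq_lintegral_mul _ hW hf]
    rfl
  have key := hC e he0 he1 m hm N hN ν F A (∫⁻ x in B, W x ∂μ).toReal e' a w l hw hw2 hF hl hA ENNReal.toReal_nonneg
    he' ha (by
      rw [hint _ (by fun_prop)]
      exact (setLIntegral_le_lintegral _ _).trans hup) (by
      rcases hor with h1 | h1
      · left
        exact ENNReal.toReal_le_of_le_ofReal (by positivity) h1
      · right
        intro g hg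
        rw [hint _ (by fun_prop), ENNReal.ofReal_mul ENNReal.toReal_nonneg, ENNReal.ofReal_toReal hfin]
        exact h1 g hg)
  have h2 : ∫⁻ x in B, W x ∂μ ≤ ENNReal.ofReal (C₀ * Real.exp e' * A * (m : ℝ) ^ (a - 1 / 2 + (ε + e))) := by
    rw [← ENNReal.ofReal_toReal hfin]
    exact ENNReal.ofReal_le_ofReal key
  have h3 : (1 : ℝ) ≤ (m : ℝ) ^ (a - 1 / 2 + (ε + e)) := Real.one_le_rpow hm1 (by linarith)
  rw [← lintegral_add_compl _ hB]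
  refine (add_le_add h2 htail).trans ?_
  have hC0' : 0 ≤ C₀ := by linarith
  rw [← ENNReal.ofReal_add (by positivity) hA]
  refine ENNReal.ofReal_le_ofReal ?_
  have h4 : A * 1 ≤ A * (m : ℝ) ^ (a - 1 / 2 + (ε + e)) := mul_le_mul_of_nonneg_left h3 hA
  nlinarith

/-- the alternative (H1) on the window, with a penalty -/
def H1p {p n : ℕ} (c : ℝ → ℝ) (h η X R e' : ℝ) (w : Fin (gN h X) → ℝ) (l : (Fin (gN h X) → ℝ) → ℝ)
    (cc : Fin (gN h X) → ℝ) (W : Cfg p n → ℝ≥0∞) : Prop :=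
  ∀ g : Fin (gN h X) → ℝ, ∑ i, g i ^ 2 ≤ (2 * (gN h X : ℝ) + 4) / η →
    (∫⁻ x in Bx R, W x) * ENNReal.ofReal (Real.exp ((∑ i, ∑ j, g i *
      toep (fun θ => rs c (θ / h)) (gN h X) i j * g j) / 2 - ∑ i, w i * g i ^ 2 + l g - e')) ≤
      ∫⁻ x in Bx R, W x * ENNReal.ofReal (Real.exp (∑ i, g i * Fi c h X cc i x))

/-- **the sharp bound**, two densities `ρ`, `σ`, with a penalty -/
theorem fin2p {ε : ℝ} (hε : 0 < ε) (hε1 : ε ≤ 1) : ∃ (δ K η : ℝ) (c : ℝ → ℝ), 0 < δ ∧ δ < K ∧ 0 < η ∧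
    ContDiff ℝ ((⊤ : ℕ∞) : WithTop ℕ∞) c ∧ (∀ k, 0 ≤ c k) ∧ (∀ k, c (-k) = c k) ∧ (∀ k, |k| ≤ δ → c k = 0) ∧
    (∀ k, K ≤ |k| → c k = 0) ∧ (∀ k, k ≠ 0 → c k ^ 2 ≤ Lh k) ∧ Continuous (rs c) ∧ (∀ k, rs c k ≤ 1 - η) ∧
    ∀ h : ℝ, 0 < h → K * h < Real.pi → ∀ {C₁ C₂ C₃ W₀ : ℝ}, 0 < C₁ → 0 ≤ C₂ → 0 ≤ C₃ →
      0 ≤ W₀ → ∃ C₀ C₄ : ℝ, 1 ≤ C₀ ∧ 1 ≤ C₄ ∧ ∀ e : ℝ, 0 ≤ e → e ≤ 1 / 2 → ∀ m : ℕ, 3 ≤ m →
      ∀ {p n : ℕ} (W : Cfg p n → ℝ≥0∞) (R X A a e' M : ℝ) (ρ σ τ : ℝ → ℝ)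
        (l : (Fin (gN h X) → ℝ) → ℝ) (w : Fin (gN h X) → ℝ), (∀ i, 0 ≤ w i) → ∑ i, w i ≤ W₀ → X = (1 - 2 * e) * (3 / 8 * Real.log m) →
        Measurable W → 0 ≤ R → R ≤ 2 * Real.log m ^ 2 → Continuous ρ → Continuous σ → 0 ≤ M →
        M ≤ C₂ * Real.log m ^ 6 →
        (∀ g, l (-g) = -l g) → 0 ≤ A → 0 ≤ e' → 1 / 2 ≤ a →
        ∫⁻ x, W x * ENNReal.ofReal (Real.exp (1 / 2 *
          ∑ i ∈ gLa h X, NU42.Fst c h (-(h * gM h X)) τ i x.1 x.2 ^ 2)) ≤ ENNReal.ofReal (A * (m : ℝ) ^ a) →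
        ∫⁻ x in (Bx R)ᶜ, W x ≤ ENNReal.ofReal A →
        SqW2 W R ρ σ (ENNReal.ofReal (A * (m : ℝ) ^ a * Real.exp C₃)) (1 / (8 * (C₁ * (R + 1)))) (1 + M) →
        (IsFiniteMeasure (mWin R W) → RigB2 (mWin R W) R ρ σ (C₄ * Real.log m ^ 8) →
          H1p c h η X R e' w l (ccτ c h X τ) W) →
        ∫⁻ x, W x ≤ ENNReal.ofReal ((C₀ * Real.exp e' + 1) * A * (m : ℝ) ^ (a - 1 / 2 + (ε + e))) := by
  obtain ⟨δ, K, η, c, hδ, hK, hη, hc1, hc2, hc3, hc4, hc5, hc6, hc7, hc8, hc9⟩ := core_lintp hε hε1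
  refine ⟨δ, K, η, c, hδ, hK, hη, hc1, hc2, hc3, hc4, hc5, hc6, hc7, hc8, fun h hh hKh C₁ C₂ C₃ W₀ h1 h2 h3 hW₀ => ?_⟩
  obtain ⟨C₀, hC0, hC⟩ := hc9 h hh hKh W₀ hW₀
  obtain ⟨C₄, hC4, hD⟩ := dicho_rig2 h1 h2 h3
  refine ⟨C₀, C₄, hC0, hC4, ?_⟩
  intro e he0 he1 m hm p n W R X A a e' M ρ σ τ l w hw hw2 hX hW hR hR2 hρ hσ hM hM2 hl hA he' ha hup htail hsq hH1
  subst hX
  have hP : Prof δ K c := ⟨hδ, hc1, hc3, hc4, hc5⟩
  have hF := fun i => Fi_meas (p := p) (n := n) hP h ((1 - 2 * e) * (3 / 8 * Real.log m))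
    (ccτ c h ((1 - 2 * e) * (3 / 8 * Real.log m)) τ) i
  have hB : MeasurableSet (Bx R : Set (Cfg p n)) := measurableSet_Bx R
  refine hC e he0 he1 m (by omega) _ rfl volume W (Bx R) _ A e' a w l hw hw2 hW hB hF hl hA he' ha ?_ htail ?_
  · refine le_trans (le_of_eq ?_) hup
    refine lintegral_congr fun x => ?_
    rw [sum_Fst]
    congr 3
    ring
  · have hmW : ∫⁻ x in Bx R, W x = mWin R W univ := by
      unfold mWin
      rw [withDensity_apply _ MeasurableSet.univ, Measure.restrict_univ]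
    rcases hD m hm R hR hR2 hW hρ hσ A a M hA hM hM2 hsq with h | ⟨h4, h5⟩
    · left
      rw [hmW]
      exact h
    · right
      exact hH1 h4 h5

/-- the weight of the penalty of the grid point `t` -/
def pw (C t : ℝ) : ℝ := C * (1 + t ^ 2)⁻¹

lemma pw_nonneg {C : ℝ} (hC : 0 ≤ C) (t : ℝ) : 0 ≤ pw C t := by
  unfold pw
  positivity

/-- the sum of the weights over a grid of step `h` -/
theorem pw_sum {h C : ℝ} (hh : 0 < h) (hC : 0 ≤ C) (a : ℝ) (N : ℕ) :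
    ∑ i : Fin N, pw C (a + (i : ℕ) * h) ≤ C * (2 * Real.pi * (1 + h ^ 2) / h) := by
  have hint : ∀ x y : ℝ, IntervalIntegrable (fun s : ℝ => (1 + s ^ 2)⁻¹) volume x y := fun x y =>
    (Continuous.inv₀ (by fun_prop) fun s => by positivity).intervalIntegrable _ _
  have h1 : ∀ i : ℕ, h * (1 + (a + i * h) ^ 2)⁻¹ ≤
      2 * (1 + h ^ 2) * ∫ s in (a + i * h)..(a + (i + 1 : ℕ) * h), (1 + s ^ 2)⁻¹ := by
    intro i
    obtain ⟨t, ht⟩ : ∃ t, t = a + i * h := ⟨_, rfl⟩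
    have e1 : a + ((i + 1 : ℕ) : ℝ) * h = t + h := by rw [ht]; push_cast; ring
    rw [e1, ← ht, ← intervalIntegral.integral_const_mul]
    have h2 : ∫ _s in t..(t + h), (1 + t ^ 2)⁻¹ = h * (1 + t ^ 2)⁻¹ := by
      rw [intervalIntegral.integral_const, smul_eq_mul]
      ring
    rw [← h2]
    refine intervalIntegral.integral_mono_on (by linarith) (by simp) ((hint _ _).const_mul _) fun s hs => ?_
    have h3 : 1 + s ^ 2 ≤ 2 * (1 + h ^ 2) * (1 + t ^ 2) := by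
      have h4 : (s - t) ^ 2 ≤ h ^ 2 := by
        have := hs.1
        have := hs.2
        nlinarith
      nlinarith [sq_nonneg (s - 2 * t), sq_nonneg (h * t), sq_nonneg h, sq_nonneg t]
    rw [inv_le_iff_one_le_mul₀ (by positivity), mul_assoc, mul_left_comm]
    rw [inv_mul_eq_div, one_le_div (by positivity)]
    linarith
  have h5 : ∑ i ∈ Finset.range N, h * (1 + (a + i * h) ^ 2)⁻¹ ≤ 2 * (1 + h ^ 2) * Real.pi := by
    refine (Finset.sum_le_sum fun i _ => h1 i).trans ?_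
    rw [← Finset.mul_sum]
    refine mul_le_mul_of_nonneg_left ?_ (by positivity)
    rw [intervalIntegral.sum_integral_adjacent_intervals (a := fun i : ℕ => a + (i : ℝ) * h)
      (fun k _ => hint _ _), integral_inv_one_add_sq]
    have h6 := Real.arctan_lt_pi_div_two (a + (N : ℝ) * h)
    have h7 := Real.neg_pi_div_two_lt_arctan a
    simp only [Nat.cast_zero, zero_mul, add_zero]
    linarith
  have h8 : ∑ i : Fin N, pw C (a + (i : ℕ) * h) = C / h * ∑ i ∈ Finset.range N, h * (1 + (a + i * h) ^ 2)⁻¹ := by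
    rw [Finset.mul_sum, Finset.sum_range]
    refine Finset.sum_congr rfl fun i _ => ?_
    unfold pw
    field_simp
  rw [h8]
  calc C / h * ∑ i ∈ Finset.range N, h * (1 + (a + i * h) ^ 2)⁻¹ ≤ C / h * (2 * (1 + h ^ 2) * Real.pi) :=
        mul_le_mul_of_nonneg_left h5 (by positivity)
    _ = _ := by ring

end

end PLT.FP
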