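import Pool.Agent.PLT.H1gNum
import Pool.Agent.PLT.FDCdef
import Pool.Agent.PLT.FinPen
import Pool.Agent.PLX.R2.Di

/-!
# (H1) over a sea on a static curve, with the field data inserted

Twin of `PLX/NUS4C/H1g`: curves, analytic potentials in the strip `lo < Im z < hi`, rigidity in; moments with a penalty out.

* `FDSt B lo hi`: the statement of the field data of all modes (`exists_FDC`);
* `H1FinSt B`: the statement of (H1) from the field data (`h1_finalC`);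
* `H1FullSt B lo hi`: the output; **`h1_full_of`**.
-/

set_option autoImplicit false
set_option linter.unusedSectionVars false

open MeasureTheory Set Filter Topology

namespace PLT

open NUMF (l l_pos)
open NUS4 (gN gM gp R1f Xf off)
open NUE NUOC NUKer NUR2 NUTr
open scoped ENNReal

noncomputable section

/-- **the field data of all modes** (statement) -/
def FDSt (B : SeaCB) (lo hi : ℝ) : Prop := ∀ {δ K : ℝ} {c : ℝ → ℝ}, Prof δ K c → ∀ h : ℝ, ∃ C cs : ℝ, 1 ≤ C ∧ 0 < cs ∧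
    ∀ [SeaC] [SeaCU B], ∀ {s : Bool → ℝ} {s0 ε M b A Ar : ℝ} {eX eY ηX ηX1 ηY ηY1 ErX ErY aX aY : ℝ → ℝ} {FX FY : ℂ → ℂ}
    (R R1 : ℝ), 0 ≤ R1 → R1 + 1 ≤ b → b + 3 ≤ R → 0 < s0 → (∀ d, s0 ≤ s d) →
    Cv.Cur (s true) ε M b eX ηX → Cv.Cur (s false) ε M b eY ηY →
    (∀ t, HasDerivAt ηX (ηX1 t) t) →
    (∀ t, HasDerivAt ηY (ηY1 t) t) → 0 ≤ A →
    (∀ z : ℂ, |z.re| ≤ b + 2 → lo < z.im → z.im < hi → DifferentiableAt ℂ FX z ∧ ‖FX z‖ ≤ A) →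
    (∀ z : ℂ, |z.re| ≤ b + 2 → lo < z.im → z.im < hi → DifferentiableAt ℂ FY z ∧ ‖FY z‖ ≤ A) →
    NUR2.Ext 4 b Ar ErX → NUR2.Ext 4 b Ar ErY → (∀ x, 0 ≤ aX x) → (∀ x, 0 ≤ aY x) →
    Measurable aX → Measurable aY →
    (∀ x, |x| ≤ b → aX x = Real.exp ((Cv.vb s true (Cv.zt (Cv.gD ηX) x)).re +
      (FX (Cv.zt (Cv.gD ηX) x)).re + ErX x)) →
    (∀ x, |x| ≤ b → aY x = Real.exp ((Cv.vb s false (Cv.zt (Cv.gD ηY) x)).re +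
      (FY (Cv.zt (Cv.gD ηY) x)).re + ErY x)) →
    ∃ EX EY : ℝ → ℝ, ∀ {N : ℕ} (a : ℝ) (x : Fin N → ℝ), Cv.sz s0 R1 x ≤ cs →
      C * R ^ 20 * (ε + Cv.sz s0 R1 x) ≤ 1 →
      FDC c h R R1 a s (C * (R ^ 24 * (M * (ε + Cv.sz s0 R1 x)) +
        R ^ 3 * ((A + (s true + s false) * Real.exp (-2 * R) + Ar) * Cv.sz s0 R1 x)))
        ηX ηX1 ηY ηY1 aX aY EX EY x

/-- **(H1) from the field data** (statement) -/
def H1FinSt (B : SeaCB) : Prop := ∀ {δ K : ℝ} {c : ℝ → ℝ}, Prof δ K c → ∀ {h : ℝ}, 0 < h → K * h < Real.pi →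
    ∀ (k : ℕ) {κ e η : ℝ}, 0 < κ → 0 < e → e ≤ 1 / 4 → 0 < η → ∃ (m0 : ℕ) (e' W0 : ℝ), 1 ≤ m0 ∧ 0 ≤ e' ∧ 0 ≤ W0 ∧
    ∀ [SeaC] [SeaCU B], ∀ m : ℕ, m0 ≤ m → ∀ {p n : ℕ} (R lam l1 S : ℝ) (s : Bool → ℝ)
    (ηX ηX1 ηY ηY1 aX aY EX EY : ℝ → ℝ),
    (∀ d, (m : ℝ) / 2 ≤ s d) → 3 / 8 * Real.log m ≤ R → R ≤ Real.log m ^ k →
    O 4 lam ηX → O 4 lam ηY → (∀ t, HasDerivAt ηX (ηX1 t) t) → (∀ t, HasDerivAt ηY (ηY1 t) t) →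
    lam ≤ (m : ℝ) ^ (-κ) → 0 ≤ l1 → l1 ≤ (m : ℝ) ^ (-κ) → 0 ≤ S → S ≤ Real.log m ^ k →
    Measurable aX → Measurable aY →
    (∀ x : Fin (gN h (Xf e m)) → ℝ, ∑ i, x i ^ 2 ≤ (2 * ((gN h (Xf e m) : ℕ) : ℝ) + 4) / η →
      FDC c h R (R1f e m) (off h (Xf e m)) s l1 ηX ηX1 ηY ηY1 aX aY EX EY x) →
    IsFiniteMeasure (mGC (p := p) (n := n) R ηX ηX1 ηY ηY1 aX aY) →
    Rig2 (mGC (p := p) (n := n) R ηX ηX1 ηY ηY1 aX aY) R (fun t => s true * Cv.P t)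
      (fun t => s false * Cv.P t) S →
    ∃ w : Fin (gN h (Xf e m)) → ℝ, (∀ i, 0 ≤ w i) ∧ ∑ i, w i ≤ W0 ∧
    ∀ cc : Fin (gN h (Xf e m)) → ℝ, ∃ l : (Fin (gN h (Xf e m)) → ℝ) → ℝ, (∀ g, l (-g) = - l g) ∧
      FP.H1p c h η (Xf e m) R e' w l cc (WtC (p := p) (n := n) ηX ηX1 ηY ηY1 aX aY)

/-- **(H1) over a sea on a static curve, full form** (statement): admissible curves, analytic potentials in the bulk, rigidity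
of the window measure; the lower bound of the exponential moments of the field, with a penalty of bounded total weight. -/
def H1FullSt (B : SeaCB) (lo hi : ℝ) : Prop := ∀ {δ K : ℝ} {c : ℝ → ℝ}, Prof δ K c → ∀ {h : ℝ}, 0 < h → K * h < Real.pi →
    ∀ (k : ℕ) {κ e η : ℝ}, 0 < κ → 0 < e → e ≤ 1 / 4 → 0 < η →
    ∃ (m0 : ℕ) (e' W0 : ℝ), 1 ≤ m0 ∧ 0 ≤ e' ∧ 0 ≤ W0 ∧ ∀ [SeaC] [SeaCU B],
    ∀ m : ℕ, m0 ≤ m → ∀ {p n : ℕ} (s : Bool → ℝ) (R ε M b A Ar S : ℝ)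
    (eX eY ηX ηX1 ηY ηY1 ErX ErY aX aY : ℝ → ℝ) (FX FY : ℂ → ℂ),
    (∀ d, (m : ℝ) / 2 ≤ s d) → (∀ d, s d ≤ (m : ℝ) ^ 2) → Real.log m ≤ R → R ≤ Real.log m ^ k →
    R1f e m + 1 ≤ b → b + 3 ≤ R →
    Cv.Cur (s true) ε M b eX ηX → Cv.Cur (s false) ε M b eY ηY →
    (∀ t, HasDerivAt ηX (ηX1 t) t) →
    (∀ t, HasDerivAt ηY (ηY1 t) t) → ε ≤ (m : ℝ) ^ (-κ) → M ≤ Real.log m ^ k → 0 ≤ A →
    A ≤ Real.log m ^ k → Ar ≤ Real.log m ^ k →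
    (∀ z : ℂ, |z.re| ≤ b + 2 → lo < z.im → z.im < hi → DifferentiableAt ℂ FX z ∧ ‖FX z‖ ≤ A) →
    (∀ z : ℂ, |z.re| ≤ b + 2 → lo < z.im → z.im < hi → DifferentiableAt ℂ FY z ∧ ‖FY z‖ ≤ A) →
    NUR2.Ext 4 b Ar ErX → NUR2.Ext 4 b Ar ErY → (∀ x, 0 ≤ aX x) → (∀ x, 0 ≤ aY x) →
    Measurable aX → Measurable aY →
    (∀ x, |x| ≤ b → aX x = Real.exp ((Cv.vb s true (Cv.zt (Cv.gD ηX) x)).re +
      (FX (Cv.zt (Cv.gD ηX) x)).re + ErX x)) →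
    (∀ x, |x| ≤ b → aY x = Real.exp ((Cv.vb s false (Cv.zt (Cv.gD ηY) x)).re +
      (FY (Cv.zt (Cv.gD ηY) x)).re + ErY x)) → 0 ≤ S → S ≤ Real.log m ^ k →
    IsFiniteMeasure (mGC (p := p) (n := n) R ηX ηX1 ηY ηY1 aX aY) →
    NUDi.RigB2 (mGC (p := p) (n := n) R ηX ηX1 ηY ηY1 aX aY) R (fun t => s true * Cv.P t)
      (fun t => s false * Cv.P t) S →
    ∃ w : Fin (gN h (Xf e m)) → ℝ, (∀ i, 0 ≤ w i) ∧ ∑ i, w i ≤ W0 ∧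
    ∀ cc : Fin (gN h (Xf e m)) → ℝ, ∃ l : (Fin (gN h (Xf e m)) → ℝ) → ℝ, (∀ g, l (-g) = - l g) ∧
      FP.H1p c h η (Xf e m) R e' w l cc (WtC (p := p) (n := n) ηX ηX1 ηY ηY1 aX aY)

/-- **(H1), full form**, from the field data and (H1) -/
theorem h1_full_of (B : SeaCB) {lo hi : ℝ} (hFD : FDSt B lo hi) (hFin : H1FinSt B) : H1FullSt B lo hi := by
  intro δ K c hP h hh hK k κ e η hκ he he1 hη
  obtain ⟨C, cs, hC, hcs, H⟩ := hFD hP h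
  obtain ⟨m1, hm1, HN⟩ := Cv.fd_num B k 24 (κ := κ) (e := e) (h := h) (η := η) hκ he he1 hh hη hC hcs
  have hκ1 : 0 < min κ e / 2 := half_pos (lt_min hκ he)
  obtain ⟨m2, e', W0, hm2, he', hW0, HF⟩ := hFin hP hh hK k hκ1 he he1 hη
  refine ⟨max m1 m2, e', W0, hm1.trans (le_max_left _ _), he', hW0, ?_⟩
  intro _ _ m hm p n s R ε M b A Ar S eX eY ηX ηX1 ηY ηY1 ErX ErY aX aY FX FY hs hs2 hRl hR hb hbR cX cY
    dX dY hε hM hA0 hA hAr hFX hFY hEX hEY aX0 aY0 aXm aYm haX haY hS0 hS hfin hrig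
  have hmm : 1 ≤ m := hm1.trans ((le_max_left _ _).trans hm)
  have hmr : (1:ℝ) ≤ m := by exact_mod_cast hmm
  have hs0 : 0 < (m : ℝ) / 2 := by linarith
  have hsd : ∀ d, 0 ≤ s d := fun d => hs0.le.trans (hs d)
  have hL0 := Real.log_nonneg hmr
  have hM0 : 0 ≤ M := cX.M0 B (hsd true)
  have hAr0 : 0 ≤ Ar := hEX.nonneg
  have hSS : 0 ≤ s true + s false := add_nonneg (hsd true) (hsd false)
  obtain ⟨hR1, r1, l1, hl0, hl, HX⟩ := HN m ((le_max_left _ _).trans hm) R ((m : ℝ) / 2) (s true + s false)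
    ε M A Ar le_rfl hSS
    (by linarith [hs2 true, hs2 false]) hRl hR cX.ε0 hε
    hM0 hM hA0 hA hAr0 hAr
  obtain ⟨EX, EY, HE⟩ := H R (R1f e m) r1 hb hbR hs0 hs cX cY dX dY hA0 hFX hFY hEX hEY aX0 aY0 aXm aYm
    haX haY
  have hεκ : ε ≤ (m : ℝ) ^ (-(min κ e / 2)) := by
    refine hε.trans (Real.rpow_le_rpow_of_exponent_le hmr ?_)
    have := min_le_left κ e
    linarith
  refine HF m ((le_max_right _ _).trans hm) R ε l1 S s ηX ηX1 ηY ηY1 aX aY EX EY hs (by linarith) hR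
    cX.O4 cY.O4 dX dY hεκ hl0 hl hS0 hS aXm aYm (fun x hx => ?_) hfin (rig_of_rigB2 hrig)
  obtain ⟨h0, h1, h2, h3⟩ := HX x hx
  have hε0 := cX.ε0
  have p3 : R ^ 3 ≤ R ^ 24 := pow_le_pow_right₀ hR1 (by norm_num)
  have p20 : R ^ 20 ≤ R ^ 24 := pow_le_pow_right₀ hR1 (by norm_num)
  have hR0 : 0 ≤ R := by linarith
  have hC0 : 0 ≤ C := by linarith
  have h2' : C * R ^ 20 * (ε + Cv.sz ((m : ℝ) / 2) (R1f e m) x) ≤ 1 := by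
    refine le_trans ?_ h2
    gcongr
  refine (HE _ x h1 h2').mono (le_trans ?_ h3)
  gcongr

end

end PLT
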