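import Pool.Agent.PLT.OBKdef
import Pool.Agent.PLT.H1gC

/-!
# The field data of the modes over a sea on a static curve

Twin of `PLX/NUS4C/FDb`: from the one body data `OBKSt` and the transports `Cv.geo` of `PLT/H1bC`.
-/

set_option autoImplicit false
set_option linter.unusedSectionVars false

open MeasureTheory Set Filter Topology

namespace PLT

open NUE NUOC NUKer NUR2 NUTr

noncomputable section

/-- **the field data of all modes** -/
theorem fdc_of (B : SeaCB) {lo hi : ℝ} (H : OBKSt B lo hi) : FDSt B lo hi := by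
  intro δ K c hP h
  obtain ⟨C2, cs, hC2, hcs, H2'⟩ := Cv.geo B hP h
  obtain ⟨K1, hK1, H1'⟩ := H
  refine ⟨2 * (K1 * C2), cs / C2, by nlinarith, by positivity, ?_⟩
  intro _ _ s s0 ε M b A Ar eX eY ηX ηX1 ηY ηY1 ErX ErY aX aY FX FY R R1 hR1 hb hbR hs hss hcX hcY hX hY hA
    hFX hFY hEX hEY aX0 aY0 aXm aYm haX haY
  have hR : 1 ≤ R := by linarith
  have hsd : ∀ d, 0 ≤ s d := fun d => hs.le.trans (hss d)
  have hS2 : 0 ≤ s true + s false := add_nonneg (hsd true) (hsd false)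
  obtain ⟨EX, EY, HE⟩ := H1' (R := R) hR hbR hsd hcX hcY hX hY hA hFX hFY hEX hEY aX0 aY0 aXm aYm
    haX haY
  refine ⟨EX, EY, fun {N} a x hsz hsm => ?_⟩
  have hP0 := Cv.P_pos B (R1 + 1)
  have hsP : 0 < s0 * Cv.P (R1 + 1) := mul_pos hs hP0
  obtain ⟨z, hz⟩ : ∃ z, z = Cv.sz s0 R1 x := ⟨_, rfl⟩
  have hzA : z = (∑ j, |x j|) / (s0 * Cv.P (R1 + 1)) := hz
  have hx0 : 0 ≤ ∑ j, |x j| := Finset.sum_nonneg fun j _ => abs_nonneg _
  have hz0 : 0 ≤ z := by rw [hzA]; positivity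
  have hC2p : 0 < C2 := by linarith
  have hK1p : 0 < K1 := by linarith
  have hε := hcX.ε0
  have hM := hcX.M0 B (hsd true)
  rw [← hz] at hsz hsm ⊢
  have g0 : C2 * ∑ j, |x j| ≤ cs * (s0 * Cv.P (R1 + 1)) := by
    rw [hzA, div_le_div_iff₀ hsP hC2p] at hsz
    linarith
  obtain ⟨tr, bF', oX, oY, dX, dY, zX, zY, aX', aY'⟩ := H2' R R1 a s0 s x hs hss hR1 (by linarith) g0
  rw [← hzA] at oX oY
  have hR20 : (1:ℝ) ≤ R ^ 20 := one_le_pow₀ hR
  have e0 : 1 ≤ K1 * C2 := one_le_mul_of_one_le_of_one_le hK1 hC2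
  -- the size of the displacements
  have e1 : C2 * z ≤ 1 / 2 := by
    have h1 : 2 * (C2 * z) ≤ 2 * (K1 * C2) * R ^ 20 * (ε + z) := by
      calc 2 * (C2 * z) = 2 * (1 * C2) * 1 * (0 + z) := by ring
        _ ≤ 2 * (K1 * C2) * R ^ 20 * (ε + z) := by gcongr
    linarith
  have e2 : K1 * R ^ 20 * (ε + C2 * z) ≤ 1 := by
    calc K1 * R ^ 20 * (ε + C2 * z) ≤ K1 * R ^ 20 * (C2 * ε + C2 * z) := by
          gcongr
          nlinarith
      _ = K1 * C2 * R ^ 20 * (ε + z) := by ring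
      _ ≤ 2 * (K1 * C2) * R ^ 20 * (ε + z) := by
          have : 0 ≤ K1 * C2 * R ^ 20 * (ε + z) := by positivity
          linarith
      _ ≤ 1 := hsm
  have XX : NUAct.Xi (C2 * z) b (fun t => Cv.pX c h R1 a (s true) x t - t)
      (fun t => Cv.pX' c h R1 a (s true) x t - 1) :=
    ⟨oX, dX, e1, by linarith, fun t ht => zX t (by linarith)⟩
  have XY : NUAct.Xi (C2 * z) b (fun t => Cv.pY c h R1 a (s false) x t - t)
      (fun t => Cv.pY' c h R1 a (s false) x t - 1) :=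
    ⟨oY, dY, e1, by linarith, fun t ht => zY t (by linarith)⟩
  obtain ⟨q1, q2⟩ := HE (C2 * z) (Cv.pX c h R1 a (s true) x) (Cv.pX' c h R1 a (s true) x)
    (Cv.pY c h R1 a (s false) x) (Cv.pY' c h R1 a (s false) x) e2 XX XY
  have hAr : 0 ≤ Ar := hEX.nonneg
  have hl : K1 * (R ^ 24 * (M * (ε + C2 * z)) + R ^ 3 * ((A + (s true + s false) * Real.exp (-2 * R) + Ar) * (C2 * z))) ≤
      2 * (K1 * C2) * (R ^ 24 * (M * (ε + z)) + R ^ 3 * ((A + (s true + s false) * Real.exp (-2 * R) + Ar) * z)) := by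
    have h1 : ε + C2 * z ≤ C2 * (ε + z) := by nlinarith
    calc K1 * (R ^ 24 * (M * (ε + C2 * z)) + R ^ 3 * ((A + (s true + s false) * Real.exp (-2 * R) + Ar) * (C2 * z)))
        ≤ K1 * (R ^ 24 * (M * (C2 * (ε + z))) +
          R ^ 3 * ((A + (s true + s false) * Real.exp (-2 * R) + Ar) * (C2 * z))) := by gcongr
      _ = K1 * C2 * (R ^ 24 * (M * (ε + z)) + R ^ 3 * ((A + (s true + s false) * Real.exp (-2 * R) + Ar) * z)) := by
          ring
      _ ≤ _ := by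
          have : 0 ≤ K1 * C2 * (R ^ 24 * (M * (ε + z)) +
            R ^ 3 * ((A + (s true + s false) * Real.exp (-2 * R) + Ar) * z)) := by positivity
          linarith
  exact ⟨ob_mono' q1 hl, ob_mono' q2 hl⟩

end

end PLT
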