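import Pool.Agent.PLT.FDCdef

/-!
# The one body data over a sea on a static curve (statement)

**`OBKSt B lo hi`**: twin of `PLX/NUSea/FieldT` `exists_OBK`, total displacements `Cv.Dt`, `Cv.Dt1`; the statement of
`PLT/FieldTC` `exists_OBKC`.
-/

set_option autoImplicit false
set_option linter.unusedSectionVars false

open MeasureTheory Set Filter Topology

namespace PLT

open NUKer NUR2

noncomputable section

/-- **the one body data, literal form** (statement): the potentials `EX`, `EY` do not depend on the transports -/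
def OBKSt (B : SeaCB) (lo hi : ℝ) : Prop :=
  ∃ K : ℝ, 1 ≤ K ∧ ∀ [SeaC] [SeaCU B], ∀ {s : Bool → ℝ} {ε M b A Ar : ℝ}
    {eX eY ηX ηX1 ηY ηY1 ErX ErY aX aY : ℝ → ℝ} {FX FY : ℂ → ℂ} (R : ℝ), 1 ≤ R → b + 3 ≤ R → (∀ a, 0 ≤ s a) →
    Cv.Cur (s true) ε M b eX ηX → Cv.Cur (s false) ε M b eY ηY → (∀ t, HasDerivAt ηX (ηX1 t) t) →
    (∀ t, HasDerivAt ηY (ηY1 t) t) → 0 ≤ A →
    (∀ z : ℂ, |z.re| ≤ b + 2 → lo < z.im → z.im < hi → DifferentiableAt ℂ FX z ∧ ‖FX z‖ ≤ A) →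
    (∀ z : ℂ, |z.re| ≤ b + 2 → lo < z.im → z.im < hi → DifferentiableAt ℂ FY z ∧ ‖FY z‖ ≤ A) →
    NUR2.Ext 4 b Ar ErX → NUR2.Ext 4 b Ar ErY → (∀ x, 0 ≤ aX x) → (∀ x, 0 ≤ aY x) → Measurable aX → Measurable aY →
    (∀ x, |x| ≤ b → aX x = Real.exp ((Cv.vb s true (Cv.zt (Cv.gD ηX) x)).re +
      (FX (Cv.zt (Cv.gD ηX) x)).re + ErX x)) →
    (∀ x, |x| ≤ b → aY x = Real.exp ((Cv.vb s false (Cv.zt (Cv.gD ηY) x)).re +
      (FY (Cv.zt (Cv.gD ηY) x)).re + ErY x)) →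
    ∃ EX EY : ℝ → ℝ, ∀ (lam : ℝ) (ψX ψX' ψY ψY' : ℝ → ℝ), K * R ^ 20 * (ε + lam) ≤ 1 →
      NUAct.Xi lam b (fun t => ψX t - t) (fun t => ψX' t - 1) →
      NUAct.Xi lam b (fun t => ψY t - t) (fun t => ψY' t - 1) →
      OB R (K * (R ^ 24 * (M * (ε + lam)) + R ^ 3 * ((A + (s true + s false) * Real.exp (-2 * R) + Ar) * lam)))
        ψX ψX' (fun t => ‖1 + Cv.Dt1 ηX ηX1 t‖ * aX t) EX
        (IX2 R (fun t => s true * Cv.P t) (fun t => s false * Cv.P t) Uw Ug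
          (kw (Cv.Dt ηX) (Cv.Dt1 ηX ηX1)) (kg (Cv.Dt ηX) (Cv.Dt ηY)))
        (kw (Cv.Dt ηX) (Cv.Dt1 ηX ηX1)) (kTC ηX ηX1 ψX ψX') ∧
      OB R (K * (R ^ 24 * (M * (ε + lam)) + R ^ 3 * ((A + (s true + s false) * Real.exp (-2 * R) + Ar) * lam)))
        ψY ψY' (fun t => ‖1 + Cv.Dt1 ηY ηY1 t‖ * aY t) EY
        (IY2 R (fun t => s true * Cv.P t) (fun t => s false * Cv.P t) Uw Ug
          (kw (Cv.Dt ηY) (Cv.Dt1 ηY ηY1)) (kg (Cv.Dt ηX) (Cv.Dt ηY)))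
        (kw (Cv.Dt ηY) (Cv.Dt1 ηY ηY1)) (kTC ηY ηY1 ψY ψY')

end

end PLT
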