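import Pool.Agent.PLT.GAct
import Pool.Agent.PLT.OBKdef
import Pool.Agent.NUR2.Prep

/-!
# The field of the reference density on the window, static curve

`Iref R s η η1 a`: the field of the reference densities on `[-R, R]` in the literal form of `PLT/OBKdef` (`IX2`, `IY2`);
**`exists_Iref`**: it is the real part of the complex field of the gas on the displaced curves.
Twin of `PLX/NUSea/FieldT` `exists_Iref`.
-/

set_option autoImplicit false
set_option linter.unusedSectionVars false
set_option linter.unusedVariables false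

open MeasureTheory Set Filter Topology Complex

namespace PLT.Cv

open NUMF (l l_pos w g V)
open NUKer NUR2 NU42
open NUAct (Us Ux Up Gas)

noncomputable section

/-- field of the reference density on the window -/
def Iref [SeaC] (R : ℝ) (s : Bool → ℝ) (η η1 : Bool → ℝ → ℝ) (a : Bool) : ℝ → ℝ :=
  if a then IX2 R (fun t => s true * P t) (fun t => s false * P t) Uw Ug
    (kw (Dt (η true)) (Dt1 (η true) (η1 true))) (kg (Dt (η true)) (Dt (η false)))
  else IY2 R (fun t => s true * P t) (fun t => s false * P t) Uw Ug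
    (kw (Dt (η false)) (Dt1 (η false) (η1 false))) (kg (Dt (η true)) (Dt (η false)))

/-- **the field of the reference density is the real part of the complex one** -/
theorem exists_Iref (B : SeaCB) : ∃ K : ℝ, 1 ≤ K ∧ ∀ [SeaC] [SeaCU B], ∀ {s : Bool → ℝ} {ε M b lo hi C : ℝ}
    {e η η1 : Bool → ℝ → ℝ} {F : Bool → ℂ → ℂ} (R : ℝ), Str B lo hi → 0 ≤ R → (∀ a, 0 ≤ s a) → K * ε ≤ 1 →
    (∀ a, SPath lo hi (1 / 2) C (zt (gD (η a))) (zd (gD1 (η a) (η1 a)))) →
    (∀ a, Cur (s a) ε M b (e a) (η a)) → (∀ a t, HasDerivAt (η a) (η1 a t) t) → ∀ (a : Bool) (x : ℝ), |x| ≤ R →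
    Iref R s η η1 a x =
      (∑ d, ∫ y in Icc (-R) R, (gas s η η1 F).K a d x y * ((s d * P y : ℝ) : ℂ)).re := by
  obtain ⟨K1, hK1, H1⟩ := exists_Dt B
  refine ⟨K1, hK1, @fun _ _ s ε M b lo hi C e η η1 F R S hR hs s1 P' hc hη a x hx => ?_⟩
  have c1 := fun a => (H1 (hs a) s1 (hc a) (hη a)).1
  have c2 := fun a => (H1 (hs a) s1 (hc a) (hη a)).2.1
  have c3 := fun a => (H1 (hs a) s1 (hc a) (hη a)).2.2
  have hsm : Small (Dt (η true)) (Dt1 (η true) (η1 true)) (Dt (η false)) (Dt1 (η false) (η1 false)) :=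
    small_of (hasDerivAt_Dt (hη true)) (c1 true) (c2 true) (hasDerivAt_Dt (hη false)) (c1 false) (c2 false)
      (Dt_osc (c3 true) (c3 true)) (Dt_osc (c3 false) (c3 false)) (Dt_osc (c3 true) (c3 false))
  have hsa : ∀ a, Sm R (Dt (η a)) (Dt1 (η a) (η1 a)) := by
    intro a
    cases a
    · exact hsm.sY R
    · exact hsm.sX R
  have own : ∀ (a : Bool) (x y : ℝ), |x| ≤ R → |y| ≤ R → x ≠ y →
      (Up Us (zt (gD (η a))) x y).re = Uw (x - y) - kw (Dt (η a)) (Dt1 (η a) (η1 a)) x y := by
    intro a x y hx hy hne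
    have h1 := Up_eq (hsa a) hx hy hne (im_lt (Dt_osc (c3 a) (c3 a) x y))
    rw [zt_fun] at h1
    rw [h1, Complex.sub_re, NUKer.Lw_re, NUAct.ks, Complex.ofReal_re]
    rfl
  have crs : ∀ (x y : ℝ), |x| ≤ R → |y| ≤ R →
      (Ux (zt (gD (η true)) x - zt (gD (η false)) y)).re = Ug (x - y) - kg (Dt (η true)) (Dt (η false)) x y := by
    intro x y hx hy
    have h1 := Ux_path (hsm.sXY R) hx hy (im_lt (Dt_osc (c3 true) (c3 false) x y))
    rw [← zt_Dt, ← zt_Dt] at h1
    rw [h1, Complex.sub_re, NUKer.Lg_re, NUAct.kx, Complex.ofReal_re]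
    rfl
  have hi : ∀ d, IntegrableOn (fun y => (gas s η η1 F).K a d x y * ((s d * P y : ℝ) : ℂ)) (Icc (-R) R) :=
    fun d => (two_i1 (Fe := F) B s S P' a d x).integrableOn
  rw [Complex.re_sum]
  have hre : ∀ d, (∫ y in Icc (-R) R, (gas s η η1 F).K a d x y * ((s d * P y : ℝ) : ℂ)).re =
      ∫ y in Icc (-R) R, ((gas s η η1 F).K a d x y).re * (s d * P y) := by
    intro d
    have h1 : (∫ y in Icc (-R) R, (gas s η η1 F).K a d x y * ((s d * P y : ℝ) : ℂ)).re =
        ∫ y in Icc (-R) R, ((gas s η η1 F).K a d x y * ((s d * P y : ℝ) : ℂ)).re :=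
      (integral_re (hi d)).symm
    rw [h1]
    refine integral_congr_ae (Eventually.of_forall fun y => ?_)
    beta_reduce
    rw [mul_comm ((gas s η η1 F).K a d x y) _, Complex.re_ofReal_mul, mul_comm]
  simp only [hre, Fintype.sum_bool]
  have hne : ∀ᵐ y ∂(mW R), y ≠ x := by
    refine ae_restrict_of_ae ?_
    simp [ae_iff, measure_singleton]
  have hown : ∀ a, ∫ y, (Uw (x - y) - kw (Dt (η a)) (Dt1 (η a) (η1 a)) x y) * (s a * P y) ∂(mW R) =
      ∫ y in Icc (-R) R, ((gas s η η1 F).K a a x y).re * (s a * P y) := by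
    intro a
    refine integral_congr_ae ?_
    filter_upwards [hne, mem_mW (R := R)] with y hy hyR
    have e1 : (gas s η η1 F).K a a x y = Up Us (zt (gD (η a))) x y := by
      unfold gas
      rw [two_K, if_pos rfl]
    rw [e1, own a x y hx hyR (Ne.symm hy)]
  unfold Iref
  cases a
  · simp only [Bool.false_eq_true, if_false]
    unfold IY2
    rw [hown false, add_comm]
    congr 1
    refine integral_congr_ae ?_
    filter_upwards [mem_mW (R := R)] with y hyR
    have e1 : (gas s η η1 F).K false true x y = Ux (zt (gD (η true)) y - zt (gD (η false)) x) := by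
      unfold gas
      rw [two_K, if_neg (by decide), ← NUAct.Ux_neg, neg_sub]
    rw [e1, crs y x hyR hx]
  · simp only [if_true]
    unfold IX2
    rw [hown true]
    congr 1
    refine integral_congr_ae ?_
    filter_upwards [mem_mW (R := R)] with y hyR
    have e1 : (gas s η η1 F).K true false x y = Ux (zt (gD (η true)) x - zt (gD (η false)) y) := by
      unfold gas
      rw [two_K, if_neg (by decide)]
    rw [e1, crs x y hx hyR]

end

end PLT.Cv
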