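import Pool.Agent.PLT.GAct
import Pool.Agent.NUR2.DispK

/-!
# The displacements of the configuration on a bent curve (helper78)

**`exists_dispC`**: `gD η` is of the class `Disp R (K b)`, `cD ξ (Dt η) - i eta` of the class `Disp R (K (a + b))`, for `η` in `O 4 b`,
`ξ` in `O 4 a`, `a ≤ 1`; `K` depends on the numbers of the sea only.
-/

set_option autoImplicit false
set_option linter.unusedSectionVars false

open Complex Set Filter MeasureTheory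

namespace PLT

open NUKer NUOC NUR2 NU42

noncomputable section

/-- the slope of the curve with its derivatives -/
theorem eta'_O (B : SeaCB) (j : ℕ) : ∃ C : ℝ, 1 ≤ C ∧ ∀ [SeaC] [SeaCU B], O j C (deriv Cv.eta) := by
  obtain ⟨C, hC, H⟩ := Cv.eta'_OC B j
  refine ⟨1 + C, by linarith, @fun _ hS => ?_⟩
  have h1 := (@H _ hS).re (a := 1 + C) fun t => by
    have := Cv.exp32_le t
    nlinarith
  exact h1.congr fun t => by simp

lemma disp_mono {R lam lam' : ℝ} {D D1 : ℝ → ℂ} (h : Disp R lam D D1) (hl : lam ≤ lam') : Disp R lam' D D1 := by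
  obtain ⟨D2, D3, D4, h1, h2, h3, h4, h5, a0, a1, a2, a3, a4⟩ := h
  exact ⟨D2, D3, D4, h1, h2, h3, h4, h5, fun x hx => (a0 x hx).trans hl, fun x hx => (a1 x hx).trans hl, fun x hx => (a2 x hx).trans hl,
    fun x hx => (a3 x hx).trans hl, fun x hx => (a4 x hx).trans hl⟩

open Cv (Dt Dt1 gD gD1)

/-- **the displacements against the static curve** -/
theorem exists_dispC (B : SeaCB) : ∃ K : ℝ, 1 ≤ K ∧ ∀ [SeaC] [SeaCU B], ∀ {a b : ℝ} {ξ ξ1 η η1 : ℝ → ℝ}, O 4 a ξ → a ≤ 1 →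
    O 4 b η → (∀ x, HasDerivAt ξ (ξ1 x) x) → (∀ x, HasDerivAt η (η1 x) x) → ∀ R : ℝ,
    Disp R (K * b) (gD η) (gD1 η η1) ∧
    Disp R (K * (a + b)) (fun t => cD ξ (Dt η) t - iD Cv.eta t) (fun t => cD1 ξ ξ1 (Dt1 η η1) t - iD (deriv Cv.eta) t) := by
  obtain ⟨C, hC, H⟩ := eta'_O B 4
  obtain ⟨C1, hC1, H1⟩ := O.comp 4
  obtain ⟨C2, hC2, H2⟩ := O.delta 4
  have p1 : 1 ≤ C * C1 := by nlinarith
  have p2 : 1 ≤ C2 * C := by nlinarith
  refine ⟨16 * (C * C1) + C1 + C2 * C + 16 * C + 1, by nlinarith, @fun _ hS a b ξ ξ1 η η1 hξ ha hη hξ1 hη1 R => ?_⟩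
  have he := @H _ hS
  have hb := hη.nonneg
  have ha0 := hξ.nonneg
  have d1 : ∀ x, HasDerivAt (deriv Cv.eta) (iteratedDeriv 2 Cv.eta x) x := fun t => by
    have h2 := (Cv.eta_smooth'.differentiable (by simp) t).hasDerivAt
    rwa [iteratedDeriv_succ, iteratedDeriv_one]
  -- the real part of `gD η`
  have u0 : O 4 (16 * (b * C)) (fun t => -(η t * deriv Cv.eta t)) := (hη.mul he).neg.mono (by norm_num)
  have u1 : ∀ x, HasDerivAt (fun t => -(η t * deriv Cv.eta t)) (-(η1 x * deriv Cv.eta x + η x * iteratedDeriv 2 Cv.eta x)) x :=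
    fun x => ((hη1 x).mul (d1 x)).neg
  have hbC : 0 ≤ b * C := by positivity
  refine ⟨?_, ?_⟩
  · have h := disp_of_O u0 hη u1 hη1 R
    have e1 : (fun t => ((-(η t * deriv Cv.eta t) : ℝ) : ℂ) + (η t : ℂ) * I) = gD η := by
      funext t
      unfold gD iD Cv.ga'
      push_cast
      linear_combination (-(η t : ℂ) * ((deriv Cv.eta t : ℝ) : ℂ)) * Complex.I_sq
    have e2 : (fun t => ((-(η1 t * deriv Cv.eta t + η t * iteratedDeriv 2 Cv.eta t) : ℝ) : ℂ) + (η1 t : ℂ) * I) = gD1 η η1 := by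
      funext t
      unfold gD1 iD Cv.ga' Cv.ga2
      push_cast
      linear_combination (-(η1 t : ℂ) * ((deriv Cv.eta t : ℝ) : ℂ) - (η t : ℂ) * ((iteratedDeriv 2 Cv.eta t : ℝ) : ℂ)) * Complex.I_sq
    rw [e1, e2] at h
    refine disp_mono h ?_
    nlinarith [mul_nonneg hb (by linarith : (0:ℝ) ≤ C * C1), mul_nonneg hb (by linarith : (0:ℝ) ≤ C1),
      mul_nonneg hb (by linarith : (0:ℝ) ≤ C2 * C)]
  · have hcomp : ∀ {f f1 : ℝ → ℝ}, (∀ x, HasDerivAt f (f1 x) x) → ∀ x, HasDerivAt (fun t => f (t + ξ t)) (f1 (x + ξ x) * (1 + ξ1 x)) x :=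
      fun h x => (h (x + ξ x)).comp x ((hasDerivAt_id x).add (hξ1 x))
    have w0 := hξ.add (H1 u0 (hξ.mono ha))
    have w1 : ∀ x, HasDerivAt (fun t => ξ t + -(η (t + ξ t) * deriv Cv.eta (t + ξ t)))
        (ξ1 x + -(η1 (x + ξ x) * deriv Cv.eta (x + ξ x) + η (x + ξ x) * iteratedDeriv 2 Cv.eta (x + ξ x)) * (1 + ξ1 x)) x :=
      fun x => (hξ1 x).add (hcomp u1 x)
    have v0 := (H2 Cv.hasDerivAt_eta he hξ ha).add (H1 hη (hξ.mono ha))
    have v1 : ∀ x, HasDerivAt (fun t => Cv.eta (t + ξ t) - Cv.eta t + η (t + ξ t))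
        (deriv Cv.eta (x + ξ x) * (1 + ξ1 x) - deriv Cv.eta x + η1 (x + ξ x) * (1 + ξ1 x)) x :=
      fun x => ((hcomp Cv.hasDerivAt_eta x).sub (Cv.hasDerivAt_eta x)).add (hcomp hη1 x)
    have h := disp_of_O w0 v0 w1 v1 R
    have e1 : (fun t => ((ξ t + -(η (t + ξ t) * deriv Cv.eta (t + ξ t)) : ℝ) : ℂ) +
        ((Cv.eta (t + ξ t) - Cv.eta t + η (t + ξ t) : ℝ) : ℂ) * I) = fun t => cD ξ (Dt η) t - iD Cv.eta t := by
      funext t
      unfold cD Dt gD iD Cv.ga'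
      push_cast
      linear_combination (-(η (t + ξ t) : ℂ) * ((deriv Cv.eta (t + ξ t) : ℝ) : ℂ)) * Complex.I_sq
    have e2 : (fun t => ((ξ1 t + -(η1 (t + ξ t) * deriv Cv.eta (t + ξ t) + η (t + ξ t) * iteratedDeriv 2 Cv.eta (t + ξ t)) *
        (1 + ξ1 t) : ℝ) : ℂ) + ((deriv Cv.eta (t + ξ t) * (1 + ξ1 t) - deriv Cv.eta t + η1 (t + ξ t) * (1 + ξ1 t) : ℝ) : ℂ) * I) =
        fun t => cD1 ξ ξ1 (Dt1 η η1) t - iD (deriv Cv.eta) t := by
      funext t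
      unfold cD1 Dt1 gD1 iD Cv.ga' Cv.ga2
      push_cast
      linear_combination ((-(η1 (t + ξ t) : ℂ) * ((deriv Cv.eta (t + ξ t) : ℝ) : ℂ) -
        (η (t + ξ t) : ℂ) * ((iteratedDeriv 2 Cv.eta (t + ξ t) : ℝ) : ℂ)) * (1 + (ξ1 t : ℂ))) * Complex.I_sq
    rw [e1, e2] at h
    refine disp_mono h ?_
    nlinarith [mul_nonneg hb (by linarith : (0:ℝ) ≤ C * C1), mul_nonneg hb (by linarith : (0:ℝ) ≤ C1),
      mul_nonneg hb (by linarith : (0:ℝ) ≤ C2 * C), mul_nonneg ha0 (by linarith : (0:ℝ) ≤ C * C1), mul_nonneg ha0 (by linarith : (0:ℝ) ≤ C1),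
      mul_nonneg ha0 (by linarith : (0:ℝ) ≤ C2 * C), mul_nonneg ha0 (by linarith : (0:ℝ) ≤ C), mul_nonneg hb (by linarith : (0:ℝ) ≤ C)]

end

end PLT
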