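import Pool.Agent.PLT.KerSt

/-!
# Kernels of a displaced bent curve against the ones of the bent curve (helper78)

`D` : the bent curve (not small), `δ` : a small displacement. `one_add_Y0`, `one_add_Yc` : exact factorizations;
**`exists_mw`, `exists_mg`** : `kw (D + δ) - kw D`, `kg (D + δ) (D + δ') - kg D D` are of the class `KC R (K Λ lam)`, if the static
functions are of the class `KC R Λ` (`StK`) and `δ`, `δ1`, `δ'` of the class `KC1 R lam`.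
-/

set_option autoImplicit false

open MeasureTheory Set Filter Topology Complex

namespace PLT

open NUKer

noncomputable section

variable {R Λ lam : ℝ} {D D1 δ δ1 δ' : ℝ → ℂ}

/-- the relative change of `sinh` -/
def Z0 (D D1 δ δ1 : ℝ → ℂ) (t t' : ℝ) : ℂ :=
  (Complex.cosh (δ t - δ t') - 1) + xcs D D1 t t' * qd δ1 t t' * shc (δ t - δ t')

/-- the relative change of `cosh 2z - c` -/
def Zc (c : ℝ) (D δ δ' : ℝ → ℂ) (t t' : ℝ) : ℂ :=
  (Complex.cosh (2 * (δ t - δ' t')) - 1) * CCs c D t t' + Complex.sinh (2 * (δ t - δ' t')) * SSs c D t t'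

lemma shc_zero : shc 0 = 1 := by
  unfold shc
  rw [tsum_eq_single 0]
  · simp
  · intro n hn
    rw [zero_pow two_ne_zero, zero_pow hn, mul_zero]

/-- **factorization of `sinh`** -/
theorem one_add_Y0 (hD : ∀ x, HasDerivAt D (D1 x) x) (hc : Continuous D1) (hδ : ∀ x, HasDerivAt δ (δ1 x) x)
    (hc1 : Continuous δ1) {t t' : ℝ} (h0 : 1 + Y0 D D1 t t' ≠ 0) :
    1 + Y0 (fun x => D x + δ x) (fun x => D1 x + δ1 x) t t' = (1 + Y0 D D1 t t') * (1 + Z0 D D1 δ δ1 t t') := by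
  rcases eq_or_ne t t' with rfl | hne
  · rw [Y0_diag] at h0 ⊢
    unfold Z0 xcs
    rw [Y0_diag, qd_diag]
    simp only [sub_self, xcoth_zero, shc_zero, Complex.cosh_zero, Complex.sinh_zero, ofReal_one, ofReal_zero, mul_one, mul_zero,
      add_zero, zero_add, one_mul]
    field_simp
    ring
  · have hx : t - t' ≠ 0 := sub_ne_zero.2 hne
    have hs : ((Real.sinh (t - t') : ℝ) : ℂ) ≠ 0 := by
      rw [Complex.ofReal_ne_zero, Ne, Real.sinh_eq_zero]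
      exact hx
    have e1 := sinh_mul (D := fun x => D x + δ x) (D1 := fun x => D1 x + δ1 x) (fun x => (hD x).add (hδ x)) (hc.add hc1) t t'
    have e2 := sinh_mul hD hc t t'
    have e3 : ((t : ℂ) + (D t + δ t)) - (t' + (D t' + δ t')) = ((t + D t) - (t' + D t')) + (δ t - δ t') := by ring
    have e4 : (((t : ℂ) + D t) - (t' + D t')) = ((t - t' : ℝ) : ℂ) + (D t - D t') := by
      push_cast; ring
    have h1 := sub_eq_qd hδ hc1 t t'
    have h2' : (xcoth (t - t') : ℂ) * (Real.sinh (t - t') : ℝ) =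
        ((t - t' : ℝ) : ℂ) * (Real.cosh (t - t') : ℝ) := by exact_mod_cast xcoth_mul_sinh (t - t')
    have h3 := mul_shc (δ t - δ t')
    -- the hyperbolic cosine of the bent curve
    have e5 : ((t - t' : ℝ) : ℂ) * Complex.cosh ((t + D t) - (t' + D t')) =
        ((Real.sinh (t - t') : ℝ) : ℂ) * ((xcoth (t - t') : ℂ) * Complex.cosh (D t - D t') +
          ((t - t' : ℝ) : ℂ) * Complex.sinh (D t - D t')) := by
      rw [e4, Complex.cosh_add, ← Complex.ofReal_cosh, ← Complex.ofReal_sinh]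
      calc ((t - t' : ℝ) : ℂ) * ((Real.cosh (t - t') : ℝ) * Complex.cosh (D t - D t') +
            (Real.sinh (t - t') : ℝ) * Complex.sinh (D t - D t')) =
          (((t - t' : ℝ) : ℂ) * (Real.cosh (t - t') : ℝ)) * Complex.cosh (D t - D t') +
            ((t - t' : ℝ) : ℂ) * (Real.sinh (t - t') : ℝ) * Complex.sinh (D t - D t') := by ring
        _ = _ := by rw [← h2']; ring
    have e6 : ((Real.sinh (t - t') : ℝ) : ℂ) * ((xcoth (t - t') : ℂ) * Complex.cosh (D t - D t') +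
          ((t - t' : ℝ) : ℂ) * Complex.sinh (D t - D t')) =
        ((Real.sinh (t - t') : ℝ) : ℂ) * ((1 + Y0 D D1 t t') * xcs D D1 t t') := by
      unfold xcs
      congr 1
      field_simp
    have e7 : Complex.cosh ((t + D t) - (t' + D t')) * Complex.sinh (δ t - δ t') =
        ((Real.sinh (t - t') : ℝ) : ℂ) * ((1 + Y0 D D1 t t') * (xcs D D1 t t' * qd δ1 t t' * shc (δ t - δ t'))) := by
      calc Complex.cosh ((t + D t) - (t' + D t')) * Complex.sinh (δ t - δ t') =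
          Complex.cosh ((t + D t) - (t' + D t')) * ((((t - t' : ℝ) : ℂ) * qd δ1 t t') * shc (δ t - δ t')) := by
            rw [← h1, h3]
        _ = (((t - t' : ℝ) : ℂ) * Complex.cosh ((t + D t) - (t' + D t'))) * (qd δ1 t t' * shc (δ t - δ t')) := by ring
        _ = _ := by rw [e5, e6]; ring
    rw [e3, Complex.sinh_add, e7, e2] at e1
    have e8 : ((Real.sinh (t - t') : ℝ) : ℂ) * (1 + Y0 (fun x => D x + δ x) (fun x => D1 x + δ1 x) t t') =
        ((Real.sinh (t - t') : ℝ) : ℂ) * ((1 + Y0 D D1 t t') * (1 + Z0 D D1 δ δ1 t t')) := by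
      rw [← e1]
      unfold Z0
      ring
    exact mul_left_cancel₀ hs e8

/-- **factorization of `cosh 2z - c`** -/
theorem one_add_Yc {c : ℝ} (hc : c < 1) {t t' : ℝ} (h0 : 1 + Yc c D D t t' ≠ 0) :
    1 + Yc c (fun x => D x + δ x) (fun x => D x + δ' x) t t' = (1 + Yc c D D t t') * (1 + Zc c D δ δ' t t') := by
  have hr : (Real.cosh (2 * (t - t')) - c : ℝ) ≠ 0 := by
    have := den_ge (c := c) (t - t')
    linarith
  have hr' : ((Real.cosh (2 * (t - t')) - c : ℝ) : ℂ) ≠ 0 := by exact_mod_cast hr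
  have e1 := den_mul hc (fun x => D x + δ x) (fun x => D x + δ' x) t t'
  have e2 := den_mul hc D D t t'
  have e3 : 2 * (((t : ℂ) + (D t + δ t)) - (t' + (D t' + δ' t'))) =
      2 * ((t + D t) - (t' + D t')) + 2 * (δ t - δ' t') := by ring
  have e4 : 2 * (((t : ℂ) + D t) - (t' + D t')) = ((2 * (t - t') : ℝ) : ℂ) + 2 * (D t - D t') := by
    push_cast; ring
  have hC : ((Real.cosh (2 * (t - t')) - c : ℝ) : ℂ) * (fC c (t - t') : ℂ) = (Real.cosh (2 * (t - t')) : ℝ) := by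
    rw [← ofReal_mul]
    congr 1
    unfold fC fE
    field_simp
  have hS : ((Real.cosh (2 * (t - t')) - c : ℝ) : ℂ) * (fS c (t - t') : ℂ) = (Real.sinh (2 * (t - t')) : ℝ) := by
    rw [← ofReal_mul]
    congr 1
    unfold fS fE
    field_simp
  have e5 : Complex.cosh (2 * ((t + D t) - (t' + D t'))) =
      ((Real.cosh (2 * (t - t')) - c : ℝ) : ℂ) * ((1 + Yc c D D t t') * CCs c D t t') := by
    have : (1 + Yc c D D t t') * CCs c D t t' =
        (fC c (t - t') : ℂ) * Complex.cosh (2 * (D t - D t')) + (fS c (t - t') : ℂ) * Complex.sinh (2 * (D t - D t')) := by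
      unfold CCs
      field_simp
    rw [this, e4, Complex.cosh_add, ← Complex.ofReal_cosh, ← Complex.ofReal_sinh, ← hC, ← hS]
    ring
  have e6 : Complex.sinh (2 * ((t + D t) - (t' + D t'))) =
      ((Real.cosh (2 * (t - t')) - c : ℝ) : ℂ) * ((1 + Yc c D D t t') * SSs c D t t') := by
    have : (1 + Yc c D D t t') * SSs c D t t' =
        (fS c (t - t') : ℂ) * Complex.cosh (2 * (D t - D t')) + (fC c (t - t') : ℂ) * Complex.sinh (2 * (D t - D t')) := by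
      unfold SSs
      field_simp
    rw [this, e4, Complex.sinh_add, ← Complex.ofReal_cosh, ← Complex.ofReal_sinh, ← hC, ← hS]
    ring
  rw [e3, Complex.cosh_add] at e1
  refine mul_left_cancel₀ hr' ?_
  rw [← e1]
  have e7 : Complex.cosh (2 * ((t + D t) - (t' + D t'))) - c =
      ((Real.cosh (2 * (t - t')) - c : ℝ) : ℂ) * (1 + Yc c D D t t') := e2
  unfold Zc
  calc Complex.cosh (2 * ((t + D t) - (t' + D t'))) * Complex.cosh (2 * (δ t - δ' t')) +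
        Complex.sinh (2 * ((t + D t) - (t' + D t'))) * Complex.sinh (2 * (δ t - δ' t')) - c =
      (Complex.cosh (2 * ((t + D t) - (t' + D t'))) - c) +
        (Complex.cosh (2 * (δ t - δ' t')) - 1) * Complex.cosh (2 * ((t + D t) - (t' + D t'))) +
        Complex.sinh (2 * (δ t - δ' t')) * Complex.sinh (2 * ((t + D t) - (t' + D t'))) := by ring
    _ = _ := by rw [e7, e5, e6]; ring

/-! ### the classes -/

lemma abs_log_im_lt {Y : ℂ} (h : ‖Y‖ ≤ 1 / 2) : |(Complex.log (1 + Y)).im| < Real.pi / 2 := by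
  rw [Complex.log_im]
  exact abs_arg_lt (re_one_add h)

/-- logarithm of a product near `1` -/
lemma log_fac {A Y Z : ℂ} (hA : ‖A‖ ≤ 1 / 2) (hY : ‖Y‖ ≤ 1 / 2) (hZ : ‖Z‖ ≤ 1 / 2) (h : 1 + A = (1 + Y) * (1 + Z)) :
    Complex.log (1 + A) - Complex.log (1 + Y) = Complex.log (1 + Z) := by
  have a1 := abs_lt.1 (abs_log_im_lt hA)
  have a2 := abs_lt.1 (abs_log_im_lt hY)
  have a3 := abs_log_im_lt hZ
  have hpi := Real.pi_pos
  refine log_unique ?_ ?_ (a3.trans (by linarith))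
  · rw [Complex.exp_sub, Complex.exp_log (one_add_ne hA), Complex.exp_log (one_add_ne hY), Complex.exp_log (one_add_ne hZ), h]
    field_simp [one_add_ne hY]
  · rw [Complex.sub_im, abs_lt]
    constructor <;> linarith

lemma fac_small {A Y Z : ℂ} {z : ℝ} (hY : ‖Y‖ ≤ 2 / 5) (hZ : ‖Z‖ ≤ z) (hz : z ≤ 1 / 15) (h : 1 + A = (1 + Y) * (1 + Z)) :
    ‖A‖ ≤ 1 / 2 := by
  have e : A = Y + (Z + Y * Z) := by linear_combination h
  rw [e]
  have h1 := norm_add_le Y (Z + Y * Z)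
  have h2 := norm_add_le Z (Y * Z)
  rw [norm_mul] at h2
  have h3 := norm_nonneg Z
  have h4 : ‖Y‖ * ‖Z‖ ≤ 2 / 5 * (1 / 15) := mul_le_mul hY (hZ.trans hz) h3 (by norm_num)
  linarith

/-- the kernel of `sinh` -/
theorem mL0 {μ : ℝ} (hΛ : 1 ≤ Λ) (hD : ∀ x, HasDerivAt D (D1 x) x) (hc : Continuous D1) (hR : 0 ≤ R)
    (y0 : ∀ t t', |t| ≤ R → |t'| ≤ R → ‖Y0 D D1 t t'‖ ≤ 2 / 5) (hx : KC R Λ (xcs D D1)) (hδ : ∀ x, HasDerivAt δ (δ1 x) x)
    (hc1 : Continuous δ1) (k0 : KC1 R μ δ) (k1 : KC1 R μ δ1) (hsm : 400 * (Λ * μ) ≤ 1) :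
    KC R (24 * (Λ * μ)) (fun t t' => L0 (fun x => D x + δ x) (fun x => D1 x + δ1 x) t t' - L0 D D1 t t') ∧
      ∀ t t', |t| ≤ R → |t'| ≤ R → ‖Y0 (fun x => D x + δ x) (fun x => D1 x + δ1 x) t t'‖ ≤ 1 / 2 := by
  have hμ := k0.nonneg
  have hΛμ : μ ≤ Λ * μ := le_mul_of_one_le_left hμ hΛ
  have hz : KC R (2 * μ) (fun t t' => δ t - δ t') := (k0.left.sub k0.right).mono (le_of_eq (by ring))
  have hq := k1.qd hR
  have h2 := hz.cosh_sub_one.add ((hx.mul hq).mul hz.shc)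
  have he : Real.exp (2 * μ) ≤ 3 := (Real.exp_le_exp.2 (by linarith)).trans exp_one_le
  have hE := Real.exp_pos (2 * μ)
  have hM : (2 * μ) ^ 2 * Real.exp (2 * μ) + Λ * μ * Real.exp (2 * μ) ≤ 6 * (Λ * μ) := by
    have h3 : (2 * μ) ^ 2 ≤ Λ * μ := by nlinarith
    have h4 : (2 * μ) ^ 2 * Real.exp (2 * μ) ≤ Λ * μ * 3 := mul_le_mul h3 he hE.le (by positivity)
    have h5 : Λ * μ * Real.exp (2 * μ) ≤ Λ * μ * 3 := mul_le_mul_of_nonneg_left he (by positivity)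
    linarith
  have hZ : KC R (6 * (Λ * μ)) (Z0 D D1 δ δ1) := (h2.mono hM).congr fun t t' _ _ => rfl
  have hf : ∀ t t', |t| ≤ R → |t'| ≤ R → 1 + Y0 (fun x => D x + δ x) (fun x => D1 x + δ1 x) t t' =
      (1 + Y0 D D1 t t') * (1 + Z0 D D1 δ δ1 t t') := fun t t' ht ht' =>
    one_add_Y0 hD hc hδ hc1 (one_add_ne ((y0 t t' ht ht').trans (by norm_num)))
  have hT : ∀ t t', |t| ≤ R → |t'| ≤ R → ‖Y0 (fun x => D x + δ x) (fun x => D1 x + δ1 x) t t'‖ ≤ 1 / 2 := fun t t' ht ht' =>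
    fac_small (y0 t t' ht ht') (hZ.bound ht ht') (by linarith) (hf t t' ht ht')
  refine ⟨?_, hT⟩
  refine ((hZ.log (by linarith)).mono (le_of_eq (by ring : 4 * (6 * (Λ * μ)) = 24 * (Λ * μ)))).congr fun t t' ht ht' => ?_
  exact (log_fac (hT t t' ht ht') ((y0 t t' ht ht').trans (by norm_num)) ((hZ.bound ht ht').trans (by linarith))
    (hf t t' ht ht')).symm

/-- the kernel of `cosh 2z - c` -/
theorem mLc {μ c : ℝ} (hc : c < 1) (hΛ : 1 ≤ Λ)
    (yc : ∀ t t', |t| ≤ R → |t'| ≤ R → ‖Yc c D D t t'‖ ≤ 2 / 5) (hC : KC R Λ (CCs c D)) (hS : KC R Λ (SSs c D))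
    (k0 : KC1 R μ δ) (k1 : KC1 R μ δ') (hsm : 400 * (Λ * μ) ≤ 1) :
    KC R (96 * (Λ * μ)) (fun t t' => Lc c (fun x => D x + δ x) (fun x => D x + δ' x) t t' - Lc c D D t t') ∧
      ∀ t t', |t| ≤ R → |t'| ≤ R → ‖Yc c (fun x => D x + δ x) (fun x => D x + δ' x) t t'‖ ≤ 1 / 2 := by
  have hμ := k0.nonneg
  have hΛμ : μ ≤ Λ * μ := le_mul_of_one_le_left hμ hΛ
  have hz : KC R (4 * μ) (fun t t' => 2 * (δ t - δ' t')) := by
    have h1 := (k0.left.sub k1.right).smul 2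
    refine h1.mono (le_of_eq ?_)
    rw [show ‖(2 : ℂ)‖ = 2 by simp]
    ring
  have h2 := (hz.cosh_sub_one.mul hC).add (hz.sinh.mul hS)
  have he : Real.exp (4 * μ) ≤ 3 := (Real.exp_le_exp.2 (by linarith)).trans exp_one_le
  have hE := Real.exp_pos (4 * μ)
  have hM : (4 * μ) ^ 2 * Real.exp (4 * μ) * Λ + 4 * μ * Real.exp (4 * μ) * Λ ≤ 24 * (Λ * μ) := by
    have h3 : (4 * μ) ^ 2 ≤ 4 * μ := by nlinarith
    have h4 : (4 * μ) ^ 2 * Real.exp (4 * μ) ≤ 4 * μ * 3 := mul_le_mul h3 he hE.le (by positivity)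
    have h5 : 4 * μ * Real.exp (4 * μ) ≤ 4 * μ * 3 := mul_le_mul_of_nonneg_left he (by positivity)
    calc (4 * μ) ^ 2 * Real.exp (4 * μ) * Λ + 4 * μ * Real.exp (4 * μ) * Λ ≤ 4 * μ * 3 * Λ + 4 * μ * 3 * Λ := by gcongr
      _ = 24 * (Λ * μ) := by ring
  have hZ : KC R (24 * (Λ * μ)) (Zc c D δ δ') := (h2.mono hM).congr fun t t' _ _ => rfl
  have hf : ∀ t t', |t| ≤ R → |t'| ≤ R → 1 + Yc c (fun x => D x + δ x) (fun x => D x + δ' x) t t' =
      (1 + Yc c D D t t') * (1 + Zc c D δ δ' t t') := fun t t' ht ht' =>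
    one_add_Yc hc (one_add_ne ((yc t t' ht ht').trans (by norm_num)))
  have hT : ∀ t t', |t| ≤ R → |t'| ≤ R → ‖Yc c (fun x => D x + δ x) (fun x => D x + δ' x) t t'‖ ≤ 1 / 2 := fun t t' ht ht' =>
    fac_small (yc t t' ht ht') (hZ.bound ht ht') (by linarith) (hf t t' ht ht')
  refine ⟨?_, hT⟩
  refine ((hZ.log (by linarith)).mono (le_of_eq (by ring : 4 * (24 * (Λ * μ)) = 96 * (Λ * μ)))).congr fun t t' ht ht' => ?_
  exact (log_fac (hT t t' ht ht') ((yc t t' ht ht').trans (by norm_num)) ((hZ.bound ht ht').trans (by linarith))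
    (hf t t' ht ht')).symm

/-- **the own kernel of a displaced bent curve** -/
theorem exists_mw : ∃ K : ℝ, 1 ≤ K ∧ ∀ R : ℝ, 1 ≤ R → ∀ Λ : ℝ, 1 ≤ Λ → ∀ (lam : ℝ) (D D1 δ δ1 : ℝ → ℂ), StK R Λ D D1 →
    Disp R lam δ δ1 → K * R ^ 3 * Λ * lam ≤ 1 → Sm R (fun x => D x + δ x) (fun x => D1 x + δ1 x) ∧
    KC R (K * R ^ 3 * Λ * lam) (fun t t' => Lw (fun x => D x + δ x) (fun x => D1 x + δ1 x) t t' - Lw D D1 t t') := by
  obtain ⟨K1, hK1, H1⟩ := exists_disp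
  refine ⟨400 * K1, by linarith, fun R hR Λ hΛ lam D D1 δ δ1 hS hd hsm => ?_⟩
  obtain ⟨hl, k0, k1⟩ := H1 R hR lam δ δ1 hd
  obtain ⟨μ, hμd⟩ : ∃ μ, μ = K1 * R ^ 3 * lam := ⟨_, rfl⟩
  rw [← hμd] at k0 k1
  have hμ := k0.nonneg
  have e1 : 400 * K1 * R ^ 3 * Λ * lam = 400 * (Λ * μ) := by rw [hμd]; ring
  rw [e1] at hsm ⊢
  have hr : cNum NUMF.r := Or.inr (Or.inl rfl)
  obtain ⟨a0, b0⟩ := mL0 hΛ hS.hD hS.hc (by linarith) hS.y0 hS.x hd.deriv hd.cont1 k0 k1 hsm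
  obtain ⟨a1, b1⟩ := mLc (c := 0) (by norm_num) hΛ (hS.yc 0 (Or.inl rfl)) (hS.C 0 (Or.inl rfl)) (hS.S 0 (Or.inl rfl)) k0 k0 hsm
  obtain ⟨a2, b2⟩ := mLc (c := NUMF.r) r_lt hΛ (hS.yc _ hr) (hS.C _ hr) (hS.S _ hr) k0 k0 hsm
  refine ⟨⟨fun x => (hS.hD x).add (hd.deriv x), hS.hc.add hd.cont1, b0, b1, b2⟩, ?_⟩
  have h := ((a0.smul 2).add a1).sub a2
  have h0 : 0 ≤ Λ * μ := by positivity
  refine (h.mono ?_).congr fun t t' _ _ => ?_
  · rw [show ‖(2 : ℂ)‖ = 2 by simp]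
    linarith
  · unfold Lw
    ring

/-- **the cross kernel of two displaced bent curves** -/
theorem exists_mg : ∃ K : ℝ, 1 ≤ K ∧ ∀ R : ℝ, 1 ≤ R → ∀ Λ : ℝ, 1 ≤ Λ → ∀ (lam : ℝ) (D D1 δ δ1 δ' δ1' : ℝ → ℂ), StK R Λ D D1 →
    Disp R lam δ δ1 → Disp R lam δ' δ1' → K * R ^ 3 * Λ * lam ≤ 1 → Sm2 R (fun x => D x + δ x) (fun x => D x + δ' x) ∧
    KC R (K * R ^ 3 * Λ * lam) (fun t t' => Lg (fun x => D x + δ x) (fun x => D x + δ' x) t t' - Lg D D t t') := by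
  obtain ⟨K1, hK1, H1⟩ := exists_disp
  refine ⟨400 * K1, by linarith, fun R hR Λ hΛ lam D D1 δ δ1 δ' δ1' hS hd hd' hsm => ?_⟩
  obtain ⟨hl, k0, -⟩ := H1 R hR lam δ δ1 hd
  obtain ⟨-, k1, -⟩ := H1 R hR lam δ' δ1' hd'
  obtain ⟨μ, hμd⟩ : ∃ μ, μ = K1 * R ^ 3 * lam := ⟨_, rfl⟩
  rw [← hμd] at k0 k1
  have hμ := k0.nonneg
  have e1 : 400 * K1 * R ^ 3 * Λ * lam = 400 * (Λ * μ) := by rw [hμd]; ring
  rw [e1] at hsm ⊢
  have h3 : cNum (-1) := Or.inr (Or.inr (Or.inl rfl))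
  have h4 : cNum (-NUMF.r) := Or.inr (Or.inr (Or.inr rfl))
  obtain ⟨a1, b1⟩ := mLc (c := -1) (by norm_num) hΛ (hS.yc _ h3) (hS.C _ h3) (hS.S _ h3) k0 k1 hsm
  obtain ⟨a2, b2⟩ := mLc (c := -NUMF.r) (by linarith [r_pos]) hΛ (hS.yc _ h4) (hS.C _ h4) (hS.S _ h4) k0 k1 hsm
  refine ⟨⟨b1, b2⟩, ?_⟩
  have h := a1.sub (a2.smul 2)
  have h0 : 0 ≤ Λ * μ := by positivity
  refine (h.mono ?_).congr fun t t' _ _ => ?_
  · rw [show ‖(2 : ℂ)‖ = 2 by simp]
    linarith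
  · unfold Lg
    ring

end

end PLT
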