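import Pool.Agent.PLT.KersD
import Pool.Agent.PLT.KerMv
import Pool.Agent.PLT.DispC

/-!
# The complex kernels of the displaced curves (helper78)

`StKB B`: the static kernel functions are of the class `KC R (K R ^ 17)`, uniformly in the family.
**`exists_zW`**, **`exists_zG`**: the complex kernels `Lw`, `Lg` of the curves `id + Dt η` and `(id + Dt η) ∘ (id + ξ)`: classes
`KC R (K R ^ 20)`, differences with the static ones of the classes `KC R (K R ^ 20 lam)`, `KC R (K R ^ 20 (lam + lam0))`.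
-/

set_option autoImplicit false
set_option linter.unusedSectionVars false

open Complex Set Filter MeasureTheory

namespace PLT

open NUKer NUOC NUR2

noncomputable section

/-- the static kernel functions of all seas of a family -/
def StKB (B : SeaCB) : Prop := ∃ K : ℝ, 1 ≤ K ∧ ∀ [SeaC] [SeaCU B], ∀ R : ℝ, 1 ≤ R →
  StK R (K * R ^ 17) (iD Cv.eta) (iD (deriv Cv.eta))

open Cv (Dt Dt1 gD gD1)

section

variable [SeaC]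

lemma cD_static (ξ : ℝ → ℝ) (η : ℝ → ℝ) : (fun x => iD Cv.eta x + (cD ξ (Dt η) x - iD Cv.eta x)) = cD ξ (Dt η) :=
  funext fun x => by ring

lemma cD1_static (ξ ξ1 : ℝ → ℝ) (η η1 : ℝ → ℝ) :
    (fun x => iD (deriv Cv.eta) x + (cD1 ξ ξ1 (Dt1 η η1) x - iD (deriv Cv.eta) x)) = cD1 ξ ξ1 (Dt1 η η1) :=
  funext fun x => by ring

/-- **complex own kernels** -/
structure ZW (R Λ0 Λ Λ' : ℝ) (η η1 ξ ξ1 : ℝ → ℝ) : Prop where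
  sm : Sm R (Dt η) (Dt1 η η1)
  sm' : Sm R (cD ξ (Dt η)) (cD1 ξ ξ1 (Dt1 η η1))
  kS : KC R Λ0 (Lw (iD Cv.eta) (iD (deriv Cv.eta)))
  k : KC R Λ0 (Lw (Dt η) (Dt1 η η1))
  k' : KC R Λ0 (Lw (cD ξ (Dt η)) (cD1 ξ ξ1 (Dt1 η η1)))
  n : KC R Λ (fun t t' => Lw (Dt η) (Dt1 η η1) t t' - Lw (iD Cv.eta) (iD (deriv Cv.eta)) t t')
  n' : KC R Λ' (fun t t' => Lw (cD ξ (Dt η)) (cD1 ξ ξ1 (Dt1 η η1)) t t' - Lw (iD Cv.eta) (iD (deriv Cv.eta)) t t')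
  d : KC R Λ' (fun t t' => Lw (cD ξ (Dt η)) (cD1 ξ ξ1 (Dt1 η η1)) t t' - Lw (Dt η) (Dt1 η η1) t t')

/-- **complex cross kernels** -/
structure ZG (R Λ0 Λ Λ' : ℝ) (ηX ηY ξX ξY : ℝ → ℝ) : Prop where
  sm : Sm2 R (Dt ηX) (Dt ηY)
  sm' : Sm2 R (cD ξX (Dt ηX)) (cD ξY (Dt ηY))
  kS : KC R Λ0 (Lg (iD Cv.eta) (iD Cv.eta))
  k : KC R Λ0 (Lg (Dt ηX) (Dt ηY))
  k' : KC R Λ0 (Lg (cD ξX (Dt ηX)) (cD ξY (Dt ηY)))
  n : KC R Λ (fun t t' => Lg (Dt ηX) (Dt ηY) t t' - Lg (iD Cv.eta) (iD Cv.eta) t t')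
  n' : KC R Λ' (fun t t' => Lg (cD ξX (Dt ηX)) (cD ξY (Dt ηY)) t t' - Lg (iD Cv.eta) (iD Cv.eta) t t')
  d : KC R Λ' (fun t t' => Lg (cD ξX (Dt ηX)) (cD ξY (Dt ηY)) t t' - Lg (Dt ηX) (Dt ηY) t t')

variable {R Λ0 Λ Λ' Λ0' Λ1 Λ1' : ℝ} {η η1 ξ ξ1 ηX ηY ξX ξY : ℝ → ℝ}

lemma ZW.mono (h : ZW R Λ0 Λ Λ' η η1 ξ ξ1) (h0 : Λ0 ≤ Λ0') (h1 : Λ ≤ Λ1) (h2 : Λ' ≤ Λ1') : ZW R Λ0' Λ1 Λ1' η η1 ξ ξ1 :=
  ⟨h.sm, h.sm', h.kS.mono h0, h.k.mono h0, h.k'.mono h0, h.n.mono h1, h.n'.mono h2, h.d.mono h2⟩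

lemma ZG.mono (h : ZG R Λ0 Λ Λ' ηX ηY ξX ξY) (h0 : Λ0 ≤ Λ0') (h1 : Λ ≤ Λ1) (h2 : Λ' ≤ Λ1') : ZG R Λ0' Λ1 Λ1' ηX ηY ξX ξY :=
  ⟨h.sm, h.sm', h.kS.mono h0, h.k.mono h0, h.k'.mono h0, h.n.mono h1, h.n'.mono h2, h.d.mono h2⟩

end

/-- closing numbers of both lemmas -/
lemma zNum {Kd Ks Km R lam lam0 : ℝ} (hKd : 1 ≤ Kd) (hKs : 1 ≤ Ks) (hKm : 1 ≤ Km) (hR : 1 ≤ R) (hl : 0 ≤ lam) (hl0 : 0 ≤ lam0)
    (hsm : 3 * (Km * Ks * Kd) * R ^ 20 * (lam + lam0) ≤ 1) :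
    lam0 ≤ 1 ∧ Km * R ^ 3 * (Ks * R ^ 17) * (Kd * lam) ≤ 1 ∧ Km * R ^ 3 * (Ks * R ^ 17) * (Kd * (lam + lam0)) ≤ 1 ∧ 1 ≤ Ks * R ^ 17 ∧
    Km * R ^ 3 * (Ks * R ^ 17) * (Kd * lam) ≤ 3 * (Km * Ks * Kd) * R ^ 20 * lam ∧
    Km * R ^ 3 * (Ks * R ^ 17) * (Kd * (lam + lam0)) ≤ 3 * (Km * Ks * Kd) * R ^ 20 * (lam + lam0) ∧
    Km * R ^ 3 * (Ks * R ^ 17) * (Kd * (lam + lam0)) + Km * R ^ 3 * (Ks * R ^ 17) * (Kd * lam) ≤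
      3 * (Km * Ks * Kd) * R ^ 20 * (lam + lam0) ∧
    Ks * R ^ 17 + 1 ≤ 3 * (Km * Ks * Kd) * R ^ 20 ∧ Ks * R ^ 17 ≤ 3 * (Km * Ks * Kd) * R ^ 20 := by
  obtain ⟨P, hP⟩ : ∃ P, P = Km * Ks * Kd := ⟨_, rfl⟩
  have hP1 : 1 ≤ P := by
    rw [hP]
    exact one_le_mul_of_one_le_of_one_le (one_le_mul_of_one_le_of_one_le hKm hKs) hKd
  have hKP : Ks ≤ P := by
    rw [hP]
    nlinarith [mul_nonneg (by linarith : (0:ℝ) ≤ Ks) (by linarith : (0:ℝ) ≤ Km - 1),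
      mul_nonneg (by nlinarith : (0:ℝ) ≤ Km * Ks) (by linarith : (0:ℝ) ≤ Kd - 1)]
  have e1 : Km * R ^ 3 * (Ks * R ^ 17) * (Kd * lam) = P * R ^ 20 * lam := by rw [hP]; ring
  have e2 : Km * R ^ 3 * (Ks * R ^ 17) * (Kd * (lam + lam0)) = P * R ^ 20 * (lam + lam0) := by rw [hP]; ring
  have hR20 : 1 ≤ R ^ 20 := one_le_pow₀ hR
  have hR17 : 1 ≤ R ^ 17 := one_le_pow₀ hR
  have hR1720 : R ^ 17 ≤ R ^ 20 := pow_le_pow_right₀ hR (by norm_num)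
  have hPR : 1 ≤ P * R ^ 20 := one_le_mul_of_one_le_of_one_le hP1 hR20
  have h17 : Ks * R ^ 17 ≤ P * R ^ 20 := mul_le_mul hKP hR1720 (by positivity) (by linarith)
  have hla : 0 ≤ P * R ^ 20 * lam := by positivity
  have hlb : 0 ≤ P * R ^ 20 * lam0 := by positivity
  have hlc : lam0 ≤ P * R ^ 20 * lam0 := by nlinarith
  rw [e1, e2]
  rw [← hP] at hsm ⊢
  have e3 : 3 * P * R ^ 20 * (lam + lam0) = 3 * (P * R ^ 20 * lam) + 3 * (P * R ^ 20 * lam0) := by ring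
  have e4 : 3 * P * R ^ 20 * lam = 3 * (P * R ^ 20 * lam) := by ring
  have e5 : P * R ^ 20 * (lam + lam0) = P * R ^ 20 * lam + P * R ^ 20 * lam0 := by ring
  have e6 : 3 * P * R ^ 20 = 3 * (P * R ^ 20) := by ring
  rw [e3] at hsm
  rw [e3, e4, e5, e6]
  refine ⟨by linarith, by linarith, by linarith, one_le_mul_of_one_le_of_one_le hKs hR17, by linarith, by linarith, by linarith,
    by linarith, by linarith⟩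

/-- **the complex own kernels of the displaced curves** -/
theorem exists_zW {B : SeaCB} (hB : StKB B) : ∃ K : ℝ, 1 ≤ K ∧ ∀ [SeaC] [SeaCU B], ∀ R : ℝ, 1 ≤ R → ∀ (lam lam0 : ℝ) (η η1 ξ ξ1 : ℝ → ℝ),
    O 4 lam η → O 4 lam0 ξ → (∀ x, HasDerivAt η (η1 x) x) → (∀ x, HasDerivAt ξ (ξ1 x) x) → K * R ^ 20 * (lam + lam0) ≤ 1 →
    ZW R (K * R ^ 20) (K * R ^ 20 * lam) (K * R ^ 20 * (lam + lam0)) η η1 ξ ξ1 := by
  obtain ⟨Ks, hKs, H⟩ := hB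
  obtain ⟨Kd, hKd, Hd⟩ := exists_dispC B
  obtain ⟨Km, hKm, Hm⟩ := exists_mw
  refine ⟨3 * (Km * Ks * Kd), ?_, @fun _ hS R hR lam lam0 η η1 ξ ξ1 hη hξ hη1 hξ1 hsm => ?_⟩
  · have := one_le_mul_of_one_le_of_one_le (one_le_mul_of_one_le_of_one_le hKm hKs) hKd
    linarith
  have hl := hη.nonneg
  have hl0 := hξ.nonneg
  obtain ⟨q0, q1, q2, q3, q4, q5, q6, q7, q8⟩ := zNum hKd hKs hKm hR hl hl0 hsm
  have hs := @H _ hS R hR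
  obtain ⟨dA, dB⟩ := @Hd _ hS lam0 lam ξ ξ1 η η1 hξ q0 hη hξ1 hη1 R
  rw [add_comm lam0 lam] at dB
  obtain ⟨a1, a2⟩ := Hm R hR _ q3 _ _ _ _ _ hs dA q1
  obtain ⟨b1, b2⟩ := Hm R hR _ q3 _ _ _ _ _ hs dB q2
  rw [cD_static, cD1_static] at b1 b2
  have ka : KC R (3 * (Km * Ks * Kd) * R ^ 20) (Lw (Dt η) (Dt1 η η1)) :=
    ((hs.lw.add a2).mono (le_trans (add_le_add le_rfl q1) q7)).congr fun t t' _ _ => by
      change _ + (Lw (Dt η) (Dt1 η η1) t t' - _) = _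
      ring
  have kb : KC R (3 * (Km * Ks * Kd) * R ^ 20) (Lw (cD ξ (Dt η)) (cD1 ξ ξ1 (Dt1 η η1))) :=
    ((hs.lw.add b2).mono (le_trans (add_le_add le_rfl q2) q7)).congr fun t t' _ _ => by
      ring
  exact
    { sm := a1
      sm' := b1
      kS := hs.lw.mono q8
      k := ka
      k' := kb
      n := a2.mono q4
      n' := b2.mono q5
      d := ((b2.sub a2).mono q6).congr fun t t' _ _ => by
        change _ - _ - (Lw (Dt η) (Dt1 η η1) t t' - _) = _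
        ring }

/-- **the complex cross kernels of the displaced curves** -/
theorem exists_zG {B : SeaCB} (hB : StKB B) : ∃ K : ℝ, 1 ≤ K ∧ ∀ [SeaC] [SeaCU B], ∀ R : ℝ, 1 ≤ R → ∀ (lam lam0 : ℝ)
    (ηX ηX1 ηY ηY1 ξX ξX1 ξY ξY1 : ℝ → ℝ), O 4 lam ηX → O 4 lam ηY → O 4 lam0 ξX → O 4 lam0 ξY →
    (∀ x, HasDerivAt ηX (ηX1 x) x) → (∀ x, HasDerivAt ηY (ηY1 x) x) →
    (∀ x, HasDerivAt ξX (ξX1 x) x) → (∀ x, HasDerivAt ξY (ξY1 x) x) → K * R ^ 20 * (lam + lam0) ≤ 1 →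
    ZG R (K * R ^ 20) (K * R ^ 20 * lam) (K * R ^ 20 * (lam + lam0)) ηX ηY ξX ξY := by
  obtain ⟨Ks, hKs, H⟩ := hB
  obtain ⟨Kd, hKd, Hd⟩ := exists_dispC B
  obtain ⟨Km, hKm, Hm⟩ := exists_mg
  refine ⟨3 * (Km * Ks * Kd), ?_, @fun _ hS R hR lam lam0 ηX ηX1 ηY ηY1 ξX ξX1 ξY ξY1 hηX hηY hξX hξY dηX dηY dξX dξY hsm => ?_⟩
  · have := one_le_mul_of_one_le_of_one_le (one_le_mul_of_one_le_of_one_le hKm hKs) hKd
    linarith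
  have hl := hηX.nonneg
  have hl0 := hξX.nonneg
  obtain ⟨q0, q1, q2, q3, q4, q5, q6, q7, q8⟩ := zNum hKd hKs hKm hR hl hl0 hsm
  have hs := @H _ hS R hR
  obtain ⟨dA, dB⟩ := @Hd _ hS lam0 lam ξX ξX1 ηX ηX1 hξX q0 hηX dξX dηX R
  obtain ⟨dA', dB'⟩ := @Hd _ hS lam0 lam ξY ξY1 ηY ηY1 hξY q0 hηY dξY dηY R
  rw [add_comm lam0 lam] at dB dB'
  obtain ⟨a1, a2⟩ := Hm R hR _ q3 _ _ _ _ _ _ _ hs dA dA' q1
  obtain ⟨b1, b2⟩ := Hm R hR _ q3 _ _ _ _ _ _ _ hs dB dB' q2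
  rw [cD_static, cD_static] at b1 b2
  have ka : KC R (3 * (Km * Ks * Kd) * R ^ 20) (Lg (Dt ηX) (Dt ηY)) :=
    ((hs.lg.add a2).mono (le_trans (add_le_add le_rfl q1) q7)).congr fun t t' _ _ => by
      change _ + (Lg (Dt ηX) (Dt ηY) t t' - _) = _
      ring
  have kb : KC R (3 * (Km * Ks * Kd) * R ^ 20) (Lg (cD ξX (Dt ηX)) (cD ξY (Dt ηY))) :=
    ((hs.lg.add b2).mono (le_trans (add_le_add le_rfl q2) q7)).congr fun t t' _ _ => by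
      ring
  exact
    { sm := a1
      sm' := b1
      kS := hs.lg.mono q8
      k := ka
      k' := kb
      n := a2.mono q4
      n' := b2.mono q5
      d := ((b2.sub a2).mono q6).congr fun t t' _ _ => by
        change _ - _ - (Lg (Dt ηX) (Dt ηY) t t' - _) = _
        ring }

end

end PLT
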