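import Pool.Agent.PLT.GAct
import Pool.Agent.NUKer.Q
import Pool.Agent.NUAct.Qfin

/-!
# The quadratic part of the one body potential over a sea on a static curve

The kernels of the displaced curves are `U (t - y) - L t y`, `L` of order one; only the increments of
`Re ∑ KB_ad` under `id + ξ_a` are small: **`exists_Qinc`**.
-/

set_option autoImplicit false
set_option linter.unusedSectionVars false
set_option linter.unusedVariables false

open MeasureTheory Set Filter Topology Complex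

namespace PLT.Cv

open NUMF (l l_pos)
open NUAct (Us Ux Up Gas Xi OC Up_of_lt Up_of_le int_norm_bd)
open NUKer
open NUR2 (Uw Ug)

noncomputable section

/-! ### kernels -/

/-- the complex kernels of a pair of species -/
def Lk (D D1 : Bool → ℝ → ℂ) (a d : Bool) (t y : ℝ) : ℂ := if a = d then Lw (D a) (D1 a) t y else Lg (D a) (D d) t y

/-- the straight kernels -/
def Uk (a d : Bool) (u : ℝ) : ℝ := if a = d then Uw u else Ug u

lemma Uk_li (a d : Bool) : LocallyIntegrable (Uk a d) := by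
  unfold Uk
  cases a <;> cases d <;> simp only [if_true, Bool.false_eq_true, Bool.true_eq_false, if_false]
  · exact NUR2.Uw_li
  · exact NUR2.Ug_li
  · exact NUR2.Ug_li
  · exact NUR2.Uw_li

/-- the kernels of the curves `id + D a` and of the curves `id + D' a` -/
structure KQs (R Λ0 Λ : ℝ) (D D1 D' D1' : Bool → ℝ → ℂ) : Prop where
  c : ∀ a d, KC R Λ0 (Lk D D1 a d)
  c' : ∀ a d, KC R Λ (fun t y => Lk D' D1' a d t y - Lk D D1 a d t y)
  s : ∀ a d t y, |t| ≤ R → |y| ≤ R → t ≠ y →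
    Kf (fun a t => (t : ℂ) + D a t) a d t y = (Uk a d (t - y) : ℂ) - Lk D D1 a d t y
  s' : ∀ a d t y, |t| ≤ R → |y| ≤ R → t ≠ y →
    Kf (fun a t => (t : ℂ) + D' a t) a d t y = (Uk a d (t - y) : ℂ) - Lk D' D1' a d t y

lemma im_lt0 {D D' : ℝ → ℂ} {t t' : ℝ} (h : ‖D t - D' t'‖ ≤ 1 / 40) :
    |(((t : ℂ) + D t) - (t' + D' t')).im| < l := by
  have e : (((t : ℂ) + D t) - (t' + D' t')).im = (D t - D' t').im := by simp
  rw [e]
  refine (Complex.abs_im_le_norm _).trans_lt (h.trans_lt ?_)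
  have h1 := Real.pi_gt_three
  have h3 : l = Real.pi / 8 := rfl
  rw [h3]
  linarith

/-- the kernels of curves with small oscillation -/
lemma Kf_split {R : ℝ} {D D1 : Bool → ℝ → ℂ} (h1 : ∀ a, Sm R (D a) (D1 a)) (h2 : ∀ a d, a ≠ d → Sm2 R (D a) (D d))
    (ho : ∀ a d t y, ‖D a t - D d y‖ ≤ 1 / 40) (a d : Bool) (t y : ℝ) (ht : |t| ≤ R) (hy : |y| ≤ R) (hne : t ≠ y) :
    Kf (fun a t => (t : ℂ) + D a t) a d t y = (Uk a d (t - y) : ℂ) - Lk D D1 a d t y := by
  unfold Kf Uk Lk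
  by_cases h : a = d
  · subst h
    rw [if_pos rfl, if_pos rfl, if_pos rfl]
    exact Up_eq (h1 a) ht hy hne (im_lt0 (ho a a t y))
  · rw [if_neg h, if_neg h, if_neg h]
    exact Ux_path (h2 a d h) ht hy (im_lt0 (ho a d t y))

/-- **increment of the real part of a kernel integral** -/
theorem exists_Qk : ∃ K : ℝ, 1 ≤ K ∧ ∀ R : ℝ, 1 ≤ R → ∀ {Λ0 Λ : ℝ} {D D1 D' D1' : Bool → ℝ → ℂ},
    KQs R Λ0 Λ D D1 D' D1' → ∀ {β β' : ℝ → ℂ} {N N1 μ : ℝ}, Continuous β → Continuous β' →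
    (∀ y, R < |y| → β y = 0) → (∀ y, R < |y| → β' y = 0) → ∫ y, ‖β y‖ ≤ N → ∫ y, ‖β' y‖ ≤ N →
    ∫ y, ‖β' y - β y‖ ≤ N1 → NUOC.O 3 μ (fun y => (β y).re) → NUOC.O 3 μ (fun y => (β' y).re) → ∀ a d,
    KC1 R (K * R ^ 5 * μ + N * Λ0)
      (fun t => (((∫ y, Kf (fun a t => (t : ℂ) + D a t) a d t y * β y).re : ℝ) : ℂ)) ∧
    KC1 R (2 * (K * R ^ 5 * μ) + (N * Λ + N1 * Λ0))
      (fun t => (((∫ y, Kf (fun a t => (t : ℂ) + D' a t) a d t y * β' y).re -
        (∫ y, Kf (fun a t => (t : ℂ) + D a t) a d t y * β y).re : ℝ) : ℂ)) := by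
  obtain ⟨K1, hK1, H1⟩ := exists_conv_w
  obtain ⟨K2, hK2, H2⟩ := exists_conv_g
  refine ⟨K1 + K2, by linarith, fun R hR Λ0 Λ D D1 D' D1' h β β' N N1 μ hβ hβ' hs hs' hN hN' hN1 hμ hμ' a d => ?_⟩
  have hR0 : (0:ℝ) ≤ R := by linarith
  have hμ0 := hμ.nonneg
  have hc : ∀ u : ℝ → ℝ, NUOC.O 3 μ u → (∀ y, R < |y| → u y = 0) →
      KC1 R ((K1 + K2) * R ^ 5 * μ) (fun t => ((cv (Uk a d) u t : ℝ) : ℂ)) := by
    intro u hu hsu
    unfold Uk
    by_cases h : a = d
    · simp only [if_pos h]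
      exact (H1 R hR μ u hu hsu).mono (by gcongr; linarith)
    · simp only [if_neg h]
      exact (H2 R hR μ u hu hsu).mono (by gcongr; linarith)
  have c1 := hc _ hμ (fun y hy => by rw [hs y hy, Complex.zero_re])
  have c2 := hc _ hμ' (fun y hy => by rw [hs' y hy, Complex.zero_re])
  have k0 := h.c a d
  have kd := h.c' a d
  have k1 : KC R (Λ0 + Λ) (Lk D' D1' a d) := (k0.add kd).congr fun t y _ _ => by ring
  have e1 : ∀ t, |t| ≤ R → (∫ y, Kf (fun a t => (t : ℂ) + D a t) a d t y * β y).re =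
      cv (Uk a d) (fun y => (β y).re) t - (∫ y, Lk D D1 a d t y * β y).re := fun t ht =>
    re_split hR0 (Uk_li a d) k0 hβ hs (h.s a d) ht
  have e2 : ∀ t, |t| ≤ R → (∫ y, Kf (fun a t => (t : ℂ) + D' a t) a d t y * β' y).re =
      cv (Uk a d) (fun y => (β' y).re) t - (∫ y, Lk D' D1' a d t y * β' y).re := fun t ht =>
    re_split hR0 (Uk_li a d) k1 hβ' hs' (h.s' a d) ht
  have q0 := (k0.int_right hR0 hβ hs hN).re hR0
  constructor
  · refine (c1.sub hR0 q0).congr fun t ht => ?_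
    rw [e1 t ht]
    push_cast
    rfl
  · have q1 := (kd.int_right hR0 hβ' hs' hN').re hR0
    have hβd : Continuous fun y => β' y - β y := hβ'.sub hβ
    have q2 := (k0.int_right hR0 hβd (fun y hy => by rw [hs y hy, hs' y hy, sub_zero]) hN1).re hR0
    have q3 := (c2.sub hR0 c1).sub hR0 (q1.add hR0 q2)
    refine (q3.mono (le_of_eq (by ring))).congr fun t ht => ?_
    rw [e1 t ht, e2 t ht]
    have i1 := k1.integrable_right hR0 hβ' hs' ht
    have i0 := k0.integrable_right hR0 hβ hs ht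
    have i2 := k0.integrable_right hR0 hβ' hs' ht
    have e3 : (∫ y, (Lk D' D1' a d t y - Lk D D1 a d t y) * β' y) =
        (∫ y, Lk D' D1' a d t y * β' y) - ∫ y, Lk D D1 a d t y * β' y := by
      rw [← integral_sub i1 i2]
      refine integral_congr_ae (Eventually.of_forall fun y => ?_)
      ring
    have e4 : (∫ y, Lk D D1 a d t y * (β' y - β y)) =
        (∫ y, Lk D D1 a d t y * β' y) - ∫ y, Lk D D1 a d t y * β y := by
      rw [← integral_sub i2 i0]
      refine integral_congr_ae (Eventually.of_forall fun y => ?_)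
      ring
    rw [e3, e4, Complex.sub_re, Complex.sub_re]
    push_cast
    ring

/-! ### the composite curves -/

lemma Kf_comp {ζ : Bool → ℝ → ℂ} {ξ ξ1 : Bool → ℝ → ℝ} {lam b : ℝ} (hξ : ∀ a, Xi lam b (ξ a) (ξ1 a)) (a d : Bool)
    (t y : ℝ) : Kf ζ a d (t + ξ a t) (y + ξ d y) = Kf (fun a t => ζ a (t + ξ a t)) a d t y := by
  unfold Kf
  split_ifs with h
  · subst h
    rcases lt_or_ge y t with h1 | h1
    · have h2 : y + ξ a y < t + ξ a t := (hξ a).mono h1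
      rw [Up_of_lt h2, Up_of_lt h1]
    · have h2 : t + ξ a t ≤ y + ξ a y := (hξ a).mono.monotone h1
      rw [Up_of_le h2, Up_of_le h1]
  · rfl

lemma add_cD (ξ : ℝ → ℝ) (D : ℝ → ℂ) (t : ℝ) : (t : ℂ) + cD ξ D t = ((t + ξ t : ℝ) : ℂ) + D (t + ξ t) := by
  unfold cD
  push_cast
  ring

/-! ### the transported density -/

/-- the transported density of a current with one derivative -/
theorem exists_B1 (B : SeaCB) : ∃ C : ℝ, 1 ≤ C ∧ ∀ [SeaC] [SeaCU B], ∀ {s ε M b : ℝ}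
    {e η η1 : ℝ → ℝ}, 0 ≤ s → C * ε ≤ 1 → Cur s ε M b e η → (∀ t, HasDerivAt η (η1 t) t) →
    OC 1 (fun _ => C * M) (Bf s (gD η) (gD1 η η1)) := by
  obtain ⟨C1, h1, H1⟩ := Br_OC B 1
  obtain ⟨C2, h2, H2⟩ := af_OC B 1
  obtain ⟨G, hG, hg⟩ := gD_OC B
  obtain ⟨C3, h3, H3⟩ := exists_BB B
  have hh := B.h0
  have hG0 : 0 < G := by linarith
  refine ⟨C3 + C1 * G ^ 2 + C2 * G + G / B.h + 2 * G / B.h, by
    have : 0 ≤ C1 * G ^ 2 + C2 * G + G / B.h + 2 * G / B.h := by positivity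
    linarith, @fun _ _ s ε M b e η η1 hs hε hc hη => ?_⟩
  obtain ⟨o0', o1'⟩ := hg hc hη
  have o0 := o0'.lower.lower.lower
  have o1 := o1'.lower.lower
  have hM := hc.M0 B hs
  have hε0 := hc.ε0
  have hq : 0 ≤ C1 * G ^ 2 + C2 * G := by positivity
  have hq2 : 0 ≤ G / B.h := by positivity
  have hq3 : 0 ≤ 2 * G / B.h := by positivity
  have hε1 : ε ≤ 1 := by
    nlinarith [mul_nonneg hq hε0, mul_nonneg hq2 hε0, mul_nonneg hq3 hε0]
  have hεh : 2 * (G * ε) ≤ B.h := by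
    have h4 : 2 * G / B.h * ε ≤ 1 := by nlinarith [mul_nonneg hq hε0, mul_nonneg hq2 hε0]
    have h5 : 2 * G / B.h * ε * B.h = 2 * (G * ε) := by field_simp
    nlinarith
  have hse : ∀ t, G * e t ≤ B.h / 2 := fun t => by
    have := mul_le_mul_of_nonneg_left (hc.le t) hG0.le
    linarith
  have b1 := H1 hs (hasDerivAt_gD hη) o0 o1 (fun t => (hse t).trans (by unfold SeaCB.r; linarith))
  have b2 := H2 hs o0 o1
  have m1 : ∀ t, C1 * (s * P t * (G * e t) ^ 2) ≤ C1 * G ^ 2 * M := fun t => by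
    have q1 := hc.mass t
    have q2 := hc.le t
    have q3 := hc.nonneg t
    calc C1 * (s * P t * (G * e t) ^ 2) = C1 * G ^ 2 * ((s * P t * e t) * e t) := by ring
      _ ≤ C1 * G ^ 2 * (M * 1) := by gcongr; linarith
      _ = _ := by ring
  have m2 : ∀ t, C2 * (s * P t * (G * e t)) ≤ C2 * G * M := fun t => by
    have q1 := hc.mass t
    calc C2 * (s * P t * (G * e t)) = C2 * G * (s * P t * e t) := by ring
      _ ≤ _ := by gcongr
  refine ((b2.add b1).mono fun t => ?_).congr fun t => (Bf_eq _ _ _ _).symm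
  have t1 := m1 t
  have t2 := m2 t
  have t3 : 0 ≤ (C3 + G / B.h + 2 * G / B.h) * M := by positivity
  linarith

/-- **increments of the quadratic part of the one body potential** -/
theorem exists_Qinc (B : SeaCB) : ∃ K : ℝ, 1 ≤ K ∧ ∀ [SeaC] [SeaCU B], ∀ {s : Bool → ℝ} {ε M b lam Λ0 Λ : ℝ}
    {e η η1 ξ ξ1 : Bool → ℝ → ℝ} (R : ℝ), 1 ≤ R → b ≤ R → (∀ a, 0 ≤ s a) → (∀ a, Cur (s a) ε M b (e a) (η a)) →
    (∀ a t, HasDerivAt (η a) (η1 a t) t) → (∀ a, Xi lam b (ξ a) (ξ1 a)) → K * ε ≤ 1 →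
    KQs R Λ0 Λ (fun a => Dt (η a)) (fun a => Dt1 (η a) (η1 a)) (fun a => cD (ξ a) (Dt (η a)))
      (fun a => cD1 (ξ a) (ξ1 a) (Dt1 (η a) (η1 a))) → ∀ (Fe : Bool → ℂ → ℂ) (a d : Bool),
    KC1 R (K * (R ^ 5 * (M * ε) + R * M * Λ0)) (fun t => (((gas s η η1 Fe).KB a d t).re : ℂ)) ∧
    KC1 R (K * (R ^ 5 * (M * ε) + R * M * (Λ + lam * Λ0)))
      (fun t => ((((gas s η η1 Fe).KB a d (t + ξ a t)).re - ((gas s η η1 Fe).KB a d t).re : ℝ) : ℂ)) := by
  obtain ⟨K, hK, H⟩ := exists_Qk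
  obtain ⟨C0, hC0, HB0⟩ := exists_BB B
  obtain ⟨C1, hC1, HB1⟩ := exists_B1 B
  obtain ⟨C4, hC4, H4⟩ := NUOC.O.comp 3
  obtain ⟨C, hCd⟩ : ∃ C, C = C0 + C1 := ⟨_, rfl⟩
  have hC : 1 ≤ C := by linarith
  have hCC : 1 ≤ C * C4 := one_le_mul_of_one_le_of_one_le hC hC4
  have hKCC : 1 ≤ K * (C * C4) := one_le_mul_of_one_le_of_one_le hK hCC
  refine ⟨100 * (K * (C * C4)), by linarith, ?_⟩
  intro _ _ s ε M b lam Λ0 Λ e η η1 ξ ξ1 R hR hbR hs hc hη hξ hsm hKS Fe a d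
  have hR0 : (0:ℝ) ≤ R := by linarith
  have hε := (hc true).ε0
  have hM := (hc true).M0 B (hs true)
  have hlam := (hξ true).lam0
  have hlam1 := (hξ true).lam1
  have hKp : 0 < K := by linarith
  have hCp : 0 < C := by linarith
  have hC4p : 0 < C4 := by linarith
  have hΛ0 := (hKS.c true true).nonneg
  have hΛ := (hKS.c' true true).nonneg
  have hsmC : C * ε ≤ 1 := by
    refine le_trans ?_ hsm
    refine mul_le_mul_of_nonneg_right ?_ hε
    have : C ≤ K * (C * C4) := by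
      calc C = 1 * (C * 1) := by ring
        _ ≤ K * (C * C4) := by gcongr
    linarith
  have s0 : C0 * ε ≤ 1 := (mul_le_mul_of_nonneg_right (by linarith) hε).trans hsmC
  have s1 : C1 * ε ≤ 1 := (mul_le_mul_of_nonneg_right (by linarith) hε).trans hsmC
  have hMε : 0 ≤ M * ε := mul_nonneg hM hε
  have hBB : ∀ a, BB (s a) (C0 * (M * ε)) (C0 * M) b (η a) (η1 a) := fun a => HB0 (hs a) s0 (hc a) (hη a)
  have hB1 := HB1 (hs d) s1 (hc d) (hη d)
  have h2 := hBB d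
  obtain ⟨β, hβd⟩ : ∃ β : ℝ → ℂ, β = Bf (s d) (gD (η d)) (gD1 (η d) (η1 d)) := ⟨_, rfl⟩
  rw [← hβd] at hB1
  have hcont : Continuous β := by rw [hβd]; exact h2.cont
  have hle : ∀ t, ‖β t‖ ≤ C * M := fun t => by
    rw [hβd]
    exact (h2.le t).trans (mul_le_mul_of_nonneg_right (by linarith) hM)
  have hsupp : ∀ y, b < |y| → β y = 0 := fun y hy => by rw [hβd]; exact h2.supp y hy
  have hre : NUOC.O 3 (C * (M * ε)) fun y => (β y).re := by
    rw [hβd]
    exact h2.re.mono (mul_le_mul_of_nonneg_right (by linarith) hMε)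
  obtain ⟨β', hβ'd⟩ : ∃ β' : ℝ → ℂ, β' = fun y => β (y + ξ d y) * ((1 + ξ1 d y : ℝ) : ℂ) := ⟨_, rfl⟩
  have hβ'c : Continuous β' := by
    rw [hβ'd]
    exact (hcont.comp (hξ d).cont).mul (Complex.continuous_ofReal.comp
      (continuous_const.add (hξ d).o1.cont))
  have hβs : ∀ y, R < |y| → β y = 0 := fun y hy => hsupp y (lt_of_le_of_lt hbR hy)
  have hβ's : ∀ y, R < |y| → β' y = 0 := by
    intro y hy
    rw [hβ'd]
    show β (y + ξ d y) * _ = 0
    rw [hsupp _ ((hξ d).out (lt_of_le_of_lt hbR hy)), zero_mul]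
  have hξ1 : ∀ y, |ξ1 d y| ≤ lam := fun y => (hξ d).o1.le y
  have hβ'b : ∀ y, ‖β' y‖ ≤ 2 * (C * M) := by
    intro y
    rw [hβ'd]
    show ‖β (y + ξ d y) * ((1 + ξ1 d y : ℝ) : ℂ)‖ ≤ _
    rw [norm_mul, Complex.norm_real, Real.norm_eq_abs, abs_of_pos ((hξ d).pos y)]
    have h3 := hle (y + ξ d y)
    have h4 := (abs_le.1 (hξ1 y)).2
    calc ‖β (y + ξ d y)‖ * (1 + ξ1 d y) ≤ (C * M) * 2 :=
          mul_le_mul h3 (by linarith) ((hξ d).pos y).le (by positivity)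
      _ = _ := by ring
  -- the increment of the density
  have hdiff : ∀ y, ‖β' y - β y‖ ≤ 2 * (C * M) * lam := by
    intro y
    obtain ⟨-, β1, d1, d2⟩ := hB1
    have hm : ‖β (y + ξ d y) - β y‖ ≤ C * M * lam := by
      have h5 := Convex.norm_image_sub_le_of_norm_hasDerivWithin_le (f := β) (f' := β1) (C := C * M)
        (s := univ) (x := y) (y := y + ξ d y) (fun w _ => (d1 w).hasDerivWithinAt)
        (fun w _ => (d2.le w).trans (mul_le_mul_of_nonneg_right (by linarith) hM)) convex_univ (mem_univ _)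
        (mem_univ _)
      refine h5.trans ?_
      rw [add_sub_cancel_left, Real.norm_eq_abs]
      exact mul_le_mul_of_nonneg_left ((hξ d).o.le y) (by positivity)
    have e : β' y - β y = (β (y + ξ d y) - β y) + β (y + ξ d y) * ((ξ1 d y : ℝ) : ℂ) := by
      rw [hβ'd]
      push_cast
      ring
    rw [e]
    refine (norm_add_le _ _).trans ?_
    rw [norm_mul, Complex.norm_real, Real.norm_eq_abs]
    have h6 : ‖β (y + ξ d y)‖ * |ξ1 d y| ≤ C * M * lam :=
      mul_le_mul (hle _) (hξ1 y) (abs_nonneg _) (by positivity)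
    linarith
  have hβ'r : NUOC.O 3 (16 * (C4 * (C * (M * ε)))) fun y => (β' y).re := by
    have a1 := H4 hre (((hξ d).o.lower).mono (by linarith))
    have a2 : NUOC.O 3 2 fun y => 1 + ξ1 d y :=
      ((NUOC.O.const 3 (a := 1) (c := 1) (by simp)).add (hξ d).o1).mono (by linarith)
    refine ((a1.mul a2).mono (le_of_eq (by ring))).congr fun y => ?_
    rw [hβ'd]
    show _ = (β (y + ξ d y) * ((1 + ξ1 d y : ℝ) : ℂ)).re
    rw [mul_comm (β (y + ξ d y)) _, Complex.re_ofReal_mul, mul_comm]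
  have hre' : NUOC.O 3 (16 * (C4 * (C * (M * ε)))) fun y => (β y).re := by
    refine hre.mono ?_
    have : 0 ≤ C * (M * ε) := by positivity
    nlinarith
  have N0 : ∫ y, ‖β y‖ ≤ 2 * R * (2 * (C * M)) :=
    int_norm_bd hR0 hβs fun y => (hle y).trans (by nlinarith [mul_nonneg hCp.le hM])
  have N1 : ∫ y, ‖β' y‖ ≤ 2 * R * (2 * (C * M)) := int_norm_bd hR0 hβ's hβ'b
  have N2 : ∫ y, ‖β' y - β y‖ ≤ 2 * R * (2 * (C * M) * lam) :=
    int_norm_bd (β := fun y => β' y - β y) hR0 (fun y hy => by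
      show β' y - β y = 0
      rw [hβs y hy, hβ's y hy, sub_zero]) hdiff
  obtain ⟨q1, q2⟩ := H R hR hKS hcont hβ'c hβs hβ's N0 N1 N2 hre' hβ'r a d
  have ez : (fun (a : Bool) (t : ℝ) => (t : ℂ) + Dt (η a) t) = fun a => zt (gD (η a)) :=
    funext fun a => zt_fun (η a)
  have eK : ∀ t, (gas s η η1 Fe).KB a d t = ∫ y, Kf (fun a (t : ℝ) => (t : ℂ) + Dt (η a) t) a d t y * β y := by
    intro t
    rw [gas_KB, ez, hβd]
  have eK' : ∀ t, (gas s η η1 Fe).KB a d (t + ξ a t) =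
      ∫ y, Kf (fun a (t : ℝ) => (t : ℂ) + cD (ξ a) (Dt (η a)) t) a d t y * β' y := by
    intro t
    rw [eK, (hξ d).subst fun y => Kf (fun a (t : ℝ) => (t : ℂ) + Dt (η a) t) a d (t + ξ a t) y * β y]
    refine integral_congr_ae (Eventually.of_forall fun y => ?_)
    simp only
    rw [Kf_comp hξ a d t y, hβ'd]
    have e3 : (fun (a : Bool) (t : ℝ) => (((t + ξ a t : ℝ) : ℂ) + Dt (η a) (t + ξ a t))) =
        fun (a : Bool) (t : ℝ) => (t : ℂ) + cD (ξ a) (Dt (η a)) t :=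
      funext fun a => funext fun t => (add_cD (ξ a) (Dt (η a)) t).symm
    rw [e3]
    ring
  have w1 : 0 ≤ R ^ 5 * (M * ε) := by positivity
  have w2 : 0 ≤ R * M * Λ0 := by positivity
  have w3 : 0 ≤ R * M * (Λ + lam * Λ0) := by positivity
  have w4 : C ≤ K * (C * C4) := by
    calc C = 1 * (C * 1) := by ring
      _ ≤ K * (C * C4) := by gcongr
  constructor
  · refine (q1.mono ?_).congr fun t _ => ?_
    · calc K * R ^ 5 * (16 * (C4 * (C * (M * ε)))) + 2 * R * (2 * (C * M)) * Λ0 =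
            16 * (K * (C * C4)) * (R ^ 5 * (M * ε)) + 4 * C * (R * M * Λ0) := by ring
        _ ≤ 100 * (K * (C * C4)) * (R ^ 5 * (M * ε)) + 100 * (K * (C * C4)) * (R * M * Λ0) := by
            gcongr
            · norm_num
            · norm_num
        _ = _ := by ring
    · rw [eK]
  · refine (q2.mono ?_).congr fun t _ => ?_
    · calc 2 * (K * R ^ 5 * (16 * (C4 * (C * (M * ε))))) +
            (2 * R * (2 * (C * M)) * Λ + 2 * R * (2 * (C * M) * lam) * Λ0) =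
            32 * (K * (C * C4)) * (R ^ 5 * (M * ε)) + 4 * C * (R * M * (Λ + lam * Λ0)) := by ring
        _ ≤ 100 * (K * (C * C4)) * (R ^ 5 * (M * ε)) + 100 * (K * (C * C4)) * (R * M * (Λ + lam * Λ0)) := by
            gcongr
            · norm_num
            · norm_num
        _ = _ := by ring
    · rw [eK', eK t]

end

end PLT.Cv
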