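import Pool.Agent.PLT.GAct
import Pool.Agent.NUR2.Tail

/-!
# The tail of the mean field beyond the window over a sea on a static curve

`Tg Φ ρ γ R z = ∫_{u > R} ρ u Φ (γ u - z) du` is analytic and `O(e^{-2R})` on `|Re z| ≤ R - 1`, `|Im z| ≤ l / 4`
(`Re γ u = u`); `Tb s a R` is on the path of the species `a` the mean field of the quanta beyond the window;
**`window_field`**.  No symmetry of the curve.
-/

set_option autoImplicit false
set_option linter.unusedSectionVars false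
set_option linter.unusedVariables false

open MeasureTheory Set Filter Topology Complex

namespace PLT.Cv

open NUMF (l l_pos)
open NUAct (Us Ux Up Gas Up_of_lt Up_of_le Ux_neg Us_meas Ux_meas Usd Uxd hasDerivAt_Us hasDerivAt_Ux Us_kern Ux_gr
  Usd_bound Uxd_bound)

noncomputable section

/-! ### one tail -/

/-- a tail -/
def Tg (Φ : ℂ → ℂ) (ρ : ℝ → ℝ) (γ : ℝ → ℂ) (R : ℝ) (z : ℂ) : ℂ := ∫ u in Ioi R, (ρ u : ℂ) * Φ (γ u - z)

/-- kernels of the tails -/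
structure KT (K : ℝ) (Φ Φ' : ℂ → ℂ) : Prop where
  K0 : 0 ≤ K
  m : Measurable Φ
  m' : Measurable Φ'
  d : ∀ z : ℂ, 0 < z.re → |z.im| < l → HasDerivAt Φ (Φ' z) z
  b : ∀ z : ℂ, 1 / 2 ≤ z.re → |z.im| ≤ l / 2 → ‖Φ z‖ ≤ K * (2 + 2 * z.re)
  b' : ∀ z : ℂ, 1 / 2 ≤ z.re → |z.im| ≤ l / 2 → ‖Φ' z‖ ≤ K

/-- densities and curves of the tails -/
structure TD (C : ℝ) (ρ : ℝ → ℝ) (γ : ℝ → ℂ) : Prop where
  C0 : 0 ≤ C
  ρm : Measurable ρ
  γm : Measurable γ
  re : ∀ u, (γ u).re = u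
  im : ∀ u, |(γ u).im| ≤ 3 / 50 * l
  b : ∀ u, |ρ u| ≤ C * Real.exp (-(8 / 3) * |u|)

lemma Usd_meas : Measurable Usd := by
  have h := NUR2.Ty_meas
  unfold NUAct.Usd
  fun_prop

lemma Uxd_meas : Measurable Uxd := by
  have h := NUR2.Ty_meas
  unfold NUAct.Uxd
  fun_prop

lemma exists_KT : ∃ K : ℝ, 1 ≤ K ∧ KT K Us Usd ∧ KT K Ux Uxd := by
  obtain ⟨K1, h1⟩ := Us_kern
  obtain ⟨K2, k2, h2⟩ := Ux_gr
  obtain ⟨K3, k3, h3⟩ := Usd_bound
  obtain ⟨K4, k4, h4⟩ := Uxd_bound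
  have k1 := h1.K0
  have hl := l_pos
  refine ⟨1 + K1 + K2 + 3 * K3 + K4, by linarith, ⟨by linarith, Us_meas, Usd_meas, fun z h0 h => hasDerivAt_Us h0 h,
    fun z h0 h => ?_, fun z h0 h => ?_⟩, ⟨by linarith, Ux_meas, Uxd_meas, fun z h0 h => hasDerivAt_Ux h, fun z h0 h => ?_,
    fun z h0 h => ?_⟩⟩
  · refine (h1.bd z (by linarith) h).trans ?_
    have := NUR2.gr_le' h0
    calc K1 * NUAct.gr z.re ≤ K1 * (2 + 2 * z.re) := mul_le_mul_of_nonneg_left this k1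
      _ ≤ _ := mul_le_mul_of_nonneg_right (by linarith) (by linarith)
  · refine (h3 z (by linarith) h).trans ?_
    have : 1 / z.re ≤ 2 := by
      rw [div_le_iff₀ (by linarith)]
      linarith
    calc K3 * (1 + 1 / z.re) ≤ K3 * 3 := mul_le_mul_of_nonneg_left (by linarith) k3.le
      _ ≤ _ := by linarith
  · refine (h2 z h).trans ?_
    rw [abs_of_nonneg (by linarith : (0:ℝ) ≤ z.re)]
    calc K2 * (1 + z.re) ≤ K2 * (2 + 2 * z.re) := mul_le_mul_of_nonneg_left (by linarith) k2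
      _ ≤ _ := mul_le_mul_of_nonneg_right (by linarith) (by linarith)
  · exact (h4 z h).trans (by linarith)

/-- **the tail is analytic and small** -/
theorem exists_Tg {K C : ℝ} {Φ Φ' : ℂ → ℂ} (hΦ : KT K Φ Φ') {ρ : ℝ → ℝ} {γ : ℝ → ℂ} (hρ : TD C ρ γ) {R : ℝ}
    (hR : 1 ≤ R) {z : ℂ} (h1 : |z.re| ≤ R - 1) (h2 : |z.im| ≤ l / 4) :
    IntegrableOn (fun u : ℝ => (ρ u : ℂ) * Φ (γ u - z)) (Ioi R) ∧ DifferentiableAt ℂ (Tg Φ ρ γ R) z ∧
      ‖Tg Φ ρ γ R z‖ ≤ 8 * (K * C) * Real.exp (-2 * R) := by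
  have hl := l_pos
  have hl5 : 31 / 100 * l + 1 / 20 ≤ l / 2 := by
    have h3 : l = Real.pi / 8 := rfl
    have := Real.pi_gt_three
    rw [h3]
    linarith
  have K0 := hΦ.K0
  have C0 := hρ.C0
  have key : ∀ w : ℂ, |w.re| ≤ R - 19 / 20 → |w.im| ≤ l / 4 + 1 / 20 → ∀ u : ℝ, R < u →
      1 / 2 ≤ (γ u - w).re ∧ |(γ u - w).im| ≤ l / 2 ∧ (γ u - w).re ≤ 2 * u := by
    intro w w1 w2 u hu
    have e1 := abs_le.1 w1
    have e2 := abs_sub (γ u).im w.im
    have e3 := hρ.im u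
    rw [Complex.sub_re, Complex.sub_im, hρ.re]
    exact ⟨by linarith [e1.2], by linarith, by linarith [e1.1]⟩
  have hP : ∀ u : ℝ, 0 < u → |ρ u| * (2 + 4 * u) ≤ C * 8 * Real.exp (-2 * u) := by
    intro u hu
    have h3 := hρ.b u
    rw [abs_of_pos hu] at h3
    have h4 := Real.add_one_le_exp (2 / 3 * u)
    have h5 : 2 + 4 * u ≤ 8 * Real.exp (2 / 3 * u) := by linarith
    have h6 : Real.exp (-2 * u) = Real.exp (-(8 / 3) * u) * Real.exp (2 / 3 * u) := by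
      rw [← Real.exp_add]; congr 1; ring
    rw [h6]
    calc |ρ u| * (2 + 4 * u) ≤ (C * Real.exp (-(8 / 3) * u)) * (8 * Real.exp (2 / 3 * u)) :=
          mul_le_mul h3 h5 (by positivity) (by positivity)
      _ = _ := by ring
  have bdF : ∀ w : ℂ, |w.re| ≤ R - 19 / 20 → |w.im| ≤ l / 4 + 1 / 20 → ∀ u : ℝ, R < u →
      ‖(ρ u : ℂ) * Φ (γ u - w)‖ ≤ (8 * (K * C)) * Real.exp (-2 * u) := by
    intro w w1 w2 u hu
    obtain ⟨a1, a2, a3⟩ := key w w1 w2 u hu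
    have hu0 : 0 < u := by linarith
    have n1 := (hΦ.b _ a1 a2).trans (mul_le_mul_of_nonneg_left (by linarith : 2 + 2 * (γ u - w).re ≤ 2 + 4 * u) K0)
    rw [norm_mul, Complex.norm_real, Real.norm_eq_abs]
    calc |ρ u| * ‖Φ (γ u - w)‖ ≤ |ρ u| * (K * (2 + 4 * u)) := mul_le_mul_of_nonneg_left n1 (abs_nonneg _)
      _ = K * (|ρ u| * (2 + 4 * u)) := by ring
      _ ≤ K * (C * 8 * Real.exp (-2 * u)) := mul_le_mul_of_nonneg_left (hP u hu0) K0
      _ = _ := by ring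
  have bdF' : ∀ w : ℂ, |w.re| ≤ R - 19 / 20 → |w.im| ≤ l / 4 + 1 / 20 → ∀ u : ℝ, R < u →
      ‖(ρ u : ℂ) * (-Φ' (γ u - w))‖ ≤ (8 * (K * C)) * Real.exp (-2 * u) := by
    intro w w1 w2 u hu
    obtain ⟨a1, a2, a3⟩ := key w w1 w2 u hu
    have hu0 : 0 < u := by linarith
    have n1 := hΦ.b' _ a1 a2
    rw [norm_mul, norm_neg, Complex.norm_real, Real.norm_eq_abs]
    calc |ρ u| * ‖Φ' (γ u - w)‖ ≤ |ρ u| * K := mul_le_mul_of_nonneg_left n1 (abs_nonneg _)
      _ ≤ |ρ u| * (K * (2 + 4 * u)) := by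
          refine mul_le_mul_of_nonneg_left ?_ (abs_nonneg _)
          nlinarith
      _ = K * (|ρ u| * (2 + 4 * u)) := by ring
      _ ≤ K * (C * 8 * Real.exp (-2 * u)) := mul_le_mul_of_nonneg_left (hP u hu0) K0
      _ = _ := by ring
  obtain ⟨hei, hev⟩ := NUR2.exp_int_Ioi R
  have hPm : Measurable fun u : ℝ => (ρ u : ℂ) := Complex.measurable_ofReal.comp hρ.ρm
  have hmeas : ∀ w : ℂ, Measurable fun u : ℝ => (ρ u : ℂ) * Φ (γ u - w) := fun w =>
    hPm.mul (hΦ.m.comp (hρ.γm.sub_const w))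
  have hmeas' : Measurable fun u : ℝ => (ρ u : ℂ) * (-Φ' (γ u - z)) :=
    hPm.mul (hΦ.m'.comp (hρ.γm.sub_const z)).neg
  have hint : IntegrableOn (fun u : ℝ => (ρ u : ℂ) * Φ (γ u - z)) (Ioi R) := by
    refine Integrable.mono' (hei.const_mul (8 * (K * C))) (hmeas z).aestronglyMeasurable ?_
    refine (ae_restrict_mem measurableSet_Ioi).mono fun u hu => ?_
    exact bdF z (by linarith) (by linarith) u hu
  refine ⟨hint, ?_, ?_⟩
  · have hball : ∀ w ∈ Metric.ball z (1 / 20), |w.re| ≤ R - 19 / 20 ∧ |w.im| ≤ l / 4 + 1 / 20 := by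
      intro w hw
      rw [Metric.mem_ball, dist_eq_norm] at hw
      have e1 : |w.re - z.re| ≤ 1 / 20 := by
        rw [← Complex.sub_re]; exact (Complex.abs_re_le_norm _).trans hw.le
      have e2 : |w.im - z.im| ≤ 1 / 20 := by
        rw [← Complex.sub_im]; exact (Complex.abs_im_le_norm _).trans hw.le
      have e3 := abs_add_le (w.re - z.re) z.re
      have e4 := abs_add_le (w.im - z.im) z.im
      rw [sub_add_cancel] at e3 e4
      constructor <;> linarith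
    have := hasDerivAt_integral_of_dominated_loc_of_deriv_le (μ := volume.restrict (Ioi R))
      (F := fun (w : ℂ) (u : ℝ) => (ρ u : ℂ) * Φ (γ u - w))
      (F' := fun (w : ℂ) (u : ℝ) => (ρ u : ℂ) * (-Φ' (γ u - w)))
      (x₀ := z) (s := Metric.ball z (1 / 20)) (bound := fun u => (8 * (K * C)) * Real.exp (-2 * u))
      (Metric.ball_mem_nhds z (by norm_num)) (Eventually.of_forall fun w => (hmeas w).aestronglyMeasurable)
      hint hmeas'.aestronglyMeasurable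
      ((ae_restrict_mem measurableSet_Ioi).mono fun u hu w hw =>
        bdF' w (hball w hw).1 (hball w hw).2 u hu)
      (hei.const_mul _)
      ((ae_restrict_mem measurableSet_Ioi).mono fun u hu w hw => by
        obtain ⟨c1, c2⟩ := hball w hw
        obtain ⟨a1, a2, a3⟩ := key w c1 c2 u hu
        have d1 := hΦ.d (γ u - w) (by linarith) (lt_of_le_of_lt a2 (by linarith))
        have g1 : HasDerivAt (fun w : ℂ => γ u - w) (-1) w := by
          simpa using (hasDerivAt_id w).const_sub (γ u)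
        have k1 := (HasDerivAt.comp w d1 g1).const_mul (ρ u : ℂ)
        refine HasDerivAt.congr_deriv k1 ?_
        ring)
    exact this.2.differentiableAt
  · unfold Tg
    refine (norm_integral_le_of_norm_le (hei.const_mul (8 * (K * C))) ?_).trans ?_
    · refine (ae_restrict_mem measurableSet_Ioi).mono fun u hu => ?_
      exact bdF z (by linarith) (by linarith) u hu
    · rw [integral_const_mul, hev]
      have : 0 ≤ 8 * (K * C) * Real.exp (-2 * R) := by positivity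
      linarith

/-! ### the tails of the sea -/

section

variable [SeaC]

/-- the tail of the field of one kernel: both sides -/
def T2 (Φ : ℂ → ℂ) (R : ℝ) (z : ℂ) : ℂ :=
  Tg Φ P ga R z + Tg Φ (fun u => P (-u)) (fun u => -ga (-u)) R (-z)

/-- the tail of the species `a` -/
def Tb (s : Bool → ℝ) (a : Bool) (R : ℝ) (z : ℂ) : ℂ := (s a : ℂ) * T2 Us R z + (s (!a) : ℂ) * T2 Ux R z

lemma eta_ab (t : ℝ) : |eta t| ≤ 3 / 50 * l := by
  have h1 := eta_nn t
  have h2 := eta_le t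
  have h3 := l_pos
  rw [abs_le]
  constructor <;> linarith

end

lemma exists_TD (B : SeaCB) : ∃ C : ℝ, 1 ≤ C ∧ ∀ [SeaC] [SeaCU B], TD C P ga ∧
    TD C (fun u => P (-u)) (fun u => -ga (-u)) := by
  obtain ⟨C, hC, H⟩ := P_le B
  refine ⟨C + 1, by linarith, @fun _ _ => ?_⟩
  have h1 : ∀ u, |P u| ≤ (C + 1) * Real.exp (-(8 / 3) * |u|) := fun u => by
    rw [abs_of_pos (P_pos B u)]
    have := Real.exp_pos (-(8 / 3) * |u|)
    have := H u
    linarith
  refine ⟨⟨by linarith, (P_cont B).measurable, continuous_ga.measurable, ga_re, fun u => ?_, h1⟩,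
    ⟨by linarith, ((P_cont B).comp continuous_neg).measurable, ((continuous_ga.comp continuous_neg).neg).measurable,
      fun u => by simp, fun u => ?_, fun u => ?_⟩⟩
  · rw [ga_im]
    exact eta_ab u
  · rw [Complex.neg_im, ga_im, abs_neg]
    exact eta_ab _
  · have := h1 (-u)
    rwa [abs_neg] at this

/-- **the tail of the species `a`** -/
theorem exists_Tb (B : SeaCB) : ∃ C : ℝ, 1 ≤ C ∧ ∀ [SeaC] [SeaCU B], ∀ (s : Bool → ℝ) (R : ℝ), (∀ a, 0 ≤ s a) → 1 ≤ R →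
    ∀ (a : Bool) (z : ℂ), |z.re| ≤ R - 1 → |z.im| ≤ l / 4 →
    DifferentiableAt ℂ (Tb s a R) z ∧ ‖Tb s a R z‖ ≤ C * (s true + s false) * Real.exp (-2 * R) := by
  obtain ⟨K, hK, k1, k2⟩ := exists_KT
  obtain ⟨C, hC, H⟩ := exists_TD B
  have hKC : 1 ≤ K * C := one_le_mul_of_one_le_of_one_le hK hC
  refine ⟨16 * (K * C), by linarith, @fun _ _ s R hs hR a z h1 h2 => ?_⟩
  obtain ⟨t1, t2⟩ := @H _ _
  have n1 : |(-z).re| ≤ R - 1 := by rw [Complex.neg_re, abs_neg]; exact h1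
  have n2 : |(-z).im| ≤ l / 4 := by rw [Complex.neg_im, abs_neg]; exact h2
  have key : ∀ {Φ Φ' : ℂ → ℂ}, KT K Φ Φ' → DifferentiableAt ℂ (T2 Φ R) z ∧
      ‖T2 Φ R z‖ ≤ 16 * (K * C) * Real.exp (-2 * R) := by
    intro Φ Φ' hΦ
    obtain ⟨-, d1, b1⟩ := exists_Tg hΦ t1 hR h1 h2
    obtain ⟨-, d2, b2⟩ := exists_Tg hΦ t2 hR n1 n2
    refine ⟨d1.add ?_, ?_⟩
    · exact DifferentiableAt.comp (g := Tg Φ (fun u => P (-u)) (fun u => -ga (-u)) R) (f := fun z : ℂ => -z) z d2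
        differentiableAt_id.neg
    · unfold T2
      refine (norm_add_le _ _).trans ?_
      linarith
  obtain ⟨d1, b1⟩ := key k1
  obtain ⟨d2, b2⟩ := key k2
  refine ⟨(d1.const_mul _).add (d2.const_mul _), ?_⟩
  have hs1 := hs a
  have hs2 := hs (!a)
  have e : s a + s (!a) = s true + s false := by cases a <;> simp [add_comm]
  unfold Tb
  refine (norm_add_le _ _).trans ?_
  rw [norm_mul, norm_mul, Complex.norm_real, Complex.norm_real, Real.norm_of_nonneg hs1, Real.norm_of_nonneg hs2]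
  calc s a * ‖T2 Us R z‖ + s (!a) * ‖T2 Ux R z‖ ≤ s a * (16 * (K * C) * Real.exp (-2 * R)) +
        s (!a) * (16 * (K * C) * Real.exp (-2 * R)) := by gcongr
    _ = 16 * (K * C) * (s a + s (!a)) * Real.exp (-2 * R) := by ring
    _ = _ := by rw [e]

/-! ### the mean field beyond the window -/

section

variable [SeaC] {ζ ζ' : Bool → ℝ → ℂ} {Fe : Bool → ℂ → ℂ}

lemma two_sum_K (s : Bool → ℝ) (a : Bool) (x y : ℝ) :
    ∑ b', (two s ζ ζ' Fe).K a b' x y * ((s b' * P y : ℝ) : ℂ) =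
    ((P y : ℝ) : ℂ) * ((s a : ℂ) * Up Us (ζ a) x y + (s (!a) : ℂ) * Ux (ζ a x - ζ (!a) y)) := by
  cases a
  · simp only [two_K, Fintype.sum_bool, Bool.false_eq_true, if_false, if_true, Bool.not_false]
    push_cast
    ring
  · simp only [two_K, Fintype.sum_bool, Bool.true_eq_false, if_false, if_true, Bool.not_true]
    push_cast
    ring

lemma sum_K_right (s : Bool → ℝ) (a : Bool) {R x u : ℝ} (hid : ∀ a y, R ≤ |y| → ζ a y = ga y)
    (hx : |x| ≤ R) (hu : R < u) :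
    ∑ b', (two s ζ ζ' Fe).K a b' x u * ((s b' * P u : ℝ) : ℂ) =
      (s a : ℂ) * ((P u : ℂ) * Us (ga u - ζ a x)) + (s (!a) : ℂ) * ((P u : ℂ) * Ux (ga u - ζ a x)) := by
  have h0 : R ≤ |u| := hu.le.trans (le_abs_self u)
  have h1 : x ≤ u := ((le_abs_self x).trans hx).trans hu.le
  rw [two_sum_K, Up_of_le h1, hid a u h0, hid (!a) u h0, ← Ux_neg (ga u - ζ a x), neg_sub]
  ring

lemma sum_K_left (s : Bool → ℝ) (a : Bool) {R x u : ℝ} (hid : ∀ a y, R ≤ |y| → ζ a y = ga y)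
    (hx : |x| ≤ R) (hu : R < u) :
    ∑ b', (two s ζ ζ' Fe).K a b' x (-u) * ((s b' * P (-u) : ℝ) : ℂ) =
      (s a : ℂ) * ((P (-u) : ℂ) * Us (-ga (-u) - -ζ a x)) + (s (!a) : ℂ) * ((P (-u) : ℂ) * Ux (-ga (-u) - -ζ a x)) := by
  have h0 : R ≤ |(-u)| := by rw [abs_neg]; exact hu.le.trans (le_abs_self u)
  have h1 : -u < x := by linarith [neg_abs_le x]
  have e : -ga (-u) - -ζ a x = ζ a x - ga (-u) := by ring
  rw [two_sum_K, Up_of_lt h1, hid a _ h0, hid (!a) _ h0, e]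
  ring

end

section

variable (B : SeaCB) [SeaC] [SeaCU B] {lo hi c C : ℝ} {ζ ζ' : Bool → ℝ → ℂ} {Fe : Bool → ℂ → ℂ}

include B

theorem tail_id (s : Bool → ℝ) (S : Str B lo hi) (P' : ∀ a, SPath lo hi c C (ζ a) (ζ' a)) {R : ℝ}
    (hR : 1 ≤ R) (hid : ∀ a y, R ≤ |y| → ζ a y = ga y) (a : Bool) {x : ℝ} (hx : |x| ≤ R)
    (z1 : |(ζ a x).re| ≤ R - 1) (z2 : |(ζ a x).im| ≤ l / 4) :
    ∑ b', ∫ y in (Icc (-R) R)ᶜ, (two s ζ ζ' Fe).K a b' x y * ((s b' * P y : ℝ) : ℂ) = Tb s a R (ζ a x) := by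
  have hi := fun b' => (two_i1 (Fe := Fe) B s S P' a b' x).integrableOn (s := (Icc (-R) R)ᶜ)
  simp only [two_rho] at hi
  rw [← integral_finsetSum _ fun b' _ => hi b']
  have hs : (Icc (-R) R)ᶜ = Iio (-R) ∪ Ioi R := by
    ext y
    simp only [mem_compl_iff, mem_Icc, not_and_or, not_le, mem_union, mem_Iio, mem_Ioi]
  have hd : Disjoint (Iio (-R)) (Ioi R) := by
    rw [Set.disjoint_left]
    intro y h1 h2
    rw [mem_Iio] at h1
    rw [mem_Ioi] at h2
    linarith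
  have hI : Integrable fun y => ∑ b', (two s ζ ζ' Fe).K a b' x y * ((s b' * P y : ℝ) : ℂ) :=
    integrable_finsetSum _ fun b' _ => two_i1 (Fe := Fe) B s S P' a b' x
  rw [hs, setIntegral_union hd measurableSet_Ioi hI.integrableOn hI.integrableOn]
  obtain ⟨K, -, k1, k2⟩ := exists_KT
  obtain ⟨C, -, H⟩ := exists_TD B
  obtain ⟨t1, t2⟩ := @H _ _
  have n1 : |(-ζ a x).re| ≤ R - 1 := by rw [Complex.neg_re, abs_neg]; exact z1
  have n2 : |(-ζ a x).im| ≤ l / 4 := by rw [Complex.neg_im, abs_neg]; exact z2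
  have a1 := (exists_Tg k1 t1 hR z1 z2).1
  have a2 := (exists_Tg k2 t1 hR z1 z2).1
  have a3 := (exists_Tg k1 t2 hR n1 n2).1
  have a4 := (exists_Tg k2 t2 hR n1 n2).1
  have e1 : ∫ y in Iio (-R), ∑ b', (two s ζ ζ' Fe).K a b' x y * ((s b' * P y : ℝ) : ℂ) =
      (s a : ℂ) * Tg Us (fun u => P (-u)) (fun u => -ga (-u)) R (-ζ a x) +
      (s (!a) : ℂ) * Tg Ux (fun u => P (-u)) (fun u => -ga (-u)) R (-ζ a x) := by
    rw [← integral_Iic_eq_integral_Iio]
    have h1 := integral_comp_neg_Ioi R (fun y => ∑ b', (two s ζ ζ' Fe).K a b' x y * ((s b' * P y : ℝ) : ℂ))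
    rw [← h1]
    unfold Tg
    rw [← integral_const_mul, ← integral_const_mul, ← integral_add (a3.const_mul _) (a4.const_mul _)]
    refine setIntegral_congr_fun measurableSet_Ioi fun u hu => ?_
    beta_reduce
    rw [sum_K_left s a hid hx hu]
  have e2 : ∫ y in Ioi R, ∑ b', (two s ζ ζ' Fe).K a b' x y * ((s b' * P y : ℝ) : ℂ) =
      (s a : ℂ) * Tg Us P ga R (ζ a x) + (s (!a) : ℂ) * Tg Ux P ga R (ζ a x) := by
    unfold Tg
    rw [← integral_const_mul, ← integral_const_mul, ← integral_add (a1.const_mul _) (a2.const_mul _)]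
    refine setIntegral_congr_fun measurableSet_Ioi fun u hu => ?_
    beta_reduce
    rw [sum_K_right s a hid hx hu]
  rw [e1, e2]
  unfold Tb T2
  ring

/-- **the field on the window**: `vb s a (ζ x) - ∑ ∫_W K ρ = K B + tail` -/
theorem window_field (s : Bool → ℝ) (S : Str B lo hi) (P' : ∀ a, SPath lo hi c C (ζ a) (ζ' a)) {R : ℝ}
    (hR : 1 ≤ R) (hid : ∀ a y, R ≤ |y| → ζ a y = ga y) (a : Bool) {x : ℝ} (hx : |x| ≤ R)
    (z1 : |(ζ a x).re| ≤ R - 1) (z2 : |(ζ a x).im| ≤ l / 4) :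
    vb s a (ζ a x) - ∑ b', ∫ y in Icc (-R) R, (two s ζ ζ' Fe).K a b' x y * ((s b' * P y : ℝ) : ℂ) =
      ∑ b', (two s ζ ζ' Fe).KB a b' x + Tb s a R (ζ a x) := by
  have h1 := two_fe (Fe := Fe) B s S P' a x
  rw [← h1, ← tail_id (Fe := Fe) B s S P' hR hid a hx z1 z2]
  have i1 : ∀ b', Integrable fun y => (two s ζ ζ' Fe).K a b' x y * ((s b' * P y : ℝ) : ℂ) := fun b' =>
    two_i1 (Fe := Fe) B s S P' a b' x
  have h2 : ∀ b', ∫ y in (Icc (-R) R)ᶜ, (two s ζ ζ' Fe).K a b' x y * ((s b' * P y : ℝ) : ℂ) =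
      (∫ y, (two s ζ ζ' Fe).K a b' x y * ((s b' * P y : ℝ) : ℂ)) -
        ∫ y in Icc (-R) R, (two s ζ ζ' Fe).K a b' x y * ((s b' * P y : ℝ) : ℂ) := by
    intro b'
    have := integral_add_compl (measurableSet_Icc (a := -R) (b := R)) (i1 b')
    rw [← this]
    ring
  have h3 : ∀ b', (two s ζ ζ' Fe).KB a b' x = (∫ y, (two s ζ ζ' Fe).K a b' x y * (two s ζ ζ' Fe).ρh b' y) -
      ∫ y, (two s ζ ζ' Fe).K a b' x y * ((s b' * P y : ℝ) : ℂ) := by
    intro b'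
    rw [← integral_sub (two_i2 B s S P' a b' x) (i1 b')]
    unfold Gas.KB
    refine integral_congr_ae (Eventually.of_forall fun y => ?_)
    simp only [Gas.B, two_rhoh, two_rho]
    ring
  simp only [h2, h3, Fintype.sum_bool]
  ring

end

end

end PLT.Cv
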