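import Pool.Agent.PLT.OBKdef
import Pool.Agent.PLT.TailC
import Pool.Agent.PLT.ExtC
import Pool.Agent.PLT.QfinC
import Pool.Agent.PLT.KersE
import Pool.Agent.PLT.KStC
import Pool.Agent.PLT.IrefC
import Pool.Agent.PLT.FDbC

/-!
# The one body data over a sea on a static curve

For one body factors `exp (Re vb s a (ζ) + Re F(ζ) + Er)` on `|x| ≤ b`, `ζ = zt (gD η)`, `F` analytic, `Er` real:
`V = E + I`, `I` = field of the reference density on the window, and `E ∘ ψ - E` is small in the class `KC`: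
**`exists_OBKC`**, **`exists_OBKB`** (`OBKSt B lo hi`), **`PLT.exists_FDC`** (`FDSt B lo hi`).
-/

set_option autoImplicit false
set_option linter.unusedSectionVars false
set_option linter.unusedVariables false

open MeasureTheory Set Filter Topology Complex

namespace PLT.Cv

open NUMF (l l_pos)
open NUAct (Us Ux Up Gas Xi OC)
open NUKer
open NUR2 (Uw Ug OB Ext IX2 IY2)

noncomputable section

/-! ### the kernels of the curves -/

lemma Kf_splitI {R : ℝ} {D D1 : Bool → ℝ → ℂ} (h1 : ∀ a, Sm R (D a) (D1 a)) (h2 : ∀ a d, a ≠ d → Sm2 R (D a) (D d))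
    (ho : ∀ a d t y, |(D a t - D d y).im| ≤ 1 / 40) (a d : Bool) (t y : ℝ) (ht : |t| ≤ R) (hy : |y| ≤ R) (hne : t ≠ y) :
    Kf (fun a t => (t : ℂ) + D a t) a d t y = (Uk a d (t - y) : ℂ) - Lk D D1 a d t y := by
  have him : ∀ (a d : Bool) (t y : ℝ), |(((t : ℂ) + D a t) - (y + D d y)).im| < l := by
    intro a d t y
    have e : (((t : ℂ) + D a t) - (y + D d y)).im = (D a t - D d y).im := by simp
    rw [e]
    refine (ho a d t y).trans_lt ?_
    have h1 := Real.pi_gt_three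
    have h3 : l = Real.pi / 8 := rfl
    rw [h3]
    linarith
  unfold Kf Uk Lk
  by_cases h : a = d
  · subst h
    rw [if_pos rfl, if_pos rfl, if_pos rfl]
    exact Up_eq (h1 a) ht hy hne (him a a t y)
  · rw [if_neg h, if_neg h, if_neg h]
    exact Ux_path (h2 a d h) ht hy (him a d t y)

/-- **the kernels of the curves and of the transported curves** -/
theorem exists_KS (B : SeaCB) : ∃ K : ℝ, 1 ≤ K ∧ ∀ [SeaC] [SeaCU B], ∀ {s : Bool → ℝ} {ε M b lam : ℝ}
    {e η η1 ξ ξ1 : Bool → ℝ → ℝ} (R : ℝ), 1 ≤ R → (∀ a, 0 ≤ s a) → (∀ a, Cur (s a) ε M b (e a) (η a)) →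
    (∀ a t, HasDerivAt (η a) (η1 a t) t) → (∀ a, Xi lam b (ξ a) (ξ1 a)) → K * R ^ 20 * (ε + lam) ≤ 1 →
    KQs R (K * R ^ 20) (K * R ^ 20 * (ε + lam)) (fun a => Dt (η a)) (fun a => Dt1 (η a) (η1 a))
      (fun a => cD (ξ a) (Dt (η a))) (fun a => cD1 (ξ a) (ξ1 a) (Dt1 (η a) (η1 a))) := by
  obtain ⟨K1, hK1, H1⟩ := exists_zW (stKB B)
  obtain ⟨K2, hK2, H2⟩ := exists_zG (stKB B)
  obtain ⟨K3, hK3, H3⟩ := exists_Dt B
  refine ⟨K1 + K2 + K3, by linarith, ?_⟩
  intro _ _ s ε M b lam e η η1 ξ ξ1 R hR hs hc hη hξ hsm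
  have hε := (hc true).ε0
  have hlam := (hξ true).lam0
  have hR20 : (1:ℝ) ≤ R ^ 20 := one_le_pow₀ hR
  have hX : 0 ≤ R ^ 20 * (ε + lam) := by positivity
  have s1 : K1 * R ^ 20 * (ε + lam) ≤ 1 := by
    refine le_trans ?_ hsm
    gcongr
    linarith
  have s2 : K2 * R ^ 20 * (ε + lam) ≤ 1 := by
    refine le_trans ?_ hsm
    gcongr
    linarith
  have s3 : K3 * ε ≤ 1 := by
    refine le_trans ?_ hsm
    calc K3 * ε = K3 * 1 * (ε + 0) := by ring
      _ ≤ (K1 + K2 + K3) * R ^ 20 * (ε + lam) := by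
          gcongr
          linarith
  have w := fun a => H1 R hR ε lam (η a) (η1 a) (ξ a) (ξ1 a) (hc a).O4 (hξ a).o (hη a) (hξ a).d s1
  have g := fun a d => H2 R hR ε lam (η a) (η1 a) (η d) (η1 d) (ξ a) (ξ1 a) (ξ d) (ξ1 d) (hc a).O4 (hc d).O4
    (hξ a).o (hξ d).o (hη a) (hη d) (hξ a).d (hξ d).d s2
  have hg : ∀ a t, ‖gD (η a) t‖ ≤ 1 / 10000 := fun a => (H3 (hs a) s3 (hc a) (hη a)).2.2
  have ho : ∀ a d t y, |(Dt (η a) t - Dt (η d) y).im| ≤ 1 / 40 := fun a d t y =>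
    (Complex.abs_im_le_norm _).trans (Dt_osc (hg a) (hg d) t y)
  have ho' : ∀ a d t y, |(cD (ξ a) (Dt (η a)) t - cD (ξ d) (Dt (η d)) y).im| ≤ 1 / 40 := fun a d t y => by
    have e1 : (cD (ξ a) (Dt (η a)) t - cD (ξ d) (Dt (η d)) y).im =
        (Dt (η a) (t + ξ a t) - Dt (η d) (y + ξ d y)).im := by
      unfold cD
      simp
    rw [e1]
    exact ho a d _ _
  have m0 : ∀ K' : ℝ, 0 ≤ K' → K' ≤ K1 + K2 + K3 → K' * R ^ 20 ≤ (K1 + K2 + K3) * R ^ 20 := fun K' _ h => by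
    gcongr
  have m1 : ∀ K' : ℝ, 0 ≤ K' → K' ≤ K1 + K2 + K3 → K' * R ^ 20 * (ε + lam) ≤ (K1 + K2 + K3) * R ^ 20 * (ε + lam) :=
    fun K' _ h => by gcongr
  refine ⟨fun a d => ?_, fun a d => ?_, fun a d t y => Kf_splitI (fun a => (w a).sm) (fun a d _ => (g a d).sm) ho a d t y,
    fun a d t y => Kf_splitI (fun a => (w a).sm') (fun a d _ => (g a d).sm') ho' a d t y⟩
  · by_cases h : a = d
    · subst h
      refine ((w a).k.mono (m0 K1 (by linarith) (by linarith))).congr fun t y _ _ => ?_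
      unfold Lk
      rw [if_pos rfl]
    · refine ((g a d).k.mono (m0 K2 (by linarith) (by linarith))).congr fun t y _ _ => ?_
      unfold Lk
      rw [if_neg h]
  · by_cases h : a = d
    · subst h
      refine ((w a).d.mono (m1 K1 (by linarith) (by linarith))).congr fun t y _ _ => ?_
      unfold Lk
      rw [if_pos rfl, if_pos rfl]
    · refine ((g a d).d.mono (m1 K2 (by linarith) (by linarith))).congr fun t y _ _ => ?_
      unfold Lk
      rw [if_neg h, if_neg h]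

/-! ### the paths -/

/-- the displaced curve is a path of every strip which contains the static curve with a margin -/
theorem exists_pathC (B : SeaCB) {lo hi κ : ℝ} (hκ : 0 < κ) : ∃ C : ℝ, 1 ≤ C ∧ ∀ [SeaC] [SeaCU B],
    (∀ t, lo + κ ≤ eta t ∧ eta t + κ ≤ hi) → ∀ {s ε M b : ℝ} {e η η1 : ℝ → ℝ}, 0 ≤ s → C * ε ≤ 1 →
    Cur s ε M b e η → (∀ t, HasDerivAt η (η1 t) t) →
    SPath lo hi (1 / 2) C (zt (gD η)) (zd (gD1 η η1)) ∧ ∀ t, ‖gD η t‖ ≤ 1 := by
  obtain ⟨C1, hC1, H1⟩ := Cur_disp B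
  obtain ⟨C2, hC2, H2⟩ := Disp_path B
  have hh := B.h0
  have hp : 0 < 2 * C1 / B.h := by positivity
  have hp2 : 0 < C1 / κ := by positivity
  refine ⟨C1 + C2 + 2 * C1 / B.h + C1 / κ, by linarith, @fun _ _ hst s ε M b e η η1 hs hε hc hη => ?_⟩
  have hε0 := hc.ε0
  obtain ⟨δ2, D, -⟩ := H1 hs hc hη
  have b1 : 0 ≤ C1 * ε := by positivity
  have b2 : 0 ≤ C2 * ε := by positivity
  have b3 : 0 ≤ 2 * C1 / B.h * ε := by positivity
  have b4 : 0 ≤ C1 / κ * ε := by positivity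
  have e0 : (C1 + C2 + 2 * C1 / B.h + C1 / κ) * ε = C1 * ε + C2 * ε + 2 * C1 / B.h * ε + C1 / κ * ε := by ring
  rw [e0] at hε
  have a2 : C1 * ε ≤ B.h / 2 := by
    have h1 : 2 * C1 / B.h * ε ≤ 1 := by linarith
    have h2 : 2 * C1 / B.h * ε = (C1 * ε) / (B.h / 2) := by field_simp
    rw [h2, div_le_one (by positivity)] at h1
    exact h1
  have a3 : C1 * ε ≤ κ := by
    have h1 : C1 / κ * ε ≤ 1 := by linarith
    have h2 : C1 / κ * ε = (C1 * ε) / κ := by field_simp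
    rw [h2, div_le_one hκ] at h1
    exact h1
  obtain ⟨P1, -⟩ := H2 D (a2.trans (by unfold SeaCB.r; linarith))
  have him : ∀ t, |(zt (gD η) t).im - eta t| ≤ C1 * ε := by
    intro t
    have h1 := D.e0 t
    have h2 := Complex.abs_im_le_norm (gD η t)
    have e1 : (zt (gD η) t).im - eta t = (gD η t).im := by
      unfold zt
      rw [Complex.add_im, ga_im]
      ring
    rw [e1]
    exact h2.trans h1
  refine ⟨{ P1 with
    im_ge := fun t => by
      have h1 := him t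
      have h2 := (hst t).1
      rw [abs_le] at h1
      linarith [h1.1]
    im_le := fun t => by
      have h1 := him t
      have h2 := (hst t).2
      rw [abs_le] at h1
      linarith [h1.2]
    dle := fun t => (P1.dle t).trans (by linarith)
    near := fun t => (P1.near t).trans (by linarith) }, fun t => (D.e0 t).trans (by linarith)⟩

/-! ### the potential -/

section

variable [SeaC]

/-- remaining one body potential, on the window -/
def E0 (s : Bool → ℝ) (R : ℝ) (η η1 : Bool → ℝ → ℝ) (F : Bool → ℂ → ℂ) (Er : Bool → ℝ → ℝ) (a : Bool) (x : ℝ) : ℝ :=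
  (∑ d, (gas s η η1 F).KB a d x).re + (F a (zt (gD (η a)) x) + Tb s a R (zt (gD (η a)) x)).re + Er a x

/-- remaining one body potential, clamped -/
def Ef (s : Bool → ℝ) (R b : ℝ) (η η1 : Bool → ℝ → ℝ) (F : Bool → ℂ → ℂ) (Er : Bool → ℝ → ℝ) (a : Bool) (x : ℝ) : ℝ :=
  E0 s R η η1 F Er a (cl b x)

variable {s : Bool → ℝ} {ε M b lam : ℝ} {e η η1 : Bool → ℝ → ℝ} {F : Bool → ℂ → ℂ} {Er : Bool → ℝ → ℝ}

lemma cur_zero (hc : ∀ a, Cur (s a) ε M b (e a) (η a)) (a : Bool) {y : ℝ} (hy : b < |y|) : η a y = 0 := by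
  have h1 := (hc a).oc.le y
  rw [(hc a).supp y hy] at h1
  have h2 := norm_le_zero_iff.1 h1
  unfold iD at h2
  have h3 := mul_eq_zero.1 h2
  rcases h3 with h3 | h3
  · exact_mod_cast h3
  · exact absurd h3 Complex.I_ne_zero

lemma zt_id (hc : ∀ a, Cur (s a) ε M b (e a) (η a)) (a : Bool) {y : ℝ} (hy : b < |y|) :
    zt (gD (η a)) y = ga y := by
  unfold zt gD iD
  rw [cur_zero hc a hy]
  simp

lemma zt_re_le {η : ℝ → ℝ} (h : ∀ t, ‖gD η t‖ ≤ 1) (x : ℝ) : |(zt (gD η) x).re| ≤ |x| + 1 := by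
  have q1 : (zt (gD η) x).re = x + (gD η x).re := by unfold zt; simp
  rw [q1]
  refine (abs_add_le _ _).trans ?_
  linarith [(Complex.abs_re_le_norm (gD η x)).trans (h x)]

end

section

variable (B : SeaCB) [SeaC] [SeaCU B]
variable {lo hi C κ : ℝ} {s : Bool → ℝ} {ε M b lam : ℝ} {e η η1 : Bool → ℝ → ℝ} {F : Bool → ℂ → ℂ} {Er : Bool → ℝ → ℝ}

include B

lemma im_l4 (S : Str B lo hi) {z : ℂ} (h1 : lo ≤ z.im) (h2 : z.im ≤ hi) : |z.im| ≤ l / 4 := by
  have a1 := S.h1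
  have a4 := S.h4
  have a5 := B.h1
  have hl := l_pos
  rw [abs_le]
  constructor <;> linarith

/-- `V = E + I` -/
theorem V_split (S : Str B lo hi) (hc : ∀ a, Cur (s a) ε M b (e a) (η a))
    (P' : ∀ a, SPath lo hi (1 / 2) C (zt (gD (η a))) (zd (gD1 (η a) (η1 a)))) (hg : ∀ a t, ‖gD (η a) t‖ ≤ 1)
    {R : ℝ} (hR : 1 ≤ R) (hbR : b < R)
    (hI : ∀ (a : Bool) (x : ℝ), |x| ≤ R → Iref R s η η1 a x =
      (∑ d, ∫ y in Icc (-R) R, (gas s η η1 F).K a d x y * ((s d * P y : ℝ) : ℂ)).re)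
    (a : Bool) {x : ℝ} (hx : |x| ≤ R - 2) :
    (vb s a (zt (gD (η a)) x)).re + (F a (zt (gD (η a)) x)).re + Er a x =
      E0 s R η η1 F Er a x + Iref R s η η1 a x := by
  have z1 : |(zt (gD (η a)) x).re| ≤ R - 1 := by
    have := zt_re_le (hg a) x
    linarith
  have z2 := im_l4 B S ((P' a).im_ge x) ((P' a).im_le x)
  have h1 := window_field (Fe := F) B s S P' hR (fun a y hy => zt_id hc a (lt_of_lt_of_le hbR hy)) a
    (by linarith : |x| ≤ R) z1 z2
  have h2 := congrArg Complex.re h1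
  rw [Complex.sub_re, Complex.add_re] at h2
  rw [hI a x (by linarith)]
  unfold E0
  rw [Complex.add_re]
  unfold gas
  linarith

/-- continuity of the clamped potential -/
lemma Ef_cont (hb0 : 0 ≤ b) (P' : ∀ a, SPath lo hi (1 / 2) C (zt (gD (η a))) (zd (gD1 (η a) (η1 a))))
    (hg : ∀ a t, ‖gD (η a) t‖ ≤ 1) {R : ℝ} (hR : 1 ≤ R) (hbR : b ≤ R) {Λ Ar : ℝ}
    (hQ : ∀ a d, KC1 R Λ (fun t => (((gas s η η1 F).KB a d t).re : ℂ)))
    (hG : ∀ (a : Bool) (z : ℂ), |z.re| ≤ b + 2 → lo < z.im → z.im < hi → DifferentiableAt ℂ (fun z => F a z + Tb s a R z) z)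
    (hst : ∀ a t, lo < (zt (gD (η a)) t).im ∧ (zt (gD (η a)) t).im < hi)
    (hE : ∀ a, Ext 4 b Ar (Er a)) (a : Bool) : Continuous (Ef s R b η η1 F Er a) := by
  have hR0 : (0:ℝ) ≤ R := by linarith
  have hcl := cl_cont b
  have hclR : ∀ x, cl R (cl b x) = cl b x := fun x => cl_eq ((cl_abs hb0 x).trans hbR)
  have h1 : ∀ d, Continuous fun x => ((gas s η η1 F).KB a d (cl b x)).re := by
    intro d
    have h := ((hQ a d).left.clamp hR0).1
    have h2 := h.comp (hcl.prodMk (continuous_const (y := (0:ℝ))))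
    refine h2.congr fun x => ?_
    simp only [Function.comp]
    rw [hclR]
  have h2 : Continuous fun x => (F a (zt (gD (η a)) (cl b x)) + Tb s a R (zt (gD (η a)) (cl b x))).re := by
    have hz : Continuous fun x => zt (gD (η a)) (cl b x) := (P' a).continuous.comp hcl
    refine Complex.continuous_re.comp (continuous_iff_continuousAt.2 fun x => ?_)
    have e1 := zt_re_le (hg a) (cl b x)
    have h3 := (hG a (zt (gD (η a)) (cl b x)) (by linarith [cl_abs hb0 x]) (hst a _).1 (hst a _).2).continuousAt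
    exact ContinuousAt.comp (g := fun z => F a z + Tb s a R z) (f := fun x => zt (gD (η a)) (cl b x)) h3
      hz.continuousAt
  have h3 : Continuous fun x => Er a (cl b x) := by
    obtain ⟨u, hu, huE⟩ := hE a
    refine (hu.cont.comp hcl).congr fun x => ?_
    exact huE _ (cl_abs hb0 x)
  unfold Ef E0
  have h4 : (fun x => (∑ d, (gas s η η1 F).KB a d (cl b x)).re +
      (F a (zt (gD (η a)) (cl b x)) + Tb s a R (zt (gD (η a)) (cl b x))).re + Er a (cl b x)) =
      fun x => ((gas s η η1 F).KB a true (cl b x)).re + ((gas s η η1 F).KB a false (cl b x)).re +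
        (F a (zt (gD (η a)) (cl b x)) + Tb s a R (zt (gD (η a)) (cl b x))).re + Er a (cl b x) := by
    funext x
    rw [Fintype.sum_bool, Complex.add_re]
  rw [h4]
  exact (((h1 true).add (h1 false)).add h2).add h3

end

/-- one body identity: `a = e^V` without Jacobian, `V = E + I` in the window -/
theorem one_relC {R : ℝ} {ψ ψ' ξ1 a V E I dk : ℝ → ℝ} {D1 : ℝ → ℂ} (hD : ∀ t, 1 + D1 t ≠ 0)
    (hψ' : ∀ x, ψ' x = 1 + ξ1 x)
    (hj : ∀ x, 0 < 1 + ξ1 x) (hR : ∀ x, |x| ≤ R → |ψ x| ≤ R)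
    (hd : ∀ x, dk x = 2 * Real.log (1 + ξ1 x) +
      2 * (Real.log ‖1 + D1 (ψ x)‖ - Real.log ‖1 + D1 x‖))
    (ha : ∀ x, |x| ≤ R → a x = Real.exp (V x)) (hV : ∀ x, |x| ≤ R → V x = E x + I x)
    {x : ℝ} (hx : |x| ≤ R) :
    (‖1 + D1 (ψ x)‖ * a (ψ x)) * ψ' x =
      (‖1 + D1 x‖ * a x) * Real.exp (E (ψ x) - E x + (I (ψ x) - I x) + 1 / 2 * dk x) := by
  have h1 : 0 < ‖1 + D1 (ψ x)‖ := norm_pos_iff.2 (hD _)
  have h2 : 0 < ‖1 + D1 x‖ := norm_pos_iff.2 (hD _)
  rw [ha _ (hR x hx), ha x hx, hψ' x, hV _ (hR x hx), hV x hx]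
  have e1 : ‖1 + D1 (ψ x)‖ = Real.exp (Real.log ‖1 + D1 (ψ x)‖) := (Real.exp_log h1).symm
  have e2 : ‖1 + D1 x‖ = Real.exp (Real.log ‖1 + D1 x‖) := (Real.exp_log h2).symm
  have e3 : 1 + ξ1 x = Real.exp (Real.log (1 + ξ1 x)) := (Real.exp_log (hj x)).symm
  rw [e1, e2, e3, hd x]
  simp only [← Real.exp_add]
  congr 1
  ring

/-- closing numbers -/
lemma num_fld {K2 K3 R M ε lam : ℝ} (hK2 : 1 ≤ K2) (hK3 : 1 ≤ K3) (hR : 1 ≤ R) (hM : 0 ≤ M) (hε : 0 ≤ ε) (hl : 0 ≤ lam) :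
    K2 * (R ^ 5 * (M * ε) + R * M * (K3 * R ^ 20 * (ε + lam) + lam * (K3 * R ^ 20))) ≤
      3 * (K2 * K3) * (R ^ 24 * (M * (ε + lam))) := by
  have h5 : R ^ 5 ≤ R ^ 24 := pow_le_pow_right₀ hR (by norm_num)
  have h21 : R ^ 21 ≤ R ^ 24 := pow_le_pow_right₀ hR (by norm_num)
  have e1 : R ^ 5 * (M * ε) ≤ K3 * (R ^ 24 * (M * (ε + lam))) := by
    calc R ^ 5 * (M * ε) ≤ R ^ 24 * (M * (ε + lam)) := by
          gcongr
          linarith
      _ ≤ _ := le_mul_of_one_le_left (by positivity) hK3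
  have e2 : R * M * (K3 * R ^ 20 * (ε + lam) + lam * (K3 * R ^ 20)) ≤ 2 * K3 * (R ^ 24 * (M * (ε + lam))) := by
    calc R * M * (K3 * R ^ 20 * (ε + lam) + lam * (K3 * R ^ 20)) = K3 * (R ^ 21 * (M * (ε + 2 * lam))) := by ring
      _ ≤ K3 * (R ^ 24 * (M * (2 * (ε + lam)))) := by
          gcongr
          linarith
      _ = _ := by ring
  calc K2 * (R ^ 5 * (M * ε) + R * M * (K3 * R ^ 20 * (ε + lam) + lam * (K3 * R ^ 20))) ≤
        K2 * (K3 * (R ^ 24 * (M * (ε + lam))) + 2 * K3 * (R ^ 24 * (M * (ε + lam)))) :=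
        mul_le_mul_of_nonneg_left (add_le_add e1 e2) (by linarith)
    _ = _ := by ring

/-- **the one body data of the two species** -/
theorem exists_fieldC (B : SeaCB) {lo hi κ : ℝ} (S : Str B lo hi) (hκ : 0 < κ) (hκ1 : κ ≤ 1 / 4)
    (hm : ∀ [SeaC] [SeaCU B], ∀ t, lo + κ ≤ eta t ∧ eta t + κ ≤ hi) : ∃ K : ℝ, 1 ≤ K ∧ ∀ [SeaC] [SeaCU B],
    ∀ {s : Bool → ℝ} {ε M b lam A Ar : ℝ} {e η η1 : Bool → ℝ → ℝ} {F : Bool → ℂ → ℂ} {Er ab : Bool → ℝ → ℝ} (R : ℝ),
    1 ≤ R → b + 3 ≤ R → (∀ a, 0 ≤ s a) →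
    (∀ a, Cur (s a) ε M b (e a) (η a)) → (∀ a t, HasDerivAt (η a) (η1 a t) t) →
    K * R ^ 20 * (ε + lam) ≤ 1 → 0 ≤ A →
    (∀ (a : Bool) (z : ℂ), |z.re| ≤ b + 2 → lo < z.im → z.im < hi → DifferentiableAt ℂ (F a) z ∧ ‖F a z‖ ≤ A) →
    (∀ a, Ext 4 b Ar (Er a)) → (∀ a x, 0 ≤ ab a x) → (∀ a, Measurable (ab a)) →
    (∀ a x, |x| ≤ b → ab a x = Real.exp ((vb s a (zt (gD (η a)) x)).re +
      (F a (zt (gD (η a)) x)).re + Er a x)) →
    ∀ (ψ ψ' : Bool → ℝ → ℝ), (∀ a, Xi lam b (fun t => ψ a t - t) (fun t => ψ' a t - 1)) → ∀ a,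
    OB R (K * (R ^ 24 * (M * (ε + lam)) + R ^ 3 * ((A + (s true + s false) * Real.exp (-2 * R) + Ar) * lam)))
      (ψ a) (ψ' a) (fun t => ‖1 + Dt1 (η a) (η1 a) t‖ * ab a t) (Ef s R b η η1 F Er a) (Iref R s η η1 a)
      (kw (Dt (η a)) (Dt1 (η a) (η1 a))) (kTC (η a) (η1 a) (ψ a) (ψ' a)) := by
  obtain ⟨K1, hK1, H1⟩ := exists_Iref B
  obtain ⟨K0, hK0, H0⟩ := exists_pathC B (lo := lo + κ / 2) (hi := hi - κ / 2) (κ := κ / 2) (by linarith)
  obtain ⟨K2, hK2, H2⟩ := exists_Qinc B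
  obtain ⟨K3, hK3, H3⟩ := exists_KS B
  obtain ⟨Ct, hCt, Ht⟩ := exists_Tb B
  obtain ⟨C4, hC4, H4⟩ := exists_anC B hκ hκ1 (lo := lo) (hi := hi)
  obtain ⟨C5, hC5, H5⟩ := NUR2.ext_delta 3
  obtain ⟨C6, hC6, H6⟩ := NUR2.exists_KC1_of_O
  obtain ⟨K7, hK7, H7⟩ := exists_Dt B
  have g1 : 0 ≤ C6 * (C4 * (1 + Ct) + C5) := by positivity
  have g2 : 0 ≤ K2 * K3 := by positivity
  refine ⟨K1 + K0 + K2 + K3 + C4 + K7 + 6 * (K2 * K3) + C6 * (C4 * (1 + Ct) + C5), by linarith, ?_⟩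
  intro _ _ s ε M b lam A Ar e η η1 F Er ab R hR hbR hs hc hη hsm hA hF hE ha0 ham hab ψ ψ' hψ a
  have hR0 : (0:ℝ) ≤ R := by linarith
  have hb0 := (hψ true).b0
  have hε0 := (hc true).ε0
  have hM0 := (hc true).M0 B (hs true)
  have hlam0 := (hψ true).lam0
  have hlam1 := (hψ true).lam1
  have hAr0 := (hE true).nonneg
  have hR20 : (1:ℝ) ≤ R ^ 20 := one_le_pow₀ hR
  -- smallness
  have sm0 : ∀ K' : ℝ, 0 ≤ K' → K' ≤ K1 + K0 + K2 + K3 + C4 + K7 + 6 * (K2 * K3) + C6 * (C4 * (1 + Ct) + C5) →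
      K' * R ^ 20 * (ε + lam) ≤ 1 := fun K' h0 h => by
    refine le_trans ?_ hsm
    gcongr
  have sm1 : ∀ K' : ℝ, 0 ≤ K' → K' ≤ K1 + K0 + K2 + K3 + C4 + K7 + 6 * (K2 * K3) + C6 * (C4 * (1 + Ct) + C5) →
      K' * ε ≤ 1 := fun K' h0 h => by
    refine le_trans ?_ (sm0 K' h0 h)
    calc K' * ε = K' * 1 * (ε + 0) := by ring
      _ ≤ K' * R ^ 20 * (ε + lam) := by gcongr
  have t1 := sm1 K1 (by linarith) (by linarith)
  have t0 := sm1 K0 (by linarith) (by linarith)
  have t2 := sm1 K2 (by linarith) (by linarith)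
  have t4 := sm1 C4 (by linarith) (by linarith)
  have t7 := sm1 K7 (by linarith) (by linarith)
  have t3 := sm0 K3 (by linarith) (by linarith)
  have hst : ∀ t, lo + κ ≤ eta t ∧ eta t + κ ≤ hi := hm
  have hst' : ∀ t, lo + κ / 2 + κ / 2 ≤ eta t ∧ eta t + κ / 2 ≤ hi - κ / 2 := fun t => by
    obtain ⟨h1, h2⟩ := hst t
    constructor <;> linarith
  have PP := fun a => H0 hst' (hs a) t0 (hc a) (hη a)
  have P' : ∀ a, SPath lo hi (1 / 2) K0 (zt (gD (η a))) (zd (gD1 (η a) (η1 a))) := fun a =>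
    (PP a).1.weaken (by linarith) (by linarith)
  have hg : ∀ a t, ‖gD (η a) t‖ ≤ 1 := fun a => (PP a).2
  have hin : ∀ a t, lo < (zt (gD (η a)) t).im ∧ (zt (gD (η a)) t).im < hi := fun a t =>
    ⟨by linarith [(PP a).1.im_ge t], by linarith [(PP a).1.im_le t]⟩
  have hI := fun a x hx => H1 (F := F) R S hR0 hs t1 P' hc hη a x hx
  have hKS := H3 (ξ := fun a t => ψ a t - t) (ξ1 := fun a t => ψ' a t - 1) R hR hs hc hη hψ t3
  have hQ := fun a d => H2 R hR (by linarith : b ≤ R) hs hc hη hψ t2 hKS F a d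
  have hss : 0 ≤ s true + s false := add_nonneg (hs true) (hs false)
  have hG : ∀ (a : Bool) (z : ℂ), |z.re| ≤ b + 2 → lo < z.im → z.im < hi →
      DifferentiableAt ℂ (fun z => F a z + Tb s a R z) z ∧
      ‖F a z + Tb s a R z‖ ≤ A + Ct * (s true + s false) * Real.exp (-2 * R) := by
    intro a z h1 h2 h3
    obtain ⟨f1, f2⟩ := hF a z h1 h2 h3
    obtain ⟨u1, u2⟩ := Ht s R hs hR a z (by linarith) (im_l4 B S h2.le h3.le)
    exact ⟨f1.add u1, (norm_add_le _ _).trans (add_le_add f2 u2)⟩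
  have hA' : 0 ≤ A + Ct * (s true + s false) * Real.exp (-2 * R) := by positivity
  have hψ1 : ∀ a t, t + (ψ a t - t) = ψ a t := fun a t => by ring
  have hψin : ∀ {t : ℝ}, |t| ≤ b → |ψ a t| ≤ b := by
    intro t ht
    have := (hψ a).maps ht
    rwa [hψ1] at this
  have hψout : ∀ {t : ℝ}, b < |t| → ψ a t = t := by
    intro t ht
    have := (hψ a).zero t ht
    linarith
  have hD1 : ∀ t, 1 + Dt1 (η a) (η1 a) t ≠ 0 := fun t =>
    one_add_ne (((H7 (hs a) t7 (hc a) (hη a)).2.1 t).trans (by norm_num))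
  have hd : ∀ x, kTC (η a) (η1 a) (ψ a) (ψ' a) x x - kw (Dt (η a)) (Dt1 (η a) (η1 a)) x x =
      2 * Real.log (1 + (ψ' a x - 1)) +
      2 * (Real.log ‖1 + Dt1 (η a) (η1 a) (ψ a x)‖ - Real.log ‖1 + Dt1 (η a) (η1 a) x‖) := by
    intro x
    have h0 := comp_diag (ξ := fun t => ψ a t - t) (D := Dt (η a)) (hψ a).pos hD1 x
    simp only [hψ1] at h0
    exact h0
  -- `ξ` vanishes at the boundary
  have hξb : ∀ x, b ≤ |x| → ψ a x - x = 0 := by
    intro x hx
    rcases hx.lt_or_eq with h | h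
    · exact (hψ a).zero x h
    · -- continuity at the boundary
      have hcx : Continuous fun t => ψ a t - t := (hψ a).o.cont
      by_contra hne
      have hopen : ∀ᶠ y in 𝓝 x, ψ a y - y ≠ 0 := hcx.continuousAt.eventually_ne hne
      have hfr : ∃ᶠ y in 𝓝 x, b < |y| := by
        rcases le_or_gt 0 x with h0 | h0
        · have hx' : x = b := by rw [h, abs_of_nonneg h0]
          have h5 : ∃ᶠ y in 𝓝[>] x, b < |y| := by
            apply Eventually.frequently
            filter_upwards [self_mem_nhdsWithin] with y hy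
            rw [mem_Ioi, hx'] at hy
            exact lt_of_lt_of_le hy (le_abs_self y)
          exact h5.filter_mono nhdsWithin_le_nhds
        · have hx' : -x = b := by rw [h, abs_of_neg h0]
          have h5 : ∃ᶠ y in 𝓝[<] x, b < |y| := by
            apply Eventually.frequently
            filter_upwards [self_mem_nhdsWithin] with y hy
            rw [mem_Iio] at hy
            have := neg_abs_le y
            linarith
          exact h5.filter_mono nhdsWithin_le_nhds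
      obtain ⟨y, hy1, hy2⟩ := (hfr.and_eventually hopen).exists
      exact hy2 ((hψ a).zero y hy1)
  refine ⟨fun x => mul_nonneg (norm_nonneg _) (ha0 a x), ?_, ?_, fun x hx => ?_, ?_⟩
  · have hm1 : Measurable fun t => Dt1 (η a) (η1 a) t := (H7 (hs a) t7 (hc a) (hη a)).1.measurable
    exact ((measurable_const.add hm1).norm).mul (ham a)
  · exact Ef_cont B hb0 P' hg hR (by linarith) (fun a d => (hQ a d).1) (fun a z h1 h2 h3 => (hG a z h1 h2 h3).1)
      hin hE a
  · rcases le_or_gt |x| b with hxb | hxb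
    · exact one_relC (R := b) (ψ := ψ a) (ψ' := ψ' a) (ξ1 := fun t => ψ' a t - 1) (D1 := Dt1 (η a) (η1 a)) (a := ab a)
        (V := fun x => (vb s a (zt (gD (η a)) x)).re + (F a (zt (gD (η a)) x)).re + Er a x)
        (E := Ef s R b η η1 F Er a) (I := Iref R s η η1 a)
        (dk := fun x => kTC (η a) (η1 a) (ψ a) (ψ' a) x x - kw (Dt (η a)) (Dt1 (η a) (η1 a)) x x)
        hD1 (fun x => by ring) (hψ a).pos (fun x hx => hψin hx) hd (hab a)
        (fun x hx => by
          unfold Ef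
          rw [cl_eq hx]
          exact V_split B S hc P' hg hR (by linarith) hI a (by linarith)) hxb
    · have hz := hψout hxb
      have hz1 : ψ' a x = 1 := by
        have e1 : (fun t => ψ a t - t) =ᶠ[𝓝 x] fun _ => 0 := by
          filter_upwards [(continuous_abs.tendsto x).eventually (lt_mem_nhds hxb)] with y hy
          exact (hψ a).zero y hy
        have e2 := ((hψ a).d x).unique ((hasDerivAt_const x (0:ℝ)).congr_of_eventuallyEq e1)
        linarith
      have h2 := hd x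
      rw [hz, hz1] at h2
      simp only [sub_self, add_zero, Real.log_one, mul_zero] at h2
      rw [h2, hz, hz1, sub_self, sub_self, mul_zero, add_zero, add_zero, Real.exp_zero]
  · -- smallness
    have e0 : ∀ x, Ef s R b η η1 F Er a (ψ a x) - Ef s R b η η1 F Er a x =
        E0 s R η η1 F Er a (ψ a x) - E0 s R η η1 F Er a x := by
      intro x
      rcases le_or_gt |x| b with hxb | hxb
      · unfold Ef
        rw [cl_eq hxb, cl_eq (hψin hxb)]
      · rw [hψout hxb, sub_self, sub_self]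
    have q1 := H4 (b := b) (lam := lam) (A := A + Ct * (s true + s false) * Real.exp (-2 * R))
      (F := fun z => F a z + Tb s a R z) (ξ := fun t => ψ a t - t) hst (hc a) (hη a) t4 (by linarith) hA'
      (hG a) (hψ a).o.lower hξb (fun x hx => (hψ a).maps hx)
    have q2 := H5 (b := b) (hE a) (hψ a).o.lower (by linarith) hξb (fun x hx => (hψ a).maps hx)
    have k1 := (H6 R hR _ _ (q1.add q2)).left
    have k2 := (hQ a true).2.left.add (hQ a false).2.left
    have k3 := k1.add k2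
    refine (k3.mono ?_).congr fun x y hx hy => ?_
    · have n1 := num_fld (M := M) hK2 hK3 hR hM0 hε0 hlam0
      have m0 : 0 ≤ M * (ε + lam) := mul_nonneg hM0 (by linarith)
      have hexp : 0 ≤ (s true + s false) * Real.exp (-2 * R) := by positivity
      have z2 : C6 * R ^ 3 * (C4 * (A + Ct * (s true + s false) * Real.exp (-2 * R)) * lam + C5 * (Ar * lam)) ≤
          C6 * (C4 * (1 + Ct) + C5) * (R ^ 3 * ((A + (s true + s false) * Real.exp (-2 * R) + Ar) * lam)) := by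
        have h1 : C4 * (A + Ct * (s true + s false) * Real.exp (-2 * R)) ≤
            C4 * (1 + Ct) * (A + (s true + s false) * Real.exp (-2 * R)) := by
          have : 0 ≤ C4 * (Ct * A + (s true + s false) * Real.exp (-2 * R)) := by positivity
          nlinarith
        have h2 : C4 * (1 + Ct) * (A + (s true + s false) * Real.exp (-2 * R)) + C5 * Ar ≤
            (C4 * (1 + Ct) + C5) * (A + (s true + s false) * Real.exp (-2 * R) + Ar) := by
          have h3 : 0 ≤ C4 * (1 + Ct) * Ar := by positivity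
          have h4 : 0 ≤ C5 * (A + (s true + s false) * Real.exp (-2 * R)) := by positivity
          nlinarith
        calc C6 * R ^ 3 * (C4 * (A + Ct * (s true + s false) * Real.exp (-2 * R)) * lam + C5 * (Ar * lam)) =
              C6 * R ^ 3 * ((C4 * (A + Ct * (s true + s false) * Real.exp (-2 * R)) + C5 * Ar) * lam) := by ring
          _ ≤ C6 * R ^ 3 * ((C4 * (1 + Ct) + C5) * (A + (s true + s false) * Real.exp (-2 * R) + Ar) * lam) := by
              gcongr
              linarith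
          _ = _ := by ring
      have w1 : 0 ≤ R ^ 24 * (M * (ε + lam)) := by positivity
      have w2 : 0 ≤ R ^ 3 * ((A + (s true + s false) * Real.exp (-2 * R) + Ar) * lam) := by positivity
      have z3 : 0 ≤ (K1 + K0 + K2 + K3 + C4 + K7) * (R ^ 24 * (M * (ε + lam)) +
          R ^ 3 * ((A + (s true + s false) * Real.exp (-2 * R) + Ar) * lam)) := by positivity
      have z4 : 0 ≤ 6 * (K2 * K3) * (R ^ 3 * ((A + (s true + s false) * Real.exp (-2 * R) + Ar) * lam)) := by positivity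
      have z5 : 0 ≤ C6 * (C4 * (1 + Ct) + C5) * (R ^ 24 * (M * (ε + lam))) := by positivity
      linarith
    · rw [e0]
      unfold E0
      simp only [Fintype.sum_bool, Complex.add_re, hψ1]
      push_cast
      ring

/-- **the one body data, literal form**: the potentials `EX`, `EY` do not depend on the transports -/
theorem exists_OBKC (B : SeaCB) {lo hi κ : ℝ} (S : Str B lo hi) (hκ : 0 < κ) (hκ1 : κ ≤ 1 / 4)
    (hm : ∀ [SeaC] [SeaCU B], ∀ t, lo + κ ≤ eta t ∧ eta t + κ ≤ hi) : OBKSt B lo hi := by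
  obtain ⟨K, hK, H⟩ := exists_fieldC B S hκ hκ1 hm
  refine ⟨K, hK, ?_⟩
  intro _ _ s ε M b A Ar eX eY ηX ηX1 ηY ηY1 ErX ErY aX aY FX FY R hR hbR hs hcX hcY hX hY hA hFX hFY hEX hEY
    aX0 aY0 aXm aYm haX haY
  refine ⟨Ef s R b (fun a => cond a ηX ηY) (fun a => cond a ηX1 ηY1) (fun a => cond a FX FY)
    (fun a => cond a ErX ErY) true, Ef s R b (fun a => cond a ηX ηY) (fun a => cond a ηX1 ηY1)
    (fun a => cond a FX FY) (fun a => cond a ErX ErY) false, fun lam ψX ψX' ψY ψY' hsm hψX hψY => ?_⟩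
  have key := H (e := fun a => cond a eX eY) (η := fun a => cond a ηX ηY) (η1 := fun a => cond a ηX1 ηY1)
    (F := fun a => cond a FX FY) (Er := fun a => cond a ErX ErY) (ab := fun a => cond a aX aY) (lam := lam)
    (A := A) (Ar := Ar) R hR hbR hs
    (fun a => by cases a; exacts [hcY, hcX]) (fun a => by cases a; exacts [hY, hX]) hsm hA
    (fun a => by cases a; exacts [hFY, hFX]) (fun a => by cases a; exacts [hEY, hEX])
    (fun a => by cases a; exacts [aY0, aX0]) (fun a => by cases a; exacts [aYm, aXm])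
    (fun a => by cases a; exacts [haY, haX]) (fun a => cond a ψX ψY) (fun a => cond a ψX' ψY')
    (fun a => by cases a; exacts [hψY, hψX])
  exact ⟨key true, key false⟩

/-- **the one body data** in every strip which contains all static curves with a margin -/
theorem exists_OBKB (B : SeaCB) {lo hi : ℝ} (S : Str B lo hi) (h1 : lo < -B.d) (h2 : B.top < hi) :
    OBKSt B lo hi := by
  refine exists_OBKC B (κ := min (1 / 4) (min (-B.d - lo) (hi - B.top))) S
    (lt_min (by norm_num) (lt_min (by linarith) (by linarith))) (min_le_left _ _) (@fun _ _ t => ?_)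
  have a1 := eta_lo B t
  have a2 := eta_top B t
  have a3 : min (1 / 4) (min (-B.d - lo) (hi - B.top)) ≤ -B.d - lo := (min_le_right _ _).trans (min_le_left _ _)
  have a4 : min (1 / 4) (min (-B.d - lo) (hi - B.top)) ≤ hi - B.top := (min_le_right _ _).trans (min_le_right _ _)
  constructor <;> linarith

end

end PLT.Cv

/-- **the field data of all modes** over a sea on a static curve -/
theorem PLT.exists_FDC (B : PLT.SeaCB) {lo hi : ℝ} (S : PLT.Cv.Str B lo hi) (h1 : lo < -B.d)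
    (h2 : B.top < hi) : PLT.FDSt B lo hi :=
  PLT.fdc_of B (PLT.Cv.exists_OBKB B S h1 h2)
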