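import Pool.Agent.PLT.H1fS
import Pool.Agent.PLT.KersC
import Pool.Agent.PLT.KsV

/-!
# Sea on a curve: (H1) with a penalty, without hypothesis

`h1FinSt`: the statement `H1FinSt B` of `PLT/H1gC`, with all kernels (`exists_kersC`) and the decay of the static
kernels (`ks_dec`).
-/

set_option autoImplicit false

namespace PLT

/-- **(H1) with a penalty over the field data of the modes** -/
theorem h1FinSt (B : SeaCB) : H1FinSt B := h1FinSt_of B (exists_kersC B) (ks_dec B)

end PLT
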