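import Pool.Agent.PLT.SharpC
import Pool.Agent.PLT.H1fW
import Pool.Agent.PLT.FieldTC

/-!
# The sharp bound of the positive gas on a static curve, no hypothesis

`h1_fullK`, `sharpStK`: the full form of (H1) and **the sharp bound `SharpSt B lo hi`** for every strip
`lo < Im z < hi` which contains the static curves with a margin `κ`;
**`sharpStC`**: for `lo < - B.d`, `B.top < hi`.
-/

set_option autoImplicit false
set_option linter.unusedSectionVars false

namespace PLT

noncomputable section

/-- (H1) over a sea on a static curve, full form; the static curves have distance `κ` to the boundary of the strip -/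
theorem h1_fullK (B : SeaCB) {lo hi κ : ℝ} (S : Cv.Str B lo hi) (hκ : 0 < κ) (hκ1 : κ ≤ 1 / 4)
    (hm : ∀ [SeaC] [SeaCU B], ∀ t, lo + κ ≤ Cv.eta t ∧ Cv.eta t + κ ≤ hi) : H1Full B lo hi :=
  h1_full_of B (fdc_of B (Cv.exists_OBKC B S hκ hκ1 hm)) (h1FinSt B)

/-- **the sharp bound of the positive gas** on a static curve; margin `κ` -/
theorem sharpStK (B : SeaCB) {lo hi κ : ℝ} (S : Cv.Str B lo hi) (hκ : 0 < κ) (hκ1 : κ ≤ 1 / 4)
    (hm : ∀ [SeaC] [SeaCU B], ∀ t, lo + κ ≤ Cv.eta t ∧ Cv.eta t + κ ≤ hi) : SharpSt B lo hi :=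
  sharp_of (h1_fullK B S hκ hκ1 hm)

/-- **the sharp bound of the positive gas** on a static curve -/
theorem sharpStC (B : SeaCB) {lo hi : ℝ} (S : Cv.Str B lo hi) (h1 : lo < -B.d) (h2 : B.top < hi) :
    SharpSt B lo hi := by
  refine sharpStK B (κ := min (1 / 4) (min (-B.d - lo) (hi - B.top))) S
    (lt_min (by norm_num) (lt_min (by linarith) (by linarith))) (min_le_left _ _) (@fun _ _ t => ?_)
  have a1 := Cv.eta_lo B t
  have a2 := Cv.eta_top B t
  have a3 : min (1 / 4) (min (-B.d - lo) (hi - B.top)) ≤ -B.d - lo := (min_le_right _ _).trans (min_le_left _ _)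
  have a4 : min (1 / 4) (min (-B.d - lo) (hi - B.top)) ≤ hi - B.top :=
    (min_le_right _ _).trans (min_le_right _ _)
  constructor <;> linarith

end

end PLT
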