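import Pool.Agent.PLT.DatCC
import Pool.Agent.NUO.DispW

/-!
# Inputs of the instance of a configuration on a static curve (statements)

* `KC0 B`: the static kernels of the class;
* `RemC B Q`: the remainder `phiC`: `C¹`, size, local energy; the charged parts of the objects give `r M / σ`
  (`σ` a lower bound of the numbers of rows), the constant does not depend on the size `A` of their densities;
* `KdC B Q`: the moving kernels `kd` of the data.
-/

set_option autoImplicit false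
set_option linter.unusedSectionVars false
set_option linter.unusedVariables false

noncomputable section

open MeasureTheory Finset

namespace PLT.Cv

open NUKer (KC)
open NUDispW (win)
open NUSea.PLX.H0 (Inp)

/-- the static kernels of the class -/
def KC0 (B : SeaCB) : Set (Bool → Bool → ℝ → ℝ → ℝ) :=
  {k | ∃ (S : SeaC) (_ : @SeaCU B S), k = @ksC S}

/-- energy of `wO` on the window -/
def NWC [SeaC] (I : Inp) (T : ℝ) (a : Bool) : ℝ :=
  ∫ t in (-(T + 1))..(T + 1), (Sp.wOC (zI I) I a t ^ 2 + deriv (Sp.wOC (zI I) I a) t ^ 2)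

/-- **the remainder** -/
def RemC (B : SeaCB) (Q : Par7) : Prop :=
  ∃ K : ℝ, 1 ≤ K ∧ ∀ [SeaC] [SeaCU B], ∀ {ε M b : ℝ} {e : ℝ → ℝ} {I : Inp},
    IOkC B Q.lo Q.hi Q.Cp ε M b e I → K * ε ≤ 1 → ∀ {CB σ : ℝ}, 0 < σ → (∀ a, σ ≤ I.s a) →
    (∀ t, |hd (I.s true) (I.η true) (I.η1 true) t| ≤ CB) → (∀ a t, |I.ν a t| ≤ CB) →
    ∀ {A εo : ℝ} {r : ℕ} {O : Fin r → Oc},
    (∀ i, (O i).Ok (Q.lo - Q.w) (Q.hi + Q.w) Q.kd A εo Q.c) → ∀ a,
      ContDiff ℝ 1 (phiC I O a) ∧
      (∀ t, |phiC I O a t| ≤ K * (1 + CB + M * ε + (1 + εo + M / σ) * r) + |Sp.wOC (zI I) I a t|) ∧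
      ∀ T, 0 ≤ T → Gs.Nl (datC I O) T a ≤ K * (1 + CB ^ 2 + (M * ε) ^ 2 * (b + T + 1) + (r * M / σ) ^ 2 +
        (ε ^ 2 + εo ^ 2) * win univ (fun i => (O i).h)) + 5 * NWC I T a

/-- **the moving kernels**: `M / σ` (`σ` a lower bound of the numbers of rows) bounds the part which does not decay
in the distance (the real part of the displacement of a bent curve); `KC` on the squares where the bound is at most
one -/
def KdC (B : SeaCB) (Q : Par7) : Prop :=
  ∃ (K : ℝ) (J : ℕ), 1 ≤ K ∧ ∀ [SeaC] [SeaCU B], ∀ {ε M b : ℝ} {e : ℝ → ℝ} {I : Inp},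
    IOkC B Q.lo Q.hi Q.Cp ε M b e I → K * ε ≤ 1 → ∀ {σ : ℝ}, 0 < σ → (∀ a, σ ≤ I.s a) →
    ∀ {r : ℕ} {O : Fin r → Oc},
    (∀ a d t t', b < |t| → b < |t'| → (datC I O).kd a d t t' = 0) ∧
    (∀ a d t t', |(datC I O).kd a d t t'| ≤ K * ε * Real.exp (-|t - t'|) +
      K * (M / σ) * (Real.exp (-|t|) + Real.exp (-|t'|))) ∧
    ∀ R, 1 ≤ R → K * R ^ J * ε ≤ 1 → ∀ a d,
      KC R (K * R ^ J * ε) (fun t t' => (((datC I O).kd a d t t' : ℝ) : ℂ))

end PLT.Cv

end
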