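import Pool.Agent.PLT.F2Cut

/-!
# Double Fourier series of smooth kernels: from the series to the class `KC` (helper78)

`KC_of_sum` : absolutely convergent double series of exponentials; `KC_four` : **(F2), (F3)** from the double Fourier series (`Four`)
and the sum of the weights (`WfS`).
-/

set_option autoImplicit false

open MeasureTheory Set Filter Topology Complex

namespace PLT.F2

open NUKer Finset

noncomputable section

/-- (F1) as a statement -/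
def Four : Prop := ∀ {L M J : ℝ}, 0 < L → 0 ≤ M → ∀ {ρ : ℝ → ℝ}, Continuous ρ → (∀ t, 0 ≤ ρ t) →
    ∫ t in (-L)..L, ρ t ≤ 2 * L * J → ∀ {F : ℝ → ℝ → ℂ} {A B : ℕ → ℝ → ℝ → ℂ}, T6 L M ρ F A B →
    (∀ t s, L ≤ |t| ∨ L ≤ |s| → F t s = 0) →
    ∃ c : ℤ → ℤ → ℂ, (∀ m n, ‖c m n‖ ≤ 64 * M * J ^ 2 * (wf L m * wf L n)) ∧
      ∀ t s, |t| ≤ L → |s| ≤ L → HasSum (fun p : ℤ × ℤ => c p.1 p.2 *
        cexp (((Real.pi * p.1 / L * t + Real.pi * p.2 / L * s : ℝ) : ℂ) * I)) (F t s)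

/-- the sum of the weights as a statement -/
def WfS : Prop := ∀ L : ℝ, 1 ≤ L → ∀ s : Finset ℤ, ∑ m ∈ s, wf L m * (1 + Real.pi * |(m : ℝ)| / L) ≤ 2 * L

lemma KC.of_le {R R' Λ : ℝ} {κ : ℝ → ℝ → ℂ} (h : KC R' Λ κ) (hR : R ≤ R') : KC R Λ κ := by
  intro ε hε
  obtain ⟨ι, hι, c, a, b, h1, h2⟩ := h ε hε
  exact ⟨ι, hι, c, a, b, h1, fun t t' ht ht' => h2 t t' (ht.trans hR) (ht'.trans hR)⟩

/-- absolutely convergent double series -/
theorem KC_of_sum {R D : ℝ} {F : ℝ → ℝ → ℂ} {c : ℤ × ℤ → ℂ} {x y : ℤ × ℤ → ℝ}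
    (hc : ∀ s : Finset (ℤ × ℤ), ∑ p ∈ s, ‖c p‖ * (1 + |x p| + |y p|) ≤ D)
    (hF : ∀ t t' : ℝ, |t| ≤ R → |t'| ≤ R → HasSum (fun p => c p * cexp (((x p * t + y p * t' : ℝ) : ℂ) * I)) (F t t')) :
    KC R D F := by
  have hsum : Summable fun p => ‖c p‖ := by
    refine summable_of_sum_le (c := D) (fun _ => norm_nonneg _) fun s => (sum_le_sum fun p _ => ?_).trans (hc s)
    exact le_mul_of_one_le_right (norm_nonneg _) (by linarith [abs_nonneg (x p), abs_nonneg (y p)])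
  intro ε hε
  have ht := tendsto_tsum_compl_atTop_zero fun p => ‖c p‖
  obtain ⟨S, hS⟩ := ((tendsto_order.1 ht).2 ε hε).exists
  refine ⟨S, inferInstance, fun i => c i, fun i => x i, fun i => y i, ?_, fun t t' h1 h2 => ?_⟩
  · rw [Finset.sum_coe_sort S fun p => ‖c p‖ * (1 + |x p| + |y p|)]
    exact hc S
  · rw [Finset.sum_coe_sort S fun p => c p * cexp (((x p * t + y p * t' : ℝ) : ℂ) * I)]
    have h3 := hF t t' h1 h2
    have hn : ∀ p, ‖c p * cexp (((x p * t + y p * t' : ℝ) : ℂ) * I)‖ = ‖c p‖ := fun p => by rw [norm_mul, norm_e, mul_one]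
    have h4 := h3.summable.sum_add_tsum_compl (s := S)
    rw [h3.tsum_eq] at h4
    rw [← h4, add_sub_cancel_left]
    refine (norm_tsum_le_tsum_norm ?_).trans ?_
    · simp only [hn]
      exact hsum.subtype _
    · simp only [hn]
      exact hS.le

/-- **(F2), (F3)** -/
theorem KC_four (h1 : Four) (h2 : WfS) : ∃ C : ℝ, 1 ≤ C ∧ ∀ {M J R : ℝ} {ρ : ℝ → ℝ} {F : ℝ → ℝ → ℂ} {A B : ℕ → ℝ → ℝ → ℂ}, 1 ≤ R →
    Continuous ρ → (∀ t, 0 ≤ ρ t) → ∫ t in (-(2 * R))..(2 * R), ρ t ≤ 2 * (2 * R) * J → T6 (2 * R) M ρ F A B → 0 ≤ M →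
    KC R (1024 * C * M * J ^ 2 * R ^ 2) F := by
  obtain ⟨C, hC, hcut⟩ := T6.cut
  refine ⟨C, hC, fun {M J R ρ F A B} hR hρ hρ0 hJ hT hM => ?_⟩
  have hR0 : 0 < R := by linarith
  obtain ⟨A', B', hT'⟩ := hcut hR hT
  obtain ⟨c, hc, hs⟩ := h1 (by linarith : 0 < 2 * R) (by positivity : 0 ≤ C * M) hρ hρ0 hJ hT' (fun t s hts => by
    rcases hts with h | h
    · rw [cf_zero hR0 (by linarith : 3 / 2 * R ≤ |t|), zero_mul, zero_mul]
    · rw [cf_zero hR0 (by linarith : 3 / 2 * R ≤ |s|), mul_zero, zero_mul])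
  have hw0 : ∀ m : ℤ, 0 ≤ wf (2 * R) m := fun m => by unfold wf; positivity
  have habs : ∀ m : ℤ, |Real.pi * (m : ℝ) / (2 * R)| = Real.pi * |(m : ℝ)| / (2 * R) := fun m => by
    rw [abs_div, abs_mul, abs_of_pos Real.pi_pos, abs_of_pos (by linarith : 0 < 2 * R)]
  refine KC_of_sum (c := fun p => c p.1 p.2) (x := fun p => Real.pi * p.1 / (2 * R)) (y := fun p => Real.pi * p.2 / (2 * R)) ?_ ?_
  · intro S
    have e1 : ∀ p : ℤ × ℤ, ‖c p.1 p.2‖ * (1 + |Real.pi * (p.1 : ℝ) / (2 * R)| + |Real.pi * (p.2 : ℝ) / (2 * R)|) ≤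
        64 * (C * M) * J ^ 2 * ((wf (2 * R) p.1 * (1 + Real.pi * |(p.1 : ℝ)| / (2 * R))) *
          (wf (2 * R) p.2 * (1 + Real.pi * |(p.2 : ℝ)| / (2 * R)))) := by
      intro p
      rw [habs, habs]
      have a1 : 0 ≤ Real.pi * |(p.1 : ℝ)| / (2 * R) := by positivity
      have a2 : 0 ≤ Real.pi * |(p.2 : ℝ)| / (2 * R) := by positivity
      have a3 : 1 + Real.pi * |(p.1 : ℝ)| / (2 * R) + Real.pi * |(p.2 : ℝ)| / (2 * R) ≤
          (1 + Real.pi * |(p.1 : ℝ)| / (2 * R)) * (1 + Real.pi * |(p.2 : ℝ)| / (2 * R)) := by nlinarith [mul_nonneg a1 a2]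
      refine (mul_le_mul (hc p.1 p.2) a3 (by positivity) ((norm_nonneg _).trans (hc p.1 p.2))).trans (le_of_eq ?_)
      ring
    have hnn : ∀ p : ℤ × ℤ, 0 ≤ 64 * (C * M) * J ^ 2 * ((wf (2 * R) p.1 * (1 + Real.pi * |(p.1 : ℝ)| / (2 * R))) *
          (wf (2 * R) p.2 * (1 + Real.pi * |(p.2 : ℝ)| / (2 * R)))) := fun p => by
      have := hw0 p.1
      have := hw0 p.2
      positivity
    have hsub : S ⊆ S.image Prod.fst ×ˢ S.image Prod.snd := fun p hp =>
      mem_product.2 ⟨mem_image_of_mem _ hp, mem_image_of_mem _ hp⟩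
    refine (sum_le_sum fun p _ => e1 p).trans ((sum_le_sum_of_subset_of_nonneg hsub fun p _ _ => hnn p).trans ?_)
    rw [← mul_sum, sum_product]
    have e2 : ∑ x ∈ S.image Prod.fst, ∑ y ∈ S.image Prod.snd, wf (2 * R) x * (1 + Real.pi * |(x : ℝ)| / (2 * R)) *
        (wf (2 * R) y * (1 + Real.pi * |(y : ℝ)| / (2 * R))) =
        (∑ x ∈ S.image Prod.fst, wf (2 * R) x * (1 + Real.pi * |(x : ℝ)| / (2 * R))) *
          ∑ y ∈ S.image Prod.snd, wf (2 * R) y * (1 + Real.pi * |(y : ℝ)| / (2 * R)) := by rw [sum_mul_sum]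
    rw [e2]
    have w1 := h2 (2 * R) (by linarith) (S.image Prod.fst)
    have w2 := h2 (2 * R) (by linarith) (S.image Prod.snd)
    have w0 : 0 ≤ ∑ m ∈ S.image Prod.snd, wf (2 * R) m * (1 + Real.pi * |(m : ℝ)| / (2 * R)) :=
      sum_nonneg fun m _ => by
        have := hw0 m
        positivity
    have hk : 0 ≤ 64 * (C * M) * J ^ 2 := by positivity
    refine (mul_le_mul_of_nonneg_left (mul_le_mul w1 w2 w0 (by positivity)) hk).trans (le_of_eq ?_)
    ring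
  · intro t t' ht ht'
    have h3 := hs t t' (by linarith) (by linarith)
    simp only [cf_one hR0 ht, cf_one hR0 ht', one_mul] at h3
    exact h3

lemma int_exp_le {a b : ℝ} (ha : 0 < a) (hb : 0 ≤ b) : ∫ t in (-b)..b, Real.exp (-a * |t|) ≤ 2 / a := by
  have hc : Continuous fun t : ℝ => Real.exp (-a * |t|) := by fun_prop
  have h1 : ∫ t in (0 : ℝ)..b, Real.exp (-a * |t|) = (1 - Real.exp (-a * b)) / a := by
    have e1 : ∫ t in (0 : ℝ)..b, Real.exp (-a * |t|) = ∫ t in (0 : ℝ)..b, Real.exp (-a * t) :=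
      intervalIntegral.integral_congr fun t ht => by
        rw [Set.uIcc_of_le hb] at ht
        simp only [abs_of_nonneg ht.1]
    rw [e1, intervalIntegral.integral_eq_sub_of_hasDerivAt (f := fun t => -Real.exp (-a * t) / a) (fun t _ => ?_)
      ((by fun_prop : Continuous fun t : ℝ => Real.exp (-a * t)).intervalIntegrable _ _)]
    · simp only [mul_zero, Real.exp_zero]
      ring
    · have h2 := (((hasDerivAt_id' t).const_mul (-a)).exp.neg.div_const a)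
      have e3 : -(Real.exp (-a * t) * (-a * 1)) / a = Real.exp (-a * t) := by field_simp
      rw [e3] at h2
      exact h2
  have h2 : ∫ t in (-b)..(0 : ℝ), Real.exp (-a * |t|) = (1 - Real.exp (-a * b)) / a := by
    rw [← h1]
    have h3 := intervalIntegral.integral_comp_neg (a := (0 : ℝ)) (b := b) fun t => Real.exp (-a * |t|)
    simp only [abs_neg, neg_zero] at h3
    exact h3.symm
  rw [← intervalIntegral.integral_add_adjacent_intervals (hc.intervalIntegrable (-b) 0) (hc.intervalIntegrable 0 b), h1, h2]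
  have h4 := Real.exp_pos (-a * b)
  have h5 : (1 - Real.exp (-a * b)) / a ≤ 1 / a := div_le_div_of_nonneg_right (by linarith) ha.le
  have h6 : 2 / a = 1 / a + 1 / a := by ring
  linarith

/-- **(F2)** kernels with decay: uniformly in `R` -/
theorem KC_dec_of (h1 : Four) (h2 : WfS) {a : ℝ} (ha : 0 < a) : ∃ K : ℝ, 0 < K ∧ ∀ (M : ℝ) (F : ℝ → ℝ → ℂ)
    (A B : ℕ → ℝ → ℝ → ℂ), (∀ L, T6 L M (fun t => Real.exp (-a * |t|)) F A B) → ∀ R, KC R (K * M) F := by
  obtain ⟨C, hC, hK⟩ := KC_four h1 h2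
  refine ⟨1024 * C / (4 * a ^ 2), by positivity, fun M F A B hT R => ?_⟩
  have hM : 0 ≤ M := by
    have := (norm_nonneg _).trans ((hT 1).ab 0 (by norm_num) 0 0 (by simp) (by simp))
    simpa using this
  refine KC.of_le ?_ (le_max_left R 1)
  have hR : 1 ≤ max R 1 := le_max_right _ _
  obtain ⟨Q, hQ⟩ : ∃ Q, Q = max R 1 := ⟨_, rfl⟩
  rw [← hQ] at hR ⊢
  have hQ0 : 0 < Q := by linarith
  have hint : ∫ t in (-(2 * Q))..(2 * Q), Real.exp (-a * |t|) ≤ 2 * (2 * Q) * (1 / (2 * Q * a)) := by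
    have e0 : 2 * (2 * Q) * (1 / (2 * Q * a)) = 2 / a := by field_simp
    rw [e0]
    exact int_exp_le ha (by linarith)
  have h3 := hK (J := 1 / (2 * Q * a)) hR (by fun_prop) (fun t => (Real.exp_pos _).le) hint (hT (2 * Q)) hM
  refine h3.mono (le_of_eq ?_)
  field_simp
  ring

/-- **(F3)** kernels without decay -/
theorem KC_pol_of (h1 : Four) (h2 : WfS) : ∃ K : ℝ, 0 < K ∧ ∀ (M R : ℝ) (F : ℝ → ℝ → ℂ) (A B : ℕ → ℝ → ℝ → ℂ), 1 ≤ R →
    T6 (2 * R) M (fun _ => 1) F A B → KC R (K * R ^ 2 * M) F := by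
  obtain ⟨C, hC, hK⟩ := KC_four h1 h2
  refine ⟨1024 * C, by positivity, fun M R F A B hR hT => ?_⟩
  have hM : 0 ≤ M := by
    have := (norm_nonneg _).trans (hT.ab 0 (by norm_num) 0 0 (by simp; linarith) (by simp; linarith))
    simpa using this
  have h3 := hK (J := 1) hR continuous_const (fun _ => zero_le_one) (by
    rw [intervalIntegral.integral_const, smul_eq_mul]
    linarith) hT hM
  refine h3.mono (le_of_eq ?_)
  ring

end

end PLT.F2
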