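import Pool.Agent.PLT.F2A
import Pool.Agent.PLT.F2K

/-!
# Double Fourier series of smooth kernels (69's file): **(F2) `KC_dec`**, **(F3) `KC_pol`** (helper78, F1: helper5)
-/

set_option autoImplicit false

open MeasureTheory Set Filter Topology Complex

namespace PLT.F2

open NUKer

noncomputable section

theorem four_holds : Four := fun hL hM _ hρ hρ0 hJ _ _ _ h hs => four hL hM hρ hρ0 hJ h hs

theorem wfs_holds : WfS := wf_sum

/-- **(F2)** kernels with decay: uniformly in `R` -/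
theorem KC_dec {a : ℝ} (ha : 0 < a) : ∃ K : ℝ, 0 < K ∧ ∀ (M : ℝ) (F : ℝ → ℝ → ℂ) (A B : ℕ → ℝ → ℝ → ℂ),
    (∀ L, T6 L M (fun t => Real.exp (-a * |t|)) F A B) → ∀ R, KC R (K * M) F :=
  KC_dec_of four_holds wfs_holds ha

/-- **(F3)** kernels without decay -/
theorem KC_pol : ∃ K : ℝ, 0 < K ∧ ∀ (M R : ℝ) (F : ℝ → ℝ → ℂ) (A B : ℕ → ℝ → ℝ → ℂ), 1 ≤ R →
    T6 (2 * R) M (fun _ => 1) F A B → KC R (K * R ^ 2 * M) F :=
  KC_pol_of four_holds wfs_holds

end

end PLT.F2
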