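import Pool.Agent.PLT.StApp
import Pool.Agent.PLT.F2D
import Pool.Agent.NUO.DispW

/-!
# Mollified kernels: towers of derivatives of one variable

* `PD7 c C F`: seven derivatives in the first variable, decay in both; `gd d`: Gaussian density, `gd_sm`;
* `Tw K b e`: a tower of seven derivatives with decay; **`interp`**: a small function with bounded seventh derivative
  has small derivatives up to order six; `Tw.sm`, `Tw.sub`;
* `q d n`: derivatives of the Gaussian density, **`tw_ker`**: derivatives of `∫ gd d (t - s) W s`.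
-/

set_option autoImplicit false

open MeasureTheory Set Filter Topology

namespace PLT.Rg

noncomputable section

open PLT.App (g1 g1_nonneg g1_cont g1_int g1_mom Jm Jm_nonneg sm hasDerivAt_sm sm_int)

/-- seven derivatives in the first variable with decay in both -/
structure PD7 (c C : ℝ) (F : ℝ → ℝ → ℝ) : Prop where
  ex : ∃ A : ℕ → ℝ → ℝ → ℝ, A 0 = F ∧ (∀ n < 7, ∀ t s, HasDerivAt (fun t => A n t s) (A (n + 1) t s) t) ∧
    (∀ n ≤ 7, ∀ s, Continuous fun t => A n t s) ∧
    ∀ n ≤ 7, ∀ t s, |A n t s| ≤ C * Real.exp (-(c * |t|) - c * |s|)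

/-- the Gaussian density of width `d` -/
def gd (d x : ℝ) : ℝ := Real.exp (-(x ^ 2 / (2 * d ^ 2))) / (d * √(2 * Real.pi))

lemma gd_nonneg {d : ℝ} (hd : 0 ≤ d) (x : ℝ) : 0 ≤ gd d x := by
  unfold gd
  positivity

/-- the average with the Gaussian density -/
theorem gd_sm {d : ℝ} (hd : 0 < d) (f : ℝ → ℝ) (t : ℝ) : ∫ s, gd d (t - s) * f s = sm d f t := by
  have hpi := Real.pi_pos
  rw [← integral_sub_left_eq_self (fun s => gd d (t - s) * f s) volume t]
  have h4 := Measure.integral_comp_mul_left (fun s => gd d (t - (t - s)) * f (t - s)) d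
  rw [smul_eq_mul, abs_of_pos (inv_pos.2 hd)] at h4
  have e3 : ∫ s, gd d (t - (t - s)) * f (t - s) = d * ∫ y, gd d (t - (t - d * y)) * f (t - d * y) := by
    rw [h4, ← mul_assoc, mul_inv_cancel₀ hd.ne', one_mul]
  rw [e3]
  unfold sm
  rw [← integral_const_mul]
  congr 1
  funext y
  unfold g1 gd
  have e4 : (t - (t - d * y)) ^ 2 / (2 * d ^ 2) = y ^ 2 / 2 := by
    field_simp
    ring
  have h5 : √(2 * Real.pi) ≠ 0 := by positivity
  rw [e4]
  field_simp

/-! ### weights -/

lemma wt_shift {b : ℝ} (hb : 0 ≤ b) (hb1 : b ≤ 1) (t x : ℝ) :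
    Real.exp (-(b * |t - x|)) ≤ Real.exp (-(b * |t|)) * Real.exp |x| := by
  rw [← Real.exp_add]
  refine Real.exp_le_exp.2 ?_
  have h1 : |t| ≤ |t - x| + |x| := by
    have := abs_add_le (t - x) x
    rwa [sub_add_cancel] at this
  have h2 := mul_le_mul_of_nonneg_left h1 hb
  have h3 := mul_le_mul_of_nonneg_right hb1 (abs_nonneg x)
  nlinarith

lemma g1_mom1 : Integrable fun y => g1 y * Real.exp |y| := by
  have h1 : Integrable fun y : ℝ => Real.exp 1 * (Real.exp (-(1 / 4) * y ^ 2) / √(2 * Real.pi)) :=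
    ((integrable_exp_neg_mul_sq (by norm_num : (0 : ℝ) < 1 / 4)).div_const _).const_mul _
  refine h1.mono' (Continuous.aestronglyMeasurable (by have := g1_cont; fun_prop))
    (ae_of_all _ fun y => ?_)
  rw [Real.norm_eq_abs, abs_of_nonneg (mul_nonneg (g1_nonneg y) (Real.exp_pos _).le)]
  have h4 : Real.exp (-(y ^ 2 / 2)) * Real.exp |y| ≤ Real.exp 1 * Real.exp (-(1 / 4) * y ^ 2) := by
    rw [← Real.exp_add, ← Real.exp_add]
    refine Real.exp_le_exp.2 ?_
    have h5 : y ^ 2 = |y| ^ 2 := (sq_abs y).symm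
    rw [h5]
    nlinarith [sq_nonneg (|y| - 2)]
  unfold g1
  calc Real.exp (-(y ^ 2 / 2)) / √(2 * Real.pi) * Real.exp |y| =
        Real.exp (-(y ^ 2 / 2)) * Real.exp |y| / √(2 * Real.pi) := by ring
    _ ≤ Real.exp 1 * Real.exp (-(1 / 4) * y ^ 2) / √(2 * Real.pi) :=
        div_le_div_of_nonneg_right h4 (Real.sqrt_nonneg _)
    _ = _ := by ring

/-- the constant of the averages -/
def J1 : ℝ := ∫ y, g1 y * Real.exp |y|

lemma J1_nonneg : 0 ≤ J1 := integral_nonneg fun y => mul_nonneg (g1_nonneg y) (Real.exp_pos _).le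

section

variable {f f' : ℝ → ℝ} {b d K : ℝ}

theorem sm_le (hb : 0 ≤ b) (hb1 : b ≤ 1) (hd : 0 ≤ d) (hd1 : d ≤ 1) (hK : 0 ≤ K)
    (h : ∀ s, |f s| ≤ K * Real.exp (-(b * |s|))) (t : ℝ) :
    |sm d f t| ≤ K * J1 * Real.exp (-(b * |t|)) := by
  have h1 : ∀ y, |g1 y * f (t - d * y)| ≤ K * Real.exp (-(b * |t|)) * (g1 y * Real.exp |y|) := by
    intro y
    rw [abs_mul, abs_of_nonneg (g1_nonneg y)]
    have h2 := wt_shift hb hb1 t (d * y)
    have h3 : Real.exp |d * y| ≤ Real.exp |y| := by
      refine Real.exp_le_exp.2 ?_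
      rw [abs_mul, abs_of_nonneg hd]
      have := abs_nonneg y
      nlinarith
    have h4 := (h (t - d * y)).trans (mul_le_mul_of_nonneg_left
      (h2.trans (mul_le_mul_of_nonneg_left h3 (Real.exp_pos _).le)) hK)
    exact (mul_le_mul_of_nonneg_left h4 (g1_nonneg y)).trans (le_of_eq (by ring))
  have h10 := norm_integral_le_of_norm_le (f := fun y => g1 y * f (t - d * y))
    (g1_mom1.const_mul (K * Real.exp (-(b * |t|)))) (ae_of_all _ h1)
  rw [integral_const_mul, Real.norm_eq_abs] at h10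
  refine h10.trans (le_of_eq ?_)
  unfold J1
  ring

/-- **the error of the average** -/
theorem sub_sm_le (hd : ∀ t, HasDerivAt f (f' t) t) (hb : 0 ≤ b) (hb1 : b ≤ 1) (hK : 0 ≤ K)
    (h0 : ∀ t, |f t| ≤ K) (h1 : ∀ t, |f' t| ≤ K * Real.exp (-(b * |t|))) (hd0 : 0 ≤ d) (hd1 : d ≤ 1) (t : ℝ) :
    |f t - sm d f t| ≤ d * (K * Jm) * Real.exp (-(b * |t|)) := by
  have hcf : Continuous f := continuous_iff_continuousAt.2 fun t => (hd t).continuousAt
  have mv : ∀ x, |f t - f (t - x)| ≤ K * Real.exp (-(b * |t|)) * (|x| * Real.exp (|x|)) := by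
    intro x
    have h2 : ‖f t - f (t - x)‖ ≤ K * (Real.exp (-(b * |t|)) * Real.exp |x|) * ‖t - (t - x)‖ := by
      refine Convex.norm_image_sub_le_of_norm_hasDerivWithin_le (f' := f') (s := uIcc (t - x) t)
        (fun u _ => (hd u).hasDerivWithinAt) (fun u hu => ?_) (convex_uIcc _ _) left_mem_uIcc right_mem_uIcc
      rw [Real.norm_eq_abs]
      refine (h1 u).trans (mul_le_mul_of_nonneg_left ?_ hK)
      have h3 : |t - u| ≤ |x| := by
        have := abs_sub_right_of_mem_uIcc hu
        rwa [show t - (t - x) = x by ring] at this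
      have h4 := wt_shift hb hb1 t (t - u)
      rw [show t - (t - u) = u by ring] at h4
      exact h4.trans (mul_le_mul_of_nonneg_left (Real.exp_le_exp.2 h3) (Real.exp_pos _).le)
    rw [show t - (t - x) = x by ring, Real.norm_eq_abs, Real.norm_eq_abs] at h2
    refine h2.trans (le_of_eq (by ring))
  have e : f t - sm d f t = ∫ y, g1 y * (f t - f (t - d * y)) := by
    unfold sm
    have h2 : ∀ y, g1 y * (f t - f (t - d * y)) = g1 y * f t - g1 y * f (t - d * y) := fun y => by ring
    rw [integral_congr_ae (ae_of_all _ h2), integral_sub (g1_int.1.mul_const _) (sm_int hcf h0 d t),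
      integral_mul_const, g1_int.2, one_mul]
  rw [e]
  have h5 : ∀ y, |g1 y * (f t - f (t - d * y))| ≤
      d * K * Real.exp (-(b * |t|)) * (g1 y * (|y| * Real.exp (2 * |y|))) := by
    intro y
    rw [abs_mul, abs_of_nonneg (g1_nonneg y)]
    have h6 := mv (d * y)
    rw [abs_mul, abs_of_nonneg hd0] at h6
    have hy := abs_nonneg y
    have h7 : Real.exp (d * |y|) ≤ Real.exp (2 * |y|) := Real.exp_le_exp.2 (by nlinarith)
    have h8 : d * |y| * Real.exp (d * |y|) ≤ d * |y| * Real.exp (2 * |y|) :=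
      mul_le_mul_of_nonneg_left h7 (by positivity)
    have h9 := h6.trans (mul_le_mul_of_nonneg_left h8 (show 0 ≤ K * Real.exp (-(b * |t|)) by positivity))
    refine (mul_le_mul_of_nonneg_left h9 (g1_nonneg y)).trans (le_of_eq (by ring))
  have h10 := norm_integral_le_of_norm_le (f := fun y => g1 y * (f t - f (t - d * y)))
    (g1_mom.const_mul (d * K * Real.exp (-(b * |t|)))) (ae_of_all _ h5)
  rw [integral_const_mul, Real.norm_eq_abs] at h10
  refine h10.trans (le_of_eq ?_)
  unfold Jm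
  ring

lemma sm_cont (hf : Continuous f) {C : ℝ} (h : ∀ t, |f t| ≤ C) (d : ℝ) : Continuous (sm d f) := by
  have hg := g1_cont
  refine continuous_of_dominated (bound := fun y => g1 y * C) (fun t =>
    Continuous.aestronglyMeasurable (by fun_prop)) (fun t => ae_of_all _ fun y => ?_)
    (g1_int.1.mul_const _) (ae_of_all _ fun y => by fun_prop)
  rw [norm_mul, Real.norm_eq_abs, Real.norm_eq_abs, abs_of_nonneg (g1_nonneg y)]
  exact mul_le_mul_of_nonneg_left (h _) (g1_nonneg y)

end

/-! ### towers -/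

/-- a tower of seven derivatives with decay -/
structure Tw (K b : ℝ) (e : ℕ → ℝ → ℝ) : Prop where
  d : ∀ n, n < 7 → ∀ t, HasDerivAt (e n) (e (n + 1) t) t
  c : ∀ n, n ≤ 7 → Continuous (e n)
  b : ∀ n, n ≤ 7 → ∀ t, |e n t| ≤ K * Real.exp (-(b * |t|))

section

variable {K K' b d : ℝ} {e e' : ℕ → ℝ → ℝ}

lemma Tw.K0 (h : Tw K b e) : 0 ≤ K := by
  have h1 := (abs_nonneg _).trans (h.b 0 (by norm_num) 0)
  simpa using h1

lemma Tw.mono (h : Tw K b e) (hK : K ≤ K') : Tw K' b e :=
  ⟨h.d, h.c, fun n hn t => (h.b n hn t).trans (mul_le_mul_of_nonneg_right hK (Real.exp_pos _).le)⟩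

lemma Tw.le (h : Tw K b e) (hb : 0 ≤ b) {n : ℕ} (hn : n ≤ 7) (t : ℝ) : |e n t| ≤ K := by
  refine (h.b n hn t).trans (mul_le_of_le_one_right h.K0 (Real.exp_le_one_iff.2 ?_))
  have := mul_nonneg hb (abs_nonneg t)
  linarith

lemma Tw.sub (h : Tw K b e) (h' : Tw K' b e') : Tw (K + K') b (fun n t => e n t - e' n t) :=
  ⟨fun n hn t => (h.d n hn t).sub (h'.d n hn t), fun n hn => (h.c n hn).sub (h'.c n hn), fun n hn t => by
    have h1 := h.b n hn t
    have h2 := h'.b n hn t
    have h3 := abs_sub (e n t) (e' n t)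
    rw [add_mul]
    linarith⟩

lemma Tw.sm (h : Tw K b e) (hb : 0 ≤ b) (hb1 : b ≤ 1) (hd : 0 ≤ d) (hd1 : d ≤ 1) :
    Tw (K * J1) b (fun n => sm d (e n)) :=
  ⟨fun n hn t => hasDerivAt_sm (h.d n hn) (h.c (n + 1) (by omega)) (fun t => h.le hb (by omega) t)
    (fun t => h.le hb (by omega) t) d t,
    fun n hn => sm_cont (h.c n hn) (fun t => h.le hb hn t) d,
    fun n hn t => sm_le hb hb1 hd hd1 h.K0 (h.b n hn) t⟩

end

/-- **interpolation**: a small function with bounded derivatives up to order seven has small derivatives up to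
order six -/
theorem interp {b C : ℝ} (hb : 0 ≤ b) (hb1 : b ≤ 1) (hC : 0 ≤ C) (n : ℕ) : n ≤ 6 → ∀ η : ℝ, 0 < η →
    ∃ δ : ℝ, 0 < δ ∧ ∀ (w0 : ℝ) (e : ℕ → ℝ → ℝ), 0 ≤ w0 → Tw (C * w0) b e →
      (∀ t, |e 0 t| ≤ δ * w0 * Real.exp (-(b * |t|))) → ∀ k, k ≤ n → ∀ t,
        |e k t| ≤ η * w0 * Real.exp (-(b * |t|)) := by
  induction n with
  | zero =>
    intro _ η hη
    refine ⟨η, hη, fun w0 e _ _ h k hk t => ?_⟩
    obtain rfl : k = 0 := by omega
    exact h t
  | succ n ih =>
    intro hn η hη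
    obtain ⟨h, hh⟩ : ∃ h : ℝ, h = min 1 (η / (6 * C + 1)) := ⟨_, rfl⟩
    have hC1 : 0 < 6 * C + 1 := by linarith
    have h0 : 0 < h := by
      rw [hh]
      exact lt_min one_pos (by positivity)
    have h1 : h ≤ 1 := by
      rw [hh]
      exact min_le_left _ _
    have h2 : 3 * C * h ≤ η / 2 := by
      have h3 : h ≤ η / (6 * C + 1) := by
        rw [hh]
        exact min_le_right _ _
      rw [le_div_iff₀ hC1] at h3
      nlinarith
    obtain ⟨δ, hδ, H⟩ := ih (by omega) (η * h / 8) (by positivity)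
    refine ⟨δ, hδ, fun w0 e hw he hs k hk t => ?_⟩
    have key := H w0 e hw he hs
    have hwt : 0 ≤ w0 * Real.exp (-(b * |t|)) := by positivity
    rcases Nat.lt_or_ge k (n + 1) with hk1 | hk1
    · refine (key k (by omega) t).trans ?_
      rw [mul_assoc, mul_assoc]
      refine mul_le_mul_of_nonneg_right ?_ hwt
      nlinarith
    · obtain rfl : k = n + 1 := by omega
      -- weights nearby
      have w3 : ∀ u, |u - t| ≤ 1 → Real.exp (-(b * |u|)) ≤ 3 * Real.exp (-(b * |t|)) := by
        intro u hu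
        have h3 := wt_shift hb hb1 t (t - u)
        rw [show t - (t - u) = u by ring] at h3
        have h4 : Real.exp |t - u| ≤ 3 := by
          rw [abs_sub_comm] at hu
          have h5 : Real.exp |t - u| ≤ Real.exp 1 := Real.exp_le_exp.2 hu
          have := Real.exp_one_lt_d9
          linarith
        refine h3.trans ?_
        rw [mul_comm]
        exact mul_le_mul_of_nonneg_right h4 (Real.exp_pos _).le
      have hle : t ≤ t + h := by linarith
      have hCw : 0 ≤ C * w0 := mul_nonneg hC hw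
      -- the derivative near `t`
      have d1 : ∀ u ∈ Icc t (t + h), |e (n + 1) u - e (n + 1) t| ≤
          3 * (C * w0) * Real.exp (-(b * |t|)) * h := by
        intro u hu
        have h3 : ‖e (n + 1) u - e (n + 1) t‖ ≤ 3 * (C * w0) * Real.exp (-(b * |t|)) * ‖u - t‖ := by
          refine Convex.norm_image_sub_le_of_norm_hasDerivWithin_le (f' := e (n + 1 + 1)) (s := Icc t (t + h))
            (fun v _ => (he.d (n + 1) (by omega) v).hasDerivWithinAt) (fun v hv => ?_) (convex_Icc _ _)
            (left_mem_Icc.2 hle) hu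
          rw [Real.norm_eq_abs]
          refine (he.b (n + 1 + 1) (by omega) v).trans ?_
          have h4 := w3 v (by
            rw [abs_le]
            constructor <;> linarith [hv.1, hv.2])
          refine (mul_le_mul_of_nonneg_left h4 hCw).trans (le_of_eq (by ring))
        rw [Real.norm_eq_abs, Real.norm_eq_abs, abs_of_nonneg (show 0 ≤ u - t by linarith [hu.1])] at h3
        refine h3.trans (mul_le_mul_of_nonneg_left (by linarith [hu.2]) (by positivity))
      -- the increment
      have d2 : ‖(e n (t + h) - e (n + 1) t * (t + h)) - (e n t - e (n + 1) t * t)‖ ≤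
          3 * (C * w0) * Real.exp (-(b * |t|)) * h * ‖t + h - t‖ := by
        refine Convex.norm_image_sub_le_of_norm_hasDerivWithin_le (f := fun u => e n u - e (n + 1) t * u)
          (f' := fun u => e (n + 1) u - e (n + 1) t) (s := Icc t (t + h))
          (fun v _ => ?_) (fun v hv => ?_) (convex_Icc _ _)
          (left_mem_Icc.2 hle) (right_mem_Icc.2 hle)
        · have h3 := (he.d n (by omega) v).sub ((hasDerivAt_id v).const_mul (e (n + 1) t))
          rw [mul_one] at h3
          exact h3.hasDerivWithinAt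
        · rw [Real.norm_eq_abs]
          exact d1 v hv
      rw [show t + h - t = h by ring, Real.norm_eq_abs, Real.norm_eq_abs, abs_of_pos h0,
        show e n (t + h) - e (n + 1) t * (t + h) - (e n t - e (n + 1) t * t) =
          (e n (t + h) - e n t) - e (n + 1) t * h by ring] at d2
      have k1 := key n le_rfl t
      have k2 := key n le_rfl (t + h)
      have k3 := w3 (t + h) (by
        rw [show t + h - t = h by ring, abs_of_pos h0]
        exact h1)
      have k4 : |e (n + 1) t * h| ≤ |e n (t + h)| + |e n t| + |(e n (t + h) - e n t) - e (n + 1) t * h| := by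
        have a1 := abs_sub (e n (t + h) - e n t) ((e n (t + h) - e n t) - e (n + 1) t * h)
        rw [sub_sub_cancel] at a1
        have a2 := abs_sub (e n (t + h)) (e n t)
        linarith
      rw [abs_mul, abs_of_pos h0] at k4
      have k5 : |e n (t + h)| ≤ η * h / 8 * w0 * (3 * Real.exp (-(b * |t|))) :=
        k2.trans (mul_le_mul_of_nonneg_left k3 (by positivity))
      obtain ⟨w, hwd⟩ : ∃ w, w = w0 * Real.exp (-(b * |t|)) := ⟨_, rfl⟩
      have k6 : |e (n + 1) t| * h ≤ (η * h / 2 + 3 * C * h * h) * w := by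
        rw [hwd]
        nlinarith
      have k7 : (η * h / 2 + 3 * C * h * h) * w ≤ η * w * h := by
        have hw0 : 0 ≤ w := by rw [hwd]; exact hwt
        have h3 : 3 * C * h * h ≤ η / 2 * h := mul_le_mul_of_nonneg_right h2 h0.le
        nlinarith
      have k8 : |e (n + 1) t| * h ≤ η * w * h := k6.trans k7
      have k9 := le_of_mul_le_mul_right k8 h0
      rw [hwd, ← mul_assoc] at k9
      exact k9

/-! ### derivatives of the Gaussian density -/

open Polynomial in
/-- the polynomials of the derivatives -/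
def Pq (d : ℝ) : ℕ → ℝ[X]
  | 0 => 1
  | n + 1 => derivative (Pq d n) - C (1 / d ^ 2) * X * Pq d n

/-- the derivatives of the Gaussian density -/
def q (d : ℝ) (n : ℕ) (x : ℝ) : ℝ := (Pq d n).eval x * gd d x

lemma q_zero (d x : ℝ) : q d 0 x = gd d x := by
  unfold q Pq
  rw [Polynomial.eval_one, one_mul]

lemma hasDerivAt_gd {d : ℝ} (hd : 0 < d) (x : ℝ) : HasDerivAt (gd d) (-(x / d ^ 2) * gd d x) x := by
  have h1 : HasDerivAt (fun x : ℝ => -(x ^ 2 / (2 * d ^ 2))) (-(x / d ^ 2)) x := by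
    have h2 := ((hasDerivAt_pow 2 x).div_const (2 * d ^ 2)).neg
    have e : -((((2 : ℕ) : ℝ) * x ^ (2 - 1)) / (2 * d ^ 2)) = -(x / d ^ 2) := by
      push_cast
      rw [pow_one]
      field_simp
    rw [e] at h2
    exact h2
  have h3 := (h1.exp).div_const (d * √(2 * Real.pi))
  have e : Real.exp (-(x ^ 2 / (2 * d ^ 2))) * -(x / d ^ 2) / (d * √(2 * Real.pi)) = -(x / d ^ 2) * gd d x := by
    unfold gd
    ring
  rw [e] at h3
  exact h3

lemma hasDerivAt_q {d : ℝ} (hd : 0 < d) (n : ℕ) (x : ℝ) : HasDerivAt (q d n) (q d (n + 1) x) x := by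
  have h1 := ((Pq d n).hasDerivAt x).mul (hasDerivAt_gd hd x)
  have e : (Pq d n).derivative.eval x * gd d x + (Pq d n).eval x * (-(x / d ^ 2) * gd d x) = q d (n + 1) x := by
    unfold q
    rw [Pq, Polynomial.eval_sub, Polynomial.eval_mul, Polynomial.eval_mul, Polynomial.eval_C, Polynomial.eval_X]
    ring
  rw [e] at h1
  exact h1

lemma cont_q {d : ℝ} (hd : 0 < d) (n : ℕ) : Continuous (q d n) :=
  continuous_iff_continuousAt.2 fun x => (hasDerivAt_q hd n x).continuousAt

lemma poly_le (P : Polynomial ℝ) : ∃ K : ℝ, 0 ≤ K ∧ ∀ x : ℝ, |P.eval x| ≤ K * Real.exp |x| := by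
  induction P using Polynomial.induction_on' with
  | add p q hp hq =>
    obtain ⟨K, hK, h1⟩ := hp
    obtain ⟨K', hK', h2⟩ := hq
    refine ⟨K + K', by positivity, fun x => ?_⟩
    rw [Polynomial.eval_add, add_mul]
    exact (abs_add_le _ _).trans (add_le_add (h1 x) (h2 x))
  | monomial n a =>
    refine ⟨|a| * n.factorial, by positivity, fun x => ?_⟩
    rw [Polynomial.eval_monomial, abs_mul, abs_pow, mul_assoc]
    refine mul_le_mul_of_nonneg_left ?_ (abs_nonneg _)
    have h1 := Real.pow_div_factorial_le_exp |x| (abs_nonneg x) n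
    rw [div_le_iff₀ (by positivity)] at h1
    linarith

lemma q_le {d : ℝ} (hd : 0 < d) : ∃ Q : ℝ, 0 ≤ Q ∧ ∀ n, n ≤ 8 → ∀ x, |q d n x| ≤ Q * Real.exp (-(2 * |x|)) := by
  have h0 : ∀ x, Real.exp (3 * |x|) * gd d x ≤ Real.exp (9 / 2 * d ^ 2) / (d * √(2 * Real.pi)) := by
    intro x
    unfold gd
    rw [← mul_div_assoc, ← Real.exp_add]
    refine div_le_div_of_nonneg_right (Real.exp_le_exp.2 ?_) (by positivity)
    have h1 : x ^ 2 = |x| ^ 2 := (sq_abs x).symm
    have h2 : 3 * |x| - x ^ 2 / (2 * d ^ 2) ≤ 9 / 2 * d ^ 2 := by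
      rw [h1, sub_le_iff_le_add]
      have h3 : |x| ^ 2 / (2 * d ^ 2) = 1 / 2 * (|x| / d) ^ 2 := by
        field_simp
      have h4 : |x| = |x| / d * d := by field_simp
      rw [h3]
      nlinarith [sq_nonneg (|x| / d - 3 * d)]
    linarith
  have h1 : ∀ n, ∃ Q : ℝ, 0 ≤ Q ∧ ∀ x, |q d n x| ≤ Q * Real.exp (-(2 * |x|)) := by
    intro n
    obtain ⟨K, hK, h2⟩ := poly_le (Pq d n)
    refine ⟨K * (Real.exp (9 / 2 * d ^ 2) / (d * √(2 * Real.pi))), by positivity, fun x => ?_⟩
    unfold q
    rw [abs_mul, abs_of_nonneg (gd_nonneg hd.le x)]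
    have h3 := mul_le_mul_of_nonneg_right (h2 x) (gd_nonneg hd.le x)
    refine h3.trans ?_
    have h4 : Real.exp |x| = Real.exp (3 * |x|) * Real.exp (-(2 * |x|)) := by
      rw [← Real.exp_add]
      congr 1
      ring
    rw [h4]
    calc K * (Real.exp (3 * |x|) * Real.exp (-(2 * |x|))) * gd d x =
          K * (Real.exp (3 * |x|) * gd d x) * Real.exp (-(2 * |x|)) := by ring
      _ ≤ _ := mul_le_mul_of_nonneg_right (mul_le_mul_of_nonneg_left (h0 x) hK) (Real.exp_pos _).le
  choose Q hQ hq using h1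
  refine ⟨∑ n ∈ Finset.range 9, Q n, Finset.sum_nonneg fun n _ => hQ n, fun n hn x => (hq n x).trans
    (mul_le_mul_of_nonneg_right (Finset.single_le_sum (f := Q) (fun i _ => hQ i)
      (Finset.mem_range.2 (by omega))) (Real.exp_pos _).le)⟩

lemma int_e {a : ℝ} (ha : 0 < a) (t : ℝ) : Integrable (fun s => Real.exp (-(a * |t - s|))) ∧
    ∫ s, Real.exp (-(a * |t - s|)) = 2 / a := by
  have h1 := NUDispW.int_exp_abs ha t
  have e : (fun x : ℝ => Real.exp (-(a * |x - t|))) = fun s => Real.exp (-(a * |t - s|)) := by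
    funext x
    rw [abs_sub_comm]
  rw [e] at h1
  exact h1

/-- **derivatives of an average of a measurable function** -/
theorem tw_ker {d Q : ℝ} (hd : 0 < d) (hQ : 0 ≤ Q) (hq : ∀ n, n ≤ 8 → ∀ x, |q d n x| ≤ Q * Real.exp (-(2 * |x|)))
    {W : ℝ → ℝ} {K b : ℝ} (hW : Measurable W) (hb : 0 ≤ b) (hb1 : b ≤ 1) (hK : 0 ≤ K)
    (h : ∀ s, |W s| ≤ K * Real.exp (-(b * |s|))) :
    Tw (K * (2 * Q)) b (fun n t => ∫ s, q d n (t - s) * W s) := by
  have hW1 : ∀ s, |W s| ≤ K := fun s => (h s).trans (mul_le_of_le_one_right hK (Real.exp_le_one_iff.2 (by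
    have := mul_nonneg hb (abs_nonneg s)
    linarith)))
  have hm : ∀ n t, AEStronglyMeasurable (fun s => q d n (t - s) * W s) volume := fun n t =>
    (((cont_q hd n).comp (continuous_const.sub continuous_id)).measurable.mul hW).aestronglyMeasurable
  have hder : ∀ n, n ≤ 7 → ∀ t, HasDerivAt (fun t => ∫ s, q d n (t - s) * W s)
      (∫ s, q d (n + 1) (t - s) * W s) t := by
    intro n hn t
    refine (hasDerivAt_integral_of_dominated_loc_of_deriv_le (F := fun t s => q d n (t - s) * W s)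
      (F' := fun t s => q d (n + 1) (t - s) * W s)
      (bound := fun s => Q * Real.exp 2 * K * Real.exp (-(2 * |t - s|))) (x₀ := t)
      (s := Metric.ball t 1) (Metric.ball_mem_nhds t one_pos)
      (Eventually.of_forall fun t => hm n t) ?_ (hm (n + 1) t) (ae_of_all _ fun s u hu => ?_)
      ((int_e two_pos t).1.const_mul _) (ae_of_all _ fun s u _ => ?_)).2
    · refine ((int_e two_pos t).1.const_mul (Q * K)).mono' (hm n t) (ae_of_all _ fun s => ?_)
      rw [norm_mul, Real.norm_eq_abs, Real.norm_eq_abs]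
      refine (mul_le_mul (hq n (by omega) _) (hW1 s) (abs_nonneg _) (by positivity)).trans (le_of_eq (by ring))
    · rw [norm_mul, Real.norm_eq_abs, Real.norm_eq_abs]
      have h1 : Real.exp (-(2 * |u - s|)) ≤ Real.exp 2 * Real.exp (-(2 * |t - s|)) := by
        rw [← Real.exp_add]
        refine Real.exp_le_exp.2 ?_
        have h2 : |u - t| < 1 := by
          rw [← Real.dist_eq]
          exact hu
        have h3 := abs_sub_le t u s
        rw [abs_sub_comm t u] at h3
        linarith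
      have h2 := (hq (n + 1) (by omega) (u - s)).trans (mul_le_mul_of_nonneg_left h1 hQ)
      refine (mul_le_mul h2 (hW1 s) (abs_nonneg _) (by positivity)).trans (le_of_eq (by ring))
    · have h1 : HasDerivAt (fun u : ℝ => u - s) 1 u := (hasDerivAt_id u).sub_const _
      have h2 := (hasDerivAt_q hd n (u - s)).comp u h1
      rw [mul_one] at h2
      exact h2.mul_const _
  refine ⟨fun n hn t => hder n (by omega) t, fun n hn => continuous_iff_continuousAt.2 fun t =>
    (hder n hn t).continuousAt, fun n hn t => ?_⟩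
  have h1 : ∀ s, |q d n (t - s) * W s| ≤ K * Q * Real.exp (-(b * |t|)) * Real.exp (-(1 * |t - s|)) := by
    intro s
    rw [abs_mul]
    have h2 := wt_shift hb hb1 t (t - s)
    rw [show t - (t - s) = s by ring] at h2
    have h3 := (h s).trans (mul_le_mul_of_nonneg_left h2 hK)
    have h4 := mul_le_mul (hq n (by omega) (t - s)) h3 (abs_nonneg _) (by positivity)
    have h5 : Real.exp (-(2 * |t - s|)) * Real.exp |t - s| = Real.exp (-(1 * |t - s|)) := by
      rw [← Real.exp_add]
      congr 1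
      ring
    refine h4.trans (le_of_eq ?_)
    rw [← h5]
    ring
  have h10 := norm_integral_le_of_norm_le (f := fun s => q d n (t - s) * W s)
    ((int_e one_pos t).1.const_mul (K * Q * Real.exp (-(b * |t|)))) (ae_of_all _ h1)
  rw [integral_const_mul, (int_e one_pos t).2, Real.norm_eq_abs] at h10
  refine h10.trans (le_of_eq ?_)
  ring

end

end PLT.Rg
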