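import Pool.Agent.PLT.KerT
import Pool.Agent.PLT.StRegA

/-!
# THETA, row B: `PD7` for the static kernels (helper69)
-/

set_option autoImplicit false

open MeasureTheory Set Filter Topology Complex

namespace PLT.Cv

noncomputable section

lemma pd7_of {N : ℕ} (hN : 8 ≤ N) {C : ℝ} (hC : 0 ≤ C) {k : ℝ → ℝ → ℝ} {A : ℕ → ℝ → ℝ → ℝ}
    (h : PLT.KF.Tw N C k A) : PLT.Rg.PD7 (1 / 2) C k ∧ PLT.Rg.PD7 (1 / 2) C (fun t s => k s t) := by
  have h1 : PLT.Rg.PD7 (1 / 2) C k := by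
    refine ⟨A, h.z, fun n hn t s => h.d n (by omega) t s, fun n hn s => ?_, fun n hn t s => ?_⟩
    · exact (h.c n (by omega)).comp (f := fun t : ℝ => (t, s)) (by fun_prop)
    · refine (h.b n (by omega) t s).trans (mul_le_mul_of_nonneg_left ((PLT.KF.wk2 t s).trans (le_of_eq ?_)) hC)
      congr 1
      ring
  have e : (fun t s => k s t) = k := by
    funext t s
    exact h.sy s t
  exact ⟨h1, by rw [e]; exact h1⟩

/-- **seven derivatives of both static kernels, uniformly** -/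
theorem exists_pd7C (B : SeaCB) : ∃ C : ℝ, 0 ≤ C ∧ ∀ [SeaC] [SeaCU B],
    (PLT.Rg.PD7 (1 / 2) C (PLT.KF.ko eta (deriv eta)) ∧
      PLT.Rg.PD7 (1 / 2) C (fun t s => PLT.KF.ko eta (deriv eta) s t)) ∧
    PLT.Rg.PD7 (1 / 2) C (PLT.KF.kx eta) ∧ PLT.Rg.PD7 (1 / 2) C (fun t s => PLT.KF.kx eta s t) := by
  obtain ⟨C, hC, h⟩ := exists_towC B 7
  refine ⟨C, hC, fun {_} {_} => ?_⟩
  obtain ⟨⟨A, hA⟩, A', hA'⟩ := h
  exact ⟨pd7_of le_rfl hC hA, pd7_of le_rfl hC hA'⟩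

end

end PLT.Cv
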