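import Pool.Agent.PLT.StCC
import Pool.Agent.PLT.KerP
import Pool.Agent.PLT.InsP

/-!
# THETA, row B: the static kernels of a class of seas (helper80)

**`stC_KC0 B : StC (KC0 B) (4 / 5) (1 / 16)`**: the kernels `ksC` of all seas of the class are of finite rank with form
at most `4/5` against the energy, plus a rest as small as we like.
-/

set_option autoImplicit false

open MeasureTheory Set Filter Topology

namespace PLT.Cv

noncomputable section

open PLT.KF

lemma ksC_eq [SeaC] (a b : Bool) : ksC a b = if a = b then ko eta (deriv eta) else kx eta := rfl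

/-- **the static kernels**: finite rank with form `≤ 4/5`, small rest -/
theorem stC_KC0 (B : SeaCB) : PLT.Gs.StC (KC0 B) (4 / 5) (1 / 16) := by
  obtain ⟨C, hC, h⟩ := exists_pd7C B
  have key := StF.stC_of (K := KC0 B) (c := 1 / 2) (C := C) (θ0 := 3 / 4) (θ := 4 / 5) (by norm_num) (by norm_num)
    (by norm_num) (by norm_num) ?_
  · have e : (1 : ℝ) / 2 / 8 = 1 / 16 := by norm_num
    rwa [e] at key
  · rintro k ⟨S, U, rfl⟩
    obtain ⟨⟨o1, o2⟩, x1, x2⟩ := @h S U
    have hB : Bent (@eta S) (deriv (@eta S)) := @bentC B S U
    refine ⟨fun a b => ?_, fun a b => ?_, fun a b t s => ?_, fun u hu => ?_⟩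
    · rw [ksC_eq]
      split_ifs
      · exact o1
      · exact x1
    · rw [ksC_eq]
      split_ifs
      · exact o2
      · exact x2
    · rw [ksC_eq, ksC_eq]
      by_cases hab : a = b
      · rw [if_pos hab, if_pos hab.symm]
        exact hB.ko_symm t s
      · rw [if_neg hab, if_neg fun h => hab h.symm]
        exact kx_symm _ t s
    · have h1 := hB.O1 (hu true) (hu false)
      have h2 := (le_abs_self _).trans h1
      simp only [ksC_eq, Fintype.sum_bool, if_true, Bool.false_eq_true, Bool.true_eq_false, if_false]
      unfold PF at h2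
      linarith

end

end PLT.Cv
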