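import Pool.Agent.PLT.Swept8

/-!
# The point of the tilted sea (helper64)

* `qTh` = the point `(e; j1, j2; jL; T) = (54; 9, 117; 248; 180) / 120` with the lines of the quanta at `-1 / 120` and
  `7 / 120`, `parTh` its parameters, `parTh_good`, `qTh_k`, `qTh_ct` (contacts `= kpZ`), `qTh_par`, `qTh_rT`, `cd8_Th`;
* `DV_swept_Th`, `DV_AAf_Th`, `DV_AAt_Th`: exactness between the two lines;
* `F8q_Th_D`, `F8q_Th_a`, `F8q_Th_u`: the entries of `F8q qTh`.
-/

set_option autoImplicit false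

namespace PLT

open Finset Set PHK NUP1 NUO NUDispO Pool.Agent.NUM3

/-- **the point of the tilted sea**, lattice `1 / 120` -/
def qTh : Pt := ⟨30, 248, 54, 9, 117, 180, -1, 7⟩

/-- **the parameters of the tilted sea** -/
noncomputable def parTh : Par6 := ⟨31 / 15, 9 / 20, 3 / 40, 39 / 40⟩

theorem parTh_good : GoodP6 parTh := by
  constructor <;> norm_num [parTh]

lemma qTh_k : 0 < qTh.k := by decide

lemma qTh_m : qTh.m = 120 := rfl

lemma qTh_mR : ((qTh.m : ℤ) : ℝ) = 120 := by rw [qTh_m]; norm_num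

lemma qTh_par : qTh.par = parTh := by
  unfold Pt.par parTh
  rw [qTh_mR]
  simp only [qTh]
  norm_num

lemma qTh_rT : qTh.rT = 3 / 2 := by
  unfold Pt.rT
  rw [qTh_mR]
  simp only [qTh]
  norm_num

lemma qTh_of0 : qTh.of 0 = -(1 / 120) := by
  unfold Pt.of
  rw [if_pos rfl, qTh_mR]
  simp only [qTh]
  norm_num

lemma qTh_of1 : qTh.of 1 = 7 / 120 := by
  unfold Pt.of
  rw [if_neg (by decide), qTh_mR]
  simp only [qTh]
  norm_num

lemma qTh_d : qTh.d = 1 / 15 := by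
  unfold Pt.d
  rw [qTh_of0, qTh_of1]
  norm_num

/-- the contacts of the kinds -/
theorem qTh_ct : ∀ σ K K', ct8 qTh.m (dL8 qTh σ (some (some K)) (some (some K'))) = kpZ σ K K' := by
  decide

theorem qTh_nwz : ∀ σ K, nwz qTh σ (some (some K)) := by decide

lemma cd8_Th (K : Kd6) : cd8 qTh.par qTh.rT K = cd6 parTh K := by
  rw [qTh_par, qTh_rT, cd8_cd6]

/-! ### exactness -/

/-- **objects against a quantum between the two lines** -/
theorem DV_swept_Th {z : ℝ} (hz : 0 < z) (σ : Bool) (K : Kd6) {v : ℝ} (hv : v ∈ Icc (qTh.of 0) (qTh.of 1)) :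
    DV σ (cd6 parTh K) (cA8 v) z =
      Bal.p0 z qTh.d (v - qTh.of 0) * DV σ (cd6 parTh K) (cA8 (qTh.of 0)) z +
        Bal.p1 z qTh.d (v - qTh.of 0) * DV σ (cd6 parTh K) (cA8 (qTh.of 1)) z := by
  have h := DV_swept_pt qTh_k (by decide) (qTh_nwz σ K) hz hv
  rwa [cd8_Th] at h

/-- **two quanta of different families** -/
theorem DV_AAf_Th {z : ℝ} (hz : 0 < z) {v w : ℝ} (hv : v ∈ Icc (qTh.of 0) (qTh.of 1))
    (hw : w ∈ Icc (qTh.of 0) (qTh.of 1)) : DV false (cA8 v) (cA8 w) z =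
      swq qTh z v w fun v w => DV false (cA8 v) (cA8 w) z :=
  DV_AAf_pt (by rw [qTh_d]; norm_num) (by rw [qTh_d]; norm_num) hz hv hw

/-- **two quanta of the same family** -/
theorem DV_AAt_Th {z : ℝ} (hz : 0 < z) {v w : ℝ} (hv : v ∈ Icc (qTh.of 0) (qTh.of 1))
    (hw : w ∈ Icc (qTh.of 0) (qTh.of 1)) : DV true (cA8 v) (cA8 w) z =
      (swq qTh z v w fun v w => DV true (cA8 v) (cA8 w) z) +
        4 * Real.sinh (4 * z) * Bal.G z qTh.d (v - qTh.of 0) (w - qTh.of 0) :=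
  DV_AAt_pt (by rw [qTh_d]; norm_num) (by rw [qTh_d]; norm_num) hz hv hw

/-! ### the entries of the system -/

theorem F8q_Th_D (t : Tb8) (n : ℕ) (z : ℝ) (σ : Bool) (K K' : Kd6) :
    (F8q qTh t n z).D σ K K' = DrM6 n parTh σ K K' z := by
  show DC n σ (cd8 qTh.par qTh.rT K) (cd8 qTh.par qTh.rT K') z = _
  rw [cd8_Th, cd8_Th, DC_cd6]

theorem F8q_Th_a (t : Tb8) (n : ℕ) (z : ℝ) (σ : Bool) (K : Kd6) (b : Fin 2) :
    (F8q qTh t n z).a σ K b = DV σ (cd6 parTh K) (cA8 (qTh.of b)) z := by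
  show DV σ (cd8 qTh.par qTh.rT K) (cA8 (qTh.of b)) z = _
  rw [cd8_Th]

theorem F8q_Th_u (t : Tb8) (n : ℕ) (z : ℝ) (σ : Bool) (b b' : Fin 2) :
    (F8q qTh t n z).u σ b b' = DV σ (cA8 (qTh.of b)) (cA8 (qTh.of b')) z := rfl

end PLT
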