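import Pool.Agent.PLT.NTab8
import Pool.Agent.PLT.PtTh

/-!
# The table of the two line certificate (helper79's numbers) (helper38)

At the point `qTh`: coefficients of `gk (1/2) 1` (`aN`) and `gk 1 2` (`bN`) in units `1 / 512`; contacts `kpZ`, widths
`epZ`.  **`tbTh`**: the table; `okTh`: the conditions; `certTh`: positivity of the kernels; `nnTh`: the system from
the two channels.
-/

set_option autoImplicit false

namespace PLT

open PHK MeasureTheory Set

/-- coefficients of `gk (1/2) 1`, in units `1 / 512` -/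
def aN : Bool → Kd6 → Kd6 → ℤ
  | true, .L, .T => 129
  | true, .T, .L => 129
  | true, .L, .F => 65
  | true, .F, .L => 65
  | true, .L, .H1 => 129
  | true, .H1, .L => 129
  | true, .T, .E => 449
  | true, .E, .T => 449
  | true, .T, .H1 => 65
  | true, .H1, .T => 65
  | false, .L, .L => 129
  | false, .L, .E => 449
  | false, .E, .L => 449
  | false, .L, .F => 193
  | false, .F, .L => 193
  | false, .L, .H1 => 129
  | false, .H1, .L => 129
  | false, .T, .E => 1409
  | false, .E, .T => 1409
  | false, .T, .F => 961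
  | false, .F, .T => 961
  | false, .T, .H2 => 321
  | false, .H2, .T => 321
  | false, .E, .E => 2241
  | false, .E, .F => 3265
  | false, .F, .E => 3265
  | false, .F, .F => 1217
  | _, _, _ => 1

/-- coefficients of `gk 1 2`, in units `1 / 512` -/
def bN : Bool → Kd6 → Kd6 → ℤ
  | true, .L, .T => 320
  | true, .T, .L => 320
  | true, .L, .E => 192
  | true, .E, .L => 192
  | true, .L, .F => 64
  | true, .F, .L => 64
  | true, .T, .F => 64
  | true, .F, .T => 64
  | false, .L, .L => 128
  | false, .L, .T => 1280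
  | false, .T, .L => 1280
  | false, .L, .E => 960
  | false, .E, .L => 960
  | false, .L, .F => 1088
  | false, .F, .L => 1088
  | false, .T, .T => 896
  | false, .T, .E => 960
  | false, .E, .T => 960
  | false, .T, .F => 1280
  | false, .F, .T => 1280
  | false, .T, .H2 => 320
  | false, .H2, .T => 320
  | false, .E, .E => 1408
  | false, .E, .F => 832
  | false, .F, .E => 832
  | false, .F, .F => 2240
  | _, _, _ => 0

/-- **the table** -/
def tbTh : Tb8 := fun σ K K' => [(aN σ K K', 2, 4), (bN σ K K', 4, 8)]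

theorem tbTh_symm (σ : Bool) (K K' : Kd6) : tbTh σ K K' = tbTh σ K' K := by
  cases σ <;> cases K <;> cases K' <;> decide

/-- **the conditions on the table** -/
theorem okTh : OkT tbTh := by
  constructor
  · intro σ K K' p hp
    have h : ∀ p ∈ tbTh σ K K', 0 ≤ p.1 ∧ 0 < p.2.1 ∧ p.2.1 < p.2.2 ∧ p.2.2 ≤ 16 := by
      cases σ <;> cases K <;> cases K' <;> decide
    exact h p hp
  · intro σ K K'
    refine ⟨_, List.mem_cons_self, ?_⟩
    show 0 < aN σ K K'
    cases σ <;> cases K <;> cases K' <;> decide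

/-- **positivity of the kernels** -/
theorem certTh : ∃ c0 : ℝ, 0 < c0 ∧ (∀ σ K K', IntegrableOn (kN tbTh σ K K') (Ioi 0)) ∧
    (∀ σ K K' x, 0 ≤ ∫ k in Ioi (0:ℝ), kN tbTh σ K K' k * Real.cos (k * x)) ∧
    ∀ σ K K' x, |x| ≤ 1 → c0 ≤ ∫ k in Ioi (0:ℝ), kN tbTh σ K K' k * Real.cos (k * x) := cert8 okTh

/-- **the system from the two channels** -/
theorem nnTh (h0 : RegP8 qTh tbTh true 0 1) (h1 : RegP8 qTh tbTh false 0 1) (n : ℕ) {z : ℝ} (hz : 0 < z) :
    (F8q qTh tbTh n z).Nn :=
  F8q_of qTh_k qTh_ct okTh.rgT h0 h1 n hz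

end PLT
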