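import Pool.Agent.PLT.Tail8
import Pool.Agent.PLT.Tab8

/-!
# The tail of the two line certificate at the point (helper64)

**`tailTh`**: `RegP8 qTh tbTh s 0 (11 / 16)` for both channels.
-/

set_option autoImplicit false

namespace PLT

open PHK

theorem chkTh_true : chkD8 (8 * qTh.m).toNat (PL8 qTh tbTh true) = true := by decide +kernel

theorem chkTh_false : chkD8 (8 * qTh.m).toNat (PL8 qTh tbTh false) = true := by decide +kernel

/-- **the tail at the point** -/
theorem tailTh (s : Bool) : RegP8 qTh tbTh s 0 (11 / 16) := by
  refine tail8 qTh_k (by decide) ?_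
  cases s
  · exact chkTh_false
  · exact chkTh_true

end PLT
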