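import Pool.Agent.PLT.LinkTh
import Pool.Agent.PLT.TailTh

/-!
# PLT/CellTh (helper52): the two line certificate

The point `qTh` with helper79's table `tbTh`, both channels: **`regTh s : Reg8 qTh tbTh s (11 / 16) 1`**;
with helper64's tail `tailTh` and helper38's `nnTh`: **`certNn : (F8q qTh tbTh n z).Nn`** for all `n`, `z > 0`.
-/

set_option autoImplicit false

namespace PLT

open Finset PHK

theorem all_appD {L M : List CellD} {f : CellD → Bool} (h : L.all f = true) (h' : M.all f = true) :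
    (L ++ M).all f = true := by
  rw [List.all_append, h, h']; rfl

/-- cells of the sum channel -/
def cP : List CellD := Ct.cP1 ++ Ct.cP2 ++ Ct.cP3 ++ Ct.cP4 ++ Ct.cP5

/-- cells of the difference channel -/
def cM : List CellD := Ct.cM1 ++ Ct.cM2 ++ Ct.cM3 ++ Ct.cM4 ++ Ct.cM5 ++ Ct.cM6 ++ Ct.cM7

theorem regP8 {y : ℝ} (h0 : 11 / 16 ≤ y) (h1 : y ≤ 1) (u : ℕ → ℝ) :
    0 ≤ ∑ i ∈ range 8, ∑ j ∈ range 8, PHK.mt Ct.PP y i j * u i * u j := by
  have hall : cP.all (cellOKD 961 Ct.PP 8) = true :=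
    all_appD (all_appD (all_appD (all_appD Ct.cP1_ok Ct.cP2_ok) Ct.cP3_ok) Ct.cP4_ok) Ct.cP5_ok
  have hch : chainD cP = true := by decide +kernel
  obtain ⟨c, L, hL⟩ : ∃ c L, cP = c :: L := ⟨_, _, rfl⟩
  obtain ⟨c', hl⟩ : ∃ c', cP.getLast? = some c' := ⟨_, rfl⟩
  have hc : c.p = 45 ∧ c.r = 6 := by
    have : cP.head? = some c := by rw [hL]; rfl
    have h2 : cP.head?.map (fun c => (c.p, c.r)) = some (45, 6) := by decide +kernel
    rw [this] at h2
    simpa using h2
  have hc' : c'.p = 1024 ∧ c'.r = 10 := by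
    have h2 : cP.getLast?.map (fun c => (c.p, c.r)) = some (1024, 10) := by decide +kernel
    rw [hl] at h2
    simpa using h2
  rw [hL] at hall hch hl
  refine reg_of_listD 961 Ct.PP 8 c' L c hall hch (by omega) hl ?_ ?_ u
  · rw [hc.1, hc.2]; norm_num; linarith
  · rw [hc'.1, hc'.2]; norm_num; linarith

theorem regM8 {y : ℝ} (h0 : 11 / 16 ≤ y) (h1 : y ≤ 1) (u : ℕ → ℝ) :
    0 ≤ ∑ i ∈ range 8, ∑ j ∈ range 8, PHK.mt Ct.PM y i j * u i * u j := by
  have hall : cM.all (cellOKD 961 Ct.PM 8) = true :=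
    all_appD (all_appD (all_appD (all_appD (all_appD (all_appD Ct.cM1_ok Ct.cM2_ok) Ct.cM3_ok) Ct.cM4_ok)
      Ct.cM5_ok) Ct.cM6_ok) Ct.cM7_ok
  have hch : chainD cM = true := by decide +kernel
  obtain ⟨c, L, hL⟩ : ∃ c L, cM = c :: L := ⟨_, _, rfl⟩
  obtain ⟨c', hl⟩ : ∃ c', cM.getLast? = some c' := ⟨_, rfl⟩
  have hc : c.p = 45 ∧ c.r = 6 := by
    have : cM.head? = some c := by rw [hL]; rfl
    have h2 : cM.head?.map (fun c => (c.p, c.r)) = some (45, 6) := by decide +kernel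
    rw [this] at h2
    simpa using h2
  have hc' : c'.p = 2048 ∧ c'.r = 11 := by
    have h2 : cM.getLast?.map (fun c => (c.p, c.r)) = some (2048, 11) := by decide +kernel
    rw [hl] at h2
    simpa using h2
  rw [hL] at hall hch hl
  refine reg_of_listD 961 Ct.PM 8 c' L c hall hch (by omega) hl ?_ ?_ u
  · rw [hc.1, hc.2]; norm_num; linarith
  · rw [hc'.1, hc'.2]; norm_num; linarith

/-- **the two line certificate on `11 / 16 ≤ y ≤ 1`** -/
theorem regTh (s : Bool) : Reg8 qTh tbTh s (11 / 16) 1 := by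
  cases s
  · exact reg8_of qTh_k Ct.PM lnkM fun y h0 h1 u => regM8 h0 h1 u
  · exact reg8_of qTh_k Ct.PP lnkP fun y h0 h1 u => regP8 h0 h1 u

/-- **the system of the two lines is nonnegative** -/
theorem certNn (n : ℕ) {z : ℝ} (hz : 0 < z) : (F8q qTh tbTh n z).Nn :=
  nnTh ((tailTh true).glue (regTh true).plain) ((tailTh false).glue (regTh false).plain) n hz

end PLT
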