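import Pool.Agent.PLT.Swept8

/-!
# The point `par6` with two lines of the quanta (helper64)

* `qP6` = the point `par6` in units `1 / 128` with the lines of the quanta at `-1 / 128` and `1 / 128`; `qP6_k`,
  `qP6_ct` (contacts `= kpZ`), `qP6_par : qP6.par = par6`, `qP6_rT`, `cd8_P6`, `qP6_of0`, `qP6_of1`, `qP6_d`;
* `DV_swept_P6`, `DV_AAf_P6`, `DV_AAt_P6`: exactness between the two lines;
* `F8q_P6_D`, `F8q_P6_a`, `F8q_P6_u`: the entries of `F8q qP6`.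
-/

set_option autoImplicit false

namespace PLT

open Finset Set PHK NUP1 NUO NUDispO Pool.Agent.NUM3

/-- **the point `par6` with two lines of the quanta**, lattice `1 / 128` -/
def qP6 : Pt := ⟨32, 258, 56, 4, 112, 192, -1, 1⟩

lemma qP6_k : 0 < qP6.k := by decide

lemma qP6_m : qP6.m = 128 := rfl

lemma qP6_mR : ((qP6.m : ℤ) : ℝ) = 128 := by rw [qP6_m]; norm_num

lemma qP6_par : qP6.par = par6 := by
  unfold Pt.par par6
  rw [qP6_mR]
  simp only [qP6]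
  norm_num

lemma qP6_rT : qP6.rT = 3 / 2 := by
  unfold Pt.rT
  rw [qP6_mR]
  simp only [qP6]
  norm_num

lemma qP6_of0 : qP6.of 0 = -(1 / 128) := by
  unfold Pt.of
  rw [if_pos rfl, qP6_mR]
  simp only [qP6]
  norm_num

lemma qP6_of1 : qP6.of 1 = 1 / 128 := by
  unfold Pt.of
  rw [if_neg (by decide), qP6_mR]
  simp only [qP6]
  norm_num

lemma qP6_d : qP6.d = 1 / 64 := by
  unfold Pt.d
  rw [qP6_of0, qP6_of1]
  norm_num

/-- the contacts of the kinds -/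
theorem qP6_ct : ∀ σ K K', ct8 qP6.m (dL8 qP6 σ (some (some K)) (some (some K'))) = kpZ σ K K' := by
  decide

theorem qP6_nwz : ∀ σ K, nwz qP6 σ (some (some K)) := by decide

lemma cd8_P6 (K : Kd6) : cd8 qP6.par qP6.rT K = cd6 par6 K := by
  rw [qP6_par, qP6_rT, cd8_cd6]

/-! ### exactness -/

/-- **objects against a quantum between the two lines** -/
theorem DV_swept_P6 {z : ℝ} (hz : 0 < z) (σ : Bool) (K : Kd6) {v : ℝ} (hv : v ∈ Icc (qP6.of 0) (qP6.of 1)) :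
    DV σ (cd6 par6 K) (cA8 v) z =
      Bal.p0 z qP6.d (v - qP6.of 0) * DV σ (cd6 par6 K) (cA8 (qP6.of 0)) z +
        Bal.p1 z qP6.d (v - qP6.of 0) * DV σ (cd6 par6 K) (cA8 (qP6.of 1)) z := by
  have h := DV_swept_pt qP6_k (by decide) (qP6_nwz σ K) hz hv
  rwa [cd8_P6] at h

/-- **two quanta of different families** -/
theorem DV_AAf_P6 {z : ℝ} (hz : 0 < z) {v w : ℝ} (hv : v ∈ Icc (qP6.of 0) (qP6.of 1))
    (hw : w ∈ Icc (qP6.of 0) (qP6.of 1)) : DV false (cA8 v) (cA8 w) z =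
      swq qP6 z v w fun v w => DV false (cA8 v) (cA8 w) z :=
  DV_AAf_pt (by rw [qP6_d]; norm_num) (by rw [qP6_d]; norm_num) hz hv hw

/-- **two quanta of the same family** -/
theorem DV_AAt_P6 {z : ℝ} (hz : 0 < z) {v w : ℝ} (hv : v ∈ Icc (qP6.of 0) (qP6.of 1))
    (hw : w ∈ Icc (qP6.of 0) (qP6.of 1)) : DV true (cA8 v) (cA8 w) z =
      (swq qP6 z v w fun v w => DV true (cA8 v) (cA8 w) z) +
        4 * Real.sinh (4 * z) * Bal.G z qP6.d (v - qP6.of 0) (w - qP6.of 0) :=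
  DV_AAt_pt (by rw [qP6_d]; norm_num) (by rw [qP6_d]; norm_num) hz hv hw

/-! ### the entries of the system -/

theorem F8q_P6_D (t : Tb8) (n : ℕ) (z : ℝ) (σ : Bool) (K K' : Kd6) :
    (F8q qP6 t n z).D σ K K' = DrM6 n par6 σ K K' z := by
  show DC n σ (cd8 qP6.par qP6.rT K) (cd8 qP6.par qP6.rT K') z = _
  rw [cd8_P6, cd8_P6, DC_cd6]

theorem F8q_P6_a (t : Tb8) (n : ℕ) (z : ℝ) (σ : Bool) (K : Kd6) (b : Fin 2) :
    (F8q qP6 t n z).a σ K b = DV σ (cd6 par6 K) (cA8 (qP6.of b)) z := by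
  show DV σ (cd8 qP6.par qP6.rT K) (cA8 (qP6.of b)) z = _
  rw [cd8_P6]

theorem F8q_P6_u (t : Tb8) (n : ℕ) (z : ℝ) (σ : Bool) (b b' : Fin 2) :
    (F8q qP6 t n z).u σ b b' = DV σ (cA8 (qP6.of b)) (cA8 (qP6.of b')) z := rfl

end PLT
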