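import Pool.Agent.PLT.NTab8

/-!
# The table of the two line certificate at the point `par6` (helper79's numbers) (helper38)

Point `qP6`, lines at `-1 / 128`, `1 / 128`: coefficients of `gk (1/2) 1` (`aP6`) and `gk 1 2` (`bP6`) in units
`1 / 512`; contacts `kpZ`, widths `epZ`.  **`tbP6`**: the table; `okP6`: the conditions; `certP6`: positivity of the
kernels.
-/

set_option autoImplicit false

namespace PLT

open PHK MeasureTheory Set

/-- coefficients of `gk (1/2) 1`, in units `1 / 512` -/
def aP6 : Bool → Kd6 → Kd6 → ℤ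
  | true, .L, .E => 129
  | true, .E, .L => 129
  | true, .T, .E => 257
  | true, .E, .T => 257
  | false, .L, .L => 193
  | false, .L, .T => 385
  | false, .T, .L => 385
  | false, .L, .E => 257
  | false, .E, .L => 257
  | false, .L, .F => 129
  | false, .F, .L => 129
  | false, .L, .H1 => 129
  | false, .H1, .L => 129
  | false, .L, .H2 => 65
  | false, .H2, .L => 65
  | false, .T, .T => 577
  | false, .T, .E => 769
  | false, .E, .T => 769
  | false, .T, .F => 577
  | false, .F, .T => 577
  | false, .T, .H2 => 961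
  | false, .H2, .T => 961
  | false, .E, .E => 1985
  | false, .E, .F => 3137
  | false, .F, .E => 3137
  | false, .F, .F => 1217
  | _, _, _ => 1

/-- coefficients of `gk 1 2`, in units `1 / 512` -/
def bP6 : Bool → Kd6 → Kd6 → ℤ
  | true, .L, .E => 192
  | true, .E, .L => 192
  | true, .L, .H2 => 64
  | true, .H2, .L => 64
  | true, .T, .H1 => 64
  | true, .H1, .T => 64
  | false, .L, .L => 576
  | false, .L, .T => 832
  | false, .T, .L => 832
  | false, .L, .E => 1088
  | false, .E, .L => 1088
  | false, .L, .F => 1024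
  | false, .F, .L => 1024
  | false, .L, .H2 => 128
  | false, .H2, .L => 128
  | false, .T, .T => 768
  | false, .T, .E => 1408
  | false, .E, .T => 1408
  | false, .T, .F => 1472
  | false, .F, .T => 1472
  | false, .T, .H2 => 64
  | false, .H2, .T => 64
  | false, .E, .E => 1472
  | false, .E, .F => 960
  | false, .F, .E => 960
  | false, .F, .F => 2176
  | _, _, _ => 0

/-- **the table** -/
def tbP6 : Tb8 := fun σ K K' => [(aP6 σ K K', 2, 4), (bP6 σ K K', 4, 8)]

theorem tbP6_symm (σ : Bool) (K K' : Kd6) : tbP6 σ K K' = tbP6 σ K' K := by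
  cases σ <;> cases K <;> cases K' <;> decide

/-- **the conditions on the table** -/
theorem okP6 : OkT tbP6 := by
  constructor
  · intro σ K K' p hp
    have h : ∀ p ∈ tbP6 σ K K', 0 ≤ p.1 ∧ 0 < p.2.1 ∧ p.2.1 < p.2.2 ∧ p.2.2 ≤ 16 := by
      cases σ <;> cases K <;> cases K' <;> decide
    exact h p hp
  · intro σ K K'
    refine ⟨_, List.mem_cons_self, ?_⟩
    show 0 < aP6 σ K K'
    cases σ <;> cases K <;> cases K' <;> decide

/-- **positivity of the kernels** -/
theorem certP6 : ∃ c0 : ℝ, 0 < c0 ∧ (∀ σ K K', IntegrableOn (kN tbP6 σ K K') (Ioi 0)) ∧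
    (∀ σ K K' x, 0 ≤ ∫ k in Ioi (0:ℝ), kN tbP6 σ K K' k * Real.cos (k * x)) ∧
    ∀ σ K K' x, |x| ≤ 1 → c0 ≤ ∫ k in Ioi (0:ℝ), kN tbP6 σ K K' k * Real.cos (k * x) := cert8 okP6

end PLT
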