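import Pool.Agent.PLT.TailE8
import Pool.Agent.PLT.PtP6
import Pool.Agent.PLT.TabP6

/-!
# The tail of the two line certificate at `par6` (helper64)

**`tailP6`**: `RegP8 qP6 tbP6 s 0 (9 / 16)` for both channels.
-/

set_option autoImplicit false

namespace PLT

open PHK

theorem chkP6_true : chkE8 9 242 (8 * qP6.m).toNat (PL8 qP6 tbP6 true) = true := by decide +kernel

theorem chkP6_false : chkE8 9 242 (8 * qP6.m).toNat (PL8 qP6 tbP6 false) = true := by decide +kernel

/-- **the tail at the point** -/
theorem tailP6 (s : Bool) : RegP8 qP6 tbP6 s 0 (9 / 16) := by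
  have h : RegP8 qP6 tbP6 s 0 (((9 : ℕ) : ℝ) / 16) := by
    refine tailE8 (R := 242) (by norm_num) (by norm_num) qP6_k (by decide) ?_
    cases s
    · exact chkP6_false
    · exact chkP6_true
  norm_num at h ⊢
  exact h

end PLT
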