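import Pool.Agent.PLT.LinkP6
import Pool.Agent.PLT.TailP6
import Pool.Agent.PLT.CellTh

/-!
# PLT/CellP6 (helper52): the two line certificate at `par6`, lines of the quanta at `-1 / 128` and `1 / 128`

Helper79's table `tbP6`, both channels: **`regP6 s : Reg8 qP6 tbP6 s (9 / 16) 1`**; with helper64's tail
`tailP6` and helper38's `okP6`: **`certNnP6 : (F8q qP6 tbP6 n z).Nn`** for all `n`, `z > 0`.
-/

set_option autoImplicit false

namespace PLT

open Finset PHK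

/-- cells of the sum channel -/
def cP6P : List CellD := Cq.cP1 ++ Cq.cP2 ++ Cq.cP3 ++ Cq.cP4 ++ Cq.cP5 ++ Cq.cP6

/-- cells of the difference channel -/
def cP6M : List CellD := Cq.cM1 ++ Cq.cM2 ++ Cq.cM3 ++ Cq.cM4 ++ Cq.cM5 ++ Cq.cM6 ++ Cq.cM7

theorem regP6P {y : ℝ} (h0 : 9 / 16 ≤ y) (h1 : y ≤ 1) (u : ℕ → ℝ) :
    0 ≤ ∑ i ∈ range 8, ∑ j ∈ range 8, PHK.mt Cq.PP y i j * u i * u j := by
  have hall : cP6P.all (cellOKD 1025 Cq.PP 8) = true :=
    all_appD (all_appD (all_appD (all_appD (all_appD Cq.cP1_ok Cq.cP2_ok) Cq.cP3_ok) Cq.cP4_ok) Cq.cP5_ok)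
      Cq.cP6_ok
  have hch : chainD cP6P = true := by decide +kernel
  obtain ⟨c, L, hL⟩ : ∃ c L, cP6P = c :: L := ⟨_, _, rfl⟩
  obtain ⟨c', hl⟩ : ∃ c', cP6P.getLast? = some c' := ⟨_, rfl⟩
  have hc : c.p = 37 ∧ c.r = 6 := by
    have : cP6P.head? = some c := by rw [hL]; rfl
    have h2 : cP6P.head?.map (fun c => (c.p, c.r)) = some (37, 6) := by decide +kernel
    rw [this] at h2
    simpa using h2
  have hc' : c'.p = 2048 ∧ c'.r = 11 := by
    have h2 : cP6P.getLast?.map (fun c => (c.p, c.r)) = some (2048, 11) := by decide +kernel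
    rw [hl] at h2
    simpa using h2
  rw [hL] at hall hch hl
  refine reg_of_listD 1025 Cq.PP 8 c' L c hall hch (by omega) hl ?_ ?_ u
  · rw [hc.1, hc.2]; norm_num; linarith
  · rw [hc'.1, hc'.2]; norm_num; linarith

theorem regP6M {y : ℝ} (h0 : 9 / 16 ≤ y) (h1 : y ≤ 1) (u : ℕ → ℝ) :
    0 ≤ ∑ i ∈ range 8, ∑ j ∈ range 8, PHK.mt Cq.PM y i j * u i * u j := by
  have hall : cP6M.all (cellOKD 1025 Cq.PM 8) = true :=
    all_appD (all_appD (all_appD (all_appD (all_appD (all_appD Cq.cM1_ok Cq.cM2_ok) Cq.cM3_ok) Cq.cM4_ok)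
      Cq.cM5_ok) Cq.cM6_ok) Cq.cM7_ok
  have hch : chainD cP6M = true := by decide +kernel
  obtain ⟨c, L, hL⟩ : ∃ c L, cP6M = c :: L := ⟨_, _, rfl⟩
  obtain ⟨c', hl⟩ : ∃ c', cP6M.getLast? = some c' := ⟨_, rfl⟩
  have hc : c.p = 37 ∧ c.r = 6 := by
    have : cP6M.head? = some c := by rw [hL]; rfl
    have h2 : cP6M.head?.map (fun c => (c.p, c.r)) = some (37, 6) := by decide +kernel
    rw [this] at h2
    simpa using h2
  have hc' : c'.p = 2048 ∧ c'.r = 11 := by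
    have h2 : cP6M.getLast?.map (fun c => (c.p, c.r)) = some (2048, 11) := by decide +kernel
    rw [hl] at h2
    simpa using h2
  rw [hL] at hall hch hl
  refine reg_of_listD 1025 Cq.PM 8 c' L c hall hch (by omega) hl ?_ ?_ u
  · rw [hc.1, hc.2]; norm_num; linarith
  · rw [hc'.1, hc'.2]; norm_num; linarith

/-- **the two line certificate on `9 / 16 ≤ y ≤ 1`** -/
theorem regP6 (s : Bool) : Reg8 qP6 tbP6 s (9 / 16) 1 := by
  cases s
  · exact reg8_of qP6_k Cq.PM lnkP6M fun y h0 h1 u => regP6M h0 h1 u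
  · exact reg8_of qP6_k Cq.PP lnkP6P fun y h0 h1 u => regP6P h0 h1 u

/-- **the system of the two lines is nonnegative** -/
theorem certNnP6 (n : ℕ) {z : ℝ} (hz : 0 < z) : (F8q qP6 tbP6 n z).Nn :=
  F8q_of qP6_k qP6_ct okP6.rgT ((tailP6 true).glue (regP6 true).plain)
    ((tailP6 false).glue (regP6 false).plain) n hz

end PLT
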