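import Pool.Agent.PLT.EnT
import Pool.Agent.PLT.CellP6

/-!
# Stability at the point `par6`, seas on the line (helper38)

* `hqP6 : HQ qP6 tbP6` (helper52's `certNnP6`, room `1 / 128`), **`htP6 : HT qP6 tbP6 (1 / 128)`**;
* **`stabP6`**: `StabU par6 (fun m => enT par6 (S m))` for every sequence of seas with `|eta| ≤ l / 128`.
-/

set_option autoImplicit false

noncomputable section

namespace PLT

open PHK NUO

theorem hqP6 : HQ qP6 tbP6 where
  k0 := qP6_k
  a0 := by decide
  d1 := by rw [qP6_d]; norm_num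
  rT := qP6_rT
  room := by decide
  ok := okP6
  nn n _ hz := certNnP6 n hz

/-- **the point `par6` with its certificate** -/
theorem htP6 : HT qP6 tbP6 (1 / 128) where
  toHQ := hqP6
  pgc := by
    rw [qP6_par, qP6_of0, qP6_of1]
    have e : -(1 / 128 : ℝ) * NUMF.l = -((1 / 128) * NUMF.l) := by ring
    rw [e]
    refine Cv.PGC.of_num ?_ ?_ ?_ ?_ ?_ ?_ ?_ ?_ ?_ ?_ ?_ ?_ ?_ ?_ <;> norm_num [par6]
  ok6 := by rw [qP6_par]; exact par6_good.ok
  nd6 := by rw [qP6_par]; exact nd6_par6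

/-- the window of the curve -/
theorem winP6_of {S : SeaC} (h1 : ∀ x, |Cv.eta x| ≤ NUMF.l / 128) : WinQ qP6 S where
  lo x := by
    rw [qP6_of0]
    linarith [(abs_le.1 (h1 x)).1]
  hi x := by
    rw [qP6_of1]
    linarith [(abs_le.1 (h1 x)).2]
  osc x y := by
    have h3 : NUMF.l ≤ 2 / 5 := by
      unfold NUMF.l
      linarith [Real.pi_lt_d2]
    rw [abs_le]
    constructor <;> linarith [(abs_le.1 (h1 x)).1, (abs_le.1 (h1 x)).2, (abs_le.1 (h1 y)).1, (abs_le.1 (h1 y)).2]

/-- **stability at the point `par6`** -/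
theorem stabP6 {S : ℕ → SeaC} (hW : ∀ m, WinQ qP6 (S m)) : StabU par6 fun m => enT par6 (S m) := by
  have h := stabU_enT htP6 hW
  rwa [qP6_par] at h

end PLT

end
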