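import Pool.Agent.PLT.EnT
import Pool.Agent.PLT.CellTh

/-!
# Stability at the point of the tilted sea (helper38)

* `hqTh : HQ qTh tbTh` (helper52's `certNn`, room `1 / 120`), **`htTh : HT qTh tbTh (1 / 120)`**;
* `winTh`: every sea on a static curve (`SeaC`) is in the window of the point;
* **`stabTh`**: `StabU parTh (fun m => enT parTh (S m))` for every sequence of seas with `-l / 120 ≤ eta ≤ 7 / 120 l` and
  oscillation `≤ 1 / 40`.
-/

set_option autoImplicit false

noncomputable section

namespace PLT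

open PHK NUO

theorem hqTh : HQ qTh tbTh where
  k0 := qTh_k
  a0 := by decide
  d1 := by rw [qTh_d]; norm_num
  rT := qTh_rT
  room := by decide
  ok := okTh
  nn n _ hz := certNn n hz

/-- **the point of the tilted sea with its certificate** -/
theorem htTh : HT qTh tbTh (1 / 120) where
  toHQ := hqTh
  pgc := by
    rw [qTh_par, qTh_of0, qTh_of1]
    have e : -(1 / 120 : ℝ) * NUMF.l = -((1 / 120) * NUMF.l) := by ring
    rw [e]
    refine Cv.PGC.of_num ?_ ?_ ?_ ?_ ?_ ?_ ?_ ?_ ?_ ?_ ?_ ?_ ?_ ?_ <;> norm_num [parTh]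
  ok6 := by rw [qTh_par]; exact parTh_good.ok
  nd6 := by rw [qTh_par]; exact parTh_good.nd6 (by norm_num [parTh])

lemma l_le25 : NUMF.l ≤ 2 / 5 := by
  unfold NUMF.l
  linarith [Real.pi_lt_d2]

/-- the window of the curve -/
theorem winTh_of {S : SeaC} (h1 : ∀ x, -(NUMF.l / 1000) ≤ Cv.eta x) (h2 : ∀ x, Cv.eta x ≤ 7 / 120 * NUMF.l) :
    WinQ qTh S where
  lo x := by
    rw [qTh_of0]
    linarith [h1 x, NUMF.l_pos]
  hi x := by
    rw [qTh_of1]
    exact h2 x
  osc x y := by
    have h3 := l_le25
    rw [abs_le]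
    constructor <;> linarith [h1 x, h2 x, h1 y, h2 y]

/-- every sea on a static curve is in the window of the point -/
theorem winTh (S : SeaC) : WinQ qTh S :=
  winTh_of (fun x => SeaC.eta_nn x) fun x => SeaC.eta_le7 x

/-- **stability at the point of the tilted sea** -/
theorem stabTh {S : ℕ → SeaC} (hW : ∀ m, WinQ qTh (S m)) : StabU parTh fun m => enT parTh (S m) := by
  have h := stabU_enT htTh hW
  rwa [qTh_par] at h

/-- **the same, every sequence of seas** -/
theorem stabThU (S : ℕ → SeaC) : StabU parTh fun m => enT parTh (S m) := stabTh fun m => winTh (S m)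

end PLT

end
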