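import Pool.Agent.PLT.KerS
import Pool.Agent.PLT.SeaC

/-!
# THETA, row B: the static curves of the class `SeaC` (helper69)

`crvC`: the curve of a sea with its derivatives is in `Crv (fun n => B.Ce (n + 1))`; `bentC`.
-/

set_option autoImplicit false

open MeasureTheory Set Filter Topology Complex
open scoped ContDiff

namespace PLT.Cv

open NUMF (l l_pos)
open PLT.KF

noncomputable section

section

variable (B : SeaCB) [SeaC] [SeaCU B]

lemma l_lt4 : l < 3928 / 10000 := by
  have h := NUAct.l8
  have := Real.pi_lt_d4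
  linarith

include B

/-- **the curve of a sea** -/
theorem crvC : Crv (fun n => B.Ce (n + 1)) (fun n => iteratedDeriv n eta) where
  d n t := by
    have h1 : Differentiable ℝ (iteratedDeriv n eta) :=
      eta_smooth.differentiable_iteratedDeriv n (by exact_mod_cast WithTop.coe_lt_top _)
    have h2 := (h1 t).hasDerivAt
    rwa [← iteratedDeriv_succ] at h2
  b n t := by
    have h : |iteratedDeriv (n + 1) eta t| ≤ B.Ce (n + 1) * Real.exp (-(32 / 3) * |t|) :=
      SeaCU.cur (B := B) (n + 1) t (by omega)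
    refine h.trans (mul_le_mul_of_nonneg_left (Real.exp_le_exp.2 ?_) (B.Ce0 _))
    have := abs_nonneg t
    linarith
  osc t s := by
    have hl := l_pos
    have hl4 := l_lt4
    have h1 : -(l / 1000) ≤ eta t := by
      have := eta_nn t
      linarith
    have h2 : -(l / 1000) ≤ eta s := by
      have := eta_nn s
      linarith
    have h3 := eta_le t
    have h4 := eta_le s
    simp only [iteratedDeriv_zero]
    rw [abs_le]
    constructor <;> linarith
  sl t := by
    simp only [iteratedDeriv_one]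
    exact eta'_le t

theorem bentC : Bent eta (deriv eta) := by
  have h := (crvC B).bent
  simp only [iteratedDeriv_zero, iteratedDeriv_one] at h
  exact h

end

/-- towers of both static kernels of all seas -/
theorem exists_towC (B : SeaCB) (N : ℕ) : ∃ C : ℝ, 0 ≤ C ∧ ∀ [SeaC] [SeaCU B],
    (∃ A, Tw (N + 1) C (ko eta (deriv eta)) A) ∧ ∃ A, Tw (N + 1) C (kx eta) A := by
  obtain ⟨C, hC, h⟩ := exists_towO (fun n => B.Ce (n + 1)) N
  obtain ⟨C', hC', h'⟩ := exists_towX (fun n => B.Ce (n + 1)) N
  have mono : ∀ {k : ℝ → ℝ → ℝ} {A : ℕ → ℝ → ℝ → ℝ} {c c' : ℝ}, c ≤ c' → Tw (N + 1) c k A → Tw (N + 1) c' k A :=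
    fun {k A c c'} hc h => ⟨h.z, h.sy, h.d, fun n hn t s => (h.b n hn t s).trans
      (mul_le_mul_of_nonneg_right hc (wk_nonneg t s)), h.c⟩
  refine ⟨C + C', by positivity, fun {_} {_} => ⟨?_, ?_⟩⟩
  · obtain ⟨A, hA⟩ := h _ (crvC B)
    simp only [iteratedDeriv_zero, iteratedDeriv_one] at hA
    exact ⟨A, mono (by linarith) hA⟩
  · obtain ⟨A, hA⟩ := h' _ (crvC B)
    simp only [iteratedDeriv_zero] at hA
    exact ⟨A, mono (by linarith) hA⟩

end

end PLT.Cv
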