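import Pool.Agent.PLT.TriG

/-!
# Trial densities for a smooth perturbation of the straight pair (helper8, row B1d)

* `KOk C ks k1 k2`: smooth symmetric kernels, two derivatives in the first variable at most
  `C exp (-(3/2) |t - s|)`;
* `kop ks ν`: the potential of the kernels; `O1 th ks`: `|<ν, ks ν>| ≤ th <ν, V ν>` for neutral densities;
* **`contr`**: `Qs s (ks ν) (ks ν) ≤ th² Qs (2 δ²) g g` for `ν = Ad δ g`;
* `St`: states of the iteration; **`solve`**.
-/

set_option autoImplicit false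

open MeasureTheory Set Filter Topology

namespace PLT.Tri

noncomputable section

open NUMF (l l_pos V Lh Uh)
open NUC43
open NUC37 (cv)

/-! ### kernels -/

/-- smooth kernels -/
structure KOk (C : ℝ) (ks k1 k2 : Bool → Bool → ℝ → ℝ → ℝ) : Prop where
  d1 : ∀ a b t s, HasDerivAt (fun x => ks a b x s) (k1 a b t s) t
  d2 : ∀ a b t s, HasDerivAt (fun x => k1 a b x s) (k2 a b t s) t
  c0 : ∀ a b, Continuous fun p : ℝ × ℝ => ks a b p.1 p.2
  c1 : ∀ a b, Continuous fun p : ℝ × ℝ => k1 a b p.1 p.2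
  c2 : ∀ a b, Continuous fun p : ℝ × ℝ => k2 a b p.1 p.2
  b0 : ∀ a b t s, |ks a b t s| ≤ C * Real.exp (-(3 / 2) * |t - s|)
  b1 : ∀ a b t s, |k1 a b t s| ≤ C * Real.exp (-(3 / 2) * |t - s|)
  b2 : ∀ a b t s, |k2 a b t s| ≤ C * Real.exp (-(3 / 2) * |t - s|)
  sy : ∀ a b t s, ks a b t s = ks b a s t

/-- potential of the kernels -/
def kop (ks : Bool → Bool → ℝ → ℝ → ℝ) (ν : Bool → ℝ → ℝ) (a : Bool) (t : ℝ) : ℝ :=
  (∫ s, ks a true t s * ν true s) + ∫ s, ks a false t s * ν false s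

/-- **(O1)** -/
def O1 (th : ℝ) (ks : Bool → Bool → ℝ → ℝ → ℝ) : Prop :=
  ∀ (M : ℝ) (ν : Bool → ℝ → ℝ), (∀ a, Nd M (ν a)) → (∫ t, (ν true t - ν false t)) = 0 →
    |prs ν (kop ks ν)| ≤ th * EV ν ν

variable {C M M' δ : ℝ} {ks k1 k2 : Bool → Bool → ℝ → ℝ → ℝ} {ν ν' : Bool → ℝ → ℝ}

lemma KOk.C0 (h : KOk C ks k1 k2) : 0 ≤ C := by
  have := (abs_nonneg _).trans (h.b0 true true 0 0)
  simpa using this

lemma exp_le1 (t : ℝ) : Real.exp (-|t|) ≤ 1 := Real.exp_le_one_iff.2 (by have := abs_nonneg t; linarith)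

lemma kn_le {k : ℝ → ℝ → ℝ} (hC : 0 ≤ C) (hb : ∀ t s, |k t s| ≤ C * Real.exp (-(3 / 2) * |t - s|)) (t s : ℝ) : |k t s| ≤ C :=
  (hb t s).trans (mul_le_of_le_one_right hC (Real.exp_le_one_iff.2 (by have := abs_nonneg (t - s); linarith)))

lemma kn_int {k : ℝ → ℝ → ℝ} (hc : Continuous fun p : ℝ × ℝ => k p.1 p.2) (hC : 0 ≤ C)
    (hb : ∀ t s, |k t s| ≤ C * Real.exp (-(3 / 2) * |t - s|)) {n : ℝ → ℝ} (hn : Nd M n) (t : ℝ) :
    Integrable fun s => k t s * n s := by
  have h1 := hn.int.bdd_mul (c := C) (f := fun s => k t s)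
    ((hc.comp (by fun_prop : Continuous fun s : ℝ => (t, s))).aestronglyMeasurable)
    (ae_of_all _ fun s => kn_le hC hb t s)
  exact h1

lemma kn_bd {k : ℝ → ℝ → ℝ} (hC : 0 ≤ C)
    (hb : ∀ t s, |k t s| ≤ C * Real.exp (-(3 / 2) * |t - s|)) {n : ℝ → ℝ} (hn : Nd M n) (t : ℝ) :
    |∫ s, k t s * n s| ≤ C * cH * M * Real.exp (-|t|) := by
  have hM := hn.M0
  have i1 : Integrable fun s : ℝ => Real.exp (-(1 / 2) * |t - s|) := exph_int.comp_sub_left t
  rw [← Real.norm_eq_abs]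
  have h1 : ‖∫ s, k t s * n s‖ ≤ ∫ s, C * M * Real.exp (-|t|) * Real.exp (-(1 / 2) * |t - s|) := by
    refine norm_integral_le_of_norm_le (i1.const_mul _) (ae_of_all _ fun s => ?_)
    rw [norm_mul, Real.norm_eq_abs, Real.norm_eq_abs]
    have e1 : Real.exp (-(3 / 2) * |t - s|) * Real.exp (-|s|) ≤ Real.exp (-|t|) * Real.exp (-(1 / 2) * |t - s|) := by
      rw [← Real.exp_add, ← Real.exp_add]
      refine Real.exp_le_exp.2 ?_
      have h2 : |t| ≤ |t - s| + |s| := by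
        have := abs_add_le (t - s) s
        rwa [sub_add_cancel] at this
      linarith
    calc |k t s| * |n s| ≤ (C * Real.exp (-(3 / 2) * |t - s|)) * (M * Real.exp (-|s|)) :=
          mul_le_mul (hb t s) (hn.bd s) (abs_nonneg _) (by positivity)
      _ = C * M * (Real.exp (-(3 / 2) * |t - s|) * Real.exp (-|s|)) := by ring
      _ ≤ C * M * (Real.exp (-|t|) * Real.exp (-(1 / 2) * |t - s|)) := by gcongr
      _ = _ := by ring
  rw [integral_const_mul, integral_sub_left_eq_self (fun s : ℝ => Real.exp (-(1 / 2) * |s|)) volume t] at h1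
  refine h1.trans (le_of_eq ?_)
  unfold cH
  ring

lemma kn_cont {k : ℝ → ℝ → ℝ} (hc : Continuous fun p : ℝ × ℝ => k p.1 p.2) (hC : 0 ≤ C)
    (hb : ∀ t s, |k t s| ≤ C * Real.exp (-(3 / 2) * |t - s|)) {n : ℝ → ℝ} (hn : Nd M n) :
    Continuous fun t => ∫ s, k t s * n s := by
  refine continuous_of_dominated (bound := fun s => C * |n s|) ?_ ?_ ?_ ?_
  · exact fun t => (kn_int hc hC hb hn t).aestronglyMeasurable
  · refine fun t => ae_of_all _ fun s => ?_
    rw [norm_mul, Real.norm_eq_abs, Real.norm_eq_abs]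
    exact mul_le_mul_of_nonneg_right (kn_le hC hb t s) (abs_nonneg _)
  · exact hn.int.abs.const_mul _
  · refine ae_of_all _ fun s => ?_
    have : Continuous fun t => k t s := hc.comp (by fun_prop : Continuous fun t : ℝ => (t, s))
    exact this.mul continuous_const

lemma kn_deriv {k k' : ℝ → ℝ → ℝ} (hc : Continuous fun p : ℝ × ℝ => k p.1 p.2)
    (hc' : Continuous fun p : ℝ × ℝ => k' p.1 p.2) (hC : 0 ≤ C)
    (hb : ∀ t s, |k t s| ≤ C * Real.exp (-(3 / 2) * |t - s|)) (hb' : ∀ t s, |k' t s| ≤ C * Real.exp (-(3 / 2) * |t - s|))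
    (hd : ∀ t s, HasDerivAt (fun x => k x s) (k' t s) t) {n : ℝ → ℝ} (hn : Nd M n) (t : ℝ) :
    HasDerivAt (fun t => ∫ s, k t s * n s) (∫ s, k' t s * n s) t := by
  refine (hasDerivAt_integral_of_dominated_loc_of_deriv_le (F := fun t s => k t s * n s)
    (F' := fun t s => k' t s * n s) (s := univ) (bound := fun s => C * |n s|) univ_mem ?_ ?_ ?_ ?_ ?_ ?_).2
  · exact Eventually.of_forall fun x => (kn_int hc hC hb hn x).aestronglyMeasurable
  · exact kn_int hc hC hb hn t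
  · exact (kn_int hc' hC hb' hn t).aestronglyMeasurable
  · refine ae_of_all _ fun s x _ => ?_
    rw [norm_mul, Real.norm_eq_abs, Real.norm_eq_abs]
    exact mul_le_mul_of_nonneg_right (kn_le hC hb' x s) (abs_nonneg _)
  · exact hn.int.abs.const_mul _
  · exact ae_of_all _ fun s x _ => (hd x s).mul_const _

/-- the potential of the kernels is smooth -/
theorem kop_w2 (h : KOk C ks k1 k2) (hν : ∀ a, Nd M (ν a)) (a : Bool) :
    W2 (2 * C * cH * M) (kop ks ν a) (kop k1 ν a) (kop k2 ν a) := by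
  have hC := h.C0
  have hb : ∀ {k : Bool → Bool → ℝ → ℝ → ℝ}, (∀ a b t s, |k a b t s| ≤ C * Real.exp (-(3 / 2) * |t - s|)) → ∀ t,
      |kop k ν a t| ≤ 2 * C * cH * M * Real.exp (-|t|) := by
    intro k hk t
    have h1 := kn_bd hC (hk a true) (hν true) t
    have h2 := kn_bd hC (hk a false) (hν false) t
    unfold kop
    refine (abs_add_le _ _).trans ?_
    linarith
  refine ⟨fun t => ?_, fun t => ?_, ?_, hb h.b0, hb h.b1, hb h.b2⟩
  · exact (kn_deriv (h.c0 a true) (h.c1 a true) hC (h.b0 a true) (h.b1 a true) (h.d1 a true) (hν true) t).add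
      (kn_deriv (h.c0 a false) (h.c1 a false) hC (h.b0 a false) (h.b1 a false) (h.d1 a false) (hν false) t)
  · exact (kn_deriv (h.c1 a true) (h.c2 a true) hC (h.b1 a true) (h.b2 a true) (h.d2 a true) (hν true) t).add
      (kn_deriv (h.c1 a false) (h.c2 a false) hC (h.b1 a false) (h.b2 a false) (h.d2 a false) (hν false) t)
  · exact (kn_cont (h.c2 a true) hC (h.b2 a true) (hν true)).add (kn_cont (h.c2 a false) hC (h.b2 a false) (hν false))

/-- linearity -/
lemma kop_add (h : KOk C ks k1 k2) (hν : ∀ a, Nd M (ν a)) (hν' : ∀ a, Nd M' (ν' a)) (x : ℝ) (a : Bool) (t : ℝ) :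
    kop ks (fun a t => ν a t + x * ν' a t) a t = kop ks ν a t + x * kop ks ν' a t := by
  have hC := h.C0
  have e : ∀ b, ∫ s, ks a b t s * (ν b s + x * ν' b s) = (∫ s, ks a b t s * ν b s) + x * ∫ s, ks a b t s * ν' b s := by
    intro b
    rw [← integral_const_mul, ← integral_add (kn_int (h.c0 a b) hC (h.b0 a b) (hν b) t)
      ((kn_int (h.c0 a b) hC (h.b0 a b) (hν' b) t).const_mul x)]
    congr 1
    funext s
    ring
  unfold kop
  simp only
  rw [e, e]
  ring

/-- symmetry -/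
theorem kop_symm (h : KOk C ks k1 k2) (hν : ∀ a, Nd M (ν a)) (hν' : ∀ a, Nd M' (ν' a)) :
    prs ν (kop ks ν') = prs ν' (kop ks ν) := by
  have hC := h.C0
  have hI : ∀ a b, Integrable (fun p : ℝ × ℝ => ν a p.1 * (ks a b p.1 p.2 * ν' b p.2))
      ((volume : Measure ℝ).prod volume) := by
    intro a b
    have h0 := (hν a).int.mul_prod (hν' b).int
    have h1 := h0.mul_bdd (c := C) (g := fun p : ℝ × ℝ => ks a b p.1 p.2) (h.c0 a b).aestronglyMeasurable
      (ae_of_all _ fun p => kn_le hC (h.b0 a b) p.1 p.2)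
    refine h1.congr (ae_of_all _ fun p => ?_)
    simp only
    ring
  have sw : ∀ a b, ∫ t, ν a t * ∫ s, ks a b t s * ν' b s = ∫ t, ν' b t * ∫ s, ks b a t s * ν a s := by
    intro a b
    have e1 : ∀ t, ν a t * ∫ s, ks a b t s * ν' b s = ∫ s, ν a t * (ks a b t s * ν' b s) := fun t => by
      rw [integral_const_mul]
    simp_rw [e1]
    rw [integral_integral_swap (hI a b)]
    congr 1
    funext s
    rw [← integral_const_mul]
    congr 1
    funext t
    rw [h.sy a b t s]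
    ring
  have sp : ∀ {μ μ' : Bool → ℝ → ℝ} {N N' : ℝ}, (∀ a, Nd N (μ a)) → (∀ a, Nd N' (μ' a)) → ∀ a,
      ∫ t, μ a t * kop ks μ' a t = (∫ t, μ a t * ∫ s, ks a true t s * μ' true s) +
        ∫ t, μ a t * ∫ s, ks a false t s * μ' false s := by
    intro μ μ' N N' hμ hμ' a
    have ib : ∀ b, Integrable fun t => μ a t * ∫ s, ks a b t s * μ' b s := fun b =>
      (hμ a).int.mul_bdd (c := C * cH * N') (kn_cont (h.c0 a b) hC (h.b0 a b) (hμ' b)).aestronglyMeasurable
        (ae_of_all _ fun t => by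
          refine (kn_bd hC (h.b0 a b) (hμ' b) t).trans (mul_le_of_le_one_right ?_ (exp_le1 t))
          have := (hμ' b).M0
          have := cH_pos
          positivity)
    rw [← integral_add (ib true) (ib false)]
    congr 1
    funext t
    unfold kop
    ring
  unfold prs
  rw [sp hν hν', sp hν hν', sp hν' hν, sp hν' hν, sw true true, sw true false, sw false true, sw false false]
  ring

/-! ### quadratic expansions -/

/-- expansion of a form -/
theorem form_expand {T : (Bool → ℝ → ℝ) → Bool → ℝ → ℝ} {x : ℝ} (hν : ∀ a, Nd M (ν a)) (hν' : ∀ a, Nd M' (ν' a))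
    (hl : ∀ a t, T (fun a t => ν a t + x * ν' a t) a t = T ν a t + x * T ν' a t)
    (hc : ∀ a, Continuous (T ν a)) (hc' : ∀ a, Continuous (T ν' a)) {B : ℝ} (hb : ∀ a t, |T ν a t| ≤ B)
    (hb' : ∀ a t, |T ν' a t| ≤ B) :
    prs (fun a t => ν a t + x * ν' a t) (T fun a t => ν a t + x * ν' a t) =
      prs ν (T ν) + x * (prs ν (T ν') + prs ν' (T ν)) + x ^ 2 * prs ν' (T ν') := by
  have i1 : ∀ a, Integrable fun t => ν a t * T ν a t := fun a =>
    (hν a).int.mul_bdd (c := B) (hc a).aestronglyMeasurable (ae_of_all _ (hb a))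
  have i2 : ∀ a, Integrable fun t => ν a t * T ν' a t := fun a =>
    (hν a).int.mul_bdd (c := B) (hc' a).aestronglyMeasurable (ae_of_all _ (hb' a))
  have i3 : ∀ a, Integrable fun t => ν' a t * T ν a t := fun a =>
    (hν' a).int.mul_bdd (c := B) (hc a).aestronglyMeasurable (ae_of_all _ (hb a))
  have i4 : ∀ a, Integrable fun t => ν' a t * T ν' a t := fun a =>
    (hν' a).int.mul_bdd (c := B) (hc' a).aestronglyMeasurable (ae_of_all _ (hb' a))
  have e : ∀ a, ∫ t, (ν a t + x * ν' a t) * T (fun a t => ν a t + x * ν' a t) a t =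
      (∫ t, ν a t * T ν a t) + x * ((∫ t, ν a t * T ν' a t) + ∫ t, ν' a t * T ν a t) +
        x ^ 2 * ∫ t, ν' a t * T ν' a t := by
    intro a
    have j2 : Integrable fun t => x * (ν a t * T ν' a t + ν' a t * T ν a t) := ((i2 a).add (i3 a)).const_mul x
    have j4 : Integrable fun t => x ^ 2 * (ν' a t * T ν' a t) := (i4 a).const_mul _
    have j5 : Integrable fun t => ν a t * T ν a t + x * (ν a t * T ν' a t + ν' a t * T ν a t) := (i1 a).add j2
    have e0 : ∀ t, (ν a t + x * ν' a t) * T (fun a t => ν a t + x * ν' a t) a t =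
        (ν a t * T ν a t + x * (ν a t * T ν' a t + ν' a t * T ν a t)) + x ^ 2 * (ν' a t * T ν' a t) := by
      intro t
      rw [hl]
      ring
    simp_rw [e0]
    rw [integral_add j5 j4, integral_add (i1 a) j2, integral_const_mul, integral_const_mul,
      integral_add (i2 a) (i3 a)]
  unfold prs
  rw [e, e]
  ring

/-- own potential -/
def Vp (ν : Bool → ℝ → ℝ) (a : Bool) (t : ℝ) : ℝ := ∫ u, ν a u * V (t - u)

lemma EV_eq (ν ν' : Bool → ℝ → ℝ) : EV ν ν' = prs ν (Vp ν') := rfl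

lemma V_in' {n : ℝ → ℝ} (hn : Nd M n) (t : ℝ) : Integrable fun u => n u * V (t - u) :=
  (V_nd hn t).congr (ae_of_all _ fun _ => mul_comm _ _)

lemma Vp_add (hν : ∀ a, Nd M (ν a)) (hν' : ∀ a, Nd M' (ν' a)) (x : ℝ) (a : Bool) (t : ℝ) :
    Vp (fun a t => ν a t + x * ν' a t) a t = Vp ν a t + x * Vp ν' a t := by
  unfold Vp
  rw [← integral_const_mul, ← integral_add (V_in' (hν a) t) ((V_in' (hν' a) t).const_mul x)]
  congr 1
  funext u
  ring

lemma kop_bdd (h : KOk C ks k1 k2) (hν : ∀ a, Nd M (ν a)) (a : Bool) (t : ℝ) : |kop ks ν a t| ≤ 2 * C * cH * M :=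
  (kop_w2 h hν a).nd.le t

theorem KF_expand (h : KOk C ks k1 k2) (hν : ∀ a, Nd M (ν a)) (hν' : ∀ a, Nd M' (ν' a)) (x : ℝ) :
    prs (fun a t => ν a t + x * ν' a t) (kop ks fun a t => ν a t + x * ν' a t) =
      prs ν (kop ks ν) + 2 * x * prs ν (kop ks ν') + x ^ 2 * prs ν' (kop ks ν') := by
  rw [form_expand (T := kop ks) (B := 2 * C * cH * M + 2 * C * cH * M') hν hν' (kop_add h hν hν' x)
    (fun a => (kop_w2 h hν a).nd.cont) (fun a => (kop_w2 h hν' a).nd.cont) (fun a t => ?_) (fun a t => ?_),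
    kop_symm h hν' hν]
  · ring
  · have h1 := kop_bdd h hν a t
    have h2 := (abs_nonneg _).trans (kop_bdd h hν' a t)
    linarith
  · have h1 := kop_bdd h hν' a t
    have h2 := (abs_nonneg _).trans (kop_bdd h hν a t)
    linarith

theorem EV_expand (hν : ∀ a, Nd M (ν a)) (hν' : ∀ a, Nd M' (ν' a)) (x : ℝ) :
    EV (fun a t => ν a t + x * ν' a t) (fun a t => ν a t + x * ν' a t) =
      EV ν ν + x * (EV ν ν' + EV ν' ν) + x ^ 2 * EV ν' ν' := by
  rw [EV_eq, EV_eq, EV_eq, EV_eq, EV_eq]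
  refine form_expand (T := Vp) (B := (∫ t, |V t|) * M + (∫ t, |V t|) * M') hν hν' (Vp_add hν hν' x)
    (fun a => V_pot_cont (hν a)) (fun a => V_pot_cont (hν' a)) (fun a t => ?_) (fun a t => ?_)
  · have h1 := V_pot_le (hν a) t
    have h2 := (abs_nonneg _).trans (V_pot_le (hν' a) t)
    unfold Vp
    linarith
  · have h1 := V_pot_le (hν' a) t
    have h2 := (abs_nonneg _).trans (V_pot_le (hν a) t)
    unfold Vp
    linarith

lemma nd_comb (hν : ∀ a, Nd M (ν a)) (hν' : ∀ a, Nd M' (ν' a)) (x : ℝ) (a : Bool) :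
    Nd (M + |x| * M') (fun t => ν a t + x * ν' a t) := (hν a).add ((hν' a).smul x)

lemma neu_comb (hν : ∀ a, Nd M (ν a)) (hν' : ∀ a, Nd M' (ν' a)) (x : ℝ)
    (h0 : (∫ t, (ν true t - ν false t)) = 0) (h0' : (∫ t, (ν' true t - ν' false t)) = 0) :
    (∫ t, ((ν true t + x * ν' true t) - (ν false t + x * ν' false t))) = 0 := by
  have e : ∀ t, (ν true t + x * ν' true t) - (ν false t + x * ν' false t) =
      (ν true t - ν false t) + x * (ν' true t - ν' false t) := fun t => by ring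
  simp_rw [e]
  have i1 : Integrable fun t => ν true t - ν false t := (hν true).int.sub (hν false).int
  have i2 : Integrable fun t => ν' true t - ν' false t := (hν' true).int.sub (hν' false).int
  rw [integral_add i1 (i2.const_mul x), integral_const_mul, h0, h0']
  ring

/-! ### the contraction -/

/-- the own energy of a response -/
theorem EV_Ad_le (hδ : 0 < δ) {g : Bool → ℝ → ℝ} (hg : ∀ a, Nd M (g a)) :
    EV (Ad δ g) (Ad δ g) ≤ Qs (2 * δ ^ 2) g g := by
  have h1 := EL_pos hδ hg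
  have h2 := EU_Ad hδ hδ hg hg
  unfold EU at h2
  rw [← two_mul] at h2
  linarith

/-- **the contraction in the energy norm** -/
theorem contr {th : ℝ} (hth : 0 < th) (h : KOk C ks k1 k2) (hO : O1 th ks) (hδ : 0 < δ) {g : Bool → ℝ → ℝ}
    (hg : ∀ a, Nd M (g a)) {s : ℝ} (hs : 0 < s) :
    Qs s (kop ks (Ad δ g)) (kop ks (Ad δ g)) ≤ th ^ 2 * Qs (2 * δ ^ 2) g g := by
  obtain ⟨K, hK, H⟩ := Ad_nd hδ
  have hν := H hg
  obtain ⟨ν, hνd⟩ : ∃ ν, ν = Ad δ g := ⟨_, rfl⟩
  rw [← hνd] at hν ⊢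
  have hw := kop_w2 h hν
  have hh : ∀ a, Nd (2 * C * cH * (K * M)) (kop ks ν a) := fun a => (hw a).nd
  have hsq : 0 < √s := Real.sqrt_pos.2 hs
  obtain ⟨K', hK', H'⟩ := Ad_nd hsq
  have hα := H' hh
  obtain ⟨α, hαd⟩ : ∃ α, α = Ad (√s) (kop ks ν) := ⟨_, rfl⟩
  rw [← hαd] at hα
  have hx : prs α (kop ks ν) = Qs s (kop ks ν) (kop ks ν) := by
    have := pair_Ad hsq hh hh
    rw [Real.sq_sqrt hs.le, ← hαd] at this
    exact this
  have h0α : (∫ t, (α true t - α false t)) = 0 := by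
    rw [hαd]
    exact Ad_zero hsq hh
  have h0ν : (∫ t, (ν true t - ν false t)) = 0 := by
    rw [hνd]
    exact Ad_zero hδ hg
  have hEα : EV α α ≤ Qs s (kop ks ν) (kop ks ν) := by
    have h1 := EV_Ad_le hsq hh
    rw [← hαd, Real.sq_sqrt hs.le] at h1
    exact h1.trans (Qs_mono hs.le (by linarith) (wh_hq fun a => (hw a).wh))
  have hEν : EV ν ν ≤ Qs (2 * δ ^ 2) g g := by
    rw [hνd]
    exact EV_Ad_le hδ hg
  have op := hO _ _ (nd_comb hα hν th) (neu_comb hα hν th h0α h0ν)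
  have om := hO _ _ (nd_comb hα hν (-th)) (neu_comb hα hν (-th) h0α h0ν)
  rw [KF_expand h hα hν th, EV_expand hα hν th] at op
  rw [KF_expand h hα hν (-th), EV_expand hα hν (-th)] at om
  rw [hx] at op om
  obtain ⟨X, hX⟩ : ∃ X, X = Qs s (kop ks ν) (kop ks ν) := ⟨_, rfl⟩
  obtain ⟨b, hb⟩ : ∃ b, b = Qs (2 * δ ^ 2) g g := ⟨_, rfl⟩
  rw [← hX] at op om hEα ⊢
  rw [← hb] at hEν ⊢
  have a1 := (abs_le.1 op).2
  have a2 := (abs_le.1 om).1
  have h5 : 4 * th * X ≤ th * (2 * EV α α + 2 * th ^ 2 * EV ν ν) := by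
    nlinarith
  have h6 : 4 * X ≤ 2 * EV α α + 2 * th ^ 2 * EV ν ν := by
    have : th * (4 * X) ≤ th * (2 * EV α α + 2 * th ^ 2 * EV ν ν) := by linarith
    exact le_of_mul_le_mul_left this hth
  have h7 : th ^ 2 * EV ν ν ≤ th ^ 2 * b := mul_le_mul_of_nonneg_left hEν (by positivity)
  linarith

end

end PLT.Tri
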