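import Pool.Agent.PLT.KerB
import Pool.Agent.PLT.TriN

/-!
# The form bound (O1) of the static kernels in the form of the trial densities

* `k4 η η1 a b`: the four kernels `ko`, `kx` of a static curve;
* **`Bent.triO1`**: `Tri.O1 (3 / 4) (k4 η η1)`.
-/

set_option autoImplicit false

open MeasureTheory Set Filter Topology Complex

namespace PLT.KF

open NUMF (l l_pos V)
open PLT.Tri (Nd prs kop EV)

noncomputable section

/-- the four kernels -/
def k4 (η η1 : ℝ → ℝ) (a b : Bool) : ℝ → ℝ → ℝ := if a = b then ko η η1 else kx η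

variable {η η1 : ℝ → ℝ}

lemma nc_nd {M : ℝ} {ν : ℝ → ℝ} (h : Nd M ν) : Nc ν :=
  nc_exp (M := M) h.cont (a := 1) one_pos fun t => by
    rw [show -1 * |t| = -|t| by ring]
    exact h.bd t

lemma BF_int {k : ℝ → ℝ → ℝ} {ν ν' : ℝ → ℝ} (h : Integrable (fun z : ℝ × ℝ => ν z.1 * ν' z.2 * k z.1 z.2)) :
    Integrable (fun t => ν t * ∫ s, k t s * ν' s) ∧ ∫ t, ν t * ∫ s, k t s * ν' s = BF k ν ν' := by
  have h1 := h.integral_prod_left
  have e : (fun t => ∫ s, ν (t, s).1 * ν' (t, s).2 * k (t, s).1 (t, s).2) = fun t => ν t * ∫ s, k t s * ν' s := by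
    funext t
    rw [← integral_const_mul]
    refine integral_congr_ae (Eventually.of_forall fun s => ?_)
    simp only
    ring
  rw [e] at h1
  refine ⟨h1, ?_⟩
  unfold BF
  refine integral_congr_ae (Eventually.of_forall fun t => ?_)
  simp only
  congr 1
  refine integral_congr_ae (Eventually.of_forall fun s => ?_)
  simp only
  ring

/-- **(O1)** in the form of `Tri` -/
theorem Bent.triO1 (h : Bent η η1) : Tri.O1 (3 / 4) (k4 η η1) := by
  intro M ν hν _
  have hX := nc_nd (hν true)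
  have hY := nc_nd (hν false)
  have key := h.O1 hX hY
  obtain ⟨a1, -⟩ := pair_int h.ddp h.ddm hX hX
  obtain ⟨a2, -⟩ := pair_int h.ddp h.ddm hY hY
  obtain ⟨-, a3⟩ := pair_int h.ddp h.ddm hX hY
  obtain ⟨-, a4⟩ := pair_int h.ddp h.ddm hY hX
  obtain ⟨i1, e1⟩ := BF_int a1
  obtain ⟨i2, e2⟩ := BF_int a2
  obtain ⟨i3, e3⟩ := BF_int a3
  obtain ⟨i4, e4⟩ := BF_int a4
  have e : prs ν (kop (k4 η η1) ν) = PF (ko η η1) (kx η) (ν true) (ν false) := by
    unfold prs kop k4 PF
    simp only [if_true, Bool.false_eq_true, Bool.true_eq_false, if_false, mul_add]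
    rw [integral_add i1 i3, integral_add i4 i2, e1, e2, e3, e4]
    ring
  rw [e]
  exact key

end

end PLT.KF
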