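import Pool.Agent.PLT.TriD
import Pool.Agent.PLT.KerT
import Pool.Agent.PLT.KokA

/-!
# The objects of the gas over the seas of a class (helper8, row B1d)

`exists_ksD` (kernels, from `exists_towC`), `o1C` (`O1 (3/4) ksC`).
**`exists_objs`**: over every sea of the class every object has data `Oc.Ok` with remainders `≤ ε`, and all pairs satisfy
`Oc.Pr`, `Oc.PrK`.
-/

set_option autoImplicit false

open MeasureTheory Set Filter Topology

namespace PLT.Tri

noncomputable section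

open NUMF (l l_pos V)
open NUC43
open NUO (Xo ht sp)
open PHK (Par6 Kd6 k6 kq6 fO6 offK6)
open PLT.Cv (PGC SAsy Oc OcL Par7 Str eta ksC)
open PLT.KF (Tw k4 ko kx wk wk1 wk2)

variable {δ : ℝ}

/-- the four kernels of a sea -/
lemma ksC_k4 [SeaC] : ksC = k4 eta (deriv eta) := rfl

/-- **three bounded derivatives** -/
theorem exists_ksD (B : SeaCB) : ∃ C : ℝ, 0 ≤ C ∧ ∀ [SeaC] [SeaCU B],
    ∃ D : ℕ → Bool → Bool → ℝ → ℝ → ℝ, D 0 = ksC ∧ KsD C (1 / 2) D := by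
  obtain ⟨C, hC, H⟩ := PLT.Cv.exists_towC B 3
  refine ⟨C, hC, fun {_} {_} => ?_⟩
  obtain ⟨⟨A, hA⟩, ⟨A', hA'⟩⟩ := H
  have key : ∀ {k : ℝ → ℝ → ℝ} {A : ℕ → ℝ → ℝ → ℝ}, Tw (3 + 1) C k A → ∀ n ≤ 3, ∀ t s,
      |A n t s| ≤ C * Real.exp (-(2 * |t - s|)) ∧ |A n t s| ≤ C * Real.exp (-(1 / 2 * |t|) - 1 / 2 * |s|) := by
    intro k A hA n hn t s
    refine ⟨(hA.b n (by omega) t s).trans (mul_le_mul_of_nonneg_left (wk1 t s) hC),
      (hA.b n (by omega) t s).trans (mul_le_mul_of_nonneg_left ((wk2 t s).trans (le_of_eq ?_)) hC)⟩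
    congr 1
    ring
  refine ⟨fun n a b => if a = b then A n else A' n, ?_, ⟨fun n hn a b t s => ?_, fun a b => ?_, fun n hn a b t s => ?_,
    fun n hn a b t s => ?_, fun a b t s => ?_⟩⟩
  · funext a b
    rw [ksC_k4]
    unfold k4
    by_cases h : a = b
    · simp only [if_pos h]
      exact hA.z
    · simp only [if_neg h]
      exact hA'.z
  · by_cases h : a = b
    · simp only [if_pos h]
      exact hA.d n (by omega) t s
    · simp only [if_neg h]
      exact hA'.d n (by omega) t s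
  · by_cases h : a = b
    · simp only [if_pos h]
      exact hA.c 0 (by norm_num)
    · simp only [if_neg h]
      exact hA'.c 0 (by norm_num)
  · by_cases h : a = b
    · simp only [if_pos h]
      exact (key hA n hn t s).1
    · simp only [if_neg h]
      exact (key hA' n hn t s).1
  · by_cases h : a = b
    · simp only [if_pos h]
      exact (key hA n hn t s).2
    · simp only [if_neg h]
      exact (key hA' n hn t s).2
  · by_cases h : a = b
    · simp only [if_pos h, if_pos h.symm]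
      rw [hA.z]
      exact hA.sy t s
    · simp only [if_neg h, if_neg (fun e => h (Eq.symm e))]
      rw [hA'.z]
      exact hA'.sy t s

/-- **the form bound** -/
theorem o1C (B : SeaCB) [SeaC] [SeaCU B] : O1 (3 / 4) ksC := by
  rw [ksC_k4]
  exact (PLT.Cv.bentC B).triO1

/-- **the objects of the gas** -/
theorem exists_objs (B : SeaCB) (hδ0 : 0 < δ) (hδ1 : δ ≤ 1) : ∃ kd : ℝ, 0 ≤ kd ∧ ∀ {P : Par6} {Q : Par7},
    PGC δ (Q.lo - Q.w) (Q.hi + Q.w) P → Str B Q.lo Q.hi → 0 < Q.w → Q.w ≤ 1 / 2 →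
    kd ≤ Q.kd → 0 ≤ Q.c → Q.c ≤ 1 / 20 → ∀ {ε : ℝ}, 0 < ε → ∃ A : ℝ, 0 ≤ A ∧ ∀ [SeaC] [SeaCU B],
      ∃ T : Xo → Oc, (∀ x, OcL P x (T x)) ∧ (∀ x, (T x).Ok (Q.lo - Q.w) (Q.hi + Q.w) Q.kd A ε Q.c) ∧
        (∀ x y, Oc.Pr ε Q.c (T x) (T y)) ∧ ∀ x y, Oc.PrK ε Q.c (T x) (T y) := by
  obtain ⟨kd, hkd, H⟩ := exists_objsA hδ0 hδ1
  obtain ⟨C, hC, HC⟩ := exists_ksD B
  refine ⟨kd, hkd, fun {P Q} hP hS hw hw2 hk hc0 hc {ε} hε => ?_⟩
  have hl := l_pos
  have hl4 : l < 1 := by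
    have := Real.pi_lt_four
    unfold NUMF.l
    linarith
  obtain ⟨A, hA, HA⟩ := H (Q := Q) (ρ := Q.w) (Cη := B.Ce 1 + B.Ce 2) hP hw
    (by linarith [hS.h1, B.h1]) (by linarith [hS.h4]) hC hk hc0 hc hε
  refine ⟨A, hA, fun {S} {_} => ?_⟩
  have hcur : ∀ n, 1 ≤ n → ∀ t, B.Ce n ≤ B.Ce 1 + B.Ce 2 → |iteratedDeriv n eta t| ≤
      (B.Ce 1 + B.Ce 2) * Real.exp (-(1 / 2 * |t|)) := by
    intro n hn t hle
    have h1 : |iteratedDeriv n eta t| ≤ B.Ce n * Real.exp (-(32 / 3) * |t|) := SeaCU.cur (B := B) n t hn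
    refine h1.trans (mul_le_mul hle (Real.exp_le_exp.2 ?_) (Real.exp_pos _).le ((B.Ce0 n).trans hle))
    have := abs_nonneg t
    linarith
  refine HA (fun t => ?_) (fun t => ?_) (fun t => ?_) HC (o1C B)
  · have h1 : -B.d ≤ eta t := SeaCU.eta_lo (B := B) t
    have h2 : eta t ≤ B.top := PLT.Cv.eta_top B t
    exact ⟨by linarith [hS.h2], by linarith [hS.h3]⟩
  · have := hcur 1 le_rfl t (by linarith [B.Ce0 2])
    rwa [iteratedDeriv_one] at this
  · exact hcur 2 (by norm_num) t (by linarith [B.Ce0 1])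

end

end PLT.Tri
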