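import Pool.Agent.PLT.S4MHC
import Pool.Agent.PLT.GasCC
import Pool.Agent.PLT.GcC
import Pool.Agent.PLT.GShH
import Pool.Agent.PLT.EnHP
import Pool.Agent.PLT.EnGC
import Pool.Agent.PLT.TriE
import Pool.Agent.PLT.StKc
import Pool.Agent.PLT.RemC
import Pool.Agent.PLT.KerU
import Pool.Agent.PLT.KdCC
import Pool.Agent.PLT.SharpF
import Pool.Agent.PLT.StabT
import Pool.Agent.PLT.StabP6

/-!
# The gas of a configuration over a sea on a static curve: end of block B (helper38)

* `WinN SB P δ lo hi w κ`: the numbers of the windows; `par7`: the numbers `Par7`; `winN_of`;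
* **`s4MC_num`**: `S4MC SB q.par (enT q.par)` at a point with a certificate;
* **`s4MC_th`**, **`s4C_th`**: at the point of the tilted sea, every class of seas;
* **`s4MC_p6`**, **`s4C_p6`**: at `par6`, classes of seas with `top ≤ l / 128`.
-/

set_option autoImplicit false
set_option linter.unusedSectionVars false
set_option linter.unusedVariables false

noncomputable section

open MeasureTheory Finset Filter Topology
open scoped ENNReal
open PLX (Fil Ends)

namespace PLT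

open PHK hiding mfo6
open NUMF (l l_pos)
open NUO (Xo ht Tb TW excS)

variable [Fil] [Ends]

/-! ### the numbers -/

/-- **the numbers of the windows**: window `[lo, hi]` of the paths, room `w`, margin `κ` of the static curves -/
structure WinN (SB : SeaCB) (P : Par6) (δ lo hi w κ : ℝ) : Prop where
  δ0 : 0 < δ
  δ1 : δ ≤ 1
  pgc : Cv.PGC δ (lo - w) (hi + w) P
  w0 : 0 < w
  w1 : w ≤ 1 / 2
  lo1 : -(l / 10) ≤ lo
  hi1 : hi ≤ l / 10
  lh : -SB.h ≤ lo
  κ0 : 0 < κ
  κ1 : κ ≤ 1 / 4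
  ld : lo + κ ≤ -SB.d
  ht : SB.top + κ ≤ hi

/-- the numbers `Par7` -/
def par7 (lo hi w Cp kd : ℝ) : Cv.Par7 := ⟨lo, hi, w, Cp, kd, 1 / 20⟩

/-- **`S4MC` at a point with a certificate**, all inputs -/
theorem s4MC_num {q : Pt} {tb : Tb8} {δq : ℝ} (hq : HT q tb δq) {SB : SeaCB} {δ lo hi w κ : ℝ}
    (hN : WinN SB q.par δ lo hi w κ) (hW : ∀ [S : SeaC] [SeaCU SB], WinQ q S) :
    S4MC SB q.par (enT q.par) := by
  have hl := l_pos
  have hd0 := SB.d0
  have htop0 := SB.top0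
  have hw0 := hN.w0
  have hκ0 := hN.κ0
  have hld := hN.ld
  have hht := hN.ht
  obtain ⟨Cp, hCp, hDat⟩ := datGHC SB
  obtain ⟨kd, hkd, hObj⟩ := Tri.exists_objs SB hN.δ0 hN.δ1
  obtain ⟨Q, hQ⟩ : ∃ Q, Q = par7 lo hi w Cp kd := ⟨_, rfl⟩
  have q1 : Q.lo = lo := by rw [hQ]; rfl
  have q2 : Q.hi = hi := by rw [hQ]; rfl
  have q3 : Q.w = w := by rw [hQ]; rfl
  have q4 : Q.Cp = Cp := by rw [hQ]; rfl
  have q5 : Q.kd = kd := by rw [hQ]; rfl
  have q6 : Q.c = 1 / 20 := by rw [hQ]; rfl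
  have hQok : Q.Ok := ⟨by rw [q3]; exact hw0, by rw [q4]; linarith, by rw [q5]; exact hkd,
    by rw [q6]; norm_num⟩
  have hlo : Q.lo < -SB.d := by
    rw [q1]
    linarith
  have hhi : SB.top < Q.hi := by
    rw [q2]
    linarith
  have hlh : -SB.h ≤ Q.lo := by rw [q1]; exact hN.lh
  have hhi1 : Q.hi ≤ l / 10 := by rw [q2]; exact hN.hi1
  have hP1 : Cv.PGC δ (Q.lo - Q.w) (Q.hi + Q.w) q.par := by
    rw [q1, q2, q3]
    exact hN.pgc
  have hP2 : Cv.PGC δ Q.lo Q.hi q.par :=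
    hP1.mono hN.δ0 le_rfl (by rw [q3]; linarith) (by rw [q3]; linarith) (by linarith) (by linarith)
  have hP3 : Cv.PGC δ lo hi q.par := by
    rw [← q1, ← q2]
    exact hP2
  have hStr : Cv.Str SB Q.lo Q.hi := ⟨hlh, hlo.le, hhi.le, by linarith⟩
  have hStr' : Cv.Str SB lo hi := by
    rw [← q1, ← q2]
    exact hStr
  have hD : DatGHC SB Q q.par := hDat Q q.par (by rw [q4]) (by rw [q3]; exact hw0.le) hlo hhi hlh hhi1
  have hOb : ObjsC SB Q q.par := fun εo hεo =>
    hObj hP1 hStr (by rw [q3]; exact hw0) (by rw [q3]; exact hN.w1) (by rw [q5])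
      (by rw [q6]; norm_num) (by rw [q6]) hεo
  have hkb : (0 : ℝ) ≤ 64 * (Fil.qo : ℕ) := by positivity
  have hEn : EnHCSt SB Q q.par := enHCSt_of hq.ok6 hQok
    fun W CB hW hCB => Cv.exists_enGC SB hq.ok6 hP2 hQok hlo hhi hlh hhi1 hW hCB hkb
  obtain ⟨Kk, hKk, hks⟩ := Cv.exists_ksB SB
  have hI : Cv.InstCC SB Q := Cv.instCC SB hQok (Cv.remC hQok (by norm_num : (0 : ℝ) < 1 / 2) hks) (Cv.kdC SB Q)
  have hSh : ∀ ε' tc k : ℝ, 0 < ε' → Gs.ShH0 ε' (4 / 5) (1 / 16) tc k := fun ε' tc k h =>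
    Gs.shH0 (by norm_num) (by norm_num) h tc k
  have hη : ∀ [SeaC] [SeaCU SB], ∀ t, lo + κ ≤ Cv.eta t ∧ Cv.eta t + κ ≤ hi := by
    intro S hS t
    have h1 : -SB.d ≤ SeaC.eta t := SeaCU.eta_lo (B := SB) t
    have h2 : SeaC.eta t ≤ SB.top := SeaCU.eta_top (B := SB) t
    show lo + κ ≤ SeaC.eta t ∧ SeaC.eta t + κ ≤ hi
    exact ⟨by linarith, by linarith⟩
  have hC : Cv.CrudeCC SB Q := Cv.crudeCC SB hI (by norm_num) hSh (Cv.stC_KC0 SB)
  have hSS : SharpSt SB lo hi := sharpStK SB hStr' hκ0 hN.κ1 @hη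
  have hG : Cv.GasSharpCC SB Q lo hi := Cv.gasSharpCC SB hI hSS (by norm_num) hSh (Cv.stC_KC0 SB)
  refine s4MC_enT hq (δ := δ) (top := SB.top) hN.δ0 hN.δ1 hN.lo1 hN.hi1 (by rw [q1]) (by rw [q2])
    (fun {_} {_} t => ?_) (fun {_} {_} t => ?_) (by linarith) hP3 hD hOb hEn hW hC hG
  · have := (hη t).1
    linarith
  · exact SeaCU.eta_top (B := SB) t

/-! ### the point of the tilted sea -/

/-- margin of the static curves -/
def kaN (SB : SeaCB) : ℝ := min (SB.h / 4) (l / 1000)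

/-- the window of the paths, lower end -/
def loN (SB : SeaCB) : ℝ := -(SB.d + kaN SB)

/-- the window of the paths, upper end -/
def hiN (SB : SeaCB) : ℝ := SB.top + l / 1000

theorem winN_of {SB : SeaCB} {P : Par6} {δ x y : ℝ} (h0 : 0 < δ) (h1 : δ ≤ 1) (hP : Cv.PGC δ (-(x * l)) (y * l) P)
    (hx : 3 / 1000 ≤ x) (hy : SB.top + l / 500 ≤ y * l) : WinN SB P δ (loN SB) (hiN SB) (l / 1000) (kaN SB) := by
  have hl := l_pos
  have hl1 : l ≤ 1 := by
    unfold l
    linarith [Real.pi_le_four]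
  have hh := SB.h0
  have hh1 := SB.h1
  have hd := SB.dh
  have hd0 := SB.d0
  have hd1 := SB.dl
  have ht0 := SB.top0
  have ht1 := SB.top1
  have hxl : 3 / 1000 * l ≤ x * l := mul_le_mul_of_nonneg_right hx hl.le
  have hm : 0 < min (SB.h / 4) (l / 1000) := lt_min (by linarith) (by linarith)
  have hm1 := min_le_left (SB.h / 4) (l / 1000)
  have hm2 := min_le_right (SB.h / 4) (l / 1000)
  unfold loN hiN kaN
  exact
    { δ0 := h0
      δ1 := h1
      pgc := hP.mono h0 le_rfl (by linarith) (by linarith) (by linarith) (by linarith)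
      w0 := by linarith
      w1 := by linarith
      lo1 := by linarith
      hi1 := by linarith
      lh := by linarith
      κ0 := hm
      κ1 := by linarith
      ld := by linarith
      ht := by linarith }

/-- **block B at the point of the tilted sea** -/
theorem s4MC_th (SB : SeaCB) : S4MC SB parTh (enT parTh) := by
  have hl := l_pos
  have ht1 := SB.top1
  have hN : WinN SB parTh (1 / 300) (loN SB) (hiN SB) (l / 1000) (kaN SB) :=
    winN_of (x := 1 / 250) (y := 7 / 120 + 1 / 250) (by norm_num) (by norm_num) (Cv.PGC.of_th rfl rfl rfl rfl)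
      (by norm_num) (by linarith)
  have h := s4MC_num htTh (SB := SB) (by rw [qTh_par]; exact hN) fun {S} {_} => winTh S
  rwa [qTh_par] at h

theorem s4C_th (SB : SeaCB) : S4C SB parTh (enT parTh) := s4C_of (s4MC_th SB)

/-! ### the point `par6` -/

/-- the seas of the class are in the window of `par6` -/
theorem winP6_SB {SB : SeaCB} (ht : SB.top ≤ l / 128) : ∀ [S : SeaC] [SeaCU SB], WinQ qP6 S := by
  intro S hS
  have hl := l_pos
  refine winP6_of fun x => abs_le.2 ⟨?_, ?_⟩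
  · have h1 : -SB.d ≤ SeaC.eta x := SeaCU.eta_lo (B := SB) x
    have h2 := SB.dl
    show -(l / 128) ≤ SeaC.eta x
    linarith
  · exact (SeaCU.eta_top (B := SB) x).trans ht

/-- **block B at the point `par6`** -/
theorem s4MC_p6 (SB : SeaCB) (ht : SB.top ≤ l / 128) : S4MC SB par6 (enT par6) := by
  have hl := l_pos
  have hP : Cv.PGC (1 / 200) (-(1 / 100 * l)) (1 / 100 * l) par6 := by
    refine Cv.PGC.of_num ?_ ?_ ?_ ?_ ?_ ?_ ?_ ?_ ?_ ?_ ?_ ?_ ?_ ?_ <;> norm_num [par6]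
  have hN : WinN SB par6 (1 / 200) (loN SB) (hiN SB) (l / 1000) (kaN SB) :=
    winN_of (by norm_num) (by norm_num) hP (by norm_num) (by linarith)
  have h := s4MC_num htP6 (SB := SB) (by rw [qP6_par]; exact hN) (winP6_SB ht)
  rwa [qP6_par] at h

theorem s4C_p6 (SB : SeaCB) (ht : SB.top ≤ l / 128) : S4C SB par6 (enT par6) := s4C_of (s4MC_p6 SB ht)

end PLT

end
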