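import Pool.Agent.NUP.MF.Cont

/-!
# The level function of a row

Units `l = π / 8`; `ch t = cosh (8 t / 3)`, `Pc` the density of the quanta of a row at the place `0`.

* `La β c = artanh (sin β / c)`; **`Ag v t`**: level function of a row at offset `v`, `Ag_eq_AA`: the
  landed `NUMF.AA`;
* `Pc_sech`: `Pc z = 4 / (3 π) (1 / cosh (8z/3 - iπ/6) + 1 / cosh (8z/3 + iπ/6))`;
* **`hasDerivAt_Ag_v`, `hasDerivAt_Ag_t`**: the gradient is `2 π (Re, Im) Pc (t + i v)`, `|v| < l`;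
* **`Pc_re_pos`**: `Re Pc (t + i v) > 0`, `|v| < l`.
-/

set_option autoImplicit false

noncomputable section

open MeasureTheory Set Filter Topology

namespace PLT

open NUMF

/-- `sinh (8 t / 3)` -/
def sh (t : ℝ) : ℝ := Real.sinh (8 / 3 * t)

theorem ch_sq (t : ℝ) : ch t ^ 2 = sh t ^ 2 + 1 := by
  unfold ch sh
  exact Real.cosh_sq _

theorem hasDerivAt_ch (t : ℝ) : HasDerivAt ch (8 / 3 * sh t) t := by
  have h0 : HasDerivAt (fun t : ℝ => 8 / 3 * t) (8 / 3) t := by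
    simpa using (hasDerivAt_id t).const_mul (8 / 3)
  refine h0.cosh.congr_deriv ?_
  unfold sh
  ring

/-- `artanh (sin β / c)` -/
def La (β c : ℝ) : ℝ := (Real.log (c + Real.sin β) - Real.log (c - Real.sin β)) / 2

/-- **the level function of a row** at offset `v` -/
def Ag (v t : ℝ) : ℝ := La (8 / 3 * v - Real.pi / 6) (ch t) + La (8 / 3 * v + Real.pi / 6) (ch t)

/-- the norm of a cosine -/
theorem log_norm_cos (x y : ℝ) : Real.log ‖Complex.cos ((x : ℂ) + y * Complex.I)‖ =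
    Real.log ((Real.cosh (2 * y) + Real.cos (2 * x)) / 2) / 2 := by
  have h1 : ‖Complex.cos ((x : ℂ) + y * Complex.I)‖ ^ 2 =
      (Real.cosh (2 * y) + Real.cos (2 * x)) / 2 := by
    rw [Complex.cos_add_mul_I]
    have e : Complex.cos x * Complex.cosh y - Complex.sin x * Complex.sinh y * Complex.I =
        ((Real.cos x * Real.cosh y : ℝ) : ℂ) + ((-(Real.sin x * Real.sinh y) : ℝ) : ℂ) * Complex.I := by
      push_cast
      ring
    rw [e, ← Complex.normSq_eq_norm_sq, Complex.normSq_add_mul_I, Real.cosh_two_mul, Real.cos_two_mul]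
    have h2 := Real.cosh_sq y
    have h3 := Real.sin_sq_add_cos_sq x
    have h4 : Real.sin x ^ 2 = 1 - Real.cos x ^ 2 := by linarith
    have h5 : Real.sinh y ^ 2 = Real.cosh y ^ 2 - 1 := by linarith
    calc (Real.cos x * Real.cosh y) ^ 2 + (-(Real.sin x * Real.sinh y)) ^ 2 =
        Real.cos x ^ 2 * Real.cosh y ^ 2 + Real.sin x ^ 2 * Real.sinh y ^ 2 := by ring
      _ = _ := by
        rw [h4, h5]
        ring
  rw [← h1, Real.log_pow]
  push_cast
  ring

theorem cos_p3 (α : ℝ) : Real.cos (α - Real.pi / 3) = Real.sin (α + Real.pi / 6) := by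
  rw [← Real.sin_pi_div_two_sub]
  rw [show Real.pi / 2 - (α - Real.pi / 3) = Real.pi - (α + Real.pi / 6) by ring, Real.sin_pi_sub]

theorem cos_p6 (α : ℝ) : Real.cos (α + Real.pi / 3) = -Real.sin (α - Real.pi / 6) := by
  rw [← Real.sin_pi_div_two_sub]
  rw [show Real.pi / 2 - (α + Real.pi / 3) = -(α - Real.pi / 6) by ring, Real.sin_neg]

theorem cos_m23 (α : ℝ) : Real.cos (α - 2 * Real.pi / 3) = Real.sin (α - Real.pi / 6) := by
  rw [← Real.sin_pi_div_two_sub]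
  rw [show Real.pi / 2 - (α - 2 * Real.pi / 3) = Real.pi - (α - Real.pi / 6) by ring, Real.sin_pi_sub]

theorem cos_p23 (α : ℝ) : Real.cos (α + 2 * Real.pi / 3) = -Real.sin (α + Real.pi / 6) := by
  rw [← Real.sin_pi_div_two_sub]
  rw [show Real.pi / 2 - (α + 2 * Real.pi / 3) = -(α + Real.pi / 6) by ring, Real.sin_neg]

/-- the angles `8 v / 3 ± π / 6` are in `(- π / 2, π / 2)` -/
theorem ang {v : ℝ} (hv : |v| < l) :
    (-(Real.pi / 2) < 8 / 3 * v - Real.pi / 6 ∧ 8 / 3 * v - Real.pi / 6 < Real.pi / 2) ∧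
    -(Real.pi / 2) < 8 / 3 * v + Real.pi / 6 ∧ 8 / 3 * v + Real.pi / 6 < Real.pi / 2 := by
  have hpi : Real.pi = 8 * l := by unfold l; ring
  obtain ⟨h1, h2⟩ := abs_lt.1 hv
  rw [hpi]
  refine ⟨⟨?_, ?_⟩, ?_, ?_⟩ <;> linarith

theorem abs_sin_lt_one {β : ℝ} (h1 : -(Real.pi / 2) < β) (h2 : β < Real.pi / 2) :
    |Real.sin β| < 1 := by
  have hc := Real.cos_pos_of_mem_Ioo ⟨h1, h2⟩
  have := Real.sin_sq_add_cos_sq β
  rw [abs_lt]
  constructor <;> nlinarith

theorem cpos {β c : ℝ} (hc : 1 ≤ c) (h1 : -(Real.pi / 2) < β) (h2 : β < Real.pi / 2) :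
    0 < c + Real.sin β ∧ 0 < c - Real.sin β := by
  obtain ⟨h3, h4⟩ := abs_lt.1 (abs_sin_lt_one h1 h2)
  constructor <;> linarith

/-- **the landed level function** -/
theorem Ag_eq_AA {a : ℝ} (ha : |a| < l) (t : ℝ) : AA a t = Ag a t := by
  obtain ⟨⟨a1, a2⟩, a3, a4⟩ := ang ha
  have hpi : Real.pi = 8 * l := by unfold l; ring
  have h1 := one_le_ch t
  obtain ⟨p1, p2⟩ := cpos h1 a1 a2
  obtain ⟨p3, p4⟩ := cpos h1 a3 a4
  rw [(AA_eq ha t).2, log_norm_cos, log_norm_cos, log_norm_cos, log_norm_cos]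
  have c0 : Real.cosh (2 * (4 / 3 * t)) = ch t := by
    unfold ch
    congr 1
    ring
  rw [show 2 * (4 / 3 * (a - l)) = 8 / 3 * a - Real.pi / 3 by rw [hpi]; ring,
    show 2 * (4 / 3 * (a - 2 * l)) = 8 / 3 * a - 2 * Real.pi / 3 by rw [hpi]; ring,
    show 2 * (4 / 3 * (a + 2 * l)) = 8 / 3 * a + 2 * Real.pi / 3 by rw [hpi]; ring,
    show 2 * (4 / 3 * (a + l)) = 8 / 3 * a + Real.pi / 3 by rw [hpi]; ring,
    c0, cos_p3, cos_p6, cos_m23, cos_p23, ← sub_eq_add_neg, ← sub_eq_add_neg,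
    Real.log_div p3.ne' two_ne_zero, Real.log_div p1.ne' two_ne_zero,
    Real.log_div p4.ne' two_ne_zero, Real.log_div p2.ne' two_ne_zero]
  unfold Ag La
  ring

/-! ### the gradient -/

theorem hasDerivAt_La_b {β c : ℝ} (h1 : 0 < c + Real.sin β) (h2 : 0 < c - Real.sin β) :
    HasDerivAt (fun β => La β c) (c * Real.cos β / (c ^ 2 - Real.sin β ^ 2)) β := by
  have d1 := ((Real.hasDerivAt_sin β).const_add c).log h1.ne'
  have d2 := ((Real.hasDerivAt_sin β).const_sub c).log h2.ne'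
  refine ((d1.sub d2).div_const 2).congr_deriv ?_
  have e : c ^ 2 - Real.sin β ^ 2 = (c + Real.sin β) * (c - Real.sin β) := by ring
  rw [e]
  field_simp
  ring

theorem hasDerivAt_La_c {β c : ℝ} (h1 : 0 < c + Real.sin β) (h2 : 0 < c - Real.sin β) :
    HasDerivAt (fun c => La β c) (-(Real.sin β / (c ^ 2 - Real.sin β ^ 2))) c := by
  have d1 := ((hasDerivAt_id c).add_const (Real.sin β)).log h1.ne'
  have d2 := ((hasDerivAt_id c).sub_const (Real.sin β)).log h2.ne'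
  refine ((d1.sub d2).div_const 2).congr_deriv ?_
  simp only [id]
  have e : c ^ 2 - Real.sin β ^ 2 = (c + Real.sin β) * (c - Real.sin β) := by ring
  rw [e]
  field_simp
  ring

/-- real and imaginary part of `1 / cosh (8t/3 + iβ)` -/
theorem sech_eq {t β : ℝ} (h : ch t ^ 2 - Real.sin β ^ 2 ≠ 0) :
    1 / Complex.cosh (((8 / 3 * t : ℝ) : ℂ) + β * Complex.I) =
      ((ch t * Real.cos β / (ch t ^ 2 - Real.sin β ^ 2) : ℝ) : ℂ) +
        ((-(sh t * Real.sin β / (ch t ^ 2 - Real.sin β ^ 2)) : ℝ) : ℂ) * Complex.I := by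
  have e1 : Complex.cosh (((8 / 3 * t : ℝ) : ℂ) + β * Complex.I) =
      ((ch t * Real.cos β : ℝ) : ℂ) + ((sh t * Real.sin β : ℝ) : ℂ) * Complex.I := by
    rw [Complex.cosh_add, Complex.cosh_mul_I, Complex.sinh_mul_I]
    unfold ch sh
    push_cast
    ring
  have e2 : (ch t * Real.cos β) ^ 2 + (sh t * Real.sin β) ^ 2 = ch t ^ 2 - Real.sin β ^ 2 := by
    have h1 := ch_sq t
    have h2 := Real.sin_sq_add_cos_sq β
    have h3 : sh t ^ 2 = ch t ^ 2 - 1 := by linarith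
    have h4 : Real.cos β ^ 2 = 1 - Real.sin β ^ 2 := by linarith
    rw [mul_pow, mul_pow, h3, h4]
    ring
  have e3 : (((ch t ^ 2 - Real.sin β ^ 2 : ℝ)) : ℂ) ≠ 0 := by exact_mod_cast h
  have e4 : (((ch t * Real.cos β : ℝ) : ℂ) + ((sh t * Real.sin β : ℝ) : ℂ) * Complex.I) *
      (((ch t * Real.cos β : ℝ) : ℂ) - ((sh t * Real.sin β : ℝ) : ℂ) * Complex.I) =
      ((ch t ^ 2 - Real.sin β ^ 2 : ℝ) : ℂ) := by
    rw [← e2]
    push_cast
    linear_combination (-((sh t : ℂ) * Complex.sin β) ^ 2) * Complex.I_sq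
  have e5 : (((ch t * Real.cos β : ℝ) : ℂ) + ((sh t * Real.sin β : ℝ) : ℂ) * Complex.I) ≠ 0 := by
    intro h0
    rw [h0, zero_mul] at e4
    exact e3 e4.symm
  rw [e1, div_eq_iff e5]
  have e6 : (((ch t * Real.cos β / (ch t ^ 2 - Real.sin β ^ 2) : ℝ)) : ℂ) +
      ((-(sh t * Real.sin β / (ch t ^ 2 - Real.sin β ^ 2)) : ℝ) : ℂ) * Complex.I =
      (((ch t * Real.cos β : ℝ) : ℂ) - ((sh t * Real.sin β : ℝ) : ℂ) * Complex.I) /
        ((ch t ^ 2 - Real.sin β ^ 2 : ℝ) : ℂ) := by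
    push_cast at e3 ⊢
    field_simp
    ring
  rw [e6, div_mul_eq_mul_div, mul_comm, e4, div_self e3]

/-- partial fractions of the density -/
theorem Pc_sech {z : ℂ} (h1 : Complex.cosh (8 / 3 * z - Real.pi / 6 * Complex.I) ≠ 0)
    (h2 : Complex.cosh (8 / 3 * z + Real.pi / 6 * Complex.I) ≠ 0) :
    Pc z = 4 / (3 * Real.pi) * (1 / Complex.cosh (8 / 3 * z - Real.pi / 6 * Complex.I) +
      1 / Complex.cosh (8 / 3 * z + Real.pi / 6 * Complex.I)) := by
  obtain ⟨C, hC⟩ : ∃ C, C = Complex.cosh (8 / 3 * z) := ⟨_, rfl⟩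
  obtain ⟨S, hS⟩ : ∃ S, S = Complex.sinh (8 / 3 * z) := ⟨_, rfl⟩
  obtain ⟨q, hq⟩ : ∃ q : ℂ, q = ((√3 : ℝ) : ℂ) := ⟨_, rfl⟩
  have hq2 : q ^ 2 = 3 := by
    rw [hq]
    have : (√3 : ℝ) ^ 2 = 3 := Real.sq_sqrt (by norm_num)
    exact_mod_cast this
  have hq0 : q ≠ 0 := by
    intro h
    rw [h] at hq2
    norm_num at hq2
  have hCS : C ^ 2 - S ^ 2 = 1 := by
    rw [hC, hS]
    exact Complex.cosh_sq_sub_sinh_sq _
  have c6 : Complex.cosh (Real.pi / 6 * Complex.I) = q / 2 := by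
    rw [Complex.cosh_mul_I]
    have : Complex.cos (Real.pi / 6) = ((Real.cos (Real.pi / 6) : ℝ) : ℂ) := by push_cast; rfl
    rw [this, Real.cos_pi_div_six, hq]
    push_cast
    rfl
  have s6 : Complex.sinh (Real.pi / 6 * Complex.I) = Complex.I / 2 := by
    rw [Complex.sinh_mul_I]
    have : Complex.sin (Real.pi / 6) = ((Real.sin (Real.pi / 6) : ℝ) : ℂ) := by push_cast; rfl
    rw [this, Real.sin_pi_div_six]
    push_cast
    ring
  have k1 : Complex.cosh (8 / 3 * z - Real.pi / 6 * Complex.I) = C * (q / 2) - S * (Complex.I / 2) := by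
    rw [Complex.cosh_sub, c6, s6, hC, hS]
  have k2 : Complex.cosh (8 / 3 * z + Real.pi / 6 * Complex.I) = C * (q / 2) + S * (Complex.I / 2) := by
    rw [Complex.cosh_add, c6, s6, hC, hS]
  rw [k1] at h1 ⊢
  rw [k2] at h2 ⊢
  have hI := Complex.I_sq
  have e1 : (C * (q / 2) - S * (Complex.I / 2)) * (C * (q / 2) + S * (Complex.I / 2)) =
      (4 * C ^ 2 - 1) / 4 := by
    linear_combination (C ^ 2 / 4) * hq2 - (S ^ 2 / 4) * hI - (1 / 4) * hCS
  have h3 : (4 * C ^ 2 - 1) ≠ 0 := by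
    intro h0
    rw [h0] at e1
    simp only [zero_div, mul_eq_zero] at e1
    rcases e1 with e1 | e1
    · exact h1 e1
    · exact h2 e1
  have h4 : (2 * C - 1) * (2 * C + 1) = 4 * C ^ 2 - 1 := by ring
  have h5 : 2 * C - 1 ≠ 0 := by
    intro h0
    rw [h0, zero_mul] at h4
    exact h3 h4.symm
  have h6 : 2 * C + 1 ≠ 0 := by
    intro h0
    rw [h0, mul_zero] at h4
    exact h3 h4.symm
  have hp : (Real.pi : ℂ) ≠ 0 := by exact_mod_cast Real.pi_ne_zero
  have e2 : 1 / (C * (q / 2) - S * (Complex.I / 2)) + 1 / (C * (q / 2) + S * (Complex.I / 2)) =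
      4 * C * q / (4 * C ^ 2 - 1) := by
    rw [div_add_div _ _ h1 h2, e1]
    field_simp
    ring
  rw [e2]
  unfold Pc
  rw [← hC]
  have e3 : 1 / (2 * C - 1) + 1 / (2 * C + 1) = 4 * C / (4 * C ^ 2 - 1) := by
    rw [div_add_div _ _ h5 h6, h4]
    congr 1
    ring
  rw [e3]
  push_cast
  rw [← hq]
  field_simp
  linear_combination (-C) * hq2

/-- the denominators do not vanish -/
theorem den_v {v : ℝ} (hv : |v| < l) (t : ℝ) :
    0 < ch t ^ 2 - Real.sin (8 / 3 * v - Real.pi / 6) ^ 2 ∧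
    0 < ch t ^ 2 - Real.sin (8 / 3 * v + Real.pi / 6) ^ 2 := by
  obtain ⟨⟨a1, a2⟩, a3, a4⟩ := ang hv
  have h1 := one_le_ch t
  obtain ⟨p1, p2⟩ := cpos h1 a1 a2
  obtain ⟨p3, p4⟩ := cpos h1 a3 a4
  constructor
  · have e : ch t ^ 2 - Real.sin (8 / 3 * v - Real.pi / 6) ^ 2 =
      (ch t + Real.sin (8 / 3 * v - Real.pi / 6)) * (ch t - Real.sin (8 / 3 * v - Real.pi / 6)) := by
      ring
    rw [e]
    positivity
  · have e : ch t ^ 2 - Real.sin (8 / 3 * v + Real.pi / 6) ^ 2 =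
      (ch t + Real.sin (8 / 3 * v + Real.pi / 6)) * (ch t - Real.sin (8 / 3 * v + Real.pi / 6)) := by
      ring
    rw [e]
    positivity

/-- **the density at the offset `v`**, real and imaginary part -/
theorem Pc_parts {v : ℝ} (hv : |v| < l) (t : ℝ) :
    Pc ((t : ℂ) + v * Complex.I) =
      ((4 / (3 * Real.pi) * (ch t * Real.cos (8 / 3 * v - Real.pi / 6) /
          (ch t ^ 2 - Real.sin (8 / 3 * v - Real.pi / 6) ^ 2) +
        ch t * Real.cos (8 / 3 * v + Real.pi / 6) /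
          (ch t ^ 2 - Real.sin (8 / 3 * v + Real.pi / 6) ^ 2)) : ℝ) : ℂ) +
      ((-(4 / (3 * Real.pi) * (sh t * Real.sin (8 / 3 * v - Real.pi / 6) /
          (ch t ^ 2 - Real.sin (8 / 3 * v - Real.pi / 6) ^ 2) +
        sh t * Real.sin (8 / 3 * v + Real.pi / 6) /
          (ch t ^ 2 - Real.sin (8 / 3 * v + Real.pi / 6) ^ 2))) : ℝ) : ℂ) * Complex.I := by
  obtain ⟨d1, d2⟩ := den_v hv t
  have s1 := sech_eq (t := t) (β := 8 / 3 * v - Real.pi / 6) d1.ne'
  have s2 := sech_eq (t := t) (β := 8 / 3 * v + Real.pi / 6) d2.ne'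
  have e1 : ((8 / 3 * t : ℝ) : ℂ) + ((8 / 3 * v - Real.pi / 6 : ℝ) : ℂ) * Complex.I =
      8 / 3 * ((t : ℂ) + v * Complex.I) - Real.pi / 6 * Complex.I := by
    push_cast
    ring
  have e2 : ((8 / 3 * t : ℝ) : ℂ) + ((8 / 3 * v + Real.pi / 6 : ℝ) : ℂ) * Complex.I =
      8 / 3 * ((t : ℂ) + v * Complex.I) + Real.pi / 6 * Complex.I := by
    push_cast
    ring
  rw [e1] at s1
  rw [e2] at s2
  have n1 : Complex.cosh (8 / 3 * ((t : ℂ) + v * Complex.I) - Real.pi / 6 * Complex.I) ≠ 0 := by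
    intro h0
    rw [h0, div_zero] at s1
    have hr := congrArg Complex.re s1
    simp only [Complex.zero_re, Complex.add_re, Complex.ofReal_re, Complex.mul_re,
      Complex.I_re, mul_zero, Complex.ofReal_im, Complex.I_im, mul_one, sub_self, add_zero] at hr
    have hc := Real.cos_pos_of_mem_Ioo ⟨(ang hv).1.1, (ang hv).1.2⟩
    have : 0 < ch t * Real.cos (8 / 3 * v - Real.pi / 6) /
      (ch t ^ 2 - Real.sin (8 / 3 * v - Real.pi / 6) ^ 2) := by
      have := ch_pos t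
      positivity
    linarith
  have n2 : Complex.cosh (8 / 3 * ((t : ℂ) + v * Complex.I) + Real.pi / 6 * Complex.I) ≠ 0 := by
    intro h0
    rw [h0, div_zero] at s2
    have hr := congrArg Complex.re s2
    simp only [Complex.zero_re, Complex.add_re, Complex.ofReal_re, Complex.mul_re,
      Complex.I_re, mul_zero, Complex.ofReal_im, Complex.I_im, mul_one, sub_self, add_zero] at hr
    have hc := Real.cos_pos_of_mem_Ioo ⟨(ang hv).2.1, (ang hv).2.2⟩
    have : 0 < ch t * Real.cos (8 / 3 * v + Real.pi / 6) /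
      (ch t ^ 2 - Real.sin (8 / 3 * v + Real.pi / 6) ^ 2) := by
      have := ch_pos t
      positivity
    linarith
  rw [Pc_sech n1 n2, s1, s2]
  push_cast
  ring

/-- **the density is positive** at the offsets `|v| < l` -/
theorem Pc_re_pos {v : ℝ} (hv : |v| < l) (t : ℝ) : 0 < (Pc ((t : ℂ) + v * Complex.I)).re := by
  obtain ⟨⟨a1, a2⟩, a3, a4⟩ := ang hv
  obtain ⟨d1, d2⟩ := den_v hv t
  have c1 := Real.cos_pos_of_mem_Ioo ⟨a1, a2⟩
  have c2 := Real.cos_pos_of_mem_Ioo ⟨a3, a4⟩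
  have h1 := ch_pos t
  have hp := Real.pi_pos
  rw [Pc_parts hv t]
  simp only [Complex.add_re, Complex.ofReal_re, Complex.mul_re,
      Complex.I_re, mul_zero, Complex.ofReal_im, Complex.I_im, mul_one, sub_self, add_zero]
  positivity

/-- **derivative of the level function in the offset** -/
theorem hasDerivAt_Ag_v {v : ℝ} (hv : |v| < l) (t : ℝ) :
    HasDerivAt (fun v => Ag v t) (2 * Real.pi * (Pc ((t : ℂ) + v * Complex.I)).re) v := by
  obtain ⟨⟨a1, a2⟩, a3, a4⟩ := ang hv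
  have h1 := one_le_ch t
  obtain ⟨p1, p2⟩ := cpos h1 a1 a2
  obtain ⟨p3, p4⟩ := cpos h1 a3 a4
  have hp := Real.pi_pos
  have i0 : HasDerivAt (fun v : ℝ => 8 / 3 * v) (8 / 3) v := by
    simpa using (hasDerivAt_id v).const_mul (8 / 3)
  have g1 := (hasDerivAt_La_b p1 p2).comp v (i0.sub_const (Real.pi / 6))
  have g2 := (hasDerivAt_La_b p3 p4).comp v (i0.add_const (Real.pi / 6))
  refine (g1.add g2).congr_deriv ?_
  rw [Pc_parts hv t]
  simp only [Complex.add_re, Complex.ofReal_re, Complex.mul_re,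
      Complex.I_re, mul_zero, Complex.ofReal_im, Complex.I_im, mul_one, sub_self, add_zero]
  field_simp
  ring

/-- **derivative of the level function in the height** -/
theorem hasDerivAt_Ag_t {v : ℝ} (hv : |v| < l) (t : ℝ) :
    HasDerivAt (fun t => Ag v t) (2 * Real.pi * (Pc ((t : ℂ) + v * Complex.I)).im) t := by
  obtain ⟨⟨a1, a2⟩, a3, a4⟩ := ang hv
  have h1 := one_le_ch t
  obtain ⟨p1, p2⟩ := cpos h1 a1 a2
  obtain ⟨p3, p4⟩ := cpos h1 a3 a4
  have hp := Real.pi_pos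
  have g1 := (hasDerivAt_La_c p1 p2).comp t (hasDerivAt_ch t)
  have g2 := (hasDerivAt_La_c p3 p4).comp t (hasDerivAt_ch t)
  refine (g1.add g2).congr_deriv ?_
  rw [Pc_parts hv t]
  simp only [Complex.add_im, Complex.ofReal_re, Complex.mul_im,
      Complex.I_re, mul_zero, Complex.ofReal_im, Complex.I_im, mul_one, add_zero, zero_add]
  field_simp
  ring

/-- the level function vanishes at offset `0` and is even in the height, odd in the offset -/
theorem Ag_neg_t (v t : ℝ) : Ag v (-t) = Ag v t := by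
  unfold Ag
  rw [ch_neg]

theorem La_neg (β c : ℝ) : La (-β) c = -La β c := by
  unfold La
  rw [Real.sin_neg, sub_neg_eq_add, ← sub_eq_add_neg]
  ring

theorem Ag_neg_v (v t : ℝ) : Ag (-v) t = -Ag v t := by
  unfold Ag
  rw [show 8 / 3 * -v - Real.pi / 6 = -(8 / 3 * v + Real.pi / 6) by ring,
    show 8 / 3 * -v + Real.pi / 6 = -(8 / 3 * v - Real.pi / 6) by ring, La_neg, La_neg]
  ring

theorem Ag_zero (t : ℝ) : Ag 0 t = 0 := by
  have := Ag_neg_v 0 t
  rw [neg_zero] at this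
  linarith

end PLT

end
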