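import Mathlib

/-!
# Implicit functions of monotone equations

* `continuousAt_of_mono`: the zero of a function which increases strictly through it is continuous in the parameter;
* **`contDiffAt_of_implicit`**: a continuous solution `g` of `F (x, g x) = const` is as smooth as `F` where `∂F/∂v ≠ 0`;
* `hasDerivAt_of_implicit`: its derivative along a line.
-/

set_option autoImplicit false

noncomputable section

open Filter Topology

namespace PLT

/-- the zero of a function which increases strictly through it is continuous in the parameter -/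
theorem continuousAt_of_mono {E : Type*} [TopologicalSpace E] {F : E → ℝ → ℝ} {g : E → ℝ} {x : E}
    {r : ℝ} (hr : 0 < r)
    (hneg : ∀ v, g x - r < v → v < g x → F x v < 0) (hpos : ∀ v, g x < v → v < g x + r → 0 < F x v)
    (hF : ∀ v, g x - r < v → v < g x + r → ContinuousAt (fun y => F y v) x)
    (hlow : ∀ᶠ y in 𝓝 x, ∀ v, g x - r < v → v < g x + r → F y v < 0 → v < g y)
    (hup : ∀ᶠ y in 𝓝 x, ∀ v, g x - r < v → v < g x + r → 0 < F y v → g y < v) :
    ContinuousAt g x := by
  rw [Metric.continuousAt_iff']
  intro ε hε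
  obtain ⟨δ, hδ⟩ : ∃ δ, δ = min (ε / 2) (r / 2) := ⟨_, rfl⟩
  have h0 : 0 < δ := by
    rw [hδ]
    exact lt_min (by linarith) (by linarith)
  have h1 : δ ≤ ε / 2 := by rw [hδ]; exact min_le_left _ _
  have h2 : δ ≤ r / 2 := by rw [hδ]; exact min_le_right _ _
  have a1 := hneg (g x - δ) (by linarith) (by linarith)
  have a2 := hpos (g x + δ) (by linarith) (by linarith)
  have b1 := (hF (g x - δ) (by linarith) (by linarith)).eventually_lt_const a1
  have b2 := (hF (g x + δ) (by linarith) (by linarith)).eventually_const_lt a2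
  filter_upwards [b1, b2, hlow, hup] with y c1 c2 c3 c4
  have d1 := c3 (g x - δ) (by linarith) (by linarith) c1
  have d2 := c4 (g x + δ) (by linarith) (by linarith) c2
  rw [Real.dist_eq, abs_lt]
  constructor <;> linarith

/-- multiplication by a nonzero number is invertible -/
theorem isInvertible_of_ne {L : ℝ →L[ℝ] ℝ} (h : L 1 ≠ 0) : L.IsInvertible := by
  refine ⟨ContinuousLinearEquiv.unitsEquivAut ℝ (Units.mk0 (L 1) h), ?_⟩
  ext
  simp

variable {E : Type*} [NormedAddCommGroup E] [NormedSpace ℝ E] [CompleteSpace E]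

/-- **a continuous implicit function is smooth** -/
theorem contDiffAt_of_implicit {F : E × ℝ → ℝ} {g : E → ℝ} {x : E} {n : ℕ∞} (hn : n ≠ 0)
    (hF : ContDiffAt ℝ n F (x, g x)) (hd : fderiv ℝ F (x, g x) (0, 1) ≠ 0)
    (hc : ContinuousAt g x) (h0 : ∀ᶠ y in 𝓝 x, F (y, g y) = F (x, g x)) : ContDiffAt ℝ n g x := by
  have hn' : (n : WithTop ℕ∞) ≠ 0 := by exact_mod_cast hn
  have hi : (fderiv ℝ F (x, g x) ∘L .inr ℝ E ℝ).IsInvertible := by
    apply isInvertible_of_ne
    simpa using hd
  have h1 := hF.contDiffAt_implicitFunction hn' hi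
  have h2 := hF.eventually_apply_eq_iff_implicitFunction hn' hi
  have h3 : Tendsto (fun y => (y, g y)) (𝓝 x) (𝓝 (x, g x)) := by
    have := (continuousAt_id (x := x)).prodMk hc
    exact this
  have h4 := h3.eventually h2
  refine h1.congr_of_eventuallyEq ?_
  filter_upwards [h0, h4] with y e1 e2
  exact (e2.1 e1).symm

end PLT

end
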