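import Pool.Agent.PLT.Ag
import Pool.Agent.PLT.Impl

/-!
# The level function is smooth in the offset and the height
-/

set_option autoImplicit false

noncomputable section

open Filter Topology

namespace PLT.CA

open NUMF

theorem contDiff_ch {n : WithTop ℕ∞} : ContDiff ℝ n ch := by
  unfold ch
  exact Real.contDiff_cosh.comp (contDiff_const.mul contDiff_id)

/-- **the level function is smooth** in `(v, t)`, `|v| < l` -/
theorem contDiffAt_Ag {v t : ℝ} (hv : |v| < l) {n : WithTop ℕ∞} :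
    ContDiffAt ℝ n (fun p : ℝ × ℝ => Ag p.1 p.2) (v, t) := by
  obtain ⟨⟨a1, a2⟩, a3, a4⟩ := ang hv
  have h1 := one_le_ch t
  obtain ⟨p1, p2⟩ := cpos h1 a1 a2
  obtain ⟨p3, p4⟩ := cpos h1 a3 a4
  have hc : ContDiffAt ℝ n (fun p : ℝ × ℝ => ch p.2) (v, t) :=
    (contDiff_ch.comp contDiff_snd).contDiffAt
  have hs1 : ContDiffAt ℝ n (fun p : ℝ × ℝ => Real.sin (8 / 3 * p.1 - Real.pi / 6)) (v, t) :=
    (Real.contDiff_sin.comp ((contDiff_const.mul contDiff_fst).sub contDiff_const)).contDiffAt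
  have hs2 : ContDiffAt ℝ n (fun p : ℝ × ℝ => Real.sin (8 / 3 * p.1 + Real.pi / 6)) (v, t) :=
    (Real.contDiff_sin.comp ((contDiff_const.mul contDiff_fst).add contDiff_const)).contDiffAt
  unfold Ag La
  exact ((((hc.add hs1).log p1.ne').sub ((hc.sub hs1).log p2.ne')).div_const 2).add
    ((((hc.add hs2).log p3.ne').sub ((hc.sub hs2).log p4.ne')).div_const 2)

/-- the same along smooth functions -/
theorem ContDiffAt.ag {E : Type*} [NormedAddCommGroup E] [NormedSpace ℝ E] {f g : E → ℝ} {x : E}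
    {n : WithTop ℕ∞} (hf : ContDiffAt ℝ n f x) (hg : ContDiffAt ℝ n g x) (h : |f x| < l) :
    ContDiffAt ℝ n (fun y => Ag (f y) (g y)) x :=
  (contDiffAt_Ag (t := g x) h).comp (g := fun p : ℝ × ℝ => Ag p.1 p.2) (f := fun y => (f y, g y)) x
    (hf.prodMk hg)

end PLT.CA

end
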