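import Pool.Agent.PLT.Ag

/-!
# The level function is Lipschitz in the height and in the place, with the decay `exp (-(8/3) |t|)`

`Ag v t` is singular at `t = 0`, `v ≡ l, 2 l (mod 3 l)` only. Away from these places (`cc c0 v`:
`c0 ≤ |cos (8 v / 3 ∓ π / 6)|`, the constant is the distance, `cc_win`):

* `Ag_dt`, `Ag_dv`: both partial derivatives are `≤ 11 / c0 ^ 2 * exp (-(8/3) |t|)`;
* **`Ag_lip_t`**: `|Ag v (t - s) - Ag v t| ≤ 300 / c0 ^ 2 * |s| * exp (-(8/3) |t|)`, `|s| ≤ 1`;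
* **`Ag_lip_v`**: `|Ag v' t - Ag v t| ≤ 60 / c0 ^ 2 * |v' - v| * exp (-(8/3) |t|)`, `|v' - v| ≤ 3/16 c0`;
* **`Ag_lip`**: both.
-/

set_option autoImplicit false

noncomputable section

open Set Filter Topology

namespace PLT

open NUMF

namespace AgL

/-- away from the singular places -/
def cc (c0 v : ℝ) : Prop :=
  c0 ≤ |Real.cos (8 / 3 * v - Real.pi / 6)| ∧ c0 ≤ |Real.cos (8 / 3 * v + Real.pi / 6)|

theorem exp_le_ch (t : ℝ) : Real.exp (8 / 3 * |t|) ≤ 2 * ch t := by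
  unfold ch
  rw [← Real.cosh_abs, abs_mul, abs_of_pos (by norm_num : (0:ℝ) < 8 / 3), Real.cosh_eq]
  have := Real.exp_pos (-(8 / 3 * |t|))
  linarith

theorem inv_ch_le (t : ℝ) : (ch t)⁻¹ ≤ 2 * Real.exp (-(8 / 3 * |t|)) := by
  have h1 := exp_le_ch t
  have h2 := ch_pos t
  have h3 := Real.exp_pos (8 / 3 * |t|)
  rw [Real.exp_neg, inv_eq_one_div, div_le_iff₀ h2]
  have h4 : Real.exp (8 / 3 * |t|) * (Real.exp (8 / 3 * |t|))⁻¹ ≤ 2 * ch t * (Real.exp (8 / 3 * |t|))⁻¹ :=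
    mul_le_mul_of_nonneg_right h1 (inv_pos.2 h3).le
  rw [mul_inv_cancel₀ h3.ne'] at h4
  linarith

/-- the denominators -/
theorem den {c0 β : ℝ} (h0 : 0 < c0) (h : c0 ≤ |Real.cos β|) (t : ℝ) :
    c0 ^ 2 * ch t ^ 2 ≤ ch t ^ 2 - Real.sin β ^ 2 ∧ 0 < ch t + Real.sin β ∧ 0 < ch t - Real.sin β := by
  have h1 := one_le_ch t
  have h2 := Real.sin_sq_add_cos_sq β
  have h3 : c0 ^ 2 ≤ Real.cos β ^ 2 := by
    rw [← sq_abs (Real.cos β)]
    exact pow_le_pow_left₀ h0.le h 2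
  have h4 : 1 ≤ ch t ^ 2 := by nlinarith
  have h5 : c0 ^ 2 ≤ 1 := by nlinarith [sq_nonneg (Real.sin β)]
  have h6 : |Real.sin β| < 1 := by
    rw [← sq_lt_one_iff_abs_lt_one]
    have : 0 < c0 ^ 2 := by positivity
    linarith
  obtain ⟨h7, h8⟩ := abs_lt.1 h6
  refine ⟨?_, by linarith, by linarith⟩
  nlinarith [mul_nonneg (sub_nonneg.2 h5) (sub_nonneg.2 h4)]

/-- one term in the height -/
theorem La_dt {c0 β : ℝ} (h0 : 0 < c0) (h : c0 ≤ |Real.cos β|) (t : ℝ) :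
    ∃ D, HasDerivAt (fun t => La β (ch t)) D t ∧ |D| ≤ 16 / 3 / c0 ^ 2 * Real.exp (-(8 / 3 * |t|)) := by
  obtain ⟨d1, d2, d3⟩ := den h0 h t
  have hc := ch_pos t
  have h1 := one_le_ch t
  refine ⟨_, (hasDerivAt_La_c d2 d3).comp t (hasDerivAt_ch t), ?_⟩
  have hq : 0 < c0 ^ 2 * ch t ^ 2 := by positivity
  have hp : 0 < ch t ^ 2 - Real.sin β ^ 2 := lt_of_lt_of_le hq d1
  have hsh : |sh t| ≤ ch t := by
    have := ch_sq t
    rw [← Real.sqrt_sq_eq_abs, Real.sqrt_le_left hc.le]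
    linarith
  rw [abs_mul, abs_neg, abs_div, abs_of_pos hp, abs_mul, abs_of_pos (by norm_num : (0:ℝ) < 8 / 3)]
  have hs := Real.abs_sin_le_one β
  calc |Real.sin β| / (ch t ^ 2 - Real.sin β ^ 2) * (8 / 3 * |sh t|) ≤ 1 / (c0 ^ 2 * ch t ^ 2) * (8 / 3 * ch t) := by
        refine mul_le_mul ?_ (by linarith) (by positivity) (by positivity)
        exact div_le_div₀ zero_le_one hs hq d1
    _ = 8 / 3 / c0 ^ 2 * (ch t)⁻¹ := by
        field_simp
    _ ≤ 8 / 3 / c0 ^ 2 * (2 * Real.exp (-(8 / 3 * |t|))) :=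
        mul_le_mul_of_nonneg_left (inv_ch_le t) (by positivity)
    _ = _ := by ring

/-- one term in the angle -/
theorem La_db {c0 β : ℝ} (h0 : 0 < c0) (h : c0 ≤ |Real.cos β|) (t : ℝ) :
    ∃ D, HasDerivAt (fun β => La β (ch t)) D β ∧ |D| ≤ 2 / c0 ^ 2 * Real.exp (-(8 / 3 * |t|)) := by
  obtain ⟨d1, d2, d3⟩ := den h0 h t
  have hc := ch_pos t
  refine ⟨_, hasDerivAt_La_b d2 d3, ?_⟩
  have hq : 0 < c0 ^ 2 * ch t ^ 2 := by positivity
  have hp : 0 < ch t ^ 2 - Real.sin β ^ 2 := lt_of_lt_of_le hq d1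
  rw [abs_div, abs_of_pos hp, abs_mul, abs_of_pos hc]
  have hs := Real.abs_cos_le_one β
  calc ch t * |Real.cos β| / (ch t ^ 2 - Real.sin β ^ 2) ≤ ch t * 1 / (c0 ^ 2 * ch t ^ 2) :=
        div_le_div₀ (by positivity) (mul_le_mul_of_nonneg_left hs hc.le) hq d1
    _ = 1 / c0 ^ 2 * (ch t)⁻¹ := by
        field_simp
    _ ≤ 1 / c0 ^ 2 * (2 * Real.exp (-(8 / 3 * |t|))) :=
        mul_le_mul_of_nonneg_left (inv_ch_le t) (by positivity)
    _ = _ := by ring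

/-- **the derivative in the height** -/
theorem Ag_dt {c0 v : ℝ} (h0 : 0 < c0) (h : cc c0 v) (t : ℝ) :
    ∃ D, HasDerivAt (fun t => Ag v t) D t ∧ |D| ≤ 11 / c0 ^ 2 * Real.exp (-(8 / 3 * |t|)) := by
  obtain ⟨D1, a1, a2⟩ := La_dt h0 h.1 t
  obtain ⟨D2, b1, b2⟩ := La_dt h0 h.2 t
  refine ⟨D1 + D2, a1.add b1, (abs_add_le _ _).trans ((add_le_add a2 b2).trans ?_)⟩
  have h1 : 0 < 1 / c0 ^ 2 * Real.exp (-(8 / 3 * |t|)) := by positivity
  have e1 : 16 / 3 / c0 ^ 2 * Real.exp (-(8 / 3 * |t|)) = 16 / 3 * (1 / c0 ^ 2 * Real.exp (-(8 / 3 * |t|))) := by ring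
  have e2 : 11 / c0 ^ 2 * Real.exp (-(8 / 3 * |t|)) = 11 * (1 / c0 ^ 2 * Real.exp (-(8 / 3 * |t|))) := by ring
  rw [e1, e2]
  linarith

/-- **the derivative in the place** -/
theorem Ag_dv {c0 v : ℝ} (h0 : 0 < c0) (h : cc c0 v) (t : ℝ) :
    ∃ D, HasDerivAt (fun v => Ag v t) D v ∧ |D| ≤ 11 / c0 ^ 2 * Real.exp (-(8 / 3 * |t|)) := by
  obtain ⟨D1, a1, a2⟩ := La_db h0 h.1 t
  obtain ⟨D2, b1, b2⟩ := La_db h0 h.2 t
  have i0 : HasDerivAt (fun v : ℝ => 8 / 3 * v) (8 / 3) v := by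
    simpa using (hasDerivAt_id v).const_mul (8 / 3)
  have g1 := a1.comp v (i0.sub_const (Real.pi / 6))
  have g2 := b1.comp v (i0.add_const (Real.pi / 6))
  refine ⟨D1 * (8 / 3) + D2 * (8 / 3), g1.add g2, ?_⟩
  have h1 : 0 < 1 / c0 ^ 2 * Real.exp (-(8 / 3 * |t|)) := by positivity
  have e1 : 2 / c0 ^ 2 * Real.exp (-(8 / 3 * |t|)) = 2 * (1 / c0 ^ 2 * Real.exp (-(8 / 3 * |t|))) := by ring
  have e2 : 11 / c0 ^ 2 * Real.exp (-(8 / 3 * |t|)) = 11 * (1 / c0 ^ 2 * Real.exp (-(8 / 3 * |t|))) := by ring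
  rw [e1] at a2 b2
  rw [e2, abs_le]
  rw [abs_le] at a2 b2
  constructor <;> linarith [a2.1, a2.2, b2.1, b2.2]

theorem exp3 : Real.exp (8 / 3 : ℝ) ≤ 21 := by
  have h1 := Real.exp_one_lt_d9
  have h2 : Real.exp (8 / 3 : ℝ) ≤ Real.exp 3 := Real.exp_le_exp.2 (by norm_num)
  have h3 : Real.exp 3 = Real.exp 1 ^ 3 := by
    rw [← Real.exp_nat_mul]
    norm_num
  have h4 : Real.exp 1 ^ 3 ≤ (2.7182818286 : ℝ) ^ 3 := pow_le_pow_left₀ (Real.exp_pos _).le h1.le 3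
  rw [h3] at h2
  refine h2.trans (h4.trans ?_)
  norm_num

theorem exp_shift {s t u : ℝ} (h : |u - t| ≤ |s|) :
    Real.exp (-(8 / 3 * |u|)) ≤ Real.exp (8 / 3 * |s|) * Real.exp (-(8 / 3 * |t|)) := by
  rw [← Real.exp_add]
  refine Real.exp_le_exp.2 ?_
  have := abs_sub_abs_le_abs_sub t u
  rw [abs_sub_comm] at this
  linarith

/-- **Lipschitz in the height** -/
theorem Ag_lip_t {c0 v : ℝ} (h0 : 0 < c0) (h : cc c0 v) {s : ℝ} (hs : |s| ≤ 1) (t : ℝ) :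
    |Ag v (t - s) - Ag v t| ≤ 300 / c0 ^ 2 * |s| * Real.exp (-(8 / 3 * |t|)) := by
  have hC : 0 < 11 / c0 ^ 2 := by positivity
  choose D hD hb using fun t => Ag_dt h0 h t
  have key := Convex.norm_image_sub_le_of_norm_hasDerivWithin_le (f := fun t => Ag v t) (f' := D)
    (s := uIcc t (t - s)) (x := t) (y := t - s)
    (C := 11 / c0 ^ 2 * (Real.exp (8 / 3 * |s|) * Real.exp (-(8 / 3 * |t|))))
    (fun u _ => (hD u).hasDerivWithinAt) (fun u hu => ?_) (convex_uIcc _ _) left_mem_uIcc right_mem_uIcc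
  · rw [Real.norm_eq_abs, Real.norm_eq_abs] at key
    rw [show t - s - t = -s by ring, abs_neg] at key
    refine key.trans ?_
    have h1 : Real.exp (8 / 3 * |s|) ≤ 21 := (Real.exp_le_exp.2 (by linarith)).trans exp3
    have h2 := Real.exp_pos (-(8 / 3 * |t|))
    have h3 := abs_nonneg s
    calc 11 / c0 ^ 2 * (Real.exp (8 / 3 * |s|) * Real.exp (-(8 / 3 * |t|))) * |s| ≤
          11 / c0 ^ 2 * (21 * Real.exp (-(8 / 3 * |t|))) * |s| := by gcongr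
      _ = 231 / c0 ^ 2 * |s| * Real.exp (-(8 / 3 * |t|)) := by ring
      _ ≤ _ := by gcongr; norm_num
  · rw [Real.norm_eq_abs]
    refine (hb u).trans (mul_le_mul_of_nonneg_left (exp_shift ?_) hC.le)
    have := abs_sub_left_of_mem_uIcc hu
    rwa [show t - s - t = -s by ring, abs_neg] at this

/-- the singular places are far from a whole neighbourhood -/
theorem cc_near {c0 v v' : ℝ} (h : cc c0 v) (hv : |v' - v| ≤ 3 / 16 * c0) : cc (c0 / 2) v' := by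
  have key : ∀ a : ℝ, c0 ≤ |Real.cos (8 / 3 * v + a)| → c0 / 2 ≤ |Real.cos (8 / 3 * v' + a)| := by
    intro a ha
    have h1 : |Real.cos (8 / 3 * v + a) - Real.cos (8 / 3 * v' + a)| ≤ 8 / 3 * |v' - v| := by
      have := Real.abs_cos_sub_cos_le (8 / 3 * v + a) (8 / 3 * v' + a)
      refine this.trans (le_of_eq ?_)
      rw [show 8 / 3 * v + a - (8 / 3 * v' + a) = 8 / 3 * (v - v') by ring, abs_mul,
        abs_of_pos (by norm_num : (0:ℝ) < 8 / 3), abs_sub_comm]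
    have h2 := abs_sub_abs_le_abs_sub (Real.cos (8 / 3 * v + a)) (Real.cos (8 / 3 * v' + a))
    linarith
  refine ⟨?_, key _ h.2⟩
  have := key (-(Real.pi / 6)) (by rw [← sub_eq_add_neg]; exact h.1)
  rwa [← sub_eq_add_neg] at this

/-- **Lipschitz in the place** -/
theorem Ag_lip_v {c0 v v' : ℝ} (h0 : 0 < c0) (h : cc c0 v) (hv : |v' - v| ≤ 3 / 16 * c0) (t : ℝ) :
    |Ag v' t - Ag v t| ≤ 60 / c0 ^ 2 * |v' - v| * Real.exp (-(8 / 3 * |t|)) := by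
  have h2 : 0 < c0 / 2 := by positivity
  have hcc : ∀ u ∈ uIcc v v', cc (c0 / 2) u := fun u hu =>
    cc_near h ((abs_sub_left_of_mem_uIcc hu).trans hv)
  have key := Convex.norm_image_sub_le_of_norm_hasDerivWithin_le (f := fun v => Ag v t)
    (f' := fun u => deriv (fun v => Ag v t) u) (s := uIcc v v') (x := v) (y := v')
    (C := 11 / (c0 / 2) ^ 2 * Real.exp (-(8 / 3 * |t|)))
    (fun u hu => ?_) (fun u hu => ?_) (convex_uIcc _ _) left_mem_uIcc right_mem_uIcc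
  · rw [Real.norm_eq_abs, Real.norm_eq_abs] at key
    refine key.trans ?_
    have h3 := Real.exp_pos (-(8 / 3 * |t|))
    have h4 := abs_nonneg (v' - v)
    calc 11 / (c0 / 2) ^ 2 * Real.exp (-(8 / 3 * |t|)) * |v' - v| =
          44 / c0 ^ 2 * |v' - v| * Real.exp (-(8 / 3 * |t|)) := by
          field_simp
          ring
      _ ≤ _ := by gcongr; norm_num
  · obtain ⟨D, a1, -⟩ := Ag_dv h2 (hcc u hu) t
    rw [a1.deriv]
    exact a1.hasDerivWithinAt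
  · obtain ⟨D, a1, a2⟩ := Ag_dv h2 (hcc u hu) t
    rw [a1.deriv, Real.norm_eq_abs]
    exact a2

/-- **Lipschitz in the place and in the height** -/
theorem Ag_lip {c0 v v' s : ℝ} (h0 : 0 < c0) (h : cc c0 v) (hv : |v' - v| ≤ 3 / 16 * c0) (hs : |s| ≤ 1) (t : ℝ) :
    |Ag v' (t - s) - Ag v t| ≤ 1260 / c0 ^ 2 * (|v' - v| + |s|) * Real.exp (-(8 / 3 * |t|)) := by
  have h2 : 0 < c0 / 2 := by positivity
  have a1 := Ag_lip_v h0 h hv t
  have a2 := Ag_lip_t h2 (cc_near h hv) hs t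
  have h3 := Real.exp_pos (-(8 / 3 * |t|))
  have h4 := abs_nonneg (v' - v)
  have h5 := abs_nonneg s
  have e2 : 300 / (c0 / 2) ^ 2 * |s| * Real.exp (-(8 / 3 * |t|)) =
      1200 / c0 ^ 2 * |s| * Real.exp (-(8 / 3 * |t|)) := by
    field_simp
    ring
  rw [e2] at a2
  have h6 : 0 ≤ 1 / c0 ^ 2 * |v' - v| * Real.exp (-(8 / 3 * |t|)) := by positivity
  have h7 : 0 ≤ 1 / c0 ^ 2 * |s| * Real.exp (-(8 / 3 * |t|)) := by positivity
  have h8 : |Ag v' (t - s) - Ag v t| ≤ |Ag v' (t - s) - Ag v' t| + |Ag v' t - Ag v t| := by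
    have := abs_add_le (Ag v' (t - s) - Ag v' t) (Ag v' t - Ag v t)
    rwa [sub_add_sub_cancel] at this
  refine h8.trans ((add_le_add a2 a1).trans ?_)
  have e3 : 1260 / c0 ^ 2 * (|v' - v| + |s|) * Real.exp (-(8 / 3 * |t|)) =
      1260 * (1 / c0 ^ 2 * |v' - v| * Real.exp (-(8 / 3 * |t|))) +
        1260 * (1 / c0 ^ 2 * |s| * Real.exp (-(8 / 3 * |t|))) := by ring
  have e4 : 1200 / c0 ^ 2 * |s| * Real.exp (-(8 / 3 * |t|)) + 60 / c0 ^ 2 * |v' - v| * Real.exp (-(8 / 3 * |t|)) =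
      1200 * (1 / c0 ^ 2 * |s| * Real.exp (-(8 / 3 * |t|))) +
        60 * (1 / c0 ^ 2 * |v' - v| * Real.exp (-(8 / 3 * |t|))) := by ring
  rw [e3, e4]
  linarith

/-! ### the places -/

theorem sin_ge {y d : ℝ} (k : ℤ) (hd : 0 ≤ d) (h1 : 3 * k * l + d ≤ y) (h2 : y ≤ 3 * k * l + 3 * l - d) :
    d ≤ |Real.sin (8 / 3 * y)| := by
  have hl := l_pos
  have hpi : Real.pi = 8 * l := by unfold l; ring
  have e1 : 8 / 3 * y = 8 / 3 * (y - 3 * k * l) + k * Real.pi := by rw [hpi]; ring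
  rw [e1, Real.sin_add_int_mul_pi, abs_mul, abs_zpow, abs_neg, abs_one, one_zpow, one_mul]
  set z := y - 3 * k * l with hz
  have z1 : d ≤ z := by rw [hz]; linarith
  have z2 : z ≤ 3 * l - d := by rw [hz]; linarith
  have hp : 2 / Real.pi * (8 / 3) ≥ 1 := by
    rw [ge_iff_le, div_mul_eq_mul_div, le_div_iff₀ Real.pi_pos]
    have := Real.pi_lt_four
    linarith
  rcases le_total (8 / 3 * z) (Real.pi / 2) with hc | hc
  · have h3 := Real.mul_le_sin (by linarith : 0 ≤ 8 / 3 * z) hc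
    refine le_trans ?_ (le_abs_self _)
    nlinarith
  · have h3 := Real.mul_le_sin (x := Real.pi - 8 / 3 * z) (by rw [hpi]; linarith) (by linarith)
    rw [Real.sin_pi_sub] at h3
    refine le_trans ?_ (le_abs_self _)
    have h4 : Real.pi - 8 / 3 * z = 8 / 3 * (3 * l - z) := by rw [hpi]; ring
    rw [h4] at h3
    nlinarith

/-- **the constant is the distance from the singular places**: windows of length `2 l` (around `3 k l`) and of
length `l` (between `(3 k + 1) l` and `(3 k + 2) l`) -/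
theorem cc_win {v d : ℝ} (hd : 0 ≤ d) (k : ℤ) (h : ((3 * k - 1) * l + d ≤ v ∧ v ≤ (3 * k + 1) * l - d) ∨
    ((3 * k + 1) * l + d ≤ v ∧ v ≤ (3 * k + 2) * l - d)) : cc d v := by
  have hl := l_pos
  have hpi : Real.pi = 8 * l := by unfold l; ring
  have e1 : |Real.cos (8 / 3 * v - Real.pi / 6)| = |Real.sin (8 / 3 * (v - 2 * l))| := by
    rw [← Real.sin_add_pi_div_two, show 8 / 3 * v - Real.pi / 6 + Real.pi / 2 = 8 / 3 * (v - 2 * l) + Real.pi by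
      rw [hpi]; ring, Real.sin_add_pi, abs_neg]
  have e2 : |Real.cos (8 / 3 * v + Real.pi / 6)| = |Real.sin (8 / 3 * (v - l))| := by
    rw [← Real.sin_add_pi_div_two, show 8 / 3 * v + Real.pi / 6 + Real.pi / 2 = 8 / 3 * (v - l) + Real.pi by
      rw [hpi]; ring, Real.sin_add_pi, abs_neg]
  unfold cc
  rw [e1, e2]
  rcases h with ⟨h1, h2⟩ | ⟨h1, h2⟩
  · refine ⟨sin_ge (k - 1) hd ?_ ?_, sin_ge (k - 1) hd ?_ ?_⟩ <;> push_cast <;> linarith
  · refine ⟨sin_ge (k - 1) hd ?_ ?_, sin_ge k hd ?_ ?_⟩ <;> push_cast <;> linarith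

end AgL

end PLT

end
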