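import Pool.Agent.PLT.ClsShD

/-!
# The class sum: independence of the cutoffs and of imaginary translations

* **`RU.Ok6.fin_cut`** : `RU.fin` depends on the rows, ends and constants only, not on `β`, `g`, `g'`, `g0`, `g0'`;
* **`RU.Ok6.fin_move`** : the same with rows and ends translated by `τ I`.
-/

set_option autoImplicit false
set_option linter.unusedSectionVars false
set_option linter.unusedVariables false

noncomputable section

open Complex MeasureTheory

namespace Pool.Agent.PLX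

open NUP1 NUP1S NUP1.Bd NURow PBX
open NUP1.N (E11)
open PHK (gO Par6 lnP lX6 lY6)

variable {m M n n' : ℕ} {P : Par6} {P0 : NUO.Par}

/-- **no dependence on the cutoffs** -/
theorem RU.Ok6.fin_cut {D D' : RU m M} (H : D.Ok6) (H' : D'.Ok6) (hβ : 1 < D.β) (hβ' : 1 < D'.β)
    (hx : D.x = D'.x) (hy : D.y = D'.y) (hp : D.p = D'.p) (hq : D.q = D'.q) (hc : D.c = D'.c)
    (hc' : D.c' = D'.c') (hn : n + M = n' + m) (hP0 : ParP P0)
    (L0 : LnH (lX P0) (lY P0)) (hL : ∀ k, lnP P k ∈ Set.Icc (PHK.loV (some k)) (PHK.hiV (some k))) :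
    D.fin P n n' = D'.fin P n n' := by
  rw [← H.fin_eq hβ hn hP0 L0 hL, ← H'.fin_eq hβ' hn hP0 L0 hL]
  exact H.base.E11_cut H'.base hβ hβ' hx hy hp hq hc hc' (Or.inl rfl) hn

/-- **rows and ends translated by `τ I`, any cutoffs** -/
theorem RU.Ok6.fin_move {D D' : RU m M} (H : D.Ok6) (H' : D'.Ok6) (hβ : 1 < D.β) (hβ' : 1 < D'.β) (τ : ℝ)
    (hx : ∀ i, D'.x i = D.x i + τ * I) (hy : ∀ i, D'.y i = D.y i + τ * I) (hp : D'.p = D.p + τ * I)
    (hq : D'.q = D.q + τ * I) (hc : D.c = D'.c)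
    (hc' : D.c' = D'.c') (hn : n + M = n' + m) (hP0 : ParP P0)
    (L0 : LnH (lX P0) (lY P0)) (hL : ∀ k, lnP P k ∈ Set.Icc (PHK.loV (some k)) (PHK.hiV (some k))) :
    D'.fin P n n' = D.fin P n n' := by
  rw [← RU.fin_tr D P n n' τ]
  exact H'.fin_cut (H.tr τ) hβ' hβ (funext hx) (funext hy) hp hq hc.symm hc'.symm hn hP0 L0 hL

end Pool.Agent.PLX

end
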