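import Pool.Agent.PLT.RRat

/-!
# Analyticity of the prefactors in a parameter

Rows `x D`, `y D`, cut rows `p D`, `q D` which depend differentiably on `D : ℂ`.

* `diff_Bp` : the prefactor `Bp (p D) (q D) (x D)` (no condition on the places);
* `diff_bulkU`, `bulkU_ne'` : the bulk term, real parts of all differences `< 5 l`;
* `preY` : `2 ^ (N (N - 1)) sin l Bp p q x Bp q p y / bulkU`, **`diff_preY`**;
* `Bp_tr`, `bulkU_tr`, **`preY_tr`** : invariance under common shifts.
-/

set_option autoImplicit false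

noncomputable section

open Complex

namespace PLT

open NUP1 (l)
open NUP1.Grand (P)
open NUP1.Leg (Bp EX FF)
open PBR (rh rh_ne_zero differentiableAt_rh)

variable {m M : ℕ}

theorem diff_prod {ι : Type*} (s : Finset ι) {f : ι → ℂ → ℂ} {D : ℂ}
    (h : ∀ i ∈ s, DifferentiableAt ℂ (f i) D) : DifferentiableAt ℂ (fun D => ∏ i ∈ s, f i D) D := by
  classical
  induction s using Finset.induction_on with
  | empty => simp only [Finset.prod_empty]; exact differentiableAt_const _
  | insert a s ha ih =>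
    have e : (fun D => ∏ i ∈ insert a s, f i D) = fun D => f a D * ∏ i ∈ s, f i D := by
      funext D
      rw [Finset.prod_insert ha]
    rw [e]
    exact (h a (Finset.mem_insert_self a s)).fun_mul (ih fun i hi => h i (Finset.mem_insert_of_mem hi))

theorem diff_sin' {f : ℂ → ℂ} {D : ℂ} (h : DifferentiableAt ℂ f D) : DifferentiableAt ℂ (fun D => sin (f D)) D :=
  DifferentiableAt.comp D (g := sin) (f := f) Complex.differentiable_sin.differentiableAt h

theorem diff_FF {f : ℂ → ℂ} {D : ℂ} (h : DifferentiableAt ℂ f D) : DifferentiableAt ℂ (fun D => FF (f D)) D := by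
  have e : (fun D => FF (f D)) = fun D => (sin (f D + 2 * l) * sin (f D + 3 * l)) *
      (sin (-f D + 2 * l) * sin (-f D + 3 * l)) := by
    funext D
    rw [PBX.FF_Lt]
    rfl
  rw [e]
  exact ((diff_sin' (h.add_const _)).fun_mul (diff_sin' (h.add_const _))).fun_mul
    ((diff_sin' (h.fun_neg.add_const _)).fun_mul (diff_sin' (h.fun_neg.add_const _)))

/-- **the prefactor of one group** -/
theorem diff_Bp {x : Fin m → ℂ → ℂ} {p q : ℂ → ℂ} {D : ℂ} (hx : ∀ i, DifferentiableAt ℂ (x i) D)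
    (hp : DifferentiableAt ℂ p D) (hq : DifferentiableAt ℂ q D) :
    DifferentiableAt ℂ (fun D => Bp (p D) (q D) (fun i => x i D)) D := by
  unfold NUP1.Leg.Bp NUP1.Grand.P
  refine (diff_prod _ fun i _ => ?_).fun_mul (diff_prod _ fun i _ => diff_prod _ fun j _ => ?_)
  · unfold NUP1.Leg.EX
    refine DifferentiableAt.const_mul ?_ _
    exact ((diff_sin' ((hp.fun_sub (hx i)).add_const _)).fun_mul
      (diff_sin' ((hp.fun_sub (hx i)).add_const _))).fun_mul
      ((diff_sin' ((hq.fun_sub (hx i)).add_const _)).fun_mul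
      (diff_sin' ((hq.fun_sub (hx i)).add_const _)))
  · split_ifs
    · exact diff_FF ((hx i).fun_sub (hx j))
    · exact differentiableAt_const _

theorem diff_rh {f : ℂ → ℂ} {D : ℂ} (h : DifferentiableAt ℂ f D) (h8 : |(f D).re| < 8 * l) :
    DifferentiableAt ℂ (fun D => rh (f D)) D :=
  DifferentiableAt.comp D (g := rh) (f := f) (differentiableAt_rh h8) h

/-- **the bulk term** -/
theorem diff_bulkU {x : Fin m → ℂ → ℂ} {y : Fin M → ℂ → ℂ} {p q : ℂ → ℂ} {D : ℂ}
    (hx : ∀ i, DifferentiableAt ℂ (x i) D) (hy : ∀ j, DifferentiableAt ℂ (y j) D)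
    (hp : DifferentiableAt ℂ p D) (hq : DifferentiableAt ℂ q D)
    (xx : ∀ i j, |(x i D - x j D).re| < 5 * l) (yy : ∀ i j, |(y i D - y j D).re| < 5 * l)
    (xy : ∀ i j, |(x i D - y j D).re| < 5 * l) (px : ∀ i, |(p D - x i D).re| < 5 * l)
    (qx : ∀ i, |(q D - x i D).re| < 5 * l) (py : ∀ j, |(p D - y j D).re| < 5 * l)
    (qy : ∀ j, |(q D - y j D).re| < 5 * l) (pq : |(p D - q D).re| < 5 * l) :
    DifferentiableAt ℂ (fun D => bulkU (fun i => x i D) (fun j => y j D) (p D) (q D)) D := by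
  have hl : 0 < l := NUMF.l_pos
  have h58 : 5 * l < 8 * l := by linarith
  unfold bulkU
  refine DifferentiableAt.fun_mul (DifferentiableAt.fun_mul (DifferentiableAt.fun_mul
    (DifferentiableAt.fun_mul (DifferentiableAt.fun_mul (DifferentiableAt.fun_mul
      (differentiableAt_const _) ?_) ?_) ?_) ?_) ?_) ?_
  · refine diff_prod _ fun i _ => diff_prod _ fun j _ => ?_
    split_ifs
    · exact differentiableAt_const _
    · exact diff_rh ((hx i).fun_sub (hx j)) ((xx i j).trans h58)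
  · refine diff_prod _ fun i _ => diff_prod _ fun j _ => ?_
    split_ifs
    · exact differentiableAt_const _
    · exact diff_rh ((hy i).fun_sub (hy j)) ((yy i j).trans h58)
  · exact diff_prod _ fun i _ => diff_prod _ fun j _ =>
      (diff_rh ((hx i).fun_sub (hy j)) ((xy i j).trans h58)).fun_pow 2
  · exact diff_prod _ fun i _ => ((diff_rh (hp.fun_sub (hx i)) ((px i).trans h58)).fun_mul
      (diff_rh (hq.fun_sub (hx i)) ((qx i).trans h58))).fun_pow 2
  · exact diff_prod _ fun j _ => ((diff_rh (hp.fun_sub (hy j)) ((py j).trans h58)).fun_mul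
      (diff_rh (hq.fun_sub (hy j)) ((qy j).trans h58))).fun_pow 2
  · exact (diff_rh (hp.fun_sub hq) (pq.trans h58)).fun_pow 2

/-- the bulk term does not vanish -/
theorem bulkU_ne' {x : Fin m → ℂ} {y : Fin M → ℂ} {p q : ℂ}
    (xx : ∀ i j, |(x i - x j).re| < 5 * l) (yy : ∀ i j, |(y i - y j).re| < 5 * l)
    (xy : ∀ i j, |(x i - y j).re| < 5 * l) (px : ∀ i, |(p - x i).re| < 5 * l)
    (qx : ∀ i, |(q - x i).re| < 5 * l) (py : ∀ j, |(p - y j).re| < 5 * l)
    (qy : ∀ j, |(q - y j).re| < 5 * l) (pq : |(p - q).re| < 5 * l) : bulkU x y p q ≠ 0 := by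
  unfold bulkU
  refine mul_ne_zero (mul_ne_zero (mul_ne_zero (mul_ne_zero (mul_ne_zero (mul_ne_zero (mul_ne_zero
    (pow_ne_zero _ two_ne_zero) (pow_ne_zero _ (by norm_num))) ?_) ?_) ?_) ?_) ?_) ?_
  · exact prod_ne_if fun i j => rh_ne_zero (xx i j)
  · exact prod_ne_if fun i j => rh_ne_zero (yy i j)
  · exact Finset.prod_ne_zero_iff.2 fun i _ => Finset.prod_ne_zero_iff.2 fun j _ =>
      pow_ne_zero _ (rh_ne_zero (xy i j))
  · exact Finset.prod_ne_zero_iff.2 fun i _ => pow_ne_zero _ (mul_ne_zero (rh_ne_zero (px i))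
      (rh_ne_zero (qx i)))
  · exact Finset.prod_ne_zero_iff.2 fun j _ => pow_ne_zero _ (mul_ne_zero (rh_ne_zero (py j))
      (rh_ne_zero (qy j)))
  · exact pow_ne_zero _ (rh_ne_zero pq)

/-- **the physical prefactor** -/
def preY (x : Fin m → ℂ) (y : Fin M → ℂ) (p q : ℂ) : ℂ :=
  2 ^ ((m + M + 2) * (m + M + 1)) * (sin (l : ℂ) * (Bp p q x * Bp q p y)) / bulkU x y p q

/-- **the physical prefactor is analytic in the parameter** -/
theorem diff_preY {x : Fin m → ℂ → ℂ} {y : Fin M → ℂ → ℂ} {p q : ℂ → ℂ} {D : ℂ}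
    (hx : ∀ i, DifferentiableAt ℂ (x i) D) (hy : ∀ j, DifferentiableAt ℂ (y j) D)
    (hp : DifferentiableAt ℂ p D) (hq : DifferentiableAt ℂ q D)
    (xx : ∀ i j, |(x i D - x j D).re| < 5 * l) (yy : ∀ i j, |(y i D - y j D).re| < 5 * l)
    (xy : ∀ i j, |(x i D - y j D).re| < 5 * l) (px : ∀ i, |(p D - x i D).re| < 5 * l)
    (qx : ∀ i, |(q D - x i D).re| < 5 * l) (py : ∀ j, |(p D - y j D).re| < 5 * l)
    (qy : ∀ j, |(q D - y j D).re| < 5 * l) (pq : |(p D - q D).re| < 5 * l) :
    DifferentiableAt ℂ (fun D => preY (fun i => x i D) (fun j => y j D) (p D) (q D)) D := by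
  unfold preY
  exact (((diff_Bp hx hp hq).fun_mul (diff_Bp hy hq hp)).const_mul _ |>.const_mul _).fun_div
    (diff_bulkU hx hy hp hq xx yy xy px qx py qy pq) (bulkU_ne' xx yy xy px qx py qy pq)

/-! ### common shift -/

/-- the prefactor depends on the differences only -/
theorem Bp_tr (x : Fin m → ℂ) (p q c : ℂ) : Bp (p + c) (q + c) (fun i => x i + c) = Bp p q x := by
  unfold NUP1.Leg.Bp NUP1.Leg.EX
  simp only [add_sub_add_right_eq_sub]

theorem bulkU_tr (x : Fin m → ℂ) (y : Fin M → ℂ) (p q c : ℂ) :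
    bulkU (fun i => x i + c) (fun j => y j + c) (p + c) (q + c) = bulkU x y p q := by
  unfold bulkU
  simp only [add_sub_add_right_eq_sub]

/-- **the physical prefactor is invariant under common shifts** -/
theorem preY_tr (x : Fin m → ℂ) (y : Fin M → ℂ) (p q c : ℂ) :
    preY (fun i => x i + c) (fun j => y j + c) (p + c) (q + c) = preY x y p q := by
  unfold preY
  rw [Bp_tr, Bp_tr, bulkU_tr]

end PLT

end
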