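import Pool.Agent.PLT.UbR

/-!
# Families of rows: the strings T on `-l/2`, the ends, the cutoffs `gO`

* `LB U a F` : bounded on bounded parts of the line; `ub_glue`;
* `CutO U x g0` : families of cutoffs of the strings; `cutO_gO`;
* **`ub_TTF`**, `diff_TTF` : the removable form `TTT` on the line `-l/2`; `TTU_TTF` : it is the landed `TTU`;
* `ub_thF`, `diff_thF` : the ends.
-/

set_option autoImplicit false
set_option linter.unusedSectionVars false
set_option linter.unusedVariables false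

noncomputable section

open Complex MeasureTheory Filter Topology

namespace PLTX

open NUP1 NUP1S NUP1.Bd NURow
open NUP1.Leg (hr thE)
open PBX (Rws ph GOk gP measurable_ph im_le bdd_glueR Bdd_of_Gr Lg)
open Pool.Agent.PLX
open PHK (phO om omA gO pP)

variable {m M : ℕ} {U : Set ℂ} {a : ℝ}

/-! ### bounded parts of a line -/

/-- bounded on bounded parts of the line -/
def LB (U : Set ℂ) (a : ℝ) (F : ℂ → ℂ → ℂ) : Prop :=
  ∀ R : ℝ, ∃ C : ℝ, 0 ≤ C ∧ ∀ θ ∈ U, ∀ z : ℂ, z.re = a → |z.im| ≤ R → ‖F θ z‖ ≤ C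

theorem lb_ub {s : ℝ} {F : ℂ → ℂ → ℂ} (h : UB U {a} s F) : LB U a F := by
  intro R
  obtain ⟨C, hC, h1⟩ := h
  refine ⟨C * Real.exp (|s| * R), by positivity, fun θ hθ z hz hR => (h1 θ hθ z hz).trans
    (mul_le_mul_of_nonneg_left (Real.exp_le_exp.2 ?_) hC)⟩
  calc s * |z.im| ≤ |s| * |z.im| := mul_le_mul_of_nonneg_right (le_abs_self s) (abs_nonneg _)
    _ ≤ _ := mul_le_mul_of_nonneg_left hR (abs_nonneg _)

theorem LB.mul {F G : ℂ → ℂ → ℂ} (h : LB U a F) (k : LB U a G) : LB U a fun θ z => F θ z * G θ z := by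
  intro R
  obtain ⟨C, hC, h1⟩ := h R
  obtain ⟨D, hD, h2⟩ := k R
  refine ⟨C * D, mul_nonneg hC hD, fun θ hθ z hz hR => ?_⟩
  rw [norm_mul]
  exact mul_le_mul (h1 θ hθ z hz hR) (h2 θ hθ z hz hR) (norm_nonneg _) hC

theorem LB.sub {F G : ℂ → ℂ → ℂ} (h : LB U a F) (k : LB U a G) : LB U a fun θ z => F θ z - G θ z := by
  intro R
  obtain ⟨C, hC, h1⟩ := h R
  obtain ⟨D, hD, h2⟩ := k R
  exact ⟨C + D, add_nonneg hC hD, fun θ hθ z hz hR => (norm_sub_le _ _).trans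
    (add_le_add (h1 θ hθ z hz hR) (h2 θ hθ z hz hR))⟩

/-- bounds far up the line -/
def FarB (U : Set ℂ) (a R s : ℝ) (F : ℂ → ℂ → ℂ) : Prop :=
  ∃ C : ℝ, 0 ≤ C ∧ ∀ θ ∈ U, ∀ z : ℂ, z.re = a → R ≤ |z.im| → ‖F θ z‖ ≤ C * Real.exp (s * |z.im|)

theorem far_ub {s : ℝ} {F : ℂ → ℂ → ℂ} (h : UB U {a} s F) (R : ℝ) : FarB U a R s F := by
  obtain ⟨C, hC, h1⟩ := h
  exact ⟨C, hC, fun θ hθ z hz _ => h1 θ hθ z hz⟩

theorem FarB.mono {R R' s : ℝ} {F : ℂ → ℂ → ℂ} (h : FarB U a R s F) (hR : R ≤ R') : FarB U a R' s F := by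
  obtain ⟨C, hC, h1⟩ := h
  exact ⟨C, hC, fun θ hθ z hz hi => h1 θ hθ z hz (hR.trans hi)⟩

theorem FarB.mul {R s s' : ℝ} {F G : ℂ → ℂ → ℂ} (h : FarB U a R s F) (k : FarB U a R s' G) :
    FarB U a R (s + s') fun θ z => F θ z * G θ z := by
  obtain ⟨C, hC, h1⟩ := h
  obtain ⟨D, hD, h2⟩ := k
  refine ⟨C * D, mul_nonneg hC hD, fun θ hθ z hz hi => ?_⟩
  rw [norm_mul, add_mul, Real.exp_add]
  calc _ ≤ (C * Real.exp (s * |z.im|)) * (D * Real.exp (s' * |z.im|)) :=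
        mul_le_mul (h1 θ hθ z hz hi) (h2 θ hθ z hz hi) (norm_nonneg _) (by positivity)
    _ = _ := by ring

theorem FarB.rate {R s s' : ℝ} {F : ℂ → ℂ → ℂ} (h : FarB U a R s F) (hs : s ≤ s') : FarB U a R s' F := by
  obtain ⟨C, hC, h1⟩ := h
  refine ⟨C, hC, fun θ hθ z hz hi => (h1 θ hθ z hz hi).trans
    (mul_le_mul_of_nonneg_left (Real.exp_le_exp.2 ?_) hC)⟩
  exact mul_le_mul_of_nonneg_right hs (abs_nonneg _)

theorem FarB.sub {R s : ℝ} {F G : ℂ → ℂ → ℂ} (h : FarB U a R s F) (k : FarB U a R s G) :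
    FarB U a R s fun θ z => F θ z - G θ z := by
  obtain ⟨C, hC, h1⟩ := h
  obtain ⟨D, hD, h2⟩ := k
  refine ⟨C + D, add_nonneg hC hD, fun θ hθ z hz hi => ?_⟩
  rw [add_mul]
  exact (norm_sub_le _ _).trans (add_le_add (h1 θ hθ z hz hi) (h2 θ hθ z hz hi))

/-- **gluing** -/
theorem ub_glue {s R : ℝ} {F : ℂ → ℂ → ℂ} (h : LB U a F) (k : FarB U a R s F) : UB U {a} s F := by
  obtain ⟨C, hC, h1⟩ := h R
  obtain ⟨D, hD, h2⟩ := k
  refine ⟨C * Real.exp (|s| * |R|) + D, by positivity, fun θ hθ z hz => ?_⟩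
  rw [add_mul]
  have hE := Real.exp_pos (s * |z.im|)
  rcases le_total |z.im| R with h3 | h3
  · have h4 := h1 θ hθ z hz h3
    have h5 : 1 ≤ Real.exp (|s| * |R|) * Real.exp (s * |z.im|) := by
      rw [← Real.exp_add]
      refine Real.one_le_exp ?_
      have h6 : abs (s * |z.im|) ≤ |s| * |R| := by
        rw [abs_mul, abs_abs]
        exact mul_le_mul_of_nonneg_left (h3.trans (le_abs_self R)) (abs_nonneg _)
      have := (abs_le.1 h6).1
      linarith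
    calc ‖F θ z‖ ≤ C * 1 := by rw [mul_one]; exact h4
      _ ≤ C * (Real.exp (|s| * |R|) * Real.exp (s * |z.im|)) := mul_le_mul_of_nonneg_left h5 hC
      _ = C * Real.exp (|s| * |R|) * Real.exp (s * |z.im|) := by ring
      _ ≤ _ := le_add_of_nonneg_right (by positivity)
  · exact (h2 θ hθ z hz h3).trans (le_add_of_nonneg_left (by positivity))

/-! ### the strings T -/

theorem kT2 : -(1 / 2 * l) ∈ K2T := by
  have hl := Bd.l_pos
  constructor <;> linarith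

theorem lnO_T : LnO (-(3 / 2 * l)) := by
  have hl := Bd.l_pos
  right
  constructor <;> linarith

section tt

variable {w : ℂ → ℂ}

theorem FP.qs1 (h : FP (-l) U w) {β : ℝ} (hβ : 0 < β) (hβ' : β ≤ 4 / 3) :
    UB U {-(1 / 2 * l)} (-1) fun θ z => qs β (z - w θ) := by
  have hl := Bd.l_pos
  refine h.ub (f := qs β) fun a0 b0 h1 h2 => bdd_qs hβ isCompact_Icc (fun d hd => ?_) fun d hd => ?_
  · obtain ⟨h3, h4⟩ := hd
    exact NQ_strip hβ hβ' (by linarith) (by linarith)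
  · obtain ⟨h3, h4⟩ := hd
    rcases lt_trichotomy d 0 with h5 | h5 | h5
    · exact Or.inr (sin_ne_neg h5 (by linarith))
    · exact Or.inl h5
    · exact Or.inr (sin_ne_pos h5 (by linarith))

theorem FP.qs2 (h : FP (-l) U w) {β : ℝ} (hβ : 0 < β) (hβ' : β ≤ 4 / 3) :
    UB U {-(1 / 2 * l)} (-1) fun θ z => -qs β (-(z - w θ)) := by
  have hl := Bd.l_pos
  refine UB.neg (h.ub (f := fun z => qs β (-z)) fun a0 b0 h1 h2 => ?_)
  refine Bdd.neg' (bdd_qs (K := (fun x => -x) '' Set.Icc (-(1 / 2 * l) - b0) (-(1 / 2 * l) - a0)) hβ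
    (isCompact_Icc.image continuous_neg) ?_ ?_)
  · rintro _ ⟨d, ⟨h3, h4⟩, rfl⟩
    exact NQ_strip hβ hβ' (by dsimp only; linarith) (by dsimp only; linarith)
  · rintro _ ⟨d, ⟨h3, h4⟩, rfl⟩
    rcases lt_trichotomy (-d) 0 with h5 | h5 | h5
    · exact Or.inr (sin_ne_neg h5 (by linarith))
    · exact Or.inl h5
    · exact Or.inr (sin_ne_pos h5 (by linarith))

theorem FP.far (h : FP (-l) U w) (a : ℝ) : ∃ R, FarB U a R (-1) fun θ z => 1 / Complex.sin (z - w θ) := by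
  obtain ⟨a0, b0, ρ, h1, h2, h3⟩ := h.bx
  obtain ⟨C, R, hC, h4⟩ := Gr.inv_sin (α := a - a0) (β := a - b0) 0
  refine ⟨R + ρ, C * Real.exp ρ, by positivity, fun θ hθ z hz hi => ?_⟩
  obtain ⟨h5, h6, h7⟩ := h3 θ hθ
  have h8 := h4 (z - w θ) (by rw [sub_re, hz]; linarith) (by rw [sub_re, hz]; linarith) (by
    rw [sub_im]
    have := abs_sub_abs_le_abs_sub z.im (w θ).im
    linarith)
  simp only [sub_zero] at h8
  show ‖1 / Complex.sin (z - w θ)‖ ≤ _
  rw [one_div]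
  refine h8.trans ?_
  rw [mul_assoc, ← Real.exp_add]
  refine mul_le_mul_of_nonneg_left (Real.exp_le_exp.2 ?_) hC
  rw [sub_im]
  have := abs_sub_abs_le_abs_sub z.im (w θ).im
  linarith

theorem FP.sne (h : FP (-l) U w) : ∃ R : ℝ, ∀ θ ∈ U, ∀ z : ℂ, R ≤ |z.im| → Complex.sin (z - w θ) ≠ 0 := by
  obtain ⟨a0, b0, ρ, h1, h2, h3⟩ := h.bx
  refine ⟨ρ + 1, fun θ hθ z hz => NUP1.sin_ne_im ?_⟩
  rw [sub_im]
  intro h4
  have h5 := (h3 θ hθ).2.2
  rw [show z.im = (w θ).im by linarith] at hz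
  linarith

end tt

section fam

variable {x : ℂ → Fin m → ℂ} {y : ℂ → Fin M → ℂ}

theorem far_prod (hx : ∀ i, FP (-l) U fun θ => x θ i) (a : ℝ) :
    ∃ R, FarB U a R (-(m : ℝ)) (fun θ z => ∏ i, 1 / sin (z - x θ i)) ∧
      ∀ θ ∈ U, ∀ z : ℂ, R ≤ |z.im| → ∀ i, sin (z - x θ i) ≠ 0 := by
  induction m with
  | zero => exact ⟨0, ⟨1, zero_le_one, fun θ _ z _ _ => by simp⟩, fun _ _ _ _ i => i.elim0⟩
  | succ m ih =>
    obtain ⟨R1, h1, h2⟩ := ih (x := fun θ i => x θ i.succ) fun i => hx i.succ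
    obtain ⟨R2, h3⟩ := (hx 0).far a
    obtain ⟨R3, h4⟩ := (hx 0).sne
    refine ⟨max R1 (max R2 R3), ?_, fun θ hθ z hz i => ?_⟩
    · have h5 := ((h3.mono ((le_max_left R2 R3).trans (le_max_right R1 _))).mul
        (h1.mono (le_max_left R1 (max R2 R3)))).rate (s' := -((m + 1 : ℕ) : ℝ)) (le_of_eq (by push_cast; ring))
      obtain ⟨C, hC, h6⟩ := h5
      refine ⟨C, hC, fun θ hθ z hz hi => ?_⟩
      show ‖∏ i, 1 / sin (z - x θ i)‖ ≤ _
      rw [Fin.prod_univ_succ]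
      exact h6 θ hθ z hz hi
    · refine Fin.cases ?_ (fun i => ?_) i
      · exact h4 θ hθ z (((le_max_right R2 R3).trans (le_max_right R1 _)).trans hz)
      · exact h2 θ hθ z ((le_max_left R1 _).trans hz) i

theorem RRU_RgT (c : ℂ) (x : Fin m → ℂ) (y : Fin M → ℂ) (z : ℂ) :
    RRU c x y z = RgT c x y z * ∏ i, 1 / sin (z - x i) := by
  unfold Pool.Agent.PLX.RRU RgT
  ring

theorem ub_RgF (c : ℂ) (hx : ∀ i, FP (-l) U fun θ => x θ i) (hy : ∀ i, FP (-l) U fun θ => y θ i) :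
    UB U {-(1 / 2 * l)} (-(m : ℝ) + 2 * M) fun θ z => RgT c (x θ) (y θ) z := by
  have hl := Bd.l_pos
  have h2 : UB U {-(1 / 2 * l)} _ (fun θ z => ∏ i : Fin m, 1 / sin (z - x θ i + ((-(2 * l) : ℝ) : ℂ))) :=
    UB.prod Finset.univ fun i _ => (hx i).isin _ (-(2 * l)) fun d h1 h2 =>
      sin_ne_neg (by linarith) (by linarith)
  have h3 : UB U {-(1 / 2 * l)} _ (fun θ z => ∏ i : Fin M, sin (z - y θ i + ((3 * l : ℝ) : ℂ)) ^ 2) :=
    UB.prod Finset.univ fun i _ => ((hy i).sin _ (3 * l)).pow 2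
  have h4 := (((UB.const U {-(1 / 2 * l)} c).mul h2).mul h3).rate (s' := -(m : ℝ) + 2 * M) (by
    simp only [Finset.card_univ, Fintype.card_fin]
    push_cast
    ring)
  refine h4.congr fun θ _ z _ => ?_
  unfold RgT
  push_cast
  simp only [← sub_eq_add_neg]

/-- a family of cutoffs of the strings -/
structure CutO (U : Set ℂ) (x : ℂ → Fin m → ℂ) (g0 : ℂ → ℂ → ℂ) : Prop where
  ms : ∀ θ ∈ U, Measurable (g0 θ)
  df : ∀ θ ∈ U, ∀ z : ℂ, z.re ∈ KT → DifferentiableAt ℂ (fun θ => g0 θ z) θ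
  lb : ∀ a ∈ K2T, LB U a g0
  ub : ∀ a ∈ K2T, UB U {a} (-(2 * (4 / 3))) fun θ z => ph (4 / 3) (x θ) (g0 θ) z

theorem CutO.mono {U' : Set ℂ} {g0 : ℂ → ℂ → ℂ} (h : CutO U x g0) (hU : U' ⊆ U) : CutO U' x g0 := by
  refine ⟨fun θ hθ => h.ms θ (hU hθ), fun θ hθ => h.df θ (hU hθ), fun a ha R => ?_,
    fun a ha => (h.ub a ha).mono hU le_rfl⟩
  obtain ⟨C, hC, h1⟩ := h.lb a ha R
  exact ⟨C, hC, fun θ hθ => h1 θ (hU hθ)⟩

theorem nq_negF {β : ℝ} (hβ : 0 < β) (hβ' : β ≤ 4 / 3) {w : ℂ → ℂ} (h : FP (-l) U w) {θ z : ℂ} (hθ : θ ∈ U)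
    (hz : z.re = -(1 / 2 * l)) : NQ β (-(z - w θ)).re := by
  have hl := Bd.l_pos
  obtain ⟨h1, h2⟩ := h.re hθ
  refine NQ_strip hβ hβ' ?_ ?_ <;> rw [neg_re, sub_re, hz] <;> linarith

theorem sin_orF {w : ℂ → ℂ} (h : FP (-l) U w) {θ z : ℂ} (hθ : θ ∈ U)
    (hz : z.re = -(1 / 2 * l)) : z - w θ = 0 ∨ sin (z - w θ) ≠ 0 := by
  have hl := Bd.l_pos
  have hpi := Bd.pi_eq
  obtain ⟨h1, h2⟩ := h.re hθ
  by_cases h4 : z - w θ = 0
  · exact Or.inl h4
  · exact Or.inr (NUP1.sin_ne (by rw [sub_re, hz]; linarith) (by rw [sub_re, hz]; linarith) h4)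

/-- **the strings T**, uniform -/
theorem ub_TTF (c : ℂ) {β : ℝ} (hβ : 0 < β) (hβ' : β ≤ 4 / 3) (hx : ∀ i, FP (-l) U fun θ => x θ i)
    (hy : ∀ i, FP (-l) U fun θ => y θ i) {g g0 : ℂ → ℂ → ℂ} (hg : CutA U β g) (hg0 : CutO U x g0) :
    UB U {-(1 / 2 * l)} (-(2 * β) + 4 * ((M : ℝ) - m)) fun θ z =>
      TTT c β (4 / 3) (x θ) (y θ) (g θ) (g0 θ) z := by
  have hl := Bd.l_pos
  have kt : -(1 / 2 * l) ∈ KT := K2T_KT kT2
  have kt' := lnO_T.kt
  have sh : ∀ {s : ℝ} {F : ℂ → ℂ → ℂ}, UB U {-(3 / 2 * l)} s F → UB U {-(1 / 2 * l)} s fun θ z => F θ (z - l) :=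
    fun h => h.shift_l fun x hx => by
      rw [Set.mem_singleton_iff.1 hx, Set.mem_singleton_iff]
      ring
  have u1 := ub_RgF c hx hy
  have u2 := sh (ub_RRF c hx hy lnO_T)
  have u3 := ub_phF hβ hβ' hx hg kt
  have u4 := sh (ub_phF hβ hβ' hx hg kt')
  have u5 := hg0.ub _ kT2
  have q1 : ∀ {b : ℝ}, 0 < b → b ≤ 4 / 3 → UB U {-(1 / 2 * l)} (Finset.univ.card * (-1))
      (fun θ z => ∏ i : Fin m, qs b (z - x θ i)) := fun b0 b1 => UB.prod Finset.univ fun i _ => (hx i).qs1 b0 b1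
  have q2 : UB U {-(1 / 2 * l)} (Finset.univ.card * (-1))
      (fun θ z => ∏ i : Fin m, -qs β (-(z - x θ i))) := UB.prod Finset.univ fun i _ => (hx i).qs2 hβ hβ'
  obtain ⟨R, f1, f2⟩ := far_prod hx (-(1 / 2 * l))
  refine ub_glue (R := R) ?_ ?_
  · -- crude
    have g1 := sh (hg.b0 hβ kt')
    have c1 : LB U (-(1 / 2 * l)) fun θ z => AmT (4 / 3) (x θ) (g0 θ) z :=
      (lb_ub (q1 (by norm_num) le_rfl)).mul (hg0.lb _ kT2)
    have c2 : LB U (-(1 / 2 * l)) fun θ z => AmT β (x θ) (g θ) z :=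
      (lb_ub (q1 hβ hβ')).mul (lb_ub (hg.b0 hβ kt))
    have c3 : LB U (-(1 / 2 * l)) fun θ z => CmT β (x θ) (g θ) z := (lb_ub q2).mul (lb_ub g1)
    exact ((lb_ub u1).mul (lb_ub u2)).mul ((c1.sub c2).sub ((lb_ub u3).mul c3))
  · -- far
    have k1 : FarB U (-(1 / 2 * l)) R (2 * ((M : ℝ) - m)) fun θ z => RRU c (x θ) (y θ) z := by
      obtain ⟨C, hC, h⟩ := ((far_ub u1 R).mul f1).rate (s' := 2 * ((M : ℝ) - m)) (le_of_eq (by ring))
      refine ⟨C, hC, fun θ hθ z hz hi => ?_⟩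
      show ‖RRU c (x θ) (y θ) z‖ ≤ _
      rw [RRU_RgT]
      exact h θ hθ z hz hi
    have k2 : FarB U (-(1 / 2 * l)) R (-(2 * β)) fun θ z => ph β (x θ) (g θ) z * ph β (x θ) (g θ) (z - l) -
        ph (4 / 3) (x θ) (g0 θ) z :=
      (((far_ub u3 R).mul (far_ub u4 R)).rate (by linarith)).sub ((far_ub u5 R).rate (by linarith))
    obtain ⟨C, hC, h⟩ := ((k1.mul (far_ub u2 R)).mul k2).rate (s' := -(2 * β) + 4 * ((M : ℝ) - m))
      (le_of_eq (by ring))
    refine ⟨C, hC, fun θ hθ z hz hi => ?_⟩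
    have hK : z.re ∈ KT := by rw [hz]; exact kt
    show ‖TTT c β (4 / 3) (x θ) (y θ) (g θ) (g0 θ) z‖ ≤ _
    rw [TTT_eq (fun i => (hx i).nq le_rfl hβ hβ' hθ hK) (fun i => (hx i).nq le_rfl (by norm_num) le_rfl hθ hK)
      (fun i => nq_negF hβ hβ' (hx i) hθ hz) (f2 θ hθ z hi)]
    exact h θ hθ z hz hi

/-- the strings T, differentiable in the parameter -/
theorem diff_TTF (c : ℂ) {β : ℝ} (hβ : 0 < β) (hβ' : β ≤ 4 / 3) (hx : ∀ i, FP (-l) U fun θ => x θ i)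
    (hy : ∀ i, FP (-l) U fun θ => y θ i) {g g0 : ℂ → ℂ → ℂ} (hg : CutA U β g) (hg0 : CutO U x g0) {θ z : ℂ}
    (hθ : θ ∈ U) (hz : z.re = -(1 / 2 * l)) :
    DifferentiableAt ℂ (fun θ => TTT c β (4 / 3) (x θ) (y θ) (g θ) (g0 θ) z) θ := by
  have hl := Bd.l_pos
  have kt : z.re ∈ KT := by rw [hz]; exact K2T_KT kT2
  have hz' : (z - l).re = -(3 / 2 * l) := by
    rw [sub_re, hz, ofReal_re]
    ring
  have kt' : (z - l).re ∈ KT := by rw [hz']; exact lnO_T.kt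
  have d1 : DifferentiableAt ℂ (fun θ => RgT c (x θ) (y θ) z) θ := by
    unfold RgT
    refine ((differentiableAt_const c).mul ?_).mul ?_
    · refine DifferentiableAt.fun_finsetProd fun i _ => ?_
      have h0 : sin (z - x θ i - 2 * l) ≠ 0 := by
        refine Bd.sin_ne_zero_of_re ?_
        have e : (z - x θ i - 2 * l).re = z.re - (x θ i).re - 2 * l := by simp
        obtain ⟨h1, h2⟩ := (hx i).re hθ
        rw [e, hz]
        exact sin_ne_neg (by linarith) (by linarith)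
      exact (differentiableAt_const 1).div ((((hx i).df θ hθ).const_sub z).sub_const _).csin h0
    · exact DifferentiableAt.fun_finsetProd fun i _ =>
        ((((hy i).df θ hθ).const_sub z).add_const _).csin.pow 2
  have d2 : DifferentiableAt ℂ (fun θ => RRU c (x θ) (y θ) (z - l)) θ := diff_RRF' c hx hy lnO_T hθ hz'
  have dA : ∀ {b : ℝ} {k : ℂ → ℂ → ℂ}, 0 < b → b ≤ 4 / 3 → DifferentiableAt ℂ (fun θ => k θ z) θ →
      DifferentiableAt ℂ (fun θ => AmT b (x θ) (k θ) z) θ := by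
    intro b k b0 b1 hk
    unfold AmT
    exact (DifferentiableAt.fun_finsetProd fun i _ => DifferentiableAt.comp (g := qs b)
      (f := fun θ => z - x θ i) θ (differentiableAt_qs ((hx i).nq le_rfl b0 b1 hθ kt) (sin_orF (hx i) hθ hz))
        (((hx i).df θ hθ).const_sub z)).mul hk
  have dC : DifferentiableAt ℂ (fun θ => CmT β (x θ) (g θ) z) θ := by
    unfold CmT
    refine (DifferentiableAt.fun_finsetProd fun i _ => DifferentiableAt.neg (DifferentiableAt.comp (g := qs β)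
      (f := fun θ => -(z - x θ i)) θ (differentiableAt_qs (nq_negF hβ hβ' (hx i) hθ hz) ?_)
        (((hx i).df θ hθ).const_sub z).neg)).mul (hg.df θ hθ (z - l) kt')
    rcases sin_orF (hx i) hθ hz with h2 | h2
    · left
      rw [h2, neg_zero]
    · right
      rw [Complex.sin_neg]
      exact neg_ne_zero.2 h2
  have d3 := diff_phF hβ hβ' hx (hg.df θ hθ z kt) hθ kt
  unfold TTT
  exact (d1.mul d2).mul (((dA (by norm_num) le_rfl (hg0.df θ hθ z kt)).sub (dA hβ hβ' (hg.df θ hθ z kt))).sub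
    (d3.mul dC))

/-- the landed function -/
theorem TTU_TTF {c : ℂ} {β : ℝ} (hβ : 0 < β) (hβ' : β ≤ 4 / 3) (hx : ∀ i, FP (-l) U fun θ => x θ i)
    {g g0 : ℂ → ℂ} {θ z : ℂ} {y : Fin M → ℂ} (hθ : θ ∈ U) (hz : z.re = -(1 / 2 * l)) :
    TTU c β (4 / 3) (x θ) y g g0 z = TTT c β (4 / 3) (x θ) y g g0 z := by
  have kt : z.re ∈ KT := by rw [hz]; exact K2T_KT kT2
  refine TTU_TTT (fun i => (hx i).nq le_rfl hβ hβ' hθ kt) (fun i => (hx i).nq le_rfl (by norm_num) le_rfl hθ kt)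
    (fun i => nq_negF hβ hβ' (hx i) hθ hz) fun i hi => ?_
  rcases sin_orF (hx i) hθ hz with h2 | h2
  · exfalso
    apply hi
    have : (z - x θ i).re = 0 := by rw [h2, zero_re]
    rw [sub_re, hz] at this
    linarith
  · exact h2

end fam

/-! ### the cutoffs of the strings -/

section gO

variable {x : ℂ → Fin m → ℂ} {r : ℕ} {v : ℂ → Fin r → ℂ}

theorem pP_form (x : Fin m → ℂ) (v : Fin r → ℂ) (z : ℂ) : pP (List.ofFn x ++ List.ofFn v) z =
    (∏ i, psi (4 / 3) (z - x i)) * ∏ i, psi (4 / 3) (z - v i) := by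
  rw [PHK.pP_append, ← prod_gP]

theorem ub_pPF (hx : ∀ i, FP (-l) U fun θ => x θ i) (hv : ∀ i, FP (-l) U fun θ => v θ i) (ha : a ∈ KT) :
    UB U {a} (-(2 * (4 / 3))) (fun θ z => 1 - pP (List.ofFn (x θ) ++ List.ofFn (v θ)) z) ∧
      UB U {a} 0 (fun θ z => pP (List.ofFn (x θ) ++ List.ofFn (v θ)) z) := by
  obtain ⟨h1, h2⟩ := ub_prodF le_rfl (by norm_num : (0 : ℝ) < 4 / 3) le_rfl ha hx
  obtain ⟨h3, h4⟩ := ub_prodF le_rfl (by norm_num : (0 : ℝ) < 4 / 3) le_rfl ha hv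
  refine ⟨(h1.add ((h2.mul h3).rate (by ring))).congr fun θ _ z _ => ?_,
    ((h2.mul h4).rate (by ring)).congr fun θ _ z _ => ?_⟩
  · rw [pP_form]
    ring
  · rw [pP_form]

theorem diff_pPF (hx : ∀ i, FP (-l) U fun θ => x θ i) (hv : ∀ i, FP (-l) U fun θ => v θ i) {θ z : ℂ}
    (hθ : θ ∈ U) (hz : z.re ∈ KT) :
    DifferentiableAt ℂ (fun θ => pP (List.ofFn (x θ) ++ List.ofFn (v θ)) z) θ := by
  simp only [pP_form]
  exact (DifferentiableAt.fun_finsetProd fun i _ => (hx i).dpsi le_rfl (by norm_num) le_rfl hθ hz).mul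
    (DifferentiableAt.fun_finsetProd fun i _ => (hv i).dpsi le_rfl (by norm_num) le_rfl hθ hz)

theorem K2T_win {u : ℂ} (h : u.re ∈ K2T) : u.re ∈ K2P (-(29 / 20 * l)) := h

/-- **the cutoffs with the factor `om`** -/
theorem cutO_gO (T1 : ℝ) (hx : ∀ i, FP (-l) U fun θ => x θ i) (hv : ∀ i, FP (-l) U fun θ => v θ i) :
    CutO U x fun θ => gO T1 (List.ofFn (v θ)) (x θ) where
  ms θ hθ := meas_gOG T1 _ _
  df θ hθ z hz := by
    have d1 : DifferentiableAt ℂ (fun θ => gP (4 / 3) (List.ofFn (v θ)) z) θ := by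
      simp only [← prod_gP]
      exact DifferentiableAt.fun_finsetProd fun i _ => (hv i).dpsi le_rfl (by norm_num) le_rfl hθ hz
    have d2 := diff_pPF hx hv hθ hz
    have d3 := d2.const_mul (omA T1 z)
    have d5 : DifferentiableAt ℂ (fun θ => PHK.Ez (omA T1 z * pP (List.ofFn (x θ) ++ List.ofFn (v θ)) z)) θ :=
      DifferentiableAt.comp (g := PHK.Ez)
        (f := fun θ => omA T1 z * pP (List.ofFn (x θ) ++ List.ofFn (v θ)) z) θ (PHK.diff_Ez _) d3
    exact d1.mul ((d3.neg.cexp).add (d5.const_mul _))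
  lb a ha R := by
    have kt := K2T_KT ha
    obtain ⟨C1, hC1, h1⟩ := (ub_prodF le_rfl (by norm_num : (0 : ℝ) < 4 / 3) le_rfl kt hv).2
    obtain ⟨C2, hC2, h2⟩ := (ub_pPF hx hv kt).2
    simp only [zero_mul, Real.exp_zero, mul_one] at h1 h2
    obtain ⟨A, hA⟩ : ∃ A, A = 2 * Real.exp (11 / 2 * (R - T1)) := ⟨_, rfl⟩
    have hA0 : 0 ≤ A := by rw [hA]; positivity
    obtain ⟨E, hE⟩ := (isCompact_closedBall (0 : ℂ) (A * C2)).exists_bound_of_continuousOn
      (f := PHK.Ez) PHK.diff_Ez.continuous.continuousOn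
    refine ⟨C1 * (Real.exp (A * C2) + A * |E|), by positivity, fun θ hθ z hz hR => ?_⟩
    have hz' : z.re ∈ ({a} : Set ℝ) := hz
    have b1 := h1 θ hθ z hz'
    have b2 := h2 θ hθ z hz'
    have b3 : ‖omA T1 z‖ ≤ A := by
      refine (PHK.norm_omA_le T1 z).trans ?_
      rw [hA]
      refine mul_le_mul_of_nonneg_left (Real.exp_le_exp.2 ?_) (by norm_num)
      linarith
    have b4 : ‖omA T1 z * pP (List.ofFn (x θ) ++ List.ofFn (v θ)) z‖ ≤ A * C2 := by
      rw [norm_mul]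
      exact mul_le_mul b3 b2 (norm_nonneg _) hA0
    have b5 : ‖PHK.Ez (omA T1 z * pP (List.ofFn (x θ) ++ List.ofFn (v θ)) z)‖ ≤ |E| :=
      (hE _ (by rwa [mem_closedBall_zero_iff])).trans (le_abs_self E)
    unfold PHK.gO
    rw [norm_mul]
    refine mul_le_mul ?_ ?_ (norm_nonneg _) hC1
    · rw [← prod_gP]
      exact b1
    · refine (norm_add_le _ _).trans (add_le_add ?_ ?_)
      · refine (Complex.norm_exp_le_exp_norm _).trans (Real.exp_le_exp.2 ?_)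
        rw [norm_neg]
        exact b4
      · rw [norm_mul]
        exact mul_le_mul b3 b5 (norm_nonneg _) hA0
  ub a ha := by
    have kt := K2T_KT ha
    obtain ⟨u1, u2⟩ := ub_pPF hx hv kt
    -- the factor om is bounded
    have u3 : UB U {a} 0 fun θ z => om T1 (pP (List.ofFn (x θ) ++ List.ofFn (v θ))) z := by
      obtain ⟨C1, hC1, h1⟩ := u1
      obtain ⟨C2, hC2, h2⟩ := u2
      simp only [zero_mul, Real.exp_zero, mul_one] at h2
      refine ub_glue (R := 5 * C1) (fun R => ?_) ⟨1, zero_le_one, fun θ hθ z hz hi => ?_⟩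
      · refine ⟨Real.exp (2 * Real.exp (11 / 2 * (R - T1)) * C2), (Real.exp_pos _).le, fun θ hθ z hz hR => ?_⟩
        unfold PHK.om
        refine (Complex.norm_exp_le_exp_norm _).trans (Real.exp_le_exp.2 ?_)
        rw [norm_neg, norm_mul]
        calc ‖omA T1 z‖ * ‖pP (List.ofFn (x θ) ++ List.ofFn (v θ)) z‖ ≤
            2 * Real.exp (11 / 2 * (|z.im| - T1)) * C2 :=
              mul_le_mul (PHK.norm_omA_le T1 z) (h2 θ hθ z hz) (norm_nonneg _) (by positivity)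
          _ ≤ _ := by
              refine mul_le_mul_of_nonneg_right ?_ hC2
              refine mul_le_mul_of_nonneg_left (Real.exp_le_exp.2 ?_) (by norm_num)
              linarith
      · have h3 : ‖pP (List.ofFn (x θ) ++ List.ofFn (v θ)) z - 1‖ ≤ 1 / 5 := by
          have h4 := h1 θ hθ z hz
          rw [norm_sub_rev]
          refine h4.trans ?_
          have h5 : 1 + 5 * C1 ≤ Real.exp (2 * (4 / 3) * |z.im|) := by
            have := Real.add_one_le_exp (2 * (4 / 3) * |z.im|)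
            nlinarith [abs_nonneg z.im]
          have h6 : Real.exp (-(2 * (4 / 3)) * |z.im|) = (Real.exp (2 * (4 / 3) * |z.im|))⁻¹ := by
            rw [← Real.exp_neg]
            congr 1
            ring
          rw [h6, ← div_eq_mul_inv, div_le_iff₀ (Real.exp_pos _)]
          linarith
        have hz' : z.re ∈ K2P (-(29 / 20 * l)) := by rw [hz]; exact ha
        have h7 := PHK.norm_om_vac (T1 := T1) (P := pP (List.ofFn (x θ) ++ List.ofFn (v θ)))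
          (PHK.range_win hz'.1 hz'.2) h3
        rw [zero_mul, Real.exp_zero, one_mul]
        refine h7.trans ?_
        rw [Real.exp_le_one_iff]
        have := Real.exp_pos (11 / 2 * (|z.im| - T1))
        linarith
    refine ((u1.mul u3).rate (by ring)).congr fun θ _ z _ => ?_
    rw [PHK.ph_gO]
    unfold PHK.phO
    rw [PHK.phi_pP]

end gO

/-! ### the ends -/

section ends

variable {p q : ℂ → ℂ}

theorem thE_form (p q z : ℂ) : thE p p q q z = sin (z - p + 3 * l) * sin (z - q + 3 * l) *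
    (1 / sin (z - p - 2 * l)) * (1 / sin (z - q - 2 * l)) := by
  unfold NUP1.Leg.thE
  rw [show p - z + 2 * l = -(z - p - 2 * l) by ring, show q - z + 2 * l = -(z - q - 2 * l) by ring,
    Complex.sin_neg, Complex.sin_neg, neg_mul_neg, div_eq_mul_inv, mul_inv]
  ring

theorem ub_thF (hp : FP (-(l / 2)) U p) (hq : FP (-(l / 2)) U q) (ha : a ∈ KT) :
    UB U {a} 0 fun θ z => thE (p θ) (p θ) (q θ) (q θ) z := by
  have hl := Bd.l_pos
  obtain ⟨a1, a2⟩ := ha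
  have s1 := (hp.sin a (3 * l)).mul (hq.sin a (3 * l))
  have s2 := hp.isin a (-(2 * l)) fun d h1 h2 => sin_ne_neg (by linarith) (by linarith)
  have s3 := hq.isin a (-(2 * l)) fun d h1 h2 => sin_ne_neg (by linarith) (by linarith)
  refine (((s1.mul s2).mul s3).rate (by norm_num)).congr fun θ _ z _ => ?_
  rw [thE_form]
  push_cast
  simp only [← sub_eq_add_neg]

theorem diff_thF (hp : FP (-(l / 2)) U p) (hq : FP (-(l / 2)) U q) {θ z : ℂ} (hθ : θ ∈ U) (hz : z.re ∈ KT) :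
    DifferentiableAt ℂ (fun θ => thE (p θ) (p θ) (q θ) (q θ) z) θ := by
  have hl := Bd.l_pos
  obtain ⟨a1, a2⟩ := hz
  have key : ∀ {w : ℂ → ℂ}, FP (-(l / 2)) U w → sin (z - w θ - 2 * l) ≠ 0 := by
    intro w hw
    refine Bd.sin_ne_zero_of_re ?_
    have e : (z - w θ - 2 * l).re = z.re - (w θ).re - 2 * l := by simp
    obtain ⟨h1, h2⟩ := hw.re hθ
    rw [e]
    exact sin_ne_neg (by linarith) (by linarith)
  simp only [thE_form]
  refine ((((((hp.df θ hθ).const_sub z).add_const _).csin).mul (((hq.df θ hθ).const_sub z).add_const _).csin).mul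
    ((differentiableAt_const 1).div ((((hp.df θ hθ).const_sub z).sub_const _).csin) (key hp))).mul
    ((differentiableAt_const 1).div ((((hq.df θ hθ).const_sub z).sub_const _).csin) (key hq))

end ends

end PLTX

end
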