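import Pool.Agent.PLT.AnV
import Pool.Agent.PLT.UbT

/-!
# `RU.fin` is analytic in a parameter

Families of data with rows in the strip `-l < Re < 51/100 l`, ends in `-l/2 < Re < 51/100 l`.

* `FamRU U x y p q g g' g0 g0'` : the family; `clsH_RU` : the classes;
* **`fin_hol`** : `θ ↦ RU.fin (DF θ) P n n'` is differentiable at the centre of a ball;
* **`fin_diff`** : the same for rows, ends, cutoff points which are differentiable near `θ0` and in the strips at `θ0`.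
-/

set_option autoImplicit false
set_option linter.unusedSectionVars false
set_option linter.unusedVariables false

noncomputable section

open Complex MeasureTheory Metric Filter Topology
open scoped Classical

namespace PLTX

open NUP1 NUP1S NUP1.Bd NURow
open NUP1.Leg (hr thE hE)
open NUP1.N (prc pr1 rA rB)
open PBX (Rws ph GOk gP measurable_ph thS measurable_thE measurable_thS)
open Pool.Agent.PLX

variable {m M : ℕ} {U : Set ℂ}

theorem LnH1.of_ub {a κ : ℝ} {f : ℂ → ℂ → ℂ} (hm : ∀ θ ∈ U, Measurable (f θ))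
    (hd : ∀ θ ∈ U, ∀ z : ℂ, z.re = a → DifferentiableAt ℂ (fun θ => f θ z) θ) (h : UB U {a} (-κ) f) :
    LnH1 U {a} κ f := by
  obtain ⟨C, hC, h1⟩ := h
  refine ⟨hm, fun θ hθ z hz => hd θ hθ z hz, C, fun θ hθ z hz => ?_⟩
  have := h1 θ hθ z hz
  rwa [neg_mul] at this

theorem LnH1.union {K K' : Set ℝ} {κ : ℝ} {f : ℂ → ℂ → ℂ} (h : LnH1 U K κ f) (h' : LnH1 U K' κ f) :
    LnH1 U (K ∪ K') κ f := by
  obtain ⟨D, hD⟩ := h.bd
  obtain ⟨D', hD'⟩ := h'.bd
  refine ⟨h.ms, fun θ hθ z hz => ?_, |D| + |D'|, fun θ hθ z hz => ?_⟩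
  · rcases hz with hz | hz
    · exact h.df θ hθ z hz
    · exact h'.df θ hθ z hz
  · rw [add_mul]
    have hE := (Real.exp_pos (-(κ * |z.im|))).le
    rcases hz with hz | hz
    · refine ((hD θ hθ z hz).trans (mul_le_mul_of_nonneg_right (le_abs_self D) hE)).trans
        (le_add_of_nonneg_right (mul_nonneg (abs_nonneg _) hE))
    · refine ((hD' θ hθ z hz).trans (mul_le_mul_of_nonneg_right (le_abs_self D') hE)).trans
        (le_add_of_nonneg_left (mul_nonneg (abs_nonneg _) hE))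

section data

variable {c c' : ℂ} {β : ℝ} {x : ℂ → Fin m → ℂ} {y : ℂ → Fin M → ℂ} {p q : ℂ → ℂ} {g g' g0 g0' : ℂ → ℂ → ℂ}

/-- the data -/
abbrev DF (c c' : ℂ) (β : ℝ) (x : ℂ → Fin m → ℂ) (y : ℂ → Fin M → ℂ) (p q : ℂ → ℂ) (g g' g0 g0' : ℂ → ℂ → ℂ)
    (θ : ℂ) : RU m M := ⟨c, c', β, x θ, y θ, p θ, q θ, g θ, g' θ, g0 θ, g0' θ⟩

/-- **admissible families of data** -/
structure FamRU (U : Set ℂ) (β : ℝ) (x : ℂ → Fin m → ℂ) (y : ℂ → Fin M → ℂ) (p q : ℂ → ℂ)
    (g g' g0 g0' : ℂ → ℂ → ℂ) : Prop where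
  b0 : 1 / 2 ≤ β
  b1 : β ≤ 4 / 3
  hx : ∀ i, FP (-l) U fun θ => x θ i
  hy : ∀ i, FP (-l) U fun θ => y θ i
  hp : FP (-(l / 2)) U p
  hq : FP (-(l / 2)) U q
  hg : CutA U β g
  hg' : CutA U β g'
  hg0 : CutO U x g0
  hg0' : CutO U y g0'

theorem FamRU.sw (H : FamRU U β x y p q g g' g0 g0') : FamRU U β y x q p g' g g0' g0 :=
  ⟨H.b0, H.b1, H.hy, H.hx, H.hq, H.hp, H.hg', H.hg, H.hg0', H.hg0⟩

/-- the lines of (P) -/
theorem lnO_of_mem {P : PHK.Par6} (hP : InV P) {k : Option O3} (hk : k = none ∨ k = some .L ∨ k = some .S) {a : ℝ}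
    (ha : a ∈ KP6 P k) : LnO a := by
  have hl := Bd.l_pos
  have h1 := hP.mem k ha
  rcases hk with rfl | rfl | rfl
  · exact Or.inl (Set.mem_singleton_iff.1 ha)
  · obtain ⟨h2, h3⟩ := h1
    simp only [PHK.loV, PHK.hiV] at h2 h3
    right
    constructor <;> linarith
  · obtain ⟨h2, h3⟩ := h1
    simp only [PHK.loV, PHK.hiV] at h2 h3
    right
    constructor <;> linarith

theorem lnO_shift {a : ℝ} (h1 : -(29 / 20 * l) ≤ a) (h2 : a ≤ -l) : LnO (a - l) := by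
  have hl := Bd.l_pos
  right
  constructor <;> linarith

theorem ub_sh {a s : ℝ} {F : ℂ → ℂ → ℂ} (h : UB U {a - l} s F) : UB U {a} s fun θ z => F θ (z - l) :=
  h.shift_l fun x hx => by
    rw [Set.mem_singleton_iff.1 hx]
    rfl

section one

variable (H : FamRU U β x y p q g g' g0 g0')

include H

theorem FamRU.bpos : 0 < β := lt_of_lt_of_le (by norm_num) H.b0

theorem FamRU.measX (θ : ℂ) (hθ : θ ∈ U) (k : Option O3) :
    Measurable ((DF c c' β x y p q g g' g0 g0' θ).X k) :=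
  measurable_XXU (H.hg.ms θ hθ) (H.hg0.ms θ hθ) (measurable_thE _ _ _ _) (measurable_thS _ _ _ _) k

/-- the quanta and `L` -/
theorem FamRU.lnA {a : ℝ} (ha : LnO a) : LnH1 U {a} (2 * β - 2 * ((M : ℝ) - m))
    fun θ => (DF c c' β x y p q g g' g0 g0' θ).X none := by
  refine LnH1.of_ub (fun θ hθ => H.measX θ hθ none) (fun θ hθ z hz => ?_) ?_
  · have kt : z.re ∈ KT := by rw [hz]; exact ha.kt
    exact ((diff_RRF' c H.hx H.hy ha hθ hz).mul (diff_phF H.bpos H.b1 H.hx (H.hg.df θ hθ z kt) hθ kt)).mul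
      (diff_thF H.hp H.hq hθ kt)
  · exact (((ub_RRF c H.hx H.hy ha).mul (ub_phF H.bpos H.b1 H.hx H.hg ha.kt)).mul
      (ub_thF H.hp H.hq ha.kt)).rate (by ring)

/-- the strings S -/
theorem FamRU.lnS {a : ℝ} (h1 : -(29 / 20 * l) ≤ a) (h2 : a ≤ -l) : LnH1 U {a} (2 * (4 / 3) - 4 * ((M : ℝ) - m))
    fun θ => (DF c c' β x y p q g g' g0 g0' θ).X (some .S) := by
  have hl := Bd.l_pos
  have ha : LnO a := Or.inr ⟨by linarith, h2⟩
  have ha' := lnO_shift h1 h2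
  have k2 : a ∈ K2T := ⟨h1, by linarith⟩
  refine LnH1.of_ub (fun θ hθ => H.measX θ hθ _) (fun θ hθ z hz => ?_) ?_
  · have kt : z.re ∈ KT := by rw [hz]; exact ha.kt
    have hz' : (z - l).re = a - l := by rw [sub_re, hz, ofReal_re]
    have kt' : (z - l).re ∈ KT := by rw [hz']; exact ha'.kt
    exact (((diff_RRF' c H.hx H.hy ha hθ hz).mul (diff_RRF' c H.hx H.hy ha' hθ hz')).mul
      (diff_phF (by norm_num) le_rfl H.hx (H.hg0.df θ hθ z kt) hθ kt)).mul
      ((diff_thF H.hp H.hq hθ kt).mul (diff_thF H.hp H.hq hθ kt'))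
  · exact ((((ub_RRF c H.hx H.hy ha).mul (ub_sh (ub_RRF c H.hx H.hy ha'))).mul (H.hg0.ub a k2)).mul
      ((ub_thF H.hp H.hq ha.kt).mul (ub_sh (ub_thF H.hp H.hq ha'.kt)))).rate (by ring)

/-- the strings T -/
theorem FamRU.lnT (hU : IsOpen U) : LnH1 U {-(1 / 2 * l)} (2 * β - 4 * ((M : ℝ) - m))
    fun θ => (DF c c' β x y p q g g' g0 g0' θ).X (some .T) := by
  have hl := Bd.l_pos
  have kt : -(1 / 2 * l) ∈ KT := K2T_KT kT2
  have hh : -(1 / 2 * l) - l = -(3 / 2 * l) := by ring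
  have h1 : LnH1 U {-(1 / 2 * l)} (2 * β - 4 * ((M : ℝ) - m)) fun θ z =>
      TTT c β (4 / 3) (x θ) (y θ) (g θ) (g0 θ) z * thS (p θ) (p θ) (q θ) (q θ) z := by
    refine LnH1.of_ub (fun θ hθ => (measurable_TTT (y := y θ) c β (4 / 3) (x θ) (H.hg.ms θ hθ)
      (H.hg0.ms θ hθ)).mul (measurable_thS _ _ _ _)) (fun θ hθ z hz => ?_) ?_
    · have kt1 : z.re ∈ KT := by rw [hz]; exact kt
      have kt2 : (z - l).re ∈ KT := by
        rw [sub_re, hz, ofReal_re, hh]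
        exact lnO_T.kt
      exact (diff_TTF c H.bpos H.b1 H.hx H.hy H.hg H.hg0 hθ hz).mul
        ((diff_thF H.hp H.hq hθ kt1).mul (diff_thF H.hp H.hq hθ kt2))
    · exact ((ub_TTF c H.bpos H.b1 H.hx H.hy H.hg H.hg0).mul ((ub_thF H.hp H.hq kt).mul
        (ub_sh (ub_thF H.hp H.hq (by rw [hh]; exact lnO_T.kt))))).rate (by ring)
  refine h1.congr hU (fun θ hθ => H.measX θ hθ _) fun θ hθ z hz => ?_
  show TTU c β (4 / 3) (x θ) (y θ) (g θ) (g0 θ) z * thS (p θ) (p θ) (q θ) (q θ) z = _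
  rw [TTU_TTF H.bpos H.b1 H.hx hθ hz]

/-- **one species on the lines of `P`** -/
theorem FamRU.fam1 (hU : IsOpen U) {P : PHK.Par6} (hP : InV P) (k : Option O3) :
    LnH1 U (KP6 P k) (1 + 2 * ((m : ℝ) - M) * sc4 true k) fun θ => (DF c c' β x y p q g g' g0 g0' θ).X k := by
  have hb := H.b0
  rcases k with _ | (_ | _ | _)
  · refine (H.lnA (lnO_of_mem hP (Or.inl rfl) rfl)).rate ?_
    simp only [sc4, sc, ob4, ob3, chg, Option.elim]
    norm_num
    linarith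
  · refine (H.lnA (lnO_of_mem hP (Or.inr (Or.inl rfl)) rfl)).rate ?_
    simp only [sc4, sc, ob4, ob3, chg, Option.elim]
    norm_num
    linarith
  · have hl := Bd.l_pos
    obtain ⟨h1, h2⟩ := hP.mem (some .S) (x := -((1 + P.e) * l)) rfl
    simp only [PHK.loV, PHK.hiV] at h1 h2
    refine (H.lnS (a := -((1 + P.e) * l)) (by linarith) (by linarith)).rate ?_
    simp only [sc4, sc, ob4, ob3, chg, Option.elim]
    norm_num
    linarith
  · refine (H.lnT hU).rate ?_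
    simp only [sc4, sc, ob4, ob3, chg, Option.elim]
    norm_num
    linarith

end one

/-! ### the half quanta -/

/-- lines of the half quanta -/
structure LnK (a : ℝ) : Prop where
  e1 : ∀ d : ℝ, a - 51 / 100 * l < d → d < a - -(l / 2) → Real.sin d ≠ 0
  e2 : ∀ d : ℝ, a - 51 / 100 * l < d → d < a - -(l / 2) → Real.sin (d - 2 * l) ≠ 0
  r : ∀ d : ℝ, a - 51 / 100 * l < d → d < a - -l → Real.sin d ≠ 0

theorem lnK_A {a : ℝ} (h1 : 5 / 8 * l ≤ a) (h2 : a ≤ 5 / 4 * l) : LnK a := by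
  have hl := Bd.l_pos
  exact ⟨fun d h3 h4 => sin_ne_pos (by linarith) (by linarith), fun d h3 h4 => sin_ne_neg (by linarith) (by linarith),
    fun d h3 h4 => sin_ne_pos (by linarith) (by linarith)⟩

theorem lnK_B : LnK (-(11 / 4) * l) := by
  have hl := Bd.l_pos
  exact ⟨fun d h3 h4 => sin_ne_neg (by linarith) (by linarith), fun d h3 h4 => sin_ne_neg (by linarith) (by linarith),
    fun d h3 h4 => sin_ne_neg (by linarith) (by linarith)⟩

theorem prc_form (p q : ℂ) (x : Fin m → ℂ) (w : ℂ) : prc p q x w =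
    sin (2 * l) * (1 / sin (w - p + ((0 : ℝ) : ℂ))) * (1 / sin (w - p + ((-(2 * l) : ℝ) : ℂ))) *
      sin (w - q + ((3 * l : ℝ) : ℂ)) * ∏ i, 1 / sin (w - x i + ((0 : ℝ) : ℂ)) := by
  unfold NUP1.N.prc NUP1.N.rA NUP1.Leg.kap
  push_cast
  simp only [add_zero, ← sub_eq_add_neg]
  rw [div_eq_mul_inv, mul_inv]
  ring

/-- the half quantum without the rows of the other species -/
theorem ub_prcF {a : ℝ} (ha : LnK a) (hx : ∀ i, FP (-l) U fun θ => x θ i) (hp : FP (-(l / 2)) U p)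
    (hq : FP (-(l / 2)) U q) : UB U {a} (-1 - m) fun θ w => prc (p θ) (q θ) (x θ) w := by
  have h1 := hp.isin a 0 fun d h1 h2 => by rw [add_zero]; exact ha.e1 d h1 h2
  have h2 := hp.isin a (-(2 * l)) fun d h1 h2 => by rw [← sub_eq_add_neg]; exact ha.e2 d h1 h2
  have h3 := hq.sin a (3 * l)
  have h4 : UB U {a} _ (fun θ z => ∏ i : Fin m, 1 / sin (z - x θ i + ((0 : ℝ) : ℂ))) :=
    UB.prod Finset.univ fun i _ => (hx i).isin a 0 fun d h1 h2 => by
      rw [add_zero]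
      exact ha.r d h1 h2
  refine ((((((UB.const U {a} (sin (2 * l))).mul h1).mul h2).mul h3).mul h4).rate (by
    simp only [Finset.card_univ, Fintype.card_fin]
    ring)).congr fun θ _ z _ => prc_form _ _ _ _

theorem sin_ne_F {w : ℂ → ℂ} {θ z : ℂ} {t : ℝ} (h : Real.sin (z.re - (w θ).re + t) ≠ 0) :
    sin (z - w θ + (t : ℂ)) ≠ 0 := Bd.sin_ne_zero_of_re (by
  rw [add_re, sub_re, ofReal_re]
  exact h)

theorem diff_isin {w : ℂ → ℂ} {θ z : ℂ} {t : ℝ} (hw : DifferentiableAt ℂ w θ)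
    (h : Real.sin (z.re - (w θ).re + t) ≠ 0) : DifferentiableAt ℂ (fun θ => 1 / sin (z - w θ + (t : ℂ))) θ :=
  (differentiableAt_const 1).div ((hw.const_sub z).add_const _).csin (sin_ne_F h)

theorem diff_sinF {w : ℂ → ℂ} {θ z : ℂ} (t : ℝ) (hw : DifferentiableAt ℂ w θ) :
    DifferentiableAt ℂ (fun θ => sin (z - w θ + (t : ℂ))) θ := ((hw.const_sub z).add_const _).csin

theorem diff_prcF {a : ℝ} (ha : LnK a) (hx : ∀ i, FP (-l) U fun θ => x θ i) (hp : FP (-(l / 2)) U p)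
    (hq : FP (-(l / 2)) U q) {θ z : ℂ} (hθ : θ ∈ U) (hz : z.re = a) :
    DifferentiableAt ℂ (fun θ => prc (p θ) (q θ) (x θ) z) θ := by
  obtain ⟨p1, p2⟩ := hp.re hθ
  simp only [prc_form]
  refine (((((differentiableAt_const _).mul (diff_isin (hp.df θ hθ) ?_)).mul (diff_isin (hp.df θ hθ) ?_)).mul
    (diff_sinF _ (hq.df θ hθ)))).mul (DifferentiableAt.fun_finsetProd fun i _ => diff_isin ((hx i).df θ hθ) ?_)
  · rw [hz, add_zero]
    exact ha.e1 _ (by linarith) (by linarith)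
  · rw [hz, ← sub_eq_add_neg]
    exact ha.e2 _ (by linarith) (by linarith)
  · obtain ⟨x1, x2⟩ := (hx i).re hθ
    rw [hz, add_zero]
    exact ha.r _ (by linarith) (by linarith)

theorem measurable_prc (p q : ℂ) (x : Fin m → ℂ) : Measurable (prc p q x) := by
  have h1 := PBX.measurable_rA x
  unfold NUP1.N.prc Leg.kap
  fun_prop

/-- **the half quantum with all rows** -/
theorem ub_pr1F {a : ℝ} (ha : LnK a) (hx : ∀ i, FP (-l) U fun θ => x θ i) (hy : ∀ i, FP (-l) U fun θ => y θ i)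
    (hp : FP (-(l / 2)) U p) (hq : FP (-(l / 2)) U q) :
    LnH1 U {a} (1 + ((m : ℝ) - M)) fun θ => pr1 (p θ) (q θ) (x θ) (y θ) := by
  refine LnH1.of_ub (fun θ hθ => measurable_pr1U _ _ _ _) (fun θ hθ z hz => ?_) ?_
  · unfold NUP1.N.pr1
    refine (diff_prcF ha hx hp hq hθ hz).mul ?_
    unfold NUP1.N.rB
    exact DifferentiableAt.fun_finsetProd fun i _ => ((((hy i).df θ hθ).const_sub z).add_const _).csin
  · have h4 : UB U {a} _ (fun θ z => ∏ i : Fin M, sin (z - y θ i + ((3 * l : ℝ) : ℂ))) :=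
      UB.prod Finset.univ fun i _ => (hy i).sin a (3 * l)
    refine (((ub_prcF ha hx hp hq).mul h4).rate (by
      simp only [Finset.card_univ, Fintype.card_fin]
      ring)).congr fun θ _ z _ => ?_
    unfold NUP1.N.pr1 NUP1.N.rB
    push_cast
    rfl

/-- one body function of the other species on `l / 4` -/
theorem ub_hXF (c : ℂ) {β : ℝ} (hβ : 0 < β) (hβ' : β ≤ 4 / 3) (hx : ∀ i, FP (-l) U fun θ => x θ i)
    (hy : ∀ i, FP (-l) U fun θ => y θ i) (hp : FP (-(l / 2)) U p) (hq : FP (-(l / 2)) U q) (hg : CutA U β g) :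
    UB U {l / 4} (-(2 * β) - m + 2 * M) (fun θ u => hE c (p θ) (p θ) (q θ) (q θ) (x θ) (y θ) u *
      ph β (x θ) (g θ) u) ∧ ∀ θ ∈ U, ∀ z : ℂ, z.re = l / 4 → DifferentiableAt ℂ (fun θ =>
        hE c (p θ) (p θ) (q θ) (q θ) (x θ) (y θ) z * ph β (x θ) (g θ) z) θ := by
  have hl := Bd.l_pos
  have kt : l / 4 ∈ KT := by constructor <;> linarith
  have h2 : UB U {l / 4} _ (fun θ z => ∏ i : Fin m, 1 / sin (z - x θ i + ((-(2 * l) : ℝ) : ℂ))) :=
    UB.prod Finset.univ fun i _ => (hx i).isin _ (-(2 * l)) fun d h1 h2 =>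
      sin_ne_neg (by linarith) (by linarith)
  have h3 : UB U {l / 4} _ (fun θ z => ∏ i : Fin M, sin (z - y θ i + ((3 * l : ℝ) : ℂ)) ^ 2) :=
    UB.prod Finset.univ fun i _ => ((hy i).sin _ (3 * l)).pow 2
  refine ⟨?_, fun θ hθ z hz => ?_⟩
  · refine ((((((UB.const U {l / 4} c).mul h2).mul h3).mul (ub_thF hp hq kt)).mul
      (ub_phF hβ hβ' hx hg kt)).rate (by
        simp only [Finset.card_univ, Fintype.card_fin]
        push_cast
        ring)).congr fun θ _ z _ => ?_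
    unfold NUP1.Leg.hE NUP1.Leg.hr
    push_cast
    simp only [← sub_eq_add_neg]
  · have kz : z.re ∈ KT := by rw [hz]; exact kt
    unfold NUP1.Leg.hE NUP1.Leg.hr
    refine ((((differentiableAt_const c).mul ?_).mul ?_).mul (diff_thF hp hq hθ kz)).mul
      (diff_phF hβ hβ' hx (hg.df θ hθ z kz) hθ kz)
    · refine DifferentiableAt.fun_finsetProd fun i _ => ?_
      have h0 : sin (z - x θ i - 2 * l) ≠ 0 := by
        refine Bd.sin_ne_zero_of_re ?_
        have e : (z - x θ i - 2 * l).re = z.re - (x θ i).re - 2 * l := by simp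
        obtain ⟨h1, h2⟩ := (hx i).re hθ
        rw [e, hz]
        exact sin_ne_neg (by linarith) (by linarith)
      exact (differentiableAt_const 1).div ((((hx i).df θ hθ).const_sub z).sub_const _).csin h0
    · exact DifferentiableAt.fun_finsetProd fun i _ =>
        ((((hy i).df θ hθ).const_sub z).add_const _).csin.pow 2

section one

variable (H : FamRU U β x y p q g g' g0 g0')

include H

/-- **the half quantum with a captured quantum** -/
theorem FamRU.lnR : LnH1 U {-(11 / 4) * l} (1 + 2 * β - ((m : ℝ) - M))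
    fun θ => (DF c c' β x y p q g g' g0 g0' θ).KR := by
  have hl := Bd.l_pos
  obtain ⟨u1, u2⟩ := ub_hXF c' H.bpos H.b1 H.hy H.hx H.hq H.hp H.hg'
  have em : ∀ θ ∈ U, Measurable (fun u => hE c' (q θ) (q θ) (p θ) (p θ) (y θ) (x θ) u * ph β (y θ) (g' θ) u) := by
    intro θ hθ
    have a1 := measurable_ph β (y θ) (H.hg'.ms θ hθ)
    have a2 := measurable_thE (q θ) (q θ) (p θ) (p θ)
    unfold NUP1.Leg.hE NUP1.Leg.hr
    fun_prop
  have e3 : ∀ z : ℂ, (z + 3 * (l : ℂ)).re = z.re + 3 * l := fun z => by simp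
  refine LnH1.of_ub (fun θ hθ => ?_) (fun θ hθ z hz => ?_) ?_
  · exact ((measurable_prc _ _ _).mul ((em θ hθ).comp (measurable_id.add_const (3 * l : ℂ)))).const_mul _
  · exact ((diff_prcF lnK_B H.hx H.hp H.hq hθ hz).mul (u2 θ hθ (z + 3 * l) (by rw [e3, hz]; ring))).const_mul _
  · have h1 := u1.shift (K := {-(11 / 4) * l}) (3 * l) fun x hx => by
      rw [Set.mem_singleton_iff.1 hx, Set.mem_singleton_iff]
      ring
    refine (((UB.const U {-(11 / 4) * l} (sin l / sin (2 * l))).mul ((ub_prcF lnK_B H.hx H.hp H.hq).mul h1)).rate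
      (by ring)).congr fun θ _ z _ => ?_
    show sin l / sin (2 * l) * (prc (p θ) (q θ) (x θ) z * (hE c' (q θ) (q θ) (p θ) (p θ) (y θ) (x θ) (z + 3 * l) *
      ph β (y θ) (g' θ) (z + 3 * l))) = _
    push_cast
    ring

/-- **the captured pair** -/
theorem FamRU.lnD : LnH1 U {-(11 / 4) * l} 2 fun θ => (DF c c' β x y p q g g' g0 g0' θ).XD := by
  have hl := Bd.l_pos
  have form : ∀ (p q : ℂ) (y : Fin M → ℂ) (w : ℂ), NUP1.N.XD p q y w = -sin (2 * l) ^ 2 *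
      (1 / sin (w - p + ((l : ℝ) : ℂ))) * (1 / sin (w - q + ((0 : ℝ) : ℂ))) *
        ∏ j, (-1 * sin (w - y j + ((-(2 * l) : ℝ) : ℂ)) * (1 / sin (w - y j + ((0 : ℝ) : ℂ)))) := by
    intro p q y w
    unfold NUP1.N.XD
    push_cast
    simp only [add_zero, ← sub_eq_add_neg]
    rw [div_eq_mul_inv, mul_inv]
    have e : ∀ j, -sin (w - y j - 2 * l) / sin (w - y j) = -1 * sin (w - y j - 2 * l) * (1 / sin (w - y j)) :=
      fun j => by ring
    rw [Finset.prod_congr rfl fun j _ => e j]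
    ring
  have s1 : ∀ d : ℝ, -(11 / 4) * l - 51 / 100 * l < d → d < -(11 / 4) * l - -(l / 2) → Real.sin (d + l) ≠ 0 :=
    fun d h1 h2 => sin_ne_neg (by linarith) (by linarith)
  have s2 : ∀ d : ℝ, -(11 / 4) * l - 51 / 100 * l < d → d < -(11 / 4) * l - -(l / 2) → Real.sin (d + 0) ≠ 0 :=
    fun d h1 h2 => sin_ne_neg (by linarith) (by linarith)
  have s3 : ∀ d : ℝ, -(11 / 4) * l - 51 / 100 * l < d → d < -(11 / 4) * l - -l → Real.sin (d + 0) ≠ 0 :=
    fun d h1 h2 => sin_ne_neg (by linarith) (by linarith)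
  refine LnH1.of_ub (fun θ hθ => PBX.measurable_XDg _ _ _) (fun θ hθ z hz => ?_) ?_
  · show DifferentiableAt ℂ (fun θ => NUP1.N.XD (p θ) (q θ) (y θ) z) θ
    obtain ⟨p1, p2⟩ := H.hp.re hθ
    obtain ⟨q1, q2⟩ := H.hq.re hθ
    simp only [form]
    refine ((((differentiableAt_const _).mul (diff_isin (H.hp.df θ hθ) ?_)).mul
      (diff_isin (H.hq.df θ hθ) ?_))).mul (DifferentiableAt.fun_finsetProd fun i _ => ?_)
    · rw [hz]
      exact s1 _ (by linarith) (by linarith)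
    · rw [hz]
      exact s2 _ (by linarith) (by linarith)
    · obtain ⟨y1, y2⟩ := (H.hy i).re hθ
      refine ((diff_sinF _ ((H.hy i).df θ hθ)).const_mul _).mul (diff_isin ((H.hy i).df θ hθ) ?_)
      rw [hz]
      exact s3 _ (by linarith) (by linarith)
  · have h4 : UB U {-(11 / 4) * l} (Finset.univ.card * (0 : ℝ)) (fun θ z => ∏ i : Fin M,
        (-1 * sin (z - y θ i + ((-(2 * l) : ℝ) : ℂ)) * (1 / sin (z - y θ i + ((0 : ℝ) : ℂ))))) :=
      UB.prod Finset.univ fun i _ => (((UB.const U {-(11 / 4) * l} (-1)).mul ((H.hy i).sin _ (-(2 * l)))).mul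
        ((H.hy i).isin _ 0 s3)).rate (by ring)
    refine (((((UB.const U {-(11 / 4) * l} (-sin (2 * l) ^ 2)).mul (H.hp.isin _ l s1)).mul
      (H.hq.isin _ 0 s2)).mul h4).rate (by ring)).congr fun θ _ z _ => ?_
    exact form _ _ _ _

/-- **the classes of the family** -/
theorem FamRU.clsH (hU : IsOpen U) {P : PHK.Par6} (hP : InV P) :
    ClsH P U 1 ((m : ℝ) - M) (fun θ => (DF c c' β x y p q g g' g0 g0' θ).X)
      (fun θ => (DF c c' β x y p q g g' g0 g0' θ).Y) (fun θ => (DF c c' β x y p q g g' g0 g0' θ).KF)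
      (fun θ => (DF c c' β x y p q g g' g0 g0' θ).KR) (fun θ => (DF c c' β x y p q g g' g0 g0' θ).KF')
      (fun θ => (DF c c' β x y p q g g' g0 g0' θ).KR') := by
  have hl := Bd.l_pos
  have hb := H.b0
  have kf : ∀ {m M : ℕ} {x : ℂ → Fin m → ℂ} {y : ℂ → Fin M → ℂ} {p q : ℂ → ℂ},
      (∀ i, FP (-l) U fun θ => x θ i) → (∀ i, FP (-l) U fun θ => y θ i) → FP (-(l / 2)) U p →
      FP (-(l / 2)) U q → LnH1 U {5 / 4 * l, 5 / 8 * l, -(11 / 4) * l} (1 + ((m : ℝ) - M))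
        fun θ => pr1 (p θ) (q θ) (x θ) (y θ) := fun hx hy hp hq =>
    (ub_pr1F (lnK_A (by linarith) le_rfl) hx hy hp hq).union
      ((ub_pr1F (lnK_A le_rfl (by linarith)) hx hy hp hq).union (ub_pr1F lnK_B hx hy hp hq))
  have s1 : 2 * ((m : ℝ) - M) * sc4 true (some .S) = 4 * ((m : ℝ) - M) := by
    simp only [sc4, sc, ob4, ob3, chg, Option.elim]
    norm_num
    ring
  have s2 : 2 * ((m : ℝ) - M) * sc4 false (some .S) = -(4 * ((m : ℝ) - M)) := by
    simp only [sc4, sc, ob4, ob3, chg, Option.elim]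
    norm_num
    ring
  have e8 : -(11 / 8) * l = -(11 / 8 * l) := by ring
  refine ⟨fun k => H.fam1 hU hP k, fun k => ?_, ?_, ?_, kf H.hx H.hy H.hp H.hq, H.lnR.rate (by linarith), ?_, ?_⟩
  · refine (H.sw.fam1 (c := c') (c' := c) hU hP k).rate (le_of_eq ?_)
    have : sc4 false k = -sc4 true k := sc4_not true k
    rw [this]
    ring
  · rw [s1, e8]
    refine (H.lnS (a := -(11 / 8 * l)) (by linarith) (by linarith)).rate ?_
    linarith
  · rw [s2, e8]
    refine (H.sw.lnS (c := c') (c' := c) (a := -(11 / 8 * l)) (by linarith) (by linarith)).rate ?_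
    linarith
  · exact (kf H.hy H.hx H.hq H.hp).rate (by linarith)
  · exact (H.sw.lnR (c := c') (c' := c)).rate (by linarith)

end one

/-- **`RU.fin` is analytic in the parameter** -/
theorem fin_hol {θ0 : ℂ} {R : ℝ} (hR : 0 < R) (H : FamRU (ball θ0 R) β x y p q g g' g0 g0') {P : PHK.Par6}
    (hP : InV P) {n n' : ℕ} (hn : n + M = n' + m) :
    DifferentiableAt ℂ (fun θ => (DF c c' β x y p q g g' g0 g0' θ).fin P n n') θ0 := by
  have hQ : (n : ℝ) - n' = (m : ℝ) - M := by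
    have : ((n + M : ℕ) : ℝ) = ((n' + m : ℕ) : ℝ) := by rw [hn]
    push_cast at this
    linarith
  have hC := H.clsH (c := c) (c' := c') isOpen_ball hP
  have hb := H.b0
  unfold Pool.Agent.PLX.RU.fin
  refine DifferentiableAt.sub ((DifferentiableAt.fun_sum fun t _ => DifferentiableAt.fun_sum fun t' _ =>
    (cF_hol hP one_pos hQ hR hC t t').const_mul _).const_mul _) (DifferentiableAt.const_mul
      (DifferentiableAt.const_mul (DifferentiableAt.add ?_ ?_) _) _)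
  · refine cD1_hol hP one_pos hQ hR hC.fX hC.fY ⟨PHK.spV_D.ms, spV_hl hP PHK.spV_D, ?_⟩
    exact (H.lnD (c := c) (c' := c')).rate (by linarith)
  · refine cD1_hol hP one_pos hQ hR hC.fX hC.fY ⟨PHK.spV_D.flip.ms, fun c k x hx => ?_, ?_⟩
    · have := spV_hl hP PHK.spV_D.flip c k x hx
      rwa [neg_zero] at this
    · exact (H.sw.lnD (c := c') (c' := c)).rate (by linarith)

end data

/-! ### local form -/

/-- differentiable near `θ0`, real part in `(lo, 51/100 l)` at `θ0` -/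
structure NF (lo : ℝ) (θ0 : ℂ) (w : ℂ → ℂ) : Prop where
  df : ∀ᶠ θ in 𝓝 θ0, DifferentiableAt ℂ w θ
  lo : lo < (w θ0).re
  hi : (w θ0).re < 51 / 100 * l

theorem NF.const {lo : ℝ} {w : ℂ} (θ0 : ℂ) (h1 : lo < w.re) (h2 : w.re < 51 / 100 * l) : NF lo θ0 fun _ => w :=
  ⟨Filter.Eventually.of_forall fun _ => differentiableAt_const _, h1, h2⟩

theorem NF.fp {lo : ℝ} {θ0 : ℂ} {w : ℂ → ℂ} (h : NF lo θ0 w) : ∀ᶠ R in 𝓝[>] (0 : ℝ), FP lo (ball θ0 R) w := by
  have hc : ContinuousAt w θ0 := h.df.self_of_nhds.continuousAt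
  have hre : ContinuousAt (fun θ => (w θ).re) θ0 := Complex.continuous_re.continuousAt.comp hc
  have him : ContinuousAt (fun θ => |(w θ).im|) θ0 := (Complex.continuous_im.continuousAt.comp hc).abs
  have h1 := h.lo
  have h2 := h.hi
  have e1 : ∀ᶠ θ in 𝓝 θ0, (lo + (w θ0).re) / 2 ≤ (w θ).re :=
    hre.eventually (eventually_ge_nhds (by linarith))
  have e2 : ∀ᶠ θ in 𝓝 θ0, (w θ).re ≤ ((w θ0).re + 51 / 100 * l) / 2 :=
    hre.eventually (eventually_le_nhds (by linarith))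
  have e3 : ∀ᶠ θ in 𝓝 θ0, |(w θ).im| ≤ |(w θ0).im| + 1 :=
    him.eventually (eventually_le_nhds (by linarith))
  obtain ⟨R0, hR0, hb⟩ := Metric.eventually_nhds_iff_ball.1 (h.df.and (e1.and (e2.and e3)))
  filter_upwards [Ioo_mem_nhdsGT hR0] with R hR
  have hsub : ball θ0 R ⊆ ball θ0 R0 := ball_subset_ball hR.2.le
  exact ⟨fun θ hθ => (hb θ (hsub hθ)).1, _, _, _, by linarith, by linarith, fun θ hθ =>
    ⟨(hb θ (hsub hθ)).2.1, (hb θ (hsub hθ)).2.2.1, (hb θ (hsub hθ)).2.2.2⟩⟩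

section loc

variable {c c' : ℂ} {β T1 T1' : ℝ} {x : ℂ → Fin m → ℂ} {y : ℂ → Fin M → ℂ} {p q : ℂ → ℂ} {r r' s s' : ℕ}
  {w : ℂ → Fin r → ℂ} {w' : ℂ → Fin r' → ℂ} {v : ℂ → Fin s → ℂ} {v' : ℂ → Fin s' → ℂ} {θ0 : ℂ}

/-- **`RU.fin` is analytic in the parameter**: rows `x`, `y`, ends `p`, `q`, points `w`, `w'` of the cutoffs of the
quanta and `v`, `v'` of the cutoffs of the strings, all differentiable near `θ0` and in the strips at `θ0` -/
theorem fin_diff (b0 : 1 / 2 ≤ β) (b1 : β ≤ 4 / 3) (hx : ∀ i, NF (-l) θ0 fun θ => x θ i)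
    (hy : ∀ i, NF (-l) θ0 fun θ => y θ i) (hp : NF (-(l / 2)) θ0 p) (hq : NF (-(l / 2)) θ0 q)
    (hw : ∀ i, NF (-l) θ0 fun θ => w θ i) (hw' : ∀ i, NF (-l) θ0 fun θ => w' θ i)
    (hv : ∀ i, NF (-l) θ0 fun θ => v θ i) (hv' : ∀ i, NF (-l) θ0 fun θ => v' θ i) {P : PHK.Par6}
    (hP : InV P) {n n' : ℕ} (hn : n + M = n' + m) :
    DifferentiableAt ℂ (fun θ => (DF c c' β x y p q (fun θ => gP β (List.ofFn (w θ)))
      (fun θ => gP β (List.ofFn (w' θ))) (fun θ => PHK.gO T1 (List.ofFn (v θ)) (x θ))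
      (fun θ => PHK.gO T1' (List.ofFn (v' θ)) (y θ)) θ).fin P n n') θ0 := by
  have key : ∀ᶠ R in 𝓝[>] (0 : ℝ), 0 < R ∧ (∀ i, FP (-l) (ball θ0 R) fun θ => x θ i) ∧
      (∀ i, FP (-l) (ball θ0 R) fun θ => y θ i) ∧ FP (-(l / 2)) (ball θ0 R) p ∧ FP (-(l / 2)) (ball θ0 R) q ∧
      (∀ i, FP (-l) (ball θ0 R) fun θ => w θ i) ∧ (∀ i, FP (-l) (ball θ0 R) fun θ => w' θ i) ∧
      (∀ i, FP (-l) (ball θ0 R) fun θ => v θ i) ∧ (∀ i, FP (-l) (ball θ0 R) fun θ => v' θ i) :=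
    (show ∀ᶠ R in 𝓝[>] (0 : ℝ), 0 < R from self_mem_nhdsWithin).and ((eventually_all.2 fun i => (hx i).fp).and ((eventually_all.2 fun i => (hy i).fp).and
      (hp.fp.and (hq.fp.and ((eventually_all.2 fun i => (hw i).fp).and ((eventually_all.2 fun i => (hw' i).fp).and
        ((eventually_all.2 fun i => (hv i).fp).and (eventually_all.2 fun i => (hv' i).fp))))))))
  obtain ⟨R, hR, a1, a2, a3, a4, a5, a6, a7, a8⟩ := key.exists
  have hβ : 0 < β := lt_of_lt_of_le (by norm_num) b0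
  exact fin_hol hR ⟨b0, b1, a1, a2, a3, a4, cutA_gP le_rfl hβ b1 a5, cutA_gP le_rfl hβ b1 a6, cutO_gO T1 a1 a7,
    cutO_gO T1' a2 a8⟩ hP hn

/-- **the same with fixed lists of points** -/
theorem fin_diffL (b0 : 1 / 2 ≤ β) (b1 : β ≤ 4 / 3) (hx : ∀ i, NF (-l) θ0 fun θ => x θ i)
    (hy : ∀ i, NF (-l) θ0 fun θ => y θ i) (hp : NF (-(l / 2)) θ0 p) (hq : NF (-(l / 2)) θ0 q)
    {W W' V V' : List ℂ} (hW : ∀ u ∈ W, PtG u) (hW' : ∀ u ∈ W', PtG u) (hV : ∀ u ∈ V, PtG u)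
    (hV' : ∀ u ∈ V', PtG u) {P : PHK.Par6} (hP : InV P) {n n' : ℕ} (hn : n + M = n' + m) :
    DifferentiableAt ℂ (fun θ => (⟨c, c', β, x θ, y θ, p θ, q θ, gP β W, gP β W', PHK.gO T1 V (x θ),
      PHK.gO T1' V' (y θ)⟩ : RU m M).fin P n n') θ0 := by
  have hl := Bd.l_pos
  have key : ∀ {W : List ℂ}, (∀ u ∈ W, PtG u) → ∀ i, NF (-l) θ0 fun _ => W.get i := fun h i =>
    NF.const θ0 (h _ (List.get_mem _ _)).1 (by linarith [(h _ (List.get_mem _ i)).2])
  have h := fin_diff (c := c) (c' := c') (T1 := T1) (T1' := T1') (w := fun _ => W.get) (w' := fun _ => W'.get)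
    (v := fun _ => V.get) (v' := fun _ => V'.get) b0 b1 hx hy hp hq (key hW) (key hW') (key hV) (key hV') hP hn
  simp only [List.ofFn_get] at h
  exact h

end loc

end PLTX

end
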