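import Pool.Agent.PLT.FinG
import Pool.Agent.PHK.Dir6
import Pool.Agent.NURow.Holo

/-!
# Class integrals are analytic in a parameter

Families with a parameter `θ` in an open ball: measurable, holomorphic in `θ` at every point of the lines, bounds
uniform in `θ`.

* **`IA_hol`** : an integral over vertical lines of a product of one body and pair functions;
* `FamH`, `HLnH` : families of one body functions, half quanta;
* **`JJ_hol`**, **`val_hol`** : the double integral of a class; **`val1_hol`** : a class with one line.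
-/

set_option autoImplicit false
set_option linter.unusedSectionVars false
set_option linter.unusedVariables false

noncomputable section

open Complex MeasureTheory Metric
open scoped Classical

namespace PLTX

open NUP1 NUP1S NUP1.Bd NURow

/-! ### products over vertical lines -/

section IAh

variable {ι : Type*} [Fintype ι]

/-- a family of functions on one line: measurable, holomorphic in the parameter, uniform decay -/
structure LnH1 (U : Set ℂ) (K : Set ℝ) (κ : ℝ) (f : ℂ → ℂ → ℂ) : Prop where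
  ms : ∀ θ ∈ U, Measurable (f θ)
  df : ∀ θ ∈ U, ∀ z : ℂ, z.re ∈ K → DifferentiableAt ℂ (fun θ => f θ z) θ
  bd : ∃ D : ℝ, ∀ θ ∈ U, ∀ z : ℂ, z.re ∈ K → ‖f θ z‖ ≤ D * Real.exp (-(κ * |z.im|))

theorem LnH1.mono {U : Set ℂ} {K K' : Set ℝ} {κ : ℝ} {f : ℂ → ℂ → ℂ} (h : LnH1 U K' κ f) (hK : K ⊆ K') :
    LnH1 U K κ f := by
  obtain ⟨D, hD⟩ := h.bd
  exact ⟨h.ms, fun θ hθ z hz => h.df θ hθ z (hK hz), D, fun θ hθ z hz => hD θ hθ z (hK hz)⟩

theorem LnH1.monoU {U U' : Set ℂ} {K : Set ℝ} {κ : ℝ} {f : ℂ → ℂ → ℂ} (h : LnH1 U' K κ f) (hU : U ⊆ U') :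
    LnH1 U K κ f := by
  obtain ⟨D, hD⟩ := h.bd
  exact ⟨fun θ hθ => h.ms θ (hU hθ), fun θ hθ z hz => h.df θ (hU hθ) z hz, D,
    fun θ hθ z hz => hD θ (hU hθ) z hz⟩

theorem LnH1.rate {U : Set ℂ} {K : Set ℝ} {κ κ' : ℝ} {f : ℂ → ℂ → ℂ} (h : LnH1 U K κ f) (hκ : κ' ≤ κ) :
    LnH1 U K κ' f := by
  obtain ⟨D, hD⟩ := h.bd
  refine ⟨h.ms, h.df, |D|, fun θ hθ z hz => ((hD θ hθ z hz).trans
    (mul_le_mul_of_nonneg_right (le_abs_self D) (Real.exp_pos _).le)).trans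
      (mul_le_mul_of_nonneg_left (Real.exp_le_exp.2 ?_) (abs_nonneg D))⟩
  have := mul_le_mul_of_nonneg_right hκ (abs_nonneg z.im)
  linarith

theorem LnH1.mul {U : Set ℂ} {K : Set ℝ} {κ κ' : ℝ} {f g : ℂ → ℂ → ℂ} (h : LnH1 U K κ f) (k : LnH1 U K κ' g) :
    LnH1 U K (κ + κ') fun θ z => f θ z * g θ z := by
  obtain ⟨D, hD⟩ := h.bd
  obtain ⟨D', hD'⟩ := k.bd
  refine ⟨fun θ hθ => (h.ms θ hθ).mul (k.ms θ hθ), fun θ hθ z hz => (h.df θ hθ z hz).mul (k.df θ hθ z hz),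
    |D| * |D'|, fun θ hθ z hz => ?_⟩
  have h1 := (hD θ hθ z hz).trans (mul_le_mul_of_nonneg_right (le_abs_self D) (Real.exp_pos _).le)
  have h2 := (hD' θ hθ z hz).trans (mul_le_mul_of_nonneg_right (le_abs_self D') (Real.exp_pos _).le)
  rw [norm_mul]
  calc _ ≤ (|D| * Real.exp (-(κ * |z.im|))) * (|D'| * Real.exp (-(κ' * |z.im|))) :=
        mul_le_mul h1 h2 (norm_nonneg _) (by positivity)
    _ = _ := by
        rw [show -((κ + κ') * |z.im|) = -(κ * |z.im|) + -(κ' * |z.im|) by ring, Real.exp_add]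
        ring

theorem LnH1.cmul {U : Set ℂ} {K : Set ℝ} {κ : ℝ} {f : ℂ → ℂ → ℂ} (c : ℂ) (h : LnH1 U K κ f) :
    LnH1 U K κ fun θ z => c * f θ z := by
  obtain ⟨D, hD⟩ := h.bd
  refine ⟨fun θ hθ => (h.ms θ hθ).const_mul c, fun θ hθ z hz => (h.df θ hθ z hz).const_mul c,
    ‖c‖ * D, fun θ hθ z hz => ?_⟩
  rw [norm_mul, mul_assoc]
  exact mul_le_mul_of_nonneg_left (hD θ hθ z hz) (norm_nonneg _)

theorem LnH1.congr' {U : Set ℂ} {K : Set ℝ} {κ : ℝ} {f g : ℂ → ℂ → ℂ} (h : LnH1 U K κ f)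
    (e : ∀ θ z, g θ z = f θ z) : LnH1 U K κ g := by
  have e' : g = f := funext fun θ => funext fun z => e θ z
  rw [e']
  exact h

theorem LnH1.shift {U : Set ℂ} {K K' : Set ℝ} {κ : ℝ} {f : ℂ → ℂ → ℂ} (h : LnH1 U K' κ f) (a : ℝ)
    (hK : ∀ x ∈ K, x + a ∈ K') : LnH1 U K κ fun θ z => f θ (z + a) := by
  obtain ⟨D, hD⟩ := h.bd
  have e : ∀ z : ℂ, (z + (a : ℂ)).re = z.re + a := fun z => by simp
  refine ⟨fun θ hθ => (h.ms θ hθ).comp (measurable_id.add_const _), fun θ hθ z hz =>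
    h.df θ hθ (z + a) (by rw [e]; exact hK _ hz), D, fun θ hθ z hz => ?_⟩
  have := hD θ hθ (z + a) (by rw [e]; exact hK _ hz)
  simpa using this

theorem LnH1.congr {U : Set ℂ} (hU : IsOpen U) {K : Set ℝ} {κ : ℝ} {f g : ℂ → ℂ → ℂ} (h : LnH1 U K κ f)
    (hm : ∀ θ ∈ U, Measurable (g θ)) (e : ∀ θ ∈ U, ∀ z : ℂ, z.re ∈ K → g θ z = f θ z) : LnH1 U K κ g := by
  obtain ⟨D, hD⟩ := h.bd
  refine ⟨hm, fun θ hθ z hz => (h.df θ hθ z hz).congr_of_eventuallyEq ?_, D, fun θ hθ z hz => ?_⟩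
  · filter_upwards [hU.mem_nhds hθ] with θ' hθ'
    exact e θ' hθ' z hz
  · rw [e θ hθ z hz]
    exact hD θ hθ z hz

/-- **holomorphy of an integral over lines** -/
theorem IA_hol {g : ι → ι → ℂ → ℂ} {c : ι → ℝ} {Q : ℝ} (hn : ∑ i, c i = Q)
    {h : ℂ → ι → ℂ → ℂ} {x : ι → ℝ} {κ : ℝ} (hκ : 0 < κ) (hgm : ∀ a b, Measurable (g a b))
    (hg : ∀ a b, a ≠ b → Bdd {x a - x b} (2 * (c a * c b)) (g a b)) {θ0 : ℂ} {R : ℝ} (hR : 0 < R)
    (hh : ∀ i, LnH1 (ball θ0 R) {x i} (κ + 2 * Q * c i) fun θ => h θ i) :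
    DifferentiableAt ℂ (fun θ => IA g (h θ) x) θ0 := by
  choose D hD using fun i => (hh i).bd
  obtain ⟨D0, hD0⟩ : ∃ D0, D0 = ∑ i, |D i| := ⟨_, rfl⟩
  have hD1 : ∀ i, D i ≤ D0 := fun i => by
    rw [hD0]
    exact (le_abs_self _).trans (Finset.single_le_sum (f := fun i => |D i|)
      (fun i _ => abs_nonneg _) (Finset.mem_univ i))
  obtain ⟨C, hC, hg'⟩ := pair_const g c (fun a b => {x a - x b}) hg
  unfold IA
  refine NURow.differentiableAt_integral hR
    (b := fun t => D0 ^ Fintype.card ι * C ^ (Fintype.card ι * Fintype.card ι) *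
      ∏ i, Real.exp (-(κ * |t i|))) ?_ ?_ ?_ ?_
  · intro θ hθ
    exact (measurable_FA_pos hgm (fun i => (hh i).ms θ hθ) x).aestronglyMeasurable
  · refine Filter.Eventually.of_forall fun t θ hθ => DifferentiableAt.differentiableWithinAt ?_
    unfold NURow.FA
    refine DifferentiableAt.mul_const ?_ _
    exact DifferentiableAt.fun_finsetProd fun i _ => (hh i).df θ hθ _ (by simp)
  · refine Filter.Eventually.of_forall fun t θ hθ => ?_
    have := FA_norm_le hn (h := h θ) (z := pos x t) (D := D0) (κ := κ) hC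
      (fun i => (hD i θ hθ _ (by simp)).trans
        (mul_le_mul_of_nonneg_right (hD1 i) (Real.exp_pos _).le))
      (fun a b hab => hg' a b hab _ (by simp))
    simpa using this
  · exact ((integrable_prod_exp' (ι := ι) hκ).const_mul
      (D0 ^ Fintype.card ι * C ^ (Fintype.card ι * Fintype.card ι)))

end IAh

/-! ### families of one body functions -/

/-- one species -/
def FamH (U : Set ℂ) (c : Bool) (KK : Option O3 → Set ℝ) (κ Q : ℝ) (X : ℂ → Option O3 → ℂ → ℂ) : Prop :=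
  ∀ k, LnH1 U (KK k) (κ + 2 * Q * sc4 c k) fun θ => X θ k

/-- a half quantum of charge `cw` on the line `a`, total charge `Q` -/
structure HLnH (U : Set ℂ) (KK : Option O3 → Set ℝ) (κ Q cw a : ℝ) (S : Sp) (K : ℂ → ℂ → ℂ) : Prop where
  ms : ∀ c k, Measurable (S c k)
  bd : ∀ c k, ∀ x ∈ KK k, Bdd {a - x} (2 * (cw * sc4 c k)) (S c k)
  k1 : LnH1 U {a} (κ + 2 * Q * cw) K

theorem FamH.at {U : Set ℂ} {c : Bool} {KK : Option O3 → Set ℝ} {κ Q : ℝ} {X : ℂ → Option O3 → ℂ → ℂ}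
    (h : FamH U c KK κ Q X) {θ : ℂ} (hθ : θ ∈ U) : FamL c KK κ Q (X θ) :=
  ⟨fun k => (h k).ms θ hθ, fun k => by
    obtain ⟨D, hD⟩ := (h k).bd
    exact ⟨D, fun z hz => hD θ hθ z hz⟩⟩

theorem HLnH.at {U : Set ℂ} {KK : Option O3 → Set ℝ} {κ Q cw a : ℝ} {S : Sp} {K : ℂ → ℂ → ℂ}
    (h : HLnH U KK κ Q cw a S K) {θ : ℂ} (hθ : θ ∈ U) : HLn KK κ Q cw a S (K θ) :=
  ⟨h.ms, h.bd, h.k1.ms θ hθ, by
    obtain ⟨D, hD⟩ := h.k1.bd
    exact ⟨D, fun z hz => hD θ hθ z hz⟩⟩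

section main

variable {X Y : ℂ → Option O3 → ℂ → ℂ} {S S' : Sp} {gw : ℂ → ℂ} {K K' : ℂ → ℂ → ℂ} {α : ℝ} {n n' : ℕ}
  {lnX : ∀ p p' : ℕ, (Fin p → O3) → (Fin p' → O3) → Fin p → ℝ}
  {lnY : ∀ p p' : ℕ, (Fin p → O3) → (Fin p' → O3) → Fin p' → ℝ} {KK : Option O3 → Set ℝ}
  {κ Q cw cw' a b : ℝ} {θ0 : ℂ} {R : ℝ}

/-- **one word** -/
theorem IA_Gt_hol (hL : LOk KK) (hκ : 0 < κ) (hQ : cw + cw' + ((n : ℝ) - n') = Q) (hR : 0 < R)
    (hX : FamH (ball θ0 R) true KK κ Q X) (hY : FamH (ball θ0 R) false KK κ Q Y)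
    (hS : HLnH (ball θ0 R) KK κ Q cw a S K)
    (hS' : HLnH (ball θ0 R) KK κ Q cw' b S' K') (hgm : Measurable gw) (hg : Bdd {a - b} (2 * (cw * cw')) gw)
    (hα : α ∈ KK none) {p p' : ℕ} {k : Fin p → O3} {k' : Fin p' → O3} (hc : Wok n n' k k')
    (hlX : ∀ i, lnX p p' k k' i ∈ KK (some (k i)))
    (hlY : ∀ i, lnY p p' k k' i ∈ KK (some (k' i))) :
    DifferentiableAt ℂ (fun θ => IA (Gt S S' gw n n' k k') (Ht (X θ) (Y θ) (K θ) (K' θ) n n' k k')
      (oc a (oc b (lns α n n' lnX lnY k k')))) θ0 := by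
  have hln : ∀ u, lns α n n' lnX lnY k k' u ∈ KK (kAB (nA n k) (nA n' k') k k' u) := by
    intro u
    rcases u with (u | u) | (u | u)
    · exact hα
    · exact hα
    · exact hlX u
    · exact hlY u
  have hbS : ∀ {cw a : ℝ} {S : Sp} {K : ℂ → ℂ → ℂ}, HLnH (ball θ0 R) KK κ Q cw a S K → ∀ u,
      Bdd {a - lns α n n' lnX lnY k k' u} (2 * (cw * sc (oAB (nA n k) (nA n' k') k k' u)))
        (sAB S (nA n k) (nA n' k') k k' u) := by
    intro cw a S K h u
    rw [oAB_eq, sAB_eq]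
    exact h.bd _ _ _ (hln u)
  have hneg : ∀ {cw a y c : ℝ} {f : ℂ → ℂ}, Bdd {a - y} (2 * (cw * c)) f →
      Bdd {y - a} (2 * (c * cw)) fun z => f (-z) := by
    intro cw a y c f h
    have h2 : Bdd {y - a} (2 * (cw * c)) fun z => f (-z) := Bdd.neg' (by simpa using h)
    rwa [show 2 * (cw * c) = 2 * (c * cw) by ring] at h2
  refine IA_hol (c := oc cw (oc cw' fun u => sc (oAB (nA n k) (nA n' k') k k' u))) (Q := Q)
    ?_ hκ ?_ ?_ hR ?_
  · rw [Fintype.sum_option, Fintype.sum_option]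
    simp only [oc_none, oc_some]
    rw [sum_oAB hc]
    linarith
  · refine measurable_gO (measurable_gO (fun u v => measurable_gz _ _) fun u => ?_) fun o => ?_
    · rw [sAB_eq]
      exact hS'.ms _ _
    · cases o with
      | none => exact hgm
      | some u =>
        show Measurable (sAB S (nA n k) (nA n' k') k k' u)
        rw [sAB_eq]
        exact hS.ms _ _
  · intro o o' hoo
    rcases o with _ | _ | u
    · rcases o' with _ | _ | v
      · exact absurd rfl hoo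
      · exact hg
      · exact hbS hS v
    · rcases o' with _ | _ | v
      · exact hneg hg
      · exact absurd rfl hoo
      · exact hbS hS' v
    · rcases o' with _ | _ | v
      · exact hneg (hbS hS u)
      · exact hneg (hbS hS' u)
      · show Bdd {lns α n n' lnX lnY k k' u - lns α n n' lnX lnY k k' v}
          (2 * (sc (oAB (nA n k) (nA n' k') k k' u) * sc (oAB (nA n k) (nA n' k') k k' v)))
          (gz (oAB (nA n k) (nA n' k') k k' u) (oAB (nA n k) (nA n' k') k k' v))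
        rw [oAB_eq, oAB_eq]
        refine bdd_gz isCompact_singleton _ _ fun d hd => ?_
        rw [Set.mem_singleton_iff] at hd
        rw [hd]
        exact hL _ _ _ _ _ (hln u) _ (hln v)
  · intro o
    rcases o with _ | _ | u
    · exact hS.k1
    · exact hS'.k1
    · show LnH1 (ball θ0 R) {lns α n n' lnX lnY k k' u}
        (κ + 2 * Q * sc (oAB (nA n k) (nA n' k') k k' u))
        (fun θ => hAB (X θ) (Y θ) (nA n k) (nA n' k') k k' u)
      have hsub : {lns α n n' lnX lnY k k' u} ⊆ KK (kAB (nA n k) (nA n' k') k k' u) :=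
        Set.singleton_subset_iff.2 (hln u)
      rw [oAB_eq]
      by_cases hb : bAB (nA n k) (nA n' k') k k' u = true
      · have e : (fun θ => hAB (X θ) (Y θ) (nA n k) (nA n' k') k k' u) = fun θ =>
            X θ (kAB (nA n k) (nA n' k') k k' u) := by
          funext θ
          rw [hAB_eq, if_pos hb]
        rw [e, hb]
        exact (hX _).mono hsub
      · have e : (fun θ => hAB (X θ) (Y θ) (nA n k) (nA n' k') k k' u) = fun θ =>
            Y θ (kAB (nA n k) (nA n' k') k k' u) := by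
          funext θ
          rw [hAB_eq, if_neg hb]
        rw [e, Bool.eq_false_iff.2 hb]
        exact (hY _).mono hsub

theorem ZGs_hol {Φ : ℂ → ∀ p p' : ℕ, (Fin p → O3) → (Fin p' → O3) → ℂ}
    (h : ∀ (p p' : ℕ) (k : Fin p → O3) (k' : Fin p' → O3), Wok n n' k k' →
      DifferentiableAt ℂ (fun θ => Φ θ p p' k k') θ0) : DifferentiableAt ℂ (fun θ => ZGs n n' (Φ θ)) θ0 := by
  unfold ZGs
  refine DifferentiableAt.fun_sum fun p' _ => DifferentiableAt.fun_sum fun p _ => ?_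
  refine DifferentiableAt.const_mul (DifferentiableAt.fun_sum fun k' _ => DifferentiableAt.fun_sum fun k _ => ?_) _
  by_cases hc : ∑ i, c3 (k' i) ≤ n' ∧ ∑ i, c3 (k i) ≤ n
  · simp only [if_pos hc]
    exact h p p' k k' hc
  · simp only [if_neg hc]
    exact differentiableAt_const _

/-- **the double integral over the half quanta** -/
theorem JJ_hol (hL : LOk KK) (hκ : 0 < κ) (hQ : cw + cw' + ((n : ℝ) - n') = Q) (hR : 0 < R)
    (hX : FamH (ball θ0 R) true KK κ Q X) (hY : FamH (ball θ0 R) false KK κ Q Y)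
    (hS : HLnH (ball θ0 R) KK κ Q cw a S K)
    (hS' : HLnH (ball θ0 R) KK κ Q cw' b S' K') (hgm : Measurable gw) (hg : Bdd {a - b} (2 * (cw * cw')) gw)
    (hα : α ∈ KK none)
    (hlX : ∀ p p' k k' i, lnX p p' k k' i ∈ KK (some (k i)))
    (hlY : ∀ p p' k k' i, lnY p p' k k' i ∈ KK (some (k' i))) :
    DifferentiableAt ℂ (fun θ => ∫ y, JJ (X θ) (Y θ) S S' gw (K θ) (K' θ) α n n' lnX lnY a b y
      ∂(volume.prod volume)) θ0 := by
  have e : ∀ θ ∈ ball θ0 R, ∫ y, JJ (X θ) (Y θ) S S' gw (K θ) (K' θ) α n n' lnX lnY a b y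
      ∂(volume.prod volume) = ZGs n n' fun p p' k k' => cW n n' k k' * IA (Gt S S' gw n n' k k')
        (Ht (X θ) (Y θ) (K θ) (K' θ) n n' k k') (oc a (oc b (lns α n n' lnX lnY k k'))) := fun θ hθ =>
    (JJ_of fun p p' k k' hc => integrable_Gt hL hκ hQ (hX.at hθ) (hY.at hθ) (hS.at hθ) (hS'.at hθ) hgm hg hα hc
      (hlX p p' k k') (hlY p p' k k')).2
  have h1 : DifferentiableAt ℂ (fun θ => ZGs n n' fun p p' k k' => cW n n' k k' * IA (Gt S S' gw n n' k k')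
        (Ht (X θ) (Y θ) (K θ) (K' θ) n n' k k') (oc a (oc b (lns α n n' lnX lnY k k')))) θ0 :=
    ZGs_hol fun p p' k k' hc => (IA_Gt_hol hL hκ hQ hR hX hY hS hS' hgm hg hα hc (hlX p p' k k')
      (hlY p p' k k')).const_mul _
  refine h1.congr_of_eventuallyEq ?_
  filter_upwards [ball_mem_nhds θ0 hR] with θ hθ
  exact e θ hθ

end main

/-! ### the final classes -/

/-- the lines of (P) -/
def KP6 (P : PHK.Par6) : Option O3 → Set ℝ
  | none => {51 / 100 * l}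
  | some k => {PHK.lnP P k}

/-- the kernel of a half quantum of type `t` : `f` alone, `g` with a captured quantum, `h` = strings of the other
species -/
def kT (f g h : ℂ → ℂ) : HT → ℂ → ℂ
  | .P => g
  | .H => fun w => -(2 * Real.pi * rD (2 * l) * wt .S * h (w - 2 * l)) * f w
  | _ => f

section cls

variable {P : PHK.Par6}

/-- the lines of `P` are in the strips -/
structure InV (P : PHK.Par6) : Prop where
  j1 : 201 / 100 ≤ P.jL
  j2 : P.jL ≤ 9 / 4
  e1 : 1 / 4 ≤ P.e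
  e2 : P.e ≤ 9 / 20

theorem InV.mem (hP : InV P) (k : Option O3) {x : ℝ} (hx : x ∈ KP6 P k) :
    x ∈ Set.Icc (PHK.loV k) (PHK.hiV k) := by
  have hl := Bd.l_pos
  obtain ⟨h1, h2, h3, h4⟩ := hP
  rcases k with _ | (_ | _ | _) <;> rw [Set.mem_singleton_iff.1 hx]
  · exact ⟨le_rfl, (by linarith : 51 / 100 * l ≤ 3 / 5 * l)⟩
  · constructor
    · show -(5 / 4) * l ≤ (1 - P.jL) * l
      nlinarith
    · show (1 - P.jL) * l ≤ -(101 / 100) * l
      nlinarith
  · constructor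
    · show -(29 / 20) * l ≤ -((1 + P.e) * l)
      nlinarith
    · show -((1 + P.e) * l) ≤ -(5 / 4) * l
      nlinarith
  · constructor
    · show -(1 / 2) * l ≤ -(1 / 2 * l)
      linarith
    · show -(1 / 2 * l) ≤ -(1 / 2) * l
      linarith

theorem InV.lok (hP : InV P) : LOk (KP6 P) := by
  have hl := Bd.l_pos
  obtain ⟨h1, h2, h3, h4⟩ := hP
  have hs : StripsQ (51 / 100 * l) ((1 - P.jL) * l) ((1 - P.jL) * l) (-((1 + P.e) * l)) (-((1 + P.e) * l))
      (-(1 / 2 * l)) (-(1 / 2 * l)) (-((1 + P.e) * l)) (-(1 / 2 * l)) := by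
    constructor <;> nlinarith
  have := LOk_strips hs
  intro c c' k k' u hu v hv
  refine this c c' k k' u ?_ v ?_
  · rcases k with _ | (_ | _ | _) <;> rw [Set.mem_singleton_iff.1 hu] <;> exact ⟨le_rfl, le_rfl⟩
  · rcases k' with _ | (_ | _ | _) <;> rw [Set.mem_singleton_iff.1 hv] <;> exact ⟨le_rfl, le_rfl⟩

theorem cF_K {X Y : Option O3 → ℂ → ℂ} {kF kP kF' kP' : ℂ → ℂ} (t t' : HT) :
    (cF X Y kF kP kF' kP' t t').K = kT kF kP (Y (some .S)) t := by
  cases t <;> cases t' <;> rfl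

theorem cF_K' {X Y : Option O3 → ℂ → ℂ} {kF kP kF' kP' : ℂ → ℂ} (t t' : HT) :
    (cF X Y kF kP kF' kP' t t').K' = kT kF' kP' (X (some .S)) t' := by
  cases t <;> cases t' <;> rfl

theorem measurable_gwc (t t' : HT) : Measurable (NUGC.gwc t t') := by
  have h1 := measurable_gT
  have h2 : Measurable CC := measurable_CC
  have h3 : Measurable CCP := measurable_SP true (some .S)
  cases t <;> cases t'
  · exact h1 .W .W
  · exact h1 .W .F
  · exact h1 .W .P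
  · exact (h1 .W .W).mul (h2.comp (by fun_prop))
  · exact h1 .F .W
  · exact h1 .F .F
  · exact h1 .F .P
  · exact (h1 .F .W).mul (h2.comp (by fun_prop))
  · exact h1 .P .W
  · exact h1 .P .F
  · exact h1 .P .P
  · exact (h1 .P .W).mul (h3.comp (by fun_prop))
  · exact (h1 .W .W).mul (h2.comp (by fun_prop))
  · exact (h1 .W .F).mul (h2.comp (by fun_prop))
  · exact (h1 .W .P).mul (h3.comp (by fun_prop))
  · exact ((h1 .W .W).mul (h2.comp (by fun_prop))).mul (((measurable_gz _ _).comp (by fun_prop)).mul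
      (h2.comp (by fun_prop)))

theorem qHT_cwT (t : HT) : NUGC.qHT t = 2 * PHK.cwT t := by
  cases t <;> simp only [NUGC.qHT, PHK.cwT] <;> norm_num

theorem lnT_zHT (t : HT) : PHK.lnT t = (NUGC.zHT t : ℝ) * (l / 8) := by
  cases t <;> simp only [NUGC.zHT, PHK.lnT] <;> push_cast <;> ring

/-- the pair functions with the charges -/
theorem bdd_gwc (t t' : HT) : Bdd {PHK.lnT t - PHK.lnT t'} (2 * (PHK.cwT t * -PHK.cwT t')) (NUGC.gwc t t') := by
  have h1 := NUGC.gwc_bd t t'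
  have h2 : Bdd {PHK.lnT t - PHK.lnT t'} (-((NUGC.qHT t * NUGC.qHT t' + 1) / 2)) (NUGC.gwc t t') := by
    refine Bdd.mono_set h1 fun x hx => ?_
    rw [Set.mem_singleton_iff.1 hx, lnT_zHT, lnT_zHT]
    show _ = _
    push_cast
    ring
  refine h2.mono_rate ?_
  rw [qHT_cwT, qHT_cwT]
  nlinarith

/-- **the data of a family with a parameter**: the four kinds on the lines of `P`, the strings also on `-11/8 l`, the
half quanta alone on `5/4 l`, `5/8 l`, `-11/4 l`, with a captured quantum on `-11/4 l`; charge `Q` -/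
structure ClsH (P : PHK.Par6) (U : Set ℂ) (κ Q : ℝ) (X Y : ℂ → Option O3 → ℂ → ℂ) (kF kP kF' kP' : ℂ → ℂ → ℂ) :
    Prop where
  fX : FamH U true (KP6 P) κ Q X
  fY : FamH U false (KP6 P) κ Q Y
  XS : LnH1 U {-(11 / 8) * l} (2 * Q * sc4 true (some .S)) fun θ => X θ (some .S)
  YS : LnH1 U {-(11 / 8) * l} (2 * Q * sc4 false (some .S)) fun θ => Y θ (some .S)
  kF : LnH1 U {5 / 4 * l, 5 / 8 * l, -(11 / 4) * l} (κ + Q) kF
  kP : LnH1 U {-(11 / 4) * l} (κ - Q) kP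
  kF' : LnH1 U {5 / 4 * l, 5 / 8 * l, -(11 / 4) * l} (κ - Q) kF'
  kP' : LnH1 U {-(11 / 4) * l} (κ + Q) kP'

theorem kT_hol {U : Set ℂ} {κ q : ℝ} {f g h : ℂ → ℂ → ℂ} (hf : LnH1 U {5 / 4 * l, 5 / 8 * l, -(11 / 4) * l} (κ + q) f)
    (hg : LnH1 U {-(11 / 4) * l} (κ - q) g) (hh : LnH1 U {-(11 / 8) * l} (-(4 * q)) h) (t : HT) :
    LnH1 U {PHK.lnT t} (κ + 2 * q * PHK.cwT t) fun θ => kT (f θ) (g θ) (h θ) t := by
  cases t
  · refine (hf.mono ?_).rate (le_of_eq ?_)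
    · intro x hx
      exact Or.inl hx
    · simp only [PHK.cwT]
      ring
  · refine (hf.mono ?_).rate (le_of_eq ?_)
    · intro x hx
      exact Or.inr (Or.inr hx)
    · simp only [PHK.cwT]
      ring
  · refine hg.rate (le_of_eq ?_)
    simp only [PHK.cwT]
    ring
  · have h1 : LnH1 U {5 / 8 * l} (κ + q) f := hf.mono fun x hx => Or.inr (Or.inl hx)
    have h2 := hh.shift (K := {5 / 8 * l}) (-(2 * l)) (fun x hx => by
      rw [Set.mem_singleton_iff.1 hx, Set.mem_singleton_iff]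
      ring)
    have h3 := (h2.cmul (-(2 * Real.pi * rD (2 * l) * wt .S))).mul h1
    refine (h3.rate (κ' := κ + 2 * q * PHK.cwT .H) (le_of_eq ?_)).congr' ?_
    · simp only [PHK.cwT]
      ring
    · intro θ z
      simp only [kT]
      push_cast
      rw [sub_eq_add_neg]
      ring

variable {X Y : ℂ → Option O3 → ℂ → ℂ} {kF kP kF' kP' : ℂ → ℂ → ℂ} {κ Q : ℝ} {n n' : ℕ} {θ0 : ℂ} {R : ℝ}

theorem spV_hl (hP : InV P) {b cw : ℝ} {S : Sp} (v : PHK.SpV b cw S) (c : Bool) (k : Option O3) (x : ℝ)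
    (hx : x ∈ KP6 P k) : Bdd {b - x} (2 * (cw * sc4 c k)) (S c k) := by
  refine Bdd.mono_set (v.pb c k).1 fun y hy => ?_
  have h1 := hP.mem k hx
  rw [Set.mem_singleton_iff.1 hy]
  exact ⟨by linarith [h1.2], by linarith [h1.1]⟩

theorem lX6_mem (P : PHK.Par6) (p p' : ℕ) (k : Fin p → O3) (k' : Fin p' → O3) (i : Fin p) :
    PHK.lX6 P p p' k k' i ∈ KP6 P (some (k i)) := rfl

theorem lY6_mem (P : PHK.Par6) (p p' : ℕ) (k : Fin p → O3) (k' : Fin p' → O3) (i : Fin p') :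
    PHK.lY6 P p p' k k' i ∈ KP6 P (some (k' i)) := rfl

/-- **the final classes are analytic in the parameter** -/
theorem cF_hol (hP : InV P) (hκ : 0 < κ) (hQ : (n : ℝ) - n' = Q) (hR : 0 < R)
    (H : ClsH P (ball θ0 R) κ Q X Y kF kP kF' kP') (t t' : HT) :
    DifferentiableAt ℂ (fun θ => (cF (X θ) (Y θ) (kF θ) (kP θ) (kF' θ) (kP' θ) t t').val (X θ) (Y θ)
      (51 / 100 * l) n n' (PHK.lX6 P) (PHK.lY6 P)) θ0 := by
  have e : (fun θ => (cF (X θ) (Y θ) (kF θ) (kP θ) (kF' θ) (kP' θ) t t').val (X θ) (Y θ)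
      (51 / 100 * l) n n' (PHK.lX6 P) (PHK.lY6 P)) = fun θ =>
      if PHK.nqT t' ≤ n ∧ PHK.nqT t ≤ n' then ∫ y, JJ (X θ) (Y θ) (PHK.spT t) (fl (PHK.spT t')) (NUGC.gwc t t')
        (kT (kF θ) (kP θ) (Y θ (some .S)) t) (kT (kF' θ) (kP' θ) (X θ (some .S)) t') (51 / 100 * l)
        (n - PHK.nqT t') (n' - PHK.nqT t) (PHK.lX6 P) (PHK.lY6 P) (PHK.lnT t) (PHK.lnT t') y
          ∂(volume.prod volume) else 0 := by
    funext θ
    rw [CD.val_JJ, PHK.cF_S, PHK.cF_S', PHK.cF_a, PHK.cF_b, PHK.cF_dX, PHK.cF_dY, NUGC.cF_gw, cF_K, cF_K']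
  rw [e]
  by_cases h : PHK.nqT t' ≤ n ∧ PHK.nqT t ≤ n'
  swap
  · simp only [if_neg h]
    exact differentiableAt_const _
  simp only [if_pos h]
  have s1 : 2 * Q * sc4 true (some .S) = -(4 * -Q) := by
    simp only [sc4, sc, ob4, ob3, chg, Option.elim]
    norm_num
    ring
  have s2 : 2 * Q * sc4 false (some .S) = -(4 * Q) := by
    simp only [sc4, sc, ob4, ob3, chg, Option.elim]
    norm_num
    ring
  refine JJ_hol (cw := PHK.cwT t) (cw' := -PHK.cwT t') (Q := Q) hP.lok hκ ?_ hR H.fX H.fY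
    ⟨(PHK.spV_T t).ms, spV_hl hP (PHK.spV_T t), kT_hol H.kF H.kP (by rw [← s2]; exact H.YS) t⟩
    ⟨(PHK.spV_T t').flip.ms, spV_hl hP (PHK.spV_T t').flip, ?_⟩ (measurable_gwc t t') (bdd_gwc t t') rfl
    (lX6_mem P) (lY6_mem P)
  · rw [Nat.cast_sub h.1, Nat.cast_sub h.2, PHK.cwT_eq, PHK.cwT_eq]
    linarith
  · have := kT_hol (κ := κ) (q := -Q) (f := kF') (g := kP') (h := fun θ => X θ (some .S))
      (by rw [← sub_eq_add_neg]; exact H.kF') (by rw [sub_neg_eq_add]; exact H.kP')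
      (by rw [← s1]; exact H.XS) t'
    rw [show κ + 2 * Q * -PHK.cwT t' = κ + 2 * -Q * PHK.cwT t' by ring]
    exact this

/-- a weight -/
def wtJ (κ : ℝ) (z : ℂ) : ℂ := ((Real.exp (-(κ * |z.im|)) : ℝ) : ℂ)

theorem wtJ_hol (U : Set ℂ) (κ b : ℝ) : LnH1 U {b} κ fun _ => wtJ κ where
  ms _ _ := by
    unfold wtJ
    fun_prop
  df _ _ _ _ := differentiableAt_const _
  bd := ⟨1, fun θ _ z _ => by
    unfold wtJ
    rw [Complex.norm_real, Real.norm_eq_abs, abs_of_pos (Real.exp_pos _), one_mul]⟩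

theorem wtJ_int {κ : ℝ} (hκ : 0 < κ) : ∫ y : ℝ, wtJ κ (vl 0 y) ≠ 0 := by
  have e : ∀ y : ℝ, wtJ κ (vl 0 y) = ((Real.exp (-(κ * |y|)) : ℝ) : ℂ) := fun y => by
    unfold wtJ
    rw [im_vl]
  simp only [e]
  rw [integral_complex_ofReal]
  have h1 : Integrable fun y : ℝ => Real.exp (-(κ * |y|)) := NUP1.Bd.integrable_exp_neg_abs hκ
  have h2 : 0 < ∫ y : ℝ, Real.exp (-(κ * |y|)) := by
    refine (integral_pos_iff_support_of_nonneg (fun y => (Real.exp_pos _).le) h1).2 ?_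
    have : Function.support (fun y : ℝ => Real.exp (-(κ * |y|))) = Set.univ := by
      ext y
      simp [(Real.exp_pos _).ne']
    rw [this]
    simp
  exact_mod_cast h2.ne'

/-- **a class with one line is analytic in the parameter** -/
theorem cD1_hol (hP : InV P) (hκ : 0 < κ) (hQ : (n : ℝ) - n' = Q) (hR : 0 < R)
    (hX : FamH (ball θ0 R) true (KP6 P) κ Q X) (hY : FamH (ball θ0 R) false (KP6 P) κ Q Y)
    {K : ℂ → ℂ → ℂ} {S : Sp} {a : ℝ} (hS : HLnH (ball θ0 R) (KP6 P) κ Q 0 a S K) :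
    DifferentiableAt ℂ (fun θ => (CD1.mk (K θ) S a).val (X θ) (Y θ) (51 / 100 * l) n n' (PHK.lX6 P) (PHK.lY6 P))
      θ0 := by
  have hS' : HLnH (ball θ0 R) (KP6 P) κ Q 0 0 (fun _ _ _ => 1) fun _ => wtJ κ :=
    ⟨fun _ _ => measurable_const, spV_hl hP (PHK.spV_one 0), by
      rw [mul_zero, add_zero]
      exact wtJ_hol _ _ _⟩
  have h := JJ_hol (cw := 0) (cw' := 0) (gw := fun _ => 1) (Q := Q) (n := n) (n' := n') hP.lok hκ (by linarith) hR
    hX hY hS hS' measurable_const ⟨1, zero_le_one, fun z _ => by simp⟩ (α := 51 / 100 * l) rfl (lX6_mem P)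
    (lY6_mem P)
  have hW := wtJ_int hκ
  refine (h.const_mul (∫ y : ℝ, wtJ κ (vl 0 y))⁻¹).congr_of_eventuallyEq (Filter.Eventually.of_forall fun θ => ?_)
  have e : ∀ y : ℝ × ℝ, JJ (X θ) (Y θ) S (fun _ _ _ => 1) (fun _ => 1) (K θ) (wtJ κ) (51 / 100 * l) n n'
      (PHK.lX6 P) (PHK.lY6 P) a 0 y = ((CD1.mk (K θ) S a).K (vl a y.1) * (CD1.mk (K θ) S a).Z (X θ) (Y θ)
        (51 / 100 * l) n n' (PHK.lX6 P) (PHK.lY6 P) (vl a y.1)) * wtJ κ (vl 0 y.2) := by
    intro y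
    unfold JJ Pre CD1.Z
    have e1 : ∀ (c : Bool) (X : Option O3 → ℂ → ℂ) (w w' : ℂ), XS c X S (fun _ _ _ => 1) w w' =
        XS c X S (fun _ _ _ => 1) w 0 := fun c X w w' => rfl
    rw [e1 true, e1 false]
    ring
  have e2 := integral_prod_mul (μ := (volume : Measure ℝ)) (ν := (volume : Measure ℝ)) (fun y : ℝ =>
    (CD1.mk (K θ) S a).K (vl a y) * (CD1.mk (K θ) S a).Z (X θ) (Y θ) (51 / 100 * l) n n' (PHK.lX6 P) (PHK.lY6 P)
      (vl a y)) (fun y => wtJ κ (vl 0 y))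
  show (CD1.mk (K θ) S a).val (X θ) (Y θ) (51 / 100 * l) n n' (PHK.lX6 P) (PHK.lY6 P) = _
  beta_reduce
  rw [integral_congr_ae (Filter.Eventually.of_forall e), e2, mul_comm (∫ y : ℝ, wtJ κ (vl 0 y))⁻¹,
    mul_assoc, mul_inv_cancel₀ hW, mul_one]
  rfl

end cls

end PLTX

end
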