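import Mathlib

/-!
# Two constants on a thin neighbourhood of an interval

`f` analytic and `‖f‖ ≤ M` for `a - δ < Re z < b + δ`, `|Im z| < δ`; `‖f x‖ ≤ ε` for real `x ∈ [a, a + d]`.
Then `‖f x‖ ≤ ε ^ ω * M ^ (1 - ω)` on `[a, b]`, `ω = ω (a, b, d, δ) > 0`.

Proof: `ζ ↦ f (m + (s / 2) cosh ζ)` and the three lines theorem, `K` steps of length `s / 8`.
-/

set_option autoImplicit false

noncomputable section

open Set Filter Topology

namespace PLT.TwoC

/-- the rectangle -/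
def Rc (a b δ : ℝ) : Set ℂ := {z | a - δ < z.re ∧ z.re < b + δ ∧ |z.im| < δ}

theorem norm_cosh_le (z : ℂ) : ‖Complex.cosh z‖ ≤ Real.cosh z.re := by
  rw [Complex.cosh, Real.cosh_eq]
  have h1 : ‖Complex.exp z + Complex.exp (-z)‖ ≤ Real.exp z.re + Real.exp (-z.re) := by
    refine (norm_add_le _ _).trans ?_
    rw [Complex.norm_exp, Complex.norm_exp, Complex.neg_re]
  rw [norm_div]
  have h2 : ‖(2 : ℂ)‖ = 2 := by norm_num
  rw [h2]
  exact div_le_div_of_nonneg_right h1 (by norm_num)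

/-- **one step** -/
theorem step {f : ℂ → ℂ} {m s δ ε M : ℝ} (hs : 0 < s) (hsδ : 17 / 16 * s < δ)
    (hf : ∀ z : ℂ, ‖z - m‖ < δ → DifferentiableAt ℂ f z) (hM : ∀ z : ℂ, ‖z - m‖ < δ → ‖f z‖ ≤ M)
    (hε : ∀ x : ℝ, |x - m| ≤ s / 2 → ‖f x‖ ≤ ε) :
    ‖f ((m + 5 / 8 * s : ℝ) : ℂ)‖ ≤ ε ^ (1 / 2 : ℝ) * M ^ (1 / 2 : ℝ) := by
  set L : ℝ := Real.log 4 with hL
  have hL0 : 0 < L := Real.log_pos (by norm_num)
  set Φ : ℂ → ℂ := fun ζ => f (m + (s / 2 : ℝ) * Complex.cosh ((L : ℂ) * ζ)) with hΦ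
  have hc4 : Real.cosh L = 17 / 8 := by
    rw [Real.cosh_eq, Real.exp_neg, hL, Real.exp_log (by norm_num)]
    norm_num
  have hc2 : Real.cosh (L * (1 / 2)) = 5 / 4 := by
    have : L * (1 / 2) = Real.log 2 := by
      rw [hL, show (4 : ℝ) = 2 ^ 2 by norm_num, Real.log_pow]
      push_cast
      ring
    rw [this, Real.cosh_eq, Real.exp_neg, Real.exp_log (by norm_num)]
    norm_num
  have hin : ∀ ζ : ℂ, 0 ≤ ζ.re → ζ.re ≤ 1 →
      ‖(m + (s / 2 : ℝ) * Complex.cosh ((L : ℂ) * ζ) : ℂ) - m‖ < δ := by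
    intro ζ h0 h1
    rw [add_sub_cancel_left, norm_mul, Complex.norm_real, Real.norm_eq_abs,
      abs_of_pos (by linarith)]
    have e1 : ((L : ℂ) * ζ).re = L * ζ.re := by simp
    have h2 := norm_cosh_le ((L : ℂ) * ζ)
    rw [e1] at h2
    have h3 : Real.cosh (L * ζ.re) ≤ Real.cosh L := by
      rw [Real.cosh_le_cosh, abs_of_nonneg (mul_nonneg hL0.le h0), abs_of_pos hL0]
      nlinarith
    calc s / 2 * ‖Complex.cosh ((L : ℂ) * ζ)‖ ≤ s / 2 * (17 / 8) :=
          mul_le_mul_of_nonneg_left ((h2.trans h3).trans_eq hc4) (by linarith)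
      _ = 17 / 16 * s := by ring
      _ < δ := hsδ
  have hdiff : ∀ ζ : ℂ, 0 ≤ ζ.re → ζ.re ≤ 1 → DifferentiableAt ℂ Φ ζ := by
    intro ζ h0 h1
    have h2 := hf _ (hin ζ h0 h1)
    have h3 : DifferentiableAt ℂ (fun ζ : ℂ => (m + (s / 2 : ℝ) * Complex.cosh ((L : ℂ) * ζ) : ℂ)) ζ := by
      fun_prop
    exact DifferentiableAt.comp ζ h2 h3
  have hcl : Complex.HadamardThreeLines.verticalClosedStrip 0 1 = {ζ : ℂ | 0 ≤ ζ.re ∧ ζ.re ≤ 1} := by
    ext ζ
    simp [Complex.HadamardThreeLines.verticalClosedStrip]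
  have hd : DiffContOnCl ℂ Φ (Complex.HadamardThreeLines.verticalStrip 0 1) := by
    refine ⟨fun ζ hζ => ?_, fun ζ hζ => ?_⟩
    · have h : 0 < ζ.re ∧ ζ.re < 1 := by
        simpa [Complex.HadamardThreeLines.verticalStrip] using hζ
      exact (hdiff ζ h.1.le h.2.le).differentiableWithinAt
    · have h : 0 ≤ ζ.re ∧ ζ.re ≤ 1 := by
        have h1 : closure (Complex.HadamardThreeLines.verticalStrip 0 1) ⊆
            {ζ : ℂ | 0 ≤ ζ.re ∧ ζ.re ≤ 1} := by
          refine closure_minimal ?_ ?_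
          · intro ζ hζ
            have h : 0 < ζ.re ∧ ζ.re < 1 := by
              simpa [Complex.HadamardThreeLines.verticalStrip] using hζ
            exact ⟨h.1.le, h.2.le⟩
          · exact (isClosed_le continuous_const Complex.continuous_re).inter
              (isClosed_le Complex.continuous_re continuous_const)
        exact h1 hζ
      exact (hdiff ζ h.1 h.2).continuousAt.continuousWithinAt
  have hB : BddAbove ((norm ∘ Φ) '' Complex.HadamardThreeLines.verticalClosedStrip 0 1) := by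
    refine ⟨M, ?_⟩
    rintro _ ⟨ζ, hζ, rfl⟩
    rw [hcl] at hζ
    exact hM _ (hin ζ hζ.1 hζ.2)
  have ha : ∀ ζ ∈ Complex.re ⁻¹' {0}, ‖Φ ζ‖ ≤ ε := by
    intro ζ hζ
    have h0 : ζ.re = 0 := hζ
    have e1 : Complex.cosh ((L : ℂ) * ζ) = ((Real.cos (L * ζ.im) : ℝ) : ℂ) := by
      have : (L : ℂ) * ζ = ((L * ζ.im : ℝ) : ℂ) * Complex.I := by
        apply Complex.ext <;> simp [h0]
      rw [this, Complex.cosh_mul_I, Complex.ofReal_cos]
    have e2 : (m + (s / 2 : ℝ) * Complex.cosh ((L : ℂ) * ζ) : ℂ) =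
        ((m + s / 2 * Real.cos (L * ζ.im) : ℝ) : ℂ) := by
      rw [e1]
      push_cast
      ring
    show ‖f _‖ ≤ ε
    rw [e2]
    refine hε _ ?_
    rw [add_sub_cancel_left, abs_mul, abs_of_pos (by linarith : 0 < s / 2)]
    calc s / 2 * |Real.cos (L * ζ.im)| ≤ s / 2 * 1 :=
          mul_le_mul_of_nonneg_left (Real.abs_cos_le_one _) (by linarith)
      _ = s / 2 := mul_one _
  have hb : ∀ ζ ∈ Complex.re ⁻¹' {1}, ‖Φ ζ‖ ≤ M := by
    intro ζ hζ
    have h0 : ζ.re = 1 := hζ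
    exact hM _ (hin ζ (by rw [h0]; norm_num) (by rw [h0]))
  have hz : ((1 / 2 : ℝ) : ℂ) ∈ Complex.HadamardThreeLines.verticalClosedStrip 0 1 := by
    rw [hcl]
    constructor <;> norm_num [Complex.ofReal_re]
  have main := Complex.HadamardThreeLines.norm_le_interp_of_mem_verticalClosedStrip'
    (by norm_num : (0 : ℝ) < 1) hz hd hB ha hb
  have e3 : Φ ((1 / 2 : ℝ) : ℂ) = f ((m + 5 / 8 * s : ℝ) : ℂ) := by
    show f _ = f _
    congr 1
    have : (L : ℂ) * ((1 / 2 : ℝ) : ℂ) = ((L * (1 / 2) : ℝ) : ℂ) := by push_cast; ring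
    rw [this, ← Complex.ofReal_cosh, hc2]
    push_cast
    ring
  rw [e3, Complex.ofReal_re] at main
  have e4 : (1 : ℝ) - (1 / 2 - 0) / (1 - 0) = 1 / 2 := by norm_num
  have e5 : ((1 : ℝ) / 2 - 0) / (1 - 0) = 1 / 2 := by norm_num
  rw [e4, e5] at main
  exact main

/-- **two constants** -/
theorem two_const {a b d δ : ℝ} (hd : 0 < d) (hδ : 0 < δ) : ∃ ω : ℝ, 0 < ω ∧ ω ≤ 1 ∧
    ∀ (f : ℂ → ℂ) (ε M : ℝ), 0 < ε → ε ≤ M → (∀ z ∈ Rc a b δ, DifferentiableAt ℂ f z) →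
      (∀ z ∈ Rc a b δ, ‖f z‖ ≤ M) → (∀ x : ℝ, a ≤ x → x ≤ b → x ≤ a + d → ‖f x‖ ≤ ε) →
      ∀ x : ℝ, a ≤ x → x ≤ b → ‖f x‖ ≤ ε ^ ω * M ^ (1 - ω) := by
  set s : ℝ := min (d / 2) (δ / 2) with hs
  have hs0 : 0 < s := lt_min (by linarith) (by linarith)
  have hsd : 9 / 8 * s ≤ d := by
    have := min_le_left (d / 2) (δ / 2)
    rw [← hs] at this
    linarith
  have hsδ : 17 / 16 * s < δ := by
    have := min_le_right (d / 2) (δ / 2)
    rw [← hs] at this
    nlinarith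
  obtain ⟨K, hK⟩ := exists_nat_gt ((b - a) / (s / 8))
  refine ⟨(1 / 2 : ℝ) ^ K, by positivity, pow_le_one₀ (by norm_num) (by norm_num), ?_⟩
  intro f ε M hε hεM hf hM h0
  have hM0 : 0 < M := hε.trans_le hεM
  -- the bounds are monotone
  have hmono : ∀ k k' : ℕ, k ≤ k' → ε ^ ((1 / 2 : ℝ) ^ k) * M ^ (1 - (1 / 2 : ℝ) ^ k) ≤
      ε ^ ((1 / 2 : ℝ) ^ k') * M ^ (1 - (1 / 2 : ℝ) ^ k') := by
    intro k k' hk
    have h1 : (1 / 2 : ℝ) ^ k' ≤ (1 / 2 : ℝ) ^ k :=
      pow_le_pow_of_le_one (by norm_num) (by norm_num) hk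
    have e : ∀ r : ℝ, ε ^ r * M ^ (1 - r) = M * (ε / M) ^ r := by
      intro r
      rw [Real.div_rpow hε.le hM0.le, Real.rpow_sub hM0, Real.rpow_one]
      have := (Real.rpow_pos_of_pos hM0 r).ne'
      field_simp
    rw [e, e]
    refine mul_le_mul_of_nonneg_left ?_ hM0.le
    exact Real.rpow_le_rpow_of_exponent_ge (div_pos hε hM0) ((div_le_one hM0).2 hεM) h1
  have key : ∀ k : ℕ, ∀ x : ℝ, a ≤ x → x ≤ b → x ≤ a + 9 / 8 * s + k * (s / 8) →
      ‖f x‖ ≤ ε ^ ((1 / 2 : ℝ) ^ k) * M ^ (1 - (1 / 2 : ℝ) ^ k) := by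
    intro k
    induction k with
    | zero =>
      intro x h1 h2 h3
      rw [pow_zero, sub_self, Real.rpow_zero, Real.rpow_one, mul_one]
      refine h0 x h1 h2 ?_
      push_cast at h3
      linarith
    | succ k ih =>
      intro x h1 h2 h3
      by_cases h4 : x ≤ a + 9 / 8 * s + k * (s / 8)
      · exact (ih x h1 h2 h4).trans (hmono _ _ (Nat.le_succ k))
      · rw [not_le] at h4
        have hk0 : (0 : ℝ) ≤ k * (s / 8) := by positivity
        set m : ℝ := x - 5 / 8 * s with hm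
        have hm1 : a ≤ m := by
          rw [hm]
          linarith
        have hm2 : m ≤ b := by
          rw [hm]
          linarith
        have hball : ∀ z : ℂ, ‖z - m‖ < δ → z ∈ Rc a b δ := by
          intro z hz
          have r1 := (Complex.abs_re_le_norm (z - m)).trans_lt hz
          have r2 := (Complex.abs_im_le_norm (z - m)).trans_lt hz
          rw [Complex.sub_re, Complex.ofReal_re, abs_lt] at r1
          rw [Complex.sub_im, Complex.ofReal_im, sub_zero] at r2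
          exact ⟨by linarith [r1.1], by linarith [r1.2], r2⟩
        have st := step (f := f) (m := m) (s := s) (δ := δ)
          (ε := ε ^ ((1 / 2 : ℝ) ^ k) * M ^ (1 - (1 / 2 : ℝ) ^ k)) (M := M) hs0 hsδ
          (fun z hz => hf z (hball z hz)) (fun z hz => hM z (hball z hz)) (by
            intro u hu
            rw [abs_le] at hu
            have hx : (k + 1 : ℕ) * (s / 8) = k * (s / 8) + s / 8 := by
              push_cast
              ring
            rw [hx] at h3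
            refine ih u ?_ ?_ ?_
            · rw [hm] at hu
              linarith [hu.1]
            · rw [hm] at hu
              linarith [hu.2]
            · rw [hm] at hu
              linarith [hu.2])
        have ex : m + 5 / 8 * s = x := by
          rw [hm]
          ring
        rw [ex] at st
        refine st.trans (le_of_eq ?_)
        rw [Real.mul_rpow (Real.rpow_nonneg hε.le _) (Real.rpow_nonneg hM0.le _),
          ← Real.rpow_mul hε.le, ← Real.rpow_mul hM0.le, mul_assoc, ← Real.rpow_add hM0]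
        congr 2
        rw [pow_succ]
        ring
  intro x h1 h2
  refine key K x h1 h2 ?_
  have h3 : b - a ≤ K * (s / 8) := by
    rw [div_lt_iff₀ (by linarith)] at hK
    exact hK.le
  linarith

/-- **the form with a large parameter** -/
theorem two_constN {a b d δ c : ℝ} (hd : 0 < d) (hδ : 0 < δ) (hc : 0 < c) : ∃ ep c' : ℝ, 0 < ep ∧
    0 < c' ∧ ∀ (f : ℂ → ℂ) (C N : ℝ), 0 < C → 1 ≤ N →
      (∀ z ∈ Rc a b δ, DifferentiableAt ℂ f z) → (∀ z ∈ Rc a b δ, ‖f z‖ ≤ C * N ^ ep) →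
      (∀ x : ℝ, a ≤ x → x ≤ b → x ≤ a + d → ‖f x‖ ≤ C * N ^ (-c)) →
      ∀ x : ℝ, a ≤ x → x ≤ b → ‖f x‖ ≤ C * N ^ (-c') := by
  obtain ⟨ω, hω, hω1, h⟩ := two_const (a := a) (b := b) hd hδ
  refine ⟨c * ω / 2, c * ω / 2, by positivity, by positivity, ?_⟩
  intro f C N hC hN hf hM h0 x h1 h2
  have hN0 : 0 < N := by linarith
  have hcω : 0 < c * ω := mul_pos hc hω
  have m1 := h f (C * N ^ (-c)) (C * N ^ (c * ω / 2))
    (mul_pos hC (Real.rpow_pos_of_pos hN0 _))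
    (mul_le_mul_of_nonneg_left (Real.rpow_le_rpow_of_exponent_le hN (by linarith)) hC.le)
    hf hM h0 x h1 h2
  refine m1.trans ?_
  rw [Real.mul_rpow hC.le (Real.rpow_nonneg hN0.le _), Real.mul_rpow hC.le
    (Real.rpow_nonneg hN0.le _), ← Real.rpow_mul hN0.le, ← Real.rpow_mul hN0.le,
    mul_mul_mul_comm, ← Real.rpow_add hC, ← Real.rpow_add hN0]
  have e1 : ω + (1 - ω) = 1 := by ring
  rw [e1, Real.rpow_one]
  refine mul_le_mul_of_nonneg_left (Real.rpow_le_rpow_of_exponent_le hN ?_) hC.le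
  nlinarith

end PLT.TwoC

end
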