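import Mathlib

/-!
# The path of contents for complex separation

`A, B > 0` weights, `D : ℂ` separation in file units (`w = 8 / 3`, `l = π / 8`), places `- ppc`, `qqc`.

* `zp, zm = A + B exp (± i w D)`; `ppc = (log zp - log zm) / (2 i w)`, `qqc = D - ppc`,
  `VVc = exp ((log zp + log zm) / 2)`; everything is analytic on `|w Re D| ≤ π / 2`;
* `ppc_real`, `qqc_real`, `VVc_real` : real separation: `(3/8) arctan (B sin (w D) / (A + B cos (w D)))`,
  `√(A² + B² + 2 A B cos (w D))`;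
* **`balance`** : `A sin (w p) = B sin (w q)`; `VVc_sq`, `VVc_eq : V = A cos (w p) + B cos (w q)`;
* `hasDerivAt_ppc : p' = B cos (w q) / V`; **`ppc_near`**, `VVc_near` : distance to the real path `≤ C |Im D|`.
-/

set_option autoImplicit false

noncomputable section

open Complex

namespace PLT.PaD

/-- `A + B e^{i w D}` -/
def zp (A B : ℝ) (D : ℂ) : ℂ := A + B * exp (8 / 3 * D * I)

/-- `A + B e^{- i w D}` -/
def zm (A B : ℝ) (D : ℂ) : ℂ := A + B * exp (-(8 / 3 * D * I))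

/-- the place of the first rows is `- ppc` -/
def ppc (A B : ℝ) (D : ℂ) : ℂ := 3 / 16 * (-I * (log (zp A B D) - log (zm A B D)))

/-- the place of the second rows -/
def qqc (A B : ℝ) (D : ℂ) : ℂ := D - ppc A B D

/-- the norm of the content -/
def VVc (A B : ℝ) (D : ℂ) : ℂ := exp ((log (zp A B D) + log (zm A B D)) / 2)

variable {A B : ℝ} {D : ℂ}

theorem exp_re (D : ℂ) : (exp (8 / 3 * D * I)).re = Real.exp (-(8 / 3 * D.im)) * Real.cos (8 / 3 * D.re) := by
  rw [Complex.exp_re]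
  have e1 : (8 / 3 * D * I).re = -(8 / 3 * D.im) := by
    rw [mul_re, I_re, I_im, mul_zero, zero_sub, mul_one, show (8 / 3 : ℂ) = ((8 / 3 : ℝ) : ℂ) by push_cast; rfl,
      im_ofReal_mul]
  have e2 : (8 / 3 * D * I).im = 8 / 3 * D.re := by
    rw [mul_im, I_re, I_im, mul_zero, add_zero, mul_one, show (8 / 3 : ℂ) = ((8 / 3 : ℝ) : ℂ) by push_cast; rfl,
      re_ofReal_mul]
  rw [e1, e2]

theorem zp_re (hB : 0 < B) (hD : |8 / 3 * D.re| ≤ Real.pi / 2) : A ≤ (zp A B D).re := by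
  unfold zp
  rw [add_re, ofReal_re, re_ofReal_mul, exp_re]
  have h1 : 0 ≤ Real.cos (8 / 3 * D.re) := Real.cos_nonneg_of_mem_Icc
    ⟨by linarith [(abs_le.1 hD).1], (abs_le.1 hD).2⟩
  have h2 := Real.exp_pos (-(8 / 3 * D.im))
  have : 0 ≤ B * (Real.exp (-(8 / 3 * D.im)) * Real.cos (8 / 3 * D.re)) := by positivity
  linarith

theorem zm_zp (A B : ℝ) (D : ℂ) : zm A B D = zp A B (-D) := by
  unfold zm zp
  congr 3
  ring

theorem zm_re (hB : 0 < B) (hD : |8 / 3 * D.re| ≤ Real.pi / 2) : A ≤ (zm A B D).re := by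
  rw [zm_zp]
  refine zp_re hB ?_
  rw [neg_re, mul_neg, abs_neg]
  exact hD

theorem slit_p (hA : 0 < A) (hB : 0 < B) (hD : |8 / 3 * D.re| ≤ Real.pi / 2) : zp A B D ∈ slitPlane :=
  Or.inl (lt_of_lt_of_le hA (zp_re hB hD))

theorem slit_m (hA : 0 < A) (hB : 0 < B) (hD : |8 / 3 * D.re| ≤ Real.pi / 2) : zm A B D ∈ slitPlane :=
  Or.inl (lt_of_lt_of_le hA (zm_re hB hD))

theorem exp_log_p (hA : 0 < A) (hB : 0 < B) (hD : |8 / 3 * D.re| ≤ Real.pi / 2) :
    exp (log (zp A B D)) = zp A B D := Complex.exp_log (slitPlane_ne_zero (slit_p hA hB hD))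

theorem exp_log_m (hA : 0 < A) (hB : 0 < B) (hD : |8 / 3 * D.re| ≤ Real.pi / 2) :
    exp (log (zm A B D)) = zm A B D := Complex.exp_log (slitPlane_ne_zero (slit_m hA hB hD))

theorem hasDerivAt_zp (A B : ℝ) (D : ℂ) :
    HasDerivAt (zp A B) (B * (exp (8 / 3 * D * I) * (8 / 3 * I))) D := by
  have h1 : HasDerivAt (fun D : ℂ => 8 / 3 * D * I) (8 / 3 * I) D := by
    have := ((hasDerivAt_id D).const_mul (8 / 3 : ℂ)).mul_const I
    simpa using this
  unfold zp
  exact (h1.cexp.const_mul (B : ℂ)).const_add _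

theorem hasDerivAt_zm (A B : ℝ) (D : ℂ) :
    HasDerivAt (zm A B) (B * (exp (-(8 / 3 * D * I)) * (-(8 / 3 * I)))) D := by
  have h1 : HasDerivAt (fun D : ℂ => -(8 / 3 * D * I)) (-(8 / 3 * I)) D := by
    have := (((hasDerivAt_id D).const_mul (8 / 3 : ℂ)).mul_const I).fun_neg
    simpa using this
  unfold zm
  exact (h1.cexp.const_mul (B : ℂ)).const_add _

/-- the exponential of the place -/
theorem exp_2p (hA : 0 < A) (hB : 0 < B) (hD : |8 / 3 * D.re| ≤ Real.pi / 2) :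
    exp (2 * (8 / 3 * ppc A B D * I)) * zm A B D = zp A B D := by
  have e : 2 * (8 / 3 * ppc A B D * I) = log (zp A B D) - log (zm A B D) := by
    unfold ppc
    linear_combination (-(log (zp A B D) - log (zm A B D))) * I_sq
  rw [e, Complex.exp_sub, exp_log_p hA hB hD, exp_log_m hA hB hD,
    div_mul_cancel₀ _ (slitPlane_ne_zero (slit_m hA hB hD))]

/-- `e^{i w p} V = zp`, `e^{- i w p} V = zm` -/
theorem exp_p (hA : 0 < A) (hB : 0 < B) (hD : |8 / 3 * D.re| ≤ Real.pi / 2) :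
    exp (8 / 3 * ppc A B D * I) * VVc A B D = zp A B D ∧
      exp (-(8 / 3 * ppc A B D * I)) * VVc A B D = zm A B D := by
  have hp := exp_log_p hA hB hD
  have hm := exp_log_m hA hB hD
  have e : 8 / 3 * ppc A B D * I = (log (zp A B D) - log (zm A B D)) / 2 := by
    unfold ppc
    linear_combination (-(log (zp A B D) - log (zm A B D)) / 2) * I_sq
  unfold VVc
  rw [e, ← Complex.exp_add, ← Complex.exp_add]
  obtain ⟨a, ha⟩ : ∃ a, a = log (zp A B D) := ⟨_, rfl⟩
  obtain ⟨b, hb⟩ : ∃ b, b = log (zm A B D) := ⟨_, rfl⟩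
  rw [← ha] at hp ⊢
  rw [← hb] at hm ⊢
  rw [show (a - b) / 2 + (a + b) / 2 = a by ring, show -((a - b) / 2) + (a + b) / 2 = b by ring]
  exact ⟨hp, hm⟩

theorem VVc_ne (A B : ℝ) (D : ℂ) : VVc A B D ≠ 0 := Complex.exp_ne_zero _

/-- square of the norm -/
theorem VVc_sq (hA : 0 < A) (hB : 0 < B) (hD : |8 / 3 * D.re| ≤ Real.pi / 2) :
    VVc A B D ^ 2 = A ^ 2 + B ^ 2 + 2 * A * B * cos (8 / 3 * D) := by
  obtain ⟨h1, h2⟩ := exp_p hA hB hD
  have h3 : VVc A B D ^ 2 = zp A B D * zm A B D := by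
    rw [← h1, ← h2]
    have e : exp (8 / 3 * ppc A B D * I) * exp (-(8 / 3 * ppc A B D * I)) = 1 := by
      rw [← Complex.exp_add, add_neg_cancel, Complex.exp_zero]
    linear_combination (-(VVc A B D ^ 2)) * e
  rw [h3]
  unfold zp zm Complex.cos
  have e : exp (8 / 3 * D * I) * exp (-(8 / 3 * D * I)) = 1 := by
    rw [← Complex.exp_add, add_neg_cancel, Complex.exp_zero]
  rw [show -(8 / 3 * D) * I = -(8 / 3 * D * I) by ring]
  linear_combination (B : ℂ) ^ 2 * e

theorem exp_q (A B : ℝ) (D : ℂ) :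
    exp (8 / 3 * qqc A B D * I) = exp (8 / 3 * D * I) * exp (-(8 / 3 * ppc A B D * I)) ∧
      exp (-(8 / 3 * qqc A B D * I)) = exp (-(8 / 3 * D * I)) * exp (8 / 3 * ppc A B D * I) := by
  unfold qqc
  rw [← Complex.exp_add, ← Complex.exp_add]
  constructor <;> congr 1 <;> ring

/-- **the balance** -/
theorem balance (hA : 0 < A) (hB : 0 < B) (hD : |8 / 3 * D.re| ≤ Real.pi / 2) :
    A * sin (8 / 3 * ppc A B D) = B * sin (8 / 3 * qqc A B D) := by
  obtain ⟨h1, h2⟩ := exp_p hA hB hD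
  obtain ⟨h3, h4⟩ := exp_q A B D
  have hV := VVc_ne A B D
  unfold Complex.sin
  rw [show -(8 / 3 * ppc A B D) * I = -(8 / 3 * ppc A B D * I) by ring,
    show -(8 / 3 * qqc A B D) * I = -(8 / 3 * qqc A B D * I) by ring, h3, h4]
  unfold zp at h1
  unfold zm at h2
  generalize exp (8 / 3 * ppc A B D * I) = X at *
  generalize exp (-(8 / 3 * ppc A B D * I)) = X' at *
  generalize exp (8 / 3 * D * I) = E at *
  generalize exp (-(8 / 3 * D * I)) = E' at *
  linear_combination (-I / 2) * (X' * h1 - X * h2)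

/-- the norm as a sum of projections -/
theorem VVc_eq (hA : 0 < A) (hB : 0 < B) (hD : |8 / 3 * D.re| ≤ Real.pi / 2) :
    VVc A B D = A * cos (8 / 3 * ppc A B D) + B * cos (8 / 3 * qqc A B D) := by
  obtain ⟨h1, h2⟩ := exp_p hA hB hD
  obtain ⟨h3, h4⟩ := exp_q A B D
  have e : exp (8 / 3 * ppc A B D * I) * exp (-(8 / 3 * ppc A B D * I)) = 1 := by
    rw [← Complex.exp_add, add_neg_cancel, Complex.exp_zero]
  unfold Complex.cos
  rw [show -(8 / 3 * ppc A B D) * I = -(8 / 3 * ppc A B D * I) by ring,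
    show -(8 / 3 * qqc A B D) * I = -(8 / 3 * qqc A B D * I) by ring, h3, h4]
  unfold zp at h1
  unfold zm at h2
  generalize exp (8 / 3 * ppc A B D * I) = X at *
  generalize exp (-(8 / 3 * ppc A B D * I)) = X' at *
  generalize exp (8 / 3 * D * I) = E at *
  generalize exp (-(8 / 3 * D * I)) = E' at *
  linear_combination (1 / 2) * (X' * h1 + X * h2) - VVc A B D * e

/-! ### derivatives -/

/-- **derivative of the place** -/
theorem hasDerivAt_ppc (hA : 0 < A) (hB : 0 < B) (hD : |8 / 3 * D.re| ≤ Real.pi / 2) :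
    HasDerivAt (ppc A B) (B * cos (8 / 3 * qqc A B D) / VVc A B D) D := by
  have d1 := (hasDerivAt_zp A B D).clog (slit_p hA hB hD)
  have d2 := (hasDerivAt_zm A B D).clog (slit_m hA hB hD)
  have d3 := (((d1.fun_sub d2).const_mul (-I)).const_mul (3 / 16 : ℂ))
  refine d3.congr_deriv ?_
  obtain ⟨h1, h2⟩ := exp_p hA hB hD
  obtain ⟨h3, h4⟩ := exp_q A B D
  have hV := VVc_ne A B D
  have n1 := slitPlane_ne_zero (slit_p hA hB hD)
  have n2 := slitPlane_ne_zero (slit_m hA hB hD)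
  have e : exp (8 / 3 * ppc A B D * I) * exp (-(8 / 3 * ppc A B D * I)) = 1 := by
    rw [← Complex.exp_add, add_neg_cancel, Complex.exp_zero]
  have hX := Complex.exp_ne_zero (8 / 3 * ppc A B D * I)
  have hX' := Complex.exp_ne_zero (-(8 / 3 * ppc A B D * I))
  unfold Complex.cos
  rw [show -(8 / 3 * qqc A B D) * I = -(8 / 3 * qqc A B D * I) by ring, h3, h4, ← h1, ← h2]
  generalize exp (8 / 3 * ppc A B D * I) = X at *
  generalize exp (-(8 / 3 * ppc A B D * I)) = X' at *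
  generalize exp (8 / 3 * D * I) = E at *
  generalize exp (-(8 / 3 * D * I)) = E' at *
  generalize VVc A B D = V at *
  have i1 : (X * V)⁻¹ = X' * V⁻¹ := by
    rw [mul_inv, inv_eq_of_mul_eq_one_right e]
  have i2 : (X' * V)⁻¹ = X * V⁻¹ := by
    rw [mul_inv, inv_eq_of_mul_eq_one_right (by rw [mul_comm]; exact e)]
  rw [div_eq_mul_inv _ (X * V), div_eq_mul_inv _ (X' * V), i1, i2, div_eq_mul_inv _ V]
  linear_combination (-(1 / 2) * B * (E * X' + E' * X) * V⁻¹) * I_sq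

theorem norm_exp_le (D : ℂ) : ‖exp (8 / 3 * D * I)‖ ≤ Real.exp (8 / 3 * |D.im|) ∧
    ‖exp (-(8 / 3 * D * I))‖ ≤ Real.exp (8 / 3 * |D.im|) := by
  have e1 : (8 / 3 * D * I).re = -(8 / 3 * D.im) := by
    rw [mul_re, I_re, I_im, mul_zero, zero_sub, mul_one, show (8 / 3 : ℂ) = ((8 / 3 : ℝ) : ℂ) by push_cast; rfl,
      im_ofReal_mul]
  have h1 := neg_abs_le D.im
  have h2 := le_abs_self D.im
  rw [Complex.norm_exp, Complex.norm_exp, neg_re, e1]
  exact ⟨Real.exp_le_exp.2 (by linarith), Real.exp_le_exp.2 (by linarith)⟩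

/-- bound of the derivative -/
theorem norm_deriv_le (hA : 0 < A) (hB : 0 < B) (hD : |8 / 3 * D.re| ≤ Real.pi / 2) :
    ‖(B * cos (8 / 3 * qqc A B D) / VVc A B D : ℂ)‖ ≤ B / A * Real.exp (8 / 3 * |D.im|) := by
  obtain ⟨h1, h2⟩ := exp_p hA hB hD
  obtain ⟨h3, h4⟩ := exp_q A B D
  have hV := VVc_ne A B D
  have n1 := slitPlane_ne_zero (slit_p hA hB hD)
  have n2 := slitPlane_ne_zero (slit_m hA hB hD)
  have r1 : A ≤ ‖zp A B D‖ := (zp_re hB hD).trans (Complex.re_le_norm _)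
  have r2 : A ≤ ‖zm A B D‖ := (zm_re hB hD).trans (Complex.re_le_norm _)
  have e : exp (8 / 3 * ppc A B D * I) * exp (-(8 / 3 * ppc A B D * I)) = 1 := by
    rw [← Complex.exp_add, add_neg_cancel, Complex.exp_zero]
  obtain ⟨g1, g2⟩ := norm_exp_le D
  have key : (B * cos (8 / 3 * qqc A B D) / VVc A B D : ℂ) =
      B / 2 * (exp (8 / 3 * D * I) / zp A B D + exp (-(8 / 3 * D * I)) / zm A B D) := by
    have hX := Complex.exp_ne_zero (8 / 3 * ppc A B D * I)
    have hX' := Complex.exp_ne_zero (-(8 / 3 * ppc A B D * I))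
    unfold Complex.cos
    rw [show -(8 / 3 * qqc A B D) * I = -(8 / 3 * qqc A B D * I) by ring, h3, h4, ← h1, ← h2]
    generalize exp (8 / 3 * ppc A B D * I) = X at *
    generalize exp (-(8 / 3 * ppc A B D * I)) = X' at *
    generalize exp (8 / 3 * D * I) = E at *
    generalize exp (-(8 / 3 * D * I)) = E' at *
    generalize VVc A B D = V at *
    have i1 : (X * V)⁻¹ = X' * V⁻¹ := by
      rw [mul_inv, inv_eq_of_mul_eq_one_right e]
    have i2 : (X' * V)⁻¹ = X * V⁻¹ := by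
      rw [mul_inv, inv_eq_of_mul_eq_one_right (by rw [mul_comm]; exact e)]
    rw [div_eq_mul_inv _ (X * V), div_eq_mul_inv _ (X' * V), i1, i2, div_eq_mul_inv _ V]
    ring
  rw [key, norm_mul, norm_div, norm_real, Real.norm_of_nonneg hB.le]
  simp only [Complex.norm_ofNat]
  have h5 : ‖exp (8 / 3 * D * I) / zp A B D‖ ≤ Real.exp (8 / 3 * |D.im|) / A := by
    rw [norm_div]
    exact div_le_div₀ (Real.exp_pos _).le g1 hA r1
  have h6 : ‖exp (-(8 / 3 * D * I)) / zm A B D‖ ≤ Real.exp (8 / 3 * |D.im|) / A := by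
    rw [norm_div]
    exact div_le_div₀ (Real.exp_pos _).le g2 hA r2
  have h7 := norm_add_le (exp (8 / 3 * D * I) / zp A B D) (exp (-(8 / 3 * D * I)) / zm A B D)
  calc B / 2 * ‖exp (8 / 3 * D * I) / zp A B D + exp (-(8 / 3 * D * I)) / zm A B D‖ ≤
      B / 2 * (Real.exp (8 / 3 * |D.im|) / A + Real.exp (8 / 3 * |D.im|) / A) := by
        have : 0 ≤ B / 2 := by positivity
        gcongr
        linarith
    _ = _ := by
        field_simp
        ring

/-- the region -/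
def Reg (b : ℝ) : Set ℂ := {D | |8 / 3 * D.re| ≤ Real.pi / 2 ∧ |D.im| ≤ b}

theorem convex_Reg (b : ℝ) : Convex ℝ (Reg b) := by
  have h : Reg b = (Complex.reLm ⁻¹' Set.Icc (-(Real.pi / 2) * (3 / 8)) (Real.pi / 2 * (3 / 8))) ∩
      (Complex.imLm ⁻¹' Set.Icc (-b) b) := by
    ext D
    simp only [Reg, Set.mem_ofPred_eq, Set.mem_inter_iff, Set.mem_preimage, Set.mem_Icc, abs_le,
      Complex.reLm_coe, Complex.imLm_coe]
    constructor
    · rintro ⟨⟨a, b⟩, c⟩
      exact ⟨⟨by linarith, by linarith⟩, c⟩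
    · rintro ⟨⟨a, b⟩, c⟩
      exact ⟨⟨by linarith, by linarith⟩, c⟩
  rw [h]
  exact ((convex_Icc _ _).linear_preimage _).inter ((convex_Icc _ _).linear_preimage _)

/-- **the place is Lipschitz in the separation** -/
theorem ppc_lip (hA : 0 < A) (hB : 0 < B) {b : ℝ} {D D' : ℂ} (h : D ∈ Reg b) (h' : D' ∈ Reg b) :
    ‖ppc A B D - ppc A B D'‖ ≤ B / A * Real.exp (8 / 3 * b) * ‖D - D'‖ := by
  refine (convex_Reg b).norm_image_sub_le_of_norm_hasDerivWithin_le
    (f' := fun D => B * cos (8 / 3 * qqc A B D) / VVc A B D)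
    (fun z hz => (hasDerivAt_ppc hA hB hz.1).hasDerivWithinAt) (fun z hz => ?_) h' h
  refine (norm_deriv_le hA hB hz.1).trans ?_
  have := hz.2
  have : 0 ≤ B / A := by positivity
  gcongr

/-! ### real separation -/

theorem zm_conj (A B : ℝ) (D : ℝ) : zm A B D = (starRingEnd ℂ) (zp A B D) := by
  unfold zm zp
  rw [map_add, map_mul, conj_ofReal, conj_ofReal, ← Complex.exp_conj, map_mul, map_mul, conj_I, conj_ofReal]
  congr 3
  rw [map_div₀, map_ofNat, map_ofNat]
  ring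

theorem zp_real (A B : ℝ) (D : ℝ) : (zp A B D).re = A + B * Real.cos (8 / 3 * D) ∧
    (zp A B D).im = B * Real.sin (8 / 3 * D) := by
  have e : (8 / 3 * (D : ℂ) * I) = ((8 / 3 * D : ℝ) : ℂ) * I := by push_cast; ring
  unfold zp
  rw [e, add_re, add_im, ofReal_re, ofReal_im, re_ofReal_mul, im_ofReal_mul, Complex.exp_ofReal_mul_I_re,
    Complex.exp_ofReal_mul_I_im, zero_add]
  exact ⟨rfl, rfl⟩

/-- **the real path** -/
theorem ppc_real (hA : 0 < A) (hB : 0 < B) {D : ℝ} (hD : |8 / 3 * D| ≤ Real.pi / 2) :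
    ppc A B D = ((3 / 8 * Real.arctan (B * Real.sin (8 / 3 * D) / (A + B * Real.cos (8 / 3 * D))) : ℝ) : ℂ) := by
  have hz : 0 < (zp A B (D : ℂ)).re := lt_of_lt_of_le hA (zp_re hB (by rw [ofReal_re]; exact hD))
  obtain ⟨e1, e2⟩ := zp_real A B D
  have harg : arg (zp A B (D : ℂ)) = Real.arctan (B * Real.sin (8 / 3 * D) / (A + B * Real.cos (8 / 3 * D))) := by
    rw [← e1, ← e2, ← Complex.tan_arg]
    have h := abs_lt.1 (Complex.abs_arg_lt_pi_div_two_iff.2 (Or.inl hz))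
    rw [Real.arctan_tan h.1 h.2]
  rw [← harg]
  unfold ppc
  rw [zm_conj, Complex.log_conj _ (fun h => by
    have := abs_lt.1 (Complex.abs_arg_lt_pi_div_two_iff.2 (Or.inl hz))
    have hpi := Real.pi_pos
    linarith [this.2])]
  apply Complex.ext
  · simp [Complex.log_re, Complex.log_im]
    ring
  · simp [Complex.log_re, Complex.log_im]

theorem qqc_real (hA : 0 < A) (hB : 0 < B) {D : ℝ} (hD : |8 / 3 * D| ≤ Real.pi / 2) :
    qqc A B D = ((D - 3 / 8 * Real.arctan (B * Real.sin (8 / 3 * D) / (A + B * Real.cos (8 / 3 * D))) : ℝ) : ℂ) := by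
  unfold qqc
  rw [ppc_real hA hB hD]
  push_cast
  ring

/-- the real norm -/
theorem VVc_real (hA : 0 < A) (hB : 0 < B) {D : ℝ} (hD : |8 / 3 * D| ≤ Real.pi / 2) :
    VVc A B D = ((Real.sqrt (A ^ 2 + B ^ 2 + 2 * A * B * Real.cos (8 / 3 * D)) : ℝ) : ℂ) := by
  have hz : 0 < (zp A B (D : ℂ)).re := lt_of_lt_of_le hA (zp_re hB (by rw [ofReal_re]; exact hD))
  obtain ⟨e1, e2⟩ := zp_real A B D
  have hn : 0 < ‖zp A B (D : ℂ)‖ := lt_of_lt_of_le hz (Complex.re_le_norm _)
  have hl : (log (zp A B (D : ℂ)) + log (zm A B (D : ℂ))) / 2 = ((Real.log ‖zp A B (D : ℂ)‖ : ℝ) : ℂ) := by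
    rw [zm_conj, Complex.log_conj _ (fun h => by
      have := abs_lt.1 (Complex.abs_arg_lt_pi_div_two_iff.2 (Or.inl hz))
      have hpi := Real.pi_pos
      linarith [this.2])]
    apply Complex.ext
    · simp [Complex.log_re]
    · simp [Complex.log_im]
  unfold VVc
  rw [hl, ← Complex.ofReal_exp, Real.exp_log hn]
  congr 1
  rw [← Real.sqrt_sq hn.le]
  congr 1
  rw [← Complex.normSq_eq_norm_sq, normSq_apply, e1, e2]
  have := Real.sin_sq_add_cos_sq (8 / 3 * D)
  linear_combination B ^ 2 * this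

/-- **distance to the real path** -/
theorem ppc_near (hA : 0 < A) (hB : 0 < B) {b : ℝ} {D : ℂ} (h : D ∈ Reg b) :
    ‖ppc A B D - ppc A B D.re‖ ≤ B / A * Real.exp (8 / 3 * b) * |D.im| := by
  have hb : 0 ≤ b := (abs_nonneg _).trans h.2
  have h' : ((D.re : ℝ) : ℂ) ∈ Reg b := ⟨by rw [ofReal_re]; exact h.1, by rw [ofReal_im, abs_zero]; exact hb⟩
  refine (ppc_lip hA hB h h').trans (le_of_eq ?_)
  congr 1
  have e : D - (D.re : ℂ) = D.im * I := by
    linear_combination -(re_add_im D)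
  rw [e, norm_mul, norm_I, mul_one, norm_real, Real.norm_eq_abs]

theorem diff_ppc (hA : 0 < A) (hB : 0 < B) (hD : |8 / 3 * D.re| ≤ Real.pi / 2) :
    DifferentiableAt ℂ (ppc A B) D := (hasDerivAt_ppc hA hB hD).differentiableAt

theorem diff_qqc (hA : 0 < A) (hB : 0 < B) (hD : |8 / 3 * D.re| ≤ Real.pi / 2) :
    DifferentiableAt ℂ (qqc A B) D := by
  unfold qqc
  exact differentiableAt_id.fun_sub (diff_ppc hA hB hD)

/-! ### imaginary separation -/

/-- height of the first place for the separation `i s` -/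
def psi (A B s : ℝ) : ℝ :=
  3 / 16 * (Real.log (A + B * Real.exp (8 / 3 * s)) - Real.log (A + B * Real.exp (-(8 / 3 * s))))

theorem zp_imag (A B s : ℝ) : zp A B (s * I) = ((A + B * Real.exp (-(8 / 3 * s)) : ℝ) : ℂ) ∧
    zm A B (s * I) = ((A + B * Real.exp (8 / 3 * s) : ℝ) : ℂ) := by
  have e : 8 / 3 * ((s : ℂ) * I) * I = ((-(8 / 3 * s) : ℝ) : ℂ) := by
    push_cast
    linear_combination (8 / 3 * (s : ℂ)) * I_mul_I
  have e' : -(8 / 3 * ((s : ℂ) * I) * I) = ((8 / 3 * s : ℝ) : ℂ) := by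
    rw [e]
    push_cast
    ring
  constructor
  · unfold zp
    rw [e, ← ofReal_exp]
    push_cast
    ring
  · unfold zm
    rw [e', ← ofReal_exp]
    push_cast
    ring

/-- **imaginary separation** -/
theorem ppc_imag (hA : 0 < A) (hB : 0 < B) (s : ℝ) :
    ppc A B (s * I) = (psi A B s : ℝ) * I ∧ qqc A B (s * I) = ((s - psi A B s : ℝ) : ℂ) * I := by
  have h1 : ppc A B (s * I) = (psi A B s : ℝ) * I := by
    obtain ⟨e1, e2⟩ := zp_imag A B s
    unfold ppc psi
    rw [e1, e2, ← Complex.ofReal_log (by positivity), ← Complex.ofReal_log (by positivity)]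
    push_cast
    ring
  refine ⟨h1, ?_⟩
  unfold qqc
  rw [h1]
  push_cast
  ring

theorem psi_odd (A B s : ℝ) : psi A B (-s) = -psi A B s := by
  unfold psi
  rw [show -(8 / 3 * -s) = 8 / 3 * s by ring, show 8 / 3 * -s = -(8 / 3 * s) by ring]
  ring

/-- the heights have the sign of `s` -/
theorem psi_mem (hA : 0 < A) (hB : 0 < B) {s : ℝ} (hs : 0 ≤ s) : 0 ≤ psi A B s ∧ psi A B s ≤ s := by
  have h0 : Real.exp (-(8 / 3 * s)) ≤ 1 := Real.exp_le_one_iff.2 (by linarith)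
  have h1 : 1 ≤ Real.exp (8 / 3 * s) := Real.one_le_exp (by linarith)
  have hp := Real.exp_pos (-(8 / 3 * s))
  have hq := Real.exp_pos (8 / 3 * s)
  unfold psi
  constructor
  · have : Real.log (A + B * Real.exp (-(8 / 3 * s))) ≤ Real.log (A + B * Real.exp (8 / 3 * s)) := by
      refine Real.log_le_log (by positivity) ?_
      have : B * Real.exp (-(8 / 3 * s)) ≤ B * Real.exp (8 / 3 * s) := by
        have := h0.trans h1
        gcongr
      linarith
    linarith
  · have e : Real.log (A + B * Real.exp (8 / 3 * s)) ≤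
        Real.log (Real.exp (16 / 3 * s) * (A + B * Real.exp (-(8 / 3 * s)))) := by
      refine Real.log_le_log (by positivity) ?_
      have e1 : Real.exp (16 / 3 * s) * (A + B * Real.exp (-(8 / 3 * s))) =
          Real.exp (16 / 3 * s) * A + B * Real.exp (8 / 3 * s) := by
        have : Real.exp (16 / 3 * s) * Real.exp (-(8 / 3 * s)) = Real.exp (8 / 3 * s) := by
          rw [← Real.exp_add]
          congr 1
          ring
        linear_combination B * this
      rw [e1]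
      have : 1 ≤ Real.exp (16 / 3 * s) := Real.one_le_exp (by linarith)
      have : 1 * A ≤ Real.exp (16 / 3 * s) * A := by gcongr
      linarith
    rw [Real.log_mul (Real.exp_ne_zero _) (by positivity), Real.log_exp] at e
    linarith

theorem abs_psi_le (hA : 0 < A) (hB : 0 < B) (s : ℝ) : |psi A B s| ≤ |s| ∧ |s - psi A B s| ≤ |s| := by
  rcases le_total 0 s with h | h
  · obtain ⟨h1, h2⟩ := psi_mem hA hB h
    rw [abs_of_nonneg h1, abs_of_nonneg h, abs_of_nonneg (by linarith)]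
    exact ⟨h2, by linarith⟩
  · obtain ⟨h1, h2⟩ := psi_mem hA hB (s := -s) (by linarith)
    rw [psi_odd] at h1 h2
    rw [abs_of_nonpos (by linarith), abs_of_nonpos h, abs_of_nonpos (by linarith)]
    exact ⟨h2, by linarith⟩

/-- the balance of the heights -/
theorem balance_imag (hA : 0 < A) (hB : 0 < B) (s : ℝ) :
    A * Real.sinh (8 / 3 * psi A B s) = B * Real.sinh (8 / 3 * (s - psi A B s)) := by
  have h := balance (A := A) (B := B) (D := s * I) hA hB (by
    rw [mul_re, I_re, I_im, ofReal_re, ofReal_im]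
    simp
    positivity)
  obtain ⟨e1, e2⟩ := ppc_imag hA hB s
  rw [e1, e2] at h
  have f1 : 8 / 3 * (((psi A B s : ℝ) : ℂ) * I) = ((8 / 3 * psi A B s : ℝ) : ℂ) * I := by push_cast; ring
  have f2 : 8 / 3 * (((s - psi A B s : ℝ) : ℂ) * I) = ((8 / 3 * (s - psi A B s) : ℝ) : ℂ) * I := by
    push_cast; ring
  rw [f1, f2, Complex.sin_mul_I, Complex.sin_mul_I, ← Complex.ofReal_sinh, ← Complex.ofReal_sinh] at h
  have h2 : (A : ℂ) * (Real.sinh (8 / 3 * psi A B s) : ℝ) =
      (B : ℂ) * (Real.sinh (8 / 3 * (s - psi A B s)) : ℝ) := by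
    have hI : (I : ℂ) ≠ 0 := I_ne_zero
    refine mul_right_cancel₀ hI ?_
    linear_combination h
  exact_mod_cast h2

/-- the norm on the slit: real, at least `A + B` -/
theorem VVc_imag (hA : 0 < A) (hB : 0 < B) (s : ℝ) : ∃ V : ℝ, VVc A B (s * I) = (V : ℂ) ∧ A + B ≤ V ∧
    V = A * Real.cosh (8 / 3 * psi A B s) + B * Real.cosh (8 / 3 * (s - psi A B s)) := by
  refine ⟨_, ?_, ?_, rfl⟩
  · rw [VVc_eq hA hB (by
      rw [mul_re, I_re, I_im, ofReal_re, ofReal_im]
      simp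
      positivity)]
    obtain ⟨e1, e2⟩ := ppc_imag hA hB s
    rw [e1, e2]
    have f1 : 8 / 3 * (((psi A B s : ℝ) : ℂ) * I) = ((8 / 3 * psi A B s : ℝ) : ℂ) * I := by push_cast; ring
    have f2 : 8 / 3 * (((s - psi A B s : ℝ) : ℂ) * I) = ((8 / 3 * (s - psi A B s) : ℝ) : ℂ) * I := by
      push_cast; ring
    rw [f1, f2, Complex.cos_mul_I, Complex.cos_mul_I, ← Complex.ofReal_cosh, ← Complex.ofReal_cosh]
    push_cast
    ring
  · have h1 := Real.one_le_cosh (8 / 3 * psi A B s)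
    have h2 := Real.one_le_cosh (8 / 3 * (s - psi A B s))
    nlinarith

end PLT.PaD

end
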