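import Pool.Agent.PLT.PathZ
import Pool.Agent.PLT.PathD

/-!
# The places for complex separation: windows

`0 < A ≤ B`, `D ∈ Nz de`, `de` small.

* `pz_ppc`, `pp_le_l : pp th ≤ pp l`, **`pp_l_lt : pp l < l`**;
* **`near_real`** : a real `th ∈ [0, l]` with `|D - th| ≤ 2 de` and `pz`, `qz`, `Vz` within `L de` of `pp`, `qq`, `VV`;
* **`win`** : for every `η > 0` there is `de` with `Re pz ∈ [-η, pp l + η]`, `Re qz ∈ [-η, l / 2 + η]`,
  `|Im pz|, |Im qz| ≤ η` on `Nz de`.
-/

set_option autoImplicit false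

noncomputable section

open Complex Set

namespace PLT.Pa

open NUP1 (l lpos)

variable {A B de : ℝ} {D : ℂ}

theorem pz_ppc (A B : ℝ) (D : ℂ) : pz A B D = PaD.ppc A B D := by
  unfold pz PaD.ppc
  have h1 : ub A B D = PaD.zm A B D := rfl
  have h2 : ua A B D = PaD.zp A B D := rfl
  rw [h1, h2]
  ring

theorem Vz_VVc (A B : ℝ) (D : ℂ) : Vz A B D = PaD.VVc A B D := rfl

/-- the value at `l` is the largest one -/
theorem pp_le_l (hA : 0 < A) (hB : 0 < B) {th : ℝ} (h : th ∈ Icc 0 l) : pp A B th ≤ pp A B l := by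
  have h1 := cos_pos' h
  have hl : l ∈ Icc 0 l := ⟨lpos.le, le_rfl⟩
  have e1 : Real.cos (8 / 3 * l) = 1 / 2 := by rw [wl, Real.cos_pi_div_three]
  have e2 : Real.sin (8 / 3 * l) = √3 / 2 := by rw [wl, Real.sin_pi_div_three]
  have h2 : Real.sin (8 / 3 * th) ≤ √3 / 2 := by
    rw [← Real.sin_pi_div_three]
    have h3 := ang h
    exact Real.sin_le_sin_of_le_of_le_pi_div_two (by linarith [h3.1, Real.pi_pos]) (by linarith [Real.pi_pos]) h3.2
  have h0 := sin_nn h
  unfold pp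
  refine mul_le_mul_of_nonneg_left ?_ (by norm_num)
  refine Real.arctan_strictMono.monotone ?_
  rw [e1, e2]
  have : 0 < A + B * (1 / 2) := by positivity
  gcongr

/-- **the first place stays inside** -/
theorem pp_l_lt (hA : 0 < A) (hB : 0 < B) : pp A B l < l := by
  have e1 : Real.cos (8 / 3 * l) = 1 / 2 := by rw [wl, Real.cos_pi_div_three]
  have e2 : Real.sin (8 / 3 * l) = √3 / 2 := by rw [wl, Real.sin_pi_div_three]
  have h3 : (0 : ℝ) < √3 := Real.sqrt_pos.2 (by norm_num)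
  have h1 : B * (√3 / 2) / (A + B * (1 / 2)) < √3 := by
    rw [div_lt_iff₀ (by positivity)]
    nlinarith
  have h2 : Real.arctan (B * (√3 / 2) / (A + B * (1 / 2))) < Real.pi / 3 := by
    rw [← Real.arctan_sqrt_three]
    exact Real.arctan_strictMono h1
  unfold pp
  rw [e1, e2]
  have := wl
  linarith

/-- the region of `PathD` -/
theorem mem_Reg (hde : de ≤ 1 / 20) (h : D ∈ Nz de) : D ∈ PaD.Reg 1 := by
  have h1 := l_lt
  have hp := Real.pi_gt_d2
  refine ⟨?_, by linarith [h.2.2]⟩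
  rw [abs_le]
  constructor <;> linarith [h.1, h.2.1]

theorem hasDerivAt_VVc {D : ℂ} (hA : 0 < A) (hB : 0 < B) (hde : de ≤ 1 / 20) (h : D ∈ Nz de) :
    DifferentiableAt ℂ (Vz A B) D := by
  have pa := ua_pos hA hB hde h
  have pb := ub_pos hA hB hde h
  unfold Vz
  refine DifferentiableAt.cexp ?_
  refine DifferentiableAt.div_const ?_ _
  exact ((ua_hasDeriv A B D).differentiableAt.clog (slit_of_re pa)).fun_add
    ((ub_hasDeriv A B D).differentiableAt.clog (slit_of_re pb))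

/-- **a real separation close by** -/
theorem near_real (hA : 0 < A) (hB : 0 < B) : ∃ L : ℝ, 0 < L ∧ ∀ de : ℝ, 0 < de → de ≤ 1 / 20 → ∀ D ∈ Nz de,
    ∃ th ∈ Icc 0 l, ‖D - (th : ℂ)‖ ≤ 2 * de ∧ ‖pz A B D - (pp A B th : ℂ)‖ ≤ L * de ∧
      ‖qz A B D - (qq A B th : ℂ)‖ ≤ L * de := by
  obtain ⟨K, hK⟩ : ∃ K, K = B / A * Real.exp (8 / 3 * 1) := ⟨_, rfl⟩
  have hKp : 0 < K := by rw [hK]; positivity
  refine ⟨2 * K + 2, by positivity, fun de hde hde' D hD => ?_⟩
  obtain ⟨th, hth⟩ : ∃ th, th = max 0 (min D.re l) := ⟨_, rfl⟩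
  have hlp := lpos
  have h1 : th ∈ Icc 0 l := by
    rw [hth]
    exact ⟨le_max_left _ _, max_le hlp.le (min_le_right _ _)⟩
  have h2 : |D.re - th| ≤ de := by
    rw [hth, abs_le]
    rcases le_total D.re 0 with g | g
    · rw [min_eq_left (g.trans hlp.le), max_eq_left g]
      constructor <;> linarith [hD.1]
    · rcases le_total D.re l with g' | g'
      · rw [min_eq_left g', max_eq_right g]
        constructor <;> linarith
      · rw [min_eq_right g', max_eq_right hlp.le]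
        constructor <;> linarith [hD.2.1]
  have h3 : ‖D - (th : ℂ)‖ ≤ 2 * de := by
    refine (Complex.norm_le_abs_re_add_abs_im _).trans ?_
    rw [sub_re, sub_im, ofReal_re, ofReal_im, sub_zero]
    linarith [hD.2.2]
  have hr : (th : ℂ) ∈ PaD.Reg 1 := mem_Reg (le_refl (1 / 20 : ℝ)) (Icc_Nz (by norm_num) h1)
  have h4 := PaD.ppc_lip hA hB (mem_Reg hde' hD) hr
  rw [← hK, ← pz_ppc, ← pz_ppc, pz_real hA hB h1] at h4
  have h5 : ‖pz A B D - (pp A B th : ℂ)‖ ≤ K * (2 * de) := h4.trans (by gcongr)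
  refine ⟨th, h1, h3, by nlinarith, ?_⟩
  have e : qz A B D - (qq A B th : ℂ) = (D - th) - (pz A B D - (pp A B th : ℂ)) := by
    unfold qz qq
    push_cast
    ring
  rw [e]
  refine (norm_sub_le _ _).trans ?_
  nlinarith

/-- **the windows** -/
theorem win (hA : 0 < A) (hAB : A ≤ B) {η : ℝ} (hη : 0 < η) : ∃ de : ℝ, 0 < de ∧ de ≤ 1 / 20 ∧ de ≤ η ∧ ∀ D ∈ Nz de,
    -η ≤ (pz A B D).re ∧ (pz A B D).re ≤ pp A B l + η ∧ |(pz A B D).im| ≤ η ∧
      -η ≤ (qz A B D).re ∧ (qz A B D).re ≤ l / 2 + η ∧ |(qz A B D).im| ≤ η := by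
  have hB : 0 < B := hA.trans_le hAB
  obtain ⟨L, hL, h⟩ := near_real hA hB
  refine ⟨min (min (1 / 20) η) (η / L), by positivity, (min_le_left _ _).trans (min_le_left _ _),
    (min_le_left _ _).trans (min_le_right _ _), fun D hD => ?_⟩
  obtain ⟨th, h1, -, h3, h4⟩ := h (min (min (1 / 20) η) (η / L)) (by positivity)
    ((min_le_left _ _).trans (min_le_left _ _)) D hD
  have hle : L * min (min (1 / 20) η) (η / L) ≤ η := by
    calc L * min (min (1 / 20) η) (η / L) ≤ L * (η / L) := by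
          gcongr
          exact min_le_right _ _
      _ = η := by field_simp
  have r1 := (Complex.abs_re_le_norm _).trans (h3.trans hle)
  have i1 := (Complex.abs_im_le_norm _).trans (h3.trans hle)
  have r2 := (Complex.abs_re_le_norm _).trans (h4.trans hle)
  have i2 := (Complex.abs_im_le_norm _).trans (h4.trans hle)
  rw [sub_re, ofReal_re, abs_le] at r1 r2
  rw [sub_im, ofReal_im, sub_zero] at i1 i2
  have p0 := pp_nonneg hA hB h1
  have p1 := pp_le_l hA hB h1
  have q0 := qq_nonneg hA hB h1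
  have q1 := qq_le_half hA hAB h1
  exact ⟨by linarith [r1.1], by linarith [r1.2], i1, by linarith [r2.1], by linarith [r2.2], i2⟩

end PLT.Pa

end
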