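import Pool.Agent.PLT.BYD
import Pool.Agent.PLT.AnRU
import Pool.Agent.PLT.WinD
import Pool.Agent.PLT.TwoC

/-!
# The function `Y` of the tilted content

`YT a0 b0 ep m D = ∑ n ∈ range (2 m + 1), YB a0 b0 ep m D n`.

* **`diff_YT`** : analytic on `Rc 0 l δ`, one `δ` for all `m`, `ep`;
* `xB_real`, `eB_real` : the places at real `D`, the rows are `- pp`, `qq`.
-/

set_option autoImplicit false
set_option linter.unusedSectionVars false
set_option linter.unusedVariables false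

noncomputable section

open Complex MeasureTheory Filter Topology Finset

namespace PLT.AY

open NUP1 (l)
open PLX (Fil)
open PLT.BY PLT.Pa
open PLTX (NF InV fin_diffL PtG)
open _root_.Pool.Agent.PLX (yq rwq RU)

variable [Fil]

/-! ## the places -/

section places
variable {a0 b0 m : ℕ} {de η : ℝ} {D : ℂ}

/-- what is needed of the places -/
structure Plc (a0 b0 : ℕ) (de : ℝ) : Prop where
  d0 : 0 < de
  d1 : de ≤ 1 / 20
  pl : ∀ D ∈ Nz de, -l < (-pz a0 b0 D).re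
  ph : ∀ D ∈ Nz de, (-pz a0 b0 D).re < 101 / 200 * l
  ql : ∀ D ∈ Nz de, -(l / 2) < (qz a0 b0 D).re
  qh : ∀ D ∈ Nz de, (qz a0 b0 D).re < 101 / 200 * l

theorem exists_plc (ha : 1 ≤ a0) (hb : a0 ≤ b0) : ∃ de, Plc a0 b0 de := by
  have hl := NUP1.lpos
  have hA : (0 : ℝ) < a0 := by exact_mod_cast ha
  have hAB : (a0 : ℝ) ≤ b0 := by exact_mod_cast hb
  have hB : (0 : ℝ) < b0 := lt_of_lt_of_le hA hAB
  have hp := pp_l_lt hA hB
  obtain ⟨η, hη⟩ : ∃ η, η = min (l / 400) ((l - pp a0 b0 l) / 2) := ⟨_, rfl⟩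
  have h0 : 0 < η := by rw [hη]; exact lt_min (by positivity) (by linarith)
  have h1 : η ≤ l / 400 := by rw [hη]; exact min_le_left _ _
  have h2 : η ≤ (l - pp a0 b0 l) / 2 := by rw [hη]; exact min_le_right _ _
  obtain ⟨de, d0, d1, -, H⟩ := win hA hAB h0
  refine ⟨de, d0, d1, fun D hD => ?_, fun D hD => ?_, fun D hD => ?_, fun D hD => ?_⟩ <;>
  obtain ⟨e1, e2, -, e3, e4, -⟩ := H D hD
  · rw [neg_re]; linarith
  · rw [neg_re]; linarith
  · linarith
  · linarith

variable (H : Plc a0 b0 de) (ha : 1 ≤ a0) (hb : 1 ≤ b0)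

include H ha hb in
theorem diff_pz (hD : D ∈ Nz de) : DifferentiableAt ℂ (pz a0 b0) D :=
  (pz_deriv (by exact_mod_cast ha) (by exact_mod_cast hb) H.d1 hD).differentiableAt

include H ha hb in
theorem diff_qz (hD : D ∈ Nz de) : DifferentiableAt ℂ (qz a0 b0) D :=
  (qz_deriv (by exact_mod_cast ha) (by exact_mod_cast hb) H.d1 hD).differentiableAt

include H ha hb in
theorem nf_q (hD : D ∈ Nz de) {lo : ℝ} (hlo : lo ≤ -(l / 2)) : NF lo D fun θ => qz a0 b0 θ := by
  have hl := NUP1.lpos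
  refine ⟨?_, lt_of_le_of_lt hlo (H.ql D hD), (H.qh D hD).trans (by linarith)⟩
  filter_upwards [(Nz_open de).mem_nhds hD] with θ hθ
  exact diff_qz H ha hb hθ

include H ha hb in
theorem nf_p (hD : D ∈ Nz de) : NF (-l) D fun θ => -pz a0 b0 θ := by
  have hl := NUP1.lpos
  refine ⟨?_, H.pl D hD, (H.ph D hD).trans (by linarith)⟩
  filter_upwards [(Nz_open de).mem_nhds hD] with θ hθ
  exact (diff_pz H ha hb hθ).neg

include H ha hb in
theorem nf_x (m : ℕ) (hD : D ∈ Nz de) (i : Fin m) : NF (-l) D fun θ => xB a0 b0 m θ i := by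
  have hl := NUP1.lpos
  unfold xB
  by_cases h1 : okB a0 b0 m
  · by_cases h2 : (i : ℕ) < cA a0 b0 m
    · simp only [if_pos h1, if_pos h2]
      exact nf_p H ha hb hD
    · simp only [if_pos h1, if_neg h2]
      exact nf_q H ha hb hD (by linarith)
  · simp only [if_neg h1]
    exact NF.const D (by simpa using hl) (by simp; positivity)

include H ha hb in
theorem nf_e (m : ℕ) (hD : D ∈ Nz de) : NF (-(l / 2)) D fun θ => eB a0 b0 m θ := by
  have hl := NUP1.lpos
  unfold eB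
  by_cases h1 : okB a0 b0 m
  · simp only [if_pos h1]
    exact nf_q H ha hb hD le_rfl
  · simp only [if_neg h1]
    exact NF.const D (by simpa using hl) (by simp; positivity)

theorem InV_Th : InV parTh := by constructor <;> norm_num [parTh]

theorem ptG_I : PtG I := by
  have hl := NUP1.lpos
  exact ⟨by simpa using hl, by simp; positivity⟩

theorem ptG_nI : PtG (-I) := by
  have hl := NUP1.lpos
  exact ⟨by simpa using hl, by simp; positivity⟩

include H ha hb in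
/-- **one term is analytic** -/
theorem diff_YB {ep : ℝ} (hep : 0 ≤ ep) (hep1 : ep ≤ 1 / 2) (m n : ℕ) (hD : D ∈ Nz de) :
    DifferentiableAt ℂ (fun D => YB a0 b0 ep m D n) D := by
  have hl := NUP1.lpos
  have hx := nf_x H ha hb m hD
  have he := nf_e H ha hb m hD
  have hy : ∀ j : Fin (Fil.q * m), NF (-l) D fun θ => yq (xB a0 b0 m θ) j := fun j => hx j.modNat
  have hW : ∀ u ∈ ([I, -I] : List ℂ), PtG u := by
    intro u hu
    simp only [List.mem_cons, List.not_mem_nil, or_false] at hu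
    rcases hu with rfl | rfl
    · exact ptG_I
    · exact ptG_nI
  have hb0 : 1 / 2 ≤ NUGC.PLX.beC ep := by unfold NUGC.PLX.beC; linarith
  have hb1 : NUGC.PLX.beC ep ≤ 4 / 3 := by unfold NUGC.PLX.beC; linarith
  have hn : n + Fil.q * m = n + Fil.xn m + m := by
    have := Fil.add_xn m
    omega
  have h1 := fin_diffL (c := NUP1.Leg.cc m) (c' := NUP1.Leg.cc (Fil.q * m)) (T1 := PBU.PLX.T1L m)
    (T1' := PBU.PLX.T1L m) hb0 hb1 hx hy he he hW hW (V := []) (V' := []) (by simp) (by simp) InV_Th hn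
  have dx : ∀ i, DifferentiableAt ℂ (fun θ => xB a0 b0 m θ i) D := fun i => (hx i).df.self_of_nhds
  have de' : DifferentiableAt ℂ (fun θ => eB a0 b0 m θ) D := he.df.self_of_nhds
  have bd : ∀ {u v : ℂ}, -l < u.re → u.re < 51 / 100 * l → -l < v.re → v.re < 51 / 100 * l →
      |(u - v).re| < 5 * l := by
    intro u v u1 u2 v1 v2
    rw [sub_re, abs_lt]
    constructor <;> linarith
  have xl : ∀ i, -l < (xB a0 b0 m D i).re := fun i => (hx i).lo
  have xh : ∀ i, (xB a0 b0 m D i).re < 51 / 100 * l := fun i => (hx i).hi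
  have el : -l < (eB a0 b0 m D).re := by have := he.lo; linarith
  have eh : (eB a0 b0 m D).re < 51 / 100 * l := he.hi
  have h2 := diff_preY (x := fun i θ => xB a0 b0 m θ i) (y := fun j θ => yq (xB a0 b0 m θ) j)
    (p := fun θ => eB a0 b0 m θ) (q := fun θ => eB a0 b0 m θ) (D := D) dx (fun j => dx j.modNat) de' de'
    (fun i j => bd (xl i) (xh i) (xl j) (xh j)) (fun i j => bd (xl _) (xh _) (xl _) (xh _))
    (fun i j => bd (xl _) (xh _) (xl _) (xh _)) (fun i => bd el eh (xl _) (xh _))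
    (fun i => bd el eh (xl _) (xh _)) (fun i => bd el eh (xl _) (xh _)) (fun i => bd el eh (xl _) (xh _))
    (bd el eh el eh)
  exact h2.mul h1

end places


/-! ## the function -/

/-- **the function `Y`** -/
def YT (a0 b0 : ℕ) (ep : ℝ) (m : ℕ) (D : ℂ) : ℂ := ∑ n ∈ range (2 * m + 1), YB a0 b0 ep m D n

variable {a0 b0 : ℕ}

/-- **analytic** -/
theorem diff_YT (ha : 1 ≤ a0) (hb : a0 ≤ b0) : ∃ δ : ℝ, 0 < δ ∧ δ ≤ 1 / 20 ∧ ∀ ep : ℝ, 0 ≤ ep → ep ≤ 1 / 2 →
    ∀ m : ℕ, ∀ D ∈ PLT.TwoC.Rc 0 l δ, DifferentiableAt ℂ (YT a0 b0 ep m) D := by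
  obtain ⟨de, H⟩ := exists_plc ha hb
  refine ⟨de, H.d0, H.d1, fun ep h0 h1 m D hD => ?_⟩
  have hD' : D ∈ Nz de := ⟨by have := hD.1; linarith, hD.2.1, hD.2.2⟩
  unfold YT
  exact DifferentiableAt.fun_sum fun n _ => diff_YB H ha (ha.trans hb) h0 h1 m n hD'

/-! ## real `D` -/

theorem xB_real (ha : 1 ≤ a0) (hb : 1 ≤ b0) (k : ℕ) {th : ℝ} (h : th ∈ Set.Icc 0 l) (i : Fin (k * (a0 + b0))) :
    xB a0 b0 (k * (a0 + b0)) th i = if (i : ℕ) < k * a0 then ((-pp a0 b0 th : ℝ) : ℂ) else ((qq a0 b0 th : ℝ) : ℂ) := by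
  have hA : (0 : ℝ) < a0 := by exact_mod_cast ha
  have hB : (0 : ℝ) < b0 := by exact_mod_cast hb
  rw [xB_mul ha, pz_real hA hB h, qz_real hA hB h, ofReal_neg]

theorem eB_real (ha : 1 ≤ a0) (hb : 1 ≤ b0) (k : ℕ) {th : ℝ} (h : th ∈ Set.Icc 0 l) :
    eB a0 b0 (k * (a0 + b0)) th = ((qq a0 b0 th : ℝ) : ℂ) := by
  have hA : (0 : ℝ) < a0 := by exact_mod_cast ha
  have hB : (0 : ℝ) < b0 := by exact_mod_cast hb
  rw [eB_mul, qz_real hA hB h]

end PLT.AY

end
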