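import Pool.Agent.PLT.TwoI

/-!
# The glue of the sharp statements on the imaginary segment

* **`ell_step`** : `‖f‖ ≤ ε` on the real segment `[m - s / 2, m + s / 2]`, `‖f‖ ≤ M` on the disc: the bound
  `ε ^ (1 / 2) * M ^ (1 / 2)` on the ellipse `‖z - (m - s / 2)‖ + ‖z - (m + s / 2)‖ ≤ 5 / 4 * s`;
* **`two_backN`** : from the real interval `[0, x1]` back to the imaginary segment;
* **`glueT`** : `Y n` and `K n` agree on the imaginary segment, `K n = A * Λ n` on `[0, x1]`, upper bounds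
  `n ^ ε`: then `Y n = A * Λ n` on `[0, b]`, error `n ^ (-c)`;
* **`glueT'`** : the same with `Y n = A * Λ n` on the imaginary segment.
-/

set_option autoImplicit false

noncomputable section

open Complex Set Filter

namespace PLT.TwoC

/-! ### the ellipse -/

theorem normSq_half (w : ℂ) : ‖Complex.sinh w‖ ^ 2 + ‖Complex.cosh w‖ ^ 2 = Real.cosh (2 * w.re) := by
  have hs : Complex.sinh w = (Real.sinh w.re * Real.cos w.im : ℝ) +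
      (Real.cosh w.re * Real.sin w.im : ℝ) * I := by
    conv_lhs => rw [← Complex.re_add_im w]
    rw [Complex.sinh_add, Complex.cosh_mul_I, Complex.sinh_mul_I]
    push_cast
    ring
  have hc : Complex.cosh w = (Real.cosh w.re * Real.cos w.im : ℝ) +
      (Real.sinh w.re * Real.sin w.im : ℝ) * I := by
    conv_lhs => rw [← Complex.re_add_im w]
    rw [Complex.cosh_add, Complex.cosh_mul_I, Complex.sinh_mul_I]
    push_cast
    ring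
  rw [hs, hc, Complex.sq_norm, Complex.sq_norm, Complex.normSq_add_mul_I, Complex.normSq_add_mul_I,
    Real.cosh_two_mul]
  have h1 := Real.sin_sq_add_cos_sq w.im
  nlinarith [h1, Real.cosh_sq w.re]

/-- the sum of the distances to the foci -/
theorem norm_cosh_foci (ζ : ℂ) : ‖Complex.cosh ζ - 1‖ + ‖Complex.cosh ζ + 1‖ = 2 * Real.cosh ζ.re := by
  have e : ζ = 2 * (ζ / 2) := by ring
  have h1 : Complex.cosh ζ - 1 = 2 * Complex.sinh (ζ / 2) ^ 2 := by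
    rw [e, Complex.cosh_two_mul, ← e]
    have := Complex.cosh_sq (ζ / 2)
    rw [this]
    ring
  have h2 : Complex.cosh ζ + 1 = 2 * Complex.cosh (ζ / 2) ^ 2 := by
    rw [e, Complex.cosh_two_mul, ← e]
    have := Complex.cosh_sq (ζ / 2)
    rw [this]
    ring
  rw [h1, h2, norm_mul, norm_mul, norm_pow, norm_pow]
  have h3 := normSq_half (ζ / 2)
  have h4 : 2 * (ζ / 2).re = ζ.re := by
    simp
    ring
  rw [h4] at h3
  have h5 : ‖(2 : ℂ)‖ = 2 := by norm_num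
  rw [h5]
  linarith

/-- every point is a value of `cosh` at a point with `Re ≥ 0` -/
theorem exists_cosh (z : ℂ) : ∃ ζ : ℂ, 0 ≤ ζ.re ∧ Complex.cosh ζ = z := by
  obtain ⟨w, hw⟩ := Complex.cos_surjective z
  rcases le_total 0 (w * I).re with h | h
  · exact ⟨w * I, h, by rw [Complex.cosh_mul_I, hw]⟩
  · refine ⟨-(w * I), by rw [Complex.neg_re]; linarith, ?_⟩
    rw [Complex.cosh_neg, Complex.cosh_mul_I, hw]

/-- **two constants on the ellipse** -/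
theorem ell_step {f : ℂ → ℂ} {m s δ ε M : ℝ} (hs : 0 < s) (hsδ : 17 / 16 * s < δ) (hε0 : 0 < ε)
    (hεM : ε ≤ M) (hf : ∀ z : ℂ, ‖z - m‖ < δ → DifferentiableAt ℂ f z)
    (hM : ∀ z : ℂ, ‖z - m‖ < δ → ‖f z‖ ≤ M) (hε : ∀ x : ℝ, |x - m| ≤ s / 2 → ‖f x‖ ≤ ε) {z : ℂ}
    (hz : ‖z - (m - s / 2 : ℝ)‖ + ‖z - (m + s / 2 : ℝ)‖ ≤ 5 / 4 * s) :
    ‖f z‖ ≤ ε ^ (1 / 2 : ℝ) * M ^ (1 / 2 : ℝ) := by
  have hMp : 0 < M := lt_of_lt_of_le hε0 hεM
  have hs2 : 0 < s / 2 := by linarith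
  obtain ⟨L, hL⟩ : ∃ L, L = Real.log 4 := ⟨_, rfl⟩
  have hL0 : 0 < L := by rw [hL]; exact Real.log_pos (by norm_num)
  have hc4 : Real.cosh L = 17 / 8 := by
    rw [Real.cosh_eq, Real.exp_neg, hL, Real.exp_log (by norm_num)]
    norm_num
  have hc2 : Real.cosh (L / 2) = 5 / 4 := by
    have : L / 2 = Real.log 2 := by
      rw [hL, show (4 : ℝ) = 2 ^ 2 by norm_num, Real.log_pow]
      push_cast
      ring
    rw [this, Real.cosh_eq, Real.exp_neg, Real.exp_log (by norm_num)]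
    norm_num
  set g : ℂ → ℂ := fun ζ => m + (s / 2 : ℝ) * Complex.cosh ζ with hg
  have hin : ∀ ζ : ℂ, ζ ∈ HadamardThreeLines.verticalClosedStrip 0 L → ‖g ζ - m‖ < δ := by
    intro ζ hζ
    have e : g ζ - m = (s / 2 : ℝ) * Complex.cosh ζ := by
      rw [hg]
      ring
    rw [e, norm_mul, Complex.norm_real, Real.norm_eq_abs, abs_of_pos hs2]
    have h2 := norm_cosh_le ζ
    have h3 : Real.cosh ζ.re ≤ Real.cosh L := by
      rw [Real.cosh_le_cosh, abs_of_nonneg hζ.1, abs_of_pos hL0]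
      exact hζ.2
    rw [hc4] at h3
    calc s / 2 * ‖Complex.cosh ζ‖ ≤ s / 2 * (17 / 8) := by
          gcongr
          exact h2.trans h3
      _ < δ := by linarith
  have hdiff : ∀ ζ : ℂ, ζ ∈ HadamardThreeLines.verticalClosedStrip 0 L →
      DifferentiableAt ℂ (fun ζ => f (g ζ)) ζ := by
    intro ζ hζ
    exact DifferentiableAt.comp ζ (g := f) (f := g) (hf _ (hin ζ hζ))
      ((Complex.differentiable_cosh.differentiableAt.const_mul _).const_add _)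
  have hcl : closure (HadamardThreeLines.verticalStrip 0 L) ⊆ HadamardThreeLines.verticalClosedStrip 0 L := by
    refine closure_minimal (fun z hz => ⟨hz.1.le, hz.2.le⟩) ?_
    exact isClosed_Icc.preimage Complex.continuous_re
  have hd : DiffContOnCl ℂ (fun ζ => f (g ζ)) (HadamardThreeLines.verticalStrip 0 L) := by
    refine DifferentiableOn.diffContOnCl fun ζ hζ => ?_
    exact (hdiff ζ (hcl hζ)).differentiableWithinAt
  have hB : BddAbove ((norm ∘ fun ζ => f (g ζ)) '' HadamardThreeLines.verticalClosedStrip 0 L) := by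
    refine ⟨M, ?_⟩
    rintro _ ⟨ζ, hζ, rfl⟩
    exact hM _ (hin ζ hζ)
  -- the point
  obtain ⟨σ, hσ0, hσ⟩ := exists_cosh ((z - m) / (s / 2 : ℝ))
  have hsc : ((s / 2 : ℝ) : ℂ) ≠ 0 := by
    rw [Complex.ofReal_ne_zero]
    exact hs2.ne'
  have hpt : g σ = z := by
    show (m : ℂ) + (s / 2 : ℝ) * Complex.cosh σ = z
    rw [hσ, mul_div_cancel₀ _ hsc]
    ring
  have hσ1 : σ.re ≤ L / 2 := by
    have h1 := norm_cosh_foci σ
    have e1 : z - (m + s / 2 : ℝ) = (s / 2 : ℝ) * (Complex.cosh σ - 1) := by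
      rw [← hpt, hg]
      push_cast
      ring
    have e2 : z - (m - s / 2 : ℝ) = (s / 2 : ℝ) * (Complex.cosh σ + 1) := by
      rw [← hpt, hg]
      push_cast
      ring
    rw [e1, e2, norm_mul, norm_mul, Complex.norm_real, Real.norm_eq_abs, abs_of_pos hs2, ← mul_add,
      add_comm ‖Complex.cosh σ + 1‖, h1] at hz
    have h2 : Real.cosh σ.re ≤ Real.cosh (L / 2) := by
      rw [hc2]
      by_contra h
      push Not at h
      nlinarith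
    rw [Real.cosh_le_cosh, abs_of_nonneg hσ0, abs_of_pos (by linarith)] at h2
    exact h2
  have hzm : σ ∈ HadamardThreeLines.verticalClosedStrip 0 L := ⟨hσ0, by
    show σ.re ≤ L
    linarith⟩
  have key := HadamardThreeLines.norm_le_interp_of_mem_verticalClosedStrip' (a := ε) (b := M) hL0 hzm hd hB
    (fun ζ hζ => by
      have h2 : ζ.re = 0 := hζ
      have e : g ζ = ((m + s / 2 * Real.cos ζ.im : ℝ) : ℂ) := by
        have e1 : ζ = (ζ.im : ℂ) * I := by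
          conv_lhs => rw [← re_add_im ζ, h2]
          simp
        show (m : ℂ) + (s / 2 : ℝ) * Complex.cosh ζ = _
        conv_lhs => rw [e1]
        rw [Complex.cosh_mul_I, ← Complex.ofReal_cos]
        push_cast
        ring
      show ‖f (g ζ)‖ ≤ ε
      rw [e]
      refine hε _ ?_
      rw [add_sub_cancel_left, abs_mul, abs_of_pos hs2]
      have := Real.abs_cos_le_one ζ.im
      calc s / 2 * |Real.cos ζ.im| ≤ s / 2 * 1 := by gcongr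
        _ = s / 2 := mul_one _)
    (fun ζ hζ => by
      have h2 : ζ.re = L := hζ
      exact hM _ (hin ζ ⟨by rw [h2]; exact hL0.le, by rw [h2]⟩))
  have e1 : (σ.re - 0) / (L - 0) = σ.re / L := by
    rw [sub_zero, sub_zero]
  rw [e1, hpt] at key
  refine key.trans ?_
  obtain ⟨r, hr'⟩ : ∃ r, r = σ.re / L := ⟨_, rfl⟩
  have r1 : r ≤ 1 / 2 := by
    rw [hr', div_le_iff₀ hL0]
    linarith
  rw [← hr']
  have h3 : (M / ε) ^ r ≤ (M / ε) ^ (1 / 2 : ℝ) :=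
    Real.rpow_le_rpow_of_exponent_le (by rw [le_div_iff₀ hε0]; linarith) r1
  have h4 : ∀ r : ℝ, ε ^ (1 - r) * M ^ r = ε * (M / ε) ^ r := by
    intro r
    rw [Real.rpow_sub hε0, Real.rpow_one, Real.div_rpow hMp.le hε0.le]
    ring
  have h5 := h4 (1 / 2)
  norm_num at h5
  rw [h4 r]
  refine (mul_le_mul_of_nonneg_left h3 hε0.le).trans (le_of_eq ?_)
  norm_num
  exact h5.symm

/-- **from the real interval `[0, x1]` to the imaginary segment** -/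
theorem two_back {x1 δ ε M : ℝ} (hx : 0 < x1) (hδ : 17 / 16 * x1 < δ) {f : ℂ → ℂ} (hε0 : 0 < ε)
    (hεM : ε ≤ M) (hf : ∀ z : ℂ, ‖z - (x1 / 2 : ℝ)‖ < δ → DifferentiableAt ℂ f z)
    (hM : ∀ z : ℂ, ‖z - (x1 / 2 : ℝ)‖ < δ → ‖f z‖ ≤ M)
    (hε : ∀ x : ℝ, 0 ≤ x → x ≤ x1 → ‖f x‖ ≤ ε) {t : ℝ} (ht : |t| ≤ x1 / 8) :
    ‖f (t * I)‖ ≤ ε ^ (1 / 2 : ℝ) * M ^ (1 / 2 : ℝ) := by
  refine ell_step (m := x1 / 2) (s := x1) hx hδ hε0 hεM hf hM (fun x hx' => ?_) ?_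
  · rw [abs_le] at hx'
    exact hε x (by linarith [hx'.1]) (by linarith [hx'.2])
  · have h1 : ‖(t : ℂ) * I - (x1 / 2 - x1 / 2 : ℝ)‖ = |t| := by
      rw [sub_self, Complex.ofReal_zero, sub_zero, norm_mul, Complex.norm_I, mul_one,
        Complex.norm_real, Real.norm_eq_abs]
    have h2 : ‖(t : ℂ) * I - (x1 / 2 + x1 / 2 : ℝ)‖ ≤ |t| + x1 := by
      refine (norm_sub_le _ _).trans (le_of_eq ?_)
      rw [norm_mul, Complex.norm_I, mul_one, Complex.norm_real, Real.norm_eq_abs, Complex.norm_real,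
        Real.norm_eq_abs, add_halves, abs_of_pos hx]
    rw [h1]
    linarith

/-- **the form with a large parameter** -/
theorem two_backN {x1 δ c : ℝ} (hx : 0 < x1) (hδ : 0 < δ) (hc : 0 < c) : ∃ ep c' s1 : ℝ, 0 < ep ∧
    0 < c' ∧ 0 < s1 ∧ ∀ (f : ℂ → ℂ) (C N : ℝ), 0 < C → 1 ≤ N →
      (∀ z : ℂ, ‖z‖ < δ → DifferentiableAt ℂ f z) → (∀ z : ℂ, ‖z‖ < δ → ‖f z‖ ≤ C * N ^ ep) →
      (∀ x : ℝ, 0 ≤ x → x ≤ x1 → x < δ → ‖f x‖ ≤ C * N ^ (-c)) →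
      ∀ t : ℝ, |t| ≤ s1 → ‖f (t * I)‖ ≤ C * N ^ (-c') := by
  obtain ⟨y, hy⟩ : ∃ y, y = min x1 (δ / 3) := ⟨_, rfl⟩
  have hy0 : 0 < y := by rw [hy]; exact lt_min hx (by positivity)
  have hy1 : y ≤ x1 := by rw [hy]; exact min_le_left _ _
  have hy2 : y ≤ δ / 3 := by rw [hy]; exact min_le_right _ _
  refine ⟨c / 2, c / 4, y / 8, by positivity, by positivity, by positivity, ?_⟩
  intro f C N hC hN hf hM h0 t ht
  have hN0 : 0 < N := by linarith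
  have hin : ∀ z : ℂ, ‖z - (y / 2 : ℝ)‖ < δ / 2 → ‖z‖ < δ := by
    intro z hz
    have h1 : ‖z‖ ≤ ‖z - (y / 2 : ℝ)‖ + ‖((y / 2 : ℝ) : ℂ)‖ := by
      calc ‖z‖ = ‖z - (y / 2 : ℝ) + (y / 2 : ℝ)‖ := by rw [sub_add_cancel]
        _ ≤ _ := norm_add_le _ _
    rw [Complex.norm_real, Real.norm_eq_abs, abs_of_pos (by linarith : (0 : ℝ) < y / 2)] at h1
    linarith
  have h := two_back (x1 := y) (δ := δ / 2) hy0 (by linarith) (f := f) (ε := C * N ^ (-c))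
    (M := C * N ^ (c / 2)) (mul_pos hC (Real.rpow_pos_of_pos hN0 _))
    (mul_le_mul_of_nonneg_left (Real.rpow_le_rpow_of_exponent_le hN (by linarith)) hC.le)
    (fun z hz => hf z (hin z hz)) (fun z hz => hM z (hin z hz))
    (fun x h1 h2 => h0 x h1 (h2.trans hy1) (by linarith)) ht
  refine h.trans (le_of_eq ?_)
  rw [Real.mul_rpow hC.le (Real.rpow_nonneg hN0.le _), Real.mul_rpow hC.le
    (Real.rpow_nonneg hN0.le _), ← Real.rpow_mul hN0.le, ← Real.rpow_mul hN0.le,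
    mul_mul_mul_comm, ← Real.rpow_add hC, ← Real.rpow_add hN0]
  have e1 : (1 / 2 : ℝ) + 1 / 2 = 1 := by norm_num
  have e2 : -c * (1 / 2) + c / 2 * (1 / 2) = -(c / 4) := by ring
  rw [e1, e2, Real.rpow_one]

/-! ### the glue -/

/-- a constant times a power is below a larger power -/
theorem ev_mul_rpow {a b : ℝ} (h : a < b) (C : ℝ) : ∀ᶠ n : ℕ in atTop, C * (n : ℝ) ^ a ≤ (n : ℝ) ^ b := by
  have h1 : Tendsto (fun n : ℕ => (n : ℝ) ^ (b - a)) atTop atTop :=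
    (tendsto_rpow_atTop (by linarith)).comp tendsto_natCast_atTop_atTop
  filter_upwards [h1.eventually_ge_atTop C, eventually_ge_atTop 1] with n hn h2
  have hn0 : (0 : ℝ) < n := by exact_mod_cast h2
  have e : (n : ℝ) ^ b = (n : ℝ) ^ (b - a) * (n : ℝ) ^ a := by
    rw [← Real.rpow_add hn0, sub_add_cancel]
  rw [e]
  exact mul_le_mul_of_nonneg_right hn (Real.rpow_nonneg hn0.le _)

/-- **glue, from the real interval `[0, x1]` to `[0, b]`**: `Y n` analytic and at most `n ^ ε` near `[0, b]`,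
`Y n = A * Λ n` on `[0, x1]` up to `n ^ (-c)` -/
theorem glue_real {Y : ℕ → ℂ → ℂ} {A : ℂ → ℂ} {Lam : ℕ → ℂ} {b x1 δ c C A0 : ℝ} (hx : 0 < x1)
    (hδ : 0 < δ) (hc : 0 < c) (hC : 0 < C)
    (hYd : ∀ᶠ n in atTop, ∀ z ∈ Rc 0 b δ, DifferentiableAt ℂ (Y n) z)
    (hYb : ∀ ε : ℝ, 0 < ε → ∀ᶠ n : ℕ in atTop, ∀ z ∈ Rc 0 b δ, ‖Y n z‖ ≤ (n : ℝ) ^ ε)
    (hAd : ∀ z ∈ Rc 0 b δ, DifferentiableAt ℂ A z) (hAb : ∀ z ∈ Rc 0 b δ, ‖A z‖ ≤ A0)
    (hL : ∀ ε : ℝ, 0 < ε → ∀ᶠ n : ℕ in atTop, ‖Lam n‖ ≤ (n : ℝ) ^ ε)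
    (hS : ∀ᶠ n : ℕ in atTop, ∀ x : ℝ, 0 ≤ x → x ≤ b → x ≤ x1 →
      ‖Y n x - A x * Lam n‖ ≤ C * (n : ℝ) ^ (-c)) :
    ∃ c' : ℝ, 0 < c' ∧ ∀ᶠ n : ℕ in atTop, ∀ x : ℝ, 0 ≤ x → x ≤ b →
      ‖Y n x - A x * Lam n‖ ≤ (n : ℝ) ^ (-c') := by
  obtain ⟨ep, c', hep, hc', key⟩ := two_constN (a := 0) (b := b) hx hδ hc
  refine ⟨c' / 2, by positivity, ?_⟩
  filter_upwards [hYd, hYb (ep / 2) (by positivity), hL (ep / 2) (by positivity), hS,
    ev_mul_rpow (a := ep / 2) (b := ep) (by linarith) ((1 + A0) / C),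
    ev_mul_rpow (a := -c') (b := -(c' / 2)) (by linarith) C,
    eventually_ge_atTop 1] with n h1 h2 h3 h4 h5 h6 h7 x hx0 hxb
  have hn1 : (1 : ℝ) ≤ n := by exact_mod_cast h7
  refine (key (fun z => Y n z - A z * Lam n) C n hC hn1
    (fun z hz => (h1 z hz).sub ((hAd z hz).mul_const _)) (fun z hz => ?_)
    (fun x g1 g2 g3 => h4 x g1 g2 (by linarith)) x hx0 hxb).trans h6
  have hA0 : 0 ≤ A0 := (norm_nonneg _).trans (hAb z hz)
  calc ‖Y n z - A z * Lam n‖ ≤ ‖Y n z‖ + ‖A z * Lam n‖ := norm_sub_le _ _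
    _ ≤ (n : ℝ) ^ (ep / 2) + A0 * (n : ℝ) ^ (ep / 2) := by
        rw [norm_mul]
        exact add_le_add (h2 z hz) (mul_le_mul (hAb z hz) h3 (norm_nonneg _) hA0)
    _ = C * ((1 + A0) / C * (n : ℝ) ^ (ep / 2)) := by
        field_simp
    _ ≤ C * (n : ℝ) ^ ep := mul_le_mul_of_nonneg_left h5 hC.le

/-- **the glue**: `Y n` and `K n` agree on the imaginary segment up to `n ^ (-c)`, `K n = A * Λ n` on
`[0, x1]` up to `n ^ (-c)`; upper bounds `n ^ ε` of `Y n` near `[0, b]`, of `K n` near `[0, x1]` -/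
theorem glueT {Y K : ℕ → ℂ → ℂ} {A : ℂ → ℂ} {Lam : ℕ → ℂ} {b x1 s0 δ δ1 c C A0 : ℝ} (hx : 0 < x1)
    (hxb : x1 ≤ b) (hs : 0 < s0) (hδ : 0 < δ) (hδ1 : 0 < δ1) (hc : 0 < c) (hC : 0 < C)
    (hYd : ∀ᶠ n in atTop, ∀ z ∈ Rc 0 b δ, DifferentiableAt ℂ (Y n) z)
    (hYb : ∀ ε : ℝ, 0 < ε → ∀ᶠ n : ℕ in atTop, ∀ z ∈ Rc 0 b δ, ‖Y n z‖ ≤ (n : ℝ) ^ ε)
    (hKd : ∀ᶠ n in atTop, ∀ z ∈ Rc 0 x1 δ1, DifferentiableAt ℂ (K n) z)
    (hKb : ∀ ε : ℝ, 0 < ε → ∀ᶠ n : ℕ in atTop, ∀ z ∈ Rc 0 x1 δ1, ‖K n z‖ ≤ (n : ℝ) ^ ε)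
    (hAd : ∀ z ∈ Rc 0 b δ, DifferentiableAt ℂ A z) (hAb : ∀ z ∈ Rc 0 b δ, ‖A z‖ ≤ A0)
    (hL : ∀ ε : ℝ, 0 < ε → ∀ᶠ n : ℕ in atTop, ‖Lam n‖ ≤ (n : ℝ) ^ ε)
    (hS : ∀ᶠ n : ℕ in atTop, ∀ t : ℝ, |t| ≤ s0 → ‖Y n (t * I) - K n (t * I)‖ ≤ C * (n : ℝ) ^ (-c))
    (hK : ∀ᶠ n : ℕ in atTop, ∀ x : ℝ, 0 ≤ x → x ≤ x1 →
      ‖K n x - A x * Lam n‖ ≤ C * (n : ℝ) ^ (-c)) :
    ∃ c' : ℝ, 0 < c' ∧ ∀ᶠ n : ℕ in atTop, ∀ x : ℝ, 0 ≤ x → x ≤ b →
      ‖Y n x - A x * Lam n‖ ≤ (n : ℝ) ^ (-c') := by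
  obtain ⟨d, hd⟩ : ∃ d, d = min δ δ1 := ⟨_, rfl⟩
  have hd0 : 0 < d := by rw [hd]; exact lt_min hδ hδ1
  have hd1 : d ≤ δ := by rw [hd]; exact min_le_left _ _
  have hd2 : d ≤ δ1 := by rw [hd]; exact min_le_right _ _
  have hin : ∀ z ∈ Rc 0 x1 d, z ∈ Rc 0 b δ ∧ z ∈ Rc 0 x1 δ1 := by
    rintro z ⟨h1, h2, h3⟩
    exact ⟨⟨by linarith, by linarith, by linarith⟩, ⟨by linarith, by linarith, by linarith⟩⟩
  obtain ⟨ep, c1, hep, hc1, key⟩ := two_slitN (b := x1) (s0 := s0) (δ := d) (c := c) hx.le hs hd0 hc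
  obtain ⟨c2, hc2⟩ : ∃ c2, c2 = min c1 c := ⟨_, rfl⟩
  have hc20 : 0 < c2 := by rw [hc2]; exact lt_min hc1 hc
  refine glue_real (c := c2) (C := 2 * C) hx hδ hc20 (by positivity) hYd hYb hAd hAb hL ?_
  filter_upwards [hYd, hKd, hYb (ep / 2) (by positivity), hKb (ep / 2) (by positivity), hS, hK,
    ev_mul_rpow (a := ep / 2) (b := ep) (by linarith) (2 / C),
    eventually_ge_atTop 1] with n h1 h2 h3 h4 h5 h6 h7 h8 x hx0 hxb' hx1
  have hn1 : (1 : ℝ) ≤ n := by exact_mod_cast h8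
  have hn0 : (0 : ℝ) < n := by linarith
  have m1 := key (fun z => Y n z - K n z) C n hC hn1
    (fun z hz => (h1 z (hin z hz).1).sub (h2 z (hin z hz).2)) (fun z hz => ?_)
    (fun t ht _ => h5 t ht) x hx0 hx1
  · have e1 : (n : ℝ) ^ (-c1) ≤ (n : ℝ) ^ (-c2) :=
      Real.rpow_le_rpow_of_exponent_le hn1 (by
        rw [hc2]
        linarith [min_le_left c1 c])
    have e2 : (n : ℝ) ^ (-c) ≤ (n : ℝ) ^ (-c2) :=
      Real.rpow_le_rpow_of_exponent_le hn1 (by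
        rw [hc2]
        linarith [min_le_right c1 c])
    calc ‖Y n x - A x * Lam n‖ = ‖(Y n x - K n x) + (K n x - A x * Lam n)‖ := by
          rw [sub_add_sub_cancel]
      _ ≤ ‖Y n x - K n x‖ + ‖K n x - A x * Lam n‖ := norm_add_le _ _
      _ ≤ C * (n : ℝ) ^ (-c1) + C * (n : ℝ) ^ (-c) := add_le_add m1 (h6 x hx0 hx1)
      _ ≤ C * (n : ℝ) ^ (-c2) + C * (n : ℝ) ^ (-c2) := by gcongr
      _ = 2 * C * (n : ℝ) ^ (-c2) := by ring
  · calc ‖Y n z - K n z‖ ≤ ‖Y n z‖ + ‖K n z‖ := norm_sub_le _ _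
      _ ≤ (n : ℝ) ^ (ep / 2) + (n : ℝ) ^ (ep / 2) :=
          add_le_add (h3 z (hin z hz).1) (h4 z (hin z hz).2)
      _ = C * (2 / C * (n : ℝ) ^ (ep / 2)) := by
          field_simp
          ring
      _ ≤ C * (n : ℝ) ^ ep := mul_le_mul_of_nonneg_left h7 hC.le

/-- **the glue, second form**: `Y n = A * Λ n` on the imaginary segment up to `n ^ (-c)` -/
theorem glueT' {Y : ℕ → ℂ → ℂ} {A : ℂ → ℂ} {Lam : ℕ → ℂ} {b s0 δ c C A0 : ℝ} (hb : 0 ≤ b)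
    (hs : 0 < s0) (hδ : 0 < δ) (hc : 0 < c) (hC : 0 < C)
    (hYd : ∀ᶠ n in atTop, ∀ z ∈ Rc 0 b δ, DifferentiableAt ℂ (Y n) z)
    (hYb : ∀ ε : ℝ, 0 < ε → ∀ᶠ n : ℕ in atTop, ∀ z ∈ Rc 0 b δ, ‖Y n z‖ ≤ (n : ℝ) ^ ε)
    (hAd : ∀ z ∈ Rc 0 b δ, DifferentiableAt ℂ A z) (hAb : ∀ z ∈ Rc 0 b δ, ‖A z‖ ≤ A0)
    (hL : ∀ ε : ℝ, 0 < ε → ∀ᶠ n : ℕ in atTop, ‖Lam n‖ ≤ (n : ℝ) ^ ε)
    (hS : ∀ᶠ n : ℕ in atTop, ∀ t : ℝ, |t| ≤ s0 →
      ‖Y n (t * I) - A (t * I) * Lam n‖ ≤ C * (n : ℝ) ^ (-c)) :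
    ∃ c' : ℝ, 0 < c' ∧ ∀ᶠ n : ℕ in atTop, ∀ x : ℝ, 0 ≤ x → x ≤ b →
      ‖Y n x - A x * Lam n‖ ≤ (n : ℝ) ^ (-c') := by
  obtain ⟨ep, c', hep, hc', key⟩ := two_slitN hb hs hδ hc
  refine ⟨c' / 2, by positivity, ?_⟩
  filter_upwards [hYd, hYb (ep / 2) (by positivity), hL (ep / 2) (by positivity), hS,
    ev_mul_rpow (a := ep / 2) (b := ep) (by linarith) ((1 + A0) / C),
    ev_mul_rpow (a := -c') (b := -(c' / 2)) (by linarith) C,
    eventually_ge_atTop 1] with n h1 h2 h3 h4 h5 h6 h7 x hx0 hxb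
  have hn1 : (1 : ℝ) ≤ n := by exact_mod_cast h7
  refine (key (fun z => Y n z - A z * Lam n) C n hC hn1
    (fun z hz => (h1 z hz).sub ((hAd z hz).mul_const _)) (fun z hz => ?_)
    (fun t ht _ => h4 t ht) x hx0 hxb).trans h6
  have hA0 : 0 ≤ A0 := (norm_nonneg _).trans (hAb z hz)
  calc ‖Y n z - A z * Lam n‖ ≤ ‖Y n z‖ + ‖A z * Lam n‖ := norm_sub_le _ _
    _ ≤ (n : ℝ) ^ (ep / 2) + A0 * (n : ℝ) ^ (ep / 2) := by
        rw [norm_mul]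
        exact add_le_add (h2 z hz) (mul_le_mul (hAb z hz) h3 (norm_nonneg _) hA0)
    _ = C * ((1 + A0) / C * (n : ℝ) ^ (ep / 2)) := by
        field_simp
    _ ≤ C * (n : ℝ) ^ ep := mul_le_mul_of_nonneg_left h5 hC.le

end PLT.TwoC

end
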