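import Pool.Agent.PLT.EvoX
import Pool.Agent.PLT.GlueT
import Pool.Agent.PB.TrGR
import Pool.Agent.PB.TRsum
import Pool.Agent.PB.H12

/-!
# The kernel integral over the dislocated function at complex separation

* `KI q a0 b0 σ k D = ∫_{|t_i| ≤ σ log (k (a0 + b0))} k1T exp gF * fz q a0 b0 k D (qz D + zt t)` : the right side
  of the transfer in the frame of the content (cut rows at `qz D`);
* `KI_diff` : analytic for `‖D‖ < d1`; **`KI_bd`** : at most `k ^ ε`;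
* **`KI_real`** : from `VALX` the value of the integral at small real separation;
* `fz_slit` : the function on the imaginary segment in the frame of the cut rows;
* **`glueY`** : the regular function `Y k` at every real separation from the upper bound, the transfer on the
  imaginary segment and `VALX`.
-/

set_option autoImplicit false
set_option linter.unusedSectionVars false

noncomputable section

open Complex MeasureTheory Filter Topology Set Metric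

namespace PLT.FS

open NUP1 (l lpos)
open Pool.Agent.PLX (f0Q fQ FunO2)
open PBH (Hol2)
open Pool.Agent.PB (Rwo)
open PLT.Pa
open PBT3 (gF k1T zt zt_re zt_im k1_exp_le continuous_k1T continuous_exp_gF continuous_wt)
open PBTR (sT winW measurableSet_winW int_esT sT_nonneg)

variable {q a0 b0 : ℕ} {σ d1 : ℝ}

/-- **the kernel integral** -/
def KI (q a0 b0 : ℕ) (σ : ℝ) (k : ℕ) (D : ℂ) : ℂ :=
  ∫ τ in winW σ (k * (a0 + b0)), k1T τ * exp (gF τ) * fz q a0 b0 k D (qz a0 b0 D + zt τ)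

/-- the constant -/
def kapI : ℂ := ∫ τ : ℝ × ℝ, k1T τ * exp (gF τ)

theorem continuous_zt' : Continuous zt := by
  unfold zt
  exact continuous_const.sub (((continuous_wt.comp continuous_fst).add
    (continuous_wt.comp continuous_snd)).div_const _)

theorem re_qz_le (ha : 1 ≤ a0) (hb : 1 ≤ b0) (h1 : d1 ≤ 1 / 40) {D : ℂ} (h : ‖D‖ ≤ d1) :
    |(qz a0 b0 D).re| ≤ |D.re| := by
  have hA : (0 : ℝ) < a0 := by exact_mod_cast ha
  have hB : (0 : ℝ) < b0 := by exact_mod_cast hb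
  have h2 := re_pz hA hB le_rfl (ball_Nz h1 h)
  have e : (qz a0 b0 D).re = D.re / 2 - ((pz a0 b0 D).re - D.re / 2) := by
    rw [qz, sub_re]
    ring
  rw [e]
  refine (abs_sub _ _).trans ?_
  rw [abs_div, abs_two]
  linarith

theorem place_mem (ha : 1 ≤ a0) (hb : 1 ≤ b0) (h1 : d1 ≤ 1 / 40) {D : ℂ} (h : ‖D‖ ≤ d1) (τ : ℝ × ℝ) :
    -(2 / 5 * l) ≤ (qz a0 b0 D + zt τ).re ∧ (qz a0 b0 D + zt τ).re ≤ 1 / 5 * l := by
  have hl := l_gt
  have h2 := re_qz_le ha hb h1 h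
  have h3 := (abs_re_le_norm D).trans (h.trans h1)
  obtain ⟨k1, k2⟩ := abs_le.1 (h2.trans h3)
  rw [add_re, zt_re]
  constructor <;> linarith

theorem place_WZ (ha : 1 ≤ a0) (hb : 1 ≤ b0) (h1 : d1 ≤ 1 / 40) {D : ℂ} (h : ‖D‖ ≤ d1) (τ : ℝ × ℝ) :
    (D, qz a0 b0 D + zt τ) ∈ WZ (1 / 20) := by
  have hl := l_gt
  obtain ⟨k1, k2⟩ := place_mem ha hb h1 h τ
  refine ⟨ball_Nz h1 h, ?_⟩
  show |(qz a0 b0 D + zt τ).re| < 3 * l
  rw [abs_lt]
  constructor <;> linarith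

/-- the function along the path of the place is analytic in `D` -/
theorem fzq_diff (q : ℕ) (ha : 1 ≤ a0) (hb : 1 ≤ b0) (h1 : d1 ≤ 1 / 40) (k : ℕ) {D : ℂ} (h : ‖D‖ ≤ d1)
    (τ : ℝ × ℝ) : DifferentiableAt ℂ (fun D => fz q a0 b0 k D (qz a0 b0 D + zt τ)) D := by
  have hA : (0 : ℝ) < a0 := by exact_mod_cast ha
  have hB : (0 : ℝ) < b0 := by exact_mod_cast hb
  have H := Fz_Hol2 q hA hB (de := 1 / 20) le_rfl (k * a0) (k * b0)
  have hq := (qz_deriv hA hB le_rfl (ball_Nz h1 h)).add_const (zt τ)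
  have hp := place_WZ ha hb h1 h τ
  exact (curve2z (WZ_open _) H (u := fun D => D) (v := fun D => qz a0 b0 D + zt τ) hp (hasDerivAt_id D) hq
    (H.d1 _ hp).hasDerivAt (H.d2 _ hp).hasDerivAt).differentiableAt

/-- joint continuity -/
theorem fzq_cont (q : ℕ) (ha : 1 ≤ a0) (hb : 1 ≤ b0) (h1 : d1 ≤ 1 / 40) (k : ℕ) {p : ℂ × (ℝ × ℝ)}
    (h : ‖p.1‖ ≤ d1) : ContinuousAt (fun p : ℂ × (ℝ × ℝ) => fz q a0 b0 k p.1 (qz a0 b0 p.1 + zt p.2)) p := by
  have hA : (0 : ℝ) < a0 := by exact_mod_cast ha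
  have hB : (0 : ℝ) < b0 := by exact_mod_cast hb
  have H := (Fz_Hol2 q hA hB (de := 1 / 20) le_rfl (k * a0) (k * b0)).cont _ (place_WZ ha hb h1 h p.2)
  have hq : ContinuousAt (fun p : ℂ × (ℝ × ℝ) => qz a0 b0 p.1) p :=
    ((qz_deriv hA hB le_rfl (ball_Nz h1 h)).continuousAt).comp continuousAt_fst
  have hz : ContinuousAt (fun p : ℂ × (ℝ × ℝ) => zt p.2) p :=
    (continuous_zt'.comp continuous_snd).continuousAt
  exact ContinuousAt.comp (f := fun p : ℂ × (ℝ × ℝ) => (p.1, qz a0 b0 p.1 + zt p.2))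
    (g := fun p : ℂ × ℂ => Fz q a0 b0 (k * a0) (k * b0) p.1 p.2) H (continuousAt_fst.prodMk (hq.add hz))

theorem winW_eq (a : ℝ) (k : ℕ) : winW a k =
    Icc (-(a * Real.log k)) (a * Real.log k) ×ˢ Icc (-(a * Real.log k)) (a * Real.log k) := by
  ext τ
  simp only [winW, mem_prod, mem_Icc, abs_le]
  rfl

theorem isCompact_winW (a : ℝ) (k : ℕ) : IsCompact (winW a k) := by
  rw [winW_eq]
  exact isCompact_Icc.prod isCompact_Icc

/-- **the integral is analytic** -/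
theorem KI_diff (q : ℕ) (ha : 1 ≤ a0) (hb : 1 ≤ b0) (h1 : d1 ≤ 1 / 40) (σ : ℝ) (k : ℕ) {D : ℂ} (h : ‖D‖ < d1) :
    DifferentiableAt ℂ (KI q a0 b0 σ k) D := by
  obtain ⟨R, hR⟩ : ∃ R, R = (d1 - ‖D‖) / 2 := ⟨_, rfl⟩
  have hR0 : 0 < R := by rw [hR]; linarith
  have hin : ∀ D' ∈ closedBall D R, ‖D'‖ ≤ d1 := by
    intro D' hD'
    rw [mem_closedBall, dist_eq_norm] at hD'
    have := norm_add_le D (D' - D)
    rw [add_sub_cancel] at this
    linarith
  have hS := isCompact_winW σ (k * (a0 + b0))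
  have hcont : ContinuousOn (fun p : ℂ × (ℝ × ℝ) => k1T p.2 * exp (gF p.2) *
      fz q a0 b0 k p.1 (qz a0 b0 p.1 + zt p.2)) (closedBall D R ×ˢ winW σ (k * (a0 + b0))) := by
    intro p hp
    exact ((((continuous_k1T.comp continuous_snd).mul (continuous_exp_gF.comp continuous_snd)).continuousAt).mul
      (fzq_cont q ha hb h1 k (hin _ hp.1))).continuousWithinAt
  obtain ⟨B, hB⟩ := ((isCompact_closedBall D R).prod hS).exists_bound_of_continuousOn hcont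
  refine NURow.differentiableAt_integral (μ := volume.restrict (winW σ (k * (a0 + b0)))) hR0
    (b := fun _ => B) (fun D' hD' => ?_) ?_ ?_ ?_
  · refine ContinuousOn.aestronglyMeasurable (fun τ hτ => ?_) (measurableSet_winW _ _)
    have h2 := fzq_cont q ha hb h1 k (p := (D', τ)) (hin D' (ball_subset_closedBall hD'))
    have h3 : ContinuousAt (fun τ : ℝ × ℝ => fz q a0 b0 k D' (qz a0 b0 D' + zt τ)) τ :=
      ContinuousAt.comp (f := fun τ : ℝ × ℝ => (D', τ)) h2 (by fun_prop)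
    exact ((continuous_k1T.mul continuous_exp_gF).continuousAt.mul h3).continuousWithinAt
  · refine Eventually.of_forall fun τ D' hD' => ?_
    exact ((fzq_diff q ha hb h1 k (hin D' (ball_subset_closedBall hD')) τ).const_mul _).differentiableWithinAt
  · refine (ae_restrict_iff' (measurableSet_winW _ _)).2 (Eventually.of_forall fun τ hτ D' hD' => ?_)
    exact hB (D', τ) ⟨ball_subset_closedBall hD', hτ⟩
  · exact (continuous_const (y := B)).continuousOn.integrableOn_compact hS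

/-! ### bounds -/

theorem qz_bound (ha : 1 ≤ a0) (hb : 1 ≤ b0) (h1 : d1 ≤ 1 / 40) : ∃ c0 : ℝ, 0 ≤ c0 ∧ ∀ D : ℂ, ‖D‖ ≤ d1 →
    |(qz a0 b0 D).im| ≤ c0 := by
  have hA : (0 : ℝ) < a0 := by exact_mod_cast ha
  have hB : (0 : ℝ) < b0 := by exact_mod_cast hb
  obtain ⟨K, hK⟩ := (isCompact_closedBall (0 : ℂ) d1).exists_bound_of_continuousOn
    (f := fun D => qz a0 b0 D) fun D hD =>
      ((qz_deriv hA hB le_rfl (ball_Nz h1 (by simpa using hD))).continuousAt).continuousWithinAt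
  refine ⟨|K|, abs_nonneg _, fun D hD => ?_⟩
  exact (abs_im_le_norm _).trans ((hK D (by simpa using hD)).trans (le_abs_self K))

/-- the height of the legs -/
theorem place_im {D : ℂ} {c0 : ℝ} (h : |(qz a0 b0 D).im| ≤ c0) (τ : ℝ × ℝ) :
    |(qz a0 b0 D + zt τ).im| ≤ c0 + sT τ / 2 := by
  rw [add_im, zt_im]
  have h1 := abs_add_le (qz a0 b0 D).im (-(τ.1 + τ.2) / 2)
  have h2 : |-(τ.1 + τ.2) / 2| ≤ sT τ / 2 := by
    rw [abs_div, abs_neg, abs_two]
    unfold sT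
    have := abs_add_le τ.1 τ.2
    linarith
  linarith

/-- eventually the legs are in the window of the upper bound -/
theorem ev_win (ha : 1 ≤ a0) (hσ : σ < 9 / 80) (c0 : ℝ) : ∀ᶠ k : ℕ in atTop,
    ∀ τ ∈ winW σ (k * (a0 + b0)), c0 + sT τ / 2 ≤ 9 / 80 * Real.log k + 1 := by
  have h1 : Tendsto (fun k : ℕ => (9 / 80 - σ) * Real.log k) atTop atTop :=
    (Real.tendsto_log_atTop.comp tendsto_natCast_atTop_atTop).const_mul_atTop (by linarith)
  filter_upwards [h1.eventually_ge_atTop (c0 + |σ * Real.log ((a0 + b0 : ℕ) : ℝ)|), eventually_ge_atTop 1]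
    with k hk hk1 τ hτ
  have hk0 : (0 : ℝ) < k := by exact_mod_cast hk1
  have h2 : sT τ ≤ 2 * (σ * Real.log ((k * (a0 + b0) : ℕ) : ℝ)) := by
    unfold sT
    linarith [hτ.1, hτ.2]
  have h4 : (0 : ℝ) < ((a0 + b0 : ℕ) : ℝ) := by exact_mod_cast (by omega : 0 < a0 + b0)
  have h5 : Real.log ((k * (a0 + b0) : ℕ) : ℝ) = Real.log k + Real.log ((a0 + b0 : ℕ) : ℝ) := by
    rw [Nat.cast_mul, Real.log_mul hk0.ne' h4.ne']
  rw [h5] at h2
  have h6 := le_abs_self (σ * Real.log ((a0 + b0 : ℕ) : ℝ))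
  nlinarith

theorem k1_int : Integrable (fun τ : ℝ × ℝ => k1T τ * exp (gF τ)) := by
  obtain ⟨A, hA, h⟩ := k1_exp_le
  refine ((int_esT (θ := 3) (by norm_num)).const_mul A).mono'
    (continuous_k1T.mul continuous_exp_gF).aestronglyMeasurable (Eventually.of_forall fun τ => ?_)
  exact h τ

/-- **the integral is at most `k ^ ε`** -/
theorem KI_bd (ha : 1 ≤ a0) (hb : 1 ≤ b0) (h1 : d1 ≤ 1 / 40) (hσ : σ < 9 / 80) (hU : UBD q a0 b0 d1) {ε : ℝ}
    (hε : 0 < ε) : ∀ᶠ k : ℕ in atTop, ∀ D : ℂ, ‖D‖ ≤ d1 → ‖KI q a0 b0 σ k D‖ ≤ (k : ℝ) ^ ε := by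
  obtain ⟨A, hA, hk1⟩ := k1_exp_le
  obtain ⟨c0, hc0, hc⟩ := qz_bound ha hb h1
  have hi : Integrable fun τ : ℝ × ℝ => Real.exp (-(2 * sT τ)) := int_esT (by norm_num)
  filter_upwards [hU (ε / 2) (by positivity), ev_win (b0 := b0) ha hσ c0,
    PLT.TwoC.ev_mul_rpow (a := ε / 2) (b := ε) (by linarith)
      (A * Real.exp (2 * c0) * ∫ τ : ℝ × ℝ, Real.exp (-(2 * sT τ)))] with k u w p D hD
  have hkn : (0 : ℝ) ≤ (k : ℝ) ^ (ε / 2) := Real.rpow_nonneg (Nat.cast_nonneg _) _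
  have hpt : ∀ τ ∈ winW σ (k * (a0 + b0)), ‖k1T τ * exp (gF τ) * fz q a0 b0 k D (qz a0 b0 D + zt τ)‖ ≤
      A * Real.exp (2 * c0) * (k : ℝ) ^ (ε / 2) * Real.exp (-(2 * sT τ)) := by
    intro τ hτ
    obtain ⟨k2, k3⟩ := place_mem ha hb h1 hD τ
    have k4 := place_im (hc D hD) τ
    have k5 := u D hD _ k2 k3 (k4.trans (w τ hτ))
    have k6 : Real.exp (2 * |(qz a0 b0 D + zt τ).im|) ≤ Real.exp (2 * c0 + sT τ) :=
      Real.exp_le_exp.2 (by linarith)
    rw [norm_mul]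
    calc ‖k1T τ * exp (gF τ)‖ * ‖fz q a0 b0 k D (qz a0 b0 D + zt τ)‖ ≤
          (A * Real.exp (-(3 * (|τ.1| + |τ.2|)))) * ((k : ℝ) ^ (ε / 2) * Real.exp (2 * c0 + sT τ)) :=
        mul_le_mul (hk1 τ) (k5.trans (mul_le_mul_of_nonneg_left k6 hkn)) (norm_nonneg _) (by positivity)
      _ = A * Real.exp (2 * c0) * (k : ℝ) ^ (ε / 2) * Real.exp (-(2 * sT τ)) := by
        have e : Real.exp (-(3 * (|τ.1| + |τ.2|))) * Real.exp (2 * c0 + sT τ) =
            Real.exp (2 * c0) * Real.exp (-(2 * sT τ)) := by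
          rw [← Real.exp_add, ← Real.exp_add]
          congr 1
          unfold sT
          ring
        linear_combination A * (k : ℝ) ^ (ε / 2) * e
  have hg : Integrable (fun τ : ℝ × ℝ =>
      A * Real.exp (2 * c0) * (k : ℝ) ^ (ε / 2) * Real.exp (-(2 * sT τ))) := hi.const_mul _
  have h2 : ‖KI q a0 b0 σ k D‖ ≤ ∫ τ in winW σ (k * (a0 + b0)),
      A * Real.exp (2 * c0) * (k : ℝ) ^ (ε / 2) * Real.exp (-(2 * sT τ)) :=
    norm_integral_le_of_norm_le hg.integrableOn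
      ((ae_restrict_iff' (measurableSet_winW _ _)).2 (Eventually.of_forall hpt))
  have h3 : (∫ τ in winW σ (k * (a0 + b0)),
      A * Real.exp (2 * c0) * (k : ℝ) ^ (ε / 2) * Real.exp (-(2 * sT τ))) ≤
      ∫ τ : ℝ × ℝ, A * Real.exp (2 * c0) * (k : ℝ) ^ (ε / 2) * Real.exp (-(2 * sT τ)) :=
    setIntegral_le_integral hg (Eventually.of_forall fun τ => by positivity)
  refine h2.trans (h3.trans (le_trans (le_of_eq ?_) p))
  rw [integral_const_mul]
  ring

/-- **the value of the kernel integral at small real separation** -/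
theorem KI_real (ha : 1 ≤ a0) (hb : 1 ≤ b0) (h1 : d1 ≤ 1 / 100) (hσ0 : 0 < σ) (hσ : σ < 9 / 80) {x1 G0 : ℝ}
    {g : ℕ → ℂ} (hx1 : x1 ≤ d1) (hU : UBD q a0 b0 d1) (hV : VALX q a0 b0 g x1)
    (hg : ∀ᶠ n : ℕ in atTop, ‖g n‖ ≤ G0) : ∃ c : ℝ, 0 < c ∧ ∃ C : ℝ, 0 < C ∧ ∀ᶠ k : ℕ in atTop, ∀ x : ℝ,
      0 ≤ x → x ≤ x1 → ‖KI q a0 b0 σ k (x : ℂ) - kapI * g (k * a0 + k * b0)‖ ≤ C * (k : ℝ) ^ (-c) := by
  have hA' : (0 : ℝ) < a0 := by exact_mod_cast ha
  have hB' : (0 : ℝ) < b0 := by exact_mod_cast hb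
  have hl := l_gt
  obtain ⟨A, hA, hk1⟩ := k1_exp_le
  obtain ⟨c2, hc2, e2, he2, C, hV⟩ := hV
  obtain ⟨c, hc⟩ : ∃ c, c = min c2 (min e2 σ) := ⟨_, rfl⟩
  have hc0 : 0 < c := by rw [hc]; exact lt_min hc2 (lt_min he2 hσ0)
  have g1 : c ≤ c2 := by rw [hc]; exact min_le_left _ _
  have g2 : c ≤ e2 := by rw [hc]; exact (min_le_right _ _).trans (min_le_left _ _)
  have g3 : c ≤ σ := by rw [hc]; exact (min_le_right _ _).trans (min_le_right _ _)
  have hi : Integrable fun τ : ℝ × ℝ => Real.exp (-(1 * sT τ)) := int_esT (by norm_num)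
  obtain ⟨C1, hC1⟩ : ∃ C1, C1 = A * (|C| + 1 + |G0|) := ⟨_, rfl⟩
  have hC1p : 0 < C1 := by
    rw [hC1]
    positivity
  have hI0 : 0 ≤ ∫ τ : ℝ × ℝ, Real.exp (-(1 * sT τ)) := integral_nonneg fun τ => (Real.exp_pos _).le
  have hgt : ∀ᶠ k : ℕ in atTop, ‖g (k * a0 + k * b0)‖ ≤ G0 := by
    have ht : Tendsto (fun k : ℕ => k * a0 + k * b0) atTop atTop := by
      refine tendsto_atTop_mono (fun k => ?_) tendsto_id
      show k ≤ _
      nlinarith [Nat.zero_le (k * b0), Nat.le_mul_of_pos_right k (by omega : 0 < a0)]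
    exact ht.eventually hg
  refine ⟨c, hc0, C1 * (∫ τ : ℝ × ℝ, Real.exp (-(1 * sT τ))) + 1, by positivity, ?_⟩
  filter_upwards [hV, hU e2 he2, ev_win (b0 := b0) ha hσ 0, hgt, eventually_ge_atTop 1] with k v u w hgk hk1' x hx0 hxx
  have hk1R : (1 : ℝ) ≤ k := by exact_mod_cast hk1'
  have hk0 : (0 : ℝ) < k := by linarith
  have hlk : 0 ≤ Real.log k := Real.log_nonneg hk1R
  have hkp : ∀ {x y : ℝ}, x ≤ y → (k : ℝ) ^ x ≤ (k : ℝ) ^ y := fun h =>
    Real.rpow_le_rpow_of_exponent_le hk1R h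
  have hkpos : ∀ x : ℝ, 0 < (k : ℝ) ^ x := fun x => Real.rpow_pos_of_pos hk0 x
  have hexp : ∀ x : ℝ, Real.exp (x * Real.log k) = (k : ℝ) ^ x := fun x => by
    rw [Real.rpow_def_of_pos hk0, mul_comm]
  have hxd : ‖(x : ℂ)‖ ≤ d1 := by
    rw [Complex.norm_real, Real.norm_eq_abs, abs_of_nonneg hx0]
    linarith
  have h1' : d1 ≤ 1 / 40 := by linarith
  have hq : qz a0 b0 (x : ℂ) = ((qq a0 b0 x : ℝ) : ℂ) := qz_real hA' hB' ⟨hx0, by linarith⟩
  have hqim : |(qz a0 b0 (x : ℂ)).im| ≤ 0 := by rw [hq, ofReal_im, abs_zero]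
  have hqre : |(qz a0 b0 (x : ℂ)).re| ≤ 1 / 100 := by
    refine (re_qz_le ha hb h1' hxd).trans ?_
    rw [ofReal_re, abs_of_nonneg hx0]
    linarith
  obtain ⟨q1, q2⟩ := abs_le.1 hqre
  set W := winW σ (k * (a0 + b0)) with hW
  set F : ℝ × ℝ → ℂ := fun τ => W.indicator (fun τ => k1T τ * exp (gF τ) *
      fz q a0 b0 k x (qz a0 b0 x + zt τ)) τ - k1T τ * exp (gF τ) * g (k * a0 + k * b0) with hF
  have hpt : ∀ τ, ‖F τ‖ ≤ C1 * (k : ℝ) ^ (-c) * Real.exp (-(1 * sT τ)) := by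
    intro τ
    have hs0 := sT_nonneg τ
    have e3 : ‖k1T τ * exp (gF τ)‖ ≤ A * Real.exp (-(3 * sT τ)) := hk1 τ
    have hG0 : 0 ≤ G0 := (norm_nonneg _).trans hgk
    by_cases hτ : τ ∈ W
    · have eF : F τ = k1T τ * exp (gF τ) * (fz q a0 b0 k x (qz a0 b0 x + zt τ) - g (k * a0 + k * b0)) := by
        rw [hF]
        simp only [indicator_of_mem hτ]
        ring
      have k4 := place_im hqim τ
      rw [zero_add] at k4
      rcases le_or_gt (sT τ) (2 * e2 * Real.log k) with hs | hs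
      · have k5 := v x ⟨hx0, hxx⟩ (qz a0 b0 x + zt τ) (by rw [add_re, zt_re]; linarith)
          (by rw [add_re, zt_re]; linarith) (by linarith)
        rw [eF, norm_mul]
        calc ‖k1T τ * exp (gF τ)‖ * ‖fz q a0 b0 k x (qz a0 b0 x + zt τ) - g (k * a0 + k * b0)‖ ≤
              (A * Real.exp (-(3 * sT τ))) * (C * (k : ℝ) ^ (-c2)) :=
            mul_le_mul e3 k5 (norm_nonneg _) (by positivity)
          _ ≤ (A * Real.exp (-(1 * sT τ))) * ((|C| + 1 + |G0|) * (k : ℝ) ^ (-c)) := by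
            refine mul_le_mul ?_ ?_ ((norm_nonneg _).trans k5) (by positivity)
            · exact mul_le_mul_of_nonneg_left (Real.exp_le_exp.2 (by linarith)) hA.le
            · refine mul_le_mul ?_ (hkp (by linarith)) (hkpos _).le (by positivity)
              linarith [le_abs_self C, abs_nonneg G0]
          _ = _ := by rw [hC1]; ring
      · obtain ⟨k2, k3⟩ := place_mem ha hb h1' hxd τ
        have hwτ := w τ hτ
        rw [zero_add] at hwτ
        have k5 := u x hxd _ k2 k3 (k4.trans hwτ)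
        have k6 : Real.exp (2 * |(qz a0 b0 (x : ℂ) + zt τ).im|) ≤ Real.exp (sT τ) :=
          Real.exp_le_exp.2 (by linarith)
        have k7 : ‖fz q a0 b0 k x (qz a0 b0 x + zt τ) - g (k * a0 + k * b0)‖ ≤
            (1 + |G0|) * ((k : ℝ) ^ e2 * Real.exp (sT τ)) := by
          have m1 : (1 : ℝ) ≤ (k : ℝ) ^ e2 := Real.one_le_rpow hk1R he2.le
          have m2 : (1 : ℝ) ≤ Real.exp (sT τ) := Real.one_le_exp hs0
          have m3 : 1 ≤ (k : ℝ) ^ e2 * Real.exp (sT τ) := one_le_mul_of_one_le_of_one_le m1 m2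
          calc ‖fz q a0 b0 k x (qz a0 b0 x + zt τ) - g (k * a0 + k * b0)‖ ≤
                ‖fz q a0 b0 k x (qz a0 b0 x + zt τ)‖ + ‖g (k * a0 + k * b0)‖ := norm_sub_le _ _
            _ ≤ (k : ℝ) ^ e2 * Real.exp (sT τ) + |G0| * ((k : ℝ) ^ e2 * Real.exp (sT τ)) := by
              refine add_le_add (k5.trans (mul_le_mul_of_nonneg_left k6 (hkpos _).le)) ?_
              refine (hgk.trans (le_abs_self _)).trans ?_
              exact le_mul_of_one_le_right (abs_nonneg _) m3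
            _ = _ := by ring
        have k8 : Real.exp (-sT τ) ≤ (k : ℝ) ^ (-(2 * e2)) := by
          rw [← hexp]
          exact Real.exp_le_exp.2 (by linarith)
        rw [eF, norm_mul]
        calc ‖k1T τ * exp (gF τ)‖ * ‖fz q a0 b0 k x (qz a0 b0 x + zt τ) - g (k * a0 + k * b0)‖ ≤
              (A * Real.exp (-(3 * sT τ))) * ((1 + |G0|) * ((k : ℝ) ^ e2 * Real.exp (sT τ))) :=
            mul_le_mul e3 k7 (norm_nonneg _) (by positivity)
          _ = A * (1 + |G0|) * (k : ℝ) ^ e2 * (Real.exp (-sT τ) * Real.exp (-(1 * sT τ))) := by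
            have e : Real.exp (-(3 * sT τ)) * Real.exp (sT τ) = Real.exp (-sT τ) * Real.exp (-(1 * sT τ)) := by
              rw [← Real.exp_add, ← Real.exp_add]
              congr 1
              ring
            linear_combination A * (1 + |G0|) * (k : ℝ) ^ e2 * e
          _ ≤ A * (1 + |G0|) * (k : ℝ) ^ e2 * ((k : ℝ) ^ (-(2 * e2)) * Real.exp (-(1 * sT τ))) := by
            have := hkpos e2
            gcongr
          _ = A * (1 + |G0|) * (k : ℝ) ^ (-e2) * Real.exp (-(1 * sT τ)) := by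
            have e : (k : ℝ) ^ e2 * (k : ℝ) ^ (-(2 * e2)) = (k : ℝ) ^ (-e2) := by
              rw [← Real.rpow_add hk0]
              congr 1
              ring
            linear_combination A * (1 + |G0|) * Real.exp (-(1 * sT τ)) * e
          _ ≤ A * (|C| + 1 + |G0|) * (k : ℝ) ^ (-c) * Real.exp (-(1 * sT τ)) := by
            have hle : (k : ℝ) ^ (-e2) ≤ (k : ℝ) ^ (-c) := hkp (by linarith)
            have := hkpos (-e2)
            gcongr
            linarith [abs_nonneg C]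
          _ = _ := by rw [hC1]
    · have eF : F τ = -(k1T τ * exp (gF τ) * g (k * a0 + k * b0)) := by
        rw [hF]
        simp only [indicator_of_notMem hτ]
        ring
      have hs : σ * Real.log k ≤ sT τ := by
        by_contra hcon
        push Not at hcon
        refine hτ ?_
        have hm : Real.log k ≤ Real.log ((k * (a0 + b0) : ℕ) : ℝ) := by
          refine Real.log_le_log hk0 ?_
          have : k ≤ k * (a0 + b0) := Nat.le_mul_of_pos_right k (by omega)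
          exact_mod_cast this
        have h5 : σ * Real.log k ≤ σ * Real.log ((k * (a0 + b0) : ℕ) : ℝ) :=
          mul_le_mul_of_nonneg_left hm hσ0.le
        have h6 : |τ.1| ≤ sT τ := le_add_of_nonneg_right (abs_nonneg _)
        have h7 : |τ.2| ≤ sT τ := le_add_of_nonneg_left (abs_nonneg _)
        exact ⟨by linarith, by linarith⟩
      have k8 : Real.exp (-(2 * sT τ)) ≤ (k : ℝ) ^ (-c) := by
        rw [← hexp]
        refine Real.exp_le_exp.2 ?_
        have : c * Real.log k ≤ σ * Real.log k := mul_le_mul_of_nonneg_right g3 hlk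
        linarith
      rw [eF, norm_neg, norm_mul]
      calc ‖k1T τ * exp (gF τ)‖ * ‖g (k * a0 + k * b0)‖ ≤ (A * Real.exp (-(3 * sT τ))) * |G0| :=
            mul_le_mul e3 (hgk.trans (le_abs_self _)) (norm_nonneg _) (by positivity)
        _ = A * |G0| * (Real.exp (-(2 * sT τ)) * Real.exp (-(1 * sT τ))) := by
            have e : Real.exp (-(3 * sT τ)) = Real.exp (-(2 * sT τ)) * Real.exp (-(1 * sT τ)) := by
              rw [← Real.exp_add]
              congr 1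
              ring
            linear_combination A * |G0| * e
        _ ≤ A * (|C| + 1 + |G0|) * ((k : ℝ) ^ (-c) * Real.exp (-(1 * sT τ))) := by
            gcongr
            linarith [abs_nonneg C]
        _ = _ := by rw [hC1]; ring
  have hfi : IntegrableOn (fun τ => k1T τ * exp (gF τ) * fz q a0 b0 k x (qz a0 b0 x + zt τ)) W := by
    refine ContinuousOn.integrableOn_compact (isCompact_winW _ _) fun τ _ => ?_
    have h2 := fzq_cont q ha hb h1' k (p := ((x : ℂ), τ)) hxd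
    have h3 : ContinuousAt (fun τ : ℝ × ℝ => fz q a0 b0 k x (qz a0 b0 x + zt τ)) τ :=
      ContinuousAt.comp (f := fun τ : ℝ × ℝ => ((x : ℂ), τ)) h2 (by fun_prop)
    exact ((continuous_k1T.mul continuous_exp_gF).continuousAt.mul h3).continuousWithinAt
  have hWm : MeasurableSet W := measurableSet_winW _ _
  have e1 : KI q a0 b0 σ k (x : ℂ) - kapI * g (k * a0 + k * b0) = ∫ τ, F τ := by
    rw [hF, integral_sub (hfi.integrable_indicator hWm) (k1_int.mul_const _), integral_indicator hWm,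
      integral_mul_const]
    rfl
  have hFb : ‖∫ τ, F τ‖ ≤ ∫ τ : ℝ × ℝ, C1 * (k : ℝ) ^ (-c) * Real.exp (-(1 * sT τ)) :=
    norm_integral_le_of_norm_le (hi.const_mul _) (Eventually.of_forall hpt)
  rw [e1]
  refine hFb.trans ?_
  rw [integral_const_mul]
  have := hkpos (-c)
  nlinarith

/-! ### the imaginary segment -/

/-- **the function on the imaginary segment in the frame of the cut rows** -/
theorem fz_slit (q : ℕ) (ha : 1 ≤ a0) (hb : 1 ≤ b0) (k : ℕ) {s : ℝ} {w : ℂ}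
    (hw : |w.re| < 3 * l) : fz q a0 b0 k (I * s) (qz a0 b0 (I * s) + w) =
      fQ q (cnt (k * a0) (k * b0) (-(I * s)) 0) w := by
  have hl := l_gt
  have hA : (0 : ℝ) < a0 := by exact_mod_cast ha
  have hB : (0 : ℝ) < b0 := by exact_mod_cast hb
  have hq := qz_slit hA hB s
  have hp := pz_slit hA hB s
  have hre : ∀ r : ℝ, (I * (r : ℂ)).re = 0 := fun r => by simp
  have hrw : ∀ a b : ℕ, ∀ u v : ℂ, u.re = 0 → v.re = 0 → Rwo (cnt a b u v) := by
    intro a b u v hu hv i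
    refine cnt_cases (p := fun w : ℂ => |w.re| < 3 / 5 * l) ?_ ?_ i
    · rw [hu, abs_zero]
      positivity
    · rw [hv, abs_zero]
      positivity
  have h1 : Rwo (cz a0 b0 (k * a0) (k * b0) (I * s)) := by
    unfold cz
    refine hrw _ _ _ _ ?_ ?_
    · rw [hp, neg_re, hre, neg_zero]
    · rw [hq, hre]
  have e1 : cnt (k * a0) (k * b0) (-(I * s)) 0 =
      sh (-(qz a0 b0 (I * s))) (cz a0 b0 (k * a0) (k * b0) (I * s)) := by
    funext i
    rw [sh_apply]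
    unfold cz
    refine Fin.addCases (fun i => ?_) (fun i => ?_) i
    · rw [cnt_left, cnt_left, qz]
      ring
    · rw [cnt_right, cnt_right]
      ring
  have h2 : Rwo (sh (-(qz a0 b0 (I * s))) (cz a0 b0 (k * a0) (k * b0) (I * s))) := by
    rw [← e1]
    exact hrw _ _ _ _ (by rw [neg_re, hre, neg_zero]) rfl
  have hz : |(qz a0 b0 (I * s) + w).re| < 3 * l := by
    rw [add_re, hq, hre, zero_add]
    exact hw
  unfold fz Fz
  rw [fS_self q h1 hz, e1]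
  have h3 := fQ_sh q (c := -(qz a0 b0 (I * s))) (z := qz a0 b0 (I * s) + w) h1 h2 (by
    rw [neg_re, hq, hre, neg_zero, abs_zero]
    positivity) (hz.trans (by linarith)) (by
    rw [neg_re, add_re, hq, hre, zero_add, neg_zero, add_zero]
    linarith)
  rw [← h3]
  congr 1
  ring

/-! ### the regular function at every real separation -/

/-- **the glue**: `Y k` analytic and at most `k ^ ε` near `[0, l]`, the transfer on the imaginary segment, the value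
of the function at small real separation -/
theorem glueY (ha : 1 ≤ a0) (hb : 1 ≤ b0) (hd0 : 0 < d1) (h1 : d1 ≤ 1 / 100) (hσ0 : 0 < σ) (hσ : σ < 9 / 80)
    {x1 s0 δ c0 c C : ℝ} {g : ℕ → ℂ} (hx0 : 0 < x1) (hs : 0 < s0) (hδ : 0 < δ) (hc0 : 0 < c0) (hc : 0 < c)
    (hF : FunO2 c0 (f0Q q) g) (hU : UBD q a0 b0 d1) (hV : VALX q a0 b0 g x1) {Y : ℕ → ℂ → ℂ} {u : ℕ → ℂ} {U : ℂ}
    (hu : ∀ᶠ k : ℕ in atTop, ‖u k‖ ≤ 1)
    (hYd : ∀ᶠ k : ℕ in atTop, ∀ D ∈ PLT.TwoC.Rc 0 l δ, DifferentiableAt ℂ (Y k) D)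
    (hYb : ∀ ε : ℝ, 0 < ε → ∀ᶠ k : ℕ in atTop, ∀ D ∈ PLT.TwoC.Rc 0 l δ, ‖Y k D‖ ≤ (k : ℝ) ^ ε)
    (hS : ∀ᶠ k : ℕ in atTop, ∀ s : ℝ, |s| ≤ s0 →
      ‖Y k (s * I) - u k * (U * KI q a0 b0 σ k (s * I))‖ ≤ C * (k : ℝ) ^ (-c)) :
    ∃ c' : ℝ, 0 < c' ∧ ∀ᶠ k : ℕ in atTop, ∀ x : ℝ, 0 ≤ x → x ≤ l →
      ‖Y k x - U * kapI * (u k * g (k * a0 + k * b0))‖ ≤ (k : ℝ) ^ (-c') := by
  have hl := l_gt
  have h1' : d1 ≤ 1 / 40 := by linarith
  -- `g` is bounded
  obtain ⟨G, C2, hC2, hrate⟩ := hF.lim hc0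
  have hg : ∀ᶠ n : ℕ in atTop, ‖g n‖ ≤ ‖G 0‖ + ‖G 1‖ + C2 := by
    filter_upwards [hrate, eventually_ge_atTop 1] with n q1 hn
    have hn1 : (1 : ℝ) ≤ n := by exact_mod_cast hn
    have q4 : (n : ℝ) ^ (-c0) ≤ 1 := Real.rpow_le_one_of_one_le_of_nonpos hn1 (by linarith)
    have q5 : ‖G (n % 2)‖ ≤ ‖G 0‖ + ‖G 1‖ := by
      rcases Nat.mod_two_eq_zero_or_one n with hp | hp
      · rw [hp]; linarith [norm_nonneg (G 1)]
      · rw [hp]; linarith [norm_nonneg (G 0)]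
    have e : g n = (g n - G (n % 2)) + G (n % 2) := by ring
    rw [e]
    refine (norm_add_le _ _).trans ?_
    have : C2 * (n : ℝ) ^ (-c0) ≤ C2 * 1 := mul_le_mul_of_nonneg_left q4 hC2
    linarith
  obtain ⟨x2, hx2⟩ : ∃ x2, x2 = min x1 (d1 / 4) := ⟨_, rfl⟩
  have hx20 : 0 < x2 := by rw [hx2]; exact lt_min hx0 (by positivity)
  have hx21 : x2 ≤ x1 := by rw [hx2]; exact min_le_left _ _
  have hx22 : x2 ≤ d1 / 4 := by rw [hx2]; exact min_le_right _ _
  have hV2 : VALX q a0 b0 g x2 := by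
    obtain ⟨c2, hc2, e2, he2, C3, h⟩ := hV
    exact ⟨c2, hc2, e2, he2, C3, h.mono fun k hk th hth => hk th ⟨hth.1, hth.2.trans hx21⟩⟩
  obtain ⟨c3, hc3, C3, hC3, hK⟩ := KI_real ha hb h1 hσ0 hσ (hx22.trans (by linarith)) hU hV2 hg
  have hin : ∀ D ∈ PLT.TwoC.Rc 0 x2 (d1 / 4), ‖D‖ < d1 := by
    rintro D ⟨g1, g2, g3⟩
    have g4 : |D.re| < d1 / 2 := by
      rw [abs_lt]
      constructor <;> linarith
    have g5 := Complex.norm_le_abs_re_add_abs_im D
    linarith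
  obtain ⟨c4, hc4⟩ : ∃ c4, c4 = min c c3 := ⟨_, rfl⟩
  have hc40 : 0 < c4 := by rw [hc4]; exact lt_min hc hc3
  have g1 : c4 ≤ c := by rw [hc4]; exact min_le_left _ _
  have g2 : c4 ≤ c3 := by rw [hc4]; exact min_le_right _ _
  refine PLT.TwoC.glueT (K := fun k D => u k * (U * KI q a0 b0 σ k D)) (A := fun _ => U * kapI)
    (Lam := fun k => u k * g (k * a0 + k * b0)) (x1 := x2) (s0 := s0) (δ := δ) (δ1 := d1 / 4) (c := c4)
    (C := |C| + ‖U‖ * C3 + 1) (A0 := ‖U * kapI‖) hx20 (by linarith) hs hδ (by positivity) hc40 (by positivity)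
    hYd hYb ?_ ?_ (fun _ _ => differentiableAt_const _) (fun _ _ => le_rfl) ?_ ?_ ?_
  · refine Eventually.of_forall fun k D hD => ?_
    exact ((KI_diff q ha hb h1' σ k (hin D hD)).const_mul _).const_mul _
  · intro ε hε
    filter_upwards [KI_bd ha hb h1' hσ hU (ε := ε / 2) (by positivity), hu,
      PLT.TwoC.ev_mul_rpow (a := ε / 2) (b := ε) (by linarith) ‖U‖] with k k1 k2 k3 D hD
    rw [norm_mul, norm_mul]
    have k4 := k1 D (hin D hD).le
    have k5 : (0 : ℝ) ≤ (k : ℝ) ^ (ε / 2) := Real.rpow_nonneg (Nat.cast_nonneg _) _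
    calc ‖u k‖ * (‖U‖ * ‖KI q a0 b0 σ k D‖) ≤ 1 * (‖U‖ * (k : ℝ) ^ (ε / 2)) := by gcongr
      _ ≤ (k : ℝ) ^ ε := by rw [one_mul]; exact k3
  · intro ε hε
    have ht : Tendsto (fun k : ℕ => k * a0 + k * b0) atTop atTop := by
      refine tendsto_atTop_mono (fun k => ?_) tendsto_id
      show k ≤ _
      nlinarith [Nat.zero_le (k * b0), Nat.le_mul_of_pos_right k (by omega : 0 < a0)]
    filter_upwards [ht.eventually hg, hu, PLT.TwoC.ev_mul_rpow (a := 0) (b := ε) hε (‖G 0‖ + ‖G 1‖ + C2)]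
      with k k1 k2 k3
    rw [Real.rpow_zero, mul_one] at k3
    rw [norm_mul]
    calc ‖u k‖ * ‖g (k * a0 + k * b0)‖ ≤ 1 * (‖G 0‖ + ‖G 1‖ + C2) := by
          gcongr
      _ ≤ _ := by rw [one_mul]; exact k3
  · filter_upwards [hS, eventually_ge_atTop 1] with k k1 k2 t ht
    have hk1 : (1 : ℝ) ≤ k := by exact_mod_cast k2
    refine (k1 t ht).trans ?_
    have k3 : (k : ℝ) ^ (-c) ≤ (k : ℝ) ^ (-c4) := Real.rpow_le_rpow_of_exponent_le hk1 (by linarith)
    have k4 : (0 : ℝ) ≤ (k : ℝ) ^ (-c) := Real.rpow_nonneg (by linarith) _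
    have k5 : C ≤ |C| + ‖U‖ * C3 + 1 := by
      have : 0 ≤ ‖U‖ * C3 := by positivity
      linarith [le_abs_self C]
    exact mul_le_mul k5 k3 k4 (by positivity)
  · filter_upwards [hK, hu, eventually_ge_atTop 1] with k k1 k6 k2 x hx hxx
    have hk1 : (1 : ℝ) ≤ k := by exact_mod_cast k2
    have k3 : (k : ℝ) ^ (-c3) ≤ (k : ℝ) ^ (-c4) := Real.rpow_le_rpow_of_exponent_le hk1 (by linarith)
    have e : u k * (U * KI q a0 b0 σ k x) - U * kapI * (u k * g (k * a0 + k * b0)) =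
        u k * (U * (KI q a0 b0 σ k x - kapI * g (k * a0 + k * b0))) := by ring
    rw [e, norm_mul, norm_mul]
    have k4 : (0 : ℝ) ≤ (k : ℝ) ^ (-c4) := Real.rpow_nonneg (by linarith) _
    calc ‖u k‖ * (‖U‖ * ‖KI q a0 b0 σ k x - kapI * g (k * a0 + k * b0)‖) ≤
          1 * (‖U‖ * (C3 * (k : ℝ) ^ (-c3))) := by
          have := k1 x hx hxx
          gcongr
      _ ≤ 1 * (‖U‖ * (C3 * (k : ℝ) ^ (-c4))) := by gcongr
      _ = ‖U‖ * C3 * (k : ℝ) ^ (-c4) := by ring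
      _ ≤ (|C| + ‖U‖ * C3 + 1) * (k : ℝ) ^ (-c4) :=
        mul_le_mul_of_nonneg_right (by linarith [abs_nonneg C]) k4

/-- the same from the Ward identity on the imaginary segment -/
theorem glueW (ha : 1 ≤ a0) (hb : 1 ≤ b0) (hd0 : 0 < d1) (h1 : d1 ≤ 1 / 100) (hσ0 : 0 < σ) (hσ : σ < 9 / 80)
    {s0 δ c0 cw e0 c C : ℝ} {g : ℕ → ℂ} (hs : 0 < s0) (hδ : 0 < δ) (hc0 : 0 < c0) (hcw : 0 < cw) (he0 : 0 < e0)
    (hc : 0 < c) (hF : FunO2 c0 (f0Q q) g) (hU : UBD q a0 b0 d1) (hW : WIM q a0 b0 cw e0 d1) {Y : ℕ → ℂ → ℂ}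
    {u : ℕ → ℂ} {U : ℂ} (hu : ∀ᶠ k : ℕ in atTop, ‖u k‖ ≤ 1)
    (hYd : ∀ᶠ k : ℕ in atTop, ∀ D ∈ PLT.TwoC.Rc 0 l δ, DifferentiableAt ℂ (Y k) D)
    (hYb : ∀ ε : ℝ, 0 < ε → ∀ᶠ k : ℕ in atTop, ∀ D ∈ PLT.TwoC.Rc 0 l δ, ‖Y k D‖ ≤ (k : ℝ) ^ ε)
    (hS : ∀ᶠ k : ℕ in atTop, ∀ s : ℝ, |s| ≤ s0 →
      ‖Y k (s * I) - u k * (U * KI q a0 b0 σ k (s * I))‖ ≤ C * (k : ℝ) ^ (-c)) :
    ∃ c' : ℝ, 0 < c' ∧ ∀ᶠ k : ℕ in atTop, ∀ x : ℝ, 0 ≤ x → x ≤ l →
      ‖Y k x - U * kapI * (u k * g (k * a0 + k * b0))‖ ≤ (k : ℝ) ^ (-c') :=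
  glueY ha hb hd0 h1 hσ0 hσ (x1 := d1 / 8) (by positivity) hs hδ hc0 hc hF hU
    (valX ha hb hc0 hcw he0 hd0 (by linarith) hF hW hU) hu hYd hYb hS

end PLT.FS

end
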