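import Pool.Agent.PB.TrAbs
import Pool.Agent.PB.TrGR
import Pool.Agent.PB.TRFin

/-!
# (TR) in any direction: the integration over the heights of the half quanta, with the EXPLICIT constant (helper71)

* `kapT = ∫ k1T exp gF`: the constant of the transfer, the same in every direction;
* **`tr_val`** : one value, no sequence: from the class decomposition on `V` (H1), the mass bound on `V` (H2), the
  path (H3) and the function side (H4) on a small window `|τ₁|, |τ₂| ≤ B log N`: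
  `‖n - u0 (kapT g)‖ ≤ C N ^ (-c)`, `C` depends on the exponents only.
-/

set_option autoImplicit false
set_option linter.unusedVariables false
set_option linter.unusedSectionVars false

noncomputable section

open Complex MeasureTheory Set Filter Topology

namespace PLT

open PBT3 (zt gF k1T)
open PBTR (ew ew_pos int_ew ew_out win measurableSet_win)
open PBTRF (u0)

/-- **the constant of the transfer** -/
def kapT : ℂ := ∫ τ : ℝ × ℝ, k1T τ * Complex.exp (gF τ)

/-- the integrand of the constant -/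
theorem kapT_bd : ∃ A : ℝ, 0 < A ∧ ∀ τ : ℝ × ℝ, ‖k1T τ * Complex.exp (gF τ)‖ ≤ A * ew 3 τ := by
  obtain ⟨A, hA, h⟩ := PBT3.k1_exp_le
  refine ⟨A, hA, fun τ => (h τ).trans (le_of_eq ?_)⟩
  rfl

theorem kapT_meas : AEStronglyMeasurable (fun τ => k1T τ * Complex.exp (gF τ)) volume :=
  (PBT3.continuous_k1T.mul PBT3.continuous_exp_gF).aestronglyMeasurable

theorem kapT_int : Integrable fun τ : ℝ × ℝ => k1T τ * Complex.exp (gF τ) := by
  obtain ⟨A, hA, h⟩ := kapT_bd
  exact ((int_ew (b := 3) (by norm_num)).const_mul A).mono' kapT_meas (Eventually.of_forall h)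

/-- the window has finite measure -/
theorem win_vol {Y : ℝ} (hY : 0 ≤ Y) : volume (win Y) ≤ ENNReal.ofReal ((2 * Y) ^ 2) := by
  have e : win Y = Icc (-Y) Y ×ˢ Icc (-Y) Y := by
    ext τ
    simp only [win, mem_ofPred_eq, mem_prod, mem_Icc, abs_le]
  rw [e, Measure.volume_eq_prod, Measure.prod_prod, Real.volume_Icc,
    ← ENNReal.ofReal_mul (by linarith)]
  refine ENNReal.ofReal_le_ofReal (le_of_eq ?_)
  ring

/-- tail of the weight outside the window -/
theorem tail_ew {b B N c e : ℝ} (hb : 0 < b) (hN : 1 ≤ N) (h : c + e ≤ b / 2 * B) {τ : ℝ × ℝ}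
    (hτ : τ ∉ win (B * Real.log N)) : N ^ e * ew b τ ≤ N ^ (-c) * ew (b / 2) τ := by
  have hN0 : 0 < N := by linarith
  have hl : 0 ≤ Real.log N := Real.log_nonneg hN
  have h1 : Real.exp (-(b / 2 * (B * Real.log N))) ≤ N ^ (-(c + e)) := by
    rw [Real.rpow_def_of_pos hN0]
    apply Real.exp_le_exp.2
    nlinarith
  have h2 := ew_out hb.le hτ
  have h3 : N ^ e * N ^ (-(c + e)) = N ^ (-c) := by
    rw [← Real.rpow_add hN0]
    congr 1
    ring
  calc N ^ e * ew b τ ≤ N ^ e * (Real.exp (-(b / 2 * (B * Real.log N))) * ew (b / 2) τ) :=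
        mul_le_mul_of_nonneg_left h2 (Real.rpow_nonneg hN0.le _)
    _ ≤ N ^ e * (N ^ (-(c + e)) * ew (b / 2) τ) :=
        mul_le_mul_of_nonneg_left (mul_le_mul_of_nonneg_right h1 (ew_pos _ _).le)
          (Real.rpow_nonneg hN0.le _)
    _ = N ^ (-c) * ew (b / 2) τ := by rw [← mul_assoc, h3]

/-- **(TR), one value** -/
theorem tr_val {b B c c0 c1 c2 e d : ℝ} (hb : 0 < b) (hb3 : b ≤ 3) (hB : 0 ≤ B) (he : 0 ≤ e)
    (hd : 0 < d) (h0 : c ≤ c0) (h1 : c + d ≤ c1) (h2 : c ≤ c2) (h3 : c + e ≤ b / 2 * B) :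
    ∃ C : ℝ, 0 ≤ C ∧ ∀ N : ℝ, 1 ≤ N → ∀ (V : Set (ℝ × ℝ)) (n g : ℂ) (R : ℝ × ℝ → ℂ) (f : ℂ → ℂ),
      MeasurableSet V → win (B * Real.log N) ⊆ V →
      AEStronglyMeasurable (fun τ => k1T τ * R τ) (volume.restrict V) →
      ‖n - u0 * ∫ τ in V, k1T τ * R τ‖ ≤ N ^ (-c0) →
      (∀ τ ∈ V, ‖k1T τ * R τ‖ ≤ N ^ e * ew b τ) →
      (∀ τ ∈ win (B * Real.log N), ‖k1T τ‖ * ‖R τ - Complex.exp (gF τ) * f (zt τ)‖ ≤ N ^ (-c1)) →
      (∀ τ ∈ win (B * Real.log N), ‖f (zt τ) - g‖ ≤ N ^ (-c2)) → ‖g‖ ≤ N ^ e →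
      ‖n - u0 * (kapT * g)‖ ≤ C * N ^ (-c) := by
  obtain ⟨A, hA, hk⟩ := kapT_bd
  set I1 : ℝ := ∫ τ, ew (b / 2) τ with hI1
  set I3 : ℝ := ∫ τ, ew 3 τ with hI3
  have i1 := int_ew (half_pos hb)
  have i3 := int_ew (b := 3) (by norm_num)
  have hI10 : 0 ≤ I1 := integral_nonneg fun τ => (ew_pos _ _).le
  have hI30 : 0 ≤ I3 := integral_nonneg fun τ => (ew_pos _ _).le
  refine ⟨1 + ‖u0‖ * (I1 + (2 * B) ^ 2 * (2 / d) ^ 2 + A * I3 + A * I1), by positivity, ?_⟩
  intro N hN V n g R f hV hwV hm H1 H2 H3 H4 hg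
  have hN0 : 0 < N := by linarith
  have hl : 0 ≤ Real.log N := Real.log_nonneg hN
  set S := win (B * Real.log N) with hS
  have mS : MeasurableSet S := measurableSet_win _
  have hY : 0 ≤ B * Real.log N := mul_nonneg hB hl
  have vS : volume S ≤ ENNReal.ofReal ((2 * (B * Real.log N)) ^ 2) := win_vol hY
  have vS' : volume S < ⊤ := vS.trans_lt ENNReal.ofReal_lt_top
  have np : ∀ a : ℝ, 0 ≤ N ^ a := fun a => Real.rpow_nonneg hN0.le a
  -- integrability on V
  have iV : IntegrableOn (fun τ => k1T τ * R τ) V := by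
    refine Integrable.mono' (((int_ew hb).const_mul (N ^ e)).integrableOn (s := V)) hm ?_
    exact (ae_restrict_iff' hV).2 (Eventually.of_forall fun τ hτ => H2 τ hτ)
  have iS : IntegrableOn (fun τ => k1T τ * R τ) S := iV.mono_set hwV
  have iE : Integrable fun τ => k1T τ * Complex.exp (gF τ) := kapT_int
  -- (b) from V to the window
  have b1 : ‖(∫ τ in V, k1T τ * R τ) - ∫ τ in S, k1T τ * R τ‖ ≤ N ^ (-c) * I1 := by
    rw [← setIntegral_sdiff mS iV hwV]
    calc ‖∫ τ in V \ S, k1T τ * R τ‖ ≤ ∫ τ in V \ S, N ^ (-c) * ew (b / 2) τ := by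
          refine norm_integral_le_of_norm_le (i1.const_mul _).integrableOn ?_
          refine (ae_restrict_iff' (hV.diff mS)).2 (Eventually.of_forall fun τ hτ => ?_)
          exact (H2 τ hτ.1).trans (tail_ew hb hN h3 hτ.2)
      _ ≤ ∫ τ, N ^ (-c) * ew (b / 2) τ :=
          setIntegral_le_integral (i1.const_mul _) (Eventually.of_forall fun τ =>
            mul_nonneg (np _) (ew_pos _ _).le)
      _ = N ^ (-c) * I1 := integral_const_mul _ _
  -- (c) the path on the window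
  have hSD : ∀ τ ∈ S, ‖k1T τ * R τ - g * (k1T τ * Complex.exp (gF τ))‖ ≤
      N ^ (-c1) + N ^ (-c2) * (A * ew 3 τ) := by
    intro τ hτ
    have e1 : k1T τ * R τ - g * (k1T τ * Complex.exp (gF τ)) =
        k1T τ * (R τ - Complex.exp (gF τ) * f (zt τ)) +
          (f (zt τ) - g) * (k1T τ * Complex.exp (gF τ)) := by ring
    rw [e1]
    refine (norm_add_le _ _).trans (add_le_add ?_ ?_)
    · rw [norm_mul]
      exact H3 τ hτ
    · rw [norm_mul]
      exact mul_le_mul (H4 τ hτ) (hk τ) (norm_nonneg _) (np _)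
  have hlog : (2 * (B * Real.log N)) ^ 2 * N ^ (-c1) ≤ (2 * B) ^ 2 * (2 / d) ^ 2 * N ^ (-c) := by
    have hd2 : 0 < d / 2 := by linarith
    have q1 : Real.log N ≤ N ^ (d / 2) / (d / 2) := Real.log_le_rpow_div hN0.le hd2
    have q2 : Real.log N ^ 2 ≤ (N ^ (d / 2) / (d / 2)) ^ 2 := pow_le_pow_left₀ hl q1 2
    have q3 : (N ^ (d / 2)) ^ 2 = N ^ d := by
      rw [← Real.rpow_natCast, ← Real.rpow_mul hN0.le]
      congr 1
      push_cast
      ring
    have q4 : N ^ d * N ^ (-c1) ≤ N ^ (-c) := by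
      rw [← Real.rpow_add hN0]
      exact Real.rpow_le_rpow_of_exponent_le hN (by linarith)
    have q5 : (N ^ (d / 2) / (d / 2)) ^ 2 = (2 / d) ^ 2 * N ^ d := by
      rw [div_pow, q3]
      field_simp
    calc (2 * (B * Real.log N)) ^ 2 * N ^ (-c1) = (2 * B) ^ 2 * (Real.log N ^ 2 * N ^ (-c1)) := by ring
      _ ≤ (2 * B) ^ 2 * ((2 / d) ^ 2 * N ^ d * N ^ (-c1)) := by
          refine mul_le_mul_of_nonneg_left ?_ (sq_nonneg _)
          refine mul_le_mul_of_nonneg_right ?_ (np _)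
          rw [← q5]
          exact q2
      _ = (2 * B) ^ 2 * (2 / d) ^ 2 * (N ^ d * N ^ (-c1)) := by ring
      _ ≤ _ := mul_le_mul_of_nonneg_left q4 (by positivity)
  have b2 : ‖(∫ τ in S, k1T τ * R τ) - g * ∫ τ in S, k1T τ * Complex.exp (gF τ)‖ ≤
      (2 * B) ^ 2 * (2 / d) ^ 2 * N ^ (-c) + N ^ (-c) * (A * I3) := by
    have e1 : (∫ τ in S, k1T τ * R τ) - g * ∫ τ in S, k1T τ * Complex.exp (gF τ) =
        ∫ τ in S, (k1T τ * R τ - g * (k1T τ * Complex.exp (gF τ))) := by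
      rw [integral_sub iS (iE.integrableOn.const_mul g), integral_const_mul]
    rw [e1]
    have i0 : IntegrableOn (fun τ : ℝ × ℝ => N ^ (-c1)) S :=
      integrableOn_const vS'.ne
    have i5 : IntegrableOn (fun τ : ℝ × ℝ => N ^ (-c2) * (A * ew 3 τ)) S :=
      ((i3.const_mul A).const_mul _).integrableOn
    have i4 : IntegrableOn (fun τ => N ^ (-c1) + N ^ (-c2) * (A * ew 3 τ)) S := i0.add i5
    refine (norm_integral_le_of_norm_le i4
      ((ae_restrict_iff' mS).2 (Eventually.of_forall hSD))).trans ?_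
    rw [integral_add i0 i5]
    refine add_le_add ?_ ?_
    · rw [setIntegral_const, smul_eq_mul]
      have q6 : volume.real S ≤ (2 * (B * Real.log N)) ^ 2 := by
        refine ENNReal.toReal_le_of_le_ofReal (sq_nonneg _) vS
      exact (mul_le_mul_of_nonneg_right q6 (np _)).trans hlog
    · calc ∫ τ in S, N ^ (-c2) * (A * ew 3 τ) ≤ ∫ τ, N ^ (-c2) * (A * ew 3 τ) :=
            setIntegral_le_integral ((i3.const_mul A).const_mul _) (Eventually.of_forall fun τ =>
              mul_nonneg (np _) (mul_nonneg hA.le (ew_pos _ _).le))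
        _ = N ^ (-c2) * (A * I3) := by rw [integral_const_mul, integral_const_mul]
        _ ≤ N ^ (-c) * (A * I3) := mul_le_mul_of_nonneg_right
            (Real.rpow_le_rpow_of_exponent_le hN (by linarith)) (by positivity)
  -- (d) the constant
  have b3 : ‖g * (∫ τ in S, k1T τ * Complex.exp (gF τ)) - kapT * g‖ ≤ N ^ (-c) * (A * I1) := by
    have e1 : g * (∫ τ in S, k1T τ * Complex.exp (gF τ)) - kapT * g =
        -(g * ∫ τ in Sᶜ, k1T τ * Complex.exp (gF τ)) := by
      unfold kapT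
      rw [← integral_add_compl mS iE]
      ring
    rw [e1, norm_neg, norm_mul]
    have q7 : ‖∫ τ in Sᶜ, k1T τ * Complex.exp (gF τ)‖ ≤ ∫ τ in Sᶜ, A * ew b τ := by
      refine norm_integral_le_of_norm_le ((int_ew hb).const_mul A).integrableOn ?_
      refine Eventually.of_forall fun τ => (hk τ).trans (mul_le_mul_of_nonneg_left ?_ hA.le)
      unfold PBTR.ew
      apply Real.exp_le_exp.2
      have := abs_nonneg τ.1
      have := abs_nonneg τ.2
      nlinarith
    calc ‖g‖ * ‖∫ τ in Sᶜ, k1T τ * Complex.exp (gF τ)‖ ≤ N ^ e * ∫ τ in Sᶜ, A * ew b τ :=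
          mul_le_mul hg q7 (norm_nonneg _) (np _)
      _ = ∫ τ in Sᶜ, A * (N ^ e * ew b τ) := by
          rw [← integral_const_mul]
          congr 1
          funext τ
          ring
      _ ≤ ∫ τ in Sᶜ, A * (N ^ (-c) * ew (b / 2) τ) := by
          refine setIntegral_mono_on (((int_ew hb).const_mul _).const_mul _).integrableOn
            ((i1.const_mul _).const_mul _).integrableOn mS.compl fun τ hτ => ?_
          exact mul_le_mul_of_nonneg_left (tail_ew hb hN h3 hτ) hA.le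
      _ ≤ ∫ τ, A * (N ^ (-c) * ew (b / 2) τ) :=
          setIntegral_le_integral ((i1.const_mul _).const_mul _) (Eventually.of_forall fun τ =>
            mul_nonneg hA.le (mul_nonneg (np _) (ew_pos _ _).le))
      _ = N ^ (-c) * (A * I1) := by
          rw [integral_const_mul, integral_const_mul]
          ring
  have b0 : ‖n - u0 * ∫ τ in V, k1T τ * R τ‖ ≤ N ^ (-c) :=
    H1.trans (Real.rpow_le_rpow_of_exponent_le hN (by linarith))
  have e9 : n - u0 * (kapT * g) = (n - u0 * ∫ τ in V, k1T τ * R τ) +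
      u0 * (((∫ τ in V, k1T τ * R τ) - ∫ τ in S, k1T τ * R τ) +
        ((∫ τ in S, k1T τ * R τ) - g * ∫ τ in S, k1T τ * Complex.exp (gF τ)) +
        (g * (∫ τ in S, k1T τ * Complex.exp (gF τ)) - kapT * g)) := by ring
  rw [e9]
  have b4 := norm_add₃_le (a := (∫ τ in V, k1T τ * R τ) - ∫ τ in S, k1T τ * R τ)
    (b := (∫ τ in S, k1T τ * R τ) - g * ∫ τ in S, k1T τ * Complex.exp (gF τ))
    (c := g * (∫ τ in S, k1T τ * Complex.exp (gF τ)) - kapT * g)
  refine (norm_add_le _ _).trans ?_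
  rw [norm_mul]
  have b5 : ‖u0‖ * ‖((∫ τ in V, k1T τ * R τ) - ∫ τ in S, k1T τ * R τ) +
        ((∫ τ in S, k1T τ * R τ) - g * ∫ τ in S, k1T τ * Complex.exp (gF τ)) +
        (g * (∫ τ in S, k1T τ * Complex.exp (gF τ)) - kapT * g)‖ ≤
      ‖u0‖ * (N ^ (-c) * I1 + ((2 * B) ^ 2 * (2 / d) ^ 2 * N ^ (-c) + N ^ (-c) * (A * I3)) +
        N ^ (-c) * (A * I1)) :=
    mul_le_mul_of_nonneg_left (b4.trans (add_le_add (add_le_add b1 b2) b3)) (norm_nonneg _)
  calc _ ≤ N ^ (-c) + ‖u0‖ * (N ^ (-c) * I1 + ((2 * B) ^ 2 * (2 / d) ^ 2 * N ^ (-c) +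
        N ^ (-c) * (A * I3)) + N ^ (-c) * (A * I1)) := add_le_add b0 b5
    _ = _ := by ring

end PLT

end
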