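import Pool.Agent.PLX.TRRat2
import Pool.Agent.PLX.PfQ
import Pool.Agent.PB.NrmG

/-!
# (TR) in any direction: the ratio of the prefactors for ARBITRARY rows and ends, exactly (helper71)

Rows `x : Fin m → ℂ`, `y : Fin M → ℂ`, cut rows at `p`, `q` (ends `p = h`, `q = g`), half quanta `w` (species of
`x`), `w'`, legs at `z`. `eT d = sin (d + 2 l) sin (d + 3 l) / rh d ^ 2` (PB/NrmG).

* `bulkU x y p q` : the bulk term of the `m + M + 2` rows `x`, `y`, `p`, `q`;
* **`pre_eT`** : `2 ^ (N (N - 1)) sin l Bp p q x Bp q p y / bulkU` against `Pf z x y`, all complex rows;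
* `EXe p q z w w' x` : exponential of the mean field of one row at `x`:
  `eT (z - x) / (eT (p - x) eT (q - x)) * (sin (w - x) / sin (w' - x + 3 l))`;
* `kfG` : the prefactor of a half quantum; `k1e` : the kernel of the two half quanta;
* **`ratio_e`** : prefactor of the regular function over the bulk term, times the prefactors of the half quanta
  = `3/2 rh 0 / rh (p - q) ^ 2 * k1e * (Pf z x y * ∏ (EXe x)⁻¹ * ∏ (EXe y)⁻¹)`.
-/

set_option autoImplicit false
set_option linter.unusedVariables false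
set_option linter.unusedSectionVars false

noncomputable section

open Complex

namespace PLT

open NUP1 (l)
open NUP1.Grand (P)
open NUP1.Leg (kap Dk Bp)
open PBR (rh rh_neg rh_ne_zero)
open PBX (eT Lt Bb Bp_eT sin_l_eT rh_zero_ne)
open Pool.Agent.PB (Pf D2 Fp)
open Pool.Agent.PLX (Lf Sf Pf_prod)

variable {m M : ℕ}

/-- **the bulk term of `m + M + 2` rows**: `x`, `y`, `p`, `q` -/
def bulkU (x : Fin m → ℂ) (y : Fin M → ℂ) (p q : ℂ) : ℂ :=
  2 ^ ((m + M + 2) * (m + M + 1)) * (2 / 3) ^ (m + M + 2) *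
    (∏ i, ∏ j, if i = j then 1 else rh (x i - x j)) * (∏ i, ∏ j, if i = j then 1 else rh (y i - y j)) *
    (∏ i, ∏ j, rh (x i - y j) ^ 2) * (∏ i, (rh (p - x i) * rh (q - x i)) ^ 2) *
    (∏ j, (rh (p - y j) * rh (q - y j)) ^ 2) * rh (p - q) ^ 2

/-- exponential of the mean field of one row at `x` (own half quantum `w`, the other one `w'`) -/
def EXe (p q z w w' x : ℂ) : ℂ :=
  eT (z - x) / (eT (p - x) * eT (q - x)) * (sin (w - x) / sin (w' - x + 3 * l))

/-- the prefactor of the half quantum at `w`, own end `p`, own rows `x` -/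
def kfG (p q : ℂ) (x : Fin m → ℂ) (y : Fin M → ℂ) (w : ℂ) : ℂ :=
  kap (w - p) * sin (w - q + 3 * l) * ((∏ j, sin (w - y j + 3 * l)) / ∏ i, sin (w - x i))

/-- the kernel of the two half quanta -/
def k1e (p q w w' : ℂ) : ℂ :=
  kap (w - p) * kap (w' - q) * sin (w - q + 3 * l) * sin (w' - p + 3 * l) * Dk (w - w')

theorem Lf_eT (w : ℂ) : Lf w = eT w := rfl

theorem Fp_Lt (w : ℂ) : Fp w = Lt w * Lt (-w) := by
  unfold Pool.Agent.PB.Fp PBX.Lt
  rw [show -w + 2 * (l : ℂ) = 2 * l - w by ring, show -w + 3 * (l : ℂ) = 3 * l - w by ring]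
  ring

/-- two rows of one group in the dislocated function -/
theorem Sf_eT {w : ℂ} (h : |w.re| < 5 * l) : Sf w = (eT w * rh w) * (eT (-w) * rh (-w)) := by
  have h0 := rh_ne_zero h
  unfold Pool.Agent.PLX.Sf
  rw [Fp_Lt]
  unfold PBX.eT
  rw [rh_neg]
  field_simp

/-- the pairs of one group -/
theorem P_Sf (x : Fin m → ℂ) (hx : ∀ i j, |(x i - x j).re| < 5 * l) :
    P (fun i j => Sf (x i - x j)) =
      (∏ i, ∏ j, if i = j then 1 else eT (x i - x j)) * ∏ i, ∏ j, if i = j then 1 else rh (x i - x j) := by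
  have e : P (fun i j => Sf (x i - x j)) =
      P fun i j => (eT (x i - x j) * rh (x i - x j)) * (eT (x j - x i) * rh (x j - x i)) := by
    refine NUP1.Mu.P_congr fun i j _ => ?_
    rw [Sf_eT (hx i j), neg_sub]
  rw [e, NUP1.Mu.P_both fun i j => eT (x i - x j) * rh (x i - x j), ← Finset.prod_mul_distrib]
  refine Finset.prod_congr rfl fun i _ => ?_
  rw [← Finset.prod_mul_distrib]
  refine Finset.prod_congr rfl fun j _ => ?_
  split_ifs
  · rw [one_mul]
  · rfl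

/-- all ordered pairs of one group -/
theorem prod_eT (x : Fin m → ℂ) : (∏ i, ∏ j, eT (x i - x j)) =
    eT 0 ^ m * ∏ i, ∏ j, if i = j then 1 else eT (x i - x j) := by
  have e : ∀ i : Fin m, ∏ j, eT (x i - x j) = eT 0 * ∏ j, if i = j then 1 else eT (x i - x j) := by
    intro i
    rw [← Finset.mul_prod_erase Finset.univ _ (Finset.mem_univ i),
      ← Finset.mul_prod_erase Finset.univ (fun j => if i = j then 1 else eT (x i - x j))
        (Finset.mem_univ i), if_pos rfl, one_mul, sub_self]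
    congr 1
    refine Finset.prod_congr rfl fun j hj => ?_
    rw [if_neg (Finset.ne_of_mem_erase hj).symm]
  rw [Finset.prod_congr rfl fun i _ => e i, Finset.prod_mul_distrib, Finset.prod_const,
    Finset.card_univ, Fintype.card_fin]

theorem prod_sq_rh (x : Fin m → ℂ) : (∏ i, ∏ j, if i = j then (1 : ℂ) else rh (x i - x j) ^ 2) =
    (∏ i, ∏ j, if i = j then 1 else rh (x i - x j)) ^ 2 := by
  rw [← Finset.prod_pow]
  refine Finset.prod_congr rfl fun i _ => ?_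
  rw [← Finset.prod_pow]
  refine Finset.prod_congr rfl fun j _ => ?_
  split_ifs
  · rw [one_pow]
  · rfl

/-- the conditions on the places -/
structure Plc (x : Fin m → ℂ) (y : Fin M → ℂ) (p q z : ℂ) : Prop where
  xx : ∀ i j, |(x i - x j).re| < 5 * l
  yy : ∀ i j, |(y i - y j).re| < 5 * l
  xy : ∀ i j, |(x i - y j).re| < 5 * l
  px : ∀ i, |(p - x i).re| < 5 * l
  qx : ∀ i, |(q - x i).re| < 5 * l
  py : ∀ j, |(p - y j).re| < 5 * l
  qy : ∀ j, |(q - y j).re| < 5 * l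
  pq : |(p - q).re| < 5 * l
  zx : ∀ i, eT (z - x i) ≠ 0
  zy : ∀ j, eT (z - y j) ≠ 0

variable {x : Fin m → ℂ} {y : Fin M → ℂ} {p q z : ℂ}

theorem prod_ne_if {k : ℕ} {f : Fin k → Fin k → ℂ} (h : ∀ i j, f i j ≠ 0) :
    (∏ i, ∏ j, if i = j then (1 : ℂ) else f i j) ≠ 0 := by
  refine Finset.prod_ne_zero_iff.2 fun i _ => Finset.prod_ne_zero_iff.2 fun j _ => ?_
  split_ifs
  · exact one_ne_zero
  · exact h i j

theorem bulkU_ne (h : Plc x y p q z) : bulkU x y p q ≠ 0 := by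
  unfold bulkU
  refine mul_ne_zero (mul_ne_zero (mul_ne_zero (mul_ne_zero (mul_ne_zero (mul_ne_zero (mul_ne_zero
    (pow_ne_zero _ two_ne_zero) (pow_ne_zero _ (by norm_num))) ?_) ?_) ?_) ?_) ?_) ?_
  · exact prod_ne_if fun i j => rh_ne_zero (h.xx i j)
  · exact prod_ne_if fun i j => rh_ne_zero (h.yy i j)
  · exact Finset.prod_ne_zero_iff.2 fun i _ => Finset.prod_ne_zero_iff.2 fun j _ =>
      pow_ne_zero 2 (rh_ne_zero (h.xy i j))
  · exact Finset.prod_ne_zero_iff.2 fun i _ => pow_ne_zero 2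
      (mul_ne_zero (rh_ne_zero (h.px i)) (rh_ne_zero (h.qx i)))
  · exact Finset.prod_ne_zero_iff.2 fun i _ => pow_ne_zero 2
      (mul_ne_zero (rh_ne_zero (h.py i)) (rh_ne_zero (h.qy i)))
  · exact pow_ne_zero 2 (rh_ne_zero h.pq)

/-- the dislocated prefactor in terms of `eT`, `rh` -/
theorem Pf_eT (h : Plc x y p q z) : Pf z x y * (∏ i, ∏ j, rh (x i - y j) ^ 2) =
    rh 0 ^ (m + M) * eT 0 ^ (m + M + 1) *
      ((∏ i, eT (z - x i)) * ∏ j, eT (z - y j)) *
      (((∏ i, ∏ j, if i = j then 1 else eT (x i - x j)) * ∏ i, ∏ j, if i = j then 1 else rh (x i - x j)) *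
        ((∏ i, ∏ j, if i = j then 1 else eT (y i - y j)) *
          ∏ i, ∏ j, if i = j then 1 else rh (y i - y j))) := by
  have h0 := rh_zero_ne
  have hD : (∏ i, ∏ j, rh (x i - y j) ^ 2) ≠ 0 :=
    Finset.prod_ne_zero_iff.2 fun i _ => Finset.prod_ne_zero_iff.2 fun j _ =>
      pow_ne_zero 2 (rh_ne_zero (h.xy i j))
  rw [Pf_prod, P_Sf x h.xx, P_Sf y h.yy]
  simp only [Lf_eT]
  have e : (3 / 2 : ℂ) ^ (m + M + 1) * sin l ^ (m + M + 1) / rh 0 = rh 0 ^ (m + M) * eT 0 ^ (m + M + 1) := by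
    rw [sin_l_eT, ← mul_pow, show (3 / 2 : ℂ) * (2 / 3 * rh 0 * eT 0) = rh 0 * eT 0 by ring, mul_pow,
      pow_succ (rh 0)]
    field_simp
  rw [e]
  unfold Pool.Agent.PB.D2
  field_simp

/-- **the prefactor of the regular function over the bulk term**, all rows, all ends -/
theorem pre_eT (h : Plc x y p q z) :
    (2 : ℂ) ^ ((m + M + 2) * (m + M + 1)) * (sin l * (Bp p q x * Bp q p y)) =
      bulkU x y p q * (3 / 2 * rh 0 / rh (p - q) ^ 2 * (Pf z x y *
        (∏ i, (eT (p - x i) * eT (q - x i) / eT (z - x i))) *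
          ∏ j, (eT (p - y j) * eT (q - y j) / eT (z - y j)))) := by
  have h0 := rh_zero_ne
  have hpq := rh_ne_zero h.pq
  have hP := Pf_eT h
  have zx : (∏ i, eT (z - x i)) ≠ 0 := Finset.prod_ne_zero_iff.2 fun i _ => h.zx i
  have zy : (∏ j, eT (z - y j)) ≠ 0 := Finset.prod_ne_zero_iff.2 fun j _ => h.zy j
  rw [Bp_eT x p q h.xx h.px h.qx, Bp_eT y q p h.yy h.qy h.py, prod_eT, prod_eT, sin_l_eT]
  unfold PBX.Bb bulkU
  rw [prod_sq_rh, prod_sq_rh, Finset.prod_div_distrib, Finset.prod_div_distrib]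
  have e1 : ∏ j, (rh (q - y j) * rh (p - y j)) ^ 2 = ∏ j, (rh (p - y j) * rh (q - y j)) ^ 2 :=
    Finset.prod_congr rfl fun j _ => by rw [mul_comm]
  have e2 : ∏ j, (eT (q - y j) * eT (p - y j)) = ∏ j, (eT (p - y j) * eT (q - y j)) :=
    Finset.prod_congr rfl fun j _ => by rw [mul_comm]
  rw [e1, e2]
  set Ax := ∏ i, ∏ j, if i = j then (1 : ℂ) else eT (x i - x j)
  set Rx := ∏ i, ∏ j, if i = j then (1 : ℂ) else rh (x i - x j)
  set Ay := ∏ i, ∏ j, if i = j then (1 : ℂ) else eT (y i - y j)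
  set Ry := ∏ i, ∏ j, if i = j then (1 : ℂ) else rh (y i - y j)
  set DD := ∏ i, ∏ j, rh (x i - y j) ^ 2
  set Qx := ∏ i, (rh (p - x i) * rh (q - x i)) ^ 2
  set Qy := ∏ j, (rh (p - y j) * rh (q - y j)) ^ 2
  set Ex := ∏ i, (eT (p - x i) * eT (q - x i))
  set Ey := ∏ j, (eT (p - y j) * eT (q - y j))
  set Zx := ∏ i, eT (z - x i)
  set Zy := ∏ j, eT (z - y j)
  have key : (2 : ℂ) ^ ((m + M + 2) * (m + M + 1)) * (2 / 3) ^ (m + M + 2) * Rx * Ry * DD * Qx * Qy *
      rh (p - q) ^ 2 * (3 / 2 * rh 0 / rh (p - q) ^ 2 * (Pf z x y * (Ex / Zx) * (Ey / Zy))) =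
      (2 : ℂ) ^ ((m + M + 2) * (m + M + 1)) * (2 / 3) ^ (m + M + 2) * Rx * Ry * Qx * Qy *
        (3 / 2 * rh 0) * ((Pf z x y * DD) * (Ex / Zx) * (Ey / Zy)) := by
    field_simp
  rw [key, hP]
  have e3 : (2 / 3 : ℂ) ^ (m + M + 2) = (2 / 3) ^ m * (2 / 3) ^ M * (2 / 3) ^ 2 := by
    rw [← pow_add, ← pow_add]
  rw [e3, mul_pow (2 / 3 : ℂ) (rh 0), mul_pow (2 / 3 : ℂ) (rh 0)]
  field_simp
  ring

/-- two rows of one group at distance `d`, ordered -/
def oR (d : ℂ) : ℂ := eT d * rh d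

theorem prod_oR (x : Fin m → ℂ) : (∏ i, ∏ j, oR (x i - x j)) =
    (rh 0 * eT 0) ^ m * ((∏ i, ∏ j, if i = j then 1 else eT (x i - x j)) *
      ∏ i, ∏ j, if i = j then 1 else rh (x i - x j)) := by
  have e : (∏ i, ∏ j, rh (x i - x j)) = rh 0 ^ m * ∏ i, ∏ j, if i = j then 1 else rh (x i - x j) := by
    have e1 : ∀ i : Fin m, ∏ j, rh (x i - x j) = rh 0 * ∏ j, if i = j then 1 else rh (x i - x j) := by
      intro i
      rw [← Finset.mul_prod_erase Finset.univ _ (Finset.mem_univ i),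
        ← Finset.mul_prod_erase Finset.univ (fun j => if i = j then 1 else rh (x i - x j))
          (Finset.mem_univ i), if_pos rfl, one_mul, sub_self]
      congr 1
      refine Finset.prod_congr rfl fun j hj => ?_
      rw [if_neg (Finset.ne_of_mem_erase hj).symm]
    rw [Finset.prod_congr rfl fun i _ => e1 i, Finset.prod_mul_distrib, Finset.prod_const,
      Finset.card_univ, Fintype.card_fin]
  unfold oR
  simp only [Finset.prod_mul_distrib]
  rw [prod_eT, e, mul_pow]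
  ring

/-- **the prefactor of the regular function over the bulk term, without the legs**: own pairs `oR`, cross pairs
`1 / rh ^ 2`, ends `eT` -/
theorem pre_own (h : Plc x y p q z) :
    (2 : ℂ) ^ ((m + M + 2) * (m + M + 1)) * (sin l * (Bp p q x * Bp q p y)) =
      bulkU x y p q * (9 / 4 * sin l / rh (p - q) ^ 2 *
        ((∏ i, ∏ j, oR (x i - x j)) * (∏ i, ∏ j, oR (y i - y j)) / (∏ i, ∏ j, rh (x i - y j) ^ 2) *
        (∏ i, (eT (p - x i) * eT (q - x i))) * ∏ j, (eT (p - y j) * eT (q - y j)))) := by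
  have h0 := rh_zero_ne
  have hpq := rh_ne_zero h.pq
  have hD : (∏ i, ∏ j, rh (x i - y j) ^ 2) ≠ 0 :=
    Finset.prod_ne_zero_iff.2 fun i _ => Finset.prod_ne_zero_iff.2 fun j _ =>
      pow_ne_zero 2 (rh_ne_zero (h.xy i j))
  rw [Bp_eT x p q h.xx h.px h.qx, Bp_eT y q p h.yy h.qy h.py, prod_eT, prod_eT, prod_oR, prod_oR]
  unfold PBX.Bb bulkU
  rw [prod_sq_rh, prod_sq_rh]
  have e1 : ∏ j, (rh (q - y j) * rh (p - y j)) ^ 2 = ∏ j, (rh (p - y j) * rh (q - y j)) ^ 2 :=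
    Finset.prod_congr rfl fun j _ => by rw [mul_comm]
  have e2 : ∏ j, (eT (q - y j) * eT (p - y j)) = ∏ j, (eT (p - y j) * eT (q - y j)) :=
    Finset.prod_congr rfl fun j _ => by rw [mul_comm]
  rw [e1, e2]
  set Ax := ∏ i, ∏ j, if i = j then (1 : ℂ) else eT (x i - x j)
  set Rx := ∏ i, ∏ j, if i = j then (1 : ℂ) else rh (x i - x j)
  set Ay := ∏ i, ∏ j, if i = j then (1 : ℂ) else eT (y i - y j)
  set Ry := ∏ i, ∏ j, if i = j then (1 : ℂ) else rh (y i - y j)
  set DD := ∏ i, ∏ j, rh (x i - y j) ^ 2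
  set Qx := ∏ i, (rh (p - x i) * rh (q - x i)) ^ 2
  set Qy := ∏ j, (rh (p - y j) * rh (q - y j)) ^ 2
  set Ex := ∏ i, (eT (p - x i) * eT (q - x i))
  set Ey := ∏ j, (eT (p - y j) * eT (q - y j))
  have e3 : (2 / 3 : ℂ) ^ (m + M + 2) = (2 / 3) ^ m * (2 / 3) ^ M * (2 / 3) ^ 2 := by
    rw [← pow_add, ← pow_add]
  rw [e3, mul_pow (2 / 3 : ℂ) (rh 0), mul_pow (2 / 3 : ℂ) (rh 0), mul_pow (rh 0) (eT 0), mul_pow (rh 0) (eT 0)]
  field_simp
  ring

variable {w w' : ℂ}

/-- **(h4) for arbitrary rows and ends, exactly** -/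
theorem ratio_e (h : Plc x y p q z) :
    (2 : ℂ) ^ ((m + M + 2) * (m + M + 1)) * (sin l * (Bp p q x * Bp q p y)) / bulkU x y p q *
      (kfG p q x y w * kfG q p y x w' * Dk (w - w')) =
      3 / 2 * rh 0 / rh (p - q) ^ 2 * k1e p q w w' * (Pf z x y *
        (∏ i, (EXe p q z w w' (x i))⁻¹) * ∏ j, (EXe p q z w' w (y j))⁻¹) := by
  rw [pre_eT h, mul_div_cancel_left₀ _ (bulkU_ne h)]
  have e1 : ∀ {k : ℕ} (u v : ℂ) (f : Fin k → ℂ), (∏ i, (EXe p q z u v (f i))⁻¹) =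
      (∏ i, (eT (p - f i) * eT (q - f i) / eT (z - f i))) *
        ((∏ i, sin (v - f i + 3 * l)) / ∏ i, sin (u - f i)) := by
    intro k u v f
    rw [← Finset.prod_div_distrib, ← Finset.prod_mul_distrib]
    refine Finset.prod_congr rfl fun i _ => ?_
    unfold EXe
    rw [mul_inv, inv_div, inv_div]
  rw [e1, e1]
  unfold kfG k1e
  ring

end PLT

end
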