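import Pool.Agent.PB.TRsP

/-!
# Row R of the directions: the regularised field over any sea

Twin of `PB/TRsP` for a density `ρ` with `Re ρ ≥ c n e^{-(8/3)|Re z|}` in a strip `lo < Im z < hi`.

* `SeaR lo hi c C n ρ`: the data; `SeaR.mono`; `fldR ρ q β b z = β b z / (ρ z + q)`;
* `SeaR.den`, `SeaR.ne`; `SeaR.fld_d`, `SeaR.fld_bd`;
* **`SeaR.fld_min`**: `‖fldR b z‖ ≤ c⁻¹ (B / n) min 1 e^{L - |Re z|}`;
* `SeaR.mul`: `ρ * fldR = β - q fldR`;
* **`SeaR.rsp`**: `‖rsp (mulF ρ fldR) b z - rsp β b z‖ ≤ C' q (B / n) (1 + L)` at distance `r` from the edges;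
* `SeaR.seaF`, `SeaR.fldF`: the landed records if the strip is symmetric;
* `rowsD x z = ∑ i, Pc (z + i x i)`: the sea of rows at the complex places `x`; **`seaR_rows`**; `seaR_axis`: rows on
  the imaginary axis.
-/

set_option autoImplicit false
set_option linter.unusedSectionVars false

noncomputable section

open MeasureTheory Set Filter Topology

namespace PLT.RT

open NUMF (Pc l)
open PB (SeaF FldF mulF rsp cV cG)
open PBTs (mn mn_nonneg mn_le_one int_mn mul_Kg_int)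

/-- a sea of mass `n` in the strip `lo < Im z < hi` -/
structure SeaR (lo hi c C n : ℝ) (ρ : ℂ → ℂ) : Prop where
  c0 : 0 < c
  c1 : c ≤ 1
  C0 : 0 ≤ C
  n0 : 0 < n
  meas : Measurable ρ
  d : ∀ z : ℂ, lo < z.im → z.im < hi → DifferentiableAt ℂ ρ z
  low : ∀ z : ℂ, lo < z.im → z.im < hi → c * n * Real.exp (-(8 / 3 * |z.re|)) ≤ (ρ z).re
  up : ∀ z : ℂ, lo < z.im → z.im < hi → ‖ρ z‖ ≤ C * n * Real.exp (-(8 / 3 * |z.re|))

/-- the regularised field -/
def fldR (ρ : ℂ → ℂ) (q : ℝ) (β : Bool → ℂ → ℂ) (b : Bool) (z : ℂ) : ℂ := β b z / (ρ z + q)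

/-- Cauchy estimate in a strip -/
theorem strip_derivR {f : ℂ → ℂ} {lo hi r A : ℝ} (hr : 0 < r)
    (hf : ∀ z : ℂ, lo < z.im → z.im < hi → DifferentiableAt ℂ f z)
    (hbd : ∀ z : ℂ, lo < z.im → z.im < hi → ‖f z‖ ≤ A) {z : ℂ} (h0 : lo + r ≤ z.im) (h1 : z.im ≤ hi - r) :
    ‖deriv f z‖ ≤ A / (r / 2) := by
  have hr2 : 0 < r / 2 := by linarith
  have hmem : ∀ w ∈ Metric.closedBall z (r / 2), lo < w.im ∧ w.im < hi := by
    intro w hw
    have h2 : ‖w - z‖ ≤ r / 2 := by simpa [dist_eq_norm] using hw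
    have h3 : |w.im - z.im| ≤ r / 2 := by
      have := Complex.abs_im_le_norm (w - z)
      rw [Complex.sub_im] at this
      exact this.trans h2
    have h4 := abs_le.1 h3
    constructor <;> linarith [h4.1, h4.2]
  refine Complex.norm_deriv_le_of_forall_mem_sphere_norm_le hr2 ?_ fun w hw => ?_
  · refine DifferentiableOn.diffContOnCl fun w hw => ?_
    rw [closure_ball z hr2.ne'] at hw
    obtain ⟨h2, h3⟩ := hmem w hw
    exact (hf w h2 h3).differentiableWithinAt
  · obtain ⟨h2, h3⟩ := hmem w (Metric.sphere_subset_closedBall hw)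
    exact hbd w h2 h3

namespace SeaR

variable {lo hi c C n : ℝ} {ρ : ℂ → ℂ} (h : SeaR lo hi c C n ρ)
include h

theorem mono {lo' hi' : ℝ} (h1 : lo ≤ lo') (h2 : hi' ≤ hi) : SeaR lo' hi' c C n ρ where
  c0 := h.c0
  c1 := h.c1
  C0 := h.C0
  n0 := h.n0
  meas := h.meas
  d z g1 g2 := h.d z (by linarith) (by linarith)
  low z g1 g2 := h.low z (by linarith) (by linarith)
  up z g1 g2 := h.up z (by linarith) (by linarith)

/-- the denominator -/
theorem den {q : ℝ} {z : ℂ} (g1 : lo < z.im) (g2 : z.im < hi) :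
    c * n * Real.exp (-(8 / 3 * |z.re|)) + q ≤ ‖ρ z + q‖ := by
  refine le_trans ?_ (Complex.re_le_norm _)
  rw [Complex.add_re, Complex.ofReal_re]
  have := h.low z g1 g2
  linarith

theorem pos (z : ℂ) : 0 < c * n * Real.exp (-(8 / 3 * |z.re|)) := by
  have h1 := h.c0
  have h2 := h.n0
  positivity

theorem ne {z : ℂ} (g1 : lo < z.im) (g2 : z.im < hi) : ρ z ≠ 0 := by
  have h1 := h.den (q := 0) g1 g2
  rw [Complex.ofReal_zero, add_zero, add_zero] at h1
  exact norm_pos_iff.1 (lt_of_lt_of_le (h.pos z) h1)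

theorem ne_q {q : ℝ} (hq : 0 ≤ q) {z : ℂ} (g1 : lo < z.im) (g2 : z.im < hi) : ρ z + q ≠ 0 := by
  have h1 := h.den (q := q) g1 g2
  exact norm_pos_iff.1 (lt_of_lt_of_le (by linarith [h.pos z]) h1)

variable {β : Bool → ℂ → ℂ}

theorem fld_d {q : ℝ} (hq : 0 ≤ q)
    (hβ : ∀ b (z : ℂ), lo < z.im → z.im < hi → DifferentiableAt ℂ (β b) z) (b : Bool) (z : ℂ)
    (g1 : lo < z.im) (g2 : z.im < hi) : DifferentiableAt ℂ (fldR ρ q β b) z :=
  (hβ b z g1 g2).div ((h.d z g1 g2).add_const _) (h.ne_q hq g1 g2)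

theorem fld_bd {q B : ℝ} (hq : 0 < q) (hB : 0 ≤ B)
    (hβB : ∀ b (z : ℂ), lo < z.im → z.im < hi → ‖β b z‖ ≤ B) (b : Bool) (z : ℂ)
    (g1 : lo < z.im) (g2 : z.im < hi) : ‖fldR ρ q β b z‖ ≤ B / q := by
  have h1 := h.den (q := q) g1 g2
  unfold fldR
  rw [norm_div]
  exact div_le_div₀ hB (hβB b z g1 g2) hq (by linarith [h.pos z])

/-- **the size of the regularised field** -/
theorem fld_min {q L B : ℝ} (hq : 0 < q) (hnq : n / q ≤ Real.exp (8 / 3 * L)) (hB : 0 ≤ B)
    (hβ : ∀ b (z : ℂ), lo < z.im → z.im < hi → ‖β b z‖ ≤ B * Real.exp (-(8 / 3 * |z.re|)))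
    (b : Bool) (z : ℂ) (g1 : lo < z.im) (g2 : z.im < hi) :
    ‖fldR ρ q β b z‖ ≤ 1 / c * (B / n) * mn L z.re := by
  have hc := h.c0
  have hc1 := h.c1
  have hn := h.n0
  have h1 := h.den (q := q) g1 g2
  have h2 := hβ b z g1 g2
  obtain ⟨E, hE⟩ : ∃ E, E = Real.exp (-(8 / 3 * |z.re|)) := ⟨_, rfl⟩
  have hE0 : 0 < E := by rw [hE]; exact Real.exp_pos _
  rw [← hE] at h1 h2
  have hd : 0 < c * n * E := by positivity
  have k1 : ‖fldR ρ q β b z‖ ≤ 1 / c * (B / n) := by
    unfold fldR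
    rw [norm_div]
    calc ‖β b z‖ / ‖ρ z + q‖ ≤ (B * E) / (c * n * E) :=
          div_le_div₀ (by positivity) h2 hd (by linarith)
      _ = 1 / c * (B / n) := by field_simp
  have k2 : ‖fldR ρ q β b z‖ ≤ B * E / q := by
    unfold fldR
    rw [norm_div]
    exact div_le_div₀ (by positivity) h2 hq (by linarith)
  unfold PBTs.mn
  rcases le_total |z.re| L with h | h
  · rw [min_eq_left (Real.one_le_exp (by linarith)), mul_one]
    exact k1
  · rw [min_eq_right (by
      rw [Real.exp_le_one_iff]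
      linarith)]
    refine k2.trans ?_
    have hL : 0 ≤ |z.re| - L := by linarith
    have k3 : n * E ≤ q * Real.exp (L - |z.re|) := by
      have e1 : n ≤ q * Real.exp (8 / 3 * L) := by
        rwa [div_le_iff₀ hq, mul_comm] at hnq
      calc n * E ≤ q * Real.exp (8 / 3 * L) * E := mul_le_mul_of_nonneg_right e1 hE0.le
        _ = q * Real.exp (8 / 3 * (L - |z.re|)) := by
            rw [hE, mul_assoc, ← Real.exp_add]
            congr 2
            ring
        _ ≤ q * Real.exp (L - |z.re|) := by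
            refine mul_le_mul_of_nonneg_left (Real.exp_le_exp.2 ?_) hq.le
            linarith
    have k4 : B * E / q ≤ B / n * Real.exp (L - |z.re|) := by
      rw [div_mul_eq_mul_div, div_le_div_iff₀ hq hn]
      calc B * E * n = B * (n * E) := by ring
        _ ≤ B * (q * Real.exp (L - |z.re|)) := mul_le_mul_of_nonneg_left k3 hB
        _ = _ := by ring
    refine k4.trans ?_
    rw [mul_assoc]
    exact le_mul_of_one_le_left (by positivity) ((one_le_div hc).2 hc1)

theorem mul {q : ℝ} (hq : 0 ≤ q) (β : Bool → ℂ → ℂ) (b : Bool) {z : ℂ} (g1 : lo < z.im) (g2 : z.im < hi) :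
    mulF ρ (fldR ρ q β) b z = β b z - q * fldR ρ q β b z := by
  have h3 := h.ne_q hq g1 g2
  unfold mulF fldR
  field_simp
  ring

theorem meas_fld {q : ℝ} (hm : ∀ b, Measurable (β b)) (b : Bool) : Measurable (fldR ρ q β b) :=
  (hm b).div (h.meas.add_const _)

end SeaR

/-! ### the response -/

theorem mul_V_intR {f : ℂ → ℂ} {A : ℝ} (hm : Measurable f) {z : ℂ}
    (hf : ∀ w : ℂ, w.im = z.im → ‖f w‖ ≤ A) :
    Integrable (fun u : ℝ => f (z - u) * (NUMF.V u : ℂ)) ∧
    ‖∫ u : ℝ, f (z - u) * (NUMF.V u : ℂ)‖ ≤ A * ∫ u, |NUMF.V u| := by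
  have hi := NUMF.V_integral.1
  have hb : ∀ u : ℝ, ‖f (z - u) * (NUMF.V u : ℂ)‖ ≤ A * |NUMF.V u| := by
    intro u
    rw [norm_mul, Complex.norm_real, Real.norm_eq_abs]
    exact mul_le_mul_of_nonneg_right (hf _ (by simp)) (abs_nonneg _)
  have hmm : AEStronglyMeasurable (fun u : ℝ => f (z - u) * (NUMF.V u : ℂ)) volume :=
    (hm.comp (measurable_const.sub Complex.measurable_ofReal)).aestronglyMeasurable.mul
      (Complex.continuous_ofReal.comp_aestronglyMeasurable hi.aestronglyMeasurable)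
  refine ⟨(hi.abs.const_mul A).mono' hmm (Eventually.of_forall hb), ?_⟩
  rw [← integral_const_mul]
  exact norm_integral_le_of_norm_le (hi.abs.const_mul A) (Eventually.of_forall hb)

/-- **the response of the regularised field** -/
theorem SeaR.rsp {c r : ℝ} (hc : 0 < c) (hr : 0 < r) : ∃ C' : ℝ, 1 ≤ C' ∧
    ∀ (lo hi C n : ℝ) (ρ : ℂ → ℂ), SeaR lo hi c C n ρ →
    ∀ q L B : ℝ, 0 < q → 0 ≤ L → n / q ≤ Real.exp (8 / 3 * L) → 0 ≤ B →
    ∀ β : Bool → ℂ → ℂ, (∀ b, Measurable (β b)) →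
    (∀ b (z : ℂ), lo < z.im → z.im < hi → DifferentiableAt ℂ (β b) z) →
    (∀ b (z : ℂ), lo < z.im → z.im < hi → ‖β b z‖ ≤ B * Real.exp (-(8 / 3 * |z.re|))) →
    ∀ b (z : ℂ), lo + r ≤ z.im → z.im ≤ hi - r →
    ‖PB.rsp (mulF ρ (fldR ρ q β)) b z - PB.rsp β b z‖ ≤ C' * q * (B / n) * (1 + L) := by
  obtain ⟨IV, hIV⟩ : ∃ IV, IV = ∫ u, |NUMF.V u| := ⟨_, rfl⟩
  have hIV0 : 0 ≤ IV := by
    rw [hIV]
    exact integral_nonneg fun u => abs_nonneg _
  obtain ⟨C1, hC1⟩ : ∃ C1, C1 = 1 / c := ⟨_, rfl⟩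
  have hC10 : 0 < C1 := by rw [hC1]; positivity
  obtain ⟨D, hD⟩ : ∃ D, D = 1 / (r / 2) := ⟨_, rfl⟩
  have hD0 : 0 < D := by
    rw [hD]
    positivity
  refine ⟨C1 * D * IV + 9 * (2 * C1 * (2 * Real.exp 1)) + 1, by
    have : 0 ≤ C1 * D * IV + 9 * (2 * C1 * (2 * Real.exp 1)) := by positivity
    linarith, ?_⟩
  intro lo hi C n ρ h q L B hq hL hnq hB β hm hd hβ b z hz0 hz1
  have hn := h.n0
  obtain ⟨X, hX⟩ : ∃ X, X = fldR ρ q β := ⟨_, rfl⟩
  have hXd : ∀ b (z : ℂ), lo < z.im → z.im < hi → DifferentiableAt ℂ (X b) z := by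
    rw [hX]
    exact h.fld_d hq.le hd
  have hXb : ∀ b (z : ℂ), lo < z.im → z.im < hi → ‖X b z‖ ≤ C1 * (B / n) * mn L z.re := by
    rw [hX, hC1]
    exact h.fld_min hq hnq hB hβ
  have hXm : ∀ b, Measurable (X b) := by
    intro b
    rw [hX]
    exact h.meas_fld hm b
  have hmul : ∀ b (z : ℂ), lo < z.im → z.im < hi → mulF ρ X b z = β b z - q * X b z := by
    intro b z g1 g2
    rw [hX]
    exact h.mul hq.le β b g1 g2
  rw [← hX]
  obtain ⟨S, hS⟩ : ∃ S, S = C1 * (B / n) := ⟨_, rfl⟩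
  have hS0 : 0 ≤ S := by
    rw [hS]
    positivity
  have g0 : lo < z.im := by linarith
  have g1 : z.im < hi := by linarith
  have him : ∀ u : ℝ, (z - u).im = z.im := fun u => by simp
  have hev : ∀ w : ℂ, lo < w.im → w.im < hi → ∀ᶠ v in 𝓝 w, lo < v.im ∧ v.im < hi := fun w a1 a2 =>
    ((isOpen_lt continuous_const Complex.continuous_im).inter
      (isOpen_lt Complex.continuous_im continuous_const)).mem_nhds ⟨a1, a2⟩
  -- derivatives
  have hder : ∀ u : ℝ, deriv (mulF ρ X b) (z - u) =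
      deriv (β b) (z - u) - q * deriv (X b) (z - u) := by
    intro u
    have a1 : lo < (z - u).im := by rw [him]; exact g0
    have a2 : (z - u).im < hi := by rw [him]; exact g1
    have e1 : mulF ρ X b =ᶠ[𝓝 (z - u)] fun w => β b w - q * X b w :=
      (hev _ a1 a2).mono fun w hw => hmul b w hw.1 hw.2
    rw [e1.deriv_eq]
    have h1 : HasDerivAt (fun w => β b w - q * X b w)
        (deriv (β b) (z - u) - q * deriv (X b) (z - u)) (z - u) :=
      (hd b _ a1 a2).hasDerivAt.sub ((hXd b _ a1 a2).hasDerivAt.const_mul (q : ℂ))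
    exact h1.deriv
  -- bounds of the derivatives
  have bX : ∀ w : ℂ, w.im = z.im → ‖deriv (X b) w‖ ≤ S * D := by
    intro w hw
    have h1 := strip_derivR (f := X b) (A := S) hr (hXd b) (fun w a1 a2 => by
      rw [hS]
      exact (hXb b w a1 a2).trans (mul_le_of_le_one_right (by positivity) (mn_le_one _ _)))
      (z := w) (by rw [hw]; exact hz0) (by rw [hw]; exact hz1)
    rw [hD, mul_one_div]
    exact h1
  have bβ : ∀ w : ℂ, w.im = z.im → ‖deriv (β b) w‖ ≤ B * D := by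
    intro w hw
    have h1 := strip_derivR (f := β b) (A := B) hr (hd b) (fun w a1 a2 => by
      refine (hβ b w a1 a2).trans (mul_le_of_le_one_right hB ?_)
      rw [Real.exp_le_one_iff]
      have := abs_nonneg w.re
      linarith) (z := w) (by rw [hw]; exact hz0) (by rw [hw]; exact hz1)
    rw [hD, mul_one_div]
    exact h1
  obtain ⟨iX, nX⟩ := mul_V_intR (measurable_deriv (X b)) bX
  obtain ⟨iβ, -⟩ := mul_V_intR (measurable_deriv (β b)) bβ
  have eV : cV (deriv (mulF ρ X b)) z = cV (deriv (β b)) z - q * cV (deriv (X b)) z := by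
    unfold cV
    rw [← integral_const_mul, ← integral_sub iβ (iX.const_mul _)]
    refine integral_congr_ae (Eventually.of_forall fun u => ?_)
    simp only
    rw [hder u]
    ring
  -- the cross kernel
  have hfX : ∀ u : ℝ, ‖X b (z - u) - X (!b) (z - u)‖ ≤ 2 * S * mn L (z.re - u) := by
    intro u
    have e1 : (z - u).re = z.re - u := by simp
    have a1 : lo < (z - u).im := by rw [him]; exact g0
    have a2 : (z - u).im < hi := by rw [him]; exact g1
    have h1 := hXb b _ a1 a2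
    have h2 := hXb (!b) _ a1 a2
    rw [e1, ← hS] at h1 h2
    refine (norm_sub_le _ _).trans ?_
    linarith
  have hfβ : ∀ u : ℝ, ‖β b (z - u) - β (!b) (z - u)‖ ≤
      2 * B * Real.exp (-(8 / 3 * |z.re - u|)) := by
    intro u
    have e1 : (z - u).re = z.re - u := by simp
    have a1 : lo < (z - u).im := by rw [him]; exact g0
    have a2 : (z - u).im < hi := by rw [him]; exact g1
    have h1 := hβ b _ a1 a2
    have h2 := hβ (!b) _ a1 a2
    rw [e1] at h1 h2
    refine (norm_sub_le _ _).trans ?_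
    linarith
  obtain ⟨im1, im2⟩ := int_mn hL z.re
  have ie : Integrable fun u : ℝ => Real.exp (-(8 / 3 * |z.re - u|)) := by
    have := (NUMF.int_exp_abs (by norm_num : (0 : ℝ) < 8 / 3)).comp_sub_left z.re
    simpa only [neg_mul] using this
  obtain ⟨jX, lX⟩ := mul_Kg_int (f := fun w => X b w - X (!b) w)
    ((hXm b).sub (hXm (!b))) (im1.const_mul (2 * S)) hfX
  obtain ⟨jβ, -⟩ := mul_Kg_int (f := fun w => β b w - β (!b) w)
    ((hm b).sub (hm (!b))) (ie.const_mul (2 * B)) hfβ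
  have eG : cG (fun w => mulF ρ X b w - mulF ρ X (!b) w) z =
      cG (fun w => β b w - β (!b) w) z - q * cG (fun w => X b w - X (!b) w) z := by
    unfold cG
    rw [← integral_const_mul, ← integral_sub jβ (jX.const_mul _)]
    refine integral_congr_ae (Eventually.of_forall fun u => ?_)
    have a1 : lo < (z - u).im := by rw [him]; exact g0
    have a2 : (z - u).im < hi := by rw [him]; exact g1
    simp only
    rw [hmul b _ a1 a2, hmul (!b) _ a1 a2]
    ring
  have e : PB.rsp (mulF ρ X) b z - PB.rsp β b z =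
      q * (cV (deriv (X b)) z + cG (fun w => X b w - X (!b) w) z) := by
    unfold PB.rsp
    rw [eV, eG]
    ring
  rw [e, norm_mul, Complex.norm_real, Real.norm_eq_abs, abs_of_pos hq]
  have k1 : ‖cV (deriv (X b)) z‖ ≤ S * D * IV := by
    rw [hIV]
    exact nX
  have k2 : ‖cG (fun w => X b w - X (!b) w) z‖ ≤ 9 * (2 * S * (2 * Real.exp 1 * (1 + L))) := by
    refine lX.trans ?_
    rw [integral_const_mul]
    refine mul_le_mul_of_nonneg_left ?_ (by norm_num)
    exact mul_le_mul_of_nonneg_left im2 (by positivity)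
  have k3 : ‖cV (deriv (X b)) z + cG (fun w => X b w - X (!b) w) z‖ ≤
      S * D * IV + 9 * (2 * S * (2 * Real.exp 1 * (1 + L))) :=
    (norm_add_le _ _).trans (add_le_add k1 k2)
  calc q * ‖cV (deriv (X b)) z + cG (fun w => X b w - X (!b) w) z‖
      ≤ q * (S * D * IV + 9 * (2 * S * (2 * Real.exp 1 * (1 + L)))) :=
        mul_le_mul_of_nonneg_left k3 hq.le
    _ ≤ q * ((C1 * D * IV + 9 * (2 * C1 * (2 * Real.exp 1)) + 1) * (B / n) * (1 + L)) := by
        refine mul_le_mul_of_nonneg_left ?_ hq.le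
        rw [hS]
        have hBn : 0 ≤ B / n := by positivity
        have a1 : C1 * (B / n) * D * IV ≤ C1 * (B / n) * D * IV * (1 + L) :=
          le_mul_of_one_le_right (by positivity) (by linarith)
        have a2 : 0 ≤ B / n * (1 + L) := by positivity
        nlinarith
    _ = _ := by ring

/-! ### symmetric strips -/

namespace SeaR

variable {b1 c C n : ℝ} {ρ : ℂ → ℂ} (h : SeaR (-b1) b1 c C n ρ)
include h

theorem seaF : SeaF b1 ρ where
  d z hz := h.d z (abs_lt.1 hz).1 (abs_lt.1 hz).2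
  ne z hz := h.ne (abs_lt.1 hz).1 (abs_lt.1 hz).2
  bd := ⟨C * n, 8 / 3, mul_nonneg h.C0 h.n0.le, by norm_num, fun z hz =>
    h.up z (abs_lt.1 hz).1 (abs_lt.1 hz).2⟩

theorem fldF {q B : ℝ} (hq : 0 < q) (hB : 0 ≤ B) {β : Bool → ℂ → ℂ}
    (hβ : ∀ b (z : ℂ), |z.im| < b1 → DifferentiableAt ℂ (β b) z)
    (hβB : ∀ b (z : ℂ), |z.im| < b1 → ‖β b z‖ ≤ B) : FldF b1 (fldR ρ q β) where
  d b z hz := h.fld_d hq.le (fun b z g1 g2 => hβ b z (abs_lt.2 ⟨g1, g2⟩)) b z (abs_lt.1 hz).1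
    (abs_lt.1 hz).2
  bd := ⟨B / q, by positivity, fun b z hz =>
    h.fld_bd hq hB (fun b z g1 g2 => hβB b z (abs_lt.2 ⟨g1, g2⟩)) b z (abs_lt.1 hz).1 (abs_lt.1 hz).2⟩

end SeaR

/-! ### rows at complex places -/

/-- the sea of rows at the complex places `x` -/
def rowsD {m : ℕ} (x : Fin m → ℂ) (z : ℂ) : ℂ := ∑ i, Pc (z + Complex.I * x i)

theorem meas_rowsD {m : ℕ} (x : Fin m → ℂ) : Measurable (rowsD x) := by
  have h1 : Measurable Pc := by
    unfold Pc
    fun_prop
  unfold rowsD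
  exact Finset.measurable_sum _ fun i _ => h1.comp (measurable_id.add_const _)

/-- **rows at complex places of bounded height, strip at distance more than `l - b` from the poles** -/
theorem seaR_rows {b h0 : ℝ} (hb0 : 0 ≤ b) (hb : b < l) (hh : 0 ≤ h0) : ∃ c C : ℝ, 0 < c ∧ c ≤ 1 ∧ 0 ≤ C ∧
    ∀ (lo hi : ℝ) (m : ℕ) (x : Fin m → ℂ), 0 < m →
      (∀ i, -b ≤ lo + (x i).re ∧ hi + (x i).re ≤ b) → (∀ i, |(x i).im| ≤ h0) →
      SeaR lo hi c C m (rowsD x) := by
  obtain ⟨c, hc, hc1, H⟩ := PBTs.Pc_re_low hb0 hb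
  obtain ⟨K, hK⟩ : ∃ K, K = |16 / (√3 * Real.pi * NUMF.kb b)| := ⟨_, rfl⟩
  have hK0 : 0 ≤ K := by
    rw [hK]
    exact abs_nonneg _
  refine ⟨c * Real.exp (-(8 / 3 * h0)), K * Real.exp (8 / 3 * h0), by positivity, ?_, by positivity,
    fun lo hi m x hm hx him0 => ?_⟩
  · have h1 : Real.exp (-(8 / 3 * h0)) ≤ 1 := by
      rw [Real.exp_le_one_iff]
      linarith
    exact mul_le_one₀ hc1 (Real.exp_pos _).le h1
  have him : ∀ (z : ℂ), lo < z.im → z.im < hi → ∀ i, |(z + Complex.I * x i).im| ≤ b := by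
    intro z g1 g2 i
    have e : (z + Complex.I * x i).im = z.im + (x i).re := by simp
    obtain ⟨h1, h2⟩ := hx i
    rw [e, abs_le]
    constructor <;> linarith
  have hre : ∀ (z : ℂ) (i : Fin m), (z + Complex.I * x i).re = z.re - (x i).im := fun z i => by
    simp
    ring
  have hre1 : ∀ (z : ℂ) (i : Fin m), |(z + Complex.I * x i).re| ≤ |z.re| + h0 := fun z i => by
    rw [hre]
    exact (abs_sub _ _).trans (by linarith [him0 i])
  have hre2 : ∀ (z : ℂ) (i : Fin m), |z.re| - h0 ≤ |(z + Complex.I * x i).re| := fun z i => by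
    rw [hre]
    have := abs_sub_abs_le_abs_sub z.re (x i).im
    linarith [him0 i]
  refine ⟨by positivity, ?_, by positivity, by exact_mod_cast hm, meas_rowsD x, fun z g1 g2 => ?_,
    fun z g1 g2 => ?_, fun z g1 g2 => ?_⟩
  · have h1 : Real.exp (-(8 / 3 * h0)) ≤ 1 := by
      rw [Real.exp_le_one_iff]
      linarith
    exact mul_le_one₀ hc1 (Real.exp_pos _).le h1
  · unfold rowsD
    refine DifferentiableAt.fun_sum fun i _ => ?_
    have h1 := (NUMF.Pc_analyticAt (lt_of_le_of_lt (him z g1 g2 i) hb)).differentiableAt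
    exact DifferentiableAt.comp z (g := Pc) (f := fun w => w + Complex.I * x i) h1
      (differentiableAt_id.add_const _)
  · have e : (rowsD x z).re = ∑ i, (Pc (z + Complex.I * x i)).re := by
      unfold rowsD
      rw [Complex.re_sum]
    rw [e]
    calc c * Real.exp (-(8 / 3 * h0)) * m * Real.exp (-(8 / 3 * |z.re|)) =
          ∑ _i : Fin m, c * Real.exp (-(8 / 3 * (|z.re| + h0))) := by
          rw [Finset.sum_const, Finset.card_univ, Fintype.card_fin, nsmul_eq_mul,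
            show -(8 / 3 * (|z.re| + h0)) = -(8 / 3 * h0) + -(8 / 3 * |z.re|) by ring, Real.exp_add]
          ring
      _ ≤ _ := Finset.sum_le_sum fun i _ => by
          refine le_trans ?_ (H _ (him z g1 g2 i))
          refine mul_le_mul_of_nonneg_left (Real.exp_le_exp.2 ?_) hc.le
          linarith [hre1 z i]
  · unfold rowsD
    calc ‖∑ i, Pc (z + Complex.I * x i)‖ ≤ ∑ i, ‖Pc (z + Complex.I * x i)‖ := norm_sum_le _ _
      _ ≤ ∑ _i : Fin m, K * Real.exp (-(8 / 3 * (|z.re| - h0))) :=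
          Finset.sum_le_sum fun i _ => by
            have h1 := NUMF.Pc_bound hb (him z g1 g2 i)
            refine h1.trans ?_
            rw [hK]
            refine (mul_le_mul_of_nonneg_right (le_abs_self _) (Real.exp_pos _).le).trans ?_
            refine mul_le_mul_of_nonneg_left (Real.exp_le_exp.2 ?_) (abs_nonneg _)
            linarith [hre2 z i]
      _ = _ := by
          rw [Finset.sum_const, Finset.card_univ, Fintype.card_fin, nsmul_eq_mul,
            show -(8 / 3 * (|z.re| - h0)) = 8 / 3 * h0 + -(8 / 3 * |z.re|) by ring, Real.exp_add]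
          ring

/-- **rows on the imaginary axis**, symmetric strip -/
theorem seaR_axis {b1 : ℝ} (h0 : 0 < b1) (hb : b1 < l) : ∃ c C : ℝ, 0 < c ∧ c ≤ 1 ∧ 0 ≤ C ∧
    ∀ (m : ℕ) (x : Fin m → ℂ), 0 < m → (∀ i, (x i).re = 0 ∧ |(x i).im| ≤ 1) →
      SeaR (-b1) b1 c C m (rowsD x) := by
  obtain ⟨c, C, h1, h2, h3, H⟩ := seaR_rows h0.le hb zero_le_one
  refine ⟨c, C, h1, h2, h3, fun m x hm hx => H _ _ m x hm (fun i => ?_) fun i => (hx i).2⟩
  rw [(hx i).1, add_zero, add_zero]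
  exact ⟨le_rfl, le_rfl⟩

end PLT.RT

end
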