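import Pool.Agent.PLT.UPropsC
import Pool.Agent.PLT.CrvC
import Pool.Agent.PLT.TRP
import Pool.Agent.PLT.RPh
import Pool.Agent.PLT.RRat
import Pool.Agent.PHK.FNeq6
import Pool.Agent.PHK.TRsV6
import Pool.Agent.PHK.TRH26
import Pool.Agent.PB.FieldR

/-!
# (S-TR), rows on the imaginary axis: the literal data of the s-path (helper71)

Sharp block of THETA (CONT-i). ANY rows `x : Fin m → ℂ` of `X` on the imaginary axis; `Y` = `q` copies; cut rows and ends at `0`;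
half quanta `wt τ.1`, `wt τ.2`; legs `zt τ`; point `par6`; A line straight; parameters and cutoffs of `m` rows.

* `rhoI x z = ∑ Pc (z + I x i)`; `gI x`, **`ZvI ep x τ`**, **`RI ep x`**, `XvI`, `LZvI`, `lgvI`, `EvI`, `κvI`, `PvI`, `SzI`;
  `Dv`, `D1v`, `wa`, `wb`, `Mv`, `mTv`, `kov6` are the landed ones;
* `nFvI ep x η η' τ s`: the normalised functional on the path, curve as data;
* `nrI`, `E11I`, **`YI`**: the regular function; `kRI`, `FWI`, `SRI`, `KKI`, `EMI`, `RkI`: its class `W W`;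
* `HtS h`: heights `|h i| ≤ 1 / 100`; `xI m h i = I h i`; `okI`; `crI S e1 J m h`: the curve of TARGET-C over the sea `S m h`;
  **`famVI S`**, **`famWI S`**: the families (`FamC`, index `(h, τ)`).
-/

set_option autoImplicit false
set_option linter.unusedSectionVars false
set_option linter.unusedVariables false

noncomputable section

open Complex MeasureTheory Finset
open PLX (Fil)

namespace PLT.St

open NUO NUP1 NUP1S NUP1S.Ab NUGC NUGC.PLX PBF PBF.PLX PBU PBU.PLX PHK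
open PBTV.PLX (wa wb Dv D1v Mv mTv)
open PBX (Rws)
open Pool.Agent.PB (Pf)
open PBForce (Rws0)
open _root_.Pool.Agent.PLX (yq rwq RU)

variable {m : ℕ}

theorem rws_of {x : Fin m → ℂ} (h : Rws0 x) : Rws x := fun i => by
  have := NUP1.l_pos
  rw [h.re i, abs_zero]
  linarith

/-- **the density of the one-fold rows** -/
def rhoI (x : Fin m → ℂ) (z : ℂ) : ℂ := ∑ i, NUMF.Pc (z + I * x i)

/-- the regularisation -/
def qI (m : ℕ) : ℝ := ((m : ℝ) ^ 10)⁻¹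

/-- size of the field -/
def SzI (m : ℕ) (τ : ℝ × ℝ) : ℝ := Real.exp (8 / 3 * Mv τ) / m

variable [Fil]

/-! ### the one body functions -/

/-- corrections of the cutoffs of the strings -/
def gI (x : Fin m → ℂ) : Bool → ℂ → ℂ := fun a => gO (T1L m) [] (rwq x a)

theorem meas_gI {x : Fin m → ℂ} (h : Rws x) (a : Bool) : Measurable (gI x a) :=
  meas_gO (_root_.Pool.Agent.PLX.Rws_rwq h a) (by simp)

/-- **the family at the dislocated end** -/
def ZvI (ep : ℝ) (x : Fin m → ℂ) (τ : ℝ × ℝ) : Bool → Option O3 → ℂ → ℂ :=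
  ZQ6 (fun a => Leg.cc (Nq m a)) (gI x) (4 / 3 * (1 - ep)) x (fun _ => [I, -I]) (PBT3.zt τ)

/-- the record of the regular function, rows `x`, ends `0` -/
def RI (ep : ℝ) (x : Fin m → ℂ) : RU m (Fil.q * m) :=
  ⟨Leg.cc m, Leg.cc (Fil.q * m), NUGC.PLX.beC ep, x, yq x, 0, 0, PBX.gP (NUGC.PLX.beC ep) [I, -I],
    PBX.gP (NUGC.PLX.beC ep) [I, -I], gI x true, gI x false⟩

/-- the field -/
def XvI (x : Fin m → ℂ) (τ : ℝ × ℝ) : Bool → ℂ → ℂ := fun b z =>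
  (Fil.b b : ℂ)⁻¹ * RT.fldR (rhoI x) (qI m) (PBT3.be (wa τ) (wb τ)) b z

/-- log derivative of the one body function -/
def LZvI (ep : ℝ) (x : Fin m → ℂ) (τ : ℝ × ℝ) : Bool → ℂ → ℂ := fun b =>
  PBLZ.PLX.LZX b (4 / 3 * (1 - ep)) x [I, -I] (PBT3.zt τ)

/-- force of the legs and of the cutoff -/
def lgvI (ep : ℝ) (x : Fin m → ℂ) (τ : ℝ × ℝ) : Bool → ℂ → ℂ := fun b z =>
  PBEI.h00 (z - PBQ1.hr (PBT3.zt τ)) +
    PBLZ.PLX.cutI (4 / 3 * (1 - ep)) (List.ofFn (rwq x b) ++ [I, -I]) z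

/-- error of the regularisation -/
def EvI (x : Fin m → ℂ) (τ : ℝ × ℝ) : Bool → ℂ → ℂ := fun b z =>
  Dv τ b none (NUP1.l + I * z) - PB.rsp (PB.mulF2 (rhoI x) (XvI x τ)) b z

/-- mean of the statistic -/
def κvI (x : Fin m → ℂ) (τ : ℝ × ℝ) : ℂ := kap (Dv τ) (rhoI x)

/-- normaliser -/
def PvI (x : Fin m → ℂ) (τ : ℝ × ℝ) : ℂ := Pf (PBT3.zt τ) x (yq x)

/-- **the normalised functional on the path**, curve as data -/
def nFvI (ep : ℝ) (x : Fin m → ℂ) (η η' : PBF.PLX.Crs) (τ : ℝ × ℝ) (s : ℝ) : ℂ :=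
  nF6 (fun _ => ZvI ep x τ) (fun _ => Dv τ) (fun _ => par6) (2 * m)
    (fun _ => η) (fun _ => η') (fun _ => PvI x τ) 1 (κvI x τ) s

/-! ### the regular function -/

/-- **the prefactor of the regular function over the bulk term** -/
def nrI (x : Fin m → ℂ) : ℂ :=
  (2 : ℂ) ^ ((m + Fil.q * m + 2) * (m + Fil.q * m + 1)) *
    (sin NUP1.l * (NUP1.Leg.Bp 0 0 x * NUP1.Leg.Bp 0 0 (yq x))) / bulkU x (yq x) 0 0

/-- the eleven integrals -/
def E11I (ep : ℝ) (x : Fin m → ℂ) (n : ℕ) : ℂ :=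
  NUP1.N.E11 (3 / 5 * NUP1.l) (-(17 / 10) * NUP1.l) (RI ep x).p (RI ep x).q (RI ep x).x (RI ep x).y
    (RI ep x).hX (RI ep x).hY n (n + Fil.xn m) (31 / 50 * NUP1.l) (-(11 / 4) * NUP1.l)

/-- **`Y` at rows on the axis** -/
def YI (ep : ℝ) (x : Fin m → ℂ) : ℂ := nrI x * ∑ n ∈ range (2 * m + 1), E11I ep x n

/-- the prefactors of the two half quanta and their kernel -/
def kRI (x : Fin m → ℂ) (y : ℝ × ℝ) : ℂ :=
  kfG 0 0 x (yq x) (PBT3.wt y.1) * kfG 0 0 (yq x) x (PBT3.wt y.2) * NUP1.Leg.Dk (PBT3.wt y.1 - PBT3.wt y.2)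

/-- the functional of the class `W W` at the heights `y` -/
def FWI (ep : ℝ) (x : Fin m → ℂ) (n : ℕ) (η η' : PBF.PLX.Crs) (y : ℝ × ℝ) : ℂ :=
  FF6 (PBR.PLX.RZW (RI ep x) (PBT3.wt y.1) (PBT3.wt y.2)) par6 n (n + Fil.xn m) η η' (fun _ _ _ _ _ => 1)

/-- the class `W W`, summed over the number of quanta, with its sign -/
def SRI (ep : ℝ) (x : Fin m → ℂ) (η η' : PBF.PLX.Crs) (τ : ℝ × ℝ) : ℂ :=
  (-1) ^ Fil.xn m * ∑ n ∈ range (2 * m + 1), FWI ep x n η η' τ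

/-- the integrand of the regular function, class `W W` -/
def KKI (ep : ℝ) (x : Fin m → ℂ) (η η' : PBF.PLX.Crs) (τ : ℝ × ℝ) : ℂ :=
  nrI x * (2 * Real.pi : ℂ)⁻¹ ^ 2 * kRI x τ * SRI ep x η η' τ

/-- the inverse of the exponential of the mean field -/
def EMI (x : Fin m → ℂ) (τ : ℝ × ℝ) : ℂ :=
  (∏ i, (EXe 0 0 (PBT3.zt τ) (PBT3.wt τ.1) (PBT3.wt τ.2) (x i))⁻¹) *
    ∏ j, (EXe 0 0 (PBT3.zt τ) (PBT3.wt τ.2) (PBT3.wt τ.1) (yq x j))⁻¹

/-- the class `W W` with the prefactor of the dislocated function over the mean field -/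
def RkI (ep : ℝ) (x : Fin m → ℂ) (η η' : PBF.PLX.Crs) (τ : ℝ × ℝ) : ℂ :=
  PvI x τ * EMI x τ * SRI ep x η η' τ

/-! ### contents given by their heights; the families -/

/-- admissible heights -/
def HtS (h : ℕ → ℝ) : Prop := ∀ i, |h i| ≤ 1 / 100

/-- **`m` rows at the heights `h`** -/
def xI (m : ℕ) (h : ℕ → ℝ) : Fin m → ℂ := fun i => I * h i

omit [Fil] in
theorem rws0_xI {h : ℕ → ℝ} (hh : HtS h) (m : ℕ) : Rws0 (xI m h) where
  re i := by simp [xI]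
  im i := by
    have := hh i
    simp only [xI, mul_im, I_re, zero_mul, I_im, ofReal_re, one_mul, ofReal_im, zero_add]
    linarith

/-- the window of the path -/
def okI (m : ℕ) (i : (ℕ → ℝ) × (ℝ × ℝ)) : Prop :=
  HtS i.1 ∧ |i.2.1| ≤ 1 / 20 * Real.log m ∧ |i.2.2| ≤ 1 / 20 * Real.log m

section

variable (S : ℕ → (ℕ → ℝ) → SeaC)

/-- **the curve** of TARGET-C over the sea of the content -/
def crI (e1 J : ℝ) (m : ℕ) (h : ℕ → ℝ) : PBF.PLX.Crs := fun _ _ => @Cv.etaC (S m h) e1 J m m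

/-- its derivative -/
def crI' (e1 J : ℝ) (m : ℕ) (h : ℕ → ℝ) : PBF.PLX.Crs := fun _ _ => @Cv.etaC' (S m h) e1 J m m

/-- **the family of the left end** -/
def famVI : FamC ((ℕ → ℝ) × (ℝ × ℝ)) where
  Z ep m i := ZvI ep (xI m i.1) i.2
  Pf m i := PvI (xI m i.1) i.2
  top m := 2 * m
  ok := okI
  bd _ i := Real.exp |i.2.1 + i.2.2|
  D e1 J m i := @dsp (S m i.1) _ (@Cv.etaC (S m i.1) e1 J m m)
  D1 e1 J m i := @dsp1 (S m i.1) _ (@Cv.etaC (S m i.1) e1 J m m) (@Cv.etaC' (S m i.1) e1 J m m)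
  dc m i t := @Cv.Pc (S m i.1) t
  lo := 0
  hi := 0

/-- **the family of the right end**, with the kernel `k1T` -/
def famWI : FamC ((ℕ → ℝ) × (ℝ × ℝ)) where
  Z ep m i := expZ (ZvI ep (xI m i.1) i.2) (Dv i.2) 1
  Pf m i := PBT3.k1T i.2 * (Complex.exp (-κvI (xI m i.1) i.2) * PvI (xI m i.1) i.2)
  top m := 2 * m
  ok := okI
  bd _ i := Real.exp (-mTv i.2)
  D e1 J m i := @dsp (S m i.1) _ (@Cv.etaC (S m i.1) e1 J m m)
  D1 e1 J m i := @dsp1 (S m i.1) _ (@Cv.etaC (S m i.1) e1 J m m) (@Cv.etaC' (S m i.1) e1 J m m)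
  dc m i t := @Cv.Pc (S m i.1) t
  lo := 0
  hi := 0

end

end PLT.St

end
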