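import Pool.Agent.PLT.AnY
import Pool.Agent.PLT.AnF
import Pool.Agent.PLT.RV
import Pool.Agent.PLT.GlueK

/-!
# The function `Y` of the tilted content on the imaginary segment

`m = k (a0 + b0)`.

* **`YT_slit`** : at `D = i s` it is `YI` at the rows `- i s` (`k a0` times), `0` (`k b0` times);
* **`KI_slit`** : the integral of `GlueK` at `D = i s` over the function at the same rows;
* **`str_YT`** : the transfer at contents on the axis is the transfer of `glueW`.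
-/

set_option autoImplicit false
set_option linter.unusedSectionVars false
set_option linter.unusedVariables false

noncomputable section

open Complex MeasureTheory Filter Topology Finset

namespace PLT.AY

open NUP1 (l)
open PLX (Fil)
open PLT.BY PLT.Pa
open PBT3 (gF k1T zt)
open PBTR (winW)
open _root_.Pool.Agent.PLX (yq rwq RU fQ)

variable [Fil] {a0 b0 : ℕ}

/-- the heights -/
def hS (a0 k : ℕ) (s : ℝ) : ℕ → ℝ := fun i => if i < k * a0 then -s else 0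

theorem eB_slit (ha : 1 ≤ a0) (hb : 1 ≤ b0) (k : ℕ) (s : ℝ) :
    eB a0 b0 (k * (a0 + b0)) (I * s) = 0 + (qs a0 b0 s : ℂ) * I := by
  rw [eB_mul, qz_slit (by exact_mod_cast ha) (by exact_mod_cast hb)]
  ring

theorem xB_slit (ha : 1 ≤ a0) (hb : 1 ≤ b0) (k : ℕ) (s : ℝ) (i : Fin (k * (a0 + b0))) :
    xB a0 b0 (k * (a0 + b0)) (I * s) i = St.xI (k * (a0 + b0)) (hS a0 k s) i + (qs a0 b0 s : ℂ) * I := by
  have hA : (0 : ℝ) < a0 := by exact_mod_cast ha
  have hB : (0 : ℝ) < b0 := by exact_mod_cast hb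
  rw [xB_mul ha]
  unfold St.xI hS
  rw [qz_slit hA hB, pz_slit hA hB]
  by_cases h : (i : ℕ) < k * a0
  · rw [if_pos h, if_pos h]
    have e : (ps a0 b0 s : ℂ) = s - qs a0 b0 s := by
      unfold qs
      push_cast
      ring
    rw [e]
    push_cast
    ring
  · rw [if_neg h, if_neg h]
    push_cast
    ring

/-- admissible parameters of the lines of the base words -/
def P00 : NUO.Par := ⟨9 / 4, 1 / 4, fun _ => 1 / 40, fun r _ => l * (1 / 40) / (8 * (r + 1))⟩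

theorem parP00 : NURow.ParP P00 := ⟨rfl, le_rfl, fun _ => by norm_num [P00], fun _ => by norm_num [P00]⟩

theorem lnH00 : NURow.LnH (NUP1S.lX P00) (NUP1S.lY P00) := by
  have hl := NUP1.lpos
  refine NURow.LnH_P ⟨by norm_num [P00], by norm_num [P00], by norm_num [P00], fun _ => by norm_num [P00],
    fun _ => by norm_num [P00], fun r t => ?_, fun r t => ?_⟩ (by norm_num [P00]) (by norm_num [P00])
    fun r => by norm_num [P00]
  · show 0 < l * (1 / 40) / (8 * ((r : ℝ) + 1))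
    positivity
  · exact le_rfl

theorem beC_gt {ep : ℝ} (hep : ep < 1 / 4) : 1 < NUGC.PLX.beC ep := by unfold NUGC.PLX.beC; linarith

/-- records with all rows and ends on the imaginary axis are admissible -/
theorem ok6_ax {m M : ℕ} {c c' : ℂ} {β T1 T1' : ℝ} (h0 : 0 < β) (h1 : β ≤ 4 / 3) {x : Fin m → ℂ}
    {y : Fin M → ℂ} {p q : ℂ} (hx : ∀ i, (x i).re = 0) (hy : ∀ i, (y i).re = 0) (hp : p.re = 0) (hq : q.re = 0) :
    (⟨c, c', β, x, y, p, q, PBX.gP β [I, -I], PBX.gP β [I, -I], PHK.gO T1 [] x, PHK.gO T1' [] y⟩ : RU m M).Ok6 := by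
  have hl := NUP1.lpos
  have r0 : ∀ {w : ℂ}, w.re = 0 → |w.re| ≤ l / 2 := fun h => by rw [h, abs_zero]; positivity
  have n0 : ∀ {w : ℂ}, w.re = 0 → w.re ≠ l / 4 := fun h => by rw [h]; exact (by positivity : (0 : ℝ) < l / 4).ne
  have hE : ∀ w ∈ ([I, -I] : List ℂ), |w.re| ≤ l / 2 := by
    intro w hw
    simp only [List.mem_cons, List.not_mem_nil, or_false] at hw
    rcases hw with rfl | rfl
    · exact r0 (by simp)
    · exact r0 (by simp)
  exact ⟨h0, h1, fun i => r0 (hx i), fun i => r0 (hy i), r0 hp, r0 hq, fun i => n0 (hx i), fun i => n0 (hy i),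
    PBX.GOk.gP h0 h1 hE, PBX.GOk.gP h0 h1 hE, PHK.goN_gO (fun i => r0 (hx i)) (by simp),
    PHK.goN_gO (fun i => r0 (hy i)) (by simp)⟩

theorem lnTh (k : NUP1S.O3) : PHK.lnP parTh k ∈ Set.Icc (PHK.loV (some k)) (PHK.hiV (some k)) := by
  have hl := NUP1.lpos
  cases k <;> simp only [PHK.lnP, PHK.loV, PHK.hiV, parTh, Set.mem_Icc] <;> constructor <;> nlinarith

theorem nrI_preY {m : ℕ} (x : Fin m → ℂ) : St.nrI x = preY x (yq x) 0 0 := rfl

/-- **at `D = i s` the function is `YI` at the rows `- i s`, `0`** -/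
theorem YT_slit (ha : 1 ≤ a0) (hb : 1 ≤ b0) {ep : ℝ} (hep : 0 ≤ ep) (hep1 : ep < 1 / 4) (k : ℕ)
    (s : ℝ) : YT a0 b0 ep (k * (a0 + b0)) (I * s) = St.YI ep (St.xI (k * (a0 + b0)) (hS a0 k s)) := by
  obtain ⟨m, hm⟩ : ∃ m, m = k * (a0 + b0) := ⟨_, rfl⟩
  have hx : ∀ i : Fin m, xB a0 b0 m (I * s) i = St.xI m (hS a0 k s) i + (qs a0 b0 s : ℂ) * I := by
    subst hm
    exact xB_slit ha hb k s
  have he : eB a0 b0 m (I * s) = 0 + (qs a0 b0 s : ℂ) * I := by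
    subst hm
    exact eB_slit ha hb k s
  rw [← hm]
  have hxe : xB a0 b0 m (I * s) = fun i => St.xI m (hS a0 k s) i + (qs a0 b0 s : ℂ) * I := funext hx
  have hye : yq (xB a0 b0 m (I * s)) = fun j => yq (St.xI m (hS a0 k s)) j + (qs a0 b0 s : ℂ) * I := by
    rw [hxe]
    rfl
  have hr : ∀ i : Fin m, (St.xI m (hS a0 k s) i).re = 0 := fun i => by simp [St.xI]
  have hr' : ∀ i : Fin m, (xB a0 b0 m (I * s) i).re = 0 := fun i => by rw [hx, add_re, hr]; simp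
  have b0' : 0 < NUGC.PLX.beC ep := by unfold NUGC.PLX.beC; linarith
  have b1 : NUGC.PLX.beC ep ≤ 4 / 3 := by unfold NUGC.PLX.beC; linarith
  have b2 := beC_gt hep1
  have O1 : (St.RI ep (St.xI m (hS a0 k s))).Ok6 :=
    ok6_ax b0' b1 hr (fun j => hr j.modNat) (by simp) (by simp)
  have O2 : (RB a0 b0 ep m (I * s)).Ok6 :=
    ok6_ax b0' b1 hr' (fun j => hr' j.modNat) (by rw [he]; simp) (by rw [he]; simp)
  unfold YT St.YI
  rw [Finset.mul_sum]
  refine Finset.sum_congr rfl fun n _ => ?_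
  have hn : n + Fil.q * m = n + Fil.xn m + m := by
    have := Fil.add_xn m
    omega
  have h1 : (RB a0 b0 ep m (I * s)).fin parTh n (n + Fil.xn m) =
      (St.RI ep (St.xI m (hS a0 k s))).fin parTh n (n + Fil.xn m) :=
    O1.fin_move O2 b2 b2 (qs a0 b0 s) hx (fun j => hx j.modNat) he he rfl rfl hn parP00 lnH00 lnTh
  have h2 := O1.fin_eq (P := parTh) b2 hn parP00 lnH00 lnTh
  unfold YB preB St.E11I
  rw [h1, ← h2, nrI_preY]
  congr 1
  rw [hye, he]
  rw [hxe]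
  exact preY_tr (St.xI m (hS a0 k s)) (yq (St.xI m (hS a0 k s))) 0 0 ((qs a0 b0 s : ℂ) * I)

/-! ## the integral of the dislocated function -/

omit [Fil] in
theorem cnt_xI (a0 b0 k : ℕ) (s : ℝ) :
    FS.cnt (k * a0) (k * b0) (-(I * s)) 0 = St.xI (k * a0 + k * b0) (hS a0 k s) := by
  funext i
  rw [FS.cnt_val]
  unfold St.xI hS
  split
  · push_cast
    ring
  · push_cast
    ring

omit [Fil] in
theorem fQ_cast (q : ℕ) {m m' : ℕ} (h : m = m') (f : ℕ → ℝ) (w : ℂ) :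
    fQ q (St.xI m f) w = fQ q (St.xI m' f) w := by subst h; rfl

omit [Fil] in
/-- **the integral at `D = i s`** -/
theorem KI_slit (q : ℕ) (ha : 1 ≤ a0) (hb : 1 ≤ b0) (σ : ℝ) (k : ℕ) (s : ℝ) :
    FS.KI q a0 b0 σ k (I * s) = ∫ τ in winW σ (k * (a0 + b0)),
      k1T τ * (Complex.exp (gF τ) * fQ q (St.xI (k * (a0 + b0)) (hS a0 k s)) (zt τ)) := by
  have hl := NUP1.lpos
  unfold FS.KI
  refine integral_congr_ae (Eventually.of_forall fun τ => ?_)
  have hw : |(zt τ).re| < 3 * l := by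
    rw [PBT3.zt_re, abs_neg, abs_of_pos (by positivity)]
    linarith
  show k1T τ * Complex.exp (gF τ) * FS.fz q a0 b0 k (I * s) (qz a0 b0 (I * s) + zt τ) = _
  rw [FS.fz_slit q ha hb k hw, cnt_xI, fQ_cast q (by ring : k * a0 + k * b0 = k * (a0 + b0)), mul_assoc]

omit [Fil] in
theorem htS_hS {s : ℝ} (hs : |s| ≤ 1 / 100) (a0 k : ℕ) : St.HtS (hS a0 k s) := by
  intro i
  unfold hS
  split
  · rwa [abs_neg]
  · rw [abs_zero]; norm_num

/-- **the transfer at contents on the axis gives the transfer of `glueW`** -/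
theorem str_YT (ha : 1 ≤ a0) (hb : 1 ≤ b0) {ep : ℝ} (hep : 0 ≤ ep) (hep1 : ep < 1 / 4) {σ c C : ℝ} (hσ : 0 < σ)
    (hσ1 : σ < 9 / 80) (hc : 0 < c)
    (H : ∀ᶠ m : ℕ in atTop, ∀ h, St.HtS h → ‖St.YI ep (St.xI m h) - (-1) ^ Fil.xn m *
      (PBTRF.u0 * ∫ τ in winW σ m, k1T τ * (Complex.exp (gF τ) * fQ Fil.q (St.xI m h) (zt τ)))‖ ≤
        C * (m : ℝ) ^ (-c)) :
    ∃ σ s0 c C : ℝ, 0 < σ ∧ σ < 9 / 80 ∧ 0 < s0 ∧ 0 < c ∧ ∀ᶠ k : ℕ in atTop, ∀ s : ℝ, |s| ≤ s0 →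
      ‖YT a0 b0 ep (k * (a0 + b0)) (s * I) - (-1) ^ Fil.xn (k * (a0 + b0)) *
        (PBTRF.u0 * FS.KI Fil.q a0 b0 σ k (s * I))‖ ≤ C * (k : ℝ) ^ (-c) := by
  refine ⟨σ, 1 / 100, c, |C|, hσ, hσ1, by norm_num, hc, ?_⟩
  have ht : Tendsto (fun k : ℕ => k * (a0 + b0)) atTop atTop :=
    tendsto_id.atTop_mul_const' (by omega)
  filter_upwards [ht.eventually H, eventually_ge_atTop 1] with k hk hk1 s hs
  have h1 := hk (hS a0 k s) (htS_hS hs a0 k)
  rw [mul_comm (s : ℂ) I, YT_slit ha hb hep hep1, KI_slit Fil.q ha hb]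
  refine h1.trans ?_
  have hk0 : (0 : ℝ) < k := by exact_mod_cast hk1
  have hle : (k : ℝ) ≤ ((k * (a0 + b0) : ℕ) : ℝ) := by
    exact_mod_cast Nat.le_mul_of_pos_right k (by omega)
  have h2 : ((k * (a0 + b0) : ℕ) : ℝ) ^ (-c) ≤ (k : ℝ) ^ (-c) :=
    Real.rpow_le_rpow_of_nonpos hk0 hle (by linarith)
  calc C * ((k * (a0 + b0) : ℕ) : ℝ) ^ (-c) ≤ |C| * ((k * (a0 + b0) : ℕ) : ℝ) ^ (-c) :=
        mul_le_mul_of_nonneg_right (le_abs_self C) (Real.rpow_nonneg (Nat.cast_nonneg _) _)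
    _ ≤ |C| * (k : ℝ) ^ (-c) := mul_le_mul_of_nonneg_left h2 (abs_nonneg C)

end PLT.AY

end
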