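import Pool.Agent.PLT.Ag

/-!
# The level function of a balanced pair of rows at height `0`

`DA h = (√3 / 2) log ((2 cos h + √3) / (2 cos h - √3))`, `NA h = artanh (sin h) + artanh (2 sin h)`,
`ep = arctan (61 / 1000) < 7 π / 360`.

**`apex`**: `cos (h + ep) NA h < sin (h + ep) DA h` for `- ep ≤ h < π / 6 - ep`.
The quotient function `tan (h + ep) DA h - NA h` has one critical point (the derivative is
`(DA h - EA h) / cos² (h + ep)` with `DA` increasing, `EA` decreasing), between `arctan (7 / 24)` and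
`arctan (120 / 391)`; numbers at these two points.

**`pair_apex`**: the level function of the balanced pair (`b0 = π / 6 + δ`, `b1 = π / 6 - δ`) is positive
at the offset `8 v / 3 = ep`, height `0`, for `0 ≤ δ < π / 6`.
-/

set_option autoImplicit false

noncomputable section

open Set Filter Topology

namespace PLT.Apx

open NUMF

/-- `tan ep` -/
def tA : ℝ := 61 / 1000

/-- `ep = arctan (61 / 1000)`, slightly less than `7 π / 360` -/
def ep : ℝ := Real.arctan tA

/-- the denominator function -/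
def DA (h : ℝ) : ℝ := √3 / 2 * (Real.log (2 * Real.cos h + √3) - Real.log (2 * Real.cos h - √3))

/-- the numerator function -/
def NA (h : ℝ) : ℝ := (Real.log (1 + Real.sin h) - Real.log (1 - Real.sin h) +
  (Real.log (1 + 2 * Real.sin h) - Real.log (1 - 2 * Real.sin h))) / 2

/-- second factor of the comparison function -/
def gA (h : ℝ) : ℝ := 1 - tA * (Real.tan h * (1 + 2 / (4 * Real.cos h ^ 2 - 3)))

/-- the comparison function of the critical point -/
def EA (h : ℝ) : ℝ := 3 * Real.cos ep ^ 2 * ((Real.cos h - tA * Real.sin h) * gA h)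

theorem s3 : (1.73205 : ℝ) < √3 ∧ √3 < (1.73206 : ℝ) := by
  constructor
  · exact Real.lt_sqrt_of_sq_lt (by norm_num)
  · exact (Real.sqrt_lt' (by norm_num)).2 (by norm_num)

theorem s3sq : √3 ^ 2 = (3 : ℝ) := Real.sq_sqrt (by norm_num)

theorem tan_ep : Real.tan ep = tA := Real.tan_arctan _

theorem ep_pos : 0 < ep := by
  unfold ep tA
  exact Real.arctan_pos.2 (by norm_num)

/-- `8 v / 3 = ep` is an offset `v < 7 / 120 l` -/
theorem ep_lt7 : ep < 7 * Real.pi / 360 := by
  have h1 : ep ≤ tA := by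
    have h3 : Real.tan ep = tA := tan_ep
    have h4 : ep < Real.pi / 2 := Real.arctan_lt_pi_div_two _
    have := Real.le_tan ep_pos.le h4
    rwa [h3] at this
  have h2 := Real.pi_gt_d4
  unfold tA at h1
  norm_num at h1 h2
  linarith

theorem ep_lt : ep < Real.pi / 50 := by
  have := ep_lt7
  linarith [Real.pi_pos]

theorem cos_ep_pos : 0 < Real.cos ep := Real.cos_arctan_pos _

theorem cos_ep_sq : Real.cos ep ^ 2 = 1 / (1 + tA ^ 2) := Real.cos_sq_arctan _

theorem sin_ep : Real.sin ep = tA * Real.cos ep := by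
  have h := tan_ep
  rw [Real.tan_eq_sin_div_cos, div_eq_iff cos_ep_pos.ne'] at h
  exact h

theorem cos_add_ep (h : ℝ) : Real.cos (h + ep) = Real.cos ep * (Real.cos h - tA * Real.sin h) := by
  rw [Real.cos_add, sin_ep]
  ring

theorem sin_add_ep (h : ℝ) : Real.sin (h + ep) = Real.cos ep * (Real.sin h + tA * Real.cos h) := by
  rw [Real.sin_add, sin_ep]
  ring

/-- bounds in the range `|h| < π / 6` -/
theorem rg {h : ℝ} (h1 : -(Real.pi / 6) < h) (h2 : h < Real.pi / 6) :
    0 < Real.cos h ∧ √3 < 2 * Real.cos h ∧ -(1 / 2) < Real.sin h ∧ Real.sin h < 1 / 2 := by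
  have hp := Real.pi_pos
  have hc : √3 / 2 < Real.cos h := by
    rw [← Real.cos_pi_div_six, ← Real.cos_abs h]
    refine Real.cos_lt_cos_of_nonneg_of_le_pi_div_two (abs_nonneg _) (by linarith) ?_
    rw [abs_lt]
    constructor <;> linarith
  have h3 := s3.1
  refine ⟨by linarith, by linarith, ?_, ?_⟩
  · rw [← Real.sin_pi_div_six, ← Real.sin_neg]
    exact Real.sin_lt_sin_of_lt_of_le_pi_div_two (by linarith) (by linarith) (by linarith)
  · rw [← Real.sin_pi_div_six]
    exact Real.sin_lt_sin_of_lt_of_le_pi_div_two (by linarith) (by linarith) (by linarith)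

theorem hasDerivAt_DA {h : ℝ} (h1 : -(Real.pi / 6) < h) (h2 : h < Real.pi / 6) :
    HasDerivAt DA (6 * Real.sin h / (4 * Real.cos h ^ 2 - 3)) h := by
  obtain ⟨c0, c1, -, -⟩ := rg h1 h2
  have h3 := s3.1
  have q := s3sq
  have e1 : 0 < 2 * Real.cos h + √3 := by linarith
  have e2 : 0 < 2 * Real.cos h - √3 := by linarith
  have d0 := (Real.hasDerivAt_cos h).const_mul 2
  have d1 := (d0.add_const (√3)).log e1.ne'
  have d2 := (d0.sub_const (√3)).log e2.ne'
  refine ((d1.sub d2).const_mul (√3 / 2)).congr_deriv ?_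
  have e3 : 4 * Real.cos h ^ 2 - 3 = (2 * Real.cos h + √3) * (2 * Real.cos h - √3) := by
    linear_combination q
  rw [e3]
  field_simp
  linear_combination (2 * Real.sin h) * q

theorem hasDerivAt_NA {h : ℝ} (h1 : -(Real.pi / 6) < h) (h2 : h < Real.pi / 6) :
    HasDerivAt NA ((6 * Real.cos h ^ 2 - 3) / (Real.cos h * (4 * Real.cos h ^ 2 - 3))) h := by
  obtain ⟨c0, c1, s1, s2⟩ := rg h1 h2
  have q := s3sq
  have e1 : 0 < 1 + Real.sin h := by linarith
  have e2 : 0 < 1 - Real.sin h := by linarith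
  have e3 : 0 < 1 + 2 * Real.sin h := by linarith
  have e4 : 0 < 1 - 2 * Real.sin h := by linarith
  have d0 := Real.hasDerivAt_sin h
  have d1 := (d0.const_add 1).log e1.ne'
  have d2 := (d0.const_sub 1).log e2.ne'
  have d3 := ((d0.const_mul 2).const_add 1).log e3.ne'
  have d4 := ((d0.const_mul 2).const_sub 1).log e4.ne'
  refine (((d1.sub d2).add (d3.sub d4)).div_const 2).congr_deriv ?_
  have cs := Real.sin_sq_add_cos_sq h
  have e5 : 4 * Real.cos h ^ 2 - 3 = (1 + 2 * Real.sin h) * (1 - 2 * Real.sin h) := by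
    linear_combination 4 * cs
  have e6 : Real.cos h * Real.cos h = (1 + Real.sin h) * (1 - Real.sin h) := by
    linear_combination cs
  have e7 : Real.cos h / (1 + Real.sin h) - -Real.cos h / (1 - Real.sin h) = 2 / Real.cos h := by
    rw [neg_div, sub_neg_eq_add, div_add_div _ _ e1.ne' e2.ne', div_eq_div_iff (by positivity) c0.ne',
      ← e6]
    ring
  have e8 : 2 * Real.cos h / (1 + 2 * Real.sin h) - -(2 * Real.cos h) / (1 - 2 * Real.sin h) =
      4 * Real.cos h / (4 * Real.cos h ^ 2 - 3) := by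
    rw [neg_div, sub_neg_eq_add, div_add_div _ _ e3.ne' e4.ne', e5]
    congr 1
    ring
  have e9 : (4 * Real.cos h ^ 2 - 3) ≠ 0 := by
    rw [e5]
    positivity
  rw [e7, e8]
  obtain ⟨u, hu⟩ : ∃ u, u = 4 * Real.cos h ^ 2 - 3 := ⟨_, rfl⟩
  rw [← hu] at e9 ⊢
  field_simp
  linear_combination 2 * hu

/-- the quotient function -/
def Ph (h : ℝ) : ℝ := Real.tan (h + ep) * DA h - NA h

theorem hasDerivAt_Ph {h : ℝ} (h1 : -(Real.pi / 6) < h) (h2 : h < Real.pi / 6)
    (h3 : 0 < Real.cos (h + ep)) :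
    HasDerivAt Ph ((DA h - EA h) / Real.cos (h + ep) ^ 2) h := by
  obtain ⟨c0, c1, s1, s2⟩ := rg h1 h2
  have q := s3sq
  have d0 : HasDerivAt (fun h : ℝ => Real.tan (h + ep)) (1 / Real.cos (h + ep) ^ 2) h := by
    have := (Real.hasDerivAt_tan h3.ne').comp_add_const h ep
    exact this
  refine ((d0.mul (hasDerivAt_DA h1 h2)).sub (hasDerivAt_NA h1 h2)).congr_deriv ?_
  have e9 : 0 < 4 * Real.cos h ^ 2 - 3 := by
    have := s3.1
    nlinarith
  have ht : Real.tan (h + ep) = Real.sin (h + ep) / Real.cos (h + ep) :=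
    Real.tan_eq_sin_div_cos _
  have hc := cos_add_ep h
  have hs := sin_add_ep h
  have cs := Real.sin_sq_add_cos_sq h
  have hce := cos_ep_pos
  have h4 : 0 < Real.cos h - tA * Real.sin h := by
    rw [hc] at h3
    exact pos_of_mul_pos_right h3 hce.le
  rw [ht, hc, hs]
  unfold EA gA
  rw [Real.tan_eq_sin_div_cos]
  obtain ⟨c, hcc⟩ : ∃ c, c = Real.cos h := ⟨_, rfl⟩
  obtain ⟨s, hss⟩ : ∃ s, s = Real.sin h := ⟨_, rfl⟩
  obtain ⟨k, hk⟩ : ∃ k, k = Real.cos ep := ⟨_, rfl⟩
  rw [← hcc, ← hss] at cs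
  rw [← hcc] at c0 e9
  rw [← hcc, ← hss] at h4
  rw [← hk] at hce
  rw [← hcc, ← hss, ← hk]
  obtain ⟨D, hD⟩ : ∃ D, D = DA h := ⟨_, rfl⟩
  rw [← hD]
  obtain ⟨u, hu⟩ : ∃ u, u = 4 * c ^ 2 - 3 := ⟨_, rfl⟩
  obtain ⟨w, hw⟩ : ∃ w, w = c - tA * s := ⟨_, rfl⟩
  rw [← hu] at e9 ⊢
  rw [← hw] at h4 ⊢
  field_simp
  linear_combination (6 * k ^ 2 * w * c) * cs + (3 * k ^ 2 * w * (c - s * tA)) * hu -
    (k ^ 2 * w * (6 * c ^ 2 - 3)) * hw

/-! ### the two points -/

/-- first point -/
def p1 : ℝ := Real.arctan (7 / 24)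

/-- second point -/
def p2 : ℝ := Real.arctan (120 / 391)

theorem cs1 : Real.cos p1 = 24 / 25 ∧ Real.sin p1 = 7 / 25 := by
  have h : √(1 + (7 / 24 : ℝ) ^ 2) = 25 / 24 := by
    rw [Real.sqrt_eq_iff_mul_self_eq (by norm_num) (by norm_num)]
    norm_num
  unfold p1
  rw [Real.cos_arctan, Real.sin_arctan, h]
  norm_num

theorem cs2 : Real.cos p2 = 391 / 409 ∧ Real.sin p2 = 120 / 409 := by
  have h : √(1 + (120 / 391 : ℝ) ^ 2) = 409 / 391 := by
    rw [Real.sqrt_eq_iff_mul_self_eq (by norm_num) (by norm_num)]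
    norm_num
  unfold p2
  rw [Real.cos_arctan, Real.sin_arctan, h]
  norm_num

theorem p12 : 0 < p1 ∧ p1 < p2 ∧ p2 - p1 < 14 / 1000 ∧ p2 < Real.pi / 6 := by
  have h1 : 0 < p1 := by
    unfold p1
    exact Real.arctan_pos.2 (by norm_num)
  have h2 : p1 < p2 := by
    unfold p1 p2
    exact Real.arctan_strictMono (by norm_num)
  have h6 : p2 < Real.pi / 6 := by
    have e : Real.arctan (Real.tan (Real.pi / 6)) = Real.pi / 6 :=
      Real.arctan_tan (by linarith [Real.pi_pos]) (by linarith [Real.pi_pos])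
    rw [← e]
    unfold p2
    refine Real.arctan_strictMono ?_
    rw [Real.tan_pi_div_six, lt_div_iff₀ (by positivity)]
    have := s3.2
    linarith
  refine ⟨h1, h2, ?_, h6⟩
  have h3 : Real.sin (p2 - p1) = 143 / 10225 := by
    rw [Real.sin_sub, cs1.1, cs1.2, cs2.1, cs2.2]
    norm_num
  have h4 : p2 - p1 < Real.pi / 2 := by linarith [Real.pi_pos]
  have h5 := Real.pi_gt_d4
  by_contra h7
  have h8 : Real.sin (14 / 1000) ≤ Real.sin (p2 - p1) :=
    Real.sin_le_sin_of_le_of_le_pi_div_two (by linarith) h4.le (by linarith)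
  have h9 := Real.sin_gt_sub_cube (x := 14 / 1000) (by norm_num)
  rw [h3] at h8
  norm_num at h9
  linarith

theorem DA_eq {c : ℝ} (hc : √3 < 2 * c) :
    Real.log (2 * c + √3) - Real.log (2 * c - √3) = Real.log ((2 * c + √3) / (2 * c - √3)) := by
  have := s3.1
  rw [Real.log_div (by linarith) (by linarith)]

theorem log_ge_three {x : ℝ} (hx : 20.1 < x) : 3 < Real.log x := by
  have h1 := Real.exp_one_lt_d9
  rw [Real.lt_log_iff_exp_lt (by linarith)]
  have h2 : Real.exp 3 = Real.exp 1 ^ 3 := by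
    rw [← Real.exp_nat_mul]
    norm_num
  have h3 : Real.exp 1 ^ 3 < 2.7182818286 ^ 3 :=
    pow_lt_pow_left₀ h1 (Real.exp_pos 1).le (by norm_num)
  rw [h2]
  norm_num at h3 hx
  linarith

theorem log_le_three {x : ℝ} (h0 : 0 < x) (hx : x < 20) : Real.log x < 3 := by
  have h1 := Real.exp_one_gt_d9
  rw [Real.log_lt_iff_lt_exp h0]
  have h2 : Real.exp 3 = Real.exp 1 ^ 3 := by
    rw [← Real.exp_nat_mul]
    norm_num
  have h3 : 2.7182818283 ^ 3 < Real.exp 1 ^ 3 :=
    pow_lt_pow_left₀ h1 (by norm_num) (by norm_num)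
  rw [h2]
  norm_num at h3 hx
  linarith

/-- `log (20.25) > 3.0036` -/
theorem log3 {x : ℝ} (hx : 20.25 < x) : 3.0036 < Real.log x := by
  have h1 := Real.log_two_gt_d9
  have h2 : Real.log 20.25 ≤ Real.log x := Real.log_le_log (by norm_num) hx.le
  have h3 : 3 * Real.log 20.25 = Real.log (20.25 ^ 3) := by
    rw [Real.log_pow]
    push_cast
    ring
  have h4 : Real.log (2 ^ 13) ≤ Real.log (20.25 ^ 3) := Real.log_le_log (by norm_num) (by norm_num)
  rw [Real.log_pow] at h4
  push_cast at h4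
  linarith

/-- `log (19.43) > 2.96676` -/
theorem log1 {x : ℝ} (hx : 19.43 < x) : 2.96676 < Real.log x := by
  have h1 := Real.log_two_gt_d9
  have h2 : Real.log 19.43 ≤ Real.log x := Real.log_le_log (by norm_num) hx.le
  have h3 : 7 * Real.log 19.43 = 30 * Real.log 2 + Real.log (19.43 ^ 7 / 2 ^ 30) := by
    rw [Real.log_div (by norm_num) (by norm_num), Real.log_pow, Real.log_pow]
    push_cast
    ring
  have h4 := Real.one_sub_inv_le_log_of_pos (x := 19.43 ^ 7 / 2 ^ 30) (by norm_num)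
  have h5 : (-0.02705 : ℝ) ≤ 1 - (19.43 ^ 7 / 2 ^ 30 : ℝ)⁻¹ := by norm_num
  linarith

/-- `log (208 / 33) < 1.84112` -/
theorem log2 : Real.log (208 / 33) < 1.84112 := by
  have h1 := Real.log_two_lt_d9
  have h3 : 3 * Real.log (208 / 33) = 8 * Real.log 2 + Real.log ((208 / 33) ^ 3 / 2 ^ 8) := by
    rw [Real.log_div (x := (208 / 33) ^ 3) (by norm_num) (by norm_num), Real.log_pow, Real.log_pow]
    push_cast
    ring
  have h4 := Real.log_le_sub_one_of_pos (x := (208 / 33) ^ 3 / 2 ^ 8) (by norm_num)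
  have h5 : ((208 / 33) ^ 3 / 2 ^ 8 - 1 : ℝ) ≤ -0.02184 := by norm_num
  linarith

theorem D1 : 2.5692 < DA p1 ∧ DA p1 < 2.6 := by
  obtain ⟨a, b⟩ := s3
  unfold DA
  rw [cs1.1, DA_eq (by linarith)]
  have e1 : 0 < 2 * (24 / 25 : ℝ) - √3 := by linarith
  constructor
  · have h1 : 19.43 < (2 * (24 / 25) + √3) / (2 * (24 / 25) - √3) := by
      rw [lt_div_iff₀ e1]
      norm_num at a ⊢
      linarith
    have h2 := log1 h1
    nlinarith
  · have h1 : (2 * (24 / 25) + √3) / (2 * (24 / 25) - √3) < 20 := by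
      rw [div_lt_iff₀ e1]
      linarith
    have h2 := log_le_three (by positivity) h1
    nlinarith

theorem D2 : 2.6 < DA p2 := by
  obtain ⟨a, b⟩ := s3
  unfold DA
  rw [cs2.1, DA_eq (by linarith)]
  have e1 : 0 < 2 * (391 / 409 : ℝ) - √3 := by linarith
  have h1 : 20.25 < (2 * (391 / 409) + √3) / (2 * (391 / 409) - √3) := by
    rw [lt_div_iff₀ e1]
    norm_num at a ⊢
    linarith
  have h2 := log3 h1
  norm_num at a h2 ⊢
  nlinarith

theorem N1 : NA p1 < 0.92057 := by
  unfold NA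
  rw [cs1.2, ← Real.log_div (by norm_num) (by norm_num), ← Real.log_div (by norm_num) (by norm_num),
    ← Real.log_mul (by norm_num) (by norm_num)]
  have h := log2
  have e : ((1 + 7 / 25) / (1 - 7 / 25) * ((1 + 2 * (7 / 25)) / (1 - 2 * (7 / 25))) : ℝ) =
      208 / 33 := by norm_num
  rw [e]
  linarith

theorem tan1 : Real.tan p1 = 7 / 24 := Real.tan_arctan _
theorem tan2 : Real.tan p2 = 120 / 391 := Real.tan_arctan _

theorem E1 : 2.622 < EA p1 ∧ EA p1 < 2.6221 := by
  unfold EA gA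
  rw [cos_ep_sq, tan1, cs1.1, cs1.2]
  unfold tA
  norm_num

theorem E2 : EA p2 < 2.592 := by
  unfold EA gA
  rw [cos_ep_sq, tan2, cs2.1, cs2.2]
  unfold tA
  norm_num

theorem T1 : Real.tan (p1 + ep) * DA p1 > 0.9224 := by
  have h := D1.1
  have hc := cos_ep_pos
  rw [Real.tan_eq_sin_div_cos, cos_add_ep, sin_add_ep, cs1.1, cs1.2, mul_div_mul_left _ _ hc.ne']
  unfold tA
  norm_num at h ⊢
  linarith

/-! ### monotonicity -/

/-- in the range `0 ≤ h < π / 6` -/
theorem u_pos {h : ℝ} (h1 : -(Real.pi / 6) < h) (h2 : h < Real.pi / 6) :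
    0 < 4 * Real.cos h ^ 2 - 3 := by
  obtain ⟨c0, c1, -, -⟩ := rg h1 h2
  have := s3.1
  have q := s3sq
  nlinarith

theorem DA_mono {a b : ℝ} (h0 : 0 ≤ a) (h1 : a ≤ b) (h2 : b < Real.pi / 6) : DA a ≤ DA b := by
  have hp := Real.pi_pos
  have hm : MonotoneOn DA (Icc 0 b) := by
    refine monotoneOn_of_deriv_nonneg (convex_Icc 0 b)
      (fun x hx => (hasDerivAt_DA (by linarith [hx.1]) (by linarith [hx.2])).continuousAt.continuousWithinAt)
      (fun x hx => ?_) fun x hx => ?_
    · rw [interior_Icc] at hx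
      exact (hasDerivAt_DA (by linarith [hx.1])
        (by linarith [hx.2])).differentiableAt.differentiableWithinAt
    · rw [interior_Icc] at hx
      have k1 : -(Real.pi / 6) < x := by linarith [hx.1]
      have k2 : x < Real.pi / 6 := by linarith [hx.2]
      rw [(hasDerivAt_DA k1 k2).deriv]
      have h3 := u_pos k1 k2
      have h4 : 0 ≤ Real.sin x := Real.sin_nonneg_of_nonneg_of_le_pi hx.1.le (by linarith)
      positivity
  exact hm ⟨h0, h1⟩ ⟨by linarith, le_rfl⟩ h1

theorem DA_pos {h : ℝ} (h1 : -(Real.pi / 6) < h) (h2 : h < Real.pi / 6) : 0 < DA h := by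
  obtain ⟨c0, c1, -, -⟩ := rg h1 h2
  have := s3.1
  unfold DA
  have h3 : Real.log (2 * Real.cos h - √3) < Real.log (2 * Real.cos h + √3) :=
    Real.log_lt_log (by linarith) (by linarith)
  have h4 : 0 < √3 := by linarith
  exact mul_pos (by positivity) (by linarith)

theorem gA_anti {a b : ℝ} (h0 : 0 ≤ a) (h1 : a ≤ b) (h2 : b < Real.pi / 6) : gA b ≤ gA a := by
  have hp := Real.pi_pos
  have ub := u_pos (h := b) (by linarith) h2
  have ua := u_pos (h := a) (by linarith) (by linarith)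
  have hc : Real.cos b ≤ Real.cos a :=
    Real.cos_le_cos_of_nonneg_of_le_pi h0 (by linarith) h1
  have hcb := (rg (h := b) (by linarith) h2).1
  have ht : Real.tan a ≤ Real.tan b := by
    rcases h1.eq_or_lt with rfl | h1
    · exact le_rfl
    exact (Real.tan_lt_tan_of_nonneg_of_lt_pi_div_two h0 (by linarith) h1).le
  have ht0 : 0 ≤ Real.tan a := Real.tan_nonneg_of_nonneg_of_le_pi_div_two h0 (by linarith)
  have hu : 4 * Real.cos b ^ 2 - 3 ≤ 4 * Real.cos a ^ 2 - 3 := by nlinarith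
  have h3 : 2 / (4 * Real.cos a ^ 2 - 3) ≤ 2 / (4 * Real.cos b ^ 2 - 3) :=
    div_le_div_of_nonneg_left (by norm_num) ub hu
  have h4 : 0 < 2 / (4 * Real.cos a ^ 2 - 3) := by positivity
  have h5 : Real.tan a * (1 + 2 / (4 * Real.cos a ^ 2 - 3)) ≤
      Real.tan b * (1 + 2 / (4 * Real.cos b ^ 2 - 3)) :=
    mul_le_mul ht (by linarith) (by linarith) (ht0.trans ht)
  unfold gA tA
  linarith

theorem fA_anti {a b : ℝ} (h0 : 0 ≤ a) (h1 : a ≤ b) (h2 : b < Real.pi / 6) :
    Real.cos b - tA * Real.sin b ≤ Real.cos a - tA * Real.sin a ∧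
      0 < Real.cos b - tA * Real.sin b := by
  have hp := Real.pi_pos
  have hc : Real.cos b ≤ Real.cos a :=
    Real.cos_le_cos_of_nonneg_of_le_pi h0 (by linarith) h1
  have hs : Real.sin a ≤ Real.sin b :=
    Real.sin_le_sin_of_le_of_le_pi_div_two (by linarith) (by linarith) h1
  obtain ⟨-, c1, -, s2⟩ := rg (h := b) (by linarith) h2
  have := s3.1
  unfold tA
  constructor <;> linarith

theorem cos_pos_add {h : ℝ} (h0 : -ep ≤ h) (h1 : h + ep < Real.pi / 6) :
    0 < Real.cos (h + ep) := by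
  have hp := Real.pi_pos
  exact Real.cos_pos_of_mem_Ioo ⟨by linarith, by linarith⟩

/-- left of the first point -/
theorem Ph_left {h : ℝ} (h0 : 0 ≤ h) (h1 : h ≤ p1) : Ph p1 ≤ Ph h := by
  have hp := Real.pi_pos
  have he := ep_lt
  obtain ⟨q0, q1, q2, q3⟩ := p12
  have q4 : p1 + ep < Real.pi / 2 := by linarith
  have hpp := ep_pos
  have k1 : ∀ x ∈ Icc 0 p1, HasDerivAt Ph ((DA x - EA x) / Real.cos (x + ep) ^ 2) x := by
    intro x hx
    exact hasDerivAt_Ph (by linarith [hx.1]) (by linarith [hx.2])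
      (Real.cos_pos_of_mem_Ioo ⟨by linarith [hx.1], by linarith [hx.2]⟩)
  have hm : AntitoneOn Ph (Icc 0 p1) := by
    refine antitoneOn_of_deriv_nonpos (convex_Icc 0 p1)
      (fun x hx => (k1 x hx).continuousAt.continuousWithinAt)
      (fun x hx => ?_) fun x hx => ?_
    · rw [interior_Icc] at hx
      exact (k1 x ⟨hx.1.le, hx.2.le⟩).differentiableAt.differentiableWithinAt
    · rw [interior_Icc] at hx
      rw [(k1 x ⟨hx.1.le, hx.2.le⟩).deriv]
      have d1 := DA_mono hx.1.le hx.2.le (by linarith)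
      have g1 := gA_anti hx.1.le hx.2.le (by linarith)
      obtain ⟨f1, f2⟩ := fA_anti hx.1.le hx.2.le (by linarith)
      have hE := E1.1
      have hD := D1.2
      have hc := cos_ep_pos
      have g0 : 0 < gA p1 := by
        unfold gA
        rw [tan1, cs1.1]
        unfold tA
        norm_num
      have h3 : EA p1 ≤ EA x := by
        unfold EA
        refine mul_le_mul_of_nonneg_left ?_ (by positivity)
        exact mul_le_mul f1 g1 g0.le (f2.le.trans f1)
      exact div_nonpos_of_nonpos_of_nonneg (by linarith) (sq_nonneg _)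
  exact hm ⟨h0, h1⟩ ⟨q0.le, le_rfl⟩ h1

theorem EA_le {a b : ℝ} (h0 : 0 ≤ a) (h1 : a ≤ b) (h2 : b < Real.pi / 6) (h3 : 0 ≤ EA a) :
    EA b ≤ EA a := by
  have g1 := gA_anti h0 h1 h2
  obtain ⟨f1, f2⟩ := fA_anti h0 h1 h2
  have hc := cos_ep_pos
  rcases le_or_gt (gA b) 0 with h4 | h4
  · refine le_trans ?_ h3
    unfold EA
    exact mul_nonpos_of_nonneg_of_nonpos (by positivity)
      (mul_nonpos_of_nonneg_of_nonpos f2.le h4)
  · unfold EA
    refine mul_le_mul_of_nonneg_left ?_ (by positivity)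
    exact mul_le_mul f1 g1 h4.le (f2.le.trans f1)

/-- between the points -/
theorem Ph_mid {h : ℝ} (h0 : p1 ≤ h) (h1 : h ≤ p2) : Ph p1 - 0.061 * (h - p1) ≤ Ph h := by
  have hp := Real.pi_pos
  have he := ep_lt
  obtain ⟨q0, q1, q2, q3⟩ := p12
  have hpp := ep_pos
  have k0 : ∀ x ∈ Icc p1 p2, 0 < Real.cos (x + ep) := fun x hx =>
    Real.cos_pos_of_mem_Ioo ⟨by linarith [hx.1], by linarith [hx.2]⟩
  have k1 : ∀ x ∈ Icc p1 p2, HasDerivAt (fun x => Ph x + 0.061 * x)
      ((DA x - EA x) / Real.cos (x + ep) ^ 2 + 0.061) x := by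
    intro x hx
    have := hasDerivAt_Ph (by linarith [hx.1]) (by linarith [hx.2]) (k0 x hx)
    have h2 := this.add ((hasDerivAt_id x).const_mul 0.061)
    rw [mul_one] at h2
    exact h2
  have hm : MonotoneOn (fun x => Ph x + 0.061 * x) (Icc p1 p2) := by
    refine monotoneOn_of_deriv_nonneg (convex_Icc p1 p2)
      (fun x hx => (k1 x hx).continuousAt.continuousWithinAt)
      (fun x hx => ?_) fun x hx => ?_
    · rw [interior_Icc] at hx
      exact (k1 x ⟨hx.1.le, hx.2.le⟩).differentiableAt.differentiableWithinAt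
    · rw [interior_Icc] at hx
      rw [(k1 x ⟨hx.1.le, hx.2.le⟩).deriv]
      have d1 := DA_mono q0.le hx.1.le (by linarith [hx.2])
      have hE := E1
      have hD := D1.1
      have e1 := EA_le q0.le hx.1.le (by linarith [hx.2]) (by linarith)
      have c1 : Real.cos (p2 + ep) ≤ Real.cos (x + ep) :=
        Real.cos_le_cos_of_nonneg_of_le_pi (by linarith [hx.1]) (by linarith) (by linarith [hx.2])
      have c2 : (0.876 : ℝ) < Real.cos (p2 + ep) ^ 2 := by
        rw [cos_add_ep, mul_pow, cos_ep_sq, cs2.1, cs2.2]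
        unfold tA
        norm_num
      have c3 := k0 p2 ⟨q1.le, le_rfl⟩
      have c4 : Real.cos (p2 + ep) ^ 2 ≤ Real.cos (x + ep) ^ 2 :=
        pow_le_pow_left₀ c3.le c1 2
      have c5 : 0 < Real.cos (x + ep) ^ 2 := by linarith
      have h3 : -0.061 ≤ (DA x - EA x) / Real.cos (x + ep) ^ 2 := by
        rw [le_div_iff₀ c5]
        norm_num at hE hD c2 ⊢
        nlinarith
      linarith
  have := hm ⟨le_rfl, q1.le⟩ ⟨h0, h1⟩ h0
  simp only at this
  linarith

/-- right of the second point -/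
theorem Ph_right {h : ℝ} (h0 : p2 ≤ h) (h1 : h + ep < Real.pi / 6) : Ph p2 ≤ Ph h := by
  have hp := Real.pi_pos
  obtain ⟨q0, q1, q2, q3⟩ := p12
  have hpp := ep_pos
  have k0 : ∀ x ∈ Icc p2 h, 0 < Real.cos (x + ep) := fun x hx =>
    Real.cos_pos_of_mem_Ioo ⟨by linarith [hx.1], by linarith [hx.2]⟩
  have k1 : ∀ x ∈ Icc p2 h, HasDerivAt Ph ((DA x - EA x) / Real.cos (x + ep) ^ 2) x := by
    intro x hx
    exact hasDerivAt_Ph (by linarith [hx.1]) (by linarith [hx.2]) (k0 x hx)
  have hm : MonotoneOn Ph (Icc p2 h) := by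
    refine monotoneOn_of_deriv_nonneg (convex_Icc p2 h)
      (fun x hx => (k1 x hx).continuousAt.continuousWithinAt)
      (fun x hx => ?_) fun x hx => ?_
    · rw [interior_Icc] at hx
      exact (k1 x ⟨hx.1.le, hx.2.le⟩).differentiableAt.differentiableWithinAt
    · rw [interior_Icc] at hx
      rw [(k1 x ⟨hx.1.le, hx.2.le⟩).deriv]
      have d1 := DA_mono (by linarith) hx.1.le (by linarith [hx.2])
      have hD := D2
      have e1 : EA x ≤ 2.592 := by
        rcases le_or_gt 0 (EA p2) with h4 | h4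
        · exact (EA_le (by linarith) hx.1.le (by linarith [hx.2]) h4).trans E2.le
        · have g1 := gA_anti (a := p2) (by linarith) hx.1.le (by linarith [hx.2])
          obtain ⟨f1, f2⟩ := fA_anti (a := p2) (by linarith) hx.1.le (by linarith [hx.2])
          have hc := cos_ep_pos
          have g2 : gA p2 < 0 := by
            by_contra h5
            have : 0 ≤ EA p2 := by
              unfold EA
              have := f2.le.trans f1
              have h6 := not_lt.1 h5
              positivity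
            linarith
          have : EA x ≤ 0 := by
            unfold EA
            exact mul_nonpos_of_nonneg_of_nonpos (by positivity)
              (mul_nonpos_of_nonneg_of_nonpos f2.le (by linarith))
          linarith
      exact div_nonneg (by linarith) (sq_nonneg _)
  exact hm ⟨le_rfl, h0⟩ ⟨h0, le_rfl⟩ h0

theorem Ph_pos {h : ℝ} (h0 : 0 ≤ h) (h1 : h + ep < Real.pi / 6) : 0 < Ph h := by
  obtain ⟨q0, q1, q2, q3⟩ := p12
  have a : 0.0018 < Ph p1 := by
    have h2 := T1
    have h3 := N1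
    unfold Ph
    linarith
  rcases le_total h p1 with h2 | h2
  · have := Ph_left h0 h2
    linarith
  rcases le_total h p2 with h3 | h3
  · have := Ph_mid h2 h3
    linarith
  · have h4 := Ph_right h3 h1
    have h5 := Ph_mid q1.le le_rfl
    linarith

theorem NA_neg {h : ℝ} (h1 : -(Real.pi / 6) < h) (h2 : h < 0) : NA h < 0 := by
  have hp := Real.pi_pos
  obtain ⟨c0, c1, s1, s2⟩ := rg h1 (by linarith)
  have s0 : Real.sin h < 0 := Real.sin_neg_of_neg_of_neg_pi_lt h2 (by linarith)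
  have k1 : Real.log (1 + Real.sin h) < Real.log (1 - Real.sin h) :=
    Real.log_lt_log (by linarith) (by linarith)
  have k2 : Real.log (1 + 2 * Real.sin h) < Real.log (1 - 2 * Real.sin h) :=
    Real.log_lt_log (by linarith) (by linarith)
  unfold NA
  linarith

/-- **the inequality at the apex** -/
theorem apex {h : ℝ} (h0 : -ep ≤ h) (h1 : h + ep < Real.pi / 6) :
    0 < Real.sin (h + ep) * DA h - Real.cos (h + ep) * NA h := by
  have hp := Real.pi_pos
  have he := ep_lt
  have hpp := ep_pos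
  have hc := cos_pos_add h0 h1
  rcases lt_or_ge h 0 with h2 | h2
  · have h3 := NA_neg (by linarith) h2
    have h4 := DA_pos (h := h) (by linarith) (by linarith)
    have h5 : 0 ≤ Real.sin (h + ep) :=
      Real.sin_nonneg_of_nonneg_of_le_pi (by linarith) (by linarith)
    nlinarith [mul_nonneg h5 h4.le, mul_pos hc (neg_pos.2 h3)]
  · have h3 := Ph_pos h2 h1
    unfold Ph at h3
    have h4 : Real.sin (h + ep) * DA h - Real.cos (h + ep) * NA h =
        Real.cos (h + ep) * (Real.tan (h + ep) * DA h - NA h) := by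
      rw [Real.tan_eq_sin_div_cos]
      field_simp
    rw [h4]
    positivity

/-- sums of level functions at height `0` -/
theorem La_sum {h : ℝ} (h1 : -(Real.pi / 6) < h) (h2 : h < Real.pi / 6) :
    La (Real.pi / 3 - h) 1 + La (Real.pi / 3 + h) 1 =
      Real.log (2 * Real.cos h + √3) - Real.log (2 * Real.cos h - √3) ∧
    La (Real.pi / 3 + h) 1 - La (Real.pi / 3 - h) 1 =
      Real.log (1 + 2 * Real.sin h) - Real.log (1 - 2 * Real.sin h) := by
  obtain ⟨c0, c1, s1, s2⟩ := rg h1 h2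
  have q := s3sq
  have qq := s3.1
  have cs := Real.sin_sq_add_cos_sq h
  have hp := Real.pi_pos
  obtain ⟨A, hA⟩ : ∃ A, A = Real.sin (Real.pi / 3 + h) := ⟨_, rfl⟩
  obtain ⟨B, hB⟩ : ∃ B, B = Real.sin (Real.pi / 3 - h) := ⟨_, rfl⟩
  have hA1 : A = √3 / 2 * Real.cos h + Real.sin h / 2 := by
    rw [hA, Real.sin_add, Real.sin_pi_div_three, Real.cos_pi_div_three]
    ring
  have hB1 : B = √3 / 2 * Real.cos h - Real.sin h / 2 := by
    rw [hB, Real.sin_sub, Real.sin_pi_div_three, Real.cos_pi_div_three]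
    ring
  have a1 := abs_lt.1 (abs_sin_lt_one (β := Real.pi / 3 + h) (by linarith) (by linarith))
  have b1 := abs_lt.1 (abs_sin_lt_one (β := Real.pi / 3 - h) (by linarith) (by linarith))
  rw [← hA] at a1
  rw [← hB] at b1
  have p1 : 0 < 1 + A := by linarith [a1.1]
  have p2 : 0 < 1 - A := by linarith [a1.2]
  have p3 : 0 < 1 + B := by linarith [b1.1]
  have p4 : 0 < 1 - B := by linarith [b1.2]
  obtain ⟨c, hc⟩ : ∃ c, c = Real.cos h := ⟨_, rfl⟩
  obtain ⟨s, hs⟩ : ∃ s, s = Real.sin h := ⟨_, rfl⟩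
  rw [← hc] at hA1 hB1 c0 c1
  rw [← hs] at hA1 hB1 s1 s2
  rw [← hc, ← hs] at cs
  have e1 : Real.log (1 + A) + Real.log (1 + B) = 2 * (Real.log (2 * c + √3) - Real.log 2) := by
    rw [← Real.log_mul p1.ne' p3.ne', ← Real.log_div (by linarith) (by norm_num)]
    have : 2 * Real.log ((2 * c + √3) / 2) = Real.log (((2 * c + √3) / 2) ^ 2) := by
      rw [Real.log_pow]
      push_cast
      ring
    rw [this]
    congr 1
    rw [hA1, hB1]
    linear_combination (c ^ 2 / 4 - 1 / 4) * q - (1 / 4) * cs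
  have e2 : Real.log (1 - A) + Real.log (1 - B) = 2 * (Real.log (2 * c - √3) - Real.log 2) := by
    rw [← Real.log_mul p2.ne' p4.ne', ← Real.log_div (by linarith) (by norm_num)]
    have : 2 * Real.log ((2 * c - √3) / 2) = Real.log (((2 * c - √3) / 2) ^ 2) := by
      rw [Real.log_pow]
      push_cast
      ring
    rw [this]
    congr 1
    rw [hA1, hB1]
    linear_combination (c ^ 2 / 4 - 1 / 4) * q - (1 / 4) * cs
  have e3 : Real.log (1 + A) + Real.log (1 - B) = 2 * (Real.log (1 + 2 * s) - Real.log 2) := by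
    rw [← Real.log_mul p1.ne' p4.ne', ← Real.log_div (by linarith) (by norm_num)]
    have : 2 * Real.log ((1 + 2 * s) / 2) = Real.log (((1 + 2 * s) / 2) ^ 2) := by
      rw [Real.log_pow]
      push_cast
      ring
    rw [this]
    congr 1
    rw [hA1, hB1]
    linear_combination (-(c ^ 2 / 4)) * q - (3 / 4) * cs
  have e4 : Real.log (1 - A) + Real.log (1 + B) = 2 * (Real.log (1 - 2 * s) - Real.log 2) := by
    rw [← Real.log_mul p2.ne' p3.ne', ← Real.log_div (by linarith) (by norm_num)]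
    have : 2 * Real.log ((1 - 2 * s) / 2) = Real.log (((1 - 2 * s) / 2) ^ 2) := by
      rw [Real.log_pow]
      push_cast
      ring
    rw [this]
    congr 1
    rw [hA1, hB1]
    linear_combination (-(c ^ 2 / 4)) * q - (3 / 4) * cs
  unfold La
  rw [← hA, ← hB, ← hc, ← hs]
  constructor <;> linarith

/-- the level function of the pair at height `0` -/
theorem pair_zero {h θ : ℝ} (h1 : -(Real.pi / 6) < h) (h2 : h < Real.pi / 6) :
    Real.sin (Real.pi / 6 + θ) * (La (-h) 1 + La (Real.pi / 3 - h) 1) +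
      Real.sin (Real.pi / 6 - θ) * (La (-(Real.pi / 3 + h)) 1 + La (-h) 1) =
    Real.sin θ * DA h - Real.cos θ * NA h := by
  obtain ⟨e1, e2⟩ := La_sum h1 h2
  have e3 : La (Real.pi / 3 - h) 1 = (Real.log (2 * Real.cos h + √3) -
      Real.log (2 * Real.cos h - √3) - (Real.log (1 + 2 * Real.sin h) -
      Real.log (1 - 2 * Real.sin h))) / 2 := by linarith
  have e4 : La (Real.pi / 3 + h) 1 = (Real.log (2 * Real.cos h + √3) -
      Real.log (2 * Real.cos h - √3) + (Real.log (1 + 2 * Real.sin h) -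
      Real.log (1 - 2 * Real.sin h))) / 2 := by linarith
  have e5 : La h 1 = (Real.log (1 + Real.sin h) - Real.log (1 - Real.sin h)) / 2 := rfl
  rw [La_neg, La_neg, e3, e4, e5, Real.sin_add, Real.sin_sub, Real.sin_pi_div_six, Real.cos_pi_div_six]
  unfold DA NA
  ring

/-- **the level function of the balanced pair at `8 v / 3 = ep`, height `0`, is positive** -/
theorem pair_apex {δ : ℝ} (h0 : 0 ≤ δ) (h1 : δ < Real.pi / 6) :
    0 < Real.sin (Real.pi / 6 + δ) * (La (ep - δ) 1 + La (ep - δ + Real.pi / 3) 1) +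
      Real.sin (Real.pi / 6 - δ) * (La (ep - δ - Real.pi / 3) 1 + La (ep - δ) 1) := by
  have hp := Real.pi_pos
  have he := ep_lt
  have hpp := ep_pos
  have h := apex (h := δ - ep) (by linarith) (by linarith)
  rw [sub_add_cancel, ← pair_zero (by linarith) (by linarith)] at h
  rw [show -(δ - ep) = ep - δ by ring, show Real.pi / 3 - (δ - ep) = ep - δ + Real.pi / 3 by ring,
    show -(Real.pi / 3 + (δ - ep)) = ep - δ - Real.pi / 3 by ring] at h
  exact h

end PLT.Apx

end
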