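import Pool.Agent.PLT.CurD
import Pool.Agent.PHK.TopI6

/-!
# Sea on a curve: the sum over the configurations and over the numbers of quanta

* `PerIC`: the tilted bound of one configuration with an insertion, on given curves (`n + aX`, `n + aY`
  quanta, tilts `± d` around `ν`, prefactor `Q`, at most `2 (2 n + (aX + aY))` objects);
* **`fe_sumC`**: `∑ n ≤ N, FEC Z P (n + aX) (n + aY) .. φ ≤ 4 (1 + 1 / d) Q exp (δ L)`;
* **`fa_sumC`**: the same for `FAC`.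
-/

set_option autoImplicit false
set_option linter.unusedSectionVars false

noncomputable section

open Complex MeasureTheory Finset
open scoped ENNReal

namespace PLT

open NUO NUP1 NUP1S NUP1S.Ab NUP1S.AbC NUGC NUGC.PLX NUCR PHK
open PBF.PLX (Ins InsE)

/-- **the tilted bound of one configuration with an insertion**, given curves, `n + aX` quanta X,
`n + aY` quanta Y -/
def PerIC (C C' c b : ℝ) (k : ℕ) (c1 c' L ep e1 J ν d : ℝ) (N : ℕ) (B : OB) (P : Par6)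
    (aX aY : ℕ) (D D1 : ℕ → CrsC) (φ : ℕ → InsE) (Q : ℝ) : Prop :=
  ∀ n ≤ N, ∀ b' : ℝ, b' = d ∨ b' = -d → ∀ r ≤ 2 * (2 * n + (aX + aY)), ∀ (O : Fin r → Xo)
    (W : Finset ℤ), ENNReal.ofReal (Real.exp (b' * (ν - n))) *
      FnIC B P (D n r O) (D1 n r O) (n + aX) (n + aY) O (φ n r O) ≤
      ENNReal.ofReal (Q * (if (r : ℝ) ≤ L then 1 else Real.exp (c' * L)) *
        (∏ i, act C C' c b k L ep e1 J r (ht (O i))) *
        Real.exp (-(c1 * ∑ w ∈ W, (cO O w : ℝ) ^ 2)))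

/-- **the sum over the configurations and over the numbers of quanta**, nonnegative insertions -/
theorem fe_sumC {C c b c1 c' : ℝ} {k : ℕ} (hC : 0 < C) (hc : 0 < c) (hb : 0 < b) (hc1 : 0 < c1)
    (hc' : 0 ≤ c') {δ : ℝ} (hδ : 0 < δ) :
    ∃ a0 : ℝ, 0 < a0 ∧ ∀ C' : ℝ, 0 ≤ C' → ∃ L0 : ℝ, ∀ L ≥ L0, ∀ ep : ℝ, 0 ≤ ep → ep ≤ 1 / 4 →
      ∀ e1 : ℝ, 0 < e1 → e1 ≤ 1 / 4 → ∀ J : ℝ, 0 ≤ J →
      Real.exp (-(2 * Real.pi * J)) + 3 * e1 + 3 * ep ≤ a0 →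
      ∀ (ν d Q : ℝ) (N aX aY : ℕ) (Z : Bool → Option O3 → ℂ → ℂ) (B : OB) (P : Par6)
        (lo hi κ x0 : ℝ) (Qz : ℤ) (E : Set ℝ) (D D1 : ℕ → CrsC) (φ : ℕ → InsE), 0 < d → 0 ≤ Q →
      ((2 * (2 * N + (aX + aY)) + 1 : ℕ) : ℝ) ≤ Real.exp (2 * L) →
      OneCC Z B P lo hi κ x0 Qz E → (∀ n ≤ N, ∀ r O, CurC lo hi (D n r O) (D1 n r O)) →
      PerIC C C' c b k c1 c' L ep e1 J ν d N B P aX aY D D1 φ Q →
      ∑ n ∈ range (N + 1), FEC Z P (n + aX) (n + aY) (D n) (D1 n) (φ n) ≤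
        ENNReal.ofReal (4 * (1 + 1 / d) * (Q * Real.exp (δ * L))) := by
  obtain ⟨a0, ha0, h⟩ := conf_sum (C := C) (c := c) (b := b) (k := k) hC hc1 hc' hδ
  refine ⟨a0, ha0, fun C' hC' => ?_⟩
  obtain ⟨Dw, L0, -, h⟩ := h C' hC' (actInt hC.le hC' hc hb k)
  refine ⟨L0, fun L hL ep hep hep' e1 he1 he1' J hJ hsm ν d Q N aX aY Z B P lo hi κ x0 Qz E D D1 φ
    hd hQ hN hone hcur hper => ?_⟩
  have key : ∀ n < N + 1, ∀ b' : ℝ, b' = d ∨ b' = -d →
      ENNReal.ofReal (Real.exp (b' * (ν - n))) *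
        FEC Z P (n + aX) (n + aY) (D n) (D1 n) (φ n) ≤ ENNReal.ofReal (Q * Real.exp (δ * L)) := by
    intro n hn b' hb'
    have hn' : n ≤ N := Nat.lt_succ_iff.1 hn
    have h1 := FEC_le (n := n + aX) (n' := n + aY) (Dc := D n) (Dc' := D1 n) hone (hcur n hn') (φ n)
    calc ENNReal.ofReal (Real.exp (b' * (ν - n))) * FEC Z P (n + aX) (n + aY) (D n) (D1 n) (φ n)
        ≤ ENNReal.ofReal (Real.exp (b' * (ν - n))) *
          ∑ r ∈ range (2 * (n + aX + (n + aY)) + 1), ((r.factorial : ℕ) : ℝ≥0∞)⁻¹ *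
            ∫⁻ O : Fin r → Xo, FnIC B P (D n r O) (D1 n r O) (n + aX) (n + aY) O (φ n r O)
              ∂(Measure.pi fun _ => nu) := mul_le_mul' le_rfl h1
      _ = ∑ r ∈ range (2 * (n + aX + (n + aY)) + 1), ((r.factorial : ℕ) : ℝ≥0∞)⁻¹ *
            ∫⁻ O : Fin r → Xo, ENNReal.ofReal (Real.exp (b' * (ν - n))) *
              FnIC B P (D n r O) (D1 n r O) (n + aX) (n + aY) O (φ n r O)
                ∂(Measure.pi fun _ => nu) := by
          rw [Finset.mul_sum]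
          refine Finset.sum_congr rfl fun r _ => ?_
          rw [lintegral_const_mul' _ _ ENNReal.ofReal_ne_top]
          ring
      _ ≤ ENNReal.ofReal (Q * Real.exp (δ * L)) := by
          refine h L hL ep hep hep' e1 he1 he1' J hJ hsm Q hQ
            (2 * (n + aX + (n + aY)) + 1) ?_ (fun r O => ENNReal.ofReal (Real.exp (b' * (ν - n))) *
              FnIC B P (D n r O) (D1 n r O) (n + aX) (n + aY) O (φ n r O)) ?_
          · refine le_trans ?_ hN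
            exact_mod_cast (by omega : 2 * (n + aX + (n + aY)) + 1 ≤ 2 * (2 * N + (aX + aY)) + 1)
          · intro r hr O
            have hr' : r ≤ 2 * (2 * n + (aX + aY)) := by omega
            refine (hper n hn' b' hb' r hr' O (WZ Dw L r)).trans
              (ENNReal.ofReal_le_ofReal (le_of_eq ?_))
            have e1 : Q * (if (r : ℝ) ≤ L then 1 else Real.exp (c' * L)) =
                if (r : ℝ) ≤ L then Q else Q * Real.exp (c' * L) := by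
              split_ifs
              · rw [mul_one]
              · rfl
            rw [e1]
            rfl
  have h1 := sumN_le (b := 0) (d := d) (s := ν) (Q := Q * Real.exp (δ * L)) hd (by positivity)
    (fun n => FEC Z P (n + aX) (n + aY) (D n) (D1 n) (φ n)) (N + 1)
    (fun n hn => by
      have := key n hn d (Or.inl rfl)
      simpa using this)
    (fun n hn => by
      have := key n hn (-d) (Or.inr rfl)
      simpa using this)
  simpa using h1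

/-- **the same for `FAC`** -/
theorem fa_sumC {C c b c1 c' : ℝ} {k : ℕ} (hC : 0 < C) (hc : 0 < c) (hb : 0 < b) (hc1 : 0 < c1)
    (hc' : 0 ≤ c') {δ : ℝ} (hδ : 0 < δ) :
    ∃ a0 : ℝ, 0 < a0 ∧ ∀ C' : ℝ, 0 ≤ C' → ∃ L0 : ℝ, ∀ L ≥ L0, ∀ ep : ℝ, 0 ≤ ep → ep ≤ 1 / 4 →
      ∀ e1 : ℝ, 0 < e1 → e1 ≤ 1 / 4 → ∀ J : ℝ, 0 ≤ J →
      Real.exp (-(2 * Real.pi * J)) + 3 * e1 + 3 * ep ≤ a0 →
      ∀ (ν d Q : ℝ) (N aX aY : ℕ) (Z : Bool → Option O3 → ℂ → ℂ) (B : OB) (P : Par6)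
        (lo hi κ x0 : ℝ) (Qz : ℤ) (E : Set ℝ) (D D1 : ℕ → CrsC) (Ψ : ℕ → Ins), 0 < d → 0 ≤ Q →
      ((2 * (2 * N + (aX + aY)) + 1 : ℕ) : ℝ) ≤ Real.exp (2 * L) →
      OneCC Z B P lo hi κ x0 Qz E → (∀ n ≤ N, ∀ r O, CurC lo hi (D n r O) (D1 n r O)) →
      PerIC C C' c b k c1 c' L ep e1 J ν d N B P aX aY D D1
        (fun n r O a b x => ‖Ψ n r O a b x‖ₑ) Q →
      ∑ n ∈ range (N + 1), FAC Z P (n + aX) (n + aY) (D n) (D1 n) (Ψ n) ≤
        ENNReal.ofReal (4 * (1 + 1 / d) * (Q * Real.exp (δ * L))) := by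
  obtain ⟨a0, ha0, h⟩ := fe_sumC (k := k) hC hc hb hc1 hc' hδ
  refine ⟨a0, ha0, fun C' hC' => ?_⟩
  obtain ⟨L0, h⟩ := h C' hC'
  exact ⟨L0, fun L hL ep hep hep' e1 he1 he1' J hJ hsm ν d Q N aX aY Z B P lo hi κ x0 Qz E D D1 Ψ
    hd hQ hN hone hcur hper => h L hL ep hep hep' e1 he1 he1' J hJ hsm ν d Q N aX aY Z B P lo hi κ
      x0 Qz E D D1 (fun n r O a b x => ‖Ψ n r O a b x‖ₑ) hd hQ hN hone hcur hper⟩

end PLT

end
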