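import Pool.Agent.PLT.AsmRC
import Pool.Agent.PLT.TopIC

/-!
# Sea on a curve: the tilted bound of one configuration with groups, a statistic and weights

`PerGIC`: the bounds; **`perI_ofKC`**: `StabU`, `SpecPinC`, `OneRTC` and `S4KC` give `PerGIC` with constants
independent of the statistic; `perI_ofRC`.
-/

set_option autoImplicit false
set_option linter.unusedSectionVars false

noncomputable section

open MeasureTheory Finset
open scoped ENNReal

open PLX (Fil Ends)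

namespace PLT

open PHK PBO.PLX
open NUGC NUGC.PLX
open NUO NUP1 NUStabP NUDispW
open NUC43 (sg)
open NUSea.PLX.H0 (Gd IG TG cstF)
open NUSp (kG spo qc)
open PBF.PLX (InsE)
open PBP.PLX (gT)

variable [Fil] [Ends]

/-- **the tilted bounds for a family of near groups with a statistic and a weight of the objects** -/
def PerGIC (P : Par6) (G : GeoC) {ι : Type*} (ok : ℕ → ι → Prop) (Φ : ι → ℕ → ℕ → InsE)
    (K2 C c b : ℝ) (k : ℕ) (c1 Ca : ℝ) : Prop :=
  ∀ ep : ℝ, 0 < ep → ep ≤ 1 / 100 → ∀ e1 : ℝ, 0 < e1 → e1 ≤ 1 / 100 → ∀ J : ℝ, 0 ≤ J →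
    ∀ δ : ℝ, 0 < δ → ∃ d Cst : ℝ, 0 < d ∧ 0 ≤ Cst ∧ ∃ m0 : ℕ, ∀ m ≥ m0,
      ∀ (n : ℕ) (g : Fin n → Gd) (aX aY : ℕ) (ν Qe : ℝ), n ≤ 2 →
        (∀ i j, i ≠ j → (g i).σ ≠ (g j).σ) → aX ≤ 3 → aY ≤ Fil.xe m + 3 →
        Fil.xe m ≤ aY + 3 →
        (aX : ℝ) + Fil.xe m - aY = -∑ i, NUC43.sg (g i).σ * qc (g i).c / 2 →
        |ν - m| ≤ 2 → (∀ i, |(g i).τ| ≤ TW ep e1 m) → 0 ≤ Qe →
        (∀ T1, TW ep e1 m ≤ T1 →
          Real.exp (enQ g ((aX : ℝ) + Fil.xe m - aY) 0 0 T1) ≤ Qe) →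
        ∀ i : ι, ok m i → ∀ (w : (r : ℕ) → (Fin r → Xo) → ℝ) (Bw : ℝ), 0 ≤ Bw →
        (∀ r O, 0 ≤ w r O) → (∀ (r : ℕ) (O : Fin r → Xo), w r O ≤ Bw * Real.exp (K2 * r) *
          Real.exp (∑ i, gT e1 (Real.log m) (ht (O i)))) →
        PerIC C 1 c b k c1 0 (Real.log m) ep e1 J ν d (2 * m)
          ((G.B m (4 / 3 * (1 - ep))).mul (spF g)) P aX aY
          (fun _ _ _ => G.D e1 J m) (fun _ _ _ => G.D1 e1 J m)
          (fun N r O a b x => ENNReal.ofReal (w r O) * Φ i m N r O a b x)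
          (Bw * (Cst * Real.exp (G.EM m) * (m : ℝ) ^ (Ca * (ep + e1) + δ) *
            Real.exp (∑ i, G.MF m (g i).σ (g i).c (g i).w) * Real.exp (-gnF e1 J m g) * Qe))

/-- **the tilted bounds for a family of near groups with a statistic and a weight of the objects**,
constants independent of the statistic -/
theorem perI_ofKC {P : Par6} (hP : GoodP6 P) {G : GeoC} (hB : ∀ m β, (G.B m β).Nn)
    (hS : StabU P G.en) {C3 : ℝ} (hspec : SpecPinC P C3) (h1 : OneRTC P G) (K K2 : ℝ) :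
    ∃ (C c b c1 : ℝ) (k : ℕ), 0 < C ∧ 0 < c ∧ 0 < b ∧ 0 < c1 ∧
      ∀ (ι : Type*) (ok : ℕ → ι → Prop) (Φ : ι → ℕ → ℕ → InsE) (Ca : ℝ),
        S4KC P G ok Φ K Ca → PerGIC P G ok Φ K2 C c b k c1 Ca := by
  obtain ⟨C2, c1, hc1, hstab⟩ := hS
  obtain ⟨aS', c2, τ, haS', hc2, h1⟩ := h1
  obtain ⟨K', K6, hK6, hasm⟩ := asm6 hP (c2 := c2) (aS := aS') (τ := τ) (c1 := c1) C2
    (K + K2) (Real.log (max C3 1)) haS' hc2 hc1
  obtain ⟨C, c, hC, hc, hone⟩ := h1 K'
  have hK60 : 0 < K6 := by linarith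
  refine ⟨C * K6, c, 1 / 10, c1 / 4, 6 + 1, by positivity, hc, by norm_num, by positivity, ?_⟩
  intro ι ok Φ Ca h4 ep hep hep1 e1 he1 he11 J hJ δ hδ
  obtain ⟨d, Cst, hd, hCst, M0, h4⟩ :=
    h4 (c1 / 4) (by positivity) ep hep hep1 e1 he1 he11 J hJ δ hδ
  obtain ⟨m2, hone⟩ := hone ep hep hep1 e1 he1 he11 J hJ
  refine ⟨d, K6 * Cst, hd, by positivity, max (max M0 m2) 3, ?_⟩
  intro m hM n g aX aY ν Qe hn hσ haX haY haY' hq hν hnear hQe hpin i hok w Bw hBw hw0 hwB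
  have hM0 : M0 ≤ m := ((le_max_left _ _).trans (le_max_left _ _)).trans hM
  have hM1 : m2 ≤ m := ((le_max_right _ _).trans (le_max_left _ _)).trans hM
  have hM3 : 3 ≤ m := (le_max_right _ _).trans hM
  have hL1 : 1 ≤ Real.log m := by
    rw [Real.le_log_iff_exp_le (by positivity)]
    have h3 : (3 : ℝ) ≤ m := by exact_mod_cast hM3
    exact (Real.exp_one_lt_d9.le.trans (by norm_num)).trans h3
  intro N hN b' hb' r hr O W
  show ENNReal.ofReal (Real.exp (b' * (ν - N))) *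
    FnIC ((G.B m (4 / 3 * (1 - ep))).mul (spF g)) P (G.D e1 J m)
      (G.D1 e1 J m) (N + aX) (N + aY) O
      (fun a b x => ENNReal.ofReal (w r O) * Φ i m N r O a b x) ≤ _
  by_cases hchg : chgO6 O true ≤ (N + aX : ℕ) ∧ chgO6 O false ≤ (N + aY : ℕ) ∧ cnt6 O
  swap
  · rw [FnIC_zero _ _ _ _ _ _ hchg, mul_zero]
    exact zero_le
  rw [FnIC_const _ _ _ _ _ _ O ENNReal.ofReal_ne_top, FnIC_eq _ _ _ _ _ _ hchg]
  -- the end of the window
  obtain ⟨T1, hT1⟩ : ∃ T1, T1 = T1R ep e1 m O 0 := ⟨_, rfl⟩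
  have hexc0 := excS_nonneg (TW ep e1 m) O
  have hT1E : TW ep e1 m ≤ T1 := by
    rw [hT1]
    unfold T1R
    linarith [le_max_right (excS (TW ep e1 m) O) 0]
  have hT1O : ∀ i, |ht (O i)| ≤ T1 := by
    intro i
    have h1 := excS_ge (TW ep e1 m) O i
    have h2 := le_max_left (excS (TW ep e1 m) O) 0
    rw [hT1]
    unfold T1R
    linarith
  have hQ := hpin T1 hT1E
  have hR : RgR6 ep e1 m g aX aY ν N O 0 0 :=
    ⟨hn, hσ, haX, haY, haY', hq, hν, hN, hr, hchg.1, hchg.2.1, hchg.2.2, le_rfl, fun i => by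
      right
      right
      rw [add_zero]
      exact hnear i, le_rfl, fun i => by
      rw [← hT1]
      unfold NUSp.exc
      exact max_le (by linarith [hnear i]) le_rfl⟩
  have h5 := h4 m hM0 n g aX aY ν N b' r O hb' hR hnear i hok
  rw [← hT1] at h5
  obtain ⟨gn, hgn⟩ : ∃ gn : ℝ, gn = Real.exp (-gnF e1 J m g) := ⟨_, rfl⟩
  rw [← hgn] at h5 ⊢
  have hgn0 : 0 ≤ gn := by
    rw [hgn]
    exact (Real.exp_pos _).le
  obtain ⟨mp, hmp⟩ : ∃ mp, mp = (m : ℝ) ^ (Ca * (ep + e1) + δ) := ⟨_, rfl⟩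
  rw [← hmp] at h5 ⊢
  have hmp0 : 0 ≤ mp := by
    rw [hmp]
    positivity
  -- the numbers
  have hpq : (((nA6 (N + aX) O true : ℕ) : ℝ) - ((nA6 (N + aY) O false : ℕ) : ℝ)) +
      Fil.xe m = ((aX : ℝ) + Fil.xe m - aY) - ∑ i, sg (NUO.sp (O i)) * kq6 (k6 (O i)) := by
    rw [sum_kqC, cast_nA6 hchg.1, cast_nA6 hchg.2.1]
    push_cast
    ring
  obtain ⟨EE, hEE⟩ : ∃ EE, EE = 1 / 2 * (∑ d, ∑ d', ES (TG (fun i => (g i).pin T1) d)
    (TG (fun i => (g i).pin T1) d')) := ⟨_, rfl⟩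
  obtain ⟨ct, hct⟩ : ∃ ct, ct = cstF T1 g true := ⟨_, rfl⟩
  set es : Fin r → ℝ := fun i => ∑ d, ES (obSr6 P (O i))
    (TG (fun i => (g i).pin T1) d) - ct * (sg (NUO.sp (O i)) * kq6 (k6 (O i))) with hes
  have henG : enRC P m g O T1 (nA6 (N + aX) O true) (nA6 (N + aY) O false) =
      ∑ i, es i + (EE + ct * ((aX : ℝ) + Fil.xe m - aY)) := by
    unfold enRC
    rw [hpq, hes, sum_sub_distrib, ← mul_sum, ← hEE, ← hct]
    ring
  set B : ℝ := prefR G.toGeo m g 0 0 Cst * mp * gn *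
    Real.exp (EE + ct * ((aX : ℝ) + Fil.xe m - aY)) with hBd
  have hB0 : 0 ≤ B := by
    have := prefR_nonneg (G := G.toGeo) (m := m) (g := g) (E := 0) (x := 0) hCst
    positivity
  -- the algebra
  have key := hasm C c 6 (Real.log m) ep e1 J r O W
    (fun i => ob6 (G.B m (4 / 3 * (1 - ep))) P (O i))
    (fun i => facL6 (spF g) (parts6 P (O i)))
    (fun i => G.one m ep e1 J r O i + gT e1 (Real.log m) (ht (O i))) es
    (∏ i, ∏ j, if i < j then pairN6 P O i j else 1) (G.en m r O) B (c1 / 4) hC.le hL1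
    (fun i => ob6_nonneg (hB _ _) _ _) (fun i => facL6_nonneg (spFR_nonneg g) _) hB0 le_rfl
    (fun W => hstab m r O W)
    (fun i => by
      have h := hspec (O i) T1 (hT1O i) n g hn
      rw [Real.exp_log (lt_of_lt_of_le one_pos (le_max_right _ _)), hes]
      rw [← hct] at h
      exact h.trans (le_max_left _ _))
    (fun i => by
      have h := hone m hM1 r O i
      have h2 := mul_le_mul_of_nonneg_right h (Real.exp_pos (gT e1 (Real.log m) (ht (O i)))).le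
      rw [mul_assoc, mul_assoc, ← Real.exp_add, ← Real.exp_add, neg_add_cancel, Real.exp_zero,
        mul_one] at h2
      refine le_trans (le_of_eq ?_) h2
      congr 2
      ring)
  -- the weight of the objects
  have hobj : objWc6 ((G.B m (4 / 3 * (1 - ep))).mul (spF g)) P O =
      ((∏ i, ob6 (G.B m (4 / 3 * (1 - ep))) P (O i)) *
        ∏ i, facL6 (spF g) (parts6 P (O i))) * (∏ i, loc6 (gH6 P O) P (O i)) *
        ∏ i, ∏ j, if i < j then pairN6 P O i j else 1 := by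
    unfold objWc6
    rw [prod_ob6_mul]
    rfl
  have hobjn : 0 ≤ objWc6 ((G.B m (4 / 3 * (1 - ep))).mul (spF g)) P O := by
    rw [hobj]
    refine mul_nonneg (mul_nonneg (mul_nonneg (prod_nonneg fun i _ => ob6_nonneg (hB _ _) _ _)
      (prod_nonneg fun i _ => facL6_nonneg (spFR_nonneg g) _))
      (prod_nonneg fun i _ => loc6_nonneg _ _ _)) ?_
    refine prod_nonneg fun i _ => prod_nonneg fun j _ => ?_
    split_ifs
    · exact pairN6_nonneg _ _ _ _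
    · exact zero_le_one
  rw [← hobj] at key
  have hexp : prefR G.toGeo m g 0 0 Cst * mp * gn * Real.exp (confRC G m ep e1 J K (c1 / 4) O +
      enRC P m g O T1 (nA6 (N + aX) O true) (nA6 (N + aY) O false)) =
      B * Real.exp (∑ i, G.one m ep e1 J r O i + ∑ i, es i + K * r + G.en m r O +
        c1 / 4 * win univ fun i => ht (O i)) := by
    rw [henG, hBd, mul_assoc _ (Real.exp _) (Real.exp _), ← Real.exp_add]
    congr 2
    unfold confRC
    ring
  rw [hexp] at h5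
  -- the prefactor
  have hBQ : K6 * B ≤ K6 * Cst * Real.exp (G.EM m) * mp *
      Real.exp (∑ i, G.MF m (g i).σ (g i).c (g i).w) * gn * Qe := by
    have e1 : K6 * B = K6 * Cst * Real.exp (G.EM m) * mp *
        Real.exp (∑ i, G.MF m (g i).σ (g i).c (g i).w) * gn *
        Real.exp (enQ g ((aX : ℝ) + Fil.xe m - aY) 0 0 T1) := by
      rw [hBd]
      unfold prefR enQ
      rw [← hEE, ← hct, mul_zero, mul_zero, add_zero, add_zero, Real.exp_zero]
      ring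
    rw [e1]
    refine mul_le_mul_of_nonneg_left hQ ?_
    positivity
  obtain ⟨X, hX⟩ : ∃ X, X = Real.exp (∑ i, G.one m ep e1 J r O i + ∑ i, es i + K * r +
    G.en m r O + c1 / 4 * win univ fun i => ht (O i)) := ⟨_, rfl⟩
  obtain ⟨gs, hgs⟩ : ∃ gs, gs = ∑ i, gT e1 (Real.log m) (ht (O i)) := ⟨_, rfl⟩
  have hkX : Real.exp (∑ i, (G.one m ep e1 J r O i + gT e1 (Real.log m) (ht (O i))) +
      ∑ i, es i + (K + K2) * r + G.en m r O + c1 / 4 * win univ fun i => ht (O i)) =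
      Real.exp (K2 * r) * Real.exp gs * X := by
    rw [hX, hgs, ← Real.exp_add, ← Real.exp_add, sum_add_distrib]
    congr 1
    ring
  rw [hkX] at key
  rw [← hX] at h5
  have hX0 : 0 < X := by
    rw [hX]
    exact Real.exp_pos _
  have hwO := hwB r O
  rw [← hgs] at hwO
  obtain ⟨AA, hAA⟩ : ∃ AA, AA =
    ∏ i, act (C * K6) 1 c (1 / 10) (6 + 1) (Real.log m) ep e1 J r (ht (O i)) := ⟨_, rfl⟩
  have hAA0 : 0 ≤ AA := by
    rw [hAA]
    exact prod_nonneg fun i _ => act_nonneg (by positivity) zero_le_one (by linarith)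
  obtain ⟨Y, hY⟩ : ∃ Y, Y = Real.exp (-(c1 / 4 * ∑ w ∈ W, (cO O w : ℝ) ^ 2)) := ⟨_, rfl⟩
  have hY0 : 0 ≤ Y := by
    rw [hY]
    exact (Real.exp_pos _).le
  have key' : objWc6 ((G.B m (4 / 3 * (1 - ep))).mul (spF g)) P O *
      (B * (Real.exp (K2 * r) * Real.exp gs * X)) ≤ K6 * B * AA * Y := by
    rw [hAA, hY]
    exact key
  obtain ⟨ob, hob⟩ : ∃ ob, ob = objWc6 ((G.B m (4 / 3 * (1 - ep))).mul (spF g)) P O :=
    ⟨_, rfl⟩
  rw [← hob] at key' hobjn ⊢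
  have hfin : ob * (w r O * (B * X)) ≤ Bw * (K6 * Cst * Real.exp (G.EM m) * mp *
      Real.exp (∑ i, G.MF m (g i).σ (g i).c (g i).w) * gn * Qe) * AA * Y := by
    calc ob * (w r O * (B * X))
        ≤ ob * (Bw * Real.exp (K2 * r) * Real.exp gs * (B * X)) :=
          mul_le_mul_of_nonneg_left (mul_le_mul_of_nonneg_right hwO (by positivity)) hobjn
      _ = Bw * (ob * (B * (Real.exp (K2 * r) * Real.exp gs * X))) := by ring
      _ ≤ Bw * (K6 * B * AA * Y) := mul_le_mul_of_nonneg_left key' hBw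
      _ = Bw * (K6 * B) * AA * Y := by ring
      _ ≤ _ := mul_le_mul_of_nonneg_right (mul_le_mul_of_nonneg_right
          (mul_le_mul_of_nonneg_left hBQ hBw) hAA0) hY0
  have g4 : (if (r : ℝ) ≤ Real.log m then (1 : ℝ) else Real.exp (0 * Real.log m)) = 1 := by
    split_ifs
    · rfl
    · rw [zero_mul, Real.exp_zero]
  rw [g4, mul_one, ← hAA, ← hY]
  calc ENNReal.ofReal (Real.exp (b' * (ν - N))) * (ENNReal.ofReal (w r O) *
        (ENNReal.ofReal ob * gasIC ((G.B m (4 / 3 * (1 - ep))).mul (spF g)) P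
          (G.D e1 J m) (G.D1 e1 J m) O (nA6 (N + aX) O true) (nA6 (N + aY) O false)
          (Φ i m N r O (nA6 (N + aX) O true) (nA6 (N + aY) O false))))
      = ENNReal.ofReal ob * (ENNReal.ofReal (w r O) *
          lhsIC P G ep e1 J m g aX aY ν N b' O (Φ i m N)) := by
        unfold lhsIC
        ring
    _ ≤ ENNReal.ofReal ob * (ENNReal.ofReal (w r O) * ENNReal.ofReal (B * X)) :=
        mul_le_mul_right (mul_le_mul_right h5 _) _
    _ = ENNReal.ofReal (ob * (w r O * (B * X))) := by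
        rw [← ENNReal.ofReal_mul (hw0 r O), ← ENNReal.ofReal_mul hobjn]
    _ ≤ _ := ENNReal.ofReal_le_ofReal hfin

/-- **the tilted bounds for a family of near groups with a statistic and a weight of the objects** -/
theorem perI_ofRC {P : Par6} (hP : GoodP6 P) {G : GeoC} (hB : ∀ m β, (G.B m β).Nn)
    (hS : StabU P G.en) {C3 : ℝ} (hspec : SpecPinC P C3) {ι : Type*} {ok : ℕ → ι → Prop} {Φ : ι → ℕ → ℕ → InsE}
    (h4 : S4IC P G ok Φ) (h1 : OneRTC P G) (K2 : ℝ) :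
    ∃ (C c b c1 Ca : ℝ) (k : ℕ), 0 < C ∧ 0 < c ∧ 0 < b ∧ 0 < c1 ∧ 0 ≤ Ca ∧
      PerGIC P G ok Φ K2 C c b k c1 Ca := by
  obtain ⟨K, Ca, hK, hCa, h4⟩ := h4
  obtain ⟨C, c, b, c1, k, hC, hc, hb, hc1, H⟩ := perI_ofKC hP hB hS hspec h1 K K2
  exact ⟨C, c, b, c1, Ca, k, hC, hc, hb, hc1, hCa, H _ _ _ _ h4⟩

end PLT

end
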