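import Pool.Agent.PLT.GasPotC
import Pool.Agent.PHK.Congr
import Pool.Agent.PHK.FDefB6

/-!
# Sea on a curve: the class of the curves, one body data, terms of a class

Offsets `lo .. hi` of the strip of the quanta: `KsC lo hi`.

* **`CurC lo hi D D1`**: the curves of the two species; `.hd`, `.hc`, `.re`, `.hb`, `.sub`; `curC_of`: the
  curves of (P);
* **`OneCC Z B P lo hi κ x0 Q E`**: the one body functions of a class are bounded by its one body data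
  (twin of `OneC6`); `OneC6.toC`, `OneCC.six`, `OneCC.sub`;
* **`DomKC P lo hi U`**: the evaluation points (twin of `DomK`); `DomPC`, `domPC`, `DomK.toC`;
* `TermC`, `R4genC`, `PerGC`, `TmCC`, `TmMC`, `R4CofC`, `PerCofC` (twins of `PHK/Defs`, `PHK/Sum`);
* `norm_gKC_le`, **`trEC_le`**, **`FEC_le`**, `trAC_le`, `FAC_le`: the functional against the positive gas
  (twin of `PHK/FDefB6`).
-/

set_option autoImplicit false
set_option linter.unusedSectionVars false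

noncomputable section

open Complex MeasureTheory Finset
open scoped ENNReal
open PLX (Fil)

namespace PLT

open NUO NUP1 NUP1S NUP1S.Ab NUP1S.AbC NUGC NUGC.PLX NUCR PHK
open PBF.PLX (Ins InsE)

/-! ### the curves -/

/-- **the curves of the two species** in the strip of the offsets `lo .. hi` -/
def CurC (lo hi : ℝ) (D D1 : Bool → ℝ → ℂ) : Prop := ∀ s, CrvC lo hi (D s) (D1 s)

variable {lo hi lo' hi' : ℝ} {D D1 : Bool → ℝ → ℂ}

theorem CurC.hd (h : CurC lo hi D D1) (s : Bool) (t : ℝ) : HasDerivAt (D s) (D1 s t) t :=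
  (h s).der t

theorem CurC.hc (h : CurC lo hi D D1) (s : Bool) : Continuous (D1 s) := (h s).cont

theorem CurC.cont (h : CurC lo hi D D1) (s : Bool) : Continuous (D s) :=
  continuous_iff_continuousAt.2 fun t => (h.hd s t).continuousAt

theorem CurC.re (h : CurC lo hi D D1) (s : Bool) (t : ℝ) : (ptC D s t).re ∈ KsC lo hi :=
  ptC_mem (h s) t

theorem CurC.hb (h : CurC lo hi D D1) :
    ∃ M : ℝ, 0 ≤ M ∧ ∀ s t, ‖D s t‖ ≤ M ∧ ‖D1 s t‖ ≤ M := by
  obtain ⟨M, hM, h1⟩ := (h true).bdd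
  obtain ⟨M', hM', h2⟩ := (h false).bdd
  refine ⟨max M M', le_max_of_le_left hM, fun s t => ?_⟩
  cases s
  · exact ⟨(h2 t).1.trans (le_max_right _ _), (h2 t).2.trans (le_max_right _ _)⟩
  · exact ⟨(h1 t).1.trans (le_max_left _ _), (h1 t).2.trans (le_max_left _ _)⟩

theorem CurC.sub (h : CurC lo' hi' D D1) (h1 : lo ≤ lo') (h2 : hi' ≤ hi) : CurC lo hi D D1 :=
  fun s => CrvC.sub (h s) h1 h2

/-- the offsets of the strip -/
theorem mem_KsC {lo hi x : ℝ} : x ∈ KsC lo hi ↔ (1 - hi) * NUP1.l ≤ x ∧ x ≤ (1 - lo) * NUP1.l :=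
  Iff.rfl

/-- the strip of the landed one body data -/
theorem KsC_std (ep : ℝ) : KsC (-(ep / 4)) (1 / 20) = Ks (ep / 4) := by
  unfold KsC Ks
  rw [show (1 : ℝ) - -(ep / 4) = 1 + ep / 4 by ring, show (1 : ℝ) - 1 / 20 = 19 / 20 by norm_num]

/-- **the curves of (P)** -/
theorem curC_of [Fil] {ep : ℝ} {η η' : ℝ → ℝ} (h : CurB ep η η') (hep : 0 ≤ ep) :
    CurC (-(ep / 4)) (ep / 4) (dF η) (dF η') := by
  intro s
  refine crvC_of (η := Fil.cv s η) (η' := Fil.cv s η') ⟨(h.cv s).hd, (h.cv s).hc, fun t => ?_,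
    (h.cv s).hb⟩ (by linarith)
  refine ((h.cv s).h1 t).trans (le_of_eq ?_)
  show ep * NUP1.l / 4 = ep / 4 * NUP1.l
  ring

/-- the straight line -/
theorem curC_zero {lo hi : ℝ} (h1 : lo ≤ 0) (h2 : 0 ≤ hi) :
    CurC lo hi (fun _ _ => 0) (fun _ _ => 0) := by
  have hl := Bd.l_pos
  intro s
  refine ⟨fun t => hasDerivAt_const t (0 : ℂ), continuous_const, ⟨0, le_rfl, fun t => by simp⟩,
    ⟨by nlinarith, by nlinarith⟩, fun t => ?_, fun t => ?_⟩
  · simp only [zero_im, sub_zero]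
    nlinarith
  · simp only [zero_im, sub_zero]
    nlinarith

/-! ### one body data -/

/-- **the one body functions `Z` of a class are bounded by the one body data `B`**, strip of the
offsets `lo .. hi` -/
structure OneCC (Z : Bool → Option O3 → ℂ → ℂ) (B : OB) (P : Par6) (lo hi κ x0 : ℝ) (Q : ℤ)
    (E : Set ℝ) : Prop where
  kpos : 0 < κ
  nn : B.Nn
  nul : volume E = 0
  meas : ∀ s k, Measurable (Z s k)
  L : ∀ s t, t ∉ E → ‖Z s (some .L) (posL P.jL t)‖ ≤ wq6 B s (posL P.jL t)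
  T : ∀ s t, t ∉ E → ‖Z s (some .T) (posT t)‖ ≤ (B.R s (posT t) * B.R s (posT t - NUP1.l)) *
    ‖B.φ s (posT t) * B.φ s (posT t - NUP1.l) - B.φ0 s (posT t)‖
  S : ∀ s t, t ∉ E → ‖Z s (some .S) (posS P.e t)‖ ≤
    (B.R s (posS P.e t) * B.R s (posS P.e t - NUP1.l)) * ‖B.φ0 s (posS P.e t)‖
  V : ∀ s t, t ∉ E → ‖Z s none (posB P.e t)‖ ≤ wq6 B s (posB P.e t)
  F : ∀ s t, t ∉ E → ‖(Z s none (posB P.e t))⁻¹‖ ≤ (wq6 B s (posB P.e t))⁻¹
  H1 : ∀ s t, t ∉ E → ‖(Z s none (posL P.j1 t))⁻¹‖ ≤ (wq6 B s (posL P.j1 t))⁻¹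
  H2 : ∀ s t, t ∉ E → ‖(Z s none (posL P.j2 t))⁻¹‖ ≤ (wq6 B s (posL P.j2 t))⁻¹
  A : ∀ s (u : ℂ), u.re ∈ KsC lo hi → ‖Z s none u‖ ≤ B.R s u * ‖B.φ s u‖
  x1 : x0 ≤ (1 - hi) * NUP1.l
  dA : ∀ s (u : ℂ), x0 ≤ u.re → u.re ≤ (1 - lo) * NUP1.l → DifferentiableAt ℂ (Z s none) u
  bA : ∀ s, Bdd (Set.Icc x0 ((1 - lo) * NUP1.l)) (-(κ + 2 * (sg s * Q : ℤ))) (Z s none)

variable {Z : Bool → Option O3 → ℂ → ℂ} {B B' : OB} {P : Par6} {ep κ x0 : ℝ} {Q : ℤ} {E : Set ℝ}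

/-- the classes of (P): strip of the offsets `-(ep / 4) .. 1 / 20` -/
theorem _root_.PHK.OneC6.toC (h : OneC6 Z B P ep κ x0 Q E) :
    OneCC Z B P (-(ep / 4)) (1 / 20) κ x0 Q E where
  kpos := h.kpos
  nn := h.nn
  nul := h.nul
  meas := h.meas
  L := h.L
  T := h.T
  S := h.S
  V := h.V
  F := h.F
  H1 := h.H1
  H2 := h.H2
  A s u hu := h.A s u (by
    rw [← KsC_std]
    exact hu)
  x1 := h.x1.trans (le_of_eq (by ring))
  dA s u h1 h2 := h.dA s u h1 (by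
    rw [show (1 : ℝ) - -(ep / 4) = 1 + ep / 4 by ring] at h2
    exact h2)
  bA s := by
    rw [show (1 : ℝ) - -(ep / 4) = 1 + ep / 4 by ring]
    exact h.bA s

/-- the part of the objects as a landed class (empty strip) -/
theorem OneCC.six (h : OneCC Z B P lo hi κ x0 Q E) :
    OneC6 Z B P (-8) κ (19 / 20 * NUP1.l) Q E where
  kpos := h.kpos
  nn := h.nn
  nul := h.nul
  meas := h.meas
  L := h.L
  T := h.T
  S := h.S
  V := h.V
  F := h.F
  H1 := h.H1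
  H2 := h.H2
  A s u hu := by
    have hl := Bd.l_pos
    have h1 : 19 / 20 * NUP1.l ≤ u.re := hu.1
    have h2 : u.re ≤ (1 + (-8 : ℝ) / 4) * NUP1.l := hu.2
    nlinarith
  x1 := le_rfl
  dA s u h1 h2 := by
    have hl := Bd.l_pos
    nlinarith
  bA s := by
    have hl := Bd.l_pos
    refine ⟨0, le_rfl, fun z hz => ?_⟩
    have h1 : 19 / 20 * NUP1.l ≤ z.re := hz.1
    have h2 : z.re ≤ (1 + (-8 : ℝ) / 4) * NUP1.l := hz.2
    nlinarith

theorem OneCC.sub (h : OneCC Z B P lo hi κ x0 Q E) (h1 : lo ≤ lo') (h2 : hi' ≤ hi) :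
    OneCC Z B P lo' hi' κ x0 Q E where
  kpos := h.kpos
  nn := h.nn
  nul := h.nul
  meas := h.meas
  L := h.L
  T := h.T
  S := h.S
  V := h.V
  F := h.F
  H1 := h.H1
  H2 := h.H2
  A s u hu := h.A s u (by
    have hl := Bd.l_pos
    exact ⟨by nlinarith [hu.1], by nlinarith [hu.2]⟩)
  x1 := h.x1.trans (by
    have hl := Bd.l_pos
    nlinarith)
  dA s u a1 a2 := h.dA s u a1 (by
    have hl := Bd.l_pos
    nlinarith)
  bA s := by
    have hl := Bd.l_pos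
    obtain ⟨C, hC, hb⟩ := h.bA s
    exact ⟨C, hC, fun z hz => hb z ⟨hz.1, hz.2.trans (by nlinarith)⟩⟩

/-! ### the evaluation points -/

/-- the set `U` contains the evaluation points of the one body functions of a configuration -/
structure DomKC (P : Par6) (lo hi : ℝ) (U : Set ℂ) : Prop where
  L : ∀ t : ℝ, posL P.jL t ∈ U
  T : ∀ t : ℝ, posT t ∈ U
  T1 : ∀ t : ℝ, posT t - l ∈ U
  S : ∀ t : ℝ, posS P.e t ∈ U
  S1 : ∀ t : ℝ, posS P.e t - l ∈ U
  b : ∀ t : ℝ, posB P.e t ∈ U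
  h1 : ∀ t : ℝ, posL P.j1 t ∈ U
  h2 : ∀ t : ℝ, posL P.j2 t ∈ U
  A : ∀ z : ℂ, z.re ∈ KsC lo hi → z ∈ U

/-- the evaluation points -/
def DomPC (P : Par6) (lo hi : ℝ) : Set ℂ := {z | z.re = (1 - P.jL) * l ∨ z.re = -(1 / 2 * l) ∨
  z.re = -(3 / 2 * l) ∨ z.re = -((1 + P.e) * l) ∨ z.re = -((2 + P.e) * l) ∨
  z.re = (1 - P.e) * l ∨ z.re = (1 - P.j1) * l ∨ z.re = (1 - P.j2) * l ∨ z.re ∈ KsC lo hi}

theorem domPC (P : Par6) (lo hi : ℝ) : DomKC P lo hi (DomPC P lo hi) where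
  L t := Or.inl (posL_re6 _ _)
  T t := Or.inr (Or.inl (posT_re6 _))
  T1 t := Or.inr (Or.inr (Or.inl (by rw [sub_re, posT_re6, ofReal_re]; ring)))
  S t := Or.inr (Or.inr (Or.inr (Or.inl (posS_re6 _ _))))
  S1 t := Or.inr (Or.inr (Or.inr (Or.inr (Or.inl (by rw [sub_re, posS_re6, ofReal_re]; ring)))))
  b t := Or.inr (Or.inr (Or.inr (Or.inr (Or.inr (Or.inl (posB_re6c _ _))))))
  h1 t := Or.inr (Or.inr (Or.inr (Or.inr (Or.inr (Or.inr (Or.inl (posL_re6 _ _)))))))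
  h2 t := Or.inr (Or.inr (Or.inr (Or.inr (Or.inr (Or.inr (Or.inr (Or.inl (posL_re6 _ _))))))))
  A z hz := Or.inr (Or.inr (Or.inr (Or.inr (Or.inr (Or.inr (Or.inr (Or.inr hz)))))))

theorem DomKC.mono {U U' : Set ℂ} (h : DomKC P lo hi U) (h' : U ⊆ U') : DomKC P lo hi U' :=
  ⟨fun t => h' (h.L t), fun t => h' (h.T t), fun t => h' (h.T1 t), fun t => h' (h.S t),
    fun t => h' (h.S1 t), fun t => h' (h.b t), fun t => h' (h.h1 t), fun t => h' (h.h2 t),
    fun z hz => h' (h.A z hz)⟩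

/-- the part of the objects as a landed domain (empty strip) -/
theorem DomKC.six {U : Set ℂ} (h : DomKC P lo hi U) : DomK P (-1) U :=
  ⟨h.L, h.T, h.T1, h.S, h.S1, h.b, h.h1, h.h2, fun z hz => by
    have hl := Bd.l_pos
    have := (abs_nonneg _).trans hz
    nlinarith⟩

theorem _root_.PHK.DomK.toC {U : Set ℂ} (h : DomK P ep U) :
    DomKC P (-(ep / 4)) (ep / 4) U :=
  ⟨h.L, h.T, h.T1, h.S, h.S1, h.b, h.h1, h.h2, fun z hz => h.A z (by
    have h1 : (1 - ep / 4) * NUP1.l ≤ z.re := hz.1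
    have h2 : z.re ≤ (1 - -(ep / 4)) * NUP1.l := hz.2
    rw [abs_le]
    constructor
    · show -(ep * NUP1.l / 4) ≤ z.re - NUP1.l
      linarith
    · show z.re - NUP1.l ≤ ep * NUP1.l / 4
      linarith)⟩

/-! ### terms of a class -/

/-- the terms of a class: number of quanta, objects, curves -/
abbrev TermC : Type := ℕ → (r : ℕ) → (Fin r → Xo) → (Bool → ℝ → ℂ) → (Bool → ℝ → ℂ) → ℝ≥0∞

/-- **representation of a class by terms**, curves depending on the objects (`a` extra quanta), at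
most `2 (nX + nY)` objects -/
def R4genC (lo hi : ℝ) (a : ℕ) (T : TermC) (Z : ℕ → ℂ) : Prop :=
  ∀ D D1 : CrsC, (∀ (r : ℕ) (O : Fin r → Xo), CurC lo hi (D r O) (D1 r O)) → ∀ n : ℕ,
    ‖Z n‖ₑ ≤ ∑ r ∈ range (2 * (2 * n + a) + 1), ((r.factorial : ℝ≥0∞))⁻¹ *
      ∫⁻ O : Fin r → Xo, T n r O (D r O) (D1 r O) ∂(Measure.pi fun _ => nu)

/-- **the tilted bound of one term** with the prefactor `Q`, `ν` the mean number of quanta, `N` a bound
of the numbers -/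
def PerGC (C C' c b : ℝ) (k : ℕ) (c1 c' L ep e1 J ν d : ℝ) (N a : ℕ) (lo hi : ℝ) (T : TermC)
    (Q : ℝ) : Prop :=
  ∀ n ≤ N, ∀ b' : ℝ, b' = d ∨ b' = -d → ∀ r ≤ 2 * (2 * n + a), ∀ O : Fin r → Xo,
    ∃ D D1 : Bool → ℝ → ℂ, CurC lo hi D D1 ∧ ∀ W : Finset ℤ,
      ENNReal.ofReal (Real.exp (b' * (ν - n))) * T n r O D D1 ≤
        ENNReal.ofReal (Q * (if (r : ℝ) ≤ L then 1 else Real.exp (c' * L)) *
          (∏ i, act C C' c b k L ep e1 J r (ht (O i))) *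
          Real.exp (-(c1 * ∑ w ∈ W, (cO O w : ℝ) ^ 2)))

/-- the terms of a class: `n + aX` quanta X, `n + aY` quanta Y, one body data which may depend on the
configuration -/
def TmCC (B : (r : ℕ) → (Fin r → Xo) → OB) (P : Par6) (aX aY : ℕ) : TermC :=
  fun n r O D D1 => FncC (B r O) P D D1 (n + aX) (n + aY) O

/-- **the representation corollary of one class** -/
def R4CofC (lo hi : ℝ) (B : OB) (P : Par6) (aX aY : ℕ) (Z : ℕ → ℂ) : Prop :=
  R4genC lo hi (aX + aY) (TmCC (fun _ _ => B) P aX aY) Z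

/-- the terms of a class with a marked object `i`: weight `w` and one body data depend on the
configuration and on the mark -/
def TmMC (w : (r : ℕ) → (Fin r → Xo) → Fin r → ℝ≥0∞)
    (B : (r : ℕ) → (Fin r → Xo) → Fin r → OB) (P : Par6) (aX aY : ℕ) : TermC :=
  fun n r O D D1 => ∑ i : Fin r, w r O i * FncC (B r O i) P D D1 (n + aX) (n + aY) O

/-- **the tilted bound of one class** -/
def PerCofC (C C' c b : ℝ) (k : ℕ) (c1 c' L ep e1 J ν d : ℝ) (N : ℕ) (lo hi : ℝ) (B : OB)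
    (P : Par6) (aX aY : ℕ) (Q : ℝ) : Prop :=
  PerGC C C' c b k c1 c' L ep e1 J ν d N (aX + aY) lo hi (TmCC (fun _ _ => B) P aX aY) Q

/-! ### the functional against the positive gas -/

/-- the modulus of the weight of a configuration -/
theorem norm_wKC_le (h : OneCC Z B P lo hi κ x0 Q E) {r : ℕ} (O : Fin r → Xo)
    (hE : ∀ i, ht (O i) ∉ E) : ‖wK6 Z P O‖ ≤ objWc6 B P O :=
  norm_wK6_le h.six O hE

theorem qGC_nonneg (G : ℂ → ℂ) (P : Par6) (D : Bool → ℝ → ℂ) {r : ℕ} (O : Fin r → Xo) (s : Bool)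
    (t : ℝ) : 0 ≤ qGC G P D O s t := by
  unfold qGC
  exact mul_nonneg (by positivity) (Finset.prod_nonneg fun i _ => potN6_nonneg _ _ _ _ _)

/-- one body factor of a quantum -/
theorem qGC_le_qAC (h : OneCC Z B P lo hi κ x0 Q E) (hD : CurC lo hi D D1) {r : ℕ}
    (O : Fin r → Xo) (s : Bool) (t : ℝ) : qGC (Z s none) P D O s t ≤ qAC B P D O s t := by
  unfold qGC qAC
  exact mul_le_mul_of_nonneg_right (mul_le_mul_of_nonneg_left (h.A s _ (hD.re s t)) (by positivity))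
    (Finset.prod_nonneg fun i _ => potN6_nonneg _ _ _ _ _)

/-- the integrand of the quanta -/
theorem norm_gKC_le (h : OneCC Z B P lo hi κ x0 Q E) (hD : CurC lo hi D D1) {r : ℕ}
    (O : Fin r → Xo) (a b : ℕ) (x : (Fin a → ℝ) × (Fin b → ℝ)) :
    ‖gKC (gF6 Z P O) D D1 a b x‖ ≤ NU42.WO (D true) (D1 true) (D false) (D1 false)
      (qAC B P D O true) (qAC B P D O false) x.1 x.2 := by
  rw [norm_gKC]
  exact WO_mono _ _ _ _ (qGC_nonneg _ _ _ _ _) (qGC_le_qAC h hD O true) (qGC_nonneg _ _ _ _ _)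
    (qGC_le_qAC h hD O false) _ _

section

variable {n n' : ℕ} {Dc Dc' : CrsC}

/-- **one configuration**: `trEC` is bounded by the term of the positive gas -/
theorem trEC_le (h : OneCC Z B P lo hi κ x0 Q E) {r : ℕ} (O : Fin r → Xo)
    (hE : ∀ i, ht (O i) ∉ E) (hD : CurC lo hi (Dc r O) (Dc' r O)) (φ : InsE) :
    trEC Z P n n' Dc Dc' φ r O ≤ FnIC B P (Dc r O) (Dc' r O) n n' O (φ r O) := by
  unfold trEC FnIC
  split_ifs with hc
  swap
  · exact le_rfl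
  refine mul_le_mul' ?_ (mul_le_mul' le_rfl (lintegral_mono fun x => mul_le_mul' ?_ le_rfl))
  · rw [← ofReal_norm]
    exact ENNReal.ofReal_le_ofReal (norm_wKC_le h O hE)
  · rw [← ofReal_norm]
    exact ENNReal.ofReal_le_ofReal (norm_gKC_le h hD O _ _ _)

/-- **`FEC` is bounded by the positive gas with the insertion** -/
theorem FEC_le (h : OneCC Z B P lo hi κ x0 Q E)
    (hD : ∀ r O, CurC lo hi (Dc r O) (Dc' r O)) (φ : InsE) :
    FEC Z P n n' Dc Dc' φ ≤ ∑ r ∈ range (2 * (n + n') + 1), ((r.factorial : ℕ) : ℝ≥0∞)⁻¹ *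
      ∫⁻ O : Fin r → Xo, FnIC B P (Dc r O) (Dc' r O) n n' O (φ r O)
        ∂(Measure.pi fun _ => nu) := by
  unfold FEC
  refine Finset.sum_le_sum fun r _ => mul_le_mul' le_rfl (lintegral_mono_ae ?_)
  filter_upwards [ae_ht6 (r := r) h.nul] with O hO
  exact trEC_le h O hO (hD r O) φ

/-- **one configuration**: `trAC` is bounded by the term of the positive gas -/
theorem trAC_le (h : OneCC Z B P lo hi κ x0 Q E) {r : ℕ} (O : Fin r → Xo)
    (hE : ∀ i, ht (O i) ∉ E) (hD : CurC lo hi (Dc r O) (Dc' r O)) (Ψ : Ins) :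
    trAC Z P n n' Dc Dc' Ψ r O ≤
      FnIC B P (Dc r O) (Dc' r O) n n' O fun a b x => ‖Ψ r O a b x‖ₑ :=
  trEC_le h O hE hD fun r O a b x => ‖Ψ r O a b x‖ₑ

/-- **`FAC` is bounded by the positive gas with the insertion** -/
theorem FAC_le (h : OneCC Z B P lo hi κ x0 Q E)
    (hD : ∀ r O, CurC lo hi (Dc r O) (Dc' r O)) (Ψ : Ins) :
    FAC Z P n n' Dc Dc' Ψ ≤ ∑ r ∈ range (2 * (n + n') + 1), ((r.factorial : ℕ) : ℝ≥0∞)⁻¹ *
      ∫⁻ O : Fin r → Xo, FnIC B P (Dc r O) (Dc' r O) n n' O (fun a b x => ‖Ψ r O a b x‖ₑ)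
        ∂(Measure.pi fun _ => nu) :=
  FEC_le h hD fun r O a b x => ‖Ψ r O a b x‖ₑ

/-- one configuration without insertion -/
theorem trAC_le_FncC (h : OneCC Z B P lo hi κ x0 Q E) {r : ℕ} (O : Fin r → Xo)
    (hE : ∀ i, ht (O i) ∉ E) (hD : CurC lo hi (Dc r O) (Dc' r O)) :
    trAC Z P n n' Dc Dc' (fun _ _ _ _ _ => 1) r O ≤ FncC B P (Dc r O) (Dc' r O) n n' O := by
  refine (trAC_le h O hE hD _).trans (le_of_eq ?_)
  simp only [enorm_one]
  exact FnIC_one B P (Dc r O) (Dc' r O) n n' O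

/-- the functional without insertion -/
theorem FAC_le_FncC (h : OneCC Z B P lo hi κ x0 Q E)
    (hD : ∀ r O, CurC lo hi (Dc r O) (Dc' r O)) (n n' : ℕ) :
    FAC Z P n n' Dc Dc' (fun _ _ _ _ _ => 1) ≤ ∑ r ∈ range (2 * (n + n') + 1),
      ((r.factorial : ℕ) : ℝ≥0∞)⁻¹ * ∫⁻ O : Fin r → Xo, FncC B P (Dc r O) (Dc' r O) n n' O
        ∂(Measure.pi fun _ => nu) := by
  unfold FAC
  refine Finset.sum_le_sum fun r _ => mul_le_mul' le_rfl (lintegral_mono_ae ?_)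
  filter_upwards [ae_ht6 (r := r) h.nul] with O hO
  exact trAC_le_FncC h O hO (hD r O)

end

end PLT

end
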