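import Pool.Agent.PHK.Ch6
import Pool.Agent.PLT.CurD

/-!
# Sea on a curve: the letters (half quanta with captured objects) as spectators, classes over any base

Strip of the quanta: offsets `lo .. hi`, `hi ≤ 1 / 4`.

* `LTC hi q p F`: spectators of a half quantum at `Re = p`, rate `q`, regular on the differences
  `[p - 21/20 l, p - (1 - hi) l]`; `LTC.of_HG`, `ltC_ht`, `ltC_SD`, `ltC_one`; `LTC.ad`, `ltC_host`;
* **`BsC X ob P lo hi κ e E0`**: base functions (twin of `Bs6`), `BsC.congr`, `bsC_spX`, `Bs6.toC`;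
* **`cls_oneC`**: `OneCC` of the class functions of two letters over any base; `ltC_v`: the choices.
-/

set_option autoImplicit false
set_option linter.unusedSectionVars false

noncomputable section

open Complex MeasureTheory Finset
open scoped ENNReal

namespace PLT

open NUO NUP1 NUCR NUP1S NUP1S.Ab NUP1S.AbC NUP1S.AbG NURow NUP1.Leg NUGC.PLX PBX PBX.PLX
open _root_.Pool.Agent.PLX
open PHK PBR.PLX

/-- **a letter**: spectators of a half quantum at `Re = p`, rate `q`, quanta at the offsets `≤ hi` -/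
structure LTC (hi q p : ℝ) (F : Bool → Option O3 → ℂ → ℂ) : Prop where
  pb : ∀ c, PB (q * sc (c, .A)) (Set.Icc (p - 21 / 20 * l) (p - (1 - hi) * l)) (F c none)
  ms : ∀ c k, Measurable (F c k)
  kL : ∀ c, F c (some .L) = F c none
  kT : ∀ c, F c (some .T) = F c (some .S)
  mul : MulI F

/-- the landed groups -/
theorem LTC.of_HG {hi : ℝ} (hhi : hi ≤ 1 / 4) {pl : Bool} {q p : ℝ} {F : Bool → Option O3 → ℂ → ℂ} {T : Bool → ℂ → ℂ}
    (h : HG pl q p F T) : LTC hi q p F where
  pb c := by
    have hl := l_pos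
    have h5 : hi * l ≤ 1 / 4 * l := mul_le_mul_of_nonneg_right hhi hl.le
    have h1 := (h.pb c).mono (K := Set.Icc (p - 21 / 20 * l) (p - (1 - hi) * l))
      (Set.Icc_subset_Icc le_rfl (by linarith))
    by_cases hc : (pl && c) = true
    · obtain ⟨hp1, hp2⟩ := h.hp (by
        rw [Bool.and_eq_true] at hc
        exact hc.1)
      simp only [hc, if_true] at h1
      have h2 := PB_inv_sin (K := Set.Icc (p - 21 / 20 * l) (p - (1 - hi) * l)) isCompact_Icc 0
        fun d hd => by
          rw [add_zero]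
          exact NURow.sin_ne_neg (by linarith [hd.2]) (by linarith [hd.1])
      refine ((h1.mul h2).fneg.rate (by ring)).congr' fun z => ?_
      rw [h.eq c z]
      simp only [hc, if_true]
      rw [Complex.ofReal_zero, add_zero, Complex.sin_neg, div_neg, mul_one_div]
    · simp only [hc] at h1
      refine (h1.rate (by simp)).congr' fun z => ?_
      rw [h.eq c z]
      simp only [hc]
      simp
  ms := h.ms
  kL := h.kL
  kT := h.kT
  mul := h.mul

theorem ltC_ht {hi : ℝ} (hhi : hi ≤ 1 / 4) (t : HT) : LTC hi (htQ t) (htL t) (htF t) :=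
  LTC.of_HG hhi (HG_ht t)

theorem ltC_SD {hi : ℝ} (hhi : hi ≤ 1 / 4) : LTC hi 0 (-(11 / 4) * l) SD := LTC.of_HG hhi HG_SD

theorem ltC_one {hi : ℝ} (hhi : hi ≤ 1 / 4) (p : ℝ) : LTC hi 0 p (fun _ _ _ => 1) :=
  LTC.of_HG hhi (HG_one p)

/-! ## quanta and holes at the half quantum -/

/-- **quanta and holes at the half quantum**: the rate changes by `± 2 k` -/
theorem LTC.ad {hi q p : ℝ} {F : Bool → Option O3 → ℂ → ℂ} (h : LTC hi q p F) (hp : 1 / 20 * l < p)
    (hp' : p < (1 - hi) * l) (b : Bool) (k : ℤ) :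
    LTC hi (q + k * if b then 2 else -2) p (adF b k F) where
  pb c := by
    have hl := l_pos
    have h1 := PB_gz_zpow (K := Set.Icc (p - 21 / 20 * l) (p - (1 - hi) * l)) isCompact_Icc b c k
      (fun d hd s hs => by
        have d1 := hd.1
        have d2 := hd.2
        unfold poles at hs
        by_cases hbc : b = c
        · simp only [if_pos hbc] at hs
          rcases List.mem_cons.1 hs with rfl | hs
          · exact NURow.sin_ne_pos (by linarith) (by linarith)
          · rw [List.mem_singleton] at hs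
            subst hs
            exact NURow.sin_ne_neg (by linarith) (by linarith)
        · simp only [if_neg hbc] at hs
          rcases List.mem_cons.1 hs with rfl | hs
          · exact NURow.sin_ne_pos (by linarith) (by linarith)
          · rw [List.mem_singleton] at hs
            subst hs
            exact NURow.sin_ne_neg (by linarith) (by linarith))
      fun _ d hd => by
        have d1 := hd.1
        have d2 := hd.2
        unfold NzA
        split_ifs
        · refine ⟨?_, ?_, ?_⟩
          · rw [add_zero]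
            exact NURow.sin_ne_neg (by linarith) (by linarith)
          · exact NURow.sin_ne_pos (by linarith) (by linarith)
          · exact NURow.sin_ne_neg (by linarith) (by linarith)
        · exact NURow.sin_ne_pos (by linarith) (by linarith)
    refine ((h.pb c).mul h1).rate ?_
    unfold rt sc
    cases b <;> cases c <;> simp [NUP1.Bd.chg] <;> ring
  ms c o := (h.ms c o).mul (Measurable.pow_const (measurable_gz _ _) k)
  kL c := by
    funext x
    show F c (some .L) x * gz (b, .A) (c, .L) x ^ k = F c none x * gz (b, .A) (c, .A) x ^ k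
    rw [h.kL]
    rfl
  kT c := by
    funext x
    show F c (some .T) x * gz (b, .A) (c, .S) x ^ k = F c (some .S) x * gz (b, .A) (c, .S) x ^ k
    rw [h.kT]
  mul := mulI_ad h.mul b k

/-- the host group with `k` own quanta and `k'` quanta of the other species at the half quantum -/
theorem ltC_host {hi : ℝ} (hhi : hi ≤ 1 / 4) (k k' : ℤ) : LTC hi (-3 + k * 2 - k' * 2) (5 / 8 * l)
    (adF false k' (adF true k (hostS false SF))) := by
  have hl := l_pos
  have h5 : hi * l ≤ 1 / 4 * l := mul_le_mul_of_nonneg_right hhi hl.le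
  have h1 := (LTC.of_HG hhi HG_host).ad (by linarith) (by linarith) true k
  have h2 := h1.ad (by linarith) (by linarith) false k'
  have e : (-3 + (k : ℝ) * (if true = true then 2 else -2)) + (k' : ℝ) * (if false = true then 2 else -2) =
      -3 + k * 2 - k' * 2 := by
    simp
    ring
  rw [e] at h2
  exact h2

/-! ## bases -/

/-- **Base functions** `X` (species) with the one body data `ob g`, `e` additional rows Y, strip of the
offsets `lo .. hi`. -/
structure BsC (X : Bool → Option O3 → ℂ → ℂ) (ob : (Bool → ℂ → ℝ) → OB) (P : Par6)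
    (lo hi κ : ℝ) (e : ℕ) (E0 : Set ℝ) : Prop where
  kpos : 0 < κ
  nul : volume E0 = 0
  meas : ∀ a k, Measurable (X a k)
  one : ∀ (x0 : ℝ), 51 / 100 * l ≤ x0 → x0 ≤ (1 - hi) * l → ∀ (q : ℤ) (s1 s2 : Bool → ℂ → ℂ)
    (E : Set ℝ), (∀ a, Measurable (s1 a)) → (∀ a, Measurable (s2 a)) →
    (∀ a, SpecAt x0 a q (s1 a)) → (∀ a, SpecS6 P E (s1 a) (s2 a)) → volume E = 0 →
    OneCC (fun a => spX (X a) (s1 a) (s2 a)) (ob fun a u => ‖s1 a u‖) P lo hi κ x0 (q - e) (E ∪ E0)

/-- the landed bases: strip of the offsets `-(ep / 4) .. 1 / 20` -/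
theorem _root_.PBR.PLX.Bs6.toC {X : Bool → Option O3 → ℂ → ℂ} {ob : (Bool → ℂ → ℝ) → OB} {P : Par6}
    {ep κ : ℝ} {e : ℕ} {E0 : Set ℝ} (h : Bs6 X ob P ep κ e E0) :
    BsC X ob P (-(ep / 4)) (1 / 20) κ e E0 where
  kpos := h.kpos
  nul := h.nul
  meas := h.meas
  one x0 h0 h1 q s1 s2 E m1 m2 hA hS hE :=
    (h.one x0 h0 (h1.trans (le_of_eq (by ring))) q s1 s2 E m1 m2 hA hS hE).toC

/-- the same base written differently -/
theorem BsC.congr {X X' : Bool → Option O3 → ℂ → ℂ} {ob ob' : (Bool → ℂ → ℝ) → OB} {P : Par6}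
    {lo hi κ : ℝ} {e : ℕ} {E0 : Set ℝ} (h : BsC X ob P lo hi κ e E0) (hX : ∀ a k u, X a k u = X' a k u)
    (hob : ∀ g, ob g = ob' g) : BsC X' ob' P lo hi κ e E0 := by
  have e1 : X = X' := funext fun a => funext fun k => funext fun u => hX a k u
  have e2 : ob = ob' := funext hob
  rw [← e1, ← e2]
  exact h

/-- **a base with base spectators is a base** -/
theorem bsC_spX {X : Bool → Option O3 → ℂ → ℂ} {ob : (Bool → ℂ → ℝ) → OB} {P : Par6}
    {lo hi κ : ℝ} {e : ℕ} {E0 E1 : Set ℝ} (h : BsC X ob P lo hi κ e E0) {s0 t0 : Bool → ℂ → ℂ}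
    (hs : ∀ a, Bsp6 P E1 (s0 a) (t0 a)) (hE1 : volume E1 = 0) :
    BsC (fun a => spX (X a) (s0 a) (t0 a)) (fun g => ob fun a u => ‖s0 a u‖ * g a u) P lo hi κ e
      (E1 ∪ E0) where
  kpos := h.kpos
  nul := by
    rw [measure_union_null_iff]
    exact ⟨hE1, h.nul⟩
  meas a k := measurable_spX (h.meas a) (hs a).m1 (hs a).m2 k
  one x0 h0 h1 q s1 s2 E hm1 hm2 hA hS hE := by
    have hsub : Set.Icc x0 (21 / 20 * l) ⊆ Set.Icc (51 / 100 * l) (21 / 20 * l) := fun y hy =>
      ⟨h0.trans hy.1, hy.2⟩
    have key := h.one x0 h0 h1 q (fun a u => s0 a u * s1 a u) (fun a u => t0 a u * s2 a u)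
      (E ∪ E1) (fun a => (hs a).m1.mul (hm1 a)) (fun a => (hs a).m2.mul (hm2 a))
      (fun a => ⟨((Bdd.mono_set (hs a).bd hsub).mul (hA a).bd).rate (by ring),
        fun z hz => ((hs a).df z (hsub hz)).mul ((hA a).df z hz)⟩)
      (fun a => SpecS6.mul (hS a) (hs a).st) (by
        rw [measure_union_null_iff]
        exact ⟨hE, hE1⟩)
    have e1 : (fun a => spX (X a) (fun u => s0 a u * s1 a u) fun u => t0 a u * s2 a u) =
        fun a => spX (spX (X a) (s0 a) (t0 a)) (s1 a) (s2 a) := by
      funext a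
      rw [spX_spX]
    have e2 : (fun (a : Bool) (u : ℂ) => ‖s0 a u * s1 a u‖) = fun a u => ‖s0 a u‖ * ‖s1 a u‖ := by
      funext a u
      exact norm_mul _ _
    rw [e1, e2, Set.union_assoc] at key
    exact key

/-! ## two letters -/

section two

variable {P : Par6} {lo hi q q' p p' : ℝ} {F F' : Bool → Option O3 → ℂ → ℂ} {w w' : ℂ}

theorem specAt_twoC (hF : LTC hi q p F) (hF' : LTC hi q' p' F') (hw : w.re = p) (hw' : w'.re = p')
    {aX aY : ℕ} (hq : q' - q = 2 * ((aX : ℝ) - aY)) (a : Bool) :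
    SpecAt ((1 - hi) * l) a (((aX : ℤ) - aY : ℤ) : ℝ) (sG F F' w w' a) := by
  have h1 := (hF.pb a).one w (K := Set.Icc ((1 - hi) * l) (21 / 20 * l)) fun x hx => by
    rw [hw]
    exact ⟨by linarith [hx.2], by linarith [hx.1]⟩
  have h2 := (hF'.pb (!a)).one w' (K := Set.Icc ((1 - hi) * l) (21 / 20 * l)) fun x hx => by
    rw [hw']
    exact ⟨by linarith [hx.2], by linarith [hx.1]⟩
  have h3 := (h1.mul h2).rate (s' := -(2 * (((aX : ℤ) - aY : ℤ) : ℝ) * sc (a, .A))) (by
      have e : sc (!a, .A) = -sc (a, .A) := by cases a <;> simp [sc]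
      rw [e]
      push_cast
      have : (q - q') * sc (a, .A) = -(2 * ((aX : ℝ) - aY) * sc (a, .A)) := by
        rw [← hq]
        ring
      linarith)
  exact ⟨h3.1, h3.2⟩

theorem specS_twoC (hF : LTC hi q p F) (hF' : LTC hi q' p' F') (a : Bool) :
    SpecS6 P {w.im, w'.im} (sG F F' w w' a) (s2G F F' w w' a) := by
  have key : ∀ u : ℂ, u.im ∉ ({w.im, w'.im} : Set ℝ) → ‖s2G F F' w w' a u‖ ≤
      ‖sG F F' w w' a u‖ * ‖sG F F' w w' a (u - l)‖ := by
    intro u hu
    rw [← norm_mul]
    refine le_of_eq ?_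
    congr 1
    exact mul2_of hF.mul hF'.mul a w w' u hu
  refine ⟨fun t ht => key _ ?_, fun t ht => key _ ?_⟩
  · have : (posT t).im = t := by
      unfold posT vl
      simp
    rwa [this]
  · have : (posS P.e t).im = t := by
      unfold posS vl
      simp
    rwa [this]

theorem measurable_sGC (hF : LTC hi q p F) (hF' : LTC hi q' p' F') (w w' : ℂ) (a : Bool) :
    Measurable (sG F F' w w' a) :=
  ((hF.ms a none).comp (measurable_const.sub measurable_id)).mul
    ((hF'.ms (!a) none).comp (measurable_const.sub measurable_id))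

theorem measurable_s2GC (hF : LTC hi q p F) (hF' : LTC hi q' p' F') (w w' : ℂ) (a : Bool) :
    Measurable (s2G F F' w w' a) :=
  ((hF.ms a _).comp (measurable_const.sub measurable_id)).mul
    ((hF'.ms (!a) _).comp (measurable_const.sub measurable_id))

/-- the class functions of two letters -/
theorem spX_twoC (X : Bool → Option O3 → ℂ → ℂ) (hF : LTC hi q p F) (hF' : LTC hi q' p' F') (w w' : ℂ) :
    (fun a => spX (X a) (sG F F' w w' a) (s2G F F' w w' a)) =
      fun a => XS a (X a) F (fl F') w w' := by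
  funext a
  exact spX_XS a (X a) (S := F) (S' := fl F') (hF.kL a) (hF.kT a) (hF'.kL _) (hF'.kT _) w w'

variable {X : Bool → Option O3 → ℂ → ℂ} {ob : (Bool → ℂ → ℝ) → OB} {κ : ℝ} {e : ℕ} {E0 : Set ℝ}

/-- **the class functions of two letters are bounded by the one body data, any base** -/
theorem cls_oneC (hhi : hi ≤ 1 / 4) (hB : BsC X ob P lo hi κ e E0) (hF : LTC hi q p F)
    (hF' : LTC hi q' p' F') (hw : w.re = p) (hw' : w'.re = p') {aX aY : ℕ}
    (hq : q' - q = 2 * ((aX : ℝ) + e - aY)) :
    OneCC (fun a => XS a (X a) F (fl F') w w') (ob fun a z => ‖sG F F' w w' a z‖) P lo hi κ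
      ((1 - hi) * l) ((aX : ℤ) - aY) ({w.im, w'.im} ∪ E0) := by
  have hl := l_pos
  have h5 : hi * l ≤ 1 / 4 * l := mul_le_mul_of_nonneg_right hhi hl.le
  have h := hB.one ((1 - hi) * l) (by linarith) le_rfl (((aX + e : ℕ) : ℤ) - aY)
    (sG F F' w w') (s2G F F' w w') {w.im, w'.im} (measurable_sGC hF hF' w w')
    (measurable_s2GC hF hF' w w')
    (specAt_twoC hF hF' hw hw' (by rw [hq]; push_cast; ring)) (specS_twoC hF hF')
    ((Set.toFinite _).measure_zero _)
  rw [spX_twoC X hF hF' w w'] at h
  have e1 : ((aX + e : ℕ) : ℤ) - aY - e = (aX : ℤ) - aY := by push_cast; ring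
  rw [e1] at h
  exact h

end two

/-- **the spectators of a half quantum with any choice** -/
theorem ltC_v {hi : ℝ} (hhi : hi ≤ 1 / 4) {t : HT} {u : Ch6} (h : okC6 t u) :
    LTC hi (vQ6 t u) (htL t) (vF6 t u) := by
  obtain ⟨h1, h2⟩ := h
  obtain ⟨u1, u2⟩ := u
  cases t
  · have e1 : u1 = false := by
      by_contra hc
      exact absurd (h1 (by simpa using hc)) (by simp)
    have e2 : u2 = false := by
      by_contra hc
      exact absurd (h2 (by simpa using hc)) (by simp)
    subst e1 e2
    have := ltC_ht hhi .W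
    simpa [vQ6, vF6, htF] using this
  · have e1 : u1 = false := by
      by_contra hc
      exact absurd (h1 (by simpa using hc)) (by simp)
    have e2 : u2 = false := by
      by_contra hc
      exact absurd (h2 (by simpa using hc)) (by simp)
    subst e1 e2
    have := ltC_ht hhi .F
    simpa [vQ6, vF6, htF] using this
  · have e1 : u1 = false := by
      by_contra hc
      exact absurd (h1 (by simpa using hc)) (by simp)
    subst e1
    cases u2
    · have := ltC_ht hhi .P
      simpa [vQ6, vF6, htF] using this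
    · have := ltC_ht hhi .F
      have e : vQ6 .P (false, true) = htQ .F := by
        norm_num [vQ6, htQ]
      rw [e]
      simpa [vF6, htF, htL] using this
  · have := ltC_host hhi (u1.toNat : ℤ) (-(u2.toNat : ℤ))
    have e : vQ6 .H (u1, u2) = -3 + ((u1.toNat : ℤ) : ℝ) * 2 - ((-(u2.toNat : ℤ) : ℤ) : ℝ) * 2 := by
      unfold vQ6 htQ
      push_cast
      ring
    rw [e]
    exact this

end PLT

end
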