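import Pool.Agent.PLT.R4CC
import Pool.Agent.PLT.OneUC
import Pool.Agent.PHK.R4U6

/-!
# Sea on a curve: the representation corollary of a class which is a sum of functionals with insertions

* `trAC_scale`: a bounded insertion; `FAC_le_scale`;
* **`R4U_ofC`**: the value is a finite sum over choices `u : U` of functionals `FFC` of class functions
  `Y u` (`m u`, `m' u` quanta captured) with insertions bounded by `c u`: `R4genUC`;
* `R4C_ofPsiC`: one choice.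
-/

set_option autoImplicit false
set_option linter.unusedSectionVars false

noncomputable section

open Complex MeasureTheory Finset
open scoped ENNReal

namespace PLT

open NUO NUP1 NUP1S NUP1S.Ab NUP1S.AbC NUGC NUGC.PLX NUCR PHK
open PBF.PLX (Ins)

/-- a bounded insertion -/
theorem trAC_scale {Z : Bool → Option O3 → ℂ → ℂ} {P : Par6} {n n' : ℕ} {D D1 : CrsC} {Ψ : Ins}
    {b : ℝ≥0∞} (hb : b ≠ ⊤) (h : ∀ r O a a' x, ‖Ψ r O a a' x‖ₑ ≤ b) (r : ℕ) (O : Fin r → Xo) :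
    trAC Z P n n' D D1 Ψ r O ≤ b * trAC Z P n n' D D1 (fun _ _ _ _ _ => 1) r O := by
  unfold trAC
  split_ifs
  · have h1 : ∫⁻ x, ‖gKC (gF6 Z P O) (D r O) (D1 r O) (nA6 n O true) (nA6 n' O false) x‖ₑ *
        ‖Ψ r O (nA6 n O true) (nA6 n' O false) x‖ₑ ≤
        b * ∫⁻ x, ‖gKC (gF6 Z P O) (D r O) (D1 r O) (nA6 n O true) (nA6 n' O false) x‖ₑ *
          ‖(1 : ℂ)‖ₑ := by
      rw [← lintegral_const_mul' _ _ hb]
      refine lintegral_mono fun x => ?_
      rw [enorm_one, mul_one, mul_comm b]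
      exact mul_le_mul' le_rfl (h _ _ _ _ _)
    refine (mul_le_mul' le_rfl (mul_le_mul' le_rfl h1)).trans (le_of_eq ?_)
    ring
  · exact zero_le

/-- the functional with moduli, a bounded insertion -/
theorem FAC_le_scale {Z : Bool → Option O3 → ℂ → ℂ} {B : OB} {P : Par6} {lo hi κ x0 : ℝ} {Q : ℤ}
    {E : Set ℝ} (h : OneCC Z B P lo hi κ x0 Q E) {D D1 : CrsC}
    (hD : ∀ (r : ℕ) (O : Fin r → Xo), CurC lo hi (D r O) (D1 r O)) (n n' : ℕ) {Ψ : Ins}
    {b : ℝ≥0∞} (hb : b ≠ ⊤) (hΨ : ∀ r O a a' x, ‖Ψ r O a a' x‖ₑ ≤ b) :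
    FAC Z P n n' D D1 Ψ ≤ ∑ r ∈ range (2 * (n + n') + 1),
      ((r.factorial : ℕ) : ℝ≥0∞)⁻¹ * ∫⁻ O : Fin r → Xo, b * FncC B P (D r O) (D1 r O) n n' O
        ∂(Measure.pi fun _ => nu) := by
  unfold FAC
  refine Finset.sum_le_sum fun r _ => mul_le_mul' le_rfl (lintegral_mono_ae ?_)
  filter_upwards [ae_ht6 (r := r) h.nul] with O hO
  exact (trAC_scale hb hΨ r O).trans (mul_le_mul' le_rfl (trAC_le_FncC h O hO (hD r O)))

/-- **The representation corollary of a class which is a sum of functionals.** -/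
theorem R4U_ofC {U : Type*} [Fintype U] {Y : U → Bool → Option O3 → ℂ → ℂ} {B : U → OB} {P : Par6}
    {lo hi : ℝ} {κ x0 : U → ℝ} {Q : U → ℤ} {E : U → Set ℝ} {c : U → ℝ≥0∞} (hc : ∀ u, c u ≠ ⊤)
    (h : ∀ u, c u ≠ 0 → OneCC (Y u) (B u) P lo hi (κ u) (x0 u) (Q u) (E u))
    {a : ℕ} {aX aY m m' : U → ℕ} (ha : ∀ u, aX u + aY u ≤ a) {Zn : ℕ → ℂ}
    (hZ : ∀ D D1 : U → CrsC,
      (∀ (u : U) (r : ℕ) (O : Fin r → Xo), CurC lo hi (D u r O) (D1 u r O)) →
      ∀ n : ℕ, ∃ Ψ : U → Ins, (∀ u r O a a' x, ‖Ψ u r O a a' x‖ₑ ≤ c u) ∧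
        Zn n = ∑ u, if m u ≤ n + aX u ∧ m' u ≤ n + aY u then
          FFC (Y u) P (n + aX u - m u) (n + aY u - m' u) (D u) (D1 u) (Ψ u) else 0) :
    R4genUC lo hi a c (fun u => TmVC (m u) (m' u) (B u) P (aX u) (aY u)) Zn := by
  intro D D1 hD n
  obtain ⟨Ψ, hΨ, hn⟩ := hZ D D1 hD n
  rw [hn]
  refine (enorm_sum_le _ _).trans ?_
  have key : ∀ u : U, ‖(if m u ≤ n + aX u ∧ m' u ≤ n + aY u then
      FFC (Y u) P (n + aX u - m u) (n + aY u - m' u) (D u) (D1 u) (Ψ u) else 0)‖ₑ ≤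
      ∑ r ∈ range (2 * (2 * n + a) + 1), ((r.factorial : ℕ) : ℝ≥0∞)⁻¹ *
        ∫⁻ O : Fin r → Xo, c u * TmVC (m u) (m' u) (B u) P (aX u) (aY u) n r O (D u r O) (D1 u r O)
          ∂(Measure.pi fun _ => nu) := by
    intro u
    by_cases hm : m u ≤ n + aX u ∧ m' u ≤ n + aY u
    swap
    · rw [if_neg hm, enorm_zero]
      exact zero_le
    rw [if_pos hm]
    by_cases hcu : c u = 0
    · have h0 : FFC (Y u) P (n + aX u - m u) (n + aY u - m' u) (D u) (D1 u) (Ψ u) = 0 := by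
        have e : Ψ u = fun r O a b x => 0 * Ψ u r O a b x := by
          funext r O a b x
          have h1 := hΨ u r O a b x
          rw [hcu] at h1
          have h2 : Ψ u r O a b x = 0 := enorm_eq_zero.1 (le_antisymm h1 zero_le)
          rw [h2, zero_mul]
        rw [e, FFC_cmul, zero_mul]
      rw [h0, enorm_zero]
      exact zero_le
    refine (FFC_le _).trans ((FAC_le_scale (h u hcu) (hD u) _ _ (hc u) (hΨ u)).trans ?_)
    refine (Finset.sum_le_sum_of_subset (Finset.range_mono ?_)).trans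
      (Finset.sum_le_sum fun r _ => mul_le_mul' le_rfl (lintegral_mono fun O => ?_))
    · have := ha u
      omega
    · show c u * _ ≤ c u * _
      unfold TmVC
      rw [if_pos hm]
  refine (Finset.sum_le_sum fun u _ => key u).trans ?_
  rw [Finset.sum_comm]
  refine Finset.sum_le_sum fun r _ => ?_
  rw [← Finset.mul_sum]
  exact mul_le_mul' le_rfl (sum_lintegral_le _ _ _)

/-- **The representation corollary of a class with one insertion of modulus at most `b`.** -/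
theorem R4C_ofPsiC {Z : Bool → Option O3 → ℂ → ℂ} {B : OB} {P : Par6} {lo hi κ x0 : ℝ} {Q : ℤ}
    {E : Set ℝ} (h : OneCC Z B P lo hi κ x0 Q E) {aX aY : ℕ} {b : ℝ} (hb : 0 < b) {Zn : ℕ → ℂ}
    (hZ : ∀ D D1 : CrsC, (∀ (r : ℕ) (O : Fin r → Xo), CurC lo hi (D r O) (D1 r O)) →
      ∀ n : ℕ, ∃ Ψ : Ins, (∀ r O a a' x, ‖Ψ r O a a' x‖ ≤ b) ∧
        Zn n = FFC Z P (n + aX) (n + aY) D D1 Ψ) :
    R4CofC lo hi B P aX aY fun n => Zn n / b := by
  intro D D1 hD n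
  obtain ⟨Ψ, hΨ, hn⟩ := hZ D D1 hD n
  have e : Zn n / b = FFC Z P (n + aX) (n + aY) D D1 (fun r O a a' x => (b : ℂ)⁻¹ * Ψ r O a a' x) := by
    rw [FFC_cmul, hn, div_eq_inv_mul]
  have hΨ' : ∀ r O a a' x, ‖(b : ℂ)⁻¹ * Ψ r O a a' x‖ₑ ≤ 1 := by
    intro r O a a' x
    rw [← ofReal_norm, ← ENNReal.ofReal_one]
    refine ENNReal.ofReal_le_ofReal ?_
    rw [norm_mul, norm_inv, Complex.norm_real, Real.norm_of_nonneg hb.le, inv_mul_le_iff₀ hb,
      mul_one]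
    exact hΨ r O a a' x
  simp only [e]
  refine (FFC_le _).trans ((FAC_le_scale h hD _ _ ENNReal.one_ne_top hΨ').trans (le_of_eq ?_))
  have e2 : 2 * (n + aX + (n + aY)) + 1 = 2 * (2 * n + (aX + aY)) + 1 := by ring
  rw [e2]
  simp only [one_mul]
  rfl

end PLT

end
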