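import Pool.Agent.PHK.Cls6
import Pool.Agent.PLT.LtC
import Pool.Agent.PLT.R4UC

/-!
# Sea on a curve: the final classes with the choices of the half quanta, over any base

Strip of the quanta: offsets `lo .. hi`, `lo ≤ 0 ≤ hi ≤ 1 / 4`.

* `cls_oneVC`: class functions and one body data of the choices, `OneCC`;
* `ClsVC`: the class as a sum over the choices of functionals with bounded insertions, `r4_VC`;
* **`cls_leC`**: the bound of a class at fixed half quanta from the tilted bounds;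
* **`top_cFSC`**: the sum over the numbers of the double integrals over a set;
* `ClsDC`, `r4_DC`, **`top_cDBC`**: the classes D1, D1'.
-/

set_option autoImplicit false
set_option linter.unusedSectionVars false

noncomputable section

open Complex MeasureTheory Finset
open scoped ENNReal

namespace PLT

open NUO NUP1 NUCR NUP1S NUP1S.Ab NUP1S.AbC NUP1S.AbG NURow NUP1.Leg NUGC.PLX PBX PBX.PLX
open _root_.Pool.Agent.PLX
open PHK PBR.PLX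
open PBF.PLX (Ins)

section base

variable {X : Bool → Option O3 → ℂ → ℂ} {ob : (Bool → ℂ → ℝ) → OB} {P : Par6} {lo hi κ : ℝ}
  {e : ℕ} {E0 : Set ℝ}

/-- **the class functions of the choices are bounded by the one body data, any base** -/
theorem cls_oneVC (hhi : hi ≤ 1 / 4) (hB : BsC X ob P lo hi κ e E0) {t t' : HT} {u : Ch6 × Ch6} (h : okC6 t u.1)
    (h' : okC6 t' u.2) {w w' : ℂ} (hw : w.re = htL t) (hw' : w'.re = htL t') :
    OneCC (YV6 X t t' w w' u) (obV6 ob t t' w w' u) P lo hi κ ((1 - hi) * l)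
      (((aXt e t t' + u.2.2.toNat + u.2.1.toNat : ℕ) : ℤ) -
        ((aYt e t t' + u.1.2.toNat + u.1.1.toNat : ℕ) : ℤ))
      ({w.im, w'.im} ∪ E0) :=
  cls_oneC hhi hB (ltC_v hhi h) (ltC_v hhi h') hw hw' (by
    have h1 := aXt_q e t t'
    unfold vQ6
    rw [htQ_eq, htQ_eq]
    push_cast
    linarith)

/-- **a class as a sum over the choices of functionals with bounded insertions** -/
def ClsVC (X : Bool → Option O3 → ℂ → ℂ) (P : Par6) (lo hi : ℝ) (e : ℕ) (t t' : HT) (w w' : ℂ)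
    (cw : Ch6 × Ch6 → ℝ) (Zn : ℕ → ℂ) : Prop :=
  ∀ η η' : Ch6 × Ch6 → CrsC, (∀ (u : Ch6 × Ch6) (r : ℕ) (O : Fin r → Xo),
    CurC lo hi (η u r O) (η' u r O)) → ∀ n : ℕ, ∃ Ψ : Ch6 × Ch6 → Ins,
    (∀ u r O a a' z, ‖Ψ u r O a a' z‖ ≤ cw u) ∧
    Zn n = ∑ u, if u.1.1.toNat ≤ n + aXv e t t' u ∧ u.2.1.toNat ≤ n + aYv e t t' u then
      FFC (YV6 X t t' w w' u) P (n + aXv e t t' u - u.1.1.toNat) (n + aYv e t t' u - u.2.1.toNat)
        (η u) (η' u) (Ψ u) else 0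

/-- the representation corollary of a class -/
theorem r4_VC (hhi : hi ≤ 1 / 4) (hB : BsC X ob P lo hi κ e E0) {t t' : HT} {w w' : ℂ}
    (hw : w.re = htL t) (hw' : w'.re = htL t') {cw : Ch6 × Ch6 → ℝ}
    (hcw : ∀ u, cw u ≠ 0 → okC6 t u.1 ∧ okC6 t' u.2) {Zn : ℕ → ℂ}
    (hZ : ClsVC X P lo hi e t t' w w' cw Zn) :
    R4genUC lo hi (aXt e t t' + aYt e t t' + 2) (fun u => ENNReal.ofReal (cw u))
      (fun u => TmVC u.1.1.toNat u.2.1.toNat (obV6 ob t t' w w' u) P (aXv e t t' u) (aYv e t t' u))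
      Zn := by
  refine R4U_ofC (Y := YV6 X t t' w w') (κ := fun _ => κ) (x0 := fun _ => (1 - hi) * l)
    (Q := fun u => ((aXt e t t' + u.2.2.toNat + u.2.1.toNat : ℕ) : ℤ) -
        ((aYt e t t' + u.1.2.toNat + u.1.1.toNat : ℕ) : ℤ))
    (E := fun _ => {w.im, w'.im} ∪ E0) (fun u => ENNReal.ofReal_ne_top) (fun u hu => ?_) (aXv_add e t t')
    fun η η' hη n => ?_
  · have hu' : cw u ≠ 0 := by
      intro h0
      exact hu (by rw [h0, ENNReal.ofReal_zero])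
    obtain ⟨h1, h2⟩ := hcw u hu'
    exact cls_oneVC hhi hB h1 h2 hw hw'
  · obtain ⟨Ψ, hΨ, hn⟩ := hZ η η' hη n
    refine ⟨Ψ, fun u r O a a' z => ?_, hn⟩
    rw [← ofReal_norm]
    exact ENNReal.ofReal_le_ofReal (hΨ u r O a a' z)

end base

/-- the tilted bound of the terms for a larger number of objects -/
theorem perGC_up {lo hi C C' c b : ℝ} {k : ℕ} {c1 c' L ep e1 J ν d : ℝ} {N : ℕ} {B : OB}
    {P : Par6} {aX aY m m' a : ℕ} {Q : ℝ} (hlo : lo ≤ 0) (hhi : 0 ≤ hi) (ha : aX + aY ≤ a)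
    (h : PerGC C C' c b k c1 c' L ep e1 J ν d N (aX + aY) lo hi (TmVC m m' B P aX aY) Q) :
    PerGC C C' c b k c1 c' L ep e1 J ν d N a lo hi (TmVC m m' B P aX aY) Q := by
  intro n hn b' hb' r hr O
  by_cases hr' : r ≤ 2 * (2 * n + (aX + aY))
  · exact h n hn b' hb' r hr' O
  · refine ⟨_, _, curC_zero hlo hhi, fun W => ?_⟩
    have e3 : TmVC m m' B P aX aY n r O (fun _ _ => (0 : ℂ)) (fun _ _ => 0) = 0 := by
      unfold TmVC
      split_ifs with hm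
      · exact FncC_zero O (by omega)
      · rfl
    rw [e3, mul_zero]
    exact zero_le

/-- **The bound of a class at fixed half quanta** from the tilted bounds of its choices. -/
theorem cls_leC {C c b c1 c' : ℝ} {k : ℕ} (hC : 0 < C) (hc : 0 < c) (hb : 0 < b)
    (hc1 : 0 < c1) (hc' : 0 ≤ c') {δ : ℝ} (hδ : 0 < δ) :
    ∃ a0 : ℝ, 0 < a0 ∧ ∀ C' : ℝ, 0 ≤ C' → ∃ L0 : ℝ, ∀ L ≥ L0, ∀ ep : ℝ, 0 < ep → ep ≤ 1 / 100 →
      ∀ e1 : ℝ, 0 < e1 → e1 ≤ 1 / 4 → ∀ J : ℝ, 0 ≤ J →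
      Real.exp (-(2 * Real.pi * J)) + 3 * e1 + 3 * ep ≤ a0 →
      ∀ (P : Par6) (X : Bool → Option O3 → ℂ → ℂ) (ob : (Bool → ℂ → ℝ) → OB)
        (κ : ℝ) (E0 : Set ℝ) (t t' : HT) (w w' : ℂ), w.re = htL t → w'.re = htL t' →
      ∀ (lo hi ν d : ℝ) (K e : ℕ) (cw Q : Ch6 × Ch6 → ℝ) (Zn : ℕ → ℂ), lo ≤ 0 → 0 ≤ hi →
      hi ≤ 1 / 4 → BsC X ob P lo hi κ e E0 → 0 < d → (∀ u, 0 ≤ cw u) → (∀ u, cw u ≠ 0 → okC6 t u.1 ∧ okC6 t' u.2) → (∀ u, 0 ≤ Q u) →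
      ((2 * (2 * K + (aXt e t t' + aYt e t t' + 2)) + 1 : ℕ) : ℝ) ≤ Real.exp (2 * L) →
      ClsVC X P lo hi e t t' w w' cw Zn →
      (∀ u, cw u ≠ 0 → PerGC C C' c b k c1 c' L ep e1 J ν d K (aXv e t t' u + aYv e t t' u) lo hi
        (TmVC u.1.1.toNat u.2.1.toNat (obV6 ob t t' w w' u) P (aXv e t t' u) (aYv e t t' u))
        (Q u)) →
      ∑ n ∈ range (K + 1), ‖Zn n‖ ≤
        4 * (1 + 1 / d) * ((∑ u, cw u * Q u) * Real.exp (δ * L)) := by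
  obtain ⟨a0, ha0, h⟩ := glue_UC (k := k) hC hc hb hc1 hc' hδ
  refine ⟨a0, ha0, fun C' hC' => ?_⟩
  obtain ⟨L0, h⟩ := h C' hC'
  refine ⟨L0, fun L hL ep hep hep' e1 he1 he1' J hJ hsm P X ob κ E0 t t' w w' hw hw' lo hi
    ν d K e cw Q Zn hlo hhi0 hhi hB hd hcw0 hcw hQ hK hZ hPer => ?_⟩
  have key := h L hL ep hep.le (hep'.trans (by norm_num)) e1 he1 he1' J hJ hsm lo hi ν d K
    (aXt e t t' + aYt e t t' + 2) (Ch6 × Ch6) inferInstance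
    (fun u => ENNReal.ofReal (cw u)) Q
    (fun u => TmVC u.1.1.toNat u.2.1.toNat (obV6 ob t t' w w' u) P (aXv e t t' u) (aYv e t t' u))
    Zn hlo hhi0 hd hQ (fun u => ENNReal.ofReal_ne_top) hK
    (r4_VC hhi hB hw hw' hcw hZ) (fun u hu => perGC_up hlo hhi0 (aXv_add e t t' u)
      (hPer u fun h0 => hu (by rw [h0, ENNReal.ofReal_zero])))
  have e1 : ∀ u : Ch6 × Ch6, (ENNReal.ofReal (cw u)).toReal = cw u := fun u =>
    ENNReal.toReal_ofReal (hcw0 u)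
  simp only [e1] at key
  exact key

/-- **the sum over the numbers of the double integral of a class over a set**, any base -/
theorem top_cFSC {C c b c1 c' : ℝ} {k : ℕ} (hC : 0 < C) (hc : 0 < c) (hb : 0 < b)
    (hc1 : 0 < c1) (hc' : 0 ≤ c') {δ : ℝ} (hδ : 0 < δ) :
    ∃ a0 : ℝ, 0 < a0 ∧ ∀ C' : ℝ, 0 ≤ C' → ∃ L0 : ℝ, ∀ L ≥ L0, ∀ ep : ℝ, 0 < ep → ep ≤ 1 / 100 →
      ∀ e1 : ℝ, 0 < e1 → e1 ≤ 1 / 4 → ∀ J : ℝ, 0 ≤ J →
      Real.exp (-(2 * Real.pi * J)) + 3 * e1 + 3 * ep ≤ a0 →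
      ∀ (P : Par6) (X : Bool → Option O3 → ℂ → ℂ) (ob : (Bool → ℂ → ℝ) → OB)
        (κ : ℝ) (E0 : Set ℝ) (kF kP kF' kP' : ℂ → ℂ) (t t' : HT)
        (lnX : ∀ p p' : ℕ, (Fin p → O3) → (Fin p' → O3) → Fin p → ℝ)
        (lnY : ∀ p p' : ℕ, (Fin p → O3) → (Fin p' → O3) → Fin p' → ℝ)
        (ν : ℝ × ℝ → ℝ) (d x0 lo hi : ℝ) (K e : ℕ) (cw Q : ℝ × ℝ → Ch6 × Ch6 → ℝ),
      lo ≤ 0 → 0 ≤ hi → hi ≤ 1 / 4 → BsC X ob P lo hi κ e E0 → 0 < d → (∀ y u, 0 ≤ cw y u) →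
      (∀ y u, cw y u ≠ 0 → okC6 t u.1 ∧ okC6 t' u.2) → (∀ y u, 0 ≤ Q y u) →
      ((2 * (2 * K + (aXt e t t' + aYt e t t' + 2)) + 1 : ℕ) : ℝ) ≤ Real.exp (2 * L) →
      (∀ᵐ y : ℝ × ℝ, ClsVC X P lo hi e t t' (vl (htL t) y.1) (vl (htL t') y.2) (cw y) fun n =>
        (cF (X true) (X false) kF kP kF' kP' t t').Z (X true) (X false) x0 (n + htN e t t')
          (n + htN e t t' + e) lnX lnY (vl (htL t) y.1) (vl (htL t') y.2)) →
      (∀ᵐ y : ℝ × ℝ, ∀ u, cw y u ≠ 0 →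
        PerGC C C' c b k c1 c' L ep e1 J (ν y) d K (aXv e t t' u + aYv e t t' u) lo hi
          (TmVC u.1.1.toNat u.2.1.toNat (obV6 ob t t' (vl (htL t) y.1) (vl (htL t') y.2) u) P
            (aXv e t t' u) (aYv e t t' u)) (Q y u)) →
      ∀ S : Set (ℝ × ℝ),
      ∑ n ∈ range (K + 1), ∫⁻ y in S,
          ‖(cF (X true) (X false) kF kP kF' kP' t t').pre (vl (htL t) y.1) (vl (htL t') y.2)‖ₑ *
          ‖(cF (X true) (X false) kF kP kF' kP' t t').Z (X true) (X false) x0 n (n + e)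
            lnX lnY (vl (htL t) y.1) (vl (htL t') y.2)‖ₑ ≤
        ENNReal.ofReal (4 * (1 + 1 / d) * Real.exp (δ * L)) *
          ∫⁻ y in S, ‖(cF (X true) (X false) kF kP kF' kP' t t').pre
              (vl (htL t) y.1) (vl (htL t') y.2)‖ₑ *
            ENNReal.ofReal (∑ u : Ch6 × Ch6, cw y u * Q y u) := by
  obtain ⟨a0, ha0, h⟩ := cls_leC (k := k) hC hc hb hc1 hc' hδ
  refine ⟨a0, ha0, fun C' hC' => ?_⟩
  obtain ⟨L0, h⟩ := h C' hC'
  refine ⟨L0, fun L hL ep hep hep' e1 he1 he1' J hJ hsm P X ob κ E0 kF kP kF' kP'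
    t t' lnX lnY ν d x0 lo hi K e cw Q hlo hhi0 hhi hB hd hcw0 hcw hQ hK hZ hPer S => ?_⟩
  refine (NUGC.PLX.sum_lint_le' _ _ _).trans ?_
  rw [← lintegral_const_mul' _ _ ENNReal.ofReal_ne_top]
  refine lintegral_mono_ae ?_
  filter_upwards [ae_restrict_of_ae hZ, ae_restrict_of_ae hPer] with y hzy hpy
  have h4 : (0 : ℝ) ≤ 4 * (1 + 1 / d) := by positivity
  have hS : 0 ≤ ∑ u : Ch6 × Ch6, cw y u * Q y u :=
    sum_nonneg fun u _ => mul_nonneg (hcw0 y u) (hQ y u)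
  have key := (cF_sum_le (X true) (X false) (X true) (X false) kF kP kF' kP' t t' x0 K e lnX lnY
    (vl (htL t) y.1) (vl (htL t') y.2)).trans
    (h L hL ep hep hep' e1 he1 he1' J hJ hsm P X ob κ E0
    t t' (vl (htL t) y.1) (vl (htL t') y.2) (by simp [vl]) (by simp [vl]) lo hi (ν y) d K e (cw y) (Q y)
    _ hlo hhi0 hhi hB hd (hcw0 y) (hcw y) (hQ y) hK hzy hpy)
  have key2 := ENNReal.ofReal_le_ofReal key
  rw [← sum_enorm_eq] at key2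
  rw [← Finset.mul_sum]
  refine (mul_le_mul_right key2 _).trans (le_of_eq ?_)
  rw [show 4 * (1 + 1 / d) * ((∑ u : Ch6 × Ch6, cw y u * Q y u) * Real.exp (δ * L)) =
      (4 * (1 + 1 / d) * Real.exp (δ * L)) * ∑ u : Ch6 × Ch6, cw y u * Q y u by ring,
    ENNReal.ofReal_mul (by positivity)]
  exact mul_left_comm _ _ _

/-! ## the classes D1, D1' -/

section flat

variable {X : Bool → Option O3 → ℂ → ℂ} {ob : (Bool → ℂ → ℝ) → OB} {P : Par6} {lo hi κ : ℝ}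
  {e : ℕ} {E0 : Set ℝ}

/-- the class functions of the classes D1, D1' are bounded by the one body data, any base -/
theorem cls_oneDC (hhi : hi ≤ 1 / 4) (hB : BsC X ob P lo hi κ e E0) (o : Bool) {w : ℂ} (hw : w.re = -(11 / 4) * l) :
    OneCC (YD6 X o w) (obDB ob o w) P lo hi κ ((1 - hi) * l) (-(e : ℤ)) ({w.im, 0} ∪ E0) := by
  cases o
  · have key := cls_oneC hhi hB (ltC_one hhi 0) (ltC_SD hhi) (w := 0) (w' := w) (by simp) hw (aX := 0) (aY := e)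
      (by norm_num)
    have e1 : (ob fun a z => ‖sG (fun _ _ _ => 1) SD 0 w a z‖) = obDB ob false w := by
      unfold obDB
      congr 1
      funext a z
      simp [sG]
    rw [e1] at key
    have e2 : ({(0 : ℂ).im, w.im} ∪ E0 : Set ℝ) = {w.im, 0} ∪ E0 := by
      rw [Complex.zero_im, Set.pair_comm]
    rw [e2] at key
    have e3 : (((0 : ℕ) : ℤ) - (e : ℤ)) = -(e : ℤ) := by simp
    rw [e3] at key
    exact key
  · have key := cls_oneC hhi hB (ltC_SD hhi) (ltC_one hhi 0) (w := w) (w' := 0) hw (by simp) (aX := 0) (aY := e)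
      (by norm_num)
    have e1 : (ob fun a z => ‖sG SD (fun _ _ _ => 1) w 0 a z‖) = obDB ob true w := by
      unfold obDB
      congr 1
      funext a z
      simp [sG]
    rw [e1] at key
    rw [Complex.zero_im] at key
    have e3 : (((0 : ℕ) : ℤ) - (e : ℤ)) = -(e : ℤ) := by simp
    rw [e3] at key
    exact key

/-- **the classes D1, D1' as functionals** -/
def ClsDC (X : Bool → Option O3 → ℂ → ℂ) (P : Par6) (lo hi : ℝ) (e : ℕ) (o : Bool) (w : ℂ)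
    (Zn : ℕ → ℂ) : Prop :=
  ∀ η η' : CrsC, (∀ (r : ℕ) (O : Fin r → Xo), CurC lo hi (η r O) (η' r O)) → ∀ n : ℕ,
    Zn n = FFC (YD6 X o w) P n (n + e) η η' fun _ _ _ _ _ => 1

/-- **the representation corollary of the classes D1, D1', any base** -/
theorem r4_DC (hhi : hi ≤ 1 / 4) (hB : BsC X ob P lo hi κ e E0) {o : Bool} {w : ℂ}
    (hw : w.re = -(11 / 4) * l) {Zn : ℕ → ℂ} (hZ : ClsDC X P lo hi e o w Zn) :
    R4CofC lo hi (obDB ob o w) P 0 e Zn :=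
  R4C_ofC (cls_oneDC hhi hB o hw) fun η η' hη n => by
    rw [add_zero]
    exact hZ η η' hη n

end flat

/-- **The bound of the classes D1 (`o = true`), D1' (`o = false`), any base** -/
theorem top_cDBC {C c b c1 c' : ℝ} {k : ℕ} (hC : 0 < C) (hc : 0 < c) (hb : 0 < b)
    (hc1 : 0 < c1) (hc' : 0 ≤ c') {δ : ℝ} (hδ : 0 < δ) :
    ∃ a0 : ℝ, 0 < a0 ∧ ∀ C' : ℝ, 0 ≤ C' → ∃ L0 : ℝ, ∀ L ≥ L0, ∀ ep : ℝ, 0 < ep → ep ≤ 1 / 100 →
      ∀ e1 : ℝ, 0 < e1 → e1 ≤ 1 / 4 → ∀ J : ℝ, 0 ≤ J →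
      Real.exp (-(2 * Real.pi * J)) + 3 * e1 + 3 * ep ≤ a0 →
      ∀ (P : Par6) (X : Bool → Option O3 → ℂ → ℂ) (ob : (Bool → ℂ → ℝ) → OB)
        (κ : ℝ) (E0 : Set ℝ) (kD : ℂ → ℂ) (o : Bool)
        (lnX : ∀ p p' : ℕ, (Fin p → O3) → (Fin p' → O3) → Fin p → ℝ)
        (lnY : ∀ p p' : ℕ, (Fin p → O3) → (Fin p' → O3) → Fin p' → ℝ)
        (ν : ℝ → ℝ) (d x0 lo hi : ℝ) (K e : ℕ) (Q : ℝ → ℝ), lo ≤ 0 → 0 ≤ hi → hi ≤ 1 / 4 →
      BsC X ob P lo hi κ e E0 → 0 < d →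
      (∀ y, 0 ≤ Q y) →
      ((2 * (2 * K + (0 + e)) + 1 : ℕ) : ℝ) ≤ Real.exp (2 * L) →
      (∀ᵐ y : ℝ, ClsDC X P lo hi e o (vl (-(11 / 4) * l) y) fun n => (cDo o kD).Z (X true) (X false)
        x0 n (n + e) lnX lnY (vl (-(11 / 4) * l) y)) →
      (∀ᵐ y : ℝ, PerCofC C C' c b k c1 c' L ep e1 J (ν y) d K lo hi
        (obDB ob o (vl (-(11 / 4) * l) y)) P 0 e (Q y)) →
      ∑ n ∈ range (K + 1), ‖(cDo o kD).val (X true) (X false) x0 n (n + e) lnX lnY‖ₑ ≤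
        ENNReal.ofReal (4 * (1 + 1 / d) * Real.exp (δ * L)) *
          ∫⁻ y : ℝ, ENNReal.ofReal (‖kD (vl (-(11 / 4) * l) y)‖ * Q y) := by
  obtain ⟨a0, ha0, h⟩ := glue_classC (k := k) hC hc hb hc1 hc' hδ
  refine ⟨a0, ha0, fun C' hC' => ?_⟩
  obtain ⟨L0, h⟩ := h C' hC'
  refine ⟨L0, fun L hL ep hep hep' e1 he1 he1' J hJ hsm P X ob κ E0 kD o lnX lnY ν d x0 lo hi K e Q
    hlo hhi0 hhi hB hd hQ hK hZ hPer => ?_⟩
  have key := CD1_sum_val (cDo o kD) (X true) (X false) x0 K e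
    lnX lnY (fun y => ENNReal.ofReal (4 * (1 + 1 / d) * (Q y * Real.exp (δ * L)))) (by
      filter_upwards [hPer, hZ] with y hy hzy
      rw [sum_enorm_eq, cDo_a]
      refine ENNReal.ofReal_le_ofReal ?_
      exact h L hL ep hep.le (hep'.trans (by norm_num)) e1 he1 he1' J hJ hsm lo hi (ν y) d (Q y) K
        0 e _ P _ hlo hhi0 hd (hQ y) hK (r4_DC hhi hB (by simp [vl]) hzy) hy)
  refine key.trans (le_of_eq ?_)
  have h4 : (0 : ℝ) ≤ 4 * (1 + 1 / d) * Real.exp (δ * L) := by positivity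
  rw [← lintegral_const_mul' _ _ ENNReal.ofReal_ne_top]
  refine lintegral_congr fun y => ?_
  rw [cDo_a, cDo_K, ← ofReal_norm, ← ENNReal.ofReal_mul (norm_nonneg _), ← ENNReal.ofReal_mul h4]
  congr 1
  ring

end PLT

end
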