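import Pool.Agent.PHK.AsmKR
import Pool.Agent.PLT.GeoC

/-!
# Sea on a curve: the geometry with two letters

The sea exponent of the neutral factor of a letter is DATA: `mN m σ t u τ` (size, species of the half
quantum, type, choice, height).

* `MNC`, `MEC`: **the sea exponent of a letter**: neutral factor and base group; `QRC`: the prefactor of a
  choice;
* **`GLC G mN i`**: the geometry with the neutral factors of the two letters `i : Ix6`; `GLU G mN`: in a family;
  `GLC_nn`, `GLU_sel`.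
-/

set_option autoImplicit false
set_option linter.unusedSectionVars false

noncomputable section

open MeasureTheory Finset
open PLX (Fil Ends)

namespace PLT

open PHK PBR.PLX
open NUGC.PLX
open NURow (HT)
open PBO.PLX (Geo)

/-- data: the sea exponent of the neutral factor of a letter -/
abbrev MNC : Type := ℕ → Bool → HT → Ch6 → ℝ → ℝ

/-- **the sea exponent of a letter**: neutral factor and base group -/
def MEC (mN : MNC) (MF : ℕ → Bool → NUSp.Cl → ℂ → ℝ) (m : ℕ) (σ : Bool) (t : HT) (u : Ch6)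
    (τ : ℝ) : ℝ :=
  mN m σ t u τ + MF m σ (bc6 t u) (pb6 t u τ)

/-- **the prefactor of the choice `u` of the class `t, t'`** -/
def QRC (mN : MNC) (MF : ℕ → Bool → NUSp.Cl → ℂ → ℝ) (ep e1 J : ℝ) (m : ℕ) (A : ℝ) (t t' : HT)
    (y : ℝ × ℝ) (u : Ch6 × Ch6) : ℝ :=
  PBQ.PLX.QP m ep e1 J A (fun u τ => MEC mN MF m true t u.1 τ)
    (fun u τ => MEC mN MF m false t' u.2 τ) (fun u : Ch6 × Ch6 => qh6 t u.1) (fun u => qh6 t' u.2)
    (fun u => ph6 t u.1) (fun u => ph6 t' u.2) y u

theorem QRC_nonneg {mN : MNC} {MF : ℕ → Bool → NUSp.Cl → ℂ → ℝ} {ep e1 J : ℝ} {m : ℕ} {A : ℝ}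
    (hA : 0 ≤ A) (t t' : HT) (y : ℝ × ℝ) (u : Ch6 × Ch6) : 0 ≤ QRC mN MF ep e1 J m A t t' y u :=
  PBQ.PLX.QP_nonneg hA _ _ _ _ _ _ _ _

/-- **the geometry with two letters** -/
def GLC (G : GeoC) (mN : MNC) (i : Ix6) : GeoC where
  B m β := (G.B m β).mul (dvK6 i.1.1 i.1.2 i.2.1 i.2.2)
  one := G.one
  EM m := G.EM m + (mN m true i.1.1 i.2.1.1 i.2.2.1 + mN m false i.1.2 i.2.1.2 i.2.2.2)
  MF := G.MF
  D := G.D
  D1 := G.D1
  en := G.en

/-- the geometries with two letters of a family -/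
def GLU {ι : Type*} (G : ι → GeoC) (mN : ι → MNC) (i : ι × Ix6) : GeoC := GLC (G i.1) (mN i.1) i.2

theorem GLC_nn {G : GeoC} (mN : MNC) (hB : ∀ m β, (G.B m β).Nn) (i : Ix6) (m : ℕ) (β : ℝ) :
    ((GLC G mN i).B m β).Nn := fun a u => mul_nonneg (hB m β a u) (dvK6_pos _ _ _ _ _ _).le

/-- a selection of the family with letters: letters over a selection of the family -/
theorem GLU_sel {ι : Type*} (G : ι → GeoC) (mN : ι → MNC) (i : ℕ → ι × Ix6) :
    GeoC.sel (GLU G mN) i = GeoC.sel (GLC (GeoC.sel G fun m => (i m).1)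
      fun m => mN (i m).1 m) fun m => (i m).2 := rfl

end PLT

end
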