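import Pool.Agent.PHK.LetB
import Pool.Agent.PLT.CurD
import Pool.Agent.PLT.PtTh

/-!
# The letters on the evaluation points, any parameters

* `AwX x`: the line `x l` is `l / 16` away from the places of the letters, mod `l`; **`AwP P lo hi`**: all
  the evaluation points; `awP_six`, **`awP_Th`**;
* `away_domC`, `away_letC`, `away_pbC`, `dv6_leC`, `dv6_inv_leC` (constant `kV6`);
* two letters: **`obV_eqC`**, `dvK6_leC`, `dvK6_inv_leC`; `upL_domC`, `loL_domC`.
-/

set_option autoImplicit false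
set_option linter.unusedSectionVars false

noncomputable section

open Complex

namespace PLT

open PHK
open NUP1 NUP1S NURow NUP1.Leg NUP1.Bd NUGC.PLX PBR.PLX
open NUO (Away pA bk yw wz ll_pos)
open NUSp (Cl wG wc wq wn wq_cons wn_cons)
open NUSea.PLX.H0 (Gd)
open PBH.PLX (Atm HS AtOk pw)

/-- the line `x l` is `l / 16` away from the places of the letters, mod `l` -/
def AwX (x : ℝ) : Prop := ∀ p : ℝ, p = 5 / 4 ∨ p = -(11 / 4) ∨ p = 5 / 8 →
  ∃ n : ℤ, (n : ℝ) + 1 / 16 ≤ x - p ∧ x - p ≤ n + 1 - 1 / 16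

/-- `x` modulo one in `[5/16, 9/16]` -/
theorem awX_lo {x : ℝ} (n : ℤ) (h1 : n + 5 / 16 ≤ x) (h2 : x ≤ n + 9 / 16) : AwX x := by
  rintro p (rfl | rfl | rfl)
  · exact ⟨n - 1, by push_cast; linarith, by push_cast; linarith⟩
  · exact ⟨n + 3, by push_cast; linarith, by push_cast; linarith⟩
  · exact ⟨n - 1, by push_cast; linarith, by push_cast; linarith⟩

/-- `x` modulo one in `[11/16, 19/16]` -/
theorem awX_hi {x : ℝ} (n : ℤ) (h1 : n + 11 / 16 ≤ x) (h2 : x ≤ n + 19 / 16) : AwX x := by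
  rintro p (rfl | rfl | rfl)
  · exact ⟨n - 1, by push_cast; linarith, by push_cast; linarith⟩
  · exact ⟨n + 3, by push_cast; linarith, by push_cast; linarith⟩
  · exact ⟨n, by linarith, by linarith⟩

/-- **all the evaluation points are away from the places of the letters** -/
structure AwP (P : Par6) (lo hi : ℝ) : Prop where
  L : AwX (1 - P.jL)
  e : AwX (1 - P.e)
  h1 : AwX (1 - P.j1)
  h2 : AwX (1 - P.j2)
  A : ∀ x : ℝ, 1 - hi ≤ x → x ≤ 1 - lo → AwX x

theorem AwP.sub {P : Par6} {lo hi lo' hi' : ℝ} (h : AwP P lo hi) (h1 : lo ≤ lo') (h2 : hi' ≤ hi) :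
    AwP P lo' hi' :=
  ⟨h.L, h.e, h.h1, h.h2, fun x a b => h.A x (by linarith) (by linarith)⟩

/-- shift by an integer -/
theorem AwX.shift {x y : ℝ} (h : AwX x) (k : ℤ) (e : y = x + k) : AwX y := by
  intro p hp
  obtain ⟨n, a, b⟩ := h p hp
  exact ⟨n + k, by push_cast; linarith, by push_cast; linarith⟩

theorem awP_A {lo hi : ℝ} (h1 : -(3 / 16) ≤ lo) (h2 : hi ≤ 5 / 16) :
    ∀ x : ℝ, 1 - hi ≤ x → x ≤ 1 - lo → AwX x := fun x a b =>
  awX_hi 0 (by push_cast; linarith) (by push_cast; linarith)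

theorem awP_six {lo hi : ℝ} (h1 : -(3 / 16) ≤ lo) (h2 : hi ≤ 5 / 16) : AwP par6 lo hi where
  L := awX_hi (-2) (by norm_num [par6]) (by norm_num [par6])
  e := awX_lo 0 (by norm_num [par6]) (by norm_num [par6])
  h1 := awX_hi 0 (by norm_num [par6]) (by norm_num [par6])
  h2 := awX_hi (-1) (by norm_num [par6]) (by norm_num [par6])
  A := awP_A h1 h2

/-- **the point of the tilted sea** -/
theorem awP_Th {lo hi : ℝ} (h1 : -(3 / 16) ≤ lo) (h2 : hi ≤ 5 / 16) : AwP parTh lo hi where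
  L := awX_hi (-2) (by norm_num [parTh]) (by norm_num [parTh])
  e := awX_lo 0 (by norm_num [parTh]) (by norm_num [parTh])
  h1 := awX_hi 0 (by norm_num [parTh]) (by norm_num [parTh])
  h2 := awX_hi (-1) (by norm_num [parTh]) (by norm_num [parTh])
  A := awP_A h1 h2

variable {P : Par6} {lo hi : ℝ}

/-- **the evaluation points are away from the places of the letters** -/
theorem away_domC (hA : AwP P lo hi) {z : ℂ} (hz : z ∈ DomPC P lo hi) {p : ℝ}
    (hp : p = 5 / 4 ∨ p = -(11 / 4) ∨ p = 5 / 8) (τ : ℝ) : Away (1 / 16) (z - vl (p * l) τ) := by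
  have hl := NUP1.l_pos
  have hr : (z - vl (p * l) τ).re = z.re - p * l := by rw [sub_re, vl_re6]
  have key : ∀ x : ℝ, AwX x → z.re = x * l → Away (1 / 16) (z - vl (p * l) τ) := by
    intro x hx hzx
    obtain ⟨n, h1, h2⟩ := hx p hp
    refine NUO.away_of (x := x - p) ?_ n h1 h2
    rw [hr, hzx]
    show _ = (x - p) * l
    ring
  unfold DomPC at hz
  simp only [Set.mem_ofPred_eq] at hz
  rcases hz with h | h | h | h | h | h | h | h | h
  · exact key _ hA.L h
  · exact key (-(1 / 2)) (awX_lo (-1) (by norm_num) (by norm_num)) (by rw [h]; ring)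
  · exact key (-(3 / 2)) (awX_lo (-2) (by norm_num) (by norm_num)) (by rw [h]; ring)
  · exact key (-(1 + P.e)) (hA.e.shift (-2) (by push_cast; ring)) (by rw [h]; ring)
  · exact key (-(2 + P.e)) (hA.e.shift (-3) (by push_cast; ring)) (by rw [h]; ring)
  · exact key _ hA.e h
  · exact key _ hA.h1 h
  · exact key _ hA.h2 h
  · have e : z.re = (z.re / l) * l := by field_simp
    have b1 : 1 - hi ≤ z.re / l := by
      rw [le_div_iff₀ hl]
      exact h.1
    have b2 : z.re / l ≤ 1 - lo := by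
      rw [div_le_iff₀ hl]
      exact h.2
    exact key _ (hA.A _ b1 b2) e

theorem away_letC (hA : AwP P lo hi) {z : ℂ} (hz : z ∈ DomPC P lo hi) (t : HT) (τ : ℝ) :
    Away (1 / 16) (z - vl (htL t) τ) := by
  cases t
  · exact away_domC hA hz (Or.inl rfl) τ
  · exact away_domC hA hz (Or.inr (Or.inl rfl)) τ
  · exact away_domC hA hz (Or.inr (Or.inl rfl)) τ
  · exact away_domC hA hz (Or.inr (Or.inr rfl)) τ

theorem away_pbC (hA : AwP P lo hi) {z : ℂ} (hz : z ∈ DomPC P lo hi) (t : HT) (u : Ch6)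
    (τ : ℝ) : Away (1 / 16) (z - pb6 t u τ) := by
  obtain ⟨u1, u2⟩ := u
  cases t <;> cases u1 <;> cases u2 <;>
    first
    | exact away_domC hA hz (Or.inl rfl) τ
    | exact away_domC hA hz (Or.inr (Or.inl rfl)) τ
    | exact away_domC hA hz (Or.inr (Or.inr rfl)) τ

theorem abs_log_dvC (hA : AwP P lo hi) {z : ℂ} (hz : z ∈ DomPC P lo hi) (t : HT) (u : Ch6)
    (σ : Bool) (τ : ℝ) (a : Bool) : |Real.log (dv6 t u σ τ a z)| ≤
      24 * -Real.log (PBH.c0 (2 * (1 / 16 * l))) := by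
  have hl := NUP1.l_pos
  have h1 := lw_bd (by norm_num) (by norm_num) (away_letC hA hz t τ) (wl6 t u (decide (a = σ)))
  have h2 := lw_bd (by norm_num) (by norm_num) (away_pbC hA hz t u τ) (wc (bc6 t u) (decide (a = σ)))
  have e1 : (z - vl (htL t) τ).im = z.im - τ := by rw [sub_im, vl_im6]
  have e2 : (z - pb6 t u τ).im = z.im - τ := by rw [sub_im, pb6_im]
  rw [e1, wq_wl6] at h1
  rw [e2] at h2
  obtain ⟨n1, n2⟩ := wn_wl6 t u (decide (a = σ))
  have hc0 := PBH.c0_pos (δ := 2 * (1 / 16 * l)) (by positivity) (by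
    show 2 * (1 / 16 * l) ≤ 4 * l
    linarith)
  have hB : 0 ≤ -Real.log (PBH.c0 (2 * (1 / 16 * l))) := by
    have := Real.log_nonpos hc0.le (Real.sin_le_one _)
    unfold PBH.c0 at this ⊢
    linarith
  have k1 := mul_le_mul_of_nonneg_right n1 hB
  have k2 := mul_le_mul_of_nonneg_right n2 hB
  unfold dv6
  rw [Real.log_exp]
  have e : lw (wl6 t u (decide (a = σ))) (vl (htL t) τ) z -
      lw (wc (bc6 t u) (decide (a = σ))) (pb6 t u τ) z =
      (lw (wl6 t u (decide (a = σ))) (vl (htL t) τ) z - wq (wc (bc6 t u) (decide (a = σ))) *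
        Real.log (Real.cosh (z.im - τ))) -
      (lw (wc (bc6 t u) (decide (a = σ))) (pb6 t u τ) z - wq (wc (bc6 t u) (decide (a = σ))) *
        Real.log (Real.cosh (z.im - τ))) := by ring
  rw [e]
  refine (abs_sub _ _).trans ?_
  linarith

/-- **the neutral factor is bounded** on the evaluation points -/
theorem dv6_leC (hA : AwP P lo hi) {z : ℂ} (hz : z ∈ DomPC P lo hi) (t : HT) (u : Ch6)
    (σ : Bool) (τ : ℝ) (a : Bool) : dv6 t u σ τ a z ≤ kV6 := by
  have h := (abs_le.1 (abs_log_dvC hA hz t u σ τ a)).2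
  rw [← Real.exp_log (dv6_pos t u σ τ a z)]
  exact Real.exp_le_exp.2 h

/-- **the neutral factor is bounded from below** -/
theorem dv6_inv_leC (hA : AwP P lo hi) {z : ℂ} (hz : z ∈ DomPC P lo hi) (t : HT) (u : Ch6)
    (σ : Bool) (τ : ℝ) (a : Bool) : (dv6 t u σ τ a z)⁻¹ ≤ kV6 := by
  have h := (abs_le.1 (abs_log_dvC hA hz t u σ τ a)).1
  rw [← Real.exp_log (dv6_pos t u σ τ a z), ← Real.exp_neg]
  exact Real.exp_le_exp.2 (by linarith)

/-- **the spectators of two letters** on the evaluation points -/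
theorem obV_eqC (hA : AwP P lo hi) {z : ℂ} (hz : z ∈ DomPC P lo hi) {t t' : HT}
    {u : Ch6 × Ch6} (h : okC6 t u.1) (h' : okC6 t' u.2) (y : ℝ × ℝ) (a : Bool) :
    ‖sG (vF6 t u.1) (vF6 t' u.2) (vl (htL t) y.1) (vl (htL t') y.2) a z‖ =
      spF (gdK6 t t' u y) a z * dvK6 t t' u y a z := by
  have h16 : (0 : ℝ) < 1 / 16 := by norm_num
  have e1 := norm_v6 h true a y.1 (Away.gn h16 (away_letC hA hz t y.1))
    (Away.gn h16 (away_pbC hA hz t u.1 y.1))
  have e2 := norm_v6 h' false a y.2 (Away.gn h16 (away_letC hA hz t' y.2))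
    (Away.gn h16 (away_pbC hA hz t' u.2 y.2))
  have b1 : (a == true) = a := by cases a <;> rfl
  have b2 : (a == false) = !a := by cases a <;> rfl
  rw [b1] at e1
  rw [b2] at e2
  show ‖vF6 t u.1 a none (vl (htL t) y.1 - z) * vF6 t' u.2 (!a) none (vl (htL t') y.2 - z)‖ = _
  rw [norm_mul, e1, e2]
  unfold spF dvK6
  rw [Fin.prod_univ_two]
  show _ = spL (lsG (gd6 t u.1 true y.1)) a z * spL (lsG (gd6 t' u.2 false y.2)) a z * _
  ring

theorem dvK6_leC (hA : AwP P lo hi) {z : ℂ} (hz : z ∈ DomPC P lo hi) (t t' : HT)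
    (u : Ch6 × Ch6) (y : ℝ × ℝ) (a : Bool) : dvK6 t t' u y a z ≤ kV6 * kV6 :=
  mul_le_mul (dv6_leC hA hz t u.1 true y.1 a) (dv6_leC hA hz t' u.2 false y.2 a)
    (dv6_pos _ _ _ _ _ _).le kV6_pos.le

theorem dvK6_inv_leC (hA : AwP P lo hi) {z : ℂ} (hz : z ∈ DomPC P lo hi) (t t' : HT)
    (u : Ch6 × Ch6) (y : ℝ × ℝ) (a : Bool) : (dvK6 t t' u y a z)⁻¹ ≤ kV6 * kV6 := by
  unfold dvK6
  rw [mul_inv]
  exact mul_le_mul (dv6_inv_leC hA hz t u.1 true y.1 a) (dv6_inv_leC hA hz t' u.2 false y.2 a)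
    (inv_nonneg.2 (dv6_pos _ _ _ _ _ _).le) kV6_pos.le

/-- the lines of the upper bounds of `Ob6` -/
theorem upL_domC {j : ℝ} (hj : j ∈ upL P) (t : ℝ) : vl ((1 - j) * l) t ∈ DomPC P lo hi := by
  have hr : (vl ((1 - j) * l) t).re = (1 - j) * l := vl_re6 _ _
  unfold upL at hj
  simp only [List.mem_cons, List.not_mem_nil, or_false] at hj
  show _ ∨ _ ∨ _ ∨ _ ∨ _ ∨ _ ∨ _ ∨ _ ∨ _
  rw [hr]
  rcases hj with h | h | h | h | h | h <;> subst h
  · exact Or.inl rfl
  · exact Or.inr (Or.inl (by ring))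
  · exact Or.inr (Or.inr (Or.inl (by ring)))
  · exact Or.inr (Or.inr (Or.inr (Or.inl (by ring))))
  · exact Or.inr (Or.inr (Or.inr (Or.inr (Or.inl (by ring)))))
  · exact Or.inr (Or.inr (Or.inr (Or.inr (Or.inr (Or.inl rfl)))))

/-- the lines of the lower bounds of `Ob6` -/
theorem loL_domC {j : ℝ} (hj : j ∈ loL P) (t : ℝ) : vl ((1 - j) * l) t ∈ DomPC P lo hi := by
  have hr : (vl ((1 - j) * l) t).re = (1 - j) * l := vl_re6 _ _
  unfold loL at hj
  simp only [List.mem_cons, List.not_mem_nil, or_false] at hj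
  show _ ∨ _ ∨ _ ∨ _ ∨ _ ∨ _ ∨ _ ∨ _ ∨ _
  rw [hr]
  rcases hj with h | h | h <;> subst h
  · exact Or.inr (Or.inr (Or.inr (Or.inr (Or.inr (Or.inl rfl)))))
  · exact Or.inr (Or.inr (Or.inr (Or.inr (Or.inr (Or.inr (Or.inl rfl))))))
  · exact Or.inr (Or.inr (Or.inr (Or.inr (Or.inr (Or.inr (Or.inr (Or.inl rfl)))))))

end PLT

end
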