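import Pool.Agent.PLT.KClsC
import Pool.Agent.PLT.ClsC
import Pool.Agent.PLT.GLC
import Pool.Agent.PLT.LetBC

/-!
# Sea on a curve: the choices of the final classes, summed over the numbers, uniform in the heights

* `sFAC`: the sum over the numbers of a choice; `sFAC_le`, `FAC_cst`;
* **`cls_sumC`**, **`cls_lesC`**: a class from its choices; `cls_leDC`: D1, D1';
* **`clsRC`**: the sums over the numbers of all choices of all classes and of D1, D1', constants uniform in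
  the heights and in a family of geometries (prefactor `QRC`).
-/

set_option autoImplicit false
set_option linter.unusedSectionVars false

noncomputable section

open Complex MeasureTheory Finset
open scoped ENNReal

open PLX (Fil Ends)

namespace PLT

open NUO NUP1 NUCR NUP1S NUP1S.Ab NUP1S.AbC NUP1S.AbG NURow NUP1.Leg NUGC.PLX PBX PBX.PLX
open _root_.Pool.Agent.PLX
open PHK PBR.PLX
open PBF.PLX (Ins)
open PBO.PLX (GrpR gnF gnP gnQ phC)
open NUSea.PLX.H0 (Gd IG TG cstF)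
open NUSp (qc)
open NUGC (ex xs QX fr QX_nonneg)

/-! ### the sums over the numbers -/

section sums

/-- **the sum over the numbers of a choice**, moduli -/
def sFAC (X : Bool → Option O3 → ℂ → ℂ) (P : Par6) (e K : ℕ) (t t' : HT) (w w' : ℂ) (u : Ch6 × Ch6)
    (D D1 : Bool → ℝ → ℂ) : ℝ≥0∞ :=
  ∑ n ∈ range (K + 1), if u.1.1.toNat ≤ n + aXv e t t' u ∧ u.2.1.toNat ≤ n + aYv e t t' u then
    FAC (YV6 X t t' w w' u) P (n + aXv e t t' u - u.1.1.toNat) (n + aYv e t t' u - u.2.1.toNat)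
      (fun _ _ => D) (fun _ _ => D1) (fun _ _ _ _ _ => 1) else 0

/-- the shifted sum -/
theorem sFAC_le (X : Bool → Option O3 → ℂ → ℂ) (P : Par6) (e K : ℕ) (t t' : HT) (w w' : ℂ)
    (u : Ch6 × Ch6) (D D1 : Bool → ℝ → ℂ) : sFAC X P e K t t' w w' u D D1 ≤
      ∑ N ∈ range (K + 1), FAC (YV6 X t t' w w' u) P (N + nXv e t t' u) (N + nYv e t t' u)
        (fun _ _ => D) (fun _ _ => D1) (fun _ _ _ _ _ => 1) :=
  sum_pole6 (fun p q => FAC (YV6 X t t' w w' u) P p q (fun _ _ => D) (fun _ _ => D1)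
    (fun _ _ _ _ _ => 1)) (shV6_X e t t' u) (shV6_Y e t t' u) (shV6_0 e t t' u)

/-- a bounded insertion -/
theorem FAC_cst {Z : Bool → Option O3 → ℂ → ℂ} {P : Par6} {n n' : ℕ} {η η' : CrsC} {Ψ : Ins} {c : ℝ}
    (h : ∀ r O a b x, ‖Ψ r O a b x‖ ≤ c) : FAC Z P n n' η η' Ψ ≤
      ENNReal.ofReal c * FAC Z P n n' η η' (fun _ _ _ _ _ => 1) := by
  unfold FAC
  rw [Finset.mul_sum]
  refine Finset.sum_le_sum fun r _ => ?_
  rw [mul_left_comm]
  refine mul_le_mul' le_rfl ?_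
  rw [← lintegral_const_mul' _ _ ENNReal.ofReal_ne_top]
  refine lintegral_mono fun O => ?_
  unfold trAC
  split_ifs with hc
  · rw [mul_left_comm (ENNReal.ofReal c), mul_left_comm (ENNReal.ofReal c)]
    refine mul_le_mul' le_rfl (mul_le_mul' le_rfl ?_)
    rw [← lintegral_const_mul' _ _ ENNReal.ofReal_ne_top]
    refine lintegral_mono fun x => ?_
    rw [mul_left_comm (ENNReal.ofReal c)]
    refine mul_le_mul' le_rfl ?_
    rw [← ofReal_norm, enorm_one, mul_one]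
    exact ENNReal.ofReal_le_ofReal (h _ _ _ _ _)
  · rw [mul_zero]

/-- **the sum over the numbers of a class from those of its choices** -/
theorem cls_sumC {X : Bool → Option O3 → ℂ → ℂ} {P : Par6} {lo hi : ℝ} {e : ℕ} {t t' : HT}
    {w w' : ℂ} {cw : Ch6 × Ch6 → ℝ} {Zn : ℕ → ℂ} (h : ClsVC X P lo hi e t t' w w' cw Zn)
    {D D1 : Bool → ℝ → ℂ} (hη : CurC lo hi D D1) (K : ℕ) : ∑ n ∈ range (K + 1), ‖Zn n‖ₑ ≤
      ∑ u, ENNReal.ofReal (cw u) * sFAC X P e K t t' w w' u D D1 := by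
  unfold sFAC
  simp_rw [Finset.mul_sum]
  rw [Finset.sum_comm]
  refine Finset.sum_le_sum fun n _ => ?_
  obtain ⟨Ψ, hΨ, hn⟩ := h (fun _ _ _ => D) (fun _ _ _ => D1) (fun _ _ _ => hη) n
  rw [hn]
  refine (enorm_sum_le _ _).trans (Finset.sum_le_sum fun u _ => ?_)
  split_ifs
  · exact (FFC_le _).trans (FAC_cst (hΨ u))
  · simp

/-- **the sum over the numbers of a class**, real form -/
theorem cls_lesC {X : Bool → Option O3 → ℂ → ℂ} {P : Par6} {lo hi : ℝ} {e : ℕ} {t t' : HT}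
    {w w' : ℂ} {cw Q : Ch6 × Ch6 → ℝ} {Zn : ℕ → ℂ} (h : ClsVC X P lo hi e t t' w w' cw Zn)
    {D D1 : Bool → ℝ → ℂ} (hη : CurC lo hi D D1) {K : ℕ} (hcw : ∀ u, 0 ≤ cw u) (hQ : ∀ u, 0 ≤ Q u)
    (hs : ∀ u, cw u ≠ 0 → sFAC X P e K t t' w w' u D D1 ≤ ENNReal.ofReal (Q u)) :
    ∑ n ∈ range (K + 1), ‖Zn n‖ ≤ ∑ u, cw u * Q u := by
  have h0 : 0 ≤ ∑ u, cw u * Q u := Finset.sum_nonneg fun u _ => mul_nonneg (hcw u) (hQ u)
  have key : ∑ n ∈ range (K + 1), ‖Zn n‖ₑ ≤ ENNReal.ofReal (∑ u, cw u * Q u) := by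
    refine (cls_sumC h hη K).trans ?_
    rw [ENNReal.ofReal_sum_of_nonneg fun u _ => mul_nonneg (hcw u) (hQ u)]
    refine Finset.sum_le_sum fun u _ => ?_
    rw [ENNReal.ofReal_mul (hcw u)]
    by_cases hu : cw u = 0
    · rw [hu, ENNReal.ofReal_zero, zero_mul, zero_mul]
    · exact mul_le_mul' le_rfl (hs u hu)
  rw [sum_enorm_eq] at key
  exact (ENNReal.ofReal_le_ofReal_iff h0).1 key

/-- **the classes D1, D1'** -/
theorem cls_leDC {X : Bool → Option O3 → ℂ → ℂ} {P : Par6} {lo hi : ℝ} {e : ℕ} {o : Bool} {w : ℂ}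
    {Zn : ℕ → ℂ} (h : ClsDC X P lo hi e o w Zn) {D D1 : Bool → ℝ → ℂ} (hη : CurC lo hi D D1)
    {K : ℕ} {Q : ℝ}
    (hQ : 0 ≤ Q) (hs : ∑ n ∈ range (K + 1), FAC (YD6 X o w) P n (n + e) (fun _ _ => D)
      (fun _ _ => D1) (fun _ _ _ _ _ => 1) ≤ ENNReal.ofReal Q) :
    ∑ n ∈ range (K + 1), ‖Zn n‖ ≤ Q := by
  have key : ∑ n ∈ range (K + 1), ‖Zn n‖ₑ ≤ ENNReal.ofReal Q := by
    refine le_trans (Finset.sum_le_sum fun n _ => ?_) hs
    rw [h (fun _ _ => D) (fun _ _ => D1) (fun _ _ => hη) n]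
    exact FFC_le _
  rw [sum_enorm_eq] at key
  exact (ENNReal.ofReal_le_ofReal_iff hQ).1 key

end sums

variable [Fil] [Ends]

/-- **all choices of all classes, and D1, D1'**: sums over the numbers of quanta, constants uniform in the
heights -/
theorem clsRC {P : Par6} (hP : GoodP6 P) {ι : Type*} [Nonempty ι] (G : ι → GeoC)
    (mN : ι → MNC) (hB : ∀ i m β, ((G i).B m β).Nn)
    (hS : ∀ i : ℕ → ι, StabU P (GeoC.sel G i).en) {C3 : ℝ} (hspec : SpecPinC P C3)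
    (h4 : ∀ i : ℕ → ι × Ix6, S4RC P (GeoC.sel (GLU G mN) i))
    (h1 : ∀ i : ℕ → ι × Ix6, OneRC P (GeoC.sel (GLU G mN) i))
    (h4' : ∀ i : ℕ → ι, S4RC P (GeoC.sel G i)) (h1' : ∀ i : ℕ → ι, OneRC P (GeoC.sel G i))
    {g1 g0 : ℝ} (hg1 : g1 ≤ 1 / 8) (hg0 : g0 ≤ 1 / 5)
    (hA : AwP P (-(3 / 16)) (5 / 16)) (hcv : ∀ i : ℕ → ι, CurG g1 g0 (GeoC.sel G i)) {ρ : ℝ}
    (hρ : 0 < ρ) : ∃ κ0 : ℝ, 0 < κ0 ∧ κ0 ≤ 1 / 100 ∧
      ∀ ep : ℝ, 0 < ep → ep ≤ κ0 → ∀ e1 : ℝ, 0 < e1 → e1 ≤ κ0 →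
      ∀ J : ℝ, 0 ≤ J → Real.exp (-(2 * Real.pi * J)) ≤ κ0 →
      ∃ Cst : ℝ, 0 ≤ Cst ∧ ∃ m0 : ℕ, ∀ m ≥ m0, ∀ i,
        CurC (-(g1 + ep / 4)) (g0 + ep / 4) ((G i).D e1 J m) ((G i).D1 e1 J m) ∧
        ∀ (X : Bool → Option O3 → ℂ → ℂ) (ob : (Bool → ℂ → ℝ) → OB) (κ : ℝ) (E0 : Set ℝ),
        BsC X ob P (-(g1 + ep / 4)) (g0 + ep / 4) κ (Fil.xe m) E0 →
        (∀ g, ob g = ((G i).B m (4 / 3 * (1 - ep))).mul g) →
        (∀ (t t' : HT) (u : Ch6 × Ch6), okC6 t u.1 → okC6 t' u.2 → ∀ y : ℝ × ℝ,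
          sFAC X P (Fil.xe m) (2 * m) t t' (vl (htL t) y.1) (vl (htL t') y.2) u
            ((G i).D e1 J m) ((G i).D1 e1 J m) ≤
          ENNReal.ofReal (QRC (mN i) (G i).MF ep e1 J m (Cst * (m : ℝ) ^ ρ * Real.exp ((G i).EM m))
            t t' y u)) ∧
        (∀ (o : Bool) (y : ℝ), ∑ n ∈ range (2 * m + 1),
          FAC (YD6 X o (vl (-(11 / 4) * l) y)) P n (n + Fil.xe m) (fun _ _ => (G i).D e1 J m)
            (fun _ _ => (G i).D1 e1 J m) (fun _ _ _ _ _ => 1) ≤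
          ENNReal.ofReal (PBQ.PLX.QGD (G i).MF m ep e1 J
            (Cst * (m : ℝ) ^ ρ * Real.exp ((G i).EM m)) o y)) := by
  have : Nonempty Ix6 := ⟨((.W, .W), ((false, false), (false, false)), (0, 0))⟩
  obtain ⟨κ1, hκ1, hκ1', hcls⟩ := clsKUC hP (GLU G mN) (fun i => GLC_nn (mN i.1) (hB i.1) i.2)
    (fun i => hS fun m => (i m).1) hspec h4 h1 (fun i => hcv fun m => (i m).1) hρ
  obtain ⟨κ2, hκ2, hκ2', hclD⟩ := clsKUC hP G hB hS hspec h4' h1' hcv hρ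
  obtain ⟨K2, hK2, hgr⟩ := grpR_pair6
  obtain ⟨K1, hK1, hgr1⟩ := grpR_one6
  refine ⟨min κ1 κ2, lt_min hκ1 hκ2, (min_le_left _ _).trans hκ1', ?_⟩
  intro ep hep hep1 e1 he1 he11 J hJ hJ1
  obtain ⟨C1, hC1, m1, hcls⟩ := hcls ep hep (hep1.trans (min_le_left _ _)) e1 he1
    (he11.trans (min_le_left _ _)) J hJ (hJ1.trans (min_le_left _ _))
  obtain ⟨C2, hC2, m2, hclD⟩ := hclD ep hep (hep1.trans (min_le_right _ _)) e1 he1
    (he11.trans (min_le_right _ _)) J hJ (hJ1.trans (min_le_right _ _))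
  have b1 : ep ≤ 1 / 100 := (hep1.trans (min_le_left _ _)).trans hκ1'
  have c1 : e1 ≤ 1 / 100 := (he11.trans (min_le_left _ _)).trans hκ1'
  obtain ⟨m3, hcur⟩ := curGU_of hcv ep hep b1 e1 he1 c1 J hJ
  refine ⟨(C1 + C2) * Real.exp (K1 + K2), by positivity, max m1 (max m2 m3), fun m hm => ?_⟩
  have hM1 : m1 ≤ m := (le_max_left _ _).trans hm
  have hM2 : m2 ≤ m := ((le_max_left _ _).trans (le_max_right _ _)).trans hm
  have hM3 : m3 ≤ m := ((le_max_right _ _).trans (le_max_right _ _)).trans hm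
  have hm0 : (0 : ℝ) ≤ m := Nat.cast_nonneg m
  refine fun i => ⟨hcur m hM3 i, fun X ob κ E0 hX hob => ⟨fun t t' u h h' y => ?_,
    fun o y => ?_⟩⟩
  · -- the classes
    obtain ⟨a1, a2, a3, a4⟩ := aXY_V6 (Fil.xe m) h h'
    have hq := a4.trans (sum_qc6 h h' y).symm
    have hG := hgr ep e1 hep.le he1.le m (gdK6 t t' u y) rfl rfl (by
      intro i
      fin_cases i
      · exact bc6_ne t u.1
      · exact bc6_ne t' u.2) _ _ a1 a2 a3 hq
    have hone := cls_oneVC (by linarith) hX h h' (w := vl (htL t) y.1) (w' := vl (htL t') y.2)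
      (vl_re' _ _) (vl_re' _ _)
    have key := hcls m hM1 (i, (t, t'), u, y) 2 (gdK6 t t' u y) _ _ _ _ _ hG _ _ _ _ _ _ hone
      (DomPC P (-(g1 + ep / 4)) (g0 + ep / 4)) (domPC P _ _) (fun a z hz => by
        unfold obV6
        rw [hob]
        show ((G i).B m (4 / 3 * (1 - ep))).R a z * dvK6 t t' u y a z * spF (gdK6 t t' u y) a z =
          ((G i).B m (4 / 3 * (1 - ep))).R a z *
            ‖sG (vF6 t u.1) (vF6 t' u.2) (vl (htL t) y.1) (vl (htL t') y.2) a z‖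
        rw [obV_eqC (hA.sub (by linarith) (by linarith)) hz h h' y a]
        ring) (by
        unfold obV6
        rw [hob]
        rfl) (by
        unfold obV6
        rw [hob]
        rfl)
    refine (sFAC_le _ _ _ _ _ _ _ _ _ _ _).trans (key.trans (ENNReal.ofReal_le_ofReal ?_))
    have hF : (if ∀ i, |(gdK6 t t' u y i).τ| ≤ TW ep e1 m then (1 : ℝ) else
        Real.exp (Real.log m / 2)) = fr (TW ep e1 m) (Real.log m) y := by
      unfold NUGC.fr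
      by_cases hc : |y.1| ≤ TW ep e1 m ∧ |y.2| ≤ TW ep e1 m
      · rw [if_pos hc, if_pos (Fin.forall_fin_two.2 hc)]
      · rw [if_neg hc, if_neg fun hc' => hc (Fin.forall_fin_two.1 hc')]
    have hMF : ∑ j, (GLU G mN (i, (t, t'), u, y)).MF m (gdK6 t t' u y j).σ (gdK6 t t' u y j).c
        (gdK6 t t' u y j).w = (G i).MF m true (bc6 t u.1) (pb6 t u.1 y.1) +
          (G i).MF m false (bc6 t' u.2) (pb6 t' u.2 y.2) := by
      rw [Fin.sum_univ_two]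
      rfl
    have hgn : gnF e1 J m (gdK6 t t' u y) = gnP e1 J m (ph6 t u.1) (ph6 t' u.2) y := by
      unfold PBO.PLX.gnF PBO.PLX.gnP
      rw [Fin.sum_univ_two]
      show 12 * NUMF.l * NUGC.PLX.hC e1 J m 0 + (2 * (ph6 t u.1 * NUGC.PLX.hC e1 J m y.1) +
        2 * (ph6 t' u.2 * NUGC.PLX.hC e1 J m y.2)) = _
      ring
    rw [hF, hMF, hgn]
    have hEM : (GLU G mN (i, (t, t'), u, y)).EM m =
      (G i).EM m + (mN i m true t u.1 y.1 + mN i m false t' u.2 y.2) := rfl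
    rw [hEM]
    unfold QRC PBQ.PLX.QP MEC
    have hQX : QX (TW ep e1 m) (qc (gdK6 t t' u y 0).c) (qc (gdK6 t t' u y 1).c)
        (gdK6 t t' u y 0).τ (gdK6 t t' u y 1).τ =
        QX (TW ep e1 m) (qh6 t u.1) (qh6 t' u.2) y.1 y.2 := rfl
    rw [hQX]
    have f0 := NUGC.PLX.fr_nonneg (TW ep e1 m) (Real.log m) y
    have q0 := QX_nonneg (TW ep e1 m) (qh6 t u.1) (qh6 t' u.2) y.1 y.2
    obtain ⟨f, hf⟩ : ∃ f, f = fr (TW ep e1 m) (Real.log m) y := ⟨_, rfl⟩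
    obtain ⟨qx, hqx⟩ : ∃ qx, qx = QX (TW ep e1 m) (qh6 t u.1) (qh6 t' u.2) y.1 y.2 := ⟨_, rfl⟩
    obtain ⟨gn, hgn'⟩ : ∃ gn, gn = Real.exp (-gnP e1 J m (ph6 t u.1) (ph6 t' u.2) y) := ⟨_, rfl⟩
    obtain ⟨n1, hn1⟩ : ∃ n1, n1 = mN i m true t u.1 y.1 := ⟨_, rfl⟩
    obtain ⟨n2, hn2⟩ : ∃ n2, n2 = mN i m false t' u.2 y.2 := ⟨_, rfl⟩
    obtain ⟨M1, hM1'⟩ : ∃ M1, M1 = (G i).MF m true (bc6 t u.1) (pb6 t u.1 y.1) := ⟨_, rfl⟩
    obtain ⟨M2, hM2'⟩ : ∃ M2, M2 = (G i).MF m false (bc6 t' u.2) (pb6 t' u.2 y.2) := ⟨_, rfl⟩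
    obtain ⟨p, hp⟩ : ∃ p, p = (m : ℝ) ^ ρ := ⟨_, rfl⟩
    have hp0 : 0 ≤ p := by rw [hp]; positivity
    have hgn0 : 0 ≤ gn := by rw [hgn']; exact (Real.exp_pos _).le
    rw [← hf] at f0
    rw [← hqx] at q0
    rw [← hf, ← hqx, ← hgn', ← hn1, ← hn2, ← hM1', ← hM2', ← hp]
    have hc : C1 * Real.exp K2 ≤ (C1 + C2) * Real.exp (K1 + K2) :=
      mul_le_mul (by linarith) (Real.exp_le_exp.2 (by linarith)) (Real.exp_pos _).le (by linarith)
    have e1' : Real.exp ((G i).EM m + (n1 + n2)) * Real.exp (M1 + M2) =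
        Real.exp ((G i).EM m) * (Real.exp (n1 + M1) * Real.exp (n2 + M2)) := by
      rw [← Real.exp_add, ← Real.exp_add, ← Real.exp_add]
      congr 1
      ring
    calc C1 * p * Real.exp ((G i).EM m + (n1 + n2)) * Real.exp (M1 + M2) * f * gn *
          (Real.exp K2 * qx)
        = (C1 * Real.exp K2) * (p * (Real.exp ((G i).EM m + (n1 + n2)) * Real.exp (M1 + M2)) * f * gn *
          qx) := by ring
      _ = (C1 * Real.exp K2) * (p * (Real.exp ((G i).EM m) * (Real.exp (n1 + M1) *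
          Real.exp (n2 + M2))) * f * gn * qx) := by rw [e1']
      _ ≤ ((C1 + C2) * Real.exp (K1 + K2)) * (p * (Real.exp ((G i).EM m) * (Real.exp (n1 + M1) *
          Real.exp (n2 + M2))) * f * gn * qx) := mul_le_mul_of_nonneg_right hc (by positivity)
      _ = _ := by
          rw [hn1, hn2, hM1', hM2']
          ring
  · -- D1, D1'
    have hG := hgr1 ep e1 m o y
    have hone := cls_oneDC (by linarith) hX o (w := vl (-(11 / 4) * l) y) (vl_re' _ _)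
    have key := hclD m hM2 i 1 (gdD o y) _ _ _ _ _ hG _ _ _ _ _ _ hone
      (DomPC P (-(g1 + ep / 4)) (g0 + ep / 4)) (domPC P _ _) (fun a z hz => by
        unfold obDB
        rw [hob]
        show ((G i).B m (4 / 3 * (1 - ep))).R a z * spF (gdD o y) a z =
          ((G i).B m (4 / 3 * (1 - ep))).R a z *
            ‖SD (if o then a else !a) none (vl (-(11 / 4) * l) y - z)‖
        rw [norm_SD_lw o a y (Away.gn (by norm_num)
          (away_domC (hA.sub (by linarith) (by linarith)) hz (Or.inr (Or.inl rfl)) y))]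
        congr 1
        unfold spF
        rw [Fin.prod_univ_one]
        rfl) (by
        unfold obDB
        rw [hob]
        rfl) (by
        unfold obDB
        rw [hob]
        rfl)
    have e0 : ∑ n ∈ range (2 * m + 1),
        FAC (YD6 X o (vl (-(11 / 4) * l) y)) P n (n + Fil.xe m) (fun _ _ => (G i).D e1 J m)
          (fun _ _ => (G i).D1 e1 J m) (fun _ _ _ _ _ => 1) = ∑ n ∈ range (2 * m + 1),
        FAC (YD6 X o (vl (-(11 / 4) * l) y)) P (n + 0) (n + Fil.xe m)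
          (fun _ _ => (G i).D e1 J m) (fun _ _ => (G i).D1 e1 J m) (fun _ _ _ _ _ => 1) := rfl
    rw [e0]
    refine key.trans (ENNReal.ofReal_le_ofReal ?_)
    have hF : (if ∀ i, |(gdD o y i).τ| ≤ TW ep e1 m then (1 : ℝ) else
        Real.exp (Real.log m / 2)) =
        if |y| ≤ TW ep e1 m then 1 else Real.exp (Real.log m / 2) := by
      by_cases hc : |y| ≤ TW ep e1 m
      · rw [if_pos hc, if_pos (Fin.forall_fin_one.2 hc)]
      · rw [if_neg hc, if_neg fun hc' => hc (Fin.forall_fin_one.1 hc')]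
    have hMF : ∑ j, (G i).MF m (gdD o y j).σ (gdD o y j).c (gdD o y j).w =
        (G i).MF m (!o) .d (vl (-(11 / 4) * l) y) := by
      rw [Fin.sum_univ_one]
      rfl
    have hgn : gnF e1 J m (gdD o y) = gnQ e1 J m (2 * l) y := by
      unfold PBO.PLX.gnF PBO.PLX.gnQ
      rw [Fin.sum_univ_one]
      rfl
    rw [hF, hMF, hgn]
    unfold PBQ.PLX.QGD PBQ.PLX.QD
    obtain ⟨f, hf⟩ : ∃ f : ℝ, f = if |y| ≤ TW ep e1 m then 1 else Real.exp (Real.log m / 2) :=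
      ⟨_, rfl⟩
    have f0 : 0 ≤ f := by
      rw [hf]
      split_ifs
      · exact zero_le_one
      · exact (Real.exp_pos _).le
    obtain ⟨E1, hE1⟩ : ∃ E1, E1 = Real.exp ((G i).MF m (!o) .d (vl (-(11 / 4) * l) y)) := ⟨_, rfl⟩
    obtain ⟨E2, hE2⟩ : ∃ E2, E2 = Real.exp (37 / 20 * xs (TW ep e1 m) y) := ⟨_, rfl⟩
    obtain ⟨gn, hgn'⟩ : ∃ gn, gn = Real.exp (-gnQ e1 J m (2 * l) y) := ⟨_, rfl⟩
    obtain ⟨p, hp⟩ : ∃ p, p = (m : ℝ) ^ ρ := ⟨_, rfl⟩
    have hp0 : 0 ≤ p := by rw [hp]; positivity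
    have hE10 : 0 ≤ E1 := by rw [hE1]; exact (Real.exp_pos _).le
    have hE20 : 0 ≤ E2 := by rw [hE2]; exact (Real.exp_pos _).le
    have hgn0 : 0 ≤ gn := by rw [hgn']; exact (Real.exp_pos _).le
    rw [← hf, ← hE1, ← hE2, ← hgn', ← hp]
    have hc : C2 * Real.exp K1 ≤ (C1 + C2) * Real.exp (K1 + K2) :=
      mul_le_mul (by linarith) (Real.exp_le_exp.2 (by linarith)) (Real.exp_pos _).le (by linarith)
    calc C2 * p * Real.exp ((G i).EM m) * E1 * f * gn * (Real.exp K1 * E2)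
        = (C2 * Real.exp K1) * (p * Real.exp ((G i).EM m) * E1 * f * gn * E2) := by ring
      _ ≤ ((C1 + C2) * Real.exp (K1 + K2)) * (p * Real.exp ((G i).EM m) * E1 * f * gn * E2) :=
          mul_le_mul_of_nonneg_right hc (by positivity)
      _ = _ := by ring

end PLT

end
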