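import Pool.Agent.PLT.GeoC

/-!
# Sea on a curve: the tilted bound of one configuration with groups of spectators

* `PerGXC`, **`perX_ofRC`**: the bound on the curves of the geometry from `StabU`, `SpecPinC`, `S4RC`, `OneRC`;
* `PerGRC`, **`perG_ofRC`**: the existential form (with `CurG`).
-/

set_option autoImplicit false
set_option linter.unusedSectionVars false

noncomputable section

open MeasureTheory Finset
open scoped ENNReal

open PLX (Fil Ends)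

namespace PLT

open PHK PBO.PLX
open NUGC NUGC.PLX
open NUO NUP1 NUStabP NUDispW
open NUC43 (sg)
open NUSea.PLX.H0 (Gd IG TG cstF)
open NUSp (kG spo qc)

/-- charges of the objects -/
theorem sum_kqC {r : ℕ} {O : Fin r → Xo} : ∑ i, NUC43.sg (NUO.sp (O i)) * kq6 (k6 (O i)) =
    (chgO6 O true : ℝ) - chgO6 O false := by
  have h1 : ∀ x : Xo, NUC43.sg (NUO.sp x) * kq6 (k6 x) = (chg6 true x : ℝ) - chg6 false x := by
    intro x
    unfold chg6
    generalize k6 x = K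
    generalize NUO.sp x = c
    cases K <;> cases c <;> simp [NUC43.sg, kq6] <;> norm_num
  unfold chgO6
  push_cast
  rw [← Finset.sum_sub_distrib]
  exact Finset.sum_congr rfl fun i _ => h1 (O i)

variable [Fil] [Ends]

/-- **the tilted bounds for a family of groups** on the curves of the geometry -/
def PerGXC (P : Par6) (G : GeoC) (C c b : ℝ) (k : ℕ) (c1 Ca : ℝ) : Prop :=
  ∀ ep : ℝ, 0 < ep → ep ≤ 1 / 100 → ∀ e1 : ℝ, 0 < e1 → e1 ≤ 1 / 100 → ∀ J : ℝ, 0 ≤ J →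
    ∀ δ : ℝ, 0 < δ → ∃ d Cst : ℝ, 0 < d ∧ 0 ≤ Cst ∧ ∃ m0 : ℕ, ∀ m ≥ m0,
      ∀ (n : ℕ) (g : Fin n → Gd) (aX aY : ℕ) (ν E Qe : ℝ), n ≤ 2 →
        (∀ i j, i ≠ j → (g i).σ ≠ (g j).σ) → aX ≤ 3 → aY ≤ Fil.xe m + 3 →
        Fil.xe m ≤ aY + 3 →
        (aX : ℝ) + Fil.xe m - aY = -∑ i, NUC43.sg (g i).σ * qc (g i).c / 2 →
        |ν - m| ≤ 2 → 0 ≤ E →
        (∀ i, (g i).c = .w ∨ (g i).c = .d ∨ |(g i).τ| ≤ TW ep e1 m + E) → 0 ≤ Qe →
        (∀ T1, TW ep e1 m + E ≤ T1 → ∃ x, 0 ≤ x ∧ (∀ i, NUSp.exc T1 (g i).τ ≤ x) ∧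
          Real.exp (enQ g ((aX : ℝ) + Fil.xe m - aY) E x T1) ≤ Qe) →
        ∀ N ≤ 2 * m, ∀ b' : ℝ, b' = d ∨ b' = -d → ∀ r ≤ 2 * (2 * N + (aX + aY)),
          ∀ (O : Fin r → Xo) (W : Finset ℤ),
          ENNReal.ofReal (Real.exp (b' * (ν - N))) *
            FncC ((G.B m (4 / 3 * (1 - ep))).mul (spF g)) P (G.D e1 J m) (G.D1 e1 J m)
              (N + aX) (N + aY) O ≤
          ENNReal.ofReal (PfR6 G.toGeo Ca ep e1 J δ Cst m g Qe *
            (if (r : ℝ) ≤ Real.log m then 1 else Real.exp (0 * Real.log m)) *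
            (∏ i, act C 1 c b k (Real.log m) ep e1 J r (ht (O i))) *
            Real.exp (-(c1 * ∑ w ∈ W, (cO O w : ℝ) ^ 2)))

/-- **the tilted bounds for a family of groups** -/
def PerGRC (P : Par6) (G : GeoC) (h1 h0 C c b : ℝ) (k : ℕ) (c1 Ca : ℝ) : Prop :=
  ∀ ep : ℝ, 0 < ep → ep ≤ 1 / 100 → ∀ e1 : ℝ, 0 < e1 → e1 ≤ 1 / 100 → ∀ J : ℝ, 0 ≤ J →
    ∀ δ : ℝ, 0 < δ → ∃ d Cst : ℝ, 0 < d ∧ 0 ≤ Cst ∧ ∃ m0 : ℕ, ∀ m ≥ m0,
      ∀ (n : ℕ) (g : Fin n → Gd) (aX aY : ℕ) (ν E Qe : ℝ), n ≤ 2 →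
        (∀ i j, i ≠ j → (g i).σ ≠ (g j).σ) → aX ≤ 3 → aY ≤ Fil.xe m + 3 →
        Fil.xe m ≤ aY + 3 →
        (aX : ℝ) + Fil.xe m - aY = -∑ i, NUC43.sg (g i).σ * qc (g i).c / 2 →
        |ν - m| ≤ 2 → 0 ≤ E →
        (∀ i, (g i).c = .w ∨ (g i).c = .d ∨ |(g i).τ| ≤ TW ep e1 m + E) → 0 ≤ Qe →
        (∀ T1, TW ep e1 m + E ≤ T1 → ∃ x, 0 ≤ x ∧ (∀ i, NUSp.exc T1 (g i).τ ≤ x) ∧
          Real.exp (enQ g ((aX : ℝ) + Fil.xe m - aY) E x T1) ≤ Qe) →
        PerCofC C 1 c b k c1 0 (Real.log m) ep e1 J ν d (2 * m)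
          (-(h1 + ep / 4)) (h0 + ep / 4)
          ((G.B m (4 / 3 * (1 - ep))).mul (spF g)) P aX aY
          (PfR6 G.toGeo Ca ep e1 J δ Cst m g Qe)

/-- **the tilted bounds on the explicit curves** from the stability bound, `S4RC` and `OneRC` -/
theorem perX_ofRC {P : Par6} (hP : GoodP6 P) {G : GeoC} (hB : ∀ m β, (G.B m β).Nn)
    (hS : StabU P G.en) {C3 : ℝ} (hspec : SpecPinC P C3) (h4 : S4RC P G) (h1 : OneRC P G) :
    ∃ (C c b c1 Ca : ℝ) (k : ℕ), 0 < C ∧ 0 < c ∧ 0 < b ∧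
    0 < c1 ∧ 0 ≤ Ca ∧ PerGXC P G C c b k c1 Ca := by
  obtain ⟨C2, c1, hc1, hstab⟩ := hS
  obtain ⟨K, Ca, hK, hCa, h4⟩ := h4
  obtain ⟨aS', c2, τ, haS', hc2, h1⟩ := h1
  obtain ⟨K', K6, hK6, hasm⟩ := asm6 hP (c2 := c2) (aS := aS') (τ := τ) (c1 := c1) C2 K
    (Real.log (max C3 1)) haS' hc2 hc1
  obtain ⟨C, c, hC, hc, hone⟩ := h1 K'
  have hK60 : 0 < K6 := by linarith
  refine ⟨C * K6, c, 1 / 10, c1 / 4, Ca, 6 + 1, by positivity, hc, by norm_num, by positivity,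
    hCa, ?_⟩
  intro ep hep hep1 e1 he1 he11 J hJ δ hδ
  obtain ⟨d, Cst, hd, hCst, M0, h4⟩ :=
    h4 (c1 / 4) (by positivity) ep hep hep1 e1 he1 he11 J hJ δ hδ
  obtain ⟨m2, hone⟩ := hone ep hep hep1 e1 he1 he11 J hJ
  refine ⟨d, K6 * Cst, hd, by positivity, max (max M0 m2) 3, ?_⟩
  intro m hM n g aX aY ν E Qe hn hσ haX haY haY' hq hν hE hcE hQe hpin N hN b' hb' r hr O W
  have hM0 : M0 ≤ m := ((le_max_left _ _).trans (le_max_left _ _)).trans hM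
  have hM1 : m2 ≤ m := ((le_max_right _ _).trans (le_max_left _ _)).trans hM
  have hM3 : 3 ≤ m := (le_max_right _ _).trans hM
  have hL1 : 1 ≤ Real.log m := by
    rw [Real.le_log_iff_exp_le (by positivity)]
    have h3 : (3 : ℝ) ≤ m := by exact_mod_cast hM3
    exact (Real.exp_one_lt_d9.le.trans (by norm_num)).trans h3
  unfold FncC
  by_cases hchg : chgO6 O true ≤ (N + aX : ℕ) ∧ chgO6 O false ≤ (N + aY : ℕ) ∧ cnt6 O
  swap
  · rw [if_neg hchg, mul_zero]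
    exact zero_le
  rw [if_pos hchg]
  -- the end of the window
  obtain ⟨T1, hT1⟩ : ∃ T1, T1 = T1R ep e1 m O E := ⟨_, rfl⟩
  have hexc0 := excS_nonneg (TW ep e1 m) O
  have hT1E : TW ep e1 m + E ≤ T1 := by
    rw [hT1]
    unfold T1R
    linarith [le_max_right (excS (TW ep e1 m) O) E]
  have hT1O : ∀ i, |ht (O i)| ≤ T1 := by
    intro i
    have h1 := excS_ge (TW ep e1 m) O i
    have h2 := le_max_left (excS (TW ep e1 m) O) E
    rw [hT1]
    unfold T1R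
    linarith
  obtain ⟨x, hx0, hx, hQ⟩ := hpin T1 hT1E
  have hR : RgR6 ep e1 m g aX aY ν N O E x :=
    ⟨hn, hσ, haX, haY, haY', hq, hν, hN, hr, hchg.1, hchg.2.1, hchg.2.2, hE, hcE, hx0, fun i => by
      rw [← hT1]
      exact hx i⟩
  have h5 := h4 m hM0 n g aX aY ν N b' r O E x hb' hR
  rw [← hT1] at h5
  unfold PfR6
  obtain ⟨F, hF⟩ : ∃ F : ℝ, F = if ∀ i, |(g i).τ| ≤ TW ep e1 m then 1 else
    Real.exp (Real.log m / 2) := ⟨_, rfl⟩
  rw [← hF] at h5 ⊢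
  have hF0 : 0 ≤ F := by
    rw [hF]
    split_ifs
    · exact zero_le_one
    · exact (Real.exp_pos _).le
  obtain ⟨gn, hgn⟩ : ∃ gn : ℝ, gn = Real.exp (-gnF e1 J m g) := ⟨_, rfl⟩
  rw [← hgn] at h5 ⊢
  have hgn0 : 0 ≤ gn := by
    rw [hgn]
    exact (Real.exp_pos _).le
  obtain ⟨mp, hmp⟩ : ∃ mp, mp = (m : ℝ) ^ (Ca * (ep + e1) + δ) := ⟨_, rfl⟩
  rw [← hmp] at h5 ⊢
  have hmp0 : 0 ≤ mp := by
    rw [hmp]
    positivity
  -- the numbers
  have hpq : (((nA6 (N + aX) O true : ℕ) : ℝ) - ((nA6 (N + aY) O false : ℕ) : ℝ)) +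
      Fil.xe m = ((aX : ℝ) + Fil.xe m - aY) - ∑ i, sg (NUO.sp (O i)) * kq6 (k6 (O i)) := by
    rw [sum_kqC, cast_nA6 hchg.1, cast_nA6 hchg.2.1]
    push_cast
    ring
  obtain ⟨EE, hEE⟩ : ∃ EE, EE = 1 / 2 * (∑ d, ∑ d', ES (TG (fun i => (g i).pin T1) d)
    (TG (fun i => (g i).pin T1) d')) := ⟨_, rfl⟩
  obtain ⟨ct, hct⟩ : ∃ ct, ct = cstF T1 g true := ⟨_, rfl⟩
  set es : Fin r → ℝ := fun i => ∑ d, ES (obSr6 P (O i))
    (TG (fun i => (g i).pin T1) d) - ct * (sg (NUO.sp (O i)) * kq6 (k6 (O i))) with hes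
  have henG : enRC P m g O T1 (nA6 (N + aX) O true) (nA6 (N + aY) O false) =
      ∑ i, es i + (EE + ct * ((aX : ℝ) + Fil.xe m - aY)) := by
    unfold enRC
    rw [hpq, hes, sum_sub_distrib, ← mul_sum, ← hEE, ← hct]
    ring
  set B : ℝ := prefR G.toGeo m g E x Cst * mp * F * gn *
    Real.exp (EE + ct * ((aX : ℝ) + Fil.xe m - aY)) with hBd
  have hB0 : 0 ≤ B := by
    have := prefR_nonneg (G := G.toGeo) (m := m) (g := g) (E := E) (x := x) hCst
    positivity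
  -- the algebra
  have key := hasm C c 6 (Real.log m) ep e1 J r O W
    (fun i => ob6 (G.B m (4 / 3 * (1 - ep))) P (O i))
    (fun i => facL6 (spF g) (parts6 P (O i)))
    (fun i => G.one m ep e1 J r O i) es
    (∏ i, ∏ j, if i < j then pairN6 P O i j else 1) (G.en m r O) B (c1 / 4) hC.le hL1
    (fun i => ob6_nonneg (hB _ _) _ _) (fun i => facL6_nonneg (spFR_nonneg g) _) hB0 le_rfl
    (fun W => hstab m r O W)
    (fun i => by
      have h := hspec (O i) T1 (hT1O i) n g hn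
      rw [Real.exp_log (lt_of_lt_of_le one_pos (le_max_right _ _)), hes]
      rw [← hct] at h
      exact h.trans (le_max_left _ _))
    (fun i => hone m hM1 r O i)
  -- the weight of the objects
  have hobj : objWc6 ((G.B m (4 / 3 * (1 - ep))).mul (spF g)) P O =
      ((∏ i, ob6 (G.B m (4 / 3 * (1 - ep))) P (O i)) *
        ∏ i, facL6 (spF g) (parts6 P (O i))) * (∏ i, loc6 (gH6 P O) P (O i)) *
        ∏ i, ∏ j, if i < j then pairN6 P O i j else 1 := by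
    unfold objWc6
    rw [prod_ob6_mul]
    rfl
  have hobjn : 0 ≤ objWc6 ((G.B m (4 / 3 * (1 - ep))).mul (spF g)) P O := by
    rw [hobj]
    refine mul_nonneg (mul_nonneg (mul_nonneg (prod_nonneg fun i _ => ob6_nonneg (hB _ _) _ _)
      (prod_nonneg fun i _ => facL6_nonneg (spFR_nonneg g) _))
      (prod_nonneg fun i _ => loc6_nonneg _ _ _)) ?_
    refine prod_nonneg fun i _ => prod_nonneg fun j _ => ?_
    split_ifs
    · exact pairN6_nonneg _ _ _ _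
    · exact zero_le_one
  have hexp : prefR G.toGeo m g E x Cst * mp * F * gn * Real.exp (confRC G m ep e1 J K (c1 / 4) O +
      enRC P m g O T1 (nA6 (N + aX) O true) (nA6 (N + aY) O false)) =
      B * Real.exp (∑ i, G.one m ep e1 J r O i + ∑ i, es i + K * r + G.en m r O +
        c1 / 4 * win univ fun i => ht (O i)) := by
    rw [henG, hBd, mul_assoc _ (Real.exp _) (Real.exp _), ← Real.exp_add]
    congr 2
    unfold confRC
    ring
  rw [hexp] at h5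
  -- the prefactor
  have hBQ : K6 * B ≤ K6 * Cst * Real.exp (G.EM m) * mp *
      Real.exp (∑ i, G.MF m (g i).σ (g i).c (g i).w) * F * gn * Qe := by
    have e1 : K6 * B = K6 * Cst * Real.exp (G.EM m) * mp *
        Real.exp (∑ i, G.MF m (g i).σ (g i).c (g i).w) * F * gn *
        Real.exp (enQ g ((aX : ℝ) + Fil.xe m - aY) E x T1) := by
      rw [hBd]
      unfold prefR enQ
      rw [← hEE, ← hct, Real.exp_add (EE + ct * ((aX : ℝ) + Fil.xe m - aY))]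
      ring
    rw [e1]
    refine mul_le_mul_of_nonneg_left hQ ?_
    positivity
  have hact0 : 0 ≤ ∏ i, act (C * K6) 1 c (1 / 10) (6 + 1) (Real.log m) ep e1 J r (ht (O i)) :=
    prod_nonneg fun i _ => act_nonneg (by positivity) zero_le_one (by linarith)
  have hlast : K6 * B * (∏ i, act (C * K6) 1 c (1 / 10) (6 + 1) (Real.log m) ep e1 J r
      (ht (O i))) * Real.exp (-(c1 / 4 * ∑ w ∈ W, (cnt (fun i => ht (O i)) w : ℝ) ^ 2)) ≤
      K6 * Cst * Real.exp (G.EM m) * mp *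
        Real.exp (∑ i, G.MF m (g i).σ (g i).c (g i).w) * F * gn * Qe *
        (if (r : ℝ) ≤ Real.log m then 1 else Real.exp (0 * Real.log m)) *
        (∏ i, act (C * K6) 1 c (1 / 10) (6 + 1) (Real.log m) ep e1 J r (ht (O i))) *
        Real.exp (-(c1 / 4 * ∑ w ∈ W, (cO O w : ℝ) ^ 2)) := by
    have g3 : ∀ w, cO O w = cnt (fun i => ht (O i)) w := fun w => rfl
    have g4 : (if (r : ℝ) ≤ Real.log m then (1 : ℝ) else Real.exp (0 * Real.log m)) = 1 := by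
      split_ifs
      · rfl
      · rw [zero_mul, Real.exp_zero]
    simp only [g3]
    rw [g4, mul_one]
    refine mul_le_mul_of_nonneg_right ?_ (Real.exp_pos _).le
    exact mul_le_mul_of_nonneg_right hBQ hact0
  calc ENNReal.ofReal (Real.exp (b' * (ν - N))) *
        (ENNReal.ofReal (objWc6 ((G.B m (4 / 3 * (1 - ep))).mul (spF g)) P O) *
          Z1C ((G.B m (4 / 3 * (1 - ep))).mul (spF g)) P (G.D e1 J m)
            (G.D1 e1 J m) O (nA6 (N + aX) O true) (nA6 (N + aY) O false))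
      = ENNReal.ofReal (objWc6 ((G.B m (4 / 3 * (1 - ep))).mul (spF g)) P O) *
        lhsRC P G ep e1 J m g aX aY ν N b' O := by
        unfold lhsRC
        ring
    _ ≤ ENNReal.ofReal (objWc6 ((G.B m (4 / 3 * (1 - ep))).mul (spF g)) P O) *
        ENNReal.ofReal (B * Real.exp (∑ i, G.one m ep e1 J r O i + ∑ i, es i + K * r +
          G.en m r O + c1 / 4 * win univ fun i => ht (O i))) := mul_le_mul_right h5 _
    _ = ENNReal.ofReal (objWc6 ((G.B m (4 / 3 * (1 - ep))).mul (spF g)) P O *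
        (B * Real.exp (∑ i, G.one m ep e1 J r O i + ∑ i, es i + K * r +
          G.en m r O + c1 / 4 * win univ fun i => ht (O i)))) :=
        (ENNReal.ofReal_mul hobjn).symm
    _ ≤ ENNReal.ofReal (K6 * B * (∏ i, act (C * K6) 1 c (1 / 10) (6 + 1) (Real.log m) ep e1 J r
          (ht (O i))) *
        Real.exp (-(c1 / 4 * ∑ w ∈ W, (cnt (fun i => ht (O i)) w : ℝ) ^ 2))) := by
        refine ENNReal.ofReal_le_ofReal ?_
        rw [hobj]
        exact key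
    _ ≤ _ := ENNReal.ofReal_le_ofReal hlast

/-- **the tilted bounds for a family of groups** from the stability bound, `S4RC` and `OneRC` -/
theorem perG_ofRC {P : Par6} (hP : GoodP6 P) {G : GeoC} (hB : ∀ m β, (G.B m β).Nn)
    (hS : StabU P G.en) {C3 : ℝ} (hspec : SpecPinC P C3) (h4 : S4RC P G) (h1 : OneRC P G)
    {g1 g0 : ℝ} (hcv : CurG g1 g0 G) :
    ∃ (C c b c1 Ca : ℝ) (k : ℕ), 0 < C ∧ 0 < c ∧ 0 < b ∧
    0 < c1 ∧ 0 ≤ Ca ∧ PerGRC P G g1 g0 C c b k c1 Ca := by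
  obtain ⟨C, c, b, c1, Ca, k, hC, hc, hb, hc1, hCa, h⟩ := perX_ofRC hP hB hS hspec h4 h1
  refine ⟨C, c, b, c1, Ca, k, hC, hc, hb, hc1, hCa, ?_⟩
  intro ep hep hep1 e1 he1 he11 J hJ δ hδ
  obtain ⟨d, Cst, hd, hCst, m0, h⟩ := h ep hep hep1 e1 he1 he11 J hJ δ hδ
  obtain ⟨m1, hcur⟩ := hcv ep hep hep1 e1 he1 he11 J hJ
  refine ⟨d, Cst, hd, hCst, max m0 m1, ?_⟩
  intro m hM n g aX aY ν E Qe hn hσ haX haY haY' hq hν hE hcE hQe hpin N hN b' hb' r hr O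
  refine ⟨G.D e1 J m, G.D1 e1 J m, hcur m ((le_max_right _ _).trans hM), fun W => ?_⟩
  exact h m ((le_max_left _ _).trans hM) n g aX aY ν E Qe hn hσ haX haY haY' hq hν hE hcE hQe
    hpin N hN b' hb' r hr O W

end PLT

end
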