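import Pool.Agent.PHK.AsmS
import Pool.Agent.PLT.GeoC
import Pool.Agent.PHK.SpPin

/-!
# Spectators against objects, any parameters

* `oC P`: the offsets of the quanta of the objects; **`NoEk P`**: no elementary spectator on them;
  `noEk_lat`: from a lattice;
* `log_facL_ekC`, `facL_ekC`, `ES_ekC`, `pair_ekC`, `asm_objC`, `asm_confC`: twins of `PHK/AsmS`;
* `ek_pinC`, `grp_pinC`, **`spec_pinC : ∃ C, 1 ≤ C ∧ SpecPinC P C`**: twins of `PHK/SpPin`.
-/

set_option autoImplicit false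
set_option linter.unusedSectionVars false

open MeasureTheory Set Filter Topology

namespace PLT

noncomputable section

open PHK
open NUO (Xo sp ht posL posT posS)
open NUC43 NUGC NUDirP
open NUGC.PLX
open NUP1 (vl l)
open Pool.Agent.NUM3 (EV EU sgn)

/-! ### the objects -/

/-- the offsets of all the quanta of the objects -/
def oC (P : Par6) : Fin 8 → ℝ := ![P.jL, 3 / 2, 5 / 2, 2 + P.e, 3 + P.e, P.e, P.j1, P.j2]

/-- **no object meets an elementary spectator** -/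
def NoEk (P : Par6) : Prop := ∀ (k : Ek) (i : Fin 8) (n : ℤ), k.x + oC P i ≠ n

/-- a lattice of step `1 / d`, `8` divides `d` -/
theorem noEk_lat {P : Par6} (d : ℕ) (hd : 0 < d) (o : Fin 8 → ℤ) (x : Ek → ℤ)
    (ho : ∀ i, oC P i = (o i : ℝ) / d) (hx : ∀ k : Ek, k.x = (x k : ℝ) / d)
    (h : ∀ k i, ¬ (d : ℤ) ∣ x k + o i) : NoEk P := by
  intro k i n hn
  rw [ho, hx] at hn
  have hd' : (d : ℝ) ≠ 0 := by positivity
  refine h k i ⟨n, ?_⟩
  have h2 : (((x k + o i : ℤ)) : ℝ) = (((d : ℤ) * n : ℤ) : ℝ) := by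
    push_cast
    field_simp at hn
    linarith
  exact_mod_cast h2

/-- all the spectators on all the lines of the objects -/
theorem ek_allC {P : Par6} (hN : NoEk P) : ∃ C : ℝ, 0 ≤ C ∧
    ∀ (k : Ek) (i : Fin 8) (a s : Bool) (τ t : ℝ),
    0 < Ek.f a k τ s (vl ((1 - oC P i) * l) t) ∧
      |Real.log (Ek.f a k τ s (vl ((1 - oC P i) * l) t)) -
        2 * (sgn (s == a) * k.q) * Real.log (Real.cosh (t - τ))| ≤ C := by
  choose C h0 h using fun (k : Ek) (i : Fin 8) => ek_pt6 k (hN k i)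
  refine ⟨∑ i : Fin 8, (C .h5 i + C .hm i + C .h1 i + C .hs i + C .q1 i + C .qs i + C .sr i),
    Finset.sum_nonneg fun i _ => ?_, fun k i a s τ t => ⟨(h k i a s τ t).1, (h k i a s τ t).2.trans ?_⟩⟩
  · have h1 := h0 .h5 i
    have h2 := h0 .hm i
    have h3 := h0 .h1 i
    have h4 := h0 .hs i
    have h5 := h0 .q1 i
    have h6 := h0 .qs i
    have h7 := h0 .sr i
    positivity
  · have hk : C k i ≤ C .h5 i + C .hm i + C .h1 i + C .hs i + C .q1 i + C .qs i + C .sr i := by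
      have h1 := h0 .h5 i
      have h2 := h0 .hm i
      have h3 := h0 .h1 i
      have h4 := h0 .hs i
      have h5 := h0 .q1 i
      have h6 := h0 .qs i
      have h7 := h0 .sr i
      cases k <;> linarith
    refine hk.trans ?_
    refine Finset.single_le_sum (f := fun i => C .h5 i + C .hm i + C .h1 i + C .hs i + C .q1 i +
      C .qs i + C .sr i) (fun i _ => ?_) (Finset.mem_univ i)
    have h1 := h0 .h5 i
    have h2 := h0 .hm i
    have h3 := h0 .h1 i
    have h4 := h0 .hs i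
    have h5 := h0 .q1 i
    have h6 := h0 .qs i
    have h7 := h0 .sr i
    positivity

/-- **direct factor of a spectator and an object**, two sides -/
theorem log_facL_ekC {P : Par6} (hN : NoEk P) : ∃ C : ℝ, 0 ≤ C ∧ ∀ (x : Xo) (a : Bool) (k : Ek) (τ : ℝ),
    0 < facL6 (Ek.f a k τ) (parts6 P x) ∧
      |Real.log (facL6 (Ek.f a k τ) (parts6 P x)) -
        2 * (sgn (sp x == a) * (kq6 (k6 x) * k.q)) * Real.log (Real.cosh (ht x - τ))| ≤ C := by
  obtain ⟨C, h0, hC⟩ := ek_allC hN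
  refine ⟨5 * C, by positivity, fun x a k τ => ?_⟩
  have q : ∀ (i : Fin 8) (j : ℝ), j = oC P i → ∀ s : Bool,
      0 < Ek.f a k τ s (vl ((1 - j) * l) (ht x)) ∧
      |Real.log (Ek.f a k τ s (vl ((1 - j) * l) (ht x))) -
        2 * (sgn (s == a) * k.q) * Real.log (Real.cosh (ht x - τ))| ≤ C := by
    rintro i j rfl s
    exact hC k i a s τ (ht x)
  have qL := q 0 P.jL rfl
  have qT := q 1 (3 / 2) rfl
  have qT' := q 2 (5 / 2) rfl
  have qE := q 3 (2 + P.e) rfl
  have qE' := q 4 (3 + P.e) rfl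
  have qe := q 5 P.e rfl
  have q1 := q 6 P.j1 rfl
  have q2 := q 7 P.j2 rfl
  generalize Real.log (Real.cosh (ht x - τ)) = Λ at *
  have eT : vl ((1 - 3 / 2) * l) (ht x) - l = vl ((1 - 5 / 2) * l) (ht x) := by
    rw [← NUO.posT_eq, posTl_vl]
  have eS : vl ((1 - (2 + P.e)) * l) (ht x) - l = vl ((1 - (3 + P.e)) * l) (ht x) := by
    rw [← NUO.posS_eq, posSl_vl]
  unfold parts6
  cases hk : k6 x <;> simp only [facL6, List.map_cons, List.map_nil, List.prod_cons, List.prod_nil,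
    mul_one, fac6, NUGC.fac, if_true, if_false, Bool.false_eq_true, posB_vl,
    NUO.posS_eq, NUO.posT_eq, NUO.posL_eq, eT, eS, kq6, zpow_one]
  · obtain ⟨a1, a2⟩ := qL (sp x)
    refine ⟨a1, ?_⟩
    have := abs_le.1 a2
    rw [abs_le]
    constructor <;> linarith
  · obtain ⟨a1, a2⟩ := qT (sp x)
    obtain ⟨b1, b2⟩ := qT' (sp x)
    refine ⟨mul_pos a1 b1, ?_⟩
    rw [Real.log_mul a1.ne' b1.ne']
    have := abs_le.1 a2
    have := abs_le.1 b2
    rw [abs_le]
    constructor <;> linarith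
  · obtain ⟨a1, a2⟩ := qE (sp x)
    obtain ⟨b1, b2⟩ := qE' (sp x)
    obtain ⟨c1, c2⟩ := qe (!sp x)
    rw [sgn_not6] at c2
    have ab := mul_pos a1 b1
    have cc := zpow_pos c1 2
    refine ⟨mul_pos ab cc, ?_⟩
    rw [Real.log_mul ab.ne' cc.ne', Real.log_mul a1.ne' b1.ne', Real.log_zpow]
    have := abs_le.1 a2
    have := abs_le.1 b2
    have := abs_le.1 c2
    push_cast
    rw [abs_le]
    constructor <;> linarith
  · obtain ⟨a1, a2⟩ := qE (sp x)
    obtain ⟨b1, b2⟩ := qE' (sp x)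
    obtain ⟨c1, c2⟩ := qe (!sp x)
    obtain ⟨d1, d2⟩ := qe (sp x)
    rw [sgn_not6] at c2
    have ab := mul_pos a1 b1
    have cc := zpow_pos c1 2
    have dd := zpow_pos d1 (-1)
    refine ⟨mul_pos ab (mul_pos cc dd), ?_⟩
    rw [Real.log_mul ab.ne' (mul_pos cc dd).ne', Real.log_mul cc.ne' dd.ne',
      Real.log_mul a1.ne' b1.ne', Real.log_zpow, Real.log_zpow]
    have := abs_le.1 a2
    have := abs_le.1 b2
    have := abs_le.1 c2
    have := abs_le.1 d2
    push_cast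
    rw [abs_le]
    constructor <;> linarith
  · obtain ⟨a1, a2⟩ := q1 (sp x)
    refine ⟨zpow_pos a1 _, ?_⟩
    rw [Real.log_zpow]
    have := abs_le.1 a2
    push_cast
    rw [abs_le]
    constructor <;> linarith
  · obtain ⟨a1, a2⟩ := q2 (sp x)
    refine ⟨zpow_pos a1 _, ?_⟩
    rw [Real.log_zpow]
    have := abs_le.1 a2
    push_cast
    rw [abs_le]
    constructor <;> linarith

/-- **direct factor of a spectator and an object** -/
theorem facL_ekC {P : Par6} (hN : NoEk P) : ∃ C : ℝ, 0 ≤ C ∧ ∀ (x : Xo) (a : Bool) (k : Ek) (τ : ℝ),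
    facL6 (Ek.f a k τ) (parts6 P x) ≤ Real.exp C *
      Real.exp (2 * (sgn (sp x == a) * (kq6 (k6 x) * k.q)) *
        Real.log (Real.cosh (ht x - τ))) := by
  obtain ⟨C, h0, hC⟩ := log_facL_ekC hN
  refine ⟨C, h0, fun x a k τ => ?_⟩
  obtain ⟨h1, h2⟩ := hC x a k τ
  rw [← Real.exp_add, ← Real.log_le_iff_le_exp h1]
  have := (abs_le.1 h2).2
  linarith

/-- the energy of an object and a spectator -/
theorem ES_ekC {P : Par6} (hP : GoodP6 P) : ∃ C : ℝ, 0 ≤ C ∧ ∀ (x : Xo) (a : Bool) (k : Ek) (τ : ℝ),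
    |2 * (sgn (sp x == a) * (kq6 (k6 x) * k.q)) * Real.log (Real.cosh (ht x - τ)) +
      ES (obSr6 P x) (Ek.src a k τ)| ≤ C := by
  have h : ∀ (K : Kd6) (k : Ek), ∃ C : ℝ, 0 ≤ C ∧ ∀ (σ : Bool) (x y : ℝ),
      |2 * (sgn σ * (kq6 K * k.q)) * Real.log (Real.cosh (x - y)) +
        ERc σ (kF6 P K) (kG6 P K) k.F k.G x y| ≤ C := by
    intro K k
    obtain ⟨α, hk⟩ := k.chg
    exact chg_ch (chgK6 hP.ok K) hk
  choose C h0 hC using h
  refine ⟨∑ K : Kd6, (C K .h5 + C K .hm + C K .h1 + C K .hs + C K .q1 + C K .qs + C K .sr),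
    Finset.sum_nonneg fun K _ => ?_, fun x a k τ => ?_⟩
  · have := h0 K
    have h1 := this .h5
    have h2 := this .hm
    have h3 := this .h1
    have h4 := this .hs
    have h5 := this .q1
    have h6 := this .qs
    have h7 := this .sr
    positivity
  · have h1 := hC (k6 x) k (sp x == a) (ht x) τ
    have h2 : C (k6 x) k ≤ C (k6 x) .h5 + C (k6 x) .hm + C (k6 x) .h1 + C (k6 x) .hs +
        C (k6 x) .q1 + C (k6 x) .qs + C (k6 x) .sr := by
      have := h0 (k6 x)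
      have h1 := this .h5
      have h2 := this .hm
      have h3 := this .h1
      have h4 := this .hs
      have h5 := this .q1
      have h6 := this .qs
      have h7 := this .sr
      cases k <;> linarith
    have h3 := Finset.single_le_sum (f := fun K => C K .h5 + C K .hm + C K .h1 + C K .hs +
      C K .q1 + C K .qs + C K .sr) (fun K _ => by
        have := h0 K
        have h1 := this .h5
        have h2 := this .hm
        have h3 := this .h1
        have h4 := this .hs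
        have h5 := this .q1
        have h6 := this .qs
        have h7 := this .sr
        positivity) (Finset.mem_univ (k6 x))
    exact h1.trans (h2.trans h3)

/-- **a spectator and an object**: direct factor and response -/
theorem pair_ekC {P : Par6} (hP : GoodP6 P) (hN : NoEk P) : ∃ C : ℝ, 1 ≤ C ∧ ∀ (x : Xo) (d : Spt),
    facL6 d.f (parts6 P x) * Real.exp (ES (obSr6 P x) d.src) ≤ C := by
  obtain ⟨C, h0, hC⟩ := ES_ekC hP
  obtain ⟨C', h0', hC'⟩ := facL_ekC hN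
  refine ⟨Real.exp (C' + C), Real.one_le_exp (by positivity), fun x d => ?_⟩
  have h1 := hC' x d.1 d.2.1 d.2.2
  have h2 := (abs_le.1 (hC x d.1 d.2.1 d.2.2)).2
  obtain ⟨X, hX⟩ : ∃ X, X = 2 * (sgn (sp x == d.1) * (kq6 (k6 x) * d.2.1.q)) *
    Real.log (Real.cosh (ht x - d.2.2)) := ⟨_, rfl⟩
  rw [← hX] at h1 h2
  calc facL6 d.f (parts6 P x) * Real.exp (ES (obSr6 P x) d.src)
      ≤ (Real.exp C' * Real.exp X) * Real.exp (ES (obSr6 P x) d.src) :=
        mul_le_mul_of_nonneg_right h1 (Real.exp_pos _).le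
    _ = Real.exp (C' + (X + ES (obSr6 P x) d.src)) := by
        rw [Real.exp_add, Real.exp_add]
        ring
    _ ≤ Real.exp (C' + C) := by
        refine Real.exp_le_exp.2 ?_
        have : X + ES (obSr6 P x) d.src ≤ C := h2
        linarith

variable {κ : Type*} [Fintype κ]

/-- **all spectators and one object** -/
theorem asm_objC {P : Par6} (hP : GoodP6 P) (hN : NoEk P) : ∃ C : ℝ, 1 ≤ C ∧ ∀ (x : Xo) {κ : Type} [Fintype κ] (D : κ → Spt),
    facL6 (spM D) (parts6 P x) *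
      Real.exp (∑ d, ES (obSr6 P x) (D d).src) ≤ C ^ Fintype.card κ := by
  obtain ⟨C, h1, hC⟩ := pair_ekC hP hN
  refine ⟨C, h1, fun x κ _ D => ?_⟩
  rw [facL_spM6, Real.exp_sum, ← Finset.prod_mul_distrib]
  calc ∏ d, facL6 (D d).f (parts6 P x) * Real.exp (ES (obSr6 P x) (D d).src)
      ≤ ∏ _d : κ, C := Finset.prod_le_prod (fun d _ => mul_nonneg
        (facL6_nonneg (fun s u => Ek.f_nonneg _ _ _ _ _) _) (Real.exp_pos _).le)
        fun d _ => hC x (D d)
    _ = C ^ Fintype.card κ := by rw [Finset.prod_const, Finset.card_univ]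

/-- **all spectators and all objects** -/
theorem asm_confC {P : Par6} (hP : GoodP6 P) (hN : NoEk P) : ∃ C : ℝ, 1 ≤ C ∧ ∀ {r : ℕ} (O : Fin r → Xo) {κ : Type} [Fintype κ]
    (D : κ → Spt), (∏ i, facL6 (spM D) (cons6 P O i)) *
      Real.exp (∑ i, ∑ d, ES (obSr6 P (O i)) (D d).src) ≤ (C ^ Fintype.card κ) ^ r := by
  obtain ⟨C, h1, hC⟩ := asm_objC hP hN
  refine ⟨C, h1, fun {r} O κ _ D => ?_⟩
  rw [Real.exp_sum, ← Finset.prod_mul_distrib]
  calc ∏ i, facL6 (spM D) (cons6 P O i) * Real.exp (∑ d, ES (obSr6 P (O i)) (D d).src)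
      ≤ ∏ _i : Fin r, C ^ Fintype.card κ := Finset.prod_le_prod (fun i _ => mul_nonneg
        (facL6_nonneg (fun s u => spM_nonneg D s u) _) (Real.exp_pos _).le)
        fun i _ => hC (O i) D
    _ = _ := by rw [Finset.prod_const, Finset.card_univ, Fintype.card_fin]

end

/-! ### groups of spectators, pinned energies -/

noncomputable section

open Finset
open PHK
open NUO NUP1 NUGC NUGC.PLX
open NUC43 (sg)
open NUSea.PLX.H0 (Gd IG TG cstF)
open NUSp (kG spo qc)
open Pool.Agent.NUM3 (sgn)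

/-- one elementary spectator -/
theorem ek_pinC {P : Par6} (hP : GoodP6 P) (hN : NoEk P) : ∃ C : ℝ, 1 ≤ C ∧ ∀ (x : Xo) (T1 : ℝ), |ht x| ≤ T1 →
    ∀ (a : Bool) (k : Ek) (τ : ℝ),
    facL6 (Ek.f a k τ) (parts6 P x) *
      Real.exp (ES (obSr6 P x) (Ek.src a k (NUSp.pin T1 τ))) ≤
        C * Real.exp (sg (sp x) * kq6 (k6 x) * (2 * (sg a * k.q)) * NUSp.exc T1 τ) := by
  obtain ⟨C, h0, hC⟩ := ES_ekC hP
  obtain ⟨C', h0', hC'⟩ := facL_ekC hN
  refine ⟨Real.exp (C' + C + 8), Real.one_le_exp (by linarith), fun x T1 hT a k τ => ?_⟩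
  have h1 := hC' x a k τ
  have h2 := (abs_le.1 (hC x a k (NUSp.pin T1 τ))).2
  rw [sgn_beq67] at h1 h2
  obtain ⟨A, hA⟩ : ∃ A, A = sg (sp x) * sg a * (kq6 (k6 x) * k.q) := ⟨_, rfl⟩
  rw [← hA] at h1 h2
  obtain ⟨E, hE⟩ : ∃ E, E = ES (obSr6 P x) (Ek.src a k (NUSp.pin T1 τ)) := ⟨_, rfl⟩
  rw [← hE] at h2 ⊢
  have hAb : |2 * A| ≤ 8 := by
    rw [hA, abs_mul, abs_mul, abs_mul, abs_mul]
    have s1 : |sg (sp x)| = 1 := by cases sp x <;> norm_num [sg]
    have s2 : |sg a| = 1 := by cases a <;> norm_num [sg]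
    have s3 := kq_abs6 (k6 x)
    have s4 := Ek.q_abs67 k
    rw [s1, s2, abs_of_pos (by norm_num : (0 : ℝ) < 2)]
    have : |kq6 (k6 x)| * |k.q| ≤ 2 * 2 :=
      mul_le_mul s3 s4 (abs_nonneg _) (by norm_num)
    linarith
  obtain ⟨u, hu⟩ : ∃ u, u = Real.log (Real.cosh (ht x - τ)) := ⟨_, rfl⟩
  obtain ⟨v, hv⟩ : ∃ v, v = Real.log (Real.cosh (ht x - NUSp.pin T1 τ)) := ⟨_, rfl⟩
  rw [← hu] at h1
  rw [← hv] at h2
  have hd : |u - v - NUSp.exc T1 τ| ≤ 1 := by
    have a1 := abs_sub_pinT (τ := τ) hT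
    have l1 := log_cosh_ge (ht x - τ)
    have l2 := log_cosh_le (ht x - τ)
    have l3 := log_cosh_ge (ht x - NUSp.pin T1 τ)
    have l4 := log_cosh_le (ht x - NUSp.pin T1 τ)
    have l5 := Real.log_two_lt_d9
    rw [← hu] at l1 l2
    rw [← hv] at l3 l4
    have l2' := (abs_le.1 l2).2
    have l4' := (abs_le.1 l4).2
    rw [abs_le]
    constructor <;> linarith
  have hfin : 2 * A * u + E ≤ C + 8 + 2 * A * NUSp.exc T1 τ := by
    have h3 : 2 * A * (u - v - NUSp.exc T1 τ) ≤ 8 := by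
      refine (le_abs_self _).trans ?_
      rw [abs_mul]
      calc |2 * A| * |u - v - NUSp.exc T1 τ| ≤ 8 * 1 :=
            mul_le_mul hAb hd (abs_nonneg _) (by norm_num)
        _ = 8 := by norm_num
    nlinarith
  calc facL6 (Ek.f a k τ) (parts6 P x) * Real.exp E
      ≤ Real.exp C' * Real.exp (2 * A * u) * Real.exp E :=
        mul_le_mul_of_nonneg_right h1 (Real.exp_pos _).le
    _ = Real.exp (C' + (2 * A * u + E)) := by rw [Real.exp_add, Real.exp_add]; ring
    _ ≤ Real.exp (C' + (C + 8 + 2 * A * NUSp.exc T1 τ)) := Real.exp_le_exp.2 (by linarith)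
    _ = _ := by
        rw [show C' + (C + 8 + 2 * A * NUSp.exc T1 τ) = (C' + C + 8) + 2 * A * NUSp.exc T1 τ by ring,
          Real.exp_add]
        rw [show 2 * A * NUSp.exc T1 τ =
          sg (sp x) * kq6 (k6 x) * (2 * (sg a * k.q)) * NUSp.exc T1 τ by rw [hA]; ring]

/-- one group -/
theorem grp_pinC {P : Par6} (hP : GoodP6 P) (hN : NoEk P) : ∃ C : ℝ, 1 ≤ C ∧ ∀ (x : Xo) (T1 : ℝ), |ht x| ≤ T1 → ∀ g : Gd,
    facL6 (spL (lsG g)) (parts6 P x) *
      Real.exp (∑ j, ES (obSr6 P x)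
        (NUSp.srcG g.c g.rt g.σ (NUSp.pin T1 g.τ) j)) ≤
        C * Real.exp (sg (sp x) * kq6 (k6 x) * (NUSp.gq true g.G * NUSp.exc T1 g.τ)) := by
  obtain ⟨C, h1, hC⟩ := ek_pinC hP hN
  refine ⟨C ^ 3, one_le_pow₀ h1, fun x T1 hT g => ?_⟩
  have e1 : facL6 (spL (lsG g)) (parts6 P x) = ∏ j : Fin (kG g.c g.rt).length,
      facL6 (Ek.f (spo g.σ ((kG g.c g.rt).get j).1) ((kG g.c g.rt).get j).2 g.τ)
        (parts6 P x) := by
    have e0 : spL (lsG g) = fun a u => ∏ j : Fin (kG g.c g.rt).length,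
        Ek.f (spo g.σ ((kG g.c g.rt).get j).1) ((kG g.c g.rt).get j).2 g.τ a u := by
      funext a u
      unfold spL lsG
      rw [List.map_map, ← List.prod_ofFn]
      congr 1
      conv_lhs => rw [← List.ofFn_get (kG g.c g.rt)]
      rw [List.map_ofFn]
      rfl
    rw [e0]
    exact facL6_prod _ _ _
  rw [e1, Real.exp_sum, ← prod_mul_distrib]
  have hC0 : 0 ≤ C := by linarith
  calc ∏ j : Fin (kG g.c g.rt).length,
        facL6 (Ek.f (spo g.σ ((kG g.c g.rt).get j).1) ((kG g.c g.rt).get j).2 g.τ)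
          (parts6 P x) * Real.exp (ES (obSr6 P x)
            (NUSp.srcG g.c g.rt g.σ (NUSp.pin T1 g.τ) j))
      ≤ ∏ j : Fin (kG g.c g.rt).length, C * Real.exp (sg (sp x) * kq6 (k6 x) *
          (2 * (sg (spo g.σ ((kG g.c g.rt).get j).1) * ((kG g.c g.rt).get j).2.q)) *
            NUSp.exc T1 g.τ) :=
        prod_le_prod (fun j _ => mul_nonneg
          (facL6_nonneg (fun s u => Ek.f_nonneg _ _ _ _ _) _) (Real.exp_pos _).le)
          fun j _ => hC x T1 hT _ _ _
    _ = C ^ (kG g.c g.rt).length * Real.exp (sg (sp x) * kq6 (k6 x) *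
          (NUSp.gq true g.G * NUSp.exc T1 g.τ)) := by
        rw [prod_mul_distrib, prod_const, card_univ, Fintype.card_fin, ← Real.exp_sum]
        congr 2
        rw [gq_true, ← sum_q, ← sum_mul, ← mul_sum]
        ring
    _ ≤ _ := by
        refine mul_le_mul_of_nonneg_right ?_ (Real.exp_pos _).le
        exact pow_le_pow_right₀ h1 (NUSp.kG_len _ _)

/-- **a family of groups against an object**, pinned energies and far constants -/
theorem spec_pinC {P : Par6} (hP : GoodP6 P) (hN : NoEk P) : ∃ C : ℝ, 1 ≤ C ∧ SpecPinC P C := by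
  obtain ⟨C, h1, hC⟩ := grp_pinC hP hN
  refine ⟨C ^ 2, one_le_pow₀ h1, fun x T1 hT n g hn => ?_⟩
  have hC0 : 0 ≤ C := by linarith
  have e1 : facL6 (spF g) (parts6 P x) =
      ∏ l, facL6 (spL (lsG (g l))) (parts6 P x) := facL6_prod _ _ _
  have e2 : ∑ d, ES (obSr6 P x) (TG (fun i => (g i).pin T1) d) =
      ∑ l, ∑ j, ES (obSr6 P x)
        (NUSp.srcG (g l).c (g l).rt (g l).σ (NUSp.pin T1 (g l).τ) j) := NUSea.PLX.H0.sum_TG _ _
  have e3 : ∑ l, ∑ j, ES (obSr6 P x)
        (NUSp.srcG (g l).c (g l).rt (g l).σ (NUSp.pin T1 (g l).τ) j) -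
        cstF T1 g true * (sg (sp x) * kq6 (k6 x)) =
      ∑ l, (∑ j, ES (obSr6 P x)
        (NUSp.srcG (g l).c (g l).rt (g l).σ (NUSp.pin T1 (g l).τ) j) -
        sg (sp x) * kq6 (k6 x) * (NUSp.gq true (g l).G * NUSp.exc T1 (g l).τ)) := by
    rw [sum_sub_distrib, ← mul_sum]
    unfold cstF
    ring
  rw [e1, e2, e3, Real.exp_sum, ← prod_mul_distrib]
  calc ∏ l, facL6 (spL (lsG (g l))) (parts6 P x) * Real.exp (∑ j, ES (obSr6 P x)
        (NUSp.srcG (g l).c (g l).rt (g l).σ (NUSp.pin T1 (g l).τ) j) -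
        sg (sp x) * kq6 (k6 x) * (NUSp.gq true (g l).G * NUSp.exc T1 (g l).τ))
      ≤ ∏ _l : Fin n, C := by
        refine prod_le_prod (fun l _ => mul_nonneg (facL6_nonneg (fun s u => ?_) _)
          (Real.exp_pos _).le) fun l _ => ?_
        · rw [← spM_get]
          exact spM_nonneg _ _ _
        · have h := hC x T1 hT (g l)
          rw [Real.exp_sub, ← mul_div_assoc, div_le_iff₀ (Real.exp_pos _)]
          exact h
    _ = C ^ n := by rw [prod_const, card_univ, Fintype.card_fin]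
    _ ≤ C ^ 2 := pow_le_pow_right₀ h1 hn

end

end PLT
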