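import Pool.Agent.PLT.RateX

/-!
# Contents on the imaginary axis: the rate of the price of a hole

* `Ag_axis`: the level function at an offset in `[v0, 2 l)` at the height `t - s`, `|s| ≤ s0`;
* **`prXP_axis`**: `κ (m P t) ≤ prX c a j t` on the lines `loL P`, rows with `re = 0`, `|im| ≤ s0`, at most
  `n0` missing rows: one constant.
-/

set_option autoImplicit false

noncomputable section

open Complex

namespace PLT

open PHK

/-- the density of a row against the level function -/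
theorem Ag_axis {s0 v0 V : ℝ} (h0 : 0 ≤ v0) (h1 : v0 ≤ V) (hl1 : v0 ≤ NUMF.l) (h2 : V < 2 * NUMF.l)
    {s : ℝ} (hs : |s| ≤ s0) (t : ℝ) :
    3 / 4 * v0 * Real.exp (-(8 / 3 * s0)) * NUMF.P t ≤ Ag V (t - s) := by
  have a1 := Ag_ge (h0.trans h1) h2 (t - s)
  have a2 := exp_le_ch (t - s)
  have a3 := P_le_ch t
  have a4 := AgL.inv_ch_le t
  rw [one_div] at a3
  have hc := NUMF.ch_pos (t - s)
  -- the height
  have a5 : Real.exp (-(8 / 3 * s0)) * Real.exp (-(8 / 3 * |t|)) ≤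
      Real.exp (-(8 / 3) * |t - s|) := by
    rw [← Real.exp_add]
    refine Real.exp_le_exp.2 ?_
    have b1 := abs_sub_abs_le_abs_sub (t - s) t
    have b2 : |t - s - t| = |s| := by
      rw [show t - s - t = -s by ring, abs_neg]
    rw [b2] at b1
    linarith
  have e0 := Real.exp_pos (-(8 / 3 * s0))
  have a6 : Real.exp (-(8 / 3 * s0)) * NUMF.P t ≤ 2 * (1 / NUMF.ch (t - s)) := by
    have b1 : Real.exp (-(8 / 3 * s0)) * NUMF.P t ≤
        Real.exp (-(8 / 3 * s0)) * (2 * Real.exp (-(8 / 3 * |t|))) :=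
      mul_le_mul_of_nonneg_left (a3.trans a4) e0.le
    linarith
  have a7 : v0 ≤ min V NUMF.l := le_min h1 hl1
  calc 3 / 4 * v0 * Real.exp (-(8 / 3 * s0)) * NUMF.P t =
        3 / 4 * v0 * (Real.exp (-(8 / 3 * s0)) * NUMF.P t) := by ring
    _ ≤ 3 / 4 * v0 * (2 * (1 / NUMF.ch (t - s))) := mul_le_mul_of_nonneg_left a6 (by positivity)
    _ = 3 / 2 * v0 / NUMF.ch (t - s) := by ring
    _ ≤ 3 / 2 * min V NUMF.l / NUMF.ch (t - s) :=
        div_le_div_of_nonneg_right (mul_le_mul_of_nonneg_left a7 (by norm_num)) hc.le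
    _ ≤ _ := a1

private theorem sum_ge (L : List ℂ) {f : ℂ → ℝ} {b : ℝ} (h : ∀ x ∈ L, b ≤ f x) :
    (L.length : ℝ) * b ≤ (L.map f).sum := by
  induction L with
  | nil => simp
  | cons x L ih =>
    have i1 := ih fun y hy => h y (List.mem_cons_of_mem _ hy)
    have i2 := h x List.mem_cons_self
    rw [List.map_cons, List.sum_cons, List.length_cons]
    push_cast
    linarith

/-- **the rate of the price of a hole, rows on the axis** -/
theorem prXP_axis {P : Par6} (hP : LnT P) (s0 : ℝ) (n0 : ℕ) :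
    ∃ κ : ℝ, 0 < κ ∧ ∃ m0 : ℕ, ∀ (c : Bool → List ℂ) (k : Bool → ℕ) (m : ℕ), m0 ≤ m →
      (∀ a, ∀ x ∈ c a, x.re = 0 ∧ |x.im| ≤ s0) → (∀ a, k a ≤ n0) →
      (∀ a, (m : ℝ) ≤ 2 * nX c k a) → ∀ j ∈ loL P, ∀ (a : Bool) (t : ℝ),
        κ * (m * NUMF.P t) ≤ prX c a j t := by
  have hl : 0 < NUMF.l := NUMF.l_pos
  have p1 := hP.j1
  have p2 := hP.j1e
  have p3 := hP.ej2
  have p4 := hP.j2
  obtain ⟨b, hb⟩ : ∃ b, b = 3 / 4 * (NUMF.l / 38) * Real.exp (-(8 / 3 * s0)) := ⟨_, rfl⟩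
  have hb0 : 0 < b := by
    rw [hb]
    positivity
  refine ⟨b / 4, by positivity, 4 * n0, fun c k m hm hx hk hn j hj a t => ?_⟩
  have hPt : 0 ≤ NUMF.P t := (NUMF.P_pos t).le
  have hj1 : 1 / 38 < j ∧ j < 1 := by
    simp only [loL, List.mem_cons, List.not_mem_nil, or_false] at hj
    rcases hj with rfl | rfl | rfl
    · exact ⟨by linarith, by linarith⟩
    · exact ⟨by linarith, by linarith⟩
    · exact ⟨by linarith, by linarith⟩
  have h1 : ∀ x ∈ c a, b * NUMF.P t ≤ Ag (j * NUMF.l + x.re) (t - x.im) := by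
    intro x hxa
    obtain ⟨r, i⟩ := hx a x hxa
    rw [hb, r, add_zero]
    exact Ag_axis (by positivity) (by nlinarith) (by linarith) (by nlinarith) i t
  have h2 := sum_ge (c a) h1
  have h3 : (m : ℝ) / 4 ≤ ((c a).length : ℝ) := by
    have c1 := hn a
    unfold nX at c1
    have c2 : ((k a : ℕ) : ℝ) ≤ n0 := by exact_mod_cast hk a
    have c3 : ((4 * n0 : ℕ) : ℝ) ≤ m := by exact_mod_cast hm
    push_cast at c3
    linarith
  calc b / 4 * (m * NUMF.P t) = (m : ℝ) / 4 * (b * NUMF.P t) := by ring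
    _ ≤ ((c a).length : ℝ) * (b * NUMF.P t) :=
        mul_le_mul_of_nonneg_right h3 (mul_nonneg hb0.le hPt)
    _ ≤ _ := h2

end PLT

end
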