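import Pool.Agent.PHK.FormC

/-!
# The form of the objects and of the quanta on two lines (helper38)

At one `k`: six kinds of objects and the charge of the quanta on two lines `A0`, `A1` (`Fin 2`), two species.

* `two_species`: nonnegative forms in the two channels give a nonnegative form over two species;
* `F8`: the entries (`true` = same family); `F8.Nn`: the forms of the two channels are nonnegative;
* `F8.real`: real amplitudes; **`F8.point`**: objects at heights `ht`, complex charges `V` of the lines: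
  the kernels `N` are at most the energy of objects and charges; `F8.pair`: real parts.
-/

set_option autoImplicit false
set_option linter.unusedSectionVars false

open Finset

noncomputable section

namespace PLT

open PHK
open NUO (Xo sp ht)
open Pool.Agent.NUM3 (sgn)

/-! ### two species -/

/-- sum over the classes -/
theorem sum_class {ι G : Type*} [Fintype ι] [Fintype G] [DecidableEq G] (D : G → G → ℝ) (κ : ι → G)
    (c : ι → ℝ) : ∑ i, ∑ j, c i * c j * D (κ i) (κ j) =
      ∑ K, ∑ K', (∑ i, if κ i = K then c i else 0) * (∑ j, if κ j = K' then c j else 0) * D K K' := by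
  have e1 : ∀ K K' : G, (∑ i, if κ i = K then c i else 0) * (∑ j, if κ j = K' then c j else 0) *
      D K K' = ∑ i, ∑ j, if κ i = K then (if κ j = K' then c i * c j * D K K' else 0) else 0 := by
    intro K K'
    rw [Finset.sum_mul_sum, Finset.sum_mul]
    refine Finset.sum_congr rfl fun i _ => ?_
    rw [Finset.sum_mul]
    refine Finset.sum_congr rfl fun j _ => ?_
    split_ifs <;> ring
  simp only [e1]
  have e2 : ∀ K : G, ∑ K', ∑ i, ∑ j, (if κ i = K then (if κ j = K' then c i * c j * D K K' else 0)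
      else 0) = ∑ i, ∑ j, if κ i = K then c i * c j * D K (κ j) else 0 := by
    intro K
    rw [Finset.sum_comm]
    refine Finset.sum_congr rfl fun i _ => ?_
    rw [Finset.sum_comm]
    refine Finset.sum_congr rfl fun j _ => ?_
    split_ifs
    · simp
    · simp
  simp only [e2]
  symm
  rw [Finset.sum_comm]
  refine Finset.sum_congr rfl fun i _ => ?_
  rw [Finset.sum_comm]
  refine Finset.sum_congr rfl fun j _ => ?_
  simp

/-- **forms in the two channels give a form over two species** -/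
theorem two_species {ι G : Type*} [Fintype ι] [Fintype G] [DecidableEq G] {A : Bool → G → G → ℝ}
    (h : ∀ s : Bool, ∀ y : G → ℝ, 0 ≤ ∑ K, ∑ K', y K * y K' * (A true K K' + sgn s * A false K K'))
    (κ : ι → G) (σ : ι → Bool) (c : ι → ℝ) : 0 ≤ ∑ i, ∑ j, c i * c j * A (σ i == σ j) (κ i) (κ j) := by
  have h1 := h true fun K => ∑ i, if κ i = K then c i else 0
  have h2 := h false fun K => ∑ i, if κ i = K then c i * sg6 (σ i) else 0
  rw [← sum_class (fun K K' => A true K K' + sgn true * A false K K') κ c] at h1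
  rw [← sum_class (fun K K' => A true K K' + sgn false * A false K K') κ fun i => c i * sg6 (σ i)] at h2
  have h3 := add_nonneg h1 h2
  rw [← Finset.sum_add_distrib] at h3
  have e : ∑ i, (∑ j, c i * c j * (A true (κ i) (κ j) + sgn true * A false (κ i) (κ j)) +
      ∑ j, c i * sg6 (σ i) * (c j * sg6 (σ j)) *
        (A true (κ i) (κ j) + sgn false * A false (κ i) (κ j))) =
      2 * ∑ i, ∑ j, c i * c j * A (σ i == σ j) (κ i) (κ j) := by
    rw [Finset.mul_sum]
    refine Finset.sum_congr rfl fun i _ => ?_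
    rw [← Finset.sum_add_distrib, Finset.mul_sum]
    refine Finset.sum_congr rfl fun j _ => ?_
    cases σ i <;> cases σ j <;> simp [sgn, sg6] <;> ring
  rw [e] at h3
  linarith

/-! ### the entries -/

/-- **the entries of the two line system** at one `k`: objects `D`, kernels `N`, objects against the
lines `a`, the lines `u`; `true` = same family -/
structure F8 where
  /-- direct part -/
  D : Bool → Kd6 → Kd6 → ℝ
  /-- the kernels taken off -/
  N : Bool → Kd6 → Kd6 → ℝ
  /-- an object against a quantum of a line -/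
  a : Bool → Kd6 → Fin 2 → ℝ
  /-- two quanta -/
  u : Bool → Fin 2 → Fin 2 → ℝ

/-- **the forms of the two channels are nonnegative** -/
def F8.Nn (F : F8) : Prop := ∀ (s : Bool) (x : Kd6 → ℝ) (v : Fin 2 → ℝ),
  0 ≤ ∑ K, ∑ K', x K * x K' * (F.D true K K' + sgn s * F.D false K K' -
      (F.N true K K' + sgn s * F.N false K K')) +
    2 * ∑ K, ∑ b, x K * v b * (F.a true K b + sgn s * F.a false K b) +
    ∑ b, ∑ b', v b * v b' * (F.u true b b' + sgn s * F.u false b b')

/-- the matrix over kinds and lines -/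
def F8.mat (F : F8) (s : Bool) : Kd6 ⊕ Fin 2 → Kd6 ⊕ Fin 2 → ℝ
  | .inl K, .inl K' => F.D s K K' - F.N s K K'
  | .inl K, .inr b => F.a s K b
  | .inr b, .inl K => F.a s K b
  | .inr b, .inr b' => F.u s b b'

theorem F8.mat_nn {F : F8} (h : F.Nn) (s : Bool) (y : Kd6 ⊕ Fin 2 → ℝ) :
    0 ≤ ∑ K, ∑ K', y K * y K' * (F.mat true K K' + sgn s * F.mat false K K') := by
  have h1 := h s (fun K => y (.inl K)) fun b => y (.inr b)
  refine h1.trans (le_of_eq ?_)
  simp only [Fintype.sum_sum_type, F8.mat]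
  have e1 : ∑ K, ∑ K', y (.inl K) * y (.inl K') * (F.D true K K' + sgn s * F.D false K K' -
      (F.N true K K' + sgn s * F.N false K K')) = ∑ K, ∑ K', y (.inl K) * y (.inl K') *
      (F.D true K K' - F.N true K K' + sgn s * (F.D false K K' - F.N false K K')) :=
    Finset.sum_congr rfl fun K _ => Finset.sum_congr rfl fun K' _ => by ring
  have e2 : ∑ b : Fin 2, ∑ K : Kd6, y (.inr b) * y (.inl K) * (F.a true K b + sgn s * F.a false K b) =
      ∑ K : Kd6, ∑ b : Fin 2, y (.inl K) * y (.inr b) * (F.a true K b + sgn s * F.a false K b) := by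
    rw [Finset.sum_comm]
    exact Finset.sum_congr rfl fun K _ => Finset.sum_congr rfl fun b _ => by ring
  rw [e1, Finset.sum_add_distrib, Finset.sum_add_distrib, e2]
  ring

/-- **real amplitudes** `c` of the objects, `w` of the lines -/
theorem F8.real {F : F8} (h : F.Nn) {r : ℕ} (κ : Fin r → Kd6) (σ : Fin r → Bool) (c : Fin r → ℝ)
    (w : Bool → Fin 2 → ℝ) :
    0 ≤ ∑ i, ∑ j, c i * c j * (F.D (σ i == σ j) (κ i) (κ j) - F.N (σ i == σ j) (κ i) (κ j)) +
      2 * ∑ i, ∑ τ, ∑ b, c i * w τ b * F.a (σ i == τ) (κ i) b +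
      ∑ τ, ∑ τ', ∑ b, ∑ b', w τ b * w τ' b' * F.u (τ == τ') b b' := by
  have h1 := two_species (A := F.mat) (F8.mat_nn h) (ι := Fin r ⊕ (Bool × Fin 2))
    (Sum.elim (fun i => .inl (κ i)) fun p => .inr p.2) (Sum.elim σ fun p => p.1)
    (Sum.elim c fun p => w p.1 p.2)
  refine h1.trans (le_of_eq ?_)
  simp only [Fintype.sum_sum_type, Sum.elim_inl, Sum.elim_inr, F8.mat, Fintype.sum_prod_type]
  have e2 : ∑ τ : Bool, ∑ b : Fin 2, ∑ i : Fin r, w τ b * c i * F.a (τ == σ i) (κ i) b =
      ∑ i : Fin r, ∑ τ : Bool, ∑ b : Fin 2, c i * w τ b * F.a (σ i == τ) (κ i) b := by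
    have q1 : ∀ τ : Bool, ∑ b : Fin 2, ∑ i : Fin r, w τ b * c i * F.a (τ == σ i) (κ i) b =
        ∑ i : Fin r, ∑ b : Fin 2, c i * w τ b * F.a (σ i == τ) (κ i) b := by
      intro τ
      rw [Finset.sum_comm]
      refine Finset.sum_congr rfl fun i _ => Finset.sum_congr rfl fun b _ => ?_
      rw [Bool.beq_comm]
      ring
    simp only [q1]
    exact Finset.sum_comm
  have e3 : ∑ τ : Bool, ∑ b : Fin 2, ∑ τ' : Bool, ∑ b' : Fin 2, w τ b * w τ' b' * F.u (τ == τ') b b' =
      ∑ τ, ∑ τ', ∑ b, ∑ b', w τ b * w τ' b' * F.u (τ == τ') b b' :=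
    Finset.sum_congr rfl fun τ _ => Finset.sum_comm
  rw [Finset.sum_add_distrib]
  simp only [Finset.sum_add_distrib]
  rw [e2, e3]
  ring

/-- **objects at the heights `ht`, complex charges `V` of the lines** -/
theorem F8.pair {F : F8} (h : F.Nn) {r : ℕ} (κ : Fin r → Kd6) (σ : Fin r → Bool) (t : Fin r → ℝ) (k : ℝ)
    (V : Bool → Fin 2 → ℂ) :
    ∑ i, ∑ j, F.N (σ i == σ j) (κ i) (κ j) * Real.cos (k * (t i - t j)) ≤
      ∑ i, ∑ j, F.D (σ i == σ j) (κ i) (κ j) * Real.cos (k * (t i - t j)) +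
      2 * ∑ i, ∑ τ, ∑ b, F.a (σ i == τ) (κ i) b *
        (Real.cos (k * t i) * (V τ b).re + Real.sin (k * t i) * (V τ b).im) +
      ∑ τ, ∑ τ', ∑ b, ∑ b', F.u (τ == τ') b b' * ((V τ b).re * (V τ' b').re + (V τ b).im * (V τ' b').im) := by
  have h1 := F8.real h κ σ (fun i => Real.cos (k * t i)) fun τ b => (V τ b).re
  have h2 := F8.real h κ σ (fun i => Real.sin (k * t i)) fun τ b => (V τ b).im
  have h3 := add_nonneg h1 h2
  have e1 : ∑ i, ∑ j, F.D (σ i == σ j) (κ i) (κ j) * Real.cos (k * (t i - t j)) -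
      ∑ i, ∑ j, F.N (σ i == σ j) (κ i) (κ j) * Real.cos (k * (t i - t j)) =
      ∑ i, ∑ j, Real.cos (k * t i) * Real.cos (k * t j) *
        (F.D (σ i == σ j) (κ i) (κ j) - F.N (σ i == σ j) (κ i) (κ j)) +
      ∑ i, ∑ j, Real.sin (k * t i) * Real.sin (k * t j) *
        (F.D (σ i == σ j) (κ i) (κ j) - F.N (σ i == σ j) (κ i) (κ j)) := by
    rw [← Finset.sum_sub_distrib, ← Finset.sum_add_distrib]
    refine Finset.sum_congr rfl fun i _ => ?_
    rw [← Finset.sum_sub_distrib, ← Finset.sum_add_distrib]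
    refine Finset.sum_congr rfl fun j _ => ?_
    rw [mul_sub, Real.cos_sub]
    ring
  have e2 : ∑ i, ∑ τ, ∑ b, F.a (σ i == τ) (κ i) b *
        (Real.cos (k * t i) * (V τ b).re + Real.sin (k * t i) * (V τ b).im) =
      ∑ i, ∑ τ, ∑ b, Real.cos (k * t i) * (V τ b).re * F.a (σ i == τ) (κ i) b +
      ∑ i, ∑ τ, ∑ b, Real.sin (k * t i) * (V τ b).im * F.a (σ i == τ) (κ i) b := by
    simp only [← Finset.sum_add_distrib]
    exact Finset.sum_congr rfl fun i _ => Finset.sum_congr rfl fun τ _ => Finset.sum_congr rfl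
      fun b _ => by ring
  have e3 : ∑ τ, ∑ τ', ∑ b, ∑ b', F.u (τ == τ') b b' *
        ((V τ b).re * (V τ' b').re + (V τ b).im * (V τ' b').im) =
      ∑ τ, ∑ τ', ∑ b, ∑ b', (V τ b).re * (V τ' b').re * F.u (τ == τ') b b' +
      ∑ τ, ∑ τ', ∑ b, ∑ b', (V τ b).im * (V τ' b').im * F.u (τ == τ') b b' := by
    simp only [← Finset.sum_add_distrib]
    exact Finset.sum_congr rfl fun τ _ => Finset.sum_congr rfl fun τ' _ => Finset.sum_congr rfl
      fun b _ => Finset.sum_congr rfl fun b' _ => by ring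
  rw [e2, e3]
  linarith

/-- **objects `O`, charges `V` of the quanta on the two lines** -/
theorem F8.point {F : F8} (h : F.Nn) {r : ℕ} (O : Fin r → Xo) (k : ℝ) (V : Bool → Fin 2 → ℂ) :
    ∑ i, ∑ j, F.N (sp (O i) == sp (O j)) (k6 (O i)) (k6 (O j)) * Real.cos (k * (ht (O i) - ht (O j))) ≤
      ∑ i, ∑ j, F.D (sp (O i) == sp (O j)) (k6 (O i)) (k6 (O j)) *
        Real.cos (k * (ht (O i) - ht (O j))) +
      2 * ∑ i, ∑ τ, ∑ b, F.a (sp (O i) == τ) (k6 (O i)) b *
        (Real.cos (k * ht (O i)) * (V τ b).re + Real.sin (k * ht (O i)) * (V τ b).im) +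
      ∑ τ, ∑ τ', ∑ b, ∑ b', F.u (τ == τ') b b' * ((V τ b).re * (V τ' b').re + (V τ b).im * (V τ' b').im) :=
  F8.pair h (fun i => k6 (O i)) (fun i => sp (O i)) (fun i => ht (O i)) k V

/-! ### from an `8 × 8` matrix -/

/-- index of the two line system, order `L, T, E, F, H1, H2, A1, A0` -/
def ix8 : Kd6 ⊕ Fin 2 → Fin 8
  | .inl .L => 0
  | .inl .T => 1
  | .inl .E => 2
  | .inl .F => 3
  | .inl .H1 => 4
  | .inl .H2 => 5
  | .inr 1 => 6
  | .inr 0 => 7

/-- the inverse -/
def xi8 : Fin 8 → Kd6 ⊕ Fin 2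
  | 0 => .inl .L
  | 1 => .inl .T
  | 2 => .inl .E
  | 3 => .inl .F
  | 4 => .inl .H1
  | 5 => .inl .H2
  | 6 => .inr 1
  | 7 => .inr 0

/-- indices of the bordered matrix -/
def eq8 : Fin 8 ≃ Kd6 ⊕ Fin 2 where
  toFun := xi8
  invFun := ix8
  left_inv := by decide
  right_inv := by
    intro o
    rcases o with K | b
    · cases K <;> rfl
    · fin_cases b <;> rfl

theorem sum8 (f : Fin 8 → ℝ) : ∑ i, f i = ∑ K : Kd6, f (ix8 (.inl K)) + ∑ b : Fin 2, f (ix8 (.inr b)) := by
  rw [← eq8.symm.sum_comp f, Fintype.sum_sum_type]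
  rfl

/-- charges of the cores, `8 × 8` -/
def kap8 (i j : Fin 8) : ℝ :=
  match xi8 i, xi8 j with
  | .inl K, .inl K' => kapS K K'
  | _, _ => 0

theorem xi_ix8 (g : Kd6 ⊕ Fin 2) : xi8 (ix8 g) = g := eq8.apply_symm_apply g

/-- **from the `8 × 8` matrices of the two channels**: `b s` = the bordered matrix without the cores of the
same pairs, `c` = the common factor, `w` = the core of the kernels, `t ≥ w` its bound -/
theorem F8.nn_of {F : F8} {b : Bool → Fin 8 → Fin 8 → ℝ} {c w t : ℝ} (hc : 0 < c) (hwt : w ≤ t)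
    (hb : ∀ (s : Bool) (v : Fin 8 → ℝ), 0 ≤ ∑ i, ∑ j, (b s i j - c * t * kap8 i j) * v i * v j)
    (h1 : ∀ s K K', b s (ix8 (.inl K)) (ix8 (.inl K')) = c * (F.D true K K' + sgn s * F.D false K K' -
      (F.N true K K' + sgn s * F.N false K K') + kapS K K' * w))
    (h2 : ∀ s K β, b s (ix8 (.inl K)) (ix8 (.inr β)) = c * (F.a true K β + sgn s * F.a false K β))
    (h3 : ∀ s K β, b s (ix8 (.inr β)) (ix8 (.inl K)) = c * (F.a true K β + sgn s * F.a false K β))
    (h4 : ∀ s β β', b s (ix8 (.inr β)) (ix8 (.inr β')) = c * (F.u true β β' + sgn s * F.u false β β')) :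
    F.Nn := by
  intro s x v
  have key := hb s fun i => Sum.elim x v (xi8 i)
  have k1 : ∀ K K', kap8 (ix8 (.inl K)) (ix8 (.inl K')) = kapS K K' := by
    intro K K'
    unfold kap8
    rw [xi_ix8, xi_ix8]
  have k2 : ∀ K β, kap8 (ix8 (.inl K)) (ix8 (.inr β)) = 0 := by
    intro K β
    unfold kap8
    rw [xi_ix8, xi_ix8]
  have k3 : ∀ K β, kap8 (ix8 (.inr β)) (ix8 (.inl K)) = 0 := by
    intro K β
    unfold kap8
    rw [xi_ix8, xi_ix8]
  have k4 : ∀ β β', kap8 (ix8 (.inr β)) (ix8 (.inr β')) = 0 := by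
    intro β β'
    unfold kap8
    rw [xi_ix8, xi_ix8]
  simp only [sum8, xi_ix8, Sum.elim_inl, Sum.elim_inr, k1, k2, k3, k4, h1, h2, h3, h4, mul_zero,
    sub_zero] at key
  have hk := kapS_nonneg x
  have e0 : ∑ K, ∑ K', (c * (F.D true K K' + sgn s * F.D false K K' -
      (F.N true K K' + sgn s * F.N false K K') + kapS K K' * w) - c * t * kapS K K') * x K * x K' =
      c * (∑ K, ∑ K', x K * x K' * (F.D true K K' + sgn s * F.D false K K' -
      (F.N true K K' + sgn s * F.N false K K')) - (t - w) * ∑ K, ∑ K', x K * x K' * kapS K K') := by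
    rw [Finset.mul_sum, ← Finset.sum_sub_distrib, Finset.mul_sum]
    refine Finset.sum_congr rfl fun K _ => ?_
    rw [Finset.mul_sum, ← Finset.sum_sub_distrib, Finset.mul_sum]
    refine Finset.sum_congr rfl fun K' _ => ?_
    ring
  have e1 : ∑ K, ∑ β, c * (F.a true K β + sgn s * F.a false K β) * x K * v β =
      c * ∑ K, ∑ β, x K * v β * (F.a true K β + sgn s * F.a false K β) := by
    rw [Finset.mul_sum]
    refine Finset.sum_congr rfl fun K _ => ?_
    rw [Finset.mul_sum]
    exact Finset.sum_congr rfl fun β _ => by ring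
  have e2 : ∑ β, ∑ K, c * (F.a true K β + sgn s * F.a false K β) * v β * x K =
      c * ∑ K, ∑ β, x K * v β * (F.a true K β + sgn s * F.a false K β) := by
    rw [Finset.sum_comm, Finset.mul_sum]
    refine Finset.sum_congr rfl fun K _ => ?_
    rw [Finset.mul_sum]
    exact Finset.sum_congr rfl fun β _ => by ring
  have e3 : ∑ β, ∑ β', c * (F.u true β β' + sgn s * F.u false β β') * v β * v β' =
      c * ∑ β, ∑ β', v β * v β' * (F.u true β β' + sgn s * F.u false β β') := by
    rw [Finset.mul_sum]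
    refine Finset.sum_congr rfl fun β _ => ?_
    rw [Finset.mul_sum]
    exact Finset.sum_congr rfl fun β' _ => by ring
  rw [Finset.sum_add_distrib, Finset.sum_add_distrib, e0, e1, e2, e3] at key
  have h9 : 0 ≤ (t - w) * ∑ K, ∑ K', x K * x K' * kapS K K' := mul_nonneg (by linarith) hk
  have h7 : 0 ≤ c * (∑ K, ∑ K', x K * x K' * (F.D true K K' + sgn s * F.D false K K' -
      (F.N true K K' + sgn s * F.N false K K')) - (t - w) * ∑ K, ∑ K', x K * x K' * kapS K K' +
      2 * ∑ K, ∑ β, x K * v β * (F.a true K β + sgn s * F.a false K β) +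
      ∑ β, ∑ β', v β * v β' * (F.u true β β' + sgn s * F.u false β β')) := by
    refine key.trans (le_of_eq ?_)
    ring
  have h8 := nonneg_of_mul_nonneg_right h7 hc
  linarith

end PLT

end
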