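import Pool.Agent.PHK.SPoly
import Pool.Agent.PHK.NTab
import Pool.Agent.PLT.Form8

/-!
# Bordered forms with two lines of the quanta as integer lists (helper64)

`Kd8 = Option (Option Kd6)`: the six kinds, `some none` = the line of the quanta at offset `a` (`A1`), `none` = the
line at offset `a0` (`A0`).  `Pt` = lattice `1 / m`, `m = 4 k`, with the lines in units `1 / m`; `y = exp (-z / m)`.

* the lines of the quanta are at the offsets `a0 / m` (`A0`) and `a / m` (`A1`);
* `cz8`: constituents; `dL8 q σ o o'`: direct transform of two of them as a list (coefficient, offset); `DV`: the same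
  for real positions; `dL8_eq`: `cs8 (dL8 ..) = DV ..`; `DC` = cores removed (`DC_cd6`: `DrM6`), `dL8_kind`: `= DC + kpZ cor`;
  the strings `T` at a variable offset (`cd8 P T`, `cd8_cd6 : cd8 P (3 / 2) = cd6 P`);
* `Tb8` = table of kernels `gk (x / 4) (y / 4)` in units `1 / 512`; `T8`: the entries; `nL8_true`, `nL8_false`;
* `PC8`, `BC8`, `PL8`, `BL8`: the bordered forms, times `512`, plain and in the basis kind `- Q A0` (`Q A1 = 1` in the
  channel `false`); index `io8 : Kd8 → Fin 8` (order of `ix8`: `L T E F H1 H2 A1 A0`);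
* `PL8_kind`, `PL8_quad`: meaning of the entries; `form_BL8`: the two forms.
-/

set_option autoImplicit false

namespace PLT

open Finset PHK NUP1 NUO NUDispO Pool.Agent.NUM3

/-! ### lists on a lattice -/

/-- lattice `1 / m`, `m = 4 * k`; lines of the kinds and the two lines `a0`, `a` of the quanta in units `1 / m` -/
structure Pt where
  k : ℤ
  jL : ℤ
  e : ℤ
  j1 : ℤ
  j2 : ℤ
  T : ℤ
  a0 : ℤ
  a : ℤ

/-- number of steps per unit -/
def Pt.m (q : Pt) : ℤ := 4 * q.k

/-- the parameters -/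
noncomputable def Pt.par (q : Pt) : Par6 := ⟨q.jL / q.m, q.e / q.m, q.j1 / q.m, q.j2 / q.m⟩

/-- the offset of the lower point of the strings `T` (`3 / 2` in `PHK`) -/
noncomputable def Pt.rT (q : Pt) : ℝ := q.T / q.m

/-- a combination of cosines: (coefficient, offset in units `1 / m`) -/
noncomputable def cs8 (m : ℤ) (L : List (ℤ × ℤ)) (z : ℝ) : ℝ :=
  (L.map fun a => (a.1 : ℝ) * Real.cosh ((4 * m - (a.2 % (8 * m) : ℤ)) * (z / m))).sum

/-- the same as a polynomial in `y = exp (-z / m)`, times `2 y ^ (4 m)` -/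
def sp8 (m : ℤ) (L : List (ℤ × ℤ)) : SP :=
  L.flatMap fun a => [(a.1, (a.2 % (8 * m)).toNat), (a.1, (8 * m - a.2 % (8 * m)).toNat)]

lemma cs8_cons (m : ℤ) (a : ℤ × ℤ) (L : List (ℤ × ℤ)) (z : ℝ) : cs8 m (a :: L) z =
    (a.1 : ℝ) * Real.cosh ((4 * m - (a.2 % (8 * m) : ℤ)) * (z / m)) + cs8 m L z := by
  simp [cs8]

lemma cs8_append (m : ℤ) (L M : List (ℤ × ℤ)) (z : ℝ) : cs8 m (L ++ M) z = cs8 m L z + cs8 m M z := by
  simp [cs8, List.sum_append]

lemma cs8_smz (m c : ℤ) (L : List (ℤ × ℤ)) (z : ℝ) : cs8 m (smz c L) z = c * cs8 m L z := by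
  induction L with
  | nil => simp [smz, cs8]
  | cons a L ih =>
    show cs8 m ((c * a.1, a.2) :: smz c L) z = _
    rw [cs8_cons, cs8_cons, ih]
    push_cast
    ring

lemma cs8_flatMap {γ : Type*} (m : ℤ) (L : List γ) (f : γ → List (ℤ × ℤ)) (z : ℝ) :
    cs8 m (L.flatMap f) z = (L.map fun a => cs8 m (f a) z).sum := by
  induction L with
  | nil => rfl
  | cons a L ih => rw [List.flatMap_cons, cs8_append, ih]; rfl

theorem ev_sp8 {m : ℤ} (hm : 0 < m) (L : List (ℤ × ℤ)) (z : ℝ) :
    ev (sp8 m L) (Real.exp (-(z / m))) = 2 * Real.exp (-(4 * z)) * cs8 m L z := by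
  have hm' : (m : ℝ) ≠ 0 := by exact_mod_cast hm.ne'
  induction L with
  | nil => simp [sp8, ev, cs8]
  | cons a L ih =>
    have e : sp8 m (a :: L) = (a.1, (a.2 % (8 * m)).toNat) :: (a.1, (8 * m - a.2 % (8 * m)).toNat) ::
      sp8 m L := rfl
    rw [e, ev_cons, ev_cons, ih, cs8_cons, Real.cosh_eq, ← Real.exp_nat_mul, ← Real.exp_nat_mul]
    have h0 : 0 ≤ a.2 % (8 * m) := Int.emod_nonneg _ (by omega)
    have h1 : a.2 % (8 * m) < 8 * m := Int.emod_lt_of_pos _ (by omega)
    have e1 : (((a.2 % (8 * m)).toNat : ℕ) : ℝ) = ((a.2 % (8 * m) : ℤ) : ℝ) := by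
      have : (((a.2 % (8 * m)).toNat : ℕ) : ℤ) = a.2 % (8 * m) := Int.toNat_of_nonneg h0
      exact_mod_cast this
    have e2 : (((8 * m - a.2 % (8 * m)).toNat : ℕ) : ℝ) = 8 * m - ((a.2 % (8 * m) : ℤ) : ℝ) := by
      have : (((8 * m - a.2 % (8 * m)).toNat : ℕ) : ℤ) = 8 * m - a.2 % (8 * m) :=
        Int.toNat_of_nonneg (by omega)
      have h := congrArg (fun n : ℤ => (n : ℝ)) this
      push_cast at h ⊢
      exact h
    rw [e1, e2]
    have e3 : Real.exp (((a.2 % (8 * m) : ℤ) : ℝ) * -(z / m)) =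
        Real.exp (-(4 * z)) * Real.exp ((4 * m - ((a.2 % (8 * m) : ℤ) : ℝ)) * (z / m)) := by
      rw [← Real.exp_add]; congr 1; field_simp; ring
    have e4 : Real.exp ((8 * m - ((a.2 % (8 * m) : ℤ) : ℝ)) * -(z / m)) =
        Real.exp (-(4 * z)) * Real.exp (-((4 * m - ((a.2 % (8 * m) : ℤ) : ℝ)) * (z / m))) := by
      rw [← Real.exp_add]; congr 1; field_simp; ring
    rw [e3, e4]
    ring

/-- a cosine with offset `j / m` -/
lemma m8_lat {m : ℤ} (hm : 0 < m) (j : ℤ) : m8 ((j : ℝ) / m) = ((j % (8 * m) : ℤ) : ℝ) / m := by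
  have hm' : (0 : ℝ) < m := by exact_mod_cast hm
  have h := Int.mul_ediv_add_emod j (8 * m)
  have h0 : 0 ≤ j % (8 * m) := Int.emod_nonneg j (by omega)
  have h1 : j % (8 * m) < 8 * m := Int.emod_lt_of_pos j (by omega)
  unfold m8
  have e : (j : ℝ) / m / 8 = ((j % (8 * m) : ℤ) : ℝ) / (8 * m) + ((j / (8 * m) : ℤ) : ℝ) := by
    have : (j : ℝ) = 8 * m * ((j / (8 * m) : ℤ) : ℝ) + ((j % (8 * m) : ℤ) : ℝ) := by exact_mod_cast h.symm
    rw [this]; field_simp; ring
  rw [e, Int.fract_add_intCast, Int.fract_eq_self.2]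
  · field_simp
  · have h0' : (0 : ℝ) ≤ ((j % (8 * m) : ℤ) : ℝ) := by exact_mod_cast h0
    have h1' : ((j % (8 * m) : ℤ) : ℝ) < 8 * m := by exact_mod_cast h1
    constructor
    · positivity
    · rw [div_lt_one (by positivity)]
      exact h1'

lemma cosh_lat {m : ℤ} (hm : 0 < m) (j : ℤ) (z : ℝ) :
    Real.cosh ((4 - m8 ((j : ℝ) / m)) * z) = Real.cosh ((4 * m - (j % (8 * m) : ℤ)) * (z / m)) := by
  have hm' : (m : ℝ) ≠ 0 := by exact_mod_cast hm.ne'
  rw [m8_lat hm]
  congr 1
  field_simp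

/-! ### constituents -/

/-- the kinds, the second line (`some none`) and the line (`none`) of the quanta -/
abbrev Kd8 := Option (Option Kd6)

/-- constituents with positions in units `l / m` -/
def cz8 (q : Pt) : Kd8 → List ((Bool × Bool × ℤ) × ℤ)
  | none => [((true, false, q.m - q.a0), 1)]
  | some none => [((true, false, q.m - q.a), 1)]
  | some (some .L) => [((true, false, q.m - q.jL), 1)]
  | some (some .T) => [((true, true, q.m - q.T), 1)]
  | some (some .E) => [((true, true, -(q.m + q.e)), 1), ((false, false, q.m - q.e), 2)]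
  | some (some .F) => [((true, true, -(q.m + q.e)), 1), ((false, false, q.m - q.e), 2),
      ((true, false, q.m - q.e), -1)]
  | some (some .H1) => [((true, false, q.m - q.j1), -1)]
  | some (some .H2) => [((true, false, q.m - q.j2), -1)]

/-- constituents with real positions, a quantum at offset `v` -/
noncomputable def cA8 (v : ℝ) : List ((Bool × Bool × ℝ) × ℤ) := [((true, false, 1 - v), 1)]

/-- constituents of the kinds with the strings `T` at offset `T` -/
noncomputable def cd8 (P : Par6) (T : ℝ) : Kd6 → List ((Bool × Bool × ℝ) × ℤ)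
  | .L => [((true, false, 1 - P.jL), 1)]
  | .T => [((true, true, 1 - T), 1)]
  | .E => [((true, true, -(1 + P.e)), 1), ((false, false, 1 - P.e), 2)]
  | .F => [((true, true, -(1 + P.e)), 1), ((false, false, 1 - P.e), 2), ((true, false, 1 - P.e), -1)]
  | .H1 => [((true, false, 1 - P.j1), -1)]
  | .H2 => [((true, false, 1 - P.j2), -1)]

lemma cd8_cd6 (P : Par6) (K : Kd6) : cd8 P (3 / 2) K = cd6 P K := by
  cases K <;> simp [cd8, cd6]
  norm_num

/-- constituents with real positions -/
noncomputable def cR8 (P : Par6) (T v0 v : ℝ) : Kd8 → List ((Bool × Bool × ℝ) × ℤ)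
  | none => cA8 v0
  | some none => cA8 v
  | some (some K) => cd8 P T K

/-- the constituent with real position -/
noncomputable def rz8 (q : Pt) (a : (Bool × Bool × ℤ) × ℤ) : (Bool × Bool × ℝ) × ℤ :=
  ((a.1.1, a.1.2.1, (a.1.2.2 : ℝ) / q.m), a.2)

lemma cR8_cz (q : Pt) (hq : 0 < q.k) (o : Kd8) : cR8 q.par q.rT (q.a0 / q.m) (q.a / q.m) o = (cz8 q o).map (rz8 q) := by
  have hm : (q.m : ℝ) ≠ 0 := by
    have : 0 < q.m := by unfold Pt.m; omega
    exact_mod_cast this.ne'
  rcases o with _ | _ | K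
  · simp only [cR8, cA8, cz8, rz8, List.map_cons, List.map_nil]
    push_cast
    rw [sub_div, div_self hm]
  · simp only [cR8, cA8, cz8, rz8, List.map_cons, List.map_nil]
    push_cast
    rw [sub_div, div_self hm]
  · cases K <;> simp only [cR8, cd8, cz8, rz8, Pt.par, Pt.rT, List.map_cons, List.map_nil] <;> push_cast <;>
      simp only [sub_div, neg_div, add_div, div_self hm]

/-- direct transform of two lists of constituents, cores not removed -/
noncomputable def DV (σ : Bool) (A B : List ((Bool × Bool × ℝ) × ℤ)) (z : ℝ) : ℝ :=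
  (A.map fun a => (B.map fun b => ((a.2 * b.2 : ℤ) : ℝ) *
    ((LL6 σ a b).map fun p => (p.2 : ℝ) * Real.cosh ((4 - m8 (a.1.2.2 - b.1.2.2 + p.1)) * z)).sum).sum).sum

/-- direct transform as a list -/
def dL8 (q : Pt) (σ : Bool) (o o' : Kd8) : List (ℤ × ℤ) :=
  (cz8 q o).flatMap fun a => (cz8 q o').flatMap fun b =>
    (Ls (σ == (a.1.1 == b.1.1)) a.1.2.1 b.1.2.1).map fun p =>
      (a.2 * b.2 * p.2, a.1.2.2 - b.1.2.2 + q.m * p.1)

/-- **the direct transform** -/
theorem dL8_eq (q : Pt) (hq : 0 < q.k) (σ : Bool) (o o' : Kd8) (z : ℝ) :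
    cs8 q.m (dL8 q σ o o') z = DV σ (cR8 q.par q.rT (q.a0 / q.m) (q.a / q.m) o) (cR8 q.par q.rT (q.a0 / q.m) (q.a / q.m) o') z := by
  have hm : 0 < q.m := by unfold Pt.m; omega
  have hm' : (q.m : ℝ) ≠ 0 := by exact_mod_cast hm.ne'
  rw [cR8_cz q hq, cR8_cz q hq]
  unfold dL8 DV
  rw [cs8_flatMap, List.map_map]
  congr 1
  refine List.map_congr_left fun a _ => ?_
  simp only [Function.comp]
  rw [cs8_flatMap, List.map_map]
  congr 1
  refine List.map_congr_left fun b _ => ?_
  simp only [Function.comp]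
  have e : LL6 σ (rz8 q a) (rz8 q b) = Ls (σ == (a.1.1 == b.1.1)) a.1.2.1 b.1.2.1 := rfl
  have e2 : (rz8 q a).2 = a.2 ∧ (rz8 q b).2 = b.2 := ⟨rfl, rfl⟩
  rw [e, e2.1, e2.2]
  unfold cs8
  rw [List.map_map, ← List.sum_map_mul_left]
  congr 1
  refine List.map_congr_left fun p _ => ?_
  simp only [Function.comp]
  rw [← cosh_lat hm]
  have e3 : (((a.1.2.2 - b.1.2.2 + q.m * p.1 : ℤ) : ℝ)) / q.m =
      (rz8 q a).1.2.2 - (rz8 q b).1.2.2 + p.1 := by
    unfold rz8
    push_cast
    field_simp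
  rw [e3]
  push_cast
  ring

/-! ### the cores of the kinds -/

/-- number of the cores in a list -/
def ct8 (m : ℤ) (L : List (ℤ × ℤ)) : ℤ := (L.map fun a => if a.2 % (8 * m) = 0 then a.1 else 0).sum

/-- direct transform of two lists of constituents, cores of scale `2 ^ n` removed (`DrM6` for `cd6`) -/
noncomputable def DC (n : ℕ) (σ : Bool) (A B : List ((Bool × Bool × ℝ) × ℤ)) (z : ℝ) : ℝ :=
  (A.map fun a => (B.map fun b =>
    ((a.2 * b.2 : ℤ) : ℝ) * La6 n (LL6 σ a b) (a.1.2.2 - b.1.2.2) z).sum).sum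

theorem DC_cd6 (n : ℕ) (P : Par6) (σ : Bool) (K K' : Kd6) (z : ℝ) :
    DC n σ (cd6 P K) (cd6 P K') z = DrM6 n P σ K K' z := rfl

/-- number of the cores of real constituents -/
noncomputable def ctR (σ : Bool) (A B : List ((Bool × Bool × ℝ) × ℤ)) : ℝ :=
  (A.map fun a => (B.map fun b => ((a.2 * b.2 : ℤ) : ℝ) *
    ((LL6 σ a b).map fun p => (p.2 : ℝ) * if m8 (a.1.2.2 - b.1.2.2 + p.1) = 0 then 1 else 0).sum).sum).sum

theorem DV_core (n : ℕ) (σ : Bool) (A B : List ((Bool × Bool × ℝ) × ℤ)) (z : ℝ) :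
    DV σ A B z = DC n σ A B z + ctR σ A B * cor n z := by
  unfold DV DC ctR
  rw [← List.sum_map_mul_right, ← List.sum_map_add]
  congr 1
  refine List.map_congr_left fun a _ => ?_
  rw [← List.sum_map_mul_right, ← List.sum_map_add]
  congr 1
  refine List.map_congr_left fun b _ => ?_
  unfold La6 cr
  rw [mul_assoc, ← List.sum_map_mul_right, ← mul_add, ← List.sum_map_add]
  congr 2
  refine List.map_congr_left fun p _ => ?_
  split_ifs <;> ring

theorem ctR_eq (q : Pt) (hq : 0 < q.k) (σ : Bool) (o o' : Kd8) :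
    ctR σ (cR8 q.par q.rT (q.a0 / q.m) (q.a / q.m) o) (cR8 q.par q.rT (q.a0 / q.m) (q.a / q.m) o') = ct8 q.m (dL8 q σ o o') := by
  have hm : 0 < q.m := by unfold Pt.m; omega
  have hm' : (q.m : ℝ) ≠ 0 := by exact_mod_cast hm.ne'
  have hfl : ∀ {γ : Type} (L : List γ) (f : γ → List (ℤ × ℤ)), ((ct8 q.m (L.flatMap f) : ℤ) : ℝ) =
      (L.map fun a => ((ct8 q.m (f a) : ℤ) : ℝ)).sum := by
    intro γ L f
    induction L with
    | nil => simp [ct8]
    | cons a L ih =>
      rw [List.flatMap_cons, List.map_cons, List.sum_cons, ← ih]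
      unfold ct8
      rw [List.map_append, List.sum_append]
      push_cast
      ring
  rw [cR8_cz q hq, cR8_cz q hq]
  unfold dL8 ctR
  rw [hfl, List.map_map]
  congr 1
  refine List.map_congr_left fun a _ => ?_
  simp only [Function.comp]
  rw [hfl, List.map_map]
  congr 1
  refine List.map_congr_left fun b _ => ?_
  simp only [Function.comp]
  have e : LL6 σ (rz8 q a) (rz8 q b) = Ls (σ == (a.1.1 == b.1.1)) a.1.2.1 b.1.2.1 := rfl
  have e2 : (rz8 q a).2 = a.2 ∧ (rz8 q b).2 = b.2 := ⟨rfl, rfl⟩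
  rw [e, e2.1, e2.2]
  unfold ct8
  rw [List.map_map, sum_cast, ← List.sum_map_mul_left]
  congr 1
  refine List.map_congr_left fun p _ => ?_
  simp only [Function.comp]
  have e3 : (rz8 q a).1.2.2 - (rz8 q b).1.2.2 + p.1 =
      (((a.1.2.2 - b.1.2.2 + q.m * p.1 : ℤ) : ℝ)) / q.m := by
    unfold rz8
    push_cast
    field_simp
  rw [e3, m8_lat hm]
  have h : (((((a.1.2.2 - b.1.2.2 + q.m * p.1) % (8 * q.m) : ℤ) : ℝ)) / q.m = 0) ↔
      ((a.1.2.2 - b.1.2.2 + q.m * p.1) % (8 * q.m) = 0) := by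
    rw [div_eq_zero_iff]
    constructor
    · rintro (h | h)
      · exact_mod_cast h
      · exact absurd h hm'
    · intro h
      left
      exact_mod_cast h
  simp only [h]
  split_ifs
  · push_cast; ring
  · push_cast; ring

/-- **the direct transform of the kinds**, cores put back -/
theorem dL8_kind (q : Pt) (hq : 0 < q.k)
    (hc : ∀ σ K K', ct8 q.m (dL8 q σ (some (some K)) (some (some K'))) = kpZ σ K K')
    (n : ℕ) (σ : Bool) (K K' : Kd6) (z : ℝ) :
    cs8 q.m (dL8 q σ (some (some K)) (some (some K'))) z =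
      DC n σ (cd8 q.par q.rT K) (cd8 q.par q.rT K') z + kpZ σ K K' * cor n z := by
  rw [dL8_eq q hq]
  show DV σ (cd8 q.par q.rT K) (cd8 q.par q.rT K') z = _
  rw [DV_core n]
  have h := ctR_eq q hq σ (some (some K)) (some (some K'))
  rw [hc] at h
  rw [show ctR σ (cd8 q.par q.rT K) (cd8 q.par q.rT K') = kpZ σ K K' from h]

/-! ### the table of kernels -/

/-- a table: kernels `gk (x / 4) (y / 4)` with coefficients in units `1 / 512`; contacts = `kpZ`, widths = `epZ` -/
abbrev Tb8 := Bool → Kd6 → Kd6 → List (ℤ × ℤ × ℤ)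

/-- the entries -/
noncomputable def T8 (t : Tb8) (σ : Bool) (K K' : Kd6) : NE :=
  ⟨kpZ σ K K', epZ σ / 1024, (t σ K K').map fun p => ((p.1 : ℝ) / 512, (p.2.1 : ℝ) / 4, (p.2.2 : ℝ) / 4)⟩

/-- the kernels, times `512`; the core kernels of the same family are not included -/
def nL8 (q : Pt) (t : Tb8) (σ : Bool) (K K' : Kd6) : List (ℤ × ℤ) :=
  (if σ then [] else [(512 * kpZ false K K', 0), (-512 * kpZ false K K', 2 * q.k)]) ++
    (t σ K K').flatMap fun p => [(p.1, q.k * p.2.1), (-p.1, q.k * p.2.2)]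

/-- ranges of a table -/
def RgT (t : Tb8) : Prop := ∀ σ K K', ∀ p ∈ t σ K K', (0 ≤ p.2.1 ∧ p.2.1 < 32) ∧ 0 ≤ p.2.2 ∧ p.2.2 < 32

lemma cs8_pt (q : Pt) (hq : 0 < q.k) (c x : ℤ) (L : List (ℤ × ℤ)) (z : ℝ) (h0 : 0 ≤ x) (h1 : x < 32) :
    cs8 q.m ((c, q.k * x) :: L) z = c * Real.cosh ((4 - (x : ℝ) / 4) * z) + cs8 q.m L z := by
  have hm : 0 < q.m := by unfold Pt.m; omega
  have hk : (q.k : ℝ) ≠ 0 := by exact_mod_cast hq.ne'
  have hm2 : (q.m : ℝ) = 4 * q.k := by unfold Pt.m; push_cast; ring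
  have e : q.k * x % (8 * q.m) = q.k * x := by
    refine Int.emod_eq_of_lt (mul_nonneg hq.le h0) ?_
    unfold Pt.m
    nlinarith
  rw [cs8_cons]
  simp only [e]
  rw [hm2]
  push_cast
  congr 3
  field_simp

lemma cs8_tab (q : Pt) (hq : 0 < q.k) (T : List (ℤ × ℤ × ℤ))
    (h : ∀ p ∈ T, (0 ≤ p.2.1 ∧ p.2.1 < 32) ∧ 0 ≤ p.2.2 ∧ p.2.2 < 32) (z : ℝ) :
    cs8 q.m (T.flatMap fun p => [(p.1, q.k * p.2.1), (-p.1, q.k * p.2.2)]) z =
      512 * ((T.map fun p => ((p.1 : ℝ) / 512, (p.2.1 : ℝ) / 4, (p.2.2 : ℝ) / 4)).map fun p =>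
        p.1 * (Real.cosh ((4 - p.2.1) * z) - Real.cosh ((4 - p.2.2) * z))).sum := by
  rw [cs8_flatMap, List.map_map, ← List.sum_map_mul_left]
  congr 1
  refine List.map_congr_left fun p hp => ?_
  obtain ⟨⟨h1, h2⟩, h3, h4⟩ := h p hp
  rw [cs8_pt q hq _ _ _ _ h1 h2, cs8_pt q hq _ _ _ _ h3 h4]
  simp only [Function.comp, cs8, List.map_nil, List.sum_nil]
  push_cast
  ring

/-- **the kernels of the different families** -/
theorem nL8_false (q : Pt) (hq : 0 < q.k) {t : Tb8} (ht : RgT t) (n : ℕ) (K K' : Kd6) (z : ℝ) :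
    cs8 q.m (nL8 q t false K K') z = 512 * (nE n (T8 t false K K') z + kpZ false K K' * cor n z) := by
  unfold nL8 nE T8 cor
  simp only [Bool.false_eq_true, if_false]
  rw [List.cons_append, List.cons_append, List.nil_append]
  have e0 := cs8_pt q hq (512 * kpZ false K K') 0 ((-512 * kpZ false K K', 2 * q.k) ::
    (t false K K').flatMap fun p => [(p.1, q.k * p.2.1), (-p.1, q.k * p.2.2)]) z le_rfl (by norm_num)
  have e1 := cs8_pt q hq (-512 * kpZ false K K') 2
    ((t false K K').flatMap fun p => [(p.1, q.k * p.2.1), (-p.1, q.k * p.2.2)]) z (by norm_num) (by norm_num)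
  rw [mul_zero] at e0
  rw [mul_comm q.k 2] at e1
  rw [e0, e1, cs8_tab q hq _ (ht false K K'), show epZ false = 512 from rfl]
  push_cast
  norm_num
  ring

/-- **the kernels of the same family** -/
theorem nL8_true (q : Pt) (hq : 0 < q.k) {t : Tb8} (ht : RgT t) (n : ℕ) (K K' : Kd6) (z : ℝ) :
    cs8 q.m (nL8 q t true K K') z = 512 * (nE n (T8 t true K K') z + kpZ true K K' * cor n z -
      kpZ true K K' * (Real.cosh (4 * z) - Real.cosh ((4 - 1 / 1024) * z))) := by
  unfold nL8 nE T8 cor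
  simp only [if_true, List.nil_append]
  rw [cs8_tab q hq _ (ht true K K'), show epZ true = 1 from rfl]
  push_cast
  ring

/-! ### the bordered forms -/

/-- sign of a channel -/
def sg8 (s : Bool) : ℤ := if s then 1 else -1

/-- the kernels, bordered -/
def nB8 (q : Pt) (t : Tb8) (s : Bool) : Kd8 → Kd8 → List (ℤ × ℤ)
  | some (some K), some (some K') => nL8 q t true K K' ++ smz (sg8 s) (nL8 q t false K K')
  | _, _ => []

/-- the plain bordered form, times `512` -/
def PC8 (q : Pt) (t : Tb8) (s : Bool) (o o' : Kd8) : List (ℤ × ℤ) :=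
  smz 512 (dL8 q true o o' ++ smz (sg8 s) (dL8 q false o o')) ++ smz (-1) (nB8 q t s o o')

/-- charge in the change of basis -/
def qz8 (s : Bool) : Option Kd6 → ℤ
  | none => if s then 0 else 1
  | some K => if s then 0 else qc6 K

/-- the bordered form in the basis kind `- Q A0`, times `512` -/
def BC8 (q : Pt) (t : Tb8) (s : Bool) : Kd8 → Kd8 → List (ℤ × ℤ)
  | some α, some β => PC8 q t s (some α) (some β) ++ smz (-qz8 s α) (PC8 q t s none (some β)) ++
      smz (-qz8 s β) (PC8 q t s (some α) none) ++ smz (qz8 s α * qz8 s β) (PC8 q t s none none)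
  | some α, none => PC8 q t s (some α) none ++ smz (-qz8 s α) (PC8 q t s none none)
  | none, some β => PC8 q t s none (some β) ++ smz (-qz8 s β) (PC8 q t s none none)
  | none, none => PC8 q t s none none

/-- index (`L T E F H1 H2 A1 A0`) -/
def io8 : Kd8 → Fin 8
  | some (some .L) => 0
  | some (some .T) => 1
  | some (some .E) => 2
  | some (some .F) => 3
  | some (some .H1) => 4
  | some (some .H2) => 5
  | some none => 6
  | none => 7

/-- kind of an index -/
def oi8 : Fin 8 → Kd8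
  | 0 => some (some .L)
  | 1 => some (some .T)
  | 2 => some (some .E)
  | 3 => some (some .F)
  | 4 => some (some .H1)
  | 5 => some (some .H2)
  | 6 => some none
  | 7 => none

lemma oi_io8 (o : Kd8) : oi8 (io8 o) = o := by
  rcases o with _ | _ | K
  · rfl
  · rfl
  · cases K <;> rfl

/-- indices of the bordered matrix -/
def eqo8 : Fin 8 ≃ Kd8 where
  toFun := oi8
  invFun := io8
  left_inv := by decide
  right_inv := oi_io8

theorem sum8o (f : Fin 8 → ℝ) : ∑ i, f i = ∑ o : Kd8, f (io8 o) := by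
  rw [← eqo8.symm.sum_comp f]
  rfl

/-- charges of the cores of the same pairs, bordered -/
def kpo8 : Kd8 → Kd8 → ℝ
  | some (some K), some (some K') => kapS K K'
  | _, _ => 0

lemma kap8_o (o o' : Kd8) : kap8 (io8 o) (io8 o') = kpo8 o o' := by
  rcases o with _ | _ | K <;> rcases o' with _ | _ | K'
  all_goals first
    | rfl
    | (cases K <;> rfl)
    | (cases K' <;> rfl)
    | (cases K <;> cases K' <;> rfl)

/-- **the plain bordered form as integer polynomials** -/
def PL8 (q : Pt) (t : Tb8) (s : Bool) (i j : Fin 8) : SP := col (sp8 q.m (PC8 q t s (oi8 i) (oi8 j)))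

/-- **the bordered form as integer polynomials** -/
def BL8 (q : Pt) (t : Tb8) (s : Bool) (i j : Fin 8) : SP := col (sp8 q.m (BC8 q t s (oi8 i) (oi8 j)))

/-! ### meaning of the entries -/

lemma kpZ_kapS8 (K K' : Kd6) : ((kpZ true K K' : ℤ) : ℝ) = kapS K K' := by
  cases K <;> cases K' <;> simp [kpZ, kapS]

/-- direct transform of a channel -/
noncomputable def DS8 (s : Bool) (A B : List ((Bool × Bool × ℝ) × ℤ)) (z : ℝ) : ℝ :=
  DV true A B z + sg8 s * DV false A B z

/-- **entries with a line of the quanta** -/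
theorem PL8_quad (q : Pt) (hq : 0 < q.k) (t : Tb8) (s : Bool) (o o' : Kd8)
    (h : nB8 q t s o o' = []) (z : ℝ) :
    ev (PL8 q t s (io8 o) (io8 o')) (Real.exp (-(z / q.m))) =
      1024 * Real.exp (-(4 * z)) *
        DS8 s (cR8 q.par q.rT (q.a0 / q.m) (q.a / q.m) o) (cR8 q.par q.rT (q.a0 / q.m) (q.a / q.m) o') z := by
  have hm : 0 < q.m := by unfold Pt.m; omega
  unfold PL8 PC8 DS8
  rw [ev_col, ev_sp8 hm, oi_io8, oi_io8, h, cs8_append, cs8_smz, cs8_append, cs8_smz, dL8_eq q hq, dL8_eq q hq,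
    cs8_smz]
  simp only [cs8, List.map_nil, List.sum_nil]
  push_cast
  ring

theorem PL8_A (q : Pt) (hq : 0 < q.k) (t : Tb8) (s : Bool) (o : Kd8) (z : ℝ) :
    ev (PL8 q t s (io8 o) 7) (Real.exp (-(z / q.m))) = 1024 * Real.exp (-(4 * z)) *
        DS8 s (cR8 q.par q.rT (q.a0 / q.m) (q.a / q.m) o) (cA8 (q.a0 / q.m)) z ∧
    ev (PL8 q t s 7 (io8 o)) (Real.exp (-(z / q.m))) = 1024 * Real.exp (-(4 * z)) *
        DS8 s (cA8 (q.a0 / q.m)) (cR8 q.par q.rT (q.a0 / q.m) (q.a / q.m) o) z := by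
  constructor
  · exact PL8_quad q hq t s o none (by rcases o with _ | _ | K <;> rfl) z
  · exact PL8_quad q hq t s none o (by rcases o with _ | _ | K <;> rfl) z

theorem PL8_A1 (q : Pt) (hq : 0 < q.k) (t : Tb8) (s : Bool) (o : Kd8) (z : ℝ) :
    ev (PL8 q t s (io8 o) 6) (Real.exp (-(z / q.m))) = 1024 * Real.exp (-(4 * z)) *
        DS8 s (cR8 q.par q.rT (q.a0 / q.m) (q.a / q.m) o) (cA8 (q.a / q.m)) z ∧
    ev (PL8 q t s 6 (io8 o)) (Real.exp (-(z / q.m))) = 1024 * Real.exp (-(4 * z)) *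
        DS8 s (cA8 (q.a / q.m)) (cR8 q.par q.rT (q.a0 / q.m) (q.a / q.m) o) z := by
  constructor
  · exact PL8_quad q hq t s o (some none) (by rcases o with _ | _ | K <;> rfl) z
  · exact PL8_quad q hq t s (some none) o (by rcases o with _ | _ | K <;> rfl) z

/-- **entries of the kinds** -/
theorem PL8_kind (q : Pt) (hq : 0 < q.k)
    (hc : ∀ σ K K', ct8 q.m (dL8 q σ (some (some K)) (some (some K'))) = kpZ σ K K')
    {t : Tb8} (ht : RgT t) (n : ℕ) (s : Bool) (K K' : Kd6) (z : ℝ) :
    ev (PL8 q t s (io8 (some (some K))) (io8 (some (some K')))) (Real.exp (-(z / q.m))) =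
      1024 * Real.exp (-(4 * z)) * (DC n true (cd8 q.par q.rT K) (cd8 q.par q.rT K') z +
        sg8 s * DC n false (cd8 q.par q.rT K) (cd8 q.par q.rT K') z -
        (nE n (T8 t true K K') z + sg8 s * nE n (T8 t false K K') z) +
        kapS K K' * (Real.cosh (4 * z) - Real.cosh ((4 - 1 / 1024) * z))) := by
  have hm : 0 < q.m := by unfold Pt.m; omega
  unfold PL8 PC8
  rw [ev_col, ev_sp8 hm, oi_io8, oi_io8]
  show _ * cs8 q.m (_ ++ smz (-1) (nL8 q t true K K' ++ smz (sg8 s) (nL8 q t false K K'))) z = _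
  rw [cs8_append, cs8_smz, cs8_append, cs8_smz, dL8_kind q hq hc n, dL8_kind q hq hc n,
    cs8_smz, cs8_append, cs8_smz, nL8_true q hq ht n, nL8_false q hq ht n, ← kpZ_kapS8]
  push_cast
  ring

/-! ### the change of basis -/

section basis

variable {α : Type} [Fintype α]

/-- the form after a change of basis -/
theorem border_form {P B κ : Option α → Option α → ℝ} {Q : α → ℝ} (c : ℝ)
    (k1 : ∀ a, κ (some a) none = 0) (k2 : ∀ a, κ none (some a) = 0) (k3 : κ none none = 0)
    (b1 : ∀ a b, B (some a) (some b) = P (some a) (some b) - Q a * P none (some b) - Q b * P (some a) none +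
      Q a * Q b * P none none)
    (b2 : ∀ a, B (some a) none = P (some a) none - Q a * P none none)
    (b3 : ∀ a, B none (some a) = P none (some a) - Q a * P none none)
    (b4 : B none none = P none none) (v w : Option α → ℝ) (hw : ∀ a, w (some a) = v (some a))
    (hw0 : w none = v none + ∑ a, Q a * v (some a)) :
    ∑ o, ∑ o', (P o o' - c * κ o o') * v o * v o' = ∑ o, ∑ o', (B o o' - c * κ o o') * w o * w o' := by
  set S : ℝ := ∑ a, Q a * v (some a) with hS
  simp only [Fintype.sum_option, k1, k2, k3, b1, b2, b3, b4, hw, hw0, mul_zero, sub_zero]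
  have e1 : ∑ a, ∑ b, (P (some a) (some b) - Q a * P none (some b) - Q b * P (some a) none +
      Q a * Q b * P none none - c * κ (some a) (some b)) * v (some a) * v (some b) =
      ∑ a, ∑ b, (P (some a) (some b) - c * κ (some a) (some b)) * v (some a) * v (some b) -
        S * ∑ b, P none (some b) * v (some b) - S * ∑ a, P (some a) none * v (some a) +
        S * S * P none none := by
    have h1 : S * ∑ b, P none (some b) * v (some b) =
        ∑ a, ∑ b, Q a * P none (some b) * v (some a) * v (some b) := by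
      rw [hS, Finset.sum_mul_sum]
      exact Finset.sum_congr rfl fun a _ => Finset.sum_congr rfl fun b _ => by ring
    have h2 : S * ∑ a, P (some a) none * v (some a) =
        ∑ a, ∑ b, Q b * P (some a) none * v (some a) * v (some b) := by
      rw [hS, Finset.sum_mul_sum, Finset.sum_comm]
      exact Finset.sum_congr rfl fun a _ => Finset.sum_congr rfl fun b _ => by ring
    have h3 : S * S * P none none = ∑ a, ∑ b, Q a * Q b * P none none * v (some a) * v (some b) := by
      rw [hS, Finset.sum_mul_sum, Finset.sum_mul]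
      refine Finset.sum_congr rfl fun a _ => ?_
      rw [Finset.sum_mul]
      exact Finset.sum_congr rfl fun b _ => by ring
    rw [h1, h2, h3, ← Finset.sum_sub_distrib, ← Finset.sum_sub_distrib, ← Finset.sum_add_distrib]
    refine Finset.sum_congr rfl fun a _ => ?_
    rw [← Finset.sum_sub_distrib, ← Finset.sum_sub_distrib, ← Finset.sum_add_distrib]
    exact Finset.sum_congr rfl fun b _ => by ring
  have e2 : ∑ a, (P none (some a) - Q a * P none none) * (v none + S) * v (some a) =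
      (v none + S) * ∑ b, P none (some b) * v (some b) - (v none + S) * S * P none none := by
    have h1 : (v none + S) * ∑ b, P none (some b) * v (some b) =
        ∑ b, (v none + S) * (P none (some b) * v (some b)) := Finset.mul_sum _ _ _
    have h2 : (v none + S) * S * P none none = ∑ b, (v none + S) * P none none * (Q b * v (some b)) := by
      rw [← Finset.mul_sum, ← hS]; ring
    rw [h1, h2, ← Finset.sum_sub_distrib]
    exact Finset.sum_congr rfl fun b _ => by ring
  have e3 : ∑ a, (P (some a) none - Q a * P none none) * v (some a) * (v none + S) =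
      (v none + S) * ∑ b, P (some b) none * v (some b) - (v none + S) * S * P none none := by
    have h1 : (v none + S) * ∑ b, P (some b) none * v (some b) =
        ∑ b, (v none + S) * (P (some b) none * v (some b)) := Finset.mul_sum _ _ _
    have h2 : (v none + S) * S * P none none = ∑ b, (v none + S) * P none none * (Q b * v (some b)) := by
      rw [← Finset.mul_sum, ← hS]; ring
    rw [h1, h2, ← Finset.sum_sub_distrib]
    exact Finset.sum_congr rfl fun b _ => by ring
  have e4 : ∑ a, P none (some a) * v none * v (some a) = v none * ∑ b, P none (some b) * v (some b) := by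
    rw [Finset.mul_sum]
    exact Finset.sum_congr rfl fun b _ => by ring
  have e5 : ∑ a, P (some a) none * v (some a) * v none = v none * ∑ b, P (some b) none * v (some b) := by
    rw [Finset.mul_sum]
    exact Finset.sum_congr rfl fun b _ => by ring
  rw [Finset.sum_add_distrib, Finset.sum_add_distrib, e1, e2, e3, e4, e5]
  ring

end basis

lemma ev_sp8_append (m : ℤ) (a b : List (ℤ × ℤ)) (y : ℝ) :
    ev (sp8 m (a ++ b)) y = ev (sp8 m a) y + ev (sp8 m b) y := by
  rw [show sp8 m (a ++ b) = sp8 m a ++ sp8 m b by simp [sp8], ev_append]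

lemma ev_sp8_smz (m c : ℤ) (a : List (ℤ × ℤ)) (y : ℝ) : ev (sp8 m (smz c a)) y = c * ev (sp8 m a) y := by
  induction a with
  | nil => simp [sp8, smz, ev]
  | cons x a ih =>
    have e1 : sp8 m (smz c (x :: a)) = (c * x.1, (x.2 % (8 * m)).toNat) ::
      (c * x.1, (8 * m - x.2 % (8 * m)).toNat) :: sp8 m (smz c a) := rfl
    have e2 : sp8 m (x :: a) = (x.1, (x.2 % (8 * m)).toNat) ::
      (x.1, (8 * m - x.2 % (8 * m)).toNat) :: sp8 m a := rfl
    rw [e1, e2, ev_cons, ev_cons, ev_cons, ev_cons, ih]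
    push_cast
    ring

/-- the vector in the new basis -/
def wv8 (s : Bool) (v : Fin 8 → ℝ) (i : Fin 8) : ℝ :=
  match oi8 i with
  | some a => v (io8 (some a))
  | none => v 7 + ∑ a, (qz8 s a : ℝ) * v (io8 (some a))

/-- **the two bordered forms** -/
theorem form_BL8 (q : Pt) (t : Tb8) (s : Bool) (y c : ℝ) (v : Fin 8 → ℝ) :
    ∑ i, ∑ j, (ev (PL8 q t s i j) y - c * kap8 i j) * v i * v j =
      ∑ i, ∑ j, (ev (BL8 q t s i j) y - c * kap8 i j) * wv8 s v i * wv8 s v j := by
  have h := border_form (α := Option Kd6) (P := fun o o' => ev (PL8 q t s (io8 o) (io8 o')) y)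
    (B := fun o o' => ev (BL8 q t s (io8 o) (io8 o')) y) (κ := fun o o' => kpo8 o o')
    (Q := fun a => (qz8 s a : ℝ)) c (fun a => by rcases a with _ | K <;> rfl) (fun a => rfl) rfl
    (fun a b => by
      simp only [PL8, BL8, ev_col, oi_io8, BC8, ev_sp8_append, ev_sp8_smz]
      push_cast
      ring)
    (fun a => by
      simp only [PL8, BL8, ev_col, oi_io8, BC8, ev_sp8_append, ev_sp8_smz]
      push_cast
      ring)
    (fun a => by
      simp only [PL8, BL8, ev_col, oi_io8, BC8, ev_sp8_append, ev_sp8_smz]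
      push_cast
      ring)
    (by simp only [PL8, BL8, ev_col, oi_io8, BC8])
    (fun o => v (io8 o)) (fun o => wv8 s v (io8 o))
    (fun a => by unfold wv8; rw [oi_io8])
    (by unfold wv8; rw [oi_io8]; rfl)
  rw [sum8o]
  simp only [sum8o]
  simp only [kap8_o]
  exact h

end PLT
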