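import Pool.Agent.PHK.Rg6
import Pool.Agent.PHK.DecZ6

/-!
# The sum of the final classes of the regular function, any point `P`

* `RU.KR`, `RU.KR'` : a half quantum with a captured quantum, regular also if a row is at `l / 4`
  (`RU.Ok.KP_eq`: it is `KP` otherwise); `RU.cG t t'` : the final classes with them;
* **`RU.fin D P n n'`** : the sum of the final classes, quanta on `51/100 l`, objects on the lines of `P`.
-/

set_option autoImplicit false
set_option linter.unusedSectionVars false
set_option linter.unusedVariables false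

noncomputable section

open Complex MeasureTheory

namespace Pool.Agent.PLX

open NUP1 NUP1S NUP1.Bd NURow PBX
open NUP1.N (Z3 Gr0 prc pr1 rA rB E11)

variable {m M : ℕ}

/-- **the half quantum X with a captured quantum Y**, regular form -/
def RU.KR (D : RU m M) (w : ℂ) : ℂ := sin l / sin (2 * l) * (prc D.p D.q D.x w * D.hY (w + 3 * l))

/-- the half quantum Y with a captured quantum X, regular form -/
def RU.KR' (D : RU m M) (w : ℂ) : ℂ := sin l / sin (2 * l) * (prc D.q D.p D.y w * D.hX (w + 3 * l))

/-- **the final classes** -/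
abbrev RU.cG (D : RU m M) (t t' : HT) : CD := NURow.cF D.X D.Y D.KF D.KR D.KF' D.KR' t t'

/-- **the sum of the final classes**, numbers `n`, `n'`, quanta on `51/100 l`, objects on the lines of `P` -/
def RU.fin (D : RU m M) (P : PHK.Par6) (n n' : ℕ) : ℂ :=
  ((2 * Real.pi : ℂ)⁻¹) ^ 2 * ∑ t : HT, ∑ t' : HT, t.sg * t'.sg *
      (D.cG t t').val D.X D.Y (51 / 100 * l) n n' (PHK.lX6 P) (PHK.lY6 P) -
    sin l / sin (2 * l) * ((2 * Real.pi : ℂ)⁻¹ *
      ((cD D.XD).val D.X D.Y (51 / 100 * l) n n' (PHK.lX6 P) (PHK.lY6 P) +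
        (cD' D.XD').val D.X D.Y (51 / 100 * l) n n' (PHK.lX6 P) (PHK.lY6 P)))

theorem RU.sw_KR (D : RU m M) : D.sw.KR = D.KR' := rfl

theorem RU.sw_KR' (D : RU m M) : D.sw.KR' = D.KR := rfl

end Pool.Agent.PLX

end
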