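import Pool.Agent.PHK.LgZL
import Pool.Agent.PHK.LgDec0
import Pool.Agent.PHK.LgGn

/-!
# The classes of two letters on the lines of any `P`

The text of `PHK/LgDec`, `PHK/LgDec0`, `PHK/LgGn` for every `P` and any window `(a, b₂)` of the inverses.

* **`OffL6 P p`**: no line of `DecQL6` differs by a multiple of `l` from `p`; `offZ6_of`;
* `decQL6_twoP`: two spectators;
* **`LgBP X P a b₂ κ κ' e`**: the base; `LgBP.decQ`;
* **`decZ6_ZcP`**, `diff_ZcP` (t, t' ≠ H), **`decA_ZcP`**, `decL_ZcP`, `decT_ZcP`, `decS_ZcP`, `ms_YVP`,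
  **`decL6_LgP`**;
* **`gnX_aeP`**: almost all heights are generic.
-/

set_option autoImplicit false
set_option linter.unusedSectionVars false

noncomputable section

open Complex MeasureTheory Finset
open scoped ENNReal

open PLX (Fil)

namespace PHK

open NUO NUP1 NUP1S NUP1S.Mg NURow NUCR NUP1.Leg NUGC.PLX PBR.PLX
open NUP1.Bd (wt qg Ob)
open Pool.Agent.PLX (InvZ6)

/-- **no line of `P` in a difference of a multiple of `l` from `p`** -/
def OffL6 (P : Par6) (p : ℝ) : Prop := ∀ x ∈ lnQ6 P, NM6 (p - x)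

theorem offL6_of {P : Par6} {p : ℝ} (h : ∀ x ∈ ({(1 - P.e) * l, l, (1 - P.jL) * l, -(l / 2),
    -((1 + P.e) * l), (1 - P.j2) * l, (1 - P.j1) * l} : Set ℝ), NM6 (p - x)) : OffL6 P p := h

/-- zeros off the lines -/
theorem offZ6_of {P : Par6} {ν : Bool → Type} [∀ s, Fintype (ν s)] [∀ s, LinearOrder (ν s)]
    {ζ : ∀ s, ν s → ℂ} (h : ∀ s j, OffL6 P (ζ s j).re) : OffZ6 P ζ := h

/-- the kinds -/
theorem lnK6_sub (P : Par6) (k : Option O3) : lnK6 P k ⊆ lnQ6 P := by
  intro x hx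
  unfold lnQ6
  simp only [Set.mem_insert_iff, Set.mem_singleton_iff]
  rcases k with _ | (_ | _ | _) <;> simp only [lnK6, Set.mem_insert_iff, Set.mem_singleton_iff] at hx
    <;> tauto

/-- **two spectators** -/
theorem decQL6_twoP {X : Bool → Option O3 → ℂ → ℂ} {P : Par6} {κ κ' Q : ℝ}
    {F F' : Bool → Option O3 → ℂ → ℂ} {q q' : ℝ}
    (h : ∀ c k, UI6 (q * sc (c, ob4 k)) (F c k)) (h' : ∀ c k, UI6 (q' * sc (c, ob4 k)) (F' c k))
    {w w' : ℂ} (hw : OffL6 P w.re) (hw' : OffL6 P w'.re) (hX : DecQL6 X P κ κ' Q) :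
    DecQL6 (fun a => XS a (X a) F (fl F') w w') P κ κ' (Q + (q' - q) / 2) :=
  decL6_mul hX (G := fun s k u => F s k (w - u) * F' (!s) k (w' - u)) fun s k => by
    have h1 := pi_two6 h h' (lnQ6_finite P).isCompact hw hw' s k
    exact h1.rate (by ring)

/-! ### the base -/

/-- **the base of the classes** of two letters, charge `-e`: inverse on the window `(a, b₂)` -/
structure LgBP (X : Bool → Option O3 → ℂ → ℂ) (P : Par6) (a b₂ κ κ' : ℝ) (e : ℕ) : Prop where
  ms : ∀ s k, Measurable (X s k)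
  k0 : 0 < κ
  k6 : κ' < 6
  dec : Pool.Agent.PLX.DecZ6 X P (51 / 100 * l) κ (-(e : ℝ))
  ian : ∀ s (u : ℂ), a < u.re → u.re < b₂ → DifferentiableAt ℂ (fun u => (X s none u)⁻¹) u
  ibd : ∀ s, Bdd (Set.Icc ((1 - P.j2) * l) ((1 - P.j1) * l)) (κ' + 2 * (-(e : ℝ)) * sc (s, Ob.A))
    fun u => (X s none u)⁻¹
  ne : ∀ s (u : ℂ), 51 / 100 * l ≤ u.re → u.re < b₂ → X s none u ≠ 0
  an : ∀ s (u : ℂ), 51 / 100 * l ≤ u.re → u.re ≤ l → DifferentiableAt ℂ (X s none) u

/-- the base of (P) -/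
theorem LgB.toP {X : Bool → Option O3 → ℂ → ℂ} {κ : ℝ} {e : ℕ} (h : LgB X κ e) :
    LgBP X par6 (1 / 9 * l) (63 / 64 * l) κ κ e := by
  have hl := NUP1.l_pos
  refine ⟨h.ms, h.k0, by linarith [h.k1], h.dec, h.inv.an, fun s => ?_, h.inv.ne, h.an⟩
  refine Bdd.mono_set (h.inv.bd s) (Set.Icc_subset_Icc ?_ ?_)
  · show 1 / 8 * l ≤ (1 - 7 / 8) * l
    linarith
  · show (1 - 1 / 32) * l ≤ 31 / 32 * l
    linarith

/-- conditions on `P` -/
structure LnE6 (P : Par6) : Prop where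
  e0 : 0 ≤ P.e
  e1 : P.e ≤ 49 / 100
  j1 : P.j1 ≤ P.e
  j2 : P.e ≤ P.j2

theorem lnE6_good {P : Par6} (h : GoodP6 P) : LnE6 P :=
  ⟨by linarith [h.e13], by linarith [h.e45], h.j1e.le, h.ej2.le⟩

section cls

variable {X : Bool → Option O3 → ℂ → ℂ} {P : Par6} {a b₂ κ κ' : ℝ} {e : ℕ} {t t' : HT} {w w' : ℂ}

/-- **`DecQL6` of the base** -/
theorem LgBP.decQ (hP : LnE6 P) (hB : LgBP X P a b₂ κ κ' e) : DecQL6 X P κ κ' (-(e : ℝ)) := by
  have hl := NUP1.l_pos
  have h1 := hP.e0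
  have h2 := hP.e1
  have h3 := hP.j1
  have h4 := hP.j2
  refine ⟨hB.k0, hB.k6, fun s => ?_, hB.dec.L, hB.dec.T, hB.dec.S, fun s => ?_⟩
  · refine decOn_line (hB.dec.A s) ?_
    rintro x (hx | hx)
    · rw [hx]
      constructor <;> nlinarith
    · rw [show x = l from hx]
      constructor <;> linarith
  · refine Bdd.mono_set (hB.ibd s) ?_
    rintro x (hx | hx | hx)
    · rw [hx]
      constructor <;> nlinarith
    · rw [hx]
      constructor <;> nlinarith
    · rw [show x = (1 - P.j1) * l from hx]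
      constructor <;> nlinarith

/-- **differentiability of the class function of the quanta**, `t, t' ≠ H` -/
theorem diff_ZcP (hB : LgBP X P a b₂ κ κ' e) (ht : t ≠ .H) (ht' : t' ≠ .H) (hw : w.re = htL t)
    (hw' : w'.re = htL t') (s : Bool) (u : ℂ) (h1 : 51 / 100 * l ≤ u.re) (h2 : u.re ≤ l) :
    DifferentiableAt ℂ (Zc6 X t t' w w' s none) u :=
  diff_two (ui_v0 t) (ui_v0 t') (hw ▸ nm6_strip ht h1 h2) (hw' ▸ nm6_strip ht' h1 h2)
    (hB.an s u h1 h2)

/-- **`L`**, any types -/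
theorem decL_ZcP (hB : LgBP X P a b₂ κ κ' e) (ho : OffL6 P (htL t)) (ho' : OffL6 P (htL t'))
    (hw : w.re = htL t) (hw' : w'.re = htL t') (s : Bool) :
    DecOn (κ + 2 * (((aXt e t t' : ℤ) - aYt e t t' : ℤ) : ℝ) * sc (s, Ob.L)) {(1 - P.jL) * l}
      (Zc6 X t t' w w' s (some .L)) :=
  dec_two (ui_v0 t) (ui_v0 t') isCompact_singleton
    (fun x h => hw ▸ ho x (Or.inr (Or.inr (Or.inl h))))
    (fun x h => hw' ▸ ho' x (Or.inr (Or.inr (Or.inl h))))
    (hB.dec.L s) (le_of_eq (rate_charge e t t' _))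

/-- **`T`**, any types -/
theorem decT_ZcP (hB : LgBP X P a b₂ κ κ' e) (ho : OffL6 P (htL t)) (ho' : OffL6 P (htL t'))
    (hw : w.re = htL t) (hw' : w'.re = htL t') (s : Bool) :
    DecOn (κ + 2 * (((aXt e t t' : ℤ) - aYt e t t' : ℤ) : ℝ) * sc (s, Ob.S)) {-(l / 2)}
      (Zc6 X t t' w w' s (some .T)) :=
  dec_two (ui_v0 t) (ui_v0 t') isCompact_singleton
    (fun x h => hw ▸ ho x (Or.inr (Or.inr (Or.inr (Or.inl h)))))
    (fun x h => hw' ▸ ho' x (Or.inr (Or.inr (Or.inr (Or.inl h)))))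
    (hB.dec.T s) (le_of_eq (rate_charge e t t' _))

/-- **the strings**, any types -/
theorem decS_ZcP (hB : LgBP X P a b₂ κ κ' e) (ho : OffL6 P (htL t)) (ho' : OffL6 P (htL t'))
    (hw : w.re = htL t) (hw' : w'.re = htL t') (s : Bool) (M : ℕ) :
    DecOn (M : ℝ) {-((1 + P.e) * l)} (Zc6 X t t' w w' s (some .S)) := by
  obtain ⟨M', hM'⟩ := exists_nat_ge ((M : ℝ) + (htQ t - htQ t') * sc (s, Ob.S))
  exact dec_two (ui_v0 t) (ui_v0 t') isCompact_singleton
    (fun x h => hw ▸ ho x (Or.inr (Or.inr (Or.inr (Or.inr (Or.inl h))))))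
    (fun x h => hw' ▸ ho' x (Or.inr (Or.inr (Or.inr (Or.inr (Or.inl h))))))
    (hB.dec.S s M') (by
      show (M : ℝ) ≤ M' - (htQ t - htQ t') * sc (s, Ob.S)
      linarith)

/-- **the quanta** off the pole of the letter H, any types -/
theorem decA_ZcP (hB : LgBP X P a b₂ κ κ' e) (hw : w.re = htL t) (hw' : w'.re = htL t')
    (s : Bool) :
    DecOn (κ + 2 * (((aXt e t t' : ℤ) - aYt e t t' : ℤ) : ℝ) * sc (s, Ob.A))
      (Set.Icc (51 / 100 * l) (39 / 64 * l) ∪ Set.Icc (41 / 64 * l) l) (Zc6 X t t' w w' s none) :=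
  dec_two (ui_v0 t) (ui_v0 t') stH6_compact
    (fun _ h => hw ▸ nm6_stH t h) (fun _ h => hw' ▸ nm6_stH t' h)
    (decOn_line (hB.dec.A s) stH6_sub) (le_of_eq (rate_charge e t t' _))

/-- the quanta over any compact set of real parts off the pole of the letter H -/
theorem decK_ZcP (hB : LgBP X P a b₂ κ κ' e) {K : Set ℝ} (hK : IsCompact K)
    (hs : K ⊆ Set.Icc (51 / 100 * l) l) (hp : ∀ x ∈ K, x ≠ 5 / 8 * l) (hw : w.re = htL t)
    (hw' : w'.re = htL t') (s : Bool) :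
    DecOn (κ + 2 * (((aXt e t t' : ℤ) - aYt e t t' : ℤ) : ℝ) * sc (s, Ob.A)) K
      (Zc6 X t t' w w' s none) := by
  have hl := NUP1.l_pos
  have key : ∀ t : HT, ∀ x ∈ K, NM6 (htL t - x) := by
    intro t x hx
    by_cases ht : t = .H
    · subst ht
      rcases lt_or_gt_of_ne (hp x hx) with h | h
      · refine nm6_of 0 ?_ ?_ <;> simp only [htL] <;> push_cast <;> linarith [(hs hx).1, (hs hx).2]
      · refine nm6_of (-1) ?_ ?_ <;> simp only [htL] <;> push_cast <;>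
          linarith [(hs hx).1, (hs hx).2]
    · exact nm6_strip ht (hs hx).1 (hs hx).2
  exact dec_two (ui_v0 t) (ui_v0 t') hK (fun x h => hw ▸ key t x h) (fun x h => hw' ▸ key t' x h)
    (decOn_line (hB.dec.A s) hs) (le_of_eq (rate_charge e t t' _))

/-- **`DecZ6` of the class**, `t, t' ≠ H` -/
theorem decZ6_ZcP (hB : LgBP X P a b₂ κ κ' e) (ho : OffL6 P (htL t)) (ho' : OffL6 P (htL t'))
    (ht : t ≠ .H) (ht' : t' ≠ .H) (hw : w.re = htL t) (hw' : w'.re = htL t') :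
    Pool.Agent.PLX.DecZ6 (Zc6 X t t' w w') P (51 / 100 * l) κ
      (((aXt e t t' : ℤ) - aYt e t t' : ℤ) : ℝ) :=
  ⟨fun s => dec_two (ui_v0 t) (ui_v0 t') isCompact_Icc
    (fun _ h => hw ▸ nm6_strip ht h.1 h.2) (fun _ h => hw' ▸ nm6_strip ht' h.1 h.2)
    (hB.dec.A s) (le_of_eq (rate_charge e t t' _)),
    decL_ZcP hB ho ho' hw hw', decT_ZcP hB ho ho' hw hw', decS_ZcP hB ho ho' hw hw'⟩

/-- the class functions are measurable -/
theorem ms_YVP (hB : LgBP X P a b₂ κ κ' e) {u : Ch6 × Ch6} (h : okC6 t u.1) (h' : okC6 t' u.2)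
    (s : Bool) (k : Option O3) : Measurable (YV6 X t t' w w' u s k) :=
  (hB.ms s k).mul ((((lt6_v h).ms s k).comp (measurable_const.sub measurable_id)).mul
    (((lt6_v h').ms (!s) k).comp (measurable_const.sub measurable_id)))

theorem ms_ZcP (hB : LgBP X P a b₂ κ κ' e) (s : Bool) (k : Option O3) :
    Measurable (Zc6 X t t' w w' s k) := ms_YVP hB (okC6_ff t) (okC6_ff t') s k

/-- **`DecQL6` of the class with the choice `u`** -/
theorem decL6_LgP (hP : LnE6 P) (hB : LgBP X P a b₂ κ κ' e) (ho : OffL6 P (htL t))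
    (ho' : OffL6 P (htL t')) {u : Ch6 × Ch6} (h : okC6 t u.1) (h' : okC6 t' u.2)
    (hw : w.re = htL t) (hw' : w'.re = htL t') : DecQL6 (YV6 X t t' w w' u) P κ κ'
      ((((aXt e t t' : ℕ) : ℝ) + (u.2.2.toNat : ℝ) - (u.1.1.toNat : ℝ)) -
        (((aYt e t t' : ℕ) : ℝ) + (u.1.2.toNat : ℝ) - (u.2.1.toNat : ℝ))) := by
  have key : DecQL6 (YV6 X t t' w w' u) P κ κ' (-(e : ℝ) + (vQ6 t' u.2 - vQ6 t u.1) / 2) :=
    decQL6_twoP (ui_v h) (ui_v h') (hw ▸ ho) (hw' ▸ ho') (LgBP.decQ hP hB)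
  have e1 : -(e : ℝ) + (vQ6 t' u.2 - vQ6 t u.1) / 2 =
      ((((aXt e t t' : ℕ) : ℝ) + (u.2.2.toNat : ℝ) - (u.1.1.toNat : ℝ)) -
        (((aYt e t t' : ℕ) : ℝ) + (u.1.2.toNat : ℝ) - (u.2.1.toNat : ℝ))) := by
    rw [vQ6_sub]
    unfold aXv aYv
    push_cast
    ring
  rw [e1] at key
  exact key

/-! ### generic heights -/

/-- **the base is not `0` at almost every point of a line** in the window of the inverses -/
theorem ne_line_aeP (hB : LgBP X P a b₂ κ κ' e) (hb : 51 / 100 * l < b₂) (s : Bool) {c : ℝ}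
    (h1 : a < c) (h2 : c < b₂) : ∀ᵐ y : ℝ, X s none (vl c y) ≠ 0 := by
  have hl := NUP1.l_pos
  obtain ⟨p0, hp1, hp2⟩ : ∃ p0 : ℝ, max a (51 / 100 * l) < p0 ∧ p0 < b₂ :=
    exists_between (max_lt (h1.trans h2) hb)
  have hp : ((p0 : ℝ) : ℂ).re = p0 := ofReal_re _
  have h := ae_ne_of_strip (f := fun u => (X s none u)⁻¹) (a := a) (b := b₂) h1 h2
    (fun u h3 h4 => hB.ian s u h3 h4) (p := ((p0 : ℝ) : ℂ))
    (by rw [hp]; exact (le_max_left _ _).trans_lt hp1) (by rw [hp]; exact hp2)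
    (inv_ne_zero (hB.ne s _ (by rw [hp]; exact ((le_max_right _ _).trans_lt hp1).le)
      (by rw [hp]; exact hp2)))
  filter_upwards [h] with y hy
  exact fun h0 => hy (by simp only [h0, inv_zero])

/-- one half quantum -/
theorem hx_aeP (hB : LgBP X P a b₂ κ κ' e) (ha : a < 1 / 4 * l) (hb : 5 / 8 * l < b₂) (t : HT)
    (s : Bool) : ∀ᵐ y : ℝ, hz6 t = true → X s none (hx6 t (vl (htL t) y)) ≠ 0 := by
  have hl := NUP1.l_pos
  cases t
  · exact Filter.Eventually.of_forall fun y h => absurd h (by decide)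
  · exact Filter.Eventually.of_forall fun y h => absurd h (by decide)
  · have h := ne_line_aeP hB (by linarith) s (c := 1 / 4 * l) ha (by linarith)
    filter_upwards [h] with y hy _
    have e1 : hx6 .P (vl (htL .P) y) = vl (1 / 4 * l) y := by
      unfold hx6
      rw [if_pos rfl]
      simp only [vl, htL]
      push_cast
      ring
    rw [e1]
    exact hy
  · have h := ne_line_aeP hB (by linarith) s (c := 5 / 8 * l) (by linarith) hb
    filter_upwards [h] with y hy _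
    have e1 : hx6 .H (vl (htL .H) y) = vl (5 / 8 * l) y := by
      unfold hx6
      rw [if_neg (by decide)]
      rfl
    rw [e1]
    exact hy

/-- **almost all heights are generic** -/
theorem gnX_aeP (hB : LgBP X P a b₂ κ κ' e) (ha : a < 1 / 4 * l) (hb : 5 / 8 * l < b₂)
    (t t' : HT) : ∀ᵐ y : ℝ × ℝ, GnX X t t' (vl (htL t) y.1) (vl (htL t') y.2) := by
  have h1 : ∀ᵐ y : ℝ × ℝ, hz6 t = true → X false none (hx6 t (vl (htL t) y.1)) ≠ 0 :=
    Measure.quasiMeasurePreserving_fst.ae (hx_aeP hB ha hb t false)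
  have h2 : ∀ᵐ y : ℝ × ℝ, hz6 t' = true → X true none (hx6 t' (vl (htL t') y.2)) ≠ 0 :=
    Measure.quasiMeasurePreserving_snd.ae (hx_aeP hB ha hb t' true)
  filter_upwards [ae_ne_pair, h1, h2] with y hy a b
  refine ⟨?_, a, b⟩
  simpa [vl] using hy

end cls

/-! ### the point of the tilted sea -/

/-- a point `(e; j1, j2; jL)` near that of the tilted sea: the letters and their zeros are off the
lines -/
structure NearTh (P : Par6) : Prop where
  e : 44 / 100 ≤ P.e ∧ P.e ≤ 48 / 100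
  j1 : 6 / 100 ≤ P.j1 ∧ P.j1 ≤ 9 / 100
  j2 : 96 / 100 ≤ P.j2 ∧ P.j2 ≤ 99 / 100
  jL : 205 / 100 ≤ P.jL ∧ P.jL ≤ 209 / 100

theorem offL6_Th {P : Par6} (h : NearTh P) {p : ℝ}
    (hp : p = 5 / 4 * l ∨ p = -(11 / 4) * l ∨ p = 5 / 8 * l ∨ p = 1 / 4 * l) : OffL6 P p := by
  have hl := NUP1.l_pos
  obtain ⟨⟨e1, e2⟩, ⟨a1, a2⟩, ⟨b1, b2⟩, ⟨c1, c2⟩⟩ := h
  intro x hx
  unfold lnQ6 at hx
  simp only [Set.mem_insert_iff, Set.mem_singleton_iff] at hx
  rcases hp with rfl | rfl | rfl | rfl <;> rcases hx with rfl | rfl | rfl | rfl | rfl | rfl | rfl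
  · exact nm6_of 0 (by push_cast; nlinarith) (by push_cast; nlinarith)
  · exact nm6_of 0 (by push_cast; nlinarith) (by push_cast; nlinarith)
  · exact nm6_of 2 (by push_cast; nlinarith) (by push_cast; nlinarith)
  · exact nm6_of 1 (by push_cast; nlinarith) (by push_cast; nlinarith)
  · exact nm6_of 2 (by push_cast; nlinarith) (by push_cast; nlinarith)
  · exact nm6_of 1 (by push_cast; nlinarith) (by push_cast; nlinarith)
  · exact nm6_of 0 (by push_cast; nlinarith) (by push_cast; nlinarith)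
  · exact nm6_of (-4) (by push_cast; nlinarith) (by push_cast; nlinarith)
  · exact nm6_of (-4) (by push_cast; nlinarith) (by push_cast; nlinarith)
  · exact nm6_of (-2) (by push_cast; nlinarith) (by push_cast; nlinarith)
  · exact nm6_of (-3) (by push_cast; nlinarith) (by push_cast; nlinarith)
  · exact nm6_of (-2) (by push_cast; nlinarith) (by push_cast; nlinarith)
  · exact nm6_of (-3) (by push_cast; nlinarith) (by push_cast; nlinarith)
  · exact nm6_of (-4) (by push_cast; nlinarith) (by push_cast; nlinarith)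
  · exact nm6_of 0 (by push_cast; nlinarith) (by push_cast; nlinarith)
  · exact nm6_of (-1) (by push_cast; nlinarith) (by push_cast; nlinarith)
  · exact nm6_of 1 (by push_cast; nlinarith) (by push_cast; nlinarith)
  · exact nm6_of 1 (by push_cast; nlinarith) (by push_cast; nlinarith)
  · exact nm6_of 2 (by push_cast; nlinarith) (by push_cast; nlinarith)
  · exact nm6_of 0 (by push_cast; nlinarith) (by push_cast; nlinarith)
  · exact nm6_of (-1) (by push_cast; nlinarith) (by push_cast; nlinarith)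
  · exact nm6_of (-1) (by push_cast; nlinarith) (by push_cast; nlinarith)
  · exact nm6_of (-1) (by push_cast; nlinarith) (by push_cast; nlinarith)
  · exact nm6_of 1 (by push_cast; nlinarith) (by push_cast; nlinarith)
  · exact nm6_of 0 (by push_cast; nlinarith) (by push_cast; nlinarith)
  · exact nm6_of 1 (by push_cast; nlinarith) (by push_cast; nlinarith)
  · exact nm6_of 0 (by push_cast; nlinarith) (by push_cast; nlinarith)
  · exact nm6_of (-1) (by push_cast; nlinarith) (by push_cast; nlinarith)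

theorem offL6_htL {P : Par6} (h : NearTh P) (t : HT) : OffL6 P (htL t) := by
  cases t
  · exact offL6_Th h (Or.inl rfl)
  · exact offL6_Th h (Or.inr (Or.inl rfl))
  · exact offL6_Th h (Or.inr (Or.inl rfl))
  · exact offL6_Th h (Or.inr (Or.inr (Or.inl rfl)))

end PHK

end
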