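import Pool.Agent.PHK.LgAll

/-!
# The class formulas of two letters for general parameters: definitions

* `LnP P`: the parameters for which no line meets a zero or a pole of a letter; **`nm6_lnS`**;
* `WnG P a b`: the window of the inverse; `ZerG`: the zeros of a class;
* **`WordGZ`**, **`WordGP`**: the word identities, any window.
-/

set_option autoImplicit false
set_option linter.unusedSectionVars false

noncomputable section

open Complex MeasureTheory Finset
open scoped ENNReal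

open PLX (Fil)

namespace PLT.Lg

open NUO NUP1 NUP1S NUP1S.Mg NURow NUCR NUP1.Leg NUGC.PLX PBR.PLX
open NUP1.Bd (wt qg Ob)
open PHK
open Pool.Agent.PLX (DecZ6)

/-- **parameters**: no line meets a zero or a pole of a letter -/
class LnP (P : Par6) : Prop where
  good : GoodP6 P
  e1 : 13 / 32 < P.e
  j1 : P.j1 < 3 / 8
  j2 : 3 / 4 < P.j2

instance : LnP par6 := by
  refine ⟨par6_good, ?_, ?_, ?_⟩ <;> norm_num [par6]

/-- the lines -/
def lnS (P : Par6) : Set ℝ := {(1 - P.e) * l, l, (1 - P.jL) * l, -(l / 2), -((1 + P.e) * l),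
  (1 - P.j2) * l, (1 - P.j1) * l}

/-- the positions of the letters and of the hole of `P` -/
def psS : Set ℝ := {5 / 4 * l, -(11 / 4) * l, 5 / 8 * l, 1 / 4 * l, 1 / 3 * l}

theorem htL_psS (t : HT) : htL t ∈ psS := by
  unfold psS
  cases t <;> simp [htL]

/-- **no line meets a zero or a pole of a letter** -/
theorem nm6_lnS {P : Par6} [h : LnP P] {p x : ℝ} (hp : p ∈ psS) (hx : x ∈ lnS P) :
    NM6 (p - x) := by
  have hl := l_pos
  have g1 := h.good.e45
  have g2 := h.good.j2
  have g3 := h.good.L2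
  have g4 := h.good.Lj
  have g5 := h.good.j1
  have a1 := h.e1
  have a2 := h.j1
  have a3 := h.j2
  have key : ∀ (m : ℤ) (c : ℝ), p - x = c * l → (m : ℝ) < c → c < m + 1 → NM6 (p - x) :=
    fun m c e c1 c2 => nm6_of m (by rw [e]; exact mul_lt_mul_of_pos_right c1 hl)
      (by rw [e]; exact mul_lt_mul_of_pos_right c2 hl)
  unfold psS at hp
  unfold lnS at hx
  simp only [Set.mem_insert_iff, Set.mem_singleton_iff] at hp hx
  rcases hp with rfl | rfl | rfl | rfl | rfl <;>
    rcases hx with rfl | rfl | rfl | rfl | rfl | rfl | rfl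
  · exact key 0 (1 / 4 + P.e) (by ring) (by push_cast; linarith) (by push_cast; linarith)
  · exact key 0 (1 / 4) (by ring) (by push_cast; linarith) (by push_cast; linarith)
  · exact key 2 (1 / 4 + P.jL) (by ring) (by push_cast; linarith) (by push_cast; linarith)
  · exact key 1 (7 / 4) (by ring) (by push_cast; linarith) (by push_cast; linarith)
  · exact key 2 (9 / 4 + P.e) (by ring) (by push_cast; linarith) (by push_cast; linarith)
  · exact key 1 (1 / 4 + P.j2) (by ring) (by push_cast; linarith) (by push_cast; linarith)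
  · exact key 0 (1 / 4 + P.j1) (by ring) (by push_cast; linarith) (by push_cast; linarith)
  · exact key (-4) (-(15 / 4) + P.e) (by ring) (by push_cast; linarith) (by push_cast; linarith)
  · exact key (-4) (-(15 / 4)) (by ring) (by push_cast; linarith) (by push_cast; linarith)
  · exact key (-2) (-(15 / 4) + P.jL) (by ring) (by push_cast; linarith) (by push_cast; linarith)
  · exact key (-3) (-(9 / 4)) (by ring) (by push_cast; linarith) (by push_cast; linarith)
  · exact key (-2) (-(7 / 4) + P.e) (by ring) (by push_cast; linarith) (by push_cast; linarith)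
  · exact key (-3) (-(15 / 4) + P.j2) (by ring) (by push_cast; linarith) (by push_cast; linarith)
  · exact key (-4) (-(15 / 4) + P.j1) (by ring) (by push_cast; linarith) (by push_cast; linarith)
  · exact key 0 (P.e - 3 / 8) (by ring) (by push_cast; linarith) (by push_cast; linarith)
  · exact key (-1) (-(3 / 8)) (by ring) (by push_cast; linarith) (by push_cast; linarith)
  · exact key 1 (P.jL - 3 / 8) (by ring) (by push_cast; linarith) (by push_cast; linarith)
  · exact key 1 (9 / 8) (by ring) (by push_cast; linarith) (by push_cast; linarith)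
  · exact key 2 (13 / 8 + P.e) (by ring) (by push_cast; linarith) (by push_cast; linarith)
  · exact key 0 (P.j2 - 3 / 8) (by ring) (by push_cast; linarith) (by push_cast; linarith)
  · exact key (-1) (P.j1 - 3 / 8) (by ring) (by push_cast; linarith) (by push_cast; linarith)
  · exact key (-1) (P.e - 3 / 4) (by ring) (by push_cast; linarith) (by push_cast; linarith)
  · exact key (-1) (-(3 / 4)) (by ring) (by push_cast; linarith) (by push_cast; linarith)
  · exact key 1 (P.jL - 3 / 4) (by ring) (by push_cast; linarith) (by push_cast; linarith)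
  · exact key 0 (3 / 4) (by ring) (by push_cast; linarith) (by push_cast; linarith)
  · exact key 1 (5 / 4 + P.e) (by ring) (by push_cast; linarith) (by push_cast; linarith)
  · exact key 0 (P.j2 - 3 / 4) (by ring) (by push_cast; linarith) (by push_cast; linarith)
  · exact key (-1) (P.j1 - 3 / 4) (by ring) (by push_cast; linarith) (by push_cast; linarith)
  · exact key (-1) (P.e - 2 / 3) (by ring) (by push_cast; linarith) (by push_cast; linarith)
  · exact key (-1) (-(2 / 3)) (by ring) (by push_cast; linarith) (by push_cast; linarith)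
  · exact key 1 (P.jL - 2 / 3) (by ring) (by push_cast; linarith) (by push_cast; linarith)
  · exact key 0 (5 / 6) (by ring) (by push_cast; linarith) (by push_cast; linarith)
  · exact key 1 (4 / 3 + P.e) (by ring) (by push_cast; linarith) (by push_cast; linarith)
  · exact key 0 (P.j2 - 2 / 3) (by ring) (by push_cast; linarith) (by push_cast; linarith)
  · exact key (-1) (P.j1 - 2 / 3) (by ring) (by push_cast; linarith) (by push_cast; linarith)

/-! ### windows -/

/-- **the window of the inverses** `a < Re < b` -/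
structure WnG (P : Par6) (a b : ℝ) : Prop where
  a0 : 0 < a
  a1 : a < (1 - P.j2) * l
  b1 : (1 - P.j1) * l < b
  b2 : b ≤ (3 - P.jL) * l
  b3 : b ≤ l

/-- **the zeros of a class in the window** -/
structure ZerG (Z : Bool → Option O3 → ℂ → ℂ) (P : Par6) (a b bZ κ' q0 : ℝ) {ν : Bool → Type}
    [∀ s, Fintype (ν s)] [∀ s, LinearOrder (ν s)] (ζ ρ : ∀ s, ν s → ℂ) (Ei : Bool → ℂ → ℂ) :
    Prop where
  inj : ∀ s, Function.Injective (ζ s)
  st : ∀ s j, (1 - P.j2) * l < (ζ s j).re ∧ (ζ s j).re < (1 - P.j1) * l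
  an : ∀ s (u : ℂ), a < u.re → u.re < b → DifferentiableAt ℂ (Ei s) u
  off : ∀ s j, (ζ s j).re ≠ (1 - P.e) * l
  eq : ∀ s (u : ℂ), 51 / 100 * l ≤ u.re → u.re < bZ → Z s none u * Ei s u = ∏ j, (u - ζ s j)
  eqh : ∀ s (u : ℂ), u.re = (1 - P.j2) * l ∨ u.re = (1 - P.j1) * l →
    Z s none u * Ei s u = ∏ j, (u - ζ s j) ∨ (Z s none u = 0 ∧ Ei s u = 0)
  bd : ∀ s, Bdd (Set.Icc ((1 - P.j2) * l) ((1 - P.j1) * l)) (κ' + 2 * q0 * sc (s, Ob.A)) (Ei s)
  rho : ∀ s j, Ei s (ζ s j) * ρ s j = ∏ j' ∈ univ.erase j, (ζ s j - ζ s j')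

/-- **the word identities of the classes with zeros**, any window -/
def WordGZ : Prop :=
  ∀ (Z : Bool → Option O3 → ℂ → ℂ) (P : Par6) (a b κ κ' : ℝ) (Q : ℤ) (n n' : ℕ) (ν : Bool → Type)
    [∀ s, Fintype (ν s)] [∀ s, LinearOrder (ν s)] (ζ ρ : ∀ s, ν s → ℂ) (Ei : Bool → ℂ → ℂ),
    GoodP6 P → WnG P a b → a ≤ 51 / 100 * l → 0 < κ → κ' < 6 → (∀ s k, Measurable (Z s k)) →
    DecZ6 Z P (51 / 100 * l) κ Q →
    (∀ (s : Bool) (u : ℂ), 51 / 100 * l ≤ u.re → u.re ≤ l → DifferentiableAt ℂ (Z s none) u) →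
    ZerG Z P a b b κ' Q ζ ρ Ei → (n : ℤ) = n' + Q →
    ∀ (p p' : ℕ) (k : Fin p → O3) (k' : Fin p' → O3), ∑ i, c3 (k i) ≤ n → ∑ i, c3 (k' i) ≤ n' →
      ∀ᵐ t : Fin p ⊕ Fin p' → ℝ ∂(Measure.pi fun _ => volume),
        WordIdZ Z P ζ ρ (lnK P) (51 / 100 * l) n n' (2 * (n + n')) k k' t

/-- **the word identities of the classes with poles**, any window -/
def WordGP : Prop :=
  ∀ (Z : Bool → Option O3 → ℂ → ℂ) (P : Par6) (a b κ κ' : ℝ) (Q : ℤ) (n n' : ℕ)
    (av : Bool → Bool) (π : Bool → ℂ) (h : Bool → ℂ → ℂ) (ν : Bool × Bool → Bool → Type)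
    [∀ i s, Fintype (ν i s)] [∀ i s, LinearOrder (ν i s)] (ζ ρ : ∀ i s, ν i s → ℂ)
    (Ei : Bool × Bool → Bool → ℂ → ℂ),
    GoodP6 P → WnG P a b → a ≤ 51 / 100 * l → (1 - P.e) * l < 19 / 32 * l → 0 < κ → κ' < 6 →
    (∀ s k, Measurable (Z s k)) →
    (∀ s, DecOn (κ + 2 * (Q : ℝ) * sc (s, Ob.A)) (Set.Icc (51 / 100 * l) (39 / 64 * l) ∪
      Set.Icc (41 / 64 * l) l) (Z s none)) →
    (∀ s, DecOn (κ + 2 * (Q : ℝ) * sc (s, Ob.L)) {(1 - P.jL) * l} (Z s (some .L))) →
    (∀ s, DecOn (κ + 2 * (Q : ℝ) * sc (s, Ob.S)) {-(l / 2)} (Z s (some .T))) →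
    (∀ s (M : ℕ), DecOn (M : ℝ) {-((1 + P.e) * l)} (Z s (some .S))) →
    PolZ Z κ Q av π h →
    (∀ i, OkI av i → ZerG (ZFl Z π i) P a b (39 / 64 * l) κ' ((Q : ℝ) - i.1.toNat + i.2.toNat)
      (ζ i) (ρ i) (Ei i)) →
    (n : ℤ) = n' + Q →
    ∀ (p p' : ℕ) (k : Fin p → O3) (k' : Fin p' → O3), ∑ i, c3 (k i) ≤ n → ∑ i, c3 (k' i) ≤ n' →
      ∀ᵐ t : Fin p ⊕ Fin p' → ℝ ∂(Measure.pi fun _ => volume),
        WordIdT Z (TP Z P av π h ζ ρ n n') (lnK P) (51 / 100 * l) n n' (2 * (n + n')) k k' t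

end PLT.Lg

end
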