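import Pool.Agent.PLT.ZKG
import Pool.Agent.PLT.FinG
import Pool.Agent.PLT.LgDecP
import Pool.Agent.PLT.LgPDef
import Pool.Agent.PLT.PtTh
import Pool.Agent.PHK.BsR6

/-!
# The base of the classes of two letters at rows without a condition on their distance

* **`lgBP_G`** : `LgBP (ZK6 c β ro ex g0 s) P xa xb (2 β) (2 β) e`, rows and points `PtG`;
* `GoodT.lnP` : the class `LnP` for `GoodT P`; `parTh_goodT`, `lnP_Th` : the point of the tilted sea;
* `spWx_thE` : the ends as a spectator, any window;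
* **`RG6 D ex`** : data `RU` with rows, ends and points `PtG`; `RG6.XB_ZK6`, **`RG6.lgBP`**, `RG6.decZ`, `RG6.difZ`,
  `RG6.sw`.
-/

set_option autoImplicit false
set_option linter.unusedSectionVars false
set_option linter.unusedVariables false

noncomputable section

open Complex MeasureTheory Filter Topology

namespace PLTX

open NUP1 NUP1S NUP1.Bd NURow
open NUP1.N (Z3 Gr0)
open NUP1.Leg (hr thE)
open PBX (Rws ph GOk gP Lg)
open Pool.Agent.PLX
open PHK (Par6 GoodP6 DifZ6 gO LgBP)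
open PLT (parTh parTh_good)
open PBR.PLX (xrU)

/-! ### the parameters -/

theorem parTh_goodT : GoodT parTh :=
  { toGoodP6 := parTh_good, jL' := by norm_num [parTh] }

instance lnP_Th : PLT.Lg.LnP parTh := by
  refine ⟨parTh_good, ?_, ?_, ?_⟩ <;> norm_num [parTh]

/-! ### the base -/

section base

variable {N : Bool → ℕ} {P : Par6} {β : ℝ} {c : Bool → ℂ} {ro : ∀ a, Fin (N a) → ℂ}
  {ex : Bool → List ℂ} {g0 : Bool → ℂ → ℂ} {s : Bool → ℂ → ℂ} {q : ℤ} {xa xb : ℝ} {e : ℕ}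

theorem charge_e (he : (N true : ℤ) + e = N false + q) : -(q : ℝ) + N true - N false = -(e : ℝ) := by
  have : (N true : ℝ) + e = N false + q := by exact_mod_cast he
  linarith

/-- **the base of the classes of two letters**, rows and points `PtG` -/
theorem lgBP_G (hP : GoodT P) (hβ : 0 < β) (hβ' : β ≤ 4 / 3)
    (hr : ∀ a, RwG (ro a)) (hex : ∀ a, ∀ w ∈ ex a, PtG w) (hφ : PhT xa xb β ro ex)
    (hc : ∀ a, c a ≠ 0) (hg0 : ∀ a, GF6 (ro a) (g0 a)) (hs : ∀ a, SpWx xa (sc (a, .A) * (q : ℝ)) (s a))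
    (hxa : 0 ≤ xa) (ha6 : xa ≤ 1 / 10 * l) (hxb : xb ≤ l) (d1 : xa < (1 - P.j2) * l)
    (d2 : (1 - P.j1) * l < xb) (he : (N true : ℤ) + e = N false + q) :
    LgBP (ZK6 c β ro ex g0 s) P xa xb (2 * β) (2 * β) e := by
  have hl := lpos
  have e1 := charge_e he
  refine ⟨fun a k => ?_, by linarith, by linarith, ?_, fun a u h1 h2 => ?_, fun a => ?_,
    fun a u h1 h2 => ?_, fun a u h1 h2 => ?_⟩
  · exact measurable_XXU (PBX.measurable_gP β (ex a)) (hg0 a).gn.meas (hs a).meas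
      ((hs a).meas.mul ((hs a).meas.comp (measurable_id.sub_const _))) k
  · rw [← e1]
    exact decZG (c := c) hP hβ hβ' hr hex hg0 fun a => (hs a).to6 ha6
  · exact invG_an hβ hβ' hr hex hφ hs hxa hxb a h1 h2
  · rw [← e1]
    exact invG_bd hβ hβ' hr hex hφ hs hxa hxb a d1 d2
  · exact invG_ne hβ hβ' hr hex hφ hc hs hxa hxb (by linarith) a h1 h2
  · exact diffAG (c := c) hβ hβ' hr hex (fun a => (hs a).to6 ha6) a h1 h2

end base

/-! ### the ends -/

/-- the ends as a spectator -/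
theorem spWx_thE {xa : ℝ} (ha : -(49 / 20 * l) ≤ xa) (ha' : 0 ≤ xa) {p q : ℂ} (hp : -(9 / 10 * l) ≤ p.re)
    (hp' : p.re ≤ 101 / 200 * l) (hq : -(9 / 10 * l) ≤ q.re) (hq' : q.re ≤ 101 / 200 * l) :
    SpWx xa 0 (thE p p q q) := by
  have hl := lpos
  have h := (SpWx.leg ha hp (by linarith) (by linarith)).mul
    (SpWx.leg ha hq (by linarith) (by linarith))
  rw [add_zero] at h
  have e : (fun u => Lg p p u * Lg q q u) = thE p p q q := by
    funext u
    unfold NUP1.Leg.thE PBX.Lg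
    have e1 : sin (u - p + 3 * l) = -sin (p - u - 3 * l) := by
      rw [← Complex.sin_neg]
      congr 1
      ring
    have e2 : sin (u - q + 3 * l) = -sin (q - u - 3 * l) := by
      rw [← Complex.sin_neg]
      congr 1
      ring
    rw [e1, e2, div_mul_div_comm]
    congr 1
    ring
  rw [e] at h
  exact h

/-! ### data of the regular function -/

/-- the admissible ends -/
def PtE (p : ℂ) : Prop := -(9 / 10 * l) ≤ p.re ∧ p.re ≤ 101 / 200 * l

/-- **admissible data**: rows, ends and points of the cutoffs without a condition on their distance -/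
structure RG6 {m M : ℕ} (D : RU m M) (ex : Bool → List ℂ) : Prop where
  b0 : 0 < D.β
  b1 : D.β ≤ 4 / 3
  hx : RwG D.x
  hy : RwG D.y
  hp : PtE D.p
  hq : PtE D.q
  g : D.g = gP D.β (ex true)
  g' : D.g' = gP D.β (ex false)
  hex : ∀ a, ∀ w ∈ ex a, PtG w
  gf : GF6 D.x D.g0
  gf' : GF6 D.y D.g0'
  c : D.c ≠ 0
  c' : D.c' ≠ 0

section reg

variable {m M e : ℕ} {D : RU m M} {ex : Bool → List ℂ} {P : Par6} {xa xb : ℝ}

/-- the species exchanged -/
theorem RG6.sw (h : RG6 D ex) : RG6 D.sw fun a => ex !a :=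
  ⟨h.b0, h.b1, h.hy, h.hx, h.hq, h.hp, h.g', h.g, fun a => h.hex !a, h.gf', h.gf, h.c', h.c⟩

theorem RG6.ro (h : RG6 D ex) (a : Bool) : RwG (xrU D a) := by
  cases a
  · exact h.hy
  · exact h.hx

theorem RG6.g0 (h : RG6 D ex) (a : Bool) : GF6 (xrU D a) (cond a D.g0 D.g0') := by
  cases a
  · exact h.gf'
  · exact h.gf

theorem RG6.ca (h : RG6 D ex) (a : Bool) : cond a D.c D.c' ≠ 0 := by
  cases a
  · exact h.c'
  · exact h.c

theorem RG6.sp (h : RG6 D ex) (hxa : 0 ≤ xa) (a : Bool) :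
    SpWx xa (sc (a, .A) * ((0 : ℤ) : ℝ)) ((fun _ => thE D.p D.p D.q D.q : Bool → ℂ → ℂ) a) := by
  have hl := lpos
  have := spWx_thE (by linarith) hxa h.hp.1 h.hp.2 h.hq.1 h.hq.2
  simpa using this

/-- the base functions are class functions of `ZK6` -/
theorem RG6.XB_ZK6 (h : RG6 D ex) : XB D.X D.Y = ZK6 (N := fun a => cond a m M)
    (fun a => cond a D.c D.c') D.β (xrU D) ex (fun a => cond a D.g0 D.g0')
      (fun _ => thE D.p D.p D.q D.q) := by
  funext a
  cases a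
  · show D.Y = XXU D.c' D.β D.y D.x (gP D.β (ex false)) D.g0' (thE D.p D.p D.q D.q)
        (fun w => thE D.p D.p D.q D.q w * thE D.p D.p D.q D.q (w - l))
    unfold RU.Y PBX.thS
    rw [h.g', PBR.PLX.thE_symm D.q D.p]
  · show D.X = XXU D.c D.β D.x D.y (gP D.β (ex true)) D.g0 (thE D.p D.p D.q D.q)
        (fun w => thE D.p D.p D.q D.q w * thE D.p D.p D.q D.q (w - l))
    unfold RU.X PBX.thS
    rw [h.g]

/-- **the base of the classes of the regular function**, `M = m + e` -/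
theorem RG6.lgBP (h : RG6 D ex) (hM : M = m + e) (hP : GoodT P)
    (hφ : PhT (N := fun a => cond a m M) xa xb D.β (xrU D) ex)
    (hxa : 0 ≤ xa) (ha6 : xa ≤ 1 / 10 * l) (hxb : xb ≤ l) (d1 : xa < (1 - P.j2) * l)
    (d2 : (1 - P.j1) * l < xb) : LgBP (XB D.X D.Y) P xa xb (2 * D.β) (2 * D.β) e := by
  rw [h.XB_ZK6]
  exact lgBP_G (N := fun a => cond a m M) (q := 0) hP h.b0 h.b1 h.ro h.hex hφ h.ca h.g0 (h.sp hxa)
    hxa ha6 hxb d1 d2 (by
      show ((m : ℕ) : ℤ) + e = ((M : ℕ) : ℤ) + 0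
      rw [hM]
      push_cast
      ring)

/-- the charge of the regular function -/
theorem chg_RG (hM : M = m + e) : -(((0 : ℤ) : ℝ)) + ((cond true m M : ℕ) : ℝ) - ((cond false m M : ℕ) : ℝ) =
    -(e : ℝ) := by
  show -(((0 : ℤ) : ℝ)) + (m : ℝ) - (M : ℝ) = _
  rw [hM]
  push_cast
  ring

/-- **decay of the regular function on the lines** -/
theorem RG6.decZ (h : RG6 D ex) (hM : M = m + e) (hP : GoodT P) :
    Pool.Agent.PLX.DecZ6 (XB D.X D.Y) P (51 / 100 * l) (2 * D.β) (-(e : ℝ)) := by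
  have hl := lpos
  rw [h.XB_ZK6, ← chg_RG hM]
  exact decZG (N := fun a => cond a m M) (q := 0) hP h.b0 h.b1 h.ro h.hex h.g0
    fun a => (h.sp le_rfl a).to6 (by linarith)

/-- **holomorphy of the regular function** -/
theorem RG6.difZ (h : RG6 D ex) (hφ : PhT (N := fun a => cond a m M) xa xb D.β (xrU D) ex)
    (hxa : 0 ≤ xa) (ha6 : xa ≤ 1 / 10 * l) (hxb : xb ≤ l) {δ : ℝ} (d1 : xa + δ ≤ (1 - P.j2) * l)
    (d2 : (1 - P.j1) * l + δ ≤ xb) : DifZ6 (XB D.X D.Y) P (51 / 100 * l) δ := by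
  rw [h.XB_ZK6]
  exact difZG (N := fun a => cond a m M) (q := 0) h.b0 h.b1 h.ro h.hex hφ h.ca (h.sp hxa) hxa hxb ha6
    d1 d2

/-- **the record of the class formula** -/
theorem RG6.decQ (h : RG6 D ex) (hM : M = m + e) (hP : GoodT P)
    (hφ : PhT (N := fun a => cond a m M) xa xb D.β (xrU D) ex)
    (hxa : 0 ≤ xa) (ha6 : xa ≤ 1 / 10 * l) (hxb : xb ≤ l) {δ : ℝ} (hδ : 0 < δ)
    (d1 : xa + δ ≤ (1 - P.j2) * l) (d2 : (1 - P.j1) * l + δ ≤ xb) :
    PHK.DecZ6 (XB D.X D.Y) P (51 / 100 * l) (2 * D.β) (2 * D.β) (-(e : ℝ)) := by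
  rw [h.XB_ZK6, ← chg_RG hM]
  exact decQG (N := fun a => cond a m M) (q := 0) h.b0 h.b1 h.ro h.hex hφ h.ca (h.sp hxa) hxa hxb hP ha6
    h.g0 hδ d1 d2

end reg

end PLTX

end
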