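import Pool.Agent.PHK.Ob6

/-!
# One body data over any sea: rows, clouds and prices as data

The rows of the content of a quantum of species `a` at `u`: `rw a u`; the cloud of the sea at offset `j`
and height `t`: `cl a j t`; the price of a hole: `pr a j t`; the growth of the rows at the line of `T`:
`pT a t`.

* `Mf P C rw cl pr pT`: rows and clouds at the offsets of the six kinds;
* `ObC P C rw pT m β T1 B`: the one body data `B` against the rows (twin of `PHK.Ob6`);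
* `clK cl P x`: the interaction of the object with the clouds;
* `KBC`: the bounds by kinds; **`wC_KB : Mf → ObC → KBC`** for `ob6 B P x * exp (clK cl P x)`.
-/

set_option autoImplicit false

noncomputable section

open Complex MeasureTheory Set

namespace PLT

open NUP1 NUO NUGC.PLX
open PHK

/-! ### the data -/

/-- **rows and clouds** at the offsets of the six kinds -/
structure Mf (P : Par6) (C : ℝ) (rw : Bool → ℂ → ℝ) (cl pr : Bool → ℝ → ℝ → ℝ) (pT : Bool → ℝ → ℝ) :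
    Prop where
  sat : ∀ (a : Bool) (t : ℝ),
    rw a (vl ((1 - P.e) * l) t) * Real.exp (cl a P.e t) ≤ C * Real.exp (pr a P.e t)
  hol : ∀ j ∈ loL P, ∀ (a : Bool) (t : ℝ),
    (rw a (vl ((1 - j) * l) t))⁻¹ * Real.exp (-cl a j t) ≤ C * Real.exp (-pr a j t)
  ntr : ∀ j ∈ [P.jL, 5 / 2, 2 + P.e], ∀ (a : Bool) (t : ℝ),
    rw a (vl ((1 - j) * l) t) * Real.exp (cl a j t) ≤ C
  top : ∀ (a : Bool) (t : ℝ),
    rw a (vl ((1 - 3 / 2) * l) t) * Real.exp (cl a (3 / 2) t) ≤ C * Real.exp (pT a t)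
  high : ∀ (a : Bool) (t : ℝ), rw a (vl ((1 - (3 + P.e)) * l) t) * Real.exp (cl a (3 + P.e) t) ≤
    C * Real.exp (-(2 * pr (!a) P.e t))

/-- **one body data on the lines of the six kinds** -/
structure ObC (P : Par6) (C : ℝ) (rw : Bool → ℂ → ℝ) (pT : Bool → ℝ → ℝ) (m : ℕ) (β T1 : ℝ) (B : OB) :
    Prop where
  nn : B.Nn
  m1 : 1 ≤ m
  pTu : ∀ (a : Bool) (t : ℝ), 1 ≤ |t| → m * Real.exp (-(2 * β) * |t|) ≤ 1 →
    pT a t ≤ C * (m * Real.exp (-(8 / 3) * |t|))
  up : ∀ j ∈ upL P, ∀ (a : Bool) (t : ℝ),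
    B.R a (vl ((1 - j) * l) t) ≤ C * rw a (vl ((1 - j) * l) t)
  lo : ∀ j ∈ loL P, ∀ (a : Bool) (t : ℝ),
    (B.R a (vl ((1 - j) * l) t))⁻¹ ≤ C * (rw a (vl ((1 - j) * l) t))⁻¹
  pu : ∀ j ∈ [P.jL, P.e], ∀ (a : Bool) (t : ℝ), ‖B.φ a (vl ((1 - j) * l) t)‖ ≤ C * cut m β t
  pl : ∀ j ∈ loL P, ∀ (a : Bool) (t : ℝ), ‖B.φ a (vl ((1 - j) * l) t)‖⁻¹ ≤ C * (cut m β t)⁻¹
  br1 : ∀ (a : Bool) (t : ℝ), ‖B.φ a (posT t) * B.φ a (posT t - l) - B.φ0 a (posT t)‖ ≤
    C * Real.exp (-pT a t)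
  br2 : ∀ (a : Bool) (t : ℝ), ‖B.φ a (posT t) * B.φ a (posT t - l) - B.φ0 a (posT t)‖ ≤
    C * cut m β t
  p0 : ∀ (a : Bool) (t : ℝ), ‖B.φ0 a (posS P.e t)‖ ≤
    C * (cut m (4 / 3) t * Real.exp (-(Real.exp (11 / 2 * (|t| - T1)) / 5)))

/-! ### the clouds -/

/-- the interaction of the object with the clouds -/
def clK (cl : Bool → ℝ → ℝ → ℝ) (P : Par6) (x : Xo) : ℝ :=
  match k6 x with
  | .L => cl (sp x) P.jL (ht x)
  | .T => cl (sp x) (3 / 2) (ht x) + cl (sp x) (5 / 2) (ht x)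
  | .E => cl (sp x) (2 + P.e) (ht x) + cl (sp x) (3 + P.e) (ht x) + 2 * cl (!sp x) P.e (ht x)
  | .F => cl (sp x) (2 + P.e) (ht x) + cl (sp x) (3 + P.e) (ht x) + 2 * cl (!sp x) P.e (ht x) -
      cl (sp x) P.e (ht x)
  | .H1 => -cl (sp x) P.j1 (ht x)
  | .H2 => -cl (sp x) P.j2 (ht x)

/-! ### the bounds by kinds -/

/-- the weight of a hole of price `v` -/
def hwC (v : ℝ) (m : ℕ) (β t : ℝ) : ℝ := Real.exp (-v) * (cut m β t)⁻¹

/-- **bounds of a weight (times its mean field) by kinds**, `v j`: the price of a hole at offset `j` -/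
def KBC (C : ℝ) (P : Par6) (v : ℝ → ℝ) (m : ℕ) (β T1 W : ℝ) : Kd6 → ℝ → Prop
  | .L, t => W ≤ C * cut m β t
  | .T, t => W ≤ C * cut m β t
  | .E, t => W ≤ C * cS6 m T1 t
  | .F, t => W ≤ C * (cS6 m T1 t * hwC (v P.e) m β t)
  | .H1, t => W ≤ C * hwC (v P.j1) m β t
  | .H2, t => W ≤ C * hwC (v P.j2) m β t

theorem hwC_nonneg (v : ℝ) (m : ℕ) (β t : ℝ) : 0 ≤ hwC v m β t :=
  mul_nonneg (Real.exp_pos _).le (inv_nonneg.2 (cut_nonneg _ _ _))

theorem KBC.mono {C C' : ℝ} (h : C ≤ C') {P : Par6} {v : ℝ → ℝ} {m : ℕ} {β T1 W : ℝ}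
    {k : Kd6} {t : ℝ} (hk : KBC C P v m β T1 W k t) : KBC C' P v m β T1 W k t := by
  have h1 := cut_nonneg m β t
  have h2 := cS6_nonneg m T1 t
  cases k
  · exact hk.trans (mul_le_mul_of_nonneg_right h h1)
  · exact hk.trans (mul_le_mul_of_nonneg_right h h1)
  · exact hk.trans (mul_le_mul_of_nonneg_right h h2)
  · exact hk.trans (mul_le_mul_of_nonneg_right h (mul_nonneg h2 (hwC_nonneg _ _ _ _)))
  · exact hk.trans (mul_le_mul_of_nonneg_right h (hwC_nonneg _ _ _ _))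
  · exact hk.trans (mul_le_mul_of_nonneg_right h (hwC_nonneg _ _ _ _))

section

variable {P : Par6} {C : ℝ} {rw : Bool → ℂ → ℝ} {cl pr : Bool → ℝ → ℝ → ℝ} {pT : Bool → ℝ → ℝ}
  {m : ℕ} {β T1 : ℝ} {B : OB}

/-- a quantum: row factor and cloud -/
theorem ObC.R_exp (h : ObC P C rw pT m β T1 B) (hC : 0 ≤ C) {j : ℝ} (hj : j ∈ upL P) (a : Bool)
    (t : ℝ) {v : ℝ} (hv : rw a (vl ((1 - j) * l) t) * Real.exp (cl a j t) ≤ v) :
    B.R a (vl ((1 - j) * l) t) * Real.exp (cl a j t) ≤ C * v := by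
  refine (mul_le_mul_of_nonneg_right (h.up j hj a t) (Real.exp_pos _).le).trans ?_
  rw [mul_assoc]
  exact mul_le_mul_of_nonneg_left hv hC

/-- a hole: row factor and cloud -/
theorem ObC.R_inv (h : ObC P C rw pT m β T1 B) (hM : Mf P C rw cl pr pT) (hC : 0 ≤ C) {j : ℝ}
    (hj : j ∈ loL P) (a : Bool) (t : ℝ) :
    (B.R a (vl ((1 - j) * l) t))⁻¹ * Real.exp (-cl a j t) ≤ C * C * Real.exp (-pr a j t) := by
  refine (mul_le_mul_of_nonneg_right (h.lo j hj a t) (Real.exp_pos _).le).trans ?_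
  rw [mul_assoc, mul_assoc]
  exact mul_le_mul_of_nonneg_left (hM.hol j hj a t) hC

/-- **a hole at offset `j < 1`** -/
theorem ObC.hole (h : ObC P C rw pT m β T1 B) (hM : Mf P C rw cl pr pT) (hC : 0 ≤ C) {j : ℝ}
    (hj : j ∈ loL P) (a : Bool) (t : ℝ) :
    (B.R a (vl ((1 - j) * l) t) * ‖B.φ a (vl ((1 - j) * l) t)‖)⁻¹ * Real.exp (-cl a j t) ≤
      C ^ 3 * hwC (pr a j t) m β t := by
  have r1 := h.R_inv hM hC hj a t
  have p1 := h.pl j hj a t
  unfold hwC
  calc _ = ((B.R a (vl ((1 - j) * l) t))⁻¹ * Real.exp (-cl a j t)) *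
        ‖B.φ a (vl ((1 - j) * l) t)‖⁻¹ := by
        rw [mul_inv]
        ring
    _ ≤ (C * C * Real.exp (-pr a j t)) * (C * (cut m β t)⁻¹) := by
        refine mul_le_mul r1 p1 (inv_nonneg.2 (norm_nonneg _)) ?_
        positivity
    _ = _ := by ring

/-- **a satellite** -/
theorem ObC.sat (h : ObC P C rw pT m β T1 B) (hM : Mf P C rw cl pr pT) (hC : 0 ≤ C) (a : Bool)
    (t : ℝ) :
    0 ≤ B.R a (posB P.e t) * ‖B.φ a (posB P.e t)‖ ∧
    B.R a (posB P.e t) * ‖B.φ a (posB P.e t)‖ * Real.exp (cl a P.e t) ≤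
      C ^ 3 * Real.exp (pr a P.e t) := by
  have r1 := h.R_exp hC (j := P.e) (by simp [upL]) a t (hM.sat a t)
  have p1 := h.pu P.e (by simp) a t
  rw [posB_vl]
  refine ⟨mul_nonneg (h.nn _ _) (norm_nonneg _), ?_⟩
  have hc1 := cut_le_one m β t
  have hc0 := cut_nonneg m β t
  have p2 : ‖B.φ a (vl ((1 - P.e) * l) t)‖ ≤ C := p1.trans (by nlinarith)
  calc _ = (B.R a (vl ((1 - P.e) * l) t) * Real.exp (cl a P.e t)) *
        ‖B.φ a (vl ((1 - P.e) * l) t)‖ := by ring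
    _ ≤ (C * (C * Real.exp (pr a P.e t))) * C :=
        mul_le_mul r1 p2 (norm_nonneg _) (by positivity)
    _ = _ := by ring

/-- **a string at offset `2 + e`** -/
theorem ObC.str (h : ObC P C rw pT m β T1 B) (hM : Mf P C rw cl pr pT) (hC : 0 ≤ C) (a : Bool)
    (t : ℝ) :
    0 ≤ oSc B a (posS P.e t) ∧
    oSc B a (posS P.e t) * Real.exp (cl a (2 + P.e) t + cl a (3 + P.e) t) ≤
      aS * C ^ 5 * (Real.exp (-(2 * pr (!a) P.e t)) * cS6 m T1 t) := by
  have haS := aS_pos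
  have r1 := h.R_exp hC (j := 2 + P.e) (by simp [upL]) a t (hM.ntr (2 + P.e) (by simp) a t)
  have r2 := h.R_exp hC (j := 3 + P.e) (by simp [upL]) a t (hM.high a t)
  have p1 := h.p0 a t
  rw [← posS_eq] at r1
  rw [← posSl_vl] at r2
  have n1 := h.nn a (posS P.e t)
  have n2 := h.nn a (posS P.e t - l)
  unfold oSc
  refine ⟨by positivity, ?_⟩
  rw [Real.exp_add]
  have x1 := Real.exp_pos (cl a (2 + P.e) t)
  have x2 := Real.exp_pos (cl a (3 + P.e) t)
  have hS := cS6_nonneg m T1 t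
  calc _ = aS * ((B.R a (posS P.e t) * Real.exp (cl a (2 + P.e) t)) *
        (B.R a (posS P.e t - l) * Real.exp (cl a (3 + P.e) t))) *
        ‖B.φ0 a (posS P.e t)‖ := by ring
    _ ≤ aS * ((C * C) * (C * (C * Real.exp (-(2 * pr (!a) P.e t))))) * (C * cS6 m T1 t) := by
        refine mul_le_mul (mul_le_mul_of_nonneg_left (mul_le_mul r1 r2 (by positivity) (by positivity))
          haS.le) p1 (norm_nonneg _) (by positivity)
    _ = _ := by ring

/-! ### the kinds -/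

theorem ObC.wL (h : ObC P C rw pT m β T1 B) (hM : Mf P C rw cl pr pT) (hC : 0 ≤ C) {x : Xo}
    (hx : k6 x = .L) :
    ob6 B P x * Real.exp (clK cl P x) ≤ (2 * Real.pi)⁻¹ * C ^ 3 * cut m β (ht x) := by
  have hpi := Real.pi_pos
  have r1 := h.R_exp hC (j := P.jL) (by simp [upL]) (sp x) (ht x) (hM.ntr P.jL (by simp) _ _)
  have p1 := h.pu P.jL (by simp) (sp x) (ht x)
  rw [ob6_L B P hx, posL_eq]
  unfold clK
  rw [hx]
  simp only
  calc _ = (2 * Real.pi)⁻¹ * ((B.R (sp x) (vl ((1 - P.jL) * l) (ht x)) *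
        Real.exp (cl (sp x) P.jL (ht x))) * ‖B.φ (sp x) (vl ((1 - P.jL) * l) (ht x))‖) := by ring
    _ ≤ (2 * Real.pi)⁻¹ * ((C * C) * (C * cut m β (ht x))) := by
        refine mul_le_mul_of_nonneg_left ?_ (by positivity)
        exact mul_le_mul r1 p1 (norm_nonneg _) (by positivity)
    _ = _ := by ring

theorem ObC.wE (h : ObC P C rw pT m β T1 B) (hM : Mf P C rw cl pr pT) (hC : 0 ≤ C) {x : Xo}
    (hx : k6 x = .E) :
    ob6 B P x * Real.exp (clK cl P x) ≤ cK6 .E * C ^ 11 * cS6 m T1 (ht x) := by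
  have haS := aS_pos
  have hs5 : 0 < Real.sin (5 * l) := by simpa using sinl_pos 5 (by norm_num) (by norm_num)
  obtain ⟨o0, o1⟩ := h.str hM hC (sp x) (ht x)
  obtain ⟨s0, s1⟩ := h.sat hM hC (!sp x) (ht x)
  rw [ob6_E B P hx]
  unfold clK
  rw [hx]
  simp only
  set t := ht x with ht'
  set v := cl (sp x) (2 + P.e) t + cl (sp x) (3 + P.e) t with hv
  set u := cl (!sp x) P.e t with hu
  set S := B.R (!sp x) (posB P.e t) * ‖B.φ (!sp x) (posB P.e t)‖ with hS
  have e1 : Real.exp (v + 2 * u) = Real.exp v * Real.exp u ^ 2 := by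
    rw [Real.exp_add v, two_mul, Real.exp_add u u, pow_two]
  have e5 : Real.exp (-(2 * pr (!sp x) P.e t)) * Real.exp (pr (!sp x) P.e t) ^ 2 = 1 := by
    rw [← Real.exp_nat_mul, ← Real.exp_add]
    push_cast
    ring_nf
    exact Real.exp_zero
  have hcs := cS6_nonneg m T1 t
  have k1 : (S * Real.exp u) ^ 2 ≤ (C ^ 3 * Real.exp (pr (!sp x) P.e t)) ^ 2 :=
    pow_le_pow_left₀ (mul_nonneg s0 (Real.exp_pos _).le) s1 2
  rw [e1]
  calc 2 * (oSc B (sp x) (posS P.e t) * (4 * Real.cos l ^ 2 * (S / Real.sin (5 * l) ^ 2) ^ 2)) *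
        (Real.exp v * Real.exp u ^ 2) =
      2 * (4 * Real.cos l ^ 2 / Real.sin (5 * l) ^ 4) *
        ((oSc B (sp x) (posS P.e t) * Real.exp v) * (S * Real.exp u) ^ 2) := by
        field_simp
    _ ≤ 2 * (4 * Real.cos l ^ 2 / Real.sin (5 * l) ^ 4) *
        ((aS * C ^ 5 * (Real.exp (-(2 * pr (!sp x) P.e t)) * cS6 m T1 t)) *
          (C ^ 3 * Real.exp (pr (!sp x) P.e t)) ^ 2) := by
        refine mul_le_mul_of_nonneg_left (mul_le_mul o1 k1 (by positivity) (by positivity)) (by positivity)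
    _ = 2 * (4 * Real.cos l ^ 2 / Real.sin (5 * l) ^ 4) * (aS * C ^ 11 *
        (Real.exp (-(2 * pr (!sp x) P.e t)) * Real.exp (pr (!sp x) P.e t) ^ 2) * cS6 m T1 t) := by
        ring
    _ = _ := by
        rw [e5]
        unfold cK6
        ring

theorem ObC.wF (h : ObC P C rw pT m β T1 B) (hM : Mf P C rw cl pr pT) (hC : 0 ≤ C) {x : Xo}
    (hx : k6 x = .F) : ob6 B P x * Real.exp (clK cl P x) ≤
      cK6 .E * cF6 * C ^ 14 * (cS6 m T1 (ht x) * hwC (pr (sp x) P.e (ht x)) m β (ht x)) := by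
  have haS := aS_pos
  have hF := cF6_pos
  -- the object `E` with the same data
  obtain ⟨y, hy, hys, hyt⟩ : ∃ y : Xo, k6 y = .E ∧ sp y = sp x ∧ ht y = ht x := by
    refine ⟨((sp x, .Svv), (ht x, 0)), ?_, rfl, rfl⟩
    show (if (0 : ℝ) ≤ 1 / 2 then Kd6.E else Kd6.F) = .E
    rw [if_pos (by norm_num)]
  have hE := h.wE hM hC hy
  have hH := h.hole hM hC (j := P.e) (by simp [loL]) (sp x) (ht x)
  rw [← posB_vl] at hH
  have n0 : 0 ≤ ob6 B P y := ob6_nonneg h.nn P y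
  rw [hyt] at hE
  have e2 : ob6 B P x = ob6 B P y * (cF6 *
      (B.R (sp x) (posB P.e (ht x)) * ‖B.φ (sp x) (posB P.e (ht x))‖)⁻¹) := by
    rw [ob6_F B P hx, ob6_E B P hy, hys, hyt]
    unfold cF6
    ring
  have e3 : clK cl P x = clK cl P y + -cl (sp x) P.e (ht x) := by
    unfold clK
    rw [hx, hy, hys, hyt]
    simp only
    ring
  rw [e2, e3, Real.exp_add]
  have hcs := cS6_nonneg m T1 (ht x)
  have hh := hwC_nonneg (pr (sp x) P.e (ht x)) m β (ht x)
  have hK := cK6_nonneg .E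
  calc _ = cF6 * ((ob6 B P y * Real.exp (clK cl P y)) *
        ((B.R (sp x) (posB P.e (ht x)) * ‖B.φ (sp x) (posB P.e (ht x))‖)⁻¹ *
          Real.exp (-cl (sp x) P.e (ht x)))) := by ring
    _ ≤ cF6 * ((cK6 .E * C ^ 11 * cS6 m T1 (ht x)) *
        (C ^ 3 * hwC (pr (sp x) P.e (ht x)) m β (ht x))) := by
        refine mul_le_mul_of_nonneg_left (mul_le_mul hE hH ?_ (by positivity)) hF.le
        exact mul_nonneg (inv_nonneg.2 (mul_nonneg (h.nn _ _) (norm_nonneg _))) (Real.exp_pos _).le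
    _ = _ := by ring

theorem ObC.wH1 (h : ObC P C rw pT m β T1 B) (hM : Mf P C rw cl pr pT) (hC : 0 ≤ C) {x : Xo}
    (hx : k6 x = .H1) : ob6 B P x * Real.exp (clK cl P x) ≤
      cK6 .H1 * C ^ 3 * hwC (pr (sp x) P.j1 (ht x)) m β (ht x) := by
  have hH := h.hole hM hC (j := P.j1) (by simp [loL]) (sp x) (ht x)
  have hK := cK6_nonneg .H1
  rw [ob6_H1 B P hx, posL_eq]
  unfold clK
  rw [hx]
  simp only
  calc _ = cK6 .H1 * ((B.R (sp x) (vl ((1 - P.j1) * l) (ht x)) *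
        ‖B.φ (sp x) (vl ((1 - P.j1) * l) (ht x))‖)⁻¹ *
          Real.exp (-cl (sp x) P.j1 (ht x))) := by
        unfold cK6
        ring
    _ ≤ cK6 .H1 * (C ^ 3 * hwC (pr (sp x) P.j1 (ht x)) m β (ht x)) :=
        mul_le_mul_of_nonneg_left hH hK
    _ = _ := by ring

theorem ObC.wH2 (h : ObC P C rw pT m β T1 B) (hM : Mf P C rw cl pr pT) (hC : 0 ≤ C) {x : Xo}
    (hx : k6 x = .H2) : ob6 B P x * Real.exp (clK cl P x) ≤
      cK6 .H2 * C ^ 3 * hwC (pr (sp x) P.j2 (ht x)) m β (ht x) := by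
  have hH := h.hole hM hC (j := P.j2) (by simp [loL]) (sp x) (ht x)
  have hK := cK6_nonneg .H2
  rw [ob6_H2 B P hx, posL_eq]
  unfold clK
  rw [hx]
  simp only
  calc _ = cK6 .H2 * ((B.R (sp x) (vl ((1 - P.j2) * l) (ht x)) *
        ‖B.φ (sp x) (vl ((1 - P.j2) * l) (ht x))‖)⁻¹ *
          Real.exp (-cl (sp x) P.j2 (ht x))) := by
        unfold cK6
        ring
    _ ≤ cK6 .H2 * (C ^ 3 * hwC (pr (sp x) P.j2 (ht x)) m β (ht x)) :=
        mul_le_mul_of_nonneg_left hH hK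
    _ = _ := by ring

theorem ObC.wT (h : ObC P C rw pT m β T1 B) (hM : Mf P C rw cl pr pT) (hC : 0 ≤ C) (hβ1 : β ≤ 4 / 3)
    {x : Xo} (hx : k6 x = .T) :
    ob6 B P x * Real.exp (clK cl P x) ≤ aS * C ^ 5 * Real.exp (C + 8 / 3) * cut m β (ht x) := by
  have haS := aS_pos
  have r1 := h.R_exp hC (j := 3 / 2) (by simp [upL]) (sp x) (ht x) (hM.top _ _)
  have r2 := h.R_exp hC (j := 5 / 2) (by simp [upL]) (sp x) (ht x) (hM.ntr (5 / 2) (by simp) _ _)
  rw [← posT_eq] at r1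
  rw [← posTl_vl] at r2
  have b1 := h.br1 (sp x) (ht x)
  have b2 := h.br2 (sp x) (ht x)
  rw [ob6_T B P hx]
  unfold clK
  rw [hx]
  simp only
  set t := ht x with ht'
  set a := sp x with ha
  set X := ‖B.φ a (posT t) * B.φ a (posT t - l) - B.φ0 a (posT t)‖ with hX
  have hX0 : 0 ≤ X := norm_nonneg _
  have n2 := h.nn a (posT t - l)
  rw [Real.exp_add]
  have key : Real.exp (pT a t) * X ≤ C * Real.exp (C + 8 / 3) * cut m β t := by
    have hE1 : 1 ≤ Real.exp (C + 8 / 3) := Real.one_le_exp (by linarith)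
    have hE2 : Real.exp C ≤ Real.exp (C + 8 / 3) := Real.exp_le_exp.2 (by linarith)
    have k1 : Real.exp (pT a t) * X ≤ C := by
      calc Real.exp (pT a t) * X ≤ Real.exp (pT a t) * (C * Real.exp (-pT a t)) := by gcongr
        _ = C * (Real.exp (pT a t) * Real.exp (-pT a t)) := by ring
        _ = C := by rw [← Real.exp_add, add_neg_cancel, Real.exp_zero, mul_one]
    rcases le_total 1 (m * Real.exp (-(2 * β) * |t|)) with h5 | h5
    · have hc : cut m β t = 1 := by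
        unfold cut
        exact min_eq_left h5
      rw [hc, mul_one]
      exact k1.trans (le_mul_of_one_le_right hC hE1)
    · rcases le_total 1 |t| with h6 | h6
      · have h7 : pT a t ≤ C := by
          have hexp : Real.exp (-(8 / 3) * |t|) ≤ Real.exp (-(2 * β) * |t|) := by
            refine Real.exp_le_exp.2 ?_
            have := abs_nonneg t
            nlinarith
          calc pT a t ≤ C * (m * Real.exp (-(8 / 3) * |t|)) := h.pTu a t h6 h5
            _ ≤ C * (m * Real.exp (-(2 * β) * |t|)) := by gcongr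
            _ ≤ C * 1 := mul_le_mul_of_nonneg_left h5 hC
            _ = C := mul_one _
        calc Real.exp (pT a t) * X ≤ Real.exp C * (C * cut m β t) :=
              mul_le_mul (Real.exp_le_exp.2 h7) b2 hX0 (Real.exp_pos _).le
          _ = C * Real.exp C * cut m β t := by ring
          _ ≤ _ := mul_le_mul_of_nonneg_right (mul_le_mul_of_nonneg_left hE2 hC)
            (cut_nonneg _ _ _)
      · have hc : cut m β t = m * Real.exp (-(2 * β) * |t|) := by
          unfold cut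
          exact min_eq_right h5
        have hm : (1 : ℝ) ≤ m := by exact_mod_cast h.m1
        have h8 : 1 ≤ Real.exp (C + 8 / 3) * cut m β t := by
          rw [hc]
          have h9 : 1 ≤ Real.exp (C + 8 / 3) * Real.exp (-(2 * β) * |t|) := by
            rw [← Real.exp_add]
            refine Real.one_le_exp ?_
            have := abs_nonneg t
            nlinarith
          calc (1 : ℝ) ≤ Real.exp (C + 8 / 3) * Real.exp (-(2 * β) * |t|) := h9
            _ ≤ m * (Real.exp (C + 8 / 3) * Real.exp (-(2 * β) * |t|)) :=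
                le_mul_of_one_le_left (by positivity) hm
            _ = _ := by ring
        calc Real.exp (pT a t) * X ≤ C := k1
          _ ≤ C * (Real.exp (C + 8 / 3) * cut m β t) := le_mul_of_one_le_right hC h8
          _ = _ := by ring
  calc _ = aS * ((B.R a (posT t) * Real.exp (cl a (3 / 2) t)) *
        (B.R a (posT t - l) * Real.exp (cl a (5 / 2) t))) * X := by ring
    _ ≤ aS * ((C * (C * Real.exp (pT a t))) * (C * C)) * X := by
        refine mul_le_mul_of_nonneg_right (mul_le_mul_of_nonneg_left (mul_le_mul r1 r2 ?_ ?_)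
          haS.le) hX0
        · exact mul_nonneg n2 (Real.exp_pos _).le
        · positivity
    _ = aS * C ^ 4 * (Real.exp (pT a t) * X) := by ring
    _ ≤ aS * C ^ 4 * (C * Real.exp (C + 8 / 3) * cut m β t) :=
        mul_le_mul_of_nonneg_left key (by positivity)
    _ = _ := by ring

/-- constant of `wC_KB` -/
def cKBC (C : ℝ) : ℝ := (2 * Real.pi)⁻¹ * C ^ 3 + aS * C ^ 5 * Real.exp (C + 8 / 3) + cK6 .E * C ^ 11 +
    cK6 .E * cF6 * C ^ 14 + cK6 .H1 * C ^ 3 + cK6 .H2 * C ^ 3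

theorem cKBC_pos {C : ℝ} (hC : 0 < C) : 0 < cKBC C := by
  have haS := aS_pos
  have hF := cF6_pos
  have hpi := Real.pi_pos
  have hE := cK6_nonneg .E
  have hH1 := cK6_nonneg .H1
  have hH2 := cK6_nonneg .H2
  unfold cKBC
  positivity

/-- **the bounds of the six kinds with one constant** -/
theorem wC_KB (hC : 0 < C) (hβ : β ≤ 4 / 3) (hM : Mf P C rw cl pr pT) (h : ObC P C rw pT m β T1 B)
    (x : Xo) : KBC (cKBC C) P (fun j => pr (sp x) j (ht x)) m β T1
      (ob6 B P x * Real.exp (clK cl P x)) (k6 x) (ht x) := by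
  have haS := aS_pos
  have hF := cF6_pos
  have hpi := Real.pi_pos
  have hE := cK6_nonneg .E
  have hH1 := cK6_nonneg .H1
  have hH2 := cK6_nonneg .H2
  have c1 : 0 ≤ (2 * Real.pi)⁻¹ * C ^ 3 := by positivity
  have c2 : 0 < aS * C ^ 5 * Real.exp (C + 8 / 3) := by positivity
  have c3 : 0 ≤ cK6 .E * C ^ 11 := by positivity
  have c4 : 0 ≤ cK6 .E * cF6 * C ^ 14 := by positivity
  have c5 : 0 ≤ cK6 .H1 * C ^ 3 := by positivity
  have c6 : 0 ≤ cK6 .H2 * C ^ 3 := by positivity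
  unfold cKBC
  rcases hk : k6 x with _ | _ | _ | _ | _ | _
  · exact KBC.mono (by linarith) (h.wL hM hC.le hk)
  · exact KBC.mono (by linarith) (h.wT hM hC.le hβ hk)
  · exact KBC.mono (by linarith) (h.wE hM hC.le hk)
  · exact KBC.mono (by linarith) (h.wF hM hC.le hk)
  · exact KBC.mono (by linarith) (h.wH1 hM hC.le hk)
  · exact KBC.mono (by linarith) (h.wH2 hM hC.le hk)

end

end PLT

end
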