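import Pool.Agent.PLT.Phi
import Pool.Agent.PLT.Ag

/-!
# The cutoff and the level function

`w` = offset of the quantum plus place of the row, in units of the files, `-l < w < 4 l`:

* `psi_le_Ag`: `‖psi β (vl (l - w) t)‖ ≤ exp (-Ag w (3 β / 4 t))`;
* `prod_psi_Ag`: lists of rows; `prod_psi_rate`: with a lower bound of the sum of the level functions;
* **`phi_hole`**: `c' cut m β t ≤ ‖phi β W u‖` on the line of offset `v` where
  `∑ Ag (v + x) s ≥ c m exp (-8/3 |s|)`; `phi_hole_ne`: no zero.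
-/

set_option autoImplicit false

noncomputable section

open Complex

namespace PLT

open NUP1
open NUO (cut)

theorem fq_La {c β : ℝ} (h1 : 0 < c + Real.sin β) (h2 : Real.sin β ≤ c) :
    fq c (Real.sin β) ≤ Real.exp (-(2 * La β c)) := by
  unfold fq La
  rcases eq_or_lt_of_le h2 with h | h
  · rw [h, sub_self, zero_div]
    exact (Real.exp_pos _).le
  · rw [show -(2 * ((Real.log (c + Real.sin β) - Real.log (c - Real.sin β)) / 2)) =
      Real.log (c - Real.sin β) - Real.log (c + Real.sin β) by ring, Real.exp_sub,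
      Real.exp_log (by linarith), Real.exp_log h1]

theorem Qps_le {d : ℝ} (h1 : -1 < d) (h2 : d < 4) (s : ℝ) :
    Qps d s ≤ Real.exp (-(2 * Ag (d * l) s)) := by
  obtain ⟨a1, a2⟩ := abs_th_lt h1 h2
  have n1 := neg_one_lt_cos a1
  have n2 := neg_one_lt_cos a2
  have hc := Real.one_le_cosh (8 / 3 * s)
  have e1 : Real.cos (Real.pi / 3 * (2 - d)) = Real.sin (8 / 3 * (d * l) - Real.pi / 6) := by
    rw [← Real.cos_pi_div_two_sub]
    congr 1
    unfold NUP1.l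
    ring
  have e2 : Real.cos (Real.pi / 3 * (1 - d)) = Real.sin (8 / 3 * (d * l) + Real.pi / 6) := by
    rw [← Real.cos_pi_div_two_sub]
    congr 1
    unfold NUP1.l
    ring
  rw [e1] at n1
  rw [e2] at n2
  unfold Qps Ag NUMF.ch
  rw [mul_add, neg_add, Real.exp_add, e1, e2]
  exact mul_le_mul (fq_La (by linarith) (by linarith [Real.sin_le_one (8 / 3 * (d * l) - Real.pi / 6)]))
    (fq_La (by linarith) (by linarith [Real.sin_le_one (8 / 3 * (d * l) + Real.pi / 6)]))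
    (fq_nonneg (by linarith [Real.sin_le_one (8 / 3 * (d * l) + Real.pi / 6)]) (by linarith))
    (Real.exp_pos _).le

section
variable {β : ℝ}

/-- **one row** -/
theorem psi_le_Ag (hβ0 : 0 < β) (hβ1 : β ≤ 4 / 3) {w : ℝ} (h1 : -l < w) (h2 : w < 4 * l) (t : ℝ) :
    ‖psi β (vl (l - w) t)‖ ≤ Real.exp (-Ag w (3 * β / 4 * t)) := by
  have hl := l_pos
  have k1 : -1 < w / l := by rw [lt_div_iff₀ hl]; linarith
  have k2 : w / l < 4 := by rw [div_lt_iff₀ hl]; linarith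
  have e : (1 - w / l) * l = l - w := by field_simp
  have e' : w / l * l = w := by field_simp
  have a := (psi_le hβ0 hβ1 k1 k2 t).trans (Qps_le k1 k2 _)
  rw [e, e'] at a
  refine (sq_le_sq₀ (norm_nonneg _) (Real.exp_pos _).le).1 (a.trans (le_of_eq ?_))
  rw [← Real.exp_nat_mul]
  congr 1
  push_cast
  ring

/-- **a list of rows** -/
theorem prod_psi_Ag (hβ0 : 0 < β) (hβ1 : β ≤ 4 / 3) (v t : ℝ) (X : List ℝ)
    (hX : ∀ x ∈ X, -l < v + x ∧ v + x < 4 * l) :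
    ‖((X.map fun x : ℝ => (x : ℂ)).map fun x => psi β (vl (l - v) t - x)).prod‖ ≤
      Real.exp (-(X.map fun x => Ag (v + x) (3 * β / 4 * t)).sum) := by
  induction X with
  | nil => simp
  | cons x X ih =>
    have i := ih fun y hy => hX y (by simp [hy])
    obtain ⟨a, b⟩ := hX x (by simp)
    have e : vl (l - v) t - (x : ℂ) = vl (l - (v + x)) t := by
      unfold vl
      push_cast
      ring
    have a1 := psi_le_Ag hβ0 hβ1 a b t
    rw [← e] at a1
    rw [List.map_cons, List.map_cons, List.prod_cons, List.map_cons, List.sum_cons, norm_mul,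
      neg_add, Real.exp_add]
    exact mul_le_mul a1 i (norm_nonneg _) (Real.exp_pos _).le

/-- the bulk where the sum of the level functions has a rate -/
theorem prod_psi_rate (hβ0 : 0 < β) (hβ1 : β ≤ 4 / 3) {v : ℝ} {X : List ℝ}
    (hX : ∀ x ∈ X, -l < v + x ∧ v + x < 4 * l) {c : ℝ} {m : ℕ}
    (hS : ∀ s : ℝ, c * (m * Real.exp (-(8 / 3 * |s|))) ≤ (X.map fun x => Ag (v + x) s).sum) (t : ℝ) :
    ‖((X.map fun x : ℝ => (x : ℂ)).map fun x => psi β (vl (l - v) t - x)).prod‖ ≤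
      Real.exp (-(c * (m * Real.exp (-(2 * β) * |(vl (l - v) t).im|)))) := by
  refine (prod_psi_Ag hβ0 hβ1 v t X hX).trans (Real.exp_le_exp.2 (neg_le_neg ?_))
  refine le_trans (le_of_eq ?_) (hS (3 * β / 4 * t))
  rw [vl_im, abs_mul, abs_of_pos (by positivity : 0 < 3 * β / 4)]
  congr 3
  ring

/-- **the cutoff from below on the line of offset `v`** -/
theorem phi_hole (hβ0 : 0 < β) (hβ1 : β ≤ 4 / 3) {δ h0 : ℝ} (hd0 : 0 < δ) (hd1 : δ ≤ 1)
    (hh : 0 ≤ h0) {v t : ℝ} {X : List ℝ} (hX : ∀ x ∈ X, -l < v + x ∧ v + x < 4 * l) {c : ℝ}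
    (hc : 0 ≤ c) {m n0 : ℕ}
    (hS : ∀ s : ℝ, c * (m * Real.exp (-(8 / 3 * |s|))) ≤ (X.map fun x => Ag (v + x) s).sum)
    {W ex : List ℂ} (hW : W.Perm ((X.map fun x : ℝ => (x : ℂ)) ++ ex))
    (h : RwD δ h0 (vl (l - v) t) ex) (hn : ex.length ≤ n0) (hm : cK δ h0 * n0 ≤ c / 2 * m) :
    min 1 (c / 2) / 2 * cut m β t ≤ ‖phi β W (vl (l - v) t)‖ := by
  have := phi_low hβ0 hβ1 hd0 hd1 hh hW h hc (prod_psi_rate hβ0 hβ1 hX hS t) hn hm
  rwa [vl_im] at this

/-- **no zero of the cutoff on the line of offset `v`** -/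
theorem phi_hole_ne (hβ0 : 0 < β) (hβ1 : β ≤ 4 / 3) {δ h0 : ℝ} (hd0 : 0 < δ) (hd1 : δ ≤ 1)
    (hh : 0 ≤ h0) {v t : ℝ} {X : List ℝ} (hX : ∀ x ∈ X, -l < v + x ∧ v + x < 4 * l) {c : ℝ}
    (hc : 0 < c) {m n0 : ℕ} (hm1 : 1 ≤ m)
    (hS : ∀ s : ℝ, c * (m * Real.exp (-(8 / 3 * |s|))) ≤ (X.map fun x => Ag (v + x) s).sum)
    {W ex : List ℂ} (hW : W.Perm ((X.map fun x : ℝ => (x : ℂ)) ++ ex))
    (h : RwD δ h0 (vl (l - v) t) ex) (hn : ex.length ≤ n0) (hm : cK δ h0 * n0 ≤ c / 2 * m) :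
    phi β W (vl (l - v) t) ≠ 0 :=
  phi_ne hβ0 hβ1 hd0 hd1 hh hW h hc hm1 (prod_psi_rate hβ0 hβ1 hX hS t) hn hm

end

end PLT
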