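import Pool.Agent.PLT.Rate

/-!
# The pole of a row against the level function

* **`pole_le`**: `1 + ‖sin (l - V + i t)‖⁻¹ ≤ K e^(Ag V t)` for `0 ≤ V ≤ 3/2 l`, all `t`;
* **`Ag_far`**: `|Ag V t| ≤ 8 e^(-8/3 |t|)` for `1 ≤ |t|`, all `V`.
-/

set_option autoImplicit false

noncomputable section

open Set

namespace PLT

open NUMF

/-! ### far heights -/

private theorem La_le {β c : ℝ} (hc : 2 ≤ c) : La β c ≤ 2 / c := by
  have s1 := Real.sin_le_one β
  have s2 := Real.neg_one_le_sin β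
  have a1 : 0 < c + Real.sin β := by linarith
  have a2 : 0 < c - Real.sin β := by linarith
  have h2 := Real.log_le_sub_one_of_pos (x := (c + Real.sin β) / (c - Real.sin β)) (by positivity)
  rw [Real.log_div a1.ne' a2.ne'] at h2
  have h3 : (c + Real.sin β) / (c - Real.sin β) - 1 ≤ 4 / c := by
    rw [div_sub_one a2.ne', div_le_div_iff₀ a2 (by linarith)]
    nlinarith
  unfold La
  have e : 4 / c = 2 * (2 / c) := by ring
  linarith

theorem exp_le_two_ch (t : ℝ) : Real.exp (8 / 3 * |t|) ≤ 2 * ch t := by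
  unfold ch
  rw [← Real.cosh_abs, abs_mul, abs_of_pos (by norm_num : (0 : ℝ) < 8 / 3), Real.cosh_eq]
  have := Real.exp_pos (-(8 / 3 * |t|))
  linarith

/-- **the level function at far heights** -/
theorem Ag_far_le {t : ℝ} (ht : 1 ≤ |t|) (V : ℝ) : Ag V t ≤ 8 * Real.exp (-(8 / 3) * |t|) := by
  have h1 := exp_le_two_ch t
  have h2 : (8 / 3 * |t| + 1) ≤ Real.exp (8 / 3 * |t|) := Real.add_one_le_exp _
  have h3 : Real.exp 1 ≤ Real.exp (8 / 3 * |t|) := Real.exp_le_exp.2 (by linarith)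
  have h4 : 4 ≤ Real.exp (8 / 3 * |t|) := by
    have h5 : Real.exp 2 ≤ Real.exp (8 / 3 * |t|) := Real.exp_le_exp.2 (by linarith)
    have h6 : Real.exp 2 = Real.exp 1 * Real.exp 1 := by
      rw [← Real.exp_add]
      norm_num
    have h7 : (2.7 : ℝ) ≤ Real.exp 1 := by linarith [Real.exp_one_gt_d9]
    nlinarith
  have hc : 2 ≤ ch t := by linarith
  have b1 := La_le (β := 8 / 3 * V - Real.pi / 6) hc
  have b2 := La_le (β := 8 / 3 * V + Real.pi / 6) hc
  have b3 : 2 / ch t ≤ 4 * Real.exp (-(8 / 3) * |t|) := by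
    rw [show -(8 / 3) * |t| = -(8 / 3 * |t|) by ring, Real.exp_neg, div_le_iff₀ (by linarith)]
    have h6 : (Real.exp (8 / 3 * |t|))⁻¹ * Real.exp (8 / 3 * |t|) = 1 :=
      inv_mul_cancel₀ (Real.exp_pos _).ne'
    have h7 : 0 < (Real.exp (8 / 3 * |t|))⁻¹ := by positivity
    nlinarith
  unfold Ag
  linarith

theorem Ag_far {t : ℝ} (ht : 1 ≤ |t|) (V : ℝ) : |Ag V t| ≤ 8 * Real.exp (-(8 / 3) * |t|) := by
  rw [abs_le]
  have h1 := Ag_far_le ht V
  have h2 := Ag_far_le ht (-V)
  rw [Ag_neg_v] at h2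
  constructor <;> linarith

/-! ### the pole -/

private theorem sin_sq_low {x : ℝ} (h : |x| ≤ l) : x ^ 2 / 4 ≤ Real.sin x ^ 2 := by
  have hpl : l = Real.pi / 8 := rfl
  have hpi := Real.pi_pos
  have h0 := abs_nonneg x
  have h1 := Real.mul_le_sin h0 (by rw [hpl] at h; linarith)
  have h2 : 1 / 2 ≤ 2 / Real.pi := by
    rw [div_le_div_iff₀ two_pos hpi]
    linarith [Real.pi_lt_d2]
  have h3 : 1 / 2 * |x| ≤ Real.sin |x| := (mul_le_mul_of_nonneg_right h2 h0).trans h1
  have h4 : Real.sin |x| ^ 2 = Real.sin x ^ 2 := by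
    rcases abs_choice x with h | h
    · rw [h]
    · rw [h, Real.sin_neg, neg_sq]
  have h5 : (1 / 2 * |x|) ^ 2 ≤ Real.sin |x| ^ 2 := pow_le_pow_left₀ (by positivity) h3 2
  rw [h4] at h5
  have h6 : (1 / 2 * |x|) ^ 2 = x ^ 2 / 4 := by rw [mul_pow, sq_abs]; ring
  linarith

private theorem sinh_sq_ge (t : ℝ) : t ^ 2 ≤ Real.sinh t ^ 2 := by
  rw [sq_le_sq, Real.abs_sinh]
  exact Real.self_le_sinh_iff.2 (abs_nonneg t)

private theorem sinh_le {y : ℝ} (h0 : 0 ≤ y) (h1 : y ≤ 4 / 3) : Real.sinh y ≤ 4 * y := by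
  -- `sinh y ≤ y e^y`
  have h2 : Real.sinh y ≤ y * Real.exp y := by
    have a1 : 1 - 2 * y ≤ Real.exp (-(2 * y)) := by linarith [Real.add_one_le_exp (-(2 * y))]
    have a2 : Real.exp (-y) = Real.exp y * Real.exp (-(2 * y)) := by
      rw [← Real.exp_add]
      congr 1
      ring
    rw [Real.sinh_eq, a2]
    have := Real.exp_pos y
    nlinarith
  have h3 : Real.exp y ≤ 4 := by
    have a1 : Real.exp y ≤ Real.exp (4 / 3) := Real.exp_le_exp.2 h1
    have a2 : Real.exp (4 / 3) ^ 3 = Real.exp 1 ^ 4 := by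
      rw [← Real.exp_nat_mul, ← Real.exp_nat_mul]
      norm_num
    have a3 : Real.exp 1 < 2.72 := by linarith [Real.exp_one_lt_d9]
    have a4 : Real.exp 1 ^ 4 ≤ (2.72 : ℝ) ^ 4 := pow_le_pow_left₀ (Real.exp_pos _).le a3.le 4
    have a5 : Real.exp (4 / 3) ^ 3 ≤ (4 : ℝ) ^ 3 := by
      rw [a2]
      refine a4.trans (by norm_num)
    exact a1.trans (le_of_pow_le_pow_left₀ (by norm_num) (by norm_num) a5)
  calc _ ≤ y * Real.exp y := h2
    _ ≤ y * 4 := mul_le_mul_of_nonneg_left h3 h0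
    _ = _ := by ring

/-- the denominator of the level function near the pole -/
private theorem den_near {x t : ℝ} (hx : |x| ≤ l) (ht : |t| ≤ 1) :
    ch t - Real.cos (8 / 3 * x) ≤ 64 * (Real.sin x ^ 2 + Real.sinh t ^ 2) := by
  have h1 : ch t = 2 * Real.sinh (4 / 3 * t) ^ 2 + 1 := by
    unfold ch
    rw [show 8 / 3 * t = 2 * (4 / 3 * t) by ring, Real.cosh_two_mul, Real.cosh_sq]
    ring
  have h2 : Real.cos (8 / 3 * x) = 1 - 2 * Real.sin (4 / 3 * x) ^ 2 := by
    rw [show 8 / 3 * x = 2 * (4 / 3 * x) by ring, Real.cos_two_mul, Real.cos_sq']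
    ring
  have h3 : Real.sin (4 / 3 * x) ^ 2 ≤ (4 / 3 * x) ^ 2 := by
    rw [sq_le_sq]
    exact Real.abs_sin_le_abs
  have h4 : Real.sinh (4 / 3 * t) ^ 2 ≤ (16 / 3 * t) ^ 2 := by
    rw [sq_le_sq, Real.abs_sinh, abs_mul, abs_mul, abs_of_pos (by norm_num : (0 : ℝ) < 4 / 3),
      abs_of_pos (by norm_num : (0 : ℝ) < 16 / 3)]
    have := sinh_le (y := 4 / 3 * |t|) (by positivity) (by linarith)
    linarith
  have h5 := sin_sq_low hx
  have h6 := sinh_sq_ge t
  rw [h1, h2]
  nlinarith [sq_nonneg x, sq_nonneg t]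

private theorem norm_sin_sq' (x t : ℝ) : ‖Complex.sin ((x : ℂ) + t * Complex.I)‖ ^ 2 =
    Real.sin x ^ 2 + Real.sinh t ^ 2 := by
  rw [Complex.sin_add_mul_I]
  have e : Complex.sin x * Complex.cosh t + Complex.cos x * Complex.sinh t * Complex.I =
      ((Real.sin x * Real.cosh t : ℝ) : ℂ) + ((Real.cos x * Real.sinh t : ℝ) : ℂ) * Complex.I := by
    push_cast
    ring
  rw [e, ← Complex.normSq_eq_norm_sq, Complex.normSq_add_mul_I]
  have h1 := Real.cosh_sq t
  have h2 := Real.sin_sq_add_cos_sq x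
  have h3 : Real.cos x ^ 2 = 1 - Real.sin x ^ 2 := by linarith
  rw [mul_pow, mul_pow, h1, h3]
  ring

/-- the exponential of `La` -/
private theorem exp_two_La {β c : ℝ} (h1 : 0 < c + Real.sin β) (h2 : 0 < c - Real.sin β) :
    Real.exp (2 * La β c) = (c + Real.sin β) / (c - Real.sin β) := by
  unfold La
  rw [mul_div_cancel₀ _ (two_ne_zero), Real.exp_sub, Real.exp_log h1, Real.exp_log h2]

/-- **the pole of a row against the level function** -/
theorem pole_le {V t : ℝ} (h0 : 0 ≤ V) (h1 : V ≤ 3 / 2 * l) :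
    1 + ‖Complex.sin (((l - V : ℝ) : ℂ) + t * Complex.I)‖⁻¹ ≤ 100 * Real.exp (Ag V t) := by
  have hl : 0 < l := l_pos
  have hpl : l = Real.pi / 8 := rfl
  have hA := Ag_nonneg h0 (by linarith) t
  have hE : 1 ≤ Real.exp (Ag V t) := Real.one_le_exp hA
  obtain ⟨x, hx⟩ : ∃ x, x = l - V := ⟨_, rfl⟩
  have hxl : |x| ≤ l := by
    rw [hx, abs_le]
    constructor <;> linarith
  have hn := norm_sin_sq' x t
  rw [← hx]
  obtain ⟨s, hs⟩ : ∃ s, s = ‖Complex.sin ((x : ℂ) + t * Complex.I)‖ := ⟨_, rfl⟩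
  have hs0 : 0 ≤ s := by rw [hs]; exact norm_nonneg _
  rw [← hs] at hn ⊢
  rcases eq_or_lt_of_le hs0 with hz | hz
  · rw [← hz, inv_zero]
    linarith
  rcases le_total 1 |t| with ht | ht
  · have h2 : 1 ≤ s := by
      have h3 := sinh_sq_ge t
      have h4 : 1 ≤ t ^ 2 := by
        rw [← sq_abs]
        nlinarith
      have h5 := sq_nonneg (Real.sin x)
      nlinarith
    have h3 : s⁻¹ ≤ 1 := inv_le_one_of_one_le₀ h2
    linarith
  · -- near
    have hc1 := one_le_ch t
    have e2 : Real.sin (8 / 3 * V + Real.pi / 6) = Real.cos (8 / 3 * x) := by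
      rw [← Real.sin_pi_div_two_sub, hx, hpl]
      congr 1
      ring
    have hb2 : 1 / 2 ≤ Real.cos (8 / 3 * x) := by
      rw [← Real.cos_abs, ← Real.cos_pi_div_three]
      refine Real.cos_le_cos_of_nonneg_of_le_pi (abs_nonneg _) (by linarith [Real.pi_pos]) ?_
      rw [abs_mul, abs_of_pos (by norm_num : (0 : ℝ) < 8 / 3)]
      rw [hpl] at hxl
      linarith
    have hb1 : -(1 / 2) ≤ Real.sin (8 / 3 * V - Real.pi / 6) := by
      rw [← Real.sin_pi_div_six, ← Real.sin_neg]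
      refine Real.sin_le_sin_of_le_of_le_pi_div_two ?_ ?_ ?_
      · linarith [Real.pi_pos]
      · rw [hpl] at h1
        linarith
      · linarith
    have hden := den_near hxl ht
    rw [← hn] at hden
    have hs2 : s ^ 2 ≤ 4 := by
      rw [hn]
      have h3 := Real.sin_sq_le_one x
      have h4 : Real.sinh t ^ 2 ≤ 3 := by
        have h5 : Real.sinh t ^ 2 = Real.cosh t ^ 2 - 1 := by rw [Real.cosh_sq]; ring
        have h6 : Real.cosh t ≤ 2 := by
          rw [← Real.cosh_abs]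
          have h7 : Real.cosh |t| ≤ Real.cosh 1 := Real.cosh_le_cosh.2 (by
            rw [abs_abs, abs_one]
            exact ht)
          refine h7.trans ?_
          rw [Real.cosh_eq]
          have h8 : Real.exp (-1) ≤ 1 := Real.exp_le_one_iff.2 (by norm_num)
          linarith [Real.exp_one_lt_d9]
        have h7 := Real.cosh_pos t
        rw [h5]
        nlinarith
      linarith
    have hcp : 0 < ch t - Real.cos (8 / 3 * x) := by
      rcases eq_or_lt_of_le hc1 with h | h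
      · have ht0 : t = 0 := by
          unfold ch at h
          by_contra hne
          have := Real.one_lt_cosh.2 (show 8 / 3 * t ≠ 0 by positivity)
          linarith
        have hx0 : x ≠ 0 := by
          intro h0
          rw [h0, ht0] at hn
          simp at hn
          exact hz.ne' hn
        have h3 : Real.cos (8 / 3 * x) < 1 := by
          rw [← Real.cos_abs, ← Real.cos_zero]
          refine Real.cos_lt_cos_of_nonneg_of_le_pi le_rfl ?_ (abs_pos.2 (by positivity))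
          rw [abs_mul, abs_of_pos (by norm_num : (0 : ℝ) < 8 / 3)]
          rw [hpl] at hxl
          linarith [Real.pi_pos]
        linarith
      · linarith [Real.cos_le_one (8 / 3 * x)]
    have E2 := exp_two_La (β := 8 / 3 * V + Real.pi / 6) (c := ch t) (by rw [e2]; linarith)
      (by rw [e2]; exact hcp)
    rw [e2] at E2
    have hs1 := Real.sin_le_one (8 / 3 * V - Real.pi / 6)
    have E1 : 1 / 3 ≤ Real.exp (2 * La (8 / 3 * V - Real.pi / 6) (ch t)) := by
      rcases le_or_gt (ch t) (Real.sin (8 / 3 * V - Real.pi / 6)) with h | h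
      · -- impossible: `8 V / 3 - π / 6 < π / 2`
        exfalso
        have h4 : Real.sin (8 / 3 * V - Real.pi / 6) < 1 := by
          rw [← Real.sin_pi_div_two]
          refine Real.sin_lt_sin_of_lt_of_le_pi_div_two ?_ le_rfl ?_
          · linarith [Real.pi_pos]
          · rw [hpl] at h1
            linarith [Real.pi_pos]
        linarith
      · rw [exp_two_La (by linarith) (by linarith), div_le_div_iff₀ (by norm_num) (by linarith)]
        linarith
    have E : Real.exp (Ag V t) ^ 2 = Real.exp (2 * La (8 / 3 * V - Real.pi / 6) (ch t)) *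
        Real.exp (2 * La (8 / 3 * V + Real.pi / 6) (ch t)) := by
      rw [← Real.exp_add, ← Real.exp_nat_mul]
      congr 1
      unfold Ag
      push_cast
      ring
    have h5 : 1 / (128 * s ^ 2) ≤ Real.exp (Ag V t) ^ 2 := by
      rw [E, E2]
      have h6 : 3 / 2 / (64 * s ^ 2) ≤ (ch t + Real.cos (8 / 3 * x)) / (ch t - Real.cos (8 / 3 * x)) :=
        div_le_div₀ (by linarith) (by linarith) hcp hden
      have h7 : 0 ≤ 3 / 2 / (64 * s ^ 2) := by positivity
      calc 1 / (128 * s ^ 2) = 1 / 3 * (3 / 2 / (64 * s ^ 2)) := by field_simp; norm_num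
        _ ≤ _ := mul_le_mul E1 h6 h7 (Real.exp_pos _).le
    have h6 : (1 + s⁻¹) ^ 2 ≤ (100 * Real.exp (Ag V t)) ^ 2 := by
      have h7 : s⁻¹ ^ 2 ≤ 128 * Real.exp (Ag V t) ^ 2 := by
        have h8 : s⁻¹ ^ 2 = 128 * (1 / (128 * s ^ 2)) := by field_simp
        rw [h8]
        exact mul_le_mul_of_nonneg_left h5 (by norm_num)
      have h9 : (1 + s⁻¹) ^ 2 ≤ 2 + 2 * s⁻¹ ^ 2 := by nlinarith [sq_nonneg (1 - s⁻¹)]
      have h10 : 1 ≤ Real.exp (Ag V t) ^ 2 := one_le_pow₀ hE
      rw [mul_pow]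
      nlinarith
    exact (sq_le_sq₀ (by positivity) (by positivity)).1 h6

end PLT

end
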