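import Pool.Agent.PLT.Price

/-!
# Size and continuity of the clouds over a static curve

* `co1_bd`, `co2_bd`, `co3_bd`: `|co V t - 2 log cosh t| ≤ C`; `cx1_bd`, `cx2_bd`:
  `|cx V t + 2 log cosh t| ≤ C`, uniform in the place (closed windows);
* `clP_bd`, `clX_bd`: the same for the clouds of a content;
* `clP_cont`, `clX_cont`: continuity in the height.
-/

set_option autoImplicit false

noncomputable section

open MeasureTheory Set Filter Topology

namespace PLT

open NUMF (l l_pos)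

private theorem five {d : ℝ} (hd : 0 < d) : ∃ C : ℝ, 0 ≤ C ∧ ∀ y t, |y| ≤ 5 * l - d →
    |Hc t y - 2 * Real.log (Real.cosh t)| ≤ C :=
  Hc_bd (by linarith)

private theorem lin5 {L C a b c e f : ℝ} (h1 : |a - 2 * L| ≤ C) (h2 : |b - 2 * L| ≤ C)
    (h3 : |c - 2 * L| ≤ C) (h4 : |e - 2 * L| ≤ C) (h5 : |f - 2 * L| ≤ C) :
    |a + (b + c) / 2 - (e + f) / 2 - Real.log 2 - 2 * L| ≤ 3 * C + 1 := by
  have h6 : (0:ℝ) < Real.log 2 := Real.log_pos (by norm_num)
  have h7 := Real.log_two_lt_d9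
  rw [abs_le] at *
  constructor <;> linarith [h1.1, h1.2, h2.1, h2.2, h3.1, h3.2, h4.1, h4.2, h5.1, h5.2]

private theorem lin3 {L C a b c : ℝ} (h1 : |a - 2 * L| ≤ C) (h2 : |b - 2 * L| ≤ C)
    (h3 : |c - 2 * L| ≤ C) : |Real.log 2 + a - (b + c) + 2 * L| ≤ 3 * C + 1 := by
  have h6 : (0:ℝ) < Real.log 2 := Real.log_pos (by norm_num)
  have h7 := Real.log_two_lt_d9
  rw [abs_le] at *
  constructor <;> linarith [h1.1, h1.2, h2.1, h2.2, h3.1, h3.2]

/-- own cloud of one row between the curve and `l` -/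
theorem co1_bd {d : ℝ} (hd : 0 < d) : ∃ C : ℝ, 0 ≤ C ∧ ∀ V t, -l + d ≤ V → V ≤ 2 * l - d →
    |co1 V t - 2 * Real.log (Real.cosh t)| ≤ C := by
  obtain ⟨C, hC, h⟩ := five hd
  have hl := l_pos
  refine ⟨3 * C + 1, by linarith, fun V t h1 h2 => ?_⟩
  refine lin5 (h _ t ?_) (h _ t ?_) (h _ t ?_) (h _ t ?_) (h _ t ?_) <;>
    (rw [abs_le]; constructor <;> linarith)

/-- own cloud of one row between `l` and `2 l` -/
theorem co2_bd {d : ℝ} (hd : 0 < d) : ∃ C : ℝ, 0 ≤ C ∧ ∀ V t, d ≤ V → V ≤ 3 * l - d →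
    |co2 V t - 2 * Real.log (Real.cosh t)| ≤ C := by
  obtain ⟨C, hC, h⟩ := five hd
  have hl := l_pos
  refine ⟨3 * C + 1, by linarith, fun V t h1 h2 => ?_⟩
  refine lin5 (h _ t ?_) (h _ t ?_) (h _ t ?_) (h _ t ?_) (h _ t ?_) <;>
    (rw [abs_le]; constructor <;> linarith)

/-- own cloud of one row beyond `2 l` -/
theorem co3_bd {d : ℝ} (hd : 0 < d) : ∃ C : ℝ, 0 ≤ C ∧ ∀ V t, l + d ≤ V → V ≤ 5 * l - d →
    |co3 V t - 2 * Real.log (Real.cosh t)| ≤ C := by
  obtain ⟨C, hC, h⟩ := five hd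
  have hl := l_pos
  refine ⟨3 * C + 1, by linarith, fun V t h1 h2 => ?_⟩
  refine lin5 (h _ t ?_) (h _ t ?_) (h _ t ?_) (h _ t ?_) (h _ t ?_) <;>
    (rw [abs_le]; constructor <;> linarith)

/-- cross cloud of one row below `3 l` -/
theorem cx1_bd {d : ℝ} (hd : 0 < d) : ∃ C : ℝ, 0 ≤ C ∧ ∀ V t, |V| ≤ 4 * l - d →
    |cx1 V t + 2 * Real.log (Real.cosh t)| ≤ C := by
  obtain ⟨C, hC, h⟩ := five hd
  have hl := l_pos
  refine ⟨3 * C + 1, by linarith, fun V t h1 => ?_⟩
  have h2 := abs_le.1 h1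
  refine lin3 (h _ t ?_) (h _ t ?_) (h _ t ?_) <;> (rw [abs_le]; constructor <;> linarith)

/-- cross cloud of one row beyond `3 l` -/
theorem cx2_bd {d : ℝ} (hd : 0 < d) : ∃ C : ℝ, 0 ≤ C ∧ ∀ V t, 2 * l + d ≤ V → V ≤ 5 * l - d →
    |cx2 V t + 2 * Real.log (Real.cosh t)| ≤ C := by
  obtain ⟨C, hC, h⟩ := five hd
  have hl := l_pos
  refine ⟨3 * C + 1, by linarith, fun V t h1 h2 => ?_⟩
  refine lin3 (h _ t ?_) (h _ t ?_) (h _ t ?_) <;> (rw [abs_le]; constructor <;> linarith)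

/-! ### continuity -/

theorem co1_cont {V : ℝ} (h1 : -l < V) (h2 : V < 2 * l) : Continuous fun t => co1 V t := by
  have hl := l_pos
  unfold co1
  have a1 := Hc_cont_t (y := V - 4 * l) (by rw [abs_lt]; constructor <;> linarith)
  have a2 := Hc_cont_t (y := V - 2 * l) (by rw [abs_lt]; constructor <;> linarith)
  have a3 := Hc_cont_t (y := V + 2 * l) (by rw [abs_lt]; constructor <;> linarith)
  have a4 := Hc_cont_t (y := V - 3 * l) (by rw [abs_lt]; constructor <;> linarith)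
  have a5 := Hc_cont_t (y := V + 3 * l) (by rw [abs_lt]; constructor <;> linarith)
  fun_prop

theorem co2_cont {V : ℝ} (h1 : 0 < V) (h2 : V < 3 * l) : Continuous fun t => co2 V t := by
  have hl := l_pos
  unfold co2
  have a1 := Hc_cont_t (y := V - 4 * l) (by rw [abs_lt]; constructor <;> linarith)
  have a2 := Hc_cont_t (y := V - 2 * l) (by rw [abs_lt]; constructor <;> linarith)
  have a3 := Hc_cont_t (y := V + 2 * l) (by rw [abs_lt]; constructor <;> linarith)
  have a4 := Hc_cont_t (y := V - 3 * l) (by rw [abs_lt]; constructor <;> linarith)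
  have a5 := Hc_cont_t (y := V - 5 * l) (by rw [abs_lt]; constructor <;> linarith)
  fun_prop

theorem co3_cont {V : ℝ} (h1 : l < V) (h2 : V < 5 * l) : Continuous fun t => co3 V t := by
  have hl := l_pos
  unfold co3
  have a1 := Hc_cont_t (y := V - 4 * l) (by rw [abs_lt]; constructor <;> linarith)
  have a2 := Hc_cont_t (y := V - 2 * l) (by rw [abs_lt]; constructor <;> linarith)
  have a3 := Hc_cont_t (y := V - 6 * l) (by rw [abs_lt]; constructor <;> linarith)
  have a4 := Hc_cont_t (y := V - 3 * l) (by rw [abs_lt]; constructor <;> linarith)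
  have a5 := Hc_cont_t (y := V - 5 * l) (by rw [abs_lt]; constructor <;> linarith)
  fun_prop

theorem cx1_cont {V : ℝ} (h1 : |V| < 4 * l) : Continuous fun t => cx1 V t := by
  have hl := l_pos
  have h2 := abs_lt.1 h1
  unfold cx1
  have a1 := Hc_cont_t (y := V) (by linarith)
  have a2 := Hc_cont_t (y := V + l) (by rw [abs_lt]; constructor <;> linarith)
  have a3 := Hc_cont_t (y := V - l) (by rw [abs_lt]; constructor <;> linarith)
  fun_prop

theorem cx2_cont {V : ℝ} (h1 : 2 * l < V) (h2 : V < 5 * l) : Continuous fun t => cx2 V t := by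
  have hl := l_pos
  unfold cx2
  have a1 := Hc_cont_t (y := V) (by rw [abs_lt]; constructor <;> linarith)
  have a2 := Hc_cont_t (y := V - 7 * l) (by rw [abs_lt]; constructor <;> linarith)
  have a3 := Hc_cont_t (y := V - l) (by rw [abs_lt]; constructor <;> linarith)
  fun_prop

/-! ### a content -/

variable {ι : Type*} [Fintype ι] {w x : ι → ℝ} {lo hi : ℝ} {η η' ρ : ℝ → ℝ}

/-- the own cloud is continuous in the height, at every offset of the three windows -/
theorem clP_cont (hC : Cur w x lo hi η η' ρ) {j : ℝ} (hj : (hi < j * l ∧ j * l < l + lo) ∨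
    (l + hi < j * l ∧ j * l < 2 * l + lo) ∨ (2 * l + hi < j * l ∧ j * l < 4 * l + lo)) :
    Continuous fun t => clP ρ η j t := by
  have hh := hC.prf.lohi
  rcases hj with ⟨h1, h2⟩ | ⟨h1, h2⟩ | ⟨h1, h2⟩
  · have e : (fun t => clP ρ η j t) = fun t => ∑ i, w i * co1 (j * l + x i) t :=
      funext fun t => (clP_1 hC h1 h2 t).2
    rw [e]
    refine continuous_finset_sum _ fun i _ => ?_
    have := hC.x1 i
    have := hC.x2 i
    exact (co1_cont (by linarith) (by linarith)).const_mul _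
  · have e : (fun t => clP ρ η j t) = fun t => ∑ i, w i * co2 (j * l + x i) t :=
      funext fun t => (clP_2 hC h1 h2 t).2
    rw [e]
    refine continuous_finset_sum _ fun i _ => ?_
    have := hC.x1 i
    have := hC.x2 i
    exact (co2_cont (by linarith) (by linarith)).const_mul _
  · have e : (fun t => clP ρ η j t) = fun t => ∑ i, w i * co3 (j * l + x i) t :=
      funext fun t => (clP_3 hC h1 h2 t).2
    rw [e]
    refine continuous_finset_sum _ fun i _ => ?_
    have := hC.x1 i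
    have := hC.x2 i
    exact (co3_cont (by linarith) (by linarith)).const_mul _

/-- the cross cloud is continuous in the height, at every offset of the two windows -/
theorem clX_cont (hC : Cur w x lo hi η η' ρ) {j : ℝ} (hj : (hi - 3 * l < j * l ∧ j * l < 3 * l + lo) ∨
    (3 * l + hi < j * l ∧ j * l < 4 * l + lo)) : Continuous fun t => clX ρ η j t := by
  have hh := hC.prf.lohi
  rcases hj with ⟨h1, h2⟩ | ⟨h1, h2⟩
  · have e : (fun t => clX ρ η j t) = fun t => ∑ i, w i * cx1 (j * l + x i) t :=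
      funext fun t => (clX_1 hC h1 h2 t).2
    rw [e]
    refine continuous_finset_sum _ fun i _ => ?_
    have := hC.x1 i
    have := hC.x2 i
    exact (cx1_cont (by rw [abs_lt]; constructor <;> linarith)).const_mul _
  · have e : (fun t => clX ρ η j t) = fun t => ∑ i, w i * cx2 (j * l + x i) t :=
      funext fun t => (clX_2 hC h1 h2 t).2
    rw [e]
    refine continuous_finset_sum _ fun i _ => ?_
    have := hC.x1 i
    have := hC.x2 i
    exact (cx2_cont (by linarith) (by linarith)).const_mul _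

private theorem sum_bd {f : ι → ℝ} {L C : ℝ} (hw : ∀ i, 0 ≤ w i) (h : ∀ i, |f i - L| ≤ C) :
    |(∑ i, w i * f i) - (∑ i, w i) * L| ≤ (∑ i, w i) * C := by
  rw [Finset.sum_mul, Finset.sum_mul, ← Finset.sum_sub_distrib]
  refine (Finset.abs_sum_le_sum_abs _ _).trans (Finset.sum_le_sum fun i _ => ?_)
  rw [← mul_sub, abs_mul, abs_of_nonneg (hw i)]
  exact mul_le_mul_of_nonneg_left (h i) (hw i)

/-- **the own cloud against `2 log cosh`**: one constant for all contents, curves and offsets -/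
theorem clP_bd {d : ℝ} (hd : 0 < d) : ∃ C : ℝ, 0 ≤ C ∧ ∀ {ι : Type} [Fintype ι] {w x : ι → ℝ}
    {lo hi : ℝ} {η η' ρ : ℝ → ℝ}, Cur w x lo hi η η' ρ → (∀ i, 0 ≤ w i) →
    (∀ i, -l + d ≤ lo + x i ∧ hi + x i ≤ l - d) → ∀ j t : ℝ, (hi < j * l ∧ j * l < l + lo) ∨
    (l + hi < j * l ∧ j * l < 2 * l + lo) ∨ (2 * l + hi < j * l ∧ j * l < 4 * l + lo) →
    |clP ρ η j t - (∑ i, w i) * (2 * Real.log (Real.cosh t))| ≤ (∑ i, w i) * C := by
  obtain ⟨C1, hC1, h1⟩ := co1_bd hd
  obtain ⟨C2, hC2, h2⟩ := co2_bd hd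
  obtain ⟨C3, hC3, h3⟩ := co3_bd hd
  refine ⟨C1 + C2 + C3, by positivity, ?_⟩
  intro ι _ w x lo hi η η' ρ hC hw hx j t hj
  have hh := hC.prf.lohi
  have hs : 0 ≤ ∑ i, w i := Finset.sum_nonneg fun i _ => hw i
  rcases hj with ⟨a1, a2⟩ | ⟨a1, a2⟩ | ⟨a1, a2⟩
  · rw [(clP_1 hC a1 a2 t).2]
    refine (sum_bd hw fun i => h1 _ t ?_ ?_).trans (mul_le_mul_of_nonneg_left (by linarith) hs)
    · linarith [(hx i).1]
    · linarith [(hx i).2]
  · rw [(clP_2 hC a1 a2 t).2]
    refine (sum_bd hw fun i => h2 _ t ?_ ?_).trans (mul_le_mul_of_nonneg_left (by linarith) hs)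
    · linarith [(hx i).1]
    · linarith [(hx i).2]
  · rw [(clP_3 hC a1 a2 t).2]
    refine (sum_bd hw fun i => h3 _ t ?_ ?_).trans (mul_le_mul_of_nonneg_left (by linarith) hs)
    · linarith [(hx i).1]
    · linarith [(hx i).2]

/-- **the cross cloud against `2 log cosh`** -/
theorem clX_bd {d : ℝ} (hd : 0 < d) : ∃ C : ℝ, 0 ≤ C ∧ ∀ {ι : Type} [Fintype ι] {w x : ι → ℝ}
    {lo hi : ℝ} {η η' ρ : ℝ → ℝ}, Cur w x lo hi η η' ρ → (∀ i, 0 ≤ w i) →
    (∀ i, -l + d ≤ lo + x i ∧ hi + x i ≤ l - d) → ∀ j t : ℝ, (hi - 3 * l < j * l ∧ j * l < 3 * l + lo) ∨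
    (3 * l + hi < j * l ∧ j * l < 4 * l + lo) →
    |clX ρ η j t + (∑ i, w i) * (2 * Real.log (Real.cosh t))| ≤ (∑ i, w i) * C := by
  obtain ⟨C1, hC1, h1⟩ := cx1_bd hd
  obtain ⟨C2, hC2, h2⟩ := cx2_bd hd
  refine ⟨C1 + C2, by positivity, ?_⟩
  intro ι _ w x lo hi η η' ρ hC hw hx j t hj
  have hh := hC.prf.lohi
  have hs : 0 ≤ ∑ i, w i := Finset.sum_nonneg fun i _ => hw i
  rcases hj with ⟨a1, a2⟩ | ⟨a1, a2⟩
  · rw [(clX_1 hC a1 a2 t).2]
    have := sum_bd (f := fun i => cx1 (j * l + x i) t) (L := -(2 * Real.log (Real.cosh t))) (C := C1) hw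
      fun i => by
        rw [sub_neg_eq_add]
        refine h1 _ t ?_
        rw [abs_le]
        constructor
        · linarith [(hx i).1]
        · linarith [(hx i).2]
    rw [mul_neg, sub_neg_eq_add] at this
    exact this.trans (mul_le_mul_of_nonneg_left (by linarith) hs)
  · rw [(clX_2 hC a1 a2 t).2]
    have := sum_bd (f := fun i => cx2 (j * l + x i) t) (L := -(2 * Real.log (Real.cosh t))) (C := C2) hw
      fun i => by
        rw [sub_neg_eq_add]
        refine h2 _ t ?_ ?_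
        · linarith [(hx i).1]
        · linarith [(hx i).2]
    rw [mul_neg, sub_neg_eq_add] at this
    exact this.trans (mul_le_mul_of_nonneg_left (by linarith) hs)

end PLT

end
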