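import Pool.Agent.PLT.CurX
import Pool.Agent.PLT.PriceB

/-!
# Prices over a static curve, rows at complex places

As `PLT/Price` and `PLT/PriceB`: content `w i` at the complex places `x i` (offset `re`, height `im`),
cloud on a curve (`CurX w x lo hi η η' ρ`). One row: the landed functions `co1`, `co2`, `co3`, `cx1`,
`cx2`, `rO`, `rX`, `Ag` at the offset `j l + (x i).re` and the height `t - (x i).im`.

* **`clPX_1`** `hi < j l < l + lo`, **`clPX_2`** `l + hi < j l < 2 l + lo`, **`clPX_3`** `2 l + hi < j l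
  < 4 l + lo`, **`clXX_1`** `hi - 3 l < j l < 3 l + lo`, **`clXX_2`** `3 l + hi < j l < 4 l + lo`;
* **`pricePX_1`, `pricePX_2`, `pricePX_3`, `priceXX_1`, `priceXX_2`**: the sums over the rows;
* `clPX_cont`, `clXX_cont`, **`clPX_bd`**, **`clXX_bd`**.
-/

set_option autoImplicit false

noncomputable section

open MeasureTheory Set Filter Topology

namespace PLT

open NUMF (l l_pos h)

variable {ι : Type*} [Fintype ι]

/-! ### the kernels -/

private theorem lq_eq (j e u : ℝ) : NUMF.lq (j - e / l) u = h u (j * l - 4 * l - e) +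
    (h u (j * l - 2 * l - e) + h u (j * l + 2 * l - e)) / 2 -
    (h u (j * l - 3 * l - e) + h u (j * l - 5 * l - e)) / 2 - Real.log 2 := by
  have hl := l_pos.ne'
  have e1 : ∀ c : ℝ, (c - (j - e / l)) * l = -(j * l - c * l - e) := fun c => by
    field_simp
    ring
  have e2 : (2 + (j - e / l)) * l = j * l + 2 * l - e := by
    field_simp
    ring
  unfold NUMF.lq NUMF.ro
  rw [e1, e1, e1, e1, e2, h_even, h_even, h_even, h_even]

private theorem lqg_eq (j e u : ℝ) : NUMF.lqg (j - e / l) u = Real.log 2 + h u (j * l - e) -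
    (h u (j * l + l - e) + h u (j * l - l - e)) := by
  have hl := l_pos.ne'
  have e1 : (j - e / l) * l = j * l - e := by
    field_simp
  unfold NUMF.lqg
  rw [e1, show j * l - e + l = j * l + l - e by ring, show j * l - e - l = j * l - l - e by ring]

private theorem per_a (V e u : ℝ) : h u (V - 5 * l - e) = h u (V + 3 * l - e) := by
  rw [← h_per8 u (V - 5 * l - e)]
  congr 1
  ring

private theorem per_b (V e u : ℝ) : h u (V + 2 * l - e) = h u (V - 6 * l - e) := by
  rw [← h_per8 u (V - 6 * l - e)]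
  congr 1
  ring

private theorem per_c (V e u : ℝ) : h u (V + l - e) = h u (V - 7 * l - e) := by
  rw [← h_per8 u (V - 7 * l - e)]
  congr 1
  ring

section cloud

variable {w : ι → ℝ} {x : ι → ℂ} {lo hi : ℝ} {η η' ρ : ℝ → ℝ}

private theorem comb5 (hC : CurX w x lo hi η η' ρ) {a b c d e : ℝ} (ha : hi - 4 * l < a ∧ a < 4 * l + lo)
    (hb : hi - 4 * l < b ∧ b < 4 * l + lo) (hc : hi - 4 * l < c ∧ c < 4 * l + lo)
    (hd : hi - 4 * l < d ∧ d < 4 * l + lo) (he : hi - 4 * l < e ∧ e < 4 * l + lo) (t : ℝ) :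
    Integrable (fun s => ρ s * (h (t - s) (a - η s) + (h (t - s) (b - η s) + h (t - s) (c - η s)) / 2 -
      (h (t - s) (d - η s) + h (t - s) (e - η s)) / 2 - Real.log 2)) ∧
    ∫ s, ρ s * (h (t - s) (a - η s) + (h (t - s) (b - η s) + h (t - s) (c - η s)) / 2 -
      (h (t - s) (d - η s) + h (t - s) (e - η s)) / 2 - Real.log 2) =
    ∑ i, w i * (Hc (t - (x i).im) (a + (x i).re) + (Hc (t - (x i).im) (b + (x i).re) + Hc (t - (x i).im) (c + (x i).re)) / 2 -
      (Hc (t - (x i).im) (d + (x i).re) + Hc (t - (x i).im) (e + (x i).re)) / 2 - Real.log 2) := by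
  obtain ⟨i1, f1⟩ := cur_potX hC ha.1 ha.2 t
  obtain ⟨i2, f2⟩ := cur_potX hC hb.1 hb.2 t
  obtain ⟨i3, f3⟩ := cur_potX hC hc.1 hc.2 t
  obtain ⟨i4, f4⟩ := cur_potX hC hd.1 hd.2 t
  obtain ⟨i5, f5⟩ := cur_potX hC he.1 he.2 t
  obtain ⟨i6, f6⟩ := cur_massX hC
  have hf : ∀ s, ρ s * (h (t - s) (a - η s) + (h (t - s) (b - η s) + h (t - s) (c - η s)) / 2 -
      (h (t - s) (d - η s) + h (t - s) (e - η s)) / 2 - Real.log 2) =
      ρ s * h (t - s) (a - η s) + (1 / 2) * (ρ s * h (t - s) (b - η s)) +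
        (1 / 2) * (ρ s * h (t - s) (c - η s)) - (1 / 2) * (ρ s * h (t - s) (d - η s)) -
        (1 / 2) * (ρ s * h (t - s) (e - η s)) - ρ s * Real.log 2 := fun s => by ring
  have k1 := i1.add (i2.const_mul (1 / 2))
  have k2 := k1.add (i3.const_mul (1 / 2))
  have k3 := k2.sub (i4.const_mul (1 / 2))
  have k4 := k3.sub (i5.const_mul (1 / 2))
  have k6 := i6.mul_const (Real.log 2)
  refine ⟨(k4.sub k6).congr (Eventually.of_forall fun s => (hf s).symm), ?_⟩
  have b1 := integral_add i1 (i2.const_mul (1 / 2))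
  have b2 := integral_add k1 (i3.const_mul (1 / 2))
  have b3 := integral_sub k2 (i4.const_mul (1 / 2))
  have b4 := integral_sub k3 (i5.const_mul (1 / 2))
  have b5 := integral_sub k4 k6
  simp only [Pi.add_apply, Pi.sub_apply] at b1 b2 b3 b4 b5
  simp_rw [hf]
  rw [b5, b4, b3, b2, b1, integral_const_mul, integral_const_mul, integral_const_mul,
    integral_const_mul, integral_mul_const, f1, f2, f3, f4, f5, f6]
  rw [Finset.mul_sum, Finset.mul_sum, Finset.mul_sum, Finset.mul_sum, Finset.sum_mul,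
    ← Finset.sum_add_distrib, ← Finset.sum_add_distrib, ← Finset.sum_sub_distrib,
    ← Finset.sum_sub_distrib, ← Finset.sum_sub_distrib]
  exact Finset.sum_congr rfl fun i _ => by ring

private theorem comb3 (hC : CurX w x lo hi η η' ρ) {a b c : ℝ} (ha : hi - 4 * l < a ∧ a < 4 * l + lo)
    (hb : hi - 4 * l < b ∧ b < 4 * l + lo) (hc : hi - 4 * l < c ∧ c < 4 * l + lo) (t : ℝ) :
    Integrable (fun s => ρ s * (Real.log 2 + h (t - s) (a - η s) -
      (h (t - s) (b - η s) + h (t - s) (c - η s)))) ∧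
    ∫ s, ρ s * (Real.log 2 + h (t - s) (a - η s) - (h (t - s) (b - η s) + h (t - s) (c - η s))) =
    ∑ i, w i * (Real.log 2 + Hc (t - (x i).im) (a + (x i).re) - (Hc (t - (x i).im) (b + (x i).re) + Hc (t - (x i).im) (c + (x i).re))) := by
  obtain ⟨i1, f1⟩ := cur_potX hC ha.1 ha.2 t
  obtain ⟨i2, f2⟩ := cur_potX hC hb.1 hb.2 t
  obtain ⟨i3, f3⟩ := cur_potX hC hc.1 hc.2 t
  obtain ⟨i6, f6⟩ := cur_massX hC
  have hf : ∀ s, ρ s * (Real.log 2 + h (t - s) (a - η s) -
      (h (t - s) (b - η s) + h (t - s) (c - η s))) =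
      ρ s * Real.log 2 + ρ s * h (t - s) (a - η s) - ρ s * h (t - s) (b - η s) -
        ρ s * h (t - s) (c - η s) := fun s => by ring
  have k0 := i6.mul_const (Real.log 2)
  have k1 := k0.add i1
  have k2 := k1.sub i2
  refine ⟨(k2.sub i3).congr (Eventually.of_forall fun s => (hf s).symm), ?_⟩
  have b1 := integral_add k0 i1
  have b2 := integral_sub k1 i2
  have b3 := integral_sub k2 i3
  simp only [Pi.add_apply, Pi.sub_apply] at b1 b2 b3
  simp_rw [hf]
  rw [b3, b2, b1, integral_mul_const, f1, f2, f3, f6]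
  rw [Finset.sum_mul, ← Finset.sum_add_distrib, ← Finset.sum_sub_distrib, ← Finset.sum_sub_distrib]
  exact Finset.sum_congr rfl fun i _ => by ring

/-- **own cloud between the curve and `l`** -/
theorem clPX_1 (hC : CurX w x lo hi η η' ρ) {j : ℝ} (h1 : hi < j * l) (h2 : j * l < l + lo) (t : ℝ) :
    Integrable (fun s => ρ s * NUMF.lq (j - η s / l) (t - s)) ∧
    clP ρ η j t = ∑ i, w i * co1 (j * l + (x i).re) (t - (x i).im) := by
  have hl := l_pos
  have hh := hC.prf.lohi
  obtain ⟨i1, e1⟩ := comb5 hC (a := j * l - 4 * l) (b := j * l - 2 * l) (c := j * l + 2 * l)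
    (d := j * l - 3 * l) (e := j * l + 3 * l) ⟨by linarith, by linarith⟩ ⟨by linarith, by linarith⟩
    ⟨by linarith, by linarith⟩ ⟨by linarith, by linarith⟩ ⟨by linarith, by linarith⟩ t
  have hf : ∀ s, ρ s * NUMF.lq (j - η s / l) (t - s) = ρ s * (h (t - s) (j * l - 4 * l - η s) +
      (h (t - s) (j * l - 2 * l - η s) + h (t - s) (j * l + 2 * l - η s)) / 2 -
      (h (t - s) (j * l - 3 * l - η s) + h (t - s) (j * l + 3 * l - η s)) / 2 - Real.log 2) := by
    intro s
    rw [lq_eq, per_a]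
  refine ⟨i1.congr (Eventually.of_forall fun s => (hf s).symm), ?_⟩
  unfold clP
  rw [integral_congr_ae (Eventually.of_forall hf), e1]
  refine Finset.sum_congr rfl fun i _ => ?_
  unfold co1
  rw [show j * l - 4 * l + (x i).re = j * l + (x i).re - 4 * l by ring,
    show j * l - 2 * l + (x i).re = j * l + (x i).re - 2 * l by ring,
    show j * l + 2 * l + (x i).re = j * l + (x i).re + 2 * l by ring,
    show j * l - 3 * l + (x i).re = j * l + (x i).re - 3 * l by ring,
    show j * l + 3 * l + (x i).re = j * l + (x i).re + 3 * l by ring]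

/-- **own cloud between `l` and `2 l`** -/
theorem clPX_2 (hC : CurX w x lo hi η η' ρ) {j : ℝ} (h1 : l + hi < j * l) (h2 : j * l < 2 * l + lo)
    (t : ℝ) : Integrable (fun s => ρ s * NUMF.lq (j - η s / l) (t - s)) ∧
    clP ρ η j t = ∑ i, w i * co2 (j * l + (x i).re) (t - (x i).im) := by
  have hl := l_pos
  have hh := hC.prf.lohi
  obtain ⟨i1, e1⟩ := comb5 hC (a := j * l - 4 * l) (b := j * l - 2 * l) (c := j * l + 2 * l)
    (d := j * l - 3 * l) (e := j * l - 5 * l) ⟨by linarith, by linarith⟩ ⟨by linarith, by linarith⟩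
    ⟨by linarith, by linarith⟩ ⟨by linarith, by linarith⟩ ⟨by linarith, by linarith⟩ t
  have hf : ∀ s, ρ s * NUMF.lq (j - η s / l) (t - s) = ρ s * (h (t - s) (j * l - 4 * l - η s) +
      (h (t - s) (j * l - 2 * l - η s) + h (t - s) (j * l + 2 * l - η s)) / 2 -
      (h (t - s) (j * l - 3 * l - η s) + h (t - s) (j * l - 5 * l - η s)) / 2 - Real.log 2) := by
    intro s
    rw [lq_eq]
  refine ⟨i1.congr (Eventually.of_forall fun s => (hf s).symm), ?_⟩
  unfold clP
  rw [integral_congr_ae (Eventually.of_forall hf), e1]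
  refine Finset.sum_congr rfl fun i _ => ?_
  unfold co2
  rw [show j * l - 4 * l + (x i).re = j * l + (x i).re - 4 * l by ring,
    show j * l - 2 * l + (x i).re = j * l + (x i).re - 2 * l by ring,
    show j * l + 2 * l + (x i).re = j * l + (x i).re + 2 * l by ring,
    show j * l - 3 * l + (x i).re = j * l + (x i).re - 3 * l by ring,
    show j * l - 5 * l + (x i).re = j * l + (x i).re - 5 * l by ring]

/-- **own cloud between `2 l` and `4 l`** -/
theorem clPX_3 (hC : CurX w x lo hi η η' ρ) {j : ℝ} (h1 : 2 * l + hi < j * l)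
    (h2 : j * l < 4 * l + lo) (t : ℝ) :
    Integrable (fun s => ρ s * NUMF.lq (j - η s / l) (t - s)) ∧
    clP ρ η j t = ∑ i, w i * co3 (j * l + (x i).re) (t - (x i).im) := by
  have hl := l_pos
  have hh := hC.prf.lohi
  obtain ⟨i1, e1⟩ := comb5 hC (a := j * l - 4 * l) (b := j * l - 2 * l) (c := j * l - 6 * l)
    (d := j * l - 3 * l) (e := j * l - 5 * l) ⟨by linarith, by linarith⟩ ⟨by linarith, by linarith⟩
    ⟨by linarith, by linarith⟩ ⟨by linarith, by linarith⟩ ⟨by linarith, by linarith⟩ t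
  have hf : ∀ s, ρ s * NUMF.lq (j - η s / l) (t - s) = ρ s * (h (t - s) (j * l - 4 * l - η s) +
      (h (t - s) (j * l - 2 * l - η s) + h (t - s) (j * l - 6 * l - η s)) / 2 -
      (h (t - s) (j * l - 3 * l - η s) + h (t - s) (j * l - 5 * l - η s)) / 2 - Real.log 2) := by
    intro s
    rw [lq_eq, per_b]
  refine ⟨i1.congr (Eventually.of_forall fun s => (hf s).symm), ?_⟩
  unfold clP
  rw [integral_congr_ae (Eventually.of_forall hf), e1]
  refine Finset.sum_congr rfl fun i _ => ?_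
  unfold co3
  rw [show j * l - 4 * l + (x i).re = j * l + (x i).re - 4 * l by ring,
    show j * l - 2 * l + (x i).re = j * l + (x i).re - 2 * l by ring,
    show j * l - 6 * l + (x i).re = j * l + (x i).re - 6 * l by ring,
    show j * l - 3 * l + (x i).re = j * l + (x i).re - 3 * l by ring,
    show j * l - 5 * l + (x i).re = j * l + (x i).re - 5 * l by ring]

/-- **cross cloud below `3 l`** -/
theorem clXX_1 (hC : CurX w x lo hi η η' ρ) {j : ℝ} (h1 : hi - 3 * l < j * l)
    (h2 : j * l < 3 * l + lo) (t : ℝ) :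
    Integrable (fun s => ρ s * NUMF.lqg (j - η s / l) (t - s)) ∧
    clX ρ η j t = ∑ i, w i * cx1 (j * l + (x i).re) (t - (x i).im) := by
  have hl := l_pos
  have hh := hC.prf.lohi
  obtain ⟨i1, e1⟩ := comb3 hC (a := j * l) (b := j * l + l) (c := j * l - l)
    ⟨by linarith, by linarith⟩ ⟨by linarith, by linarith⟩ ⟨by linarith, by linarith⟩ t
  have hf : ∀ s, ρ s * NUMF.lqg (j - η s / l) (t - s) = ρ s * (Real.log 2 +
      h (t - s) (j * l - η s) - (h (t - s) (j * l + l - η s) + h (t - s) (j * l - l - η s))) := by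
    intro s
    rw [lqg_eq]
  refine ⟨i1.congr (Eventually.of_forall fun s => (hf s).symm), ?_⟩
  unfold clX
  rw [integral_congr_ae (Eventually.of_forall hf), e1]
  refine Finset.sum_congr rfl fun i _ => ?_
  unfold cx1
  rw [show j * l + l + (x i).re = j * l + (x i).re + l by ring, show j * l - l + (x i).re = j * l + (x i).re - l by ring]

/-- **cross cloud between `3 l` and `4 l`** -/
theorem clXX_2 (hC : CurX w x lo hi η η' ρ) {j : ℝ} (h1 : 3 * l + hi < j * l)
    (h2 : j * l < 4 * l + lo) (t : ℝ) :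
    Integrable (fun s => ρ s * NUMF.lqg (j - η s / l) (t - s)) ∧
    clX ρ η j t = ∑ i, w i * cx2 (j * l + (x i).re) (t - (x i).im) := by
  have hl := l_pos
  have hh := hC.prf.lohi
  obtain ⟨i1, e1⟩ := comb3 hC (a := j * l) (b := j * l - 7 * l) (c := j * l - l)
    ⟨by linarith, by linarith⟩ ⟨by linarith, by linarith⟩ ⟨by linarith, by linarith⟩ t
  have hf : ∀ s, ρ s * NUMF.lqg (j - η s / l) (t - s) = ρ s * (Real.log 2 +
      h (t - s) (j * l - η s) - (h (t - s) (j * l - 7 * l - η s) + h (t - s) (j * l - l - η s))) := by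
    intro s
    rw [lqg_eq, per_c]
  refine ⟨i1.congr (Eventually.of_forall fun s => (hf s).symm), ?_⟩
  unfold clX
  rw [integral_congr_ae (Eventually.of_forall hf), e1]
  refine Finset.sum_congr rfl fun i _ => ?_
  unfold cx2
  rw [show j * l - 7 * l + (x i).re = j * l + (x i).re - 7 * l by ring,
    show j * l - l + (x i).re = j * l + (x i).re - l by ring]

end cloud

/-! ### the sums -/

section price

variable {w : ι → ℝ} {x : ι → ℂ} {lo hi : ℝ} {η η' ρ : ℝ → ℝ}

/-- **own rows and cloud, `hi < j l < l + lo`** -/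
theorem pricePX_1 (hC : CurX w x lo hi η η' ρ) {j t : ℝ} (h1 : hi < j * l) (h2 : j * l < l + lo)
    (hV : ∀ i, t ≠ (x i).im ∨ j * l + (x i).re ≠ l) :
    (∑ i, w i * rO (j * l + (x i).re) (t - (x i).im)) + clP ρ η j t = ∑ i, w i * Ag (j * l + (x i).re) (t - (x i).im) := by
  have hh := hC.prf.lohi
  rw [(clPX_1 hC h1 h2 t).2, ← Finset.sum_add_distrib]
  refine Finset.sum_congr rfl fun i _ => ?_
  rw [← mul_add]
  have := hC.x1 i
  have := hC.x2 i
  rw [own1 (by linarith) (by linarith) ((hV i).symm.imp id sub_ne_zero.2)]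

/-- **own rows and cloud, `l + hi < j l < 2 l + lo`** -/
theorem pricePX_2 (hC : CurX w x lo hi η η' ρ) {j t : ℝ} (h1 : l + hi < j * l)
    (h2 : j * l < 2 * l + lo) (hV : ∀ i, t ≠ (x i).im ∨ j * l + (x i).re ≠ l) :
    (∑ i, w i * rO (j * l + (x i).re) (t - (x i).im)) + clP ρ η j t = ∑ i, w i * Ag (2 * l - (j * l + (x i).re)) (t - (x i).im) := by
  have hh := hC.prf.lohi
  rw [(clPX_2 hC h1 h2 t).2, ← Finset.sum_add_distrib]
  refine Finset.sum_congr rfl fun i _ => ?_
  rw [← mul_add]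
  have := hC.x1 i
  have := hC.x2 i
  rw [own2 (by linarith) (by linarith) ((hV i).symm.imp id sub_ne_zero.2)]

/-- **own rows and cloud, `2 l + hi < j l < 4 l + lo`** -/
theorem pricePX_3 (hC : CurX w x lo hi η η' ρ) {j : ℝ} (h1 : 2 * l + hi < j * l)
    (h2 : j * l < 4 * l + lo) (t : ℝ) :
    (∑ i, w i * rO (j * l + (x i).re) (t - (x i).im)) + clP ρ η j t = 0 := by
  have hh := hC.prf.lohi
  rw [(clPX_3 hC h1 h2 t).2, ← Finset.sum_add_distrib]
  refine Finset.sum_eq_zero fun i _ => ?_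
  rw [← mul_add]
  have := hC.x1 i
  have := hC.x2 i
  rw [own3 (by linarith) (by linarith), mul_zero]

/-- **cross rows and cloud, `hi - 3 l < j l < 3 l + lo`** -/
theorem priceXX_1 (hC : CurX w x lo hi η η' ρ) {j : ℝ} (h1 : hi - 3 * l < j * l)
    (h2 : j * l < 3 * l + lo) (t : ℝ) :
    (∑ i, w i * rX (j * l + (x i).re) (t - (x i).im)) + clX ρ η j t = 0 := by
  have hh := hC.prf.lohi
  rw [(clXX_1 hC h1 h2 t).2, ← Finset.sum_add_distrib]
  refine Finset.sum_eq_zero fun i _ => ?_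
  rw [← mul_add]
  have := hC.x1 i
  have := hC.x2 i
  rw [crs1 (by rw [abs_lt]; constructor <;> linarith), mul_zero]

/-- **cross rows and cloud, `3 l + hi < j l < 4 l + lo`** -/
theorem priceXX_2 (hC : CurX w x lo hi η η' ρ) {j t : ℝ} (h1 : 3 * l + hi < j * l)
    (h2 : j * l < 4 * l + lo) (hV : ∀ i, t ≠ (x i).im ∨ j * l + (x i).re ≠ 4 * l) :
    (∑ i, w i * rX (j * l + (x i).re) (t - (x i).im)) + clX ρ η j t = -2 * ∑ i, w i * Ag (j * l + (x i).re - 3 * l) (t - (x i).im) := by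
  have hh := hC.prf.lohi
  rw [(clXX_2 hC h1 h2 t).2, ← Finset.sum_add_distrib, Finset.mul_sum]
  refine Finset.sum_congr rfl fun i _ => ?_
  rw [← mul_add]
  have := hC.x1 i
  have := hC.x2 i
  rw [crs2 (by linarith) (by linarith) ((hV i).symm.imp id sub_ne_zero.2)]
  ring

end price

/-! ### continuity and size -/

section size

variable {w : ι → ℝ} {x : ι → ℂ} {lo hi : ℝ} {η η' ρ : ℝ → ℝ}

/-- the own cloud is continuous in the height, at every offset of the three windows -/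
theorem clPX_cont (hC : CurX w x lo hi η η' ρ) {j : ℝ} (hj : (hi < j * l ∧ j * l < l + lo) ∨
    (l + hi < j * l ∧ j * l < 2 * l + lo) ∨ (2 * l + hi < j * l ∧ j * l < 4 * l + lo)) :
    Continuous fun t => clP ρ η j t := by
  have hh := hC.prf.lohi
  rcases hj with ⟨h1, h2⟩ | ⟨h1, h2⟩ | ⟨h1, h2⟩
  · have e : (fun t => clP ρ η j t) = fun t => ∑ i, w i * co1 (j * l + (x i).re) (t - (x i).im) :=
      funext fun t => (clPX_1 hC h1 h2 t).2
    rw [e]
    refine continuous_finset_sum _ fun i _ => ?_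
    have := hC.x1 i
    have := hC.x2 i
    exact ((co1_cont (by linarith) (by linarith)).comp (by fun_prop)).const_mul _
  · have e : (fun t => clP ρ η j t) = fun t => ∑ i, w i * co2 (j * l + (x i).re) (t - (x i).im) :=
      funext fun t => (clPX_2 hC h1 h2 t).2
    rw [e]
    refine continuous_finset_sum _ fun i _ => ?_
    have := hC.x1 i
    have := hC.x2 i
    exact ((co2_cont (by linarith) (by linarith)).comp (by fun_prop)).const_mul _
  · have e : (fun t => clP ρ η j t) = fun t => ∑ i, w i * co3 (j * l + (x i).re) (t - (x i).im) :=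
      funext fun t => (clPX_3 hC h1 h2 t).2
    rw [e]
    refine continuous_finset_sum _ fun i _ => ?_
    have := hC.x1 i
    have := hC.x2 i
    exact ((co3_cont (by linarith) (by linarith)).comp (by fun_prop)).const_mul _

/-- the cross cloud is continuous in the height, at every offset of the two windows -/
theorem clXX_cont (hC : CurX w x lo hi η η' ρ) {j : ℝ} (hj : (hi - 3 * l < j * l ∧ j * l < 3 * l + lo) ∨
    (3 * l + hi < j * l ∧ j * l < 4 * l + lo)) : Continuous fun t => clX ρ η j t := by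
  have hh := hC.prf.lohi
  rcases hj with ⟨h1, h2⟩ | ⟨h1, h2⟩
  · have e : (fun t => clX ρ η j t) = fun t => ∑ i, w i * cx1 (j * l + (x i).re) (t - (x i).im) :=
      funext fun t => (clXX_1 hC h1 h2 t).2
    rw [e]
    refine continuous_finset_sum _ fun i _ => ?_
    have := hC.x1 i
    have := hC.x2 i
    exact ((cx1_cont (by rw [abs_lt]; constructor <;> linarith)).comp (by fun_prop)).const_mul _
  · have e : (fun t => clX ρ η j t) = fun t => ∑ i, w i * cx2 (j * l + (x i).re) (t - (x i).im) :=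
      funext fun t => (clXX_2 hC h1 h2 t).2
    rw [e]
    refine continuous_finset_sum _ fun i _ => ?_
    have := hC.x1 i
    have := hC.x2 i
    exact ((cx2_cont (by linarith) (by linarith)).comp (by fun_prop)).const_mul _

private theorem sum_bd {f : ι → ℝ} {L C : ℝ} (hw : ∀ i, 0 ≤ w i) (h : ∀ i, |f i - L| ≤ C) :
    |(∑ i, w i * f i) - (∑ i, w i) * L| ≤ (∑ i, w i) * C := by
  rw [Finset.sum_mul, Finset.sum_mul, ← Finset.sum_sub_distrib]
  refine (Finset.abs_sum_le_sum_abs _ _).trans (Finset.sum_le_sum fun i _ => ?_)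
  rw [← mul_sub, abs_mul, abs_of_nonneg (hw i)]
  exact mul_le_mul_of_nonneg_left (h i) (hw i)

/-- a bound at the height of the row is a bound at the height of the point -/
private theorem at_ht {F : ℝ → ℝ} {C s0 s t : ℝ} (h : ∀ t, |F t - 2 * Real.log (Real.cosh t)| ≤ C)
    (hs : |s| ≤ s0) : |F (t - s) - 2 * Real.log (Real.cosh t)| ≤ C + 2 * s0 := by
  have h1 := abs_le.1 (h (t - s))
  have h2 := abs_le.1 (log_cosh_lip (t - s) t)
  have h3 : |t - s - t| = |s| := by rw [show t - s - t = -s by ring, abs_neg]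
  rw [h3] at h2
  rw [abs_le]
  constructor <;> linarith [h1.1, h1.2, h2.1, h2.2]

private theorem at_ht' {F : ℝ → ℝ} {C s0 s t : ℝ} (h : ∀ t, |F t + 2 * Real.log (Real.cosh t)| ≤ C)
    (hs : |s| ≤ s0) : |F (t - s) + 2 * Real.log (Real.cosh t)| ≤ C + 2 * s0 := by
  have h1 := abs_le.1 (h (t - s))
  have h2 := abs_le.1 (log_cosh_lip (t - s) t)
  have h3 : |t - s - t| = |s| := by rw [show t - s - t = -s by ring, abs_neg]
  rw [h3] at h2
  rw [abs_le]
  constructor <;> linarith [h1.1, h1.2, h2.1, h2.2]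

/-- **the own cloud against `2 log cosh`**: one constant for all contents, curves and offsets -/
theorem clPX_bd {d : ℝ} (hd : 0 < d) : ∃ C : ℝ, 0 ≤ C ∧ ∀ {ι : Type} [Fintype ι] {w : ι → ℝ}
    {x : ι → ℂ} {lo hi : ℝ} {η η' ρ : ℝ → ℝ}, CurX w x lo hi η η' ρ → (∀ i, 0 ≤ w i) →
    (∀ i, -l + d ≤ lo + (x i).re ∧ hi + (x i).re ≤ l - d) → ∀ s0 : ℝ, 0 ≤ s0 →
    (∀ i, |(x i).im| ≤ s0) → ∀ j t : ℝ, (hi < j * l ∧ j * l < l + lo) ∨
    (l + hi < j * l ∧ j * l < 2 * l + lo) ∨ (2 * l + hi < j * l ∧ j * l < 4 * l + lo) →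
    |clP ρ η j t - (∑ i, w i) * (2 * Real.log (Real.cosh t))| ≤ (∑ i, w i) * (C + 2 * s0) := by
  obtain ⟨C1, hC1, h1⟩ := co1_bd hd
  obtain ⟨C2, hC2, h2⟩ := co2_bd hd
  obtain ⟨C3, hC3, h3⟩ := co3_bd hd
  refine ⟨C1 + C2 + C3, by positivity, ?_⟩
  intro ι _ w x lo hi η η' ρ hC hw hx s0 hs0 hi0 j t hj
  have hh := hC.prf.lohi
  have hs : 0 ≤ ∑ i, w i := Finset.sum_nonneg fun i _ => hw i
  rcases hj with ⟨a1, a2⟩ | ⟨a1, a2⟩ | ⟨a1, a2⟩
  · rw [(clPX_1 hC a1 a2 t).2]
    refine (sum_bd hw fun i => at_ht (fun t => h1 _ t ?_ ?_) (hi0 i)).trans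
      (mul_le_mul_of_nonneg_left (by linarith) hs)
    · linarith [(hx i).1]
    · linarith [(hx i).2]
  · rw [(clPX_2 hC a1 a2 t).2]
    refine (sum_bd hw fun i => at_ht (fun t => h2 _ t ?_ ?_) (hi0 i)).trans
      (mul_le_mul_of_nonneg_left (by linarith) hs)
    · linarith [(hx i).1]
    · linarith [(hx i).2]
  · rw [(clPX_3 hC a1 a2 t).2]
    refine (sum_bd hw fun i => at_ht (fun t => h3 _ t ?_ ?_) (hi0 i)).trans
      (mul_le_mul_of_nonneg_left (by linarith) hs)
    · linarith [(hx i).1]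
    · linarith [(hx i).2]

/-- **the cross cloud against `2 log cosh`** -/
theorem clXX_bd {d : ℝ} (hd : 0 < d) : ∃ C : ℝ, 0 ≤ C ∧ ∀ {ι : Type} [Fintype ι] {w : ι → ℝ}
    {x : ι → ℂ} {lo hi : ℝ} {η η' ρ : ℝ → ℝ}, CurX w x lo hi η η' ρ → (∀ i, 0 ≤ w i) →
    (∀ i, -l + d ≤ lo + (x i).re ∧ hi + (x i).re ≤ l - d) → ∀ s0 : ℝ, 0 ≤ s0 →
    (∀ i, |(x i).im| ≤ s0) → ∀ j t : ℝ, (hi - 3 * l < j * l ∧ j * l < 3 * l + lo) ∨
    (3 * l + hi < j * l ∧ j * l < 4 * l + lo) →
    |clX ρ η j t + (∑ i, w i) * (2 * Real.log (Real.cosh t))| ≤ (∑ i, w i) * (C + 2 * s0) := by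
  obtain ⟨C1, hC1, h1⟩ := cx1_bd hd
  obtain ⟨C2, hC2, h2⟩ := cx2_bd hd
  refine ⟨C1 + C2, by positivity, ?_⟩
  intro ι _ w x lo hi η η' ρ hC hw hx s0 hs0 hi0 j t hj
  have hh := hC.prf.lohi
  have hs : 0 ≤ ∑ i, w i := Finset.sum_nonneg fun i _ => hw i
  rcases hj with ⟨a1, a2⟩ | ⟨a1, a2⟩
  · rw [(clXX_1 hC a1 a2 t).2]
    have := sum_bd (f := fun i => cx1 (j * l + (x i).re) (t - (x i).im))
      (L := -(2 * Real.log (Real.cosh t))) (C := C1 + 2 * s0) hw fun i => by
        rw [sub_neg_eq_add]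
        refine at_ht' (fun t => h1 _ t ?_) (hi0 i)
        rw [abs_le]
        constructor
        · linarith [(hx i).1]
        · linarith [(hx i).2]
    rw [mul_neg, sub_neg_eq_add] at this
    exact this.trans (mul_le_mul_of_nonneg_left (by linarith) hs)
  · rw [(clXX_2 hC a1 a2 t).2]
    have := sum_bd (f := fun i => cx2 (j * l + (x i).re) (t - (x i).im))
      (L := -(2 * Real.log (Real.cosh t))) (C := C2 + 2 * s0) hw fun i => by
        rw [sub_neg_eq_add]
        refine at_ht' (fun t => h2 _ t ?_ ?_) (hi0 i)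
        · linarith [(hx i).1]
        · linarith [(hx i).2]
    rw [mul_neg, sub_neg_eq_add] at this
    exact this.trans (mul_le_mul_of_nonneg_left (by linarith) hs)

end size

end PLT

end
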