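import Pool.Agent.PLT.RowE

/-!
# Rows at complex places, explicit further rows

The content `c s : List ℂ` of species `s` is the part of the list `W s` at the places of the direction
(complex, file units), `ex s` the further rows, `k s` rows of the sea are not in `c s`.

* `rwKX c k s u`: the row factor of the content, the `k` missing rows replaced by factors without poles
  and zeros; `rwEX c k ex a u`: times `1 + 1 / |sin (u - x)|` for the further rows `x` of the own species;
* `RwX n0 h0 de miss c k ex W`: `W s` is the content `c s` with the further rows `ex s`;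
* **`up_X`**: rows from above on all upper lines; **`inv_X`**: inverse of the rows on the lines of the
  holes; `rwKX_le_rwEX`; **`rwEX_le`**: `rwEX ≤ C rwKX` away from the further rows;
* `rwK_eqX`, `rwE_eqX`, `RwE.toX`: real places.
-/

set_option autoImplicit false
set_option linter.unusedSectionVars false
set_option linter.unusedVariables false

noncomputable section

open Complex

namespace PLT

open NUP1 NUGC.PLX PBO.PLX

/-- **row factor of a content with `k s` missing rows of species `s`** -/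
def rwKX (c : Bool → List ℂ) (k : Bool → ℕ) (s : Bool) (u : ℂ) : ℝ :=
  rwL c s u * (((Real.cosh u.im ^ 2)⁻¹) ^ k s * (Real.cosh u.im ^ 2) ^ k (!s))

theorem rwKX_nonneg (c : Bool → List ℂ) (k : Bool → ℕ) (s : Bool) (u : ℂ) : 0 ≤ rwKX c k s u :=
  mul_nonneg (rwL_nonneg c s u) (mul_nonneg (pow_nonneg (inv_nonneg.2 (sq_nonneg _)) _)
    (pow_nonneg (sq_nonneg _) _))

/-- the split of the row factor -/
theorem rwL_splitX {c W ex : Bool → List ℂ} (h : ∀ s, (W s).Perm (c s ++ ex s)) (s : Bool) (u : ℂ) :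
    rwL W s u = rwL c s u * (((ex s).map fun x => rwO x u).prod *
      ((ex (!s)).map fun x => rwX x u).prod) := by
  unfold rwL
  rw [((h s).map fun x => rwO x u).prod_eq, ((h (!s)).map fun x => rwX x u).prod_eq,
    List.map_append, List.map_append, List.prod_append, List.prod_append]
  ring

/-- **row factor of the content and of the further rows** -/
def rwEX (c : Bool → List ℂ) (k : Bool → ℕ) (ex : Bool → List ℂ) (a : Bool) (u : ℂ) : ℝ :=
  rwKX c k a u * ((ex a).map fun x => 1 + ‖sin (u - x)‖⁻¹).prod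

theorem rwEX_eq (c : Bool → List ℂ) (k : Bool → ℕ) (ex : Bool → List ℂ) (a : Bool) (u : ℂ) :
    rwEX c k ex a u = rwKX c k a u * plL (ex a) u := rfl

theorem rwEX_nonneg (c : Bool → List ℂ) (k : Bool → ℕ) (ex : Bool → List ℂ) (a : Bool) (u : ℂ) :
    0 ≤ rwEX c k ex a u := mul_nonneg (rwKX_nonneg c k a u) (plL_pos (ex a) u).le

theorem rwKX_le_rwEX (c : Bool → List ℂ) (k : Bool → ℕ) (ex : Bool → List ℂ) (a : Bool) (u : ℂ) :
    rwKX c k a u ≤ rwEX c k ex a u :=
  le_mul_of_one_le_right (rwKX_nonneg c k a u) (one_le_plL (ex a) u)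

/-- **rows: the content `c` and the further rows `ex`**, `k` rows of the sea are not in `c` -/
structure RwX (n0 : ℕ) (h0 de : ℝ) (miss : ℕ) (c : Bool → List ℂ) (k : Bool → ℕ)
    (ex W : Bool → List ℂ) : Prop where
  hh : 0 ≤ h0
  de0 : 0 < de
  de1 : de ≤ 1 / 50
  kn : ∀ s, k s ≤ n0
  perm : ∀ s, (W s).Perm (c s ++ ex s)
  len : ∀ s, (ex s).length + miss = k s
  re : ∀ s, ∀ x ∈ ex s, -((1 - de) * l) ≤ x.re ∧ x.re ≤ (1 / 2 - de) * l
  im : ∀ s, ∀ x ∈ ex s, |x.im| ≤ h0

private theorem pow_join {b B : ℝ} (hbB : b * B = 1) (m p q : ℕ) :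
    b ^ p * B ^ q = b ^ (p + m) * B ^ (q + m) := by
  rw [pow_add, pow_add]
  have : b ^ m * B ^ m = 1 := by rw [← mul_pow, hbB, one_pow]
  calc b ^ p * B ^ q = b ^ p * B ^ q * (b ^ m * B ^ m) := by rw [this, mul_one]
    _ = _ := by ring

section main
variable {n0 : ℕ} {h0 de : ℝ} {miss : ℕ} {c : Bool → List ℂ} {k : Bool → ℕ} {ex W : Bool → List ℂ}
  {u : ℂ}

theorem RwX.exn (h : RwX n0 h0 de miss c k ex W) (s : Bool) : (ex s).length ≤ n0 := by
  have := h.len s
  have := h.kn s
  omega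

/-- **rows from above** on all upper lines -/
theorem up_X (h : RwX n0 h0 de miss c k ex W) (s : Bool) (hu1 : -(5 / 2 * l) ≤ u.re)
    (hu2 : u.re ≤ l) : rwL W s u ≤ cRE n0 h0 de * rwEX c k ex s u := by
  have hl := l_pos
  have hh := h.hh
  have d0 := h.de0
  have d1 := h.de1
  have hc := Real.cosh_pos u.im
  have hdl : 0 < de * l := by positivity
  have hdl1 : de * l ≤ 1 / 50 * l := mul_le_mul_of_nonneg_right d1 hl.le
  have hcD := one_le_cD hh d0 (by linarith : de < 8)
  have hE : 1 ≤ Real.exp (2 * h0) := Real.one_le_exp (by positivity)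
  have q1 : ((ex s).map fun x => rwO x u).prod ≤
      cD h0 de ^ (ex s).length * ((Real.cosh u.im ^ 2)⁻¹) ^ (ex s).length * plL (ex s) u := by
    refine prod_cmp2 (by linarith) (by positivity) (fun x => rwO_nonneg x u)
      (fun x => (plE_pos x u).le) fun x hx => ?_
    obtain ⟨x1, x2⟩ := h.re s x hx
    have y1 : -(l - de * l) ≤ x.re := by linarith
    have y2 : x.re ≤ 1 / 2 * l - de * l := by linarith
    refine rwO_le_e d0 (by linarith) (h.im s x hx) ?_ ?_
    · rw [le_abs]; right; linarith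
    · rw [abs_le]; constructor <;> linarith
  have q2 : ((ex (!s)).map fun x => rwX x u).prod ≤
      Real.exp (2 * h0) ^ (ex (!s)).length * (Real.cosh u.im ^ 2) ^ (ex (!s)).length :=
    prod_cmp (by linarith) (by positivity) (fun x => rwX_nonneg x u) fun x hx =>
      rwX_le_d (h.im (!s) x hx)
  have p2 : 0 ≤ ((ex (!s)).map fun x => rwX x u).prod := List.prod_nonneg fun b hb => by
    obtain ⟨y, -, rfl⟩ := List.mem_map.1 hb
    exact rwX_nonneg y u
  have hbB : (Real.cosh u.im ^ 2)⁻¹ * Real.cosh u.im ^ 2 = 1 := inv_mul_cancel₀ (by positivity)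
  have ej := pow_join hbB miss (ex s).length (ex (!s)).length
  rw [h.len s, h.len (!s)] at ej
  rw [rwL_splitX h.perm s u, rwEX_eq]
  unfold rwKX cRE
  rw [← ej]
  have hC := rwL_nonneg c s u
  have hP := (plL_pos (ex s) u).le
  have l1 := h.exn s
  have l2 := h.exn (!s)
  have e2' : Real.exp (2 * h0) ^ (ex (!s)).length ≤ (2 * Real.exp (2 * h0)) ^ n0 :=
    (pow_le_pow_left₀ (by positivity) (by linarith) _).trans
      (pow_le_pow_right₀ (by linarith) l2)
  calc rwL c s u * (((ex s).map fun x => rwO x u).prod * ((ex (!s)).map fun x => rwX x u).prod) ≤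
      rwL c s u * ((cD h0 de ^ (ex s).length * ((Real.cosh u.im ^ 2)⁻¹) ^ (ex s).length *
        plL (ex s) u) * (Real.exp (2 * h0) ^ (ex (!s)).length *
          (Real.cosh u.im ^ 2) ^ (ex (!s)).length)) :=
        mul_le_mul_of_nonneg_left (mul_le_mul q1 q2 p2 (by positivity)) hC
    _ ≤ rwL c s u * ((cD h0 de ^ n0 * ((Real.cosh u.im ^ 2)⁻¹) ^ (ex s).length * plL (ex s) u) *
        ((2 * Real.exp (2 * h0)) ^ n0 * (Real.cosh u.im ^ 2) ^ (ex (!s)).length)) := by
        have e1 := pow_le_pow_right₀ hcD l1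
        gcongr
    _ = _ := by ring

/-- **the inverse of the rows** on the lines of the holes -/
theorem inv_X (h : RwX n0 h0 de miss c k ex W) (s : Bool) (hu1 : 0 ≤ u.re) (hu2 : u.re ≤ l) :
    (rwL W s u)⁻¹ ≤ cRE n0 h0 de * (rwEX c k ex s u)⁻¹ := by
  have hl := l_pos
  have hh := h.hh
  have d0 := h.de0
  have d1 := h.de1
  have hc := Real.cosh_pos u.im
  have hdl : 0 < de * l := by positivity
  have hdl1 : de * l ≤ 1 / 50 * l := mul_le_mul_of_nonneg_right d1 hl.le
  have hcD := one_le_cD hh d0 (by linarith : de < 8)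
  have hE : 1 ≤ Real.exp (2 * h0) := Real.one_le_exp (by positivity)
  have q1 : ((ex s).map fun x => (rwO x u)⁻¹).prod ≤
      (2 * Real.exp (2 * h0)) ^ (ex s).length * (Real.cosh u.im ^ 2) ^ (ex s).length *
        ((ex s).map fun x => (plE x u)⁻¹).prod :=
    prod_cmp2 (by linarith) (by positivity) (fun x => inv_nonneg.2 (rwO_nonneg x u))
      (fun x => (inv_pos.2 (plE_pos x u)).le) fun x hx => rwO_inv_e (h.im s x hx)
  have q2 : ((ex (!s)).map fun x => (rwX x u)⁻¹).prod ≤
      cD h0 de ^ (ex (!s)).length * ((Real.cosh u.im ^ 2)⁻¹) ^ (ex (!s)).length := by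
    refine prod_cmp (by linarith) (by positivity) (fun x => inv_nonneg.2 (rwX_nonneg x u))
      fun x hx => ?_
    obtain ⟨x1, x2⟩ := h.re (!s) x hx
    have y1 : -(l - de * l) ≤ x.re := by linarith
    have y2 : x.re ≤ 1 / 2 * l - de * l := by linarith
    refine rwX_inv_d d0 (by linarith) (h.im (!s) x hx) ?_ ?_
    · rw [le_abs]; left; linarith
    · rw [abs_le]; constructor <;> linarith
  have p2 : 0 ≤ ((ex (!s)).map fun x => (rwX x u)⁻¹).prod := List.prod_nonneg fun b hb => by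
    obtain ⟨y, -, rfl⟩ := List.mem_map.1 hb
    exact inv_nonneg.2 (rwX_nonneg y u)
  have hbB : Real.cosh u.im ^ 2 * (Real.cosh u.im ^ 2)⁻¹ = 1 := mul_inv_cancel₀ (by positivity)
  have ej := pow_join hbB miss (ex s).length (ex (!s)).length
  rw [h.len s, h.len (!s)] at ej
  rw [rwL_splitX h.perm s u, mul_inv, mul_inv, inv_prod_map, inv_prod_map]
  have eP : ((ex s).map fun x => (plE x u)⁻¹).prod = (plL (ex s) u)⁻¹ := (inv_prod_map _ _).symm
  rw [eP] at q1
  have eK : (rwEX c k ex s u)⁻¹ = (rwL c s u)⁻¹ * ((Real.cosh u.im ^ 2) ^ k s *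
      ((Real.cosh u.im ^ 2)⁻¹) ^ k (!s)) * (plL (ex s) u)⁻¹ := by
    rw [rwEX_eq]
    unfold rwKX
    rw [mul_inv, mul_inv, mul_inv, ← inv_pow, inv_inv, ← inv_pow]
  rw [eK, ← ej]
  unfold cRE
  have hC := inv_nonneg.2 (rwL_nonneg c s u)
  have hP := (inv_pos.2 (plL_pos (ex s) u)).le
  have l1 := h.exn s
  have l2 := h.exn (!s)
  calc (rwL c s u)⁻¹ * (((ex s).map fun x => (rwO x u)⁻¹).prod *
        ((ex (!s)).map fun x => (rwX x u)⁻¹).prod) ≤
      (rwL c s u)⁻¹ * (((2 * Real.exp (2 * h0)) ^ (ex s).length *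
        (Real.cosh u.im ^ 2) ^ (ex s).length * (plL (ex s) u)⁻¹) *
        (cD h0 de ^ (ex (!s)).length * ((Real.cosh u.im ^ 2)⁻¹) ^ (ex (!s)).length)) :=
        mul_le_mul_of_nonneg_left (mul_le_mul q1 q2 p2 (by positivity)) hC
    _ ≤ (rwL c s u)⁻¹ * (((2 * Real.exp (2 * h0)) ^ n0 * (Real.cosh u.im ^ 2) ^ (ex s).length *
        (plL (ex s) u)⁻¹) * (cD h0 de ^ n0 * ((Real.cosh u.im ^ 2)⁻¹) ^ (ex (!s)).length)) := by
        have e1 := pow_le_pow_right₀ hcD l2
        have e2 : (2 * Real.exp (2 * h0)) ^ (ex s).length ≤ (2 * Real.exp (2 * h0)) ^ n0 :=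
          pow_le_pow_right₀ (by linarith) l1
        gcongr
    _ = _ := by ring

/-- **away from the further rows** -/
theorem rwEX_le (h : RwX n0 h0 de miss c k ex W) (s : Bool)
    (hu : (-(5 / 2 * l) ≤ u.re ∧ u.re ≤ -(101 / 100 * l)) ∨ (13 / 25 * l ≤ u.re ∧ u.re ≤ l)) :
    rwEX c k ex s u ≤ (2 * (sd de)⁻¹) ^ n0 * rwKX c k s u := by
  have hl := l_pos
  have hh := h.hh
  have d0 := h.de0
  have d1 := h.de1
  have hs := sd_pos d0 (by linarith)
  have hs1 : 1 ≤ (sd de)⁻¹ := (one_le_inv₀ hs).2 (Real.sin_le_one _)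
  have hdl : 0 < de * l := by positivity
  have hdl1 : de * l ≤ 1 / 50 * l := mul_le_mul_of_nonneg_right d1 hl.le
  have q1 : plL (ex s) u ≤ (2 * (sd de)⁻¹) ^ (ex s).length * 1 ^ (ex s).length := by
    refine prod_cmp (by linarith) zero_le_one (fun x => (plE_pos x u).le) fun x hx => ?_
    obtain ⟨x1, x2⟩ := h.re s x hx
    have y1 : -(l - de * l) ≤ x.re := by linarith
    have y2 : x.re ≤ 1 / 2 * l - de * l := by linarith
    have a1 : de * l ≤ |u.re - x.re| := by
      rcases hu with ⟨u1, u2⟩ | ⟨u1, u2⟩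
      · rw [le_abs]; right; linarith
      · rw [le_abs]; left; linarith
    have a2 : |u.re - x.re| ≤ 8 * l - de * l := by
      rcases hu with ⟨u1, u2⟩ | ⟨u1, u2⟩
      · rw [abs_le]; constructor <;> linarith
      · rw [abs_le]; constructor <;> linarith
    have e1 : (u - x).re = u.re - x.re := sub_re _ _
    have b1 := sin_sd (z := u - x) d0 (by linarith) (by rw [e1]; exact a1) (by rw [e1]; exact a2)
    have hc : 1 ≤ Real.cosh (u - x).im := Real.one_le_cosh _
    have b2 : sd de ≤ ‖sin (u - x)‖ := le_trans (le_mul_of_one_le_right hs.le hc) b1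
    have b3 : ‖sin (u - x)‖⁻¹ ≤ (sd de)⁻¹ := inv_anti₀ hs b2
    unfold plE
    linarith
  rw [one_pow, mul_one] at q1
  rw [rwEX_eq, mul_comm]
  refine mul_le_mul_of_nonneg_right (q1.trans ?_) (rwKX_nonneg c k s u)
  exact pow_le_pow_right₀ (by linarith) (h.exn s)

end main

/-! ### real places -/

theorem rwK_eqX (c : Bool → List ℝ) (k : Bool → ℕ) (s : Bool) (u : ℂ) :
    rwK c k s u = rwKX (fun s => plc (c s)) k s u := rfl

theorem rwE_eqX (c : Bool → List ℝ) (k : Bool → ℕ) (ex : Bool → List ℂ) (s : Bool) (u : ℂ) :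
    rwE c k ex s u = rwEX (fun s => plc (c s)) k ex s u := rfl

theorem RwE.toX {n0 miss : ℕ} {h0 de : ℝ} {c : Bool → List ℝ} {k : Bool → ℕ} {ex W : Bool → List ℂ}
    (h : RwE n0 h0 de miss c k ex W) : RwX n0 h0 de miss (fun s => plc (c s)) k ex W :=
  ⟨h.hh, h.de0, h.de1, h.kn, h.perm, h.len, h.re, h.im⟩

end PLT

end
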