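import Pool.Agent.PLT.CntX
import Pool.Agent.PLT.PriceX
import Pool.Agent.PLT.RowX
import Pool.Agent.PLT.MfoC
import Pool.Agent.PLT.PriceB
import Pool.Agent.PLT.PolA
import Pool.Agent.PLT.ObR

/-!
# Rows and clouds at the offsets of the six kinds, for a content at complex places and its sea

* `SeaOX de s0 lo hi w x`: the sea of the class is that of the weights `w` at the places `x`;
* `rwKX_up`, `rwKX_inv`: rows times cloud, from the identities of the single rows;
* `mf_ofXM`: the same, one constant for any number of places (`card ι * K0 ≤ M`);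
* **`mf_ofX`**: `Mf P C (rwEX c k ex) (Cv.clo (nX c k)) (prX c) (pTX c ex)` for every content `c` with `k`
  missing rows and the further rows `ex`, with one constant.
-/

set_option autoImplicit false

noncomputable section

open Complex

namespace PLT

open NUP1 NUGC.PLX PBO.PLX PHK

private theorem rwKX_eq (c : Bool → List ℂ) (k : Bool → ℕ) (s : Bool) (u : ℂ) : rwKX c k s u =
    rwL c s u * (((Real.cosh u.im ^ 2)⁻¹) ^ k s * (Real.cosh u.im ^ 2) ^ k (!s)) := rfl

private theorem vliX (x t : ℝ) : (vl x t).im = t := by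
  unfold vl
  simp

/-- `2 log cosh t` -/
def lcX (t : ℝ) : ℝ := 2 * Real.log (Real.cosh t)

theorem lcX_shift (t s : ℝ) : |lcX (t - s) - lcX t| ≤ 2 * |s| := by
  have h := log_cosh_lip (t - s) t
  rw [show t - s - t = -s by ring, abs_neg] at h
  unfold lcX
  rw [show 2 * Real.log (Real.cosh (t - s)) - 2 * Real.log (Real.cosh t) =
    2 * (Real.log (Real.cosh (t - s)) - Real.log (Real.cosh t)) by ring, abs_mul, abs_two]
  linarith

/-- **the sea is the sea of the content `w`, `x`** (places in file units) -/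
structure SeaOX {ι : Type*} [Fintype ι] [SeaC] (de s0 lo hi : ℝ) (w : ι → ℝ) (x : ι → ℂ) : Prop where
  cur : CurX w x (lo * NUMF.l) (hi * NUMF.l) Cv.eta (deriv Cv.eta) Cv.P
  nn : ∀ i, 0 ≤ w i
  lo : ∀ i, -((1 - de) * NUMF.l) ≤ (x i).re
  up : ∀ i, (x i).re ≤ (1 / 2 - de) * NUMF.l
  im : ∀ i, |(x i).im| ≤ s0
  lev : ∀ t, ∑ i, w i * Ag (Cv.eta t + (x i).re) (t - (x i).im) = 0

section core

variable {ι : Type*} [Fintype ι] [SeaC] {de s0 lo hi K0 : ℝ} {w : ι → ℝ} {x : ι → ℂ}
  {c : Bool → List ℂ} {k : Bool → ℕ}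

theorem SeaOX.mass (h : SeaOX de s0 lo hi w x) : ∑ i, w i = 1 := by
  rw [← (cur_massX h.cur).2]
  exact Cv.P_mass

/-- the cloud of the sea over the rows of the content -/
theorem clo_coreX (hS : SeaOX de s0 lo hi w x) (hc : ∀ a, CntX K0 w x (c a) (k a)) {co cx : ℂ → ℝ}
    {j t C : ℝ} (e1 : Cv.clP j t = ∑ i, w i * co (x i))
    (e2 : Cv.clX j t = ∑ i, w i * cx (x i))
    (b1 : ∀ i, |co (x i) - lcX t| ≤ C)
    (b2 : ∀ i, |cx (x i) + lcX t| ≤ C) (a : Bool) :
    |Cv.clo (nX c k) a j t - ((((c a).map co).sum + k a * lcX t) +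
      (((c (!a)).map cx).sum + k (!a) * (-lcX t)))| ≤
      2 * (Fintype.card ι * (K0 * C)) := by
  have h1 := (hc a).alg hS.mass (f := co) b1
  have h2 := (hc (!a)).alg hS.mass (f := cx) (L := -lcX t) (C := C)
    (fun i => by rw [sub_neg_eq_add]; exact b2 i)
  have e : Cv.clo (nX c k) a j t - ((((c a).map co).sum + k a * lcX t) +
      (((c (!a)).map cx).sum + k (!a) * (-lcX t))) =
      ((((c a).length : ℝ) + k a) * ∑ i, w i * co (x i) -
        (((c a).map co).sum + k a * lcX t)) +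
      ((((c (!a)).length : ℝ) + k (!a)) * ∑ i, w i * cx (x i) -
        (((c (!a)).map cx).sum + k (!a) * (-lcX t))) := by
    unfold Cv.clo nX
    rw [e1, e2]
    ring
  rw [e]
  exact (abs_add_le _ _).trans (by linarith)

omit [SeaC] [Fintype ι] in
/-- sum over a list of a sum of two functions -/
theorem sum_add_mapX (L : List ℂ) (f g : ℂ → ℝ) :
    (L.map f).sum + (L.map g).sum = (L.map fun x => f x + g x).sum := by
  induction L with
  | nil => simp
  | cons x L ih =>
    rw [List.map_cons, List.map_cons, List.map_cons, List.sum_cons, List.sum_cons, List.sum_cons, ← ih]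
    ring

/-- the exponent: rows and clouds -/
theorem exp_coreX (hS : SeaOX de s0 lo hi w x) (hc : ∀ a, CntX K0 w x (c a) (k a))
    {co cx A B : ℂ → ℝ} {j t C : ℝ} (e1 : Cv.clP j t = ∑ i, w i * co (x i))
    (e2 : Cv.clX j t = ∑ i, w i * cx (x i))
    (b1 : ∀ i, |co (x i) - lcX t| ≤ C)
    (b2 : ∀ i, |cx (x i) + lcX t| ≤ C) (a : Bool)
    (hA : ∀ y ∈ c a, rO (j * NUMF.l + y.re) (t - y.im) + co y = A y)
    (hB : ∀ y ∈ c (!a), rX (j * NUMF.l + y.re) (t - y.im) + cx y = B y) :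
    |(lgX c a j t - k a * (2 * Real.log (Real.cosh t)) + k (!a) * (2 * Real.log (Real.cosh t))) +
      Cv.clo (nX c k) a j t - (((c a).map A).sum + ((c (!a)).map B).sum)| ≤
      2 * (Fintype.card ι * (K0 * C)) := by
  have h := clo_coreX hS hc e1 e2 b1 b2 a
  have s1 : ((c a).map fun y => rO (j * NUMF.l + y.re) (t - y.im)).sum +
      ((c a).map co).sum = ((c a).map A).sum := by
    rw [sum_add_mapX]
    exact congrArg List.sum (List.map_congr_left hA)
  have s2 : ((c (!a)).map fun y => rX (j * NUMF.l + y.re) (t - y.im)).sum +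
      ((c (!a)).map cx).sum = ((c (!a)).map B).sum := by
    rw [sum_add_mapX]
    exact congrArg List.sum (List.map_congr_left hB)
  rw [← s1, ← s2]
  refine le_trans (le_of_eq ?_) h
  congr 1
  unfold lgX lcX
  ring

/-- **rows times cloud from above** -/
theorem rwKX_up (hS : SeaOX de s0 lo hi w x) (hc : ∀ a, CntX K0 w x (c a) (k a))
    {co cx A B : ℂ → ℝ} {j t C : ℝ} (e1 : Cv.clP j t = ∑ i, w i * co (x i))
    (e2 : Cv.clX j t = ∑ i, w i * cx (x i))
    (b1 : ∀ i, |co (x i) - lcX t| ≤ C)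
    (b2 : ∀ i, |cx (x i) + lcX t| ≤ C) (a : Bool)
    (hA : ∀ y ∈ c a, (j * NUMF.l + y.re ≠ NUMF.l ∨ t - y.im ≠ 0) →
      rO (j * NUMF.l + y.re) (t - y.im) + co y = A y)
    (hB : ∀ y ∈ c (!a), rX (j * NUMF.l + y.re) (t - y.im) + cx y = B y) :
    rwKX c k a (vl ((1 - j) * l) t) * Real.exp (Cv.clo (nX c k) a j t) ≤
      Real.exp (2 * (Fintype.card ι * (K0 * C))) *
        Real.exp (((c a).map A).sum + ((c (!a)).map B).sum) := by
  by_cases hz : ∃ y ∈ c a, j * NUMF.l + y.re = NUMF.l ∧ t - y.im = 0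
  · rw [rwKX_eq, rwL_zeroX hz, zero_mul, zero_mul]
    positivity
  · have hA' : ∀ y ∈ c a, rO (j * NUMF.l + y.re) (t - y.im) + co y = A y := fun y hy => by
      refine hA y hy ?_
      by_contra hn
      push Not at hn
      exact hz ⟨y, hy, hn.1, hn.2⟩
    have h := exp_coreX hS hc e1 e2 b1 b2 a hA' hB
    have h2 : rwKX c k a (vl ((1 - j) * l) t) ≤ Real.exp (lgX c a j t -
        k a * (2 * Real.log (Real.cosh t)) + k (!a) * (2 * Real.log (Real.cosh t))) := by
      rw [rwKX_eq, vliX, mis_expX]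
      refine (mul_le_mul_of_nonneg_right (rwL_le_expX c a j t) (Real.exp_pos _).le).trans (le_of_eq ?_)
      rw [← Real.exp_add]
      congr 1
      ring
    refine (mul_le_mul_of_nonneg_right h2 (Real.exp_pos _).le).trans ?_
    rw [← Real.exp_add, ← Real.exp_add]
    refine Real.exp_le_exp.2 ?_
    have := (abs_le.1 h).2
    linarith

/-- **the inverse of rows times cloud from above** -/
theorem rwKX_inv (hS : SeaOX de s0 lo hi w x) (hc : ∀ a, CntX K0 w x (c a) (k a))
    {co cx A B : ℂ → ℝ} {j t C : ℝ} (e1 : Cv.clP j t = ∑ i, w i * co (x i))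
    (e2 : Cv.clX j t = ∑ i, w i * cx (x i))
    (b1 : ∀ i, |co (x i) - lcX t| ≤ C)
    (b2 : ∀ i, |cx (x i) + lcX t| ≤ C) (a : Bool)
    (hA : ∀ y ∈ c a, (j * NUMF.l + y.re ≠ NUMF.l ∨ t - y.im ≠ 0) →
      rO (j * NUMF.l + y.re) (t - y.im) + co y = A y)
    (hB : ∀ y ∈ c (!a), rX (j * NUMF.l + y.re) (t - y.im) + cx y = B y) :
    (rwKX c k a (vl ((1 - j) * l) t))⁻¹ * Real.exp (-Cv.clo (nX c k) a j t) ≤
      Real.exp (2 * (Fintype.card ι * (K0 * C))) *
        Real.exp (-(((c a).map A).sum + ((c (!a)).map B).sum)) := by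
  by_cases hz : ∃ y ∈ c a, j * NUMF.l + y.re = NUMF.l ∧ t - y.im = 0
  · rw [rwKX_eq, rwL_zeroX hz, zero_mul, inv_zero, zero_mul]
    positivity
  · have hA' : ∀ y ∈ c a, rO (j * NUMF.l + y.re) (t - y.im) + co y = A y := fun y hy => by
      refine hA y hy ?_
      by_contra hn
      push Not at hn
      exact hz ⟨y, hy, hn.1, hn.2⟩
    have h := exp_coreX hS hc e1 e2 b1 b2 a hA' hB
    have h2 : (rwKX c k a (vl ((1 - j) * l) t))⁻¹ ≤ Real.exp (-(lgX c a j t -
        k a * (2 * Real.log (Real.cosh t)) + k (!a) * (2 * Real.log (Real.cosh t)))) := by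
      rw [rwKX_eq, vliX, mis_expX, mul_inv, ← Real.exp_neg]
      refine (mul_le_mul_of_nonneg_right (rwL_inv_expX c a j t) (Real.exp_pos _).le).trans (le_of_eq ?_)
      rw [← Real.exp_add]
      congr 1
      ring
    refine (mul_le_mul_of_nonneg_right h2 (Real.exp_pos _).le).trans ?_
    rw [← Real.exp_add, ← Real.exp_add]
    refine Real.exp_le_exp.2 ?_
    have := (abs_le.1 h).1
    linarith

end core

/-! ### the pole factors on the line of `T` -/

theorem plE_TX {de : ℝ} {x : ℂ} (h0 : 0 ≤ de) (h1 : -((1 - de) * l) ≤ x.re)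
    (h2 : x.re ≤ (1 / 2 - de) * l) (t : ℝ) :
    1 + ‖sin (vl ((1 - 3 / 2) * l) t - x)‖⁻¹ ≤ 100 * Real.exp (Ag (l / 2 - x.re) (t - x.im)) := by
  have hl := l_pos
  have hdl : 0 ≤ de * l := by positivity
  have h3 := pole_le (V := l / 2 - x.re) (t := -(t - x.im)) (by linarith) (by
    change l / 2 - x.re ≤ 3 / 2 * l
    linarith)
  rw [Ag_neg_t] at h3
  have e : vl ((1 - 3 / 2) * l) t - x =
      -(((NUMF.l - (l / 2 - x.re) : ℝ) : ℂ) + ((-(t - x.im) : ℝ) : ℂ) * I) := by
    unfold vl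
    apply Complex.ext
    · simp
      change (1 - 3 / 2) * l - x.re = _
      rw [show (NUMF.l : ℝ) = l from rfl]
      ring
    · simp
  rw [e, sin_neg, norm_neg]
  exact h3

theorem plL_TX {de : ℝ} (h0 : 0 ≤ de) {L : List ℂ}
    (h : ∀ x ∈ L, -((1 - de) * l) ≤ x.re ∧ x.re ≤ (1 / 2 - de) * l) (t : ℝ) :
    (L.map fun x => 1 + ‖sin (vl ((1 - 3 / 2) * l) t - x)‖⁻¹).prod ≤
      100 ^ L.length * Real.exp (SAe L t) := by
  induction L with
  | nil => simp [SAe]
  | cons x L ih =>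
    have i1 := ih fun y hy => h y (List.mem_cons_of_mem _ hy)
    obtain ⟨x1, x2⟩ := h x List.mem_cons_self
    have i2 := plE_TX h0 x1 x2 t
    have e : SAe (x :: L) t = Ag (l / 2 - x.re) (t - x.im) + SAe L t := by
      unfold SAe
      rw [List.map_cons, List.sum_cons]
    rw [List.map_cons, List.prod_cons, List.length_cons, pow_succ, e, Real.exp_add]
    have p0 : 0 ≤ (L.map fun x => 1 + ‖sin (vl ((1 - 3 / 2) * l) t - x)‖⁻¹).prod :=
      List.prod_nonneg fun b hb => by
        obtain ⟨y, -, rfl⟩ := List.mem_map.1 hb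
        positivity
    calc _ ≤ (100 * Real.exp (Ag (l / 2 - x.re) (t - x.im))) * (100 ^ L.length *
          Real.exp (SAe L t)) := mul_le_mul i2 i1 p0 (by positivity)
      _ = _ := by ring

/-! ### the theorem -/

private theorem sum_zero (L : List ℂ) : (L.map fun _ => (0 : ℝ)).sum = 0 := by
  induction L with
  | nil => simp
  | cons x L ih => rw [List.map_cons, List.sum_cons, ih, zero_add]

private theorem sum_smul (L : List ℂ) (a : ℝ) (f : ℂ → ℝ) :
    (L.map fun x => a * f x).sum = a * (L.map f).sum := by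
  induction L with
  | nil => simp
  | cons x L ih => rw [List.map_cons, List.sum_cons, ih, List.map_cons, List.sum_cons]; ring

private theorem inv_rwE_le (c : Bool → List ℂ) (k : Bool → ℕ) (ex : Bool → List ℂ) (a : Bool)
    (u : ℂ) : (rwEX c k ex a u)⁻¹ ≤ (rwKX c k a u)⁻¹ := by
  rcases (rwKX_nonneg c k a u).eq_or_lt with h | h
  · have : rwEX c k ex a u = 0 := by
      unfold rwEX
      rw [← h, zero_mul]
    rw [this, ← h]
  · exact inv_anti₀ h (rwKX_le_rwEX c k ex a u)

private theorem vlre (x t : ℝ) : (vl x t).re = x := by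
  unfold vl
  simp

/-- **rows and clouds at the offsets of the six kinds**, one constant for all contents with
`card ι * K0 ≤ M` (any number of places, exact contents: `K0 = 0`) -/
theorem mf_ofXM.{u} {P : Par6} (hP : LnT P) {de s0 lo hi : ℝ} (M h0 : ℝ)
    (hde : 0 < de) (hde1 : de ≤ 1 / 50) (hlo : -(1 / 100) ≤ lo) (hj2 : P.j2 < 1 + lo)
    (hj : hi < P.j1) (hL : 2 + hi < P.jL) (n0 : ℕ) :
    ∃ C : ℝ, 0 < C ∧ ∀ (ι : Type u) [Fintype ι] (K0 : ℝ), Fintype.card ι * K0 ≤ M → ∀ [SeaC],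
      ∀ {w : ι → ℝ} {x : ι → ℂ}, SeaOX de s0 lo hi w x →
      ∀ {c : Bool → List ℂ} {k : Bool → ℕ} {ex W : Bool → List ℂ} {miss : ℕ},
      (∀ a, CntX K0 w x (c a) (k a)) → RwX n0 h0 de miss c k ex W →
      Mf P C (rwEX c k ex) (Cv.clo (nX c k)) (prX c) (pTX c ex) := by
  have hl := NUMF.l_pos
  have hdl : 0 < de * NUMF.l := by positivity
  obtain ⟨C1, hC1, B1⟩ := co1_bd hdl
  obtain ⟨C2, hC2, B2⟩ := co2_bd hdl
  obtain ⟨C3, hC3, B3⟩ := co3_bd hdl
  obtain ⟨C4, hC4, B4⟩ := cx1_bd hdl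
  obtain ⟨C5, hC5, B5⟩ := cx2_bd hdl
  obtain ⟨K, hK⟩ : ∃ K, K = C1 + C2 + C3 + C4 + C5 + 2 * s0 := ⟨_, rfl⟩
  obtain ⟨EM, hEM⟩ : ∃ EM, EM = Real.exp (2 * (M * K)) := ⟨_, rfl⟩
  obtain ⟨G, hG⟩ : ∃ G, G = (2 * (sd de)⁻¹) ^ n0 := ⟨_, rfl⟩
  have hEM' : 0 < EM := by rw [hEM]; exact Real.exp_pos _
  have hsd := sd_pos hde (by linarith)
  have hG1 : 0 < G := by rw [hG]; positivity
  have p1 := hP.j1
  have p2 := hP.j1e
  have p3 := hP.ej2
  have p4 := hP.j2
  have p5 := hP.L2
  have p6 := hP.Lj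
  have p7 := hP.e13
  have p8 := hP.e48
  refine ⟨G * EM + 100 ^ n0 * EM + EM, by positivity, ?_⟩
  intro ι _ K0 hKM _ w x hS c k ex W miss hc hR
  obtain ⟨E0, hE0⟩ : ∃ E0, E0 = Real.exp (2 * (Fintype.card ι * (K0 * K))) := ⟨_, rfl⟩
  have hE0' : 0 < E0 := by rw [hE0]; exact Real.exp_pos _
  have hs00 : 0 ≤ s0 := by
    have hw := hS.mass
    rcases isEmpty_or_nonempty ι with hι | ⟨⟨i⟩⟩
    · rw [Finset.univ_eq_empty, Finset.sum_empty] at hw
      exact absurd hw (by norm_num)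
    · exact (abs_nonneg _).trans (hS.im i)
  have hEE : E0 ≤ EM := by
    rw [hE0, hEM]
    refine Real.exp_le_exp.2 ?_
    have hK0 : 0 ≤ K := by rw [hK]; positivity
    have := mul_le_mul_of_nonneg_right hKM hK0
    linarith
  have hlo' := hS.lo
  have hup := hS.up
  have him := hS.im
  have hlh : lo ≤ hi := by
    have := hS.cur.prf.lohi
    nlinarith
  have bc : ∀ (a : Bool), ∀ q ∈ c a, -((1 - de) * NUMF.l) ≤ q.re ∧ q.re ≤ (1 / 2 - de) * NUMF.l := by
    intro a q hq
    obtain ⟨i, rfl⟩ := (hc a).mem q hq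
    exact ⟨hlo' i, hup i⟩
  have g1 : G * E0 ≤ G * EM + 100 ^ n0 * EM + EM := by
    have : 0 ≤ 100 ^ n0 * EM + EM := by positivity
    have := mul_le_mul_of_nonneg_left hEE hG1.le
    linarith
  have g2 : 100 ^ n0 * E0 ≤ G * EM + 100 ^ n0 * EM + EM := by
    have : 0 ≤ G * EM + EM := by positivity
    have : (100 : ℝ) ^ n0 * E0 ≤ 100 ^ n0 * EM := mul_le_mul_of_nonneg_left hEE (by positivity)
    linarith
  have g3 : E0 ≤ G * EM + 100 ^ n0 * EM + EM := by
    have : 0 ≤ G * EM + 100 ^ n0 * EM := by positivity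
    linarith
  -- windows of the potentials
  have shp : ∀ {f C t s : ℝ}, |f - lcX (t - s)| ≤ C → |s| ≤ s0 → |f - lcX t| ≤ C + 2 * s0 := by
    intro f C t s h1 h2
    have h3 := lcX_shift t s
    rw [abs_le] at h1 h3 ⊢
    constructor <;> linarith
  have shm : ∀ {f C t s : ℝ}, |f + lcX (t - s)| ≤ C → |s| ≤ s0 → |f + lcX t| ≤ C + 2 * s0 := by
    intro f C t s h1 h2
    have h3 := lcX_shift t s
    rw [abs_le] at h1 h3 ⊢
    constructor <;> linarith
  have w1 : ∀ j : ℝ, 0 < j → j < 1 → ∀ i, ∀ t : ℝ,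
      |co1 (j * NUMF.l + (x i).re) (t - (x i).im) - lcX t| ≤ K := fun j j1 j2 i t => by
    have q1 := hlo' i
    have q2 := hup i
    have := shp (B1 (j * NUMF.l + (x i).re) (t - (x i).im) (by nlinarith) (by nlinarith)) (him i)
    linarith
  have wx : ∀ j : ℝ, 0 < j → j < 3 → ∀ i, ∀ t : ℝ,
      |cx1 (j * NUMF.l + (x i).re) (t - (x i).im) + lcX t| ≤ K := fun j j1 j2 i t => by
    have q1 := hlo' i
    have q2 := hup i
    have := shm (B4 (j * NUMF.l + (x i).re) (t - (x i).im) (by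
      rw [abs_le]
      constructor <;> nlinarith)) (him i)
    linarith
  have w3 : ∀ j : ℝ, 2 ≤ j → j < 7 / 2 → ∀ i, ∀ t : ℝ,
      |co3 (j * NUMF.l + (x i).re) (t - (x i).im) - lcX t| ≤ K := fun j j1 j2 i t => by
    have q1 := hlo' i
    have q2 := hup i
    have := shp (B3 (j * NUMF.l + (x i).re) (t - (x i).im) (by nlinarith) (by nlinarith)) (him i)
    linarith
  -- single rows
  have o1 : ∀ j : ℝ, 0 < j → j < 1 → ∀ (a : Bool) (t : ℝ), ∀ y ∈ c a,
      (j * NUMF.l + y.re ≠ NUMF.l ∨ t - y.im ≠ 0) →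
      rO (j * NUMF.l + y.re) (t - y.im) + co1 (j * NUMF.l + y.re) (t - y.im) =
        Ag (j * NUMF.l + y.re) (t - y.im) := by
    intro j j1 j2 a t y hy hne
    obtain ⟨y1, y2⟩ := bc a y hy
    exact own1 (by nlinarith) (by nlinarith) hne
  have x1 : ∀ j : ℝ, 0 < j → j < 3 → ∀ (a : Bool) (t : ℝ), ∀ y ∈ c a,
      rX (j * NUMF.l + y.re) (t - y.im) + cx1 (j * NUMF.l + y.re) (t - y.im) = 0 := by
    intro j j1 j2 a t y hy
    obtain ⟨y1, y2⟩ := bc a y hy
    exact crs1 (by rw [abs_lt]; constructor <;> nlinarith) _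
  have o3 : ∀ j : ℝ, 2 ≤ j → j < 7 / 2 → ∀ (a : Bool) (t : ℝ), ∀ y ∈ c a,
      rO (j * NUMF.l + y.re) (t - y.im) + co3 (j * NUMF.l + y.re) (t - y.im) = 0 := by
    intro j j1 j2 a t y hy
    obtain ⟨y1, y2⟩ := bc a y hy
    exact own3 (by nlinarith) (by nlinarith) _
  have W1 : ∀ j : ℝ, hi < j → j < 1 + lo → ∀ t, Cv.clP j t = ∑ i, w i *
      co1 (j * NUMF.l + (x i).re) (t - (x i).im) := fun j j1 j2 t =>
    (clPX_1 hS.cur (j := j) (by nlinarith) (by nlinarith) t).2
  have W2 : ∀ j : ℝ, 1 + hi < j → j < 2 + lo → ∀ t, Cv.clP j t = ∑ i, w i *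
      co2 (j * NUMF.l + (x i).re) (t - (x i).im) := fun j j1 j2 t =>
    (clPX_2 hS.cur (j := j) (by nlinarith) (by nlinarith) t).2
  have W3 : ∀ j : ℝ, 2 + hi < j → j < 4 + lo → ∀ t, Cv.clP j t = ∑ i, w i *
      co3 (j * NUMF.l + (x i).re) (t - (x i).im) := fun j j1 j2 t =>
    (clPX_3 hS.cur (j := j) (by nlinarith) (by nlinarith) t).2
  have X1 : ∀ j : ℝ, hi - 3 < j → j < 3 + lo → ∀ t, Cv.clX j t = ∑ i, w i *
      cx1 (j * NUMF.l + (x i).re) (t - (x i).im) := fun j j1 j2 t =>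
    (clXX_1 hS.cur (j := j) (by nlinarith) (by nlinarith) t).2
  have X2 : ∀ j : ℝ, 3 + hi < j → j < 4 + lo → ∀ t, Cv.clX j t = ∑ i, w i *
      cx2 (j * NUMF.l + (x i).re) (t - (x i).im) := fun j j1 j2 t =>
    (clXX_2 hS.cur (j := j) (by nlinarith) (by nlinarith) t).2
  constructor
  · -- sat
    intro a t
    have h := rwKX_up hS hc (co := fun y => co1 (P.e * NUMF.l + y.re) (t - y.im))
      (cx := fun y => cx1 (P.e * NUMF.l + y.re) (t - y.im))
      (A := fun y => Ag (P.e * NUMF.l + y.re) (t - y.im)) (B := fun _ => 0) (j := P.e) (t := t)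
      (C := K) (W1 _ (by linarith) (by linarith) t) (X1 _ (by linarith) (by linarith) t)
      (fun i => w1 _ (by linarith) (by linarith) i t)
      (fun i => wx _ (by linarith) (by linarith) i t) a
      (o1 _ (by linarith) (by linarith) a t) (x1 _ (by linarith) (by linarith) (!a) t)
    rw [sum_zero, add_zero, ← hE0] at h
    have h2 := rwEX_le hR a (u := vl ((1 - P.e) * l) t) (Or.inr (by
      rw [vlre]
      constructor <;> nlinarith [l_pos]))
    rw [← hG] at h2
    calc rwEX c k ex a (vl ((1 - P.e) * l) t) * Real.exp (Cv.clo (nX c k) a P.e t) ≤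
        (G * rwKX c k a (vl ((1 - P.e) * l) t)) * Real.exp (Cv.clo (nX c k) a P.e t) :=
          mul_le_mul_of_nonneg_right h2 (Real.exp_pos _).le
      _ = G * (rwKX c k a (vl ((1 - P.e) * l) t) * Real.exp (Cv.clo (nX c k) a P.e t)) := by ring
      _ ≤ G * (E0 * Real.exp (prX c a P.e t)) := mul_le_mul_of_nonneg_left h hG1.le
      _ = G * E0 * Real.exp (prX c a P.e t) := by ring
      _ ≤ _ := mul_le_mul_of_nonneg_right g1 (Real.exp_pos _).le
  · -- hol
    intro j hjm a t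
    have hj12 : hi < j ∧ j < 1 + lo ∧ 0 < j ∧ j < 1 := by
      unfold loL at hjm
      simp only [List.mem_cons, List.not_mem_nil, or_false] at hjm
      rcases hjm with rfl | rfl | rfl <;> refine ⟨?_, ?_, ?_, ?_⟩ <;> linarith
    obtain ⟨k1, k2, k3, k4⟩ := hj12
    have h := rwKX_inv hS hc (co := fun y => co1 (j * NUMF.l + y.re) (t - y.im))
      (cx := fun y => cx1 (j * NUMF.l + y.re) (t - y.im))
      (A := fun y => Ag (j * NUMF.l + y.re) (t - y.im)) (B := fun _ => 0) (j := j) (t := t) (C := K)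
      (W1 _ k1 k2 t) (X1 _ (by linarith) (by linarith) t)
      (fun i => w1 _ k3 k4 i t) (fun i => wx _ k3 (by linarith) i t) a
      (o1 _ k3 k4 a t) (x1 _ k3 (by linarith) (!a) t)
    rw [sum_zero, add_zero, ← hE0] at h
    refine (mul_le_mul_of_nonneg_right (inv_rwE_le c k ex a _) (Real.exp_pos _).le).trans ?_
    exact h.trans (mul_le_mul_of_nonneg_right g3 (Real.exp_pos _).le)
  · -- ntr
    intro j hjm a t
    have hj12 : 2 + hi < j ∧ j < 3 + lo ∧ 201 / 100 ≤ j ∧ j < 3 := by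
      simp only [List.mem_cons, List.not_mem_nil, or_false] at hjm
      rcases hjm with rfl | rfl | rfl <;> refine ⟨?_, ?_, ?_, ?_⟩ <;> linarith
    obtain ⟨k1, k2, k3, k4⟩ := hj12
    have h := rwKX_up hS hc (co := fun y => co3 (j * NUMF.l + y.re) (t - y.im))
      (cx := fun y => cx1 (j * NUMF.l + y.re) (t - y.im))
      (A := fun _ => 0) (B := fun _ => 0) (j := j) (t := t) (C := K)
      (W3 _ k1 (by linarith) t) (X1 _ (by linarith) k2 t)
      (fun i => w3 _ (by linarith) (by linarith) i t)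
      (fun i => wx _ (by linarith) (by linarith) i t) a
      (fun y hy _ => o3 _ (by linarith) (by linarith) a t y hy)
      (x1 _ (by linarith) (by linarith) (!a) t)
    rw [sum_zero, sum_zero, add_zero, ← hE0, Real.exp_zero, mul_one] at h
    have h2 := rwEX_le hR a (u := vl ((1 - j) * l) t) (Or.inl (by
      rw [vlre]
      constructor <;> nlinarith [l_pos]))
    rw [← hG] at h2
    calc rwEX c k ex a (vl ((1 - j) * l) t) * Real.exp (Cv.clo (nX c k) a j t) ≤
        (G * rwKX c k a (vl ((1 - j) * l) t)) * Real.exp (Cv.clo (nX c k) a j t) :=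
          mul_le_mul_of_nonneg_right h2 (Real.exp_pos _).le
      _ = G * (rwKX c k a (vl ((1 - j) * l) t) * Real.exp (Cv.clo (nX c k) a j t)) := by ring
      _ ≤ G * E0 := mul_le_mul_of_nonneg_left h hG1.le
      _ ≤ _ := g1
  · -- top
    intro a t
    have h := rwKX_up hS hc (co := fun y => co2 (3 / 2 * NUMF.l + y.re) (t - y.im))
      (cx := fun y => cx1 (3 / 2 * NUMF.l + y.re) (t - y.im))
      (A := fun y => Ag (l / 2 - y.re) (t - y.im)) (B := fun _ => 0) (j := 3 / 2) (t := t) (C := K)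
      (W2 _ (by linarith) (by linarith) t) (X1 _ (by linarith) (by linarith) t)
      (fun i => by
        have q1 := hlo' i
        have q2 := hup i
        have := shp (B2 (3 / 2 * NUMF.l + (x i).re) (t - (x i).im) (by nlinarith) (by nlinarith))
          (him i)
        linarith)
      (fun i => wx _ (by linarith) (by linarith) i t) a
      (fun y hy hne => by
        obtain ⟨y1, y2⟩ := bc a y hy
        rw [own2 (by nlinarith) (by nlinarith) hne]
        congr 1
        rw [show (l : ℝ) = NUMF.l from rfl]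
        ring)
      (x1 _ (by linarith) (by linarith) (!a) t)
    rw [sum_zero, add_zero, ← hE0] at h
    have h2 := plL_TX hde.le (hR.re a) t
    have hlen : (ex a).length ≤ n0 := by
      have := hR.len a
      have := hR.kn a
      omega
    have h3 : (100 : ℝ) ^ (ex a).length ≤ 100 ^ n0 := pow_le_pow_right₀ (by norm_num) hlen
    have eT : pTX c ex a t = ((c a).map fun y => Ag (l / 2 - y.re) (t - y.im)).sum +
      SAe (ex a) t := rfl
    rw [eT, Real.exp_add]
    have hKn := rwKX_nonneg c k a (vl ((1 - 3 / 2) * l) t)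
    calc rwEX c k ex a (vl ((1 - 3 / 2) * l) t) * Real.exp (Cv.clo (nX c k) a (3 / 2) t) =
        (rwKX c k a (vl ((1 - 3 / 2) * l) t) * Real.exp (Cv.clo (nX c k) a (3 / 2) t)) *
          ((ex a).map fun x => 1 + ‖sin (vl ((1 - 3 / 2) * l) t - x)‖⁻¹).prod := by
          unfold rwEX
          ring
      _ ≤ (E0 * Real.exp (((c a).map fun y => Ag (l / 2 - y.re) (t - y.im)).sum)) *
          (100 ^ n0 * Real.exp (SAe (ex a) t)) := by
          refine mul_le_mul h (h2.trans (mul_le_mul_of_nonneg_right h3 (Real.exp_pos _).le)) ?_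
            (by positivity)
          exact List.prod_nonneg fun b hb => by
            obtain ⟨y, -, rfl⟩ := List.mem_map.1 hb
            positivity
      _ = 100 ^ n0 * E0 * (Real.exp (((c a).map fun y => Ag (l / 2 - y.re) (t - y.im)).sum) *
          Real.exp (SAe (ex a) t)) := by ring
      _ ≤ _ := mul_le_mul_of_nonneg_right g2 (by positivity)
  · -- high
    intro a t
    have h := rwKX_up hS hc (co := fun y => co3 ((3 + P.e) * NUMF.l + y.re) (t - y.im))
      (cx := fun y => cx2 ((3 + P.e) * NUMF.l + y.re) (t - y.im))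
      (A := fun _ => 0) (B := fun y => -2 * Ag (P.e * NUMF.l + y.re) (t - y.im)) (j := 3 + P.e)
      (t := t) (C := K) (W3 _ (by linarith) (by linarith) t) (X2 _ (by linarith) (by linarith) t)
      (fun i => w3 _ (by linarith) (by linarith) i t)
      (fun i => by
        have q1 := hlo' i
        have q2 := hup i
        have := shm (B5 ((3 + P.e) * NUMF.l + (x i).re) (t - (x i).im) (by nlinarith) (by nlinarith))
          (him i)
        linarith) a
      (fun y hy _ => o3 _ (by linarith) (by linarith) a t y hy)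
      (fun y hy => by
        obtain ⟨y1, y2⟩ := bc (!a) y hy
        rw [crs2 (by nlinarith) (by nlinarith) (Or.inl (by
          intro h
          nlinarith))]
        rw [show (3 + P.e) * NUMF.l + y.re - 3 * NUMF.l = P.e * NUMF.l + y.re by ring])
    rw [sum_zero, zero_add, ← hE0, sum_smul] at h
    have h2 := rwEX_le hR a (u := vl ((1 - (3 + P.e)) * l) t) (Or.inl (by
      rw [vlre]
      constructor <;> nlinarith [l_pos]))
    rw [← hG] at h2
    have e9 : -2 * ((c (!a)).map fun y => Ag (P.e * NUMF.l + y.re) (t - y.im)).sum =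
        -(2 * prX c (!a) P.e t) := by
      unfold prX
      ring
    rw [e9] at h
    calc rwEX c k ex a (vl ((1 - (3 + P.e)) * l) t) * Real.exp (Cv.clo (nX c k) a (3 + P.e) t) ≤
        (G * rwKX c k a (vl ((1 - (3 + P.e)) * l) t)) * Real.exp (Cv.clo (nX c k) a (3 + P.e) t) :=
          mul_le_mul_of_nonneg_right h2 (Real.exp_pos _).le
      _ = G * (rwKX c k a (vl ((1 - (3 + P.e)) * l) t) * Real.exp (Cv.clo (nX c k) a (3 + P.e) t)) := by
          ring
      _ ≤ G * (E0 * Real.exp (-(2 * prX c (!a) P.e t))) := mul_le_mul_of_nonneg_left h hG1.le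
      _ = G * E0 * Real.exp (-(2 * prX c (!a) P.e t)) := by ring
      _ ≤ _ := mul_le_mul_of_nonneg_right g1 (Real.exp_pos _).le

/-- **rows and clouds at the offsets of the six kinds**, one constant, the index type fixed -/
theorem mf_ofX (ι : Type*) [Fintype ι] {P : Par6} (hP : LnT P) {de s0 lo hi : ℝ} (K0 h0 : ℝ)
    (hde : 0 < de) (hde1 : de ≤ 1 / 50) (hlo : -(1 / 100) ≤ lo) (hj2 : P.j2 < 1 + lo)
    (hj : hi < P.j1) (hL : 2 + hi < P.jL) (n0 : ℕ) :
    ∃ C : ℝ, 0 < C ∧ ∀ [SeaC], ∀ {w : ι → ℝ} {x : ι → ℂ}, SeaOX de s0 lo hi w x →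
      ∀ {c : Bool → List ℂ} {k : Bool → ℕ} {ex W : Bool → List ℂ} {miss : ℕ},
      (∀ a, CntX K0 w x (c a) (k a)) → RwX n0 h0 de miss c k ex W →
      Mf P C (rwEX c k ex) (Cv.clo (nX c k)) (prX c) (pTX c ex) := by
  obtain ⟨C, hC, H⟩ := mf_ofXM (s0 := s0) hP (Fintype.card ι * K0) h0 hde hde1 hlo hj2 hj hL n0
  exact ⟨C, hC, H ι K0 le_rfl⟩

end PLT

end
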