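import Pool.Agent.PLT.RateK
import Pool.Agent.PLT.AgL
import Pool.Agent.PLT.MfX

/-!
# The rate of the price of a hole for a content at complex places

A row at `x : ℂ` is seen at the offset `V = j l + re x` and at the height `t - im x`.

* `LvX de s0 hi w x v`: weights, places, the level curve `v`;
* **`sumX_ge`**: the weighted sum of the level functions at the heights `u - ρ im x`;
* **`rateX`**: the price of a list of rows in the proportions `w` at all offsets `j1 ≤ j < 1`, at the heights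
  `ρ (t - im x)`, `ρ0 ≤ ρ ≤ 1`; one constant for all contents; `rateX_one` (`ρ = 1`), **`rateX_b`**
  (`ρ = 3 β / 4`);
* `prU_ofX`: offsets `j` with `0 ≤ j l + re x ≤ 3 l`.
-/

set_option autoImplicit false

noncomputable section

open Set

namespace PLT

open NUMF

variable {ι : Type*} [Fintype ι]

/-- **the level data of a content at complex places** -/
structure LvX (de s0 hi : ℝ) (w : ι → ℝ) (x : ι → ℂ) (v : ℝ → ℝ) : Prop where
  nn : ∀ i, 0 ≤ w i
  mass : ∑ i, w i = 1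
  im : ∀ i, |(x i).im| ≤ s0
  vw : ∀ i t, |v t + (x i).re| ≤ (1 - de) * l
  hi : ∀ t, v t ≤ hi * l
  up : ∀ i, (x i).re ≤ 1 / 2 * l
  sp : ∀ i i', (x i).re - (x i').re ≤ (1 + 1 / 1000) * l
  hf : ∑ i, w i ≤ 2 * ∑ i, if -(1 / 4) * l ≤ (x i).re then w i else 0
  lev : ∀ t, 0 ≤ ∑ i, w i * Ag (v t + (x i).re) (t - (x i).im)

/-! ### heights -/

private theorem ex43 {s : ℝ} (hs : s ≤ 1 / 10) : Real.exp (8 / 3 * s) ≤ 4 / 3 := by
  have h1 : Real.exp (8 / 3 * s) ≤ Real.exp (4 / 15) := Real.exp_le_exp.2 (by linarith)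
  refine h1.trans ?_
  have h2 := Real.exp_one_lt_d9
  have h3 : Real.exp (4 / 15) ^ 15 = Real.exp 1 ^ 4 := by
    rw [← Real.exp_nat_mul, ← Real.exp_nat_mul]
    congr 1
    norm_num
  by_contra hc
  push Not at hc
  have h4 : (4 / 3 : ℝ) ^ 15 < Real.exp (4 / 15) ^ 15 :=
    pow_lt_pow_left₀ hc (by norm_num) (by norm_num)
  rw [h3] at h4
  have h5 : Real.exp 1 ^ 4 ≤ (2.7182818286 : ℝ) ^ 4 :=
    pow_le_pow_left₀ (Real.exp_pos _).le h2.le 4
  norm_num at h4 h5
  linarith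

private theorem ex34 {s : ℝ} (hs : s ≤ 1 / 10) : 3 / 4 ≤ Real.exp (-(8 / 3 * s)) := by
  rw [Real.exp_neg]
  have h := ex43 hs
  have h0 := Real.exp_pos (8 / 3 * s)
  rw [le_inv_comm₀ (by norm_num) h0]
  exact h.trans (by norm_num)

private theorem sh_up {s0 u u' : ℝ} (hs : s0 ≤ 1 / 10) (h : |u' - u| ≤ s0) :
    Real.exp (-(8 / 3 * |u'|)) ≤ 4 / 3 * Real.exp (-(8 / 3 * |u|)) := by
  have h1 := abs_sub_abs_le_abs_sub u u'
  rw [abs_sub_comm] at h1
  have h2 : Real.exp (-(8 / 3 * |u'|)) ≤ Real.exp (8 / 3 * s0) * Real.exp (-(8 / 3 * |u|)) := by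
    rw [← Real.exp_add]
    refine Real.exp_le_exp.2 ?_
    linarith
  exact h2.trans (mul_le_mul_of_nonneg_right (ex43 hs) (Real.exp_pos _).le)

private theorem sh_lo {s0 u u' : ℝ} (hs : s0 ≤ 1 / 10) (h : |u' - u| ≤ s0) :
    3 / 4 * Real.exp (-(8 / 3 * |u|)) ≤ Real.exp (-(8 / 3 * |u'|)) := by
  have h1 := abs_sub_abs_le_abs_sub u' u
  have h2 : Real.exp (-(8 / 3 * s0)) * Real.exp (-(8 / 3 * |u|)) ≤ Real.exp (-(8 / 3 * |u'|)) := by
    rw [← Real.exp_add]
    refine Real.exp_le_exp.2 ?_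
    linarith
  exact (mul_le_mul_of_nonneg_right (ex34 hs) (Real.exp_pos _).le).trans h2

/-- the height `u - ρ s` against `u` -/
private theorem ht1 {ρ s s0 u : ℝ} (hρ : 0 ≤ ρ) (hρ1 : ρ ≤ 1) (hs : |s| ≤ s0) :
    |u - ρ * s - u| ≤ s0 := by
  rw [show u - ρ * s - u = -(ρ * s) by ring, abs_neg, abs_mul, abs_of_nonneg hρ]
  have := abs_nonneg s
  nlinarith

private theorem e_le_ch (t : ℝ) : Real.exp (-(8 / 3 * |t|)) ≤ 1 / ch t := by
  have := exp_le_ch t
  rwa [show -(8 / 3) * |t| = -(8 / 3 * |t|) by ring] at this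

/-! ### the weighted sum -/

/-- near zero a row is small -/
private theorem Ag_small {V : ℝ} (h0 : V ≤ 0) (h1 : -(1 / 1000 * l) ≤ V) (t : ℝ) :
    -(1 / 10 * l * Real.exp (-(8 / 3 * |t|))) ≤ Ag V t := by
  have hl : 0 < l := l_pos
  have hl4 : l ≤ 2 / 5 := by
    have : l = Real.pi / 8 := rfl
    rw [this]
    linarith [Real.pi_lt_d2]
  have h3 : (4 / 5 : ℝ) ≤ √3 / 2 := by
    have : (1.6 : ℝ) ≤ √3 := Real.le_sqrt_of_sq_le (by norm_num)
    linarith
  have hcc : AgL.cc (4 / 5) 0 := by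
    constructor
    · rw [mul_zero, zero_sub, Real.cos_neg, Real.cos_pi_div_six, abs_of_pos (by positivity)]
      exact h3
    · rw [mul_zero, zero_add, Real.cos_pi_div_six, abs_of_pos (by positivity)]
      exact h3
  have h4 := AgL.Ag_lip_v (c0 := 4 / 5) (v := 0) (v' := V) (by norm_num) hcc (by
    rw [sub_zero, abs_of_nonpos h0]
    linarith) t
  rw [Ag_zero, sub_zero, sub_zero, abs_of_nonpos h0] at h4
  have h5 := (abs_le.1 h4).1
  have hE := Real.exp_pos (-(8 / 3 * |t|))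
  have h6 : 60 / (4 / 5 : ℝ) ^ 2 * -V * Real.exp (-(8 / 3 * |t|)) ≤
      1 / 10 * l * Real.exp (-(8 / 3 * |t|)) := by
    refine mul_le_mul_of_nonneg_right ?_ hE.le
    nlinarith
  linarith

/-- **the weighted sum of the level functions at the heights `u - ρ im x`** -/
theorem sumX_ge {de s0 hi j1 ρ0 : ℝ} (hde : 0 < de) (hs0 : 0 ≤ s0)
    (hs1 : s0 ≤ 1 / 10) (hj : hi < j1) (hρ0 : 0 ≤ ρ0)
    (hsm : 400 / (de * l) ^ 2 * ((1 - ρ0) * s0) ≤ (j1 - hi) * l) {w : ι → ℝ} {x : ι → ℂ}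
    {v : ℝ → ℝ} (h : LvX de s0 hi w x v) {j : ℝ} (h1 : j1 ≤ j) (h2 : j < 1) {ρ : ℝ} (hρ : ρ0 ≤ ρ)
    (hρ1 : ρ ≤ 1) (u : ℝ) :
    min ((j1 - hi) * l / 2) (l / 20) * Real.exp (-(8 / 3 * |u|)) ≤
      ∑ i, w i * Ag (j * l + (x i).re) (u - ρ * (x i).im) := by
  have hl : 0 < l := l_pos
  obtain ⟨E, hE⟩ : ∃ E, E = Real.exp (-(8 / 3 * |u|)) := ⟨_, rfl⟩
  have hE0 : 0 < E := by rw [hE]; exact Real.exp_pos _
  rw [← hE]
  have hρn : 0 ≤ ρ := hρ0.trans hρ
  have hh : ∀ i, |u - ρ * (x i).im - u| ≤ s0 := fun i => ht1 hρn hρ1 (h.im i)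
  have hup : ∀ i, Real.exp (-(8 / 3 * |u - ρ * (x i).im|)) ≤ 4 / 3 * E := fun i => by
    rw [hE]
    exact sh_up hs1 (hh i)
  have hlo : ∀ i, 3 / 4 * E ≤ Real.exp (-(8 / 3 * |u - ρ * (x i).im|)) := fun i => by
    rw [hE]
    exact sh_lo hs1 (hh i)
  by_cases hD : ∀ i, j * l + (x i).re < l
  · -- all rows below `l`
    have hone : ∀ i, w i * (Ag (v u + (x i).re) (u - (x i).im) + (j1 - hi) * l / 2 * E) ≤
        w i * Ag (j * l + (x i).re) (u - ρ * (x i).im) := by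
      intro i
      refine mul_le_mul_of_nonneg_left ?_ (h.nn i)
      obtain ⟨v1, v2⟩ := abs_le.1 (h.vw i u)
      have v3 := h.hi u
      have v4 : j1 * l ≤ j * l := mul_le_mul_of_nonneg_right h1 hl.le
      have v5 : hi * l ≤ j1 * l := mul_le_mul_of_nonneg_right hj.le hl.le
      have hdl : 0 < de * l := by positivity
      have a1 : |v u + (x i).re| < l := by
        rw [abs_lt]
        constructor <;> linarith
      have a2 : |j * l + (x i).re| < l := by
        rw [abs_lt]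
        constructor
        · linarith
        · exact hD i
      have a3 := Ag_slope a1 a2 (by linarith) (u - ρ * (x i).im)
      have a4 : 2 * (j1 - hi) * l * (3 / 4 * E) ≤ 4 / √3 / ch (u - ρ * (x i).im) *
          (j * l + (x i).re - (v u + (x i).re)) := by
        have b1 := e_le_ch (u - ρ * (x i).im)
        have b2 := hlo i
        have hc := ch_pos (u - ρ * (x i).im)
        have b3 : 2 * (1 / ch (u - ρ * (x i).im)) ≤ 4 / √3 / ch (u - ρ * (x i).im) := by
          rw [mul_one_div]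
          refine div_le_div_of_nonneg_right ?_ hc.le
          have h3 : √3 ≤ (2 : ℝ) := (Real.sqrt_le_left (by norm_num)).2 (by norm_num)
          have h0 : (0 : ℝ) < √3 := Real.sqrt_pos.2 (by norm_num)
          rw [le_div_iff₀ h0]
          linarith
        have b4 : 0 ≤ (j1 - hi) * l := mul_nonneg (by linarith) hl.le
        have b5 : (j1 - hi) * l ≤ j * l + (x i).re - (v u + (x i).re) := by linarith
        have b6 : 2 * (3 / 4 * E) ≤ 4 / √3 / ch (u - ρ * (x i).im) := by linarith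
        calc 2 * (j1 - hi) * l * (3 / 4 * E) = 2 * (3 / 4 * E) * ((j1 - hi) * l) := by ring
          _ ≤ _ := mul_le_mul b6 b5 b4 (le_trans (by positivity) b6)
      -- the change of the height at the level point
      have hcc : AgL.cc (de * l) (v u + (x i).re) :=
        AgL.cc_win hdl.le 0 (Or.inl ⟨by push_cast; linarith, by push_cast; linarith⟩)
      have a5 := AgL.Ag_lip_t hdl hcc (s := -((1 - ρ) * (x i).im)) (by
        rw [abs_neg, abs_mul, abs_of_nonneg (by linarith)]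
        have := h.im i
        have := abs_nonneg (x i).im
        nlinarith) (u - (x i).im)
      rw [show u - (x i).im - -((1 - ρ) * (x i).im) = u - ρ * (x i).im by ring, abs_neg, abs_mul,
        abs_of_nonneg (by linarith : 0 ≤ 1 - ρ)] at a5
      have a6 : Real.exp (-(8 / 3 * |u - (x i).im|)) ≤ 4 / 3 * E := by
        rw [hE]
        refine sh_up hs1 ?_
        rw [sub_sub_cancel_left, abs_neg]
        exact h.im i
      have a7 : 300 / (de * l) ^ 2 * ((1 - ρ) * |(x i).im|) * Real.exp (-(8 / 3 * |u - (x i).im|)) ≤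
          (j1 - hi) * l * E := by
        have b1 : (1 - ρ) * |(x i).im| ≤ (1 - ρ0) * s0 :=
          mul_le_mul (by linarith) (h.im i) (abs_nonneg _) (by linarith)
        have b2 : 0 ≤ 300 / (de * l) ^ 2 := by positivity
        have b3 : 300 / (de * l) ^ 2 * ((1 - ρ) * |(x i).im|) ≤ 300 / (de * l) ^ 2 * ((1 - ρ0) * s0) :=
          mul_le_mul_of_nonneg_left b1 b2
        have b4 : 0 ≤ 300 / (de * l) ^ 2 * ((1 - ρ0) * s0) :=
          mul_nonneg b2 (mul_nonneg (by linarith) hs0)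
        have b5 := mul_le_mul b3 a6 (Real.exp_pos _).le b4
        refine b5.trans ?_
        have b6 : 300 / (de * l) ^ 2 * ((1 - ρ0) * s0) * (4 / 3 * E) =
            400 / (de * l) ^ 2 * ((1 - ρ0) * s0) * E := by ring
        rw [b6]
        exact mul_le_mul_of_nonneg_right hsm hE0.le
      have a8 := (abs_le.1 a5).1
      have a9 : 0 ≤ (j1 - hi) * l * E := by
        have : 0 ≤ j1 - hi := by linarith
        positivity
      have e1 : 2 * (j1 - hi) * l * (3 / 4 * E) = 3 / 2 * ((j1 - hi) * l * E) := by ring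
      have e2 : (j1 - hi) * l / 2 * E = 1 / 2 * ((j1 - hi) * l * E) := by ring
      rw [e1] at a4
      rw [e2]
      linarith
    have hsum := Finset.sum_le_sum fun i (_ : i ∈ Finset.univ) => hone i
    have hlev := h.lev u
    have e3 : ∑ i, w i * (Ag (v u + (x i).re) (u - (x i).im) + (j1 - hi) * l / 2 * E) =
        ∑ i, w i * Ag (v u + (x i).re) (u - (x i).im) + (∑ i, w i) * ((j1 - hi) * l / 2 * E) := by
      rw [Finset.sum_mul, ← Finset.sum_add_distrib]
      exact Finset.sum_congr rfl fun i _ => by ring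
    rw [e3, h.mass, one_mul] at hsum
    have h5 : min ((j1 - hi) * l / 2) (l / 20) * E ≤ (j1 - hi) * l / 2 * E :=
      mul_le_mul_of_nonneg_right (min_le_left _ _) hE0.le
    linarith
  · -- a row above `l`
    push Not at hD
    obtain ⟨i0, hi0⟩ := hD
    have hj2 : l / 2 ≤ j * l := by linarith [h.up i0]
    have hone : ∀ i, w i * ((if -(1 / 4) * l ≤ (x i).re then 9 / 32 * l else 0) * E) -
        w i * (if -(1 / 4) * l ≤ (x i).re then 0 else 1) * (2 / 15 * l * E) ≤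
        w i * Ag (j * l + (x i).re) (u - ρ * (x i).im) := by
      intro i
      have hw := h.nn i
      have hu : j * l + (x i).re < 2 * l := by
        have := h.up i
        nlinarith
      split_ifs with hc
      · have a1 : l / 4 ≤ j * l + (x i).re := by linarith
        have a2 := Ag_ge (V := j * l + (x i).re) (by linarith) hu (u - ρ * (x i).im)
        have a3 : 9 / 32 * l * E ≤ 3 / 2 * min (j * l + (x i).re) l / ch (u - ρ * (x i).im) := by
          have b1 := (hlo i).trans (e_le_ch (u - ρ * (x i).im))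
          have b2 : l / 4 ≤ min (j * l + (x i).re) l := le_min a1 (by linarith)
          have b3 : 3 / 2 * (l / 4) * (3 / 4 * E) ≤
              3 / 2 * min (j * l + (x i).re) l * (1 / ch (u - ρ * (x i).im)) :=
            mul_le_mul (by linarith) b1 (by positivity) (by linarith)
          rw [mul_one_div] at b3
          refine le_trans (le_of_eq ?_) b3
          ring
        have a4 := mul_le_mul_of_nonneg_left (a3.trans a2) hw
        rw [mul_zero, zero_mul, sub_zero]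
        exact a4
      · rw [zero_mul, mul_zero, mul_one, zero_sub]
        have a1 : -(1 / 1000 * l) ≤ j * l + (x i).re := by
          have := h.sp i0 i
          linarith
        have a2 : -(2 / 15 * l * E) ≤ Ag (j * l + (x i).re) (u - ρ * (x i).im) := by
          rcases le_total 0 (j * l + (x i).re) with hp | hp
          · have b1 := Ag_nonneg hp hu (u - ρ * (x i).im)
            have : 0 ≤ 2 / 15 * l * E := by positivity
            linarith
          · have b1 := Ag_small hp a1 (u - ρ * (x i).im)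
            have b2 : 1 / 10 * l * Real.exp (-(8 / 3 * |u - ρ * (x i).im|)) ≤
                1 / 10 * l * (4 / 3 * E) := mul_le_mul_of_nonneg_left (hup i) (by positivity)
            have e1 : 1 / 10 * l * (4 / 3 * E) = 2 / 15 * l * E := by ring
            rw [e1] at b2
            linarith
        have a3 := mul_le_mul_of_nonneg_left a2 hw
        rw [mul_neg] at a3
        exact a3
    have hsum := Finset.sum_le_sum fun i (_ : i ∈ Finset.univ) => hone i
    obtain ⟨W, hW⟩ : ∃ W, W = ∑ i, if -(1 / 4) * l ≤ (x i).re then w i else 0 := ⟨_, rfl⟩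
    have hhf := h.hf
    rw [← hW, h.mass] at hhf
    have e1 : ∑ i, (w i * ((if -(1 / 4) * l ≤ (x i).re then 9 / 32 * l else 0) * E) -
        w i * (if -(1 / 4) * l ≤ (x i).re then 0 else 1) * (2 / 15 * l * E)) =
        W * (9 / 32 * l * E) - (1 - W) * (2 / 15 * l * E) := by
      have e2 : (1 : ℝ) - W = ∑ i, w i * (if -(1 / 4) * l ≤ (x i).re then 0 else 1) := by
        have e5 : (1 : ℝ) - W = (∑ i, w i) - W := by rw [h.mass]
        rw [e5, hW, ← Finset.sum_sub_distrib]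
        refine Finset.sum_congr rfl fun i _ => ?_
        split_ifs <;> ring
      rw [e2, hW, Finset.sum_sub_distrib, Finset.sum_mul, Finset.sum_mul]
      congr 1
      refine Finset.sum_congr rfl fun i _ => ?_
      split_ifs <;> ring
    rw [e1] at hsum
    have hlE : 0 < l * E := by positivity
    have h5 : min ((j1 - hi) * l / 2) (l / 20) * E ≤ l / 20 * E :=
      mul_le_mul_of_nonneg_right (min_le_right _ _) hE0.le
    have h6 : l / 20 * E ≤ W * (9 / 32 * l * E) - (1 - W) * (2 / 15 * l * E) := by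
      have e3 : l / 20 * E = 1 / 20 * (l * E) := by ring
      have e4 : W * (9 / 32 * l * E) - (1 - W) * (2 / 15 * l * E) =
          (W * (9 / 32) - (1 - W) * (2 / 15)) * (l * E) := by ring
      rw [e3, e4]
      refine mul_le_mul_of_nonneg_right ?_ hlE.le
      linarith
    linarith

/-! ### contents -/

/-- the price in terms of the numbers of rows, `N` = size of the content -/
private theorem combX {A w : ι → ℝ} {n : ι → ℕ} {N K0 wm D S : ℝ} (hK : 0 ≤ K0) (hwm : 0 < wm)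
    (hw : ∀ i, wm ≤ w i) (hw1 : ∀ i, w i ≤ 1) (hn : ∀ i, |N * w i - n i| ≤ K0)
    (hD : 0 ≤ D) (hA : ∀ i, -D ≤ A i) (hS : S ≤ ∑ i, w i * A i) (hN : 2 * (K0 / wm) ≤ N)
    (hS0 : 0 ≤ S) : N / 2 * S - Fintype.card ι * ((K0 / wm + K0) * D) ≤ ∑ i, (n i : ℝ) * A i := by
  have hE : 0 ≤ K0 / wm := by positivity
  have h1 : ∀ i, (N - K0 / wm) * (w i * A i) - (K0 / wm + K0) * D ≤ (n i : ℝ) * A i := by
    intro i
    obtain ⟨a1, a2⟩ := abs_le.1 (hn i)
    have h2 : K0 ≤ K0 / wm * w i := by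
      have h3 : K0 = K0 / wm * wm := by field_simp
      calc K0 = K0 / wm * wm := h3
        _ ≤ _ := mul_le_mul_of_nonneg_left (hw i) hE
    have h4 : K0 / wm * w i ≤ K0 / wm := mul_le_of_le_one_right hE (hw1 i)
    have hD' : 0 ≤ (K0 / wm + K0) * D := by positivity
    rcases le_total 0 (A i) with h | h
    · have h5 : (N - K0 / wm) * w i ≤ n i := by linarith
      have h6 := mul_le_mul_of_nonneg_right h5 h
      linarith
    · have h5 : (n i : ℝ) ≤ N * w i + K0 := by linarith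
      have h6 := mul_le_mul_of_nonpos_right h5 h
      have h7 : (K0 / wm * w i + K0) * (-A i) ≤ (K0 / wm + K0) * D :=
        mul_le_mul (by linarith) (by linarith [hA i]) (by linarith) (by linarith)
      nlinarith
  have h2 := Finset.sum_le_sum fun i (_ : i ∈ Finset.univ) => h1 i
  rw [Finset.sum_sub_distrib, ← Finset.mul_sum, Finset.sum_const, Finset.card_univ,
    nsmul_eq_mul] at h2
  have h3 : N / 2 * S ≤ (N - K0 / wm) * ∑ i, w i * A i := by
    have h4 : N / 2 ≤ N - K0 / wm := by linarith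
    exact mul_le_mul h4 hS hS0 (by linarith)
  linarith

/-- **the rate of the price at complex places**: one constant for all curves and contents -/
theorem rateX {de s0 hi j1 ρ0 K0 wm : ℝ} (hde : 0 < de) (hde1 : de ≤ 1) (hs0 : 0 ≤ s0)
    (hs1 : s0 ≤ 1 / 10) (hj : hi < j1) (hρ0 : 0 ≤ ρ0)
    (hsm : 400 / (de * l) ^ 2 * ((1 - ρ0) * s0) ≤ (j1 - hi) * l) (hwm : 0 < wm) (hK : 0 ≤ K0) :
    ∃ κ : ℝ, 0 < κ ∧ ∃ N0 : ℕ, ∀ (w : ι → ℝ) (x : ι → ℂ) (v : ℝ → ℝ), LvX de s0 hi w x v →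
      (∀ i, wm ≤ w i) → ∀ (c : List ℂ) (k : ℕ), CntX K0 w x c k → N0 ≤ c.length + k →
      ∀ j, j1 ≤ j → j < 1 → ∀ ρ, ρ0 ≤ ρ → ρ ≤ 1 → ∀ t : ℝ,
        κ * (((c.length : ℝ) + k) * Real.exp (-(8 / 3 * |ρ * t|))) ≤
          (c.map fun y => Ag (j * l + y.re) (ρ * (t - y.im))).sum := by
  have hl : 0 < l := l_pos
  obtain ⟨c1, hc1⟩ : ∃ c1, c1 = min ((j1 - hi) * l / 2) (l / 20) := ⟨_, rfl⟩
  have hc1p : 0 < c1 := by
    rw [hc1]
    exact lt_min (by nlinarith) (by linarith)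
  have hcs : Real.cos (Real.pi / 3 * de) < 1 := by
    rw [← Real.cos_zero]
    exact Real.cos_lt_cos_of_nonneg_of_le_pi le_rfl (by nlinarith [Real.pi_pos])
      (by have := Real.pi_pos; positivity)
  obtain ⟨C0, hC0⟩ : ∃ C0, C0 = 2 / (1 - Real.cos (Real.pi / 3 * de)) * 2 * (4 / 3) := ⟨_, rfl⟩
  have hCc : 0 < 2 / (1 - Real.cos (Real.pi / 3 * de)) := div_pos two_pos (by linarith)
  have hC0p : 0 < C0 := by
    rw [hC0]
    positivity
  obtain ⟨N1, hN1⟩ := exists_nat_ge (2 * (K0 / wm) +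
    4 * (Fintype.card ι * ((K0 / wm + K0) * C0)) / c1)
  refine ⟨c1 / 4, by positivity, N1, fun w x v h hw c k hc hN j h1 h2 ρ hρ hρ1 t => ?_⟩
  obtain ⟨n, e1, e2⟩ := hc.ex
  have hw1 : ∀ i, w i ≤ 1 := fun i => by
    rw [← h.mass]
    exact Finset.single_le_sum (fun i _ => h.nn i) (Finset.mem_univ i)
  have hρn : 0 ≤ ρ := hρ0.trans hρ
  rw [e1 fun y => Ag (j * l + y.re) (ρ * (t - y.im))]
  obtain ⟨u, hu⟩ : ∃ u, u = ρ * t := ⟨_, rfl⟩
  have e0 : ∀ i, ρ * (t - (x i).im) = u - ρ * (x i).im := fun i => by rw [hu]; ring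
  simp only [e0]
  rw [← hu]
  obtain ⟨E, hE⟩ : ∃ E, E = Real.exp (-(8 / 3 * |u|)) := ⟨_, rfl⟩
  have hE0 : 0 < E := by rw [hE]; exact Real.exp_pos _
  rw [← hE]
  have hS := sumX_ge hde hs0 hs1 hj hρ0 hsm h h1 h2 hρ hρ1 u
  rw [← hE, ← hc1] at hS
  have hA : ∀ i, -(C0 * E) ≤ Ag (j * l + (x i).re) (u - ρ * (x i).im) := by
    intro i
    obtain ⟨v1, v2⟩ := abs_le.1 (h.vw i u)
    have v3 := h.hi u
    have v4 : j1 * l ≤ j * l := mul_le_mul_of_nonneg_right h1 hl.le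
    have v5 : hi * l ≤ j1 * l := mul_le_mul_of_nonneg_right hj.le hl.le
    have hCE : 0 ≤ C0 * E := by positivity
    rcases le_total 0 (j * l + (x i).re) with hp | hp
    · have := Ag_nonneg hp (by have := h.up i; nlinarith) (u - ρ * (x i).im)
      linarith
    · have h5 := Ag_bd hde hde1 (V := j * l + (x i).re) (by
        rw [abs_of_nonpos hp]
        linarith) (u - ρ * (x i).im)
      have h6 := AgL.inv_ch_le (u - ρ * (x i).im)
      have h7 := sh_up hs1 (ht1 (u := u) hρn hρ1 (h.im i))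
      rw [← hE] at h7
      have h8 : 2 / (1 - Real.cos (Real.pi / 3 * de)) / ch (u - ρ * (x i).im) ≤ C0 * E := by
        rw [div_eq_mul_inv _ (ch _)]
        calc _ ≤ 2 / (1 - Real.cos (Real.pi / 3 * de)) *
              (2 * Real.exp (-(8 / 3 * |u - ρ * (x i).im|))) := mul_le_mul_of_nonneg_left h6 hCc.le
          _ ≤ 2 / (1 - Real.cos (Real.pi / 3 * de)) * (2 * (4 / 3 * E)) := by gcongr
          _ = C0 * E := by rw [hC0]; ring
      linarith [(abs_le.1 h5).1]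
  have hNr : (N1 : ℝ) ≤ (c.length : ℝ) + k := by exact_mod_cast hN
  have hX : 0 ≤ 4 * (Fintype.card ι * ((K0 / wm + K0) * C0)) / c1 := by positivity
  have hKw : 0 ≤ K0 / wm := by positivity
  have main := combX (A := fun i => Ag (j * l + (x i).re) (u - ρ * (x i).im)) (S := c1 * E) hK hwm
    hw hw1 e2 (by positivity : 0 ≤ C0 * E) hA hS (by linarith) (by positivity)
  refine le_trans ?_ main
  have h6 : 4 * (Fintype.card ι * ((K0 / wm + K0) * C0)) ≤ ((c.length : ℝ) + k) * c1 := by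
    have h7 : 4 * (Fintype.card ι * ((K0 / wm + K0) * C0)) / c1 ≤ (c.length : ℝ) + k := by linarith
    rwa [div_le_iff₀ hc1p] at h7
  have e4 : c1 / 4 * (((c.length : ℝ) + k) * E) = ((c.length + k) * c1 / 4) * E := by ring
  have e5 : ((c.length : ℝ) + k) / 2 * (c1 * E) -
      Fintype.card ι * ((K0 / wm + K0) * (C0 * E)) =
      ((c.length + k) * c1 / 2 - Fintype.card ι * ((K0 / wm + K0) * C0)) * E := by ring
  rw [e4, e5]
  refine mul_le_mul_of_nonneg_right ?_ hE0.le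
  linarith

/-- **the price is nonnegative** at the offsets `j` with `0 ≤ j l + re x ≤ 3 l`, any heights -/
theorem prU_ofX {c : List ℂ} {j : ℝ} (h : ∀ x ∈ c, 0 ≤ j * l + x.re ∧ j * l + x.re ≤ 3 * l)
    (τ : ℂ → ℝ) : 0 ≤ (c.map fun x => Ag (j * l + x.re) (τ x)).sum := by
  refine List.sum_nonneg fun y hy => ?_
  obtain ⟨x, hx, rfl⟩ := List.mem_map.1 hy
  obtain ⟨a1, a2⟩ := h x hx
  exact Ag_nonneg3 a1 a2 _

/-! ### the sea of the content -/

/-- **the level data of the sea of a content** -/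
theorem SeaOX.lv [SeaC] {de s0 lo hi : ℝ} {w : ι → ℝ} {x : ι → ℂ} (h : SeaOX de s0 lo hi w x)
    (hlo : lo ≤ 0) (hhi : hi ≤ 1 / 2) (hd : 0 ≤ de)
    (sp : ∀ i i', (x i).re - (x i').re ≤ (1 + 1 / 1000) * l)
    (hf : ∑ i, w i ≤ 2 * ∑ i, if -(1 / 4) * l ≤ (x i).re then w i else 0) :
    LvX (de + lo) s0 hi w x Cv.eta where
  nn := h.nn
  mass := h.mass
  im := h.im
  vw i t := by
    have hl : 0 < l := l_pos
    have a1 := h.cur.prf.ge t
    have a2 := h.cur.prf.le t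
    have a3 := h.lo i
    have a4 := h.up i
    have a5 : lo * l ≤ 0 := mul_nonpos_of_nonpos_of_nonneg hlo hl.le
    have a6 : hi * l ≤ 1 / 2 * l := mul_le_mul_of_nonneg_right hhi hl.le
    rw [abs_le]
    constructor <;> nlinarith
  hi t := h.cur.prf.le t
  up i := by
    have hl : 0 < l := l_pos
    have := h.up i
    nlinarith
  sp := sp
  hf := hf
  lev t := (h.lev t).ge

/-- **the rate for the sea of a content** -/
theorem rateX_O {de s0 lo hi j1 ρ0 K0 wm : ℝ} (hd : 0 ≤ de) (hde : 0 < de + lo) (hde1 : de + lo ≤ 1)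
    (hlo : lo ≤ 0) (hhi : hi ≤ 1 / 2) (hs0 : 0 ≤ s0) (hs1 : s0 ≤ 1 / 10) (hj : hi < j1)
    (hρ0 : 0 ≤ ρ0) (hsm : 400 / ((de + lo) * l) ^ 2 * ((1 - ρ0) * s0) ≤ (j1 - hi) * l)
    (hwm : 0 < wm) (hK : 0 ≤ K0) :
    ∃ κ : ℝ, 0 < κ ∧ ∃ N0 : ℕ, ∀ [SeaC] (w : ι → ℝ) (x : ι → ℂ), SeaOX de s0 lo hi w x →
      (∀ i, wm ≤ w i) → (∀ i i', (x i).re - (x i').re ≤ (1 + 1 / 1000) * l) →
      (∑ i, w i ≤ 2 * ∑ i, if -(1 / 4) * l ≤ (x i).re then w i else 0) →
      ∀ (c : List ℂ) (k : ℕ), CntX K0 w x c k → N0 ≤ c.length + k →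
      ∀ j, j1 ≤ j → j < 1 → ∀ ρ, ρ0 ≤ ρ → ρ ≤ 1 → ∀ t : ℝ,
        κ * (((c.length : ℝ) + k) * Real.exp (-(8 / 3 * |ρ * t|))) ≤
          (c.map fun y => Ag (j * l + y.re) (ρ * (t - y.im))).sum := by
  obtain ⟨κ, hκ, N0, H⟩ := rateX (ι := ι) hde hde1 hs0 hs1 hj hρ0 hsm hwm hK
  exact ⟨κ, hκ, N0, fun w x h hw sp hf => H w x Cv.eta (h.lv hlo hhi hd sp hf) hw⟩

/-- **the price of the sea** (heights `t - im x`) with the density of a row -/
theorem rateX_P {de s0 lo hi j1 K0 wm : ℝ} (hd : 0 ≤ de) (hde : 0 < de + lo) (hde1 : de + lo ≤ 1)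
    (hlo : lo ≤ 0) (hhi : hi ≤ 1 / 2) (hs0 : 0 ≤ s0) (hs1 : s0 ≤ 1 / 10) (hj : hi < j1)
    (hwm : 0 < wm) (hK : 0 ≤ K0) :
    ∃ κ : ℝ, 0 < κ ∧ ∃ N0 : ℕ, ∀ [SeaC] (w : ι → ℝ) (x : ι → ℂ), SeaOX de s0 lo hi w x →
      (∀ i, wm ≤ w i) → (∀ i i', (x i).re - (x i').re ≤ (1 + 1 / 1000) * l) →
      (∑ i, w i ≤ 2 * ∑ i, if -(1 / 4) * l ≤ (x i).re then w i else 0) →
      ∀ (c : List ℂ) (k : ℕ), CntX K0 w x c k → N0 ≤ c.length + k →
      ∀ j, j1 ≤ j → j < 1 → ∀ t : ℝ,
        κ * (((c.length : ℝ) + k) * NUMF.P t) ≤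
          (c.map fun y => Ag (j * l + y.re) (t - y.im)).sum ∧
        κ * (((c.length : ℝ) + k) * Real.exp (-(8 / 3 * |t|))) ≤
          (c.map fun y => Ag (j * l + y.re) (t - y.im)).sum := by
  have hl : 0 < l := l_pos
  obtain ⟨κ, hκ, N0, H⟩ := rateX_O (ι := ι) (ρ0 := 1) hd hde hde1 hlo hhi hs0 hs1 hj zero_le_one
    (by rw [sub_self, zero_mul, mul_zero]; exact mul_nonneg (by linarith) hl.le) hwm hK
  refine ⟨κ / 2, by positivity, N0, fun w x h hw sp hf c k hc hN j h1 h2 t => ?_⟩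
  have h3 := H w x h hw sp hf c k hc hN j h1 h2 1 le_rfl le_rfl t
  simp only [one_mul] at h3
  have hN' : 0 ≤ (c.length : ℝ) + k := by positivity
  have hE := Real.exp_pos (-(8 / 3 * |t|))
  have hP : NUMF.P t ≤ 2 * Real.exp (-(8 / 3 * |t|)) := by
    have a1 := P_le_ch t
    have a2 := AgL.inv_ch_le t
    rw [one_div] at a1
    linarith
  constructor
  · refine le_trans ?_ h3
    have h4 := mul_le_mul_of_nonneg_left hP (mul_nonneg (by positivity : 0 ≤ κ / 2) hN')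
    calc κ / 2 * (((c.length : ℝ) + k) * NUMF.P t) =
        κ / 2 * ((c.length : ℝ) + k) * NUMF.P t := by ring
      _ ≤ _ := h4
      _ = _ := by ring
  · refine le_trans ?_ h3
    have : 0 ≤ κ * (((c.length : ℝ) + k) * Real.exp (-(8 / 3 * |t|))) := by positivity
    linarith

/-- **the price of the data** (heights `3 β / 4 (t - im x)`, rate `2 β`) -/
theorem rateX_b {de s0 lo hi j1 ρ0 K0 wm : ℝ} (hd : 0 ≤ de) (hde : 0 < de + lo)
    (hde1 : de + lo ≤ 1)
    (hlo : lo ≤ 0) (hhi : hi ≤ 1 / 2) (hs0 : 0 ≤ s0) (hs1 : s0 ≤ 1 / 10) (hj : hi < j1)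
    (hρ0 : 0 ≤ ρ0) (hsm : 400 / ((de + lo) * l) ^ 2 * ((1 - ρ0) * s0) ≤ (j1 - hi) * l)
    (hwm : 0 < wm) (hK : 0 ≤ K0) :
    ∃ κ : ℝ, 0 < κ ∧ ∃ N0 : ℕ, ∀ [SeaC] (w : ι → ℝ) (x : ι → ℂ), SeaOX de s0 lo hi w x →
      (∀ i, wm ≤ w i) → (∀ i i', (x i).re - (x i').re ≤ (1 + 1 / 1000) * l) →
      (∑ i, w i ≤ 2 * ∑ i, if -(1 / 4) * l ≤ (x i).re then w i else 0) →
      ∀ (c : List ℂ) (k : ℕ), CntX K0 w x c k → N0 ≤ c.length + k →
      ∀ j, j1 ≤ j → j < 1 → ∀ β, 4 / 3 * ρ0 ≤ β → β ≤ 4 / 3 → ∀ t : ℝ,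
        κ * (((c.length : ℝ) + k) * Real.exp (-(2 * β) * |t|)) ≤
          (c.map fun y => Ag (j * l + y.re) (3 * β / 4 * (t - y.im))).sum := by
  obtain ⟨κ, hκ, N0, H⟩ := rateX_O (ι := ι) hd hde hde1 hlo hhi hs0 hs1 hj hρ0 hsm hwm hK
  refine ⟨κ, hκ, N0, fun w x h hw sp hf c k hc hN j h1 h2 β hb hb1 t => ?_⟩
  have h3 := H w x h hw sp hf c k hc hN j h1 h2 (3 * β / 4) (by linarith) (by linarith) t
  have e : -(8 / 3 * |3 * β / 4 * t|) = -(2 * β) * |t| := by
    rw [abs_mul, abs_of_nonneg (by linarith : 0 ≤ 3 * β / 4)]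
    ring
  rw [e] at h3
  exact h3

end PLT

end
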