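import Pool.Agent.PLT.PsiAg
import Pool.Agent.PLT.LgK
import Pool.Agent.PLT.RateX

/-!
# No zero of the cutoffs of rows at complex places

Rows `x` at complex places, a quantum at `u`, offset `v = l - Re u`:

* `psi_le_AgX`, `prod_psi_AgX` : `‖∏ psi β (u - x i)‖ ≤ exp (-∑ Ag (v + Re x i) (3 β / 4 (Im u - Im x i)))`;
* **`phX_low`** : the cutoff from below where the sum of the level functions has a rate `κ`;
* **`phT_of`** : `PhT xa xb β ro ex` from a rate for all offsets in `(l - xb, l - xa)`;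
* **`phT_X`** : `PhT xa xb β ro ex` for contents `CntX` over a sea `SeaOX`: one number `N0` for all seas and contents;
  `phX_lowX` : the cutoff from below with one constant.
-/

set_option autoImplicit false
set_option linter.unusedSectionVars false
set_option linter.unusedVariables false

noncomputable section

open Complex MeasureTheory Filter Topology

namespace PLTX

open NUP1 NUP1S NUP1.Bd NURow
open PBX (ph gP)
open PLT (Ag cK cK_ge RwD phi_low phi_ne psi_le_Ag)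
open NUO (cut)
open PLT (SeaC SeaOX CntX rateX_b)

variable {β : ℝ}

/-- **one row at a complex place** -/
theorem psi_le_AgX (hβ0 : 0 < β) (hβ1 : β ≤ 4 / 3) {u x : ℂ} {v : ℝ} (hv : u.re = l - v)
    (h1 : -l < v + x.re) (h2 : v + x.re < 4 * l) :
    ‖psi β (u - x)‖ ≤ Real.exp (-Ag (v + x.re) (3 * β / 4 * (u.im - x.im))) := by
  have e : u - x = vl (l - (v + x.re)) (u.im - x.im) := by
    apply Complex.ext
    · simp only [vl, sub_re, add_re, ofReal_re, mul_re, I_re, I_im, ofReal_im]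
      rw [hv]
      ring
    · simp [vl]
  rw [e]
  exact psi_le_Ag hβ0 hβ1 h1 h2 _

/-- **rows at complex places** -/
theorem prod_psi_AgX (hβ0 : 0 < β) (hβ1 : β ≤ 4 / 3) {u : ℂ} {v : ℝ} (hv : u.re = l - v) {m : ℕ}
    (x : Fin m → ℂ) (hx : ∀ i, -l < v + (x i).re ∧ v + (x i).re < 4 * l) :
    ‖∏ i, psi β (u - x i)‖ ≤ Real.exp (-∑ i, Ag (v + (x i).re) (3 * β / 4 * (u.im - (x i).im))) := by
  rw [norm_prod, ← Finset.sum_neg_distrib, Real.exp_sum]
  exact Finset.prod_le_prod (fun i _ => norm_nonneg _) fun i _ =>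
    psi_le_AgX hβ0 hβ1 hv (hx i).1 (hx i).2

theorem ph_phi (β : ℝ) {m : ℕ} (x : Fin m → ℂ) (W : List ℂ) (u : ℂ) :
    ph β x (gP β W) u = phi β (List.ofFn x ++ W) u := by
  unfold PBX.ph phi PBX.gP
  rw [List.map_append, List.prod_append, List.map_ofFn, List.prod_ofFn]
  rfl

theorem prod_ofFn (β : ℝ) {m : ℕ} (x : Fin m → ℂ) (u : ℂ) :
    ((List.ofFn x).map fun x => psi β (u - x)).prod = ∏ i, psi β (u - x i) := by
  rw [List.map_ofFn, List.prod_ofFn]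
  rfl

/-- the additional points of the cutoff -/
theorem rwD_ex {h0 : ℝ} {W : List ℂ} (hW : ∀ w ∈ W, PtE w ∧ |w.im| ≤ h0) {u : ℂ} (h1 : 0 ≤ u.re)
    (h2 : u.re ≤ l) : RwD (1 / 10) h0 u W := by
  have hl := lpos
  intro w hw
  obtain ⟨⟨a, b⟩, c⟩ := hW w hw
  refine ⟨?_, ?_, c⟩
  · rw [sub_re]
    linarith
  · rw [sub_re]
    linarith

/-- **the cutoff from below** at a point `u` of offset `v` where the sum of the level functions has the
rate `κ` -/
theorem phX_low (hβ0 : 0 < β) (hβ1 : β ≤ 4 / 3) {m : ℕ} {x : Fin m → ℂ} (hx : RwG x) {W : List ℂ} {h0 : ℝ}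
    (hh : 0 ≤ h0) (hW : ∀ w ∈ W, PtE w ∧ |w.im| ≤ h0) {κ : ℝ} (hκ : 0 < κ) {u : ℂ} (h1 : 0 ≤ u.re) (h2 : u.re ≤ l)
    (hS : κ * (m * Real.exp (-(2 * β) * |u.im|)) ≤
      ∑ i, Ag (l - u.re + (x i).re) (3 * β / 4 * (u.im - (x i).im)))
    (hm : cK (1 / 10) h0 * W.length ≤ κ / 2 * m) :
    min 1 (κ / 2) / 2 * cut m β u.im ≤ ‖ph β x (gP β W) u‖ := by
  have hl := lpos
  rw [ph_phi]
  refine phi_low (δ := 1 / 10) (h0 := h0) (n0 := W.length) hβ0 hβ1 (by norm_num) (by norm_num) hh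
    (List.Perm.refl _) (rwD_ex hW h1 h2) hκ.le ?_ le_rfl hm
  rw [prod_ofFn]
  refine (prod_psi_AgX hβ0 hβ1 (v := l - u.re) (by ring) x fun i => ?_).trans
    (Real.exp_le_exp.2 (neg_le_neg hS))
  obtain ⟨a, b⟩ := hx i
  constructor <;> linarith

/-- **the cutoffs have no zero in the strip of the holes**, from a rate of the sum of the level functions -/
theorem phT_of (hβ0 : 0 < β) (hβ1 : β ≤ 4 / 3) {N : Bool → ℕ} {ro : ∀ a, Fin (N a) → ℂ} {ex : Bool → List ℂ}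
    (hx : ∀ a, RwG (ro a)) {h0 : ℝ} (hh : 0 ≤ h0) (hW : ∀ a, ∀ w ∈ ex a, PtE w ∧ |w.im| ≤ h0) {κ : ℝ} (hκ : 0 < κ)
    {xa xb : ℝ} (hxa : 0 ≤ xa) (hxb : xb ≤ l)
    (hS : ∀ a (v t : ℝ), l - xb < v → v < l - xa → κ * (N a * Real.exp (-(2 * β) * |t|)) ≤
      ∑ i, Ag (v + (ro a i).re) (3 * β / 4 * (t - (ro a i).im)))
    (hN : ∀ a, 1 ≤ N a) (hm : ∀ a, cK (1 / 10) h0 * (ex a).length ≤ κ / 2 * N a) : PhT xa xb β ro ex := by
  have hl := lpos
  have key : ∀ a (u : ℂ), xa < u.re → u.re < xb →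
      min 1 (κ / 2) / 2 * Real.exp (-(2 * β) * |u.im|) ≤ ‖ph β (ro a) (gP β (ex a)) u‖ := by
    intro a u h1 h2
    refine le_trans ?_ (phX_low hβ0 hβ1 (hx a) hh (hW a) hκ (by linarith) (by linarith)
      (hS a (l - u.re) u.im (by linarith) (by linarith)) (hm a))
    have hpos : 0 ≤ min 1 (κ / 2) / 2 := by positivity
    refine mul_le_mul_of_nonneg_left ?_ hpos
    unfold NUO.cut
    have hE := Real.exp_pos (-(2 * β) * |u.im|)
    have hN' : (1 : ℝ) ≤ N a := by exact_mod_cast hN a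
    refine le_min ?_ (by nlinarith)
    rw [Real.exp_le_one_iff]
    have := abs_nonneg u.im
    nlinarith
  have hc : 0 < min 1 (κ / 2) / 2 := by
    have : 0 < min 1 (κ / 2) := lt_min one_pos (by positivity)
    positivity
  refine ⟨fun a u h1 h2 h3 => ?_, fun a r r' h1 h2 => ⟨(min 1 (κ / 2) / 2)⁻¹, by positivity,
    fun z hz => ?_⟩⟩
  · have := key a u h1 h2
    rw [h3, norm_zero] at this
    have hE := Real.exp_pos (-(2 * β) * |u.im|)
    nlinarith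
  · have h3 := key a z (lt_of_lt_of_le h1 hz.1) (lt_of_le_of_lt hz.2 h2)
    have hE := Real.exp_pos (-(2 * β) * |z.im|)
    rw [norm_inv]
    have h4 : (min 1 (κ / 2) / 2)⁻¹ * Real.exp (2 * β * |z.im|) =
        (min 1 (κ / 2) / 2 * Real.exp (-(2 * β) * |z.im|))⁻¹ := by
      rw [mul_inv, ← Real.exp_neg]
      congr 2
      ring
    rw [h4]
    exact inv_anti₀ (by positivity) h3

/-! ### contents over a sea -/

section sea

variable {ι : Type*} [Fintype ι]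

theorem rwG_cnt [SeaC] {de s0 lo hi K0 : ℝ} {w : ι → ℝ} {x : ι → ℂ} (h : SeaOX de s0 lo hi w x) (hde : 0 < de)
    {m k : ℕ} {y : Fin m → ℂ} (hc : CntX K0 w x (List.ofFn y) k) : RwG y := by
  have hl := lpos
  intro i
  obtain ⟨i0, e⟩ := hc.mem (y i) (List.mem_ofFn.2 ⟨i, rfl⟩)
  rw [e]
  have a := h.lo i0
  have b := h.up i0
  have e1 : (NUMF.l : ℝ) = l := rfl
  rw [e1] at a b
  constructor <;> nlinarith

/-- **the cutoff from below over a content**: one constant and one number for all seas and contents -/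
theorem phX_lowX {de s0 lo hi j1 ρ0 K0 wm h0 : ℝ} (hd : 0 ≤ de) (hde : 0 < de + lo)
    (hde1 : de + lo ≤ 1) (hlo : lo ≤ 0) (hhi : hi ≤ 1 / 2) (hs0 : 0 ≤ s0) (hs1 : s0 ≤ 1 / 10) (hj : hi < j1)
    (hj1 : 0 ≤ j1) (hρ0 : 0 < ρ0) (hsm : 400 / ((de + lo) * l) ^ 2 * ((1 - ρ0) * s0) ≤ (j1 - hi) * l)
    (hwm : 0 < wm) (hK : 0 ≤ K0) (hh : 0 ≤ h0) (n0 : ℕ) :
    ∃ c0 : ℝ, 0 < c0 ∧ ∃ N0 : ℕ, ∀ [SeaC] (w : ι → ℝ) (x : ι → ℂ), SeaOX de s0 lo hi w x →
      (∀ i, wm ≤ w i) → (∀ i i', (x i).re - (x i').re ≤ (1 + 1 / 1000) * l) →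
      (∑ i, w i ≤ 2 * ∑ i, if -(1 / 4) * l ≤ (x i).re then w i else 0) →
      ∀ {m : ℕ} (y : Fin m → ℂ) (k : ℕ) (W : List ℂ), CntX K0 w x (List.ofFn y) k →
      (∀ w ∈ W, PtE w ∧ |w.im| ≤ h0) → W.length ≤ n0 → N0 ≤ m →
      ∀ β, 4 / 3 * ρ0 ≤ β → β ≤ 4 / 3 → ∀ u : ℂ, 0 < u.re → u.re ≤ (1 - j1) * l →
        c0 * cut m β u.im ≤ ‖ph β y (gP β W) u‖ := by
  have hl := lpos
  obtain ⟨κ, hκ, N1, H⟩ := rateX_b (ι := ι) hd hde hde1 hlo hhi hs0 hs1 hj hρ0.le hsm hwm hK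
  obtain ⟨N2, hN2⟩ := exists_nat_ge (cK (1 / 10) h0 * n0 / (κ / 2))
  refine ⟨min 1 (κ / 2) / 2, by
    have : 0 < min 1 (κ / 2) := lt_min one_pos (by positivity)
    positivity, max N1 (max N2 1), ?_⟩
  intro _ w x hS hw hsp hf m y k W hc hW hn hN β hb1 hb2 u hu1 hu2
  have hm1 : (1 : ℝ) ≤ m := by
    exact_mod_cast (le_max_right N2 1).trans ((le_max_right _ _).trans hN)
  have hm2 : (N2 : ℝ) ≤ m := by
    exact_mod_cast (le_max_left N2 1).trans ((le_max_right _ _).trans hN)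
  have hlen : (List.ofFn y).length = m := List.length_ofFn
  have hK := cK_ge (δ := 1 / 10) (h0 := h0) (by norm_num) (by norm_num) hh
  refine phX_low (by linarith) hb2 (rwG_cnt hS (by linarith) hc) hh hW hκ hu1.le (by nlinarith) ?_ ?_
  · have h1 := H w x hS hw hsp hf (List.ofFn y) k hc
      (by rw [hlen]; exact ((le_max_left _ _).trans hN).trans (Nat.le_add_right _ _))
      (1 - u.re / l) (by
        rw [le_sub_comm, div_le_iff₀ hl]
        exact hu2) (by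
        have : 0 < u.re / l := by positivity
        linarith) β hb1 hb2 u.im
    have e1 : (1 - u.re / l) * NUMF.l = l - u.re := by
      show (1 - u.re / l) * l = _
      field_simp
    rw [e1, hlen, List.map_ofFn, List.sum_ofFn] at h1
    refine le_trans ?_ h1
    refine mul_le_mul_of_nonneg_left ?_ hκ.le
    refine mul_le_mul_of_nonneg_right ?_ (Real.exp_pos _).le
    have : (0 : ℝ) ≤ k := Nat.cast_nonneg k
    linarith
  · have h2 : cK (1 / 10) h0 * n0 ≤ κ / 2 * m := by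
      have h3 := hN2.trans hm2
      rw [div_le_iff₀ (by positivity)] at h3
      linarith
    refine le_trans ?_ h2
    have : (W.length : ℝ) ≤ n0 := by exact_mod_cast hn
    exact mul_le_mul_of_nonneg_left this (by linarith)

/-- **the cutoffs over a content have no zero in the strip of the holes**: one number for all seas and contents -/
theorem phT_X {de s0 lo hi j1 ρ0 K0 wm h0 : ℝ} (hd : 0 ≤ de) (hde : 0 < de + lo)
    (hde1 : de + lo ≤ 1) (hlo : lo ≤ 0) (hhi : hi ≤ 1 / 2) (hs0 : 0 ≤ s0) (hs1 : s0 ≤ 1 / 10) (hj : hi < j1)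
    (hj1 : 0 ≤ j1) (hρ0 : 0 < ρ0) (hsm : 400 / ((de + lo) * l) ^ 2 * ((1 - ρ0) * s0) ≤ (j1 - hi) * l)
    (hwm : 0 < wm) (hK : 0 ≤ K0) (hh : 0 ≤ h0) (n0 : ℕ) :
    ∃ N0 : ℕ, ∀ [SeaC] (w : ι → ℝ) (x : ι → ℂ), SeaOX de s0 lo hi w x →
      (∀ i, wm ≤ w i) → (∀ i i', (x i).re - (x i').re ≤ (1 + 1 / 1000) * l) →
      (∑ i, w i ≤ 2 * ∑ i, if -(1 / 4) * l ≤ (x i).re then w i else 0) →
      ∀ {N : Bool → ℕ} (ro : ∀ a, Fin (N a) → ℂ) (ex : Bool → List ℂ) (k : Bool → ℕ),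
      (∀ a, CntX K0 w x (List.ofFn (ro a)) (k a)) → (∀ a, ∀ w ∈ ex a, PtE w ∧ |w.im| ≤ h0) →
      (∀ a, (ex a).length ≤ n0) → (∀ a, N0 ≤ N a) → ∀ β, 4 / 3 * ρ0 ≤ β → β ≤ 4 / 3 →
      ∀ xa xb, 0 ≤ xa → xb ≤ (1 - j1) * l → PhT xa xb β ro ex := by
  have hl := lpos
  obtain ⟨c0, hc0, N0, H⟩ := phX_lowX (ι := ι) hd hde hde1 hlo hhi hs0 hs1 hj hj1 hρ0 hsm hwm hK hh n0
  refine ⟨max N0 1, ?_⟩
  intro _ w x hS hw hsp hf N ro ex k hc hW hn hN β hb1 hb2 xa xb hxa hxb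
  have hβ0 : 0 < β := by linarith
  have key : ∀ a (u : ℂ), xa < u.re → u.re < xb → c0 * Real.exp (-(2 * β) * |u.im|) ≤
      ‖ph β (ro a) (gP β (ex a)) u‖ := by
    intro a u h1 h2
    refine le_trans ?_ (H w x hS hw hsp hf (ro a) (k a) (ex a) (hc a) (hW a) (hn a)
      ((le_max_left _ _).trans (hN a)) β hb1 hb2 u (by linarith) (by linarith))
    refine mul_le_mul_of_nonneg_left ?_ hc0.le
    unfold NUO.cut
    have hE := Real.exp_pos (-(2 * β) * |u.im|)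
    have hN' : (1 : ℝ) ≤ N a := by exact_mod_cast (le_max_right _ _).trans (hN a)
    refine le_min ?_ (by nlinarith)
    rw [Real.exp_le_one_iff]
    have := abs_nonneg u.im
    nlinarith
  refine ⟨fun a u h1 h2 h3 => ?_, fun a r r' h1 h2 => ⟨c0⁻¹, by positivity, fun z hz => ?_⟩⟩
  · have := key a u h1 h2
    rw [h3, norm_zero] at this
    have hE := Real.exp_pos (-(2 * β) * |u.im|)
    nlinarith
  · have h3 := key a z (lt_of_lt_of_le h1 hz.1) (lt_of_le_of_lt hz.2 h2)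
    have hE := Real.exp_pos (-(2 * β) * |z.im|)
    rw [norm_inv]
    have h4 : c0⁻¹ * Real.exp (2 * β * |z.im|) = (c0 * Real.exp (-(2 * β) * |z.im|))⁻¹ := by
      rw [mul_inv, ← Real.exp_neg]
      congr 2
      ring
    rw [h4]
    exact inv_anti₀ (by positivity) h3

end sea

end PLTX

end
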