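import Pool.Agent.PLT.H1Cut
import Pool.Agent.PLT.PhX

/-!
# The bounds of the cutoffs at the places of the half quanta for contents over a sea

* **`cutX6_cnt`**: `CutX6` for the rows `y` of a content `CntX` over `SeaOX` (complex places), `m ≤ N ≤ q m`: one constant
  and one number for all seas and contents; `j1 ≤ 3/8`;
* `cutX6_rwq`: both species of `x : Fin m → ℂ`.
-/

set_option autoImplicit false
set_option linter.unusedSectionVars false
set_option linter.unusedVariables false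

noncomputable section

open Complex

namespace PLT

open NUP1
open NUGC.PLX (beC)
open PBX (ph gP)
open PBU.PLX (T1L tauF)
open PHK (gO)
open _root_.PLX (Fil)
open _root_.Pool.Agent.PLX (rwq yq)

variable {ι : Type*} [Fintype ι]

theorem cRw_cnt [SeaC] {de s0 lo hi K0 : ℝ} {w : ι → ℝ} {x : ι → ℂ} (h : SeaOX de s0 lo hi w x) (hde : 0 ≤ de)
    (hs1 : s0 ≤ 1 / 10) {N k : ℕ} {y : Fin N → ℂ} (hc : CntX K0 w x (List.ofFn y) k) : CRw y := by
  have hl := l_pos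
  have hll : NUMF.l = l := rfl
  intro i
  obtain ⟨j, hj⟩ := hc.mem (y i) ((List.mem_ofFn' _ _).2 ⟨i, rfl⟩)
  have a := h.lo j
  have b := h.up j
  have c := h.im j
  rw [hll] at a b
  rw [hj]
  refine ⟨?_, ?_, by linarith⟩
  · nlinarith
  · nlinarith

/-- the product over `± i` -/
theorem prod_II {β δ : ℝ} {u : ℂ} (hβ0 : 0 < β) (hβ1 : β ≤ 4 / 3) (hd0 : 0 < δ) (hd1 : δ ≤ 1)
    (h1 : (-(5 / 2) + δ) * l ≤ u.re) (h2 : u.re ≤ (1 - δ) * l) : RwD δ 1 u [I, -I] := by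
  have hl := l_pos
  intro x hx
  rw [List.mem_cons, List.mem_singleton] at hx
  rcases hx with rfl | rfl
  · rw [sub_re, I_re, I_im, abs_one]
    exact ⟨by nlinarith, by nlinarith, le_rfl⟩
  · rw [sub_re, neg_re, neg_im, I_re, I_im, abs_neg, abs_one]
    exact ⟨by nlinarith, by nlinarith, le_rfl⟩

section cnt

variable [Fil]

/-- **the bounds of the cutoffs over a content at complex places**: one constant and one number for all seas and
contents -/
theorem cutX6_cnt {de s0 lo hi j1 ρ0 K0 wm : ℝ} (hd : 0 ≤ de) (hde : 0 < de + lo)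
    (hde1 : de + lo ≤ 1) (hlo : lo ≤ 0) (hhi : hi ≤ 1 / 2) (hs0 : 0 ≤ s0) (hs1 : s0 ≤ 1 / 10) (hj : hi < j1)
    (hj1 : j1 ≤ 3 / 8) (hρ0 : 0 < ρ0) (hsm : 400 / ((de + lo) * l) ^ 2 * ((1 - ρ0) * s0) ≤ (j1 - hi) * l)
    (hwm : 0 < wm) (hK : 0 ≤ K0) :
    ∃ A : ℝ, 1 ≤ A ∧ ∃ N0 : ℕ, ∀ [SeaC] (w : ι → ℝ) (x : ι → ℂ), SeaOX de s0 lo hi w x →
      (∀ i, wm ≤ w i) → (∀ i i', (x i).re - (x i').re ≤ (1 + 1 / 1000) * l) →
      (∑ i, w i ≤ 2 * ∑ i, if -(1 / 4) * l ≤ (x i).re then w i else 0) →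
      ∀ {m N : ℕ} (y : Fin N → ℂ) (k : ℕ), CntX K0 w x (List.ofFn y) k → N0 ≤ m → m ≤ N → N ≤ Fil.q * m →
      ∀ ep : ℝ, 0 ≤ ep → ep ≤ 1 - ρ0 →
        CutX6 y m ep A (beC ep) (gP (beC ep) [I, -I]) (gO (T1L m) [] y) := by
  have hl := l_pos
  obtain ⟨κ, hκ, N1, H⟩ := rateX_b (ι := ι) hd hde hde1 hlo hhi hs0 hs1 hj hρ0.le hsm hwm hK
  obtain ⟨N2, hN2⟩ := exists_nat_ge (cK (3 / 8) 1 * (2 : ℕ) / (κ / 2))
  have hK1 := cK_ge (δ := 3 / 8) (h0 := 1) (by norm_num) (by norm_num) zero_le_one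
  have hK2 := cK_ge (δ := 3 / 4) (h0 := 1) (by norm_num) (by norm_num) zero_le_one
  refine ⟨aCX (κ / 2) (cK (3 / 4) 1 * 2), one_le_aCX (by linarith), max N1 (max N2 1), ?_⟩
  intro _ w x hS hw hsp hf m N y k hc hm hmN hN ep h0 h1
  have hm1 : 1 ≤ m := (le_max_right N2 1).trans ((le_max_right _ _).trans hm)
  have hm2 : (N2 : ℝ) ≤ m := by
    exact_mod_cast (le_max_left N2 1).trans ((le_max_right _ _).trans hm)
  have hβ0 : 0 < beC ep := by
    unfold NUGC.PLX.beC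
    linarith
  have hβ1 : beC ep ≤ 4 / 3 := by
    unfold NUGC.PLX.beC
    linarith
  have hβ2 : 4 / 3 * ρ0 ≤ beC ep := by
    unfold NUGC.PLX.beC
    linarith
  have hy := cRw_cnt hS hd hs1 hc
  have hlen : (List.ofFn y).length = N := List.length_ofFn
  have hmN' : (m : ℝ) ≤ N := by exact_mod_cast hmN
  have hk0 : (0 : ℝ) ≤ k := Nat.cast_nonneg k
  -- the bulk at the offset `j`
  have hbulk : ∀ j : ℝ, 3 / 8 ≤ j → j < 1 → ∀ τ : ℝ,
      ‖((List.ofFn y).map fun x => psi (beC ep) (vl ((1 - j) * l) τ - x)).prod‖ ≤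
        Real.exp (-(κ * (m * Real.exp (-(2 * beC ep) * |(vl ((1 - j) * l) τ).im|)))) := by
    intro j hj3 hj4 τ
    rw [PLTX.prod_ofFn]
    have h2 := PLTX.prod_psi_AgX hβ0 hβ1 (u := vl ((1 - j) * l) τ) (v := j * l) (by rw [vlre]; ring) y
      fun i => by
        obtain ⟨a, b, -⟩ := hy i
        constructor <;> nlinarith
    refine h2.trans (Real.exp_le_exp.2 (neg_le_neg ?_))
    have h3 := H w x hS hw hsp hf (List.ofFn y) k hc (by
      rw [hlen]
      exact ((le_max_left _ _).trans (hm.trans hmN)).trans (Nat.le_add_right _ _)) j (by linarith) hj4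
      (beC ep) hβ2 hβ1 (vl ((1 - j) * l) τ).im
    have e1 : (NUMF.l : ℝ) = l := rfl
    rw [hlen, List.map_ofFn, List.sum_ofFn, e1] at h3
    refine le_trans ?_ h3
    refine mul_le_mul_of_nonneg_left (mul_le_mul_of_nonneg_right (by linarith) (Real.exp_pos _).le) hκ.le
  refine cutX6_core (by linarith) (by linarith) hy hm1 hN h0 (by linarith) (fun τ => ?_) fun τ => ?_
  · have e : (1 / 4 * l : ℝ) = (1 - 3 / 4) * l := by ring
    have h2 := hbulk (3 / 4) (by norm_num) (by norm_num) τ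
    rw [← e] at h2
    have h3 : Real.exp (-(κ * (m * Real.exp (-(2 * beC ep) * |(vl (1 / 4 * l) τ).im|)))) ≤ 1 :=
      Real.exp_le_one_iff.2 (neg_nonpos.2 (by positivity))
    have h4 := prod_le (δ := 3 / 4) (h0 := 1) (u := vl (1 / 4 * l) τ) (X := [I, -I]) hβ0 hβ1 (by norm_num)
      (by norm_num) zero_le_one (prod_II hβ0 hβ1 (by norm_num) (by norm_num) (by rw [vlre]; linarith)
        (by rw [vlre]; linarith))
    have h5 : Real.exp (-(2 * beC ep) * |(vl (1 / 4 * l) τ).im|) ≤ 1 :=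
      Real.exp_le_one_iff.2 (by
        have := abs_nonneg (vl (1 / 4 * l) τ).im
        nlinarith)
    have h6 : Real.exp (cK (3 / 4) 1 * (([I, -I] : List ℂ).length : ℝ) *
        Real.exp (-(2 * beC ep) * |(vl (1 / 4 * l) τ).im|)) ≤ Real.exp (cK (3 / 4) 1 * 2) := by
      refine Real.exp_le_exp.2 ?_
      have e2 : (([I, -I] : List ℂ).length : ℝ) = 2 := by simp
      rw [e2]
      exact mul_le_of_le_one_right (by positivity) h5
    unfold yE
    rw [List.map_append, List.prod_append, norm_mul]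
    calc _ ≤ 1 * Real.exp (cK (3 / 4) 1 * 2) :=
          mul_le_mul (h2.trans h3) (h4.trans h6) (norm_nonneg _) zero_le_one
      _ = _ := one_mul _
  · have e : (5 / 8 * l : ℝ) = (1 - 3 / 8) * l := by ring
    have h2 := hbulk (3 / 8) le_rfl (by norm_num) τ
    rw [← e] at h2
    have h3 := prod_low (δ := 3 / 8) (h0 := 1) (u := vl (5 / 8 * l) τ) (bulk := List.ofFn y) (ex := [I, -I])
      (m := m) (n0 := 2) hβ0 hβ1 (by norm_num) (by norm_num) zero_le_one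
      (prod_II hβ0 hβ1 (by norm_num) (by norm_num) (by rw [vlre]; linarith) (by rw [vlre]; linarith)) h2
      (by simp) (by
        have h4 := hN2.trans hm2
        rw [div_le_iff₀ (by positivity)] at h4
        linarith)
    rw [vlim] at h3
    exact h3

/-- **both species** of the rows `x : Fin m → ℂ`, `q` copies in `Y` -/
theorem cutX6_rwq {de s0 lo hi j1 ρ0 K0 wm : ℝ} (hd : 0 ≤ de) (hde : 0 < de + lo)
    (hde1 : de + lo ≤ 1) (hlo : lo ≤ 0) (hhi : hi ≤ 1 / 2) (hs0 : 0 ≤ s0) (hs1 : s0 ≤ 1 / 10) (hj : hi < j1)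
    (hj1 : j1 ≤ 3 / 8) (hρ0 : 0 < ρ0) (hsm : 400 / ((de + lo) * l) ^ 2 * ((1 - ρ0) * s0) ≤ (j1 - hi) * l)
    (hwm : 0 < wm) (hK : 0 ≤ K0) :
    ∃ A : ℝ, 1 ≤ A ∧ ∃ N0 : ℕ, ∀ [SeaC] (w : ι → ℝ) (x : ι → ℂ), SeaOX de s0 lo hi w x →
      (∀ i, wm ≤ w i) → (∀ i i', (x i).re - (x i').re ≤ (1 + 1 / 1000) * l) →
      (∑ i, w i ≤ 2 * ∑ i, if -(1 / 4) * l ≤ (x i).re then w i else 0) →
      ∀ {m : ℕ} (y : Fin m → ℂ) (k : Bool → ℕ), (∀ a, CntX K0 w x (List.ofFn (rwq y a)) (k a)) → N0 ≤ m →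
      ∀ ep : ℝ, 0 ≤ ep → ep ≤ 1 - ρ0 → ∀ a,
        CutX6 (rwq y a) m ep A (beC ep) (gP (beC ep) [I, -I]) (gO (T1L m) [] (rwq y a)) := by
  obtain ⟨A, hA, N0, H⟩ := cutX6_cnt (ι := ι) hd hde hde1 hlo hhi hs0 hs1 hj hj1 hρ0 hsm hwm hK
  refine ⟨A, hA, N0, ?_⟩
  intro _ w x hS hw hsp hf m y k hc hm ep h0 h1 a
  have hN : PHK.Nq m a ≤ Fil.q * m := by
    cases a
    · exact le_rfl
    · exact Nat.le_mul_of_pos_left _ Fil.one_le_q
  exact H w x hS hw hsp hf (rwq y a) (k a) (hc a) hm (H1.le_Nq m a) hN ep h0 h1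

end cnt

end PLT

end
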