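import Pool.Agent.PLT.OthY
import Pool.Agent.PLT.AsmKRC
import Pool.Agent.PHK.Oth16

/-!
# The inputs of `othY` from the classes over a curve and from the factors of the letters

* `ltG mN MF`: the letters with the sea exponents of the geometry; `TGC`;
* **`ClsFC`**: class formulas of a family of kernels on curves in a strip;
* **`sumBdP_of`**: `SumBdP` from `clsRC` and the class formulas;
* **`clOkY_of`**: `ClOkY` from the own and direct factors of the letters.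
-/

set_option autoImplicit false
set_option linter.unusedSectionVars false

noncomputable section

open Complex MeasureTheory Finset
open scoped ENNReal
open PLX (Fil Ends)

namespace PLT

open NUO NUP1 NUCR NUP1S NURow NUP1.Leg NUGC NUGC.PLX
open PHK
open PBR.PLX
open PBO.PLX (LtS QL6 QL6_nonneg ltS ph6_big)
open PBQ.PLX (KD PwOk OwnDLe QGD QGD_nonneg)

/-- the letters with the sea exponents of a geometry, extra own factors `f` -/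
def ltG (f : ℝ → ℕ → HT → Ch6 → ℝ → ℝ) (mN : MNC) (MF : ℕ → Bool → NUSp.Cl → ℂ → ℝ) : LtS :=
  ltS f fun m a t u τ => MEC mN MF m a t u τ

variable [Fil] [Ends]

/-- **the class formulas** of a family of kernels on the curves in the strips
`-(g1 + ep / 4) .. g0 + ep / 4`, `ep ≤ x0`, weights `cw` -/
structure ClsFC {ι : Type*} (P : Par6) (g1 g0 x0 : ℝ) (K : ι → ℝ → ℕ → KD)
    (kD : ι → ℝ → ℕ → Bool → ℂ → ℂ)
    (cw : ι → ℝ → ℕ → HT → HT → ℝ × ℝ → Ch6 × Ch6 → ℝ) : Prop where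
  cls : ∀ ep : ℝ, 0 < ep → ep ≤ x0 → ∃ m0 : ℕ, ∀ m ≥ m0, ∀ (i : ι) (t t' : HT), ∀ᵐ y : ℝ × ℝ,
    ClsVC (K i ep m).Z P (-(g1 + ep / 4)) (g0 + ep / 4) (Fil.xe m) t t' (vl (htL t) y.1)
      (vl (htL t') y.2) (cw i ep m t t' y) (zPtP P (K i ep m) m t t' y)
  clsD : ∀ ep : ℝ, 0 < ep → ep ≤ x0 → ∃ m0 : ℕ, ∀ m ≥ m0, ∀ (i : ι) (o : Bool), ∀ᵐ y : ℝ,
    ClsDC (K i ep m).Z P (-(g1 + ep / 4)) (g0 + ep / 4) (Fil.xe m) o (vl (-(11 / 4) * l) y)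
      (zPtDP P (K i ep m) (kD i ep m) m o y)

/-- **the base data**: one body data of the kernels = the one body data of the geometry -/
def BsF {ι : Type*} (P : Par6) (g1 g0 x0 : ℝ) (K : ι → ℝ → ℕ → KD) (G : ι → GeoC) : Prop :=
  ∀ ep : ℝ, 0 < ep → ep ≤ x0 → ∃ m0 : ℕ, ∀ m ≥ m0, ∀ i : ι,
    ∃ (κ : ℝ) (E0 : Set ℝ), BsC (K i ep m).Z (fun g => ((G i).B m (4 / 3 * (1 - ep))).mul g) P
      (-(g1 + ep / 4)) (g0 + ep / 4) κ (Fil.xe m) E0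

/-- **the sums over the numbers** from the classes over a curve and the class formulas -/
theorem sumBdP_of {P : Par6} (hP : GoodP6 P) {ι : Type*} [Nonempty ι] (G : ι → GeoC)
    (mN : ι → MNC) (hB : ∀ i m β, ((G i).B m β).Nn)
    (hS : ∀ i : ℕ → ι, StabU P (GeoC.sel G i).en) {C3 : ℝ} (hspec : SpecPinC P C3)
    (h4 : ∀ i : ℕ → ι × Ix6, S4RC P (GeoC.sel (GLU G mN) i))
    (h1 : ∀ i : ℕ → ι × Ix6, OneRC P (GeoC.sel (GLU G mN) i))
    (h4' : ∀ i : ℕ → ι, S4RC P (GeoC.sel G i)) (h1' : ∀ i : ℕ → ι, OneRC P (GeoC.sel G i))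
    {g1 g0 x0 : ℝ} (hg1 : g1 ≤ 1 / 8) (hg0 : g0 ≤ 1 / 5)
    (hA : AwP P (-(3 / 16)) (5 / 16)) (hcv : ∀ i : ℕ → ι, CurG g1 g0 (GeoC.sel G i))
    (hx0 : 0 < x0) {K : ι → ℝ → ℕ → KD}
    {kD : ι → ℝ → ℕ → Bool → ℂ → ℂ} {cw : ι → ℝ → ℕ → HT → HT → ℝ × ℝ → Ch6 × Ch6 → ℝ}
    (hC : ClsFC P g1 g0 x0 K kD cw) (hBs : BsF P g1 g0 x0 K G)
    (cw0 : ∀ i ep m t t' y u, 0 ≤ cw i ep m t t' y u)
    (cwo : ∀ i ep m t t' y u, cw i ep m t t' y u ≠ 0 → okC6 t u.1 ∧ okC6 t' u.2)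
    (f : ι → ℝ → ℕ → HT → Ch6 → ℝ → ℝ) :
    SumBdP P (fun i => ltG (f i) (mN i) (G i).MF) (fun i => (G i).EM) (fun i => (G i).MF) K kD cw := by
  intro ρ hρ
  obtain ⟨κ0, hκ0, hκ1, H⟩ := clsRC hP G mN hB hS hspec h4 h1 h4' h1' hg1 hg0 hA hcv hρ
  refine ⟨min κ0 x0, lt_min hκ0 hx0, (min_le_left _ _).trans hκ1, fun ep hep hep1 => ?_⟩
  have hep2 : ep ≤ κ0 := hep1.trans (min_le_left _ _)
  have hep3 : ep ≤ x0 := hep1.trans (min_le_right _ _)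
  obtain ⟨J, hJ0, hJ⟩ : ∃ J : ℝ, 0 ≤ J ∧ Real.exp (-(2 * Real.pi * J)) ≤ κ0 := by
    refine ⟨max 0 (-Real.log κ0), le_max_left _ _, ?_⟩
    have hpi := Real.pi_gt_three
    have h1 : -Real.log κ0 ≤ 2 * Real.pi * max 0 (-Real.log κ0) := by
      have h2 := le_max_right 0 (-Real.log κ0)
      have h3 := le_max_left 0 (-Real.log κ0)
      nlinarith
    calc Real.exp (-(2 * Real.pi * max 0 (-Real.log κ0))) ≤ Real.exp (Real.log κ0) :=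
          Real.exp_le_exp.2 (by linarith)
      _ = κ0 := Real.exp_log hκ0
  obtain ⟨Cst, hCst, M0, hM0⟩ := H ep hep hep2 ep hep hep2 J hJ0 hJ
  obtain ⟨n0, h0⟩ := hC.cls ep hep hep3
  obtain ⟨n2, h2⟩ := hC.clsD ep hep hep3
  obtain ⟨n3, h3⟩ := hBs ep hep hep3
  refine ⟨J, hJ0, Cst, hCst, max (max M0 n0) (max n2 n3), fun m hm i => ?_⟩
  obtain ⟨hma, hmb⟩ := max_le_iff.1 hm
  obtain ⟨g0', g1'⟩ := max_le_iff.1 hma
  obtain ⟨g2', g3'⟩ := max_le_iff.1 hmb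
  obtain ⟨hcur, hSD⟩ := hM0 m g0' i
  obtain ⟨κ, E0, hbs⟩ := h3 m g3' i
  obtain ⟨hSS, hD⟩ := hSD _ _ κ E0 hbs fun g => rfl
  have hA' : 0 ≤ Cst * (m : ℝ) ^ ρ * Real.exp ((G i).EM m) := by positivity
  refine ⟨fun t t' => ?_, fun o => ?_⟩
  · filter_upwards [h0 m g1' i t t'] with y hy
    refine cls_lesC hy hcur (cw0 i ep m t t' y) (fun u => QL6_nonneg _ hA' t t' y u) fun u hu => ?_
    obtain ⟨k1, k2⟩ := cwo i ep m t t' y u hu
    exact hSS t t' u k1 k2 y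
  · filter_upwards [h2 m g2' i o] with y hy
    exact cls_leDC hy hcur (QGD_nonneg hA' o y) (hD o y)

/-- **own and direct factors of all classes** from those of the letters -/
theorem clOkY_of {ι : Type*} {MF : ι → ℕ → Bool → NUSp.Cl → ℂ → ℝ} {K : ι → ℝ → ℕ → KD}
    {kD : ι → ℝ → ℕ → Bool → ℂ → ℂ} {f : ι → ℝ → ℕ → HT → Ch6 → ℝ → ℝ} {mN : ι → MNC}
    (hdir : ∃ CG : ℝ, 0 ≤ CG ∧ ∀ (t t' : HT) (u u' : Ch6), okC6 t u → okC6 t' u' → ∀ τ τ' : ℝ,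
      gO6 t t' u u' (vl (htL t) τ) (vl (htL t') τ') ≤
        CG * Real.exp (-((qh6 t u * qh6 t' u' + 1) / 2) * |τ - τ'|))
    (hown : ∀ ep : ℝ, 0 < ep → ep ≤ 1 / 100 → ∃ C : ℝ, 0 ≤ C ∧ ∃ m0 : ℕ, ∀ m ≥ m0,
      ∀ (i : ι) (a : Bool) (t : HT) (u : Ch6), okC6 t u → ∀ τ : ℝ,
        own6 (K i ep m) a t u (vl (htL t) τ) * Real.exp (MEC (mN i) (MF i) m a t u τ) ≤
          C * f i ep m t u τ * Real.exp (-|τ|) * cut (Real.log m) ep (qh6 t u) τ)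
    (hownD : ∀ ep : ℝ, 0 < ep → ep ≤ 1 / 100 → ∃ C : ℝ, 0 ≤ C ∧ ∃ m0 : ℕ, ∀ m ≥ m0,
      ∀ i : ι, OwnDLe (kD i ep m) (MF i) m C)
    (f0 : ∀ i ep m t u τ, 0 ≤ f i ep m t u τ) (f1 : ∀ i ep m t u τ, f i ep m t u τ ≤ 1) :
    ClOkY (fun i => ltG (f i) (mN i) (MF i)) MF K kD
      (fun i ep m t t' y u => cw6 (K i ep m) t t' (vl (htL t) y.1) (vl (htL t') y.2) u) where
  cw0 i ep m t t' y u := cw6_nonneg _ _ _ _ _ _
  cwo i ep m t t' y u h := cw6_ok _ h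
  own ep hep hep1 := by
    obtain ⟨CG, hCG, hdir⟩ := hdir
    obtain ⟨C, hC, m0, hown⟩ := hown ep hep hep1
    refine ⟨C, CG, hC, hCG, m0, fun m hm i t t' y u => ?_⟩
    have c1 := cut_nonneg (Real.log m) ep (qh6 t u.1) y.1
    have c2 := cut_nonneg (Real.log m) ep (qh6 t' u.2) y.2
    have a1 := f0 i ep m t u.1 y.1
    have a2 := f0 i ep m t' u.2 y.2
    by_cases hu : okC6 t u.1 ∧ okC6 t' u.2
    · refine ⟨own6 (K i ep m) true t u.1 (vl (htL t) y.1), own6 (K i ep m) false t' u.2 (vl (htL t') y.2),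
        gO6 t t' u.1 u.2 (vl (htL t) y.1) (vl (htL t') y.2), own6_nonneg _ _ _ _ _,
        gO6_nonneg _ _ _ _ _ _, (pre_wt6 (K i ep m) hu.1 hu.2 _ _).le, hown m hm i true t u.1 hu.1 y.1,
        hown m hm i false t' u.2 hu.2 y.2, hdir t t' u.1 u.2 hu.1 hu.2 y.1 y.2⟩
    · refine ⟨0, 0, 0, le_rfl, le_rfl, ?_, ?_, ?_, ?_⟩
      · have h0 : cw6 (K i ep m) t t' (vl (htL t) y.1) (vl (htL t') y.2) u = 0 := if_neg hu
        show ‖((K i ep m).cl t t').pre (vl (htL t) y.1) (vl (htL t') y.2)‖ *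
          cw6 (K i ep m) t t' (vl (htL t) y.1) (vl (htL t') y.2) u ≤ 0 * 0 * 0
        rw [h0]
        simp
      · rw [zero_mul]
        show 0 ≤ C * f i ep m t u.1 y.1 * Real.exp (-|y.1|) * cut (Real.log m) ep (qh6 t u.1) y.1
        positivity
      · rw [zero_mul]
        show 0 ≤ C * f i ep m t' u.2 y.2 * Real.exp (-|y.2|) * cut (Real.log m) ep (qh6 t' u.2) y.2
        positivity
      · positivity
  ownD := hownD
  f0 := f0
  f1 := f1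
  ph i t u _ := by
    show ph6 t u = _ ∨ 5 * l ≤ ph6 t u
    by_cases h : bc6 t u = .w
    · left
      unfold ph6
      rw [h]
      rfl
    · exact Or.inr (ph6_big h)

end PLT

end
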