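import Pool.Agent.PLT.BYD
import Pool.Agent.PLT.OthYS
import Pool.Agent.PLT.AnF
import Pool.Agent.PHK.Mst6

/-!
# The regular function of the content on the neighbourhood of the path: the mass

* `SB`: the sum over the numbers of quanta of `YB`;
* `ok6_slit`, `SB_slit`: on the imaginary axis `SB` does not depend on the cutoff; **`SB_cut`**: nor on `Nz de`
  (identity theorem);
* `small_of`: the mass for small `ep`; **`main_of`**: the mass at `ep = 1 / 100`.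
-/

set_option autoImplicit false
set_option linter.unusedSectionVars false

noncomputable section

open Complex MeasureTheory Finset
open scoped ENNReal
open PLX (Fil Ends)

namespace PLT.BY

open NUP1 NUP1S NURow
open NUGC.PLX (beC htL)
open Pa (pz qz Nz Nz_open pz_slit qz_slit)
open PBX (gP Rws GOk.gP)
open PHK (Par6 gO lnP)
open PBU.PLX (T1L)
open Pool.Agent.PLX (RU rwq yq)
open PBQ.PLX (KD)
open PBR.PLX (Ch6)
open PBO.PLX (LtS)

variable [Fil]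

/-- **the sum over the numbers of quanta** -/
def SB (a0 b0 : ℕ) (ep : ℝ) (m : ℕ) (D : ℂ) : ℂ := ∑ n ∈ range (2 * m + 1), YB a0 b0 ep m D n

/-! ### no dependence on the cutoff -/

theorem slit_mul (s : ℝ) : (s : ℂ) * I = I * (s : ℂ) := mul_comm _ _

theorem xB_slit_re {a0 b0 : ℕ} (ha : 0 < a0) (hb : 0 < b0) (m : ℕ) (s : ℝ) (i : Fin m) :
    (xB a0 b0 m (I * s) i).re = 0 := by
  have hA : (0 : ℝ) < a0 := by exact_mod_cast ha
  have hB : (0 : ℝ) < b0 := by exact_mod_cast hb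
  unfold xB
  split_ifs
  · rw [pz_slit hA hB]
    simp
  · rw [qz_slit hA hB]
    simp
  · rfl

theorem eB_slit_re {a0 b0 : ℕ} (ha : 0 < a0) (hb : 0 < b0) (m : ℕ) (s : ℝ) :
    (eB a0 b0 m (I * s)).re = 0 := by
  have hA : (0 : ℝ) < a0 := by exact_mod_cast ha
  have hB : (0 : ℝ) < b0 := by exact_mod_cast hb
  unfold eB
  split_ifs
  · rw [qz_slit hA hB]
    simp
  · rfl

/-- **the data are admissible on the imaginary axis** -/
theorem ok6_slit {a0 b0 : ℕ} (ha : 0 < a0) (hb : 0 < b0) {ep : ℝ} (h0 : 0 < ep) (h1 : ep ≤ 1 / 100) (m : ℕ)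
    (s : ℝ) : (RB a0 b0 ep m (I * s)).Ok6 := by
  have hl := Bd.l_pos
  have hx : ∀ i, (xB a0 b0 m (I * s) i).re = 0 := xB_slit_re ha hb m s
  have hy : ∀ j, (yq (xB a0 b0 m (I * s)) j).re = 0 := fun j => hx _
  have hp := eB_slit_re ha hb m s
  have b1 : 0 < beC ep := by unfold NUGC.PLX.beC; linarith
  have b2 : beC ep ≤ 4 / 3 := by unfold NUGC.PLX.beC; linarith
  have hW : ∀ w ∈ [I, -I], |w.re| ≤ l / 2 := by
    intro w hw
    have hw' : w = I ∨ w = -I := by simpa using hw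
    rcases hw' with rfl | rfl <;> simp <;> linarith
  have hz : |(0 : ℝ)| ≤ l / 2 := by rw [abs_zero]; linarith
  have hn : (0 : ℝ) ≠ l / 4 := by intro h; linarith
  have kx : Rws (xB a0 b0 m (I * s)) := fun i => by rw [hx]; exact hz
  have ky : Rws (yq (xB a0 b0 m (I * s))) := fun i => by rw [hy]; exact hz
  have kp : |(eB a0 b0 m (I * s)).re| ≤ l / 2 := by rw [hp]; exact hz
  exact {
    b0 := b1
    b1 := b2
    hx := kx
    hy := ky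
    hp := kp
    hq := kp
    nx := fun i => by show (xB a0 b0 m (I * s) i).re ≠ l / 4; rw [hx]; exact hn
    ny := fun i => by show (yq (xB a0 b0 m (I * s)) i).re ≠ l / 4; rw [hy]; exact hn
    gg := GOk.gP b1 b2 hW
    gg' := GOk.gP b1 b2 hW
    gg0 := PHK.goN_gO kx (by simp)
    gg0' := PHK.goN_gO ky (by simp) }

theorem parTh_mem (k : O3) : lnP parTh k ∈ Set.Icc (PHK.loV (some k)) (PHK.hiV (some k)) := by
  have hl := Bd.l_pos
  cases k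
  · show (1 - parTh.jL) * l ∈ Set.Icc (-(5 / 4) * l) (-(101 / 100) * l)
    unfold parTh
    constructor <;> nlinarith
  · show -((1 + parTh.e) * l) ∈ Set.Icc (-(29 / 20) * l) (-(5 / 4) * l)
    unfold parTh
    constructor <;> nlinarith
  · show -(1 / 2 * l) ∈ Set.Icc (-(1 / 2) * l) (-(1 / 2) * l)
    constructor <;> linarith

theorem xn_mul (m : ℕ) : (Fil.q - 1) * m + m = Fil.q * m := by
  have hq := Fil.one_le_q
  obtain ⟨q, hq'⟩ : ∃ q, Fil.q = q + 1 := ⟨Fil.q - 1, by omega⟩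
  rw [hq', Nat.add_sub_cancel]
  ring

theorem fin_slit {a0 b0 : ℕ} (ha : 0 < a0) (hb : 0 < b0) {ep ep' : ℝ} (h0 : 0 < ep) (h1 : ep ≤ 1 / 100)
    (h0' : 0 < ep') (h1' : ep' ≤ 1 / 100) (m n : ℕ) (s : ℝ) :
    (RB a0 b0 ep m (I * s)).fin parTh n (n + Fil.xn m) = (RB a0 b0 ep' m (I * s)).fin parTh n (n + Fil.xn m) := by
  obtain ⟨P0, hP0, L0⟩ := PBR.PLX.exists_par
  have hb1 : 1 < beC ep := by unfold NUGC.PLX.beC; linarith
  have hb1' : 1 < beC ep' := by unfold NUGC.PLX.beC; linarith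
  have hq : (Fil.q - 1) * m + m = Fil.q * m := xn_mul m
  have e : n + Fil.q * m = n + Fil.xn m + m := by
    show n + Fil.q * m = n + (Fil.q - 1) * m + m
    rw [← hq, add_assoc]
  exact RU.Ok6.fin_cut (ok6_slit ha hb h0 h1 m s) (ok6_slit ha hb h0' h1' m s) hb1 hb1' rfl rfl rfl rfl rfl rfl e
    hP0 L0 parTh_mem

theorem SB_slit {a0 b0 : ℕ} (ha : 0 < a0) (hb : 0 < b0) {ep ep' : ℝ} (h0 : 0 < ep) (h1 : ep ≤ 1 / 100)
    (h0' : 0 < ep') (h1' : ep' ≤ 1 / 100) (m : ℕ) (s : ℝ) :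
    SB a0 b0 ep m (I * s) = SB a0 b0 ep' m (I * s) := by
  refine Finset.sum_congr rfl fun n _ => ?_
  rw [YB, YB, fin_slit ha hb h0 h1 h0' h1' m n s]

/-- **no dependence on the cutoff** -/
theorem SB_cut {a0 b0 : ℕ} (ha : 0 < a0) (hb : 0 < b0) {de : ℝ} (hde : 0 < de) {ep ep' : ℝ} (h0 : 0 < ep)
    (h1 : ep ≤ 1 / 100) (h0' : 0 < ep') (h1' : ep' ≤ 1 / 100) {m : ℕ}
    (hA : DifferentiableOn ℂ (SB a0 b0 ep m) (Nz de)) (hA' : DifferentiableOn ℂ (SB a0 b0 ep' m) (Nz de))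
    {D : ℂ} (hD : D ∈ Nz de) : SB a0 b0 ep m D = SB a0 b0 ep' m D := by
  have hl := Bd.l_pos
  have c0 : (0 : ℂ) ∈ Nz de := ⟨by simp [hde], by simp; linarith, by simp [hde]⟩
  have hc : IsPreconnected (Nz de) := by
    have e : Nz de = (Complex.reLm ⁻¹' Set.Ioo (-de) (l + de)) ∩ (Complex.imLm ⁻¹' Set.Ioo (-de) de) := by
      ext z
      constructor
      · rintro ⟨h1, h2, h3⟩
        exact ⟨⟨h1, h2⟩, abs_lt.1 h3⟩
      · rintro ⟨⟨h1, h2⟩, h3⟩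
        exact ⟨h1, h2, abs_lt.2 h3⟩
    rw [e]
    exact (((convex_Ioo _ _).linear_preimage Complex.reLm).inter
      ((convex_Ioo _ _).linear_preimage Complex.imLm)).isPreconnected
  refine (hA.analyticOnNhd (Nz_open de)).eqOn_of_preconnected_of_frequently_eq
    (hA'.analyticOnNhd (Nz_open de)) hc c0 ?_ hD
  have hf : Filter.Tendsto (fun k : ℕ => I * (((1 : ℝ) / (k + 1) : ℝ) : ℂ)) Filter.atTop
      (nhdsWithin (0 : ℂ) {0}ᶜ) := by
    rw [tendsto_nhdsWithin_iff]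
    constructor
    · have h2 : Filter.Tendsto (fun k : ℕ => (1 : ℝ) / (k + 1)) Filter.atTop (nhds 0) :=
        tendsto_one_div_add_atTop_nhds_zero_nat
      have h3 := (Complex.continuous_ofReal.tendsto (0 : ℝ)).comp h2
      have h4 := h3.const_mul I
      simpa using h4
    · refine Filter.Eventually.of_forall fun k => ?_
      have hk : ((1 : ℝ) / (k + 1)) ≠ 0 := by positivity
      simp only [Set.mem_compl_iff, Set.mem_singleton_iff, mul_eq_zero, I_ne_zero, false_or]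
      exact_mod_cast hk
  exact hf.frequently (Filter.Frequently.of_forall fun k => SB_slit ha hb h0 h1 h0' h1' m _)

/-! ### the mass -/

section mass

attribute [local instance] _root_.PLX.ends0

variable {a0 b0 : ℕ} {S : Set ℂ} {T : S → LtS} {EM : S → ℕ → ℝ} {MF : S → ℕ → Bool → NUSp.Cl → ℂ → ℝ}
  {cw : S → ℝ → ℕ → HT → HT → ℝ × ℝ → Ch6 × Ch6 → ℝ}

/-- **the mass for small `ep`** -/
theorem small_of
    (hS : SumBdP parTh T EM MF (fun D ep m => KB a0 b0 ep m D) (fun D ep m => kDB a0 b0 ep m D) cw)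
    (hK : ClOkY T MF (fun D ep m => KB a0 b0 ep m D) (fun D ep m => kDB a0 b0 ep m D) cw)
    (hp : ∃ (C : ℝ) (m0 : ℕ), ∀ m ≥ m0, ∀ D : S, ‖preB a0 b0 m D‖ * Real.exp (EM D m) ≤ C)
    {ε : ℝ} (hε : 0 < ε) : ∃ ep0 : ℝ, 0 < ep0 ∧ ep0 ≤ 1 / 100 ∧ ∀ ep : ℝ, 0 < ep → ep ≤ ep0 →
      ∃ (C : ℝ) (m0 : ℕ), 0 ≤ C ∧ ∀ m ≥ m0, ∀ D ∈ S, ‖SB a0 b0 ep m D‖ ≤ C * (m : ℝ) ^ ε := by
  obtain ⟨C0, n0, hp⟩ := hp
  obtain ⟨ep0, h0, h1, H⟩ := othY hS hK ε hε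
  refine ⟨ep0, h0, h1, fun ep hep hep1 => ?_⟩
  obtain ⟨Cst, m0, hC, -, H⟩ := H ep hep hep1
  refine ⟨cFin * 18 * (Cst * max C0 0), max m0 n0,
    mul_nonneg (mul_nonneg cFin_nonneg (by norm_num)) (mul_nonneg hC (le_max_right _ _)),
    fun m hm D hD => ?_⟩
  obtain ⟨e1, e2⟩ := H m ((le_max_left _ _).trans hm) ⟨D, hD⟩
  have e3 := hp m ((le_max_right _ _).trans hm) ⟨D, hD⟩
  have e4 : 0 ≤ (m : ℝ) ^ ε := by positivity
  refine (YB_le (C := Cst * max C0 0) (V := (m : ℝ) ^ ε) e1 e2 ?_).trans_eq (by ring)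
  calc ‖preB a0 b0 m D‖ * (Cst * (m : ℝ) ^ ε * Real.exp (EM ⟨D, hD⟩ m)) =
      Cst * (m : ℝ) ^ ε * (‖preB a0 b0 m D‖ * Real.exp (EM ⟨D, hD⟩ m)) := by ring
    _ ≤ Cst * (m : ℝ) ^ ε * max C0 0 :=
        mul_le_mul_of_nonneg_left (e3.trans (le_max_left _ _)) (by positivity)
    _ = _ := by ring

end mass

/-- **the mass at any `ep`** from the mass at small `ep` -/
theorem main_of {a0 b0 : ℕ} (ha : 0 < a0) (hb : 0 < b0) {de : ℝ} (hde : 0 < de)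
    (hA : ∀ ep : ℝ, 0 < ep → ep ≤ 1 / 100 → ∀ m : ℕ, DifferentiableOn ℂ (SB a0 b0 ep m) (Nz de))
    (hS : ∀ ε : ℝ, 0 < ε → ∃ ep0 : ℝ, 0 < ep0 ∧ ep0 ≤ 1 / 100 ∧ ∀ ep : ℝ, 0 < ep → ep ≤ ep0 →
      ∃ (C : ℝ) (m0 : ℕ), 0 ≤ C ∧ ∀ m ≥ m0, ∀ D ∈ Nz de, ‖SB a0 b0 ep m D‖ ≤ C * (m : ℝ) ^ ε)
    {ep : ℝ} (hep : 0 < ep) (hep1 : ep ≤ 1 / 100) {ε : ℝ} (hε : 0 < ε) :
    ∀ᶠ k : ℕ in Filter.atTop, ∀ D ∈ Nz de, ‖SB a0 b0 ep (k * (a0 + b0)) D‖ ≤ (k : ℝ) ^ ε := by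
  obtain ⟨ep0, h0, h1, H⟩ := hS (ε / 2) (by positivity)
  obtain ⟨C, m0, hC, H⟩ := H ep0 h0 le_rfl
  have hs : 0 < a0 + b0 := by omega
  have hC' : 0 ≤ C * ((a0 + b0 : ℕ) : ℝ) ^ (ε / 2) := by positivity
  have hev : ∀ᶠ k : ℕ in Filter.atTop, C * ((a0 + b0 : ℕ) : ℝ) ^ (ε / 2) ≤ (k : ℝ) ^ (ε / 2) :=
    ((tendsto_rpow_atTop (by positivity : 0 < ε / 2)).comp tendsto_natCast_atTop_atTop).eventually_ge_atTop _
  filter_upwards [hev, Filter.eventually_ge_atTop m0, Filter.eventually_ge_atTop 1] with k hk hk0 hk1 D hD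
  have hkm : m0 ≤ k * (a0 + b0) := hk0.trans (Nat.le_mul_of_pos_right k hs)
  rw [SB_cut ha hb hde hep hep1 h0 h1 (hA _ hep hep1 _) (hA _ h0 h1 _) hD]
  refine (H _ hkm D hD).trans ?_
  have hk' : (0 : ℝ) < k := by exact_mod_cast hk1
  have e1 : ((k * (a0 + b0) : ℕ) : ℝ) ^ (ε / 2) = (k : ℝ) ^ (ε / 2) * ((a0 + b0 : ℕ) : ℝ) ^ (ε / 2) := by
    rw [Nat.cast_mul, Real.mul_rpow (by positivity) (by positivity)]
  have e2 : (k : ℝ) ^ ε = (k : ℝ) ^ (ε / 2) * (k : ℝ) ^ (ε / 2) := by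
    rw [← Real.rpow_add hk']
    congr 1
    ring
  have e3 : 0 ≤ (k : ℝ) ^ (ε / 2) := by positivity
  rw [e1, e2]
  calc C * ((k : ℝ) ^ (ε / 2) * ((a0 + b0 : ℕ) : ℝ) ^ (ε / 2)) =
      (C * ((a0 + b0 : ℕ) : ℝ) ^ (ε / 2)) * (k : ℝ) ^ (ε / 2) := by ring
    _ ≤ (k : ℝ) ^ (ε / 2) * (k : ℝ) ^ (ε / 2) := mul_le_mul_of_nonneg_right hk e3

end PLT.BY

end
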