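import Pool.Agent.PLT.ClsB
import Pool.Agent.PLT.OthYS

/-!
# The class formulas of a family of regular functions on complex curves

* **`clsFC_of`**: `ClsFC` from the records `RGC`;
* **`bsF_of`**: `BsF` from the same records and the literal of the one body data of the geometry.
-/

set_option autoImplicit false
set_option linter.unusedSectionVars false

noncomputable section

open Complex MeasureTheory Finset
open scoped ENNReal

open PLX (Fil Ends)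

namespace PLT.BY

open NUO NUP1 NUP1S NUP1S.Ab NUP1S.AbC NURow NUCR NUP1.Leg NUGC.PLX PBR.PLX
open PHK
open PLT.Lg
open Pool.Agent.PLX (RU)
open PBQ.PLX (KD)

variable [Fil] [Ends] {ι : Type*} {P : Par6} {g1 g0 x0 c0 xa xb : ℝ} {mm MM : ι → ℕ → ℕ}
  {D : ∀ (i : ι) (_ : ℝ) (m : ℕ), RU (mm i m) (MM i m)} {ex : Bool → List ℂ} {K : ι → ℝ → ℕ → KD}

/-- **The class formulas of a family.** -/
theorem clsFC_of [LnP P] (kD : ι → ℝ → ℕ → Bool → ℂ → ℂ)
    (hK : ∀ i ep m, (K i ep m).Z = XB (D i ep m).X (D i ep m).Y)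
    (hD : ∀ ep : ℝ, 0 < ep → ep ≤ x0 → ∃ m0 : ℕ, ∀ m ≥ m0, ∀ i : ι,
      RGC (D i ep m) ex c0 P (-(g1 + ep / 4)) (g0 + ep / 4) xa xb (Fil.xe m)) :
    ClsFC P g1 g0 x0 K kD fun i ep m t t' y u =>
      cw6 (K i ep m) t t' (vl (htL t) y.1) (vl (htL t') y.2) u where
  cls ep h0 h1 := by
    obtain ⟨m0, hm⟩ := hD ep h0 h1
    exact ⟨m0, fun m hm' i t t' => (hm m hm' i).clsV (hK i ep m) t t'⟩
  clsD ep h0 h1 := by
    obtain ⟨m0, hm⟩ := hD ep h0 h1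
    exact ⟨m0, fun m hm' i o => Filter.Eventually.of_forall fun y =>
      (hm m hm' i).clsD (hK i ep m) o y⟩

/-- **The base data of a family.** -/
theorem bsF_of {G : ι → GeoC} (hK : ∀ i ep m, (K i ep m).Z = XB (D i ep m).X (D i ep m).Y)
    (hD : ∀ ep : ℝ, 0 < ep → ep ≤ x0 → ∃ m0 : ℕ, ∀ m ≥ m0, ∀ i : ι,
      RGC (D i ep m) ex c0 P (-(g1 + ep / 4)) (g0 + ep / 4) xa xb (Fil.xe m))
    (hG : ∀ ep : ℝ, 0 < ep → ep ≤ x0 → ∀ (i : ι) (m : ℕ) (g : Bool → ℂ → ℝ),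
      ((G i).B m (4 / 3 * (1 - ep))).mul g = obRU6 (D i ep m) ex c0 g) :
    BsF P g1 g0 x0 K G := by
  intro ep h0 h1
  obtain ⟨m0, hm⟩ := hD ep h0 h1
  refine ⟨m0, fun m hm' i => ?_⟩
  have h := (hm m hm' i).bs
  rw [← hK i ep m] at h
  exact ⟨_, _, h.congr (fun _ _ _ => rfl) fun g => (hG ep h0 h1 i m g).symm⟩

end PLT.BY

end
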