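import Pool.Agent.PLT.Level

/-!
# The level curve of a content with heights

`PLT/Level` for rows at complex places: weights `m i ≥ 0`, offsets `x i` and HEIGHTS `s i`.

* `SCh m x s v t = ∑ i, m i * Ag (v + x i) (t - s i)`, `PCh m x s z = ∑ i, m i * Pc (z + x i I - s i)`;
* `hasDerivAt_SCh_v`, `hasDerivAt_SCh_t`: the gradient is `2 π (Re, Im) PCh (t + i v)`; `PCh_re_pos`;
  `strictMono_SCh`; `contDiffAt_SCh`;
* `LevH m x s`: the curve exists; **`etaH m x s t`**, `etaH_mem`, `etaH_eq`, `etaH_unique`, `etaH_le`, `etaH_lt`,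
  `le_etaH`, `lt_etaH`, `SCh_pos`, `SCh_neg`;
* **`contDiff_etaH`**: the curve is real analytic; **`hasDerivAt_etaH`**: `η' = - Im PCh / Re PCh`;
* **`rhoH_eq`**: `PCh (t + i η) (1 + i η')` is the positive real number `rhoH m x s t`;
* height zero: `SCh_zero`, `PCh_zero`, `etaH_zero`, `rhoH_zero`; `SCh_refl`, `etaH_refl`: reflection of the heights;
  `SCh_shift`, `etaH_shift`: common shift of the heights.
-/

set_option autoImplicit false

noncomputable section

open MeasureTheory Set Filter Topology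
open scoped ContDiff

namespace PLT

open NUMF

variable {ι : Type*} [Fintype ι]

/-- the level function of a content with heights -/
def SCh (m x s : ι → ℝ) (v t : ℝ) : ℝ := ∑ i, m i * Ag (v + x i) (t - s i)

/-- the density of a content with heights -/
def PCh (m x s : ι → ℝ) (z : ℂ) : ℂ := ∑ i, (m i : ℂ) * Pc (z + x i * Complex.I - s i)

variable {m x s : ι → ℝ}

theorem shift_eqh (t v y c : ℝ) : (t : ℂ) + v * Complex.I + y * Complex.I - c =
    ((t - c : ℝ) : ℂ) + ((v + y : ℝ) : ℂ) * Complex.I := by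
  push_cast
  ring

theorem PCh_re (m x s : ι → ℝ) (v t : ℝ) : (PCh m x s ((t : ℂ) + v * Complex.I)).re =
    ∑ i, m i * (Pc (((t - s i : ℝ) : ℂ) + ((v + x i : ℝ) : ℂ) * Complex.I)).re := by
  unfold PCh
  rw [Complex.re_sum]
  refine Finset.sum_congr rfl fun i _ => ?_
  rw [shift_eqh, Complex.re_ofReal_mul]

theorem PCh_im (m x s : ι → ℝ) (v t : ℝ) : (PCh m x s ((t : ℂ) + v * Complex.I)).im =
    ∑ i, m i * (Pc (((t - s i : ℝ) : ℂ) + ((v + x i : ℝ) : ℂ) * Complex.I)).im := by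
  unfold PCh
  rw [Complex.im_sum]
  refine Finset.sum_congr rfl fun i _ => ?_
  rw [shift_eqh, Complex.im_ofReal_mul]

theorem hasDerivAt_SCh_v {v : ℝ} (hv : v ∈ Dm x) (t : ℝ) :
    HasDerivAt (fun v => SCh m x s v t)
      (2 * Real.pi * (PCh m x s ((t : ℂ) + v * Complex.I)).re) v := by
  have h : HasDerivAt (fun v => ∑ i, m i * Ag (v + x i) (t - s i))
      (∑ i, m i * (2 * Real.pi *
        (Pc (((t - s i : ℝ) : ℂ) + ((v + x i : ℝ) : ℂ) * Complex.I)).re)) v := by
    refine HasDerivAt.fun_sum fun i _ => ?_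
    have h1 := (hasDerivAt_Ag_v (hv i) (t - s i)).comp_add_const v (x i)
    exact h1.const_mul (m i)
  refine h.congr_deriv ?_
  rw [PCh_re, Finset.mul_sum]
  exact Finset.sum_congr rfl fun i _ => by ring

theorem hasDerivAt_SCh_t {v : ℝ} (hv : v ∈ Dm x) (t : ℝ) :
    HasDerivAt (fun t => SCh m x s v t)
      (2 * Real.pi * (PCh m x s ((t : ℂ) + v * Complex.I)).im) t := by
  have h : HasDerivAt (fun t => ∑ i, m i * Ag (v + x i) (t - s i))
      (∑ i, m i * (2 * Real.pi *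
        (Pc (((t - s i : ℝ) : ℂ) + ((v + x i : ℝ) : ℂ) * Complex.I)).im)) t := by
    refine HasDerivAt.fun_sum fun i _ => ?_
    exact ((hasDerivAt_Ag_t (hv i) (t - s i)).comp_sub_const t (s i)).const_mul (m i)
  refine h.congr_deriv ?_
  rw [PCh_im, Finset.mul_sum]
  exact Finset.sum_congr rfl fun i _ => by ring

/-- **the density is positive** -/
theorem PCh_re_pos (hm : Wt m) {v : ℝ} (hv : v ∈ Dm x) (t : ℝ) :
    0 < (PCh m x s ((t : ℂ) + v * Complex.I)).re := by
  obtain ⟨i, hi⟩ := hm.pos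
  rw [PCh_re]
  refine Finset.sum_pos' (fun j _ => mul_nonneg (hm.nn j) (Pc_re_pos (hv j) (t - s j)).le)
    ⟨i, Finset.mem_univ i, mul_pos hi (Pc_re_pos (hv i) (t - s i))⟩

/-- **the level function increases in the offset** -/
theorem strictMono_SCh (hm : Wt m) (t : ℝ) : StrictMonoOn (fun v => SCh m x s v t) (Dm x) := by
  refine strictMonoOn_of_deriv_pos (convex_Dm x)
    (fun v hv => (hasDerivAt_SCh_v (m := m) (s := s) hv t).continuousAt.continuousWithinAt)
    fun v hv => ?_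
  rw [(isOpen_Dm x).interior_eq] at hv
  rw [(hasDerivAt_SCh_v (m := m) (s := s) hv t).deriv]
  have := PCh_re_pos (s := s) hm hv t
  positivity

/-! ### smoothness -/

theorem contDiffAt_SCh {p : ℝ × ℝ} (hv : p.2 ∈ Dm x) :
    ContDiffAt ℝ ω (fun p : ℝ × ℝ => SCh m x s p.2 p.1) p := by
  unfold SCh
  refine ContDiffAt.sum fun i _ => contDiffAt_const.mul ?_
  have h1 : ContDiffAt ℝ ω (fun p : ℝ × ℝ => Ag (p.2 + x i) p.1) ((p.1 - s i, p.2) : ℝ × ℝ) :=
    contDiffAt_Ag (hv i)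
  have h2 : ContDiffAt ℝ ω (fun p : ℝ × ℝ => ((p.1 - s i, p.2) : ℝ × ℝ)) p :=
    ContDiffAt.prodMk (contDiffAt_fst.sub contDiffAt_const) contDiffAt_snd
  exact ContDiffAt.comp p h1 h2

/-! ### the curve -/

/-- the level curve exists -/
def LevH (m x s : ι → ℝ) : Prop := ∀ t, ∃ v ∈ Dm x, SCh m x s v t = 0

open Classical in
/-- **the level curve** -/
def etaH (m x s : ι → ℝ) (t : ℝ) : ℝ := if h : ∃ v ∈ Dm x, SCh m x s v t = 0 then h.choose else 0

theorem etaH_mem (h : LevH m x s) (t : ℝ) : etaH m x s t ∈ Dm x := by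
  unfold etaH
  rw [dif_pos (h t)]
  exact (h t).choose_spec.1

theorem etaH_eq (h : LevH m x s) (t : ℝ) : SCh m x s (etaH m x s t) t = 0 := by
  unfold etaH
  rw [dif_pos (h t)]
  exact (h t).choose_spec.2

theorem etaH_unique (hm : Wt m) (h : LevH m x s) {t v : ℝ} (hv : v ∈ Dm x)
    (h0 : SCh m x s v t = 0) : etaH m x s t = v :=
  (strictMono_SCh hm t).injOn (etaH_mem h t) hv ((etaH_eq h t).trans h0.symm)

theorem etaH_le (hm : Wt m) (h : LevH m x s) {t v : ℝ} (hv : v ∈ Dm x) (h0 : 0 ≤ SCh m x s v t) :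
    etaH m x s t ≤ v := by
  rw [← (strictMono_SCh hm t).le_iff_le (etaH_mem h t) hv]
  rw [etaH_eq h t]
  exact h0

theorem etaH_lt (hm : Wt m) (h : LevH m x s) {t v : ℝ} (hv : v ∈ Dm x) (h0 : 0 < SCh m x s v t) :
    etaH m x s t < v := by
  rw [← (strictMono_SCh hm t).lt_iff_lt (etaH_mem h t) hv]
  rw [etaH_eq h t]
  exact h0

theorem le_etaH (hm : Wt m) (h : LevH m x s) {t v : ℝ} (hv : v ∈ Dm x) (h0 : SCh m x s v t ≤ 0) :
    v ≤ etaH m x s t := by
  rw [← (strictMono_SCh hm t).le_iff_le hv (etaH_mem h t)]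
  rw [etaH_eq h t]
  exact h0

/-- the level function is positive above the curve -/
theorem SCh_pos (hm : Wt m) (h : LevH m x s) {t v : ℝ} (hv : v ∈ Dm x) (h0 : etaH m x s t < v) :
    0 < SCh m x s v t := by
  have := (strictMono_SCh (s := s) hm t) (etaH_mem h t) hv h0
  simp only at this
  rwa [etaH_eq h t] at this

/-- the level function is negative below the curve -/
theorem SCh_neg (hm : Wt m) (h : LevH m x s) {t v : ℝ} (hv : v ∈ Dm x) (h0 : v < etaH m x s t) :
    SCh m x s v t < 0 := by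
  have := (strictMono_SCh (s := s) hm t) hv (etaH_mem h t) h0
  simp only at this
  rwa [etaH_eq h t] at this

theorem lt_etaH (hm : Wt m) (h : LevH m x s) {t v : ℝ} (hv : v ∈ Dm x) (h0 : SCh m x s v t < 0) :
    v < etaH m x s t := by
  rw [← (strictMono_SCh (s := s) hm t).lt_iff_lt hv (etaH_mem h t)]
  rw [etaH_eq h t]
  exact h0

/-- **the curve exists if the level function changes its sign in a window** -/
theorem levH_of {lo hi : ℝ} (hlh : lo ≤ hi) (hw : ∀ v ∈ Icc lo hi, v ∈ Dm x)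
    (h1 : ∀ t, SCh m x s lo t ≤ 0) (h2 : ∀ t, 0 ≤ SCh m x s hi t) :
    ∀ t, ∃ v ∈ Icc lo hi, SCh m x s v t = 0 := by
  intro t
  have hc : ContinuousOn (fun v => SCh m x s v t) (Icc lo hi) := fun v hv =>
    (hasDerivAt_SCh_v (m := m) (s := s) (hw v hv) t).continuousAt.continuousWithinAt
  obtain ⟨v, hv, hv0⟩ := intermediate_value_Icc hlh hc ⟨h1 t, h2 t⟩
  exact ⟨v, hv, hv0⟩

theorem LevH.of_window {lo hi : ℝ} (hw : ∀ v ∈ Icc lo hi, v ∈ Dm x)
    (h : ∀ t, ∃ v ∈ Icc lo hi, SCh m x s v t = 0) : LevH m x s := fun t => by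
  obtain ⟨v, hv, h0⟩ := h t
  exact ⟨v, hw v hv, h0⟩

theorem etaH_mem_window (hm : Wt m) {lo hi : ℝ} (hw : ∀ v ∈ Icc lo hi, v ∈ Dm x)
    (h : ∀ t, ∃ v ∈ Icc lo hi, SCh m x s v t = 0) (t : ℝ) : etaH m x s t ∈ Icc lo hi := by
  obtain ⟨v, hv, h0⟩ := h t
  rw [etaH_unique hm (LevH.of_window hw h) (hw v hv) h0]
  exact hv

/-- the derivative of the level function in the plane -/
theorem fderiv_SCh {p : ℝ × ℝ} (hv : p.2 ∈ Dm x) (a b : ℝ) :
    fderiv ℝ (fun p : ℝ × ℝ => SCh m x s p.2 p.1) p (a, b) =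
      2 * Real.pi * (PCh m x s ((p.1 : ℂ) + p.2 * Complex.I)).im * a +
        2 * Real.pi * (PCh m x s ((p.1 : ℂ) + p.2 * Complex.I)).re * b := by
  obtain ⟨t, v⟩ := p
  have hf := ((contDiffAt_SCh (m := m) (s := s) hv).differentiableAt (by simp)).hasFDerivAt
  have h1 : HasDerivAt (fun r : ℝ => ((r, v) : ℝ × ℝ)) (1, 0) t :=
    (hasDerivAt_id t).prodMk (hasDerivAt_const t v)
  have h2 : HasDerivAt (fun r : ℝ => ((t, r) : ℝ × ℝ)) (0, 1) v :=
    (hasDerivAt_const v t).prodMk (hasDerivAt_id v)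
  have k1 := HasFDerivAt.comp_hasDerivAt (f := fun r : ℝ => ((r, v) : ℝ × ℝ)) t hf h1
  have k2 := HasFDerivAt.comp_hasDerivAt (f := fun r : ℝ => ((t, r) : ℝ × ℝ)) v hf h2
  have d1 := k1.unique (hasDerivAt_SCh_t (m := m) (s := s) hv t)
  have d2 := k2.unique (hasDerivAt_SCh_v (m := m) (s := s) hv t)
  have e : ((a, b) : ℝ × ℝ) = a • ((1, 0) : ℝ × ℝ) + b • ((0, 1) : ℝ × ℝ) := by
    ext <;> simp
  rw [e, map_add, map_smul, map_smul, d1, d2, smul_eq_mul, smul_eq_mul]
  ring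

/-- **the level curve is real analytic** -/
theorem contDiff_etaH (hm : Wt m) (h : LevH m x s) : ContDiff ℝ ω (etaH m x s) := by
  rw [contDiff_iff_contDiffAt]
  intro t
  obtain ⟨u, hu⟩ : ∃ u : ℝ × ℝ, u = (t, etaH m x s t) := ⟨_, rfl⟩
  have hu2 : u.2 ∈ Dm x := by rw [hu]; exact etaH_mem h t
  have cdf := contDiffAt_SCh (m := m) (s := s) hu2
  have hp := PCh_re_pos (s := s) hm hu2 u.1
  have hpi := Real.pi_pos
  obtain ⟨c, hc⟩ : ∃ c, c = 2 * Real.pi * (PCh m x s ((u.1 : ℂ) + u.2 * Complex.I)).re := ⟨_, rfl⟩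
  have hc0 : c ≠ 0 := by rw [hc]; positivity
  have inv : (fderiv ℝ (fun p : ℝ × ℝ => SCh m x s p.2 p.1) u ∘L .inr ℝ ℝ ℝ).IsInvertible := by
    refine ⟨ContinuousLinearEquiv.unitsEquivAut ℝ (Units.mk0 c hc0), ?_⟩
    ext
    simp only [ContinuousLinearMap.comp_apply, ContinuousLinearMap.inr_apply]
    rw [fderiv_SCh hu2]
    simp [hc]
  have h1 := cdf.contDiffAt_implicitFunction (by simp) inv
  have h2 := cdf.eventually_apply_implicitFunction (by simp) inv
  have h3 := cdf.implicitFunction_apply_self (by simp) inv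
  obtain ⟨ψ, hψ⟩ : ∃ ψ, ψ = cdf.implicitFunction (by simp) inv := ⟨_, rfl⟩
  rw [← hψ] at h1 h2 h3
  have ht : u.1 = t := by rw [hu]
  have hu2' : u.2 = etaH m x s t := by rw [hu]
  have h0 : SCh m x s u.2 u.1 = 0 := by rw [hu]; exact etaH_eq h t
  have h4 : ∀ᶠ r in 𝓝 u.1, ψ r ∈ Dm x :=
    h1.continuousAt.preimage_mem_nhds ((isOpen_Dm x).mem_nhds (by rw [h3]; exact hu2))
  have h5 : etaH m x s =ᶠ[𝓝 u.1] ψ := by
    filter_upwards [h2, h4] with r hs1 hs2
    exact etaH_unique hm h hs2 (by rw [h0] at hs1; exact hs1)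
  rw [← ht]
  exact h1.congr_of_eventuallyEq h5

/-- the derivative of the curve -/
def etaH' (m x s : ι → ℝ) (t : ℝ) : ℝ := -((PCh m x s ((t : ℂ) + etaH m x s t * Complex.I)).im /
  (PCh m x s ((t : ℂ) + etaH m x s t * Complex.I)).re)

/-- **`η' = - Im PC / Re PC`** -/
theorem hasDerivAt_etaH (hm : Wt m) (h : LevH m x s) (t : ℝ) :
    HasDerivAt (etaH m x s) (etaH' m x s t) t := by
  have hd := ((contDiff_etaH hm h).differentiable (by simp) t).hasDerivAt
  have hmem := etaH_mem h t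
  have hp := PCh_re_pos (s := s) hm hmem t
  have hpi := Real.pi_pos
  have hf := ((contDiffAt_SCh (m := m) (s := s) (p := (t, etaH m x s t)) hmem).differentiableAt
    (by simp)).hasFDerivAt
  have h1 : HasDerivAt (fun r : ℝ => ((r, etaH m x s r) : ℝ × ℝ)) (1, deriv (etaH m x s) t) t :=
    (hasDerivAt_id t).prodMk hd
  have d1 := hf.comp_hasDerivAt t h1
  have e : ((fun p : ℝ × ℝ => SCh m x s p.2 p.1) ∘ fun r : ℝ => (r, etaH m x s r)) = fun _ => 0 := by
    funext r
    exact etaH_eq h r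
  rw [e] at d1
  have d2 := d1.unique (hasDerivAt_const t 0)
  rw [fderiv_SCh hmem] at d2
  simp only [mul_one] at d2
  have e2 : deriv (etaH m x s) t = etaH' m x s t := by
    unfold etaH'
    rw [← neg_div, eq_div_iff hp.ne']
    have h3 : 2 * Real.pi * (deriv (etaH m x s) t *
        (PCh m x s ((t : ℂ) + etaH m x s t * Complex.I)).re +
        (PCh m x s ((t : ℂ) + etaH m x s t * Complex.I)).im) = 0 := by
      linear_combination d2
    have h4 := (mul_eq_zero.1 h3).resolve_left (by positivity)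
    linarith
  rw [← e2]
  exact hd

theorem continuous_etaH (hm : Wt m) (h : LevH m x s) : Continuous (etaH m x s) :=
  (contDiff_etaH hm h).continuous

theorem continuous_etaH' (hm : Wt m) (h : LevH m x s) : Continuous (etaH' m x s) := by
  have e : etaH' m x s = deriv (etaH m x s) := funext fun t => (hasDerivAt_etaH hm h t).deriv.symm
  rw [e]
  exact (contDiff_etaH hm h).continuous_deriv (by simp)

theorem contDiff_etaH' (hm : Wt m) (h : LevH m x s) : ContDiff ℝ ω (etaH' m x s) := by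
  have e : etaH' m x s = deriv (etaH m x s) := funext fun t => (hasDerivAt_etaH hm h t).deriv.symm
  rw [e]
  have h1 : ContDiff ℝ (ω + 1) (etaH m x s) := contDiff_etaH hm h
  exact (contDiff_succ_iff_deriv.1 h1).2.2

/-- the density along the curve -/
def rhoH (m x s : ι → ℝ) (t : ℝ) : ℝ := ‖PCh m x s ((t : ℂ) + etaH m x s t * Complex.I)‖ ^ 2 /
  (PCh m x s ((t : ℂ) + etaH m x s t * Complex.I)).re

/-- **the density along the curve is real and positive** -/
theorem rhoH_eq (hm : Wt m) (h : LevH m x s) (t : ℝ) :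
    PCh m x s ((t : ℂ) + etaH m x s t * Complex.I) * (1 + etaH' m x s t * Complex.I) =
      (rhoH m x s t : ℂ) := by
  have hp := PCh_re_pos (s := s) hm (etaH_mem h t) t
  obtain ⟨w, hw⟩ : ∃ w, w = PCh m x s ((t : ℂ) + etaH m x s t * Complex.I) := ⟨_, rfl⟩
  unfold rhoH etaH'
  rw [← hw] at hp ⊢
  have h1 : ‖w‖ ^ 2 = w.re ^ 2 + w.im ^ 2 := by
    rw [← Complex.normSq_eq_norm_sq, Complex.normSq_apply]
    ring
  rw [h1]
  obtain ⟨a, ha⟩ : ∃ a : ℝ, a = w.re := ⟨_, rfl⟩
  obtain ⟨b, hb⟩ : ∃ b : ℝ, b = w.im := ⟨_, rfl⟩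
  have hw2 : w = (a : ℂ) + b * Complex.I := by
    rw [ha, hb]
    exact (Complex.re_add_im w).symm
  rw [← ha] at hp ⊢
  rw [← hb, hw2]
  have ha0 : (a : ℂ) ≠ 0 := by exact_mod_cast hp.ne'
  push_cast
  field_simp
  linear_combination (-(b : ℂ) ^ 2) * Complex.I_sq

theorem rhoH_pos (hm : Wt m) (h : LevH m x s) (t : ℝ) : 0 < rhoH m x s t := by
  have hp := PCh_re_pos (s := s) hm (etaH_mem h t) t
  unfold rhoH
  have h1 : PCh m x s ((t : ℂ) + etaH m x s t * Complex.I) ≠ 0 := by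
    intro h0
    rw [h0] at hp
    simp at hp
  have := norm_pos_iff.2 h1
  positivity

/-- the density along the curve is at least the real part -/
theorem re_le_rhoH (hm : Wt m) (h : LevH m x s) (t : ℝ) :
    (PCh m x s ((t : ℂ) + etaH m x s t * Complex.I)).re ≤ rhoH m x s t := by
  have hp := PCh_re_pos (s := s) hm (etaH_mem h t) t
  unfold rhoH
  rw [le_div_iff₀ hp]
  have h1 := Complex.abs_re_le_norm (PCh m x s ((t : ℂ) + etaH m x s t * Complex.I))
  rw [abs_of_pos hp] at h1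
  nlinarith

/-! ### height zero, reflection, common shift -/

theorem SCh_zero (m x : ι → ℝ) (v t : ℝ) : SCh m x (fun _ => 0) v t = SC m x v t := by
  simp only [SCh, SC, sub_zero]

theorem PCh_zero (m x : ι → ℝ) (z : ℂ) : PCh m x (fun _ => 0) z = PC m x z := by
  simp only [PCh, PC, Complex.ofReal_zero, sub_zero]

theorem levH_zero (h : Lev m x) : LevH m x (fun _ => 0) := fun t => by
  obtain ⟨v, hv, h0⟩ := h t
  exact ⟨v, hv, by rw [SCh_zero]; exact h0⟩

theorem etaH_zero (hm : Wt m) (h : Lev m x) (t : ℝ) : etaH m x (fun _ => 0) t = eta m x t :=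
  etaH_unique hm (levH_zero h) (eta_mem h t) (by rw [SCh_zero]; exact eta_eq h t)

theorem rhoH_zero (hm : Wt m) (h : Lev m x) (t : ℝ) : rhoH m x (fun _ => 0) t = rho m x t := by
  unfold rhoH rho
  rw [etaH_zero hm h, PCh_zero]

/-- reflection of the heights -/
theorem SCh_refl (m x s : ι → ℝ) (v t : ℝ) : SCh m x (fun i => -s i) v (-t) = SCh m x s v t := by
  unfold SCh
  refine Finset.sum_congr rfl fun i _ => ?_
  rw [show -t - -s i = -(t - s i) by ring, Ag_neg_t]

theorem LevH.refl (h : LevH m x s) : LevH m x (fun i => -s i) := fun t => by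
  obtain ⟨v, hv, h0⟩ := h (-t)
  refine ⟨v, hv, ?_⟩
  have := SCh_refl m x s v (-t)
  rw [neg_neg] at this
  rw [this]
  exact h0

theorem etaH_refl (hm : Wt m) (h : LevH m x s) (t : ℝ) :
    etaH m x (fun i => -s i) (-t) = etaH m x s t :=
  etaH_unique hm h.refl (etaH_mem h t) (by rw [SCh_refl]; exact etaH_eq h t)

/-- common shift of the heights -/
theorem SCh_shift (m x s : ι → ℝ) (c v t : ℝ) : SCh m x (fun i => s i + c) v (t + c) =
    SCh m x s v t := by
  unfold SCh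
  refine Finset.sum_congr rfl fun i _ => ?_
  rw [show t + c - (s i + c) = t - s i by ring]

theorem LevH.shift (h : LevH m x s) (c : ℝ) : LevH m x (fun i => s i + c) := fun t => by
  obtain ⟨v, hv, h0⟩ := h (t - c)
  refine ⟨v, hv, ?_⟩
  have := SCh_shift m x s c v (t - c)
  rw [sub_add_cancel] at this
  rw [this]
  exact h0

theorem etaH_shift (hm : Wt m) (h : LevH m x s) (c t : ℝ) :
    etaH m x (fun i => s i + c) (t + c) = etaH m x s t :=
  etaH_unique hm (h.shift c) (etaH_mem h t) (by rw [SCh_shift]; exact etaH_eq h t)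

end PLT

end
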