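import Pool.Agent.PLT.CurveH
import Pool.Agent.PLT.LevelH

/-!
# The level curve of two rows at heights

* **`etaH_two`**: near the balanced contents of `[0, 1 - de]` the level curve `etaH (mT a b) (xT p q) ![s0, s1]` exists and
  is the curve of `curveH`: one `Ce`, for every `r > 0` one `ε > 0`.
-/

set_option autoImplicit false

noncomputable section

open Filter Topology Set NUMF
open scoped ContDiff

namespace PLT.CA

theorem SCh_two (a b p q s0 s1 v t : ℝ) : SCh (mT a b) (xT p q) ![s0, s1] v t =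
    a * Ag (v - p * l) (t - s0) + b * Ag (v + q * l) (t - s1) := by
  unfold SCh
  rw [Fin.sum_univ_two]
  show a * Ag (v + -(p * l)) (t - s0) + b * Ag (v + q * l) (t - s1) = _
  rw [sub_eq_add_neg v]

/-- the numbers of a content in `NearH` -/
theorem NearH.nums {de ε a b p q s0 s1 : ℝ} (h : NearH de ε a b p q s0 s1) : p < 1 - de + ε ∧
    -ε < p ∧ q < 1 / 2 + ε ∧ -ε < q ∧ 1 - 2 * ε < a + b := by
  obtain ⟨a', b', p', q', B, hab, hp, n1, n2, n3, n4, -, -⟩ := h
  rw [abs_lt] at n1 n2 n3 n4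
  have := B.q0
  have := B.qp
  have := B.pq
  refine ⟨by linarith, by linarith, by linarith, by linarith, by linarith⟩

/-- **the level curve of two rows at heights** -/
theorem etaH_two {de : ℝ} (d0 : 0 < de) (d1 : de ≤ 1 / 2) : ∃ Ce : ℕ → ℝ, (∀ n, 0 ≤ Ce n) ∧
    ∀ r > 0, ∃ ε > 0, ε ≤ de / 8 ∧ ∀ a b p q s0 s1 : ℝ, 0 ≤ a → 0 ≤ b → NearH de ε a b p q s0 s1 →
      Wt (mT a b) ∧ LevH (mT a b) (xT p q) ![s0, s1] ∧
      ∃ Lp Lm : ℝ, CvH r Ce a b p q s0 s1 (etaH (mT a b) (xT p q) ![s0, s1]) Lp Lm := by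
  obtain ⟨Ce, hCe, hm⟩ := curveH d0 d1
  refine ⟨Ce, hCe, fun r hr => ?_⟩
  have hl : 0 < l := by
    have := Real.pi_pos
    unfold l
    positivity
  obtain ⟨r', hr', h1, h2⟩ : ∃ r' > 0, r' ≤ r ∧ r' ≤ de / 8 * l :=
    ⟨min r (de / 8 * l), by positivity, min_le_left _ _, min_le_right _ _⟩
  obtain ⟨ε0, hε0, h3⟩ := hm r' hr'
  refine ⟨min ε0 (de / 8), by positivity, min_le_right _ _, fun a b p q s0 s1 ha hb hN => ?_⟩
  obtain ⟨η, Lp, Lm, H⟩ := h3 a b p q s0 s1 (hN.mono (min_le_left _ _))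
  obtain ⟨k1, k2, k3, k4, k5⟩ := (hN.mono (min_le_right _ _)).nums
  have hwt : Wt (mT a b) := by
    refine ⟨fun i => ?_, ?_⟩
    · fin_cases i
      · exact ha
      · exact hb
    · rcases eq_or_lt_of_le ha with h | h
      · refine ⟨1, ?_⟩
        show 0 < b
        linarith
      · exact ⟨0, h⟩
  have hD : ∀ v : ℝ, -r' ≤ v → v ≤ PLT.v0 + r' → v ∈ Dm (xT p q) := by
    intro v v1 v2
    have hv0 := PLT.v0_lt
    have e1 : p * l < (1 - de + de / 8) * l := mul_lt_mul_of_pos_right k1 hl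
    have e2 : -(de / 8) * l < p * l := mul_lt_mul_of_pos_right k2 hl
    have e3 : q * l < (1 / 2 + de / 8) * l := mul_lt_mul_of_pos_right k3 hl
    have e4 : -(de / 8) * l < q * l := mul_lt_mul_of_pos_right k4 hl
    have e5 : de * l ≤ 1 / 2 * l := mul_le_mul_of_nonneg_right d1 hl.le
    have e6 : 0 < de * l := by positivity
    rw [mem_Dm2, abs_lt, abs_lt]
    refine ⟨⟨by linarith, by linarith⟩, ⟨by linarith, by linarith⟩⟩
  have hz : ∀ t, SCh (mT a b) (xT p q) ![s0, s1] (η t) t = 0 := fun t => by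
    rw [SCh_two]
    exact H.eq t
  have hlev : LevH (mT a b) (xT p q) ![s0, s1] := fun t =>
    ⟨η t, hD _ (H.lo t) (H.hi t), hz t⟩
  have he : etaH (mT a b) (xT p q) ![s0, s1] = η := funext fun t =>
    etaH_unique hwt hlev (hD _ (H.lo t) (H.hi t)) (hz t)
  refine ⟨hwt, hlev, Lp, Lm, ?_⟩
  rw [he]
  exact ⟨H.eq, fun t => by linarith [H.lo t], fun t => by linarith [H.hi t], H.smooth,
    fun t => by linarith [H.slope t], fun t => by linarith [H.scal t], H.iter, H.limp, H.limm,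
    H.Lp_le.trans h1, H.Lm_le.trans h1⟩

end PLT.CA

end
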