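import Pool.Agent.PLT.WinD
import Pool.Agent.PLT.CurveHL

/-!
# The contents of the path of a direction are balanced contents

`0 < A ≤ B`: rows at `-pz A B D` and `qz A B D` in the proportions `A : B`, `D` complex near `[0, l]`.

* `wAB A B : Fin 2 → ℝ`: the weights `A / (A + B)`, `B / (A + B)`; `XAB A B D : Fin 2 → ℂ`: the places `-pz`, `qz`;
* `dAB A B`: the places keep the distance `dAB l` from `-l`, `eAB A B`: the second place the distance `eAB l` from `l / 2`
  (`A < B`); **`bal2_path`**: balanced for real separation; `places_path`: the places for `D ∈ Nz de`;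
* `pAB`, `qAB`, `sAB`, ``: offsets (units `l`) and heights; **`nearH_path`**: for every `ε > 0` there is `de > 0` such
  that all contents with `D ∈ Nz de` are in `CA.NearH (dAB A B) ε`; `XAB_re`, `XAB_im`: the places from offsets and heights.
-/

set_option autoImplicit false

noncomputable section

open Set

namespace PLT

open NUMF (l l_pos)

/-- the proportions of the two kinds of rows -/
def wAB (A B : ℝ) : Fin 2 → ℝ := mT (A / (A + B)) (B / (A + B))

/-- the places of the two kinds of rows -/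
def XAB (A B : ℝ) (D : ℂ) : Fin 2 → ℂ := ![-Pa.pz A B D, Pa.qz A B D]

@[simp] theorem XAB_zero (A B : ℝ) (D : ℂ) : XAB A B D 0 = -Pa.pz A B D := rfl

@[simp] theorem XAB_one (A B : ℝ) (D : ℂ) : XAB A B D 1 = Pa.qz A B D := rfl

@[simp] theorem wAB_zero (A B : ℝ) : wAB A B 0 = A / (A + B) := rfl

@[simp] theorem wAB_one (A B : ℝ) : wAB A B 1 = B / (A + B) := rfl

theorem wAB_nn {A B : ℝ} (hA : 0 < A) (hB : 0 < B) (i : Fin 2) : 0 ≤ wAB A B i := by
  fin_cases i
  · show 0 ≤ A / (A + B)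
    positivity
  · show 0 ≤ B / (A + B)
    positivity

theorem wAB_sum {A B : ℝ} (hA : 0 < A) (hB : 0 < B) : ∑ i, wAB A B i = 1 := by
  rw [Fin.sum_univ_two, wAB_zero, wAB_one, ← add_div, div_self (by positivity)]

theorem wAB_le {A B : ℝ} (hA : 0 < A) (hB : 0 < B) (i : Fin 2) : wAB A B i ≤ 1 := by
  rw [← wAB_sum hA hB]
  exact Finset.single_le_sum (fun i _ => wAB_nn hA hB i) (Finset.mem_univ i)

/-- distance of the places from `-l` -/
def dAB (A B : ℝ) : ℝ := min (1 / 2) (1 - Pa.pp A B l / l)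

theorem dAB_pos {A B : ℝ} (hA : 0 < A) (hB : 0 < B) : 0 < dAB A B := by
  have h1 : Pa.pp A B l < l := Pa.pp_l_lt hA hB
  have hl := l_pos
  refine lt_min (by norm_num) ?_
  rw [sub_pos, div_lt_one hl]
  exact h1

theorem dAB_le (A B : ℝ) : dAB A B ≤ 1 / 2 := min_le_left _ _

theorem ppl_dAB (A B : ℝ) : Pa.pp A B l ≤ (1 - dAB A B) * l := by
  have hl := l_pos
  have h2 : dAB A B ≤ 1 - Pa.pp A B l / l := min_le_right _ _
  have h3 : dAB A B * l ≤ l - Pa.pp A B l := by
    calc dAB A B * l ≤ (1 - Pa.pp A B l / l) * l := mul_le_mul_of_nonneg_right h2 hl.le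
      _ = l - Pa.pp A B l := by field_simp
  linarith

theorem pp_dAB {A B : ℝ} (hA : 0 < A) (hB : 0 < B) {th : ℝ} (h : th ∈ Icc 0 l) :
    Pa.pp A B th ≤ (1 - dAB A B) * l :=
  (Pa.pp_le_l hA hB h).trans (ppl_dAB A B)

/-- distance of the second place from `l / 2` (units `l`), `A < B` -/
def eAB (A B : ℝ) : ℝ := 1 / 2 - Pa.pp B A l / l

theorem eAB_pos {A B : ℝ} (hA : 0 < A) (hAB : A < B) : 0 < eAB A B := by
  have hl := l_pos
  have hB : 0 < B := hA.trans hAB
  have e1 : Real.cos (8 / 3 * l) = 1 / 2 := by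
    rw [show (8 / 3 * l : ℝ) = Real.pi / 3 from Pa.wl, Real.cos_pi_div_three]
  have e2 : Real.sin (8 / 3 * l) = √3 / 2 := by
    rw [show (8 / 3 * l : ℝ) = Real.pi / 3 from Pa.wl, Real.sin_pi_div_three]
  have h3 : (0 : ℝ) < √3 := Real.sqrt_pos.2 (by norm_num)
  have h33 : √3 * √3 = 3 := Real.mul_self_sqrt (by norm_num)
  have h1 : A * (√3 / 2) / (B + A * (1 / 2)) < 1 / √3 := by
    rw [div_lt_div_iff₀ (by positivity) h3]
    nlinarith
  have h2 : Real.arctan (A * (√3 / 2) / (B + A * (1 / 2))) < Real.pi / 6 := by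
    rw [← Real.arctan_tan (x := Real.pi / 6) (by linarith [Real.pi_pos]) (by linarith [Real.pi_pos]),
      Real.tan_pi_div_six]
    exact Real.arctan_strictMono h1
  have h4 : Pa.pp B A l < l / 2 := by
    unfold Pa.pp
    rw [e1, e2]
    have : (l : ℝ) / 2 = 3 / 8 * (Real.pi / 6) := by
      unfold NUMF.l
      ring
    rw [this]
    linarith
  have h5 : Pa.pp B A l / l < 1 / 2 := by
    rw [div_lt_iff₀ hl]
    linarith
  unfold eAB
  linarith

theorem qq_eAB {A B : ℝ} (hA : 0 < A) (hB : 0 < B) {th : ℝ} (h : th ∈ Icc 0 l) :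
    Pa.qq A B th ≤ (1 / 2 - eAB A B) * l := by
  have hl := l_pos
  rw [Pa.qq_symm hA hB h]
  have h1 : Pa.pp B A th ≤ Pa.pp B A l := Pa.pp_le_l hB hA h
  have e : (1 / 2 - eAB A B) * l = Pa.pp B A l := by
    unfold eAB
    field_simp
    ring
  rw [e]
  exact h1

/-- **the contents of the path are balanced** -/
theorem bal2_path {A B : ℝ} (hA : 0 < A) (hAB : A ≤ B) {th : ℝ} (h : th ∈ Icc 0 l) :
    Bal2 (A / (A + B)) (B / (A + B)) (Pa.pp A B th / l) (Pa.qq A B th / l) ∧
      Pa.pp A B th / l ≤ 1 - dAB A B := by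
  have hB : 0 < B := hA.trans_le hAB
  have hl := l_pos
  have hpq : Pa.pp A B th + Pa.qq A B th = th := by
    unfold Pa.qq
    ring
  have hd : Pa.pp A B th / l ≤ 1 - dAB A B := by
    rw [div_le_iff₀ hl]
    exact pp_dAB hA hB h
  refine ⟨⟨?_, ?_, ?_, ?_, by positivity, by positivity, ?_⟩, hd⟩
  · exact div_nonneg (Pa.qq_nonneg hA hB h) hl.le
  · exact div_le_div_of_nonneg_right (Pa.qq_le_pp hA hAB h) hl.le
  · rw [← add_div, hpq, div_le_one hl]
    exact h.2
  · have := dAB_pos hA hB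
    linarith
  · have e : ∀ x : ℝ, Real.pi * (x / l) / 3 = 8 / 3 * x := fun x => by
      have h8 : Real.pi = 8 * l := by
        unfold NUMF.l
        ring
      rw [h8]
      field_simp
    rw [e, e]
    have h1 := Pa.bal (A := A) (B := B) hA hB h
    have e2 : ∀ x y : ℝ, x / (A + B) * y = x * y / (A + B) := fun x y => by ring
    rw [e2, e2, h1]

/-- offset of the first kind of rows (they sit at `-pAB l`) -/
def pAB (A B : ℝ) (D : ℂ) : ℝ := (Pa.pz A B D).re / l

/-- offset of the second kind of rows -/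
def qAB (A B : ℝ) (D : ℂ) : ℝ := (Pa.qz A B D).re / l

/-- heights of the rows -/
def sAB (A B : ℝ) (D : ℂ) : Fin 2 → ℝ := ![-(Pa.pz A B D).im, (Pa.qz A B D).im]

/-- **the contents near real separation are near balanced contents** -/
theorem nearH_path {A B : ℝ} (hA : 0 < A) (hAB : A ≤ B) {ε : ℝ} (hε : 0 < ε) :
    ∃ de : ℝ, 0 < de ∧ de ≤ 1 / 20 ∧ ∀ D ∈ Pa.Nz de,
      CA.NearH (dAB A B) ε (A / (A + B)) (B / (A + B)) (pAB A B D) (qAB A B D)
        (-(Pa.pz A B D).im) (Pa.qz A B D).im := by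
  have hB : 0 < B := hA.trans_le hAB
  have hl := l_pos
  have hl1 : l < 1 := by
    unfold NUMF.l
    linarith [Real.pi_lt_four]
  obtain ⟨L, hL, h⟩ := Pa.near_real hA hB
  refine ⟨min (1 / 20) (ε * l / (2 * L)), by positivity, min_le_left _ _, fun D hD => ?_⟩
  obtain ⟨th, h1, -, h3, h4⟩ := h _ (by positivity) (min_le_left _ _) D hD
  have hle : L * min (1 / 20) (ε * l / (2 * L)) < ε * l := by
    calc L * min (1 / 20) (ε * l / (2 * L)) ≤ L * (ε * l / (2 * L)) := by
          gcongr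
          exact min_le_right _ _
      _ = ε * l / 2 := by field_simp
      _ < ε * l := by linarith [mul_pos hε hl]
  have hle2 : ε * l < ε := by nlinarith
  have r1 := (Complex.abs_re_le_norm _).trans_lt (h3.trans_lt hle)
  have i1 := (Complex.abs_im_le_norm _).trans_lt (h3.trans_lt hle)
  have r2 := (Complex.abs_re_le_norm _).trans_lt (h4.trans_lt hle)
  have i2 := (Complex.abs_im_le_norm _).trans_lt (h4.trans_lt hle)
  rw [Complex.sub_re, Complex.ofReal_re] at r1 r2
  rw [Complex.sub_im, Complex.ofReal_im, sub_zero] at i1 i2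
  obtain ⟨hb, hp⟩ := bal2_path hA hAB h1
  refine ⟨A / (A + B), B / (A + B), Pa.pp A B th / l, Pa.qq A B th / l, hb, ?_, hp, ?_, ?_, ?_, ?_,
    ?_, ?_⟩
  · rw [← add_div, div_self (by positivity)]
  · rw [sub_self, abs_zero]
    exact hε
  · rw [sub_self, abs_zero]
    exact hε
  · unfold pAB
    rw [← sub_div, abs_div, abs_of_pos hl, div_lt_iff₀ hl]
    exact r1
  · unfold qAB
    rw [← sub_div, abs_div, abs_of_pos hl, div_lt_iff₀ hl]
    exact r2
  · rw [abs_neg]
    exact i1.trans hle2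
  · exact i2.trans hle2

/-- the places near real separation -/
theorem places_path {A B : ℝ} (hA : 0 < A) (hAB : A ≤ B) {ε : ℝ} (hε : 0 < ε) :
    ∃ de : ℝ, 0 < de ∧ de ≤ 1 / 20 ∧ ∀ D ∈ Pa.Nz de,
      (Pa.pz A B D).re ≤ (1 - dAB A B + ε) * l ∧ -(ε * l) ≤ (Pa.pz A B D).re ∧
      (Pa.qz A B D).re ≤ (1 / 2 - eAB A B + ε) * l ∧ -(ε * l) ≤ (Pa.qz A B D).re ∧
      |(Pa.pz A B D).im| ≤ ε ∧ |(Pa.qz A B D).im| ≤ ε := by
  have hB : 0 < B := hA.trans_le hAB
  have hl := l_pos
  have hl1 : l < 1 := by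
    unfold NUMF.l
    linarith [Real.pi_lt_four]
  obtain ⟨L, hL, h⟩ := Pa.near_real hA hB
  refine ⟨min (1 / 20) (ε * l / L), by positivity, min_le_left _ _, fun D hD => ?_⟩
  obtain ⟨th, h1, -, h3, h4⟩ := h _ (by positivity) (min_le_left _ _) D hD
  have hle : L * min (1 / 20) (ε * l / L) ≤ ε * l := by
    calc L * min (1 / 20) (ε * l / L) ≤ L * (ε * l / L) := by
          gcongr
          exact min_le_right _ _
      _ = ε * l := by field_simp
  have hle2 : ε * l ≤ ε := by nlinarith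
  have r1 := (Complex.abs_re_le_norm _).trans (h3.trans hle)
  have i1 := (Complex.abs_im_le_norm _).trans (h3.trans hle)
  have r2 := (Complex.abs_re_le_norm _).trans (h4.trans hle)
  have i2 := (Complex.abs_im_le_norm _).trans (h4.trans hle)
  rw [Complex.sub_re, Complex.ofReal_re, abs_le] at r1 r2
  rw [Complex.sub_im, Complex.ofReal_im, sub_zero] at i1 i2
  have p0 := Pa.pp_nonneg hA hB h1
  have p1 := pp_dAB hA hB h1
  have q0 := Pa.qq_nonneg hA hB h1
  have q1 := qq_eAB hA hB h1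
  exact ⟨by linarith [r1.2], by linarith [r1.1], by linarith [r2.2], by linarith [r2.1],
    i1.trans hle2, i2.trans hle2⟩

theorem XAB_re (A B : ℝ) (D : ℂ) (i : Fin 2) : (XAB A B D i).re = xT (pAB A B D) (qAB A B D) i := by
  have hl := l_pos.ne'
  fin_cases i
  · show (-Pa.pz A B D).re = -((Pa.pz A B D).re / l * l)
    rw [Complex.neg_re, div_mul_cancel₀ _ hl]
  · show (Pa.qz A B D).re = (Pa.qz A B D).re / l * l
    rw [div_mul_cancel₀ _ hl]

theorem XAB_im (A B : ℝ) (D : ℂ) (i : Fin 2) : (XAB A B D i).im = sAB A B D i := by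
  fin_cases i
  · show (-Pa.pz A B D).im = -(Pa.pz A B D).im
    rw [Complex.neg_im]
  · rfl

end PLT

end
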