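import Pool.Agent.PLT.CurX
import Pool.Agent.PLT.LevelH

/-!
# The level curve of a content with heights is a curve of rows at complex places

* `hx x s i = x i + s i I`: the places of a content with heights; `PCx_hx`: the densities agree;
* **`curX_etaH`**: the level curve `etaH m x s` in a window with bounded slope is `CurX`;
* `curX_etaH_ofC`: the same for places `X : ι → ℂ`.
-/

set_option autoImplicit false

noncomputable section

open Complex Set

namespace PLT

open NUMF (l l_pos Pc)

variable {ι : Type*} [Fintype ι] {m x s : ι → ℝ} {lo hi K : ℝ}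

/-- the places of a content with heights -/
def hx (x s : ι → ℝ) (i : ι) : ℂ := (x i : ℂ) + (s i : ℂ) * I

omit [Fintype ι] in
@[simp] theorem hx_re (x s : ι → ℝ) (i : ι) : (hx x s i).re = x i := by simp [hx]

omit [Fintype ι] in
@[simp] theorem hx_im (x s : ι → ℝ) (i : ι) : (hx x s i).im = s i := by simp [hx]

omit [Fintype ι] in
theorem hx_of (X : ι → ℂ) : hx (fun i => (X i).re) (fun i => (X i).im) = X := by
  funext i
  exact re_add_im (X i)

theorem PCx_hx (m x s : ι → ℝ) (z : ℂ) : PCx m (hx x s) z = PCh m x s z := by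
  unfold PCx PCh hx
  refine Finset.sum_congr rfl fun i _ => ?_
  rw [show z + ((x i : ℂ) + (s i : ℂ) * I) * I = z + (x i : ℂ) * I - (s i : ℂ) by
    linear_combination (s i : ℂ) * I_sq]

theorem PCh_re_im (m : ι → ℝ) (X : ι → ℂ) (z : ℂ) :
    PCh m (fun i => (X i).re) (fun i => (X i).im) z = PCx m X z := by
  rw [← PCx_hx, hx_of]

/-- **the level curve of a content with heights** -/
theorem curX_etaH (hm : Wt m) (h : LevH m x s) (h1 : ∀ t, lo ≤ etaH m x s t)
    (h2 : ∀ t, etaH m x s t ≤ hi) (x1 : ∀ i, -l < lo + x i) (x2 : ∀ i, hi + x i < l)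
    (sl : ∀ t, |etaH' m x s t| ≤ K) :
    CurX m (hx x s) lo hi (etaH m x s) (etaH' m x s) (rhoH m x s) := by
  refine ⟨⟨hasDerivAt_etaH hm h, continuous_etaH' hm h, ⟨K, (abs_nonneg _).trans (sl 0), sl⟩, h1, h2⟩,
    fun i => ?_, fun i => ?_, fun t => ?_⟩
  · rw [hx_re]
    exact x1 i
  · rw [hx_re]
    exact x2 i
  · rw [PCx_hx]
    exact rhoH_eq hm h t

/-- the level equation at the places -/
theorem lev_hx (h : LevH m x s) (t : ℝ) :
    ∑ i, m i * Ag (etaH m x s t + (hx x s i).re) (t - (hx x s i).im) = 0 := by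
  simp only [hx_re, hx_im]
  exact etaH_eq h t

/-- complex places -/
theorem curX_etaH_ofC {X : ι → ℂ} (hm : Wt m)
    (h : LevH m (fun i => (X i).re) fun i => (X i).im)
    (h1 : ∀ t, lo ≤ etaH m (fun i => (X i).re) (fun i => (X i).im) t)
    (h2 : ∀ t, etaH m (fun i => (X i).re) (fun i => (X i).im) t ≤ hi)
    (x1 : ∀ i, -l < lo + (X i).re) (x2 : ∀ i, hi + (X i).re < l)
    (sl : ∀ t, |etaH' m (fun i => (X i).re) (fun i => (X i).im) t| ≤ K) :
    CurX m X lo hi (etaH m (fun i => (X i).re) fun i => (X i).im)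
      (etaH' m (fun i => (X i).re) fun i => (X i).im)
      (rhoH m (fun i => (X i).re) fun i => (X i).im) := by
  have := curX_etaH hm h h1 h2 x1 x2 sl
  rwa [hx_of] at this

end PLT

end
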