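import Pool.Agent.PLT.SeaX
import Pool.Agent.PLT.BalB
import Pool.Agent.PLT.CurXH
import Pool.Agent.PLT.MfX

/-!
# The seas of a direction

`0 < A < B`; `D` complex near `[0, l]`: rows at `-pz A B D` and `qz A B D` in the proportions `A : B`.

* **`seaOX_seaX`**: the sea `seaX` of a content with heights is the sea of its weights and places (`SeaOX`);
* `cAB A B`: distance of the places from the poles, `gAB A B`: dip of the curves (units `l`) and bound of the heights;
* **`SeaAt A B SB D S`**: everything about the sea at `D`: `SeaCU`, `SeaOX`, window, heights, curve, density, fields;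
* **`SeasAB A B de SB S`**, **`exists_seasAB`**: a neighbourhood `Nz de` and one class of numbers;
* `deAB`, `SBAB`, **`seaAB A B : ℂ → SeaC`**, **`seasAB`**: chosen ones;
* small separation: `etaH_abs_le`, `XAB_re_le`, `disc_Nz`, **`SeaAt.small`**: the curve stays near zero.
-/

set_option autoImplicit false
set_option linter.unusedSectionVars false

open MeasureTheory Set Filter Topology Complex
open scoped ContDiff

namespace PLT

open NUMF (l l_pos)

noncomputable section

/-- the content as `mT`, `xT`, heights: the places are `XAB` -/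
theorem hx_AB (A B : ℝ) (D : ℂ) : hx (xT (pAB A B D) (qAB A B D)) (sAB A B D) = XAB A B D := by
  funext i
  apply Complex.ext
  · rw [hx_re, XAB_re]
  · rw [hx_im, XAB_im]

/-- **the sea of a content with heights is the sea of its weights and places** -/
theorem seaOX_seaX {ι : Type*} [Fintype ι] {h d : ℝ} {Ce : ℕ → ℝ} {m x s : ι → ℝ} (hP : PlH h m x s)
    (hE : EtH d Ce m x s) (hd : DipH h d) {de s0 lo hi : ℝ} (hlo : ∀ i, -((1 - de) * l) ≤ x i)
    (hup : ∀ i, x i ≤ (1 / 2 - de) * l) (him : ∀ i, |s i| ≤ s0) (h1 : d ≤ -lo * l)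
    (h2 : ∀ t, etaH m x s t ≤ hi * l) (h3 : -lo < de) (h4 : hi < 1 / 2 + de) :
    @SeaOX ι _ (seaX hP hE hd) de s0 lo hi m (hx x s) := by
  have hl := l_pos
  refine @SeaOX.mk ι _ (seaX hP hE hd) de s0 lo hi m (hx x s) ?_ hP.wt.nn (fun i => ?_)
    (fun i => ?_) (fun i => ?_) (lev_hx hE.lev)
  · have hdv : deriv (etaH m x s) = etaH' m x s := funext fun t => deriv_etaH hP hE t
    show CurX m (hx x s) (lo * l) (hi * l) (etaH m x s) (deriv (etaH m x s)) (rhoH m x s)
    rw [hdv]
    refine curX_etaH (K := 1 / 4) hP.wt hE.lev (fun t => ?_) h2 (fun i => ?_) (fun i => ?_) hE.sl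
    · have := hE.lo t
      linarith
    · have := hlo i
      have : -lo * l < de * l := mul_lt_mul_of_pos_right h3 hl
      linarith
    · have := hup i
      have : hi * l < (1 / 2 + de) * l := mul_lt_mul_of_pos_right h4 hl
      linarith
  · rw [hx_re]
    exact hlo i
  · rw [hx_re]
    exact hup i
  · rw [hx_im]
    exact him i

/-- distance of the places from the poles of the sea -/
def cAB (A B : ℝ) : ℝ := min (min (dAB A B / 2) (eAB A B / 2)) (1 / 50)

/-- the dip of the seas of a direction (units `l`), and the bound of the heights -/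
def gAB (A B : ℝ) : ℝ := cAB A B ^ 2 / 10 ^ 8

theorem cAB_pos {A B : ℝ} (hA : 0 < A) (hAB : A < B) : 0 < cAB A B :=
  lt_min (lt_min (by linarith [dAB_pos hA (hA.trans hAB)]) (by linarith [eAB_pos hA hAB])) (by norm_num)

theorem cAB_le (A B : ℝ) : cAB A B ≤ 1 / 50 := min_le_right _ _

theorem cAB_d (A B : ℝ) : cAB A B ≤ dAB A B / 2 := (min_le_left _ _).trans (min_le_left _ _)

theorem cAB_e (A B : ℝ) : cAB A B ≤ eAB A B / 2 := (min_le_left _ _).trans (min_le_right _ _)

theorem gAB_pos {A B : ℝ} (hA : 0 < A) (hAB : A < B) : 0 < gAB A B := by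
  have := cAB_pos hA hAB
  unfold gAB
  positivity

theorem gAB_c {A B : ℝ} (hA : 0 < A) (hAB : A < B) : gAB A B ≤ cAB A B / 4 := by
  have h0 := cAB_pos hA hAB
  have h1 := cAB_le A B
  unfold gAB
  nlinarith

theorem gAB_le {A B : ℝ} (hA : 0 < A) (hAB : A < B) : gAB A B ≤ 1 / 1000 := by
  have h0 := cAB_pos hA hAB
  have h1 := cAB_le A B
  unfold gAB
  nlinarith

/-- the heights are small against the square of the distance (`CutC`) -/
theorem gAB_sq {A B : ℝ} (hA : 0 < A) (hAB : A < B) : 10 ^ 7 * gAB A B ≤ cAB A B ^ 2 := by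
  have h0 := cAB_pos hA hAB
  unfold gAB
  nlinarith [sq_nonneg (cAB A B)]

/-- **the sea of a direction at `D`** -/
structure SeaAt (A B : ℝ) (SB : SeaCB) (D : ℂ) (S : SeaC) : Prop where
  su : @SeaCU SB S
  ox : ∀ lo hi : ℝ, gAB A B ≤ -lo → -lo < cAB A B → 7 / 120 ≤ hi → hi < 1 / 2 →
    @SeaOX (Fin 2) _ S (cAB A B) (gAB A B) lo hi (wAB A B) (XAB A B D)
  ge : ∀ t, -(gAB A B * l) ≤ S.eta t
  le : ∀ t, S.eta t ≤ 7 / 120 * l
  im : ∀ i, |(XAB A B D i).im| ≤ gAB A B
  sc : ∀ t, -(l / 8 + gAB A B) ≤ t * deriv S.eta t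
  eta : S.eta = etaH (wAB A B) (fun i => (XAB A B D i).re) fun i => (XAB A B D i).im
  densc : S.densc = PCx (wAB A B) (XAB A B D)
  fs : ∀ z, S.fs z = ∑ i, (wAB A B i : ℂ) * NUAct.vs (z + XAB A B D i * I)
  fx : ∀ z, S.fx z = ∑ i, (wAB A B i : ℂ) * NUAct.vx (z + XAB A B D i * I)

/-- **the seas of a direction**: `D` complex near `[0, l]`, one class of numbers -/
structure SeasAB (A B de : ℝ) (SB : SeaCB) (S : ℂ → SeaC) : Prop where
  de0 : 0 < de
  de1 : de ≤ 1 / 20
  dec : de ≤ cAB A B * l / 10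
  del : de ≤ l / 1000
  dip : SB.d ≤ gAB A B * l
  hh : SB.h ≤ cAB A B * l / 4
  g7 : 10 ^ 7 * gAB A B ≤ cAB A B ^ 2
  at' : ∀ D ∈ Pa.Nz de, SeaAt A B SB D (S D)

/-- the sea of one content -/
theorem seaAt_of {A B : ℝ} {h r : ℝ} {Ce : ℕ → ℝ} {D : ℂ} (hg : 0 < gAB A B)
    (hP : PlH h (wAB A B) (xT (pAB A B D) (qAB A B D)) (sAB A B D))
    (hE : EtH r Ce (wAB A B) (xT (pAB A B D) (qAB A B D)) (sAB A B D))
    (x1 : ∀ i, -((1 - cAB A B) * l) ≤ xT (pAB A B D) (qAB A B D) i)
    (x2 : ∀ i, xT (pAB A B D) (qAB A B D) i ≤ (1 / 2 - cAB A B) * l)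
    (x3 : ∀ i, |(XAB A B D i).im| ≤ gAB A B) (hd : DipH h r) (hCe : ∀ n, 0 ≤ Ce n)
    (hr : r ≤ gAB A B * l)
    (hsc : ∀ t, -(l / 8 + r) ≤
      t * deriv (etaH (wAB A B) (xT (pAB A B D) (qAB A B D)) (sAB A B D)) t) :
    SeaAt A B (seaXB h r Ce hd hCe) D (seaX hP hE hd) := by
  have hl := l_pos
  have hl1 : l < 1 := by
    unfold NUMF.l
    linarith [Real.pi_lt_four]
  refine ⟨seaXU _ _ hd hCe, fun lo hi h1 h2 h3 h4 => ?_, fun t => ?_, hE.le7, x3, fun t => ?_, ?_, ?_,
    fun z => ?_, fun z => ?_⟩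
  · have h5 : @SeaOX (Fin 2) _ (seaX hP hE hd) (cAB A B) (gAB A B) lo hi (wAB A B)
        (hx (xT (pAB A B D) (qAB A B D)) (sAB A B D)) := by
      refine seaOX_seaX hP hE hd x1 x2 (fun i => ?_) ?_ (fun t => ?_) h2 (by linarith)
      · rw [← XAB_im]
        exact x3 i
      · exact hr.trans (mul_le_mul_of_nonneg_right h1 hl.le)
      · have := hE.le7 t
        have := mul_le_mul_of_nonneg_right h3 hl.le
        linarith
    rwa [hx_AB] at h5
  · have := hE.lo t
    show -(gAB A B * l) ≤ etaH _ _ _ t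
    linarith
  · refine le_trans ?_ (hsc t)
    have : gAB A B * l ≤ gAB A B * 1 := mul_le_mul_of_nonneg_left hl1.le hg.le
    linarith
  · show etaH _ _ _ = _
    congr 1
    · funext i
      exact (XAB_re A B D i).symm
    · funext i
      exact (XAB_im A B D i).symm
  · show PCh _ _ _ = _
    funext z
    rw [← PCx_hx, hx_AB]
  · show (∑ i, (wAB A B i : ℂ) * NUAct.vs (z + _ * I - _)) = _
    refine Finset.sum_congr rfl fun i _ => ?_
    rw [← hx_AB]
    congr 2
    unfold hx
    linear_combination -(sAB A B D i : ℂ) * I_sq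
  · show (∑ i, (wAB A B i : ℂ) * NUAct.vx (z + _ * I - _)) = _
    refine Finset.sum_congr rfl fun i _ => ?_
    rw [← hx_AB]
    congr 2
    unfold hx
    linear_combination -(sAB A B D i : ℂ) * I_sq

/-- **existence of the seas of a direction** -/
theorem exists_seasAB {A B : ℝ} (hA : 0 < A) (hAB : A < B) :
    ∃ (de : ℝ) (SB : SeaCB) (S : ℂ → SeaC), SeasAB A B de SB S := by
  classical
  have hl := l_pos
  have hB : 0 < B := hA.trans hAB
  have hl1 : l < 1 := by
    unfold NUMF.l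
    linarith [Real.pi_lt_four]
  have d0 := dAB_pos hA hB
  have d1 := dAB_le A B
  have e0 := eAB_pos hA hAB
  have c0 := cAB_pos hA hAB
  have c1 := cAB_d A B
  have c2 := cAB_e A B
  have c3 := cAB_le A B
  have hg := gAB_pos hA hAB
  obtain ⟨g, hgg⟩ : ∃ g, g = gAB A B := ⟨_, rfl⟩
  rw [← hgg] at hg
  -- numbers
  obtain ⟨h, hh⟩ : ∃ h, h = min (l / 40) (cAB A B * l / 4) := ⟨_, rfl⟩
  have hh0 : 0 < h := by rw [hh]; positivity
  have hh1 : h ≤ l / 40 := by rw [hh]; exact min_le_left _ _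
  have hh3 : h ≤ cAB A B * l / 4 := by rw [hh]; exact min_le_right _ _
  have hh2 : h ≤ dAB A B * l / 8 := by
    have : cAB A B * l ≤ dAB A B / 2 * l := mul_le_mul_of_nonneg_right c1 hl.le
    linarith
  obtain ⟨Ce, hCe, hm⟩ := CA.etaH_two d0 d1
  obtain ⟨r, hr⟩ : ∃ r, r = min (min (g * l) (h / 2)) (min (l / 1000) (7 / 120 * l - v0)) := ⟨_, rfl⟩
  have hv0 := v0_lt7
  have hr0 : 0 < r := by
    rw [hr]
    exact lt_min (by positivity) (lt_min (by positivity) (by linarith))
  have hr1 : r ≤ g * l := by rw [hr]; exact (min_le_left _ _).trans (min_le_left _ _)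
  have hr2 : r ≤ h / 2 := by rw [hr]; exact (min_le_left _ _).trans (min_le_right _ _)
  have hr3 : r ≤ l / 1000 := by rw [hr]; exact (min_le_right _ _).trans (min_le_left _ _)
  have hr4 : r ≤ 7 / 120 * l - v0 := by rw [hr]; exact (min_le_right _ _).trans (min_le_right _ _)
  have hd : DipH h r := ⟨hh0, hh1, hr0.le, by linarith, hr3⟩
  obtain ⟨ε, hε, hε1, hε2⟩ := hm r hr0
  obtain ⟨de1, hde1, hde11, H1⟩ := nearH_path hA hAB.le hε
  obtain ⟨ε', hε', k1, k2, k3, k4⟩ : ∃ ε' : ℝ, 0 < ε' ∧ ε' ≤ dAB A B / 8 ∧ ε' ≤ eAB A B / 2 ∧ ε' ≤ g ∧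
      ε' ≤ 1 / 4 :=
    ⟨min (min (dAB A B / 8) (eAB A B / 2)) (min g (1 / 4)), by positivity,
      (min_le_left _ _).trans (min_le_left _ _), (min_le_left _ _).trans (min_le_right _ _),
      (min_le_right _ _).trans (min_le_left _ _), (min_le_right _ _).trans (min_le_right _ _)⟩
  obtain ⟨de2, hde2, hde22, H2⟩ := places_path hA hAB.le hε'
  have hle : ∀ u v : ℝ, u ≤ v → u * l ≤ v * l := fun u v huv => mul_le_mul_of_nonneg_right huv hl.le
  -- one content
  have key : ∀ D ∈ Pa.Nz (min de1 de2),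
      PlH h (wAB A B) (xT (pAB A B D) (qAB A B D)) (sAB A B D) ∧
      EtH r Ce (wAB A B) (xT (pAB A B D) (qAB A B D)) (sAB A B D) ∧
      (∀ i, -((1 - cAB A B) * l) ≤ xT (pAB A B D) (qAB A B D) i) ∧
      (∀ i, xT (pAB A B D) (qAB A B D) i ≤ (1 / 2 - cAB A B) * l) ∧
      (∀ i, |(XAB A B D i).im| ≤ g) ∧
      ∀ t, -(l / 8 + r) ≤
        t * deriv (etaH (wAB A B) (xT (pAB A B D) (qAB A B D)) (sAB A B D)) t := by
    intro D hD
    have hN := H1 D (Pa.Nz_mono (min_le_left _ _) hD)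
    obtain ⟨q1, q2, q3, q4, q5, q6⟩ := H2 D (Pa.Nz_mono (min_le_right _ _) hD)
    obtain ⟨hwt, hlev, Lp, Lm, hC⟩ := hε2 _ _ _ _ _ _ (by positivity) (by positivity) hN
    have hx0 : xT (pAB A B D) (qAB A B D) 0 = -(Pa.pz A B D).re := by
      rw [← XAB_re]
      exact Complex.neg_re _
    have hx1 : xT (pAB A B D) (qAB A B D) 1 = (Pa.qz A B D).re := by
      rw [← XAB_re]
      rfl
    have him : ∀ i, |(XAB A B D i).im| ≤ ε' := by
      intro i
      fin_cases i
      · show |(-Pa.pz A B D).im| ≤ ε'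
        rw [Complex.neg_im, abs_neg]
        exact q5
      · exact q6
    have t1 := hle _ _ k1
    have t2 := hle _ _ k2
    have t4 := hle _ _ k4
    have t5 := hle _ _ c1
    have t6 := hle _ _ c2
    have t7 := hle _ _ c3
    have t8 := mul_pos e0 hl
    have hP : PlH h (wAB A B) (xT (pAB A B D) (qAB A B D)) (sAB A B D) := by
      refine ⟨hwt, wAB_sum hA hB, fun i => ?_, fun i => ?_, fun i => ?_⟩
      · fin_cases i
        · show -(l - 4 * h) ≤ xT (pAB A B D) (qAB A B D) 0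
          rw [hx0]
          linarith
        · show -(l - 4 * h) ≤ xT (pAB A B D) (qAB A B D) 1
          rw [hx1]
          linarith
      · fin_cases i
        · show xT (pAB A B D) (qAB A B D) 0 ≤ l / 2
          rw [hx0]
          linarith
        · show xT (pAB A B D) (qAB A B D) 1 ≤ l / 2
          rw [hx1]
          linarith
      · rw [← XAB_im]
        linarith [him i]
    refine ⟨hP, ⟨hlev, hC.lo, fun t => ?_, fun t => ?_, hC.iter⟩, fun i => ?_, fun i => ?_,
      fun i => (him i).trans k3, hC.scal⟩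
    · have := hC.hi t
      show etaH (mT (A / (A + B)) (B / (A + B))) (xT (pAB A B D) (qAB A B D))
        ![-(Pa.pz A B D).im, (Pa.qz A B D).im] t ≤ _
      linarith
    · have hsl : |deriv (etaH (wAB A B) (xT (pAB A B D) (qAB A B D)) (sAB A B D)) t| ≤ 1 / 4 := by
        have h1 := hC.slope t
        refine h1.trans ?_
        linarith
      have e : deriv (etaH (wAB A B) (xT (pAB A B D) (qAB A B D)) (sAB A B D)) t =
          etaH' (wAB A B) (xT (pAB A B D) (qAB A B D)) (sAB A B D) t :=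
        (hasDerivAt_etaH hwt hlev t).deriv
      rw [← e]
      exact hsl
    · fin_cases i
      · show -((1 - cAB A B) * l) ≤ xT (pAB A B D) (qAB A B D) 0
        rw [hx0]
        linarith
      · show -((1 - cAB A B) * l) ≤ xT (pAB A B D) (qAB A B D) 1
        rw [hx1]
        linarith
    · fin_cases i
      · show xT (pAB A B D) (qAB A B D) 0 ≤ (1 / 2 - cAB A B) * l
        rw [hx0]
        linarith
      · show xT (pAB A B D) (qAB A B D) 1 ≤ (1 / 2 - cAB A B) * l
        rw [hx1]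
        linarith
  obtain ⟨de, hdd⟩ : ∃ de, de = min (min de1 de2) (min (cAB A B * l / 10) (l / 1000)) := ⟨_, rfl⟩
  have hde0 : 0 < de := by
    rw [hdd]
    exact lt_min (lt_min hde1 hde2) (by positivity)
  have hdl : de ≤ min de1 de2 := by rw [hdd]; exact min_le_left _ _
  have hdc : de ≤ min (cAB A B * l / 10) (l / 1000) := by rw [hdd]; exact min_le_right _ _
  have h0N : (0 : ℂ) ∈ Pa.Nz de := by
    have := Pa.Icc_Nz (th := 0) hde0 ⟨le_rfl, hl.le⟩
    simpa using this
  have hall : ∀ D : ℂ, ∃ S : SeaC, D ∈ Pa.Nz de →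
      SeaAt A B (seaXB h r Ce hd hCe) D S := by
    intro D
    by_cases hD : D ∈ Pa.Nz de
    · obtain ⟨hP, hE, x1, x2, x3, x4⟩ := key D (Pa.Nz_mono hdl hD)
      rw [hgg] at x3 hr1 hg
      exact ⟨seaX hP hE hd, fun _ => seaAt_of hg hP hE x1 x2 x3 hd hCe hr1 x4⟩
    · obtain ⟨hP, hE, -⟩ := key 0 (Pa.Nz_mono hdl h0N)
      exact ⟨seaX hP hE hd, fun h => absurd h hD⟩
  choose S hS using hall
  refine ⟨de, seaXB h r Ce hd hCe, S, hde0, hdl.trans ((min_le_left _ _).trans hde11),
    hdc.trans (min_le_left _ _), hdc.trans (min_le_right _ _), ?_, hh3, gAB_sq hA hAB,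
    fun D hD => hS D hD⟩
  show r ≤ _
  rw [← hgg]
  exact hr1

/-! ### the chosen seas -/

theorem exists_seasAB' (A B : ℝ) : ∃ (de : ℝ) (SB : SeaCB) (S : ℂ → SeaC),
    0 < A ∧ A < B → SeasAB A B de SB S := by
  by_cases h : 0 < A ∧ A < B
  · obtain ⟨de, SB, S, hS⟩ := exists_seasAB h.1 h.2
    exact ⟨de, SB, S, fun _ => hS⟩
  · obtain ⟨de, SB, S, -⟩ := exists_seasAB (A := 1) (B := 2) one_pos one_lt_two
    exact ⟨de, SB, S, fun h' => absurd h' h⟩

/-- the width of the neighbourhood of `[0, l]` -/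
def deAB (A B : ℝ) : ℝ := (exists_seasAB' A B).choose

/-- **the numbers of the seas of a direction** -/
def SBAB (A B : ℝ) : SeaCB := (exists_seasAB' A B).choose_spec.choose

/-- **the sea of a direction** at `D` -/
def seaAB (A B : ℝ) : ℂ → SeaC := (exists_seasAB' A B).choose_spec.choose_spec.choose

theorem seasAB {A B : ℝ} (hA : 0 < A) (hAB : A < B) :
    SeasAB A B (deAB A B) (SBAB A B) (seaAB A B) :=
  (exists_seasAB' A B).choose_spec.choose_spec.choose_spec ⟨hA, hAB⟩

/-! ### small separation -/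

private theorem Ag_nn {V : ℝ} (h0 : 0 ≤ V) (h1 : V < l) (t : ℝ) : 0 ≤ Ag V t := by
  have hl := l_pos
  have hm : Wt (fun _ : Unit => (1 : ℝ)) := ⟨fun _ => zero_le_one, (), one_pos⟩
  have e : ∀ v, SC (fun _ : Unit => (1 : ℝ)) (fun _ => 0) v t = Ag v t := fun v => by
    simp [SC]
  have h2 := (strictMono_SC (x := fun _ : Unit => (0 : ℝ)) hm t).monotoneOn (a := 0) (b := V)
    (fun i => by simpa using hl) (fun i => by
      rw [add_zero, abs_of_nonneg h0]
      exact h1) h0
  simp only [e] at h2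
  rwa [Ag_zero] at h2

/-- **places near zero: the curve is near zero** -/
theorem etaH_abs_le {ι : Type*} [Fintype ι] {m x s : ι → ℝ} (hm : Wt m) (h : LevH m x s) {g : ℝ}
    (hg : 2 * g < l) (hx : ∀ i, |x i| ≤ g) (t : ℝ) : |etaH m x s t| ≤ g := by
  have hl := l_pos
  obtain ⟨i0, -⟩ := hm.pos
  have hg0 : 0 ≤ g := (abs_nonneg _).trans (hx i0)
  have hD1 : g ∈ Dm x := fun i => by
    have := abs_le.1 (hx i)
    rw [abs_lt]
    constructor <;> linarith
  have hD2 : -g ∈ Dm x := fun i => by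
    have := abs_le.1 (hx i)
    rw [abs_lt]
    constructor <;> linarith
  rw [abs_le]
  constructor
  · refine le_etaH hm h hD2 ?_
    unfold SCh
    refine Finset.sum_nonpos fun i _ => ?_
    have := abs_le.1 (hx i)
    have h1 : 0 ≤ Ag (-(-g + x i)) (t - s i) := Ag_nn (by linarith) (by linarith) _
    rw [Ag_neg_v] at h1
    exact mul_nonpos_of_nonneg_of_nonpos (hm.nn i) (by linarith)
  · refine etaH_le hm h hD1 ?_
    unfold SCh
    refine Finset.sum_nonneg fun i _ => ?_
    have := abs_le.1 (hx i)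
    exact mul_nonneg (hm.nn i) (Ag_nn (by linarith) (by linarith) _)

/-- the places for small separation -/
theorem XAB_re_le {A B : ℝ} (hA : 0 < A) (hB : 0 < B) {de : ℝ} (hde : de ≤ 1 / 20) {D : ℂ}
    (hD : D ∈ Pa.Nz de) (i : Fin 2) : |(XAB A B D i).re| ≤ |D.re| := by
  have h := Pa.re_pz hA hB hde hD
  rw [abs_le] at h
  have h2 := abs_nonneg D.re
  have h3 := le_abs_self D.re
  have h4 := neg_abs_le D.re
  fin_cases i
  · show |(-Pa.pz A B D).re| ≤ _
    rw [Complex.neg_re, abs_neg, abs_le]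
    constructor <;> linarith [h.1, h.2]
  · show |(Pa.qz A B D).re| ≤ _
    have e : (Pa.qz A B D).re = D.re - (Pa.pz A B D).re := by
      unfold Pa.qz
      exact Complex.sub_re _ _
    rw [e, abs_le]
    constructor <;> linarith [h.1, h.2]

/-- the disc is in the neighbourhood -/
theorem disc_Nz {de d1 : ℝ} (h : d1 < de) {D : ℂ} (hD : ‖D‖ ≤ d1) : D ∈ Pa.Nz de := by
  have hl := l_pos
  have h1 := (Complex.abs_re_le_norm D).trans hD
  have h2 := (Complex.abs_im_le_norm D).trans hD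
  rw [abs_le] at h1
  refine ⟨by linarith [h1.1], ?_, by linarith⟩
  have : D.re ≤ d1 := h1.2
  show D.re < l + de
  linarith

/-- **the sea for small separation**: the curve stays near zero -/
theorem SeaAt.small {A B : ℝ} {SB : SeaCB} {D : ℂ} {S : SeaC} (h : SeaAt A B SB D S)
    (hA : 0 < A) (hB : 0 < B) {de : ℝ} (hde : de ≤ 1 / 20) (hD : D ∈ Pa.Nz de) {g : ℝ}
    (hg : 2 * g < l) (hDg : |D.re| ≤ g) (t : ℝ) : |S.eta t| ≤ g := by
  have hg0 : 0 ≤ g := (abs_nonneg _).trans hDg
  have hw : Wt (wAB A B) := ⟨wAB_nn hA hB, 0, by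
    show 0 < A / (A + B)
    positivity⟩
  have hlev : LevH (wAB A B) (fun i => (XAB A B D i).re) fun i => (XAB A B D i).im := by
    intro t
    have hD1 : ∀ v, v ∈ Icc (-g) g → v ∈ Dm fun i => (XAB A B D i).re := fun v hv i => by
      have := (XAB_re_le hA hB hde hD i).trans hDg
      rw [abs_le] at this
      rw [abs_lt]
      constructor <;> linarith [hv.1, hv.2]
    obtain ⟨v, hv, hv0⟩ := levH_of (m := wAB A B) (s := fun i => (XAB A B D i).im)
      (by linarith : -g ≤ g) hD1 (fun t => by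
        unfold SCh
        refine Finset.sum_nonpos fun i _ => ?_
        have := abs_le.1 ((XAB_re_le hA hB hde hD i).trans hDg)
        have h1 : 0 ≤ Ag (-(-g + (XAB A B D i).re)) (t - (XAB A B D i).im) :=
          Ag_nn (by linarith) (by linarith) _
        rw [Ag_neg_v] at h1
        exact mul_nonpos_of_nonneg_of_nonpos (wAB_nn hA hB i) (by linarith)) (fun t => by
        unfold SCh
        refine Finset.sum_nonneg fun i _ => ?_
        have := abs_le.1 ((XAB_re_le hA hB hde hD i).trans hDg)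
        exact mul_nonneg (wAB_nn hA hB i) (Ag_nn (by linarith) (by linarith) _)) t
    exact ⟨v, hD1 v hv, hv0⟩
  rw [h.eta]
  exact etaH_abs_le hw hlev hg (fun i => (XAB_re_le hA hB hde hD i).trans hDg) t

end

end PLT
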