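import Pool.Agent.PLT.BYR
import Pool.Agent.PLT.ClsBY
import Pool.Agent.PLT.SeaYB
import Pool.Agent.PLT.BYM

/-!
# The class formulas of the content of a tilted direction

`1 ≤ a0 < b0`, `D ∈ Nz (deAB a0 b0)`, all sizes `m` (no condition on `m` except in the cutoffs):

* `plc_B`, `end_B`, `rows_B`, `hrow_B`: places, ends, rows;
* `rg6_B`: the data are admissible;
* **`rgc_RB`**: the record `RGC` of `RB` in the strip `lo .. hi`, `-cAB < lo`, `hi < 3 / 40`, one size for all `D`, `ep`;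
* **`rgcF_B`**, **`clsFC_B`**: the literal of the families over `Nz (deAB a0 b0)`.
-/

set_option autoImplicit false
set_option linter.unusedSectionVars false

noncomputable section

open Complex MeasureTheory Finset
open PLX (Fil Ends)

namespace PLT.BY

open NUP1 NUP1S NURow
open NUGC.PLX (beC htL)
open Pa (pz qz Nz)
open PHK (Par6 gO cw6)
open PBR.PLX (xrU obRU6)
open Pool.Agent.PLX (RU rwq yq)
open PBQ.PLX (KD)
open PLT.Lg
open PLTX (RwG PtW PtE RG6 PhT GoodT parTh_goodT)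

variable {a0 b0 m : ℕ} {D : ℂ}

theorem pos_B (h0 : 1 ≤ a0) (h1 : a0 < b0) : (0 : ℝ) < a0 ∧ (a0 : ℝ) < b0 :=
  ⟨by exact_mod_cast h0, by exact_mod_cast h1⟩

/-- **the places** -/
theorem plc_B (h0 : 1 ≤ a0) (h1 : a0 < b0) (h : D ∈ Nz (deAB a0 b0)) (s : Fin 2) :
    -((1 - cAB a0 b0) * l) ≤ (XAB a0 b0 D s).re ∧ (XAB a0 b0 D s).re ≤ (1 / 2 - cAB a0 b0) * l ∧
      |(XAB a0 b0 D s).im| ≤ gAB a0 b0 := by
  obtain ⟨hA, hAB⟩ := pos_B h0 h1
  have hc := gAB_c hA hAB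
  have hc0 := cAB_pos hA hAB
  have hS := (seasAB hA hAB).at' D h
  have hX := hS.ox (-gAB a0 b0) (7 / 120) (by linarith) (by linarith) le_rfl (by norm_num)
  exact ⟨@SeaOX.lo (Fin 2) _ (seaAB a0 b0 D) _ _ _ _ _ _ hX s,
    @SeaOX.up (Fin 2) _ (seaAB a0 b0 D) _ _ _ _ _ _ hX s, hS.im s⟩

/-- **the ends** -/
theorem end_B [Fil] (h0 : 1 ≤ a0) (h1 : a0 < b0) (h : D ∈ Nz (deAB a0 b0)) :
    -(1 / 1000 * l) ≤ (eB a0 b0 m D).re ∧ (eB a0 b0 m D).re ≤ (1 / 2 - cAB a0 b0) * l ∧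
      |(eB a0 b0 m D).im| ≤ gAB a0 b0 := by
  obtain ⟨hA, hAB⟩ := pos_B h0 h1
  have hS := seasAB hA hAB
  have hD := DB_mem (a0 := a0) (b0 := b0) (m := m) hS.de0 h
  obtain ⟨-, h3, h4⟩ := plc_B h0 h1 hD 1
  have h5 := qz_low hA (hA.trans hAB) hS.de1 hD hS.de0
  have h6 : deAB a0 b0 ≤ l / 1000 := hS.del
  rw [XAB_one] at h3 h4
  rw [eB_DB]
  exact ⟨by linarith, h3, h4⟩

/-- the rows in a strip -/
theorem rows_B [Fil] (h0 : 1 ≤ a0) (h1 : a0 < b0) (h : D ∈ Nz (deAB a0 b0)) {lo : ℝ} (hlo : -lo < cAB a0 b0)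
    (a : Bool) (i : Fin (cond a m (Fil.q * m))) :
    -((1 + lo) * l) < (rwq (xB a0 b0 m D) a i).re ∧ (rwq (xB a0 b0 m D) a i).re ≤ 101 / 200 * l := by
  have hl := lpos
  obtain ⟨hA, hAB⟩ := pos_B h0 h1
  have hS := seasAB hA hAB
  have hc0 := cAB_pos hA hAB
  have hD := DB_mem (a0 := a0) (b0 := b0) (m := m) hS.de0 h
  obtain ⟨s, e⟩ := row_mem (a0 := a0) (b0 := b0) (D := D) a i
  rw [e]
  obtain ⟨h2, h3, -⟩ := plc_B h0 h1 hD s
  constructor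
  · have : (1 - cAB a0 b0) * l < (1 + lo) * l := mul_lt_mul_of_pos_right (by linarith) hl
    linarith
  · have : (1 / 2 - cAB a0 b0) * l ≤ 101 / 200 * l := mul_le_mul_of_nonneg_right (by linarith) hl.le
    linarith

theorem rwG_Bs [Fil] (h0 : 1 ≤ a0) (h1 : a0 < b0) (h : D ∈ Nz (deAB a0 b0)) (a : Bool) :
    RwG (rwq (xB a0 b0 m D) a) := fun i => by
  obtain ⟨hA, hAB⟩ := pos_B h0 h1
  have hc0 := cAB_pos hA hAB
  have h' := rows_B (lo := 0) h0 h1 h (by linarith) a i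
  have e : -((1 + 0) * l) = -l := by ring
  rw [e] at h'
  exact h'

/-- **the data are admissible** -/
theorem rg6_B [Fil] (h0 : 1 ≤ a0) (h1 : a0 < b0) (h : D ∈ Nz (deAB a0 b0)) {ep : ℝ} (he : 0 < ep)
    (he1 : ep ≤ 1 / 100) : RG6 (RB a0 b0 ep m D) fun _ => [I, -I] := by
  have hl := lpos
  obtain ⟨hA, hAB⟩ := pos_B h0 h1
  have hc0 := cAB_pos hA hAB
  obtain ⟨b1, b2⟩ := beC_bds he he1
  have b3 : 0 < beC ep := by linarith
  have hp : PtE (eB a0 b0 m D) := by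
    obtain ⟨h2, h3, -⟩ := end_B (m := m) h0 h1 h
    constructor
    · linarith
    · have : (1 / 2 - cAB a0 b0) * l ≤ 101 / 200 * l := mul_le_mul_of_nonneg_right (by linarith) hl.le
      linarith
  have hx := rwG_Bs (m := m) h0 h1 h
  have hcc : ∀ n, NUP1.Leg.cc n ≠ 0 := fun n => by
    rw [← norm_pos_iff, PBX.norm_cc]
    exact cosl_pos
  refine ⟨b3, b2, hx true, hx false, hp, hp, rfl, rfl, fun a w hw => ?_, ?_, ?_, hcc _, hcc _⟩
  · obtain ⟨e1, -⟩ := ptI hw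
    constructor
    · rw [e1]
      linarith
    · rw [e1]
      positivity
  · exact PLTX.gF6_G (PBU.PLX.T1L m) (hx true) fun w hw => by simp at hw
  · exact PLTX.gF6_G (PBU.PLX.T1L m) (hx false) fun w hw => by simp at hw

/-- the strip of the quanta of the point -/
theorem stC_parTh {lo hi : ℝ} (h0 : lo ≤ 0) (h1 : -(1 / 50) ≤ lo) (h2 : 0 ≤ hi) (h3 : hi < 3 / 40) :
    StC lo hi parTh := by
  refine ⟨h0, h2, by linarith, by linarith, ?_, ?_, ?_, ?_, ?_, ?_, ?_, ?_⟩ <;>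
    simp only [parTh] <;> linarith

/-- the window of the inverses at the point -/
theorem wnG_parTh : WnG parTh (l / 50) (93 / 100 * l) := by
  have hl := lpos
  refine ⟨by positivity, ?_, ?_, ?_, by linarith⟩ <;> simp only [parTh] <;> linarith

section ends

attribute [local instance] _root_.PLX.ends0

variable [Fil]

theorem qm_eq (m : ℕ) : Fil.q * m = m + Fil.xe m := by
  show Fil.q * m = m + (Fil.q - 1) * m
  rw [add_comm]
  exact (xn_mul m).symm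

/-- **the record of the class formulas of the content**, one size for all `D` and `ep` -/
theorem rgc_RB (h0 : 1 ≤ a0) (h1 : a0 < b0) : ∃ m0 : ℕ, ∀ m ≥ m0, ∀ D ∈ Nz (deAB a0 b0), ∀ ep : ℝ, 0 < ep →
    ep ≤ 1 / 100 → ∀ lo hi : ℝ, -cAB a0 b0 < lo → lo ≤ 0 → 0 ≤ hi → hi < 3 / 40 →
    RGC (RB a0 b0 ep m D) (fun _ => [I, -I]) (2 * Real.cos l) parTh lo hi (l / 50) (93 / 100 * l)
      (Fil.xe m) := by
  have hl := lpos
  obtain ⟨hA, hAB⟩ := pos_B h0 h1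
  have hS := seasAB hA hAB
  have hc0 := cAB_pos hA hAB
  have hc1 := cAB_le a0 b0
  have hgc := gAB_c hA hAB
  have hg0 := gAB_pos hA hAB
  have hdel : deAB a0 b0 ≤ l / 1000 := hS.del
  have hg7 := hS.g7
  obtain ⟨m0, H⟩ := phT_B (c := cAB a0 b0) (g := gAB a0 b0) h0 h1 hS.de0 (by linarith) hg0.le (by linarith)
    (by linarith) (by linarith) hc0 (by linarith) fun D hD =>
      ⟨_, (hS.at' D hD).ox (-gAB a0 b0) (7 / 120) (by linarith) (by linarith) le_rfl (by norm_num)⟩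
  refine ⟨m0, fun m hm D hD ep he he1 lo hi a1 a2 a3 a4 => ?_⟩
  refine ⟨qm_eq m, rg6_B h0 h1 hD he he1, PBX.norm_cc _, PBX.norm_cc _, by linarith, a2, by linarith,
    fun a i => ?_, fun a w hw => ?_, stC_parTh a2 (by linarith) a3 a4, parTh_goodT, ?_,
    H m hm D hD ep he he1 _ _ (by positivity) le_rfl, wnG_parTh, by linarith⟩
  · rw [xrU_RB]
    exact rows_B h0 h1 hD (by linarith) a i
  · obtain ⟨e1, -⟩ := ptI hw
    constructor
    · rw [e1]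
      have : 0 < (1 + lo) * l := mul_pos (by linarith) hl
      linarith
    · rw [e1]
      positivity
  · simp only [parTh]
    norm_num

/-- **the records of the family over the neighbourhood of the path** -/
theorem rgcF_B (h0 : 1 ≤ a0) (h1 : a0 < b0) {g1 g0 x0 : ℝ} (hx : x0 ≤ 1 / 100) (hg1 : 0 ≤ g1)
    (hg1' : g1 + x0 / 4 < cAB a0 b0) (hg0 : 0 ≤ g0) (hg0' : g0 + x0 / 4 < 3 / 40) (ep : ℝ) (he : 0 < ep)
    (he1 : ep ≤ x0) : ∃ m0 : ℕ, ∀ m ≥ m0, ∀ i : {D // D ∈ Nz (deAB a0 b0)},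
      RGC (RB a0 b0 ep m i) (fun _ => [I, -I]) (2 * Real.cos l) parTh (-(g1 + ep / 4)) (g0 + ep / 4) (l / 50)
        (93 / 100 * l) (Fil.xe m) := by
  obtain ⟨m0, H⟩ := rgc_RB h0 h1
  exact ⟨m0, fun m hm i => H m hm i i.2 ep he (he1.trans hx) _ _ (by linarith) (by linarith) (by linarith)
    (by linarith)⟩

/-- **the class formulas of the family** -/
theorem clsFC_B (h0 : 1 ≤ a0) (h1 : a0 < b0) {g1 g0 x0 : ℝ} (hx : x0 ≤ 1 / 100) (hg1 : 0 ≤ g1)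
    (hg1' : g1 + x0 / 4 < cAB a0 b0) (hg0 : 0 ≤ g0) (hg0' : g0 + x0 / 4 < 3 / 40)
    (kD : {D // D ∈ Nz (deAB a0 b0)} → ℝ → ℕ → Bool → ℂ → ℂ) :
    ClsFC parTh g1 g0 x0 (fun (i : {D // D ∈ Nz (deAB a0 b0)}) ep m => KB a0 b0 ep m i) kD
      fun i ep m t t' y u => cw6 (KB a0 b0 ep m i) t t' (vl (htL t) y.1) (vl (htL t') y.2) u :=
  clsFC_of kD (fun _ _ _ => rfl) (rgcF_B h0 h1 hx hg1 hg1' hg0 hg0')

/-- **the base data of the family** -/
theorem bsF_B (h0 : 1 ≤ a0) (h1 : a0 < b0) {g1 g0 x0 : ℝ} (hx : x0 ≤ 1 / 100) (hg1 : 0 ≤ g1)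
    (hg1' : g1 + x0 / 4 < cAB a0 b0) (hg0 : 0 ≤ g0) (hg0' : g0 + x0 / 4 < 3 / 40)
    {G : {D // D ∈ Nz (deAB a0 b0)} → GeoC}
    (hG : ∀ ep : ℝ, 0 < ep → ep ≤ x0 → ∀ (i : {D // D ∈ Nz (deAB a0 b0)}) (m : ℕ) (g : Bool → ℂ → ℝ),
      ((G i).B m (4 / 3 * (1 - ep))).mul g = obRU6 (RB a0 b0 ep m i) (fun _ => [I, -I]) (2 * Real.cos l) g) :
    BsF parTh g1 g0 x0 (fun (i : {D // D ∈ Nz (deAB a0 b0)}) ep m => KB a0 b0 ep m i) G :=
  bsF_of (fun _ _ _ => rfl) (rgcF_B h0 h1 hx hg1 hg1' hg0 hg0') hG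

end ends

end PLT.BY

end
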