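import Pool.Agent.PLT.ConfC
import Pool.Agent.PHK.UProps6

/-!
# Sea on a curve: the upper bounds U1, U3, U4 as propositions, and their easy consequences

Twin of `PHK/UProps6`.  A family carries its curves (complex displacements of the two species, depending on the
index: the direction of the sea is part of the index) and the density of a one-fold row on the real line; all
constants are uniform in the index.

* `ptZ D s t = t + D s t`: complex height of a quantum; `nu1C`, `nuEC`: statistics; `BC` is the landed one;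
* `FamC ι`: with the window `lo ≤ 0 ≤ hi` of the offsets of its static curves; `FSC`; `OWC`, `DNC`;
* **`UBC F P ep e1 J p K ε`**: the master bound; **`UXC F P`**: what the provider proves;
* `UXC.pick`, `UBC.stat`, `UBC.weight`, `UBC.mass` (U1), `UBC.pin` (U4).
-/

set_option autoImplicit false
set_option linter.unusedSectionVars false
set_option linter.unusedVariables false

noncomputable section

open Complex MeasureTheory Finset
open scoped ENNReal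
open PLX (Fil)

namespace PLT

open NUO NUP1 NUP1S NUP1S.Ab NUP1S.AbC NUGC NUGC.PLX PHK
open PBF.PLX (InsE dN)
open PBU.PLX (BC)
open PBP.PLX (gT pinB pinB_pos pinB_rpow pin_sum_pow one_le_gPi)

/-! ### statistics -/

/-- complex height of a quantum on the curve of its species -/
def ptZ (D : Bool → ℝ → ℂ) (s : Bool) (t : ℝ) : ℂ := t + D s t

theorem ptC_ptZ (D : Bool → ℝ → ℂ) (s : Bool) (t : ℝ) : ptC D s t = NUP1.l + I * ptZ D s t := by
  unfold ptC vl ptZ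
  ring

/-- linear statistic of the species `s`: density `ρ` of a one-fold row on the real line, test function `g` of the
complex height -/
def nu1C [Fil] (ρ : ℝ → ℂ) (D : Bool → ℝ → ℂ) (s : Bool) (g : ℂ → ℂ) {a b : ℕ}
    (x : (Fin a → ℝ) × (Fin b → ℝ)) : ℂ :=
  (if s then ∑ i, g (ptZ D s (x.1 i)) else ∑ i, g (ptZ D s (x.2 i))) -
    Fil.b s * ∫ t : ℝ, ρ t * g t

theorem nu1C_smul [Fil] (ρ : ℝ → ℂ) (D : Bool → ℝ → ℂ) (s : Bool) (g : ℂ → ℂ) (c : ℂ) {a b : ℕ}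
    (x : (Fin a → ℝ) × (Fin b → ℝ)) :
    nu1C ρ D s (fun z => c * g z) x = c * nu1C ρ D s g x := by
  unfold nu1C
  have e : (fun t : ℝ => ρ t * (c * g t)) = fun t : ℝ => c * (ρ t * g t) := by
    funext t
    ring
  rw [e, integral_const_mul]
  split_ifs
  · rw [← Finset.mul_sum]
    ring
  · rw [← Finset.mul_sum]
    ring

/-- one factor of a statistic -/
def nuEC [Fil] (ρ : ℝ → ℂ) (D : Bool → ℝ → ℂ) (g g' : ℂ → ℂ) {a b : ℕ}
    (x : (Fin a → ℝ) × (Fin b → ℝ)) : ℝ≥0∞ :=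
  1 + ‖nu1C ρ D true g x‖ₑ + ‖nu1C ρ D false g' x‖ₑ

theorem one_le_nuEC [Fil] (ρ : ℝ → ℂ) (D : Bool → ℝ → ℂ) (g g' : ℂ → ℂ) {a b : ℕ}
    (x : (Fin a → ℝ) × (Fin b → ℝ)) : 1 ≤ nuEC ρ D g g' x := by
  unfold nuEC
  rw [add_assoc]
  exact le_self_add

/-! ### families of functionals -/

/-- **a family of functionals**: class functions (`ep`, number of rows, index), normaliser, largest number of
quanta, admissible indices, bound; curves (`e1`, `J`, number of rows, index), density of a one-fold row (`m`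
rows) on the real line -/
structure FamC (ι : Type) where
  /-- one body functions: `ep`, `m`, index -/
  Z : ℝ → ℕ → ι → Bool → Option O3 → ℂ → ℂ
  /-- normaliser -/
  Pf : ℕ → ι → ℂ
  /-- the sum over the number of quanta runs over `n ≤ top m` -/
  top : ℕ → ℕ
  /-- admissible indices -/
  ok : ℕ → ι → Prop
  /-- the bound of the index -/
  bd : ℕ → ι → ℝ
  /-- displacements of the curves: `e1`, `J`, `m`, index, species -/
  D : ℝ → ℝ → ℕ → ι → Bool → ℝ → ℂ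
  /-- their derivatives -/
  D1 : ℝ → ℝ → ℕ → ι → Bool → ℝ → ℂ
  /-- the density of a one-fold row on the real line, mass one -/
  dc : ℕ → ι → ℝ → ℂ
  /-- lower edge of the window of the static curves, `lo ≤ 0` -/
  lo : ℝ
  /-- upper edge of the window of the static curves, `0 ≤ hi` -/
  hi : ℝ

/-- the curves of an index, for every configuration -/
def FamC.cr {ι : Type} (F : FamC ι) (e1 J : ℝ) (m : ℕ) (i : ι) : CrsC := fun _ _ => F.D e1 J m i

/-- their derivatives -/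
def FamC.cr' {ι : Type} (F : FamC ι) (e1 J : ℝ) (m : ℕ) (i : ι) : CrsC := fun _ _ => F.D1 e1 J m i

variable [Fil] {ι : Type}

/-- **the functional with moduli**, summed over the number of quanta with weights `c n` -/
def FSC (F : FamC ι) (P : Par6) (ep e1 J : ℝ) (m : ℕ) (i : ι) (c : ℕ → ℝ≥0∞) (φ : InsE) : ℝ≥0∞ :=
  ∑ n ∈ range (F.top m + 1), c n * (‖F.Pf m i‖ₑ *
    FEC (F.Z ep m i) P n (n + dN (F.top m)) (F.cr e1 J m i) (F.cr' e1 J m i) φ)

variable {F : FamC ι} {P : Par6} {ep e1 J : ℝ} {m : ℕ} {i : ι}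

theorem FSC_mono {c c' : ℕ → ℝ≥0∞} (hc : ∀ n, c n ≤ c' n) {φ ψ : InsE}
    (h : ∀ r O a b x, φ r O a b x ≤ ψ r O a b x) :
    FSC F P ep e1 J m i c φ ≤ FSC F P ep e1 J m i c' ψ :=
  Finset.sum_le_sum fun n _ => mul_le_mul' (hc n) (mul_le_mul' le_rfl (FEC_mono h))

omit [Fil] in
theorem FEC_const_mul {Z : Bool → Option O3 → ℂ → ℂ} {P : Par6} {n n' : ℕ} {D D1 : CrsC}
    {c : ℝ≥0∞} (hc : c ≠ ∞) (φ : InsE) :
    FEC Z P n n' D D1 (fun r O a b x => c * φ r O a b x) = c * FEC Z P n n' D D1 φ := by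
  unfold FEC
  rw [Finset.mul_sum]
  refine Finset.sum_congr rfl fun r _ => ?_
  have e : ∀ O : Fin r → Xo, trEC Z P n n' D D1 (fun r O a b x => c * φ r O a b x) r O =
      c * trEC Z P n n' D D1 φ r O := by
    intro O
    unfold trEC
    split_ifs
    · have e1 : ∀ x, ‖gKC (gF6 Z P O) (D r O) (D1 r O) (nA6 n O true) (nA6 n' O false) x‖ₑ *
          (c * φ r O (nA6 n O true) (nA6 n' O false) x) =
          c * (‖gKC (gF6 Z P O) (D r O) (D1 r O) (nA6 n O true) (nA6 n' O false) x‖ₑ *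
            φ r O (nA6 n O true) (nA6 n' O false) x) := fun x => by ring
      simp only [e1]
      rw [lintegral_const_mul' _ _ hc]
      ring
    · rw [mul_zero]
  simp only [e]
  rw [lintegral_const_mul' _ _ hc]
  ring

theorem FSC_const_mul {cn : ℕ → ℝ≥0∞} {c : ℝ≥0∞} (hc : c ≠ ∞) (φ : InsE) :
    FSC F P ep e1 J m i cn (fun r O a b x => c * φ r O a b x) = c * FSC F P ep e1 J m i cn φ := by
  unfold FSC
  rw [Finset.mul_sum]
  refine Finset.sum_congr rfl fun n _ => ?_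
  rw [FEC_const_mul hc]
  ring

/-! ### the bounds -/

/-- admissible weights of the objects -/
def OWC (e1 K B : ℝ) (m : ℕ) (w : (r : ℕ) → (Fin r → Xo) → ℝ) : Prop :=
  ∀ r O, w r O ≤ B * K ^ r * ∏ j, Real.exp (gT e1 (Real.log m) (ht (O j)))

/-- admissible densities: close to `m` rows of density `dc` -/
def DNC (C0 : ℝ) (m : ℕ) (dc : ℝ → ℂ) (ρ : ℝ → ℂ) : Prop :=
  Integrable ρ ∧ (∫ t : ℝ, ‖ρ t - (m : ℝ) * dc t‖) ≤ C0

variable (F P ep e1 J)

/-- **the master bound**: at most `p` statistics, constant `K` per object, exponent `ε`. -/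
def UBC (p : ℕ) (K ε : ℝ) : Prop :=
  ∀ C0 y₁ y₂ : ℝ, y₁ < F.lo → F.hi < y₂ → ∃ m0 : ℕ, ∀ m ≥ m0, ∀ i : ι, F.ok m i →
    ∀ ρ : ℝ → ℂ, DNC C0 m (F.dc m i) ρ →
    ∀ B : ℝ, 0 ≤ B → ∀ w : (r : ℕ) → (Fin r → Xo) → ℝ, OWC e1 K B m w →
    ∀ g g' : (r : ℕ) → (Fin r → Xo) → Fin p → ℂ → ℂ,
      (∀ r O j, BC y₁ y₂ 1 (g r O j) ∧ BC y₁ y₂ 1 (g' r O j)) →
      FSC F P ep e1 J m i (fun _ => 1) (fun r O _ _ x => ENNReal.ofReal (w r O) *
          ∏ j, nuEC ρ (F.D e1 J m i) (g r O j) (g' r O j) x) ≤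
      ENNReal.ofReal (B * (m : ℝ) ^ ε * F.bd m i)

variable {ep e1 J}

/-- **what the provider proves** -/
def UXC : Prop := ∀ (p : ℕ) (K ε : ℝ), 0 < ε → ∃ a0 : ℝ, 0 < a0 ∧ ∀ ep e1 J : ℝ, 0 < ep → 0 < e1 →
  0 ≤ J → Real.exp (-(2 * Real.pi * J)) + 3 * e1 + 3 * ep ≤ a0 → UBC F P ep e1 J p K ε

variable {F P}

omit [Fil] in
theorem OWC.mono {K K' B B' : ℝ} {w : (r : ℕ) → (Fin r → Xo) → ℝ} (h : OWC e1 K B m w)
    (hK : 0 ≤ K) (hKK : K ≤ K') (hB : 0 ≤ B) (hBB : B ≤ B') : OWC e1 K' B' m w := fun r O => by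
  refine (h r O).trans ?_
  have h0 := zero_le_one.trans (one_le_gPi e1 (Real.log m) (fun j => ht (O j)))
  refine mul_le_mul_of_nonneg_right ?_ h0
  exact mul_le_mul hBB (pow_le_pow_left₀ hK hKK r) (pow_nonneg hK r) (hB.trans hBB)

omit [Fil] in
theorem OWC.one {K : ℝ} (hK : 1 ≤ K) (m : ℕ) : OWC e1 K 1 m fun _ _ => 1 := fun r O => by
  rw [one_mul]
  exact one_le_mul_of_one_le_of_one_le (one_le_pow₀ hK)
    (one_le_gPi e1 (Real.log m) (fun j => ht (O j)))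

omit [Fil] in
/-- a power of the number of objects -/
theorem OWC.pow (a : ℕ) (m : ℕ) : OWC e1 3 (3 * a.factorial) m fun r _ => ((r : ℝ) + 1) ^ a :=
  fun r O => by
    have h1 := PBP.PLX.pow_le_fact a r
    have h2 := one_le_gPi e1 (Real.log m) (fun j => ht (O j))
    calc ((r : ℝ) + 1) ^ a ≤ 3 * a.factorial * 3 ^ r := h1
      _ ≤ _ := le_mul_of_one_le_right (by positivity) h2

omit [Fil] in
/-- **a pinned object** -/
theorem OWC.pin {q : ℝ} (hq0 : 0 ≤ q) (hq : q ≤ 8 / 3) (a m : ℕ) :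
    OWC e1 6 (3 * a.factorial * pinB q e1 (Real.log m)) m
      fun r O => ((r : ℝ) + 1) ^ a * ∑ j, Real.exp (-(q * |ht (O j)|)) :=
  fun r O => pin_sum_pow hq0 hq a e1 (Real.log m) (fun j => ht (O j))

omit [Fil] in
theorem OWC.smul {K B c : ℝ} (hc : 0 ≤ c) {w : (r : ℕ) → (Fin r → Xo) → ℝ} (h : OWC e1 K B m w) :
    OWC e1 K (c * B) m fun r O => c * w r O := fun r O => by
  refine (mul_le_mul_of_nonneg_left (h r O) hc).trans (le_of_eq ?_)
  ring

/-! ### consequences -/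

variable {p : ℕ} {K ε : ℝ}

omit [Fil] in
/-- the standard density -/
theorem DNC.std (m : ℕ) {dc : ℝ → ℂ} (h : Integrable dc) : DNC 0 m dc fun t => (m : ℝ) * dc t := by
  refine ⟨h.const_mul _, le_of_eq ?_⟩
  simp

/-- **products of statistics of given sizes**, `|ν_X(g_j)| + |ν_Y(g'_j)|` for `j ∈ S` -/
theorem UBC.stat (h : UBC F P ep e1 J p K ε) (C0 y₁ y₂ : ℝ) (h1 : y₁ < F.lo) (h2 : F.hi < y₂) :
    ∃ m0 : ℕ, ∀ m ≥ m0, ∀ i : ι, F.ok m i → ∀ ρ : ℝ → ℂ, DNC C0 m (F.dc m i) ρ →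
    ∀ B : ℝ, 0 ≤ B → ∀ w : (r : ℕ) → (Fin r → Xo) → ℝ, OWC e1 K B m w →
    ∀ M : Fin p → ℝ, (∀ j, 0 < M j) → ∀ g g' : (r : ℕ) → (Fin r → Xo) → Fin p → ℂ → ℂ,
      (∀ r O j, BC y₁ y₂ (M j) (g r O j) ∧ BC y₁ y₂ (M j) (g' r O j)) →
    ∀ S : Finset (Fin p),
      FSC F P ep e1 J m i (fun _ => 1) (fun r O _ _ x => ENNReal.ofReal (w r O) *
          ∏ j ∈ S, (‖nu1C ρ (F.D e1 J m i) true (g r O j) x‖ₑ +
            ‖nu1C ρ (F.D e1 J m i) false (g' r O j) x‖ₑ)) ≤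
      ENNReal.ofReal (B * (∏ j ∈ S, M j) * (m : ℝ) ^ ε * F.bd m i) := by
  obtain ⟨m0, h0⟩ := h C0 y₁ y₂ h1 h2
  refine ⟨m0, fun m hm i hi ρ hρ B hB w hw M hM g g' hg S => ?_⟩
  obtain ⟨D, hD⟩ : ∃ D, D = F.D e1 J m i := ⟨_, rfl⟩
  have h3 := h0 m hm i hi ρ hρ B hB w hw (fun r O j z => ((M j : ℂ)⁻¹) * g r O j z)
    (fun r O j z => ((M j : ℂ)⁻¹) * g' r O j z)
    (fun r O j => ⟨(hg r O j).1.normed (hM j), (hg r O j).2.normed (hM j)⟩)
  rw [← hD] at h3 ⊢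
  have hP : 0 ≤ ∏ j ∈ S, M j := Finset.prod_nonneg fun j _ => (hM j).le
  have e0 : ∀ (j : Fin p) (s : Bool) (f : ℂ → ℂ) {a b : ℕ} (x : (Fin a → ℝ) × (Fin b → ℝ)),
      ‖nu1C ρ D s f x‖ₑ = ENNReal.ofReal (M j) *
        ‖nu1C ρ D s (fun z => ((M j : ℂ)⁻¹) * f z) x‖ₑ := by
    intro j s f a b x
    rw [nu1C_smul, enorm_mul, ← mul_assoc, ← ofReal_norm (((M j : ℝ) : ℂ)⁻¹), norm_inv, norm_real,
      Real.norm_of_nonneg (hM j).le, ← ENNReal.ofReal_mul (hM j).le,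
      mul_inv_cancel₀ (hM j).ne', ENNReal.ofReal_one, one_mul]
  have key : ∀ (r : ℕ) (O : Fin r → Xo) (a b : ℕ) (x : (Fin a → ℝ) × (Fin b → ℝ)),
      ENNReal.ofReal (w r O) * ∏ j ∈ S, (‖nu1C ρ D true (g r O j) x‖ₑ +
        ‖nu1C ρ D false (g' r O j) x‖ₑ) ≤
      ENNReal.ofReal (∏ j ∈ S, M j) * (ENNReal.ofReal (w r O) *
        ∏ j, nuEC ρ D (fun z => ((M j : ℂ)⁻¹) * g r O j z)
          (fun z => ((M j : ℂ)⁻¹) * g' r O j z) x) := by
    intro r O a b x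
    have e2 : ∏ j ∈ S, (‖nu1C ρ D true (g r O j) x‖ₑ +
        ‖nu1C ρ D false (g' r O j) x‖ₑ) ≤ ENNReal.ofReal (∏ j ∈ S, M j) *
        ∏ j ∈ S, nuEC ρ D (fun z => ((M j : ℂ)⁻¹) * g r O j z)
          (fun z => ((M j : ℂ)⁻¹) * g' r O j z) x := by
      rw [ENNReal.ofReal_prod_of_nonneg fun j _ => (hM j).le, ← Finset.prod_mul_distrib]
      refine Finset.prod_le_prod' fun j _ => ?_
      rw [e0 j true (g r O j) x, e0 j false (g' r O j) x, ← mul_add]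
      refine mul_le_mul' le_rfl ?_
      unfold nuEC
      rw [add_assoc]
      exact le_add_self
    have e3 : ∏ j ∈ S, nuEC ρ D (fun z => ((M j : ℂ)⁻¹) * g r O j z)
          (fun z => ((M j : ℂ)⁻¹) * g' r O j z) x ≤
        ∏ j, nuEC ρ D (fun z => ((M j : ℂ)⁻¹) * g r O j z)
          (fun z => ((M j : ℂ)⁻¹) * g' r O j z) x :=
      Finset.prod_le_prod_of_subset_of_one_le' (Finset.subset_univ S)
        fun j _ _ => one_le_nuEC _ _ _ _ _
    calc _ ≤ ENNReal.ofReal (w r O) * (ENNReal.ofReal (∏ j ∈ S, M j) * _) :=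
          mul_le_mul' le_rfl (e2.trans (mul_le_mul' le_rfl e3))
      _ = _ := by ring
  refine (FSC_mono (fun _ => le_rfl) key).trans ?_
  rw [FSC_const_mul ENNReal.ofReal_ne_top]
  refine (mul_le_mul' le_rfl h3).trans (le_of_eq ?_)
  rw [← ENNReal.ofReal_mul hP]
  congr 1
  ring

/-- **U1**, with a weight of the objects; `dc` integrable for the admissible indices -/
theorem UBC.weight (h : UBC F P ep e1 J p K ε) (hd : ∀ m i, F.ok m i → Integrable (F.dc m i)) :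
    ∃ m0 : ℕ, ∀ m ≥ m0, ∀ i : ι, F.ok m i →
      ∀ B : ℝ, 0 ≤ B → ∀ w : (r : ℕ) → (Fin r → Xo) → ℝ, OWC e1 K B m w →
      FSC F P ep e1 J m i (fun _ => 1) (fun r O _ _ _ => ENNReal.ofReal (w r O)) ≤
      ENNReal.ofReal (B * (m : ℝ) ^ ε * F.bd m i) := by
  obtain ⟨m0, h0⟩ := h.stat 0 (F.lo - 1) (F.hi + 1) (by linarith) (by linarith)
  refine ⟨m0, fun m hm i hi B hB w hw => ?_⟩
  have h3 := h0 m hm i hi _ (DNC.std m (hd m i hi)) B hB w hw (fun _ => 1) (fun _ => one_pos)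
    (fun _ _ _ _ => 0) (fun _ _ _ _ => 0)
    (fun _ _ _ => ⟨⟨differentiableOn_const 0, fun _ _ => by simp⟩,
      ⟨differentiableOn_const 0, fun _ _ => by simp⟩⟩) ∅
  simpa using h3

/-- **U1** -/
theorem UBC.mass (h : UBC F P ep e1 J p K ε) (hd : ∀ m i, F.ok m i → Integrable (F.dc m i))
    (hK : 1 ≤ K) : ∃ m0 : ℕ, ∀ m ≥ m0, ∀ i : ι, F.ok m i →
    FSC F P ep e1 J m i (fun _ => 1) (fun _ _ _ _ _ => 1) ≤
      ENNReal.ofReal ((m : ℝ) ^ ε * F.bd m i) := by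
  obtain ⟨m0, h0⟩ := h.weight hd
  refine ⟨m0, fun m hm i hi => ?_⟩
  simpa using h0 m hm i hi 1 zero_le_one (fun _ _ => 1) (OWC.one hK m)

theorem FSC_eq (φ : InsE) : FSC F P ep e1 J m i (fun _ => 1) φ = ‖F.Pf m i‖ₑ *
    ∑ n ∈ range (F.top m + 1),
      FEC (F.Z ep m i) P n (n + dN (F.top m)) (F.cr e1 J m i) (F.cr' e1 J m i) φ := by
  unfold FSC
  rw [Finset.mul_sum]
  exact Finset.sum_congr rfl fun n _ => by rw [one_mul]

/-- **U4**: pinned objects, powers of the number of objects, products of statistics -/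
theorem UBC.pin (h : UBC F P ep e1 J p K ε) (hK : 6 ≤ K) {q : ℝ} (hq0 : 0 ≤ q) (hq : q ≤ 8 / 3) (a : ℕ)
    (C0 y₁ y₂ : ℝ) (h1 : y₁ < F.lo) (h2 : F.hi < y₂) :
    ∃ m0 : ℕ, ∀ m ≥ m0, ∀ i : ι, F.ok m i → ∀ ρ : ℝ → ℂ, DNC C0 m (F.dc m i) ρ →
    ∀ M : Fin p → ℝ, (∀ j, 0 < M j) → ∀ g g' : (r : ℕ) → (Fin r → Xo) → Fin p → ℂ → ℂ,
      (∀ r O j, BC y₁ y₂ (M j) (g r O j) ∧ BC y₁ y₂ (M j) (g' r O j)) →
    ∀ S : Finset (Fin p),
      FSC F P ep e1 J m i (fun _ => 1) (fun r O _ _ x =>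
          ENNReal.ofReal (((r : ℝ) + 1) ^ a * ∑ j, Real.exp (-(q * |ht (O j)|))) *
          ∏ j ∈ S, (‖nu1C ρ (F.D e1 J m i) true (g r O j) x‖ₑ +
            ‖nu1C ρ (F.D e1 J m i) false (g' r O j) x‖ₑ)) ≤
      ENNReal.ofReal (3 * a.factorial * (m : ℝ) ^ (-(3 / 8 * q * (1 - 4 * e1))) *
        (∏ j ∈ S, M j) * (m : ℝ) ^ ε * F.bd m i) := by
  obtain ⟨m0, h0⟩ := h.stat C0 y₁ y₂ h1 h2
  refine ⟨max m0 1, fun m hm i hi ρ hρ M hM g g' hg S => ?_⟩
  have hm0 : m0 ≤ m := (le_max_left _ _).trans hm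
  have hm1 : (0 : ℝ) < m := by exact_mod_cast (le_max_right m0 1).trans hm
  have hp := pinB_pos q e1 (Real.log m)
  have h3 := h0 m hm0 i hi ρ hρ _ (by positivity) _
    ((OWC.pin (e1 := e1) hq0 hq a m).mono (K' := K) (by norm_num) hK (by positivity) le_rfl)
    M hM g g' hg S
  rw [pinB_rpow q e1 hm1] at h3
  exact h3

end PLT

end
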