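import Pool.Agent.PLX.PB.StatU
import Pool.Agent.PLX.PotH.Crv
import Pool.Agent.PLT.SeaC
import Pool.Agent.PLT.UPropsC

/-!
# Sea on a curve, (U3): products of linear statistics on a displaced curve are admissible insertions

As `PHK/StatU6` over `SeaC`: densities `sN m a * Cv.P` along the curve, positions `t + D a t`, where `D a t` is
close to the static displacement `Cv.eta t * I`; the density of a one-fold row on the real line is
`t ↦ Cv.Pc t` (contour shift). All constants are uniform in the sea.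

* `PthK W ζ`: three bounded derivatives; `exists_KC1_path`: functions on a path;
* **`DisK W r M D`**: displaced curves; `WinC lo hi`: window of the static curve; `meanC`: the mean on the
  displaced curve;
* `exists_rhoC`, `exists_StC`, **`statUC`**.
-/

set_option autoImplicit false
set_option linter.unusedSectionVars false
set_option linter.unusedVariables false

open MeasureTheory Set Filter Topology
open scoped ENNReal
open PLX (Fil Ends)

namespace PLT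

open NUKer PBZ.PLX PBU PBU.PLX NUR2 NUDi PBM PBM.PLX
open PotH.PLX (sN sN_true sN_nonneg sN_le sN_div)
open NUMF (l l_pos)

noncomputable section

/-! ### functions on a path -/

/-- a path with three derivatives bounded by `W` -/
structure PthK (W : ℝ) (ζ : ℝ → ℂ) : Prop where
  reg : ∃ z1 z2 z3 : ℝ → ℂ, (∀ t, HasDerivAt ζ (z1 t) t) ∧ (∀ t, HasDerivAt z1 (z2 t) t) ∧
    (∀ t, HasDerivAt z2 (z3 t) t) ∧ Continuous z3 ∧ (∀ t, ‖z1 t‖ ≤ W) ∧ (∀ t, ‖z2 t‖ ≤ W) ∧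
    (∀ t, ‖z3 t‖ ≤ W)

theorem PthK.cont {W : ℝ} {ζ : ℝ → ℂ} (h : PthK W ζ) : Continuous ζ := by
  obtain ⟨z1, z2, z3, h1, -⟩ := h.reg
  exact continuous_iff_continuousAt.2 fun t => (h1 t).continuousAt

theorem Sp_convexC (y₁ y₂ : ℝ) : Convex ℝ (PBE.Sp y₁ y₂) := by
  have h1 : Convex ℝ {z : ℂ | y₁ < z.im} := convex_halfSpace_im_gt y₁
  have h2 : Convex ℝ {z : ℂ | z.im < y₂} := convex_halfSpace_im_lt y₂
  exact h1.inter h2

/-- displacement in the strip -/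
theorem BC_lipC {y₁ y₂ M r : ℝ} {g : ℂ → ℂ} (hg : BC y₁ y₂ M g) (hr : 0 < r) {z w : ℂ}
    (hz : z ∈ PBE.Sp (y₁ + r) (y₂ - r)) (hw : w ∈ PBE.Sp (y₁ + r) (y₂ - r)) :
    ‖g z - g w‖ ≤ M / r * ‖z - w‖ := by
  have h1 := hg.deriv hr
  exact (Sp_convexC _ _).norm_image_sub_le_of_norm_hasDerivWithin_le (f' := deriv g)
    (fun x hx => (hg.hasDeriv ⟨by linarith [hx.1], by linarith [hx.2]⟩).hasDerivWithinAt)
    (fun x hx => h1.bd x hx) hw hz

/-- **functions on a path**: `g (ζ t)` belongs to `KC1`, `ζ` in the strip with a margin `3 r` -/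
theorem exists_KC1_path : ∃ K : ℝ, 0 < K ∧ ∀ (A : ℝ), 1 ≤ A → ∀ {y₁ y₂ M r W : ℝ} {g : ℂ → ℂ}
    {ζ : ℝ → ℂ}, BC y₁ y₂ M g → 0 < r → r ≤ 1 → 1 ≤ W →
    (∀ t, ζ t ∈ PBE.Sp (y₁ + 3 * r) (y₂ - 3 * r)) → PthK W ζ →
    KC1 A (K * A ^ 3 * (W ^ 3 * (M / r ^ 3))) (fun t => g (ζ t)) ∧
      Continuous (fun t : ℝ => g (ζ t)) ∧ (∀ t : ℝ, ‖g (ζ t)‖ ≤ M) := by
  obtain ⟨K, hK0, hK⟩ := exists_KC1
  refine ⟨K * 5, by positivity, ?_⟩
  intro A hA y₁ y₂ M r W g ζ hg hr hr1 hW hin hz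
  obtain ⟨z1, z2, z3, hz1, hz2, hz3, c3, b1, b2, b3⟩ := hz.reg
  have g1 := hg.deriv hr
  have g2 := g1.deriv hr
  have g3 := g2.deriv hr
  have hin3 : ∀ t : ℝ, ζ t ∈ PBE.Sp (y₁ + r + r + r) (y₂ - r - r - r) := fun t =>
    ⟨by linarith [(hin t).1], by linarith [(hin t).2]⟩
  have hin2 : ∀ t : ℝ, ζ t ∈ PBE.Sp (y₁ + r + r) (y₂ - r - r) := fun t =>
    ⟨by linarith [(hin t).1], by linarith [(hin t).2]⟩
  have hin1 : ∀ t : ℝ, ζ t ∈ PBE.Sp (y₁ + r) (y₂ - r) := fun t =>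
    ⟨by linarith [(hin t).1], by linarith [(hin t).2]⟩
  have hin0 : ∀ t : ℝ, ζ t ∈ PBE.Sp y₁ y₂ := fun t =>
    ⟨by linarith [(hin t).1], by linarith [(hin t).2]⟩
  have hM : 0 ≤ M := (norm_nonneg _).trans (hg.bd _ (hin0 0))
  have f0 : ∀ t : ℝ, HasDerivAt (fun t : ℝ => g (ζ t)) (deriv g (ζ t) * z1 t) t :=
    fun t => (hg.hasDeriv (hin0 t)).comp_of_eq t (hz1 t) rfl
  have f1 : ∀ t : ℝ, HasDerivAt (fun t : ℝ => deriv g (ζ t)) (deriv (deriv g) (ζ t) * z1 t) t :=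
    fun t => (g1.hasDeriv (hin1 t)).comp_of_eq t (hz1 t) rfl
  have f2 : ∀ t : ℝ, HasDerivAt (fun t : ℝ => deriv (deriv g) (ζ t))
      (deriv (deriv (deriv g)) (ζ t) * z1 t) t :=
    fun t => (g2.hasDeriv (hin2 t)).comp_of_eq t (hz1 t) rfl
  have f3 : Continuous fun t : ℝ => deriv (deriv (deriv g)) (ζ t) := by
    refine continuous_iff_continuousAt.2 fun t => ?_
    exact ContinuousAt.comp_of_eq (g3.hasDeriv (hin3 t)).continuousAt (hz1 t).continuousAt rfl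
  obtain ⟨R, hR⟩ : ∃ R, R = M / r ^ 3 := ⟨_, rfl⟩
  have hR0 : 0 ≤ R := by rw [hR]; positivity
  have hR1 : M ≤ R := by
    rw [hR, le_div_iff₀ (by positivity)]
    have : r ^ 3 ≤ 1 := pow_le_one₀ hr.le hr1
    nlinarith
  have hR2 : M / r ≤ R := by
    rw [hR]
    gcongr
    calc r ^ 3 ≤ r ^ 1 := pow_le_pow_of_le_one hr.le hr1 (by norm_num)
      _ = r := pow_one r
  have hR3 : M / r / r ≤ R := by
    rw [hR, div_div]
    gcongr
    calc r ^ 3 ≤ r ^ 2 := pow_le_pow_of_le_one hr.le hr1 (by norm_num)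
      _ = r * r := pow_two r
  have hR4 : M / r / r / r ≤ R := by
    rw [hR, div_div, div_div]
    refine le_of_eq ?_
    congr 1
    ring
  have q1 : ∀ t : ℝ, ‖deriv g (ζ t)‖ ≤ R := fun t => (g1.bd _ (hin1 t)).trans hR2
  have q2 : ∀ t : ℝ, ‖deriv (deriv g) (ζ t)‖ ≤ R := fun t => (g2.bd _ (hin2 t)).trans hR3
  have q3 : ∀ t : ℝ, ‖deriv (deriv (deriv g)) (ζ t)‖ ≤ R := fun t => (g3.bd _ (hin3 t)).trans hR4
  have hgc : Continuous (fun t : ℝ => g (ζ t)) :=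
    continuous_iff_continuousAt.2 fun t => (f0 t).continuousAt
  have hW0 : 0 ≤ W := zero_le_one.trans hW
  have w1 : W ≤ W ^ 3 := by
    calc W = W ^ 1 := (pow_one W).symm
      _ ≤ W ^ 3 := pow_le_pow_right₀ hW (by norm_num)
  have w2 : W ^ 2 ≤ W ^ 3 := pow_le_pow_right₀ hW (by norm_num)
  have w3 : 1 ≤ W ^ 3 := one_le_pow₀ hW
  have k1 : R * W ≤ W ^ 3 * R := by nlinarith
  have k2 : R * W ^ 2 ≤ W ^ 3 * R := by nlinarith
  have k3 : R * W ^ 3 ≤ W ^ 3 * R := by nlinarith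
  have k0 : R ≤ W ^ 3 * R := by nlinarith
  refine ⟨?_, hgc, fun t => hg.bd _ (hin0 t)⟩
  rw [← hR]
  have h := hK A hA (fun t : ℝ => g (ζ t)) (fun t => deriv g (ζ t) * z1 t)
    (fun t => deriv (deriv g) (ζ t) * z1 t * z1 t + deriv g (ζ t) * z2 t)
    (fun t => (deriv (deriv (deriv g)) (ζ t) * z1 t * z1 t +
      deriv (deriv g) (ζ t) * z2 t) * z1 t +
      deriv (deriv g) (ζ t) * z1 t * z2 t +
      (deriv (deriv g) (ζ t) * z1 t * z2 t + deriv g (ζ t) * z3 t))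
    (fun t => f0 t)
    (fun t => (f1 t).mul (hz2 t))
    (fun t => ((((f2 t).mul (hz2 t)).mul (hz2 t))).add ((f1 t).mul (hz3 t)))
    (by
      have k1 : Continuous fun t : ℝ => deriv g (ζ t) :=
        continuous_iff_continuousAt.2 fun t => (f1 t).continuousAt
      have k2 : Continuous fun t : ℝ => deriv (deriv g) (ζ t) :=
        continuous_iff_continuousAt.2 fun t => (f2 t).continuousAt
      have k3 : Continuous z1 := continuous_iff_continuousAt.2 fun t => (hz2 t).continuousAt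
      have k4 : Continuous z2 := continuous_iff_continuousAt.2 fun t => (hz3 t).continuousAt
      fun_prop)
    (5 * (W ^ 3 * R)) ?_ ?_ ?_ ?_
  · refine h.mono (le_of_eq ?_)
    ring
  · intro t _
    exact (hg.bd _ (hin0 t)).trans (by linarith)
  · intro t _
    rw [norm_mul]
    calc ‖deriv g (ζ t)‖ * ‖z1 t‖ ≤ R * W := by
          gcongr
          · exact q1 t
          · exact b1 t
      _ ≤ _ := by linarith
  · intro t _
    refine (norm_add_le _ _).trans ?_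
    rw [norm_mul, norm_mul, norm_mul]
    calc ‖deriv (deriv g) (ζ t)‖ * ‖z1 t‖ * ‖z1 t‖ + ‖deriv g (ζ t)‖ * ‖z2 t‖ ≤
        R * W * W + R * W := by
          gcongr
          · exact q2 t
          · exact b1 t
          · exact b1 t
          · exact q1 t
          · exact b2 t
      _ = R * W ^ 2 + R * W := by ring
      _ ≤ _ := by linarith
  · intro t _
    refine (norm_add_le _ _).trans ((add_le_add (norm_add_le _ _) (norm_add_le _ _)).trans ?_)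
    simp only [norm_mul]
    have s1 : ‖deriv (deriv (deriv g)) (ζ t) * z1 t * z1 t +
        deriv (deriv g) (ζ t) * z2 t‖ ≤ R * W * W + R * W := by
      refine (norm_add_le _ _).trans ?_
      rw [norm_mul, norm_mul, norm_mul]
      gcongr
      · exact q3 t
      · exact b1 t
      · exact b1 t
      · exact q2 t
      · exact b2 t
    calc _ ≤ (R * W * W + R * W) * W + R * W * W + (R * W * W + R * W) := by
          gcongr
          · exact b1 t
          · exact q2 t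
          · exact b1 t
          · exact b2 t
          · exact q2 t
          · exact b1 t
          · exact b2 t
          · exact q1 t
          · exact b3 t
      _ = R * W ^ 3 + 3 * (R * W ^ 2) + R * W := by ring
      _ ≤ _ := by linarith

theorem abs_nestC (A B C D : ℝ) {t : ℝ} (ht : 0 ≤ t) :
    |(|(|(|A| + |B|)| + |(|C| + |D|)|)| + |t|)| = |A| + |B| + (|C| + |D|) + t := by
  rw [abs_of_nonneg (by positivity : 0 ≤ |A| + |B|), abs_of_nonneg (by positivity : 0 ≤ |C| + |D|),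
    abs_of_nonneg (by positivity : 0 ≤ |A| + |B| + (|C| + |D|)), abs_of_nonneg ht,
    abs_of_nonneg (by positivity)]

/-- numbers of the moment constant -/
theorem aLin_leC {Cg L Λf : ℝ} (hCg : 1 ≤ Cg) (hL : 1 ≤ L) (hΛ : 0 ≤ Λf) :
    aLin (1 / (Cg * L ^ 2)) (Cg * L ^ 6) Λf ≤ 4 * Cg * L ^ 4 * Λf := by
  unfold aLin
  refine mul_le_mul_of_nonneg_right ?_ hΛ
  refine Real.sqrt_le_iff.2 ⟨by positivity, ?_⟩
  have h1 : 1 ≤ Cg * L ^ 6 := by
    have := one_le_pow₀ hL (n := 6)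
    nlinarith
  have h2 : 0 ≤ Cg * L ^ 2 := by positivity
  calc 8 * (Cg * L ^ 6 + 1) / (1 / (Cg * L ^ 2)) = 8 * (Cg * L ^ 6 + 1) * (Cg * L ^ 2) := by
        field_simp
    _ ≤ 8 * (Cg * L ^ 6 + Cg * L ^ 6) * (Cg * L ^ 2) := by gcongr
    _ = (4 * Cg * L ^ 4) ^ 2 := by ring

/-- the difference of the effective number of rows and the number of one-fold rows -/
theorem sN_sub_bC [Fil] [Ends] {m : ℕ} (hm : 1 ≤ m) (a : Bool) :
    |sN m a - Fil.b a * (m : ℝ)| ≤ (Fil.q : ℝ) * ((Fil.qo : ℕ) : ℝ) := by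
  have h := sN_div hm a
  rw [sN_true hm] at h
  have hb := Fil.b_pos a
  have e : sN m a - Fil.b a * (m : ℝ) = Fil.b a * (sN m a / Fil.b a - m) := by
    field_simp
  rw [e, abs_mul, abs_of_pos hb]
  exact mul_le_mul (Fil.b_le a) h (abs_nonneg _) Fil.q_posr.le

/-! ### the sea of each species -/

/-- the sea of a one-fold row, tail -/
theorem exists_rho1C (B : SeaCB) : ∃ m0 : ℕ, ∀ [SeaC] [SeaCU B], ∀ m ≥ m0,
    Rho (2 * Real.log m ^ 2) (fun t => (m : ℝ) * Cv.P t) m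
      ((m : ℝ)⁻¹ * Real.exp (-(Real.log m ^ 2))) := by
  obtain ⟨C, hC, hP⟩ := Cv.P_le B
  obtain ⟨m1, h1⟩ := pow_le_explog 2 (c := 1) one_pos
  obtain ⟨m2, h2⟩ := exists_log_ge (max 1 (2 * C))
  refine ⟨max (max m1 m2) 1, @fun _ hS m hm => ?_⟩
  have g1 := h1 m ((le_max_left _ _).trans ((le_max_left _ _).trans hm))
  have g2 := h2 m ((le_max_right _ _).trans ((le_max_left _ _).trans hm))
  have hmn : 1 ≤ m := (le_max_right _ _).trans hm
  have hm1 : (1:ℝ) ≤ m := by exact_mod_cast hmn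
  have hmp : (0:ℝ) < m := by linarith
  have hL1 : 1 ≤ Real.log m := (le_max_left _ _).trans g2
  have hLt : 2 * C ≤ Real.log m := (le_max_right _ _).trans g2
  obtain ⟨L, hL⟩ : ∃ L, L = Real.log m := ⟨_, rfl⟩
  rw [← hL] at g1 hL1 hLt ⊢
  rw [one_mul, show (2 : ℝ) = ((2 : ℕ) : ℝ) by norm_num, Real.rpow_natCast] at g1
  have g1' : (m : ℝ) * Real.exp (-(L ^ 2)) ≤ (m : ℝ)⁻¹ := by
    rw [← one_div, le_div_iff₀ hmp]
    calc (m : ℝ) * Real.exp (-(L ^ 2)) * m = (m : ℝ) ^ 2 * Real.exp (-(L ^ 2)) := by ring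
      _ ≤ 1 := g1
  have hpos := Cv.P_pos B
  have hi : Integrable fun t => (m : ℝ) * Cv.P t := (Cv.P_int B).const_mul _
  have hn : ∀ t, 0 ≤ (m : ℝ) * Cv.P t := fun t => mul_nonneg hmp.le (hpos t).le
  refine ⟨hi, hn, continuous_const.mul (Cv.P_cont B), ?_, ?_⟩
  · rw [integral_const_mul, Cv.P_mass, mul_one]
  · have htl : ∀ x : ℝ, 2 * L ^ 2 ≤ |x| → |(m : ℝ) * Cv.P x| ≤
        C * (m:ℝ) * Real.exp (-(8 / 3) * (2 * L ^ 2)) * Real.exp (-(|x| - 2 * L ^ 2)) := by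
      intro x hx
      rw [abs_of_nonneg (hn x)]
      have h3 : Real.exp (-(8 / 3) * |x|) ≤
          Real.exp (-(8 / 3) * (2 * L ^ 2)) * Real.exp (-(|x| - 2 * L ^ 2)) := by
        rw [← Real.exp_add]
        exact Real.exp_le_exp.2 (by linarith)
      calc (m : ℝ) * Cv.P x ≤ (m : ℝ) * (C * Real.exp (-(8 / 3) * |x|)) := by
            gcongr
            exact hP x
        _ ≤ (m : ℝ) * (C * (Real.exp (-(8 / 3) * (2 * L ^ 2)) *
            Real.exp (-(|x| - 2 * L ^ 2)))) := by gcongr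
        _ = _ := by ring
    have h3 := NUH0.tail2 (T := 2 * L ^ 2)
      (c := C * (m:ℝ) * Real.exp (-(8 / 3) * (2 * L ^ 2))) (by positivity) hi htl
    have h4 : ∫ t in (Set.Ioc (-(2 * L ^ 2)) (2 * L ^ 2))ᶜ, (m : ℝ) * Cv.P t ≤
        ∫ x in {x | 2 * L ^ 2 ≤ |x|}, |(m : ℝ) * Cv.P x| := by
      have e : ∀ x, |(m : ℝ) * Cv.P x| = (m : ℝ) * Cv.P x := fun x => abs_of_nonneg (hn x)
      simp only [e]
      refine setIntegral_mono_set hi.integrableOn (ae_of_all _ hn) (Filter.Eventually.of_forall ?_)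
      intro x hx
      show 2 * L ^ 2 ≤ |x|
      have hx' : ¬ (-(2 * L ^ 2) < x ∧ x ≤ 2 * L ^ 2) := hx
      rw [not_and_or, not_lt, not_le] at hx'
      rcases hx' with h | h
      · rw [le_abs]
        right
        linarith
      · exact h.le.trans (le_abs_self x)
    refine h4.trans (h3.trans ?_)
    have h5 : Real.exp (-(8 / 3) * (2 * L ^ 2)) ≤ Real.exp (-(L ^ 2)) * Real.exp (-(L ^ 2)) *
        Real.exp (-L) := by
      rw [← Real.exp_add, ← Real.exp_add]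
      refine Real.exp_le_exp.2 ?_
      nlinarith
    have h6 : L * Real.exp (-L) ≤ 1 := by
      have := Real.add_one_le_exp L
      rw [Real.exp_neg, ← div_eq_mul_inv, div_le_one (Real.exp_pos _)]
      linarith
    have hE := Real.exp_pos (-(L ^ 2))
    have hE1 := Real.exp_pos (-L)
    calc 2 * (C * (m:ℝ) * Real.exp (-(8 / 3) * (2 * L ^ 2))) =
        2 * C * (m:ℝ) * Real.exp (-(8 / 3) * (2 * L ^ 2)) := by ring
      _ ≤ L * (m:ℝ) * (Real.exp (-(L ^ 2)) * Real.exp (-(L ^ 2)) * Real.exp (-L)) := by gcongr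
      _ = (L * Real.exp (-L)) * ((m:ℝ) * Real.exp (-(L ^ 2))) * Real.exp (-(L ^ 2)) := by ring
      _ ≤ 1 * (m : ℝ)⁻¹ * Real.exp (-(L ^ 2)) := by gcongr
      _ = _ := by ring

/-- **the sea of each species**, effective numbers of rows -/
theorem exists_rhoC [Fil] [Ends] (B : SeaCB) : ∃ m0 : ℕ, ∀ [SeaC] [SeaCU B], ∀ m ≥ m0, ∀ a : Bool,
    Rho (2 * Real.log m ^ 2) (fun t => sN m a * Cv.P t) (((Fil.qo : ℕ) : ℝ) * m)
      (Real.exp (-(Real.log m ^ 2))) := by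
  obtain ⟨m0, h0⟩ := exists_rho1C B
  refine ⟨max m0 Fil.qo, @fun _ hS m hm a => ?_⟩
  have hq : ((Fil.qo : ℕ) : ℝ) ≤ m := by exact_mod_cast (le_max_right _ _).trans hm
  have hqo := Fil.one_le_qor
  have hmp : (0 : ℝ) < m := by linarith
  have hm1 : 1 ≤ m := by exact_mod_cast hqo.trans hq
  have hs := sN_le hm1 a
  have hs0 := sN_nonneg m a
  have h1 := (h0 m ((le_max_left _ _).trans hm)).smul (c := sN m a / m) (by positivity)
  have e : (fun t => sN m a / m * ((m : ℝ) * Cv.P t)) = fun t => sN m a * Cv.P t := by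
    funext t
    field_simp
  rw [e] at h1
  refine h1.mono (le_of_eq_of_le (by field_simp) hs) ?_
  have hE := Real.exp_pos (-(Real.log m ^ 2))
  have h2 : sN m a / m ≤ m := by
    rw [div_le_iff₀ hmp]
    exact hs.trans (mul_le_mul_of_nonneg_right hq hmp.le)
  calc sN m a / m * ((m : ℝ)⁻¹ * Real.exp (-(Real.log m ^ 2))) ≤
      m * ((m : ℝ)⁻¹ * Real.exp (-(Real.log m ^ 2))) :=
        mul_le_mul_of_nonneg_right h2 (by positivity)
    _ = _ := by field_simp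

/-! ### the mean on the displaced curve -/

/-- **displaced curves**: positions `t + D t`; `D` is within `r` of the static displacement, the mass of the
difference is at most `M` -/
structure DisK [SeaC] (W r M : ℝ) (D : ℝ → ℂ) : Prop where
  pth : PthK W fun t => t + D t
  near : ∀ t, ‖D t - Cv.eta t * Complex.I‖ ≤ r
  int : Integrable fun t => Cv.P t * ‖D t - Cv.eta t * Complex.I‖
  mass : ∫ t, Cv.P t * ‖D t - Cv.eta t * Complex.I‖ ≤ M

/-- the window of the static curve -/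
structure WinC [SeaC] (lo hi : ℝ) : Prop where
  lo0 : lo ≤ 0
  hi0 : 0 ≤ hi
  ge : ∀ t, lo ≤ Cv.eta t
  le : ∀ t, Cv.eta t ≤ hi

section mean

variable [SeaC] {W r M lo hi : ℝ} {D : ℝ → ℂ}

theorem DisK.cont (h : DisK W r M D) : Continuous fun t : ℝ => (t : ℂ) + D t := h.pth.cont

/-- the displaced curve is in the strip -/
theorem DisK.mem (h : DisK W r M D) (hw : WinC lo hi) (hr : 0 < r) {y₁ y₂ : ℝ}
    (h1 : y₁ ≤ lo - 5 * r) (h2 : hi + 5 * r ≤ y₂) (t : ℝ) :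
    (t + D t : ℂ) ∈ PBE.Sp (y₁ + 3 * r) (y₂ - 3 * r) := by
  have h3 := (Complex.abs_im_le_norm (D t - Cv.eta t * Complex.I)).trans (h.near t)
  have e1 : (D t - Cv.eta t * Complex.I).im = (D t).im - Cv.eta t := by simp
  rw [e1, abs_le] at h3
  have h4 := hw.ge t
  have h5 := hw.le t
  have e2 : (t + D t : ℂ).im = (D t).im := by simp
  constructor
  · rw [e2]; linarith [h3.1]
  · rw [e2]; linarith [h3.2]

/-- the static curve is in the strip -/
theorem ga_mem (hw : WinC lo hi) (hr : 0 < r) {y₁ y₂ : ℝ} (h1 : y₁ ≤ lo - 5 * r)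
    (h2 : hi + 5 * r ≤ y₂) (t : ℝ) : Cv.ga t ∈ PBE.Sp (y₁ + 3 * r) (y₂ - 3 * r) := by
  have h4 := hw.ge t
  have h5 := hw.le t
  constructor
  · rw [Cv.ga_im]; linarith
  · rw [Cv.ga_im]; linarith

/-- **contour shift of the mean**: the mean on the static curve is the mean on the real line of `Pc` -/
theorem shiftC (B : SeaCB) [SeaCU B] (hw : WinC lo hi) {y₁ y₂ : ℝ} {g : ℂ → ℂ} (hg : BC y₁ y₂ 1 g)
    (h1 : y₁ < lo) (h2 : hi < y₂) : Integrable (fun t : ℝ => Cv.Pc t) ∧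
      ∫ t : ℝ, (Cv.P t : ℂ) * g (Cv.ga t) = ∫ t : ℝ, Cv.Pc t * g t := by
  obtain ⟨C, hC0, hC⟩ := Cv.Pc_dec B
  have hB := B.h0
  have hl := l_pos
  have hlo := hw.lo0
  have hhi := hw.hi0
  obtain ⟨Cg, hCg, hP⟩ := Cv.ga_path B
  have hP' := @hP _ _
  obtain ⟨lo', hlo'⟩ : ∃ lo', lo' = max lo (-B.h) := ⟨_, rfl⟩
  obtain ⟨hi', hhi'⟩ : ∃ hi', hi' = min hi (l / 4) := ⟨_, rfl⟩
  have k1 : lo ≤ lo' := by rw [hlo']; exact le_max_left _ _
  have k2 : -B.h ≤ lo' := by rw [hlo']; exact le_max_right _ _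
  have k3 : hi' ≤ hi := by rw [hhi']; exact min_le_left _ _
  have k4 : hi' ≤ l / 4 := by rw [hhi']; exact min_le_right _ _
  have k5 : lo' ≤ 0 := by rw [hlo']; exact max_le hlo (by linarith)
  have k6 : 0 ≤ hi' := by rw [hhi']; exact le_min hhi (by linarith)
  have P0 : Cv.SPath lo' hi' 1 Cg Cv.ga Cv.ga' :=
    { der := hP'.der
      cont := hP'.cont
      im_ge := fun t => by rw [Cv.ga_im, hlo']; exact max_le (hw.ge t) (Cv.eta_h B t)
      im_le := fun t => by rw [Cv.ga_im, hhi']; exact le_min (hw.le t) (Cv.eta_l4 B t)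
      dle := hP'.dle
      c_pos := hP'.c_pos
      c_le := hP'.c_le
      mono := hP'.mono
      near := hP'.near }
  have D0 : Cv.SDec lo' hi' C (8 / 3) (fun z => Cv.Pc z * g z) := by
    refine ⟨fun z q1 q2 => ?_, fun z q1 q2 => ?_⟩
    · have hz : z ∈ PBE.Sp y₁ y₂ := ⟨by linarith, by linarith⟩
      exact (hC.diff z (by linarith) (by linarith)).mul (hg.hasDeriv hz).differentiableAt
    · have hz : z ∈ PBE.Sp y₁ y₂ := ⟨by linarith, by linarith⟩
      rw [norm_mul]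
      calc ‖Cv.Pc z‖ * ‖g z‖ ≤ C * Real.exp (-(8 / 3) * |z.re|) * 1 :=
            mul_le_mul (hC.bd z (by linarith) (by linarith)) (hg.bd z hz) (norm_nonneg _)
              (by positivity)
        _ = _ := mul_one _
  have D1 : Cv.SDec lo' hi' C (8 / 3) Cv.Pc :=
    ⟨fun z q1 q2 => hC.diff z (by linarith) (by linarith),
      fun z q1 q2 => hC.bd z (by linarith) (by linarith)⟩
  have Q := Cv.hline (lo := lo') (hi := hi') (y := 0) k5 k6
  have i0 := (Q.shift (by norm_num) D1).1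
  have e := P0.shift2 Q (by norm_num) D0
  refine ⟨?_, ?_⟩
  · refine i0.congr (ae_of_all _ fun t => ?_)
    simp
  · have e1 : (fun t : ℝ => (Cv.P t : ℂ) * g (Cv.ga t)) =
        fun t : ℝ => Cv.Pc (Cv.ga t) * g (Cv.ga t) * Cv.ga' t := by
      funext t
      rw [← Cv.Pc_ga]
      ring
    rw [e1, e]
    refine integral_congr_ae (ae_of_all _ fun t => ?_)
    simp

end mean

variable [Fil] [Ends]

/-- **the mean on the displaced curve of a species** -/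
theorem meanC (B : SeaCB) [SeaC] [SeaCU B] {C0 y₁ y₂ r M W : ℝ} {g : ℂ → ℂ} {ρ : ℝ → ℂ} {m : ℕ}
    {D : ℝ → ℂ} (hm : 1 ≤ m) {lo hi : ℝ} (hw : WinC lo hi) (hg : BC y₁ y₂ 1 g) (hr : 0 < r)
    (hy1 : y₁ ≤ lo - 5 * r) (hy2 : hi + 5 * r ≤ y₂) (h : DisK W r M D)
    (hρ : DNC C0 m (fun t => Cv.Pc t) ρ) (a : Bool) :
    ‖(∫ t : ℝ, ((sN m a * Cv.P t : ℝ) : ℂ) * g (t + D t)) - (Fil.b a : ℂ) * ∫ t : ℝ, ρ t * g t‖ ≤
      1 / r * (((Fil.qo : ℕ) : ℝ) * m * M) + Fil.q * C0 + Fil.q * ((Fil.qo : ℕ) : ℝ) := by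
  obtain ⟨hρi, hρd⟩ := hρ
  have hmp : (0:ℝ) ≤ m := Nat.cast_nonneg m
  have hpos := Cv.P_pos B
  have hPi := Cv.P_int B
  have hl := l_pos
  have hlo := hw.lo0
  have hhi := hw.hi0
  obtain ⟨ip, es⟩ := shiftC B hw hg (by linarith) (by linarith)
  have hin : ∀ t : ℝ, (t + D t : ℂ) ∈ PBE.Sp (y₁ + r) (y₂ - r) := fun t =>
    ⟨by linarith [(h.mem hw hr hy1 hy2 t).1], by linarith [(h.mem hw hr hy1 hy2 t).2]⟩
  have hga : ∀ t : ℝ, Cv.ga t ∈ PBE.Sp (y₁ + r) (y₂ - r) := fun t =>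
    ⟨by linarith [(ga_mem hw hr hy1 hy2 t).1], by linarith [(ga_mem hw hr hy1 hy2 t).2]⟩
  have hin' : ∀ t : ℝ, (t + D t : ℂ) ∈ PBE.Sp y₁ y₂ := fun t =>
    ⟨by linarith [(hin t).1], by linarith [(hin t).2]⟩
  have hga' : ∀ t : ℝ, Cv.ga t ∈ PBE.Sp y₁ y₂ := fun t =>
    ⟨by linarith [(hga t).1], by linarith [(hga t).2]⟩
  have hre' : ∀ t : ℝ, (t : ℂ) ∈ PBE.Sp y₁ y₂ := fun t =>
    ⟨by simpa using (by linarith : y₁ < 0), by simpa using (by linarith : 0 < y₂)⟩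
  have cf : Continuous fun t : ℝ => g (t + D t) := by
    refine continuous_iff_continuousAt.2 fun t => ?_
    exact ContinuousAt.comp_of_eq (hg.hasDeriv (hin' t)).continuousAt h.cont.continuousAt rfl
  have cg : Continuous fun t : ℝ => g (Cv.ga t) := by
    refine continuous_iff_continuousAt.2 fun t => ?_
    exact ContinuousAt.comp_of_eq (hg.hasDeriv (hga' t)).continuousAt
      Cv.continuous_ga.continuousAt rfl
  have c0 : Continuous fun t : ℝ => g t := by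
    refine continuous_iff_continuousAt.2 fun t => ?_
    exact ContinuousAt.comp_of_eq (hg.hasDeriv (hre' t)).continuousAt
      Complex.continuous_ofReal.continuousAt rfl
  have hi : ∀ s : ℝ, Integrable fun t : ℝ => ((s * Cv.P t : ℝ) : ℂ) * g (t + D t) :=
    fun s => (hPi.const_mul s).ofReal.mul_bdd (c := 1) cf.aestronglyMeasurable
      (ae_of_all _ fun t => hg.bd _ (hin' t))
  have hj : ∀ s : ℝ, Integrable fun t : ℝ => ((s * Cv.P t : ℝ) : ℂ) * g (Cv.ga t) :=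
    fun s => (hPi.const_mul s).ofReal.mul_bdd (c := 1) cg.aestronglyMeasurable
      (ae_of_all _ fun t => hg.bd _ (hga' t))
  have hk : Integrable fun t : ℝ => Cv.Pc t * g t :=
    ip.mul_bdd (c := 1) c0.aestronglyMeasurable (ae_of_all _ fun t => hg.bd _ (hre' t))
  have hk' : Integrable fun t : ℝ => ρ t * g t :=
    hρi.mul_bdd (c := 1) c0.aestronglyMeasurable (ae_of_all _ fun t => hg.bd _ (hre' t))
  -- the displacement
  have d1 : ‖(∫ t : ℝ, ((sN m a * Cv.P t : ℝ) : ℂ) * g (t + D t)) -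
      ∫ t : ℝ, ((sN m a * Cv.P t : ℝ) : ℂ) * g (Cv.ga t)‖ ≤
      1 / r * (((Fil.qo : ℕ) : ℝ) * m * M) := by
    rw [← integral_sub (hi _) (hj _)]
    have hs0 := sN_nonneg m a
    have hs := sN_le hm a
    refine (norm_integral_le_of_norm_le (h.int.const_mul (1 / r * sN m a))
      (ae_of_all _ fun t => ?_)).trans ?_
    · rw [← mul_sub, norm_mul, Complex.norm_real,
        Real.norm_of_nonneg (mul_nonneg hs0 (hpos t).le)]
      have h3 := BC_lipC hg hr (hin t) (hga t)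
      have e4 : (t + D t : ℂ) - Cv.ga t = D t - Cv.eta t * Complex.I := by
        unfold Cv.ga
        ring
      rw [e4] at h3
      calc sN m a * Cv.P t * ‖g (t + D t) - g (Cv.ga t)‖ ≤
            sN m a * Cv.P t * (1 / r * ‖D t - Cv.eta t * Complex.I‖) :=
            mul_le_mul_of_nonneg_left h3 (mul_nonneg hs0 (hpos t).le)
        _ = _ := by ring
    · rw [integral_const_mul]
      have hM0 : 0 ≤ ∫ t, Cv.P t * ‖D t - Cv.eta t * Complex.I‖ :=
        integral_nonneg fun t => mul_nonneg (hpos t).le (norm_nonneg _)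
      calc 1 / r * sN m a * ∫ t, Cv.P t * ‖D t - Cv.eta t * Complex.I‖ =
            1 / r * (sN m a * ∫ t, Cv.P t * ‖D t - Cv.eta t * Complex.I‖) := by ring
        _ ≤ 1 / r * (((Fil.qo : ℕ) : ℝ) * m * M) := by
            refine mul_le_mul_of_nonneg_left ?_ (by positivity)
            exact mul_le_mul hs h.mass hM0 (by positivity)
  -- the number of rows
  have d2 : ‖(∫ t : ℝ, ((sN m a * Cv.P t : ℝ) : ℂ) * g (Cv.ga t)) -
      ∫ t : ℝ, ((Fil.b a * m * Cv.P t : ℝ) : ℂ) * g (Cv.ga t)‖ ≤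
      Fil.q * ((Fil.qo : ℕ) : ℝ) := by
    rw [← integral_sub (hj _) (hj _)]
    refine (norm_integral_le_of_norm_le (g := fun t => |sN m a - Fil.b a * m| * Cv.P t)
      (hPi.const_mul _) (ae_of_all _ fun t => ?_)).trans ?_
    · have e : ((sN m a * Cv.P t : ℝ) : ℂ) * g (Cv.ga t) -
          ((Fil.b a * m * Cv.P t : ℝ) : ℂ) * g (Cv.ga t) =
          (((sN m a - Fil.b a * m) * Cv.P t : ℝ) : ℂ) * g (Cv.ga t) := by
        push_cast
        ring
      rw [e, norm_mul, Complex.norm_real, Real.norm_eq_abs, abs_mul, abs_of_pos (hpos t)]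
      exact mul_le_of_le_one_right (mul_nonneg (abs_nonneg _) (hpos t).le)
        (hg.bd _ (hga' t))
    · rw [integral_const_mul, Cv.P_mass, mul_one]
      exact sN_sub_bC hm a
  -- the density of the real line
  have d3 : ‖(∫ t : ℝ, ((Fil.b a * m * Cv.P t : ℝ) : ℂ) * g (Cv.ga t)) -
      (Fil.b a : ℂ) * ∫ t : ℝ, ρ t * g t‖ ≤ Fil.q * C0 := by
    have e1 : (∫ t : ℝ, ((Fil.b a * m * Cv.P t : ℝ) : ℂ) * g (Cv.ga t)) =
        (Fil.b a : ℂ) * ∫ t : ℝ, ((m : ℝ) * Cv.Pc t) * g t := by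
      have e2 : (fun t : ℝ => ((Fil.b a * m * Cv.P t : ℝ) : ℂ) * g (Cv.ga t)) =
          fun t : ℝ => ((Fil.b a : ℂ) * (m : ℝ)) * ((Cv.P t : ℂ) * g (Cv.ga t)) := by
        funext t
        push_cast
        ring
      have e3 : (fun t : ℝ => (((m : ℝ) : ℂ) * Cv.Pc t) * g t) =
          fun t : ℝ => ((m : ℝ) : ℂ) * (Cv.Pc t * g t) := by
        funext t
        ring
      rw [e2, integral_const_mul, es, e3, integral_const_mul]
      ring
    rw [e1, ← mul_sub]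
    have i3 : Integrable fun t : ℝ => (((m : ℝ) : ℂ) * Cv.Pc t) * g t := by
      refine (hk.const_mul ((m : ℝ) : ℂ)).congr (ae_of_all _ fun t => ?_)
      simp only
      ring
    rw [← integral_sub i3 hk', norm_mul, Complex.norm_real, Real.norm_of_nonneg (Fil.b_nonneg a)]
    have hn : ‖∫ t : ℝ, ((((m : ℝ) : ℂ) * Cv.Pc t) * g t - ρ t * g t)‖ ≤ C0 := by
      refine (norm_integral_le_of_norm_le (g := fun t => ‖ρ t - ((m : ℝ) : ℂ) * Cv.Pc t‖) ?_
        (ae_of_all _ fun t => ?_)).trans hρd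
      · exact (hρi.sub (ip.const_mul _)).norm
      · rw [← sub_mul, norm_mul, norm_sub_rev]
        calc _ ≤ ‖ρ t - ((m : ℝ) : ℂ) * Cv.Pc t‖ * 1 := by
              gcongr
              exact hg.bd _ (hre' t)
          _ = _ := mul_one _
    have hC0 : 0 ≤ C0 := (norm_nonneg _).trans hn
    exact mul_le_mul (Fil.b_le a) hn (norm_nonneg _) (Nat.cast_nonneg _)
  have e4 : (∫ t : ℝ, ((sN m a * Cv.P t : ℝ) : ℂ) * g (t + D t)) -
      (Fil.b a : ℂ) * ∫ t : ℝ, ρ t * g t =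
      ((∫ t : ℝ, ((sN m a * Cv.P t : ℝ) : ℂ) * g (t + D t)) -
        ∫ t : ℝ, ((sN m a * Cv.P t : ℝ) : ℂ) * g (Cv.ga t)) +
      ((∫ t : ℝ, ((Fil.b a * m * Cv.P t : ℝ) : ℂ) * g (Cv.ga t)) -
        (Fil.b a : ℂ) * ∫ t : ℝ, ρ t * g t) +
      ((∫ t : ℝ, ((sN m a * Cv.P t : ℝ) : ℂ) * g (Cv.ga t)) -
        ∫ t : ℝ, ((Fil.b a * m * Cv.P t : ℝ) : ℂ) * g (Cv.ga t)) := by ring
  rw [e4]
  exact (norm_add_le _ _).trans (add_le_add ((norm_add_le _ _).trans (add_le_add d1 d3)) d2)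

/-- the statistic on the curve from the real statistics -/
theorem nu1C_le {D : Bool → ℝ → ℂ} {ρ : ℝ → ℂ} {ρ' : ℝ → ℝ} (g : ℂ → ℂ) (s : Bool) {p q : ℕ}
    {C1 : ℝ} (hρ' : Integrable ρ') (hf : Continuous fun t : ℝ => g (t + D s t))
    (hb : ∀ t : ℝ, ‖g (t + D s t)‖ ≤ 1)
    (hC : ‖(∫ t : ℝ, ((ρ' t : ℝ) : ℂ) * g (t + D s t)) -
      (Fil.b s : ℂ) * ∫ t : ℝ, ρ t * g t‖ ≤ C1)
    (x : Cfg p q) :
    ‖nu1C ρ D s g x‖ ≤ (if s then |nuF ρ' x.1 (fun t => (g (t + D s t)).re)| +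
        |nuF ρ' x.1 (fun t => (g (t + D s t)).im)| else
        |nuF ρ' x.2 (fun t => (g (t + D s t)).re)| +
        |nuF ρ' x.2 (fun t => (g (t + D s t)).im)|) + C1 := by
  have hi : Integrable fun t : ℝ => ((ρ' t : ℝ) : ℂ) * g (t + D s t) :=
    hρ'.ofReal.mul_bdd (c := 1) hf.aestronglyMeasurable (ae_of_all _ hb)
  cases s
  · have e : nu1C ρ D false g x = nuC ρ' x.2 (fun t => g (t + D false t)) +
        ((∫ t : ℝ, ((ρ' t : ℝ) : ℂ) * g (t + D false t)) -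
          (Fil.b false : ℂ) * ∫ t : ℝ, ρ t * g t) := by
      unfold nu1C nuC ptZ
      simp only [Bool.false_eq_true, if_false]
      ring
    rw [e]
    exact (norm_add_le _ _).trans (add_le_add (norm_nuC_le hi) hC)
  · have e : nu1C ρ D true g x = nuC ρ' x.1 (fun t => g (t + D true t)) +
        ((∫ t : ℝ, ((ρ' t : ℝ) : ℂ) * g (t + D true t)) -
          (Fil.b true : ℂ) * ∫ t : ℝ, ρ t * g t) := by
      unfold nu1C nuC ptZ
      simp only [if_true]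
      ring
    rw [e]
    exact (norm_add_le _ _).trans (add_le_add (norm_nuC_le hi) hC)

theorem measurable_nu1C {D : Bool → ℝ → ℂ} {ρ : ℝ → ℂ} (g : ℂ → ℂ) (s : Bool) {p q : ℕ}
    (hf : Continuous fun t : ℝ => g (t + D s t)) :
    Measurable fun x : Cfg p q => nu1C ρ D s g x := by
  unfold nu1C ptZ
  refine Measurable.sub ?_ measurable_const
  cases s
  · simp only [Bool.false_eq_true, if_false]
    refine Finset.measurable_fun_sum _ fun i _ => ?_
    exact hf.measurable.comp ((measurable_pi_apply i).comp measurable_snd)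
  · simp only [if_true]
    refine Finset.measurable_fun_sum _ fun i _ => ?_
    exact hf.measurable.comp ((measurable_pi_apply i).comp measurable_fst)

/-- **one factor**: the statistic `1 + |ν_X g| + |ν_Y g'|` on the displaced curve. The displacement may depend
on everything; `r` is the distance to the static curve, `C1 * (log m)^2 / m` the mass of the difference. -/
theorem exists_StC (B : SeaCB) (C0 : ℝ) {lo hi y₁ y₂ r : ℝ} (hr0 : 0 < r) (hr1 : r ≤ 1)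
    (hy1 : y₁ ≤ lo - 5 * r) (hy2 : hi + 5 * r ≤ y₂) {W C1 : ℝ} (hW : 1 ≤ W) (hC1 : 0 ≤ C1)
    {Cg : ℝ} (hCg : 1 ≤ Cg) {Cn : ℝ} (hCn : 0 ≤ Cn) :
    ∃ (Ca : ℝ) (m0 : ℕ), 1 ≤ Ca ∧ ∀ [SeaC] [SeaCU B], WinC lo hi → ∀ m ≥ m0, ∀ D : Bool → ℝ → ℂ,
      (∀ a, DisK W r (C1 * Real.log m ^ 2 / m) (D a)) →
      ∀ ρ : ℝ → ℂ, DNC C0 m (fun t => Cv.Pc t) ρ → ∀ g g' : ℂ → ℂ,
      BC y₁ y₂ 1 g → BC y₁ y₂ 1 g' → ∀ p q : ℕ, (p : ℝ) ≤ Cn * m →
      (q : ℝ) ≤ Cn * m →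
      ∃ X : Cfg p q → ℝ, (∀ x, nuEC ρ D g g' x ≤ ENNReal.ofReal |X x|) ∧
        (Measurable fun x : Cfg p q => nuEC ρ D g g' x) ∧
        St (2 * Real.log m ^ 2) (fun a t => sN m a * Cv.P t)
          (1 / (Cg * Real.log m ^ 2))
          (Cg * Real.log m ^ 6) (Real.log m ^ 2 / 40) p q (Ca * Real.log m ^ 10) (Ca * m) X := by
  obtain ⟨K, hK0, HK⟩ := exists_KC1_path
  obtain ⟨m2, H2⟩ := exists_rhoC B
  obtain ⟨m3, H3⟩ := exists_log_ge 1
  obtain ⟨m4, H4⟩ := polylog_le 1 2 (one_pos : (0:ℝ) < 1)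
  have hF1 := Fil.one_le_qr
  obtain ⟨Q, hQ⟩ : ∃ Q : ℝ, Q = Fil.q := ⟨_, rfl⟩
  rw [← hQ] at hF1
  obtain ⟨Qo, hQo⟩ : ∃ Qo : ℝ, Qo = (Fil.qo : ℕ) := ⟨_, rfl⟩
  have hQo1 : 1 ≤ Qo := by rw [hQo]; exact Fil.one_le_qor
  obtain ⟨Ct, hCt⟩ : ∃ Ct, Ct = 1 + 2 * (Qo * C1 / r + Q * |C0| + Q * Qo) := ⟨_, rfl⟩
  obtain ⟨Ka, hKa⟩ : ∃ Ka, Ka = 32 * Cg * K * (W ^ 3 * (1 / r ^ 3)) + 1 := ⟨_, rfl⟩
  have hW0 : 0 ≤ W := zero_le_one.trans hW
  have hCt1 : 1 ≤ Ct := by
    rw [hCt]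
    have : 0 ≤ Qo * C1 / r + Q * |C0| + Q * Qo := by positivity
    linarith
  have hKa1 : 1 ≤ Ka := by
    rw [hKa]
    have : 0 ≤ 32 * Cg * K * (W ^ 3 * (1 / r ^ 3)) := by positivity
    linarith
  refine ⟨2 * (16 * (2 * Ka) + Ct) + (4 * Cn + 4 * Qo) + Ct, max m2 (max m3 (max m4 1)),
    by linarith, @fun _ hS hw m hm D hD ρ hρ g g' hg hg' p q hp hq => ?_⟩
  have k2 : m2 ≤ m := (le_max_left _ _).trans hm
  have k3 : m3 ≤ m := (le_max_left _ _).trans ((le_max_right _ _).trans hm)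
  have k4 : m4 ≤ m := (le_max_left _ _).trans ((le_max_right _ _).trans ((le_max_right _ _).trans hm))
  have k5 : 1 ≤ m := (le_max_right _ _).trans ((le_max_right _ _).trans ((le_max_right _ _).trans hm))
  have hm1 : (1:ℝ) ≤ m := by exact_mod_cast k5
  have hrho := H2 m k2
  have hL1 := H3 m k3
  have hL2 := H4 m k4
  rw [one_mul, Real.rpow_one] at hL2
  obtain ⟨L, hL⟩ : ∃ L, L = Real.log m := ⟨_, rfl⟩
  rw [← hL] at hL1 hL2 ⊢
  simp only [← hL, ← hQo] at hrho hD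
  have hA : 1 ≤ 2 * L ^ 2 := by nlinarith
  have hA0 : 0 ≤ 2 * L ^ 2 := by linarith
  have hL2' : 1 ≤ L ^ 2 := by nlinarith
  have hL10 : 1 ≤ L ^ 10 := one_le_pow₀ hL1
  have hL210 : L ^ 2 ≤ L ^ 10 := pow_le_pow_right₀ hL1 (by norm_num)
  have hc : 0 < 1 / (Cg * L ^ 2) := by positivity
  have hΛ : 0 ≤ Cg * L ^ 6 := by positivity
  -- the test functions on the curves
  obtain ⟨f1, f2, f3⟩ := HK (2 * L ^ 2) hA hg hr0 hr1 hW (fun t => (hD true).mem hw hr0 hy1 hy2 t)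
    (hD true).pth
  obtain ⟨f1', f2', f3'⟩ := HK (2 * L ^ 2) hA hg' hr0 hr1 hW
    (fun t => (hD false).mem hw hr0 hy1 hy2 t) (hD false).pth
  obtain ⟨Λf, hΛf⟩ : ∃ Λf, Λf = K * (2 * L ^ 2) ^ 3 * (W ^ 3 * (1 / r ^ 3)) := ⟨_, rfl⟩
  rw [← hΛf] at f1 f1'
  have hΛf0 : 0 < Λf := by
    have hWp : 0 < W := by linarith
    rw [hΛf]
    positivity
  obtain ⟨δ, hδ⟩ : ∃ δ, δ = Real.exp (-(L ^ 2)) := ⟨_, rfl⟩
  rw [← hδ] at hrho
  have hδ1 : δ ≤ 1 := by
    rw [hδ]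
    exact Real.exp_le_one_iff.2 (by linarith)
  have sX1 := St.nuFX (τ := L ^ 2 / 40) (p := p) (n := q) hA0 hc hΛ hrho
    (Complex.continuous_re.comp f2) hΛf0
    (f1.re hA0) (F := 1) fun t => (Complex.abs_re_le_norm _).trans (f3 t)
  have sX2 := St.nuFX (τ := L ^ 2 / 40) (p := p) (n := q) hA0 hc hΛ hrho
    (Complex.continuous_im.comp f2) hΛf0
    (KC1_im hA0 f1) (F := 1) fun t => (Complex.abs_im_le_norm _).trans (f3 t)
  have sY1 := St.nuFY (τ := L ^ 2 / 40) (p := p) (n := q) hA0 hc hΛ hrho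
    (Complex.continuous_re.comp f2') hΛf0
    (f1'.re hA0) (F := 1) fun t => (Complex.abs_re_le_norm _).trans (f3' t)
  have sY2 := St.nuFY (τ := L ^ 2 / 40) (p := p) (n := q) hA0 hc hΛ hrho
    (Complex.continuous_im.comp f2') hΛf0
    (KC1_im hA0 f1') (F := 1) fun t => (Complex.abs_im_le_norm _).trans (f3' t)
  obtain ⟨a0, ha0⟩ : ∃ a0, a0 = 2 * (aLin (1 / (Cg * L ^ 2)) (Cg * L ^ 6) Λf + 1 * δ) := ⟨_, rfl⟩
  have ha : a0 ≤ 2 * Ka * L ^ 10 := by
    have h3 := aLin_leC hCg hL1 hΛf0.le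
    have h4 : 4 * Cg * L ^ 4 * Λf = 32 * Cg * K * (W ^ 3 * (1 / r ^ 3)) * L ^ 10 := by
      rw [hΛf]
      ring
    rw [h4] at h3
    rw [ha0, hKa]
    nlinarith
  rw [← ha0] at sX1 sX2 sY1 sY2
  have ht : 0 < Ct * L ^ 2 := by positivity
  have s5 := ((sX1.addA sX2).addA (sY1.addA sY2)).addA
    (St.const (R := 2 * L ^ 2) (ρ := fun a t => sN m a * Cv.P t)
      (c := 1 / (Cg * L ^ 2)) (Λ := Cg * L ^ 6) (τ := L ^ 2 / 40) (p := p) (n := q) ht)
  refine ⟨_, ?_, ?_, s5.mono ?_ ?_⟩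
  · intro x
    have d1 := meanC B k5 hw hg hr0 hy1 hy2 (hD true) hρ true
    have d2 := meanC B k5 hw hg' hr0 hy1 hy2 (hD false) hρ false
    rw [← hQ, ← hQo] at d1 d2
    have n1 := nu1C_le (D := D) g true (hrho true).i f2 f3 d1 x
    have n2 := nu1C_le (D := D) g' false (hrho false).i f2' f3' d2 x
    simp only [if_true] at n1
    simp only [Bool.false_eq_true, if_false] at n2
    have hCd : 1 / r * (Qo * (m : ℝ) * (C1 * L ^ 2 / m)) + Q * C0 + Q * Qo ≤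
        Qo * C1 / r * L ^ 2 + Q * |C0| + Q * Qo := by
      have h5 : 1 / r * (Qo * (m : ℝ) * (C1 * L ^ 2 / m)) = Qo * C1 / r * L ^ 2 := by
        field_simp
      rw [h5]
      have h6 : Q * C0 ≤ Q * |C0| := mul_le_mul_of_nonneg_left (le_abs_self _) (by linarith)
      linarith
    have hfin : 1 + ‖nu1C ρ D true g x‖ + ‖nu1C ρ D false g' x‖ ≤
        (|nuF (fun t => sN m true * Cv.P t) x.1
          (fun t => (g (t + D true t)).re)| +
        |nuF (fun t => sN m true * Cv.P t) x.1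
          (fun t => (g (t + D true t)).im)|) +
        (|nuF (fun t => sN m false * Cv.P t) x.2
          (fun t => (g' (t + D false t)).re)| +
        |nuF (fun t => sN m false * Cv.P t) x.2
          (fun t => (g' (t + D false t)).im)|) + Ct * L ^ 2 := by
      have h6 : 1 + 2 * (Qo * C1 / r * L ^ 2 + Q * |C0| + Q * Qo) ≤ Ct * L ^ 2 := by
        rw [hCt]
        have h9 : 0 ≤ Q * Qo * (L ^ 2 - 1) := by
          have : 0 ≤ L ^ 2 - 1 := by linarith
          positivity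
        have h8 : 0 ≤ Q * |C0| * (L ^ 2 - 1) := by
          have : 0 ≤ L ^ 2 - 1 := by linarith
          positivity
        nlinarith
      linarith
    unfold nuEC
    rw [← ofReal_norm, ← ofReal_norm, ← ENNReal.ofReal_one, ← ENNReal.ofReal_add zero_le_one
      (norm_nonneg _), ← ENNReal.ofReal_add (by positivity) (norm_nonneg _)]
    exact ENNReal.ofReal_le_ofReal (hfin.trans (abs_nestC _ _ _ _ ht.le).ge)
  · unfold nuEC
    exact ((measurable_const.add (measurable_nu1C g true f2).enorm)).add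
      (measurable_nu1C g' false f2').enorm
  · have h7 : Ct * L ^ 2 ≤ Ct * L ^ 10 := by gcongr
    have h8 : 0 ≤ (4 * Cn + 4 * Qo + Ct) * L ^ 10 := by positivity
    nlinarith
  · have h7 : Ct * L ^ 2 ≤ Ct * m := by gcongr
    have h8 : 0 ≤ (2 * (16 * (2 * Ka) + Ct)) * (m : ℝ) := by positivity
    nlinarith

/-- **products of statistics on the displaced curve**: bound `m^(k+1)`, price `m^ε` -/
theorem statUC (B : SeaCB) (C0 : ℝ) {lo hi y₁ y₂ r : ℝ} (hr0 : 0 < r) (hr1 : r ≤ 1)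
    (hy1 : y₁ ≤ lo - 5 * r) (hy2 : hi + 5 * r ≤ y₂) {W C1 : ℝ} (hW : 1 ≤ W) (hC1 : 0 ≤ C1)
    (k : ℕ) {Cg ε Cn : ℝ} (hCg : 1 ≤ Cg) (hε : 0 < ε) (hCn : 0 ≤ Cn) :
    ∃ m0 : ℕ, ∀ [SeaC] [SeaCU B], WinC lo hi → ∀ m ≥ m0, ∀ D : Bool → ℝ → ℂ,
      (∀ a, DisK W r (C1 * Real.log m ^ 2 / m) (D a)) →
      ∀ a b : ℕ, (a : ℝ) ≤ Cn * m → (b : ℝ) ≤ Cn * m →
    ∀ ρ : ℝ → ℂ, DNC C0 m (fun t => Cv.Pc t) ρ → ∀ g g' : Fin k → ℂ → ℂ,
      (∀ j, BC y₁ y₂ 1 (g j) ∧ BC y₁ y₂ 1 (g' j)) →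
      StatOK (2 * Real.log m ^ 2) (fun a t => sN m a * Cv.P t)
        (1 / (Cg * Real.log m ^ 2)) (Cg * Real.log m ^ 6) (Real.log m ^ 2 / 40) a b
        ((m : ℝ) ^ (k + 1)) ((m : ℝ) ^ ε)
        (fun x => ∏ j, nuEC ρ D (g j) (g' j) x) := by
  obtain ⟨Ca, m1, hCa, H⟩ := exists_StC B C0 hr0 hr1 hy1 hy2 hW hC1 hCg hCn
  obtain ⟨m2, H2⟩ := polylog_le (2 * (k * Ca) ^ k + Ca ^ k) (10 * k) hε
  obtain ⟨m3, H3⟩ := pow_le_explog k (c := 1 / 40) (by norm_num)
  obtain ⟨m4, H4⟩ := exists_log_ge 1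
  obtain ⟨m5, H5⟩ := exists_nat_ge (Ca ^ k)
  obtain ⟨m6, H6⟩ := polylog_le 2 0 hε
  refine ⟨max (max (max m1 m2) (max m3 m4)) (max (max m5 m6) 1),
    @fun _ hS hw m hm D hD a b ha hb ρ hρ g g' hg => ?_⟩
  have hm' := (le_max_left _ _).trans hm
  have hm'' := (le_max_right _ _).trans hm
  have q1 : m1 ≤ m := (le_max_left _ _).trans ((le_max_left _ _).trans hm')
  have q2 : m2 ≤ m := (le_max_right _ _).trans ((le_max_left _ _).trans hm')
  have q3 : m3 ≤ m := (le_max_left _ _).trans ((le_max_right _ _).trans hm')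
  have q4 : m4 ≤ m := (le_max_right _ _).trans ((le_max_right _ _).trans hm')
  have q5 : m5 ≤ m := (le_max_left _ _).trans ((le_max_left _ _).trans hm'')
  have q6 : m6 ≤ m := (le_max_right _ _).trans ((le_max_left _ _).trans hm'')
  have q7 : 1 ≤ m := (le_max_right _ _).trans hm''
  have r2 := H2 m q2
  have r3 := H3 m q3
  have hL1 := H4 m q4
  have r6 := H6 m q6
  have hm1 : (1:ℝ) ≤ m := by exact_mod_cast q7
  have hm5 : Ca ^ k ≤ m := H5.trans (by exact_mod_cast q5)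
  choose X hX1 hX2 hX3 using fun j => H hw m q1 D hD ρ hρ (g j) (g' j) (hg j).1 (hg j).2 a b ha hb
  obtain ⟨L, hL⟩ : ∃ L, L = Real.log m := ⟨_, rfl⟩
  simp only [← hL] at r2 r3 hL1 hX3 ⊢
  have hmeas : Measurable fun x : Cfg a b => ∏ j, nuEC ρ D (g j) (g' j) x :=
    Finset.measurable_fun_prod _ fun j _ => hX2 j
  rcases Nat.eq_zero_or_pos k with hk | hk
  · subst hk
    refine (StatOK.one (by positivity : (0:ℝ) ≤ L ^ 2 / 40)).mono ?_ ?_ hmeas fun x => ?_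
    · rw [zero_add, pow_one]
      exact hm1
    · rw [pow_zero, mul_one] at r6
      exact r6
    · simp
  · have : Nonempty (Fin k) := ⟨⟨0, hk⟩⟩
    have h5 := StatOK.prod hX3
    rw [Fintype.card_fin] at h5
    simp only [Finset.prod_const, Finset.card_univ, Fintype.card_fin] at h5
    have hmk : (1:ℝ) ≤ (m : ℝ) ^ k := one_le_pow₀ hm1
    refine h5.mono ?_ ?_ hmeas fun x => ?_
    · calc (Ca * m) ^ k = Ca ^ k * (m : ℝ) ^ k := mul_pow _ _ _
        _ ≤ m * (m : ℝ) ^ k := by gcongr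
        _ = _ := by ring
    · have e2 : Real.exp (-(L ^ 2 / 40)) = Real.exp (-(1 / 40 * L ^ 2)) := by
        congr 1
        ring
      rw [Real.rpow_natCast] at r3
      have hL10 : 1 ≤ L ^ (10 * k) := one_le_pow₀ hL1
      have hCk : 0 ≤ Ca ^ k := by positivity
      calc 2 * (k * (Ca * L ^ 10)) ^ k + (Ca * m) ^ k * Real.exp (-(L ^ 2 / 40)) =
            2 * (k * Ca) ^ k * L ^ (10 * k) +
              Ca ^ k * ((m : ℝ) ^ k * Real.exp (-(1 / 40 * L ^ 2))) := by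
              rw [e2, mul_pow Ca (m:ℝ), ← mul_assoc (k:ℝ), mul_pow (k * Ca), ← pow_mul]
              ring
        _ ≤ 2 * (k * Ca) ^ k * L ^ (10 * k) + Ca ^ k * L ^ (10 * k) := by
              have := r3.trans hL10
              gcongr
        _ = (2 * (k * Ca) ^ k + Ca ^ k) * L ^ (10 * k) := by ring
        _ ≤ _ := r2
    · rw [ENNReal.ofReal_prod_of_nonneg fun j _ => abs_nonneg _]
      exact Finset.prod_le_prod' fun j _ => hX1 j x

end

end PLT
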