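import Pool.Agent.PLT.CrvC
import Pool.Agent.PLT.CurD
import Pool.Agent.PLT.StatC

/-!
# The curve of TARGET-C over a sea on a static curve: class of the curves, statistics

The curves `dsp η`, `dsp1 η η1` and `Cv.etaC` are those of `PLT/CrvC`.

* `dsp_sub`, `add_dsp`, `ptZ_dsp`, `ptC_dsp`; `cur_cvC`;
* **`curC_of_cur`**, `curOKH`: the class `CurC (-(h1 + ep/4)) (h0 + ep/4)`, static curve in the window
  `-(h1 l) .. h0 l`;
* **`disK_of_cur`**, **`disKH`**: the displaced curves of the statistics (`DisK`).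
-/

set_option autoImplicit false
set_option linter.unusedSectionVars false
set_option linter.unusedVariables false

open MeasureTheory Set Filter Topology Complex
open PLX (Fil)

namespace PLT

open NUO NUCR NUMF NUGC
open NUGC.PLX (hC hC_contDiff hC_deriv hC_nonneg hC_cs hC_iter hC_zero hC_slope energyC)
open NUAct (OC)
open NUKer (iD)

noncomputable section

/-! ### the displaced curves -/

section def1

variable [SeaC] [Fil]

theorem dsp_sub (η : ℝ → ℝ) (a : Bool) (t : ℝ) :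
    dsp η a t - (Cv.eta t : ℂ) * I = Cv.gD (Fil.cv a η) t := by
  unfold dsp
  ring

theorem add_dsp (η : ℝ → ℝ) (a : Bool) (t : ℝ) :
    (t : ℂ) + dsp η a t = Cv.zt (Cv.gD (Fil.cv a η)) t := (zt_gD η a t).symm

theorem ptZ_dsp (η : ℝ → ℝ) (a : Bool) (t : ℝ) :
    ptZ (dsp η) a t = Cv.zt (Cv.gD (Fil.cv a η)) t := add_dsp η a t

theorem ptC_dsp (η : ℝ → ℝ) (a : Bool) (t : ℝ) :
    ptC (dsp η) a t = NUP1.l + I * Cv.zt (Cv.gD (Fil.cv a η)) t := by
  rw [ptC_ptZ, ptZ_dsp]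

/-- no current: the static curve -/
theorem dsp_zero (a : Bool) (t : ℝ) : dsp (fun _ => 0) a t = (Cv.eta t : ℂ) * I := by
  unfold dsp Cv.gD iD
  simp

theorem hasDerivAt_cvC {η η1 : ℝ → ℝ} (h1 : ∀ t, HasDerivAt η (η1 t) t) (a : Bool) (t : ℝ) :
    HasDerivAt (Fil.cv a η) (Fil.cv a η1 t) t := Fil.hasDerivAt_cv a (h1 t)

theorem hasDerivAt_path {η η1 : ℝ → ℝ} (h1 : ∀ t, HasDerivAt η (η1 t) t) (a : Bool) (t : ℝ) :
    HasDerivAt (fun t : ℝ => (t : ℂ) + dsp η a t) (1 + dsp1 η η1 a t) t :=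
  (Complex.ofRealCLM.hasDerivAt (x := t)).add (hasDerivAt_dsp h1 a t)

/-- **the curves of the two species** -/
theorem cur_cvC {s ε M b : ℝ} {e η : ℝ → ℝ} (h : Cv.Cur s ε M b e η) (a : Bool) :
    Cv.Cur s ε M b e (Fil.cv a η) where
  oc := by
    have h1 := h.oc.smul (((Fil.b a)⁻¹ : ℝ) : ℂ)
    have hb := Fil.inv_b_pos a
    refine (h1.mono fun t => ?_).congr fun t => ?_
    · rw [Complex.norm_real, Real.norm_of_nonneg hb.le]
      exact mul_le_of_le_one_left (h.oc.nonneg t) (Fil.inv_b_le a)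
    · unfold iD
      rw [Fil.cv_apply]
      push_cast
      ring
  le := h.le
  mass := h.mass
  supp := h.supp

end def1

/-! ### the class of the curves -/

/-- `C¹` displacements with a bounded derivative -/
theorem pthK_of_OC {W : ℝ} {ζ z1 : ℝ → ℂ} (h : ∀ t, HasDerivAt ζ (z1 t) t)
    (h1 : OC 2 (fun _ => W) z1) : PthK W ζ := by
  obtain ⟨a1, z2, a2, b1, z3, b2, c1, c2⟩ := h1
  exact ⟨z1, z2, z3, h, a2, b2, c1, a1, b1, c2⟩

/-- **admissible curves are in the class of the displaced curves** -/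
theorem curC_of_cur [Fil] (B : SeaCB) : ∃ C : ℝ, 1 ≤ C ∧ ∀ [SeaC] [SeaCU B],
    ∀ {h1 h0 : ℝ}, WinC (-(h1 * NUP1.l)) (h0 * NUP1.l) →
    ∀ {s ε M b : ℝ} {e η η1 : ℝ → ℝ}, Cv.Cur s ε M b e η → (∀ t, HasDerivAt η (η1 t) t) →
    ∀ {ep : ℝ}, 0 ≤ ep → C * ε ≤ ep / 4 * NUP1.l →
    CurC (-(h1 + ep / 4)) (h0 + ep / 4) (dsp η) (dsp1 η η1) := by
  obtain ⟨C, hC, H⟩ := Cv.gD_OC B
  obtain ⟨G, hG, hg⟩ := Cv.ga'_OC B 0
  refine ⟨C, hC, @fun _ hS g1 g0 hw s ε M b e η η1 hc h1 ep hep hε a => ?_⟩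
  have hl := NUP1.l_pos
  have h2 : ∀ t, HasDerivAt (Fil.cv a η) (Fil.cv a η1 t) t := hasDerivAt_cvC h1 a
  obtain ⟨o0, o1⟩ := H (cur_cvC hc a) h2
  have hC0 : 0 ≤ C := by linarith
  have hd0 : ∀ t, ‖Cv.gD (Fil.cv a η) t‖ ≤ ep / 4 * NUP1.l := fun t =>
    (o0.le t).trans ((mul_le_mul_of_nonneg_left (hc.le t) hC0).trans hε)
  have hd1 : ∀ t, ‖Cv.gD1 (Fil.cv a η) (Fil.cv a η1) t‖ ≤ ep / 4 * NUP1.l := fun t =>
    (o1.le t).trans ((mul_le_mul_of_nonneg_left (hc.le t) hC0).trans hε)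
  have him : ∀ t, (dsp η a t).im = Cv.eta t + (Cv.gD (Fil.cv a η) t).im := fun t => by
    unfold dsp
    simp
  have hetaU := hw.le
  have hetaN := hw.ge
  have hg1 : 0 ≤ g1 := by
    have := hw.lo0
    by_contra h
    push Not at h
    nlinarith
  have hg0 : 0 ≤ g0 := by
    have := hw.hi0
    by_contra h
    push Not at h
    nlinarith
  have hga : ∀ t, |deriv Cv.eta t| ≤ G := fun t => by
    have k1 := (Complex.abs_im_le_norm (Cv.ga' t)).trans (hg.le t)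
    rwa [Cv.ga'_im] at k1
  have hl1 : NUP1.l ≤ 1 := by
    have h3 : NUP1.l = NUMF.l := rfl
    rw [h3]
    unfold NUMF.l
    have := Real.pi_le_four
    linarith
  have hG0 : 0 ≤ G := zero_le_one.trans hG
  refine ⟨hasDerivAt_dsp h1 a, ?_, ⟨g1 * NUP1.l + g0 * NUP1.l + G + ep / 4 * NUP1.l, by positivity,
    fun t => ⟨?_, ?_⟩⟩, ⟨by nlinarith, by nlinarith⟩, fun t => ?_, fun t => ?_⟩
  · have e : dsp1 η η1 a = fun t => ((deriv Cv.eta t : ℝ) : ℂ) * I +
        Cv.gD1 (Fil.cv a η) (Fil.cv a η1) t := funext fun t => rfl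
    rw [e]
    exact ((Complex.continuous_ofReal.comp Cv.continuous_eta').mul continuous_const).add o1.cont
  · unfold dsp
    refine (norm_add_le _ _).trans ?_
    rw [norm_mul, Complex.norm_I, mul_one, Complex.norm_real, Real.norm_eq_abs]
    have k1 : |Cv.eta t| ≤ g1 * NUP1.l + g0 * NUP1.l := by
      rw [abs_le]
      have := hetaU t
      have := hetaN t
      constructor <;> nlinarith
    have := hd0 t
    linarith
  · unfold dsp1
    refine (norm_add_le _ _).trans ?_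
    rw [norm_mul, Complex.norm_I, mul_one, Complex.norm_real, Real.norm_eq_abs]
    have := hd1 t
    have := hga t
    have : 0 ≤ g1 * NUP1.l := by positivity
    have : 0 ≤ g0 * NUP1.l := by positivity
    linarith
  · rw [him]
    have k1 := (abs_le.1 ((Complex.abs_im_le_norm _).trans (hd0 t))).2
    have k2 := hetaU t
    nlinarith
  · rw [him]
    have k1 := (abs_le.1 ((Complex.abs_im_le_norm _).trans (hd0 t))).1
    have k2 := hetaN t
    nlinarith

/-- the mass of the displacement -/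
theorem cur_massC (B : SeaCB) [SeaC] [SeaCU B] {s ε M b : ℝ} {e η : ℝ → ℝ}
    (h : Cv.Cur s ε M b e η) (hs : 0 < s) (hb : 0 ≤ b) (hM : 0 ≤ M) {D : ℝ → ℂ}
    (hD : Continuous D) {C : ℝ} (hC : 0 ≤ C) (hle : ∀ t, ‖D t‖ ≤ C * e t) :
    Integrable (fun t => Cv.P t * ‖D t‖) ∧ ∫ t, Cv.P t * ‖D t‖ ≤ C * (2 * b * M) / s := by
  have hpos := Cv.P_pos B
  have h0 : ∀ t, Cv.P t * ‖D t‖ ≤ (Set.Icc (-b) b).indicator (fun _ => C * M / s) t := by
    intro t
    by_cases ht : t ∈ Set.Icc (-b) b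
    · rw [Set.indicator_of_mem ht, le_div_iff₀ hs]
      calc Cv.P t * ‖D t‖ * s ≤ Cv.P t * (C * e t) * s := by
            have := hle t
            have := (hpos t).le
            gcongr
        _ = C * (s * Cv.P t * e t) := by ring
        _ ≤ C * M := mul_le_mul_of_nonneg_left (h.mass t) hC
    · rw [Set.indicator_of_notMem ht]
      have h2 : b < |t| := by
        by_contra h3
        exact ht (abs_le.1 (not_lt.1 h3))
      have h4 := hle t
      rw [h.supp t h2, mul_zero] at h4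
      rw [le_antisymm h4 (norm_nonneg _), mul_zero]
  have hi : Integrable ((Set.Icc (-b) b).indicator (fun _ : ℝ => C * M / s)) :=
    (integrable_indicator_iff measurableSet_Icc).2 (continuous_const.integrableOn_Icc)
  have hci : Integrable (fun t => Cv.P t * ‖D t‖) := by
    refine hi.mono' ((Cv.P_cont B).mul hD.norm).aestronglyMeasurable (ae_of_all _ fun t => ?_)
    rw [Real.norm_of_nonneg (mul_nonneg (hpos t).le (norm_nonneg _))]
    exact h0 t
  refine ⟨hci, (integral_mono hci hi h0).trans (le_of_eq ?_)⟩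
  rw [integral_indicator measurableSet_Icc, setIntegral_const, Measure.real, Real.volume_Icc,
    ENNReal.toReal_ofReal (by linarith), smul_eq_mul]
  ring

/-- **admissible curves are displaced curves in the sense of the statistics** -/
theorem disK_of_cur [Fil] (B : SeaCB) : ∃ C W : ℝ, 1 ≤ C ∧ 1 ≤ W ∧ ∀ [SeaC] [SeaCU B],
    ∀ {s ε M b : ℝ} {e η η1 : ℝ → ℝ}, 0 < s → 0 ≤ b → Cv.Cur s ε M b e η →
    (∀ t, HasDerivAt η (η1 t) t) → C * ε ≤ 1 → ∀ a : Bool,
    DisK W (C * ε) (C * (2 * b * M) / s) (dsp η a) := by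
  obtain ⟨C, hC, H⟩ := Cv.gD_OC B
  obtain ⟨G, hG, hg⟩ := Cv.ga'_OC B 2
  refine ⟨C, G + 1, hC, by linarith, @fun _ hS s ε M b e η η1 hs hb hc h1 hε a => ?_⟩
  have h2 : ∀ t, HasDerivAt (Fil.cv a η) (Fil.cv a η1 t) t := hasDerivAt_cvC h1 a
  obtain ⟨o0, o1⟩ := H (cur_cvC hc a) h2
  have hC0 : 0 ≤ C := by linarith
  have hM := hc.M0 B hs.le
  obtain ⟨i1, i2⟩ := cur_massC B hc hs hb hM o0.cont hC0 o0.le
  have e0 : (fun t => Cv.P t * ‖dsp η a t - (Cv.eta t : ℂ) * I‖) =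
      fun t => Cv.P t * ‖Cv.gD (Fil.cv a η) t‖ := by
    funext t
    rw [dsp_sub]
  refine ⟨?_, fun t => ?_, ?_, ?_⟩
  · have o2 : OC 2 (fun _ => G + 1) fun t => Cv.ga' t + Cv.gD1 (Fil.cv a η) (Fil.cv a η1) t := by
      refine (hg.add o1.lower).mono fun t => ?_
      have := mul_le_mul_of_nonneg_left (hc.le t) hC0
      linarith
    refine pthK_of_OC (fun t => ?_) o2
    refine (hasDerivAt_path h1 a t).congr_deriv ?_
    unfold dsp1 Cv.ga'
    ring
  · rw [dsp_sub]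
    exact (o0.le t).trans (mul_le_mul_of_nonneg_left (hc.le t) hC0)
  · rw [e0]; exact i1
  · rw [e0]; exact i2

/-! ### the curve of TARGET-C -/

/-- **the curve of TARGET-C is in the class** -/
theorem curOKH [Fil] {e1 J : ℝ} (he : 0 < e1) (he1 : e1 ≤ 1 / 100) (hJ : 0 ≤ J) {ep : ℝ}
    (hep : 0 < ep) (B : SeaCB) : ∃ m0 : ℕ, 1 ≤ m0 ∧ ∀ [SeaC] [SeaCU B], ∀ {h1 h0 : ℝ},
    WinC (-(h1 * NUP1.l)) (h0 * NUP1.l) → ∀ m ≥ m0, ∀ s : ℝ, (m : ℝ) / 2 ≤ s →
      CurC (-(h1 + ep / 4)) (h0 + ep / 4) (dsp (Cv.etaC e1 J m s))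
        (dsp1 (Cv.etaC e1 J m s) (Cv.etaC' e1 J m s)) := by
  have hl := NUP1.l_pos
  obtain ⟨C, hC, H⟩ := curC_of_cur B
  have hC0 : 0 < C := by linarith
  obtain ⟨Q, hQ, m0, hm0, H1⟩ := Cv.exists_curC B he he1 hJ (x := ep / 4 * NUP1.l / C)
    (by positivity)
  refine ⟨m0, hm0, @fun _ hS g1 g0 hw m hm s hs => ?_⟩
  obtain ⟨ε, e, h1, -, -, h2⟩ := (H1 m hm).2 s hs
  refine H hw h1 (Cv.etaC_hasDeriv B e1 J m s) hep.le ?_
  rw [le_div_iff₀ hC0] at h2
  linarith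

/-- **the curves of TARGET-C are displaced curves in the sense of the statistics** -/
theorem disKH [Fil] {e1 J : ℝ} (he : 0 < e1) (he1 : e1 ≤ 1 / 100) (hJ : 0 ≤ J) {r : ℝ}
    (hr : 0 < r) (B : SeaCB) : ∃ W C1 : ℝ, 1 ≤ W ∧ 0 ≤ C1 ∧ ∃ m0 : ℕ,
    ∀ [SeaC] [SeaCU B], ∀ m ≥ m0, ∀ a : Bool,
      DisK W r (C1 * Real.log m ^ 2 / m) (dsp (Cv.etaC e1 J m m) a) := by
  obtain ⟨C, W, hC, hW, H⟩ := disK_of_cur B
  have hC0 : 0 < C := by linarith
  obtain ⟨Q, hQ, m0, hm0, H1⟩ := Cv.exists_curC B he he1 hJ (x := min 1 r / C)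
    (div_pos (lt_min one_pos hr) hC0)
  refine ⟨W, C * Q, hW, by positivity, m0, @fun _ hS m hm a => ?_⟩
  have hm1 : 1 ≤ m := hm0.trans hm
  have hmp : (0 : ℝ) < m := by exact_mod_cast hm1
  obtain ⟨hT, H2⟩ := H1 m hm
  obtain ⟨ε, e, h1, h0, -, h2⟩ := H2 m (by linarith)
  rw [le_div_iff₀ hC0] at h2
  have hL : 0 ≤ Real.log m := Real.log_nonneg (by exact_mod_cast hm1)
  have hb : 0 ≤ (1 - e1) * Tb (Real.log m) := by nlinarith
  have h3 := H hmp hb h1 (Cv.etaC_hasDeriv B e1 J m m)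
    (by linarith [min_le_left (1 : ℝ) r, mul_comm C ε]) a
  refine ⟨h3.pth, fun t => (h3.near t).trans ?_, h3.int, h3.mass.trans ?_⟩
  · linarith [min_le_right (1 : ℝ) r, mul_comm C ε]
  · have hTb : 2 * ((1 - e1) * Tb (Real.log m)) ≤ Real.log m := by
      unfold Tb
      nlinarith
    have h4 : 2 * ((1 - e1) * Tb (Real.log m)) * (Q * Real.log m) ≤
        Real.log m * (Q * Real.log m) := mul_le_mul_of_nonneg_right hTb (by positivity)
    calc C * (2 * ((1 - e1) * Tb (Real.log m)) * (Q * Real.log m)) / m ≤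
          C * (Real.log m * (Q * Real.log m)) / m := by gcongr
      _ = _ := by ring

end

end PLT
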