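import Pool.Agent.PHK.FibX6

/-!
# (P), rows on the imaginary axis: the data of all fibres on any curve

`PHK/FibX6` with the curve as data (real displacement of any size below `ep l / 4`, one for every content).

* `CrsB ep η η'`: the curves are admissible (`NUCR.CurB ep`) for all objects, and measurable (`MCr`);
* **`fibN6_XXI`**: `FibN6` of the class functions `ZXL c g0 β x W z`: rows `x` and further rows `W` on the imaginary
  axis, legs at `z`, any constants of one modulus, any measurable string cutoff, any sea `ρ`;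
* `g0I k x`: the string cutoff over the rows `x` with the factor `om` at `T1L k`; `ZI k x β z`: the class functions of
  the dislocated function (rows `x`, `± i` in the cutoff, legs at `z`); `ZI_mu1`: the landed ones; **`fibN6_I`**.
-/

set_option autoImplicit false
set_option linter.unusedSectionVars false

noncomputable section

open Complex MeasureTheory Finset
open PLX (Fil)

namespace PLT.FI

open NUP1 NUO NUP1S NUP1S.Ab NUGC NUGC.PLX PBF PBF.PLX PBLZ PBLZ.PLX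
open PHK PBFX.PLX

/-- admissible curves, for all objects -/
structure CrsB (ep : ℝ) (η η' : Crs) : Prop where
  cur : ∀ r (O : Fin r → Xo), NUCR.CurB ep (η r O) (η' r O)
  mc : MCr η η'

/-- one curve for all objects -/
theorem CrsB.of {ep : ℝ} {η η' : ℝ → ℝ} (h : NUCR.CurB ep η η') :
    CrsB ep (fun _ _ => η) (fun _ _ => η') where
  cur _ _ := h
  mc := {
    m := fun _ => (continuous_iff_continuousAt.2 fun t => (h.hd t).continuousAt).measurable.comp
      measurable_snd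
    m' := fun _ => h.hc.measurable.comp measurable_snd }

variable [Fil]

/-- **the data of all fibres**: rows on the imaginary axis, legs `z`, any sea `ρ`, any curve -/
theorem fibN6_XXI {ep : ℝ} (hep0 : 0 < ep) (hep : ep ≤ 1 / 100) {η η' : Crs} (hC : CrsB ep η η')
    {m : ℕ} {x : Fin m → ℂ} (hm : 0 < m) (hx : ∀ i, (x i).re = 0) {W : List ℂ}
    (hW : ∀ w ∈ W, w.re = 0) {z : ℂ} (hz : |z.re| ≤ l / 2) {c : Bool → ℂ} {c0 : ℝ}
    (hc : ∀ a, ‖c a‖ = c0) {g0 : Bool → ℂ → ℂ} (hg : ∀ a, Measurable (g0 a)) {ρ : ℂ → ℂ} {b0 b1 : ℝ}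
    (hb0 : ep * l / 4 ≤ b0) (hb01 : b0 < b1) (hb1l : 2 * b1 ≤ l) (hρ : PB.SeaF b1 ρ) {κ : ℕ → ℝ}
    (hκ0 : ∀ n, 0 < κ n) (hκ : ∀ n, κ n ≤ 2 * (4 / 3 * (1 - ep))) {N : ℕ} (hN : dN N = Fil.xn m) :
    FibN6 N (fun _ => ZXL c g0 (4 / 3 * (1 - ep)) x W z) (fun _ => par6) (fun _ => η) (fun _ => η')
      (ep / 4) 0 b0 b1 κ (fun _ u => LZX u (4 / 3 * (1 - ep)) x W z) (fun _ => LPo6 par6) ρ := by
  have hl := Bd.l_pos
  have hrw : PBX.Rws x := by
    intro i
    rw [hx i, abs_zero]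
    positivity
  have hex : ∀ w ∈ W, |w.re| ≤ l / 2 := by
    intro w hw
    rw [hW w hw, abs_zero]
    positivity
  have hz' := abs_le.1 hz
  have hone := oneC6_Lg (P := par6) (ep := ep) (β := 4 / 3 * (1 - ep)) (x0 := 19 / 20 * l)
    (c := c) (g0 := g0) (ex := fun _ => W) (by linarith)
    le_rfl hep0 hep (by linarith) (by linarith) hrw (fun _ => hex)
    hg hc (z := z) (by linarith) (by linarith)
  have hq : QOk6 (ZXL c g0 (4 / 3 * (1 - ep)) x W z) (ep / 4) (2 * (4 / 3 * (1 - ep)))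
      (-Fil.xn m) := QOk6.of_oneC hone (by linarith)
  exact {
    hQ := fun n _ => by
      rw [hN]
      exact QOk6.mono hq (hκ0 n) (hκ n)
    hS := fun n _ => par6_good.stP (by positivity) (by linarith)
      (by show (7 / 8 : ℝ) + ep / 4 < 1; linarith)
    crv := fun n _ r O => crvR6_of (hC.cur r O)
    hL := fun n _ => logD6_XXL hep0 hep hm hx hW hz (dsC_par6 hep0 hep) c g0
    hs := fun n _ => InS.of fun r O t => ((hC.cur r O).h1 t).trans hb0
    b1p := lt_of_le_of_lt (by positivity) (lt_of_le_of_lt hb0 hb01)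
    b01 := hb01
    b1l := hb1l
    sea := hρ
    mc := fun n _ => hC.mc
    mZ := fun n _ => MC6.of (fun s k => measurable_ZXL hg s k) hC.mc
    mP := fun n _ r s => by exact meas_LPo26 par6 r s }

/-- measurability of the fibres -/
theorem mc6_XXI {ep : ℝ} {η η' : Crs} (hC : CrsB ep η η') {m : ℕ} (x : Fin m → ℂ) (W : List ℂ) (z : ℂ)
    (β : ℝ) (c : Bool → ℂ) {g0 : Bool → ℂ → ℂ} (hg : ∀ a, Measurable (g0 a)) (P : Par6) :
    MC6 (ZXL c g0 β x W z) P η η' :=
  MC6.of (fun s k => measurable_ZXL hg s k) hC.mc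

/-! ### the class functions of the dislocated function -/

/-- the string cutoff over the rows `x` (no other words), parameters of `k` rows -/
def g0I (k : ℕ) {m : ℕ} (x : Fin m → ℂ) : Bool → ℂ → ℂ := fun a =>
  gO (PBU.PLX.T1L k) [] (Pool.Agent.PLX.rwq x a)

theorem ph_g0I (k : ℕ) {m : ℕ} (x : Fin m → ℂ) (a : Bool) :
    PBX.ph (4 / 3) (Pool.Agent.PLX.rwq x a) (g0I k x a) =
      phO (PBU.PLX.T1L k) (List.ofFn (Pool.Agent.PLX.rwq x a) ++ []) := ph_gO_fun _ _ _

theorem meas_g0I (k : ℕ) {m : ℕ} {x : Fin m → ℂ} (hx : PBX.Rws x) (a : Bool) :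
    Measurable (g0I k x a) :=
  meas_gO (Pool.Agent.PLX.Rws_rwq hx a) (by simp)

/-- the class functions: rows `x` (every row `q`-fold in Y), `± i` in the cutoff of the quanta, legs at `z`,
parameters of `k` rows -/
abbrev ZI (k : ℕ) {m : ℕ} (x : Fin m → ℂ) (β : ℝ) (z : ℂ) : Bool → Option O3 → ℂ → ℂ :=
  ZXL (PBU.PLX.ccS6 k) (g0I k x) β x [I, -I] z

theorem ZI_mu1 (k j : ℕ) (x : ℂ) (β : ℝ) (z : ℂ) :
    ZI k (PBL.PLX.mu1 j x) β z = ZL6 (PBU.PLX.ccS6 k) (PBU.PLX.g0L k j x) j β x z := rfl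

theorem Rws_re {m : ℕ} {x : Fin m → ℂ} (hx : ∀ i, (x i).re = 0) : PBX.Rws x := fun i => by
  have hl := NUP1.l_pos
  rw [hx i, abs_zero]
  positivity

/-- **the data of all fibres of the dislocated function**: `m` rows on the imaginary axis, parameters of `k` rows,
`N = 2 m` -/
theorem fibN6_I {ep : ℝ} (hep0 : 0 < ep) (hep : ep ≤ 1 / 100) {η η' : Crs} (hC : CrsB ep η η')
    (k : ℕ) {m : ℕ} {x : Fin m → ℂ} (hm : 0 < m) (hx : ∀ i, (x i).re = 0) {z : ℂ} (hz : |z.re| ≤ l / 2)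
    {ρ : ℂ → ℂ} {b0 b1 : ℝ} (hb0 : ep * l / 4 ≤ b0) (hb01 : b0 < b1) (hb1l : 2 * b1 ≤ l)
    (hρ : PB.SeaF b1 ρ) {κ : ℕ → ℝ} (hκ0 : ∀ n, 0 < κ n) (hκ : ∀ n, κ n ≤ 2 * (4 / 3 * (1 - ep))) :
    FibN6 (2 * m) (fun _ => ZI k x (4 / 3 * (1 - ep)) z) (fun _ => par6) (fun _ => η) (fun _ => η')
      (ep / 4) 0 b0 b1 κ (fun _ u => LZX u (4 / 3 * (1 - ep)) x [I, -I] z) (fun _ => LPo6 par6) ρ :=
  fibN6_XXI hep0 hep hC hm hx re_pm hz (PBU.PLX.norm_ccS6 k) (meas_g0I k (Rws_re hx)) hb0 hb01 hb1l hρ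
    hκ0 hκ (dN_two m)

end PLT.FI

end
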