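import Pool.Agent.PLT.TopG
import Pool.Agent.PLT.CurH
import Pool.Agent.PLT.FibI

/-!
# Sea on a curve: the family of the dislocated function over a content

The content is data: `m` rows `x m i` of X (every row `q`-fold in Y), legs at `z i`, the sea `S m i`.

* `obLC T1 x β z`: one body data; **`oneCC_L`**: the class functions `FI.ZI` are bounded by them in every strip of
  offsets `lo .. hi`, `-(1/400) ≤ lo`, `hi ≤ 1/20` (rows `|Re x| ≤ l/2`, legs `-(9/10) l ≤ Re z < (37/10) l`, any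
  point `P`);
* **`famLC x z S ok lo hi`**: the family, `bd = exp (2 |Im z|)`; `curF_L`, `clsF_L`;
* **`ux_L`**: the bounds `UXC` from the gas theorem, the environment, stability, the one body bound, the value.
-/

set_option autoImplicit false
set_option linter.unusedSectionVars false
set_option linter.unusedVariables false

noncomputable section

open Complex MeasureTheory Finset
open scoped ENNReal
open PLX (Fil Ends)

namespace PLT

open NUO NUP1 NUP1S NUP1S.Ab NUP1S.AbC NUStabP NUDispW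
open NUGC.PLX (OB pE qE)
open PHK
open PBF.PLX (InsE dN dN_two)
open PBP.PLX (gT)
open PotH.PLX (sN)
open PBU.PLX (T1L ccS6 norm_ccS6)
open Pool.Agent.PLX (rwq yq)

variable [Fil] {ι : Type}

/-! ### one body data -/

/-- one body data: rows `x`, legs at `z`, cutoff of the quanta with the points `± i`, cutoff of the strings with
the factor `om` at `T1` -/
def obLC (T1 : ℝ) {m : ℕ} (x : Fin m → ℂ) (β : ℝ) (z : ℂ) : OB :=
  obX6 (2 * Real.cos NUP1.l) β x (fun _ => [I, -I])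
    (fun a => phO T1 (List.ofFn (rwq x a) ++ [])) fun _ u => PBX.PLX.thZ z u

theorem obLC_mu1 (T1 : ℝ) (k : ℕ) (β : ℝ) (x z : ℂ) :
    obLC T1 (PBL.PLX.mu1 k x) β z = obL6 T1 k β x z := rfl

theorem obLC_nn (T1 : ℝ) {m : ℕ} (x : Fin m → ℂ) (β : ℝ) (z : ℂ) : (obLC T1 x β z).Nn :=
  obX6_nn PBT.PLX.two_cos.1 β _ _ _ fun _ u => PBX.PLX.thZ_nonneg z u

/-- **the class functions of the dislocated function are bounded by the one body data** -/
theorem oneCC_L {P : Par6} (k : ℕ) {m : ℕ} {x : Fin m → ℂ} (hx : PBX.Rws x) {β : ℝ} (hβ : 0 < β)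
    (hβ' : β ≤ 4 / 3) {z : ℂ} (h1 : -(9 / 10 * NUP1.l) ≤ z.re) (h2 : z.re < 37 / 10 * NUP1.l)
    {lo hi : ℝ} (hlo : -(1 / 400) ≤ lo) (hhi : hi ≤ 1 / 20) :
    OneCC (FI.ZI k x β z) (obLC (T1L k) x β z) P lo hi (2 * β) (51 / 100 * NUP1.l) (-Fil.xn m)
      (Set.range fun i => (x i).im) := by
  have hl := NUP1.l_pos
  have h := oneC6_Lg (P := P) (ep := 1 / 100) (x0 := 51 / 100 * NUP1.l) (c := ccS6 k)
    (g0 := FI.g0I k x) le_rfl (by linarith) (by norm_num) le_rfl hβ hβ' hx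
    (ex := fun _ => [I, -I]) (fun _ w hw => by
      rw [List.mem_cons, List.mem_singleton] at hw
      rcases hw with rfl | rfl
      · rw [Complex.I_re, abs_zero]; positivity
      · rw [Complex.neg_re, Complex.I_re, neg_zero, abs_zero]; positivity) (FI.meas_g0I k hx)
    (norm_ccS6 k) h1 h2
  have e : (fun a => PBX.ph (4 / 3) (rwq x a) (FI.g0I k x a)) =
      fun a => phO (T1L k) (List.ofFn (rwq x a) ++ []) := funext fun a => FI.ph_g0I k x a
  rw [e] at h
  exact h.toC.sub (by linarith) hhi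

/-! ### the family -/

variable [Ends]

/-- **the family of the dislocated function over a content**: rows `x m i`, legs `z i`, sea `S m i` -/
def famLC (x : (m : ℕ) → ι → Fin m → ℂ) (z : ι → ℂ) (S : ℕ → ι → SeaC) (ok : ℕ → ι → Prop) (lo hi : ℝ) :
    FamC ι where
  Z ep m i := FI.ZI m (x m i) (4 / 3 * (1 - ep)) (z i)
  Pf m i := Pool.Agent.PB.Pf (z i) (x m i) (yq (x m i))
  top m := 2 * m
  ok := ok
  bd _ i := Real.exp (2 * |(z i).im|)
  D e1 J m i := @dsp (S m i) _ (@Cv.etaC (S m i) e1 J m m)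
  D1 e1 J m i := @dsp1 (S m i) _ (@Cv.etaC (S m i) e1 J m m) (@Cv.etaC' (S m i) e1 J m m)
  dc m i := fun t : ℝ => @Cv.Pc (S m i) t
  lo := lo
  hi := hi

/-- one body data of the family -/
def BLC (x : (m : ℕ) → ι → Fin m → ℂ) (z : ι → ℂ) (ep : ℝ) (m : ℕ) (i : ι) : OB :=
  obLC (T1L m) (x m i) (4 / 3 * (1 - ep)) (z i)

variable {x : (m : ℕ) → ι → Fin m → ℂ} {z : ι → ℂ} {S : ℕ → ι → SeaC} {ok : ℕ → ι → Prop} {lo hi : ℝ}

theorem curF_L : CurFC (famLC x z S ok lo hi) S where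
  D _ _ _ _ _ := rfl
  D1 _ _ _ _ _ := rfl

/-- **the content of the family**: places, legs, seas with their windows -/
structure CntL (SB : SeaCB) (x : (m : ℕ) → ι → Fin m → ℂ) (z : ι → ℂ) (S : ℕ → ι → SeaC)
    (ok : ℕ → ι → Prop) (h1 h0 : ℝ) : Prop where
  lo1 : h1 ≤ 1 / 1000
  hi1 : h0 ≤ 1 / 25
  row : ∀ m i, ok m i → ∀ k, |(x m i k).re| ≤ NUP1.l / 2
  z1 : ∀ m i, ok m i → -(9 / 10 * NUP1.l) ≤ (z i).re
  z2 : ∀ m i, ok m i → (z i).re < 37 / 10 * NUP1.l
  sea : ∀ m i, ok m i → @SeaCU SB (S m i)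
  win : ∀ m i, ok m i → @WinC (S m i) (-(h1 * NUP1.l)) (h0 * NUP1.l)

/-- **the class of the family** -/
theorem clsF_L (he : Ends.e = 0) (ho : Ends.o = 0) {P : Par6} {SB : SeaCB} {h1 h0 : ℝ} (hc : CntL SB x z S ok h1 h0) :
    ClsF (famLC x z S ok (-(h1 * NUP1.l)) (h0 * NUP1.l)) P (BLC x z) h1 h0 where
  top m := le_rfl
  xe m := by
    show dN (2 * m) = Fil.xe m
    unfold Fil.xe
    rw [ho, he, Nat.add_zero, Nat.sub_zero]
    exact dN_two _
  nn ep m i _ := obLC_nn _ _ _ _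
  bd m i _ := (Real.exp_pos _).le
  cls ep hep hep1 m i hi := by
    refine ⟨_, _, _, _, oneCC_L m (hc.row m i hi) (by linarith) (by linarith) (hc.z1 m i hi)
      (hc.z2 m i hi) ?_ ?_⟩
    · have := hc.lo1
      linarith
    · have := hc.hi1
      linarith
  cur ep hep hep1 e1 he0 he1 J hJ := by
    obtain ⟨m0, hm0, H⟩ := curOKH he0 he1 hJ hep SB
    refine ⟨m0, fun m hm i hi => ?_⟩
    have hm0' : (0 : ℝ) ≤ m := Nat.cast_nonneg m
    exact @H (S m i) (hc.sea m i hi) h1 h0 (hc.win m i hi) m hm m (by linarith)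

/-- **U1, U3, U4 for the dislocated function over a content** -/
theorem ux_L (he : Ends.e = 0) (ho : Ends.o = 0) {P : Par6} (hP : GoodP6 P) {SB : SeaCB} {en : EnC} {h1 h0 : ℝ}
    {lin : ℝ → ℝ → ℕ → ι → ℝ} (hc : CntL SB x z S ok h1 h0) (hM : S4MC SB P en)
    (hE : EnvFC (famLC x z S ok (-(h1 * NUP1.l)) (h0 * NUP1.l)) S (BLC x z) lin)
    (hS : StabF (famLC x z S ok (-(h1 * NUP1.l)) (h0 * NUP1.l)) P fun m i => en (S m i))
    (hO : OneTF (famLC x z S ok (-(h1 * NUP1.l)) (h0 * NUP1.l)) P (BLC x z)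
      fun ep e1 J m i r O j => @oneHC (S m i) _ _ P m (@Cv.etaC (S m i) e1 J m m) (TW ep e1 m) r O j)
    (hV : ValF (famLC x z S ok (-(h1 * NUP1.l)) (h0 * NUP1.l)) lin) :
    UXC (famLC x z S ok (-(h1 * NUP1.l)) (h0 * NUP1.l)) P :=
  ux_ofSG hP hc.sea hc.win (fun _ _ _ => rfl) curF_L hM hE hS hO hV (clsF_L he ho hc)

end PLT

end
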