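import Pool.Agent.PLT.LinL
import Pool.Agent.PLT.CrvC
import Pool.Agent.PLT.FDefC
import Pool.Agent.PLX.PB.ValH

/-!
# Legs and ends against a sea on a static curve

* `Cv.exists_wordC`: a neutral word on the displaced curve; `Cv.exists_legC`, `Cv.exists_thC`:
  `s ∫ P log thZ z (ζ) = s ∫ P log thZ z (ga) - 6 l h(Im z) + O(1)`,
  `s ∫ P log ThN (ζ) = s ∫ P log ThN (ga) - 12 l h(0) + O(1)`, `h = s P η`;
* `Hlg κ z η a t = log thZ z - κ log ThN` at the point of the curve;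
* **`exists_HDC`**: both species, numbers `sN m a`:
  `∑ₐ s ∫ P Hlg κ = ∑ₐ s ∫ P (log thZ z - κ log ThN)(ga) - 12 l h(Im z) + 24 κ l h(0) + O(1)`.
-/

set_option autoImplicit false
set_option linter.unusedSectionVars false
set_option linter.unusedVariables false

open MeasureTheory Set Filter Topology Complex
open PLX (Fil Ends)

namespace PLT.Cv

open NUMF (l l_pos)
open NUKer (iD)
open NUO (yw)
open NUSp (wd wn wq wph ka Asy)
open PBV.PLX (Fit asy_wdF diff_wdF Lz Lt wt fit_z fit_t wq_z wq_t wph_z wph_t log_thZ log_ThN)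
open PBO.PLX (thZ)
open NUGC.PLX (ThN)

noncomputable section

private theorem ka_nn : 0 ≤ ka (1 / 10) (9 / 100 * l) := by
  have hl := l_pos
  unfold ka
  have : 0 < Real.sin (1 / 10 * l - 9 / 100 * l) := by
    refine Real.sin_pos_of_pos_of_lt_pi (by linarith) ?_
    have : l = Real.pi / 8 := rfl
    linarith [Real.pi_pos]
  positivity

/-- **a neutral word on the displaced curve** -/
theorem exists_wordC (B : SeaCB) : ∃ C : ℝ, 1 ≤ C ∧ ∀ [SeaC] [SeaCU B], ∀ {s ε M b : ℝ}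
    {e η η1 : ℝ → ℝ}, 0 ≤ s → C * ε ≤ 1 → Cur s ε M b e η → (∀ t, HasDerivAt η (η1 t) t) →
    0 ≤ b → ∀ A : ℝ, (∀ t, |hd s η η1 t| ≤ A) → ∀ (L : List (ℤ × ℝ)) (w : ℂ),
    Fit (1 / 10) L w → wq L = 0 → |wph L w| ≤ 8 → wn L ≤ 4 →
      Integrable (fun t => s * P t * (wd L w (zt (gD η) t)).re) ∧
      Integrable (fun t : ℝ => s * P t * (wd L w (ga t)).re) ∧
      |(∫ t, s * P t * (wd L w (zt (gD η) t)).re) - (∫ t : ℝ, s * P t * (wd L w (ga t)).re) +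
          2 * wph L w * (s * P w.im * η w.im)| ≤ C * (A + b * (M * ε)) := by
  obtain ⟨C, hC, H⟩ := exists_linL B
  have hk := ka_nn
  have hl := l_pos
  obtain ⟨K, hK⟩ : ∃ K : ℝ, K = 4 * ka (1 / 10) (9 / 100 * l) := ⟨_, rfl⟩
  have hK0 : 0 ≤ K := by rw [hK]; positivity
  refine ⟨C * (8 + K) + C, by nlinarith, @fun _ hS s ε M b e η η1 hs hε hcur h1 hb A hA L w hF
    hq hφ hn => ?_⟩
  have hε0 := hcur.ε0
  have hM0 := hcur.M0 B hs
  have hbM : 0 ≤ b * (M * ε) := by positivity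
  have hA0 : 0 ≤ A := (abs_nonneg _).trans (hA 0)
  have hCε : C * ε ≤ 1 := by
    have : 0 ≤ C * (8 + K) * ε := by positivity
    nlinarith
  have h := H (κ := wn L * ka (1 / 10) (9 / 100 * l)) (a := -(wq L * Real.log 2)) (φ := wph L w)
    (τ := w.im) (A := A) (Ψ := wd L w) hs hCε hcur h1 hb
    (by
      have := asy_wdF (δ := 1 / 10) (b := 9 / 100 * l) (by linarith) hF
      rwa [hq] at this ⊢) (fun ζ hζ => diff_wdF hF (hζ.trans (by linarith))) hA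
  obtain ⟨i1, i2, h3⟩ := h
  refine ⟨i1, i2, h3.trans ?_⟩
  have h4 : wn L * ka (1 / 10) (9 / 100 * l) ≤ K := by
    rw [hK]
    exact mul_le_mul_of_nonneg_right hn hk
  rw [hq, zero_mul, neg_zero, abs_zero, zero_add]
  have h5 : |wph L w| + wn L * ka (1 / 10) (9 / 100 * l) ≤ 8 + K := add_le_add hφ h4
  have h6 : C * ((|wph L w| + wn L * ka (1 / 10) (9 / 100 * l)) * A) ≤ C * ((8 + K) * A) :=
    mul_le_mul_of_nonneg_left (mul_le_mul_of_nonneg_right h5 hA0) (by linarith)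
  have h7 : C * (|wph L w| + wn L * ka (1 / 10) (9 / 100 * l)) * b * (M * ε) ≤
      C * (8 + K) * (b * (M * ε)) := by
    rw [mul_assoc _ b]
    exact mul_le_mul_of_nonneg_right (mul_le_mul_of_nonneg_left h5 (by linarith)) hbM
  have h8 : 0 ≤ C * (A + b * (M * ε)) := by positivity
  calc _ ≤ C * ((8 + K) * A) + C * (8 + K) * (b * (M * ε)) := add_le_add h6 h7
    _ = C * (8 + K) * (A + b * (M * ε)) := by ring
    _ ≤ _ := by rw [add_mul]; linarith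

/-- heights of the displaced curve -/
private theorem him_lt (B : SeaCB) : ∃ C : ℝ, 1 ≤ C ∧ ∀ [SeaC] [SeaCU B], ∀ {s ε M b : ℝ}
    {e η η1 : ℝ → ℝ}, 0 ≤ s → C * ε ≤ 1 → Cur s ε M b e η → (∀ t, HasDerivAt η (η1 t) t) →
    ∀ t, |(zt (gD η) t).im| < 1 / 10 * l ∧ |(ga t).im| < 1 / 10 * l := by
  obtain ⟨C, hC, H⟩ := cur_path B
  refine ⟨C, hC, @fun _ hS s ε M b e η η1 hs hε hcur h1 t => ?_⟩
  obtain ⟨hP, hG, -, -⟩ := H hs hε hcur h1
  have hl := l_pos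
  have hh := B.h1
  have a1 := hP.im_ge t
  have a2 := hP.im_le t
  have a3 := hG.im_ge t
  have a4 := hG.im_le t
  rw [abs_lt, abs_lt]
  refine ⟨⟨by linarith, by linarith⟩, by linarith, by linarith⟩

/-- **the legs on the displaced curve** -/
theorem exists_legC (B : SeaCB) : ∃ C : ℝ, 1 ≤ C ∧ ∀ [SeaC] [SeaCU B], ∀ {s ε M b : ℝ}
    {e η η1 : ℝ → ℝ}, 0 ≤ s → C * ε ≤ 1 → Cur s ε M b e η → (∀ t, HasDerivAt η (η1 t) t) →
    0 ≤ b → ∀ A : ℝ, (∀ t, |hd s η η1 t| ≤ A) → ∀ z : ℂ, -(9 / 10 * l) ≤ z.re →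
    z.re ≤ 37 / 10 * l →
      Integrable (fun t => s * P t * Real.log (thZ z (l + I * zt (gD η) t))) ∧
      Integrable (fun t : ℝ => s * P t * Real.log (thZ z (l + I * ga t))) ∧
      |(∫ t, s * P t * Real.log (thZ z (l + I * zt (gD η) t))) -
          (∫ t : ℝ, s * P t * Real.log (thZ z (l + I * ga t))) +
          6 * l * (s * P z.im * η z.im)| ≤ C * (A + b * (M * ε)) := by
  obtain ⟨C, hC, H⟩ := exists_wordC B
  obtain ⟨C1, hC1, H1⟩ := him_lt B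
  refine ⟨C + C1, by linarith, @fun _ hS s ε M b e η η1 hs hε hcur h1 hb A hA z hz1 hz2 => ?_⟩
  have hl := l_pos
  have hll : l = Real.pi / 8 := rfl
  have hp4 := Real.pi_le_four
  have hε0 := hcur.ε0
  have hM0 := hcur.M0 B hs
  have hA0 : 0 ≤ A := (abs_nonneg _).trans (hA 0)
  have hCε : C * ε ≤ 1 := by nlinarith
  have hC1ε : C1 * ε ≤ 1 := by nlinarith
  have him := H1 hs hC1ε hcur h1
  obtain ⟨i1, i2, h3⟩ := H hs hCε hcur h1 hb A hA Lz z (fit_z hz1 hz2) wq_z (by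
    rw [wph_z hz1 hz2, abs_of_pos (by positivity)]; linarith) (by
    simp only [Lz, NUSp.wn_cons, NUSp.wn_nil]; norm_num)
  rw [wph_z hz1 hz2] at h3
  have c1 : ∀ t, (wd Lz z (zt (gD η) t)).re = Real.log (thZ z (l + I * zt (gD η) t)) := fun t => by
    rw [log_thZ hz1 hz2 (him t).1]
  have c2 : ∀ t : ℝ, (wd Lz z (ga t)).re = Real.log (thZ z (l + I * ga t)) := fun t => by
    rw [log_thZ hz1 hz2 (him t).2]
  simp only [c1] at i1 h3
  simp only [c2] at i2 h3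
  refine ⟨i1, i2, ?_⟩
  rw [show 6 * l = 2 * (3 * l) by ring]
  refine h3.trans ?_
  have : 0 ≤ C1 * (A + b * (M * ε)) := by positivity
  rw [add_mul]
  linarith

/-- **the ends on the displaced curve** -/
theorem exists_thC (B : SeaCB) : ∃ C : ℝ, 1 ≤ C ∧ ∀ [SeaC] [SeaCU B], ∀ {s ε M b : ℝ}
    {e η η1 : ℝ → ℝ}, 0 ≤ s → C * ε ≤ 1 → Cur s ε M b e η → (∀ t, HasDerivAt η (η1 t) t) →
    0 ≤ b → ∀ A : ℝ, (∀ t, |hd s η η1 t| ≤ A) →
      Integrable (fun t => s * P t * Real.log (ThN (l + I * zt (gD η) t))) ∧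
      Integrable (fun t : ℝ => s * P t * Real.log (ThN (l + I * ga t))) ∧
      |(∫ t, s * P t * Real.log (ThN (l + I * zt (gD η) t))) -
          (∫ t : ℝ, s * P t * Real.log (ThN (l + I * ga t))) +
          12 * l * (s * P 0 * η 0)| ≤ C * (A + b * (M * ε)) := by
  obtain ⟨C, hC, H⟩ := exists_wordC B
  obtain ⟨C1, hC1, H1⟩ := him_lt B
  refine ⟨C + C1, by linarith, @fun _ hS s ε M b e η η1 hs hε hcur h1 hb A hA => ?_⟩
  have hl := l_pos
  have hll : l = Real.pi / 8 := rfl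
  have hp4 := Real.pi_le_four
  have hε0 := hcur.ε0
  have hM0 := hcur.M0 B hs
  have hA0 : 0 ≤ A := (abs_nonneg _).trans (hA 0)
  have hCε : C * ε ≤ 1 := by nlinarith
  have hC1ε : C1 * ε ≤ 1 := by nlinarith
  have him := H1 hs hC1ε hcur h1
  obtain ⟨i1, i2, h3⟩ := H hs hCε hcur h1 hb A hA Lt wt fit_t wq_t (by
    rw [wph_t, abs_of_pos (by positivity)]; linarith) (by
    simp only [Lt, NUSp.wn_cons, NUSp.wn_nil]; norm_num [abs_of_pos, abs_of_neg])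
  rw [wph_t, PBV.PLX.wt_im] at h3
  have c1 : ∀ t, (wd Lt wt (zt (gD η) t)).re = Real.log (ThN (l + I * zt (gD η) t)) := fun t => by
    rw [log_ThN (him t).1]
  have c2 : ∀ t : ℝ, (wd Lt wt (ga t)).re = Real.log (ThN (l + I * ga t)) := fun t => by
    rw [log_ThN (him t).2]
  simp only [c1] at i1 h3
  simp only [c2] at i2 h3
  refine ⟨i1, i2, ?_⟩
  rw [show 12 * l = 2 * (6 * l) by ring]
  refine h3.trans ?_
  have : 0 ≤ C1 * (A + b * (M * ε)) := by positivity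
  rw [add_mul]
  linarith

end

end PLT.Cv

namespace PLT

open NUMF (l l_pos)
open PBO.PLX (thZ)
open NUGC.PLX (ThN)
open NUO (Tb)
open PotH.PLX (sN sN_nonneg sN_true sN_div sN_le)
open Cv (zt gD ga hd)

noncomputable section

private theorem hdcFin {a b c d D δ : ℝ} (k1 : |a| ≤ D) (k2 : |b| ≤ D)
    (t1 : |c| ≤ 6 * l * (2 * δ)) (t2 : |d| ≤ 12 * l * (2 * (2 * δ))) (h : l * δ ≤ δ) :
    |a + b + (c + d)| ≤ 2 * D + 100 * δ + 1 := by
  have h1 := abs_add_le (a + b) (c + d)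
  have h2 := abs_add_le a b
  have h3 := abs_add_le c d
  have h4 : 0 ≤ δ := by
    have hl := l_pos
    have h5 := (abs_nonneg c).trans t1
    have h6 : 0 ≤ 12 * l * δ := by linarith
    exact nonneg_of_mul_nonneg_right h6 (by positivity)
  linarith

variable [SeaC] [Fil]

/-- the point of the curve of a species -/
theorem ptC_dspF (η : ℝ → ℝ) (a : Bool) (t : ℝ) :
    ptC (dsp η) a t = l + I * zt (gD (Fil.cv a η)) t := by
  rw [zt_gD]
  unfold ptC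
  have hll : (NUP1.l : ℂ) = (l : ℂ) := rfl
  have : NUP1.vl NUP1.l t = l + I * t := by
    unfold NUP1.vl
    rw [hll]
    ring
  rw [this]
  ring

/-- **the potential of the legs** at `z` and of the missing ends (`κ`) -/
def Hlg (κ : ℝ) (z : ℂ) (η : ℝ → ℝ) (a : Bool) (t : ℝ) : ℝ :=
  Real.log (thZ z (ptC (dsp η) a t)) - κ * Real.log (ThN (ptC (dsp η) a t))

/-- the same on the static curve -/
def Hst (κ : ℝ) (z : ℂ) (t : ℝ) : ℝ :=
  Real.log (thZ z (l + I * ga t)) - κ * Real.log (ThN (l + I * ga t))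

/-- slope of the currents of the species -/
theorem hd_cv (B : SeaCB) [SeaCU B] (η η1 : ℝ → ℝ) {m : ℕ} (hm : 1 ≤ m) (s : ℝ) (a : Bool)
    (t : ℝ) : hd s (Fil.cv a η) (Fil.cv a η1) t = s / (m * Fil.b a) * hd m η η1 t := by
  have hm0 : (0 : ℝ) < m := by exact_mod_cast hm
  have hb := Fil.b_pos a
  rw [Cv.hd_eq B, Cv.hd_eq B, Fil.cv_apply, Fil.cv_apply]
  field_simp

variable [Ends]

omit [SeaC] in
/-- **legs and missing ends against both species** -/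
theorem exists_HDC (B : SeaCB) {e1 Cc : ℝ} (he : 0 < e1) (he1 : e1 ≤ 1) (hCc : 0 ≤ Cc) :
    ∃ C : ℝ, 1 ≤ C ∧ ∃ m0 : ℕ, 1 ≤ m0 ∧ ∀ [SeaC] [SeaCU B], ∀ m : ℕ, m0 ≤ m → ∀ (η η1 : ℝ → ℝ),
    CrvP e1 Cc m η η1 → (∀ t, |hd m η η1 t| ≤ 1) → ∀ (κ : ℝ) (z : ℂ), |κ| ≤ 2 →
    -(9 / 10 * l) ≤ z.re → z.re ≤ 37 / 10 * l →
      (∀ a, Integrable fun t => sN m a * Cv.P t * Hlg κ z η a t) ∧
      (∀ a, Integrable fun t => sN m a * Cv.P t * Hst κ z t) ∧
      |(∑ a, ∫ t, sN m a * Cv.P t * Hlg κ z η a t) -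
        ((∑ a, ∫ t, sN m a * Cv.P t * Hst κ z t) - 12 * l * (m * Cv.P z.im * η z.im) +
          24 * κ * l * (m * Cv.P 0 * η 0))| ≤ C := by
  obtain ⟨C1, hC1, H1⟩ := Cv.exists_legC B
  obtain ⟨C2, hC2, H2⟩ := Cv.exists_thC B
  obtain ⟨CP, hCP, HP⟩ := Cv.P_le B
  have hl := l_pos
  have hll : l = Real.pi / 8 := rfl
  have hpi := Real.pi_le_four
  have hq : (1 : ℝ) ≤ ((Fil.qo : ℕ) : ℝ) := Fil.one_le_qor
  have hq0 : (0 : ℝ) ≤ ((Fil.qo : ℕ) : ℝ) := by linarith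
  -- large numbers
  have t1 : Tendsto (fun m : ℕ => (C1 + C2) * (m : ℝ) ^ (-(e1 / 2))) atTop (𝓝 0) := by
    have h2 := (tendsto_rpow_neg_atTop (y := e1 / 2) (by linarith)).comp
      (tendsto_natCast_atTop_atTop (R := ℝ))
    have h3 := h2.const_mul (C1 + C2)
    rwa [mul_zero] at h3
  obtain ⟨mt, hmt⟩ := Filter.eventually_atTop.1 (t1.eventually_le_const one_pos)
  obtain ⟨Q, hQ⟩ : ∃ Q : ℝ, Q = ((Fil.qo : ℕ) : ℝ) * (1 + Cc * (16 / e1 ^ 2)) + 1 := ⟨_, rfl⟩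
  obtain ⟨A, hA⟩ : ∃ A : ℝ, A = 1 + ((Fil.qo : ℕ) : ℝ) := ⟨_, rfl⟩
  have hA0 : 0 ≤ A := by rw [hA]; positivity
  have hQ0 : 0 ≤ Q := by
    rw [hQ]
    have : 0 ≤ Cc * (16 / e1 ^ 2) := by positivity
    positivity
  refine ⟨2 * ((C1 + 2 * C2) * (A + Q)) + 100 * (((Fil.qo : ℕ) : ℝ) * CP) + 1, ?_, max mt 1,
    le_max_right _ _, ?_⟩
  · have : 0 ≤ 2 * ((C1 + 2 * C2) * (A + Q)) + 100 * (((Fil.qo : ℕ) : ℝ) * CP) := by positivity
    linarith
  intro S hS m hm η η1 hcv hd1 κ z hκ z1 z2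
  have hm1 : 1 ≤ m := (le_max_right _ _).trans hm
  have hm0 : (0 : ℝ) < m := by exact_mod_cast hm1
  obtain ⟨ε, e, hcur, hcom, hε0, hε1, hε2⟩ := hcv.spc B hm1
  have hsm := hmt m ((le_max_left _ _).trans hm)
  have hε : (C1 + C2) * ε ≤ 1 := (mul_le_mul_of_nonneg_left hε1 (by linarith)).trans hsm
  have hεa : C1 * ε ≤ 1 := by nlinarith
  have hεb : C2 * ε ≤ 1 := by nlinarith
  obtain ⟨hb, herr⟩ := PBV.PLX.crv_err he he1 hCc hm1 hε0 hε1
  obtain ⟨b, hbd⟩ : ∃ b, b = (1 - e1) * Tb (Real.log m) := ⟨_, rfl⟩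
  rw [← hbd] at hb herr hcur
  have hE : b * (((Fil.qo : ℕ) : ℝ) * (Cc * Real.log m) * ε) ≤ Q := by
    have h2 : b * (Cc * Real.log m * ε) ≤ Cc * (16 / e1 ^ 2) := by linarith
    have h3 := mul_le_mul_of_nonneg_left h2 hq0
    have h4 : 0 ≤ Cc * (16 / e1 ^ 2) := by positivity
    rw [hQ]
    calc b * (((Fil.qo : ℕ) : ℝ) * (Cc * Real.log m) * ε) =
        ((Fil.qo : ℕ) : ℝ) * (b * (Cc * Real.log m * ε)) := by ring
      _ ≤ ((Fil.qo : ℕ) : ℝ) * (Cc * (16 / e1 ^ 2)) := h3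
      _ ≤ _ := by nlinarith
  -- slopes
  have hsl : ∀ a t, |hd (sN m a) (Fil.cv a η) (Fil.cv a η1) t| ≤ A := by
    intro a t
    have hba := Fil.b_pos a
    rw [hd_cv B η η1 hm1, abs_mul]
    have h2 := sN_div hm1 a
    rw [sN_true hm1] at h2
    have h3 : |sN m a / (m * Fil.b a)| ≤ A := by
      have h4 : sN m a / (m * Fil.b a) = (sN m a / Fil.b a) / m := by field_simp
      rw [h4, abs_div, abs_of_pos hm0, div_le_iff₀ hm0, hA]
      have h5 : |sN m a / Fil.b a| ≤ m + ((Fil.qo : ℕ) : ℝ) := by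
        have h6 := abs_le.1 h2
        rw [abs_le]
        have h7 : 0 ≤ sN m a / Fil.b a := div_nonneg (sN_nonneg m a) hba.le
        constructor <;> linarith
      have h8 : (1 : ℝ) ≤ m := by exact_mod_cast hm1
      nlinarith
    calc _ ≤ A * 1 := mul_le_mul h3 (hd1 t) (abs_nonneg _) hA0
      _ = A := mul_one _
  -- one species
  have key : ∀ a, Integrable (fun t => sN m a * Cv.P t * Hlg κ z η a t) ∧
      Integrable (fun t => sN m a * Cv.P t * Hst κ z t) ∧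
      |(∫ t, sN m a * Cv.P t * Hlg κ z η a t) -
        ((∫ t, sN m a * Cv.P t * Hst κ z t) - 6 * l * (sN m a * Cv.P z.im * Fil.cv a η z.im) +
          12 * κ * l * (sN m a * Cv.P 0 * Fil.cv a η 0))| ≤ (C1 + 2 * C2) * (A + Q) := by
    intro a
    obtain ⟨i1, i2, a1⟩ := H1 (sN_nonneg m a) hεa (hcur a) (hcv.dcv a) hb A (hsl a) z z1 z2
    obtain ⟨j1, j2, a2⟩ := H2 (sN_nonneg m a) hεb (hcur a) (hcv.dcv a) hb A (hsl a)
    have e1' : (fun t => sN m a * Cv.P t * Hlg κ z η a t) = fun t =>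
        sN m a * Cv.P t * Real.log (thZ z (l + I * zt (gD (Fil.cv a η)) t)) -
          κ * (sN m a * Cv.P t * Real.log (ThN (l + I * zt (gD (Fil.cv a η)) t))) := by
      funext t
      unfold Hlg
      rw [ptC_dspF]
      ring
    have e2' : (fun t => sN m a * Cv.P t * Hst κ z t) = fun t =>
        sN m a * Cv.P t * Real.log (thZ z (l + I * ga t)) -
          κ * (sN m a * Cv.P t * Real.log (ThN (l + I * ga t))) := by
      funext t
      unfold Hst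
      ring
    have k1 := j1.const_mul κ
    have k2 := j2.const_mul κ
    refine ⟨by rw [e1']; exact i1.sub k1, by rw [e2']; exact i2.sub k2, ?_⟩
    rw [e1', e2', integral_sub i1 k1, integral_sub i2 k2, integral_const_mul, integral_const_mul]
    obtain ⟨I1, hI1⟩ : ∃ I1, I1 = ∫ t, sN m a * Cv.P t *
      Real.log (thZ z (l + I * zt (gD (Fil.cv a η)) t)) := ⟨_, rfl⟩
    obtain ⟨I2, hI2⟩ : ∃ I2, I2 = ∫ t, sN m a * Cv.P t * Real.log (thZ z (l + I * ga t)) :=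
      ⟨_, rfl⟩
    obtain ⟨J1, hJ1⟩ : ∃ J1, J1 = ∫ t, sN m a * Cv.P t *
      Real.log (ThN (l + I * zt (gD (Fil.cv a η)) t)) := ⟨_, rfl⟩
    obtain ⟨J2, hJ2⟩ : ∃ J2, J2 = ∫ t, sN m a * Cv.P t * Real.log (ThN (l + I * ga t)) :=
      ⟨_, rfl⟩
    obtain ⟨X, hX⟩ : ∃ X, X = sN m a * Cv.P z.im * Fil.cv a η z.im := ⟨_, rfl⟩
    obtain ⟨Y, hY⟩ : ∃ Y, Y = sN m a * Cv.P 0 * Fil.cv a η 0 := ⟨_, rfl⟩
    obtain ⟨E, hEd⟩ : ∃ E, E = b * (((Fil.qo : ℕ) : ℝ) * (Cc * Real.log m) * ε) := ⟨_, rfl⟩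
    rw [← hI1, ← hI2, ← hX, ← hEd] at a1
    rw [← hJ1, ← hJ2, ← hY, ← hEd] at a2
    rw [← hEd] at hE
    rw [← hI1, ← hI2, ← hJ1, ← hJ2, ← hX, ← hY]
    have e3 : I1 - κ * J1 - (I2 - κ * J2 - 6 * l * X + 12 * κ * l * Y) =
        (I1 - I2 + 6 * l * X) - κ * (J1 - J2 + 12 * l * Y) := by ring
    rw [e3]
    refine (abs_sub _ _).trans ?_
    rw [abs_mul]
    have u1 : C1 * (A + E) ≤ C1 * (A + Q) :=
      mul_le_mul_of_nonneg_left (by linarith) (by linarith)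
    have u2 : C2 * (A + E) ≤ C2 * (A + Q) :=
      mul_le_mul_of_nonneg_left (by linarith) (by linarith)
    have u3 : |κ| * |J1 - J2 + 12 * l * Y| ≤ 2 * (C2 * (A + Q)) :=
      mul_le_mul hκ (a2.trans u2) (abs_nonneg _) (by norm_num)
    calc _ ≤ C1 * (A + Q) + 2 * (C2 * (A + Q)) := add_le_add (a1.trans u1) u3
      _ = _ := by ring
  refine ⟨fun a => (key a).1, fun a => (key a).2.1, ?_⟩
  -- the currents of the two species
  have hc : ∀ a t, |sN m a * Cv.P t * Fil.cv a η t - m * Cv.P t * η t| ≤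
      ((Fil.qo : ℕ) : ℝ) * CP := by
    intro a t
    have hp := Cv.P_pos B t
    have hp1 : Cv.P t ≤ CP := by
      refine (HP t).trans ?_
      have h2 : Real.exp (-(8 / 3) * |t|) ≤ 1 := Real.exp_le_one_iff.2 (by
        have := abs_nonneg t
        linarith)
      nlinarith
    have h2 := hcom.c0 a t
    have h3 : Fil.cv true η t = η t := by rw [Fil.cv_true]
    have h4 := (hcur a).le t
    have h5 := (hcur a).nonneg t
    have h6 : ε ≤ 1 := by linarith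
    have e3 : sN m a * Cv.P t * Fil.cv a η t - m * Cv.P t * η t =
        Cv.P t * (sN m a * Fil.cv a η t - sN m true * Fil.cv true η t) := by
      rw [h3, sN_true hm1]
      ring
    rw [e3, abs_mul, abs_of_pos hp]
    have h7 : ((Fil.qo : ℕ) : ℝ) * e t ≤ ((Fil.qo : ℕ) : ℝ) := by nlinarith
    calc Cv.P t * |sN m a * Fil.cv a η t - sN m true * Fil.cv true η t| ≤
        CP * ((Fil.qo : ℕ) : ℝ) := mul_le_mul hp1 (h2.trans h7) (abs_nonneg _) hCP.le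
      _ = _ := by ring
  rw [Fintype.sum_bool, Fintype.sum_bool]
  obtain ⟨-, -, k1⟩ := key true
  obtain ⟨-, -, k2⟩ := key false
  have zt1 := hc true z.im
  have zf1 := hc false z.im
  have ot1 := hc true 0
  have of1 := hc false 0
  obtain ⟨δ, hδ⟩ : ∃ δ, δ = ((Fil.qo : ℕ) : ℝ) * CP := ⟨_, rfl⟩
  have hδ0 : 0 ≤ δ := by rw [hδ]; positivity
  obtain ⟨D, hD⟩ : ∃ D, D = (C1 + 2 * C2) * (A + Q) := ⟨_, rfl⟩
  obtain ⟨I1, hI1⟩ : ∃ I1, I1 = ∫ t, sN m true * Cv.P t * Hlg κ z η true t := ⟨_, rfl⟩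
  obtain ⟨I2, hI2⟩ : ∃ I2, I2 = ∫ t, sN m false * Cv.P t * Hlg κ z η false t := ⟨_, rfl⟩
  obtain ⟨J1, hJ1⟩ : ∃ J1, J1 = ∫ t, sN m true * Cv.P t * Hst κ z t := ⟨_, rfl⟩
  obtain ⟨J2, hJ2⟩ : ∃ J2, J2 = ∫ t, sN m false * Cv.P t * Hst κ z t := ⟨_, rfl⟩
  obtain ⟨Z1, hZ1⟩ : ∃ Z1, Z1 = sN m true * Cv.P z.im * Fil.cv true η z.im := ⟨_, rfl⟩
  obtain ⟨Z2, hZ2⟩ : ∃ Z2, Z2 = sN m false * Cv.P z.im * Fil.cv false η z.im := ⟨_, rfl⟩
  obtain ⟨O1, hO1⟩ : ∃ O1, O1 = sN m true * Cv.P 0 * Fil.cv true η 0 := ⟨_, rfl⟩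
  obtain ⟨O2, hO2⟩ : ∃ O2, O2 = sN m false * Cv.P 0 * Fil.cv false η 0 := ⟨_, rfl⟩
  obtain ⟨Z, hZ⟩ : ∃ Z, Z = m * Cv.P z.im * η z.im := ⟨_, rfl⟩
  obtain ⟨O, hO⟩ : ∃ O, O = m * Cv.P 0 * η 0 := ⟨_, rfl⟩
  rw [← hI1, ← hJ1, ← hZ1, ← hO1, ← hD] at k1
  rw [← hI2, ← hJ2, ← hZ2, ← hO2, ← hD] at k2
  rw [← hZ1, ← hZ, ← hδ] at zt1
  rw [← hZ2, ← hZ, ← hδ] at zf1
  rw [← hO1, ← hO, ← hδ] at ot1
  rw [← hO2, ← hO, ← hδ] at of1
  rw [← hI1, ← hI2, ← hJ1, ← hJ2, ← hZ, ← hO, ← hD, ← hδ]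
  have e : I1 + I2 - (J1 + J2 - 12 * l * Z + 24 * κ * l * O) =
      (I1 - (J1 - 6 * l * Z1 + 12 * κ * l * O1)) + (I2 - (J2 - 6 * l * Z2 + 12 * κ * l * O2)) +
      (-(6 * l) * ((Z1 - Z) + (Z2 - Z)) + 12 * l * (κ * ((O1 - O) + (O2 - O)))) := by ring
  rw [e]
  have t1 : |-(6 * l) * ((Z1 - Z) + (Z2 - Z))| ≤ 6 * l * (2 * δ) := by
    rw [abs_mul, abs_neg, abs_of_pos (by positivity : 0 < 6 * l)]
    refine mul_le_mul_of_nonneg_left ((abs_add_le _ _).trans (by linarith only [zt1, zf1]))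
      (by positivity)
  have t2 : |12 * l * (κ * ((O1 - O) + (O2 - O)))| ≤ 12 * l * (2 * (2 * δ)) := by
    rw [abs_mul, abs_of_pos (by positivity : 0 < 12 * l), abs_mul]
    refine mul_le_mul_of_nonneg_left ?_ (by positivity)
    exact mul_le_mul hκ ((abs_add_le _ _).trans (by linarith only [ot1, of1])) (abs_nonneg _)
      (by norm_num)
  have hlδ : l * δ ≤ δ := by
    have : l ≤ 1 := by rw [hll]; linarith only [hpi]
    exact mul_le_of_le_one_left hδ0 this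
  exact hdcFin k1 k2 t1 t2 hlδ

end

end PLT
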