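import Pool.Agent.PLT.GeoC
import Pool.Agent.PLT.TopDef
import Pool.Agent.PLT.LegV
import Pool.Agent.PLT.CurH
import Pool.Agent.PHK.GOk

/-!
# Sea on a curve: what is asked of a geometry over a sequence of seas

As `PHK/GOk` for `GeoC` and a sequence `S : ℕ → SeaC` of seas of one class.

* `lin_leC`: the linear term on the curve of TARGET-C, the gain `gnF` of the groups kept; `crvP_etaCC`;
* `PotC`, `CutBC`: potential and cutoff of the one body data of one size;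
* **`GOkC SB P en S G`**, **`GOkC.env`**, `GOkC.pref_le`, `pref_algC`, `confEC_le`;
* `GOkF`: the same uniformly in a family; **`GOkF.sel`**: selection.
-/

set_option autoImplicit false
set_option linter.unusedSectionVars false

noncomputable section

open MeasureTheory Finset Filter Topology
open scoped ENNReal

open PLX (Fil Ends)

namespace PLT

open PHK hiding mfo6
open PBO.PLX
open NUGC.PLX (OB ThN spF pE qE CuOk hC)
open NUO (Xo ht TW Tb)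
open NUDispW (win)
open NUSea.PLX.H0 (Gd TG cstF)
open PotH.PLX (HSk T1H phG sN)

/-! ### the linear term -/

section

variable (B : SeaCB) [SeaC] [SeaCU B] [Fil] [Ends]

include B

/-- **the linear term**, the gain of the ends and of the groups kept -/
theorem lin_leC {e1 J Cb T1 : ℝ} {m : ℕ} (hm : 0 < m) (he : 0 < e1) (he1 : e1 ≤ 1 / 100)
    (hT : 20 ≤ Tb (Real.log m)) (h1 : (1 - e1) * Tb (Real.log m) ≤ T1)
    (hc : CuOk e1 J Cb m (hC e1 J m) (deriv (hC e1 J m))) {n : ℕ} (g : Fin n → Gd)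
    (H : Bool → ℝ → ℝ) :
    linC (Cv.etaC e1 J m m) (Cv.etaC' e1 J m m) m g T1 H ≤
      -((1 - e1) * Tb (Real.log m)) + Cb - gnF e1 J m g +
        ∑ a, ∫ t, sN m a * Cv.P t * ((NUSp.DD pE qE [] a (Cv.ga t)).re + H a t) := by
  have h2 := @lin_curG NUSea.seaP _ _ e1 J Cb m _ _ hc (Fin n) _ (fun i => phG (g i))
    (fun i => NUSp.pin T1 (g i).τ)
  have hm0 : (0 : ℝ) < m := by exact_mod_cast hm
  have e1' : ∑ i, phG (g i) * hC e1 J m (NUSp.pin T1 (g i).τ) =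
      ∑ i, phC (g i).c * hC e1 J m (g i).τ :=
    sum_congr rfl fun i _ => by
      rw [@phG_ph NUSea.seaP _ _, @pin_hC NUSea.seaP _ _ _ _ _ _ he he1 hT h1]
  rw [e1'] at h2
  have e2 : ∑ i, phG (g i) * crC (Cv.etaC e1 J m m) m (NUSp.pin T1 (g i).τ) =
      ∑ i, phC (g i).c * hC e1 J m (g i).τ :=
    sum_congr rfl fun i _ => by
      rw [crC_etaC B hm, @phG_ph NUSea.seaP _ _, @pin_hC NUSea.seaP _ _ _ _ _ _ he he1 hT h1]
  unfold linC gnF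
  rw [e2, crC_etaC B hm, Cv.hd_curC B hm0, ← mul_sum]
  linarith

end

/-- **the curve of TARGET-C is admissible**, its current satisfies `CuOk` -/
theorem crvP_etaCC (B : SeaCB) {e1 J : ℝ} (he : 0 < e1) (he1 : e1 ≤ 1 / 100) (hJ : 0 ≤ J) :
    ∃ Cc : ℝ, 1 ≤ Cc ∧ ∃ Cb : ℝ, ∃ m0 : ℕ, ∀ m : ℕ, m0 ≤ m → 1 ≤ m ∧ 20 ≤ Tb (Real.log m) ∧
      CuOk e1 J Cb m (hC e1 J m) (deriv (hC e1 J m)) ∧
      ∀ [SeaC] [SeaCU B], CrvP e1 Cc m (Cv.etaC e1 J m m) (Cv.etaC' e1 J m m) := by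
  obtain ⟨C, hC1, m0, hm0, H⟩ := exists_crvC B he he1 hJ
  obtain ⟨Cb, m1, H1⟩ := @NUGC.PLX.cuOkC NUSea.seaP e1 J he he1 hJ
  obtain ⟨m2, hm2⟩ := Filter.eventually_atTop.1
    ((Real.tendsto_log_atTop.comp tendsto_natCast_atTop_atTop).eventually_ge_atTop (160 / 3 : ℝ))
  refine ⟨C, hC1, Cb, max m0 (max m1 m2), fun m hm => ?_⟩
  have a0 : m0 ≤ m := (le_max_left _ _).trans hm
  have a1 : m1 ≤ m := ((le_max_left _ _).trans (le_max_right _ _)).trans hm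
  have a2 : (160 / 3 : ℝ) ≤ Real.log m :=
    hm2 m (((le_max_right _ _).trans (le_max_right _ _)).trans hm)
  have hmp : (0 : ℝ) < m := by
    have : 1 ≤ m := hm0.trans a0
    exact_mod_cast this
  have hmm : (m : ℝ) / 2 ≤ m := by linarith
  refine ⟨hm0.trans a0, by unfold Tb; linarith, ?_, @fun _ hS => (H m a0).2⟩
  have h2 := H1 m a1 m hmm
  let _ : NUSea.Sea := NUSea.seaP
  rw [NUGC.PLX.cur_etaC hmp, NUGC.PLX.hd_curC hmp] at h2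
  exact h2

/-! ### geometries -/

section

variable [SeaC] [Fil] [Ends]

/-- **the potential of the one body data of one size**: rows of the sea, ends `ThN`, a real potential;
`V` the exponent -/
def PotC (B0 N0 e1 : ℝ) (m : ℕ) (η : ℝ → ℝ) (B : OB) (V : ℝ) : Prop :=
  ∃ H H' : Bool → ℝ → ℝ,
    (∀ d : ℝ, 0 ≤ d → HSk B0 N0 d ((1 - e1) * Tb (Real.log m)) (Real.log m ^ 3) H H') ∧
    (∀ a t, B.R a (ptC (dsp η) a t) ≤ 2 * Real.cos NUP1.l *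
      Real.exp (Cv.vb (sN m) a (Cv.zt (Cv.gD (Fil.cv a η)) t)).re *
      ThN (ptC (dsp η) a t) * Real.exp (H a t)) ∧
    Cv.MF (sN m) + ∑ a, ∫ t, sN m a * Cv.P t *
      ((NUSp.DD pE qE [] a (Cv.ga t)).re + H a t) ≤ V

/-- **the cutoff of the one body data of one size** -/
def CutBC (ep e1 C0 : ℝ) (m : ℕ) (η : ℝ → ℝ) (B : OB) : Prop :=
  ∃ cr Bc Bc' : ℝ → ℝ, CutC ep C0 ((1 - e1) * Tb (Real.log m)) m cr Bc Bc' ∧
    ∀ a t, ‖B.φ a (ptC (dsp η) a t)‖ ≤ cr t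

end

/-- base factor and groups on the curve -/
theorem ThN_spFC [SeaC] {n : ℕ} (g : Fin n → Gd) (a : Bool) {z : ℂ}
    (h : |z.im| < 1 / 4 * NUMF.l) :
    ThN (NUMF.l + Complex.I * z) * spF g a (NUMF.l + Complex.I * z) =
      Real.exp (NUSp.DD pE qE (List.ofFn fun i => (g i).G) a z).re := by
  have h1 := NUGC.PLX.ex_DD (fun i => (g i).c) (fun i => (g i).rt) (fun i => (g i).σ)
    (fun i => (g i).τ) a h
  have e1 : spF g a (NUMF.l + Complex.I * z) = ∏ i, ((NUSp.kG (g i).c (g i).rt).map fun x =>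
      NUGC.Ek.f (NUSp.spo (g i).σ x.1) x.2 (g i).τ a (NUMF.l + Complex.I * z)).prod := by
    unfold spF
    exact Finset.prod_congr rfl fun i _ => NUGC.PLX.spL_lsG (g i) a _
  rw [e1]
  exact h1

/-- the height of the curve -/
private theorem im_small [SeaC] [Fil] {η : ℝ → ℝ} (h : ∀ t, |η t| ≤ NUMF.l / 1000) (a : Bool)
    (t : ℝ) : |(Cv.zt (Cv.gD (Fil.cv a η)) t).im| < 1 / 4 * NUMF.l := by
  have hl := NUMF.l_pos
  have h1 := Cv.eta_nn t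
  have h2 := Cv.eta_le t
  have h3 := abs_le.1 (Fil.abs_cv_le_of (a := a) (h t))
  have e : (Cv.zt (Cv.gD (Fil.cv a η)) t).im = Cv.eta t + Fil.cv a η t := by
    simp [Cv.zt, Cv.gD, Cv.ga, NUKer.iD]
  rw [e, abs_lt]
  constructor <;> linarith

/-- **domination of the one body data with a family of groups** -/
theorem domC_of [SeaC] [Fil] [Ends] {B : OB} {m : ℕ} {η cr : ℝ → ℝ}
    (hη : ∀ t, |η t| ≤ NUMF.l / 1000) {n : ℕ} (g : Fin n → Gd) {H : Bool → ℝ → ℝ}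
    (hR : ∀ a t, B.R a (ptC (dsp η) a t) ≤ 2 * Real.cos NUP1.l *
      Real.exp (Cv.vb (sN m) a (Cv.zt (Cv.gD (Fil.cv a η)) t)).re *
      ThN (ptC (dsp η) a t) * Real.exp (H a t))
    (hφ : ∀ a t, ‖B.φ a (ptC (dsp η) a t)‖ ≤ cr t) : DomC (B.mul (spF g)) m η cr g H := by
  intro a t
  show B.R a (ptC (dsp η) a t) * spF g a (ptC (dsp η) a t) * ‖B.φ a (ptC (dsp η) a t)‖ ≤ _
  have h1 := ThN_spFC g a (im_small hη a t)
  have e0 : ptC (dsp η) a t = NUMF.l + Complex.I * Cv.zt (Cv.gD (Fil.cv a η)) t := ptC_dsp η a t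
  rw [← e0] at h1
  have h2 := spFR_nonneg g a (ptC (dsp η) a t)
  have h3 : B.R a (ptC (dsp η) a t) * spF g a (ptC (dsp η) a t) ≤ 2 * Real.cos NUP1.l *
      Real.exp (Cv.vb (sN m) a (Cv.zt (Cv.gD (Fil.cv a η)) t)).re *
      ThN (ptC (dsp η) a t) * Real.exp (H a t) * spF g a (ptC (dsp η) a t) :=
    mul_le_mul_of_nonneg_right (hR a t) h2
  have hcos : 0 ≤ Real.cos NUP1.l := NUGC.PLX.cosl_nonneg
  have h4 : 2 * Real.cos NUP1.l *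
      Real.exp (Cv.vb (sN m) a (Cv.zt (Cv.gD (Fil.cv a η)) t)).re *
      ThN (ptC (dsp η) a t) * Real.exp (H a t) * spF g a (ptC (dsp η) a t) =
      2 * Real.cos NUP1.l *
      Real.exp ((Cv.vb (sN m) a (Cv.zt (Cv.gD (Fil.cv a η)) t)).re +
      (NUSp.DD pE qE (List.ofFn fun i => (g i).G) a (Cv.zt (Cv.gD (Fil.cv a η)) t)).re +
        H a t) := by
    rw [Real.exp_add, Real.exp_add, ← h1]
    ring
  rw [h4] at h3
  have h5 : 0 ≤ 2 * Real.cos NUP1.l *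
      Real.exp ((Cv.vb (sN m) a (Cv.zt (Cv.gD (Fil.cv a η)) t)).re +
      (NUSp.DD pE qE (List.ofFn fun i => (g i).G) a (Cv.zt (Cv.gD (Fil.cv a η)) t)).re +
        H a t) := by
    positivity
  have h6 := mul_le_mul h3 (hφ a t) (norm_nonneg _) h5
  rw [← mul_assoc (2 * Real.cos NUP1.l)]
  exact h6

variable [Fil] [Ends]

/-- **what is asked of a geometry over a sequence of seas**: seas of the class, curves of TARGET-C, one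
body data dominated on the curve by the rows of the sea, the ends `ThN` and a real potential; admissible
cutoff; exponents -/
structure GOkC (SB : SeaCB) (P : Par6) (en : EnC) (S : ℕ → SeaC) (G : GeoC) : Prop where
  sea : ∃ m0 : ℕ, ∀ m ≥ m0, @SeaCU SB (S m)
  crv : ∃ m0 : ℕ, ∀ m ≥ m0, ∀ e1 J : ℝ, G.D e1 J m = @dsp (S m) _ (@Cv.etaC (S m) e1 J m m) ∧
    G.D1 e1 J m = @dsp1 (S m) _ (@Cv.etaC (S m) e1 J m m) (@Cv.etaC' (S m) e1 J m m)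
  en : ∃ m0 : ℕ, ∀ m ≥ m0, ∀ (r : ℕ) (O : Fin r → Xo), en (S m) r O ≤ G.en m r O
  nn : ∀ m β, (G.B m β).Nn
  pot : ∃ B0 N0 : ℝ, 0 ≤ B0 ∧ 0 ≤ N0 ∧ ∀ ep : ℝ, 0 < ep → ep ≤ 1 / 100 → ∀ e1 : ℝ, 0 < e1 →
    e1 ≤ 1 / 100 → ∀ J : ℝ, 0 ≤ J → ∃ CH : ℝ, ∃ m0 : ℕ, ∀ m ≥ m0,
      @PotC (S m) _ _ B0 N0 e1 m (@Cv.etaC (S m) e1 J m m) (G.B m (4 / 3 * (1 - ep))) (G.EM m + CH)
  cut : ∀ ep : ℝ, 0 < ep → ep ≤ 1 / 100 → ∀ e1 : ℝ, 0 < e1 → e1 ≤ 1 / 100 → ∀ J : ℝ, 0 ≤ J →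
    ∃ C0 : ℝ, 1 ≤ C0 ∧ ∃ m0 : ℕ, ∀ m ≥ m0,
      @CutBC (S m) _ ep e1 C0 m (@Cv.etaC (S m) e1 J m m) (G.B m (4 / 3 * (1 - ep)))
  one : ∃ K1 : ℝ, 0 ≤ K1 ∧ ∀ ep : ℝ, 0 < ep → ep ≤ 1 / 100 → ∀ e1 : ℝ, 0 < e1 → e1 ≤ 1 / 100 →
    ∀ J : ℝ, 0 ≤ J → ∃ m0 : ℕ, ∀ m ≥ m0, ∀ (r : ℕ) (O : Fin r → Xo) (i : Fin r),
      @oneHC (S m) _ _ P m (@Cv.etaC (S m) e1 J m m) (TW ep e1 m) r O i ≤
        G.one m ep e1 J r O i + K1
  MF : ∃ C : ℝ, 0 ≤ C ∧ ∃ m0 : ℕ, ∀ m ≥ m0, ∀ g : Gd,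
    @seaGC (S m) (sN m) g ≤ G.MF m g.σ g.c g.w + C

/-- the exponent of the objects against the one of the geometry -/
theorem confEC_le {P : Par6} {en : EnC} {S : SeaC} {G : GeoC} {m : ℕ} {ep e1 J K K1 kap : ℝ} {r : ℕ}
    (O : Fin r → Xo) (he : en S r O ≤ G.en m r O)
    (h : ∀ i, @oneHC S _ _ P m (@Cv.etaC S e1 J m m) (TW ep e1 m) r O i ≤ G.one m ep e1 J r O i + K1) :
    @confEC S _ _ P (en S) m (@Cv.etaC S e1 J m m) (TW ep e1 m) K kap r O ≤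
      confRC G m ep e1 J (K + K1) kap O := by
  unfold confEC confRC
  have h1 : ∑ i, @oneHC S _ _ P m (@Cv.etaC S e1 J m m) (TW ep e1 m) r O i ≤
      ∑ i, (G.one m ep e1 J r O i + K1) :=
    sum_le_sum fun i _ => h i
  rw [sum_add_distrib, sum_const, card_univ, Fintype.card_fin, nsmul_eq_mul] at h1
  linarith

/-- **the environment** of the curve of TARGET-C, any family of groups: `B0`, `N0` before everything -/
theorem GOkC.env {SB : SeaCB} {P : Par6} {en : EnC} {S : ℕ → SeaC} {G : GeoC}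
    (hG : GOkC SB P en S G) : ∃ B0 N0 : ℝ, 0 ≤ B0 ∧ 0 ≤ N0 ∧ ∀ ep : ℝ, 0 < ep →
    ep ≤ 1 / 100 → ∀ e1 : ℝ, 0 < e1 → e1 ≤ 1 / 100 → ∀ J : ℝ, 0 ≤ J →
    ∃ Cc C0 : ℝ, 1 ≤ Cc ∧ 1 ≤ C0 ∧ ∃ CL : ℝ, ∃ m0 : ℕ, ∀ m : ℕ, m0 ≤ m →
      1 ≤ m ∧ 20 ≤ Tb (Real.log m) ∧ @SeaCU SB (S m) ∧ ∃ (cr Bc Bc' : ℝ → ℝ) (H H' : Bool → ℝ → ℝ),
      (∀ (n : ℕ) (g : Fin n → Gd) (d : ℝ), 0 ≤ d →
        @EnvC (S m) _ _ ep e1 Cc C0 B0 N0 d m (@Cv.etaC (S m) e1 J m m) (@Cv.etaC' (S m) e1 J m m)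
          cr Bc Bc' H H' ((G.B m (4 / 3 * (1 - ep))).mul (spF g)) n g) ∧
      ∀ (n : ℕ) (g : Fin n → Gd) (T1 : ℝ), (1 - e1) * Tb (Real.log m) ≤ T1 →
        @Cv.MF (S m) (sN m) + @linC (S m) _ _ (@Cv.etaC (S m) e1 J m m) (@Cv.etaC' (S m) e1 J m m)
          m n g T1 H ≤ G.EM m - (1 - e1) * Tb (Real.log m) + CL - gnF e1 J m g := by
  obtain ⟨B0, N0, hB0, hN0, hpot⟩ := hG.pot
  obtain ⟨m3, hsea⟩ := hG.sea
  refine ⟨B0, N0, hB0, hN0, ?_⟩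
  intro ep hep hep1 e1 he he1 J hJ
  obtain ⟨CH, m1, hpot⟩ := hpot ep hep hep1 e1 he he1 J hJ
  obtain ⟨C0, hC0, m2, hcut⟩ := hG.cut ep hep hep1 e1 he he1 J hJ
  obtain ⟨Cc, hCc, Cb, m4, hcrv⟩ := crvP_etaCC SB (J := J) he he1 hJ
  refine ⟨Cc, C0, hCc, hC0, Cb + CH, max (max m1 m2) (max m3 m4), ?_⟩
  intro m hm
  have a1 : m1 ≤ m := ((le_max_left _ _).trans (le_max_left _ _)).trans hm
  have a2 : m2 ≤ m := ((le_max_right _ _).trans (le_max_left _ _)).trans hm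
  have a3 : m3 ≤ m := ((le_max_left _ _).trans (le_max_right _ _)).trans hm
  have a4 : m4 ≤ m := ((le_max_right _ _).trans (le_max_right _ _)).trans hm
  have hU := hsea m a3
  obtain ⟨H, H', hH, hdom, hint⟩ := hpot m a1
  obtain ⟨cr, Bc, Bc', hcr, hφ⟩ := hcut m a2
  obtain ⟨hm1, hT, hcu, hc⟩ := hcrv m a4
  let _ : SeaC := S m
  have hc := hc
  refine ⟨hm1, hT, hU, cr, Bc, Bc', H, H', fun n g d hd => ?_, fun n g T1 hT1 => ?_⟩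
  · exact { crv := hc, cut := hcr, hok := hH d hd
            nn := fun a u => mul_nonneg (hG.nn _ _ a u) (spFR_nonneg g a u)
            dom := domC_of hc.le g hdom hφ }
  · have hlin := lin_leC SB hm1 he he1 hT hT1 hcu g H
    linarith

/-- **the prefactors** -/
theorem GOkC.pref_le {SB : SeaCB} {P : Par6} {en : EnC} {S : ℕ → SeaC} {G : GeoC}
    (hG : GOkC SB P en S G) : ∃ C : ℝ, 0 ≤ C ∧ ∃ m0 : ℕ, ∀ m ≥ m0, ∀ (n : ℕ) (g : Fin n → Gd),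
    n ≤ 2 → ∑ i, @seaGC (S m) (sN m) (g i) ≤ ∑ i, G.MF m (g i).σ (g i).c (g i).w + C := by
  obtain ⟨CM, hCM, m0, hMF⟩ := hG.MF
  refine ⟨2 * CM, by positivity, m0, fun m hm n g hn => ?_⟩
  have h1 : ∑ i, @seaGC (S m) (sN m) (g i) ≤ ∑ i, (G.MF m (g i).σ (g i).c (g i).w + CM) :=
    sum_le_sum fun i _ => hMF m hm (g i)
  rw [sum_add_distrib, sum_const, card_univ, Fintype.card_fin, nsmul_eq_mul] at h1
  have h2 : (n : ℝ) ≤ 2 := by exact_mod_cast hn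
  have h3 : (n : ℝ) * CM ≤ 2 * CM := mul_le_mul_of_nonneg_right h2 hCM
  linarith

/-- the prefactors, exponentiated: power `3 / 8 + a`, linear term `LI`, gain `GN` -/
theorem pref_algC [S : SeaC] {G : GeoC} {m n : ℕ} (hm : 1 ≤ m) {g : Fin n → Gd}
    {E x Cst CP CL e1 a a' LI GN CF CR F1 F2 : ℝ} (hCst : 0 ≤ Cst) (hF : F1 ≤ F2) (hF1 : 0 ≤ F1)
    (hp : ∑ i, seaGC (sN m) (g i) ≤ ∑ i, G.MF m (g i).σ (g i).c (g i).w + CP)
    (hl : Cv.MF (sN m) + LI ≤ G.EM m - (1 - e1) * Tb (Real.log m) + CL - GN) (hc : CF ≤ CR)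
    (ha : a + 3 / 8 * e1 ≤ a') :
    prefC m g E x Cst * (m : ℝ) ^ (3 / 8 + a) * F1 * Real.exp (CF + LI) ≤
      prefR G.toGeo m g E x (Cst * Real.exp (CP + CL)) * (m : ℝ) ^ a' * F2 * Real.exp (-GN) *
        Real.exp CR := by
  have hmR : (0 : ℝ) < m := by exact_mod_cast hm
  unfold prefC prefR
  rw [Real.rpow_def_of_pos hmR, Real.rpow_def_of_pos hmR]
  obtain ⟨L, hL⟩ : ∃ L, L = Real.log m := ⟨_, rfl⟩
  have hTb : Tb (Real.log m) = 3 / 8 * L := by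
    rw [hL]
    rfl
  rw [hTb] at hl
  rw [← hL]
  have hL0 : 0 ≤ L := by
    rw [hL]
    exact Real.log_nonneg (by exact_mod_cast hm)
  obtain ⟨SG, hSG⟩ : ∃ SG, SG = ∑ i, seaGC (sN m) (g i) := ⟨_, rfl⟩
  obtain ⟨SM, hSM⟩ : ∃ SM, SM = ∑ i, G.MF m (g i).σ (g i).c (g i).w := ⟨_, rfl⟩
  rw [← hSG, ← hSM] at hp
  rw [← hSG, ← hSM]
  have h1 : Cst * Real.exp (Cv.MF (sN m) + SG) * Real.exp (37 / 20 * x + 12 / 5 * E) *
        Real.exp (L * (3 / 8 + a)) * F1 * Real.exp (CF + LI) =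
      Cst * F1 * Real.exp (Cv.MF (sN m) + SG + (37 / 20 * x + 12 / 5 * E) +
        L * (3 / 8 + a) + (CF + LI)) := by
    rw [Real.exp_add _ (CF + LI), Real.exp_add _ (L * (3 / 8 + a)),
      Real.exp_add _ (37 / 20 * x + 12 / 5 * E)]
    ring
  have h2 : Cst * Real.exp (CP + CL) * Real.exp (G.EM m) *
        Real.exp SM * Real.exp (37 / 20 * x + 12 / 5 * E) *
        Real.exp (L * a') * F2 * Real.exp (-GN) * Real.exp CR =
      Cst * F2 * Real.exp (CP + CL + G.EM m + SM +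
        (37 / 20 * x + 12 / 5 * E) + L * a' + -GN + CR) := by
    rw [Real.exp_add _ CR, Real.exp_add _ (-GN), Real.exp_add _ (L * a'),
      Real.exp_add _ (37 / 20 * x + 12 / 5 * E), Real.exp_add _ SM,
      Real.exp_add _ (G.EM m)]
    ring
  rw [h1, h2]
  refine mul_le_mul (mul_le_mul_of_nonneg_left hF hCst) (Real.exp_le_exp.2 ?_) (Real.exp_pos _).le
    (mul_nonneg hCst (hF1.trans hF))
  have h3 : L * (a + 3 / 8 * e1) ≤ L * a' := mul_le_mul_of_nonneg_left ha hL0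
  nlinarith

/-! ### families -/

/-- **what is asked of a family of geometries**, uniformly in the index: `GOkC` for every selection -/
structure GOkF (SB : SeaCB) (P : Par6) (en : EnC) {ι : Type*} (ok : ℕ → ι → Prop)
    (S : ℕ → ι → SeaC) (G : ι → GeoC) : Prop where
  sea : ∃ m0 : ℕ, ∀ m ≥ m0, ∀ i, ok m i → @SeaCU SB (S m i)
  crv : ∃ m0 : ℕ, ∀ m ≥ m0, ∀ i, ok m i → ∀ e1 J : ℝ,
    (G i).D e1 J m = @dsp (S m i) _ (@Cv.etaC (S m i) e1 J m m) ∧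
    (G i).D1 e1 J m = @dsp1 (S m i) _ (@Cv.etaC (S m i) e1 J m m) (@Cv.etaC' (S m i) e1 J m m)
  en : ∃ m0 : ℕ, ∀ m ≥ m0, ∀ i, ok m i → ∀ (r : ℕ) (O : Fin r → Xo),
    en (S m i) r O ≤ (G i).en m r O
  nn : ∀ m i β, ((G i).B m β).Nn
  pot : ∃ B0 N0 : ℝ, 0 ≤ B0 ∧ 0 ≤ N0 ∧ ∀ ep : ℝ, 0 < ep → ep ≤ 1 / 100 → ∀ e1 : ℝ, 0 < e1 →
    e1 ≤ 1 / 100 → ∀ J : ℝ, 0 ≤ J → ∃ CH : ℝ, ∃ m0 : ℕ, ∀ m ≥ m0, ∀ i, ok m i →
      @PotC (S m i) _ _ B0 N0 e1 m (@Cv.etaC (S m i) e1 J m m) ((G i).B m (4 / 3 * (1 - ep)))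
        ((G i).EM m + CH)
  cut : ∀ ep : ℝ, 0 < ep → ep ≤ 1 / 100 → ∀ e1 : ℝ, 0 < e1 → e1 ≤ 1 / 100 → ∀ J : ℝ, 0 ≤ J →
    ∃ C0 : ℝ, 1 ≤ C0 ∧ ∃ m0 : ℕ, ∀ m ≥ m0, ∀ i, ok m i →
      @CutBC (S m i) _ ep e1 C0 m (@Cv.etaC (S m i) e1 J m m) ((G i).B m (4 / 3 * (1 - ep)))
  one : ∃ K1 : ℝ, 0 ≤ K1 ∧ ∀ ep : ℝ, 0 < ep → ep ≤ 1 / 100 → ∀ e1 : ℝ, 0 < e1 → e1 ≤ 1 / 100 →
    ∀ J : ℝ, 0 ≤ J → ∃ m0 : ℕ, ∀ m ≥ m0, ∀ i, ok m i → ∀ (r : ℕ) (O : Fin r → Xo) (j : Fin r),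
      @oneHC (S m i) _ _ P m (@Cv.etaC (S m i) e1 J m m) (TW ep e1 m) r O j ≤
        (G i).one m ep e1 J r O j + K1
  MF : ∃ C : ℝ, 0 ≤ C ∧ ∃ m0 : ℕ, ∀ m ≥ m0, ∀ i, ok m i → ∀ g : Gd,
    @seaGC (S m i) (sN m) g ≤ (G i).MF m g.σ g.c g.w + C

/-- **selection** -/
theorem GOkF.sel {SB : SeaCB} {P : Par6} {en : EnC} {ι : Type*} {ok : ℕ → ι → Prop}
    {S : ℕ → ι → SeaC} {G : ι → GeoC} (h : GOkF SB P en ok S G) (i : ℕ → ι)
    (hi : ∃ m0 : ℕ, ∀ m ≥ m0, ok m (i m)) :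
    GOkC SB P en (fun m => S m (i m)) (GeoC.sel G i) := by
  obtain ⟨m0, hi⟩ := hi
  refine ⟨?_, ?_, ?_, fun m β => h.nn m (i m) β, ?_, ?_, ?_, ?_⟩
  · obtain ⟨m1, h⟩ := h.sea
    exact ⟨max m0 m1, fun m hm => h m ((le_max_right _ _).trans hm) _
      (hi m ((le_max_left _ _).trans hm))⟩
  · obtain ⟨m1, h⟩ := h.crv
    exact ⟨max m0 m1, fun m hm => h m ((le_max_right _ _).trans hm) _
      (hi m ((le_max_left _ _).trans hm))⟩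
  · obtain ⟨m1, h⟩ := h.en
    exact ⟨max m0 m1, fun m hm => h m ((le_max_right _ _).trans hm) _
      (hi m ((le_max_left _ _).trans hm))⟩
  · obtain ⟨B0, N0, hB, hN, h⟩ := h.pot
    refine ⟨B0, N0, hB, hN, fun ep hep hep1 e1 he he1 J hJ => ?_⟩
    obtain ⟨CH, m1, h⟩ := h ep hep hep1 e1 he he1 J hJ
    exact ⟨CH, max m0 m1, fun m hm => h m ((le_max_right _ _).trans hm) _
      (hi m ((le_max_left _ _).trans hm))⟩
  · intro ep hep hep1 e1 he he1 J hJ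
    obtain ⟨C0, hC, m1, h⟩ := h.cut ep hep hep1 e1 he he1 J hJ
    exact ⟨C0, hC, max m0 m1, fun m hm => h m ((le_max_right _ _).trans hm) _
      (hi m ((le_max_left _ _).trans hm))⟩
  · obtain ⟨K1, hK, h⟩ := h.one
    refine ⟨K1, hK, fun ep hep hep1 e1 he he1 J hJ => ?_⟩
    obtain ⟨m1, h⟩ := h ep hep hep1 e1 he he1 J hJ
    exact ⟨max m0 m1, fun m hm => h m ((le_max_right _ _).trans hm) _
      (hi m ((le_max_left _ _).trans hm))⟩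
  · obtain ⟨C, hC, m1, h⟩ := h.MF
    exact ⟨C, hC, max m0 m1, fun m hm => h m ((le_max_right _ _).trans hm) _
      (hi m ((le_max_left _ _).trans hm))⟩

end PLT

end
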