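import Pool.Agent.PLT.LegV
import Pool.Agent.PLT.CurH
import Pool.Agent.PLX.PB.HPot
import Pool.Agent.PLX.PotH.SrcH

/-!
# The potential of the legs on the displaced curve is admissible

* `PthA K lo hi ζ ζ'`: paths of the strip with bounded derivatives; `exists_compA`: analytic functions on them;
* `AP y1 y2 c ζ t = Re LC y1 y2 (ζ t - c)`: the atom on a path; `AP_O4`, `AP_dc`;
* **`hok_path`**: sums of atoms on paths are admissible;
* `log_leg`, `log_end`, `Hlg_atoms`: the legs and the ends at `l + I ζ` are atoms;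
* `pthA_cur`: the displaced curves are such paths; **`hokLC`**: `HSk B0 N0 th b (log m ^ 3) (Hlg κ z η) H'`.
-/

set_option autoImplicit false
set_option linter.unusedSectionVars false
set_option linter.unusedVariables false

open MeasureTheory Filter Topology Set Complex
open PLX (Fil Ends)

noncomputable section

namespace PLT

open NUMF (l l_pos)
open NUAct (OC)
open PBH (LC LC' KL Dm)
open PBH.PLX (Atm Dc)
open PotH.PLX (HOk HSk)
open PBO.PLX (thZ)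
open NUGC.PLX (ThN)

/-! ### paths -/

/-- paths of the strip `lo ≤ Im z ≤ hi` with bounded derivatives -/
structure PthA (K lo hi : ℝ) (ζ ζ' : ℝ → ℂ) : Prop where
  der : ∀ t, HasDerivAt ζ (ζ' t) t
  oc : OC 3 (fun _ => K) ζ'
  ge : ∀ t, lo ≤ (ζ t).im
  le : ∀ t, (ζ t).im ≤ hi
  near : ∀ t, |(ζ t).re - t| ≤ 1

theorem PthA.cont {K lo hi : ℝ} {ζ ζ' : ℝ → ℂ} (h : PthA K lo hi ζ ζ') : Continuous ζ :=
  continuous_iff_continuousAt.2 fun t => (h.der t).continuousAt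

theorem PthA.mono {K K' lo hi : ℝ} {ζ ζ' : ℝ → ℂ} (h : PthA K lo hi ζ ζ') (hK : K ≤ K') :
    PthA K' lo hi ζ ζ' := { h with oc := h.oc.mono fun _ => hK }

theorem PthA.K0 {K lo hi : ℝ} {ζ ζ' : ℝ → ℂ} (h : PthA K lo hi ζ ζ') : 0 ≤ K := h.oc.nonneg 0

/-- derivatives of a composition -/
private theorem comp_OC {K : ℝ} (hK : 0 ≤ K) (j : ℕ) : ∃ C : ℝ, 1 ≤ C ∧ ∀ {Ω : Set ℂ} {A : ℝ}
    {G : ℕ → ℂ → ℂ} {ζ ζ' : ℝ → ℂ} (n : ℕ), 0 ≤ A →
    (∀ k, ∀ z ∈ Ω, HasDerivAt (G k) (G (k + 1) z) z) → (∀ k ≤ n + j, ∀ z ∈ Ω, ‖G k z‖ ≤ A) →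
    (∀ t, ζ t ∈ Ω) → (∀ t, HasDerivAt ζ (ζ' t) t) → OC (j - 1) (fun _ => K) ζ' →
    OC j (fun _ => C * A) fun t => G n (ζ t) := by
  induction j with
  | zero =>
    refine ⟨1, le_rfl, fun {Ω A G ζ ζ'} n hA hG hb hζ hd ho => ⟨?_, fun t => ?_⟩⟩
    · exact continuous_iff_continuousAt.2 fun t =>
        ((hG n (ζ t) (hζ t)).comp t (hd t)).continuousAt
    · rw [one_mul]
      exact hb n le_rfl _ (hζ t)
  | succ j ih =>
    obtain ⟨C, hC, H⟩ := ih
    refine ⟨1 + 2 ^ j * (C * K), by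
      have : 0 ≤ 2 ^ j * (C * K) := by positivity
      linarith, fun {Ω A G ζ ζ'} n hA hG hb hζ hd ho => ⟨fun t => ?_, fun t => G (n + 1) (ζ t) * ζ' t,
        fun t => (hG n (ζ t) (hζ t)).comp t (hd t), ?_⟩⟩
    · refine (hb n (by omega) _ (hζ t)).trans ?_
      have : 0 ≤ 2 ^ j * (C * K) := by positivity
      nlinarith
    · have ho' : OC j (fun _ => K) ζ' := ho
      have ho2 : OC (j - 1) (fun _ => K) ζ' := by
        rcases j with _ | i
        · exact ho'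
        · exact ho'.lower
      have h1 := H (n + 1) hA hG (fun k hk => hb k (by omega)) hζ hd ho2
      refine (h1.mul ho').mono fun t => ?_
      have : (0 : ℝ) ≤ 1 * A := by linarith
      nlinarith

/-- **analytic functions on a path** -/
theorem exists_compA {K r : ℝ} (hK : 0 ≤ K) (hr : 0 < r) (hr1 : r ≤ 1) : ∃ C : ℝ, 1 ≤ C ∧
    ∀ {Ω Ω1 : Set ℂ} {A : ℝ} {F : ℂ → ℂ} {ζ ζ' : ℝ → ℂ}, 0 ≤ A → IsOpen Ω1 →
    (∀ z ∈ Ω, Metric.closedBall z r ⊆ Ω1) → DifferentiableOn ℂ F Ω1 → (∀ z ∈ Ω1, ‖F z‖ ≤ A) →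
    (∀ t, ζ t ∈ Ω) → (∀ t, HasDerivAt ζ (ζ' t) t) → OC 3 (fun _ => K) ζ' →
    OC 4 (fun _ => C * A) fun t => F (ζ t) := by
  obtain ⟨C, hC, H⟩ := comp_OC hK 4
  refine ⟨C * (24 / r ^ 4), ?_, fun {Ω Ω1 A F ζ ζ'} hA hop hball hF hFA hζ hd ho => ?_⟩
  · have h1 : r ^ 4 ≤ 1 := pow_le_one₀ hr.le hr1
    have h2 : 1 ≤ 24 / r ^ 4 := by
      rw [le_div_iff₀ (by positivity)]
      linarith
    nlinarith
  have hder : ∀ k, ∀ z ∈ Ω, HasDerivAt (iteratedDeriv k F) (iteratedDeriv (k + 1) F z) z := by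
    intro k z hz
    have hz1 : z ∈ Ω1 := hball z hz (Metric.mem_closedBall_self hr.le)
    have h1 : AnalyticAt ℂ F z := hF.analyticAt (hop.mem_nhds hz1)
    have h2 : AnalyticAt ℂ (iteratedDeriv k F) z := by
      rw [iteratedDeriv_eq_iterate]
      exact h1.iterated_deriv k
    rw [iteratedDeriv_succ]
    exact h2.differentiableAt.hasDerivAt
  have hbd : ∀ k ≤ 0 + 4, ∀ z ∈ Ω, ‖iteratedDeriv k F z‖ ≤ 24 / r ^ 4 * A := by
    intro k hk z hz
    have h1 := Complex.norm_iteratedDeriv_le_of_forall_mem_sphere_norm_le (n := k) (c := z) (R := r)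
      (C := A) (f := F) hr ?_ ?_
    · refine h1.trans ?_
      have e1 : (k.factorial : ℝ) ≤ 24 := by
        have := Nat.factorial_le (m := k) (n := 4) (by omega)
        have e4 : Nat.factorial 4 = 24 := rfl
        rw [e4] at this
        exact_mod_cast this
      have e2 : r ^ 4 ≤ r ^ k := pow_le_pow_of_le_one hr.le hr1 (by omega)
      have e3 : 0 < r ^ 4 := by positivity
      rw [mul_div_assoc, div_mul_eq_mul_div, mul_div_assoc]
      have e4 : A / r ^ k ≤ A / r ^ 4 := div_le_div_of_nonneg_left hA e3 e2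
      exact mul_le_mul e1 e4 (by positivity) (by positivity)
    · refine ⟨?_, ?_⟩
      · exact hF.mono (Metric.ball_subset_closedBall.trans (hball z hz))
      · exact (hF.mono (hball z hz)).continuousOn.mono
          (closure_minimal Metric.ball_subset_closedBall Metric.isClosed_closedBall)
    · intro w hw
      exact hFA w (hball z hz (Metric.sphere_subset_closedBall hw))
  have h4 := H (Ω := Ω) (G := fun k => iteratedDeriv k F) 0 (by positivity) hder hbd hζ hd ho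
  refine (h4.mono fun t => le_of_eq (by ring)).congr fun t => ?_
  show iteratedDeriv 0 F (ζ t) = F (ζ t)
  rw [iteratedDeriv_zero]

/-! ### atoms on a path -/

/-- the atom on a path, centre `c` -/
def AP (y1 y2 c : ℝ) (ζ : ℝ → ℂ) (t : ℝ) : ℝ := (LC y1 y2 (ζ t - c)).re

/-- its derivative -/
def AP' (y1 y2 c : ℝ) (ζ ζ' : ℝ → ℂ) (t : ℝ) : ℝ := (LC' y1 y2 (ζ t - c) * ζ' t).re

/-- the lines of the atom are seen from the strip -/
structure Win (δ lo hi y1 y2 : ℝ) : Prop where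
  a1 : -(4 * l) + δ ≤ lo + y1
  b1 : hi + y1 ≤ 4 * l - δ
  a2 : -(4 * l) + δ ≤ lo + y2
  b2 : hi + y2 ≤ 4 * l - δ

section atoms

variable {δ K lo hi y1 y2 c : ℝ} {ζ ζ' : ℝ → ℂ}

private theorem dmA (h0 : 0 < δ) (w : Win δ lo hi y1 y2) (h : PthA K lo hi ζ ζ') (t : ℝ) :
    Dm δ y1 y2 (ζ t - c) := by
  have h1 := h.ge t
  have h2 := h.le t
  have := w.a1
  have := w.b1
  have := w.a2
  have := w.b2
  have e : (ζ t - c).im = (ζ t).im := by simp
  constructor <;> rw [e, abs_le] <;> constructor <;> linarith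

theorem AP_deriv (h0 : 0 < δ) (w : Win δ lo hi y1 y2) (h : PthA K lo hi ζ ζ') (t : ℝ) :
    HasDerivAt (AP y1 y2 c ζ) (AP' y1 y2 c ζ ζ' t) t := by
  have e3 : HasDerivAt (fun t : ℝ => ζ t - c) (ζ' t) t := (h.der t).sub_const _
  have e4 := (PBH.LC_deriv h0 (dmA (c := c) h0 w h t)).comp_of_eq t e3 rfl
  exact Complex.reCLM.hasFDerivAt.comp_hasDerivAt t e4

theorem AP'_cont (h0 : 0 < δ) (w : Win δ lo hi y1 y2) (h : PthA K lo hi ζ ζ') :
    Continuous (AP' y1 y2 c ζ ζ') := by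
  refine Complex.continuous_re.comp (Continuous.mul ?_ h.oc.cont)
  refine continuous_iff_continuousAt.2 fun t => ?_
  have hc := h.cont
  have hin : ContinuousAt (fun t : ℝ => ζ t - c) t := Continuous.continuousAt (by fun_prop)
  exact ContinuousAt.comp (f := fun t : ℝ => ζ t - c)
    (PBH.LC'_cont h0 (dmA (c := c) h0 w h t)) hin

private theorem exp_near (h : PthA K lo hi ζ ζ') (t : ℝ) :
    Real.exp (-2 * |(ζ t - c).re|) ≤ Real.exp 2 * Real.exp (-2 * |t - c|) := by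
  rw [← Real.exp_add]
  refine Real.exp_le_exp.2 ?_
  have h1 := h.near t
  have h2 : |t - c| ≤ |(ζ t - c).re| + |(ζ t).re - t| := by
    have e : t - c = (ζ t - c).re + -((ζ t).re - t) := by
      rw [Complex.sub_re, Complex.ofReal_re]
      ring
    rw [e]
    refine (abs_add_le _ _).trans ?_
    rw [abs_neg]
  linarith

theorem AP_le (h0 : 0 < δ) (h01 : δ ≤ 4 * l) (w : Win δ lo hi y1 y2) (h : PthA K lo hi ζ ζ')
    (t : ℝ) : |AP y1 y2 c ζ t| ≤ KL δ * Real.exp 2 * Real.exp (-2 * |t - c|) := by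
  refine (PBH.re_LC_le h0 h01 (dmA (c := c) h0 w h t)).trans ?_
  rw [mul_assoc]
  exact mul_le_mul_of_nonneg_left (exp_near h t) (PBH.KL_pos h0 h01).le

theorem AP'_le (h0 : 0 < δ) (h01 : δ ≤ 4 * l) (w : Win δ lo hi y1 y2) (h : PthA K lo hi ζ ζ')
    (t : ℝ) : |AP' y1 y2 c ζ ζ' t| ≤ KL δ * Real.exp 2 * K * Real.exp (-2 * |t - c|) := by
  have a := PBH.LC'_le h0 h01 (dmA (c := c) h0 w h t)
  have b := h.oc.le t
  have hK := h.K0
  have hL := (PBH.KL_pos h0 h01).le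
  unfold AP'
  refine (Complex.abs_re_le_norm _).trans ?_
  rw [norm_mul]
  calc _ ≤ KL δ * Real.exp (-2 * |(ζ t - c).re|) * K :=
        mul_le_mul a b (norm_nonneg _) (mul_nonneg hL (Real.exp_pos _).le)
    _ ≤ KL δ * (Real.exp 2 * Real.exp (-2 * |t - c|)) * K :=
        mul_le_mul_of_nonneg_right (mul_le_mul_of_nonneg_left (exp_near h t) hL) hK
    _ = _ := by ring

/-- the constant of the atoms on a path -/
def KAp (δ K : ℝ) : ℝ := KL δ * Real.exp 2 * (1 + K)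

/-- the energy constant of an atom -/
def EAp (δ K : ℝ) : ℝ := 2 * (KAp δ K ^ 2 * ∫ t : ℝ, Real.exp (-4 * |t|))

theorem AP_dc (h0 : 0 < δ) (h01 : δ ≤ 4 * l) (w : Win δ lo hi y1 y2) (h : PthA K lo hi ζ ζ') :
    Dc (KAp δ K) (EAp δ K) (AP y1 y2 c ζ) (AP' y1 y2 c ζ ζ') := by
  have hK := h.K0
  have hL := (PBH.KL_pos h0 h01).le
  have hA : 0 ≤ KAp δ K := by
    unfold KAp
    positivity
  refine Dc.of_exp (c := c) hA (AP_deriv h0 w h) (AP'_cont h0 w h) (fun t => ?_) fun t => ?_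
  · refine (AP_le h0 h01 w h t).trans (mul_le_mul_of_nonneg_right ?_ (Real.exp_pos _).le)
    unfold KAp
    have : 0 ≤ KL δ * Real.exp 2 := by positivity
    nlinarith
  · refine (AP'_le h0 h01 w h t).trans (mul_le_mul_of_nonneg_right ?_ (Real.exp_pos _).le)
    unfold KAp
    have : 0 ≤ KL δ * Real.exp 2 := by positivity
    nlinarith

end atoms

/-- **the atom on a path has four bounded derivatives** -/
theorem AP_O4 {K δ : ℝ} (hK : 0 ≤ K) (h0 : 0 < δ) (h01 : δ ≤ 1) : ∃ C : ℝ, 1 ≤ C ∧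
    ∀ {lo hi y1 y2 c : ℝ} {ζ ζ' : ℝ → ℂ}, Win δ lo hi y1 y2 → PthA K lo hi ζ ζ' →
    NUOC.O 4 C (AP y1 y2 c ζ) := by
  obtain ⟨C, hC, H⟩ := exists_compA hK (r := δ / 4) (by positivity) (by linarith)
  have h8 := PBH.l8
  have hpi := Real.pi_gt_three
  have h04 : δ ≤ 4 * l := by linarith
  have hL := PBH.KL_pos h0 h04
  refine ⟨C * (2 * KL δ) + 1, by nlinarith, fun {lo hi y1 y2 c ζ ζ'} w h => ?_⟩
  have key := H (Ω := {z | (|z.im + y1| ≤ 4 * l - δ) ∧ |z.im + y2| ≤ 4 * l - δ})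
    (Ω1 := {z | (|z.im + y1| < 4 * l - δ / 2) ∧ |z.im + y2| < 4 * l - δ / 2})
    (A := 2 * KL δ) (F := fun z => LC y1 y2 (z - c)) (ζ := ζ) (ζ' := ζ') (by positivity) ?_ ?_ ?_ ?_ ?_
    h.der h.oc
  · exact key.re (a := C * (2 * KL δ) + 1) fun t => by linarith
  · refine IsOpen.inter ?_ ?_
    · exact isOpen_lt (continuous_abs.comp (Complex.continuous_im.add continuous_const))
        continuous_const
    · exact isOpen_lt (continuous_abs.comp (Complex.continuous_im.add continuous_const))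
        continuous_const
  · intro z hz w hw
    rw [Metric.mem_closedBall, dist_eq_norm] at hw
    have e2 : |w.im - z.im| ≤ δ / 4 := by
      rw [← Complex.sub_im]
      exact (Complex.abs_im_le_norm _).trans hw
    have q : ∀ y : ℝ, |z.im + y| ≤ 4 * l - δ → |w.im + y| < 4 * l - δ / 2 := by
      intro y hy
      have e : w.im + y = (w.im - z.im) + (z.im + y) := by ring
      rw [e]
      refine lt_of_le_of_lt (abs_add_le _ _) ?_
      linarith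
    exact ⟨q y1 hz.1, q y2 hz.2⟩
  · intro z hz
    have hD : Dm δ y1 y2 (z - c) := by
      have e : (z - c).im = z.im := by simp
      exact ⟨by rw [e]; exact hz.1.le, by rw [e]; exact hz.2.le⟩
    have d1 := (PBH.LC_deriv h0 hD).differentiableAt
    have d2 : DifferentiableAt ℂ (fun z : ℂ => z - c) z := differentiableAt_id.sub_const _
    exact (DifferentiableAt.comp (f := fun z : ℂ => z - c) z d1 d2).differentiableWithinAt
  · intro z hz
    have hD : Dm δ y1 y2 (z - c) := by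
      have e : (z - c).im = z.im := by simp
      exact ⟨by rw [e]; exact hz.1.le, by rw [e]; exact hz.2.le⟩
    exact PBH.LC_le h0 h04 hD
  · intro t
    have h1 := h.ge t
    have h2 := h.le t
    have := w.a1
    have := w.b1
    have := w.a2
    have := w.b2
    constructor <;> rw [abs_le] <;> constructor <;> linarith

/-- the sum of atoms on the paths `ζ a` -/
def HP {n : ℕ} (x : Bool → Fin n → Atm) (ζ : Bool → ℝ → ℂ) (a : Bool) (t : ℝ) : ℝ :=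
  ∑ i, (x a i).k * AP (x a i).y1 (x a i).y2 (x a i).c (ζ a) t

/-- its derivative -/
def HP' {n : ℕ} (x : Bool → Fin n → Atm) (ζ ζ' : Bool → ℝ → ℂ) (a : Bool) (t : ℝ) : ℝ :=
  ∑ i, (x a i).k * AP' (x a i).y1 (x a i).y2 (x a i).c (ζ a) (ζ' a) t

/-- **sums of atoms on paths are admissible** -/
theorem hok_path (n : ℕ) {K Kc δ : ℝ} (hK : 0 ≤ K) (hKc : 0 ≤ Kc) (h0 : 0 < δ) (h01 : δ ≤ 1) :
    ∃ B0 N0 A0 : ℝ, 0 ≤ B0 ∧ 0 ≤ N0 ∧ 0 ≤ A0 ∧ ∀ {lo hi : ℝ} {x : Bool → Fin n → Atm}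
    {ζ ζ' : Bool → ℝ → ℂ}, (∀ a i, |(x a i).k| ≤ Kc ∧ Win δ lo hi (x a i).y1 (x a i).y2) →
    (∀ a, PthA K lo hi (ζ a) (ζ' a)) → ∀ th b A : ℝ, 0 ≤ th → A0 ≤ A →
    HOk B0 N0 th b A (HP x ζ) (HP' x ζ ζ') := by
  obtain ⟨C, hC, H⟩ := AP_O4 hK h0 h01
  have h8 := PBH.l8
  have hpi := Real.pi_gt_three
  have h04 : δ ≤ 4 * l := by linarith
  have hL := (PBH.KL_pos h0 h04).le
  have hKAp : 0 ≤ KAp δ K := by
    unfold KAp
    positivity
  have hEAp : 0 ≤ EAp δ K := by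
    unfold EAp
    have : 0 ≤ ∫ t : ℝ, Real.exp (-4 * |t|) := integral_nonneg fun t => (Real.exp_pos _).le
    positivity
  refine ⟨n * (Kc * KAp δ K), n ^ 2 * (Kc ^ 2 * EAp δ K), n * (Kc * C), by positivity, by positivity,
    by positivity, fun {lo hi x ζ ζ'} hx hζ th b A hth hA => ?_⟩
  have D : ∀ a, Dc (n * (Kc * KAp δ K)) (n ^ 2 * (Kc ^ 2 * EAp δ K)) (HP x ζ a) (HP' x ζ ζ' a) :=
    fun a => Dc.sum fun i => (AP_dc h0 h04 (hx a i).2 (hζ a)).smul (hx a i).1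
  refine ⟨fun a => (D a).d, fun a => (D a).c, fun a => (D a).le, fun a T hT => ?_, fun a => ?_⟩
  · have := (D a).en T hT
    nlinarith [mul_nonneg hth hT]
  · have h1 : NUR2.Ext 4 b (∑ i : Fin n, Kc * C) (HP x ζ a) := by
      refine NUR2.Ext.sum Finset.univ fun i _ => ?_
      refine (NUR2.Ext.smul _ (NUR2.Ext.of_O (H (hx a i).2 (hζ a)))).mono ?_
      exact mul_le_mul_of_nonneg_right (hx a i).1 (by linarith)
    refine h1.mono ?_
    rw [Finset.sum_const, Finset.card_univ, Fintype.card_fin, nsmul_eq_mul]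
    exact hA

/-! ### legs and ends -/

private theorem pA_pt (ζ : ℂ) : NUO.pA (fun _ => ζ.im) ζ.re = l + I * ζ := by
  rw [PBH.PLX.pA_eq]
  conv_rhs => rw [← Complex.re_add_im ζ]
  linear_combination (-(ζ.im : ℂ)) * I_sq

/-- **the legs at a point** -/
theorem log_leg {z ζ : ℂ} {δ : ℝ} (h0 : 0 < δ) (h01 : δ ≤ 4 * l)
    (w : Dm δ z.re (z.re - 3 * l) (ζ - z.im)) : 0 < thZ z (l + I * ζ) ∧
    Real.log (thZ z (l + I * ζ)) = (LC z.re (z.re - 3 * l) (ζ - z.im)).re := by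
  have e2 := pA_pt ζ
  obtain ⟨s1, s2⟩ := PBH.PLX.sin_leg z (fun _ => ζ.im) ζ.re
  rw [e2] at s1 s2
  have hp : ∀ y : ℝ, PBH.PLX.pw y z.im (fun _ => ζ.im) ζ.re = (ζ - z.im) + y * I := by
    intro y
    unfold PBH.PLX.pw
    have := Complex.re_add_im ζ
    push_cast
    linear_combination this
  rw [hp] at s1 s2
  have n1 := PBH.norm_ge h0 h01 (w := (ζ - z.im) + (z.re : ℝ) * I) (by
    rw [PBH.im_add]; exact w.i1)
  have n2 := PBH.norm_ge h0 h01 (w := (ζ - z.im) + ((z.re - 3 * l : ℝ)) * I) (by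
    rw [PBH.im_add]; exact w.i2)
  have hc := PBH.c0_pos h0 h01
  have p1 : 0 < ‖Complex.cosh ((ζ - z.im) + (z.re : ℝ) * I)‖ :=
    lt_of_lt_of_le (mul_pos hc (Real.cosh_pos _)) n1
  have p2 : 0 < ‖Complex.cosh ((ζ - z.im) + ((z.re - 3 * l : ℝ)) * I)‖ :=
    lt_of_lt_of_le (mul_pos hc (Real.cosh_pos _)) n2
  have e : thZ z (l + I * ζ) = ‖Complex.cosh ((ζ - z.im) + (z.re : ℝ) * I)‖ /
      ‖Complex.cosh ((ζ - z.im) + ((z.re - 3 * l : ℝ)) * I)‖ := by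
    rw [← s1, ← s2]
    rfl
  rw [e]
  refine ⟨by positivity, ?_⟩
  rw [Real.log_div p1.ne' p2.ne']
  unfold LC
  rw [Complex.sub_re, Complex.log_re, Complex.log_re]

/-- **the ends at a point** -/
theorem log_end {ζ : ℂ} (h : |ζ.im| ≤ l / 4) : 0 < ThN (l + I * ζ) ∧
    Real.log (ThN (l + I * ζ)) = 1 / 2 * (LC (7 / 2 * l) (-(7 / 2 * l)) (ζ - (0 : ℝ))).re +
      1 / 2 * (LC (5 / 2 * l) (-(5 / 2 * l)) (ζ - (0 : ℝ))).re := by
  have hl := l_pos
  have e2 := pA_pt ζ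
  have h1 := PBH.PLX.ThN_pA (δ := l / 2) (by positivity) le_rfl (η := fun _ => ζ.im)
    (fun _ => by linarith) ζ.re
  rw [e2] at h1
  refine ⟨h1.1, h1.2.trans ?_⟩
  have hz : (((ζ.re - 0 : ℝ) : ℂ) + (ζ.im : ℂ) * I) = ζ - (0 : ℝ) := by
    have := Complex.re_add_im ζ
    push_cast
    linear_combination this
  unfold PBH.AT
  rw [hz]

/-- atoms of the legs and of the ends -/
def alg (κ : ℝ) (z : ℂ) (_a : Bool) : Fin 3 → Atm := ![⟨1, z.re, z.re - 3 * l, z.im⟩,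
  ⟨-(κ / 2), 7 / 2 * l, -(7 / 2 * l), 0⟩, ⟨-(κ / 2), 5 / 2 * l, -(5 / 2 * l), 0⟩]

section curves

variable [SeaC] [Fil]

/-- **the potential of the legs is a sum of atoms** -/
theorem Hlg_atoms {κ δ lo hi K : ℝ} (h0 : 0 < δ) (h01 : δ ≤ 4 * l) {z : ℂ} {η : ℝ → ℝ}
    {ζ' : Bool → ℝ → ℂ} (hz : Win δ lo hi z.re (z.re - 3 * l)) (h1 : -(l / 4) ≤ lo) (h2 : hi ≤ l / 4)
    (hp : ∀ a, PthA K lo hi (Cv.zt (Cv.gD (Fil.cv a η))) (ζ' a)) :
    Hlg κ z η = HP (alg κ z) fun a => Cv.zt (Cv.gD (Fil.cv a η)) := by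
  funext a t
  have p1 := (log_leg h0 h01 (dmA (c := z.im) h0 hz (hp a) t)).2
  have p2 := (log_end (ζ := Cv.zt (Cv.gD (Fil.cv a η)) t) (by
    have := (hp a).ge t
    have := (hp a).le t
    rw [abs_le]
    constructor <;> linarith)).2
  have e : ptC (dsp η) a t = l + I * Cv.zt (Cv.gD (Fil.cv a η)) t := ptC_dsp η a t
  unfold Hlg HP alg AP
  rw [e, p1, p2]
  simp only [Fin.sum_univ_succ, Matrix.cons_val_zero, Matrix.cons_val_succ, Fin.sum_univ_zero,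
    Matrix.cons_val_fin_one]
  ring

end curves

/-- **the displaced curves are paths with bounded derivatives** -/
theorem pthA_cur (B : SeaCB) : ∃ C : ℝ, 1 ≤ C ∧ ∀ [SeaC] [SeaCU B], ∀ {s ε M b : ℝ}
    {e η η1 : ℝ → ℝ}, 0 ≤ s → C * ε ≤ 1 → Cv.Cur s ε M b e η → (∀ t, HasDerivAt η (η1 t) t) →
    PthA C (-B.h) (7 / 100 * l) (Cv.zt (Cv.gD η)) (Cv.zd (Cv.gD1 η η1)) := by
  obtain ⟨C1, hC1, H1⟩ := Cv.cur_path B
  obtain ⟨C2, hC2, H2⟩ := Cv.gD_OC B
  obtain ⟨C3, hC3, H3⟩ := Cv.ga'_OC B 3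
  refine ⟨C1 + C2 + C3, by linarith, @fun _ hS s ε M b e η η1 hs hε hc h1 => ?_⟩
  have hε0 := hc.ε0
  have k1 : C1 * ε ≤ 1 := by nlinarith
  have k2 : C2 * ε ≤ 1 := by nlinarith
  obtain ⟨p1, -, -, p4⟩ := H1 hs k1 hc h1
  obtain ⟨-, o1⟩ := H2 hc h1
  refine ⟨p1.der, ?_, p1.im_ge, p1.im_le, p4⟩
  have a := H3.add o1
  refine (a.mono fun t => ?_).congr fun t => rfl
  have h3 := mul_le_mul_of_nonneg_left (hc.le t) (show 0 ≤ C2 by linarith)
  linarith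

variable [Fil]

/-- **the potential of the legs is admissible**, `-(9/10) l ≤ Re z ≤ (31/10) l`, any height -/
theorem hokLC (B : SeaCB) : ∃ B0 N0 : ℝ, 0 ≤ B0 ∧ 0 ≤ N0 ∧ ∀ e1 : ℝ, 0 < e1 → ∃ m0 : ℕ,
    ∀ [SeaC] [SeaCU B], ∀ m : ℕ, m0 ≤ m → ∀ (Cc : ℝ) (η η1 : ℝ → ℝ), CrvP e1 Cc m η η1 →
    ∀ (κ : ℝ) (z : ℂ), |κ| ≤ 2 → -(9 / 10 * l) ≤ z.re → z.re ≤ 31 / 10 * l →
    ∃ H' : Bool → ℝ → ℝ, ∀ th b : ℝ, 0 ≤ th →
      HSk B0 N0 th b (Real.log m ^ 3) (Hlg κ z η) H' := by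
  obtain ⟨C, hC, HC⟩ := pthA_cur B
  have hl := l_pos
  have hll : l = Real.pi / 8 := rfl
  have hpi := Real.pi_le_four
  have hh1 := B.h1
  have hh := B.h0
  obtain ⟨B0, N0, A0, hB0, hN0, hA0, H⟩ := hok_path 3 (K := C) (Kc := 1) (δ := l / 20)
    (by linarith) zero_le_one (by positivity) (by linarith)
  refine ⟨B0, N0, hB0, hN0, fun e1 he1 => ?_⟩
  obtain ⟨m0, hm0⟩ := @PBH.PLX.eventually_small NUSea.seaP e1 (1 / C) A0 he1 (by positivity)
  refine ⟨m0, @fun _ hS m hm Cc η η1 hη κ z hκ z1 z2 => ?_⟩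
  obtain ⟨a1, a2⟩ := hm0 m hm
  obtain ⟨ε, e, hcur, hε0, hε1, hε2⟩ := hη.cur
  have hCε : C * ε ≤ 1 := by
    have h1 : ε ≤ 1 / C := hε1.trans a1
    rw [le_div_iff₀ (by linarith)] at h1
    linarith
  have hp : ∀ a, PthA C (-B.h) (7 / 100 * l) (Cv.zt (Cv.gD (Fil.cv a η)))
      (Cv.zd (Cv.gD1 (Fil.cv a η) (Fil.cv a η1))) := fun a =>
    HC (Nat.cast_nonneg m) hCε (cur_cvC hcur a) (hasDerivAt_cvC hη.d a)
  have hw : Win (l / 20) (-B.h) (7 / 100 * l) z.re (z.re - 3 * l) :=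
    ⟨by linarith, by linarith, by linarith, by linarith⟩
  refine ⟨HP' (alg κ z) (fun a => Cv.zt (Cv.gD (Fil.cv a η)))
    fun a => Cv.zd (Cv.gD1 (Fil.cv a η) (Fil.cv a η1)), fun th b hth => ?_⟩
  rw [Hlg_atoms (κ := κ) (δ := l / 20) (by positivity) (by linarith) hw (by linarith) (by linarith) hp]
  refine (H (fun a i => ?_) hp th b _ hth a2).hsk
  obtain ⟨k1, k2⟩ := abs_le.1 hκ
  fin_cases i
  all_goals refine ⟨abs_le.2 ⟨?_, ?_⟩, ?_, ?_, ?_, ?_⟩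
  all_goals simp [alg]
  all_goals linarith

end PLT

end
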