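import Pool.Agent.PLT.ValLC
import Pool.Agent.PLT.HokL
import Pool.Agent.PLT.FamLC
import Pool.Agent.PLT.GOkC

/-!
# The family of the legs over a content: value and environment

* **`rows_vb`**: `∏ rwC a (x i) (l + I ζ) = exp (Re vb (sN m) a ζ)` for the rows `x` of the content of the sea;
  `R_obL`: the one body factor `obLC` at a point of the strip;
* `SeasL x z S ok`: every index carries the sea of its content; `linLC`: mean field value and linear terms;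
* **`valF_L`**: `ValF`; **`envF_L`**: `EnvFC` from the cutoff (`CutBC`) alone.
-/

set_option autoImplicit false
set_option linter.unusedSectionVars false
set_option linter.unusedVariables false

noncomputable section

open Complex MeasureTheory Finset
open PLX (Fil Ends)

namespace PLT

open NUMF (l l_pos)
open NUO (Tb)
open NUGC.PLX (OB pE qE ThN)
open PBU.PLX (T1L)
open PBX.PLX (rwC)
open PBL.PLX (vq)
open PotH.PLX (sN)
open Pool.Agent.PLX (rwq yq)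
open PLT.Le (SeaV CntV)

section point

variable [Fil]

private theorem pA_pt (ζ : ℂ) : NUO.pA (fun _ => ζ.im) ζ.re = l + I * ζ := by
  rw [PBH.PLX.pA_eq]
  conv_rhs => rw [← Complex.re_add_im ζ]
  linear_combination (-(ζ.im : ℂ)) * I_sq

/-- a row seen from a point -/
theorem row_vq (a : Bool) {x ζ : ℂ} (h : |ζ.im + x.re| < l) :
    rwC a x (l + I * ζ) = Real.exp (vq a (ζ + x * I)) := by
  have hI : (ζ + x * I).im = ζ.im + x.re := by simp
  have h1 := PBL.PLX.row0_pA a (η := fun _ => (ζ + x * I).im) (t := (ζ + x * I).re)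
    (by rw [hI]; exact h)
  rw [pA_pt] at h1
  have e1 : NUAct.zt (NUKer.iD fun _ => (ζ + x * I).im) (ζ + x * I).re = ζ + x * I := by
    unfold NUAct.zt NUKer.iD
    exact Complex.re_add_im _
  rw [e1] at h1
  rw [← h1]
  have e2 : (l : ℂ) + I * (ζ + x * I) - 0 = l + I * ζ - x := by
    linear_combination x * I_sq
  unfold PBX.PLX.rwC
  rw [e2]

variable [SeaC] [Ends]

/-- **the rows of the content are the field of its sea** -/
theorem rows_vb (ho : Ends.o = 0) (he : Ends.e = 0) {κ : Type} [Fintype κ] {w : κ → ℝ} {X : κ → ℂ}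
    (hw : SeaV w X) {m : ℕ} (hm : 1 ≤ m) {x : Fin m → ℂ} (hx : CntV w X x) (a : Bool) {ζ : ℂ}
    (hζ : ∀ i, |ζ.im + (x i).re| < l) :
    ∏ i, rwC a (x i) (l + I * ζ) = Real.exp (Cv.vb (sN m) a ζ).re := by
  have hs : ∀ a : Bool, sN m a = Fil.b a * m := by
    intro a
    unfold PotH.PLX.sN
    rw [Fil.cast_ne a hm, ho, he]
    push_cast
    cases a <;> simp
  rw [Finset.prod_congr rfl fun i _ => row_vq a (hζ i), ← Real.exp_sum]
  congr 1
  rw [hx.sum fun u => vq a (ζ + u * I)]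
  unfold Cv.vb PBL.PLX.vq
  rw [hw.vs ζ, hw.vx ζ, Complex.add_re, Complex.re_ofReal_mul, Complex.re_ofReal_mul,
    Complex.re_sum, Complex.re_sum, hs a, hs (!a), NUSea.PLX.vs_seaP, NUSea.PLX.vx_seaP,
    Finset.mul_sum, Finset.mul_sum, Finset.mul_sum, ← Finset.sum_add_distrib]
  refine Finset.sum_congr rfl fun k _ => ?_
  rw [Complex.re_ofReal_mul, Complex.re_ofReal_mul]
  ring

/-- **the one body factor of the legs at a point of the strip** -/
theorem R_obL (ho : Ends.o = 0) (he : Ends.e = 0) {κ : Type} [Fintype κ] {w : κ → ℝ} {X : κ → ℂ}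
    (hw : SeaV w X) {m : ℕ} (hm : 1 ≤ m) {x : Fin m → ℂ} (hx : CntV w X x) (T1 β : ℝ) {z : ℂ}
    (a : Bool) {ζ : ℂ} (hζ : ∀ i, |ζ.im + (x i).re| < l) (h4 : |ζ.im| < 1 / 4 * l)
    (hz : 0 < PBO.PLX.thZ z (l + I * ζ)) :
    (obLC T1 x β z).R a (l + I * ζ) = 2 * Real.cos NUP1.l * Real.exp ((Cv.vb (sN m) a ζ).re +
      (NUSp.DD pE qE [] a ζ).re + (Real.log (PBO.PLX.thZ z (l + I * ζ)) -
        1 * Real.log (ThN (l + I * ζ)))) := by
  have h1 := rows_vb ho he hw hm hx a hζ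
  have h2 := (log_end (ζ := ζ) (by linarith)).1
  rw [PLT.Le.DD0_th a h4]
  show 2 * Real.cos NUP1.l * (∏ i, rwC a (x i) (l + I * ζ)) * PBX.PLX.thZ z (l + I * ζ) = _
  have e1 : PBX.PLX.thZ z (l + I * ζ) = PBO.PLX.thZ z (l + I * ζ) := rfl
  rw [h1, e1, show (Cv.vb (sN m) a ζ).re + Real.log (ThN (l + I * ζ)) +
    (Real.log (PBO.PLX.thZ z (l + I * ζ)) - 1 * Real.log (ThN (l + I * ζ))) =
    (Cv.vb (sN m) a ζ).re + Real.log (PBO.PLX.thZ z (l + I * ζ)) by ring, Real.exp_add,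
    Real.exp_log hz]
  ring

end point

variable [Fil] [Ends] {ι : Type}

/-- **every index carries the sea of its content**, legs of moderate height -/
structure SeasL (x : (m : ℕ) → ι → Fin m → ℂ) (z : ι → ℂ) (S : ℕ → ι → SeaC)
    (ok : ℕ → ι → Prop) : Prop where
  sea : ∀ m i, ok m i → ∃ (κ : Type) (_ : Fintype κ) (w : κ → ℝ) (X : κ → ℂ),
    @SeaV κ _ (S m i) w X ∧ CntV w X (x m i)
  ht : ∀ m i, ok m i → |(z i).im| ≤ 3 / 20 * Real.log m + 2

/-- mean field value, energy and linear terms of the current -/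
def linLC (z : ι → ℂ) (S : ℕ → ι → SeaC) (e1 J : ℝ) (m : ℕ) (i : ι) : ℝ :=
  @Cv.MF (S m i) (sN m) + @linN (S m i) _ _ (@Cv.etaC (S m i) e1 J m m)
    (@Cv.etaC' (S m i) e1 J m m) m (@Hlg (S m i) _ 1 (z i) (@Cv.etaC (S m i) e1 J m m))

variable {x : (m : ℕ) → ι → Fin m → ℂ} {z : ι → ℂ} {S : ℕ → ι → SeaC} {ok : ℕ → ι → Prop}

/-- **the value of the mean field of the family of the legs** -/
theorem valF_L (he : Ends.e = 0) (ho : Ends.o = 0) {SB : SeaCB}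
    (hS : ∀ m i, ok m i → @SeaCU SB (S m i)) (hL : SeasL x z S ok)
    (hz : ∀ m i, ok m i → -(9 / 10 * l) ≤ (z i).re ∧ (z i).re ≤ 31 / 10 * l) (lo hi : ℝ) :
    ValF (famLC x z S ok lo hi) (linLC z S) := by
  intro e1 he1 he2 J hJ
  obtain ⟨C, hC, m0, H⟩ := PLT.Le.valLC SB ho he he1 he2 hJ
  refine ⟨C, hC, m0, fun m hm i hi => ?_⟩
  obtain ⟨κ, hκ, w, X, hw, hx⟩ := hL.sea m i hi
  obtain ⟨z1, z2⟩ := hz m i hi
  have h1 := @H (S m i) (hS m i hi) κ hκ w X hw m hm (x m i) hx (z i) z1 z2 (hL.ht m i hi)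
  show ‖Pool.Agent.PB.Pf (z i) (x m i) (yq (x m i))‖ * Real.exp (linLC z S e1 J m i) ≤
    C * Real.exp (-((1 - e1) * Tb (Real.log m))) * Real.exp (2 * |(z i).im|)
  rw [mul_assoc C, ← Real.exp_add]
  exact h1

/-- **the environment of the family of the legs** from its cutoff -/
theorem envF_L (he : Ends.e = 0) (ho : Ends.o = 0) {SB : SeaCB} {h1 h0 : ℝ}
    (hc : CntL SB x z S ok h1 h0) (hL : SeasL x z S ok)
    (hz : ∀ m i, ok m i → (z i).re ≤ 31 / 10 * l)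
    (hcut : ∀ ep : ℝ, 0 < ep → ep ≤ 1 / 100 → ∀ e1 : ℝ, 0 < e1 → e1 ≤ 1 / 100 → ∀ J : ℝ, 0 ≤ J →
      ∃ C0 : ℝ, 1 ≤ C0 ∧ ∃ m0 : ℕ, ∀ m ≥ m0, ∀ i, ok m i →
        @CutBC (S m i) _ ep e1 C0 m (@Cv.etaC (S m i) e1 J m m) (BLC x z ep m i)) :
    EnvFC (famLC x z S ok (-(h1 * NUP1.l)) (h0 * NUP1.l)) S (BLC x z) (linLC z S) := by
  obtain ⟨B0, N0, hB0, hN0, HK⟩ := hokLC SB
  have hl := l_pos
  have hlN : (NUP1.l : ℝ) = l := rfl
  obtain ⟨C1, hC1, H1⟩ := pthA_cur SB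
  refine ⟨B0, N0, hB0, hN0, fun ep hep hep1 e1 he1 he2 J hJ => ?_⟩
  obtain ⟨Cc, hCc, mc, hmc, HC⟩ := exists_crvC SB he1 he2 hJ
  obtain ⟨C0, hC0, mk, Hk⟩ := hcut ep hep hep1 e1 he1 he2 J hJ
  obtain ⟨mh, HK⟩ := HK e1 he1
  obtain ⟨ms, hms⟩ := @PBH.PLX.eventually_small NUSea.seaP e1 (1 / C1) 0 he1 (by positivity)
  refine ⟨Cc, C0, hCc, hC0, max (max mc mk) (max mh ms), fun m hm i hi th hth => ?_⟩
  have k1 : mc ≤ m := ((le_max_left _ _).trans (le_max_left _ _)).trans hm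
  have k2 : mk ≤ m := ((le_max_right _ _).trans (le_max_left _ _)).trans hm
  have k3 : mh ≤ m := ((le_max_left _ _).trans (le_max_right _ _)).trans hm
  have k4 : ms ≤ m := ((le_max_right _ _).trans (le_max_right _ _)).trans hm
  have hm1 : 1 ≤ m := hmc.trans k1
  obtain ⟨κ, hκ, w, X, hw, hx⟩ := hL.sea m i hi
  obtain ⟨cr, Bc, Bc', hcr, hφ⟩ := Hk m k2 i hi
  let _ : SeaC := S m i
  have _ : SeaCU SB := hc.sea m i hi
  obtain ⟨-, hcv⟩ := HC m k1
  have z1 := hc.z1 m i hi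
  have z2 := hz m i hi
  rw [hlN] at z1
  obtain ⟨H', hH⟩ := HK m k3 Cc _ _ hcv 1 (z i) (by norm_num) z1 z2
  refine ⟨cr, Bc, Bc', Hlg 1 (z i) (Cv.etaC e1 J m m), H', ?_, le_rfl⟩
  obtain ⟨a1, -⟩ := hms m k4
  obtain ⟨ε, e, hcur, hε0, hε1, hε2⟩ := hcv.cur
  have hCε : C1 * ε ≤ 1 := by
    have h1 : ε ≤ 1 / C1 := hε1.trans a1
    rw [le_div_iff₀ (by linarith)] at h1
    linarith
  have hp : ∀ a, PthA C1 (-SB.h) (7 / 100 * l) (Cv.zt (Cv.gD (Fil.cv a (Cv.etaC e1 J m m))))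
      (Cv.zd (Cv.gD1 (Fil.cv a (Cv.etaC e1 J m m)) (Fil.cv a (Cv.etaC' e1 J m m)))) := fun a =>
    H1 (Nat.cast_nonneg m) hCε (cur_cvC hcur a) (hasDerivAt_cvC hcv.d a)
  have hB := SB.h1
  refine { crv := hcv, cut := hcr, hok := hH th _ hth, nn := obLC_nn _ _ _ _, dom := fun a t => ?_ }
  obtain ⟨ζ, hζ⟩ : ∃ ζ, ζ = Cv.zt (Cv.gD (Fil.cv a (Cv.etaC e1 J m m))) t := ⟨_, rfl⟩
  have g1 := (hp a).ge t
  have g2 := (hp a).le t
  rw [← hζ] at g1 g2
  have hpt : ptC (dsp (Cv.etaC e1 J m m)) a t = l + I * ζ := by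
    rw [hζ]
    exact ptC_dspF _ a t
  have hφ' := hφ a t
  rw [hpt] at hφ' ⊢
  have hwn : Win (l / 20) (-SB.h) (7 / 100 * l) (z i).re ((z i).re - 3 * l) :=
    ⟨by linarith, by linarith, by linarith, by linarith⟩
  have hleg := (log_leg (z := z i) (ζ := ζ) (δ := l / 20) (by positivity) (by linarith) (by
    have e : (ζ - ((z i).im : ℂ)).im = ζ.im := by simp
    have := hwn.a1
    have := hwn.b1
    have := hwn.a2
    have := hwn.b2
    constructor <;> rw [e, abs_le] <;> constructor <;> linarith)).1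
  have hrow : ∀ k, |ζ.im + (x m i k).re| < l := fun k => by
    have := abs_le.1 (hc.row m i hi k)
    rw [hlN] at this
    rw [abs_lt]
    constructor <;> linarith
  have hR := R_obL ho he hw hm1 hx (T1L m) (4 / 3 * (1 - ep)) a hrow
    (by rw [abs_lt]; constructor <;> linarith) hleg
  have hH1 : Hlg 1 (z i) (Cv.etaC e1 J m m) a t = Real.log (PBO.PLX.thZ (z i) (l + I * ζ)) -
      1 * Real.log (ThN (l + I * ζ)) := by
    unfold Hlg
    rw [hpt]
  have eg : (List.ofFn fun i => (gdN i).G) = [] := List.ofFn_zero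
  show (obLC (T1L m) (x m i) (4 / 3 * (1 - ep)) (z i)).R a (l + I * ζ) *
    ‖(obLC (T1L m) (x m i) (4 / 3 * (1 - ep)) (z i)).φ a (l + I * ζ)‖ ≤ _
  rw [hR, eg, ← hζ, hH1, mul_assoc]
  refine mul_le_mul_of_nonneg_left ?_ PBT.PLX.two_cos.1
  exact mul_le_mul_of_nonneg_left hφ' (Real.exp_pos _).le

end PLT

end
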