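import Pool.Agent.PLT.ValC0
import Pool.Agent.PLT.MfX

/-!
# The sea of a content, from the one body form

* `CurX.win`: wider windows; **`SeaV.of_ox`**: `SeaOX` and the fields give `SeaV`.
-/

set_option autoImplicit false

noncomputable section

open MeasureTheory Set Filter Topology Complex

namespace PLT

open NUMF (l l_pos)

variable {ι : Type*} [Fintype ι] {w : ι → ℝ} {x : ι → ℂ}

/-- wider windows of the curve -/
theorem CurX.win {lo hi lo' hi' : ℝ} {η η' ρ : ℝ → ℝ} (h : CurX w x lo hi η η' ρ) (h1 : lo' ≤ lo)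
    (h2 : hi ≤ hi') (x1 : ∀ i, -l < lo' + (x i).re) (x2 : ∀ i, hi' + (x i).re < l) :
    CurX w x lo' hi' η η' ρ where
  prf := { h.prf with
    ge := fun t => h1.trans (h.prf.ge t)
    le := fun t => (h.prf.le t).trans h2 }
  x1 := x1
  x2 := x2
  real := h.real

/-- **the sea of a content** -/
theorem Le.SeaV.of_ox [SeaC] {de s0 lo hi : ℝ} (h : SeaOX de s0 lo hi w x) (h1 : -(1 / 1000) ≤ lo)
    (h2 : hi ≤ 3 / 50) (h3 : lo < 0) (h4 : s0 ≤ 1) (h5 : 0 ≤ de)
    (vs : ∀ z, Cv.vs z = ∑ i, (w i : ℂ) * NUAct.vs (z + x i * I))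
    (vx : ∀ z, Cv.vx z = ∑ i, (w i : ℂ) * NUAct.vx (z + x i * I)) : Le.SeaV w x := by
  have hl := l_pos
  have a1 : -(-lo * l) ≤ lo * l := by linarith
  have a2 : hi * l ≤ 3 / 50 * l := mul_le_mul_of_nonneg_right h2 hl.le
  have hup : ∀ i, (x i).re ≤ l / 2 := fun i => by
    have b1 := h.up i
    have b2 : 0 ≤ de * l := mul_nonneg h5 hl.le
    linarith
  refine ⟨⟨-lo, by linarith, by linarith, h.cur.win a1 a2 (fun i => ?_) (fun i => ?_)⟩, h.nn, hup,
    fun i => (h.im i).trans h4, h.mass, vs, vx⟩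
  · have := h.cur.x1 i
    linarith
  · have := hup i
    linarith

end PLT

end
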