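import Pool.Agent.PLT.CutRC
import Pool.Agent.PLT.SeaVO
import Pool.Agent.PLT.EnvLC

/-!
# The cutoff of the family of the legs over a content

* **`scal_of`**: `t η'(t) ≥ -c` gives `η ((1 - ep) t) ≤ η t + (100 / 99) c ep`;
* `SeaLX SB de s0 lo hi x S ok`: every index carries the sea of its content (places in a window, heights `≤ s0`,
  slowly varying curve);
* **`cutL`**: the cutoff (`CutBC`) of the one body data of the family; `seasL_of`: `SeasL`.
-/

set_option autoImplicit false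
set_option linter.unusedSectionVars false
set_option linter.unusedVariables false

noncomputable section

open Complex MeasureTheory Finset
open PLX (Fil Ends)

namespace PLT

open NUMF (l l_pos)
open NUGC.PLX (OB)
open Pool.Agent.PLX (rwq yq)
open PLT.Le (SeaV CntV)

/-- **scaling of a slowly varying curve** -/
theorem scal_of {η η' : ℝ → ℝ} {c : ℝ} (hc : 0 ≤ c) (hd : ∀ t, HasDerivAt η (η' t) t)
    (h : ∀ t, -c ≤ t * η' t) {ep : ℝ} (h0 : 0 < ep) (h1 : ep ≤ 1 / 100) (t : ℝ) :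
    η ((1 - ep) * t) ≤ η t + 100 / 99 * c * ep := by
  have hder : ∀ s : ℝ, 0 < s → HasDerivAt (fun s => η (s * t) + c * Real.log s)
      (η' (s * t) * t + c * s⁻¹) s := by
    intro s hs
    have e1 : HasDerivAt (fun s : ℝ => s * t) t s := by
      simpa using (hasDerivAt_id s).mul_const t
    exact ((hd (s * t)).comp s e1).add ((Real.hasDerivAt_log hs.ne').const_mul c)
  have hmono : MonotoneOn (fun s => η (s * t) + c * Real.log s) (Set.Icc (1 - ep) 1) := by
    refine monotoneOn_of_deriv_nonneg (convex_Icc _ _) ?_ ?_ ?_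
    · intro s hs
      have h2 : 0 < s := lt_of_lt_of_le (by linarith) hs.1
      exact (hder s h2).continuousAt.continuousWithinAt
    · intro s hs
      rw [interior_Icc] at hs
      have h2 : 0 < s := lt_trans (by linarith) hs.1
      exact (hder s h2).differentiableAt.differentiableWithinAt
    · intro s hs
      rw [interior_Icc] at hs
      have h2 : 0 < s := lt_trans (by linarith) hs.1
      rw [(hder s h2).deriv]
      have h3 := h (s * t)
      have h4 : η' (s * t) * t + c * s⁻¹ = (s * t * η' (s * t) + c) * s⁻¹ := by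
        field_simp
      rw [h4]
      exact mul_nonneg (by linarith) (inv_pos.2 h2).le
  have h2 := hmono (Set.left_mem_Icc.2 (by linarith)) (Set.right_mem_Icc.2 (by linarith))
    (by linarith : 1 - ep ≤ 1)
  simp only [Real.log_one, mul_zero, add_zero, one_mul] at h2
  have h3 := Real.one_sub_inv_le_log_of_pos (show 0 < 1 - ep by linarith)
  have h4 : (1 - ep)⁻¹ ≤ 1 + 100 / 99 * ep := by
    rw [inv_le_iff_one_le_mul₀ (by linarith)]
    nlinarith
  have h5 : -(100 / 99 * ep) ≤ Real.log (1 - ep) := by linarith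
  have h6 := mul_le_mul_of_nonneg_left h5 hc
  linarith

variable [Fil] [Ends]

/-- the rows of a species of a content -/
theorem sum_rwqL {κ : Type} [Fintype κ] {w : κ → ℝ} {X : κ → ℂ} {m : ℕ} {x : Fin m → ℂ}
    (hx : CntV w X x) (a : Bool) (f : ℂ → ℝ) :
    ((List.ofFn (rwq x a)).map f).sum = Fil.b a * m * ∑ k, w k * f (X k) := by
  rw [List.map_ofFn, List.sum_ofFn]
  have h := Pool.Agent.PLX.sum_rwq_real f x a
  have e : ∑ i, (f ∘ rwq x a) i = ∑ j, f (rwq x a j) := rfl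
  rw [e, h, hx.sum f]
  ring

/-- **every index carries the sea of its content**, in the form of the one body bounds: places in
`[-(1 - de) l, (1 / 2 - de) l]`, heights `≤ s0`, curve in `[lo l, hi l]`, slowly varying -/
structure SeaLX {ι : Type} (SB : SeaCB) (de s0 lo hi : ℝ) (x : (m : ℕ) → ι → Fin m → ℂ)
    (S : ℕ → ι → SeaC) (ok : ℕ → ι → Prop) : Prop where
  sea : ∀ m i, ok m i → @SeaCU SB (S m i)
  cnt : ∀ m i, ok m i → ∃ (κ : Type) (_ : Fintype κ) (w : κ → ℝ) (X : κ → ℂ),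
    @SeaOX κ _ (S m i) de s0 lo hi w X ∧ CntV w X (x m i) ∧
    (∀ z, @Cv.vs (S m i) z = ∑ k, (w k : ℂ) * NUAct.vs (z + X k * I)) ∧
    ∀ z, @Cv.vx (S m i) z = ∑ k, (w k : ℂ) * NUAct.vx (z + X k * I)
  scal : ∀ m i, ok m i → ∀ t, -(27 / 200 * l) ≤ t * deriv (@Cv.eta (S m i)) t

variable {ι : Type} {x : (m : ℕ) → ι → Fin m → ℂ} {z : ι → ℂ} {S : ℕ → ι → SeaC}
  {ok : ℕ → ι → Prop} {SB : SeaCB} {de s0 lo hi : ℝ}

/-- the seas of the value and of the environment -/
theorem SeaLX.seas (h : SeaLX SB de s0 lo hi x S ok) (h1 : -(1 / 1000) ≤ lo) (h2 : hi ≤ 3 / 50)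
    (h3 : lo < 0) (h4 : s0 ≤ 1) (h5 : 0 ≤ de)
    (ht : ∀ m i, ok m i → |(z i).im| ≤ 3 / 20 * Real.log m + 2) : SeasL x z S ok where
  sea m i hi' := by
    obtain ⟨κ, hκ, w, X, k1, k2, k3, k4⟩ := h.cnt m i hi'
    exact ⟨κ, hκ, w, X, @Le.SeaV.of_ox κ hκ w X (S m i) de s0 lo hi k1 h1 h2 h3 h4 h5 k3 k4, k2⟩
  ht := ht

/-- **the cutoff of the one body data of the family** -/
theorem cutL (he : Ends.e = 0) (ho : Ends.o = 0) (h : SeaLX SB de s0 lo hi x S ok)
    (hde : 0 < de) (hde1 : de ≤ 1) (hs0 : 0 ≤ s0) (hs1 : 10000000 * s0 ≤ de ^ 2)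
    (h1 : -(1 / 16) ≤ lo) (h2 : -(de / 2) ≤ lo) (h3 : hi ≤ 1 / 16) :
    ∀ ep : ℝ, 0 < ep → ep ≤ 1 / 100 → ∀ e1 : ℝ, 0 < e1 → e1 ≤ 1 / 100 → ∀ J : ℝ, 0 ≤ J →
      ∃ C0 : ℝ, 1 ≤ C0 ∧ ∃ m0 : ℕ, ∀ m ≥ m0, ∀ i, ok m i →
        @CutBC (S m i) _ ep e1 C0 m (@Cv.etaC (S m i) e1 J m m) (BLC x z ep m i) := by
  intro ep hep hep1 e1 he1 he2 J hJ
  have hl := l_pos
  have hlN : (NUP1.l : ℝ) = l := rfl
  have hs2 : s0 ≤ 1 := by nlinarith
  obtain ⟨C0, hC0, m0, H⟩ := cutBC_of SB hep hep1 he1 he2 hJ 2 (K0 := 0) le_rfl hde hde1 hs0 hs1 hs2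
  refine ⟨C0, hC0, m0, fun m hm i hi' => ?_⟩
  obtain ⟨κ, hκ, w, X, k1, k2, -, -⟩ := h.cnt m i hi'
  let _ : SeaC := S m i
  have hu : SeaCU SB := h.sea m i hi'
  have hlen : ∀ a, (List.ofFn (rwq (x m i) a)).length = Fil.ne a m := by
    intro a
    rw [List.length_ofFn, Pool.Agent.PLX.cond_eq]
    unfold Fil.ne
    rw [he, ho, Nat.sub_zero, Nat.add_zero]
    cases a <;> rfl
  have hmem : ∀ a, ∀ y ∈ List.ofFn (rwq (x m i) a), ∃ k, y = X k := by
    intro a y hy
    obtain ⟨j, rfl⟩ := (List.mem_ofFn' _ _).1 hy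
    cases a
    · exact k2.mem _
    · exact k2.mem _
  have hpl : ∀ a, ∀ y ∈ List.ofFn (rwq (x m i) a), -((1 - de) * l) ≤ y.re ∧ y.re ≤ l / 2 ∧
      |y.im| ≤ s0 := by
    intro a y hy
    obtain ⟨k, rfl⟩ := hmem a y hy
    have e1 := k1.up k
    exact ⟨k1.lo k, by nlinarith, k1.im k⟩
  have heta : ∀ t, lo * l ≤ Cv.eta t ∧ Cv.eta t ≤ hi * l := fun t =>
    ⟨k1.cur.prf.ge t, k1.cur.prf.le t⟩
  refine H m hm (BLC x z ep m i) (fun a => List.ofFn (rwq (x m i) a))
    (fun a => List.ofFn (rwq (x m i) a) ++ [I, -I]) (fun _ => [I, -I]) (fun a => rfl)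
    (fun a => ⟨List.Perm.refl _, hpl a, le_rfl, ?_, ?_, ?_⟩) (fun a => ⟨?_, ?_, ?_⟩) ?_ ?_
  · intro y hy
    rw [List.mem_cons, List.mem_singleton] at hy
    rcases hy with rfl | rfl
    · rw [Complex.I_re, Complex.I_im, abs_one, hlN]
      exact ⟨by nlinarith, by positivity, le_rfl⟩
    · rw [Complex.neg_re, Complex.neg_im, Complex.I_re, Complex.I_im, abs_neg, abs_one, neg_zero, hlN]
      exact ⟨by nlinarith, by positivity, le_rfl⟩
  · rw [hlen]
    omega
  · rw [hlen]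
    omega
  · intro t
    obtain ⟨a1, a2⟩ := heta t
    rw [abs_le, hlN]
    constructor <;> nlinarith
  · intro t
    have h5 := scal_of (c := 27 / 200 * l) (by positivity) (fun t => Cv.hasDerivAt_eta t)
      (fun t => h.scal m i hi' t) hep hep1 t
    refine h5.trans ?_
    have : 0 < ep * l := by positivity
    rw [hlN]
    linarith
  · intro t
    rw [zero_mul, neg_zero]
    have e : ((List.ofFn (rwq (x m i) a)).map fun x => Ag (Cv.eta t + x.re) (t - x.im)).sum = 0 := by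
      rw [sum_rwqL k2 a fun x => Ag (Cv.eta t + x.re) (t - x.im), k1.lev t, mul_zero]
    rw [e]
  · intro a t y hy
    obtain ⟨k, rfl⟩ := hmem a y hy
    have := (heta t).1
    have := k1.cur.x1 k
    linarith
  · intro t
    have := (heta t).1
    nlinarith

end PLT

end
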