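import Pool.Agent.PLT.HokL
import Pool.Agent.PHK.SelG

/-!
# The linear term of the neutral factor of a letter over a sea on a static curve

As `PHK/LinA`, `PHK/SelG` (part `cur_at6`) for every sea of a class `SeaCU B`; constants before the sea.

* **`ptA_pt`**, `dv6_pt`, **`dvK6_pt`**: the neutral factor of a letter at `l + I ζ` is the exponential of the
  atoms `at6`; **`HP_at6`**, `HP_atK6`: on any paths; `win_at6`, `win_atK6`: their windows in the strip;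
* `CrvP.hdc_le`: the current of an admissible curve has slope at most `1`;
* **`int_neuC`**: a neutral potential on the displaced curve against the static curve;
* **`int_atC`**: `∑ a, ∫ sN m a P HP = ∑ a, sN m a ∫ P HS - 2 totA h(τ) + O(1)`;
* `mNC`: sea exponent of the neutral factor; **`cur_atC`**, **`cur_atK`** (two letters): on the curve of `etaC`
  at most `mNC + O(1)`.
-/

set_option autoImplicit false
set_option linter.unusedSectionVars false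
set_option linter.unusedVariables false

noncomputable section

open Complex MeasureTheory Set Filter Topology
open PLX (Fil Ends)

namespace PLT

open NUMF (l l_pos)
open NUKer (iD)
open NUO (Tb pA)
open NUSp (wd Asy)
open NUGC (aC aC_pos)
open NUGC.PLX (hC hC_nonneg htL)
open NURow (HT)
open PHK
open PBR.PLX (Ch6)
open PBH (LC)
open PBH.PLX (HS Atm)
open PotH.PLX (sN sN_nonneg sN_true sN_div sN_le)
open Cv (zt gD ga hd)

/-! ### the factor of a letter at a point -/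

/-- **the potential of a letter at a point is the sum of the atoms** -/
theorem ptA_pt (t : HT) (u : Ch6) (σ : Bool) (τ : ℝ) (a : Bool) (ζ : ℂ) :
    (ptA t u σ τ a ζ).re = ∑ i, (at6 t u σ τ a i).k *
      (LC (at6 t u σ τ a i).y1 (at6 t u σ τ a i).y2 (ζ - ((at6 t u σ τ a i).c : ℝ))).re := by
  have h := ptA_HS t u σ τ a (fun _ _ => ζ.im) ζ.re
  have e : NUAct.zt (iD fun _ => ζ.im) ζ.re = ζ := by
    unfold NUAct.zt NUKer.iD
    apply Complex.ext <;> simp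
  rw [e] at h
  rw [h]
  unfold PBH.PLX.HS PBH.AT
  refine Finset.sum_congr rfl fun i _ => ?_
  congr 3
  apply Complex.ext <;> simp

/-- the factor at a point -/
theorem dv6_pt (t : HT) (u : Ch6) (σ : Bool) (τ : ℝ) (a : Bool) (ζ : ℂ) :
    dv6 t u σ τ a (l + I * ζ) = Real.exp (ptA t u σ τ a ζ).re := by
  unfold dv6 ptA
  rw [Complex.sub_re, lw_wd, lw_wd]
  rfl

/-- **two letters at a point** -/
theorem dvK6_pt (t t' : HT) (u : Ch6 × Ch6) (y : ℝ × ℝ) (a : Bool) (ζ : ℂ) :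
    dvK6 t t' u y a (l + I * ζ) = Real.exp (∑ i, (atK6 t t' u y a i).k *
      (LC (atK6 t t' u y a i).y1 (atK6 t t' u y a i).y2 (ζ - ((atK6 t t' u y a i).c : ℝ))).re) := by
  unfold dvK6
  rw [dv6_pt, dv6_pt, ptA_pt, ptA_pt, ← Real.exp_add]
  congr 1
  unfold atK6
  rw [Fin.sum_univ_add]
  simp only [Fin.append_left, Fin.append_right]

/-- **the atoms of a letter on paths** -/
theorem HP_at6 (t : HT) (u : Ch6) (σ : Bool) (τ : ℝ) (Z : Bool → ℝ → ℂ) (a : Bool) (x : ℝ) :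
    HP (at6 t u σ τ) Z a x = (ptA t u σ τ a (Z a x)).re := by
  rw [ptA_pt]
  rfl

/-- two letters on paths -/
theorem HP_atK6 (t t' : HT) (u : Ch6 × Ch6) (y : ℝ × ℝ) (Z : Bool → ℝ → ℂ) (a : Bool) (x : ℝ) :
    HP (atK6 t t' u y) Z a x = HP (at6 t u.1 true y.1) Z a x + HP (at6 t' u.2 false y.2) Z a x := by
  unfold HP atK6
  rw [Fin.sum_univ_add]
  simp only [Fin.append_left, Fin.append_right]

/-- the atoms are seen from the strip of a sea -/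
private theorem win_of (B : SeaCB) {y1 y2 : ℝ} (h1 : |y1| ≤ 4 * l - l / 4) (h2 : |y2| ≤ 4 * l - l / 4) :
    Win (l / 8) (-B.h) (7 / 100 * l) y1 y2 := by
  have hl := l_pos
  have hh := B.h0
  have hh1 := B.h1
  obtain ⟨a1, a2⟩ := abs_le.1 h1
  obtain ⟨b1, b2⟩ := abs_le.1 h2
  constructor <;> linarith

/-- **the windows of the atoms of a letter** -/
theorem win_at6 (B : SeaCB) (t : HT) (u : Ch6) (σ : Bool) (τ : ℝ) (a : Bool) (i : Fin 16) :
    |(at6 t u σ τ a i).k| ≤ 3 ∧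
      Win (l / 8) (-B.h) (7 / 100 * l) (at6 t u σ τ a i).y1 (at6 t u σ τ a i).y2 := by
  obtain ⟨h1, h2, h3⟩ := at6_ok t u σ τ a i
  exact ⟨h1, win_of B h2 h3⟩

/-- **the windows of the atoms of two letters** -/
theorem win_atK6 (B : SeaCB) (t t' : HT) (u : Ch6 × Ch6) (y : ℝ × ℝ) (a : Bool) (i : Fin (16 + 16)) :
    |(atK6 t t' u y a i).k| ≤ 3 ∧
      Win (l / 8) (-B.h) (7 / 100 * l) (atK6 t t' u y a i).y1 (atK6 t t' u y a i).y2 := by
  obtain ⟨h1, h2, h3⟩ := atK6_ok t t' u y a i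
  exact ⟨h1, win_of B h2 h3⟩

/-! ### slopes -/

/-- **the current of an admissible curve has slope at most `1`** -/
theorem CrvP.hdc_le (B : SeaCB) [SeaC] [SeaCU B] {e1 Cc : ℝ} {m : ℕ} {η η1 : ℝ → ℝ}
    (h : CrvP e1 Cc m η η1) (t : ℝ) : |hd m η η1 t| ≤ 1 := by
  have h1 := Cv.hasDerivAt_hd B (m : ℝ) h.d t
  have hL : LipschitzWith 1 fun t => (m : ℝ) * Cv.P t * η t :=
    LipschitzWith.of_dist_le_mul fun x y => by
      rw [Real.dist_eq, Real.dist_eq, NNReal.coe_one, one_mul]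
      exact h.lip x y
  have h2 := norm_deriv_le_of_lipschitz hL (x₀ := t)
  rw [h1.deriv, Real.norm_eq_abs, NNReal.coe_one] at h2
  exact h2

/-- slope of the currents of the species -/
private theorem hd_cvA (B : SeaCB) [SeaC] [SeaCU B] [Fil] (η η1 : ℝ → ℝ) {m : ℕ} (hm : 1 ≤ m) (s : ℝ)
    (a : Bool) (t : ℝ) :
    hd s (Fil.cv a η) (Fil.cv a η1) t = s / (m * Fil.b a) * hd m η η1 t := by
  have hm0 : (0 : ℝ) < m := by exact_mod_cast hm
  have hb := Fil.b_pos a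
  rw [Cv.hd_eq B, Cv.hd_eq B, Fil.cv_apply, Fil.cv_apply]
  field_simp

variable [Fil] [Ends]

/-! ### neutral potentials -/

/-- **a neutral potential on the displaced curve of a species against the static curve** -/
theorem int_neuC (B : SeaCB) {e1 Cc κ0 : ℝ} (he : 0 < e1) (he1 : e1 ≤ 1) (hCc : 0 ≤ Cc) (hκ0 : 0 ≤ κ0) :
    ∃ C : ℝ, 0 ≤ C ∧ ∃ m0 : ℕ, 1 ≤ m0 ∧ ∀ [SeaC] [SeaCU B], ∀ m : ℕ, m0 ≤ m → ∀ η η1 : ℝ → ℝ,
      CrvP e1 Cc m η η1 → ∀ (a : Bool) (κ φ τ : ℝ) (Ψ : ℂ → ℂ), |φ| ≤ κ0 → κ ≤ κ0 →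
      Asy (9 / 100 * l) κ 0 0 φ τ Ψ → (∀ z : ℂ, |z.im| < 9 / 100 * l → DifferentiableAt ℂ Ψ z) →
      Integrable (fun t => sN m a * Cv.P t * (Ψ (zt (gD (Fil.cv a η)) t)).re) ∧
      Integrable (fun t : ℝ => sN m a * Cv.P t * (Ψ (ga t)).re) ∧
      |(∫ t, sN m a * Cv.P t * (Ψ (zt (gD (Fil.cv a η)) t)).re) -
          (∫ t : ℝ, sN m a * Cv.P t * (Ψ (ga t)).re) + 2 * φ * (m * Cv.P τ * η τ)| ≤ C := by
  obtain ⟨C1, hC1, H1⟩ := Cv.exists_linL B
  obtain ⟨CP, hCP, HP⟩ := Cv.P_le B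
  have hq : (1 : ℝ) ≤ ((Fil.qo : ℕ) : ℝ) := Fil.one_le_qor
  have hq0 : (0 : ℝ) ≤ ((Fil.qo : ℕ) : ℝ) := by linarith
  -- large numbers
  have t1 : Tendsto (fun m : ℕ => C1 * (m : ℝ) ^ (-(e1 / 2))) atTop (𝓝 0) := by
    have h2 := (tendsto_rpow_neg_atTop (y := e1 / 2) (by linarith)).comp
      (tendsto_natCast_atTop_atTop (R := ℝ))
    have h3 := h2.const_mul C1
    rwa [mul_zero] at h3
  obtain ⟨mt, hmt⟩ := Filter.eventually_atTop.1 (t1.eventually_le_const one_pos)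
  obtain ⟨Q, hQ⟩ : ∃ Q : ℝ, Q = ((Fil.qo : ℕ) : ℝ) * (1 + Cc * (16 / e1 ^ 2)) + 1 := ⟨_, rfl⟩
  obtain ⟨A, hA⟩ : ∃ A : ℝ, A = 1 + ((Fil.qo : ℕ) : ℝ) := ⟨_, rfl⟩
  have hA0 : 0 ≤ A := by rw [hA]; positivity
  have hQ0 : 0 ≤ Q := by
    rw [hQ]
    have : 0 ≤ Cc * (16 / e1 ^ 2) := by positivity
    positivity
  refine ⟨C1 * (2 * κ0) * (A + Q) + 2 * κ0 * (((Fil.qo : ℕ) : ℝ) * CP), by positivity, max mt 1,
    le_max_right _ _, ?_⟩
  intro S hS m hm η η1 hcv a κ φ τ Ψ hφ hκ hΨ hdiff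
  have hm1 : 1 ≤ m := (le_max_right _ _).trans hm
  have hm0 : (0 : ℝ) < m := by exact_mod_cast hm1
  obtain ⟨ε, e, hcur, hcom, hε0, hε1, hε2⟩ := hcv.spc B hm1
  have hsm := hmt m ((le_max_left _ _).trans hm)
  have hε : C1 * ε ≤ 1 := (mul_le_mul_of_nonneg_left hε1 (by linarith)).trans hsm
  obtain ⟨hb, herr⟩ := PBV.PLX.crv_err he he1 hCc hm1 hε0 hε1
  obtain ⟨b, hbd⟩ : ∃ b, b = (1 - e1) * Tb (Real.log m) := ⟨_, rfl⟩
  rw [← hbd] at hb herr hcur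
  have hE : b * (((Fil.qo : ℕ) : ℝ) * (Cc * Real.log m) * ε) ≤ Q := by
    have h2 : b * (Cc * Real.log m * ε) ≤ Cc * (16 / e1 ^ 2) := by linarith
    have h3 := mul_le_mul_of_nonneg_left h2 hq0
    have h4 : 0 ≤ Cc * (16 / e1 ^ 2) := by positivity
    rw [hQ]
    calc b * (((Fil.qo : ℕ) : ℝ) * (Cc * Real.log m) * ε) =
        ((Fil.qo : ℕ) : ℝ) * (b * (Cc * Real.log m * ε)) := by ring
      _ ≤ ((Fil.qo : ℕ) : ℝ) * (Cc * (16 / e1 ^ 2)) := h3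
      _ ≤ _ := by nlinarith
  -- slopes
  have hsl : ∀ t, |hd (sN m a) (Fil.cv a η) (Fil.cv a η1) t| ≤ A := by
    intro t
    have hba := Fil.b_pos a
    rw [hd_cvA B η η1 hm1, abs_mul]
    have h2 := sN_div hm1 a
    rw [sN_true hm1] at h2
    have h3 : |sN m a / (m * Fil.b a)| ≤ A := by
      have h4 : sN m a / (m * Fil.b a) = (sN m a / Fil.b a) / m := by field_simp
      rw [h4, abs_div, abs_of_pos hm0, div_le_iff₀ hm0, hA]
      have h5 : |sN m a / Fil.b a| ≤ m + ((Fil.qo : ℕ) : ℝ) := by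
        have h6 := abs_le.1 h2
        rw [abs_le]
        have h7 : 0 ≤ sN m a / Fil.b a := div_nonneg (sN_nonneg m a) hba.le
        constructor <;> linarith
      have h8 : (1 : ℝ) ≤ m := by exact_mod_cast hm1
      nlinarith
    calc _ ≤ A * 1 := mul_le_mul h3 (hcv.hdc_le B t) (abs_nonneg _) hA0
      _ = A := mul_one _
  obtain ⟨i1, i2, a1⟩ := H1 (sN_nonneg m a) hε (hcur a) (hcv.dcv a) hb (κ := κ) (a := 0) (φ := φ)
    (τ := τ) (A := A) (Ψ := Ψ) hΨ hdiff hsl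
  refine ⟨i1, i2, ?_⟩
  -- the remainder
  obtain ⟨E, hEd⟩ : ∃ E, E = b * (((Fil.qo : ℕ) : ℝ) * (Cc * Real.log m) * ε) := ⟨_, rfl⟩
  rw [← hEd] at hE
  have hM0 := (hcur a).M0 B (sN_nonneg m a)
  have hE0 : 0 ≤ E := by
    rw [hEd]
    exact mul_nonneg hb (mul_nonneg hM0 hε0)
  have hk2 : |φ| + κ ≤ 2 * κ0 := by linarith
  have h9 : C1 * ((|φ| + κ) * A) + C1 * (|(0 : ℝ)| + |φ| + κ) * b *
      ((((Fil.qo : ℕ) : ℝ) * (Cc * Real.log m)) * ε) ≤ C1 * (2 * κ0) * (A + Q) := by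
    have e9 : C1 * ((|φ| + κ) * A) + C1 * (|(0 : ℝ)| + |φ| + κ) * b *
        ((((Fil.qo : ℕ) : ℝ) * (Cc * Real.log m)) * ε) = C1 * ((|φ| + κ) * (A + E)) := by
      rw [hEd, abs_zero]
      ring
    rw [e9, mul_assoc]
    refine mul_le_mul_of_nonneg_left ?_ (by linarith)
    refine mul_le_mul hk2 (by linarith) (by linarith) (by linarith)
  have a2 := a1.trans h9
  -- the currents of the two species
  have hc : |sN m a * Cv.P τ * Fil.cv a η τ - m * Cv.P τ * η τ| ≤ ((Fil.qo : ℕ) : ℝ) * CP := by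
    have hp := Cv.P_pos B τ
    have hp1 : Cv.P τ ≤ CP := by
      refine (HP τ).trans ?_
      have h2 : Real.exp (-(8 / 3) * |τ|) ≤ 1 := Real.exp_le_one_iff.2 (by
        have := abs_nonneg τ
        linarith)
      nlinarith
    have h2 := hcom.c0 a τ
    have h3 : Fil.cv true η τ = η τ := by rw [Fil.cv_true]
    have h4 := (hcur a).le τ
    have h5 := (hcur a).nonneg τ
    have h6 : ε ≤ 1 := by nlinarith
    have e3 : sN m a * Cv.P τ * Fil.cv a η τ - m * Cv.P τ * η τ =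
        Cv.P τ * (sN m a * Fil.cv a η τ - sN m true * Fil.cv true η τ) := by
      rw [h3, sN_true hm1]
      ring
    rw [e3, abs_mul, abs_of_pos hp]
    have h7 : ((Fil.qo : ℕ) : ℝ) * e τ ≤ ((Fil.qo : ℕ) : ℝ) := by nlinarith
    calc Cv.P τ * |sN m a * Fil.cv a η τ - sN m true * Fil.cv true η τ| ≤
        CP * ((Fil.qo : ℕ) : ℝ) := mul_le_mul hp1 (h2.trans h7) (abs_nonneg _) hCP.le
      _ = _ := by ring
  obtain ⟨X, hX⟩ : ∃ X, X = sN m a * Cv.P τ * Fil.cv a η τ := ⟨_, rfl⟩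
  obtain ⟨Y, hY⟩ : ∃ Y, Y = (m : ℝ) * Cv.P τ * η τ := ⟨_, rfl⟩
  obtain ⟨D1, hD1⟩ : ∃ D1, D1 = ∫ t, sN m a * Cv.P t * (Ψ (zt (gD (Fil.cv a η)) t)).re := ⟨_, rfl⟩
  obtain ⟨D2, hD2⟩ : ∃ D2, D2 = ∫ t : ℝ, sN m a * Cv.P t * (Ψ (ga t)).re := ⟨_, rfl⟩
  rw [← hX, ← hY] at hc
  rw [← hX, ← hD1, ← hD2] at a2
  rw [← hY, ← hD1, ← hD2]
  have e3 : D1 - D2 + 2 * φ * Y = (D1 - D2 + 2 * φ * X) - 2 * φ * (X - Y) := by ring
  rw [e3]
  refine (abs_sub _ _).trans (add_le_add a2 ?_)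
  rw [abs_mul, abs_mul, abs_two]
  exact mul_le_mul (by linarith) hc (abs_nonneg _) (by positivity)

/-! ### the letters -/

private theorem l8 : 9 / 100 * l < l / 8 := by
  have hl := l_pos
  linarith

/-- the paths of the two species -/
def ztC [SeaC] (η : ℝ → ℝ) (a : Bool) : ℝ → ℂ := zt (gD (Fil.cv a η))

/-- on the static curve the potential is the sum of the atoms -/
theorem ptA_ga [SeaC] (t : HT) (u : Ch6) (σ : Bool) (τ : ℝ) (a : Bool) (x : ℝ) :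
    (ptA t u σ τ a (ga x)).re = HS (at6 t u σ τ) (fun _ => Cv.eta) a x := by
  rw [← ptA_HS t u σ τ a (fun _ => Cv.eta) x]
  rfl

/-- **the atoms of a letter on the curve** -/
theorem int_atC (B : SeaCB) {e1 Cc : ℝ} (he : 0 < e1) (he1 : e1 ≤ 1) (hCc : 0 ≤ Cc) :
    ∃ C : ℝ, 0 ≤ C ∧ ∃ m0 : ℕ, 1 ≤ m0 ∧ ∀ [SeaC] [SeaCU B], ∀ m : ℕ, m0 ≤ m → ∀ η η1 : ℝ → ℝ,
      CrvP e1 Cc m η η1 → ∀ (t : HT) (u : Ch6) (σ : Bool) (τ : ℝ),
      (∀ a, Integrable fun x => sN m a * Cv.P x * HP (at6 t u σ τ) (ztC η) a x) ∧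
      (∀ a, Integrable fun x => sN m a * Cv.P x * HS (at6 t u σ τ) (fun _ => Cv.eta) a x) ∧
      |(∑ a, ∫ x, sN m a * Cv.P x * HP (at6 t u σ τ) (ztC η) a x) -
          (∑ a, ∫ x, sN m a * Cv.P x * HS (at6 t u σ τ) (fun _ => Cv.eta) a x) +
          2 * totA t u * (m * Cv.P τ * η τ)| ≤ C := by
  have hl := l_pos
  have hk6 : 0 ≤ kPt6 := by
    have := ka_nonneg6
    unfold kPt6
    positivity
  obtain ⟨C, hC, m0, hm0, H⟩ := int_neuC B he he1 hCc (κ0 := max kPt6 (96 * l)) (by positivity)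
  refine ⟨C + C, by positivity, m0, hm0, ?_⟩
  intro S hS m hm η η1 hcv t u σ τ
  have key := fun a => H m hm η η1 hcv a kPt6 (phA t u σ τ a) τ (ptA t u σ τ a)
    ((abs_phA t u σ τ a).trans (le_max_right _ _)) (le_max_left _ _)
    ⟨fun z hz hr => (asy_ptA t u σ τ a).ar z (hz.trans l8) hr,
      fun z hz hr => (asy_ptA t u σ τ a).al z (hz.trans l8) hr⟩
    (fun z hz => diff_ptA t u σ τ a (hz.trans l8))
  simp only [HP_at6, ← ptA_ga]
  refine ⟨fun a => (key a).1, fun a => (key a).2.1, ?_⟩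
  have k1 := (key true).2.2
  have k2 := (key false).2.2
  have ht := sum_phA t u σ τ
  rw [Fintype.sum_bool] at ht
  rw [Fintype.sum_bool, Fintype.sum_bool, ← ht]
  unfold ztC
  obtain ⟨D1, hD1⟩ : ∃ D1, D1 = ∫ x, sN m true * Cv.P x *
    (ptA t u σ τ true (zt (gD (Fil.cv true η)) x)).re := ⟨_, rfl⟩
  obtain ⟨D2, hD2⟩ : ∃ D2, D2 = ∫ x, sN m false * Cv.P x *
    (ptA t u σ τ false (zt (gD (Fil.cv false η)) x)).re := ⟨_, rfl⟩
  obtain ⟨E1, hE1⟩ : ∃ E1, E1 = ∫ x, sN m true * Cv.P x * (ptA t u σ τ true (ga x)).re := ⟨_, rfl⟩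
  obtain ⟨E2, hE2⟩ : ∃ E2, E2 = ∫ x, sN m false * Cv.P x * (ptA t u σ τ false (ga x)).re :=
    ⟨_, rfl⟩
  rw [← hD1, ← hE1] at k1
  rw [← hD2, ← hE2] at k2
  rw [← hD1, ← hD2, ← hE1, ← hE2]
  have e : D1 + D2 - (E1 + E2) +
        2 * (phA t u σ τ true + phA t u σ τ false) * (m * Cv.P τ * η τ) =
      (D1 - E1 + 2 * phA t u σ τ true * (m * Cv.P τ * η τ)) +
      (D2 - E2 + 2 * phA t u σ τ false * (m * Cv.P τ * η τ)) := by
    ring
  rw [e]
  exact (abs_add_le _ _).trans (add_le_add k1 k2)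

/-- **sea exponent of the neutral factor of a letter**, sea numbers `s`, half quantum of species `σ` -/
def mNC [SeaC] (s : Bool → ℝ) (m : ℕ) (σ : Bool) (t : HT) (u : Ch6) (τ : ℝ) : ℝ :=
  (∑ a, s a * ∫ x, Cv.P x * HS (at6 t u σ τ) (fun _ => Cv.eta) a x) + PBR.PLX.pl6 m t u τ

/-- **the atoms of a letter on the curve of `etaC`** -/
theorem cur_atC (B : SeaCB) {e1 J : ℝ} (he : 0 < e1) (he1 : e1 ≤ 1 / 100) (hJ : 0 ≤ J) :
    ∃ CH : ℝ, 0 ≤ CH ∧ ∃ m0 : ℕ, 1 ≤ m0 ∧ ∀ [SeaC] [SeaCU B], ∀ m : ℕ, m0 ≤ m →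
      ∀ (t : HT) (u : Ch6) (σ : Bool) (τ : ℝ),
      (∀ a, Integrable fun x => sN m a * Cv.P x *
        HP (at6 t u σ τ) (fun a => zt (gD (Fil.cv a (Cv.etaC e1 J m m)))) a x) ∧
      ∑ a, ∫ x, sN m a * Cv.P x *
        HP (at6 t u σ τ) (fun a => zt (gD (Fil.cv a (Cv.etaC e1 J m m)))) a x ≤
        mNC (sN m) m σ t u τ + CH := by
  obtain ⟨Cc, hCc, m1, hm1, hcrv⟩ := exists_crvC B (J := J) he he1 hJ
  obtain ⟨C, hC, m2, hm2, H⟩ := int_atC B (e1 := e1) (Cc := Cc) he (by linarith) (by linarith)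
  have ha := aC_pos
  have hl := l_pos
  refine ⟨C + 32 * l * (4 * aC + J), by positivity, max m1 m2, hm1.trans (le_max_left _ _), ?_⟩
  intro S hS m hm t u σ τ
  obtain ⟨hT, hc⟩ := hcrv m ((le_max_left _ _).trans hm)
  obtain ⟨i1, -, h2⟩ := H m ((le_max_right _ _).trans hm) _ _ hc t u σ τ
  refine ⟨i1, ?_⟩
  have hmm : 1 ≤ m := hm1.trans ((le_max_left _ _).trans hm)
  have hm0 : (0 : ℝ) < m := by exact_mod_cast hmm
  have h3 := PBR.PLX.lin_pl6 he.le he1 hJ hT t u τ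
  rw [Cv.mul_etaC B hm0] at h2
  have h4 := (abs_le.1 h2).2
  have e : ∀ a, (∫ x, sN m a * Cv.P x * HS (at6 t u σ τ) (fun _ => Cv.eta) a x) =
      sN m a * ∫ x, Cv.P x * HS (at6 t u σ τ) (fun _ => Cv.eta) a x := by
    intro a
    rw [← integral_const_mul]
    congr 1
    funext x
    ring
  rw [Finset.sum_congr rfl fun a _ => e a] at h4
  have e5 : (∑ a, ∫ x, sN m a * Cv.P x * HP (at6 t u σ τ) (ztC (Cv.etaC e1 J m m)) a x) =
    ∑ a, ∫ x, sN m a * Cv.P x *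
      HP (at6 t u σ τ) (fun a => zt (gD (Fil.cv a (Cv.etaC e1 J m m)))) a x := rfl
  rw [e5] at h4
  unfold mNC
  linarith

/-- **two letters on the curve of `etaC`** -/
theorem cur_atK (B : SeaCB) {e1 J : ℝ} (he : 0 < e1) (he1 : e1 ≤ 1 / 100) (hJ : 0 ≤ J) :
    ∃ CH : ℝ, 0 ≤ CH ∧ ∃ m0 : ℕ, 1 ≤ m0 ∧ ∀ [SeaC] [SeaCU B], ∀ m : ℕ, m0 ≤ m →
      ∀ (t t' : HT) (u : Ch6 × Ch6) (y : ℝ × ℝ),
      (∀ a, Integrable fun x => sN m a * Cv.P x *
        HP (atK6 t t' u y) (fun a => zt (gD (Fil.cv a (Cv.etaC e1 J m m)))) a x) ∧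
      ∑ a, ∫ x, sN m a * Cv.P x *
        HP (atK6 t t' u y) (fun a => zt (gD (Fil.cv a (Cv.etaC e1 J m m)))) a x ≤
        mNC (sN m) m true t u.1 y.1 + mNC (sN m) m false t' u.2 y.2 + CH := by
  obtain ⟨C, hC, m0, hm0, H⟩ := cur_atC B (J := J) he he1 hJ
  refine ⟨C + C, by positivity, m0, hm0, ?_⟩
  intro S hS m hm t t' u y
  obtain ⟨i1, h1⟩ := H m hm t u.1 true y.1
  obtain ⟨i2, h2⟩ := H m hm t' u.2 false y.2
  have e : ∀ a, (fun x => sN m a * Cv.P x *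
      HP (atK6 t t' u y) (fun a => zt (gD (Fil.cv a (Cv.etaC e1 J m m)))) a x) = fun x =>
      sN m a * Cv.P x *
        HP (at6 t u.1 true y.1) (fun a => zt (gD (Fil.cv a (Cv.etaC e1 J m m)))) a x +
      sN m a * Cv.P x *
        HP (at6 t' u.2 false y.2) (fun a => zt (gD (Fil.cv a (Cv.etaC e1 J m m)))) a x := by
    intro a
    funext x
    rw [HP_atK6]
    ring
  refine ⟨fun a => by rw [e]; exact (i1 a).add (i2 a), ?_⟩
  rw [Finset.sum_congr rfl fun a _ => by rw [e a, integral_add (i1 a) (i2 a)],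
    Finset.sum_add_distrib]
  linarith

end PLT

end
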