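import Pool.Agent.PLT.ObC
import Pool.Agent.PHK.ObMul6

/-!
# One body data on the lines times a bounded factor

* `ObC.mono`: a larger constant;
* **`ObC.mul`**: `B.mul g` for `g`, `g⁻¹` bounded by `D` on the evaluation points `DomP`.
-/

set_option autoImplicit false

noncomputable section

open Complex MeasureTheory Set

namespace PLT

open NUP1 NUGC.PLX PHK
open NUO hiding vl_re vl_im

variable {P : Par6} {ep : ℝ} {C D : ℝ} {rw : Bool → ℂ → ℝ} {pT : Bool → ℝ → ℝ} {m : ℕ} {β T1 : ℝ}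
  {B : OB}

theorem ObC.mono (h : ObC P C rw pT m β T1 B) (r0 : ∀ a u, 0 ≤ rw a u) {C' : ℝ} (hC : C ≤ C') :
    ObC P C' rw pT m β T1 B where
  m1 := h.m1
  nn := h.nn
  pTu a t ht h2 := (h.pTu a t ht h2).trans (mul_le_mul_of_nonneg_right hC (by positivity))
  up j hj a t := (h.up j hj a t).trans (mul_le_mul_of_nonneg_right hC (r0 _ _))
  lo j hj a t := (h.lo j hj a t).trans
    (mul_le_mul_of_nonneg_right hC (inv_nonneg.2 (r0 _ _)))
  pu j hj a t := (h.pu j hj a t).trans (mul_le_mul_of_nonneg_right hC (cut_nonneg _ _ _))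
  pl j hj a t := (h.pl j hj a t).trans
    (mul_le_mul_of_nonneg_right hC (inv_nonneg.2 (cut_nonneg _ _ _)))
  br1 a t := (h.br1 a t).trans (mul_le_mul_of_nonneg_right hC (Real.exp_pos _).le)
  br2 a t := (h.br2 a t).trans (mul_le_mul_of_nonneg_right hC (cut_nonneg _ _ _))
  p0 a t := (h.p0 a t).trans (mul_le_mul_of_nonneg_right hC
    (mul_nonneg (cut_nonneg _ _ _) (Real.exp_pos _).le))

/-- **the data times a factor bounded on the evaluation points** -/
theorem ObC.mul (h : ObC P C rw pT m β T1 B) (r0 : ∀ a u, 0 ≤ rw a u) (hC : 0 ≤ C) (hD : 1 ≤ D)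
    {g : Bool → ℂ → ℝ} (g0 : ∀ a u, 0 ≤ g a u)
    (hg : ∀ a, ∀ u ∈ DomP P ep, g a u ≤ D ∧ (g a u)⁻¹ ≤ D) :
    ObC P (C * D) rw pT m β T1 (B.mul g) := by
  have hCD : C ≤ C * D := le_mul_of_one_le_right hC hD
  have h' := h.mono r0 hCD
  refine ⟨fun a u => mul_nonneg (h.nn a u) (g0 a u), h.m1, h'.pTu, fun j hj a t => ?_,
    fun j hj a t => ?_, h'.pu, h'.pl, h'.br1, h'.br2, h'.p0⟩
  · have h1 := h.up j hj a t
    have h2 := (hg a _ (dom_up hj t)).1
    have h3 := r0 a (vl ((1 - j) * l) t)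
    show B.R a (vl ((1 - j) * l) t) * g a (vl ((1 - j) * l) t) ≤ _
    calc _ ≤ (C * rw a (vl ((1 - j) * l) t)) * D :=
          mul_le_mul h1 h2 (g0 _ _) (mul_nonneg hC h3)
      _ = _ := by ring
  · have h1 := h.lo j hj a t
    have h2 := (hg a _ (dom_lo hj t)).2
    have h3 := inv_nonneg.2 (r0 a (vl ((1 - j) * l) t))
    show (B.R a (vl ((1 - j) * l) t) * g a (vl ((1 - j) * l) t))⁻¹ ≤ _
    rw [mul_inv]
    calc _ ≤ (C * (rw a (vl ((1 - j) * l) t))⁻¹) * D :=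
          mul_le_mul h1 h2 (inv_nonneg.2 (g0 _ _)) (mul_nonneg hC h3)
      _ = _ := by ring

end PLT

end
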