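import Pool.Agent.PLT.OneRTC
import Pool.Agent.PLT.ObMulC

/-!
# Selections of families with bounded factors

* **`oneRTC_mul`, `oneRC_mul`**: for a family of geometries `GG i` with data `(BB i m β).mul (g i m)`, where
  `BB i m β` satisfies `ObC` and the exponents are those of `clK (cl i m)`, every selection satisfies
  `OneRTC`, `OneRC` (one constant);
* `oneRTC_sel`, `oneRC_sel`: without a factor; `Mf.mono`.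
-/

set_option autoImplicit false

noncomputable section

open Complex MeasureTheory Set

namespace PLT

open PHK
open NUO hiding vl_re vl_im
open NUP1 NUGC.PLX

/-- a larger constant -/
theorem Mf.mono {P : Par6} {C C' : ℝ} {rw : Bool → ℂ → ℝ} {cl pr : Bool → ℝ → ℝ → ℝ}
    {pT : Bool → ℝ → ℝ} (h : Mf P C rw cl pr pT) (hC : C ≤ C') : Mf P C' rw cl pr pT where
  sat a t := (h.sat a t).trans (mul_le_mul_of_nonneg_right hC (Real.exp_pos _).le)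
  hol j hj a t := (h.hol j hj a t).trans (mul_le_mul_of_nonneg_right hC (Real.exp_pos _).le)
  ntr j hj a t := (h.ntr j hj a t).trans hC
  top a t := (h.top a t).trans (mul_le_mul_of_nonneg_right hC (Real.exp_pos _).le)
  high a t := (h.high a t).trans (mul_le_mul_of_nonneg_right hC (Real.exp_pos _).le)

variable {ι : Type*} {P : Par6} {GG : ι → GeoC} {C D τ κ : ℝ} {rw : ι → ℕ → Bool → ℂ → ℝ}
  {cl pr : ι → ℕ → Bool → ℝ → ℝ → ℝ} {pT : ι → ℕ → Bool → ℝ → ℝ}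

/-- **`OneRTC` of every selection of a family** -/
theorem oneRTC_sel (hC : 0 < C) (hκ : 0 < κ)
    (hM : ∃ m0 : ℕ, ∀ (i : ι), ∀ m ≥ m0, Mf P C (rw i m) (cl i m) (pr i m) (pT i m))
    (hpr : ∃ m0 : ℕ, ∀ (i : ι), ∀ m ≥ m0, ∀ j ∈ loL P, ∀ a t, κ * (m * NUMF.P t) ≤ pr i m a j t)
    (hB : ∀ ep : ℝ, 0 < ep → ep ≤ 1 / 100 → ∃ m0 : ℕ, ∀ (i : ι), ∀ m ≥ m0,
      ObC P C (rw i m) (pT i m) m (4 / 3 * (1 - ep)) (Tb (Real.log m) + τ)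
        ((GG i).B m (4 / 3 * (1 - ep))))
    {Kc : ℝ} (h1 : ∀ (i : ι) (m : ℕ) (ep e1 J : ℝ), 1 ≤ m → 0 < ep → 0 < e1 → 0 ≤ J →
      ∀ (r : ℕ) (O : Fin r → Xo) (j : Fin r),
        (GG i).one m ep e1 J r O j ≤ oneEC (clK (cl i m) P) m ep e1 J O j + Kc) (i : ℕ → ι) :
    OneRTC P (GeoC.sel GG i) := by
  obtain ⟨m0, hm0⟩ := hM
  obtain ⟨m1, hm1⟩ := hpr
  refine oneRTC_of (G := GeoC.sel GG i) (rw := fun m => rw (i m) m) (cl := fun m => cl (i m) m)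
    (pr := fun m => pr (i m) m) (pT := fun m => pT (i m) m) hC τ hκ
    ⟨m0, fun m hm => hm0 (i m) m hm⟩ ⟨m1, fun m hm => hm1 (i m) m hm⟩ (fun ep h h' => ?_)
    (Kc := Kc) fun m ep e1 J a1 a2 a3 a4 r O j => h1 (i m) m ep e1 J a1 a2 a3 a4 r O j
  obtain ⟨m2, hm2⟩ := hB ep h h'
  exact ⟨m2, fun m hm => hm2 (i m) m hm⟩

theorem oneRC_sel (hC : 0 < C) (hκ : 0 < κ)
    (hM : ∃ m0 : ℕ, ∀ (i : ι), ∀ m ≥ m0, Mf P C (rw i m) (cl i m) (pr i m) (pT i m))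
    (hpr : ∃ m0 : ℕ, ∀ (i : ι), ∀ m ≥ m0, ∀ j ∈ loL P, ∀ a t, κ * (m * NUMF.P t) ≤ pr i m a j t)
    (hB : ∀ ep : ℝ, 0 < ep → ep ≤ 1 / 100 → ∃ m0 : ℕ, ∀ (i : ι), ∀ m ≥ m0,
      ObC P C (rw i m) (pT i m) m (4 / 3 * (1 - ep)) (Tb (Real.log m) + τ)
        ((GG i).B m (4 / 3 * (1 - ep))))
    {Kc : ℝ} (h1 : ∀ (i : ι) (m : ℕ) (ep e1 J : ℝ), 1 ≤ m → 0 < ep → 0 < e1 → 0 ≤ J →
      ∀ (r : ℕ) (O : Fin r → Xo) (j : Fin r),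
        (GG i).one m ep e1 J r O j ≤ oneEC (clK (cl i m) P) m ep e1 J O j + Kc) (i : ℕ → ι) :
    OneRC P (GeoC.sel GG i) := (oneRTC_sel hC hκ hM hpr hB h1 i).oneRC

/-- **`OneRTC` of every selection of a family with data `(BB i m β).mul (g i m)`** -/
theorem oneRTC_mul {BB : ι → ℕ → ℝ → OB} (hC : 0 < C) (hD : 1 ≤ D) (hκ : 0 < κ)
    (r0 : ∀ i m a u, 0 ≤ rw i m a u)
    (hM : ∃ m0 : ℕ, ∀ (i : ι), ∀ m ≥ m0, Mf P C (rw i m) (cl i m) (pr i m) (pT i m))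
    (hpr : ∃ m0 : ℕ, ∀ (i : ι), ∀ m ≥ m0, ∀ j ∈ loL P, ∀ a t, κ * (m * NUMF.P t) ≤ pr i m a j t)
    (hB : ∀ ep : ℝ, 0 < ep → ep ≤ 1 / 100 → ∃ m0 : ℕ, ∀ (i : ι), ∀ m ≥ m0,
      ObC P C (rw i m) (pT i m) m (4 / 3 * (1 - ep)) (Tb (Real.log m) + τ)
        (BB i m (4 / 3 * (1 - ep))))
    {g : ι → ℕ → Bool → ℂ → ℝ} (g0 : ∀ i m a u, 0 ≤ g i m a u)
    (hg : ∀ i m a, ∀ u ∈ DomP P (1 / 100), g i m a u ≤ D ∧ (g i m a u)⁻¹ ≤ D)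
    (hGG : ∀ i m β, (GG i).B m β = (BB i m β).mul (g i m)) {Kc : ℝ}
    (h1 : ∀ (i : ι) (m : ℕ) (ep e1 J : ℝ), 1 ≤ m → 0 < ep → 0 < e1 → 0 ≤ J →
      ∀ (r : ℕ) (O : Fin r → Xo) (j : Fin r),
        (GG i).one m ep e1 J r O j ≤ oneEC (clK (cl i m) P) m ep e1 J O j + Kc) (i : ℕ → ι) :
    OneRTC P (GeoC.sel GG i) := by
  obtain ⟨m3, hm3⟩ := hM
  refine oneRTC_sel (C := C * D) (τ := τ) (by positivity) hκ
    ⟨m3, fun i m hm => (hm3 i m hm).mono (le_mul_of_one_le_right hC.le hD)⟩ hpr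
    (fun ep h h' => ?_) h1 i
  obtain ⟨m2, hm2⟩ := hB ep h h'
  refine ⟨m2, fun i m hm => ?_⟩
  rw [hGG]
  exact (hm2 i m hm).mul (r0 i m) hC.le hD (g0 i m) (hg i m)

/-- the same without the gain -/
theorem oneRC_mul {BB : ι → ℕ → ℝ → OB} (hC : 0 < C) (hD : 1 ≤ D) (hκ : 0 < κ)
    (r0 : ∀ i m a u, 0 ≤ rw i m a u)
    (hM : ∃ m0 : ℕ, ∀ (i : ι), ∀ m ≥ m0, Mf P C (rw i m) (cl i m) (pr i m) (pT i m))
    (hpr : ∃ m0 : ℕ, ∀ (i : ι), ∀ m ≥ m0, ∀ j ∈ loL P, ∀ a t, κ * (m * NUMF.P t) ≤ pr i m a j t)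
    (hB : ∀ ep : ℝ, 0 < ep → ep ≤ 1 / 100 → ∃ m0 : ℕ, ∀ (i : ι), ∀ m ≥ m0,
      ObC P C (rw i m) (pT i m) m (4 / 3 * (1 - ep)) (Tb (Real.log m) + τ)
        (BB i m (4 / 3 * (1 - ep))))
    {g : ι → ℕ → Bool → ℂ → ℝ} (g0 : ∀ i m a u, 0 ≤ g i m a u)
    (hg : ∀ i m a, ∀ u ∈ DomP P (1 / 100), g i m a u ≤ D ∧ (g i m a u)⁻¹ ≤ D)
    (hGG : ∀ i m β, (GG i).B m β = (BB i m β).mul (g i m)) {Kc : ℝ}
    (h1 : ∀ (i : ι) (m : ℕ) (ep e1 J : ℝ), 1 ≤ m → 0 < ep → 0 < e1 → 0 ≤ J →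
      ∀ (r : ℕ) (O : Fin r → Xo) (j : Fin r),
        (GG i).one m ep e1 J r O j ≤ oneEC (clK (cl i m) P) m ep e1 J O j + Kc) (i : ℕ → ι) :
    OneRC P (GeoC.sel GG i) := (oneRTC_mul hC hD hκ r0 hM hpr hB g0 hg hGG h1 i).oneRC

end PLT

end
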