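import Pool.Agent.PLT.GOkC
import Pool.Agent.PLT.StatC

/-!
# Sea on a curve: the gas of a geometry in the presence of objects and groups

As `PHK/S4R0`, `PHK/S4I0`, for `GeoC` over a sequence of seas.

* **`s4R_ofC : S4C SB P en → GOkC SB P en S G → S4RC P G`**;
* `StatFamC S A0 ok Φ`: a family of statistics over the sequence `S` of seas; `statFam_oneC`;
* **`s4K_ofC : GOkC SB P en S G → S4MC SB P en → (StatFamC S A0 ok Φ → S4KC P G ok Φ (K + A0) Ca)`**,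
  `K`, `Ca` independent of the statistic.
-/

set_option autoImplicit false
set_option linter.unusedSectionVars false

noncomputable section

open MeasureTheory Finset Filter Topology
open scoped ENNReal

open PLX (Fil Ends)

namespace PLT

open PHK hiding mfo6
open PBO.PLX
open NUGC.PLX (OB spF)
open PBF.PLX (InsE)
open NUO (Xo ht TW Tb excS exc)
open NUSea.PLX.H0 (Gd)
open PotH.PLX (T1H RgH6 sN)

variable [Fil] [Ends]

/-- **the gas in the presence of objects and groups** -/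
theorem s4R_ofC {SB : SeaCB} {P : Par6} {en : EnC} (h4 : S4C SB P en) {S : ℕ → SeaC} {G : GeoC}
    (hG : GOkC SB P en S G) : S4RC P G := by
  let _ : NUSea.Sea := NUSea.seaP
  obtain ⟨B0, N0, hB0, hN0, henv⟩ := hG.env
  obtain ⟨K, Ca, hK, hCa, h4⟩ := h4 B0 N0 hB0 hN0
  obtain ⟨K1, hK1, hone⟩ := hG.one
  obtain ⟨CP, hCP, m2, hpref⟩ := hG.pref_le
  obtain ⟨m4, hcr⟩ := hG.crv
  obtain ⟨m6, hen⟩ := hG.en
  refine ⟨K + K1, Ca + 1, by linarith, by linarith, ?_⟩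
  intro kap hkap ep hep hep1 e1 he he1 J hJ δ hδ
  obtain ⟨Cc, C0, hCc, hC0, CL, m1, henv⟩ := henv ep hep hep1 e1 he he1 J hJ
  obtain ⟨m3, hone⟩ := hone ep hep hep1 e1 he he1 J hJ
  obtain ⟨d, Cst, hd, hCst, m5, h4⟩ := h4 kap hkap ep hep hep1 e1 he he1 Cc C0 hCc hC0 δ hδ
  refine ⟨d, Cst * Real.exp (CP + CL), hd, by positivity,
    max (max m1 m2) (max (max m3 m4) (max m5 m6)), ?_⟩
  intro m hm n g aX aY ν N b' r O E x hb' hR
  simp only [ge_iff_le, max_le_iff] at hm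
  obtain ⟨⟨a1, a2⟩, ⟨a3, a4⟩, a5, a6⟩ := hm
  obtain ⟨hm1, hT, hU, cr, Bc, Bc', H, H', hE, hlin⟩ := henv m a1
  have hRH : RgH6 ep e1 m g aX aY ν N O E x :=
    ⟨hR.n2, hR.sp, hR.ax, hR.ay, hR.ay', hR.q, hR.nu.trans (by norm_num), hR.hN.trans (by omega),
      by have := hR.hr; omega, hR.hc1, hR.hc2, hR.E0, hR.hE, hR.x0, hR.hx⟩
  have hbd : |b'| ≤ d := by
    rcases hb' with rfl | rfl
    · exact (abs_of_pos hd).le
    · rw [abs_neg, abs_of_pos hd]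
  have key := @h4 (S m) hU m a5 n _ _ cr Bc Bc' H H' _ g (hE n g d hd.le) aX aY ν N b' r O E x hbd hRH
  have e0 : lhsRC P G ep e1 J m g aX aY ν N b' O =
      @lhsC (S m) _ ((G.B m (4 / 3 * (1 - ep))).mul (spF g)) P m (@Cv.etaC (S m) e1 J m m)
        (@Cv.etaC' (S m) e1 J m m) aX aY ν N b' r O (fun _ => 1) := by
    unfold lhsRC lhsC
    rw [gasIC_one, (hcr m a4 e1 J).1, (hcr m a4 e1 J).2]
  rw [e0]
  refine key.trans (ENNReal.ofReal_le_ofReal ?_)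
  -- the linear term
  have hT1 : (1 - e1) * Tb (Real.log m) ≤ T1H ep e1 m O E := by
    have h1 := TW_geR (ep := ep) hep he hT
    have h2 : TW ep e1 m ≤ T1H ep e1 m O E := by
      unfold T1H
      linarith [le_max_right (excS (TW ep e1 m) O) E, hR.E0]
    linarith
  have hlin := hlin n g _ hT1
  have hconf := confEC_le (K := K) (kap := kap) O (hen m a6 r O) fun i => hone m a3 r O i
  have hen : @enHC _ _ P m n g r O (T1H ep e1 m O E) (nA6 (N + aX) O true) (nA6 (N + aY) O false) =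
      enRC P m g O (T1R ep e1 m O E) (nA6 (N + aX) O true) (nA6 (N + aY) O false) := rfl
  rw [hen]
  obtain ⟨EN, hEN⟩ : ∃ EN, EN = enRC P m g O (T1R ep e1 m O E) (nA6 (N + aX) O true)
    (nA6 (N + aY) O false) := ⟨_, rfl⟩
  rw [← hEN]
  let _ : SeaC := S m
  have e1' : 3 / 8 + Ca * (ep + e1) + δ = 3 / 8 + (Ca * (ep + e1) + δ) := by ring
  have e2' : confEC P (en (S m)) m (Cv.etaC e1 J m m) (TW ep e1 m) K kap O +
      linC (Cv.etaC e1 J m m) (Cv.etaC' e1 J m m) m g (T1H ep e1 m O E) H + EN =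
      (confEC P (en (S m)) m (Cv.etaC e1 J m m) (TW ep e1 m) K kap O + EN) +
      linC (Cv.etaC e1 J m m) (Cv.etaC' e1 J m m) m g (T1H ep e1 m O E) H := by ring
  rw [e1', e2']
  refine pref_algC (e1 := e1) hm1 hCst (far_le hep1 he1 hm1 hT g) ?_ (hpref m a2 n g hR.n2) hlin
    (by linarith) (by nlinarith)
  split_ifs
  · exact zero_le_one
  · exact (Real.exp_pos _).le

/-! ### statistics -/

/-- **a family of statistics** over a sequence of seas -/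
structure StatFamC (S : ℕ → SeaC) (A0 : ℝ) {ι : Type*} (ok : ℕ → ι → Prop) (Φ : ι → ℕ → ℕ → InsE) :
    Prop where
  /-- the exponent -/
  hA0 : 0 ≤ A0
  /-- the polynomial bound -/
  poly : ∃ m0 : ℕ, ∀ m ≥ m0, ∀ i : ι, ok m i → ∀ N ≤ 2 * m, ∀ (r : ℕ) (O : Fin r → Xo) (a b : ℕ)
    (y : (Fin a → ℝ) × (Fin b → ℝ)), r ≤ 2 * (2 * N + Fil.xe m + 6) → a ≤ N + 3 →
    b ≤ N + Fil.xe m + 3 →
    Φ i m N r O a b y ≤ ENNReal.ofReal (Real.exp (A0 * Real.log m))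
  /-- the sharp range -/
  sharp : ∀ Cg : ℝ, 1 ≤ Cg → ∀ ε : ℝ, 0 < ε → ∃ m0 : ℕ, ∀ m ≥ m0, ∀ i : ι, ok m i →
    ∀ N ≤ 2 * m, ∀ (r : ℕ) (O : Fin r → Xo) (a b : ℕ), |(m : ℝ) - N| ≤ Real.log m ^ 3 + 2 →
    (r : ℝ) + 2 ≤ Real.log m → (∀ i, |ht (O i)| ≤ Real.log m ^ 2) → a ≤ N + 3 →
    b ≤ N + Fil.xe m + 3 →
    ∃ A : ℝ, @StatMC _ _ (S m) Cg m a b A ((m : ℝ) ^ ε) (Φ i m N r O a b)

/-- no statistic -/
theorem statFam_oneC (S : ℕ → SeaC) {ι : Type*} (ok : ℕ → ι → Prop) :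
    StatFamC S 0 ok (fun _ _ _ _ _ _ _ _ => (1 : ℝ≥0∞)) where
  hA0 := le_rfl
  poly := ⟨0, fun m _ i _ N _ r O a b y _ _ _ => by simp⟩
  sharp Cg hCg ε hε := by
    obtain ⟨M, hM⟩ := Filter.eventually_atTop.1
      (((tendsto_rpow_atTop hε).comp tendsto_natCast_atTop_atTop).eventually_ge_atTop
        (2 : ℝ))
    refine ⟨M, fun m hm i _ N _ r O a b _ _ _ _ _ => ⟨1, ?_⟩⟩
    have h1 : @StatMC _ _ (S m) Cg m a b 1 2 (fun _ => (1 : ℝ≥0∞)) :=
      PBZ.PLX.StatOK.one (by positivity)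
    exact h1.mono le_rfl (hM m hm) measurable_const fun _ => le_rfl

/-- under the condition on the holes the objects take quanta away -/
private theorem nA6_le {n : ℕ} {r : ℕ} {O : Fin r → Xo} (h : cnt6 O) (s : Bool) : nA6 n O s ≤ n := by
  have := chgO6_nonneg h s
  unfold nA6
  omega

/-- **the gas with a statistic**, the constants are independent of the statistic -/
theorem s4K_ofC {SB : SeaCB} {P : Par6} {en : EnC} {S : ℕ → SeaC} {G : GeoC}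
    (hG : GOkC SB P en S G) (h4 : S4MC SB P en) :
    ∃ K Ca : ℝ, 0 ≤ K ∧ 0 ≤ Ca ∧ ∀ (A0 : ℝ) (ι : Type*) (ok : ℕ → ι → Prop)
      (Φ : ι → ℕ → ℕ → InsE), StatFamC S A0 ok Φ → S4KC P G ok Φ (K + A0) Ca := by
  let _ : NUSea.Sea := NUSea.seaP
  obtain ⟨B0, N0, hB0, hN0, henv⟩ := hG.env
  obtain ⟨K, Ca, hK, hCa, h4⟩ := h4 B0 N0 hB0 hN0
  obtain ⟨K1, hK1, hone⟩ := hG.one
  obtain ⟨CP, hCP, m2, hpref⟩ := hG.pref_le
  obtain ⟨m4, hcr⟩ := hG.crv
  obtain ⟨m6, hen⟩ := hG.en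
  refine ⟨K + K1, Ca + 1, by linarith, by linarith, ?_⟩
  intro A0 ι ok Φ hst kap hkap ep hep hep1 e1 he1 he11 J hJ δ hδ
  obtain ⟨Cc, C0, hCc, hC0, CL, m1, henv⟩ := henv ep hep hep1 e1 he1 he11 J hJ
  obtain ⟨m3, hone⟩ := hone ep hep hep1 e1 he1 he11 J hJ
  obtain ⟨d, Cst, Cg, hd, hCst, hCg, M0, h4⟩ := h4 A0 hst.hA0 kap hkap ep hep hep1 e1 he1 he11 Cc C0
    hCc hC0 (δ / 2) (by linarith)
  obtain ⟨M2, hpoly⟩ := hst.poly
  obtain ⟨M3, hsharp⟩ := hst.sharp Cg hCg (δ / 2) (by linarith)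
  refine ⟨d, Cst * Real.exp (CP + CL), hd, by positivity,
    max (max (max M0 m1) (max m2 m4)) (max (max M2 M3) (max m3 m6)), ?_⟩
  intro m hm n g aX aY ν N b' r O hb' hR hnear i hok
  simp only [ge_iff_le, max_le_iff] at hm
  obtain ⟨⟨⟨g0, g1⟩, a2, a4⟩, ⟨g2, g3⟩, g4, a6⟩ := hm
  obtain ⟨hm1, hT, hU, cr, Bc, Bc', H, H', hE, hlin⟩ := henv m g1
  have hmp : (0 : ℝ) < m := by exact_mod_cast hm1
  have hm1' : (1 : ℝ) ≤ m := by exact_mod_cast hm1
  have hb : |b'| ≤ d := by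
    rcases hb' with h | h
    · rw [h, abs_of_pos hd]
    · rw [h, abs_neg, abs_of_pos hd]
  have hRH : RgH6 ep e1 m g aX aY ν N O 0 0 :=
    { n2 := hR.n2, sp := hR.sp, ax := hR.ax, ay := hR.ay, ay' := hR.ay', q := hR.q
      nu := hR.nu.trans (by norm_num), hN := hR.hN.trans (by omega), hr := by have := hR.hr; omega
      hc1 := hR.hc1
      hc2 := hR.hc2, E0 := le_rfl, hE := hR.hE, x0 := le_rfl, hx := hR.hx }
  have hN := hR.hN
  have hax := hR.ax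
  have hay := hR.ay
  have hr6 : r ≤ 2 * (2 * N + Fil.xe m + 6) := by
    have := hR.hr
    omega
  have ha3 : nA6 (N + aX) O true ≤ N + 3 := (nA6_le hR.cn true).trans (by omega)
  have hb3 : nA6 (N + aY) O false ≤ N + Fil.xe m + 3 := (nA6_le hR.cn false).trans (by omega)
  have hnear2 : ∀ i, |(g i).τ| ≤ Real.log m ^ 2 := fun i =>
    (hnear i).trans (TW_le_sq hep1 he11 hT)
  have key := @h4 (S m) hU m g0 n (@Cv.etaC (S m) e1 J m m) (@Cv.etaC' (S m) e1 J m m) cr Bc Bc' H H'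
    ((G.B m (4 / 3 * (1 - ep))).mul (spF g)) g (hE n g d hd.le) aX aY ν N b' r O 0 0 hb hRH
    (Φ i m N r O (nA6 (N + aX) O true) (nA6 (N + aY) O false)) 1 ((m : ℝ) ^ (δ / 2)) zero_le_one
    (Real.one_le_rpow hm1' (by linarith))
    (fun y => by
      rw [one_mul]
      exact hpoly m g2 i hok N hN r O _ _ y hr6 ha3 hb3)
    (fun _ hnu hr hht => by
      rw [one_mul]
      refine hsharp m g3 i hok N hN r O _ _ ?_ hr hht ha3 hb3
      have h1 := hR.nu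
      rw [abs_le] at hnu h1 ⊢
      constructor <;> linarith [hnu.1, hnu.2, h1.1, h1.2])
  rw [if_pos hnear2] at key
  have e0 : lhsIC P G ep e1 J m g aX aY ν N b' O (Φ i m N) =
      @lhsC (S m) _ ((G.B m (4 / 3 * (1 - ep))).mul (spF g)) P m (@Cv.etaC (S m) e1 J m m)
        (@Cv.etaC' (S m) e1 J m m) aX aY ν N b' r O
        (Φ i m N r O (nA6 (N + aX) O true) (nA6 (N + aY) O false)) := by
    unfold lhsIC lhsC
    rw [(hcr m a4 e1 J).1, (hcr m a4 e1 J).2]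
  rw [e0]
  refine key.trans (ENNReal.ofReal_le_ofReal ?_)
  -- the numbers
  have hT1 : (1 - e1) * Tb (Real.log m) ≤ T1H ep e1 m O 0 :=
    (TW_geR (ep := ep) hep he1 hT).trans (by
      unfold T1H
      linarith [le_max_right (excS (TW ep e1 m) O) 0])
  have hlin := hlin n g _ hT1
  have hconf := confEC_le (K := K + A0) (kap := kap) O (hen m a6 r O) fun i => hone m g4 r O i
  have hen : @enHC _ _ P m n g r O (T1H ep e1 m O 0) (nA6 (N + aX) O true) (nA6 (N + aY) O false) =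
      enRC P m g O (T1R ep e1 m O 0) (nA6 (N + aX) O true) (nA6 (N + aY) O false) := rfl
  rw [hen]
  obtain ⟨EN, hEN⟩ : ∃ EN, EN = enRC P m g O (T1R ep e1 m O 0) (nA6 (N + aX) O true)
    (nA6 (N + aY) O false) := ⟨_, rfl⟩
  rw [← hEN]
  let _ : SeaC := S m
  have hp := hpref m a2 n g hR.n2
  obtain ⟨CF, hCF⟩ : ∃ CF, CF = confEC P (en (S m)) m (Cv.etaC e1 J m m) (TW ep e1 m) (K + A0) kap O +
    EN := ⟨_, rfl⟩
  obtain ⟨CR, hCR⟩ : ∃ CR, CR = confRC G m ep e1 J (K + A0 + K1) kap O + EN := ⟨_, rfl⟩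
  have hc : CF ≤ CR := by
    rw [hCF, hCR]
    linarith
  have hpa := pref_algC (G := G) hm1 (g := g) (E := 0) (x := 0) (F1 := 1) (F2 := 1)
    (a := Ca * (ep + e1) + δ / 2) (a' := Ca * (ep + e1) + δ / 2 + (ep + e1)) hCst le_rfl zero_le_one
    hp hlin hc (by linarith)
  have e2 : K + K1 + A0 = K + A0 + K1 := by ring
  rw [e2, ← hCR]
  have e3 : confEC P (en (S m)) m (Cv.etaC e1 J m m) (TW ep e1 m) (K + A0) kap O +
      linC (Cv.etaC e1 J m m) (Cv.etaC' e1 J m m) m g (T1H ep e1 m O 0) H + EN =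
      CF + linC (Cv.etaC e1 J m m) (Cv.etaC' e1 J m m) m g (T1H ep e1 m O 0) H := by
    rw [hCF]
    ring
  rw [e3, one_mul]
  have hpow : (m : ℝ) ^ ((Ca + 1) * (ep + e1) + δ) =
      (m : ℝ) ^ (δ / 2) * (m : ℝ) ^ (Ca * (ep + e1) + δ / 2 + (ep + e1)) := by
    rw [← Real.rpow_add hmp]
    congr 1
    ring
  rw [hpow]
  have e4 : 3 / 8 + Ca * (ep + e1) + δ / 2 = 3 / 8 + (Ca * (ep + e1) + δ / 2) := by ring
  rw [e4]
  have hm0 : 0 ≤ (m : ℝ) ^ (δ / 2) := by positivity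
  refine (mul_le_mul_of_nonneg_left hpa hm0).trans (le_of_eq ?_)
  ring

end PLT

end
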