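import Pool.Agent.PLT.AsmKRC
import Pool.Agent.PLT.S4RCof
import Pool.Agent.PLT.OneMul

/-!
# Sea on a curve: the hypotheses of the class bounds, from the data of a family

* `domP_sub`, **`dvK6_dom`**: the neutral factors of two letters on the evaluation points of the objects;
* **`GOkF.letters`**: `GOkF` of the family with two letters from `GOkF` of the family and the field `pot`;
* **`s4R_selC`**: every selection of a family satisfies `S4RC`;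
* **`oneRT_selC`, `oneR_selC`**: every selection of the family with two letters satisfies `OneRTC`, `OneRC`,
  one body data of the family without letters;
* `ClsBd`: the conclusion of `clsRC`; **`clsRC_of`, `clsRC_seq`**: the sums over the numbers of all choices of
  all classes from `S4C` and `GOkF`, for a family and for one sequence of indices.
-/

set_option autoImplicit false
set_option linter.unusedSectionVars false

noncomputable section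

open Complex MeasureTheory Finset
open scoped ENNReal

open PLX (Fil Ends)

namespace PLT

open PHK hiding mfo6
open PBR.PLX
open NUO (Xo pA bk Tb TW)
open NUP1 NUGC.PLX
open NURow (HT)
open PotH.PLX (sN)
open NUSea.PLX.H0 (Gd)
open NUP1S NUP1S.Ab NUP1S.AbC

/-! ### the neutral factors on the evaluation points -/

theorem domP_sub {P : Par6} {ep : ℝ} : DomP P ep ⊆ DomPC P (-(ep / 4)) (ep / 4) := by
  intro z hz
  rcases hz with h | h | h | h | h | h | h | h | h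
  · exact Or.inl h
  · exact Or.inr (Or.inl h)
  · exact Or.inr (Or.inr (Or.inl h))
  · exact Or.inr (Or.inr (Or.inr (Or.inl h)))
  · exact Or.inr (Or.inr (Or.inr (Or.inr (Or.inl h))))
  · exact Or.inr (Or.inr (Or.inr (Or.inr (Or.inr (Or.inl h)))))
  · exact Or.inr (Or.inr (Or.inr (Or.inr (Or.inr (Or.inr (Or.inl h))))))
  · exact Or.inr (Or.inr (Or.inr (Or.inr (Or.inr (Or.inr (Or.inr (Or.inl h)))))))
  · refine Or.inr (Or.inr (Or.inr (Or.inr (Or.inr (Or.inr (Or.inr (Or.inr ?_)))))))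
    rw [abs_le] at h
    constructor
    · linarith [h.1]
    · linarith [h.2]

/-- **the neutral factors of two letters on the evaluation points of the objects** -/
theorem dvK6_dom {P : Par6} (hA : AwP P (-(3 / 16)) (5 / 16)) {z : ℂ} (hz : z ∈ DomP P (1 / 100))
    (t t' : HT) (u : Ch6 × Ch6) (y : ℝ × ℝ) (a : Bool) :
    dvK6 t t' u y a z ≤ kV6 * kV6 ∧ (dvK6 t t' u y a z)⁻¹ ≤ kV6 * kV6 := by
  have hA' : AwP P (-(1 / 100 / 4)) (1 / 100 / 4) := hA.sub (by norm_num) (by norm_num)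
  exact ⟨dvK6_leC hA' (domP_sub hz) t t' u y a, dvK6_inv_leC hA' (domP_sub hz) t t' u y a⟩

/-! ### the gas -/

section gas

variable [Fil] [Ends]

/-- **two letters**: only the potential changes -/
theorem GOkF.letters {SB : SeaCB} {P : Par6} {en : EnC} {ι : Type*} {ok : ℕ → ι → Prop}
    {S : ℕ → ι → SeaC} {G : ι → GeoC} {mN : ι → MNC} (h : GOkF SB P en ok S G)
    (hpot : ∃ B0 N0 : ℝ, 0 ≤ B0 ∧ 0 ≤ N0 ∧ ∀ ep : ℝ, 0 < ep → ep ≤ 1 / 100 → ∀ e1 : ℝ, 0 < e1 →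
      e1 ≤ 1 / 100 → ∀ J : ℝ, 0 ≤ J → ∃ CH : ℝ, ∃ m0 : ℕ, ∀ m ≥ m0, ∀ i, ok m i → ∀ u : Ix6,
        @PotC (S m i) _ _ B0 N0 e1 m (@Cv.etaC (S m i) e1 J m m)
          ((GLC (G i) (mN i) u).B m (4 / 3 * (1 - ep))) ((GLC (G i) (mN i) u).EM m + CH)) :
    GOkF SB P en (fun (m : ℕ) (x : ι × Ix6) => ok m x.1) (fun m x => S m x.1) (GLU G mN) where
  sea := by
    obtain ⟨m0, h⟩ := h.sea
    exact ⟨m0, fun m hm i hi => h m hm _ hi⟩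
  crv := by
    obtain ⟨m0, h⟩ := h.crv
    exact ⟨m0, fun m hm i hi => h m hm _ hi⟩
  en := by
    obtain ⟨m0, h⟩ := h.en
    exact ⟨m0, fun m hm i hi => h m hm _ hi⟩
  nn m i β := GLC_nn (mN i.1) (fun m β => h.nn m i.1 β) i.2 m β
  pot := by
    obtain ⟨B0, N0, hB, hN, h⟩ := hpot
    refine ⟨B0, N0, hB, hN, fun ep hep hep1 e1 he he1 J hJ => ?_⟩
    obtain ⟨CH, m0, h⟩ := h ep hep hep1 e1 he he1 J hJ
    exact ⟨CH, m0, fun m hm i hi => h m hm i.1 hi i.2⟩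
  cut := by
    intro ep hep hep1 e1 he he1 J hJ
    obtain ⟨C0, hC0, m0, h⟩ := h.cut ep hep hep1 e1 he he1 J hJ
    exact ⟨C0, hC0, m0, fun m hm i hi => h m hm _ hi⟩
  one := by
    obtain ⟨K1, hK, h⟩ := h.one
    refine ⟨K1, hK, fun ep hep hep1 e1 he he1 J hJ => ?_⟩
    obtain ⟨m0, h⟩ := h ep hep hep1 e1 he he1 J hJ
    exact ⟨m0, fun m hm i hi => h m hm _ hi⟩
  MF := by
    obtain ⟨C, hC, m0, h⟩ := h.MF
    exact ⟨C, hC, m0, fun m hm i hi => h m hm _ hi⟩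

/-- **hypotheses `h4`, `h4'` of `clsRC`**: every selection of a family satisfies `S4RC` -/
theorem s4R_selC {SB : SeaCB} {P : Par6} {en : EnC} (h4 : S4C SB P en) {ι : Type*}
    {ok : ℕ → ι → Prop} {S : ℕ → ι → SeaC} {G : ι → GeoC} (hG : GOkF SB P en ok S G) (i : ℕ → ι)
    (hi : ∃ m0 : ℕ, ∀ m ≥ m0, ok m (i m)) : S4RC P (GeoC.sel G i) :=
  s4R_ofC h4 (hG.sel i hi)

end gas

/-! ### one body -/

section one

variable {ι : Type*} {P : Par6} {G : ι → GeoC} {mN : ι → MNC} {C τ κ : ℝ}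
  {rw : ι → ℕ → Bool → ℂ → ℝ} {cl pr : ι → ℕ → Bool → ℝ → ℝ → ℝ} {pT : ι → ℕ → Bool → ℝ → ℝ}

theorem one_kV6 : (1 : ℝ) ≤ kV6 * kV6 := by
  have h := dvK6_dom (P := par6) (awP_six le_rfl le_rfl) (z := ((1 - par6.jL) * NUP1.l : ℝ))
    (Or.inl (Complex.ofReal_re _)) .W .W ((false, false), (false, false)) (0, 0) true
  obtain ⟨x, hx⟩ : ∃ x, x = dvK6 .W .W ((false, false), (false, false)) (0, 0) true
    ((1 - par6.jL) * NUP1.l : ℝ) := ⟨_, rfl⟩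
  rw [← hx] at h
  have h0 : 0 < x := by
    rw [hx]
    exact dvK6_pos _ _ _ _ _ _
  rcases le_total 1 x with h1 | h1
  · exact h1.trans h.1
  · exact ((one_le_inv₀ h0).2 h1).trans h.2

/-- **every selection of the family with two letters satisfies `OneRTC`** -/
theorem oneRT_selC (hA : AwP P (-(3 / 16)) (5 / 16)) (hC : 0 < C) (hκ : 0 < κ)
    (r0 : ∀ i m a u, 0 ≤ rw i m a u)
    (hM : ∃ m0 : ℕ, ∀ (i : ι), ∀ m ≥ m0, Mf P C (rw i m) (cl i m) (pr i m) (pT i m))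
    (hpr : ∃ m0 : ℕ, ∀ (i : ι), ∀ m ≥ m0, ∀ j ∈ loL P, ∀ a t, κ * (m * NUMF.P t) ≤ pr i m a j t)
    (hB : ∀ ep : ℝ, 0 < ep → ep ≤ 1 / 100 → ∃ m0 : ℕ, ∀ (i : ι), ∀ m ≥ m0,
      ObC P C (rw i m) (pT i m) m (4 / 3 * (1 - ep)) (Tb (Real.log m) + τ)
        ((G i).B m (4 / 3 * (1 - ep)))) {Kc : ℝ}
    (h1 : ∀ (i : ι) (m : ℕ) (ep e1 J : ℝ), 1 ≤ m → 0 < ep → 0 < e1 → 0 ≤ J →
      ∀ (r : ℕ) (O : Fin r → Xo) (j : Fin r),
        (G i).one m ep e1 J r O j ≤ oneEC (clK (cl i m) P) m ep e1 J O j + Kc)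
    (i : ℕ → ι × Ix6) : OneRTC P (GeoC.sel (GLU G mN) i) := by
  obtain ⟨m1, hM⟩ := hM
  obtain ⟨m2, hpr⟩ := hpr
  refine oneRTC_mul (GG := GLU G mN) (BB := fun x m β => (G x.1).B m β)
    (g := fun x _ => dvK6 x.2.1.1 x.2.1.2 x.2.2.1 x.2.2.2)
    (rw := fun x => rw x.1) (cl := fun x => cl x.1) (pr := fun x => pr x.1) (pT := fun x => pT x.1)
    (τ := τ) (Kc := Kc) hC one_kV6 hκ (fun x => r0 x.1) ⟨m1, fun x => hM x.1⟩ ⟨m2, fun x => hpr x.1⟩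
    (fun ep hep hep1 => ?_) (fun x m a u => (dvK6_pos _ _ _ _ _ _).le)
    (fun x m a u hu => dvK6_dom hA hu _ _ _ _ _) (fun x m β => rfl)
    (fun x => h1 x.1) i
  obtain ⟨m3, hB⟩ := hB ep hep hep1
  exact ⟨m3, fun x => hB x.1⟩

/-- **hypothesis `h1` of `clsRC`** -/
theorem oneR_selC (hA : AwP P (-(3 / 16)) (5 / 16)) (hC : 0 < C) (hκ : 0 < κ)
    (r0 : ∀ i m a u, 0 ≤ rw i m a u)
    (hM : ∃ m0 : ℕ, ∀ (i : ι), ∀ m ≥ m0, Mf P C (rw i m) (cl i m) (pr i m) (pT i m))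
    (hpr : ∃ m0 : ℕ, ∀ (i : ι), ∀ m ≥ m0, ∀ j ∈ loL P, ∀ a t, κ * (m * NUMF.P t) ≤ pr i m a j t)
    (hB : ∀ ep : ℝ, 0 < ep → ep ≤ 1 / 100 → ∃ m0 : ℕ, ∀ (i : ι), ∀ m ≥ m0,
      ObC P C (rw i m) (pT i m) m (4 / 3 * (1 - ep)) (Tb (Real.log m) + τ)
        ((G i).B m (4 / 3 * (1 - ep)))) {Kc : ℝ}
    (h1 : ∀ (i : ι) (m : ℕ) (ep e1 J : ℝ), 1 ≤ m → 0 < ep → 0 < e1 → 0 ≤ J →
      ∀ (r : ℕ) (O : Fin r → Xo) (j : Fin r),
        (G i).one m ep e1 J r O j ≤ oneEC (clK (cl i m) P) m ep e1 J O j + Kc)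
    (i : ℕ → ι × Ix6) : OneRC P (GeoC.sel (GLU G mN) i) :=
  (oneRT_selC hA hC hκ r0 hM hpr hB h1 i).oneRC

end one

/-! ### the classes -/

section cls

variable [Fil] [Ends]

/-- the conclusion of `clsRC` for one geometry of size `m`: sums over the numbers of every choice of every
class and of D1, D1' -/
def ClsBd (P : Par6) (G : GeoC) (mN : MNC) (g1 g0 ρ ep e1 J Cst : ℝ) (m : ℕ) : Prop :=
  CurC (-(g1 + ep / 4)) (g0 + ep / 4) (G.D e1 J m) (G.D1 e1 J m) ∧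
    ∀ (X : Bool → Option O3 → ℂ → ℂ) (ob : (Bool → ℂ → ℝ) → OB) (κ : ℝ) (E0 : Set ℝ),
    BsC X ob P (-(g1 + ep / 4)) (g0 + ep / 4) κ (Fil.xe m) E0 →
    (∀ g, ob g = (G.B m (4 / 3 * (1 - ep))).mul g) →
    (∀ (t t' : HT) (u : Ch6 × Ch6), okC6 t u.1 → okC6 t' u.2 → ∀ y : ℝ × ℝ,
      sFAC X P (Fil.xe m) (2 * m) t t' (vl (htL t) y.1) (vl (htL t') y.2) u
        (G.D e1 J m) (G.D1 e1 J m) ≤
      ENNReal.ofReal (QRC mN G.MF ep e1 J m (Cst * (m : ℝ) ^ ρ * Real.exp (G.EM m)) t t' y u)) ∧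
    (∀ (o : Bool) (y : ℝ), ∑ n ∈ range (2 * m + 1),
      FAC (YD6 X o (vl (-(11 / 4) * l) y)) P n (n + Fil.xe m) (fun _ _ => G.D e1 J m)
        (fun _ _ => G.D1 e1 J m) (fun _ _ _ _ _ => 1) ≤
      ENNReal.ofReal (PBQ.PLX.QGD G.MF m ep e1 J (Cst * (m : ℝ) ^ ρ * Real.exp (G.EM m)) o y))

/-- **the sums over the numbers of all choices of all classes**, a family of geometries with `GOkF`
(conclusion of `clsRC`) -/
theorem clsRC_of {SB : SeaCB} {P : Par6} {en : EnC} (hP : GoodP6 P) (h4 : S4C SB P en) {C3 : ℝ}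
    (hspec : SpecPinC P C3) {ι : Type*} [Nonempty ι] {S : ℕ → ι → SeaC} {G : ι → GeoC}
    {mN : ι → MNC} (hG : GOkF SB P en (fun _ _ => True) S G)
    (hL : GOkF SB P en (fun (_ : ℕ) (_ : ι × Ix6) => True) (fun m x => S m x.1) (GLU G mN))
    (hS : ∀ i : ℕ → ι, StabU P (GeoC.sel G i).en)
    (h1 : ∀ i : ℕ → ι × Ix6, OneRC P (GeoC.sel (GLU G mN) i))
    (h1' : ∀ i : ℕ → ι, OneRC P (GeoC.sel G i))
    {g1 g0 : ℝ} (hg1 : g1 ≤ 1 / 8) (hg0 : g0 ≤ 1 / 5)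
    (hA : AwP P (-(3 / 16)) (5 / 16)) (hcv : ∀ i : ℕ → ι, CurG g1 g0 (GeoC.sel G i)) {ρ : ℝ}
    (hρ : 0 < ρ) : ∃ κ0 : ℝ, 0 < κ0 ∧ κ0 ≤ 1 / 100 ∧
      ∀ ep : ℝ, 0 < ep → ep ≤ κ0 → ∀ e1 : ℝ, 0 < e1 → e1 ≤ κ0 →
      ∀ J : ℝ, 0 ≤ J → Real.exp (-(2 * Real.pi * J)) ≤ κ0 →
      ∃ Cst : ℝ, 0 ≤ Cst ∧ ∃ m0 : ℕ, ∀ m ≥ m0, ∀ i, ClsBd P (G i) (mN i) g1 g0 ρ ep e1 J Cst m :=
  clsRC hP G mN (fun i m β => hG.nn m i β) hS hspec
    (fun i => s4R_selC h4 hL i ⟨0, fun _ _ => trivial⟩) h1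
    (fun i => s4R_selC h4 hG i ⟨0, fun _ _ => trivial⟩) h1' hg1 hg0 hA hcv hρ

/-- **the same for one sequence `d` of indices**, eventually in the range `ok` -/
theorem clsRC_seq {SB : SeaCB} {P : Par6} {en : EnC} (hP : GoodP6 P) (h4 : S4C SB P en) {C3 : ℝ}
    (hspec : SpecPinC P C3) {ι : Type*} {ok : ℕ → ι → Prop} {S : ℕ → ι → SeaC} {G : ι → GeoC}
    {mN : ι → MNC} (hG : GOkF SB P en ok S G)
    (hL : GOkF SB P en (fun (m : ℕ) (x : ι × Ix6) => ok m x.1) (fun m x => S m x.1) (GLU G mN))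
    (d : ℕ → ι) (hd : ∃ m0 : ℕ, ∀ m ≥ m0, ok m (d m))
    (hS : StabU P (GeoC.sel G d).en)
    (h1 : ∀ u : ℕ → Ix6, OneRC P (GeoC.sel (GLU G mN) fun m => (d m, u m)))
    (h1' : OneRC P (GeoC.sel G d))
    {g1 g0 : ℝ} (hg1 : g1 ≤ 1 / 8) (hg0 : g0 ≤ 1 / 5)
    (hA : AwP P (-(3 / 16)) (5 / 16)) (hcv : CurG g1 g0 (GeoC.sel G d)) {ρ : ℝ}
    (hρ : 0 < ρ) : ∃ κ0 : ℝ, 0 < κ0 ∧ κ0 ≤ 1 / 100 ∧
      ∀ ep : ℝ, 0 < ep → ep ≤ κ0 → ∀ e1 : ℝ, 0 < e1 → e1 ≤ κ0 →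
      ∀ J : ℝ, 0 ≤ J → Real.exp (-(2 * Real.pi * J)) ≤ κ0 →
      ∃ Cst : ℝ, 0 ≤ Cst ∧ ∃ m0 : ℕ, ∀ m ≥ m0,
        ClsBd P (G (d m)) (mN (d m)) g1 g0 ρ ep e1 J Cst m := by
  obtain ⟨κ0, hκ, hκ', h⟩ := clsRC hP (ι := Unit) (fun _ => GeoC.sel G d)
    (fun _ m => mN (d m) m) (fun _ m β => hG.nn m (d m) β) (fun _ => hS) hspec
    (fun i => s4R_selC h4 hL (fun m => (d m, (i m).2)) hd) (fun i => h1 fun m => (i m).2)
    (fun _ => s4R_selC h4 hG d hd) (fun _ => h1') hg1 hg0 hA (fun _ => hcv) hρ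
  refine ⟨κ0, hκ, hκ', fun ep hep hep1 e1 he he1 J hJ hJ1 => ?_⟩
  obtain ⟨Cst, hC, m0, h⟩ := h ep hep hep1 e1 he he1 J hJ hJ1
  exact ⟨Cst, hC, m0, fun m hm => h m hm ()⟩

end cls

end PLT

end
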