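import Pool.Agent.PLT.GBd0
import Pool.Agent.PLT.LinAC
import Pool.Agent.PLT.SelGC
import Pool.Agent.PLT.LegV

/-!
# Sea on a curve: geometries with rows, ends and atoms, with two letters

* `DD0_log`: the ends at a point; `int_endC`: rows against ends and atoms on the curve of TARGET-C are
  integrable;
* **`gOkF_let`**: the hypotheses of `gOkF_at` for a family give `GOkF` of the family with two letters `GLU G mN`,
  `mN i m σ t u τ = mNC (sN m) m σ t u τ` of the sea `S m i`; any `P`, any class of seas.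
-/

set_option autoImplicit false
set_option linter.unusedSectionVars false

noncomputable section

open MeasureTheory Finset Filter Topology
open scoped ENNReal

open PLX (Fil Ends)

namespace PLT

open PHK hiding mfo6
open PBO.PLX
open NUMF (l l_pos)
open NUGC.PLX (OB ThN pE qE)
open NUO (Xo TW Tb)
open NURow (HT)
open NUSea.PLX.H0 (Gd)
open PotH.PLX (HSk sN sN_nonneg)
open PBH (LC)
open PBH.PLX (Atm)
open PBR.PLX (Ch6 Ix6)

/-- the ends at a point of the curve -/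
theorem DD0_log [SeaC] (a : Bool) {z : ℂ} (h : |z.im| < 1 / 4 * l) :
    (NUSp.DD pE qE [] a z).re = Real.log (ThN (l + Complex.I * z)) := by
  have h1 := ThN_spFC (fun i : Fin 0 => (i.elim0 : Gd)) a h
  have h2 : NUGC.PLX.spF (fun i : Fin 0 => (i.elim0 : Gd)) a (NUMF.l + Complex.I * z) = 1 := by
    unfold NUGC.PLX.spF
    simp
  rw [h2, mul_one] at h1
  rw [h1, Real.log_exp]
  simp

/-- narrower windows -/
theorem Win.mono {δ δ' lo hi y1 y2 : ℝ} (h : Win δ lo hi y1 y2) (hδ : δ' ≤ δ) : Win δ' lo hi y1 y2 :=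
  ⟨by linarith [h.a1], by linarith [h.b1], by linarith [h.a2], by linarith [h.b2]⟩

theorem AtC.mono_δ {K δ δ' lo hi : ℝ} {n : ℕ} {x : Bool → Fin n → Atm} (h : AtC K δ lo hi x)
    (hδ : δ' ≤ δ) : AtC K δ' lo hi x := fun a i => ⟨(h a i).1, (h a i).2.mono hδ⟩

/-- the atoms of two letters are seen from the strip of a sea -/
theorem atC_K6 (SB : SeaCB) (t t' : HT) (u : Ch6 × Ch6) (y : ℝ × ℝ) :
    AtC 3 (l / 8) (-SB.h) (7 / 100 * l) (atK6 t t' u y) := fun a i => win_atK6 SB t t' u y a i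

variable [Fil] [Ends]

/-- **the sea against ends and atoms** on the curve of TARGET-C -/
theorem int_endC (SB : SeaCB) (n : ℕ) {K δ : ℝ} (hK : 0 ≤ K) (hδ : 0 < δ) (hδ1 : δ ≤ 1) {e1 : ℝ}
    (he : 0 < e1) (he1 : e1 ≤ 1 / 100) {J : ℝ} (hJ : 0 ≤ J) :
    ∃ m0 : ℕ, ∀ m ≥ m0, ∀ [SeaC] [SeaCU SB] (x : Bool → Fin n → Atm),
    AtC K δ (-SB.h) (7 / 100 * l) x → ∀ a,
      Integrable fun t => sN m a * Cv.P t * ((NUSp.DD pE qE [] a (Cv.ga t)).re +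
        HP x (fun a => Cv.zt (Cv.gD (Fil.cv a (Cv.etaC e1 J m m)))) a t) := by
  have hl := l_pos
  obtain ⟨C, hC, HC⟩ := pthA_cur SB
  obtain ⟨B0, N0, A0, hB0, hN0, hA0, H⟩ := hok_path n (K := C) (Kc := K) (δ := δ)
    (by linarith) hK hδ hδ1
  obtain ⟨m1, hm1⟩ := @PBH.PLX.eventually_small NUSea.seaP e1 (1 / C) A0 he (by positivity)
  obtain ⟨Cc, hCc, m2, hm2, hcrv⟩ := exists_crvC SB (J := J) he he1 hJ
  obtain ⟨C3, hC3, m3, hm3, H3⟩ := exists_HDC SB (e1 := e1) (Cc := Cc) he (by linarith) (by linarith)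
  obtain ⟨C4, hC4, H4⟩ := Cv.cur_path SB
  obtain ⟨m4, hm4⟩ := @PBH.PLX.eventually_small NUSea.seaP e1 (1 / C4) A0 he (by positivity)
  refine ⟨max (max m1 m2) (max m3 m4), fun m hm S hS x hx a => ?_⟩
  simp only [ge_iff_le, max_le_iff] at hm
  obtain ⟨⟨b1, b2⟩, b3, b4⟩ := hm
  obtain ⟨a1, a2⟩ := hm1 m b1
  obtain ⟨hT, hη⟩ := hcrv m b2
  obtain ⟨ε, e, hcur, hε0, hε1, hε2⟩ := hη.cur
  have hCε : C * ε ≤ 1 := by
    have h1 : ε ≤ 1 / C := hε1.trans a1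
    rw [le_div_iff₀ (by linarith)] at h1
    linarith
  have hC4ε : C4 * ε ≤ 1 := by
    have h1 : ε ≤ 1 / C4 := hε1.trans (hm4 m b4).1
    rw [le_div_iff₀ (by linarith)] at h1
    linarith
  have hp : ∀ a, PthA C (-SB.h) (7 / 100 * l) (Cv.zt (Cv.gD (Fil.cv a (Cv.etaC e1 J m m))))
      (Cv.zd (Cv.gD1 (Fil.cv a (Cv.etaC e1 J m m)) (Fil.cv a (Cv.etaC' e1 J m m)))) := fun a =>
    HC (Nat.cast_nonneg m) hCε (cur_cvC hcur a) (hasDerivAt_cvC hη.d a)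
  have hok := H hx hp 0 0 _ le_rfl a2
  -- the atoms
  have i1 : Integrable fun t => sN m a * Cv.P t *
      HP x (fun a => Cv.zt (Cv.gD (Fil.cv a (Cv.etaC e1 J m m)))) a t := by
    have h1 : Integrable fun t => sN m a * Cv.P t := (Cv.P_int SB).const_mul (sN m a)
    have hc : Continuous fun t =>
        HP x (fun a => Cv.zt (Cv.gD (Fil.cv a (Cv.etaC e1 J m m)))) a t :=
      continuous_iff_continuousAt.2 fun t => (hok.d a t).continuousAt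
    exact h1.mul_bdd (c := B0) hc.aestronglyMeasurable (ae_of_all _ fun t => hok.le a t)
  -- the ends
  obtain ⟨-, j0, -⟩ := H3 m b3 _ _ hη (hη.hdc_le SB) 0 0 (by norm_num) (by simp; positivity)
    (by simp; positivity)
  obtain ⟨-, j1, -⟩ := H3 m b3 _ _ hη (hη.hdc_le SB) 1 0 (by norm_num) (by simp; positivity)
    (by simp; positivity)
  obtain ⟨-, hG, -, -⟩ := H4 (Nat.cast_nonneg m) hC4ε hcur hη.d
  have i2 : Integrable fun t => sN m a * Cv.P t * (NUSp.DD pE qE [] a (Cv.ga t)).re := by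
    refine ((j0 a).sub (j1 a)).congr (ae_of_all _ fun t => ?_)
    have h1 : |(Cv.ga t).im| < 1 / 4 * l := by
      have g1 := hG.im_ge t
      have g2 := hG.im_le t
      have g3 := SB.h1
      rw [abs_lt]
      constructor <;> linarith
    simp only [Pi.sub_apply]
    rw [DD0_log a h1]
    unfold Hst
    ring
  refine (i2.add i1).congr (ae_of_all _ fun t => ?_)
  simp only [Pi.add_apply]
  ring

/-- **geometries with rows, ends and atoms, with two letters**: from the hypotheses of `gOkF_at` -/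
theorem gOkF_let {SB : SeaCB} {P : Par6} {en : EnC} {ι : Type*} {ok : ℕ → ι → Prop}
    {S : ℕ → ι → SeaC} {G : ι → GeoC} {n : ℕ} {K δ : ℝ} (hK : 0 ≤ K) (hδ : 0 < δ) (hδ1 : δ ≤ 1)
    {x : ℕ → ι → Bool → Fin n → Atm}
    (sea : ∃ m0 : ℕ, ∀ m ≥ m0, ∀ i, ok m i → @SeaCU SB (S m i))
    (crv : ∃ m0 : ℕ, ∀ m ≥ m0, ∀ i, ok m i → ∀ e1 J : ℝ,
      (G i).D e1 J m = @dsp (S m i) _ (@Cv.etaC (S m i) e1 J m m) ∧
      (G i).D1 e1 J m = @dsp1 (S m i) _ (@Cv.etaC (S m i) e1 J m m) (@Cv.etaC' (S m i) e1 J m m))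
    (hen : ∃ m0 : ℕ, ∀ m ≥ m0, ∀ i, ok m i → ∀ (r : ℕ) (O : Fin r → Xo),
      en (S m i) r O ≤ (G i).en m r O)
    (nn : ∀ m i β, ((G i).B m β).Nn)
    (hx : ∃ m0 : ℕ, ∀ m ≥ m0, ∀ i, ok m i → AtC K δ (-SB.h) (7 / 100 * l) (x m i))
    (hR : ∃ m0 : ℕ, ∀ m ≥ m0, ∀ i, ok m i → ∀ (β : ℝ) a (z : ℂ), -SB.h ≤ z.im →
      z.im ≤ 7 / 100 * l → ((G i).B m β).R a (l + Complex.I * z) ≤
      2 * Real.cos NUP1.l * Real.exp (@Cv.vb (S m i) (sN m) a z).re * ThN (l + Complex.I * z) *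
        Real.exp (HA (x m i) a z))
    (hEM : ∀ e1 : ℝ, 0 < e1 → e1 ≤ 1 / 100 → ∀ J : ℝ, 0 ≤ J → ∃ CH : ℝ, ∃ m0 : ℕ, ∀ m ≥ m0,
      ∀ i, ok m i → @Cv.MF (S m i) (sN m) + ∑ a, ∫ t, sN m a * @Cv.P (S m i) t *
        ((NUSp.DD pE qE [] a (@Cv.ga (S m i) t)).re + HP (x m i)
          (fun a => @Cv.zt (S m i) (@Cv.gD (S m i) (Fil.cv a (@Cv.etaC (S m i) e1 J m m)))) a t) ≤
        (G i).EM m + CH)
    (hcut : ∀ ep : ℝ, 0 < ep → ep ≤ 1 / 100 → ∀ e1 : ℝ, 0 < e1 → e1 ≤ 1 / 100 → ∀ J : ℝ, 0 ≤ J →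
      ∃ C0 : ℝ, 1 ≤ C0 ∧ ∃ m0 : ℕ, ∀ m ≥ m0, ∀ i, ok m i →
        @CutBC (S m i) _ ep e1 C0 m (@Cv.etaC (S m i) e1 J m m) ((G i).B m (4 / 3 * (1 - ep))))
    (hone : ∃ K1 : ℝ, 0 ≤ K1 ∧ ∀ ep : ℝ, 0 < ep → ep ≤ 1 / 100 → ∀ e1 : ℝ, 0 < e1 →
      e1 ≤ 1 / 100 → ∀ J : ℝ, 0 ≤ J → ∃ m0 : ℕ, ∀ m ≥ m0, ∀ i, ok m i →
      ∀ (r : ℕ) (O : Fin r → Xo) (j : Fin r),
        @oneHC (S m i) _ _ P m (@Cv.etaC (S m i) e1 J m m) (TW ep e1 m) r O j ≤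
          (G i).one m ep e1 J r O j + K1)
    (hMF : ∃ C : ℝ, 0 ≤ C ∧ ∃ m0 : ℕ, ∀ m ≥ m0, ∀ i, ok m i → ∀ g : Gd,
      @seaGC (S m i) (sN m) g ≤ (G i).MF m g.σ g.c g.w + C) :
    GOkF SB P en (fun (m : ℕ) (x : ι × Ix6) => ok m x.1) (fun m x => S m x.1)
      (GLU G fun i m σ t u τ => @mNC (S m i) (sN m) m σ t u τ) := by
  have hl := l_pos
  refine (gOkF_at hK hδ hδ1 sea crv hen nn hx hR hEM hcut hone hMF).letters ?_
  obtain ⟨δ', hδ'⟩ : ∃ δ', δ' = min δ (l / 8) := ⟨_, rfl⟩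
  have d0 : 0 < δ' := by rw [hδ']; exact lt_min hδ (by positivity)
  have d1 : δ' ≤ 1 := by rw [hδ']; exact (min_le_left _ _).trans hδ1
  have d2 : δ' ≤ δ := by rw [hδ']; exact min_le_left _ _
  have d3 : δ' ≤ l / 8 := by rw [hδ']; exact min_le_right _ _
  obtain ⟨K', hK'⟩ : ∃ K', K' = max K 3 := ⟨_, rfl⟩
  have k0 : 0 ≤ K' := by rw [hK']; positivity
  have k1 : K ≤ K' := by rw [hK']; exact le_max_left _ _
  have k2 : 3 ≤ K' := by rw [hK']; exact le_max_right _ _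
  obtain ⟨B0, N0, hB0, hN0, H⟩ := potC_at SB (n + (16 + 16)) k0 d0 d1
  refine ⟨B0, N0, hB0, hN0, fun ep hep hep1 e1 he he1 J hJ => ?_⟩
  obtain ⟨m1, H⟩ := H e1 he he1 J hJ
  obtain ⟨CH, m2, hEM⟩ := hEM e1 he he1 J hJ
  obtain ⟨m3, sea⟩ := sea
  obtain ⟨m4, hx⟩ := hx
  obtain ⟨m5, hR⟩ := hR
  obtain ⟨m6, hI⟩ := int_endC SB n hK hδ hδ1 he he1 hJ
  obtain ⟨CK, hCK, m7, hm7, hKt⟩ := cur_atK SB (J := J) he he1 hJ
  refine ⟨CH + CK, max (max m1 m2) (max (max m3 m4) (max m5 (max m6 m7))), fun m hm i hi u => ?_⟩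
  simp only [ge_iff_le, max_le_iff] at hm
  obtain ⟨⟨b1, b2⟩, ⟨b3, b4⟩, b5, b6, b7⟩ := hm
  have hS := sea m b3 i hi
  have hxi := hx m b4 i hi
  obtain ⟨xx, hxx⟩ : ∃ xx : Bool → Fin (n + (16 + 16)) → Atm,
    xx = fun b => Fin.append (x m i b) (atK6 u.1.1 u.1.2 u.2.1 u.2.2 b) := ⟨_, rfl⟩
  have hxxC : AtC K' δ' (-SB.h) (7 / 100 * l) xx := by
    rw [hxx]
    exact ((hxi.mono k1).mono_δ d2).append (((atC_K6 SB u.1.1 u.1.2 u.2.1 u.2.2).mono k2).mono_δ d3)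
  refine @H m b1 (S m i) hS xx hxxC _ _ (fun a z hz1 hz2 => ?_) ?_
  · have h1 := hR m b5 i hi (4 / 3 * (1 - ep)) a z hz1 hz2
    have h2 := dvK6_pt u.1.1 u.1.2 u.2.1 u.2.2 a z
    have h3 : HA xx a z = HA (x m i) a z + HA (atK6 u.1.1 u.1.2 u.2.1 u.2.2) a z := by
      rw [hxx]
      exact HA_append _ _ a z
    have h4 : dvK6 u.1.1 u.1.2 u.2.1 u.2.2 a (l + Complex.I * z) =
        Real.exp (HA (atK6 u.1.1 u.1.2 u.2.1 u.2.2) a z) := h2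
    show ((G i).B m (4 / 3 * (1 - ep))).R a (l + Complex.I * z) *
      dvK6 u.1.1 u.1.2 u.2.1 u.2.2 a (l + Complex.I * z) ≤ _
    rw [h3, Real.exp_add, ← mul_assoc, h4]
    exact mul_le_mul_of_nonneg_right h1 (Real.exp_pos _).le
  · let _ : SeaC := S m i
    have h1 := hEM m b2 i hi
    obtain ⟨i2, h2⟩ := @hKt (S m i) hS m b7 u.1.1 u.1.2 u.2.1 u.2.2
    have i1 := fun a => @hI m b6 (S m i) hS (x m i) hxi a
    have e1' : ∀ a, (∫ t, sN m a * Cv.P t * ((NUSp.DD pE qE [] a (Cv.ga t)).re +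
        HP xx (fun a => Cv.zt (Cv.gD (Fil.cv a (Cv.etaC e1 J m m)))) a t)) =
        (∫ t, sN m a * Cv.P t * ((NUSp.DD pE qE [] a (Cv.ga t)).re +
          HP (x m i) (fun a => Cv.zt (Cv.gD (Fil.cv a (Cv.etaC e1 J m m)))) a t)) +
        ∫ t, sN m a * Cv.P t * HP (atK6 u.1.1 u.1.2 u.2.1 u.2.2)
          (fun a => Cv.zt (Cv.gD (Fil.cv a (Cv.etaC e1 J m m)))) a t := by
      intro a
      rw [← integral_add (i1 a) (i2 a)]
      refine integral_congr_ae (ae_of_all _ fun t => ?_)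
      beta_reduce
      rw [hxx, HP_append]
      ring
    rw [Finset.sum_congr rfl fun a _ => e1' a, Finset.sum_add_distrib]
    show _ ≤ (G i).EM m + (mNC (sN m) m true u.1.1 u.2.1.1 u.2.2.1 +
      mNC (sN m) m false u.1.2 u.2.1.2 u.2.2.2) + (CH + CK)
    linarith

end PLT

end
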