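import Pool.Agent.PLT.GXOk
import Pool.Agent.PLT.GBdL
import Pool.Agent.PLT.CurH

/-!
# The geometries of a family of contents are admissible

* `SeaG SB s0 S x e ok`: every index carries the sea of its content, the ends are in a box;
* **`gOkF_X`**: `GOkF` of the geometries `GX` from the cutoff of their one body data; **`gOkF_XL`**: with two
  letters;
* **`curG_X`**, `curGU_X`: the curves are in the strip of the windows.
-/

set_option autoImplicit false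
set_option linter.unusedSectionVars false
set_option linter.unusedVariables false

noncomputable section

open Complex MeasureTheory Finset Filter Topology
open PLX (Fil Ends)

namespace PLT

open PHK hiding mfo6
open PBO.PLX (thZ)
open NUMF (l l_pos)
open NUGC.PLX (OB ThN pE qE)
open NUO (Xo TW Tb)
open NUSea.PLX.H0 (Gd)
open PotH.PLX (sN)
open PLT.Le (SeaV CntV)
open PBR.PLX (Ix6)

variable {ι : Type*}

/-- **every index carries the sea of its content**, the ends are in the box `|Im e| ≤ s0` -/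
structure SeaG (SB : SeaCB) (s0 : ℝ) (S : ℕ → ι → SeaC) (x : (i : ι) → (m : ℕ) → Fin m → ℂ)
    (e : ι → ℕ → ℂ) (ok : ℕ → ι → Prop) : Prop where
  sea : ∃ m0 : ℕ, ∀ m ≥ m0, ∀ i, ok m i → @SeaCU SB (S m i)
  cnt : ∃ m0 : ℕ, ∀ m ≥ m0, ∀ i, ok m i → ∃ (κ : Type) (_ : Fintype κ) (w : κ → ℝ) (X : κ → ℂ),
    @SeaV κ _ (S m i) w X ∧ CntV w X (x i m)
  row : ∃ m0 : ℕ, ∀ m ≥ m0, ∀ i, ok m i → ∀ k, -l + SB.h < (x i m k).re ∧ (x i m k).re ≤ l / 2
  end_ : ∃ m0 : ℕ, ∀ m ≥ m0, ∀ i, ok m i → -(9 / 10 * l) ≤ (e i m).re ∧ (e i m).re ≤ l / 2 ∧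
    |(e i m).im| ≤ s0

/-- the cutoffs of the one body data of the family -/
def CutG [Fil] [Ends] (S : ℕ → ι → SeaC) (x : (i : ι) → (m : ℕ) → Fin m → ℂ) (e : ι → ℕ → ℂ)
    (ok : ℕ → ι → Prop) : Prop :=
  ∀ ep : ℝ, 0 < ep → ep ≤ 1 / 100 → ∀ e1 : ℝ, 0 < e1 → e1 ≤ 1 / 100 → ∀ J : ℝ, 0 ≤ J →
    ∃ C0 : ℝ, 1 ≤ C0 ∧ ∃ m0 : ℕ, ∀ m ≥ m0, ∀ i, ok m i →
      @CutBC (S m i) _ ep e1 C0 m (@Cv.etaC (S m i) e1 J m m) (obX m (x i m) (e i m) (4 / 3 * (1 - ep)))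

variable [Fil] [Ends]

section

variable {SB : SeaCB} {s0 : ℝ} {S : ℕ → ι → SeaC} {x : (i : ι) → (m : ℕ) → Fin m → ℂ}
  {e : ι → ℕ → ℂ} {ok : ℕ → ι → Prop}

/-- the atoms of the ends are seen from the strip -/
theorem SeaG.hx (h : SeaG SB s0 S x e ok) : ∃ m0 : ℕ, ∀ m ≥ m0, ∀ i, ok m i →
    AtC 3 (l / 20) (-SB.h) (7 / 100 * l) (aend (e i m)) := by
  obtain ⟨m0, H⟩ := h.end_
  exact ⟨m0, fun m hm i hi => aend_ok SB (H m hm i hi).1 (H m hm i hi).2.1⟩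

/-- the one body factors in the strip -/
theorem SeaG.hR (ho : Ends.o = 0) (he : Ends.e = 0) (h : SeaG SB s0 S x e ok) :
    ∃ m0 : ℕ, ∀ m ≥ m0, ∀ i, ok m i → ∀ (β : ℝ) a (z : ℂ), -SB.h ≤ z.im → z.im ≤ 7 / 100 * l →
      (obX m (x i m) (e i m) β).R a (l + I * z) ≤ 2 * Real.cos NUP1.l *
        Real.exp (@Cv.vb (S m i) (sN m) a z).re * ThN (l + I * z) *
        Real.exp (HA (aend (e i m)) a z) := by
  obtain ⟨m1, H1⟩ := h.cnt
  obtain ⟨m2, H2⟩ := h.row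
  obtain ⟨m3, H3⟩ := h.end_
  refine ⟨max 1 (max m1 (max m2 m3)), fun m hm i hi β a z hz1 hz2 => ?_⟩
  simp only [ge_iff_le, max_le_iff] at hm
  obtain ⟨b0, b1, b2, b3⟩ := hm
  obtain ⟨κ, hκ, w, X, k1, k2⟩ := H1 m b1 i hi
  exact le_of_eq (@R_obX _ _ SB (S m i) ho he κ hκ w X k1 m b0 (x i m) k2 (e i m)
    (H3 m b3 i hi).1 (H3 m b3 i hi).2.1 (fun k => (H2 m b2 i hi k).1)
    (fun k => (H2 m b2 i hi k).2) β a z hz1 hz2)

/-- mean field value and ends on the curve -/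
theorem SeaG.hEM (hs0 : 0 ≤ s0) (h : SeaG SB s0 S x e ok) {e1 : ℝ} (he : 0 < e1) (he1 : e1 ≤ 1 / 100)
    {J : ℝ} (hJ : 0 ≤ J) : ∃ CH : ℝ, ∃ m0 : ℕ, ∀ m ≥ m0, ∀ i, ok m i →
      @Cv.MF (S m i) (sN m) + ∑ a, ∫ t, sN m a * @Cv.P (S m i) t *
        ((NUSp.DD pE qE [] a (@Cv.ga (S m i) t)).re + HP (aend (e i m))
          (fun a => @Cv.zt (S m i) (@Cv.gD (S m i) (Fil.cv a (@Cv.etaC (S m i) e1 J m m)))) a t) ≤
        @EMX _ _ (S m i) (e i m) m + CH := by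
  obtain ⟨C, hC, m1, hm1, H⟩ := exists_endX SB he he1 hJ hs0
  obtain ⟨m2, H2⟩ := h.sea
  obtain ⟨m3, H3⟩ := h.end_
  refine ⟨C, max m1 (max m2 m3), fun m hm i hi => ?_⟩
  simp only [ge_iff_le, max_le_iff] at hm
  obtain ⟨b1, b2, b3⟩ := hm
  obtain ⟨c1, c2, c3⟩ := H3 m b3 i hi
  exact @H (S m i) (H2 m b2 i hi) m b1 (e i m) c1 c2 c3

/-- **the geometries of a family of contents are admissible** -/
theorem gOkF_X (ho : Ends.o = 0) (he : Ends.e = 0) (hs0 : 0 ≤ s0) (h : SeaG SB s0 S x e ok)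
    (hcut : CutG S x e ok) (P : Par6) (en : EnC) :
    GOkF SB P en ok S fun i => GX P en (fun m => S m i) (x i) (e i) :=
  gOkF_at (n := 3) (K := 3) (δ := l / 20) (x := fun m i => aend (e i m)) (by norm_num)
    (by have := l_pos; positivity)
    (by
      have := l_pos
      have h2 : l ≤ 1 := by
        unfold NUMF.l
        linarith [Real.pi_le_four]
      linarith)
    h.sea ⟨0, fun m _ i _ e1 J => ⟨rfl, rfl⟩⟩ ⟨0, fun m _ i _ r O => le_rfl⟩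
    (fun m i β => obX_nn m (x i m) (e i m) β) h.hx (h.hR ho he)
    (fun e1 he he1 J hJ => h.hEM hs0 he he1 hJ) hcut
    ⟨0, le_rfl, fun ep _ _ e1 _ _ J _ => ⟨0, fun m _ i _ r O j => by
      rw [add_zero]
      exact le_rfl⟩⟩
    ⟨0, le_rfl, 0, fun m _ i _ g => by
      rw [add_zero]
      exact le_of_eq (@seaGC_MFX _ _ (S m i) m g)⟩

/-- **the same with two letters** -/
theorem gOkF_XL (ho : Ends.o = 0) (he : Ends.e = 0) (hs0 : 0 ≤ s0) (h : SeaG SB s0 S x e ok)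
    (hcut : CutG S x e ok) (P : Par6) (en : EnC) :
    GOkF SB P en (fun (m : ℕ) (y : ι × Ix6) => ok m y.1) (fun m y => S m y.1)
      (GLU (fun i => GX P en (fun m => S m i) (x i) (e i)) fun i m σ t u τ =>
        @mNC (S m i) (sN m) m σ t u τ) :=
  gOkF_let (n := 3) (K := 3) (δ := l / 20) (x := fun m i => aend (e i m)) (by norm_num)
    (by have := l_pos; positivity)
    (by
      have := l_pos
      have h2 : l ≤ 1 := by
        unfold NUMF.l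
        linarith [Real.pi_le_four]
      linarith)
    h.sea ⟨0, fun m _ i _ e1 J => ⟨rfl, rfl⟩⟩ ⟨0, fun m _ i _ r O => le_rfl⟩
    (fun m i β => obX_nn m (x i m) (e i m) β) h.hx (h.hR ho he)
    (fun e1 he he1 J hJ => h.hEM hs0 he he1 hJ) hcut
    ⟨0, le_rfl, fun ep _ _ e1 _ _ J _ => ⟨0, fun m _ i _ r O j => by
      rw [add_zero]
      exact le_rfl⟩⟩
    ⟨0, le_rfl, 0, fun m _ i _ g => by
      rw [add_zero]
      exact le_of_eq (@seaGC_MFX _ _ (S m i) m g)⟩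

end

/-- **the curve of one geometry is in the strip** -/
theorem curG_X (SB : SeaCB) {h1 h0 : ℝ} {S : ℕ → SeaC}
    (hS : ∃ m0 : ℕ, ∀ m ≥ m0, @SeaCU SB (S m) ∧ @WinC (S m) (-(h1 * NUP1.l)) (h0 * NUP1.l))
    (P : Par6) (en : EnC) (x : (m : ℕ) → Fin m → ℂ) (e : ℕ → ℂ) : CurG h1 h0 (GX P en S x e) := by
  intro ep hep hep1 e1 he1 he11 J hJ
  obtain ⟨m1, hm1, H⟩ := curOKH he1 he11 hJ hep SB
  obtain ⟨m2, H2⟩ := hS
  refine ⟨max m1 m2, fun m hm => ?_⟩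
  exact @H (S m) (H2 m ((le_max_right _ _).trans hm)).1 h1 h0 (H2 m ((le_max_right _ _).trans hm)).2
    m ((le_max_left _ _).trans hm) m (by
      have : (0 : ℝ) ≤ m := Nat.cast_nonneg m
      linarith)

/-- **the curves of a family are in the strip** -/
theorem curGU_X (SB : SeaCB) {h1 h0 : ℝ} {S : ℕ → ι → SeaC}
    (hS : ∃ m0 : ℕ, ∀ m ≥ m0, ∀ i, @SeaCU SB (S m i) ∧
      @WinC (S m i) (-(h1 * NUP1.l)) (h0 * NUP1.l))
    (P : Par6) (en : EnC) (x : (i : ι) → (m : ℕ) → Fin m → ℂ) (e : ι → ℕ → ℂ) :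
    CurGU h1 h0 fun i => GX P en (fun m => S m i) (x i) (e i) := by
  intro ep hep hep1 e1 he1 he11 J hJ
  obtain ⟨m1, hm1, H⟩ := curOKH he1 he11 hJ hep SB
  obtain ⟨m2, H2⟩ := hS
  refine ⟨max m1 m2, fun m hm i => ?_⟩
  exact @H (S m i) (H2 m ((le_max_right _ _).trans hm) i).1 h1 h0
    (H2 m ((le_max_right _ _).trans hm) i).2 m ((le_max_left _ _).trans hm) m (by
      have : (0 : ℝ) ≤ m := Nat.cast_nonneg m
      linarith)

end PLT

end
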