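import Pool.Agent.PLT.BYCut
import Pool.Agent.PLT.BYRc
import Pool.Agent.PLT.GXFam
import Pool.Agent.PLT.CutLC

/-!
# The cutoffs of the content of a tilted direction

`1 ≤ a0 < b0`, all sizes `m`, all `D ∈ Nz (deAB a0 b0)`:

* **`cutX6_B`**, `cutB_B`: the bounds of the cutoffs at the places of the half quanta (`CutX6`) for the rows of `RB`, one
  constant and one size for all `D` (and all `ep`);
* **`cutG_B`**: the cutoffs of the one body data near the curve of the gas (`CutG`).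
-/

set_option autoImplicit false
set_option linter.unusedSectionVars false
set_option linter.unusedVariables false

noncomputable section

open Complex MeasureTheory Finset
open PLX (Fil Ends)

namespace PLT.BY

open NUP1
open NUGC.PLX (beC)
open Pa (pz qz Nz)
open PBX (ph gP)
open PHK (gO)
open PBU.PLX (T1L)
open _root_.Pool.Agent.PLX (rwq yq)

variable {a0 b0 : ℕ}

/-- the weights are at least `a0 / (a0 + b0)` -/
private theorem w_low (h0 : 1 ≤ a0) (h1 : a0 < b0) (i : Fin 2) : (a0 : ℝ) / (a0 + b0) ≤ wAB a0 b0 i := by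
  obtain ⟨hA, hAB⟩ := pos_B h0 h1
  have hB : (0 : ℝ) < b0 := hA.trans hAB
  fin_cases i
  · exact le_rfl
  · show (a0 : ℝ) / (a0 + b0) ≤ b0 / (a0 + b0)
    exact div_le_div_of_nonneg_right hAB.le (by positivity)

/-- **the cutoffs at the places of the half quanta**, one constant and one size for all `D` and `ep` -/
theorem cutX6_B [Fil] (h0 : 1 ≤ a0) (h1 : a0 < b0) : ∃ A : ℝ, 1 ≤ A ∧ ∃ m0 : ℕ, ∀ m ≥ m0,
    ∀ D ∈ Nz (deAB a0 b0), ∀ ep : ℝ, 0 ≤ ep → ep ≤ 1 / 100 → ∀ a,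
      CutX6 (rwq (xB a0 b0 m D) a) m ep A (beC ep) (gP (beC ep) [I, -I])
        (gO (T1L m) [] (rwq (xB a0 b0 m D) a)) := by
  have hl := lpos
  have hl4 := Pa.l_lt
  have hl3 := Pa.l_gt
  obtain ⟨hA, hAB⟩ := pos_B h0 h1
  have hB : (0 : ℝ) < b0 := hA.trans hAB
  have hS := seasAB hA hAB
  obtain ⟨c, hc⟩ : ∃ c, c = cAB (a0 : ℝ) b0 := ⟨_, rfl⟩
  obtain ⟨g, hg⟩ : ∃ g, g = gAB (a0 : ℝ) b0 := ⟨_, rfl⟩
  have hc0 : 0 < c := by rw [hc]; exact cAB_pos hA hAB
  have hc1 : c ≤ 1 / 50 := by rw [hc]; exact cAB_le _ _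
  have hg0 : 0 < g := by rw [hg]; exact gAB_pos hA hAB
  have hgc : g ≤ c / 4 := by rw [hc, hg]; exact gAB_c hA hAB
  have hg7 : 10 ^ 7 * g ≤ c ^ 2 := by rw [hc, hg]; exact hS.g7
  have hdel : deAB a0 b0 ≤ 1 / 1000 * l := by
    have h2 : deAB a0 b0 ≤ l / 1000 := hS.del
    linarith
  have hde' : deAB a0 b0 ≤ 1 / 20 := hS.de1
  have hsm' : 400 / ((c + -g) * l) ^ 2 * ((1 - 99 / 100) * g) ≤ (3 / 8 - 7 / 120) * l := by
    have e1 : 0 < (c + -g) * l := mul_pos (by linarith) hl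
    rw [div_mul_eq_mul_div, div_le_iff₀ (by positivity)]
    have e2 : (c / 2 * (39 / 100)) ^ 2 ≤ ((c + -g) * l) ^ 2 := by
      have e3 : c / 2 * (39 / 100) ≤ (c + -g) * l := mul_le_mul (by linarith) hl3.le (by norm_num) (by linarith)
      exact pow_le_pow_left₀ (by positivity) e3 2
    have e4 : (3 / 8 - 7 / 120) * (39 / 100) * (c / 2 * (39 / 100)) ^ 2 ≤
        (3 / 8 - 7 / 120) * l * ((c + -g) * l) ^ 2 := by
      refine mul_le_mul ?_ e2 (by positivity) (by positivity)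
      linarith
    refine le_trans ?_ e4
    nlinarith
  obtain ⟨A, hA1, N0, H⟩ := cutX6_rwq (ι := Fin 2) (de := c) (s0 := g) (lo := -g) (hi := 7 / 120) (j1 := 3 / 8)
    (ρ0 := 99 / 100) (K0 := Fil.q) (wm := a0 / (a0 + b0)) hc0.le (by linarith) (by linarith)
    (by linarith) (by norm_num) hg0.le (by linarith) (by norm_num) le_rfl (by norm_num) hsm' (by positivity)
    (Nat.cast_nonneg _)
  refine ⟨A, hA1, N0, fun m hm D hD ep he0 he1 a => ?_⟩
  have hD' := DB_mem (a0 := a0) (b0 := b0) (m := m) hS.de0 hD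
  have hox := (hS.at' _ hD').ox (-g) (7 / 120) (by rw [hg]; linarith) (by rw [← hc]; linarith) le_rfl
    (by norm_num)
  rw [← hc, ← hg] at hox
  have hq := qz_low hA hB hde' hD' hS.de0
  exact @H (seaAB a0 b0 (DB a0 b0 m D)) (wAB a0 b0) (XAB a0 b0 (DB a0 b0 m D)) hox (w_low h0 h1)
    (spread_B h0 h1 hS.de0 hdel hD') (half_w h0 h1 (by linarith)) m (xB a0 b0 m D) (fun _ => 0)
    (fun a => cntX_B h0 a) hm ep he0 (by linarith) a

/-- **the cutoffs of the record `RB`** -/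
theorem cutB_B [Fil] (h0 : 1 ≤ a0) (h1 : a0 < b0) : ∀ ep : ℝ, 0 < ep → ep ≤ 1 / 100 →
    ∃ A : ℝ, 1 ≤ A ∧ ∃ m0 : ℕ, ∀ m ≥ m0, ∀ D ∈ Nz (deAB a0 b0),
      CutX6 (RB a0 b0 ep m D).x m ep A (RB a0 b0 ep m D).β (RB a0 b0 ep m D).g (RB a0 b0 ep m D).g0 ∧
      CutX6 (RB a0 b0 ep m D).y m ep A (RB a0 b0 ep m D).β (RB a0 b0 ep m D).g' (RB a0 b0 ep m D).g0' := by
  obtain ⟨A, hA, m0, H⟩ := cutX6_B h0 h1
  exact fun ep he he1 => ⟨A, hA, m0, fun m hm D hD => ⟨H m hm D hD ep he.le he1 true,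
    H m hm D hD ep he.le he1 false⟩⟩

/-! ### the cutoffs near the curve of the gas -/

private theorem inv_ch {s g : ℝ} (hg : 0 ≤ g) (hg1 : g ≤ 1 / 10) (hs : |s| ≤ g) (t : ℝ) :
    1 / NUMF.ch (t - s) ≤ 4 * Real.exp (-(8 / 3) * |t|) := by
  have h1 : Real.exp (8 / 3 * |t - s|) / 2 ≤ NUMF.ch (t - s) := by
    unfold NUMF.ch
    rw [← Real.cosh_abs, abs_mul, abs_of_pos (by norm_num : (0 : ℝ) < 8 / 3), Real.cosh_eq]
    have := Real.exp_pos (-(8 / 3 * |t - s|))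
    linarith
  have h2 : Real.exp (8 / 3 * |t|) / 2 ≤ Real.exp (8 / 3 * |t - s|) := by
    have h3 : |t| ≤ |t - s| + g := by
      have := abs_add_le (t - s) s
      rw [sub_add_cancel] at this
      linarith
    have h4 : Real.exp (8 / 3 * |t|) ≤ Real.exp (8 / 3 * |t - s|) * Real.exp (8 / 3 * g) := by
      rw [← Real.exp_add]
      exact Real.exp_le_exp.2 (by linarith)
    have h5 : Real.exp (8 / 3 * g) ≤ 2 := by
      have h6 : Real.exp (8 / 3 * g) ≤ Real.exp (4 / 15) := Real.exp_le_exp.2 (by linarith)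
      have h7 : Real.exp (4 / 15) ≤ 2 := by
        have h8 := Real.exp_bound_div_one_sub_of_interval (x := 4 / 15) (by norm_num) (by norm_num)
        refine h8.trans ?_
        norm_num
      exact h6.trans h7
    have h9 := Real.exp_pos (8 / 3 * |t - s|)
    nlinarith
  have h3 : Real.exp (8 / 3 * |t|) / 4 ≤ NUMF.ch (t - s) := by linarith
  have hE := Real.exp_pos (8 / 3 * |t|)
  calc 1 / NUMF.ch (t - s) ≤ 1 / (Real.exp (8 / 3 * |t|) / 4) :=
        one_div_le_one_div_of_le (by positivity) h3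
    _ = 4 * Real.exp (-(8 / 3) * |t|) := by
        rw [neg_mul, Real.exp_neg]
        field_simp

/-- **the cutoffs of the one body data near the curve of the gas** -/
theorem cutG_B [Fil] [Ends] (ho : Ends.o = 0) (he : Ends.e = 0) (h0 : 1 ≤ a0) (h1 : a0 < b0) :
    CutG (fun (m : ℕ) (i : {D // D ∈ Nz (deAB a0 b0)}) => seaAB a0 b0 (DB a0 b0 m i))
      (fun i m => xB a0 b0 m i) (fun i m => eB a0 b0 m i) fun _ _ => True := by
  intro ep hep hep1 e1 he1 he2 J hJ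
  have hl := lpos
  have hlN : (NUMF.l : ℝ) = l := rfl
  have hl3 := Pa.l_gt
  obtain ⟨hA, hAB⟩ := pos_B h0 h1
  have hB : (0 : ℝ) < b0 := hA.trans hAB
  have hS := seasAB hA hAB
  obtain ⟨c, hc⟩ : ∃ c, c = cAB (a0 : ℝ) b0 := ⟨_, rfl⟩
  obtain ⟨g, hg⟩ : ∃ g, g = gAB (a0 : ℝ) b0 := ⟨_, rfl⟩
  have hc0 : 0 < c := by rw [hc]; exact cAB_pos hA hAB
  have hc1 : c ≤ 1 / 50 := by rw [hc]; exact cAB_le _ _
  have hg0 : 0 < g := by rw [hg]; exact gAB_pos hA hAB
  have hg1 : g ≤ 1 / 1000 := by rw [hg]; exact gAB_le hA hAB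
  have hgc : g ≤ c / 4 := by rw [hc, hg]; exact gAB_c hA hAB
  have hg7 : 10 ^ 7 * g ≤ c ^ 2 := by rw [hc, hg]; exact hS.g7
  have hcl : 0 < c * l := by positivity
  have hgl : g * l ≤ c / 4 * l := mul_le_mul_of_nonneg_right hgc hl.le
  have hc50 : c * l ≤ 1 / 50 * l := mul_le_mul_of_nonneg_right hc1 hl.le
  obtain ⟨C1, hC1⟩ : ∃ C1, C1 = 2 / (1 - Real.cos (Real.pi / 3 * (c / 2))) := ⟨_, rfl⟩
  have hC10 : 0 ≤ C1 := by
    rw [hC1]
    have := Real.cos_le_one (Real.pi / 3 * (c / 2))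
    exact div_nonneg (by norm_num) (by linarith)
  have hq : (0 : ℝ) ≤ Fil.q := Nat.cast_nonneg _
  obtain ⟨C0, hC0, m0, H⟩ := cutBC_of (SBAB a0 b0) hep hep1 he1 he2 hJ 2
    (K0 := 2 * (Fil.q * (C1 * 4))) (by positivity) hc0 (by linarith) hg0.le (by linarith)
    (by linarith : g ≤ 1)
  refine ⟨C0, hC0, m0, fun m hm i _ => ?_⟩
  have hD' := DB_mem (a0 := a0) (b0 := b0) (m := m) hS.de0 i.2
  have hat := hS.at' _ hD'
  let _ : SeaC := seaAB a0 b0 (DB a0 b0 m i)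
  have hu : SeaCU (SBAB a0 b0) := hat.su
  have hox : SeaOX c g (-g) (7 / 120) (wAB a0 b0) (XAB a0 b0 (DB a0 b0 m i)) := by
    have h2 := hat.ox (-g) (7 / 120) (by rw [hg]; linarith) (by rw [← hc]; linarith) le_rfl (by norm_num)
    rw [← hc, ← hg] at h2
    exact h2
  have hlen : ∀ a, (List.ofFn (rwq (xB a0 b0 m i) a)).length = Fil.ne a m := by
    intro a
    rw [List.length_ofFn, Pool.Agent.PLX.cond_eq]
    unfold Fil.ne
    rw [he, ho, Nat.sub_zero, Nat.add_zero]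
    cases a <;> rfl
  have hmem : ∀ a, ∀ y ∈ List.ofFn (rwq (xB a0 b0 m i) a), ∃ k, y = XAB a0 b0 (DB a0 b0 m i) k :=
    fun a => (cntX_B h0 a).mem
  have hpl : ∀ a, ∀ y ∈ List.ofFn (rwq (xB a0 b0 m i) a), -((1 - c) * l) ≤ y.re ∧ y.re ≤ l / 2 ∧
      |y.im| ≤ g := by
    intro a y hy
    obtain ⟨k, rfl⟩ := hmem a y hy
    have e2 := hox.up k
    rw [hlN] at e2
    exact ⟨hox.lo k, by nlinarith, hox.im k⟩
  have heta : ∀ t, -(g * l) ≤ Cv.eta t ∧ Cv.eta t ≤ 7 / 120 * l := fun t => by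
    have h2 : -(gAB a0 b0 * NUMF.l) ≤ (seaAB a0 b0 (DB a0 b0 m i)).eta t := hat.ge t
    rw [← hg] at h2
    exact ⟨h2, hat.le t⟩
  have hV : ∀ t k, |Cv.eta t + (XAB a0 b0 (DB a0 b0 m i) k).re| ≤ (1 - c / 2) * l := by
    intro t k
    obtain ⟨a1, a2⟩ := heta t
    have b1 := hox.lo k
    have b2 := hox.up k
    rw [hlN] at b1 b2
    rw [abs_le]
    constructor
    · linarith
    · linarith
  refine H m hm (obX m (xB a0 b0 m i) (eB a0 b0 m i) (4 / 3 * (1 - ep)))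
    (fun a => List.ofFn (rwq (xB a0 b0 m i) a))
    (fun a => List.ofFn (rwq (xB a0 b0 m i) a) ++ [I, -I]) (fun _ => [I, -I]) (fun a => rfl)
    (fun a => ⟨List.Perm.refl _, hpl a, le_rfl, ?_, ?_, ?_⟩) (fun a => ⟨?_, ?_, ?_⟩) ?_ ?_
  · intro y hy
    obtain ⟨y1, y2⟩ := ptI hy
    rw [y1]
    exact ⟨by nlinarith, by positivity, y2⟩
  · rw [hlen]
    omega
  · rw [hlen]
    omega
  · intro t
    obtain ⟨a1, a2⟩ := heta t
    rw [abs_le]
    constructor <;> nlinarith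
  · intro t
    have h5 := scal_of (c := l / 8 + g) (by positivity) (fun t => Cv.hasDerivAt_eta t)
      (fun t => by rw [hg]; exact hat.sc t) hep hep1 t
    refine h5.trans ?_
    have h6 : 100 / 99 * (l / 8 + g) ≤ l / 7 := by linarith
    have h7 := mul_le_mul_of_nonneg_right h6 hep.le
    linarith
  · intro t
    have h5 := (cntX_B (m := m) (D := i) h0 a).alg hox.mass (f := fun y => Ag (Cv.eta t + y.re) (t - y.im))
      (L := 0) (C := C1 * (4 * Real.exp (-(8 / 3) * |t|))) fun k => by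
        rw [sub_zero]
        have h6 := Ag_bd (de := c / 2) (by positivity) (by linarith) (hV t k) (t - (XAB a0 b0 (DB a0 b0 m i) k).im)
        rw [← hC1] at h6
        refine h6.trans ?_
        rw [← mul_one_div]
        exact mul_le_mul_of_nonneg_left (inv_ch hg0.le (by linarith) (hox.im k) t) hC10
    rw [hox.lev t, mul_zero, mul_zero, add_zero, zero_sub, abs_neg, Fintype.card_fin] at h5
    have h6 := (abs_le.1 h5).1
    refine le_trans (le_of_eq ?_) h6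
    push_cast
    ring
  · intro a t y hy
    obtain ⟨k, rfl⟩ := hmem a y hy
    have h2 := (abs_le.1 (hV t k)).1
    show -l < _
    nlinarith
  · intro t
    have h2 := (heta t).1
    rw [hlN]
    linarith

end PLT.BY

end
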