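import Pool.Agent.PHK.Oth06
import Pool.Agent.PHK.DecZ6

/-!
# The state sum over an abstract geometry, any point `P`: masses of all classes

As `PHK/Oth06`, without gain: every class, `W W` included, has the mass `m ^ ε exp (EM m)`.

* `zPtP`, `zPtDP`: the integrands on the lines of `P`; `sValP`, `sValDP`: the sums over the numbers of quanta;
* **`SumBdP`**: the bounds of the sums over the numbers at fixed heights; **`ClOkY`**: own and direct factors,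
  extra factors `≤ 1`, phases `-3 l` or `≥ 5 l`;
* `int_allY`: the integral over the heights; **`othY`**.
-/

set_option autoImplicit false
set_option linter.unusedSectionVars false

noncomputable section

open Complex MeasureTheory Finset
open scoped ENNReal
open PLX (Fil Ends)

namespace PLT

open NUO NUP1 NUCR NUP1S NUP1S.Ab NUP1S.AbC NUP1S.AbG NURow NUP1.Leg NUGC NUGC.PLX
open PHK
open PBR.PLX (Ch6 okC6)
open PBO.PLX (LtS QL6 QL6_nonneg pow_comb6 cls_val_le6)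
open PBQ.PLX (KD QP QP_nonneg PwOk pair_le6 FM FM_nonneg lint_cls6 KC KC_nonneg OwnDLe QGD)

/-! ### sums over the numbers, lines of `P` -/

/-- the sum over the numbers of quanta of the moduli of the values of a class, lines of `P` -/
def sValP (P : Par6) (K : KD) (N e : ℕ) (t t' : HT) : ℝ := ∑ n ∈ range (N + 1),
  ‖(K.cl t t').val (K.Z true) (K.Z false) (51 / 100 * l) n (n + e) (PHK.lX6 P) (PHK.lY6 P)‖

/-- the same for D1 (`o = true`), D1' -/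
def sValDP (P : Par6) (K : KD) (kD : Bool → ℂ → ℂ) (N e : ℕ) (o : Bool) : ℝ :=
  ∑ n ∈ range (N + 1),
    ‖(cDo o (kD o)).val (K.Z true) (K.Z false) (51 / 100 * l) n (n + e) (PHK.lX6 P) (PHK.lY6 P)‖

section fil

variable [Fil] [Ends]

/-- the integrand of a class with `n + htN` quanta X at the heights `y` -/
def zPtP (P : Par6) (K : KD) (m : ℕ) (t t' : HT) (y : ℝ × ℝ) (n : ℕ) : ℂ :=
  (K.cl t t').Z (K.Z true) (K.Z false) (51 / 100 * l) (n + htN (Fil.xe m) t t')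
    (n + htN (Fil.xe m) t t' + Fil.xe m) (PHK.lX6 P) (PHK.lY6 P) (vl (htL t) y.1) (vl (htL t') y.2)

/-- the same for D1, D1' -/
def zPtDP (P : Par6) (K : KD) (kD : Bool → ℂ → ℂ) (m : ℕ) (o : Bool) (y : ℝ) (n : ℕ) : ℂ :=
  (cDo o (kD o)).Z (K.Z true) (K.Z false) (51 / 100 * l) n (n + Fil.xe m) (PHK.lX6 P) (PHK.lY6 P)
    (vl (-(11 / 4) * l) y)

/-- **the bounds of the sums over the numbers of quanta** at fixed heights, uniformly in the index: weights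
`cw i ep m t t' y u` of the choices, mass `EM`, sea exponents `MF` of D1, D1' -/
def SumBdP {ι : Type*} (P : Par6) (T : ι → LtS) (EM : ι → ℕ → ℝ)
    (MF : ι → ℕ → Bool → NUSp.Cl → ℂ → ℝ) (K : ι → ℝ → ℕ → KD) (kD : ι → ℝ → ℕ → Bool → ℂ → ℂ)
    (cw : ι → ℝ → ℕ → HT → HT → ℝ × ℝ → Ch6 × Ch6 → ℝ) : Prop :=
  ∀ ρ : ℝ, 0 < ρ → ∃ κ0 : ℝ, 0 < κ0 ∧ κ0 ≤ 1 / 100 ∧ ∀ ep : ℝ, 0 < ep → ep ≤ κ0 →
    ∃ J : ℝ, 0 ≤ J ∧ ∃ Cst : ℝ, 0 ≤ Cst ∧ ∃ m0 : ℕ, ∀ m : ℕ, m0 ≤ m → ∀ i : ι,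
      (∀ t t' : HT, ∀ᵐ y : ℝ × ℝ, ∑ n ∈ range (2 * m + 1), ‖zPtP P (K i ep m) m t t' y n‖ ≤
        ∑ u : Ch6 × Ch6, cw i ep m t t' y u *
          QL6 (T i) ep ep J m (Cst * (m : ℝ) ^ ρ * Real.exp (EM i m)) t t' y u) ∧
      (∀ o : Bool, ∀ᵐ y : ℝ, ∑ n ∈ range (2 * m + 1), ‖zPtDP P (K i ep m) (kD i ep m) m o y n‖ ≤
        QGD (MF i) m ep ep J (Cst * (m : ℝ) ^ ρ * Real.exp (EM i m)) o y)

end fil

/-- **own and direct factors of all classes**, no gain, uniformly in the index: weights `cw i ep m t t' y u` of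
the choices -/
structure ClOkY {ι : Type*} (T : ι → LtS) (MF : ι → ℕ → Bool → NUSp.Cl → ℂ → ℝ)
    (K : ι → ℝ → ℕ → KD) (kD : ι → ℝ → ℕ → Bool → ℂ → ℂ)
    (cw : ι → ℝ → ℕ → HT → HT → ℝ × ℝ → Ch6 × Ch6 → ℝ) : Prop where
  cw0 : ∀ i ep m t t' y u, 0 ≤ cw i ep m t t' y u
  cwo : ∀ i ep m t t' y u, cw i ep m t t' y u ≠ 0 → okC6 t u.1 ∧ okC6 t' u.2
  own : ∀ ep : ℝ, 0 < ep → ep ≤ 1 / 100 → ∃ C CG : ℝ, 0 ≤ C ∧ 0 ≤ CG ∧ ∃ m0 : ℕ, ∀ m ≥ m0,
    ∀ (i : ι) (t t' : HT), PwOk m ep C CG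
      (fun y => ((K i ep m).cl t t').pre (vl (htL t) y.1) (vl (htL t') y.2)) (cw i ep m t t')
      (fun u τ => (T i).M m true t u.1 τ) (fun u τ => (T i).M m false t' u.2 τ)
      (fun u : Ch6 × Ch6 => (T i).q t u.1) (fun u => (T i).q t' u.2)
      (fun u => (T i).f ep m t u.1) (fun u => (T i).f ep m t' u.2)
  ownD : ∀ ep : ℝ, 0 < ep → ep ≤ 1 / 100 → ∃ C : ℝ, 0 ≤ C ∧ ∃ m0 : ℕ, ∀ m ≥ m0,
    ∀ i : ι, OwnDLe (kD i ep m) (MF i) m C
  f0 : ∀ i ep m t u τ, 0 ≤ (T i).f ep m t u τ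
  f1 : ∀ i ep m t u τ, (T i).f ep m t u τ ≤ 1
  ph : ∀ i t u, okC6 t u → (T i).ph t u = -(3 * l) ∨ 5 * l ≤ (T i).ph t u

/-! ### the integral over the heights -/

/-- the integrand of a pair of phases is measurable -/
theorem measurable_FMY (ep e1 J : ℝ) (k : ℕ) (φ φ' : ℝ) : Measurable fun y : ℝ × ℝ =>
    ENNReal.ofReal (FM ep e1 k y * Real.exp (-PBO.PLX.gnP e1 J k φ φ' y)) := by
  have hS : ∀ T : ℝ, MeasurableSet {y : ℝ × ℝ | |y.1| ≤ T ∧ |y.2| ≤ T} := fun T => by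
    have a1 : MeasurableSet {y : ℝ × ℝ | |y.1| ≤ T} := measurableSet_le (by fun_prop) measurable_const
    have a2 : MeasurableSet {y : ℝ × ℝ | |y.2| ≤ T} := measurableSet_le (by fun_prop) measurable_const
    exact a1.inter a2
  have h1 : ∀ T L : ℝ, Measurable (fr T L) := fun T L =>
    Measurable.ite (hS T) measurable_const measurable_const
  have h2 : ∀ T : ℝ, Measurable (MQ T) := fun T => by
    refine Measurable.ite (hS T) ?_ ?_
    · unfold QI0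
      fun_prop
    · exact (NUGC.MJ_cont T).measurable
  have hc : Continuous (NUGC.PLX.hC e1 J k) := (NUGC.PLX.hC_contDiff e1 J k 1).continuous
  have h3 : Measurable fun y : ℝ × ℝ => PBO.PLX.gnP e1 J k φ φ' y := by
    unfold PBO.PLX.gnP
    fun_prop
  unfold PBQ.PLX.FM
  exact (((h1 _ _).mul (h2 _)).mul (Real.measurable_exp.comp h3.neg)).ennreal_ofReal

section int

variable {ep e1 J : ℝ} {k : ℕ} (he : 0 < e1) (he1 : e1 ≤ 1 / 100) (hep : 0 ≤ ep)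
  (hep1 : ep ≤ 1 / 100) (hJ : 0 ≤ J) (hT : 20 ≤ Tb (Real.log k))
include he he1 hep hep1 hJ hT

/-- constant of the masses -/
def KY (δ : ℝ) : ℝ := 4 * (δ⁻¹) ^ 2 * Real.exp 20 + 3000 * (δ⁻¹) ^ 2 * Real.exp 6 + KC δ

omit he he1 hep hep1 hJ hT in
theorem KY_nonneg (δ : ℝ) : 0 ≤ KY δ := by
  have := KC_nonneg δ
  unfold KY
  positivity

/-- **the mass of one pair of phases** -/
theorem lint_FMY {δ : ℝ} (hδ : 0 < δ) (hδ1 : δ ≤ 1 / 4) {φ φ' : ℝ}
    (h : φ = -(3 * l) ∨ 5 * l ≤ φ) (h' : φ' = -(3 * l) ∨ 5 * l ≤ φ') :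
    ∫⁻ y, ENNReal.ofReal (FM ep e1 k y * Real.exp (-PBO.PLX.gnP e1 J k φ φ' y)) ≤
      ENNReal.ofReal (KY δ * Real.exp ((6 * e1 + 4 * ep + 4 * δ) * Tb (Real.log k))) := by
  have hl := NUP1.Bd.l_pos
  have hT0 : 0 ≤ Tb (Real.log k) := by linarith
  have hKC := KC_nonneg δ
  have c1 : 0 ≤ (6 * e1 + 4 * ep + 4 * δ) * Tb (Real.log k) := by positivity
  have hE : 1 ≤ Real.exp ((6 * e1 + 4 * ep + 4 * δ) * Tb (Real.log k)) := Real.one_le_exp c1
  have hx : Real.exp (-((7 / 6 - e1 - 2 * δ) * Tb (Real.log k))) ≤ 1 := by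
    refine Real.exp_le_one_iff.2 ?_
    have : 0 ≤ (7 / 6 - e1 - 2 * δ) * Tb (Real.log k) := mul_nonneg (by linarith) hT0
    linarith
  by_cases hc : 5 * l ≤ φ ∨ 5 * l ≤ φ'
  · have hφ : -(3 * l) ≤ φ := by
      rcases h with h | h <;> linarith
    have hφ' : -(3 * l) ≤ φ' := by
      rcases h' with h | h <;> linarith
    have key := lint_cls6 (ι := Unit) he he1 hep hep1 hJ hT (ph := fun _ => φ) (ph' := fun _ => φ')
      (f := fun _ _ => 1) (f' := fun _ _ => 1) hδ hδ1 (fun _ _ => zero_le_one) (fun _ _ => le_rfl)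
      (fun _ _ => zero_le_one) (fun _ _ => le_rfl) (s := univ) (fun _ _ => hφ) (fun _ _ => hφ')
      (fun _ _ => hc.imp (fun h => Or.inl h) fun h => Or.inl h)
    simp only [Finset.univ_unique, Finset.sum_singleton, one_mul, Fintype.card_unit,
      Nat.cast_one] at key
    refine key.trans (ENNReal.ofReal_le_ofReal ?_)
    have h1 : KC δ * Real.exp (-((7 / 6 - e1 - 2 * δ) * Tb (Real.log k))) ≤ KC δ * 1 :=
      mul_le_mul_of_nonneg_left hx hKC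
    have h2 : KC δ ≤ KY δ := by
      unfold KY
      have : 0 ≤ 4 * (δ⁻¹) ^ 2 * Real.exp 20 + 3000 * (δ⁻¹) ^ 2 * Real.exp 6 := by positivity
      linarith
    calc _ ≤ KC δ * 1 := h1
      _ ≤ KY δ * 1 := by linarith
      _ ≤ _ := mul_le_mul_of_nonneg_left hE (KY_nonneg δ)
  · have e1' : φ = -(3 * l) := h.resolve_right fun h0 => hc (Or.inl h0)
    have e2' : φ' = -(3 * l) := h'.resolve_right fun h0 => hc (Or.inr h0)
    subst e1' e2'
    have key := PBO.PLX.cls_ww he he1 hJ hT hδ hδ1 hep hep1 (T := TW ep e1 k) rfl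
      (S := Set.univ) (κ := 0) MeasurableSet.univ fun z _ => by positivity
    rw [Measure.restrict_univ] at key
    refine key.trans (ENNReal.ofReal_le_ofReal ?_)
    have e3 : -(0 - (6 * e1 + 4 * ep + 4 * δ) * Tb (Real.log k)) =
        (6 * e1 + 4 * ep + 4 * δ) * Tb (Real.log k) := by ring
    rw [e3]
    obtain ⟨E, hEE⟩ : ∃ E, E = Real.exp ((6 * e1 + 4 * ep + 4 * δ) * Tb (Real.log k)) := ⟨_, rfl⟩
    rw [← hEE] at hE ⊢
    have h3 : 3000 * (δ⁻¹) ^ 2 * Real.exp 6 * Real.exp (-((7 / 6 - e1 - 2 * δ) * Tb (Real.log k))) ≤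
        3000 * (δ⁻¹) ^ 2 * Real.exp 6 * E :=
      mul_le_mul_of_nonneg_left (hx.trans hE) (by positivity)
    have h4 : 0 ≤ KC δ * E := mul_nonneg hKC (by linarith)
    unfold KY
    nlinarith

variable {ι : Type*} [Fintype ι] {q q' ph ph' : ι → ℝ} {f f' : ι → ℝ → ℝ}
  {C CG A : ℝ} {pre : ℝ × ℝ → ℂ} {W : ℝ × ℝ → ι → ℝ} {M M' : ι → ℝ → ℝ}

/-- **the integral of a class** over the heights, phases `-3 l` or `≥ 5 l` -/
theorem int_allY (hC : 0 ≤ C) (hCG : 0 ≤ CG) (hA : 0 ≤ A)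
    (hW : PwOk k ep C CG pre W M M' q q' f f') (f0 : ∀ u τ, 0 ≤ f u τ) (f1 : ∀ u τ, f u τ ≤ 1)
    (f0' : ∀ u τ, 0 ≤ f' u τ) (f1' : ∀ u τ, f' u τ ≤ 1) {δ : ℝ} (hδ : 0 < δ) (hδ1 : δ ≤ 1 / 4)
    {s : Finset ι} (hs : ∀ u, u ∉ s → ∀ y, W y u = 0) (hW0 : ∀ y u, 0 ≤ W y u)
    (hφ : ∀ u ∈ s, ph u = -(3 * l) ∨ 5 * l ≤ ph u)
    (hφ' : ∀ u ∈ s, ph' u = -(3 * l) ∨ 5 * l ≤ ph' u) :
    ∫⁻ y, ‖pre y‖ₑ * ENNReal.ofReal (∑ u, W y u * QP k ep e1 J A M M' q q' ph ph' y u) ≤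
      ENNReal.ofReal (A * (C * C * CG) * (Fintype.card ι * KY δ) *
        Real.exp ((6 * e1 + 4 * ep + 4 * δ) * Tb (Real.log k))) := by
  have hB : 0 ≤ A * (C * C * CG) := by positivity
  obtain ⟨E, hE⟩ : ∃ E, E = Real.exp ((6 * e1 + 4 * ep + 4 * δ) * Tb (Real.log k)) := ⟨_, rfl⟩
  have hE0 : 0 ≤ E := by rw [hE]; exact (Real.exp_pos _).le
  have hKY := KY_nonneg δ
  rw [← hE]
  have h1 : ∀ y, ‖pre y‖ₑ * ENNReal.ofReal (∑ u, W y u * QP k ep e1 J A M M' q q' ph ph' y u) ≤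
      ∑ u ∈ s, ENNReal.ofReal (A * (C * C * CG)) *
        ENNReal.ofReal (FM ep e1 k y * Real.exp (-PBO.PLX.gnP e1 J k (ph u) (ph' u) y)) := by
    intro y
    rw [← Finset.sum_subset (Finset.subset_univ s) (fun u _ hu => by rw [hs u hu y, zero_mul]),
      ENNReal.ofReal_sum_of_nonneg fun u _ => mul_nonneg (hW0 y u) (QP_nonneg hA _ _ _ _ _ _ _ _),
      Finset.mul_sum]
    refine Finset.sum_le_sum fun u _ => ?_
    rw [← ofReal_norm, ← ENNReal.ofReal_mul (norm_nonneg _), ← ENNReal.ofReal_mul hB]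
    refine ENNReal.ofReal_le_ofReal ?_
    refine (pair_le6 hC hCG hW f0 f0' hep hep1 he.le hA ph ph' y u).trans ?_
    refine mul_le_mul_of_nonneg_left (mul_le_mul_of_nonneg_left ?_ (FM_nonneg _ _ _ _)) hB
    have ff : f u y.1 * f' u y.2 ≤ 1 := mul_le_one₀ (f1 _ _) (f0' _ _) (f1' _ _)
    exact mul_le_of_le_one_left (Real.exp_pos _).le ff
  refine (lintegral_mono h1).trans ?_
  rw [lintegral_finsetSum' _ fun u _ => ?_]
  · have h2 : ∀ u ∈ s, ∫⁻ y, ENNReal.ofReal (A * (C * C * CG)) *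
        ENNReal.ofReal (FM ep e1 k y * Real.exp (-PBO.PLX.gnP e1 J k (ph u) (ph' u) y)) ≤
        ENNReal.ofReal (A * (C * C * CG) * (KY δ * E)) := by
      intro u hu
      rw [lintegral_const_mul' _ _ ENNReal.ofReal_ne_top, ENNReal.ofReal_mul hB]
      refine mul_le_mul' le_rfl ?_
      rw [hE]
      exact lint_FMY he he1 hep hep1 hJ hT hδ hδ1 (hφ u hu) (hφ' u hu)
    refine (Finset.sum_le_sum h2).trans ?_
    rw [Finset.sum_const, nsmul_eq_mul]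
    rw [← ENNReal.ofReal_natCast, ← ENNReal.ofReal_mul (Nat.cast_nonneg _)]
    refine ENNReal.ofReal_le_ofReal ?_
    have h3 : (s.card : ℝ) ≤ Fintype.card ι := by exact_mod_cast s.card_le_univ
    calc (s.card : ℝ) * (A * (C * C * CG) * (KY δ * E))
        ≤ Fintype.card ι * (A * (C * C * CG) * (KY δ * E)) :=
          mul_le_mul_of_nonneg_right h3 (by positivity)
      _ = _ := by ring
  · exact ((measurable_FMY ep e1 J k (ph u) (ph' u)).const_mul _).aemeasurable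

end int

/-- one power of `m` -/
theorem pow_Y {m : ℕ} (hm : 1 ≤ m) {B x α y : ℝ} (hB : 0 ≤ B) (h : α + 3 / 8 * x ≤ y) :
    B * (m : ℝ) ^ α * Real.exp (x * Tb (Real.log m)) ≤ B * (m : ℝ) ^ y := by
  have key := pow_comb6 hm (B := B) (x := -x) (α := α) (y := y) hB (by linarith)
  have e : -(-x * Tb (Real.log m)) = x * Tb (Real.log m) := by ring
  rwa [e] at key

/-- **the masses of all classes over a geometry** -/
theorem othY [Fil] [Ends] {ι : Type*} {P : Par6} {T : ι → LtS} {EM : ι → ℕ → ℝ}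
    {MF : ι → ℕ → Bool → NUSp.Cl → ℂ → ℝ} {K : ι → ℝ → ℕ → KD} {kD : ι → ℝ → ℕ → Bool → ℂ → ℂ}
    {cw : ι → ℝ → ℕ → HT → HT → ℝ × ℝ → Ch6 × Ch6 → ℝ} (hP : SumBdP P T EM MF K kD cw)
    (hK : ClOkY T MF K kD cw) : ∀ ε : ℝ, 0 < ε → ∃ ep0 : ℝ, 0 < ep0 ∧ ep0 ≤ 1 / 100 ∧
      ∀ ep : ℝ, 0 < ep → ep ≤ ep0 → ∃ (Cst : ℝ) (m0 : ℕ), 0 ≤ Cst ∧ 1 ≤ m0 ∧ ∀ m : ℕ, m0 ≤ m →
        ∀ i : ι, (∀ t t' : HT, sValP P (K i ep m) (2 * m) (Fil.xe m) t t' ≤
            Cst * (m : ℝ) ^ ε * Real.exp (EM i m)) ∧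
        (∀ o : Bool, sValDP P (K i ep m) (kD i ep m) (2 * m) (Fil.xe m) o ≤
            Cst * (m : ℝ) ^ ε * Real.exp (EM i m)) := by
  intro ε hε
  obtain ⟨δ, hδ⟩ : ∃ δ : ℝ, δ = min (ε / 8) (1 / 4) := ⟨_, rfl⟩
  have hδ0 : 0 < δ := by rw [hδ]; exact lt_min (by positivity) (by norm_num)
  have hδ1 : δ ≤ 1 / 4 := by rw [hδ]; exact min_le_right _ _
  have hδε : δ ≤ ε / 8 := by rw [hδ]; exact min_le_left _ _
  obtain ⟨κ0, hκ0, hκ1, hP⟩ := hP δ hδ0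
  refine ⟨min κ0 (ε / 32), lt_min hκ0 (by positivity), (min_le_left _ _).trans hκ1,
    fun ep hep0 hep => ?_⟩
  have hepκ : ep ≤ κ0 := hep.trans (min_le_left _ _)
  have hep2 : ep ≤ 1 / 100 := hepκ.trans hκ1
  have hCe : ep ≤ ε / 32 := hep.trans (min_le_right _ _)
  obtain ⟨J, hJ0, Cst, hCst, M0, hM0⟩ := hP ep hep0 hepκ
  obtain ⟨Cm, CG, hCm0, hCG, n1, hown⟩ := hK.own ep hep0 hep2
  obtain ⟨Cd, hCd, n3, hownD⟩ := hK.ownD ep hep0 hep2
  have hlog : Filter.Tendsto (fun m : ℕ => Real.log m) Filter.atTop Filter.atTop :=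
    Real.tendsto_log_atTop.comp tendsto_natCast_atTop_atTop
  obtain ⟨n5, hn5⟩ := Filter.eventually_atTop.1 (hlog.eventually_ge_atTop 54)
  -- the constants
  obtain ⟨D1, hD1⟩ : ∃ D1 : ℝ, D1 = Cst * (Cm * Cm * CG) := ⟨_, rfl⟩
  have hD10 : 0 ≤ D1 := by rw [hD1]; (clear * - hCst hCm0 hCG; positivity)
  have hKY := KY_nonneg δ
  obtain ⟨KK, hKK⟩ : ∃ KK : ℝ, KK = Fintype.card (Ch6 × Ch6) * KY δ := ⟨_, rfl⟩
  have hKK0 : 0 ≤ KK := by rw [hKK]; positivity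
  obtain ⟨R1, hR1⟩ : ∃ R1 : ℝ, R1 = D1 * KK := ⟨_, rfl⟩
  obtain ⟨R2, hR2⟩ : ∃ R2 : ℝ, R2 = Cd * Cst * (40 / 3 * Real.exp 12) := ⟨_, rfl⟩
  have hR10 : 0 ≤ R1 := by rw [hR1]; positivity
  have hR20 : 0 ≤ R2 := by rw [hR2]; positivity
  refine ⟨R1 + R2, max (max M0 n1) (max n3 (max n5 1)), by (clear * - hR10 hR20; positivity),
    (le_max_right n5 1).trans ((le_max_right _ _).trans (le_max_right _ _)), fun m hm i => ?_⟩
  obtain ⟨hma, hmb⟩ := max_le_iff.1 hm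
  obtain ⟨g0, g2⟩ := max_le_iff.1 hma
  obtain ⟨g4, hmb2⟩ := max_le_iff.1 hmb
  obtain ⟨g6, gm⟩ := max_le_iff.1 hmb2
  have hmR : (0 : ℝ) < m := by exact_mod_cast gm
  have hmR1 : (1 : ℝ) ≤ m := by exact_mod_cast gm
  have gL : (54 : ℝ) ≤ Real.log m := hn5 m g6
  have hT : 20 ≤ Tb (Real.log m) := by
    unfold Tb
    clear * - gL
    linarith
  have hT0 : 0 ≤ Tb (Real.log m) := by (clear * - hT; linarith)
  obtain ⟨hcl, hclD⟩ := hM0 m g0 i
  have hO := hown m g2 i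
  have hOD := hownD m g4 i
  obtain ⟨X, hX⟩ : ∃ X : ℝ, X = Real.exp (EM i m) := ⟨_, rfl⟩
  have hX0 : 0 ≤ X := by rw [hX]; exact (Real.exp_pos _).le
  rw [← hX] at hcl hclD ⊢
  obtain ⟨A, hA⟩ : ∃ A : ℝ, A = Cst * (m : ℝ) ^ δ * X := ⟨_, rfl⟩
  have hA0 : 0 ≤ A := by rw [hA]; positivity
  rw [← hA] at hcl hclD
  obtain ⟨e, he⟩ : ∃ e : ℕ, e = Fil.xe m := ⟨_, rfl⟩
  unfold zPtP at hcl
  unfold zPtDP at hclD
  rw [← he] at hcl hclD ⊢
  have hRR : ∀ R : ℝ, R ≤ R1 + R2 → R * (m : ℝ) ^ ε * X ≤ (R1 + R2) * (m : ℝ) ^ ε * X := by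
    intro R hR
    have : 0 ≤ (m : ℝ) ^ ε := by positivity
    clear * - gm hR hX0
    gcongr
  refine ⟨fun t t' => ?_, fun o => ?_⟩
  · -- the classes
    refine le_trans ?_ (hRR R1 (by (clear * - hR20; linarith)))
    refine cls_val_le6 _ _ _ _ _ _ _ _ (by positivity) ?_
    have e1 : ((K i ep m).cl t t').a = htL t := cF_a _ _ _ _ _ _ _ _
    have e2 : ((K i ep m).cl t t').b = htL t' := cF_b _ _ _ _ _ _ _ _
    rw [e1, e2, Measure.restrict_univ]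
    have hset : ∑ n ∈ range (2 * m + 1), ∫⁻ y : ℝ × ℝ, ‖((K i ep m).cl t t').pre (vl (htL t) y.1)
        (vl (htL t') y.2)‖ₑ * ‖((K i ep m).cl t t').Z ((K i ep m).Z true) ((K i ep m).Z false)
          (51 / 100 * l) n (n + e) (PHK.lX6 P) (PHK.lY6 P) (vl (htL t) y.1) (vl (htL t') y.2)‖ₑ ≤
          ∫⁻ y, ‖((K i ep m).cl t t').pre (vl (htL t) y.1) (vl (htL t') y.2)‖ₑ *
            ENNReal.ofReal (∑ u : Ch6 × Ch6, cw i ep m t t' y u * QL6 (T i) ep ep J m A t t' y u) := by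
      refine (NUGC.PLX.sum_lint_le' _ _ _).trans ?_
      refine lintegral_mono_ae ?_
      filter_upwards [hcl t t'] with y hy
      have key := ENNReal.ofReal_le_ofReal ((PBR.PLX.cF_sum_le ((K i ep m).Z true) ((K i ep m).Z false)
        ((K i ep m).Z true) ((K i ep m).Z false) (K i ep m).kF (K i ep m).kP (K i ep m).kF' (K i ep m).kP' t t'
        (51 / 100 * l) (2 * m) e (PHK.lX6 P) (PHK.lY6 P) (vl (htL t) y.1) (vl (htL t') y.2)).trans hy)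
      rw [← sum_enorm_eq] at key
      rw [← Finset.mul_sum]
      exact mul_le_mul_right key _
    refine hset.trans ?_
    have key := int_allY (ph := fun u : Ch6 × Ch6 => (T i).ph t u.1)
      (ph' := fun u : Ch6 × Ch6 => (T i).ph t' u.2) (A := A) (J := J) hep0 hep2 hep0.le hep2 hJ0 hT
      hCm0 hCG hA0
      (hO t t') (fun u τ => hK.f0 i ep m t u.1 τ) (fun u τ => hK.f1 i ep m t u.1 τ)
      (fun u τ => hK.f0 i ep m t' u.2 τ) (fun u τ => hK.f1 i ep m t' u.2 τ) hδ0 hδ1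
      (s := univ.filter fun u : Ch6 × Ch6 => okC6 t u.1 ∧ okC6 t' u.2)
      (fun u hu y => by
        by_contra h0
        exact hu (Finset.mem_filter.2 ⟨mem_univ _, hK.cwo i ep m t t' y u h0⟩))
      (fun y u => hK.cw0 i ep m t t' y u)
      (fun u hu => hK.ph i t u.1 (Finset.mem_filter.1 hu).2.1)
      (fun u hu => hK.ph i t' u.2 (Finset.mem_filter.1 hu).2.2)
    refine le_trans key (ENNReal.ofReal_le_ofReal ?_)
    have key1 := pow_Y gm (B := R1) (x := 6 * ep + 4 * ep + 4 * δ) (α := δ) (y := ε) hR10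
      (by (clear * - hδ0 hδε hCe hep0; linarith))
    calc A * (Cm * Cm * CG) * (Fintype.card (Ch6 × Ch6) * KY δ) *
          Real.exp ((6 * ep + 4 * ep + 4 * δ) * Tb (Real.log m))
        = R1 * (m : ℝ) ^ δ * Real.exp ((6 * ep + 4 * ep + 4 * δ) * Tb (Real.log m)) * X := by
          rw [hA, hR1, hD1, hKK]
          ring
      _ ≤ _ := mul_le_mul_of_nonneg_right key1 hX0
  · -- D1, D1'
    refine le_trans ?_ (hRR R2 (by (clear * - hR10; linarith)))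
    refine sum_norm_le (by (clear * - hR20 gm hX0; positivity)) ?_
    have h1 : ∑ n ∈ range (2 * m + 1),
        ‖(cDo o (kD i ep m o)).val ((K i ep m).Z true) ((K i ep m).Z false) (51 / 100 * l) n (n + e)
          (PHK.lX6 P) (PHK.lY6 P)‖ₑ ≤ ∫⁻ y : ℝ, ‖kD i ep m o (vl (-(11 / 4) * l) y)‖ₑ *
        ENNReal.ofReal (QGD (MF i) m ep ep J A o y) := by
      have key := CD1_sum_val (cDo o (kD i ep m o)) ((K i ep m).Z true) ((K i ep m).Z false)
        (51 / 100 * l) (2 * m) e (PHK.lX6 P) (PHK.lY6 P)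
        (fun y => ENNReal.ofReal (QGD (MF i) m ep ep J A o y)) (by
          filter_upwards [hclD o] with y hy
          rw [sum_enorm_eq, cDo_a]
          exact ENNReal.ofReal_le_ofReal hy)
      refine key.trans (le_of_eq ?_)
      refine lintegral_congr fun y => ?_
      rw [cDo_a, cDo_K]
    refine h1.trans ?_
    have h2 := PBQ.PLX.int_D hCd hOD hep0.le hep2 hep0 hep2 hJ0 hT hA0 o
    refine h2.trans ?_
    refine ENNReal.ofReal_le_ofReal ?_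
    have key := pow_comb6 gm (B := Cd * Cst * (40 / 3 * Real.exp 12)) (x := 2 * (1 - ep))
      (α := δ) (y := ε) (by positivity) (by (clear * - hδ0 hδε hep2; linarith))
    calc Cd * A * (40 / 3 * Real.exp 12) * Real.exp (-(2 * (1 - ep) * Tb (Real.log m)))
        = Cd * Cst * (40 / 3 * Real.exp 12) * (m : ℝ) ^ δ *
          Real.exp (-(2 * (1 - ep) * Tb (Real.log m))) * X := by
          rw [hA]
          ring
      _ ≤ _ := by
          rw [hR2]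
          exact mul_le_mul_of_nonneg_right key hX0

end PLT

end
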