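import Pool.Agent.PLT.PathC

/-!
# The path of contents at complex separation (helper17)

`D` complex near `[0, l]` : `pz`, `qz = D - pz`, `Vz` analytic, `A sin (w pz) = B sin (w qz)`, real values as in `PLT/PathC`.

* `Nz de` : `-de < Re D < l + de`, `|Im D| < de` (`de ≤ 1/20`);
* `cos_pz`, `sin_pz`, `cos_qz`, `sin_qz`, `Vz_sq`, `pz_deriv`, `Vz_deriv`, `kapz_eq`, `re_pz`, `pz_real`, `Vz_real`,
  `pz_im` (purely imaginary on the imaginary axis), `Vz_im`.
-/

set_option autoImplicit false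

noncomputable section

open Complex Set Filter Topology

namespace PLT.Pa

open NUP1 (l lpos)

/-- the neighbourhood of `[0, l]` -/
def Nz (de : ℝ) : Set ℂ := {D | -de < D.re ∧ D.re < l + de ∧ |D.im| < de}

/-- `A + B exp (i w D)` -/
def ua (A B : ℝ) (D : ℂ) : ℂ := A + B * exp (8 / 3 * D * I)

def ub (A B : ℝ) (D : ℂ) : ℂ := A + B * exp (-(8 / 3 * D * I))

/-- the place of the first kind of rows (rows at `-pz`) -/
def pz (A B : ℝ) (D : ℂ) : ℂ := 3 / 16 * ((log (ub A B D) - log (ua A B D)) * I)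

def qz (A B : ℝ) (D : ℂ) : ℂ := D - pz A B D

def Vz (A B : ℝ) (D : ℂ) : ℂ := exp ((log (ua A B D) + log (ub A B D)) / 2)

variable {A B de : ℝ} {D : ℂ}

theorem l_lt : l < 2 / 5 := by
  unfold NUP1.l
  linarith [Real.pi_lt_d2]

theorem l_gt : 39 / 100 < l := by
  unfold NUP1.l
  linarith [Real.pi_gt_d2]

theorem Nz_open (de : ℝ) : IsOpen (Nz de) := by
  have h1 : IsOpen {D : ℂ | -de < D.re} := isOpen_lt continuous_const continuous_re
  have h2 : IsOpen {D : ℂ | D.re < l + de} := isOpen_lt continuous_re continuous_const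
  have h3 : IsOpen {D : ℂ | |D.im| < de} := isOpen_lt (by fun_prop) continuous_const
  exact h1.inter (h2.inter h3)

theorem Nz_mono {de de' : ℝ} (h : de ≤ de') : Nz de ⊆ Nz de' := fun _ hD =>
  ⟨by linarith [hD.1], by linarith [hD.2.1], by linarith [hD.2.2]⟩

theorem cosz_pos (hde : de ≤ 1 / 20) (h : D ∈ Nz de) : 0 < Real.cos (8 / 3 * D.re) := by
  have h1 := l_lt
  refine Real.cos_pos_of_mem_Ioo ⟨?_, ?_⟩
  · linarith [h.1, Real.pi_gt_three]
  · linarith [h.2.1, Real.pi_gt_d2]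

theorem arg_re (D : ℂ) : (8 / 3 * D * I : ℂ).re = -(8 / 3 * D.im) := by
  simp

theorem arg_im (D : ℂ) : (8 / 3 * D * I : ℂ).im = 8 / 3 * D.re := by
  simp

theorem ua_re (A B : ℝ) (D : ℂ) : (ua A B D).re = A + B * (Real.exp (-(8 / 3 * D.im)) * Real.cos (8 / 3 * D.re)) := by
  unfold ua
  rw [add_re, mul_re, ofReal_re, ofReal_re, ofReal_im, exp_re, arg_re, arg_im]
  ring

theorem ua_im (A B : ℝ) (D : ℂ) : (ua A B D).im = B * (Real.exp (-(8 / 3 * D.im)) * Real.sin (8 / 3 * D.re)) := by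
  unfold ua
  rw [add_im, mul_im, ofReal_re, ofReal_im, ofReal_im, exp_im, arg_re, arg_im]
  ring

theorem ub_eq (A B : ℝ) (D : ℂ) : ub A B D = ua A B (-D) := by
  unfold ub ua
  congr 3
  ring

theorem ub_re (A B : ℝ) (D : ℂ) : (ub A B D).re = A + B * (Real.exp (8 / 3 * D.im) * Real.cos (8 / 3 * D.re)) := by
  rw [ub_eq, ua_re, neg_re, neg_im, show 8 / 3 * -D.re = -(8 / 3 * D.re) by ring, Real.cos_neg,
    show -(8 / 3 * -D.im) = 8 / 3 * D.im by ring]

theorem ub_im (A B : ℝ) (D : ℂ) : (ub A B D).im = -(B * (Real.exp (8 / 3 * D.im) * Real.sin (8 / 3 * D.re))) := by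
  rw [ub_eq, ua_im, neg_re, neg_im, show 8 / 3 * -D.re = -(8 / 3 * D.re) by ring, Real.sin_neg,
    show -(8 / 3 * -D.im) = 8 / 3 * D.im by ring]
  ring

theorem ua_pos (hA : 0 < A) (hB : 0 < B) (hde : de ≤ 1 / 20) (h : D ∈ Nz de) : 0 < (ua A B D).re := by
  have h1 := cosz_pos hde h
  rw [ua_re]
  positivity

theorem ub_pos (hA : 0 < A) (hB : 0 < B) (hde : de ≤ 1 / 20) (h : D ∈ Nz de) : 0 < (ub A B D).re := by
  have h1 := cosz_pos hde h
  rw [ub_re]
  positivity

theorem ne_of_re {z : ℂ} (h : 0 < z.re) : z ≠ 0 := fun h0 => by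
  rw [h0, zero_re] at h
  exact lt_irrefl _ h

/-! ### algebra -/

theorem Vz_mul (hA : 0 < A) (hB : 0 < B) (hde : de ≤ 1 / 20) (h : D ∈ Nz de) :
    Vz A B D * exp (8 / 3 * pz A B D * I) = ua A B D := by
  have h1 := ne_of_re (ua_pos hA hB hde h)
  unfold Vz pz
  rw [← exp_add]
  have e : (log (ua A B D) + log (ub A B D)) / 2 + 8 / 3 * (3 / 16 * ((log (ub A B D) - log (ua A B D)) * I)) * I =
      log (ua A B D) := by
    have := I_mul_I
    linear_combination (1 / 2 * (log (ub A B D) - log (ua A B D))) * this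
  rw [e, exp_log h1]

theorem Vz_mul' (hA : 0 < A) (hB : 0 < B) (hde : de ≤ 1 / 20) (h : D ∈ Nz de) :
    Vz A B D * exp (-(8 / 3 * pz A B D * I)) = ub A B D := by
  have h1 := ne_of_re (ub_pos hA hB hde h)
  unfold Vz pz
  rw [← exp_add]
  have e : (log (ua A B D) + log (ub A B D)) / 2 +
      -(8 / 3 * (3 / 16 * ((log (ub A B D) - log (ua A B D)) * I)) * I) = log (ub A B D) := by
    have := I_mul_I
    linear_combination (-(1 / 2) * (log (ub A B D) - log (ua A B D))) * this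
  rw [e, exp_log h1]

theorem Vz_ne (A B : ℝ) (D : ℂ) : Vz A B D ≠ 0 := exp_ne_zero _

theorem Vz_sq (hA : 0 < A) (hB : 0 < B) (hde : de ≤ 1 / 20) (h : D ∈ Nz de) :
    Vz A B D ^ 2 = A ^ 2 + B ^ 2 + 2 * A * B * cos (8 / 3 * D) := by
  have e1 : Vz A B D ^ 2 = ua A B D * ub A B D := by
    rw [← Vz_mul hA hB hde h, ← Vz_mul' hA hB hde h]
    have : exp (8 / 3 * pz A B D * I) * exp (-(8 / 3 * pz A B D * I)) = 1 := by
      rw [← exp_add, add_neg_cancel, exp_zero]
    linear_combination (-(Vz A B D) ^ 2) * this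
  rw [e1]
  unfold ua ub
  have e2 : exp (8 / 3 * D * I) * exp (-(8 / 3 * D * I)) = 1 := by
    rw [← exp_add, add_neg_cancel, exp_zero]
  have e3 : cos (8 / 3 * D) = (exp (8 / 3 * D * I) + exp (-(8 / 3 * D * I))) / 2 := by
    rw [cos, neg_mul]
  rw [e3]
  linear_combination (B : ℂ) ^ 2 * e2

theorem cos_pz (hA : 0 < A) (hB : 0 < B) (hde : de ≤ 1 / 20) (h : D ∈ Nz de) :
    Vz A B D * cos (8 / 3 * pz A B D) = A + B * cos (8 / 3 * D) := by
  have e1 := Vz_mul hA hB hde h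
  have e2 := Vz_mul' hA hB hde h
  have e3 : cos (8 / 3 * D) = (exp (8 / 3 * D * I) + exp (-(8 / 3 * D * I))) / 2 := by
    rw [cos, neg_mul]
  have e4 : cos (8 / 3 * pz A B D) = (exp (8 / 3 * pz A B D * I) + exp (-(8 / 3 * pz A B D * I))) / 2 := by
    rw [cos, neg_mul]
  unfold ua at e1
  unfold ub at e2
  rw [e3, e4]
  linear_combination (1 / 2) * e1 + (1 / 2) * e2

theorem sin_pz (hA : 0 < A) (hB : 0 < B) (hde : de ≤ 1 / 20) (h : D ∈ Nz de) :
    Vz A B D * sin (8 / 3 * pz A B D) = B * sin (8 / 3 * D) := by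
  have e1 := Vz_mul hA hB hde h
  have e2 := Vz_mul' hA hB hde h
  have e3 : sin (8 / 3 * D) = (exp (-(8 / 3 * D * I)) - exp (8 / 3 * D * I)) * I / 2 := by
    rw [sin, neg_mul]
  have e4 : sin (8 / 3 * pz A B D) = (exp (-(8 / 3 * pz A B D * I)) - exp (8 / 3 * pz A B D * I)) * I / 2 := by
    rw [sin, neg_mul]
  unfold ua at e1
  unfold ub at e2
  rw [e3, e4]
  linear_combination (I / 2) * e2 - (I / 2) * e1

theorem sin_qz (hA : 0 < A) (hB : 0 < B) (hde : de ≤ 1 / 20) (h : D ∈ Nz de) :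
    Vz A B D * sin (8 / 3 * qz A B D) = A * sin (8 / 3 * D) := by
  have e1 := cos_pz hA hB hde h
  have e2 := sin_pz hA hB hde h
  unfold qz
  rw [mul_sub, sin_sub]
  linear_combination sin (8 / 3 * D) * e1 - cos (8 / 3 * D) * e2

theorem cos_qz (hA : 0 < A) (hB : 0 < B) (hde : de ≤ 1 / 20) (h : D ∈ Nz de) :
    Vz A B D * cos (8 / 3 * qz A B D) = B + A * cos (8 / 3 * D) := by
  have e1 := cos_pz hA hB hde h
  have e2 := sin_pz hA hB hde h
  have e3 := sin_sq_add_cos_sq (8 / 3 * D)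
  unfold qz
  rw [mul_sub, cos_sub]
  linear_combination cos (8 / 3 * D) * e1 + sin (8 / 3 * D) * e2 + B * e3

/-! ### derivatives -/

theorem ua_hasDeriv (A B : ℝ) (D : ℂ) : HasDerivAt (ua A B) (B * (exp (8 / 3 * D * I) * (8 / 3 * I))) D := by
  have h0 : HasDerivAt (fun D : ℂ => 8 / 3 * D * I) (8 / 3 * I) D := by
    simpa using ((hasDerivAt_id D).const_mul (8 / 3 : ℂ)).mul_const I
  exact (h0.cexp.const_mul (B : ℂ)).const_add _

theorem ub_hasDeriv (A B : ℝ) (D : ℂ) :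
    HasDerivAt (ub A B) (B * (exp (-(8 / 3 * D * I)) * (-(8 / 3 * I)))) D := by
  have h0 : HasDerivAt (fun D : ℂ => -(8 / 3 * D * I)) (-(8 / 3 * I)) D := by
    have := (((hasDerivAt_id D).const_mul (8 / 3 : ℂ)).mul_const I).neg
    rw [mul_one] at this
    exact this
  exact (h0.cexp.const_mul (B : ℂ)).const_add _

theorem slit_of_re {z : ℂ} (h : 0 < z.re) : z ∈ slitPlane := Or.inl h

theorem pz_deriv (hA : 0 < A) (hB : 0 < B) (hde : de ≤ 1 / 20) (h : D ∈ Nz de) :
    HasDerivAt (pz A B) (B * cos (8 / 3 * qz A B D) / Vz A B D) D := by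
  have pa := ua_pos hA hB hde h
  have pb := ub_pos hA hB hde h
  have h1 := (ua_hasDeriv A B D).clog (slit_of_re pa)
  have h2 := (ub_hasDeriv A B D).clog (slit_of_re pb)
  have h3 := ((h2.sub h1).mul_const I).const_mul (3 / 16 : ℂ)
  refine h3.congr_deriv ?_
  have na := ne_of_re pa
  have nb := ne_of_re pb
  have hv := Vz_ne A B D
  have e1 : Vz A B D ^ 2 = ua A B D * ub A B D := by
    rw [← Vz_mul hA hB hde h, ← Vz_mul' hA hB hde h]
    have : exp (8 / 3 * pz A B D * I) * exp (-(8 / 3 * pz A B D * I)) = 1 := by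
      rw [← exp_add, add_neg_cancel, exp_zero]
    linear_combination (-(Vz A B D) ^ 2) * this
  have e2 := cos_qz hA hB hde h
  have e3 : cos (8 / 3 * D) = (exp (8 / 3 * D * I) + exp (-(8 / 3 * D * I))) / 2 := by
    rw [cos, neg_mul]
  have e5 : B * cos (8 / 3 * qz A B D) / Vz A B D = B * (B + A * cos (8 / 3 * D)) / (ua A B D * ub A B D) := by
    rw [← e1, ← e2]
    field_simp
  rw [e5, e3]
  have e4 : exp (8 / 3 * D * I) * exp (-(8 / 3 * D * I)) = 1 := by
    rw [← exp_add, add_neg_cancel, exp_zero]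
  have a1 : ua A B D = A + B * exp (8 / 3 * D * I) := rfl
  have b1 : ub A B D = A + B * exp (-(8 / 3 * D * I)) := rfl
  generalize exp (8 / 3 * D * I) = x at *
  generalize exp (-(8 / 3 * D * I)) = y at *
  generalize ua A B D = u at *
  generalize ub A B D = v at *
  have hI := I_mul_I
  rw [eq_div_iff (mul_ne_zero na nb)]
  have e6 : 3 / 16 * ((B * (y * (-(8 / 3 * I))) / v - B * (x * (8 / 3 * I)) / u) * I) * (u * v) =
      3 / 16 * ((B * (y * (-(8 / 3 * I))) * u - B * (x * (8 / 3 * I)) * v) * I) := by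
    field_simp
  rw [e6, a1, b1]
  linear_combination (-(1 / 2) * B * (y * (A + B * x) + x * (A + B * y))) * hI + (B : ℂ) ^ 2 * e4

theorem qz_deriv (hA : 0 < A) (hB : 0 < B) (hde : de ≤ 1 / 20) (h : D ∈ Nz de) :
    HasDerivAt (qz A B) (1 - B * cos (8 / 3 * qz A B D) / Vz A B D) D :=
  (hasDerivAt_id D).sub (pz_deriv hA hB hde h)

theorem Vz_deriv (hA : 0 < A) (hB : 0 < B) (hde : de ≤ 1 / 20) (h : D ∈ Nz de) :
    HasDerivAt (Vz A B) (-(8 / 3 * (A * B * sin (8 / 3 * D)) / Vz A B D)) D := by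
  have pa := ua_pos hA hB hde h
  have pb := ub_pos hA hB hde h
  have h1 := (ua_hasDeriv A B D).clog (slit_of_re pa)
  have h2 := (ub_hasDeriv A B D).clog (slit_of_re pb)
  have h3 := ((h1.add h2).div_const (2 : ℂ)).cexp
  refine h3.congr_deriv ?_
  have na := ne_of_re pa
  have nb := ne_of_re pb
  have hv := Vz_ne A B D
  have e1 : Vz A B D ^ 2 = ua A B D * ub A B D := by
    rw [← Vz_mul hA hB hde h, ← Vz_mul' hA hB hde h]
    have : exp (8 / 3 * pz A B D * I) * exp (-(8 / 3 * pz A B D * I)) = 1 := by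
      rw [← exp_add, add_neg_cancel, exp_zero]
    linear_combination (-(Vz A B D) ^ 2) * this
  have e3 : sin (8 / 3 * D) = (exp (-(8 / 3 * D * I)) - exp (8 / 3 * D * I)) * I / 2 := by
    rw [sin, neg_mul]
  have e7 : cexp (((fun x => log (ua A B x)) + fun x => log (ub A B x)) D / 2) = Vz A B D := rfl
  rw [e3]
  have a1 : ua A B D = A + B * exp (8 / 3 * D * I) := rfl
  have b1 : ub A B D = A + B * exp (-(8 / 3 * D * I)) := rfl
  show Vz A B D * _ = _
  generalize exp (8 / 3 * D * I) = x at *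
  generalize exp (-(8 / 3 * D * I)) = y at *
  generalize ua A B D = u at *
  generalize ub A B D = v at *
  generalize Vz A B D = V at *
  have e8 : V * ((B * (x * (8 / 3 * I)) / u + B * (y * (-(8 / 3 * I))) / v) / 2) =
      V * (B * (x * (8 / 3 * I)) * v + B * (y * (-(8 / 3 * I))) * u) / (2 * (u * v)) := by
    field_simp
  rw [e8, ← e1]
  have e9 : V * (B * (x * (8 / 3 * I)) * v + B * (y * (-(8 / 3 * I))) * u) / (2 * V ^ 2) =
      (B * (x * (8 / 3 * I)) * v + B * (y * (-(8 / 3 * I))) * u) / (2 * V) := by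
    field_simp
  rw [e9, a1, b1]
  field_simp
  ring

/-- the rate, one place -/
theorem kapz_eq (hA : 0 < A) (hB : 0 < B) (hde : de ≤ 1 / 20) (h : D ∈ Nz de) :
    -(8 / 3 * (A * B * sin (8 / 3 * D)) / Vz A B D) / (4 * (8 / 3) * Vz A B D) =
      -(B * sin (8 / 3 * qz A B D) / (4 * Vz A B D)) := by
  have hv := Vz_ne A B D
  have e1 := sin_qz hA hB hde h
  generalize Vz A B D = V at *
  generalize sin (8 / 3 * qz A B D) = x at *
  generalize sin (8 / 3 * D) = y at *
  field_simp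
  linear_combination (B : ℂ) * e1

/-! ### real parts -/

theorem arg_arctan {z : ℂ} (h : 0 < z.re) : arg z = Real.arctan (z.im / z.re) := by
  have h1 : |arg z| < Real.pi / 2 := abs_arg_lt_pi_div_two_iff.2 (Or.inl h)
  rw [← tan_arg, Real.arctan_tan (abs_lt.1 h1).1 (abs_lt.1 h1).2]

/-- adding a positive number turns towards the real axis -/
theorem arg_le {x r φ : ℝ} {z : ℂ} (hx : 0 < x) (hr : 0 < r) (h0 : 0 ≤ φ) (h1 : φ < Real.pi / 2)
    (hre : z.re = x + r * Real.cos φ) (him : z.im = r * Real.sin φ) : 0 ≤ arg z ∧ arg z ≤ φ := by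
  have hc : 0 < Real.cos φ := Real.cos_pos_of_mem_Ioo ⟨by linarith, h1⟩
  have hs : 0 ≤ Real.sin φ := Real.sin_nonneg_of_nonneg_of_le_pi h0 (by linarith [Real.pi_pos])
  have hre0 : 0 < z.re := by
    rw [hre]
    positivity
  rw [arg_arctan hre0]
  constructor
  · refine Real.arctan_nonneg.2 (div_nonneg ?_ hre0.le)
    rw [him]
    positivity
  · rw [← Real.arctan_tan (by linarith) h1, Real.tan_eq_sin_div_cos]
    refine Real.arctan_strictMono.monotone ?_
    rw [hre, him, div_le_div_iff₀ (by positivity) hc]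
    have : 0 ≤ Real.sin φ * x := by positivity
    nlinarith

theorem arg_le' {x r φ : ℝ} {z : ℂ} (hx : 0 < x) (hr : 0 < r) (h0 : 0 ≤ φ) (h1 : φ < Real.pi / 2)
    (hre : z.re = x + r * Real.cos φ) (him : z.im = -(r * Real.sin φ)) : arg z ≤ 0 ∧ -φ ≤ arg z := by
  have hc : 0 < Real.cos φ := Real.cos_pos_of_mem_Ioo ⟨by linarith, h1⟩
  have hre0 : 0 < z.re := by
    rw [hre]
    positivity
  have h2 := arg_le (z := (starRingEnd ℂ) z) hx hr h0 h1 (by simpa using hre) (by simp [him])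
  have h3 : arg ((starRingEnd ℂ) z) = -arg z := by
    rw [arg_conj, if_neg]
    intro h
    have := abs_arg_lt_pi_div_two_iff.2 (Or.inl hre0)
    rw [h, abs_of_pos Real.pi_pos] at this
    linarith [Real.pi_pos]
  rw [h3] at h2
  constructor <;> linarith [h2.1, h2.2]

theorem re_pz_eq (A B : ℝ) (D : ℂ) : (pz A B D).re = 3 / 16 * (arg (ua A B D) - arg (ub A B D)) := by
  unfold pz
  have h : ∀ w : ℂ, ((3 / 16 : ℂ) * (w * I)).re = 3 / 16 * (-w.im) := by
    intro w
    simp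
  rw [h, sub_im, log_im, log_im]
  ring

/-- `Re pz` lies between `0` and `Re D` -/
theorem re_pz (hA : 0 < A) (hB : 0 < B) (hde : de ≤ 1 / 20) (h : D ∈ Nz de) :
    |(pz A B D).re - D.re / 2| ≤ |D.re| / 2 := by
  have h1 := l_lt
  have hp := Real.pi_gt_d2
  have hp' := Real.pi_lt_d2
  have a1 : |8 / 3 * D.re| < Real.pi / 2 := by
    rw [abs_lt]
    constructor <;> linarith [h.1, h.2.1]
  have ra : (ua A B D).re = A + B * Real.exp (-(8 / 3 * D.im)) * Real.cos |8 / 3 * D.re| := by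
    rw [ua_re, Real.cos_abs]
    ring
  have rb : (ub A B D).re = A + B * Real.exp (8 / 3 * D.im) * Real.cos |8 / 3 * D.re| := by
    rw [ub_re, Real.cos_abs]
    ring
  have pe1 : 0 < B * Real.exp (-(8 / 3 * D.im)) := by positivity
  have pe2 : 0 < B * Real.exp (8 / 3 * D.im) := by positivity
  rw [re_pz_eq]
  rcases le_total 0 D.re with h0 | h0
  · have hab : |8 / 3 * D.re| = 8 / 3 * D.re := abs_of_nonneg (by linarith)
    have b1 := arg_le hA pe1 (abs_nonneg _) a1 ra (by rw [ua_im, hab]; ring)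
    have b2 := arg_le' hA pe2 (abs_nonneg _) a1 rb (by rw [ub_im, hab]; ring)
    rw [hab] at b1 b2
    rw [abs_of_nonneg h0, abs_le]
    constructor <;> linarith [b1.1, b1.2, b2.1, b2.2]
  · have hab : |8 / 3 * D.re| = -(8 / 3 * D.re) := abs_of_nonpos (by linarith)
    have b1 := arg_le' hA pe1 (abs_nonneg _) a1 ra (by rw [ua_im, hab, Real.sin_neg]; ring)
    have b2 := arg_le hA pe2 (abs_nonneg _) a1 rb (by rw [ub_im, hab, Real.sin_neg]; ring)
    rw [hab] at b1 b2
    rw [abs_of_nonpos h0, abs_le]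
    constructor <;> linarith [b1.1, b1.2, b2.1, b2.2]

/-! ### real separation -/

theorem Icc_Nz {th : ℝ} (hde : 0 < de) (h : th ∈ Icc 0 l) : (th : ℂ) ∈ Nz de := by
  refine ⟨?_, ?_, ?_⟩
  · rw [ofReal_re]
    linarith [h.1]
  · rw [ofReal_re]
    linarith [h.2]
  · rw [ofReal_im, abs_zero]
    exact hde

theorem pz_real {th : ℝ} (hA : 0 < A) (hB : 0 < B) (h : th ∈ Icc 0 l) :
    pz A B (th : ℂ) = ((pp A B th : ℝ) : ℂ) := by
  have hN : (th : ℂ) ∈ Nz (1 / 20) := Icc_Nz (by norm_num) h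
  have pa := ua_pos hA hB le_rfl hN
  have pb := ub_pos hA hB le_rfl hN
  have eb : ub A B (th : ℂ) = (starRingEnd ℂ) (ua A B (th : ℂ)) := by
    apply Complex.ext
    · rw [ub_re, conj_re, ua_re]
      simp
    · rw [ub_im, conj_im, ua_im]
      simp
  have hn : arg (ua A B (th : ℂ)) ≠ Real.pi := by
    intro h
    have := abs_arg_lt_pi_div_two_iff.2 (Or.inl pa)
    rw [h, abs_of_pos Real.pi_pos] at this
    linarith [Real.pi_pos]
  unfold pz
  rw [eb, log_conj _ hn]
  apply Complex.ext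
  · have h1 : ((3 / 16 : ℂ) * (((starRingEnd ℂ) (log (ua A B th)) - log (ua A B th)) * I)).re =
        3 / 8 * (log (ua A B th)).im := by
      simp
      ring
    rw [h1, log_im, arg_arctan pa, ofReal_re, ua_re, ua_im]
    simp [pp]
  · have h1 : ((3 / 16 : ℂ) * (((starRingEnd ℂ) (log (ua A B th)) - log (ua A B th)) * I)).im = 0 := by
      simp
    rw [h1, ofReal_im]

theorem qz_real {th : ℝ} (hA : 0 < A) (hB : 0 < B) (h : th ∈ Icc 0 l) :
    qz A B (th : ℂ) = ((qq A B th : ℝ) : ℂ) := by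
  unfold qz qq
  rw [pz_real hA hB h]
  push_cast
  ring

theorem Vz_real {th : ℝ} (hA : 0 < A) (hB : 0 < B) (h : th ∈ Icc 0 l) :
    Vz A B (th : ℂ) = ((VV A B th : ℝ) : ℂ) := by
  have hN : (th : ℂ) ∈ Nz (1 / 20) := Icc_Nz (by norm_num) h
  have pa := ua_pos hA hB le_rfl hN
  have eb : ub A B (th : ℂ) = (starRingEnd ℂ) (ua A B (th : ℂ)) := by
    apply Complex.ext
    · rw [ub_re, conj_re, ua_re]
      simp
    · rw [ub_im, conj_im, ua_im]
      simp
  have hn : arg (ua A B (th : ℂ)) ≠ Real.pi := by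
    intro h
    have := abs_arg_lt_pi_div_two_iff.2 (Or.inl pa)
    rw [h, abs_of_pos Real.pi_pos] at this
    linarith [Real.pi_pos]
  have e1 : Vz A B (th : ℂ) = ((Real.exp (log (ua A B th)).re : ℝ) : ℂ) := by
    unfold Vz
    rw [eb, log_conj _ hn, add_conj, ofReal_exp]
    congr 1
    push_cast
    ring
  have e2 := Vz_sq hA hB le_rfl hN
  rw [e1] at e2 ⊢
  have e3 : (Real.exp (log (ua A B th)).re) ^ 2 = VV A B th ^ 2 := by
    rw [VV_sq hA hB h]
    have : cos (8 / 3 * (th : ℂ)) = ((Real.cos (8 / 3 * th) : ℝ) : ℂ) := by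
      push_cast
      ring
    rw [this] at e2
    exact_mod_cast e2
  have e4 := (pow_left_inj₀ (Real.exp_pos _).le (VV_pos hA hB h).le two_ne_zero).1 e3
  rw [e4]

/-! ### imaginary separation -/

theorem ua_im_sep (A B s : ℝ) : ua A B (I * s) = ((A + B * Real.exp (-(8 / 3 * s)) : ℝ) : ℂ) := by
  unfold ua
  have : (8 / 3 * (I * (s : ℂ)) * I : ℂ) = ((-(8 / 3 * s) : ℝ) : ℂ) := by
    push_cast
    linear_combination (8 / 3 * (s : ℂ)) * I_mul_I
  rw [this, ← ofReal_exp]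
  push_cast
  ring

theorem ub_im_sep (A B s : ℝ) : ub A B (I * s) = ((A + B * Real.exp (8 / 3 * s) : ℝ) : ℂ) := by
  unfold ub
  have : (-(8 / 3 * (I * (s : ℂ)) * I) : ℂ) = ((8 / 3 * s : ℝ) : ℂ) := by
    push_cast
    linear_combination (-(8 / 3 * (s : ℂ))) * I_mul_I
  rw [this, ← ofReal_exp]
  push_cast
  ring

/-- the real place on the slit -/
def ps (A B s : ℝ) : ℝ := 3 / 16 * (Real.log (A + B * Real.exp (8 / 3 * s)) - Real.log (A + B * Real.exp (-(8 / 3 * s))))

def qs (A B s : ℝ) : ℝ := s - ps A B s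

def Vs (A B s : ℝ) : ℝ := √(A ^ 2 + B ^ 2 + 2 * A * B * Real.cosh (8 / 3 * s))

theorem pz_slit (hA : 0 < A) (hB : 0 < B) (s : ℝ) : pz A B (I * s) = I * (ps A B s : ℂ) := by
  unfold pz ps
  rw [ua_im_sep, ub_im_sep, ← ofReal_log (by positivity), ← ofReal_log (by positivity)]
  push_cast
  ring

theorem qz_slit (hA : 0 < A) (hB : 0 < B) (s : ℝ) : qz A B (I * s) = I * (qs A B s : ℂ) := by
  unfold qz qs
  rw [pz_slit hA hB]
  push_cast
  ring

theorem Vz_slit (hA : 0 < A) (hB : 0 < B) (s : ℝ) : Vz A B (I * s) = (Vs A B s : ℂ) := by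
  have h1 : 0 < A + B * Real.exp (-(8 / 3 * s)) := by positivity
  have h2 : 0 < A + B * Real.exp (8 / 3 * s) := by positivity
  have e1 : Vz A B (I * s) = ((Real.exp ((Real.log (A + B * Real.exp (-(8 / 3 * s))) +
      Real.log (A + B * Real.exp (8 / 3 * s))) / 2) : ℝ) : ℂ) := by
    unfold Vz
    rw [ua_im_sep, ub_im_sep, ← ofReal_log h1.le, ← ofReal_log h2.le]
    push_cast
    ring
  rw [e1]
  congr 1
  unfold Vs
  rw [eq_comm, Real.sqrt_eq_iff_mul_self_eq (by positivity) (Real.exp_pos _).le, ← Real.exp_add, add_halves,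
    Real.exp_add, Real.exp_log h1, Real.exp_log h2, Real.cosh_eq]
  have : Real.exp (8 / 3 * s) * Real.exp (-(8 / 3 * s)) = 1 := by
    rw [← Real.exp_add, add_neg_cancel, Real.exp_zero]
  linear_combination (-B ^ 2) * this

theorem Vs_pos (hA : 0 < A) (hB : 0 < B) (s : ℝ) : 0 < Vs A B s :=
  Real.sqrt_pos.2 (by positivity)

theorem Vs_low (hA : 0 < A) (hB : 0 < B) (s : ℝ) : B ≤ Vs A B s := by
  refine Real.le_sqrt_of_sq_le ?_
  have : 0 ≤ 2 * A * B * Real.cosh (8 / 3 * s) := by positivity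
  nlinarith [sq_nonneg A]

/-- `ps` lies between `0` and `s` -/
theorem ps_mem (hA : 0 < A) (hB : 0 < B) (s : ℝ) : |ps A B s - s / 2| ≤ |s| / 2 := by
  have key : ∀ s : ℝ, 0 ≤ s → 0 ≤ ps A B s ∧ ps A B s ≤ s := by
    intro s hs
    have h1 : 0 < A + B * Real.exp (-(8 / 3 * s)) := by positivity
    have h2 : 0 < A + B * Real.exp (8 / 3 * s) := by positivity
    have h3 : Real.exp (-(8 / 3 * s)) ≤ Real.exp (8 / 3 * s) := Real.exp_le_exp.2 (by linarith)
    have h4 : Real.log (A + B * Real.exp (-(8 / 3 * s))) ≤ Real.log (A + B * Real.exp (8 / 3 * s)) :=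
      Real.log_le_log h1 (by nlinarith)
    have h5 : Real.log (A + B * Real.exp (8 / 3 * s)) ≤
        Real.log (A + B * Real.exp (-(8 / 3 * s))) + 2 * (8 / 3 * s) := by
      have e1 : A + B * Real.exp (8 / 3 * s) ≤ (A + B * Real.exp (-(8 / 3 * s))) * Real.exp (2 * (8 / 3 * s)) := by
        have e2 : Real.exp (-(8 / 3 * s)) * Real.exp (2 * (8 / 3 * s)) = Real.exp (8 / 3 * s) := by
          rw [← Real.exp_add]
          congr 1
          ring
        have e3 : 1 ≤ Real.exp (2 * (8 / 3 * s)) := Real.one_le_exp (by positivity)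
        have e4 : (A + B * Real.exp (-(8 / 3 * s))) * Real.exp (2 * (8 / 3 * s)) =
            A * Real.exp (2 * (8 / 3 * s)) + B * Real.exp (8 / 3 * s) := by
          rw [← e2]
          ring
        rw [e4]
        nlinarith
      calc Real.log (A + B * Real.exp (8 / 3 * s)) ≤
            Real.log ((A + B * Real.exp (-(8 / 3 * s))) * Real.exp (2 * (8 / 3 * s))) := Real.log_le_log h2 e1
        _ = _ := by rw [Real.log_mul h1.ne' (Real.exp_pos _).ne', Real.log_exp]
    unfold ps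
    constructor <;> linarith
  rcases le_total 0 s with h | h
  · obtain ⟨h1, h2⟩ := key s h
    rw [abs_of_nonneg h, abs_le]
    constructor <;> linarith
  · obtain ⟨h1, h2⟩ := key (-s) (by linarith)
    have e : ps A B (-s) = -ps A B s := by
      unfold ps
      rw [show 8 / 3 * -s = -(8 / 3 * s) by ring, neg_neg]
      ring
    rw [e] at h1 h2
    rw [abs_of_nonpos h, abs_le]
    constructor <;> linarith

end PLT.Pa

end
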