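import Pool.Agent.PLT.FinG
import Pool.Agent.PLT.AnP
import Pool.Agent.PLT.PathZ
import Pool.Agent.PLT.LgK
import Pool.Agent.PLT.PtTh
import Pool.Agent.PLT.OthY
import Pool.Agent.PHK.FamL6
import Pool.Agent.PLX.PB.OwnLe0
import Pool.Agent.PLX.NUGC.TopC

/-!
# The content of a tilted direction at complex `D`: the data of the regular function

`a0`, `b0` (`1 ≤ a0 ≤ b0`): the direction; `m` rows X: `cA a0 b0 m` rows at `-pz D`, the others at `qz D`; the rows Y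
are `q` copies of the list; the two cut rows and the ends are at `qz D`.

* `KRG D`: kernels of the final classes of `RU.fin`; **`fin_le`**: the final sum from the masses of the classes;
* **`cA`**, **`xB`**, **`eB`**, **`RB`**, `KB`, `kDB`, **`YB`**: the literals; `xB_mul`, `cA_exact`; `YB_le`.
-/

set_option autoImplicit false
set_option linter.unusedSectionVars false

noncomputable section

open Complex MeasureTheory Finset
open scoped ENNReal
open PLX (Fil Ends)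

namespace PLT

open NUP1 NUP1S NURow
open NUGC.PLX (beC cDo htL)
open Pa (pz qz)
open PBX (gP)
open PHK (Par6 gO)
open PBU.PLX (T1L)
open Pool.Agent.PLX (RU rwq yq)
open PBQ.PLX (KD)

/-! ### the final sum of the regular function -/

section fin

variable {m M : ℕ}

/-- one body functions and kernels of the final classes, regular form -/
def KRG (D : RU m M) : KD := ⟨XB D.X D.Y, D.KF, D.KR, D.KF', D.KR'⟩

theorem KRG_Z (D : RU m M) : (KRG D).Z = XB D.X D.Y := rfl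

theorem KRG_cl (D : RU m M) (t t' : HT) : (KRG D).cl t t' = D.cG t t' := rfl

theorem norm_sgT (t : HT) : ‖t.sg‖ = 1 := by
  cases t <;> simp [HT.sg]

/-- constant of the final sum -/
def cFin : ℝ := (2 * Real.pi)⁻¹ ^ 2 + ‖sin (l : ℂ) / sin (2 * l)‖ * (2 * Real.pi)⁻¹

theorem cFin_nonneg : 0 ≤ cFin := by
  unfold cFin
  positivity

/-- **the final sum from the masses of the classes** -/
theorem fin_le (D : RU m M) (P : Par6) (N e : ℕ) :
    ∑ n ∈ range (N + 1), ‖D.fin P n (n + e)‖ ≤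
      cFin * ((∑ t : HT, ∑ t' : HT, sValP P (KRG D) N e t t') +
        (sValDP P (KRG D) (PB0.PLX.kDRU D) N e true + sValDP P (KRG D) (PB0.PLX.kDRU D) N e false)) := by
  have hpi : 0 < (2 * Real.pi)⁻¹ := by positivity
  have n1 : ‖((2 * Real.pi : ℂ)⁻¹)‖ = (2 * Real.pi)⁻¹ := by
    rw [norm_inv, norm_mul, Complex.norm_ofNat, Complex.norm_real, Real.norm_of_nonneg Real.pi_pos.le]
  have h1 : ∀ n ∈ range (N + 1), ‖D.fin P n (n + e)‖ ≤
      (2 * Real.pi)⁻¹ ^ 2 * (∑ t : HT, ∑ t' : HT, ‖((KRG D).cl t t').val ((KRG D).Z true)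
        ((KRG D).Z false) (51 / 100 * l) n (n + e) (PHK.lX6 P) (PHK.lY6 P)‖) +
      ‖sin (l : ℂ) / sin (2 * l)‖ * (2 * Real.pi)⁻¹ *
        (‖(cDo true (PB0.PLX.kDRU D true)).val ((KRG D).Z true) ((KRG D).Z false) (51 / 100 * l) n
            (n + e) (PHK.lX6 P) (PHK.lY6 P)‖ +
          ‖(cDo false (PB0.PLX.kDRU D false)).val ((KRG D).Z true) ((KRG D).Z false) (51 / 100 * l) n
            (n + e) (PHK.lX6 P) (PHK.lY6 P)‖) := by
    intro n _
    unfold RU.fin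
    refine (norm_sub_le _ _).trans (add_le_add ?_ ?_)
    · rw [norm_mul, norm_pow, n1]
      refine mul_le_mul_of_nonneg_left ?_ (by positivity)
      refine (norm_sum_le _ _).trans (Finset.sum_le_sum fun t _ => ?_)
      refine (norm_sum_le _ _).trans (Finset.sum_le_sum fun t' _ => ?_)
      rw [norm_mul, norm_mul, norm_sgT, norm_sgT, one_mul, one_mul]
      exact le_rfl
    · rw [norm_mul, norm_mul, n1, ← mul_assoc]
      refine mul_le_mul_of_nonneg_left ?_ (by positivity)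
      exact norm_add_le _ _
  refine (Finset.sum_le_sum h1).trans ?_
  rw [Finset.sum_add_distrib, ← Finset.mul_sum, ← Finset.mul_sum, Finset.sum_add_distrib]
  have e1 : ∑ n ∈ range (N + 1), ∑ t : HT, ∑ t' : HT, ‖((KRG D).cl t t').val ((KRG D).Z true)
        ((KRG D).Z false) (51 / 100 * l) n (n + e) (PHK.lX6 P) (PHK.lY6 P)‖ =
      ∑ t : HT, ∑ t' : HT, sValP P (KRG D) N e t t' := by
    rw [Finset.sum_comm]
    refine Finset.sum_congr rfl fun t _ => ?_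
    rw [Finset.sum_comm]
    rfl
  rw [e1]
  obtain ⟨A, hA⟩ : ∃ A, A = ∑ t : HT, ∑ t' : HT, sValP P (KRG D) N e t t' := ⟨_, rfl⟩
  have hA0 : 0 ≤ A := by
    rw [hA]
    exact Finset.sum_nonneg fun t _ => Finset.sum_nonneg fun t' _ =>
      Finset.sum_nonneg fun n _ => norm_nonneg _
  have hB0 : 0 ≤ sValDP P (KRG D) (PB0.PLX.kDRU D) N e true +
      sValDP P (KRG D) (PB0.PLX.kDRU D) N e false :=
    add_nonneg (Finset.sum_nonneg fun n _ => norm_nonneg _) (Finset.sum_nonneg fun n _ => norm_nonneg _)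
  rw [← hA]
  have e2 : ∑ n ∈ range (N + 1), ‖(cDo true (PB0.PLX.kDRU D true)).val ((KRG D).Z true)
      ((KRG D).Z false) (51 / 100 * l) n (n + e) (PHK.lX6 P) (PHK.lY6 P)‖ +
      ∑ n ∈ range (N + 1), ‖(cDo false (PB0.PLX.kDRU D false)).val ((KRG D).Z true)
        ((KRG D).Z false) (51 / 100 * l) n (n + e) (PHK.lX6 P) (PHK.lY6 P)‖ =
      sValDP P (KRG D) (PB0.PLX.kDRU D) N e true + sValDP P (KRG D) (PB0.PLX.kDRU D) N e false := rfl
  rw [e2]
  obtain ⟨B, hB⟩ : ∃ B, B = sValDP P (KRG D) (PB0.PLX.kDRU D) N e true +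
      sValDP P (KRG D) (PB0.PLX.kDRU D) N e false := ⟨_, rfl⟩
  rw [← hB] at hB0 ⊢
  unfold cFin
  have k1 : 0 ≤ (2 * Real.pi)⁻¹ ^ 2 * B := by positivity
  have k2 : 0 ≤ ‖sin (l : ℂ) / sin (2 * l)‖ * (2 * Real.pi)⁻¹ * A := by positivity
  nlinarith

end fin

/-! ### the content -/

namespace BY

/-- number of the rows at `-pz D` -/
def cA (a0 b0 m : ℕ) : ℕ := m * a0 / (a0 + b0)

theorem cA_mul {a0 b0 : ℕ} (h : 1 ≤ a0) (k : ℕ) : cA a0 b0 (k * (a0 + b0)) = k * a0 := by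
  unfold cA
  rw [show k * (a0 + b0) * a0 = (a0 + b0) * (k * a0) by ring]
  exact Nat.mul_div_cancel_left _ (by omega)

theorem cA_le (a0 b0 m : ℕ) : cA a0 b0 m ≤ m := by
  unfold cA
  rcases Nat.eq_zero_or_pos (a0 + b0) with h | h
  · rw [h, Nat.div_zero]
    exact Nat.zero_le _
  · refine Nat.div_le_of_le_mul ?_
    have : a0 ≤ a0 + b0 := Nat.le_add_right _ _
    calc m * a0 ≤ m * (a0 + b0) := Nat.mul_le_mul_left _ this
      _ = (a0 + b0) * m := Nat.mul_comm _ _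

/-- **the deviation of the content** -/
theorem cA_dev {a0 b0 : ℕ} (h : 1 ≤ a0) (m : ℕ) :
    |(m : ℝ) * (a0 / (a0 + b0)) - cA a0 b0 m| ≤ 1 ∧
      |(m : ℝ) * (b0 / (a0 + b0)) - ((m : ℝ) - cA a0 b0 m)| ≤ 1 := by
  have hs : (0 : ℝ) < a0 + b0 := by
    have : (1 : ℝ) ≤ a0 := by exact_mod_cast h
    have : (0 : ℝ) ≤ b0 := Nat.cast_nonneg _
    linarith
  have hs' : 0 < a0 + b0 := by omega
  have h1 : cA a0 b0 m * (a0 + b0) ≤ m * a0 := Nat.div_mul_le_self _ _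
  have h2 : m * a0 < (cA a0 b0 m + 1) * (a0 + b0) := by
    have := Nat.lt_mul_div_succ (m * a0) hs'
    unfold cA
    rwa [mul_comm (m * a0 / (a0 + b0) + 1)]
  have h1' : (cA a0 b0 m : ℝ) * (a0 + b0) ≤ m * a0 := by exact_mod_cast h1
  have h2' : (m : ℝ) * a0 < (cA a0 b0 m + 1) * (a0 + b0) := by exact_mod_cast h2
  have e1 : (m : ℝ) * (a0 / (a0 + b0)) = m * a0 / (a0 + b0) := by ring
  have g1 : (cA a0 b0 m : ℝ) ≤ m * a0 / (a0 + b0) := by rwa [le_div_iff₀ hs]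
  have g2 : (m : ℝ) * a0 / (a0 + b0) < cA a0 b0 m + 1 := by rwa [div_lt_iff₀ hs]
  have e2 : (m : ℝ) * (b0 / (a0 + b0)) = m - m * a0 / (a0 + b0) := by
    field_simp
    ring
  rw [e1, e2]
  constructor <;> rw [abs_le] <;> constructor <;> linarith

/-- the sizes which occur -/
def okB (a0 b0 m : ℕ) : Prop := (a0 + b0) ∣ m

instance (a0 b0 m : ℕ) : Decidable (okB a0 b0 m) := inferInstanceAs (Decidable (_ ∣ _))

/-- **the rows X** of size `m` at `D` (rows `0` if the size does not occur) -/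
def xB (a0 b0 m : ℕ) (D : ℂ) (i : Fin m) : ℂ :=
  if okB a0 b0 m then (if (i : ℕ) < cA a0 b0 m then -pz a0 b0 D else qz a0 b0 D) else 0

/-- **the cut rows and the ends** -/
def eB (a0 b0 m : ℕ) (D : ℂ) : ℂ := if okB a0 b0 m then qz a0 b0 D else 0

theorem okB_mul (a0 b0 k : ℕ) : okB a0 b0 (k * (a0 + b0)) := Dvd.intro_left k rfl

theorem xB_mul {a0 b0 : ℕ} (h : 1 ≤ a0) (k : ℕ) (D : ℂ) (i : Fin (k * (a0 + b0))) :
    xB a0 b0 (k * (a0 + b0)) D i = if (i : ℕ) < k * a0 then -pz a0 b0 D else qz a0 b0 D := by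
  unfold xB
  rw [if_pos (okB_mul a0 b0 k), cA_mul h]

theorem eB_mul (a0 b0 k : ℕ) (D : ℂ) : eB a0 b0 (k * (a0 + b0)) D = qz a0 b0 D :=
  if_pos (okB_mul a0 b0 k)

/-- the exact content of the sizes which occur -/
theorem cA_exact {a0 b0 m : ℕ} (h : 1 ≤ a0) (hm : okB a0 b0 m) :
    (cA a0 b0 m : ℝ) = m * (a0 / (a0 + b0)) ∧ ((m - cA a0 b0 m : ℕ) : ℝ) = m * (b0 / (a0 + b0)) := by
  obtain ⟨k, rfl⟩ := hm
  have hs : (a0 : ℝ) + b0 ≠ 0 := by
    have : (1 : ℝ) ≤ a0 := by exact_mod_cast h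
    have : (0 : ℝ) ≤ b0 := Nat.cast_nonneg _
    intro h0
    linarith
  rw [mul_comm (a0 + b0) k, cA_mul h]
  have e : k * (a0 + b0) - k * a0 = k * b0 := by
    rw [Nat.mul_add]
    exact Nat.add_sub_cancel_left _ _
  rw [e]
  push_cast
  constructor <;> field_simp

variable [Fil]

/-- **the data of the regular function of the content** -/
def RB (a0 b0 : ℕ) (ep : ℝ) (m : ℕ) (D : ℂ) : RU m (Fil.q * m) where
  c := NUP1.Leg.cc m
  c' := NUP1.Leg.cc (Fil.q * m)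
  β := beC ep
  x := xB a0 b0 m D
  y := yq (xB a0 b0 m D)
  p := eB a0 b0 m D
  q := eB a0 b0 m D
  g := gP (beC ep) [I, -I]
  g' := gP (beC ep) [I, -I]
  g0 := gO (T1L m) [] (rwq (xB a0 b0 m D) true)
  g0' := gO (T1L m) [] (rwq (xB a0 b0 m D) false)

/-- its final classes -/
def KB (a0 b0 : ℕ) (ep : ℝ) (m : ℕ) (D : ℂ) : KD := KRG (RB a0 b0 ep m D)

/-- the kernels of D1, D1' -/
def kDB (a0 b0 : ℕ) (ep : ℝ) (m : ℕ) (D : ℂ) : Bool → ℂ → ℂ := PB0.PLX.kDRU (RB a0 b0 ep m D)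

/-- the prefactor -/
def preB (a0 b0 m : ℕ) (D : ℂ) : ℂ :=
  preY (xB a0 b0 m D) (yq (xB a0 b0 m D)) (eB a0 b0 m D) (eB a0 b0 m D)

/-- **the regular function of the content**, `n` quanta X -/
def YB (a0 b0 : ℕ) (ep : ℝ) (m : ℕ) (D : ℂ) (n : ℕ) : ℂ :=
  preB a0 b0 m D * (RB a0 b0 ep m D).fin parTh n (n + Fil.xn m)

theorem KB_Z (a0 b0 : ℕ) (ep : ℝ) (m : ℕ) (D : ℂ) : (KB a0 b0 ep m D).Z =
    XB (RB a0 b0 ep m D).X (RB a0 b0 ep m D).Y := KRG_Z _

/-- **from the masses of the classes** -/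
theorem YB_le {a0 b0 : ℕ} {ep : ℝ} {m : ℕ} {D : ℂ} {E V C : ℝ}
    (h : ∀ t t' : HT, sValP parTh (KB a0 b0 ep m D) (2 * m) (Fil.xn m) t t' ≤ E)
    (hD : ∀ o : Bool, sValDP parTh (KB a0 b0 ep m D) (kDB a0 b0 ep m D) (2 * m) (Fil.xn m) o ≤ E)
    (hp : ‖preB a0 b0 m D‖ * E ≤ C * V) :
    ‖∑ n ∈ range (2 * m + 1), YB a0 b0 ep m D n‖ ≤ cFin * 18 * (C * V) := by
  have h1 := fin_le (RB a0 b0 ep m D) parTh (2 * m) (Fil.xn m)
  have h2 : (∑ t : HT, ∑ t' : HT, sValP parTh (KRG (RB a0 b0 ep m D)) (2 * m) (Fil.xn m) t t') +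
      (sValDP parTh (KRG (RB a0 b0 ep m D)) (PB0.PLX.kDRU (RB a0 b0 ep m D)) (2 * m) (Fil.xn m) true +
        sValDP parTh (KRG (RB a0 b0 ep m D)) (PB0.PLX.kDRU (RB a0 b0 ep m D)) (2 * m) (Fil.xn m)
          false) ≤ 18 * E := by
    have a1 : (∑ t : HT, ∑ t' : HT, sValP parTh (KRG (RB a0 b0 ep m D)) (2 * m) (Fil.xn m) t t') ≤
        ∑ _t : HT, ∑ _t' : HT, E := Finset.sum_le_sum fun t _ => Finset.sum_le_sum fun t' _ => h t t'
    have a2 : ∑ _t : HT, ∑ _t' : HT, E = 16 * E := by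
      rw [Finset.sum_const, Finset.sum_const, Finset.card_univ]
      have : Fintype.card HT = 4 := rfl
      rw [this, nsmul_eq_mul, nsmul_eq_mul]
      push_cast
      ring
    have a3 := hD true
    have a4 := hD false
    unfold kDB KB at a3 a4
    linarith
  have h3 : ∑ n ∈ range (2 * m + 1), ‖(RB a0 b0 ep m D).fin parTh n (n + Fil.xn m)‖ ≤
      cFin * (18 * E) := h1.trans (mul_le_mul_of_nonneg_left h2 cFin_nonneg)
  unfold YB
  rw [← Finset.mul_sum, norm_mul]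
  calc ‖preB a0 b0 m D‖ * ‖∑ n ∈ range (2 * m + 1), (RB a0 b0 ep m D).fin parTh n (n + Fil.xn m)‖
      ≤ ‖preB a0 b0 m D‖ * (cFin * (18 * E)) :=
        mul_le_mul_of_nonneg_left ((norm_sum_le _ _).trans h3) (norm_nonneg _)
    _ = cFin * 18 * (‖preB a0 b0 m D‖ * E) := by ring
    _ ≤ _ := mul_le_mul_of_nonneg_left hp (mul_nonneg cFin_nonneg (by norm_num))

end BY

end PLT

end
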