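import Pool.Agent.PLT.ValC0
import Pool.Agent.PLT.BYD

/-!
# The physical prefactor of a content is its mean field value

* `eO_oR`: `eO d = -(log ‖oR d‖ + log ‖oR (-d)‖)`; `log_thE`: the ends in one point are two legs;
* **`log_preY`**: for the sea of a content `w`, `X` (`SeaV`), rows `x` with the exact numbers (`CntV`), ends and cut
  rows at `e`: `log ‖preY x (yq x) e e‖ + MF (b a n) + ∑ₐ b a n ∫ P log ‖thE e e e e (l + I ga)‖` is a constant;
* **`preY_EM`**: the same with the numbers `sN n a`, exponential form; `sN_ends0`;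
* `BY.cntV_xB`, **`BY.preB_EM`**: the content of a tilted direction.
-/

set_option autoImplicit false
set_option linter.unusedSectionVars false
set_option linter.unusedVariables false

open MeasureTheory Set Filter Topology Complex
open PLX (Fil Ends)

noncomputable section

namespace PLT.Le

open NUMF (l l_pos)
open NUP1.Leg (thE)
open PBO.PLX (thZ)
open PBR (rh rh_neg rh_ne_zero)
open PBX (eT)
open Pool.Agent.PLX (yq Sf Lf)
open PotH.PLX (sN)
open Cv (ga)

variable {ι : Type*} [Fintype ι] {w : ι → ℝ} {X : ι → ℂ}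

private theorem hll : (NUP1.l : ℝ) = l := rfl

/-- one ordered pair of rows of one group does not vanish -/
theorem oR_ne {d : ℂ} (h : |d.re| < 2 * l) : oR d ≠ 0 := by
  have hl := l_pos
  obtain ⟨h1, h2⟩ := abs_lt.1 h
  have e1 : eT d ≠ 0 := Lf_ne (w := d) (by show -(2 * l) < _; linarith) (by show _ < 5 * l; linarith)
  have e2 : rh d ≠ 0 := rh_ne_zero (by rw [abs_lt]; constructor <;> (rw [hll]; linarith))
  exact mul_ne_zero e1 e2

/-- **the energy of two rows of one group** -/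
theorem eO_oR {d : ℂ} (h : |d.re| < 2 * l) :
    eO d = -(Real.log ‖oR d‖ + Real.log ‖oR (-d)‖) := by
  have hl := l_pos
  have hn : |(-d).re| < 2 * l := by rwa [Complex.neg_re, abs_neg]
  unfold eO
  rw [Sf_eT (w := d) (by rw [hll]; linarith), norm_mul]
  show -Real.log (‖oR d‖ * ‖oR (-d)‖) = _
  rw [Real.log_mul (norm_ne_zero_iff.2 (oR_ne h)) (norm_ne_zero_iff.2 (oR_ne hn))]

/-- all ordered pairs of one group -/
theorem sum_oR {n : ℕ} {x : Fin n → ℂ} (h : ∀ i j, |(x i - x j).re| < 2 * l) :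
    ∑ i, ∑ j, Real.log ‖oR (x i - x j)‖ = -(1 / 2) * ∑ i, ∑ j, eO (x i - x j) := by
  have e1 : ∑ i, ∑ j, eO (x i - x j) =
      -((∑ i, ∑ j, Real.log ‖oR (x i - x j)‖) + ∑ i, ∑ j, Real.log ‖oR (-(x i - x j))‖) := by
    rw [← Finset.sum_add_distrib, ← Finset.sum_neg_distrib]
    refine Finset.sum_congr rfl fun i _ => ?_
    rw [← Finset.sum_add_distrib, ← Finset.sum_neg_distrib]
    exact Finset.sum_congr rfl fun j _ => eO_oR (h i j)
  have e2 : ∑ i, ∑ j, Real.log ‖oR (-(x i - x j))‖ = ∑ i, ∑ j, Real.log ‖oR (x i - x j)‖ := by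
    rw [Finset.sum_comm]
    refine Finset.sum_congr rfl fun i _ => Finset.sum_congr rfl fun j _ => ?_
    rw [neg_sub]
  rw [e1, e2]
  ring

/-- **the ends in one point are two legs** -/
theorem norm_thE (e u : ℂ) : ‖thE e e e e u‖ = thZ e u ^ 2 := by
  unfold NUP1.Leg.thE PBO.PLX.thZ
  have h : u - e + 3 * (NUP1.l : ℂ) = -(e - u - 3 * NUP1.l) := by ring
  rw [h, Complex.sin_neg, norm_div, norm_mul, norm_mul, norm_neg, div_pow]
  ring

theorem log_thE (e u : ℂ) : Real.log ‖thE e e e e u‖ = 2 * Real.log (thZ e u) := by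
  rw [norm_thE, Real.log_pow]
  push_cast
  ring

/-- **the prefactor of the regular function with the ends and the cut rows in one point**: logarithm -/
theorem log_preY_Q {m M : ℕ} {x : Fin m → ℂ} {y : Fin M → ℂ} {e : ℂ}
    (hx : ∀ i j, |(x i - x j).re| < 2 * l) (hy : ∀ i j, |(y i - y j).re| < 2 * l)
    (hxy : ∀ i j, |(x i - y j).re| < 5 * l)
    (hex : ∀ i, -(2 * l) < (e - x i).re ∧ (e - x i).re < 5 * l)
    (hey : ∀ j, -(2 * l) < (e - y j).re ∧ (e - y j).re < 5 * l) :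
    preY x y e e ≠ 0 ∧ Real.log ‖preY x y e e‖ +
      (1 / 2 * (∑ i, ∑ j, eO (x i - x j)) + 1 / 2 * (∑ i, ∑ j, eO (y i - y j)) +
        (∑ i, ∑ j, eX (x i - y j)) + 2 * (∑ i, eL (e - x i)) + 2 * ∑ j, eL (e - y j)) =
      Real.log (9 / 4 * ‖sin (NUP1.l : ℂ)‖ / ‖rh 0‖ ^ 2) := by
  have hl := l_pos
  have ab : ∀ {a : ℝ}, -(2 * l) < a → a < 5 * l → |a| < 5 * l := fun h1 h2 =>
    abs_lt.2 ⟨by linarith, h2⟩
  have hp : Plc x y e e e :=
    { xx := fun i j => (hx i j).trans (by rw [hll]; linarith)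
      yy := fun i j => (hy i j).trans (by rw [hll]; linarith)
      xy := hxy
      px := fun i => ab (hex i).1 (hex i).2
      qx := fun i => ab (hex i).1 (hex i).2
      py := fun i => ab (hey i).1 (hey i).2
      qy := fun i => ab (hey i).1 (hey i).2
      pq := by rw [sub_self, Complex.zero_re, abs_zero, hll]; linarith
      zx := fun i => Lf_ne (hex i).1 (hex i).2
      zy := fun i => Lf_ne (hey i).1 (hey i).2 }
  have hr0 : rh 0 ≠ 0 := rh_ne_zero (by rw [Complex.zero_re, abs_zero, hll]; positivity)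
  have hs : sin (NUP1.l : ℂ) ≠ 0 :=
    PBS.sin_ne_of_bd (by simp only [Complex.ofReal_re]; exact hl)
      (by simp only [Complex.ofReal_re, hll]; linarith)
  have nx : ∀ i j, oR (x i - x j) ≠ 0 := fun i j => oR_ne (hx i j)
  have ny : ∀ i j, oR (y i - y j) ≠ 0 := fun i j => oR_ne (hy i j)
  have nr : ∀ i j, rh (x i - y j) ≠ 0 := fun i j => rh_ne_zero (hxy i j)
  have mx : ∀ i, eT (e - x i) ≠ 0 := hp.zx
  have my : ∀ j, eT (e - y j) ≠ 0 := hp.zy
  have e0 : preY x y e e = 9 / 4 * sin (NUP1.l : ℂ) / rh 0 ^ 2 *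
      ((∏ i, ∏ j, oR (x i - x j)) * (∏ i, ∏ j, oR (y i - y j)) / (∏ i, ∏ j, rh (x i - y j) ^ 2) *
        (∏ i, (eT (e - x i) * eT (e - x i))) * ∏ j, (eT (e - y j) * eT (e - y j))) := by
    unfold preY
    rw [pre_own hp, mul_div_cancel_left₀ _ (bulkU_ne hp), sub_self]
  have p1 : (∏ i, ∏ j, oR (x i - x j)) ≠ 0 := Finset.prod_ne_zero_iff.2 fun i _ =>
    Finset.prod_ne_zero_iff.2 fun j _ => nx i j
  have p2 : (∏ i, ∏ j, oR (y i - y j)) ≠ 0 := Finset.prod_ne_zero_iff.2 fun i _ =>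
    Finset.prod_ne_zero_iff.2 fun j _ => ny i j
  have p3 : (∏ i, ∏ j, rh (x i - y j) ^ 2) ≠ 0 := Finset.prod_ne_zero_iff.2 fun i _ =>
    Finset.prod_ne_zero_iff.2 fun j _ => pow_ne_zero _ (nr i j)
  have p4 : (∏ i, (eT (e - x i) * eT (e - x i))) ≠ 0 := Finset.prod_ne_zero_iff.2 fun i _ =>
    mul_ne_zero (mx i) (mx i)
  have p5 : (∏ j, (eT (e - y j) * eT (e - y j))) ≠ 0 := Finset.prod_ne_zero_iff.2 fun i _ =>
    mul_ne_zero (my i) (my i)
  have c0 : 9 / 4 * sin (NUP1.l : ℂ) / rh 0 ^ 2 ≠ 0 :=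
    div_ne_zero (mul_ne_zero (by norm_num) hs) (pow_ne_zero _ hr0)
  have l1 : Real.log ‖∏ i, ∏ j, oR (x i - x j)‖ = -(1 / 2) * ∑ i, ∑ j, eO (x i - x j) := by
    rw [← sum_oR hx, norm_prod, Real.log_prod fun i _ => norm_ne_zero_iff.2
      (Finset.prod_ne_zero_iff.2 fun j _ => nx i j)]
    refine Finset.sum_congr rfl fun i _ => ?_
    rw [norm_prod, Real.log_prod fun j _ => norm_ne_zero_iff.2 (nx i j)]
  have l2 : Real.log ‖∏ i, ∏ j, oR (y i - y j)‖ = -(1 / 2) * ∑ i, ∑ j, eO (y i - y j) := by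
    rw [← sum_oR hy, norm_prod, Real.log_prod fun i _ => norm_ne_zero_iff.2
      (Finset.prod_ne_zero_iff.2 fun j _ => ny i j)]
    refine Finset.sum_congr rfl fun i _ => ?_
    rw [norm_prod, Real.log_prod fun j _ => norm_ne_zero_iff.2 (ny i j)]
  have l3 : Real.log ‖∏ i, ∏ j, rh (x i - y j) ^ 2‖ = ∑ i, ∑ j, eX (x i - y j) := by
    rw [norm_prod, Real.log_prod fun i _ => norm_ne_zero_iff.2
      (Finset.prod_ne_zero_iff.2 fun j _ => pow_ne_zero _ (nr i j))]
    refine Finset.sum_congr rfl fun i _ => ?_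
    rw [norm_prod, Real.log_prod fun j _ => norm_ne_zero_iff.2 (pow_ne_zero _ (nr i j))]
    refine Finset.sum_congr rfl fun j _ => ?_
    rw [norm_pow, Real.log_pow]
    unfold eX
    push_cast
    rfl
  have l4 : Real.log ‖∏ i, (eT (e - x i) * eT (e - x i))‖ = -(2 * ∑ i, eL (e - x i)) := by
    rw [norm_prod, Real.log_prod fun i _ => norm_ne_zero_iff.2 (mul_ne_zero (mx i) (mx i)),
      Finset.mul_sum, ← Finset.sum_neg_distrib]
    refine Finset.sum_congr rfl fun i _ => ?_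
    rw [norm_mul, Real.log_mul (norm_ne_zero_iff.2 (mx i)) (norm_ne_zero_iff.2 (mx i))]
    show _ = -(2 * -Real.log ‖eT (e - x i)‖)
    ring
  have l5 : Real.log ‖∏ j, (eT (e - y j) * eT (e - y j))‖ = -(2 * ∑ j, eL (e - y j)) := by
    rw [norm_prod, Real.log_prod fun i _ => norm_ne_zero_iff.2 (mul_ne_zero (my i) (my i)),
      Finset.mul_sum, ← Finset.sum_neg_distrib]
    refine Finset.sum_congr rfl fun i _ => ?_
    rw [norm_mul, Real.log_mul (norm_ne_zero_iff.2 (my i)) (norm_ne_zero_iff.2 (my i))]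
    show _ = -(2 * -Real.log ‖eT (e - y i)‖)
    ring
  have l0 : Real.log ‖9 / 4 * sin (NUP1.l : ℂ) / rh 0 ^ 2‖ =
      Real.log (9 / 4 * ‖sin (NUP1.l : ℂ)‖ / ‖rh 0‖ ^ 2) := by
    rw [norm_div, norm_mul, norm_pow, norm_div, Complex.norm_ofNat, Complex.norm_ofNat]
  have q1 : (∏ i, ∏ j, oR (x i - x j)) * (∏ i, ∏ j, oR (y i - y j)) ≠ 0 := mul_ne_zero p1 p2
  have q2 := div_ne_zero q1 p3
  have q3 := mul_ne_zero q2 p4
  have q4 := mul_ne_zero q3 p5
  refine ⟨by rw [e0]; exact mul_ne_zero c0 q4, ?_⟩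
  rw [e0, norm_mul, Real.log_mul (norm_ne_zero_iff.2 c0) (norm_ne_zero_iff.2 q4), norm_mul _ (∏ j, _),
    Real.log_mul (norm_ne_zero_iff.2 q3) (norm_ne_zero_iff.2 p5), norm_mul _ (∏ i, _),
    Real.log_mul (norm_ne_zero_iff.2 q2) (norm_ne_zero_iff.2 p4), norm_div _ (∏ i, ∏ j, rh (x i - y j) ^ 2),
    Real.log_div (norm_ne_zero_iff.2 q1) (norm_ne_zero_iff.2 p3), norm_mul _ (∏ i, ∏ j, oR (y i - y j)),
    Real.log_mul (norm_ne_zero_iff.2 p1) (norm_ne_zero_iff.2 p2), l0, l1, l2, l3, l4, l5]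
  ring

variable [SeaC] [Fil]

/-- **the physical prefactor is the mean field value**, exactly -/
theorem log_preY (h : SeaV w X) {n : ℕ} {x : Fin n → ℂ} (hc : CntV w X x) {e : ℂ}
    (z1 : -(9 / 10 * l) ≤ e.re) (z2 : e.re ≤ 31 / 10 * l) :
    preY x (yq x) e e ≠ 0 ∧
    Real.log ‖preY x (yq x) e e‖ + (Cv.MF (fun a => Fil.b a * n) +
      ∑ a, Fil.b a * n * ∫ t, Cv.P t * Real.log ‖thE e e e e (l + I * ga t)‖) =
    Real.log (9 / 4 * ‖sin (NUP1.l : ℂ)‖ / ‖rh 0‖ ^ 2) := by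
  have hl := l_pos
  have hb : ∀ i, -l < (x i).re ∧ (x i).re ≤ l / 2 := fun i => by
    obtain ⟨k, hk⟩ := hc.mem i
    have := h.lo k
    rw [hk]
    exact ⟨by linarith, h.hi k⟩
  have hd : ∀ i j, |(x i - x j).re| < 2 * l := fun i j => by
    have b1 := hb i
    have b2 := hb j
    rw [Complex.sub_re, abs_lt]
    constructor <;> linarith
  have hz : ∀ i, -(2 * l) < (e - x i).re ∧ (e - x i).re < 5 * l := fun i => by
    have b1 := hb i
    rw [Complex.sub_re]
    constructor <;> linarith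
  obtain ⟨k1, k2⟩ := log_preY_Q (x := x) (y := yq x) (e := e) hd
    (fun i j => hd (Fin.modNat i) (Fin.modNat j))
    (fun i j => (hd i (Fin.modNat j)).trans (by linarith)) hz
    fun j => hz (Fin.modNat j)
  refine ⟨k1, ?_⟩
  rw [← k2]
  -- sums
  have p1 : ∀ F : ℂ → ℝ, ∑ i, ∑ j, F (x i - x j) =
      (n : ℝ) ^ 2 * ∑ i, ∑ j, w i * w j * F (X i - X j) := by
    intro F
    have e1 : ∀ i, ∑ j, F (x i - x j) = n * ∑ k, w k * F (x i - X k) := fun i =>
      hc.sum fun u => F (x i - u)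
    simp only [e1]
    rw [hc.sum fun u => n * ∑ k, w k * F (u - X k), Finset.mul_sum, Finset.mul_sum]
    refine Finset.sum_congr rfl fun i _ => ?_
    rw [Finset.mul_sum, Finset.mul_sum, Finset.mul_sum, Finset.mul_sum]
    refine Finset.sum_congr rfl fun j _ => ?_
    ring
  have y1 : ∑ i, ∑ j, eO (yq x i - yq x j) = Fil.q * (Fil.q * ∑ i, ∑ j, eO (x i - x j)) := by
    have e1 : ∀ i, ∑ j, eO (yq x i - yq x j) = Fil.q * ∑ j, eO (yq x i - x j) := fun i =>
      Pool.Agent.PLX.sum_yqn_real _ (fun u => eO (yq x i - u)) _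
    simp only [e1]
    rw [← Finset.mul_sum]
    congr 1
    exact Pool.Agent.PLX.sum_yqn_real _ (fun u => ∑ j, eO (u - x j)) _
  have y2 : ∑ i, ∑ j, eX (x i - yq x j) = Fil.q * ∑ i, ∑ j, eX (x i - x j) := by
    have e1 : ∀ i, ∑ j, eX (x i - yq x j) = Fil.q * ∑ j, eX (x i - x j) := fun i =>
      Pool.Agent.PLX.sum_yqn_real _ (fun u => eX (x i - u)) _
    simp only [e1]
    rw [← Finset.mul_sum]
  have y3 : ∑ j, eL (e - yq x j) = Fil.q * ∑ i, eL (e - x i) :=
    Pool.Agent.PLX.sum_yqn_real _ (fun u => eL (e - u)) _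
  have y4 : ∑ i, eL (e - x i) = n * ∑ k, w k * eL (e - X k) := hc.sum fun u => eL (e - u)
  have y5 : ∫ t, Cv.P t * Real.log ‖thE e e e e (l + I * ga t)‖ = 2 * ∑ k, w k * eL (e - X k) := by
    rw [← (int_leg h z1 z2).2, ← integral_const_mul]
    refine integral_congr_ae (Eventually.of_forall fun t => ?_)
    simp only
    rw [log_thE]
    ring
  rw [MF_val h, y1, y2, y3, y4, y5, p1 eO, p1 eX, Fintype.sum_bool]
  simp only [Fil.b_true, Fil.b_false]
  ring

variable [Ends]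

/-- the exponent of the base of a content: rows `sN n a`, ends and cut rows at `e` -/
def EMe (n : ℕ) (e : ℂ) : ℝ :=
  Cv.MF (sN n) + ∑ a, ∫ t, sN n a * Cv.P t * Real.log ‖thE e e e e (l + I * ga t)‖

/-- **the physical prefactor times the mean field value is a constant** -/
theorem preY_EM (h : SeaV w X) {n : ℕ} (hN : ∀ a, sN n a = Fil.b a * n) {x : Fin n → ℂ}
    (hc : CntV w X x) {e : ℂ} (z1 : -(9 / 10 * l) ≤ e.re) (z2 : e.re ≤ 31 / 10 * l) :
    ‖preY x (yq x) e e‖ * Real.exp (EMe n e) = 9 / 4 * ‖sin (NUP1.l : ℂ)‖ / ‖rh 0‖ ^ 2 := by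
  obtain ⟨k1, k2⟩ := log_preY h hc z1 z2
  have hl := l_pos
  have hr0 : 0 < ‖rh 0‖ := norm_pos_iff.2
    (rh_ne_zero (by rw [Complex.zero_re, abs_zero, hll]; positivity))
  have hs : 0 < ‖sin (NUP1.l : ℂ)‖ := norm_pos_iff.2
    (PBS.sin_ne_of_bd (by simp only [Complex.ofReal_re]; exact hl)
      (by simp only [Complex.ofReal_re, hll]; linarith))
  have e1 : EMe n e = Cv.MF (fun a => Fil.b a * n) +
      ∑ a, Fil.b a * n * ∫ t, Cv.P t * Real.log ‖thE e e e e (l + I * ga t)‖ := by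
    unfold EMe
    have e2 : (sN n : Bool → ℝ) = fun a => Fil.b a * n := funext hN
    rw [e2]
    congr 1
    refine Finset.sum_congr rfl fun a _ => ?_
    rw [← integral_const_mul]
    refine integral_congr_ae (Eventually.of_forall fun t => ?_)
    simp only
    ring
  have hpos : 0 < ‖preY x (yq x) e e‖ := norm_pos_iff.2 k1
  have e3 : ‖preY x (yq x) e e‖ = Real.exp (Real.log ‖preY x (yq x) e e‖) := (Real.exp_log hpos).symm
  rw [e3, ← Real.exp_add, e1, k2, Real.exp_log (by positivity)]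

end PLT.Le

namespace PLT.BY

open NUMF (l l_pos)
open Pa (pz qz)
open PotH.PLX (sN)
open PLX
open PLT.Le (SeaV CntV EMe)

/-- the numbers of the rows without ends in the sea -/
theorem sN_ends0 [Fil] (n : ℕ) (a : Bool) : @sN _ ends0 n a = Fil.b a * n := by
  have h : @Fil.ne _ ends0 a n = Fil.n a * n := by
    show Fil.n a * (n - 0) + 0 + cond a 0 0 = _
    cases a <;> simp
  show ((@Fil.ne _ ends0 a n : ℕ) : ℝ) = _
  rw [h]
  push_cast
  rw [Fil.cast_n]

/-- the weights of the content of a direction -/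
def wB (a0 b0 : ℕ) : Bool → ℝ := fun i => cond i (a0 / (a0 + b0)) (b0 / (a0 + b0))

/-- the places of the content of a direction -/
def XBp (a0 b0 : ℕ) (D : ℂ) : Bool → ℂ := fun i => cond i (-pz a0 b0 D) (qz a0 b0 D)

/-- **the rows of a size which occurs are an exact content** -/
theorem cntV_xB {a0 b0 m : ℕ} (h : 1 ≤ a0) (hm : okB a0 b0 m) (D : ℂ) :
    CntV (wB a0 b0) (XBp a0 b0 D) (xB a0 b0 m D) := by
  obtain ⟨c1, c2⟩ := cA_exact h hm
  refine ⟨fun F => ?_, fun i => ?_⟩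
  · have e1 : ∀ i : Fin m, F (xB a0 b0 m D i) =
        if (i : ℕ) < cA a0 b0 m then F (-pz a0 b0 D) else F (qz a0 b0 D) := by
      intro i
      unfold xB
      rw [if_pos hm]
      split_ifs <;> rfl
    rw [Finset.sum_congr rfl fun i _ => e1 i, Finset.sum_ite, Finset.sum_const, Finset.sum_const,
      nsmul_eq_mul, nsmul_eq_mul]
    have hle := cA_le a0 b0 m
    have k1 : (Finset.univ.filter fun i : Fin m => (i : ℕ) < cA a0 b0 m).card = cA a0 b0 m := by
      have h1 : (Finset.univ.filter fun i : Fin m => (i : ℕ) < cA a0 b0 m).card =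
          min m (cA a0 b0 m) := Fin.card_filter_val_lt
      rw [h1, min_eq_right hle]
    have k2 : (Finset.univ.filter fun i : Fin m => ¬ (i : ℕ) < cA a0 b0 m).card = m - cA a0 b0 m := by
      have h1 := Finset.card_filter_add_card_filter_not (s := (Finset.univ : Finset (Fin m)))
        (p := fun i : Fin m => (i : ℕ) < cA a0 b0 m)
      rw [k1, Finset.card_univ, Fintype.card_fin] at h1
      omega
    rw [k1, k2, c1, c2, Fintype.sum_bool]
    unfold wB XBp
    simp only [cond_true, cond_false]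
    ring
  · unfold xB
    rw [if_pos hm]
    split_ifs
    · exact ⟨true, rfl⟩
    · exact ⟨false, rfl⟩

/-- the rows of a size which does not occur -/
theorem cntV_xB0 {a0 b0 m : ℕ} (hm : ¬ okB a0 b0 m) (D : ℂ) :
    CntV (fun _ : Unit => (1 : ℝ)) (fun _ => (0 : ℂ)) (xB a0 b0 m D) := by
  refine ⟨fun F => ?_, fun i => ⟨(), ?_⟩⟩
  · have e1 : ∀ i : Fin m, F (xB a0 b0 m D i) = F 0 := by
      intro i
      unfold xB
      rw [if_neg hm]
    rw [Finset.sum_congr rfl fun i _ => e1 i]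
    simp
  · unfold xB
    rw [if_neg hm]

/-- **the physical prefactor of the content of a direction** -/
theorem preB_EM [SeaC] [Fil] [Ends] {a0 b0 m : ℕ} (h0 : 1 ≤ a0) (hm : okB a0 b0 m) {D : ℂ}
    (h : SeaV (wB a0 b0) (XBp a0 b0 D)) (hN : ∀ a, sN m a = Fil.b a * m)
    (z1 : -(9 / 10 * l) ≤ (qz a0 b0 D).re) (z2 : (qz a0 b0 D).re ≤ 31 / 10 * l) :
    ‖preB a0 b0 m D‖ * Real.exp (EMe m (eB a0 b0 m D)) =
      9 / 4 * ‖sin (NUP1.l : ℂ)‖ / ‖PBR.rh 0‖ ^ 2 := by
  have e : eB a0 b0 m D = qz a0 b0 D := if_pos hm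
  unfold preB
  rw [e]
  exact PLT.Le.preY_EM h hN (cntV_xB h0 hm D) z1 z2

/-- the sizes which do not occur -/
theorem preB_EM0 [SeaC] [Fil] [Ends] {a0 b0 m : ℕ} (hm : ¬ okB a0 b0 m) {D : ℂ}
    (h : SeaV (fun _ : Unit => (1 : ℝ)) (fun _ => (0 : ℂ))) (hN : ∀ a, sN m a = Fil.b a * m) :
    ‖preB a0 b0 m D‖ * Real.exp (EMe m (eB a0 b0 m D)) =
      9 / 4 * ‖sin (NUP1.l : ℂ)‖ / ‖PBR.rh 0‖ ^ 2 := by
  have hl := l_pos
  have e : eB a0 b0 m D = 0 := if_neg hm
  unfold preB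
  rw [e]
  exact PLT.Le.preY_EM h hN (cntV_xB0 hm D) (by rw [Complex.zero_re]; linarith)
    (by rw [Complex.zero_re]; linarith)

end PLT.BY

end
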