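import Pool.Agent.PLT.BYD
import Pool.Agent.PLT.BalB
import Pool.Agent.PLT.PhX

/-!
# The data of the content of a tilted direction: rows, ends, base of the classes

`1 ≤ a0 < b0`, `D ∈ Nz de`, all sizes `m`: rows at `-pz D'`, `qz D'`, `D' = DB a0 b0 m D` (`D` for the sizes which occur,
`0` otherwise).

* `xB_DB`, `eB_DB`; **`places_B`**: real parts and heights of rows and ends;
* **`cntX_B`**: the rows are a content over the places `XAB a0 b0 (DB ..)`;
* **`rg6_RB`**: `RG6 (RB a0 b0 ep m D) [I, -I]`; `ptW_B`;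
* **`phT_RB`**: the cutoffs have no zero, one size for all `D`; **`lgBP_RB`**: the base of the classes.
-/

set_option autoImplicit false
set_option linter.unusedSectionVars false

noncomputable section

open Complex MeasureTheory Finset
open PLX (Fil Ends)

namespace PLT.BY

open NUP1 NUP1S NURow
open NUGC.PLX (beC)
open Pa (pz qz Nz)
open PBX (gP ph)
open PHK (Par6 gO LgBP)
open PBU.PLX (T1L)
open PBR.PLX (xrU)
open Pool.Agent.PLX (RU rwq yq)
open PLTX (RwG PtG PtE RG6 PhT GoodT)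

/-- the separation of the size `m` -/
def DB (a0 b0 m : ℕ) (D : ℂ) : ℂ := if okB a0 b0 m then D else 0

theorem pz_zero {A B : ℝ} : pz A B 0 = 0 := by
  unfold Pa.pz Pa.ub Pa.ua
  simp

theorem qz_zero {A B : ℝ} : qz A B 0 = 0 := by
  unfold Pa.qz
  rw [pz_zero, sub_zero]

variable {a0 b0 m : ℕ} {D : ℂ} {de : ℝ}

theorem DB_mem (hde : 0 < de) (h : D ∈ Nz de) : DB a0 b0 m D ∈ Nz de := by
  have hl := lpos
  unfold DB
  split_ifs
  · exact h
  · refine ⟨?_, ?_, ?_⟩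
    · rw [zero_re]
      linarith
    · rw [zero_re]
      linarith
    · rw [zero_im, abs_zero]
      exact hde

theorem xB_DB (i : Fin m) : xB a0 b0 m D i =
    if (i : ℕ) < cA a0 b0 m then -pz a0 b0 (DB a0 b0 m D) else qz a0 b0 (DB a0 b0 m D) := by
  unfold xB DB
  split_ifs with h1 h2 h2
  · rfl
  · rfl
  · rw [pz_zero, neg_zero]
  · rw [qz_zero]

theorem eB_DB : eB a0 b0 m D = qz a0 b0 (DB a0 b0 m D) := by
  unfold eB DB
  split_ifs
  · rfl
  · rw [qz_zero]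

/-- a row is one of the two places -/
theorem xB_mem (i : Fin m) : ∃ s : Fin 2, xB a0 b0 m D i = XAB a0 b0 (DB a0 b0 m D) s := by
  rw [xB_DB]
  split_ifs
  · exact ⟨0, rfl⟩
  · exact ⟨1, rfl⟩

/-! ### sums over the rows -/

theorem sum_lt {c m : ℕ} (h : c ≤ m) (α β : ℝ) :
    ∑ i : Fin m, (if (i : ℕ) < c then α else β) = (c : ℝ) * α + ((m - c : ℕ) : ℝ) * β := by
  rw [Fin.sum_univ_eq_sum_range (fun i => if i < c then α else β) m]
  obtain ⟨k, rfl⟩ := Nat.exists_eq_add_of_le h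
  rw [Finset.sum_range_add]
  have h1 : ∑ i ∈ range c, (if i < c then α else β) = (c : ℝ) * α := by
    rw [Finset.sum_congr rfl fun i hi => if_pos (mem_range.1 hi), sum_const, card_range, nsmul_eq_mul]
  have h2 : ∑ i ∈ range k, (if c + i < c then α else β) = (k : ℝ) * β := by
    rw [Finset.sum_congr rfl fun i _ => if_neg (by omega), sum_const, card_range, nsmul_eq_mul]
  rw [h1, h2, Nat.add_sub_cancel_left]

theorem sum_xB (f : ℂ → ℝ) : ∑ i, f (xB a0 b0 m D i) =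
    (cA a0 b0 m : ℝ) * f (-pz a0 b0 (DB a0 b0 m D)) +
      ((m - cA a0 b0 m : ℕ) : ℝ) * f (qz a0 b0 (DB a0 b0 m D)) := by
  rw [← sum_lt (cA_le a0 b0 m)]
  refine Finset.sum_congr rfl fun i _ => ?_
  rw [xB_DB]
  split_ifs <;> rfl

/-! ### the content -/

variable [Fil]

/-- **the rows are a content over the two places**, all sizes -/
theorem cntX_B (h : 1 ≤ a0) (a : Bool) : CntX (Fil.q : ℝ) (wAB a0 b0) (XAB a0 b0 (DB a0 b0 m D))
    (List.ofFn (rwq (xB a0 b0 m D) a)) 0 := by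
  have hq : (1 : ℝ) ≤ Fil.q := by exact_mod_cast Fil.one_le_q
  have hd := cA_dev h m (b0 := b0)
  have hc : ((m - cA a0 b0 m : ℕ) : ℝ) = (m : ℝ) - cA a0 b0 m := by
    rw [Nat.cast_sub (cA_le a0 b0 m)]
  constructor
  · intro y hy
    obtain ⟨i, rfl⟩ := List.mem_ofFn.1 hy
    cases a
    · exact xB_mem _
    · exact xB_mem _
  · cases a
    · refine ⟨![Fil.q * cA a0 b0 m, Fil.q * (m - cA a0 b0 m)], fun f => ?_, fun i => ?_⟩
      · rw [List.map_ofFn, List.sum_ofFn]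
        show ∑ j, f (yq (xB a0 b0 m D) j) = _
        rw [Pool.Agent.PLX.yq_eq, Pool.Agent.PLX.sum_yqn_real, sum_xB, Fin.sum_univ_two]
        simp only [Matrix.cons_val_zero, Matrix.cons_val_one, XAB_zero, XAB_one]
        push_cast
        ring
      · have hlen : ((List.ofFn (rwq (xB a0 b0 m D) false)).length : ℝ) = Fil.q * m := by
          rw [List.length_ofFn]
          exact Nat.cast_mul _ _
        rw [hlen]
        fin_cases i
        · simp only [Fin.zero_eta, Matrix.cons_val_zero, wAB_zero]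
          have e : ((Fil.q : ℝ) * m + ((0 : ℕ) : ℝ)) * (a0 / (a0 + b0)) - ((Fil.q * cA a0 b0 m : ℕ) : ℝ) =
              Fil.q * ((m : ℝ) * (a0 / (a0 + b0)) - cA a0 b0 m) := by
            push_cast
            ring
          rw [e, abs_mul, abs_of_nonneg (by linarith)]
          nlinarith [hd.1]
        · simp only [Fin.mk_one, Matrix.cons_val_one, wAB_one]
          have e : ((Fil.q : ℝ) * m + ((0 : ℕ) : ℝ)) * (b0 / (a0 + b0)) -
              ((Fil.q * (m - cA a0 b0 m) : ℕ) : ℝ) =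
              Fil.q * ((m : ℝ) * (b0 / (a0 + b0)) - ((m : ℝ) - cA a0 b0 m)) := by
            rw [Nat.cast_mul, hc]
            push_cast
            ring
          simp only [Matrix.cons_val_fin_one]
          rw [e, abs_mul, abs_of_nonneg (by linarith)]
          nlinarith [hd.2]
    · refine ⟨![cA a0 b0 m, m - cA a0 b0 m], fun f => ?_, fun i => ?_⟩
      · rw [List.map_ofFn, List.sum_ofFn]
        show ∑ j, f (xB a0 b0 m D j) = _
        rw [sum_xB, Fin.sum_univ_two]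
        simp only [Matrix.cons_val_zero, Matrix.cons_val_one, XAB_zero, XAB_one, Matrix.cons_val_fin_one]
      · have hlen : ((List.ofFn (rwq (xB a0 b0 m D) true)).length : ℝ) = m := by
          rw [List.length_ofFn]
          rfl
        rw [hlen]
        fin_cases i
        · simp only [Fin.zero_eta, Matrix.cons_val_zero, wAB_zero]
          rw [Nat.cast_zero, add_zero]
          exact hd.1.trans hq
        · simp only [Fin.mk_one, Matrix.cons_val_one, wAB_one, Matrix.cons_val_fin_one]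
          rw [Nat.cast_zero, add_zero, hc]
          exact hd.2.trans hq

/-! ### the places -/

/-- **the places of rows and ends**, all sizes, all `D ∈ Nz de` -/
theorem places_B (h0 : 1 ≤ a0) (h1 : a0 < b0) {ε : ℝ} (hε : 0 < ε) :
    ∃ de : ℝ, 0 < de ∧ de ≤ 1 / 20 ∧ ∀ D ∈ Nz de, ∀ m : ℕ,
      (∀ s, -((1 - dAB a0 b0 + ε) * l) ≤ (XAB a0 b0 (DB a0 b0 m D) s).re ∧
        (XAB a0 b0 (DB a0 b0 m D) s).re ≤ (1 / 2 + ε) * l ∧ |(XAB a0 b0 (DB a0 b0 m D) s).im| ≤ ε) ∧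
      -(ε * l) ≤ (eB a0 b0 m D).re ∧ (eB a0 b0 m D).re ≤ (1 / 2 - eAB a0 b0 + ε) * l ∧
      |(eB a0 b0 m D).im| ≤ ε := by
  have hl := lpos
  have hA : (0 : ℝ) < a0 := by exact_mod_cast h0
  have hAB : (a0 : ℝ) < b0 := by exact_mod_cast h1
  have he := eAB_pos hA hAB
  have hd := dAB_le (a0 : ℝ) b0
  obtain ⟨de, hde, hde1, H⟩ := places_path hA hAB.le hε
  refine ⟨de, hde, hde1, fun D hD m => ?_⟩
  obtain ⟨p1, p2, q1, q2, p3, q3⟩ := H _ (DB_mem (a0 := a0) (b0 := b0) (m := m) hde hD)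
  have e1 : (NUMF.l : ℝ) = l := rfl
  rw [e1] at p1 p2 q1 q2
  have q1' : (qz a0 b0 (DB a0 b0 m D)).re ≤ (1 / 2 + ε) * l := by
    refine q1.trans (mul_le_mul_of_nonneg_right (by linarith) hl.le)
  refine ⟨fun s => ?_, ?_, ?_, ?_⟩
  · fin_cases s
    · show -((1 - dAB a0 b0 + ε) * l) ≤ (-pz a0 b0 (DB a0 b0 m D)).re ∧
        (-pz a0 b0 (DB a0 b0 m D)).re ≤ (1 / 2 + ε) * l ∧ |(-pz a0 b0 (DB a0 b0 m D)).im| ≤ ε
      rw [neg_re, neg_im, abs_neg]
      refine ⟨by linarith, ?_, p3⟩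
      have : ε * l ≤ (1 / 2 + ε) * l := mul_le_mul_of_nonneg_right (by linarith) hl.le
      linarith
    · show -((1 - dAB a0 b0 + ε) * l) ≤ (qz a0 b0 (DB a0 b0 m D)).re ∧
        (qz a0 b0 (DB a0 b0 m D)).re ≤ (1 / 2 + ε) * l ∧ |(qz a0 b0 (DB a0 b0 m D)).im| ≤ ε
      refine ⟨?_, q1', q3⟩
      have : ε * l ≤ (1 - dAB a0 b0 + ε) * l := mul_le_mul_of_nonneg_right (by linarith) hl.le
      linarith
  · rw [eB_DB]
    exact q2
  · rw [eB_DB]
    exact q1
  · rw [eB_DB]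
    exact q3

/-- rows of both groups are places -/
theorem row_mem (a : Bool) (i : Fin (cond a m (Fil.q * m))) :
    ∃ s : Fin 2, rwq (xB a0 b0 m D) a i = XAB a0 b0 (DB a0 b0 m D) s := by
  cases a
  · exact xB_mem _
  · exact xB_mem _

/-- the window of the rows for the strip of 34 / 63: `-((1 + lo) l) < re ≤ 101/200 l` -/
theorem row_win {ε lo : ℝ} (hε : ε ≤ 1 / 200) (hlo : -lo + ε < dAB a0 b0)
    (H : ∀ s, -((1 - dAB a0 b0 + ε) * l) ≤ (XAB a0 b0 (DB a0 b0 m D) s).re ∧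
        (XAB a0 b0 (DB a0 b0 m D) s).re ≤ (1 / 2 + ε) * l ∧ |(XAB a0 b0 (DB a0 b0 m D) s).im| ≤ ε)
    (a : Bool) (i : Fin (cond a m (Fil.q * m))) :
    -((1 + lo) * l) < (rwq (xB a0 b0 m D) a i).re ∧ (rwq (xB a0 b0 m D) a i).re ≤ 101 / 200 * l := by
  have hl := lpos
  obtain ⟨s, e⟩ := row_mem (a0 := a0) (b0 := b0) (D := D) a i
  rw [e]
  obtain ⟨h1, h2, -⟩ := H s
  constructor
  · have : (1 - dAB a0 b0 + ε) * l < (1 + lo) * l := mul_lt_mul_of_pos_right (by linarith) hl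
    linarith
  · have : (1 / 2 + ε) * l ≤ 101 / 200 * l := mul_le_mul_of_nonneg_right (by linarith) hl.le
    linarith

theorem rwG_B {ε : ℝ} (hε : ε ≤ 1 / 200) (hd : ε < dAB a0 b0)
    (H : ∀ s, -((1 - dAB a0 b0 + ε) * l) ≤ (XAB a0 b0 (DB a0 b0 m D) s).re ∧
        (XAB a0 b0 (DB a0 b0 m D) s).re ≤ (1 / 2 + ε) * l ∧ |(XAB a0 b0 (DB a0 b0 m D) s).im| ≤ ε)
    (a : Bool) : RwG (rwq (xB a0 b0 m D) a) := fun i => by
  have h := row_win (lo := 0) hε (by linarith) H a i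
  have e : -((1 + 0) * l) = -l := by ring
  rw [e] at h
  exact h

/-- **the points of the cutoffs** -/
theorem ptI {w : ℂ} (hw : w ∈ ([I, -I] : List ℂ)) : w.re = 0 ∧ |w.im| ≤ 1 := by
  simp only [List.mem_cons, List.not_mem_nil, or_false] at hw
  rcases hw with rfl | rfl
  · simp
  · simp

theorem xrU_RB {ep : ℝ} (a : Bool) : xrU (RB a0 b0 ep m D) a = rwq (xB a0 b0 m D) a := by
  cases a <;> rfl

/-- the constant of the data -/
theorem cosl_pos : 0 < 2 * Real.cos l := by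
  have hl := lpos
  have : 0 < Real.cos l := Real.cos_pos_of_mem_Ioo ⟨by linarith [Real.pi_pos], by
    unfold NUP1.l
    linarith [Real.pi_pos]⟩
  linarith

theorem beC_bds {ep : ℝ} (h0 : 0 < ep) (h1 : ep ≤ 1 / 100) : 4 / 3 * (99 / 100) ≤ beC ep ∧ beC ep ≤ 4 / 3 := by
  unfold NUGC.PLX.beC
  constructor <;> linarith

/-- **the data are admissible** -/
theorem rg6_RB {ε ep : ℝ} (hε : ε ≤ 1 / 200) (hd : ε < dAB a0 b0) (he : 0 < eAB a0 b0)
    (h0 : 0 < ep) (h1 : ep ≤ 1 / 100)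
    (H : ∀ s, -((1 - dAB a0 b0 + ε) * l) ≤ (XAB a0 b0 (DB a0 b0 m D) s).re ∧
        (XAB a0 b0 (DB a0 b0 m D) s).re ≤ (1 / 2 + ε) * l ∧ |(XAB a0 b0 (DB a0 b0 m D) s).im| ≤ ε)
    (H1 : -(ε * l) ≤ (eB a0 b0 m D).re) (H2 : (eB a0 b0 m D).re ≤ (1 / 2 - eAB a0 b0 + ε) * l) :
    RG6 (RB a0 b0 ep m D) fun _ => [I, -I] := by
  have hl := lpos
  obtain ⟨b1, b2⟩ := beC_bds h0 h1
  have b3 : 0 < beC ep := by linarith
  have hp : PtE (eB a0 b0 m D) := by
    constructor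
    · have : ε * l ≤ 1 / 200 * l := mul_le_mul_of_nonneg_right hε hl.le
      linarith
    · have : (1 / 2 - eAB a0 b0 + ε) * l ≤ 101 / 200 * l :=
        mul_le_mul_of_nonneg_right (by linarith) hl.le
      linarith
  have hx := rwG_B hε hd H
  have hcc : ∀ n, NUP1.Leg.cc n ≠ 0 := fun n => by
    rw [← norm_pos_iff, PBX.norm_cc]
    exact cosl_pos
  refine ⟨b3, b2, hx true, hx false, hp, hp, rfl, rfl, fun a w hw => ?_, ?_, ?_, hcc _, hcc _⟩
  · obtain ⟨e1, -⟩ := ptI hw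
    constructor
    · rw [e1]
      linarith
    · rw [e1]
      positivity
  · exact PLTX.gF6_G (T1L m) (hx true) fun w hw => by simp at hw
  · exact PLTX.gF6_G (T1L m) (hx false) fun w hw => by simp at hw

/-! ### the cutoffs -/

theorem qz_low {A B : ℝ} (hA : 0 < A) (hB : 0 < B) (hde : de ≤ 1 / 20) (h : D ∈ Nz de) (hde0 : 0 < de) :
    -de ≤ (qz A B D).re := by
  have h1 := Pa.re_pz hA hB hde h
  have h2 : (qz A B D).re = D.re - (pz A B D).re := by
    unfold Pa.qz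
    rw [sub_re]
  rw [h2]
  obtain ⟨b1, b2⟩ := abs_le.1 h1
  have h3 := h.1
  rcases le_total 0 D.re with h4 | h4
  · rw [abs_of_nonneg h4] at b2
    linarith
  · rw [abs_of_nonpos h4] at b2
    linarith

/-- the weights of the places on the right of `-l/4` -/
theorem half_w (h0 : 1 ≤ a0) (h1 : a0 < b0) {D' : ℂ} (hq : -(1 / 4) * l ≤ (qz a0 b0 D').re) :
    ∑ i, wAB a0 b0 i ≤ 2 * ∑ i, if -(1 / 4) * l ≤ (XAB a0 b0 D' i).re then wAB a0 b0 i else 0 := by
  have hA : (0 : ℝ) < a0 := by exact_mod_cast h0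
  have hAB : (a0 : ℝ) < b0 := by exact_mod_cast h1
  have hB : (0 : ℝ) < b0 := hA.trans hAB
  rw [wAB_sum hA hB, Fin.sum_univ_two, XAB_one, if_pos hq, wAB_one, XAB_zero]
  have h2 : 1 / 2 ≤ (b0 : ℝ) / (a0 + b0) := by
    rw [div_le_div_iff₀ two_pos (by positivity)]
    linarith
  have h3 : 0 ≤ (if -(1 / 4) * l ≤ (-pz a0 b0 D').re then wAB a0 b0 0 else 0) := by
    split_ifs
    · exact wAB_nn hA hB 0
    · exact le_rfl
  linarith

/-- the spread of the places -/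
theorem spread_B (h0 : 1 ≤ a0) (h1 : a0 < b0) (hde0 : 0 < de) (hde : de ≤ 1 / 1000 * l) (h : D ∈ Nz de)
    (i i' : Fin 2) : (XAB a0 b0 D i).re - (XAB a0 b0 D i').re ≤ (1 + 1 / 1000) * l := by
  have hl := lpos
  have hA : (0 : ℝ) < a0 := by exact_mod_cast h0
  have hAB : (a0 : ℝ) < b0 := by exact_mod_cast h1
  have hB : (0 : ℝ) < b0 := hA.trans hAB
  have hl4 := Pa.l_lt
  have hde' : de ≤ 1 / 20 := by linarith
  have h1 := Pa.re_pz hA hB hde' h
  have h2 : (qz a0 b0 D).re = D.re - (pz a0 b0 D).re := by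
    unfold Pa.qz
    rw [sub_re]
  obtain ⟨b1, b2⟩ := abs_le.1 h1
  have h3 := h.1
  have h4 := h.2.1
  fin_cases i <;> fin_cases i' <;>
    simp only [Fin.zero_eta, Fin.mk_one, XAB_zero, XAB_one, neg_re, sub_self] <;> try positivity
  · rw [h2]
    linarith
  · rw [h2]
    linarith

/-- **the cutoffs of the content have no zero in the strip of the holes**, one size for all `D` and `ep` -/
theorem phT_B (h0 : 1 ≤ a0) (h1 : a0 < b0) (hde0 : 0 < de) (hde : de ≤ 1 / 1000 * l) {c g : ℝ} (hg0 : 0 ≤ g)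
    (hg1 : g ≤ 1 / 10) (hc1 : c ≤ 1) (hgc : 2 * g ≤ c) (hc0 : 0 < c) (hsm : 10 ^ 5 * g ≤ c ^ 2)
    (hS : ∀ D ∈ Nz de, ∃ S : SeaC, @SeaOX (Fin 2) _ S c g (-g) (7 / 120) (wAB a0 b0) (XAB a0 b0 D)) :
    ∃ m0 : ℕ, ∀ m ≥ m0, ∀ D ∈ Nz de, ∀ ep : ℝ, 0 < ep → ep ≤ 1 / 100 → ∀ xa xb : ℝ, 0 ≤ xa →
      xb ≤ 93 / 100 * l → PhT (N := fun a => cond a m (Fil.q * m)) xa xb (beC ep) (xrU (RB a0 b0 ep m D))
        fun _ => [I, -I] := by
  have hl := lpos
  have hl4 := Pa.l_lt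
  have hl3 := Pa.l_gt
  have hA : (0 : ℝ) < a0 := by exact_mod_cast h0
  have hAB : (a0 : ℝ) < b0 := by exact_mod_cast h1
  have hB : (0 : ℝ) < b0 := hA.trans hAB
  have hde' : de ≤ 1 / 20 := by linarith
  have hsm' : 400 / ((c + -g) * l) ^ 2 * ((1 - 99 / 100) * g) ≤ (7 / 100 - 7 / 120) * l := by
    have e1 : 0 < (c + -g) * l := mul_pos (by linarith) hl
    rw [div_mul_eq_mul_div, div_le_iff₀ (by positivity)]
    have e2 : (c / 2 * (39 / 100)) ^ 2 ≤ ((c + -g) * l) ^ 2 := by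
      have e3 : c / 2 * (39 / 100) ≤ (c + -g) * l := mul_le_mul (by linarith) hl3.le (by norm_num) (by linarith)
      exact pow_le_pow_left₀ (by positivity) e3 2
    have e4 : (7 / 100 - 7 / 120) * (39 / 100) * (c / 2 * (39 / 100)) ^ 2 ≤
        (7 / 100 - 7 / 120) * l * ((c + -g) * l) ^ 2 := by
      refine mul_le_mul ?_ e2 (by positivity) (by positivity)
      linarith
    refine le_trans ?_ e4
    nlinarith
  obtain ⟨N0, H⟩ := PLTX.phT_X (ι := Fin 2) (de := c) (s0 := g) (lo := -g) (hi := 7 / 120) (j1 := 7 / 100)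
    (ρ0 := 99 / 100) (K0 := Fil.q) (wm := a0 / (a0 + b0)) (h0 := 1) hc0.le (by linarith) (by linarith)
    (by linarith) (by norm_num) hg0 hg1 (by norm_num) (by norm_num) (by norm_num) hsm' (by positivity)
    (Nat.cast_nonneg _) zero_le_one 2
  refine ⟨N0, fun m hm D hD ep he0 he1 xa xb hxa hxb => ?_⟩
  have hD' := DB_mem (a0 := a0) (b0 := b0) (m := m) hde0 hD
  obtain ⟨S, hSO⟩ := hS _ hD'
  obtain ⟨b1, b2⟩ := beC_bds he0 he1
  have hq := Fil.one_le_q
  have key := @H S (wAB a0 b0) (XAB a0 b0 (DB a0 b0 m D)) hSO (fun i => ?_)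
    (spread_B h0 h1 hde0 hde hD') (half_w h0 h1 ?_) (fun a => cond a m (Fil.q * m)) (rwq (xB a0 b0 m D))
    (fun _ => [I, -I]) (fun _ => 0) (fun a => cntX_B h0 a) (fun a w hw => ?_) (fun a => by simp) (fun a => ?_)
    (beC ep) b1 b2 xa xb hxa (by linarith)
  · have e : xrU (RB a0 b0 ep m D) = rwq (xB a0 b0 m D) := funext fun a => xrU_RB a
    rw [e]
    exact key
  · fin_cases i
    · exact le_rfl
    · show (a0 : ℝ) / (a0 + b0) ≤ b0 / (a0 + b0)
      exact div_le_div_of_nonneg_right hAB.le (by positivity)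
  · have := qz_low hA hB hde' hD' hde0
    linarith
  · obtain ⟨e1, e2⟩ := ptI hw
    refine ⟨⟨?_, ?_⟩, e2⟩
    · rw [e1]
      linarith
    · rw [e1]
      positivity
  · cases a
    · show N0 ≤ Fil.q * m
      calc N0 ≤ m := hm
        _ = 1 * m := (one_mul m).symm
        _ ≤ Fil.q * m := Nat.mul_le_mul_right m hq
    · exact hm

end PLT.BY

end
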