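import Pool.Agent.PLT.OwnX
import Pool.Agent.PLT.BYR
import Pool.Agent.PLT.BYP
import Pool.Agent.PLT.SeaYB

/-!
# The own factors of the regular function of the content of a direction

`1 ≤ a0 < b0`, index `D ∈ Nz (deAB a0 b0)`, the sea `seaAB a0 b0 (DB a0 b0 m D)` of the size `m`:

* `CutB a0 b0`: the cutoffs of the rows at the lines of the letters (input, `CutX6`);
* `ownF_B`: the record of the family; **`hown_B`**: the two inputs of `clOkY_of` (own factors, kernels of D1, D1').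
-/

set_option autoImplicit false
set_option linter.unusedSectionVars false

noncomputable section

open Complex MeasureTheory Set
open PLX (Fil Ends)

namespace PLT.BY

open NURow (HT)
open PHK PBR.PLX
open NUP1 (l)
open NUGC (cut)
open PotH.PLX (sN)
open Pa (pz qz Nz)
open Pool.Agent.PLX (RU rwq yq)
open PBQ.PLX (KD OwnDLe)

attribute [local instance] _root_.PLX.ends0

variable [Fil]

/-- **the cutoffs of the rows at the lines of the letters** -/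
def CutB (a0 b0 : ℕ) : Prop :=
  ∀ ep : ℝ, 0 < ep → ep ≤ 1 / 100 → ∃ A : ℝ, 1 ≤ A ∧ ∃ m0 : ℕ, ∀ m ≥ m0, ∀ D ∈ Nz (deAB a0 b0),
    CutX6 (RB a0 b0 ep m D).x m ep A (RB a0 b0 ep m D).β (RB a0 b0 ep m D).g (RB a0 b0 ep m D).g0 ∧
    CutX6 (RB a0 b0 ep m D).y m ep A (RB a0 b0 ep m D).β (RB a0 b0 ep m D).g' (RB a0 b0 ep m D).g0'

theorem norm_cc_le (n : ℕ) : ‖NUP1.Leg.cc n‖ ≤ 2 := by
  rw [PBX.norm_cc]
  linarith [Real.cos_le_one l]

/-- the rows of the sea of the content -/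
theorem nX_B (a0 b0 m : ℕ) (D : ℂ) (a : Bool) :
    sN m a = nX (fun a => List.ofFn (rwq (xB a0 b0 m D) a)) (fun _ => 0) a := by
  rw [sN_ends0]
  unfold nX
  rw [List.length_ofFn, Nat.cast_zero, add_zero]
  cases a
  · exact (Nat.cast_mul _ _).symm
  · show (1 : ℝ) * m = _
    rw [one_mul]
    rfl

/-- the window of the ends -/
theorem endL_B {a0 b0 : ℕ} (h0 : 1 ≤ a0) (h1 : a0 < b0) {D : ℂ} (hD : D ∈ Nz (deAB a0 b0)) (m : ℕ) :
    EndL (gAB a0 b0) (eB a0 b0 m D) := by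
  have hl := NUP1.l_pos
  have hA : (0 : ℝ) < a0 := by exact_mod_cast h0
  have hAB : (a0 : ℝ) < b0 := by exact_mod_cast h1
  have S := seasAB hA hAB
  have hD' := DB_mem (a0 := a0) (b0 := b0) (m := m) S.de0 hD
  have hs := S.at' _ hD'
  have hc := gAB_c hA hAB
  have hc0 := cAB_pos hA hAB
  have hso := hs.ox (-(gAB a0 b0)) (7 / 120) (by rw [neg_neg]) (by rw [neg_neg]; linarith) le_rfl (by norm_num)
  have hq := qz_low hA (hA.trans hAB) S.de1 hD' S.de0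
  have hdl : deAB a0 b0 ≤ l / 1000 := S.del
  have hup := @SeaOX.up _ _ (seaAB a0 b0 (DB a0 b0 m D)) _ _ _ _ _ _ hso 1
  have him := hs.im 1
  rw [XAB_one] at hup him
  have hll : (NUMF.l : ℝ) = l := rfl
  rw [hll] at hup
  rw [eB_DB]
  refine ⟨by linarith, ?_, him⟩
  have : 0 ≤ cAB a0 b0 * l := by positivity
  linarith

/-- **the contents of a direction and their seas** -/
theorem cntDX_Bo {a0 b0 : ℕ} (h0 : 1 ≤ a0) (h1 : a0 < b0) {D : ℂ} (hD : D ∈ Nz (deAB a0 b0)) (m : ℕ) :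
    @CntDX (Fin 2) _ (seaAB a0 b0 (DB a0 b0 m D)) (cAB a0 b0) (gAB a0 b0) (-(gAB a0 b0)) (7 / 120)
      (a0 / (a0 + b0)) Fil.q (gAB a0 b0) 0 (wAB a0 b0) (XAB a0 b0 (DB a0 b0 m D))
      (fun a => List.ofFn (rwq (xB a0 b0 m D) a)) (fun _ => 0) (fun _ => [])
      (fun a => List.ofFn (rwq (xB a0 b0 m D) a)) 0 m := by
  have hl := NUP1.l_pos
  have hA : (0 : ℝ) < a0 := by exact_mod_cast h0
  have hAB : (a0 : ℝ) < b0 := by exact_mod_cast h1
  have S := seasAB hA hAB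
  have hD' := DB_mem (a0 := a0) (b0 := b0) (m := m) S.de0 hD
  have hs := S.at' _ hD'
  have hc := gAB_c hA hAB
  have hc0 := cAB_pos hA hAB
  have hso := hs.ox (-(gAB a0 b0)) (7 / 120) (by rw [neg_neg]) (by rw [neg_neg]; linarith) le_rfl (by norm_num)
  have hdl : deAB a0 b0 ≤ l / 1000 := S.del
  have hq := qz_low hA (hA.trans hAB) S.de1 hD' S.de0
  refine @CntDX.mk (Fin 2) _ (seaAB a0 b0 (DB a0 b0 m D)) _ _ _ _ _ _ _ _ _ _ _ _ _ _ _ _ hso
    (fun i => ?_) (spread_B h0 h1 S.de0 (by linarith) hD') (half_w h0 h1 (by linarith))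
    (fun a => cntX_B h0 a) ⟨(gAB_pos hA hAB).le, hc0, cAB_le _ _, fun _ => le_rfl, fun s => by rw [List.append_nil],
      fun _ => rfl, fun s x hx => by simp at hx, fun s x hx => by simp at hx⟩ (fun a => ?_)
  · fin_cases i
    · exact le_rfl
    · show (a0 : ℝ) / (a0 + b0) ≤ b0 / (a0 + b0)
      exact div_le_div_of_nonneg_right hAB.le (by linarith)
  · rw [← nX_B a0 b0 m D a, sN_ends0]
    have hq1 : (1 : ℝ) ≤ Fil.q := by exact_mod_cast Fil.one_le_q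
    have hm : (0 : ℝ) ≤ m := Nat.cast_nonneg m
    cases a
    · show (m : ℝ) ≤ 2 * (Fil.q * m)
      nlinarith
    · show (m : ℝ) ≤ 2 * (1 * m)
      linarith

/-- **the record of the family** -/
theorem ownF_B {a0 b0 : ℕ} (h0 : 1 ≤ a0) (h1 : a0 < b0) (hC : CutB a0 b0) :
    OwnF (σ := {D // D ∈ Nz (deAB a0 b0)}) (Fin 2) (SBAB a0 b0) (cAB a0 b0) (gAB a0 b0)
      (-(gAB a0 b0)) (7 / 120) (a0 / (a0 + b0)) Fil.q (gAB a0 b0) 0
      (fun D m => seaAB a0 b0 (DB a0 b0 m D)) (fun D ep m => KB a0 b0 ep m D)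
      (fun D ep m => kDB a0 b0 ep m D) := by
  have hA : (0 : ℝ) < a0 := by exact_mod_cast h0
  have hAB : (a0 : ℝ) < b0 := by exact_mod_cast h1
  have S := seasAB hA hAB
  intro ep hep hep1
  obtain ⟨A, hA1, m0, hm⟩ := hC ep hep hep1
  refine ⟨A, m0, fun m hm' D => ?_⟩
  obtain ⟨cx, cy⟩ := hm m hm' D.1 D.2
  have hD' := DB_mem (a0 := a0) (b0 := b0) (m := m) S.de0 D.2
  have hE := endL_B h0 h1 D.2 m
  exact ⟨(S.at' _ hD').su, wAB a0 b0, XAB a0 b0 (DB a0 b0 m D),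
    fun a => List.ofFn (rwq (xB a0 b0 m D) a), fun _ => 0, fun _ => [],
    fun a => List.ofFn (rwq (xB a0 b0 m D) a), 0, m, Fil.q * m, RB a0 b0 ep m D,
    cntDX_Bo h0 h1 D.2 m, fun a => nX_B a0 b0 m D a,
    ⟨rfl, rfl, hE, hE, norm_cc_le _, norm_cc_le _, ⟨rfl, rfl, rfl, rfl, Or.inr rfl, Or.inr rfl⟩, hA1,
      cx, cy⟩, rfl⟩

/-- **the own factors and the kernels of D1** of the contents of a direction, literal of `clOkY_of` -/
theorem hown_B {a0 b0 : ℕ} (h0 : 1 ≤ a0) (h1 : a0 < b0) (hC : CutB a0 b0) :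
    (∀ ep : ℝ, 0 < ep → ep ≤ 1 / 100 → ∃ C : ℝ, 0 ≤ C ∧ ∃ m0 : ℕ, ∀ m ≥ m0,
      ∀ (D : {D // D ∈ Nz (deAB a0 b0)}) (a : Bool) (t : HT) (u : Ch6), okC6 t u → ∀ τ : ℝ,
        own6 (KB a0 b0 ep m D) a t u (NUP1.vl (NUGC.PLX.htL t) τ) *
          Real.exp (MEC (fun m => @mNC (seaAB a0 b0 (DB a0 b0 m D)) (sN m) m)
            (fun m => @MFX _ _ (seaAB a0 b0 (DB a0 b0 m D)) m) m a t u τ) ≤
          C * 1 * Real.exp (-|τ|) * cut (Real.log m) ep (qh6 t u) τ) ∧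
    ∀ ep : ℝ, 0 < ep → ep ≤ 1 / 100 → ∃ C : ℝ, 0 ≤ C ∧ ∃ m0 : ℕ, ∀ m ≥ m0,
      ∀ D : {D // D ∈ Nz (deAB a0 b0)}, OwnDLe (kDB a0 b0 ep m D)
        (fun m => @MFX _ _ (seaAB a0 b0 (DB a0 b0 m D)) m) m C := by
  have hA : (0 : ℝ) < a0 := by exact_mod_cast h0
  have hAB : (a0 : ℝ) < b0 := by exact_mod_cast h1
  have hg := gAB_pos hA hAB
  have hc := gAB_c hA hAB
  have hc0 := cAB_pos hA hAB
  have hg1 := gAB_le hA hAB
  exact own_fam (Fin 2) (SBAB a0 b0) 0 hc0.le (by linarith) (cAB_le _ _) hg.le (by linarith)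
    (by linarith) (by linarith) (by norm_num) (div_pos hA (by linarith)) (Nat.cast_nonneg _) hg.le
    (ownF_B h0 h1 hC)

end PLT.BY

end
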