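import Pool.Agent.PLT.GXFam
import Pool.Agent.PLT.BYD
import Pool.Agent.PHK.BsR6

/-!
# The geometry of a content and its regular function

* **`obX_mul`**: the one body data of the geometry `GX` with a factor is that of the regular function with the
  rows `x`, `Y` = `q` copies, ends and cut rows at one place;
* **`BY.obX_RB`**: the content of a tilted direction.
-/

set_option autoImplicit false
set_option linter.unusedSectionVars false
set_option linter.unusedVariables false

noncomputable section

open Complex MeasureTheory Finset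
open PLX (Fil Ends)

namespace PLT

open PHK hiding mfo6
open NUGC.PLX (OB beC)
open PBU.PLX (T1L)
open PBR.PLX (obRU6 xrU F0U)
open Pool.Agent.PLX (RU rwq yq)

variable [Fil] [Ends]

/-- **the one body data of a content is that of its regular function** -/
theorem obX_mul {m : ℕ} (D : RU m (Fil.q * m)) (hy : D.y = yq D.x) (hq : D.q = D.p)
    (h0 : D.g0 = gO (T1L m) [] (rwq D.x true)) (h0' : D.g0' = gO (T1L m) [] (rwq D.x false))
    (g : Bool → ℂ → ℝ) :
    (obX m D.x D.p D.β).mul g = obRU6 D (fun _ => [I, -I]) (2 * Real.cos NUP1.l) g := by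
  obtain ⟨c, c', β, x, y, p, q, gg, gg', g0, g0'⟩ := D
  dsimp only at hy hq h0 h0'
  subst hy hq h0 h0'
  have hx : xrU (⟨c, c', β, x, yq x, q, q, gg, gg', gO (T1L m) [] (rwq x true),
      gO (T1L m) [] (rwq x false)⟩ : RU m (Fil.q * m)) = rwq x := by
    funext a
    cases a <;> rfl
  unfold obRU6
  rw [hx, obU6_rwq]
  unfold obX obX6 OB.mul
  dsimp only
  congr 1
  · funext a u
    ring
  · funext a u
    unfold F0U F0X
    cases a
    · exact (ph_gO (T1L m) [] (rwq x false) u).symm
    · exact (ph_gO (T1L m) [] (rwq x true) u).symm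

/-- the base of the geometry is that of its regular function -/
theorem GX_mul (P : Par6) (en : EnC) (S : ℕ → SeaC) (x : (m : ℕ) → Fin m → ℂ) (e : ℕ → ℂ) {m : ℕ}
    (D : RU m (Fil.q * m)) (hx : D.x = x m) (hp : D.p = e m) (hy : D.y = yq D.x) (hq : D.q = D.p)
    (h0 : D.g0 = gO (T1L m) [] (rwq D.x true)) (h0' : D.g0' = gO (T1L m) [] (rwq D.x false))
    (g : Bool → ℂ → ℝ) : ((GX P en S x e).B m D.β).mul g =
      obRU6 D (fun _ => [I, -I]) (2 * Real.cos NUP1.l) g := by
  have h := obX_mul D hy hq h0 h0' g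
  rw [hx, hp] at h
  exact h

namespace BY

/-- **the content of a tilted direction** -/
theorem obX_RB (a0 b0 m : ℕ) (ep : ℝ) (D : ℂ) (g : Bool → ℂ → ℝ) :
    (obX m (xB a0 b0 m D) (eB a0 b0 m D) (4 / 3 * (1 - ep))).mul g =
      obRU6 (RB a0 b0 ep m D) (fun _ => [I, -I]) (2 * Real.cos NUP1.l) g :=
  obX_mul (RB a0 b0 ep m D) rfl rfl rfl rfl g

end BY

end PLT

end
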