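import Pool.Agent.PHK.Leg6
import Pool.Agent.PLT.ObR

/-!
# The factor of the legs on the lines of the objects, any point with `LnT`

`thZ z u`, `-(9/10) l ≤ re z`:

* `leg_inv0`: the inverse for `0 ≤ re u ≤ l`, `re z ≤ (29/10) l` (hole lines of every point);
* **`leg_gu`, `leg_gl`**: bounds on the lines `upL P`, `loL P` for every `P` with `LnT P`;
* `leg_gl6`: the lower bound for `re z ≤ (31/10) l` when `P.j2 ≤ 7/8` (the straight point).
-/

set_option autoImplicit false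

noncomputable section

open Complex

namespace PLT

open NUP1 PHK
open PBO.PLX (thZ cZ cZ_pos thZ_ge leg_up leg_inv)

private theorem vlr (x t : ℝ) : (vl x t).re = x := by
  unfold vl
  simp

/-- the inverse of the legs on the lines of the holes -/
theorem leg_inv0 {z u : ℂ} (h1 : -(9 / 10 * l) ≤ z.re) (h2 : z.re ≤ 29 / 10 * l) (h3 : 0 ≤ u.re)
    (h4 : u.re ≤ l) : (thZ z u)⁻¹ ≤ cZ := by
  have hl := l_pos
  have h5 : 0 < z.re - u.re + 2 * l := by linarith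
  have h6 : z.re - u.re - 3 * l < 0 := by linarith
  have key : cZ⁻¹ ≤ thZ z u := by
    refine thZ_ge ?_ ?_ ?_ ?_
    · rw [abs_of_neg h6]; linarith
    · rw [abs_of_neg h6]; linarith
    · rw [abs_of_pos h5]; linarith
    · rw [abs_of_pos h5]; linarith
  calc (thZ z u)⁻¹ ≤ (cZ⁻¹)⁻¹ := inv_anti₀ (inv_pos.2 cZ_pos) key
    _ = cZ := inv_inv _

/-- **the legs from above on all lines** -/
theorem leg_gu {P : Par6} (hP : LnT P) {z : ℂ} (h1 : -(9 / 10 * l) ≤ z.re) (h2 : z.re ≤ 31 / 10 * l)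
    {j : ℝ} (hj : j ∈ upL P) (t : ℝ) : thZ z (vl ((1 - j) * l) t) ≤ cZ :=
  leg_up h1 h2 (up_re_T hP hj t).1 (up_re_T hP hj t).2

/-- **the inverse of the legs on the lines of the holes** -/
theorem leg_gl {P : Par6} (hP : LnT P) {z : ℂ} (h1 : -(9 / 10 * l) ≤ z.re) (h2 : z.re ≤ 29 / 10 * l)
    {j : ℝ} (hj : j ∈ loL P) (t : ℝ) : (thZ z (vl ((1 - j) * l) t))⁻¹ ≤ cZ :=
  leg_inv0 h1 h2 (lo_re_T hP hj t).1 (lo_re_T hP hj t).2

/-- the same up to `re z ≤ (31/10) l` at a point with `j2 ≤ 7/8` -/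
theorem leg_gl6 {P : Par6} (hP : LnT P) (h7 : P.j2 ≤ 7 / 8) {z : ℂ} (h1 : -(9 / 10 * l) ≤ z.re)
    (h2 : z.re ≤ 31 / 10 * l) {j : ℝ} (hj : j ∈ loL P) (t : ℝ) :
    (thZ z (vl ((1 - j) * l) t))⁻¹ ≤ cZ := by
  have hl := l_pos
  refine leg_inv h1 h2 ?_ (lo_re_T hP hj t).2
  have e1 := hP.j1e
  have e2 := hP.ej2
  rw [vlr]
  unfold loL at hj
  simp only [List.mem_cons, List.not_mem_nil, or_false] at hj
  rcases hj with rfl | rfl | rfl <;> nlinarith

end PLT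

end
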