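import Pool.Agent.PLT.OneMul
import Pool.Agent.PLT.MfX
import Pool.Agent.PLT.RateX

/-!
# One body bounds for contents at complex places over their seas

* `CntDX`: a content (list `c` of places in file units, `k` missing rows, further rows `ex`, all rows `W`)
  over its sea at size `m`;
* **`pr_cntX`**: the price of a hole, one constant for all contents and seas;
* **`one_cntTX`**: the one body factor of every object (clouds `mfo6` of the content, current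
  `hC`) against the activity, constants before sea, content, data;
* **`oneRTC_cntX`, `oneRC_cntX`**: every selection of a family of geometries with data `ObC`; with a bounded
  factor: `oneRTC_cntMX`, `oneRC_cntMX`.
-/

set_option autoImplicit false

noncomputable section

open Complex MeasureTheory Set

namespace PLT

open PHK
open NUO hiding vl_re vl_im
open NUP1 NUGC.PLX
open PBP.PLX (gT gT_nonneg)

/-- **a content at complex places over its sea**, size `m` -/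
structure CntDX {ι : Type*} [Fintype ι] [SeaC] (de s0 lo hi wm K0 h0 : ℝ) (n0 : ℕ) (w : ι → ℝ)
    (x : ι → ℂ) (c : Bool → List ℂ) (k : Bool → ℕ) (ex W : Bool → List ℂ) (miss m : ℕ) : Prop where
  so : SeaOX de s0 lo hi w x
  wm : ∀ i, wm ≤ w i
  sp : ∀ i i', (x i).re - (x i').re ≤ (1 + 1 / 1000) * l
  hf : ∑ i, w i ≤ 2 * ∑ i, if -(1 / 4) * l ≤ (x i).re then w i else 0
  cn : ∀ a, CntX K0 w x (c a) (k a)
  rw : RwX n0 h0 de miss c k ex W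
  ge : ∀ a, (m : ℝ) ≤ 2 * nX c k a

/-- **the price of a hole** -/
theorem pr_cntX (ι : Type*) [Fintype ι] {P : Par6} (hP : LnT P) {de s0 lo hi wm K0 : ℝ} (h0 : ℝ)
    (n0 : ℕ) (hdl : 0 < de + lo) (hde1 : de ≤ 1 / 50) (hs0 : 0 ≤ s0) (hs1 : s0 ≤ 1 / 10) (hlo : lo ≤ 0)
    (hj : hi < P.j1) (hwm : 0 < wm) (hK0 : 0 ≤ K0) :
    ∃ κ : ℝ, 0 < κ ∧ ∃ m0 : ℕ, ∀ [SeaC], ∀ {w : ι → ℝ} {x : ι → ℂ} {c : Bool → List ℂ}
      {k : Bool → ℕ} {ex W : Bool → List ℂ} {miss m : ℕ}, m0 ≤ m →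
      CntDX de s0 lo hi wm K0 h0 n0 w x c k ex W miss m →
      ∀ j ∈ loL P, ∀ a t, κ * (m * NUMF.P t) ≤ prX c a j t := by
  obtain ⟨κ, hκ, N0, H⟩ := rateX_P (ι := ι) (de := de) (s0 := s0) (lo := lo) (by linarith) hdl
    (by linarith) hlo (by linarith [hP.e48, hP.j1e]) hs0 hs1 hj hwm hK0
  refine ⟨κ / 2, by positivity, 2 * N0, @fun _ w x c k ex W miss m hm h j hjl a t => ?_⟩
  have hge := h.ge a
  unfold nX at hge
  have hN : N0 ≤ (c a).length + k a := by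
    have h2 : ((2 * N0 : ℕ) : ℝ) ≤ m := by exact_mod_cast hm
    push_cast at h2
    have h3 : ((N0 : ℕ) : ℝ) ≤ (((c a).length + k a : ℕ) : ℝ) := by
      push_cast
      linarith
    exact_mod_cast h3
  have hj' : P.j1 ≤ j ∧ j < 1 := by
    have h1 := hP.j1e
    have h2 := hP.ej2
    have h3 := hP.j2
    simp only [loL, List.mem_cons, List.not_mem_nil, or_false] at hjl
    rcases hjl with rfl | rfl | rfl
    · exact ⟨h1.le, by linarith⟩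
    · exact ⟨le_rfl, by linarith⟩
    · exact ⟨by linarith, h3⟩
  have h4 := (H w x h.so h.wm h.sp h.hf (c a) (k a) (h.cn a) hN j hj'.1 hj'.2 t).1
  have hP0 := P_nonneg6 t
  refine le_trans ?_ h4
  calc κ / 2 * (m * NUMF.P t) = κ * (m / 2 * NUMF.P t) := by ring
    _ ≤ κ * ((((c a).length : ℝ) + k a) * NUMF.P t) := by
        refine mul_le_mul_of_nonneg_left (mul_le_mul_of_nonneg_right ?_ hP0) hκ.le
        linarith

/-- **the one body factor of every object**, clouds of the content, current `hC`, the gain kept;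
constants before sea, content and data -/
theorem one_cntTX (ι : Type*) [Fintype ι] {P : Par6} (hP : LnT P) (B : SeaCB)
    {de s0 lo hi wm K0 : ℝ} (h0 : ℝ) (n0 : ℕ) (hdl : 0 < de + lo) (hde1 : de ≤ 1 / 50)
    (hs0 : 0 ≤ s0) (hs1 : s0 ≤ 1 / 10) (hlo0 : lo ≤ 0) (hlo : -(1 / 100) ≤ lo) (hj2 : P.j2 < 1 + lo)
    (hj : hi < P.j1) (hL : 2 + hi < P.jL)
    (hwm : 0 < wm) (hK0 : 0 ≤ K0) {C : ℝ} (hC0 : 0 < C) : ∃ κ : ℝ, 0 < κ ∧ ∀ K1 τ : ℝ,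
    ∃ Ac : ℝ, 0 < Ac ∧ ∀ e1 : ℝ, 0 < e1 → e1 ≤ 1 / 100 → ∀ J : ℝ, 0 ≤ J → ∃ m1 : ℕ, 3 ≤ m1 ∧
    ∀ m : ℕ, m1 ≤ m → ∀ kk : ℕ, ∀ ep : ℝ, 0 < ep → ep ≤ 1 / 100 → ∀ T' : ℝ,
    Tb (Real.log m) / (1 - ep) ≤ T' → ∀ [SeaC] [SeaCU B], ∀ {w : ι → ℝ} {x : ι → ℂ}
      {c : Bool → List ℂ} {k : Bool → ℕ} {ex W : Bool → List ℂ} {miss : ℕ},
      CntDX de s0 lo hi wm K0 h0 n0 w x c k ex W miss m →
    ∀ D : OB, ObC P C (rwEX c k ex) (pTX c ex) m (4 / 3 * (1 - ep)) (Tb (Real.log m) + τ) D →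
    ∀ (r : ℕ) (y : Xo),
      ob6 D P y * Real.exp (Cv.mfo6 (nX c k) (parts6 P y) -
          2 * Real.pi * wind6 (k6 y) * hC e1 J m (ht y) + exc T' (ht y) + K1) ≤
        act6 Ac (7 / 10 * (κ / 2)) (1 / 5) 6 τ kk (Real.log m) ep e1 J r (k6 y) (ht y) *
          Real.exp (-gT e1 (Real.log m) (ht y)) := by
  obtain ⟨κ, hκ, m0, Hp⟩ := pr_cntX (s0 := s0) (lo := lo) ι hP h0 n0 hdl hde1 hs0 hs1 hlo0 hj hwm hK0
  obtain ⟨C1, hC1, HM⟩ := mf_ofX (s0 := s0) ι hP K0 h0 (de := de) (by linarith) hde1 hlo hj2 hj hL n0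
  obtain ⟨C2, hC2⟩ : ∃ C2, C2 = C + C1 := ⟨_, rfl⟩
  have hC20 : 0 < C2 := by rw [hC2]; positivity
  refine ⟨κ, hκ, fun K1 τ => ?_⟩
  obtain ⟨Ac, hAc, H⟩ := one_hCCT K1 τ hκ (cKBC_pos hC20)
  refine ⟨Ac, hAc, fun e1 he he1 J hJ => ?_⟩
  obtain ⟨m1, hm1, H⟩ := H e1 he he1 J hJ
  refine ⟨max m1 m0, hm1.trans (le_max_left _ _), fun m hm kk ep hep hep1 T' hT' => ?_⟩
  intro _ _ w x c k ex W miss hD D hO r y
  simp only [max_le_iff] at hm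
  have hMf : Mf P C2 (rwEX c k ex) (Cv.clo (nX c k)) (prX c) (pTX c ex) :=
    (HM hD.so hD.cn hD.rw).mono (by rw [hC2]; linarith)
  have hOb : ObC P C2 (rwEX c k ex) (pTX c ex) m (4 / 3 * (1 - ep)) (Tb (Real.log m) + τ) D :=
    hO.mono (rwEX_nonneg c k ex) (by rw [hC2]; linarith)
  have hW := wkbC_of hC20 (by linarith) hMf hOb
  have key := H m hm.1 kk ep hep hep1 T' hT' P (prX c) (clK (Cv.clo (nX c k)) P) (Hp hm.2 hD) D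
    hO.nn hW r y
  rwa [← Cv.mfo6C_clK B] at key

section family

variable {F : Type*} {ι : Type*} [Fintype ι] {P : Par6} {B : SeaCB} {de s0 lo hi wm K0 h0 : ℝ}
  {n0 : ℕ} {C D τ Kc : ℝ} {GG : F → GeoC} {S : F → ℕ → SeaC} {w : F → ℕ → ι → ℝ}
  {x : F → ℕ → ι → ℂ} {c : F → ℕ → Bool → List ℂ} {k : F → ℕ → Bool → ℕ}
  {ex W : F → ℕ → Bool → List ℂ} {miss : F → ℕ → ℕ}

/-- **every selection of a family of geometries with contents** -/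
theorem oneRTC_cntX (hP : LnT P) (hS : ∀ f m, @SeaCU B (S f m)) (hdl : 0 < de + lo) (hde1 : de ≤ 1 / 50)
    (hs0 : 0 ≤ s0) (hs1 : s0 ≤ 1 / 10) (hlo0 : lo ≤ 0) (hlo : -(1 / 100) ≤ lo) (hj2 : P.j2 < 1 + lo)
    (hj : hi < P.j1) (hL : 2 + hi < P.jL) (hwm : 0 < wm) (hK0 : 0 ≤ K0) (hC : 0 < C)
    (hD : ∃ m0 : ℕ, ∀ f, ∀ m ≥ m0, @CntDX ι _ (S f m) de s0 lo hi wm K0 h0 n0 (w f m) (x f m) (c f m)
      (k f m) (ex f m) (W f m) (miss f m) m)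
    (hB : ∀ ep : ℝ, 0 < ep → ep ≤ 1 / 100 → ∃ m0 : ℕ, ∀ f, ∀ m ≥ m0,
      ObC P C (rwEX (c f m) (k f m) (ex f m)) (pTX (c f m) (ex f m)) m (4 / 3 * (1 - ep))
        (Tb (Real.log m) + τ) ((GG f).B m (4 / 3 * (1 - ep))))
    (h1 : ∀ (f : F) (m : ℕ) (ep e1 J : ℝ), 1 ≤ m → 0 < ep → 0 < e1 → 0 ≤ J →
      ∀ (r : ℕ) (O : Fin r → Xo) (j : Fin r), (GG f).one m ep e1 J r O j ≤
        oneEC (fun x => @Cv.mfo6 (S f m) (nX (c f m) (k f m)) (parts6 P x)) m ep e1 J O j + Kc)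
    (s : ℕ → F) : OneRTC P (GeoC.sel GG s) := by
  obtain ⟨κ, hκ, m0, Hp⟩ := pr_cntX (s0 := s0) (lo := lo) ι hP h0 n0 hdl hde1 hs0 hs1 hlo0 hj hwm hK0
  obtain ⟨C1, hC1, HM⟩ := mf_ofX (s0 := s0) ι hP K0 h0 (de := de) (by linarith) hde1 hlo hj2 hj hL n0
  obtain ⟨C2, hC2⟩ : ∃ C2, C2 = C + C1 := ⟨_, rfl⟩
  have hC20 : 0 < C2 := by rw [hC2]; positivity
  obtain ⟨m1, hm1⟩ := hD
  refine oneRTC_sel (C := C2) (κ := κ) (τ := τ) (Kc := Kc)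
    (rw := fun f m => rwEX (c f m) (k f m) (ex f m))
    (cl := fun f m => @Cv.clo (S f m) (nX (c f m) (k f m))) (pr := fun f m => prX (c f m))
    (pT := fun f m => pTX (c f m) (ex f m)) hC20 hκ ⟨m1, fun f m hm => ?_⟩
    ⟨max m0 m1, fun f m hm => ?_⟩ (fun ep hep hep1 => ?_)
    (fun f m ep e1 J a1 a2 a3 a4 r O j => ?_) s
  · letI := S f m
    have hd := hm1 f m hm
    exact (HM hd.so hd.cn hd.rw).mono (by rw [hC2]; linarith)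
  · simp only [ge_iff_le, max_le_iff] at hm
    letI := S f m
    exact Hp hm.1 (hm1 f m hm.2)
  · obtain ⟨m2, hm2⟩ := hB ep hep hep1
    exact ⟨m2, fun f m hm => (hm2 f m hm).mono (rwEX_nonneg _ _ _) (by rw [hC2]; linarith)⟩
  · have h2 := h1 f m ep e1 J a1 a2 a3 a4 r O j
    have e : (fun x => @Cv.mfo6 (S f m) (nX (c f m) (k f m)) (parts6 P x)) =
        clK (@Cv.clo (S f m) (nX (c f m) (k f m))) P := by
      funext x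
      exact @Cv.mfo6C_clK B (S f m) (hS f m) _ P x
    rwa [e] at h2

/-- the same without the gain -/
theorem oneRC_cntX (hP : LnT P) (hS : ∀ f m, @SeaCU B (S f m)) (hdl : 0 < de + lo) (hde1 : de ≤ 1 / 50)
    (hs0 : 0 ≤ s0) (hs1 : s0 ≤ 1 / 10) (hlo0 : lo ≤ 0) (hlo : -(1 / 100) ≤ lo) (hj2 : P.j2 < 1 + lo)
    (hj : hi < P.j1) (hL : 2 + hi < P.jL) (hwm : 0 < wm) (hK0 : 0 ≤ K0) (hC : 0 < C)
    (hD : ∃ m0 : ℕ, ∀ f, ∀ m ≥ m0, @CntDX ι _ (S f m) de s0 lo hi wm K0 h0 n0 (w f m) (x f m) (c f m)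
      (k f m) (ex f m) (W f m) (miss f m) m)
    (hB : ∀ ep : ℝ, 0 < ep → ep ≤ 1 / 100 → ∃ m0 : ℕ, ∀ f, ∀ m ≥ m0,
      ObC P C (rwEX (c f m) (k f m) (ex f m)) (pTX (c f m) (ex f m)) m (4 / 3 * (1 - ep))
        (Tb (Real.log m) + τ) ((GG f).B m (4 / 3 * (1 - ep))))
    (h1 : ∀ (f : F) (m : ℕ) (ep e1 J : ℝ), 1 ≤ m → 0 < ep → 0 < e1 → 0 ≤ J →
      ∀ (r : ℕ) (O : Fin r → Xo) (j : Fin r), (GG f).one m ep e1 J r O j ≤
        oneEC (fun x => @Cv.mfo6 (S f m) (nX (c f m) (k f m)) (parts6 P x)) m ep e1 J O j + Kc)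
    (s : ℕ → F) : OneRC P (GeoC.sel GG s) :=
  (oneRTC_cntX hP hS hdl hde1 hs0 hs1 hlo0 hlo hj2 hj hL hwm hK0 hC hD hB h1 s).oneRC

/-- **with a bounded factor** -/
theorem oneRTC_cntMX {BB : F → ℕ → ℝ → OB} (hP : LnT P) (hS : ∀ f m, @SeaCU B (S f m)) (hdl : 0 < de + lo)
    (hde1 : de ≤ 1 / 50) (hs0 : 0 ≤ s0) (hs1 : s0 ≤ 1 / 10) (hlo0 : lo ≤ 0) (hlo : -(1 / 100) ≤ lo)
    (hj2 : P.j2 < 1 + lo) (hj : hi < P.j1) (hL : 2 + hi < P.jL) (hwm : 0 < wm) (hK0 : 0 ≤ K0)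
    (hC : 0 < C) (hDD : 1 ≤ D)
    (hD : ∃ m0 : ℕ, ∀ f, ∀ m ≥ m0, @CntDX ι _ (S f m) de s0 lo hi wm K0 h0 n0 (w f m) (x f m) (c f m)
      (k f m) (ex f m) (W f m) (miss f m) m)
    (hB : ∀ ep : ℝ, 0 < ep → ep ≤ 1 / 100 → ∃ m0 : ℕ, ∀ f, ∀ m ≥ m0,
      ObC P C (rwEX (c f m) (k f m) (ex f m)) (pTX (c f m) (ex f m)) m (4 / 3 * (1 - ep))
        (Tb (Real.log m) + τ) (BB f m (4 / 3 * (1 - ep))))
    {g : F → ℕ → Bool → ℂ → ℝ} (g0 : ∀ f m a u, 0 ≤ g f m a u)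
    (hg : ∀ f m a, ∀ u ∈ DomP P (1 / 100), g f m a u ≤ D ∧ (g f m a u)⁻¹ ≤ D)
    (hGG : ∀ f m β, (GG f).B m β = (BB f m β).mul (g f m))
    (h1 : ∀ (f : F) (m : ℕ) (ep e1 J : ℝ), 1 ≤ m → 0 < ep → 0 < e1 → 0 ≤ J →
      ∀ (r : ℕ) (O : Fin r → Xo) (j : Fin r), (GG f).one m ep e1 J r O j ≤
        oneEC (fun x => @Cv.mfo6 (S f m) (nX (c f m) (k f m)) (parts6 P x)) m ep e1 J O j + Kc)
    (s : ℕ → F) : OneRTC P (GeoC.sel GG s) := by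
  refine oneRTC_cntX (C := C * D) (τ := τ) hP hS hdl hde1 hs0 hs1 hlo0 hlo hj2 hj hL hwm hK0 (by positivity) hD
    (fun ep hep hep1 => ?_) h1 s
  obtain ⟨m2, hm2⟩ := hB ep hep hep1
  refine ⟨m2, fun f m hm => ?_⟩
  rw [hGG]
  exact (hm2 f m hm).mul (rwEX_nonneg _ _ _) hC.le hDD (g0 f m) (hg f m)

/-- the same without the gain -/
theorem oneRC_cntMX {BB : F → ℕ → ℝ → OB} (hP : LnT P) (hS : ∀ f m, @SeaCU B (S f m)) (hdl : 0 < de + lo)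
    (hde1 : de ≤ 1 / 50) (hs0 : 0 ≤ s0) (hs1 : s0 ≤ 1 / 10) (hlo0 : lo ≤ 0) (hlo : -(1 / 100) ≤ lo)
    (hj2 : P.j2 < 1 + lo) (hj : hi < P.j1) (hL : 2 + hi < P.jL) (hwm : 0 < wm) (hK0 : 0 ≤ K0)
    (hC : 0 < C) (hDD : 1 ≤ D)
    (hD : ∃ m0 : ℕ, ∀ f, ∀ m ≥ m0, @CntDX ι _ (S f m) de s0 lo hi wm K0 h0 n0 (w f m) (x f m) (c f m)
      (k f m) (ex f m) (W f m) (miss f m) m)
    (hB : ∀ ep : ℝ, 0 < ep → ep ≤ 1 / 100 → ∃ m0 : ℕ, ∀ f, ∀ m ≥ m0,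
      ObC P C (rwEX (c f m) (k f m) (ex f m)) (pTX (c f m) (ex f m)) m (4 / 3 * (1 - ep))
        (Tb (Real.log m) + τ) (BB f m (4 / 3 * (1 - ep))))
    {g : F → ℕ → Bool → ℂ → ℝ} (g0 : ∀ f m a u, 0 ≤ g f m a u)
    (hg : ∀ f m a, ∀ u ∈ DomP P (1 / 100), g f m a u ≤ D ∧ (g f m a u)⁻¹ ≤ D)
    (hGG : ∀ f m β, (GG f).B m β = (BB f m β).mul (g f m))
    (h1 : ∀ (f : F) (m : ℕ) (ep e1 J : ℝ), 1 ≤ m → 0 < ep → 0 < e1 → 0 ≤ J →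
      ∀ (r : ℕ) (O : Fin r → Xo) (j : Fin r), (GG f).one m ep e1 J r O j ≤
        oneEC (fun x => @Cv.mfo6 (S f m) (nX (c f m) (k f m)) (parts6 P x)) m ep e1 J O j + Kc)
    (s : ℕ → F) : OneRC P (GeoC.sel GG s) :=
  (oneRTC_cntMX hP hS hdl hde1 hs0 hs1 hlo0 hlo hj2 hj hL hwm hK0 hC hDD hD hB g0 hg hGG h1 s).oneRC

end family

end PLT

end
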