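import Pool.Agent.PLT.ObIX
import Pool.Agent.PLT.OneCntX

/-!
# One body data over a content: all inputs composed

`ObC` with one constant for all seas, contents, rows and data, from some size on.

* `DatX`: rows, cutoff points and further factor; `PrX`: prices of the content and the comparison of the
  levels on the line of `T`; `InObX` = `DatX` and `PrX`;
* **`obC_datX`**: `ObC` from `DatX` and `PrX`;
* **`prX_cnt`, `obC_cntX`**: contents with two places over their seas (`CntDX`);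
* **`prX_axis`, `obC_axis`**: contents on the axis (any heights up to `s0`).
-/

set_option autoImplicit false

noncomputable section

open Complex MeasureTheory Set

namespace PLT

open NUP1 NUGC.PLX PBO.PLX PHK
open NUO (cut posT posS Tb)

/-- rows `xr` (places `c`, further rows `ex`), further points `W1`, `W2` of the cutoffs, further factor
`g` -/
structure DatX (n0 n1 miss : ℕ) (h0 de G d1 : ℝ) (P : Par6) (c : Bool → List ℂ) (k : Bool → ℕ)
    (ex : Bool → List ℂ) (m : ℕ) {M : Bool → ℕ} (xr : ∀ a, Fin (M a) → ℂ)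
    (W1 W2 : Bool → List ℂ) (g : Bool → ℂ → ℝ) : Prop where
  rows : RwX n0 h0 de miss c k ex fun a => List.ofFn (xr a)
  pl : ∀ a, Wdw h0 de (c a)
  num : ∀ a, (M a : ℝ) ≤ d1 * m
  w1 : ∀ a, (W1 a).length ≤ n1 ∧ Wdw h0 de (W1 a)
  w2 : ∀ a, (W2 a).length ≤ n1 ∧ Wdw h0 de (W2 a)
  gp : ∀ a u, 0 ≤ g a u
  gu : ∀ j ∈ upL P, ∀ (a : Bool) (t : ℝ), g a (vl ((1 - j) * l) t) ≤ G
  gl : ∀ j ∈ loL P, ∀ (a : Bool) (t : ℝ), (g a (vl ((1 - j) * l) t))⁻¹ ≤ G

/-- prices of the content `c` at size `m`, with rate `cP`, and its levels on the line of `T` -/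
structure PrX (cP KT : ℝ) (P : Par6) (c : Bool → List ℂ) (m : ℕ) (β : ℝ) : Prop where
  prU : ∀ j ∈ [P.jL, P.e], ∀ (a : Bool) (t : ℝ),
    0 ≤ ((c a).map fun x => Ag (j * l + x.re) (3 * β / 4 * (t - x.im))).sum
  prL : ∀ j ∈ loL P, ∀ (a : Bool) (t : ℝ), cP * (m * Real.exp (-(2 * β) * |t|)) ≤
    ((c a).map fun x => Ag (j * l + x.re) (3 * β / 4 * (t - x.im))).sum
  hA : ∀ (a : Bool) (t : ℝ), SAe (c a) t ≤
    ((c a).map fun x => Ag (3 / 2 * l + x.re) (t - x.im)).sum + KT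

section
variable {n0 n1 miss : ℕ} {h0 de G c0 d1 cP KT : ℝ} {P : Par6} {c : Bool → List ℂ} {k : Bool → ℕ}
  {ex : Bool → List ℂ} {m : ℕ} {β : ℝ} {M : Bool → ℕ} {xr : ∀ a, Fin (M a) → ℂ}
  {W1 W2 : Bool → List ℂ} {g : Bool → ℂ → ℝ}

theorem DatX.inX (h : DatX n0 n1 miss h0 de G d1 P c k ex m xr W1 W2 g) (β0 : 0 < β)
    (β1 : β ≤ 4 / 3) (hp : PrX cP KT P c m β) :
    InObX n0 n1 miss h0 de G d1 cP KT P c k ex m β xr W1 W2 g :=
  ⟨β0, β1, h.rows, h.pl, h.num, h.w1, h.w2, hp.prU, hp.prL, hp.hA, h.gp, h.gu, h.gl⟩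

theorem cIX_pos (hh : 0 ≤ h0) (de0 : 0 < de) (de1 : de ≤ 1 / 50) (hc : 0 < c0) (hd : 1 ≤ d1)
    (hG : 0 ≤ G) (hcP : 0 < cP) : 0 < cIX n0 n1 h0 de G c0 d1 cP KT := by
  have hn1 : (0 : ℝ) ≤ n1 := Nat.cast_nonneg n1
  have hd0 : 0 ≤ d1 + n1 := by linarith
  have hcB := cB_ge hh hd0
  have e2 := Real.exp_pos 2
  have e3 := Real.exp_pos 3
  have p1 : 0 ≤ cOE (n0 + n1) h0 de G c0 (d1 + n1) cP := by
    have h1 := cRE_pos (n0 := n0 + n1) hh de0 de1
    have h2 := cPU_nonneg (n0 := n0 + n1) hh hd0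
    unfold cOE
    positivity
  have p3 : 0 ≤ (2 + Real.exp 3) * cB h0 (d1 + n1) := by positivity
  have p4 : 0 ≤ 8 * Real.exp (8 / 3 * h0) * d1 := by positivity
  unfold cIX
  positivity

end

/-- **`ObC` from the rows and the prices**, one constant, from some size on -/
theorem obC_datX {P : Par6} (hP : LnT P) (he : P.e ≤ 15 / 32) (n0 n1 : ℕ) {h0 de G c0 d1 cP KT : ℝ}
    (hc : 0 < c0) (hd : 1 ≤ d1) (hG : 0 ≤ G) (hcP : 0 < cP) (hKT : 0 ≤ KT) : ∃ m0 : ℕ, ∀ m : ℕ, m0 ≤ m → ∀ β : ℝ, 0 < β → β ≤ 4 / 3 →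
      ∀ (miss : ℕ) (c : Bool → List ℂ) (k : Bool → ℕ) (ex : Bool → List ℂ) (M : Bool → ℕ)
        (xr : ∀ a, Fin (M a) → ℂ) (W1 W2 : Bool → List ℂ) (g : Bool → ℂ → ℝ),
        DatX n0 n1 miss h0 de G d1 P c k ex m xr W1 W2 g → PrX cP KT P c m β →
        ∀ T1 : ℝ, Tb (Real.log m) + tauT h0 (d1 + n1) ≤ T1 →
        ObC P (cIX n0 n1 h0 de G c0 d1 cP KT) (rwEX c k ex) (pTX c ex) m β T1
          (obU6 c0 β xr W1 (fun a => phO T1 (List.ofFn (xr a) ++ W2 a)) g) := by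
  obtain ⟨m1, hm1⟩ := exists_nat_ge (cK (1 / 40) h0 * (n0 + n1 : ℕ) * (2 / cP))
  obtain ⟨m2, hm2⟩ := exists_nat_ge (Real.exp (8 / 3 * (h0 + 1)))
  refine ⟨max 1 (max m1 m2), fun m hm β β0 β1 miss c k ex M xr W1 W2 g hD hPr T1 hT => ?_⟩
  simp only [max_le_iff] at hm
  obtain ⟨a1, a2, a3⟩ := hm
  have b2 : (m1 : ℝ) ≤ m := by exact_mod_cast a2
  have b3 : (m2 : ℝ) ≤ m := by exact_mod_cast a3
  refine (hD.inX β0 β1 hPr).obC hP he hc hd hG hcP hKT a1 ?_ (hm2.trans b3) ?_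
  · have h1 := hm1.trans b2
    have h2 : cK (1 / 40) h0 * (n0 + n1 : ℕ) =
        cP / 2 * (cK (1 / 40) h0 * (n0 + n1 : ℕ) * (2 / cP)) := by
      field_simp
    rw [h2]
    exact mul_le_mul_of_nonneg_left h1 (by positivity)
  · unfold NUO.Tb at hT
    exact hT

/-! ### contents with two places over their seas -/

section two

/-- **prices of a content at two places over its sea** -/
theorem prX_cnt {P : Par6} (hP : LnT P) {de s0 lo hi wm K0 : ℝ} (h0 : ℝ)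
    (n0 : ℕ) (hdl : 0 < de + lo) (hde1 : de ≤ 1 / 50) (hs0 : 0 ≤ s0) (hs1 : s0 ≤ 1 / 10)
    (hsd : 100 * s0 ≤ de) (hlo : lo ≤ 0) (hj : hi < P.j1)
    (hsm : 4 / ((de + lo) * l) ^ 2 * s0 ≤ (P.j1 - hi) * l)
    (hwm : 0 < wm) (hK0 : 0 ≤ K0) :
    ∃ κ : ℝ, 0 < κ ∧ ∃ m0 : ℕ, ∀ [SeaC], ∀ {w : Fin 2 → ℝ} {x : Fin 2 → ℂ} {c : Bool → List ℂ}
      {k : Bool → ℕ} {ex W : Bool → List ℂ} {miss m : ℕ}, m0 ≤ m →
      CntDX de s0 lo hi wm K0 h0 n0 w x c k ex W miss m → w 0 ≤ w 1 → (x 0).re ≤ l / 10 →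
      -(de / 10 * l) ≤ (x 1).re →
      ∀ ep : ℝ, 0 ≤ ep → ep ≤ 1 / 100 → PrX κ (3 * K0) P c m (4 / 3 * (1 - ep)) := by
  have hl := l_pos
  have hde : 0 < de := by linarith
  obtain ⟨κ, hκ, N0, H⟩ := rateX_O (ι := Fin 2) (de := de) (s0 := s0) (lo := lo) (ρ0 := 99 / 100)
    hde.le hdl (by linarith) hlo (by linarith [hP.e48, hP.j1e]) hs0 hs1 hj (by norm_num)
    (by
      refine le_trans (le_of_eq ?_) hsm
      change 400 / ((de + lo) * l) ^ 2 * ((1 - 99 / 100) * s0) = _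
      ring) hwm hK0
  refine ⟨κ / 2, by positivity, 2 * N0, @fun _ w x c k ex W miss m hm h hw hx0 hx1 ep ep0 ep1 => ?_⟩
  have hρ : 3 * (4 / 3 * (1 - ep)) / 4 = 1 - ep := by ring
  have hN : ∀ a, N0 ≤ (c a).length + k a := fun a => by
    have hge := h.ge a
    unfold nX at hge
    have h2 : ((2 * N0 : ℕ) : ℝ) ≤ m := by exact_mod_cast hm
    push_cast at h2
    have h3 : ((N0 : ℕ) : ℝ) ≤ (((c a).length + k a : ℕ) : ℝ) := by
      push_cast
      linarith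
    exact_mod_cast h3
  have hmem : ∀ a, ∀ y ∈ c a, -((1 - de) * l) ≤ y.re ∧ y.re ≤ (1 / 2 - de) * l ∧ |y.im| ≤ s0 :=
    fun a y hy => by
      obtain ⟨i, rfl⟩ := (h.cn a).mem y hy
      exact ⟨h.so.lo i, h.so.up i, h.so.im i⟩
  have hdl' : 0 < de * l := by positivity
  have key : ∀ j, P.j1 ≤ j → j < 1 → ∀ (a : Bool) (t : ℝ),
      κ / 2 * (m * Real.exp (-(2 * (4 / 3 * (1 - ep))) * |t|)) ≤
        ((c a).map fun x => Ag (j * l + x.re) (3 * (4 / 3 * (1 - ep)) / 4 * (t - x.im))).sum := by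
    intro j j1 j2 a t
    rw [hρ]
    have h4 := H w x h.so h.wm h.sp h.hf (c a) (k a) (h.cn a) (hN a) j j1 j2 (1 - ep)
      (by linarith) (by linarith) t
    refine le_trans ?_ h4
    have e1 : 8 / 3 * |(1 - ep) * t| = 2 * (4 / 3 * (1 - ep)) * |t| := by
      rw [abs_mul, abs_of_nonneg (by linarith : 0 ≤ 1 - ep)]
      ring
    rw [e1, show -(2 * (4 / 3 * (1 - ep))) * |t| = -(2 * (4 / 3 * (1 - ep)) * |t|) by ring]
    have hE := (Real.exp_pos (-(2 * (4 / 3 * (1 - ep)) * |t|))).le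
    have hge := h.ge a
    unfold nX at hge
    calc κ / 2 * (m * Real.exp (-(2 * (4 / 3 * (1 - ep)) * |t|))) =
        κ * (m / 2 * Real.exp (-(2 * (4 / 3 * (1 - ep)) * |t|))) := by ring
      _ ≤ _ := by
          refine mul_le_mul_of_nonneg_left (mul_le_mul_of_nonneg_right ?_ hE) hκ.le
          linarith
  refine ⟨fun j hjl a t => ?_, fun j hjl a t => ?_, fun a t => ?_⟩
  · have h1 := hP.j1e
    have h2 := hP.ej2
    have h3 := hP.j2
    simp only [List.mem_cons, List.not_mem_nil, or_false] at hjl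
    rcases hjl with rfl | rfl
    · refine prU_ofX (fun y hy => ?_) _
      obtain ⟨y1, y2, -⟩ := hmem a y hy
      have h4 := hP.L2
      have h5 := hP.Lj
      have h6 := hP.e48
      have h7 : 2 * l ≤ P.jL * l := mul_le_mul_of_nonneg_right (by linarith) hl.le
      have h8 : P.jL * l ≤ 5 / 2 * l := mul_le_mul_of_nonneg_right (by linarith) hl.le
      change 0 ≤ P.jL * l + y.re ∧ P.jL * l + y.re ≤ 3 * l
      constructor <;> linarith
    · refine le_trans ?_ (key _ h1.le (by linarith) a t)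
      have := (Real.exp_pos (-(2 * (4 / 3 * (1 - ep))) * |t|)).le
      positivity
  · have h1 := hP.j1e
    have h2 := hP.ej2
    have h3 := hP.j2
    refine key j ?_ ?_ a t
    · simp only [loL, List.mem_cons, List.not_mem_nil, or_false] at hjl
      rcases hjl with rfl | rfl | rfl <;> linarith
    · simp only [loL, List.mem_cons, List.not_mem_nil, or_false] at hjl
      rcases hjl with rfl | rfl | rfl <;> linarith
  · obtain ⟨n, q1, q2⟩ := (h.cn a).ex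
    have b0 := abs_le.1 (q2 0)
    have b1 := abs_le.1 (q2 1)
    have hNn : 0 ≤ ((c a).length : ℝ) + k a := by positivity
    have hww := mul_le_mul_of_nonneg_left hw hNn
    have h9 := SAe_leK (c := c a) (a := n 0) (b := n 1) (K := 2 * K0) (x := x 0) (y := x 1)
      (fun f => by rw [q1 f, Fin.sum_univ_two]) (Nat.cast_nonneg _) (Nat.cast_nonneg _)
      (by positivity) (by linarith [b0.1, b0.2, b1.1, b1.2]) hde (by linarith) (h.so.lo 0) hx0 hx1
      (by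
        have h' : (x 1).re ≤ (1 / 2 - de) * l := h.so.up 1
        linarith) (h.so.im 0) (h.so.im 1) hsd t
    refine h9.trans (le_of_eq ?_)
    ring

/-- **the one body data over a content with two places and its sea**: constants before sea, content
and data -/
theorem obC_cntX {P : Par6} (hP : LnT P) (he : P.e ≤ 15 / 32) {de s0 lo hi wm K0 : ℝ} (n0 n1 : ℕ)
    {h0 G c0 d1 : ℝ} (hh : s0 ≤ h0) (hc : 0 < c0) (hd : 1 ≤ d1) (hG : 0 ≤ G)
    (hdl : 0 < de + lo) (hde1 : de ≤ 1 / 50) (hs0 : 0 ≤ s0) (hs1 : s0 ≤ 1 / 10)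
    (hsd : 100 * s0 ≤ de) (hlo : lo ≤ 0) (hj : hi < P.j1)
    (hsm : 4 / ((de + lo) * l) ^ 2 * s0 ≤ (P.j1 - hi) * l)
    (hwm : 0 < wm) (hK0 : 0 ≤ K0) :
    ∃ C : ℝ, 0 < C ∧ ∃ m0 : ℕ, ∀ [SeaC], ∀ {w : Fin 2 → ℝ} {x : Fin 2 → ℂ} {c : Bool → List ℂ}
      {k : Bool → ℕ} {ex : Bool → List ℂ} {miss m : ℕ} {M : Bool → ℕ} {xr : ∀ a, Fin (M a) → ℂ}
      {W1 W2 : Bool → List ℂ} {g : Bool → ℂ → ℝ}, m0 ≤ m →
      CntDX de s0 lo hi wm K0 h0 n0 w x c k ex (fun a => List.ofFn (xr a)) miss m →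
      w 0 ≤ w 1 → (x 0).re ≤ l / 10 → -(de / 10 * l) ≤ (x 1).re →
      (∀ a, (M a : ℝ) ≤ d1 * m) → (∀ a, (W1 a).length ≤ n1 ∧ Wdw h0 de (W1 a)) →
      (∀ a, (W2 a).length ≤ n1 ∧ Wdw h0 de (W2 a)) → (∀ a u, 0 ≤ g a u) →
      (∀ j ∈ upL P, ∀ (a : Bool) (t : ℝ), g a (vl ((1 - j) * l) t) ≤ G) →
      (∀ j ∈ loL P, ∀ (a : Bool) (t : ℝ), (g a (vl ((1 - j) * l) t))⁻¹ ≤ G) →
      ∀ ep : ℝ, 0 ≤ ep → ep ≤ 1 / 100 → ∀ T1 : ℝ, Tb (Real.log m) + tauT h0 (d1 + n1) ≤ T1 →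
      ObC P C (rwEX c k ex) (pTX c ex) m (4 / 3 * (1 - ep)) T1
        (obU6 c0 (4 / 3 * (1 - ep)) xr W1 (fun a => phO T1 (List.ofFn (xr a) ++ W2 a)) g) := by
  obtain ⟨κ, hκ, m1, H1⟩ := prX_cnt hP h0 n0 hdl hde1 hs0 hs1 hsd hlo hj hsm hwm hK0
  have hde : 0 < de := by linarith
  obtain ⟨m2, H2⟩ := obC_datX (h0 := h0) (de := de) (KT := 3 * K0) hP he n0 n1 hc hd hG hκ
    (by positivity)
  refine ⟨_, cIX_pos (n0 := n0) (n1 := n1) (KT := 3 * K0) (hs0.trans hh) hde hde1 hc hd hG hκ,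
    max m1 m2, @fun _ w x c k ex miss m M xr W1 W2 g hm h hw hx0 hx1 num w1 w2 gp gu gl ep ep0 ep1 T1 hT => ?_⟩
  simp only [max_le_iff] at hm
  refine H2 m hm.2 _ (by linarith) (by linarith) miss c k ex M xr W1 W2 g
    ⟨h.rw, fun a y hy => ?_, num, w1, w2, gp, gu, gl⟩ (H1 hm.1 h hw hx0 hx1 ep ep0 ep1) T1 hT
  obtain ⟨i, rfl⟩ := (h.cn a).mem y hy
  exact ⟨h.so.lo i, h.so.up i, (h.so.im i).trans hh⟩

end two

/-! ### contents on the axis -/

section axis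

/-- **prices of a content on the axis** -/
theorem prX_axis {P : Par6} (hP : LnT P) {s0 : ℝ} (hs0 : 0 ≤ s0) (n0 : ℕ) :
    ∃ κ : ℝ, 0 < κ ∧ ∃ m0 : ℕ, ∀ {c : Bool → List ℂ} {k : Bool → ℕ} {m : ℕ}, m0 ≤ m →
      (∀ a, ∀ x ∈ c a, x.re = 0 ∧ |x.im| ≤ s0) → (∀ a, k a ≤ n0) →
      (∀ a, (m : ℝ) ≤ 2 * nX c k a) →
      ∀ β : ℝ, 0 < β → β ≤ 4 / 3 → PrX κ 0 P c m β := by
  have hl := l_pos
  have hj1 : 0 < P.j1 := by linarith [hP.j1]
  have h1 := hP.j1e
  have h2 := hP.ej2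
  have h3 := hP.j2
  refine ⟨3 / 8 * (P.j1 * l) * Real.exp (-(8 / 3 * s0)), by positivity, 4 * n0,
    @fun c k m hm hc hk hge β β0 β1 => ?_⟩
  have hnum : ∀ a, (m : ℝ) / 4 ≤ (c a).length := fun a => by
    have e1 := hge a
    unfold nX at e1
    have e2 : (k a : ℝ) ≤ n0 := by exact_mod_cast hk a
    have e3 : ((4 * n0 : ℕ) : ℝ) ≤ m := by exact_mod_cast hm
    push_cast at e3
    linarith
  have key : ∀ j, P.j1 ≤ j → j < 1 → ∀ (a : Bool) (t : ℝ),
      3 / 8 * (P.j1 * l) * Real.exp (-(8 / 3 * s0)) * (m * Real.exp (-(2 * β) * |t|)) ≤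
        ((c a).map fun x => Ag (j * l + x.re) (3 * β / 4 * (t - x.im))).sum := by
    intro j j1 j2 a t
    have hone : ∀ x ∈ c a, 3 / 2 * (P.j1 * l) * Real.exp (-(8 / 3 * s0)) *
        Real.exp (-(2 * β) * |t|) ≤ Ag (j * l + x.re) (3 * β / 4 * (t - x.im)) := by
      intro x hx
      obtain ⟨x1, x2⟩ := hc a x hx
      rw [x1, add_zero]
      have hjl : P.j1 * l ≤ j * l := mul_le_mul_of_nonneg_right j1 hl.le
      have hjl' : j * l < l := by nlinarith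
      have g1 : 3 / 2 * min (j * l) l / NUMF.ch (3 * β / 4 * (t - x.im)) ≤
          Ag (j * l) (3 * β / 4 * (t - x.im)) :=
        Ag_ge (show 0 ≤ j * l from mul_nonneg (by linarith) hl.le)
          (show j * l < 2 * l by linarith) _
      have g2 : min (j * l) l = j * l := min_eq_left hjl'.le
      rw [g2] at g1
      refine le_trans ?_ g1
      have g3 := exp_le_ch (3 * β / 4 * (t - x.im))
      have g4 : Real.exp (-(8 / 3 * s0)) * Real.exp (-(2 * β) * |t|) ≤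
          Real.exp (-(8 / 3) * |3 * β / 4 * (t - x.im)|) := by
        rw [← Real.exp_add]
        refine Real.exp_le_exp.2 ?_
        rw [abs_mul, abs_of_pos (by positivity : 0 < 3 * β / 4)]
        have g5 : |t - x.im| ≤ |t| + s0 := (abs_sub _ _).trans (by linarith)
        have g6 : β * |t - x.im| ≤ β * (|t| + s0) := mul_le_mul_of_nonneg_left g5 β0.le
        have g7 : β * s0 ≤ 4 / 3 * s0 := mul_le_mul_of_nonneg_right β1 hs0
        nlinarith
      calc 3 / 2 * (P.j1 * l) * Real.exp (-(8 / 3 * s0)) * Real.exp (-(2 * β) * |t|) =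
          3 / 2 * (P.j1 * l) * (Real.exp (-(8 / 3 * s0)) * Real.exp (-(2 * β) * |t|)) := by ring
        _ ≤ 3 / 2 * (j * l) * (1 / NUMF.ch (3 * β / 4 * (t - x.im))) := by
            refine mul_le_mul (by linarith) (g4.trans g3) (by positivity) ?_
            have : 0 < j := by linarith
            positivity
        _ = _ := by ring
    have hsum : ∀ (L : List ℂ) (f : ℂ → ℝ) (b : ℝ), (∀ x ∈ L, b ≤ f x) →
        (L.length : ℝ) * b ≤ (L.map f).sum := by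
      intro L f b hb
      induction L with
      | nil => simp
      | cons y L ih =>
        have i1 := ih fun z hz => hb z (by simp [hz])
        have i2 := hb y (by simp)
        rw [List.map_cons, List.sum_cons, List.length_cons]
        push_cast
        linarith
    have hs := hsum (c a) _ _ hone
    refine le_trans ?_ hs
    have hB : 0 ≤ 3 / 2 * (P.j1 * l) * Real.exp (-(8 / 3 * s0)) * Real.exp (-(2 * β) * |t|) := by
      positivity
    calc 3 / 8 * (P.j1 * l) * Real.exp (-(8 / 3 * s0)) * (m * Real.exp (-(2 * β) * |t|)) =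
        (m : ℝ) / 4 * (3 / 2 * (P.j1 * l) * Real.exp (-(8 / 3 * s0)) *
          Real.exp (-(2 * β) * |t|)) := by ring
      _ ≤ _ := mul_le_mul_of_nonneg_right (hnum a) hB
  refine ⟨fun j hjl a t => ?_, fun j hjl a t => ?_, fun a t => ?_⟩
  · simp only [List.mem_cons, List.not_mem_nil, or_false] at hjl
    have hj : 0 ≤ j ∧ j ≤ 3 := by
      have h4 := hP.L2
      have h5 := hP.Lj
      rcases hjl with rfl | rfl <;> constructor <;> linarith
    refine prU_ofX (fun x hx => ?_) _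
    rw [(hc a x hx).1, add_zero]
    change 0 ≤ j * l ∧ j * l ≤ 3 * l
    constructor
    · exact mul_nonneg hj.1 hl.le
    · exact mul_le_mul_of_nonneg_right hj.2 hl.le
  · refine key j ?_ ?_ a t
    · simp only [loL, List.mem_cons, List.not_mem_nil, or_false] at hjl
      rcases hjl with rfl | rfl | rfl <;> linarith
    · simp only [loL, List.mem_cons, List.not_mem_nil, or_false] at hjl
      rcases hjl with rfl | rfl | rfl <;> linarith
  · rw [add_zero]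
    unfold SAe
    refine List.sum_le_sum fun x hx => ?_
    rw [(hc a x hx).1]
    have := T_A (a := 0) (b := 1) (p := 0) (q := 0) le_rfl zero_le_one le_rfl zero_le_one le_rfl
      (by norm_num) (t - x.im)
    rw [zero_mul, zero_add, one_mul, zero_mul, zero_add, one_mul, sub_zero, add_zero] at this
    rw [sub_zero, add_zero]
    refine le_trans (le_of_eq ?_) this
    congr 1
    change l / 2 = 1 / 2 * l
    ring

/-- **the one body data over a content on the axis**: constants before content and data -/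
theorem obC_axis {P : Par6} (hP : LnT P) (he : P.e ≤ 15 / 32) {de s0 : ℝ} (n0 n1 : ℕ)
    {h0 G c0 d1 : ℝ} (hh : s0 ≤ h0) (hc : 0 < c0) (hd : 1 ≤ d1) (hG : 0 ≤ G)
    (hde : 0 < de) (hde1 : de ≤ 1 / 50) (hs0 : 0 ≤ s0) :
    ∃ C : ℝ, 0 < C ∧ ∃ m0 : ℕ, ∀ {c : Bool → List ℂ}
      {k : Bool → ℕ} {ex : Bool → List ℂ} {miss m : ℕ} {M : Bool → ℕ} {xr : ∀ a, Fin (M a) → ℂ}
      {W1 W2 : Bool → List ℂ} {g : Bool → ℂ → ℝ}, m0 ≤ m →
      RwX n0 h0 de miss c k ex (fun a => List.ofFn (xr a)) →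
      (∀ a, ∀ x ∈ c a, x.re = 0 ∧ |x.im| ≤ s0) → (∀ a, (m : ℝ) ≤ 2 * nX c k a) →
      (∀ a, (M a : ℝ) ≤ d1 * m) → (∀ a, (W1 a).length ≤ n1 ∧ Wdw h0 de (W1 a)) →
      (∀ a, (W2 a).length ≤ n1 ∧ Wdw h0 de (W2 a)) → (∀ a u, 0 ≤ g a u) →
      (∀ j ∈ upL P, ∀ (a : Bool) (t : ℝ), g a (vl ((1 - j) * l) t) ≤ G) →
      (∀ j ∈ loL P, ∀ (a : Bool) (t : ℝ), (g a (vl ((1 - j) * l) t))⁻¹ ≤ G) →
      ∀ β : ℝ, 0 < β → β ≤ 4 / 3 → ∀ T1 : ℝ, Tb (Real.log m) + tauT h0 (d1 + n1) ≤ T1 →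
      ObC P C (rwEX c k ex) (pTX c ex) m β T1
        (obU6 c0 β xr W1 (fun a => phO T1 (List.ofFn (xr a) ++ W2 a)) g) := by
  have hl := l_pos
  obtain ⟨κ, hκ, m1, H1⟩ := prX_axis hP hs0 n0
  obtain ⟨m2, H2⟩ := obC_datX (h0 := h0) (de := de) (KT := 0) hP he n0 n1 hc hd hG hκ le_rfl
  refine ⟨_, cIX_pos (n0 := n0) (n1 := n1) (KT := 0) (hs0.trans hh) hde hde1 hc hd hG hκ,
    max m1 m2, @fun c k ex miss m M xr W1 W2 g hm h hx hge num w1 w2 gp gu gl β β0 β1 T1 hT => ?_⟩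
  simp only [max_le_iff] at hm
  refine H2 m hm.2 _ β0 β1 miss c k ex M xr W1 W2 g
    ⟨h, fun a y hy => ?_, num, w1, w2, gp, gu, gl⟩ (H1 hm.1 hx h.kn hge β β0 β1) T1 hT
  obtain ⟨y1, y2⟩ := hx a y hy
  rw [y1]
  exact ⟨by nlinarith, by nlinarith, y2.trans hh⟩

end axis

end PLT

end
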