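import Pool.Agent.PLT.OneTFw
import Pool.Agent.PLT.ObK
import Pool.Agent.PLT.FamLC
import Pool.Agent.PLT.LegG

/-!
# The dislocated function over a content with two places: the one body data

* `cq x`: the rows of the content as lists; `tauT_le`: the shift of the string cutoff of the content is at most `tauF`;
* **`CntL2 P x z S ok`**: every index carries a content with two places over its sea (`CntDX`), no missing rows, no
  further rows; the legs with `-(9/10) l ≤ re z ≤ (29/10) l`;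
* **`datF_L2`**: `DatF` of the family `famLC`, every point `P` with `LnT P`; **`oneTF_L2`**: its one body bound.
-/

set_option autoImplicit false
set_option linter.unusedSectionVars false

noncomputable section

open Complex MeasureTheory Finset
open scoped ENNReal
open PLX (Fil Ends)

namespace PLT

open NUO NUP1 NUP1S NUP1S.Ab NUP1S.AbC
open NUGC.PLX (OB pE qE)
open PHK
open PBU.PLX (T1L tauF)
open PBO.PLX (thZ cZ cZ_pos thZ_nonneg)
open PotH.PLX (sN)
open Pool.Agent.PLX (rwq yq)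

/-! ### the end of the string cutoff -/

private theorem kd_one : kd 1 = 1 / 2 := by
  unfold kd
  rw [mul_one, Real.cos_pi_div_three]
  norm_num

/-- **the end of the string cutoff of a content with the points `± i` is at most that of the landed family** -/
theorem tauT_le [Fil] : tauT 1 (((Fil.q : ℕ) : ℝ) + (2 : ℕ)) ≤ tauF := by
  have hq : (0 : ℝ) ≤ ((Fil.q : ℕ) : ℝ) := Nat.cast_nonneg _
  have hcB := cB_ge (h0 := 1) (Cl := ((Fil.q : ℕ) : ℝ) + (2 : ℕ)) zero_le_one (by positivity)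
  unfold tauT tauF tau0
  refine mul_le_mul_of_nonneg_left (Real.log_le_log (by linarith) ?_) (by norm_num)
  refine mul_le_mul_of_nonneg_left ?_ (by norm_num)
  unfold cB cU cK cL
  rw [kd_one, Real.exp_zero]
  have e1 : Real.exp (8 / 3 * 2) = Real.exp (8 / 3 * 1) * Real.exp (8 / 3) := by
    rw [← Real.exp_add]
    congr 1
    norm_num
  rw [e1, mul_one]
  obtain ⟨E, hE⟩ : ∃ E, E = Real.exp (8 / 3) := ⟨_, rfl⟩
  have hE5 : 5 ≤ E := by
    have h1 : (2 : ℝ) < Real.exp 1 := by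
      have := Real.exp_one_gt_d9
      linarith
    have h2 : (1 + 1 : ℝ) ≤ Real.exp 1 := by linarith
    have h3 : Real.exp 1 * Real.exp 1 * Real.exp (2 / 3) = E := by
      rw [hE, ← Real.exp_add, ← Real.exp_add]
      congr 1
      norm_num
    have h4 : (1 + 2 / 3 : ℝ) ≤ Real.exp (2 / 3) := by
      have := Real.add_one_le_exp (2 / 3 : ℝ)
      linarith
    nlinarith [Real.exp_pos (1 : ℝ)]
  rw [← hE]
  push_cast
  nlinarith [mul_nonneg hq (by linarith : (0 : ℝ) ≤ E - 5), mul_nonneg hq hq]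

/-! ### the content -/

section cnt

variable [Fil]

/-- the rows of the content as lists -/
def cq {m : ℕ} (x : Fin m → ℂ) (a : Bool) : List ℂ := List.ofFn (rwq x a)

theorem cq_length {m : ℕ} (x : Fin m → ℂ) (a : Bool) : ((cq x a).length : ℝ) = Fil.b a * m := by
  unfold cq
  rw [List.length_ofFn, Pool.Agent.PLX.cast_cond]

/-- the numbers of rows of the content are those of the family -/
theorem nX_cq [Ends] (he : Ends.e = 0) (ho : Ends.o = 0) {m : ℕ} (hm : 1 ≤ m) (x : Fin m → ℂ) :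
    nX (cq x) (fun _ => 0) = sN m := by
  funext a
  unfold nX PotH.PLX.sN
  rw [cq_length, Fil.cast_ne a hm, ho, he]
  push_cast
  cases a <;> simp

variable {ι : Type}

/-- **the contents with two places**: the data of the family of the legs -/
structure CntL2 (de s0 lo hi wm K0 : ℝ) (x : (m : ℕ) → ι → Fin m → ℂ) (z : ι → ℂ) (S : ℕ → ι → SeaC)
    (ok : ℕ → ι → Prop) : Prop where
  cnt : ∃ m0 : ℕ, ∀ m ≥ m0, ∀ i, ok m i → ∃ (w : Fin 2 → ℝ) (X : Fin 2 → ℂ),
    @CntDX (Fin 2) _ (S m i) de s0 lo hi wm K0 1 0 w X (cq (x m i)) (fun _ => 0) (fun _ => []) (cq (x m i)) 0 m ∧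
      w 0 ≤ w 1 ∧ (X 0).re ≤ l / 10 ∧ -(de / 10 * l) ≤ (X 1).re
  z1 : ∀ m i, ok m i → -(9 / 10 * l) ≤ (z i).re
  z2 : ∀ m i, ok m i → (z i).re ≤ 29 / 10 * l

/-- the growth of the rows at the line of `T` -/
def pTL (x : (m : ℕ) → ι → Fin m → ℂ) (m : ℕ) (i : ι) : Bool → ℝ → ℝ := pTX (cq (x m i)) fun _ => []

end cnt

/-! ### the theorem -/

section main

variable [Fil] [Ends] {ι : Type} {x : (m : ℕ) → ι → Fin m → ℂ} {z : ι → ℂ} {S : ℕ → ι → SeaC}
  {ok : ℕ → ι → Prop} {P : Par6}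

/-- **the one body data of the dislocated function over contents with two places** -/
theorem datF_L2 (he : Ends.e = 0) (ho : Ends.o = 0) (hP : LnT P) (hPe : P.e ≤ 15 / 32)
    {de s0 lo hi wm K0 : ℝ} (hdl : 0 < de + lo) (hde1 : de ≤ 1 / 50) (hs0 : 0 ≤ s0) (hs1 : s0 ≤ 1 / 10)
    (hsd : 100 * s0 ≤ de) (hlo0 : lo ≤ 0) (hlo : -(1 / 100) ≤ lo) (hj2 : P.j2 < 1 + lo) (hj : hi < P.j1)
    (hL : 2 + hi < P.jL) (hsm : 4 / ((de + lo) * l) ^ 2 * s0 ≤ (P.j1 - hi) * l)
    (hwm : 0 < wm) (hK0 : 0 ≤ K0) (h : CntL2 de s0 lo hi wm K0 x z S ok) (lo' hi' : ℝ) :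
    DatF (famLC x z S ok lo' hi') P (BLC x z) S (pTL x) := by
  have hc0 : 0 < 2 * Real.cos l := by
    have hl := l_pos
    have : 0 < Real.cos l := Real.cos_pos_of_mem_Ioo ⟨by linarith [Real.pi_pos], by
      unfold NUP1.l; linarith [Real.pi_pos]⟩
    linarith
  have hq1 : (1 : ℝ) ≤ ((Fil.q : ℕ) : ℝ) := by exact Fil.one_le_qr
  obtain ⟨C1, hC1, HM⟩ := mf_ofX (s0 := s0) (Fin 2) hP K0 1 (de := de) (by linarith) hde1 hlo hj2 hj hL 0
  obtain ⟨κ, hκ, m1, Hp⟩ := pr_cntX (s0 := s0) (lo := lo) (Fin 2) hP 1 0 hdl hde1 hs0 hs1 hlo0 hj hwm hK0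
  obtain ⟨C2, hC2, m2, HO⟩ := obC_cntX (s0 := s0) (lo := lo) (c0 := 2 * Real.cos l) (d1 := ((Fil.q : ℕ) : ℝ))
    (G := cZ) (h0 := 1) hP hPe 0 2 (by linarith) hc0 hq1 cZ_pos.le hdl hde1 hs0 hs1 hsd hlo0 hj hsm hwm hK0
  obtain ⟨m3, hcnt⟩ := h.cnt
  refine ⟨C1 + C2, tauF, κ, by positivity, hκ, fun m i => rwEX (cq (x m i)) (fun _ => 0) fun _ => [],
    fun m i => prX (cq (x m i)), ⟨max 1 (max m1 m3), fun m hm i hok => ?_⟩, fun ep ep0 ep1 =>
    ⟨max m2 m3, fun m hm i hok => ?_⟩⟩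
  · simp only [ge_iff_le, max_le_iff] at hm
    obtain ⟨a1, a2, a3⟩ := hm
    obtain ⟨w, X, hD, -⟩ := hcnt m a3 i hok
    letI := S m i
    refine ⟨?_, Hp a2 hD⟩
    have hM := (HM hD.so hD.cn hD.rw).mono (show C1 ≤ C1 + C2 by linarith)
    rw [nX_cq he ho a1 (x m i)] at hM
    exact hM
  · simp only [ge_iff_le, max_le_iff] at hm
    obtain ⟨a2, a3⟩ := hm
    obtain ⟨w, X, hD, hw, hX0, hX1⟩ := hcnt m a3 i hok
    letI := S m i
    have z1 := h.z1 m i hok
    have z2 := h.z2 m i hok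
    have hb : ∀ a, ((cond a m (Fil.q * m) : ℕ) : ℝ) ≤ ((Fil.q : ℕ) : ℝ) * m := by
      intro a
      have hm0 : (0 : ℝ) ≤ m := Nat.cast_nonneg m
      cases a
      · show ((Fil.q * m : ℕ) : ℝ) ≤ _
        push_cast
        exact le_rfl
      · show ((m : ℕ) : ℝ) ≤ _
        nlinarith
    have hde : 0 < de := by linarith
    have hl := l_pos
    have hO := HO (W1 := fun _ => [I, -I]) (W2 := fun _ => []) (g := fun _ u => thZ (z i) u) a2 hD hw hX0 hX1 hb
      (fun a => ⟨le_rfl, by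
        intro y hy
        rw [List.mem_cons, List.mem_singleton] at hy
        have q1 : 0 ≤ (1 - de) * l := by
          have : 0 ≤ 1 - de := by linarith
          positivity
        have q2 : 0 ≤ (1 / 2 - de) * l := by
          have : 0 ≤ 1 / 2 - de := by linarith
          positivity
        rcases hy with rfl | rfl
        · rw [Complex.I_re, Complex.I_im, abs_one]
          exact ⟨by linarith, q2, le_rfl⟩
        · rw [Complex.neg_re, Complex.neg_im, Complex.I_re, Complex.I_im, abs_neg, abs_one, neg_zero]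
          exact ⟨by linarith, q2, le_rfl⟩⟩)
      (fun a => ⟨by simp, by intro y hy; exact absurd hy List.not_mem_nil⟩)
      (fun a u => thZ_nonneg _ _) (fun j hj a t => leg_gu hP z1 (by linarith) hj t)
      (fun j hj a t => leg_gl hP z1 z2 hj t) ep ep0.le ep1 (T1L m)
      (by
        unfold PBU.PLX.T1L
        exact add_le_add le_rfl tauT_le)
    have hO' := hO.mono (rwEX_nonneg _ _ _) (show C2 ≤ C1 + C2 by linarith)
    have e : BLC x z ep m i = obU6 (2 * Real.cos l) (4 / 3 * (1 - ep)) (rwq (x m i)) (fun _ => [I, -I])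
        (fun a => phO (T1L m) (List.ofFn (rwq (x m i) a) ++ [])) fun _ u => thZ (z i) u := by
      rw [obU6_rwq]
      rfl
    rw [e]
    exact hO'

/-- **the one body bound of the dislocated function over contents with two places** -/
theorem oneTF_L2 (he : Ends.e = 0) (ho : Ends.o = 0) (hP : LnT P) (hPe : P.e ≤ 15 / 32)
    {de s0 lo hi wm K0 : ℝ} (hdl : 0 < de + lo) (hde1 : de ≤ 1 / 50) (hs0 : 0 ≤ s0) (hs1 : s0 ≤ 1 / 10)
    (hsd : 100 * s0 ≤ de) (hlo0 : lo ≤ 0) (hlo : -(1 / 100) ≤ lo) (hj2 : P.j2 < 1 + lo) (hj : hi < P.j1)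
    (hL : 2 + hi < P.jL) (hsm : 4 / ((de + lo) * l) ^ 2 * s0 ≤ (P.j1 - hi) * l)
    (hwm : 0 < wm) (hK0 : 0 ≤ K0) (h : CntL2 de s0 lo hi wm K0 x z S ok) (lo' hi' : ℝ)
    {SB : SeaCB} (hu : ∀ m i, ok m i → @SeaCU SB (S m i)) :
    OneTF (famLC x z S ok lo' hi') P (BLC x z) fun ep e1 J m i r O j =>
      @oneHC (S m i) _ _ P m (@Cv.etaC (S m i) e1 J m m) (TW ep e1 m) r O j :=
  oneTF_of hu (datF_L2 he ho hP hPe hdl hde1 hs0 hs1 hsd hlo0 hlo hj2 hj hL hsm hwm hK0 h lo' hi')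

end main

end PLT

end
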