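import Pool.Agent.PLT.GX
import Pool.Agent.PLT.ObK
import Pool.Agent.PLT.LegC
import Pool.Agent.PLT.AxX
import Pool.Agent.PLT.SelGC

/-!
# One body side of the geometries `GX`

* `DatG P S x e`: the one body data of a family `fun i => GX P en (S i) (x i) (e i)` against rows and clouds,
  uniform in the index and from some size on;
* **`oneRT_GX`, `oneR_GX`**: every selection of the family satisfies `OneRTC`, `OneRC`;
  **`oneRT_GXL`, `oneR_GXL`**: the same with two letters;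
* **`datG_two`**: contents with two places over their seas; **`datG_axis`**: rows on the axis.
-/

set_option autoImplicit false
set_option linter.unusedSectionVars false
set_option linter.unusedVariables false

noncomputable section

open Complex MeasureTheory Finset Filter Topology
open PLX (Fil Ends)

namespace PLT

open PHK hiding mfo6
open PBO.PLX (thZ cZ cZ_pos thZ_nonneg)
open NUP1 (vl l l_pos)
open NUGC.PLX (OB)
open NUO (Xo TW Tb)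
open NUP1.Leg (thE)
open PBU.PLX (T1L tauF)
open PotH.PLX (sN)
open Pool.Agent.PLX (rwq yq)
open PBR.PLX (Ix6)

variable [Fil] [Ends]

/-- **the one body data of a family `GX`** against rows and clouds, uniform in the index -/
def DatG {ι : Type*} (P : Par6) (S : ι → ℕ → SeaC) (x : ι → (m : ℕ) → Fin m → ℂ)
    (e : ι → ℕ → ℂ) : Prop :=
  ∃ C τ κ : ℝ, 0 < C ∧ 0 < κ ∧ ∃ (rw : ι → ℕ → Bool → ℂ → ℝ) (pr : ι → ℕ → Bool → ℝ → ℝ → ℝ)
    (pT : ι → ℕ → Bool → ℝ → ℝ), (∀ i m a u, 0 ≤ rw i m a u) ∧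
    (∃ m0 : ℕ, ∀ i, ∀ m ≥ m0,
      Mf P C (rw i m) (@Cv.clo (S i m) (sN m)) (pr i m) (pT i m) ∧
        ∀ j ∈ loL P, ∀ a t, κ * (m * NUMF.P t) ≤ pr i m a j t) ∧
    ∀ ep : ℝ, 0 < ep → ep ≤ 1 / 100 → ∃ m0 : ℕ, ∀ i, ∀ m ≥ m0,
      ObC P C (rw i m) (pT i m) m (4 / 3 * (1 - ep)) (Tb (Real.log m) + τ)
        (obX m (x i m) (e i m) (4 / 3 * (1 - ep)))

section fam

variable {ι : Type*} {P : Par6} {SB : SeaCB} {en : EnC} {S : ι → ℕ → SeaC}
  {x : ι → (m : ℕ) → Fin m → ℂ} {e : ι → ℕ → ℂ} {mN : ι → MNC}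

/-- **every selection of the family satisfies `OneRTC`** -/
theorem oneRT_GX (hS : ∀ i m, @SeaCU SB (S i m)) (h : DatG P S x e) (i : ℕ → ι) :
    OneRTC P (GeoC.sel (fun j => GX P en (S j) (x j) (e j)) i) := by
  obtain ⟨C, τ, κ, hC, hκ, rw, pr, pT, r0, ⟨m0, hM⟩, hB⟩ := h
  exact oneRTC_sel (GG := fun j => GX P en (S j) (x j) (e j)) (τ := τ) (Kc := 0)
    (cl := fun i m => @Cv.clo (S i m) (sN m)) hC hκ ⟨m0, fun i m hm => (hM i m hm).1⟩
    ⟨m0, fun i m hm => (hM i m hm).2⟩ hB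
    (fun i m ep e1 J hm _ _ _ r O j => oneHC_le (hS i m) hm ep O j) i

theorem oneR_GX (hS : ∀ i m, @SeaCU SB (S i m)) (h : DatG P S x e) (i : ℕ → ι) :
    OneRC P (GeoC.sel (fun j => GX P en (S j) (x j) (e j)) i) :=
  (oneRT_GX hS h i).oneRC

/-- **every selection of the family with two letters satisfies `OneRTC`** -/
theorem oneRT_GXL (hA : AwP P (-(3 / 16)) (5 / 16)) (hS : ∀ i m, @SeaCU SB (S i m))
    (h : DatG P S x e) (i : ℕ → ι × Ix6) :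
    OneRTC P (GeoC.sel (GLU (fun j => GX P en (S j) (x j) (e j)) mN) i) := by
  obtain ⟨C, τ, κ, hC, hκ, rw, pr, pT, r0, ⟨m0, hM⟩, hB⟩ := h
  exact oneRT_selC (G := fun j => GX P en (S j) (x j) (e j)) (τ := τ) (Kc := 0)
    (cl := fun i m => @Cv.clo (S i m) (sN m)) hA hC hκ r0 ⟨m0, fun i m hm => (hM i m hm).1⟩
    ⟨m0, fun i m hm => (hM i m hm).2⟩ hB
    (fun i m ep e1 J hm _ _ _ r O j => oneHC_le (hS i m) hm ep O j) i

theorem oneR_GXL (hA : AwP P (-(3 / 16)) (5 / 16)) (hS : ∀ i m, @SeaCU SB (S i m))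
    (h : DatG P S x e) (i : ℕ → ι × Ix6) :
    OneRC P (GeoC.sel (GLU (fun j => GX P en (S j) (x j) (e j)) mN) i) :=
  (oneRT_GXL hA hS h i).oneRC

end fam

/-! ### the factor of the ends -/

/-- the factor of four ends at `e` on the lines -/
private theorem thE_gu {P : Par6} (hP : LnT P) {e : ℂ} (h1 : -(9 / 10 * l) ≤ e.re)
    (h2 : e.re ≤ 31 / 10 * l) {j : ℝ} (hj : j ∈ upL P) (t : ℝ) :
    ‖thE e e e e (vl ((1 - j) * l) t)‖ ≤ cZ ^ 2 := by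
  rw [norm_thE_e]
  exact pow_le_pow_left₀ (thZ_nonneg _ _) (leg_gu hP h1 h2 hj t) 2

private theorem thE_gl {P : Par6} (hP : LnT P) {e : ℂ} (h1 : -(9 / 10 * l) ≤ e.re)
    (h2 : e.re ≤ 29 / 10 * l) {j : ℝ} (hj : j ∈ loL P) (t : ℝ) :
    (‖thE e e e e (vl ((1 - j) * l) t)‖)⁻¹ ≤ cZ ^ 2 := by
  rw [norm_thE_e, ← inv_pow]
  exact pow_le_pow_left₀ (inv_nonneg.2 (thZ_nonneg _ _)) (leg_gl hP h1 h2 hj t) 2

/-! ### the rows -/

/-- the number of rows against the size -/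
private theorem num_rwq {m : ℕ} (a : Bool) : ((cond a m (Fil.q * m) : ℕ) : ℝ) ≤ ((Fil.q : ℕ) : ℝ) * m := by
  cases a
  · show ((Fil.q * m : ℕ) : ℝ) ≤ _
    push_cast
    exact le_rfl
  · show ((m : ℕ) : ℝ) ≤ _
    have h1 : (1 : ℝ) ≤ ((Fil.q : ℕ) : ℝ) := by exact_mod_cast Fil.one_le_q
    exact le_mul_of_one_le_left (Nat.cast_nonneg m) h1

private theorem T1L_ge (m : ℕ) : NUO.Tb (Real.log m) + tauT 1 (((Fil.q : ℕ) : ℝ) + (2 : ℕ)) ≤ T1L m := by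
  unfold PBU.PLX.T1L
  exact add_le_add le_rfl tauT_le

private theorem two_cos_l : 0 < 2 * Real.cos l := by
  have hl := l_pos
  have : 0 < Real.cos l := Real.cos_pos_of_mem_Ioo ⟨by linarith [Real.pi_pos], by
    unfold NUP1.l; linarith [Real.pi_pos]⟩
  linarith

/-- **the proportions of a content with pairwise different places** -/
private theorem cntX_cq {m : ℕ} (x : Fin m → ℂ) (a : Bool) :
    CntX 0 (fun _ : Fin m => (m : ℝ)⁻¹) x (cq x a) 0 := by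
  refine ⟨fun y hy => ?_, fun _ => cond a 1 Fil.q, fun f => ?_, fun i => ?_⟩
  · unfold cq at hy
    rw [List.mem_ofFn] at hy
    obtain ⟨i, rfl⟩ := hy
    cases a
    · exact ⟨i.modNat, rfl⟩
    · exact ⟨i, rfl⟩
  · unfold cq
    rw [List.map_ofFn, List.sum_ofFn]
    cases a
    · show ∑ j, f (yq x j) = ∑ i, ((Fil.q : ℕ) : ℝ) * f (x i)
      rw [Pool.Agent.PLX.sum_yq, nsmul_eq_mul, Finset.mul_sum]
    · show ∑ j, f (x j) = ∑ i, ((1 : ℕ) : ℝ) * f (x i)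
      simp
  · have hm : (0 : ℝ) < m := by exact_mod_cast i.pos
    rw [cq_length, Nat.cast_zero, add_zero, mul_assoc, mul_inv_cancel₀ hm.ne', mul_one]
    cases a
    · show |((Fil.q : ℕ) : ℝ) - ((Fil.q : ℕ) : ℝ)| ≤ 0
      simp
    · show |(1 : ℝ) - ((1 : ℕ) : ℝ)| ≤ 0
      simp

/-- the rows of a content alone -/
private theorem rwX_cq {de : ℝ} (hde : 0 < de) (hde1 : de ≤ 1 / 50) {m : ℕ} (x : Fin m → ℂ) :
    RwX 0 1 de 0 (cq x) (fun _ => 0) (fun _ => []) (cq x) where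
  hh := zero_le_one
  de0 := hde
  de1 := hde1
  kn := fun _ => le_rfl
  perm := fun s => by rw [List.append_nil]
  len := fun _ => rfl
  re := fun _ y hy => absurd hy List.not_mem_nil
  im := fun _ y hy => absurd hy List.not_mem_nil

private theorem nX_cq_ge {m : ℕ} (x : Fin m → ℂ) (a : Bool) : (m : ℝ) ≤ 2 * nX (cq x) (fun _ => 0) a := by
  have h1 := cq_length x a
  have h2 : (1 : ℝ) ≤ Fil.b a := by
    cases a
    · show (1 : ℝ) ≤ ((Fil.q : ℕ) : ℝ)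
      exact_mod_cast Fil.one_le_q
    · exact le_rfl
  have h3 : (0 : ℝ) ≤ m := Nat.cast_nonneg m
  have h4 := mul_le_mul_of_nonneg_right h2 h3
  unfold nX
  rw [h1, Nat.cast_zero]
  linarith

/-- the places of the rows -/
private theorem mem_cq {m : ℕ} {x : Fin m → ℂ} {Q : ℂ → Prop} (h : ∀ i, Q (x i)) (a : Bool) :
    ∀ y ∈ cq x a, Q y := by
  intro y hy
  obtain ⟨i, rfl⟩ := (cntX_cq x a).mem y hy
  exact h i

private theorem wdw_II {de : ℝ} (hde : 0 < de) (hde1 : de ≤ 1 / 50) :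
    ([I, -I] : List ℂ).length ≤ 2 ∧ Wdw 1 de [I, -I] := by
  have hl := l_pos
  refine ⟨le_rfl, fun x hx => ?_⟩
  rw [List.mem_cons, List.mem_singleton] at hx
  rcases hx with rfl | rfl
  · rw [I_re, I_im, abs_one]
    exact ⟨by nlinarith, by nlinarith, le_rfl⟩
  · rw [neg_re, neg_im, I_re, I_im, neg_zero, abs_neg, abs_one]
    exact ⟨by nlinarith, by nlinarith, le_rfl⟩

private theorem wdw_nil (de : ℝ) : ([] : List ℂ).length ≤ 2 ∧ Wdw 1 de [] :=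
  ⟨Nat.zero_le _, fun x hx => by simp at hx⟩

/-! ### two places -/

/-- **the data of contents with two places over their seas** -/
theorem datG_two {ι : Type*} {P : Par6} (hP : LnT P) (he : P.e ≤ 15 / 32) (hEe : Ends.e = 0)
    (hEo : Ends.o = 0) {de s0 lo hi wm K0 : ℝ} (hdl : 0 < de + lo) (hde1 : de ≤ 1 / 50)
    (hs0 : 0 ≤ s0) (hs1 : s0 ≤ 1 / 10) (hsd : 100 * s0 ≤ de) (hlo : lo ≤ 0)
    (hlo1 : -(1 / 100) ≤ lo) (hj2 : P.j2 < 1 + lo) (hj : hi < P.j1) (hL : 2 + hi < P.jL)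
    (hsm : 4 / ((de + lo) * l) ^ 2 * s0 ≤ (P.j1 - hi) * l) (hwm : 0 < wm) (hK0 : 0 ≤ K0)
    {S : ι → ℕ → SeaC} {x : ι → (m : ℕ) → Fin m → ℂ} {e : ι → ℕ → ℂ}
    (hD : ∃ m0 : ℕ, ∀ i, ∀ m ≥ m0, ∃ (w : Fin 2 → ℝ) (X : Fin 2 → ℂ),
      @CntDX (Fin 2) _ (S i m) de s0 lo hi wm K0 1 0 w X (cq (x i m))
        (fun _ => 0) (fun _ => []) (cq (x i m)) 0 m ∧
      w 0 ≤ w 1 ∧ (X 0).re ≤ l / 10 ∧ -(de / 10 * l) ≤ (X 1).re)
    (hE : ∃ m0 : ℕ, ∀ i, ∀ m ≥ m0, -(9 / 10 * l) ≤ (e i m).re ∧ (e i m).re ≤ 29 / 10 * l) :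
    DatG P S x e := by
  have hl := l_pos
  have hde : 0 < de := by linarith
  have hcZ := cZ_pos
  obtain ⟨C1, hC1, m1, H1⟩ := obC_cntX (G := cZ ^ 2) (c0 := 2 * Real.cos l)
    (d1 := ((Fil.q : ℕ) : ℝ)) hP he 0 2 (hs1.trans (by norm_num : (1 / 10 : ℝ) ≤ 1))
    two_cos_l (by exact_mod_cast Fil.one_le_q) (by positivity) hdl hde1 hs0 hs1 hsd hlo hj
    hsm hwm hK0
  obtain ⟨C2, hC2, H2⟩ := mf_ofX (s0 := s0) (Fin 2) hP K0 1 hde hde1 hlo1 hj2 hj hL 0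
  obtain ⟨κ, hκ, m2, H3⟩ := pr_cntX (s0 := s0) (lo := lo) (Fin 2) hP 1 0 hdl hde1 hs0 hs1 hlo hj
    hwm hK0
  obtain ⟨m3, hD⟩ := hD
  obtain ⟨m4, hE⟩ := hE
  refine ⟨C1 + C2, tauF, κ, by positivity, hκ,
    fun i m => rwEX (cq (x i m)) (fun _ => 0) (fun _ => []), fun i m => prX (cq (x i m)),
    fun i m => pTX (cq (x i m)) (fun _ => []), fun i m a u => rwEX_nonneg _ _ _ _ _,
    ⟨max 1 (max m2 m3), fun i m hm => ?_⟩, fun ep ep0 ep1 => ⟨max m1 (max m3 m4), fun i m hm => ?_⟩⟩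
  · simp only [ge_iff_le, max_le_iff] at hm
    obtain ⟨a1, a2, a3⟩ := hm
    obtain ⟨w, X, hd, -⟩ := hD i m a3
    let _ := S i m
    refine ⟨?_, H3 a2 hd⟩
    have h4 := (H2 hd.so hd.cn hd.rw).mono (show C2 ≤ C1 + C2 by linarith)
    rw [nX_cq hEe hEo a1 (x i m)] at h4
    exact h4
  · simp only [ge_iff_le, max_le_iff] at hm
    obtain ⟨a1, a3, a4⟩ := hm
    obtain ⟨w, X, hd, hw, hx0, hx1⟩ := hD i m a3
    obtain ⟨e1, e2⟩ := hE i m a4
    let _ := S i m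
    have h5 := H1 (W1 := fun _ => [I, -I]) (W2 := fun _ => [])
      (g := fun _ u => ‖thE (e i m) (e i m) (e i m) (e i m) u‖) a1 hd hw hx0 hx1 num_rwq
      (fun _ => wdw_II hde hde1) (fun _ => wdw_nil de) (fun _ _ => norm_nonneg _)
      (fun j hj a t => thE_gu hP e1 (by linarith) hj t) (fun j hj a t => thE_gl hP e1 e2 hj t)
      ep ep0.le ep1 (T1L m) (T1L_ge m)
    rw [obU6_rwq] at h5
    exact h5.mono (rwEX_nonneg _ _ _) (show C1 ≤ C1 + C2 by linarith)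

/-! ### rows on the axis -/

/-- **the data of rows on the axis over their seas** (weights `1 / m` at the rows) -/
theorem datG_axis {ι : Type*} {P : Par6} (hP : LnT P) (he : P.e ≤ 15 / 32) (hEe : Ends.e = 0)
    (hEo : Ends.o = 0) {de s0 lo hi : ℝ} (hde : 0 < de) (hde1 : de ≤ 1 / 50) (hs0 : 0 ≤ s0)
    (hs1 : s0 ≤ 1) (hlo1 : -(1 / 100) ≤ lo) (hj2 : P.j2 < 1 + lo) (hj : hi < P.j1)
    (hL : 2 + hi < P.jL) {S : ι → ℕ → SeaC} {x : ι → (m : ℕ) → Fin m → ℂ} {e : ι → ℕ → ℂ}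
    (hD : ∃ m0 : ℕ, ∀ i, ∀ m ≥ m0,
      @SeaOX (Fin m) _ (S i m) de s0 lo hi (fun _ => (m : ℝ)⁻¹) (x i m) ∧ ∀ k, (x i m k).re = 0)
    (hE : ∃ m0 : ℕ, ∀ i, ∀ m ≥ m0, -(9 / 10 * l) ≤ (e i m).re ∧ (e i m).re ≤ 29 / 10 * l) :
    DatG P S x e := by
  have hl := l_pos
  have hcZ := cZ_pos
  obtain ⟨C1, hC1, m1, H1⟩ := obC_axis (G := cZ ^ 2) (c0 := 2 * Real.cos l)
    (d1 := ((Fil.q : ℕ) : ℝ)) hP he 0 2 hs1 two_cos_l (by exact_mod_cast Fil.one_le_q)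
    (by positivity) hde hde1 hs0
  obtain ⟨C2, hC2, H2⟩ := mf_ofXM (s0 := s0) hP 0 1 hde hde1 hlo1 hj2 hj hL 0
  obtain ⟨κ, hκ, m2, H3⟩ := prXP_axis hP s0 0
  obtain ⟨m3, hD⟩ := hD
  obtain ⟨m4, hE⟩ := hE
  refine ⟨C1 + C2, tauF, κ, by positivity, hκ,
    fun i m => rwEX (cq (x i m)) (fun _ => 0) (fun _ => []), fun i m => prX (cq (x i m)),
    fun i m => pTX (cq (x i m)) (fun _ => []), fun i m a u => rwEX_nonneg _ _ _ _ _,
    ⟨max 1 (max m2 m3), fun i m hm => ?_⟩, fun ep ep0 ep1 => ⟨max m1 (max m3 m4), fun i m hm => ?_⟩⟩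
  · simp only [ge_iff_le, max_le_iff] at hm
    obtain ⟨a1, a2, a3⟩ := hm
    obtain ⟨hs, hx⟩ := hD i m a3
    let _ := S i m
    refine ⟨?_, H3 _ _ m a2 (mem_cq fun k => ⟨hx k, hs.im k⟩) (fun _ => le_rfl)
      (nX_cq_ge (x i m))⟩
    have h4 := (H2 (Fin m) 0 (by rw [mul_zero]) hs (cntX_cq (x i m))
      (rwX_cq hde hde1 (x i m))).mono (show C2 ≤ C1 + C2 by linarith)
    rw [nX_cq hEe hEo a1 (x i m)] at h4
    exact h4
  · simp only [ge_iff_le, max_le_iff] at hm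
    obtain ⟨a1, a3, a4⟩ := hm
    obtain ⟨hs, hx⟩ := hD i m a3
    obtain ⟨e1, e2⟩ := hE i m a4
    let _ := S i m
    have h5 := H1 (xr := rwq (x i m)) (W1 := fun _ => [I, -I]) (W2 := fun _ => [])
      (g := fun _ u => ‖thE (e i m) (e i m) (e i m) (e i m) u‖) a1 (rwX_cq hde hde1 (x i m))
      (mem_cq fun k => ⟨hx k, hs.im k⟩) (nX_cq_ge (x i m)) num_rwq
      (fun _ => wdw_II hde hde1) (fun _ => wdw_nil de) (fun _ _ => norm_nonneg _)
      (fun j hj a t => thE_gu hP e1 (by linarith) hj t) (fun j hj a t => thE_gl hP e1 e2 hj t)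
      (4 / 3 * (1 - ep)) (by nlinarith) (by nlinarith) (T1L m) (T1L_ge m)
    rw [obU6_rwq] at h5
    exact h5.mono (rwEX_nonneg _ _ _) (show C1 ≤ C1 + C2 by linarith)

end PLT

end
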