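import Pool.Agent.PLT.SeaYB
import Pool.Agent.PLT.BYR
import Pool.Agent.PLT.BYP
import Pool.Agent.PLT.SeaVO
import Pool.Agent.PLT.GXFam
import Pool.Agent.PLT.OneCntX

/-!
# The sea of the content of a tilted direction

`1 ≤ a0 < b0`, `D ∈ Nz (deAB a0 b0)`, all sizes `m` (`DB a0 b0 m D` is `D` for the sizes which occur, `0` otherwise).

* **`seaB a0 b0 m D : SeaC`**, class `SBAB a0 b0`; `seaB_at`, `seaB_U`, `seaB_ox`, **`seaV_B`**, `winC_B`;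
* **`cntV_B`**: the rows are an exact content over `wAB`, `XAB (DB ..)`, all sizes;
* **`seaG_B`**: the family over `IxB a0 b0 = {D // D ∈ Nz (deAB a0 b0)}`; `cntDX_B`;
* **`preB_sea`**: prefactor times mean field value, all sizes, all `D`.
-/

set_option autoImplicit false
set_option linter.unusedSectionVars false
set_option linter.unusedVariables false

noncomputable section

open Complex MeasureTheory Finset
open PLX (Fil Ends)

namespace PLT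

open NUMF (l l_pos)

/-- the window of the curve -/
theorem SeaAt.win {A B : ℝ} {SB : SeaCB} {D : ℂ} {S : SeaC} (h : SeaAt A B SB D S) (hg : 0 ≤ gAB A B)
    {h1 h0 : ℝ} (hh1 : gAB A B ≤ h1) (hh0 : 7 / 120 ≤ h0) : @WinC S (-(h1 * l)) (h0 * l) := by
  have hl := l_pos
  refine @WinC.mk S _ _ ?_ ?_ (fun t => ?_) fun t => ?_
  · have := mul_nonneg (hg.trans hh1) hl.le
    linarith
  · exact mul_nonneg (by linarith) hl.le
  · have h2 := h.ge t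
    have := mul_le_mul_of_nonneg_right hh1 hl.le
    exact le_trans (by linarith) h2
  · exact (h.le t).trans (mul_le_mul_of_nonneg_right hh0 hl.le)

/-- the window for small separation -/
theorem SeaAt.win_small {A B : ℝ} {SB : SeaCB} {D : ℂ} {S : SeaC} (h : SeaAt A B SB D S) (hA : 0 < A)
    (hB : 0 < B) {de : ℝ} (hde : de ≤ 1 / 20) (hD : D ∈ Pa.Nz de) {g : ℝ} (hg : 2 * g < l)
    (hDg : |D.re| ≤ g) : @WinC S (-g) g := by
  have hs := h.small hA hB hde hD hg hDg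
  have hg0 : 0 ≤ g := (abs_nonneg _).trans hDg
  exact @WinC.mk S _ _ (by linarith) hg0 (fun t => (abs_le.1 (hs t)).1) fun t => (abs_le.1 (hs t)).2

namespace BY

open Pa (pz qz Nz)
open PotH.PLX (sN)
open Pool.Agent.PLX (rwq yq)
open PLT.Le (SeaV CntV EMe)

variable {a0 b0 m : ℕ} {D : ℂ}

/-- **the sea of the content of a direction** -/
def seaB (a0 b0 m : ℕ) (D : ℂ) : SeaC := seaAB a0 b0 (DB a0 b0 m D)

/-- the indices of the family -/
abbrev IxB (a0 b0 : ℕ) : Type := {D : ℂ // D ∈ Nz (deAB a0 b0)}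

theorem castA (h0 : 1 ≤ a0) : (0 : ℝ) < a0 := by exact_mod_cast h0

theorem castAB (h1 : a0 < b0) : (a0 : ℝ) < b0 := by exact_mod_cast h1

/-- the seas of the direction -/
theorem seasB (h0 : 1 ≤ a0) (h1 : a0 < b0) :
    SeasAB a0 b0 (deAB a0 b0) (SBAB a0 b0) (seaAB a0 b0) :=
  seasAB (castA h0) (castAB h1)

theorem DB_mem' (h0 : 1 ≤ a0) (h1 : a0 < b0) (hD : D ∈ Nz (deAB a0 b0)) (m : ℕ) :
    DB a0 b0 m D ∈ Nz (deAB a0 b0) :=
  DB_mem (seasB h0 h1).de0 hD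

/-- **everything about the sea at `D`** -/
theorem seaB_at (h0 : 1 ≤ a0) (h1 : a0 < b0) (hD : D ∈ Nz (deAB a0 b0)) (m : ℕ) :
    SeaAt a0 b0 (SBAB a0 b0) (DB a0 b0 m D) (seaB a0 b0 m D) :=
  (seasB h0 h1).at' _ (DB_mem' h0 h1 hD m)

/-- **the bounds** -/
theorem seaB_U (h0 : 1 ≤ a0) (h1 : a0 < b0) (hD : D ∈ Nz (deAB a0 b0)) (m : ℕ) :
    @SeaCU (SBAB a0 b0) (seaB a0 b0 m D) :=
  (seaB_at h0 h1 hD m).su

/-- **the sea of weights and places** -/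
theorem seaB_ox (h0 : 1 ≤ a0) (h1 : a0 < b0) (hD : D ∈ Nz (deAB a0 b0)) (m : ℕ) {lo hi : ℝ}
    (hlo : gAB a0 b0 ≤ -lo) (hlo' : -lo < cAB a0 b0) (hhi : 7 / 120 ≤ hi) (hhi' : hi < 1 / 2) :
    @SeaOX (Fin 2) _ (seaB a0 b0 m D) (cAB a0 b0) (gAB a0 b0) lo hi (wAB a0 b0)
      (XAB a0 b0 (DB a0 b0 m D)) :=
  (seaB_at h0 h1 hD m).ox lo hi hlo hlo' hhi hhi'

/-- the same in the smallest window -/
theorem seaB_ox' (h0 : 1 ≤ a0) (h1 : a0 < b0) (hD : D ∈ Nz (deAB a0 b0)) (m : ℕ) :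
    @SeaOX (Fin 2) _ (seaB a0 b0 m D) (cAB a0 b0) (gAB a0 b0) (-gAB a0 b0) (7 / 120) (wAB a0 b0)
      (XAB a0 b0 (DB a0 b0 m D)) := by
  have hg := gAB_pos (castA h0) (castAB h1)
  have hc := gAB_c (castA h0) (castAB h1)
  exact seaB_ox h0 h1 hD m (by linarith) (by linarith) le_rfl (by norm_num)

/-- **the sea as the sea of an exact content** -/
theorem seaV_B (h0 : 1 ≤ a0) (h1 : a0 < b0) (hD : D ∈ Nz (deAB a0 b0)) (m : ℕ) :
    @SeaV (Fin 2) _ (seaB a0 b0 m D) (wAB a0 b0) (XAB a0 b0 (DB a0 b0 m D)) := by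
  have h := seaB_at h0 h1 hD m
  have hg := gAB_pos (castA h0) (castAB h1)
  have hg1 := gAB_le (castA h0) (castAB h1)
  exact @Le.SeaV.of_ox (Fin 2) _ _ _ (seaB a0 b0 m D) _ _ _ _ (seaB_ox' h0 h1 hD m) (by linarith)
    (by norm_num) (by linarith) (by linarith) (cAB_pos (castA h0) (castAB h1)).le h.fs h.fx

/-- **the window of the curve** -/
theorem winC_B (h0 : 1 ≤ a0) (h1 : a0 < b0) (hD : D ∈ Nz (deAB a0 b0)) (m : ℕ) {w1 w0 : ℝ}
    (hw1 : gAB a0 b0 ≤ w1) (hw0 : 7 / 120 ≤ w0) :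
    @WinC (seaB a0 b0 m D) (-(w1 * l)) (w0 * l) :=
  (seaB_at h0 h1 hD m).win (gAB_pos (castA h0) (castAB h1)).le hw1 hw0

/-! ### rows and ends -/

/-- **the rows are an exact content**, all sizes -/
theorem cntV_B (h : 1 ≤ a0) (m : ℕ) (D : ℂ) :
    CntV (wAB a0 b0) (XAB a0 b0 (DB a0 b0 m D)) (xB a0 b0 m D) := by
  have hA := castA h
  have hs : (0 : ℝ) < a0 + b0 := by
    have : (0 : ℝ) ≤ b0 := Nat.cast_nonneg _
    linarith
  by_cases hm : okB a0 b0 m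
  · have h1 := cntV_xB h hm D
    have e : DB a0 b0 m D = D := if_pos hm
    rw [e]
    refine ⟨fun F => ?_, fun i => ?_⟩
    · rw [h1.sum F, Fintype.sum_bool, Fin.sum_univ_two]
      rfl
    · obtain ⟨k, hk⟩ := h1.mem i
      cases k
      · exact ⟨1, hk⟩
      · exact ⟨0, hk⟩
  · have e : DB a0 b0 m D = 0 := if_neg hm
    have e2 : ∀ i : Fin m, xB a0 b0 m D i = 0 := fun i => if_neg hm
    rw [e]
    refine ⟨fun F => ?_, fun i => ⟨0, ?_⟩⟩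
    · rw [Finset.sum_congr rfl fun i _ => by rw [e2 i], Fin.sum_univ_two, XAB_zero, XAB_one, pz_zero,
        qz_zero, neg_zero, wAB_zero, wAB_one, Finset.sum_const, Finset.card_univ, Fintype.card_fin,
        nsmul_eq_mul, ← add_mul, ← add_div, div_self hs.ne', one_mul]
    · rw [e2 i, XAB_zero, pz_zero, neg_zero]

/-- a row is at a place -/
theorem xB_re (h0 : 1 ≤ a0) (h1 : a0 < b0) (hD : D ∈ Nz (deAB a0 b0)) (m : ℕ) (k : Fin m) :
    -((1 - cAB a0 b0) * l) ≤ (xB a0 b0 m D k).re ∧ (xB a0 b0 m D k).re ≤ (1 / 2 - cAB a0 b0) * l ∧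
      |(xB a0 b0 m D k).im| ≤ gAB a0 b0 := by
  obtain ⟨s, hs⟩ := (cntV_B (a0 := a0) (b0 := b0) h0 m D).mem k
  have h := seaB_ox' h0 h1 hD m
  rw [hs]
  exact ⟨@SeaOX.lo _ _ (seaB a0 b0 m D) _ _ _ _ _ _ h s, @SeaOX.up _ _ (seaB a0 b0 m D) _ _ _ _ _ _ h s,
    @SeaOX.im _ _ (seaB a0 b0 m D) _ _ _ _ _ _ h s⟩

/-- the ends are at a place near or to the right of zero -/
theorem eB_re [Fil] (h0 : 1 ≤ a0) (h1 : a0 < b0) (hD : D ∈ Nz (deAB a0 b0)) (m : ℕ) :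
    -(deAB a0 b0) ≤ (eB a0 b0 m D).re ∧ (eB a0 b0 m D).re ≤ (1 / 2 - cAB a0 b0) * l ∧
      |(eB a0 b0 m D).im| ≤ gAB a0 b0 := by
  have h := seaB_ox' h0 h1 hD m
  have hS := seasB h0 h1
  have hA := castA h0
  have hB : (0 : ℝ) < b0 := hA.trans (castAB h1)
  rw [eB_DB]
  exact ⟨qz_low hA hB hS.de1 (DB_mem' h0 h1 hD m) hS.de0,
    @SeaOX.up _ _ (seaB a0 b0 m D) _ _ _ _ _ _ h 1, @SeaOX.im _ _ (seaB a0 b0 m D) _ _ _ _ _ _ h 1⟩

/-- **the family of the contents of a direction** (`PLT/GXFam`) -/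
theorem seaG_B [Fil] (h0 : 1 ≤ a0) (h1 : a0 < b0) :
    SeaG (SBAB a0 b0) (gAB a0 b0) (fun m (i : IxB a0 b0) => seaB a0 b0 m i)
      (fun i m => xB a0 b0 m i) (fun i m => eB a0 b0 m i) fun _ _ => True := by
  have hl := l_pos
  have hc := cAB_pos (castA h0) (castAB h1)
  have hS := seasB h0 h1
  have hcl := mul_pos hc hl
  refine ⟨⟨0, fun m _ i _ => seaB_U h0 h1 i.2 m⟩, ⟨0, fun m _ i _ =>
    ⟨Fin 2, inferInstance, wAB a0 b0, XAB a0 b0 (DB a0 b0 m i), seaV_B h0 h1 i.2 m, cntV_B h0 m i⟩⟩,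
    ⟨0, fun m _ i _ k => ?_⟩, ⟨0, fun m _ i _ => ?_⟩⟩
  · obtain ⟨k1, k2, -⟩ := xB_re h0 h1 i.2 m k
    have := hS.hh
    constructor <;> linarith
  · obtain ⟨k1, k2, k3⟩ := eB_re h0 h1 i.2 m
    have := hS.del
    exact ⟨by linarith, by linarith, k3⟩

/-- the curves of the family are in the strip -/
theorem curGU_B [Fil] [Ends] (h0 : 1 ≤ a0) (h1 : a0 < b0) {w1 w0 : ℝ} (hw1 : gAB a0 b0 ≤ w1)
    (hw0 : 7 / 120 ≤ w0) (P : PHK.Par6) (en : EnC) :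
    CurGU w1 w0 fun i : IxB a0 b0 => GX P en (fun m => seaB a0 b0 m i) (fun m => xB a0 b0 m i)
      fun m => eB a0 b0 m i :=
  curGU_X (SBAB a0 b0) (S := fun m (i : IxB a0 b0) => seaB a0 b0 m i)
    ⟨0, fun m _ i => ⟨seaB_U h0 h1 i.2 m, winC_B h0 h1 i.2 m hw1 hw0⟩⟩ P en
    (fun i m => xB a0 b0 m i) fun i m => eB a0 b0 m i

/-- **the content over its sea**, size `m` (`PLT/OneCntX`) -/
theorem cntDX_B [Fil] (h0 : 1 ≤ a0) (h1 : a0 < b0) (hD : D ∈ Nz (deAB a0 b0)) (m : ℕ) {lo hi : ℝ}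
    (hlo : gAB a0 b0 ≤ -lo) (hlo' : -lo < cAB a0 b0) (hhi : 7 / 120 ≤ hi) (hhi' : hi < 1 / 2)
    {w0 : ℝ} (hw0 : 0 ≤ w0) (n0 : ℕ) :
    @CntDX (Fin 2) _ (seaB a0 b0 m D) (cAB a0 b0) (gAB a0 b0) lo hi (a0 / (a0 + b0)) Fil.q w0 n0
      (wAB a0 b0) (XAB a0 b0 (DB a0 b0 m D)) (fun a => List.ofFn (rwq (xB a0 b0 m D) a)) (fun _ => 0)
      (fun _ => []) (fun a => List.ofFn (rwq (xB a0 b0 m D) a)) 0 m := by
  have hl := l_pos
  have hA := castA h0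
  have hAB := castAB h1
  have hB : (0 : ℝ) < b0 := hA.trans hAB
  have hS := seasB h0 h1
  have hD' := DB_mem' h0 h1 hD m
  refine @CntDX.mk (Fin 2) _ (seaB a0 b0 m D) _ _ _ _ _ _ _ _ _ _ _ _ _ _ _ _
    (seaB_ox h0 h1 hD m hlo hlo' hhi hhi') (fun i => ?_) ?_ (half_w h0 h1 ?_) (fun a => cntX_B h0 a)
    ⟨hw0, cAB_pos hA hAB, cAB_le _ _, fun _ => Nat.zero_le _, fun s => by rw [List.append_nil],
      fun _ => rfl, fun s x hx => by simp at hx, fun s x hx => by simp at hx⟩ fun a => ?_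
  · fin_cases i
    · exact le_rfl
    · show (a0 : ℝ) / (a0 + b0) ≤ b0 / (a0 + b0)
      exact div_le_div_of_nonneg_right hAB.le (by positivity)
  · exact fun i i' => spread_B h0 h1 hS.de0 (by
      have := hS.del
      have e : (NUP1.l : ℝ) = l := rfl
      rw [e]
      linarith) hD' i i'
  · have := qz_low hA hB hS.de1 hD' hS.de0
    have := hS.del
    have e : (NUP1.l : ℝ) = l := rfl
    rw [e]
    linarith
  · unfold nX
    rw [List.length_ofFn, Nat.cast_zero, add_zero]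
    have hq : (1 : ℝ) ≤ Fil.q := by exact_mod_cast Fil.one_le_q
    have hm : (0 : ℝ) ≤ m := Nat.cast_nonneg _
    cases a
    · show (m : ℝ) ≤ 2 * ((Fil.q * m : ℕ) : ℝ)
      push_cast
      nlinarith
    · show (m : ℝ) ≤ 2 * (m : ℝ)
      linarith

/-- **the prefactor of the regular function**, all sizes, all `D` -/
theorem preB_sea [Fil] [Ends] (h0 : 1 ≤ a0) (h1 : a0 < b0) (hD : D ∈ Nz (deAB a0 b0)) {m : ℕ}
    (hN : ∀ a, sN m a = Fil.b a * m) :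
    ‖preB a0 b0 m D‖ * Real.exp (@EMX _ _ (seaB a0 b0 m D) (eB a0 b0 m D) m) =
      9 / 4 * ‖sin (NUP1.l : ℂ)‖ / ‖PBR.rh 0‖ ^ 2 := by
  have hl := l_pos
  obtain ⟨k1, k2, -⟩ := eB_re h0 h1 hD m
  have hS := (seasB h0 h1).del
  have hc := mul_pos (cAB_pos (castA h0) (castAB h1)) hl
  exact @PLT.Le.preY_EM (Fin 2) _ _ _ (seaB a0 b0 m D) _ _ (seaV_B h0 h1 hD m) m hN _ (cntV_B h0 m D)
    (eB a0 b0 m D) (by linarith) (by linarith)

end BY

end PLT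

end
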