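import Pool.Agent.PLT.AsmSC
import Pool.Agent.PLT.PtTh

/-!
# Spectators against objects at the point of the tilted sea

`noEk_Th : NoEk parTh`; **`specPin_Th : ∃ C, 1 ≤ C ∧ SpecPinC parTh C`**.
-/

set_option autoImplicit false

noncomputable section

namespace PLT

open PHK NUGC NUGC.PLX

/-- the offsets of the objects in units of `1 / 120` -/
def oTh : Fin 8 → ℤ := ![248, 180, 300, 294, 414, 54, 9, 117]

/-- the distances of the elementary spectators in units of `1 / 120` -/
def xTh : Ek → ℤ
  | .h5 => 30
  | .hm => -450
  | .h1 => -90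
  | .hs => -45
  | .q1 => -90
  | .qs => -45
  | .sr => -285

theorem noEk_Th : NoEk parTh := by
  refine noEk_lat 120 (by norm_num) oTh xTh (fun i => ?_) (fun k => ?_) (fun k => ?_)
  · fin_cases i <;> norm_num [oC, oTh, parTh]
  · cases k <;> norm_num [Ek.x, xTh]
  · cases k <;> decide

/-- **the groups against an object** at the point of the tilted sea -/
theorem specPin_Th : ∃ C : ℝ, 1 ≤ C ∧ SpecPinC parTh C := spec_pinC parTh_good noEk_Th

end PLT

end
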