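import Pool.Agent.PLT.BYX
import Pool.Agent.PLT.BYM
import Pool.Agent.PLT.BYRc
import Pool.Agent.PLT.GBd
import Pool.Agent.PLT.SeaB
import Pool.Agent.PLT.StabT
import Pool.Agent.PLT.SpTh
import Pool.Agent.PLT.AnY
import Pool.Agent.PLT.OneGX
import Pool.Agent.PLT.BYO
import Pool.Agent.PLT.BYCutB

/-!
# The mass of the regular function of the content on the neighbourhood of the path: assembly

`1 ≤ a0 < b0`, `D ∈ Nz (deAB a0 b0)`, all sizes `m`; index set `IxB a0 b0`.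

* `datG_B`: the one body side of the family; `inX_B`: seas, gas, stability, cutoffs and one body side (`InXF`);
* **`mass_B`**: the mass for small `ep`, uniform in `D`;
* **`by_main_of`**: the mass for every cutoff `ep ≤ 1 / 100`, from gas and cutoffs; `byF_of`: the field `by'`.
-/

set_option autoImplicit false
set_option linter.unusedSectionVars false

noncomputable section

open Complex MeasureTheory Finset
open scoped ENNReal
open PLX (Fil Ends)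

namespace PLT.BY

open NUP1 (l vl)
open NURow (HT)
open NUGC.PLX (htL)
open Pa (Nz pz qz)
open PBR.PLX (Ch6 Ix6)
open PBQ.PLX (OwnDLe)

variable [Fil]

section

attribute [local instance] _root_.PLX.ends0

variable {a0 b0 : ℕ}

/-- the seas of the family -/
abbrev SX (a0 b0 : ℕ) (m : ℕ) (i : IxB a0 b0) : SeaC := seaB a0 b0 m i

/-- the rows of the family -/
abbrev xX (a0 b0 : ℕ) (i : IxB a0 b0) (m : ℕ) : Fin m → ℂ := xB a0 b0 m i

/-- the ends of the family -/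
abbrev eX (a0 b0 : ℕ) (i : IxB a0 b0) (m : ℕ) : ℂ := eB a0 b0 m i

/-- **one body side of the family** -/
theorem datG_B (h0 : 1 ≤ a0) (h1 : a0 < b0) :
    DatG parTh (fun i m => SX a0 b0 m i) (xX a0 b0) (eX a0 b0) := by
  have hl : 0 < NUP1.l := NUP1.Bd.l_pos
  have hll : (NUMF.l : ℝ) = NUP1.l := rfl
  have hA := castA h0
  have hAB := castAB h1
  have hS := seasB h0 h1
  have hg0 := gAB_pos hA hAB
  have hgc := gAB_c hA hAB
  have hc0 := cAB_pos hA hAB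
  have hc1 := cAB_le (a0 : ℝ) b0
  have hg7 := gAB_sq hA hAB
  refine datG_two (lnT_good parTh_good) (by norm_num [parTh]) rfl rfl (de := cAB (a0 : ℝ) b0)
    (s0 := gAB (a0 : ℝ) b0) (lo := -gAB (a0 : ℝ) b0) (hi := 7 / 120) (wm := a0 / (a0 + b0))
    (K0 := Fil.q) (by linarith) hc1 hg0.le (by linarith) (by nlinarith) (by linarith) (by linarith)
    (by simp only [parTh]; linarith) (by norm_num [parTh]) (by norm_num [parTh]) ?_
    (div_pos hA (by linarith)) (Nat.cast_nonneg _) ⟨0, fun i m _ => ?_⟩ ⟨0, fun i m _ => ?_⟩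
  · -- the heights are small against the distance
    have h3 : 3 / 4 * cAB (a0 : ℝ) b0 ≤ cAB (a0 : ℝ) b0 + -gAB (a0 : ℝ) b0 := by linarith
    have h4 : 0 < 3 / 4 * cAB (a0 : ℝ) b0 * NUP1.l := by positivity
    have h5 : 3 / 4 * cAB (a0 : ℝ) b0 * NUP1.l ≤ (cAB (a0 : ℝ) b0 + -gAB (a0 : ℝ) b0) * NUP1.l :=
      mul_le_mul_of_nonneg_right h3 hl.le
    have h6 : (3 / 4 * cAB (a0 : ℝ) b0 * NUP1.l) ^ 2 ≤
        ((cAB (a0 : ℝ) b0 + -gAB (a0 : ℝ) b0) * NUP1.l) ^ 2 := pow_le_pow_left₀ h4.le h5 2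
    have h7 : 4 / ((cAB (a0 : ℝ) b0 + -gAB (a0 : ℝ) b0) * NUP1.l) ^ 2 ≤
        4 / (3 / 4 * cAB (a0 : ℝ) b0 * NUP1.l) ^ 2 :=
      div_le_div_of_nonneg_left (by norm_num) (pow_pos h4 2) h6
    have h8 : 4 / (3 / 4 * cAB (a0 : ℝ) b0 * NUP1.l) ^ 2 * gAB (a0 : ℝ) b0 ≤
        64 / 9 / 10 ^ 7 / NUP1.l ^ 2 := by
      rw [div_mul_eq_mul_div, div_le_div_iff₀ (pow_pos h4 2) (by positivity)]
      have : 4 * gAB (a0 : ℝ) b0 * NUP1.l ^ 2 ≤ 4 * (cAB (a0 : ℝ) b0 ^ 2 / 10 ^ 7) * NUP1.l ^ 2 := by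
        have h9 : gAB (a0 : ℝ) b0 ≤ cAB (a0 : ℝ) b0 ^ 2 / 10 ^ 7 := by
          rw [le_div_iff₀ (by norm_num)]
          linarith
        exact mul_le_mul_of_nonneg_right (mul_le_mul_of_nonneg_left h9 (by norm_num)) (by positivity)
      refine this.trans (le_of_eq ?_)
      ring
    have hl2 : (3 : ℝ) / 8 ≤ NUP1.l := by
      rw [← hll]
      unfold NUMF.l
      linarith [Real.pi_gt_three]
    refine (mul_le_mul_of_nonneg_right h7 hg0.le).trans (h8.trans ?_)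
    have e1 : parTh.j1 - 7 / 120 = 1 / 60 := by norm_num [parTh]
    rw [e1, div_le_iff₀ (by positivity)]
    have : (27 : ℝ) / 512 ≤ NUP1.l ^ 3 := by
      calc (27 : ℝ) / 512 = (3 / 8) ^ 3 := by norm_num
        _ ≤ NUP1.l ^ 3 := pow_le_pow_left₀ (by norm_num) hl2 3
    nlinarith
  · refine ⟨wAB a0 b0, XAB a0 b0 (DB a0 b0 m i), ?_, ?_, ?_, ?_⟩
    · exact cntDX_B h0 h1 i.2 m (by linarith) (by linarith) le_rfl (by norm_num) zero_le_one 0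
    · show (a0 : ℝ) / (a0 + b0) ≤ b0 / (a0 + b0)
      exact div_le_div_of_nonneg_right hAB.le (by positivity)
    · have h2 := Pa.re_pz hA (hA.trans hAB) hS.de1 (DB_mem' h0 h1 i.2 m)
      have h3 := (DB_mem' h0 h1 i.2 m).1
      have h4 := hS.del
      rw [XAB_zero]
      have h5 : (-(pz a0 b0 (DB a0 b0 m i))).re ≤ deAB (a0 : ℝ) b0 := by
        rw [neg_re]
        rw [abs_le] at h2
        rcases abs_cases (DB a0 b0 m (i : ℂ)).re with ⟨h6, h7⟩ | ⟨h6, h7⟩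
        · rw [h6] at h2
          linarith [h2.1, hS.de0]
        · rw [h6] at h2
          linarith [h2.1]
      rw [hll] at h4
      linarith
    · have h2 := qz_low hA (hA.trans hAB) hS.de1 (DB_mem' h0 h1 i.2 m) hS.de0
      have h4 := hS.dec
      rw [XAB_one]
      rw [hll] at h4
      linarith
  · obtain ⟨k1, k2, -⟩ := eB_re h0 h1 i.2 m
    have h4 := hS.del
    have h5 : (1 / 2 - cAB (a0 : ℝ) b0) * NUMF.l ≤ 1 / 2 * NUMF.l :=
      mul_le_mul_of_nonneg_right (by linarith) hl.le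
    rw [hll] at h4 h5 k2
    constructor
    · show -(9 / 10 * NUP1.l) ≤ (eB a0 b0 m i).re
      linarith
    · show (eB a0 b0 m i).re ≤ 29 / 10 * NUP1.l
      linarith

/-- **seas, gas, stability, cutoffs and one body side of the family** -/
theorem inX_B (h0 : 1 ≤ a0) (h1 : a0 < b0) (gas : S4C (SBAB a0 b0) parTh (enT parTh))
    (cut : CutG (SX a0 b0) (xX a0 b0) (eX a0 b0) fun _ _ => True) :
    InXF parTh (enT parTh) (SBAB a0 b0) (gAB a0 b0) (gAB a0 b0) (7 / 120) (SX a0 b0) (xX a0 b0)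
      (eX a0 b0) where
  s00 := (gAB_pos (castA h0) (castAB h1)).le
  sea := seaG_B h0 h1
  cut := cut
  win := ⟨0, fun m _ i => winC_B h0 h1 i.2 m le_rfl le_rfl⟩
  g1le := by
    have := gAB_le (castA h0) (castAB h1)
    linarith
  g0le := by norm_num
  gas := gas
  stab i := stabThU fun m => seaB a0 b0 m (i m)
  one i := oneR_GXL (S := fun (j : IxB a0 b0) m => SX a0 b0 m j) (awP_Th le_rfl le_rfl)
    (fun j m => seaB_U h0 h1 j.2 m) (datG_B h0 h1) i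
  one' i := oneR_GX (S := fun (j : IxB a0 b0) m => SX a0 b0 m j) (fun j m => seaB_U h0 h1 j.2 m)
    (datG_B h0 h1) i

/-- **the mass for small `ep`**, uniform in `D` -/
theorem mass_B (h0 : 1 ≤ a0) (h1 : a0 < b0) (gas : S4C (SBAB a0 b0) parTh (enT parTh))
    (cut : CutG (SX a0 b0) (xX a0 b0) (eX a0 b0) fun _ _ => True) (cutB : CutB a0 b0)
    {ε : ℝ} (hε : 0 < ε) : ∃ ep0 : ℝ, 0 < ep0 ∧ ep0 ≤ 1 / 100 ∧ ∀ ep : ℝ, 0 < ep → ep ≤ ep0 →
      ∃ (C : ℝ) (m0 : ℕ), 0 ≤ C ∧ ∀ m ≥ m0, ∀ D ∈ Nz (deAB a0 b0),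
        ‖SB a0 b0 ep m D‖ ≤ C * (m : ℝ) ^ ε := by
  have hde : 0 < deAB (a0 : ℝ) b0 := (seasB h0 h1).de0
  have : Nonempty (IxB a0 b0) := ⟨⟨0, by
    have := NUP1.Bd.l_pos
    refine ⟨?_, ?_, ?_⟩ <;> simp <;> linarith⟩⟩
  obtain ⟨C3, -, hspec⟩ := specPin_Th
  have hA0 := castA h0
  have hAB := castAB h1
  have hg0 := gAB_pos hA0 hAB
  have hgc := gAB_c hA0 hAB
  have hc0 := cAB_pos hA0 hAB
  obtain ⟨x0, hx⟩ : ∃ x0 : ℝ, x0 = min (1 / 100) (cAB (a0 : ℝ) b0) := ⟨_, rfl⟩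
  have hx0 : 0 < x0 := by
    rw [hx]
    exact lt_min (by norm_num) hc0
  have hx1 : x0 ≤ 1 / 100 := by
    rw [hx]
    exact min_le_left _ _
  have hx2 : x0 ≤ cAB (a0 : ℝ) b0 := by
    rw [hx]
    exact min_le_right _ _
  have hI := inX_B h0 h1 gas cut
  have hC := clsFC_B (a0 := a0) (b0 := b0) (g1 := gAB (a0 : ℝ) b0) (g0 := 7 / 120) h0 h1 hx1 hg0.le
    (by linarith) (by norm_num) (by linarith) (fun (i : IxB a0 b0) ep m => kDB a0 b0 ep m i)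
  have hB := bsF_B (a0 := a0) (b0 := b0) (g1 := gAB (a0 : ℝ) b0) (g0 := 7 / 120) h0 h1 hx1 hg0.le
    (by linarith) (by norm_num) (by linarith)
    (G := gxF parTh (enT parTh) (SX a0 b0) (xX a0 b0) (eX a0 b0)) fun ep _ _ i m g => obX_RB a0 b0 m ep i g
  obtain ⟨hown, hownD⟩ := hown_B h0 h1 cutB
  exact small_of (S := Nz (deAB (a0 : ℝ) b0))
    (sumBdP_X (f := fun _ _ _ _ _ _ => 1) parTh_good rfl rfl hspec (awP_Th le_rfl le_rfl) hI hx0 hC hB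
      (fun _ _ _ _ _ _ _ => PHK.cw6_nonneg _ _ _ _ _ _) (fun _ _ _ _ _ _ _ h => PHK.cw6_ok _ h))
    (clOkY_of PHK.dir6Le hown hownD (fun _ _ _ _ _ _ => zero_le_one) fun _ _ _ _ _ _ => le_rfl)
    ⟨9 / 4 * ‖sin (NUP1.l : ℂ)‖ / ‖PBR.rh 0‖ ^ 2, 0, fun m _ D =>
      (preB_sea h0 h1 D.2 fun a => sN_ends0 m a).le⟩ hε

/-- **the mass of the regular function, every cutoff** -/
theorem by_main_of (h0 : 1 ≤ a0) (h1 : a0 < b0) (gas : S4C (SBAB a0 b0) parTh (enT parTh))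
    (cut : CutG (SX a0 b0) (xX a0 b0) (eX a0 b0) fun _ _ => True) (cutB : CutB a0 b0) :
    ∃ de : ℝ, 0 < de ∧ ∀ ep : ℝ, 0 < ep → ep ≤ 1 / 100 → ∀ ε : ℝ, 0 < ε → ∀ᶠ k : ℕ in Filter.atTop,
      ∀ D ∈ Nz de, ‖SB a0 b0 ep (k * (a0 + b0)) D‖ ≤ (k : ℝ) ^ ε := by
  obtain ⟨δ, hδ0, hδ1, hδ⟩ := AY.diff_YT (a0 := a0) (b0 := b0) h0 h1.le
  have hde : 0 < deAB (a0 : ℝ) b0 := (seasB h0 h1).de0
  refine ⟨min δ (deAB a0 b0), lt_min hδ0 hde, fun ep hep hep1 ε hε => ?_⟩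
  refine main_of (a0 := a0) (b0 := b0) (by omega) (by omega) (lt_min hδ0 hde)
    (fun ep' h0' h1' m D hD => ?_) (fun ε' hε' => ?_) hep hep1 hε
  · have hD' : D ∈ TwoC.Rc 0 l δ := by
      have h2 := Pa.Nz_mono (min_le_left δ (deAB (a0 : ℝ) b0)) hD
      obtain ⟨k1, k2, k3⟩ := h2
      exact ⟨by linarith, k2, k3⟩
    exact (hδ ep' h0'.le (by linarith) m D hD').differentiableWithinAt
  · obtain ⟨ep0, e0, e1, H⟩ := mass_B h0 h1 gas cut cutB hε'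
    refine ⟨ep0, e0, e1, fun ep hep hep1 => ?_⟩
    obtain ⟨C, m0, hC, H⟩ := H ep hep hep1
    exact ⟨C, m0, hC, fun m hm D hD => H m hm D (Pa.Nz_mono (min_le_right _ _) hD)⟩

/-- **the mass of the regular function from the gas** -/
theorem by_main (h0 : 1 ≤ a0) (h1 : a0 < b0) (gas : S4C (SBAB a0 b0) parTh (enT parTh)) :
    ∃ de : ℝ, 0 < de ∧ ∀ ep : ℝ, 0 < ep → ep ≤ 1 / 100 → ∀ ε : ℝ, 0 < ε → ∀ᶠ k : ℕ in Filter.atTop,
      ∀ D ∈ Nz de, ‖SB a0 b0 ep (k * (a0 + b0)) D‖ ≤ (k : ℝ) ^ ε :=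
  by_main_of h0 h1 gas (cutG_B rfl rfl h0 h1) (cutB_B h0 h1)

/-- **the field `by'` of the data of a direction**, every cutoff -/
theorem byF_of (h0 : 1 ≤ a0) (h1 : a0 < b0) {de : ℝ} (hde : 0 < de)
    (H : ∀ ep : ℝ, 0 < ep → ep ≤ 1 / 100 → ∀ ε : ℝ, 0 < ε → ∀ᶠ k : ℕ in Filter.atTop,
      ∀ D ∈ Nz de, ‖SB a0 b0 ep (k * (a0 + b0)) D‖ ≤ (k : ℝ) ^ ε) {ep : ℝ} (hep : 0 < ep)
    (hep1 : ep ≤ 1 / 100) : ∃ δ : ℝ, 0 < δ ∧
      (∀ᶠ k : ℕ in Filter.atTop, ∀ D ∈ TwoC.Rc 0 l δ,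
        DifferentiableAt ℂ (AY.YT a0 b0 ep (k * (a0 + b0))) D) ∧
      ∀ ε : ℝ, 0 < ε → ∀ᶠ k : ℕ in Filter.atTop, ∀ D ∈ TwoC.Rc 0 l δ,
        ‖AY.YT a0 b0 ep (k * (a0 + b0)) D‖ ≤ (k : ℝ) ^ ε := by
  obtain ⟨δ, hδ0, hδ1, hδ⟩ := AY.diff_YT (a0 := a0) (b0 := b0) h0 h1.le
  refine ⟨min δ de, lt_min hδ0 hde, Filter.Eventually.of_forall fun k D hD => ?_, fun ε hε => ?_⟩
  · refine hδ ep hep.le (by linarith) _ D ?_
    have := min_le_left δ de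
    exact ⟨by linarith [hD.1], by linarith [hD.2.1], by linarith [hD.2.2]⟩
  · filter_upwards [H ep hep hep1 ε hε] with k hk D hD
    have := min_le_right δ de
    exact hk D ⟨by linarith [hD.1], by linarith [hD.2.1], by linarith [hD.2.2]⟩

end

end PLT.BY

end
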