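import Pool.Agent.PLT.GXFam
import Pool.Agent.PLT.SelGC
import Pool.Agent.PLT.OthYS
import Pool.Agent.PHK.Dir6

/-!
# The masses of all classes over a family of contents

* `gxF P en S x e`: the geometries `GX` of a family; `mNX S`: the neutral sea exponents of the letters;
* **`sumBdP_X`**: the bounds of the sums over the numbers (`SumBdP`) from `S4C`, the seas, the cutoffs, the one
  body side and the class formulas;
* **`massX`**: the masses of all classes.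
-/

set_option autoImplicit false
set_option linter.unusedSectionVars false

noncomputable section

open Complex MeasureTheory Finset
open scoped ENNReal
open PLX (Fil Ends)

namespace PLT

open NUP1 (l vl)
open NURow (HT)
open NUGC.PLX (htL)
open PHK hiding mfo6
open PBR.PLX
open PBQ.PLX (KD OwnDLe)
open PotH.PLX (sN)

section

variable [Fil] [Ends] {ι : Type*}

/-- **the geometries of a family of contents** -/
def gxF (P : Par6) (en : EnC) (S : ℕ → ι → SeaC) (x : (i : ι) → (m : ℕ) → Fin m → ℂ) (e : ι → ℕ → ℂ)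
    (i : ι) : GeoC :=
  GX P en (fun m => S m i) (x i) (e i)

/-- the neutral sea exponents of the letters -/
def mNX (S : ℕ → ι → SeaC) (i : ι) : MNC := fun m σ t u τ => @mNC (S m i) (sN m) m σ t u τ

/-- the sea exponents of the base groups -/
def mfX (S : ℕ → ι → SeaC) (i : ι) (m : ℕ) : Bool → NUSp.Cl → ℂ → ℝ := @MFX _ _ (S m i) m

/-- the mass -/
def emX (S : ℕ → ι → SeaC) (e : ι → ℕ → ℂ) (i : ι) (m : ℕ) : ℝ := @EMX _ _ (S m i) (e i m) m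

/-- **everything of a family of contents but the class formulas** -/
structure InXF (P : Par6) (en : EnC) (SB : SeaCB) (s0 g1 g0 : ℝ) (S : ℕ → ι → SeaC)
    (x : (i : ι) → (m : ℕ) → Fin m → ℂ) (e : ι → ℕ → ℂ) : Prop where
  s00 : 0 ≤ s0
  /-- seas and contents -/
  sea : SeaG SB s0 S x e fun _ _ => True
  /-- cutoffs -/
  cut : CutG S x e fun _ _ => True
  /-- window of the static curves -/
  win : ∃ m0 : ℕ, ∀ m ≥ m0, ∀ i, @WinC (S m i) (-(g1 * l)) (g0 * l)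
  g1le : g1 ≤ 1 / 8
  g0le : g0 ≤ 1 / 5
  /-- gas -/
  gas : S4C SB P en
  /-- stability -/
  stab : ∀ i : ℕ → ι, StabU P fun m => en (S m (i m))
  /-- one body side, with and without letters -/
  one : ∀ i : ℕ → ι × Ix6, OneRC P (GeoC.sel (GLU (gxF P en S x e) (mNX S)) i)
  one' : ∀ i : ℕ → ι, OneRC P (GeoC.sel (gxF P en S x e) i)

variable {P : Par6} {en : EnC} {SB : SeaCB} {s0 g1 g0 : ℝ} {S : ℕ → ι → SeaC}
  {x : (i : ι) → (m : ℕ) → Fin m → ℂ} {e : ι → ℕ → ℂ}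

/-- **the bounds of the sums over the numbers** -/
theorem sumBdP_X [Nonempty ι] (hP : GoodP6 P) (ho : Ends.o = 0) (he : Ends.e = 0) {C3 : ℝ}
    (hspec : SpecPinC P C3) (hA : AwP P (-(3 / 16)) (5 / 16)) (h : InXF P en SB s0 g1 g0 S x e)
    {x0 : ℝ} (hx0 : 0 < x0) {K : ι → ℝ → ℕ → KD} {kD : ι → ℝ → ℕ → Bool → ℂ → ℂ}
    {cw : ι → ℝ → ℕ → HT → HT → ℝ × ℝ → Ch6 × Ch6 → ℝ} (hC : ClsFC P g1 g0 x0 K kD cw)
    (hBs : BsF P g1 g0 x0 K (gxF P en S x e)) (cw0 : ∀ i ep m t t' y u, 0 ≤ cw i ep m t t' y u)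
    (cwo : ∀ i ep m t t' y u, cw i ep m t t' y u ≠ 0 → okC6 t u.1 ∧ okC6 t' u.2)
    (f : ι → ℝ → ℕ → HT → Ch6 → ℝ → ℝ) :
    SumBdP P (fun i => ltG (f i) (mNX S i) (mfX S i)) (emX S e) (mfX S) K kD cw := by
  have hGf : GOkF SB P en (fun _ _ => True) S (gxF P en S x e) :=
    gOkF_X ho he h.s00 h.sea h.cut P en
  have hL : GOkF SB P en (fun (_ : ℕ) (_ : ι × Ix6) => True) (fun m y => S m y.1)
      (GLU (gxF P en S x e) (mNX S)) := gOkF_XL ho he h.s00 h.sea h.cut P en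
  refine sumBdP_of hP (gxF P en S x e) (mNX S) (fun i m β => hGf.nn m i β) (fun i => h.stab i) hspec
    (fun i => s4R_selC h.gas hL i ⟨0, fun _ _ => trivial⟩) h.one
    (fun i => s4R_selC h.gas hGf i ⟨0, fun _ _ => trivial⟩) h.one' h.g1le h.g0le hA (fun i => ?_) hx0 hC
    hBs cw0 cwo f
  obtain ⟨m1, H1⟩ := h.sea.sea
  obtain ⟨m2, H2⟩ := h.win
  exact curG_X SB (S := fun m => S m (i m)) ⟨max m1 m2, fun m hm =>
    ⟨H1 m ((le_max_left _ _).trans hm) (i m) trivial, H2 m ((le_max_right _ _).trans hm) (i m)⟩⟩ P en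
    (fun m => x (i m) m) fun m => e (i m) m

/-- **the masses of all classes** -/
theorem massX [Nonempty ι] (hP : GoodP6 P) (ho : Ends.o = 0) (he : Ends.e = 0) {C3 : ℝ}
    (hspec : SpecPinC P C3) (hA : AwP P (-(3 / 16)) (5 / 16)) (h : InXF P en SB s0 g1 g0 S x e)
    {x0 : ℝ} (hx0 : 0 < x0) {K : ι → ℝ → ℕ → KD} {kD : ι → ℝ → ℕ → Bool → ℂ → ℂ}
    (hC : ClsFC P g1 g0 x0 K kD fun i ep m t t' y u =>
      cw6 (K i ep m) t t' (vl (htL t) y.1) (vl (htL t') y.2) u)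
    (hBs : BsF P g1 g0 x0 K (gxF P en S x e)) {f : ι → ℝ → ℕ → HT → Ch6 → ℝ → ℝ}
    (hown : ∀ ep : ℝ, 0 < ep → ep ≤ 1 / 100 → ∃ C : ℝ, 0 ≤ C ∧ ∃ m0 : ℕ, ∀ m ≥ m0,
      ∀ (i : ι) (a : Bool) (t : HT) (u : Ch6), okC6 t u → ∀ τ : ℝ,
        own6 (K i ep m) a t u (vl (htL t) τ) * Real.exp (MEC (mNX S i) (mfX S i) m a t u τ) ≤
          C * f i ep m t u τ * Real.exp (-|τ|) * NUGC.cut (Real.log m) ep (qh6 t u) τ)
    (hownD : ∀ ep : ℝ, 0 < ep → ep ≤ 1 / 100 → ∃ C : ℝ, 0 ≤ C ∧ ∃ m0 : ℕ, ∀ m ≥ m0,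
      ∀ i : ι, OwnDLe (kD i ep m) (mfX S i) m C)
    (f0 : ∀ i ep m t u τ, 0 ≤ f i ep m t u τ) (f1 : ∀ i ep m t u τ, f i ep m t u τ ≤ 1) :
    ∀ ε : ℝ, 0 < ε → ∃ ep0 : ℝ, 0 < ep0 ∧ ep0 ≤ 1 / 100 ∧
      ∀ ep : ℝ, 0 < ep → ep ≤ ep0 → ∃ (Cst : ℝ) (m0 : ℕ), 0 ≤ Cst ∧ 1 ≤ m0 ∧ ∀ m : ℕ, m0 ≤ m →
        ∀ i : ι, (∀ t t' : HT, sValP P (K i ep m) (2 * m) (Fil.xe m) t t' ≤
            Cst * (m : ℝ) ^ ε * Real.exp (emX S e i m)) ∧
        (∀ o : Bool, sValDP P (K i ep m) (kD i ep m) (2 * m) (Fil.xe m) o ≤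
            Cst * (m : ℝ) ^ ε * Real.exp (emX S e i m)) :=
  othY (sumBdP_X hP ho he hspec hA h hx0 hC hBs (fun _ _ _ _ _ _ _ => cw6_nonneg _ _ _ _ _ _)
    (fun _ _ _ _ _ _ _ h => cw6_ok _ h) f) (clOkY_of dir6Le hown hownD f0 f1)

end

end PLT

end
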