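import Pool.Agent.PHK.Om

/-!
# The cut of the strings in the wider window `|Re w + 31 / 32 l| ≤ l / 2`

Offsets `47 / 32` to `2 + 15 / 32`: the angle is at most `11 π / 32`, `cos ≥ .471`, `|sin| ≤ .8822`,
`4 / 5 * .471 - 1 / 5 * .8822 ≥ 1 / 5`: the constants of `PHK/Om` survive.
-/

set_option autoImplicit false

noncomputable section

open Complex

namespace PLT

open NUMF (l l_pos)
open PHK (om omA omG)

theorem sin_pi8_ge : (0.3822 : ℝ) ≤ Real.sin (Real.pi / 8) := by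
  rw [Real.sin_pi_div_eight]
  have h1 : √2 ≤ 1.4145 := by
    rw [Real.sqrt_le_left (by norm_num)]
    norm_num
  have h2 : (0.7644 : ℝ) ≤ √(2 - √2) := by
    refine Real.le_sqrt_of_sq_le ?_
    norm_num
    linarith
  linarith

theorem cos_5_16_le : Real.cos (5 * Real.pi / 16) ≤ 0.5562 := by
  have h := Real.cos_sq (5 * Real.pi / 16)
  rw [show 2 * (5 * Real.pi / 16) = Real.pi / 8 + Real.pi / 2 by ring, Real.cos_add_pi_div_two] at h
  have h1 := sin_pi8_ge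
  refine le_of_sq_le_sq ?_ (by norm_num)
  rw [h]
  linarith

theorem cos_11_32_ge : (0.471 : ℝ) ≤ Real.cos (11 * Real.pi / 32) := by
  have h := Real.cos_sq (11 * Real.pi / 32)
  rw [show 2 * (11 * Real.pi / 32) = Real.pi - 5 * Real.pi / 16 by ring, Real.cos_pi_sub] at h
  have h1 := cos_5_16_le
  have h2 : 0 ≤ Real.cos (11 * Real.pi / 32) := by
    refine Real.cos_nonneg_of_neg_pi_div_two_le_of_le ?_ ?_ <;> linarith [Real.pi_pos]
  refine le_of_sq_le_sq ?_ h2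
  rw [h]
  linarith

theorem cos_ge_w {y : ℝ} (h : |y| ≤ 11 * Real.pi / 32) : 0.471 ≤ Real.cos y := by
  rw [← Real.cos_abs]
  exact cos_11_32_ge.trans (Real.cos_le_cos_of_nonneg_of_le_pi (abs_nonneg _)
    (by linarith [Real.pi_pos]) h)

theorem abs_sin_le_w {y : ℝ} (h : |y| ≤ 11 * Real.pi / 32) : |Real.sin y| ≤ 0.8822 := by
  have h1 := cos_ge_w h
  have h2 := Real.sin_sq_add_cos_sq y
  refine abs_le_of_sq_le_sq ?_ (by norm_num)
  nlinarith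

/-- **the vacuum**, the wider window -/
theorem re_omG_mul {κ x0 T1 : ℝ} (hκ : 0 ≤ κ) {w p : ℂ}
    (hw : |κ * (w.re + x0)| ≤ 11 * Real.pi / 32)
    (hP : ‖p - 1‖ ≤ 1 / 5) : Real.exp (κ * (|w.im| - T1)) / 5 ≤ (omG κ x0 T1 w * p).re := by
  have hR : 4 / 5 ≤ p.re := by
    have := (Complex.abs_re_le_norm (p - 1)).trans hP
    rw [Complex.sub_re, Complex.one_re] at this
    linarith [(abs_le.1 this).1]
  have hI : |p.im| ≤ 1 / 5 := by
    have := (Complex.abs_im_le_norm (p - 1)).trans hP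
    rwa [Complex.sub_im, Complex.one_im, sub_zero] at this
  rw [Complex.mul_re, PHK.re_omG, PHK.im_omG]
  have h1 := cos_ge_w hw
  have h2 := abs_sin_le_w hw
  have h3 := PHK.exp_abs_le_cosh (κ * w.im)
  rw [abs_mul, abs_of_nonneg hκ] at h3
  have h4 : |Real.sinh (κ * w.im)| ≤ Real.cosh (κ * w.im) := by
    have := Real.cosh_sq (κ * w.im)
    refine abs_le_of_sq_le_sq ?_ (Real.cosh_pos _).le
    linarith
  obtain ⟨E, hE⟩ : ∃ E, E = Real.exp (-κ * T1) := ⟨_, rfl⟩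
  have hE0 : 0 < E := by rw [hE]; exact Real.exp_pos _
  have e2 : Real.exp (κ * (|w.im| - T1)) = E * Real.exp (κ * |w.im|) := by
    rw [hE, ← Real.exp_add]
    ring_nf
  rw [e2, ← hE]
  obtain ⟨C, hC⟩ : ∃ C, C = Real.cosh (κ * w.im) := ⟨_, rfl⟩
  obtain ⟨S, hS⟩ : ∃ S, S = Real.sinh (κ * w.im) := ⟨_, rfl⟩
  rw [← hC] at h3 h4 ⊢
  rw [← hS] at h4 ⊢
  have hC0 : 0 < C := by rw [hC]; exact Real.cosh_pos _
  obtain ⟨c, hc⟩ : ∃ c, c = Real.cos (κ * (w.re + x0)) := ⟨_, rfl⟩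
  obtain ⟨s, hs⟩ : ∃ s, s = Real.sin (κ * (w.re + x0)) := ⟨_, rfl⟩
  rw [← hc] at h1 ⊢
  rw [← hs] at h2 ⊢
  have a1 : 0.3768 * C ≤ c * C * p.re := by
    have : 0.471 * (4 / 5) ≤ c * p.re := mul_le_mul h1 hR (by norm_num) (by linarith)
    nlinarith
  have a3 : -(0.17644 * C) ≤ s * S * p.im := by
    have q1 : |s * S| ≤ 0.8822 * C := by
      rw [abs_mul]
      exact mul_le_mul h2 h4 (abs_nonneg _) (by norm_num)
    have q2 : |s * S * p.im| ≤ 0.8822 * C * (1 / 5) := by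
      rw [abs_mul]
      exact mul_le_mul q1 hI (abs_nonneg _) (by positivity)
    linarith [neg_abs_le (s * S * p.im)]
  have b : 2 * E * (c * C) * p.re - 2 * E * -(s * S) * p.im =
      2 * E * (c * C * p.re + s * S * p.im) := by ring
  rw [b]
  have b2 : 1 / 5 * C ≤ c * C * p.re + s * S * p.im := by linarith
  have b3 := mul_le_mul_of_nonneg_left b2 (by positivity : (0 : ℝ) ≤ 2 * E)
  have b4 := mul_le_mul_of_nonneg_left h3 (by positivity : (0 : ℝ) ≤ E)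
  linarith

lemma range_om {w : ℂ} (hw : |w.re + 31 / 32 * l| ≤ l / 2) :
    |11 / 2 * (w.re + 31 / 32 * l)| ≤ 11 * Real.pi / 32 := by
  have hl : l = Real.pi / 8 := rfl
  rw [abs_mul, abs_of_pos (by norm_num : (0 : ℝ) < 11 / 2)]
  rw [hl] at hw ⊢
  linarith

/-- offsets `47 / 32` to `2 + 15 / 32` -/
lemma range_off {j t : ℝ} {w : ℂ} (hw : w = ((1 - j) * l : ℝ) + t * I) (h1 : 47 / 32 ≤ j)
    (h2 : j ≤ 79 / 32) : |w.re + 31 / 32 * l| ≤ l / 2 := by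
  have hl := l_pos
  have e : w.re = (1 - j) * l := by rw [hw]; simp
  rw [e, abs_le]
  constructor <;> nlinarith

/-- the strip `-47 / 32 l ≤ Re w ≤ -15 / 32 l` -/
lemma range_win {w : ℂ} (h1 : -(47 / 32 * l) ≤ w.re) (h2 : w.re ≤ -(15 / 32 * l)) :
    |w.re + 31 / 32 * l| ≤ l / 2 := by
  have hl := l_pos
  rw [abs_le]
  constructor <;> linarith

/-- **the vacuum** -/
theorem norm_om_vac {T1 : ℝ} {P : ℂ → ℂ} {w : ℂ} (hw : |w.re + 31 / 32 * l| ≤ l / 2)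
    (hP : ‖P w - 1‖ ≤ 1 / 5) : ‖om T1 P w‖ ≤ Real.exp (-(Real.exp (11 / 2 * (|w.im| - T1)) / 5)) := by
  unfold om
  rw [Complex.norm_exp, Complex.neg_re, Real.exp_le_exp, neg_le_neg_iff]
  exact re_omG_mul (by norm_num) (range_om hw) hP

/-- `1 - om` at every height -/
theorem norm_one_sub_om_all {T1 : ℝ} {P : ℂ → ℂ} {w : ℂ}
    (hw : |w.re + 31 / 32 * l| ≤ l / 2) (h1 : |w.im| ≤ T1 → ‖P w‖ ≤ 1)
    (h2 : T1 ≤ |w.im| → ‖P w - 1‖ ≤ 1 / 5) : ‖1 - om T1 P w‖ ≤ 2 * Real.exp 2 * ‖P w‖ := by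
  rcases le_total |w.im| T1 with h | h
  · refine (PHK.norm_one_sub_om_le h (h1 h)).trans ?_
    have b : Real.exp (11 / 2 * (|w.im| - T1)) ≤ 1 := Real.exp_le_one_iff.2 (by linarith)
    have := mul_le_mul_of_nonneg_left b (by positivity : (0 : ℝ) ≤ 2 * Real.exp 2)
    exact mul_le_mul_of_nonneg_right (by linarith) (norm_nonneg _)
  · have a := norm_om_vac (T1 := T1) hw (h2 h)
    have b : Real.exp (-(Real.exp (11 / 2 * (|w.im| - T1)) / 5)) ≤ 1 :=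
      Real.exp_le_one_iff.2 (by linarith [Real.exp_pos (11 / 2 * (|w.im| - T1))])
    have c : 4 / 5 ≤ ‖P w‖ := by
      have := norm_sub_norm_le (1 : ℂ) (1 - P w)
      rw [norm_one, sub_sub_cancel, norm_sub_rev] at this
      linarith [h2 h]
    have d : (3 : ℝ) ≤ Real.exp 2 := by
      have := Real.add_one_le_exp (2 : ℝ)
      linarith
    calc ‖1 - om T1 P w‖ ≤ ‖(1 : ℂ)‖ + ‖om T1 P w‖ := norm_sub_le _ _
      _ ≤ 2 := by rw [norm_one]; linarith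
      _ ≤ _ := by nlinarith

/-- **one bound for all heights** -/
theorem norm_om_le {T1 : ℝ} {P : ℂ → ℂ} {w : ℂ} (hw : |w.re + 31 / 32 * l| ≤ l / 2)
    (h1 : |w.im| ≤ T1 → ‖P w‖ ≤ 1) (h2 : T1 ≤ |w.im| → ‖P w - 1‖ ≤ 1 / 5) :
    ‖om T1 P w‖ ≤ Real.exp 3 * Real.exp (-(Real.exp (11 / 2 * (|w.im| - T1)) / 5)) := by
  rcases le_total |w.im| T1 with h | h
  · have b : Real.exp (11 / 2 * (|w.im| - T1)) ≤ 1 := Real.exp_le_one_iff.2 (by linarith)
    have c := PHK.norm_omA_mul_le h (h1 h)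
    unfold om
    refine (Complex.norm_exp_le_exp_norm _).trans ?_
    rw [norm_neg, ← Real.exp_add]
    exact Real.exp_le_exp.2 (by linarith)
  · refine (norm_om_vac hw (h2 h)).trans ?_
    have : 1 ≤ Real.exp 3 := Real.one_le_exp (by norm_num)
    have := mul_le_mul_of_nonneg_right this
      (Real.exp_pos (-(Real.exp (11 / 2 * (|w.im| - T1)) / 5))).le
    linarith

/-- the cut kills `exp (a (|Im w| - T1)_+)` -/
theorem norm_om_pow {T1 a : ℝ} (ha : 0 ≤ a) {P : ℂ → ℂ} {w : ℂ}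
    (hw : |w.re + 31 / 32 * l| ≤ l / 2) (h1 : |w.im| ≤ T1 → ‖P w‖ ≤ 1)
    (h2 : T1 ≤ |w.im| → ‖P w - 1‖ ≤ 1 / 5) :
    ‖om T1 P w‖ ≤ Real.exp (3 + 5 * a ^ 2) * Real.exp (-a * max (|w.im| - T1) 0) := by
  refine (norm_om_le hw h1 h2).trans ?_
  rw [← Real.exp_add, ← Real.exp_add]
  refine Real.exp_le_exp.2 ?_
  have := PHK.dexp_le (y := |w.im| - T1) ha
  linarith

/-- **the cut kills `exp (C exp (b (|Im w| - T1)_+))`**, `b < 11 / 2` -/
theorem norm_om_dexp {b C : ℝ} (hb : b < 11 / 2) (hb0 : 0 ≤ b) (hC : 0 ≤ C) : ∃ K : ℝ, 0 ≤ K ∧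
    ∀ (T1 : ℝ) (P : ℂ → ℂ) (w : ℂ), |w.re + 31 / 32 * l| ≤ l / 2 →
      (|w.im| ≤ T1 → ‖P w‖ ≤ 1) → (T1 ≤ |w.im| → ‖P w - 1‖ ≤ 1 / 5) →
      ‖om T1 P w‖ * Real.exp (C * Real.exp (b * max (|w.im| - T1) 0)) ≤ K := by
  obtain ⟨K, _, H⟩ := PHK.dexp_dexp hb hb0 hC
  refine ⟨Real.exp (3 + K), (Real.exp_pos _).le, fun T1 P w hw h1 h2 => ?_⟩
  have a := mul_le_mul_of_nonneg_right (norm_om_le hw h1 h2)
    (Real.exp_pos (C * Real.exp (b * max (|w.im| - T1) 0))).le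
  refine a.trans ?_
  rw [← Real.exp_add, ← Real.exp_add]
  refine Real.exp_le_exp.2 ?_
  linarith [H (|w.im| - T1)]

end PLT
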