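import Pool.Agent.PLT.PsiAg
import Pool.Agent.PLT.OmW
import Pool.Agent.PHK.BrT
import Pool.Agent.NUP1.PsiMono

/-!
# The bracket of `T` and the cutoff of the strings for rows at any places

Places in units `l`: common part `c : List ℝ` of the rows, `-1 < x < 1 / 2`; `RwS h0 X`: all rows of
`X` have `-l ≤ re x ≤ l / 2`, `|im x| ≤ h0`. `SAt c t = ∑ x ∈ c, Ag ((1 / 2 - x) l) t`.

* `psi_le_full`: `‖psi β (vl (l - w) t)‖ ≤ exp (-Ag w t)`, `0 < w < 3 l`, `β ≤ 4 / 3`;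
* `phi_S`, `pP_S`, `vac_S`: the cutoffs on the lines `-3/2 l ≤ re u ≤ 0`;
* `Ag_half_le`: `Ag (l / 2 - x) ≤ Ag (3 / 2 l + x) + 3`, `-l ≤ x ≤ l / 2`;
* **`br_bulk`**, **`br_bulkC`** (rows at complex places), **`br_cut`**: the bracket `phi phi - phi_0 om` on
  the line of `T`;
* **`phi0_om`**: the cutoff of a string at the offset `2 + e`.
-/

set_option autoImplicit false

noncomputable section

open Complex

namespace PLT

open NUP1
open NUO (cut posT posS)
open PHK (pP phO om)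
open PBO.PLX (norm_prod_cs norm_phi_two)
open NUGC (psi_le_one')

/-! ### one row -/

theorem Ag_refl (v t : ℝ) : Ag (3 * l - v) t = Ag v t := by
  have e1 : Real.sin (8 / 3 * (3 * l - v) - Real.pi / 6) = Real.sin (8 / 3 * v + Real.pi / 6) := by
    rw [← Real.sin_pi_sub]
    congr 1
    unfold NUP1.l
    ring
  have e2 : Real.sin (8 / 3 * (3 * l - v) + Real.pi / 6) = Real.sin (8 / 3 * v - Real.pi / 6) := by
    rw [← Real.sin_pi_sub]
    congr 1
    unfold NUP1.l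
    ring
  unfold Ag La
  rw [e1, e2, add_comm]

/-- one row at the full height, `0 < w < 3 l` -/
theorem psi_le_full {β : ℝ} (hβ0 : 0 < β) (hβ1 : β ≤ 4 / 3) {w : ℝ} (h1 : 0 < w) (h2 : w < 3 * l)
    (t : ℝ) : ‖psi β (vl (l - w) t)‖ ≤ Real.exp (-Ag w t) := by
  have hl := l_pos
  have a := psi_le_Ag (β := 4 / 3) (by norm_num) le_rfl (w := w) (by linarith) (by linarith) t
  rw [show 3 * (4 / 3 : ℝ) / 4 * t = t by ring] at a
  refine le_trans ?_ a
  refine norm_psi_mono hβ0 hβ1 (by unfold NUP1.l; linarith [Real.pi_pos]) ?_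
  rw [vl_re]
  have h3 : |l - w + l / 2| < 3 / 2 * l := by
    rw [abs_lt]
    constructor <;> linarith
  have : 3 / 2 * l * (8 / 3) = Real.pi / 2 := by unfold NUP1.l; ring
  linarith

/-- one row at the full height, `0 ≤ w ≤ 3 l` -/
theorem psi_le_full' {β : ℝ} (hβ0 : 0 < β) (hβ1 : β ≤ 4 / 3) {w : ℝ} (h1 : 0 ≤ w) (h2 : w ≤ 3 * l)
    (t : ℝ) : ‖psi β (vl (l - w) t)‖ ≤ Real.exp (-Ag w t) := by
  have hl := l_pos
  have h3 : Ag w t = 0 → ‖psi β (vl (l - w) t)‖ ≤ Real.exp (-Ag w t) := by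
    intro h
    rw [h, neg_zero, Real.exp_zero]
    refine psi_le_one' hβ0 hβ1 ?_
    rw [vl_re, abs_le]
    constructor <;> linarith
  rcases eq_or_lt_of_le h1 with h | h
  · exact h3 (by rw [← h]; exact Ag_zero t)
  · rcases eq_or_lt_of_le h2 with h' | h'
    · refine h3 ?_
      rw [h', ← Ag_refl, sub_self]
      exact Ag_zero t
    · exact psi_le_full hβ0 hβ1 h h' t

/-- `artanh (sin β / c)` is bounded away from `|sin β| = 1` -/
theorem abs_La_lo {β c : ℝ} (hc : 1 ≤ c) (h : |Real.sin β| ≤ 9 / 10) : |La β c| ≤ 3 / 2 := by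
  obtain ⟨h1, h2⟩ := abs_le.1 h
  have key : ∀ s : ℝ, -(9 / 10) ≤ s → s ≤ 9 / 10 → Real.log (c + s) - Real.log (c - s) ≤ 3 := by
    intro s s1 s2
    have p1 : 0 < c - s := by linarith
    have p2 : 0 < c + s := by linarith
    rw [← Real.log_div p2.ne' p1.ne']
    have h19 : (c + s) / (c - s) ≤ 19 := by
      rw [div_le_iff₀ p1]; linarith
    have h3 : (19 : ℝ) ≤ Real.exp 3 := by
      have := Real.exp_one_gt_d9
      have e : Real.exp 3 = Real.exp 1 ^ 3 := by rw [← Real.exp_nat_mul]; norm_num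
      rw [e]
      have h4 : (2.7 : ℝ) ^ 3 ≤ Real.exp 1 ^ 3 := by gcongr; linarith
      linarith
    calc Real.log ((c + s) / (c - s)) ≤ Real.log (Real.exp 3) :=
          Real.log_le_log (by positivity) (h19.trans h3)
      _ = 3 := Real.log_exp 3
  have k1 := key (Real.sin β) h1 h2
  have k2 := key (-Real.sin β) (by linarith) (by linarith)
  rw [sub_neg_eq_add, ← sub_eq_add_neg] at k2
  unfold La
  rw [abs_le]
  constructor <;> linarith

/-- the level function is regular under the reflection at its pole -/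
theorem Ag_refl_bd {d : ℝ} (hd : |d| ≤ l / 2) (t : ℝ) : Ag (l + d) t ≤ Ag (l - d) t + 3 := by
  have hl : l = Real.pi / 8 := rfl
  have hp := Real.pi_pos
  have hch : 1 ≤ NUMF.ch t := Real.one_le_cosh _
  obtain ⟨d1, d2⟩ := abs_le.1 hd
  have e1 : Real.sin (8 / 3 * (l + d) + Real.pi / 6) = Real.sin (8 / 3 * (l - d) + Real.pi / 6) := by
    rw [← Real.sin_pi_sub]
    congr 1
    rw [hl]
    ring
  have hb : ∀ y : ℝ, |y| ≤ l / 2 → |La (8 / 3 * (l + y) - Real.pi / 6) (NUMF.ch t)| ≤ 3 / 2 := by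
    intro y hy
    obtain ⟨y1, y2⟩ := abs_le.1 hy
    refine abs_La_lo hch ?_
    have s1 : Real.sin (8 / 3 * (l + y) - Real.pi / 6) ≤ Real.sin (Real.pi / 3) :=
      Real.sin_le_sin_of_le_of_le_pi_div_two (by linarith) (by linarith)
        (by linarith)
    have s2 : 0 ≤ Real.sin (8 / 3 * (l + y) - Real.pi / 6) :=
      Real.sin_nonneg_of_nonneg_of_le_pi (by linarith) (by linarith)
    rw [Real.sin_pi_div_three] at s1
    have s3 : √3 ≤ 1.8 := by
      rw [Real.sqrt_le_left (by norm_num)]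
      norm_num
    rw [abs_of_nonneg s2]
    linarith
  have b1 := (abs_le.1 (hb d hd)).2
  have b2 := (abs_le.1 (hb (-d) (by rw [abs_neg]; exact hd))).1
  rw [← sub_eq_add_neg] at b2
  unfold Ag
  have e2 : La (8 / 3 * (l + d) + Real.pi / 6) (NUMF.ch t) =
      La (8 / 3 * (l - d) + Real.pi / 6) (NUMF.ch t) := by
    unfold La
    rw [e1]
  rw [e2]
  linarith

/-- the two members of the bracket, every place -/
theorem Ag_half_le {x : ℝ} (h1 : -l ≤ x) (h2 : x ≤ l / 2) (t : ℝ) :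
    Ag (l / 2 - x) t ≤ Ag (3 / 2 * l + x) t + 3 := by
  have hl0 := l_pos
  rcases le_total x 0 with h | h
  · have := Ag_refl_bd (d := -(l / 2) - x) (by rw [abs_le]; constructor <;> linarith) t
    rw [show l + (-(l / 2) - x) = l / 2 - x by ring,
      show l - (-(l / 2) - x) = 3 / 2 * l + x by ring] at this
    exact this
  · have hl : l = Real.pi / 8 := rfl
    have hp := Real.pi_pos
    have hch : 1 ≤ NUMF.ch t := Real.one_le_cosh _
    have s3 : √3 ≤ 1.8 := by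
      rw [Real.sqrt_le_left (by norm_num)]
      norm_num
    have a1 : La (8 / 3 * (l / 2 - x) + Real.pi / 6) (NUMF.ch t) ≤ 3 / 2 := by
      refine (abs_le.1 (abs_La_lo hch ?_)).2
      have s1 : Real.sin (8 / 3 * (l / 2 - x) + Real.pi / 6) ≤ Real.sin (Real.pi / 3) :=
        Real.sin_le_sin_of_le_of_le_pi_div_two (by linarith) (by linarith)
          (by linarith)
      have s2 : 0 ≤ Real.sin (8 / 3 * (l / 2 - x) + Real.pi / 6) :=
        Real.sin_nonneg_of_nonneg_of_le_pi (by linarith) (by linarith)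
      rw [Real.sin_pi_div_three] at s1
      rw [abs_of_nonneg s2]
      linarith
    have a2 : La (8 / 3 * (l / 2 - x) - Real.pi / 6) (NUMF.ch t) ≤ 3 / 2 := by
      refine (abs_le.1 (abs_La_lo hch ?_)).2
      have s1 : Real.sin (8 / 3 * (l / 2 - x) - Real.pi / 6) ≤ 0 :=
        Real.sin_nonpos_of_nonpos_of_neg_pi_le (by linarith) (by linarith)
      have s2 : Real.sin (-(Real.pi / 6)) ≤ Real.sin (8 / 3 * (l / 2 - x) - Real.pi / 6) :=
        Real.sin_le_sin_of_le_of_le_pi_div_two (by linarith) (by linarith)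
          (by linarith)
      rw [Real.sin_neg, Real.sin_pi_div_six] at s2
      rw [abs_of_nonpos s1]
      linarith
    have pos : ∀ β : ℝ, 0 ≤ Real.sin β → 0 ≤ La β (NUMF.ch t) := by
      intro β hβ
      have h1 := Real.sin_le_one β
      unfold La
      rcases eq_or_lt_of_le (h1.trans hch) with h | h
      · rw [← h, sub_self, Real.log_zero]
        have := Real.log_nonneg (x := Real.sin β + Real.sin β) (by linarith)
        linarith
      · have := Real.log_le_log (x := NUMF.ch t - Real.sin β) (y := NUMF.ch t + Real.sin β)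
          (by linarith) (by linarith)
        linarith
    have b1 := pos (8 / 3 * (3 / 2 * l + x) - Real.pi / 6)
      (Real.sin_nonneg_of_nonneg_of_le_pi (by linarith) (by linarith))
    have b2 := pos (8 / 3 * (3 / 2 * l + x) + Real.pi / 6)
      (Real.sin_nonneg_of_nonneg_of_le_pi (by linarith) (by linarith))
    unfold Ag
    linarith

/-- a list of rows at the full height -/
theorem prod_full {β : ℝ} (hβ0 : 0 < β) (hβ1 : β ≤ 4 / 3) (j t : ℝ) (c : List ℝ)
    (hc : ∀ x ∈ c, 0 < j + x ∧ j + x < 3) :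
    ‖((c.map fun x : ℝ => ((x * l : ℝ) : ℂ)).map fun x => psi β (vl ((1 - j) * l) t - x)).prod‖ ≤
      Real.exp (-(c.map fun x => Ag ((j + x) * l) t).sum) := by
  have hl := l_pos
  induction c with
  | nil => simp
  | cons x c ih =>
    have i := ih fun y hy => hc y (by simp [hy])
    obtain ⟨a, b⟩ := hc x (by simp)
    have e : vl ((1 - j) * l) t - ((x * l : ℝ) : ℂ) = vl (l - (j + x) * l) t := by
      unfold vl
      push_cast
      ring
    have a1 := psi_le_full hβ0 hβ1 (w := (j + x) * l) (by positivity) (by nlinarith) t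
    rw [← e] at a1
    rw [List.map_cons, List.map_cons, List.prod_cons, List.map_cons, List.sum_cons, norm_mul,
      neg_add, Real.exp_add]
    exact mul_le_mul a1 i (norm_nonneg _) (Real.exp_pos _).le

/-- a list of rows at complex places, quantum on the line of offset `v` -/
theorem prod_fullC {β : ℝ} (hβ0 : 0 < β) (hβ1 : β ≤ 4 / 3) (v t : ℝ) (e : List ℂ)
    (he : ∀ x ∈ e, 0 ≤ v + x.re ∧ v + x.re ≤ 3 * l) :
    ‖(e.map fun x => psi β (vl (l - v) t - x)).prod‖ ≤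
      Real.exp (-(e.map fun x => Ag (v + x.re) (t - x.im)).sum) := by
  induction e with
  | nil => simp
  | cons x e ih =>
    have i := ih fun y hy => he y (by simp [hy])
    obtain ⟨a, b⟩ := he x (by simp)
    have ee : vl (l - v) t - x = vl (l - (v + x.re)) (t - x.im) := by
      apply Complex.ext
      · rw [sub_re, vl_re, vl_re]; ring
      · rw [sub_im, vl_im, vl_im]
    have a1 := psi_le_full' hβ0 hβ1 a b (t - x.im)
    rw [← ee] at a1
    rw [List.map_cons, List.prod_cons, List.map_cons, List.sum_cons, norm_mul, neg_add,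
      Real.exp_add]
    exact mul_le_mul a1 i (norm_nonneg _) (Real.exp_pos _).le

/-! ### lists -/

/-- rows between `-l` and `l / 2` -/
def RwS (h0 : ℝ) (X : List ℂ) : Prop := ∀ x ∈ X, -l ≤ x.re ∧ x.re ≤ l / 2 ∧ |x.im| ≤ h0

theorem RwS.strip {h0 : ℝ} {X : List ℂ} (h : RwS h0 X) {u : ℂ} (h1 : -(3 / 2 * l) ≤ u.re)
    (h2 : u.re ≤ 0) : ∀ x ∈ X, |(u - x).re + l / 2| ≤ 3 * l / 2 := by
  intro x hx
  obtain ⟨a, b, -⟩ := h x hx
  rw [sub_re, abs_le]
  constructor <;> linarith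

theorem RwS.rwD {h0 : ℝ} {X : List ℂ} (h : RwS h0 X) {u : ℂ} (h1 : -(3 / 2 * l) ≤ u.re)
    (h2 : u.re ≤ 0) : RwD 1 h0 u X := by
  intro x hx
  obtain ⟨a, b, d⟩ := h x hx
  rw [sub_re]
  exact ⟨by linarith, by linarith, d⟩

theorem RwS.perm {h0 : ℝ} {X Y : List ℂ} (h : RwS h0 X) (hp : X.Perm Y) : RwS h0 Y :=
  fun x hx => h x (hp.mem_iff.2 hx)

/-- constant of the cutoffs on the lines of the strings -/
def cB (h0 Cl : ℝ) : ℝ := cU 1 h0 Cl 0

theorem cB_ge {h0 Cl : ℝ} (hh : 0 ≤ h0) (hC : 0 ≤ Cl) : 2 ≤ cB h0 Cl := by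
  unfold cB cU
  have := cK_ge one_pos le_rfl hh
  have : 0 ≤ 3 / 2 * cK 1 h0 * Cl := by positivity
  rw [Real.exp_zero]
  nlinarith

section list
variable {β : ℝ} {m : ℕ} {h0 Cl : ℝ} {X : List ℂ} {u : ℂ}

theorem phi_S (hβ0 : 0 < β) (hβ1 : β ≤ 4 / 3) (hh : 0 ≤ h0) (h : RwS h0 X) (hC : 0 ≤ Cl)
    (hm : 1 ≤ m) (hlen : (X.length : ℝ) ≤ Cl * m) (h1 : -(3 / 2 * l) ≤ u.re) (h2 : u.re ≤ 0) :
    ‖phi β X u‖ ≤ 2 ∧ ‖phi β X u‖ ≤ cB h0 Cl * cut m β u.im := by
  have hp := norm_prod_cs (X := X) hβ0 hβ1 (h.strip h1 h2)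
  have := phi_up hβ0 hβ1 one_pos le_rfl hh (h.rwD h1 h2) hm hC le_rfl hlen
    (by rw [Real.exp_zero]; exact hp)
  rw [Real.exp_zero, show (1 : ℝ) + 1 = 2 by norm_num] at this
  exact this

theorem pP_S (h : RwS h0 X) (h1 : -(3 / 2 * l) ≤ u.re) (h2 : u.re ≤ 0) : ‖pP X u‖ ≤ 1 :=
  norm_prod_cs (by norm_num) le_rfl (h.strip h1 h2)

/-- the smallest `tau` -/
def tauT (h0 Cl : ℝ) : ℝ := 3 / 8 * Real.log (5 * cB h0 Cl)

theorem tauT_nonneg (hh : 0 ≤ h0) (hC : 0 ≤ Cl) : 0 ≤ tauT h0 Cl := by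
  unfold tauT
  have := cB_ge hh hC
  have := Real.log_nonneg (x := 5 * cB h0 Cl) (by linarith)
  positivity

theorem vac_S (hh : 0 ≤ h0) (h : RwS h0 X) (hC : 0 ≤ Cl) (hm : 1 ≤ m)
    (hlen : (X.length : ℝ) ≤ Cl * m) (h1 : -(3 / 2 * l) ≤ u.re) (h2 : u.re ≤ 0) {T1 : ℝ}
    (hT : 3 / 8 * Real.log m + tauT h0 Cl ≤ T1) (ht : T1 ≤ |u.im|) : ‖pP X u - 1‖ ≤ 1 / 5 := by
  have a := (phi_S (β := 4 / 3) (by norm_num) le_rfl hh h hC hm hlen h1 h2).2
  have e : ‖pP X u - 1‖ = ‖phi (4 / 3) X u‖ := by rw [PHK.phi_pP, norm_sub_rev]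
  rw [e]
  have hc := cB_ge hh hC
  have hmr : (0 : ℝ) < m := by exact_mod_cast hm
  refine a.trans ?_
  have e1 : (m : ℝ) * Real.exp (-(2 * (4 / 3)) * |u.im|) ≤ (5 * cB h0 Cl)⁻¹ := by
    have h1 : (m : ℝ) = Real.exp (Real.log m) := (Real.exp_log hmr).symm
    have h2 : (5 * cB h0 Cl)⁻¹ = Real.exp (-Real.log (5 * cB h0 Cl)) := by
      rw [Real.exp_neg, Real.exp_log (by linarith)]
    rw [h2]
    conv_lhs => rw [h1]
    rw [← Real.exp_add]
    refine Real.exp_le_exp.2 ?_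
    unfold tauT at hT
    linarith
  have e2 : cut m (4 / 3) u.im ≤ (5 * cB h0 Cl)⁻¹ := (min_le_right _ _).trans e1
  calc cB h0 Cl * cut m (4 / 3) u.im ≤ cB h0 Cl * (5 * cB h0 Cl)⁻¹ := by gcongr
    _ = 1 / 5 := by
        field_simp

end list

/-! ### the line of `T` -/

private theorem posT_re (t : ℝ) : (posT t).re = -(1 / 2 * l) := NUO.vl_re _ _
private theorem posT_im (t : ℝ) : (posT t).im = t := NUO.vl_im _ _
private theorem posTl_re (t : ℝ) : (posT t - l).re = -(3 / 2 * l) := by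
  rw [sub_re, posT_re, ofReal_re]
  ring
private theorem posTl_im (t : ℝ) : (posT t - l).im = t := by rw [sub_im, posT_im, ofReal_im, sub_zero]

private theorem posT_vl (t : ℝ) : posT t = vl ((1 - 3 / 2) * l) t := by
  apply Complex.ext
  · rw [posT_re, vl_re]; ring
  · rw [posT_im, vl_im]

private theorem posTl_vl (t : ℝ) : posT t - l = vl ((1 - 5 / 2) * l) t := by
  apply Complex.ext
  · rw [posTl_re, vl_re]; ring
  · rw [posTl_im, vl_im]

private theorem oT (t : ℝ) : |(posT t).re + 31 / 32 * l| ≤ 77 / 160 * l := by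
  have hl := l_pos
  rw [posT_re, show -(1 / 2 * l) + 31 / 32 * l = 15 / 32 * l by ring, abs_of_pos (by positivity)]
  linarith

/-- the level function of the rows `c` at the line of `T` -/
def SAt (c : List ℝ) (t : ℝ) : ℝ := (c.map fun x => Ag ((1 / 2 - x) * l) t).sum

/-- the level function of rows at complex places at the line of `T` -/
def SAe (e : List ℂ) (t : ℝ) : ℝ := (e.map fun x => Ag (l / 2 - x.re) (t - x.im)).sum

theorem SAe_le {e : List ℂ} (he : ∀ x ∈ e, -l ≤ x.re ∧ x.re ≤ l / 2) (t : ℝ) :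
    SAe e t ≤ (e.map fun x => Ag (3 / 2 * l + x.re) (t - x.im)).sum + 3 * e.length := by
  unfold SAe
  induction e with
  | nil => simp
  | cons x e ih =>
    have i := ih fun y hy => he y (by simp [hy])
    obtain ⟨a, b⟩ := he x (by simp)
    have := Ag_half_le a b (t - x.im)
    rw [List.map_cons, List.sum_cons, List.map_cons, List.sum_cons, List.length_cons]
    push_cast
    linarith

section bracket
variable {β : ℝ} {m : ℕ} {h0 : ℝ} {c : List ℝ} {X e ex X1 X2 ex1 ex2 : List ℂ}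

/-- the rows of the common part, the rows `e`, and the extra rows -/
theorem prod_cex (hβ0 : 0 < β) (hβ1 : β ≤ 4 / 3) (hX : RwS h0 X)
    (hp : X.Perm ((c.map fun x : ℝ => ((x * l : ℝ) : ℂ)) ++ (e ++ ex))) {j : ℝ} (j1 : 1 ≤ j)
    (j2 : j ≤ 5 / 2) (hc : ∀ x ∈ c, 0 < j + x ∧ j + x < 3) (t : ℝ) :
    ‖(X.map fun x => psi β (vl ((1 - j) * l) t - x)).prod‖ ≤
      Real.exp (-((c.map fun x => Ag ((j + x) * l) t).sum +
        (e.map fun x => Ag (j * l + x.re) (t - x.im)).sum)) := by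
  have hl := l_pos
  have hX' := hX.perm hp
  have he : ‖(e.map fun x => psi β (vl ((1 - j) * l) t - x)).prod‖ ≤
      Real.exp (-(e.map fun x => Ag (j * l + x.re) (t - x.im)).sum) := by
    have := prod_fullC hβ0 hβ1 (j * l) t e fun x hx => by
      obtain ⟨a, b, -⟩ := hX' x (by simp [hx])
      constructor <;> nlinarith
    rwa [show l - j * l = (1 - j) * l by ring] at this
  have k1 : -(3 / 2 * l) ≤ (vl ((1 - j) * l) t).re := by rw [vl_re]; nlinarith
  have k2 : (vl ((1 - j) * l) t).re ≤ 0 := by rw [vl_re]; nlinarith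
  have a2 : ‖(ex.map fun x => psi β (vl ((1 - j) * l) t - x)).prod‖ ≤ 1 :=
    norm_prod_cs hβ0 hβ1 fun x hx => hX'.strip k1 k2 x (by simp [hx])
  rw [(hp.map fun x => psi β (vl ((1 - j) * l) t - x)).prod_eq, List.map_append, List.prod_append,
    List.map_append, List.prod_append, norm_mul, norm_mul]
  calc _ ≤ Real.exp (-(c.map fun x => Ag ((j + x) * l) t).sum) *
        (Real.exp (-(e.map fun x => Ag (j * l + x.re) (t - x.im)).sum) * 1) :=
        mul_le_mul (prod_full hβ0 hβ1 j t c hc) (mul_le_mul he a2 (norm_nonneg _) (Real.exp_pos _).le)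
          (by positivity) (Real.exp_pos _).le
    _ = _ := by rw [mul_one, ← Real.exp_add, neg_add]

theorem sum_refl (c : List ℝ) (t : ℝ) : (c.map fun x => Ag ((5 / 2 + x) * l) t).sum = SAt c t := by
  unfold SAt
  congr 1
  refine List.map_congr_left fun x _ => ?_
  rw [← Ag_refl]
  congr 1
  ring

theorem sum_reflC (e : List ℂ) (t : ℝ) :
    (e.map fun x => Ag (5 / 2 * l + x.re) (t - x.im)).sum = SAe e t := by
  unfold SAe
  congr 1
  refine List.map_congr_left fun x _ => ?_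
  rw [← Ag_refl]
  congr 1
  ring

/-- **the bracket in the bulk**: `c` = common part, `e` = further rows common to the rows and to the
two cutoffs, at complex places -/
theorem br_bulkC (hβ0 : 0 < β) (hβ1 : β ≤ 4 / 3) (hh : 0 ≤ h0) (hX1 : RwS h0 X1) (hX2 : RwS h0 X2)
    (h1 : X1.Perm ((c.map fun x : ℝ => ((x * l : ℝ) : ℂ)) ++ (e ++ ex1)))
    (h2 : X2.Perm ((c.map fun x : ℝ => ((x * l : ℝ) : ℂ)) ++ (e ++ ex2)))
    (hc : ∀ x ∈ c, -1 < x ∧ x < 1 / 2) {t : ℝ}
    (hA : SAt c t ≤ (c.map fun x => Ag ((3 / 2 + x) * l) t).sum)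
    {Cl : ℝ} (hC : 0 ≤ Cl) (hm : 1 ≤ m) (hlen : (X2.length : ℝ) ≤ Cl * m) {T1 : ℝ}
    (hT : 3 / 8 * Real.log m + tauT h0 Cl ≤ T1) :
    ‖phi β X1 (posT t) * phi β X1 (posT t - l) - phO T1 X2 (posT t)‖ ≤
      (4 + 4 * Real.exp 2) * Real.exp (3 * e.length) * Real.exp (-(SAt c t + SAe e t)) := by
  have hl := l_pos
  have uT1 : -(3 / 2 * l) ≤ (posT t).re := by rw [posT_re]; linarith
  have uT2 : (posT t).re ≤ 0 := by rw [posT_re]; linarith
  have he : ∀ x ∈ e, -l ≤ x.re ∧ x.re ≤ l / 2 := fun x hx => by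
    obtain ⟨a, b, -⟩ := hX1.perm h1 x (by simp [hx])
    exact ⟨a, b⟩
  obtain ⟨Q, hQ⟩ : ∃ Q, Q = Real.exp (3 * e.length) * Real.exp (-(SAt c t + SAe e t)) := ⟨_, rfl⟩
  have hQ0 : 0 ≤ Q := by rw [hQ]; positivity
  have hSe := SAe_le he t
  have hAQ : Real.exp (-((c.map fun x => Ag ((3 / 2 + x) * l) t).sum +
      (e.map fun x => Ag (3 / 2 * l + x.re) (t - x.im)).sum)) ≤ Q := by
    rw [hQ, ← Real.exp_add]; exact Real.exp_le_exp.2 (by linarith)
  have hBQ : Real.exp (-(SAt c t + SAe e t)) ≤ Q := by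
    rw [hQ]
    exact le_mul_of_one_le_left (Real.exp_pos _).le (Real.one_le_exp (by positivity))
  have c1 : ∀ x ∈ c, 0 < 3 / 2 + x ∧ 3 / 2 + x < 3 := fun x hx =>
    ⟨by linarith [(hc x hx).1], by linarith [(hc x hx).2]⟩
  have c2 : ∀ x ∈ c, 0 < 5 / 2 + x ∧ 5 / 2 + x < 3 := fun x hx =>
    ⟨by linarith [(hc x hx).1], by linarith [(hc x hx).2]⟩
  have A1 := (prod_cex hβ0 hβ1 hX1 h1 (by norm_num) (by norm_num) c1 t).trans hAQ
  have A2 := prod_cex hβ0 hβ1 hX1 h1 (by norm_num) (by norm_num) c2 t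
  have A3 := (prod_cex (β := 4 / 3) (by norm_num) le_rfl hX2 h2 (by norm_num) (by norm_num) c1 t).trans
    hAQ
  rw [sum_refl, sum_reflC, ← posTl_vl] at A2
  replace A2 := A2.trans hBQ
  rw [← posT_vl] at A1 A3
  change ‖pP X2 (posT t)‖ ≤ Q at A3
  have B1 : ‖(X1.map fun x => psi β (posT t - l - x)).prod‖ ≤ 1 :=
    norm_prod_cs hβ0 hβ1 (hX1.strip (by rw [posTl_re]) (by rw [posTl_re]; linarith))
  set u := posT t with hu
  have hom := PHK.norm_one_sub_om_all (T1 := T1) (P := pP X2) (oT t) (fun _ => pP_S hX2 uT1 uT2)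
    fun h => vac_S hh hX2 hC hm hlen uT1 uT2 hT h
  have e : phi β X1 u * phi β X1 (u - l) - phO T1 X2 u =
      (pP X2 u + ((X1.map fun x => psi β (u - x)).prod * (X1.map fun x => psi β (u - l - x)).prod +
        (-(X1.map fun x => psi β (u - x)).prod + -(X1.map fun x => psi β (u - l - x)).prod))) +
        phi (4 / 3) X2 u * (1 - om T1 (pP X2) u) := by
    unfold phO
    rw [PHK.phi_pP]
    unfold phi
    ring
  rw [e]
  set AA := (X1.map fun x => psi β (u - x)).prod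
  set BB := (X1.map fun x => psi β (u - l - x)).prod
  have k0 := norm_add_le (pP X2 u + (AA * BB + (-AA + -BB))) (phi (4 / 3) X2 u * (1 - om T1 (pP X2) u))
  have k1 := norm_add_le (pP X2 u) (AA * BB + (-AA + -BB))
  have k2 := norm_add_le (AA * BB) (-AA + -BB)
  have k3 := norm_add_le (-AA) (-BB)
  rw [norm_neg, norm_neg] at k3
  rw [norm_mul] at k2
  have k4 : ‖AA‖ * ‖BB‖ ≤ Q := by
    calc ‖AA‖ * ‖BB‖ ≤ Q * 1 := mul_le_mul A1 B1 (norm_nonneg _) hQ0
      _ = Q := mul_one _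
  have k5 : ‖phi (4 / 3) X2 u * (1 - om T1 (pP X2) u)‖ ≤ 4 * Real.exp 2 * Q := by
    rw [norm_mul]
    have p1 : ‖phi (4 / 3) X2 u‖ ≤ 2 :=
      (phi_S (β := 4 / 3) (by norm_num) le_rfl hh hX2 hC hm hlen uT1 uT2).1
    calc ‖phi (4 / 3) X2 u‖ * ‖1 - om T1 (pP X2) u‖ ≤ 2 * (2 * Real.exp 2 * Q) := by
          refine mul_le_mul p1 (hom.trans ?_) (norm_nonneg _) (by norm_num)
          have he := Real.exp_pos 2
          gcongr
      _ = _ := by ring
  calc _ ≤ 4 * Q + 4 * Real.exp 2 * Q := by linarith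
    _ = _ := by rw [hQ]; ring

/-- the bracket in the bulk without the rows `e` -/
theorem br_bulk (hβ0 : 0 < β) (hβ1 : β ≤ 4 / 3) (hh : 0 ≤ h0) (hX1 : RwS h0 X1) (hX2 : RwS h0 X2)
    (h1 : X1.Perm ((c.map fun x : ℝ => ((x * l : ℝ) : ℂ)) ++ ex1))
    (h2 : X2.Perm ((c.map fun x : ℝ => ((x * l : ℝ) : ℂ)) ++ ex2))
    (hc : ∀ x ∈ c, -1 < x ∧ x < 1 / 2) {t : ℝ}
    (hA : SAt c t ≤ (c.map fun x => Ag ((3 / 2 + x) * l) t).sum)
    {Cl : ℝ} (hC : 0 ≤ Cl) (hm : 1 ≤ m) (hlen : (X2.length : ℝ) ≤ Cl * m) {T1 : ℝ}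
    (hT : 3 / 8 * Real.log m + tauT h0 Cl ≤ T1) :
    ‖phi β X1 (posT t) * phi β X1 (posT t - l) - phO T1 X2 (posT t)‖ ≤
      (4 + 4 * Real.exp 2) * Real.exp (-SAt c t) := by
  have := br_bulkC (e := []) hβ0 hβ1 hh hX1 hX2 (by rw [List.nil_append]; exact h1)
    (by rw [List.nil_append]; exact h2) hc hA hC hm hlen hT
  simpa [SAe] using this

/-- **the bracket at all heights** -/
theorem br_cut (hβ0 : 0 < β) (hβ1 : β ≤ 4 / 3) (hh : 0 ≤ h0) (hX1 : RwS h0 X1) (hX2 : RwS h0 X2)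
    {Cl : ℝ} (hC : 0 ≤ Cl) (hm : 1 ≤ m) (hlen1 : (X1.length : ℝ) ≤ Cl * m)
    (hlen2 : (X2.length : ℝ) ≤ Cl * m) {T1 : ℝ} (hT : 3 / 8 * Real.log m + tauT h0 Cl ≤ T1) (t : ℝ) :
    ‖phi β X1 (posT t) * phi β X1 (posT t - l) - phO T1 X2 (posT t)‖ ≤
      (2 + Real.exp 3) * cB h0 Cl * cut m β t := by
  have hl := l_pos
  have uT1 : -(3 / 2 * l) ≤ (posT t).re := by rw [posT_re]; linarith
  have uT2 : (posT t).re ≤ 0 := by rw [posT_re]; linarith
  have c1 := (phi_S hβ0 hβ1 hh hX1 hC hm hlen1 uT1 uT2).1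
  have c2 := (phi_S (u := posT t - l) hβ0 hβ1 hh hX1 hC hm hlen1 (by rw [posTl_re])
    (by rw [posTl_re]; linarith)).2
  have c3 := (phi_S (β := 4 / 3) (by norm_num) le_rfl hh hX2 hC hm hlen2 uT1 uT2).2
  rw [posTl_im] at c2
  rw [posT_im] at c3
  have hom := PHK.norm_om_le (T1 := T1) (P := pP X2) (oT t) (fun _ => pP_S hX2 uT1 uT2)
    fun h => vac_S hh hX2 hC hm hlen2 uT1 uT2 hT h
  have hom' : ‖om T1 (pP X2) (posT t)‖ ≤ Real.exp 3 := by
    refine hom.trans (mul_le_of_le_one_right (Real.exp_pos _).le ?_)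
    rw [Real.exp_le_one_iff]
    have := Real.exp_pos (11 / 2 * (|(posT t).im| - T1))
    linarith
  have c4 : cut m (4 / 3) t ≤ cut m β t := by
    unfold cut
    refine min_le_min le_rfl (mul_le_mul_of_nonneg_left (Real.exp_le_exp.2 ?_) (Nat.cast_nonneg m))
    have := abs_nonneg t
    nlinarith
  have hc := cB_ge hh hC
  have hcut : 0 ≤ cut m β t := by unfold cut; positivity
  refine (norm_sub_le _ _).trans ?_
  unfold phO
  rw [norm_mul, norm_mul]
  have c5 : ‖phi β X1 (posT t)‖ * ‖phi β X1 (posT t - l)‖ ≤ 2 * (cB h0 Cl * cut m β t) :=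
    mul_le_mul c1 c2 (norm_nonneg _) (by norm_num)
  have c6 : ‖phi (4 / 3) X2 (posT t)‖ * ‖om T1 (pP X2) (posT t)‖ ≤
      (cB h0 Cl * cut m β t) * Real.exp 3 := by
    refine mul_le_mul (c3.trans ?_) hom' (norm_nonneg _) (by positivity)
    exact mul_le_mul_of_nonneg_left c4 (by linarith)
  calc _ ≤ 2 * (cB h0 Cl * cut m β t) + (cB h0 Cl * cut m β t) * Real.exp 3 := add_le_add c5 c6
    _ = _ := by ring

/-- **the cutoff of a string at the offset `2 + e`** -/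
theorem phi0_om (hh : 0 ≤ h0) (hX2 : RwS h0 X2) {Cl : ℝ} (hC : 0 ≤ Cl) (hm : 1 ≤ m)
    (hlen2 : (X2.length : ℝ) ≤ Cl * m) {T1 : ℝ} (hT : 3 / 8 * Real.log m + tauT h0 Cl ≤ T1)
    {e : ℝ} (e0 : 0 ≤ e) (e1 : e ≤ 15 / 32) (t : ℝ) :
    ‖phO T1 X2 (posS e t)‖ ≤ Real.exp 3 * cB h0 Cl * cut m (4 / 3) t *
      Real.exp (-(Real.exp (11 / 2 * (|t| - T1)) / 5)) := by
  have hl := l_pos
  have hre : (posS e t).re = -((1 + e) * l) := NUO.vl_re _ _
  have him : (posS e t).im = t := NUO.vl_im _ _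
  have u1 : -(3 / 2 * l) ≤ (posS e t).re := by rw [hre]; nlinarith
  have u2 : (posS e t).re ≤ 0 := by rw [hre]; nlinarith
  have ho : |(posS e t).re + 31 / 32 * l| ≤ l / 2 := by
    rw [hre, abs_le]
    constructor <;> nlinarith
  have c3 := (phi_S (β := 4 / 3) (by norm_num) le_rfl hh hX2 hC hm hlen2 u1 u2).2
  have hom := PLT.norm_om_le (T1 := T1) (P := pP X2) ho (fun _ => pP_S hX2 u1 u2)
    fun h => vac_S hh hX2 hC hm hlen2 u1 u2 hT h
  rw [him] at c3 hom
  have hc := cB_ge hh hC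
  have hcut : 0 ≤ cut m (4 / 3) t := by unfold cut; positivity
  unfold phO
  rw [norm_mul]
  calc _ ≤ (cB h0 Cl * cut m (4 / 3) t) *
        (Real.exp 3 * Real.exp (-(Real.exp (11 / 2 * (|t| - T1)) / 5))) :=
        mul_le_mul c3 hom (norm_nonneg _) (by positivity)
    _ = _ := by ring

end bracket

end PLT
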