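import Pool.Agent.PLT.Level

/-!
# The rate of the price of a hole

* `slope`, **`Ag_slope`**: the level function of a row grows at least like `4 / √3 / ch t` in the offset;
* **`SC_rate`**: the level function of a content above its curve, offsets at distance less than `l` from
  all rows;
* `Ag_split`: `Ag V = Ag (2 l - V) + Ag (V - l)`; **`Ag_ge`**: `3/2 min V l / ch t ≤ Ag V t` for
  `0 ≤ V < 2 l` (also at `V = l`, `t = 0`); `Ag_nonneg`;
* **`SC_ge`**: the rate for all offsets up to `l`, a content with spread at most `l` and at least half of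
  the weight at nonnegative places;
* `T_ge`: the line `l / 2` seen from above; `P_le_ch`, `exp_le_ch`.
-/

set_option autoImplicit false

noncomputable section

open Set

namespace PLT

open NUMF

/-! ### the slope -/

private theorem cos_ge {β : ℝ} (h : |β| ≤ Real.pi / 6) : √3 / 2 ≤ Real.cos β := by
  have hpi := Real.pi_pos
  rw [← Real.cos_pi_div_six, ← Real.cos_abs β]
  exact Real.cos_le_cos_of_nonneg_of_le_pi (abs_nonneg _) (by linarith) h

private theorem frac_ge {c s C k : ℝ} (hc : 1 ≤ c) (hd : 0 < c ^ 2 - s ^ 2) (hC : k ≤ C)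
    (hk : 0 ≤ k) : k / c ≤ c * C / (c ^ 2 - s ^ 2) := by
  rw [div_le_div_iff₀ (by linarith) hd]
  have h1 : 0 ≤ s ^ 2 := sq_nonneg s
  have h2 : k * (c ^ 2 - s ^ 2) ≤ k * c ^ 2 := mul_le_mul_of_nonneg_left (by linarith) hk
  have h3 : k * c ^ 2 ≤ C * c ^ 2 := mul_le_mul_of_nonneg_right hC (sq_nonneg c)
  nlinarith

/-- **the slope of the level function of a row** -/
theorem slope {v : ℝ} (hv : |v| < l) (t : ℝ) :
    4 / √3 / ch t ≤ 2 * Real.pi * (Pc ((t : ℂ) + v * Complex.I)).re := by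
  obtain ⟨⟨a1, a2⟩, a3, a4⟩ := ang hv
  obtain ⟨d1, d2⟩ := den_v hv t
  have c1 := Real.cos_pos_of_mem_Ioo ⟨a1, a2⟩
  have c2 := Real.cos_pos_of_mem_Ioo ⟨a3, a4⟩
  have h1 := one_le_ch t
  have hp := Real.pi_pos
  have hl : 0 < l := l_pos
  rw [Pc_parts hv t]
  simp only [Complex.add_re, Complex.ofReal_re, Complex.mul_re,
      Complex.I_re, mul_zero, Complex.ofReal_im, Complex.I_im, mul_one, sub_self, add_zero]
  obtain ⟨A, hA⟩ : ∃ A, A = ch t * Real.cos (8 / 3 * v - Real.pi / 6) /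
    (ch t ^ 2 - Real.sin (8 / 3 * v - Real.pi / 6) ^ 2) := ⟨_, rfl⟩
  obtain ⟨B, hB⟩ : ∃ B, B = ch t * Real.cos (8 / 3 * v + Real.pi / 6) /
    (ch t ^ 2 - Real.sin (8 / 3 * v + Real.pi / 6) ^ 2) := ⟨_, rfl⟩
  rw [← hA, ← hB]
  have e : 2 * Real.pi * (4 / (3 * Real.pi) * (A + B)) = 8 / 3 * (A + B) := by
    field_simp
    ring
  rw [e]
  have hA0 : 0 ≤ A := by rw [hA]; positivity
  have hB0 : 0 ≤ B := by rw [hB]; positivity
  have h3 : (0 : ℝ) < √3 := Real.sqrt_pos.2 (by norm_num)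
  have h3s : √3 * √3 = (3 : ℝ) := Real.mul_self_sqrt (by norm_num)
  have hk : 4 / √3 / ch t = 8 / 3 * (√3 / 2 / ch t) := by
    field_simp
    nlinarith
  have hpl : Real.pi = 8 * l := by unfold l; ring
  obtain ⟨v1, v2⟩ := abs_lt.1 hv
  rw [hk]
  have key : √3 / 2 / ch t ≤ A + B := by
    rcases le_total 0 v with h | h
    · have h5 : √3 / 2 / ch t ≤ A := by
        rw [hA]
        exact frac_ge h1 d1 (cos_ge (by rw [abs_le]; constructor <;> linarith)) (by positivity)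
      linarith
    · have h5 : √3 / 2 / ch t ≤ B := by
        rw [hB]
        exact frac_ge h1 d2 (cos_ge (by rw [abs_le]; constructor <;> linarith)) (by positivity)
      linarith
  linarith

/-- **the growth of the level function of a row** -/
theorem Ag_slope {v w : ℝ} (hv : |v| < l) (hw : |w| < l) (h : v ≤ w) (t : ℝ) :
    4 / √3 / ch t * (w - v) ≤ Ag w t - Ag v t := by
  have hd : ∀ y ∈ Set.Ioo (-l) l,
      HasDerivAt (fun v => Ag v t) (2 * Real.pi * (Pc ((t : ℂ) + y * Complex.I)).re) y :=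
    fun y hy => hasDerivAt_Ag_v (abs_lt.2 hy) t
  have hI : interior (Set.Ioo (-l) l) = Set.Ioo (-l) l := isOpen_Ioo.interior_eq
  refine (convex_Ioo (-l) l).mul_sub_le_image_sub_of_le_deriv (f := fun v => Ag v t)
    (fun y hy => (hd y hy).continuousAt.continuousWithinAt) (fun y hy => ?_)
    (fun y hy => ?_) v (abs_lt.1 hv) w (abs_lt.1 hw) h
  · rw [hI] at hy
    exact (hd y hy).differentiableAt.differentiableWithinAt
  · rw [hI] at hy
    rw [(hd y hy).deriv]
    exact slope (abs_lt.2 hy) t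

variable {ι : Type*} [Fintype ι] {m x : ι → ℝ}

/-- **the growth of the level function of a content** -/
theorem SC_slope (hm : ∀ i, 0 ≤ m i) {v j : ℝ} (hv : v ∈ Dm x) (hj : j ∈ Dm x) (h : v ≤ j)
    (t : ℝ) : (∑ i, m i) * (4 / √3 / ch t * (j - v)) ≤ SC m x j t - SC m x v t := by
  unfold SC
  rw [← Finset.sum_sub_distrib, Finset.sum_mul]
  refine Finset.sum_le_sum fun i _ => ?_
  rw [← mul_sub]
  refine mul_le_mul_of_nonneg_left ?_ (hm i)
  have := Ag_slope (hv i) (hj i) (by linarith) t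
  rwa [show j + x i - (v + x i) = j - v by ring] at this

/-! ### exponentials -/

theorem ch_le_exp (t : ℝ) : ch t ≤ Real.exp (8 / 3 * |t|) := by
  unfold ch
  rw [Real.cosh_eq]
  have h1 : Real.exp (8 / 3 * t) ≤ Real.exp (8 / 3 * |t|) :=
    Real.exp_le_exp.2 (mul_le_mul_of_nonneg_left (le_abs_self t) (by norm_num))
  have h2 : Real.exp (-(8 / 3 * t)) ≤ Real.exp (8 / 3 * |t|) := by
    refine Real.exp_le_exp.2 ?_
    have := neg_abs_le t
    linarith
  linarith

/-- `e^(-8/3 |t|) ≤ 1 / ch t` -/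
theorem exp_le_ch (t : ℝ) : Real.exp (-(8 / 3) * |t|) ≤ 1 / ch t := by
  rw [show -(8 / 3) * |t| = -(8 / 3 * |t|) by ring, Real.exp_neg, one_div]
  exact inv_anti₀ (ch_pos t) (ch_le_exp t)

/-- the density on the line against `ch` -/
theorem P_le_ch (t : ℝ) : NUMF.P t ≤ 1 / ch t := by
  have h1 := one_le_ch t
  have hp : (3.14 : ℝ) < Real.pi := Real.pi_gt_d2
  have h3 : (1.73 : ℝ) < √3 := Real.lt_sqrt_of_sq_lt (by norm_num)
  have h4 : 0 < 4 * ch t ^ 2 - 1 := by nlinarith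
  unfold NUMF.P
  rw [div_mul_div_comm, div_le_div_iff₀ (by positivity) (by linarith)]
  have h5 : (16 : ℝ) ≤ 3 * (√3 * Real.pi) := by nlinarith
  have h6 : 3 * ch t ^ 2 ≤ 4 * ch t ^ 2 - 1 := by nlinarith
  have h7 : (0 : ℝ) < √3 * Real.pi := by positivity
  calc 16 * ch t * ch t = 16 * ch t ^ 2 := by ring
    _ ≤ 3 * (√3 * Real.pi) * ch t ^ 2 := mul_le_mul_of_nonneg_right h5 (sq_nonneg _)
    _ = √3 * Real.pi * (3 * ch t ^ 2) := by ring
    _ ≤ √3 * Real.pi * (4 * ch t ^ 2 - 1) := mul_le_mul_of_nonneg_left h6 h7.le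
    _ = 1 * (√3 * Real.pi * (4 * ch t ^ 2 - 1)) := by ring

private theorem two_le : (2 : ℝ) ≤ 4 / √3 := by
  have h3 : √3 ≤ (2 : ℝ) := (Real.sqrt_le_left (by norm_num)).2 (by norm_num)
  have h0 : (0 : ℝ) < √3 := Real.sqrt_pos.2 (by norm_num)
  rw [le_div_iff₀ h0]
  linarith

/-- **the rate above the level curve** -/
theorem SC_rate (hm : ∀ i, 0 ≤ m i) {v j t : ℝ} (hv : v ∈ Dm x) (h0 : 0 ≤ SC m x v t)
    (hj : j ∈ Dm x) (h : v ≤ j) : (∑ i, m i) * (2 * (j - v)) / ch t ≤ SC m x j t := by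
  have h1 := SC_slope hm hv hj h t
  have hc := ch_pos t
  have hM : 0 ≤ ∑ i, m i := Finset.sum_nonneg fun i _ => hm i
  have h2 : (∑ i, m i) * (2 * (j - v)) / ch t ≤ (∑ i, m i) * (4 / √3 / ch t * (j - v)) := by
    rw [mul_div_assoc]
    refine mul_le_mul_of_nonneg_left ?_ hM
    rw [div_mul_eq_mul_div]
    refine div_le_div_of_nonneg_right ?_ hc.le
    exact mul_le_mul_of_nonneg_right two_le (by linarith)
  linarith

/-! ### beyond `l` -/

/-- the level function beyond `l` -/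
theorem Ag_split (V t : ℝ) : Ag V t = Ag (2 * l - V) t + Ag (V - l) t := by
  have hpl : l = Real.pi / 8 := rfl
  have e1 : Real.sin (8 / 3 * (2 * l - V) - Real.pi / 6) = Real.cos (8 / 3 * V) := by
    rw [← Real.sin_pi_div_two_sub]
    congr 1
    rw [hpl]
    ring
  have e2 : Real.sin (8 / 3 * (2 * l - V) + Real.pi / 6) = Real.sin (8 / 3 * V + Real.pi / 6) := by
    rw [← Real.sin_pi_sub (8 / 3 * V + Real.pi / 6)]
    congr 1
    rw [hpl]
    ring
  have e3 : Real.sin (8 / 3 * (V - l) - Real.pi / 6) = -Real.cos (8 / 3 * V) := by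
    rw [← Real.sin_pi_div_two_sub, ← Real.sin_neg]
    congr 1
    rw [hpl]
    ring
  have e4 : Real.sin (8 / 3 * (V - l) + Real.pi / 6) = Real.sin (8 / 3 * V - Real.pi / 6) := by
    congr 1
    rw [hpl]
    ring
  unfold Ag La
  rw [e1, e2, e3, e4]
  ring

private theorem log_ge {c s : ℝ} (h0 : 0 ≤ s) (h1 : s < c) :
    s / (c + s) ≤ (Real.log (c + s) - Real.log (c - s)) / 2 := by
  have a1 : 0 < c + s := by linarith
  have a2 : 0 < c - s := by linarith
  have h2 := Real.log_le_sub_one_of_pos (x := (c - s) / (c + s)) (by positivity)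
  rw [Real.log_div a2.ne' a1.ne'] at h2
  have h3 : (c - s) / (c + s) - 1 = -(2 * (s / (c + s))) := by
    field_simp
    ring
  linarith

/-- at `V = l` -/
theorem Ag_l (t : ℝ) : 3 / 2 * l / ch t ≤ Ag l t := by
  have h1 := one_le_ch t
  have hpl : l = Real.pi / 8 := rfl
  have hl4 : l ≤ 2 / 5 := by
    rw [hpl]
    linarith [Real.pi_lt_d2]
  have e1 : Real.sin (8 / 3 * l - Real.pi / 6) = 1 / 2 := by
    rw [show 8 / 3 * l - Real.pi / 6 = Real.pi / 6 by rw [hpl]; ring, Real.sin_pi_div_six]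
  have e2 : Real.sin (8 / 3 * l + Real.pi / 6) = 1 := by
    rw [show 8 / 3 * l + Real.pi / 6 = Real.pi / 2 by rw [hpl]; ring, Real.sin_pi_div_two]
  unfold Ag La
  rw [e1, e2]
  have a1 := log_ge (c := ch t) (s := 1 / 2) (by norm_num) (by linarith)
  have a2 : 1 / 3 / ch t ≤ 1 / 2 / (ch t + 1 / 2) := by
    rw [div_le_div_iff₀ (by linarith) (by linarith)]
    linarith
  have a3 : 3 / 10 / ch t ≤ (Real.log (ch t + 1) - Real.log (ch t - 1)) / 2 := by
    rcases eq_or_lt_of_le h1 with h | h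
    · rw [← h, sub_self, Real.log_zero, sub_zero, show (1 : ℝ) + 1 = 2 by norm_num]
      have := Real.log_two_gt_d9
      norm_num
      linarith
    · have b1 := log_ge (c := ch t) (s := 1) (by norm_num) h
      have b2 : 3 / 10 / ch t ≤ 1 / (ch t + 1) := by
        rw [div_le_div_iff₀ (by linarith) (by linarith)]
        linarith
      linarith
  have a4 : 3 / 2 * l / ch t ≤ 1 / 3 / ch t + 3 / 10 / ch t := by
    rw [← add_div]
    refine div_le_div_of_nonneg_right ?_ (by linarith)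
    linarith
  linarith

/-- **the level function of a row is positive up to `2 l`** -/
theorem Ag_ge {V : ℝ} (h0 : 0 ≤ V) (h2 : V < 2 * l) (t : ℝ) :
    3 / 2 * min V l / ch t ≤ Ag V t := by
  have hl : 0 < l := l_pos
  have hc := ch_pos t
  have h2c : 3 / 2 / ch t ≤ 4 / √3 / ch t := div_le_div_of_nonneg_right
    (by linarith [two_le]) hc.le
  have base : ∀ W, 0 ≤ W → W < l → 3 / 2 * W / ch t ≤ Ag W t := by
    intro W hW0 hW1
    have h3 := Ag_slope (v := 0) (w := W) (by rw [abs_zero]; exact hl)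
      (by rw [abs_of_nonneg hW0]; exact hW1) hW0 t
    rw [Ag_zero, sub_zero, sub_zero] at h3
    have h4 : 3 / 2 * W / ch t = 3 / 2 / ch t * W := by ring
    rw [h4]
    exact (mul_le_mul_of_nonneg_right h2c hW0).trans h3
  rcases lt_trichotomy V l with h | h | h
  · rw [min_eq_left h.le]
    exact base V h0 h
  · rw [h, min_self]
    exact Ag_l t
  · rw [min_eq_right h.le, Ag_split]
    have b1 := base (2 * l - V) (by linarith) (by linarith)
    have b2 := base (V - l) (by linarith) (by linarith)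
    have e : 3 / 2 * l / ch t = 3 / 2 * (2 * l - V) / ch t + 3 / 2 * (V - l) / ch t := by ring
    rw [e]
    exact add_le_add b1 b2

theorem Ag_nonneg {V : ℝ} (h0 : 0 ≤ V) (h2 : V < 2 * l) (t : ℝ) : 0 ≤ Ag V t := by
  have hl : 0 < l := l_pos
  have hc := ch_pos t
  have h1 : 0 ≤ min V l := le_min h0 hl.le
  exact le_trans (by positivity) (Ag_ge h0 h2 t)

/-- places at offsets in `[0, 2 l)` -/
theorem SC_beyond (hm : ∀ i, 0 ≤ m i) {j : ℝ} (h0 : ∀ i, 0 ≤ j + x i) (h2 : ∀ i, j + x i < 2 * l)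
    (t : ℝ) : 3 / 2 * (∑ i, m i * min (j + x i) l) / ch t ≤ SC m x j t := by
  unfold SC
  rw [Finset.mul_sum, Finset.sum_div]
  refine Finset.sum_le_sum fun i _ => ?_
  have := mul_le_mul_of_nonneg_left (Ag_ge (h0 i) (h2 i) t) (hm i)
  refine le_trans (le_of_eq ?_) this
  ring

/-- **the rate for all offsets up to `l`**: spread of the places at most `l`, places at most `l / 2`,
half of the weight at nonnegative places; `v` on the level curve (or above) -/
theorem SC_ge (hm : ∀ i, 0 ≤ m i) (hd : ∀ i i', x i - x i' ≤ l) (hx : ∀ i, x i ≤ l / 2)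
    (hw : ∑ i, m i ≤ 2 * ∑ i, if 0 ≤ x i then m i else 0) {v j t : ℝ} (hv : v ∈ Dm x)
    (h0 : 0 ≤ SC m x v t) (h : v ≤ j) (hj : j < l) :
    (∑ i, m i) * min (2 * (j - v)) (3 / 8 * l) / ch t ≤ SC m x j t := by
  have hl : 0 < l := l_pos
  have hc := ch_pos t
  have hM : 0 ≤ ∑ i, m i := Finset.sum_nonneg fun i _ => hm i
  by_cases hD : j ∈ Dm x
  · refine le_trans ?_ (SC_rate hm hv h0 hD h)
    refine div_le_div_of_nonneg_right (mul_le_mul_of_nonneg_left (min_le_left _ _) hM) hc.le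
  · have h1 : ∃ i, l ≤ j + x i := by
      by_contra hne
      push Not at hne
      refine hD fun i => abs_lt.2 ⟨?_, hne i⟩
      have := (abs_lt.1 (hv i)).1
      linarith
    obtain ⟨i0, hi0⟩ := h1
    have h2 : ∀ i, 0 ≤ j + x i := fun i => by
      have := hd i0 i
      linarith
    have h3 : ∀ i, j + x i < 2 * l := fun i => by
      have := hx i
      linarith
    have h4 : l / 2 ≤ j := by
      have := hx i0
      linarith
    refine le_trans ?_ (SC_beyond hm h2 h3 t)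
    refine div_le_div_of_nonneg_right ?_ hc.le
    have h5 : (l / 2) * (∑ i, if 0 ≤ x i then m i else 0) ≤ ∑ i, m i * min (j + x i) l := by
      rw [Finset.mul_sum]
      refine Finset.sum_le_sum fun i _ => ?_
      split_ifs with hi
      · rw [mul_comm]
        refine mul_le_mul_of_nonneg_left (le_min ?_ ?_) (hm i)
        · linarith
        · linarith
      · rw [mul_zero]
        exact mul_nonneg (hm i) (le_min (h2 i) hl.le)
    have h6 : (∑ i, m i) * min (2 * (j - v)) (3 / 8 * l) ≤ (∑ i, m i) * (3 / 8 * l) :=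
      mul_le_mul_of_nonneg_left (min_le_right _ _) hM
    have h7 : (∑ i, m i) * (3 / 8 * l) ≤
        (2 * ∑ i, if 0 ≤ x i then m i else 0) * (3 / 8 * l) :=
      mul_le_mul_of_nonneg_right hw (by linarith)
    linarith

/-- `SC_ge` with `e^(-8/3 |t|)` -/
theorem SC_ge_exp (hm : ∀ i, 0 ≤ m i) (hd : ∀ i i', x i - x i' ≤ l) (hx : ∀ i, x i ≤ l / 2)
    (hw : ∑ i, m i ≤ 2 * ∑ i, if 0 ≤ x i then m i else 0) {v j t : ℝ} (hv : v ∈ Dm x)
    (h0 : 0 ≤ SC m x v t) (h : v ≤ j) (hj : j < l) :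
    (∑ i, m i) * min (2 * (j - v)) (3 / 8 * l) * Real.exp (-(8 / 3) * |t|) ≤ SC m x j t := by
  have hl : 0 < l := l_pos
  have hM : 0 ≤ ∑ i, m i := Finset.sum_nonneg fun i _ => hm i
  refine le_trans ?_ (SC_ge hm hd hx hw hv h0 h hj)
  have h1 := mul_le_mul_of_nonneg_left (exp_le_ch t)
    (mul_nonneg hM (le_min (by linarith : (0 : ℝ) ≤ 2 * (j - v)) (by linarith : 0 ≤ 3 / 8 * l)))
  refine h1.trans (le_of_eq ?_)
  ring

/-- `SC_ge` with the density of a row -/
theorem SC_ge_P (hm : ∀ i, 0 ≤ m i) (hd : ∀ i i', x i - x i' ≤ l) (hx : ∀ i, x i ≤ l / 2)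
    (hw : ∑ i, m i ≤ 2 * ∑ i, if 0 ≤ x i then m i else 0) {v j t : ℝ} (hv : v ∈ Dm x)
    (h0 : 0 ≤ SC m x v t) (h : v ≤ j) (hj : j < l) :
    (∑ i, m i) * min (2 * (j - v)) (3 / 8 * l) * NUMF.P t ≤ SC m x j t := by
  have hl : 0 < l := l_pos
  have hM : 0 ≤ ∑ i, m i := Finset.sum_nonneg fun i _ => hm i
  refine le_trans ?_ (SC_ge hm hd hx hw hv h0 h hj)
  have h1 := mul_le_mul_of_nonneg_left (P_le_ch t)
    (mul_nonneg hM (le_min (by linarith : (0 : ℝ) ≤ 2 * (j - v)) (by linarith : 0 ≤ 3 / 8 * l)))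
  refine h1.trans (le_of_eq ?_)
  ring

/-- **the line `l / 2` seen from above**: places in `(-(3/2) l, l / 2]` -/
theorem T_ge (hm : ∀ i, 0 ≤ m i) (hx : ∀ i, x i ≤ l / 2) (hx' : ∀ i, -(3 / 2 * l) < x i) (t : ℝ) :
    3 / 2 * (∑ i, m i * min (l / 2 - x i) l) / ch t ≤ ∑ i, m i * Ag (l / 2 - x i) t := by
  rw [Finset.mul_sum, Finset.sum_div]
  refine Finset.sum_le_sum fun i _ => ?_
  have h0 := hx i
  have h1 := hx' i
  have := mul_le_mul_of_nonneg_left (Ag_ge (V := l / 2 - x i) (by linarith) (by linarith) t) (hm i)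
  refine le_trans (le_of_eq ?_) this
  ring

theorem T_nonneg (hm : ∀ i, 0 ≤ m i) (hx : ∀ i, x i ≤ l / 2) (hx' : ∀ i, -(3 / 2 * l) < x i)
    (t : ℝ) : 0 ≤ ∑ i, m i * Ag (l / 2 - x i) t :=
  Finset.sum_nonneg fun i _ => mul_nonneg (hm i)
    (Ag_nonneg (by linarith [hx i]) (by linarith [hx' i]) t)

end PLT

end
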