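import Pool.Agent.PLT.TBrA
import Pool.Agent.PLT.Rate

/-!
# The line `3 l / 2` with rows at complex places

Content `a` rows at `-p l + i s0`, `b` rows at `q l + i s1`, `a ≤ b`, `-1/10 ≤ p ≤ 1 - de`,
`-de/10 ≤ q < 1/2`, heights at most `de / 100`:

* **`T_AXe`**: `a Ag ((1/2 + p) l) (t - s0) + b Ag ((1/2 - q) l) (t - s1) ≤
  a Ag ((3/2 - p) l) (t - s0) + b Ag ((3/2 + q) l) (t - s1)`, every `t`;
* `T_AXK`, **`SAe_leK`**: the same with `a ≤ b + K` and error `3/2 K`, lists given by their sums;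
* **`br_bulkX`**: the bracket in the bulk, all common rows at complex places.
-/

set_option autoImplicit false

noncomputable section

open Complex

namespace PLT

open NUP1
open NUMF (ch)
open NUO (cut posT posS)
open PHK (pP phO om)
open PBO.PLX (norm_prod_cs norm_phi_two)

private theorem La_sin' {β γ : ℝ} (h : Real.sin β = Real.sin γ) (c : ℝ) : La β c = La γ c := by
  unfold La
  rw [h]

private theorem Ag_diff (p t : ℝ) : Ag ((3 / 2 - p) * l) t - Ag ((1 / 2 + p) * l) t =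
    La (Real.pi / 3 * (1 - p)) (ch t) - La (Real.pi / 3 * p) (ch t) := by
  have hpl : l = Real.pi / 8 := rfl
  unfold Ag
  have e1 := La_sin' (β := 8 / 3 * ((3 / 2 - p) * l) - Real.pi / 6) (γ := Real.pi / 3 * (1 - p))
    (by congr 1; rw [hpl]; ring) (ch t)
  have e2 := La_sin' (β := 8 / 3 * ((3 / 2 - p) * l) + Real.pi / 6) (γ := Real.pi / 3 * (1 + p))
    (by rw [← Real.sin_pi_sub]; congr 1; rw [hpl]; ring) (ch t)
  have e3 := La_sin' (β := 8 / 3 * ((1 / 2 + p) * l) - Real.pi / 6) (γ := Real.pi / 3 * p)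
    (by congr 1; rw [hpl]; ring) (ch t)
  have e4 := La_sin' (β := 8 / 3 * ((1 / 2 + p) * l) + Real.pi / 6) (γ := Real.pi / 3 * (1 + p))
    (by congr 1; rw [hpl]; ring) (ch t)
  rw [e1, e2, e3, e4]
  ring

private theorem slt {x : ℝ} (h0 : -(Real.pi / 2) ≤ x) (h1 : x < Real.pi / 2) : Real.sin x < 1 := by
  have := Real.sin_lt_sin_of_lt_of_le_pi_div_two h0 le_rfl h1
  rwa [Real.sin_pi_div_two] at this

/-- ratio of `ch` at near heights -/
theorem ch_ratio {s0 s1 sg : ℝ} (h0 : |s0| ≤ sg) (h1 : |s1| ≤ sg) (hs : sg ≤ 1 / 1000) (t : ℝ) :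
    ch (t - s1) ≤ (1 + 6 * sg) * ch (t - s0) := by
  have hsg : 0 ≤ sg := (abs_nonneg _).trans h0
  have hd : |8 / 3 * (s0 - s1)| ≤ 16 / 3 * sg := by
    have := abs_sub s0 s1
    rw [abs_mul, abs_of_pos (by norm_num : (0:ℝ) < 8 / 3)]
    linarith
  have e : 8 / 3 * (t - s1) = 8 / 3 * (t - s0) + 8 / 3 * (s0 - s1) := by ring
  unfold NUMF.ch
  rw [e]
  set x := 8 / 3 * (t - s0)
  set d := 8 / 3 * (s0 - s1)
  have k1 : Real.cosh (x + d) ≤ Real.exp |d| * Real.cosh x := by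
    rw [Real.cosh_eq, Real.cosh_eq, neg_add, Real.exp_add, Real.exp_add]
    have a1 : Real.exp d ≤ Real.exp |d| := Real.exp_le_exp.2 (le_abs_self d)
    have a2 : Real.exp (-d) ≤ Real.exp |d| := Real.exp_le_exp.2 (neg_le_abs d)
    have a3 := mul_le_mul_of_nonneg_left a1 (Real.exp_pos x).le
    have a4 := mul_le_mul_of_nonneg_left a2 (Real.exp_pos (-x)).le
    linarith
  have k2 : Real.exp |d| ≤ 1 + 6 * sg := by
    have b1 : Real.exp |d| ≤ Real.exp (16 / 3 * sg) := Real.exp_le_exp.2 hd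
    have b2 := Real.exp_bound_div_one_sub_of_interval (x := 16 / 3 * sg) (by positivity) (by linarith)
    refine b1.trans (b2.trans ?_)
    rw [div_le_iff₀ (by linarith)]
    nlinarith
  exact k1.trans (mul_le_mul_of_nonneg_right k2 (Real.cosh_pos x).le)

/-- comparison of two logarithms with one -/
theorem La_two {X Y P c0 c1 : ℝ} (hX : 0 ≤ X) (hX1 : X < c1) (hY1 : -c1 < Y) (hY2 : Y ≤ 0)
    (hP : 0 ≤ P) (hP1 : P < c0) (h : P * c1 ≤ (X + Y) * c0) :
    (Real.log (c0 + P) - Real.log (c0 - P)) / 2 ≤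
      (Real.log (c1 + X) - Real.log (c1 - X)) / 2 + (Real.log (c1 + Y) - Real.log (c1 - Y)) / 2 := by
  have a1 : 0 < c0 + P := by linarith
  have a2 : 0 < c0 - P := by linarith
  have a3 : 0 < c1 + X := by linarith
  have a4 : 0 < c1 - X := by linarith
  have a5 : 0 < c1 + Y := by linarith
  have a6 : 0 < c1 - Y := by linarith
  have key : (c0 + P) * ((c1 - X) * (c1 - Y)) ≤ (c0 - P) * ((c1 + X) * (c1 + Y)) := by
    have b1 : 0 ≤ P * (X * -Y) := mul_nonneg hP (mul_nonneg hX (by linarith))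
    have b2 : 0 ≤ c1 * ((X + Y) * c0 - P * c1) := mul_nonneg (by linarith) (by linarith)
    nlinarith
  have hl := Real.log_le_log (by positivity) key
  rw [Real.log_mul a1.ne' (by positivity), Real.log_mul a4.ne' a6.ne', Real.log_mul a2.ne' (by positivity),
    Real.log_mul a3.ne' a5.ne'] at hl
  linarith

/-- the sines -/
theorem sin_gap {p q de : ℝ} (hde : 0 < de) (hde1 : de ≤ 1 / 10) (hp : 0 ≤ p) (hp1 : p ≤ 1 - de)
    (hq : -(de / 10) ≤ q) (hq0 : q ≤ 0) : Real.sin (Real.pi / 3 * p) * (1 + de / 6) ≤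
      Real.sin (Real.pi / 3 * (1 + q)) + Real.sin (Real.pi / 3 * q) := by
  have hpi := Real.pi_gt_three
  have hpi2 := Real.pi_lt_d2
  have h3 : (1.73 : ℝ) ≤ √3 := Real.le_sqrt_of_sq_le (by norm_num)
  have h3' : √3 ≤ (1.74 : ℝ) := (Real.sqrt_le_left (by norm_num)).2 (by norm_num)
  -- upper bound of the left
  have e1 : Real.sin (Real.pi / 3 * p) ≤ Real.sin (Real.pi / 3 * (1 - de)) :=
    Real.sin_le_sin_of_le_of_le_pi_div_two (by nlinarith) (by nlinarith) (by nlinarith)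
  have e2 : Real.sin (Real.pi / 3 * (1 - de)) ≤ √3 / 2 - de / 3 := by
    have : Real.pi / 3 * (1 - de) = Real.pi / 3 - Real.pi / 3 * de := by ring
    rw [this, Real.sin_sub, Real.sin_pi_div_three, Real.cos_pi_div_three]
    have a1 := Real.cos_le_one (Real.pi / 3 * de)
    have a2 : 2 / Real.pi * (Real.pi / 3 * de) ≤ Real.sin (Real.pi / 3 * de) :=
      Real.mul_le_sin (by positivity) (by nlinarith)
    have a3 : 2 / Real.pi * (Real.pi / 3 * de) = 2 / 3 * de := by field_simp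
    rw [a3] at a2
    nlinarith [Real.sqrt_nonneg 3]
  -- lower bound of the right
  have e3 : Real.sin (Real.pi / 3 * (1 + q)) + Real.sin (Real.pi / 3 * q) =
      √3 * Real.sin (Real.pi / 6 + Real.pi / 3 * q) := by
    have : Real.pi / 3 * (1 + q) = Real.pi / 3 + Real.pi / 3 * q := by ring
    rw [this, Real.sin_add, Real.sin_add, Real.sin_pi_div_three, Real.cos_pi_div_three,
      Real.sin_pi_div_six, Real.cos_pi_div_six]
    have : √3 * √3 = 3 := Real.mul_self_sqrt (by norm_num)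
    linear_combination (-(1 / 2) * Real.sin (Real.pi / 3 * q)) * this
  have e4 : 1 / 2 + 19 / 20 * (Real.pi / 3 * q) ≤ Real.sin (Real.pi / 6 + Real.pi / 3 * q) := by
    rw [Real.sin_add, Real.sin_pi_div_six, Real.cos_pi_div_six]
    set y := Real.pi / 3 * q with hy
    have hy0 : y ≤ 0 := by rw [hy]; nlinarith
    have hy1 : -(1 / 50) ≤ y := by rw [hy]; nlinarith
    have c1 := Real.one_sub_sq_div_two_le_cos (x := y)
    have c2 : y ≤ Real.sin y := by
      have := Real.sin_le (x := -y) (by linarith)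
      rw [Real.sin_neg] at this
      linarith
    have c3 : √3 / 2 * y ≤ √3 / 2 * Real.sin y := mul_le_mul_of_nonneg_left c2 (by positivity)
    have c4 : 87 / 100 * y ≤ √3 / 2 * y := by nlinarith
    nlinarith
  have hqb : -(de * (7 / 66)) ≤ Real.pi / 3 * q := by nlinarith
  rw [e3]
  have hR : √3 / 2 - 19 / 20 * 1.74 * (de * (7 / 66)) ≤ √3 * Real.sin (Real.pi / 6 + Real.pi / 3 * q) := by
    have d1 := mul_le_mul_of_nonneg_left e4 (Real.sqrt_nonneg 3)
    have d2 : √3 * (1 / 2 + 19 / 20 * (Real.pi / 3 * q)) ≥ √3 / 2 - 19 / 20 * 1.74 * (de * (7 / 66)) := by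
      have d3 : √3 * (de * (7 / 66)) ≤ 1.74 * (de * (7 / 66)) :=
        mul_le_mul_of_nonneg_right h3' (by positivity)
      have d4 : √3 * -(de * (7 / 66)) ≤ √3 * (Real.pi / 3 * q) :=
        mul_le_mul_of_nonneg_left hqb (Real.sqrt_nonneg 3)
      linarith
    linarith
  have hL : Real.sin (Real.pi / 3 * p) * (1 + de / 6) ≤ (√3 / 2 - de / 3) * (1 + de / 6) :=
    mul_le_mul_of_nonneg_right (e1.trans e2) (by positivity)
  nlinarith

/-- the sines, `q ≥ 0` -/
theorem sin_gap' {p q de : ℝ} (hde : 0 < de) (hde1 : de ≤ 1 / 10) (hp : 0 ≤ p) (hp1 : p ≤ 1 - de)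
    (hq : 0 ≤ q) (hq0 : q < 1 / 2) : Real.sin (Real.pi / 3 * p) * (1 + de / 6) ≤
      Real.sin (Real.pi / 3 * (1 + q)) := by
  have hpi := Real.pi_gt_three
  have hpi2 := Real.pi_lt_d2
  have h := sin_gap hde hde1 hp hp1 (q := 0) (by linarith) le_rfl
  rw [mul_zero, Real.sin_zero, add_zero, add_zero, mul_one] at h
  refine h.trans (Real.sin_le_sin_of_le_of_le_pi_div_two (by linarith) (by nlinarith) (by nlinarith))

/-- **the T line with rows at complex places, upper product** -/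
theorem T_AXe {a b p q de sg s0 s1 : ℝ} (ha : 0 ≤ a) (hab : a ≤ b) (hde : 0 < de) (hde1 : de ≤ 1 / 10)
    (hp : -(1 / 10) ≤ p) (hp1 : p ≤ 1 - de) (hq : -(de / 10) ≤ q) (hq1 : q < 1 / 2)
    (h0 : |s0| ≤ sg) (h1 : |s1| ≤ sg) (hsg : 100 * sg ≤ de) (t : ℝ) :
    a * Ag ((1 / 2 + p) * l) (t - s0) + b * Ag ((1 / 2 - q) * l) (t - s1) ≤
      a * Ag ((3 / 2 - p) * l) (t - s0) + b * Ag ((3 / 2 + q) * l) (t - s1) := by
  have hpi := Real.pi_gt_three
  have hpi2 := Real.pi_lt_d2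
  have hsg0 : 0 ≤ sg := (abs_nonneg _).trans h0
  have c0 := NUMF.one_le_ch (t - s0)
  have c1 := NUMF.one_le_ch (t - s1)
  have rat := ch_ratio h0 h1 (by linarith) t
  have d1 := Ag_diff p (t - s0)
  have d2 := Ag_diff (-q) (t - s1)
  rw [show (3 / 2 - -q) = 3 / 2 + q by ring, show (1 / 2 + -q) = 1 / 2 - q by ring,
    show 1 - -q = 1 + q by ring, mul_neg, La_neg] at d2
  set C0 := ch (t - s0)
  set C1 := ch (t - s1)
  -- the first term
  have l1 : 0 ≤ La (Real.pi / 3 * (1 - p)) C0 := by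
    have n0 : 0 ≤ Real.sin (Real.pi / 3 * (1 - p)) :=
      Real.sin_nonneg_of_nonneg_of_le_pi (by nlinarith) (by nlinarith)
    have n1 : Real.sin (Real.pi / 3 * (1 - p)) < 1 := slt (by nlinarith) (by nlinarith)
    unfold La
    have := Real.log_le_log (x := C0 - Real.sin (Real.pi / 3 * (1 - p)))
      (y := C0 + Real.sin (Real.pi / 3 * (1 - p))) (by linarith) (by linarith)
    linarith
  -- the other two
  have nX : 0 ≤ Real.sin (Real.pi / 3 * (1 + q)) :=
    Real.sin_nonneg_of_nonneg_of_le_pi (by nlinarith) (by nlinarith)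
  have nX1 : Real.sin (Real.pi / 3 * (1 + q)) < 1 := slt (by nlinarith) (by nlinarith)
  have pos : ∀ x : ℝ, 0 ≤ x → x < 1 → ∀ c : ℝ, 1 ≤ c →
      0 ≤ (Real.log (c + x) - Real.log (c - x)) / 2 := fun x hx hx1 c hc => by
    have := Real.log_le_log (x := c - x) (y := c + x) (by linarith) (by linarith)
    linarith
  -- main comparison for `p ≥ 0`
  have main : ∀ P : ℝ, 0 ≤ P → P < 1 →
      (q ≤ 0 → P * (1 + de / 6) ≤ Real.sin (Real.pi / 3 * (1 + q)) + Real.sin (Real.pi / 3 * q)) →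
      (0 ≤ q → P * (1 + de / 6) ≤ Real.sin (Real.pi / 3 * (1 + q))) →
      (Real.log (C0 + P) - Real.log (C0 - P)) / 2 ≤
        La (Real.pi / 3 * (1 + q)) C1 + La (Real.pi / 3 * q) C1 := by
    intro P hP hP1 g1 g2
    have r1 : P * C1 ≤ P * (1 + de / 6) * C0 := by
      have : C1 ≤ (1 + de / 6) * C0 := rat.trans (mul_le_mul_of_nonneg_right (by linarith) (by linarith))
      calc P * C1 ≤ P * ((1 + de / 6) * C0) := mul_le_mul_of_nonneg_left this hP
        _ = _ := by ring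
    unfold La
    rcases le_total q 0 with hq0 | hq0
    · have y0 : Real.sin (Real.pi / 3 * q) ≤ 0 :=
        Real.sin_nonpos_of_nonpos_of_neg_pi_le (by nlinarith) (by nlinarith)
      have y1 : -1 < Real.sin (Real.pi / 3 * q) := by
        have := Real.neg_one_le_sin (Real.pi / 3 * q)
        have k := g1 hq0
        have k2 : 0 ≤ P * (1 + de / 6) := by positivity
        linarith
      exact La_two nX (by linarith) (by linarith) y0 hP (by linarith)
        (r1.trans (mul_le_mul_of_nonneg_right (g1 hq0) (by linarith)))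
    · have y0 : 0 ≤ Real.sin (Real.pi / 3 * q) :=
        Real.sin_nonneg_of_nonneg_of_le_pi (by nlinarith) (by nlinarith)
      have y1 : Real.sin (Real.pi / 3 * q) < 1 := slt (by nlinarith) (by nlinarith)
      have k1 := pos _ y0 y1 C1 c1
      have k2 := La_two (Y := 0) nX (by linarith : Real.sin (Real.pi / 3 * (1 + q)) < C1) (by linarith) le_rfl hP
        (by linarith : P < C0)
        (by rw [add_zero]; exact r1.trans (mul_le_mul_of_nonneg_right (g2 hq0) (by linarith)))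
      rw [add_zero, sub_zero, sub_self, zero_div, add_zero] at k2
      linarith
  have hs1 : ∀ x : ℝ, 0 ≤ x → x < 1 → Real.sin (Real.pi / 3 * x) < 1 := fun x x0 x1 =>
    slt (by nlinarith) (by nlinarith)
  have hmain : a * La (Real.pi / 3 * p) C0 ≤
      b * (La (Real.pi / 3 * (1 + q)) C1 + La (Real.pi / 3 * q) C1) := by
    rcases le_total p 0 with hp0 | hp0
    · have k1 := main 0 le_rfl one_pos
        (fun hq0 => by
          have := sin_gap hde hde1 (p := 0) le_rfl (by linarith) hq hq0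
          rwa [mul_zero, Real.sin_zero] at this)
        (fun hq0 => by rw [zero_mul]; exact nX)
      rw [add_zero, sub_zero, sub_self, zero_div] at k1
      have k2 : La (Real.pi / 3 * p) C0 ≤ 0 := by
        have n0 : Real.sin (Real.pi / 3 * p) ≤ 0 :=
          Real.sin_nonpos_of_nonpos_of_neg_pi_le (by nlinarith) (by nlinarith)
        have n1 : -1 < Real.sin (Real.pi / 3 * p) := by
          have := hs1 (-p) (by linarith) (by linarith)
          rw [mul_neg, Real.sin_neg] at this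
          linarith
        unfold La
        have := Real.log_le_log (x := C0 + Real.sin (Real.pi / 3 * p))
          (y := C0 - Real.sin (Real.pi / 3 * p)) (by linarith) (by linarith)
        linarith
      have k3 : a * La (Real.pi / 3 * p) C0 ≤ 0 := mul_nonpos_of_nonneg_of_nonpos ha k2
      exact k3.trans (mul_nonneg (ha.trans hab) k1)
    · have n0 : 0 ≤ Real.sin (Real.pi / 3 * p) :=
        Real.sin_nonneg_of_nonneg_of_le_pi (by nlinarith) (by nlinarith)
      have n1 := hs1 p hp0 (by linarith)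
      have k1 := main _ n0 n1 (fun hq0 => sin_gap hde hde1 hp0 hp1 hq hq0)
        (fun hq0 => sin_gap' hde hde1 hp0 hp1 hq0 hq1)
      have k2 := pos _ n0 n1 C0 c0
      exact mul_le_mul hab k1 k2 (ha.trans hab)
  have l6 := mul_nonneg ha l1
  have e : a * Ag ((3 / 2 - p) * l) (t - s0) + b * Ag ((3 / 2 + q) * l) (t - s1) -
      (a * Ag ((1 / 2 + p) * l) (t - s0) + b * Ag ((1 / 2 - q) * l) (t - s1)) =
      a * (La (Real.pi / 3 * (1 - p)) C0 - La (Real.pi / 3 * p) C0) +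
      b * (La (Real.pi / 3 * (1 + q)) C1 + La (Real.pi / 3 * q) C1) := by
    rw [← d1, show La (Real.pi / 3 * (1 + q)) C1 + La (Real.pi / 3 * q) C1 =
      La (Real.pi / 3 * (1 + q)) C1 - -La (Real.pi / 3 * q) C1 by ring, ← d2]
    ring
  nlinarith

/-- `T_AXe` for `a ≤ b + K` -/
theorem T_AXK {a b p q de sg s0 s1 K : ℝ} (ha : 0 ≤ a) (hb : 0 ≤ b) (hK : 0 ≤ K) (hab : a ≤ b + K)
    (hde : 0 < de) (hde1 : de ≤ 1 / 10) (hp : -(1 / 10) ≤ p) (hp1 : p ≤ 1 - de) (hq : -(de / 10) ≤ q)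
    (hq1 : q < 1 / 2) (h0 : |s0| ≤ sg) (h1 : |s1| ≤ sg) (hsg : 100 * sg ≤ de) (t : ℝ) :
    a * Ag ((1 / 2 + p) * l) (t - s0) + b * Ag ((1 / 2 - q) * l) (t - s1) ≤
      a * Ag ((3 / 2 - p) * l) (t - s0) + b * Ag ((3 / 2 + q) * l) (t - s1) + 3 / 2 * K := by
  rcases le_total a b with h | h
  · have := T_AXe ha h hde hde1 hp hp1 hq hq1 h0 h1 hsg t
    linarith
  · have k1 := T_AXe hb le_rfl hde hde1 hp hp1 hq hq1 h0 h1 hsg t
    have hpi := Real.pi_gt_three
    have hpi2 := Real.pi_lt_d2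
    have d1 := Ag_diff p (t - s0)
    have c0 := NUMF.one_le_ch (t - s0)
    have l1 : 0 ≤ La (Real.pi / 3 * (1 - p)) (ch (t - s0)) := by
      have n0 : 0 ≤ Real.sin (Real.pi / 3 * (1 - p)) :=
        Real.sin_nonneg_of_nonneg_of_le_pi (by nlinarith) (by nlinarith)
      have n1 : Real.sin (Real.pi / 3 * (1 - p)) < 1 := slt (by nlinarith) (by nlinarith)
      unfold La
      have := Real.log_le_log (x := ch (t - s0) - Real.sin (Real.pi / 3 * (1 - p)))
        (y := ch (t - s0) + Real.sin (Real.pi / 3 * (1 - p))) (by linarith) (by linarith)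
      linarith
    have l2 : La (Real.pi / 3 * p) (ch (t - s0)) ≤ 3 / 2 := by
      refine (abs_le.1 (abs_La_lo c0 ?_)).2
      have h3' : √3 ≤ (1.74 : ℝ) := (Real.sqrt_le_left (by norm_num)).2 (by norm_num)
      have e1 : Real.sin (Real.pi / 3 * p) ≤ Real.sin (Real.pi / 3) :=
        Real.sin_le_sin_of_le_of_le_pi_div_two (by nlinarith) (by nlinarith) (by nlinarith)
      have e2 : Real.sin (-(Real.pi / 3)) ≤ Real.sin (Real.pi / 3 * p) :=
        Real.sin_le_sin_of_le_of_le_pi_div_two (by nlinarith) (by nlinarith) (by nlinarith)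
      rw [Real.sin_neg] at e2
      rw [Real.sin_pi_div_three] at e1 e2
      rw [abs_le]
      constructor <;> linarith
    have e : (a - b) * (Ag ((1 / 2 + p) * l) (t - s0) - Ag ((3 / 2 - p) * l) (t - s0)) ≤ 3 / 2 * K := by
      have e1 : Ag ((1 / 2 + p) * l) (t - s0) - Ag ((3 / 2 - p) * l) (t - s0) ≤ 3 / 2 := by linarith
      have e2 : (a - b) * (Ag ((1 / 2 + p) * l) (t - s0) - Ag ((3 / 2 - p) * l) (t - s0)) ≤
        (a - b) * (3 / 2) := mul_le_mul_of_nonneg_left e1 (by linarith)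
      linarith
    linarith

/-- **`hA` of `br_bulkX`** for two places -/
theorem SAe_leK {c : List ℂ} {a b K : ℝ} {x y : ℂ} (hc : ∀ f : ℂ → ℝ, (c.map f).sum = a * f x + b * f y)
    (ha : 0 ≤ a) (hb : 0 ≤ b) (hK : 0 ≤ K) (hab : a ≤ b + K) {de sg : ℝ} (hde : 0 < de)
    (hde1 : de ≤ 1 / 10) (hx : -((1 - de) * l) ≤ x.re) (hx1 : x.re ≤ l / 10)
    (hy : -(de / 10 * l) ≤ y.re) (hy1 : y.re < l / 2) (h0 : |x.im| ≤ sg) (h1 : |y.im| ≤ sg)
    (hsg : 100 * sg ≤ de) (t : ℝ) :
    SAe c t ≤ (c.map fun x => Ag (3 / 2 * l + x.re) (t - x.im)).sum + 3 / 2 * K := by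
  have hl := l_pos
  unfold SAe
  rw [hc, hc]
  have h := T_AXK (p := -(x.re / l)) (q := y.re / l) ha hb hK hab hde hde1
    (by rw [neg_le_neg_iff, div_le_iff₀ hl]; linarith)
    (by rw [neg_le, le_div_iff₀ hl]; linarith) (by rw [le_div_iff₀ hl]; linarith)
    (by rw [div_lt_iff₀ hl]; linarith) h0 h1 hsg t
  rw [show (1 / 2 + -(x.re / l)) * l = l / 2 - x.re by field_simp; ring,
    show (1 / 2 - y.re / l) * l = l / 2 - y.re by field_simp,
    show (3 / 2 - -(x.re / l)) * l = 3 / 2 * l + x.re by field_simp; ring,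
    show (3 / 2 + y.re / l) * l = 3 / 2 * l + y.re by field_simp] at h
  exact h

section bracket
variable {β : ℝ} {m : ℕ} {h0 : ℝ} {X g ex X1 X2 ex1 ex2 : List ℂ}

private theorem posT_re' (t : ℝ) : (posT t).re = -(1 / 2 * l) := NUO.vl_re _ _
private theorem posT_im' (t : ℝ) : (posT t).im = t := NUO.vl_im _ _
private theorem posTl_re' (t : ℝ) : (posT t - l).re = -(3 / 2 * l) := by
  rw [sub_re, posT_re', ofReal_re]; ring
private theorem posT_vl' (t : ℝ) : posT t = vl ((1 - 3 / 2) * l) t := by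
  unfold posT
  congr 1
  ring
private theorem posTl_vl' (t : ℝ) : posT t - l = vl ((1 - 5 / 2) * l) t := by
  apply Complex.ext
  · rw [posTl_re', vl_re]; ring
  · rw [sub_im, posT_im', ofReal_im, sub_zero, vl_im]
private theorem oT' (t : ℝ) : |(posT t).re + 31 / 32 * l| ≤ 77 / 160 * l := by
  have := l_pos
  rw [posT_re', show -(1 / 2 * l) + 31 / 32 * l = 15 / 32 * l by ring, abs_of_pos (by positivity)]
  linarith

/-- the rows `g` at the line of offset `j l`, and extra rows -/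
theorem prod_gx (hβ0 : 0 < β) (hβ1 : β ≤ 4 / 3) (hX : RwS h0 X) (hp : X.Perm (g ++ ex)) {j : ℝ}
    (j1 : 1 ≤ j) (j2 : j ≤ 5 / 2) (t : ℝ) :
    ‖(X.map fun x => psi β (vl ((1 - j) * l) t - x)).prod‖ ≤
      Real.exp (-(g.map fun x => Ag (j * l + x.re) (t - x.im)).sum) := by
  have := prod_cex (c := []) hβ0 hβ1 hX (e := g) (ex := ex) (by simpa using hp) j1 j2 (by simp) t
  simpa using this

/-- **the bracket in the bulk, rows at complex places**: `g` = rows common to the rows and to the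
two cutoffs -/
theorem br_bulkX (hβ0 : 0 < β) (hβ1 : β ≤ 4 / 3) (hh : 0 ≤ h0) (hX1 : RwS h0 X1) (hX2 : RwS h0 X2)
    (h1 : X1.Perm (g ++ ex1)) (h2 : X2.Perm (g ++ ex2)) {t K : ℝ} (hK : 0 ≤ K)
    (hA : SAe g t ≤ (g.map fun x => Ag (3 / 2 * l + x.re) (t - x.im)).sum + K)
    {Cl : ℝ} (hC : 0 ≤ Cl) (hm : 1 ≤ m) (hlen : (X2.length : ℝ) ≤ Cl * m) {T1 : ℝ}
    (hT : 3 / 8 * Real.log m + tauT h0 Cl ≤ T1) :
    ‖phi β X1 (posT t) * phi β X1 (posT t - l) - phO T1 X2 (posT t)‖ ≤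
      (4 + 4 * Real.exp 2) * Real.exp K * Real.exp (-SAe g t) := by
  have hl := l_pos
  have uT1 : -(3 / 2 * l) ≤ (posT t).re := by rw [posT_re']; linarith
  have uT2 : (posT t).re ≤ 0 := by rw [posT_re']; linarith
  obtain ⟨Q, hQ⟩ : ∃ Q, Q = Real.exp K * Real.exp (-SAe g t) := ⟨_, rfl⟩
  have hQ0 : 0 ≤ Q := by rw [hQ]; positivity
  have hAQ : Real.exp (-(g.map fun x => Ag (3 / 2 * l + x.re) (t - x.im)).sum) ≤ Q := by
    rw [hQ, ← Real.exp_add]; exact Real.exp_le_exp.2 (by linarith)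
  have hBQ : Real.exp (-SAe g t) ≤ Q := by
    rw [hQ]
    exact le_mul_of_one_le_left (Real.exp_pos _).le (Real.one_le_exp hK)
  have A1 := (prod_gx hβ0 hβ1 hX1 h1 (j := 3 / 2) (by norm_num) (by norm_num) t).trans hAQ
  have A2 := prod_gx hβ0 hβ1 hX1 h1 (j := 5 / 2) (by norm_num) (by norm_num) t
  have A3 := (prod_gx (β := 4 / 3) (by norm_num) le_rfl hX2 h2 (j := 3 / 2) (by norm_num)
    (by norm_num) t).trans hAQ
  rw [sum_reflC, ← posTl_vl'] at A2
  replace A2 := A2.trans hBQ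
  rw [← posT_vl'] at A1 A3
  change ‖pP X2 (posT t)‖ ≤ Q at A3
  have B1 : ‖(X1.map fun x => psi β (posT t - l - x)).prod‖ ≤ 1 :=
    norm_prod_cs hβ0 hβ1 (hX1.strip (by rw [posTl_re']) (by rw [posTl_re']; linarith))
  set u := posT t with hu
  have hom := PHK.norm_one_sub_om_all (T1 := T1) (P := pP X2) (oT' t) (fun _ => pP_S hX2 uT1 uT2)
    fun h => vac_S hh hX2 hC hm hlen uT1 uT2 hT h
  have e : phi β X1 u * phi β X1 (u - l) - phO T1 X2 u =
      (pP X2 u + ((X1.map fun x => psi β (u - x)).prod * (X1.map fun x => psi β (u - l - x)).prod +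
        (-(X1.map fun x => psi β (u - x)).prod + -(X1.map fun x => psi β (u - l - x)).prod))) +
        phi (4 / 3) X2 u * (1 - om T1 (pP X2) u) := by
    unfold phO
    rw [PHK.phi_pP]
    unfold phi
    ring
  rw [e]
  set AA := (X1.map fun x => psi β (u - x)).prod
  set BB := (X1.map fun x => psi β (u - l - x)).prod
  have k0 := norm_add_le (pP X2 u + (AA * BB + (-AA + -BB))) (phi (4 / 3) X2 u * (1 - om T1 (pP X2) u))
  have k1 := norm_add_le (pP X2 u) (AA * BB + (-AA + -BB))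
  have k2 := norm_add_le (AA * BB) (-AA + -BB)
  have k3 := norm_add_le (-AA) (-BB)
  rw [norm_neg, norm_neg] at k3
  rw [norm_mul] at k2
  have k4 : ‖AA‖ * ‖BB‖ ≤ Q := by
    calc ‖AA‖ * ‖BB‖ ≤ Q * 1 := mul_le_mul A1 B1 (norm_nonneg _) hQ0
      _ = Q := mul_one _
  have k5 : ‖phi (4 / 3) X2 u * (1 - om T1 (pP X2) u)‖ ≤ 4 * Real.exp 2 * Q := by
    rw [norm_mul]
    have p1 : ‖phi (4 / 3) X2 u‖ ≤ 2 :=
      (phi_S (β := 4 / 3) (by norm_num) le_rfl hh hX2 hC hm hlen uT1 uT2).1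
    calc ‖phi (4 / 3) X2 u‖ * ‖1 - om T1 (pP X2) u‖ ≤ 2 * (2 * Real.exp 2 * Q) := by
          refine mul_le_mul p1 (hom.trans ?_) (norm_nonneg _) (by norm_num)
          have he := Real.exp_pos 2
          gcongr
      _ = _ := by ring
  calc _ ≤ 4 * Q + 4 * Real.exp 2 * Q := by linarith
    _ = _ := by rw [hQ]; ring

theorem SAe_append (c e : List ℂ) (t : ℝ) : SAe (c ++ e) t = SAe c t + SAe e t := by
  unfold SAe
  rw [List.map_append, List.sum_append]

/-- **the bracket in the bulk**: `c` = common part, `e` = further common rows, all at complex places -/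
theorem br_bulkXe {c e : List ℂ} (hβ0 : 0 < β) (hβ1 : β ≤ 4 / 3) (hh : 0 ≤ h0) (hX1 : RwS h0 X1)
    (hX2 : RwS h0 X2) (h1 : X1.Perm (c ++ (e ++ ex1))) (h2 : X2.Perm (c ++ (e ++ ex2))) {t : ℝ}
    (hA : SAe c t ≤ (c.map fun x => Ag (3 / 2 * l + x.re) (t - x.im)).sum)
    {Cl : ℝ} (hC : 0 ≤ Cl) (hm : 1 ≤ m) (hlen : (X2.length : ℝ) ≤ Cl * m) {T1 : ℝ}
    (hT : 3 / 8 * Real.log m + tauT h0 Cl ≤ T1) :
    ‖phi β X1 (posT t) * phi β X1 (posT t - l) - phO T1 X2 (posT t)‖ ≤
      (4 + 4 * Real.exp 2) * Real.exp (3 * e.length) * Real.exp (-(SAe c t + SAe e t)) := by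
  have he : ∀ x ∈ e, -l ≤ x.re ∧ x.re ≤ l / 2 := fun x hx => by
    obtain ⟨a, b, -⟩ := hX1.perm h1 x (by simp [hx])
    exact ⟨a, b⟩
  have hSe := SAe_le he t
  have := br_bulkX (g := c ++ e) (K := 3 * e.length) hβ0 hβ1 hh hX1 hX2
    (by rw [List.append_assoc]; exact h1) (by rw [List.append_assoc]; exact h2) (t := t) (by positivity)
    (by
      rw [SAe_append, List.map_append, List.sum_append]
      linarith) hC hm hlen hT
  rwa [SAe_append] at this

end bracket

end PLT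

end
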