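import Pool.Agent.PLT.LtC
import Pool.Agent.PLT.LgK
import Pool.Agent.PHK.BsR6

/-!
# Sea on a curve: the base functions of data with rows at complex places, any strip of the quanta

Strip of the offsets `lo .. hi`, `-1 / 20 ≤ lo ≤ 0`; points `PtW lo` : `-(1 + lo) l < Re w ≤ 101 / 200 l`
(no pole of a row on the lines of the quanta).

* `oneCC_XXU` : the class functions are bounded by the one body data;
* `bsC_rowsG` : rows alone; `bsC_endsG` : ends `p`, `q` (`PtE`);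
* **`bsC_RG`** : the base of the regular function, data `RG6`.
-/

set_option autoImplicit false
set_option linter.unusedSectionVars false
set_option linter.unusedVariables false

noncomputable section

open Complex MeasureTheory Finset
open scoped ENNReal

namespace PLTX

open NUO NUP1 NUCR NUP1S NUP1S.Ab NUP1S.AbC NUP1S.AbG NURow NUGC NUGC.PLX PBX PBX.PLX
open NUP1.Leg (thE Ck Dk cc)
open _root_.Pool.Agent.PLX
open PHK PBR.PLX
open PLT

/-- the points of a strip of the quanta -/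
def PtW (lo : ℝ) (w : ℂ) : Prop := -((1 + lo) * l) < w.re ∧ w.re ≤ 101 / 200 * l

theorem PtW.toG {lo : ℝ} (h0 : lo ≤ 0) {w : ℂ} (h : PtW lo w) : PtG w := by
  have hl := Bd.l_pos
  exact ⟨by nlinarith [h.1], h.2⟩

theorem PtW.mono {lo lo' : ℝ} (h0 : lo ≤ lo') {w : ℂ} (h : PtW lo w) : PtW lo' w := by
  have hl := Bd.l_pos
  exact ⟨by nlinarith [h.1], h.2⟩

/-- the differences on the strip -/
theorem PtW.rg {lo x0 : ℝ} (hx0 : 51 / 100 * l ≤ x0) {w : ℂ} (h : PtW lo w) {d : ℝ}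
    (hd : d ∈ Set.Icc x0 ((1 - lo) * l)) : 0 < d - w.re ∧ d - w.re < 2 * l := by
  have hl := Bd.l_pos
  obtain ⟨a, b⟩ := h
  obtain ⟨d1, d2⟩ := hd
  constructor <;> nlinarith

section gen

variable {N : Bool → ℕ} {P : Par6} {lo hi β : ℝ} {c : Bool → ℂ} {s1 s2 : Bool → ℂ → ℂ} {E : Set ℝ}

/-- **The class functions are bounded by the one body data**, any strip. -/
theorem oneCC_XXU {x0 : ℝ} (hx0 : 51 / 100 * l ≤ x0) (hx0' : x0 ≤ (1 - hi) * l)
    (hlo : -(1 / 20) ≤ lo) (hlo' : lo ≤ 0) (hβ : 0 < β) (hβ' : β ≤ 4 / 3)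
    {xr : ∀ a, Fin (N a) → ℂ} (hx : ∀ a i, PtW lo (xr a i)) {ex : Bool → List ℂ}
    (hex : ∀ a, ∀ w ∈ ex a, PtW lo w) {g0 : Bool → ℂ → ℂ} (hg0 : ∀ a, Measurable (g0 a))
    {c0 : ℝ} (hc : ∀ a, ‖c a‖ = c0) {q : ℤ}
    (hm1 : ∀ a, Measurable (s1 a)) (hm2 : ∀ a, Measurable (s2 a))
    (hA : ∀ a, NUGC.PLX.SpecAt x0 a q (s1 a)) (hS : ∀ a, SpecS6 P E (s1 a) (s2 a))
    (hE : volume E = 0) :
    OneCC (fun a => XXU (c a) β (xr a) (xr !a) (gP β (ex a)) (g0 a) (s1 a) (s2 a))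
      (obU6 c0 β xr ex (fun a => ph (4 / 3) (xr a) (g0 a)) fun a u => ‖s1 a u‖) P lo hi (2 * β) x0
      (q + N true - N false) (E ∪ ⋃ a, Set.range fun i => (xr a i).im) := by
  have hl := Bd.l_pos
  have hc0 : 0 ≤ c0 := by
    rw [← hc true]
    exact norm_nonneg _
  have hxG : ∀ a, RwG (xr a) := fun a i => (hx a i).toG hlo'
  have hone : ∀ a (u : ℂ), ‖XXU (c a) β (xr a) (xr !a) (gP β (ex a)) (g0 a) (s1 a) (s2 a) none u‖ =
      wq6 (obU6 c0 β xr ex (fun a => ph (4 / 3) (xr a) (g0 a)) fun a u => ‖s1 a u‖) a u := fun a u =>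
    norm_XXU_none hc xr ex _ g0 s1 s2 a u
  have hinv : ∀ a (u : ℂ),
      ‖(XXU (c a) β (xr a) (xr !a) (gP β (ex a)) (g0 a) (s1 a) (s2 a) none u)⁻¹‖ ≤
      (wq6 (obU6 c0 β xr ex (fun a => ph (4 / 3) (xr a) (g0 a)) fun a u => ‖s1 a u‖) a u)⁻¹ :=
    fun a u => by rw [norm_inv, hone]
  have hstr : ∀ a (u : ℂ), ‖s2 a u‖ ≤ ‖s1 a u‖ * ‖s1 a (u - l)‖ →
      ‖RRU (c a) (xr a) (xr !a) u‖ * ‖RRU (c a) (xr a) (xr !a) (u - l)‖ * ‖s2 a u‖ ≤
      (c0 * rwU (xr a) (xr !a) u * ‖s1 a u‖) *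
        (c0 * rwU (xr a) (xr !a) (u - l) * ‖s1 a (u - l)‖) := by
    intro a u h5
    rw [norm_RRU, norm_RRU, hc]
    have p1 : 0 ≤ rwU (xr a) (xr !a) u := rwU_nonneg _ _ _
    have p2 : 0 ≤ rwU (xr a) (xr !a) (u - l) := rwU_nonneg _ _ _
    calc _ ≤ c0 * rwU (xr a) (xr !a) u * (c0 * rwU (xr a) (xr !a) (u - l)) *
          (‖s1 a u‖ * ‖s1 a (u - l)‖) := mul_le_mul_of_nonneg_left h5 (by positivity)
      _ = _ := by ring
  -- the strip
  have hK : Set.Icc x0 ((1 - lo) * l) ⊆ Set.Icc x0 (21 / 20 * l) := fun d hd =>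
    ⟨hd.1, hd.2.trans (by nlinarith)⟩
  have hNP : ∀ a, ∀ d ∈ Set.Icc x0 ((1 - lo) * l), ∀ i, NP (d - (xr a i).re) := fun a d hd i => by
    obtain ⟨r1, r2⟩ := (hx a i).rg hx0 hd
    exact NP_pos r1 r2
  have hNQ : ∀ a, ∀ d ∈ Set.Icc x0 ((1 - lo) * l), ∀ w ∈ List.ofFn (xr a) ++ ex a,
      NQ β (d - w.re) := fun a d hd w hw => by
    have hw' : PtW lo w := by
      rcases List.mem_append.1 hw with h | h
      · obtain ⟨i, rfl⟩ := (List.mem_ofFn' _ _).1 h
        exact hx a i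
      · exact hex a w h
    obtain ⟨r1, r2⟩ := hw'.rg hx0 hd
    exact NQ_strip hβ hβ' (by linarith) r2
  refine
    { kpos := by linarith
      nn := obU6_nn hc0 β xr ex _ fun a u => norm_nonneg _
      nul := ?_
      meas := fun a k => measurable_XXU (measurable_gP _ _) (hg0 a) (hm1 a) (hm2 a) k
      L := fun a t _ => le_of_eq (hone a _)
      T := ?_
      S := ?_
      V := fun a t _ => le_of_eq (hone a _)
      F := fun a t _ => hinv a _
      H1 := fun a t _ => hinv a _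
      H2 := fun a t _ => hinv a _
      A := fun a u _ => le_of_eq (hone a u)
      x1 := hx0'
      dA := ?_
      bA := ?_ }
  · rw [measure_union_null_iff]
    exact ⟨hE, measure_iUnion_null fun a => (Set.finite_range _).measure_zero _⟩
  · intro a t ht
    have htE : t ∉ E := fun h => ht (Or.inl h)
    have hre : (posT t).re = -(1 / 2 * l) := by
      unfold posT vl
      simp
    have him : (posT t).im = t := by
      unfold posT vl
      simp
    have hq : ∀ {b : ℝ}, 0 < b → b ≤ 4 / 3 → ∀ i, NQ b (posT t - xr a i).re := by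
      intro b hb hb' i
      obtain ⟨r1, r2⟩ := hxG a i
      rw [sub_re, hre]
      exact NQ_strip hb hb' (by linarith) (by linarith)
    have hq'' : ∀ i, (xr a i).re = -(l / 2) → NQ β (-(posT t - xr a i)).re := by
      intro i hi
      rw [neg_re, sub_re, hre, hi]
      exact NQ_strip hβ hβ' (by linarith) (by linarith)
    have hs : ∀ i, (xr a i).re = -(l / 2) → Complex.sin (posT t - xr a i) ≠ 0 := by
      intro i _
      refine NUP1.sin_ne_im ?_
      rw [sub_im, him]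
      intro h0
      exact ht (Or.inr (Set.mem_iUnion.2 ⟨a, i, by linarith⟩))
    show ‖TTU (c a) β (4 / 3) (xr a) (xr !a) (gP β (ex a)) (g0 a) (posT t) * s2 a (posT t)‖ ≤ _
    rw [TTU_eq (hq hβ hβ') (hq (by norm_num) le_rfl) hq'' hs, norm_mul, norm_mul, norm_mul, ph_gP,
      ph_gP]
    have key := hstr a (posT t) ((hS a).1 t htE)
    calc _ = (‖RRU (c a) (xr a) (xr !a) (posT t)‖ * ‖RRU (c a) (xr a) (xr !a) (posT t - l)‖ *
            ‖s2 a (posT t)‖) *
          ‖NUP1.phi β (List.ofFn (xr a) ++ ex a) (posT t) *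
            NUP1.phi β (List.ofFn (xr a) ++ ex a) (posT t - l) -
            ph (4 / 3) (xr a) (g0 a) (posT t)‖ := by ring
      _ ≤ _ := mul_le_mul_of_nonneg_right key (norm_nonneg _)
  · intro a t ht
    have htE : t ∉ E := fun h => ht (Or.inl h)
    show ‖RRU (c a) (xr a) (xr !a) (posS P.e t) * RRU (c a) (xr a) (xr !a) (posS P.e t - l) *
      ph (4 / 3) (xr a) (g0 a) (posS P.e t) * s2 a (posS P.e t)‖ ≤ _
    rw [norm_mul, norm_mul, norm_mul]
    have key := hstr a (posS P.e t) ((hS a).2 t htE)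
    calc _ = (‖RRU (c a) (xr a) (xr !a) (posS P.e t)‖ *
            ‖RRU (c a) (xr a) (xr !a) (posS P.e t - l)‖ * ‖s2 a (posS P.e t)‖) *
          ‖ph (4 / 3) (xr a) (g0 a) (posS P.e t)‖ := by ring
      _ ≤ _ := mul_le_mul_of_nonneg_right key (norm_nonneg _)
  · intro a u u1 u2
    have hu : u.re ∈ Set.Icc x0 ((1 - lo) * l) := ⟨u1, u2⟩
    have h2 := diffAt_RRG (x := xr a) (y := xr !a) (c a) fun i => hNP a _ hu i
    have h3 : DifferentiableAt ℂ (ph β (xr a) (gP β (ex a))) u := by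
      have d1 := DifferentiableAt.fun_finsetProd (𝕜 := ℂ) (u := Finset.univ)
        (f := fun (i : Fin (N a)) s => psi β (s - xr a i)) (x := u) (fun i _ =>
          (diff_psi' (by
            rw [sub_re]
            exact hNQ a _ hu _ (List.mem_append.2 (Or.inl ((List.mem_ofFn' _ _).2 ⟨i, rfl⟩))))).comp u
            (differentiableAt_id.sub_const _))
      exact (d1.mul (diffAt_gPG fun w hw => by
        rw [sub_re]
        exact hNQ a _ hu w (List.mem_append.2 (Or.inr hw)))).const_sub 1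
    exact (h2.mul h3).mul ((hA a).df u (hK hu))
  · intro a
    have h2 := bdd_RRG (x := xr a) (y := xr !a) (c a) (K := Set.Icc x0 ((1 - lo) * l)) isCompact_Icc
      (a := x0) (b := (1 - lo) * l) (fun r hr => hr) fun d hd i => hNP a d hd i
    have h3 : Bdd (Set.Icc x0 ((1 - lo) * l)) (-(2 * β)) (ph β (xr a) (gP β (ex a))) := by
      have h := (bdd_gPG hβ (K := Set.Icc x0 ((1 - lo) * l)) isCompact_Icc
        (fun w hw d hd => hNQ a d hd w hw)).1
      refine Bdd.cg h fun z _ => ?_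
      rw [ph_gP]
      rfl
    have h4 := (h2.mul h3).mul (Bdd.mono_set (hA a).bd hK)
    refine h4.rate ?_
    cases a <;> simp [sc, sg, Bd.chg] <;> ring

variable {e : ℕ} {c0 : ℝ} {xr : ∀ a, Fin (N a) → ℂ} {ex : Bool → List ℂ} {g0 : Bool → ℂ → ℂ}

/-- the rows alone -/
theorem bsC_rowsG (hN : N false = N true + e) (hlo : -(1 / 20) ≤ lo) (hlo' : lo ≤ 0) (hβ : 0 < β)
    (hβ' : β ≤ 4 / 3) (hx : ∀ a i, PtW lo (xr a i)) (hex : ∀ a, ∀ w ∈ ex a, PtW lo w)
    (hg0 : ∀ a, Measurable (g0 a)) (hc : ∀ a, ‖c a‖ = c0) :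
    BsC (fun a => XXU (c a) β (xr a) (xr !a) (gP β (ex a)) (g0 a) (fun _ => 1) fun _ => 1)
      (obU6 c0 β xr ex fun a => ph (4 / 3) (xr a) (g0 a)) P lo hi (2 * β) e
      (⋃ a, Set.range fun i => (xr a i).im) := by
  refine
    { kpos := by linarith
      nul := measure_iUnion_null fun a => (Set.finite_range _).measure_zero _
      meas := fun a k => measurable_XXU (measurable_gP _ _) (hg0 a) measurable_const
        measurable_const k
      one := ?_ }
  intro x0 h0 h1 q s1 s2 E hm1 hm2 hA hS hE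
  have h := oneCC_XXU h0 h1 hlo hlo' hβ hβ' hx hex hg0 hc hm1 hm2 hA hS hE
  have e1 : (fun a => XXU (c a) β (xr a) (xr !a) (gP β (ex a)) (g0 a) (s1 a) (s2 a)) =
      fun a => spX (XXU (c a) β (xr a) (xr !a) (gP β (ex a)) (g0 a) (fun _ => 1) fun _ => 1) (s1 a)
        (s2 a) := by
    funext a
    rw [spX_XXU]
  have e2 : q + (N true : ℤ) - (N false : ℤ) = q - e := by
    rw [hN]
    push_cast
    ring
  rw [e1, e2] at h
  exact h

end gen

/-! ### the ends -/

/-- the ends on the strip of the quanta -/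
theorem PB_thEG {p q : ℂ} (hp : PtE p) (hq : PtE q) :
    (Bdd (Set.Icc (51 / 100 * l) (21 / 20 * l)) 0 (thE p p q q)) ∧
    ∀ z : ℂ, z.re ∈ Set.Icc (51 / 100 * l) (21 / 20 * l) →
      DifferentiableAt ℂ (thE p p q q) z := by
  have hl := Bd.l_pos
  have hden : ∀ {r : ℂ}, PtE r → ∀ d ∈ Set.Icc (51 / 100 * l) (21 / 20 * l),
      Real.sin (r.re - d + 2 * l) ≠ 0 := by
    intro r hr d hd
    obtain ⟨r1, r2⟩ := hr
    exact NUGC.PLX.sin_pos_ne (by linarith [hd.2]) (by linarith [hd.1])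
  have hp' := hden hp
  have hq' := hden hq
  -- the leg factors
  have e : thE p p q q = fun u => Lg p q u * Lg q p u := by
    funext u
    unfold thE Lg
    have e1 : Complex.sin (u - p + 3 * l) = -Complex.sin (p - u - 3 * l) := by
      rw [← Complex.sin_neg]
      congr 1
      ring
    have e2 : Complex.sin (u - q + 3 * l) = -Complex.sin (q - u - 3 * l) := by
      rw [← Complex.sin_neg]
      congr 1
      ring
    rw [e1, e2, div_mul_div_comm]
    congr 1
    ring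
  have key : ∀ {r o : ℂ}, (∀ d ∈ Set.Icc (51 / 100 * l) (21 / 20 * l),
      Real.sin (r.re - d + 2 * l) ≠ 0) → Bdd (Set.Icc (51 / 100 * l) (21 / 20 * l)) 0 (Lg r o) ∧
      ∀ z : ℂ, z.re ∈ Set.Icc (51 / 100 * l) (21 / 20 * l) → DifferentiableAt ℂ (Lg r o) z := by
    intro r o hr
    have hd : ∀ z : ℂ, z.re ∈ Set.Icc (51 / 100 * l) (21 / 20 * l) →
        DifferentiableAt ℂ (Lg r o) z := fun z hz => Lg_diff (hr _ hz)
    refine ⟨?_, hd⟩
    exact Bdd_of_Gr (K := Set.Icc (51 / 100 * l) (21 / 20 * l)) (f := Lg r o) isCompact_Icc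
      (α := 21 / 20 * l) (β := 51 / 100 * l) (s := 0) (fun r hr => hr) (Lg_gr _ _ r o)
      (fun u hu => (hd u hu).continuousAt)
  rw [e]
  have k1 := key (o := q) hp'
  have k2 := key (o := p) hq'
  exact ⟨(k1.1.mul k2.1).rate (by ring), fun z hz => (k1.2 z hz).mul (k2.2 z hz)⟩

theorem bsp6_thEG {P : Par6} {p q : ℂ} (hp : PtE p) (hq : PtE q) :
    Bsp6 P ∅ (thE p p q q) fun w => thE p p q q w * thE p p q q (w - l) where
  m1 := PBR.PLX.measurable_thE _ _ _ _
  m2 := (PBR.PLX.measurable_thE _ _ _ _).mul ((PBR.PLX.measurable_thE _ _ _ _).comp (measurable_id.sub_const _))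
  bd := (PB_thEG hp hq).1
  df := (PB_thEG hp hq).2
  st := ⟨fun _ _ => le_of_eq (norm_mul _ _), fun _ _ => le_of_eq (norm_mul _ _)⟩

/-- **ends `p`, `q`** (both ends of each species at one point), any numbers of rows -/
theorem bsC_endsG {N : Bool → ℕ} {P : Par6} {lo hi β : ℝ} {e : ℕ} {c : Bool → ℂ} {c0 : ℝ}
    {xr : ∀ a, Fin (N a) → ℂ} {ex : Bool → List ℂ} {g0 : Bool → ℂ → ℂ} {p q : ℂ}
    (hN : N false = N true + e) (hlo : -(1 / 20) ≤ lo) (hlo' : lo ≤ 0) (hβ : 0 < β)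
    (hβ' : β ≤ 4 / 3) (hx : ∀ a i, PtW lo (xr a i)) (hex : ∀ a, ∀ w ∈ ex a, PtW lo w)
    (hg0 : ∀ a, Measurable (g0 a)) (hc : ∀ a, ‖c a‖ = c0) (hp : PtE p) (hq : PtE q) :
    BsC (fun a => XXU (c a) β (xr a) (xr !a) (gP β (ex a)) (g0 a) (thE p p q q)
        fun w => thE p p q q w * thE p p q q (w - l))
      (fun g => obU6 c0 β xr ex (fun a => ph (4 / 3) (xr a) (g0 a))
        fun a u => ‖thE p p q q u‖ * g a u) P lo hi (2 * β) e
      (⋃ a, Set.range fun i => (xr a i).im) := by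
  have h := (bsC_spX (bsC_rowsG (P := P) (hi := hi) hN hlo hlo' hβ hβ' hx hex hg0 hc)
    (E1 := ∅) (s0 := fun _ => thE p p q q)
    (t0 := fun _ w => thE p p q q w * thE p p q q (w - l)) (fun _ => bsp6_thEG hp hq)
    (by simp)).congr (X' := fun a => XXU (c a) β (xr a) (xr !a) (gP β (ex a)) (g0 a) (thE p p q q)
        fun w => thE p p q q w * thE p p q q (w - l)) (fun a k u => by rw [spX_XXU]) fun g => rfl
  simp only [Set.empty_union] at h
  exact h

/-! ### data of the regular function -/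

/-- **The base of the regular function, `M = m + e`**, rows and points of the cutoffs `PtW lo`. -/
theorem bsC_RG {m M e : ℕ} (hM : M = m + e) {D : RU m M} {ex : Bool → List ℂ} {c0 : ℝ}
    (h : RG6 D ex) (hc : ‖D.c‖ = c0) (hc' : ‖D.c'‖ = c0) {P : Par6} {lo hi : ℝ}
    (hlo : -(1 / 20) ≤ lo) (hlo' : lo ≤ 0) (hx : ∀ a i, PtW lo (xrU D a i))
    (hex : ∀ a, ∀ w ∈ ex a, PtW lo w) :
    BsC (XB D.X D.Y) (obRU6 D ex c0) P lo hi (2 * D.β) e (⋃ a, Set.range fun i => (xrU D a i).im) := by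
  have hc0 : ∀ a : Bool, ‖cond a D.c D.c'‖ = c0 := by
    intro a
    cases a
    · exact hc'
    · exact hc
  have hg : ∀ a : Bool, Measurable (cond a D.g0 D.g0') := by
    intro a
    cases a
    · exact h.gf'.gn.meas
    · exact h.gf.gn.meas
  refine (bsC_endsG (P := P) (N := fun a => cond a m M) (xr := xrU D) (c := fun a => cond a D.c D.c')
    (g0 := fun a => cond a D.g0 D.g0') hM hlo hlo'
    h.b0 h.b1 hx hex hg hc0 h.hp h.hq).congr (fun a k u => ?_) fun g => rfl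
  cases a
  · show XXU D.c' D.β D.y D.x (gP D.β (ex false)) D.g0' (thE D.p D.p D.q D.q)
        (fun w => thE D.p D.p D.q D.q w * thE D.p D.p D.q D.q (w - l)) k u = D.Y k u
    unfold RU.Y thS
    rw [h.g', thE_symm D.q D.p]
  · show XXU D.c D.β D.x D.y (gP D.β (ex true)) D.g0 (thE D.p D.p D.q D.q)
        (fun w => thE D.p D.p D.q D.q w * thE D.p D.p D.q D.q (w - l)) k u = D.X k u
    unfold RU.X thS
    rw [h.g]

end PLTX

end
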