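import Mathlib
import Pool.Agent.NUP1.Glue

/-!
# The path of contents of a direction (helper17)

Weights `A, B` at the places `-pp A B th` and `qq A B th`, `pp + qq = th`, `th ∈ [0, l]`, `w = 8 / 3`, balanced:
`A sin (w pp) = B sin (w qq)`; `VV = A cos (w pp) + B cos (w qq)`.

* `bal`, `VV_eq`, `pp_deriv`, `VV_deriv`, `kap_eq`, `pp_zero`, `VV_zero`, `VV_l`, `VV_low`.
-/

set_option autoImplicit false

noncomputable section

open Real Set

namespace PLT.Pa

open NUP1 (l lpos)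

/-- half the volume of the content -/
def VV (A B th : ℝ) : ℝ := √(A ^ 2 + B ^ 2 + 2 * A * B * cos (8 / 3 * th))

/-- the place of the first kind of rows (rows at `-pp`) -/
def pp (A B th : ℝ) : ℝ := 3 / 8 * arctan (B * sin (8 / 3 * th) / (A + B * cos (8 / 3 * th)))

/-- the place of the second kind of rows -/
def qq (A B th : ℝ) : ℝ := th - pp A B th

variable {A B th : ℝ}

theorem wl : (8 / 3 : ℝ) * l = π / 3 := by
  unfold NUP1.l
  ring

theorem ang (h : th ∈ Icc 0 l) : 8 / 3 * th ∈ Icc 0 (π / 3) := by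
  have := wl
  exact ⟨by linarith [h.1], by nlinarith [h.2]⟩

theorem cos_pos' (h : th ∈ Icc 0 l) : 1 / 2 ≤ cos (8 / 3 * th) := by
  have h1 := ang h
  rw [← cos_pi_div_three]
  exact cos_le_cos_of_nonneg_of_le_pi h1.1 (by linarith [pi_pos]) h1.2

theorem sin_nn (h : th ∈ Icc 0 l) : 0 ≤ sin (8 / 3 * th) := by
  have h1 := ang h
  exact sin_nonneg_of_nonneg_of_le_pi h1.1 (by linarith [pi_pos, h1.2])

theorem den_pos (hA : 0 < A) (hB : 0 < B) (h : th ∈ Icc 0 l) : 0 < A + B * cos (8 / 3 * th) := by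
  have := cos_pos' h
  positivity

theorem rad_eq (A B th : ℝ) : A ^ 2 + B ^ 2 + 2 * A * B * cos (8 / 3 * th) =
    (A + B * cos (8 / 3 * th)) ^ 2 + (B * sin (8 / 3 * th)) ^ 2 := by
  have := sin_sq_add_cos_sq (8 / 3 * th)
  nlinarith

theorem rad_pos (hA : 0 < A) (hB : 0 < B) (h : th ∈ Icc 0 l) : 0 < A ^ 2 + B ^ 2 + 2 * A * B * cos (8 / 3 * th) := by
  rw [rad_eq]
  have := den_pos hA hB h
  positivity

theorem VV_pos (hA : 0 < A) (hB : 0 < B) (h : th ∈ Icc 0 l) : 0 < VV A B th := sqrt_pos.2 (rad_pos hA hB h)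

theorem VV_sq (hA : 0 < A) (hB : 0 < B) (h : th ∈ Icc 0 l) :
    VV A B th ^ 2 = A ^ 2 + B ^ 2 + 2 * A * B * cos (8 / 3 * th) := sq_sqrt (rad_pos hA hB h).le

theorem one_add_sq {D : ℝ} (hD : 0 < D) (N : ℝ) : 1 + (N / D) ^ 2 = (D ^ 2 + N ^ 2) / D ^ 2 := by
  field_simp

theorem sqrt_one_add (hA : 0 < A) (hB : 0 < B) (h : th ∈ Icc 0 l) :
    √(1 + (B * sin (8 / 3 * th) / (A + B * cos (8 / 3 * th))) ^ 2) = VV A B th / (A + B * cos (8 / 3 * th)) := by
  have hd := den_pos hA hB h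
  have e := one_add_sq hd (B * sin (8 / 3 * th))
  rw [← rad_eq] at e
  rw [e, sqrt_div (rad_pos hA hB h).le, sqrt_sq hd.le]
  rfl

theorem w_pp (A B th : ℝ) : 8 / 3 * pp A B th = arctan (B * sin (8 / 3 * th) / (A + B * cos (8 / 3 * th))) := by
  unfold pp
  ring

theorem cos_pp (hA : 0 < A) (hB : 0 < B) (h : th ∈ Icc 0 l) :
    cos (8 / 3 * pp A B th) = (A + B * cos (8 / 3 * th)) / VV A B th := by
  rw [w_pp, cos_arctan, sqrt_one_add hA hB h, one_div_div]

theorem sin_pp (hA : 0 < A) (hB : 0 < B) (h : th ∈ Icc 0 l) :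
    sin (8 / 3 * pp A B th) = B * sin (8 / 3 * th) / VV A B th := by
  have hd := den_pos hA hB h
  have hv := VV_pos hA hB h
  rw [w_pp, sin_arctan, sqrt_one_add hA hB h, div_div_div_cancel_right₀ hd.ne']

theorem sin_qq (hA : 0 < A) (hB : 0 < B) (h : th ∈ Icc 0 l) :
    sin (8 / 3 * qq A B th) = A * sin (8 / 3 * th) / VV A B th := by
  have hv := VV_pos hA hB h
  unfold qq
  rw [mul_sub, sin_sub, cos_pp hA hB h, sin_pp hA hB h]
  generalize cos (8 / 3 * th) = x at *
  generalize sin (8 / 3 * th) = y at *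
  field_simp
  ring

theorem cos_qq (hA : 0 < A) (hB : 0 < B) (h : th ∈ Icc 0 l) :
    cos (8 / 3 * qq A B th) = (B + A * cos (8 / 3 * th)) / VV A B th := by
  have hv := VV_pos hA hB h
  have := sin_sq_add_cos_sq (8 / 3 * th)
  unfold qq
  rw [mul_sub, cos_sub, cos_pp hA hB h, sin_pp hA hB h]
  generalize cos (8 / 3 * th) = x at *
  generalize sin (8 / 3 * th) = y at *
  field_simp
  linear_combination B * this

/-- **the balance** -/
theorem bal (hA : 0 < A) (hB : 0 < B) (h : th ∈ Icc 0 l) :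
    A * sin (8 / 3 * pp A B th) = B * sin (8 / 3 * qq A B th) := by
  rw [sin_pp hA hB h, sin_qq hA hB h]
  ring

theorem VV_eq (hA : 0 < A) (hB : 0 < B) (h : th ∈ Icc 0 l) :
    A * cos (8 / 3 * pp A B th) + B * cos (8 / 3 * qq A B th) = VV A B th := by
  have hv := VV_pos hA hB h
  have e1 := VV_sq hA hB h
  rw [cos_pp hA hB h, cos_qq hA hB h]
  generalize cos (8 / 3 * th) = x at *
  generalize VV A B th = v at *
  field_simp
  rw [e1]
  ring

theorem pp_deriv (hA : 0 < A) (hB : 0 < B) (h : th ∈ Icc 0 l) :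
    HasDerivAt (pp A B) (B * cos (8 / 3 * qq A B th) / VV A B th) th := by
  have hd := den_pos hA hB h
  have hv := VV_pos hA hB h
  have h0 : HasDerivAt (fun th : ℝ => 8 / 3 * th) (8 / 3) th := by
    simpa using (hasDerivAt_id th).const_mul (8 / 3 : ℝ)
  have h1 : HasDerivAt (fun th : ℝ => B * sin (8 / 3 * th)) (B * (cos (8 / 3 * th) * (8 / 3))) th :=
    (h0.sin).const_mul B
  have h2 : HasDerivAt (fun th : ℝ => A + B * cos (8 / 3 * th)) (B * (-sin (8 / 3 * th) * (8 / 3))) th :=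
    ((h0.cos).const_mul B).const_add A
  have h3 := ((h1.div h2 hd.ne').arctan).const_mul (3 / 8 : ℝ)
  refine h3.congr_deriv ?_
  have e1 := VV_sq hA hB h
  have e2 := sin_sq_add_cos_sq (8 / 3 * th)
  have e3 : 1 + (B * sin (8 / 3 * th) / (A + B * cos (8 / 3 * th))) ^ 2 =
      VV A B th ^ 2 / (A + B * cos (8 / 3 * th)) ^ 2 := by
    rw [e1, rad_eq, one_add_sq hd]
  simp only [Pi.div_apply]
  rw [e3, cos_qq hA hB h]
  generalize cos (8 / 3 * th) = x at *
  generalize sin (8 / 3 * th) = y at *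
  generalize VV A B th = v at *
  field_simp
  linear_combination B * e2

theorem qq_deriv (hA : 0 < A) (hB : 0 < B) (h : th ∈ Icc 0 l) :
    HasDerivAt (qq A B) (1 - B * cos (8 / 3 * qq A B th) / VV A B th) th :=
  (hasDerivAt_id th).sub (pp_deriv hA hB h)

/-- the derivative of `VV` -/
def VV' (A B th : ℝ) : ℝ := -(8 / 3 * (A * B * sin (8 / 3 * th)) / VV A B th)

theorem VV_deriv (hA : 0 < A) (hB : 0 < B) (h : th ∈ Icc 0 l) : HasDerivAt (VV A B) (VV' A B th) th := by
  have hv := VV_pos hA hB h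
  have h0 : HasDerivAt (fun th : ℝ => 8 / 3 * th) (8 / 3) th := by
    simpa using (hasDerivAt_id th).const_mul (8 / 3 : ℝ)
  have h2 : HasDerivAt (fun th : ℝ => A ^ 2 + B ^ 2 + 2 * A * B * cos (8 / 3 * th))
      (2 * A * B * (-sin (8 / 3 * th) * (8 / 3))) th := ((h0.cos).const_mul _).const_add _
  refine (h2.sqrt (rad_pos hA hB h).ne').congr_deriv ?_
  unfold VV'
  show _ / (2 * VV A B th) = _
  generalize sin (8 / 3 * th) = y at *
  generalize VV A B th = v at *
  field_simp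

theorem VV'_nonpos (hA : 0 < A) (hB : 0 < B) (h : th ∈ Icc 0 l) : VV' A B th ≤ 0 := by
  have hv := VV_pos hA hB h
  have hs := sin_nn h
  unfold VV'
  rw [neg_nonpos]
  positivity

/-- the rate of the evolution in the form of one place -/
theorem kap_eq (hA : 0 < A) (hB : 0 < B) (h : th ∈ Icc 0 l) :
    VV' A B th / (4 * (8 / 3) * VV A B th) = -(B * sin (8 / 3 * qq A B th) / (4 * VV A B th)) := by
  have hv := VV_pos hA hB h
  rw [sin_qq hA hB h]
  unfold VV'
  generalize sin (8 / 3 * th) = y at *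
  generalize VV A B th = v at *
  field_simp

theorem pp_zero (A B : ℝ) : pp A B 0 = 0 := by simp [pp]

theorem qq_zero (A B : ℝ) : qq A B 0 = 0 := by simp [qq, pp_zero]

theorem VV_zero (hA : 0 < A) (hB : 0 < B) : VV A B 0 = A + B := by
  unfold VV
  rw [mul_zero, cos_zero, show A ^ 2 + B ^ 2 + 2 * A * B * 1 = (A + B) ^ 2 by ring, sqrt_sq (by positivity)]

theorem VV_l (A B : ℝ) : VV A B l = √(A ^ 2 + B ^ 2 + A * B) := by
  unfold VV
  rw [wl, cos_pi_div_three]
  congr 1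
  ring

theorem VV_low (hA : 0 < A) (hB : 0 < B) (h : th ∈ Icc 0 l) : B ≤ VV A B th := by
  have h1 := VV_sq hA hB h
  have h2 := cos_pos' h
  have hv := VV_pos hA hB h
  have h3 : 0 ≤ 2 * A * B * cos (8 / 3 * th) := by positivity
  refine le_of_sq_le_sq ?_ hv.le
  rw [h1]
  nlinarith [sq_nonneg A]

theorem VV_up (hA : 0 < A) (hB : 0 < B) (h : th ∈ Icc 0 l) : VV A B th ≤ A + B := by
  have h1 := VV_sq hA hB h
  have h2 := cos_le_one (8 / 3 * th)
  refine le_of_sq_le_sq ?_ (by positivity)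
  rw [h1]
  have : 2 * A * B * cos (8 / 3 * th) ≤ 2 * A * B * 1 := mul_le_mul_of_nonneg_left h2 (by positivity)
  nlinarith

/-! ### sizes of the places -/

theorem pp_nonneg (hA : 0 < A) (hB : 0 < B) (h : th ∈ Icc 0 l) : 0 ≤ pp A B th := by
  unfold pp
  have h1 := sin_nn h
  have h2 := den_pos hA hB h
  have : 0 ≤ arctan (B * sin (8 / 3 * th) / (A + B * cos (8 / 3 * th))) := arctan_nonneg.2 (by positivity)
  positivity

theorem qq_symm (hA : 0 < A) (hB : 0 < B) (h : th ∈ Icc 0 l) : qq A B th = pp B A th := by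
  -- both angles lie in `(-π/2, π/2)` and have the same sine and cosine
  have hV : VV B A th = VV A B th := by
    unfold VV
    congr 1
    ring
  have h1 : sin (8 / 3 * qq A B th) = sin (8 / 3 * pp B A th) := by
    rw [sin_qq hA hB h, sin_pp hB hA h, hV]
  have h2 : cos (8 / 3 * qq A B th) = cos (8 / 3 * pp B A th) := by
    rw [cos_qq hA hB h, cos_pp hB hA h, hV]
  have a1 := pp_nonneg hA hB h
  have a2 := pp_nonneg hB hA h
  have b1 : 8 / 3 * pp A B th < π / 2 := by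
    rw [w_pp]
    exact arctan_lt_pi_div_two _
  have b2 : 8 / 3 * pp B A th < π / 2 := by
    rw [w_pp]
    exact arctan_lt_pi_div_two _
  have c := ang h
  have c1 : 8 / 3 * qq A B th ∈ Icc (-(π / 2)) (π / 2) := by
    unfold qq
    constructor
    · nlinarith [c.1]
    · nlinarith [c.2, pi_pos]
  have c2 : 8 / 3 * pp B A th ∈ Icc (-(π / 2)) (π / 2) := ⟨by linarith [pi_pos], b2.le⟩
  have := injOn_sin c1 c2 h1
  linarith

theorem qq_nonneg (hA : 0 < A) (hB : 0 < B) (h : th ∈ Icc 0 l) : 0 ≤ qq A B th := by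
  rw [qq_symm hA hB h]
  exact pp_nonneg hB hA h

theorem pp_le (hA : 0 < A) (hB : 0 < B) (h : th ∈ Icc 0 l) : pp A B th ≤ th := by
  have := qq_nonneg hA hB h
  unfold qq at this
  linarith

/-- `A ≤ B` : the second kind of rows is nearer -/
theorem qq_le_pp (hA : 0 < A) (hAB : A ≤ B) (h : th ∈ Icc 0 l) : qq A B th ≤ pp A B th := by
  have hB : 0 < B := hA.trans_le hAB
  have hv := VV_pos hA hB h
  have hs := sin_nn h
  have h1 : sin (8 / 3 * qq A B th) ≤ sin (8 / 3 * pp A B th) := by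
    rw [sin_qq hA hB h, sin_pp hA hB h]
    gcongr
  have a1 := pp_nonneg hA hB h
  have a2 := qq_nonneg hA hB h
  have b1 : 8 / 3 * pp A B th < π / 2 := by
    rw [w_pp]
    exact arctan_lt_pi_div_two _
  have b2 : 8 / 3 * qq A B th < π / 2 := by
    rw [qq_symm hA hB h, w_pp]
    exact arctan_lt_pi_div_two _
  have := (strictMonoOn_sin.le_iff_le (a := 8 / 3 * qq A B th) (b := 8 / 3 * pp A B th)
    ⟨by linarith [pi_pos], b2.le⟩ ⟨by linarith [pi_pos], b1.le⟩).1 h1
  linarith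

theorem qq_le_half (hA : 0 < A) (hAB : A ≤ B) (h : th ∈ Icc 0 l) : qq A B th ≤ l / 2 := by
  have h1 := qq_le_pp hA hAB h
  have h2 : pp A B th + qq A B th = th := by
    unfold qq
    ring
  linarith [h.2]

end PLT.Pa

end
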