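import Pool.Agent.PLT.NrmL
import Pool.Agent.PLT.PathC
import Pool.Agent.PLT.RRat

/-!
# The bulk term on the two sides, the normaliser of the rows of a direction (helper17)

* `ku_vz` : `ku (vz a - vz b) = 2 rh (a - b)`;
* **`bulkG_bulkU`** : `bulkG V = bulkU x y p q` for `V ~ (x ++ y ++ [p, q]).map vz`;
* `nrmG_sh`, **`nrmG_bulkU`**;
* **`RC_cnt`** : the conditions of `nrmG_dir` for rows at `-pp`, `qq` with counts `(1 + q) k a0 + O(2)`, `(1 + q) k b0 + O(2)`.
-/

set_option autoImplicit false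

noncomputable section

open Complex Filter Topology

namespace PLT.Nr

open DRX
open NUP1 (l)
open PBR (rh rh_neg cc r2)
open Pool.Agent.NUBD (BD BD_shift)

variable {m M : ℕ}

/-! ### products over the pairs of a list -/

theorem PP_nil (f : ℂ → ℂ → ℂ) : PP f [] = 1 := rfl

theorem PP_map (f : ℂ → ℂ → ℂ) (g : ℂ → ℂ) : ∀ V : List ℂ, PP f (V.map g) = PP (fun a b => f (g a) (g b)) V
  | [] => rfl
  | v :: V => by
    rw [List.map_cons, PP_cons, PP_cons, PP_map f g V, List.map_map]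
    rfl

theorem PP_append (f : ℂ → ℂ → ℂ) (W : List ℂ) : ∀ V : List ℂ,
    PP f (V ++ W) = PP f V * PP f W * (V.map fun a => (W.map (f a)).prod).prod
  | [] => by simp [PP_nil]
  | v :: V => by
    rw [List.cons_append, PP_cons, PP_cons, PP_append f W V, List.map_append, List.prod_append, List.map_cons,
      List.prod_cons]
    ring

theorem PP_sq_two (r : ℂ → ℂ → ℂ) : ∀ V : List ℂ,
    PP (fun a b => (2 * r a b) ^ 2) V = 2 ^ (V.length * (V.length - 1)) * PP (fun a b => r a b ^ 2) V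
  | [] => by simp [PP_nil]
  | v :: V => by
    rw [PP_cons, PP_cons, PP_sq_two r V]
    have h : (V.map fun b => (2 * r v b) ^ 2).prod = 4 ^ V.length * (V.map fun b => r v b ^ 2).prod := by
      induction V with
      | nil => simp
      | cons w V ih =>
        rw [List.map_cons, List.prod_cons, ih, List.map_cons, List.prod_cons, List.length_cons, pow_succ]
        ring
    rw [h, List.length_cons, Nat.add_sub_cancel]
    have e : (2 : ℂ) ^ ((V.length + 1) * V.length) = 4 ^ V.length * 2 ^ (V.length * (V.length - 1)) := by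
      rw [show (4 : ℂ) = 2 ^ 2 by norm_num, ← pow_mul, ← pow_add]
      congr 1
      rcases Nat.eq_zero_or_pos V.length with h0 | h0
      · rw [h0]
      · obtain ⟨n, hn⟩ : ∃ n, V.length = n + 1 := ⟨V.length - 1, by omega⟩
        rw [hn, Nat.add_sub_cancel]
        ring
    rw [e]
    ring

theorem PP_ofFn {r : ℂ → ℂ → ℂ} (hr : ∀ a b, r a b = r b a) : ∀ (m : ℕ) (x : Fin m → ℂ),
    PP (fun a b => r a b ^ 2) (List.ofFn x) = ∏ i, ∏ j, if i = j then 1 else r (x i) (x j)
  | 0, x => by simp [PP_nil]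
  | m + 1, x => by
    rw [List.ofFn_succ, PP_cons, PP_ofFn hr m, List.map_ofFn, List.prod_ofFn, Fin.prod_univ_succ,
      Fin.prod_univ_succ (fun j => if (0 : Fin (m + 1)) = j then (1 : ℂ) else r (x 0) (x j)), if_pos rfl, one_mul]
    have h1 : ∀ i : Fin m, (∏ j : Fin (m + 1), if i.succ = j then (1 : ℂ) else r (x i.succ) (x j)) =
        r (x 0) (x i.succ) * ∏ j : Fin m, if i = j then (1 : ℂ) else r (x i.succ) (x j.succ) := by
      intro i
      rw [Fin.prod_univ_succ, if_neg (Fin.succ_ne_zero i), hr]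
      congr 1
      refine Finset.prod_congr rfl fun j _ => ?_
      simp only [Fin.succ_inj]
    simp only [h1]
    rw [Finset.prod_mul_distrib]
    have h2 : ∀ j : Fin m, (if (0 : Fin (m + 1)) = j.succ then (1 : ℂ) else r (x 0) (x j.succ)) =
        r (x 0) (x j.succ) := fun j => if_neg (Fin.succ_ne_zero j).symm
    simp only [h2, Function.comp_apply, Finset.prod_pow]
    ring

/-! ### the pair factor -/

theorem ku_vz (a b : ℂ) : ku (vz a - vz b) = 2 * rh (a - b) := by
  have e4 : cosh ((vz a - vz b) / 4) = cc (a - b) := by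
    unfold vz cc
    rw [show (-(8 / 3) * I * a - -(8 / 3) * I * b) / 4 = -(2 * (a - b) / 3 * I) by ring, cosh_neg, cosh_mul_I]
  have e8 : cosh ((vz a - vz b) / 8) = cos ((a - b) / 3) := by
    unfold vz
    rw [show (-(8 / 3) * I * a - -(8 / 3) * I * b) / 8 = -((a - b) / 3 * I) by ring, cosh_neg, cosh_mul_I]
  unfold ku rh
  rw [e4, e8]
  have hr : ((Real.sqrt 2 : ℝ) : ℂ) = r2 := rfl
  rw [hr]
  generalize cc (a - b) = c
  generalize cos ((a - b) / 3) = d
  have e1 : (2 * c + 1) * (2 * c + r2) = 2 * ((c + r2 / 2) * (2 * c + 1)) := by ring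
  have e2 : 4 * d * c * (4 * c ^ 2 + 2 * r2 * c - 1) =
      2 * (2 * ((4 * c ^ 2 + 2 * r2 * c - 1) * c * d)) := by ring
  rw [e1, e2, mul_div_mul_left _ _ two_ne_zero, mul_div_assoc]

theorem rh_symm (a b : ℂ) : rh (a - b) = rh (b - a) := by rw [← rh_neg, neg_sub]

/-! ### the bulk term -/

/-- all rows -/
def rowsL (x : Fin m → ℂ) (y : Fin M → ℂ) (p q : ℂ) : List ℂ := List.ofFn x ++ List.ofFn y ++ [p, q]

theorem rowsL_length (x : Fin m → ℂ) (y : Fin M → ℂ) (p q : ℂ) : (rowsL x y p q).length = m + M + 2 := by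
  simp [rowsL]
  omega

/-- **the bulk term of the rows on the two sides** -/
theorem bulkG_bulkU {x : Fin m → ℂ} {y : Fin M → ℂ} {p q : ℂ} {V : List ℂ} (hV : V.Perm ((rowsL x y p q).map vz)) :
    bulkG V = bulkU x y p q := by
  have hk : ∀ a b : ℂ, ku (a - b) ^ 2 = ku (b - a) ^ 2 := by
    intro a b
    have h : ∀ z : ℂ, ku (-z) = ku z := by
      intro z
      unfold ku
      rw [neg_div, neg_div, cosh_neg, cosh_neg]
    rw [← neg_sub b a, h]
  have h1 : bulkG V = bulkG ((rowsL x y p q).map vz) := by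
    unfold bulkG
    rw [hV.length_eq, PP_perm hk hV]
  rw [h1]
  unfold bulkG
  rw [PP_map, List.length_map, rowsL_length]
  have h2 : (fun a b : ℂ => ku (vz a - vz b) ^ 2) = fun a b => (2 * rh (a - b)) ^ 2 := by
    funext a b
    rw [ku_vz]
  rw [h2, PP_sq_two fun a b => rh (a - b), rowsL_length]
  have e1 : m + M + 2 - 1 = m + M + 1 := by omega
  rw [e1]
  unfold rowsL
  rw [PP_append, PP_append, PP_ofFn rh_symm, PP_ofFn rh_symm]
  have e2 : PP (fun a b => rh (a - b) ^ 2) [p, q] = rh (p - q) ^ 2 := by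
    rw [PP_cons, PP_cons, PP_nil]
    simp
  have e3 : ((List.ofFn x).map fun a => ((List.ofFn y).map fun b => rh (a - b) ^ 2).prod).prod =
      ∏ i, ∏ j, rh (x i - y j) ^ 2 := by
    rw [List.map_ofFn, List.prod_ofFn]
    refine Finset.prod_congr rfl fun i _ => ?_
    rw [Function.comp_apply, List.map_ofFn, List.prod_ofFn]
    rfl
  have e4 : ∀ {k : ℕ} (u : Fin k → ℂ), ((List.ofFn u).map fun a => (([p, q] : List ℂ).map fun b =>
      rh (a - b) ^ 2).prod).prod = ∏ i, (rh (p - u i) * rh (q - u i)) ^ 2 := by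
    intro k u
    rw [List.map_ofFn, List.prod_ofFn]
    refine Finset.prod_congr rfl fun i _ => ?_
    simp only [Function.comp_apply, List.map_cons, List.map_nil, List.prod_cons, List.prod_nil, mul_one]
    rw [rh_symm (u i) p, rh_symm (u i) q]
    ring
  rw [e2, e3, List.map_append, List.prod_append, e4, e4]
  unfold bulkU
  ring

/-! ### the normaliser -/

/-- **shift invariance of the normaliser** -/
theorem nrmG_sh {ι : Type*} (z : ι → ℂ) (X : List ι) (c : ℂ) : nrmG (fun i => z i + c) X = nrmG z X := by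
  unfold nrmG bulkG
  rw [BD_shift, List.length_map, List.length_map]
  have e : (X.map fun k => vz (z k + c)) = (X.map fun k => vz (z k)).map fun v => v + vz c := by
    rw [List.map_map]
    refine List.map_congr_left fun k _ => ?_
    rw [Function.comp_apply]
    unfold vz
    ring
  rw [e, PP_map]
  simp only [add_sub_add_right_eq_sub]

/-- **the normaliser with the bulk term of the other side** -/
theorem nrmG_bulkU {ι : Type*} {z : ι → ℂ} {X : List ι} {x : Fin m → ℂ} {y : Fin M → ℂ} {p q : ℂ}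
    (hX : (X.map z).Perm (rowsL x y p q)) :
    nrmG z X = 2 ^ ((m + M + 2) * (m + M + 1)) * ‖BD z X‖ ^ 2 / ‖bulkU x y p q‖ := by
  have hl : X.length = m + M + 2 := by
    have := hX.length_eq
    rwa [List.length_map, rowsL_length] at this
  have h1 : (X.map fun k => vz (z k)).Perm ((rowsL x y p q).map vz) := by
    have := hX.map vz
    rwa [List.map_map] at this
  unfold nrmG
  rw [bulkG_bulkU h1, hl]
  have e1 : m + M + 2 - 1 = m + M + 1 := by omega
  rw [e1]

/-! ### the rows of a direction -/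

open PLT.Pa (VV pp qq) in
/-- **the conditions of `nrmG_dir` for the rows of the direction `(a0, b0)`** -/
theorem RC_cnt {a0 b0 q k : ℕ} (ha : 1 ≤ a0) (hb : 1 ≤ b0) (hk : 1 ≤ k) {ι : Type*} {z : ι → ℂ} {X : List ι}
    {s : ι → Bool} (hz : ∀ i ∈ X, z i = if s i then ((-pp a0 b0 l : ℝ) : ℂ) else ((qq a0 b0 l : ℝ) : ℂ))
    (h1 : (1 + q) * (k * a0) ≤ X.countP s) (h1' : X.countP s ≤ (1 + q) * (k * a0) + 2)
    (h2 : (1 + q) * (k * b0) ≤ X.countP fun i => !s i) (h2' : (X.countP fun i => !s i) ≤ (1 + q) * (k * b0) + 2) :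
    RC ((a0 : ℝ) + b0 + 4) (((1 + q) * k : ℕ) * VV a0 b0 l) (X.map fun i => vz (z i)) := by
  have hA : (0 : ℝ) < a0 := by exact_mod_cast ha
  have hB : (0 : ℝ) < b0 := by exact_mod_cast hb
  have hB1 : (1 : ℝ) ≤ b0 := by exact_mod_cast hb
  have hl := NUP1.lpos
  have hll : l ∈ Set.Icc 0 l := ⟨hl.le, le_rfl⟩
  have hp0 := PLT.Pa.pp_nonneg hA hB hll
  have hq0 := PLT.Pa.qq_nonneg hA hB hll
  have hpl : pp a0 b0 l ≤ l := PLT.Pa.pp_le hA hB hll
  have hql : qq a0 b0 l ≤ l := by
    unfold PLT.Pa.qq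
    linarith
  have hwl : (8 / 3 : ℝ) * l = Real.pi / 3 := PLT.Pa.wl
  have hVlow := PLT.Pa.VV_low hA hB hll
  -- the sums
  have hsum : ∀ (f : ℂ → ℂ) (L : List ι), (∀ i ∈ L, z i = if s i then ((-pp a0 b0 l : ℝ) : ℂ) else
      ((qq a0 b0 l : ℝ) : ℂ)) → ((L.map fun i => vz (z i)).map f).sum =
        (L.countP s : ℂ) * f (vz ((-pp a0 b0 l : ℝ) : ℂ)) +
        ((L.countP fun i => !s i : ℕ) : ℂ) * f (vz ((qq a0 b0 l : ℝ) : ℂ)) := by
    intro f L
    induction L with
    | nil => simp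
    | cons i L ih =>
      intro h
      have hi := h i (List.mem_cons_self ..)
      have ih' := ih fun j hj => h j (List.mem_cons_of_mem _ hj)
      rw [List.map_cons, List.map_cons, List.sum_cons, ih', hi]
      cases hs : s i
      · rw [List.countP_cons_of_neg (by simp [hs]), List.countP_cons_of_pos (by simp [hs])]
        simp only [Bool.false_eq_true, if_false]
        push_cast
        ring
      · rw [List.countP_cons_of_pos (by simp [hs]), List.countP_cons_of_neg (by simp [hs])]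
        simp only [if_true]
        push_cast
        ring
  have hlen : X.length = X.countP s + X.countP fun i => !s i := by
    rw [List.length_eq_countP_add_countP s]
    congr 1
    exact List.countP_congr fun i _ => by simp
  -- the two exponentials
  have hkey : ∀ e : ℝ, e = 1 ∨ e = -1 → ‖((X.map fun i => vz (z i)).map fun v => exp (e * v)).sum -
      (((((1 + q) * k : ℕ) : ℝ) * VV a0 b0 l : ℝ) : ℂ)‖ ≤ 4 := by
    intro e he
    rw [hsum (fun v => exp (e * v)) X hz]
    obtain ⟨α, hα⟩ : ∃ α : ℕ, X.countP s = (1 + q) * (k * a0) + α := ⟨_, (Nat.add_sub_cancel' h1).symm⟩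
    obtain ⟨β, hβ⟩ : ∃ β : ℕ, (X.countP fun i => !s i) = (1 + q) * (k * b0) + β := ⟨_, (Nat.add_sub_cancel' h2).symm⟩
    rw [hα] at h1' ⊢
    rw [hβ] at h2' ⊢
    have hα2 : (α : ℝ) ≤ 2 := by
      have : α ≤ 2 := by omega
      exact_mod_cast this
    have hβ2 : (β : ℝ) ≤ 2 := by
      have : β ≤ 2 := by omega
      exact_mod_cast this
    have ep : exp (e * vz ((-pp a0 b0 l : ℝ) : ℂ)) = ((Real.cos (8 / 3 * pp a0 b0 l) : ℝ) : ℂ) +
        ((e * Real.sin (8 / 3 * pp a0 b0 l) : ℝ) : ℂ) * I := by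
      have h3 : (e : ℂ) * vz ((-pp a0 b0 l : ℝ) : ℂ) = ((e * (8 / 3 * pp a0 b0 l) : ℝ) : ℂ) * I := by
        unfold vz
        push_cast
        ring
      rw [h3, exp_mul_I, ← ofReal_cos, ← ofReal_sin]
      rcases he with he | he
      · rw [he, one_mul, one_mul]
      · rw [he, neg_one_mul, neg_one_mul, Real.cos_neg, Real.sin_neg]
    have eq' : exp (e * vz ((qq a0 b0 l : ℝ) : ℂ)) = ((Real.cos (8 / 3 * qq a0 b0 l) : ℝ) : ℂ) -
        ((e * Real.sin (8 / 3 * qq a0 b0 l) : ℝ) : ℂ) * I := by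
      have h3 : (e : ℂ) * vz ((qq a0 b0 l : ℝ) : ℂ) = ((-(e * (8 / 3 * qq a0 b0 l)) : ℝ) : ℂ) * I := by
        unfold vz
        push_cast
        ring
      rw [h3, exp_mul_I, ← ofReal_cos, ← ofReal_sin, Real.cos_neg, Real.sin_neg]
      rcases he with he | he
      · rw [he, one_mul, one_mul]
        push_cast
        ring
      · rw [he, neg_one_mul, neg_one_mul, Real.cos_neg, Real.sin_neg]
        push_cast
        ring
    have n1 : ‖exp (e * vz ((-pp a0 b0 l : ℝ) : ℂ))‖ = 1 := by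
      have h3 : (e : ℂ) * vz ((-pp a0 b0 l : ℝ) : ℂ) = ((e * (8 / 3 * pp a0 b0 l) : ℝ) : ℂ) * I := by
        unfold vz
        push_cast
        ring
      rw [h3, norm_exp_ofReal_mul_I]
    have n2 : ‖exp (e * vz ((qq a0 b0 l : ℝ) : ℂ))‖ = 1 := by
      have h3 : (e : ℂ) * vz ((qq a0 b0 l : ℝ) : ℂ) = ((-(e * (8 / 3 * qq a0 b0 l)) : ℝ) : ℂ) * I := by
        unfold vz
        push_cast
        ring
      rw [h3, norm_exp_ofReal_mul_I]
    have hV := PLT.Pa.VV_eq hA hB hll
    have hb' := PLT.Pa.bal hA hB hll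
    have hVc : ((VV a0 b0 l : ℝ) : ℂ) = a0 * ((Real.cos (8 / 3 * pp a0 b0 l) : ℝ) : ℂ) +
        b0 * ((Real.cos (8 / 3 * qq a0 b0 l) : ℝ) : ℂ) := by
      rw [← hV]
      push_cast
      ring
    have hbc : (a0 : ℂ) * ((Real.sin (8 / 3 * pp a0 b0 l) : ℝ) : ℂ) =
        b0 * ((Real.sin (8 / 3 * qq a0 b0 l) : ℝ) : ℂ) := by
      exact_mod_cast congrArg (fun x : ℝ => (x : ℂ)) hb'
    have main : (((1 + q) * (k * a0) + α : ℕ) : ℂ) * exp (e * vz ((-pp a0 b0 l : ℝ) : ℂ)) +
        (((1 + q) * (k * b0) + β : ℕ) : ℂ) * exp (e * vz ((qq a0 b0 l : ℝ) : ℂ)) -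
        (((((1 + q) * k : ℕ) : ℝ) * VV a0 b0 l : ℝ) : ℂ) =
        α * exp (e * vz ((-pp a0 b0 l : ℝ) : ℂ)) + β * exp (e * vz ((qq a0 b0 l : ℝ) : ℂ)) := by
      have h4 : (a0 : ℂ) * exp (e * vz ((-pp a0 b0 l : ℝ) : ℂ)) + b0 * exp (e * vz ((qq a0 b0 l : ℝ) : ℂ)) =
          ((VV a0 b0 l : ℝ) : ℂ) := by
        rw [ep, eq', hVc]
        push_cast
        push_cast at hbc
        linear_combination (e : ℂ) * I * hbc
      clear ep eq' n1 n2
      generalize exp (e * vz ((-pp a0 b0 l : ℝ) : ℂ)) = E1 at *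
      generalize exp (e * vz ((qq a0 b0 l : ℝ) : ℂ)) = E2 at *
      push_cast
      linear_combination (1 + (q : ℂ)) * k * h4
    rw [main]
    refine (norm_add_le _ _).trans ?_
    rw [norm_mul, norm_mul, n1, n2, mul_one, mul_one]
    have h5 : ‖(α : ℂ)‖ = α := by simp
    have h6 : ‖(β : ℂ)‖ = β := by simp
    rw [h5, h6]
    linarith
  refine ⟨?_, ?_, ?_, ?_, ?_⟩
  · intro v hv
    obtain ⟨i, hi, rfl⟩ := List.mem_map.1 hv
    rw [hz i hi, vz_im]
    split_ifs
    · rw [ofReal_re, show -(8 / 3 : ℝ) * -pp a0 b0 l = 8 / 3 * pp a0 b0 l by ring, abs_of_nonneg (by positivity),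
        ← hwl]
      linarith
    · rw [ofReal_re, show -(8 / 3 : ℝ) * qq a0 b0 l = -(8 / 3 * qq a0 b0 l) by ring, abs_neg,
        abs_of_nonneg (by positivity), ← hwl]
      linarith
  · intro v hv
    obtain ⟨i, hi, rfl⟩ := List.mem_map.1 hv
    rw [hz i hi, vz_re]
    split_ifs <;> simp
  · rw [List.length_map, hlen]
    have e1 : (((X.countP s + X.countP fun i => !s i : ℕ)) : ℝ) ≤ (((1 + q) * k : ℕ) : ℝ) * (a0 + b0) + 4 := by
      have : X.countP s + (X.countP fun i => !s i) ≤ (1 + q) * k * (a0 + b0) + 4 := by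
        calc X.countP s + (X.countP fun i => !s i) ≤ ((1 + q) * (k * a0) + 2) + ((1 + q) * (k * b0) + 2) :=
              add_le_add h1' h2'
          _ = _ := by ring
      exact_mod_cast this
    have e2 : (1 : ℝ) ≤ (((1 + q) * k : ℕ) : ℝ) := by
      have : 1 ≤ (1 + q) * k := Nat.one_le_iff_ne_zero.2 (Nat.mul_ne_zero (by omega) (by omega))
      exact_mod_cast this
    have e3 : (1 : ℝ) ≤ VV a0 b0 l := hB1.trans hVlow
    generalize (((1 + q) * k : ℕ) : ℝ) = K at *
    generalize VV (a0 : ℝ) b0 l = v at *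
    have e4 : (1 : ℝ) ≤ K * v := by nlinarith
    have e5 : K * (a0 + b0) ≤ K * v * (a0 + b0) := by
      have : K ≤ K * v := by nlinarith
      exact mul_le_mul_of_nonneg_right this (by positivity)
    nlinarith
  · have h7 := hkey 1 (Or.inl rfl)
    simp only [ofReal_one, one_mul] at h7
    have h8 : (4 : ℝ) ≤ (a0 : ℝ) + b0 + 4 := by linarith
    exact h7.trans h8
  · have h7 := hkey (-1) (Or.inr rfl)
    have h9 : ∀ v : ℂ, ((-1 : ℝ) : ℂ) * v = -v := fun v => by
      push_cast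
      ring
    simp only [h9] at h7
    have h8 : (4 : ℝ) ≤ (a0 : ℝ) + b0 + 4 := by linarith
    exact h7.trans h8

end PLT.Nr

end
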