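import Pool.Agent.PHK.Cell

/-!
# PLT/Cell8 (helper52): the kernel checker of `PHK/Cell` with the degree as a parameter

`cellOKD D P n c`: the entries have degree at most `D` (`D = 8 m + 1` on the lattice `1 / m`, `y = exp (-z / m)`);
`cell_soundD`, `reg_of_listD`: a chain of checked cells gives the form on the whole interval.
-/

set_option autoImplicit false

namespace PLT

open Finset PHK

/-- entry `i, j`: side conditions, Taylor polynomial divided by `t ^ (s i + s j)`, tail -/
def cellED (D : ℕ) (P : ℕ → ℕ → SP) (c : CellD) (i j : ℕ) : Bool × List ℤ × ℤ :=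
  let T := tms JJ0 c.r c.p D (P i j)
  ((P i j).all (fun a => decide (a.2 ≤ D)) && (T.1.take (c.se i + c.se j)).all (fun a => a == 0),
    T.1.drop (c.se i + c.se j), T.2)

/-- the check of a cell -/
def cellOKD (D : ℕ) (P : ℕ → ℕ → SP) (n : ℕ) (c : CellD) : Bool :=
  cellG (tabL n (cellED D P c)) (tabG (tabL n (cellED D P c)) c.S n) c n

/-- **soundness of the check** -/
theorem cell_soundD (D : ℕ) (P : ℕ → ℕ → SP) (n : ℕ) (c : CellD) (hc : cellOKD D P n c = true) {t : ℝ}
    (ht : |t| ≤ 1) (u : ℕ → ℝ) :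
    0 ≤ ∑ i ∈ range n, ∑ j ∈ range n, PHK.mt P (((c.p : ℝ) + t) / 2 ^ c.r) i j * u i * u j := by
  set tb := tabL n (cellED D P c) with htb
  set X := tabX tb c.S n with hX
  set G := tabG tb c.S n with hG
  have hgE : ∀ i < n, ∀ j ≤ i, gt (false, [], 0) tb i j = cellED D P c i j := fun i hi j hj =>
    gt_tabL _ _ hi hj
  change cellG tb G c n = true at hc
  unfold cellG at hc
  simp only [Bool.and_eq_true, List.all_eq_true, List.mem_range, decide_eq_true_eq] at hc
  set Y : ℝ := ((c.p : ℝ) + t) / 2 ^ c.r with hY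
  set Sc : ℝ := 2 ^ (c.r * D) with hSc
  have hSpos : 0 < Sc := by positivity
  -- the entries
  have hent : ∀ i < n, ∀ j ≤ i, ∃ x : ℝ, Ap (cellED D P c i j).2 x t ∧
      Sc * ev (P i j) Y = t ^ (c.se i + c.se j) * x := by
    intro i hi j hj
    have h1 := (hc i hi).1.2 j (by omega)
    rw [hgE i hi j hj] at h1
    simp only [cellED, Bool.and_eq_true] at h1
    obtain ⟨⟨hall, hz⟩, hsJ⟩ := h1
    set s := c.se i + c.se j with hs
    set R : ℝ := ((tms JJ0 c.r c.p D (P i j)).2 : ℝ) with hR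
    have hR0 : 0 ≤ R := tms_nonneg JJ0 c.r c.p D (P i j)
    have hb1 := tms_bound JJ0 c.r c.p D ht (P i j) hall
    have hd := pe_drop s (tms JJ0 c.r c.p D (P i j)).1 hz t
    set τ : ℝ := Sc * ev (P i j) Y - pe (tms JJ0 c.r c.p D (P i j)).1 t with hτ
    have hτb : |τ| ≤ |t| ^ s * R := by
      refine hb1.trans (mul_le_mul_of_nonneg_right ?_ hR0)
      exact pow_le_pow_of_le_one (abs_nonneg _) ht hsJ
    refine ⟨pe ((tms JJ0 c.r c.p D (P i j)).1.drop s) t + τ / t ^ s, ?_, ?_⟩
    · show |pe ((tms JJ0 c.r c.p D (P i j)).1.drop s) t + τ / t ^ s -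
        pe ((tms JJ0 c.r c.p D (P i j)).1.drop s) t| ≤ R
      rw [add_sub_cancel_left]
      by_cases h0 : t ^ s = 0
      · rw [h0, div_zero, abs_zero]; exact hR0
      · rw [abs_div, abs_pow, div_le_iff₀ (by rw [← abs_pow]; exact abs_pos.2 h0), mul_comm]
        exact hτb
    · have e1 : Sc * ev (P i j) Y = pe (tms JJ0 c.r c.p D (P i j)).1 t + τ := by
        simp only [hτ]; ring
      rw [e1, hd, mul_add]
      congr 1
      by_cases h0 : t ^ s = 0
      · have h1 : |τ| ≤ 0 := by
          have := hτb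
          rw [← abs_pow, h0, abs_zero, zero_mul] at this
          exact this
        rw [h0, zero_mul]
        exact abs_nonpos_iff.1 h1
      · field_simp
  choose! x hx hS1 using hent
  -- the symmetric matrix
  set Q : ℕ → ℕ → ℝ := fun i j => x (max i j) (min i j) with hQ
  have hQs : ∀ i j, Q i j = Q j i := fun i j => by simp only [hQ, max_comm i j, min_comm i j]
  have hQap : ∀ i < n, ∀ j < n, Ap ((gt (false, [], 0) tb (max i j) (min i j)).2) (Q i j) t := by
    intro i hi j hj
    rw [hgE _ (max_lt hi hj) _ (min_le_max)]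
    exact hx _ (max_lt hi hj) _ min_le_max
  set Sr : ℕ → ℕ → ℝ := fun i k => if i < n then (((c.S.getD i []).getD k 0 : ℤ) : ℝ) else 0 with hSr
  have hSlen : ∀ i < n, (c.S.getD i []).length = i + 1 := fun i hi => (hc i hi).1.1.1
  have hSr0 : ∀ i j, i < j → Sr i j = 0 := by
    intro i j hij
    simp only [hSr]
    split_ifs with hi
    · rw [List.getD_eq_default _ _ (by rw [hSlen i hi]; omega)]; simp
    · rfl
  -- first product
  set Xr : ℕ → ℕ → ℝ := fun i l => ∑ k ∈ range n, Sr i k * Q k l with hXr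
  have hcomb : ∀ i < n, ∀ (f : ℕ → List ℤ × ℤ) (z : ℕ → ℝ), (∀ k < n, Ap (f k) (z k) t) →
      Ap (comb (c.S.getD i []) 0 f) (∑ k ∈ range n, Sr i k * z k) t := by
    intro i hi f z hf
    have h1 := Ap_comb (t := t) (f := f) (x := z) (c.S.getD i []) 0 (fun m hm => by
      rw [zero_add]
      exact hf m (by rw [hSlen i hi] at hm; omega))
    rw [hSlen i hi] at h1
    have e : ∑ k ∈ range n, Sr i k * z k =
        ∑ m ∈ range (i + 1), (((c.S.getD i []).getD m 0 : ℤ) : ℝ) * z (0 + m) := by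
      rw [← Finset.sum_subset (Finset.range_mono (show i + 1 ≤ n by omega))]
      · refine Finset.sum_congr rfl fun m _ => ?_
        simp only [hSr]
        rw [if_pos hi, zero_add]
      · intro k _ hk
        rw [hSr0 i k (by simpa using hk), zero_mul]
    rw [e]
    exact h1
  have hXap : ∀ i < n, ∀ l < n, Ap (gt ([], 0) X i l) (Xr i l) t := by
    intro i hi l hl
    rw [hX, tabX, gt_tabQ _ _ hi hl]
    exact hcomb i hi _ (fun k => Q k l) fun k hk => hQap k hk l hl
  set Gr : ℕ → ℕ → ℝ := fun i j => ∑ l ∈ range n, Sr j l * Xr i l with hGr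
  have hGap : ∀ i < n, ∀ j ≤ i, Ap (gt ([], 0) G i j) (Gr i j) t := by
    intro i hi j hj
    rw [hG, tabG, gt_tabL _ _ hi hj]
    exact hcomb j (by omega) _ (fun l => Xr i l) fun l hl => hXap i hi l hl
  have hGs : ∀ i j, Gr i j = Gr j i := by
    intro i j
    simp only [hGr, hXr, Finset.mul_sum]
    rw [Finset.sum_comm]
    refine Finset.sum_congr rfl fun k _ => Finset.sum_congr rfl fun l _ => ?_
    rw [hQs k l]
    ring
  have hab : ∀ i < n, ∀ j ≤ i, |Gr i j| ≤ ((lab (gt ([], 0) G i j).1 + (gt ([], 0) G i j).2 : ℤ) : ℝ) := by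
    intro i hi j hj
    have h1 := hGap i hi j hj
    unfold Ap at h1
    have h2 := abs_pe_le (gt ([], 0) G i j).1 ht
    have e : Gr i j = (Gr i j - pe (gt ([], 0) G i j).1 t) + pe (gt ([], 0) G i j).1 t := by ring
    rw [e]
    refine (abs_add_le _ _).trans ?_
    push_cast
    linarith
  have hdd : ∀ i < n, ∑ j ∈ (range n).erase i, (1 : ℝ) * |Gr i j| ≤ (1 : ℝ) * Gr i i := by
    intro i hi
    have h1 := (hc i hi).2
    rw [rowS_eq] at h1
    have h2 := hGap i hi i le_rfl
    unfold Ap at h2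
    have h3 := llo_le (gt ([], 0) G i i).1 ht
    have h4 := neg_abs_le (Gr i i - pe (gt ([], 0) G i i).1 t)
    calc ∑ j ∈ (range n).erase i, (1 : ℝ) * |Gr i j|
        ≤ ∑ j ∈ (range n).erase i, ((lab (gt ([], 0) G (max i j) (min i j)).1 +
            (gt ([], 0) G (max i j) (min i j)).2 : ℤ) : ℝ) := by
          refine Finset.sum_le_sum fun j hj => ?_
          have hj' : j < n := Finset.mem_range.1 (Finset.mem_of_mem_erase hj)
          rw [one_mul]
          rcases le_total j i with h | h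
          · rw [max_eq_left h, min_eq_right h]
            exact hab i hi j h
          · rw [max_eq_right h, min_eq_left h, hGs i j]
            exact hab j hj' i h
      _ = ((∑ j ∈ (range n).erase i, (lab (gt ([], 0) G (max i j) (min i j)).1 +
            (gt ([], 0) G (max i j) (min i j)).2) : ℤ) : ℝ) := by
          push_cast; rfl
      _ ≤ ((llo (gt ([], 0) G i i).1 - (gt ([], 0) G i i).2 : ℤ) : ℝ) := by exact_mod_cast h1
      _ ≤ 1 * Gr i i := by push_cast; linarith
  -- the vector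
  obtain ⟨v, hv⟩ := tri_solve n Sr hSr0 (fun i hi => by
    have h1 := (hc i hi).1.1.2
    simp only [hSr]
    rw [if_pos hi]
    exact_mod_cast h1) (fun i => t ^ c.se i * u i)
  have hpsd := psd_of_dd n Gr (fun _ => 1) (fun _ _ => one_pos) hGs hdd v
  have hfin : Sc * ∑ i ∈ range n, ∑ j ∈ range n, PHK.mt P Y i j * u i * u j =
      ∑ i ∈ range n, ∑ j ∈ range n, Gr i j * v i * v j := by
    have e1 : Sc * ∑ i ∈ range n, ∑ j ∈ range n, PHK.mt P Y i j * u i * u j =
        ∑ k ∈ range n, ∑ l ∈ range n, Q k l * (t ^ c.se k * u k) * (t ^ c.se l * u l) := by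
      rw [Finset.mul_sum]
      refine Finset.sum_congr rfl fun i hi => ?_
      rw [Finset.mul_sum]
      refine Finset.sum_congr rfl fun j hj => ?_
      have hi' := Finset.mem_range.1 hi
      have hj' := Finset.mem_range.1 hj
      have h1 := hS1 (max i j) (max_lt hi' hj') (min i j) min_le_max
      have h2 : t ^ (c.se (max i j) + c.se (min i j)) = t ^ c.se i * t ^ c.se j := by
        rcases le_total j i with h | h
        · rw [max_eq_left h, min_eq_right h, pow_add]
        · rw [max_eq_right h, min_eq_left h, pow_add, mul_comm]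
      rw [h2] at h1
      simp only [PHK.mt, hQ]
      calc Sc * (ev (P (max i j) (min i j)) Y * u i * u j) =
          (Sc * ev (P (max i j) (min i j)) Y) * u i * u j := by ring
        _ = _ := by rw [h1]; ring
    rw [e1]
    have e2 : ∀ k ∈ range n, ∀ l ∈ range n, Q k l * (t ^ c.se k * u k) * (t ^ c.se l * u l) =
        ∑ i ∈ range n, ∑ j ∈ range n, (Sr i k * Sr j l * Q k l) * v i * v j := by
      intro k hk l hl
      rw [← hv k (Finset.mem_range.1 hk), ← hv l (Finset.mem_range.1 hl)]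
      rw [mul_assoc, Finset.sum_mul_sum, Finset.mul_sum]
      refine Finset.sum_congr rfl fun i _ => ?_
      rw [Finset.mul_sum]
      refine Finset.sum_congr rfl fun j _ => ?_
      ring
    rw [Finset.sum_congr rfl fun k hk => Finset.sum_congr rfl fun l hl => e2 k hk l hl]
    have e3 : ∀ i j, Gr i j * v i * v j = ∑ k ∈ range n, ∑ l ∈ range n, (Sr i k * Sr j l * Q k l) * v i * v j := by
      intro i j
      simp only [hGr, hXr, Finset.mul_sum, Finset.sum_mul]
      rw [Finset.sum_comm]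
      refine Finset.sum_congr rfl fun k _ => Finset.sum_congr rfl fun l _ => ?_
      ring
    simp_rw [e3]
    -- interchange the four sums
    have e4 : ∀ F : ℕ → ℕ → ℕ → ℕ → ℝ,
        ∑ k ∈ range n, ∑ l ∈ range n, ∑ i ∈ range n, ∑ j ∈ range n, F k l i j =
        ∑ i ∈ range n, ∑ j ∈ range n, ∑ k ∈ range n, ∑ l ∈ range n, F k l i j := by
      intro F
      calc ∑ k ∈ range n, ∑ l ∈ range n, ∑ i ∈ range n, ∑ j ∈ range n, F k l i j
          = ∑ k ∈ range n, ∑ i ∈ range n, ∑ l ∈ range n, ∑ j ∈ range n, F k l i j :=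
            Finset.sum_congr rfl fun k _ => Finset.sum_comm
        _ = ∑ i ∈ range n, ∑ k ∈ range n, ∑ l ∈ range n, ∑ j ∈ range n, F k l i j := Finset.sum_comm
        _ = ∑ i ∈ range n, ∑ k ∈ range n, ∑ j ∈ range n, ∑ l ∈ range n, F k l i j :=
            Finset.sum_congr rfl fun i _ => Finset.sum_congr rfl fun k _ => Finset.sum_comm
        _ = ∑ i ∈ range n, ∑ j ∈ range n, ∑ k ∈ range n, ∑ l ∈ range n, F k l i j :=
            Finset.sum_congr rfl fun i _ => Finset.sum_comm
    exact e4 fun k l i j => (Sr i k * Sr j l * Q k l) * v i * v j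
  have hpos : 0 ≤ Sc * ∑ i ∈ range n, ∑ j ∈ range n, PHK.mt P Y i j * u i * u j := by
    rw [hfin]; exact hpsd
  exact nonneg_of_mul_nonneg_right hpos hSpos

/-- consecutive cells are adjacent -/
def chainD : List CellD → Bool
  | [] => true
  | [_] => true
  | c :: c' :: L => decide ((c.p + 1) * 2 ^ c'.r = (c'.p - 1) * 2 ^ c.r) && decide (1 ≤ c'.p) &&
      chainD (c' :: L)

theorem cell_rangeD (D : ℕ) (P : ℕ → ℕ → SP) (n : ℕ) (c : CellD) (hc : cellOKD D P n c = true) {y : ℝ}
    (h0 : (((c.p : ℝ) - 1) / 2 ^ c.r) ≤ y) (h1 : y ≤ ((c.p : ℝ) + 1) / 2 ^ c.r) (u : ℕ → ℝ) :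
    0 ≤ ∑ i ∈ range n, ∑ j ∈ range n, PHK.mt P y i j * u i * u j := by
  have h2 : (0:ℝ) < 2 ^ c.r := by positivity
  rw [div_le_iff₀ h2] at h0
  rw [le_div_iff₀ h2] at h1
  have ht : |y * 2 ^ c.r - c.p| ≤ 1 := by
    rw [abs_le]; constructor <;> linarith
  have h3 := cell_soundD D P n c hc ht u
  have e : ((c.p : ℝ) + (y * 2 ^ c.r - c.p)) / 2 ^ c.r = y := by
    field_simp
    ring
  rwa [e] at h3

theorem reg_of_listD (D : ℕ) (P : ℕ → ℕ → SP) (n : ℕ) (c' : CellD) : ∀ (L : List CellD) (c : CellD)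
    (_ : (c :: L).all (cellOKD D P n) = true) (_ : chainD (c :: L) = true) (_ : 1 ≤ c.p)
    (_ : (c :: L).getLast? = some c') {y : ℝ}
    (_ : (((c.p : ℝ) - 1) / 2 ^ c.r) ≤ y) (_ : y ≤ ((c'.p : ℝ) + 1) / 2 ^ c'.r) (u : ℕ → ℝ),
    0 ≤ ∑ i ∈ range n, ∑ j ∈ range n, PHK.mt P y i j * u i * u j
  | [], c, hL, _, _, hl, y, h0, h1, u => by
      simp only [List.getLast?_singleton, Option.some.injEq] at hl
      subst hl
      exact cell_rangeD D P n c (by simpa using hL) h0 h1 u
  | d :: L, c, hL, hch, hc1, hl, y, h0, h1, u => by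
      simp only [List.all_cons, Bool.and_eq_true] at hL
      simp only [chainD, Bool.and_eq_true, decide_eq_true_eq] at hch
      by_cases hy : y ≤ ((c.p : ℝ) + 1) / 2 ^ c.r
      · exact cell_rangeD D P n c hL.1 h0 hy u
      · refine reg_of_listD D P n c' L d (by simpa using hL.2) hch.2 hch.1.2
          (by rw [List.getLast?_cons_cons] at hl; exact hl) ?_ h1 u
        have e : (((d.p : ℝ) - 1) / 2 ^ d.r) = ((c.p : ℝ) + 1) / 2 ^ c.r := by
          have h3 := hch.1.1
          have h4 : ((c.p : ℝ) + 1) * 2 ^ d.r = ((d.p : ℝ) - 1) * 2 ^ c.r := by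
            have : (((c.p + 1) * 2 ^ d.r : ℕ) : ℝ) = (((d.p - 1) * 2 ^ c.r : ℕ) : ℝ) := by rw [h3]
            rw [Nat.cast_mul, Nat.cast_mul, Nat.cast_sub hch.1.2] at this
            push_cast at this
            exact this
          rw [div_eq_div_iff (by positivity) (by positivity)]
          linarith
        rw [e]
        exact (not_le.1 hy).le

end PLT
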