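import Pool.Agent.PLT.FS
import Pool.Agent.PLT.PathC

/-!
# The derivative of the dislocated function along the path of contents (helper17)

* `Dr q x z i` : derivative in the row `i`; `gat` : the derivative along the common motion of a set of rows is the
  sum of the derivatives in the rows; `sum_Dr` : the sum over all the rows is `- ∂_z`;
* `cnt a b u v` : `a` rows at `u`, `b` rows at `v`; `Dr_right` : derivative in a row at `v`, cons form;
* **`path_deriv`** : along `cnt a b (-pp th) (qq th)` : `b * Dq + pp' * f_z`.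
-/

set_option autoImplicit false
set_option linter.unusedSectionVars false

noncomputable section

open Complex Filter Topology Set

namespace PLT.FS

open NUP1 (l lpos)
open Pool.Agent.PB
open Pool.Agent.PLX
open PBH (Hol2)

variable {m M : ℕ}

/-! ### calculus in two variables -/

theorem curve2 {W : Set (ℂ × ℂ)} (hW : IsOpen W) {f : ℂ → ℂ → ℂ} (h : Hol2 W f) {u v : ℝ → ℂ} {t : ℝ}
    (hp : (u t, v t) ∈ W) {u' v' d1 d2 : ℂ} (hu : HasDerivAt u u' t) (hv : HasDerivAt v v' t)
    (h1 : HasDerivAt (fun x => f x (v t)) d1 (u t)) (h2 : HasDerivAt (f (u t)) d2 (v t)) :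
    HasDerivAt (fun t => f (u t) (v t)) (d1 * u' + d2 * v') t := by
  have h3 := ((h.strict hW hp).hasFDerivAt.restrictScalars ℝ).comp_hasDerivAt t (hu.prodMk hv)
  refine h3.congr_deriv ?_
  simp only [h1.deriv, h2.deriv]
  simp [mul_comm]

theorem diag2 {W : Set (ℂ × ℂ)} (hW : IsOpen W) {f : ℂ → ℂ → ℂ} (h : Hol2 W f) {p : ℂ}
    (hp : (p, p) ∈ W) {d1 d2 : ℂ} (h1 : HasDerivAt (fun x => f x p) d1 p) (h2 : HasDerivAt (f p) d2 p) :
    HasDerivAt (fun x => f x x) (d1 + d2) p := by
  have h3 := (h.strict hW hp).hasFDerivAt.comp_hasDerivAt (f := fun x : ℂ => (x, x)) p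
    ((hasDerivAt_id p).prodMk (hasDerivAt_id p))
  refine h3.congr_deriv ?_
  simp only [h1.deriv, h2.deriv]
  simp

/-- rows depending on two parameters -/
theorem hol2_rows (q : ℕ) {c : ℝ} (hc : |c| ≤ 6 / 5 * l) {X : ℂ → ℂ → Fin m → ℂ}
    (hX : Continuous fun p : ℂ × ℂ => X p.1 p.2) (h1 : ∀ b i, Differentiable ℂ fun a => X a b i)
    (h2 : ∀ a i, Differentiable ℂ fun b => X a b i) {z : ℂ} (hz : |z.re| < 3 * l) :
    IsOpen {p : ℂ × ℂ | Ad c (X p.1 p.2)} ∧
      Hol2 {p : ℂ × ℂ | Ad c (X p.1 p.2)} (fun a b => fS q (X a b) z) := by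
  refine ⟨(Ad_open c hc).preimage hX, ⟨fun p hp => ?_, fun p hp => ?_, fun p hp => ?_⟩⟩
  · exact fS_tendsto q (F := 𝓝 p) (z := fun _ => z) (x := fun p : ℂ × ℂ => X p.1 p.2) tendsto_const_nhds
      (fun i => ((continuous_apply i).comp hX).tendsto p) hp hz
  · exact fS_hol q (z := fun _ => z) (x := fun a => X a p.2)
      (Eventually.of_forall fun _ => differentiableAt_const _)
      (Eventually.of_forall fun a i => (h1 p.2 i) a) hp hz
  · exact fS_hol q (z := fun _ => z) (x := fun b => X p.1 b)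
      (Eventually.of_forall fun _ => differentiableAt_const _)
      (Eventually.of_forall fun b i => (h2 p.1 i) b) hp hz

/-! ### derivatives in the rows -/

/-- the derivative in the row `i` -/
def Dr (q : ℕ) (x : Fin m → ℂ) (z : ℂ) (i : Fin m) : ℂ :=
  deriv (fun ξ => fS q (Function.update x i ξ) z) (x i)

theorem hasDerivAt_Dr (q : ℕ) {c : ℝ} {x : Fin m → ℂ} (hx : Ad c x) {z : ℂ} (hz : |z.re| < 3 * l) (i : Fin m) :
    HasDerivAt (fun ξ => fS q (Function.update x i ξ) z) (Dr q x z i) (x i) := by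
  refine DifferentiableAt.hasDerivAt ?_
  refine fS_hol q (z := fun _ => z) (x := fun ξ => Function.update x i ξ)
    (Eventually.of_forall fun _ => differentiableAt_const _) (Eventually.of_forall fun ξ j => ?_)
    (c := c) (by simpa using hx) hz
  by_cases h : j = i
  · subst h
    simp
  · simp [Function.update_of_ne h]

/-- rows of `S` moved by `ξ` -/
def mv (S : Finset (Fin m)) (x : Fin m → ℂ) (ξ : ℂ) : Fin m → ℂ := fun i => if i ∈ S then x i + ξ else x i

theorem mv_zero (S : Finset (Fin m)) (x : Fin m → ℂ) : mv S x 0 = x := by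
  funext i
  simp [mv]

/-- **common motion of a set of rows** -/
theorem gat (q : ℕ) {c : ℝ} {x : Fin m → ℂ} (hx : Ad c x) {z : ℂ} (hz : |z.re| < 3 * l)
    (S : Finset (Fin m)) : HasDerivAt (fun ξ => fS q (mv S x ξ) z) (∑ i ∈ S, Dr q x z i) 0 := by
  induction S using Finset.induction_on with
  | empty =>
    simp only [Finset.sum_empty]
    have : (fun ξ => fS q (mv (∅ : Finset (Fin m)) x ξ) z) = fun _ => fS q x z := by
      funext ξ
      congr 1
    rw [this]
    exact hasDerivAt_const _ _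
  | insert k S hk ih =>
    rw [Finset.sum_insert hk, add_comm]
    have hX : Continuous fun p : ℂ × ℂ => Function.update (mv S x p.1) k (x k + p.2) := by
      refine continuous_pi fun i => ?_
      by_cases h : i = k
      · subst h
        simp only [Function.update_self]
        fun_prop
      · simp only [Function.update_of_ne h, mv]
        split_ifs <;> fun_prop
    obtain ⟨hW, hH⟩ := hol2_rows q hx.le (X := fun a b => Function.update (mv S x a) k (x k + b)) hX
      (fun b i => by
        by_cases h : i = k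
        · subst h
          simp
        · simp only [Function.update_of_ne h, mv]
          split_ifs <;> fun_prop)
      (fun a i => by
        by_cases h : i = k
        · subst h
          simp only [Function.update_self]
          fun_prop
        · simp [Function.update_of_ne h]) hz
    have e0 : Function.update x k (x k) = x := Function.update_eq_self k x
    have key := diag2 hW hH (p := 0) (by
      show Ad c (Function.update (mv S x 0) k (x k + 0))
      rw [mv_zero, add_zero, e0]
      exact hx) (d1 := ∑ i ∈ S, Dr q x z i) (d2 := Dr q x z k) ?_ ?_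
    · refine key.congr_of_eventuallyEq (Eventually.of_forall fun ξ => ?_)
      show fS q (mv (insert k S) x ξ) z = fS q (Function.update (mv S x ξ) k (x k + ξ)) z
      congr 1
      funext i
      by_cases h : i = k
      · subst h
        simp [mv]
      · simp [mv, h]
    · refine ih.congr_of_eventuallyEq (Eventually.of_forall fun ξ => ?_)
      show fS q (Function.update (mv S x ξ) k (x k + 0)) z = fS q (mv S x ξ) z
      congr 1
      have : mv S x ξ k = x k := by simp [mv, hk]
      rw [add_zero, ← this, Function.update_eq_self]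
    · have h1 := hasDerivAt_Dr q hx hz k
      have h2 : HasDerivAt (fun ξ : ℂ => x k + ξ) 1 0 := (hasDerivAt_id 0).const_add _
      have h3 := HasDerivAt.comp (0 : ℂ) (h₂ := fun ξ => fS q (Function.update x k ξ) z)
        (h := fun ξ : ℂ => x k + ξ) (by rw [add_zero]; exact h1) h2
      rw [mul_one] at h3
      refine h3.congr_of_eventuallyEq (Eventually.of_forall fun ξ => ?_)
      show fS q (Function.update (mv S x 0) k (x k + ξ)) z = fS q (Function.update x k (x k + ξ)) z
      rw [mv_zero]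

/-- **the common shift** -/
theorem sum_Dr (q : ℕ) {c : ℝ} {x : Fin m → ℂ} (hx : Ad c x) {z : ℂ} (hz : |z.re| < 3 * l) :
    ∑ i, Dr q x z i = -deriv (fS q x) z := by
  have h1 := gat q hx hz Finset.univ
  have h2 : HasDerivAt (fun ξ : ℂ => fS q x (z - ξ)) (-deriv (fS q x) z) 0 := by
    have d : DifferentiableAt ℂ (fS q x) z := (fS_diff q hx).differentiableAt (isOpen_st.mem_nhds hz)
    have h3 : HasDerivAt (fun ξ : ℂ => z - ξ) (-1) 0 := by
      simpa using (hasDerivAt_id (0 : ℂ)).const_sub z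
    have h4 := HasDerivAt.comp (0 : ℂ) (h₂ := fS q x) (h := fun ξ : ℂ => z - ξ)
      (by rw [sub_zero]; exact d.hasDerivAt) h3
    rw [mul_neg, mul_one] at h4
    exact h4
  refine h1.unique (h2.congr_of_eventuallyEq ?_)
  have e1 : ∀ᶠ ξ : ℂ in 𝓝 0, Ad c (sh ξ x) := by
    have hc : Continuous fun ξ : ℂ => sh ξ x := by
      unfold sh
      fun_prop
    exact ((Ad_open c hx.le).preimage hc).mem_nhds (by
      show Ad c (sh 0 x)
      rw [sh_zero]
      exact hx)
  have e2 : ∀ᶠ ξ : ℂ in 𝓝 0, |(z - ξ).re| < 3 * l := by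
    have hc : Continuous fun ξ : ℂ => z - ξ := by fun_prop
    exact (isOpen_st.preimage hc).mem_nhds (by simpa using hz)
  have e3 : ∀ᶠ ξ : ℂ in 𝓝 0, |ξ.re| < 43 / 10 * l :=
    (isOpen_lt (by fun_prop) continuous_const).mem_nhds (by simpa using lpos)
  filter_upwards [e1, e2, e3] with ξ h1 h2 h3
  have h4 := fS_sh q (d := ξ) (z := z - ξ) hx h1 h2 (by simpa using hz) h3
  rw [sub_add_cancel] at h4
  rw [← h4]
  congr 1
  funext i
  simp [mv, sh]

/-! ### two clusters -/

/-- `a` rows at `u`, `b` rows at `v` -/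
def cnt (a b : ℕ) (u v : ℂ) : Fin (a + b) → ℂ := Fin.append (fun _ => u) (fun _ => v)

@[simp] theorem cnt_left (a b : ℕ) (u v : ℂ) (i : Fin a) : cnt a b u v (Fin.castAdd b i) = u := by
  simp [cnt]

@[simp] theorem cnt_right (a b : ℕ) (u v : ℂ) (i : Fin b) : cnt a b u v (Fin.natAdd a i) = v := by
  simp [cnt]

theorem cnt_cases {a b : ℕ} {p : ℂ → Prop} {u v : ℂ} (hu : p u) (hv : p v) (i : Fin (a + b)) :
    p (cnt a b u v i) := by
  refine Fin.addCases (fun i => ?_) (fun i => ?_) i
  · simpa using hu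
  · simpa using hv

theorem cnt_zero (a b : ℕ) : cnt a b 0 0 = fun _ => 0 := by
  funext i
  refine Fin.addCases (fun i => ?_) (fun i => ?_) i <;> simp

theorem cnt_cont (a b : ℕ) : Continuous fun p : ℂ × ℂ => cnt a b p.1 p.2 := by
  refine continuous_pi fun i => ?_
  refine Fin.addCases (fun i => ?_) (fun i => ?_) i
  · simpa using continuous_fst
  · simpa using continuous_snd

/-- the second cluster moved -/
theorem cnt_mv_right (a b : ℕ) (u v ξ : ℂ) :
    mv (Finset.univ.map (Fin.natAddEmb a)) (cnt a b u v) ξ = cnt a b u (v + ξ) := by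
  funext i
  refine Fin.addCases (fun i => ?_) (fun i => ?_) i
  · have : Fin.castAdd b i ∉ (Finset.univ.map (Fin.natAddEmb a) : Finset (Fin (a + b))) := by
      simp only [Finset.mem_map, Finset.mem_univ, true_and, Fin.natAddEmb_apply, not_exists]
      intro j h
      have := congrArg Fin.val h
      simp at this
      omega
    simp [mv, this]
  · have : Fin.natAdd a i ∈ (Finset.univ.map (Fin.natAddEmb a) : Finset (Fin (a + b))) := by
      simp
    simp [mv, this]

theorem cnt_mv_left (a b : ℕ) (u v ξ : ℂ) :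
    mv (Finset.univ.map (Fin.castAddEmb b)) (cnt a b u v) ξ = cnt a b (u + ξ) v := by
  funext i
  refine Fin.addCases (fun i => ?_) (fun i => ?_) i
  · have : Fin.castAdd b i ∈ (Finset.univ.map (Fin.castAddEmb b) : Finset (Fin (a + b))) := by
      simp
    simp [mv, this]
  · have : Fin.natAdd a i ∉ (Finset.univ.map (Fin.castAddEmb b) : Finset (Fin (a + b))) := by
      simp only [Finset.mem_map, Finset.mem_univ, true_and, Fin.castAddEmb_apply, not_exists]
      intro j h
      have := congrArg Fin.val h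
      simp at this
      omega
    simp [mv, this]

theorem cnt_val (a b : ℕ) (u v : ℂ) (j : Fin (a + b)) : cnt a b u v j = if j.val < a then u else v := by
  refine Fin.addCases (fun i => ?_) (fun i => ?_) j
  · simp
  · simp

theorem cons_cycle {m : ℕ} (ξ : ℂ) (g : Fin m → ℂ) (i j : Fin (m + 1)) (h : Fin (m + 1) → ℂ)
    (h1 : ∀ j, h (i.succAbove j) = g j) :
    (Fin.cons ξ g : Fin (m + 1) → ℂ) (i.cycleRange j) = Function.update h i ξ j := by
  rcases eq_or_ne j i with rfl | hj
  · rw [Fin.cycleRange_self, Function.update_self, Fin.cons_zero]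
  · obtain ⟨k, rfl⟩ := Fin.exists_succAbove_eq hj
    rw [Fin.cycleRange_succAbove, Function.update_of_ne hj, Fin.cons_succ, h1]

theorem update_right (q a b : ℕ) (u v ξ : ℂ) {z : ℂ} (hz : |z.re| < 3 * l) (i : Fin (b + 1)) :
    fS q (Function.update (cnt a (b + 1) u v) (Fin.natAdd a i) ξ) z =
      fS q (Fin.cons ξ (cnt a b u v) : Fin (a + b + 1) → ℂ) z := by
  rw [← fS_perm q (Fin.cons ξ (cnt a b u v) : Fin (a + b + 1) → ℂ) hz (Fin.cycleRange (Fin.natAdd a i))]
  have : (fun j => (Fin.cons ξ (cnt a b u v) : Fin (a + b + 1) → ℂ) ((Fin.cycleRange (Fin.natAdd a i)) j)) =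
      Function.update (cnt a (b + 1) u v) (Fin.natAdd a i) ξ := by
    funext j
    refine cons_cycle ξ (cnt a b u v) (Fin.natAdd a i) j (cnt a (b + 1) u v) fun k => ?_
    rw [cnt_val, cnt_val]
    have h2 : ((Fin.natAdd a i : Fin (a + b + 1)).succAbove k).val < a ↔ k.val < a := by
      unfold Fin.succAbove
      have h3 : (Fin.natAdd a i : Fin (a + b + 1)).val = a + i.val := rfl
      split_ifs with h
      · rfl
      · rw [Fin.lt_def, Fin.val_castSucc] at h
        rw [Fin.val_succ]
        omega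
    simp only [h2]
  exact congrArg (fun f : Fin (a + b + 1) → ℂ => fS q f z) this.symm

/-- the derivative in a row of the second cluster -/
theorem Dr_right (q : ℕ) (a b : ℕ) (u v : ℂ) {z : ℂ} (hz : |z.re| < 3 * l) (i : Fin (b + 1)) :
    Dr q (cnt a (b + 1) u v) z (Fin.natAdd a i) =
      deriv (fun ξ => fS q (Fin.cons ξ (cnt a b u v) : Fin (a + b + 1) → ℂ) z) v := by
  unfold Dr
  rw [cnt_right]
  congr 1
  funext ξ
  exact update_right q a b u v ξ hz i

/-- the derivative in a row at `v`, the other rows `cnt a b u v` -/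
def Dq (q a b : ℕ) (u v z : ℂ) : ℂ := deriv (fun ξ => fS q (Fin.cons ξ (cnt a b u v) : Fin (a + b + 1) → ℂ) z) v

theorem deriv_right (q a b : ℕ) {c : ℝ} {u v : ℂ} (h : Ad c (cnt a (b + 1) u v)) {z : ℂ} (hz : |z.re| < 3 * l) :
    HasDerivAt (fun v' => fS q (cnt a (b + 1) u v') z) (((b + 1 : ℕ) : ℂ) * Dq q a b u v z) v := by
  have h1 := gat q h hz (Finset.univ.map (Fin.natAddEmb a))
  simp only [cnt_mv_right] at h1
  rw [Finset.sum_map] at h1
  simp only [Fin.natAddEmb_apply] at h1
  have e1 : ∑ i : Fin (b + 1), Dr q (cnt a (b + 1) u v) z (Fin.natAdd a i) =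
      ((b + 1 : ℕ) : ℂ) * Dq q a b u v z := by
    rw [Finset.sum_congr rfl fun i _ => Dr_right q a b u v hz i, Finset.sum_const, Finset.card_univ,
      Fintype.card_fin, nsmul_eq_mul]
    rfl
  rw [e1] at h1
  have h2 : HasDerivAt (fun v' : ℂ => v' - v) 1 v := (hasDerivAt_id v).sub_const v
  have h3 := HasDerivAt.comp v (h₂ := fun ξ => fS q (cnt a (b + 1) u (v + ξ)) z)
    (h := fun v' : ℂ => v' - v) (by rw [sub_self]; exact h1) h2
  rw [mul_one] at h3
  refine h3.congr_of_eventuallyEq (Eventually.of_forall fun ξ => ?_)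
  show _ = fS q (cnt a (b + 1) u (v + (ξ - v))) z
  rw [add_sub_cancel]

theorem sum_clusters {a b : ℕ} (F : Fin (a + b) → ℂ) :
    ∑ i, F i = (∑ i : Fin a, F (Fin.castAdd b i)) + ∑ i : Fin b, F (Fin.natAdd a i) := Fin.sum_univ_add F

theorem deriv_left (q a b : ℕ) {c : ℝ} {u v : ℂ} (h : Ad c (cnt a (b + 1) u v)) {z : ℂ} (hz : |z.re| < 3 * l) :
    HasDerivAt (fun u' => fS q (cnt a (b + 1) u' v) z)
      (-deriv (fS q (cnt a (b + 1) u v)) z - ((b + 1 : ℕ) : ℂ) * Dq q a b u v z) u := by
  have h1 := gat q h hz (Finset.univ.map (Fin.castAddEmb (b + 1)))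
  simp only [cnt_mv_left] at h1
  rw [Finset.sum_map] at h1
  have e1 : ∑ i : Fin (b + 1), Dr q (cnt a (b + 1) u v) z (Fin.natAdd a i) =
      ((b + 1 : ℕ) : ℂ) * Dq q a b u v z := by
    rw [Finset.sum_congr rfl fun i _ => Dr_right q a b u v hz i, Finset.sum_const, Finset.card_univ,
      Fintype.card_fin, nsmul_eq_mul]
    rfl
  have e2 : ∑ i : Fin a, Dr q (cnt a (b + 1) u v) z (Fin.castAddEmb (b + 1) i) =
      -deriv (fS q (cnt a (b + 1) u v)) z - ((b + 1 : ℕ) : ℂ) * Dq q a b u v z := by
    rw [← sum_Dr q h hz, sum_clusters, e1]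
    simp
  rw [e2] at h1
  have h2 : HasDerivAt (fun u' : ℂ => u' - u) 1 u := (hasDerivAt_id u).sub_const u
  have h3 := HasDerivAt.comp u (h₂ := fun ξ => fS q (cnt a (b + 1) (u + ξ) v) z)
    (h := fun u' : ℂ => u' - u) (by rw [sub_self]; exact h1) h2
  rw [mul_one] at h3
  refine h3.congr_of_eventuallyEq (Eventually.of_forall fun ξ => ?_)
  show _ = fS q (cnt a (b + 1) (u + (ξ - u)) v) z
  rw [add_sub_cancel]

/-- **the derivative along a path of the two places** -/
theorem path_gen (q a b : ℕ) {c : ℝ} {u v : ℝ → ℂ} {t : ℝ} {u' v' : ℂ} (hu : HasDerivAt u u' t)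
    (hv : HasDerivAt v v' t) (h : Ad c (cnt a (b + 1) (u t) (v t))) {z : ℂ} (hz : |z.re| < 3 * l) :
    HasDerivAt (fun t => fS q (cnt a (b + 1) (u t) (v t)) z)
      ((-deriv (fS q (cnt a (b + 1) (u t) (v t))) z - ((b + 1 : ℕ) : ℂ) * Dq q a b (u t) (v t) z) * u' +
        ((b + 1 : ℕ) : ℂ) * Dq q a b (u t) (v t) z * v') t := by
  obtain ⟨hW, hH⟩ := hol2_rows q h.le (X := fun u v => cnt a (b + 1) u v) (cnt_cont a (b + 1))
    (fun v i => by
      refine Fin.addCases (fun i => ?_) (fun i => ?_) i <;> simp)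
    (fun u i => by
      refine Fin.addCases (fun i => ?_) (fun i => ?_) i <;> simp) hz
  exact curve2 hW hH h hu hv (deriv_left q a b h hz) (deriv_right q a b h hz)

/-! ### the path of a direction -/

open PLT.Pa

/-- the content of the path -/
def cth (A B : ℝ) (a b : ℕ) (th : ℝ) : Fin (a + b) → ℂ :=
  cnt a b ((-pp A B th : ℝ) : ℂ) ((qq A B th : ℝ) : ℂ)

theorem Ad_cth {A B th : ℝ} (hA : 0 < A) (hB : 0 < B) (h : th ∈ Icc 0 l) (a b : ℕ) :
    Ad ((pp A B th - qq A B th) / 2) (cth A B a b th) := by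
  have hl := lpos
  have h1 := pp_nonneg hA hB h
  have h2 := qq_nonneg hA hB h
  have h3 : pp A B th + qq A B th = th := by
    unfold qq
    ring
  refine ⟨?_, fun i => ?_⟩
  · rw [abs_le]
    constructor <;> linarith [h.2]
  · unfold cth
    rw [sh_apply]
    refine cnt_cases (p := fun w : ℂ => |(w + (((pp A B th - qq A B th) / 2 : ℝ) : ℂ)).re| < 3 / 5 * l) ?_ ?_ i
    · rw [← ofReal_add, ofReal_re, abs_lt]
      constructor <;> linarith [h.2]
    · rw [← ofReal_add, ofReal_re, abs_lt]
      constructor <;> linarith [h.2]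

/-- **the derivative along the path of contents of a direction** -/
theorem path_deriv (q a b : ℕ) {A B th : ℝ} (hA : 0 < A) (hB : 0 < B) (h : th ∈ Icc 0 l) {z : ℂ}
    (hz : |z.re| < 3 * l) :
    HasDerivAt (fun th => fS q (cth A B a (b + 1) th) z)
      (((b + 1 : ℕ) : ℂ) * Dq q a b ((-pp A B th : ℝ) : ℂ) ((qq A B th : ℝ) : ℂ) z +
        ((B * Real.cos (8 / 3 * qq A B th) / VV A B th : ℝ) : ℂ) * deriv (fS q (cth A B a (b + 1) th)) z) th := by
  have h1 : HasDerivAt (fun th => ((-pp A B th : ℝ) : ℂ))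
      ((-(B * Real.cos (8 / 3 * qq A B th) / VV A B th) : ℝ) : ℂ) th := (pp_deriv hA hB h).neg.ofReal_comp
  have h2 : HasDerivAt (fun th => ((qq A B th : ℝ) : ℂ))
      ((1 - B * Real.cos (8 / 3 * qq A B th) / VV A B th : ℝ) : ℂ) th := (qq_deriv hA hB h).ofReal_comp
  have h3 := path_gen q a b h1 h2 (Ad_cth hA hB h a (b + 1)) hz
  refine h3.congr_deriv ?_
  unfold cth
  push_cast
  ring

end PLT.FS

end
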