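import Pool.Agent.PLT.TwoC

/-!
# Two constants with an orthogonal slit

`f` analytic and `‖f‖ ≤ M` on the thin rectangle `Rc 0 b δ` around `[0, b]`; `‖f (i t)‖ ≤ ε` for real `|t| ≤ s0`, `|t| < δ`.
Then `‖f x‖ ≤ ε ^ ω * M ^ (1 - ω)` on `[0, b]`, `ω = ω (b, s0, δ) > 0`.

Proof: `ζ ↦ f (s sinh ζ)` and the three lines theorem give `[0, 3/4 s]`; then `TwoC.two_const`.
-/

set_option autoImplicit false

noncomputable section

open Complex Set

namespace PLT.TwoC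

theorem norm_sinh_le (z : ℂ) : ‖Complex.sinh z‖ ≤ Real.cosh z.re := by
  rw [Complex.sinh, Real.cosh_eq]
  have h1 : ‖Complex.exp z - Complex.exp (-z)‖ ≤ Real.exp z.re + Real.exp (-z.re) := by
    refine (norm_sub_le _ _).trans ?_
    rw [Complex.norm_exp, Complex.norm_exp, Complex.neg_re]
  rw [norm_div]
  have h2 : ‖(2 : ℂ)‖ = 2 := by norm_num
  rw [h2]
  exact div_le_div_of_nonneg_right h1 (by norm_num)

/-- **from the slit to the real axis** -/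
theorem slit_step {f : ℂ → ℂ} {s δ ε M : ℝ} (hs : 0 < s) (hsδ : 17 / 8 * s < δ) (hε0 : 0 < ε) (hεM : ε ≤ M)
    (hf : ∀ z : ℂ, ‖z‖ < δ → DifferentiableAt ℂ f z) (hM : ∀ z : ℂ, ‖z‖ < δ → ‖f z‖ ≤ M)
    (hε : ∀ t : ℝ, |t| ≤ s → ‖f (t * I)‖ ≤ ε) {x : ℝ} (h0 : 0 ≤ x) (h1 : x ≤ 3 / 4 * s) :
    ‖f x‖ ≤ ε ^ (1 / 2 : ℝ) * M ^ (1 / 2 : ℝ) := by
  have hMp : 0 < M := lt_of_lt_of_le hε0 hεM
  obtain ⟨L, hL⟩ : ∃ L, L = Real.log 4 := ⟨_, rfl⟩
  have hL0 : 0 < L := by rw [hL]; exact Real.log_pos (by norm_num)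
  have hc4 : Real.cosh L = 17 / 8 := by
    rw [Real.cosh_eq, Real.exp_neg, hL, Real.exp_log (by norm_num)]
    norm_num
  have hs2 : Real.sinh (L / 2) = 3 / 4 := by
    have : L / 2 = Real.log 2 := by
      rw [hL, show (4 : ℝ) = 2 ^ 2 by norm_num, Real.log_pow]
      push_cast
      ring
    rw [this, Real.sinh_eq, Real.exp_neg, Real.exp_log (by norm_num)]
    norm_num
  have hin : ∀ ζ : ℂ, ζ ∈ HadamardThreeLines.verticalClosedStrip 0 L → ‖(s : ℂ) * Complex.sinh ζ‖ < δ := by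
    intro ζ hζ
    rw [norm_mul, Complex.norm_real, Real.norm_eq_abs, abs_of_pos hs]
    have h2 := norm_sinh_le ζ
    have h3 : Real.cosh ζ.re ≤ Real.cosh L := by
      rw [Real.cosh_le_cosh, abs_of_nonneg hζ.1, abs_of_pos hL0]
      exact hζ.2
    rw [hc4] at h3
    calc s * ‖Complex.sinh ζ‖ ≤ s * (17 / 8) := by
          gcongr
          exact h2.trans h3
      _ < δ := by linarith
  have hdiff : ∀ ζ : ℂ, ζ ∈ HadamardThreeLines.verticalClosedStrip 0 L →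
      DifferentiableAt ℂ (fun ζ => f (s * Complex.sinh ζ)) ζ := by
    intro ζ hζ
    exact DifferentiableAt.comp ζ (g := f) (f := fun ζ => (s : ℂ) * Complex.sinh ζ) (hf _ (hin ζ hζ))
      (Complex.differentiable_sinh.differentiableAt.const_mul _)
  have hcl : closure (HadamardThreeLines.verticalStrip 0 L) ⊆ HadamardThreeLines.verticalClosedStrip 0 L := by
    refine closure_minimal (fun z hz => ⟨hz.1.le, hz.2.le⟩) ?_
    exact isClosed_Icc.preimage Complex.continuous_re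
  have hd : DiffContOnCl ℂ (fun ζ => f (s * Complex.sinh ζ)) (HadamardThreeLines.verticalStrip 0 L) := by
    refine DifferentiableOn.diffContOnCl fun ζ hζ => ?_
    exact (hdiff ζ (hcl hζ)).differentiableWithinAt
  have hB : BddAbove ((norm ∘ fun ζ => f (s * Complex.sinh ζ)) '' HadamardThreeLines.verticalClosedStrip 0 L) := by
    refine ⟨M, ?_⟩
    rintro _ ⟨ζ, hζ, rfl⟩
    exact hM _ (hin ζ hζ)
  -- the point
  obtain ⟨σ, hσ⟩ : ∃ σ, σ = Real.arsinh (x / s) := ⟨_, rfl⟩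
  have hσs : Real.sinh σ = x / s := by rw [hσ]; exact Real.sinh_arsinh _
  have hσ0 : 0 ≤ σ := by
    rw [← Real.sinh_nonneg_iff, hσs]
    positivity
  have hσ1 : σ ≤ L / 2 := by
    rw [← Real.sinh_le_sinh, hσs, hs2, div_le_iff₀ hs]
    exact h1
  have hpt : (s : ℂ) * Complex.sinh (σ : ℂ) = x := by
    rw [← Complex.ofReal_sinh, hσs, ← Complex.ofReal_mul]
    congr 1
    field_simp
  have hz : (σ : ℂ) ∈ HadamardThreeLines.verticalClosedStrip 0 L := by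
    refine ⟨?_, ?_⟩
    · rw [ofReal_re]; exact hσ0
    · rw [ofReal_re]; linarith
  have key := HadamardThreeLines.norm_le_interp_of_mem_verticalClosedStrip' (a := ε) (b := M) hL0 hz hd hB
    (fun ζ hζ => by
      have h2 : ζ.re = 0 := hζ
      have e : (s : ℂ) * Complex.sinh ζ = ((s * Real.sin ζ.im : ℝ) : ℂ) * I := by
        have e1 : ζ = (ζ.im : ℂ) * I := by
          conv_lhs => rw [← re_add_im ζ, h2]
          simp
        conv_lhs => rw [e1]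
        rw [Complex.sinh_mul_I, ← Complex.ofReal_sin]
        push_cast
        ring
      show ‖f (s * Complex.sinh ζ)‖ ≤ ε
      rw [e]
      refine hε _ ?_
      rw [abs_mul, abs_of_pos hs]
      have := Real.abs_sin_le_one ζ.im
      calc s * |Real.sin ζ.im| ≤ s * 1 := by gcongr
        _ = s := mul_one s)
    (fun ζ hζ => by
      have h2 : ζ.re = L := hζ
      exact hM _ (hin ζ ⟨by rw [h2]; exact hL0.le, by rw [h2]⟩))
  have e1 : ((σ : ℂ).re - 0) / (L - 0) = σ / L := by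
    rw [ofReal_re, sub_zero, sub_zero]
  rw [e1, hpt] at key
  refine key.trans ?_
  obtain ⟨r, hr'⟩ : ∃ r, r = σ / L := ⟨_, rfl⟩
  have r1 : r ≤ 1 / 2 := by
    rw [hr', div_le_iff₀ hL0]
    linarith
  rw [← hr']
  have h3 : (M / ε) ^ r ≤ (M / ε) ^ (1 / 2 : ℝ) :=
    Real.rpow_le_rpow_of_exponent_le (by rw [le_div_iff₀ hε0]; linarith) r1
  have h4 : ∀ r : ℝ, ε ^ (1 - r) * M ^ r = ε * (M / ε) ^ r := by
    intro r
    rw [Real.rpow_sub hε0, Real.rpow_one, Real.div_rpow hMp.le hε0.le]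
    ring
  have h5 := h4 (1 / 2)
  norm_num at h5
  rw [h4 r]
  refine (mul_le_mul_of_nonneg_left h3 hε0.le).trans (le_of_eq ?_)
  norm_num
  exact h5.symm

/-- **two constants, orthogonal slit** -/
theorem two_slit {b s0 δ : ℝ} (hb : 0 ≤ b) (hs0 : 0 < s0) (hδ : 0 < δ) : ∃ ω : ℝ, 0 < ω ∧ ω ≤ 1 ∧
    ∀ (f : ℂ → ℂ) (ε M : ℝ), 0 < ε → ε ≤ M → (∀ z ∈ Rc 0 b δ, DifferentiableAt ℂ f z) →
      (∀ z ∈ Rc 0 b δ, ‖f z‖ ≤ M) → (∀ t : ℝ, |t| ≤ s0 → |t| < δ → ‖f (t * I)‖ ≤ ε) →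
      ∀ x : ℝ, 0 ≤ x → x ≤ b → ‖f x‖ ≤ ε ^ ω * M ^ (1 - ω) := by
  obtain ⟨s, hs⟩ : ∃ s, s = min s0 (δ / 3) := ⟨_, rfl⟩
  have hsp : 0 < s := by rw [hs]; exact lt_min hs0 (by positivity)
  have hs1 : s ≤ s0 := by rw [hs]; exact min_le_left _ _
  have hs2 : s ≤ δ / 3 := by rw [hs]; exact min_le_right _ _
  obtain ⟨ω, hω0, hω1, key⟩ := two_const (a := 0) (b := b) (d := 3 / 4 * s) (δ := δ) (by positivity) hδ
  refine ⟨ω / 2, by positivity, by linarith, fun f ε M hε hεM hf hM hsl x h0 h1 => ?_⟩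
  have hMp : 0 < M := lt_of_lt_of_le hε hεM
  have hdisc : ∀ z : ℂ, ‖z‖ < δ → z ∈ Rc 0 b δ := by
    intro z hz
    have g1 := (Complex.abs_re_le_norm z).trans_lt hz
    have g2 := (Complex.abs_im_le_norm z).trans_lt hz
    obtain ⟨g3, g4⟩ := abs_lt.1 g1
    exact ⟨by linarith, by linarith, g2⟩
  have hst := fun (x : ℝ) (h0 : 0 ≤ x) => slit_step (f := f) hsp (by linarith) hε hεM
    (fun z hz => hf z (hdisc z hz)) (fun z hz => hM z (hdisc z hz))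
    (fun t ht => hsl t (ht.trans hs1) (by linarith [ht.trans hs2])) (x := x) h0
  have e0 : 0 < ε ^ (1 / 2 : ℝ) * M ^ (1 / 2 : ℝ) := by positivity
  have e1 : ε ^ (1 / 2 : ℝ) * M ^ (1 / 2 : ℝ) ≤ M := by
    calc ε ^ (1 / 2 : ℝ) * M ^ (1 / 2 : ℝ) ≤ M ^ (1 / 2 : ℝ) * M ^ (1 / 2 : ℝ) := by gcongr
      _ = M := by
          rw [← Real.rpow_add hMp]
          norm_num
  have h2 := key f (ε ^ (1 / 2 : ℝ) * M ^ (1 / 2 : ℝ)) M e0 e1 hf hM
    (fun x g0 _ g2 => hst x g0 (by linarith)) x h0 h1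
  refine h2.trans (le_of_eq ?_)
  rw [Real.mul_rpow (by positivity) (by positivity), ← Real.rpow_mul hε.le, ← Real.rpow_mul hMp.le]
  rw [show (1 / 2 : ℝ) * ω = ω / 2 by ring, mul_assoc, ← Real.rpow_add hMp]
  congr 2
  ring

/-- **orthogonal slit, powers** -/
theorem two_slitN {b s0 δ c : ℝ} (hb : 0 ≤ b) (hs0 : 0 < s0) (hδ : 0 < δ) (hc : 0 < c) :
    ∃ ep c' : ℝ, 0 < ep ∧ 0 < c' ∧ ∀ (f : ℂ → ℂ) (C N : ℝ), 0 < C → 1 ≤ N →
      (∀ z ∈ Rc 0 b δ, DifferentiableAt ℂ f z) → (∀ z ∈ Rc 0 b δ, ‖f z‖ ≤ C * N ^ ep) →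
      (∀ t : ℝ, |t| ≤ s0 → |t| < δ → ‖f (t * I)‖ ≤ C * N ^ (-c)) →
      ∀ x : ℝ, 0 ≤ x → x ≤ b → ‖f x‖ ≤ C * N ^ (-c') := by
  obtain ⟨ω, hω0, hω1, key⟩ := two_slit hb hs0 hδ
  refine ⟨c * ω / 2, c * ω / 2, by positivity, by positivity, fun f C N hC hN hf hM hsl x h0 h1 => ?_⟩
  have hNp : 0 < N := by linarith
  have p1 : 0 < N ^ (c * ω / 2) := Real.rpow_pos_of_pos hNp _
  have p2 : 0 < N ^ (-c) := Real.rpow_pos_of_pos hNp _
  have hle : C * N ^ (-c) ≤ C * N ^ (c * ω / 2) := by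
    have : -c ≤ c * ω / 2 := by
      have : 0 ≤ c * ω := by positivity
      linarith
    gcongr
  have h2 := key f (C * N ^ (-c)) (C * N ^ (c * ω / 2)) (by positivity) hle hf hM hsl x h0 h1
  refine h2.trans ?_
  rw [Real.mul_rpow hC.le p2.le, Real.mul_rpow hC.le p1.le, ← Real.rpow_mul hNp.le, ← Real.rpow_mul hNp.le]
  have e1 : C ^ ω * C ^ (1 - ω) = C := by
    rw [← Real.rpow_add hC, add_sub_cancel, Real.rpow_one]
  have e2 : N ^ (-c * ω) * N ^ (c * ω / 2 * (1 - ω)) = N ^ (-c * ω + c * ω / 2 * (1 - ω)) :=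
    (Real.rpow_add hNp _ _).symm
  have e3 : C ^ ω * N ^ (-c * ω) * (C ^ (1 - ω) * N ^ (c * ω / 2 * (1 - ω))) =
      C * N ^ (-c * ω + c * ω / 2 * (1 - ω)) := by
    rw [← e2]
    nth_rw 3 [← e1]
    ring
  rw [e3]
  have : -c * ω + c * ω / 2 * (1 - ω) ≤ -(c * ω / 2) := by
    have : 0 ≤ c * ω / 2 * ω := by positivity
    nlinarith
  gcongr

end PLT.TwoC

end
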