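import Pool.Agent.PLT.EvoF
import Pool.Agent.PLT.PathZ
import Pool.Agent.PLT.TwoI

/-!
# The relation at complex separation (helper17)

* `Fz q A B a b D z` : the dislocated function of `a` rows at `-pz D`, `b` rows at `qz D`, analytic in `(D, z)`;
* `Ez` : the defect of the heat equation in `D`; `Ez_eq` : in terms of the Ward defect of a row at `qz D`; `Ez_diff`,
  `Ez_bd` (Cauchy);
* `UBD`, `WIM` : upper bound for `|D| ≤ d1`, Ward identity on the imaginary segment; **`contE`** : the defect is small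
  for real `D ∈ [0, x1]`, `x1 = d1 / 8`.
-/

set_option autoImplicit false
set_option linter.unusedSectionVars false

noncomputable section

open Complex Filter Topology Set Metric

namespace PLT.FS

open NUP1 (l lpos)
open Pool.Agent.PLX (f0Q fQ FunO2)
open PBH (Hol2)
open PLT.Pa

variable {A B de : ℝ} {D z : ℂ}

/-- complex curves -/
theorem curve2z {W : Set (ℂ × ℂ)} (hW : IsOpen W) {f : ℂ → ℂ → ℂ} (h : Hol2 W f) {u v : ℂ → ℂ} {t : ℂ}
    (hp : (u t, v t) ∈ W) {u' v' d1 d2 : ℂ} (hu : HasDerivAt u u' t) (hv : HasDerivAt v v' t)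
    (h1 : HasDerivAt (fun x => f x (v t)) d1 (u t)) (h2 : HasDerivAt (f (u t)) d2 (v t)) :
    HasDerivAt (fun t => f (u t) (v t)) (d1 * u' + d2 * v') t := by
  have h3 := (h.strict hW hp).hasFDerivAt.comp_hasDerivAt (f := fun t : ℂ => (u t, v t)) t (hu.prodMk hv)
  refine h3.congr_deriv ?_
  simp only [h1.deriv, h2.deriv]
  simp [mul_comm]

theorem path_genz (q a b : ℕ) {c : ℝ} {u v : ℂ → ℂ} {t : ℂ} {u' v' : ℂ} (hu : HasDerivAt u u' t)
    (hv : HasDerivAt v v' t) (h : Ad c (cnt a (b + 1) (u t) (v t))) (hz : |z.re| < 3 * l) :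
    HasDerivAt (fun t => fS q (cnt a (b + 1) (u t) (v t)) z)
      ((-deriv (fS q (cnt a (b + 1) (u t) (v t))) z - ((b + 1 : ℕ) : ℂ) * Dq q a b (u t) (v t) z) * u' +
        ((b + 1 : ℕ) : ℂ) * Dq q a b (u t) (v t) z * v') t := by
  obtain ⟨hW, hH⟩ := hol2_rows q h.le (X := fun u v => cnt a (b + 1) u v) (cnt_cont a (b + 1))
    (fun v i => by
      refine Fin.addCases (fun i => ?_) (fun i => ?_) i <;> simp)
    (fun u i => by
      refine Fin.addCases (fun i => ?_) (fun i => ?_) i <;> simp) hz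
  exact curve2z hW hH h hu hv (deriv_left q a b h hz) (deriv_right q a b h hz)

/-- the content at complex separation -/
def cz (A B : ℝ) (a b : ℕ) (D : ℂ) : Fin (a + b) → ℂ := cnt a b (-pz A B D) (qz A B D)

theorem Ad_cz (hA : 0 < A) (hB : 0 < B) (hde : de ≤ 1 / 20) (h : D ∈ Nz de) (a b : ℕ) :
    Ad ((pz A B D).re - D.re / 2) (cz A B a b D) := by
  have h1 := l_gt
  have h2 := re_pz hA hB hde h
  have h3 : |D.re| ≤ l + 1 / 20 := by
    rw [abs_le]
    constructor <;> linarith [h.1, h.2.1]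
  refine ⟨h2.trans (by linarith), fun i => ?_⟩
  unfold cz
  rw [sh_apply]
  refine cnt_cases (p := fun w : ℂ => |(w + (((pz A B D).re - D.re / 2 : ℝ) : ℂ)).re| < 3 / 5 * l) ?_ ?_ i
  · rw [add_re, ofReal_re, neg_re, show -(pz A B D).re + ((pz A B D).re - D.re / 2) = -(D.re / 2) by ring, abs_neg,
      abs_div, abs_two]
    linarith
  · rw [add_re, ofReal_re, show (qz A B D).re = D.re - (pz A B D).re by rw [qz, sub_re],
      show D.re - (pz A B D).re + ((pz A B D).re - D.re / 2) = D.re / 2 by ring, abs_div, abs_two]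
    linarith

/-- **the dislocated function at complex separation** -/
def Fz (q : ℕ) (A B : ℝ) (a b : ℕ) (D z : ℂ) : ℂ := fS q (cz A B a b D) z

def WZ (de : ℝ) : Set (ℂ × ℂ) := {p | p.1 ∈ Nz de ∧ |p.2.re| < 3 * l}

theorem WZ_open (de : ℝ) : IsOpen (WZ de) :=
  ((Nz_open de).preimage continuous_fst).inter (isOpen_st.preimage continuous_snd)

theorem Fz_Hol2 (q : ℕ) (hA : 0 < A) (hB : 0 < B) (hde : de ≤ 1 / 20) (a b : ℕ) :
    Hol2 (WZ de) (Fz q A B a b) where
  cont p hp := by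
    refine fS_tendsto q (F := 𝓝 p) (z := fun p : ℂ × ℂ => p.2) (x := fun p : ℂ × ℂ => cz A B a b p.1)
      (continuous_snd.tendsto p) (fun i => ?_) (Ad_cz hA hB hde hp.1 a b) hp.2
    have h1 : Tendsto (fun p : ℂ × ℂ => -pz A B p.1) (𝓝 p) (𝓝 (-pz A B p.1)) :=
      ((pz_deriv hA hB hde hp.1).continuousAt.neg.tendsto).comp (continuous_fst.tendsto p)
    have h2 : Tendsto (fun p : ℂ × ℂ => qz A B p.1) (𝓝 p) (𝓝 (qz A B p.1)) :=
      ((qz_deriv hA hB hde hp.1).continuousAt.tendsto).comp (continuous_fst.tendsto p)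
    unfold cz
    refine Fin.addCases (fun i => ?_) (fun i => ?_) i
    · simpa using h1
    · simpa using h2
  d1 p hp := by
    have hev : ∀ᶠ D in 𝓝 p.1, D ∈ Nz de := (Nz_open de).mem_nhds hp.1
    refine fS_hol q (z := fun _ => p.2) (x := fun D => cz A B a b D)
      (Eventually.of_forall fun _ => differentiableAt_const _) ?_ (Ad_cz hA hB hde hp.1 a b) hp.2
    filter_upwards [hev] with D hD i
    unfold cz
    refine Fin.addCases (fun i => ?_) (fun i => ?_) i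
    · simpa using (pz_deriv hA hB hde hD).differentiableAt
    · simpa using (qz_deriv hA hB hde hD).differentiableAt
  d2 p hp := (fS_diff q (Ad_cz hA hB hde hp.1 a b)).differentiableAt (isOpen_st.mem_nhds hp.2)

/-- **the defect of the heat equation** -/
def Ez (q : ℕ) (A B : ℝ) (a b : ℕ) (D z : ℂ) : ℂ :=
  deriv (fun D => Fz q A B a b D z) D +
    B * sin (8 / 3 * qz A B D) / (4 * Vz A B D) * deriv (deriv (Fz q A B a b D)) z

theorem rate_diff (hA : 0 < A) (hB : 0 < B) (hde : de ≤ 1 / 20) (h : D ∈ Nz de) :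
    DifferentiableAt ℂ (fun D => B * sin (8 / 3 * qz A B D) / (4 * Vz A B D)) D := by
  have h1 := (qz_deriv hA hB hde h).differentiableAt
  have h2 := (Vz_deriv hA hB hde h).differentiableAt
  refine DifferentiableAt.div ?_ (h2.const_mul _) (mul_ne_zero (by norm_num) (Vz_ne _ _ _))
  exact ((h1.const_mul _).csin).const_mul _

theorem Ez_diff (q : ℕ) (hA : 0 < A) (hB : 0 < B) (hde : de ≤ 1 / 20) (a b : ℕ) (h : D ∈ Nz de)
    (hz : |z.re| < 3 * l) : DifferentiableAt ℂ (fun D => Ez q A B a b D z) D := by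
  have hW := WZ_open de
  have H := Fz_Hol2 (q := q) hA hB hde a b
  have h1 := (H.D1 hW).d1 (D, z) ⟨h, hz⟩
  have h2 := ((H.D2 hW).D2 hW).d1 (D, z) ⟨h, hz⟩
  unfold Ez
  exact h1.add ((rate_diff hA hB hde h).mul h2)

/-- **the defect from the Ward defect of a row at `qz`** -/
theorem Ez_eq (q : ℕ) (hA : 0 < A) (hB : 0 < B) (hde : de ≤ 1 / 20) {a b k : ℕ} (hb : ((b + 1 : ℕ) : ℂ) = k * B)
    (h : D ∈ Nz de) (hz : |z.re| < 3 * l) : Ez q A B a (b + 1) D z = B / Vz A B D *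
      (k * Vz A B D * Dq q a b (-pz A B D) (qz A B D) z +
        1 / 4 * sin (8 / 3 * qz A B D) * deriv (deriv (Fz q A B a (b + 1) D)) z +
        cos (8 / 3 * qz A B D) * deriv (Fz q A B a (b + 1) D) z) := by
  have h1 := path_genz (z := z) q a b (pz_deriv hA hB hde h).neg (qz_deriv hA hB hde h)
    (Ad_cz hA hB hde h a (b + 1)) hz
  have h2 : deriv (fun D => Fz q A B a (b + 1) D z) D = _ := h1.deriv
  have hv := Vz_ne A B D
  unfold Ez
  rw [h2, hb]
  have e : fS q (cnt a (b + 1) ((-pz A B) D) (qz A B D)) = Fz q A B a (b + 1) D := rfl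
  rw [e]
  have e' : (-pz A B) D = -pz A B D := rfl
  rw [e']
  generalize Dq q a b (-pz A B D) (qz A B D) z = d
  generalize deriv (deriv (Fz q A B a (b + 1) D)) z = f2
  generalize deriv (Fz q A B a (b + 1) D) z = f1
  generalize sin (8 / 3 * qz A B D) = s
  generalize cos (8 / 3 * qz A B D) = co
  generalize Vz A B D = V at *
  field_simp
  ring

/-- Cauchy bounds -/
theorem Ez_bd (q : ℕ) (hA : 0 < A) (hB : 0 < B) (hde : de ≤ 1 / 20) (a b : ℕ) {r M K : ℝ} (hr : 0 < r)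
    (hD : ∀ D' ∈ closedBall D r, D' ∈ Nz de) (hz : |z.re| + r < 3 * l)
    (hM : ∀ D' ∈ closedBall D r, ∀ z' ∈ closedBall z r, ‖Fz q A B a b D' z'‖ ≤ M)
    (hK : ‖B * sin (8 / 3 * qz A B D) / (4 * Vz A B D)‖ ≤ K) :
    ‖Ez q A B a b D z‖ ≤ (1 / r + 4 * K / r ^ 2) * M := by
  have hW := WZ_open de
  have H := Fz_Hol2 (q := q) hA hB hde a b
  have hDm : D ∈ closedBall D r := mem_closedBall_self hr.le
  have hzm : z ∈ closedBall z r := mem_closedBall_self hr.le
  have hM0 : 0 ≤ M := (norm_nonneg _).trans (hM D hDm z hzm)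
  have hK0 : 0 ≤ K := (norm_nonneg _).trans hK
  have hre : ∀ z' ∈ closedBall z r, |z'.re| < 3 * l := by
    intro z' hz'
    rw [mem_closedBall, dist_eq_norm] at hz'
    have h1 := (abs_re_le_norm (z' - z)).trans hz'
    rw [sub_re] at h1
    have h2 := abs_add_le z.re (z'.re - z.re)
    rw [add_sub_cancel] at h2
    linarith
  have b1 : ‖deriv (fun D => Fz q A B a b D z) D‖ ≤ M / r :=
    H.bd1 (p := (D, z)) hr (fun x hx => ⟨hD x hx, hre z hzm⟩)
      (fun x hx => hM x (sphere_subset_closedBall hx) z hzm)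
  have b2 : ∀ z' ∈ closedBall z (r / 2), ‖deriv (Fz q A B a b D) z'‖ ≤ M / (r / 2) := by
    intro z' hz'
    have hsub : closedBall z' (r / 2) ⊆ closedBall z r := by
      intro w hw
      rw [mem_closedBall] at hw hz' ⊢
      linarith [dist_triangle w z' z]
    exact H.bd2 (p := (D, z')) (by positivity) (fun w hw => ⟨hD D hDm, hre w (hsub hw)⟩)
      (fun w hw => hM D hDm w (hsub (sphere_subset_closedBall hw)))
  have b3 : ‖deriv (deriv (Fz q A B a b D)) z‖ ≤ M / (r / 2) / (r / 2) :=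
    (H.D2 hW).bd2 (p := (D, z)) (by positivity) (fun w hw => ⟨hD D hDm, hre w (by
      rw [mem_closedBall] at hw ⊢
      linarith)⟩) (fun w hw => b2 w (sphere_subset_closedBall hw))
  unfold Ez
  refine (norm_add_le _ _).trans ?_
  rw [norm_mul]
  have e1 : M / (r / 2) / (r / 2) = 4 * M / r ^ 2 := by
    field_simp
    ring
  rw [e1] at b3
  calc _ ≤ M / r + K * (4 * M / r ^ 2) :=
        add_le_add b1 (mul_le_mul hK b3 (norm_nonneg _) hK0)
    _ = _ := by ring

/-! ### the literals -/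

/-- the content of size `k` -/
def fz (q a0 b0 k : ℕ) (D z : ℂ) : ℂ := Fz q a0 b0 (k * a0) (k * b0) D z

/-- **the upper bound at complex separation** `|D| ≤ d1` -/
def UBD (q a0 b0 : ℕ) (d1 : ℝ) : Prop := ∀ ε : ℝ, 0 < ε → ∀ᶠ k : ℕ in atTop, ∀ D : ℂ, ‖D‖ ≤ d1 → ∀ z : ℂ,
  -(2 / 5 * l) ≤ z.re → z.re ≤ 1 / 5 * l → |z.im| ≤ 9 / 80 * Real.log k + 1 →
  ‖fz q a0 b0 k D z‖ ≤ (k : ℝ) ^ ε * Real.exp (2 * |z.im|)

/-- **the Ward identity on the imaginary segment**, one row at `qz (I s) = I qs`, all rows on the imaginary axis -/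
def WIM (q a0 b0 : ℕ) (c e0 d1 : ℝ) : Prop := ∃ C : ℝ, ∀ᶠ k : ℕ in atTop, ∀ s : ℝ, |s| ≤ d1 → ∀ τ : ℝ,
  |τ| ≤ e0 * Real.log k → ∀ b : ℕ, b + 1 = k * b0 →
  ‖(k : ℂ) * (Vs a0 b0 s : ℂ) * Dq q (k * a0) b (-(I * (ps a0 b0 s : ℂ))) (I * (qs a0 b0 s : ℂ)) (I * τ) +
      1 / 4 * sin (8 / 3 * (I * (qs a0 b0 s : ℂ))) * deriv (deriv (fz q a0 b0 k (I * s))) (I * τ) +
      cos (8 / 3 * (I * (qs a0 b0 s : ℂ))) * deriv (fz q a0 b0 k (I * s)) (I * τ)‖ ≤
    C * (k : ℝ) ^ (-c) * Real.exp (C * |τ|)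

theorem ball_Nz {d1 : ℝ} (h1 : d1 ≤ 1 / 40) {D : ℂ} (h : ‖D‖ ≤ d1) : D ∈ Nz (1 / 20) := by
  have hl := l_gt
  obtain ⟨k1, k2⟩ := abs_le.1 ((abs_re_le_norm D).trans h)
  have k3 := (abs_im_le_norm D).trans h
  exact ⟨by linarith, by linarith, by linarith⟩

/-- **(E1): the defect is small for small real separation** -/
theorem contE {q a0 b0 : ℕ} (ha : 1 ≤ a0) (hb : 1 ≤ b0) {c e0 d1 : ℝ} (hc : 0 < c) (he0 : 0 < e0)
    (hd1 : 0 < d1) (hd1' : d1 ≤ 1 / 40) (hW : WIM q a0 b0 c e0 d1) (hU : UBD q a0 b0 d1) :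
    ∃ c' : ℝ, 0 < c' ∧ ∃ e1 : ℝ, 0 < e1 ∧ ∃ C : ℝ, 0 < C ∧ ∀ᶠ k : ℕ in atTop, ∀ th ∈ Icc 0 (d1 / 8), ∀ τ : ℝ,
      |τ| ≤ e1 * Real.log k → ‖Ez q a0 b0 (k * a0) (k * b0) (th : ℂ) (I * τ)‖ ≤ C * (k : ℝ) ^ (-c') := by
  have hl := l_gt
  have hA : (0 : ℝ) < a0 := by exact_mod_cast ha
  have hB : (0 : ℝ) < b0 := by exact_mod_cast hb
  obtain ⟨CW, hW⟩ := hW
  -- the rate is bounded
  obtain ⟨K, hK⟩ := (isCompact_closedBall (0 : ℂ) d1).exists_bound_of_continuousOn
    (f := fun D => (b0 : ℝ) * sin (8 / 3 * qz a0 b0 D) / (4 * Vz a0 b0 D)) fun D hD =>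
      ((rate_diff hA hB le_rfl (ball_Nz hd1' (by simpa using hD))).continuousAt).continuousWithinAt
  have hK0 : 0 ≤ K := (norm_nonneg _).trans (hK 0 (mem_closedBall_self hd1.le))
  -- two constants
  obtain ⟨ep, c', hep, hc', key⟩ := PLT.TwoC.two_slitN (b := d1 / 8) (s0 := d1 / 4) (δ := d1 / 4) (c := c / 2)
    (by positivity) (by positivity) (by positivity) (by positivity)
  obtain ⟨r, hr⟩ : ∃ r : ℝ, r = d1 / 4 := ⟨_, rfl⟩
  have hr0 : 0 < r := by
    rw [hr]
    positivity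
  obtain ⟨C0, hC0⟩ : ∃ C0 : ℝ, C0 = (1 / r + 4 * K / r ^ 2) * Real.exp (2 * r) + |CW| + 1 := ⟨_, rfl⟩
  have hC0p : 0 < C0 := by
    rw [hC0]
    positivity
  obtain ⟨e1, he1⟩ : ∃ e1 : ℝ, e1 = min (min e0 (1 / 40)) (min (ep / 4) (c / (2 * (|CW| + 1)))) := ⟨_, rfl⟩
  have he1p : 0 < e1 := by
    rw [he1]
    exact lt_min (lt_min he0 (by norm_num)) (lt_min (by positivity) (by positivity))
  have g1 : e1 ≤ e0 := by
    rw [he1]
    exact (min_le_left _ _).trans (min_le_left _ _)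
  have g2 : e1 ≤ 1 / 40 := by
    rw [he1]
    exact (min_le_left _ _).trans (min_le_right _ _)
  have g3 : e1 ≤ ep / 4 := by
    rw [he1]
    exact (min_le_right _ _).trans (min_le_left _ _)
  have g4 : |CW| * e1 ≤ c / 2 := by
    have : e1 ≤ c / (2 * (|CW| + 1)) := by
      rw [he1]
      exact (min_le_right _ _).trans (min_le_right _ _)
    calc |CW| * e1 ≤ (|CW| + 1) * e1 := mul_le_mul_of_nonneg_right (by linarith) he1p.le
      _ ≤ (|CW| + 1) * (c / (2 * (|CW| + 1))) := mul_le_mul_of_nonneg_left this (by positivity)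
      _ = c / 2 := by
          field_simp
  refine ⟨c', hc', e1, he1p, C0, hC0p, ?_⟩
  filter_upwards [hW, hU (ep / 2) (by positivity), eventually_ge_atTop 2] with k w u hk2 th hth τ hτ
  have hk2' : (2 : ℝ) ≤ k := by exact_mod_cast hk2
  have hk1 : (1 : ℝ) ≤ k := by linarith
  have hk0 : (0 : ℝ) < k := by linarith
  have hlk : 0 < Real.log k := Real.log_pos (by linarith)
  have hkpos : ∀ x : ℝ, 0 < (k : ℝ) ^ x := fun x => Real.rpow_pos_of_pos hk0 x
  have hkp : ∀ {x y : ℝ}, x ≤ y → (k : ℝ) ^ x ≤ (k : ℝ) ^ y := fun h =>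
    Real.rpow_le_rpow_of_exponent_le hk1 h
  have hexp : ∀ x : ℝ, Real.exp (x * Real.log k) = (k : ℝ) ^ x := fun x => by
    rw [Real.rpow_def_of_pos hk0, mul_comm]
  obtain ⟨b, hb1⟩ : ∃ b : ℕ, b + 1 = k * b0 := ⟨k * b0 - 1, by
    have : 1 ≤ k * b0 := Nat.one_le_iff_ne_zero.2 (Nat.mul_ne_zero (by omega) (by omega))
    omega⟩
  have hbk : ((b + 1 : ℕ) : ℂ) = (k : ℂ) * ((b0 : ℝ) : ℂ) := by
    rw [hb1]
    push_cast
    ring
  have him : (I * (τ : ℂ)).im = τ := by simp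
  have hre : (I * (τ : ℂ)).re = 0 := by simp
  -- the rectangle lies in the disc
  have hrect : ∀ D ∈ PLT.TwoC.Rc 0 (d1 / 8) (d1 / 4), ‖D‖ ≤ d1 / 2 := by
    intro D hD
    have h1 : |D.re| ≤ 3 / 8 * d1 := by
      rw [abs_le]
      constructor <;> linarith [hD.1, hD.2.1]
    have h2 := hD.2.2
    have h3 : ‖D‖ ^ 2 = D.re ^ 2 + D.im ^ 2 := by
      rw [Complex.sq_norm, normSq_apply]
      ring
    have h4 : D.re ^ 2 ≤ (3 / 8 * d1) ^ 2 := sq_le_sq' (by linarith [(abs_le.1 h1).1]) (abs_le.1 h1).2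
    have h5 : D.im ^ 2 ≤ (d1 / 4) ^ 2 := sq_le_sq' (by linarith [(abs_lt.1 h2).1]) (abs_lt.1 h2).2.le
    refine le_of_sq_le_sq ?_ (by positivity)
    rw [h3]
    nlinarith
  refine key (fun D => Ez q a0 b0 (k * a0) (k * b0) D (I * τ)) C0 k hC0p hk1 (fun D hD => ?_) (fun D hD => ?_)
    (fun t ht1 ht2 => ?_) th hth.1 hth.2
  · exact Ez_diff q hA hB le_rfl _ _ (ball_Nz hd1' ((hrect D hD).trans (by linarith))) (re_I τ)
  · -- the upper bound
    have hD := hrect D hD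
    have hdisc : ∀ D' ∈ closedBall D r, ‖D'‖ ≤ d1 := by
      intro D' hD'
      rw [mem_closedBall, dist_eq_norm] at hD'
      have := norm_add_le D (D' - D)
      rw [add_sub_cancel] at this
      linarith
    have hM : ∀ D' ∈ closedBall D r, ∀ z' ∈ closedBall (I * (τ : ℂ)) r,
        ‖Fz q a0 b0 (k * a0) (k * b0) D' z'‖ ≤ Real.exp (2 * r) * (k : ℝ) ^ ep := by
      intro D' hD' z' hz'
      rw [mem_closedBall, dist_eq_norm] at hz'
      have h1 := (abs_re_le_norm (z' - I * τ)).trans hz'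
      have h2 := (abs_im_le_norm (z' - I * τ)).trans hz'
      rw [sub_re, hre, sub_zero] at h1
      rw [sub_im, him] at h2
      have h3 := abs_add_le τ (z'.im - τ)
      rw [add_sub_cancel] at h3
      have h4 : |z'.im| ≤ e1 * Real.log k + r := by linarith
      have hb1 : e1 * Real.log k ≤ 1 / 40 * Real.log k := mul_le_mul_of_nonneg_right g2 hlk.le
      have h5 := u D' (hdisc D' hD') z' (by linarith [(abs_le.1 h1).1]) (by linarith [(abs_le.1 h1).2])
        (by linarith)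
      refine h5.trans ?_
      have h6 : Real.exp (2 * |z'.im|) ≤ Real.exp (2 * r) * (k : ℝ) ^ (ep / 2) := by
        rw [← hexp, ← Real.exp_add]
        refine Real.exp_le_exp.2 ?_
        have := mul_le_mul_of_nonneg_right g3 hlk.le
        linarith
      calc (k : ℝ) ^ (ep / 2) * Real.exp (2 * |z'.im|) ≤
            (k : ℝ) ^ (ep / 2) * (Real.exp (2 * r) * (k : ℝ) ^ (ep / 2)) :=
            mul_le_mul_of_nonneg_left h6 (hkpos _).le
        _ = Real.exp (2 * r) * ((k : ℝ) ^ (ep / 2) * (k : ℝ) ^ (ep / 2)) := by ring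
        _ = _ := by rw [← Real.rpow_add hk0, add_halves]
    have h7 := Ez_bd q hA hB le_rfl (k * a0) (k * b0) (D := D) (z := I * τ) hr0
      (fun D' hD' => ball_Nz hd1' (hdisc D' hD')) (by rw [hre, abs_zero]; linarith) hM
      (hK D (by simpa using hD.trans (by linarith)))
    refine h7.trans ?_
    have e1 : (1 / r + 4 * K / r ^ 2) * (Real.exp (2 * r) * (k : ℝ) ^ ep) =
        ((1 / r + 4 * K / r ^ 2) * Real.exp (2 * r)) * (k : ℝ) ^ ep := by ring
    rw [e1]
    refine mul_le_mul_of_nonneg_right ?_ (hkpos _).le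
    rw [hC0]
    linarith [abs_nonneg CW]
  · -- the slit
    have eI : (t : ℂ) * I = I * t := mul_comm _ _
    have hN : I * (t : ℂ) ∈ Nz (1 / 20) := ball_Nz hd1' (by
      rw [norm_mul, norm_I, one_mul, norm_real, Real.norm_eq_abs]
      linarith)
    simp only [eI]
    rw [← hb1, Ez_eq q hA hB le_rfl hbk hN (re_I τ), hb1, norm_mul]
    have h1 := w t (by linarith) τ (hτ.trans (mul_le_mul_of_nonneg_right g1 hlk.le)) b hb1
    rw [pz_slit hA hB, qz_slit hA hB, Vz_slit hA hB]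
    have h2 : ‖((b0 : ℝ) : ℂ) / (Vs a0 b0 t : ℂ)‖ ≤ 1 := by
      have h3 := Vs_pos hA hB t
      rw [← ofReal_div, norm_real, Real.norm_eq_abs, abs_of_pos (div_pos hB h3), div_le_one h3]
      exact Vs_low hA hB t
    have h4 : CW * (k : ℝ) ^ (-c) * Real.exp (CW * |τ|) ≤ C0 * (k : ℝ) ^ (-(c / 2)) := by
      have a1 : CW ≤ C0 := by
        rw [hC0]
        have : 0 ≤ (1 / r + 4 * K / r ^ 2) * Real.exp (2 * r) := by positivity
        linarith [le_abs_self CW]
      have a2 : Real.exp (CW * |τ|) ≤ (k : ℝ) ^ (c / 2) := by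
        rw [← hexp]
        refine Real.exp_le_exp.2 ?_
        calc CW * |τ| ≤ |CW| * (e1 * Real.log k) := by
              calc CW * |τ| ≤ |CW| * |τ| := mul_le_mul_of_nonneg_right (le_abs_self _) (abs_nonneg _)
                _ ≤ _ := mul_le_mul_of_nonneg_left hτ (abs_nonneg _)
          _ = (|CW| * e1) * Real.log k := by ring
          _ ≤ c / 2 * Real.log k := mul_le_mul_of_nonneg_right g4 hlk.le
      calc CW * (k : ℝ) ^ (-c) * Real.exp (CW * |τ|) ≤ C0 * (k : ℝ) ^ (-c) * Real.exp (CW * |τ|) :=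
            mul_le_mul_of_nonneg_right (mul_le_mul_of_nonneg_right a1 (hkpos _).le) (Real.exp_pos _).le
        _ ≤ C0 * (k : ℝ) ^ (-c) * (k : ℝ) ^ (c / 2) :=
            mul_le_mul_of_nonneg_left a2 (mul_nonneg hC0p.le (hkpos _).le)
        _ = C0 * (k : ℝ) ^ (-(c / 2)) := by
            rw [mul_assoc, ← Real.rpow_add hk0]
            congr 2
            ring
    refine (mul_le_mul h2 h1 (norm_nonneg _) zero_le_one).trans ?_
    rw [one_mul]
    exact h4

end PLT.FS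

end
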