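import Pool.Agent.PLT.EInstI
import Pool.Agent.PLT.ContE

/-!
# Closing of the Ward identity at an index with all rows on the imaginary axis (helper46)

* `brE`: the bracket of the first identity of the row `i0`, legs at the height `τ`;
* `InE`: the inputs at one index: the data of level two, the first identity, the two legs;
* `ward_idx`: the relation of any content `Rws0`, legs at any height;
* `ward_bal`: the form for a balanced content: `W D + 1/4 sin (w x) G'' + cos (w x) G'` small;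
* **`wim_of`**: `a` rows at `-pz (i s)`, `b` rows at `qz (i s)`.
-/

set_option autoImplicit false

noncomputable section

open Complex MeasureTheory Filter Topology Set

namespace PLT.CloE

open PBEI (y1 y26 Apl6 Ami6 Bch6 rP rM uF qF mfL h0T g2T sg')
open PBV (wm)
open NUP1 (l)
open PLT.Pa PLT.FS
open PBForce (Rws0 xiP xiM)
open Pool.Agent.PLX (fQ)

/-- the bracket of the first identity -/
def brE {Ω : Type} [MeasurableSpace Ω] (μ : Measure Ω) (w : Ω → ℂ) (V Vm : (ℂ → ℂ) → Ω → ℂ)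
    (S : Ω → ℂ) {m : ℕ} (x : Fin m → ℂ) (i0 : Fin m) (τ : ℝ) : ℂ :=
  (∫ q, PBFunc.F μ w (fun ω => V (Apl6 x i0 q) ω * V (Bch6 q) ω) ∂wm) +
    ((∫ q, PBFunc.F μ w (fun ω => Vm (Ami6 x i0 q) ω * Vm (Bch6 q) ω) ∂wm) +
      2 * PBFunc.F μ w (fun ω => Vm (uF x i0) ω * S ω) -
      (rP x i0 - rM x i0) / 2 * PBFunc.F μ w (fun ω => S ω * S ω)) +
    PBFunc.F μ w (V (qF x i0 τ))

/-- the inputs at one index: `G` is the function of the place of the leg, `D` the derivative in the height of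
the row `i0` -/
def InE {m : ℕ} (x : Fin m → ℂ) (i0 : Fin m) (τ : ℝ) (G : ℂ → ℂ) (D : ℂ) (δ : ℝ) : Prop :=
  ∃ (Ω : Type) (_ : MeasurableSpace Ω) (μ : Measure Ω) (_ : SFinite μ) (w : Ω → ℂ)
    (V Vm : (ℂ → ℂ) → Ω → ℂ) (S : Ω → ℂ) (K th δp : ℝ),
    PBEM.LevD y1 y26 (19 / 10) μ w V Vm S K th δp (mfL τ) sg' wm (Apl6 x i0) (Ami6 x i0) Bch6 ∧
    2 * K * th + δp ≤ δ ∧
    ‖(m : ℂ) * D - brE μ w V Vm S x i0 τ‖ ≤ δ ∧
    ‖PBFunc.F μ w (V (h0T τ)) + I * deriv G (I * τ)‖ ≤ δ ∧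
    ‖PBFunc.F μ w (fun ω => V (h0T τ) ω * V (h0T τ) ω) + PBFunc.F μ w (V (g2T τ)) -
      -deriv (deriv G) (I * τ)‖ ≤ δ

/-- **the relation of any content with rows on the imaginary axis** -/
theorem ward_idx : ∃ K : ℝ, 0 < K ∧ ∀ (m : ℕ) (x : Fin m → ℂ) (i0 : Fin m) (τ : ℝ) (G : ℂ → ℂ)
    (D : ℂ) (δ : ℝ), Rws0 x → InE x i0 τ G D δ →
    ‖(m : ℂ) * D - (-((rP x i0 - rM x i0) / 8) * (-deriv (deriv G) (I * τ)) -
      (rP x i0 + rM x i0) / 2 * (I * deriv G (I * τ)))‖ ≤ K * Real.exp (5 * |τ|) * δ := by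
  obtain ⟨K, hK, h⟩ := PBEI.E_index (a' := 19 / 10) (by norm_num) (by norm_num)
  refine ⟨1 + 2 * K, by positivity, fun m x i0 τ G D δ hx hI => ?_⟩
  obtain ⟨Ω, _, μ, _, w, V, Vm, S, K', th, δp, L, h0, h1, h2, h3⟩ := hI
  have hδ : 0 ≤ δ := (norm_nonneg _).trans h1
  have e2 : ‖PBFunc.F μ w (V (h0T τ)) + I * deriv G (I * τ)‖ ≤ δ := h2
  have key := h Ω μ w V Vm S K' th δp δ δ m x i0 τ ((m : ℂ) * D) (I * deriv G (I * τ))
    (-deriv (deriv G) (I * τ)) hx L (by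
      have e : brE μ w V Vm S x i0 τ = _ := rfl
      exact h1) e2 h3
  have hE : 1 ≤ Real.exp (5 * |τ|) := Real.one_le_exp (by positivity)
  have hE0 := Real.exp_pos (5 * |τ|)
  refine key.trans ?_
  have a1 : K * Real.exp (5 * |τ|) * (2 * K' * th + δp + δ) ≤ K * Real.exp (5 * |τ|) * (2 * δ) :=
    mul_le_mul_of_nonneg_left (by linarith) (by positivity)
  have a2 : δ ≤ Real.exp (5 * |τ|) * δ := le_mul_of_one_le_left hδ hE
  calc δ + K * Real.exp (5 * |τ|) * (2 * K' * th + δp + δ) ≤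
        Real.exp (5 * |τ|) * δ + K * Real.exp (5 * |τ|) * (2 * δ) := add_le_add a2 a1
    _ = (1 + 2 * K) * Real.exp (5 * |τ|) * δ := by ring

/-- **the relation of a balanced content** of volume `W` -/
theorem ward_bal : ∃ K : ℝ, 0 < K ∧ ∀ (m : ℕ) (x : Fin m → ℂ) (i0 : Fin m) (τ : ℝ) (G : ℂ → ℂ)
    (D : ℂ) (δ W : ℝ), Rws0 x → 0 < W → ∑ i, Real.exp (8 / 3 * (x i).im) = W →
    ∑ i, Real.exp (-(8 / 3 * (x i).im)) = W → InE x i0 τ G (I * D) δ →
    ‖(W : ℂ) * D + 1 / 4 * sin (8 / 3 * x i0) * deriv (deriv G) (I * τ) +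
      cos (8 / 3 * x i0) * deriv G (I * τ)‖ ≤ W / m * (K * Real.exp (5 * |τ|) * δ) := by
  obtain ⟨K, hK, h⟩ := ward_idx
  refine ⟨K, hK, fun m x i0 τ G D δ W hx hW e1 e2 hI => ?_⟩
  have key := h m x i0 τ G (I * D) δ hx hI
  have hm : 0 < m := Nat.pos_of_ne_zero fun h0 => by
    subst h0
    exact i0.elim0
  have hm' : (0 : ℝ) < m := by exact_mod_cast hm
  have hmc : (m : ℂ) ≠ 0 := by exact_mod_cast hm.ne'
  have hWc : (W : ℂ) ≠ 0 := by exact_mod_cast hW.ne'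
  have hP : rP x i0 = ((m * (Real.exp (8 / 3 * (x i0).im) / W) : ℝ) : ℂ) := by
    unfold PBEI.rP PBForce.xiP
    rw [e1]
  have hM : rM x i0 = ((m * (Real.exp (-(8 / 3 * (x i0).im)) / W) : ℝ) : ℂ) := by
    unfold PBEI.rM PBForce.xiM
    rw [e2]
  have hx0 : x i0 = I * ((x i0).im : ℂ) := by
    apply Complex.ext
    · simp [hx.re i0]
    · simp
  obtain ⟨η, hη⟩ : ∃ η : ℝ, η = (x i0).im := ⟨_, rfl⟩
  have es : sin (8 / 3 * x i0) = (Real.exp (8 / 3 * η) - Real.exp (-(8 / 3 * η))) / 2 * I := by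
    rw [hx0, ← hη, sin]
    have a1 : -(8 / 3 * (I * (η : ℂ))) * I = ((8 / 3 * η : ℝ) : ℂ) := by
      push_cast
      linear_combination (-(8 / 3 * (η : ℂ))) * I_mul_I
    have a2 : (8 / 3 * (I * (η : ℂ))) * I = ((-(8 / 3 * η) : ℝ) : ℂ) := by
      push_cast
      linear_combination (8 / 3 * (η : ℂ)) * I_mul_I
    rw [a1, a2, ofReal_exp, ofReal_exp]
    ring
  have ec : cos (8 / 3 * x i0) = (Real.exp (8 / 3 * η) + Real.exp (-(8 / 3 * η))) / 2 := by
    rw [hx0, ← hη, cos]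
    have a1 : (8 / 3 * (I * (η : ℂ))) * I = ((-(8 / 3 * η) : ℝ) : ℂ) := by
      push_cast
      linear_combination (8 / 3 * (η : ℂ)) * I_mul_I
    have a2 : -(8 / 3 * (I * (η : ℂ))) * I = ((8 / 3 * η : ℝ) : ℂ) := by
      push_cast
      linear_combination (-(8 / 3 * (η : ℂ))) * I_mul_I
    rw [a1, a2, ofReal_exp, ofReal_exp]
    ring
  have e : (W : ℂ) * D + 1 / 4 * sin (8 / 3 * x i0) * deriv (deriv G) (I * τ) +
      cos (8 / 3 * x i0) * deriv G (I * τ) = ((W : ℂ) / (m * I)) *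
      ((m : ℂ) * (I * D) - (-((rP x i0 - rM x i0) / 8) * (-deriv (deriv G) (I * τ)) -
        (rP x i0 + rM x i0) / 2 * (I * deriv G (I * τ)))) := by
    rw [es, ec, hP, hM, ← hη]
    push_cast
    have hI : (I : ℂ) ≠ 0 := I_ne_zero
    field_simp
    ring_nf
    simp only [I_sq]
    ring
  rw [e, norm_mul, norm_div, norm_mul, Complex.norm_I, mul_one, Complex.norm_real, Complex.norm_natCast,
    Real.norm_of_nonneg hW.le]
  exact mul_le_mul_of_nonneg_left key (by positivity)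

/-! ### the contents of the imaginary segment -/

theorem Vs_exp {A B : ℝ} (hA : 0 < A) (hB : 0 < B) (s : ℝ) :
    Vs A B s * Real.exp (8 / 3 * ps A B s) = A + B * Real.exp (8 / 3 * s) ∧
      Vs A B s * Real.exp (-(8 / 3 * ps A B s)) = A + B * Real.exp (-(8 / 3 * s)) := by
  have h1 : 0 < A + B * Real.exp (-(8 / 3 * s)) := by positivity
  have h2 : 0 < A + B * Real.exp (8 / 3 * s) := by positivity
  have e1 : Vs A B s = Real.exp ((Real.log (A + B * Real.exp (-(8 / 3 * s))) +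
      Real.log (A + B * Real.exp (8 / 3 * s))) / 2) := by
    unfold Vs
    rw [Real.sqrt_eq_iff_mul_self_eq (by positivity) (Real.exp_pos _).le, ← Real.exp_add, add_halves,
      Real.exp_add, Real.exp_log h1, Real.exp_log h2, Real.cosh_eq]
    have : Real.exp (8 / 3 * s) * Real.exp (-(8 / 3 * s)) = 1 := by
      rw [← Real.exp_add, add_neg_cancel, Real.exp_zero]
    linear_combination (-B ^ 2) * this
  constructor
  · rw [e1, ← Real.exp_add]
    rw [show (Real.log (A + B * Real.exp (-(8 / 3 * s))) + Real.log (A + B * Real.exp (8 / 3 * s))) / 2 +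
      8 / 3 * ps A B s = Real.log (A + B * Real.exp (8 / 3 * s)) by unfold ps; ring, Real.exp_log h2]
  · rw [e1, ← Real.exp_add]
    rw [show (Real.log (A + B * Real.exp (-(8 / 3 * s))) + Real.log (A + B * Real.exp (8 / 3 * s))) / 2 +
      -(8 / 3 * ps A B s) = Real.log (A + B * Real.exp (-(8 / 3 * s))) by unfold ps; ring, Real.exp_log h1]

/-- the balance of the content on the imaginary axis -/
theorem bal_s {A B : ℝ} (hA : 0 < A) (hB : 0 < B) (s : ℝ) :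
    A * Real.exp (8 / 3 * (-ps A B s)) + B * Real.exp (8 / 3 * qs A B s) = Vs A B s ∧
      A * Real.exp (-(8 / 3 * (-ps A B s))) + B * Real.exp (-(8 / 3 * qs A B s)) = Vs A B s := by
  obtain ⟨h1, h2⟩ := Vs_exp hA hB s
  have e : Real.exp (8 / 3 * ps A B s) * Real.exp (-(8 / 3 * ps A B s)) = 1 := by
    rw [← Real.exp_add, add_neg_cancel, Real.exp_zero]
  have q1 : Real.exp (8 / 3 * qs A B s) = Real.exp (8 / 3 * s) * Real.exp (-(8 / 3 * ps A B s)) := by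
    rw [← Real.exp_add]
    unfold qs
    congr 1
    ring
  have q2 : Real.exp (-(8 / 3 * qs A B s)) = Real.exp (-(8 / 3 * s)) * Real.exp (8 / 3 * ps A B s) := by
    rw [← Real.exp_add]
    unfold qs
    congr 1
    ring
  have q3 : Real.exp (8 / 3 * (-ps A B s)) = Real.exp (-(8 / 3 * ps A B s)) := by
    congr 1
    ring
  have q4 : Real.exp (-(8 / 3 * (-ps A B s))) = Real.exp (8 / 3 * ps A B s) := by
    congr 1
    ring
  constructor
  · rw [q1, q3]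
    linear_combination (-Real.exp (-(8 / 3 * ps A B s))) * h1 + Vs A B s * e
  · rw [q2, q4]
    linear_combination (-Real.exp (8 / 3 * ps A B s)) * h2 + Vs A B s * e

theorem ps_le {A B : ℝ} (hA : 0 < A) (hB : 0 < B) (s : ℝ) : |ps A B s| ≤ |s| ∧ |qs A B s| ≤ |s| := by
  have h := abs_le.1 (ps_mem hA hB s)
  have hs := abs_le.1 (le_refl |s|)
  unfold qs
  rcases le_total 0 s with h0 | h0
  · rw [abs_of_nonneg h0] at h ⊢
    exact ⟨abs_le.2 ⟨by linarith [h.1], by linarith [h.2]⟩, abs_le.2 ⟨by linarith [h.2], by linarith [h.1]⟩⟩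
  · rw [abs_of_nonpos h0] at h ⊢
    exact ⟨abs_le.2 ⟨by linarith [h.1], by linarith [h.2]⟩, abs_le.2 ⟨by linarith [h.2], by linarith [h.1]⟩⟩

theorem Vs_up {A B : ℝ} (hA : 0 < A) (hB : 0 < B) {s : ℝ} (hs : |s| ≤ 1) : Vs A B s ≤ 4 * (A + B) := by
  refine Real.sqrt_le_iff.2 ⟨by positivity, ?_⟩
  have h1 : Real.cosh (8 / 3 * s) ≤ 16 := by
    have h2 : Real.cosh (8 / 3 * s) ≤ Real.exp (8 / 3 * |s|) := by
      rw [← Real.cosh_abs, abs_mul, abs_of_pos (by norm_num : (0 : ℝ) < 8 / 3), Real.cosh_eq]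
      have h3 : Real.exp (-(8 / 3 * |s|)) ≤ Real.exp (8 / 3 * |s|) :=
        Real.exp_le_exp.2 (by linarith [abs_nonneg s])
      linarith
    have h4 : Real.exp (8 / 3 * |s|) ≤ Real.exp (8 / 3) := Real.exp_le_exp.2 (by linarith)
    have h5 : Real.exp (8 / 3) ≤ 16 := by
      have h6 : Real.exp (8 / 3) ^ 3 ≤ 16 ^ 3 := by
        rw [← Real.exp_nat_mul]
        have h7 : Real.exp ((3 : ℕ) * (8 / 3) : ℝ) = Real.exp 1 ^ 8 := by
          rw [← Real.exp_nat_mul]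
          norm_num
        rw [h7]
        have h8 := Real.exp_one_lt_d9.le
        have h9 := Real.exp_pos 1
        calc Real.exp 1 ^ 8 ≤ 2.7182818286 ^ 8 := pow_le_pow_left₀ h9.le h8 8
          _ ≤ 16 ^ 3 := by norm_num
      exact le_of_pow_le_pow_left₀ (by norm_num) (by norm_num) h6
    linarith
  have h2 : 0 ≤ A * B := by positivity
  nlinarith [mul_le_mul_of_nonneg_left h1 h2, sq_nonneg (A - B)]

/-- the content at the separation `i s`, `b + 1` rows at `i qs` -/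
def xs (a0 b0 : ℝ) (a b : ℕ) (s : ℝ) : Fin (a + (b + 1)) → ℂ :=
  cnt a (b + 1) (-(I * (ps a0 b0 s : ℂ))) (I * (qs a0 b0 s : ℂ))

/-- the moved row -/
def im0 (a b : ℕ) : Fin (a + (b + 1)) := Fin.natAdd a (Fin.last b)

theorem xs_im0 (a0 b0 : ℝ) (a b : ℕ) (s : ℝ) : xs a0 b0 a b s (im0 a b) = I * (qs a0 b0 s : ℂ) := by
  unfold xs im0
  exact cnt_right _ _ _ _ _

theorem xs_Rws0 {a0 b0 : ℝ} (hA : 0 < a0) (hB : 0 < b0) (a b : ℕ) {s : ℝ} (hs : |s| ≤ 1) :
    Rws0 (xs a0 b0 a b s) := by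
  obtain ⟨h1, h2⟩ := ps_le hA hB s
  refine ⟨fun i => ?_, fun i => ?_⟩
  · unfold xs
    refine cnt_cases (p := fun w : ℂ => w.re = 0) ?_ ?_ i <;> simp
  · unfold xs
    refine cnt_cases (p := fun w : ℂ => |w.im| ≤ 1) ?_ ?_ i
    · simpa using h1.trans hs
    · simpa using h2.trans hs

theorem xs_Rwo {a0 b0 : ℝ} (a b : ℕ) (s : ℝ) : Pool.Agent.PB.Rwo (xs a0 b0 a b s) := by
  intro i
  have hl := NUP1.lpos
  unfold xs
  refine cnt_cases (p := fun w : ℂ => |w.re| < 3 / 5 * l) ?_ ?_ i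
  · simpa using hl
  · simpa using hl

theorem sum_xs {a0 b0 : ℕ} (ha : 0 < a0) (hb : 0 < b0) (s : ℝ) {k b : ℕ} (hkb : b + 1 = k * b0) (σ : ℝ)
    (hσ : σ = 1 ∨ σ = -1) :
    ∑ i, Real.exp (σ * (8 / 3 * (xs a0 b0 (k * a0) b s i).im)) = k * Vs a0 b0 s := by
  have hA : (0 : ℝ) < a0 := by exact_mod_cast ha
  have hB : (0 : ℝ) < b0 := by exact_mod_cast hb
  obtain ⟨h1, h2⟩ := bal_s hA hB s
  have hc : ((b + 1 : ℕ) : ℝ) = k * b0 := by exact_mod_cast hkb
  rw [Fin.sum_univ_add]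
  have e1 : ∀ i : Fin (k * a0), (xs a0 b0 (k * a0) b s (Fin.castAdd (b + 1) i)).im = -ps a0 b0 s := fun i => by
    unfold xs
    rw [cnt_left]
    simp
  have e2 : ∀ i : Fin (b + 1), (xs a0 b0 (k * a0) b s (Fin.natAdd (k * a0) i)).im = qs a0 b0 s := fun i => by
    unfold xs
    rw [cnt_right]
    simp
  simp only [e1, e2, Finset.sum_const, Finset.card_univ, Fintype.card_fin, nsmul_eq_mul]
  rw [hc]
  push_cast
  rcases hσ with rfl | rfl
  · simp only [one_mul]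
    linear_combination (k : ℝ) * h1
  · simp only [neg_one_mul]
    linear_combination (k : ℝ) * h2

/-- **the inputs of the Ward identity on the imaginary segment** -/
def InW (q a0 b0 : ℕ) (c e0 d1 : ℝ) : Prop := ∃ C : ℝ, ∀ᶠ k : ℕ in atTop, ∀ s : ℝ, |s| ≤ d1 → ∀ τ : ℝ,
  |τ| ≤ e0 * Real.log k → ∀ b : ℕ, b + 1 = k * b0 → ∃ D : ℂ,
  HasDerivAt (fun σ : ℝ => fQ q (Function.update (xs a0 b0 (k * a0) b s) (im0 (k * a0) b) (I * σ)) (I * τ)) D
    (qs a0 b0 s) ∧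
  InE (xs a0 b0 (k * a0) b s) (im0 (k * a0) b) τ (fQ q (xs a0 b0 (k * a0) b s)) D
    (C * (k : ℝ) ^ (-c) * Real.exp (C * |τ|))

theorem D_eq (q : ℕ) {a0 b0 : ℝ} {a b : ℕ} {s τ : ℝ} {D : ℂ}
    (h : HasDerivAt (fun σ : ℝ => fQ q (Function.update (xs a0 b0 a b s) (im0 a b) (I * σ)) (I * τ)) D
      (qs a0 b0 s)) :
    D = I * Dq q a b (-(I * (ps a0 b0 s : ℂ))) (I * (qs a0 b0 s : ℂ)) (I * τ) := by
  have hz : |(I * (τ : ℂ)).re| < 3 * l := by
    have := NUP1.lpos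
    simpa using this
  have h1 := hasDerivAt_Dr q (Ad.zero (xs_Rwo (a0 := a0) (b0 := b0) a b s)) hz (im0 a b)
  have h2 : Dr q (xs a0 b0 a b s) (I * τ) (im0 a b) =
      Dq q a b (-(I * (ps a0 b0 s : ℂ))) (I * (qs a0 b0 s : ℂ)) (I * τ) := Dr_right q a b _ _ hz _
  rw [h2, xs_im0] at h1
  have h3 : HasDerivAt (fun σ : ℝ => I * (σ : ℂ)) I (qs a0 b0 s) := by
    simpa using (hasDerivAt_id (qs a0 b0 s)).ofReal_comp.const_mul I
  have h4 := HasDerivAt.scomp (qs a0 b0 s)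
    (g₁ := fun ξ => fS q (Function.update (xs a0 b0 a b s) (im0 a b) ξ) (I * τ))
    (h := fun σ : ℝ => I * (σ : ℂ)) h1 h3
  have h5 := h4.unique (h.congr_of_eventuallyEq (Eventually.of_forall fun σ => ?_))
  · rw [← h5, smul_eq_mul]
  · refine (fS_self q (fun i => ?_) hz)
    have hl := NUP1.lpos
    by_cases hi : i = im0 a b
    · rw [hi, Function.update_self]
      simpa using hl
    · rw [Function.update_of_ne hi]
      exact xs_Rwo a b s i

/-- **the Ward identity on the imaginary segment** -/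
theorem wim_of {q a0 b0 : ℕ} (ha : 1 ≤ a0) (hb : 1 ≤ b0) {c e0 d1 : ℝ} (hd : d1 ≤ 1)
    (h : InW q a0 b0 c e0 d1) : WIM q a0 b0 c e0 d1 := by
  have hA : (0 : ℝ) < a0 := by exact_mod_cast ha
  have hB : (0 : ℝ) < b0 := by exact_mod_cast hb
  obtain ⟨K, hK, hw⟩ := ward_bal
  obtain ⟨C, hC⟩ := h
  obtain ⟨C', hC'⟩ : ∃ C' : ℝ, C' = max (4 * K * |C|) (5 + |C|) := ⟨_, rfl⟩
  have c1 : 4 * K * |C| ≤ C' := by rw [hC']; exact le_max_left _ _
  have c2 : 5 + |C| ≤ C' := by rw [hC']; exact le_max_right _ _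
  refine ⟨C', ?_⟩
  filter_upwards [hC, eventually_ge_atTop 1] with k hk hk1 s hs τ hτ b hkb
  have hs1 : |s| ≤ 1 := hs.trans hd
  have hk0 : (0 : ℝ) < k := by exact_mod_cast hk1
  obtain ⟨D, hD, hI⟩ := hk s hs τ hτ b hkb
  rw [D_eq q hD] at hI
  have hz : |(I * (τ : ℂ)).re| < 3 * l := by
    have := NUP1.lpos
    simpa using this
  have hV := Vs_pos hA hB s
  have e1 := sum_xs ha hb s hkb 1 (Or.inl rfl)
  have e2 := sum_xs ha hb s hkb (-1) (Or.inr rfl)
  simp only [one_mul] at e1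
  simp only [neg_one_mul] at e2
  have key := hw _ _ _ τ _ _ _ (k * Vs a0 b0 s) (xs_Rws0 hA hB (k * a0) b hs1) (by positivity) e1 e2 hI
  rw [xs_im0] at key
  -- the functions
  have hf : fQ q (xs a0 b0 (k * a0) b s) =ᶠ[𝓝 (I * (τ : ℂ))] fz q a0 b0 k (I * s) := by
    filter_upwards [isOpen_st.mem_nhds hz] with z hz'
    have e3 : fz q a0 b0 k (I * s) z = fS q (cnt (k * a0) (k * b0) (-(I * (ps a0 b0 s : ℂ)))
        (I * (qs a0 b0 s : ℂ))) z := by
      unfold fz Fz cz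
      rw [pz_slit hA hB, qz_slit hA hB]
    rw [e3, ← hkb]
    exact (fS_self q (xs_Rwo (k * a0) b s) hz').symm
  have d1' := hf.deriv_eq
  have d2' := hf.deriv.deriv_eq
  rw [d1', d2', ofReal_mul, ofReal_natCast] at key
  refine key.trans ?_
  have hm : ((k * a0 + (b + 1) : ℕ) : ℝ) = k * (a0 + b0) := by
    rw [hkb]
    push_cast
    ring
  rw [hm]
  have hW : k * Vs a0 b0 s / (k * (a0 + b0)) ≤ 4 := by
    rw [div_le_iff₀ (by positivity)]
    have := Vs_up hA hB hs1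
    nlinarith [mul_le_mul_of_nonneg_left this hk0.le]
  have hδ : 0 ≤ C * (k : ℝ) ^ (-c) * Real.exp (C * |τ|) := by
    obtain ⟨Ω, _, μ, _, w, V, Vm, S, K', th, δp, L, h0, h1, -⟩ := hI
    exact (norm_nonneg _).trans h1
  have hδ' : C * (k : ℝ) ^ (-c) * Real.exp (C * |τ|) ≤ |C| * (k : ℝ) ^ (-c) * Real.exp (|C| * |τ|) := by
    refine mul_le_mul (mul_le_mul_of_nonneg_right (le_abs_self C) (by positivity)) (Real.exp_le_exp.2 ?_)
      (Real.exp_pos _).le (by positivity)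
    exact mul_le_mul_of_nonneg_right (le_abs_self C) (abs_nonneg τ)
  calc k * Vs a0 b0 s / (k * (a0 + b0)) * (K * Real.exp (5 * |τ|) * (C * (k : ℝ) ^ (-c) * Real.exp (C * |τ|))) ≤
        4 * (K * Real.exp (5 * |τ|) * (|C| * (k : ℝ) ^ (-c) * Real.exp (|C| * |τ|))) :=
        mul_le_mul hW (mul_le_mul_of_nonneg_left hδ' (by positivity)) (by positivity) (by norm_num)
    _ = 4 * K * |C| * (k : ℝ) ^ (-c) * (Real.exp (5 * |τ|) * Real.exp (|C| * |τ|)) := by ring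
    _ = 4 * K * |C| * (k : ℝ) ^ (-c) * Real.exp ((5 + |C|) * |τ|) := by rw [← Real.exp_add]; ring_nf
    _ ≤ C' * (k : ℝ) ^ (-c) * Real.exp (C' * |τ|) := by
        refine mul_le_mul (mul_le_mul_of_nonneg_right c1 (by positivity)) (Real.exp_le_exp.2 ?_)
          (Real.exp_pos _).le (by have : 0 ≤ C' := (by positivity : (0 : ℝ) ≤ 4 * K * |C|).trans c1
                                  positivity)
        exact mul_le_mul_of_nonneg_right c2 (abs_nonneg τ)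

end PLT.CloE

end
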