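import Pool.Agent.PLT.ClsFFC
import Pool.Agent.PHK.WordTh1

/-!
# The class formula at any point, any windows, complex curves

* **`cls_FFC`** : the classes without zeros: the state sum on the lines of `P`, base line `51/100 l`, is the
  functional `FFC` on any curves in the strip;
* **`cls_FFCZ`** : the classes with zeros (`ClG`).

No condition `HI6`.
-/

set_option autoImplicit false
set_option linter.unusedSectionVars false
set_option linter.unusedVariables false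

noncomputable section

open Complex MeasureTheory Finset
open scoped ENNReal Nat

namespace PLT

open NUO NUP1 NUP1S NUP1S.Ab NUP1S.AbC NUGC NUGC.PLX NUCR PHK
open PBF.PLX (gK Ins Crs QOk)
open NUP1.Bd (Ob)

variable {Z : Bool → Option O3 → ℂ → ℂ} {P : Par6} {n n' : ℕ} {κ κ' κ1 v w : ℝ}

/-- **The class formula at any point.** -/
theorem cls_FFC {del : ℝ} {Q : ℤ} (hP : GoodP6 P)
    (hm : ∀ s k, Measurable (Z s k)) (h : DecQ6 Z P κ κ' ((n : ℝ) - n'))
    (hA : ∀ s, DecOn (κ + 2 * ((n : ℝ) - n') * sc (s, Ob.A)) (Set.Icc (51 / 100 * l) l) (Z s none))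
    (hdel : 0 < del) (hF : DifZ6 Z P (51 / 100 * l) del)
    (hQ : QOkC Z v w κ1 Q) (hS : StC v w P) (hn : (n : ℤ) - n' = Q) {D D1 : CrsC}
    (hD : ∀ r ≤ 2 * (n + n'), ∀ᵐ O ∂(Measure.pi fun _ : Fin r => nu),
      ∀ s, CrvC v w (D r O s) (D1 r O s)) :
    NURow.ZobjQ (Z true) (Z false) (51 / 100 * l) n n' (fun _ _ k _ i => lnK P (k i))
      (fun _ _ _ k' i => lnK P (k' i)) = FFC Z P n n' D D1 (fun _ _ _ _ _ => 1) :=
  ZobjQ_FFC hP hm h hQ hS hn hD le_rfl (wordP_base hP hm h hA hdel hF)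

variable {ν : Bool → Type} [∀ s, Fintype (ν s)] [∀ s, LinearOrder (ν s)]

/-- **The class formula at any point, classes with zeros.** -/
theorem cls_FFCZ {ζ ρ : ∀ s, ν s → ℂ} {Ei : Bool → ℂ → ℂ} {a b₂ κZ : ℝ} {Q : ℤ} (hP : GoodP6 P)
    (h : ClG Z P a b₂ κ κZ Q ζ ρ Ei) (hκ : 0 < κ) (hκ' : κZ < 6) (hζ : ZStrip P ζ)
    (hI : ∀ (E : Finset (ν true)) (E' : Finset (ν false)) {ι : Type} [Fintype ι]
      (K : ι → Bool × Kd6), Integrable (fun t : ι → ℝ =>
        fI (ZE Z ζ E E') P l (n + E.card) (n' + E'.card) fun i => xo (K i) (t i))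
        (Measure.pi fun _ => volume)) (hn : (n : ℤ) = n' + Q) (hS : StC v w P)
    (hQ : ∀ (E : Finset (ν true)) (E' : Finset (ν false)),
      QOkC (ZE Z ζ E E') v w κ1 (((n + E.card : ℕ) : ℤ) - ((n' + E'.card : ℕ) : ℤ)))
    {D D1 : Finset (ν true) → Finset (ν false) → CrsC}
    (hD : ∀ E E' (r : ℕ) (O : Fin r → Xo), ∀ s, CrvC v w (D E E' r O s) (D1 E E' r O s)) :
    NURow.ZobjQ (Z true) (Z false) (51 / 100 * l) n n' (fun _ _ k _ i => lnK P (k i))
      (fun _ _ _ k' i => lnK P (k' i)) =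
      ∑ E : Finset (ν true), ∑ E' : Finset (ν false),
        FFC (ZE Z ζ E E') P (n + E.card) (n' + E'.card) (D E E') (D1 E E')
          (fun _ O _ _ _ => kaE ζ ρ E E' * psE P ζ E E' O) :=
  ZobjQ_FFCZ hζ hI le_rfl (fun p p' k k' hc hc' => wordZ_cl hP h hκ hκ' hI hn hc hc') hS hQ hD

end PLT

end
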