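import Pool.Agent.PLT.LgFinP
import Pool.Agent.PLT.ClsTh
import Pool.Agent.PHK.W1FF6
import Pool.Agent.PHK.ClsD06

/-!
# The classes W W, D1, D1' at every height on complex curves, general parameters

* `SpG P G`: total spectators of charge `0` without zeros on the strip `0 .. l`;
* **`ffc_SpG`**: a base `LgBP` with such spectators: the state sum is the functional without insertion;
* `spG_WW`, **`clsVC_WW`**: the class W W, `ClsVC` at every height;
* `spG_D`, **`clsDC_of`**: the classes D1, D1', `ClsDC` at every height.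
-/

set_option autoImplicit false
set_option linter.unusedSectionVars false
set_option linter.unusedVariables false

noncomputable section

open Complex MeasureTheory Finset
open scoped ENNReal Nat

open PLX (Fil)

namespace PLT.Lg

open NUO NUP1 NUP1S NUP1S.Ab NUP1S.AbC NUP1S.Mg NURow NUCR NUP1.Leg NUGC.PLX PBR.PLX
open NUP1.Bd (wt qg Ob)
open PBF.PLX (Crs Ins)
open PHK
open Pool.Agent.PLX (ln6)

/-! ### spectators of charge `0` -/

/-- **total spectators of charge `0`**, regular and without zeros on the strip of the quanta -/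
structure SpG (P : Par6) (G : Bool → Option O3 → ℂ → ℂ) : Prop where
  ms : ∀ s k, Measurable (G s k)
  A : ∀ s, Bdd (Set.Icc (51 / 100 * l) l) 0 (G s none)
  dA : ∀ s (u : ℂ), 51 / 100 * l ≤ u.re → u.re ≤ l → DifferentiableAt ℂ (G s none) u
  L : ∀ s, Bdd {(1 - P.jL) * l} 0 (G s (some .L))
  T : ∀ s, Bdd {-(l / 2)} 0 (G s (some .T))
  S : ∀ s, Bdd {-((1 + P.e) * l)} 0 (G s (some .S))
  iv : ∀ s, PB 0 (Set.Icc 0 l) fun u => (G s none u)⁻¹
  ne : ∀ s (u : ℂ), 51 / 100 * l ≤ u.re → u.re < l → G s none u ≠ 0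

section base

variable {X G Z : Bool → Option O3 → ℂ → ℂ} {P : Par6} {a b κ κ' : ℝ} {e : ℕ}

/-- decay of a base with spectators -/
theorem SpG.decQ [hP : LnP P] (hG : SpG P G) (hB : LgBP X P a b κ κ' e) (hZ : ∀ s k u,
    Z s k u = X s k u * G s k u) (n : ℕ) : DecQ6 Z P κ κ' ((n : ℝ) - ((n + e : ℕ) : ℝ)) := by
  have hl := NUP1.l_pos
  have e0 : (n : ℝ) - ((n + e : ℕ) : ℝ) = -(e : ℝ) := by
    push_cast
    ring
  have eZ : ∀ s k, Z s k = fun u => X s k u * G s k u := fun s k => funext fun u => hZ s k u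
  have h49 := (lnE6_good hP.good).e1
  rw [e0]
  refine ⟨hB.k0, hB.k6, fun s => ?_, fun s => ?_, fun s => ?_, fun s M => ?_, fun s => ?_⟩
  · rw [eZ]
    exact DecOn.mulB (decOn_line (hB.dec.A s) (Set.Icc_subset_Icc (by nlinarith) le_rfl))
      (Bdd.mono_set (hG.A s) (Set.Icc_subset_Icc (by nlinarith) le_rfl)) (by linarith)
  · rw [eZ]
    exact DecOn.mulB (hB.dec.L s) (hG.L s) (by linarith)
  · rw [eZ]
    exact DecOn.mulB (hB.dec.T s) (hG.T s) (by linarith)
  · rw [eZ]
    exact DecOn.mulB (hB.dec.S s M) (hG.S s) (by linarith)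
  · have e1 : (fun u => (Z s none u)⁻¹) = fun u => (X s none u)⁻¹ * (G s none u)⁻¹ := by
      funext u
      rw [hZ, mul_inv]
    rw [e1]
    have g1 := hP.good.j1
    have g2 := hP.good.j2
    exact ((hB.ibd s).mul (Bdd.mono_set (hG.iv s).1 (Set.Icc_subset_Icc
      (mul_nonneg (by linarith) hl.le) (by nlinarith)))).rate (by ring)

/-- decay of the quanta -/
theorem SpG.decA (hG : SpG P G) (hB : LgBP X P a b κ κ' e) (hZ : ∀ s k u,
    Z s k u = X s k u * G s k u) (n : ℕ) (s : Bool) :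
    DecOn (κ + 2 * ((n : ℝ) - ((n + e : ℕ) : ℝ)) * sc (s, Ob.A)) (Set.Icc (51 / 100 * l) l)
      (Z s none) := by
  have e0 : (n : ℝ) - ((n + e : ℕ) : ℝ) = -(e : ℝ) := by
    push_cast
    ring
  have eZ : Z s none = fun u => X s none u * G s none u := funext fun u => hZ s none u
  rw [e0, eZ]
  exact DecOn.mulB (hB.dec.A s) (hG.A s) (by linarith)

/-- regularity of a base with spectators -/
theorem SpG.dif [hP : LnP P] (hG : SpG P G) (hB : LgBP X P a b κ κ' e) (hW : WnG P a b)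
    (hZ : ∀ s k u, Z s k u = X s k u * G s k u) :
    DifZ6 Z P (51 / 100 * l) (min ((1 - P.j2) * l - a) (b - (1 - P.j1) * l)) := by
  have hl := NUP1.l_pos
  have m1 := min_le_left ((1 - P.j2) * l - a) (b - (1 - P.j1) * l)
  have m2 := min_le_right ((1 - P.j2) * l - a) (b - (1 - P.j1) * l)
  refine ⟨fun s u h1 h2 => ?_, fun s u h1 h2 => ?_, fun s u h1 h2 => ?_⟩
  · have eZ : Z s none = fun u => X s none u * G s none u := funext fun u => hZ s none u
    rw [eZ]
    exact (hB.an s u h1 h2).mul (hG.dA s u h1 h2)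
  · have e1 : (fun u => (Z s none u)⁻¹) = fun u => (X s none u)⁻¹ * (G s none u)⁻¹ := by
      funext u
      rw [hZ, mul_inv]
    rw [e1]
    have c1 : a < u.re := by linarith
    have c2 : u.re < b := by linarith
    exact (hB.ian s u c1 c2).mul ((hG.iv s).2 u ⟨(hW.a0.trans c1).le, c2.le.trans hW.b3⟩)
  · rw [hZ]
    have c2 : u.re < b := by linarith
    exact mul_ne_zero (hB.ne s u h1 c2) (hG.ne s u h1 (c2.trans_le hW.b3))

/-- **a base with spectators is the functional without insertion** -/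
theorem ffc_SpG [hP : LnP P] (hG : SpG P G) (hB : LgBP X P a b κ κ' e) (hW : WnG P a b)
    (hZ : ∀ s k u, Z s k u = X s k u * G s k u) {lo hi κ₁ : ℝ} (hQ : QOkC Z lo hi κ₁ (-(e : ℤ)))
    (hS : StC lo hi P) (n : ℕ) {D D1 : CrsC}
    (hD : ∀ (r : ℕ) (O : Fin r → Xo), CurC lo hi (D r O) (D1 r O)) :
    NURow.ZobjQ (Z true) (Z false) (51 / 100 * l) n (n + e) (fun _ _ k _ i => ln6 P (k i))
      (fun _ _ _ k' i => ln6 P (k' i)) = FFC Z P n (n + e) D D1 (fun _ _ _ _ _ => 1) := by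
  have hm : ∀ s k, Measurable (Z s k) := fun s k => by
    have eZ : Z s k = fun u => X s k u * G s k u := funext fun u => hZ s k u
    rw [eZ]
    exact (hB.ms s k).mul (hG.ms s k)
  have key := cls_FFC (κ := κ) (κ' := κ') (κ1 := κ₁) (v := lo) (w := hi) (n := n) (n' := n + e)
    (D := D) (D1 := D1) hP.good hm (hG.decQ hB hZ n) (hG.decA hB hZ n)
    (lt_min (by linarith [hW.a1]) (by linarith [hW.b1])) (hG.dif hB hW hZ) hQ hS
    (by push_cast; ring) fun r _ => Filter.Eventually.of_forall fun O => hD r O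
  rw [lnK_ln6] at key
  exact key

end base

/-! ### the class W W -/

/-- the inverse of the half quantum at `5/4 l` on the strip `0 .. l` -/
theorem inv_SF_WC (c : Bool) {w : ℂ} (hw : w.re = 5 / 4 * l) :
    PB (-sc (c, .A)) (Set.Icc 0 l) fun u => (SF c none (w - u))⁻¹ := by
  have hl := NUP1.l_pos
  have h := PB_SF_inv c (K := Set.Icc (1 / 4 * l) (5 / 4 * l)) isCompact_Icc
    (fun d hd => NURow.sin_ne_pos (by linarith [hd.1]) (by linarith [hd.2]))
    (fun d hd => NURow.sin_ne_pos (by linarith [hd.1]) (by linarith [hd.2]))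
    (fun d hd => NURow.sin_ne_pos (by linarith [hd.1]) (by linarith [hd.2]))
  refine h.one w fun x hx => ?_
  rw [hw]
  exact ⟨by linarith [hx.2], by linarith [hx.1]⟩

/-- the half quantum has no zero -/
theorem sF_neC (c : Bool) {v u : ℂ} (hv : v.re = 5 / 4 * l) (h1 : 51 / 100 * l ≤ u.re)
    (h2 : u.re < l) : SF c none (v - u) ≠ 0 := by
  have hl := NUP1.l_pos
  refine (ui_SF c none).ne fun n hn => ?_
  rw [Complex.sub_re, hv] at hn
  have h3 : (0 : ℝ) < n * l := by rw [← hn]; linarith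
  have h4 : (n : ℝ) * l < 1 * l := by rw [← hn]; linarith
  have h5 : (0 : ℝ) < n := by
    by_contra hc
    nlinarith [not_lt.1 hc]
  have h6 : (n : ℝ) < 1 := lt_of_mul_lt_mul_right h4 hl.le
  have h7 : 0 < n := by exact_mod_cast h5
  have h8 : n < 1 := by exact_mod_cast h6
  omega

/-- the spectators of W W -/
theorem spG_WW {P : Par6} (hP : GoodP6 P) {w w' : ℂ} (hw : w.re = 5 / 4 * l)
    (hw' : w'.re = 5 / 4 * l) : SpG P fun s k u => SF s k (w - u) * SF (!s) k (w' - u) := by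
  have hl := NUP1.l_pos
  have hsc : ∀ s, sc (!s, Ob.A) = -sc (s, Ob.A) := fun s => by cases s <;> simp [sc]
  refine ⟨fun s k => ((lt6_ht .W).ms s k |>.comp (measurable_const.sub measurable_id)).mul
    ((lt6_ht .W).ms (!s) k |>.comp (measurable_const.sub measurable_id)),
    fun s => Bdd.mono_set (pb_WW6 hP hw hw' s none).1 (Set.Icc_subset_Icc le_rfl (by linarith)),
    fun s u h1 h2 => (pb_WW6 hP hw hw' s none).2 u ⟨h1, by linarith⟩,
    fun s => (pb_WW6 hP hw hw' s (some .L)).1, fun s => (pb_WW6 hP hw hw' s (some .T)).1,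
    fun s => (pb_WW6 hP hw hw' s (some .S)).1, fun s => ?_, fun s u h1 h2 =>
      mul_ne_zero (sF_neC s hw h1 h2) (sF_neC (!s) hw' h1 h2)⟩
  have h := ((inv_SF_WC s hw).mul (inv_SF_WC (!s) hw')).rate (s' := 0) (by
    rw [hsc]
    ring)
  refine h.congr' fun u => ?_
  rw [mul_inv]

section ww

variable {X : Bool → Option O3 → ℂ → ℂ} {P : Par6} {a b κ κ' : ℝ} {e : ℕ} {w w' : ℂ}
  {ob : (Bool → ℂ → ℝ) → OB} {lo hi κ₁ : ℝ} {E0 : Set ℝ}

/-- **The class W W at every height.** -/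
theorem clsVC_WW [hP : LnP P] (hB : LgBP X P a b κ κ' e) (hW : WnG P a b)
    (hBs : BsC X ob P lo hi κ₁ e E0) (hhi : hi ≤ 1 / 4) (hS : StC lo hi P) (hw : w.re = htL .W)
    (hw' : w'.re = htL .W) {cw : Ch6 × Ch6 → ℝ} (hcw0 : ∀ u, 0 ≤ cw u)
    (hc1 : 1 ≤ cw ((false, false), (false, false))) :
    ClsVC X P lo hi e .W .W w w' cw fun n => NURow.ZobjQ (Zc6 X .W .W w w' true)
      (Zc6 X .W .W w w' false) (51 / 100 * l) (n + aXt e .W .W) (n + aYt e .W .W)
      (fun _ _ k _ i => ln6 P (k i)) (fun _ _ _ k' i => ln6 P (k' i)) := by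
  intro η η' hη n
  obtain ⟨u0, hu0⟩ : ∃ u0 : Ch6 × Ch6, u0 = ((false, false), (false, false)) := ⟨_, rfl⟩
  have hok : okC6 .W u0.1 ∧ okC6 .W u0.2 := by
    rw [hu0]
    exact ⟨⟨by simp, by simp⟩, ⟨by simp, by simp⟩⟩
  have aX : aXt e .W .W = 0 := by
    unfold aXt htN htD
    simp
  have aY : aYt e .W .W = e := by
    unfold aYt htN htD
    simp
  refine ⟨fun u _ _ _ _ _ => if u = u0 then 1 else 0, fun u r O a a' z => ?_, ?_⟩
  · show ‖(if u = u0 then (1 : ℂ) else 0)‖ ≤ cw u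
    by_cases hu : u = u0
    · rw [if_pos hu, norm_one, hu, hu0]
      exact hc1
    · rw [if_neg hu, norm_zero]
      exact hcw0 u
  · have hO := cls_oneVC hhi hBs hok.1 hok.2 hw hw'
    have hQ := QOkC.of_oneC hO
    have e2 : (((aXt e .W .W + u0.2.2.toNat + u0.2.1.toNat : ℕ) : ℤ) -
        ((aYt e .W .W + u0.1.2.toNat + u0.1.1.toNat : ℕ) : ℤ)) = -(e : ℤ) := by
      rw [hu0, aX, aY]
      simp
    rw [e2] at hQ
    have hZ : ∀ s k u, YV6 X .W .W w w' u0 s k u = X s k u * (SF s k (w - u) * SF (!s) k (w' - u)) := by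
      intro s k u
      rw [hu0]
      cases s <;> rfl
    have h := ffc_SpG (spG_WW hP.good hw hw') hB hW hZ hQ hS n (D := η u0) (D1 := η' u0)
      fun r O => hη u0 r O
    have e0 : ∀ u : Ch6 × Ch6, (if u.1.1.toNat ≤ n + aXv e .W .W u ∧
        u.2.1.toNat ≤ n + aYv e .W .W u then
        FFC (YV6 X .W .W w w' u) P (n + aXv e .W .W u - u.1.1.toNat)
          (n + aYv e .W .W u - u.2.1.toNat) (η u) (η' u) (fun _ _ _ _ _ => if u = u0 then 1 else 0)
          else 0) =
        if u = u0 then FFC (YV6 X .W .W w w' u0) P n (n + e) (η u0) (η' u0)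
          (fun _ _ _ _ _ => 1) else 0 := by
      intro u
      by_cases hu : u = u0
      · subst hu
        subst hu0
        rw [if_pos rfl]
        have a1 : aXv e .W .W ((false, false), (false, false)) = 0 := by
          unfold PBR.PLX.aXv
          rw [aX]
          simp
        have a2 : aYv e .W .W ((false, false), (false, false)) = e := by
          unfold PBR.PLX.aYv
          rw [aY]
          simp
        rw [a1, a2]
        simp only [Bool.toNat_false, Nat.add_zero, Nat.sub_zero, Nat.zero_le, and_self, if_true]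
      · rw [if_neg hu]
        simp only [if_neg hu]
        split_ifs
        · exact FFC_zero_ins _ _ _ _ _ _
        · rfl
    rw [Finset.sum_congr rfl fun u _ => e0 u, Finset.sum_ite_eq', if_pos (Finset.mem_univ u0),
      aX, aY, ← h, hu0]
    rfl

end ww

/-! ### the classes D1, D1' -/

theorem sD_neC {d : ℝ} (h1 : -(19 / 5 * l) ≤ d) (h2 : d ≤ -(11 / 4 * l)) :
    Real.sin (d + l) ≠ 0 ∧ Real.sin (d - 2 * l) ≠ 0 ∧ Real.sin (d + -l) ≠ 0 ∧
      Real.sin (d + 2 * l) ≠ 0 := by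
  have hl := NUP1.l_pos
  refine ⟨sin_ne_neg (by linarith) (by linarith), ?_, sin_ne_neg (by linarith) (by linarith),
    sin_ne_neg (by linarith) (by linarith)⟩
  exact sin_ne_neg (by linarith) (by linarith)

/-- the inverse of the spectator of D1 -/
theorem sD_qiC (c : Bool) {w : ℂ} (hw : w.re = -(11 / 4) * l) :
    PB 0 (Set.Icc 0 (21 / 20 * l)) fun u => (SD c none (w - u))⁻¹ := by
  have hl := NUP1.l_pos
  cases c
  · have h := PB_Tk_inv (K := Set.Icc (-(19 / 5 * l)) (-(11 / 4 * l))) isCompact_Icc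
      (fun d hd => (sD_neC hd.1 hd.2).2.2.1) fun d hd => (sD_neC hd.1 hd.2).2.2.2
    refine h.one w fun x hx => ?_
    rw [hw]
    exact ⟨by linarith [hx.2], by linarith [hx.1]⟩
  · refine (PB.oneW _).congr' fun z => ?_
    show (1 : ℂ) = (1 : ℂ)⁻¹
    rw [inv_one]

/-- the spectators of D1 (`o = true`), D1' -/
theorem spG_D {P : Par6} (hP : GoodP6 P) (hL : P.jL ≤ 9 / 4) (o : Bool) {w : ℂ}
    (hw : w.re = -(11 / 4) * l) :
    SpG P fun s k u => SD (if o = true then s else !s) k (w - u) := by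
  have hl := NUP1.l_pos
  have g1 := hP.L2
  have g2 := hP.e13
  have g3 := hP.e45
  have L1 : loV (some .L) ≤ (1 - P.jL) * l ∧ (1 - P.jL) * l ≤ hiV (some .L) := by
    unfold loV hiV
    constructor <;> nlinarith
  have T1 : loV (some .T) ≤ -(l / 2) ∧ -(l / 2) ≤ hiV (some .T) := by
    unfold loV hiV
    constructor <;> linarith
  have S1 : loV (some .S) ≤ -((1 + P.e) * l) ∧ -((1 + P.e) * l) ≤ hiV (some .S) := by
    unfold loV hiV
    constructor <;> nlinarith
  refine ⟨fun s k => (lt6_SD.ms _ k).comp (measurable_const.sub measurable_id),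
    fun s => Bdd.mono_set (sD_q _ hw).1 (Set.Icc_subset_Icc (by linarith) (by linarith)),
    fun s u h1 h2 => (sD_q _ hw).2 u ⟨by linarith, by linarith⟩,
    fun s => sD_k _ .L hw L1.1 L1.2, fun s => sD_k _ .T hw T1.1 T1.2,
    fun s => sD_k _ .S hw S1.1 S1.2, fun s => ?_, fun s u h1 h2 => sD_nz _ hw (by linarith)
      (by linarith)⟩
  have h := sD_qiC (if o = true then s else !s) hw
  exact ⟨Bdd.mono_set h.1 (Set.Icc_subset_Icc le_rfl (by linarith)),
    fun u hu => h.2 u ⟨hu.1, by linarith [hu.2]⟩⟩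

section dd

variable {X : Bool → Option O3 → ℂ → ℂ} {P : Par6} {a b κ κ' : ℝ} {e : ℕ} {w : ℂ}
  {ob : (Bool → ℂ → ℝ) → OB} {lo hi κ₁ : ℝ} {E0 : Set ℝ}

/-- **The classes D1, D1' at every height.** -/
theorem clsDC_of [hP : LnP P] (hL : P.jL ≤ 9 / 4) (hB : LgBP X P a b κ κ' e) (hW : WnG P a b)
    (hBs : BsC X ob P lo hi κ₁ e E0) (hhi : hi ≤ 1 / 4) (hS : StC lo hi P) (o : Bool)
    (hw : w.re = -(11 / 4) * l) :
    ClsDC X P lo hi e o w fun n => NURow.ZobjQ (YD6 X o w true) (YD6 X o w false) (51 / 100 * l) n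
      (n + e) (fun _ _ k _ i => ln6 P (k i)) (fun _ _ _ k' i => ln6 P (k' i)) := by
  intro η η' hη n
  exact ffc_SpG (spG_D hP.good hL o hw) hB hW (fun s k u => YD6_eq X o w s k u)
    (QOkC.of_oneC (cls_oneDC hhi hBs o hw)) hS n hη

end dd

end PLT.Lg

end
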