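import Pool.Agent.PLT.LgAllC
import Pool.Agent.PLT.ClsWC
import Pool.Agent.PLT.BsCR
import Pool.Agent.PLT.OthY
import Pool.Agent.PHK.LgRes

/-!
# The class formulas of the regular function, rows at complex places, any point `P`

* `RGC D ex c0 P lo hi xa xb e`: data `D` with rows and points of the cutoffs `PtW lo`, window `xa .. xb` of
  the inverses, strip `lo .. hi` of the quanta;
* `RGC.bs`, `RGC.lg`: the base;
* **`RGC.clsV`** (the 16 classes, almost every height), **`RGC.clsW`** (W W, every height), **`RGC.clsD`** (D1,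
  D1', every height): the integrands `zPtP`, `zPtDP` as functionals on complex curves.
-/

set_option autoImplicit false
set_option linter.unusedSectionVars false
set_option linter.unusedVariables false

noncomputable section

open Complex MeasureTheory Finset
open scoped ENNReal

open PLX (Fil Ends)

namespace PLT.BY

open NUO NUP1 NUP1S NUP1S.Ab NUP1S.AbC NUP1S.Mg NURow NUCR NUP1.Leg NUGC.PLX PBR.PLX
open NUP1.Bd (wt qg Ob)
open PHK
open PLT.Lg
open PLTX (RG6 PtW bsC_RG GoodT PhT)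
open Pool.Agent.PLX (RU ln6)
open PBQ.PLX (KD)

/-- **data of the classes** at the point `P`: strip `lo .. hi` of the quanta, window `xa .. xb` of the
inverses -/
structure RGC {m M : ℕ} (D : RU m M) (ex : Bool → List ℂ) (c0 : ℝ) (P : Par6) (lo hi xa xb : ℝ)
    (e : ℕ) : Prop where
  hM : M = m + e
  rg : RG6 D ex
  c : ‖D.c‖ = c0
  c' : ‖D.c'‖ = c0
  lo0 : -(1 / 20) ≤ lo
  lo1 : lo ≤ 0
  hi1 : hi ≤ 1 / 4
  hx : ∀ a i, PtW lo (xrU D a i)
  hex : ∀ a, ∀ w ∈ ex a, PtW lo w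
  st : StC lo hi P
  gT : GoodT P
  jL : P.jL ≤ 9 / 4
  φ : PhT (N := fun a => cond a m M) xa xb D.β (xrU D) ex
  wn : WnG P xa xb
  a6 : xa ≤ 1 / 10 * l

section one

variable {m M e : ℕ} {D : RU m M} {ex : Bool → List ℂ} {c0 : ℝ} {P : Par6} {lo hi xa xb : ℝ}

/-- **the base of one body data** -/
theorem RGC.bs (h : RGC D ex c0 P lo hi xa xb e) :
    BsC (XB D.X D.Y) (obRU6 D ex c0) P lo hi (2 * D.β) e (⋃ a, Set.range fun i => (xrU D a i).im) :=
  bsC_RG h.hM h.rg h.c h.c' h.lo0 h.lo1 h.hx h.hex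

/-- **the base of the classes** -/
theorem RGC.lg (h : RGC D ex c0 P lo hi xa xb e) :
    LgBP (XB D.X D.Y) P xa xb (2 * D.β) (2 * D.β) e :=
  h.rg.lgBP h.hM h.gT h.φ h.wn.a0.le h.a6 h.wn.b3 h.wn.a1 h.wn.b1

theorem RGC.ka (h : RGC D ex c0 P lo hi xa xb e) : 2 * D.β + 1 / 2 < 6 := by
  linarith [h.rg.b1]

theorem RGC.xa51 (h : RGC D ex c0 P lo hi xa xb e) : xa ≤ 51 / 100 * l := by
  have hl := NUP1.l_pos
  linarith [h.a6]

end one

section fil

variable [Fil] [Ends] {m M k : ℕ} {D : RU m M} {ex : Bool → List ℂ} {c0 : ℝ} {P : Par6} [LnP P]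
  {lo hi xa xb : ℝ} {K : KD} {kD : Bool → ℂ → ℂ}

omit [Fil] [Ends] in
/-- the lines of the objects -/
theorem lnP_ln6 (P : Par6) (k : O3) : lnP P k = ln6 P k := by
  cases k
  · rfl
  · rfl
  · show -(1 / 2 * l) = -(l / 2)
    ring

omit [Fil] [Ends] in
theorem lX6_ln6 (P : Par6) : PHK.lX6 P = fun _ _ k _ i => ln6 P (k i) := by
  funext p p' k k' i
  exact lnP_ln6 P (k i)

omit [Fil] [Ends] in
theorem lY6_ln6 (P : Par6) : PHK.lY6 P = fun _ _ _ k' i => ln6 P (k' i) := by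
  funext p p' k k' i
  exact lnP_ln6 P (k' i)

/-- the integrand of a class -/
theorem zPtP_eq (P : Par6) (K : KD) (k : ℕ) (t t' : HT) (y : ℝ × ℝ) :
    zPtP P K k t t' y = fun n => NURow.ZobjQ
      (Zc6 K.Z t t' (vl (htL t) y.1) (vl (htL t') y.2) true)
      (Zc6 K.Z t t' (vl (htL t) y.1) (vl (htL t') y.2) false) (51 / 100 * l)
      (n + aXt (Fil.xe k) t t') (n + aYt (Fil.xe k) t t')
      (fun _ _ k _ i => ln6 P (k i)) (fun _ _ _ k' i => ln6 P (k' i)) :=
  funext fun n => by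
    rw [← lX6_ln6, ← lY6_ln6]
    exact cF_Zc6 K.Z K.kF K.kP K.kF' K.kP' t t' (51 / 100 * l) (Fil.xe k) n (PHK.lX6 P) (PHK.lY6 P) _ _

/-- **The class formulas at almost all heights.** -/
theorem RGC.clsV (h : RGC D ex c0 P lo hi xa xb (Fil.xe k)) (hK : K.Z = XB D.X D.Y) (t t' : HT) :
    ∀ᵐ y : ℝ × ℝ, ClsVC K.Z P lo hi (Fil.xe k) t t' (vl (htL t) y.1) (vl (htL t') y.2)
      (fun u => cw6 K t t' (vl (htL t) y.1) (vl (htL t') y.2) u) (zPtP P K k t t' y) := by
  have hB := h.lg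
  have hBs := h.bs
  rw [← hK] at hB hBs
  have key := cls_aeC hB h.wn h.xa51 h.ka hBs h.hi1 h.st t t'
    (cw := fun y u => cw6 K t t' (vl (htL t) y.1) (vl (htL t') y.2) u)
    (fun y u => cw6_nonneg _ _ _ _ _ _) fun y u hu hu' => cV6_le K hu hu' _ _
  filter_upwards [key] with y hy
  rw [zPtP_eq]
  exact hy

/-- **The class formula of W W at every height.** -/
theorem RGC.clsW (h : RGC D ex c0 P lo hi xa xb (Fil.xe k)) (hK : K.Z = XB D.X D.Y) (y : ℝ × ℝ) :
    ClsVC K.Z P lo hi (Fil.xe k) .W .W (vl (htL .W) y.1) (vl (htL .W) y.2)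
      (fun u => cw6 K .W .W (vl (htL .W) y.1) (vl (htL .W) y.2) u) (zPtP P K k .W .W y) := by
  have hB := h.lg
  have hBs := h.bs
  rw [← hK] at hB hBs
  rw [zPtP_eq]
  refine clsVC_WW hB h.wn hBs h.hi1 h.st (by simp [vl]) (by simp [vl])
    (fun u => cw6_nonneg _ _ _ _ _ _) (le_of_eq ?_)
  show (1 : ℝ) = cw6 K .W .W _ _ ((false, false), (false, false))
  unfold cw6
  rw [if_pos ⟨⟨by simp, by simp⟩, ⟨by simp, by simp⟩⟩]
  simp [PBQ.PLX.KD.wt, wgt2, ownH6, gH6']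

/-- **The classes D1 (`o = true`), D1' at every height.** -/
theorem RGC.clsD (h : RGC D ex c0 P lo hi xa xb (Fil.xe k)) (hK : K.Z = XB D.X D.Y) (o : Bool)
    (y : ℝ) : ClsDC K.Z P lo hi (Fil.xe k) o (vl (-(11 / 4) * l) y) (zPtDP P K kD k o y) := by
  have hB := h.lg
  have hBs := h.bs
  rw [← hK] at hB hBs
  intro η η' hη n
  have key := clsDC_of h.jL hB h.wn hBs h.hi1 h.st o
    (w := vl (-(11 / 4) * l) y) (by simp [vl]) η η' hη n
  rw [← lX6_ln6, ← lY6_ln6] at key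
  refine Eq.trans ?_ key
  show (cDo o (kD o)).Z (K.Z true) (K.Z false) (51 / 100 * l) n (n + Fil.xe k) (PHK.lX6 P)
    (PHK.lY6 P) (vl (-(11 / 4) * l) y) = _
  cases o
  · have e : ∀ a, YD6 K.Z false (vl (-(11 / 4) * l) y) a =
        XS a (K.Z a) (fl SD) (fun _ _ _ => 1) (vl (-(11 / 4) * l) y) 0 := by
      intro a
      funext k u
      show _ * (1 * SD (!a) k (_ - u)) = _ * (SD (!a) k (_ - u) * 1)
      ring
    rw [e, e]
    rfl
  · rfl

end fil

end PLT.BY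

end
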