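import Pool.Agent.PLT.GasPotC
import Pool.Agent.PHK.ClsCrv6
import Pool.Agent.PHK.Lab

/-!
# Sea on a curve: the gas of quanta in the field of the objects as an integral over the curves

* **`gas_crvC`**: general one body functions: the gas on the line `Re u = l` is `(a! b!)⁻¹` times the
  integral of the complex integrand over two curves in the strip `KsC v w`; integrability;
* `QOkC Z v w κ Q`: the one body functions of the quanta of a class are regular in the strip;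
  `QOkC.of_six`, `QOkC.mono`, `QOkC.sub`;
* `gKC_int`, `integrable_gKC`, `gas_gKC`, `integrable_gKC_mul`, **`trmC_one`**;
* **`FFC_fI`**, **`FFC_crv`**: the functional without insertion does not depend on the curves.
-/

set_option autoImplicit false
set_option linter.unusedSectionVars false

noncomputable section

open Complex MeasureTheory Finset
open scoped ENNReal

open PLX (Fil)

namespace PLT

open NUO NUP1 NUP1S NUP1S.Ab NUP1S.AbC NUGC NUGC.PLX NUCR PHK
open PBF.PLX (gK Ins Crs QOk)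

variable {r : ℕ}

/-! ### general one body functions -/

/-- **The gas in the field of the objects = the integral over two curves.** -/
theorem gas_crvC {v w : ℝ} {P : Par6} (hP : StC v w P) {D D1 : Bool → ℝ → ℂ}
    (hD : ∀ s, CrvC v w (D s) (D1 s)) (O : Fin r → Xo) {κ : ℝ} (hκ : 0 < κ) {Q : ℤ}
    {G G' : ℂ → ℂ} (m1 : Measurable G) (m2 : Measurable G')
    (d1 : ∀ u : ℂ, u.re ∈ KsC v w → DifferentiableAt ℂ G u)
    (d2 : ∀ u : ℂ, u.re ∈ KsC v w → DifferentiableAt ℂ G' u)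
    (b1 : Bdd (KsC v w) (-(κ + 2 * Q)) G) (b2 : Bdd (KsC v w) (-(κ - 2 * Q)) G') {a b : ℕ}
    (hn : ((a : ℤ) + chgO6 O true) - ((b : ℤ) + chgO6 O false) = Q) :
    Integrable (fun x : (Fin a → ℝ) × (Fin b → ℝ) =>
      Fc p0 (g2 (fun z => G z * potO6 P O true z) (fun z => G' z * potO6 P O false z))
        (cCt a b (crvC true NUP1.l (D true) (D1 true)) (crvC false NUP1.l (D false) (D1 false)))
        (Sum.elim x.1 x.2)) ∧
    gas a b NUP1.l (fun z => G z * potO6 P O true z) (fun z => G' z * potO6 P O false z) =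
      ((a.factorial : ℂ) * b.factorial)⁻¹ * ∫ x : (Fin a → ℝ) × (Fin b → ℝ),
        Fc p0 (g2 (fun z => G z * potO6 P O true z) (fun z => G' z * potO6 P O false z))
          (cCt a b (crvC true NUP1.l (D true) (D1 true)) (crvC false NUP1.l (D false) (D1 false)))
          (Sum.elim x.1 x.2) := by
  have hl := Bd.l_pos
  have h1 := hP.d1
  have hg := reg_potC hP O m1 m2 d1 d2 b1 b2 hn
  have CX := hD true
  have CY := hD false
  have ht := CX.tau
  have G0 : Geo p0 κ ((1 - w) * NUP1.l) ((1 - v) * NUP1.l) :=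
    geo_p0 hκ (ht.1.trans ht.2) (by nlinarith)
  have cX : CrvOk p0 ((1 - w) * NUP1.l) ((1 - v) * NUP1.l) true NUP1.l (D true) (D1 true) :=
    ⟨_, _, CX, le_rfl, le_rfl, fun p hp => by simp [p0] at hp⟩
  have cY : CrvOk p0 ((1 - w) * NUP1.l) ((1 - v) * NUP1.l) false NUP1.l (D false) (D1 false) :=
    ⟨_, _, CY, le_rfl, le_rfl, fun p hp => by simp [p0] at hp⟩
  obtain ⟨hI, hN⟩ := NI_two G0 (cX.ok G0) (cY.ok G0) rfl rfl a b hg
  refine ⟨hI, ?_⟩
  rw [gas_eq_ZZc G0 ht.1 ht.2 a b hg, ZZ_crv G0 cX cY a b hg, hN, mul_inv]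
  rfl

/-! ### the one body functions of a class -/

/-- **the one body functions of the quanta of a class are regular in the strip** `KsC v w`, rate
`κ > 0`, total charge `Q` -/
structure QOkC (Z : Bool → Option O3 → ℂ → ℂ) (v w κ : ℝ) (Q : ℤ) : Prop where
  kpos : 0 < κ
  m : ∀ s, Measurable (Z s none)
  d : ∀ s (u : ℂ), u.re ∈ KsC v w → DifferentiableAt ℂ (Z s none) u
  b : ∀ s, Bdd (KsC v w) (-(κ + 2 * (sg s * Q : ℤ))) (Z s none)

/-- the landed class -/
theorem QOkC.of_six {Z : Bool → Option O3 → ℂ → ℂ} {δ κ : ℝ} {Q : ℤ} (h : QOk6 Z δ κ Q) :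
    QOkC Z (-δ) δ κ Q := by
  have e : KsC (-δ) δ = Ks6 δ := by
    unfold KsC Ks6
    rw [show (1 : ℝ) - -δ = 1 + δ by ring]
  refine ⟨h.kpos, h.m, fun s u hu => h.d s u ?_, fun s => ?_⟩
  · rw [← e]
    exact hu
  · rw [e]
    exact h.b s

theorem QOkC.mono {Z : Bool → Option O3 → ℂ → ℂ} {v w κ κ' : ℝ} {Q : ℤ} (h : QOkC Z v w κ Q)
    (h0 : 0 < κ') (h1 : κ' ≤ κ) : QOkC Z v w κ' Q where
  kpos := h0
  m := h.m
  d := h.d
  b s := by
    obtain ⟨C, hC, hb⟩ := h.b s
    refine ⟨C, hC, fun z hz => (hb z hz).trans (mul_le_mul_of_nonneg_left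
      (Real.exp_le_exp.2 (mul_le_mul_of_nonneg_right (by linarith) (abs_nonneg _))) hC)⟩

theorem KsC_sub {v w v' w' : ℝ} (h1 : v ≤ v') (h2 : w' ≤ w) : KsC v' w' ⊆ KsC v w := by
  have hl := Bd.l_pos
  exact Set.Icc_subset_Icc (by nlinarith) (by nlinarith)

theorem QOkC.sub {Z : Bool → Option O3 → ℂ → ℂ} {v w v' w' κ : ℝ} {Q : ℤ} (h : QOkC Z v w κ Q)
    (h1 : v ≤ v') (h2 : w' ≤ w) : QOkC Z v' w' κ Q :=
  ⟨h.kpos, h.m, fun s u hu => h.d s u (KsC_sub h1 h2 hu), fun s => bdd_sub (h.b s) (KsC_sub h1 h2)⟩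

/-! ### the functional -/

variable {Z : Bool → Option O3 → ℂ → ℂ} {P : Par6} {v w κ : ℝ} {Q : ℤ}

/-- **the gas of the quanta of a configuration on the curves** -/
theorem gKC_int (h : QOkC Z v w κ Q) (hP : StC v w P) {D D1 : Bool → ℝ → ℂ}
    (hD : ∀ s, CrvC v w (D s) (D1 s)) (O : Fin r → Xo) {a b : ℕ}
    (hn : ((a : ℤ) + chgO6 O true) - ((b : ℤ) + chgO6 O false) = Q) :
    Integrable (fun x : (Fin a → ℝ) × (Fin b → ℝ) => gKC (gF6 Z P O) D D1 a b x) ∧
    gas a b NUP1.l (fun z => Z true none z * potO6 P O true z)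
      (fun z => Z false none z * potO6 P O false z) =
      ((a.factorial : ℂ) * b.factorial)⁻¹ *
        ∫ x : (Fin a → ℝ) × (Fin b → ℝ), gKC (gF6 Z P O) D D1 a b x := by
  have e1 : (((sg true * Q : ℤ)) : ℝ) = Q := by simp [sg]
  have e2 : (((sg false * Q : ℤ)) : ℝ) = -(Q : ℝ) := by simp [sg]
  have e3 : gF6 Z P O = g2 (fun z => Z true none z * potO6 P O true z)
      (fun z => Z false none z * potO6 P O false z) := by
    funext s z
    cases s <;> rfl
  have h0 := gas_crvC hP hD O h.kpos (h.m true) (h.m false) (h.d true)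
    (h.d false) ((h.b true).rate (by rw [e1])) ((h.b false).rate (by rw [e2]; ring)) hn
  unfold gKC
  rw [e3]
  exact h0

theorem integrable_gKC (h : QOkC Z v w κ Q) (hP : StC v w P) {D D1 : Bool → ℝ → ℂ}
    (hD : ∀ s, CrvC v w (D s) (D1 s)) (O : Fin r → Xo) {a b : ℕ}
    (hn : ((a : ℤ) + chgO6 O true) - ((b : ℤ) + chgO6 O false) = Q) :
    Integrable (fun x : (Fin a → ℝ) × (Fin b → ℝ) => gKC (gF6 Z P O) D D1 a b x) :=
  (gKC_int h hP hD O hn).1

theorem gas_gKC (h : QOkC Z v w κ Q) (hP : StC v w P) {D D1 : Bool → ℝ → ℂ}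
    (hD : ∀ s, CrvC v w (D s) (D1 s)) (O : Fin r → Xo) {a b : ℕ}
    (hn : ((a : ℤ) + chgO6 O true) - ((b : ℤ) + chgO6 O false) = Q) :
    gas a b NUP1.l (fun z => Z true none z * potO6 P O true z)
      (fun z => Z false none z * potO6 P O false z) =
      ((a.factorial : ℂ) * b.factorial)⁻¹ *
        ∫ x : (Fin a → ℝ) × (Fin b → ℝ), gKC (gF6 Z P O) D D1 a b x :=
  (gKC_int h hP hD O hn).2

/-- bounded measurable insertions -/
theorem integrable_gKC_mul (h : QOkC Z v w κ Q) (hP : StC v w P) {D D1 : Bool → ℝ → ℂ}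
    (hD : ∀ s, CrvC v w (D s) (D1 s)) (O : Fin r → Xo) {a b : ℕ}
    (hn : ((a : ℤ) + chgO6 O true) - ((b : ℤ) + chgO6 O false) = Q)
    {f : (Fin a → ℝ) × (Fin b → ℝ) → ℂ} (hf : AEStronglyMeasurable f) {C : ℝ}
    (hC : ∀ x, ‖f x‖ ≤ C) :
    Integrable (fun x : (Fin a → ℝ) × (Fin b → ℝ) => gKC (gF6 Z P O) D D1 a b x * f x) :=
  (integrable_gKC h hP hD O hn).mul_bdd (c := C) hf (Filter.Eventually.of_forall hC)

theorem nAC_hn {n n' : ℕ} {O : Fin r → Xo} (hc : chgO6 O true ≤ n ∧ chgO6 O false ≤ n' ∧ cnt6 O)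
    (hn : (n : ℤ) - n' = Q) :
    ((nA6 n O true : ℕ) + chgO6 O true) - ((nA6 n' O false : ℕ) + chgO6 O false) = Q := by
  unfold nA6
  have h1 := hc.1
  have h2 := hc.2.1
  omega

/-- **the term of a configuration without insertion does not depend on the curve** -/
theorem trmC_one (h : QOkC Z v w κ Q) (hP : StC v w P) {D D1 : CrsC}
    (O : Fin r → Xo) (hD : ∀ s, CrvC v w (D r O s) (D1 r O s)) {n n' : ℕ} (hn : (n : ℤ) - n' = Q) :
    trmC Z P n n' D D1 (fun _ _ _ _ _ => 1) r O =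
      if chgO6 O true ≤ n ∧ chgO6 O false ≤ n' ∧ cnt6 O then
        wK6 Z P O * gas (nA6 n O true) (nA6 n' O false) NUP1.l
          (fun z => Z true none z * potO6 P O true z) (fun z => Z false none z * potO6 P O false z)
      else 0 := by
  unfold trmC
  split_ifs with hc
  · rw [gas_gKC h hP hD O (nAC_hn hc hn)]
    simp only [mul_one]
  · rfl

/-- the functional without insertion as the sum of the terms `fI` -/
theorem FFC_fI (h : QOkC Z v w κ Q) (hP : StC v w P) {D D1 : CrsC} {n n' : ℕ}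
    (hD : ∀ r ≤ 2 * (n + n'), ∀ᵐ O ∂(Measure.pi fun _ : Fin r => nu),
      ∀ s, CrvC v w (D r O s) (D1 r O s))
    (hn : (n : ℤ) - n' = Q) :
    FFC Z P n n' D D1 (fun _ _ _ _ _ => 1) =
      ∑ r ∈ range (2 * (n + n') + 1), ((r.factorial : ℕ) : ℂ)⁻¹ *
        ∫ O : Fin r → Xo, fI Z P NUP1.l n n' O ∂(Measure.pi fun _ => nu) := by
  unfold FFC
  refine Finset.sum_congr rfl fun r hr => ?_
  congr 1
  refine integral_congr_ae ?_
  filter_upwards [hD r (Nat.lt_succ_iff.1 (Finset.mem_range.1 hr))] with O hO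
  rw [trmC_one h hP O hO hn, fI_fin]

/-- **The functional without insertion does not depend on the curves.** -/
theorem FFC_crv (h : QOkC Z v w κ Q) (hP : StC v w P) {D D1 E E1 : CrsC} {n n' : ℕ}
    (hD : ∀ r ≤ 2 * (n + n'), ∀ᵐ O ∂(Measure.pi fun _ : Fin r => nu),
      ∀ s, CrvC v w (D r O s) (D1 r O s))
    (hE : ∀ r ≤ 2 * (n + n'), ∀ᵐ O ∂(Measure.pi fun _ : Fin r => nu),
      ∀ s, CrvC v w (E r O s) (E1 r O s))
    (hn : (n : ℤ) - n' = Q) :
    FFC Z P n n' D D1 (fun _ _ _ _ _ => 1) = FFC Z P n n' E E1 (fun _ _ _ _ _ => 1) := by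
  rw [FFC_fI h hP hD hn, FFC_fI h hP hE hn]

end PLT

end
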