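import Pool.Agent.PLT.ClsCrvC
import Pool.Agent.PHK.ClsEqW
import Pool.Agent.PHK.ClsZ

/-!
# The class formula on complex curves, asymmetric strip

* **`ZobjQ_FFC`** : the state sum = the functional `FFC` on any curves in the strip `KsC v w`, from the
  identities of the words;
* `trmC_ins`, `FFC_ins`, `FFC_TE`, **`ZobjQ_FFCZ`** : the classes with zeros.
-/

set_option autoImplicit false
set_option linter.unusedSectionVars false
set_option linter.unusedVariables false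

noncomputable section

open Complex MeasureTheory Finset
open scoped ENNReal Nat

namespace PLT

open NUO NUP1 NUP1S NUP1S.Ab NUP1S.AbC NUGC NUGC.PLX NUCR PHK
open PBF.PLX (gK Ins Crs QOk)
open NUP1.Bd (Ob)

variable {Z : Bool → Option O3 → ℂ → ℂ} {P : Par6} {n n' : ℕ} {κ κ' κ1 v w : ℝ}

/-- **The class formula**, functional on curves in the strip of the offsets `v .. w`. -/
theorem ZobjQ_FFC {ln : O3 → ℝ} {x0 : ℝ} {N : ℕ} {Q : ℤ} (hP : GoodP6 P)
    (hZ : ∀ s k, Measurable (Z s k)) (h : DecQ6 Z P κ κ' ((n : ℝ) - n'))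
    (hQ : QOkC Z v w κ1 Q) (hS : StC v w P) (hn : (n : ℤ) - n' = Q) {D D1 : CrsC}
    (hD : ∀ r ≤ 2 * (n + n'), ∀ᵐ O ∂(Measure.pi fun _ : Fin r => nu),
      ∀ s, CrvC v w (D r O s) (D1 r O s))
    (hN : 2 * (n + n') ≤ N)
    (hW : ∀ (p p' : ℕ) (k : Fin p → O3) (k' : Fin p' → O3), ∑ i, c3 (k i) ≤ n →
      ∑ i, c3 (k' i) ≤ n' → ∀ᵐ t : Fin p ⊕ Fin p' → ℝ ∂(Measure.pi fun _ => volume),
        WordId6 Z P ln x0 n n' N k k' t) :
    NURow.ZobjQ (Z true) (Z false) x0 n n' (fun _ _ k _ i => ln (k i))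
      (fun _ _ _ k' i => ln (k' i)) = FFC Z P n n' D D1 (fun _ _ _ _ _ => 1) := by
  rw [FFC_fI hQ hS hD hn]
  exact ZobjQ_of_word hP hZ h hN hW

/-! ### classes with zeros -/

/-- the term with an insertion which depends on the objects only -/
theorem trmC_ins (ψ : (r : ℕ) → (Fin r → Xo) → ℂ) (D D1 : CrsC) (r : ℕ) (O : Fin r → Xo) :
    trmC Z P n n' D D1 (fun r O _ _ _ => ψ r O) r O =
      trmC Z P n n' D D1 (fun _ _ _ _ _ => 1) r O * ψ r O := by
  unfold trmC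
  split_ifs
  · simp only [mul_one]
    rw [integral_mul_const]
    ring
  · rw [zero_mul]

/-- **the functional with an insertion which depends on the objects only** -/
theorem FFC_ins {Q : ℤ} (h : QOkC Z v w κ Q) (hP : StC v w P) {D D1 : CrsC}
    (hD : ∀ r ≤ 2 * (n + n'), ∀ᵐ O ∂(Measure.pi fun _ : Fin r => nu),
      ∀ s, CrvC v w (D r O s) (D1 r O s))
    (hn : (n : ℤ) - n' = Q) (ψ : (r : ℕ) → (Fin r → Xo) → ℂ) :
    FFC Z P n n' D D1 (fun r O _ _ _ => ψ r O) =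
      ∑ r ∈ range (2 * (n + n') + 1), ((r ! : ℕ) : ℂ)⁻¹ *
        ∫ O : Fin r → Xo, fI Z P NUP1.l n n' O * ψ r O ∂(Measure.pi fun _ => nu) := by
  unfold FFC
  refine Finset.sum_congr rfl fun r hr => ?_
  congr 1
  refine integral_congr_ae ?_
  filter_upwards [hD r (Nat.lt_succ_iff.1 (Finset.mem_range.1 hr))] with O hO
  rw [trmC_ins, trmC_one h hP O hO hn, fI_fin]

variable {ν : Bool → Type} [∀ s, Fintype (ν s)] [∀ s, LinearOrder (ν s)]

/-- one set of holes as a functional -/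
theorem FFC_TE {ζ : ∀ s, ν s → ℂ} (E : Finset (ν true)) (E' : Finset (ν false))
    (h : QOkC (ZE Z ζ E E') v w κ (((n + E.card : ℕ) : ℤ) - ((n' + E'.card : ℕ) : ℤ)))
    (hP : StC v w P) {D D1 : CrsC}
    (hD : ∀ r ≤ 2 * ((n + E.card) + (n' + E'.card)),
      ∀ᵐ O ∂(Measure.pi fun _ : Fin r => nu), ∀ s, CrvC v w (D r O s) (D1 r O s)) (c : ℂ) :
    FFC (ZE Z ζ E E') P (n + E.card) (n' + E'.card) D D1
        (fun _ O _ _ _ => c * psE P ζ E E' O) =
      ∑ r ∈ range (2 * (n + n') + 1), ((r ! : ℕ) : ℂ)⁻¹ *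
        (c * ∫ O : Fin r → Xo, TE Z P ζ n n' E E' (Fin r) O ∂(Measure.pi fun _ => nu)) := by
  rw [FFC_ins h hP hD rfl fun r O => c * psE P ζ E E' O]
  have hsub : range (2 * (n + n') + 1) ⊆ range (2 * ((n + E.card) + (n' + E'.card)) + 1) := by
    intro r hr
    rw [mem_range] at hr ⊢
    omega
  rw [← sum_subset hsub fun r _ hr => ?_]
  · refine sum_congr rfl fun r _ => ?_
    have e2 : ∀ O : Fin r → Xo, fI (ZE Z ζ E E') P NUP1.l (n + E.card) (n' + E'.card) O *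
        (c * psE P ζ E E' O) = c * TE Z P ζ n n' E E' (Fin r) O := by
      intro O
      show _ = c * (fI (ZE Z ζ E E') P NUP1.l (n + E.card) (n' + E'.card) O * psE P ζ E E' O)
      ring
    simp only [e2]
    rw [integral_const_mul]
  · rw [mem_range, not_lt] at hr
    have e0 : ∀ O : Fin r → Xo, fI (ZE Z ζ E E') P NUP1.l (n + E.card) (n' + E'.card) O *
        (c * psE P ζ E E' O) = 0 := by
      intro O
      by_contra hc
      have h1 : fI (ZE Z ζ E E') P NUP1.l (n + E.card) (n' + E'.card) O * psE P ζ E E' O ≠ 0 := by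
        intro h0
        exact hc (by rw [mul_left_comm, h0, mul_zero])
      have h2 := (fI_psE_ne h1).2.2
      rw [Fintype.card_fin] at h2
      omega
    simp only [e0, integral_zero, mul_zero]

/-- **The class formula** of a class with zeros, functionals on curves. -/
theorem ZobjQ_FFCZ {ζ ρ : ∀ s, ν s → ℂ} (hζ : ZStrip P ζ)
    (hI : ∀ (E : Finset (ν true)) (E' : Finset (ν false)) {ι : Type} [Fintype ι]
      (K : ι → Bool × Kd6), Integrable (fun t : ι → ℝ =>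
        fI (ZE Z ζ E E') P l (n + E.card) (n' + E'.card) fun i => xo (K i) (t i))
        (Measure.pi fun _ => volume)) {ln : O3 → ℝ} {x0 : ℝ} {N : ℕ} (hN : 2 * (n + n') ≤ N)
    (hW : ∀ (p p' : ℕ) (k : Fin p → O3) (k' : Fin p' → O3), ∑ i, c3 (k i) ≤ n →
      ∑ i, c3 (k' i) ≤ n' → ∀ᵐ t : Fin p ⊕ Fin p' → ℝ ∂(Measure.pi fun _ => volume),
        WordIdZ Z P ζ ρ ln x0 n n' N k k' t) (hP : StC v w P)
    (hQ : ∀ (E : Finset (ν true)) (E' : Finset (ν false)),
      QOkC (ZE Z ζ E E') v w κ (((n + E.card : ℕ) : ℤ) - ((n' + E'.card : ℕ) : ℤ)))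
    {D D1 : Finset (ν true) → Finset (ν false) → CrsC}
    (hD : ∀ E E' (r : ℕ) (O : Fin r → Xo), ∀ s, CrvC v w (D E E' r O s) (D1 E E' r O s)) :
    NURow.ZobjQ (Z true) (Z false) x0 n n' (fun _ _ k _ i => ln (k i)) (fun _ _ _ k' i => ln (k' i)) =
      ∑ E : Finset (ν true), ∑ E' : Finset (ν false),
        FFC (ZE Z ζ E E') P (n + E.card) (n' + E'.card) (D E E') (D1 E E')
          (fun _ O _ _ _ => kaE ζ ρ E E' * psE P ζ E E' O) := by
  rw [ZobjQ_of_wordZ hζ hI hN hW]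
  have e1 : ∀ E E', FFC (ZE Z ζ E E') P (n + E.card) (n' + E'.card) (D E E') (D1 E E')
          (fun _ O _ _ _ => kaE ζ ρ E E' * psE P ζ E E' O) =
      ∑ r ∈ range (2 * (n + n') + 1), ((r ! : ℕ) : ℂ)⁻¹ *
        (kaE ζ ρ E E' * ∫ O : Fin r → Xo, TE Z P ζ n n' E E' (Fin r) O
          ∂(Measure.pi fun _ => nu)) := fun E E' =>
    FFC_TE E E' (hQ E E') hP (fun r _ => Filter.Eventually.of_forall fun O => hD E E' r O) _
  simp only [e1, int_TZ hζ hI]
  simp only [Finset.mul_sum]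
  rw [Finset.sum_comm]
  refine Finset.sum_congr rfl fun E _ => ?_
  rw [Finset.sum_comm]

end PLT

end
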