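import Pool.Agent.PHK.ClsMeas6
import Pool.Agent.PLT.FDefC

/-!
# Sea on a curve: measurability of the terms of the functional

* `MCrC D D1`: the curves are jointly measurable in the configuration and the parameter
  (`MCrC.of_six`: the curves of (P));
* `hqC`, `gKC_eqM`, **`measurable_gKC`** (shape of `MCC.g`);
* **`measurable_trmC`, `measurable_trAC`, `good_ofC`**; with a parameter: `measurable_trm_sC`,
  `measurable_trA_sC`; `measurable_trEC`.

Weights, conditions, selection: `PHK/ClsMeas6`.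
-/

set_option autoImplicit false
set_option linter.unusedSectionVars false

noncomputable section

open Complex MeasureTheory Finset
open scoped ENNReal
open PLX (Fil)

namespace PLT

open NUO NUP1 NUP1S NUP1S.Ab NUP1S.AbC NUGC NUGC.PLX NUCR PHK
open PBF.PLX (Ins Crs InsE MCr MIn sS)

/-- the curves are jointly measurable in the configuration and the parameter -/
structure MCrC (D D1 : CrsC) : Prop where
  m : ∀ r s, Measurable fun p : (Fin r → Xo) × ℝ => D r p.1 s p.2
  m' : ∀ r s, Measurable fun p : (Fin r → Xo) × ℝ => D1 r p.1 s p.2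

theorem MCrC.of_six [Fil] {η η' : Crs} (h : MCr η η') :
    MCrC (fun r O => dF (η r O)) (fun r O => dF (η' r O)) where
  m r s := by
    have h1 := Fil.measurable_cv_uncurry s (h.m r)
    unfold dF dA
    exact (Complex.measurable_ofReal.comp h1).mul_const I
  m' r s := by
    have h1 := Fil.measurable_cv_uncurry s (h.m' r)
    unfold dF dA
    exact (Complex.measurable_ofReal.comp h1).mul_const I

section meas

variable {r : ℕ} {P : Par6} {Z : Bool → Option O3 → ℂ → ℂ}

/-! ### the quanta -/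

/-- weight of a quantum on the curve -/
def hqC (Z : Bool → Option O3 → ℂ → ℂ) (P : Par6) (O : Fin r → Xo) (s : Bool) (D D1 : Bool → ℝ → ℂ)
    (t : ℝ) : ℂ :=
  (2 * Real.pi : ℂ)⁻¹ * (1 + D1 s t) * (Z s none (ptC D s t) * potO6 P O s (ptC D s t))

theorem hh_gFC (Z : Bool → Option O3 → ℂ → ℂ) (P : Par6) (O : Fin r → Xo) (s : Bool)
    (D D1 : Bool → ℝ → ℂ) (t : ℝ) : hh p0 (gF6 Z P O) (crvC s NUP1.l (D s) (D1 s)) t =
      hqC Z P O s D D1 t := by
  show (2 * Real.pi : ℂ)⁻¹ * (1 + D1 s t) * Wt p0 (gF6 Z P O) s (vl NUP1.l t + I * D s t) = _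
  rw [Wt_p0]
  cases s <;> rfl

theorem gKC_eqM (Z : Bool → Option O3 → ℂ → ℂ) (P : Par6) (O : Fin r → Xo) (D D1 : Bool → ℝ → ℂ)
    {a b : ℕ} (x : (Fin a → ℝ) × (Fin b → ℝ)) :
    gKC (gF6 Z P O) D D1 a b x = (∏ i, hqC Z P O (sS a b i) D D1 (Sum.elim x.1 x.2 i)) *
      PU fun i j => PP (sS a b i) (sS a b j)
        (ptC D (sS a b i) (Sum.elim x.1 x.2 i) - ptC D (sS a b j) (Sum.elim x.1 x.2 j)) := by
  unfold gKC Fc
  have e1 : ∀ i : Fin a ⊕ Fin b, hh p0 (gF6 Z P O) (cCt a b
      (crvC true NUP1.l (D true) (D1 true)) (crvC false NUP1.l (D false) (D1 false)) i)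
        (Sum.elim x.1 x.2 i) =
      hqC Z P O (sS a b i) D D1 (Sum.elim x.1 x.2 i) := by
    rintro (i | i)
    · exact hh_gFC Z P O true D D1 _
    · exact hh_gFC Z P O false D D1 _
  have e2 : (fun i j : Fin a ⊕ Fin b => pwc (cCt a b
      (crvC true NUP1.l (D true) (D1 true)) (crvC false NUP1.l (D false) (D1 false)) i) (cCt a b
      (crvC true NUP1.l (D true) (D1 true)) (crvC false NUP1.l (D false) (D1 false)) j)
        (Sum.elim x.1 x.2 i) (Sum.elim x.1 x.2 j)) =
      fun i j => PP (sS a b i) (sS a b j)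
        (ptC D (sS a b i) (Sum.elim x.1 x.2 i) - ptC D (sS a b j) (Sum.elim x.1 x.2 j)) := by
    funext i j
    rcases i with i | i <;> rcases j with j | j <;> rfl
  rw [e2]
  congr 1
  exact Finset.prod_congr rfl fun i _ => e1 i

variable (hZ : ∀ s k, Measurable (Z s k))

/-- the point of a measurable family of curves -/
theorem measurable_ptC {Y : Type*} [MeasurableSpace Y] {D : Y → Bool → ℝ → ℂ} {s : Bool}
    (hD : Measurable fun p : Y × ℝ => D p.1 s p.2) :
    Measurable fun p : Y × ℝ => ptC (D p.1) s p.2 := by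
  unfold ptC vl
  fun_prop

include hZ in
theorem measurable_hqC (P : Par6) {D D1 : (Fin r → Xo) → Bool → ℝ → ℂ} {s : Bool}
    (hD : Measurable fun p : (Fin r → Xo) × ℝ => D p.1 s p.2)
    (hD1 : Measurable fun p : (Fin r → Xo) × ℝ => D1 p.1 s p.2) :
    Measurable fun p : (Fin r → Xo) × ℝ => hqC Z P p.1 s (D p.1) (D1 p.1) p.2 := by
  have hpos := measurable_ptC hD
  have h1 : Measurable fun p : (Fin r → Xo) × ℝ => (1 + D1 p.1 s p.2 : ℂ) := hD1.const_add 1
  have h2 : Measurable fun p : (Fin r → Xo) × ℝ => (p.1, ptC (D p.1) s p.2) :=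
    measurable_fst.prodMk hpos
  have h3 := (measurable_potOc6 P s).comp h2
  have h4 := (hZ s none).comp hpos
  refine (congrArg Measurable (funext fun p => ?_)).mpr ((h1.const_mul (2 * Real.pi : ℂ)⁻¹).mul
    (h4.mul h3))
  rfl

include hZ in
/-- **the integrand of the quanta is measurable** -/
theorem measurable_gKC (P : Par6) {D D1 : (Fin r → Xo) → Bool → ℝ → ℂ}
    (hD : ∀ s, Measurable fun p : (Fin r → Xo) × ℝ => D p.1 s p.2)
    (hD1 : ∀ s, Measurable fun p : (Fin r → Xo) × ℝ => D1 p.1 s p.2) (a b : ℕ) :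
    Measurable fun p : (Fin r → Xo) × ((Fin a → ℝ) × (Fin b → ℝ)) =>
      gKC (gF6 Z P p.1) (D p.1) (D1 p.1) a b p.2 := by
  have hel : ∀ i : Fin a ⊕ Fin b, Measurable fun p : (Fin r → Xo) × ((Fin a → ℝ) × (Fin b → ℝ)) =>
      ((p.1, Sum.elim p.2.1 p.2.2 i) : (Fin r → Xo) × ℝ) := by
    rintro (i | i)
    · exact measurable_fst.prodMk ((measurable_pi_apply i).comp (measurable_fst.comp measurable_snd))
    · exact measurable_fst.prodMk ((measurable_pi_apply i).comp (measurable_snd.comp measurable_snd))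
  have hpi : ∀ i : Fin a ⊕ Fin b, Measurable fun p : (Fin r → Xo) × ((Fin a → ℝ) × (Fin b → ℝ)) =>
      ptC (D p.1) (sS a b i) (Sum.elim p.2.1 p.2.2 i) := fun i =>
    (measurable_ptC (hD (sS a b i))).comp (hel i)
  have k1 : ∀ i : Fin a ⊕ Fin b, Measurable fun p : (Fin r → Xo) × ((Fin a → ℝ) × (Fin b → ℝ)) =>
      hqC Z P p.1 (sS a b i) (D p.1) (D1 p.1) (Sum.elim p.2.1 p.2.2 i) := by
    intro i
    have h3 := (measurable_hqC hZ P (hD (sS a b i)) (hD1 (sS a b i))).comp (hel i)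
    refine (congrArg Measurable (funext fun p => ?_)).mpr h3
    rfl
  have k2 : ∀ i j : Fin a ⊕ Fin b,
      Measurable fun p : (Fin r → Xo) × ((Fin a → ℝ) × (Fin b → ℝ)) => PP (sS a b i) (sS a b j)
        (ptC (D p.1) (sS a b i) (Sum.elim p.2.1 p.2.2 i) -
          ptC (D p.1) (sS a b j) (Sum.elim p.2.1 p.2.2 j)) := by
    intro i j
    have h3 := (measurable_PP (sS a b i) (sS a b j)).comp ((hpi i).sub (hpi j))
    refine (congrArg Measurable (funext fun p => ?_)).mpr h3
    rfl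
  have k3 := measurable_PU (fun i j (p : (Fin r → Xo) × ((Fin a → ℝ) × (Fin b → ℝ))) =>
      PP (sS a b i) (sS a b j) (ptC (D p.1) (sS a b i) (Sum.elim p.2.1 p.2.2 i) -
          ptC (D p.1) (sS a b j) (Sum.elim p.2.1 p.2.2 j))) k2
  have k4 := Finset.measurable_prod (Finset.univ (α := Fin a ⊕ Fin b)) fun i _ => k1 i
  refine (congrArg Measurable (funext fun p => ?_)).mpr (k4.mul k3)
  rw [gKC_eqM]
  rfl

end meas

section terms

variable {P : Par6} {Z : Bool → Option O3 → ℂ → ℂ} (hZ : ∀ s k, Measurable (Z s k)) {D D1 : CrsC}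
  (hc : MCrC D D1) {Ψ : Ins} (hΨ : MIn Ψ) (n n' : ℕ)

include hZ hc hΨ

/-- the integrand of the quanta -/
theorem measurable_innerC (r a b : ℕ) :
    Measurable fun p : (Fin r → Xo) × ((Fin a → ℝ) × (Fin b → ℝ)) =>
      gKC (gF6 Z P p.1) (D r p.1) (D1 r p.1) a b p.2 * Ψ r p.1 a b p.2 :=
  (measurable_gKC hZ P (hc.m r) (hc.m' r) a b).mul (hΨ r a b)

theorem measurable_trmC (r : ℕ) : Measurable fun O : Fin r → Xo => trmC Z P n n' D D1 Ψ r O := by
  have hW := measurable_wK6 (r := r) hZ P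
  have hg := fun a b => ((measurable_innerC (P := P) hZ hc hΨ r a
    b).stronglyMeasurable.integral_prod_right'
    (ν := (volume : Measure ((Fin a → ℝ) × (Fin b → ℝ))))).measurable
  have h1 : ∀ a b : ℕ, Measurable fun O : Fin r → Xo => wK6 Z P O *
      (((a.factorial : ℂ) * b.factorial)⁻¹ * ∫ x : (Fin a → ℝ) × (Fin b → ℝ),
        gKC (gF6 Z P O) (D r O) (D1 r O) a b x * Ψ r O a b x) := fun a b =>
    hW.mul ((hg a b).const_mul _)
  have h2 := measurable_sel6 n n' h1 measurable_id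
  exact Measurable.ite (measurableSet_cnd6 n n' r) h2 measurable_const

theorem measurable_trAC (r : ℕ) : Measurable fun O : Fin r → Xo => trAC Z P n n' D D1 Ψ r O := by
  have hW := (measurable_wK6 (r := r) hZ P).enorm
  have hg := fun a b => Measurable.lintegral_prod_right'
    (ν := (volume : Measure ((Fin a → ℝ) × (Fin b → ℝ))))
    (((measurable_gKC hZ P (hc.m r) (hc.m' r) a b).enorm).mul (hΨ r a b).enorm)
  have h1 : ∀ a b : ℕ, Measurable fun O : Fin r → Xo => ‖wK6 Z P O‖ₑ *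
      (((a.factorial : ℝ≥0∞) * b.factorial)⁻¹ * ∫⁻ x : (Fin a → ℝ) × (Fin b → ℝ),
        ‖gKC (gF6 Z P O) (D r O) (D1 r O) a b x‖ₑ * ‖Ψ r O a b x‖ₑ) := fun a b =>
    hW.mul ((hg a b).const_mul _)
  have h2 := measurable_sel6 n n' h1 measurable_id
  exact Measurable.ite (measurableSet_cnd6 n n' r) h2 measurable_const

/-- **admissible insertions from finiteness** -/
theorem good_ofC (hf : FAC Z P n n' D D1 Ψ < ∞) : GoodC Z P n n' D D1 Ψ where
  mi r _ := ((measurable_innerC hZ hc hΨ r _ _).comp (measurable_const.prodMk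
    measurable_id)).aestronglyMeasurable
  mo r := (measurable_trmC hZ hc hΨ n n' r).aestronglyMeasurable
  fin := hf
  ma r := (measurable_trAC hZ hc hΨ n n' r).aemeasurable

end terms

section nonneg

variable {P : Par6} {Z : Bool → Option O3 → ℂ → ℂ} (hZ : ∀ s k, Measurable (Z s k)) {D D1 : CrsC}
  (hc : MCrC D D1) (n n' : ℕ)

include hZ hc

/-- the terms with a nonnegative insertion -/
theorem measurable_trEC {φ : InsE}
    (hφ : ∀ r a b, Measurable fun p : (Fin r → Xo) × ((Fin a → ℝ) × (Fin b → ℝ)) => φ r p.1 a b p.2)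
    (r : ℕ) : Measurable fun O : Fin r → Xo => trEC Z P n n' D D1 φ r O := by
  have hW := (measurable_wK6 (r := r) hZ P).enorm
  have hg := fun a b => Measurable.lintegral_prod_right'
    (ν := (volume : Measure ((Fin a → ℝ) × (Fin b → ℝ))))
    (((measurable_gKC hZ P (hc.m r) (hc.m' r) a b).enorm).mul (hφ r a b))
  have h1 : ∀ a b : ℕ, Measurable fun O : Fin r → Xo => ‖wK6 Z P O‖ₑ *
      (((a.factorial : ℝ≥0∞) * b.factorial)⁻¹ * ∫⁻ x : (Fin a → ℝ) × (Fin b → ℝ),
        ‖gKC (gF6 Z P O) (D r O) (D1 r O) a b x‖ₑ * φ r O a b x) := fun a b =>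
    hW.mul ((hg a b).const_mul _)
  have h2 := measurable_sel6 n n' h1 measurable_id
  exact Measurable.ite (measurableSet_cnd6 n n' r) h2 measurable_const

/-- the integrand of the quanta is measurable for every configuration -/
theorem mgC_of : MGC Z P n n' D D1 := fun r _ =>
  ((measurable_gKC hZ P (hc.m r) (hc.m' r) _ _).comp
    (measurable_const.prodMk measurable_id)).enorm.aemeasurable

/-- measurable terms -/
theorem moC_of {φ : InsE}
    (hφ : ∀ r a b, Measurable fun p : (Fin r → Xo) × ((Fin a → ℝ) × (Fin b → ℝ)) =>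
      φ r p.1 a b p.2) : MOC Z P n n' D D1 φ := fun r =>
  (measurable_trEC hZ hc n n' hφ r).aemeasurable

end nonneg

theorem miC_of (n n' : ℕ) {φ : InsE}
    (hφ : ∀ r a b, Measurable fun p : (Fin r → Xo) × ((Fin a → ℝ) × (Fin b → ℝ)) =>
      φ r p.1 a b p.2) : MIC n n' φ := fun r _ =>
  ((hφ r _ _).comp (measurable_const.prodMk measurable_id)).aemeasurable

/-! ### with a parameter -/

section param

variable {P : Par6} {Z : Bool → Option O3 → ℂ → ℂ} (hZ : ∀ s k, Measurable (Z s k)) {D D1 : CrsC}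
  (hc : MCrC D D1) {S : Type*} [MeasurableSpace S] {Ψ : S → Ins}
  (hΨ : ∀ r a b, Measurable fun p : S × ((Fin r → Xo) × ((Fin a → ℝ) × (Fin b → ℝ))) =>
    Ψ p.1 r p.2.1 a b p.2.2) (n n' : ℕ)

include hZ hc hΨ

/-- the integrand of the quanta, with a parameter -/
theorem measurable_inner_sC (r a b : ℕ) :
    Measurable fun q : (S × (Fin r → Xo)) × ((Fin a → ℝ) × (Fin b → ℝ)) =>
      gKC (gF6 Z P q.1.2) (D r q.1.2) (D1 r q.1.2) a b q.2 * Ψ q.1.1 r q.1.2 a b q.2 := by
  have p1 : Measurable fun q : (S × (Fin r → Xo)) × ((Fin a → ℝ) × (Fin b → ℝ)) => (q.1.2, q.2) :=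
    measurable_fst.snd.prodMk measurable_snd
  have p2 : Measurable fun q : (S × (Fin r → Xo)) × ((Fin a → ℝ) × (Fin b → ℝ)) =>
      (q.1.1, (q.1.2, q.2)) := measurable_fst.fst.prodMk p1
  have h1 := (measurable_gKC hZ P (hc.m r) (hc.m' r) a b).comp p1
  have h2 := (hΨ r a b).comp p2
  refine (congrArg Measurable (funext fun p => ?_)).mpr (h1.mul h2)
  rfl

theorem measurable_innA_sC (r a b : ℕ) :
    Measurable fun q : (S × (Fin r → Xo)) × ((Fin a → ℝ) × (Fin b → ℝ)) =>
      ‖gKC (gF6 Z P q.1.2) (D r q.1.2) (D1 r q.1.2) a b q.2‖ₑ * ‖Ψ q.1.1 r q.1.2 a b q.2‖ₑ := by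
  refine (congrArg Measurable (funext fun p => ?_)).mpr
    (measurable_inner_sC (P := P) hZ hc hΨ r a b).enorm
  exact (enorm_mul _ _).symm

theorem measurable_trm_sC (r : ℕ) :
    Measurable fun p : S × (Fin r → Xo) => trmC Z P n n' D D1 (Ψ p.1) r p.2 := by
  have hs : Measurable fun p : S × (Fin r → Xo) => p.2 := measurable_snd
  have hW := (measurable_wK6 (r := r) hZ P).comp hs
  have hg := fun a b => ((measurable_inner_sC (P := P) hZ hc hΨ r a
    b).stronglyMeasurable.integral_prod_right'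
    (ν := (volume : Measure ((Fin a → ℝ) × (Fin b → ℝ))))).measurable
  have h1 : ∀ a b : ℕ, Measurable fun p : S × (Fin r → Xo) => wK6 Z P p.2 *
      (((a.factorial : ℂ) * b.factorial)⁻¹ * ∫ x : (Fin a → ℝ) × (Fin b → ℝ),
        gKC (gF6 Z P p.2) (D r p.2) (D1 r p.2) a b x * Ψ p.1 r p.2 a b x) := fun a b =>
    hW.mul ((hg a b).const_mul _)
  have h2 := measurable_sel6 n n' h1 (f := fun p : S × (Fin r → Xo) => p.2) measurable_snd
  have h3 : MeasurableSet {p : S × (Fin r → Xo) |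
      chgO6 p.2 true ≤ n ∧ chgO6 p.2 false ≤ n' ∧ cnt6 p.2} :=
    measurable_snd (measurableSet_cnd6 n n' r)
  exact Measurable.ite h3 h2 measurable_const

theorem measurable_trA_sC (r : ℕ) :
    Measurable fun p : S × (Fin r → Xo) => trAC Z P n n' D D1 (Ψ p.1) r p.2 := by
  have hs : Measurable fun p : S × (Fin r → Xo) => p.2 := measurable_snd
  have hW := ((measurable_wK6 (r := r) hZ P).enorm).comp hs
  have hg := fun a b => Measurable.lintegral_prod_right'
    (ν := (volume : Measure ((Fin a → ℝ) × (Fin b → ℝ))))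
    (measurable_innA_sC (P := P) hZ hc hΨ r a b)
  have h1 : ∀ a b : ℕ, Measurable fun p : S × (Fin r → Xo) => ‖wK6 Z P p.2‖ₑ *
      (((a.factorial : ℝ≥0∞) * b.factorial)⁻¹ * ∫⁻ x : (Fin a → ℝ) × (Fin b → ℝ),
        ‖gKC (gF6 Z P p.2) (D r p.2) (D1 r p.2) a b x‖ₑ * ‖Ψ p.1 r p.2 a b x‖ₑ) := fun a b =>
    hW.mul ((hg a b).const_mul _)
  have h2 := measurable_sel6 n n' h1 (f := fun p : S × (Fin r → Xo) => p.2) measurable_snd
  have h3 : MeasurableSet {p : S × (Fin r → Xo) |
      chgO6 p.2 true ≤ n ∧ chgO6 p.2 false ≤ n' ∧ cnt6 p.2} :=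
    measurable_snd (measurableSet_cnd6 n n' r)
  exact Measurable.ite h3 h2 measurable_const

end param

end PLT

end
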