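import Pool.Agent.PLT.FinG

/-!
# Translation of the data of the class sum

* `vt s f u = f (u - s)`, `vtk`; `Ig_vt`, `gas_vt`, `termQ_vt`, `ZobjQ_vt`, `CD.val_vt`, `CD1.val_vt` :
  the integrals over vertical lines do not change under an imaginary translation;
* `RU.tr D s` : rows, ends and cutoffs translated by `s`; **`RU.fin_tr`** : `RU.fin` of the data translated by
  `i τ` is `RU.fin`, no hypothesis on the data;
* **`RU.Ok6.fin_eq`** : the eleven integrals are `RU.fin D P`; **`RU.Ok6.fin_indep`** : `RU.fin` depends neither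
  on the corrections `g0`, `g0'` of the cutoff of the strings nor on an imaginary translation of all rows, ends
  and of the corrections `g`, `g'`.
-/

set_option autoImplicit false
set_option linter.unusedSectionVars false
set_option linter.unusedVariables false

noncomputable section

open Complex MeasureTheory

/-! ## the integrals over vertical lines -/

namespace NURow

open NUP1 NUP1S NUP1.Bd NUP1.Leg

/-- translation of a function -/
def vt (s : ℂ) (f : ℂ → ℂ) (u : ℂ) : ℂ := f (u - s)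

/-- translation of the one body functions -/
def vtk (s : ℂ) (X : Option O3 → ℂ → ℂ) (k : Option O3) (u : ℂ) : ℂ := X k (u - s)

theorem vl_sub (σ t τ : ℝ) : vl σ t - τ * I = vl σ (t - τ) := by
  unfold vl
  push_cast
  ring

section ind

variable {ι : Type*} [Fintype ι]

theorem pos_sub (x t : ι → ℝ) (τ : ℝ) : (fun i => pos x t i - τ * I) = pos x (t - fun _ => τ) := by
  funext i
  exact vl_sub _ _ _

theorem Fg_vt (o : ι → CO) (h : ι → ℂ → ℂ) (z : ι → ℂ) (s : ℂ) :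
    Fg o (fun i => vt s (h i)) z = Fg o h fun i => z i - s := by
  unfold Fg vt
  simp only [sub_sub_sub_cancel_right]

theorem Ig_vt (o : ι → CO) (h : ι → ℂ → ℂ) (x : ι → ℝ) (τ : ℝ) :
    Ig o (fun i => vt (τ * I) (h i)) x = Ig o h x := by
  unfold Ig
  simp only [Fg_vt, pos_sub]
  exact integral_sub_right_eq_self (μ := Measure.pi fun _ : ι => (volume : Measure ℝ))
    (fun t => Fg o h (pos x t)) fun _ => τ

theorem fld_vt (o : ι → CO) (z : ι → ℂ) (o0 : CO) (G : ℂ → ℂ) (s : ℂ) :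
    fld o z o0 (vt s G) = vt s (fld o (fun i => z i - s) o0 G) := by
  funext v
  unfold fld vt
  simp only [sub_sub_sub_cancel_right]

end ind

theorem gas_vt (a a' : ℕ) (x : ℝ) (H H' : ℂ → ℂ) (τ : ℝ) :
    gas a a' x (vt (τ * I) H) (vt (τ * I) H') = gas a a' x H H' := by
  have h := Ig_vt (oo (fun _ : Fin a => Ob.A) (fun _ : Fin a' => Ob.A))
    (Sum.elim (fun _ => H) (fun _ => H')) (fun _ => x) τ
  have e : (fun i => vt (τ * I) (Sum.elim (fun _ : Fin a => H) (fun _ : Fin a' => H') i)) =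
      Sum.elim (fun _ : Fin a => vt (τ * I) H) (fun _ : Fin a' => vt (τ * I) H') := by
    funext i
    rcases i with i | i <;> rfl
  rw [e] at h
  unfold gas
  rw [h]

theorem termQ_vt (X Y : Option O3 → ℂ → ℂ) (α : ℝ) (n n' : ℕ) {p p' : ℕ} (k : Fin p → O3)
    (k' : Fin p' → O3) (x : Fin p → ℝ) (x' : Fin p' → ℝ) (τ : ℝ) :
    termQ (vtk (τ * I) X) (vtk (τ * I) Y) α n n' k k' x x' = termQ X Y α n n' k k' x x' := by
  unfold termQ
  congr 1
  have e : h3 (vtk (τ * I) X) (vtk (τ * I) Y) k k' = fun i => vt (τ * I) (h3 X Y k k' i) := by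
    funext i
    rcases i with i | i <;> rfl
  have eX : vtk (τ * I) X none = vt (τ * I) (X none) := rfl
  have eY : vtk (τ * I) Y none = vt (τ * I) (Y none) := rfl
  simp only [e, eX, eY, Fg_vt, fld_vt, gas_vt, pos_sub]
  exact integral_sub_right_eq_self (μ := Measure.pi fun _ : Fin p ⊕ Fin p' => (volume : Measure ℝ))
    (fun t => Fg (o3 k k') (h3 X Y k k') (pos (Sum.elim x x') t) *
      gas (nA n k) (nA n' k') α (fld (o3 k k') (pos (Sum.elim x x') t) (true, .A) (X none))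
        (fld (o3 k k') (pos (Sum.elim x x') t) (false, .A) (Y none))) fun _ => τ

theorem ZobjQ_vt (X Y : Option O3 → ℂ → ℂ) (α : ℝ) (n n' : ℕ)
    (lnX : ∀ p p' : ℕ, (Fin p → O3) → (Fin p' → O3) → Fin p → ℝ)
    (lnY : ∀ p p' : ℕ, (Fin p → O3) → (Fin p' → O3) → Fin p' → ℝ) (τ : ℝ) :
    ZobjQ (vtk (τ * I) X) (vtk (τ * I) Y) α n n' lnX lnY = ZobjQ X Y α n n' lnX lnY := by
  unfold ZobjQ
  simp only [termQ_vt]

theorem XS_vt (c : Bool) (X : Option O3 → ℂ → ℂ) (S S' : Sp) (w w' s : ℂ) :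
    XS c (vtk s X) S S' w w' = vtk s (XS c X S S' (w - s) (w' - s)) := by
  funext k z
  unfold XS vtk
  simp only [sub_sub_sub_cancel_right]

/-! ## classes -/

/-- translation of the kernels of a class -/
def CD.vt (s : ℂ) (c : CD) : CD := { c with K := NURow.vt s c.K, K' := NURow.vt s c.K' }

/-- translation of the kernel of a class with one line -/
def CD1.vt (s : ℂ) (c : CD1) : CD1 := { c with K := NURow.vt s c.K }

section val

variable (X Y : Option O3 → ℂ → ℂ) (α : ℝ) (n n' : ℕ)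
  (lnX : ∀ p p' : ℕ, (Fin p → O3) → (Fin p' → O3) → Fin p → ℝ)
  (lnY : ∀ p p' : ℕ, (Fin p → O3) → (Fin p' → O3) → Fin p' → ℝ) (τ : ℝ)

theorem CD.Z_vt (c : CD) (w w' : ℂ) :
    (c.vt (τ * I)).Z (vtk (τ * I) X) (vtk (τ * I) Y) α n n' lnX lnY w w' =
      c.Z X Y α n n' lnX lnY (w - τ * I) (w' - τ * I) := by
  unfold CD.Z CD.vt
  simp only [XS_vt, ZobjQ_vt]

theorem CD.pre_vt (c : CD) (s w w' : ℂ) : (c.vt s).pre w w' = c.pre (w - s) (w' - s) := by
  unfold CD.pre Pre CD.vt NURow.vt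
  simp only [sub_sub_sub_cancel_right]

/-- **the double integral of a class does not change under an imaginary translation** -/
theorem CD.val_vt (c : CD) : (c.vt (τ * I)).val (vtk (τ * I) X) (vtk (τ * I) Y) α n n' lnX lnY =
    c.val X Y α n n' lnX lnY := by
  unfold CD.val
  have ea : (c.vt (τ * I)).a = c.a := rfl
  have eb : (c.vt (τ * I)).b = c.b := rfl
  simp only [CD.Z_vt, CD.pre_vt, ea, eb, vl_sub]
  exact integral_sub_right_eq_self (μ := (volume : Measure ℝ).prod volume)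
    (fun y : ℝ × ℝ => c.pre (vl c.a y.1) (vl c.b y.2) * c.Z X Y α n n' lnX lnY (vl c.a y.1) (vl c.b y.2))
    ((τ, τ) : ℝ × ℝ)

theorem CD1.Z_vt (c : CD1) (w : ℂ) :
    (c.vt (τ * I)).Z (vtk (τ * I) X) (vtk (τ * I) Y) α n n' lnX lnY w =
      c.Z X Y α n n' lnX lnY (w - τ * I) := by
  unfold CD1.Z CD1.vt
  simp only [XS_vt, ZobjQ_vt]
  rfl

/-- **the integral of a class with one line does not change under an imaginary translation** -/
theorem CD1.val_vt (c : CD1) : (c.vt (τ * I)).val (vtk (τ * I) X) (vtk (τ * I) Y) α n n' lnX lnY =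
    c.val X Y α n n' lnX lnY := by
  unfold CD1.val
  have ea : (c.vt (τ * I)).a = c.a := rfl
  have eK : ∀ w, (c.vt (τ * I)).K w = c.K (w - τ * I) := fun _ => rfl
  simp only [CD1.Z_vt, ea, eK, vl_sub]
  exact integral_sub_right_eq_self (μ := (volume : Measure ℝ))
    (fun y : ℝ => c.K (vl c.a y) * c.Z X Y α n n' lnX lnY (vl c.a y)) τ

end val

theorem CD.hX_vt (c : CD) (Y : Option O3 → ℂ → ℂ) (s : ℂ) :
    (c.vt s).hX (vtk s Y) = (c.hX Y).vt s := by
  have e : (fun w => -(2 * Real.pi * rD (2 * l) * wt .S * vtk s Y (some .S) (w - 2 * l)) * (c.vt s).K w) =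
      NURow.vt s fun w => -(2 * Real.pi * rD (2 * l) * wt .S * Y (some .S) (w - 2 * l)) * c.K w := by
    funext w
    unfold NURow.vt vtk CD.vt NURow.vt
    simp only []
    rw [sub_right_comm]
  unfold CD.hX
  rw [e]
  rfl

theorem CD.hY_vt (c : CD) (X : Option O3 → ℂ → ℂ) (s : ℂ) :
    (c.vt s).hY (vtk s X) = (c.hY X).vt s := by
  have e : (fun w => -(2 * Real.pi * rD (2 * l) * wt .S * vtk s X (some .S) (w - 2 * l)) * (c.vt s).K' w) =
      NURow.vt s fun w => -(2 * Real.pi * rD (2 * l) * wt .S * X (some .S) (w - 2 * l)) * c.K' w := by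
    funext w
    unfold NURow.vt vtk CD.vt NURow.vt
    simp only []
    rw [sub_right_comm]
  unfold CD.hY
  rw [e]
  rfl

theorem cF_vt (X Y : Option O3 → ℂ → ℂ) (kF kP kF' kP' : ℂ → ℂ) (s : ℂ) (t t' : HT) :
    cF (vtk s X) (vtk s Y) (vt s kF) (vt s kP) (vt s kF') (vt s kP') t t' =
      (cF X Y kF kP kF' kP' t t').vt s := by
  have e0 : cS (vt s kF) (vt s kP) (vt s kF') (vt s kP') t t' = (cS kF kP kF' kP' t t').vt s := by
    cases t <;> cases t' <;> rfl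
  have e1 : ∀ c : CD, CD.fX (vtk s Y) t (c.vt s) = (CD.fX Y t c).vt s := by
    intro c
    cases t
    · rfl
    · rfl
    · rfl
    · exact CD.hX_vt c Y s
  have e2 : ∀ c : CD, CD.fY (vtk s X) t' (c.vt s) = (CD.fY X t' c).vt s := by
    intro c
    cases t'
    · rfl
    · rfl
    · rfl
    · exact CD.hY_vt c X s
  unfold cF
  rw [e0, e1, e2]

end NURow

/-! ## the data of the regular function -/

namespace Pool.Agent.PLX

open NUP1 NUP1S NUP1.Bd NURow PBX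
open NUP1.N (Z3 Gr0 prc pr1 rA rB E11)

variable {m M : ℕ}

/-- **the data translated by `s`** -/
def RU.tr (D : RU m M) (s : ℂ) : RU m M :=
  ⟨D.c, D.c', D.β, fun i => D.x i + s, fun i => D.y i + s, D.p + s, D.q + s, vt s D.g, vt s D.g', vt s D.g0,
    vt s D.g0'⟩

theorem RU.tr_sw (D : RU m M) (s : ℂ) : (D.tr s).sw = D.sw.tr s := rfl

theorem sub_add_tr (u x s : ℂ) : u - (x + s) = u - s - x := by ring

theorem RRU_tr (c : ℂ) (x : Fin m → ℂ) (y : Fin M → ℂ) (s u : ℂ) :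
    RRU c (fun i => x i + s) (fun i => y i + s) u = RRU c x y (u - s) := by
  unfold RRU
  simp only [sub_add_tr]

theorem ph_tr (β : ℝ) (x : Fin m → ℂ) (g : ℂ → ℂ) (s u : ℂ) :
    PBX.ph β (fun i => x i + s) (vt s g) u = PBX.ph β x g (u - s) := by
  unfold PBX.ph vt
  simp only [sub_add_tr]

theorem re_tr (x : ℂ) (τ : ℝ) : (x + τ * I).re = x.re := by simp

theorem TTU_tr (c : ℂ) (β β' : ℝ) (x : Fin m → ℂ) (y : Fin M → ℂ) (g g0 : ℂ → ℂ) (τ : ℝ) (w : ℂ) :
    TTU c β β' (fun i => x i + τ * I) (fun i => y i + τ * I) (vt (τ * I) g) (vt (τ * I) g0) w =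
      TTU c β β' x y g g0 (w - τ * I) := by
  unfold TTU
  have e1 : RgU c (fun i => x i + τ * I) (fun i => y i + τ * I) w = RgU c x y (w - τ * I) := by
    unfold RgU
    simp only [sub_add_tr, re_tr]
  have e2 : ∀ (b : ℝ) (h : ℂ → ℂ), Am b (fun i => x i + τ * I) (vt (τ * I) h) w = Am b x h (w - τ * I) := by
    intro b h
    unfold Am vt
    simp only [sub_add_tr, re_tr]
  have e3 : Cm β (fun i => x i + τ * I) (vt (τ * I) g) w = Cm β x g (w - τ * I) := by
    unfold Cm vt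
    simp only [sub_add_tr, re_tr]
    rw [sub_right_comm]
  rw [e1, e2, e2, e3, ph_tr, RRU_tr]
  congr 3
  ring

theorem thE_tr (r o r' o' s u : ℂ) :
    NUP1.Leg.thE (r + s) (o + s) (r' + s) (o' + s) u = NUP1.Leg.thE r o r' o' (u - s) := by
  unfold NUP1.Leg.thE
  congr 1
  · congr 2 <;> ring
  · congr 2 <;> ring

theorem thS_tr (r o r' o' s u : ℂ) :
    PBX.thS (r + s) (o + s) (r' + s) (o' + s) u = PBX.thS r o r' o' (u - s) := by
  unfold PBX.thS
  rw [thE_tr, thE_tr, sub_right_comm]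

theorem RU.tr_X (D : RU m M) (τ : ℝ) : (D.tr (τ * I)).X = vtk (τ * I) D.X := by
  funext k u
  unfold vtk RU.X RU.tr
  cases k with
  | none =>
    show RRU _ _ _ u * PBX.ph _ _ _ u * NUP1.Leg.thE _ _ _ _ u = RRU _ _ _ _ * PBX.ph _ _ _ _ * NUP1.Leg.thE _ _ _ _ _
    rw [RRU_tr, ph_tr, thE_tr]
  | some k =>
    cases k
    · show RRU _ _ _ u * PBX.ph _ _ _ u * NUP1.Leg.thE _ _ _ _ u =
        RRU _ _ _ _ * PBX.ph _ _ _ _ * NUP1.Leg.thE _ _ _ _ _
      rw [RRU_tr, ph_tr, thE_tr]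
    · show RRU _ _ _ u * RRU _ _ _ (u - l) * PBX.ph _ _ _ u * PBX.thS _ _ _ _ u =
        RRU _ _ _ _ * RRU _ _ _ (_ - l) * PBX.ph _ _ _ _ * PBX.thS _ _ _ _ _
      rw [RRU_tr, RRU_tr, ph_tr, thS_tr, sub_right_comm]
    · show TTU _ _ _ _ _ _ _ u * PBX.thS _ _ _ _ u = TTU _ _ _ _ _ _ _ _ * PBX.thS _ _ _ _ _
      rw [TTU_tr, thS_tr]

theorem RU.tr_Y (D : RU m M) (τ : ℝ) : (D.tr (τ * I)).Y = vtk (τ * I) D.Y := D.sw.tr_X τ

theorem kap_tr (w p s : ℂ) : NUP1.Leg.kap (w - (p + s)) = NUP1.Leg.kap (w - s - p) := by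
  rw [sub_add_tr]

theorem prc_tr (p q : ℂ) (x : Fin m → ℂ) (s w : ℂ) :
    prc (p + s) (q + s) (fun i => x i + s) w = prc p q x (w - s) := by
  unfold prc rA
  simp only [sub_add_tr]

theorem pr1_tr (p q : ℂ) (x : Fin m → ℂ) (y : Fin M → ℂ) (s w : ℂ) :
    pr1 (p + s) (q + s) (fun i => x i + s) (fun i => y i + s) w = pr1 p q x y (w - s) := by
  unfold pr1 rB
  rw [prc_tr]
  simp only [sub_add_tr]

theorem RU.tr_KF (D : RU m M) (s : ℂ) : (D.tr s).KF = vt s D.KF := by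
  funext w
  exact pr1_tr D.p D.q D.x D.y s w

theorem RU.tr_KF' (D : RU m M) (s : ℂ) : (D.tr s).KF' = vt s D.KF' := D.sw.tr_KF s

theorem RU.tr_hX (D : RU m M) (s u : ℂ) : (D.tr s).hX u = D.hX (u - s) := by
  have e : NUP1.Leg.hr D.c (fun i => D.x i + s) (fun i => D.y i + s) u = NUP1.Leg.hr D.c D.x D.y (u - s) := by
    unfold NUP1.Leg.hr
    simp only [sub_add_tr]
  show NUP1.Leg.hr D.c (fun i => D.x i + s) (fun i => D.y i + s) u * NUP1.Leg.thE (D.p + s) (D.p + s)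
      (D.q + s) (D.q + s) u * PBX.ph D.β (fun i => D.x i + s) (vt s D.g) u =
    NUP1.Leg.hr D.c D.x D.y (u - s) * NUP1.Leg.thE D.p D.p D.q D.q (u - s) * PBX.ph D.β D.x D.g (u - s)
  rw [e, thE_tr, ph_tr]

theorem RU.tr_hY (D : RU m M) (s u : ℂ) : (D.tr s).hY u = D.hY (u - s) := D.sw.tr_hX s u

theorem RU.tr_KR (D : RU m M) (s : ℂ) : (D.tr s).KR = vt s D.KR := by
  funext w
  show sin l / sin (2 * l) * (prc (D.p + s) (D.q + s) (fun i => D.x i + s) w * (D.tr s).hY (w + 3 * l)) =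
    sin l / sin (2 * l) * (prc D.p D.q D.x (w - s) * D.hY (w - s + 3 * l))
  rw [prc_tr, RU.tr_hY, show w + 3 * l - s = w - s + 3 * l by ring]

theorem RU.tr_KR' (D : RU m M) (s : ℂ) : (D.tr s).KR' = vt s D.KR' := D.sw.tr_KR s

theorem RU.tr_XD (D : RU m M) (s : ℂ) : (D.tr s).XD = vt s D.XD := by
  funext w
  show NUP1.N.XD (D.p + s) (D.q + s) (fun i => D.y i + s) w = NUP1.N.XD D.p D.q D.y (w - s)
  unfold NUP1.N.XD
  simp only [sub_add_tr]

theorem RU.tr_XD' (D : RU m M) (s : ℂ) : (D.tr s).XD' = vt s D.XD' := D.sw.tr_XD s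

/-- **the class sum of the data translated by `i τ`**, no hypothesis -/
theorem RU.fin_tr (D : RU m M) (P : PHK.Par6) (n n' : ℕ) (τ : ℝ) :
    (D.tr (τ * I)).fin P n n' = D.fin P n n' := by
  have e1 : ∀ t t' : HT, (D.tr (τ * I)).cG t t' = (D.cG t t').vt (τ * I) := by
    intro t t'
    show NURow.cF _ _ _ _ _ _ _ _ = _
    rw [RU.tr_X, RU.tr_Y, RU.tr_KF, RU.tr_KR, RU.tr_KF', RU.tr_KR']
    exact cF_vt D.X D.Y D.KF D.KR D.KF' D.KR' (τ * I) t t'
  have e2 : cD (D.tr (τ * I)).XD = (cD D.XD).vt (τ * I) := by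
    rw [RU.tr_XD]
    rfl
  have e3 : cD' (D.tr (τ * I)).XD' = (cD' D.XD').vt (τ * I) := by
    rw [RU.tr_XD']
    rfl
  unfold RU.fin
  simp only [e1, e2, e3, RU.tr_X, RU.tr_Y, CD.val_vt, CD1.val_vt]

/-! ## the eleven integrals -/

/-- the data with other corrections of the cutoff of the strings -/
def RU.set0 (D : RU m M) (a a' : ℂ → ℂ) : RU m M := { D with g0 := a, g0' := a' }

section ok

open PHK (Par6 lnP lX6 lY6)

variable {D : RU m M} {n n' : ℕ} {P : Par6} {P0 : NUO.Par}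

theorem RU.Ok6.KR_eq (H : D.Ok6) {w : ℂ} (hw : w.re = -(11 / 4) * l) : D.KR w = D.KP w :=
  H.base.KP_eq hw

theorem RU.Ok6.KR'_eq (H : D.Ok6) {w : ℂ} (hw : w.re = -(11 / 4) * l) : D.KR' w = D.KP' w :=
  H.base.KP'_eq hw

/-- the value of a class depends on the kernels only on its lines -/
theorem CD_val_congr {c c' : CD} (X Y : Option O3 → ℂ → ℂ) (α : ℝ) (n n' : ℕ)
    (lnX : ∀ p p' : ℕ, (Fin p → O3) → (Fin p' → O3) → Fin p → ℝ)
    (lnY : ∀ p p' : ℕ, (Fin p → O3) → (Fin p' → O3) → Fin p' → ℝ)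
    (h : c' = { c with K := c'.K, K' := c'.K' })
    (hK : ∀ y, c'.K (vl c.a y) = c.K (vl c.a y)) (hK' : ∀ y, c'.K' (vl c.b y) = c.K' (vl c.b y)) :
    c'.val X Y α n n' lnX lnY = c.val X Y α n n' lnX lnY := by
  obtain ⟨K, K', gw, S, S', dX, dY, a, b⟩ := c
  obtain ⟨J, J', gw1, T, T', dX1, dY1, a1, b1⟩ := c'
  simp only [CD.mk.injEq] at h
  obtain ⟨-, -, rfl, rfl, rfl, rfl, rfl, rfl, rfl⟩ := h
  unfold CD.val
  refine integral_congr_ae (Filter.Eventually.of_forall fun y => ?_)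
  show J (vl a1 y.1) * J' (vl b1 y.2) * _ * _ = K (vl a1 y.1) * K' (vl b1 y.2) * _ * _
  have h1 : J (vl a1 y.1) = K (vl a1 y.1) := hK y.1
  have h2 : J' (vl b1 y.2) = K' (vl b1 y.2) := hK' y.2
  rw [h1, h2]
  rfl

theorem RU.Ok6.cG_val (H : D.Ok6) (t t' : HT) (X Y : Option O3 → ℂ → ℂ) (α : ℝ) (n n' : ℕ)
    (lnX : ∀ p p' : ℕ, (Fin p → O3) → (Fin p' → O3) → Fin p → ℝ)
    (lnY : ∀ p p' : ℕ, (Fin p → O3) → (Fin p' → O3) → Fin p' → ℝ) :
    (D.cG t t').val X Y α n n' lnX lnY = (D.cF t t').val X Y α n n' lnX lnY := by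
  refine CD_val_congr (c := D.cF t t') (c' := D.cG t t') X Y α n n' lnX lnY ?_ ?_ ?_
  · cases t <;> cases t' <;> rfl
  · intro y
    cases t
    · cases t' <;> rfl
    · cases t' <;> rfl
    · cases t' <;> exact H.KR_eq (NUP1.vlre _ _)
    · cases t' <;> rfl
  · intro y
    cases t'
    · cases t <;> rfl
    · cases t <;> rfl
    · cases t <;> exact H.KR'_eq (NUP1.vlre _ _)
    · cases t <;> rfl

/-- **the eleven integrals are the class sum** on the lines of `P` -/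
theorem RU.Ok6.fin_eq (H : D.Ok6) (hβ : 1 < D.β) (hn : n + M = n' + m) (hP0 : ParP P0)
    (L0 : LnH (lX P0) (lY P0)) (hL : ∀ k, lnP P k ∈ Set.Icc (PHK.loV (some k)) (PHK.hiV (some k))) :
    E11 (3 / 5 * l) (-(17 / 10) * l) D.p D.q D.x D.y D.hX D.hY n n' (31 / 50 * l) (-(11 / 4) * l) =
      D.fin P n n' := by
  rw [H.E11_finP hβ hn hP0 L0 (lnX := lX6 P) (lnY := lY6 P) (fun p p' k k' i => hL (k i))
    (fun p p' k k' i => hL (k' i))]
  unfold RU.fin
  simp only [H.cG_val]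

theorem RU.Ok6.set0 (H : D.Ok6) {a a' : ℂ → ℂ} (ha : GOn (K2P r6) (4 / 3) a) (ha' : GOn (K2P r6) (4 / 3) a') :
    (D.set0 a a').Ok6 :=
  ⟨H.b0, H.b1, H.hx, H.hy, H.hp, H.hq, H.nx, H.ny, H.gg, H.gg', ha, ha'⟩

/-- **the class sum does not depend on the corrections of the cutoff of the strings** -/
theorem RU.Ok6.fin_set0 (H : D.Ok6) (hβ : 1 < D.β) (hn : n + M = n' + m) (hP0 : ParP P0)
    (L0 : LnH (lX P0) (lY P0)) (hL : ∀ k, lnP P k ∈ Set.Icc (PHK.loV (some k)) (PHK.hiV (some k)))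
    {a a' : ℂ → ℂ} (ha : GOn (K2P r6) (4 / 3) a) (ha' : GOn (K2P r6) (4 / 3) a') :
    (D.set0 a a').fin P n n' = D.fin P n n' := by
  rw [← H.fin_eq hβ hn hP0 L0 hL, ← (H.set0 ha ha').fin_eq hβ hn hP0 L0 hL]
  rfl

end ok

end Pool.Agent.PLX

end
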