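import Pool.Agent.PLT.ClsShY
import Pool.Agent.PLT.BYD
import Pool.Agent.PLT.WinD

/-!
# The content of a direction at `D = l`: frame of the sea and frame of the lattice

* **`RB_lat`** : the class sum of `RB` at `D = l`, lines of `parTh`, is the class sum of every admissible record with
  the rows at `-l / 2` (mirrored) and `l / 2`, cut rows and ends at `l / 2`, on the lines of any `P'`.
-/

set_option autoImplicit false
set_option linter.unusedSectionVars false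
set_option linter.unusedVariables false

noncomputable section

open Complex MeasureTheory Filter Topology
open PLX (Fil)

namespace PLT.BY

open NUP1 NUP1S NURow
open Pa
open Pool.Agent.PLX
open PLTX (InV NF)

variable {a0 b0 m n n' : ℕ} {ep : ℝ}

/-- the mirrored rows of the content -/
def fB (a0 b0 m : ℕ) (i : Fin m) : Bool := decide ((i : ℕ) < cA a0 b0 m)

theorem xB_pk (hm : okB a0 b0 m) (D : ℂ) : xB a0 b0 m D = pk (fB a0 b0 m) (-pz a0 b0 D) (qz a0 b0 D) := by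
  funext i
  unfold xB pk fB
  rw [if_pos hm]
  simp only [decide_eq_true_eq]

theorem l_Nz : ((l : ℝ) : ℂ) ∈ Nz (1 / 20) := by
  have hl := NUP1.l_pos
  refine ⟨?_, ?_, ?_⟩
  · rw [ofReal_re]
    linarith
  · rw [ofReal_re]
    linarith
  · rw [ofReal_im]
    norm_num

theorem pz_l_re (h1 : 1 ≤ a0) (h2 : a0 ≤ b0) : l / 2 ≤ (pz a0 b0 ((l : ℝ) : ℂ)).re ∧ (pz a0 b0 ((l : ℝ) : ℂ)).re < l := by
  have hl := NUP1.l_pos
  have hA : (0 : ℝ) < a0 := by exact_mod_cast (show 0 < a0 by omega)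
  have hAB : (a0 : ℝ) ≤ b0 := by exact_mod_cast h2
  have hB : (0 : ℝ) < b0 := hA.trans_le hAB
  have hI : l ∈ Set.Icc 0 l := ⟨hl.le, le_rfl⟩
  have e := pz_real hA hB hI
  have hr : (pz a0 b0 ((l : ℝ) : ℂ)).re = pp a0 b0 l := by
    rw [e, ofReal_re]
  rw [hr]
  have hlt := pp_l_lt hA hB
  refine ⟨?_, hlt⟩
  -- `pp ≥ qq`
  by_contra hc
  push Not at hc
  have hm := re_pz hA hB (de := 1 / 20) le_rfl l_Nz
  rw [hr, ofReal_re, abs_of_pos hl] at hm
  have hp0 : 0 ≤ pp a0 b0 l := by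
    have := (abs_le.1 hm).1
    linarith
  have hq : pp a0 b0 l < qq a0 b0 l := by
    unfold qq
    linarith
  have hb := bal hA hB hI
  have hw := wl
  have hpi := Real.pi_pos
  have s1 : Real.sin (8 / 3 * pp a0 b0 l) < Real.sin (8 / 3 * qq a0 b0 l) := by
    refine Real.sin_lt_sin_of_lt_of_le_pi_div_two (by linarith) ?_ (by linarith)
    have : qq a0 b0 l ≤ l := by
      unfold qq
      linarith
    have h5 : 8 / 3 * qq a0 b0 l ≤ 8 / 3 * l := by linarith
    linarith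
  have s0 : 0 ≤ Real.sin (8 / 3 * pp a0 b0 l) :=
    Real.sin_nonneg_of_nonneg_of_le_pi (by linarith) (by
      have : 8 / 3 * pp a0 b0 l ≤ 8 / 3 * l := by linarith
      linarith)
  nlinarith

variable [Fil]

theorem yB_pk (hm : okB a0 b0 m) (D : ℂ) :
    yq (xB a0 b0 m D) = pk (yq (fB a0 b0 m)) (-pz a0 b0 D) (qz a0 b0 D) := by
  funext j
  rw [yq_apply, xB_pk hm]
  rfl

/-- the record as a record with two places -/
theorem RB_rP (hm : okB a0 b0 m) (D : ℂ) : RB a0 b0 ep m D = rP (NUP1.Leg.cc m) (NUP1.Leg.cc (Fil.q * m))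
    (NUGC.PLX.beC ep) (fB a0 b0 m) (yq (fB a0 b0 m)) [I, -I] [I, -I] [] [] (PBU.PLX.T1L m) (PBU.PLX.T1L m)
    (-pz a0 b0 D) (qz a0 b0 D) := by
  have e : eB a0 b0 m D = qz a0 b0 D := if_pos hm
  unfold RB rP
  rw [rwq_true, rwq_false, xB_pk hm, e]
  have h := yB_pk (m := m) hm D
  rw [xB_pk hm] at h
  rw [h]

/-- **frame of the sea = frame of the lattice** at `D = l` -/
theorem RB_lat (h1 : 1 ≤ a0) (h2 : a0 ≤ b0) (hm : okB a0 b0 m) (hb : 1 < NUGC.PLX.beC ep)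
    (hb' : NUGC.PLX.beC ep ≤ 4 / 3) (hn : n + Fil.q * m = n' + m) {P0 : NUO.Par} (hP0 : ParP P0)
    (L0 : LnH (lX P0) (lY P0)) {D' : RU m (Fil.q * m)} (hD : D'.Ok6) (hβ' : 1 < D'.β)
    (hc : D'.c = NUP1.Leg.cc m) (hc' : D'.c' = NUP1.Leg.cc (Fil.q * m))
    (hx : D'.x = pk (fB a0 b0 m) (-(l / 2 : ℝ)) ((l / 2 : ℝ) : ℂ))
    (hy : D'.y = pk (yq (fB a0 b0 m)) (-(l / 2 : ℝ)) ((l / 2 : ℝ) : ℂ)) (hp : D'.p = ((l / 2 : ℝ) : ℂ))
    (hq : D'.q = ((l / 2 : ℝ) : ℂ)) {P P' : PHK.Par6} (hP : InV P) (hP' : InV P') :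
    (RB a0 b0 ep m ((l : ℝ) : ℂ)).fin P n n' = D'.fin P' n n' := by
  have hl := NUP1.l_pos
  have hA : (0 : ℝ) < a0 := by exact_mod_cast (show 0 < a0 by omega)
  have hB : (0 : ℝ) < b0 := by exact_mod_cast (show 0 < b0 by omega)
  obtain ⟨p1, p2⟩ := pz_l_re h1 h2
  have hL : CutL (NUGC.PLX.beC ep) [I, -I] [I, -I] [] [] := by
    refine ⟨hb, hb', ?_, ?_, by simp, by simp⟩ <;>
    · intro w hw
      simp only [List.mem_cons, List.not_mem_nil, or_false] at hw
      rcases hw with rfl | rfl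
      · rw [I_re, abs_zero]
        linarith
      · rw [neg_re, I_re, neg_zero, abs_zero]
        linarith
  have hdf : ∀ᶠ θ : ℂ in 𝓝 ((l : ℝ) : ℂ), DifferentiableAt ℂ (pz a0 b0) θ := by
    filter_upwards [(Nz_open (1 / 20)).mem_nhds l_Nz] with θ hθ
    exact (pz_deriv hA hB le_rfl hθ).differentiableAt
  have eq : ∀ θ : ℂ, (qz a0 b0 θ).re = θ.re - (pz a0 b0 θ).re := fun θ => by
    unfold qz
    rw [sub_re]
  rw [RB_rP hm]
  refine rP_lat (u := fun θ => -pz a0 b0 θ) (v := fun θ => qz a0 b0 θ) (θ0 := l) hL hP hn hP0 L0 ?_ ?_ ?_ ?_ hD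
    hβ' hc hc' hx hy hp hq hP'
  · exact ⟨hdf.mono fun θ h => h.neg, by rw [neg_re]; linarith, by rw [neg_re]; linarith⟩
  · refine ⟨hdf.mono fun θ h => ?_, ?_, ?_⟩
    · unfold qz
      exact differentiableAt_id.sub h
    · rw [eq, ofReal_re]
      linarith
    · rw [eq, ofReal_re]
      linarith
  · filter_upwards [self_mem_nhdsWithin] with θ hθ
    rw [eq, neg_re, ofReal_re]
    have : θ < l := hθ
    linarith
  · unfold qz
    ring

end PLT.BY

end
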