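import Pool.Agent.PLT.ClsSh
import Pool.Agent.PHK.GOm

/-!
# Translation of the rows, ends and cutoffs: the class sum is constant

* `const_of_inv` : a function which is analytic on a vertical strip (or a rectangle) and invariant under imaginary
  translations on a part of it is constant;
* `datS .. s` : the record with the rows, ends, cutoffs `gP β (E + s)`, `gO T1 (W + s) (x + s)`;
* **`fin_datS_im`**, **`fin_datS_const`**.
-/

set_option autoImplicit false
set_option linter.unusedSectionVars false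
set_option linter.unusedVariables false

noncomputable section

open Complex MeasureTheory Filter Topology

namespace Pool.Agent.PLX

open NUP1 NUP1S NUP1.Bd NURow PBX
open NUP1.N (E11)
open PHK (gO Par6 lnP lX6 lY6)

/-- a rectangle -/
def Rect (a b r : ℝ) : Set ℂ := {s | a < s.re ∧ s.re < b ∧ |s.im| < r}

theorem isOpen_Rect (a b r : ℝ) : IsOpen (Rect a b r) :=
  (isOpen_lt continuous_const continuous_re).inter
    ((isOpen_lt continuous_re continuous_const).inter (isOpen_lt (continuous_abs.comp continuous_im) continuous_const))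

theorem convex_Rect (a b r : ℝ) : Convex ℝ (Rect a b r) := by
  have e : Rect a b r = re ⁻¹' Set.Ioo a b ∩ im ⁻¹' Set.Ioo (-r) r := by
    ext s
    simp only [Rect, Set.mem_ofPred_eq, Set.mem_inter_iff, Set.mem_preimage, Set.mem_Ioo, abs_lt]
    tauto
  rw [e]
  exact ((convex_Ioo a b).linear_preimage reLm).inter ((convex_Ioo (-r) r).linear_preimage imLm)

/-- **analytic and invariant under imaginary translations on a part: constant** -/
theorem const_of_inv {F : ℂ → ℂ} {a b a' b' r : ℝ} (hr : 0 < r) (ha : a ≤ a') (hab : a' < b') (hb : b' ≤ b)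
    (hF : DifferentiableOn ℂ F (Rect a b r))
    (hi : ∀ (x y : ℝ), a' < x → x < b' → |y| < r → F (x + y * I) = F x) {s s' : ℂ}
    (hs : s ∈ Rect a b r) (hs' : s' ∈ Rect a b r) : F s = F s' := by
  have hO := isOpen_Rect a b r
  have hA : AnalyticOnNhd ℂ F (Rect a b r) := hF.analyticOnNhd hO
  have hpc : IsPreconnected (Rect a b r) := (convex_Rect a b r).isPreconnected
  have hsub : Rect a' b' r ⊆ Rect a b r := fun z hz => ⟨ha.trans_lt hz.1, hz.2.1.trans_le hb, hz.2.2⟩
  -- the derivative is zero on the part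
  have hd : ∀ z ∈ Rect a' b' r, deriv F z = 0 := by
    intro z hz
    have h1 : HasDerivAt F (deriv F z) z :=
      (hF.differentiableAt (hO.mem_nhds (hsub hz))).hasDerivAt
    have h2 : HasDerivAt (fun t : ℝ => (z : ℂ) + t * I) I 0 := by
      have := ((hasDerivAt_id (0 : ℝ)).ofReal_comp.mul_const I).const_add z
      simpa using this
    have h3 : HasDerivAt (fun t : ℝ => F (z + t * I)) (deriv F z * I) 0 := by
      have h1' : HasDerivAt F (deriv F z) (z + ((0 : ℝ) : ℂ) * I) := by simpa using h1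
      exact h1'.comp (0 : ℝ) h2
    have h4 : (fun t : ℝ => F (z + t * I)) =ᶠ[𝓝 0] fun _ => F z := by
      have hpos : 0 < r - |z.im| := by linarith [hz.2.2]
      filter_upwards [Metric.ball_mem_nhds (0 : ℝ) hpos] with t ht
      have ht' : |t| < r - |z.im| := by simpa [Real.dist_eq] using ht
      have e1 : z + t * I = (z.re : ℂ) + ((z.im + t : ℝ) : ℂ) * I := by
        conv_lhs => rw [← re_add_im z]
        push_cast
        ring
      have e2 : z = (z.re : ℂ) + ((z.im : ℝ) : ℂ) * I := (re_add_im z).symm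
      have h5 : |z.im + t| < r := (abs_add_le _ _).trans_lt (by linarith)
      rw [e1, hi z.re (z.im + t) hz.1 hz.2.1 h5]
      conv_rhs => rw [e2]
      rw [hi z.re z.im hz.1 hz.2.1 hz.2.2]
    have h5 : HasDerivAt (fun t : ℝ => F (z + t * I)) 0 0 :=
      (hasDerivAt_const (0 : ℝ) (F z)).congr_of_eventuallyEq h4
    have h6 := h3.unique h5
    exact (mul_eq_zero.1 h6).resolve_right I_ne_zero
  -- constant on the part
  obtain ⟨c, hc1, hc2⟩ := exists_between hab
  have hc : (c : ℂ) ∈ Rect a' b' r := ⟨by simpa using hc1, by simpa using hc2, by simpa using hr⟩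
  have hev : F =ᶠ[𝓝 (c : ℂ)] fun _ => F c := by
    filter_upwards [(isOpen_Rect a' b' r).mem_nhds hc] with z hz
    exact (isOpen_Rect a' b' r).is_const_of_deriv_eq_zero (convex_Rect a' b' r).isPreconnected
      (hF.mono hsub) (fun w hw => hd w hw) hz hc
  have hq := hA.eqOn_of_preconnected_of_eventuallyEq (analyticOnNhd_const) hpc (hsub hc) hev
  rw [hq hs, hq hs']

/-! ## imaginary translations of the corrections -/

theorem Bdd_vt {K : Set ℝ} {r : ℝ} {f : ℂ → ℂ} (h : Bdd K r f) (τ : ℝ) :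
    Bdd K r fun z => f (z - τ * I) := by
  obtain ⟨C, hC, h⟩ := h
  refine ⟨C * Real.exp (|r| * |τ|), by positivity, fun z hz => ?_⟩
  have h1 := h (z - τ * I) (by simpa using hz)
  have e : (z - τ * I).im = z.im - τ := by simp
  rw [e] at h1
  refine h1.trans ?_
  rw [mul_assoc, ← Real.exp_add]
  refine mul_le_mul_of_nonneg_left (Real.exp_le_exp.2 ?_) hC
  have h2 : |(|z.im - τ| - |z.im|)| ≤ |τ| := by
    have := abs_abs_sub_abs_le_abs_sub (z.im - τ) z.im
    have e3 : |z.im - τ - z.im| = |τ| := by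
      rw [show z.im - τ - z.im = -τ by ring, abs_neg]
    rwa [e3] at this
  have h3 : r * (|z.im - τ| - |z.im|) ≤ |r| * |τ| := by
    refine (le_abs_self _).trans ?_
    rw [abs_mul]
    exact mul_le_mul_of_nonneg_left h2 (abs_nonneg _)
  linarith

theorem GOk_vt {β : ℝ} {g : ℂ → ℂ} (h : GOk β g) (τ : ℝ) : GOk β (vt (τ * I) g) where
  meas := h.meas.comp (measurable_id.sub_const _)
  bd := Bdd_vt h.bd τ
  diff z hz := by
    have h1 : (z - τ * I).re ∈ KK := by simpa using hz
    exact (h.diff _ h1).comp z (differentiableAt_id.sub_const _)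

theorem GOn_vt {K : Set ℝ} {β : ℝ} {g : ℂ → ℂ} (h : GOn K β g) (τ : ℝ) : GOn K β (vt (τ * I) g) where
  meas := h.meas.comp (measurable_id.sub_const _)
  bd := Bdd_vt h.bd τ
  diff z hz := by
    have h1 : (z - τ * I).re ∈ K := by simpa using hz
    exact (h.diff _ h1).comp z (differentiableAt_id.sub_const _)

variable {m M : ℕ}

theorem RU.Ok6.tr {D : RU m M} (h : D.Ok6) (τ : ℝ) : (D.tr (τ * I)).Ok6 where
  b0 := h.b0
  b1 := h.b1
  hx i := by
    have := h.hx i
    show |(D.x i + τ * I).re| ≤ l / 2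
    rwa [re_tr]
  hy i := by
    have := h.hy i
    show |(D.y i + τ * I).re| ≤ l / 2
    rwa [re_tr]
  hp := by
    have := h.hp
    show |(D.p + τ * I).re| ≤ l / 2
    rwa [re_tr]
  hq := by
    have := h.hq
    show |(D.q + τ * I).re| ≤ l / 2
    rwa [re_tr]
  nx i := by
    have := h.nx i
    show (D.x i + τ * I).re ≠ l / 4
    rwa [re_tr]
  ny i := by
    have := h.ny i
    show (D.y i + τ * I).re ≠ l / 4
    rwa [re_tr]
  gg := GOk_vt h.gg τ
  gg' := GOk_vt h.gg' τ
  gg0 := GOn_vt h.gg0 τ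
  gg0' := GOn_vt h.gg0' τ

/-! ## the family -/

/-- a translated list -/
def shW (W : List ℂ) (s : ℂ) : List ℂ := W.map fun w => w + s

theorem gP_shW (β : ℝ) (W : List ℂ) (s u : ℂ) : gP β (shW W s) u = gP β W (u - s) := by
  unfold PBX.gP shW
  rw [List.map_map]
  congr 2
  funext w
  simp only [Function.comp, sub_add_tr]

theorem shW_add (W : List ℂ) (s t : ℂ) : shW (shW W s) t = shW W (s + t) := by
  unfold shW
  rw [List.map_map]
  congr 1
  funext w
  simp only [Function.comp]
  ring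

theorem gP_vt (β : ℝ) (W : List ℂ) (s t : ℂ) : gP β (shW W (s + t)) = vt t (gP β (shW W s)) := by
  rw [← shW_add]
  exact funext fun u => gP_shW β _ t u

/-- **the record of the rows `x + s`, `y + s`, ends `p + s`, `q + s`, points `E + s`, `W + s`** -/
def datS (c c' : ℂ) (β : ℝ) (x : Fin m → ℂ) (y : Fin M → ℂ) (p q : ℂ) (E E' W W' : List ℂ) (T1 : ℝ) (s : ℂ) :
    RU m M :=
  ⟨c, c', β, fun i => x i + s, fun i => y i + s, p + s, q + s, gP β (shW E s), gP β (shW E' s),
    gO T1 (shW W s) (fun i => x i + s), gO T1 (shW W' s) (fun i => y i + s)⟩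

/-- conditions on the record at `s` -/
structure LatS (β : ℝ) (x : Fin m → ℂ) (y : Fin M → ℂ) (p q : ℂ) (E E' W W' : List ℂ) (s : ℂ) : Prop where
  b1 : 1 < β
  b2 : β ≤ 4 / 3
  hx : ∀ i, |(x i + s).re| ≤ l / 2
  hy : ∀ i, |(y i + s).re| ≤ l / 2
  hp : |(p + s).re| ≤ l / 2
  hq : |(q + s).re| ≤ l / 2
  nx : ∀ i, (x i + s).re ≠ l / 4
  ny : ∀ i, (y i + s).re ≠ l / 4
  hE : ∀ w ∈ E, |(w + s).re| ≤ l / 2
  hE' : ∀ w ∈ E', |(w + s).re| ≤ l / 2
  hW : ∀ w ∈ W, |(w + s).re| ≤ l / 2
  hW' : ∀ w ∈ W', |(w + s).re| ≤ l / 2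

section fam

variable {c c' : ℂ} {β : ℝ} {x : Fin m → ℂ} {y : Fin M → ℂ} {p q : ℂ} {E E' W W' : List ℂ} {T1 : ℝ} {s : ℂ}

theorem shW_re {V : List ℂ} (h : ∀ w ∈ V, |(w + s).re| ≤ l / 2) : ∀ w ∈ shW V s, |w.re| ≤ l / 2 := by
  intro w hw
  obtain ⟨v, hv, rfl⟩ := List.mem_map.1 hw
  exact h v hv

theorem LatS.ok (h : LatS β x y p q E E' W W' s) : (datS c c' β x y p q E E' W W' T1 s).Ok6 where
  b0 := by
    have := h.b1
    show 0 < β
    linarith
  b1 := h.b2
  hx := h.hx
  hy := h.hy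
  hp := h.hp
  hq := h.hq
  nx := h.nx
  ny := h.ny
  gg := GOk.gP (by linarith [h.b1]) h.b2 (shW_re h.hE)
  gg' := GOk.gP (by linarith [h.b1]) h.b2 (shW_re h.hE')
  gg0 := PHK.goN_gO h.hx (shW_re h.hW)
  gg0' := PHK.goN_gO h.hy (shW_re h.hW')

theorem LatS.im (h : LatS β x y p q E E' W W' s) (τ : ℝ) : LatS β x y p q E E' W W' (s + τ * I) := by
  have e : ∀ z : ℂ, (z + (s + τ * I)).re = (z + s).re := fun z => by simp
  exact ⟨h.b1, h.b2, fun i => by rw [e]; exact h.hx i, fun i => by rw [e]; exact h.hy i, by rw [e]; exact h.hp,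
    by rw [e]; exact h.hq, fun i => by rw [e]; exact h.nx i, fun i => by rw [e]; exact h.ny i,
    fun w hw => by rw [e]; exact h.hE w hw, fun w hw => by rw [e]; exact h.hE' w hw,
    fun w hw => by rw [e]; exact h.hW w hw, fun w hw => by rw [e]; exact h.hW' w hw⟩

theorem datS_add (c c' : ℂ) (β : ℝ) (x : Fin m → ℂ) (y : Fin M → ℂ) (p q : ℂ) (E E' W W' : List ℂ) (T1 : ℝ)
    (s t : ℂ) : datS c c' β x y p q E E' W W' T1 (s + t) =
      ((datS c c' β x y p q E E' W W' T1 s).tr t).set0 (gO T1 (shW W (s + t)) fun i => x i + (s + t))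
        (gO T1 (shW W' (s + t)) fun i => y i + (s + t)) := by
  unfold datS RU.tr RU.set0
  simp only [← add_assoc, gP_vt]

variable {n n' : ℕ} {P : Par6} {P0 : NUO.Par}

/-- **the class sum of the family is invariant under imaginary translations** -/
theorem fin_datS_im (h : LatS β x y p q E E' W W' s) (hn : n + M = n' + m) (hP0 : ParP P0)
    (L0 : LnH (lX P0) (lY P0)) (hL : ∀ k, lnP P k ∈ Set.Icc (PHK.loV (some k)) (PHK.hiV (some k))) (τ : ℝ) :
    (datS c c' β x y p q E E' W W' T1 (s + τ * I)).fin P n n' =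
      (datS c c' β x y p q E E' W W' T1 s).fin P n n' := by
  have h1 := (h.im τ).ok (c := c) (c' := c') (T1 := T1)
  have h2 := ((h.ok (c := c) (c' := c') (T1 := T1)).tr τ)
  have h3 := h2.fin_set0 (n := n) (n' := n') h.b1 hn hP0 L0 hL h1.gg0 h1.gg0'
  rw [RU.fin_tr] at h3
  rw [datS_add]
  exact h3

/-- **the class sum of the family is constant**: analytic on the rectangle, lattice conditions on a part -/
theorem fin_datS_const (hn : n + M = n' + m) (hP0 : ParP P0)
    (L0 : LnH (lX P0) (lY P0)) (hL : ∀ k, lnP P k ∈ Set.Icc (PHK.loV (some k)) (PHK.hiV (some k)))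
    {a b a' b' r : ℝ} (hr : 0 < r) (ha : a ≤ a') (hab : a' < b') (hb : b' ≤ b)
    (hF : DifferentiableOn ℂ (fun s => (datS c c' β x y p q E E' W W' T1 s).fin P n n') (Rect a b r))
    (hO : ∀ t : ℝ, a' < t → t < b' → LatS β x y p q E E' W W' t) {s s' : ℂ}
    (hs : s ∈ Rect a b r) (hs' : s' ∈ Rect a b r) :
    (datS c c' β x y p q E E' W W' T1 s).fin P n n' = (datS c c' β x y p q E E' W W' T1 s').fin P n n' :=
  const_of_inv hr ha hab hb hF (fun t v h1 h2 _ => fin_datS_im (hO t h1 h2) hn hP0 L0 hL v) hs hs'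

end fam

end Pool.Agent.PLX

end
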