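import Pool.Agent.PLT.ClsShD
import Pool.Agent.PLT.AnRU

/-!
# The frame of the lattice and the frame of the sea

Contents with two places `u`, `v` (rows at `u` and `v`, cut rows and ends at `v`).

* `pk f u v` : the rows; `rP ..` : the record, cutoffs with fixed points;
* **`rP_const`** : `3 / 4 l < Re (v - u) < l` : the class sum of the content translated by `s` does not depend on
  `s` as long as all places are in the strip `-l < Re < 51 / 100 l`;
* **`rP_lat`** : families `u`, `v` with `Re (v - u) < l` on the left of `θ0`, `v - u = l` at `θ0`: the class sum at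
  `θ0` is that of every admissible record with the places `-l / 2`, `l / 2`, any lines.
-/

set_option autoImplicit false
set_option linter.unusedSectionVars false
set_option linter.unusedVariables false

noncomputable section

open Complex MeasureTheory Filter Topology

namespace Pool.Agent.PLX

open NUP1 NUP1S NUP1.Bd NURow PBX PLTX
open NUP1.N (E11)
open PHK (gO Par6 lnP lX6 lY6)

variable {m M : ℕ}

/-- the lines of `P` are in the landed strips -/
theorem lnP_inV {P : Par6} (hP : InV P) (k : O3) :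
    lnP P k ∈ Set.Icc (PHK.loV (some k)) (PHK.hiV (some k)) := by
  have hl := NUP1.l_pos
  obtain ⟨h1, h2, h3, h4⟩ := hP
  cases k
  · show (1 - P.jL) * l ∈ Set.Icc (-(5 / 4) * l) (-(101 / 100) * l)
    constructor <;> nlinarith
  · show -((1 + P.e) * l) ∈ Set.Icc (-(29 / 20) * l) (-(5 / 4) * l)
    constructor <;> nlinarith
  · show -(1 / 2 * l) ∈ Set.Icc (-(1 / 2) * l) (-(1 / 2) * l)
    constructor <;> linarith

/-- **the class sum depends only on rows, ends and constants** (`|Re| ≤ l / 2`) -/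
theorem fin_cutY {D D' : RU m M} (H : D.Ok6) (H' : D'.Ok6) (hβ : 1 < D.β) (hβ' : 1 < D'.β)
    (hx : D.x = D'.x) (hy : D.y = D'.y) (hp : D.p = D'.p) (hq : D.q = D'.q) (hc : D.c = D'.c)
    (hc' : D.c' = D'.c') {n n' : ℕ} (hn : n + M = n' + m) {P0 : NUO.Par} (hP0 : ParP P0)
    (L0 : LnH (lX P0) (lY P0)) {P P' : Par6} (hP : InV P) (hP' : InV P') :
    D.fin P n n' = D'.fin P' n n' := by
  rw [← H.fin_eq hβ hn hP0 L0 (lnP_inV hP), ← H'.fin_eq hβ' hn hP0 L0 (lnP_inV hP')]
  exact RU.Ok.E11_cut (D := D.one) (D' := D'.one) H.base H'.base hβ hβ' hx hy hp hq hc hc'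
    (a := 31 / 50) (Or.inl rfl) hn

/-- rows at two places -/
def pk (f : Fin m → Bool) (u v : ℂ) (i : Fin m) : ℂ := if f i then u else v

theorem pk_add (f : Fin m → Bool) (u v s : ℂ) : (fun i => pk f u v i + s) = pk f (u + s) (v + s) := by
  funext i
  unfold pk
  split_ifs <;> rfl

/-- **the record of a content with two places** -/
def rP (c c' : ℂ) (β : ℝ) (f : Fin m → Bool) (f' : Fin M → Bool) (W W' V V' : List ℂ) (T1 T1' : ℝ) (u v : ℂ) :
    RU m M :=
  ⟨c, c', β, pk f u v, pk f' u v, v, v, gP β W, gP β W', gO T1 V (pk f u v), gO T1' V' (pk f' u v)⟩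

section two

variable {c c' : ℂ} {β : ℝ} {f : Fin m → Bool} {f' : Fin M → Bool} {W W' V V' : List ℂ} {T1 T1' : ℝ}
  {n n' : ℕ} {P : Par6} {P0 : NUO.Par}

/-- conditions on the fixed data -/
structure CutL (β : ℝ) (W W' V V' : List ℂ) : Prop where
  b0 : 1 < β
  b1 : β ≤ 4 / 3
  W : ∀ w ∈ W, |w.re| ≤ l / 2
  W' : ∀ w ∈ W', |w.re| ≤ l / 2
  V : ∀ w ∈ V, |w.re| ≤ l / 2
  V' : ∀ w ∈ V', |w.re| ≤ l / 2

theorem ptG_half {w : ℂ} (h : |w.re| ≤ l / 2) : PtG w := by
  have hl := NUP1.l_pos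
  obtain ⟨h1, h2⟩ := abs_le.1 h
  constructor <;> linarith

/-- **the record is admissible** for places in `|Re| ≤ l / 2`, not at `l / 4` -/
theorem rP_ok (hL : CutL β W W' V V') {u v : ℂ} (hu : |u.re| ≤ l / 2) (hv : |v.re| ≤ l / 2)
    (hu' : u.re ≠ l / 4) (hv' : v.re ≠ l / 4) : (rP c c' β f f' W W' V V' T1 T1' u v).Ok6 := by
  have key : ∀ {k : ℕ} (g : Fin k → Bool) (i : Fin k), |(pk g u v i).re| ≤ l / 2 := by
    intro k g i
    unfold pk
    split_ifs
    · exact hu
    · exact hv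
  have key' : ∀ {k : ℕ} (g : Fin k → Bool) (i : Fin k), (pk g u v i).re ≠ l / 4 := by
    intro k g i
    unfold pk
    split_ifs
    · exact hu'
    · exact hv'
  exact ⟨by show 0 < β; linarith [hL.b0], hL.b1, key f, key f', hv, hv, key' f, key' f',
    GOk.gP (by linarith [hL.b0]) hL.b1 hL.W, GOk.gP (by linarith [hL.b0]) hL.b1 hL.W',
    PHK.goN_gO (key f) hL.V, PHK.goN_gO (key f') hL.V'⟩

/-- analyticity along a family of places -/
theorem rP_diff (hL : CutL β W W' V V') (hP : InV P) (hn : n + M = n' + m) {u v : ℂ → ℂ} {θ0 : ℂ}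
    (hu : NF (-l) θ0 u) (hv : NF (-l) θ0 v) (hv' : NF (-(l / 2)) θ0 v) :
    DifferentiableAt ℂ (fun θ => (rP c c' β f f' W W' V V' T1 T1' (u θ) (v θ)).fin P n n') θ0 := by
  have key : ∀ {k : ℕ} (g : Fin k → Bool) (i : Fin k), NF (-l) θ0 fun θ => pk g (u θ) (v θ) i := by
    intro k g i
    unfold pk
    split_ifs
    · exact hu
    · exact hv
  exact fin_diffL (by linarith [hL.b0]) hL.b1 (key f) (key f') hv' hv' (fun w hw => ptG_half (hL.W w hw))
    (fun w hw => ptG_half (hL.W' w hw)) (fun w hw => ptG_half (hL.V w hw)) (fun w hw => ptG_half (hL.V' w hw))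
    hP hn

/-- **imaginary translations** -/
theorem rP_im (hL : CutL β W W' V V') (hP : InV P) (hn : n + M = n' + m) (hP0 : ParP P0)
    (L0 : LnH (lX P0) (lY P0)) {u v : ℂ} (hu : |u.re| ≤ l / 2) (hv : |v.re| ≤ l / 2)
    (hu' : u.re ≠ l / 4) (hv' : v.re ≠ l / 4) (τ : ℝ) :
    (rP c c' β f f' W W' V V' T1 T1' (u + τ * I) (v + τ * I)).fin P n n' =
      (rP c c' β f f' W W' V V' T1 T1' u v).fin P n n' := by
  have h1 := rP_ok (c := c) (c' := c') (f := f) (f' := f') (T1 := T1) (T1' := T1') hL hu hv hu' hv'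
  have h2 := rP_ok (c := c) (c' := c') (f := f) (f' := f') (T1 := T1) (T1' := T1') (u := u + τ * I)
    (v := v + τ * I) hL (by rwa [re_tr]) (by rwa [re_tr]) (by rwa [re_tr]) (by rwa [re_tr])
  rw [← RU.fin_tr (rP c c' β f f' W W' V V' T1 T1' u v) P n n' τ]
  exact fin_cutY h2 (h1.tr τ) hL.b0 hL.b0 (pk_add f u v _).symm (pk_add f' u v _).symm rfl rfl rfl rfl hn
    hP0 L0 hP hP

/-- **the class sum does not depend on the frame**, width less than `l` -/
theorem rP_const (hL : CutL β W W' V V') (hP : InV P) (hn : n + M = n' + m) (hP0 : ParP P0)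
    (L0 : LnH (lX P0) (lY P0)) {u v : ℂ} (h1 : 3 / 4 * l < v.re - u.re) (h2 : v.re - u.re < l) {s s' : ℂ}
    (hs : -l < (u + s).re) (hs' : -l < (u + s').re) (ht : (v + s).re < 51 / 100 * l)
    (ht' : (v + s').re < 51 / 100 * l) :
    (rP c c' β f f' W W' V V' T1 T1' (u + s) (v + s)).fin P n n' =
      (rP c c' β f f' W W' V V' T1 T1' (u + s') (v + s')).fin P n n' := by
  have hl := NUP1.l_pos
  rw [add_re] at hs hs' ht ht'
  refine const_of_inv (F := fun s => (rP c c' β f f' W W' V V' T1 T1' (u + s) (v + s)).fin P n n')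
    (a := -l - u.re) (b := 51 / 100 * l - v.re) (a' := -(l / 2) - u.re) (b' := l / 2 - v.re)
    (r := |s.im| + |s'.im| + 1) (by positivity) (by linarith) (by linarith) (by linarith) ?_ ?_
    ⟨by linarith, by linarith, by linarith [abs_nonneg s'.im]⟩
    ⟨by linarith, by linarith, by linarith [abs_nonneg s.im]⟩
  · rintro z ⟨z1, z2, -⟩
    refine (rP_diff hL hP hn (u := fun s => u + s) (v := fun s => v + s) ?_ ?_ ?_).differentiableWithinAt
    · exact ⟨Filter.Eventually.of_forall fun _ => by fun_prop, by rw [add_re]; linarith, by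
        rw [add_re]; linarith⟩
    · exact ⟨Filter.Eventually.of_forall fun _ => by fun_prop, by rw [add_re]; linarith, by
        rw [add_re]; linarith⟩
    · exact ⟨Filter.Eventually.of_forall fun _ => by fun_prop, by rw [add_re]; linarith, by
        rw [add_re]; linarith⟩
  · intro t τ t1 t2 _
    have e1 : (u + (t : ℂ)).re = u.re + t := by simp
    have e2 : (v + (t : ℂ)).re = v.re + t := by simp
    have := rP_im (c := c) (c' := c') (f := f) (f' := f') (T1 := T1) (T1' := T1') (u := u + t) (v := v + t)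
      hL hP hn hP0 L0 (by rw [e1, abs_le]; constructor <;> linarith)
      (by rw [e2, abs_le]; constructor <;> linarith) (by rw [e1]; intro h; linarith)
      (by rw [e2]; intro h; linarith) τ
    simp only [add_assoc] at this
    exact this

/-- **the class sum at width exactly `l`**: the frame of the sea is the frame of the lattice -/
theorem rP_lat (hL : CutL β W W' V V') (hP : InV P) (hn : n + M = n' + m) (hP0 : ParP P0)
    (L0 : LnH (lX P0) (lY P0)) {u v : ℂ → ℂ} {θ0 : ℝ} (hu : NF (-l) θ0 u) (hv : NF (-(l / 2)) θ0 v)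
    (hw : ∀ᶠ θ : ℝ in 𝓝[<] θ0, (v θ).re - (u θ).re < l) (hl0 : v θ0 - u θ0 = l) {D' : RU m M} (hD : D'.Ok6)
    (hβ' : 1 < D'.β) (hc : D'.c = c) (hc' : D'.c' = c') (hx : D'.x = pk f (-(l / 2 : ℝ)) ((l / 2 : ℝ) : ℂ))
    (hy : D'.y = pk f' (-(l / 2 : ℝ)) ((l / 2 : ℝ) : ℂ)) (hp : D'.p = ((l / 2 : ℝ) : ℂ))
    (hq : D'.q = ((l / 2 : ℝ) : ℂ)) {P' : Par6} (hP' : InV P') :
    (rP c c' β f f' W W' V V' T1 T1' (u θ0) (v θ0)).fin P n n' = D'.fin P' n n' := by
  have hl := NUP1.l_pos
  obtain ⟨s0, hs0⟩ : ∃ s0 : ℂ, s0 = ((l / 2 : ℝ) : ℂ) - v θ0 := ⟨_, rfl⟩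
  have ev : v θ0 + s0 = ((l / 2 : ℝ) : ℂ) := by rw [hs0]; ring
  have eu : u θ0 + s0 = -((l / 2 : ℝ) : ℂ) := by
    rw [hs0]
    have : u θ0 = v θ0 - l := by rw [← hl0]; ring
    rw [this]
    push_cast
    ring
  have hre : (v θ0).re - (u θ0).re = l := by
    have := congrArg Complex.re hl0
    simpa using this
  have hrs : s0.re = l / 2 - (v θ0).re := by rw [hs0]; simp
  have hv0 : NF (-l) (θ0 : ℂ) v := ⟨hv.df, by linarith [hv.lo], hv.hi⟩
  -- continuity on both sides
  have hA := rP_diff (c := c) (c' := c') (f := f) (f' := f') (T1 := T1) (T1' := T1') hL hP hn hu hv0 hv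
  have hus : NF (-l) (θ0 : ℂ) fun θ => u θ + s0 :=
    ⟨hu.df.mono fun θ h => h.add_const _, by rw [add_re]; linarith, by rw [add_re]; linarith⟩
  have hvs : NF (-l) (θ0 : ℂ) fun θ => v θ + s0 :=
    ⟨hv.df.mono fun θ h => h.add_const _, by rw [add_re]; linarith, by rw [add_re]; linarith⟩
  have hvs' : NF (-(l / 2)) (θ0 : ℂ) fun θ => v θ + s0 := ⟨hvs.df, by rw [add_re]; linarith, hvs.hi⟩
  have hB := rP_diff (c := c) (c' := c') (f := f) (f' := f') (T1 := T1) (T1' := T1') hL hP hn hus hvs hvs'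
  have hof : Tendsto (fun θ : ℝ => (θ : ℂ)) (𝓝[<] θ0) (𝓝 (θ0 : ℂ)) :=
    (continuous_ofReal.tendsto θ0).mono_left nhdsWithin_le_nhds
  have tA := hA.continuousAt.tendsto.comp hof
  have tB := hB.continuousAt.tendsto.comp hof
  have cu : Tendsto (fun θ : ℝ => (u θ).re) (𝓝[<] θ0) (𝓝 (u θ0).re) :=
    (Complex.continuous_re.tendsto _).comp (hu.df.self_of_nhds.continuousAt.tendsto.comp hof)
  have cv : Tendsto (fun θ : ℝ => (v θ).re) (𝓝[<] θ0) (𝓝 (v θ0).re) :=
    (Complex.continuous_re.tendsto _).comp (hv.df.self_of_nhds.continuousAt.tendsto.comp hof)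
  have hne : (𝓝[<] θ0).NeBot := inferInstance
  have heq : ∀ᶠ θ : ℝ in 𝓝[<] θ0, (rP c c' β f f' W W' V V' T1 T1' (u θ) (v θ)).fin P n n' =
      (rP c c' β f f' W W' V V' T1 T1' (u θ + s0) (v θ + s0)).fin P n n' := by
    have u1 := cu.eventually (eventually_gt_nhds hu.lo)
    have v1 := cv.eventually (eventually_lt_nhds hv.hi)
    have u2 := cu.eventually (eventually_gt_nhds (show -l - s0.re < (u θ0).re by linarith))
    have v2 := cv.eventually (eventually_lt_nhds (show (v θ0).re < 51 / 100 * l - s0.re by linarith))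
    have w2 := (cv.sub cu).eventually (eventually_gt_nhds (show 3 / 4 * l < (v θ0).re - (u θ0).re by
      linarith))
    filter_upwards [hw, u1, v1, u2, v2, w2] with θ h0 h1 h2 h3 h4 h5
    have h := rP_const (c := c) (c' := c') (f := f) (f' := f') (T1 := T1) (T1' := T1') (s := 0) (s' := s0)
      hL hP hn hP0 L0 h5 h0 (by simpa using h1) (by rw [add_re]; linarith) (by simpa using h2)
      (by rw [add_re]; linarith)
    simpa using h
  have h1 := tendsto_nhds_unique_of_eventuallyEq tA tB heq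
  rw [h1, ev, eu]
  have h2 := rP_ok (c := c) (c' := c') (f := f) (f' := f') (T1 := T1) (T1' := T1')
    (u := -((l / 2 : ℝ) : ℂ)) (v := ((l / 2 : ℝ) : ℂ)) hL
    (by rw [neg_re, ofReal_re, abs_neg, abs_of_pos (by linarith)])
    (by rw [ofReal_re, abs_of_pos (by linarith)])
    (by rw [neg_re, ofReal_re]; intro h; linarith) (by rw [ofReal_re]; intro h; linarith)
  exact fin_cutY h2 hD hL.b0 hβ' hx.symm hy.symm hp.symm hq.symm hc.symm hc'.symm hn hP0 L0 hP hP'

end two

end Pool.Agent.PLX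

end
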