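import Pool.Agent.PLT.CurPot
import Pool.Agent.PLT.SeaC

/-!
# Contents and their sea

* `SeaOf de hi w p`: the sea of the class is that of the weights `w` at the places `p` (units `l`), the
  curve is the level curve and lies in `[0, hi l]`;
* `Cnt K0 w p c k`: the list `c` consists of rows at the places `p`, and `c` with `k` further rows has the
  proportions `w` up to `K0`;
* `prC c a j t`: the price of a hole at offset `j`; `Cnt.alg`: sums over the list against the proportions.
-/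

set_option autoImplicit false

noncomputable section

namespace PLT

variable {ι : Type*} [Fintype ι]

/-- **the sea is the sea of the content `w`, `p`** -/
structure SeaOf [SeaC] (de hi : ℝ) (w p : ι → ℝ) : Prop where
  cur : Cur w (fun i => p i * NUMF.l) 0 (hi * NUMF.l) Cv.eta (deriv Cv.eta) Cv.P
  nn : ∀ i, 0 ≤ w i
  lo : ∀ i, -(1 - de) ≤ p i
  up : ∀ i, p i ≤ 1 / 2 - de
  lev : ∀ t, ∑ i, w i * Ag (Cv.eta t + p i * NUMF.l) t = 0

theorem SeaOf.mass [SeaC] {de hi : ℝ} {w p : ι → ℝ} (h : SeaOf de hi w p) : ∑ i, w i = 1 := by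
  rw [← (cur_mass h.cur).2]
  exact Cv.P_mass

/-- **rows at the places `p` in the proportions `w` up to `K0`** -/
structure Cnt (K0 : ℝ) (w p : ι → ℝ) (c : List ℝ) (k : ℕ) : Prop where
  mem : ∀ y ∈ c, ∃ i, y = p i
  ex : ∃ n : ι → ℕ, (∀ f : ℝ → ℝ, (c.map f).sum = ∑ i, (n i : ℝ) * f (p i)) ∧
    ∀ i, |((c.length : ℝ) + k) * w i - n i| ≤ K0

/-- price of a hole of species `a` at offset `j` -/
def prC (c : Bool → List ℝ) (a : Bool) (j t : ℝ) : ℝ := ((c a).map fun x => Ag ((j + x) * NUMF.l) t).sum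

/-- **sums over the list against the proportions** -/
theorem Cnt.alg {K0 : ℝ} {w p : ι → ℝ} {c : List ℝ} {k : ℕ} (h : Cnt K0 w p c k) (hw : ∑ i, w i = 1)
    {f : ℝ → ℝ} {L C : ℝ} (hf : ∀ i, |f (p i) - L| ≤ C) :
    |((c.length : ℝ) + k) * ∑ i, w i * f (p i) - ((c.map f).sum + k * L)| ≤
      Fintype.card ι * (K0 * C) := by
  obtain ⟨n, h1, h2⟩ := h.ex
  have hlen : (c.length : ℝ) = ∑ i, (n i : ℝ) := by
    have := h1 fun _ => 1
    simpa using this
  have e : ((c.length : ℝ) + k) * ∑ i, w i * f (p i) - ((c.map f).sum + k * L) =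
      ∑ i, (((c.length : ℝ) + k) * w i - n i) * (f (p i) - L) := by
    rw [h1 f]
    have e2 : ∑ i, (((c.length : ℝ) + k) * w i - n i) * (f (p i) - L) =
        ((c.length : ℝ) + k) * ∑ i, w i * f (p i) - ∑ i, (n i : ℝ) * f (p i) -
          L * (((c.length : ℝ) + k) * ∑ i, w i - ∑ i, (n i : ℝ)) := by
      rw [Finset.mul_sum, Finset.mul_sum, ← Finset.sum_sub_distrib, ← Finset.sum_sub_distrib,
        Finset.mul_sum, ← Finset.sum_sub_distrib]
      exact Finset.sum_congr rfl fun i _ => by ring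
    rw [e2, hw, ← hlen]
    ring
  rw [e]
  refine (Finset.abs_sum_le_sum_abs _ _).trans ?_
  refine (Finset.sum_le_card_nsmul _ _ (K0 * C) fun i _ => ?_).trans (le_of_eq ?_)
  · rw [abs_mul]
    exact mul_le_mul (h2 i) (hf i) (abs_nonneg _) ((abs_nonneg _).trans (h2 i))
  · rw [nsmul_eq_mul, Finset.card_univ]

end PLT

end
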