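import Pool.Agent.PLT.Ag

/-!
# The level curve of a content

A content: rows with weights `m i ≥ 0` at the places `x i` (units `l = π / 8`), `ι` finite.

* `SC m x v t = ∑ i, m i * Ag (v + x i) t`, `PC m x z = ∑ i, m i * Pc (z + x i I)`; `Dm x`: the offsets
  `v` with `|v + x i| < l` for all rows;
* `hasDerivAt_SC_v`, `hasDerivAt_SC_t`: the gradient is `2 π (Re, Im) PC (t + i v)`; `PC_re_pos`;
  `strictMono_SC`; `contDiffAt_SC`;
* `Lev m x`: the curve exists; **`eta m x t`**, `eta_eq`, `eta_unique`, `eta_le`, `eta_ge`, `eta_neg`;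
* **`contDiff_eta`**: the curve is real analytic; **`hasDerivAt_eta`**: `η' = - Im PC / Re PC`;
* **`rho_eq`**: `PC (t + i η) (1 + i η')` is the positive real number `rho m x t`.
-/

set_option autoImplicit false

noncomputable section

open MeasureTheory Set Filter Topology
open scoped ContDiff

namespace PLT

open NUMF

variable {ι : Type*} [Fintype ι]

/-- the level function of a content -/
def SC (m x : ι → ℝ) (v t : ℝ) : ℝ := ∑ i, m i * Ag (v + x i) t

/-- the density of a content -/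
def PC (m x : ι → ℝ) (z : ℂ) : ℂ := ∑ i, (m i : ℂ) * Pc (z + x i * Complex.I)

/-- the offsets at distance less than `l` from all rows -/
def Dm (x : ι → ℝ) : Set ℝ := {v | ∀ i, |v + x i| < l}

/-- weights of rows -/
structure Wt (m : ι → ℝ) : Prop where
  nn : ∀ i, 0 ≤ m i
  pos : ∃ i, 0 < m i

variable {m x : ι → ℝ}

theorem isOpen_Dm (x : ι → ℝ) : IsOpen (Dm x) := by
  have e : Dm x = ⋂ i, {v | |v + x i| < l} := by
    ext v
    simp [Dm]
  rw [e]
  exact isOpen_iInter_of_finite fun i => isOpen_lt (by fun_prop) continuous_const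

omit [Fintype ι] in
theorem convex_Dm (x : ι → ℝ) : Convex ℝ (Dm x) := by
  have e : Dm x = ⋂ i, Set.Ioo (-(l + x i)) (l - x i) := by
    ext v
    rw [Set.mem_iInter]
    show (∀ i, |v + x i| < l) ↔ _
    refine forall_congr' fun i => ?_
    rw [abs_lt, Set.mem_Ioo]
    constructor <;> rintro ⟨h1, h2⟩ <;> constructor <;> linarith
  rw [e]
  exact convex_iInter fun i => convex_Ioo _ _

theorem shift_eq (t v y : ℝ) : (t : ℂ) + v * Complex.I + y * Complex.I =
    (t : ℂ) + ((v + y : ℝ) : ℂ) * Complex.I := by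
  push_cast
  ring

theorem PC_re (m x : ι → ℝ) (v t : ℝ) : (PC m x ((t : ℂ) + v * Complex.I)).re =
    ∑ i, m i * (Pc ((t : ℂ) + ((v + x i : ℝ) : ℂ) * Complex.I)).re := by
  unfold PC
  rw [Complex.re_sum]
  refine Finset.sum_congr rfl fun i _ => ?_
  rw [shift_eq, Complex.re_ofReal_mul]

theorem PC_im (m x : ι → ℝ) (v t : ℝ) : (PC m x ((t : ℂ) + v * Complex.I)).im =
    ∑ i, m i * (Pc ((t : ℂ) + ((v + x i : ℝ) : ℂ) * Complex.I)).im := by
  unfold PC
  rw [Complex.im_sum]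
  refine Finset.sum_congr rfl fun i _ => ?_
  rw [shift_eq, Complex.im_ofReal_mul]

theorem hasDerivAt_SC_v {v : ℝ} (hv : v ∈ Dm x) (t : ℝ) :
    HasDerivAt (fun v => SC m x v t) (2 * Real.pi * (PC m x ((t : ℂ) + v * Complex.I)).re) v := by
  have h : HasDerivAt (fun v => ∑ i, m i * Ag (v + x i) t)
      (∑ i, m i * (2 * Real.pi * (Pc ((t : ℂ) + ((v + x i : ℝ) : ℂ) * Complex.I)).re)) v := by
    refine HasDerivAt.fun_sum fun i _ => ?_
    have h1 := (hasDerivAt_Ag_v (hv i) t).comp_add_const v (x i)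
    exact h1.const_mul (m i)
  refine h.congr_deriv ?_
  rw [PC_re, Finset.mul_sum]
  exact Finset.sum_congr rfl fun i _ => by ring

theorem hasDerivAt_SC_t {v : ℝ} (hv : v ∈ Dm x) (t : ℝ) :
    HasDerivAt (fun t => SC m x v t) (2 * Real.pi * (PC m x ((t : ℂ) + v * Complex.I)).im) t := by
  have h : HasDerivAt (fun t => ∑ i, m i * Ag (v + x i) t)
      (∑ i, m i * (2 * Real.pi * (Pc ((t : ℂ) + ((v + x i : ℝ) : ℂ) * Complex.I)).im)) t := by
    refine HasDerivAt.fun_sum fun i _ => ?_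
    exact (hasDerivAt_Ag_t (hv i) t).const_mul (m i)
  refine h.congr_deriv ?_
  rw [PC_im, Finset.mul_sum]
  exact Finset.sum_congr rfl fun i _ => by ring

/-- **the density is positive** -/
theorem PC_re_pos (hm : Wt m) {v : ℝ} (hv : v ∈ Dm x) (t : ℝ) :
    0 < (PC m x ((t : ℂ) + v * Complex.I)).re := by
  obtain ⟨i, hi⟩ := hm.pos
  rw [PC_re]
  refine Finset.sum_pos' (fun j _ => mul_nonneg (hm.nn j) (Pc_re_pos (hv j) t).le)
    ⟨i, Finset.mem_univ i, mul_pos hi (Pc_re_pos (hv i) t)⟩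

/-- **the level function increases in the offset** -/
theorem strictMono_SC (hm : Wt m) (t : ℝ) : StrictMonoOn (fun v => SC m x v t) (Dm x) := by
  refine strictMonoOn_of_deriv_pos (convex_Dm x)
    (fun v hv => (hasDerivAt_SC_v hv t).continuousAt.continuousWithinAt) fun v hv => ?_
  rw [(isOpen_Dm x).interior_eq] at hv
  rw [(hasDerivAt_SC_v hv t).deriv]
  have := PC_re_pos hm hv t
  positivity

/-! ### smoothness -/

theorem contDiff_ch : ContDiff ℝ ω ch := by
  unfold ch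
  exact Real.contDiff_cosh.comp (contDiff_const.mul contDiff_id)

theorem contDiffAt_Ag {p : ℝ × ℝ} {y : ℝ} (hv : |p.2 + y| < l) :
    ContDiffAt ℝ ω (fun p : ℝ × ℝ => Ag (p.2 + y) p.1) p := by
  obtain ⟨⟨a1, a2⟩, a3, a4⟩ := ang hv
  have h1 := one_le_ch p.1
  obtain ⟨p1, p2⟩ := cpos h1 a1 a2
  obtain ⟨p3, p4⟩ := cpos h1 a3 a4
  have c0 : ContDiff ℝ ω fun p : ℝ × ℝ => ch p.1 := contDiff_ch.comp contDiff_fst
  have s0 : ∀ c : ℝ, ContDiff ℝ ω fun p : ℝ × ℝ => Real.sin (8 / 3 * (p.2 + y) + c) := fun c =>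
    Real.contDiff_sin.comp ((contDiff_const.mul (contDiff_snd.add contDiff_const)).add contDiff_const)
  have s1 : ContDiff ℝ ω fun p : ℝ × ℝ => Real.sin (8 / 3 * (p.2 + y) - Real.pi / 6) := by
    have := s0 (-(Real.pi / 6))
    simpa [sub_eq_add_neg] using this
  unfold Ag La
  refine ContDiffAt.add ?_ ?_
  · exact (((c0.add s1).contDiffAt.log p1.ne').sub ((c0.sub s1).contDiffAt.log p2.ne')).div_const 2
  · exact (((c0.add (s0 _)).contDiffAt.log p3.ne').sub
      ((c0.sub (s0 _)).contDiffAt.log p4.ne')).div_const 2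

theorem contDiffAt_SC {p : ℝ × ℝ} (hv : p.2 ∈ Dm x) :
    ContDiffAt ℝ ω (fun p : ℝ × ℝ => SC m x p.2 p.1) p := by
  unfold SC
  exact ContDiffAt.sum fun i _ => contDiffAt_const.mul (contDiffAt_Ag (hv i))

/-! ### the curve -/

/-- the level curve exists -/
def Lev (m x : ι → ℝ) : Prop := ∀ t, ∃ v ∈ Dm x, SC m x v t = 0

open Classical in
/-- **the level curve** -/
def eta (m x : ι → ℝ) (t : ℝ) : ℝ := if h : ∃ v ∈ Dm x, SC m x v t = 0 then h.choose else 0

theorem eta_mem (h : Lev m x) (t : ℝ) : eta m x t ∈ Dm x := by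
  unfold eta
  rw [dif_pos (h t)]
  exact (h t).choose_spec.1

theorem eta_eq (h : Lev m x) (t : ℝ) : SC m x (eta m x t) t = 0 := by
  unfold eta
  rw [dif_pos (h t)]
  exact (h t).choose_spec.2

theorem eta_unique (hm : Wt m) (h : Lev m x) {t v : ℝ} (hv : v ∈ Dm x) (h0 : SC m x v t = 0) :
    eta m x t = v :=
  (strictMono_SC hm t).injOn (eta_mem h t) hv ((eta_eq h t).trans h0.symm)

theorem eta_le (hm : Wt m) (h : Lev m x) {t v : ℝ} (hv : v ∈ Dm x) (h0 : 0 ≤ SC m x v t) :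
    eta m x t ≤ v := by
  rw [← (strictMono_SC hm t).le_iff_le (eta_mem h t) hv]
  rw [eta_eq h t]
  exact h0

theorem eta_lt (hm : Wt m) (h : Lev m x) {t v : ℝ} (hv : v ∈ Dm x) (h0 : 0 < SC m x v t) :
    eta m x t < v := by
  rw [← (strictMono_SC hm t).lt_iff_lt (eta_mem h t) hv]
  rw [eta_eq h t]
  exact h0

theorem le_eta (hm : Wt m) (h : Lev m x) {t v : ℝ} (hv : v ∈ Dm x) (h0 : SC m x v t ≤ 0) :
    v ≤ eta m x t := by
  rw [← (strictMono_SC hm t).le_iff_le hv (eta_mem h t)]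
  rw [eta_eq h t]
  exact h0

/-- the level function is positive above the curve -/
theorem SC_pos (hm : Wt m) (h : Lev m x) {t v : ℝ} (hv : v ∈ Dm x) (h0 : eta m x t < v) :
    0 < SC m x v t := by
  have := (strictMono_SC hm t) (eta_mem h t) hv h0
  simp only at this
  rwa [eta_eq h t] at this

theorem SC_neg_t (m x : ι → ℝ) (v t : ℝ) : SC m x v (-t) = SC m x v t := by
  unfold SC
  simp only [Ag_neg_t]

theorem eta_neg (hm : Wt m) (h : Lev m x) (t : ℝ) : eta m x (-t) = eta m x t :=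
  eta_unique hm h (eta_mem h t) (by rw [SC_neg_t]; exact eta_eq h t)

/-- the derivative of the level function in the plane -/
theorem fderiv_SC {p : ℝ × ℝ} (hv : p.2 ∈ Dm x) (a b : ℝ) :
    fderiv ℝ (fun p : ℝ × ℝ => SC m x p.2 p.1) p (a, b) =
      2 * Real.pi * (PC m x ((p.1 : ℂ) + p.2 * Complex.I)).im * a +
        2 * Real.pi * (PC m x ((p.1 : ℂ) + p.2 * Complex.I)).re * b := by
  obtain ⟨t, v⟩ := p
  have hf := ((contDiffAt_SC (m := m) hv).differentiableAt (by simp)).hasFDerivAt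
  have h1 : HasDerivAt (fun s : ℝ => ((s, v) : ℝ × ℝ)) (1, 0) t :=
    (hasDerivAt_id t).prodMk (hasDerivAt_const t v)
  have h2 : HasDerivAt (fun s : ℝ => ((t, s) : ℝ × ℝ)) (0, 1) v :=
    (hasDerivAt_const v t).prodMk (hasDerivAt_id v)
  have k1 := HasFDerivAt.comp_hasDerivAt (f := fun s : ℝ => ((s, v) : ℝ × ℝ)) t hf h1
  have k2 := HasFDerivAt.comp_hasDerivAt (f := fun s : ℝ => ((t, s) : ℝ × ℝ)) v hf h2
  have d1 := k1.unique (hasDerivAt_SC_t (m := m) hv t)
  have d2 := k2.unique (hasDerivAt_SC_v (m := m) hv t)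
  have e : ((a, b) : ℝ × ℝ) = a • ((1, 0) : ℝ × ℝ) + b • ((0, 1) : ℝ × ℝ) := by
    ext <;> simp
  rw [e, map_add, map_smul, map_smul, d1, d2, smul_eq_mul, smul_eq_mul]
  ring

/-- **the level curve is real analytic** -/
theorem contDiff_eta (hm : Wt m) (h : Lev m x) : ContDiff ℝ ω (eta m x) := by
  rw [contDiff_iff_contDiffAt]
  intro t
  obtain ⟨u, hu⟩ : ∃ u : ℝ × ℝ, u = (t, eta m x t) := ⟨_, rfl⟩
  have hu2 : u.2 ∈ Dm x := by rw [hu]; exact eta_mem h t
  have cdf := contDiffAt_SC (m := m) hu2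
  have hp := PC_re_pos hm hu2 u.1
  have hpi := Real.pi_pos
  obtain ⟨c, hc⟩ : ∃ c, c = 2 * Real.pi * (PC m x ((u.1 : ℂ) + u.2 * Complex.I)).re := ⟨_, rfl⟩
  have hc0 : c ≠ 0 := by rw [hc]; positivity
  have inv : (fderiv ℝ (fun p : ℝ × ℝ => SC m x p.2 p.1) u ∘L .inr ℝ ℝ ℝ).IsInvertible := by
    refine ⟨ContinuousLinearEquiv.unitsEquivAut ℝ (Units.mk0 c hc0), ?_⟩
    ext
    simp only [ContinuousLinearMap.comp_apply, ContinuousLinearMap.inr_apply]
    rw [fderiv_SC hu2]
    simp [hc]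
  have h1 := cdf.contDiffAt_implicitFunction (by simp) inv
  have h2 := cdf.eventually_apply_implicitFunction (by simp) inv
  have h3 := cdf.implicitFunction_apply_self (by simp) inv
  obtain ⟨ψ, hψ⟩ : ∃ ψ, ψ = cdf.implicitFunction (by simp) inv := ⟨_, rfl⟩
  rw [← hψ] at h1 h2 h3
  have ht : u.1 = t := by rw [hu]
  have hu2' : u.2 = eta m x t := by rw [hu]
  have h0 : SC m x u.2 u.1 = 0 := by rw [hu]; exact eta_eq h t
  have h4 : ∀ᶠ s in 𝓝 u.1, ψ s ∈ Dm x :=
    h1.continuousAt.preimage_mem_nhds ((isOpen_Dm x).mem_nhds (by rw [h3]; exact hu2))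
  have h5 : eta m x =ᶠ[𝓝 u.1] ψ := by
    filter_upwards [h2, h4] with s hs1 hs2
    exact eta_unique hm h hs2 (by rw [h0] at hs1; exact hs1)
  rw [← ht]
  exact h1.congr_of_eventuallyEq h5

/-- the derivative of the curve -/
def eta' (m x : ι → ℝ) (t : ℝ) : ℝ := -((PC m x ((t : ℂ) + eta m x t * Complex.I)).im /
  (PC m x ((t : ℂ) + eta m x t * Complex.I)).re)

/-- **`η' = - Im PC / Re PC`** -/
theorem hasDerivAt_eta (hm : Wt m) (h : Lev m x) (t : ℝ) :
    HasDerivAt (eta m x) (eta' m x t) t := by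
  have hd := ((contDiff_eta hm h).differentiable (by simp) t).hasDerivAt
  have hmem := eta_mem h t
  have hp := PC_re_pos hm hmem t
  have hpi := Real.pi_pos
  have hf := ((contDiffAt_SC (m := m) (p := (t, eta m x t)) hmem).differentiableAt
    (by simp)).hasFDerivAt
  have h1 : HasDerivAt (fun s : ℝ => ((s, eta m x s) : ℝ × ℝ)) (1, deriv (eta m x) t) t :=
    (hasDerivAt_id t).prodMk hd
  have d1 := hf.comp_hasDerivAt t h1
  have e : ((fun p : ℝ × ℝ => SC m x p.2 p.1) ∘ fun s : ℝ => (s, eta m x s)) = fun _ => 0 := by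
    funext s
    exact eta_eq h s
  rw [e] at d1
  have d2 := d1.unique (hasDerivAt_const t 0)
  rw [fderiv_SC hmem] at d2
  simp only [mul_one] at d2
  have e2 : deriv (eta m x) t = eta' m x t := by
    unfold eta'
    rw [← neg_div, eq_div_iff hp.ne']
    have h3 : 2 * Real.pi * (deriv (eta m x) t *
        (PC m x ((t : ℂ) + eta m x t * Complex.I)).re +
        (PC m x ((t : ℂ) + eta m x t * Complex.I)).im) = 0 := by
      linear_combination d2
    have h4 := (mul_eq_zero.1 h3).resolve_left (by positivity)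
    linarith
  rw [← e2]
  exact hd

theorem continuous_eta (hm : Wt m) (h : Lev m x) : Continuous (eta m x) :=
  (contDiff_eta hm h).continuous

theorem continuous_eta' (hm : Wt m) (h : Lev m x) : Continuous (eta' m x) := by
  have e : eta' m x = deriv (eta m x) := funext fun t => (hasDerivAt_eta hm h t).deriv.symm
  rw [e]
  exact (contDiff_eta hm h).continuous_deriv (by simp)

theorem contDiff_eta' (hm : Wt m) (h : Lev m x) : ContDiff ℝ ω (eta' m x) := by
  have e : eta' m x = deriv (eta m x) := funext fun t => (hasDerivAt_eta hm h t).deriv.symm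
  rw [e]
  have h1 : ContDiff ℝ (ω + 1) (eta m x) := contDiff_eta hm h
  exact (contDiff_succ_iff_deriv.1 h1).2.2

theorem eta'_neg (hm : Wt m) (h : Lev m x) (t : ℝ) : eta' m x (-t) = -eta' m x t := by
  have h1 := (hasDerivAt_eta hm h (-t)).scomp t (hasDerivAt_neg t)
  have e : eta m x ∘ Neg.neg = eta m x := funext fun s => eta_neg hm h s
  rw [e] at h1
  have h2 := h1.unique (hasDerivAt_eta hm h t)
  simp only [smul_eq_mul] at h2
  linarith

/-- the density along the curve -/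
def rho (m x : ι → ℝ) (t : ℝ) : ℝ := ‖PC m x ((t : ℂ) + eta m x t * Complex.I)‖ ^ 2 /
  (PC m x ((t : ℂ) + eta m x t * Complex.I)).re

/-- **the density along the curve is real and positive** -/
theorem rho_eq (hm : Wt m) (h : Lev m x) (t : ℝ) :
    PC m x ((t : ℂ) + eta m x t * Complex.I) * (1 + eta' m x t * Complex.I) = (rho m x t : ℂ) := by
  have hp := PC_re_pos hm (eta_mem h t) t
  obtain ⟨w, hw⟩ : ∃ w, w = PC m x ((t : ℂ) + eta m x t * Complex.I) := ⟨_, rfl⟩
  unfold rho eta'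
  rw [← hw] at hp ⊢
  have h1 : ‖w‖ ^ 2 = w.re ^ 2 + w.im ^ 2 := by
    rw [← Complex.normSq_eq_norm_sq, Complex.normSq_apply]
    ring
  rw [h1]
  obtain ⟨a, ha⟩ : ∃ a : ℝ, a = w.re := ⟨_, rfl⟩
  obtain ⟨b, hb⟩ : ∃ b : ℝ, b = w.im := ⟨_, rfl⟩
  have hw2 : w = (a : ℂ) + b * Complex.I := by
    rw [ha, hb]
    exact (Complex.re_add_im w).symm
  rw [← ha] at hp ⊢
  rw [← hb, hw2]
  have ha0 : (a : ℂ) ≠ 0 := by exact_mod_cast hp.ne'
  push_cast
  field_simp
  linear_combination (-(b : ℂ) ^ 2) * Complex.I_sq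

theorem rho_pos (hm : Wt m) (h : Lev m x) (t : ℝ) : 0 < rho m x t := by
  have hp := PC_re_pos hm (eta_mem h t) t
  unfold rho
  have h1 : PC m x ((t : ℂ) + eta m x t * Complex.I) ≠ 0 := by
    intro h0
    rw [h0] at hp
    simp at hp
  have := norm_pos_iff.2 h1
  positivity

/-- the density along the curve is at least the real part -/
theorem re_le_rho (hm : Wt m) (h : Lev m x) (t : ℝ) :
    (PC m x ((t : ℂ) + eta m x t * Complex.I)).re ≤ rho m x t := by
  have hp := PC_re_pos hm (eta_mem h t) t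
  unfold rho
  rw [le_div_iff₀ hp]
  have h1 := Complex.abs_re_le_norm (PC m x ((t : ℂ) + eta m x t * Complex.I))
  rw [abs_of_pos hp] at h1
  nlinarith

end PLT

end
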