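import Pool.Agent.PLT.SeaC
import Pool.Agent.PLT.Level
import Pool.Agent.NUAct.Disp

/-!
# The sea of a content on its level curve

A content (`PLT/Level`): weights `m i ≥ 0` at the places `x i` (file units), here of total mass one.
* `PlU h m x`: places in `[-(l - 4 h), l / 2]`; `EtU Ce m x`: the level curve exists in `[0, 7/120 l]`, has slope
  at most `1 / 4` and the bounds `Ce n exp (-(32/3)|t|)` for its derivatives;
* **`seaY : SeaC`**, density `rho m x`, curve `eta m x`; **`seaYB h Ce : SeaCB`**; **`seaYU : SeaCU (seaYB ..)`**: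
  the numbers depend on `h` and `Ce` only;
* `Pc_re_low`: `2 / (√3 π) exp (-(8/3)|t|) ≤ Re Pc (t + i v)`, `|v| < l`.
-/

set_option autoImplicit false
set_option linter.unusedSectionVars false

open MeasureTheory Set Filter Topology Complex
open scoped ContDiff

namespace PLT

open NUMF (l l_pos)
open NUAct (ks kx ks_bd kx_bd ks_meas kx_cont)

noncomputable section

/-! ### one row -/

private lemma ch_le_exp (t : ℝ) : NUMF.ch t * Real.exp (-(8 / 3) * |t|) ≤ 1 := by
  have e : NUMF.ch t = (Real.exp (8 / 3 * |t|) + Real.exp (-(8 / 3) * |t|)) / 2 := by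
    unfold NUMF.ch
    rw [← Real.cosh_abs, abs_mul, abs_of_pos (by norm_num : (0:ℝ) < 8 / 3), Real.cosh_eq]
    ring_nf
  have h4 : Real.exp (8 / 3 * |t|) * Real.exp (-(8 / 3) * |t|) = 1 := by
    rw [← Real.exp_add]
    have : 8 / 3 * |t| + -(8 / 3) * |t| = 0 := by ring
    rw [this, Real.exp_zero]
  have h5 : Real.exp (-(8 / 3) * |t|) ≤ 1 := Real.exp_le_one_iff.2 (by
    have := abs_nonneg t
    linarith)
  have h6 := Real.exp_pos (-(8 / 3) * |t|)
  rw [e]
  nlinarith

/-- the constant of the lower bound -/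
def cLo : ℝ := 2 / (√3 * Real.pi)

lemma cLo_pos : 0 < cLo := by
  have := Real.pi_pos
  unfold cLo
  positivity

/-- **the density of a row is bounded from below at every offset** -/
theorem Pc_re_low {v : ℝ} (hv : |v| < l) (t : ℝ) :
    cLo * Real.exp (-(8 / 3) * |t|) ≤ (NUMF.Pc ((t : ℂ) + v * Complex.I)).re := by
  obtain ⟨⟨a1, a2⟩, a3, a4⟩ := ang hv
  obtain ⟨d1, d2⟩ := den_v hv t
  have c1 := Real.cos_pos_of_mem_Ioo ⟨a1, a2⟩
  have c2 := Real.cos_pos_of_mem_Ioo ⟨a3, a4⟩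
  have h0 := NUMF.one_le_ch t
  have h1 : 0 < NUMF.ch t := by linarith
  have hp := Real.pi_pos
  rw [Pc_parts hv t]
  simp only [Complex.add_re, Complex.ofReal_re, Complex.mul_re,
      Complex.I_re, mul_zero, Complex.ofReal_im, Complex.I_im, mul_one, sub_self, add_zero]
  have key : ∀ β : ℝ, 0 < Real.cos β → 0 < NUMF.ch t ^ 2 - Real.sin β ^ 2 →
      Real.cos β / NUMF.ch t ≤ NUMF.ch t * Real.cos β / (NUMF.ch t ^ 2 - Real.sin β ^ 2) := by
    intro β hc hd
    rw [div_le_div_iff₀ h1 hd]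
    have : 0 ≤ Real.cos β * Real.sin β ^ 2 := by positivity
    nlinarith
  have k1 := key _ c1 d1
  have k2 := key _ c2 d2
  have hsum : √3 / 2 ≤ Real.cos (8 / 3 * v - Real.pi / 6) + Real.cos (8 / 3 * v + Real.pi / 6) := by
    have e : Real.cos (8 / 3 * v - Real.pi / 6) + Real.cos (8 / 3 * v + Real.pi / 6) =
        √3 * Real.cos (8 / 3 * v) := by
      rw [Real.cos_sub, Real.cos_add, Real.cos_pi_div_six]
      ring
    rw [e]
    have h2 : 1 / 2 ≤ Real.cos (8 / 3 * v) := by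
      have h3 : |8 / 3 * v| ≤ Real.pi / 3 := by
        rw [abs_mul, abs_of_pos (by norm_num : (0:ℝ) < 8 / 3)]
        have : |v| ≤ Real.pi / 8 := hv.le
        linarith
      rw [← Real.cos_abs, ← Real.cos_pi_div_three]
      exact Real.cos_le_cos_of_nonneg_of_le_pi (abs_nonneg _) (by linarith) h3
    have : 0 ≤ √3 := Real.sqrt_nonneg 3
    nlinarith
  have h3 : √3 / 2 / NUMF.ch t ≤ NUMF.ch t * Real.cos (8 / 3 * v - Real.pi / 6) /
      (NUMF.ch t ^ 2 - Real.sin (8 / 3 * v - Real.pi / 6) ^ 2) +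
      NUMF.ch t * Real.cos (8 / 3 * v + Real.pi / 6) /
      (NUMF.ch t ^ 2 - Real.sin (8 / 3 * v + Real.pi / 6) ^ 2) := by
    refine le_trans ?_ (add_le_add k1 k2)
    rw [← add_div]
    gcongr
  have h4 : Real.exp (-(8 / 3) * |t|) ≤ 1 / NUMF.ch t := by
    rw [le_div_iff₀ h1, mul_comm]
    exact ch_le_exp t
  have hs : (√3 : ℝ) ^ 2 = 3 := Real.sq_sqrt (by norm_num)
  have hs0 : 0 < √3 := Real.sqrt_pos.2 (by norm_num)
  calc cLo * Real.exp (-(8 / 3) * |t|) ≤ cLo * (1 / NUMF.ch t) :=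
        mul_le_mul_of_nonneg_left h4 cLo_pos.le
    _ = 4 / (3 * Real.pi) * (√3 / 2 / NUMF.ch t) := by
        unfold cLo
        field_simp
        nlinarith
    _ ≤ _ := mul_le_mul_of_nonneg_left h3 (by positivity)

/-- the reflected point -/
theorem Pc_reflect {v : ℝ} (hv : |v| < l) (t : ℝ) :
    NUMF.Pc (((-t : ℝ) : ℂ) + v * Complex.I) =
      (starRingEnd ℂ) (NUMF.Pc ((t : ℂ) + v * Complex.I)) := by
  have hs : sh (-t) = -sh t := by
    unfold sh
    rw [mul_neg, Real.sinh_neg]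
  have key : ∀ A B B' : ℝ, B' = -B → (A : ℂ) + (B' : ℂ) * Complex.I =
      (starRingEnd ℂ) ((A : ℂ) + (B : ℂ) * Complex.I) := by
    intro A B B' h
    rw [h, map_add, map_mul, Complex.conj_ofReal, Complex.conj_ofReal, Complex.conj_I]
    push_cast
    ring
  rw [Pc_parts hv, Pc_parts hv, NUMF.ch_neg, hs]
  exact key _ _ _ (by ring)

/-! ### contents -/

variable {ι : Type*} [Fintype ι] {h : ℝ} {Ce : ℕ → ℝ} {m x : ι → ℝ}

/-- a content of mass one with places in `[-(l - 4 h), l / 2]` -/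
structure PlU (h : ℝ) (m x : ι → ℝ) : Prop where
  wt : Wt m
  sum : ∑ i, m i = 1
  lo : ∀ i, -(l - 4 * h) ≤ x i
  hi : ∀ i, x i ≤ l / 2

/-- the level curve of a content in its window, with bounds -/
structure EtU (Ce : ℕ → ℝ) (m x : ι → ℝ) : Prop where
  lev : Lev m x
  nn : ∀ t, 0 ≤ eta m x t
  le : ∀ t, eta m x t ≤ 3 / 50 * l
  le7 : ∀ t, eta m x t ≤ 7 / 120 * l
  sl : ∀ t, |eta' m x t| ≤ 1 / 4
  dec : ∀ (n : ℕ) (t : ℝ), |iteratedDeriv n (eta m x) t| ≤ Ce n * Real.exp (-(32 / 3) * |t|)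

lemma EtU.mem (hE : EtU Ce m x) (t : ℝ) : eta m x t ∈ Dm x := eta_mem hE.lev t

/-- offsets of the rows seen from the strip -/
lemma PlU.im_lt (hP : PlU h m x) (h0 : 0 < h) {z : ℂ} (h1 : -(2 * h) < z.im) (h2 : z.im < l / 2)
    (i : ι) : |(z + x i * I).im| < l := by
  have a1 := hP.lo i
  have a2 := hP.hi i
  have e : (z + x i * I).im = z.im + x i := by simp
  rw [e, abs_lt]
  constructor <;> linarith

lemma PlU.im_le (hP : PlU h m x) (h0 : 0 < h) (h1 : h ≤ l / 40) {z : ℂ} (h3 : -h ≤ z.im)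
    (h4 : z.im ≤ l / 4) (i : ι) : |(z + x i * I).im| ≤ l - h := by
  have a1 := hP.lo i
  have a2 := hP.hi i
  have e : (z + x i * I).im = z.im + x i := by simp
  have hl := l_pos
  rw [e, abs_le]
  constructor <;> linarith

lemma re_add_I (z : ℂ) (y : ℝ) : (z + y * I).re = z.re := by simp

lemma PC_diff (hP : PlU h m x) (h0 : 0 < h) {z : ℂ} (h1 : -(2 * h) < z.im) (h2 : z.im < l / 2) :
    DifferentiableAt ℂ (PC m x) z := by
  unfold PC
  refine DifferentiableAt.fun_sum fun i _ => ?_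
  exact ((NUMF.Pc_diff (hP.im_lt h0 h1 h2 i)).comp z (differentiableAt_id.add_const _)).const_mul _

lemma iter_PC (hP : PlU h m x) (h0 : 0 < h) (n : ℕ) {z : ℂ} (h1 : -(2 * h) < z.im)
    (h2 : z.im < l / 2) : iteratedDeriv n (PC m x) z =
      ∑ i, (m i : ℂ) * iteratedDeriv n NUMF.Pc (z + x i * I) := by
  induction n generalizing z with
  | zero => simp only [iteratedDeriv_zero]; rfl
  | succ n ih =>
    have hm : {z : ℂ | -(2 * h) < z.im ∧ z.im < l / 2} ∈ 𝓝 z :=
      (Cv.strip_open _ _).mem_nhds ⟨h1, h2⟩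
    have e1 : iteratedDeriv n (PC m x) =ᶠ[𝓝 z]
        fun z => ∑ i, (m i : ℂ) * iteratedDeriv n NUMF.Pc (z + x i * I) := by
      filter_upwards [hm] with w hw
      exact ih hw.1 hw.2
    rw [iteratedDeriv_succ, e1.deriv_eq]
    refine (HasDerivAt.fun_sum fun i _ => ?_).deriv
    have d1 := (NUAct.hasDerivAt_iter n (hP.im_lt h0 h1 h2 i)).comp z
      ((hasDerivAt_id z).add_const ((x i : ℂ) * I))
    rw [mul_one] at d1
    exact d1.const_mul _

lemma sum_norm_le (hP : PlU h m x) {F : ι → ℂ} {C : ℝ} (hF : ∀ i, ‖F i‖ ≤ C) :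
    ‖∑ i, (m i : ℂ) * F i‖ ≤ C := by
  calc _ ≤ ∑ i, ‖(m i : ℂ) * F i‖ := norm_sum_le _ _
    _ ≤ ∑ i, m i * C := by
        refine Finset.sum_le_sum fun i _ => ?_
        rw [norm_mul, Complex.norm_real, Real.norm_eq_abs, abs_of_nonneg (hP.wt.nn i)]
        exact mul_le_mul_of_nonneg_left (hF i) (hP.wt.nn i)
    _ = C := by rw [← Finset.sum_mul, hP.sum, one_mul]

/-- the bounds of the rows at distance `h` from the poles -/
theorem exists_Cb (h : ℝ) (h0 : 0 < h) (h1 : h ≤ l / 40) (n : ℕ) : ∃ C : ℝ, 0 ≤ C ∧ ∀ z : ℂ,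
    |z.im| ≤ l - h → ‖iteratedDeriv n NUMF.Pc z‖ ≤ C * Real.exp (-(8 / 3) * |z.re|) := by
  have hl := l_pos
  exact NUMF.Pc_deriv_exp (b := l - h) (by linarith) (by linarith) n

theorem exists_Kf (h : ℝ) (h0 : 0 < h) (h1 : h ≤ l / 40) : ∃ K : ℝ, 0 ≤ K ∧ ∀ z : ℂ,
    |z.im| ≤ l - h → ‖NUAct.vs z‖ ≤ K * (1 + |z.re|) ∧ ‖NUAct.vx z‖ ≤ K * (1 + |z.re|) := by
  have hl := l_pos
  have h8 := NUAct.l8
  obtain ⟨K1, k1, H1⟩ := NUAct.Ly_gr (b := l - h) (y := 3 * l)
    (by rw [abs_of_pos (by linarith)]; linarith) (by linarith)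
  obtain ⟨K2, k2, H2⟩ := NUAct.Ly_gr (b := l - h) (y := 0)
    (by rw [abs_zero]; linarith) (by linarith)
  have l2 : 0 < Real.log 2 := Real.log_pos (by norm_num)
  refine ⟨K1 + K2 + Real.log 2, by positivity, fun z hz => ⟨?_, ?_⟩⟩
  · have n1 := norm_sub_le (Real.log 2 : ℂ) (NUAct.Ly (3 * l) z)
    rw [Complex.norm_real, Real.norm_eq_abs, abs_of_pos l2] at n1
    have := H1 z hz
    have h5 := abs_nonneg z.re
    unfold NUAct.vs
    nlinarith [mul_nonneg l2.le h5, mul_nonneg k2 h5]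
  · have n1 := norm_sub_le (NUAct.Ly 0 z) (Real.log 2 : ℂ)
    rw [Complex.norm_real, Real.norm_eq_abs, abs_of_pos l2] at n1
    have := H2 z hz
    have h5 := abs_nonneg z.re
    unfold NUAct.vx
    nlinarith [mul_nonneg l2.le h5, mul_nonneg k1 h5]

/-- a field equation of the content from that of a row -/
lemma conv_C (hP : PlU h m x) (h0 : 0 < h) {k : ℝ → ℂ} {K : ℝ} (hk : AEStronglyMeasurable k)
    (hkb : ∀ u : ℝ, u ≠ 0 → ‖k u‖ ≤ K * NUAct.gr |u|) {F : ℂ → ℂ}
    (hF : ∀ z : ℂ, |z.im| < l → ∫ u : ℝ, NUMF.Pc (z - u) * k u = F z) {z : ℂ}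
    (h1 : -(2 * h) < z.im) (h2 : z.im < l / 2) :
    ∫ u : ℝ, PC m x (z - u) * k u = ∑ i, (m i : ℂ) * F (z + x i * I) := by
  have hi := fun i => hP.im_lt h0 h1 h2 i
  have e : (fun u : ℝ => PC m x (z - u) * k u) =
      fun u : ℝ => ∑ i, (m i : ℂ) * (NUMF.Pc (z + x i * I - u) * k u) := by
    funext u
    unfold PC
    rw [Finset.sum_mul]
    refine Finset.sum_congr rfl fun i _ => ?_
    rw [show z - (u : ℂ) + x i * I = z + x i * I - u by ring]
    ring
  rw [e, integral_finsetSum _ fun i _ => (NUAct.J_int hk hkb (hi i)).const_mul _]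
  refine Finset.sum_congr rfl fun i _ => ?_
  rw [integral_const_mul, hF _ (hi i)]

/-! ### the curve -/

lemma deriv_eta (hP : PlU h m x) (hE : EtU Ce m x) (t : ℝ) : deriv (eta m x) t = eta' m x t :=
  (hasDerivAt_eta hP.wt hE.lev t).deriv

lemma rho_real (hP : PlU h m x) (hE : EtU Ce m x) (t : ℝ) :
    PC m x ((t : ℂ) + eta m x t * I) * (1 + deriv (eta m x) t * I) = (rho m x t : ℂ) := by
  rw [deriv_eta hP hE]
  exact rho_eq hP.wt hE.lev t

lemma PC_reflect {v : ℝ} (hv : v ∈ Dm x) (t : ℝ) :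
    PC m x (((-t : ℝ) : ℂ) + v * Complex.I) =
      (starRingEnd ℂ) (PC m x ((t : ℂ) + v * Complex.I)) := by
  unfold PC
  rw [map_sum]
  refine Finset.sum_congr rfl fun i _ => ?_
  rw [map_mul, Complex.conj_ofReal, shift_eq, shift_eq, Pc_reflect (hv i)]

/-- real contents: the density is even -/
lemma rho_even (hP : PlU h m x) (hE : EtU Ce m x) (t : ℝ) : rho m x (-t) = rho m x t := by
  unfold rho
  rw [eta_neg hP.wt hE.lev, PC_reflect (hE.mem t), Complex.norm_conj, Complex.conj_re]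

lemma rho_low (hP : PlU h m x) (hE : EtU Ce m x) (t : ℝ) :
    cLo * Real.exp (-(8 / 3) * |t|) ≤ rho m x t := by
  refine le_trans ?_ (re_le_rho hP.wt hE.lev t)
  rw [PC_re]
  calc cLo * Real.exp (-(8 / 3) * |t|) = ∑ i, m i * (cLo * Real.exp (-(8 / 3) * |t|)) := by
        rw [← Finset.sum_mul, hP.sum, one_mul]
    _ ≤ _ := Finset.sum_le_sum fun i _ =>
        mul_le_mul_of_nonneg_left (Pc_re_low (hE.mem t i) t) (hP.wt.nn i)

/-- the level curve is a path -/
lemma eta_path (hP : PlU h m x) (hE : EtU Ce m x) : Cv.SPath 0 (3 / 50 * l) 1 (1 + Ce 1)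
    (fun t => (t : ℂ) + eta m x t * I) (fun t => 1 + deriv (eta m x) t * I) := by
  have hd := fun t => hasDerivAt_eta hP.wt hE.lev t
  have h1 : ∀ t, |deriv (eta m x) t| ≤ Ce 1 := fun t => by
    have h2 := hE.dec 1 t
    rw [iteratedDeriv_one] at h2
    have h3 : Real.exp (-(32 / 3) * |t|) ≤ 1 := by
      rw [Real.exp_le_one_iff]
      have := abs_nonneg t
      linarith
    have h4 : 0 ≤ Ce 1 := by
      have h5 := (abs_nonneg _).trans h2
      exact nonneg_of_mul_nonneg_left h5 (Real.exp_pos _)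
    nlinarith
  have h0 : 0 ≤ Ce 1 := (abs_nonneg _).trans (h1 0)
  refine ⟨fun t => ?_, ?_, fun t => ?_, fun t => ?_, fun t => ?_, one_pos, le_rfl, fun s t hst => ?_,
    fun t => ?_⟩
  · have a1 : HasDerivAt (fun t : ℝ => (t : ℂ)) 1 t := Complex.ofRealCLM.hasDerivAt
    rw [deriv_eta hP hE]
    exact a1.add ((hd t).ofReal_comp.mul_const I)
  · have e : deriv (eta m x) = eta' m x := funext fun t => deriv_eta hP hE t
    rw [e]
    exact continuous_const.add ((Complex.continuous_ofReal.comp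
      (continuous_eta' hP.wt hE.lev)).mul continuous_const)
  · simpa using hE.nn t
  · simpa using hE.le t
  · refine (norm_add_le _ _).trans ?_
    rw [norm_one, norm_mul, Complex.norm_I, mul_one, Complex.norm_real, Real.norm_eq_abs]
    linarith [h1 t]
  · simp
  · rw [add_sub_cancel_left, norm_mul, Complex.norm_I, mul_one, Complex.norm_real,
      Real.norm_eq_abs, abs_of_nonneg (hE.nn t)]
    have a1 := hE.le t
    have a2 : 3 / 50 * l ≤ 1 := by
      unfold NUMF.l
      have := Real.pi_le_four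
      linarith
    linarith

/-- the mass of a row on a horizontal line -/
lemma Pc_line {y : ℝ} (hy : |y| < l) : Integrable (fun t : ℝ => NUMF.Pc ((t : ℂ) + y * I)) ∧
    ∫ t : ℝ, NUMF.Pc ((t : ℂ) + y * I) = 1 := by
  obtain ⟨C, hC, hD⟩ := NUAct.Pc_dec (b := |y|) (abs_nonneg y) hy
  have hp : NUAct.Path |y| 1 (1 + |y|) (fun t : ℝ => (t : ℂ) + y * I) (fun _ => 1) :=
    { der := fun t => (Complex.ofRealCLM.hasDerivAt (x := t)).add_const _
      cont := continuous_const
      im_le := fun t => by simp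
      dle := fun t => by rw [norm_one]; linarith [abs_nonneg y]
      c_pos := one_pos
      c_le := le_rfl
      mono := fun s t _ => by simp
      near := fun t => by
        rw [add_sub_cancel_left, norm_mul, Complex.norm_I, mul_one, Complex.norm_real,
          Real.norm_eq_abs]
        linarith }
  obtain ⟨i1, i2, e⟩ := NUAct.path_shift (by norm_num) hD hp
  simp only [mul_one] at i1 e
  refine ⟨i1, ?_⟩
  rw [e]
  simp only [NUMF.Pc_ofReal]
  rw [integral_complex_ofReal, NUMF.integral_P]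
  simp

lemma PC_dec (hP : PlU h m x) (h0 : 0 < h) (h1 : h ≤ l / 40) {C : ℝ}
    (hC : ∀ z : ℂ, |z.im| ≤ l - h → ‖iteratedDeriv 0 NUMF.Pc z‖ ≤
      C * Real.exp (-(8 / 3) * |z.re|)) : Cv.SDec 0 (3 / 50 * l) C (8 / 3) (PC m x) := by
  have hl := l_pos
  refine ⟨fun z a1 a2 => PC_diff hP h0 (by linarith) (by linarith), fun z a1 a2 => ?_⟩
  unfold PC
  refine sum_norm_le hP fun i => ?_
  have := hC _ (hP.im_le h0 h1 (z := z) (by linarith) (by linarith) i)
  rw [re_add_I, iteratedDeriv_zero] at this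
  exact this

/-- **total mass one** -/
theorem rho_mass (hP : PlU h m x) (hE : EtU Ce m x) (h0 : 0 < h) (h1 : h ≤ l / 40) :
    ∫ t, rho m x t = 1 := by
  have hl := l_pos
  obtain ⟨C, hC, H⟩ := exists_Cb h h0 h1 0
  have hD := PC_dec hP h0 h1 H
  have Q := Cv.hline (lo := 0) (hi := 3 / 50 * l) (y := 0) le_rfl (by linarith)
  have e := (eta_path hP hE).shift2 Q (by norm_num) hD
  have e1 : ∫ t : ℝ, (rho m x t : ℂ) = 1 := by
    have e2 : (fun t : ℝ => (rho m x t : ℂ)) = fun t : ℝ =>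
        PC m x ((t : ℂ) + eta m x t * I) * (1 + deriv (eta m x) t * I) :=
      funext fun t => (rho_real hP hE t).symm
    rw [e2, e]
    simp only [mul_one]
    have hx : ∀ i, |x i| < l := fun i => by
      have a1 := hP.lo i
      have a2 := hP.hi i
      rw [abs_lt]
      constructor <;> linarith
    have e3 : (fun t : ℝ => PC m x ((t : ℂ) + (0 : ℝ) * I)) = fun t : ℝ =>
        ∑ i, (m i : ℂ) * NUMF.Pc ((t : ℂ) + x i * I) := by
      funext t
      unfold PC
      refine Finset.sum_congr rfl fun i _ => ?_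
      rw [Complex.ofReal_zero, zero_mul, add_zero]
    rw [e3, integral_finsetSum _ fun i _ => (Pc_line (hx i)).1.const_mul _]
    have e4 : ∀ i, ∫ t : ℝ, (m i : ℂ) * NUMF.Pc ((t : ℂ) + x i * I) = (m i : ℂ) := fun i => by
      rw [integral_const_mul, (Pc_line (hx i)).2, mul_one]
    simp only [e4]
    rw [← Complex.ofReal_sum, hP.sum, Complex.ofReal_one]
  rw [integral_complex_ofReal] at e1
  exact_mod_cast e1

/-! ### the instance -/

/-- **the sea of a content** -/
@[reducible] def seaY (hP : PlU h m x) (hE : EtU Ce m x) (h0 : 0 < h) (h1 : h ≤ l / 40) : SeaC where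
  dens := rho m x
  densc := PC m x
  fs z := ∑ i, (m i : ℂ) * NUAct.vs (z + x i * I)
  fx z := ∑ i, (m i : ℂ) * NUAct.vx (z + x i * I)
  eta := eta m x
  smooth := (contDiff_eta hP.wt hE.lev).of_le (by simp)
  eta_nn := fun t => (neg_nonpos.2 (by have := l_pos; positivity)).trans (hE.nn t)
  eta_le7 := hE.le7
  eta'_le := fun t => by rw [deriv_eta hP hE]; exact hE.sl t
  real := rho_real hP hE
  mass := rho_mass hP hE h0 h1

/-- **the numbers of all contents with the same `h` and `Ce`** -/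
def seaYB (h : ℝ) (Ce : ℕ → ℝ) (h0 : 0 < h) (h1 : h ≤ l / 40) (hCe : ∀ n, 0 ≤ Ce n) : SeaCB where
  h := h
  d := 0
  top := 7 / 120 * l
  Cb n := (exists_Cb h h0 h1 n).choose
  Ce := Ce
  c0 := cLo
  K := (exists_Kf h h0 h1).choose
  h0 := h0
  h1 := h1
  d0 := le_rfl
  dh := by linarith
  dl := by have := l_pos; positivity
  top0 := by have := l_pos; positivity
  top1 := le_rfl
  Cb0 n := (exists_Cb h h0 h1 n).choose_spec.1
  Ce0 := hCe
  c0p := cLo_pos
  K0 := (exists_Kf h h0 h1).choose_spec.1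

/-- **all bounds** -/
theorem seaYU (hP : PlU h m x) (hE : EtU Ce m x) (h0 : 0 < h) (h1 : h ≤ l / 40)
    (hCe : ∀ n, 0 ≤ Ce n) : @SeaCU (seaYB h Ce h0 h1 hCe) (seaY hP hE h0 h1) := by
  have hl := l_pos
  refine @SeaCU.mk _ (seaY hP hE h0 h1) (fun z a1 a2 => PC_diff hP h0 a1 a2)
    (fun n z a1 a2 => ?_) (rho_low hP hE)
    (fun t => by
      have h3 := hE.nn t
      show -(0:ℝ) ≤ _
      rw [neg_zero]
      exact h3) (fun t => hE.le7 t) (fun n t _ => hE.dec n t) (fun z a1 a2 => ?_) (fun z a1 a2 => ?_)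
    (fun z a1 a2 => ?_) (fun z a1 a2 => ?_) (fun z a1 a2 => ?_) (fun z a1 a2 => ?_)
  · have a1' : -h ≤ z.im := a1
    show ‖iteratedDeriv n (PC m x) z‖ ≤ (exists_Cb h h0 h1 n).choose * _
    rw [iter_PC hP h0 n (by linarith) (by linarith)]
    refine sum_norm_le hP fun i => ?_
    have := (exists_Cb h h0 h1 n).choose_spec.2 _ (hP.im_le h0 h1 a1' a2 i)
    rwa [re_add_I] at this
  · refine DifferentiableAt.fun_sum fun i _ => ?_
    exact ((NUAct.diff_vs (hP.im_lt h0 a1 a2 i)).comp z (differentiableAt_id.add_const _)).const_mul _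
  · refine DifferentiableAt.fun_sum fun i _ => ?_
    exact ((NUAct.diff_vx (hP.im_lt h0 a1 a2 i)).comp z (differentiableAt_id.add_const _)).const_mul _
  · refine sum_norm_le hP fun i => ?_
    have := ((exists_Kf h h0 h1).choose_spec.2 _ (hP.im_le h0 h1 a1 a2 i)).1
    rwa [re_add_I] at this
  · refine sum_norm_le hP fun i => ?_
    have := ((exists_Kf h h0 h1).choose_spec.2 _ (hP.im_le h0 h1 a1 a2 i)).2
    rwa [re_add_I] at this
  · have a1' : -h ≤ z.im := a1
    obtain ⟨K, hK⟩ := ks_bd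
    exact conv_C hP h0 ks_meas hK (fun w hw => NUAct.horiz_s hw) (by linarith) (by linarith)
  · have a1' : -h ≤ z.im := a1
    obtain ⟨K, hK⟩ := kx_bd
    exact conv_C hP h0 kx_cont.aestronglyMeasurable hK (fun w hw => NUAct.horiz_x hw)
      (by linarith) (by linarith)

/-! ### two places -/

/-- depth of the strip for places at distance `de` from `-1` -/
def hde (de : ℝ) : ℝ := min (l / 40) (de * l / 4)

lemma hde_pos {de : ℝ} (h : 0 < de) : 0 < hde de := by
  have := l_pos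
  exact lt_min (by positivity) (by positivity)

lemma hde_le (de : ℝ) : hde de ≤ l / 40 := min_le_left _ _

/-- weights `a`, `b` -/
def m2 (a b : ℝ) : Fin 2 → ℝ := ![a, b]

/-- places `-p l`, `q l` -/
def x2 (p q : ℝ) : Fin 2 → ℝ := ![-(p * l), q * l]

lemma plU2 {de a b p q : ℝ} (ha : 0 ≤ a) (hb : 0 ≤ b) (hab : a + b = 1) (hp0 : 0 ≤ p)
    (hp : p ≤ 1 - de) (hq0 : 0 ≤ q) (hq : q ≤ 1 / 2) : PlU (hde de) (m2 a b) (x2 p q) := by
  have hl := l_pos
  have h1 : hde de ≤ de * l / 4 := min_le_right _ _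
  have h2 : hde de ≤ l / 40 := min_le_left _ _
  refine ⟨⟨fun i => ?_, ?_⟩, ?_, fun i => ?_, fun i => ?_⟩
  · fin_cases i
    · exact ha
    · exact hb
  · rcases ha.eq_or_lt with h0 | h0
    · exact ⟨1, show 0 < b by linarith⟩
    · exact ⟨0, h0⟩
  · rw [Fin.sum_univ_two]
    exact hab
  · fin_cases i
    · show -(l - 4 * hde de) ≤ -(p * l)
      nlinarith
    · show -(l - 4 * hde de) ≤ q * l
      have : 0 ≤ q * l := by positivity
      linarith
  · fin_cases i
    · show -(p * l) ≤ l / 2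
      have : 0 ≤ p * l := by positivity
      linarith
    · show q * l ≤ l / 2
      nlinarith

end

end PLT
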