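import Pool.Agent.PLT.Cnt
import Pool.Agent.PLT.SeaY

/-!
# Instances of `SeaOf` and `Cnt`

* **`seaOf_seaY`**: the sea `seaY` of a content on its level curve; **`seaOf2`**: two places `-p`, `q`;
* `Cnt.perm`, `Cnt.mono`, `Cnt.kk`, `Cnt.cons`, `Cnt.append`, `Cnt.erase`, `Cnt.nil`: changes of the list;
* **`cnt_rep`**, **`cnt2`**, **`cnt2_perm`**: `a'` rows at `-p` and `b'` rows at `q`.
-/

set_option autoImplicit false

noncomputable section

namespace PLT

open NUMF (l l_pos)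

section sea

variable {ι : Type*} [Fintype ι] {h : ℝ} {Ce : ℕ → ℝ} {w x p : ι → ℝ}

/-- **the sea of a content is the sea of its weights and places** -/
theorem seaOf_seaY {de hi : ℝ} (hP : PlU h w x) (hE : EtU Ce w x) (h0 : 0 < h) (h1 : h ≤ l / 40)
    (hx : x = fun i => p i * l) (hde : 0 < de) (hlo : ∀ i, -(1 - de) ≤ p i) (hup : ∀ i, p i ≤ 1 / 2 - de)
    (hhi : ∀ t, eta w x t ≤ hi * l) (hh : hi < 1 / 2 + de) : @SeaOf ι _ (seaY hP hE h0 h1) de hi w p := by
  have hl := l_pos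
  subst hx
  refine @SeaOf.mk ι _ (seaY hP hE h0 h1) de hi w p ?_ hP.wt.nn hlo hup ?_
  · have hd : deriv (eta w fun i => p i * l) = eta' w fun i => p i * l := funext fun t => deriv_eta hP hE t
    show Cur w (fun i => p i * l) 0 (hi * l) (eta w fun i => p i * l) (deriv (eta w fun i => p i * l))
      (rho w fun i => p i * l)
    rw [hd]
    refine cur_eta hP.wt hE.lev ⟨hasDerivAt_eta hP.wt hE.lev, continuous_eta' hP.wt hE.lev,
      ⟨1 / 4, by norm_num, hE.sl⟩, hE.nn, hhi⟩ (fun i => ?_) fun i => ?_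
    · have := hlo i
      nlinarith
    · have := hup i
      nlinarith
  · intro t
    exact eta_eq hE.lev t

theorem x2_eq (p q : ℝ) : x2 p q = fun i => (![-p, q] : Fin 2 → ℝ) i * l := by
  funext i
  fin_cases i
  · show -(p * l) = -p * l
    ring
  · rfl

/-- **two places** -/
theorem seaOf2 {de hi a b p q : ℝ} (hde : 0 < de) (ha : 0 ≤ a) (hb : 0 ≤ b) (hab : a + b = 1)
    (hp0 : 0 ≤ p) (hp : p ≤ 1 - de) (hq0 : 0 ≤ q) (hq : q ≤ 1 / 2 - de) (hde' : de ≤ 1 / 2)
    (hE : EtU Ce (m2 a b) (x2 p q)) (hhi : ∀ t, eta (m2 a b) (x2 p q) t ≤ hi * l) (hh : hi < 1 / 2 + de) :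
    @SeaOf (Fin 2) _ (seaY (plU2 ha hb hab hp0 hp hq0 (by linarith : q ≤ 1 / 2)) hE (hde_pos hde) (hde_le de))
      de hi (m2 a b) ![-p, q] := by
  refine seaOf_seaY _ hE _ _ (x2_eq p q) hde (fun i => ?_) (fun i => ?_) hhi hh
  · fin_cases i
    · show -(1 - de) ≤ -p
      linarith
    · show -(1 - de) ≤ q
      linarith
  · fin_cases i
    · show -p ≤ 1 / 2 - de
      linarith
    · show q ≤ 1 / 2 - de
      linarith

end sea

section cnt

variable {ι : Type*} [Fintype ι] {K0 : ℝ} {w p : ι → ℝ} {c : List ℝ} {k : ℕ}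

/-- a permutation of the list -/
theorem Cnt.perm {c' : List ℝ} (h : Cnt K0 w p c k) (hc : c.Perm c') : Cnt K0 w p c' k := by
  obtain ⟨n, h1, h2⟩ := h.ex
  refine ⟨fun y hy => h.mem y (hc.mem_iff.2 hy), n, fun f => ?_, fun i => ?_⟩
  · rw [← h1 f]
    exact (hc.map f).sum_eq.symm
  · rw [← hc.length_eq]
    exact h2 i

theorem Cnt.mono {K1 : ℝ} (h : Cnt K0 w p c k) (hK : K0 ≤ K1) : Cnt K1 w p c k := by
  obtain ⟨n, h1, h2⟩ := h.ex
  exact ⟨h.mem, n, h1, fun i => (h2 i).trans hK⟩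

/-- the number of the further rows changes -/
theorem Cnt.kk {k' : ℕ} {K1 : ℝ} (h : Cnt K0 w p c k) (hw0 : ∀ i, 0 ≤ w i) (hw1 : ∀ i, w i ≤ 1)
    (hk : |(k' : ℝ) - k| ≤ K1) : Cnt (K0 + K1) w p c k' := by
  obtain ⟨n, h1, h2⟩ := h.ex
  refine ⟨h.mem, n, h1, fun i => ?_⟩
  have e : ((c.length : ℝ) + k') * w i - n i = (((c.length : ℝ) + k) * w i - n i) + ((k' : ℝ) - k) * w i := by ring
  rw [e]
  refine (abs_add_le _ _).trans (add_le_add (h2 i) ?_)
  rw [abs_mul, abs_of_nonneg (hw0 i)]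
  calc |(k' : ℝ) - k| * w i ≤ |(k' : ℝ) - k| * 1 := mul_le_mul_of_nonneg_left (hw1 i) (abs_nonneg _)
    _ ≤ K1 := by rw [mul_one]; exact hk

theorem Cnt.nil (hw0 : ∀ i, 0 ≤ w i) (hw1 : ∀ i, w i ≤ 1) : Cnt (k : ℝ) w p [] k := by
  refine ⟨fun y hy => absurd hy List.not_mem_nil, fun _ => 0, fun f => by simp, fun i => ?_⟩
  have h1 := hw0 i
  have h2 := hw1 i
  have h3 : (0:ℝ) ≤ k := Nat.cast_nonneg k
  simp only [List.length_nil, Nat.cast_zero, zero_add, sub_zero]
  rw [abs_of_nonneg (mul_nonneg h3 h1)]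
  nlinarith

/-- one more row -/
theorem Cnt.cons (h : Cnt K0 w p c k) (hw0 : ∀ i, 0 ≤ w i) (hw1 : ∀ i, w i ≤ 1) (i0 : ι) :
    Cnt (K0 + 1) w p (p i0 :: c) k := by
  classical
  obtain ⟨n, h1, h2⟩ := h.ex
  refine ⟨fun y hy => ?_, fun i => n i + if i = i0 then 1 else 0, fun f => ?_, fun i => ?_⟩
  · rcases List.mem_cons.1 hy with h | h'
    · exact ⟨i0, h⟩
    · exact h.mem y h'
  · rw [List.map_cons, List.sum_cons, h1 f]
    have e : ∀ i, ((n i + if i = i0 then 1 else 0 : ℕ) : ℝ) * f (p i) =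
        (n i : ℝ) * f (p i) + if i = i0 then f (p i) else 0 := by
      intro i
      split_ifs <;> push_cast <;> ring
    rw [Finset.sum_congr rfl fun i _ => e i, Finset.sum_add_distrib, Finset.sum_ite_eq' Finset.univ i0]
    simp
    ring
  · have e : ((((p i0 :: c).length : ℕ) : ℝ) + k) * w i - ((n i + if i = i0 then 1 else 0 : ℕ) : ℝ) =
        (((c.length : ℝ) + k) * w i - n i) + (w i - if i = i0 then (1:ℝ) else 0) := by
      rw [List.length_cons]
      split_ifs <;> push_cast <;> ring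
    rw [e]
    refine (abs_add_le _ _).trans (add_le_add (h2 i) ?_)
    have a1 := hw0 i
    have a2 := hw1 i
    rw [abs_le]
    split_ifs <;> constructor <;> linarith

/-- more rows -/
theorem Cnt.append (h : Cnt K0 w p c k) (hw0 : ∀ i, 0 ≤ w i) (hw1 : ∀ i, w i ≤ 1) :
    ∀ e : List ℝ, (∀ y ∈ e, ∃ i, y = p i) → Cnt (K0 + e.length) w p (e ++ c) k := by
  intro e
  induction e with
  | nil =>
    intro _
    simpa using h
  | cons y e ih =>
    intro he
    have h1 := ih fun z hz => he z (List.mem_cons_of_mem _ hz)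
    obtain ⟨i0, hi0⟩ := he y List.mem_cons_self
    have h2 := h1.cons hw0 hw1 i0
    rw [hi0, List.cons_append, List.length_cons]
    refine h2.mono (le_of_eq ?_)
    push_cast
    ring

/-- one row less -/
theorem Cnt.erase (h : Cnt K0 w p c k) (hw0 : ∀ i, 0 ≤ w i) (hw1 : ∀ i, w i ≤ 1) {y : ℝ} (hy : y ∈ c) :
    Cnt (K0 + 1) w p (c.erase y) k := by
  classical
  obtain ⟨n, h1, h2⟩ := h.ex
  -- a species with a row at `y`
  obtain ⟨i0, hi0, hn⟩ : ∃ i0, p i0 = y ∧ 1 ≤ n i0 := by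
    by_contra hcon
    push Not at hcon
    have h3 := h1 fun u => if u = y then (1:ℝ) else 0
    have h4 : ∑ i, (n i : ℝ) * (if p i = y then (1:ℝ) else 0) = 0 := by
      refine Finset.sum_eq_zero fun i _ => ?_
      split_ifs with hi
      · have := hcon i hi
        have h5 : n i = 0 := by omega
        rw [h5]
        simp
      · simp
    have h5 : (1:ℝ) ≤ (c.map fun u => if u = y then (1:ℝ) else 0).sum := by
      refine List.single_le_sum (fun z hz => ?_) _ (List.mem_map.2 ⟨y, hy, by simp⟩)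
      obtain ⟨u, -, hu⟩ := List.mem_map.1 hz
      rw [← hu]
      split_ifs <;> norm_num
    rw [h3, h4] at h5
    linarith
  have hp : c.Perm (y :: c.erase y) := List.perm_cons_erase hy
  refine ⟨fun z hz => h.mem z (List.mem_of_mem_erase hz), fun i => n i - if i = i0 then 1 else 0, fun f => ?_,
    fun i => ?_⟩
  · have h3 := h1 f
    rw [(hp.map f).sum_eq, List.map_cons, List.sum_cons] at h3
    have e : ∀ i, ((n i - if i = i0 then 1 else 0 : ℕ) : ℝ) * f (p i) =
        (n i : ℝ) * f (p i) - if i = i0 then f (p i) else 0 := by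
      intro i
      split_ifs with hi
      · subst hi
        rw [Nat.cast_sub hn]
        push_cast
        ring
      · simp
    rw [Finset.sum_congr rfl fun i _ => e i, Finset.sum_sub_distrib, Finset.sum_ite_eq' Finset.univ i0, ← h3]
    simp [hi0]
  · have hlen : (c.length : ℝ) = (c.erase y).length + 1 := by
      rw [hp.length_eq, List.length_cons]
      push_cast
      ring
    have e : (((c.erase y).length : ℝ) + k) * w i - ((n i - if i = i0 then 1 else 0 : ℕ) : ℝ) =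
        (((c.length : ℝ) + k) * w i - n i) - (w i - if i = i0 then (1:ℝ) else 0) := by
      rw [hlen]
      split_ifs with hi
      · subst hi
        rw [Nat.cast_sub hn]
        push_cast
        ring
      · simp
        ring
    rw [e, sub_eq_add_neg]
    refine (abs_add_le _ _).trans (add_le_add (h2 i) ?_)
    have a1 := hw0 i
    have a2 := hw1 i
    rw [abs_neg, abs_le]
    split_ifs <;> constructor <;> linarith

/-- **`a` rows at `x`, `b` rows at `y`** -/
theorem cnt_rep {a b k : ℕ} {wa wb x y : ℝ} (h1 : |((a : ℝ) + b + k) * wa - a| ≤ K0)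
    (h2 : |((a : ℝ) + b + k) * wb - b| ≤ K0) :
    Cnt K0 (![wa, wb] : Fin 2 → ℝ) ![x, y] (List.replicate a x ++ List.replicate b y) k := by
  refine ⟨fun z hz => ?_, ![a, b], fun f => ?_, fun i => ?_⟩
  · rcases List.mem_append.1 hz with h | h
    · exact ⟨0, List.eq_of_mem_replicate h⟩
    · exact ⟨1, List.eq_of_mem_replicate h⟩
  · simp [Fin.sum_univ_two]
  · have e : (((List.replicate a x ++ List.replicate b y).length : ℕ) : ℝ) = (a : ℝ) + b := by simp
    rw [e]
    fin_cases i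
    · exact h1
    · exact h2

/-- **the proportions of `a` and `b`, up to `n0` rows** -/
theorem cnt2 {a b a' b' k n0 : ℕ} (x y : ℝ) (hab : 0 < a + b) (ha : |(a' : ℝ) - a| ≤ n0)
    (hb : |(b' : ℝ) - b| ≤ n0) (hk : k ≤ n0) :
    Cnt (4 * n0) (m2 ((a : ℝ) / (a + b)) ((b : ℝ) / (a + b))) ![x, y]
      (List.replicate a' x ++ List.replicate b' y) k := by
  have hs : (0:ℝ) < (a : ℝ) + b := by exact_mod_cast hab
  have hk' : (k : ℝ) ≤ n0 := by exact_mod_cast hk
  have hk0 : (0:ℝ) ≤ k := Nat.cast_nonneg k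
  have key : ∀ u u' : ℝ, 0 ≤ u → u ≤ (a : ℝ) + b → |u' - u| ≤ n0 →
      |((a' : ℝ) + b' + k) * (u / (a + b)) - u'| ≤ 4 * n0 := by
    intro u u' hu0 hu1 hu
    have e : ((a' : ℝ) + b' + k) * (u / (a + b)) - u' =
        (((a' : ℝ) - a) + ((b' : ℝ) - b) + k) * (u / (a + b)) - (u' - u) := by
      field_simp
      ring
    have r0 : 0 ≤ u / (a + b) := div_nonneg hu0 hs.le
    have r1 : u / (a + b) ≤ 1 := by rwa [div_le_one hs]
    have h4 : |((a' : ℝ) - a) + ((b' : ℝ) - b) + k| ≤ 3 * n0 := by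
      rw [abs_le] at ha hb ⊢
      constructor <;> linarith [ha.1, ha.2, hb.1, hb.2]
    rw [e]
    refine (abs_sub _ _).trans ?_
    rw [abs_mul, abs_of_nonneg r0]
    have h5 : |((a' : ℝ) - a) + ((b' : ℝ) - b) + k| * (u / (a + b)) ≤ 3 * n0 * 1 :=
      mul_le_mul h4 r1 r0 (by positivity)
    linarith
  exact cnt_rep (key _ _ (Nat.cast_nonneg a) (by have : (0:ℝ) ≤ b := Nat.cast_nonneg b; linarith) ha)
    (key _ _ (Nat.cast_nonneg b) (by have : (0:ℝ) ≤ a := Nat.cast_nonneg a; linarith) hb)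

/-- the same for every order of the rows -/
theorem cnt2_perm {a b a' b' k n0 : ℕ} {x y : ℝ} {c : List ℝ} (hab : 0 < a + b) (ha : |(a' : ℝ) - a| ≤ n0)
    (hb : |(b' : ℝ) - b| ≤ n0) (hk : k ≤ n0) (hc : c.Perm (List.replicate a' x ++ List.replicate b' y)) :
    Cnt (4 * n0) (m2 ((a : ℝ) / (a + b)) ((b : ℝ) / (a + b))) ![x, y] c k :=
  (cnt2 x y hab ha hb hk).perm hc.symm

/-- the weights of two places -/
theorem m2_nn {a b : ℝ} (ha : 0 ≤ a) (hb : 0 ≤ b) (i : Fin 2) : 0 ≤ m2 a b i := by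
  fin_cases i
  · exact ha
  · exact hb

theorem m2_le {a b : ℝ} (ha : 0 ≤ a) (hb : 0 ≤ b) (hab : a + b = 1) (i : Fin 2) : m2 a b i ≤ 1 := by
  fin_cases i
  · show a ≤ 1
    linarith
  · show b ≤ 1
    linarith

end cnt

end PLT

end
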