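import Pool.Agent.PLT.HC

/-!
# Bounds and continuity of the continued potential

* **`Hc_bd`**: `|Hc t y - 2 log cosh t| ≤ C` for `|y| ≤ b < 5 l`;
* **`Hc_cont`**: `Hc` is continuous on `|y| < 5 l`.
-/

set_option autoImplicit false

noncomputable section

open MeasureTheory Set Filter Topology Complex

namespace PLT

open NUMF (l l_pos P Pc kf ck ck1 sk dom)

/-! ### the bound -/

theorem cosh_le_mul (u t : ℝ) : Real.cosh u ≤ Real.cosh t * Real.exp |u - t| := by
  have h1 : Real.cosh u = Real.cosh t * Real.cosh (u - t) + Real.sinh t * Real.sinh (u - t) := by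
    rw [← Real.cosh_add]
    congr 1
    ring
  have h2 : Real.sinh t * Real.sinh (u - t) ≤ Real.cosh t * Real.sinh |u - t| := by
    rw [← Real.abs_sinh]
    refine (le_abs_self _).trans ?_
    rw [abs_mul]
    refine mul_le_mul_of_nonneg_right ?_ (abs_nonneg _)
    rw [abs_le]
    have := Real.cosh_sq t
    have := Real.cosh_pos t
    constructor <;> nlinarith
  have h3 : Real.cosh (u - t) = Real.cosh |u - t| := (Real.cosh_abs _).symm
  have h4 := Real.cosh_add_sinh |u - t|
  rw [h1, h3, ← h4, mul_add]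
  linarith

theorem log_cosh_lip (u t : ℝ) : |Real.log (Real.cosh u) - Real.log (Real.cosh t)| ≤ |u - t| := by
  have key : ∀ a b : ℝ, Real.log (Real.cosh a) - Real.log (Real.cosh b) ≤ |a - b| := by
    intro a b
    have h1 := Real.log_le_log (Real.cosh_pos a) (cosh_le_mul a b)
    rw [Real.log_mul (Real.cosh_pos b).ne' (Real.exp_pos _).ne', Real.log_exp] at h1
    linarith
  rw [abs_le]
  have h1 := key u t
  have h2 := key t u
  rw [abs_sub_comm] at h2
  constructor <;> linarith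

theorem Lc_sub_le {b : ℝ} (hb : b < 4 * l) : ∃ K : ℝ, 0 ≤ K ∧ ∀ (w : ℂ) (t : ℝ), |w.im| ≤ b →
    ‖Lc w - (2 * Real.log (Real.cosh t) : ℝ)‖ ≤ K + 2 * |w.re - t| := by
  refine ⟨2 * |Real.log (Real.cos b)| + 1 + 2 * Real.pi, by positivity, fun w t hw => ?_⟩
  obtain ⟨c0, -⟩ := cos_le_norm_cosh hb hw
  have hw4 : |w.im| < 4 * l := lt_of_le_of_lt hw hb
  have hn : 0 < ‖Complex.cosh w‖ := norm_pos_iff.2 (slitPlane_ne_zero (cosh_slit hw4))
  have hb0 : 0 ≤ b := (abs_nonneg _).trans hw
  have hb' := hb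
  rw [four_l] at hb'
  have hpi := Real.pi_pos
  have h1 : Real.log ‖Complex.cosh w‖ ≤ Real.log (Real.cosh w.re) :=
    Real.log_le_log hn (NUMF.norm_cosh_le w)
  have h2 : Real.cos b * Real.cosh w.re ≤ ‖Complex.cosh w‖ := by
    have hc := Real.cosh_pos w.re
    refine (sq_le_sq₀ (by positivity) (norm_nonneg _)).1 ?_
    rw [norm_cosh_sq, Real.cosh_two_mul, Real.cos_two_mul]
    have e1 := Real.cosh_sq w.re
    have e2 : Real.cos b ≤ Real.cos w.im := by
      rw [← Real.cos_abs w.im]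
      exact Real.cos_le_cos_of_nonneg_of_le_pi (abs_nonneg _) (by linarith) hw
    have e3 : Real.cos b ^ 2 ≤ Real.cos w.im ^ 2 := by
      exact (sq_le_sq₀ c0.le (c0.le.trans e2)).2 e2
    have e4 := Real.cos_le_one w.im
    have e5 := Real.neg_one_le_cos w.im
    have e6 : Real.cos w.im ^ 2 ≤ 1 := by nlinarith
    have e7 := sq_nonneg (Real.sinh w.re)
    rw [mul_pow, e1]
    nlinarith
  have h3 : Real.log (Real.cos b) + Real.log (Real.cosh w.re) ≤ Real.log ‖Complex.cosh w‖ := by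
    rw [← Real.log_mul c0.ne' (Real.cosh_pos _).ne']
    exact Real.log_le_log (mul_pos c0 (Real.cosh_pos _)) h2
  have h4 := log_cosh_lip w.re t
  have h5 := abs_le.1 h4
  have h6 := neg_abs_le (Real.log (Real.cos b))
  have h7 := abs_nonneg (Real.log (Real.cos b))
  have h8 : (0:ℝ) < Real.log 2 := Real.log_pos (by norm_num)
  have h9 := Real.log_two_lt_d9
  have eq1 : Lc w - (2 * Real.log (Real.cosh t) : ℝ) =
      ((2 * (Real.log ‖Complex.cosh w‖ - Real.log (Real.cosh t)) + Real.log 2 : ℝ) : ℂ) +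
        ((2 * (Complex.cosh w).arg : ℝ) : ℂ) * I := by
    unfold Lc
    rw [Complex.log]
    push_cast
    ring
  rw [eq1]
  refine (norm_add_le _ _).trans ?_
  rw [norm_mul, norm_I, mul_one, norm_real, norm_real, Real.norm_eq_abs, Real.norm_eq_abs, abs_mul,
    abs_two]
  have h10 := Complex.abs_arg_le_pi (Complex.cosh w)
  have h11 : |2 * (Real.log ‖Complex.cosh w‖ - Real.log (Real.cosh t)) + Real.log 2| ≤
      2 * |Real.log (Real.cos b)| + 1 + 2 * |w.re - t| := by
    rw [abs_le]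
    constructor <;> linarith [h5.1, h5.2]
  linarith

/-- **the size of the continued potential** -/
theorem Hc_bd {b : ℝ} (hb : b < 5 * l) : ∃ C : ℝ, 0 ≤ C ∧ ∀ y t, |y| ≤ b →
    |Hc t y - 2 * Real.log (Real.cosh t)| ≤ C := by
  by_cases hb0 : 0 ≤ b
  swap
  · exact ⟨0, le_rfl, fun y t hy => absurd ((abs_nonneg _).trans hy) hb0⟩
  obtain ⟨C, hC, hP⟩ := Pc_le (b := b / 5) (by linarith)
  obtain ⟨K, hK, hL⟩ := Lc_sub_le (b := 4 * (b / 5)) (by linarith)
  have hi : Integrable fun s : ℝ => C * Real.exp (-(8 / 3) * |s|) * (K + 2 * |s|) := by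
    have h1 := (int_exp_lin (κ := 8 / 3) (by norm_num) (K / 2)).const_mul (C * 2)
    refine h1.congr (Eventually.of_forall fun s => ?_)
    simp only
    ring
  refine ⟨∫ s : ℝ, C * Real.exp (-(8 / 3) * |s|) * (K + 2 * |s|),
    integral_nonneg fun s => by positivity, fun y t hy => ?_⟩
  obtain ⟨c, hc⟩ : ∃ c, c = y / 5 := ⟨_, rfl⟩
  have hc1 : |c| ≤ b / 5 := by
    rw [hc, abs_div, abs_of_pos (by norm_num : (0:ℝ) < 5)]
    linarith
  have hc2 : |y - c| ≤ 4 * (b / 5) := by
    rw [hc, show y - y / 5 = 4 * (y / 5) by ring, abs_mul, abs_div,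
      abs_of_pos (by norm_num : (0:ℝ) < 5), abs_of_pos (by norm_num : (0:ℝ) < 4)]
    linarith
  have hcl : |c| < l := by linarith
  have hyc : |y - c| < 4 * l := by linarith
  obtain ⟨-, h4⟩ := line_pot (t := t) hcl hyc
  obtain ⟨j1, f1⟩ := Pc_one hcl
  have him : ∀ s : ℝ, ((t : ℂ) + y * I - (s + c * I)).im = y - c := fun s => by simp
  have hre : ∀ s : ℝ, ((t : ℂ) + y * I - (s + c * I)).re = t - s := fun s => by simp
  have hbd : ∀ s : ℝ, ‖Pc (s + c * I) * (Lc (t + y * I - (s + c * I)) -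
      (2 * Real.log (Real.cosh t) : ℝ))‖ ≤ C * Real.exp (-(8 / 3) * |s|) * (K + 2 * |s|) := by
    intro s
    rw [norm_mul]
    have a1 := hP (s + c * I) (by simpa using hc1)
    have e1 : ((s : ℂ) + c * I).re = s := by simp
    rw [e1] at a1
    have a2 := hL (t + y * I - (s + c * I)) t (by rw [him]; exact hc2)
    rw [hre, show t - s - t = -s by ring, abs_neg] at a2
    exact mul_le_mul a1 a2 (norm_nonneg _) (by positivity)
  have hcP : Continuous fun s : ℝ => Pc (s + c * I) := by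
    rw [continuous_iff_continuousAt]
    intro s
    have h1 : ContinuousAt (fun s : ℝ => (s : ℂ) + c * I) s := by fun_prop
    exact ContinuousAt.comp (f := fun s : ℝ => (s : ℂ) + c * I) (g := Pc)
      (NUMF.Pc_diff (by simpa using hcl)).continuousAt h1
  have hcL : Continuous fun s : ℝ => Lc (t + y * I - (s + c * I)) := by
    rw [continuous_iff_continuousAt]
    intro s
    have h1 : ContinuousAt (fun s : ℝ => (t : ℂ) + y * I - (s + c * I)) s := by fun_prop
    exact ContinuousAt.comp (f := fun s : ℝ => (t : ℂ) + y * I - (s + c * I)) (g := Lc)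
      (hasDerivAt_Lc (by rw [him]; exact hyc)).continuousAt h1
  have hI : Integrable fun s : ℝ => Pc (s + c * I) * (Lc (t + y * I - (s + c * I)) -
      (2 * Real.log (Real.cosh t) : ℝ)) :=
    hi.mono' (Continuous.aestronglyMeasurable (by fun_prop)) (Eventually.of_forall hbd)
  have h5 := norm_integral_le_of_norm_le hi (Eventually.of_forall hbd)
  have e1 : ∫ s : ℝ, Pc (s + c * I) * (Lc (t + y * I - (s + c * I)) -
      (2 * Real.log (Real.cosh t) : ℝ)) =
      (∫ s : ℝ, Pc (s + c * I) * Lc (t + y * I - (s + c * I))) - (2 * Real.log (Real.cosh t) : ℝ) := by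
    have j2 : Integrable fun s : ℝ => Pc (s + c * I) * Lc (t + y * I - (s + c * I)) := by
      refine (hI.add (j1.mul_const ((2 * Real.log (Real.cosh t) : ℝ) : ℂ))).congr
        (Eventually.of_forall fun s => ?_)
      simp only [Pi.add_apply]
      ring
    have e2 : ∀ s : ℝ, Pc (s + c * I) * (Lc (t + y * I - (s + c * I)) -
      (2 * Real.log (Real.cosh t) : ℝ)) = Pc (s + c * I) * Lc (t + y * I - (s + c * I)) -
        Pc (s + c * I) * ((2 * Real.log (Real.cosh t) : ℝ) : ℂ) := fun s => by ring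
    simp_rw [e2]
    rw [integral_sub j2 (j1.mul_const _), integral_mul_const, f1, one_mul]
  rw [e1] at h5
  have h6 := Complex.abs_re_le_norm
    ((∫ s : ℝ, Pc (s + c * I) * Lc (t + y * I - (s + c * I))) - (2 * Real.log (Real.cosh t) : ℝ))
  rw [Complex.sub_re, h4, Complex.ofReal_re] at h6
  exact h6.trans h5

/-! ### continuity -/

private theorem den_ge (k : ℝ) : 3 / 4 * Real.exp (l * k) ≤ 2 * ck1 k - 1 := by
  unfold NUMF.ck1
  rw [Real.cosh_eq]
  have h1 : Real.exp (l * k) * Real.exp (-(l * k)) = 1 := by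
    rw [← Real.exp_add, add_neg_cancel, Real.exp_zero]
  have h2 := Real.exp_pos (l * k)
  have h3 := Real.exp_pos (-(l * k))
  have h4 : 0 ≤ Real.exp (-(l * k)) * (Real.exp (l * k) / 2 - 1) ^ 2 := by positivity
  nlinarith

/-- an integrable bound of the integrand -/
theorem kf_le {b y t k : ℝ} (hy : |y| ≤ b) (hk : 0 < k) : |kf y t k| ≤
    4 * l ^ 2 * dom l k + 8 / 3 * (y ^ 2 + t ^ 2) * dom (b - l) k := by
  have hs := NUMF.sk_pos hk
  have hD := NUMF.den_k k
  have hD1 : 1 ≤ 2 * ck1 k - 1 := by linarith [NUMF.ck1_ge k]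
  have hl := l_pos
  have e1 : kf y t k = 2 * (2 * (ck1 k - 1) / (k * sk k)) / (2 * ck1 k - 1) +
      2 * (1 - Real.cosh (y * k) * Real.cos (t * k)) / (k * sk k) / (2 * ck1 k - 1) := by
    unfold NUMF.kf
    have := hD.ne'
    have := hs.ne'
    have := hk.ne'
    generalize hc : 2 * ck1 k - 1 = D at *
    rw [show ck1 k - 1 = (D - 1) / 2 by rw [← hc]; ring]
    field_simp
    ring
  have h1 := NUMF.h_kernel_le (y := y) t hk
  have h2 : |2 * (ck1 k - 1) / (k * sk k)| ≤ 2 * l ^ 2 * dom l k := by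
    have a1 := NUMF.ck_le (z := (l : ℂ)) (b := l) (by simp [abs_of_pos hl]) hk
    have a2 := Complex.abs_re_le_norm (ck (l : ℂ) k)
    have a3 := NUMF.ck_re l 0 k
    simp only [Complex.ofReal_zero, zero_mul, add_zero, Real.cos_zero, mul_one] at a3
    rw [a3] at a2
    rw [norm_real, Real.norm_eq_abs, abs_of_pos hl] at a1
    have a4 : 2 * (ck1 k - 1) / (k * sk k) = 2 * ((Real.cosh (l * k) - 1) / (k * sk k)) := by
      unfold NUMF.ck1
      ring
    rw [a4, abs_mul, abs_two]
    linarith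
  have h3 : dom |y| k / (2 * ck1 k - 1) ≤ 4 / 3 * dom (b - l) k := by
    rw [div_le_iff₀ hD]
    have a1 := den_ge k
    have a2 : 0 ≤ 4 / 3 * dom (b - l) k := by
      have := NUMF.dom_nonneg (b - l) hk
      positivity
    have a3 : dom |y| k ≤ 4 / 3 * dom (b - l) k * (3 / 4 * Real.exp (l * k)) := by
      unfold NUMF.dom
      have a4 : Real.exp (|y| * k) ≤ Real.exp ((b - l) * k) * Real.exp (l * k) := by
        rw [← Real.exp_add]
        refine Real.exp_le_exp.2 ?_
        nlinarith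
      have a5 : 0 ≤ k / sk k := by positivity
      calc Real.exp (|y| * k) * (k / sk k) ≤ (Real.exp ((b - l) * k) * Real.exp (l * k)) * (k / sk k) :=
            mul_le_mul_of_nonneg_right a4 a5
        _ = _ := by ring
    exact a3.trans (mul_le_mul_of_nonneg_left a1 a2)
  have hd := NUMF.dom_nonneg l hk
  have hd2 := NUMF.dom_nonneg |y| hk
  rw [e1]
  refine (abs_add_le _ _).trans (add_le_add ?_ ?_)
  · rw [abs_div, abs_mul, abs_two, abs_of_pos hD]
    rw [div_le_iff₀ hD]
    have a1 : 0 ≤ 4 * l ^ 2 * dom l k := by positivity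
    nlinarith
  · rw [abs_div, abs_of_pos hD]
    calc |2 * (1 - Real.cosh (y * k) * Real.cos (t * k)) / (k * sk k)| / (2 * ck1 k - 1) ≤
          ((y ^ 2 + t ^ 2) * (2 * dom |y| k)) / (2 * ck1 k - 1) := by gcongr
      _ = 2 * (y ^ 2 + t ^ 2) * (dom |y| k / (2 * ck1 k - 1)) := by ring
      _ ≤ 2 * (y ^ 2 + t ^ 2) * (4 / 3 * dom (b - l) k) :=
          mul_le_mul_of_nonneg_left h3 (by positivity)
      _ = _ := by ring

/-- **the continued potential is continuous** -/
theorem Hc_cont : ContinuousOn (fun p : ℝ × ℝ => Hc p.1 p.2) {p | |p.2| < 5 * l} := by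
  intro p hp
  have hp' : |p.2| < 5 * l := hp
  obtain ⟨b, hb⟩ : ∃ b, b = (|p.2| + 5 * l) / 2 := ⟨_, rfl⟩
  have hb1 : |p.2| < b := by rw [hb]; linarith
  have hb2 : b < 5 * l := by rw [hb]; linarith
  have hl := l_pos
  have d1 := NUMF.dom_integrable (b := l) (by rw [← four_l]; linarith)
  have d2 := NUMF.dom_integrable (b := b - l) (by rw [← four_l]; linarith)
  obtain ⟨B, hB⟩ : ∃ B, B = |p.1| + 1 := ⟨_, rfl⟩
  refine ContinuousAt.continuousWithinAt ?_
  have hnb : ∀ᶠ q : ℝ × ℝ in 𝓝 p, |q.2| ≤ b ∧ |q.1| ≤ B := by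
    have o1 : IsOpen {q : ℝ × ℝ | |q.2| < b} := isOpen_lt (by fun_prop) continuous_const
    have o2 : IsOpen {q : ℝ × ℝ | |q.1| < B} := isOpen_lt (by fun_prop) continuous_const
    filter_upwards [o1.mem_nhds (show p ∈ {q : ℝ × ℝ | |q.2| < b} from hb1),
      o2.mem_nhds (show p ∈ {q : ℝ × ℝ | |q.1| < B} by
        show |p.1| < B
        rw [hB]
        linarith)] with q hq1 hq2
    exact ⟨le_of_lt hq1, le_of_lt hq2⟩
  unfold Hc
  refine ContinuousAt.add continuousAt_const ?_
  refine continuousAt_of_dominated (bound := fun k => 4 * l ^ 2 * dom l k +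
    8 / 3 * (b ^ 2 + B ^ 2) * dom (b - l) k) ?_ ?_ ?_ ?_
  · refine Eventually.of_forall fun q => ?_
    have hsk := NUMF.sk_meas
    have : Measurable (kf q.2 q.1) := by
      unfold NUMF.kf NUMF.ck1
      fun_prop
    exact this.aestronglyMeasurable
  · filter_upwards [hnb] with q hq
    filter_upwards [ae_restrict_mem measurableSet_Ioi] with k hk
    have hk' : (0:ℝ) < k := hk
    rw [Real.norm_eq_abs]
    refine (kf_le hq.1 hk').trans ?_
    have hd := NUMF.dom_nonneg (b - l) hk'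
    have e1 : q.2 ^ 2 ≤ b ^ 2 := by
      rw [← sq_abs q.2]
      exact pow_le_pow_left₀ (abs_nonneg _) hq.1 2
    have e2 : q.1 ^ 2 ≤ B ^ 2 := by
      rw [← sq_abs q.1]
      exact pow_le_pow_left₀ (abs_nonneg _) hq.2 2
    gcongr
  · exact (d1.const_mul _).add (d2.const_mul _)
  · refine Eventually.of_forall fun k => ?_
    unfold NUMF.kf
    refine ContinuousAt.div_const ?_ _
    refine ContinuousAt.mul continuousAt_const ?_
    refine ContinuousAt.sub continuousAt_const ?_
    refine ContinuousAt.div_const ?_ _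
    refine Continuous.continuousAt ?_
    exact (Real.continuous_cosh.comp (by fun_prop)).mul (Real.continuous_cos.comp (by fun_prop))

theorem Hc_cont_y (t : ℝ) {y : ℝ} (hy : |y| < 5 * l) : ContinuousAt (fun y => Hc t y) y := by
  have o1 : IsOpen {p : ℝ × ℝ | |p.2| < 5 * l} := isOpen_lt (by fun_prop) continuous_const
  have h1 : ContinuousAt (fun p : ℝ × ℝ => Hc p.1 p.2) (t, y) :=
    Hc_cont.continuousAt (o1.mem_nhds hy)
  have h2 : ContinuousAt (fun y : ℝ => ((t, y) : ℝ × ℝ)) y := by fun_prop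
  exact ContinuousAt.comp (f := fun y : ℝ => ((t, y) : ℝ × ℝ)) (g := fun p : ℝ × ℝ => Hc p.1 p.2) h1 h2

theorem Hc_cont_t {y : ℝ} (hy : |y| < 5 * l) : Continuous fun t => Hc t y := by
  have h := Hc_cont.comp_continuous (f := fun t : ℝ => ((t, y) : ℝ × ℝ)) (by fun_prop) fun _ => hy
  exact h

end PLT

end
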