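import Pool.Agent.PLT.CurPot
import Pool.Agent.PLT.HCb
import Pool.Agent.PLT.Rate
import Pool.Agent.NUP.MF.Quanta

/-!
# Prices over a static curve: rows and clouds at every offset

Content: rows with weights `w i` at the places `x i`, cloud on a curve (`Cur w x lo hi η η' ρ`).

* `clP ρ η j t = ∫ ρ s * lq (j - η s / l) (t - s)` (own cloud at offset `j`), `clX` (cross cloud);
* `co1`, `co2`, `co3`, `cx1`, `cx2`: the part of one row, a function of `V = j l + x` only:
  **`clP_1`** `hi < j l < l + lo`, **`clP_2`** `l + hi < j l < 2 l + lo`, **`clP_3`** `2 l + hi < j l <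
  4 l + lo`, **`clX_1`** `hi - 3 l < j l < 3 l + lo`, **`clX_2`** `3 l + hi < j l < 4 l + lo`;
* `rO V t`, `rX V t`: logarithms of the own and of the cross row factor; **`own1 : rO + co1 = Ag V`**,
  **`own2 : rO + co2 = Ag (2 l - V)`**, **`own3 : rO + co3 = 0`**, **`crs1 : rX + cx1 = 0`**,
  **`crs2 : rX + cx2 = -2 Ag (V - 3 l)`**;
* **`priceP_1`, `priceP_2`, `priceP_3`, `priceX_1`, `priceX_2`**: the sums over the rows.
-/

set_option autoImplicit false

noncomputable section

open MeasureTheory Set Filter Topology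

namespace PLT

open NUMF (l l_pos h)

variable {ι : Type*} [Fintype ι]

/-- the own cloud on the curve seen at offset `j` -/
def clP (ρ η : ℝ → ℝ) (j t : ℝ) : ℝ := ∫ s, ρ s * NUMF.lq (j - η s / l) (t - s)

/-- the cross cloud on the curve seen at offset `j` -/
def clX (ρ η : ℝ → ℝ) (j t : ℝ) : ℝ := ∫ s, ρ s * NUMF.lqg (j - η s / l) (t - s)

/-- own cloud of one row, `hi < j l < l + lo` -/
def co1 (V t : ℝ) : ℝ := Hc t (V - 4 * l) + (Hc t (V - 2 * l) + Hc t (V + 2 * l)) / 2 -
  (Hc t (V - 3 * l) + Hc t (V + 3 * l)) / 2 - Real.log 2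

/-- own cloud of one row, `l + hi < j l < 2 l + lo` -/
def co2 (V t : ℝ) : ℝ := Hc t (V - 4 * l) + (Hc t (V - 2 * l) + Hc t (V + 2 * l)) / 2 -
  (Hc t (V - 3 * l) + Hc t (V - 5 * l)) / 2 - Real.log 2

/-- own cloud of one row, `2 l + hi < j l < 4 l + lo` -/
def co3 (V t : ℝ) : ℝ := Hc t (V - 4 * l) + (Hc t (V - 2 * l) + Hc t (V - 6 * l)) / 2 -
  (Hc t (V - 3 * l) + Hc t (V - 5 * l)) / 2 - Real.log 2

/-- cross cloud of one row, `hi - 3 l < j l < 3 l + lo` -/
def cx1 (V t : ℝ) : ℝ := Real.log 2 + Hc t V - (Hc t (V + l) + Hc t (V - l))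

/-- cross cloud of one row, `3 l + hi < j l < 4 l + lo` -/
def cx2 (V t : ℝ) : ℝ := Real.log 2 + Hc t V - (Hc t (V - 7 * l) + Hc t (V - l))

/-- logarithm of the own row factor -/
def rO (V t : ℝ) : ℝ := Real.log 2 - (h t (V - 3 * l) + h t (V - 5 * l)) / 2

/-- logarithm of the cross row factor -/
def rX (V t : ℝ) : ℝ := h t V - Real.log 2

theorem h_even (t y : ℝ) : h t (-y) = h t y := NUMF.h_neg_right t y

theorem h_per8 (t y : ℝ) : h t (y + 8 * l) = h t y := NUMF.h_per t y

theorem rO_ro (J t : ℝ) : rO (J * l) t = Real.log 2 - NUMF.ro J t := by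
  unfold rO NUMF.ro
  rw [← h_even t (J * l - 3 * l), ← h_even t (J * l - 5 * l)]
  rw [show -(J * l - 3 * l) = (3 - J) * l by ring, show -(J * l - 5 * l) = (5 - J) * l by ring]

theorem rO_neg (V t : ℝ) : rO (-V) t = rO V t := by
  unfold rO
  rw [← h_even t (-V - 3 * l), ← h_even t (-V - 5 * l), ← h_per8 t (V - 3 * l), ← h_per8 t (V - 5 * l)]
  rw [show -(-V - 3 * l) = V - 5 * l + 8 * l by ring, show -(-V - 5 * l) = V - 3 * l + 8 * l by ring]
  ring

/-! ### the kernels -/

private theorem lq_eq (j e u : ℝ) : NUMF.lq (j - e / l) u = h u (j * l - 4 * l - e) +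
    (h u (j * l - 2 * l - e) + h u (j * l + 2 * l - e)) / 2 -
    (h u (j * l - 3 * l - e) + h u (j * l - 5 * l - e)) / 2 - Real.log 2 := by
  have hl := l_pos.ne'
  have e1 : ∀ c : ℝ, (c - (j - e / l)) * l = -(j * l - c * l - e) := fun c => by
    field_simp
    ring
  have e2 : (2 + (j - e / l)) * l = j * l + 2 * l - e := by
    field_simp
    ring
  unfold NUMF.lq NUMF.ro
  rw [e1, e1, e1, e1, e2, h_even, h_even, h_even, h_even]

private theorem lqg_eq (j e u : ℝ) : NUMF.lqg (j - e / l) u = Real.log 2 + h u (j * l - e) -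
    (h u (j * l + l - e) + h u (j * l - l - e)) := by
  have hl := l_pos.ne'
  have e1 : (j - e / l) * l = j * l - e := by
    field_simp
  unfold NUMF.lqg
  rw [e1, show j * l - e + l = j * l + l - e by ring, show j * l - e - l = j * l - l - e by ring]

private theorem per_a (V e u : ℝ) : h u (V - 5 * l - e) = h u (V + 3 * l - e) := by
  rw [← h_per8 u (V - 5 * l - e)]
  congr 1
  ring

private theorem per_b (V e u : ℝ) : h u (V + 2 * l - e) = h u (V - 6 * l - e) := by
  rw [← h_per8 u (V - 6 * l - e)]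
  congr 1
  ring

private theorem per_c (V e u : ℝ) : h u (V + l - e) = h u (V - 7 * l - e) := by
  rw [← h_per8 u (V - 7 * l - e)]
  congr 1
  ring

section cloud

variable {w x : ι → ℝ} {lo hi : ℝ} {η η' ρ : ℝ → ℝ}

private theorem comb5 (hC : Cur w x lo hi η η' ρ) {a b c d e : ℝ} (ha : hi - 4 * l < a ∧ a < 4 * l + lo)
    (hb : hi - 4 * l < b ∧ b < 4 * l + lo) (hc : hi - 4 * l < c ∧ c < 4 * l + lo)
    (hd : hi - 4 * l < d ∧ d < 4 * l + lo) (he : hi - 4 * l < e ∧ e < 4 * l + lo) (t : ℝ) :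
    Integrable (fun s => ρ s * (h (t - s) (a - η s) + (h (t - s) (b - η s) + h (t - s) (c - η s)) / 2 -
      (h (t - s) (d - η s) + h (t - s) (e - η s)) / 2 - Real.log 2)) ∧
    ∫ s, ρ s * (h (t - s) (a - η s) + (h (t - s) (b - η s) + h (t - s) (c - η s)) / 2 -
      (h (t - s) (d - η s) + h (t - s) (e - η s)) / 2 - Real.log 2) =
    ∑ i, w i * (Hc t (a + x i) + (Hc t (b + x i) + Hc t (c + x i)) / 2 -
      (Hc t (d + x i) + Hc t (e + x i)) / 2 - Real.log 2) := by
  obtain ⟨i1, f1⟩ := cur_pot hC ha.1 ha.2 t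
  obtain ⟨i2, f2⟩ := cur_pot hC hb.1 hb.2 t
  obtain ⟨i3, f3⟩ := cur_pot hC hc.1 hc.2 t
  obtain ⟨i4, f4⟩ := cur_pot hC hd.1 hd.2 t
  obtain ⟨i5, f5⟩ := cur_pot hC he.1 he.2 t
  obtain ⟨i6, f6⟩ := cur_mass hC
  have hf : ∀ s, ρ s * (h (t - s) (a - η s) + (h (t - s) (b - η s) + h (t - s) (c - η s)) / 2 -
      (h (t - s) (d - η s) + h (t - s) (e - η s)) / 2 - Real.log 2) =
      ρ s * h (t - s) (a - η s) + (1 / 2) * (ρ s * h (t - s) (b - η s)) +
        (1 / 2) * (ρ s * h (t - s) (c - η s)) - (1 / 2) * (ρ s * h (t - s) (d - η s)) -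
        (1 / 2) * (ρ s * h (t - s) (e - η s)) - ρ s * Real.log 2 := fun s => by ring
  have k1 := i1.add (i2.const_mul (1 / 2))
  have k2 := k1.add (i3.const_mul (1 / 2))
  have k3 := k2.sub (i4.const_mul (1 / 2))
  have k4 := k3.sub (i5.const_mul (1 / 2))
  have k6 := i6.mul_const (Real.log 2)
  refine ⟨(k4.sub k6).congr (Eventually.of_forall fun s => (hf s).symm), ?_⟩
  have b1 := integral_add i1 (i2.const_mul (1 / 2))
  have b2 := integral_add k1 (i3.const_mul (1 / 2))
  have b3 := integral_sub k2 (i4.const_mul (1 / 2))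
  have b4 := integral_sub k3 (i5.const_mul (1 / 2))
  have b5 := integral_sub k4 k6
  simp only [Pi.add_apply, Pi.sub_apply] at b1 b2 b3 b4 b5
  simp_rw [hf]
  rw [b5, b4, b3, b2, b1, integral_const_mul, integral_const_mul, integral_const_mul,
    integral_const_mul, integral_mul_const, f1, f2, f3, f4, f5, f6]
  rw [Finset.mul_sum, Finset.mul_sum, Finset.mul_sum, Finset.mul_sum, Finset.sum_mul,
    ← Finset.sum_add_distrib, ← Finset.sum_add_distrib, ← Finset.sum_sub_distrib,
    ← Finset.sum_sub_distrib, ← Finset.sum_sub_distrib]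
  exact Finset.sum_congr rfl fun i _ => by ring

private theorem comb3 (hC : Cur w x lo hi η η' ρ) {a b c : ℝ} (ha : hi - 4 * l < a ∧ a < 4 * l + lo)
    (hb : hi - 4 * l < b ∧ b < 4 * l + lo) (hc : hi - 4 * l < c ∧ c < 4 * l + lo) (t : ℝ) :
    Integrable (fun s => ρ s * (Real.log 2 + h (t - s) (a - η s) -
      (h (t - s) (b - η s) + h (t - s) (c - η s)))) ∧
    ∫ s, ρ s * (Real.log 2 + h (t - s) (a - η s) - (h (t - s) (b - η s) + h (t - s) (c - η s))) =
    ∑ i, w i * (Real.log 2 + Hc t (a + x i) - (Hc t (b + x i) + Hc t (c + x i))) := by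
  obtain ⟨i1, f1⟩ := cur_pot hC ha.1 ha.2 t
  obtain ⟨i2, f2⟩ := cur_pot hC hb.1 hb.2 t
  obtain ⟨i3, f3⟩ := cur_pot hC hc.1 hc.2 t
  obtain ⟨i6, f6⟩ := cur_mass hC
  have hf : ∀ s, ρ s * (Real.log 2 + h (t - s) (a - η s) -
      (h (t - s) (b - η s) + h (t - s) (c - η s))) =
      ρ s * Real.log 2 + ρ s * h (t - s) (a - η s) - ρ s * h (t - s) (b - η s) -
        ρ s * h (t - s) (c - η s) := fun s => by ring
  have k0 := i6.mul_const (Real.log 2)
  have k1 := k0.add i1
  have k2 := k1.sub i2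
  refine ⟨(k2.sub i3).congr (Eventually.of_forall fun s => (hf s).symm), ?_⟩
  have b1 := integral_add k0 i1
  have b2 := integral_sub k1 i2
  have b3 := integral_sub k2 i3
  simp only [Pi.add_apply, Pi.sub_apply] at b1 b2 b3
  simp_rw [hf]
  rw [b3, b2, b1, integral_mul_const, f1, f2, f3, f6]
  rw [Finset.sum_mul, ← Finset.sum_add_distrib, ← Finset.sum_sub_distrib, ← Finset.sum_sub_distrib]
  exact Finset.sum_congr rfl fun i _ => by ring

/-- **own cloud between the curve and `l`** -/
theorem clP_1 (hC : Cur w x lo hi η η' ρ) {j : ℝ} (h1 : hi < j * l) (h2 : j * l < l + lo) (t : ℝ) :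
    Integrable (fun s => ρ s * NUMF.lq (j - η s / l) (t - s)) ∧
    clP ρ η j t = ∑ i, w i * co1 (j * l + x i) t := by
  have hl := l_pos
  have hh := hC.prf.lohi
  obtain ⟨i1, e1⟩ := comb5 hC (a := j * l - 4 * l) (b := j * l - 2 * l) (c := j * l + 2 * l)
    (d := j * l - 3 * l) (e := j * l + 3 * l) ⟨by linarith, by linarith⟩ ⟨by linarith, by linarith⟩
    ⟨by linarith, by linarith⟩ ⟨by linarith, by linarith⟩ ⟨by linarith, by linarith⟩ t
  have hf : ∀ s, ρ s * NUMF.lq (j - η s / l) (t - s) = ρ s * (h (t - s) (j * l - 4 * l - η s) +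
      (h (t - s) (j * l - 2 * l - η s) + h (t - s) (j * l + 2 * l - η s)) / 2 -
      (h (t - s) (j * l - 3 * l - η s) + h (t - s) (j * l + 3 * l - η s)) / 2 - Real.log 2) := by
    intro s
    rw [lq_eq, per_a]
  refine ⟨i1.congr (Eventually.of_forall fun s => (hf s).symm), ?_⟩
  unfold clP
  rw [integral_congr_ae (Eventually.of_forall hf), e1]
  refine Finset.sum_congr rfl fun i _ => ?_
  unfold co1
  rw [show j * l - 4 * l + x i = j * l + x i - 4 * l by ring,
    show j * l - 2 * l + x i = j * l + x i - 2 * l by ring,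
    show j * l + 2 * l + x i = j * l + x i + 2 * l by ring,
    show j * l - 3 * l + x i = j * l + x i - 3 * l by ring,
    show j * l + 3 * l + x i = j * l + x i + 3 * l by ring]

/-- **own cloud between `l` and `2 l`** -/
theorem clP_2 (hC : Cur w x lo hi η η' ρ) {j : ℝ} (h1 : l + hi < j * l) (h2 : j * l < 2 * l + lo)
    (t : ℝ) : Integrable (fun s => ρ s * NUMF.lq (j - η s / l) (t - s)) ∧
    clP ρ η j t = ∑ i, w i * co2 (j * l + x i) t := by
  have hl := l_pos
  have hh := hC.prf.lohi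
  obtain ⟨i1, e1⟩ := comb5 hC (a := j * l - 4 * l) (b := j * l - 2 * l) (c := j * l + 2 * l)
    (d := j * l - 3 * l) (e := j * l - 5 * l) ⟨by linarith, by linarith⟩ ⟨by linarith, by linarith⟩
    ⟨by linarith, by linarith⟩ ⟨by linarith, by linarith⟩ ⟨by linarith, by linarith⟩ t
  have hf : ∀ s, ρ s * NUMF.lq (j - η s / l) (t - s) = ρ s * (h (t - s) (j * l - 4 * l - η s) +
      (h (t - s) (j * l - 2 * l - η s) + h (t - s) (j * l + 2 * l - η s)) / 2 -
      (h (t - s) (j * l - 3 * l - η s) + h (t - s) (j * l - 5 * l - η s)) / 2 - Real.log 2) := by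
    intro s
    rw [lq_eq]
  refine ⟨i1.congr (Eventually.of_forall fun s => (hf s).symm), ?_⟩
  unfold clP
  rw [integral_congr_ae (Eventually.of_forall hf), e1]
  refine Finset.sum_congr rfl fun i _ => ?_
  unfold co2
  rw [show j * l - 4 * l + x i = j * l + x i - 4 * l by ring,
    show j * l - 2 * l + x i = j * l + x i - 2 * l by ring,
    show j * l + 2 * l + x i = j * l + x i + 2 * l by ring,
    show j * l - 3 * l + x i = j * l + x i - 3 * l by ring,
    show j * l - 5 * l + x i = j * l + x i - 5 * l by ring]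

/-- **own cloud between `2 l` and `4 l`** -/
theorem clP_3 (hC : Cur w x lo hi η η' ρ) {j : ℝ} (h1 : 2 * l + hi < j * l)
    (h2 : j * l < 4 * l + lo) (t : ℝ) :
    Integrable (fun s => ρ s * NUMF.lq (j - η s / l) (t - s)) ∧
    clP ρ η j t = ∑ i, w i * co3 (j * l + x i) t := by
  have hl := l_pos
  have hh := hC.prf.lohi
  obtain ⟨i1, e1⟩ := comb5 hC (a := j * l - 4 * l) (b := j * l - 2 * l) (c := j * l - 6 * l)
    (d := j * l - 3 * l) (e := j * l - 5 * l) ⟨by linarith, by linarith⟩ ⟨by linarith, by linarith⟩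
    ⟨by linarith, by linarith⟩ ⟨by linarith, by linarith⟩ ⟨by linarith, by linarith⟩ t
  have hf : ∀ s, ρ s * NUMF.lq (j - η s / l) (t - s) = ρ s * (h (t - s) (j * l - 4 * l - η s) +
      (h (t - s) (j * l - 2 * l - η s) + h (t - s) (j * l - 6 * l - η s)) / 2 -
      (h (t - s) (j * l - 3 * l - η s) + h (t - s) (j * l - 5 * l - η s)) / 2 - Real.log 2) := by
    intro s
    rw [lq_eq, per_b]
  refine ⟨i1.congr (Eventually.of_forall fun s => (hf s).symm), ?_⟩
  unfold clP
  rw [integral_congr_ae (Eventually.of_forall hf), e1]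
  refine Finset.sum_congr rfl fun i _ => ?_
  unfold co3
  rw [show j * l - 4 * l + x i = j * l + x i - 4 * l by ring,
    show j * l - 2 * l + x i = j * l + x i - 2 * l by ring,
    show j * l - 6 * l + x i = j * l + x i - 6 * l by ring,
    show j * l - 3 * l + x i = j * l + x i - 3 * l by ring,
    show j * l - 5 * l + x i = j * l + x i - 5 * l by ring]

/-- **cross cloud below `3 l`** -/
theorem clX_1 (hC : Cur w x lo hi η η' ρ) {j : ℝ} (h1 : hi - 3 * l < j * l)
    (h2 : j * l < 3 * l + lo) (t : ℝ) :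
    Integrable (fun s => ρ s * NUMF.lqg (j - η s / l) (t - s)) ∧
    clX ρ η j t = ∑ i, w i * cx1 (j * l + x i) t := by
  have hl := l_pos
  have hh := hC.prf.lohi
  obtain ⟨i1, e1⟩ := comb3 hC (a := j * l) (b := j * l + l) (c := j * l - l)
    ⟨by linarith, by linarith⟩ ⟨by linarith, by linarith⟩ ⟨by linarith, by linarith⟩ t
  have hf : ∀ s, ρ s * NUMF.lqg (j - η s / l) (t - s) = ρ s * (Real.log 2 +
      h (t - s) (j * l - η s) - (h (t - s) (j * l + l - η s) + h (t - s) (j * l - l - η s))) := by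
    intro s
    rw [lqg_eq]
  refine ⟨i1.congr (Eventually.of_forall fun s => (hf s).symm), ?_⟩
  unfold clX
  rw [integral_congr_ae (Eventually.of_forall hf), e1]
  refine Finset.sum_congr rfl fun i _ => ?_
  unfold cx1
  rw [show j * l + l + x i = j * l + x i + l by ring, show j * l - l + x i = j * l + x i - l by ring]

/-- **cross cloud between `3 l` and `4 l`** -/
theorem clX_2 (hC : Cur w x lo hi η η' ρ) {j : ℝ} (h1 : 3 * l + hi < j * l)
    (h2 : j * l < 4 * l + lo) (t : ℝ) :
    Integrable (fun s => ρ s * NUMF.lqg (j - η s / l) (t - s)) ∧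
    clX ρ η j t = ∑ i, w i * cx2 (j * l + x i) t := by
  have hl := l_pos
  have hh := hC.prf.lohi
  obtain ⟨i1, e1⟩ := comb3 hC (a := j * l) (b := j * l - 7 * l) (c := j * l - l)
    ⟨by linarith, by linarith⟩ ⟨by linarith, by linarith⟩ ⟨by linarith, by linarith⟩ t
  have hf : ∀ s, ρ s * NUMF.lqg (j - η s / l) (t - s) = ρ s * (Real.log 2 +
      h (t - s) (j * l - η s) - (h (t - s) (j * l - 7 * l - η s) + h (t - s) (j * l - l - η s))) := by
    intro s
    rw [lqg_eq, per_c]
  refine ⟨i1.congr (Eventually.of_forall fun s => (hf s).symm), ?_⟩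
  unfold clX
  rw [integral_congr_ae (Eventually.of_forall hf), e1]
  refine Finset.sum_congr rfl fun i _ => ?_
  unfold cx2
  rw [show j * l - 7 * l + x i = j * l + x i - 7 * l by ring,
    show j * l - l + x i = j * l + x i - l by ring]

end cloud

/-! ### one row: row factor and cloud -/

/-- beyond the line `4 l`, any point of `(3 l, 5 l)` -/
theorem Hc_flip {y : ℝ} (h1 : 3 * l < y) (h2 : y < 5 * l) (t : ℝ) :
    Hc t y = Hc t (8 * l - y) - 2 * Ag (y - 4 * l) t := by
  have h3 := Hc_beyond (a := y - 4 * l) (by rw [abs_lt]; constructor <;> linarith) t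
  rw [show 4 * l + (y - 4 * l) = y by ring, show 4 * l - (y - 4 * l) = 8 * l - y by ring] at h3
  exact h3

private theorem own1_lt {V : ℝ} (h1 : -l < V) (h2 : V < l) (t : ℝ) : rO V t + co1 V t = Ag V t := by
  have hl := l_pos
  have c1 := conv_c (y := V - 3 * l) (by rw [abs_lt]; constructor <;> linarith) t
  have c2 := conv_c (y := V + 3 * l) (by rw [abs_lt]; constructor <;> linarith) t
  have c3 := Hc_flip (y := V + 4 * l) (by linarith) (by linarith) t
  have c4 := Hc_neg t (V - 4 * l)
  have c5 := h_per8 t (V - 5 * l)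
  rw [show V - 3 * l + l = V - 2 * l by ring, show V - 3 * l - l = V - 4 * l by ring] at c1
  rw [show V + 3 * l + l = V + 4 * l by ring, show V + 3 * l - l = V + 2 * l by ring] at c2
  rw [show 8 * l - (V + 4 * l) = -(V - 4 * l) by ring, show V + 4 * l - 4 * l = V by ring, c4] at c3
  rw [show V - 5 * l + 8 * l = V + 3 * l by ring] at c5
  unfold rO co1
  linarith

private theorem own1_gt {V : ℝ} (h1 : l < V) (h2 : V < 2 * l) (t : ℝ) :
    rO V t + co1 V t = Ag V t := by
  have hl := l_pos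
  have c1 := conv_c (y := V - 3 * l) (by rw [abs_lt]; constructor <;> linarith) t
  have c2 := conv_c (y := V - 5 * l) (by rw [abs_lt]; constructor <;> linarith) t
  have c3 := Hc_flip (y := V + 2 * l) (by linarith) (by linarith) t
  have c4 := Hc_neg t (V - 6 * l)
  have c5 := Hc_flip (y := V + 3 * l) (by linarith) (by linarith) t
  have c6 := Hc_neg t (V - 5 * l)
  have c7 := Ag_split V t
  have c8 := Ag_neg_v (2 * l - V) t
  rw [show V - 3 * l + l = V - 2 * l by ring, show V - 3 * l - l = V - 4 * l by ring] at c1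
  rw [show V - 5 * l + l = V - 4 * l by ring, show V - 5 * l - l = V - 6 * l by ring] at c2
  rw [show 8 * l - (V + 2 * l) = -(V - 6 * l) by ring,
    show V + 2 * l - 4 * l = -(2 * l - V) by ring, c4, c8] at c3
  rw [show 8 * l - (V + 3 * l) = -(V - 5 * l) by ring, show V + 3 * l - 4 * l = V - l by ring, c6] at c5
  unfold rO co1
  linarith

private theorem own2_gt {V : ℝ} (h1 : l < V) (h2 : V < 3 * l) (t : ℝ) :
    rO V t + co2 V t = Ag (2 * l - V) t := by
  have hl := l_pos
  have c1 := conv_c (y := V - 3 * l) (by rw [abs_lt]; constructor <;> linarith) t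
  have c2 := conv_c (y := V - 5 * l) (by rw [abs_lt]; constructor <;> linarith) t
  have c3 := Hc_flip (y := V + 2 * l) (by linarith) (by linarith) t
  have c4 := Hc_neg t (V - 6 * l)
  have c8 := Ag_neg_v (2 * l - V) t
  rw [show V - 3 * l + l = V - 2 * l by ring, show V - 3 * l - l = V - 4 * l by ring] at c1
  rw [show V - 5 * l + l = V - 4 * l by ring, show V - 5 * l - l = V - 6 * l by ring] at c2
  rw [show 8 * l - (V + 2 * l) = -(V - 6 * l) by ring,
    show V + 2 * l - 4 * l = -(2 * l - V) by ring, c4, c8] at c3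
  unfold rO co2
  linarith

private theorem own2_lt {V : ℝ} (h1 : 0 < V) (h2 : V < l) (t : ℝ) :
    rO V t + co2 V t = Ag (2 * l - V) t := by
  have hl := l_pos
  have c1 := conv_c (y := V - 3 * l) (by rw [abs_lt]; constructor <;> linarith) t
  have c2 := conv_c (y := V + 3 * l) (by rw [abs_lt]; constructor <;> linarith) t
  have c3 := Hc_flip (y := V + 4 * l) (by linarith) (by linarith) t
  have c4 := Hc_neg t (V - 4 * l)
  have c5 := h_per8 t (V - 5 * l)
  have c6 := Hc_flip (y := V + 3 * l) (by linarith) (by linarith) t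
  have c7 := Hc_neg t (V - 5 * l)
  have c8 := Ag_split (2 * l - V) t
  have c9 := Ag_neg_v (l - V) t
  rw [show V - 3 * l + l = V - 2 * l by ring, show V - 3 * l - l = V - 4 * l by ring] at c1
  rw [show V + 3 * l + l = V + 4 * l by ring, show V + 3 * l - l = V + 2 * l by ring] at c2
  rw [show 8 * l - (V + 4 * l) = -(V - 4 * l) by ring, show V + 4 * l - 4 * l = V by ring, c4] at c3
  rw [show V - 5 * l + 8 * l = V + 3 * l by ring] at c5
  rw [show 8 * l - (V + 3 * l) = -(V - 5 * l) by ring,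
    show V + 3 * l - 4 * l = -(l - V) by ring, c7, c9] at c6
  rw [show 2 * l - (2 * l - V) = V by ring, show 2 * l - V - l = l - V by ring] at c8
  unfold rO co2
  linarith

/-- the two formulas agree where both are used -/
theorem co2_co1 {V : ℝ} (h1 : 0 < V) (h2 : V < 2 * l) (t : ℝ) :
    co2 V t - co1 V t = Ag (2 * l - V) t - Ag V t := by
  have hl := l_pos
  have c1 := Hc_flip (y := V + 3 * l) (by linarith) (by linarith) t
  have c2 := Hc_neg t (V - 5 * l)
  have c3 := Ag_split V t
  rw [show 8 * l - (V + 3 * l) = -(V - 5 * l) by ring, show V + 3 * l - 4 * l = V - l by ring, c2] at c1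
  unfold co2 co1
  linarith

/-! ### at the pole of the row -/

private theorem h_cont_y {t : ℝ} (ht : t ≠ 0) : Continuous fun y => h t y := by
  unfold NUMF.h
  refine Continuous.log (by fun_prop) fun y => ?_
  have h1 := Real.neg_one_le_cos (2 * y)
  have h2 : 1 < Real.cosh (2 * t) := Real.one_lt_cosh.2 (by simpa using ht)
  linarith

private theorem Ag_cont_y {t : ℝ} (ht : t ≠ 0) : Continuous fun v => Ag v t := by
  have hc : 1 < NUMF.ch t := by
    unfold NUMF.ch
    exact Real.one_lt_cosh.2 (by simpa using ht)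
  unfold Ag La
  have key : ∀ c : ℝ, Continuous fun v : ℝ =>
      (Real.log (NUMF.ch t + Real.sin (8 / 3 * v + c)) -
        Real.log (NUMF.ch t - Real.sin (8 / 3 * v + c))) / 2 := by
    intro c
    refine (Continuous.sub ?_ ?_).div_const 2
    · refine Continuous.log (by fun_prop) fun v => ?_
      have := Real.neg_one_le_sin (8 / 3 * v + c)
      linarith
    · refine Continuous.log (by fun_prop) fun v => ?_
      have := Real.sin_le_one (8 / 3 * v + c)
      linarith
  have k1 := key (-(Real.pi / 6))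
  simp only [← sub_eq_add_neg] at k1
  exact k1.add (key _)

private theorem rO_cont_y {t : ℝ} (ht : t ≠ 0) : Continuous fun V => rO V t := by
  have h1 := h_cont_y ht
  unfold rO
  have a1 : Continuous fun V : ℝ => h t (V - 3 * l) := h1.comp (by fun_prop)
  have a2 : Continuous fun V : ℝ => h t (V - 5 * l) := h1.comp (by fun_prop)
  exact continuous_const.sub ((a1.add a2).div_const 2)

private theorem Hc_at {a V : ℝ} (t : ℝ) (h0 : |V + a| < 5 * l) :
    ContinuousAt (fun V => Hc t (V + a)) V :=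
  ContinuousAt.comp (f := fun V : ℝ => V + a) (g := fun y => Hc t y) (Hc_cont_y t h0) (by fun_prop)

private theorem co1_at {V : ℝ} (h1 : -l < V) (h2 : V < 2 * l) (t : ℝ) :
    ContinuousAt (fun V => co1 V t) V := by
  have hl := l_pos
  unfold co1
  simp only [sub_eq_add_neg]
  have a1 := Hc_at (a := -(4 * l)) (V := V) t (by rw [abs_lt]; constructor <;> linarith)
  have a2 := Hc_at (a := -(2 * l)) (V := V) t (by rw [abs_lt]; constructor <;> linarith)
  have a3 := Hc_at (a := 2 * l) (V := V) t (by rw [abs_lt]; constructor <;> linarith)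
  have a4 := Hc_at (a := -(3 * l)) (V := V) t (by rw [abs_lt]; constructor <;> linarith)
  have a5 := Hc_at (a := 3 * l) (V := V) t (by rw [abs_lt]; constructor <;> linarith)
  exact ((a1.add ((a2.add a3).div_const 2)).add ((a4.add a5).div_const 2).neg).add continuousAt_const

/-- two continuous functions which agree on one side agree at the end -/
private theorem eq_of_right {f g : ℝ → ℝ} {a b : ℝ} (hab : a < b) (hf : ContinuousAt f a)
    (hg : ContinuousAt g a) (h : ∀ y ∈ Ioo a b, f y = g y) : f a = g a := by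
  have h1 : Tendsto f (𝓝[>] a) (𝓝 (f a)) := hf.tendsto.mono_left nhdsWithin_le_nhds
  have h2 : Tendsto g (𝓝[>] a) (𝓝 (g a)) := hg.tendsto.mono_left nhdsWithin_le_nhds
  refine tendsto_nhds_unique h1 (h2.congr' ?_)
  filter_upwards [Ioo_mem_nhdsGT hab] with y hy
  exact (h y hy).symm

/-- **own row and cloud between the curve and `l`** -/
theorem own1 {V t : ℝ} (h1 : -l < V) (h2 : V < 2 * l) (hV : V ≠ l ∨ t ≠ 0) :
    rO V t + co1 V t = Ag V t := by
  have hl := l_pos
  rcases lt_trichotomy V l with h | h | h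
  · exact own1_lt h1 h t
  · have ht : t ≠ 0 := hV.resolve_left (fun h' => h' h)
    rw [h]
    refine eq_of_right (f := fun V => rO V t + co1 V t) (g := fun V => Ag V t) (a := l) (b := 2 * l)
      (by linarith) ?_ (Ag_cont_y ht).continuousAt fun y hy => own1_gt hy.1 hy.2 t
    exact (rO_cont_y ht).continuousAt.add (co1_at (by linarith) (by linarith) t)
  · exact own1_gt h h2 t

/-- **own row and cloud between `l` and `2 l`** -/
theorem own2 {V t : ℝ} (h1 : 0 < V) (h2 : V < 3 * l) (hV : V ≠ l ∨ t ≠ 0) :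
    rO V t + co2 V t = Ag (2 * l - V) t := by
  have hl := l_pos
  rcases lt_trichotomy V l with h | h | h
  · exact own2_lt h1 h t
  · have c1 := co2_co1 h1 (by linarith) t
    have c2 := own1 (V := V) (t := t) (by linarith) (by linarith) hV
    linarith
  · exact own2_gt h h2 t

/-- **own row and cloud beyond `2 l`** -/
theorem own3 {V : ℝ} (h1 : l < V) (h2 : V < 5 * l) (t : ℝ) : rO V t + co3 V t = 0 := by
  have hl := l_pos
  have c1 := conv_c (y := V - 3 * l) (by rw [abs_lt]; constructor <;> linarith) t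
  have c2 := conv_c (y := V - 5 * l) (by rw [abs_lt]; constructor <;> linarith) t
  rw [show V - 3 * l + l = V - 2 * l by ring, show V - 3 * l - l = V - 4 * l by ring] at c1
  rw [show V - 5 * l + l = V - 4 * l by ring, show V - 5 * l - l = V - 6 * l by ring] at c2
  unfold rO co3
  linarith

/-- **cross row and cloud below `3 l`** -/
theorem crs1 {V : ℝ} (h1 : |V| < 4 * l) (t : ℝ) : rX V t + cx1 V t = 0 := by
  have c1 := conv_c h1 t
  unfold rX cx1
  linarith

private theorem crs2_lt {V : ℝ} (h1 : 2 * l < V) (h2 : V < 4 * l) (t : ℝ) :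
    rX V t + cx2 V t = -2 * Ag (V - 3 * l) t := by
  have hl := l_pos
  have c1 := conv_c (y := V) (by rw [abs_lt]; constructor <;> linarith) t
  have c2 := Hc_flip (y := V + l) (by linarith) (by linarith) t
  have c3 := Hc_neg t (V - 7 * l)
  rw [show 8 * l - (V + l) = -(V - 7 * l) by ring, show V + l - 4 * l = V - 3 * l by ring, c3] at c2
  unfold rX cx2
  linarith

private theorem crs2_gt {V : ℝ} (h1 : 4 * l < V) (h2 : V < 5 * l) (t : ℝ) :
    rX V t + cx2 V t = -2 * Ag (V - 3 * l) t := by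
  have hl := l_pos
  have c1 := conv_c (y := V - 8 * l) (by rw [abs_lt]; constructor <;> linarith) t
  have c2 := Hc_flip (y := V) (by linarith) (by linarith) t
  have c3 := Hc_neg t (V - 8 * l)
  have c4 := h_per8 t (V - 8 * l)
  have c5 := Hc_flip (y := 9 * l - V) (by linarith) (by linarith) t
  have c6 := Hc_neg t (V - 9 * l)
  have c7 := Ag_split (V - 3 * l) t
  rw [show V - 8 * l + l = V - 7 * l by ring, show V - 8 * l - l = V - 9 * l by ring] at c1
  rw [show 8 * l - V = -(V - 8 * l) by ring, c3] at c2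
  rw [show V - 8 * l + 8 * l = V by ring] at c4
  rw [show 8 * l - (9 * l - V) = V - l by ring, show 9 * l - V - 4 * l = 5 * l - V by ring,
    show 9 * l - V = -(V - 9 * l) by ring, c6] at c5
  rw [show 2 * l - (V - 3 * l) = 5 * l - V by ring, show V - 3 * l - l = V - 4 * l by ring] at c7
  unfold rX cx2
  linarith

/-- **cross row and cloud beyond `3 l`** -/
theorem crs2 {V t : ℝ} (h1 : 2 * l < V) (h2 : V < 5 * l) (hV : V ≠ 4 * l ∨ t ≠ 0) :
    rX V t + cx2 V t = -2 * Ag (V - 3 * l) t := by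
  have hl := l_pos
  rcases lt_trichotomy V (4 * l) with h | h | h
  · exact crs2_lt h1 h t
  · have ht : t ≠ 0 := hV.resolve_left (fun h' => h' h)
    rw [h]
    refine eq_of_right (f := fun V => rX V t + cx2 V t) (g := fun V => -2 * Ag (V - 3 * l) t)
      (a := 4 * l) (b := 5 * l) (by linarith) ?_ ?_ fun y hy => crs2_gt hy.1 hy.2 t
    · refine ContinuousAt.add ?_ ?_
      · unfold rX
        exact ((h_cont_y ht).sub continuous_const).continuousAt
      · unfold cx2
        simp only [sub_eq_add_neg]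
        have a0 := Hc_at (a := 0) (V := 4 * l) t (by rw [abs_lt]; constructor <;> linarith)
        have a1 := Hc_at (a := -(7 * l)) (V := 4 * l) t (by rw [abs_lt]; constructor <;> linarith)
        have a2 := Hc_at (a := -l) (V := 4 * l) t (by rw [abs_lt]; constructor <;> linarith)
        simp only [add_zero] at a0
        exact (continuousAt_const.add a0).add (a1.add a2).neg
    · have := Ag_cont_y ht
      have h3 : Continuous fun V : ℝ => Ag (V - 3 * l) t := this.comp (by fun_prop)
      exact (h3.const_mul (-2)).continuousAt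
  · exact crs2_gt h h2 t

/-! ### the sums -/

section price

variable {w x : ι → ℝ} {lo hi : ℝ} {η η' ρ : ℝ → ℝ}

/-- **own rows and cloud, `hi < j l < l + lo`** -/
theorem priceP_1 (hC : Cur w x lo hi η η' ρ) {j t : ℝ} (h1 : hi < j * l) (h2 : j * l < l + lo)
    (hV : t ≠ 0 ∨ ∀ i, j * l + x i ≠ l) :
    (∑ i, w i * rO (j * l + x i) t) + clP ρ η j t = ∑ i, w i * Ag (j * l + x i) t := by
  have hh := hC.prf.lohi
  rw [(clP_1 hC h1 h2 t).2, ← Finset.sum_add_distrib]
  refine Finset.sum_congr rfl fun i _ => ?_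
  rw [← mul_add]
  have := hC.x1 i
  have := hC.x2 i
  rw [own1 (by linarith) (by linarith) (hV.symm.imp (fun h => h i) id)]

/-- **own rows and cloud, `l + hi < j l < 2 l + lo`** -/
theorem priceP_2 (hC : Cur w x lo hi η η' ρ) {j t : ℝ} (h1 : l + hi < j * l)
    (h2 : j * l < 2 * l + lo) (hV : t ≠ 0 ∨ ∀ i, j * l + x i ≠ l) :
    (∑ i, w i * rO (j * l + x i) t) + clP ρ η j t = ∑ i, w i * Ag (2 * l - (j * l + x i)) t := by
  have hh := hC.prf.lohi
  rw [(clP_2 hC h1 h2 t).2, ← Finset.sum_add_distrib]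
  refine Finset.sum_congr rfl fun i _ => ?_
  rw [← mul_add]
  have := hC.x1 i
  have := hC.x2 i
  rw [own2 (by linarith) (by linarith) (hV.symm.imp (fun h => h i) id)]

/-- **own rows and cloud, `2 l + hi < j l < 4 l + lo`** -/
theorem priceP_3 (hC : Cur w x lo hi η η' ρ) {j : ℝ} (h1 : 2 * l + hi < j * l)
    (h2 : j * l < 4 * l + lo) (t : ℝ) :
    (∑ i, w i * rO (j * l + x i) t) + clP ρ η j t = 0 := by
  have hh := hC.prf.lohi
  rw [(clP_3 hC h1 h2 t).2, ← Finset.sum_add_distrib]
  refine Finset.sum_eq_zero fun i _ => ?_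
  rw [← mul_add]
  have := hC.x1 i
  have := hC.x2 i
  rw [own3 (by linarith) (by linarith), mul_zero]

/-- **cross rows and cloud, `hi - 3 l < j l < 3 l + lo`** -/
theorem priceX_1 (hC : Cur w x lo hi η η' ρ) {j : ℝ} (h1 : hi - 3 * l < j * l)
    (h2 : j * l < 3 * l + lo) (t : ℝ) :
    (∑ i, w i * rX (j * l + x i) t) + clX ρ η j t = 0 := by
  have hh := hC.prf.lohi
  rw [(clX_1 hC h1 h2 t).2, ← Finset.sum_add_distrib]
  refine Finset.sum_eq_zero fun i _ => ?_
  rw [← mul_add]
  have := hC.x1 i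
  have := hC.x2 i
  rw [crs1 (by rw [abs_lt]; constructor <;> linarith), mul_zero]

/-- **cross rows and cloud, `3 l + hi < j l < 4 l + lo`** -/
theorem priceX_2 (hC : Cur w x lo hi η η' ρ) {j t : ℝ} (h1 : 3 * l + hi < j * l)
    (h2 : j * l < 4 * l + lo) (hV : t ≠ 0 ∨ ∀ i, j * l + x i ≠ 4 * l) :
    (∑ i, w i * rX (j * l + x i) t) + clX ρ η j t = -2 * ∑ i, w i * Ag (j * l + x i - 3 * l) t := by
  have hh := hC.prf.lohi
  rw [(clX_2 hC h1 h2 t).2, ← Finset.sum_add_distrib, Finset.mul_sum]
  refine Finset.sum_congr rfl fun i _ => ?_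
  rw [← mul_add]
  have := hC.x1 i
  have := hC.x2 i
  rw [crs2 (by linarith) (by linarith) (hV.symm.imp (fun h => h i) id)]
  ring

end price

end PLT

end
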