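import Pool.Agent.PLT.HCb
import Pool.Agent.PLT.Price
import Pool.Agent.PLX.PhiLow
import Pool.Agent.PLT.BrT

/-!
# Contents at complex places: lists against proportions, the row factors in exponential form

A row at the place `x : ℂ` (file units) is seen from the line of offset `j` at the offset
`V = j l + re x` and at the height `t - im x`.

* `CntX K0 w x c k`: the list `c` consists of rows at the places `x i`, and `c` with `k` further rows has
  the proportions `w` up to `K0`; `CntX.alg`: sums over the list against the proportions;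
* `prX c a j t`: price of a hole; `pTX`: growth at the line of `T`;
* `rwL_le_expX`, `rwL_inv_expX`: the row factor of a content at every point; `rwL_zeroX`: it vanishes at a
  pole (Lean value); `mis_expX`: the factors of missing rows.
-/

set_option autoImplicit false

noncomputable section

open Complex

namespace PLT

open NUP1 NUGC.PLX PBO.PLX

section cnt

variable {ι : Type*} [Fintype ι]

/-- **rows at the places `x` in the proportions `w` up to `K0`** -/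
structure CntX (K0 : ℝ) (w : ι → ℝ) (x : ι → ℂ) (c : List ℂ) (k : ℕ) : Prop where
  mem : ∀ y ∈ c, ∃ i, y = x i
  ex : ∃ n : ι → ℕ, (∀ f : ℂ → ℝ, (c.map f).sum = ∑ i, (n i : ℝ) * f (x i)) ∧
    ∀ i, |((c.length : ℝ) + k) * w i - n i| ≤ K0

/-- price of a hole of species `a` at offset `j` -/
def prX (c : Bool → List ℂ) (a : Bool) (j t : ℝ) : ℝ :=
  ((c a).map fun x => Ag (j * NUMF.l + x.re) (t - x.im)).sum

/-- the growth at the line of `T` -/
def pTX (c ex : Bool → List ℂ) (a : Bool) (t : ℝ) : ℝ := SAe (c a) t + SAe (ex a) t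

/-- the number of rows of the sea -/
def nX (c : Bool → List ℂ) (k : Bool → ℕ) (a : Bool) : ℝ := ((c a).length : ℝ) + k a

/-- **sums over the list against the proportions** -/
theorem CntX.alg {K0 : ℝ} {w : ι → ℝ} {x : ι → ℂ} {c : List ℂ} {k : ℕ} (h : CntX K0 w x c k)
    (hw : ∑ i, w i = 1) {f : ℂ → ℝ} {L C : ℝ} (hf : ∀ i, |f (x i) - L| ≤ C) :
    |((c.length : ℝ) + k) * ∑ i, w i * f (x i) - ((c.map f).sum + k * L)| ≤
      Fintype.card ι * (K0 * C) := by
  obtain ⟨n, h1, h2⟩ := h.ex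
  have hlen : (c.length : ℝ) = ∑ i, (n i : ℝ) := by
    have := h1 fun _ => 1
    simpa using this
  have e : ((c.length : ℝ) + k) * ∑ i, w i * f (x i) - ((c.map f).sum + k * L) =
      ∑ i, (((c.length : ℝ) + k) * w i - n i) * (f (x i) - L) := by
    rw [h1 f]
    have e2 : ∑ i, (((c.length : ℝ) + k) * w i - n i) * (f (x i) - L) =
        ((c.length : ℝ) + k) * ∑ i, w i * f (x i) - ∑ i, (n i : ℝ) * f (x i) -
          L * (((c.length : ℝ) + k) * ∑ i, w i - ∑ i, (n i : ℝ)) := by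
      rw [Finset.mul_sum, Finset.mul_sum, ← Finset.sum_sub_distrib, ← Finset.sum_sub_distrib,
        Finset.mul_sum, ← Finset.sum_sub_distrib]
      exact Finset.sum_congr rfl fun i _ => by ring
    rw [e2, hw, ← hlen]
    ring
  rw [e]
  refine (Finset.abs_sum_le_sum_abs _ _).trans ?_
  refine (Finset.sum_le_card_nsmul _ _ (K0 * C) fun i _ => ?_).trans (le_of_eq ?_)
  · rw [abs_mul]
    exact mul_le_mul (h2 i) (hf i) (abs_nonneg _) ((abs_nonneg _).trans (h2 i))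
  · rw [nsmul_eq_mul, Finset.card_univ]

end cnt

/-! ### one row -/

private theorem l8 : 8 * NUMF.l = Real.pi := by
  have := PBO.PLX.pi_eq
  have h : NUP1.l = NUMF.l := rfl
  rw [h] at this
  linarith

/-- the two sines of an own row -/
private theorem sin_A (V t : ℝ) : 2 * ‖sin (((NUMF.l - V : ℝ) : ℂ) + t * I)‖ ^ 2 =
    Real.cosh (2 * t) + Real.cos (2 * (V - 5 * NUMF.l)) := by
  have h := NUMF.norm_sin_sq (NUMF.l - V) t
  have e : Real.cos (2 * (V - 5 * NUMF.l)) = -Real.cos (2 * (NUMF.l - V)) := by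
    rw [← Real.cos_neg (2 * (NUMF.l - V)), ← Real.cos_sub_pi]
    congr 1
    have := l8
    linarith
  rw [h, e]
  ring

private theorem sin_B (V t : ℝ) : 2 * ‖sin (((-NUMF.l - V : ℝ) : ℂ) + t * I)‖ ^ 2 =
    Real.cosh (2 * t) + Real.cos (2 * (V - 3 * NUMF.l)) := by
  have h := NUMF.norm_sin_sq (-NUMF.l - V) t
  have e : Real.cos (2 * (V - 3 * NUMF.l)) = -Real.cos (2 * (-NUMF.l - V)) := by
    rw [← Real.cos_neg (2 * (-NUMF.l - V)), ← Real.cos_sub_pi]
    congr 1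
    have := l8
    linarith
  rw [h, e]
  ring

private theorem sin_X (V t : ℝ) : 2 * ‖sin (((4 * NUMF.l - V : ℝ) : ℂ) + t * I)‖ ^ 2 =
    Real.cosh (2 * t) + Real.cos (2 * V) := by
  have h := NUMF.norm_sin_sq (4 * NUMF.l - V) t
  have e : Real.cos (2 * (4 * NUMF.l - V)) = -Real.cos (2 * V) := by
    rw [← Real.cos_pi_sub]
    congr 1
    have := l8
    linarith
  rw [h, e]
  ring

theorem u_xX (j t : ℝ) (x : ℂ) : vl ((1 - j) * l) t - x =
    ((NUMF.l - (j * NUMF.l + x.re) : ℝ) : ℂ) + ((t - x.im : ℝ) : ℂ) * I := by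
  unfold vl
  rw [show (NUP1.l : ℝ) = NUMF.l from rfl]
  apply Complex.ext
  · simp
    ring
  · simp

private theorem u_x2 (j t : ℝ) (x : ℂ) : vl ((1 - j) * l) t - x - 2 * l =
    ((-NUMF.l - (j * NUMF.l + x.re) : ℝ) : ℂ) + ((t - x.im : ℝ) : ℂ) * I := by
  rw [u_xX]
  rw [show (NUP1.l : ℝ) = NUMF.l from rfl]
  push_cast
  ring

private theorem u_x3 (j t : ℝ) (x : ℂ) : vl ((1 - j) * l) t - x + 3 * l =
    ((4 * NUMF.l - (j * NUMF.l + x.re) : ℝ) : ℂ) + ((t - x.im : ℝ) : ℂ) * I := by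
  rw [u_xX]
  rw [show (NUP1.l : ℝ) = NUMF.l from rfl]
  push_cast
  ring

/-- the own row as norms of two sines -/
theorem rwO_vlX (j t : ℝ) (x : ℂ) : rwO x (vl ((1 - j) * l) t) =
    (‖sin (((NUMF.l - (j * NUMF.l + x.re) : ℝ) : ℂ) + ((t - x.im : ℝ) : ℂ) * I)‖ *
      ‖sin (((-NUMF.l - (j * NUMF.l + x.re) : ℝ) : ℂ) + ((t - x.im : ℝ) : ℂ) * I)‖)⁻¹ := by
  unfold rwO
  rw [u_x2, u_xX]

theorem rwX_vlX (j t : ℝ) (x : ℂ) : rwX x (vl ((1 - j) * l) t) =
    ‖sin (((4 * NUMF.l - (j * NUMF.l + x.re) : ℝ) : ℂ) + ((t - x.im : ℝ) : ℂ) * I)‖ ^ 2 := by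
  unfold rwX
  rw [u_x3]

/-- away from the poles -/
private theorem rO_log {V t : ℝ} (hA : ‖sin (((NUMF.l - V : ℝ) : ℂ) + t * I)‖ ≠ 0)
    (hB : ‖sin (((-NUMF.l - V : ℝ) : ℂ) + t * I)‖ ≠ 0) :
    rO V t = -Real.log (‖sin (((NUMF.l - V : ℝ) : ℂ) + t * I)‖ *
      ‖sin (((-NUMF.l - V : ℝ) : ℂ) + t * I)‖) := by
  unfold rO NUMF.h
  rw [← sin_A, ← sin_B, Real.log_mul (by norm_num) (pow_ne_zero _ hB),
    Real.log_mul (by norm_num) (pow_ne_zero _ hA), Real.log_pow, Real.log_pow, Real.log_mul hA hB]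
  push_cast
  ring

private theorem rX_log {V t : ℝ} (hA : ‖sin (((4 * NUMF.l - V : ℝ) : ℂ) + t * I)‖ ≠ 0) :
    rX V t = Real.log (‖sin (((4 * NUMF.l - V : ℝ) : ℂ) + t * I)‖ ^ 2) := by
  unfold rX NUMF.h
  rw [← sin_X, Real.log_mul (by norm_num) (pow_ne_zero _ hA)]
  ring

/-- **own row from above** -/
theorem rwO_le_expX (j t : ℝ) (x : ℂ) : rwO x (vl ((1 - j) * l) t) ≤
    Real.exp (rO (j * NUMF.l + x.re) (t - x.im)) := by
  rw [rwO_vlX]
  obtain ⟨V, hV⟩ : ∃ V, V = j * NUMF.l + x.re := ⟨_, rfl⟩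
  obtain ⟨s, hs⟩ : ∃ s, s = t - x.im := ⟨_, rfl⟩
  rw [← hV, ← hs]
  rcases eq_or_ne ‖sin (((NUMF.l - V : ℝ) : ℂ) + s * I)‖ 0 with hA | hA
  · rw [hA, zero_mul, inv_zero]
    exact (Real.exp_pos _).le
  rcases eq_or_ne ‖sin (((-NUMF.l - V : ℝ) : ℂ) + s * I)‖ 0 with hB | hB
  · rw [hB, mul_zero, inv_zero]
    exact (Real.exp_pos _).le
  rw [rO_log hA hB, Real.exp_neg, Real.exp_log]
  exact mul_pos (lt_of_le_of_ne (norm_nonneg _) hA.symm) (lt_of_le_of_ne (norm_nonneg _) hB.symm)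

/-- **inverse of the own row from above** -/
theorem rwO_inv_expX (j t : ℝ) (x : ℂ) : (rwO x (vl ((1 - j) * l) t))⁻¹ ≤
    Real.exp (-rO (j * NUMF.l + x.re) (t - x.im)) := by
  rw [rwO_vlX, inv_inv]
  obtain ⟨V, hV⟩ : ∃ V, V = j * NUMF.l + x.re := ⟨_, rfl⟩
  obtain ⟨s, hs⟩ : ∃ s, s = t - x.im := ⟨_, rfl⟩
  rw [← hV, ← hs]
  rcases eq_or_ne ‖sin (((NUMF.l - V : ℝ) : ℂ) + s * I)‖ 0 with hA | hA
  · rw [hA, zero_mul]
    exact (Real.exp_pos _).le
  rcases eq_or_ne ‖sin (((-NUMF.l - V : ℝ) : ℂ) + s * I)‖ 0 with hB | hB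
  · rw [hB, mul_zero]
    exact (Real.exp_pos _).le
  rw [rO_log hA hB, neg_neg, Real.exp_log]
  exact mul_pos (lt_of_le_of_ne (norm_nonneg _) hA.symm) (lt_of_le_of_ne (norm_nonneg _) hB.symm)

/-- **cross row from above** -/
theorem rwX_le_expX (j t : ℝ) (x : ℂ) : rwX x (vl ((1 - j) * l) t) ≤
    Real.exp (rX (j * NUMF.l + x.re) (t - x.im)) := by
  rw [rwX_vlX]
  obtain ⟨V, hV⟩ : ∃ V, V = j * NUMF.l + x.re := ⟨_, rfl⟩
  obtain ⟨s, hs⟩ : ∃ s, s = t - x.im := ⟨_, rfl⟩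
  rw [← hV, ← hs]
  rcases eq_or_ne ‖sin (((4 * NUMF.l - V : ℝ) : ℂ) + s * I)‖ 0 with hA | hA
  · rw [hA, zero_pow (by norm_num)]
    exact (Real.exp_pos _).le
  rw [rX_log hA, Real.exp_log]
  positivity

/-- **inverse of the cross row from above** -/
theorem rwX_inv_expX (j t : ℝ) (x : ℂ) : (rwX x (vl ((1 - j) * l) t))⁻¹ ≤
    Real.exp (-rX (j * NUMF.l + x.re) (t - x.im)) := by
  rw [rwX_vlX]
  obtain ⟨V, hV⟩ : ∃ V, V = j * NUMF.l + x.re := ⟨_, rfl⟩
  obtain ⟨s, hs⟩ : ∃ s, s = t - x.im := ⟨_, rfl⟩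
  rw [← hV, ← hs]
  rcases eq_or_ne ‖sin (((4 * NUMF.l - V : ℝ) : ℂ) + s * I)‖ 0 with hA | hA
  · rw [hA, zero_pow (by norm_num), inv_zero]
    exact (Real.exp_pos _).le
  rw [rX_log hA, Real.exp_neg, Real.exp_log]
  positivity

/-- at the pole the own row is zero (Lean value) -/
theorem rwO_poleX {j t : ℝ} {x : ℂ} (h : j * NUMF.l + x.re = NUMF.l) (ht : t - x.im = 0) :
    rwO x (vl ((1 - j) * l) t) = 0 := by
  rw [rwO_vlX, h, ht, sub_self]
  simp

/-! ### the content -/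

/-- the sum of the logarithms of the rows of a content -/
def lgX (c : Bool → List ℂ) (a : Bool) (j t : ℝ) : ℝ :=
  ((c a).map fun x => rO (j * NUMF.l + x.re) (t - x.im)).sum +
    ((c (!a)).map fun x => rX (j * NUMF.l + x.re) (t - x.im)).sum

private theorem prod_le_exp {L : List ℂ} {f g : ℂ → ℝ} (h0 : ∀ x, 0 ≤ f x)
    (h : ∀ x, f x ≤ Real.exp (g x)) : (L.map f).prod ≤ Real.exp (L.map g).sum := by
  induction L with
  | nil => simp
  | cons x L ih =>
    rw [List.map_cons, List.prod_cons, List.map_cons, List.sum_cons, Real.exp_add]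
    exact mul_le_mul (h x) ih (List.prod_nonneg fun b hb => by
      obtain ⟨y, -, rfl⟩ := List.mem_map.1 hb
      exact h0 y) (Real.exp_pos _).le

/-- the content from above -/
theorem rwL_le_expX (c : Bool → List ℂ) (a : Bool) (j t : ℝ) :
    rwL c a (vl ((1 - j) * l) t) ≤ Real.exp (lgX c a j t) := by
  unfold lgX rwL
  rw [Real.exp_add]
  exact mul_le_mul (prod_le_exp (fun x => rwO_nonneg _ _) fun x => rwO_le_expX j t x)
    (prod_le_exp (fun x => rwX_nonneg _ _) fun x => rwX_le_expX j t x)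
    (List.prod_nonneg fun b hb => by
      obtain ⟨y, -, rfl⟩ := List.mem_map.1 hb
      exact rwX_nonneg _ _) (Real.exp_pos _).le

private theorem inv_prod {L : List ℂ} {f : ℂ → ℝ} : (L.map f).prod⁻¹ = (L.map fun x => (f x)⁻¹).prod := by
  induction L with
  | nil => simp
  | cons x L ih => rw [List.map_cons, List.prod_cons, mul_inv, ih, List.map_cons, List.prod_cons]

private theorem neg_sum (L : List ℂ) (f : ℂ → ℝ) : -(L.map f).sum = (L.map fun x => -f x).sum := by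
  induction L with
  | nil => simp
  | cons x L ih => rw [List.map_cons, List.sum_cons, neg_add, ih, List.map_cons, List.sum_cons]

/-- the inverse of the content from above -/
theorem rwL_inv_expX (c : Bool → List ℂ) (a : Bool) (j t : ℝ) :
    (rwL c a (vl ((1 - j) * l) t))⁻¹ ≤ Real.exp (-lgX c a j t) := by
  unfold rwL
  rw [mul_inv, inv_prod, inv_prod]
  unfold lgX
  rw [neg_add, Real.exp_add, neg_sum, neg_sum]
  exact mul_le_mul (prod_le_exp (fun x => inv_nonneg.2 (rwO_nonneg _ _)) fun x => rwO_inv_expX j t x)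
    (prod_le_exp (fun x => inv_nonneg.2 (rwX_nonneg _ _)) fun x => rwX_inv_expX j t x)
    (List.prod_nonneg fun b hb => by
      obtain ⟨y, -, rfl⟩ := List.mem_map.1 hb
      exact inv_nonneg.2 (rwX_nonneg _ _)) (Real.exp_pos _).le

/-- the content vanishes at a pole (Lean value) -/
theorem rwL_zeroX {c : Bool → List ℂ} {a : Bool} {j t : ℝ}
    (h : ∃ x ∈ c a, j * NUMF.l + x.re = NUMF.l ∧ t - x.im = 0) :
    rwL c a (vl ((1 - j) * l) t) = 0 := by
  obtain ⟨x, hx, hj, ht⟩ := h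
  have h1 : ((c a).map fun x => rwO x (vl ((1 - j) * l) t)).prod = 0 :=
    List.prod_eq_zero (List.mem_map.2 ⟨x, hx, rwO_poleX hj ht⟩)
  unfold rwL
  rw [h1, zero_mul]

/-- the factors of the missing rows -/
theorem mis_expX (p q : ℕ) (t : ℝ) : ((Real.cosh t ^ 2)⁻¹) ^ p * (Real.cosh t ^ 2) ^ q =
    Real.exp (-(p * (2 * Real.log (Real.cosh t))) + q * (2 * Real.log (Real.cosh t))) := by
  have hc := Real.cosh_pos t
  rw [Real.exp_add, Real.exp_neg]
  have h1 : ∀ n : ℕ, Real.exp (n * (2 * Real.log (Real.cosh t))) = (Real.cosh t ^ 2) ^ n := by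
    intro n
    rw [Real.exp_nat_mul, show 2 * Real.log (Real.cosh t) = Real.log (Real.cosh t ^ 2) by
      rw [Real.log_pow]; push_cast; ring, Real.exp_log (by positivity)]
  rw [h1, h1, inv_pow]

end PLT

end
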