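import Pool.Agent.PLT.FDefC
import Pool.Agent.PHK.Conf6

/-!
# Sea on a curve: one configuration, one measure space (curves given by complex displacements)

* **`perHC`**: the bound of one configuration with insertions and weights of the objects (`PHK.perH6`);
* `wPC`, `wCC`, `MCC`; **`FAC_eq`**, **`FFC_eq`**; `wNC`, `FFNC`, `FANC`; **`FANC_eq`**, **`FFNC_eq`**, `WIN_ofC`
  (`PHK/Conf6`; configurations, measures and insertions are the landed ones).
-/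

set_option autoImplicit false
set_option linter.unusedSectionVars false

noncomputable section

open Complex MeasureTheory Finset
open scoped ENNReal

open PLX (Fil)

namespace PLT

open NUO NUP1 NUStabP NUDispW NUCR NUP1S NUP1S.Ab NUP1S.AbC NUGC NUGC.PLX PBFunc PBFunc.PLX PHK
open PBF.PLX (Ins MCr MIn dN)

/-- **the bound of one configuration** -/
theorem perHC {P : Par6} (hP : GoodP6 P) {en : (r : ℕ) → (Fin r → Xo) → ℝ} (hS : StabE P en)
    {c2 aS τ : ℝ} (haS : 0 ≤ aS) (hc2 : 0 < c2) (K K2 : ℝ) :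
    ∃ K' K6 c1 : ℝ, 1 ≤ K6 ∧ 0 < c1 ∧ ∀ (B : OB), B.Nn →
    ∀ (C c : ℝ) (k : ℕ) (L ep e1 J : ℝ), 0 ≤ C → 1 ≤ L → ∀ (r : ℕ) (O : Fin r → Xo)
      (D D1 : Bool → ℝ → ℂ) (nX nY : ℕ) (ψ : (a b : ℕ) → (Fin a → ℝ) × (Fin b → ℝ) → ℝ≥0∞)
      (u g : Fin r → ℝ) (Q Bw w : ℝ), 0 ≤ Q → 0 ≤ w → 0 ≤ Bw →
      w ≤ Bw * Real.exp (K2 * r) * Real.exp (∑ i, g i) →
      (∀ i, ob6 B P (O i) * Real.exp (u i + K') ≤
        act6 C c c2 aS τ k L ep e1 J r (k6 (O i)) (ht (O i)) * Real.exp (-g i)) →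
      (chgO6 O true ≤ nX → chgO6 O false ≤ nY → cnt6 O →
        gasIC B P D D1 O (nA6 nX O true) (nA6 nY O false)
          (ψ (nA6 nX O true) (nA6 nY O false)) ≤
        ENNReal.ofReal (w * (Q * Real.exp (∑ i, u i + K * r + en r O +
          c1 * win univ fun i => ht (O i))))) →
    ∀ W : Finset ℤ, FnIC B P D D1 nX nY O ψ ≤
      ENNReal.ofReal (K6 * (Bw * Q) * (∏ i, act (C * K6) 1 c (1 / 10) (k + 1) L ep e1 J r (ht (O i))) *
        Real.exp (-(c1 * ∑ w ∈ W, (cO O w : ℝ) ^ 2))) := by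
  obtain ⟨C2, c1, hc1, hS⟩ := hS
  obtain ⟨K', K6, hK6, H⟩ := asm6 hP (c1 := c1) (τ := τ) C2 (K + K2) 0 haS hc2 hc1
  refine ⟨K', K6, c1 / 4, hK6, by positivity, ?_⟩
  intro B hB C c k L ep e1 J hC hL r O D D1 nX nY ψ u g Q Bw w hQ hw hBw hwB hone hgas W
  by_cases hc : chgO6 O true ≤ nX ∧ chgO6 O false ≤ nY ∧ cnt6 O
  swap
  · rw [FnIC_zero _ _ _ _ _ _ hc]
    exact zero_le
  have hobj : 0 ≤ objWc6 B P O := objWc6_nonneg hB P O
  have key := H C c k L ep e1 J r O W (fun i => ob6 B P (O i)) (fun _ => 1) (fun i => u i + g i)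
    (fun _ => 0) (∏ i, ∏ j, if i < j then pairN6 P O i j else 1) (en r O) (Bw * Q) (c1 / 4) hC hL
    (fun i => ob6_nonneg hB P (O i)) (fun _ => zero_le_one) (mul_nonneg hBw hQ) le_rfl
    (fun W => hS r O W) (fun _ => by simp) (fun i => by
      have h1 := mul_le_mul_of_nonneg_right (hone i) (Real.exp_pos (g i)).le
      calc ob6 B P (O i) * Real.exp (u i + g i + K')
          = ob6 B P (O i) * Real.exp (u i + K') * Real.exp (g i) := by
            rw [mul_assoc, ← Real.exp_add]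
            ring_nf
        _ ≤ _ := h1
        _ = _ := by
            rw [mul_assoc, ← Real.exp_add, neg_add_cancel, Real.exp_zero, mul_one])
  simp only [Finset.prod_const_one, mul_one, Finset.sum_const_zero, add_zero] at key
  rw [FnIC_eq _ _ _ _ _ _ hc]
  refine (mul_le_mul' le_rfl (hgas hc.1 hc.2.1 hc.2.2)).trans ?_
  rw [← ENNReal.ofReal_mul hobj]
  refine ENNReal.ofReal_le_ofReal (le_trans ?_ key)
  have hE : Real.exp (∑ i, (u i + g i) + (K + K2) * r + en r O + c1 / 4 * win univ fun i => ht (O i)) =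
      Real.exp (K2 * r) * Real.exp (∑ i, g i) *
        Real.exp (∑ i, u i + K * r + en r O + c1 / 4 * win univ fun i => ht (O i)) := by
    rw [← Real.exp_add, ← Real.exp_add, Finset.sum_add_distrib]
    congr 1
    ring
  rw [hE]
  obtain ⟨X, hX⟩ : ∃ X, X = Real.exp (∑ i, u i + K * r + en r O +
    c1 / 4 * win univ fun i => ht (O i)) := ⟨_, rfl⟩
  have hX0 : 0 < X := by
    rw [hX]
    exact Real.exp_pos _
  rw [← hX]
  have e : objWc6 B P O = (∏ i, ob6 B P (O i)) * (∏ i, loc6 (gH6 P O) P (O i)) *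
      ∏ i, ∏ j, if i < j then pairN6 P O i j else 1 := rfl
  rw [← e]
  calc objWc6 B P O * (w * (Q * X)) ≤ objWc6 B P O *
        ((Bw * Real.exp (K2 * r) * Real.exp (∑ i, g i)) * (Q * X)) := by
        refine mul_le_mul_of_nonneg_left ?_ hobj
        exact mul_le_mul_of_nonneg_right hwB (by positivity)
    _ = _ := by ring

/-! ### one measure space -/

variable [Fil]

variable (Z : Bool → Option O3 → ℂ → ℂ) (P : Par6) (n n' : ℕ) (η η' : CrsC)

/-- the weight on one piece -/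
def wPC (i : CIx6 n n') (p : Pc6 i) : ℂ :=
  if fit6 n n' p.1 i.2.1 i.2.2 then
    (((i.1 : ℕ).factorial : ℕ) : ℂ)⁻¹ * (wK6 Z P p.1 *
      (((((i.2.1 : ℕ).factorial : ℕ) : ℂ) * (((i.2.2 : ℕ).factorial : ℕ) : ℂ))⁻¹ *
        gKC (gF6 Z P p.1) (η i.1 p.1) (η' i.1 p.1) i.2.1 i.2.2 p.2))
  else 0

/-- **the weight** -/
def wCC : Cf6 n n' → ℂ := fun c => wPC Z P n n' η η' c.1 c.2

/-- joint measurability of the weights -/
structure MCC : Prop where
  w : ∀ r : ℕ, Measurable fun O : Fin r → Xo => wK6 Z P O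
  g : ∀ r a b : ℕ, Measurable fun p : (Fin r → Xo) × ((Fin a → ℝ) × (Fin b → ℝ)) =>
    gKC (gF6 Z P p.1) (η r p.1) (η' r p.1) a b p.2

variable {Z P n n' η η'}

theorem MCC.wP (h : MCC Z P η η') (i : CIx6 n n') : Measurable (wPC Z P n n' η η' i) := by
  unfold wPC
  refine Measurable.ite (meas_fit6 i) ?_ measurable_const
  exact ((((h.w _).comp measurable_fst).mul ((h.g _ _ _).const_mul _)).const_mul _)

theorem MCC.wC (h : MCC Z P η η') : Measurable (wCC Z P n n' η η') := meas_sig.2 fun i => h.wP i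

/-! ### the pieces -/

/-- the pieces of one configuration of objects, moduli -/
theorem sum_wP_enormC (Ψ : Ins) (r : Fin (2 * (n + n') + 1)) (O : Fin (r : ℕ) → Xo) :
    ∑ ab : Fin (n + 1) × Fin (n' + 1), ∫⁻ x, ‖wPC Z P n n' η η' (r, ab) (O, x)‖ₑ *
      ‖Ψ r O ab.1 ab.2 x‖ₑ = (((r : ℕ).factorial : ℕ) : ℝ≥0∞)⁻¹ * trAC Z P n n' η η' Ψ r O := by
  unfold trAC
  by_cases hc : chgO6 O true ≤ n ∧ chgO6 O false ≤ n' ∧ cnt6 O
  · rw [if_pos hc]
    have hA : nA6 n O true < n + 1 := Nat.lt_succ_of_le (nA6_le hc.2.2 true)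
    have hB : nA6 n' O false < n' + 1 := Nat.lt_succ_of_le (nA6_le hc.2.2 false)
    rw [Finset.sum_eq_single ((⟨nA6 n O true, hA⟩, ⟨nA6 n' O false, hB⟩) :
      Fin (n + 1) × Fin (n' + 1))]
    · have hcond : fit6 n n' O (nA6 n O true) (nA6 n' O false) := fit6_self hc
      have e : ∀ x, ‖wPC Z P n n' η η'
          (r, ((⟨nA6 n O true, hA⟩, ⟨nA6 n' O false, hB⟩) : Fin (n + 1) × Fin (n' + 1)))
            (O, x)‖ₑ * ‖Ψ r O (nA6 n O true) (nA6 n' O false) x‖ₑ =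
          ((((r : ℕ).factorial : ℕ) : ℝ≥0∞)⁻¹ * (‖wK6 Z P O‖ₑ *
            (((nA6 n O true).factorial : ℝ≥0∞) * (nA6 n' O false).factorial)⁻¹)) *
            (‖gKC (gF6 Z P O) (η r O) (η' r O) (nA6 n O true) (nA6 n' O false) x‖ₑ *
              ‖Ψ r O (nA6 n O true) (nA6 n' O false) x‖ₑ) := by
        intro x
        unfold wPC
        rw [if_pos hcond, enorm_mul, enorm_mul, enorm_mul,
          enorm_inv_natCast _ (Nat.factorial_ne_zero _), enorm_fac]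
        ring
      show ∫⁻ x, ‖wPC Z P n n' η η'
          (r, ((⟨nA6 n O true, hA⟩, ⟨nA6 n' O false, hB⟩) : Fin (n + 1) × Fin (n' + 1)))
            (O, x)‖ₑ * ‖Ψ r O (nA6 n O true) (nA6 n' O false) x‖ₑ = _
      simp only [e]
      rw [lintegral_const_mul']
      · ring
      · refine ENNReal.mul_ne_top (ENNReal.inv_ne_top.2 (by exact_mod_cast Nat.factorial_ne_zero _))
          (ENNReal.mul_ne_top enorm_ne_top (ENNReal.inv_ne_top.2 ?_))
        exact mul_ne_zero (by exact_mod_cast Nat.factorial_ne_zero _)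
          (by exact_mod_cast Nat.factorial_ne_zero _)
    · rintro ⟨a, b⟩ - hne
      have : ¬ fit6 n n' O a b := by
        intro hf
        obtain ⟨h1, h2⟩ := fit6_eq hf
        exact hne (Prod.ext (Fin.ext h1) (Fin.ext h2))
      have e : ∀ x, ‖wPC Z P n n' η η' (r, (a, b)) (O, x)‖ₑ * ‖Ψ r O a b x‖ₑ = 0 := by
        intro x
        unfold wPC
        rw [if_neg this]
        simp
      simp only [e, lintegral_zero]
    · intro h
      exact absurd (Finset.mem_univ _) h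
  · rw [if_neg hc, mul_zero]
    refine Finset.sum_eq_zero fun ab _ => ?_
    have : ¬ fit6 n n' O ab.1 ab.2 := fun hf => hc (fits6_of hf)
    have e : ∀ x, ‖wPC Z P n n' η η' (r, ab) (O, x)‖ₑ * ‖Ψ r O ab.1 ab.2 x‖ₑ = 0 := by
      intro x
      unfold wPC
      rw [if_neg this]
      simp
    simp only [e, lintegral_zero]

/-- the pieces of one configuration of objects -/
theorem sum_wPC (Ψ : Ins) (r : Fin (2 * (n + n') + 1)) (O : Fin (r : ℕ) → Xo) :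
    ∑ ab : Fin (n + 1) × Fin (n' + 1), ∫ x, wPC Z P n n' η η' (r, ab) (O, x) *
      Ψ r O ab.1 ab.2 x = (((r : ℕ).factorial : ℕ) : ℂ)⁻¹ * trmC Z P n n' η η' Ψ r O := by
  unfold trmC
  by_cases hc : chgO6 O true ≤ n ∧ chgO6 O false ≤ n' ∧ cnt6 O
  · rw [if_pos hc]
    have hA : nA6 n O true < n + 1 := Nat.lt_succ_of_le (nA6_le hc.2.2 true)
    have hB : nA6 n' O false < n' + 1 := Nat.lt_succ_of_le (nA6_le hc.2.2 false)
    rw [Finset.sum_eq_single ((⟨nA6 n O true, hA⟩, ⟨nA6 n' O false, hB⟩) :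
      Fin (n + 1) × Fin (n' + 1))]
    · have hcond : fit6 n n' O (nA6 n O true) (nA6 n' O false) := fit6_self hc
      have e : ∀ x, wPC Z P n n' η η'
          (r, ((⟨nA6 n O true, hA⟩, ⟨nA6 n' O false, hB⟩) : Fin (n + 1) × Fin (n' + 1)))
            (O, x) * Ψ r O (nA6 n O true) (nA6 n' O false) x =
          ((((r : ℕ).factorial : ℕ) : ℂ)⁻¹ * (wK6 Z P O *
            (((nA6 n O true).factorial : ℂ) * (nA6 n' O false).factorial)⁻¹)) *
            (gKC (gF6 Z P O) (η r O) (η' r O) (nA6 n O true) (nA6 n' O false) x *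
              Ψ r O (nA6 n O true) (nA6 n' O false) x) := by
        intro x
        unfold wPC
        rw [if_pos hcond]
        ring
      show ∫ x, wPC Z P n n' η η'
          (r, ((⟨nA6 n O true, hA⟩, ⟨nA6 n' O false, hB⟩) : Fin (n + 1) × Fin (n' + 1)))
            (O, x) * Ψ r O (nA6 n O true) (nA6 n' O false) x = _
      simp only [e]
      rw [integral_const_mul]
      ring
    · rintro ⟨a, b⟩ - hne
      have : ¬ fit6 n n' O a b := by
        intro hf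
        obtain ⟨h1, h2⟩ := fit6_eq hf
        exact hne (Prod.ext (Fin.ext h1) (Fin.ext h2))
      have e : ∀ x, wPC Z P n n' η η' (r, (a, b)) (O, x) * Ψ r O a b x = 0 := by
        intro x
        unfold wPC
        rw [if_neg this, zero_mul]
      simp only [e, integral_zero]
    · intro h
      exact absurd (Finset.mem_univ _) h
  · rw [if_neg hc, mul_zero]
    refine Finset.sum_eq_zero fun ab _ => ?_
    have : ¬ fit6 n n' O ab.1 ab.2 := fun hf => hc (fits6_of hf)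
    have e : ∀ x, wPC Z P n n' η η' (r, ab) (O, x) * Ψ r O ab.1 ab.2 x = 0 := by
      intro x
      unfold wPC
      rw [if_neg this, zero_mul]
    simp only [e, integral_zero]

/-! ### the modulus -/

/-- **the functional with moduli as an integral** -/
theorem FAC_eq (h : MCC Z P η η') {Ψ : Ins} (hΨ : MIn Ψ) :
    FAC Z P n n' η η' Ψ = ∫⁻ c, ‖wCC Z P n n' η η' c‖ₑ * ‖ev6 Ψ c‖ₑ ∂(mC6 n n') := by
  have hm : ∀ i : CIx6 n n', Measurable fun p : Pc6 i => ‖wPC Z P n n' η η' i p‖ₑ *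
      ‖Ψ i.1 p.1 i.2.1 i.2.2 p.2‖ₑ := fun i => (h.wP i).enorm.mul (hΨ _ _ _).enorm
  have e1 : ∫⁻ c, ‖wCC Z P n n' η η' c‖ₑ * ‖ev6 Ψ c‖ₑ ∂(mC6 n n') =
      ∑ i : CIx6 n n', ∫⁻ p : Pc6 i, ‖wPC Z P n n' η η' i p‖ₑ *
        ‖Ψ i.1 p.1 i.2.1 i.2.2 p.2‖ₑ ∂(mP6 i) := by
    unfold mC6
    rw [lintegral_sig]
    rfl
  have e2 : ∀ i : CIx6 n n', ∫⁻ p : Pc6 i, ‖wPC Z P n n' η η' i p‖ₑ *
      ‖Ψ i.1 p.1 i.2.1 i.2.2 p.2‖ₑ ∂(mP6 i) =
      ∫⁻ O : Fin (i.1 : ℕ) → Xo, (∫⁻ x, ‖wPC Z P n n' η η' i (O, x)‖ₑ *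
        ‖Ψ i.1 O i.2.1 i.2.2 x‖ₑ) ∂(Measure.pi fun _ => nu) := by
    intro i
    unfold mP6
    exact lintegral_prod _ (hm i).aemeasurable
  rw [e1, Fintype.sum_prod_type]
  unfold FAC
  rw [Finset.sum_range]
  refine Finset.sum_congr rfl fun r _ => ?_
  simp only [e2]
  have e3 : ∑ ab : Fin (n + 1) × Fin (n' + 1), ∫⁻ O : Fin (r : ℕ) → Xo,
      (∫⁻ x, ‖wPC Z P n n' η η' (r, ab) (O, x)‖ₑ * ‖Ψ r O ab.1 ab.2 x‖ₑ)
        ∂(Measure.pi fun _ => nu) =
      ∫⁻ O : Fin (r : ℕ) → Xo, ∑ ab : Fin (n + 1) × Fin (n' + 1),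
        (∫⁻ x, ‖wPC Z P n n' η η' (r, ab) (O, x)‖ₑ * ‖Ψ r O ab.1 ab.2 x‖ₑ)
        ∂(Measure.pi fun _ => nu) :=
    (lintegral_finsetSum' _ fun ab _ => ((hm (r, ab)).lintegral_prod_right').aemeasurable).symm
  have e4 : (((r : ℕ).factorial : ℕ) : ℝ≥0∞)⁻¹ *
      ∫⁻ O : Fin (r : ℕ) → Xo, trAC Z P n n' η η' Ψ r O ∂(Measure.pi fun _ => nu) =
      ∫⁻ O : Fin (r : ℕ) → Xo, (((r : ℕ).factorial : ℕ) : ℝ≥0∞)⁻¹ * trAC Z P n n' η η' Ψ r O
        ∂(Measure.pi fun _ => nu) :=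
    (lintegral_const_mul' _ _ (ENNReal.inv_ne_top.2
      (by exact_mod_cast Nat.factorial_ne_zero _))).symm
  rw [e3, e4]
  exact lintegral_congr fun O => (sum_wP_enormC Ψ r O).symm

/-- integrability with respect to the weight -/
theorem WI_ofC (h : MCC Z P η η') {Ψ : Ins} (hΨ : MIn Ψ) (hf : FAC Z P n n' η η' Ψ < ∞) :
    WI (mC6 n n') (wCC Z P n n' η η') (ev6 Ψ) := by
  refine ⟨(h.wC.mul (MIn.ev6 hΨ)).aestronglyMeasurable, ?_⟩
  rw [FAC_eq h hΨ] at hf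
  unfold HasFiniteIntegral
  simpa only [enorm_mul] using hf

/-- **the functional as an integral** -/
theorem FFC_eq (h : MCC Z P η η') {Ψ : Ins} (hΨ : MIn Ψ) (hf : FAC Z P n n' η η' Ψ < ∞) :
    FFC Z P n n' η η' Ψ = F (mC6 n n') (wCC Z P n n' η η') (ev6 Ψ) := by
  have hI := WI_ofC h hΨ hf
  have hI' : ∀ i : CIx6 n n', Integrable (fun p : Pc6 i => wPC Z P n n' η η' i p *
      Ψ i.1 p.1 i.2.1 i.2.2 p.2) (mP6 i) := integrable_sig.1 hI
  have e1 : F (mC6 n n') (wCC Z P n n' η η') (ev6 Ψ) =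
      ∑ i : CIx6 n n', ∫ p : Pc6 i, wPC Z P n n' η η' i p * Ψ i.1 p.1 i.2.1 i.2.2 p.2 ∂(mP6 i) :=
    F_sig hI'
  have e2 : ∀ i : CIx6 n n', ∫ p : Pc6 i, wPC Z P n n' η η' i p *
      Ψ i.1 p.1 i.2.1 i.2.2 p.2 ∂(mP6 i) =
      ∫ O : Fin (i.1 : ℕ) → Xo, (∫ x, wPC Z P n n' η η' i (O, x) * Ψ i.1 O i.2.1 i.2.2 x)
        ∂(Measure.pi fun _ => nu) := by
    intro i
    have := hI' i
    unfold mP6 at this ⊢
    exact integral_prod _ this
  rw [e1, Fintype.sum_prod_type]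
  unfold FFC
  rw [Finset.sum_range]
  refine Finset.sum_congr rfl fun r _ => ?_
  simp only [e2]
  have e3 : ∑ ab : Fin (n + 1) × Fin (n' + 1), ∫ O : Fin (r : ℕ) → Xo,
      (∫ x, wPC Z P n n' η η' (r, ab) (O, x) * Ψ r O ab.1 ab.2 x)
        ∂(Measure.pi fun _ => nu) =
      ∫ O : Fin (r : ℕ) → Xo, ∑ ab : Fin (n + 1) × Fin (n' + 1),
        (∫ x, wPC Z P n n' η η' (r, ab) (O, x) * Ψ r O ab.1 ab.2 x)
        ∂(Measure.pi fun _ => nu) := by
    refine (integral_finsetSum _ fun ab _ => ?_).symm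
    have := hI' (r, ab)
    unfold mP6 at this
    exact this.integral_prod_left
  have e4 : (((r : ℕ).factorial : ℕ) : ℂ)⁻¹ *
      ∫ O : Fin (r : ℕ) → Xo, trmC Z P n n' η η' Ψ r O ∂(Measure.pi fun _ => nu) =
      ∫ O : Fin (r : ℕ) → Xo, (((r : ℕ).factorial : ℕ) : ℂ)⁻¹ * trmC Z P n n' η η' Ψ r O
        ∂(Measure.pi fun _ => nu) := (integral_const_mul _ _).symm
  rw [e3, e4]
  exact integral_congr_ae (Filter.Eventually.of_forall fun O => (sum_wPC Ψ r O).symm)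

/-! ### the sum over the number of quanta -/

section sumn

variable (Z : ℕ → Bool → Option O3 → ℂ → ℂ) (P : ℕ → Par6) (N : ℕ) (η η' : ℕ → CrsC) (c : ℕ → ℂ)

/-- the weight -/
def wNC : CfN6 N → ℂ := fun x =>
  c x.1 * wCC (Z x.1) (P x.1) x.1 (x.1 + dN N) (η x.1) (η' x.1) x.2

/-- the sum of the functionals -/
def FFNC (Ψ : ℕ → Ins) : ℂ :=
  ∑ n ∈ range (N + 1), c n * FFC (Z n) (P n) n (n + dN N) (η n) (η' n) (Ψ n)

/-- the sum of the moduli -/
def FANC (Ψ : ℕ → Ins) : ℝ≥0∞ :=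
  ∑ n ∈ range (N + 1), ‖c n‖ₑ * FAC (Z n) (P n) n (n + dN N) (η n) (η' n) (Ψ n)

variable {Z P N η η' c}

theorem wNC_meas (h : ∀ n ≤ N, MCC (Z n) (P n) (η n) (η' n)) : Measurable (wNC Z P N η η' c) :=
  meas_sig.2 fun n =>
    ((h n (by omega)).wC (n := (n : ℕ)) (n' := (n : ℕ) + dN N)).const_mul (c n)

/-- **the sum of the moduli as an integral** -/
theorem FANC_eq (h : ∀ n ≤ N, MCC (Z n) (P n) (η n) (η' n)) {Ψ : ℕ → Ins}
    (hΨ : ∀ n ≤ N, MIn (Ψ n)) :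
    FANC Z P N η η' c Ψ = ∫⁻ x, ‖wNC Z P N η η' c x‖ₑ * ‖evN6 Ψ x‖ₑ ∂(mN6 N) := by
  unfold FANC mN6
  rw [lintegral_sig, Finset.sum_range]
  refine Finset.sum_congr rfl fun n _ => ?_
  rw [FAC_eq (h n (by omega)) (hΨ n (by omega)), ← lintegral_const_mul' _ _ enorm_ne_top]
  refine lintegral_congr fun x => ?_
  unfold wNC evN6
  rw [enorm_mul, mul_assoc]

theorem WIN_ofC (h : ∀ n ≤ N, MCC (Z n) (P n) (η n) (η' n)) {Ψ : ℕ → Ins}
    (hΨ : ∀ n ≤ N, MIn (Ψ n)) (hf : FANC Z P N η η' c Ψ < ∞) :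
    WI (mN6 N) (wNC Z P N η η' c) (evN6 Ψ) := by
  refine ⟨((wNC_meas h).mul (evN_meas6 hΨ)).aestronglyMeasurable, ?_⟩
  rw [FANC_eq h hΨ] at hf
  unfold HasFiniteIntegral
  simpa only [enorm_mul] using hf

/-- **the sum of the functionals as an integral**; `FAC` must be finite also where `c n = 0` -/
theorem FFNC_eq (h : ∀ n ≤ N, MCC (Z n) (P n) (η n) (η' n)) {Ψ : ℕ → Ins}
    (hΨ : ∀ n ≤ N, MIn (Ψ n)) (hf : FANC Z P N η η' c Ψ < ∞) :
    FFNC Z P N η η' c Ψ = F (mN6 N) (wNC Z P N η η' c) (evN6 Ψ) := by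
  have hI := WIN_ofC h hΨ hf
  have hI' := integrable_sig.1 hI
  have e1 : F (mN6 N) (wNC Z P N η η' c) (evN6 Ψ) = ∑ n : Fin (N + 1),
      ∫ x, wNC Z P N η η' c ⟨n, x⟩ * evN6 Ψ ⟨n, x⟩ ∂(mC6 (n : ℕ) ((n : ℕ) + dN N)) := F_sig hI'
  rw [e1]
  unfold FFNC
  rw [Finset.sum_range]
  refine Finset.sum_congr rfl fun n _ => ?_
  have hn : (n : ℕ) ≤ N := by omega
  by_cases hc : c n = 0
  · have e2 : ∀ x, wNC Z P N η η' c ⟨n, x⟩ * evN6 Ψ ⟨n, x⟩ = 0 := by
      intro x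
      unfold wNC
      simp only
      rw [hc, zero_mul, zero_mul]
    simp only [e2, integral_zero]
    rw [hc, zero_mul]
  · have hfn : FAC (Z n) (P n) n (n + dN N) (η n) (η' n) (Ψ n) < ∞ := by
      have h1 : ‖c n‖ₑ * FAC (Z n) (P n) n (n + dN N) (η n) (η' n) (Ψ n) < ∞ := by
        unfold FANC at hf
        rw [ENNReal.sum_lt_top] at hf
        exact hf n (Finset.mem_range.2 (by omega))
      by_contra h2
      rw [not_lt, top_le_iff] at h2
      rw [h2, ENNReal.mul_top (enorm_ne_zero.2 hc)] at h1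
      exact lt_irrefl _ h1
    rw [FFC_eq (h n hn) (hΨ n hn) hfn]
    unfold F
    rw [← integral_const_mul]
    refine integral_congr_ae (Filter.Eventually.of_forall fun x => ?_)
    unfold wNC evN6
    simp only
    ring

end sumn

end PLT

end
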