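import Pool.Agent.PLT.SumC
import Pool.Agent.PHK.Congr

/-!
# Sea on a curve: the terms only see the one body functions on the evaluation points

* `DomKC.pt`, `qAC_congr`, `Z1C_congr`, `FncC_congr`;
* `TmVC m m' B P aX aY`: the terms with `m` quanta X and `m'` quanta Y at simple poles;
* `PerGC.congr`: two terms which agree on the curves; `perGenC_congr`, `perGenC_congrC`, `R4CofC.congr`.
-/

set_option autoImplicit false
set_option linter.unusedSectionVars false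

noncomputable section

open Complex MeasureTheory Finset
open scoped ENNReal

namespace PLT

open NUO NUP1 NUCR NUGC.PLX PHK

variable {P : Par6} {lo hi : ℝ} {D : Set ℂ} {B B' : OB}

/-- a point of a curve is in the domain -/
theorem DomKC.pt (hD : DomKC P lo hi D) {η η' : Bool → ℝ → ℂ} (hη : CurC lo hi η η') (a : Bool)
    (t : ℝ) : ptC η a t ∈ D :=
  hD.A _ (hη.re a t)

/-- the quanta on the curve -/
theorem qAC_congr (hD : DomKC P lo hi D) (hR : ∀ a, ∀ z ∈ D, B.R a z = B'.R a z) (hφ : B.φ = B'.φ)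
    {η η' : Bool → ℝ → ℂ} (hη : CurC lo hi η η') {r : ℕ} (O : Fin r → Xo) (a : Bool) :
    qAC B P η O a = qAC B' P η O a := by
  funext t
  unfold qAC
  rw [hR _ _ (hD.pt hη a t), hφ]

/-- the gas -/
theorem Z1C_congr (hD : DomKC P lo hi D) (hR : ∀ a, ∀ z ∈ D, B.R a z = B'.R a z) (hφ : B.φ = B'.φ)
    {η η' : Bool → ℝ → ℂ} (hη : CurC lo hi η η') {r : ℕ} (O : Fin r → Xo) (p q : ℕ) :
    Z1C B P η η' O p q = Z1C B' P η η' O p q := by
  unfold Z1C
  rw [qAC_congr hD hR hφ hη O true, qAC_congr hD hR hφ hη O false]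

/-- **the terms only see `D`** -/
theorem FncC_congr (hD : DomKC P lo hi D)
    (hR : ∀ a, ∀ z ∈ D, B.R a z = B'.R a z) (hφ : B.φ = B'.φ)
    (hφ0 : B.φ0 = B'.φ0) {η η' : Bool → ℝ → ℂ} (hη : CurC lo hi η η') (nX nY : ℕ) {r : ℕ}
    (O : Fin r → Xo) : FncC B P η η' nX nY O = FncC B' P η η' nX nY O := by
  unfold FncC
  rw [objWc6_congr hD.six hR hφ hφ0 O, Z1C_congr hD hR hφ hη]

/-- the terms of a class with `m` quanta X and `m'` quanta Y at simple poles -/
def TmVC (m m' : ℕ) (B : OB) (P : Par6) (aX aY : ℕ) : TermC :=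
  fun n r O η η' => if m ≤ n + aX ∧ m' ≤ n + aY then
    FncC B P η η' (n + aX - m) (n + aY - m') (r := r) O else 0

/-- two terms which agree on the curves -/
theorem PerGC.congr {C C' c b c1 c' L ep e1 J ν d : ℝ} {k : ℕ}
    {N a : ℕ} {T T' : TermC} {Q : ℝ}
    (hT : ∀ n r (O : Fin r → Xo) η η', CurC lo hi η η' → T' n r O η η' = T n r O η η')
    (h : PerGC C C' c b k c1 c' L ep e1 J ν d N a lo hi T Q) :
    PerGC C C' c b k c1 c' L ep e1 J ν d N a lo hi T' Q := by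
  intro n hn b' hb' r hr O
  obtain ⟨η, η', hcur, hb⟩ := h n hn b' hb' r hr O
  refine ⟨η, η', hcur, fun W => ?_⟩
  rw [hT n r O η η' hcur]
  exact hb W

/-- a larger strip -/
theorem PerGC.sub {lo' hi' C C' c b c1 c' L ep e1 J ν d : ℝ} {k : ℕ} {N a : ℕ} {T : TermC} {Q : ℝ}
    (h : PerGC C C' c b k c1 c' L ep e1 J ν d N a lo hi T Q) (h1 : lo' ≤ lo) (h2 : hi ≤ hi') :
    PerGC C C' c b k c1 c' L ep e1 J ν d N a lo' hi' T Q := by
  intro n hn b' hb' r hr O
  obtain ⟨η, η', hcur, hb⟩ := h n hn b' hb' r hr O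
  exact ⟨η, η', hcur.sub h1 h2, hb⟩

/-- two terms which agree on the curves, representation -/
theorem R4genC.congr {a : ℕ} {T T' : TermC} {Z : ℕ → ℂ}
    (hT : ∀ n r (O : Fin r → Xo) η η', CurC lo hi η η' → T' n r O η η' = T n r O η η')
    (h : R4genC lo hi a T Z) : R4genC lo hi a T' Z := by
  intro η η' hη n
  refine (h η η' hη n).trans (le_of_eq ?_)
  refine Finset.sum_congr rfl fun r _ => ?_
  congr 1
  refine lintegral_congr fun O => ?_
  rw [hT n r O _ _ (hη r O)]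

/-- **the bound of the terms `TmVC` only sees `D`** -/
theorem perGenC_congr {C C' c b c1 c' L ep e1 J ν d : ℝ} {k : ℕ}
    {N a m m' aX aY : ℕ} {Q : ℝ} (hD : DomKC P lo hi D) (hR : ∀ a, ∀ z ∈ D, B.R a z = B'.R a z)
    (hφ : B.φ = B'.φ) (hφ0 : B.φ0 = B'.φ0)
    (h : PerGC C C' c b k c1 c' L ep e1 J ν d N a lo hi (TmVC m m' B P aX aY) Q) :
    PerGC C C' c b k c1 c' L ep e1 J ν d N a lo hi (TmVC m m' B' P aX aY) Q := by
  refine h.congr fun n r O η η' hη => ?_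
  unfold TmVC
  split_ifs
  · exact (FncC_congr hD hR hφ hφ0 hη _ _ O).symm
  · rfl

/-- the same for `TmCC` -/
theorem perGenC_congrC {C C' c b c1 c' L ep e1 J ν d : ℝ} {k : ℕ}
    {N a aX aY : ℕ} {Q : ℝ} (hD : DomKC P lo hi D) (hR : ∀ a, ∀ z ∈ D, B.R a z = B'.R a z)
    (hφ : B.φ = B'.φ) (hφ0 : B.φ0 = B'.φ0)
    (h : PerGC C C' c b k c1 c' L ep e1 J ν d N a lo hi (TmCC (fun _ _ => B) P aX aY) Q) :
    PerGC C C' c b k c1 c' L ep e1 J ν d N a lo hi (TmCC (fun _ _ => B') P aX aY) Q := by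
  refine h.congr fun n r O η η' hη => ?_
  unfold TmCC
  exact (FncC_congr hD hR hφ hφ0 hη _ _ O).symm

/-- the representation only sees `D` -/
theorem R4CofC.congr {aX aY : ℕ} {Z : ℕ → ℂ} (hD : DomKC P lo hi D)
    (hR : ∀ a, ∀ z ∈ D, B.R a z = B'.R a z) (hφ : B.φ = B'.φ) (hφ0 : B.φ0 = B'.φ0)
    (h : R4CofC lo hi B P aX aY Z) : R4CofC lo hi B' P aX aY Z := by
  unfold R4CofC at h ⊢
  refine h.congr fun n r O η η' hη => ?_
  unfold TmCC
  exact (FncC_congr hD hR hφ hφ0 hη _ _ O).symm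

end PLT

end
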