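import Pool.Agent.PLT.CqP6

/-!
# PLT/CqM1 (helper52): cells of the difference channel, part 1 (the modules are chained to limit the memory of a build)
-/

set_option autoImplicit false
set_option maxRecDepth 100000

namespace PLT.Cq

open PHK

def M1_0 : CellD := ⟨37, 6, [],
    [[182], [-145, 137], [1, -1, 250], [42, 90, -130, 259], [68, 53, 18, -36, 244],
     [23, 61, 20, -41, -24, 235], [-76, -18, -6, 12, 45, 9, 265], [57, 169, 55, -113, -63, -84, 28, 741]]⟩

theorem okM1_0 : cellOKD 1025 PM 8 M1_0 = true := by decide +kernel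

def M1_1 : CellD := ⟨39, 6, [],
    [[713], [-555, 530], [3, -3, 967], [159, 350, -505, 1004], [275, 201, 65, -135, 951],
     [89, 238, 78, -160, -93, 910], [-295, -61, -20, 41, 197, 31, 1058],
     [219, 657, 214, -441, -239, -327, 99, 2858]]⟩

theorem okM1_1 : cellOKD 1025 PM 8 M1_1 = true := by decide +kernel

def M1_2 : CellD := ⟨41, 6, [],
    [[175], [-133, 128], [1, -1, 235], [38, 85, -123, 243], [69, 47, 15, -32, 233],
     [21, 58, 19, -39, -22, 220], [-72, -13, -4, 9, 54, 6, 265], [53, 160, 51, -108, -56, -80, 21, 690]]⟩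

theorem okM1_2 : cellOKD 1025 PM 8 M1_2 = true := by decide +kernel

def M1_3 : CellD := ⟨43, 6, [],
    [[1381], [-1028, 991], [12, -12, 1823], [295, 659, -958, 1887], [560, 351, 111, -237, 1828],
     [160, 458, 145, -309, -164, 1713], [-553, -81, -26, 55, 473, 40, 2137],
     [406, 1254, 396, -848, -421, -623, 138, 5346]]⟩

theorem okM1_3 : cellOKD 1025 PM 8 M1_3 = true := by decide +kernel

def cM1 : List CellD := [M1_0, M1_1, M1_2, M1_3]

theorem cM1_ok : cM1.all (cellOKD 1025 PM 8) = true := by
  simp only [cM1, List.all_cons, List.all_nil, okM1_0, okM1_1, okM1_2, okM1_3, Bool.and_true]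

end PLT.Cq
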