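import Pool.Agent.PLT.CqM1

/-!
# PLT/CqM2 (helper52): cells of the difference channel, part 2 (the modules are chained to limit the memory of a build)
-/

set_option autoImplicit false
set_option maxRecDepth 100000

namespace PLT.Cq

open PHK

def M2_0 : CellD := ⟨45, 6, [],
    [[85], [-62, 60], [1, -1, 111], [18, 40, -59, 115], [35, 20, 6, -14, 113], [10, 28, 9, -19, -10, 104],
     [-33, -4, -1, 3, 33, 2, 136], [25, 77, 24, -52, -25, -38, 7, 324]]⟩

theorem okM2_0 : cellOKD 1025 PM 8 M2_0 = true := by decide +kernel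

def M2_1 : CellD := ⟨47, 6, [],
    [[338], [-239, 232], [6, -6, 432], [69, 156, -229, 445], [142, 75, 22, -51, 446],
     [36, 111, 33, -76, -36, 406], [-126, -11, -3, 8, 144, 6, 554], [95, 302, 90, -207, -92, -149, 20, 1260]]⟩

theorem okM2_1 : cellOKD 1025 PM 8 M2_1 = true := by decide +kernel

def M2_2 : CellD := ⟨49, 6, [],
    [[673], [-462, 451], [15, -15, 844], [134, 302, -451, 866], [282, 137, 39, -95, 886],
     [69, 220, 63, -152, -67, 791], [-239, -14, -4, 10, 320, 7, 1143],
     [186, 595, 169, -411, -172, -293, 27, 2457]]⟩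

theorem okM2_2 : cellOKD 1025 PM 8 M2_2 = true := by decide +kernel

def M2_3 : CellD := ⟨51, 6, [],
    [[168], [-112, 109], [5, -5, 206], [33, 73, -111, 211], [70, 31, 8, -22, 222],
     [16, 55, 15, -38, -16, 193], [-56, -2, 0, 1, 90, 1, 298], [46, 147, 39, -103, -40, -72, 3, 600]]⟩

theorem okM2_3 : cellOKD 1025 PM 8 M2_3 = true := by decide +kernel

def cM2 : List CellD := [M2_0, M2_1, M2_2, M2_3]

theorem cM2_ok : cM2.all (cellOKD 1025 PM 8) = true := by
  simp only [cM2, List.all_cons, List.all_nil, okM2_0, okM2_1, okM2_2, okM2_3, Bool.and_true]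

end PLT.Cq
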