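import Pool.Agent.PLT.CqM2

/-!
# PLT/CqM3 (helper52): cells of the difference channel, part 3 (the modules are chained to limit the memory of a build)
-/

set_option autoImplicit false
set_option maxRecDepth 100000

namespace PLT.Cq

open PHK

def M3_0 : CellD := ⟨53, 6, [],
    [[84], [-54, 53], [3, -3, 101], [16, 36, -55, 102], [34, 14, 3, -10, 112], [7, 28, 7, -19, -7, 94],
     [-26, 0, 0, 0, 50, 0, 158], [22, 73, 17, -51, -19, -36, 0, 295]]⟩

theorem okM3_0 : cellOKD 1025 PM 8 M3_0 = true := by decide +kernel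

def M3_1 : CellD := ⟨55, 6, [],
    [[84], [-52, 52], [4, -4, 99], [16, 34, -55, 100], [33, 12, 3, -9, 115], [6, 28, 6, -20, -7, 92],
     [-23, 1, 0, 0, 58, 0, 170], [22, 73, 15, -52, -17, -36, -1, 291]]⟩

theorem okM3_1 : cellOKD 1025 PM 8 M3_1 = true := by decide +kernel

def M3_2 : CellD := ⟨57, 6, [],
    [[85], [-51, 50], [5, -5, 97], [15, 33, -55, 97], [31, 10, 2, -8, 120], [5, 29, 5, -21, -7, 90],
     [-20, 1, 0, -1, 67, 0, 188], [22, 73, 12, -53, -15, -36, -3, 289]]⟩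

theorem okM3_2 : cellOKD 1025 PM 8 M3_2 = true := by decide +kernel

def M3_3 : CellD := ⟨59, 6, [],
    [[86], [-49, 49], [7, -7, 96], [15, 32, -57, 94], [28, 8, 1, -7, 131], [2, 31, 4, -24, -7, 89],
     [-17, 2, 0, -1, 82, 0, 219], [22, 74, 8, -53, -13, -37, -5, 290]]⟩

theorem okM3_3 : cellOKD 1025 PM 8 M3_3 = true := by decide +kernel

def cM3 : List CellD := [M3_0, M3_1, M3_2, M3_3]

theorem cM3_ok : cM3.all (cellOKD 1025 PM 8) = true := by
  simp only [cM3, List.all_cons, List.all_nil, okM3_0, okM3_1, okM3_2, okM3_3, Bool.and_true]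

end PLT.Cq
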