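import Pool.Agent.PLT.CqM3

/-!
# PLT/CqM4 (helper52): cells of the difference channel, part 4 (the modules are chained to limit the memory of a build)
-/

set_option autoImplicit false
set_option maxRecDepth 100000

namespace PLT.Cq

open PHK

def M4_0 : CellD := ⟨61, 6, [],
    [[698], [-386, 390], [77, -76, 762], [114, 249, -535, 756], [170, 39, 19, -89, 1238],
     [-36, 271, 58, -270, -44, 708], [-111, 18, 0, -11, 861, 6, 2219],
     [181, 592, 35, -426, -51, -317, -50, 2289]]⟩

theorem okM4_0 : cellOKD 1025 PM 8 M4_0 = true := by decide +kernel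

def M4_1 : CellD := ⟨249, 8, [],
    [[181], [-99, 105], [21, -24, 200], [16, 73, -195, 213], [25, 2, 19, -44, 386],
     [-21, 69, 63, -121, 8, 188], [-28, 7, 0, -3, 286, 3, 721], [42, 142, 4, -113, 13, -79, -14, 532]]⟩

theorem okM4_1 : cellOKD 1025 PM 8 M4_1 = true := by decide +kernel

def M4_2 : CellD := ⟨251, 8, [],
    [[1546], [-827, 928], [153, -207, 1762], [14, 732, -2069, 1994], [127, -30, 301, -533, 3628],
     [-193, 495, 1183, -1593, 351, 1688], [-265, 81, -7, -24, 2737, 35, 6828],
     [293, 1090, -67, -1025, 349, -568, -97, 3949]]⟩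

theorem okM4_2 : cellOKD 1025 PM 8 M4_2 = true := by decide +kernel

def M4_3 : CellD := ⟨505, 9, [],
    [[871], [-430, 538], [72, -108, 1068], [-80, 488, -1351, 1221], [27, -42, 244, -391, 2177],
     [-72, 157, 1294, -1439, 492, 1056], [-179, 67, -27, 4, 1659, 21, 4096],
     [110, 533, -206, -640, 412, -228, -6, 1830]]⟩

theorem okM4_3 : cellOKD 1025 PM 8 M4_3 = true := by decide +kernel

def M4_4 : CellD := ⟨1013, 10, [],
    [[242], [-109, 153], [19, -27, 320], [-38, 146, -381, 345], [0, -12, 65, -116, 617],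
     [-7, 17, 470, -501, 196, 316], [-57, 24, -20, 11, 473, 4, 1162],
     [18, 135, -127, -196, 173, -48, 14, 448]]⟩

theorem okM4_4 : cellOKD 1025 PM 8 M4_4 = true := by decide +kernel

def cM4 : List CellD := [M4_0, M4_1, M4_2, M4_3, M4_4]

theorem cM4_ok : cM4.all (cellOKD 1025 PM 8) = true := by
  simp only [cM4, List.all_cons, List.all_nil, okM4_0, okM4_1, okM4_2, okM4_3, okM4_4, Bool.and_true]

end PLT.Cq
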