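import Pool.Agent.PLT.CqM4

/-!
# PLT/CqM5 (helper52): cells of the difference channel, part 5 (the modules are chained to limit the memory of a build)
-/

set_option autoImplicit false
set_option maxRecDepth 100000

namespace PLT.Cq

open PHK

def M5_0 : CellD := ⟨1015, 10, [],
    [[267], [-110, 172], [21, -25, 382], [-54, 167, -397, 375], [-8, -10, 51, -125, 685],
     [3, 5, 538, -583, 242, 351], [-72, 34, -36, 25, 528, 1, 1293], [6, 138, -237, -257, 274, -37, 36, 461]]⟩

theorem okM5_0 : cellOKD 1025 PM 8 M5_0 = true := by decide +kernel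

def M5_1 : CellD := ⟨2033, 11, [],
    [[586], [-222, 386], [46, -45, 902], [-136, 373, -780, 798], [-35, -10, 50, -260, 1506],
     [16, 3, 1053, -1214, 526, 735], [-175, 89, -98, 75, 1176, -1, 2854],
     [-12, 275, -786, -764, 871, -22, 123, 999]]⟩

theorem okM5_1 : cellOKD 1025 PM 8 M5_1 = true := by decide +kernel

def M5_2 : CellD := ⟨2035, 11, [],
    [[79], [-28, 53], [6, -5, 128], [-20, 51, -93, 105], [-6, 0, -1, -33, 203], [2, 1, 121, -152, 68, 94],
     [-26, 14, -14, 12, 161, 0, 386], [-3, 32, -144, -140, 159, 7, 20, 139]]⟩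

theorem okM5_2 : cellOKD 1025 PM 8 M5_2 = true := by decide +kernel

def M5_3 : CellD := ⟨4073, 12, [],
    [[335], [-114, 231], [24, -16, 568], [-91, 220, -347, 438], [-33, 6, -28, -136, 868],
     [9, 4, 437, -605, 280, 382], [-116, 66, -62, 55, 694, -1, 1653],
     [-14, 107, -790, -786, 868, 85, 83, 612]]⟩

theorem okM5_3 : cellOKD 1025 PM 8 M5_3 = true := by decide +kernel

def cM5 : List CellD := [M5_0, M5_1, M5_2, M5_3]

theorem cM5_ok : cM5.all (cellOKD 1025 PM 8) = true := by
  simp only [cM5, List.all_cons, List.all_nil, okM5_0, okM5_1, okM5_2, okM5_3, Bool.and_true]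

end PLT.Cq
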