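import Pool.Agent.PLT.CqM5

/-!
# PLT/CqM6 (helper52): cells of the difference channel, part 6 (the modules are chained to limit the memory of a build)
-/

set_option autoImplicit false
set_option maxRecDepth 100000

namespace PLT.Cq

open PHK

def M6_0 : CellD := ⟨4075, 12, [],
    [[702], [-232, 491], [45, -27, 1222], [-201, 467, -653, 907], [-77, 20, -96, -278, 1825],
     [19, 8, 802, -1215, 577, 778], [-255, 151, -128, 125, 1471, -1, 3481],
     [-16, 153, -1914, -1940, 2076, 273, 137, 1280]]⟩

theorem okM6_0 : cellOKD 1025 PM 8 M6_0 = true := by decide +kernel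

def M6_1 : CellD := ⟨4077, 12, [],
    [[92], [-30, 66], [5, -3, 165], [-28, 63, -75, 118], [-11, 4, -17, -36, 241], [2, 1, 90, -154, 75, 100],
     [-35, 22, -16, 18, 196, 0, 461], [2, 7, -270, -279, 287, 47, 8, 156]]⟩

theorem okM6_1 : cellOKD 1025 PM 8 M6_1 = true := by decide +kernel

def M6_2 : CellD := ⟨4079, 12, [],
    [[391], [-123, 284], [18, -7, 711], [-126, 272, -274, 498], [-51, 22, -92, -146, 1026],
     [11, 1, 321, -630, 316, 413], [-158, 103, -67, 85, 843, -2, 1968],
     [30, -26, -1088, -1143, 1118, 221, -28, 544]]⟩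

theorem okM6_2 : cellOKD 1025 PM 8 M6_2 = true := by decide +kernel

def M6_3 : CellD := ⟨4081, 12, [],
    [[104], [-32, 77], [4, -1, 193], [-36, 75, -61, 132], [-15, 7, -29, -38, 275],
     [3, -1, 70, -164, 84, 108], [-45, 31, -17, 26, 229, -1, 530], [13, -18, -247, -264, 243, 56, -22, 108]]⟩

theorem okM6_3 : cellOKD 1025 PM 8 M6_3 = true := by decide +kernel

def cM6 : List CellD := [M6_0, M6_1, M6_2, M6_3]

theorem cM6_ok : cM6.all (cellOKD 1025 PM 8) = true := by
  simp only [cM6, List.all_cons, List.all_nil, okM6_0, okM6_1, okM6_2, okM6_3, Bool.and_true]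

end PLT.Cq
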