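import Pool.Agent.PLT.CqM6

/-!
# PLT/CqM7 (helper52): cells of the difference channel, part 7 (the modules are chained to limit the memory of a build)
-/

set_option autoImplicit false
set_option maxRecDepth 100000

namespace PLT.Cq

open PHK

def M7_0 : CellD := ⟨4083, 12, [],
    [[225], [-68, 171], [5, 1, 421], [-84, 167, -108, 286], [-34, 20, -71, -78, 598],
     [9, -6, 119, -348, 182, 230], [-103, 74, -33, 63, 504, -3, 1159],
     [36, -50, -429, -465, 398, 107, -70, 165]]⟩

theorem okM7_0 : cellOKD 1025 PM 8 M7_0 = true := by decide +kernel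

def M7_1 : CellD := ⟨2043, 11, [],
    [[523], [-156, 410], [-1, 8, 985], [-217, 407, -176, 665], [-87, 66, -182, -168, 1401],
     [30, -28, 182, -794, 420, 527], [-265, 206, -63, 178, 1210, -12, 2747],
     [91, -121, -682, -754, 565, 188, -197, 224]]⟩

theorem okM7_1 : cellOKD 1025 PM 8 M7_1 = true := by decide +kernel

def M7_2 : CellD := ⟨2045, 11, [],
    [[91], [-27, 74], [-3, 2, 172], [-43, 75, -19, 116], [-17, 16, -33, -26, 247],
     [8, -8, 16, -137, 72, 91], [-53, 44, -8, 39, 221, -4, 493], [13, -16, -64, -72, 44, 19, -29, 18]]⟩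

theorem okM7_2 : cellOKD 1025 PM 8 M7_2 = true := by decide +kernel

def M7_3 : CellD := ⟨4093, 12, [],
    [[156], [-46, 129], [-6, 5, 292], [-77, 132, -23, 200], [-32, 32, -57, -41, 425],
     [16, -17, 17, -233, 120, 155], [-97, 84, -10, 75, 389, -8, 857], [12, -15, -52, -60, 32, 16, -29, 14]]⟩

theorem okM7_3 : cellOKD 1025 PM 8 M7_3 = true := by decide +kernel

def M7_4 : CellD := ⟨2048, 11, [1, 1, 1, 1, 1, 1, 1, 0],
    [[98], [-29, 82], [-4, 3, 183], [-50, 84, -13, 126], [-20, 21, -36, -25, 267],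
     [11, -12, 9, -146, 75, 97], [-62, 55, -6, 49, 247, -6, 542], [0, 0, 0, 0, 0, 0, 0, 6]]⟩

theorem okM7_4 : cellOKD 1025 PM 8 M7_4 = true := by decide +kernel

def cM7 : List CellD := [M7_0, M7_1, M7_2, M7_3, M7_4]

theorem cM7_ok : cM7.all (cellOKD 1025 PM 8) = true := by
  simp only [cM7, List.all_cons, List.all_nil, okM7_0, okM7_1, okM7_2, okM7_3, okM7_4, Bool.and_true]

end PLT.Cq
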