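import Pool.Agent.PLT.CtM6

/-!
# PLT/CtM7 (helper52): cells of the difference channel, part 7 (the modules are chained to limit the memory of a build)
-/

set_option autoImplicit false
set_option maxRecDepth 100000

namespace PLT.Ct

open PHK

def M7_0 : CellD := ⟨4085, 12, [],
    [[208], [-28, 108], [11, 22, 201], [36, 99, 22, 148], [101, -27, -61, -101, 302],
     [22, 117, 72, -79, 63, 126], [-26, 52, 24, 13, 418, 20, 537], [31, -93, -208, -178, 143, -20, -69, 61]]⟩

theorem okM7_0 : cellOKD 961 PM 8 M7_0 = true := by decide +kernel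

def M7_1 : CellD := ⟨4087, 12, [],
    [[7801], [-976, 4007], [360, 931, 7325], [1199, 3852, 1248, 5423], [4144, -1131, -2508, -3842, 11221],
     [906, 4379, 2615, -2689, 2286, 4518], [-1078, 2155, 1095, 648, 15084, 778, 19596],
     [1191, -3117, -6114, -5135, 3768, -615, -2417, 1556]]⟩

theorem okM7_1 : cellOKD 961 PM 8 M7_1 = true := by decide +kernel

def M7_2 : CellD := ⟨2045, 11, [],
    [[337], [-38, 170], [11, 46, 303], [42, 175, 75, 227], [203, -58, -120, -170, 480],
     [43, 188, 109, -103, 94, 184], [-55, 106, 60, 38, 618, 34, 818],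
     [46, -99, -169, -139, 90, -18, -82, 36]]⟩

theorem okM7_2 : cellOKD 961 PM 8 M7_2 = true := by decide +kernel

def M7_3 : CellD := ⟨4093, 12, [],
    [[300], [-32, 150], [7, 45, 262], [31, 161, 78, 198], [198, -58, -115, -155, 427],
     [40, 168, 95, -85, 81, 158], [-56, 103, 63, 41, 530, 31, 714], [25, -47, -74, -61, 36, -8, -41, 14]]⟩

theorem okM7_3 : cellOKD 961 PM 8 M7_3 = true := by decide +kernel

def M7_4 : CellD := ⟨2048, 11, [1, 1, 1, 1, 1, 1, 1, 0],
    [[193], [-20, 96], [4, 30, 166], [18, 105, 53, 127], [132, -39, -76, -101, 274],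
     [26, 108, 61, -53, 52, 100], [-38, 69, 43, 29, 336, 20, 456], [0, 0, 0, 0, 0, 0, 0, 6]]⟩

theorem okM7_4 : cellOKD 961 PM 8 M7_4 = true := by decide +kernel

def cM7 : List CellD := [M7_0, M7_1, M7_2, M7_3, M7_4]

theorem cM7_ok : cM7.all (cellOKD 961 PM 8) = true := by
  simp only [cM7, List.all_cons, List.all_nil, okM7_0, okM7_1, okM7_2, okM7_3, okM7_4, Bool.and_true]

end PLT.Ct
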