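import Pool.Agent.PLT.Link8
import Pool.Agent.PLT.Cell8

/-!
# PLT/RegA8 (helper52): from the cells to `Reg8`

`reg8_of`: a table `P` with `P (max i j) (min i j) = col (kpl8 q (kt8 i j) ++ shf8 (BL8 q t s i j))` (checked by `decide`)
and nonnegative forms of `P` for `lo ≤ y ≤ 1` give `Reg8 q t s lo 1`.
-/

set_option autoImplicit false

namespace PLT

open Finset PHK

/-- one exponent up -/
def shf8 (p : SP) : SP := p.map fun a => (a.1, a.2 + 1)

theorem ev_shf8 (p : SP) (y : ℝ) : ev (shf8 p) y = y * ev p y := by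
  induction p with
  | nil => simp [shf8, ev]
  | cons a p ih =>
    have e : shf8 (a :: p) = (a.1, a.2 + 1) :: shf8 p := rfl
    rw [e, ev_cons, ev_cons, ih, pow_succ]
    ring

/-- `-2 k κ (1 - y) (1 - y ^ (8 m))` -/
def kpl8 (q : Pt) (κ : ℤ) : SP :=
  [(-2 * q.k * κ, 0), (2 * q.k * κ, 1), (2 * q.k * κ, (8 * q.m).toNat), (-2 * q.k * κ, (8 * q.m).toNat + 1)]

theorem ev_kpl8 (q : Pt) (κ : ℤ) (y : ℝ) :
    ev (kpl8 q κ) y = -(2 * (q.k : ℝ) * κ * (1 - y) * (1 - y ^ (8 * q.m).toNat)) := by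
  simp only [kpl8, ev_cons, ev_nil, pow_succ]
  push_cast
  ring

/-- charges of the cores, integers -/
def kt8 (i j : Fin 8) : ℤ :=
  match xi8 i, xi8 j with
  | .inl K, .inl K' => kpZ true K K'
  | _, _ => 0

theorem kap8_kt8 (i j : Fin 8) : kap8 i j = ((kt8 i j : ℤ) : ℝ) := by
  unfold kap8 kt8
  rcases xi8 i with K | β <;> rcases xi8 j with K' | β' <;> simp [kpZ_kapS8]

theorem kap8_nonneg (u : Fin 8 → ℝ) : 0 ≤ ∑ i, ∑ j, kap8 i j * u i * u j := by
  have h := kapS_nonneg fun K => u (ix8 (.inl K))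
  have e : ∑ i, ∑ j, kap8 i j * u i * u j =
      ∑ K, ∑ K', u (ix8 (.inl K)) * u (ix8 (.inl K')) * kapS K K' := by
    rw [sum8]
    simp only [sum8]
    have k1 : ∀ K K', kap8 (ix8 (.inl K)) (ix8 (.inl K')) = kapS K K' := by
      intro K K'; unfold kap8; rw [xi_ix8, xi_ix8]
    have k2 : ∀ K β, kap8 (ix8 (.inl K)) (ix8 (.inr β)) = 0 := by
      intro K β; unfold kap8; rw [xi_ix8, xi_ix8]
    have k3 : ∀ K β, kap8 (ix8 (.inr β)) (ix8 (.inl K)) = 0 := by
      intro K β; unfold kap8; rw [xi_ix8, xi_ix8]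
    have k4 : ∀ β β', kap8 (ix8 (.inr β)) (ix8 (.inr β')) = 0 := by
      intro β β'; unfold kap8; rw [xi_ix8, xi_ix8]
    simp only [k1, k2, k3, k4, zero_mul, Finset.sum_const_zero, add_zero]
    refine Finset.sum_congr rfl fun K _ => Finset.sum_congr rfl fun K' _ => ?_
    ring
  rw [e]
  exact h

/-- **from the table to `Reg8`** -/
theorem reg8_of {q : Pt} (hq : 0 < q.k) {t : Tb8} {s : Bool} {lo : ℝ} (P : ℕ → ℕ → SP)
    (hl : ∀ i j : Fin 8, P (max (i : ℕ) j) (min (i : ℕ) j) = col (kpl8 q (kt8 i j) ++ shf8 (BL8 q t s i j)))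
    (hP : ∀ y : ℝ, lo ≤ y → y ≤ 1 → ∀ u : ℕ → ℝ,
      0 ≤ ∑ i ∈ range 8, ∑ j ∈ range 8, PHK.mt P y i j * u i * u j) : Reg8 q t s lo 1 := by
  intro z hz hlo _ v
  have hm : 0 < q.m := by unfold Pt.m; omega
  have hm' : (0 : ℝ) < q.m := by exact_mod_cast hm
  have hmk : (q.m : ℝ) = 4 * q.k := by unfold Pt.m; push_cast; ring
  set y := Real.exp (-(z / q.m)) with hy
  have hy0 : 0 < y := Real.exp_pos _
  have hzm : 0 < z / q.m := div_pos hz hm'
  have hy1 : y ≤ 1 := by rw [hy]; exact Real.exp_le_one_iff.2 (by linarith)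
  have h2 := hP y hlo hy1 (fun i => if h : i < 8 then v ⟨i, h⟩ else 0)
  rw [Finset.sum_range] at h2
  have e1 : ∑ i : Fin 8, ∑ j ∈ range 8, PHK.mt P y i j * (if h : (i : ℕ) < 8 then v ⟨i, h⟩ else 0) *
      (if h : j < 8 then v ⟨j, h⟩ else 0) = ∑ i : Fin 8, ∑ j : Fin 8, PHK.mt P y i j * v i * v j := by
    refine Finset.sum_congr rfl fun i _ => ?_
    rw [Finset.sum_range]
    refine Finset.sum_congr rfl fun j _ => ?_
    rw [dif_pos i.2, dif_pos j.2]
  rw [e1] at h2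
  have hmt : ∀ i j : Fin 8, PHK.mt P y i j =
      y * ev (BL8 q t s i j) y - 2 * q.k * (1 - y) * (1 - y ^ (8 * q.m).toNat) * kap8 i j := by
    intro i j
    unfold PHK.mt
    rw [hl i j, ev_col, ev_append, ev_kpl8, ev_shf8, kap8_kt8]
    ring
  set τ := 1 - Real.exp (-(z / 1024)) with hτ
  have h7 : τ * y ≤ (1 - y) * (q.m / 1024) := by
    have h1 : 1 - z / 1024 ≤ Real.exp (-(z / 1024)) := by
      have := Real.add_one_le_exp (-(z / 1024))
      linarith
    have h2 : z / q.m + 1 ≤ Real.exp (z / q.m) := Real.add_one_le_exp _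
    have h3 : Real.exp (z / q.m) * y = 1 := by rw [hy, ← Real.exp_add]; simp
    have h4 : τ ≤ z / 1024 := by linarith
    have h5 : (z / q.m + 1) * y ≤ 1 := by
      have := mul_le_mul_of_nonneg_right h2 hy0.le
      rwa [h3] at this
    have h6 : τ * y ≤ z / 1024 * y := mul_le_mul_of_nonneg_right h4 hy0.le
    have h8 : z / 1024 * y = (z / q.m * y) * (q.m / 1024) := by field_simp
    rw [h8] at h6
    refine h6.trans (mul_le_mul_of_nonneg_right (by linarith) (by positivity))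
  have h3 := kap8_nonneg v
  have hp : y ^ (8 * q.m).toNat ≤ 1 := pow_le_one₀ hy0.le hy1
  set c : ℝ := 512 * (1 - y ^ (8 * q.m).toNat) * ((1 - y) * (q.m / 1024) - τ * y) with hc
  have hc0 : 0 ≤ c := by
    have h9 : 0 ≤ 1 - y ^ (8 * q.m).toNat := by linarith
    have h4 : 0 ≤ (1 - y) * (q.m / 1024) - τ * y := by linarith
    positivity
  have e2 : y * ∑ i, ∑ j, (ev (BL8 q t s i j) y - co8 q z * kap8 i j) * v i * v j =
      ∑ i : Fin 8, ∑ j : Fin 8, PHK.mt P y i j * v i * v j + c * ∑ i, ∑ j, kap8 i j * v i * v j := by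
    rw [Finset.mul_sum, Finset.mul_sum, ← Finset.sum_add_distrib]
    refine Finset.sum_congr rfl fun i _ => ?_
    rw [Finset.mul_sum, Finset.mul_sum, ← Finset.sum_add_distrib]
    refine Finset.sum_congr rfl fun j _ => ?_
    rw [hmt, hc]
    unfold co8
    rw [← hy, ← hτ, hmk]
    ring
  have h5 : 0 ≤ y * ∑ i, ∑ j, (ev (BL8 q t s i j) y - co8 q z * kap8 i j) * v i * v j := by
    rw [e2]; exact add_nonneg h2 (mul_nonneg hc0 h3)
  exact nonneg_of_mul_nonneg_right h5 hy0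

end PLT
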