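import Pool.Agent.PLT.Tab8
import Pool.Agent.PLT.RegA8
import Pool.Agent.PLT.CtM7

/-!
# PLT/LinkTh (helper52): the tables of the cells are the lists `BL8 qTh tbTh`
-/

set_option autoImplicit false
set_option maxRecDepth 100000

namespace PLT

open Finset PHK

theorem lnkP : ∀ i j : Fin 8, Ct.PP (max (i : ℕ) j) (min (i : ℕ) j) =
    col (kpl8 qTh (kt8 i j) ++ shf8 (BL8 qTh tbTh true i j)) := by
  decide +kernel

theorem lnkM : ∀ i j : Fin 8, Ct.PM (max (i : ℕ) j) (min (i : ℕ) j) =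
    col (kpl8 qTh (kt8 i j) ++ shf8 (BL8 qTh tbTh false i j)) := by
  decide +kernel

end PLT
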