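import Pool.Agent.PLT.CqTab
import Pool.Agent.PLT.LinkTh

/-!
# PLT/CqP1 (helper52): cells of the sum channel, part 1 (the modules are chained to limit the memory of a build)
-/

set_option autoImplicit false
set_option maxRecDepth 100000

namespace PLT.Cq

open PHK

def P1_0 : CellD := ⟨37, 6, [],
    [[1998], [0, 1998], [0, -14, 1998], [0, -8, -1153, 2307], [374, 0, 0, 0, 2033], [0, 0, 0, 0, 0, 1998],
     [-584, 0, 0, 0, 323, 0, 2024], [0, 0, 0, 0, 0, 0, -675, 2021]]⟩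

theorem okP1_0 : cellOKD 1025 PP 8 P1_0 = true := by decide +kernel

def P1_1 : CellD := ⟨39, 6, [],
    [[484], [0, 484], [0, -5, 484], [0, -3, -279, 558], [100, 0, 0, 0, 494], [0, 0, 0, 0, 0, 484],
     [-146, 0, 0, 0, 93, 0, 498], [0, 0, 0, 0, 0, 0, -185, 499]]⟩

theorem okP1_1 : cellOKD 1025 PP 8 P1_1 = true := by decide +kernel

def P1_2 : CellD := ⟨41, 6, [],
    [[235], [0, 235], [0, -4, 235], [0, -2, -135, 271], [53, 0, 0, 0, 240], [0, 0, 0, 0, 0, 235],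
     [-73, 0, 0, 0, 53, 0, 246], [0, 0, 0, 0, 0, 0, -102, 248]]⟩

theorem okP1_2 : cellOKD 1025 PP 8 P1_2 = true := by decide +kernel

def P1_3 : CellD := ⟨43, 6, [],
    [[28], [0, 28], [0, -1, 28], [0, 0, -16, 33], [7, 0, 0, 0, 29], [0, 0, 0, 0, 0, 28],
     [-9, 0, 0, 0, 8, 0, 30], [0, 0, 0, 0, 0, 0, -14, 31]]⟩

theorem okP1_3 : cellOKD 1025 PP 8 P1_3 = true := by decide +kernel

def cP1 : List CellD := [P1_0, P1_1, P1_2, P1_3]

theorem cP1_ok : cP1.all (cellOKD 1025 PP 8) = true := by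
  simp only [cP1, List.all_cons, List.all_nil, okP1_0, okP1_1, okP1_2, okP1_3, Bool.and_true]

end PLT.Cq
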