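import Pool.Agent.PLT.CqP1

/-!
# PLT/CqP2 (helper52): cells of the sum channel, part 2 (the modules are chained to limit the memory of a build)
-/

set_option autoImplicit false
set_option maxRecDepth 100000

namespace PLT.Cq

open PHK

def P2_0 : CellD := ⟨45, 6, [],
    [[55], [0, 55], [0, -2, 55], [0, -1, -32, 64], [15, 0, 0, 0, 57], [0, 0, 0, 0, 0, 55],
     [-18, 0, 0, 0, 18, 0, 61], [0, 0, 0, 0, 0, 0, -31, 62]]⟩

theorem okP2_0 : cellOKD 1025 PP 8 P2_0 = true := by decide +kernel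

def P2_1 : CellD := ⟨47, 6, [],
    [[27], [0, 27], [0, -1, 27], [0, -1, -16, 31], [8, 0, 0, 0, 28], [0, 0, 0, 0, 0, 27],
     [-9, 0, 0, 0, 10, 0, 30], [0, 0, 0, 0, 0, 0, -17, 31]]⟩

theorem okP2_1 : cellOKD 1025 PP 8 P2_1 = true := by decide +kernel

def P2_2 : CellD := ⟨49, 6, [],
    [[422], [0, 422], [0, -26, 423], [0, -15, -243, 487], [135, 0, 0, 0, 443], [-2, 0, 0, 0, 1, 422],
     [-137, 0, 0, 0, 185, -2, 487], [0, 0, 0, 0, 0, -3, -299, 511]]⟩

theorem okP2_2 : cellOKD 1025 PP 8 P2_2 = true := by decide +kernel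

def P2_3 : CellD := ⟨51, 6, [],
    [[52], [0, 52], [0, -4, 52], [0, -3, -30, 60], [18, 0, 0, 0, 55], [0, 0, 0, 0, 0, 52],
     [-17, 0, 0, 0, 27, 0, 62], [0, 0, 0, 0, 0, -1, -42, 66]]⟩

theorem okP2_3 : cellOKD 1025 PP 8 P2_3 = true := by decide +kernel

def cP2 : List CellD := [P2_0, P2_1, P2_2, P2_3]

theorem cP2_ok : cP2.all (cellOKD 1025 PP 8) = true := by
  simp only [cP2, List.all_cons, List.all_nil, okP2_0, okP2_1, okP2_2, okP2_3, Bool.and_true]

end PLT.Cq
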