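import Pool.Agent.PLT.CqP2

/-!
# PLT/CqP3 (helper52): cells of the sum channel, part 3 (the modules are chained to limit the memory of a build)
-/

set_option autoImplicit false
set_option maxRecDepth 100000

namespace PLT.Cq

open PHK

def P3_0 : CellD := ⟨53, 6, [],
    [[50], [0, 50], [0, -6, 51], [0, -3, -29, 58], [19, 0, 0, 0, 54], [-1, 0, 0, 0, 0, 50],
     [-16, 0, 0, 0, 31, -1, 63], [0, 0, 0, 0, 0, -1, -47, 68]]⟩

theorem okP3_0 : cellOKD 1025 PP 8 P3_0 = true := by decide +kernel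

def P3_1 : CellD := ⟨55, 6, [],
    [[49], [0, 49], [0, -8, 50], [0, -4, -28, 57], [20, 0, 0, 0, 53], [-1, 0, 0, 0, 1, 49],
     [-15, 0, 0, 0, 37, -1, 66], [0, 0, 0, 0, 0, -2, -53, 72]]⟩

theorem okP3_1 : cellOKD 1025 PP 8 P3_1 = true := by decide +kernel

def P3_2 : CellD := ⟨57, 6, [],
    [[387], [0, 387], [-1, -79, 395], [0, -47, -215, 449], [170, 0, 1, 0, 422], [-20, 0, 1, 0, 11, 388],
     [-109, 0, 0, 0, 361, -15, 565], [1, 0, 0, 0, 0, -21, -499, 631]]⟩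

theorem okP3_2 : cellOKD 1025 PP 8 P3_2 = true := by decide +kernel

def P3_3 : CellD := ⟨59, 6, [],
    [[47], [0, 47], [-1, -13, 49], [0, -8, -25, 55], [23, 0, 1, 0, 53], [-4, 0, 1, 0, 3, 48],
     [-12, 0, 0, 0, 57, -3, 79], [0, 0, 0, 0, 0, -4, -76, 90]]⟩

theorem okP3_3 : cellOKD 1025 PP 8 P3_3 = true := by decide +kernel

def cP3 : List CellD := [P3_0, P3_1, P3_2, P3_3]

theorem cP3_ok : cP3.all (cellOKD 1025 PP 8) = true := by
  simp only [cP3, List.all_cons, List.all_nil, okP3_0, okP3_1, okP3_2, okP3_3, Bool.and_true]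

end PLT.Cq
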