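import Pool.Agent.PLT.CqP3

/-!
# PLT/CqP4 (helper52): cells of the sum channel, part 4 (the modules are chained to limit the memory of a build)
-/

set_option autoImplicit false
set_option maxRecDepth 100000

namespace PLT.Cq

open PHK

def P4_0 : CellD := ⟨61, 6, [],
    [[1497], [-43, 1507], [-89, -472, 1564], [-44, -382, -591, 1737], [779, -93, 155, -29, 1689],
     [-241, 53, 139, -29, 189, 1539], [-279, 15, 9, 13, 2505, -136, 3052],
     [23, 5, 3, 3, 5, -162, -3213, 3569]]⟩

theorem okP4_0 : cellOKD 1025 PP 8 P4_0 = true := by decide +kernel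

def P4_1 : CellD := ⟨125, 7, [],
    [[194], [-25, 193], [-20, -41, 199], [-22, -68, -10, 236], [107, -55, 64, 13, 228],
     [-53, 45, 59, -1, 38, 213], [-11, 4, 6, 6, 470, -19, 513], [7, -2, 4, 4, 5, -21, -578, 613]]⟩

theorem okP4_1 : cellOKD 1025 PP 8 P4_1 = true := by decide +kernel

def P4_2 : CellD := ⟨505, 9, [],
    [[1717], [-431, 1592], [-106, -188, 1709], [-284, -582, 391, 2479], [969, -878, 1166, 701, 2190],
     [-605, 729, 1231, 475, 522, 2187], [123, 4, 219, 182, 5219, -72, 5322],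
     [102, -56, 174, 171, 200, -95, -6067, 6359]]⟩

theorem okP4_2 : cellOKD 1025 PP 8 P4_2 = true := by decide +kernel

def P4_3 : CellD := ⟨1013, 10, [],
    [[114], [-36, 101], [-3, -13, 111], [-20, -41, 35, 183], [68, -74, 103, 78, 156],
     [-39, 48, 133, 80, 60, 171], [14, -2, 32, 27, 386, 7, 378], [8, -6, 25, 25, 28, 3, -425, 449]]⟩

theorem okP4_3 : cellOKD 1025 PP 8 P4_3 = true := by decide +kernel

def cP4 : List CellD := [P4_0, P4_1, P4_2, P4_3]

theorem cP4_ok : cP4.all (cellOKD 1025 PP 8) = true := by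
  simp only [cP4, List.all_cons, List.all_nil, okP4_0, okP4_1, okP4_2, okP4_3, Bool.and_true]

end PLT.Cq
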