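import Pool.Agent.PLT.CqP4

/-!
# PLT/CqP5 (helper52): cells of the sum channel, part 5 (the modules are chained to limit the memory of a build)
-/

set_option autoImplicit false
set_option maxRecDepth 100000

namespace PLT.Cq

open PHK

def P5_0 : CellD := ⟨1015, 10, [],
    [[122], [-44, 103], [0, -16, 114], [-22, -48, 39, 211], [76, -93, 127, 110, 175],
     [-36, 41, 209, 156, 101, 221], [20, -4, 66, 58, 455, 32, 426], [10, -10, 55, 54, 60, 23, -464, 501]]⟩

theorem okP5_0 : cellOKD 1025 PP 8 P5_0 = true := by decide +kernel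

def P5_1 : CellD := ⟨2033, 11, [],
    [[129], [-52, 106], [4, -21, 117], [-24, -58, 39, 238], [84, -111, 143, 131, 190],
     [-33, 30, 291, 241, 143, 285], [25, -9, 119, 107, 540, 74, 481],
     [13, -16, 104, 103, 114, 61, -496, 560]]⟩

theorem okP5_1 : cellOKD 1025 PP 8 P5_1 = true := by decide +kernel

def P5_2 : CellD := ⟨2035, 11, [],
    [[68], [-30, 54], [3, -13, 60], [-13, -33, 19, 131], [44, -61, 75, 70, 99],
     [-16, 12, 170, 147, 81, 167], [15, -6, 80, 73, 305, 57, 265], [8, -11, 74, 74, 82, 49, -261, 306]]⟩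

theorem okP5_2 : cellOKD 1025 PP 8 P5_2 = true := by decide +kernel

def P5_3 : CellD := ⟨1019, 10, [],
    [[150], [-73, 116], [10, -35, 127], [-33, -85, 32, 312], [98, -137, 158, 138, 211],
     [-32, 28, 372, 321, 157, 398], [38, -11, 194, 172, 708, 159, 620],
     [20, -27, 185, 189, 210, 142, -585, 711]]⟩

theorem okP5_3 : cellOKD 1025 PP 8 P5_3 = true := by decide +kernel

def cP5 : List CellD := [P5_0, P5_1, P5_2, P5_3]

theorem cP5_ok : cP5.all (cellOKD 1025 PP 8) = true := by
  simp only [cP5, List.all_cons, List.all_nil, okP5_0, okP5_1, okP5_2, okP5_3, Bool.and_true]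

end PLT.Cq
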