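import Pool.Agent.PLT.CqP5

/-!
# PLT/CqP6 (helper52): cells of the sum channel, part 6 (the modules are chained to limit the memory of a build)
-/

set_option autoImplicit false
set_option maxRecDepth 100000

namespace PLT.Cq

open PHK

def P6_0 : CellD := ⟨2041, 11, [],
    [[87], [-48, 66], [8, -24, 72], [-24, -58, 13, 201], [57, -77, 85, 62, 117],
     [-18, 25, 192, 157, 63, 234], [25, 0, 102, 80, 418, 98, 379], [12, -14, 95, 99, 112, 83, -354, 429]]⟩

theorem okP6_0 : cellOKD 1025 PP 8 P6_0 = true := by decide +kernel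

def P6_1 : CellD := ⟨2043, 11, [],
    [[104], [-60, 77], [11, -32, 84], [-33, -77, 11, 259], [69, -87, 97, 54, 136],
     [-19, 38, 214, 163, 57, 282], [34, 8, 118, 79, 504, 125, 466], [15, -14, 105, 110, 128, 101, -429, 522]]⟩

theorem okP6_1 : cellOKD 1025 PP 8 P6_1 = true := by decide +kernel

def P6_2 : CellD := ⟨2045, 11, [],
    [[287], [-173, 211], [33, -92, 229], [-105, -233, 21, 770], [196, -228, 262, 94, 367],
     [-45, 122, 570, 399, 124, 794], [105, 42, 334, 179, 1425, 380, 1331],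
     [42, -33, 285, 295, 355, 292, -1195, 1467]]⟩

theorem okP6_2 : cellOKD 1025 PP 8 P6_2 = true := by decide +kernel

def P6_3 : CellD := ⟨4093, 12, [],
    [[122], [-75, 90], [14, -40, 97], [-48, -104, 7, 341], [85, -93, 111, 27, 155],
     [-17, 56, 241, 160, 47, 343], [48, 23, 147, 67, 616, 172, 578],
     [18, -12, 122, 125, 154, 130, -510, 630]]⟩

theorem okP6_3 : cellOKD 1025 PP 8 P6_3 = true := by decide +kernel

def P6_4 : CellD := ⟨2048, 11, [1, 1, 1, 1, 1, 1, 1, 1],
    [[153], [-95, 112], [18, -51, 121], [-62, -133, 8, 435], [108, -116, 139, 27, 195],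
     [-20, 72, 302, 196, 57, 433], [62, 32, 187, 80, 778, 222, 731],
     [24, -15, 154, 157, 195, 165, -640, 794]]⟩

theorem okP6_4 : cellOKD 1025 PP 8 P6_4 = true := by decide +kernel

def cP6 : List CellD := [P6_0, P6_1, P6_2, P6_3, P6_4]

theorem cP6_ok : cP6.all (cellOKD 1025 PP 8) = true := by
  simp only [cP6, List.all_cons, List.all_nil, okP6_0, okP6_1, okP6_2, okP6_3, okP6_4, Bool.and_true]

end PLT.Cq
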