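import Pool.Agent.PLT.StatNC

/-!
# Sea on a curve: constituents, multiplicative and additive insertions

Twin of `PHK/Cst6` (second half) for curves given by complex displacements; the objects are the landed
ones (`obF6`, `obT6`, `stO6`).
* `quFC`: the factor of the quanta on their curves (`stQC`, `stAC`: `PLT/StatNC`); `quFC_dF`, `stQC_dF`;
* `FaC`: the multiplicative insertion; `gKC_mulG`, **`trmC_mul`, `trAC_mul`, `FFC_mul`, `FAC_mul`**;
* **`stAC`**: the total statistic; linearity, bound;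
* `csAC`: the constituents with multiplicities; `mem_csAC`, `tz_csAC_le`; `FaC_eq`, `stAC_eq`,
  `stAC_wz`, `FaC_tw`.
-/

set_option autoImplicit false
set_option linter.unusedSectionVars false

noncomputable section

open Complex MeasureTheory Finset
open scoped ENNReal
open PLX (Fil)

namespace PLT

open NUO NUP1 NUP1S NUP1S.Ab NUP1S.AbC NUGC NUGC.PLX NUCR PHK
open PBF.PLX (Ins Crs Zm quF stQ)

variable {r : ℕ}

/-! ### quanta -/

/-- the factor of the quanta -/
def quFC (g : Bool → Option O3 → ℂ → ℂ) (D : Bool → ℝ → ℂ) {a b : ℕ}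
    (x : (Fin a → ℝ) × (Fin b → ℝ)) : ℂ :=
  (∏ i, g true none (ptC D true (x.1 i))) * ∏ j, g false none (ptC D false (x.2 j))

theorem norm_stQC_le {S : Bool → Option O3 → ℂ → ℂ} {D : Bool → ℝ → ℂ} {a b : ℕ}
    {x : (Fin a → ℝ) × (Fin b → ℝ)} {C : ℝ} (h1 : ∀ i, ‖S true none (ptC D true (x.1 i))‖ ≤ C)
    (h2 : ∀ j, ‖S false none (ptC D false (x.2 j))‖ ≤ C) : ‖stQC S D a b x‖ ≤ (a + b) * C := by
  unfold stQC
  refine (norm_add_le _ _).trans ?_
  have e1 : ‖∑ i, S true none (ptC D true (x.1 i))‖ ≤ a * C := by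
    refine (norm_sum_le _ _).trans ((Finset.sum_le_sum fun i _ => h1 i).trans (le_of_eq ?_))
    simp
  have e2 : ‖∑ j, S false none (ptC D false (x.2 j))‖ ≤ b * C := by
    refine (norm_sum_le _ _).trans ((Finset.sum_le_sum fun i _ => h2 i).trans (le_of_eq ?_))
    simp
  linarith

theorem hh_GC (G : Bool → ℂ → ℂ) (s : Bool) (D D1 : Bool → ℝ → ℂ) (t : ℝ) :
    hh p0 G (crvC s NUP1.l (D s) (D1 s)) t =
      (2 * Real.pi : ℂ)⁻¹ * (1 + D1 s t) * G s (ptC D s t) := by
  show (2 * Real.pi : ℂ)⁻¹ * (1 + D1 s t) * Wt p0 G s (vl NUP1.l t + I * D s t) = _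
  rw [Wt_p0]
  rfl

/-- factors of the one body functions of the quanta -/
theorem gKC_mulG (G : Bool → ℂ → ℂ) (g : Bool → Option O3 → ℂ → ℂ) (D D1 : Bool → ℝ → ℂ) {a b : ℕ}
    (x : (Fin a → ℝ) × (Fin b → ℝ)) :
    gKC (fun s z => G s z * g s none z) D D1 a b x = gKC G D D1 a b x * quFC g D x := by
  unfold gKC Fc quFC
  rw [Fintype.prod_sum_type, Fintype.prod_sum_type]
  have e : ∀ (s : Bool) (t : ℝ),
      hh p0 (fun s z => G s z * g s none z) (crvC s NUP1.l (D s) (D1 s)) t =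
      hh p0 G (crvC s NUP1.l (D s) (D1 s)) t * g s none (ptC D s t) := by
    intro s t
    rw [hh_GC, hh_GC]
    ring
  simp only [cCt, Sum.elim_inl, Sum.elim_inr, e]
  rw [Finset.prod_mul_distrib, Finset.prod_mul_distrib]
  ring

theorem gKC_mul (Z g : Bool → Option O3 → ℂ → ℂ) (P : Par6) (O : Fin r → Xo) (D D1 : Bool → ℝ → ℂ)
    {a b : ℕ} (x : (Fin a → ℝ) × (Fin b → ℝ)) :
    gKC (gF6 (Zm Z g) P O) D D1 a b x = gKC (gF6 Z P O) D D1 a b x * quFC g D x := by
  rw [← gKC_mulG]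
  congr 1
  funext s z
  show Z s none z * g s none z * potO6 P O s z = Z s none z * potO6 P O s z * g s none z
  ring

/-- **the multiplicative insertion** -/
def FaC (g : Bool → Option O3 → ℂ → ℂ) (P : Par6) (D : CrsC) : Ins := fun r O _ _ x =>
  (∏ i, obF6 g P (O i)) * quFC g (D r O) x

theorem trmC_mul (Z g : Bool → Option O3 → ℂ → ℂ) (P : Par6) (n n' : ℕ) (D D1 : CrsC) (Ψ : Ins)
    (r : ℕ) (O : Fin r → Xo) :
    trmC (Zm Z g) P n n' D D1 Ψ r O = trmC Z P n n' D D1 (fun r O a b x => FaC g P D r O a b x *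
      Ψ r O a b x) r O := by
  unfold trmC
  split_ifs
  · rw [wK6_mul]
    simp only [gKC_mul]
    unfold FaC
    have e : ∀ x, gKC (gF6 Z P O) (D r O) (D1 r O) (nA6 n O true) (nA6 n' O false) x *
        ((∏ i, obF6 g P (O i)) * quFC g (D r O) x * Ψ r O (nA6 n O true) (nA6 n' O false) x) =
        (∏ i, obF6 g P (O i)) *
        (gKC (gF6 Z P O) (D r O) (D1 r O) (nA6 n O true) (nA6 n' O false) x *
          quFC g (D r O) x * Ψ r O (nA6 n O true) (nA6 n' O false) x) := fun x => by ring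
    simp only [e]
    rw [integral_const_mul]
    ring
  · rfl

/-- **Multiplicative insertions are absorbed in the one body functions.** -/
theorem FFC_mul (Z g : Bool → Option O3 → ℂ → ℂ) (P : Par6) (n n' : ℕ) (D D1 : CrsC) (Ψ : Ins) :
    FFC (Zm Z g) P n n' D D1 Ψ = FFC Z P n n' D D1 (fun r O a b x => FaC g P D r O a b x *
      Ψ r O a b x) := by
  unfold FFC
  simp only [trmC_mul]

theorem trAC_mul (Z g : Bool → Option O3 → ℂ → ℂ) (P : Par6) (n n' : ℕ) (D D1 : CrsC) (Ψ : Ins)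
    (r : ℕ) (O : Fin r → Xo) :
    trAC (Zm Z g) P n n' D D1 Ψ r O = trAC Z P n n' D D1 (fun r O a b x => FaC g P D r O a b x *
      Ψ r O a b x) r O := by
  unfold trAC
  split_ifs
  · rw [wK6_mul]
    simp only [gKC_mul]
    unfold FaC
    have e : ∀ x, ‖gKC (gF6 Z P O) (D r O) (D1 r O) (nA6 n O true) (nA6 n' O false) x‖ₑ *
        ‖(∏ i, obF6 g P (O i)) * quFC g (D r O) x *
          Ψ r O (nA6 n O true) (nA6 n' O false) x‖ₑ =
        ‖∏ i, obF6 g P (O i)‖ₑ *
        (‖gKC (gF6 Z P O) (D r O) (D1 r O) (nA6 n O true) (nA6 n' O false) x *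
          quFC g (D r O) x‖ₑ * ‖Ψ r O (nA6 n O true) (nA6 n' O false) x‖ₑ) := fun x => by
      simp only [enorm_mul]
      ring
    simp only [e]
    rw [lintegral_const_mul' _ _ enorm_ne_top, enorm_mul]
    ring
  · rfl

theorem FAC_mul (Z g : Bool → Option O3 → ℂ → ℂ) (P : Par6) (n n' : ℕ) (D D1 : CrsC) (Ψ : Ins) :
    FAC (Zm Z g) P n n' D D1 Ψ = FAC Z P n n' D D1 (fun r O a b x => FaC g P D r O a b x *
      Ψ r O a b x) := by
  unfold FAC
  simp only [trAC_mul]

/-! ### the list of all constituents -/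

variable {a b : ℕ}

/-- the constituents of a configuration, quanta on the curves included -/
def csAC (P : Par6) (D : Bool → ℝ → ℂ) (O : Fin r → Xo) (x : (Fin a → ℝ) × (Fin b → ℝ)) :
    List Cst6 :=
  (List.ofFn fun i => cst6 P (O i)).flatten ++
    ((List.ofFn fun i => ((((true, none), ptC D true (x.1 i)), 1) : Cst6)) ++
      List.ofFn fun j => ((((false, none), ptC D false (x.2 j)), 1) : Cst6))

theorem mem_csAC {P : Par6} {D : Bool → ℝ → ℂ} {O : Fin r → Xo} {x : (Fin a → ℝ) × (Fin b → ℝ)}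
    {c : Cst6} : c ∈ csAC P D O x ↔ (∃ i, c ∈ cst6 P (O i)) ∨
      ((∃ i, (((true, none), ptC D true (x.1 i)), 1) = c) ∨
        ∃ j, (((false, none), ptC D false (x.2 j)), 1) = c) := by
  unfold csAC
  simp only [List.mem_append, List.mem_flatten, List.mem_ofFn]
  constructor
  · rintro (⟨L, ⟨i, rfl⟩, h⟩ | h | h)
    · exact Or.inl ⟨i, h⟩
    · exact Or.inr (Or.inl h)
    · exact Or.inr (Or.inr h)
  · rintro (⟨i, h⟩ | h | h)
    · exact Or.inl ⟨_, ⟨i, rfl⟩, h⟩
    · exact Or.inr (Or.inl h)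
    · exact Or.inr (Or.inr h)

theorem tz_flattenC {α : Type*} (L : List (List (α × ℤ))) : tz L.flatten = (L.map tz).sum := by
  induction L with
  | nil => rfl
  | cons A L ih => rw [List.flatten_cons, tz_append, ih, List.map_cons, List.sum_cons]

theorem tz_csAC_le (P : Par6) (D : Bool → ℝ → ℂ) (O : Fin r → Xo)
    (x : (Fin a → ℝ) × (Fin b → ℝ)) : tz (csAC P D O x) ≤ 4 * r + (a + b) := by
  unfold csAC
  rw [tz_append, tz_append, tz_flattenC, List.map_ofFn, List.sum_ofFn]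
  have h1 : ∀ {m : ℕ} (f : Fin m → (Bool × Option O3) × ℂ),
      tz (List.ofFn fun i => (f i, (1 : ℤ))) = m := by
    intro m f
    unfold tz
    rw [List.map_ofFn, List.sum_ofFn]
    simp
  refine Nat.add_le_add ?_ (Nat.add_le_add (h1 _).le (h1 _).le)
  calc _ ≤ ∑ _i : Fin r, 4 := Finset.sum_le_sum fun i _ => tz_cst6_le _ _
    _ = _ := by
      rw [Finset.sum_const, Finset.card_univ, Fintype.card_fin, smul_eq_mul, mul_comm]

/-- **the product over the constituents** -/
theorem FaC_eq (g : Bool → Option O3 → ℂ → ℂ) (P : Par6) (D : CrsC) (O : Fin r → Xo)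
    (x : (Fin a → ℝ) × (Fin b → ℝ)) :
    FaC g P D r O a b x =
      ((csAC P (D r O) O x).map fun c => g c.1.1.1 c.1.1.2 c.1.2 ^ c.2).prod := by
  unfold FaC csAC quFC
  rw [List.map_append, List.prod_append, List.map_append, List.prod_append, List.map_ofFn,
    List.map_ofFn, List.prod_ofFn, List.prod_ofFn, List.map_flatten, List.prod_flatten,
    List.map_map, List.map_ofFn, List.prod_ofFn]
  simp only [Function.comp, zpow_one]
  rfl

/-- **the sum over the constituents** -/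
theorem stAC_eq (S : Bool → Option O3 → ℂ → ℂ) (P : Par6) (D : CrsC) (O : Fin r → Xo)
    (x : (Fin a → ℝ) × (Fin b → ℝ)) :
    stAC S P D r O a b x =
      ((csAC P (D r O) O x).map fun c => (c.2 : ℂ) * S c.1.1.1 c.1.1.2 c.1.2).sum := by
  unfold stAC csAC stO6 stQC
  rw [List.map_append, List.sum_append, List.map_append, List.sum_append, List.map_ofFn,
    List.map_ofFn, List.sum_ofFn, List.sum_ofFn, List.map_flatten, List.sum_flatten,
    List.map_map, List.map_ofFn, List.sum_ofFn]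
  simp only [Function.comp, Int.cast_one, one_mul]
  rfl

theorem stAC_wz (s : Bool → Option O3 → ℂ → ℂ) (P : Par6) (D : CrsC) (O : Fin r → Xo)
    (x : (Fin a → ℝ) × (Fin b → ℝ)) :
    stAC s P D r O a b x = wz ((csAC P (D r O) O x).map (apz s)) := by
  rw [stAC_eq]
  unfold wz
  rw [List.map_map]
  rfl

theorem FaC_tw (s : Bool → Option O3 → ℂ → ℂ) (ε : ℂ) (P : Par6) (D : CrsC) (O : Fin r → Xo)
    (x : (Fin a → ℝ) × (Fin b → ℝ)) :
    FaC (fun c k z => 1 + ε * s c k z) P D r O a b x =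
      lz ((csAC P (D r O) O x).map (apz s)) ε := by
  rw [FaC_eq]
  unfold lz
  rw [List.map_map]
  rfl

/-! ### the curves of (P) -/

section bridge

variable [Fil]

theorem quFC_dF (g : Bool → Option O3 → ℂ → ℂ) (η : ℝ → ℝ) (x : (Fin a → ℝ) × (Fin b → ℝ)) :
    quFC g (dF η) x = quF g η x := by
  unfold quFC PBF.PLX.quF
  simp only [ptC_dF]

theorem stQC_dF (S : Bool → Option O3 → ℂ → ℂ) (η : ℝ → ℝ) (x : (Fin a → ℝ) × (Fin b → ℝ)) :
    stQC S (dF η) a b x = stQ S η a b x := by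
  unfold stQC PBF.PLX.stQ
  simp only [ptC_dF]

theorem FaC_dF (g : Bool → Option O3 → ℂ → ℂ) (P : Par6) (η : Crs) :
    FaC g P (fun r O => dF (η r O)) = Fa6 g P η := by
  funext r O a b x
  unfold FaC Fa6
  rw [quFC_dF]

theorem stAC_dF (S : Bool → Option O3 → ℂ → ℂ) (P : Par6) (η : Crs) :
    stAC S P (fun r O => dF (η r O)) = stA6 S P η := by
  funext r O a b x
  unfold stAC stA6
  rw [stQC_dF]

end bridge

end PLT

end
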