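import Pool.Agent.PLT.CtP5

/-!
# PLT/CtM1 (helper52): cells of the difference channel, part 1 (the modules are chained to limit the memory of a build)
-/

set_option autoImplicit false
set_option maxRecDepth 100000

namespace PLT.Ct

open PHK

def M1_0 : CellD := ⟨45, 6, [],
    [[156], [-129, 126], [5, -5, 222], [40, 75, -119, 228], [104, 39, 11, -27, 232],
     [22, 68, 19, -47, -24, 208], [-58, -17, -5, 12, 119, 11, 255], [46, 146, 41, -101, -37, -95, 30, 688]]⟩

theorem okM1_0 : cellOKD 961 PM 8 M1_0 = true := by decide +kernel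

def M1_1 : CellD := ⟨47, 6, [],
    [[307], [-250, 245], [12, -11, 432], [79, 145, -234, 444], [209, 74, 20, -51, 456],
     [42, 136, 36, -95, -47, 406], [-111, -29, -8, 20, 260, 20, 517],
     [90, 287, 77, -200, -69, -191, 52, 1348]]⟩

theorem okM1_1 : cellOKD 961 PM 8 M1_1 = true := by decide +kernel

def M1_2 : CellD := ⟨49, 6, [],
    [[1209], [-971, 953], [57, -56, 1688], [308, 560, -922, 1726], [835, 277, 69, -195, 1797],
     [156, 549, 136, -387, -183, 1589], [-419, -95, -24, 67, 1148, 71, 2111],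
     [354, 1128, 279, -794, -255, -767, 178, 5292]]⟩

theorem okM1_2 : cellOKD 961 PM 8 M1_2 = true := by decide +kernel

def M1_3 : CellD := ⟨51, 6, [],
    [[75], [-59, 58], [4, -4, 103], [19, 34, -57, 105], [52, 16, 4, -11, 111], [9, 35, 8, -25, -11, 97],
     [-24, -5, -1, 3, 80, 4, 136], [22, 70, 16, -50, -15, -48, 9, 325]]⟩

theorem okM1_3 : cellOKD 961 PM 8 M1_3 = true := by decide +kernel

def cM1 : List CellD := [M1_0, M1_1, M1_2, M1_3]

theorem cM1_ok : cM1.all (cellOKD 961 PM 8) = true := by
  simp only [cM1, List.all_cons, List.all_nil, okM1_0, okM1_1, okM1_2, okM1_3, Bool.and_true]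

end PLT.Ct
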