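import Pool.Agent.PLT.CtM1

/-!
# PLT/CtM2 (helper52): cells of the difference channel, part 2 (the modules are chained to limit the memory of a build)
-/

set_option autoImplicit false
set_option maxRecDepth 100000

namespace PLT.Ct

open PHK

def M2_0 : CellD := ⟨53, 6, [],
    [[149], [-114, 112], [11, -10, 202], [37, 66, -113, 204], [103, 29, 6, -21, 220],
     [14, 71, 14, -51, -22, 191], [-45, -7, -1, 5, 179, 6, 285], [44, 138, 27, -99, -27, -98, 14, 643]]⟩

theorem okM2_0 : cellOKD 961 PM 8 M2_0 = true := by decide +kernel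

def M2_1 : CellD := ⟨55, 6, [],
    [[149], [-110, 109], [13, -12, 198], [36, 64, -112, 198], [102, 26, 4, -19, 220],
     [10, 73, 12, -53, -22, 188], [-41, -4, -1, 3, 203, 5, 304], [45, 138, 22, -100, -24, -100, 9, 637]]⟩

theorem okM2_1 : cellOKD 961 PM 8 M2_1 = true := by decide +kernel

def M2_2 : CellD := ⟨57, 6, [],
    [[300], [-212, 211], [30, -30, 390], [71, 123, -225, 386], [198, 45, 6, -35, 445],
     [9, 153, 18, -111, -44, 371], [-71, -3, 0, 2, 473, 8, 667], [94, 278, 31, -203, -41, -203, 7, 1269]]⟩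

theorem okM2_2 : cellOKD 961 PM 8 M2_2 = true := by decide +kernel

def M2_3 : CellD := ⟨59, 6, [],
    [[153], [-102, 102], [19, -18, 192], [36, 60, -116, 189], [92, 17, 2, -18, 231],
     [-4, 82, 6, -59, -22, 184], [-30, 1, 0, -1, 286, 3, 384], [49, 142, 8, -103, -14, -104, -1, 634]]⟩

theorem okM2_3 : cellOKD 961 PM 8 M2_3 = true := by decide +kernel

def cM2 : List CellD := [M2_0, M2_1, M2_2, M2_3]

theorem cM2_ok : cM2.all (cellOKD 961 PM 8) = true := by
  simp only [cM2, List.all_cons, List.all_nil, okM2_0, okM2_1, okM2_2, okM2_3, Bool.and_true]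

end PLT.Ct
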