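import Pool.Agent.PLT.CtM2

/-!
# PLT/CtM3 (helper52): cells of the difference channel, part 3 (the modules are chained to limit the memory of a build)
-/

set_option autoImplicit false
set_option maxRecDepth 100000

namespace PLT.Ct

open PHK

def M3_0 : CellD := ⟨61, 6, [],
    [[641], [-395, 405], [97, -94, 764], [157, 239, -564, 768], [312, 37, 21, -120, 1032],
     [-72, 372, 47, -282, -64, 746], [-93, 15, 0, -9, 1503, 15, 1938],
     [204, 587, -8, -433, 23, -413, -14, 2483]]⟩

theorem okM3_0 : cellOKD 961 PM 8 M3_0 = true := by decide +kernel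

def M3_1 : CellD := ⟨249, 8, [],
    [[174], [-98, 109], [25, -29, 200], [42, 73, -210, 222], [62, 0, 23, -61, 312],
     [-33, 109, 53, -113, 7, 203], [-21, 8, 0, -3, 497, 7, 628], [48, 155, -17, -130, 58, -87, 7, 583]]⟩

theorem okM3_1 : cellOKD 961 PM 8 M3_1 = true := by decide +kernel

def M3_2 : CellD := ⟨251, 8, [],
    [[194], [-100, 120], [22, -31, 221], [46, 90, -271, 260], [58, -9, 48, -94, 365],
     [-42, 120, 119, -177, 41, 230], [-22, 13, 0, -5, 590, 11, 741], [43, 167, -34, -168, 124, -66, 24, 556]]⟩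

theorem okM3_2 : cellOKD 961 PM 8 M3_2 = true := by decide +kernel

def M3_3 : CellD := ⟨505, 9, [],
    [[231], [-103, 141], [20, -33, 266], [53, 112, -321, 303], [61, -18, 70, -135, 441],
     [-49, 137, 217, -273, 101, 274], [-26, 22, 2, -9, 710, 17, 886],
     [37, 187, -78, -250, 250, -36, 52, 545]]⟩

theorem okM3_3 : cellOKD 961 PM 8 M3_3 = true := by decide +kernel

def cM3 : List CellD := [M3_0, M3_1, M3_2, M3_3]

theorem cM3_ok : cM3.all (cellOKD 961 PM 8) = true := by
  simp only [cM3, List.all_cons, List.all_nil, okM3_0, okM3_1, okM3_2, okM3_3, Bool.and_true]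

end PLT.Ct
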