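import Pool.Agent.PLT.CtM3

/-!
# PLT/CtM4 (helper52): cells of the difference channel, part 4 (the modules are chained to limit the memory of a build)
-/

set_option autoImplicit false
set_option maxRecDepth 100000

namespace PLT.Ct

open PHK

def M4_0 : CellD := ⟨1013, 10, [],
    [[68], [-26, 40], [5, -8, 79], [15, 32, -81, 81], [17, -5, 16, -39, 126], [-11, 40, 64, -79, 35, 76],
     [-8, 8, 1, -3, 201, 6, 250], [8, 51, -39, -87, 98, -5, 19, 141]]⟩

theorem okM4_0 : cellOKD 961 PM 8 M4_0 = true := by decide +kernel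

def M4_1 : CellD := ⟨2029, 11, [],
    [[75], [-26, 44], [6, -7, 88], [17, 34, -77, 84], [20, -5, 12, -42, 136], [-10, 44, 64, -81, 39, 80],
     [-9, 9, 1, -3, 217, 7, 270], [8, 52, -61, -110, 130, -3, 23, 148]]⟩

theorem okM4_1 : cellOKD 961 PM 8 M4_1 = true := by decide +kernel

def M4_2 : CellD := ⟨2031, 11, [],
    [[82], [-26, 48], [6, -6, 96], [18, 35, -72, 86], [22, -5, 8, -44, 145], [-8, 48, 63, -81, 41, 83],
     [-9, 11, 1, -3, 230, 8, 285], [7, 51, -86, -135, 162, -3, 26, 157]]⟩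

theorem okM4_2 : cellOKD 961 PM 8 M4_2 = true := by decide +kernel

def M4_3 : CellD := ⟨2033, 11, [],
    [[91], [-26, 52], [7, -5, 105], [20, 38, -65, 89], [26, -6, 3, -47, 156], [-6, 53, 61, -80, 43, 85],
     [-10, 13, 2, -3, 245, 8, 304], [7, 46, -127, -172, 208, -4, 27, 170]]⟩

theorem okM4_3 : cellOKD 961 PM 8 M4_3 = true := by decide +kernel

def cM4 : List CellD := [M4_0, M4_1, M4_2, M4_3]

theorem cM4_ok : cM4.all (cellOKD 961 PM 8) = true := by
  simp only [cM4, List.all_cons, List.all_nil, okM4_0, okM4_1, okM4_2, okM4_3, Bool.and_true]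

end PLT.Ct
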