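import Pool.Agent.PLT.CtM4

/-!
# PLT/CtM5 (helper52): cells of the difference channel, part 5 (the modules are chained to limit the memory of a build)
-/

set_option autoImplicit false
set_option maxRecDepth 100000

namespace PLT.Ct

open PHK

def M5_0 : CellD := ⟨4069, 12, [],
    [[198], [-52, 112], [16, -7, 227], [43, 81, -114, 185], [58, -12, -5, -101, 333],
     [-8, 116, 117, -157, 88, 176], [-22, 30, 4, -5, 517, 19, 643], [14, 72, -344, -423, 505, -13, 49, 365]]⟩

theorem okM5_0 : cellOKD 961 PM 8 M5_0 = true := by decide +kernel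

def M5_1 : CellD := ⟨4071, 12, [],
    [[211], [-52, 119], [17, -4, 240], [46, 86, -102, 190], [64, -13, -13, -106, 349],
     [-4, 123, 115, -155, 90, 180], [-23, 33, 5, -4, 538, 20, 670], [15, 47, -419, -484, 569, -18, 39, 378]]⟩

theorem okM5_1 : cellOKD 961 PM 8 M5_1 = true := by decide +kernel

def M5_2 : CellD := ⟨4073, 12, [],
    [[113], [-26, 63], [9, 0, 127], [24, 46, -44, 98], [36, -7, -11, -56, 184], [0, 66, 57, -77, 46, 92],
     [-13, 19, 3, -1, 281, 11, 350], [8, 5, -247, -269, 309, -13, 10, 189]]⟩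

theorem okM5_2 : cellOKD 961 PM 8 M5_2 = true := by decide +kernel

def M5_3 : CellD := ⟨4075, 12, [],
    [[122], [-26, 67], [9, 2, 135], [26, 50, -36, 102], [41, -9, -17, -60, 195], [2, 70, 57, -76, 48, 95],
     [-13, 21, 5, -1, 294, 12, 368], [10, -19, -273, -283, 313, -16, -4, 177]]⟩

theorem okM5_3 : cellOKD 961 PM 8 M5_3 = true := by decide +kernel

def cM5 : List CellD := [M5_0, M5_1, M5_2, M5_3]

theorem cM5_ok : cM5.all (cellOKD 961 PM 8) = true := by
  simp only [cM5, List.all_cons, List.all_nil, okM5_0, okM5_1, okM5_2, okM5_3, Bool.and_true]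

end PLT.Ct
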