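import Pool.Agent.PLT.CtM5

/-!
# PLT/CtM6 (helper52): cells of the difference channel, part 6 (the modules are chained to limit the memory of a build)
-/

set_option autoImplicit false
set_option maxRecDepth 100000

namespace PLT.Ct

open PHK

def M6_0 : CellD := ⟨4077, 12, [],
    [[266], [-51, 145], [20, 9, 288], [56, 112, -54, 215], [94, -21, -46, -129, 415],
     [11, 152, 115, -150, 99, 197], [-29, 49, 13, 1, 620, 25, 776],
     [24, -85, -558, -550, 583, -38, -40, 307]]⟩

theorem okM6_0 : cellOKD 961 PM 8 M6_0 = true := by decide +kernel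

def M6_1 : CellD := ⟨4079, 12, [],
    [[583], [-103, 315], [42, 30, 618], [120, 251, -68, 456], [221, -51, -120, -282, 894],
     [34, 332, 235, -298, 206, 411], [-65, 115, 35, 10, 1313, 56, 1652],
     [61, -249, -1069, -1010, 1014, -81, -143, 499]]⟩

theorem okM6_1 : cellOKD 961 PM 8 M6_1 = true := by decide +kernel

def M6_2 : CellD := ⟨4081, 12, [],
    [[323], [-52, 172], [22, 22, 334], [64, 143, -11, 245], [132, -32, -77, -156, 486],
     [25, 183, 123, -150, 108, 216], [-37, 69, 24, 10, 702, 31, 888],
     [39, -153, -495, -451, 424, -41, -98, 197]]⟩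

theorem okM6_2 : cellOKD 961 PM 8 M6_2 = true := by decide +kernel

def M6_3 : CellD := ⟨4083, 12, [],
    [[182], [-27, 96], [11, 16, 182], [34, 83, 7, 133], [81, -20, -49, -88, 268],
     [17, 103, 66, -76, 58, 116], [-22, 42, 17, 8, 380, 18, 484], [25, -87, -227, -200, 174, -21, -60, 77]]⟩

theorem okM6_3 : cellOKD 961 PM 8 M6_3 = true := by decide +kernel

def cM6 : List CellD := [M6_0, M6_1, M6_2, M6_3]

theorem cM6_ok : cM6.all (cellOKD 961 PM 8) = true := by
  simp only [cM6, List.all_cons, List.all_nil, okM6_0, okM6_1, okM6_2, okM6_3, Bool.and_true]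

end PLT.Ct
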