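import Pool.Agent.PLT.CtTab

/-!
# PLT/CtP1 (helper52): cells of the sum channel, part 1 (the modules are chained to limit the memory of a build)
-/

set_option autoImplicit false
set_option maxRecDepth 100000

namespace PLT.Ct

open PHK

def P1_0 : CellD := ⟨45, 6, [],
    [[111], [0, 111], [0, -7, 111], [0, -4, -64, 128], [44, 0, 0, 0, 119], [-1, 0, 0, 0, 0, 111],
     [-26, 0, 0, 0, 57, -1, 128], [0, 0, 0, 0, 0, -29, -6, 112]]⟩

theorem okP1_0 : cellOKD 961 PP 8 P1_0 = true := by decide +kernel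

def P1_1 : CellD := ⟨47, 6, [],
    [[1727], [0, 1727], [0, -142, 1733], [0, -82, -991, 1996], [717, 0, 0, 0, 1870],
     [-25, 0, 0, 0, 12, 1727], [-407, 0, 0, 0, 1011, -29, 2073], [5, 0, 0, 0, 1, -493, -139, 1764]]⟩

theorem okP1_1 : cellOKD 961 PP 8 P1_1 = true := by decide +kernel

def P1_2 : CellD := ⟨49, 6, [],
    [[211], [0, 211], [0, -22, 212], [0, -13, -121, 244], [91, 0, 0, 0, 230], [-5, 0, 0, 0, 3, 211],
     [-49, 0, 0, 0, 141, -5, 264], [1, 0, 0, 0, 0, -65, -24, 218]]⟩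

theorem okP1_2 : cellOKD 961 PP 8 P1_2 = true := by decide +kernel

def cP1 : List CellD := [P1_0, P1_1, P1_2]

theorem cP1_ok : cP1.all (cellOKD 961 PP 8) = true := by
  simp only [cP1, List.all_cons, List.all_nil, okP1_0, okP1_1, okP1_2, Bool.and_true]

end PLT.Ct
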