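import Pool.Agent.PLT.CtP1

/-!
# PLT/CtP2 (helper52): cells of the sum channel, part 2 (the modules are chained to limit the memory of a build)
-/

set_option autoImplicit false
set_option maxRecDepth 100000

namespace PLT.Ct

open PHK

def P2_0 : CellD := ⟨51, 6, [],
    [[206], [0, 206], [0, -27, 208], [0, -16, -117, 238], [93, 0, 0, 0, 226], [-7, 0, 0, 0, 4, 206],
     [-46, 0, 0, 0, 158, -7, 271], [2, 0, 0, 0, 0, -69, -32, 217]]⟩

theorem okP2_0 : cellOKD 961 PP 8 P2_0 = true := by decide +kernel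

def P2_1 : CellD := ⟨53, 6, [],
    [[101], [0, 101], [0, -17, 102], [0, -10, -57, 117], [47, 0, 0, 0, 111], [-5, 0, 0, 0, 3, 101],
     [-21, 0, 0, 0, 90, -5, 141], [1, 0, 0, 0, 0, -37, -22, 108]]⟩

theorem okP2_1 : cellOKD 961 PP 8 P2_1 = true := by decide +kernel

def P2_2 : CellD := ⟨55, 6, [],
    [[49], [0, 49], [0, -10, 50], [0, -6, -27, 57], [24, 0, 0, 0, 55], [-4, 0, 0, 0, 2, 50],
     [-10, 0, 0, 0, 52, -3, 75], [1, 0, 0, 0, 0, -19, -14, 55]]⟩

theorem okP2_2 : cellOKD 961 PP 8 P2_2 = true := by decide +kernel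

def P2_3 : CellD := ⟨57, 6, [],
    [[773], [-1, 773], [-5, -201, 799], [-1, -122, -419, 902], [392, -2, 6, -2, 866],
     [-83, 0, 1, 0, 61, 783], [-137, 0, 0, 0, 974, -64, 1297], [29, 0, 0, 0, 7, -315, -314, 900]]⟩

theorem okP2_3 : cellOKD 961 PP 8 P2_3 = true := by decide +kernel

def cP2 : List CellD := [P2_0, P2_1, P2_2, P2_3]

theorem cP2_ok : cP2.all (cellOKD 961 PP 8) = true := by
  simp only [cP2, List.all_cons, List.all_nil, okP2_0, okP2_1, okP2_2, okP2_3, Bool.and_true]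

end PLT.Ct
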