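import Pool.Agent.PLT.CtP2

/-!
# PLT/CtP3 (helper52): cells of the sum channel, part 3 (the modules are chained to limit the memory of a build)
-/

set_option autoImplicit false
set_option maxRecDepth 100000

namespace PLT.Ct

open PHK

def P3_0 : CellD := ⟨59, 6, [],
    [[3033], [-25, 3032], [-88, -940, 3178], [-22, -621, -1534, 3551], [1603, -39, 105, -32, 3432],
     [-469, 15, 25, -9, 374, 3117], [-437, 5, 6, 5, 4789, -316, 5887],
     [172, 2, 3, 2, 46, -1273, -1749, 3817]]⟩

theorem okP3_0 : cellOKD 961 PP 8 P3_0 = true := by decide +kernel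

def P3_1 : CellD := ⟨61, 6, [],
    [[187], [-9, 186], [-19, -54, 197], [-7, -51, -69, 218], [105, -14, 26, -4, 216],
     [-42, 8, 11, -4, 36, 198], [-13, 2, 1, 1, 403, -24, 455], [16, 0, 2, 2, 6, -76, -164, 271]]⟩

theorem okP3_1 : cellOKD 961 PP 8 P3_1 = true := by decide +kernel

def P3_2 : CellD := ⟨125, 7, [],
    [[192], [-28, 185], [-38, -11, 204], [-27, -49, -7, 237], [106, -41, 74, 14, 235],
     [-64, 41, 51, -2, 48, 214], [31, 2, 5, 1, 609, -29, 630], [24, -4, 13, 12, 27, -62, -250, 343]]⟩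

theorem okP3_2 : cellOKD 961 PP 8 P3_2 = true := by decide +kernel

def P3_3 : CellD := ⟨505, 9, [],
    [[26], [-4, 23], [-5, 1, 28], [-6, -5, 7, 39], [11, -7, 21, 12, 35], [-10, 10, 22, 10, 13, 34],
     [10, -1, 3, 2, 109, -3, 107], [4, -1, 8, 7, 13, -4, -40, 54]]⟩

theorem okP3_3 : cellOKD 961 PP 8 P3_3 = true := by decide +kernel

def cP3 : List CellD := [P3_0, P3_1, P3_2, P3_3]

theorem cP3_ok : cP3.all (cellOKD 961 PP 8) = true := by
  simp only [cP3, List.all_cons, List.all_nil, okP3_0, okP3_1, okP3_2, okP3_3, Bool.and_true]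

end PLT.Ct
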