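import Pool.Agent.PLT.CtP3

/-!
# PLT/CtP4 (helper52): cells of the sum channel, part 4 (the modules are chained to limit the memory of a build)
-/

set_option autoImplicit false
set_option maxRecDepth 100000

namespace PLT.Ct

open PHK

def P4_0 : CellD := ⟨1013, 10, [],
    [[216], [-37, 185], [-33, 3, 232], [-47, -45, 71, 371], [84, -76, 226, 163, 316],
     [-83, 86, 330, 215, 197, 342], [100, -6, 58, 38, 1040, -10, 996],
     [31, -3, 149, 138, 213, 22, -335, 499]]⟩

theorem okP4_0 : cellOKD 961 PP 8 P4_0 = true := by decide +kernel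

def P4_1 : CellD := ⟨1015, 10, [],
    [[113], [-19, 93], [-15, -3, 118], [-24, -29, 35, 211], [40, -47, 128, 100, 170],
     [-45, 42, 256, 194, 155, 227], [57, -2, 55, 40, 609, 13, 567], [13, 0, 158, 147, 205, 67, -167, 292]]⟩

theorem okP4_1 : cellOKD 961 PP 8 P4_1 = true := by decide +kernel

def P4_2 : CellD := ⟨1017, 10, [],
    [[480], [-80, 382], [-59, -44, 489], [-104, -169, 112, 980], [144, -230, 530, 412, 718],
     [-210, 154, 1372, 1123, 807, 1227], [262, -4, 340, 250, 2910, 164, 2668],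
     [31, -6, 1178, 1121, 1464, 712, -652, 1471]]⟩

theorem okP4_2 : cellOKD 961 PP 8 P4_2 = true := by decide +kernel

def P4_3 : CellD := ⟨1019, 10, [],
    [[33], [-5, 25], [-4, -6, 33], [-8, -16, 4, 76], [8, -17, 34, 21, 48], [-15, 10, 91, 74, 48, 92],
     [21, 1, 20, 12, 218, 13, 204], [1, -2, 81, 81, 103, 60, -49, 111]]⟩

theorem okP4_3 : cellOKD 961 PP 8 P4_3 = true := by decide +kernel

def cP4 : List CellD := [P4_0, P4_1, P4_2, P4_3]

theorem cP4_ok : cP4.all (cellOKD 961 PP 8) = true := by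
  simp only [cP4, List.all_cons, List.all_nil, okP4_0, okP4_1, okP4_2, okP4_3, Bool.and_true]

end PLT.Ct
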