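import Pool.Agent.PLT.CtP4

/-!
# PLT/CtP5 (helper52): cells of the sum channel, part 5 (the modules are chained to limit the memory of a build)
-/

set_option autoImplicit false
set_option maxRecDepth 100000

namespace PLT.Ct

open PHK

def P5_0 : CellD := ⟨2041, 11, [],
    [[77], [-13, 57], [-11, -17, 75], [-22, -45, 3, 195], [16, -37, 74, 30, 107],
     [-32, 24, 189, 152, 87, 217], [54, 6, 39, 9, 535, 29, 510], [2, -5, 160, 170, 211, 136, -125, 265]]⟩

theorem okP5_0 : cellOKD 961 PP 8 P5_0 = true := by decide +kernel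

def P5_1 : CellD := ⟨2043, 11, [],
    [[91], [-15, 67], [-14, -23, 88], [-29, -61, -2, 250], [18, -42, 87, 18, 126],
     [-37, 31, 215, 169, 88, 263], [69, 12, 45, -4, 663, 37, 636], [2, -7, 179, 200, 238, 165, -156, 323]]⟩

theorem okP5_1 : cellOKD 961 PP 8 P5_1 = true := by decide +kernel

def P5_2 : CellD := ⟨2045, 11, [],
    [[63], [-10, 46], [-10, -17, 61], [-22, -47, -4, 186], [12, -27, 61, 1, 87],
     [-25, 23, 145, 113, 54, 186], [51, 12, 31, -13, 477, 29, 459], [0, -5, 121, 143, 162, 120, -112, 230]]⟩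

theorem okP5_2 : cellOKD 961 PP 8 P5_2 = true := by decide +kernel

def P5_3 : CellD := ⟨1024, 10, [1, 1, 1, 1, 1, 1, 1, 1],
    [[68], [-11, 50], [-11, -20, 66], [-26, -55, -6, 213], [14, -28, 66, -9, 95],
     [-27, 26, 156, 120, 54, 206], [58, 16, 36, -22, 533, 34, 513], [-1, -6, 131, 162, 175, 137, -125, 255]]⟩

theorem okP5_3 : cellOKD 961 PP 8 P5_3 = true := by decide +kernel

def cP5 : List CellD := [P5_0, P5_1, P5_2, P5_3]

theorem cP5_ok : cP5.all (cellOKD 961 PP 8) = true := by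
  simp only [cP5, List.all_cons, List.all_nil, okP5_0, okP5_1, okP5_2, okP5_3, Bool.and_true]

end PLT.Ct
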