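import Pool.Agent.PLT.HC
import Pool.Agent.PLT.Level

/-!
# The potential of a cloud on a curve

* `Cur w x lo hi η η' ρ`: rows with weights `w i` at the places `x i`, a curve `t + i η t`,
  `lo ≤ η ≤ hi`, `|η + x i| < l`, on which the density `PC w x` times the tangent is real (`= ρ`);
* **`cur_pot`**: `∫ s, ρ s * h (t - s) (y - η s) = ∑ i, w i * Hc t (y + x i)`, `hi - 4 l < y < 4 l + lo`.
-/

set_option autoImplicit false

noncomputable section

open MeasureTheory Set Filter Topology Complex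

namespace PLT

open NUMF (l l_pos P Pc)

variable {ι : Type*} [Fintype ι]

/-- rows with weights at places; the density moved to a curve is real -/
structure Cur (w x : ι → ℝ) (lo hi : ℝ) (η η' ρ : ℝ → ℝ) : Prop where
  prf : Prf lo hi η η'
  x1 : ∀ i, -l < lo + x i
  x2 : ∀ i, hi + x i < l
  real : ∀ t, PC w x (cpt η t) * cjc η' t = (ρ t : ℂ)

/-- the level curve of a content -/
theorem cur_eta {m x : ι → ℝ} {lo hi : ℝ} (hm : Wt m) (h : Lev m x)
    (p : Prf lo hi (eta m x) (eta' m x)) (x1 : ∀ i, -l < lo + x i) (x2 : ∀ i, hi + x i < l) :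
    Cur m x lo hi (eta m x) (eta' m x) (rho m x) :=
  ⟨p, x1, x2, rho_eq hm h⟩

/-! ### one row -/

/-- one row seen from a point -/
private def fi (x : ℝ) (ζ z : ℂ) : ℂ := Pc (z + x * I) * Lc (ζ - z)

private theorem fi_diff {x : ℝ} {ζ z : ℂ} (h1 : |z.im + x| < l) (h2 : |ζ.im - z.im| < 4 * l) :
    DifferentiableAt ℂ (fi x ζ) z := by
  unfold fi
  have d1 : DifferentiableAt ℂ (fun z : ℂ => z + x * I) z := by fun_prop
  have d2 : DifferentiableAt ℂ (fun z : ℂ => ζ - z) z := by fun_prop
  refine DifferentiableAt.mul ?_ ?_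
  · exact DifferentiableAt.comp (g := Pc) z (NUMF.Pc_diff (by simpa using h1)) d1
  · exact DifferentiableAt.comp (g := Lc) z (hasDerivAt_Lc (by simpa using h2)).differentiableAt d2

private theorem fi_le {x : ℝ} {lo hi : ℝ} {ζ : ℂ} (x1 : -l < lo + x) (x2 : hi + x < l)
    (y1 : hi - 4 * l < ζ.im) (y2 : ζ.im < 4 * l + lo) : ∃ C : ℝ, 0 ≤ C ∧ ∀ z ∈ stp lo hi,
    ‖fi x ζ z‖ ≤ C * Real.exp (-1 * |z.re|) := by
  obtain ⟨b, hb⟩ : ∃ b, b = max (hi + x) (-(lo + x)) := ⟨_, rfl⟩
  obtain ⟨b', hb'⟩ : ∃ b', b' = max (ζ.im - lo) (hi - ζ.im) := ⟨_, rfl⟩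
  obtain ⟨C, hC, h1⟩ := Pc_le (b := b) (by rw [hb]; exact max_lt x2 (by linarith))
  obtain ⟨K, hK, h2⟩ := norm_Lc_le (b := b') (by rw [hb']; exact max_lt (by linarith) (by linarith))
  refine ⟨C * (K * (1 + |ζ.re| + 1)), by positivity, fun z hz => ?_⟩
  have a1 := h1 (z + x * I) (by
    rw [hb]
    simp only [add_im, mul_im, ofReal_re, I_im, mul_one, ofReal_im, I_re, mul_zero, add_zero]
    rw [abs_le]
    have := le_max_left (hi + x) (-(lo + x))
    have := le_max_right (hi + x) (-(lo + x))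
    have := hz.1
    have := hz.2
    constructor <;> linarith)
  have a2 := h2 (ζ - z) (by
    rw [hb', sub_im, abs_le]
    have := le_max_left (ζ.im - lo) (hi - ζ.im)
    have := le_max_right (ζ.im - lo) (hi - ζ.im)
    have := hz.1
    have := hz.2
    constructor <;> linarith)
  have e1 : ((z : ℂ) + x * I).re = z.re := by simp
  rw [e1] at a1
  have e2 : |(ζ - z).re| ≤ |ζ.re| + |z.re| := by
    rw [sub_re]
    exact abs_sub _ _
  have e3 : 1 + (|ζ.re| + |z.re|) ≤ (1 + |ζ.re| + 1) * Real.exp (5 / 3 * |z.re|) := by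
    have b1 := Real.add_one_le_exp (5 / 3 * |z.re|)
    have b2 := abs_nonneg z.re
    have b3 := abs_nonneg ζ.re
    have b4 : 1 ≤ Real.exp (5 / 3 * |z.re|) := Real.one_le_exp (by positivity)
    nlinarith
  unfold fi
  rw [norm_mul]
  have e4 : Real.exp (-(8 / 3) * |z.re|) * Real.exp (5 / 3 * |z.re|) = Real.exp (-1 * |z.re|) := by
    rw [← Real.exp_add]
    congr 1
    ring
  calc ‖Pc (z + x * I)‖ * ‖Lc (ζ - z)‖ ≤ (C * Real.exp (-(8 / 3) * |z.re|)) *
        (K * ((1 + |ζ.re| + 1) * Real.exp (5 / 3 * |z.re|))) := by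
        refine mul_le_mul a1 (a2.trans ?_) (norm_nonneg _) (by positivity)
        refine mul_le_mul_of_nonneg_left ?_ hK
        linarith
    _ = C * (K * (1 + |ζ.re| + 1)) * (Real.exp (-(8 / 3) * |z.re|) * Real.exp (5 / 3 * |z.re|)) := by
        ring
    _ = _ := by rw [e4]

private theorem row_pot {x lo hi : ℝ} {η η' : ℝ → ℝ} (p : Prf lo hi η η') (x1 : -l < lo + x)
    (x2 : hi + x < l) {y : ℝ} (y1 : hi - 4 * l < y) (y2 : y < 4 * l + lo) (t : ℝ) :
    Integrable (fun s => fi x (t + y * I) (cpt η s) * cjc η' s) ∧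
    (∫ s, fi x (t + y * I) (cpt η s) * cjc η' s).re = Hc t (y + x) := by
  have hl := l_pos
  have hlh := p.lohi
  have eim : ((t : ℂ) + y * I).im = y := by simp
  obtain ⟨C, hC, hb⟩ := fi_le (ζ := (t : ℂ) + y * I) x1 x2 (by rw [eim]; exact y1)
    (by rw [eim]; exact y2)
  obtain ⟨h1, -, h3⟩ := shift_curve (a := lo) (b := hi) (c := lo) one_pos hC p le_rfl le_rfl le_rfl hlh
    (f := fi x (t + y * I)) (fun z hz => (fi_diff (by
      rw [abs_lt]
      have := hz.1
      have := hz.2
      constructor <;> linarith) (by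
      rw [eim, abs_lt]
      have := hz.1
      have := hz.2
      constructor <;> linarith)).differentiableWithinAt) hb
  refine ⟨h1, ?_⟩
  rw [h3]
  obtain ⟨-, h4⟩ := line_pot (c := lo + x) (t := t) (y := y + x)
    (by rw [abs_lt]; constructor <;> linarith)
    (by rw [show y + x - (lo + x) = y - lo by ring, abs_lt]; constructor <;> linarith)
  rw [← h4]
  congr 1
  refine integral_congr_ae (Eventually.of_forall fun s => ?_)
  simp only
  unfold fi
  congr 2
  · push_cast
    ring
  · push_cast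
    ring

/-! ### the content -/

variable {w x : ι → ℝ} {lo hi : ℝ} {η η' ρ : ℝ → ℝ}

theorem Cur.im_lt (h : Cur w x lo hi η η' ρ) {y : ℝ} (y1 : hi - 4 * l < y) (y2 : y < 4 * l + lo)
    (s : ℝ) : |y - η s| < 4 * l := by
  have := h.prf.ge s
  have := h.prf.le s
  rw [abs_lt]
  constructor <;> linarith

/-- **the potential of the cloud on the curve** -/
theorem cur_pot (h : Cur w x lo hi η η' ρ) {y : ℝ} (y1 : hi - 4 * l < y) (y2 : y < 4 * l + lo)
    (t : ℝ) : Integrable (fun s => ρ s * NUMF.h (t - s) (y - η s)) ∧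
    ∫ s, ρ s * NUMF.h (t - s) (y - η s) = ∑ i, w i * Hc t (y + x i) := by
  have hr : ∀ i, Integrable (fun s => fi (x i) (t + y * I) (cpt η s) * cjc η' s) ∧
      (∫ s, fi (x i) (t + y * I) (cpt η s) * cjc η' s).re = Hc t (y + x i) := fun i =>
    row_pot h.prf (h.x1 i) (h.x2 i) y1 y2 t
  have e1 : ∀ s, ((∑ i, (w i : ℂ) * (fi (x i) (t + y * I) (cpt η s) * cjc η' s)) : ℂ) =
      (ρ s : ℂ) * Lc (t + y * I - cpt η s) := by
    intro s
    rw [← h.real s]
    unfold PC fi
    rw [Finset.sum_mul, Finset.sum_mul]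
    exact Finset.sum_congr rfl fun i _ => by ring
  have e2 : ∀ s, ((ρ s : ℂ) * Lc (t + y * I - cpt η s)).re = ρ s * NUMF.h (t - s) (y - η s) := by
    intro s
    have him : ((t : ℂ) + y * I - cpt η s).im = y - η s := by simp
    have hre : ((t : ℂ) + y * I - cpt η s).re = t - s := by simp
    rw [re_ofReal_mul, re_Lc (by rw [him]; exact h.im_lt y1 y2 s), him, hre]
  have i1 : Integrable fun s => ∑ i, (w i : ℂ) * (fi (x i) (t + y * I) (cpt η s) * cjc η' s) :=
    integrable_finset_sum _ fun i _ => (hr i).1.const_mul _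
  have i2 : Integrable fun s => (ρ s : ℂ) * Lc (t + y * I - cpt η s) :=
    i1.congr (Eventually.of_forall e1)
  have i3 := i2.re
  simp only [RCLike.re_to_complex] at i3
  refine ⟨i3.congr (Eventually.of_forall e2), ?_⟩
  have e3 := integral_re i2
  simp only [RCLike.re_to_complex] at e3
  simp_rw [e2] at e3
  rw [e3, ← integral_congr_ae (Eventually.of_forall e1),
    integral_finsetSum _ fun i _ => (hr i).1.const_mul _, Complex.re_sum]
  refine Finset.sum_congr rfl fun i _ => ?_
  rw [integral_const_mul, re_ofReal_mul, (hr i).2]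

/-- the density is integrable and has the mass of the weights -/
theorem cur_mass (h : Cur w x lo hi η η' ρ) : Integrable ρ ∧ ∫ s, ρ s = ∑ i, w i := by
  have hl := l_pos
  have hlh := h.prf.lohi
  have hr : ∀ i, Integrable (fun s => Pc (cpt η s + x i * I) * cjc η' s) ∧
      ∫ s, Pc (cpt η s + x i * I) * cjc η' s = 1 := by
    intro i
    have x1 := h.x1 i
    have x2 := h.x2 i
    obtain ⟨b, hb⟩ : ∃ b, b = max (hi + x i) (-(lo + x i)) := ⟨_, rfl⟩
    obtain ⟨C, hC, h1⟩ := Pc_le (b := b) (by rw [hb]; exact max_lt x2 (by linarith))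
    obtain ⟨h1, -, h3⟩ := shift_curve (a := lo) (b := hi) (c := lo) (κ := 8 / 3) (by norm_num) hC h.prf
      le_rfl le_rfl le_rfl hlh (f := fun z => Pc (z + x i * I)) (fun z hz => by
        have d1 : DifferentiableAt ℂ (fun z : ℂ => z + x i * I) z := by fun_prop
        refine (DifferentiableAt.comp (g := Pc) z (NUMF.Pc_diff ?_) d1).differentiableWithinAt
        have := hz.1
        have := hz.2
        simp only [add_im, mul_im, ofReal_re, I_im, mul_one, ofReal_im, I_re, mul_zero, add_zero]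
        rw [abs_lt]
        constructor <;> linarith) (fun z hz => by
        have := h1 (z + x i * I) (by
          rw [hb]
          simp only [add_im, mul_im, ofReal_re, I_im, mul_one, ofReal_im, I_re, mul_zero, add_zero]
          rw [abs_le]
          have := le_max_left (hi + x i) (-(lo + x i))
          have := le_max_right (hi + x i) (-(lo + x i))
          have := hz.1
          have := hz.2
          constructor <;> linarith)
        simpa using this)
    refine ⟨h1, ?_⟩
    rw [h3]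
    obtain ⟨-, h4⟩ := Pc_one (c := lo + x i) (by rw [abs_lt]; constructor <;> linarith)
    rw [← h4]
    refine integral_congr_ae (Eventually.of_forall fun s => ?_)
    simp only
    congr 1
    push_cast
    ring
  have e1 : ∀ s, (∑ i, (w i : ℂ) * (Pc (cpt η s + x i * I) * cjc η' s)) = (ρ s : ℂ) := by
    intro s
    rw [← h.real s]
    unfold PC
    rw [Finset.sum_mul]
    exact Finset.sum_congr rfl fun i _ => by ring
  have i1 : Integrable fun s => ∑ i, (w i : ℂ) * (Pc (cpt η s + x i * I) * cjc η' s) :=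
    integrable_finset_sum _ fun i _ => (hr i).1.const_mul _
  have i2 : Integrable fun s => (ρ s : ℂ) := i1.congr (Eventually.of_forall e1)
  have i3 := i2.re
  simp only [RCLike.re_to_complex, ofReal_re] at i3
  refine ⟨i3, ?_⟩
  have e3 : ∫ s, (ρ s : ℂ) = ∑ i, (w i : ℂ) := by
    rw [← integral_congr_ae (Eventually.of_forall e1),
      integral_finsetSum _ fun i _ => (hr i).1.const_mul _]
    refine Finset.sum_congr rfl fun i _ => ?_
    rw [integral_const_mul, (hr i).2, mul_one]
  rw [integral_complex_ofReal] at e3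
  exact_mod_cast e3

end PLT

end
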