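import Pool.Agent.NUP.MF.Str
import Pool.Agent.NUP.MF.StripD

/-!
# A static curve: contour shift, the logarithm `L`, analytic clouds

* `Prf lo hi η η'`: a `C¹` curve `t + i η t`, `lo ≤ η ≤ hi`, bounded slope;
* `shift_curve`: the integral of a decaying analytic function over the curve is the integral over any
  line of the strip;
* `Lc z = 2 log cosh z + log 2`, `re_Lc : (Lc z).re = NUMF.h z.re z.im` for `|im z| < 4 l`;
* `Lf r η ζ = ∫ r s * Lc (ζ - s - i η s)`: analytic for `hi - 4 l < im ζ < 4 l + lo`.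
-/

set_option autoImplicit false

noncomputable section

open MeasureTheory Set Filter Topology Complex

namespace PLT

open NUMF (l l_pos)

/-! ### the curve -/

/-- a point of the curve -/
def cpt (η : ℝ → ℝ) (t : ℝ) : ℂ := (t : ℂ) + (η t : ℂ) * I

/-- the tangent of the curve -/
def cjc (η' : ℝ → ℝ) (t : ℝ) : ℂ := 1 + (η' t : ℂ) * I

/-- a curve in the strip `lo ≤ im z ≤ hi` -/
structure Prf (lo hi : ℝ) (η η' : ℝ → ℝ) : Prop where
  der : ∀ t, HasDerivAt η (η' t) t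
  cont : Continuous η'
  bd : ∃ K : ℝ, 0 ≤ K ∧ ∀ t, |η' t| ≤ K
  ge : ∀ t, lo ≤ η t
  le : ∀ t, η t ≤ hi

variable {lo hi : ℝ} {η η' : ℝ → ℝ}

@[simp] theorem cpt_re (η : ℝ → ℝ) (t : ℝ) : (cpt η t).re = t := by simp [cpt]

@[simp] theorem cpt_im (η : ℝ → ℝ) (t : ℝ) : (cpt η t).im = η t := by simp [cpt]

theorem Prf.cη (p : Prf lo hi η η') : Continuous η :=
  continuous_iff_continuousAt.2 fun t => (p.der t).continuousAt

theorem Prf.cpt (p : Prf lo hi η η') : Continuous (cpt η) := by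
  unfold PLT.cpt
  have := p.cη
  fun_prop

theorem Prf.cjc (p : Prf lo hi η η') : Continuous (cjc η') := by
  unfold PLT.cjc
  have := p.cont
  fun_prop

theorem Prf.lohi (p : Prf lo hi η η') : lo ≤ hi := (p.ge 0).trans (p.le 0)

theorem Prf.dpt (p : Prf lo hi η η') (t : ℝ) : HasDerivAt (PLT.cpt η) (PLT.cjc η' t) t := by
  have h1 : HasDerivAt (fun t : ℝ => (t : ℂ)) 1 t := Complex.ofRealCLM.hasDerivAt
  have h2 : HasDerivAt (fun t : ℝ => ((η t : ℝ) : ℂ)) (η' t : ℂ) t := (p.der t).ofReal_comp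
  exact h1.add (h2.mul_const I)

theorem norm_cjc_le {K : ℝ} (t : ℝ) (h : |η' t| ≤ K) : ‖cjc η' t‖ ≤ 1 + K := by
  unfold cjc
  refine (norm_add_le _ _).trans ?_
  rw [norm_one, norm_mul, norm_I, mul_one, norm_real, Real.norm_eq_abs]
  linarith

/-- the closed strip -/
def stp (a b : ℝ) : Set ℂ := {z : ℂ | a ≤ z.im ∧ z.im ≤ b}

theorem convex_stp (a b : ℝ) : Convex ℝ (stp a b) := by
  have : stp a b = Complex.imLm ⁻¹' (Icc a b) := by
    ext z
    simp [stp]
  rw [this]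
  exact (convex_Icc _ _).linear_preimage _

/-- **shift of the curve to a line** -/
theorem shift_curve {a b κ C c : ℝ} {f : ℂ → ℂ} (hκ : 0 < κ) (hC : 0 ≤ C) (p : Prf lo hi η η')
    (ha : a ≤ lo) (hb : hi ≤ b) (hc1 : a ≤ c) (hc2 : c ≤ b) (hf : DifferentiableOn ℂ f (stp a b))
    (hd : ∀ z ∈ stp a b, ‖f z‖ ≤ C * Real.exp (-κ * |z.re|)) :
    Integrable (fun t => f (cpt η t) * cjc η' t) ∧ Integrable (fun t : ℝ => f (t + c * I)) ∧
      ∫ t, f (cpt η t) * cjc η' t = ∫ t : ℝ, f (t + c * I) := by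
  obtain ⟨K, hK0, hK⟩ := p.bd
  have m1 : ∀ t, cpt η t ∈ stp a b := fun t => by
    show a ≤ (cpt η t).im ∧ (cpt η t).im ≤ b
    rw [cpt_im]
    exact ⟨ha.trans (p.ge t), (p.le t).trans hb⟩
  have r2 : ∀ t : ℝ, ((t : ℂ) + c * I).re = t := fun t => by simp
  have i2 : ∀ t : ℝ, ((t : ℂ) + c * I).im = c := fun t => by simp
  have m2 : ∀ t : ℝ, ((t : ℂ) + c * I) ∈ stp a b := fun t => by
    show a ≤ ((t : ℂ) + c * I).im ∧ ((t : ℂ) + c * I).im ≤ b
    rw [i2]
    exact ⟨hc1, hc2⟩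
  obtain ⟨g, hg⟩ := (convex_stp a b).exists_forall_hasDerivWithinAt hf
  have d1 : ∀ t : ℝ, HasDerivAt (fun t => g (cpt η t)) (f (cpt η t) * cjc η' t) t := fun t => by
    have := (hg (cpt η t) (m1 t)).scomp_hasDerivAt t (p.dpt t) m1
    rw [smul_eq_mul, mul_comm] at this
    exact this
  have d2 : ∀ t : ℝ, HasDerivAt (fun t : ℝ => g (t + c * I)) (f (t + c * I)) t := fun t => by
    have h3 : HasDerivAt (fun t : ℝ => (t : ℂ) + c * I) 1 t :=
      Complex.ofRealCLM.hasDerivAt.add_const _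
    have := (hg _ (m2 t)).scomp_hasDerivAt t h3 m2
    rw [one_smul] at this
    exact this
  have c1 : Continuous fun t => f (cpt η t) * cjc η' t :=
    (hf.continuousOn.comp_continuous p.cpt m1).mul p.cjc
  have c2 : Continuous fun t : ℝ => f (t + c * I) :=
    hf.continuousOn.comp_continuous (by fun_prop) m2
  have hI := NUMF.int_exp_abs hκ
  have I1 : Integrable fun t => f (cpt η t) * cjc η' t := by
    refine (hI.const_mul (C * (1 + K))).mono' c1.aestronglyMeasurable (Eventually.of_forall fun t => ?_)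
    rw [norm_mul]
    have h1 := hd _ (m1 t)
    rw [cpt_re] at h1
    have h2 := norm_cjc_le t (hK t)
    calc ‖f (cpt η t)‖ * ‖cjc η' t‖ ≤ (C * Real.exp (-κ * |t|)) * (1 + K) :=
          mul_le_mul h1 h2 (norm_nonneg _) (by positivity)
      _ = _ := by ring
  have I2 : Integrable fun t : ℝ => f (t + c * I) := by
    refine (hI.const_mul C).mono' c2.aestronglyMeasurable (Eventually.of_forall fun t => ?_)
    have h1 := hd _ (m2 t)
    rwa [r2] at h1
  refine ⟨I1, I2, ?_⟩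
  have hD : ∀ t : ℝ, ‖g (cpt η t) - g (t + c * I)‖ ≤ C * Real.exp (-κ * |t|) * (b - a) := fun t => by
    have hcv : Convex ℝ (stp a b ∩ {z : ℂ | z.re = t}) := by
      refine (convex_stp a b).inter ?_
      have : {z : ℂ | z.re = t} = Complex.reLm ⁻¹' {t} := by
        ext z
        simp
      rw [this]
      exact (convex_singleton t).linear_preimage _
    have h1 := hcv.norm_image_sub_le_of_norm_hasDerivWithin_le (f := g) (f' := f)
      (C := C * Real.exp (-κ * |t|)) (fun x hx => (hg x hx.1).mono inter_subset_left)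
      (fun x hx => by
        have := hd x hx.1
        rwa [show x.re = t from hx.2] at this)
      (x := (t : ℂ) + c * I) (y := cpt η t) ⟨m2 t, r2 t⟩ ⟨m1 t, cpt_re η t⟩
    refine h1.trans (mul_le_mul_of_nonneg_left ?_ (by positivity))
    have e : cpt η t - (t + c * I) = ((η t - c : ℝ) : ℂ) * I := by
      unfold cpt
      push_cast
      ring
    rw [e, norm_mul, norm_I, mul_one, norm_real, Real.norm_eq_abs, abs_le]
    have := p.ge t
    have := p.le t
    constructor <;> linarith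
  have t0 : Tendsto (fun t : ℝ => C * Real.exp (-κ * |t|) * (b - a)) (cocompact ℝ) (𝓝 0) := by
    have h1 : Tendsto (fun t : ℝ => -κ * |t|) (cocompact ℝ) atBot := by
      have h2 : Tendsto (fun t : ℝ => |t|) (cocompact ℝ) atTop := by
        exact tendsto_norm_cocompact_atTop (E := ℝ)
      exact h2.const_mul_atTop_of_neg (by linarith)
    have h3 := ((Real.tendsto_exp_atBot.comp h1).const_mul C).mul_const (b - a)
    simpa using h3
  have t1 : Tendsto (fun t : ℝ => g (cpt η t) - g (t + c * I)) (cocompact ℝ) (𝓝 0) :=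
    squeeze_zero_norm hD t0
  have hder : ∀ t : ℝ, HasDerivAt (fun t : ℝ => g (cpt η t) - g (t + c * I))
      (f (cpt η t) * cjc η' t - f (t + c * I)) t := fun t => (d1 t).sub (d2 t)
  have h0 := integral_of_hasDerivAt_of_tendsto hder (I1.sub I2)
    (t1.mono_left (by rw [cocompact_eq_atBot_atTop]; exact le_sup_left))
    (t1.mono_left (by rw [cocompact_eq_atBot_atTop]; exact le_sup_right))
  rw [integral_sub I1 I2, sub_zero, sub_eq_zero] at h0
  exact h0

/-! ### the logarithm -/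

/-- `2 log cosh z + log 2` -/
def Lc (z : ℂ) : ℂ := 2 * Complex.log (Complex.cosh z) + (Real.log 2 : ℝ)

/-- its derivative -/
def dLc (z : ℂ) : ℂ := 2 * (Complex.sinh z / Complex.cosh z)

theorem four_l : 4 * l = Real.pi / 2 := by unfold NUMF.l; ring

theorem norm_cosh_sq (z : ℂ) : ‖Complex.cosh z‖ ^ 2 =
    (Real.cosh (2 * z.re) + Real.cos (2 * z.im)) / 2 := by
  have h1 := NUMF.norm_cos_sq (-z.im) z.re
  rw [mul_neg, Real.cos_neg] at h1
  rw [← h1]
  congr 2
  rw [← Complex.cos_mul_I]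
  congr 1
  apply Complex.ext <;> simp

theorem cosh_slit {z : ℂ} (h : |z.im| < 4 * l) : Complex.cosh z ∈ slitPlane := by
  left
  rw [← Complex.re_add_im z, Complex.cosh_add, Complex.cosh_mul_I, Complex.sinh_mul_I]
  rw [← Complex.ofReal_cosh, ← Complex.ofReal_sinh, ← Complex.ofReal_cos, ← Complex.ofReal_sin]
  simp only [add_re, mul_re, ofReal_re, ofReal_im, I_re, I_im, mul_im, mul_zero, zero_mul, sub_zero,
    mul_one, add_zero, sub_self]
  rw [four_l] at h
  have h1 := abs_lt.1 h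
  have := Real.cos_pos_of_mem_Ioo (x := z.im) ⟨h1.1, h1.2⟩
  have := Real.cosh_pos z.re
  positivity

theorem hasDerivAt_Lc {z : ℂ} (h : |z.im| < 4 * l) : HasDerivAt Lc (dLc z) z := by
  have h1 := ((Complex.hasDerivAt_cosh z).clog (cosh_slit h)).const_mul 2
  exact h1.add_const _

theorem re_Lc {z : ℂ} (h : |z.im| < 4 * l) : (Lc z).re = NUMF.h z.re z.im := by
  have h0 := slitPlane_ne_zero (cosh_slit h)
  have h1 : 0 < ‖Complex.cosh z‖ := norm_pos_iff.2 h0
  have h2 := norm_cosh_sq z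
  unfold Lc NUMF.h
  rw [add_re, ofReal_re, mul_re]
  simp only [re_ofNat, im_ofNat, zero_mul, sub_zero]
  rw [Complex.log_re, show Real.cosh (2 * z.re) + Real.cos (2 * z.im) = ‖Complex.cosh z‖ ^ 2 * 2 by
    linarith, Real.log_mul (by positivity) two_ne_zero, Real.log_pow]
  push_cast
  ring

theorem cos_le_norm_cosh {b : ℝ} (hb : b < 4 * l) {z : ℂ} (h : |z.im| ≤ b) :
    0 < Real.cos b ∧ Real.cos b ≤ ‖Complex.cosh z‖ := by
  have hb0 : 0 ≤ b := (abs_nonneg _).trans h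
  rw [four_l] at hb
  have hpi := Real.pi_pos
  have hc : 0 < Real.cos b := Real.cos_pos_of_mem_Ioo ⟨by linarith, hb⟩
  refine ⟨hc, ?_⟩
  have h1 : Real.cos b ≤ Real.cos z.im := by
    rw [← Real.cos_abs z.im]
    exact Real.cos_le_cos_of_nonneg_of_le_pi (abs_nonneg _) (by linarith) h
  have h2 := norm_cosh_sq z
  have h3 := Real.one_le_cosh (2 * z.re)
  have h4 := Real.cos_two_mul z.im
  refine (sq_le_sq₀ hc.le (norm_nonneg _)).1 ?_
  rw [h2]
  nlinarith

theorem norm_cosh_le (z : ℂ) : ‖Complex.cosh z‖ ≤ Real.exp |z.re| := by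
  refine (sq_le_sq₀ (norm_nonneg _) (Real.exp_pos _).le).1 ?_
  rw [norm_cosh_sq, ← Real.exp_nat_mul]
  have h1 := NUMF.arg_le z.re z.im
  push_cast
  linarith

theorem norm_Lc_le {b : ℝ} (hb : b < 4 * l) : ∃ K : ℝ, 0 ≤ K ∧ ∀ z : ℂ, |z.im| ≤ b →
    ‖Lc z‖ ≤ K * (1 + |z.re|) := by
  refine ⟨2 * |Real.log (Real.cos b)| + 2 * Real.pi + 3, by positivity, fun z hz => ?_⟩
  obtain ⟨c0, c1⟩ := cos_le_norm_cosh hb hz
  have h1 : 0 < ‖Complex.cosh z‖ := lt_of_lt_of_le c0 c1
  have h2 : |Real.log ‖Complex.cosh z‖| ≤ |z.re| + |Real.log (Real.cos b)| := by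
    rw [abs_le]
    constructor
    · have := Real.log_le_log c0 c1
      have := neg_abs_le (Real.log (Real.cos b))
      have := abs_nonneg z.re
      linarith
    · have h3 := Real.log_le_log h1 (norm_cosh_le z)
      rw [Real.log_exp] at h3
      have := abs_nonneg (Real.log (Real.cos b))
      linarith
  have h4 : ‖Complex.log (Complex.cosh z)‖ ≤ |z.re| + |Real.log (Real.cos b)| + Real.pi := by
    refine (Complex.norm_le_abs_re_add_abs_im _).trans ?_
    rw [Complex.log_re]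
    have := Complex.abs_arg_le_pi (Complex.cosh z)
    rw [Complex.log_im]
    linarith
  have h5 : ‖((Real.log 2 : ℝ) : ℂ)‖ ≤ 1 := by
    rw [norm_real, Real.norm_eq_abs, abs_of_pos (Real.log_pos (by norm_num))]
    have := Real.log_two_lt_d9
    linarith
  unfold Lc
  refine (norm_add_le _ _).trans ?_
  rw [norm_mul, Complex.norm_two]
  have h6 := abs_nonneg z.re
  have h7 := abs_nonneg (Real.log (Real.cos b))
  have hpi := Real.pi_pos
  nlinarith [mul_nonneg h6 h7, mul_nonneg h6 hpi.le]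

theorem norm_dLc_le {b : ℝ} (hb : b < 4 * l) : ∃ K : ℝ, 0 ≤ K ∧ ∀ z : ℂ, |z.im| ≤ b → ‖dLc z‖ ≤ K := by
  refine ⟨2 * (1 + (|Real.cos b|)⁻¹), by positivity, fun z hz => ?_⟩
  obtain ⟨c0, c1⟩ := cos_le_norm_cosh hb hz
  rw [abs_of_pos c0]
  have h1 : 0 < ‖Complex.cosh z‖ := lt_of_lt_of_le c0 c1
  have h2 : ‖Complex.sinh z‖ ≤ ‖Complex.cosh z‖ + 1 := by
    refine (sq_le_sq₀ (norm_nonneg _) (by positivity)).1 ?_
    have e1 : ‖Complex.sinh z‖ ^ 2 ≤ ‖Complex.cosh z‖ ^ 2 + 1 := by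
      have := Complex.cosh_sq z
      have e2 : Complex.sinh z ^ 2 = Complex.cosh z ^ 2 - 1 := by rw [this]; ring
      calc ‖Complex.sinh z‖ ^ 2 = ‖Complex.sinh z ^ 2‖ := (norm_pow _ _).symm
        _ = ‖Complex.cosh z ^ 2 - 1‖ := by rw [e2]
        _ ≤ ‖Complex.cosh z ^ 2‖ + ‖(1 : ℂ)‖ := norm_sub_le _ _
        _ = _ := by rw [norm_pow, norm_one]
    nlinarith
  unfold dLc
  rw [norm_mul, Complex.norm_two, norm_div]
  refine mul_le_mul_of_nonneg_left ?_ two_pos.le
  calc ‖Complex.sinh z‖ / ‖Complex.cosh z‖ ≤ (‖Complex.cosh z‖ + 1) / ‖Complex.cosh z‖ := by gcongr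
    _ = 1 + (‖Complex.cosh z‖)⁻¹ := by field_simp
    _ ≤ _ := by gcongr

theorem cont_dLc : ContinuousOn dLc {z : ℂ | |z.im| < 4 * l} := by
  intro z hz
  have h0 : Complex.cosh z ≠ 0 := slitPlane_ne_zero (cosh_slit hz)
  unfold dLc
  have h1 : ContinuousAt (fun z : ℂ => 2 * (Complex.sinh z / Complex.cosh z)) z :=
    continuousAt_const.mul (Complex.continuous_sinh.continuousAt.div
      Complex.continuous_cosh.continuousAt h0)
  exact h1.continuousWithinAt

/-! ### analytic clouds -/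

/-- the complex cloud of the density `r` on the curve `η` -/
def Lf (r η : ℝ → ℝ) (ζ : ℂ) : ℂ := ∫ s, (r s : ℂ) * Lc (ζ - cpt η s)

/-- a density on the line with exponential tails -/
structure Dns (κ C : ℝ) (r : ℝ → ℝ) : Prop where
  cont : Continuous r
  κ0 : 0 < κ
  C0 : 0 ≤ C
  le : ∀ s, |r s| ≤ C * Real.exp (-κ * |s|)

theorem int_exp_lin {κ : ℝ} (hκ : 0 < κ) (A : ℝ) :
    Integrable fun s : ℝ => Real.exp (-κ * |s|) * (A + |s|) := by
  have h1 := (NUMF.int_exp_abs (half_pos hκ)).const_mul (|A| + 2 / κ)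
  refine h1.mono' (Continuous.aestronglyMeasurable (by fun_prop)) (Eventually.of_forall fun s => ?_)
  have h2 : |s| ≤ 2 / κ * Real.exp (κ / 2 * |s|) := by
    have h4 := Real.add_one_le_exp (κ / 2 * |s|)
    calc |s| = 2 / κ * (κ / 2 * |s|) := by field_simp
      _ ≤ _ := by gcongr; linarith
  have h3 : 1 ≤ Real.exp (κ / 2 * |s|) := Real.one_le_exp (by positivity)
  have e : Real.exp (-κ * |s|) * Real.exp (κ / 2 * |s|) = Real.exp (-(κ / 2) * |s|) := by
    rw [← Real.exp_add]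
    congr 1
    ring
  rw [Real.norm_eq_abs, abs_mul, Real.abs_exp]
  have h5 : abs (A + |s|) ≤ (|A| + 2 / κ) * Real.exp (κ / 2 * |s|) := by
    have h6 : abs (A + |s|) ≤ |A| + |s| := by
      refine (abs_add_le _ _).trans ?_
      rw [abs_abs]
    have h7 := mul_le_mul_of_nonneg_left h3 (abs_nonneg A)
    linarith
  calc Real.exp (-κ * |s|) * abs (A + |s|) ≤ Real.exp (-κ * |s|) *
        ((|A| + 2 / κ) * Real.exp (κ / 2 * |s|)) := mul_le_mul_of_nonneg_left h5 (Real.exp_pos _).le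
    _ = (|A| + 2 / κ) * (Real.exp (-κ * |s|) * Real.exp (κ / 2 * |s|)) := by ring
    _ = _ := by rw [e]

section cloud
variable {κ C : ℝ} {r : ℝ → ℝ}

/-- the strip of a point -/
theorem strip_b (ge : ∀ t, lo ≤ η t) (le : ∀ t, η t ≤ hi) {ζ : ℂ}
    (h1 : hi - 4 * l < ζ.im) (h2 : ζ.im < 4 * l + lo) : ∃ b : ℝ, b < 4 * l ∧ ∃ ε : ℝ, 0 < ε ∧
      ∀ w ∈ Metric.ball ζ ε, ∀ s, |(w - cpt η s).im| ≤ b := by
  obtain ⟨d, hd⟩ : ∃ d, d = min (ζ.im - (hi - 4 * l)) (4 * l + lo - ζ.im) / 2 := ⟨_, rfl⟩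
  have hd1 : d ≤ (ζ.im - (hi - 4 * l)) / 2 := by
    rw [hd]
    have := min_le_left (ζ.im - (hi - 4 * l)) (4 * l + lo - ζ.im)
    linarith
  have hd2 : d ≤ (4 * l + lo - ζ.im) / 2 := by
    rw [hd]
    have := min_le_right (ζ.im - (hi - 4 * l)) (4 * l + lo - ζ.im)
    linarith
  have hd0 : 0 < d := by
    rw [hd]
    have := lt_min (sub_pos.2 h1) (sub_pos.2 h2)
    linarith
  refine ⟨4 * l - d, by linarith, d, hd0, fun w hw s => ?_⟩
  rw [Metric.mem_ball, dist_eq_norm] at hw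
  have h3 := (Complex.abs_im_le_norm (w - ζ)).trans hw.le
  rw [sub_im] at h3
  have h4 := abs_le.1 h3
  have h5 := ge s
  have h6 := le s
  rw [sub_im, cpt_im, abs_le]
  constructor <;> linarith [h4.1, h4.2]

theorem re_sub_cpt (w : ℂ) (s : ℝ) : (w - cpt η s).re = w.re - s := by simp

theorem Lf_int (hr : Dns κ C r) (hc : Continuous η) (ge : ∀ t, lo ≤ η t) (le : ∀ t, η t ≤ hi)
    {ζ : ℂ} (h1 : hi - 4 * l < ζ.im) (h2 : ζ.im < 4 * l + lo) :
    Integrable fun s => (r s : ℂ) * Lc (ζ - cpt η s) := by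
  obtain ⟨b, hb, ε, hε, hB⟩ := strip_b ge le h1 h2
  obtain ⟨K, hK0, hK⟩ := norm_Lc_le hb
  have hm := hB ζ (Metric.mem_ball_self hε)
  have hcc : Continuous fun s => Lc (ζ - cpt η s) := by
    have h3 : ContinuousOn Lc {z : ℂ | |z.im| < 4 * l} := fun z hz =>
      (hasDerivAt_Lc hz).continuousAt.continuousWithinAt
    refine h3.comp_continuous ?_ fun s => lt_of_le_of_lt (hm s) hb
    unfold cpt
    fun_prop
  have hrc := hr.cont
  refine ((int_exp_lin hr.κ0 (1 + |ζ.re|)).const_mul (C * K)).mono'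
    (Continuous.aestronglyMeasurable (by fun_prop)) (Eventually.of_forall fun s => ?_)
  rw [norm_mul, norm_real, Real.norm_eq_abs]
  have h3 := hK _ (hm s)
  rw [re_sub_cpt] at h3
  have h4 : |ζ.re - s| ≤ |ζ.re| + |s| := abs_sub _ _
  have hC := hr.C0
  calc |r s| * ‖Lc (ζ - cpt η s)‖ ≤ (C * Real.exp (-κ * |s|)) * (K * (1 + |ζ.re - s|)) :=
        mul_le_mul (hr.le s) h3 (norm_nonneg _) (by positivity)
    _ ≤ (C * Real.exp (-κ * |s|)) * (K * (1 + |ζ.re| + |s|)) := by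
        refine mul_le_mul_of_nonneg_left (mul_le_mul_of_nonneg_left ?_ hK0) (by positivity)
        linarith
    _ = _ := by ring

/-- **the cloud is analytic** -/
theorem hasDerivAt_Lf (hr : Dns κ C r) (hc : Continuous η) (ge : ∀ t, lo ≤ η t)
    (le : ∀ t, η t ≤ hi) {ζ : ℂ} (h1 : hi - 4 * l < ζ.im) (h2 : ζ.im < 4 * l + lo) :
    HasDerivAt (Lf r η) (∫ s, (r s : ℂ) * dLc (ζ - cpt η s)) ζ := by
  obtain ⟨b, hb, ε, hε, hB⟩ := strip_b ge le h1 h2
  obtain ⟨K, hK0, hK⟩ := norm_dLc_le hb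
  have hrc := hr.cont
  have hm := hB ζ (Metric.mem_ball_self hε)
  have ms : ∀ w ∈ Metric.ball ζ ε, ∀ s, |(w - cpt η s).im| < 4 * l := fun w hw s =>
    lt_of_le_of_lt (hB w hw s) hb
  have cL : ∀ w ∈ Metric.ball ζ ε, Continuous fun s => Lc (w - cpt η s) := fun w hw => by
    have h3 : ContinuousOn Lc {z : ℂ | |z.im| < 4 * l} := fun z hz =>
      (hasDerivAt_Lc hz).continuousAt.continuousWithinAt
    refine h3.comp_continuous ?_ (ms w hw)
    unfold cpt
    fun_prop
  have cd : Continuous fun s => dLc (ζ - cpt η s) := by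
    refine cont_dLc.comp_continuous ?_ (ms ζ (Metric.mem_ball_self hε))
    unfold cpt
    fun_prop
  refine (hasDerivAt_integral_of_dominated_loc_of_deriv_le
    (F := fun w s => (r s : ℂ) * Lc (w - cpt η s))
    (F' := fun w s => (r s : ℂ) * dLc (w - cpt η s))
    (bound := fun s => C * K * Real.exp (-κ * |s|)) (Metric.ball_mem_nhds ζ hε) ?_ ?_ ?_ ?_ ?_ ?_).2
  · filter_upwards [Metric.ball_mem_nhds ζ hε] with w hw
    have := cL w hw
    exact Continuous.aestronglyMeasurable (by fun_prop)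
  · exact Lf_int hr hc ge le h1 h2
  · exact Continuous.aestronglyMeasurable (by fun_prop)
  · refine Eventually.of_forall fun s w hw => ?_
    rw [norm_mul, norm_real, Real.norm_eq_abs]
    have hC := hr.C0
    calc |r s| * ‖dLc (w - cpt η s)‖ ≤ (C * Real.exp (-κ * |s|)) * K :=
          mul_le_mul (hr.le s) (hK _ (hB w hw s)) (norm_nonneg _) (by positivity)
      _ = _ := by ring
  · exact (NUMF.int_exp_abs hr.κ0).const_mul _
  · refine Eventually.of_forall fun s w hw => ?_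
    have h3 : HasDerivAt (fun w : ℂ => w - cpt η s) 1 w := (hasDerivAt_id w).sub_const _
    have h4 := (hasDerivAt_Lc (ms w hw s)).comp w h3
    rw [mul_one] at h4
    exact h4.const_mul _

/-- the real part of the cloud -/
theorem re_Lf (hr : Dns κ C r) (hc : Continuous η) (ge : ∀ t, lo ≤ η t) (le : ∀ t, η t ≤ hi)
    {ζ : ℂ} (h1 : hi - 4 * l < ζ.im) (h2 : ζ.im < 4 * l + lo) :
    (Lf r η ζ).re = ∫ s, r s * NUMF.h (ζ.re - s) (ζ.im - η s) := by
  have hI := Lf_int hr hc ge le h1 h2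
  have e : (Lf r η ζ).re = ∫ s, ((r s : ℂ) * Lc (ζ - cpt η s)).re :=
    (Complex.reCLM.integral_comp_comm hI).symm
  rw [e]
  refine integral_congr_ae (Eventually.of_forall fun s => ?_)
  have h3 : |(ζ - cpt η s).im| < 4 * l := by
    rw [sub_im, cpt_im, abs_lt]
    have := ge s
    have := le s
    constructor <;> linarith
  simp only
  rw [re_ofReal_mul, re_Lc h3, re_sub_cpt, sub_im, cpt_im]

end cloud

end PLT

end
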