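import Pool.Agent.PLT.CurPot

/-!
# The potential of a cloud on a curve, rows at complex places

As `PLT/CurPot`, the places are complex: `x i = a + i b` is a row at offset `a` and height `b`.

* `PCx w x z = ∑ i, w i * Pc (z + x i I)`; `CurX w x lo hi η η' ρ`; `Cur.toX`;
* **`cur_potX`**: `∫ s, ρ s * h (t - s) (y - η s) = ∑ i, w i * Hc (t - (x i).im) (y + (x i).re)`,
  `hi - 4 l < y < 4 l + lo`; `cur_massX`.
-/

set_option autoImplicit false

noncomputable section

open MeasureTheory Set Filter Topology Complex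

namespace PLT

open NUMF (l l_pos P Pc)

variable {ι : Type*} [Fintype ι]

/-- the density of rows at complex places -/
def PCx (w : ι → ℝ) (x : ι → ℂ) (z : ℂ) : ℂ := ∑ i, (w i : ℂ) * Pc (z + x i * I)

/-- rows with weights at complex places; the density moved to a curve is real -/
structure CurX (w : ι → ℝ) (x : ι → ℂ) (lo hi : ℝ) (η η' ρ : ℝ → ℝ) : Prop where
  prf : Prf lo hi η η'
  x1 : ∀ i, -l < lo + (x i).re
  x2 : ∀ i, hi + (x i).re < l
  real : ∀ t, PCx w x (cpt η t) * cjc η' t = (ρ t : ℂ)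

/-- real places -/
theorem Cur.toX {w x : ι → ℝ} {lo hi : ℝ} {η η' ρ : ℝ → ℝ} (h : Cur w x lo hi η η' ρ) :
    CurX w (fun i => (x i : ℂ)) lo hi η η' ρ :=
  ⟨h.prf, h.x1, h.x2, h.real⟩

/-! ### one row -/

/-- one row seen from a point -/
private def fi (x ζ z : ℂ) : ℂ := Pc (z + x * I) * Lc (ζ - z)

private theorem im_row (z x : ℂ) : (z + x * I).im = z.im + x.re := by simp

private theorem re_row (z x : ℂ) : (z + x * I).re = z.re - x.im := by
  simp [sub_eq_add_neg]

private theorem mul_row (x : ℂ) : x * I = x.re * I - x.im := by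
  apply Complex.ext <;> simp

private theorem exp_row (z x : ℂ) : Real.exp (-(8 / 3) * |(z + x * I).re|) ≤
    Real.exp (8 / 3 * |x.im|) * Real.exp (-(8 / 3) * |z.re|) := by
  rw [re_row, ← Real.exp_add, Real.exp_le_exp]
  have := abs_sub_abs_le_abs_sub z.re x.im
  linarith

private theorem fi_diff {x ζ z : ℂ} (h1 : |z.im + x.re| < l) (h2 : |ζ.im - z.im| < 4 * l) :
    DifferentiableAt ℂ (fi x ζ) z := by
  unfold fi
  have d1 : DifferentiableAt ℂ (fun z : ℂ => z + x * I) z := by fun_prop
  have d2 : DifferentiableAt ℂ (fun z : ℂ => ζ - z) z := by fun_prop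
  refine DifferentiableAt.mul ?_ ?_
  · exact DifferentiableAt.comp (g := Pc) z (NUMF.Pc_diff (by rw [im_row]; exact h1)) d1
  · exact DifferentiableAt.comp (g := Lc) z (hasDerivAt_Lc (by simpa using h2)).differentiableAt d2

private theorem fi_le {x : ℂ} {lo hi : ℝ} {ζ : ℂ} (x1 : -l < lo + x.re) (x2 : hi + x.re < l)
    (y1 : hi - 4 * l < ζ.im) (y2 : ζ.im < 4 * l + lo) : ∃ C : ℝ, 0 ≤ C ∧ ∀ z ∈ stp lo hi,
    ‖fi x ζ z‖ ≤ C * Real.exp (-1 * |z.re|) := by
  obtain ⟨b, hb⟩ : ∃ b, b = max (hi + x.re) (-(lo + x.re)) := ⟨_, rfl⟩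
  obtain ⟨b', hb'⟩ : ∃ b', b' = max (ζ.im - lo) (hi - ζ.im) := ⟨_, rfl⟩
  obtain ⟨C, hC, h1⟩ := Pc_le (b := b) (by rw [hb]; exact max_lt x2 (by linarith))
  obtain ⟨K, hK, h2⟩ := norm_Lc_le (b := b') (by rw [hb']; exact max_lt (by linarith) (by linarith))
  refine ⟨C * Real.exp (8 / 3 * |x.im|) * (K * (1 + |ζ.re| + 1)), by positivity, fun z hz => ?_⟩
  have a1 := h1 (z + x * I) (by
    rw [hb, im_row, abs_le]
    have := le_max_left (hi + x.re) (-(lo + x.re))
    have := le_max_right (hi + x.re) (-(lo + x.re))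
    have := hz.1
    have := hz.2
    constructor <;> linarith)
  have a2 := h2 (ζ - z) (by
    rw [hb', sub_im, abs_le]
    have := le_max_left (ζ.im - lo) (hi - ζ.im)
    have := le_max_right (ζ.im - lo) (hi - ζ.im)
    have := hz.1
    have := hz.2
    constructor <;> linarith)
  have a3 : ‖Pc (z + x * I)‖ ≤ C * Real.exp (8 / 3 * |x.im|) * Real.exp (-(8 / 3) * |z.re|) := by
    rw [mul_assoc]
    exact a1.trans (mul_le_mul_of_nonneg_left (exp_row z x) hC)
  have e2 : |(ζ - z).re| ≤ |ζ.re| + |z.re| := by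
    rw [sub_re]
    exact abs_sub _ _
  have e3 : 1 + (|ζ.re| + |z.re|) ≤ (1 + |ζ.re| + 1) * Real.exp (5 / 3 * |z.re|) := by
    have b1 := Real.add_one_le_exp (5 / 3 * |z.re|)
    have b2 := abs_nonneg z.re
    have b3 := abs_nonneg ζ.re
    have b4 : 1 ≤ Real.exp (5 / 3 * |z.re|) := Real.one_le_exp (by positivity)
    nlinarith
  unfold fi
  rw [norm_mul]
  have e4 : Real.exp (-(8 / 3) * |z.re|) * Real.exp (5 / 3 * |z.re|) = Real.exp (-1 * |z.re|) := by
    rw [← Real.exp_add]
    congr 1
    ring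
  calc ‖Pc (z + x * I)‖ * ‖Lc (ζ - z)‖ ≤
      (C * Real.exp (8 / 3 * |x.im|) * Real.exp (-(8 / 3) * |z.re|)) *
        (K * ((1 + |ζ.re| + 1) * Real.exp (5 / 3 * |z.re|))) := by
        refine mul_le_mul a3 (a2.trans ?_) (norm_nonneg _) (by positivity)
        refine mul_le_mul_of_nonneg_left ?_ hK
        linarith
    _ = C * Real.exp (8 / 3 * |x.im|) * (K * (1 + |ζ.re| + 1)) *
        (Real.exp (-(8 / 3) * |z.re|) * Real.exp (5 / 3 * |z.re|)) := by
        ring
    _ = _ := by rw [e4]

private theorem row_pot {x : ℂ} {lo hi : ℝ} {η η' : ℝ → ℝ} (p : Prf lo hi η η')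
    (x1 : -l < lo + x.re) (x2 : hi + x.re < l) {y : ℝ} (y1 : hi - 4 * l < y) (y2 : y < 4 * l + lo)
    (t : ℝ) : Integrable (fun s => fi x (t + y * I) (cpt η s) * cjc η' s) ∧
    (∫ s, fi x (t + y * I) (cpt η s) * cjc η' s).re = Hc (t - x.im) (y + x.re) := by
  have hl := l_pos
  have hlh := p.lohi
  have eim : ((t : ℂ) + y * I).im = y := by simp
  obtain ⟨C, hC, hb⟩ := fi_le (ζ := (t : ℂ) + y * I) x1 x2 (by rw [eim]; exact y1)
    (by rw [eim]; exact y2)
  obtain ⟨h1, -, h3⟩ := shift_curve (a := lo) (b := hi) (c := lo) one_pos hC p le_rfl le_rfl le_rfl hlh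
    (f := fi x (t + y * I)) (fun z hz => (fi_diff (by
      rw [abs_lt]
      have := hz.1
      have := hz.2
      constructor <;> linarith) (by
      rw [eim, abs_lt]
      have := hz.1
      have := hz.2
      constructor <;> linarith)).differentiableWithinAt) hb
  refine ⟨h1, ?_⟩
  rw [h3]
  obtain ⟨-, h4⟩ := line_pot (c := lo + x.re) (t := t - x.im) (y := y + x.re)
    (by rw [abs_lt]; constructor <;> linarith)
    (by rw [show y + x.re - (lo + x.re) = y - lo by ring, abs_lt]; constructor <;> linarith)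
  rw [← h4, ← integral_add_right_eq_self (μ := volume) _ x.im]
  congr 1
  refine integral_congr_ae (Eventually.of_forall fun s => ?_)
  simp only
  unfold fi
  congr 2
  · push_cast
    linear_combination mul_row x
  · push_cast
    ring

/-! ### the content -/

variable {w : ι → ℝ} {x : ι → ℂ} {lo hi : ℝ} {η η' ρ : ℝ → ℝ}

theorem CurX.im_lt (h : CurX w x lo hi η η' ρ) {y : ℝ} (y1 : hi - 4 * l < y) (y2 : y < 4 * l + lo)
    (s : ℝ) : |y - η s| < 4 * l := by
  have := h.prf.ge s
  have := h.prf.le s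
  rw [abs_lt]
  constructor <;> linarith

/-- **the potential of the cloud on the curve** -/
theorem cur_potX (h : CurX w x lo hi η η' ρ) {y : ℝ} (y1 : hi - 4 * l < y) (y2 : y < 4 * l + lo)
    (t : ℝ) : Integrable (fun s => ρ s * NUMF.h (t - s) (y - η s)) ∧
    ∫ s, ρ s * NUMF.h (t - s) (y - η s) = ∑ i, w i * Hc (t - (x i).im) (y + (x i).re) := by
  have hr : ∀ i, Integrable (fun s => fi (x i) (t + y * I) (cpt η s) * cjc η' s) ∧
      (∫ s, fi (x i) (t + y * I) (cpt η s) * cjc η' s).re = Hc (t - (x i).im) (y + (x i).re) :=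
    fun i => row_pot h.prf (h.x1 i) (h.x2 i) y1 y2 t
  have e1 : ∀ s, ((∑ i, (w i : ℂ) * (fi (x i) (t + y * I) (cpt η s) * cjc η' s)) : ℂ) =
      (ρ s : ℂ) * Lc (t + y * I - cpt η s) := by
    intro s
    rw [← h.real s]
    unfold PCx fi
    rw [Finset.sum_mul, Finset.sum_mul]
    exact Finset.sum_congr rfl fun i _ => by ring
  have e2 : ∀ s, ((ρ s : ℂ) * Lc (t + y * I - cpt η s)).re = ρ s * NUMF.h (t - s) (y - η s) := by
    intro s
    have him : ((t : ℂ) + y * I - cpt η s).im = y - η s := by simp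
    have hre : ((t : ℂ) + y * I - cpt η s).re = t - s := by simp
    rw [re_ofReal_mul, re_Lc (by rw [him]; exact h.im_lt y1 y2 s), him, hre]
  have i1 : Integrable fun s => ∑ i, (w i : ℂ) * (fi (x i) (t + y * I) (cpt η s) * cjc η' s) :=
    integrable_finset_sum _ fun i _ => (hr i).1.const_mul _
  have i2 : Integrable fun s => (ρ s : ℂ) * Lc (t + y * I - cpt η s) :=
    i1.congr (Eventually.of_forall e1)
  have i3 := i2.re
  simp only [RCLike.re_to_complex] at i3
  refine ⟨i3.congr (Eventually.of_forall e2), ?_⟩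
  have e3 := integral_re i2
  simp only [RCLike.re_to_complex] at e3
  simp_rw [e2] at e3
  rw [e3, ← integral_congr_ae (Eventually.of_forall e1),
    integral_finsetSum _ fun i _ => (hr i).1.const_mul _, Complex.re_sum]
  refine Finset.sum_congr rfl fun i _ => ?_
  rw [integral_const_mul, re_ofReal_mul, (hr i).2]

/-- the density is integrable and has the mass of the weights -/
theorem cur_massX (h : CurX w x lo hi η η' ρ) : Integrable ρ ∧ ∫ s, ρ s = ∑ i, w i := by
  have hl := l_pos
  have hlh := h.prf.lohi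
  have hr : ∀ i, Integrable (fun s => Pc (cpt η s + x i * I) * cjc η' s) ∧
      ∫ s, Pc (cpt η s + x i * I) * cjc η' s = 1 := by
    intro i
    have x1 := h.x1 i
    have x2 := h.x2 i
    obtain ⟨b, hb⟩ : ∃ b, b = max (hi + (x i).re) (-(lo + (x i).re)) := ⟨_, rfl⟩
    obtain ⟨C, hC, h1⟩ := Pc_le (b := b) (by rw [hb]; exact max_lt x2 (by linarith))
    obtain ⟨h1, -, h3⟩ := shift_curve (a := lo) (b := hi) (c := lo) (κ := 8 / 3) (by norm_num)
      (C := C * Real.exp (8 / 3 * |(x i).im|)) (by positivity) h.prf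
      le_rfl le_rfl le_rfl hlh (f := fun z => Pc (z + x i * I)) (fun z hz => by
        have d1 : DifferentiableAt ℂ (fun z : ℂ => z + x i * I) z := by fun_prop
        refine (DifferentiableAt.comp (g := Pc) z (NUMF.Pc_diff ?_) d1).differentiableWithinAt
        have := hz.1
        have := hz.2
        rw [im_row, abs_lt]
        constructor <;> linarith) (fun z hz => by
        have := h1 (z + x i * I) (by
          rw [hb, im_row, abs_le]
          have := le_max_left (hi + (x i).re) (-(lo + (x i).re))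
          have := le_max_right (hi + (x i).re) (-(lo + (x i).re))
          have := hz.1
          have := hz.2
          constructor <;> linarith)
        rw [mul_assoc]
        exact this.trans (mul_le_mul_of_nonneg_left (exp_row z (x i)) hC))
    refine ⟨h1, ?_⟩
    rw [h3]
    obtain ⟨-, h4⟩ := Pc_one (c := lo + (x i).re) (by rw [abs_lt]; constructor <;> linarith)
    rw [← h4, ← integral_add_right_eq_self (μ := volume) _ (x i).im]
    refine integral_congr_ae (Eventually.of_forall fun s => ?_)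
    simp only
    congr 1
    push_cast
    linear_combination mul_row (x i)
  have e1 : ∀ s, (∑ i, (w i : ℂ) * (Pc (cpt η s + x i * I) * cjc η' s)) = (ρ s : ℂ) := by
    intro s
    rw [← h.real s]
    unfold PCx
    rw [Finset.sum_mul]
    exact Finset.sum_congr rfl fun i _ => by ring
  have i1 : Integrable fun s => ∑ i, (w i : ℂ) * (Pc (cpt η s + x i * I) * cjc η' s) :=
    integrable_finset_sum _ fun i _ => (hr i).1.const_mul _
  have i2 : Integrable fun s => (ρ s : ℂ) := i1.congr (Eventually.of_forall e1)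
  have i3 := i2.re
  simp only [RCLike.re_to_complex, ofReal_re] at i3
  refine ⟨i3, ?_⟩
  have e3 : ∫ s, (ρ s : ℂ) = ∑ i, (w i : ℂ) := by
    rw [← integral_congr_ae (Eventually.of_forall e1),
      integral_finsetSum _ fun i _ => (hr i).1.const_mul _]
    refine Finset.sum_congr rfl fun i _ => ?_
    rw [integral_const_mul, (hr i).2, mul_one]
  rw [integral_complex_ofReal] at e3
  exact_mod_cast e3

end PLT

end
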