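import Pool.Agent.PLT.Pair
import Pool.Agent.PLT.Apex

/-!
# The curve of the balanced pair of rows

`1/2 ≤ y < 1`; rows at `- y l` and `(1 - y) l` with the weights `wA y`, `wB y` (`PLT/Pair`).

* `abs_La_le`, `SC_tendsto`: the level function tends to `0` at `t = ∞`;
* `SC_zero_nonpos`: it is `≤ 0` at the offset `0`; **`SC_nonneg_of`**: for `0 ≤ v < y l` it is `≥ 0` at all
  heights if it is `≥ 0` at height `0`; `SC_v0_pos`: positive at `v0 = 3 / 8 arctan (61 / 1000)`;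
* **`exists_curve`**: for all `t` there is `v` in `[0, v0]` with level `0`; **`lev_pair`**; `v0_lt`:
  `v0 < 7 / 120 l < 3 / 50 l`;
* **`etaP_nonneg`, `etaP_le`, `etaP_lt`**: `0 ≤ etaP y t ≤ v0 < 3 / 50 l`.
-/

set_option autoImplicit false

noncomputable section

open MeasureTheory Set Filter Topology
open scoped ContDiff

namespace PLT

open NUMF

theorem ch_zero : ch 0 = 1 := by
  unfold ch
  simp

theorem l_pos' : 0 < l := by
  unfold l
  positivity

theorem pi_eq_l : Real.pi = 8 * l := by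
  unfold l
  ring

/-! ### the limit -/

theorem abs_La_le {β c : ℝ} (hc : 1 ≤ c) (hs : |Real.sin β| < 1) :
    |La β c| ≤ |Real.sin β| / ((1 - |Real.sin β|) * c) := by
  obtain ⟨s, hs'⟩ : ∃ s, s = Real.sin β := ⟨_, rfl⟩
  rw [← hs'] at hs ⊢
  obtain ⟨h1, h2⟩ := abs_lt.1 hs
  have p1 : 0 < c + s := by linarith
  have p2 : 0 < c - s := by linarith
  have e : La β c = Real.log ((c + s) / (c - s)) / 2 := by
    unfold La
    rw [← hs', Real.log_div p1.ne' p2.ne']
  have u1 := Real.log_le_sub_one_of_pos (x := (c + s) / (c - s)) (by positivity)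
  have u2 := Real.one_sub_inv_le_log_of_pos (x := (c + s) / (c - s)) (by positivity)
  have e1 : (c + s) / (c - s) - 1 = 2 * s / (c - s) := by
    field_simp
    ring
  have e2 : 1 - ((c + s) / (c - s))⁻¹ = 2 * s / (c + s) := by
    rw [inv_div]
    field_simp
    ring
  rw [e1] at u1
  rw [e2] at u2
  have hk : 0 < (1 - |s|) * c := mul_pos (by linarith) (by linarith)
  have k1 : (1 - |s|) * c ≤ c - s := by
    have := le_abs_self s
    have := abs_nonneg s
    nlinarith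
  have k2 : (1 - |s|) * c ≤ c + s := by
    have := neg_abs_le s
    have := abs_nonneg s
    nlinarith
  have w1 : s / (c - s) ≤ |s| / ((1 - |s|) * c) :=
    (div_le_div_of_nonneg_right (le_abs_self s) p2.le).trans
      (div_le_div_of_nonneg_left (abs_nonneg s) hk k1)
  have w2 : -(s / (c + s)) ≤ |s| / ((1 - |s|) * c) := by
    rw [← neg_div]
    exact (div_le_div_of_nonneg_right (neg_le_abs s) p1.le).trans
      (div_le_div_of_nonneg_left (abs_nonneg s) hk k2)
  have r1 : 2 * s / (c - s) = 2 * (s / (c - s)) := by ring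
  have r2 : 2 * s / (c + s) = 2 * (s / (c + s)) := by ring
  rw [e, abs_le]
  constructor <;> linarith

theorem ch_ge (t : ℝ) : 8 / 3 * t / 2 ≤ ch t := by
  unfold ch
  rw [Real.cosh_eq]
  have h1 := Real.add_one_le_exp (8 / 3 * t)
  have h2 := Real.exp_pos (-(8 / 3 * t))
  linarith

theorem ch_tendsto : Tendsto ch atTop atTop := by
  refine tendsto_atTop_mono ch_ge ?_
  exact (tendsto_id.const_mul_atTop (by norm_num : (0 : ℝ) < 8 / 3)).atTop_div_const (by norm_num)

theorem Ag_tendsto {v : ℝ} (hv : |v| < l) : Tendsto (fun t => Ag v t) atTop (𝓝 0) := by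
  obtain ⟨⟨a1, a2⟩, a3, a4⟩ := ang hv
  have b1 := abs_sin_lt_one a1 a2
  have b2 := abs_sin_lt_one a3 a4
  have key : ∀ {β : ℝ}, |Real.sin β| < 1 → Tendsto (fun t => La β (ch t)) atTop (𝓝 0) := by
    intro β hβ
    refine squeeze_zero_norm' (a := fun t => |Real.sin β| / (1 - |Real.sin β|) / ch t)
      (Filter.Eventually.of_forall fun t => ?_) ?_
    · rw [Real.norm_eq_abs]
      refine (abs_La_le (one_le_ch t) hβ).trans (le_of_eq ?_)
      rw [div_div]
    · exact Tendsto.div_atTop tendsto_const_nhds ch_tendsto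
  have := (key b1).add (key b2)
  rw [add_zero] at this
  exact this

/-- **the level function tends to `0`** -/
theorem SC_tendsto {ι : Type*} [Fintype ι] {m x : ι → ℝ} {v : ℝ} (hv : v ∈ Dm x) :
    Tendsto (fun t => SC m x v t) atTop (𝓝 0) := by
  unfold SC
  have : Tendsto (fun t => ∑ i, m i * Ag (v + x i) t) atTop (𝓝 (∑ i, m i * 0)) :=
    tendsto_finsetSum _ fun i _ => (Ag_tendsto (hv i)).const_mul (m i)
  simpa using this

/-! ### the height derivative -/

/-- `sinh 5 x = sinh x (16 c ^ 4 - 12 c ^ 2 + 1)` -/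
theorem sinh_five (x : ℝ) : Real.sinh (5 * x) = Real.sinh x *
    (16 * Real.cosh x ^ 4 - 12 * Real.cosh x ^ 2 + 1) := by
  have h := Real.cosh_sq x
  have h2 : Real.sinh x ^ 2 = Real.cosh x ^ 2 - 1 := by linarith
  rw [show 5 * x = 2 * x + 3 * x by ring, Real.sinh_add, Real.sinh_two_mul, Real.cosh_two_mul,
    Real.sinh_three_mul, Real.cosh_three_mul]
  have e3 : Real.sinh x ^ 3 = Real.sinh x * (Real.cosh x ^ 2 - 1) := by
    rw [pow_succ, h2]
    ring
  rw [e3, h2]
  ring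

/-- the bracket -/
def BrP (α κ t : ℝ) : ℝ := (16 * ch t ^ 4 - 12 * ch t ^ 2 + 1) * Real.sin α + Real.sin (5 * α - κ)

theorem hasDerivAt_pair {y v : ℝ} (h1 : -((1 - y) * l) < v) (h2 : v < y * l) (t : ℝ) :
    HasDerivAt (fun t => SC (mP y) (xP y) v t)
      (-(8 * (sh t * BrP (8 / 3 * v) (2 * mu y) t / dn y v t))) t := by
  have hd := dn_pos h1 h2 t
  have hp := Real.pi_pos
  refine (hasDerivAt_SC_t (mem_Dm.2 ⟨h1, h2⟩) t).congr_deriv ?_
  rw [PC_pair_im hd.ne', sinh_five]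
  unfold BrP sh ch
  field_simp
  ring

theorem BrP_mono {α κ s t : ℝ} (hα : 0 ≤ Real.sin α) (hs : 0 ≤ s) (hst : s ≤ t) :
    BrP α κ s ≤ BrP α κ t := by
  have h1 := one_le_ch s
  have h2 : ch s ≤ ch t := by
    unfold ch
    rw [Real.cosh_le_cosh, abs_of_nonneg (by positivity), abs_of_nonneg (by linarith)]
    linarith
  have h3 : 0 ≤ (ch t ^ 2 - ch s ^ 2) * (16 * (ch t ^ 2 + ch s ^ 2) - 12) :=
    mul_nonneg (by nlinarith) (by nlinarith)
  have h4 : 16 * ch s ^ 4 - 12 * ch s ^ 2 + 1 ≤ 16 * ch t ^ 4 - 12 * ch t ^ 2 + 1 := by nlinarith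
  unfold BrP
  have := mul_le_mul_of_nonneg_right h4 hα
  linarith

theorem sh_nonneg {t : ℝ} (ht : 0 ≤ t) : 0 ≤ sh t := by
  unfold sh
  exact Real.sinh_nonneg_iff.2 (by positivity)

theorem pair_cont {y v : ℝ} (h1 : -((1 - y) * l) < v) (h2 : v < y * l) :
    Continuous fun t => SC (mP y) (xP y) v t :=
  continuous_iff_continuousAt.2 fun t => (hasDerivAt_pair h1 h2 t).continuousAt

/-- decreasing to the limit -/
theorem nonneg_of_anti {f : ℝ → ℝ} {t : ℝ} (h : AntitoneOn f (Ici t)) (h0 : Tendsto f atTop (𝓝 0)) :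
    0 ≤ f t :=
  le_of_tendsto h0 ((eventually_ge_atTop t).mono fun _ hs => h (mem_Ici.2 le_rfl) (mem_Ici.2 hs) hs)

/-- increasing to the limit -/
theorem nonpos_of_mono {f : ℝ → ℝ} {t : ℝ} (h : MonotoneOn f (Ici t)) (h0 : Tendsto f atTop (𝓝 0)) :
    f t ≤ 0 :=
  ge_of_tendsto h0 ((eventually_ge_atTop t).mono fun _ hs => h (mem_Ici.2 le_rfl) (mem_Ici.2 hs) hs)

section pair

variable {y : ℝ}

/-- **the level function at the offset `0`** -/
theorem SC_zero_nonpos (hy : 1 / 2 ≤ y) (hy1 : y < 1) (t : ℝ) : SC (mP y) (xP y) 0 t ≤ 0 := by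
  have hl := l_pos'
  have hp := Real.pi_pos
  have h1 : -((1 - y) * l) < 0 := by nlinarith
  have h2 : (0 : ℝ) < y * l := by positivity
  have hm : ∀ t : ℝ, 0 ≤ t → SC (mP y) (xP y) 0 t ≤ 0 := by
    intro t ht
    refine nonpos_of_mono (f := fun t => SC (mP y) (xP y) 0 t) ?_ (SC_tendsto (mem_Dm.2 ⟨h1, h2⟩))
    refine monotoneOn_of_deriv_nonneg (convex_Ici t) (pair_cont h1 h2).continuousOn
      (fun s _ => (hasDerivAt_pair h1 h2 s).differentiableAt.differentiableWithinAt) fun s hs => ?_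
    rw [interior_Ici] at hs
    rw [(hasDerivAt_pair h1 h2 s).deriv]
    have hd := dn_pos h1 h2 s
    have hsh := sh_nonneg (ht.trans (le_of_lt hs))
    have hb : BrP (8 / 3 * 0) (2 * mu y) s ≤ 0 := by
      unfold BrP mu
      rw [mul_zero, Real.sin_zero, mul_zero, mul_zero, zero_sub, zero_add, Real.sin_neg]
      have : 0 ≤ Real.sin (2 * (Real.pi * (y - 1 / 2))) :=
        Real.sin_nonneg_of_nonneg_of_le_pi (by nlinarith) (by nlinarith)
      linarith
    have : sh s * BrP (8 / 3 * 0) (2 * mu y) s / dn y 0 s ≤ 0 :=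
      div_nonpos_of_nonpos_of_nonneg (mul_nonpos_of_nonneg_of_nonpos hsh hb) hd.le
    linarith
  rcases le_total 0 t with ht | ht
  · exact hm t ht
  · have := hm (-t) (by linarith)
    rwa [SC_neg_t] at this

/-- **nonnegative at all heights if it is so at height `0`** -/
theorem SC_nonneg_of (hy : 1 / 2 ≤ y) (hy1 : y < 1) {v : ℝ} (hv : 0 ≤ v) (hv1 : v < y * l)
    (h0 : 0 ≤ SC (mP y) (xP y) v 0) (t : ℝ) : 0 ≤ SC (mP y) (xP y) v t := by
  have hl := l_pos'
  have hp := Real.pi_pos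
  have hpl := pi_eq_l
  have h1 : -((1 - y) * l) < v := by nlinarith
  have hα : 0 ≤ Real.sin (8 / 3 * v) := by
    refine Real.sin_nonneg_of_nonneg_of_le_pi (by positivity) ?_
    rw [hpl]
    nlinarith
  have hm : ∀ t : ℝ, 0 ≤ t → 0 ≤ SC (mP y) (xP y) v t := by
    intro t ht
    rcases le_total 0 (BrP (8 / 3 * v) (2 * mu y) t) with hb | hb
    · refine nonneg_of_anti (f := fun t => SC (mP y) (xP y) v t) ?_ (SC_tendsto (mem_Dm.2 ⟨h1, hv1⟩))
      refine antitoneOn_of_deriv_nonpos (convex_Ici t) (pair_cont h1 hv1).continuousOn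
        (fun s _ => (hasDerivAt_pair h1 hv1 s).differentiableAt.differentiableWithinAt) fun s hs => ?_
      rw [interior_Ici] at hs
      rw [(hasDerivAt_pair h1 hv1 s).deriv]
      have hd := dn_pos h1 hv1 s
      have hsh := sh_nonneg (ht.trans (le_of_lt hs))
      have hb2 := hb.trans (BrP_mono (κ := 2 * mu y) hα ht (le_of_lt hs))
      have : 0 ≤ sh s * BrP (8 / 3 * v) (2 * mu y) s / dn y v s := by positivity
      linarith
    · refine h0.trans ?_
      have hmono : MonotoneOn (fun t => SC (mP y) (xP y) v t) (Icc 0 t) := by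
        refine monotoneOn_of_deriv_nonneg (convex_Icc 0 t) (pair_cont h1 hv1).continuousOn
          (fun s _ => (hasDerivAt_pair h1 hv1 s).differentiableAt.differentiableWithinAt)
          fun s hs => ?_
        rw [interior_Icc] at hs
        rw [(hasDerivAt_pair h1 hv1 s).deriv]
        have hd := dn_pos h1 hv1 s
        have hsh := sh_nonneg hs.1.le
        have hb2 := (BrP_mono (κ := 2 * mu y) hα hs.1.le hs.2.le).trans hb
        have : sh s * BrP (8 / 3 * v) (2 * mu y) s / dn y v s ≤ 0 :=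
          div_nonpos_of_nonpos_of_nonneg (mul_nonpos_of_nonneg_of_nonpos hsh hb2) hd.le
        linarith
      exact hmono ⟨le_rfl, ht⟩ ⟨ht, le_rfl⟩ ht
  rcases le_total 0 t with ht | ht
  · exact hm t ht
  · have := hm (-t) (by linarith)
    rwa [SC_neg_t] at this

/-- the bound of the curve -/
def v0 : ℝ := 3 / 8 * Apx.ep

theorem v0_pos : 0 < v0 := by
  have := Apx.ep_pos
  unfold v0
  positivity

theorem v0_lt7 : v0 < 7 / 120 * l := by
  have h := Apx.ep_lt7
  rw [pi_eq_l] at h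
  unfold v0
  linarith

theorem v0_lt : v0 < 3 / 50 * l := by
  have h := v0_lt7
  have := l_pos'
  linarith

theorem v0_y (hy : 1 / 2 ≤ y) : v0 < y * l := by
  have h := v0_lt
  have hl := l_pos'
  nlinarith

/-- **positive at `v0`** -/
theorem SC_v0_pos (hy : 1 / 2 ≤ y) (hy1 : y < 1) : 0 < SC (mP y) (xP y) v0 0 := by
  have hp := Real.pi_pos
  have hpl := pi_eq_l
  have key := Apx.pair_apex (δ := mu y / 3) (by unfold mu; nlinarith) (by unfold mu; nlinarith)
  have e1 : wA y = Real.sin (Real.pi / 6 - mu y / 3) := by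
    unfold wA mu
    congr 1
    ring
  have e2 : wB y = Real.sin (Real.pi / 6 + mu y / 3) := by
    unfold wB mu
    congr 1
    ring
  rw [SC_pair, e1, e2]
  unfold Ag
  rw [ch_zero]
  rw [show 8 / 3 * (v0 - y * l) - Real.pi / 6 = Apx.ep - mu y / 3 - Real.pi / 3 by
      unfold v0 mu
      rw [hpl]
      ring,
    show 8 / 3 * (v0 - y * l) + Real.pi / 6 = Apx.ep - mu y / 3 by
      unfold v0 mu
      rw [hpl]
      ring,
    show 8 / 3 * (v0 + (1 - y) * l) - Real.pi / 6 = Apx.ep - mu y / 3 by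
      unfold v0 mu
      rw [hpl]
      ring,
    show 8 / 3 * (v0 + (1 - y) * l) + Real.pi / 6 = Apx.ep - mu y / 3 + Real.pi / 3 by
      unfold v0 mu
      rw [hpl]
      ring]
  linarith

theorem wt_pair (hy : 1 / 2 ≤ y) (hy1 : y < 1) : 0 < wA y ∧ 0 < wB y := by
  have hp := Real.pi_pos
  unfold wA wB
  constructor
  · exact Real.sin_pos_of_pos_of_lt_pi (by nlinarith) (by nlinarith)
  · exact Real.sin_pos_of_pos_of_lt_pi (by positivity) (by nlinarith)

theorem Wt_pair (hy : 1 / 2 ≤ y) (hy1 : y < 1) : Wt (mP y) := by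
  obtain ⟨h1, h2⟩ := wt_pair hy hy1
  refine ⟨fun i => ?_, 0, h1⟩
  fin_cases i
  · exact h1.le
  · exact h2.le

/-- **existence of the curve** -/
theorem exists_curve (hy : 1 / 2 ≤ y) (hy1 : y < 1) (t : ℝ) :
    ∃ v ∈ Icc 0 v0, SC (mP y) (xP y) v t = 0 := by
  have hl := l_pos'
  have h1 := SC_zero_nonpos hy hy1 t
  have h2 := SC_nonneg_of hy hy1 v0_pos.le (v0_y hy) (SC_v0_pos hy hy1).le t
  have hc : ContinuousOn (fun v => SC (mP y) (xP y) v t) (Icc 0 v0) := by
    intro v hv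
    have hv2 : v ∈ Dm (xP y) := mem_Dm.2 ⟨by nlinarith [hv.1], by linarith [hv.2, v0_y hy]⟩
    exact (hasDerivAt_SC_v hv2 t).continuousAt.continuousWithinAt
  obtain ⟨v, hv, h3⟩ := intermediate_value_Icc v0_pos.le hc ⟨h1, h2⟩
  exact ⟨v, hv, h3⟩

/-- the same with the bound `3 / 50 l`, written out -/
theorem exists_curve' (hy : 1 / 2 ≤ y) (hy1 : y < 1) (t : ℝ) :
    ∃ v ∈ Icc 0 (3 / 50 * l), Real.sin (Real.pi * (1 - y) / 3) * Ag (v - y * l) t +
      Real.sin (Real.pi * y / 3) * Ag (v + (1 - y) * l) t = 0 := by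
  obtain ⟨v, hv, h⟩ := exists_curve hy hy1 t
  rw [SC_pair] at h
  exact ⟨v, ⟨hv.1, hv.2.trans v0_lt.le⟩, h⟩

theorem v0_mem (hy : 1 / 2 ≤ y) (hy1 : y < 1) {v : ℝ} (hv : v ∈ Icc 0 v0) : v ∈ Dm (xP y) := by
  have hl := l_pos'
  exact mem_Dm.2 ⟨by nlinarith [hv.1], by linarith [hv.2, v0_y hy]⟩

/-- **the level curve exists** -/
theorem lev_pair (hy : 1 / 2 ≤ y) (hy1 : y < 1) : Lev (mP y) (xP y) := fun t => by
  obtain ⟨v, hv, h⟩ := exists_curve hy hy1 t
  exact ⟨v, v0_mem hy hy1 hv, h⟩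

/-- **the curve of the balanced pair** -/
def etaP (y t : ℝ) : ℝ := eta (mP y) (xP y) t

theorem etaP_mem (hy : 1 / 2 ≤ y) (hy1 : y < 1) (t : ℝ) : etaP y t ∈ Icc 0 v0 := by
  obtain ⟨v, hv, h⟩ := exists_curve hy hy1 t
  have := eta_unique (Wt_pair hy hy1) (lev_pair hy hy1) (v0_mem hy hy1 hv) h
  unfold etaP
  rw [this]
  exact hv

theorem etaP_nonneg (hy : 1 / 2 ≤ y) (hy1 : y < 1) (t : ℝ) : 0 ≤ etaP y t :=
  (etaP_mem hy hy1 t).1

theorem etaP_le (hy : 1 / 2 ≤ y) (hy1 : y < 1) (t : ℝ) : etaP y t ≤ v0 :=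
  (etaP_mem hy hy1 t).2

theorem etaP_lt (hy : 1 / 2 ≤ y) (hy1 : y < 1) (t : ℝ) : etaP y t < 3 / 50 * l :=
  (etaP_le hy hy1 t).trans_lt v0_lt

theorem etaP_neg (hy : 1 / 2 ≤ y) (hy1 : y < 1) (t : ℝ) : etaP y (-t) = etaP y t :=
  eta_neg (Wt_pair hy hy1) (lev_pair hy hy1) t

theorem etaP_eq (hy : 1 / 2 ≤ y) (hy1 : y < 1) (t : ℝ) :
    wA y * Ag (etaP y t - y * l) t + wB y * Ag (etaP y t + (1 - y) * l) t = 0 := by
  have := eta_eq (lev_pair hy hy1) t
  rwa [SC_pair] at this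

theorem contDiff_etaP (hy : 1 / 2 ≤ y) (hy1 : y < 1) : ContDiff ℝ ω (etaP y) :=
  contDiff_eta (Wt_pair hy hy1) (lev_pair hy hy1)

end pair

end PLT

end
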