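import Pool.Agent.PLT.CurveA3
import Mathlib.Analysis.Complex.Liouville

/-!
# The static curve of a balanced pair of rows, uniformly in the direction

Content: rows at `-y l` and `(1 - y) l` with weights `aY y`, `bY y` (`PLT/CurveA2`), `1 / 2 ≤ y ≤ 1 - de`.
`HexY de`: the level equation `LevY y v t = 0` has a solution `0 ≤ v ≤ 3/50 l` for all these `y` and all `t`.

* **`exists_E`**: the curve extends to a function `E y z`, analytic in both variables near `[1/2, 1 - de]` times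
  the real line, even in `z`, `|E y z| ≤ C exp (-(32/3) |Re z|)`;
* `eta_contDiff`, **`eta_iter`**: the curve is smooth, `|η^(n)(t)| ≤ Ce n exp (-(32/3) |t|)` with constants of `de`
  only; **`eta_iter_lip`**: the same for the differences of two directions.
-/

set_option autoImplicit false

noncomputable section

open Filter Topology Set NUMF
open scoped ContDiff

namespace PLT.CA

/-- `1 / cosh (8 z / 3)` -/
def sc (z : ℂ) : ℂ := 1 / Complex.cosh (8 / 3 * z)

theorem cosh_eq (z : ℂ) : Complex.cosh (8 / 3 * z) =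
    ((Real.cosh (8 / 3 * z.re) * Real.cos (8 / 3 * z.im) : ℝ) : ℂ) +
      ((Real.sinh (8 / 3 * z.re) * Real.sin (8 / 3 * z.im) : ℝ) : ℂ) * Complex.I := by
  have e : 8 / 3 * z = ((8 / 3 * z.re : ℝ) : ℂ) + ((8 / 3 * z.im : ℝ) : ℂ) * Complex.I := by
    conv_lhs => rw [← Complex.re_add_im z]
    push_cast
    ring
  rw [e, Complex.cosh_add, Complex.cosh_mul_I, Complex.sinh_mul_I]
  push_cast
  ring

theorem half_le_cos {x : ℝ} (hx : |x| ≤ 1) : 1 / 2 ≤ Real.cos x := by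
  rw [← Real.cos_abs, ← Real.cos_pi_div_three]
  have := Real.pi_gt_three
  exact Real.cos_le_cos_of_nonneg_of_le_pi (abs_nonneg _) (by linarith) (by linarith)

theorem cosh_norm_ge {z : ℂ} (hz : |z.im| ≤ 3 / 8) :
    Real.cosh (8 / 3 * z.re) / 2 ≤ ‖Complex.cosh (8 / 3 * z)‖ := by
  refine le_trans ?_ (Complex.re_le_norm _)
  rw [cosh_eq]
  have e : ((((Real.cosh (8 / 3 * z.re) * Real.cos (8 / 3 * z.im) : ℝ) : ℂ) +
      ((Real.sinh (8 / 3 * z.re) * Real.sin (8 / 3 * z.im) : ℝ) : ℂ) * Complex.I)).re =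
      Real.cosh (8 / 3 * z.re) * Real.cos (8 / 3 * z.im) := by
    simp only [Complex.add_re, Complex.ofReal_re, Complex.mul_re, Complex.ofReal_im, Complex.I_re,
        Complex.I_im]
    ring
  rw [e]
  have h1 := Real.cosh_pos (8 / 3 * z.re)
  have h2 := half_le_cos (x := 8 / 3 * z.im) (by
    rw [abs_mul, abs_of_pos (by norm_num : (0 : ℝ) < 8 / 3)]
    linarith)
  nlinarith

theorem cosh_ne {z : ℂ} (hz : |z.im| ≤ 3 / 8) : Complex.cosh (8 / 3 * z) ≠ 0 := by
  have h1 := cosh_norm_ge hz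
  have h2 := Real.cosh_pos (8 / 3 * z.re)
  exact norm_pos_iff.1 (by linarith)

theorem exp_abs_le_cosh (x : ℝ) : Real.exp |x| / 2 ≤ Real.cosh x := by
  rw [← Real.cosh_abs, Real.cosh_eq]
  have := Real.exp_pos (-|x|)
  linarith

theorem norm_sc {z : ℂ} (hz : |z.im| ≤ 3 / 8) : ‖sc z‖ ≤ 4 * Real.exp (-(8 / 3) * |z.re|) := by
  unfold sc
  rw [norm_div, norm_one]
  have h1 := cosh_norm_ge hz
  have h2 := exp_abs_le_cosh (8 / 3 * z.re)
  rw [abs_mul, abs_of_pos (by norm_num : (0 : ℝ) < 8 / 3)] at h2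
  have h3 := Real.exp_pos (8 / 3 * |z.re|)
  rw [div_le_iff₀ (by linarith)]
  have h4 : Real.exp (-(8 / 3) * |z.re|) * Real.exp (8 / 3 * |z.re|) = 1 := by
    rw [← Real.exp_add]
    have : -(8 / 3) * |z.re| + 8 / 3 * |z.re| = 0 := by ring
    rw [this, Real.exp_zero]
  have h5 : Real.exp (8 / 3 * |z.re|) / 4 ≤ ‖Complex.cosh (8 / 3 * z)‖ := by linarith
  calc (1 : ℝ) = 4 * Real.exp (-(8 / 3) * |z.re|) * (Real.exp (8 / 3 * |z.re|) / 4) := by
        linear_combination -h4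
    _ ≤ _ := mul_le_mul_of_nonneg_left h5 (by positivity)

theorem norm_sc_sub {z : ℂ} (hz : |z.im| ≤ 3 / 8) :
    ‖sc z - ((1 / ch z.re : ℝ) : ℂ)‖ ≤ 32 / 3 * |z.im| := by
  obtain ⟨a, ha⟩ : ∃ a, a = 8 / 3 * z.re := ⟨_, rfl⟩
  obtain ⟨b, hb⟩ : ∃ b, b = 8 / 3 * z.im := ⟨_, rfl⟩
  have hc := cosh_eq z
  have hge := cosh_norm_ge hz
  have hne := cosh_ne hz
  rw [← ha, ← hb] at hc
  rw [← ha] at hge
  have hca := Real.cosh_pos a
  have h1a := Real.one_le_cosh a
  have hb1 : |b| ≤ 1 := by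
    rw [hb, abs_mul, abs_of_pos (by norm_num : (0 : ℝ) < 8 / 3)]
    linarith
  have hchz : ch z.re = Real.cosh a := by
    unfold ch
    rw [ha]
  have hdiff : ‖((Real.cosh a : ℝ) : ℂ) - Complex.cosh (8 / 3 * z)‖ ≤ 2 * |b| * Real.cosh a := by
    rw [hc]
    have e : ((Real.cosh a : ℝ) : ℂ) - (((Real.cosh a * Real.cos b : ℝ) : ℂ) +
        ((Real.sinh a * Real.sin b : ℝ) : ℂ) * Complex.I) =
        ((Real.cosh a * (1 - Real.cos b) : ℝ) : ℂ) -
          ((Real.sinh a * Real.sin b : ℝ) : ℂ) * Complex.I := by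
      push_cast
      ring
    rw [e]
    refine (norm_sub_le _ _).trans ?_
    rw [norm_mul, Complex.norm_I, mul_one, Complex.norm_real, Complex.norm_real, Real.norm_eq_abs,
      Real.norm_eq_abs, abs_mul, abs_mul, abs_of_pos hca]
    have k1 : |1 - Real.cos b| ≤ |b| := by
      have h2 := Real.one_sub_sq_div_two_le_cos (x := b)
      have h3 := Real.cos_le_one b
      rw [abs_of_nonneg (by linarith)]
      have h4 : b ^ 2 = |b| * |b| := by rw [← sq_abs]; ring
      nlinarith [abs_nonneg b]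
    have k2 : |Real.sin b| ≤ |b| := Real.abs_sin_le_abs
    have k3 : |Real.sinh a| ≤ Real.cosh a := by
      rw [abs_le]
      constructor
      · have := Real.cosh_pos a
        have h5 := Real.exp_pos a
        have h6 : Real.cosh a + Real.sinh a = Real.exp a := Real.cosh_add_sinh a
        linarith
      · have h5 := Real.exp_pos (-a)
        have h6 : Real.cosh a - Real.sinh a = Real.exp (-a) := Real.cosh_sub_sinh a
        linarith
    have m1 : Real.cosh a * |1 - Real.cos b| ≤ Real.cosh a * |b| :=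
      mul_le_mul_of_nonneg_left k1 hca.le
    have m2 : |Real.sinh a| * |Real.sin b| ≤ Real.cosh a * |b| :=
      mul_le_mul k3 k2 (abs_nonneg _) hca.le
    linarith
  unfold sc
  rw [hchz]
  have hne2 : ((Real.cosh a : ℝ) : ℂ) ≠ 0 := by exact_mod_cast hca.ne'
  have e : 1 / Complex.cosh (8 / 3 * z) - ((1 / Real.cosh a : ℝ) : ℂ) =
      (((Real.cosh a : ℝ) : ℂ) - Complex.cosh (8 / 3 * z)) /
        (Complex.cosh (8 / 3 * z) * ((Real.cosh a : ℝ) : ℂ)) := by
    push_cast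
    rw [div_sub_div _ _ hne (by exact_mod_cast hca.ne')]
    ring
  rw [e, norm_div, norm_mul, Complex.norm_real, Real.norm_eq_abs, abs_of_pos hca]
  have hb2 : 32 / 3 * |z.im| = 4 * |b| := by
    rw [hb, abs_mul, abs_of_pos (by norm_num : (0 : ℝ) < 8 / 3)]
    ring
  rw [hb2, div_le_iff₀ (by positivity)]
  have hbn := abs_nonneg b
  calc ‖((Real.cosh a : ℝ) : ℂ) - Complex.cosh (8 / 3 * z)‖ ≤ 2 * |b| * Real.cosh a := hdiff
    _ = 4 * |b| * (Real.cosh a / 2 * 1) := by ring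
    _ ≤ 4 * |b| * (‖Complex.cosh (8 / 3 * z)‖ * Real.cosh a) := by
        refine mul_le_mul_of_nonneg_left ?_ (by positivity)
        exact mul_le_mul hge h1a zero_le_one (norm_nonneg _)

theorem sc_neg (z : ℂ) : sc (-z) = sc z := by
  unfold sc
  rw [mul_neg, Complex.cosh_neg]

theorem sc_ofReal (t : ℝ) : sc t = ((1 / ch t : ℝ) : ℂ) := by
  unfold sc ch
  push_cast
  rfl

theorem differentiableAt_sc {z : ℂ} (hz : |z.im| ≤ 3 / 8) : DifferentiableAt ℂ sc z := by
  unfold sc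
  have := cosh_ne hz
  fun_prop (disch := assumption)

theorem analyticAt_sc {z : ℂ} (hz : |z.im| < 3 / 8) : AnalyticAt ℂ sc z := by
  have ho : IsOpen {z : ℂ | |z.im| < 3 / 8} := isOpen_lt (by fun_prop) continuous_const
  have hd : DifferentiableOn ℂ sc {z : ℂ | |z.im| < 3 / 8} := fun w hw =>
    (differentiableAt_sc (le_of_lt hw)).differentiableWithinAt
  exact hd.analyticAt (ho.mem_nhds hz)

/-- **the curve as an analytic function of the direction and of the height** -/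
theorem exists_E {de : ℝ} (d0 : 0 < de) (d1 : de ≤ 1 / 2) (hex : HexY de) :
    ∃ δ > 0, ∃ C, 0 ≤ C ∧ ∃ E : ℂ → ℂ → ℂ,
      (∀ y z : ℂ, (∃ y0 ∈ Yd de, ‖y - (y0 : ℂ)‖ < δ) → |z.im| < δ →
        AnalyticAt ℂ (fun q : ℂ × ℂ => E q.1 q.2) (y, z) ∧
        ‖E y z‖ ≤ C * Real.exp (-(32 / 3) * |z.re|)) ∧
      (∀ y z : ℂ, E y (-z) = E y z) ∧
      ∀ y ∈ Yd de, ∀ t v : ℝ, v ∈ Icc (0 : ℝ) (3 / 50 * l) → LevY y v t = 0 → E y t = v := by
  obtain ⟨ε, hε, C, hC, V, hV⟩ := exists_V d0 d1 hex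
  refine ⟨min (ε / 32) (1 / 4), by positivity, C * 256, by positivity,
    fun y z => 3 / 8 * V (y, sc z), ?_, ?_, ?_⟩
  · rintro y z ⟨y0, hy0, hy⟩ hz
    have hz1 : |z.im| < 3 / 8 := by
      have := min_le_right (ε / 32) (1 / 4)
      linarith
    have hz2 : |z.im| < ε / 32 := hz.trans_le (min_le_left _ _)
    have hy2 : ‖y - (y0 : ℂ)‖ < ε := by
      have := min_le_left (ε / 32) (1 / 4)
      linarith
    have hk : ∃ k ∈ Kc de, dist ((y, sc z) : ℂ × ℂ) k < ε := by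
      have hc1 := one_le_ch z.re
      refine ⟨_, ⟨(y0, 1 / ch z.re), ⟨hy0, by positivity, ?_⟩, rfl⟩, ?_⟩
      · rw [div_le_one (by linarith)]
        exact hc1
      · rw [Prod.dist_eq, max_lt_iff]
        constructor
        · rw [dist_eq_norm]
          exact hy2
        · rw [dist_eq_norm]
          refine (norm_sc_sub hz1.le).trans_lt ?_
          linarith
    obtain ⟨v1, v2, v3, v4, v5⟩ := hV _ hk
    constructor
    · have a1 : AnalyticAt ℂ (fun q : ℂ × ℂ => sc q.2) (y, z) :=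
        (analyticAt_sc hz1).comp_of_eq analyticAt_snd rfl
      have a2 : AnalyticAt ℂ (fun q : ℂ × ℂ => ((q.1, sc q.2) : ℂ × ℂ)) (y, z) :=
        analyticAt_fst.prod a1
      exact analyticAt_const.mul (v1.comp_of_eq a2 rfl)
    · rw [norm_mul]
      have n1 : ‖(3 / 8 : ℂ)‖ ≤ 1 := by
        rw [norm_div]
        norm_num
      have n2 : ‖sc z‖ ^ 4 ≤ 256 * Real.exp (-(32 / 3) * |z.re|) := by
        refine (pow_le_pow_left₀ (norm_nonneg _) (norm_sc hz1.le) 4).trans (le_of_eq ?_)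
        rw [mul_pow, ← Real.exp_nat_mul]
        norm_num
        ring
      calc ‖(3 / 8 : ℂ)‖ * ‖V (y, sc z)‖ ≤ 1 * (C * ‖sc z‖ ^ 4) :=
            mul_le_mul n1 v4 (norm_nonneg _) zero_le_one
        _ ≤ 1 * (C * (256 * Real.exp (-(32 / 3) * |z.re|))) := by
            refine mul_le_mul_of_nonneg_left (mul_le_mul_of_nonneg_left n2 hC) zero_le_one
        _ = _ := by ring
  · intro y z
    simp only [sc_neg]
  · intro y hy t v hv h0
    have hk : ∃ k ∈ Kc de, dist (((y : ℂ), sc t) : ℂ × ℂ) k < ε := by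
      have hc1 := one_le_ch t
      refine ⟨_, ⟨(y, 1 / ch t), ⟨hy, by positivity, ?_⟩, rfl⟩, ?_⟩
      · rw [div_le_one (by linarith)]
        exact hc1
      · rw [sc_ofReal, dist_self]
        exact hε
    obtain ⟨v1, v2, v3, v4, v5⟩ := hV _ hk
    have h1 := v5 _ (mem_Dw d0 d1 hv) (by
      rw [sc_ofReal]
      exact HF_eq_zero d0 d1 hy hv h0)
    show 3 / 8 * V (y, sc t) = v
    rw [← h1]
    push_cast
    ring

/-! ### derivatives on the real line -/

theorem analyticAt_iter {f : ℂ → ℂ} {z : ℂ} (h : AnalyticAt ℂ f z) (n : ℕ) :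
    AnalyticAt ℂ (iteratedDeriv n f) z := by
  rw [iteratedDeriv_eq_iterate]
  exact h.iterated_deriv n

theorem iter_ofReal {f : ℂ → ℂ} (hf : ∀ t : ℝ, AnalyticAt ℂ f t) (n : ℕ) :
    iteratedDeriv n (fun t : ℝ => (f t).re) = fun t : ℝ => (iteratedDeriv n f t).re := by
  induction n with
  | zero => simp
  | succ n ih =>
    rw [iteratedDeriv_succ, ih]
    funext t
    have h1 := (analyticAt_iter (hf t) n).differentiableAt.hasDerivAt
    rw [← iteratedDeriv_succ] at h1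
    exact h1.real_of_complex.deriv

theorem contDiff_ofReal {f : ℂ → ℂ} (hf : ∀ t : ℝ, AnalyticAt ℂ f t) :
    ContDiff ℝ ω (fun t : ℝ => (f t).re) := by
  rw [contDiff_iff_contDiffAt]
  intro t
  have h1 : ContDiffAt ℝ ω f (t : ℂ) := (hf t).contDiffAt.restrict_scalars ℝ
  have h2 : ContDiffAt ℝ ω (fun t : ℝ => f (t : ℂ)) t :=
    ContDiffAt.comp t h1 Complex.ofRealCLM.contDiff.contDiffAt
  exact Complex.reCLM.contDiff.contDiffAt.comp t h2

theorem norm_iter_le {f : ℂ → ℂ} {δ C : ℝ} (hδ : 0 < δ) (hδ1 : δ ≤ 1) (hC : 0 ≤ C)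
    (hf : ∀ z : ℂ, |z.im| < δ → AnalyticAt ℂ f z ∧ ‖f z‖ ≤ C * Real.exp (-(32 / 3) * |z.re|))
    (n : ℕ) {z : ℂ} (hz : |z.im| ≤ δ / 4) :
    ‖iteratedDeriv n f z‖ ≤ (n.factorial * Real.exp 16 / (δ / 4) ^ n * C) *
      Real.exp (-(32 / 3) * |z.re|) := by
  have hsub : ∀ w ∈ Metric.closedBall z (δ / 4), |w.im| < δ ∧ |z.re| ≤ |w.re| + δ / 4 := by
    intro w hw
    rw [Metric.mem_closedBall, dist_eq_norm] at hw
    have h1 := (Complex.abs_im_le_norm (w - z)).trans hw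
    have h2 := (Complex.abs_re_le_norm (w - z)).trans hw
    rw [Complex.sub_im] at h1
    rw [Complex.sub_re] at h2
    constructor
    · have := abs_sub_abs_le_abs_sub w.im z.im
      linarith
    · have := abs_sub_abs_le_abs_sub z.re w.re
      rw [abs_sub_comm z.re w.re] at this
      linarith
  have hd : DiffContOnCl ℂ f (Metric.ball z (δ / 4)) := by
    refine DifferentiableOn.diffContOnCl ?_
    intro w hw
    exact (hf w (hsub w (Metric.closure_ball_subset_closedBall hw)).1).1.differentiableAt.differentiableWithinAt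
  have hb : ∀ w ∈ Metric.sphere z (δ / 4), ‖f w‖ ≤ C * (Real.exp 16 * Real.exp (-(32 / 3) * |z.re|)) := by
    intro w hw
    have h1 := hsub w (Metric.sphere_subset_closedBall hw)
    refine (hf w h1.1).2.trans ?_
    rw [← Real.exp_add]
    refine mul_le_mul_of_nonneg_left (Real.exp_le_exp.2 ?_) hC
    linarith [h1.2]
  refine (Complex.norm_iteratedDeriv_le_of_forall_mem_sphere_norm_le n (by positivity) hd hb).trans
    (le_of_eq ?_)
  ring

/-- the solution of the level equation -/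
def IsCv (y : ℝ) (η : ℝ → ℝ) : Prop := ∀ t, η t ∈ Icc (0 : ℝ) (3 / 50 * l) ∧ LevY y (η t) t = 0

/-- **smoothness and decay of the curve, uniformly in the direction** -/
theorem eta_iter {de : ℝ} (d0 : 0 < de) (d1 : de ≤ 1 / 2) (hex : HexY de) :
    ∃ Ce : ℕ → ℝ, (∀ n, 0 ≤ Ce n) ∧ ∀ y ∈ Yd de, ∀ η : ℝ → ℝ, IsCv y η →
      ContDiff ℝ ω η ∧ ∀ n t, |iteratedDeriv n η t| ≤ Ce n * Real.exp (-(32 / 3) * |t|) := by
  obtain ⟨δ, hδ, C, hC, E, hE1, hE2, hE3⟩ := exists_E d0 d1 hex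
  obtain ⟨δ', hδ', hδ1, hδ2⟩ : ∃ δ' > 0, δ' ≤ 1 ∧ δ' ≤ δ :=
    ⟨min 1 δ, by positivity, min_le_left _ _, min_le_right _ _⟩
  refine ⟨fun n => n.factorial * Real.exp 16 / (δ' / 4) ^ n * C, fun n => by positivity, ?_⟩
  intro y hy η hη
  have hs : ∀ z : ℂ, |z.im| < δ' → AnalyticAt ℂ (E y) z ∧
      ‖E y z‖ ≤ C * Real.exp (-(32 / 3) * |z.re|) := by
    intro z hz
    obtain ⟨h1, h2⟩ := hE1 y z ⟨y, hy, by simpa using hδ⟩ (hz.trans_le hδ2)
    exact ⟨h1.comp_of_eq (analyticAt_const.prod analyticAt_id) rfl, h2⟩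
  have he : η = fun t : ℝ => (E y t).re := by
    funext t
    rw [hE3 y hy t (η t) (hη t).1 (hη t).2, Complex.ofReal_re]
  have hr : ∀ t : ℝ, AnalyticAt ℂ (E y) t := fun t => (hs t (by simpa using hδ')).1
  constructor
  · rw [he]
    exact contDiff_ofReal hr
  · intro n t
    rw [he, iter_ofReal hr]
    refine (Complex.abs_re_le_norm _).trans ?_
    have := norm_iter_le hδ' hδ1 hC hs n (z := (t : ℂ)) (by simp; positivity)
    simpa using this

/-- **Lipschitz dependence on the direction, of all derivatives** -/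
theorem eta_iter_lip {de : ℝ} (d0 : 0 < de) (d1 : de ≤ 1 / 2) (hex : HexY de) :
    ∃ Ce : ℕ → ℝ, (∀ n, 0 ≤ Ce n) ∧ ∀ y ∈ Yd de, ∀ y' ∈ Yd de, ∀ η η' : ℝ → ℝ, IsCv y η → IsCv y' η' →
      ∀ n t, |iteratedDeriv n (fun t => η t - η' t) t| ≤
        Ce n * |y - y'| * Real.exp (-(32 / 3) * |t|) := by
  obtain ⟨δ, hδ, C, hC, E, hE1, hE2, hE3⟩ := exists_E d0 d1 hex
  obtain ⟨δ', hδ', hδ1, hδ2⟩ : ∃ δ' > 0, δ' ≤ 1 ∧ δ' ≤ δ :=
    ⟨min 1 δ, by positivity, min_le_left _ _, min_le_right _ _⟩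
  obtain ⟨B, hB⟩ : ∃ B, B = C / (δ / 2) := ⟨_, rfl⟩
  have hB0 : 0 ≤ B := by
    rw [hB]
    positivity
  refine ⟨fun n => n.factorial * Real.exp 16 / (δ' / 4) ^ n * B, fun n => by positivity, ?_⟩
  intro y hy y' hy' η η' hη hη' n t
  have hlip : ∀ z : ℂ, |z.im| < δ' → ‖E y z - E y' z‖ ≤
      B * |y - y'| * Real.exp (-(32 / 3) * |z.re|) := by
    intro z hz
    have hda : ∀ w : ℂ, (∃ y0 ∈ Yd de, ‖w - (y0 : ℂ)‖ < δ) → DifferentiableAt ℂ (fun w => E w z) w := by
      intro w hw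
      have h1 := (hE1 w z hw (hz.trans_le hδ2)).1
      exact (h1.comp_of_eq (f := fun w : ℂ => ((w, z) : ℂ × ℂ))
        (analyticAt_id.prod analyticAt_const) rfl).differentiableAt
    have hd : ∀ x ∈ Yd de, HasDerivWithinAt (fun x : ℝ => E (x : ℂ) z)
        (deriv (fun w => E w z) (x : ℂ)) (Yd de) x := by
      intro x hx
      have h1 := (hda x ⟨x, hx, by simpa using hδ⟩).hasDerivAt
      have h2 := h1.comp_ofReal
      exact h2.hasDerivWithinAt
    have hb : ∀ x ∈ Yd de, ‖deriv (fun w => E w z) (x : ℂ)‖ ≤ B * Real.exp (-(32 / 3) * |z.re|) := by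
      intro x hx
      have hin : ∀ w ∈ Metric.closedBall (x : ℂ) (δ / 2), ∃ y0 ∈ Yd de, ‖w - (y0 : ℂ)‖ < δ := by
        intro w hw
        rw [Metric.mem_closedBall, dist_eq_norm] at hw
        exact ⟨x, hx, by linarith⟩
      have h1 : DiffContOnCl ℂ (fun w => E w z) (Metric.ball (x : ℂ) (δ / 2)) := by
        refine DifferentiableOn.diffContOnCl ?_
        intro w hw
        exact (hda w (hin w (Metric.closure_ball_subset_closedBall hw))).differentiableWithinAt
      have h2 := Complex.norm_deriv_le_of_forall_mem_sphere_norm_le (by positivity : 0 < δ / 2) h1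
        (C := C * Real.exp (-(32 / 3) * |z.re|)) (fun w hw =>
          (hE1 w z (hin w (Metric.sphere_subset_closedBall hw)) (hz.trans_le hδ2)).2)
      refine h2.trans (le_of_eq ?_)
      rw [hB]
      ring
    have h3 := (convex_Icc (1 / 2 : ℝ) (1 - de)).norm_image_sub_le_of_norm_hasDerivWithin_le hd hb hy' hy
    refine h3.trans (le_of_eq ?_)
    rw [Real.norm_eq_abs]
    ring
  have hs : ∀ z : ℂ, |z.im| < δ' → AnalyticAt ℂ (fun z => E y z - E y' z) z ∧
      ‖E y z - E y' z‖ ≤ B * |y - y'| * Real.exp (-(32 / 3) * |z.re|) := by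
    intro z hz
    obtain ⟨h1, -⟩ := hE1 y z ⟨y, hy, by simpa using hδ⟩ (hz.trans_le hδ2)
    obtain ⟨h2, -⟩ := hE1 y' z ⟨y', hy', by simpa using hδ⟩ (hz.trans_le hδ2)
    refine ⟨?_, hlip z hz⟩
    exact (h1.comp_of_eq (f := fun z : ℂ => (((y : ℂ), z) : ℂ × ℂ))
      (analyticAt_const.prod analyticAt_id) rfl).sub
      (h2.comp_of_eq (f := fun z : ℂ => (((y' : ℂ), z) : ℂ × ℂ))
      (analyticAt_const.prod analyticAt_id) rfl)
  have he : (fun t => η t - η' t) = fun t : ℝ => (E y t - E y' t).re := by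
    funext t
    rw [hE3 y hy t (η t) (hη t).1 (hη t).2, hE3 y' hy' t (η' t) (hη' t).1 (hη' t).2,
      Complex.sub_re, Complex.ofReal_re, Complex.ofReal_re]
  have hr : ∀ t : ℝ, AnalyticAt ℂ (fun z => E y z - E y' z) t := fun t =>
    (hs t (by simpa using hδ')).1
  rw [he, iter_ofReal (f := fun z => E y z - E y' z) hr]
  refine (Complex.abs_re_le_norm _).trans ?_
  have := norm_iter_le hδ' hδ1 (by positivity) hs n (z := (t : ℂ)) (by simp; positivity)
  refine this.trans (le_of_eq ?_)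
  rw [Complex.ofReal_re]
  ring

end PLT.CA

end
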