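import Pool.Agent.PLT.ImplC

/-!
# Complex artanh

* `Lc x = artanh x`; `hasDerivAt_Lc`; `norm_R5`: `|artanh x - x - x³/3| ≤ |x|⁵ / (1 - |x|²)`;
* `Th p y = artanh (p y) / p`, analytic also at `p = 0`; `hasDerivAt_Th`;
* `hC p w = ∑± Th p (sin (w ± π/6))`: level function of a row over `p`; `hasDerivAt_hC`, `re_hC`.
-/

set_option autoImplicit false

noncomputable section

open Filter Topology Set
open scoped ContDiff

namespace PLT.CA

/-- complex artanh -/
def Lc (x : ℂ) : ℂ := (Complex.log (1 + x) - Complex.log (1 - x)) / 2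

theorem Lc_zero : Lc 0 = 0 := by
  simp [Lc]

theorem re_one_add_pos {x : ℂ} (hx : ‖x‖ < 1) : 0 < (1 + x).re := by
  have h1 := (abs_le.1 (Complex.abs_re_le_norm x)).1
  rw [Complex.add_re, Complex.one_re]
  linarith

theorem re_one_sub_pos {x : ℂ} (hx : ‖x‖ < 1) : 0 < (1 - x).re := by
  have h1 := (abs_le.1 (Complex.abs_re_le_norm x)).2
  rw [Complex.sub_re, Complex.one_re]
  linarith

theorem one_sub_sq_ne {x : ℂ} (hx : ‖x‖ < 1) : 1 - x ^ 2 ≠ 0 := by
  have e : 1 - x ^ 2 = (1 + x) * (1 - x) := by ring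
  rw [e]
  refine mul_ne_zero ?_ ?_
  · intro h
    have := re_one_add_pos hx
    rw [h, Complex.zero_re] at this
    exact lt_irrefl _ this
  · intro h
    have := re_one_sub_pos hx
    rw [h, Complex.zero_re] at this
    exact lt_irrefl _ this

theorem hasDerivAt_Lc {x : ℂ} (hx : ‖x‖ < 1) : HasDerivAt Lc (1 / (1 - x ^ 2)) x := by
  have h1 := re_one_add_pos hx
  have h2 := re_one_sub_pos hx
  have n1 : 1 + x ≠ 0 := by
    intro h
    rw [h, Complex.zero_re] at h1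
    exact lt_irrefl _ h1
  have n2 : 1 - x ≠ 0 := by
    intro h
    rw [h, Complex.zero_re] at h2
    exact lt_irrefl _ h2
  have n3 := one_sub_sq_ne hx
  have d1 : HasDerivAt (fun x : ℂ => 1 + x) 1 x := (hasDerivAt_id x).const_add 1
  have d2 : HasDerivAt (fun x : ℂ => 1 - x) (-1) x := (hasDerivAt_id x).const_sub 1
  have e1 := d1.clog (Or.inl h1)
  have e2 := d2.clog (Or.inl h2)
  refine ((e1.sub e2).div_const 2).congr_deriv ?_
  have e : 1 - x ^ 2 = (1 + x) * (1 - x) := by ring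
  rw [e] at n3 ⊢
  field_simp
  ring

theorem differentiableOn_Lc : DifferentiableOn ℂ Lc (Metric.ball 0 1) := by
  intro x hx
  rw [mem_ball_zero_iff] at hx
  exact (hasDerivAt_Lc hx).differentiableAt.differentiableWithinAt

/-- `artanh x / x` -/
def Dc : ℂ → ℂ := dslope Lc 0

theorem analyticAt_Dc {x : ℂ} (hx : ‖x‖ < 1) : AnalyticAt ℂ Dc x := by
  have h1 : DifferentiableOn ℂ Dc (Metric.ball 0 1) :=
    (Complex.differentiableOn_dslope (Metric.ball_mem_nhds _ one_pos)).2 differentiableOn_Lc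
  exact h1.analyticAt (Metric.isOpen_ball.mem_nhds (by rwa [mem_ball_zero_iff]))

theorem Dc_zero : Dc 0 = 1 := by
  unfold Dc
  rw [dslope_same, (hasDerivAt_Lc (x := 0) (by simp)).deriv]
  simp

theorem mul_Dc (x : ℂ) : x * Dc x = Lc x := by
  have := sub_smul_dslope Lc 0 x
  rw [Lc_zero, sub_zero, sub_zero, smul_eq_mul] at this
  exact this

/-- `artanh (p y) / p` -/
def Th (p y : ℂ) : ℂ := y * Dc (p * y)

theorem mul_Th (p y : ℂ) : p * Th p y = Lc (p * y) := by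
  rw [← mul_Dc]
  unfold Th
  ring

theorem Th_zero (y : ℂ) : Th 0 y = y := by
  unfold Th
  rw [zero_mul, Dc_zero, mul_one]

theorem hasDerivAt_Th {p y : ℂ} (h : ‖p * y‖ < 1) : HasDerivAt (Th p) (1 / (1 - (p * y) ^ 2)) y := by
  rcases eq_or_ne p 0 with h0 | h0
  · rw [h0]
    have e : Th 0 = fun y => y := funext Th_zero
    rw [e]
    simpa using hasDerivAt_id' y
  · have e : Th p = fun y => Lc (p * y) / p := by
      funext y
      rw [← mul_Th, mul_div_cancel_left₀ _ h0]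
    rw [e]
    have d1 : HasDerivAt (fun y : ℂ => p * y) p y := by
      simpa using (hasDerivAt_id y).const_mul p
    have d2 := (HasDerivAt.comp_of_eq y (hasDerivAt_Lc h) d1 rfl).div_const p
    refine d2.congr_deriv ?_
    rw [mul_div_cancel_right₀ _ h0]

theorem analyticAt_Th {q : ℂ × ℂ} (h : ‖q.1 * q.2‖ < 1) :
    AnalyticAt ℂ (fun q : ℂ × ℂ => Th q.1 q.2) q := by
  unfold Th
  refine analyticAt_snd.mul ?_
  exact AnalyticAt.comp_of_eq (analyticAt_Dc h) (analyticAt_fst.mul analyticAt_snd) rfl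

/-- fifth order remainder of artanh -/
def R5 (x : ℂ) : ℂ := Lc x - x - x ^ 3 / 3

theorem hasDerivAt_R5 {x : ℂ} (hx : ‖x‖ < 1) : HasDerivAt R5 (x ^ 4 / (1 - x ^ 2)) x := by
  have d3 : HasDerivAt (fun x : ℂ => x ^ 3 / 3) (x ^ 2) x := by
    refine ((hasDerivAt_pow 3 x).div_const 3).congr_deriv ?_
    norm_num
  refine (((hasDerivAt_Lc hx).sub (hasDerivAt_id x)).sub d3).congr_deriv ?_
  have := one_sub_sq_ne hx
  field_simp
  ring

theorem norm_R5 {x : ℂ} (hx : ‖x‖ < 1) : ‖R5 x‖ ≤ ‖x‖ ^ 5 / (1 - ‖x‖ ^ 2) := by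
  have h0 := norm_nonneg x
  have hp : 0 < 1 - ‖x‖ ^ 2 := by nlinarith
  have key : ‖R5 x - R5 0‖ ≤ ‖x‖ ^ 4 / (1 - ‖x‖ ^ 2) * ‖x - 0‖ := by
    refine (convex_closedBall (0 : ℂ) ‖x‖).norm_image_sub_le_of_norm_hasDerivWithin_le
      (f' := fun y => y ^ 4 / (1 - y ^ 2)) (fun y hy => ?_) (fun y hy => ?_) (by simp) (by simp)
    · rw [mem_closedBall_zero_iff] at hy
      exact (hasDerivAt_R5 (hy.trans_lt hx)).hasDerivWithinAt
    · rw [mem_closedBall_zero_iff] at hy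
      have hy1 := hy.trans_lt hx
      have h1 : 1 - ‖x‖ ^ 2 ≤ ‖1 - y ^ 2‖ := by
        have h2 : ‖(1 : ℂ)‖ - ‖y ^ 2‖ ≤ ‖1 - y ^ 2‖ := norm_sub_norm_le _ _
        rw [norm_one, norm_pow] at h2
        have h3 : ‖y‖ ^ 2 ≤ ‖x‖ ^ 2 := pow_le_pow_left₀ (norm_nonneg _) hy 2
        linarith
      rw [norm_div, norm_pow]
      exact div_le_div₀ (by positivity) (pow_le_pow_left₀ (norm_nonneg _) hy 4) hp h1
  have e : R5 0 = 0 := by simp [R5, Lc_zero]
  rw [e, sub_zero, sub_zero] at key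
  refine key.trans (le_of_eq ?_)
  ring

/-- the level function of a row, divided by `p = 1 / ch` -/
def hC (p w : ℂ) : ℂ :=
  Th p (Complex.sin (w - Real.pi / 6)) + Th p (Complex.sin (w + Real.pi / 6))

theorem analyticAt_Th_sin {q : ℂ × ℂ} (φ : ℂ) (h : ‖q.1 * Complex.sin (q.2 + φ)‖ < 1) :
    AnalyticAt ℂ (fun q : ℂ × ℂ => Th q.1 (Complex.sin (q.2 + φ))) q := by
  have h1 : AnalyticAt ℂ (fun q : ℂ × ℂ => ((q.1, Complex.sin (q.2 + φ)) : ℂ × ℂ)) q := by
    refine analyticAt_fst.prod ?_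
    exact Complex.analyticAt_sin.comp_of_eq (analyticAt_snd.add analyticAt_const) rfl
  exact AnalyticAt.comp_of_eq (g := fun q : ℂ × ℂ => Th q.1 q.2) (analyticAt_Th (q := (q.1, Complex.sin (q.2 + φ))) h)
    h1 rfl

theorem hasDerivAt_Th_sin {p w : ℂ} (φ : ℂ) (h : ‖p * Complex.sin (w + φ)‖ < 1) :
    HasDerivAt (fun w => Th p (Complex.sin (w + φ)))
      (Complex.cos (w + φ) / (1 - (p * Complex.sin (w + φ)) ^ 2)) w := by
  have d1 : HasDerivAt (fun w : ℂ => w + φ) 1 w := (hasDerivAt_id w).add_const φ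
  have d2 := d1.csin
  refine (HasDerivAt.comp_of_eq w (hasDerivAt_Th h) d2 rfl).congr_deriv ?_
  rw [mul_one]
  ring

/-- the angle is admissible -/
structure Be (s : ℝ) (β : ℂ) : Prop where
  re : s ≤ Real.cos β.re
  im : |Real.sinh β.im| ≤ s / 2

theorem Be.normSq_sin {s : ℝ} {β : ℂ} (hs : 0 < s) (h : Be s β) :
    ‖Complex.sin β‖ ^ 2 ≤ 1 - s ^ 2 * 3 / 4 := by
  have e : Complex.sin β = ((Real.sin β.re * Real.cosh β.im : ℝ) : ℂ) +
      ((Real.cos β.re * Real.sinh β.im : ℝ) : ℂ) * Complex.I := by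
    conv_lhs => rw [← Complex.re_add_im β]
    rw [Complex.sin_add_mul_I]
    push_cast
    ring
  rw [e, ← Complex.normSq_eq_norm_sq, Complex.normSq_add_mul_I]
  have h1 := Real.cosh_sq β.im
  have h2 := Real.sin_sq_add_cos_sq β.re
  have h3 : Real.sinh β.im ^ 2 ≤ (s / 2) ^ 2 := by
    rw [← sq_abs]
    exact pow_le_pow_left₀ (abs_nonneg _) h.im 2
  have h4 : s ^ 2 ≤ Real.cos β.re ^ 2 := pow_le_pow_left₀ hs.le h.re 2
  calc (Real.sin β.re * Real.cosh β.im) ^ 2 + (Real.cos β.re * Real.sinh β.im) ^ 2 =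
      Real.sin β.re ^ 2 + Real.sinh β.im ^ 2 * (Real.sin β.re ^ 2 + Real.cos β.re ^ 2) := by
        rw [mul_pow, mul_pow, h1]
        ring
    _ ≤ 1 - s ^ 2 * 3 / 4 := by
        rw [h2]
        nlinarith

theorem Be.norm_sin_lt {s : ℝ} {β : ℂ} (hs : 0 < s) (h : Be s β) : ‖Complex.sin β‖ < 1 := by
  have h1 := h.normSq_sin hs
  have h2 : ‖Complex.sin β‖ ^ 2 < 1 := by nlinarith
  nlinarith [norm_nonneg (Complex.sin β)]

theorem Be.mul_lt {s : ℝ} {β : ℂ} {p : ℝ} (hs : 0 < s) (h : Be s β) (h0 : 0 ≤ p) (h1 : p ≤ 1) :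
    ‖(p : ℂ) * Complex.sin β‖ < 1 := by
  rw [norm_mul, Complex.norm_real, Real.norm_eq_abs, abs_of_nonneg h0]
  have := h.norm_sin_lt hs
  calc p * ‖Complex.sin β‖ ≤ 1 * ‖Complex.sin β‖ := mul_le_mul_of_nonneg_right h1 (norm_nonneg _)
    _ < 1 := by rwa [one_mul]

theorem re_div_ge {C : ℂ} {q s : ℝ} (hs : 0 < s) (hC : s ≤ C.re) (hn : ‖C‖ ^ 2 ≤ 5) (q0 : 0 ≤ q)
    (q1 : q ≤ 1) : s / 5 ≤ (C / ((1 - q : ℝ) + (q : ℂ) * C ^ 2)).re := by
  obtain ⟨x, hx⟩ : ∃ x, x = C.re := ⟨_, rfl⟩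
  obtain ⟨y, hy⟩ : ∃ y, y = C.im := ⟨_, rfl⟩
  have hCe : C = (x : ℂ) + y * Complex.I := by
    rw [hx, hy]
    exact (Complex.re_add_im C).symm
  rw [← hx] at hC
  have hns : x ^ 2 + y ^ 2 ≤ 5 := by
    rw [hCe, ← Complex.normSq_eq_norm_sq, Complex.normSq_add_mul_I] at hn
    exact hn
  obtain ⟨N, hN⟩ : ∃ N, N = (1 - q) + q * (x ^ 2 + y ^ 2) := ⟨_, rfl⟩
  have hx0 : 0 < x := hs.trans_le hC
  have hN0 : 0 < N := by
    rw [hN]
    rcases eq_or_lt_of_le q1 with h | h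
    · rw [h]
      have : 0 < x ^ 2 + y ^ 2 := by positivity
      linarith
    · have : 0 ≤ q * (x ^ 2 + y ^ 2) := by positivity
      linarith
  have hN5 : N ≤ 5 := by
    rw [hN]
    nlinarith
  have eZ : ((1 - q : ℝ) : ℂ) + (q : ℂ) * C ^ 2 =
      ((1 - q + q * (x ^ 2 - y ^ 2) : ℝ) : ℂ) + ((2 * q * x * y : ℝ) : ℂ) * Complex.I := by
    rw [hCe]
    push_cast
    linear_combination (q : ℂ) * (y : ℂ) ^ 2 * Complex.I_sq
  obtain ⟨M, hM⟩ : ∃ M, M = (1 - q + q * (x ^ 2 - y ^ 2)) ^ 2 + (2 * q * x * y) ^ 2 := ⟨_, rfl⟩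
  have hMN : M ≤ N ^ 2 := by
    rw [hM, hN]
    have : 0 ≤ (1 - q) * q * y ^ 2 := by
      have : 0 ≤ 1 - q := by linarith
      positivity
    nlinarith
  have hM0 : 0 < M := by
    rw [hM]
    by_contra hcon
    have hcon' := not_lt.1 hcon
    have h1 : (1 - q + q * (x ^ 2 - y ^ 2)) ^ 2 = 0 :=
      le_antisymm (by linarith [sq_nonneg (2 * q * x * y)]) (sq_nonneg _)
    have h2 : (2 * q * x * y) ^ 2 = 0 :=
      le_antisymm (by linarith [sq_nonneg (1 - q + q * (x ^ 2 - y ^ 2))]) (sq_nonneg _)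
    have h3 : 2 * q * x * y = 0 := by simpa using h2
    have h4 : 1 - q + q * (x ^ 2 - y ^ 2) = 0 := by simpa using h1
    rcases mul_eq_zero.1 h3 with h5 | h5
    · have h6 : q = 0 := by
        rcases mul_eq_zero.1 h5 with h7 | h7
        · linarith
        · exact absurd h7 hx0.ne'
      rw [h6] at h4
      linarith
    · rw [h5] at h4
      have : N = 0 := by
        rw [hN, h5]
        linarith
      linarith
  have key : (C / (((1 - q : ℝ) : ℂ) + (q : ℂ) * C ^ 2)).re = x * N / M := by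
    rw [eZ, Complex.div_re]
    have e1 : Complex.normSq (((1 - q + q * (x ^ 2 - y ^ 2) : ℝ) : ℂ) +
        ((2 * q * x * y : ℝ) : ℂ) * Complex.I) = M := by
      rw [Complex.normSq_add_mul_I, hM]
    rw [e1, ← hx, ← hy]
    have e2 : (((1 - q + q * (x ^ 2 - y ^ 2) : ℝ) : ℂ) +
        ((2 * q * x * y : ℝ) : ℂ) * Complex.I).re = 1 - q + q * (x ^ 2 - y ^ 2) := by
      simp only [Complex.add_re, Complex.ofReal_re, Complex.mul_re, Complex.ofReal_im, Complex.I_re,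
        Complex.I_im]
      ring
    have e3 : (((1 - q + q * (x ^ 2 - y ^ 2) : ℝ) : ℂ) +
        ((2 * q * x * y : ℝ) : ℂ) * Complex.I).im = 2 * q * x * y := by
      simp only [Complex.add_im, Complex.ofReal_im, Complex.mul_im, Complex.ofReal_re, Complex.I_re,
        Complex.I_im]
      ring
    rw [e2, e3, ← add_div, hN]
    ring
  have key2 : s / 5 ≤ x * N / M := by
    rw [div_le_div_iff₀ (by norm_num) hM0]
    calc s * M ≤ x * N ^ 2 := mul_le_mul hC hMN hM0.le hx0.le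
      _ = x * N * N := by ring
      _ ≤ x * N * 5 := mul_le_mul_of_nonneg_left hN5 (by positivity)
  rw [key]
  exact key2

theorem Be.re_cos {s : ℝ} {β : ℂ} (hs : 0 < s) (h : Be s β) : s ≤ (Complex.cos β).re := by
  have e : Complex.cos β = ((Real.cos β.re * Real.cosh β.im : ℝ) : ℂ) -
      ((Real.sin β.re * Real.sinh β.im : ℝ) : ℂ) * Complex.I := by
    conv_lhs => rw [← Complex.re_add_im β]
    rw [Complex.cos_add_mul_I]
    push_cast
    ring
  rw [e]
  simp only [Complex.sub_re, Complex.ofReal_re, Complex.mul_re, Complex.ofReal_im, Complex.I_re,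
        Complex.I_im]
  have h1 := Real.one_le_cosh β.im
  have h2 := h.re
  nlinarith

theorem Be.norm_cos {s : ℝ} {β : ℂ} (hs1 : s ≤ 1) (h : Be s β) : ‖Complex.cos β‖ ^ 2 ≤ 5 := by
  have e : Complex.cos β = ((Real.cos β.re * Real.cosh β.im : ℝ) : ℂ) +
      ((-(Real.sin β.re * Real.sinh β.im) : ℝ) : ℂ) * Complex.I := by
    conv_lhs => rw [← Complex.re_add_im β]
    rw [Complex.cos_add_mul_I]
    push_cast
    ring
  rw [e, ← Complex.normSq_eq_norm_sq, Complex.normSq_add_mul_I]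
  have h1 := Real.cosh_sq β.im
  have h2 := Real.sin_sq_add_cos_sq β.re
  have h0 : 0 ≤ s / 2 := (abs_nonneg _).trans h.im
  have h3 : Real.sinh β.im ^ 2 ≤ (s / 2) ^ 2 := by
    rw [← sq_abs]
    exact pow_le_pow_left₀ (abs_nonneg _) h.im 2
  have h5 := Real.cos_sq_le_one β.re
  calc (Real.cos β.re * Real.cosh β.im) ^ 2 + (-(Real.sin β.re * Real.sinh β.im)) ^ 2 =
      Real.cos β.re ^ 2 + Real.sinh β.im ^ 2 * (Real.sin β.re ^ 2 + Real.cos β.re ^ 2) := by
        rw [mul_pow, neg_sq, mul_pow, h1]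
        ring
    _ ≤ 5 := by
        rw [h2]
        nlinarith

/-- the derivative of an admissible angle has a positive real part -/
theorem Be.re_deriv {s : ℝ} {β : ℂ} {p : ℝ} (hs : 0 < s) (hs1 : s ≤ 1) (h : Be s β) (h0 : 0 ≤ p)
    (h1 : p ≤ 1) : s / 5 ≤ (Complex.cos β / (1 - ((p : ℂ) * Complex.sin β) ^ 2)).re := by
  have e : 1 - ((p : ℂ) * Complex.sin β) ^ 2 =
      ((1 - p ^ 2 : ℝ) : ℂ) + ((p ^ 2 : ℝ) : ℂ) * Complex.cos β ^ 2 := by
    have := Complex.sin_sq_add_cos_sq β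
    push_cast
    linear_combination (-(p : ℂ) ^ 2) * this
  rw [e]
  exact re_div_ge hs (h.re_cos hs) (h.norm_cos hs1) (by positivity) (by nlinarith)

end PLT.CA

end
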