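import Pool.Agent.PLT.CurveA1
import Pool.Agent.PLT.Ag

/-!
# The level function of a balanced pair of rows, as an analytic function of the direction

Rows at `-y l` and `(1 - y) l` with weights `aY y = sin (π (1 - y) / 3)`, `bY y = sin (π y / 3)`; `w = 8 v / 3` the
angle of the offset, `p = 1 / ch t`.

* `HF ((y, p), w)`; `mul_HF`: `p * HF = aY y * Ag (v - y l) t + bY y * Ag (v + (1 - y) l) t` on the real line;
* `analyticAt_HF`, `re_HF`: real part of the derivative in `w` is `> s / 6`;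
* `norm_HF_zero`: `HF ((y, p), 0) = O (p⁴)`.
-/

set_option autoImplicit false

noncomputable section

open Filter Topology Set NUMF
open scoped ContDiff

namespace PLT.CA

/-- weight of the row at `-y l` -/
def aY (y : ℝ) : ℝ := Real.sin (Real.pi * (1 - y) / 3)

/-- weight of the row at `(1 - y) l` -/
def bY (y : ℝ) : ℝ := Real.sin (Real.pi * y / 3)

/-- complex form of `aY` -/
def aC (y : ℂ) : ℂ := Complex.sin (Real.pi * (1 - y) / 3)

/-- complex form of `bY` -/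
def bC (y : ℂ) : ℂ := Complex.sin (Real.pi * y / 3)

theorem aC_ofReal (y : ℝ) : aC y = (aY y : ℂ) := by
  unfold aC aY
  push_cast
  rfl

theorem bC_ofReal (y : ℝ) : bC y = (bY y : ℂ) := by
  unfold bC bY
  push_cast
  rfl

/-- the angles -/
def An (φ : ℝ) (y w : ℂ) : ℂ := w - Real.pi * y / 3 + φ

/-- one term of the level function -/
def HT (φ : ℝ) (q : (ℂ × ℂ) × ℂ) : ℂ := Th q.1.2 (Complex.sin (An φ q.1.1 q.2))

/-- **the level function** of the pair, divided by `p` -/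
def HF (q : (ℂ × ℂ) × ℂ) : ℂ :=
  aC q.1.1 * HT (-(Real.pi / 6)) q + (aC q.1.1 + bC q.1.1) * HT (Real.pi / 6) q +
    bC q.1.1 * HT (Real.pi / 2) q

theorem mul_HF (y p w : ℂ) : p * HF ((y, p), w) =
    aC y * Lc (p * Complex.sin (An (-(Real.pi / 6)) y w)) +
    (aC y + bC y) * Lc (p * Complex.sin (An (Real.pi / 6) y w)) +
    bC y * Lc (p * Complex.sin (An (Real.pi / 2) y w)) := by
  simp only [← mul_Th]
  unfold HF HT
  ring

theorem differentiable_aC : Differentiable ℂ aC := by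
  unfold aC
  fun_prop

theorem differentiable_bC : Differentiable ℂ bC := by
  unfold bC
  fun_prop

theorem analyticAt_HT {φ : ℝ} {q : (ℂ × ℂ) × ℂ}
    (h : ‖q.1.2 * Complex.sin (An φ q.1.1 q.2)‖ < 1) : AnalyticAt ℂ (HT φ) q := by
  have h2 : Differentiable ℂ fun q : (ℂ × ℂ) × ℂ => Complex.sin (An φ q.1.1 q.2) := by
    unfold An
    fun_prop
  have a2 : AnalyticAt ℂ (fun q : (ℂ × ℂ) × ℂ => Complex.sin (An φ q.1.1 q.2)) q := by
    unfold An
    have b1 : AnalyticAt ℂ (fun q : (ℂ × ℂ) × ℂ => q.2 - Real.pi * q.1.1 / 3 + φ) q := by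
      have c1 : AnalyticAt ℂ (fun q : (ℂ × ℂ) × ℂ => q.1.1) q :=
        analyticAt_fst.comp_of_eq analyticAt_fst rfl
      exact (analyticAt_snd.sub ((analyticAt_const.mul c1).div_const)).add analyticAt_const
    exact Complex.analyticAt_sin.comp_of_eq b1 rfl
  have a1 : AnalyticAt ℂ (fun q : (ℂ × ℂ) × ℂ => q.1.2) q :=
    analyticAt_snd.comp_of_eq analyticAt_fst rfl
  exact AnalyticAt.comp_of_eq (g := fun q : ℂ × ℂ => Th q.1 q.2)
    (analyticAt_Th (q := (q.1.2, Complex.sin (An φ q.1.1 q.2))) h) (a1.prod a2) rfl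

theorem analyticAt_HF {q : (ℂ × ℂ) × ℂ}
    (h : ∀ φ ∈ ({-(Real.pi / 6), Real.pi / 6, Real.pi / 2} : Set ℝ),
      ‖q.1.2 * Complex.sin (An φ q.1.1 q.2)‖ < 1) : AnalyticAt ℂ HF q := by
  have c1 : AnalyticAt ℂ (fun q : (ℂ × ℂ) × ℂ => q.1.1) q :=
    analyticAt_fst.comp_of_eq analyticAt_fst rfl
  have a1 : AnalyticAt ℂ (fun q : (ℂ × ℂ) × ℂ => aC q.1.1) q :=
    (differentiable_aC.analyticAt _).comp_of_eq c1 rfl
  have b1 : AnalyticAt ℂ (fun q : (ℂ × ℂ) × ℂ => bC q.1.1) q :=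
    (differentiable_bC.analyticAt _).comp_of_eq c1 rfl
  exact ((a1.mul (analyticAt_HT (h _ (by simp)))).add
    ((a1.add b1).mul (analyticAt_HT (h _ (by simp))))).add (b1.mul (analyticAt_HT (h _ (by simp))))

theorem hasDerivAt_HT {φ : ℝ} {y p w : ℂ} (h : ‖p * Complex.sin (An φ y w)‖ < 1) :
    HasDerivAt (fun w => HT φ ((y, p), w))
      (Complex.cos (An φ y w) / (1 - (p * Complex.sin (An φ y w)) ^ 2)) w := by
  have e : An φ y w = w + (φ - Real.pi * y / 3) := by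
    unfold An
    ring
  have e2 : (fun w => HT φ ((y, p), w)) =
      fun w => Th p (Complex.sin (w + (φ - Real.pi * y / 3))) := by
    funext w
    unfold HT An
    simp only
    congr 2
    ring
  rw [e2, e]
  rw [e] at h
  exact hasDerivAt_Th_sin _ h

/-- the derivative in the angle -/
def DT (φ : ℝ) (y p w : ℂ) : ℂ := Complex.cos (An φ y w) / (1 - (p * Complex.sin (An φ y w)) ^ 2)

theorem hasDerivAt_HF {y p w : ℂ}
    (h : ∀ φ ∈ ({-(Real.pi / 6), Real.pi / 6, Real.pi / 2} : Set ℝ),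
      ‖p * Complex.sin (An φ y w)‖ < 1) :
    HasDerivAt (fun w => HF ((y, p), w))
      (aC y * DT (-(Real.pi / 6)) y p w + (aC y + bC y) * DT (Real.pi / 6) y p w +
        bC y * DT (Real.pi / 2) y p w) w := by
  have h1 := (hasDerivAt_HT (h (-(Real.pi / 6)) (by simp))).const_mul (aC y)
  have h2 := (hasDerivAt_HT (h (Real.pi / 6) (by simp))).const_mul (aC y + bC y)
  have h3 := (hasDerivAt_HT (h (Real.pi / 2) (by simp))).const_mul (bC y)
  exact (h1.add h2).add h3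

theorem aY_nonneg {y : ℝ} (h0 : 0 ≤ y) (h1 : y ≤ 1) : 0 ≤ aY y := by
  have hp := Real.pi_pos
  refine Real.sin_nonneg_of_nonneg_of_le_pi (by nlinarith) (by nlinarith)

theorem bY_ge {y : ℝ} (h0 : 1 / 2 ≤ y) (h1 : y ≤ 1) : 1 / 2 ≤ bY y := by
  have hp := Real.pi_pos
  rw [← Real.sin_pi_div_six]
  refine Real.sin_le_sin_of_le_of_le_pi_div_two (by nlinarith) (by nlinarith) (by nlinarith)

theorem re_HF {y p s : ℝ} {w : ℂ} (h0 : 1 / 2 ≤ y) (h1 : y ≤ 1) (p0 : 0 ≤ p) (p1 : p ≤ 1) (hs : 0 < s)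
    (hs1 : s ≤ 1) (h : ∀ φ ∈ ({-(Real.pi / 6), Real.pi / 6, Real.pi / 2} : Set ℝ), Be s (An φ y w)) :
    s / 6 < (fderiv ℂ HF (((y : ℂ), (p : ℂ)), w) (0, 1)).re := by
  have hl : ∀ φ ∈ ({-(Real.pi / 6), Real.pi / 6, Real.pi / 2} : Set ℝ),
      ‖(p : ℂ) * Complex.sin (An φ y w)‖ < 1 := fun φ hφ => (h φ hφ).mul_lt hs p0 p1
  have hA := analyticAt_HF (q := (((y : ℂ), (p : ℂ)), w)) hl
  rw [(hasDerivAt_section hA.differentiableAt).unique (hasDerivAt_HF hl), aC_ofReal, bC_ofReal]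
  have k1 := (h (-(Real.pi / 6)) (by simp)).re_deriv hs hs1 p0 p1
  have k2 := (h (Real.pi / 6) (by simp)).re_deriv hs hs1 p0 p1
  have k3 := (h (Real.pi / 2) (by simp)).re_deriv hs hs1 p0 p1
  have ha := aY_nonneg (by linarith) h1
  have hb := bY_ge h0 h1
  unfold DT
  rw [← Complex.ofReal_add, Complex.add_re, Complex.add_re, Complex.re_ofReal_mul,
    Complex.re_ofReal_mul, Complex.re_ofReal_mul]
  have m1 : 0 ≤ aY y * (s / 5) := by positivity
  have m2 : aY y * (s / 5) ≤ aY y *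
      (Complex.cos (An (-(Real.pi / 6)) y w) /
        (1 - (p * Complex.sin (An (-(Real.pi / 6)) y w)) ^ 2)).re :=
    mul_le_mul_of_nonneg_left k1 ha
  have m3 : (aY y + bY y) * (s / 5) ≤ (aY y + bY y) *
      (Complex.cos (An (Real.pi / 6) y w) / (1 - (p * Complex.sin (An (Real.pi / 6) y w)) ^ 2)).re :=
    mul_le_mul_of_nonneg_left k2 (by linarith)
  have m4 : bY y * (s / 5) ≤ bY y *
      (Complex.cos (An (Real.pi / 2) y w) / (1 - (p * Complex.sin (An (Real.pi / 2) y w)) ^ 2)).re :=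
    mul_le_mul_of_nonneg_left k3 (by linarith)
  have m5 : (1 / 2 : ℝ) * (s / 5) ≤ bY y * (s / 5) := mul_le_mul_of_nonneg_right hb (by positivity)
  have m6 : bY y * (s / 5) ≤ (aY y + bY y) * (s / 5) :=
    mul_le_mul_of_nonneg_right (by linarith) (by positivity)
  linarith

/-! ### vanishing at `w = 0` -/

theorem sin_pi_six : Complex.sin (Real.pi / 6) = 1 / 2 := by
  have h := Real.sin_pi_div_six
  have h2 : Complex.sin ((Real.pi / 6 : ℝ) : ℂ) = ((1 / 2 : ℝ) : ℂ) := by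
    rw [← Complex.ofReal_sin, h]
  push_cast at h2
  exact h2

theorem cos_pi_six_sq : Complex.cos (Real.pi / 6) ^ 2 = 3 / 4 := by
  have h := Complex.sin_sq_add_cos_sq (Real.pi / 6)
  rw [sin_pi_six] at h
  linear_combination h

/-- the sines at `w = 0` -/
theorem sin_An_zero (y : ℂ) :
    Complex.sin (An (-(Real.pi / 6)) y 0) =
      -(bC y * Complex.cos (Real.pi / 6)) - Complex.cos (Real.pi * y / 3) / 2 ∧
    Complex.sin (An (Real.pi / 6) y 0) =
      -(bC y * Complex.cos (Real.pi / 6)) + Complex.cos (Real.pi * y / 3) / 2 ∧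
    Complex.sin (An (Real.pi / 2) y 0) = Complex.cos (Real.pi * y / 3) ∧
    aC y = 2 * Complex.cos (Real.pi / 6) * Complex.cos (Real.pi * y / 3) / 2 - bC y / 2 := by
  unfold An bC aC
  have c := cos_pi_six_sq
  have s := sin_pi_six
  have s3 : Complex.sin (2 * (Real.pi / 6)) = 2 * (1 / 2) * Complex.cos (Real.pi / 6) := by
    rw [Complex.sin_two_mul, s]
  have c3 : Complex.cos (2 * (Real.pi / 6)) = 1 / 2 := by
    rw [Complex.cos_two_mul, c]
    norm_num
  refine ⟨?_, ?_, ?_, ?_⟩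
  · have e : (0 : ℂ) - Real.pi * y / 3 + ((-(Real.pi / 6) : ℝ) : ℂ) =
        -(Real.pi * y / 3 + Real.pi / 6) := by
      push_cast
      ring
    rw [e, Complex.sin_neg, Complex.sin_add, s]
    ring
  · have e : (0 : ℂ) - Real.pi * y / 3 + ((Real.pi / 6 : ℝ) : ℂ) =
        -(Real.pi * y / 3 - Real.pi / 6) := by
      push_cast
      ring
    rw [e, Complex.sin_neg, Complex.sin_sub, s]
    ring
  · have e : (0 : ℂ) - Real.pi * y / 3 + ((Real.pi / 2 : ℝ) : ℂ) =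
        Real.pi / 2 - Real.pi * y / 3 := by
      push_cast
      ring
    rw [e, Complex.sin_pi_div_two_sub]
  · have e : (Real.pi : ℂ) * (1 - y) / 3 = 2 * (Real.pi / 6) - Real.pi * y / 3 := by ring
    rw [e, Complex.sin_sub, s3, c3]
    ring

/-- **the level function at the offset 0** is the fifth order remainder -/
theorem mul_HF_zero (y p : ℂ) : p * HF ((y, p), 0) =
    aC y * R5 (p * Complex.sin (An (-(Real.pi / 6)) y 0)) +
    (aC y + bC y) * R5 (p * Complex.sin (An (Real.pi / 6) y 0)) +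
    bC y * R5 (p * Complex.sin (An (Real.pi / 2) y 0)) := by
  have e : ∀ x : ℂ, Lc x = R5 x + x + x ^ 3 / 3 := fun x => by
    unfold R5
    ring
  rw [mul_HF, e, e, e]
  obtain ⟨h1, h2, h3, h4⟩ := sin_An_zero y
  rw [h1, h2, h3, h4]
  obtain ⟨S, hS⟩ : ∃ S, S = bC y := ⟨_, rfl⟩
  obtain ⟨C, hC⟩ : ∃ C, C = Complex.cos (Real.pi * y / 3) := ⟨_, rfl⟩
  obtain ⟨c, hc⟩ : ∃ c, c = Complex.cos (Real.pi / 6) := ⟨_, rfl⟩
  have hcc : c ^ 2 = 3 / 4 := by
    rw [hc]
    exact cos_pi_six_sq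
  rw [← hS, ← hC, ← hc]
  have k0 : (2 * c * C / 2 - S / 2) * (-(S * c) - C / 2) +
      (2 * c * C / 2 - S / 2 + S) * (-(S * c) + C / 2) + S * C = 0 := by
    linear_combination (-2 * C * S) * hcc
  have k1 : (2 * c * C / 2 - S / 2) * (-(S * c) - C / 2) ^ 3 +
      (2 * c * C / 2 - S / 2 + S) * (-(S * c) + C / 2) ^ 3 + S * C ^ 3 = 0 := by
    linear_combination (-2 * c ^ 2 * C * S ^ 3 - 3 / 2 * C ^ 3 * S) * hcc
  linear_combination p * k0 + p ^ 3 / 3 * k1

theorem norm_sin_le_exp (z : ℂ) : ‖Complex.sin z‖ ≤ Real.exp ‖z‖ := by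
  have h1 : ‖Complex.exp (z * Complex.I)‖ ≤ Real.exp ‖z‖ := by
    refine (Complex.norm_exp_le_exp_norm _).trans ?_
    rw [norm_mul, Complex.norm_I, mul_one]
  have h2 : ‖Complex.exp (-z * Complex.I)‖ ≤ Real.exp ‖z‖ := by
    refine (Complex.norm_exp_le_exp_norm _).trans ?_
    rw [norm_mul, Complex.norm_I, mul_one, norm_neg]
  unfold Complex.sin
  rw [norm_div, norm_mul, Complex.norm_I, mul_one]
  have h3 : ‖(2 : ℂ)‖ = 2 := by simp
  rw [h3, div_le_iff₀ (by norm_num)]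
  exact (norm_sub_le _ _).trans (by linarith)

theorem HF_zero_zero (y : ℂ) : HF ((y, 0), 0) = 0 := by
  unfold HF HT
  simp only [Th_zero]
  obtain ⟨h1, h2, h3, h4⟩ := sin_An_zero y
  rw [h1, h2, h3, h4]
  linear_combination (-2 * Complex.cos (Real.pi * y / 3) * bC y) * cos_pi_six_sq

theorem norm_R5_mul {p σ : ℂ} {s : ℝ} (hs : 0 < s) (hσ : ‖σ‖ ≤ Real.exp 5)
    (h : ‖p * σ‖ ^ 2 ≤ 1 - s ^ 2) : ‖R5 (p * σ)‖ ≤ Real.exp 25 / s ^ 2 * ‖p‖ ^ 5 := by
  have h1 : ‖p * σ‖ < 1 := by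
    have : ‖p * σ‖ ^ 2 < 1 := by nlinarith
    nlinarith [norm_nonneg (p * σ)]
  refine (norm_R5 h1).trans ?_
  have h2 : ‖p * σ‖ ^ 5 ≤ ‖p‖ ^ 5 * Real.exp 25 := by
    rw [norm_mul, mul_pow]
    refine mul_le_mul_of_nonneg_left ?_ (by positivity)
    refine (pow_le_pow_left₀ (norm_nonneg _) hσ 5).trans (le_of_eq ?_)
    rw [← Real.exp_nat_mul]
    norm_num
  have h3 : s ^ 2 ≤ 1 - ‖p * σ‖ ^ 2 := by linarith
  calc ‖p * σ‖ ^ 5 / (1 - ‖p * σ‖ ^ 2) ≤ ‖p‖ ^ 5 * Real.exp 25 / s ^ 2 :=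
        div_le_div₀ (by positivity) h2 (by positivity) h3
    _ = _ := by ring

/-- **fourth order in `p` at the offset 0** -/
theorem norm_HF_zero {y p : ℂ} {s : ℝ} (hs : 0 < s) (hy : ‖y‖ ≤ 3)
    (h : ∀ φ ∈ ({-(Real.pi / 6), Real.pi / 6, Real.pi / 2} : Set ℝ),
      ‖p * Complex.sin (An φ y 0)‖ ^ 2 ≤ 1 - s ^ 2) :
    ‖HF ((y, p), 0)‖ ≤ 4 * Real.exp 30 / s ^ 2 * ‖p‖ ^ 4 := by
  have hpi := Real.pi_lt_d2
  have hpi0 := Real.pi_pos
  have npi : ‖(Real.pi : ℂ)‖ = Real.pi := by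
    rw [Complex.norm_real, Real.norm_eq_abs, abs_of_pos hpi0]
  have n3 : ‖(3 : ℂ)‖ = 3 := by simp
  have ny : ‖(Real.pi : ℂ) * y / 3‖ ≤ 3.15 := by
    rw [norm_div, norm_mul, npi, n3]
    rw [div_le_iff₀ (by norm_num)]
    calc Real.pi * ‖y‖ ≤ Real.pi * 3 := mul_le_mul_of_nonneg_left hy hpi0.le
      _ ≤ 3.15 * 3 := by linarith
  have ha : ‖aC y‖ ≤ Real.exp 5 := by
    unfold aC
    refine (norm_sin_le_exp _).trans (Real.exp_le_exp.2 ?_)
    have e : (Real.pi : ℂ) * (1 - y) / 3 = Real.pi / 3 - Real.pi * y / 3 := by ring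
    rw [e]
    refine (norm_sub_le _ _).trans ?_
    rw [norm_div, npi, n3]
    linarith
  have hb : ‖bC y‖ ≤ Real.exp 5 := by
    unfold bC
    exact (norm_sin_le_exp _).trans (Real.exp_le_exp.2 (by linarith))
  have hsn : ∀ φ : ℝ, |φ| ≤ 1.6 → ‖Complex.sin (An φ y 0)‖ ≤ Real.exp 5 := by
    intro φ hφ
    refine (norm_sin_le_exp _).trans (Real.exp_le_exp.2 ?_)
    unfold An
    rw [zero_sub]
    refine (norm_add_le _ _).trans ?_
    rw [norm_neg, Complex.norm_real, Real.norm_eq_abs]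
    linarith
  rcases eq_or_ne p 0 with h0 | h0
  · rw [h0, HF_zero_zero, norm_zero]
    positivity
  have r1 := norm_R5_mul hs (hsn (-(Real.pi / 6)) (by
    rw [abs_neg, abs_of_pos (by positivity)]
    linarith)) (h _ (by simp))
  have r2 := norm_R5_mul hs (hsn (Real.pi / 6) (by
    rw [abs_of_pos (by positivity)]
    linarith)) (h _ (by simp))
  have r3 := norm_R5_mul hs (hsn (Real.pi / 2) (by
    rw [abs_of_pos (by positivity)]
    linarith)) (h _ (by simp))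
  obtain ⟨R, hR⟩ : ∃ R, R = Real.exp 25 / s ^ 2 * ‖p‖ ^ 5 := ⟨_, rfl⟩
  have hR0 : 0 ≤ R := by
    rw [hR]
    positivity
  rw [← hR] at r1 r2 r3
  have key : ‖p * HF ((y, p), 0)‖ ≤ 4 * Real.exp 5 * R := by
    rw [mul_HF_zero]
    refine (norm_add_le _ _).trans ?_
    have t1 : ‖aC y * R5 (p * Complex.sin (An (-(Real.pi / 6)) y 0))‖ ≤ Real.exp 5 * R := by
      rw [norm_mul]
      exact mul_le_mul ha r1 (norm_nonneg _) (Real.exp_pos _).le
    have t2 : ‖(aC y + bC y) * R5 (p * Complex.sin (An (Real.pi / 6) y 0))‖ ≤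
        2 * Real.exp 5 * R := by
      rw [norm_mul]
      exact mul_le_mul ((norm_add_le _ _).trans (by linarith)) r2 (norm_nonneg _) (by positivity)
    have t3 : ‖bC y * R5 (p * Complex.sin (An (Real.pi / 2) y 0))‖ ≤ Real.exp 5 * R := by
      rw [norm_mul]
      exact mul_le_mul hb r3 (norm_nonneg _) (Real.exp_pos _).le
    have t4 := norm_add_le (aC y * R5 (p * Complex.sin (An (-(Real.pi / 6)) y 0)))
      ((aC y + bC y) * R5 (p * Complex.sin (An (Real.pi / 6) y 0)))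
    linarith
  have hp : 0 < ‖p‖ := norm_pos_iff.2 h0
  rw [norm_mul] at key
  have key2 : ‖p‖ * ‖HF ((y, p), 0)‖ ≤ ‖p‖ * (4 * Real.exp 30 / s ^ 2 * ‖p‖ ^ 4) := by
    refine key.trans (le_of_eq ?_)
    rw [hR]
    have e : Real.exp 30 = Real.exp 5 * Real.exp 25 := by
      rw [← Real.exp_add]
      norm_num
    rw [e]
    ring
  exact le_of_mul_le_mul_left key2 hp

end PLT.CA

end
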