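import Pool.Agent.PLT.CurveA2

/-!
# The static curve as an analytic function of the direction and of `p = 1 / ch`
-/

set_option autoImplicit false

noncomputable section

open Filter Topology Set NUMF
open scoped ContDiff

namespace PLT.CA

theorem Lc_ofReal {x : ℝ} (hx : |x| < 1) :
    Lc x = (((Real.log (1 + x) - Real.log (1 - x)) / 2 : ℝ) : ℂ) := by
  obtain ⟨h1, h2⟩ := abs_lt.1 hx
  unfold Lc
  push_cast
  rw [Complex.ofReal_log (by linarith), Complex.ofReal_log (by linarith)]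
  push_cast
  rfl

theorem La_eq {β c : ℝ} (hc : 0 < c) (h : |Real.sin β| < c) :
    La β c = (Real.log (1 + Real.sin β / c) - Real.log (1 - Real.sin β / c)) / 2 := by
  obtain ⟨h1, h2⟩ := abs_lt.1 h
  unfold La
  have e1 : c + Real.sin β = c * (1 + Real.sin β / c) := by field_simp
  have e2 : c - Real.sin β = c * (1 - Real.sin β / c) := by field_simp
  have p1 : 0 < 1 + Real.sin β / c := by
    have : 0 < c + Real.sin β := by linarith
    rw [e1] at this
    exact (mul_pos_iff_of_pos_left hc).1 this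
  have p2 : 0 < 1 - Real.sin β / c := by
    have : 0 < c - Real.sin β := by linarith
    rw [e2] at this
    exact (mul_pos_iff_of_pos_left hc).1 this
  rw [e1, e2, Real.log_mul hc.ne' p1.ne', Real.log_mul hc.ne' p2.ne']
  ring

theorem Lc_La {β c : ℝ} (hc : 1 ≤ c) (h : |Real.sin β| < 1) :
    Lc (((1 / c : ℝ) : ℂ) * Complex.sin β) = (La β c : ℂ) := by
  have hc0 : 0 < c := by linarith
  rw [La_eq hc0 (h.trans_le hc), ← Lc_ofReal]
  · congr 1
    push_cast
    ring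
  · rw [abs_div, abs_of_pos hc0, div_lt_one hc0]
    exact h.trans_le hc

/-- the level equation -/
def LevY (y v t : ℝ) : ℝ := aY y * Ag (v - y * l) t + bY y * Ag (v + (1 - y) * l) t

theorem mul_HF_real {y v t : ℝ}
    (h : ∀ φ ∈ ({-(Real.pi / 6), Real.pi / 6, Real.pi / 2} : Set ℝ),
      |Real.sin (8 / 3 * v - Real.pi * y / 3 + φ)| < 1) :
    ((1 / ch t : ℝ) : ℂ) * HF (((y : ℂ), ((1 / ch t : ℝ) : ℂ)), ((8 / 3 * v : ℝ) : ℂ)) =
      (LevY y v t : ℂ) := by
  have e : ∀ φ : ℝ, An φ y ((8 / 3 * v : ℝ) : ℂ) =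
      ((8 / 3 * v - Real.pi * y / 3 + φ : ℝ) : ℂ) := fun φ => by
    unfold An
    push_cast
    rfl
  have hc := one_le_ch t
  rw [mul_HF, e, e, e, Lc_La hc (h _ (by simp)), Lc_La hc (h _ (by simp)),
    Lc_La hc (h _ (by simp)), aC_ofReal, bC_ofReal]
  unfold LevY Ag
  have e1 : 8 / 3 * (v - y * l) - Real.pi / 6 = 8 / 3 * v - Real.pi * y / 3 + -(Real.pi / 6) := by
    unfold l
    ring
  have e2 : 8 / 3 * (v - y * l) + Real.pi / 6 = 8 / 3 * v - Real.pi * y / 3 + Real.pi / 6 := by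
    unfold l
    ring
  have e3 : 8 / 3 * (v + (1 - y) * l) - Real.pi / 6 = 8 / 3 * v - Real.pi * y / 3 + Real.pi / 6 := by
    unfold l
    ring
  have e4 : 8 / 3 * (v + (1 - y) * l) + Real.pi / 6 = 8 / 3 * v - Real.pi * y / 3 + Real.pi / 2 := by
    unfold l
    ring
  rw [e1, e2, e3, e4]
  push_cast
  ring

/-- the range of the direction -/
def Yd (de : ℝ) : Set ℝ := Icc (1 / 2) (1 - de)

/-- directions and heights: the compact set of parameters -/
def Kc (de : ℝ) : Set (ℂ × ℂ) := (fun q : ℝ × ℝ => (((q.1 : ℂ), (q.2 : ℂ)) : ℂ × ℂ)) ''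
  (Yd de ×ˢ Icc 0 1)

theorem isCompact_Kc (de : ℝ) : IsCompact (Kc de) := by
  refine (isCompact_Icc.prod isCompact_Icc).image ?_
  fun_prop

/-- half width of the window in the imaginary direction -/
def kap (s : ℝ) : ℝ := Real.arsinh (s / 2)

/-- the window of the angle -/
def Dw (de : ℝ) : Set ℂ := Ioo (-(Real.pi * de / 6)) (Real.pi / 12) ×ℂ
  Ioo (-kap (Real.sin (Real.pi * de / 6))) (kap (Real.sin (Real.pi * de / 6)))

/-- every angle of the window is admissible -/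
theorem be_An {de : ℝ} (d0 : 0 < de) (d1 : de ≤ 1 / 2) {y : ℝ} (hy : y ∈ Yd de) {w : ℂ}
    (hw : w ∈ closure (Dw de)) :
    ∀ φ ∈ ({-(Real.pi / 6), Real.pi / 6, Real.pi / 2} : Set ℝ),
      Be (Real.sin (Real.pi * de / 6)) (An φ y w) := by
  have hpi := Real.pi_pos
  obtain ⟨s, hs⟩ : ∃ s, s = Real.sin (Real.pi * de / 6) := ⟨_, rfl⟩
  have hs0 : 0 < s := by
    rw [hs]
    exact Real.sin_pos_of_pos_of_lt_pi (by positivity) (by nlinarith)
  have hk0 : 0 < kap s := Real.arsinh_pos_iff.2 (by positivity)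
  unfold Dw at hw
  rw [← hs, Complex.closure_reProdIm, closure_Ioo (by nlinarith), closure_Ioo (by linarith),
    Complex.mem_reProdIm] at hw
  obtain ⟨⟨w1, w2⟩, ⟨w3, w4⟩⟩ := hw
  obtain ⟨y1, y2⟩ := hy
  intro φ hφ
  have hre : (An φ y w).re = w.re - Real.pi * y / 3 + φ := by
    unfold An
    rw [Complex.add_re, Complex.sub_re, Complex.ofReal_re]
    have : ((Real.pi : ℂ) * y / 3).re = Real.pi * y / 3 := by
      have e : (Real.pi : ℂ) * y / 3 = ((Real.pi * y / 3 : ℝ) : ℂ) := by push_cast; rfl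
      rw [e, Complex.ofReal_re]
    rw [this]
  have him : (An φ y w).im = w.im := by
    unfold An
    rw [Complex.add_im, Complex.sub_im, Complex.ofReal_im]
    have : ((Real.pi : ℂ) * y / 3).im = 0 := by
      have e : (Real.pi : ℂ) * y / 3 = ((Real.pi * y / 3 : ℝ) : ℂ) := by push_cast; rfl
      rw [e, Complex.ofReal_im]
    rw [this]
    ring
  have hφ1 : -(Real.pi / 6) ≤ φ ∧ φ ≤ Real.pi / 2 := by
    rcases hφ with h | h | h
    · rw [h]
      constructor <;> linarith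
    · rw [h]
      constructor <;> linarith
    · rw [mem_singleton_iff.1 h]
      constructor <;> linarith
  constructor
  · rw [hre, ← hs]
    have k1 : |w.re - Real.pi * y / 3 + φ| ≤ Real.pi / 2 - Real.pi * de / 6 := by
      rw [abs_le]
      constructor <;> nlinarith [hφ1.1, hφ1.2]
    have k2 : Real.cos (Real.pi / 2 - Real.pi * de / 6) ≤
        Real.cos |w.re - Real.pi * y / 3 + φ| :=
      Real.cos_le_cos_of_nonneg_of_le_pi (abs_nonneg _) (by nlinarith) k1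
    rw [Real.cos_abs, Real.cos_pi_div_two_sub, ← hs] at k2
    exact k2
  · rw [him, ← hs]
    have k3 : Real.sinh (kap s) = s / 2 := Real.sinh_arsinh _
    rw [abs_le]
    constructor
    · have := Real.sinh_le_sinh.2 w3
      rw [Real.sinh_neg, k3] at this
      exact this
    · have := Real.sinh_le_sinh.2 w4
      rw [k3] at this
      exact this

theorem exists_ch {c : ℝ} (hc : 1 ≤ c) : ∃ t, ch t = c := by
  obtain ⟨x, hx⟩ := Real.sinh_surjective (Real.sqrt (c ^ 2 - 1))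
  refine ⟨3 / 8 * x, ?_⟩
  unfold ch
  rw [show 8 / 3 * (3 / 8 * x) = x by ring]
  have h1 := Real.cosh_sq x
  rw [hx, Real.sq_sqrt (by nlinarith)] at h1
  have h2 := Real.cosh_pos x
  nlinarith

/-- the level equation has a solution in the window, in every direction and at every height -/
def HexY (de : ℝ) : Prop := ∀ y ∈ Yd de, ∀ t, ∃ v ∈ Icc (0 : ℝ) (3 / 50 * l), LevY y v t = 0

theorem mem_Dw {de : ℝ} (d0 : 0 < de) (d1 : de ≤ 1 / 2) {v : ℝ} (hv : v ∈ Icc (0 : ℝ) (3 / 50 * l)) :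
    ((8 / 3 * v : ℝ) : ℂ) ∈ Dw de := by
  have hpi := Real.pi_pos
  have hs0 : 0 < Real.sin (Real.pi * de / 6) :=
    Real.sin_pos_of_pos_of_lt_pi (by positivity) (by nlinarith)
  have hk0 : 0 < kap (Real.sin (Real.pi * de / 6)) := Real.arsinh_pos_iff.2 (by positivity)
  unfold Dw
  rw [Complex.mem_reProdIm, Complex.ofReal_re, Complex.ofReal_im]
  obtain ⟨v1, v2⟩ := hv
  unfold l at v2
  have : 0 < Real.pi * de / 6 := by positivity
  exact ⟨⟨by linarith, by linarith⟩, ⟨by linarith, hk0⟩⟩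

theorem zero_mem_Dw {de : ℝ} (d0 : 0 < de) (d1 : de ≤ 1 / 2) : (0 : ℂ) ∈ Dw de := by
  have := mem_Dw d0 d1 (v := 0) ⟨le_rfl, by
    have := Real.pi_pos
    unfold l
    positivity⟩
  simpa using this

/-- the zero of the level function -/
theorem HF_eq_zero {de : ℝ} (d0 : 0 < de) (d1 : de ≤ 1 / 2) {y v t : ℝ} (hy : y ∈ Yd de)
    (hv : v ∈ Icc (0 : ℝ) (3 / 50 * l)) (h : LevY y v t = 0) :
    HF (((y : ℂ), ((1 / ch t : ℝ) : ℂ)), ((8 / 3 * v : ℝ) : ℂ)) = 0 := by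
  have hpi := Real.pi_pos
  have hs0 : 0 < Real.sin (Real.pi * de / 6) :=
    Real.sin_pos_of_pos_of_lt_pi (by positivity) (by nlinarith)
  have hb := be_An d0 d1 hy (subset_closure (mem_Dw d0 d1 hv))
  have h1 := mul_HF_real (y := y) (v := v) (t := t) (fun φ hφ => by
    have h2 := (hb φ hφ).norm_sin_lt hs0
    have e : An φ y ((8 / 3 * v : ℝ) : ℂ) = ((8 / 3 * v - Real.pi * y / 3 + φ : ℝ) : ℂ) := by
      unfold An
      push_cast
      rfl
    rw [e, ← Complex.ofReal_sin, Complex.norm_real, Real.norm_eq_abs] at h2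
    exact h2)
  rw [h, Complex.ofReal_zero] at h1
  refine (mul_eq_zero.1 h1).resolve_left ?_
  have := one_le_ch t
  have h3 : (1 / ch t : ℝ) ≠ 0 := by positivity
  exact_mod_cast h3

/-- **the curve over the direction and `p = 1 / ch`** -/
theorem exists_V {de : ℝ} (d0 : 0 < de) (d1 : de ≤ 1 / 2) (hex : HexY de) :
    ∃ ε > 0, ∃ C, 0 ≤ C ∧ ∃ V : ℂ × ℂ → ℂ, ∀ x : ℂ × ℂ,
      (∃ k ∈ Kc de, dist x k < ε) → AnalyticAt ℂ V x ∧ HF (x, V x) = 0 ∧ V x ∈ Dw de ∧
        ‖V x‖ ≤ C * ‖x.2‖ ^ 4 ∧ ∀ w ∈ Dw de, HF (x, w) = 0 → w = V x := by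
  have hpi := Real.pi_pos
  obtain ⟨s, hs⟩ : ∃ s, s = Real.sin (Real.pi * de / 6) := ⟨_, rfl⟩
  have hs0 : 0 < s := by
    rw [hs]
    exact Real.sin_pos_of_pos_of_lt_pi (by positivity) (by nlinarith)
  have hs1 : s ≤ 1 := by
    rw [hs]
    exact Real.sin_le_one _
  have hk0 : 0 < kap s := Real.arsinh_pos_iff.2 (by positivity)
  have hbe : ∀ y ∈ Yd de, ∀ w ∈ closure (Dw de),
      ∀ φ ∈ ({-(Real.pi / 6), Real.pi / 6, Real.pi / 2} : Set ℝ), Be s (An φ y w) := by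
    intro y hy w hw φ hφ
    rw [hs]
    exact be_An d0 d1 hy hw φ hφ
  have hK : ∀ k ∈ Kc de, ∃ y ∈ Yd de, ∃ p : ℝ, 0 ≤ p ∧ p ≤ 1 ∧ k = ((y : ℂ), (p : ℂ)) := by
    rintro k ⟨⟨y, p⟩, ⟨hy, hp⟩, rfl⟩
    exact ⟨y, hy, p, hp.1, hp.2, rfl⟩
  have hyle : ∀ y ∈ Yd de, 1 / 2 ≤ y ∧ y ≤ 1 := fun y hy => ⟨hy.1, by linarith [hy.2]⟩
  obtain ⟨U, hUo, hKU, V, hV, hVn⟩ := implicitC (F := HF) (K := Kc de) (D := Dw de) (c := s / 6)
    (isCompact_Kc de) (by
      unfold Dw
      exact isOpen_Ioo.reProdIm isOpen_Ioo)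
    (by
      unfold Dw
      exact ((convex_Ioo _ _).linear_preimage Complex.reLm).inter
        ((convex_Ioo _ _).linear_preimage Complex.imLm))
    (by
      unfold Dw
      rw [← hs, Complex.closure_reProdIm, closure_Ioo (by nlinarith), closure_Ioo (by linarith)]
      exact isCompact_Icc.reProdIm isCompact_Icc)
    (by positivity)
    (by
      intro k hk v hv
      obtain ⟨y, hy, p, p0, p1, rfl⟩ := hK k hk
      exact analyticAt_HF fun φ hφ => (hbe y hy v hv φ hφ).mul_lt hs0 p0 p1)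
    (by
      intro k hk v hv
      obtain ⟨y, hy, p, p0, p1, rfl⟩ := hK k hk
      exact re_HF (hyle y hy).1 (hyle y hy).2 p0 p1 hs0 hs1 (hbe y hy v hv))
    (by
      intro k hk
      obtain ⟨y, hy, p, p0, p1, rfl⟩ := hK k hk
      rcases eq_or_lt_of_le p0 with h | h
      · refine ⟨0, zero_mem_Dw d0 d1, ?_⟩
        rw [← h, Complex.ofReal_zero]
        exact HF_zero_zero y
      · obtain ⟨t, ht⟩ := exists_ch (c := 1 / p) (by rwa [le_div_iff₀ h, one_mul])
        obtain ⟨v, hv, hv0⟩ := hex y hy t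
        refine ⟨_, mem_Dw d0 d1 hv, ?_⟩
        have := HF_eq_zero d0 d1 hy hv hv0
        rw [ht, one_div_one_div] at this
        exact this)
  obtain ⟨W, hW⟩ : ∃ W : Set (ℂ × ℂ), W = U ∩ ({x | ‖x.1‖ < 3} ∩
      ({x | ‖x.2 * Complex.sin (An (-(Real.pi / 6)) x.1 0)‖ ^ 2 < 1 - s ^ 2 / 4} ∩
      ({x | ‖x.2 * Complex.sin (An (Real.pi / 6) x.1 0)‖ ^ 2 < 1 - s ^ 2 / 4} ∩
      {x | ‖x.2 * Complex.sin (An (Real.pi / 2) x.1 0)‖ ^ 2 < 1 - s ^ 2 / 4}))) := ⟨_, rfl⟩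
  have hcon : ∀ φ : ℝ, IsOpen {x : ℂ × ℂ | ‖x.2 * Complex.sin (An φ x.1 0)‖ ^ 2 < 1 - s ^ 2 / 4} := by
    intro φ
    refine isOpen_lt ?_ continuous_const
    unfold An
    fun_prop
  have hWo : IsOpen W := by
    rw [hW]
    exact hUo.inter ((isOpen_lt (by fun_prop) continuous_const).inter
      ((hcon _).inter ((hcon _).inter (hcon _))))
  have hKW : Kc de ⊆ W := by
    intro k hk
    have hkU := hKU hk
    obtain ⟨y, hy, p, p0, p1, rfl⟩ := hK k hk
    have h0 := subset_closure (zero_mem_Dw d0 d1 : (0 : ℂ) ∈ Dw de)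
    have hn : ∀ φ ∈ ({-(Real.pi / 6), Real.pi / 6, Real.pi / 2} : Set ℝ),
        ‖(p : ℂ) * Complex.sin (An φ y 0)‖ ^ 2 < 1 - s ^ 2 / 4 := by
      intro φ hφ
      have h1 := (hbe y hy 0 h0 φ hφ).normSq_sin hs0
      rw [norm_mul, Complex.norm_real, Real.norm_eq_abs, abs_of_nonneg p0, mul_pow]
      have h2 : p ^ 2 ≤ 1 := by nlinarith
      have h3 : p ^ 2 * ‖Complex.sin (An φ y 0)‖ ^ 2 ≤ 1 * ‖Complex.sin (An φ y 0)‖ ^ 2 :=
        mul_le_mul_of_nonneg_right h2 (by positivity)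
      nlinarith
    rw [hW]
    refine ⟨hkU, ?_, hn _ (by simp), hn _ (by simp), hn _ (by simp)⟩
    show ‖(y : ℂ)‖ < 3
    rw [Complex.norm_real, Real.norm_eq_abs, abs_of_nonneg (by linarith [(hyle y hy).1])]
    linarith [(hyle y hy).2]
  obtain ⟨ε, hε, hεW⟩ := (isCompact_Kc de).exists_thickening_subset_open hWo hKW
  refine ⟨ε, hε, 6 / s * (4 * Real.exp 30 / (s / 2) ^ 2), by positivity, V, ?_⟩
  intro x hx
  have hxW : x ∈ W := hεW (Metric.mem_thickening_iff.2 hx)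
  rw [hW] at hxW
  obtain ⟨hxU, x1, x2, x3, x4⟩ := hxW
  obtain ⟨v1, v2, v3⟩ := hV x hxU
  have hz := hVn x hxU 0 (zero_mem_Dw d0 d1)
  rw [zero_sub, norm_neg] at hz
  have hF := norm_HF_zero (y := x.1) (p := x.2) (s := s / 2) (by positivity) (le_of_lt x1) (by
    intro φ hφ
    have e : 1 - (s / 2) ^ 2 = 1 - s ^ 2 / 4 := by ring
    rw [e]
    rcases hφ with h | h | h
    · rw [h]
      exact le_of_lt x2
    · rw [h]
      exact le_of_lt x3
    · rw [mem_singleton_iff.1 h]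
      exact le_of_lt x4)
  refine ⟨v1, v3, v2, ?_, ?_⟩
  · have h1 : s / 6 * ‖V x‖ ≤ 4 * Real.exp 30 / (s / 2) ^ 2 * ‖x.2‖ ^ 4 := hz.trans hF
    have h2 : ‖V x‖ = 6 / s * (s / 6 * ‖V x‖) := by field_simp
    rw [h2, mul_assoc (6 / s)]
    exact mul_le_mul_of_nonneg_left h1 (by positivity)
  · intro w hw hw0
    have h1 := hVn x hxU w hw
    rw [hw0, norm_zero] at h1
    have h2 : ‖w - V x‖ ≤ 0 := by
      by_contra hcc
      have := mul_pos (by positivity : 0 < s / 6) (not_le.1 hcc)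
      linarith
    exact sub_eq_zero.1 (norm_le_zero_iff.1 h2)

end PLT.CA

end
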