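import Pool.Agent.PLT.Curve

/-!
# The curve of two rows at the places `- p l`, `q l`, `0 ≤ q ≤ p`, `p + q ≤ 1`

`AL c x` = level function of a row in the angle `x = 8 v / 3`, `c = ch t`; `k = c² - 1/4`, `r = sin² x`,
`qd = k² - (k + 3/4) r + r²`.

* `AL_eq`, `hasDerivAt_AL`: closed forms; **`AL_up`**: `artanh u ≤ (u / w) (1 + 5 w) / (3 (1 + w))`,
  `w = √(1 - u²)`;
* `alg1`, `alg0`: the algebraic inequalities; **`AL_tan`**: `AL y ≤ AL' y tan (y + ep)` for
  `0 < y ≤ π/3 - ep`; `AL_tan0`: `AL y ≤ AL' y tan y` for `0 < y ≤ π/6`;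
* `mono_ep`, `mono_0`: `AL (P - ep) / sin P` and `AL P / sin P` (`P ≤ π/6`) increase;
* **`two_up`, `two_lo`** and **`exists_curve2`**: for a balanced content of two places the curve exists in
  `[0, v0]` at all heights.
-/

set_option autoImplicit false

noncomputable section

open MeasureTheory Set Filter Topology

namespace PLT

open NUMF

/-- the level function of a row in the angle -/
def AL (c x : ℝ) : ℝ := La (x - Real.pi / 6) c + La (x + Real.pi / 6) c

theorem Ag_AL (v t : ℝ) : Ag v t = AL (ch t) (8 / 3 * v) := rfl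

/-- the denominator -/
def qd (c r : ℝ) : ℝ := (c ^ 2 - 1 / 4) ^ 2 - (c ^ 2 - 1 / 4 + 3 / 4) * r + r ^ 2

section al

variable {c x : ℝ}

theorem sin_pm (x : ℝ) : Real.sin (x - Real.pi / 6) = √3 / 2 * Real.sin x - Real.cos x / 2 ∧
    Real.sin (x + Real.pi / 6) = √3 / 2 * Real.sin x + Real.cos x / 2 := by
  constructor
  · rw [Real.sin_sub, Real.cos_pi_div_six, Real.sin_pi_div_six]
    ring
  · rw [Real.sin_add, Real.cos_pi_div_six, Real.sin_pi_div_six]
    ring

theorem cos_pm (x : ℝ) : Real.cos (x - Real.pi / 6) = √3 / 2 * Real.cos x + Real.sin x / 2 ∧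
    Real.cos (x + Real.pi / 6) = √3 / 2 * Real.cos x - Real.sin x / 2 := by
  constructor
  · rw [Real.cos_sub, Real.cos_pi_div_six, Real.sin_pi_div_six]
    ring
  · rw [Real.cos_add, Real.cos_pi_div_six, Real.sin_pi_div_six]
    ring

theorem posX (hc : 1 ≤ c) (h1 : -(Real.pi / 3) < x) (h2 : x < Real.pi / 3) :
    (0 < c + Real.sin (x - Real.pi / 6) ∧ 0 < c - Real.sin (x - Real.pi / 6)) ∧
    0 < c + Real.sin (x + Real.pi / 6) ∧ 0 < c - Real.sin (x + Real.pi / 6) :=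
  ⟨cpos hc (by linarith) (by linarith), cpos hc (by linarith) (by linarith)⟩

theorem mulX (c x : ℝ) :
    (c + Real.sin (x - Real.pi / 6)) * (c + Real.sin (x + Real.pi / 6)) =
      c ^ 2 - 1 / 4 + Real.sin x ^ 2 + √3 * c * Real.sin x ∧
    (c - Real.sin (x - Real.pi / 6)) * (c - Real.sin (x + Real.pi / 6)) =
      c ^ 2 - 1 / 4 + Real.sin x ^ 2 - √3 * c * Real.sin x := by
  obtain ⟨e1, e2⟩ := sin_pm x
  have q := Apx.s3sq
  have cs := Real.sin_sq_add_cos_sq x
  rw [e1, e2]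
  constructor
  · linear_combination (Real.sin x ^ 2 / 4) * q - (1 / 4) * cs
  · linear_combination (Real.sin x ^ 2 / 4) * q - (1 / 4) * cs

theorem qd_eq (c x : ℝ) : (c ^ 2 - 1 / 4 + Real.sin x ^ 2 + √3 * c * Real.sin x) *
    (c ^ 2 - 1 / 4 + Real.sin x ^ 2 - √3 * c * Real.sin x) = qd c (Real.sin x ^ 2) := by
  have q := Apx.s3sq
  unfold qd
  linear_combination (-(c ^ 2 * Real.sin x ^ 2)) * q

theorem Xpos (hc : 1 ≤ c) (h1 : -(Real.pi / 3) < x) (h2 : x < Real.pi / 3) :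
    0 < c ^ 2 - 1 / 4 + Real.sin x ^ 2 + √3 * c * Real.sin x ∧
    0 < c ^ 2 - 1 / 4 + Real.sin x ^ 2 - √3 * c * Real.sin x := by
  obtain ⟨⟨p1, p2⟩, p3, p4⟩ := posX hc h1 h2
  obtain ⟨e1, e2⟩ := mulX c x
  rw [← e1, ← e2]
  exact ⟨mul_pos p1 p3, mul_pos p2 p4⟩

theorem AL_eq (hc : 1 ≤ c) (h1 : -(Real.pi / 3) < x) (h2 : x < Real.pi / 3) :
    AL c x = (Real.log (c ^ 2 - 1 / 4 + Real.sin x ^ 2 + √3 * c * Real.sin x) -
      Real.log (c ^ 2 - 1 / 4 + Real.sin x ^ 2 - √3 * c * Real.sin x)) / 2 := by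
  obtain ⟨⟨p1, p2⟩, p3, p4⟩ := posX hc h1 h2
  obtain ⟨e1, e2⟩ := mulX c x
  rw [← e1, ← e2, Real.log_mul p1.ne' p3.ne', Real.log_mul p2.ne' p4.ne']
  unfold AL La
  ring

theorem hasDerivAt_AL (hc : 1 ≤ c) (h1 : -(Real.pi / 3) < x) (h2 : x < Real.pi / 3) :
    HasDerivAt (AL c) (√3 * c * Real.cos x * (c ^ 2 - 1 / 4 - Real.sin x ^ 2) /
      qd c (Real.sin x ^ 2)) x := by
  obtain ⟨⟨p1, p2⟩, p3, p4⟩ := posX hc h1 h2
  obtain ⟨x1, x2⟩ := Xpos hc h1 h2
  have i0 : HasDerivAt (fun x : ℝ => x) 1 x := hasDerivAt_id x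
  have g1 := (hasDerivAt_La_b p1 p2).comp x (i0.sub_const (Real.pi / 6))
  have g2 := (hasDerivAt_La_b p3 p4).comp x (i0.add_const (Real.pi / 6))
  refine (g1.add g2).congr_deriv ?_
  have hq : qd c (Real.sin x ^ 2) = (c ^ 2 - Real.sin (x - Real.pi / 6) ^ 2) *
      (c ^ 2 - Real.sin (x + Real.pi / 6) ^ 2) := by
    rw [← qd_eq, ← (mulX c x).1, ← (mulX c x).2]
    ring
  have d1 : 0 < c ^ 2 - Real.sin (x - Real.pi / 6) ^ 2 := by
    have e : c ^ 2 - Real.sin (x - Real.pi / 6) ^ 2 =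
      (c + Real.sin (x - Real.pi / 6)) * (c - Real.sin (x - Real.pi / 6)) := by ring
    rw [e]
    positivity
  have d2 : 0 < c ^ 2 - Real.sin (x + Real.pi / 6) ^ 2 := by
    have e : c ^ 2 - Real.sin (x + Real.pi / 6) ^ 2 =
      (c + Real.sin (x + Real.pi / 6)) * (c - Real.sin (x + Real.pi / 6)) := by ring
    rw [e]
    positivity
  rw [mul_one, mul_one, hq, div_add_div _ _ d1.ne' d2.ne']
  congr 1
  obtain ⟨e1, e2⟩ := sin_pm x
  obtain ⟨e3, e4⟩ := cos_pm x
  have q := Apx.s3sq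
  have cs := Real.sin_sq_add_cos_sq x
  rw [e1, e2, e3, e4]
  obtain ⟨s, hs⟩ : ∃ s, s = Real.sin x := ⟨_, rfl⟩
  obtain ⟨k, hk⟩ : ∃ k, k = Real.cos x := ⟨_, rfl⟩
  obtain ⟨z, hz⟩ : ∃ z : ℝ, z = √3 := ⟨_, rfl⟩
  rw [← hs, ← hk] at cs ⊢
  rw [← hz] at q ⊢
  linear_combination (-(z * c * k * s ^ 2 / 4)) * q - (z * c * k / 4) * cs

/-! ### upper bound of the level function -/

/-- `artanh p ≤ p (1 - 2 p² / 3) / (1 - p²)` -/
theorem artanh_le {p : ℝ} (h0 : 0 ≤ p) (h1 : p < 1) :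
    (Real.log (1 + p) - Real.log (1 - p)) / 2 ≤ p * (1 - 2 / 3 * p ^ 2) / (1 - p ^ 2) := by
  obtain ⟨f, hf⟩ : ∃ f : ℝ → ℝ, f = fun p => p * (1 - 2 / 3 * p ^ 2) / (1 - p ^ 2) -
      (Real.log (1 + p) - Real.log (1 - p)) / 2 := ⟨_, rfl⟩
  have hd : ∀ x ∈ Icc 0 p, HasDerivAt f
      ((1 - x ^ 2 + 2 / 3 * x ^ 4) / (1 - x ^ 2) ^ 2 - 1 / (1 - x ^ 2)) x := by
    intro x hx
    have hx1 : x < 1 := hx.2.trans_lt h1
    have a1 : 0 < 1 + x := by linarith [hx.1]
    have a2 : 0 < 1 - x := by linarith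
    have a3 : 0 < 1 - x ^ 2 := by nlinarith [hx.1]
    have i0 : HasDerivAt (fun x : ℝ => x) 1 x := hasDerivAt_id x
    have n1 : HasDerivAt (fun x : ℝ => x * (1 - 2 / 3 * x ^ 2))
        (1 * (1 - 2 / 3 * x ^ 2) + x * (-(2 / 3 * (2 * x)))) x := by
      have h2 : HasDerivAt (fun x : ℝ => x ^ 2) (2 * x) x := by simpa using hasDerivAt_pow 2 x
      exact i0.mul ((h2.const_mul (2 / 3)).const_sub 1)
    have n2 : HasDerivAt (fun x : ℝ => 1 - x ^ 2) (-(2 * x)) x := by
      have h2 : HasDerivAt (fun x : ℝ => x ^ 2) (2 * x) x := by simpa using hasDerivAt_pow 2 x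
      exact h2.const_sub 1
    have n3 := (i0.const_add 1).log a1.ne'
    have n4 := (i0.const_sub 1).log a2.ne'
    rw [hf]
    refine ((n1.div n2 a3.ne').sub ((n3.sub n4).div_const 2)).congr_deriv ?_
    have e : 1 / (1 + x) - -1 / (1 - x) = 2 / (1 - x ^ 2) := by
      rw [neg_div, sub_neg_eq_add, div_add_div _ _ a1.ne' a2.ne']
      congr 1 <;> ring
    rw [e]
    field_simp
    ring
  have hm : MonotoneOn f (Icc 0 p) := by
    refine monotoneOn_of_deriv_nonneg (convex_Icc 0 p)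
      (fun x hx => (hd x hx).continuousAt.continuousWithinAt)
      (fun x hx => ?_) fun x hx => ?_
    · rw [interior_Icc] at hx
      exact (hd x ⟨hx.1.le, hx.2.le⟩).differentiableAt.differentiableWithinAt
    · rw [interior_Icc] at hx
      rw [(hd x ⟨hx.1.le, hx.2.le⟩).deriv]
      have hx1 : x < 1 := hx.2.trans h1
      have a3 : 0 < 1 - x ^ 2 := by nlinarith [hx.1]
      have e : 1 / (1 - x ^ 2) = (1 - x ^ 2) / (1 - x ^ 2) ^ 2 := by
        field_simp
      rw [e, ← sub_div]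
      have : 0 ≤ x ^ 4 := by positivity
      apply div_nonneg _ (sq_nonneg _)
      linarith
  have := hm ⟨le_rfl, h0⟩ ⟨h0, le_rfl⟩ h0
  rw [hf] at this
  norm_num at this
  linarith

/-- **upper bound** by square roots -/
theorem log_sub_le {X Y : ℝ} (hY : 0 < Y) (hXY : Y ≤ X) :
    (Real.log X - Real.log Y) / 2 ≤ (X - Y) * (X + Y + 10 * √(X * Y)) /
      (6 * √(X * Y) * (X + Y + 2 * √(X * Y))) := by
  have hX : 0 < X := hY.trans_le hXY
  obtain ⟨f, hf⟩ : ∃ f, f = √X := ⟨_, rfl⟩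
  obtain ⟨g, hg⟩ : ∃ g, g = √Y := ⟨_, rfl⟩
  have f0 : 0 < f := by rw [hf]; exact Real.sqrt_pos.2 hX
  have g0 : 0 < g := by rw [hg]; exact Real.sqrt_pos.2 hY
  have f2 : f ^ 2 = X := by rw [hf]; exact Real.sq_sqrt hX.le
  have g2 : g ^ 2 = Y := by rw [hg]; exact Real.sq_sqrt hY.le
  have hfg : g ≤ f := by rw [hf, hg]; exact Real.sqrt_le_sqrt hXY
  have e1 : √(X * Y) = f * g := by rw [hf, hg]; exact Real.sqrt_mul hX.le Y
  have h1 := artanh_le (p := (f - g) / (f + g)) (div_nonneg (by linarith) (by linarith))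
    ((div_lt_one (by linarith)).2 (by linarith))
  have k1 : 1 + (f - g) / (f + g) = 2 * f / (f + g) := by
    field_simp
    ring
  have k2 : 1 - (f - g) / (f + g) = 2 * g / (f + g) := by
    field_simp
    ring
  have k3 : 1 - ((f - g) / (f + g)) ^ 2 = 4 * f * g / (f + g) ^ 2 := by
    field_simp
    ring
  rw [k1, k2, k3, ← Real.log_div (by positivity) (by positivity)] at h1
  have k4 : 2 * f / (f + g) / (2 * g / (f + g)) = f / g := by
    field_simp
  rw [k4, Real.log_div f0.ne' g0.ne'] at h1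
  have k5 : Real.log X = 2 * Real.log f := by
    rw [← f2, Real.log_pow]
    push_cast
    ring
  have k6 : Real.log Y = 2 * Real.log g := by
    rw [← g2, Real.log_pow]
    push_cast
    ring
  rw [k5, k6, e1, ← f2, ← g2]
  have k7 : (f ^ 2 - g ^ 2) * (f ^ 2 + g ^ 2 + 10 * (f * g)) /
      (6 * (f * g) * (f ^ 2 + g ^ 2 + 2 * (f * g))) =
      2 * ((f - g) / (f + g) * (1 - 2 / 3 * ((f - g) / (f + g)) ^ 2) /
        (4 * f * g / (f + g) ^ 2)) := by
    rw [show f ^ 2 + g ^ 2 + 2 * (f * g) = (f + g) ^ 2 by ring]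
    field_simp
    ring
  rw [k7]
  linarith

/-- upper bound of the level function -/
theorem AL_up (hc : 1 ≤ c) (h1 : 0 ≤ x) (h2 : x < Real.pi / 3) :
    AL c x ≤ √3 * c * Real.sin x * (c ^ 2 - 1 / 4 + Real.sin x ^ 2 + 5 * √(qd c (Real.sin x ^ 2))) /
      (3 * √(qd c (Real.sin x ^ 2)) *
        (c ^ 2 - 1 / 4 + Real.sin x ^ 2 + √(qd c (Real.sin x ^ 2)))) := by
  have hp := Real.pi_pos
  have h0 : -(Real.pi / 3) < x := by linarith
  obtain ⟨x1, x2⟩ := Xpos hc h0 h2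
  have hs : 0 ≤ Real.sin x := Real.sin_nonneg_of_nonneg_of_le_pi h1 (by linarith)
  have s3 := Apx.s3.1
  have h3 : 0 ≤ √3 * c * Real.sin x := by positivity
  rw [AL_eq hc h0 h2]
  refine (log_sub_le x2 (by linarith)).trans (le_of_eq ?_)
  rw [qd_eq]
  have hq : 0 < qd c (Real.sin x ^ 2) := by
    rw [← qd_eq]
    exact mul_pos x1 x2
  have hg := Real.sqrt_pos.2 hq
  obtain ⟨g, hg'⟩ : ∃ g, g = √(qd c (Real.sin x ^ 2)) := ⟨_, rfl⟩
  rw [← hg'] at hg ⊢
  obtain ⟨K, hK⟩ : ∃ K, K = c ^ 2 - 1 / 4 + Real.sin x ^ 2 := ⟨_, rfl⟩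
  have hK0 : 0 < K := by
    rw [hK]
    nlinarith [sq_nonneg (Real.sin x)]
  rw [← hK, show K + √3 * c * Real.sin x - (K - √3 * c * Real.sin x) =
      2 * (√3 * c * Real.sin x) by ring,
    show K + √3 * c * Real.sin x + (K - √3 * c * Real.sin x) = 2 * K by ring]
  rw [div_eq_div_iff (by positivity) (by positivity)]
  ring

/-- the first algebraic inequality -/
theorem alg1 {k r g : ℝ} (hk : 3 / 4 ≤ k) (hr0 : 0 ≤ r) (hr : r ≤ 0.6956) (hg : 0 ≤ g)
    (hg2 : g ^ 2 = k ^ 2 - (k + 3 / 4) * r + r ^ 2) :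
    g * (k + r) + 5 * g ^ 2 ≤ 3.366 * (k - r) * (k + r + g) := by
  have hK : 0 < k + r := by linarith
  have hD : 0 < k - r := by norm_num at hr; linarith
  obtain ⟨a, ha⟩ : ∃ a, a = (k - r) / (k + r) := ⟨_, rfl⟩
  obtain ⟨w, hw⟩ : ∃ w, w = g / (k + r) := ⟨_, rfl⟩
  have ha0 : 0 < a := by rw [ha]; positivity
  have ha1 : a ≤ 1 := by
    rw [ha, div_le_one hK]
    linarith
  have hw0 : 0 ≤ w := by rw [hw]; positivity
  have ea : k - r = a * (k + r) := by
    rw [ha]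
    field_simp
  have eg : g = w * (k + r) := by
    rw [hw]
    field_simp
  have hw2 : w ^ 2 ≤ 0.4805 * a ^ 2 + 0.539 * a - 0.0195 := by
    have h1 : g ^ 2 ≤ 0.4805 * (k - r) ^ 2 + 0.539 * (k - r) * (k + r) - 0.0195 * (k + r) ^ 2 := by
      rw [hg2]
      norm_num at hr ⊢
      nlinarith
    rw [eg, ea] at h1
    have h2 : 0 < (k + r) ^ 2 := by positivity
    have h3 : w ^ 2 * (k + r) ^ 2 ≤ (0.4805 * a ^ 2 + 0.539 * a - 0.0195) * (k + r) ^ 2 := by
      calc w ^ 2 * (k + r) ^ 2 = (w * (k + r)) ^ 2 := by ring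
        _ ≤ _ := h1
        _ = _ := by ring
    exact le_of_mul_le_mul_right h3 h2
  have key : w + 5 * w ^ 2 ≤ 3.366 * a * (1 + w) := by
    rcases le_total (3.366 * a) 1 with h | h
    · have h1 : w ≤ 2 * w ^ 2 + 1 / 8 := by nlinarith [sq_nonneg (w - 1 / 4)]
      have h2 : (1 - 3.366 * a) * w ≤ (1 - 3.366 * a) * (2 * (0.4805 * a ^ 2 + 0.539 * a - 0.0195) + 1 / 8) :=
        mul_le_mul_of_nonneg_left (by linarith) (by linarith)
      have h3 : 0 ≤ 3.2347 * a ^ 3 + 0.265 * a ^ 2 - 0.11753 * a + 0.0115 := by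
        nlinarith [mul_nonneg ha0.le (sq_nonneg (a - 0.08)), sq_nonneg (a - 0.08), pow_pos ha0 3]
      norm_num at h1 h2 h3 hw2 ⊢
      nlinarith
    · rcases le_total w a with h1 | h1
      · have h2 : w * (5 * w - 3.366 * a + 1) ≤ 3.366 * a := by
          have h3 : w * (5 * w - 3.366 * a + 1) ≤ w * (1.634 * a + 1) :=
            mul_le_mul_of_nonneg_left (by linarith) hw0
          have h4 : w * (1.634 * a + 1) ≤ a * (1.634 * a + 1) :=
            mul_le_mul_of_nonneg_right h1 (by linarith)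
          nlinarith
        nlinarith
      · have h2 : (3.366 * a - 1) * a ≤ (3.366 * a - 1) * w :=
          mul_le_mul_of_nonneg_left h1 (by linarith)
        nlinarith [sq_nonneg (a - 0.165)]
  rw [eg, ea]
  have h4 : 0 ≤ (k + r) ^ 2 := sq_nonneg _
  have h5 := mul_le_mul_of_nonneg_right key h4
  calc w * (k + r) * (k + r) + 5 * (w * (k + r)) ^ 2 = (w + 5 * w ^ 2) * (k + r) ^ 2 := by ring
    _ ≤ 3.366 * a * (1 + w) * (k + r) ^ 2 := h5
    _ = _ := by ring

/-- the second algebraic inequality -/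
theorem alg0 {k r g : ℝ} (hk : 3 / 4 ≤ k) (hr0 : 0 ≤ r) (hr : r ≤ 1 / 4) (hg : 0 ≤ g)
    (hg2 : g ^ 2 = k ^ 2 - (k + 3 / 4) * r + r ^ 2) :
    g * (k + r) + 5 * g ^ 2 ≤ 3 * (k - r) * (k + r + g) := by
  have hk0 : 0 < k := by linarith
  have h1 : k - r / 2 - r / (2 * k) ≤ g := by
    have h2 : 0 ≤ k - r / 2 - r / (2 * k) := by
      have : r / (2 * k) ≤ 1 / 4 := by
        rw [div_le_iff₀ (by linarith)]
        linarith
      linarith
    refine le_of_sq_le_sq ?_ hg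
    rw [hg2]
    have e : (k - r / 2 - r / (2 * k)) ^ 2 = k ^ 2 - k * r + r ^ 2 / 4 - r + r ^ 2 / (2 * k) +
        r ^ 2 / (4 * k ^ 2) := by
      field_simp
      ring
    rw [e]
    have h3 : r ^ 2 / (2 * k) ≤ 2 / 3 * r ^ 2 := by
      rw [div_le_iff₀ (by linarith)]
      nlinarith [sq_nonneg r]
    have h4 : r ^ 2 / (4 * k ^ 2) ≤ 4 / 9 * r ^ 2 := by
      rw [div_le_iff₀ (by positivity)]
      nlinarith [mul_nonneg (sq_nonneg r) (by nlinarith : (0 : ℝ) ≤ 16 / 9 * k ^ 2 - 1)]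
    nlinarith
  have h5 : 0 ≤ 2 * k - 4 * r := by linarith
  have h6 := mul_le_mul_of_nonneg_right h1 h5
  have e : (k - r / 2 - r / (2 * k)) * (2 * k - 4 * r) = 2 * k ^ 2 - 5 * k * r + 2 * r ^ 2 - r +
      2 * r ^ 2 / k := by
    field_simp
    ring
  rw [e] at h6
  have h7 : 0 ≤ 2 * r ^ 2 / k := by positivity
  nlinarith

/-- the derivative of the level function -/
def AD (c x : ℝ) : ℝ := √3 * c * Real.cos x * (c ^ 2 - 1 / 4 - Real.sin x ^ 2) / qd c (Real.sin x ^ 2)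

theorem k_ge (hc : 1 ≤ c) : 3 / 4 ≤ c ^ 2 - 1 / 4 := by nlinarith

theorem sin_sq_lt (h1 : -(Real.pi / 3) < x) (h2 : x < Real.pi / 3) : Real.sin x ^ 2 < 3 / 4 := by
  have hc : 1 / 2 < Real.cos x := by
    rw [← Real.cos_pi_div_three, ← Real.cos_abs x]
    exact Real.cos_lt_cos_of_nonneg_of_le_pi_div_two (abs_nonneg _) (by linarith [Real.pi_pos])
      (abs_lt.2 ⟨h1, h2⟩)
  have := Real.sin_sq_add_cos_sq x
  nlinarith

theorem qd_pos (hc : 1 ≤ c) (h1 : -(Real.pi / 3) < x) (h2 : x < Real.pi / 3) :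
    0 < qd c (Real.sin x ^ 2) := by
  obtain ⟨x1, x2⟩ := Xpos hc h1 h2
  rw [← qd_eq]
  exact mul_pos x1 x2

theorem AD_pos (hc : 1 ≤ c) (h1 : -(Real.pi / 3) < x) (h2 : x < Real.pi / 3) : 0 < AD c x := by
  have hp := Real.pi_pos
  have hq := qd_pos hc h1 h2
  have hk := k_ge hc
  have hs := sin_sq_lt h1 h2
  have hcos := Real.cos_pos_of_mem_Ioo (x := x) ⟨by linarith, by linarith⟩
  have h3 : 0 < c ^ 2 - 1 / 4 - Real.sin x ^ 2 := by linarith
  have s3 := Apx.s3.1
  unfold AD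
  positivity

/-- the level function by its derivative -/
theorem AL_le_AD (hc : 1 ≤ c) (h1 : 0 ≤ x) (h2 : x < Real.pi / 3) {G : ℝ}
    (ha : √(qd c (Real.sin x ^ 2)) * (c ^ 2 - 1 / 4 + Real.sin x ^ 2) +
      5 * √(qd c (Real.sin x ^ 2)) ^ 2 ≤ 3 * G * (c ^ 2 - 1 / 4 - Real.sin x ^ 2) *
        (c ^ 2 - 1 / 4 + Real.sin x ^ 2 + √(qd c (Real.sin x ^ 2)))) :
    AL c x * Real.cos x ≤ G * Real.sin x * AD c x := by
  have hp := Real.pi_pos
  have h0 : -(Real.pi / 3) < x := by linarith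
  have hq := qd_pos hc h0 h2
  have hk := k_ge hc
  have hs : 0 ≤ Real.sin x := Real.sin_nonneg_of_nonneg_of_le_pi h1 (by linarith)
  have hcos := Real.cos_pos_of_mem_Ioo (x := x) ⟨by linarith, by linarith⟩
  have hup := AL_up hc h1 h2
  have hg := Real.sqrt_pos.2 hq
  have hg2 : √(qd c (Real.sin x ^ 2)) ^ 2 = qd c (Real.sin x ^ 2) := Real.sq_sqrt hq.le
  obtain ⟨g, hg'⟩ : ∃ g, g = √(qd c (Real.sin x ^ 2)) := ⟨_, rfl⟩
  unfold AD
  rw [← hg'] at hg ha hup hg2
  rw [← hg2]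
  have hK : 0 < c ^ 2 - 1 / 4 + Real.sin x ^ 2 := by nlinarith [sq_nonneg (Real.sin x)]
  have s3 := Apx.s3.1
  have h3 : 0 ≤ √3 * c * Real.sin x * Real.cos x := by positivity
  obtain ⟨K, hKK⟩ : ∃ K, K = c ^ 2 - 1 / 4 + Real.sin x ^ 2 := ⟨_, rfl⟩
  obtain ⟨D, hDD⟩ : ∃ D, D = c ^ 2 - 1 / 4 - Real.sin x ^ 2 := ⟨_, rfl⟩
  rw [← hKK] at hK ha hup
  rw [← hDD] at ha ⊢
  have e1 : √3 * c * Real.sin x * (K + 5 * g) / (3 * g * (K + g)) * Real.cos x =
      √3 * c * Real.sin x * Real.cos x * ((g * K + 5 * g ^ 2) / (3 * g ^ 2 * (K + g))) := by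
    field_simp
  have e2 : G * Real.sin x * (√3 * c * Real.cos x * D / g ^ 2) =
      √3 * c * Real.sin x * Real.cos x * (3 * G * D * (K + g) / (3 * g ^ 2 * (K + g))) := by
    field_simp
  refine (mul_le_mul_of_nonneg_right hup hcos.le).trans ?_
  rw [e1, e2]
  refine mul_le_mul_of_nonneg_left ?_ h3
  exact div_le_div_of_nonneg_right ha (by positivity)

/-- `sin² (π/3 - ep) ≤ 0.6956` -/
theorem sin_sq_ep (h1 : 0 ≤ x) (h2 : x ≤ Real.pi / 3 - Apx.ep) : Real.sin x ^ 2 ≤ 0.6956 := by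
  have hp := Real.pi_pos
  have he := Apx.ep_pos
  have h3 : Real.sin x ≤ Real.sin (Real.pi / 3 - Apx.ep) :=
    Real.sin_le_sin_of_le_of_le_pi_div_two (by linarith) (by linarith) h2
  have h4 : 0 ≤ Real.sin x := Real.sin_nonneg_of_nonneg_of_le_pi h1 (by linarith)
  have h5 : Real.sin (Real.pi / 3 - Apx.ep) = Real.cos Apx.ep * (√3 / 2 - Apx.tA / 2) := by
    rw [Real.sin_sub, Real.sin_pi_div_three, Real.cos_pi_div_three, Apx.sin_ep]
    ring
  have h6 := Apx.cos_ep_sq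
  have h7 := Apx.s3sq
  have h8 := Apx.s3
  calc Real.sin x ^ 2 ≤ Real.sin (Real.pi / 3 - Apx.ep) ^ 2 := pow_le_pow_left₀ h4 h3 2
    _ = (Real.cos Apx.ep) ^ 2 * (√3 / 2 - Apx.tA / 2) ^ 2 := by rw [h5]; ring
    _ ≤ 0.6956 := by
      rw [h6]
      unfold Apx.tA
      norm_num at h8 ⊢
      nlinarith

/-- `tan (y + ep) ≥ (1 + 2 tan ep) tan y`, `AL` against its derivative -/
theorem AL_tan (hc : 1 ≤ c) (h1 : 0 ≤ x) (h2 : x ≤ Real.pi / 3 - Apx.ep) :
    AL c x * Real.cos (x + Apx.ep) ≤ AD c x * Real.sin (x + Apx.ep) := by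
  have hp := Real.pi_pos
  have he := Apx.ep_pos
  have h3 : x < Real.pi / 3 := by linarith
  have h0 : -(Real.pi / 3) < x := by linarith
  have hq := qd_pos hc h0 h3
  have ha := alg1 (k_ge hc) (sq_nonneg (Real.sin x)) (sin_sq_ep h1 h2)
    (Real.sqrt_nonneg (qd c (Real.sin x ^ 2))) (Real.sq_sqrt hq.le)
  have key := AL_le_AD hc h1 h3 (G := 1.122) (by
    norm_num at ha ⊢
    linarith)
  have hcos := Real.cos_pos_of_mem_Ioo (x := x) ⟨by linarith, by linarith⟩
  have hce := Apx.cos_ep_pos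
  have hAD := AD_pos hc h0 h3
  have hs : 0 ≤ Real.sin x := Real.sin_nonneg_of_nonneg_of_le_pi h1 (by linarith)
  rw [Apx.cos_add_ep, Apx.sin_add_ep]
  have hw : 0 < Real.cos x - Apx.tA * Real.sin x := by
    have : 0 < Real.cos (x + Apx.ep) := Real.cos_pos_of_mem_Ioo ⟨by linarith, by linarith⟩
    rw [Apx.cos_add_ep] at this
    exact pos_of_mul_pos_right this hce.le
  have k1 : 1.122 * Real.sin x * (Real.cos x - Apx.tA * Real.sin x) ≤
      Real.cos x * (Real.sin x + Apx.tA * Real.cos x) := by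
    unfold Apx.tA
    norm_num
    nlinarith [sq_nonneg (Real.cos x - Real.sin x), sq_nonneg (Real.sin x)]
  have k2 : AL c x * Real.cos x * (Real.cos x - Apx.tA * Real.sin x) ≤
      Real.cos x * (AD c x * (Real.sin x + Apx.tA * Real.cos x)) := by
    calc AL c x * Real.cos x * (Real.cos x - Apx.tA * Real.sin x) ≤
        1.122 * Real.sin x * AD c x * (Real.cos x - Apx.tA * Real.sin x) :=
          mul_le_mul_of_nonneg_right key hw.le
      _ = AD c x * (1.122 * Real.sin x * (Real.cos x - Apx.tA * Real.sin x)) := by ring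
      _ ≤ AD c x * (Real.cos x * (Real.sin x + Apx.tA * Real.cos x)) :=
          mul_le_mul_of_nonneg_left k1 hAD.le
      _ = _ := by ring
  have k3 : AL c x * (Real.cos x - Apx.tA * Real.sin x) ≤
      AD c x * (Real.sin x + Apx.tA * Real.cos x) := by
    refine le_of_mul_le_mul_left ?_ hcos
    linarith
  have k4 := mul_le_mul_of_nonneg_left k3 hce.le
  linarith

/-- `AL` against its derivative, `0 ≤ y ≤ π / 6` -/
theorem AL_tan0 (hc : 1 ≤ c) (h1 : 0 ≤ x) (h2 : x ≤ Real.pi / 6) :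
    AL c x * Real.cos x ≤ AD c x * Real.sin x := by
  have hp := Real.pi_pos
  have h3 : x < Real.pi / 3 := by linarith
  have h0 : -(Real.pi / 3) < x := by linarith
  have hq := qd_pos hc h0 h3
  have hs : Real.sin x ≤ 1 / 2 := by
    rw [← Real.sin_pi_div_six]
    exact Real.sin_le_sin_of_le_of_le_pi_div_two (by linarith) (by linarith) h2
  have hs0 : 0 ≤ Real.sin x := Real.sin_nonneg_of_nonneg_of_le_pi h1 (by linarith)
  have ha := alg0 (k_ge hc) (sq_nonneg (Real.sin x)) (by nlinarith)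
    (Real.sqrt_nonneg (qd c (Real.sin x ^ 2))) (Real.sq_sqrt hq.le)
  have key := AL_le_AD hc h1 h3 (G := 1) (by linarith)
  linarith

theorem AL_zero (c : ℝ) : AL c 0 = 0 := by
  unfold AL
  rw [zero_sub, zero_add, La_neg]
  ring

theorem AL_mono (hc : 1 ≤ c) {a b : ℝ} (h1 : -(Real.pi / 3) < a) (h : a ≤ b)
    (h2 : b < Real.pi / 3) : AL c a ≤ AL c b := by
  have hd : ∀ x ∈ Icc a b, HasDerivAt (AL c) (AD c x) x := fun x hx =>
    hasDerivAt_AL hc (by linarith [hx.1]) (by linarith [hx.2])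
  have hm : MonotoneOn (AL c) (Icc a b) := by
    refine monotoneOn_of_deriv_nonneg (convex_Icc a b)
      (fun x hx => (hd x hx).continuousAt.continuousWithinAt)
      (fun x hx => ?_) fun x hx => ?_
    · rw [interior_Icc] at hx
      exact (hd x ⟨hx.1.le, hx.2.le⟩).differentiableAt.differentiableWithinAt
    · rw [interior_Icc] at hx
      rw [(hd x ⟨hx.1.le, hx.2.le⟩).deriv]
      exact (AD_pos hc (by linarith [hx.1]) (by linarith [hx.2])).le
  exact hm ⟨le_rfl, h⟩ ⟨h, le_rfl⟩ h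

theorem AL_nonneg (hc : 1 ≤ c) (h1 : 0 ≤ x) (h2 : x < Real.pi / 3) : 0 ≤ AL c x := by
  have := AL_mono hc (a := 0) (by linarith [Real.pi_pos]) h1 h2
  rwa [AL_zero] at this

theorem AL_nonpos (hc : 1 ≤ c) (h1 : -(Real.pi / 3) < x) (h2 : x ≤ 0) : AL c x ≤ 0 := by
  have := AL_mono hc h1 h2 (by linarith [Real.pi_pos])
  rwa [AL_zero] at this

/-- **`AL (P - ep) / sin P` increases** -/
theorem mono_ep (hc : 1 ≤ c) {P P' : ℝ} (h0 : 0 < P) (h : P ≤ P') (h1 : P' ≤ Real.pi / 3) :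
    AL c (P - Apx.ep) / Real.sin P ≤ AL c (P' - Apx.ep) / Real.sin P' := by
  have hp := Real.pi_pos
  have he := Apx.ep_pos
  have he1 := Apx.ep_lt
  have hs : ∀ x ∈ Icc P P', 0 < Real.sin x := fun x hx =>
    Real.sin_pos_of_pos_of_lt_pi (by linarith [hx.1]) (by linarith [hx.2])
  have hd : ∀ x ∈ Icc P P', HasDerivAt (fun x => AL c (x - Apx.ep) / Real.sin x)
      ((AD c (x - Apx.ep) * Real.sin x - AL c (x - Apx.ep) * Real.cos x) / Real.sin x ^ 2) x := by
    intro x hx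
    have h3 := (hasDerivAt_AL hc (x := x - Apx.ep) (by linarith [hx.1]) (by linarith [hx.2]))
    have h4 := h3.comp_sub_const x Apx.ep
    exact h4.div (Real.hasDerivAt_sin x) (hs x hx).ne'
  have hm : MonotoneOn (fun x => AL c (x - Apx.ep) / Real.sin x) (Icc P P') := by
    refine monotoneOn_of_deriv_nonneg (convex_Icc P P')
      (fun x hx => (hd x hx).continuousAt.continuousWithinAt)
      (fun x hx => ?_) fun x hx => ?_
    · rw [interior_Icc] at hx
      exact (hd x ⟨hx.1.le, hx.2.le⟩).differentiableAt.differentiableWithinAt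
    · rw [interior_Icc] at hx
      rw [(hd x ⟨hx.1.le, hx.2.le⟩).deriv]
      refine div_nonneg ?_ (sq_nonneg _)
      have hx1 := hx.1
      have hx2 := hx.2
      rcases le_total x Apx.ep with h5 | h5
      · have h6 := AL_nonpos hc (x := x - Apx.ep) (by linarith) (by linarith)
        have h7 := AD_pos hc (x := x - Apx.ep) (by linarith) (by linarith)
        have h8 := hs x ⟨hx1.le, hx2.le⟩
        have h9 := Real.cos_pos_of_mem_Ioo (x := x) ⟨by linarith, by linarith⟩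
        have := mul_nonneg (neg_nonneg.2 h6) h9.le
        have := mul_pos h7 h8
        linarith
      · have := AL_tan hc (x := x - Apx.ep) (by linarith) (by linarith)
        rw [sub_add_cancel] at this
        linarith
  exact hm ⟨le_rfl, h⟩ ⟨h, le_rfl⟩ h

/-- **`AL P / sin P` increases** up to `π / 6` -/
theorem mono_0 (hc : 1 ≤ c) {P P' : ℝ} (h0 : 0 < P) (h : P ≤ P') (h1 : P' ≤ Real.pi / 6) :
    AL c P / Real.sin P ≤ AL c P' / Real.sin P' := by
  have hp := Real.pi_pos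
  have hs : ∀ x ∈ Icc P P', 0 < Real.sin x := fun x hx =>
    Real.sin_pos_of_pos_of_lt_pi (by linarith [hx.1]) (by linarith [hx.2])
  have hd : ∀ x ∈ Icc P P', HasDerivAt (fun x => AL c x / Real.sin x)
      ((AD c x * Real.sin x - AL c x * Real.cos x) / Real.sin x ^ 2) x := by
    intro x hx
    have h3 := (hasDerivAt_AL hc (x := x) (by linarith [hx.1]) (by linarith [hx.2]))
    exact h3.div (Real.hasDerivAt_sin x) (hs x hx).ne'
  have hm : MonotoneOn (fun x => AL c x / Real.sin x) (Icc P P') := by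
    refine monotoneOn_of_deriv_nonneg (convex_Icc P P')
      (fun x hx => (hd x hx).continuousAt.continuousWithinAt)
      (fun x hx => ?_) fun x hx => ?_
    · rw [interior_Icc] at hx
      exact (hd x ⟨hx.1.le, hx.2.le⟩).differentiableAt.differentiableWithinAt
    · rw [interior_Icc] at hx
      rw [(hd x ⟨hx.1.le, hx.2.le⟩).deriv]
      refine div_nonneg ?_ (sq_nonneg _)
      have := AL_tan0 hc (x := x) (by linarith [hx.1]) (by linarith [hx.2])
      linarith
  exact hm ⟨le_rfl, h⟩ ⟨h, le_rfl⟩ h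

end al

/-! ### two rows -/

/-- the closed form in the angles -/
theorem pair_up {Q t : ℝ} (h0 : 0 < Q) (h1 : Q ≤ Real.pi / 6) :
    Real.sin Q * AL (ch t) (Real.pi / 3 - Q - Apx.ep) ≤
      Real.sin (Real.pi / 3 - Q) * AL (ch t) (Q + Apx.ep) := by
  have hp := Real.pi_pos
  obtain ⟨y, hy⟩ : ∃ y, y = 1 - 3 * Q / Real.pi := ⟨_, rfl⟩
  have hpy : Real.pi * y = Real.pi - 3 * Q := by
    rw [hy]
    field_simp
  have hy0 : 1 / 2 ≤ y := by nlinarith
  have hy1 : y < 1 := by nlinarith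
  have key := SC_nonneg_of hy0 hy1 v0_pos.le (v0_y hy0) (SC_v0_pos hy0 hy1).le t
  rw [SC_pair, Ag_AL, Ag_AL] at key
  have e1 : wA y = Real.sin Q := by
    unfold wA
    congr 1
    linear_combination (-(1 / 3)) * hpy
  have e2 : wB y = Real.sin (Real.pi / 3 - Q) := by
    unfold wB
    congr 1
    linear_combination (1 / 3) * hpy
  have e3 : 8 / 3 * (v0 - y * l) = -(Real.pi / 3 - Q - Apx.ep) := by
    have : Real.pi = 8 * l := pi_eq_l
    unfold v0
    linear_combination (-(1 / 3)) * hpy + (1 / 3) * y * this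
  have e4 : 8 / 3 * (v0 + (1 - y) * l) = Q + Apx.ep := by
    have : Real.pi = 8 * l := pi_eq_l
    unfold v0
    linear_combination (-(1 / 3)) * hpy - (1 / 3) * (1 - y) * this
  rw [e1, e2, e3, e4] at key
  have e5 : ∀ x, AL (ch t) (-x) = -AL (ch t) x := by
    intro x
    unfold AL
    rw [show -x - Real.pi / 6 = -(x + Real.pi / 6) by ring,
      show -x + Real.pi / 6 = -(x - Real.pi / 6) by ring, La_neg, La_neg]
    ring
  rw [e5] at key
  linarith

/-- the closed form in the angles, offset `0` -/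
theorem pair_lo {Q t : ℝ} (h0 : 0 < Q) (h1 : Q ≤ Real.pi / 6) :
    Real.sin (Real.pi / 3 - Q) * AL (ch t) Q ≤ Real.sin Q * AL (ch t) (Real.pi / 3 - Q) := by
  have hp := Real.pi_pos
  obtain ⟨y, hy⟩ : ∃ y, y = 1 - 3 * Q / Real.pi := ⟨_, rfl⟩
  have hpy : Real.pi * y = Real.pi - 3 * Q := by
    rw [hy]
    field_simp
  have hy0 : 1 / 2 ≤ y := by nlinarith
  have hy1 : y < 1 := by nlinarith
  have key := SC_zero_nonpos hy0 hy1 t
  rw [SC_pair, Ag_AL, Ag_AL] at key
  have e1 : wA y = Real.sin Q := by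
    unfold wA
    congr 1
    linear_combination (-(1 / 3)) * hpy
  have e2 : wB y = Real.sin (Real.pi / 3 - Q) := by
    unfold wB
    congr 1
    linear_combination (1 / 3) * hpy
  have e3 : 8 / 3 * (0 - y * l) = -(Real.pi / 3 - Q) := by
    have : Real.pi = 8 * l := pi_eq_l
    linear_combination (-(1 / 3)) * hpy + (1 / 3) * y * this
  have e4 : 8 / 3 * (0 + (1 - y) * l) = Q := by
    have : Real.pi = 8 * l := pi_eq_l
    linear_combination (-(1 / 3)) * hpy - (1 / 3) * (1 - y) * this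
  rw [e1, e2, e3, e4] at key
  have e5 : ∀ x, AL (ch t) (-x) = -AL (ch t) x := by
    intro x
    unfold AL
    rw [show -x - Real.pi / 6 = -(x + Real.pi / 6) by ring,
      show -x + Real.pi / 6 = -(x - Real.pi / 6) by ring, La_neg, La_neg]
    ring
  rw [e5] at key
  linarith

/-- **two rows, the offset `v0`** -/
theorem two_up {P Q : ℝ} (t : ℝ) (h0 : 0 < Q) (h1 : Q ≤ P) (h2 : P + Q ≤ Real.pi / 3) :
    Real.sin Q * AL (ch t) (P - Apx.ep) ≤ Real.sin P * AL (ch t) (Q + Apx.ep) := by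
  have hp := Real.pi_pos
  have k1 := mono_ep (one_le_ch t) (P := P) (P' := Real.pi / 3 - Q) (by linarith) (by linarith)
    (by linarith)
  have k2 := pair_up (t := t) h0 (by linarith)
  have sP : 0 < Real.sin P := Real.sin_pos_of_pos_of_lt_pi (by linarith) (by linarith)
  have sQ : 0 < Real.sin Q := Real.sin_pos_of_pos_of_lt_pi h0 (by linarith)
  have sP' : 0 < Real.sin (Real.pi / 3 - Q) :=
    Real.sin_pos_of_pos_of_lt_pi (by linarith) (by linarith)
  have k3 : AL (ch t) (Real.pi / 3 - Q - Apx.ep) / Real.sin (Real.pi / 3 - Q) ≤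
      AL (ch t) (Q + Apx.ep) / Real.sin Q := by
    rw [div_le_div_iff₀ sP' sQ]
    linarith
  have k4 := k1.trans k3
  rw [div_le_div_iff₀ sP sQ] at k4
  linarith

/-- **two rows, the offset `0`** -/
theorem two_lo {P Q : ℝ} (t : ℝ) (h0 : 0 < Q) (h1 : Q ≤ P) (h2 : P + Q ≤ Real.pi / 3) :
    Real.sin P * AL (ch t) Q ≤ Real.sin Q * AL (ch t) P := by
  have hp := Real.pi_pos
  have hc := one_le_ch t
  have sP : 0 < Real.sin P := Real.sin_pos_of_pos_of_lt_pi (by linarith) (by linarith)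
  have sQ : 0 < Real.sin Q := Real.sin_pos_of_pos_of_lt_pi h0 (by linarith)
  rcases le_total P (Real.pi / 6) with h3 | h3
  · have k := mono_0 hc h0 h1 h3
    rw [div_le_div_iff₀ sQ sP] at k
    linarith
  · have hQ' : Q ≤ Real.pi / 3 - P := by linarith
    rcases eq_or_lt_of_le (show (0 : ℝ) ≤ Real.pi / 3 - P by linarith) with h4 | h4
    · linarith
    have k := mono_0 hc h0 hQ' (by linarith)
    have k2 := pair_lo (t := t) h4 (by linarith)
    rw [show Real.pi / 3 - (Real.pi / 3 - P) = P by ring] at k2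
    have sQ' : 0 < Real.sin (Real.pi / 3 - P) :=
      Real.sin_pos_of_pos_of_lt_pi h4 (by linarith)
    have k3 : AL (ch t) (Real.pi / 3 - P) / Real.sin (Real.pi / 3 - P) ≤
        AL (ch t) P / Real.sin P := by
      rw [div_le_div_iff₀ sQ' sP]
      linarith
    have k4 := k.trans k3
    rw [div_le_div_iff₀ sQ sP] at k4
    linarith

/-! ### the curve of two rows -/

/-- **balanced content of two places**: `a` rows at `- p l`, `b` rows at `q l` -/
structure Bal2 (a b p q : ℝ) : Prop where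
  q0 : 0 ≤ q
  qp : q ≤ p
  pq : p + q ≤ 1
  p1 : p < 1
  a0 : 0 ≤ a
  b0 : 0 < b
  bal : a * Real.sin (Real.pi * p / 3) = b * Real.sin (Real.pi * q / 3)

/-- weights -/
def mT (a b : ℝ) : Fin 2 → ℝ := ![a, b]

/-- places -/
def xT (p q : ℝ) : Fin 2 → ℝ := ![-(p * l), q * l]

theorem SC_two (a b p q v t : ℝ) : SC (mT a b) (xT p q) v t =
    a * Ag (v - p * l) t + b * Ag (v + q * l) t := by
  unfold SC mT xT
  rw [Fin.sum_univ_two]
  simp only [Matrix.cons_val_zero, Matrix.cons_val_one]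
  rw [← sub_eq_add_neg]

theorem mem_Dm2 {p q v : ℝ} : v ∈ Dm (xT p q) ↔ |v - p * l| < l ∧ |v + q * l| < l := by
  show (∀ i, |v + xT p q i| < l) ↔ _
  rw [Fin.forall_fin_two]
  show |v + -(p * l)| < l ∧ |v + q * l| < l ↔ _
  rw [← sub_eq_add_neg]

section bal

variable {a b p q : ℝ}

theorem Bal2.mem (h : Bal2 a b p q) {v : ℝ} (h1 : 0 ≤ v) (h2 : v < (1 - q) * l) :
    v ∈ Dm (xT p q) := by
  have hl := l_pos'
  have hp1 := h.p1
  have hq0 := h.q0
  have hqp := h.qp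
  have hpq := h.pq
  have e0 : 0 < (1 - p) * l := mul_pos (by linarith) hl
  have e1 : 0 ≤ q * l := by positivity
  have e2 : q * l ≤ p * l := mul_le_mul_of_nonneg_right hqp hl.le
  rw [mem_Dm2, abs_lt, abs_lt]
  refine ⟨⟨?_, ?_⟩, ?_, ?_⟩ <;> nlinarith

theorem Bal2.v0_lt (h : Bal2 a b p q) : v0 < (1 - q) * l := by
  have hl := l_pos'
  have h1 := PLT.v0_lt
  have h2 : q ≤ 1 / 2 := by linarith [h.qp, h.pq]
  nlinarith

theorem AL_neg (c x : ℝ) : AL c (-x) = -AL c x := by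
  unfold AL
  rw [show -x - Real.pi / 6 = -(x + Real.pi / 6) by ring,
    show -x + Real.pi / 6 = -(x - Real.pi / 6) by ring, La_neg, La_neg]
  ring

theorem ang_eq (v p : ℝ) : 8 / 3 * (v - p * l) = -(Real.pi * p / 3 - 8 / 3 * v) := by
  rw [pi_eq_l]
  ring

theorem ang_eq' (v q : ℝ) : 8 / 3 * (v + q * l) = Real.pi * q / 3 + 8 / 3 * v := by
  rw [pi_eq_l]
  ring

/-- the level function at the offset `0` -/
theorem Bal2.lo (h : Bal2 a b p q) (t : ℝ) : a * Ag (0 - p * l) t + b * Ag (0 + q * l) t ≤ 0 := by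
  have hp := Real.pi_pos
  rcases h.q0.eq_or_lt with h0 | h0
  · have hb := h.bal
    rw [← h0, mul_zero, zero_div, Real.sin_zero, mul_zero] at hb
    rcases (h.q0.trans h.qp).eq_or_lt with h1 | h1
    · rw [← h0, ← h1, zero_mul, sub_zero, add_zero, Ag_zero]
      linarith
    · have hs : 0 < Real.sin (Real.pi * p / 3) :=
        Real.sin_pos_of_pos_of_lt_pi (by positivity) (by nlinarith [h.p1])
      have ha : a = 0 := by
        rcases mul_eq_zero.1 hb with h2 | h2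
        · exact h2
        · exact absurd h2 hs.ne'
      rw [ha, ← h0, zero_mul, zero_mul, add_zero, Ag_zero]
      linarith
  · have hP : 0 < Real.pi * p / 3 := by
      have := h.qp
      have : 0 < p := by linarith
      positivity
    have hQ : 0 < Real.pi * q / 3 := by positivity
    have hs : 0 < Real.sin (Real.pi * p / 3) :=
      Real.sin_pos_of_pos_of_lt_pi hP (by nlinarith [h.p1])
    have key := two_lo (P := Real.pi * p / 3) (Q := Real.pi * q / 3) t hQ
      (by nlinarith [h.qp]) (by nlinarith [h.pq])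
    rw [Ag_AL, Ag_AL, ang_eq, ang_eq', mul_zero, sub_zero, add_zero, AL_neg]
    have h2 : (a * -AL (ch t) (Real.pi * p / 3) + b * AL (ch t) (Real.pi * q / 3)) *
        Real.sin (Real.pi * p / 3) = b * (Real.sin (Real.pi * p / 3) * AL (ch t) (Real.pi * q / 3) -
          Real.sin (Real.pi * q / 3) * AL (ch t) (Real.pi * p / 3)) := by
      linear_combination (-AL (ch t) (Real.pi * p / 3)) * h.bal
    have h3 : (a * -AL (ch t) (Real.pi * p / 3) + b * AL (ch t) (Real.pi * q / 3)) *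
        Real.sin (Real.pi * p / 3) ≤ 0 := by
      rw [h2]
      exact mul_nonpos_of_nonneg_of_nonpos h.b0.le (by linarith)
    exact nonpos_of_mul_nonpos_left h3 hs

/-- the level function at the offset `v0` -/
theorem Bal2.up (h : Bal2 a b p q) (t : ℝ) : 0 ≤ a * Ag (v0 - p * l) t + b * Ag (v0 + q * l) t := by
  have hp := Real.pi_pos
  have hl := l_pos'
  have hc := one_le_ch t
  have he : 8 / 3 * v0 = Apx.ep := by
    unfold v0
    ring
  have he0 := Apx.ep_pos
  have he1 := Apx.ep_lt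
  have hq2 : q ≤ 1 / 2 := by linarith [h.qp, h.pq]
  have hAq : 0 ≤ AL (ch t) (Real.pi * q / 3 + Apx.ep) := by
    refine AL_nonneg hc ?_ ?_
    · have := mul_nonneg hp.le h.q0
      linarith
    · nlinarith
  rw [Ag_AL, Ag_AL, ang_eq, ang_eq', AL_neg, he]
  rcases h.q0.eq_or_lt with h0 | h0
  · have hb := h.bal
    rw [← h0, mul_zero, zero_div, Real.sin_zero, mul_zero] at hb
    rcases (h.q0.trans h.qp).eq_or_lt with h1 | h1
    · have h3 : AL (ch t) (Real.pi * p / 3 - Apx.ep) ≤ 0 := by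
        rw [← h1]
        exact AL_nonpos hc (by linarith) (by linarith)
      have h4 := mul_nonneg h.a0 (neg_nonneg.2 h3)
      have h5 := mul_nonneg h.b0.le hAq
      linarith
    · have hs : 0 < Real.sin (Real.pi * p / 3) :=
        Real.sin_pos_of_pos_of_lt_pi (by positivity) (by nlinarith [h.p1])
      have ha : a = 0 := by
        rcases mul_eq_zero.1 hb with h2 | h2
        · exact h2
        · exact absurd h2 hs.ne'
      have h5 := mul_nonneg h.b0.le hAq
      rw [ha, zero_mul]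
      linarith
  · have hP : 0 < Real.pi * p / 3 := by
      have := h.qp
      have : 0 < p := by linarith
      positivity
    have hQ : 0 < Real.pi * q / 3 := by positivity
    have hs : 0 < Real.sin (Real.pi * p / 3) :=
      Real.sin_pos_of_pos_of_lt_pi hP (by nlinarith [h.p1])
    have key := two_up (P := Real.pi * p / 3) (Q := Real.pi * q / 3) t hQ
      (by nlinarith [h.qp]) (by nlinarith [h.pq])
    have h2 : (a * -AL (ch t) (Real.pi * p / 3 - Apx.ep) +
        b * AL (ch t) (Real.pi * q / 3 + Apx.ep)) * Real.sin (Real.pi * p / 3) =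
        b * (Real.sin (Real.pi * p / 3) * AL (ch t) (Real.pi * q / 3 + Apx.ep) -
          Real.sin (Real.pi * q / 3) * AL (ch t) (Real.pi * p / 3 - Apx.ep)) := by
      linear_combination (-AL (ch t) (Real.pi * p / 3 - Apx.ep)) * h.bal
    have h3 : 0 ≤ (a * -AL (ch t) (Real.pi * p / 3 - Apx.ep) +
        b * AL (ch t) (Real.pi * q / 3 + Apx.ep)) * Real.sin (Real.pi * p / 3) := by
      rw [h2]
      exact mul_nonneg h.b0.le (by linarith)
    exact nonneg_of_mul_nonneg_left h3 hs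

/-- **existence of the curve of two rows** -/
theorem Bal2.exists_curve2 (h : Bal2 a b p q) (t : ℝ) :
    ∃ v ∈ Icc 0 v0, a * Ag (v - p * l) t + b * Ag (v + q * l) t = 0 := by
  have h1 := h.lo t
  have h2 := h.up t
  have hc : ContinuousOn (fun v => a * Ag (v - p * l) t + b * Ag (v + q * l) t) (Icc 0 v0) := by
    intro v hv
    obtain ⟨k1, k2⟩ := mem_Dm2.1 (h.mem hv.1 (hv.2.trans_lt h.v0_lt))
    have d1 := (hasDerivAt_Ag_v k1 t).comp_sub_const v (p * l)
    have d2 := (hasDerivAt_Ag_v k2 t).comp_add_const v (q * l)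
    exact ((d1.const_mul a).add (d2.const_mul b)).continuousAt.continuousWithinAt
  obtain ⟨v, hv, h3⟩ := intermediate_value_Icc v0_pos.le hc ⟨h1, h2⟩
  exact ⟨v, hv, h3⟩

theorem Bal2.wt (h : Bal2 a b p q) : Wt (mT a b) := by
  refine ⟨fun i => ?_, 1, h.b0⟩
  fin_cases i
  · exact h.a0
  · exact h.b0.le

theorem Bal2.mem' (h : Bal2 a b p q) {v : ℝ} (hv : v ∈ Icc 0 v0) : v ∈ Dm (xT p q) :=
  h.mem hv.1 (hv.2.trans_lt h.v0_lt)

/-- **the level curve exists** -/
theorem Bal2.lev (h : Bal2 a b p q) : Lev (mT a b) (xT p q) := fun t => by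
  obtain ⟨v, hv, h1⟩ := h.exists_curve2 t
  exact ⟨v, h.mem' hv, by rw [SC_two]; exact h1⟩

/-- **the curve of two rows** -/
def eta2 (a b p q t : ℝ) : ℝ := eta (mT a b) (xT p q) t

theorem Bal2.eta_mem (h : Bal2 a b p q) (t : ℝ) : eta2 a b p q t ∈ Icc 0 v0 := by
  obtain ⟨v, hv, h1⟩ := h.exists_curve2 t
  have := eta_unique h.wt h.lev (h.mem' hv) (by rw [SC_two]; exact h1)
  unfold eta2
  rw [this]
  exact hv

theorem Bal2.eta_lt (h : Bal2 a b p q) (t : ℝ) : eta2 a b p q t < 3 / 50 * l :=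
  (h.eta_mem t).2.trans_lt PLT.v0_lt

theorem Bal2.eta_eq (h : Bal2 a b p q) (t : ℝ) :
    a * Ag (eta2 a b p q t - p * l) t + b * Ag (eta2 a b p q t + q * l) t = 0 := by
  have := PLT.eta_eq h.lev t
  rwa [SC_two] at this

theorem Bal2.eta_unique (h : Bal2 a b p q) {t v : ℝ} (hv : v ∈ Icc 0 v0)
    (h0 : a * Ag (v - p * l) t + b * Ag (v + q * l) t = 0) : eta2 a b p q t = v :=
  PLT.eta_unique h.wt h.lev (h.mem' hv) (by rw [SC_two]; exact h0)

theorem Bal2.contDiff (h : Bal2 a b p q) : ContDiff ℝ ⊤ (eta2 a b p q) :=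
  contDiff_eta h.wt h.lev

end bal

end PLT

end
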