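import Pool.Agent.PLT.CurveB3
import Pool.Agent.PLT.Two

/-!
# The static curve of all balanced two place contents, uniformly

Rows at `-p l` and `q l`, weights `a`, `b`, `a sin (π p / 3) = b sin (π q / 3)`, `0 ≤ q ≤ p ≤ 1 - de`, `p + q ≤ 1`.
Parameters `r = p + q`, `x = p / (p + q)`: the weights `sin (π r (1 - x) / 3) / r`, `sin (π r x / 3) / r` are entire.

* `Bal2 de a b p q`: the conditions; `Hex2`: existence of the level curve in the window `[0, 3/50 l]`;
* **`iter2`**: the curve is analytic, all derivatives decay, with one `Ce` for all of them; **`hex2`**: `Hex2` holds.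
-/

set_option autoImplicit false

noncomputable section

open Filter Topology Set NUMF
open scoped ContDiff

namespace PLT.CA

/-- `sin z / z` -/
def gs : ℂ → ℂ := dslope Complex.sin 0

/-- `sin y / y` -/
def gr (y : ℝ) : ℝ := if y = 0 then 1 else Real.sin y / y

theorem mul_gs (z : ℂ) : z * gs z = Complex.sin z := by
  have := sub_smul_dslope Complex.sin 0 z
  rw [Complex.sin_zero, sub_zero, sub_zero, smul_eq_mul] at this
  exact this

theorem gs_ofReal (y : ℝ) : gs y = (gr y : ℂ) := by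
  unfold gr
  split_ifs with h
  · rw [h, Complex.ofReal_zero]
    unfold gs
    rw [dslope_same, (Complex.hasDerivAt_sin 0).deriv, Complex.cos_zero, Complex.ofReal_one]
  · have h1 := mul_gs y
    have h2 : (y : ℂ) ≠ 0 := by exact_mod_cast h
    rw [Complex.ofReal_div, Complex.ofReal_sin, eq_div_iff h2, mul_comm]
    exact h1

theorem analyticAt_gs (z : ℂ) : AnalyticAt ℂ gs z := by
  have h1 : DifferentiableOn ℂ gs univ :=
    (Complex.differentiableOn_dslope univ_mem).2 Complex.differentiable_sin.differentiableOn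
  exact h1.analyticAt univ_mem

theorem gr_le {y : ℝ} (h0 : 0 ≤ y) : gr y ≤ 1 := by
  unfold gr
  split_ifs with h
  · exact le_rfl
  · have hy : 0 < y := lt_of_le_of_ne h0 (Ne.symm h)
    rw [div_le_one hy]
    exact Real.sin_le h0

theorem gr_ge {y : ℝ} (h0 : 0 ≤ y) (h1 : y ≤ Real.pi / 2) : 2 / Real.pi ≤ gr y := by
  have hpi := Real.pi_gt_three
  unfold gr
  split_ifs with h
  · rw [div_le_one (by linarith)]
    linarith
  · have hy : 0 < y := lt_of_le_of_ne h0 (Ne.symm h)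
    rw [le_div_iff₀ hy]
    exact Real.mul_le_sin h0 h1

/-- weight factor -/
def sS (r u : ℂ) : ℂ := Real.pi * u / 3 * gs (Real.pi * (r * u) / 3)

theorem mul_sS (r u : ℂ) : r * sS r u = Complex.sin (Real.pi * (r * u) / 3) := by
  rw [← mul_gs]
  unfold sS
  ring

theorem analyticAt_sS {E : Type*} [NormedAddCommGroup E] [NormedSpace ℂ E] {f g : E → ℂ} {e : E}
    (hf : AnalyticAt ℂ f e) (hg : AnalyticAt ℂ g e) : AnalyticAt ℂ (fun e => sS (f e) (g e)) e := by
  unfold sS
  refine ((analyticAt_const.mul hg).div_const).mul ?_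
  exact (analyticAt_gs _).comp_of_eq ((analyticAt_const.mul (hf.mul hg)).div_const) rfl

/-- the real weight -/
def sR (r u : ℝ) : ℝ := Real.pi * u / 3 * gr (Real.pi * (r * u) / 3)

theorem sS_ofReal (r u : ℝ) : sS r u = (sR r u : ℂ) := by
  unfold sS sR
  have e : (Real.pi : ℂ) * ((r : ℂ) * u) / 3 = ((Real.pi * (r * u) / 3 : ℝ) : ℂ) := by push_cast; rfl
  rw [e, gs_ofReal]
  push_cast
  rfl

/-- weights and angles as functions of `(r, x)` -/
def aR (e : ℂ × ℂ) : ℂ := sS e.1 (1 - e.2)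

/-- weight of the row on the right -/
def bR (e : ℂ × ℂ) : ℂ := sS e.1 e.2

/-- angle of the row on the left -/
def pR (e : ℂ × ℂ) : ℂ := Real.pi * (e.1 * e.2) / 3

/-- angle of the row on the right -/
def qR (e : ℂ × ℂ) : ℂ := Real.pi * (e.1 * (1 - e.2)) / 3

/-- the parameters -/
def KR (de : ℝ) : Set (ℂ × ℂ) := (fun q : ℝ × ℝ => (((q.1 : ℂ), (q.2 : ℂ)) : ℂ × ℂ)) ''
  ((Icc (0 : ℝ) 1 ×ˢ Icc (1 / 2 : ℝ) 1) ∩ {q | q.1 * q.2 ≤ 1 - de})

theorem isCompact_KR (de : ℝ) : IsCompact (KR de) := by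
  refine ((isCompact_Icc.prod isCompact_Icc).inter_right ?_).image (by fun_prop)
  exact isClosed_le (by fun_prop) continuous_const

theorem goodR (de : ℝ) : GoodC (KR de) de aR bR pR qR where
  an_a e _ := analyticAt_sS analyticAt_fst (analyticAt_const.sub analyticAt_snd)
  an_b e _ := analyticAt_sS analyticAt_fst analyticAt_snd
  an_p e _ := (analyticAt_const.mul (analyticAt_fst.mul analyticAt_snd)).div_const
  an_q e _ := (analyticAt_const.mul
    (analyticAt_fst.mul (analyticAt_const.sub analyticAt_snd))).div_const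
  bal e := by
    have h1 : Complex.sin (pR e) = e.1 * bR e := (mul_sS _ _).symm
    have h2 : Complex.sin (qR e) = e.1 * aR e := (mul_sS _ _).symm
    rw [h1, h2]
    ring
  real := by
    have hpi := Real.pi_gt_three
    have hpi2 := Real.pi_lt_d2
    rintro e ⟨⟨r, x⟩, ⟨⟨⟨r0, r1⟩, ⟨x0, x1⟩⟩, hrx⟩, rfl⟩
    simp only at r0 r1 x0 x1
    have hrx' : r * x ≤ 1 - de := hrx
    have hg : ∀ u : ℝ, 0 ≤ u → u ≤ 1 → 2 / Real.pi ≤ gr (Real.pi * (r * u) / 3) ∧
        gr (Real.pi * (r * u) / 3) ≤ 1 := by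
      intro u u0 u1
      have hru : 0 ≤ r * u := mul_nonneg r0 u0
      have hru1 : r * u ≤ 1 := by nlinarith
      have g0 : 0 ≤ Real.pi * (r * u) / 3 := by positivity
      have g1 : Real.pi * (r * u) / 3 ≤ Real.pi / 2 := by nlinarith
      exact ⟨gr_ge g0 g1, gr_le g0⟩
    have ga := hg (1 - x) (by linarith) (by linarith)
    have gb := hg x (by linarith) x1
    have hpp : 0 < 2 / Real.pi := by positivity
    refine ⟨sR r (1 - x), sR r x, Real.pi * (r * x) / 3, Real.pi * (r * (1 - x)) / 3, ?_, ?_, ?_, ?_,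
      ?_, ?_, ?_, ?_, ?_, ?_, ?_, ?_, ?_⟩
    · show sS (r : ℂ) (1 - (x : ℂ)) = _
      rw [← sS_ofReal]
      push_cast
      rfl
    · exact sS_ofReal r x
    · show (Real.pi : ℂ) * ((r : ℂ) * x) / 3 = _
      push_cast
      rfl
    · show (Real.pi : ℂ) * ((r : ℂ) * (1 - x)) / 3 = _
      push_cast
      rfl
    · unfold sR
      have : 0 ≤ Real.pi * (1 - x) / 3 := by
        have : 0 ≤ 1 - x := by linarith
        positivity
      exact mul_nonneg this (hpp.le.trans ga.1)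
    · unfold sR
      exact mul_nonneg (by positivity) (hpp.le.trans gb.1)
    · unfold sR
      have h1 : 0 ≤ Real.pi * (1 - x) / 3 * gr (Real.pi * (r * (1 - x)) / 3) := by
        have : 0 ≤ Real.pi * (1 - x) / 3 := by
          have : 0 ≤ 1 - x := by linarith
          positivity
        exact mul_nonneg this (hpp.le.trans ga.1)
      have h2 : Real.pi * x / 3 * (2 / Real.pi) ≤ Real.pi * x / 3 * gr (Real.pi * (r * x) / 3) :=
        mul_le_mul_of_nonneg_left gb.1 (by positivity)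
      have h3 : Real.pi * x / 3 * (2 / Real.pi) = 2 * x / 3 := by
        field_simp
      linarith
    · unfold sR
      have h2 : Real.pi * (1 - x) / 3 * gr (Real.pi * (r * (1 - x)) / 3) ≤
          Real.pi * (1 - x) / 3 * 1 := by
        refine mul_le_mul_of_nonneg_left ga.2 ?_
        have : 0 ≤ 1 - x := by linarith
        positivity
      nlinarith
    · unfold sR
      have h2 : Real.pi * x / 3 * gr (Real.pi * (r * x) / 3) ≤ Real.pi * x / 3 * 1 :=
        mul_le_mul_of_nonneg_left gb.2 (by positivity)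
      nlinarith
    · have : 0 ≤ r * x := mul_nonneg r0 (by linarith)
      positivity
    · nlinarith
    · have : 0 ≤ r * (1 - x) := mul_nonneg r0 (by linarith)
      positivity
    · have : r * (1 - x) ≤ 1 / 2 := by nlinarith
      nlinarith

/-- balanced two place contents -/
structure Bal2 (de a b p q : ℝ) : Prop where
  a0 : 0 ≤ a
  b0 : 0 ≤ b
  sum : a + b = 1
  q0 : 0 ≤ q
  qp : q ≤ p
  pq : p + q ≤ 1
  pde : p ≤ 1 - de
  bal : a * Real.sin (Real.pi * p / 3) = b * Real.sin (Real.pi * q / 3)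

/-- existence of the curve in its window -/
def Hex2 : Prop := ∀ a b p q : ℝ, 0 ≤ a → 0 < b → 0 ≤ q → q ≤ p → p + q ≤ 1 → p < 1 →
  a * Real.sin (Real.pi * p / 3) = b * Real.sin (Real.pi * q / 3) →
  ∀ t, ∃ v ∈ Icc (0 : ℝ) (3 / 50 * l), a * Ag (v - p * l) t + b * Ag (v + q * l) t = 0

theorem sR_pos {r x : ℝ} (r0 : 0 ≤ r) (r1 : r ≤ 1) (x0 : 1 / 2 ≤ x) (x1 : x ≤ 1) : 0 < sR r x := by
  have hpi := Real.pi_gt_three
  have hrx : 0 ≤ r * x := by positivity
  have hrx1 : r * x ≤ 1 := by nlinarith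
  have h1 := gr_ge (y := Real.pi * (r * x) / 3) (by positivity) (by nlinarith)
  have h2 : 0 < 2 / Real.pi := by positivity
  unfold sR
  exact mul_pos (by positivity) (h2.trans_le h1)

theorem sR_nonneg {r x : ℝ} (r0 : 0 ≤ r) (r1 : r ≤ 1) (x0 : 0 ≤ x) (x1 : x ≤ 1) : 0 ≤ sR r x := by
  have hpi := Real.pi_gt_three
  have hrx : 0 ≤ r * x := by positivity
  have hrx1 : r * x ≤ 1 := by nlinarith
  have h1 := gr_ge (y := Real.pi * (r * x) / 3) (by positivity) (by nlinarith)
  have h2 : 0 < 2 / Real.pi := by positivity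
  unfold sR
  exact mul_nonneg (by positivity) (h2.trans_le h1).le

theorem mul_sR (r u : ℝ) : r * sR r u = Real.sin (Real.pi * (r * u) / 3) := by
  have h := mul_sS r u
  rw [sS_ofReal] at h
  have e : (Real.pi : ℂ) * ((r : ℂ) * u) / 3 = ((Real.pi * (r * u) / 3 : ℝ) : ℂ) := by push_cast; rfl
  rw [e, ← Complex.ofReal_sin] at h
  exact_mod_cast h

theorem hexR (hex : Hex2) {de : ℝ} (d0 : 0 < de) (d1 : de ≤ 1 / 2) :
    ∀ e ∈ KR de, ∀ P : ℝ, 0 < P → P ≤ 1 → ∃ w ∈ Dw de, GF aR bR pR qR ((e, (P : ℂ)), w) = 0 := by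
  rintro e ⟨⟨r, x⟩, ⟨⟨⟨r0, r1⟩, ⟨x0, x1⟩⟩, hrx⟩, rfl⟩ P P0 P1
  simp only at r0 r1 x0 x1
  have hrx' : r * x ≤ 1 - de := hrx
  obtain ⟨t, ht⟩ := exists_ch (c := 1 / P) (by rwa [le_div_iff₀ P0, one_mul])
  have hb : 0 < sR r x := sR_pos r0 r1 x0 x1
  have ha : 0 ≤ sR r (1 - x) := sR_nonneg r0 r1 (by linarith) (by linarith)
  obtain ⟨v, hv, h0⟩ := hex (sR r (1 - x)) (sR r x) (r * x) (r * (1 - x)) ha hb
    (mul_nonneg r0 (by linarith)) (by nlinarith) (by nlinarith) (by linarith) (by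
      rw [← mul_sR, ← mul_sR]
      ring) t
  refine ⟨_, mem_Dw d0 d1 hv, ?_⟩
  have h1 := GF_eq_zero (a := aR) (b := bR) (p := pR) (q := qR) d0 d1 (e := ((r : ℂ), (x : ℂ)))
    (a0 := sR r (1 - x)) (b0 := sR r x) (p0 := r * x) (q0 := r * (1 - x)) (by
      show sS (r : ℂ) (1 - (x : ℂ)) = _
      rw [← sS_ofReal]
      push_cast
      rfl) (sS_ofReal r x) (by
      show (Real.pi : ℂ) * ((r : ℂ) * x) / 3 = _
      push_cast
      rfl) (by
      show (Real.pi : ℂ) * ((r : ℂ) * (1 - x)) / 3 = _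
      push_cast
      rfl) (mul_nonneg r0 (by linarith)) hrx' (mul_nonneg r0 (by linarith)) (by nlinarith) hv t h0
  rw [ht, one_div_one_div] at h1
  exact h1

/-- the parameters of a balanced content -/
theorem Bal2.param {de a b p q : ℝ} (h : Bal2 de a b p q) : ∃ r x : ℝ, 0 ≤ r ∧ r ≤ 1 ∧ 1 / 2 ≤ x ∧
    x ≤ 1 ∧ r * x = p ∧ r * (1 - x) = q ∧
    ∀ v t, a * Ag (v - p * l) t + b * Ag (v + q * l) t = 0 →
      LevT (sR r (1 - x)) (sR r x) p q v t = 0 := by
  rcases eq_or_lt_of_le (add_nonneg (h.q0.trans h.qp) h.q0) with h0 | h0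
  · have hp : p = 0 := by
      have := h.q0
      have := h.qp
      linarith
    have hq : q = 0 := by
      have := h.q0
      have := h.qp
      linarith
    refine ⟨0, 1 / 2, le_rfl, zero_le_one, le_rfl, by norm_num, by rw [hp]; ring, by rw [hq]; ring, ?_⟩
    intro v t hv
    unfold LevT
    rw [hp, hq] at hv ⊢
    simp only [zero_mul, sub_zero, add_zero] at hv ⊢
    rw [← add_mul, h.sum, one_mul] at hv
    rw [hv]
    ring
  · have hr0 : p + q ≠ 0 := h0.ne'
    refine ⟨p + q, p / (p + q), h0.le, h.pq, ?_, ?_, ?_, ?_, ?_⟩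
    · rw [div_le_div_iff₀ (by norm_num) h0]
      linarith [h.qp]
    · rw [div_le_one h0]
      linarith [h.q0]
    · field_simp
    · field_simp
      ring
    · intro v t hv
      have e1 : (p + q) * (p / (p + q)) = p := by field_simp
      have e2 : (p + q) * (1 - p / (p + q)) = q := by
        field_simp
        ring
      have m1 := mul_sR (p + q) (p / (p + q))
      have m2 := mul_sR (p + q) (1 - p / (p + q))
      rw [e1] at m1
      rw [e2] at m2
      obtain ⟨A, hA⟩ : ∃ A, A = sR (p + q) (1 - p / (p + q)) := ⟨_, rfl⟩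
      obtain ⟨B, hB⟩ : ∃ B, B = sR (p + q) (p / (p + q)) := ⟨_, rfl⟩
      rw [← hB] at m1
      rw [← hA] at m2
      have hb := h.bal
      rw [← m1, ← m2] at hb
      have hk : a * B = b * A := mul_left_cancel₀ hr0 (by linear_combination hb)
      have hA2 : A = a * (A + B) := by
        linear_combination (-A) * h.sum - hk
      have hB2 : B = b * (A + B) := by
        linear_combination (-B) * h.sum + hk
      unfold LevT
      rw [← hA, ← hB, hA2.trans rfl]
      have : a * (A + B) * Ag (v - p * l) t + B * Ag (v + q * l) t = (A + B) *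
          (a * Ag (v - p * l) t + b * Ag (v + q * l) t) := by
        linear_combination Ag (v + q * l) t * hB2
      rw [this, hv, mul_zero]

/-- **derivative bounds of the curve of all balanced two place contents** -/
theorem iter2 (hex : Hex2) {de : ℝ} (d0 : 0 < de) (d1 : de ≤ 1 / 2) :
    ∃ Ce : ℕ → ℝ, (∀ n, 0 ≤ Ce n) ∧ ∀ a b p q : ℝ, Bal2 de a b p q → ∀ η : ℝ → ℝ,
      (∀ t, η t ∈ Icc (0 : ℝ) (3 / 50 * l) ∧ a * Ag (η t - p * l) t + b * Ag (η t + q * l) t = 0) →
      ContDiff ℝ ω η ∧ ∀ n t, |iteratedDeriv n η t| ≤ Ce n * Real.exp (-(32 / 3) * |t|) := by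
  obtain ⟨δ, hδ, hδ1, C, hC, F, hF1, hF2, hF3⟩ := exists_Eg (isCompact_KR de) d0 d1 (goodR de)
    (hexR hex d0 d1)
  refine ⟨fun n => n.factorial * Real.exp 16 / (δ / 4) ^ n * C, fun n => by positivity, ?_⟩
  intro a b p q hb η hη
  obtain ⟨r, x, r0, r1, x0, x1, hp, hq, hl⟩ := hb.param
  have he : (((r : ℂ), (x : ℂ)) : ℂ × ℂ) ∈ KR de :=
    ⟨(r, x), ⟨⟨⟨r0, r1⟩, ⟨x0, x1⟩⟩, by
      show r * x ≤ 1 - de
      rw [hp]
      exact hb.pde⟩, rfl⟩
  have hs : ∀ z : ℂ, |z.im| < δ → AnalyticAt ℂ (F ((r : ℂ), (x : ℂ))) z ∧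
      ‖F ((r : ℂ), (x : ℂ)) z‖ ≤ C * Real.exp (-(32 / 3) * |z.re|) := by
    intro z hz
    obtain ⟨h1, h2⟩ := hF1 ((r : ℂ), (x : ℂ)) z ⟨_, he, by simpa using hδ⟩ hz
    exact ⟨h1.comp_of_eq (f := fun z : ℂ => ((((r : ℂ), (x : ℂ)), z) : (ℂ × ℂ) × ℂ))
      (analyticAt_const.prod analyticAt_id) rfl, h2⟩
  have hval : η = fun t : ℝ => (F ((r : ℂ), (x : ℂ)) t).re := by
    funext t
    have h0 := hl _ _ (hη t).2
    have h1 := GF_eq_zero (a := aR) (b := bR) (p := pR) (q := qR) d0 d1 (e := ((r : ℂ), (x : ℂ)))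
      (a0 := sR r (1 - x)) (b0 := sR r x) (p0 := p) (q0 := q) (by
        show sS (r : ℂ) (1 - (x : ℂ)) = _
        rw [← sS_ofReal]
        push_cast
        rfl) (sS_ofReal r x) (by
        show (Real.pi : ℂ) * ((r : ℂ) * x) / 3 = _
        rw [← hp]
        push_cast
        rfl) (by
        show (Real.pi : ℂ) * ((r : ℂ) * (1 - x)) / 3 = _
        rw [← hq]
        push_cast
        rfl) (hb.q0.trans hb.qp) hb.pde hb.q0 (by linarith [hb.qp, hb.pq]) (hη t).1 t h0
    rw [hF3 _ he t (η t) (hη t).1 h1, Complex.ofReal_re]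
  have hr : ∀ t : ℝ, AnalyticAt ℂ (F ((r : ℂ), (x : ℂ))) t := fun t => (hs t (by simpa using hδ)).1
  constructor
  · rw [hval]
    exact contDiff_ofReal hr
  · intro n t
    rw [hval, iter_ofReal hr]
    refine (Complex.abs_re_le_norm _).trans ?_
    have := norm_iter_le hδ (by linarith) hC hs n (z := (t : ℂ)) (by simp; positivity)
    simpa using this

/-- **the level curve exists in its window** -/
theorem hex2 : Hex2 := by
  intro a b p q ha hb hq hqp hpq hp hbal t
  obtain ⟨v, hv, h⟩ := (⟨hq, hqp, hpq, hp, ha, hb, hbal⟩ : PLT.Bal2 a b p q).exists_curve2 t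
  exact ⟨v, ⟨hv.1, hv.2.trans PLT.v0_lt.le⟩, h⟩

end PLT.CA

end
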