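import Pool.Agent.PLT.CurveA3

/-!
# The static curve of a balanced pair of rows: two parameters

Rows at the angles `-p`, `q` with weights `a`, `b`, all analytic functions of a parameter `e`, balanced:
`a sin p = b sin q`. `w` the angle of the offset, `P = 1 / ch t`.

* `GF a b p q ((e, P), w)`: level function divided by `P`; `GoodC`: the conditions on a compact set of parameters;
* **`exists_Vg`**: the zero is an analytic function near the compact set, `O (P⁴)`.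
-/

set_option autoImplicit false
set_option linter.unusedSectionVars false

noncomputable section

open Filter Topology Set NUMF
open scoped ContDiff

namespace PLT.CA

variable {E : Type*} [NormedAddCommGroup E] [NormedSpace ℂ E]

/-- one term -/
def HG (u : E → ℂ) (φ : ℝ) (z : (E × ℂ) × ℂ) : ℂ := Th z.1.2 (Complex.sin (z.2 + u z.1.1 + φ))

/-- the level function of the pair, divided by `P` -/
def GF (a b p q : E → ℂ) (z : (E × ℂ) × ℂ) : ℂ :=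
  a z.1.1 * (HG (-p) (-(Real.pi / 6)) z + HG (-p) (Real.pi / 6) z) +
    b z.1.1 * (HG q (-(Real.pi / 6)) z + HG q (Real.pi / 6) z)

theorem mul_GF (a b p q : E → ℂ) (e : E) (P w : ℂ) : P * GF a b p q ((e, P), w) =
    a e * (Lc (P * Complex.sin (w + -p e + ((-(Real.pi / 6) : ℝ) : ℂ))) +
      Lc (P * Complex.sin (w + -p e + ((Real.pi / 6 : ℝ) : ℂ)))) +
    b e * (Lc (P * Complex.sin (w + q e + ((-(Real.pi / 6) : ℝ) : ℂ))) +
      Lc (P * Complex.sin (w + q e + ((Real.pi / 6 : ℝ) : ℂ)))) := by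
  simp only [← mul_Th]
  unfold GF HG
  simp only [Pi.neg_apply]
  ring

theorem analyticAt_HG {u : E → ℂ} {φ : ℝ} {z : (E × ℂ) × ℂ} (hu : AnalyticAt ℂ u z.1.1)
    (h : ‖z.1.2 * Complex.sin (z.2 + u z.1.1 + φ)‖ < 1) : AnalyticAt ℂ (HG u φ) z := by
  have c1 : AnalyticAt ℂ (fun z : (E × ℂ) × ℂ => z.1.1) z :=
    analyticAt_fst.comp_of_eq analyticAt_fst rfl
  have a2 : AnalyticAt ℂ (fun z : (E × ℂ) × ℂ => Complex.sin (z.2 + u z.1.1 + φ)) z := by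
    have b1 : AnalyticAt ℂ (fun z : (E × ℂ) × ℂ => z.2 + u z.1.1 + φ) z :=
      (analyticAt_snd.add (hu.comp_of_eq c1 rfl)).add analyticAt_const
    exact Complex.analyticAt_sin.comp_of_eq b1 rfl
  have a1 : AnalyticAt ℂ (fun z : (E × ℂ) × ℂ => z.1.2) z :=
    analyticAt_snd.comp_of_eq analyticAt_fst rfl
  exact AnalyticAt.comp_of_eq (g := fun q : ℂ × ℂ => Th q.1 q.2)
    (analyticAt_Th (q := (z.1.2, Complex.sin (z.2 + u z.1.1 + φ))) h) (a1.prod a2) rfl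

theorem analyticAt_GF {a b p q : E → ℂ} {z : (E × ℂ) × ℂ} (ha : AnalyticAt ℂ a z.1.1)
    (hb : AnalyticAt ℂ b z.1.1) (hp : AnalyticAt ℂ p z.1.1) (hq : AnalyticAt ℂ q z.1.1)
    (h : ∀ φ ∈ ({-(Real.pi / 6), Real.pi / 6} : Set ℝ),
      ‖z.1.2 * Complex.sin (z.2 + -p z.1.1 + φ)‖ < 1 ∧
      ‖z.1.2 * Complex.sin (z.2 + q z.1.1 + φ)‖ < 1) : AnalyticAt ℂ (GF a b p q) z := by
  have c1 : AnalyticAt ℂ (fun z : (E × ℂ) × ℂ => z.1.1) z :=
    analyticAt_fst.comp_of_eq analyticAt_fst rfl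
  have h1 := (h (-(Real.pi / 6)) (by simp))
  have h2 := (h (Real.pi / 6) (by simp))
  exact ((ha.comp_of_eq c1 rfl).mul ((analyticAt_HG hp.neg h1.1).add (analyticAt_HG hp.neg h2.1))).add
    ((hb.comp_of_eq c1 rfl).mul ((analyticAt_HG hq h1.2).add (analyticAt_HG hq h2.2)))

/-- the derivative of one term -/
def DG (P β : ℂ) : ℂ := Complex.cos β / (1 - (P * Complex.sin β) ^ 2)

theorem hasDerivAt_HG {u : E → ℂ} {φ : ℝ} {e : E} {P w : ℂ}
    (h : ‖P * Complex.sin (w + u e + φ)‖ < 1) :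
    HasDerivAt (fun w => HG u φ ((e, P), w)) (DG P (w + u e + φ)) w := by
  have e2 : (fun w => HG u φ ((e, P), w)) = fun w => Th P (Complex.sin (w + (u e + φ))) := by
    funext w
    unfold HG
    simp only
    congr 2
    ring
  rw [add_assoc] at h ⊢
  rw [e2]
  exact hasDerivAt_Th_sin _ h

theorem hasDerivAt_GF {a b p q : E → ℂ} {e : E} {P w : ℂ}
    (h : ∀ φ ∈ ({-(Real.pi / 6), Real.pi / 6} : Set ℝ),
      ‖P * Complex.sin (w + -p e + φ)‖ < 1 ∧ ‖P * Complex.sin (w + q e + φ)‖ < 1) :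
    HasDerivAt (fun w => GF a b p q ((e, P), w))
      (a e * (DG P (w + -p e + ((-(Real.pi / 6) : ℝ) : ℂ)) + DG P (w + -p e + ((Real.pi / 6 : ℝ) : ℂ))) +
        b e * (DG P (w + q e + ((-(Real.pi / 6) : ℝ) : ℂ)) + DG P (w + q e + ((Real.pi / 6 : ℝ) : ℂ)))) w := by
  have h1 := h (-(Real.pi / 6)) (by simp)
  have h2 := h (Real.pi / 6) (by simp)
  exact (((hasDerivAt_HG (u := -p) h1.1).add (hasDerivAt_HG (u := -p) h2.1)).const_mul (a e)).add
    (((hasDerivAt_HG h1.2).add (hasDerivAt_HG h2.2)).const_mul (b e))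

/-- admissible families of contents over a compact set of parameters -/
structure GoodC (K : Set E) (de : ℝ) (a b p q : E → ℂ) : Prop where
  an_a : ∀ e ∈ K, AnalyticAt ℂ a e
  an_b : ∀ e ∈ K, AnalyticAt ℂ b e
  an_p : ∀ e ∈ K, AnalyticAt ℂ p e
  an_q : ∀ e ∈ K, AnalyticAt ℂ q e
  bal : ∀ e, a e * Complex.sin (p e) = b e * Complex.sin (q e)
  real : ∀ e ∈ K, ∃ a0 b0 p0 q0 : ℝ, a e = a0 ∧ b e = b0 ∧ p e = p0 ∧ q e = q0 ∧ 0 ≤ a0 ∧ 0 ≤ b0 ∧
    1 / 3 ≤ a0 + b0 ∧ a0 < 2 ∧ b0 < 2 ∧ 0 ≤ p0 ∧ p0 ≤ Real.pi / 3 - Real.pi * de / 3 ∧ 0 ≤ q0 ∧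
    q0 ≤ Real.pi / 6

/-- every angle of the window is admissible -/
theorem be_win {de : ℝ} (d0 : 0 < de) (d1 : de ≤ 1 / 2) {w : ℂ} (hw : w ∈ closure (Dw de)) {u φ : ℝ}
    (hφ : φ ∈ ({-(Real.pi / 6), Real.pi / 6} : Set ℝ)) (hu1 : -(Real.pi / 3 - Real.pi * de / 3) ≤ u)
    (hu2 : u ≤ Real.pi / 6) : Be (Real.sin (Real.pi * de / 6)) (w + u + φ) := by
  have hpi := Real.pi_pos
  obtain ⟨s, hs⟩ : ∃ s, s = Real.sin (Real.pi * de / 6) := ⟨_, rfl⟩
  have hs0 : 0 < s := by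
    rw [hs]
    exact Real.sin_pos_of_pos_of_lt_pi (by positivity) (by nlinarith)
  have hk0 : 0 < kap s := Real.arsinh_pos_iff.2 (by positivity)
  unfold Dw at hw
  rw [← hs, Complex.closure_reProdIm, closure_Ioo (by nlinarith), closure_Ioo (by linarith),
    Complex.mem_reProdIm] at hw
  obtain ⟨⟨w1, w2⟩, ⟨w3, w4⟩⟩ := hw
  have hre : (w + u + φ).re = w.re + u + φ := by simp
  have him : (w + u + φ).im = w.im := by simp
  have hφ1 : -(Real.pi / 6) ≤ φ ∧ φ ≤ Real.pi / 6 := by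
    rcases hφ with h | h
    · rw [h]
      constructor <;> linarith
    · rw [mem_singleton_iff.1 h]
      constructor <;> linarith
  constructor
  · rw [hre, ← hs]
    have k1 : |w.re + u + φ| ≤ Real.pi / 2 - Real.pi * de / 6 := by
      rw [abs_le]
      constructor <;> nlinarith [hφ1.1, hφ1.2]
    have k2 : Real.cos (Real.pi / 2 - Real.pi * de / 6) ≤ Real.cos |w.re + u + φ| :=
      Real.cos_le_cos_of_nonneg_of_le_pi (abs_nonneg _) (by nlinarith) k1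
    rw [Real.cos_abs, Real.cos_pi_div_two_sub, ← hs] at k2
    exact k2
  · rw [him, ← hs]
    have k3 : Real.sinh (kap s) = s / 2 := Real.sinh_arsinh _
    rw [abs_le]
    constructor
    · have := Real.sinh_le_sinh.2 w3
      rw [Real.sinh_neg, k3] at this
      exact this
    · have := Real.sinh_le_sinh.2 w4
      rw [k3] at this
      exact this

theorem re_GF {K : Set E} {de : ℝ} {a b p q : E → ℂ} (G : GoodC K de a b p q) {e : E} (he : e ∈ K)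
    {P s : ℝ} {w : ℂ} (p0 : 0 ≤ P) (p1 : P ≤ 1) (hs : 0 < s) (hs1 : s ≤ 1)
    (h : ∀ φ ∈ ({-(Real.pi / 6), Real.pi / 6} : Set ℝ), Be s (w + -p e + φ) ∧ Be s (w + q e + φ)) :
    s / 10 < (fderiv ℂ (GF a b p q) ((e, (P : ℂ)), w) (0, 1)).re := by
  have hl : ∀ φ ∈ ({-(Real.pi / 6), Real.pi / 6} : Set ℝ),
      ‖(P : ℂ) * Complex.sin (w + -p e + φ)‖ < 1 ∧ ‖(P : ℂ) * Complex.sin (w + q e + φ)‖ < 1 :=
    fun φ hφ => ⟨(h φ hφ).1.mul_lt hs p0 p1, (h φ hφ).2.mul_lt hs p0 p1⟩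
  have hA := analyticAt_GF (a := a) (b := b) (p := p) (q := q) (z := ((e, (P : ℂ)), w)) (G.an_a e he)
    (G.an_b e he) (G.an_p e he) (G.an_q e he) hl
  obtain ⟨a0, b0, p0', q0', ea, eb, -, -, ha, hb, hab, -⟩ := G.real e he
  rw [(hasDerivAt_section hA.differentiableAt).unique (hasDerivAt_GF hl), ea, eb]
  have k1 := (h (-(Real.pi / 6)) (by simp)).1.re_deriv hs hs1 p0 p1
  have k2 := (h (Real.pi / 6) (by simp)).1.re_deriv hs hs1 p0 p1
  have k3 := (h (-(Real.pi / 6)) (by simp)).2.re_deriv hs hs1 p0 p1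
  have k4 := (h (Real.pi / 6) (by simp)).2.re_deriv hs hs1 p0 p1
  unfold DG
  rw [Complex.add_re, Complex.re_ofReal_mul, Complex.re_ofReal_mul, Complex.add_re, Complex.add_re]
  have m1 := mul_le_mul_of_nonneg_left (add_le_add k1 k2) ha
  have m2 := mul_le_mul_of_nonneg_left (add_le_add k3 k4) hb
  have m3 : (1 / 3 : ℝ) * (s / 5 + s / 5) ≤ (a0 + b0) * (s / 5 + s / 5) :=
    mul_le_mul_of_nonneg_right hab (by positivity)
  have m4 : (a0 + b0) * (s / 5 + s / 5) = a0 * (s / 5 + s / 5) + b0 * (s / 5 + s / 5) := by ring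
  linarith

/-- the level function at the offset 0 is the fifth order remainder -/
theorem mul_GF_zero {a b p q : E → ℂ} {e : E} (hbal : a e * Complex.sin (p e) = b e * Complex.sin (q e))
    (P : ℂ) : P * GF a b p q ((e, P), 0) =
    a e * (R5 (P * Complex.sin (0 + -p e + ((-(Real.pi / 6) : ℝ) : ℂ))) +
      R5 (P * Complex.sin (0 + -p e + ((Real.pi / 6 : ℝ) : ℂ)))) +
    b e * (R5 (P * Complex.sin (0 + q e + ((-(Real.pi / 6) : ℝ) : ℂ))) +
      R5 (P * Complex.sin (0 + q e + ((Real.pi / 6 : ℝ) : ℂ)))) ∧ GF a b p q ((e, 0), 0) = 0 := by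
  have e1 : ∀ x : ℂ, Lc x = R5 x + x + x ^ 3 / 3 := fun x => by
    unfold R5
    ring
  have s := sin_pi_six
  obtain ⟨c, hc⟩ : ∃ c, c = Complex.cos (Real.pi / 6) := ⟨_, rfl⟩
  have hcc : c ^ 2 = 3 / 4 := by
    rw [hc]
    exact cos_pi_six_sq
  have f1 : Complex.sin (0 + -p e + ((-(Real.pi / 6) : ℝ) : ℂ)) =
      -(Complex.sin (p e) * c) - Complex.cos (p e) / 2 := by
    have e0 : (0 : ℂ) + -p e + ((-(Real.pi / 6) : ℝ) : ℂ) = -(p e + Real.pi / 6) := by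
      push_cast
      ring
    rw [e0, Complex.sin_neg, Complex.sin_add, s, ← hc]
    ring
  have f2 : Complex.sin (0 + -p e + ((Real.pi / 6 : ℝ) : ℂ)) =
      -(Complex.sin (p e) * c) + Complex.cos (p e) / 2 := by
    have e0 : (0 : ℂ) + -p e + ((Real.pi / 6 : ℝ) : ℂ) = -(p e - Real.pi / 6) := by
      push_cast
      ring
    rw [e0, Complex.sin_neg, Complex.sin_sub, s, ← hc]
    ring
  have f3 : Complex.sin (0 + q e + ((-(Real.pi / 6) : ℝ) : ℂ)) =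
      Complex.sin (q e) * c - Complex.cos (q e) / 2 := by
    have e0 : (0 : ℂ) + q e + ((-(Real.pi / 6) : ℝ) : ℂ) = q e - Real.pi / 6 := by
      push_cast
      ring
    rw [e0, Complex.sin_sub, s, ← hc]
    ring
  have f4 : Complex.sin (0 + q e + ((Real.pi / 6 : ℝ) : ℂ)) =
      Complex.sin (q e) * c + Complex.cos (q e) / 2 := by
    have e0 : (0 : ℂ) + q e + ((Real.pi / 6 : ℝ) : ℂ) = q e + Real.pi / 6 := by
      push_cast
      ring
    rw [e0, Complex.sin_add, s, ← hc]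
    ring
  obtain ⟨S, hS⟩ : ∃ S, S = Complex.sin (p e) := ⟨_, rfl⟩
  obtain ⟨C, hC⟩ : ∃ C, C = Complex.cos (p e) := ⟨_, rfl⟩
  obtain ⟨T, hT⟩ : ∃ T, T = Complex.sin (q e) := ⟨_, rfl⟩
  obtain ⟨D, hD⟩ : ∃ D, D = Complex.cos (q e) := ⟨_, rfl⟩
  have hSC : S ^ 2 + C ^ 2 = 1 := by
    rw [hS, hC]
    exact Complex.sin_sq_add_cos_sq _
  have hTD : T ^ 2 + D ^ 2 = 1 := by
    rw [hT, hD]
    exact Complex.sin_sq_add_cos_sq _
  obtain ⟨x, hx⟩ : ∃ x, x = a e := ⟨_, rfl⟩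
  obtain ⟨y, hy⟩ : ∃ y, y = b e := ⟨_, rfl⟩
  rw [← hS, ← hT, ← hx, ← hy] at hbal
  rw [← hS, ← hC] at f1 f2
  rw [← hT, ← hD] at f3 f4
  have k0 : x * ((-(S * c) - C / 2) + (-(S * c) + C / 2)) +
      y * ((T * c - D / 2) + (T * c + D / 2)) = 0 := by
    linear_combination (-2 * c) * hbal
  have k1 : x * ((-(S * c) - C / 2) ^ 3 + (-(S * c) + C / 2) ^ 3) +
      y * ((T * c - D / 2) ^ 3 + (T * c + D / 2) ^ 3) = 0 := by
    have g1 : (-(S * c) - C / 2) ^ 3 + (-(S * c) + C / 2) ^ 3 = -(3 / 2) * c * S := by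
      linear_combination (-2 * S ^ 3 * c) * hcc - (3 / 2 * c * S) * hSC
    have g2 : (T * c - D / 2) ^ 3 + (T * c + D / 2) ^ 3 = 3 / 2 * c * T := by
      linear_combination (2 * T ^ 3 * c) * hcc + (3 / 2 * c * T) * hTD
    rw [g1, g2]
    linear_combination (-3 / 2 * c) * hbal
  constructor
  · rw [mul_GF, e1, e1, e1, e1, f1, f2, f3, f4, ← hx, ← hy]
    linear_combination P * k0 + P ^ 3 / 3 * k1
  · unfold GF HG
    simp only [Th_zero, Pi.neg_apply]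
    rw [f1, f2, f3, f4, ← hx, ← hy]
    exact k0

theorem norm_R5_two {P σ : ℂ} {s : ℝ} (hs : 0 < s) (hσ : ‖σ‖ ≤ 2)
    (h : ‖P * σ‖ ^ 2 ≤ 1 - s ^ 2) : ‖R5 (P * σ)‖ ≤ 32 / s ^ 2 * ‖P‖ ^ 5 := by
  have h1 : ‖P * σ‖ < 1 := by
    have : ‖P * σ‖ ^ 2 < 1 := by nlinarith
    nlinarith [norm_nonneg (P * σ)]
  refine (norm_R5 h1).trans ?_
  have h2 : ‖P * σ‖ ^ 5 ≤ ‖P‖ ^ 5 * 32 := by
    rw [norm_mul, mul_pow]
    refine mul_le_mul_of_nonneg_left ?_ (by positivity)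
    refine (pow_le_pow_left₀ (norm_nonneg _) hσ 5).trans (le_of_eq ?_)
    norm_num
  have h3 : s ^ 2 ≤ 1 - ‖P * σ‖ ^ 2 := by linarith
  calc ‖P * σ‖ ^ 5 / (1 - ‖P * σ‖ ^ 2) ≤ ‖P‖ ^ 5 * 32 / s ^ 2 :=
        div_le_div₀ (by positivity) h2 (by positivity) h3
    _ = _ := by ring

theorem norm_GF_zero {a b p q : E → ℂ} {e : E} {P : ℂ} {s : ℝ}
    (hbal : a e * Complex.sin (p e) = b e * Complex.sin (q e)) (hs : 0 < s) (ha : ‖a e‖ ≤ 2)
    (hb : ‖b e‖ ≤ 2)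
    (hσ : ∀ φ ∈ ({-(Real.pi / 6), Real.pi / 6} : Set ℝ), ‖Complex.sin (0 + -p e + φ)‖ ≤ 2 ∧
      ‖Complex.sin (0 + q e + φ)‖ ≤ 2)
    (h : ∀ φ ∈ ({-(Real.pi / 6), Real.pi / 6} : Set ℝ), ‖P * Complex.sin (0 + -p e + φ)‖ ^ 2 ≤ 1 - s ^ 2 ∧
      ‖P * Complex.sin (0 + q e + φ)‖ ^ 2 ≤ 1 - s ^ 2) :
    ‖GF a b p q ((e, P), 0)‖ ≤ 256 / s ^ 2 * ‖P‖ ^ 4 := by
  obtain ⟨h1, h2⟩ := mul_GF_zero hbal P
  rcases eq_or_ne P 0 with h0 | h0
  · rw [h0, h2, norm_zero]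
    positivity
  obtain ⟨R, hR⟩ : ∃ R, R = 32 / s ^ 2 * ‖P‖ ^ 5 := ⟨_, rfl⟩
  have hR0 : 0 ≤ R := by
    rw [hR]
    positivity
  have r1 := norm_R5_two hs (hσ (-(Real.pi / 6)) (by simp)).1 (h (-(Real.pi / 6)) (by simp)).1
  have r2 := norm_R5_two hs (hσ (Real.pi / 6) (by simp)).1 (h (Real.pi / 6) (by simp)).1
  have r3 := norm_R5_two hs (hσ (-(Real.pi / 6)) (by simp)).2 (h (-(Real.pi / 6)) (by simp)).2
  have r4 := norm_R5_two hs (hσ (Real.pi / 6) (by simp)).2 (h (Real.pi / 6) (by simp)).2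
  rw [← hR] at r1 r2 r3 r4
  have key : ‖P * GF a b p q ((e, P), 0)‖ ≤ 8 * R := by
    rw [h1]
    refine (norm_add_le _ _).trans ?_
    rw [norm_mul, norm_mul]
    have t1 := mul_le_mul ha ((norm_add_le _ _).trans (add_le_add r1 r2)) (norm_nonneg _) zero_le_two
    have t2 := mul_le_mul hb ((norm_add_le _ _).trans (add_le_add r3 r4)) (norm_nonneg _) zero_le_two
    linarith
  have hp : 0 < ‖P‖ := norm_pos_iff.2 h0
  rw [norm_mul] at key
  have key2 : ‖P‖ * ‖GF a b p q ((e, P), 0)‖ ≤ ‖P‖ * (256 / s ^ 2 * ‖P‖ ^ 4) := by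
    refine key.trans (le_of_eq ?_)
    rw [hR]
    ring
  exact le_of_mul_le_mul_left key2 hp

end PLT.CA

end
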