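import Pool.Agent.PLT.CurveB1

/-!
# The static curve over a compact family of contents
-/

set_option autoImplicit false
set_option linter.unusedSectionVars false

noncomputable section

open Filter Topology Set NUMF
open scoped ContDiff

namespace PLT.CA

variable {E : Type*} [NormedAddCommGroup E] [NormedSpace ℂ E]

/-- parameters and heights -/
def Kg (K : Set E) : Set (E × ℂ) := K ×ˢ ((fun x : ℝ => (x : ℂ)) '' Icc 0 1)

theorem isCompact_Kg {K : Set E} (hK : IsCompact K) : IsCompact (Kg K) :=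
  hK.prod (isCompact_Icc.image Complex.continuous_ofReal)

/-- **the curve over a compact family of contents** -/
theorem exists_Vg [CompleteSpace E] {K : Set E} {de : ℝ} {a b p q : E → ℂ} (hK : IsCompact K)
    (d0 : 0 < de) (d1 : de ≤ 1 / 2) (G : GoodC K de a b p q)
    (hex : ∀ e ∈ K, ∀ P : ℝ, 0 < P → P ≤ 1 → ∃ w ∈ Dw de, GF a b p q ((e, (P : ℂ)), w) = 0) :
    ∃ ε > 0, ∃ C, 0 ≤ C ∧ ∃ V : E × ℂ → ℂ, ∀ x : E × ℂ,
      (∃ k ∈ Kg K, dist x k < ε) → AnalyticAt ℂ V x ∧ GF a b p q (x, V x) = 0 ∧ V x ∈ Dw de ∧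
        ‖V x‖ ≤ C * ‖x.2‖ ^ 4 ∧ ∀ w ∈ Dw de, GF a b p q (x, w) = 0 → w = V x := by
  have hpi := Real.pi_pos
  obtain ⟨s, hs⟩ : ∃ s, s = Real.sin (Real.pi * de / 6) := ⟨_, rfl⟩
  have hs0 : 0 < s := by
    rw [hs]
    exact Real.sin_pos_of_pos_of_lt_pi (by positivity) (by nlinarith)
  have hs1 : s ≤ 1 := by
    rw [hs]
    exact Real.sin_le_one _
  have hk0 : 0 < kap s := Real.arsinh_pos_iff.2 (by positivity)
  have hKg : ∀ k ∈ Kg K, ∃ e ∈ K, ∃ P : ℝ, 0 ≤ P ∧ P ≤ 1 ∧ k = (e, (P : ℂ)) := by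
    rintro ⟨e, P'⟩ ⟨he, ⟨P, hP, hPe⟩⟩
    refine ⟨e, he, P, hP.1, hP.2, ?_⟩
    simp only at hPe
    rw [← hPe]
  have hbe : ∀ e ∈ K, ∀ w ∈ closure (Dw de), ∀ φ ∈ ({-(Real.pi / 6), Real.pi / 6} : Set ℝ),
      Be s (w + -p e + φ) ∧ Be s (w + q e + φ) := by
    intro e he w hw φ hφ
    obtain ⟨a0, b0, p0, q0, -, -, ep, eq, -, -, -, -, -, hp0, hp1, hq0, hq1⟩ := G.real e he
    have hde : 0 < Real.pi * de / 3 := by positivity
    have hde2 : Real.pi * de / 3 ≤ Real.pi / 6 := by nlinarith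
    rw [hs]
    constructor
    · have h1 := be_win d0 d1 hw hφ (u := -p0) (by linarith) (by linarith)
      rw [ep]
      have e1 : w + ((-p0 : ℝ) : ℂ) = w + -(p0 : ℂ) := by push_cast; ring
      rw [e1] at h1
      exact h1
    · have h1 := be_win d0 d1 hw hφ (u := q0) (by linarith) (by linarith)
      rw [eq]
      exact h1
  have hz := zero_mem_Dw d0 d1
  obtain ⟨U, hUo, hKU, V, hV, hVn⟩ := implicitC (F := GF a b p q) (K := Kg K) (D := Dw de)
    (c := s / 10) (isCompact_Kg hK) (by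
      unfold Dw
      exact isOpen_Ioo.reProdIm isOpen_Ioo)
    (by
      unfold Dw
      exact ((convex_Ioo _ _).linear_preimage Complex.reLm).inter
        ((convex_Ioo _ _).linear_preimage Complex.imLm))
    (by
      unfold Dw
      rw [← hs, Complex.closure_reProdIm, closure_Ioo (by nlinarith), closure_Ioo (by linarith)]
      exact isCompact_Icc.reProdIm isCompact_Icc)
    (by positivity)
    (by
      intro k hk v hv
      obtain ⟨e, he, P, p0, p1, rfl⟩ := hKg k hk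
      exact analyticAt_GF (G.an_a e he) (G.an_b e he) (G.an_p e he) (G.an_q e he) fun φ hφ =>
        ⟨(hbe e he v hv φ hφ).1.mul_lt hs0 p0 p1, (hbe e he v hv φ hφ).2.mul_lt hs0 p0 p1⟩)
    (by
      intro k hk v hv
      obtain ⟨e, he, P, p0, p1, rfl⟩ := hKg k hk
      exact re_GF G he p0 p1 hs0 hs1 (hbe e he v hv))
    (by
      intro k hk
      obtain ⟨e, he, P, p0, p1, rfl⟩ := hKg k hk
      rcases eq_or_lt_of_le p0 with h | h
      · refine ⟨0, hz, ?_⟩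
        rw [← h, Complex.ofReal_zero]
        exact (mul_GF_zero (G.bal e) 0).2
      · exact hex e he P h p1)
  have hev : ∀ k ∈ Kg K, ∀ᶠ x in 𝓝 k, x ∈ U ∧ ‖a x.1‖ ≤ 2 ∧ ‖b x.1‖ ≤ 2 ∧
      ∀ φ ∈ ({-(Real.pi / 6), Real.pi / 6} : Set ℝ),
        (‖Complex.sin (0 + -p x.1 + φ)‖ ≤ 2 ∧ ‖Complex.sin (0 + q x.1 + φ)‖ ≤ 2) ∧
        (‖x.2 * Complex.sin (0 + -p x.1 + φ)‖ ^ 2 ≤ 1 - (s / 2) ^ 2 ∧
        ‖x.2 * Complex.sin (0 + q x.1 + φ)‖ ^ 2 ≤ 1 - (s / 2) ^ 2) := by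
    intro k hk
    have hkU := hKU hk
    obtain ⟨e, he, P, p0, p1, rfl⟩ := hKg k hk
    obtain ⟨a0, b0, p0', q0', ea, eb, -, -, ha, hb, -, ha2, hb2, -, -, -, -⟩ := G.real e he
    have ca : ContinuousAt (fun x : E × ℂ => a x.1) (e, (P : ℂ)) :=
      ContinuousAt.comp (g := a) (G.an_a e he).continuousAt continuousAt_fst
    have cb : ContinuousAt (fun x : E × ℂ => b x.1) (e, (P : ℂ)) :=
      ContinuousAt.comp (g := b) (G.an_b e he).continuousAt continuousAt_fst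
    have cp : ContinuousAt (fun x : E × ℂ => p x.1) (e, (P : ℂ)) :=
      ContinuousAt.comp (g := p) (G.an_p e he).continuousAt continuousAt_fst
    have cq : ContinuousAt (fun x : E × ℂ => q x.1) (e, (P : ℂ)) :=
      ContinuousAt.comp (g := q) (G.an_q e he).continuousAt continuousAt_fst
    have c1 : ∀ φ : ℝ, ContinuousAt (fun x : E × ℂ => Complex.sin (0 + -p x.1 + φ)) (e, (P : ℂ)) :=
      fun φ => Complex.continuous_sin.continuousAt.comp
        ((continuousAt_const.add cp.neg).add continuousAt_const)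
    have c2 : ∀ φ : ℝ, ContinuousAt (fun x : E × ℂ => Complex.sin (0 + q x.1 + φ)) (e, (P : ℂ)) :=
      fun φ => Complex.continuous_sin.continuousAt.comp
        ((continuousAt_const.add cq).add continuousAt_const)
    have na : ‖a e‖ < 2 := by
      rw [ea, Complex.norm_real, Real.norm_eq_abs, abs_of_nonneg ha]
      exact ha2
    have nb : ‖b e‖ < 2 := by
      rw [eb, Complex.norm_real, Real.norm_eq_abs, abs_of_nonneg hb]
      exact hb2
    have v1 := ca.norm.eventually_lt continuousAt_const na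
    have v2 := cb.norm.eventually_lt continuousAt_const nb
    have hsin : ∀ β : ℂ, Be s β → ‖Complex.sin β‖ < 2 ∧ ‖(P : ℂ) * Complex.sin β‖ ^ 2 <
        1 - (s / 2) ^ 2 := by
      intro β hβ
      have h1 := hβ.norm_sin_lt hs0
      have h2 := hβ.normSq_sin hs0
      refine ⟨by linarith, ?_⟩
      rw [norm_mul, Complex.norm_real, Real.norm_eq_abs, abs_of_nonneg p0, mul_pow]
      have h3 : P ^ 2 ≤ 1 := by nlinarith
      have h4 : P ^ 2 * ‖Complex.sin β‖ ^ 2 ≤ 1 * ‖Complex.sin β‖ ^ 2 :=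
        mul_le_mul_of_nonneg_right h3 (by positivity)
      nlinarith
    have v3 : ∀ φ ∈ ({-(Real.pi / 6), Real.pi / 6} : Set ℝ), ∀ᶠ x : E × ℂ in 𝓝 (e, (P : ℂ)),
        (‖Complex.sin (0 + -p x.1 + φ)‖ ≤ 2 ∧ ‖Complex.sin (0 + q x.1 + φ)‖ ≤ 2) ∧
        (‖x.2 * Complex.sin (0 + -p x.1 + φ)‖ ^ 2 ≤ 1 - (s / 2) ^ 2 ∧
        ‖x.2 * Complex.sin (0 + q x.1 + φ)‖ ^ 2 ≤ 1 - (s / 2) ^ 2) := by
      intro φ hφ
      have g := hbe e he 0 (subset_closure hz) φ hφ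
      have g1 := hsin _ g.1
      have g2 := hsin _ g.2
      have w1 := (c1 φ).norm.eventually_lt continuousAt_const g1.1
      have w2 := (c2 φ).norm.eventually_lt continuousAt_const g2.1
      have w3 := ((continuousAt_snd.mul (c1 φ)).norm.pow 2).eventually_lt continuousAt_const g1.2
      have w4 := ((continuousAt_snd.mul (c2 φ)).norm.pow 2).eventually_lt continuousAt_const g2.2
      filter_upwards [w1, w2, w3, w4] with x x1 x2 x3 x4
      exact ⟨⟨x1.le, x2.le⟩, x3.le, x4.le⟩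
    have v4 := v3 (-(Real.pi / 6)) (by simp)
    have v5 := v3 (Real.pi / 6) (by simp)
    filter_upwards [hUo.mem_nhds hkU, v1, v2, v4, v5] with x x1 x2 x3 x4 x5
    refine ⟨x1, x2.le, x3.le, fun φ hφ => ?_⟩
    rcases hφ with h | h
    · rw [h]
      exact x4
    · rw [mem_singleton_iff.1 h]
      exact x5
  obtain ⟨W0, hW0⟩ : ∃ W0 : Set (E × ℂ), W0 = {x | x ∈ U ∧ ‖a x.1‖ ≤ 2 ∧ ‖b x.1‖ ≤ 2 ∧
      ∀ φ ∈ ({-(Real.pi / 6), Real.pi / 6} : Set ℝ),
        (‖Complex.sin (0 + -p x.1 + φ)‖ ≤ 2 ∧ ‖Complex.sin (0 + q x.1 + φ)‖ ≤ 2) ∧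
        (‖x.2 * Complex.sin (0 + -p x.1 + φ)‖ ^ 2 ≤ 1 - (s / 2) ^ 2 ∧
        ‖x.2 * Complex.sin (0 + q x.1 + φ)‖ ^ 2 ≤ 1 - (s / 2) ^ 2)} := ⟨_, rfl⟩
  have hKW : Kg K ⊆ interior W0 := by
    intro k hk
    rw [mem_interior_iff_mem_nhds, hW0]
    exact hev k hk
  have hW : ∀ x ∈ interior W0, x ∈ U ∧ ‖a x.1‖ ≤ 2 ∧ ‖b x.1‖ ≤ 2 ∧
      ∀ φ ∈ ({-(Real.pi / 6), Real.pi / 6} : Set ℝ),
        (‖Complex.sin (0 + -p x.1 + φ)‖ ≤ 2 ∧ ‖Complex.sin (0 + q x.1 + φ)‖ ≤ 2) ∧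
        (‖x.2 * Complex.sin (0 + -p x.1 + φ)‖ ^ 2 ≤ 1 - (s / 2) ^ 2 ∧
        ‖x.2 * Complex.sin (0 + q x.1 + φ)‖ ^ 2 ≤ 1 - (s / 2) ^ 2) := by
    intro x hx
    have h1 := interior_subset hx
    rw [hW0] at h1
    exact h1
  obtain ⟨ε, hε, hεW⟩ := (isCompact_Kg hK).exists_thickening_subset_open isOpen_interior hKW
  refine ⟨ε, hε, 10 / s * (256 / (s / 2) ^ 2), by positivity, V, ?_⟩
  intro x hx
  obtain ⟨hxU, xa, xb, xφ⟩ := hW x (hεW (Metric.mem_thickening_iff.2 hx))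
  obtain ⟨v1, v2, v3⟩ := hV x hxU
  have hzz := hVn x hxU 0 hz
  rw [zero_sub, norm_neg] at hzz
  have hF := norm_GF_zero (P := x.2) (s := s / 2) (G.bal x.1) (by positivity) xa xb
    (fun φ hφ => (xφ φ hφ).1) (fun φ hφ => (xφ φ hφ).2)
  refine ⟨v1, v3, v2, ?_, ?_⟩
  · have h1 : s / 10 * ‖V x‖ ≤ 256 / (s / 2) ^ 2 * ‖x.2‖ ^ 4 := hzz.trans hF
    have h2 : ‖V x‖ = 10 / s * (s / 10 * ‖V x‖) := by field_simp
    rw [h2, mul_assoc (10 / s)]
    exact mul_le_mul_of_nonneg_left h1 (by positivity)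
  · intro w hw hw0
    have h1 := hVn x hxU w hw
    rw [hw0, norm_zero] at h1
    have h2 : ‖w - V x‖ ≤ 0 := by
      by_contra hcc
      have := mul_pos (by positivity : 0 < s / 10) (not_le.1 hcc)
      linarith
    exact sub_eq_zero.1 (norm_le_zero_iff.1 h2)

end PLT.CA

end
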