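import Pool.Agent.PLT.CurveB2
import Pool.Agent.PLT.CurveA

/-!
# The static curve over a compact family of contents, as a function of the height
-/

set_option autoImplicit false
set_option linter.unusedSectionVars false

noncomputable section

open Filter Topology Set NUMF
open scoped ContDiff

namespace PLT.CA

variable {E : Type*} [NormedAddCommGroup E] [NormedSpace ℂ E]

/-- the level equation of two rows -/
def LevT (a b p q v t : ℝ) : ℝ := a * Ag (v - p * l) t + b * Ag (v + q * l) t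

theorem mul_GF_real {de : ℝ} {a b p q : E → ℂ} (d0 : 0 < de) (d1 : de ≤ 1 / 2) {e : E}
    {a0 b0 p0 q0 v : ℝ} (ea : a e = a0) (eb : b e = b0) (ep : p e = ((Real.pi * p0 / 3 : ℝ) : ℂ))
    (eq : q e = ((Real.pi * q0 / 3 : ℝ) : ℂ)) (h0 : 0 ≤ p0) (h1 : p0 ≤ 1 - de) (h2 : 0 ≤ q0)
    (h3 : q0 ≤ 1 / 2) (hv : v ∈ Icc (0 : ℝ) (3 / 50 * l)) (t : ℝ) :
    ((1 / ch t : ℝ) : ℂ) * GF a b p q ((e, ((1 / ch t : ℝ) : ℂ)), ((8 / 3 * v : ℝ) : ℂ)) =
      (LevT a0 b0 p0 q0 v t : ℂ) := by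
  have hpi := Real.pi_pos
  have hs0 : 0 < Real.sin (Real.pi * de / 6) :=
    Real.sin_pos_of_pos_of_lt_pi (by positivity) (by nlinarith)
  have hw := subset_closure (mem_Dw d0 d1 hv)
  have hc := one_le_ch t
  have key : ∀ u φ : ℝ, φ ∈ ({-(Real.pi / 6), Real.pi / 6} : Set ℝ) →
      -(Real.pi / 3 - Real.pi * de / 3) ≤ u → u ≤ Real.pi / 6 →
      Lc (((1 / ch t : ℝ) : ℂ) * Complex.sin (((8 / 3 * v : ℝ) : ℂ) + u + φ)) =
        (La (8 / 3 * v + u + φ) (ch t) : ℂ) := by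
    intro u φ hφ hu1 hu2
    have h4 := (be_win d0 d1 hw hφ hu1 hu2).norm_sin_lt hs0
    have e4 : ((8 / 3 * v : ℝ) : ℂ) + u + φ = ((8 / 3 * v + u + φ : ℝ) : ℂ) := by push_cast; ring
    rw [e4] at h4 ⊢
    refine Lc_La hc ?_
    rw [← Complex.ofReal_sin, Complex.norm_real, Real.norm_eq_abs] at h4
    exact h4
  have b1 : -(Real.pi / 3 - Real.pi * de / 3) ≤ -(Real.pi * p0 / 3) := by nlinarith
  have b2 : -(Real.pi * p0 / 3) ≤ Real.pi / 6 := by nlinarith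
  have b3 : -(Real.pi / 3 - Real.pi * de / 3) ≤ Real.pi * q0 / 3 := by nlinarith
  have b4 : Real.pi * q0 / 3 ≤ Real.pi / 6 := by nlinarith
  have k1 := key (-(Real.pi * p0 / 3)) (-(Real.pi / 6)) (by simp) b1 b2
  have k2 := key (-(Real.pi * p0 / 3)) (Real.pi / 6) (by simp) b1 b2
  have k3 := key (Real.pi * q0 / 3) (-(Real.pi / 6)) (by simp) b3 b4
  have k4 := key (Real.pi * q0 / 3) (Real.pi / 6) (by simp) b3 b4
  have en : ((-(Real.pi * p0 / 3) : ℝ) : ℂ) = -((Real.pi * p0 / 3 : ℝ) : ℂ) := by push_cast; ring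
  rw [en] at k1 k2
  rw [mul_GF, ea, eb, ep, eq, k1, k2, k3, k4]
  unfold LevT Ag
  have e1 : 8 / 3 * (v - p0 * l) - Real.pi / 6 =
      8 / 3 * v + -(Real.pi * p0 / 3) + -(Real.pi / 6) := by
    unfold l
    ring
  have e2 : 8 / 3 * (v - p0 * l) + Real.pi / 6 = 8 / 3 * v + -(Real.pi * p0 / 3) + Real.pi / 6 := by
    unfold l
    ring
  have e3 : 8 / 3 * (v + q0 * l) - Real.pi / 6 = 8 / 3 * v + Real.pi * q0 / 3 + -(Real.pi / 6) := by
    unfold l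
    ring
  have e4 : 8 / 3 * (v + q0 * l) + Real.pi / 6 = 8 / 3 * v + Real.pi * q0 / 3 + Real.pi / 6 := by
    unfold l
    ring
  rw [e1, e2, e3, e4]
  push_cast
  ring

theorem GF_eq_zero {de : ℝ} {a b p q : E → ℂ} (d0 : 0 < de) (d1 : de ≤ 1 / 2) {e : E}
    {a0 b0 p0 q0 v : ℝ} (ea : a e = a0) (eb : b e = b0) (ep : p e = ((Real.pi * p0 / 3 : ℝ) : ℂ))
    (eq : q e = ((Real.pi * q0 / 3 : ℝ) : ℂ)) (h0 : 0 ≤ p0) (h1 : p0 ≤ 1 - de) (h2 : 0 ≤ q0)
    (h3 : q0 ≤ 1 / 2) (hv : v ∈ Icc (0 : ℝ) (3 / 50 * l)) (t : ℝ) (h : LevT a0 b0 p0 q0 v t = 0) :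
    GF a b p q ((e, ((1 / ch t : ℝ) : ℂ)), ((8 / 3 * v : ℝ) : ℂ)) = 0 := by
  have h5 := mul_GF_real d0 d1 ea eb ep eq h0 h1 h2 h3 hv t
  rw [h, Complex.ofReal_zero] at h5
  refine (mul_eq_zero.1 h5).resolve_left ?_
  have := one_le_ch t
  have h3 : (1 / ch t : ℝ) ≠ 0 := by positivity
  exact_mod_cast h3

/-- **the curve over a compact family of contents, as a function of the height** -/
theorem exists_Eg [CompleteSpace E] {K : Set E} {de : ℝ} {a b p q : E → ℂ} (hK : IsCompact K)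
    (d0 : 0 < de) (d1 : de ≤ 1 / 2) (G : GoodC K de a b p q)
    (hex : ∀ e ∈ K, ∀ P : ℝ, 0 < P → P ≤ 1 → ∃ w ∈ Dw de, GF a b p q ((e, (P : ℂ)), w) = 0) :
    ∃ δ > 0, δ ≤ 1 / 4 ∧ ∃ C, 0 ≤ C ∧ ∃ F : E → ℂ → ℂ,
      (∀ (e : E) (z : ℂ), (∃ e0 ∈ K, ‖e - e0‖ < δ) → |z.im| < δ →
        AnalyticAt ℂ (fun q : E × ℂ => F q.1 q.2) (e, z) ∧
        ‖F e z‖ ≤ C * Real.exp (-(32 / 3) * |z.re|)) ∧
      (∀ (e : E) (z : ℂ), F e (-z) = F e z) ∧
      ∀ e ∈ K, ∀ t v : ℝ, v ∈ Icc (0 : ℝ) (3 / 50 * l) →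
        GF a b p q ((e, ((1 / ch t : ℝ) : ℂ)), ((8 / 3 * v : ℝ) : ℂ)) = 0 → F e t = v := by
  obtain ⟨ε, hε, C, hC, V, hV⟩ := exists_Vg hK d0 d1 G hex
  refine ⟨min (ε / 32) (1 / 4), by positivity, min_le_right _ _, C * 256, by positivity,
    fun e z => 3 / 8 * V (e, sc z), ?_, ?_, ?_⟩
  · rintro e z ⟨e0, he0, he⟩ hz
    have hz1 : |z.im| < 3 / 8 := by
      have := min_le_right (ε / 32) (1 / 4)
      linarith
    have hz2 : |z.im| < ε / 32 := hz.trans_le (min_le_left _ _)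
    have hy2 : ‖e - e0‖ < ε := by
      have := min_le_left (ε / 32) (1 / 4)
      linarith
    have hk : ∃ k ∈ Kg K, dist ((e, sc z) : E × ℂ) k < ε := by
      have hc1 := one_le_ch z.re
      refine ⟨(e0, ((1 / ch z.re : ℝ) : ℂ)), ⟨he0, ⟨1 / ch z.re, ⟨by positivity, ?_⟩, rfl⟩⟩, ?_⟩
      · rw [div_le_one (by linarith)]
        exact hc1
      · rw [Prod.dist_eq, max_lt_iff]
        constructor
        · rw [dist_eq_norm]
          exact hy2
        · rw [dist_eq_norm]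
          refine (norm_sc_sub hz1.le).trans_lt ?_
          linarith
    obtain ⟨v1, v2, v3, v4, v5⟩ := hV _ hk
    constructor
    · have a1 : AnalyticAt ℂ (fun q : E × ℂ => sc q.2) (e, z) :=
        (analyticAt_sc hz1).comp_of_eq analyticAt_snd rfl
      have a2 : AnalyticAt ℂ (fun q : E × ℂ => ((q.1, sc q.2) : E × ℂ)) (e, z) :=
        analyticAt_fst.prod a1
      exact analyticAt_const.mul (v1.comp_of_eq a2 rfl)
    · rw [norm_mul]
      have n1 : ‖(3 / 8 : ℂ)‖ ≤ 1 := by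
        rw [norm_div]
        norm_num
      have n2 : ‖sc z‖ ^ 4 ≤ 256 * Real.exp (-(32 / 3) * |z.re|) := by
        refine (pow_le_pow_left₀ (norm_nonneg _) (norm_sc hz1.le) 4).trans (le_of_eq ?_)
        rw [mul_pow, ← Real.exp_nat_mul]
        norm_num
        ring
      calc ‖(3 / 8 : ℂ)‖ * ‖V (e, sc z)‖ ≤ 1 * (C * ‖sc z‖ ^ 4) :=
            mul_le_mul n1 v4 (norm_nonneg _) zero_le_one
        _ ≤ 1 * (C * (256 * Real.exp (-(32 / 3) * |z.re|))) := by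
            refine mul_le_mul_of_nonneg_left (mul_le_mul_of_nonneg_left n2 hC) zero_le_one
        _ = _ := by ring
  · intro e z
    simp only [sc_neg]
  · intro e he t v hv h0
    have hk : ∃ k ∈ Kg K, dist ((e, sc t) : E × ℂ) k < ε := by
      have hc1 := one_le_ch t
      refine ⟨(e, ((1 / ch t : ℝ) : ℂ)), ⟨he, ⟨1 / ch t, ⟨by positivity, ?_⟩, rfl⟩⟩, ?_⟩
      · rw [div_le_one (by linarith)]
        exact hc1
      · rw [sc_ofReal, dist_self]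
        exact hε
    obtain ⟨v1, v2, v3, v4, v5⟩ := hV _ hk
    have h1 := v5 _ (mem_Dw d0 d1 hv) (by
      rw [sc_ofReal]
      exact h0)
    show 3 / 8 * V (e, sc t) = v
    rw [← h1]
    push_cast
    ring

end PLT.CA

end
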