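import Pool.Agent.PLT.CurveH4

/-!
# The static curve of two rows at heights

`NearH de ε a b p q s0 s1`: content near a balanced one of `[0, 1 - de]`, at heights `|s0|, |s1| < ε`.

* `norm_iter_lim`: Cauchy estimates of a function with a limit;
* `CvH r Ce a b p q s0 s1 η Lp Lm`: equation, window `[-r, v0 + r]`, slope `≤ 6/25 + r`, scaling, decay of all
  derivatives, limits;
* **`curveH`**: `∃ Ce, ∀ r > 0, ∃ ε > 0`, every content in `NearH de ε` has such a curve.
-/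

set_option autoImplicit false

noncomputable section

open Filter Topology Set NUMF
open scoped ContDiff ComplexConjugate

namespace PLT.CA

theorem iter_sub_const {f : ℂ → ℂ} {L : ℂ} {n : ℕ} (hn : 1 ≤ n) (z : ℂ) :
    iteratedDeriv n (fun z => f z - L) z = iteratedDeriv n f z := by
  obtain ⟨m, rfl⟩ : ∃ m, n = m + 1 := ⟨n - 1, by omega⟩
  rw [iteratedDeriv_succ', iteratedDeriv_succ']
  have : deriv (fun z => f z - L) = deriv f := by
    funext z
    rw [deriv_sub_const_fun]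
  rw [this]

/-- **Cauchy estimates for a function with a limit** -/
theorem norm_iter_lim {f : ℂ → ℂ} {L : ℂ} {δ C σ : ℝ} (hδ : 0 < δ) (hδ1 : δ ≤ 1) (hC : 0 ≤ C)
    (hσ : |σ| ≤ 32 / 3) (hf : ∀ z : ℂ, |z.im| < δ → AnalyticAt ℂ f z ∧
      ‖f z - L‖ ≤ C * Real.exp (σ * z.re)) {n : ℕ} (hn : 1 ≤ n) {z : ℂ} (hz : |z.im| ≤ δ / 4) :
    ‖iteratedDeriv n f z‖ ≤ (n.factorial * Real.exp 16 / (δ / 4) ^ n * C) *
      Real.exp (σ * z.re) := by
  rw [← iter_sub_const (f := f) (L := L) hn]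
  have hsub : ∀ w ∈ Metric.closedBall z (δ / 4), |w.im| < δ ∧ |w.re - z.re| ≤ δ / 4 := by
    intro w hw
    rw [Metric.mem_closedBall, dist_eq_norm] at hw
    have h1 := (Complex.abs_im_le_norm (w - z)).trans hw
    have h2 := (Complex.abs_re_le_norm (w - z)).trans hw
    rw [Complex.sub_im] at h1
    rw [Complex.sub_re] at h2
    refine ⟨?_, h2⟩
    have := abs_sub_abs_le_abs_sub w.im z.im
    linarith
  have hd : DiffContOnCl ℂ (fun z => f z - L) (Metric.ball z (δ / 4)) := by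
    refine DifferentiableOn.diffContOnCl ?_
    intro w hw
    exact ((hf w (hsub w (Metric.closure_ball_subset_closedBall hw)).1).1.differentiableAt.sub_const
      L).differentiableWithinAt
  have hb : ∀ w ∈ Metric.sphere z (δ / 4), ‖(fun z => f z - L) w‖ ≤
      C * (Real.exp 16 * Real.exp (σ * z.re)) := by
    intro w hw
    have h1 := hsub w (Metric.sphere_subset_closedBall hw)
    refine (hf w h1.1).2.trans ?_
    rw [← Real.exp_add]
    refine mul_le_mul_of_nonneg_left (Real.exp_le_exp.2 ?_) hC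
    have h2 : σ * (w.re - z.re) ≤ 32 / 3 * (δ / 4) := by
      refine (le_abs_self _).trans ?_
      rw [abs_mul]
      exact mul_le_mul hσ h1.2 (abs_nonneg _) (by norm_num)
    linarith
  refine (Complex.norm_iteratedDeriv_le_of_forall_mem_sphere_norm_le n (by positivity) hd hb).trans
    (le_of_eq ?_)
  ring

/-- the static curve of two rows: equation, window, slope, scaling, decay, limits -/
structure CvH (r : ℝ) (Ce : ℕ → ℝ) (a b p q s0 s1 : ℝ) (η : ℝ → ℝ) (Lp Lm : ℝ) : Prop where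
  eq : ∀ t, a * Ag (η t - p * l) (t - s0) + b * Ag (η t + q * l) (t - s1) = 0
  lo : ∀ t, -r ≤ η t
  hi : ∀ t, η t ≤ v0 + r
  smooth : ContDiff ℝ ω η
  slope : ∀ t, |deriv η t| ≤ 6 / 25 + r
  scal : ∀ t, -(l / 8 + r) ≤ t * deriv η t
  iter : ∀ n, 1 ≤ n → ∀ t, |iteratedDeriv n η t| ≤ Ce n * Real.exp (-(32 / 3) * |t|)
  limp : ∀ t, |η t - Lp| ≤ Ce 0 * Real.exp (-(32 / 3) * t)
  limm : ∀ t, |η t - Lm| ≤ Ce 0 * Real.exp (32 / 3 * t)
  Lp_le : |Lp| ≤ r
  Lm_le : |Lm| ≤ r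

theorem FH_end {a b p q : ℝ} (T : ℂ)
    (hbal : a * Real.sin (Real.pi * p / 3) = b * Real.sin (Real.pi * q / 3)) :
    FH (mkP a b ((Real.pi * p / 3 : ℝ) : ℂ) ((Real.pi * q / 3 : ℝ) : ℂ) 0 0 0 T, 0) = 0 := by
  have hb2 : (a : ℂ) * Complex.sin ((Real.pi * p / 3 : ℝ) : ℂ) =
      (b : ℂ) * Complex.sin ((Real.pi * q / 3 : ℝ) : ℂ) := by
    exact_mod_cast hbal
  have g := (mul_GF_zero (E := ℂ) (a := fun _ => (a : ℂ)) (b := fun _ => (b : ℂ))
    (p := fun _ => ((Real.pi * p / 3 : ℝ) : ℂ)) (q := fun _ => ((Real.pi * q / 3 : ℝ) : ℂ))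
    (e := 0) hb2 0).2
  unfold GF HG at g
  simp only [Pi.neg_apply] at g
  rw [FH_zero_height]
  exact g

/-- **the static curve of two rows at heights** -/
theorem curveH {de : ℝ} (d0 : 0 < de) (d1 : de ≤ 1 / 2) : ∃ Ce : ℕ → ℝ, (∀ n, 0 ≤ Ce n) ∧
    ∀ r > 0, ∃ ε > 0, ∀ a b p q s0 s1 : ℝ, NearH de ε a b p q s0 s1 →
      ∃ (η : ℝ → ℝ) (Lp Lm : ℝ), CvH r Ce a b p q s0 s1 η Lp Lm := by
  obtain ⟨ε0, hε0, C, hC, V, hV, hVr⟩ := exists_VH d0 d1
  have hs0 : 0 < Real.sin (Real.pi * de / 6) / 2 := by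
    have hpi := Real.pi_pos
    have := Real.sin_pos_of_pos_of_lt_pi (x := Real.pi * de / 6) (by positivity) (by nlinarith)
    positivity
  obtain ⟨δ, hδ, hδ1, hδ2⟩ : ∃ δ > 0, δ ≤ 1 / 4 ∧ δ ≤ ε0 / 32 :=
    ⟨min (1 / 4) (ε0 / 32), by positivity, min_le_left _ _, min_le_right _ _⟩
  obtain ⟨C1, hC1, hCC⟩ : ∃ C1, 0 ≤ C1 ∧ C1 = C * 16 := ⟨C * 16, by positivity, rfl⟩
  obtain ⟨Ce, hCe⟩ : ∃ Ce : ℕ → ℝ, Ce = fun n => n.factorial * Real.exp 16 / (δ / 4) ^ n * C1 + C1 :=
    ⟨_, rfl⟩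
  have hCe0 : ∀ n, 0 ≤ Ce n := fun n => by
    rw [hCe]
    positivity
  refine ⟨Ce, hCe0, fun r hr => ?_⟩
  obtain ⟨M, hM0, hM⟩ : ∃ M, 0 ≤ M ∧ Ce 1 = M * r := ⟨Ce 1 / r, by
    have := hCe0 1
    positivity, by field_simp⟩
  obtain ⟨r2, hr2, hr3, hr4⟩ : ∃ r2 > 0, r2 ≤ r ∧ M * r2 ≤ r := by
    refine ⟨min r (r / (M + 1)), by positivity, min_le_left _ _, ?_⟩
    calc M * min r (r / (M + 1)) ≤ M * (r / (M + 1)) :=
          mul_le_mul_of_nonneg_left (min_le_right _ _) hM0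
      _ = r * (M / (M + 1)) := by ring
      _ ≤ r * 1 := mul_le_mul_of_nonneg_left (by rw [div_le_one (by positivity)]; linarith) hr.le
      _ = r := mul_one r
  have hself : ∀ k ∈ KB de, ∃ k' ∈ KB de, dist k k' < ε0 := fun k hk => ⟨k, hk, by rwa [dist_self]⟩
  obtain ⟨ε1, hε1, hcl1⟩ := exists_close (isCompact_KB de)
    (fun k hk => (hV k (hself k hk)).1.continuousAt) hr
  obtain ⟨ε2, hε2, hcl2⟩ := exists_close (isCompact_KB de)
    (fun k hk => continuousAt_GV (hV k (hself k hk)).1) hr2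
  obtain ⟨ε, hε, g0, g1, g2⟩ : ∃ ε > 0, ε ≤ ε0 / 4 ∧ ε ≤ ε1 / 4 ∧ ε ≤ ε2 / 4 :=
    ⟨min (ε0 / 4) (min (ε1 / 4) (ε2 / 4)), by positivity, min_le_left _ _,
      (min_le_right _ _).trans (min_le_left _ _), (min_le_right _ _).trans (min_le_right _ _)⟩
  refine ⟨ε, hε, fun a b p q s0 s1 hN => ?_⟩
  obtain ⟨a', b', p', q', B, hab, hp, n1, n2, n3, n4, n5, n6⟩ := hN
  obtain ⟨x, hx⟩ : ∃ x, x = pz a b p q s0 s1 := ⟨_, rfl⟩
  obtain ⟨k, hk⟩ : ∃ k, k = pz a' b' p' q' 0 0 := ⟨_, rfl⟩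
  have hkm : ∀ t : ℝ, k t ∈ KB de := fun t => by
    rw [hk]
    exact pz_mem B hab hp t
  have hdist : ∀ ε3 : ℝ, ε ≤ ε3 / 4 → ∀ z : ℂ, |z.im| ≤ 3 / 8 → |z.im| < ε3 / 32 →
      dist (x z) (k z.re) < ε3 := by
    intro ε3 h3 z hz hz2
    rw [hx, hk]
    exact dist_pz (n1.trans_le h3) (n2.trans_le h3) (n3.trans_le h3) (n4.trans_le h3)
      (n5.trans_le h3) (n6.trans_le h3) hz hz2
  have hreal : ∀ ε3 : ℝ, 0 < ε3 → ε ≤ ε3 / 4 → ∀ t : ℝ, dist (x t) (k t) < ε3 := by
    intro ε3 h30 h3 t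
    have := hdist ε3 h3 (t : ℂ) (by rw [Complex.ofReal_im, abs_zero]; norm_num)
      (by rw [Complex.ofReal_im, abs_zero]; positivity)
    rwa [Complex.ofReal_re] at this
  have hnear : ∀ z : ℂ, |z.im| < δ → ∃ k ∈ KB de, dist (x z) k < ε0 := fun z hz =>
    ⟨k z.re, hkm z.re, hdist ε0 g0 z (by linarith) (by linarith)⟩
  have hnr : ∀ t : ℝ, ∃ k ∈ KB de, dist (x t) k < ε0 := fun t =>
    ⟨k t, hkm t, hreal ε0 hε0 g0 t⟩
  have h38 : ∀ t : ℝ, |(t : ℂ).im| < 3 / 8 := fun t => by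
    rw [Complex.ofReal_im, abs_zero]
    norm_num
  obtain ⟨f, hf⟩ : ∃ f : ℂ → ℂ, f = fun z => 3 / 8 * V (x z) := ⟨_, rfl⟩
  obtain ⟨η, hη⟩ : ∃ η : ℝ → ℝ, η = fun t : ℝ => (f t).re := ⟨_, rfl⟩
  have han : ∀ z : ℂ, |z.im| < δ → AnalyticAt ℂ f z := by
    intro z hz
    rw [hf]
    refine analyticAt_const.mul ?_
    rw [hx]
    have := (hV _ (hnear z hz)).1
    rw [hx] at this
    exact analyticAt_V (by linarith) this
  have hanr : ∀ t : ℝ, AnalyticAt ℂ f t := fun t => han t (by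
    rw [Complex.ofReal_im, abs_zero]
    exact hδ)
  have hxr : ∀ t : ℝ, x t = mkP a b ((Real.pi * p / 3 : ℝ) : ℂ) ((Real.pi * q / 3 : ℝ) : ℂ)
      ((8 / 3 * s0 : ℝ) : ℂ) ((8 / 3 * s1 : ℝ) : ℂ) ((1 / ch t : ℝ) : ℂ)
      ((Real.tanh (8 / 3 * t) : ℝ) : ℂ) := by
    intro t
    rw [hx]
    unfold pz
    rw [sc_ofReal, th_ofReal]
  have hVx : ∀ t : ℝ, V (x t) = ((8 / 3 * η t : ℝ) : ℂ) := by
    intro t
    have h1 := hVr a b (Real.pi * p / 3) (Real.pi * q / 3) (8 / 3 * s0) (8 / 3 * s1) (1 / ch t)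
      (Real.tanh (8 / 3 * t)) (by
        have := hnr t
        rw [hxr t] at this
        exact this)
    rw [← hxr t] at h1
    have h2 : η t = 3 / 8 * (V (x t)).re := by
      rw [hη, hf]
      show (3 / 8 * V (x t)).re = _
      have := Complex.re_ofReal_mul (3 / 8 : ℝ) (V (x t))
      push_cast at this
      exact this
    rw [h2]
    apply Complex.ext
    · rw [Complex.ofReal_re]
      ring
    · rw [Complex.ofReal_im]
      exact h1
  -- the derivative
  have hd : ∀ t : ℝ, HasDerivAt η (GV V (x t)).re t := by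
    intro t
    have h1 : DifferentiableAt ℂ V (pz a b p q s0 s1 t) := by
      have := (hV _ (hnr t)).1.differentiableAt
      rwa [hx] at this
    have h2 := (hasDerivAt_V (h38 t).le h1).const_mul (3 / 8 : ℂ)
    rw [← hx] at h2
    have h3 : HasDerivAt f (GV V (x t)) t := by
      rw [hf]
      refine h2.congr_deriv ?_
      ring
    rw [hη]
    exact h3.real_of_complex
  -- the base
  have hbase : ∀ t : ℝ, V (k t) = ((8 / 3 * eta2 a' b' p' q' t : ℝ) : ℂ) ∧
      GV V (k t) = ((eta2' a' b' p' q' t : ℝ) : ℂ) := by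
    intro t
    rw [hk]
    exact V_base d0 d1 hε0 (fun x hx => ⟨(hV x hx).1, (hV x hx).2.2.2.2.1⟩) B hab hp t
  have hc1 : ∀ t : ℝ, |η t - eta2 a' b' p' q' t| ≤ r := by
    intro t
    have h1 := hcl1 (k t) (hkm t) (x t) (hreal ε1 hε1 g1 t)
    rw [hVx, (hbase t).1, ← Complex.ofReal_sub, Complex.norm_real, Real.norm_eq_abs,
      show 8 / 3 * η t - 8 / 3 * eta2 a' b' p' q' t = 8 / 3 * (η t - eta2 a' b' p' q' t) by ring,
      abs_mul, abs_of_pos (by norm_num : (0 : ℝ) < 8 / 3)] at h1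
    have := abs_nonneg (η t - eta2 a' b' p' q' t)
    linarith
  have hc2 : ∀ t : ℝ, |deriv η t - eta2' a' b' p' q' t| ≤ r2 := by
    intro t
    have h1 := hcl2 (k t) (hkm t) (x t) (hreal ε2 hε2 g2 t)
    rw [(hbase t).2] at h1
    rw [(hd t).deriv]
    have h2 := Complex.abs_re_le_norm (GV V (x t) - ((eta2' a' b' p' q' t : ℝ) : ℂ))
    rw [Complex.sub_re, Complex.ofReal_re] at h2
    linarith
  -- limits
  have hx1 : ∀ z : ℂ, (x z).1 = (x 0).1 := fun z => by
    rw [hx]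
    rfl
  have hlimp : ∀ z : ℂ, |z.im| < δ → ‖f z - 3 / 8 * V ((x 0).1, (0, 1))‖ ≤
      C1 * Real.exp (-(32 / 3) * z.re) ∧ ‖f z - 3 / 8 * V ((x 0).1, (0, -1))‖ ≤
      C1 * Real.exp (32 / 3 * z.re) := by
    intro z hz
    have hz1 : |z.im| ≤ 3 / 8 := by linarith
    have hsq : (x z).2.1 ^ 2 + (x z).2.2 ^ 2 = 1 := by
      rw [hx]
      exact sc_sq_add hz1
    have hT : (x z).2.2 = th z := by
      rw [hx]
      rfl
    obtain ⟨h1, h2⟩ := (hV _ (hnear z hz)).2.2.2.2.2 hsq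
    rw [hT, hx1 z] at h1 h2
    have n38 : ‖(3 / 8 : ℂ)‖ ≤ 1 := by
      rw [norm_div]
      norm_num
    rw [hf, hCC]
    constructor
    · show ‖3 / 8 * V (x z) - 3 / 8 * V ((x 0).1, (0, 1))‖ ≤ _
      rw [← mul_sub, norm_mul]
      have h3 := norm_one_sub_th hz1
      have h4 : ‖1 - th z‖ ^ 2 ≤ 16 * Real.exp (-(32 / 3) * z.re) := by
        refine (pow_le_pow_left₀ (norm_nonneg _) h3 2).trans (le_of_eq ?_)
        rw [mul_pow, ← Real.exp_nat_mul]
        norm_num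
        ring_nf
      calc ‖(3 / 8 : ℂ)‖ * ‖V (x z) - V ((x 0).1, (0, 1))‖ ≤ 1 * (C * ‖1 - th z‖ ^ 2) :=
            mul_le_mul n38 h1 (norm_nonneg _) zero_le_one
        _ ≤ 1 * (C * (16 * Real.exp (-(32 / 3) * z.re))) := by
            refine mul_le_mul_of_nonneg_left (mul_le_mul_of_nonneg_left h4 hC) zero_le_one
        _ = _ := by ring
    · show ‖3 / 8 * V (x z) - 3 / 8 * V ((x 0).1, (0, -1))‖ ≤ _
      rw [← mul_sub, norm_mul]
      have h3 := norm_one_add_th hz1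
      have h4 : ‖1 + th z‖ ^ 2 ≤ 16 * Real.exp (32 / 3 * z.re) := by
        refine (pow_le_pow_left₀ (norm_nonneg _) h3 2).trans (le_of_eq ?_)
        rw [mul_pow, ← Real.exp_nat_mul]
        norm_num
        ring_nf
      calc ‖(3 / 8 : ℂ)‖ * ‖V (x z) - V ((x 0).1, (0, -1))‖ ≤ 1 * (C * ‖1 + th z‖ ^ 2) :=
            mul_le_mul n38 h2 (norm_nonneg _) zero_le_one
        _ ≤ 1 * (C * (16 * Real.exp (32 / 3 * z.re))) := by
            refine mul_le_mul_of_nonneg_left (mul_le_mul_of_nonneg_left h4 hC) zero_le_one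
        _ = _ := by ring
  have hiter : ∀ n, 1 ≤ n → ∀ t : ℝ, |iteratedDeriv n η t| ≤ Ce n * Real.exp (-(32 / 3) * |t|) := by
    intro n hn t
    have e : iteratedDeriv n η t = (iteratedDeriv n f t).re := by
      rw [hη, iter_ofReal hanr]
    rw [e]
    refine (Complex.abs_re_le_norm _).trans ?_
    have hCn : n.factorial * Real.exp 16 / (δ / 4) ^ n * C1 ≤ Ce n := by
      rw [hCe]
      show _ ≤ n.factorial * Real.exp 16 / (δ / 4) ^ n * C1 + C1
      linarith
    have hzi : |(t : ℂ).im| ≤ δ / 4 := by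
      rw [Complex.ofReal_im, abs_zero]
      positivity
    rcases le_total 0 t with h | h
    · have h1 := norm_iter_lim (σ := -(32 / 3)) hδ (by linarith) hC1
        (by rw [abs_neg, abs_of_pos (by norm_num)])
        (fun z hz => ⟨han z hz, (hlimp z hz).1⟩) hn hzi
      rw [Complex.ofReal_re] at h1
      rw [abs_of_nonneg h]
      exact h1.trans (mul_le_mul_of_nonneg_right hCn (Real.exp_nonneg _))
    · have h1 := norm_iter_lim (σ := 32 / 3) hδ (by linarith) hC1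
        (by rw [abs_of_pos (by norm_num)])
        (fun z hz => ⟨han z hz, (hlimp z hz).2⟩) hn hzi
      rw [Complex.ofReal_re] at h1
      rw [abs_of_nonpos h, show -(32 / 3) * -t = 32 / 3 * t by ring]
      exact h1.trans (mul_le_mul_of_nonneg_right hCn (Real.exp_nonneg _))
  have hCe0' : C1 ≤ Ce 0 := by
    rw [hCe]
    show C1 ≤ (0 : ℕ).factorial * Real.exp 16 / (δ / 4) ^ 0 * C1 + C1
    have : 0 ≤ ((0 : ℕ).factorial : ℝ) * Real.exp 16 / (δ / 4) ^ 0 * C1 := by positivity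
    linarith
  have hlim0 : ∀ (L : ℂ) (t : ℝ), |η t - L.re| ≤ ‖f t - L‖ := by
    intro L t
    rw [hη]
    have := Complex.abs_re_le_norm (f t - L)
    rwa [Complex.sub_re] at this
  have hLsmall : ∀ T : ℝ, T ^ 2 = 1 → |(3 / 8 * V ((x 0).1, ((0 : ℂ), (T : ℂ)))).re| ≤ r := by
    intro T hT
    have hk0 := hkm 0
    rw [Complex.ofReal_zero] at hk0
    have h1 := KB_end hk0 hT
    have h2 : V ((k 0).1, ((0 : ℂ), (T : ℂ))) = 0 := by
      have h3 := (hV _ (hself _ h1)).2.2.2.2.1 0 (zero_mem_Dw d0 d1) (by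
        have := FH_end (T : ℂ) B.bal
        rw [hk]
        unfold pz
        rw [mul_zero, Complex.ofReal_zero]
        exact this)
      exact h3.symm
    have h4 := hreal ε1 hε1 g1 0
    rw [Complex.ofReal_zero] at h4
    have h5 := hcl1 _ h1 _ (dist_end h4 ((0 : ℂ), (T : ℂ)))
    rw [h2, sub_zero] at h5
    refine (Complex.abs_re_le_norm _).trans ?_
    rw [norm_mul]
    have n38 : ‖(3 / 8 : ℂ)‖ ≤ 1 := by
      rw [norm_div]
      norm_num
    calc ‖(3 / 8 : ℂ)‖ * ‖V ((x 0).1, ((0 : ℂ), (T : ℂ)))‖ ≤ 1 * r :=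
          mul_le_mul n38 h5.le (norm_nonneg _) zero_le_one
      _ = r := one_mul r
  have hL1 := hLsmall 1 (by norm_num)
  have hL2 := hLsmall (-1) (by norm_num)
  rw [Complex.ofReal_one] at hL1
  rw [Complex.ofReal_neg, Complex.ofReal_one] at hL2
  refine ⟨η, _, _, ?_, ?_, ?_, ?_, ?_, ?_, hiter, ?_, ?_, hL1, hL2⟩
  · -- equation
    intro t
    obtain ⟨-, v2, v3, v4, -, -⟩ := hV _ (hnr t)
    rw [hVx t, hxr t] at v2
    have g := ((v4 _ (subset_closure v3)).lt1 hs0)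
    rw [hVx t, hxr t] at g
    have key := mul_FH_real (a := a) (b := b) (p := p) (q := q) (s0 := s0) (s1 := s1) (v := η t)
      (t := t) (one_le_ch _) (one_le_ch _) (by
        intro φ hφ
        have g1 := (g.1 φ hφ).1
        have g2 := (g.2 φ hφ).1
        have e1 : ((8 / 3 * η t : ℝ) : ℂ) + -((Real.pi * p / 3 : ℝ) : ℂ) + (φ : ℂ) =
            ((8 / 3 * η t + -(Real.pi * p / 3) + φ : ℝ) : ℂ) := by push_cast; ring
        have e2 : ((8 / 3 * η t : ℝ) : ℂ) + ((Real.pi * q / 3 : ℝ) : ℂ) + (φ : ℂ) =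
            ((8 / 3 * η t + Real.pi * q / 3 + φ : ℝ) : ℂ) := by push_cast; ring
        unfold mkP at g1 g2
        simp only at g1 g2
        rw [e1, ← Complex.ofReal_sin, Complex.norm_real, Real.norm_eq_abs] at g1
        rw [e2, ← Complex.ofReal_sin, Complex.norm_real, Real.norm_eq_abs] at g2
        exact ⟨g1, g2⟩)
    rw [v2, mul_zero] at key
    exact_mod_cast key.symm
  · intro t
    have h1 := abs_le.1 (hc1 t)
    have h2 := (B.eta_mem t).1
    linarith
  · intro t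
    have h1 := abs_le.1 (hc1 t)
    have h2 := (B.eta_mem t).2
    linarith
  · rw [hη]
    exact contDiff_ofReal hanr
  · intro t
    have h1 := hc2 t
    have h2 : |eta2' a' b' p' q' t| ≤ 6 / 25 := slope3 B t
    have h3 := abs_sub_abs_le_abs_sub (deriv η t) (eta2' a' b' p' q' t)
    linarith
  · intro t
    rcases le_or_gt M |t| with h | h
    · have h1 := hiter 1 le_rfl t
      rw [iteratedDeriv_one] at h1
      have h2 : |t| * |deriv η t| ≤ r := by
        have e1 : Real.exp (-(32 / 3) * |t|) ≤ Real.exp (-|t|) * Real.exp (-|t|) := by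
          rw [← Real.exp_add]
          apply Real.exp_le_exp.2
          have := abs_nonneg t
          linarith
        have e2 : |t| * Real.exp (-|t|) ≤ 1 := by
          have := Real.add_one_le_exp |t|
          rw [Real.exp_neg, ← div_eq_mul_inv, div_le_one (Real.exp_pos _)]
          linarith
        have e3 : M * Real.exp (-|t|) ≤ 1 := by
          refine le_trans ?_ e2
          exact mul_le_mul_of_nonneg_right h (Real.exp_nonneg _)
        calc |t| * |deriv η t| ≤ |t| * (Ce 1 * (Real.exp (-|t|) * Real.exp (-|t|))) :=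
              mul_le_mul_of_nonneg_left (h1.trans (mul_le_mul_of_nonneg_left e1 (hCe0 1)))
                (abs_nonneg t)
          _ = (|t| * Real.exp (-|t|)) * (M * Real.exp (-|t|)) * r := by
              rw [hM]
              ring
          _ ≤ 1 * 1 * r := by
              refine mul_le_mul_of_nonneg_right ?_ hr.le
              exact mul_le_mul e2 e3 (by positivity) zero_le_one
          _ = r := by ring
      have h3 := neg_abs_le (t * deriv η t)
      rw [abs_mul] at h3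
      have h4 : 0 < l := by
        have := Real.pi_pos
        unfold l
        positivity
      linarith
    · have h1 := hc2 t
      have h2 := B.scal t
      have h3 := neg_abs_le (t * (deriv η t - eta2' a' b' p' q' t))
      rw [abs_mul] at h3
      have h4 : |t| * |deriv η t - eta2' a' b' p' q' t| ≤ M * r2 :=
        mul_le_mul h.le h1 (abs_nonneg _) hM0
      have h5 : t * deriv η t = t * eta2' a' b' p' q' t + t * (deriv η t - eta2' a' b' p' q' t) := by
        ring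
      linarith
  · intro t
    have h1 := hlimp t (by
      rw [Complex.ofReal_im, abs_zero]
      exact hδ)
    rw [Complex.ofReal_re] at h1
    exact (hlim0 _ t).trans (h1.1.trans (mul_le_mul_of_nonneg_right hCe0' (Real.exp_nonneg _)))
  · intro t
    have h1 := hlimp t (by
      rw [Complex.ofReal_im, abs_zero]
      exact hδ)
    rw [Complex.ofReal_re] at h1
    exact (hlim0 _ t).trans (h1.2.trans (mul_le_mul_of_nonneg_right hCe0' (Real.exp_nonneg _)))

end PLT.CA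

end
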