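import Pool.Agent.PLT.CurveB1
import Pool.Agent.PLT.Two

/-!
# The static curve of two rows at complex places: the level function

Rows of weights `a`, `b` at the angles `-p`, `q` and at the heights `s₀`, `s₁` (units `3/8`);
`P = 1 / ch t`, `T = tanh t`, `ka s T = ch s - T sh s`, so `1 / ch (t - s) = P / ka s T`.

* `FH (e, w)`, `e = (((a, b), (p, q), (s₀, s₁)), (P, T))`: level function divided by `P`; analytic;
* `KB de`: the balanced contents at height 0, all `t`, a compact set; `re_FH`; `hex_KB`;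
* **`exists_VH`**: the curve as an analytic function near `KB de`.
-/

set_option autoImplicit false

noncomputable section

open Filter Topology Set NUMF
open scoped ContDiff

namespace PLT.CA

/-- the factor of the height -/
def ka (s T : ℂ) : ℂ := Complex.cosh s - T * Complex.sinh s

theorem ka_zero (T : ℂ) : ka 0 T = 1 := by simp [ka]

/-- one row -/
def RW (m x s P T w : ℂ) : ℂ := m / ka s T *
  (Th (P / ka s T) (Complex.sin (w + x + ((-(Real.pi / 6) : ℝ) : ℂ))) +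
    Th (P / ka s T) (Complex.sin (w + x + ((Real.pi / 6 : ℝ) : ℂ))))

/-- parameters -/
abbrev PE : Type := ((ℂ × ℂ) × (ℂ × ℂ) × (ℂ × ℂ)) × (ℂ × ℂ)

/-- the level function of two rows, divided by `P` -/
def FH (x : PE × ℂ) : ℂ :=
  RW x.1.1.1.1 (-x.1.1.2.1.1) x.1.1.2.2.1 x.1.2.1 x.1.2.2 x.2 +
  RW x.1.1.1.2 x.1.1.2.1.2 x.1.1.2.2.2 x.1.2.1 x.1.2.2 x.2

theorem analyticAt_RW {E : Type*} [NormedAddCommGroup E] [NormedSpace ℂ E] {m x s P T w : E → ℂ}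
    {e : E} (hm : AnalyticAt ℂ m e) (hx : AnalyticAt ℂ x e) (hs : AnalyticAt ℂ s e)
    (hP : AnalyticAt ℂ P e) (hT : AnalyticAt ℂ T e) (hw : AnalyticAt ℂ w e) (h0 : ka (s e) (T e) ≠ 0)
    (h1 : ∀ φ ∈ ({-(Real.pi / 6), Real.pi / 6} : Set ℝ),
      ‖P e / ka (s e) (T e) * Complex.sin (w e + x e + φ)‖ < 1) :
    AnalyticAt ℂ (fun e => RW (m e) (x e) (s e) (P e) (T e) (w e)) e := by
  have hk : AnalyticAt ℂ (fun e => ka (s e) (T e)) e := by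
    unfold ka
    exact (Complex.analyticAt_cosh.comp_of_eq hs rfl).sub
      (hT.mul (Complex.analyticAt_sinh.comp_of_eq hs rfl))
  have ht : ∀ φ ∈ ({-(Real.pi / 6), Real.pi / 6} : Set ℝ),
      AnalyticAt ℂ (fun e => Th (P e / ka (s e) (T e)) (Complex.sin (w e + x e + φ))) e := by
    intro φ hφ
    have hS : AnalyticAt ℂ (fun e => Complex.sin (w e + x e + φ)) e :=
      Complex.analyticAt_sin.comp_of_eq ((hw.add hx).add analyticAt_const) rfl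
    exact AnalyticAt.comp_of_eq (g := fun q : ℂ × ℂ => Th q.1 q.2)
      (analyticAt_Th (q := (P e / ka (s e) (T e), Complex.sin (w e + x e + φ))) (h1 φ hφ))
      ((hP.div hk h0).prod hS) rfl
  unfold RW
  exact (hm.div hk h0).mul ((ht _ (by simp)).add (ht _ (by simp)))

theorem hasDerivAt_RW {m x s P T w : ℂ} (h1 : ∀ φ ∈ ({-(Real.pi / 6), Real.pi / 6} : Set ℝ),
      ‖P / ka s T * Complex.sin (w + x + φ)‖ < 1) :
    HasDerivAt (fun w => RW m x s P T w) (m / ka s T *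
      (DG (P / ka s T) (w + x + ((-(Real.pi / 6) : ℝ) : ℂ)) +
        DG (P / ka s T) (w + x + ((Real.pi / 6 : ℝ) : ℂ)))) w := by
  have ht : ∀ φ ∈ ({-(Real.pi / 6), Real.pi / 6} : Set ℝ),
      HasDerivAt (fun w => Th (P / ka s T) (Complex.sin (w + x + φ))) (DG (P / ka s T) (w + x + φ)) w := by
    intro φ hφ
    have h2 := h1 φ hφ
    have e : (fun w => Th (P / ka s T) (Complex.sin (w + x + φ))) =
        fun w => Th (P / ka s T) (Complex.sin (w + (x + φ))) := by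
      funext w
      rw [add_assoc]
    rw [e, add_assoc]
    rw [add_assoc] at h2
    exact hasDerivAt_Th_sin _ h2
  unfold RW
  exact ((ht _ (by simp)).add (ht _ (by simp))).const_mul _

theorem analyticAt_FH {x : PE} {w : ℂ} (h0 : ka x.1.2.2.1 x.2.2 ≠ 0) (h1 : ka x.1.2.2.2 x.2.2 ≠ 0)
    (h : ∀ φ ∈ ({-(Real.pi / 6), Real.pi / 6} : Set ℝ),
      ‖x.2.1 / ka x.1.2.2.1 x.2.2 * Complex.sin (w + -x.1.2.1.1 + φ)‖ < 1 ∧
      ‖x.2.1 / ka x.1.2.2.2 x.2.2 * Complex.sin (w + x.1.2.1.2 + φ)‖ < 1) :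
    AnalyticAt ℂ FH (x, w) := by
  have a0 : AnalyticAt ℂ (fun x : PE × ℂ => x.1) (x, w) := analyticAt_fst
  have aw : AnalyticAt ℂ (fun x : PE × ℂ => x.2) (x, w) := analyticAt_snd
  have a1 : AnalyticAt ℂ (fun x : PE × ℂ => x.1.1) (x, w) := analyticAt_fst.comp_of_eq a0 rfl
  have a2 : AnalyticAt ℂ (fun x : PE × ℂ => x.1.2) (x, w) := analyticAt_snd.comp_of_eq a0 rfl
  have aP : AnalyticAt ℂ (fun x : PE × ℂ => x.1.2.1) (x, w) := analyticAt_fst.comp_of_eq a2 rfl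
  have aT : AnalyticAt ℂ (fun x : PE × ℂ => x.1.2.2) (x, w) := analyticAt_snd.comp_of_eq a2 rfl
  have b1 : AnalyticAt ℂ (fun x : PE × ℂ => x.1.1.1) (x, w) := analyticAt_fst.comp_of_eq a1 rfl
  have b2 : AnalyticAt ℂ (fun x : PE × ℂ => x.1.1.2) (x, w) := analyticAt_snd.comp_of_eq a1 rfl
  have ma : AnalyticAt ℂ (fun x : PE × ℂ => x.1.1.1.1) (x, w) := analyticAt_fst.comp_of_eq b1 rfl
  have mb : AnalyticAt ℂ (fun x : PE × ℂ => x.1.1.1.2) (x, w) := analyticAt_snd.comp_of_eq b1 rfl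
  have c1 : AnalyticAt ℂ (fun x : PE × ℂ => x.1.1.2.1) (x, w) := analyticAt_fst.comp_of_eq b2 rfl
  have c2 : AnalyticAt ℂ (fun x : PE × ℂ => x.1.1.2.2) (x, w) := analyticAt_snd.comp_of_eq b2 rfl
  have xp : AnalyticAt ℂ (fun x : PE × ℂ => x.1.1.2.1.1) (x, w) := analyticAt_fst.comp_of_eq c1 rfl
  have xq : AnalyticAt ℂ (fun x : PE × ℂ => x.1.1.2.1.2) (x, w) := analyticAt_snd.comp_of_eq c1 rfl
  have s0 : AnalyticAt ℂ (fun x : PE × ℂ => x.1.1.2.2.1) (x, w) := analyticAt_fst.comp_of_eq c2 rfl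
  have s1 : AnalyticAt ℂ (fun x : PE × ℂ => x.1.1.2.2.2) (x, w) := analyticAt_snd.comp_of_eq c2 rfl
  exact (analyticAt_RW ma xp.neg s0 aP aT aw h0 fun φ hφ => (h φ hφ).1).add
    (analyticAt_RW mb xq s1 aP aT aw h1 fun φ hφ => (h φ hφ).2)

/-! ### the compact set -/

/-- balanced contents at height 0 (real parameters `(((a, b), (p, q)), (P, T))`) -/
def KR2 (de : ℝ) : Set (((ℝ × ℝ) × (ℝ × ℝ)) × (ℝ × ℝ)) :=
  (((Icc (0 : ℝ) 1 ×ˢ Icc (0 : ℝ) 1) ×ˢ (Icc (0 : ℝ) 1 ×ˢ Icc (0 : ℝ) 1)) ×ˢ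
    (Icc (0 : ℝ) 1 ×ˢ Icc (-1 : ℝ) 1)) ∩
  {x | x.1.1.1 + x.1.1.2 = 1 ∧ x.1.2.2 ≤ x.1.2.1 ∧ x.1.2.1 ≤ 1 - de ∧ x.1.2.1 + x.1.2.2 ≤ 1 ∧
    x.1.1.1 * Real.sin (Real.pi * x.1.2.1 / 3) = x.1.1.2 * Real.sin (Real.pi * x.1.2.2 / 3) ∧
    x.2.1 ^ 2 + x.2.2 ^ 2 = 1}

theorem isCompact_KR2 (de : ℝ) : IsCompact (KR2 de) := by
  refine IsCompact.inter_right ?_ ?_
  · exact ((isCompact_Icc.prod isCompact_Icc).prod (isCompact_Icc.prod isCompact_Icc)).prod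
      (isCompact_Icc.prod isCompact_Icc)
  · have g1 : IsClosed {x : ((ℝ × ℝ) × (ℝ × ℝ)) × (ℝ × ℝ) | x.1.1.1 + x.1.1.2 = 1} :=
      isClosed_eq (by fun_prop) (by fun_prop)
    have g2 : IsClosed {x : ((ℝ × ℝ) × (ℝ × ℝ)) × (ℝ × ℝ) | x.1.2.2 ≤ x.1.2.1} :=
      isClosed_le (by fun_prop) (by fun_prop)
    have g3 : IsClosed {x : ((ℝ × ℝ) × (ℝ × ℝ)) × (ℝ × ℝ) | x.1.2.1 ≤ 1 - de} :=
      isClosed_le (by fun_prop) (by fun_prop)
    have g4 : IsClosed {x : ((ℝ × ℝ) × (ℝ × ℝ)) × (ℝ × ℝ) | x.1.2.1 + x.1.2.2 ≤ 1} :=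
      isClosed_le (by fun_prop) (by fun_prop)
    have g5 : IsClosed {x : ((ℝ × ℝ) × (ℝ × ℝ)) × (ℝ × ℝ) |
        x.1.1.1 * Real.sin (Real.pi * x.1.2.1 / 3) = x.1.1.2 * Real.sin (Real.pi * x.1.2.2 / 3)} :=
      isClosed_eq (by fun_prop) (by fun_prop)
    have g6 : IsClosed {x : ((ℝ × ℝ) × (ℝ × ℝ)) × (ℝ × ℝ) | x.2.1 ^ 2 + x.2.2 ^ 2 = 1} :=
      isClosed_eq (by fun_prop) (by fun_prop)
    exact g1.inter (g2.inter (g3.inter (g4.inter (g5.inter g6))))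

/-- a point of the parameter space -/
def mkP (a b p q s0 s1 P T : ℂ) : PE := (((a, b), (p, q), (s0, s1)), (P, T))

/-- the embedding -/
def emb (x : ((ℝ × ℝ) × (ℝ × ℝ)) × (ℝ × ℝ)) : PE :=
  mkP x.1.1.1 x.1.1.2 ((Real.pi * x.1.2.1 / 3 : ℝ) : ℂ) ((Real.pi * x.1.2.2 / 3 : ℝ) : ℂ) 0 0
    x.2.1 x.2.2

/-- the compact set of the balanced contents at height 0 and all times -/
def KB (de : ℝ) : Set PE := emb '' KR2 de

theorem isCompact_KB (de : ℝ) : IsCompact (KB de) := by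
  refine (isCompact_KR2 de).image ?_
  unfold emb mkP
  fun_prop

theorem FH_zero_height (a b p q P T w : ℂ) :
    FH (mkP a b p q 0 0 P T, w) =
      a * (Th P (Complex.sin (w + -p + ((-(Real.pi / 6) : ℝ) : ℂ))) +
        Th P (Complex.sin (w + -p + ((Real.pi / 6 : ℝ) : ℂ)))) +
      b * (Th P (Complex.sin (w + q + ((-(Real.pi / 6) : ℝ) : ℂ))) +
        Th P (Complex.sin (w + q + ((Real.pi / 6 : ℝ) : ℂ)))) := by
  unfold FH RW mkP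
  simp only [ka_zero, div_one]

/-- a point of the compact set -/
theorem KB_cases {de : ℝ} {k : PE} (hk : k ∈ KB de) : ∃ a b p q P T : ℝ, 0 ≤ a ∧ 0 ≤ b ∧ a + b = 1 ∧
    0 ≤ q ∧ q ≤ p ∧ p ≤ 1 - de ∧ p + q ≤ 1 ∧
    a * Real.sin (Real.pi * p / 3) = b * Real.sin (Real.pi * q / 3) ∧ 0 ≤ P ∧ P ≤ 1 ∧
    P ^ 2 + T ^ 2 = 1 ∧
    k = mkP a b ((Real.pi * p / 3 : ℝ) : ℂ) ((Real.pi * q / 3 : ℝ) : ℂ) 0 0 P T := by
  obtain ⟨⟨⟨⟨a, b⟩, ⟨p, q⟩⟩, ⟨P, T⟩⟩, ⟨h1, h2⟩, rfl⟩ := hk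
  obtain ⟨⟨⟨ha, hb⟩, ⟨hp, hq⟩⟩, ⟨hP, hT⟩⟩ := h1
  obtain ⟨g1, g2, g3, g4, g5, g6⟩ := h2
  exact ⟨a, b, p, q, P, T, ha.1, hb.1, g1, hq.1, g2, g3, g4, g5, hP.1, hP.2, g6, rfl⟩

theorem KB_be {de : ℝ} (d0 : 0 < de) (d1 : de ≤ 1 / 2) {p q : ℝ} (hq0 : 0 ≤ q) (hqp : q ≤ p)
    (hp : p ≤ 1 - de) (hpq : p + q ≤ 1) {w : ℂ} (hw : w ∈ closure (Dw de)) {φ : ℝ}
    (hφ : φ ∈ ({-(Real.pi / 6), Real.pi / 6} : Set ℝ)) :
    Be (Real.sin (Real.pi * de / 6)) (w + -((Real.pi * p / 3 : ℝ) : ℂ) + φ) ∧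
    Be (Real.sin (Real.pi * de / 6)) (w + ((Real.pi * q / 3 : ℝ) : ℂ) + φ) := by
  have hpi := Real.pi_pos
  have h1 : Real.pi * p ≤ Real.pi * (1 - de) := mul_le_mul_of_nonneg_left hp hpi.le
  have h2 : Real.pi * q ≤ Real.pi * (1 / 2) := mul_le_mul_of_nonneg_left (by linarith) hpi.le
  have h3 : 0 ≤ Real.pi * q := by positivity
  have h4 : 0 ≤ Real.pi * p := mul_nonneg hpi.le (hq0.trans hqp)
  have h5 : 0 < Real.pi * de := by positivity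
  have h6 : Real.pi * de ≤ Real.pi * (1 / 2) := mul_le_mul_of_nonneg_left d1 hpi.le
  constructor
  · have g := be_win d0 d1 hw hφ (u := -(Real.pi * p / 3)) (by linarith) (by linarith)
    have e1 : w + ((-(Real.pi * p / 3) : ℝ) : ℂ) = w + -((Real.pi * p / 3 : ℝ) : ℂ) := by
      push_cast
      ring
    rw [e1] at g
    exact g
  · exact be_win d0 d1 hw hφ (u := Real.pi * q / 3) (by linarith) (by linarith)

theorem re_FH {de : ℝ} (d0 : 0 < de) (d1 : de ≤ 1 / 2) {k : PE} (hk : k ∈ KB de) {w : ℂ}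
    (hw : w ∈ closure (Dw de)) : AnalyticAt ℂ FH (k, w) ∧
      Real.sin (Real.pi * de / 6) / 10 < (fderiv ℂ FH (k, w) (0, 1)).re := by
  have hpi := Real.pi_pos
  obtain ⟨s, hs⟩ : ∃ s, s = Real.sin (Real.pi * de / 6) := ⟨_, rfl⟩
  have hs0 : 0 < s := by
    rw [hs]
    exact Real.sin_pos_of_pos_of_lt_pi (by positivity) (by nlinarith)
  have hs1 : s ≤ 1 := by
    rw [hs]
    exact Real.sin_le_one _
  obtain ⟨a, b, p, q, P, T, ha, hb, hab, hq0, hqp, hp, hpq, -, hP0, hP1, -, rfl⟩ := KB_cases hk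
  have hbe := fun φ hφ => KB_be d0 d1 hq0 hqp hp hpq hw (φ := φ) hφ
  rw [← hs] at hbe ⊢
  have hl : ∀ φ ∈ ({-(Real.pi / 6), Real.pi / 6} : Set ℝ),
      ‖(P : ℂ) / ka 0 (T : ℂ) * Complex.sin (w + -((Real.pi * p / 3 : ℝ) : ℂ) + φ)‖ < 1 ∧
      ‖(P : ℂ) / ka 0 (T : ℂ) * Complex.sin (w + ((Real.pi * q / 3 : ℝ) : ℂ) + φ)‖ < 1 := by
    intro φ hφ
    rw [ka_zero, div_one]
    exact ⟨(hbe φ hφ).1.mul_lt hs0 hP0 hP1, (hbe φ hφ).2.mul_lt hs0 hP0 hP1⟩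
  have hA : AnalyticAt ℂ FH (mkP a b ((Real.pi * p / 3 : ℝ) : ℂ) ((Real.pi * q / 3 : ℝ) : ℂ) 0 0 P T, w) :=
    analyticAt_FH (x := mkP a b ((Real.pi * p / 3 : ℝ) : ℂ) ((Real.pi * q / 3 : ℝ) : ℂ) 0 0 P T)
      (by
        show ka 0 (T : ℂ) ≠ 0
        rw [ka_zero]
        exact one_ne_zero) (by
        show ka 0 (T : ℂ) ≠ 0
        rw [ka_zero]
        exact one_ne_zero) hl
  refine ⟨hA, ?_⟩
  have hd : HasDerivAt (fun w => FH (mkP a b ((Real.pi * p / 3 : ℝ) : ℂ)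
      ((Real.pi * q / 3 : ℝ) : ℂ) 0 0 P T, w)) _ w :=
    (hasDerivAt_RW (m := (a : ℂ)) (x := -((Real.pi * p / 3 : ℝ) : ℂ)) (s := 0) (P := (P : ℂ))
      (T := (T : ℂ)) (w := w) fun φ hφ => (hl φ hφ).1).add
    (hasDerivAt_RW (m := (b : ℂ)) (x := ((Real.pi * q / 3 : ℝ) : ℂ)) (s := 0) (P := (P : ℂ))
      (T := (T : ℂ)) (w := w) fun φ hφ => (hl φ hφ).2)
  rw [(hasDerivAt_section hA.differentiableAt).unique hd]
  simp only [ka_zero, div_one]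
  have k1 := (hbe (-(Real.pi / 6)) (by simp)).1.re_deriv hs0 hs1 hP0 hP1
  have k2 := (hbe (Real.pi / 6) (by simp)).1.re_deriv hs0 hs1 hP0 hP1
  have k3 := (hbe (-(Real.pi / 6)) (by simp)).2.re_deriv hs0 hs1 hP0 hP1
  have k4 := (hbe (Real.pi / 6) (by simp)).2.re_deriv hs0 hs1 hP0 hP1
  unfold DG
  rw [Complex.add_re, Complex.re_ofReal_mul, Complex.re_ofReal_mul, Complex.add_re, Complex.add_re]
  have m1 := mul_le_mul_of_nonneg_left (add_le_add k1 k2) ha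
  have m2 := mul_le_mul_of_nonneg_left (add_le_add k3 k4) hb
  have m4 : (a + b) * (s / 5 + s / 5) = a * (s / 5 + s / 5) + b * (s / 5 + s / 5) := by ring
  rw [hab] at m4
  linarith

/-- the level function at a real point of a real content with heights -/
theorem mul_FH_real {a b p q s0 s1 v t : ℝ} (hc0 : 1 ≤ ch (t - s0)) (hc1 : 1 ≤ ch (t - s1))
    (h : ∀ φ ∈ ({-(Real.pi / 6), Real.pi / 6} : Set ℝ),
      |Real.sin (8 / 3 * v + -(Real.pi * p / 3) + φ)| < 1 ∧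
      |Real.sin (8 / 3 * v + Real.pi * q / 3 + φ)| < 1) :
    ((1 / ch t : ℝ) : ℂ) * FH (mkP a b ((Real.pi * p / 3 : ℝ) : ℂ) ((Real.pi * q / 3 : ℝ) : ℂ)
      ((8 / 3 * s0 : ℝ) : ℂ) ((8 / 3 * s1 : ℝ) : ℂ) ((1 / ch t : ℝ) : ℂ)
      ((Real.tanh (8 / 3 * t) : ℝ) : ℂ), ((8 / 3 * v : ℝ) : ℂ)) =
      ((a * Ag (v - p * l) (t - s0) + b * Ag (v + q * l) (t - s1) : ℝ) : ℂ) := by
  have hct : 0 < ch t := by
    have := one_le_ch t
    linarith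
  have hk : ∀ s : ℝ, ka ((8 / 3 * s : ℝ) : ℂ) ((Real.tanh (8 / 3 * t) : ℝ) : ℂ) =
      ((ch (t - s) / ch t : ℝ) : ℂ) := by
    intro s
    unfold ka
    rw [← Complex.ofReal_cosh, ← Complex.ofReal_sinh, ← Complex.ofReal_mul, ← Complex.ofReal_sub]
    congr 1
    rw [Real.tanh_eq_sinh_div_cosh, eq_div_iff hct.ne']
    unfold ch at hct ⊢
    rw [mul_sub, Real.cosh_sub]
    field_simp
  have hrow : ∀ m u s : ℝ, 1 ≤ ch (t - s) → (∀ φ ∈ ({-(Real.pi / 6), Real.pi / 6} : Set ℝ),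
      |Real.sin (8 / 3 * v + u + φ)| < 1) →
      ((1 / ch t : ℝ) : ℂ) * RW (m : ℂ) (u : ℂ) ((8 / 3 * s : ℝ) : ℂ) ((1 / ch t : ℝ) : ℂ)
        ((Real.tanh (8 / 3 * t) : ℝ) : ℂ) ((8 / 3 * v : ℝ) : ℂ) =
        ((m * (La (8 / 3 * v + u + -(Real.pi / 6)) (ch (t - s)) +
          La (8 / 3 * v + u + Real.pi / 6) (ch (t - s))) : ℝ) : ℂ) := by
    intro m u s hcs hu
    have hcs0 : 0 < ch (t - s) := by linarith
    have e1 : ((1 / ch t : ℝ) : ℂ) / ((ch (t - s) / ch t : ℝ) : ℂ) = ((1 / ch (t - s) : ℝ) : ℂ) := by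
      rw [← Complex.ofReal_div]
      congr 1
      field_simp
    have hL : ∀ φ ∈ ({-(Real.pi / 6), Real.pi / 6} : Set ℝ),
        ((1 / ch (t - s) : ℝ) : ℂ) * Th ((1 / ch (t - s) : ℝ) : ℂ)
          (Complex.sin (((8 / 3 * v : ℝ) : ℂ) + (u : ℂ) + (φ : ℂ))) =
          (La (8 / 3 * v + u + φ) (ch (t - s)) : ℂ) := by
      intro φ hφ
      rw [mul_Th]
      have e2 : ((8 / 3 * v : ℝ) : ℂ) + (u : ℂ) + (φ : ℂ) = ((8 / 3 * v + u + φ : ℝ) : ℂ) := by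
        push_cast
        ring
      rw [e2]
      exact Lc_La hcs (hu φ hφ)
    have l1 := hL (-(Real.pi / 6)) (by simp)
    have l2 := hL (Real.pi / 6) (by simp)
    unfold RW
    rw [hk s, e1]
    have e3 : ((1 / ch t : ℝ) : ℂ) * ((m : ℂ) / ((ch (t - s) / ch t : ℝ) : ℂ)) =
        (m : ℂ) * ((1 / ch (t - s) : ℝ) : ℂ) := by
      rw [← Complex.ofReal_div, ← Complex.ofReal_mul, ← Complex.ofReal_mul]
      congr 1
      field_simp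
    rw [← mul_assoc, e3]
    push_cast at l1 l2 ⊢
    linear_combination (m : ℂ) * l1 + (m : ℂ) * l2
  have r1 := hrow a (-(Real.pi * p / 3)) s0 hc0 fun φ hφ => (h φ hφ).1
  have r2 := hrow b (Real.pi * q / 3) s1 hc1 fun φ hφ => (h φ hφ).2
  have en : ((-(Real.pi * p / 3) : ℝ) : ℂ) = -((Real.pi * p / 3 : ℝ) : ℂ) := by push_cast; ring
  rw [en] at r1
  unfold FH
  show ((1 / ch t : ℝ) : ℂ) * (RW (a : ℂ) (-((Real.pi * p / 3 : ℝ) : ℂ)) ((8 / 3 * s0 : ℝ) : ℂ)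
    ((1 / ch t : ℝ) : ℂ) ((Real.tanh (8 / 3 * t) : ℝ) : ℂ) ((8 / 3 * v : ℝ) : ℂ) +
    RW (b : ℂ) ((Real.pi * q / 3 : ℝ) : ℂ) ((8 / 3 * s1 : ℝ) : ℂ)
    ((1 / ch t : ℝ) : ℂ) ((Real.tanh (8 / 3 * t) : ℝ) : ℂ) ((8 / 3 * v : ℝ) : ℂ)) = _
  rw [mul_add, r1, r2, ← Complex.ofReal_add]
  congr 1
  unfold Ag
  have e1 : 8 / 3 * (v - p * l) - Real.pi / 6 =
      8 / 3 * v + -(Real.pi * p / 3) + -(Real.pi / 6) := by
    unfold l
    ring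
  have e2 : 8 / 3 * (v - p * l) + Real.pi / 6 = 8 / 3 * v + -(Real.pi * p / 3) + Real.pi / 6 := by
    unfold l
    ring
  have e3 : 8 / 3 * (v + q * l) - Real.pi / 6 = 8 / 3 * v + Real.pi * q / 3 + -(Real.pi / 6) := by
    unfold l
    ring
  have e4 : 8 / 3 * (v + q * l) + Real.pi / 6 = 8 / 3 * v + Real.pi * q / 3 + Real.pi / 6 := by
    unfold l
    ring
  rw [e1, e2, e3, e4]

end PLT.CA

end
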