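import Pool.Agent.PLT.CurveH1

/-!
# The static curve of two rows at complex places: zeros at height 0, limits, realness of the function
-/

set_option autoImplicit false

noncomputable section

open Filter Topology Set NUMF
open scoped ContDiff ComplexConjugate

namespace PLT.CA

theorem Lc_neg (x : ℂ) : Lc (-x) = -Lc x := by
  unfold Lc
  rw [sub_neg_eq_add, ← sub_eq_add_neg]
  ring

theorem Th_neg (p y : ℂ) : Th p (-y) = -Th p y := by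
  by_cases hp : p = 0
  · rw [hp, Th_zero, Th_zero]
  · apply mul_left_cancel₀ hp
    rw [mul_Th, mul_neg, Lc_neg, mul_neg, mul_Th]

/-- a real time -/
theorem exists_time {P T : ℝ} (h0 : 0 < P) (h1 : P ≤ 1) (h : P ^ 2 + T ^ 2 = 1) :
    ∃ t, P = 1 / ch t ∧ T = Real.tanh (8 / 3 * t) := by
  obtain ⟨t, ht⟩ := exists_ch (c := 1 / P) (by rw [le_div_iff₀ h0]; linarith)
  have hc := one_le_ch t
  have e1 : P = 1 / ch t := by
    rw [ht]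
    field_simp
  have e2 : Real.tanh (8 / 3 * t) ^ 2 = T ^ 2 := by
    have h3 := Real.cosh_sq (8 / 3 * t)
    have h4 := Real.cosh_pos (8 / 3 * t)
    have h5 : P * Real.cosh (8 / 3 * t) = 1 := by
      rw [e1]
      unfold ch
      field_simp
    rw [Real.tanh_eq_sinh_div_cosh, div_pow, div_eq_iff (by positivity)]
    linear_combination (-1 : ℝ) * h3 + Real.cosh (8 / 3 * t) ^ 2 * (-1 : ℝ) * h +
      (P * Real.cosh (8 / 3 * t) + 1) * h5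
  rcases sq_eq_sq_iff_eq_or_eq_neg.1 e2 with h | h
  · exact ⟨t, e1, h.symm⟩
  · refine ⟨-t, ?_, ?_⟩
    · rw [e1]
      unfold ch
      rw [mul_neg, Real.cosh_neg]
    · rw [mul_neg, Real.tanh_neg, h, neg_neg]

/-- the curve at height 0 is a zero -/
theorem FH_real_zero {de : ℝ} (d0 : 0 < de) (d1 : de ≤ 1 / 2) {a b p q v : ℝ} (hq : 0 ≤ q)
    (hqp : q ≤ p) (hp : p ≤ 1 - de) (hpq : p + q ≤ 1) (hv : v ∈ Icc (0 : ℝ) v0) (t : ℝ)
    (h : a * Ag (v - p * l) t + b * Ag (v + q * l) t = 0) :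
    FH (mkP a b ((Real.pi * p / 3 : ℝ) : ℂ) ((Real.pi * q / 3 : ℝ) : ℂ) 0 0 ((1 / ch t : ℝ) : ℂ)
      ((Real.tanh (8 / 3 * t) : ℝ) : ℂ), ((8 / 3 * v : ℝ) : ℂ)) = 0 := by
  have hpi := Real.pi_pos
  have hs0 : 0 < Real.sin (Real.pi * de / 6) :=
    Real.sin_pos_of_pos_of_lt_pi (by positivity) (by nlinarith)
  have hw := subset_closure (mem_Dw d0 d1 (v := v) ⟨hv.1, hv.2.trans v0_lt.le⟩)
  have hct := one_le_ch t
  have key := mul_FH_real (a := a) (b := b) (p := p) (q := q) (s0 := 0) (s1 := 0) (v := v) (t := t)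
    (by rw [sub_zero]; exact hct) (by rw [sub_zero]; exact hct) (by
      intro φ hφ
      have g := KB_be d0 d1 hq hqp hp hpq hw hφ
      have g1 := g.1.norm_sin_lt hs0
      have g2 := g.2.norm_sin_lt hs0
      have e1 : ((8 / 3 * v : ℝ) : ℂ) + -((Real.pi * p / 3 : ℝ) : ℂ) + (φ : ℂ) =
          ((8 / 3 * v + -(Real.pi * p / 3) + φ : ℝ) : ℂ) := by push_cast; ring
      have e2 : ((8 / 3 * v : ℝ) : ℂ) + ((Real.pi * q / 3 : ℝ) : ℂ) + (φ : ℂ) =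
          ((8 / 3 * v + Real.pi * q / 3 + φ : ℝ) : ℂ) := by push_cast; ring
      rw [e1, ← Complex.ofReal_sin, Complex.norm_real, Real.norm_eq_abs] at g1
      rw [e2, ← Complex.ofReal_sin, Complex.norm_real, Real.norm_eq_abs] at g2
      exact ⟨g1, g2⟩)
  rw [sub_zero, h, Complex.ofReal_zero, mul_zero, Complex.ofReal_zero] at key
  refine (mul_eq_zero.1 key).resolve_left ?_
  have h3 : (1 / ch t : ℝ) ≠ 0 := by positivity
  exact_mod_cast h3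

/-- the zeros over the compact set -/
theorem hex_KB {de : ℝ} (d0 : 0 < de) (d1 : de ≤ 1 / 2) {a b p q P T : ℝ} (ha : 0 ≤ a) (hb : 0 ≤ b)
    (hab : a + b = 1) (hq : 0 ≤ q) (hqp : q ≤ p) (hp : p ≤ 1 - de) (hpq : p + q ≤ 1)
    (hbal : a * Real.sin (Real.pi * p / 3) = b * Real.sin (Real.pi * q / 3)) (hP0 : 0 ≤ P)
    (hP1 : P ≤ 1) (hPT : P ^ 2 + T ^ 2 = 1) : ∃ v ∈ Icc (0 : ℝ) v0,
      FH (mkP a b ((Real.pi * p / 3 : ℝ) : ℂ) ((Real.pi * q / 3 : ℝ) : ℂ) 0 0 P T,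
        ((8 / 3 * v : ℝ) : ℂ)) = 0 := by
  have hpi := Real.pi_pos
  rcases eq_or_lt_of_le hP0 with h | h
  · refine ⟨0, ⟨le_rfl, v0_pos.le⟩, ?_⟩
    have hb2 : (a : ℂ) * Complex.sin ((Real.pi * p / 3 : ℝ) : ℂ) =
        (b : ℂ) * Complex.sin ((Real.pi * q / 3 : ℝ) : ℂ) := by
      exact_mod_cast hbal
    have g := (mul_GF_zero (E := ℂ) (a := fun _ => (a : ℂ)) (b := fun _ => (b : ℂ))
      (p := fun _ => ((Real.pi * p / 3 : ℝ) : ℂ)) (q := fun _ => ((Real.pi * q / 3 : ℝ) : ℂ))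
      (e := 0) hb2 0).2
    unfold GF HG at g
    simp only [Pi.neg_apply] at g
    rw [FH_zero_height, ← h, mul_zero, Complex.ofReal_zero]
    exact g
  · obtain ⟨t, e1, e2⟩ := exists_time h hP1 hPT
    rcases eq_or_lt_of_le hb with hb0 | hb0
    · refine ⟨0, ⟨le_rfl, v0_pos.le⟩, ?_⟩
      have ha1 : a = 1 := by linarith
      rw [← hb0, ha1, zero_mul, one_mul] at hbal
      have hp4 : Real.pi * p ≤ Real.pi * 1 := mul_le_mul_of_nonneg_left (by linarith) hpi.le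
      have hp5 : 0 ≤ Real.pi * p := mul_nonneg hpi.le (hq.trans hqp)
      have hp0 : Real.pi * p / 3 = 0 :=
        (Real.sin_eq_zero_iff_of_lt_of_lt (by linarith) (by linarith)).1 hbal
      rw [FH_zero_height, ← hb0, ha1, hp0, mul_zero, Complex.ofReal_zero, Complex.ofReal_one,
        zero_mul, one_mul, add_zero, neg_zero, add_zero, zero_add, zero_add]
      have e3 : ((-(Real.pi / 6) : ℝ) : ℂ) = -((Real.pi / 6 : ℝ) : ℂ) := by push_cast; ring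
      rw [e3, Complex.sin_neg, Th_neg]
      ring
    · have B : PLT.Bal2 a b p q := ⟨hq, hqp, hpq, by linarith, ha, hb0, hbal⟩
      obtain ⟨v, hv, h0⟩ := B.exists_curve2 t
      refine ⟨v, hv, ?_⟩
      rw [e1, e2]
      exact FH_real_zero d0 d1 hq hqp hp hpq hv t h0

/-! ### one row near `T = 1` -/

theorem RW_neg (m x s P T w : ℂ) : RW m x (-s) P (-T) w = RW m x s P T w := by
  have : ka (-s) (-T) = ka s T := by
    unfold ka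
    rw [Complex.cosh_neg, Complex.sinh_neg]
    ring
  unfold RW
  rw [this]

theorem norm_Th_sub {Q y : ℂ} {c : ℝ} (hc : 0 < c) (hy : ‖y‖ ≤ 2) (h : ‖Q * y‖ ^ 2 ≤ 1 - c ^ 2) :
    ‖Th Q y - y - Q ^ 2 * y ^ 3 / 3‖ ≤ 32 / c ^ 2 * ‖Q‖ ^ 4 := by
  by_cases hQ : Q = 0
  · rw [hQ, Th_zero]
    simp
  · have h1 := norm_R5_two hc hy h
    have e : Q * (Th Q y - y - Q ^ 2 * y ^ 3 / 3) = R5 (Q * y) := by
      rw [mul_sub, mul_sub, mul_Th]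
      unfold R5
      ring
    have hQ0 : 0 < ‖Q‖ := norm_pos_iff.2 hQ
    rw [← e, norm_mul] at h1
    have h2 : ‖Q‖ * ‖Th Q y - y - Q ^ 2 * y ^ 3 / 3‖ ≤ ‖Q‖ * (32 / c ^ 2 * ‖Q‖ ^ 4) := by
      refine h1.trans (le_of_eq ?_)
      ring
    exact le_of_mul_le_mul_left h2 hQ0

theorem sin_pair (X : ℂ) : ∃ S : ℂ,
    Complex.sin (X + ((-(Real.pi / 6) : ℝ) : ℂ)) + Complex.sin (X + ((Real.pi / 6 : ℝ) : ℂ)) = S ∧
    Complex.sin (X + ((-(Real.pi / 6) : ℝ) : ℂ)) ^ 3 +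
      Complex.sin (X + ((Real.pi / 6 : ℝ) : ℂ)) ^ 3 = 3 / 4 * S := by
  refine ⟨_, rfl, ?_⟩
  have e1 : X + ((-(Real.pi / 6) : ℝ) : ℂ) = X - Real.pi / 6 := by push_cast; ring
  have e2 : X + ((Real.pi / 6 : ℝ) : ℂ) = X + Real.pi / 6 := by push_cast; ring
  rw [e1, e2, Complex.sin_sub, Complex.sin_add, sin_pi_six]
  obtain ⟨c, hc⟩ : ∃ c, c = Complex.cos (Real.pi / 6) := ⟨_, rfl⟩
  have hcc : c ^ 2 = 3 / 4 := by
    rw [hc]
    exact cos_pi_six_sq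
  rw [← hc]
  have h := Complex.sin_sq_add_cos_sq X
  linear_combination (2 * Complex.sin X ^ 3 * c) * hcc + (3 / 2 * c * Complex.sin X) * h

theorem ka_one (s : ℂ) : ka s 1 = Complex.exp (-s) := by
  unfold ka
  rw [one_mul, Complex.cosh_sub_sinh]

theorem ka_exp (s T : ℂ) : ka s T * Complex.exp s = 1 + (1 - T) * ((Complex.exp s ^ 2 - 1) / 2) := by
  unfold ka Complex.cosh Complex.sinh
  have h : Complex.exp (-s) * Complex.exp s = 1 := by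
    rw [← Complex.exp_add]
    simp
  linear_combination ((1 + T) / 2) * h

/-- **one row near `T = 1`** -/
theorem norm_RW_sub {m x s P T w : ℂ} {c : ℝ} (hc : 0 < c) (hPT : P ^ 2 + T ^ 2 = 1)
    (hm : ‖m‖ ≤ 2) (hs : ‖s‖ ≤ 1) (hT : ‖T‖ ≤ 2) (hk : 1 / 2 ≤ ‖ka s T‖)
    (hS : ∀ φ ∈ ({-(Real.pi / 6), Real.pi / 6} : Set ℝ), ‖Complex.sin (w + x + φ)‖ ≤ 2 ∧
      ‖P / ka s T * Complex.sin (w + x + φ)‖ ^ 2 ≤ 1 - c ^ 2) :
    ‖RW m x s P T w - (1 + (1 - T) / 2) * RW m x s 0 1 w‖ ≤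
      (1000000 + 40000 / c ^ 2) * ‖1 - T‖ ^ 2 := by
  obtain ⟨k, hkk⟩ : ∃ k, k = ka s T := ⟨_, rfl⟩
  obtain ⟨h, hh⟩ : ∃ h, h = 1 - T := ⟨_, rfl⟩
  obtain ⟨E, hE⟩ : ∃ E, E = Complex.exp s := ⟨_, rfl⟩
  obtain ⟨σ, hσ⟩ : ∃ σ, σ = (E ^ 2 - 1) / 2 := ⟨_, rfl⟩
  obtain ⟨y1, hy1⟩ : ∃ y1, y1 = Complex.sin (w + x + ((-(Real.pi / 6) : ℝ) : ℂ)) := ⟨_, rfl⟩
  obtain ⟨y2, hy2⟩ : ∃ y2, y2 = Complex.sin (w + x + ((Real.pi / 6 : ℝ) : ℂ)) := ⟨_, rfl⟩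
  obtain ⟨S, hS1, hS3⟩ := sin_pair (w + x)
  rw [← hy1, ← hy2] at hS1 hS3
  have g1 := hS (-(Real.pi / 6)) (by simp)
  have g2 := hS (Real.pi / 6) (by simp)
  rw [← hy1, ← hkk] at g1
  rw [← hy2, ← hkk] at g2
  rw [← hkk] at hk
  have hk0 : k ≠ 0 := by
    intro h0
    rw [h0, norm_zero] at hk
    linarith
  have hE0 : E ≠ 0 := by
    rw [hE]
    exact Complex.exp_ne_zero s
  have hkE : k * E = 1 + h * σ := by
    rw [hkk, hE, hh, hσ, hE]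
    exact ka_exp s T
  have hEn : ‖E‖ ≤ 3 := by
    rw [hE, Complex.norm_exp]
    have h1 : s.re ≤ 1 := (Complex.re_le_norm s).trans hs
    have h2 := Real.exp_le_exp.2 h1
    have h3 := Real.exp_one_lt_d9
    linarith
  have hEi : ‖E⁻¹‖ ≤ 3 := by
    rw [hE, ← Complex.exp_neg, Complex.norm_exp]
    have h1 : (-s).re ≤ 1 := (Complex.re_le_norm (-s)).trans (by rwa [norm_neg])
    have h2 := Real.exp_le_exp.2 h1
    have h3 := Real.exp_one_lt_d9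
    linarith
  have hσn : ‖σ‖ ≤ 5 := by
    rw [hσ, norm_div]
    have h1 : ‖E ^ 2 - 1‖ ≤ 3 ^ 2 + 1 := by
      refine (norm_sub_le _ _).trans ?_
      rw [norm_pow, norm_one]
      have := pow_le_pow_left₀ (norm_nonneg E) hEn 2
      linarith
    have h2 : ‖(2 : ℂ)‖ = 2 := by norm_num
    rw [h2]
    linarith
  have hhn : ‖h‖ ≤ 3 := by
    rw [hh]
    refine (norm_sub_le _ _).trans ?_
    rw [norm_one]
    linarith
  have hP2 : P ^ 2 = h * (2 - h) := by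
    rw [hh]
    linear_combination hPT
  obtain ⟨Q, hQ⟩ : ∃ Q, Q = P / k := ⟨_, rfl⟩
  rw [← hQ] at g1 g2
  have r1 := norm_Th_sub hc g1.1 g1.2
  have r2 := norm_Th_sub hc g2.1 g2.2
  obtain ⟨R1, hR1⟩ : ∃ R1, R1 = Th Q y1 - y1 - Q ^ 2 * y1 ^ 3 / 3 := ⟨_, rfl⟩
  obtain ⟨R2, hR2⟩ : ∃ R2, R2 = Th Q y2 - y2 - Q ^ 2 * y2 ^ 3 / 3 := ⟨_, rfl⟩
  rw [← hR1] at r1
  rw [← hR2] at r2
  have e0 : RW m x s 0 1 w = m * E * S := by
    unfold RW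
    rw [ka_one, zero_div, Th_zero, Th_zero, ← hy1, ← hy2, hS1, Complex.exp_neg, ← hE, div_inv_eq_mul]
  have e1 : RW m x s P T w = m / k * (S + Q ^ 2 * (3 / 4 * S) / 3 + (R1 + R2)) := by
    unfold RW
    rw [← hkk, ← hQ, ← hy1, ← hy2, hR1, hR2, ← hS3, ← hS1]
    ring
  have hk3 : ‖k⁻¹‖ ≤ 2 := by
    rw [norm_inv]
    have := inv_anti₀ (by norm_num : (0 : ℝ) < 1 / 2) hk
    refine this.trans (le_of_eq (by norm_num))
  have e2 : RW m x s P T w - (1 + (1 - T) / 2) * RW m x s 0 1 w =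
      m * S * (k⁻¹ ^ 3 / 4 * (E⁻¹ ^ 2 * (h ^ 2 * (-8 * σ ^ 2 - 8 * σ - 1) - h ^ 3 * (4 * σ ^ 3 + 6 * σ ^ 2) -
        2 * h ^ 4 * σ ^ 3))) + m * k⁻¹ * (R1 + R2) := by
    rw [e0, e1, ← hh]
    have e3 : h ^ 2 * (-8 * σ ^ 2 - 8 * σ - 1) - h ^ 3 * (4 * σ ^ 3 + 6 * σ ^ 2) - 2 * h ^ 4 * σ ^ 3 =
        (4 * k ^ 2 + P ^ 2 - 4 * k ^ 3 * E * (1 + h / 2)) * E ^ 2 := by
      have hE2 : E ^ 2 = 1 + 2 * σ := by
        rw [hσ]
        ring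
      have a1 : 4 * k ^ 2 * E ^ 2 = 4 * (1 + h * σ) ^ 2 := by rw [← hkE]; ring
      have a2 : 4 * k ^ 3 * E * (1 + h / 2) * E ^ 2 = 4 * (1 + h * σ) ^ 3 * (1 + h / 2) := by
        rw [← hkE]
        ring
      have a3 : P ^ 2 * E ^ 2 = h * (2 - h) * (1 + 2 * σ) := by rw [hP2, hE2]
      have a4 : (4 * k ^ 2 + P ^ 2 - 4 * k ^ 3 * E * (1 + h / 2)) * E ^ 2 =
          4 * k ^ 2 * E ^ 2 + P ^ 2 * E ^ 2 - 4 * k ^ 3 * E * (1 + h / 2) * E ^ 2 := by ring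
      rw [a4, a1, a2, a3]
      ring
    rw [e3, hQ]
    field_simp
    ring
  rw [e2]
  have hSn : ‖S‖ ≤ 4 := by
    rw [← hS1]
    refine (norm_add_le _ _).trans ?_
    linarith [g1.1, g2.1]
  have hQn : ‖Q‖ ^ 4 ≤ 144 * ‖h‖ ^ 2 := by
    have h1 : ‖Q‖ ≤ 2 * ‖P‖ := by
      rw [hQ, div_eq_mul_inv, norm_mul, mul_comm]
      exact mul_le_mul_of_nonneg_right hk3 (norm_nonneg _)
    have h2 : ‖P‖ ^ 2 ≤ 3 * ‖h‖ := by
      rw [← norm_pow, hP2, norm_mul, mul_comm]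
      refine mul_le_mul_of_nonneg_right ?_ (norm_nonneg _)
      rw [hh, show (2 : ℂ) - (1 - T) = 1 + T by ring]
      refine (norm_add_le _ _).trans ?_
      rw [norm_one]
      linarith
    calc ‖Q‖ ^ 4 ≤ (2 * ‖P‖) ^ 4 := pow_le_pow_left₀ (norm_nonneg _) h1 4
      _ = 16 * (‖P‖ ^ 2) ^ 2 := by ring
      _ ≤ 16 * (3 * ‖h‖) ^ 2 :=
          mul_le_mul_of_nonneg_left (pow_le_pow_left₀ (by positivity) h2 2) (by norm_num)
      _ = 144 * ‖h‖ ^ 2 := by ring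
  have hpol : ‖h ^ 2 * (-8 * σ ^ 2 - 8 * σ - 1) - h ^ 3 * (4 * σ ^ 3 + 6 * σ ^ 2) -
      2 * h ^ 4 * σ ^ 3‖ ≤ 4441 * ‖h‖ ^ 2 := by
    have e4 : h ^ 2 * (-8 * σ ^ 2 - 8 * σ - 1) - h ^ 3 * (4 * σ ^ 3 + 6 * σ ^ 2) -
        2 * h ^ 4 * σ ^ 3 = h ^ 2 * (-8 * σ ^ 2 - 8 * σ - 1 - h * (4 * σ ^ 3 + 6 * σ ^ 2) -
        2 * h ^ 2 * σ ^ 3) := by ring
    rw [e4, norm_mul, norm_pow, mul_comm]
    refine mul_le_mul_of_nonneg_right ?_ (by positivity)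
    have s2 := pow_le_pow_left₀ (norm_nonneg σ) hσn 2
    have s3 := pow_le_pow_left₀ (norm_nonneg σ) hσn 3
    have t2 := pow_le_pow_left₀ (norm_nonneg h) hhn 2
    have n1 : ‖-8 * σ ^ 2 - 8 * σ - 1‖ ≤ 8 * ‖σ‖ ^ 2 + 8 * ‖σ‖ + 1 := by
      refine (norm_sub_le _ _).trans ?_
      rw [norm_one]
      refine add_le_add_left ((norm_sub_le _ _).trans (le_of_eq ?_)) 1
      rw [norm_mul, norm_mul, norm_pow, norm_neg]
      norm_num
    have n2 : ‖4 * σ ^ 3 + 6 * σ ^ 2‖ ≤ 4 * ‖σ‖ ^ 3 + 6 * ‖σ‖ ^ 2 := by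
      refine (norm_add_le _ _).trans (le_of_eq ?_)
      rw [norm_mul, norm_mul, norm_pow, norm_pow]
      norm_num
    have n3 : ‖2 * h ^ 2 * σ ^ 3‖ = 2 * ‖h‖ ^ 2 * ‖σ‖ ^ 3 := by
      rw [norm_mul, norm_mul, norm_pow, norm_pow]
      norm_num
    refine (norm_sub_le _ _).trans ?_
    rw [n3]
    have n4 := norm_sub_le (-8 * σ ^ 2 - 8 * σ - 1) (h * (4 * σ ^ 3 + 6 * σ ^ 2))
    rw [norm_mul h] at n4
    have n5 : ‖h‖ * ‖4 * σ ^ 3 + 6 * σ ^ 2‖ ≤ 3 * (4 * 5 ^ 3 + 6 * 5 ^ 2) :=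
      mul_le_mul hhn (n2.trans (by linarith)) (norm_nonneg _) (by norm_num)
    have n6 : ‖h‖ ^ 2 * ‖σ‖ ^ 3 ≤ 3 ^ 2 * 5 ^ 3 := mul_le_mul t2 s3 (by positivity) (by norm_num)
    linarith
  have f1 : ‖m * S * (k⁻¹ ^ 3 / 4 * (E⁻¹ ^ 2 * (h ^ 2 * (-8 * σ ^ 2 - 8 * σ - 1) -
      h ^ 3 * (4 * σ ^ 3 + 6 * σ ^ 2) - 2 * h ^ 4 * σ ^ 3)))‖ ≤ 2 * 4 * (2 ^ 3 / 4 * (3 ^ 2 *
        (4441 * ‖h‖ ^ 2))) := by
    rw [norm_mul, norm_mul, norm_mul, norm_mul, norm_div, norm_pow, norm_pow]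
    have h4 : ‖(4 : ℂ)‖ = 4 := by norm_num
    rw [h4]
    gcongr
  have f2 : ‖m * k⁻¹ * (R1 + R2)‖ ≤ 2 * 2 * (32 / c ^ 2 * (144 * ‖h‖ ^ 2) +
      32 / c ^ 2 * (144 * ‖h‖ ^ 2)) := by
    rw [norm_mul, norm_mul]
    have hr : ‖R1 + R2‖ ≤ 32 / c ^ 2 * (144 * ‖h‖ ^ 2) + 32 / c ^ 2 * (144 * ‖h‖ ^ 2) := by
      refine (norm_add_le _ _).trans (add_le_add (r1.trans ?_) (r2.trans ?_))
      · exact mul_le_mul_of_nonneg_left hQn (by positivity)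
      · exact mul_le_mul_of_nonneg_left hQn (by positivity)
    gcongr
  refine (norm_add_le _ _).trans ((add_le_add f1 f2).trans ?_)
  rw [← hh]
  have hc2 : 0 < c ^ 2 := by positivity
  have e5 : 2 * 4 * (2 ^ 3 / 4 * (3 ^ 2 * (4441 * ‖h‖ ^ 2))) + 2 * 2 * (32 / c ^ 2 * (144 * ‖h‖ ^ 2) +
      32 / c ^ 2 * (144 * ‖h‖ ^ 2)) = (639504 + 36864 / c ^ 2) * ‖h‖ ^ 2 := by
    ring
  rw [e5]
  refine mul_le_mul_of_nonneg_right ?_ (by positivity)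
  have : 36864 / c ^ 2 ≤ 40000 / c ^ 2 := div_le_div_of_nonneg_right (by norm_num) hc2.le
  linarith

/-! ### conjugation -/

theorem Lc_conj {x : ℂ} (hx : ‖x‖ < 1) : Lc (conj x) = conj (Lc x) := by
  have h1 := re_one_add_pos hx
  have h2 := re_one_sub_pos hx
  have a1 : (1 + x).arg ≠ Real.pi := by
    rw [Ne, Complex.arg_eq_pi_iff]
    rintro ⟨h, -⟩
    linarith
  have a2 : (1 - x).arg ≠ Real.pi := by
    rw [Ne, Complex.arg_eq_pi_iff]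
    rintro ⟨h, -⟩
    linarith
  unfold Lc
  have e1 : 1 + conj x = conj (1 + x) := by simp
  have e2 : 1 - conj x = conj (1 - x) := by simp
  rw [e1, e2, Complex.log_conj _ a1, Complex.log_conj _ a2, map_div₀, map_sub, Complex.conj_ofNat]

theorem Th_conj {p y : ℂ} (h : ‖p * y‖ < 1) : Th (conj p) (conj y) = conj (Th p y) := by
  by_cases hp : p = 0
  · rw [hp, map_zero, Th_zero, Th_zero]
  · have hp2 : conj p ≠ 0 := by
      intro h0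
      apply hp
      have := congrArg conj h0
      simpa using this
    apply mul_left_cancel₀ hp2
    rw [mul_Th, ← map_mul, Lc_conj h, ← mul_Th, map_mul]

theorem RW_conj {m x s P T : ℝ} {w : ℂ} (h : ∀ φ ∈ ({-(Real.pi / 6), Real.pi / 6} : Set ℝ),
    ‖(P : ℂ) / ka s T * Complex.sin (w + x + φ)‖ < 1) :
    RW m x s P T (conj w) = conj (RW m x s P T w) := by
  have hk : conj (ka (s : ℂ) (T : ℂ)) = ka (s : ℂ) (T : ℂ) := by
    unfold ka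
    rw [map_sub, map_mul, ← Complex.cosh_conj, ← Complex.sinh_conj, Complex.conj_ofReal,
      Complex.conj_ofReal]
  have ht : ∀ φ ∈ ({-(Real.pi / 6), Real.pi / 6} : Set ℝ),
      Th ((P : ℂ) / ka s T) (Complex.sin (conj w + x + φ)) =
        conj (Th ((P : ℂ) / ka s T) (Complex.sin (w + x + φ))) := by
    intro φ hφ
    rw [← Th_conj (h φ hφ), map_div₀, hk, Complex.conj_ofReal, ← Complex.sin_conj, map_add, map_add,
      Complex.conj_ofReal, Complex.conj_ofReal]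
  have h1 := ht (-(Real.pi / 6)) (by simp)
  have h2 := ht (Real.pi / 6) (by simp)
  unfold RW
  rw [h1, h2, map_mul, map_div₀, hk, Complex.conj_ofReal, map_add]

end PLT.CA

end
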