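import Pool.Agent.PLT.CurveH2

/-!
# The static curve of two rows at complex places: the analytic function
-/

set_option autoImplicit false

noncomputable section

open Filter Topology Set NUMF
open scoped ContDiff ComplexConjugate

namespace PLT.CA

/-- estimates at a point of the parameter space and an angle -/
structure Gd (c : ℝ) (x : PE) (w : ℂ) : Prop where
  a2 : ‖x.1.1.1‖ ≤ 2
  b2 : ‖x.1.1.2‖ ≤ 2
  h0 : ‖x.1.2.2.1‖ ≤ 1
  h1 : ‖x.1.2.2.2‖ ≤ 1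
  T2 : ‖x.2.2‖ ≤ 2
  k0 : 1 / 2 ≤ ‖ka x.1.2.2.1 x.2.2‖
  k1 : 1 / 2 ≤ ‖ka x.1.2.2.2 x.2.2‖
  s0 : ∀ φ ∈ ({-(Real.pi / 6), Real.pi / 6} : Set ℝ),
    ‖Complex.sin (w + -x.1.2.1.1 + φ)‖ ^ 2 ≤ 1 - c ^ 2 ∧
      ‖x.2.1 / ka x.1.2.2.1 x.2.2 * Complex.sin (w + -x.1.2.1.1 + φ)‖ ^ 2 ≤ 1 - c ^ 2
  s1 : ∀ φ ∈ ({-(Real.pi / 6), Real.pi / 6} : Set ℝ),
    ‖Complex.sin (w + x.1.2.1.2 + φ)‖ ^ 2 ≤ 1 - c ^ 2 ∧
      ‖x.2.1 / ka x.1.2.2.2 x.2.2 * Complex.sin (w + x.1.2.1.2 + φ)‖ ^ 2 ≤ 1 - c ^ 2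

theorem continuous_ka {E : Type*} [TopologicalSpace E] {f g : E → ℂ} (hf : Continuous f)
    (hg : Continuous g) : Continuous (fun z => ka (f z) (g z)) := by
  unfold ka
  exact (Complex.continuous_cosh.comp hf).sub (hg.mul (Complex.continuous_sinh.comp hf))

/-- the estimates of one row hold near a point -/
theorem row_near {E : Type*} [TopologicalSpace E] {f g P T : E → ℂ} (hf : Continuous f)
    (hg : Continuous g) (hP : Continuous P) (hT : Continuous T) {z : E} {s : ℝ} (hs : 0 < s)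
    (h0 : f z = 0) (hP0 : ‖P z‖ ≤ 1) (hg2 : Be s (g z)) :
    ∀ᶠ z in 𝓝 z, ‖Complex.sin (g z)‖ ^ 2 ≤ 1 - (s / 2) ^ 2 ∧
      ‖P z / ka (f z) (T z) * Complex.sin (g z)‖ ^ 2 ≤ 1 - (s / 2) ^ 2 := by
  have cs : Continuous (fun z => Complex.sin (g z)) := Complex.continuous_sin.comp hg
  have ck := continuous_ka hf hT
  have n1 := hg2.normSq_sin hs
  have hk : ka (f z) (T z) = 1 := by rw [h0, ka_zero]
  have v1 := (cs.continuousAt (x := z)).norm.pow 2 |>.eventually_lt continuousAt_const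
    (show ‖Complex.sin (g z)‖ ^ 2 < 1 - (s / 2) ^ 2 by nlinarith)
  have cq : ContinuousAt (fun z => P z / ka (f z) (T z) * Complex.sin (g z)) z :=
    ((hP.continuousAt).div ck.continuousAt (by rw [hk]; exact one_ne_zero)).mul cs.continuousAt
  have v2 := cq.norm.pow 2 |>.eventually_lt continuousAt_const
    (show ‖P z / ka (f z) (T z) * Complex.sin (g z)‖ ^ 2 < 1 - (s / 2) ^ 2 by
      rw [hk, div_one, norm_mul, mul_pow]
      have h3 : ‖P z‖ ^ 2 ≤ 1 := by nlinarith [norm_nonneg (P z)]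
      have h4 : ‖P z‖ ^ 2 * ‖Complex.sin (g z)‖ ^ 2 ≤ 1 * ‖Complex.sin (g z)‖ ^ 2 :=
        mul_le_mul_of_nonneg_right h3 (by positivity)
      nlinarith)
  filter_upwards [v1, v2] with x x1 x2
  exact ⟨x1.le, x2.le⟩

theorem exists_Gd {de : ℝ} (d0 : 0 < de) (d1 : de ≤ 1 / 2) : ∃ U : Set PE, IsOpen U ∧ KB de ⊆ U ∧
    ∀ x ∈ U, ∀ w ∈ closure (Dw de), Gd (Real.sin (Real.pi * de / 6) / 2) x w := by
  have hpi := Real.pi_pos
  obtain ⟨s, hs⟩ : ∃ s, s = Real.sin (Real.pi * de / 6) := ⟨_, rfl⟩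
  have hs0 : 0 < s := by
    rw [hs]
    exact Real.sin_pos_of_pos_of_lt_pi (by positivity) (by nlinarith)
  have hev : ∀ k ∈ KB de, ∀ w ∈ closure (Dw de), ∀ᶠ z : PE × ℂ in 𝓝 (k, w), Gd (s / 2) z.1 z.2 := by
    intro k hk w hw
    obtain ⟨a, b, p, q, P, T, ha, hb, hab, hq0, hqp, hp, hpq, -, hP0, hP1, hPT, rfl⟩ := KB_cases hk
    obtain ⟨k, hkk⟩ : ∃ k, k = mkP a b ((Real.pi * p / 3 : ℝ) : ℂ) ((Real.pi * q / 3 : ℝ) : ℂ) 0 0 P T :=
      ⟨_, rfl⟩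
    have hbe := fun φ hφ => KB_be d0 d1 hq0 hqp hp hpq hw (φ := φ) hφ
    rw [← hs] at hbe
    rw [← hkk]
    have e1 : k.1.1.1 = a := by rw [hkk]; rfl
    have e2 : k.1.1.2 = b := by rw [hkk]; rfl
    have e3 : k.1.2.1.1 = ((Real.pi * p / 3 : ℝ) : ℂ) := by rw [hkk]; rfl
    have e4 : k.1.2.1.2 = ((Real.pi * q / 3 : ℝ) : ℂ) := by rw [hkk]; rfl
    have e5 : k.1.2.2.1 = 0 := by rw [hkk]; rfl
    have e6 : k.1.2.2.2 = 0 := by rw [hkk]; rfl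
    have e7 : k.2.1 = P := by rw [hkk]; rfl
    have e8 : k.2.2 = T := by rw [hkk]; rfl
    have hT : |T| ≤ 1 := by
      rw [← sq_le_one_iff_abs_le_one]
      nlinarith
    have v1 : ∀ᶠ z : PE × ℂ in 𝓝 (k, w), ‖z.1.1.1.1‖ < 2 :=
      ContinuousAt.eventually_lt (by fun_prop) continuousAt_const (by
        show ‖k.1.1.1‖ < 2
        rw [e1, Complex.norm_real, Real.norm_eq_abs, abs_of_nonneg ha]
        linarith)
    have v2 : ∀ᶠ z : PE × ℂ in 𝓝 (k, w), ‖z.1.1.1.2‖ < 2 :=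
      ContinuousAt.eventually_lt (by fun_prop) continuousAt_const (by
        show ‖k.1.1.2‖ < 2
        rw [e2, Complex.norm_real, Real.norm_eq_abs, abs_of_nonneg hb]
        linarith)
    have v3 : ∀ᶠ z : PE × ℂ in 𝓝 (k, w), ‖z.1.1.2.2.1‖ < 1 :=
      ContinuousAt.eventually_lt (by fun_prop) continuousAt_const (by
        show ‖k.1.2.2.1‖ < 1
        rw [e5, norm_zero]
        exact one_pos)
    have v4 : ∀ᶠ z : PE × ℂ in 𝓝 (k, w), ‖z.1.1.2.2.2‖ < 1 :=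
      ContinuousAt.eventually_lt (by fun_prop) continuousAt_const (by
        show ‖k.1.2.2.2‖ < 1
        rw [e6, norm_zero]
        exact one_pos)
    have v5 : ∀ᶠ z : PE × ℂ in 𝓝 (k, w), ‖z.1.2.2‖ < 2 :=
      ContinuousAt.eventually_lt (by fun_prop) continuousAt_const (by
        show ‖k.2.2‖ < 2
        rw [e8, Complex.norm_real, Real.norm_eq_abs]
        linarith)
    have ck0 : Continuous (fun z : PE × ℂ => ka z.1.1.2.2.1 z.1.2.2) :=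
      continuous_ka (by fun_prop) (by fun_prop)
    have ck1 : Continuous (fun z : PE × ℂ => ka z.1.1.2.2.2 z.1.2.2) :=
      continuous_ka (by fun_prop) (by fun_prop)
    have v6 : ∀ᶠ z : PE × ℂ in 𝓝 (k, w), 1 / 2 < ‖ka z.1.1.2.2.1 z.1.2.2‖ :=
      ck0.norm.continuousAt.eventually_const_lt (by
        show 1 / 2 < ‖ka k.1.2.2.1 k.2.2‖
        rw [e5, ka_zero, norm_one]
        norm_num)
    have v7 : ∀ᶠ z : PE × ℂ in 𝓝 (k, w), 1 / 2 < ‖ka z.1.1.2.2.2 z.1.2.2‖ :=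
      ck1.norm.continuousAt.eventually_const_lt (by
        show 1 / 2 < ‖ka k.1.2.2.2 k.2.2‖
        rw [e6, ka_zero, norm_one]
        norm_num)
    have hPn : ‖(P : ℂ)‖ ≤ 1 := by
      rw [Complex.norm_real, Real.norm_eq_abs, abs_of_nonneg hP0]
      exact hP1
    have v8 : ∀ φ ∈ ({-(Real.pi / 6), Real.pi / 6} : Set ℝ), ∀ᶠ z : PE × ℂ in 𝓝 (k, w),
        ‖Complex.sin (z.2 + -z.1.1.2.1.1 + φ)‖ ^ 2 ≤ 1 - (s / 2) ^ 2 ∧
        ‖z.1.2.1 / ka z.1.1.2.2.1 z.1.2.2 * Complex.sin (z.2 + -z.1.1.2.1.1 + φ)‖ ^ 2 ≤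
          1 - (s / 2) ^ 2 := by
      intro φ hφ
      refine row_near (f := fun z : PE × ℂ => z.1.1.2.2.1) (g := fun z => z.2 + -z.1.1.2.1.1 + φ)
        (P := fun z => z.1.2.1) (T := fun z => z.1.2.2) (by fun_prop) (by fun_prop) (by fun_prop)
        (by fun_prop) hs0 e5 ?_ ?_
      · show ‖k.2.1‖ ≤ 1
        rw [e7]
        exact hPn
      · show Be s (w + -k.1.2.1.1 + φ)
        rw [e3]
        exact (hbe φ hφ).1
    have v9 : ∀ φ ∈ ({-(Real.pi / 6), Real.pi / 6} : Set ℝ), ∀ᶠ z : PE × ℂ in 𝓝 (k, w),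
        ‖Complex.sin (z.2 + z.1.1.2.1.2 + φ)‖ ^ 2 ≤ 1 - (s / 2) ^ 2 ∧
        ‖z.1.2.1 / ka z.1.1.2.2.2 z.1.2.2 * Complex.sin (z.2 + z.1.1.2.1.2 + φ)‖ ^ 2 ≤
          1 - (s / 2) ^ 2 := by
      intro φ hφ
      refine row_near (f := fun z : PE × ℂ => z.1.1.2.2.2) (g := fun z => z.2 + z.1.1.2.1.2 + φ)
        (P := fun z => z.1.2.1) (T := fun z => z.1.2.2) (by fun_prop) (by fun_prop) (by fun_prop)
        (by fun_prop) hs0 e6 ?_ ?_
      · show ‖k.2.1‖ ≤ 1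
        rw [e7]
        exact hPn
      · show Be s (w + k.1.2.1.2 + φ)
        rw [e4]
        exact (hbe φ hφ).2
    have v8a := v8 (-(Real.pi / 6)) (by simp)
    have v8b := v8 (Real.pi / 6) (by simp)
    have v9a := v9 (-(Real.pi / 6)) (by simp)
    have v9b := v9 (Real.pi / 6) (by simp)
    filter_upwards [v1, v2, v3, v4, v5, v6, v7, v8a, v8b, v9a, v9b] with z z1 z2 z3 z4 z5 z6 z7 y1
      y2 y3 y4
    refine ⟨z1.le, z2.le, z3.le, z4.le, z5.le, z6.le, z7.le, fun φ hφ => ?_, fun φ hφ => ?_⟩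
    · rcases hφ with h | h
      · rw [h]
        exact y1
      · rw [mem_singleton_iff.1 h]
        exact y2
    · rcases hφ with h | h
      · rw [h]
        exact y3
      · rw [mem_singleton_iff.1 h]
        exact y4
  have hDk : IsCompact (closure (Dw de)) := by
    have hk0 : 0 < kap s := Real.arsinh_pos_iff.2 (by positivity)
    unfold Dw
    rw [← hs, Complex.closure_reProdIm, closure_Ioo (by nlinarith), closure_Ioo (by linarith)]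
    exact isCompact_Icc.reProdIm isCompact_Icc
  obtain ⟨N, D', hN, -, hKN, hDD, hsub⟩ := generalized_tube_lemma (isCompact_KB de) hDk
    (n := interior {z : PE × ℂ | Gd (s / 2) z.1 z.2}) isOpen_interior (by
      rintro ⟨k, v⟩ ⟨hk, hv⟩
      rw [mem_interior_iff_mem_nhds]
      exact hev k hk v hv)
  rw [← hs]
  refine ⟨N, hN, hKN, fun x hx w hw => ?_⟩
  have h : (x, w) ∈ {z : PE × ℂ | Gd (s / 2) z.1 z.2} :=
    interior_subset (hsub (mk_mem_prod hx (hDD hw)))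
  exact h

theorem norm_RW_add {m x s P T w : ℂ} {c : ℝ} (hc : 0 < c) (hPT : P ^ 2 + T ^ 2 = 1)
    (hm : ‖m‖ ≤ 2) (hs : ‖s‖ ≤ 1) (hT : ‖T‖ ≤ 2) (hk : 1 / 2 ≤ ‖ka s T‖)
    (hS : ∀ φ ∈ ({-(Real.pi / 6), Real.pi / 6} : Set ℝ), ‖Complex.sin (w + x + φ)‖ ≤ 2 ∧
      ‖P / ka s T * Complex.sin (w + x + φ)‖ ^ 2 ≤ 1 - c ^ 2) :
    ‖RW m x s P T w - (1 + (1 + T) / 2) * RW m x s 0 (-1) w‖ ≤
      (1000000 + 40000 / c ^ 2) * ‖1 + T‖ ^ 2 := by
  have hka : ka (-s) (-T) = ka s T := by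
    unfold ka
    rw [Complex.cosh_neg, Complex.sinh_neg]
    ring
  have h := norm_RW_sub (m := m) (x := x) (s := -s) (P := P) (T := -T) (w := w) hc
    (by rw [neg_sq]; exact hPT) hm (by rwa [norm_neg]) (by rwa [norm_neg]) (by rwa [hka])
    (by rw [hka]; exact hS)
  have e := RW_neg m x s 0 (-1) w
  rw [neg_neg] at e
  rw [RW_neg, e, sub_neg_eq_add] at h
  exact h

theorem Gd.le2 {c : ℝ} {x : PE} {w : ℂ} (g : Gd c x w) :
    (∀ φ ∈ ({-(Real.pi / 6), Real.pi / 6} : Set ℝ), ‖Complex.sin (w + -x.1.2.1.1 + φ)‖ ≤ 2 ∧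
      ‖x.2.1 / ka x.1.2.2.1 x.2.2 * Complex.sin (w + -x.1.2.1.1 + φ)‖ ^ 2 ≤ 1 - c ^ 2) ∧
    (∀ φ ∈ ({-(Real.pi / 6), Real.pi / 6} : Set ℝ), ‖Complex.sin (w + x.1.2.1.2 + φ)‖ ≤ 2 ∧
      ‖x.2.1 / ka x.1.2.2.2 x.2.2 * Complex.sin (w + x.1.2.1.2 + φ)‖ ^ 2 ≤ 1 - c ^ 2) := by
  constructor
  · intro φ hφ
    obtain ⟨h1, h2⟩ := g.s0 φ hφ
    refine ⟨?_, h2⟩
    nlinarith [norm_nonneg (Complex.sin (w + -x.1.2.1.1 + φ)), sq_nonneg c]
  · intro φ hφ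
    obtain ⟨h1, h2⟩ := g.s1 φ hφ
    refine ⟨?_, h2⟩
    nlinarith [norm_nonneg (Complex.sin (w + x.1.2.1.2 + φ)), sq_nonneg c]

theorem Gd.lt1 {c : ℝ} {x : PE} {w : ℂ} (hc : 0 < c) (g : Gd c x w) :
    (∀ φ ∈ ({-(Real.pi / 6), Real.pi / 6} : Set ℝ), ‖Complex.sin (w + -x.1.2.1.1 + φ)‖ < 1 ∧
      ‖x.2.1 / ka x.1.2.2.1 x.2.2 * Complex.sin (w + -x.1.2.1.1 + φ)‖ < 1) ∧
    (∀ φ ∈ ({-(Real.pi / 6), Real.pi / 6} : Set ℝ), ‖Complex.sin (w + x.1.2.1.2 + φ)‖ < 1 ∧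
      ‖x.2.1 / ka x.1.2.2.2 x.2.2 * Complex.sin (w + x.1.2.1.2 + φ)‖ < 1) := by
  have hc2 : 0 < c ^ 2 := by positivity
  have k : ∀ r : ℝ, 0 ≤ r → r ^ 2 ≤ 1 - c ^ 2 → r < 1 := fun r hr h => by nlinarith
  exact ⟨fun φ hφ => ⟨k _ (norm_nonneg _) (g.s0 φ hφ).1, k _ (norm_nonneg _) (g.s0 φ hφ).2⟩,
    fun φ hφ => ⟨k _ (norm_nonneg _) (g.s1 φ hφ).1, k _ (norm_nonneg _) (g.s1 φ hφ).2⟩⟩

theorem mem_KB {de : ℝ} {a b p q P T : ℝ} (ha : 0 ≤ a) (hb : 0 ≤ b) (hab : a + b = 1) (hq0 : 0 ≤ q)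
    (hqp : q ≤ p) (hp : p ≤ 1 - de) (hpq : p + q ≤ 1)
    (hbal : a * Real.sin (Real.pi * p / 3) = b * Real.sin (Real.pi * q / 3)) (hP0 : 0 ≤ P)
    (hPT : P ^ 2 + T ^ 2 = 1) :
    mkP a b ((Real.pi * p / 3 : ℝ) : ℂ) ((Real.pi * q / 3 : ℝ) : ℂ) 0 0 P T ∈ KB de := by
  have hT : |T| ≤ 1 := by
    rw [← sq_le_one_iff_abs_le_one]
    nlinarith
  have hP1 : |P| ≤ 1 := by
    rw [← sq_le_one_iff_abs_le_one]
    nlinarith
  rw [abs_le] at hT hP1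
  refine ⟨(((a, b), (p, q)), (P, T)), ⟨⟨⟨⟨⟨ha, by linarith⟩, ⟨hb, by linarith⟩⟩, ⟨⟨by linarith, by linarith⟩,
    ⟨hq0, by linarith⟩⟩⟩, ⟨⟨hP0, hP1.2⟩, hT⟩⟩, hab, hqp, hp, hpq, hbal, hPT⟩, rfl⟩

/-- the ends of the time axis are in the compact set -/
theorem KB_end {de : ℝ} {k : PE} (hk : k ∈ KB de) {T : ℝ} (hT : T ^ 2 = 1) :
    ((k.1, ((0 : ℂ), (T : ℂ))) : PE) ∈ KB de := by
  obtain ⟨a, b, p, q, P, T', ha, hb, hab, hq0, hqp, hp, hpq, hbal, hP0, hP1, -, rfl⟩ := KB_cases hk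
  have := mem_KB (P := 0) (T := T) ha hb hab hq0 hqp hp hpq hbal le_rfl (by rw [hT]; ring)
  rw [Complex.ofReal_zero] at this
  exact this

theorem dist_end {x k : PE} {ε : ℝ} (h : dist x k < ε) (e : ℂ × ℂ) :
    dist ((x.1, e) : PE) ((k.1, e) : PE) < ε := by
  rw [Prod.dist_eq] at h ⊢
  rw [dist_self]
  have h1 := (max_lt_iff.1 h).1
  exact max_lt h1 (lt_of_le_of_lt dist_nonneg h1)

/-- **the curve near the balanced contents at height 0, all times, as an analytic function** -/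
theorem exists_VH {de : ℝ} (d0 : 0 < de) (d1 : de ≤ 1 / 2) : ∃ ε > 0, ∃ C, 0 ≤ C ∧ ∃ V : PE → ℂ,
    (∀ x : PE, (∃ k ∈ KB de, dist x k < ε) →
      AnalyticAt ℂ V x ∧ FH (x, V x) = 0 ∧ V x ∈ Dw de ∧
      (∀ w ∈ closure (Dw de), Gd (Real.sin (Real.pi * de / 6) / 2) x w) ∧
      (∀ w ∈ Dw de, FH (x, w) = 0 → w = V x) ∧
      (x.2.1 ^ 2 + x.2.2 ^ 2 = 1 → ‖V x - V (x.1, (0, 1))‖ ≤ C * ‖1 - x.2.2‖ ^ 2 ∧
        ‖V x - V (x.1, (0, -1))‖ ≤ C * ‖1 + x.2.2‖ ^ 2)) ∧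
    (∀ a b p q s0 s1 P T : ℝ, (∃ k ∈ KB de, dist (mkP a b p q s0 s1 P T) k < ε) →
      (V (mkP a b p q s0 s1 P T)).im = 0) := by
  have hpi := Real.pi_pos
  obtain ⟨s, hs⟩ : ∃ s, s = Real.sin (Real.pi * de / 6) := ⟨_, rfl⟩
  have hs0 : 0 < s := by
    rw [hs]
    exact Real.sin_pos_of_pos_of_lt_pi (by positivity) (by nlinarith)
  have hs1 : s ≤ 1 := by
    rw [hs]
    exact Real.sin_le_one _
  have hk0 : 0 < kap s := Real.arsinh_pos_iff.2 (by positivity)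
  obtain ⟨U, hUo, hKU, V, hV, hVn⟩ := implicitC (F := FH) (K := KB de) (D := Dw de)
    (c := s / 10) (isCompact_KB de) (by
      unfold Dw
      exact isOpen_Ioo.reProdIm isOpen_Ioo)
    (by
      unfold Dw
      exact ((convex_Ioo _ _).linear_preimage Complex.reLm).inter
        ((convex_Ioo _ _).linear_preimage Complex.imLm))
    (by
      unfold Dw
      rw [← hs, Complex.closure_reProdIm, closure_Ioo (by nlinarith), closure_Ioo (by linarith)]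
      exact isCompact_Icc.reProdIm isCompact_Icc)
    (by positivity)
    (fun k hk v hv => (re_FH d0 d1 hk hv).1)
    (fun k hk v hv => by
      rw [hs]
      exact (re_FH d0 d1 hk hv).2)
    (by
      intro k hk
      obtain ⟨a, b, p, q, P, T, ha, hb, hab, hq0, hqp, hp, hpq, hbal, hP0, hP1, hPT, rfl⟩ := KB_cases hk
      obtain ⟨v, hv, h0⟩ := hex_KB d0 d1 ha hb hab hq0 hqp hp hpq hbal hP0 hP1 hPT
      exact ⟨_, mem_Dw d0 d1 ⟨hv.1, hv.2.trans v0_lt.le⟩, h0⟩)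
  obtain ⟨N, hNo, hKN, hN⟩ := exists_Gd d0 d1
  rw [← hs] at hN
  obtain ⟨ε, hε, hεW⟩ := (isCompact_KB de).exists_thickening_subset_open (hUo.inter hNo)
    (subset_inter hKU hKN)
  have hmem : ∀ x : PE, (∃ k ∈ KB de, dist x k < ε) → x ∈ U ∧ x ∈ N := fun x hx =>
    hεW (Metric.mem_thickening_iff.2 hx)
  have huniq : ∀ x : PE, (∃ k ∈ KB de, dist x k < ε) → ∀ w ∈ Dw de, FH (x, w) = 0 → w = V x := by
    intro x hx w hw hw0
    have h1 := hVn x (hmem x hx).1 w hw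
    rw [hw0, norm_zero] at h1
    have h2 : ‖w - V x‖ ≤ 0 := by
      by_contra hcc
      have := mul_pos (by positivity : 0 < s / 10) (not_le.1 hcc)
      linarith
    exact sub_eq_zero.1 (norm_le_zero_iff.1 h2)
  refine ⟨ε, hε, 10 / s * (2 * (1000000 + 40000 / (s / 2) ^ 2)), by positivity, V, ?_, ?_⟩
  · intro x hx
    obtain ⟨hxU, hxN⟩ := hmem x hx
    obtain ⟨v1, v2, v3⟩ := hV x hxU
    rw [← hs]
    refine ⟨v1, v3, v2, fun w hw => hN x hxN w hw, huniq x hx, ?_⟩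
    intro hPT
    obtain ⟨k, hk, hkd⟩ := hx
    have hfin : ∀ (w : ℂ) (r : ℝ), w ∈ Dw de → ‖FH (x, w)‖ ≤
        (2 * (1000000 + 40000 / (s / 2) ^ 2)) * r → ‖V x - w‖ ≤
        10 / s * (2 * (1000000 + 40000 / (s / 2) ^ 2)) * r := by
      intro w r hw hr
      have h1 := (hVn x hxU w hw).trans hr
      have h2 : ‖V x - w‖ = 10 / s * (s / 10 * ‖w - V x‖) := by
        rw [norm_sub_rev]
        field_simp
      rw [h2, mul_assoc (10 / s)]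
      exact mul_le_mul_of_nonneg_left h1 (by positivity)
    constructor
    · have hxp : ∃ k ∈ KB de, dist ((x.1, ((0 : ℂ), (1 : ℂ))) : PE) k < ε := by
        have h3 := KB_end hk (T := 1) (by norm_num)
        rw [Complex.ofReal_one] at h3
        exact ⟨_, h3, dist_end hkd _⟩
      obtain ⟨u1, u2, u3⟩ := hV _ (hmem _ hxp).1
      obtain ⟨w, hw⟩ : ∃ w, w = V (x.1, (0, 1)) := ⟨_, rfl⟩
      rw [← hw] at u2 u3 ⊢
      have g := hN x hxN w (subset_closure u2)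
      obtain ⟨g1, g2⟩ := g.le2
      have n1 := norm_RW_sub (by positivity : 0 < s / 2) hPT g.a2 g.h0 g.T2 g.k0 g1
      have n2 := norm_RW_sub (by positivity : 0 < s / 2) hPT g.b2 g.h1 g.T2 g.k1 g2
      refine hfin w _ u2 ?_
      have e : FH (x, w) = (RW x.1.1.1 (-x.1.2.1.1) x.1.2.2.1 x.2.1 x.2.2 w -
          (1 + (1 - x.2.2) / 2) * RW x.1.1.1 (-x.1.2.1.1) x.1.2.2.1 0 1 w) +
          (RW x.1.1.2 x.1.2.1.2 x.1.2.2.2 x.2.1 x.2.2 w -
          (1 + (1 - x.2.2) / 2) * RW x.1.1.2 x.1.2.1.2 x.1.2.2.2 0 1 w) +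
          (1 + (1 - x.2.2) / 2) * FH ((x.1, ((0 : ℂ), (1 : ℂ))), w) := by
        unfold FH
        ring
      rw [e, u3, mul_zero, add_zero]
      refine (norm_add_le _ _).trans ((add_le_add n1 n2).trans (le_of_eq ?_))
      ring
    · have hxp : ∃ k ∈ KB de, dist ((x.1, ((0 : ℂ), (-1 : ℂ))) : PE) k < ε := by
        have h3 := KB_end hk (T := -1) (by norm_num)
        rw [Complex.ofReal_neg, Complex.ofReal_one] at h3
        exact ⟨_, h3, dist_end hkd _⟩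
      obtain ⟨u1, u2, u3⟩ := hV _ (hmem _ hxp).1
      obtain ⟨w, hw⟩ : ∃ w, w = V (x.1, (0, -1)) := ⟨_, rfl⟩
      rw [← hw] at u2 u3 ⊢
      have g := hN x hxN w (subset_closure u2)
      obtain ⟨g1, g2⟩ := g.le2
      have n1 := norm_RW_add (by positivity : 0 < s / 2) hPT g.a2 g.h0 g.T2 g.k0 g1
      have n2 := norm_RW_add (by positivity : 0 < s / 2) hPT g.b2 g.h1 g.T2 g.k1 g2
      refine hfin w _ u2 ?_
      have e : FH (x, w) = (RW x.1.1.1 (-x.1.2.1.1) x.1.2.2.1 x.2.1 x.2.2 w -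
          (1 + (1 + x.2.2) / 2) * RW x.1.1.1 (-x.1.2.1.1) x.1.2.2.1 0 (-1) w) +
          (RW x.1.1.2 x.1.2.1.2 x.1.2.2.2 x.2.1 x.2.2 w -
          (1 + (1 + x.2.2) / 2) * RW x.1.1.2 x.1.2.1.2 x.1.2.2.2 0 (-1) w) +
          (1 + (1 + x.2.2) / 2) * FH ((x.1, ((0 : ℂ), (-1 : ℂ))), w) := by
        unfold FH
        ring
      rw [e, u3, mul_zero, add_zero]
      refine (norm_add_le _ _).trans ((add_le_add n1 n2).trans (le_of_eq ?_))
      ring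
  · intro a b p q s0 s1 P T hx
    obtain ⟨x, hxx⟩ : ∃ x, x = mkP a b p q s0 s1 P T := ⟨_, rfl⟩
    rw [← hxx] at hx ⊢
    obtain ⟨hxU, hxN⟩ := hmem x hx
    obtain ⟨v1, v2, v3⟩ := hV x hxU
    obtain ⟨g1, g2⟩ := (hN x hxN _ (subset_closure v2)).lt1 (by positivity)
    have e1 : FH (x, conj (V x)) = conj (FH (x, V x)) := by
      have en : ((-p : ℝ) : ℂ) = -(p : ℂ) := by push_cast; ring
      have r1 := RW_conj (m := a) (x := -p) (s := s0) (P := P) (T := T) (w := V x) (fun φ hφ => by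
        have := (g1 φ hφ).2
        rw [hxx] at this ⊢
        rw [en]
        exact this)
      have r2 := RW_conj (m := b) (x := q) (s := s1) (P := P) (T := T) (w := V x) (fun φ hφ => by
        have := (g2 φ hφ).2
        rw [hxx] at this ⊢
        exact this)
      rw [en] at r1
      have e2 : ∀ w, FH (x, w) = RW a (-p) s0 P T w + RW b q s1 P T w := by
        intro w
        rw [hxx]
        rfl
      rw [e2, e2, r1, r2, map_add]
    rw [v3, map_zero] at e1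
    have h2 : conj (V x) ∈ Dw de := by
      unfold Dw at v2 ⊢
      rw [Complex.mem_reProdIm] at v2 ⊢
      rw [Complex.conj_re, Complex.conj_im]
      exact ⟨v2.1, ⟨by linarith [v2.2.2], by linarith [v2.2.1]⟩⟩
    have h3 := huniq x hx _ h2 e1
    have h4 := congrArg Complex.im h3
    rw [Complex.conj_im] at h4
    linarith

end PLT.CA

end
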