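import Pool.Agent.PLT.Two

/-!
# Scaling of the curve of two rows

`ATc c x = - ∂_c AL c x`; `f = (k + 1/2 - r) / q`, `k = c² - 1/4`, `r = sin² x`.

* `hasDerivAt_ALc`; `eta2'_eq`: `η' = sh (a ATc (α - P) + b ATc (α + Q)) / (a AD (α - P) + b AD (α + Q))`;
* `AD_ge`: `AD c x ≥ √3 cos x / c`; `AT_le`, `AT_ge`: `ATc` against `√3 sin x f(0)`;
* `alg2`: the algebraic inequality;
* **`Bal2.scal`**: `- l / 8 ≤ t η'(t)`; **`Bal2.sc`**: `η ((1 - ε) t) ≤ η t + ε l / 7`, `0 ≤ ε ≤ 1/8`.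
-/

set_option autoImplicit false

noncomputable section

open MeasureTheory Set Filter Topology

namespace PLT

open NUMF

/-- minus the derivative of the level function in `c` -/
def ATc (c x : ℝ) : ℝ := √3 * Real.sin x * (c ^ 2 + 1 / 4 - Real.sin x ^ 2) / qd c (Real.sin x ^ 2)

section al

variable {c x : ℝ}

theorem hasDerivAt_ALc (hc : 1 ≤ c) (h1 : -(Real.pi / 3) < x) (h2 : x < Real.pi / 3) :
    HasDerivAt (fun c => AL c x) (-ATc c x) c := by
  obtain ⟨⟨p1, p2⟩, p3, p4⟩ := posX hc h1 h2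
  have g1 := hasDerivAt_La_c p1 p2
  have g2 := hasDerivAt_La_c p3 p4
  refine (g1.add g2).congr_deriv ?_
  have hq : qd c (Real.sin x ^ 2) = (c ^ 2 - Real.sin (x - Real.pi / 6) ^ 2) *
      (c ^ 2 - Real.sin (x + Real.pi / 6) ^ 2) := by
    rw [← qd_eq, ← (mulX c x).1, ← (mulX c x).2]
    ring
  have d1 : 0 < c ^ 2 - Real.sin (x - Real.pi / 6) ^ 2 := by
    have e : c ^ 2 - Real.sin (x - Real.pi / 6) ^ 2 =
      (c + Real.sin (x - Real.pi / 6)) * (c - Real.sin (x - Real.pi / 6)) := by ring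
    rw [e]
    positivity
  have d2 : 0 < c ^ 2 - Real.sin (x + Real.pi / 6) ^ 2 := by
    have e : c ^ 2 - Real.sin (x + Real.pi / 6) ^ 2 =
      (c + Real.sin (x + Real.pi / 6)) * (c - Real.sin (x + Real.pi / 6)) := by ring
    rw [e]
    positivity
  unfold ATc
  rw [hq, ← neg_add, neg_inj, div_add_div _ _ d1.ne' d2.ne']
  congr 1
  obtain ⟨e1, e2⟩ := sin_pm x
  have q := Apx.s3sq
  have cs := Real.sin_sq_add_cos_sq x
  rw [e1, e2]
  linear_combination (-(√3 * Real.sin x ^ 3 / 4)) * q + (√3 * Real.sin x / 4) * cs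

theorem ATc_neg (c x : ℝ) : ATc c (-x) = -ATc c x := by
  unfold ATc
  rw [Real.sin_neg, neg_sq]
  ring

theorem AD_ng (c x : ℝ) : AD c (-x) = AD c x := by
  unfold AD
  rw [Real.sin_neg, Real.cos_neg, neg_sq]

/-- **lower bound of the slope** -/
theorem AD_ge (hc : 1 ≤ c) (h1 : -(Real.pi / 3) < x) (h2 : x < Real.pi / 3) :
    √3 * Real.cos x / c ≤ AD c x := by
  have hp := Real.pi_pos
  have hq := qd_pos hc h1 h2
  have hcos := Real.cos_pos_of_mem_Ioo (x := x) ⟨by linarith, by linarith⟩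
  have hs := sin_sq_lt h1 h2
  have s3 := Apx.s3.1
  have hc0 : 0 < c := by linarith
  unfold AD
  rw [div_le_div_iff₀ hc0 hq]
  have h3 : qd c (Real.sin x ^ 2) ≤ c ^ 2 * (c ^ 2 - 1 / 4 - Real.sin x ^ 2) := by
    unfold qd
    nlinarith [sq_nonneg (Real.sin x), mul_nonneg (sq_nonneg (Real.sin x)) (sub_nonneg.2 hs.le)]
  have h4 : 0 ≤ √3 * Real.cos x := by positivity
  nlinarith [mul_le_mul_of_nonneg_left h3 h4]

/-- `f(0)` -/
def fz0 (c : ℝ) : ℝ := (c ^ 2 + 1 / 4) / (c ^ 2 - 1 / 4) ^ 2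

/-- the difference `f - f(0)` -/
theorem ATc_eq (hc : 1 ≤ c) (h1 : -(Real.pi / 3) < x) (h2 : x < Real.pi / 3) :
    ATc c x = √3 * Real.sin x * fz0 c + √3 * Real.sin x * (Real.sin x ^ 2 *
      (5 / 4 * (c ^ 2 - 1 / 4) + 3 / 8 - (c ^ 2 + 1 / 4) * Real.sin x ^ 2) /
        ((c ^ 2 - 1 / 4) ^ 2 * qd c (Real.sin x ^ 2))) := by
  have hq := qd_pos hc h1 h2
  have hk := k_ge hc
  have hk0 : (c ^ 2 - 1 / 4) ≠ 0 := by linarith
  obtain ⟨r, hr⟩ : ∃ r, r = Real.sin x ^ 2 := ⟨_, rfl⟩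
  obtain ⟨q, hq'⟩ : ∃ q, q = qd c r := ⟨_, rfl⟩
  obtain ⟨k, hk'⟩ : ∃ k, k = c ^ 2 - 1 / 4 := ⟨_, rfl⟩
  have e1 : c ^ 2 + 1 / 4 = k + 1 / 2 := by rw [hk']; ring
  have hqq : q = k ^ 2 - (k + 3 / 4) * r + r ^ 2 := by rw [hq', hk']; rfl
  unfold ATc fz0
  rw [← hr] at hq ⊢
  rw [← hq'] at hq ⊢
  rw [← hk'] at hk0 ⊢
  rw [e1]
  have hq0 := hq.ne'
  field_simp
  rw [hqq]
  ring

/-- the algebraic inequality -/
theorem alg2 {d e : ℝ} (hd : 0 ≤ d) (he0 : 0 ≤ e) (he : e ≤ 3 / 4) :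
    (1 + d / 2) * d * (3 / 4 - e) * (4 * e) * (d / 2 + 3 / 8 + e * (d + 5 / 4)) ≤
      0.45 * (d + 3 / 4) ^ 2 * (e ^ 2 + d * (d + 3 / 4 + e)) := by
  have hM : 0 ≤ (3 / 4 - e) * (4 * e) := by
    have : 0 ≤ 3 / 4 - e := by linarith
    positivity
  have hM1 : (3 / 4 - e) * (4 * e) ≤ 9 / 16 := by nlinarith [sq_nonneg (e - 3 / 8)]
  have c1 : -(0.3 * e) ≤ 0.45 * (1.5 * e ^ 2 + 0.5625 * e + 0.421875) -
      (3 / 4 - e) * (4 * e) * (3 / 8 + 5 / 4 * e) := by
    nlinarith [mul_nonneg he0 (sq_nonneg (e - 0.36)), sq_nonneg (e - 0.36)]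
  have c2 : 0.1 ≤ 0.45 * (e ^ 2 + 1.5 * e + 1.6875) -
      (3 / 4 - e) * (4 * e) * (1 / 2 + e + (3 / 8 + 5 / 4 * e) / 2) := by
    nlinarith
  have c3 : 0 ≤ 0.45 * (2.25 + e) - (3 / 4 - e) * (4 * e) * ((1 / 2 + e) / 2) := by
    nlinarith
  have h1 := mul_le_mul_of_nonneg_left c1 hd
  have h2 := mul_le_mul_of_nonneg_left c2 (sq_nonneg d)
  have h3 := mul_nonneg (pow_nonneg hd 3) c3
  have h4 : 0 ≤ d ^ 4 := by positivity
  have h5 : 0 ≤ 0.253 * e ^ 2 - 0.3 * e * d + 0.1 * d ^ 2 := by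
    nlinarith [sq_nonneg (e - 0.6 * d)]
  nlinarith

end al

/-! ### the derivative of the curve -/

theorem hasDerivAt_two_v {a b p q v : ℝ} (hv : v ∈ Dm (xT p q)) (t : ℝ) :
    HasDerivAt (fun v => SC (mT a b) (xT p q) v t)
      (8 / 3 * (a * AD (ch t) (Real.pi * p / 3 - 8 / 3 * v) +
        b * AD (ch t) (Real.pi * q / 3 + 8 / 3 * v))) v := by
  have hc := one_le_ch t
  obtain ⟨k1, k2⟩ := mem_Dm2.1 hv
  have hl := l_pos'
  have hpl := pi_eq_l
  rw [abs_lt] at k1 k2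
  have i0 : HasDerivAt (fun v : ℝ => v) 1 v := hasDerivAt_id v
  have a1 : -(Real.pi / 3) < 8 / 3 * (v - p * l) ∧ 8 / 3 * (v - p * l) < Real.pi / 3 := by
    rw [hpl]
    constructor <;> linarith [k1.1, k1.2]
  have a2 : -(Real.pi / 3) < 8 / 3 * (v + q * l) ∧ 8 / 3 * (v + q * l) < Real.pi / 3 := by
    rw [hpl]
    constructor <;> linarith [k2.1, k2.2]
  have d1 := (hasDerivAt_AL hc a1.1 a1.2).comp v ((i0.sub_const (p * l)).const_mul (8 / 3))
  have d2 := (hasDerivAt_AL hc a2.1 a2.2).comp v ((i0.add_const (q * l)).const_mul (8 / 3))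
  have e : (fun v => SC (mT a b) (xT p q) v t) =
      fun v => a * AL (ch t) (8 / 3 * (v - p * l)) + b * AL (ch t) (8 / 3 * (v + q * l)) := by
    funext v
    rw [SC_two]
    rfl
  rw [e]
  refine ((d1.const_mul a).add (d2.const_mul b)).congr_deriv ?_
  show a * (AD (ch t) (8 / 3 * (v - p * l)) * (8 / 3 * 1)) +
    b * (AD (ch t) (8 / 3 * (v + q * l)) * (8 / 3 * 1)) = _
  rw [ang_eq, ang_eq', AD_ng]
  ring

theorem hasDerivAt_two_t {a b p q v : ℝ} (hv : v ∈ Dm (xT p q)) (t : ℝ) :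
    HasDerivAt (fun t => SC (mT a b) (xT p q) v t)
      (8 / 3 * (sh t * (a * ATc (ch t) (Real.pi * p / 3 - 8 / 3 * v) -
        b * ATc (ch t) (Real.pi * q / 3 + 8 / 3 * v)))) t := by
  have hc := one_le_ch t
  obtain ⟨k1, k2⟩ := mem_Dm2.1 hv
  have hl := l_pos'
  have hpl := pi_eq_l
  rw [abs_lt] at k1 k2
  have a1 : -(Real.pi / 3) < 8 / 3 * (v - p * l) ∧ 8 / 3 * (v - p * l) < Real.pi / 3 := by
    rw [hpl]
    constructor <;> linarith [k1.1, k1.2]
  have a2 : -(Real.pi / 3) < 8 / 3 * (v + q * l) ∧ 8 / 3 * (v + q * l) < Real.pi / 3 := by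
    rw [hpl]
    constructor <;> linarith [k2.1, k2.2]
  have d1 := (hasDerivAt_ALc hc a1.1 a1.2).comp t (hasDerivAt_ch t)
  have d2 := (hasDerivAt_ALc hc a2.1 a2.2).comp t (hasDerivAt_ch t)
  have e : (fun t => SC (mT a b) (xT p q) v t) =
      fun t => a * AL (ch t) (8 / 3 * (v - p * l)) + b * AL (ch t) (8 / 3 * (v + q * l)) := by
    funext t
    rw [SC_two]
    rfl
  rw [e]
  refine ((d1.const_mul a).add (d2.const_mul b)).congr_deriv ?_
  rw [ang_eq, ang_eq', ATc_neg]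
  ring

section bal

variable {a b p q : ℝ}

/-- the angle of the curve -/
def al2 (a b p q t : ℝ) : ℝ := 8 / 3 * eta2 a b p q t

/-- the derivative of the curve of two rows -/
def eta2' (a b p q t : ℝ) : ℝ := eta' (mT a b) (xT p q) t

theorem Bal2.hasDerivAt (h : Bal2 a b p q) (t : ℝ) :
    HasDerivAt (eta2 a b p q) (eta2' a b p q t) t := hasDerivAt_eta h.wt h.lev t

theorem Bal2.ang (h : Bal2 a b p q) (t : ℝ) :
    (0 ≤ al2 a b p q t ∧ al2 a b p q t ≤ Apx.ep) ∧ (0 ≤ Real.pi * q / 3 ∧ Real.pi * q / 3 ≤ Real.pi / 6)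
      ∧ 0 ≤ Real.pi * p / 3 ∧ Real.pi * p / 3 < Real.pi / 3 ∧
      Real.pi * p / 3 + Real.pi * q / 3 ≤ Real.pi / 3 := by
  have hp := Real.pi_pos
  obtain ⟨h1, h2⟩ := h.eta_mem t
  have h3 : q ≤ 1 / 2 := by linarith [h.qp, h.pq]
  have h4 := h.q0
  have h5 := h.qp
  have h6 := h.p1
  have h7 := h.pq
  unfold al2
  unfold v0 at h2
  refine ⟨⟨by positivity, by linarith⟩, ⟨by positivity, by nlinarith⟩, ?_, by nlinarith, by nlinarith⟩
  have : 0 ≤ p := by linarith
  positivity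

/-- denominator of the derivative -/
def dD (a b p q t : ℝ) : ℝ := a * AD (ch t) (Real.pi * p / 3 - al2 a b p q t) +
  b * AD (ch t) (Real.pi * q / 3 + al2 a b p q t)

/-- numerator of minus the derivative -/
def nD (a b p q t : ℝ) : ℝ := a * ATc (ch t) (Real.pi * p / 3 - al2 a b p q t) -
  b * ATc (ch t) (Real.pi * q / 3 + al2 a b p q t)

theorem Bal2.dD_pos (h : Bal2 a b p q) (t : ℝ) : 0 < dD a b p q t := by
  have hc := one_le_ch t
  obtain ⟨⟨a1, a2⟩, ⟨a3, a4⟩, a5, a6, a7⟩ := h.ang t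
  have he := Apx.ep_lt
  have hp := Real.pi_pos
  have d1 := AD_pos hc (x := Real.pi * p / 3 - al2 a b p q t) (by linarith) (by linarith)
  have d2 := AD_pos hc (x := Real.pi * q / 3 + al2 a b p q t) (by linarith) (by linarith)
  have ha := h.a0
  have hb := h.b0
  unfold dD
  positivity

/-- **the derivative of the curve** -/
theorem Bal2.deriv_eq (h : Bal2 a b p q) (t : ℝ) :
    eta2' a b p q t = -(sh t * nD a b p q t / dD a b p q t) := by
  have hm := h.mem' (h.eta_mem t)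
  have k1 := (hasDerivAt_SC_v (m := mT a b) hm t).unique (hasDerivAt_two_v (a := a) (b := b) hm t)
  have k2 := (hasDerivAt_SC_t (m := mT a b) hm t).unique (hasDerivAt_two_t (a := a) (b := b) hm t)
  have hp := Real.pi_pos
  have e1 : (PC (mT a b) (xT p q) ((t : ℂ) + eta2 a b p q t * Complex.I)).re =
      8 / 3 * dD a b p q t / (2 * Real.pi) := by
    rw [eq_div_iff (by positivity), mul_comm, k1]
    rfl
  have e2 : (PC (mT a b) (xT p q) ((t : ℂ) + eta2 a b p q t * Complex.I)).im =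
      8 / 3 * (sh t * nD a b p q t) / (2 * Real.pi) := by
    rw [eq_div_iff (by positivity), mul_comm, k2]
    rfl
  have hd := h.dD_pos t
  unfold eta2' eta'
  show -((PC (mT a b) (xT p q) ((t : ℂ) + eta2 a b p q t * Complex.I)).im /
    (PC (mT a b) (xT p q) ((t : ℂ) + eta2 a b p q t * Complex.I)).re) = _
  rw [e1, e2]
  congr 1
  field_simp

/-- the denominator from below -/
theorem Bal2.dD_ge (h : Bal2 a b p q) (t : ℝ) :
    √3 / ch t * (Real.cos (al2 a b p q t) *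
      (a * Real.cos (Real.pi * p / 3) + b * Real.cos (Real.pi * q / 3))) ≤ dD a b p q t := by
  have hc := one_le_ch t
  obtain ⟨⟨a1, a2⟩, ⟨a3, a4⟩, a5, a6, a7⟩ := h.ang t
  have he := Apx.ep_lt
  have hp := Real.pi_pos
  have d1 := AD_ge hc (x := Real.pi * p / 3 - al2 a b p q t) (by linarith) (by linarith)
  have d2 := AD_ge hc (x := Real.pi * q / 3 + al2 a b p q t) (by linarith) (by linarith)
  have k1 := mul_le_mul_of_nonneg_left d1 h.a0
  have k2 := mul_le_mul_of_nonneg_left d2 h.b0.le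
  have e : √3 / ch t * (Real.cos (al2 a b p q t) *
      (a * Real.cos (Real.pi * p / 3) + b * Real.cos (Real.pi * q / 3))) =
      a * (√3 * Real.cos (Real.pi * p / 3 - al2 a b p q t) / ch t) +
        b * (√3 * Real.cos (Real.pi * q / 3 + al2 a b p q t) / ch t) := by
    rw [Real.cos_sub, Real.cos_add]
    have hb := h.bal
    linear_combination (-(√3 / ch t * Real.sin (al2 a b p q t))) * hb
  unfold dD
  rw [e]
  linarith

/-- the numerator from above -/
theorem Bal2.nD_le (h : Bal2 a b p q) (t : ℝ)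
    (hP : al2 a b p q t < Real.pi * p / 3) :
    nD a b p q t ≤ √3 * (a * Real.sin (Real.pi * p / 3 - al2 a b p q t)) *
      (Real.sin (Real.pi * p / 3 - al2 a b p q t) ^ 2 *
      (5 / 4 * (ch t ^ 2 - 1 / 4) + 3 / 8 - (ch t ^ 2 + 1 / 4) *
        Real.sin (Real.pi * p / 3 - al2 a b p q t) ^ 2) /
        ((ch t ^ 2 - 1 / 4) ^ 2 * qd (ch t) (Real.sin (Real.pi * p / 3 - al2 a b p q t) ^ 2))) := by
  have hc := one_le_ch t
  obtain ⟨⟨a1, a2⟩, ⟨a3, a4⟩, a5, a6, a7⟩ := h.ang t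
  have he := Apx.ep_lt
  have hp := Real.pi_pos
  have k := k_ge hc
  have f1 := ATc_eq hc (x := Real.pi * p / 3 - al2 a b p q t) (by linarith) (by linarith)
  have f2 := ATc_eq hc (x := Real.pi * q / 3 + al2 a b p q t) (by linarith) (by linarith)
  have q2 := qd_pos hc (x := Real.pi * q / 3 + al2 a b p q t) (by linarith) (by linarith)
  have s2 := sin_sq_lt (x := Real.pi * q / 3 + al2 a b p q t) (by linarith) (by linarith)
  have sn : 0 ≤ Real.sin (Real.pi * q / 3 + al2 a b p q t) :=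
    Real.sin_nonneg_of_nonneg_of_le_pi (by linarith) (by linarith)
  have s3 := Apx.s3.1
  have hf0 : 0 ≤ fz0 (ch t) := by
    unfold fz0
    positivity
  have g2 : 0 ≤ √3 * Real.sin (Real.pi * q / 3 + al2 a b p q t) *
      (Real.sin (Real.pi * q / 3 + al2 a b p q t) ^ 2 *
      (5 / 4 * (ch t ^ 2 - 1 / 4) + 3 / 8 - (ch t ^ 2 + 1 / 4) *
        Real.sin (Real.pi * q / 3 + al2 a b p q t) ^ 2) /
        ((ch t ^ 2 - 1 / 4) ^ 2 * qd (ch t) (Real.sin (Real.pi * q / 3 + al2 a b p q t) ^ 2))) := by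
    have : 0 ≤ 5 / 4 * (ch t ^ 2 - 1 / 4) + 3 / 8 - (ch t ^ 2 + 1 / 4) *
        Real.sin (Real.pi * q / 3 + al2 a b p q t) ^ 2 := by
      nlinarith [sq_nonneg (Real.sin (Real.pi * q / 3 + al2 a b p q t))]
    positivity
  have g3 := mul_nonneg h.b0.le g2
  have hb := h.bal
  have e : a * Real.sin (Real.pi * p / 3 - al2 a b p q t) -
      b * Real.sin (Real.pi * q / 3 + al2 a b p q t) =
      -(Real.sin (al2 a b p q t) *
        (a * Real.cos (Real.pi * p / 3) + b * Real.cos (Real.pi * q / 3))) := by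
    rw [Real.sin_sub, Real.sin_add]
    linear_combination (Real.cos (al2 a b p q t)) * hb
  have c1 : 0 ≤ Real.cos (Real.pi * p / 3) := Real.cos_nonneg_of_mem_Icc ⟨by linarith, by linarith⟩
  have c2 : 0 ≤ Real.cos (Real.pi * q / 3) := Real.cos_nonneg_of_mem_Icc ⟨by linarith, by linarith⟩
  have s0 : 0 ≤ Real.sin (al2 a b p q t) :=
    Real.sin_nonneg_of_nonneg_of_le_pi a1 (by linarith)
  have e2 : √3 * fz0 (ch t) * (a * Real.sin (Real.pi * p / 3 - al2 a b p q t) -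
      b * Real.sin (Real.pi * q / 3 + al2 a b p q t)) ≤ 0 := by
    rw [e]
    have := h.a0
    have := h.b0.le
    have h5 : 0 ≤ √3 * fz0 (ch t) * (Real.sin (al2 a b p q t) *
        (a * Real.cos (Real.pi * p / 3) + b * Real.cos (Real.pi * q / 3))) := by positivity
    linarith
  unfold nD
  rw [f1, f2]
  linarith

/-- the weight of the left row -/
theorem Bal2.wt_le (h : Bal2 a b p q) (t : ℝ) (hP : al2 a b p q t < Real.pi * p / 3) :
    2 * √3 * (a * Real.sin (Real.pi * p / 3 - al2 a b p q t)) ≤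
      (3 - 4 * Real.sin (Real.pi * p / 3 - al2 a b p q t) ^ 2) *
        (a * Real.cos (Real.pi * p / 3) + b * Real.cos (Real.pi * q / 3)) := by
  obtain ⟨⟨a1, a2⟩, ⟨a3, a4⟩, a5, a6, a7⟩ := h.ang t
  have hp := Real.pi_pos
  obtain ⟨P, hPd⟩ : ∃ P, P = Real.pi * p / 3 := ⟨_, rfl⟩
  obtain ⟨Q, hQd⟩ : ∃ Q, Q = Real.pi * q / 3 := ⟨_, rfl⟩
  obtain ⟨A, hAd⟩ : ∃ A, A = al2 a b p q t := ⟨_, rfl⟩
  have hb := h.bal
  rw [← hPd, ← hQd] at hb a7 ⊢
  rw [← hPd] at hP a5 a6
  rw [← hAd] at hP a1 a2 ⊢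
  rw [← hQd] at a3 a4
  have sPQ : 0 < Real.sin (P + Q) := Real.sin_pos_of_pos_of_lt_pi (by linarith) (by linarith)
  have sP' : 0 ≤ Real.sin (P - A) := Real.sin_nonneg_of_nonneg_of_le_pi (by linarith) (by linarith)
  have sQ : 0 ≤ Real.sin Q := Real.sin_nonneg_of_nonneg_of_le_pi (by linarith) (by linarith)
  have c1 : 0 ≤ Real.cos P := Real.cos_nonneg_of_mem_Icc ⟨by linarith, by linarith⟩
  have c2 : 0 ≤ Real.cos Q := Real.cos_nonneg_of_mem_Icc ⟨by linarith, by linarith⟩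
  have ha := h.a0
  have hb0 := h.b0.le
  have hV : 0 ≤ a * Real.cos P + b * Real.cos Q := by positivity
  have e1 : a * Real.sin (P + Q) = (a * Real.cos P + b * Real.cos Q) * Real.sin Q := by
    rw [Real.sin_add]
    linear_combination Real.cos Q * hb
  -- `sin Q sin (π/3) ≤ sin (π/3 - P) sin (P + Q)`
  have e2 : Real.sin (Real.pi / 3 - P) * Real.sin (P + Q) - Real.sin Q * Real.sin (Real.pi / 3) =
      Real.sin P * Real.sin (Real.pi / 3 - P - Q) := by
    have cs := Real.sin_sq_add_cos_sq P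
    rw [Real.sin_sub, Real.sin_sub, Real.cos_sub, Real.sin_add, Real.sin_sub]
    linear_combination (Real.sin (Real.pi / 3) * Real.sin Q) * cs
  have sP : 0 ≤ Real.sin P := Real.sin_nonneg_of_nonneg_of_le_pi (by linarith) (by linarith)
  have e3 : 0 ≤ Real.sin P * Real.sin (Real.pi / 3 - P - Q) :=
    mul_nonneg sP (Real.sin_nonneg_of_nonneg_of_le_pi (by linarith) (by linarith))
  have e4 : Real.sin (Real.pi / 3 - P) ≤ Real.sin (Real.pi / 3 - (P - A)) :=
    Real.sin_le_sin_of_le_of_le_pi_div_two (by linarith) (by linarith) (by linarith)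
  have s3 := Apx.s3.1
  have q3 := Apx.s3sq
  rw [Real.sin_pi_div_three] at e2
  have e5 : √3 / 2 * Real.sin Q ≤ Real.sin (Real.pi / 3 - (P - A)) * Real.sin (P + Q) := by
    have := mul_le_mul_of_nonneg_right e4 sPQ.le
    linarith
  -- `4 s' sin (π/3 - P') ≤ 3 - 4 s'^2`
  have e6 : 4 * (Real.sin (P - A) * Real.sin (Real.pi / 3 - (P - A))) ≤
      3 - 4 * Real.sin (P - A) ^ 2 := by
    rw [Real.sin_sub (Real.pi / 3) (P - A), Real.sin_pi_div_three, Real.cos_pi_div_three]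
    have cs := Real.sin_sq_add_cos_sq (P - A)
    nlinarith [sq_nonneg (√3 * Real.cos (P - A) - Real.sin (P - A))]
  have e7 : 2 * √3 * (Real.sin (P - A) * Real.sin Q) ≤
      (3 - 4 * Real.sin (P - A) ^ 2) * Real.sin (P + Q) := by
    have k1 := mul_le_mul_of_nonneg_left e5 sP'
    have k2 := mul_le_mul_of_nonneg_right e6 sPQ.le
    nlinarith
  have e8 := mul_le_mul_of_nonneg_left e7 hV
  refine le_of_mul_le_mul_right ?_ sPQ
  calc 2 * √3 * (a * Real.sin (P - A)) * Real.sin (P + Q) =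
      2 * √3 * Real.sin (P - A) * (a * Real.sin (P + Q)) := by ring
    _ = (a * Real.cos P + b * Real.cos Q) * (2 * √3 * (Real.sin (P - A) * Real.sin Q)) := by
      rw [e1]
      ring
    _ ≤ _ := e8
    _ = _ := by ring

theorem cos_al {a b p q t : ℝ} (h1 : 0 ≤ al2 a b p q t) (h2 : al2 a b p q t ≤ Apx.ep) :
    0.998 ≤ Real.cos (al2 a b p q t) := by
  have he := Apx.ep_lt
  have hp := Real.pi_pos
  have h3 : Real.cos Apx.ep ≤ Real.cos (al2 a b p q t) :=
    Real.cos_le_cos_of_nonneg_of_le_pi h1 (by linarith) h2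
  have h4 := Apx.cos_ep_sq
  have h5 := Apx.cos_ep_pos
  have h6 : (0.998 : ℝ) ^ 2 ≤ Real.cos Apx.ep ^ 2 := by
    rw [h4]
    unfold Apx.tA
    norm_num
  have := abs_le_of_sq_le_sq' h6 h5.le
  norm_num at this ⊢
  linarith [this.2]

/-- **scaling**, `t ≥ 0` -/
theorem Bal2.scal_pos (h : Bal2 a b p q) {t : ℝ} (ht : 0 ≤ t) :
    -(l / 8) ≤ t * eta2' a b p q t := by
  have hc := one_le_ch t
  have hc0 := ch_pos t
  obtain ⟨⟨a1, a2⟩, ⟨a3, a4⟩, a5, a6, a7⟩ := h.ang t
  have he := Apx.ep_lt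
  have hp := Real.pi_pos
  have hl := l_pos'
  have hd := h.dD_pos t
  have hsh := sh_nonneg ht
  rw [h.deriv_eq]
  rcases le_or_gt (Real.pi * p / 3) (al2 a b p q t) with hP | hP
  · -- the numerator is `≤ 0`
    have q1 := qd_pos hc (x := Real.pi * p / 3 - al2 a b p q t) (by linarith) (by linarith)
    have q2 := qd_pos hc (x := Real.pi * q / 3 + al2 a b p q t) (by linarith) (by linarith)
    have r1 := sin_sq_lt (x := Real.pi * p / 3 - al2 a b p q t) (by linarith) (by linarith)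
    have r2 := sin_sq_lt (x := Real.pi * q / 3 + al2 a b p q t) (by linarith) (by linarith)
    have s1 : 0 ≤ Real.sin (al2 a b p q t - Real.pi * p / 3) :=
      Real.sin_nonneg_of_nonneg_of_le_pi (by linarith) (by linarith)
    have s2 : 0 ≤ Real.sin (Real.pi * q / 3 + al2 a b p q t) :=
      Real.sin_nonneg_of_nonneg_of_le_pi (by linarith) (by linarith)
    have s3 := Apx.s3.1
    have t1 : ATc (ch t) (Real.pi * p / 3 - al2 a b p q t) ≤ 0 := by
      rw [show Real.pi * p / 3 - al2 a b p q t = -(al2 a b p q t - Real.pi * p / 3) by ring, ATc_neg]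
      have e : Real.sin (al2 a b p q t - Real.pi * p / 3) ^ 2 =
          Real.sin (Real.pi * p / 3 - al2 a b p q t) ^ 2 := by
        rw [show al2 a b p q t - Real.pi * p / 3 = -(Real.pi * p / 3 - al2 a b p q t) by ring,
          Real.sin_neg, neg_sq]
      have : 0 ≤ ATc (ch t) (al2 a b p q t - Real.pi * p / 3) := by
        unfold ATc
        rw [e]
        have : 0 ≤ ch t ^ 2 + 1 / 4 - Real.sin (Real.pi * p / 3 - al2 a b p q t) ^ 2 := by nlinarith
        positivity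
      linarith
    have t2 : 0 ≤ ATc (ch t) (Real.pi * q / 3 + al2 a b p q t) := by
      unfold ATc
      have : 0 ≤ ch t ^ 2 + 1 / 4 - Real.sin (Real.pi * q / 3 + al2 a b p q t) ^ 2 := by nlinarith
      positivity
    have n0 : nD a b p q t ≤ 0 := by
      unfold nD
      have := mul_nonneg h.a0 (neg_nonneg.2 t1)
      have := mul_nonneg h.b0.le t2
      linarith
    have : sh t * nD a b p q t / dD a b p q t ≤ 0 :=
      div_nonpos_of_nonpos_of_nonneg (mul_nonpos_of_nonneg_of_nonpos hsh n0) hd.le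
    have := mul_nonneg ht (neg_nonneg.2 this)
    linarith
  · have hV : 0 < a * Real.cos (Real.pi * p / 3) + b * Real.cos (Real.pi * q / 3) := by
      have c1 : 0 ≤ Real.cos (Real.pi * p / 3) :=
        Real.cos_nonneg_of_mem_Icc ⟨by linarith, by linarith⟩
      have c2 : 0 < Real.cos (Real.pi * q / 3) :=
        Real.cos_pos_of_mem_Ioo ⟨by linarith, by linarith⟩
      have := mul_nonneg h.a0 c1
      have := mul_pos h.b0 c2
      linarith
    have k1 := h.nD_le t hP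
    have k2 := h.wt_le t hP
    have k3 := h.dD_ge t
    have hcos := cos_al a1 a2
    have q1 := qd_pos hc (x := Real.pi * p / 3 - al2 a b p q t) (by linarith) (by linarith)
    have r1 := sin_sq_lt (x := Real.pi * p / 3 - al2 a b p q t) (by linarith) (by linarith)
    obtain ⟨r, hr⟩ : ∃ r, r = Real.sin (Real.pi * p / 3 - al2 a b p q t) ^ 2 := ⟨_, rfl⟩
    have hr0 : 0 ≤ r := by rw [hr]; positivity
    rw [← hr] at k1 k2 q1 r1
    obtain ⟨c, hcc⟩ : ∃ c, c = ch t := ⟨_, rfl⟩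
    rw [← hcc] at hc hc0 k1 k3 q1
    have hshc : sh t ^ 2 = c ^ 2 - 1 := by
      rw [hcc, ch_sq]
      ring
    have htsh : t ≤ 3 / 8 * sh t := by
      have : 8 / 3 * t ≤ Real.sinh (8 / 3 * t) := Real.self_le_sinh_iff.2 (by positivity)
      unfold sh
      linarith
    -- the algebraic inequality
    have al := alg2 (d := c ^ 2 - 1) (e := 3 / 4 - r) (by nlinarith) (by linarith) (by linarith)
    obtain ⟨B, hB⟩ : ∃ B, B = 5 / 4 * (c ^ 2 - 1 / 4) + 3 / 8 - (c ^ 2 + 1 / 4) * r := ⟨_, rfl⟩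
    have hB0 : 0 ≤ B := by
      rw [hB]
      nlinarith
    rw [← hB] at k1
    have al2' : (1 + (c ^ 2 - 1) / 2) * (c ^ 2 - 1) * r * (3 - 4 * r) * B ≤
        0.45 * ((c ^ 2 - 1 / 4) ^ 2 * qd c r) := by
      have e1 : (3 / 4 - (3 / 4 - r)) * (4 * (3 / 4 - r)) = r * (3 - 4 * r) := by ring
      have e2 : (c ^ 2 - 1) / 2 + 3 / 8 + (3 / 4 - r) * (c ^ 2 - 1 + 5 / 4) = B := by
        rw [hB]
        ring
      have e3 : (3 / 4 - r) ^ 2 + (c ^ 2 - 1) * (c ^ 2 - 1 + 3 / 4 + (3 / 4 - r)) = qd c r := by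
        unfold qd
        ring
      rw [e2, e3] at al
      calc _ = (1 + (c ^ 2 - 1) / 2) * (c ^ 2 - 1) * (3 / 4 - (3 / 4 - r)) * (4 * (3 / 4 - r)) * B := by
            ring
        _ ≤ _ := al
        _ = _ := by ring
    have hk := k_ge hc
    have hk2 : 0 < (c ^ 2 - 1 / 4) ^ 2 * qd c r := by positivity
    obtain ⟨G, hG⟩ : ∃ G, G = r * B / ((c ^ 2 - 1 / 4) ^ 2 * qd c r) := ⟨_, rfl⟩
    rw [← hG] at k1
    have hG0 : 0 ≤ G := by rw [hG]; positivity
    have g1 : c * (c ^ 2 - 1) * (3 - 4 * r) * G ≤ 0.45 := by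
      have h3 : c ≤ 1 + (c ^ 2 - 1) / 2 := by nlinarith [sq_nonneg (c - 1)]
      have h4 : c * ((c ^ 2 - 1) * r * (3 - 4 * r) * B) ≤
          (1 + (c ^ 2 - 1) / 2) * ((c ^ 2 - 1) * r * (3 - 4 * r) * B) := by
        refine mul_le_mul_of_nonneg_right h3 ?_
        have : 0 ≤ c ^ 2 - 1 := by nlinarith
        have : 0 ≤ 3 - 4 * r := by linarith
        positivity
      have h5 : c * (c ^ 2 - 1) * (3 - 4 * r) * G =
          c * ((c ^ 2 - 1) * r * (3 - 4 * r) * B) / ((c ^ 2 - 1 / 4) ^ 2 * qd c r) := by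
        rw [hG]
        ring
      rw [h5, div_le_iff₀ hk2]
      linarith
    have s3 := Apx.s3.1
    have q3 := Apx.s3sq
    obtain ⟨V, hVd⟩ : ∃ V, V = a * Real.cos (Real.pi * p / 3) + b * Real.cos (Real.pi * q / 3) :=
      ⟨_, rfl⟩
    rw [← hVd] at k2 k3 hV
    obtain ⟨W, hW⟩ : ∃ W, W = a * Real.sin (Real.pi * p / 3 - al2 a b p q t) := ⟨_, rfl⟩
    rw [← hW] at k1 k2
    -- `n ≤ (3 - 4 r) V G / 2`
    have n1 : nD a b p q t ≤ (3 - 4 * r) * V * G / 2 := by
      have h1 := mul_le_mul_of_nonneg_right k2 hG0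
      linarith
    -- conclusion
    have key : t * (sh t * nD a b p q t) ≤ l / 8 * dD a b p q t := by
      have h1 : t * sh t ≤ 3 / 8 * (c ^ 2 - 1) := by
        rw [← hshc]
        nlinarith
      have h0 : 0 ≤ t * sh t := mul_nonneg ht hsh
      have h2 : t * sh t * nD a b p q t ≤ t * sh t * ((3 - 4 * r) * V * G / 2) :=
        mul_le_mul_of_nonneg_left n1 h0
      have h34 : 0 ≤ 3 - 4 * r := by linarith
      have h3 : t * sh t * ((3 - 4 * r) * V * G / 2) ≤
          3 / 8 * (c ^ 2 - 1) * ((3 - 4 * r) * V * G / 2) :=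
        mul_le_mul_of_nonneg_right h1 (by positivity)
      have h4 : 3 / 8 * (c ^ 2 - 1) * ((3 - 4 * r) * V * G / 2) ≤
          l / 8 * (√3 / c * (Real.cos (al2 a b p q t) * V)) := by
        have e1 : 3 / 8 * (c ^ 2 - 1) * ((3 - 4 * r) * V * G / 2) =
            3 / 16 * (c * (c ^ 2 - 1) * (3 - 4 * r) * G) * (V / c) := by
          field_simp
          ring
        have e2 : l / 8 * (√3 / c * (Real.cos (al2 a b p q t) * V)) =
            (l / 8 * √3 * Real.cos (al2 a b p q t)) * (V / c) := by ring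
        rw [e1, e2]
        refine mul_le_mul_of_nonneg_right ?_ (by positivity)
        have hpi := Real.pi_gt_d4
        have hl2 : 0.3926 < l := by
          unfold l
          norm_num at hpi ⊢
          linarith
        have h5 : 0.0844 ≤ l / 8 * √3 * Real.cos (al2 a b p q t) := by
          have h6 : 0.3926 * 1.73205 ≤ l * √3 := mul_le_mul hl2.le s3.le (by norm_num) hl.le
          have h7 : 0.3926 * 1.73205 * 0.998 ≤ l * √3 * Real.cos (al2 a b p q t) :=
            mul_le_mul h6 hcos (by norm_num) (by positivity)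
          norm_num at h7 ⊢
          linarith
        norm_num at h5 g1 ⊢
        linarith
      have h5 := mul_le_mul_of_nonneg_left k3 (by positivity : 0 ≤ l / 8)
      calc t * (sh t * nD a b p q t) = t * sh t * nD a b p q t := by ring
        _ ≤ _ := h2.trans (h3.trans (h4.trans h5))
    have : t * (sh t * nD a b p q t / dD a b p q t) ≤ l / 8 := by
      rw [← mul_div_assoc, div_le_iff₀ hd]
      exact key
    linarith

/-- **scaling**: `- l / 8 ≤ t η'(t)` -/
theorem Bal2.scal (h : Bal2 a b p q) (t : ℝ) : -(l / 8) ≤ t * eta2' a b p q t := by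
  rcases le_total 0 t with ht | ht
  · exact h.scal_pos ht
  · have h1 := h.scal_pos (t := -t) (by linarith)
    have h2 : eta2' a b p q (-t) = -eta2' a b p q t := eta'_neg h.wt h.lev t
    rw [h2] at h1
    linarith

/-- **scaling condition**: `η ((1 - ε) t) ≤ η t + ε l / 7` -/
theorem Bal2.sc (h : Bal2 a b p q) {ε : ℝ} (h0 : 0 ≤ ε) (h1 : ε ≤ 1 / 8) (t : ℝ) :
    eta2 a b p q ((1 - ε) * t) ≤ eta2 a b p q t + ε * l / 7 := by
  have hl := l_pos'
  have hd : ∀ x ∈ Icc (1 - ε) 1, HasDerivAt (fun x => eta2 a b p q (x * t) + l / 8 * Real.log x)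
      (eta2' a b p q (x * t) * t + l / 8 * x⁻¹) x := by
    intro x hx
    have hx0 : 0 < x := by linarith [hx.1]
    have g1 : HasDerivAt (fun x => eta2 a b p q (x * t)) (eta2' a b p q (x * t) * (1 * t)) x :=
      (h.hasDerivAt (x * t)).comp x ((hasDerivAt_id x).mul_const t)
    rw [one_mul] at g1
    exact g1.add ((Real.hasDerivAt_log hx0.ne').const_mul (l / 8))
  have hm : MonotoneOn (fun x => eta2 a b p q (x * t) + l / 8 * Real.log x) (Icc (1 - ε) 1) := by
    refine monotoneOn_of_deriv_nonneg (convex_Icc _ _)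
      (fun x hx => (hd x hx).continuousAt.continuousWithinAt)
      (fun x hx => ?_) fun x hx => ?_
    · rw [interior_Icc] at hx
      exact (hd x ⟨hx.1.le, hx.2.le⟩).differentiableAt.differentiableWithinAt
    · rw [interior_Icc] at hx
      rw [(hd x ⟨hx.1.le, hx.2.le⟩).deriv]
      have hx0 : 0 < x := by linarith [hx.1]
      have h2 := h.scal (x * t)
      have e : eta2' a b p q (x * t) * t + l / 8 * x⁻¹ =
          (x * t * eta2' a b p q (x * t) + l / 8) / x := by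
        field_simp
      rw [e]
      exact div_nonneg (by linarith) hx0.le
  have h3 := hm ⟨le_rfl, by linarith⟩ ⟨by linarith, le_rfl⟩ (by linarith : 1 - ε ≤ 1)
  simp only [one_mul, Real.log_one, mul_zero, add_zero] at h3
  have h4 := Real.one_sub_inv_le_log_of_pos (x := 1 - ε) (by linarith)
  have h5 : 1 - (1 - ε)⁻¹ = -(ε / (1 - ε)) := by
    have : 1 - ε ≠ 0 := by linarith
    field_simp
    ring
  have h6 : ε / (1 - ε) ≤ 8 / 7 * ε := by
    rw [div_le_iff₀ (by linarith)]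
    nlinarith
  rw [h5] at h4
  nlinarith

end bal

end PLT

end
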