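import Pool.Agent.PLT.Slope1
import Pool.Agent.PLT.Two

/-!
# The slope of the static curve of two rows is at most `6 / 25`

* `AT c x`: height derivative of the level function of a row, `hasDerivAt_AL_c`;
* `two_re`, `two_im`: the gradient for two rows; `eta'_two`;
* **`eta'_nonpos`**: `η' ≤ 0` for `t ≥ 0`; **`slope3`**: `|η'| ≤ 6 / 25`.
-/

set_option autoImplicit false

noncomputable section

open MeasureTheory Set Filter Topology

namespace PLT

open NUMF

namespace CA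

variable {c x : ℝ}

/-- height derivative of the level function of a row -/
def AT (c x : ℝ) : ℝ := √3 * Real.sin x * (c ^ 2 + 1 / 4 - Real.sin x ^ 2) / qd c (Real.sin x ^ 2)

theorem hasDerivAt_AL_c (hc : 1 ≤ c) (h1 : -(Real.pi / 3) < x) (h2 : x < Real.pi / 3) :
    HasDerivAt (fun c => AL c x) (-AT c x) c := by
  obtain ⟨⟨p1, p2⟩, p3, p4⟩ := posX hc h1 h2
  have g1 := hasDerivAt_La_c p1 p2
  have g2 := hasDerivAt_La_c p3 p4
  refine (g1.add g2).congr_deriv ?_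
  have hq : qd c (Real.sin x ^ 2) = (c ^ 2 - Real.sin (x - Real.pi / 6) ^ 2) *
      (c ^ 2 - Real.sin (x + Real.pi / 6) ^ 2) := by
    rw [← qd_eq, ← (mulX c x).1, ← (mulX c x).2]
    ring
  have d1 : 0 < c ^ 2 - Real.sin (x - Real.pi / 6) ^ 2 := by
    have e : c ^ 2 - Real.sin (x - Real.pi / 6) ^ 2 =
      (c + Real.sin (x - Real.pi / 6)) * (c - Real.sin (x - Real.pi / 6)) := by ring
    rw [e]
    positivity
  have d2 : 0 < c ^ 2 - Real.sin (x + Real.pi / 6) ^ 2 := by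
    have e : c ^ 2 - Real.sin (x + Real.pi / 6) ^ 2 =
      (c + Real.sin (x + Real.pi / 6)) * (c - Real.sin (x + Real.pi / 6)) := by ring
    rw [e]
    positivity
  unfold AT
  rw [hq, ← neg_add, div_add_div _ _ d1.ne' d2.ne']
  congr 2
  obtain ⟨e1, e2⟩ := sin_pm x
  have q := Apx.s3sq
  have cs := Real.sin_sq_add_cos_sq x
  rw [e1, e2]
  obtain ⟨s, hs⟩ : ∃ s, s = Real.sin x := ⟨_, rfl⟩
  obtain ⟨k, hk⟩ : ∃ k, k = Real.cos x := ⟨_, rfl⟩
  obtain ⟨z, hz⟩ : ∃ z : ℝ, z = √3 := ⟨_, rfl⟩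
  rw [← hs, ← hk] at cs ⊢
  rw [← hz] at q ⊢
  linear_combination (-(z * s ^ 3 / 4)) * q + (z * s / 4) * cs

theorem ang3 {v : ℝ} (hv : |v| < l) : -(Real.pi / 3) < 8 / 3 * v ∧ 8 / 3 * v < Real.pi / 3 := by
  obtain ⟨h1, h2⟩ := abs_lt.1 hv
  rw [pi_eq_l]
  constructor <;> linarith

theorem Ag_t {v : ℝ} (hv : |v| < l) (t : ℝ) :
    2 * Real.pi * (Pc ((t : ℂ) + v * Complex.I)).im = -(8 / 3 * sh t * AT (ch t) (8 / 3 * v)) := by
  obtain ⟨h1, h2⟩ := ang3 hv
  have g := (hasDerivAt_AL_c (one_le_ch t) h1 h2).comp t (hasDerivAt_ch t)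
  have e := (hasDerivAt_Ag_t hv t).unique g
  rw [e]
  ring

theorem Ag_v {v : ℝ} (hv : |v| < l) (t : ℝ) :
    2 * Real.pi * (Pc ((t : ℂ) + v * Complex.I)).re = 8 / 3 * AD (ch t) (8 / 3 * v) := by
  obtain ⟨h1, h2⟩ := ang3 hv
  have h0 : HasDerivAt (fun v : ℝ => 8 / 3 * v) (8 / 3) v := by
    simpa using (hasDerivAt_id v).const_mul (8 / 3)
  have g := (hasDerivAt_AL (one_le_ch t) h1 h2).comp v h0
  have e := (hasDerivAt_Ag_v hv t).unique g
  rw [e]
  unfold AD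
  ring

/-- the common denominator -/
def Qf (μ z : ℝ) : ℝ := μ ^ 2 + 3 * μ + μ * z + z ^ 2

theorem qd_Qf (c x : ℝ) : qd c (Real.sin x ^ 2) = Qf (4 * c ^ 2 - 4) (4 * Real.cos x ^ 2 - 1) / 16 := by
  have h : Real.sin x ^ 2 = 1 - Real.cos x ^ 2 := by linarith [Real.sin_sq_add_cos_sq x]
  rw [h]
  unfold qd Qf
  ring

theorem AT_eq (c x : ℝ) : AT c x = 4 * √3 * Real.sin x *
    ((4 * c ^ 2 - 4) + (4 * Real.cos x ^ 2 - 1) + 2) / Qf (4 * c ^ 2 - 4) (4 * Real.cos x ^ 2 - 1) := by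
  unfold AT
  rw [qd_Qf]
  have h : Real.sin x ^ 2 = 1 - Real.cos x ^ 2 := by linarith [Real.sin_sq_add_cos_sq x]
  rw [h, div_div_eq_mul_div]
  congr 1
  ring

theorem AD_eq (c x : ℝ) : AD c x = 4 * √3 * c * Real.cos x *
    ((4 * c ^ 2 - 4) + (4 * Real.cos x ^ 2 - 1)) / Qf (4 * c ^ 2 - 4) (4 * Real.cos x ^ 2 - 1) := by
  unfold AD
  rw [qd_Qf]
  have h : Real.sin x ^ 2 = 1 - Real.cos x ^ 2 := by linarith [Real.sin_sq_add_cos_sq x]
  rw [h, div_div_eq_mul_div]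
  congr 1
  ring

theorem AT_neg (c x : ℝ) : AT c (-x) = -AT c x := by
  unfold AT
  rw [Real.sin_neg, neg_sq]
  ring

theorem AD_neg (c x : ℝ) : AD c (-x) = AD c x := by
  unfold AD
  rw [Real.sin_neg, neg_sq, Real.cos_neg]

theorem Qf_pos {μ z : ℝ} (hμ : 0 ≤ μ) (hz : 0 < z) : 0 < Qf μ z := by
  unfold Qf
  positivity

section angles

variable {a b p q : ℝ}

/-- the angle of the left row -/
def pa (p v : ℝ) : ℝ := Real.pi * p / 3 - 8 / 3 * v

/-- the angle of the right row -/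
def qa (q v : ℝ) : ℝ := Real.pi * q / 3 + 8 / 3 * v

theorem two_re {v : ℝ} (hv : v ∈ Dm (xT p q)) (t : ℝ) :
    2 * Real.pi * (PC (mT a b) (xT p q) ((t : ℂ) + v * Complex.I)).re =
      8 / 3 * (a * AD (ch t) (pa p v) + b * AD (ch t) (qa q v)) := by
  obtain ⟨h1, h2⟩ := mem_Dm2.1 hv
  rw [PC_re, Fin.sum_univ_two]
  show 2 * Real.pi * (a * (Pc ((t : ℂ) + ((v + -(p * l) : ℝ) : ℂ) * Complex.I)).re +
    b * (Pc ((t : ℂ) + ((v + q * l : ℝ) : ℂ) * Complex.I)).re) = _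
  have e1 := Ag_v h1 t
  have e2 := Ag_v h2 t
  rw [ang_eq] at e1
  rw [ang_eq'] at e2
  rw [AD_neg] at e1
  rw [← sub_eq_add_neg]
  unfold pa qa
  linear_combination a * e1 + b * e2

theorem two_im {v : ℝ} (hv : v ∈ Dm (xT p q)) (t : ℝ) :
    2 * Real.pi * (PC (mT a b) (xT p q) ((t : ℂ) + v * Complex.I)).im =
      -(8 / 3 * sh t * (b * AT (ch t) (qa q v) - a * AT (ch t) (pa p v))) := by
  obtain ⟨h1, h2⟩ := mem_Dm2.1 hv
  rw [PC_im, Fin.sum_univ_two]
  show 2 * Real.pi * (a * (Pc ((t : ℂ) + ((v + -(p * l) : ℝ) : ℂ) * Complex.I)).im +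
    b * (Pc ((t : ℂ) + ((v + q * l : ℝ) : ℂ) * Complex.I)).im) = _
  have e1 := Ag_t h1 t
  have e2 := Ag_t h2 t
  rw [ang_eq] at e1
  rw [ang_eq'] at e2
  rw [AT_neg] at e1
  rw [← sub_eq_add_neg]
  unfold pa qa
  linear_combination a * e1 + b * e2

/-- the angles of a balanced content in the window -/
structure AnG (P Q : ℝ) : Prop where
  p0 : -(Real.pi / 6) < P
  p1 : P < Real.pi / 3
  q0 : 0 ≤ Q
  q1 : Q ≤ Real.pi / 4
  pq : P + Q ≤ Real.pi / 3

theorem anG (h : Bal2 a b p q) {v : ℝ} (hv : v ∈ Icc 0 v0) : AnG (pa p v) (qa q v) := by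
  have hp := Real.pi_pos
  have he : 8 / 3 * v0 = Apx.ep := by
    unfold v0
    ring
  have he1 := Apx.ep_lt
  have h1 := h.q0
  have h2 := h.qp
  have h3 := h.pq
  have h4 := h.p1
  obtain ⟨v1, v2⟩ := hv
  have h5 : 0 ≤ Real.pi * q := by positivity
  have h6 : Real.pi * q ≤ Real.pi * p := mul_le_mul_of_nonneg_left h2 hp.le
  have h7 : Real.pi * p < Real.pi * 1 := mul_lt_mul_of_pos_left h4 hp
  have h8 : Real.pi * (p + q) ≤ Real.pi * 1 := mul_le_mul_of_nonneg_left h3 hp.le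
  unfold pa qa
  constructor <;> nlinarith

theorem bal_shift (h : Bal2 a b p q) {v : ℝ} (hv : v ∈ Icc 0 v0) :
    a * Real.sin (pa p v) ≤ b * Real.sin (qa q v) := by
  have hp := Real.pi_pos
  have he : 8 / 3 * v0 = Apx.ep := by
    unfold v0
    ring
  have he1 := Apx.ep_lt
  have h1 := h.q0
  have h2 := h.qp
  have h3 := h.pq
  have h4 := h.p1
  obtain ⟨v1, v2⟩ := hv
  have h5 : 0 ≤ Real.pi * q := by positivity
  have h6 : Real.pi * q ≤ Real.pi * p := mul_le_mul_of_nonneg_left h2 hp.le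
  have h7 : Real.pi * p < Real.pi * 1 := mul_lt_mul_of_pos_left h4 hp
  have hs : 0 ≤ Real.sin (8 / 3 * v) :=
    Real.sin_nonneg_of_nonneg_of_le_pi (by positivity) (by linarith)
  have c1 : 0 ≤ Real.cos (Real.pi * p / 3) :=
    Real.cos_nonneg_of_neg_pi_div_two_le_of_le (by linarith) (by linarith)
  have c2 : 0 ≤ Real.cos (Real.pi * q / 3) :=
    Real.cos_nonneg_of_neg_pi_div_two_le_of_le (by linarith) (by linarith)
  unfold pa qa
  rw [Real.sin_sub, Real.sin_add]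
  have h8 : 0 ≤ Real.sin (8 / 3 * v) * (a * Real.cos (Real.pi * p / 3) +
      b * Real.cos (Real.pi * q / 3)) :=
    mul_nonneg hs (add_nonneg (mul_nonneg h.a0 c1) (mul_nonneg h.b0.le c2))
  have h9 : a * Real.sin (Real.pi * p / 3) * Real.cos (8 / 3 * v) =
      b * Real.sin (Real.pi * q / 3) * Real.cos (8 / 3 * v) := by rw [h.bal]
  linarith

theorem zpos {x : ℝ} (h1 : -(Real.pi / 3) < x) (h2 : x < Real.pi / 3) :
    0 < 4 * Real.cos x ^ 2 - 1 ∧ 4 * Real.cos x ^ 2 - 1 ≤ 3 ∧ 0 < Real.cos x := by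
  have h3 := sin_sq_lt h1 h2
  have h4 := Real.sin_sq_add_cos_sq x
  have h5 := Real.cos_sq_le_one x
  refine ⟨by linarith, by linarith, Real.cos_pos_of_mem_Ioo ⟨?_, ?_⟩⟩ <;>
    linarith [Real.pi_pos]

theorem AnG.zs {P Q : ℝ} (g : AnG P Q) : 0 < 4 * Real.cos P ^ 2 - 1 ∧ 4 * Real.cos P ^ 2 - 1 ≤ 3 ∧
    0 < Real.cos P ∧ 1 ≤ 4 * Real.cos Q ^ 2 - 1 ∧ 4 * Real.cos Q ^ 2 - 1 ≤ 3 ∧ 0 < Real.cos Q := by
  have hp := Real.pi_pos
  obtain ⟨h1, h2, h3⟩ := zpos (x := P) (by linarith [g.p0]) g.p1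
  obtain ⟨h4, h5, h6⟩ := zpos (x := Q) (by linarith [g.q0]) (by linarith [g.q1])
  refine ⟨h1, h2, h3, ?_, h5, h6⟩
  have h7 : Real.cos (Real.pi / 4) ≤ Real.cos Q :=
    Real.cos_le_cos_of_nonneg_of_le_pi g.q0 (by linarith) g.q1
  have h8 : Real.cos (Real.pi / 4) ^ 2 = 1 / 2 := by
    rw [Real.cos_pi_div_four, div_pow, Real.sq_sqrt (by norm_num)]
    norm_num
  have h9 : Real.cos (Real.pi / 4) ^ 2 ≤ Real.cos Q ^ 2 :=
    pow_le_pow_left₀ (Real.cos_nonneg_of_neg_pi_div_two_le_of_le (by linarith) (by linarith)) h7 2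
  linarith

/-- difference of the quotients -/
theorem diffG {μ x y : ℝ} (h1 : 0 < Qf μ x) (h2 : 0 < Qf μ y) : (μ + x + 2) / Qf μ x -
    (μ + y + 2) / Qf μ y = (y - x) * (2 * (x + y) + x * y + μ * (x + y - 1)) / (Qf μ x * Qf μ y) := by
  rw [div_sub_div _ _ h1.ne' h2.ne']
  congr 1
  unfold Qf
  ring

/-- the slope inequality at an offset of the window -/
theorem slope_ineq {P Q c s : ℝ} (g : AnG P Q) (ha : 0 ≤ a) (hb : 0 < b)
    (hbal : a * Real.sin P ≤ b * Real.sin Q) (hc : 1 ≤ c) (hs : 0 ≤ s) (hcs : c ^ 2 = s ^ 2 + 1) :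
    25 / 6 * s * (a * AT c P - b * AT c Q) ≤ a * AD c P + b * AD c Q := by
  have hpi := Real.pi_pos
  obtain ⟨x0, x3, cP, y1, y3, cQ⟩ := g.zs
  have e1 := AT_eq c P
  have e2 := AT_eq c Q
  have e3 := AD_eq c P
  have e4 := AD_eq c Q
  obtain ⟨μ, hμ⟩ : ∃ μ, μ = 4 * c ^ 2 - 4 := ⟨_, rfl⟩
  obtain ⟨x, hx⟩ : ∃ x, x = 4 * Real.cos P ^ 2 - 1 := ⟨_, rfl⟩
  obtain ⟨y, hy⟩ : ∃ y, y = 4 * Real.cos Q ^ 2 - 1 := ⟨_, rfl⟩
  rw [← hμ, ← hx] at e1 e3
  rw [← hμ, ← hy] at e2 e4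
  rw [← hx] at x0 x3
  rw [← hy] at y1 y3
  have hμ0 : 0 ≤ μ := by
    rw [hμ]
    nlinarith
  have q1 := Qf_pos hμ0 x0
  have q2 := Qf_pos hμ0 (by linarith : 0 < y)
  have s3 : 0 < √3 := Real.sqrt_pos.2 (by norm_num)
  have sQ : 0 ≤ Real.sin Q := Real.sin_nonneg_of_nonneg_of_le_pi g.q0 (by linarith [g.q1])
  have hD : 0 ≤ a * AD c P + b * AD c Q :=
    add_nonneg (mul_nonneg ha (AD_pos hc (by linarith [g.p0]) g.p1).le)
      (mul_nonneg hb.le (AD_pos hc (by linarith [g.q0]) (by linarith [g.q1])).le)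
  have hTQ : 0 ≤ b * AT c Q := by
    rw [e2]
    have : 0 ≤ μ + y + 2 := by linarith
    positivity
  -- trivial cases
  rcases le_or_gt (a * AT c P) (b * AT c Q) with h0 | h0
  · have : 25 / 6 * s * (a * AT c P - b * AT c Q) ≤ 0 :=
      mul_nonpos_of_nonneg_of_nonpos (by positivity) (by linarith)
    linarith
  have ha0 : 0 < a := by
    rcases ha.eq_or_lt with h | h
    · rw [← h, zero_mul] at h0
      linarith
    · exact h
  have hTP : 0 < AT c P := by
    have h1 : 0 < a * AT c P := hTQ.trans_lt h0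
    exact (mul_pos_iff_of_pos_left ha0).1 h1
  have sP : 0 < Real.sin P := by
    by_contra hcon
    have h1 : AT c P ≤ 0 := by
      rw [e1]
      refine div_nonpos_of_nonpos_of_nonneg ?_ q1.le
      refine mul_nonpos_of_nonpos_of_nonneg ?_ (by linarith)
      exact mul_nonpos_of_nonneg_of_nonpos (by positivity) (not_lt.1 hcon)
    linarith
  have hP0 : 0 < P := by
    by_contra hcon
    have := Real.sin_nonpos_of_nonpos_of_neg_pi_le (x := P) (not_lt.1 hcon) (by linarith [g.p0])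
    linarith
  have sQ0 : 0 < Real.sin Q := by
    rcases sQ.eq_or_lt with h | h
    · rw [← h, mul_zero] at hbal
      have := mul_pos ha0 sP
      linarith
    · exact h
  -- P > Q
  have hxy : x ≤ y := by
    by_contra hcon
    have hcon' := not_le.1 hcon
    have hd := diffG q1 q2
    have h1 : (μ + x + 2) / Qf μ x ≤ (μ + y + 2) / Qf μ y := by
      have h2 : (y - x) * (2 * (x + y) + x * y + μ * (x + y - 1)) / (Qf μ x * Qf μ y) ≤ 0 := by
        refine div_nonpos_of_nonpos_of_nonneg ?_ (by positivity)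
        refine mul_nonpos_of_nonpos_of_nonneg (by linarith) ?_
        have : 0 ≤ x * y := by nlinarith
        have : 0 ≤ μ * (x + y - 1) := mul_nonneg hμ0 (by linarith)
        linarith
      linarith
    have h3 : a * AT c P ≤ b * AT c Q := by
      have f1 : a * AT c P = 4 * √3 * (a * Real.sin P) * ((μ + x + 2) / Qf μ x) := by
        rw [e1]
        ring
      have f2 : b * AT c Q = 4 * √3 * (b * Real.sin Q) * ((μ + y + 2) / Qf μ y) := by
        rw [e2]
        ring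
      rw [f1, f2]
      have h4 : 0 ≤ (μ + x + 2) / Qf μ x := div_nonneg (by linarith) q1.le
      refine mul_le_mul ?_ h1 h4 (by positivity)
      exact mul_le_mul_of_nonneg_left hbal (by positivity)
    linarith
  have hy2 : 2 ≤ y := by
    have h1 : 2 * Real.cos (P + Q) * Real.cos (P - Q) = 2 * Real.cos P ^ 2 + 2 * Real.cos Q ^ 2 - 2 := by
      rw [Real.cos_add, Real.cos_sub]
      have a1 := Real.sin_sq_add_cos_sq P
      have a2 := Real.sin_sq_add_cos_sq Q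
      have a3 : Real.sin P ^ 2 = 1 - Real.cos P ^ 2 := by linarith
      have a4 : Real.sin Q ^ 2 = 1 - Real.cos Q ^ 2 := by linarith
      have : 2 * (Real.cos P * Real.cos Q - Real.sin P * Real.sin Q) *
          (Real.cos P * Real.cos Q + Real.sin P * Real.sin Q) =
          2 * (Real.cos P ^ 2 * Real.cos Q ^ 2 - Real.sin P ^ 2 * Real.sin Q ^ 2) := by ring
      rw [this, a3, a4]
      ring
    have hPQ : Q ≤ P := by
      by_contra hcon
      have h2 : Real.cos Q ^ 2 < Real.cos P ^ 2 := by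
        have h3 := Real.cos_lt_cos_of_nonneg_of_le_pi hP0.le (by linarith [g.q1]) (not_le.1 hcon)
        nlinarith
      linarith
    have hQ6 : Q ≤ Real.pi / 6 := by linarith [g.pq]
    have h3 : Real.cos (Real.pi / 6) ≤ Real.cos Q :=
      Real.cos_le_cos_of_nonneg_of_le_pi g.q0 (by linarith) hQ6
    have h4 : Real.cos (Real.pi / 6) ^ 2 = 3 / 4 := by
      rw [Real.cos_pi_div_six, div_pow, Real.sq_sqrt (by norm_num)]
      norm_num
    have h5 : Real.cos (Real.pi / 6) ^ 2 ≤ Real.cos Q ^ 2 :=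
      pow_le_pow_left₀ (Real.cos_nonneg_of_neg_pi_div_two_le_of_le (by linarith) (by linarith)) h3 2
    rw [hy]
    linarith
  have hQ6 : Q ≤ Real.pi / 6 := by
    by_contra hcon
    have h3 : Real.cos Q < Real.cos (Real.pi / 6) :=
      Real.cos_lt_cos_of_nonneg_of_le_pi (by linarith) (by linarith [g.q1]) (not_le.1 hcon)
    have h4 : Real.cos (Real.pi / 6) ^ 2 = 3 / 4 := by
      rw [Real.cos_pi_div_six, div_pow, Real.sq_sqrt (by norm_num)]
      norm_num
    have h5 : Real.cos Q ^ 2 < 3 / 4 := by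
      rw [← h4]
      exact pow_lt_pow_left₀ h3 cQ.le (by norm_num)
    rw [hy] at hy2
    linarith
  have hcot := cot_mul_ge hP0.le g.q0 hQ6 g.pq
  rw [← hx] at hcot
  have s3sq : √3 ^ 2 = 3 := Real.sq_sqrt (by norm_num)
  -- cot P
  have hA : 1 ≤ Real.cos P / Real.sin P * √3 := by
    have h5 : 0 ≤ Real.sin (Real.pi / 3 - P) :=
      Real.sin_nonneg_of_nonneg_of_le_pi (by linarith [g.p1]) (by linarith)
    rw [Real.sin_sub, Real.sin_pi_div_three, Real.cos_pi_div_three] at h5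
    rw [div_mul_eq_mul_div, le_div_iff₀ sP]
    linarith
  have hB : 2 * √3 ≤ Real.cos Q / Real.sin Q * x := by
    rw [div_mul_eq_mul_div, le_div_iff₀ sQ0]
    exact hcot
  obtain ⟨θ, hθ⟩ : ∃ θ, θ = s / c := ⟨_, rfl⟩
  have hc0 : 0 < c := by linarith
  have hθ2 : θ ^ 2 ≤ μ / 4 := by
    rw [hθ, div_pow, div_le_iff₀ (by positivity), hμ]
    nlinarith [sq_nonneg s, sq_nonneg c]
  have key := slope_alg (A := Real.cos P / Real.sin P) (B := Real.cos Q / Real.sin Q) s3 s3sq hA hB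
    x0 hxy hy2 y3 hμ0 hθ2
  -- lower bound of the right side
  have r1 : a * AD c P + b * AD c Q = 4 * √3 * c * (a * Real.cos P * ((μ + x) / Qf μ x) +
      b * Real.cos Q * ((μ + y) / Qf μ y)) := by
    rw [e3, e4]
    ring
  have r2 : a * Real.sin P * (Real.cos Q / Real.sin Q) ≤ b * Real.cos Q := by
    rw [mul_div_assoc', div_le_iff₀ sQ0]
    nlinarith [mul_le_mul_of_nonneg_right hbal cQ.le]
  have r3 : a * AT c P - b * AT c Q ≤ 4 * √3 * (a * Real.sin P) *
      ((μ + x + 2) / Qf μ x - (μ + y + 2) / Qf μ y) := by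
    have f1 : a * AT c P = 4 * √3 * (a * Real.sin P) * ((μ + x + 2) / Qf μ x) := by
      rw [e1]
      ring
    have f2 : b * AT c Q = 4 * √3 * (b * Real.sin Q) * ((μ + y + 2) / Qf μ y) := by
      rw [e2]
      ring
    have h4 : 0 ≤ (μ + y + 2) / Qf μ y := div_nonneg (by linarith) q2.le
    have h5 : 4 * √3 * (a * Real.sin P) * ((μ + y + 2) / Qf μ y) ≤
        4 * √3 * (b * Real.sin Q) * ((μ + y + 2) / Qf μ y) :=
      mul_le_mul_of_nonneg_right (mul_le_mul_of_nonneg_left hbal (by positivity)) h4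
    rw [f1, f2]
    linarith
  rw [diffG q1 q2] at r3
  have hQQ : 0 < Qf μ x * Qf μ y := mul_pos q1 q2
  have r4 : Real.cos P / Real.sin P * ((μ + x) / Qf μ x) +
      Real.cos Q / Real.sin Q * ((μ + y) / Qf μ y) =
      (Real.cos P / Real.sin P * (μ + x) * (μ ^ 2 + 3 * μ + μ * y + y ^ 2) +
        Real.cos Q / Real.sin Q * (μ + y) * (μ ^ 2 + 3 * μ + μ * x + x ^ 2)) /
        (Qf μ x * Qf μ y) := by
    rw [eq_div_iff hQQ.ne']
    have f1 : (μ + x) / Qf μ x * (Qf μ x * Qf μ y) = (μ + x) * Qf μ y := by field_simp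
    have f2 : (μ + y) / Qf μ y * (Qf μ x * Qf μ y) = (μ + y) * Qf μ x := by field_simp
    calc _ = Real.cos P / Real.sin P * ((μ + x) / Qf μ x * (Qf μ x * Qf μ y)) +
        Real.cos Q / Real.sin Q * ((μ + y) / Qf μ y * (Qf μ x * Qf μ y)) := by ring
      _ = _ := by
        rw [f1, f2]
        unfold Qf
        ring
  have r5 : 25 / 6 * θ * ((y - x) * (2 * (x + y) + x * y + μ * (x + y - 1)) / (Qf μ x * Qf μ y)) ≤
      Real.cos P / Real.sin P * ((μ + x) / Qf μ x) +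
      Real.cos Q / Real.sin Q * ((μ + y) / Qf μ y) := by
    rw [r4, mul_div_assoc']
    exact div_le_div_of_nonneg_right key hQQ.le
  have hsc : s = θ * c := by
    rw [hθ]
    field_simp
  calc 25 / 6 * s * (a * AT c P - b * AT c Q) ≤ 25 / 6 * s * (4 * √3 * (a * Real.sin P) *
        ((y - x) * (2 * (x + y) + x * y + μ * (x + y - 1)) / (Qf μ x * Qf μ y))) :=
        mul_le_mul_of_nonneg_left r3 (by positivity)
    _ = 4 * √3 * c * (a * Real.sin P) * (25 / 6 * θ *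
        ((y - x) * (2 * (x + y) + x * y + μ * (x + y - 1)) / (Qf μ x * Qf μ y))) := by
        rw [hsc]
        ring
    _ ≤ 4 * √3 * c * (a * Real.sin P) * (Real.cos P / Real.sin P * ((μ + x) / Qf μ x) +
      Real.cos Q / Real.sin Q * ((μ + y) / Qf μ y)) :=
        mul_le_mul_of_nonneg_left r5 (by positivity)
    _ = 4 * √3 * c * (a * Real.cos P * ((μ + x) / Qf μ x) +
      a * Real.sin P * (Real.cos Q / Real.sin Q) * ((μ + y) / Qf μ y)) := by
        field_simp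
    _ ≤ 4 * √3 * c * (a * Real.cos P * ((μ + x) / Qf μ x) +
      b * Real.cos Q * ((μ + y) / Qf μ y)) := by
        refine mul_le_mul_of_nonneg_left ?_ (by positivity)
        have h4 : 0 ≤ (μ + y) / Qf μ y := div_nonneg (by linarith) q2.le
        have := mul_le_mul_of_nonneg_right r2 h4
        linarith
    _ = _ := r1.symm

/-- the sign of the time derivative is the sign of a cubic -/
theorem AT_Rm {P Q c : ℝ} (g : AnG P Q) (hc : 1 ≤ c) : ∃ K, 0 < K ∧
    b * AT c Q - a * AT c P = K * Rm (a * Real.sin P) (b * Real.sin Q) (4 * Real.cos P ^ 2)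
      (4 * Real.cos Q ^ 2) (4 * c ^ 2 - 3) := by
  obtain ⟨x0, x3, cP, y1, y3, cQ⟩ := g.zs
  have e1 := AT_eq c P
  have e2 := AT_eq c Q
  have hμ0 : 0 ≤ 4 * c ^ 2 - 4 := by nlinarith
  have q1 := Qf_pos hμ0 x0
  have q2 := Qf_pos hμ0 (by linarith : 0 < 4 * Real.cos Q ^ 2 - 1)
  have s3 : 0 < √3 := Real.sqrt_pos.2 (by norm_num)
  refine ⟨4 * √3 / (Qf (4 * c ^ 2 - 4) (4 * Real.cos P ^ 2 - 1) *
    Qf (4 * c ^ 2 - 4) (4 * Real.cos Q ^ 2 - 1)), by positivity, ?_⟩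
  rw [e1, e2]
  obtain ⟨A, hA⟩ : ∃ A, A = Qf (4 * c ^ 2 - 4) (4 * Real.cos P ^ 2 - 1) := ⟨_, rfl⟩
  obtain ⟨B, hB⟩ : ∃ B, B = Qf (4 * c ^ 2 - 4) (4 * Real.cos Q ^ 2 - 1) := ⟨_, rfl⟩
  have eR : Rm (a * Real.sin P) (b * Real.sin Q) (4 * Real.cos P ^ 2) (4 * Real.cos Q ^ 2)
      (4 * c ^ 2 - 3) = b * Real.sin Q * ((4 * c ^ 2 - 4) + (4 * Real.cos Q ^ 2 - 1) + 2) * A -
      a * Real.sin P * ((4 * c ^ 2 - 4) + (4 * Real.cos P ^ 2 - 1) + 2) * B := by
    rw [hA, hB]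
    unfold Rm Qf
    ring
  rw [eR, ← hA, ← hB]
  rw [← hA] at q1
  rw [← hB] at q2
  field_simp

theorem sum_pos (h : Bal2 a b p q) {v : ℝ} (hv : v ∈ Icc 0 v0) {c : ℝ} (hc : 1 ≤ c) :
    0 < a * AD c (pa p v) + b * AD c (qa q v) := by
  have hpi := Real.pi_pos
  have g := anG h hv
  exact add_pos_of_nonneg_of_pos (mul_nonneg h.a0 (AD_pos hc (by linarith [g.p0]) g.p1).le)
    (mul_pos h.b0 (AD_pos hc (by linarith [g.q0]) (by linarith [g.q1])))

theorem eta'_two (h : Bal2 a b p q) (t : ℝ) : eta' (mT a b) (xT p q) t =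
    sh t * (b * AT (ch t) (qa q (eta2 a b p q t)) - a * AT (ch t) (pa p (eta2 a b p q t))) /
      (a * AD (ch t) (pa p (eta2 a b p q t)) + b * AD (ch t) (qa q (eta2 a b p q t))) := by
  have hv := h.eta_mem t
  have h1 := two_re (a := a) (b := b) (h.mem' hv) t
  have h2 := two_im (a := a) (b := b) (h.mem' hv) t
  have h3 := sum_pos h hv (one_le_ch t)
  obtain ⟨D, hD⟩ : ∃ D, D = a * AD (ch t) (pa p (eta2 a b p q t)) +
    b * AD (ch t) (qa q (eta2 a b p q t)) := ⟨_, rfl⟩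
  obtain ⟨N, hN⟩ : ∃ N, N = b * AT (ch t) (qa q (eta2 a b p q t)) -
    a * AT (ch t) (pa p (eta2 a b p q t)) := ⟨_, rfl⟩
  rw [← hD] at h1 h3
  rw [← hN] at h2
  rw [← hD, ← hN]
  unfold eta'
  change -((PC (mT a b) (xT p q) ((t : ℂ) + (eta2 a b p q t : ℂ) * Complex.I)).im /
    (PC (mT a b) (xT p q) ((t : ℂ) + (eta2 a b p q t : ℂ) * Complex.I)).re) = _
  obtain ⟨R, hR⟩ : ∃ R, R = (PC (mT a b) (xT p q) ((t : ℂ) + (eta2 a b p q t : ℂ) * Complex.I)).re :=
    ⟨_, rfl⟩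
  obtain ⟨J, hJ⟩ : ∃ J, J = (PC (mT a b) (xT p q) ((t : ℂ) + (eta2 a b p q t : ℂ) * Complex.I)).im :=
    ⟨_, rfl⟩
  rw [← hR] at h1 ⊢
  rw [← hJ] at h2 ⊢
  have hpi := Real.pi_pos
  have hR0 : 0 < R := by
    have h4 : 0 < 2 * Real.pi * R := by
      rw [h1]
      positivity
    exact (mul_pos_iff_of_pos_left (by positivity)).1 h4
  rw [← neg_div, div_eq_div_iff hR0.ne' h3.ne']
  have h5 : 2 * Real.pi * (-J * D - sh t * N * R) = 0 := by
    linear_combination (-D) * h2 - (sh t * N) * h1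
  have h6 := (mul_eq_zero.1 h5).resolve_left (by positivity)
  linarith

theorem ch_le_ch {s t : ℝ} (h0 : 0 ≤ s) (h : s ≤ t) : ch s ≤ ch t := by
  unfold ch
  rw [Real.cosh_le_cosh, abs_of_nonneg (by positivity), abs_of_nonneg (by linarith)]
  linarith

theorem sh_pos {t : ℝ} (h : 0 < t) : 0 < sh t := by
  unfold sh
  exact Real.sinh_pos_iff.2 (by positivity)

/-- **the curve falls on the half line** -/
theorem eta'_nonpos (h : Bal2 a b p q) {t : ℝ} (ht : 0 ≤ t) : eta' (mT a b) (xT p q) t ≤ 0 := by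
  by_contra hcon
  have hpos := not_le.1 hcon
  have hv := h.eta_mem t
  have g := anG h hv
  rw [eta'_two h] at hpos
  have hD := sum_pos h hv (one_le_ch t)
  obtain ⟨v, hve⟩ : ∃ v, v = eta2 a b p q t := ⟨_, rfl⟩
  rw [← hve] at hpos hD g hv
  have ht0 : 0 < t := by
    rcases ht.eq_or_lt with h0 | h0
    · rw [← h0] at hpos
      have : sh 0 = 0 := by simp [sh]
      rw [this, zero_mul, zero_div] at hpos
      exact absurd hpos (lt_irrefl _)
    · exact h0
  have hN : 0 < b * AT (ch t) (qa q v) - a * AT (ch t) (pa p v) := by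
    have h1 : 0 < sh t * (b * AT (ch t) (qa q v) - a * AT (ch t) (pa p v)) := by
      by_contra h2
      have := div_nonpos_of_nonpos_of_nonneg (not_lt.1 h2) hD.le
      linarith
    exact (mul_pos_iff_of_pos_left (sh_pos ht0)).1 h1
  obtain ⟨K, hK, hKe⟩ := AT_Rm (a := a) (b := b) g (one_le_ch t)
  rw [hKe] at hN
  have hR := (mul_pos_iff_of_pos_left hK).1 hN
  have hbal := bal_shift h hv
  obtain ⟨x0, x3, cP, y1, y3, cQ⟩ := g.zs
  have hneg : ∀ s, t ≤ s → 0 < b * AT (ch s) (qa q v) - a * AT (ch s) (pa p v) := by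
    intro s hs
    obtain ⟨K', hK', hKe'⟩ := AT_Rm (a := a) (b := b) g (one_le_ch s)
    rw [hKe']
    refine mul_pos hK' (desc hbal (by positivity) (by positivity) (by linarith) ?_ ?_ hR)
    · have := one_le_ch t
      nlinarith
    · have h1 := ch_le_ch ht hs
      have h2 := one_le_ch t
      nlinarith
  have hm := h.mem' hv
  have hcont : ContinuousOn (fun s => SC (mT a b) (xT p q) v s) (Ici t) := fun s _ =>
    (hasDerivAt_SC_t hm s).continuousAt.continuousWithinAt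
  have hanti : StrictAntiOn (fun s => SC (mT a b) (xT p q) v s) (Ici t) := by
    refine strictAntiOn_of_deriv_neg (convex_Ici t) hcont fun s hs => ?_
    rw [interior_Ici, mem_Ioi] at hs
    rw [(hasDerivAt_SC_t hm s).deriv, two_im hm]
    have h1 := hneg s hs.le
    have h2 := sh_pos (ht0.trans hs)
    have : 0 < 8 / 3 * sh s * (b * AT (ch s) (qa q v) - a * AT (ch s) (pa p v)) := by positivity
    linarith
  have h0 : SC (mT a b) (xT p q) v t = 0 := by
    rw [SC_two, hve]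
    exact h.eta_eq t
  have h1 := hanti (mem_Ici.2 le_rfl) (mem_Ici.2 (by linarith : t ≤ t + 1)) (by linarith)
  simp only at h1
  rw [h0] at h1
  have h2 := nonneg_of_anti (t := t + 1)
    (fun x hx y hy hxy => hanti.antitoneOn (mem_Ici.2 (by have := mem_Ici.1 hx; linarith))
      (mem_Ici.2 (by have := mem_Ici.1 hy; linarith)) hxy) (SC_tendsto hm)
  linarith

/-- **the slope of the curve of two rows is at most `6 / 25`** -/
theorem slope3 (h : Bal2 a b p q) (t : ℝ) : |eta' (mT a b) (xT p q) t| ≤ 6 / 25 := by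
  have key : ∀ t, 0 ≤ t → |eta' (mT a b) (xT p q) t| ≤ 6 / 25 := by
    intro t ht
    have hv := h.eta_mem t
    have g := anG h hv
    rw [abs_le]
    refine ⟨?_, (eta'_nonpos h ht).trans (by norm_num)⟩
    have hD := sum_pos h hv (one_le_ch t)
    have h1 := slope_ineq g h.a0 h.b0 (bal_shift h hv) (one_le_ch t) (sh_nonneg ht) (ch_sq t)
    rw [eta'_two h, le_div_iff₀ hD]
    nlinarith
  rcases le_total 0 t with ht | ht
  · exact key t ht
  · have h1 := key (-t) (by linarith)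
    rw [eta'_neg h.wt h.lev, abs_neg] at h1
    exact h1

/-- **the slope of the curve of two rows is at most `1 / 4`** -/
theorem slope2 (h : Bal2 a b p q) (t : ℝ) : |eta' (mT a b) (xT p q) t| ≤ 1 / 4 :=
  (slope3 h t).trans (by norm_num)

/-- the height derivative of the curve has the size of its slope -/
theorem deriv_eta2 (h : Bal2 a b p q) (t : ℝ) : |deriv (eta2 a b p q) t| ≤ 1 / 4 := by
  have h1 := (hasDerivAt_eta h.wt h.lev t).deriv
  change deriv (eta2 a b p q) t = _ at h1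
  rw [h1]
  exact slope2 h t

end angles

end CA

end PLT

end
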