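import Pool.Agent.PLT.CurveH3
import Pool.Agent.PLT.CurveA
import Pool.Agent.PLT.Slope
import Pool.Agent.PLT.Scal

/-!
# The static curve of two rows at complex places: complex times and closeness to the real curves
-/

set_option autoImplicit false

noncomputable section

open Filter Topology Set NUMF
open scoped ContDiff ComplexConjugate

namespace PLT.CA

/-! ### complex times -/

/-- the hyperbolic tangent in the time -/
def th (z : ℂ) : ℂ := Complex.sinh (8 / 3 * z) / Complex.cosh (8 / 3 * z)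

theorem sc_sq_add {z : ℂ} (hz : |z.im| ≤ 3 / 8) : sc z ^ 2 + th z ^ 2 = 1 := by
  have h := cosh_ne hz
  have h1 := Complex.cosh_sq (8 / 3 * z)
  unfold sc th
  generalize Complex.cosh (8 / 3 * z) = C at *
  generalize Complex.sinh (8 / 3 * z) = S at *
  field_simp
  linear_combination -h1

theorem th_ofReal (t : ℝ) : th t = ((Real.tanh (8 / 3 * t) : ℝ) : ℂ) := by
  unfold th
  rw [Real.tanh_eq_sinh_div_cosh]
  push_cast
  rfl

theorem hasDerivAt_sc {z : ℂ} (hz : |z.im| ≤ 3 / 8) : HasDerivAt sc (8 / 3 * -(sc z * th z)) z := by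
  have h := cosh_ne hz
  have h1 : HasDerivAt (fun z : ℂ => Complex.cosh (8 / 3 * z))
      (Complex.sinh (8 / 3 * z) * (8 / 3 * 1)) z :=
    (Complex.hasDerivAt_cosh _).comp z ((hasDerivAt_id z).const_mul (8 / 3 : ℂ))
  have h2 := (hasDerivAt_const z (1 : ℂ)).div h1 h
  refine h2.congr_deriv ?_
  unfold sc th
  field_simp
  ring

theorem hasDerivAt_th {z : ℂ} (hz : |z.im| ≤ 3 / 8) : HasDerivAt th (8 / 3 * sc z ^ 2) z := by
  have h := cosh_ne hz
  have h1 : HasDerivAt (fun z : ℂ => Complex.cosh (8 / 3 * z))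
      (Complex.sinh (8 / 3 * z) * (8 / 3 * 1)) z :=
    (Complex.hasDerivAt_cosh _).comp z ((hasDerivAt_id z).const_mul (8 / 3 : ℂ))
  have h1' : HasDerivAt (fun z : ℂ => Complex.sinh (8 / 3 * z))
      (Complex.cosh (8 / 3 * z) * (8 / 3 * 1)) z :=
    (Complex.hasDerivAt_sinh _).comp z ((hasDerivAt_id z).const_mul (8 / 3 : ℂ))
  have h2 := h1'.div h1 h
  refine h2.congr_deriv ?_
  have h3 := Complex.cosh_sq (8 / 3 * z)
  unfold sc
  generalize Complex.cosh (8 / 3 * z) = C at *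
  generalize Complex.sinh (8 / 3 * z) = S at *
  field_simp
  linear_combination h3

theorem analyticAt_th {z : ℂ} (hz : |z.im| < 3 / 8) : AnalyticAt ℂ th z := by
  have ho : IsOpen {z : ℂ | |z.im| < 3 / 8} := isOpen_lt (by fun_prop) continuous_const
  have hd : DifferentiableOn ℂ th {z : ℂ | |z.im| < 3 / 8} := fun w hw =>
    (hasDerivAt_th (le_of_lt hw)).differentiableAt.differentiableWithinAt
  exact hd.analyticAt (ho.mem_nhds hz)

theorem norm_one_sub_th {z : ℂ} (hz : |z.im| ≤ 3 / 8) :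
    ‖1 - th z‖ ≤ 4 * Real.exp (-(16 / 3) * z.re) := by
  have h := cosh_ne hz
  have e : 1 - th z = Complex.exp (-(8 / 3 * z)) * sc z := by
    unfold th sc
    rw [← Complex.cosh_sub_sinh, mul_one_div, sub_div, div_self h]
  rw [e, norm_mul, Complex.norm_exp]
  have e1 : (-(8 / 3 * z)).re = -(8 / 3) * z.re := by
    rw [Complex.neg_re]
    have : (8 / 3 * z).re = 8 / 3 * z.re := by
      have := Complex.re_ofReal_mul (8 / 3 : ℝ) z
      push_cast at this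
      exact this
    rw [this]
    ring
  rw [e1]
  have h1 := norm_sc hz
  have h2 : Real.exp (-(8 / 3) * |z.re|) ≤ Real.exp (-(8 / 3) * z.re) := by
    apply Real.exp_le_exp.2
    have := le_abs_self z.re
    linarith
  calc Real.exp (-(8 / 3) * z.re) * ‖sc z‖ ≤ Real.exp (-(8 / 3) * z.re) *
        (4 * Real.exp (-(8 / 3) * z.re)) :=
        mul_le_mul_of_nonneg_left (h1.trans (by linarith)) (Real.exp_nonneg _)
    _ = 4 * (Real.exp (-(8 / 3) * z.re) * Real.exp (-(8 / 3) * z.re)) := by ring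
    _ = 4 * Real.exp (-(16 / 3) * z.re) := by
        rw [← Real.exp_add]
        ring_nf

theorem th_neg (z : ℂ) : th (-z) = -th z := by
  unfold th
  rw [mul_neg, Complex.sinh_neg, Complex.cosh_neg, neg_div]

theorem norm_one_add_th {z : ℂ} (hz : |z.im| ≤ 3 / 8) :
    ‖1 + th z‖ ≤ 4 * Real.exp (16 / 3 * z.re) := by
  have h := norm_one_sub_th (z := -z) (by rwa [Complex.neg_im, abs_neg])
  rw [th_neg, sub_neg_eq_add, Complex.neg_re] at h
  refine h.trans (le_of_eq ?_)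
  ring_nf

theorem norm_th_sub {z : ℂ} (hz : |z.im| ≤ 3 / 8) :
    ‖th z - ((Real.tanh (8 / 3 * z.re) : ℝ) : ℂ)‖ ≤ 16 / 3 * |z.im| := by
  obtain ⟨a, ha⟩ : ∃ a, a = 8 / 3 * z.re := ⟨_, rfl⟩
  obtain ⟨b, hb⟩ : ∃ b, b = 8 / 3 * z.im := ⟨_, rfl⟩
  have hge := cosh_norm_ge hz
  have hne := cosh_ne hz
  rw [← ha] at hge ⊢
  have hca := Real.cosh_pos a
  have h1a := Real.one_le_cosh a
  have hne2 : Complex.cosh (a : ℂ) ≠ 0 := by
    rw [← Complex.ofReal_cosh]
    exact_mod_cast hca.ne'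
  have e : th z - ((Real.tanh a : ℝ) : ℂ) =
      Complex.sin (b : ℂ) * Complex.I / (Complex.cosh (8 / 3 * z) * Complex.cosh (a : ℂ)) := by
    unfold th
    rw [Real.tanh_eq_sinh_div_cosh]
    push_cast
    rw [div_sub_div _ _ hne hne2]
    congr 1
    have e1 : Complex.sinh (8 / 3 * z) * Complex.cosh a - Complex.cosh (8 / 3 * z) * Complex.sinh a =
        Complex.sinh (8 / 3 * z - a) := by
      rw [Complex.sinh_sub]
    rw [e1]
    have e2 : 8 / 3 * z - a = (b : ℂ) * Complex.I := by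
      conv_lhs => rw [← Complex.re_add_im z]
      rw [ha, hb]
      push_cast
      ring
    rw [e2, Complex.sinh_mul_I]
  rw [e, norm_div, norm_mul, norm_mul, Complex.norm_I, mul_one, ← Complex.ofReal_sin,
    ← Complex.ofReal_cosh, Complex.norm_real, Complex.norm_real, Real.norm_eq_abs, Real.norm_eq_abs,
    abs_of_pos hca, div_le_iff₀ (by
      have : 0 < ‖Complex.cosh (8 / 3 * z)‖ := norm_pos_iff.2 hne
      positivity)]
  have h1 : |Real.sin b| ≤ |b| := Real.abs_sin_le_abs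
  have h2 : 16 / 3 * |z.im| = 2 * |b| := by
    rw [hb, abs_mul, abs_of_pos (by norm_num : (0 : ℝ) < 8 / 3)]
    ring
  rw [h2]
  have h3 : Real.cosh a / 2 * 1 ≤ ‖Complex.cosh (8 / 3 * z)‖ * Real.cosh a :=
    mul_le_mul hge h1a zero_le_one (norm_nonneg _)
  calc |Real.sin b| ≤ |b| := h1
    _ = 2 * |b| * (1 / 2 * 1) := by ring
    _ ≤ 2 * |b| * (Real.cosh a / 2 * 1) := by
        refine mul_le_mul_of_nonneg_left ?_ (by positivity)
        linarith
    _ ≤ _ := mul_le_mul_of_nonneg_left h3 (by positivity)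

/-! ### the point of the parameter space at a complex time -/

/-- the point of the content `a, b, -p l, q l` at heights `s0, s1` and at the time `z` -/
def pz (a b p q s0 s1 : ℝ) (z : ℂ) : PE :=
  mkP a b ((Real.pi * p / 3 : ℝ) : ℂ) ((Real.pi * q / 3 : ℝ) : ℂ) ((8 / 3 * s0 : ℝ) : ℂ)
    ((8 / 3 * s1 : ℝ) : ℂ) (sc z) (th z)

/-- the derivative in the time, divided by `8 / 3` -/
def GV (V : PE → ℂ) (x : PE) : ℂ := fderiv ℂ V x (0, (-(x.2.1 * x.2.2), x.2.1 ^ 2))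

theorem hasDerivAt_pz (a b p q s0 s1 : ℝ) {z : ℂ} (hz : |z.im| ≤ 3 / 8) :
    HasDerivAt (pz a b p q s0 s1) (0, (8 / 3 * -(sc z * th z), 8 / 3 * sc z ^ 2)) z := by
  have h1 := (hasDerivAt_sc hz).prodMk (hasDerivAt_th hz)
  exact (hasDerivAt_const z _).prodMk h1

theorem hasDerivAt_V {V : PE → ℂ} {a b p q s0 s1 : ℝ} {z : ℂ} (hz : |z.im| ≤ 3 / 8)
    (hV : DifferentiableAt ℂ V (pz a b p q s0 s1 z)) :
    HasDerivAt (fun z => V (pz a b p q s0 s1 z)) (8 / 3 * GV V (pz a b p q s0 s1 z)) z := by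
  have h := hV.hasFDerivAt.comp_hasDerivAt z (hasDerivAt_pz a b p q s0 s1 hz)
  refine h.congr_deriv ?_
  unfold GV
  have e : ((0, (8 / 3 * -(sc z * th z), 8 / 3 * sc z ^ 2)) : PE) =
      (8 / 3 : ℂ) • ((0, (-(sc z * th z), sc z ^ 2)) : PE) := by
    rw [Prod.smul_mk, smul_zero, Prod.smul_mk, smul_eq_mul, smul_eq_mul]
  rw [e, map_smul, smul_eq_mul]
  rfl

theorem analyticAt_V {V : PE → ℂ} {a b p q s0 s1 : ℝ} {z : ℂ} (hz : |z.im| < 3 / 8)
    (hV : AnalyticAt ℂ V (pz a b p q s0 s1 z)) :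
    AnalyticAt ℂ (fun z => V (pz a b p q s0 s1 z)) z := by
  have h1 : AnalyticAt ℂ (pz a b p q s0 s1) z :=
    analyticAt_const.prod ((analyticAt_sc hz).prod (analyticAt_th hz))
  exact hV.comp_of_eq h1 rfl

theorem continuousAt_GV {V : PE → ℂ} {x : PE} (hV : AnalyticAt ℂ V x) : ContinuousAt (GV V) x := by
  have h3 : ContinuousAt (fderiv ℂ V) x := hV.fderiv.continuousAt
  have h4 : ContinuousAt (fun x : PE => ((0, (-(x.2.1 * x.2.2), x.2.1 ^ 2)) : PE)) x := by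
    fun_prop
  exact h3.clm_apply h4

/-- uniform closeness -/
theorem exists_close {K : Set PE} (hK : IsCompact K) {F : PE → ℂ} (hF : ∀ k ∈ K, ContinuousAt F k)
    {r : ℝ} (hr : 0 < r) : ∃ ε > 0, ∀ k ∈ K, ∀ x, dist x k < ε → ‖F x - F k‖ < r := by
  have h := hK.uniformContinuousAt_of_continuousAt F hF (Metric.dist_mem_uniformity hr)
  rw [Metric.mem_uniformity_dist] at h
  obtain ⟨ε, hε, h⟩ := h
  refine ⟨ε, hε, fun k hk x hx => ?_⟩
  have h1 := h (a := k) (b := x) (by rwa [dist_comm]) hk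
  have h2 : dist (F k) (F x) < r := h1
  rwa [dist_comm, dist_eq_norm] at h2

/-- contents near the balanced ones, at small heights -/
def NearH (de ε a b p q s0 s1 : ℝ) : Prop := ∃ a' b' p' q' : ℝ, PLT.Bal2 a' b' p' q' ∧
  a' + b' = 1 ∧ p' ≤ 1 - de ∧ |a - a'| < ε ∧ |b - b'| < ε ∧ |p - p'| < ε ∧ |q - q'| < ε ∧
  |s0| < ε ∧ |s1| < ε

theorem NearH.mono {de ε ε' a b p q s0 s1 : ℝ} (h : NearH de ε a b p q s0 s1) (hε : ε ≤ ε') :
    NearH de ε' a b p q s0 s1 := by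
  obtain ⟨a', b', p', q', B, hab, hp, h1, h2, h3, h4, h5, h6⟩ := h
  exact ⟨a', b', p', q', B, hab, hp, h1.trans_le hε, h2.trans_le hε, h3.trans_le hε,
    h4.trans_le hε, h5.trans_le hε, h6.trans_le hε⟩

theorem pz_real (a b p q : ℝ) (t : ℝ) : pz a b p q 0 0 t =
    mkP a b ((Real.pi * p / 3 : ℝ) : ℂ) ((Real.pi * q / 3 : ℝ) : ℂ) 0 0 ((1 / ch t : ℝ) : ℂ)
      ((Real.tanh (8 / 3 * t) : ℝ) : ℂ) := by
  unfold pz
  rw [sc_ofReal, th_ofReal, mul_zero, Complex.ofReal_zero]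

theorem sq_time (t : ℝ) : (1 / ch t) ^ 2 + Real.tanh (8 / 3 * t) ^ 2 = 1 := by
  have h3 := Real.cosh_sq (8 / 3 * t)
  have h4 := Real.cosh_pos (8 / 3 * t)
  unfold ch
  rw [Real.tanh_eq_sinh_div_cosh]
  generalize Real.cosh (8 / 3 * t) = C at *
  generalize Real.sinh (8 / 3 * t) = S at *
  field_simp
  linear_combination -h3

theorem pz_mem {de a b p q : ℝ} (B : PLT.Bal2 a b p q) (hab : a + b = 1) (hp : p ≤ 1 - de) (t : ℝ) :
    pz a b p q 0 0 t ∈ KB de := by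
  rw [pz_real]
  have hc := one_le_ch t
  exact mem_KB B.a0 B.b0.le hab B.q0 B.qp hp B.pq B.bal (by positivity) (sq_time t)

theorem dist_pz {a b p q s0 s1 a' b' p' q' ε : ℝ} (h1 : |a - a'| < ε / 4) (h2 : |b - b'| < ε / 4)
    (h3 : |p - p'| < ε / 4) (h4 : |q - q'| < ε / 4) (h5 : |s0| < ε / 4) (h6 : |s1| < ε / 4) {z : ℂ}
    (hz : |z.im| ≤ 3 / 8) (hz2 : |z.im| < ε / 32) :
    dist (pz a b p q s0 s1 z) (pz a' b' p' q' 0 0 z.re) < ε := by
  have hε : 0 < ε := by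
    have := abs_nonneg (a - a')
    linarith
  have hpi := Real.pi_lt_d2
  have hpi0 := Real.pi_pos
  have k1 : ∀ x y : ℝ, |x - y| < ε / 4 → dist (x : ℂ) (y : ℂ) < ε := by
    intro x y h
    rw [dist_eq_norm, ← Complex.ofReal_sub, Complex.norm_real, Real.norm_eq_abs]
    linarith
  have k2 : ∀ x y : ℝ, |x - y| < ε / 4 →
      dist ((Real.pi * x / 3 : ℝ) : ℂ) ((Real.pi * y / 3 : ℝ) : ℂ) < ε := by
    intro x y h
    rw [dist_eq_norm, ← Complex.ofReal_sub, Complex.norm_real, Real.norm_eq_abs,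
      show Real.pi * x / 3 - Real.pi * y / 3 = Real.pi / 3 * (x - y) by ring, abs_mul,
      abs_of_pos (by positivity : (0 : ℝ) < Real.pi / 3)]
    have := mul_le_mul_of_nonneg_right (by linarith : Real.pi / 3 ≤ 2) (abs_nonneg (x - y))
    linarith
  have k3 : ∀ x : ℝ, |x| < ε / 4 → dist ((8 / 3 * x : ℝ) : ℂ) ((8 / 3 * 0 : ℝ) : ℂ) < ε := by
    intro x h
    rw [dist_eq_norm, ← Complex.ofReal_sub, Complex.norm_real, Real.norm_eq_abs,
      mul_zero, sub_zero, abs_mul, abs_of_pos (by norm_num : (0 : ℝ) < 8 / 3)]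
    linarith
  have k4 : dist (sc z) (sc (z.re : ℂ)) < ε := by
    rw [dist_eq_norm, sc_ofReal]
    refine (norm_sc_sub hz).trans_lt ?_
    linarith
  have k5 : dist (th z) (th (z.re : ℂ)) < ε := by
    rw [dist_eq_norm, th_ofReal]
    refine (norm_th_sub hz).trans_lt ?_
    linarith
  unfold pz mkP
  simp only [Prod.dist_eq, max_lt_iff]
  exact ⟨⟨⟨k1 _ _ h1, k1 _ _ h2⟩, ⟨k2 _ _ h3, k2 _ _ h4⟩, ⟨k3 _ h5, k3 _ h6⟩⟩, ⟨k4, k5⟩⟩

/-- the function on the compact set is the real curve -/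
theorem V_base {de ε : ℝ} (d0 : 0 < de) (d1 : de ≤ 1 / 2) (hε : 0 < ε) {V : PE → ℂ}
    (hV : ∀ x : PE, (∃ k ∈ KB de, dist x k < ε) → AnalyticAt ℂ V x ∧
      ∀ w ∈ Dw de, FH (x, w) = 0 → w = V x) {a b p q : ℝ} (B : PLT.Bal2 a b p q) (hab : a + b = 1)
    (hp : p ≤ 1 - de) (t : ℝ) : V (pz a b p q 0 0 t) = ((8 / 3 * eta2 a b p q t : ℝ) : ℂ) ∧
      GV V (pz a b p q 0 0 t) = ((eta2' a b p q t : ℝ) : ℂ) := by
  have h1 : ∀ t : ℝ, V (pz a b p q 0 0 t) = ((8 / 3 * eta2 a b p q t : ℝ) : ℂ) := by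
    intro t
    obtain ⟨-, h2⟩ := hV _ ⟨_, pz_mem B hab hp t, by rwa [dist_self]⟩
    have h3 := B.eta_mem t
    refine (h2 _ (mem_Dw d0 d1 ⟨h3.1, h3.2.trans v0_lt.le⟩) ?_).symm
    rw [pz_real]
    exact FH_real_zero d0 d1 B.q0 B.qp hp B.pq h3 t (B.eta_eq t)
  refine ⟨h1 t, ?_⟩
  have h4 := (hV _ ⟨_, pz_mem B hab hp t, by rwa [dist_self]⟩).1
  have h5 := hasDerivAt_V (z := (t : ℂ)) (by
    rw [Complex.ofReal_im, abs_zero]
    norm_num) h4.differentiableAt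
  have h6 := h5.comp_ofReal
  have h7 : (fun t : ℝ => V (pz a b p q 0 0 t)) = fun t : ℝ => ((8 / 3 * eta2 a b p q t : ℝ) : ℂ) :=
    funext h1
  rw [h7] at h6
  have h8 : HasDerivAt (fun t : ℝ => ((8 / 3 * eta2 a b p q t : ℝ) : ℂ))
      ((8 / 3 * eta2' a b p q t : ℝ) : ℂ) t :=
    (Complex.ofRealCLM.hasFDerivAt.comp_hasDerivAt t ((B.hasDerivAt t).const_mul (8 / 3 : ℝ)))
  have h9 := h6.unique h8
  push_cast at h9
  linear_combination 3 / 8 * h9

end PLT.CA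

end
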