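import Pool.Agent.PLT.IdxU
import Pool.Agent.PLT.FamLC
import Pool.Agent.PLT.CurH

/-!
# The record of every index of the block S-W from the bounds of the family

* `IdxW.mono`: larger sizes;
* `IxW`: the index (heights of the rows, height of the leg); `xIx`, `zIx`, `okIx`; `SeaIx SB S h0 e0`: the seas of the
  indices (straight curve, density of the rows);
* **`FamW h0 e0`**: what the closing of the block S-W wants of the family; **`famW_of_ux`**: it follows from the bounds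
  `UXC` of the dislocated function at `par6`.
-/

set_option autoImplicit false
set_option linter.unusedSectionVars false

noncomputable section

open Complex MeasureTheory Finset Filter Topology

open PLX (Fil)

namespace PLT.SW

open NUO NUP1 NUCR NUP1S NUP1S.Ab NUP1S.AbC NUGC NUGC.PLX PBFunc PBFunc.PLX PBF PBF.PLX PBE PBE.PLX
open PBWP.PLX PBLX.PLX
open PBU.PLX (MBd6 BC)
open PHK
open PBForce (Rws0)
open Pool.Agent.PLX (rwq yq)
open Pool.Agent.PB (Pf)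
open PLT.MI PLT.FI

variable [Fil]

/-- larger sizes -/
theorem IdxW.mono {ep : ℝ} {k m : ℕ} {x : Fin m → ℂ} {τ : ℝ} {η η' : Crs} {K K' dp dp' : ℝ}
    (h : IdxW ep k x τ η η' K dp) (hK : K ≤ K') (hd : dp ≤ dp') : IdxW ep k x τ η η' K' dp' := by
  have hl := Bd.l_pos
  have hK0 := h.K0
  have hd0 := h.d0
  have hm := h.mo
  refine ⟨h.crs, hK0.trans hK, hd0.trans hd, MBd6.mono h.mbd hK0 hK hd, ?_, ?_⟩
  · exact fun M g hM hg => (h.mom4 M g hM hg).trans (ENNReal.ofReal_le_ofReal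
      (mul_le_mul_of_nonneg_left hK (Finset.prod_nonneg fun j _ => hM j)))
  · exact ⟨hm.K0.trans hK, hm.wm, pins_mono hm.pin (by linarith) (by linarith) hd,
      M2.mono hm.one zero_le_one le_rfl hK hm.K0,
      fun M g hg hmg => M2.mono (hm.vp M g hg hmg) (hg.nonneg (by linarith) (by linarith)) le_rfl hK
        hm.K0,
      fun M g hg hmg => M2.mono (hm.vm M g hg hmg) (hg.nonneg (by linarith) (by linarith)) le_rfl hK
        hm.K0, hm.sm, M2.mono hm.s zero_le_one le_rfl hK hm.K0⟩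

/-- **what the closing of the block S-W wants of the family** -/
def FamW (h0 e0 : ℝ) : Prop :=
  ∀ ε : ℝ, 0 < ε → ∃ a0 : ℝ, 0 < a0 ∧ ∀ ep e1 J : ℝ, SmallP a0 ep e1 J → ∃ C : ℝ, 0 < C ∧
    ∀ᶠ m : ℕ in atTop, ∀ x : Fin m → ℂ, (∀ k, (x k).re = 0 ∧ |(x k).im| ≤ h0) →
      ∀ τ : ℝ, |τ| ≤ e0 * Real.log m → ∃ η η' : Crs,
        IdxW ep m x τ η η' (C * (m : ℝ) ^ ε * Real.exp (C * |τ|))
          (C * (m : ℝ) ^ (-(13 / 20 : ℝ)) * Real.exp (C * |τ|))

/-! ### the index -/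

/-- the index: heights of the rows, height of the leg -/
abbrev IxW : Type := (ℕ → ℝ) × ℝ

/-- the rows of the index -/
def xIx (m : ℕ) (i : IxW) : Fin m → ℂ := fun k => I * (i.1 k : ℝ)

/-- the leg of the index -/
def zIx (i : IxW) : ℂ := I * i.2

/-- the admissible indices -/
def okIx (h0 e0 : ℝ) (m : ℕ) (i : IxW) : Prop :=
  0 < m ∧ (∀ k, k < m → |i.1 k| ≤ h0) ∧ |i.2| ≤ e0 * Real.log m

/-- **the seas of the indices**: straight curve, density of the rows -/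
structure SeaIx (SB : SeaCB) (S : ℕ → IxW → SeaC) (h0 e0 : ℝ) : Prop where
  sea : ∀ m i, okIx h0 e0 m i → @SeaCU SB (S m i)
  eta : ∀ m i, okIx h0 e0 m i → ∀ t, @Cv.eta (S m i) t = 0
  den : ∀ m i, okIx h0 e0 m i → ∀ t : ℝ, (m : ℂ) * @Cv.Pc (S m i) t = rhA (xIx m i) t

/-- the index of a content on the axis -/
def ixOf {m : ℕ} (x : Fin m → ℂ) (τ : ℝ) : IxW := (fun n => if h : n < m then (x ⟨n, h⟩).im else 0, τ)

omit [Fil] in
theorem xIx_of {m : ℕ} {x : Fin m → ℂ} (hx : ∀ k, (x k).re = 0) (τ : ℝ) : xIx m (ixOf x τ) = x := by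
  funext k
  unfold xIx ixOf
  simp only [k.2, dif_pos, Fin.eta]
  apply Complex.ext
  · simp [hx k]
  · simp

omit [Fil] in
theorem okIx_of {m : ℕ} (hm : 0 < m) {x : Fin m → ℂ} {h0 e0 τ : ℝ} (hx : ∀ k, |(x k).im| ≤ h0)
    (hτ : |τ| ≤ e0 * Real.log m) : okIx h0 e0 m (ixOf x τ) := by
  refine ⟨hm, fun k hk => ?_, hτ⟩
  unfold ixOf
  simp only [hk, dif_pos]
  exact hx _

/-! ### the curves -/

/-- a displacement of the straight curve is real -/
theorem dsp_straight [X : SeaC] (h : ∀ t, Cv.eta t = 0) (η : ℝ → ℝ) : dsp η = dF η := by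
  funext a t
  have h1 : (Cv.eta : ℝ → ℝ) = fun _ => 0 := funext h
  show ((Cv.eta t : ℝ) : ℂ) * I + Cv.gD (Fil.cv a η) t = dA (Fil.cv a η) t
  unfold Cv.gD dA NUKer.iD Cv.ga'
  rw [h1]
  simp

theorem dsp1_straight [X : SeaC] (h : ∀ t, Cv.eta t = 0) (η η1 : ℝ → ℝ) : dsp1 η η1 = dF η1 := by
  funext a t
  have h1 : (Cv.eta : ℝ → ℝ) = fun _ => 0 := funext h
  show ((deriv Cv.eta t : ℝ) : ℂ) * I + Cv.gD1 (Fil.cv a η) (Fil.cv a η1) t = dA (Fil.cv a η1) t
  unfold Cv.gD1 dA NUKer.iD Cv.ga' Cv.ga2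
  rw [h1]
  simp

/-- the curve of a straight sea is admissible -/
theorem curB_etaC {e1 J : ℝ} (he : 0 < e1) (he1 : e1 ≤ 1 / 100) (hJ : 0 ≤ J) {ep : ℝ} (hep : 0 < ep)
    (B : SeaCB) : ∃ m0 : ℕ, 1 ≤ m0 ∧ ∀ [SeaC] [SeaCU B], ∀ m ≥ m0,
      NUCR.CurB ep (Cv.etaC e1 J m m) (Cv.etaC' e1 J m m) := by
  have hl := Bd.l_pos
  obtain ⟨C, hC, m0, hm0, H⟩ := Cv.exists_curC B he he1 hJ (x := ep * NUP1.l / 4) (by positivity)
  refine ⟨m0, hm0, @fun _ _ m hm => ?_⟩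
  obtain ⟨-, H2⟩ := H m hm
  have hmm : (0 : ℝ) ≤ m := Nat.cast_nonneg m
  obtain ⟨ε, e, hc, hε0, -, hεx⟩ := H2 m (by linarith)
  obtain ⟨h1, f', h2, h3⟩ := hc.O4
  have e1 : f' = Cv.etaC' e1 J m m := by
    funext t
    exact (h2 t).unique (Cv.etaC_hasDeriv B e1 J m m t)
  rw [e1] at h3
  exact ⟨Cv.etaC_hasDeriv B _ J m m, Cv.etaC'_cont B _ J m m, fun t => (h1 t).trans hεx, ε, h3.le⟩

/-- the density of rows on the axis is integrable -/
theorem rhA_int {m : ℕ} (hm : 0 < m) {x : Fin m → ℂ} (hx : Rws0 x) :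
    Integrable fun t : ℝ => rhA x t := by
  have hl := Bd.l_pos
  obtain ⟨c0, -, hc⟩ := PBE.seaL_rows (b := NUP1.l / 2) (by positivity) (by linarith)
  have h := PBWP.PLX.int_rho (hc m x hm hx).2 (by positivity) (f := fun _ => (1 : ℂ)) (B := 1)
    (fun z _ => differentiableAt_const _) (fun t => by simp)
  simpa using h

/-- **the record of every index** from the bounds of the family of the dislocated function -/
theorem famW_of_ux {SB : SeaCB} {S : ℕ → IxW → SeaC} {h0 e0 lo hi : ℝ} (hh : h0 ≤ 1)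
    (hS : SeaIx SB S h0 e0) (hlo : lo = 0) (hhi : hi = 0)
    (hX : UXC (famLC xIx zIx S (okIx h0 e0) lo hi) par6) : FamW h0 e0 := by
  have hl := Bd.l_pos
  intro ε hε
  obtain ⟨ε', hε'⟩ : ∃ ε' : ℝ, ε' = min ε (1 / 40) := ⟨_, rfl⟩
  have hε0 : 0 < ε' := by
    rw [hε']
    exact lt_min hε (by norm_num)
  have hε1 : ε' ≤ ε := by
    rw [hε']
    exact min_le_left _ _
  have hε2 : ε' ≤ 1 / 40 := by
    rw [hε']
    exact min_le_right _ _
  obtain ⟨a0, ha0, HX⟩ := hX 4 6 ε' hε0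
  refine ⟨a0, ha0, fun ep e1 J hp => ?_⟩
  have hU := HX ep e1 J hp.ep0 hp.e0 hp.J0 hp.sm
  obtain ⟨m1, -, Hc⟩ := curB_etaC hp.e0 hp.e1' hp.J0 hp.ep0 SB
  have hy1 : -(ep / 4) < (famLC xIx zIx S (okIx h0 e0) lo hi).lo := by
    show -(ep / 4) < lo
    rw [hlo]
    have := hp.ep0
    linarith
  have hy2 : (famLC xIx zIx S (okIx h0 e0) lo hi).hi < bb6' := by
    show hi < bb6'
    rw [hhi]
    exact bb6'_pos
  obtain ⟨m2, H⟩ := UBI.of_UBC hU 0 hy1 hy2
  refine ⟨345600, by norm_num, ?_⟩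
  filter_upwards [eventually_ge_atTop m1, eventually_ge_atTop m2, eventually_ge_atTop 1]
    with m j1 j2 j3 x hx τ hτ
  have hm : 0 < m := j3
  have hm1 : (1 : ℝ) ≤ m := by exact_mod_cast j3
  have hR : Rws0 x := ⟨fun k => (hx k).1, fun k => (hx k).2.trans hh⟩
  have hok := okIx_of hm (fun k => (hx k).2) hτ
  have hxi : xIx m (ixOf x τ) = x := xIx_of (fun k => (hx k).1) τ
  have hcur := @Hc (S m (ixOf x τ)) (hS.sea m _ hok) m j1
  have hη0 := hS.eta m _ hok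
  have hUI := H m j2 (ixOf x τ) hok (@Cv.etaC (S m (ixOf x τ)) e1 J m m)
    (@Cv.etaC' (S m (ixOf x τ)) e1 J m m) (@dsp_straight _ (S m (ixOf x τ)) hη0 _)
    (@dsp1_straight _ (S m (ixOf x τ)) hη0 _ _) (fun u => rhA x u) (by
      refine ⟨rhA_int hm hR, le_of_eq ?_⟩
      have e : ∀ t : ℝ, rhA x t - ((m : ℝ) : ℂ) *
          (famLC xIx zIx S (okIx h0 e0) lo hi).dc m (ixOf x τ) t = 0 := by
        intro t
        have h3 := hS.den m _ hok t
        rw [hxi] at h3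
        show rhA x t - ((m : ℝ) : ℂ) * @Cv.Pc (S m (ixOf x τ)) t = 0
        rw [ofReal_natCast, h3, sub_self]
      simp only [e, norm_zero, integral_zero])
  have hC : CrsB ep (fun _ _ => @Cv.etaC (S m (ixOf x τ)) e1 J m m)
      (fun _ _ => @Cv.etaC' (S m (ixOf x τ)) e1 J m m) := CrsB.of hcur
  have hz : zIx (ixOf x τ) = I * (τ : ℂ) := rfl
  have hbd : Real.exp (2 * |(zIx (ixOf x τ)).im|) = Real.exp (2 * |τ|) := by
    rw [hz]
    simp
  have hUI' : UBI (ZI m x (4 / 3 * (1 - ep)) (I * τ)) par6 (Pf (I * τ) x (yq x)) (2 * m)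
      (fun _ _ => @Cv.etaC (S m (ixOf x τ)) e1 J m m)
      (fun _ _ => @Cv.etaC' (S m (ixOf x τ)) e1 J m m) e1 m 4 6 (-(ep / 4)) bb6'
      ((m : ℝ) ^ ε' * Real.exp (2 * |τ|)) fun u => rhA x u := by
    have h4 : UBI (ZI m (xIx m (ixOf x τ)) (4 / 3 * (1 - ep)) (zIx (ixOf x τ))) par6
        (Pf (zIx (ixOf x τ)) (xIx m (ixOf x τ)) (yq (xIx m (ixOf x τ)))) (2 * m)
        (fun _ _ => @Cv.etaC (S m (ixOf x τ)) e1 J m m)
        (fun _ _ => @Cv.etaC' (S m (ixOf x τ)) e1 J m m) e1 m 4 6 (-(ep / 4)) bb6'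
        ((m : ℝ) ^ ε' * Real.exp (2 * |(zIx (ixOf x τ)).im|)) fun u => rhA x u := hUI
    rw [hbd, hxi, hz] at h4
    exact h4
  refine ⟨_, _, (idxW_of_ubi hp.ep0 hp.ep1 hm hR hC (by have := hp.e1'; linarith) (by positivity)
    hUI').mono ?_ ?_⟩
  · have e1 : (m : ℝ) ^ ε' ≤ (m : ℝ) ^ ε := Real.rpow_le_rpow_of_exponent_le hm1 hε1
    have e2 : Real.exp (2 * |τ|) ≤ Real.exp (345600 * |τ|) :=
      Real.exp_le_exp.2 (mul_le_mul_of_nonneg_right (by norm_num) (abs_nonneg _))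
    rw [mul_assoc]
    exact mul_le_mul_of_nonneg_left (mul_le_mul e1 e2 (Real.exp_pos _).le (by positivity))
      (by norm_num)
  · have e2 : Real.exp (2 * |τ|) ≤ Real.exp (345600 * |τ|) :=
      Real.exp_le_exp.2 (mul_le_mul_of_nonneg_right (by norm_num) (abs_nonneg _))
    have e3 : dpm e1 m * (m : ℝ) ^ ε' ≤ (m : ℝ) ^ (-(13 / 20 : ℝ)) := by
      unfold dpm
      rw [← Real.rpow_add (by linarith)]
      refine Real.rpow_le_rpow_of_exponent_le hm1 ?_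
      have := hp.e1'
      nlinarith
    have hd := dpm_nonneg e1 m
    have hme : 0 ≤ (m : ℝ) ^ ε' := by positivity
    calc 720 * (dpm e1 m * ((m : ℝ) ^ ε' * Real.exp (2 * |τ|)))
        = 720 * ((dpm e1 m * (m : ℝ) ^ ε') * Real.exp (2 * |τ|)) := by ring
      _ ≤ 720 * ((m : ℝ) ^ (-(13 / 20 : ℝ)) * Real.exp (345600 * |τ|)) := by
          refine mul_le_mul_of_nonneg_left ?_ (by norm_num)
          exact mul_le_mul e3 e2 (Real.exp_pos _).le (by positivity)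
      _ ≤ 345600 * ((m : ℝ) ^ (-(13 / 20 : ℝ)) * Real.exp (345600 * |τ|)) := by
          refine mul_le_mul_of_nonneg_right (by norm_num) (by positivity)
      _ = _ := by ring

end PLT.SW

end
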