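import Pool.Agent.PLT.Phi
import Pool.Agent.PHK.FNeq6
import Pool.Agent.PLX.PB.BsR
import Pool.Agent.PB.FieldR

/-!
# Rows on the imaginary axis: the cutoffs have no zero in the strip of the holes

`AxL h0 X`: the rows of the list `X` are on the imaginary axis at heights `≤ h0`; `ExL h0 Y`: further points,
`|re| ≤ l / 2`, heights `≤ h0`. For `|re u + l / 2| ≤ sH = 95/64 l`, `E = exp (-2 β |im u|)`:

* **`prod_ax`**: `‖∏ psi‖ ≤ exp (-(cAx h0 m E))`, `m ≤ |X|`;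
* **`phi_ax_low`**: `c cut m β (im u) ≤ ‖phi β W u‖`, `W = X ++ ex` up to order; `phi_ax_ne`, `phi_ax_inv`;
  `phi_ax_up`: `‖phi β W u‖ ≤ C cut m β (im u)`;
* **`phI6_ax`**: `PhI6 β ro ex` for rows on the axis;
* **`phI6_axq`**: one `m0` for all rows `x` (every row `q`-fold in Y) with heights `≤ h0`, cutoff points
  `[I, -I]`; **`phI6_Rws0`**; `phI6_axU`: the same for `xrU D`.
-/

set_option autoImplicit false
set_option linter.unusedSectionVars false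

noncomputable section

open Complex

namespace PLT.H1

open NUP1 NUO NUCR NUP1S NUGC.PLX PHK
open NUP1 (psi phi)
open PBO.PLX (sH norm_psi_sH)
open PBX (Rws ph gP)
open PBR.PLX (xrU)
open PBForce (Rws0)
open Pool.Agent.PLX (PhI6 rwq yq RU)
open _root_.PLX (Fil)

/-- rows on the imaginary axis -/
def AxL (h0 : ℝ) (X : List ℂ) : Prop := ∀ x ∈ X, x.re = 0 ∧ |x.im| ≤ h0

/-- further points -/
def ExL (h0 : ℝ) (Y : List ℂ) : Prop := ∀ x ∈ Y, |x.re| ≤ l / 2 ∧ |x.im| ≤ h0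

theorem AxL.ex {h0 : ℝ} {X : List ℂ} (h : AxL h0 X) : ExL h0 X := fun x hx => by
  have hl := NUP1.l_pos
  refine ⟨?_, (h x hx).2⟩
  rw [(h x hx).1, abs_zero]
  positivity

theorem AxL.mono {h0 h1 : ℝ} {X : List ℂ} (h : AxL h0 X) (h01 : h0 ≤ h1) : AxL h1 X :=
  fun x hx => ⟨(h x hx).1, (h x hx).2.trans h01⟩

theorem ExL.mono {h0 h1 : ℝ} {X : List ℂ} (h : ExL h0 X) (h01 : h0 ≤ h1) : ExL h1 X :=
  fun x hx => ⟨(h x hx).1, (h x hx).2.trans h01⟩

/-- the rate of one row -/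
def cAx (h0 : ℝ) : ℝ := 1 / 256 * Real.exp (-(8 / 3 * h0))

theorem cAx_pos (h0 : ℝ) : 0 < cAx h0 := by
  unfold cAx
  positivity

theorem cAx_le {h0 : ℝ} (hh : 0 ≤ h0) : cAx h0 ≤ 1 := by
  unfold cAx
  have : Real.exp (-(8 / 3 * h0)) ≤ 1 := Real.exp_le_one_iff.2 (by linarith)
  linarith

section lists
variable {β h0 : ℝ} {u : ℂ} {X Y W : List ℂ} {m n0 : ℕ}

/-- **the rows of the axis** -/
theorem prod_ax (hβ0 : 0 < β) (hβ1 : β ≤ 4 / 3) (hh : 0 ≤ h0) (hX : AxL h0 X) (hm : m ≤ X.length)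
    (hu : |u.re + l / 2| ≤ sH) : ‖(X.map fun x => psi β (u - x)).prod‖ ≤
      Real.exp (-(cAx h0 * (m * Real.exp (-(2 * β) * |u.im|)))) := by
  have key : ‖(X.map fun x => psi β (u - x)).prod‖ ≤
      Real.exp (-(cAx h0 * (X.length * Real.exp (-(2 * β) * |u.im|)))) := by
    clear hm
    induction X with
    | nil => simp
    | cons x X ih =>
      have i := ih fun y hy => hX y (by simp [hy])
      obtain ⟨a, b⟩ := hX x (by simp)
      have a1 := norm_psi_sH hβ0 hβ1 (z := u - x) (by rw [sub_re, a, sub_zero]; exact hu)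
      have hE : Real.exp (-(8 / 3 * h0)) * Real.exp (-(2 * β) * |u.im|) ≤
          Real.exp (-(2 * β) * |(u - x).im|) := by
        rw [← Real.exp_add]
        refine Real.exp_le_exp.2 ?_
        have h3 : |(u - x).im| - |u.im| ≤ |x.im| := by
          rw [sub_im]
          have := abs_sub u.im x.im
          linarith
        have h5 : 2 * β * (|(u - x).im| - |u.im|) ≤ 2 * β * h0 :=
          mul_le_mul_of_nonneg_left (h3.trans b) (by linarith)
        have h6 : 2 * β * h0 ≤ 8 / 3 * h0 := mul_le_mul_of_nonneg_right (by linarith) hh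
        linarith
      rw [List.map_cons, List.prod_cons, List.length_cons, norm_mul]
      refine (mul_le_mul a1 i (norm_nonneg _) (Real.exp_pos _).le).trans ?_
      rw [← Real.exp_add]
      refine Real.exp_le_exp.2 ?_
      have e : cAx h0 * (((X.length + 1 : ℕ) : ℝ) * Real.exp (-(2 * β) * |u.im|)) =
          1 / 256 * (Real.exp (-(8 / 3 * h0)) * Real.exp (-(2 * β) * |u.im|)) +
            cAx h0 * (X.length * Real.exp (-(2 * β) * |u.im|)) := by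
        unfold cAx
        push_cast
        ring
      rw [e]
      linarith
  refine key.trans (Real.exp_le_exp.2 (neg_le_neg ?_))
  have h1 : (m : ℝ) ≤ X.length := by exact_mod_cast hm
  have := cAx_pos h0
  have := Real.exp_pos (-(2 * β) * |u.im|)
  gcongr

/-- the rows seen from the quantum -/
theorem ExL.rwD (h : ExL h0 Y) (hu : |u.re + l / 2| ≤ sH) : RwD (1 / 2) h0 u Y := by
  have hl := NUP1.l_pos
  intro x hx
  obtain ⟨a, b⟩ := h x hx
  obtain ⟨a1, a2⟩ := abs_le.1 a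
  unfold PBO.PLX.sH at hu
  obtain ⟨b1, b2⟩ := abs_le.1 hu
  rw [sub_re]
  exact ⟨by linarith, by linarith, b⟩

/-- **the cutoff from below** -/
theorem phi_ax_low (hβ0 : 0 < β) (hβ1 : β ≤ 4 / 3) (hh : 0 ≤ h0) (hW : W.Perm (X ++ Y))
    (hX : AxL h0 X) (hY : ExL h0 Y) (hm : m ≤ X.length) (hn : Y.length ≤ n0)
    (hc : cK (1 / 2) h0 * n0 ≤ cAx h0 / 2 * m) (hu : |u.re + l / 2| ≤ sH) :
    min 1 (cAx h0 / 2) / 2 * cut m β u.im ≤ ‖phi β W u‖ :=
  phi_low hβ0 hβ1 (by norm_num) (by norm_num) hh hW (hY.rwD hu) (cAx_pos h0).le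
    (prod_ax hβ0 hβ1 hh hX hm hu) hn hc

/-- **no zero of the cutoff** -/
theorem phi_ax_ne (hβ0 : 0 < β) (hβ1 : β ≤ 4 / 3) (hh : 0 ≤ h0) (hW : W.Perm (X ++ Y))
    (hX : AxL h0 X) (hY : ExL h0 Y) (hm1 : 1 ≤ m) (hm : m ≤ X.length) (hn : Y.length ≤ n0)
    (hc : cK (1 / 2) h0 * n0 ≤ cAx h0 / 2 * m) (hu : |u.re + l / 2| ≤ sH) : phi β W u ≠ 0 :=
  phi_ne hβ0 hβ1 (by norm_num) (by norm_num) hh hW (hY.rwD hu) (cAx_pos h0) hm1
    (prod_ax hβ0 hβ1 hh hX hm hu) hn hc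

/-- **the inverse of the cutoff** -/
theorem phi_ax_inv (hβ0 : 0 < β) (hβ1 : β ≤ 4 / 3) (hh : 0 ≤ h0) (hW : W.Perm (X ++ Y))
    (hX : AxL h0 X) (hY : ExL h0 Y) (hm1 : 1 ≤ m) (hm : m ≤ X.length) (hn : Y.length ≤ n0)
    (hc : cK (1 / 2) h0 * n0 ≤ cAx h0 / 2 * m) (hu : |u.re + l / 2| ≤ sH) :
    ‖phi β W u‖⁻¹ ≤ 4 / cAx h0 * max 1 (Real.exp (2 * β * |u.im|) / m) := by
  have h1 := phi_ax_low hβ0 hβ1 hh hW hX hY hm hn hc hu
  have c1 := cAx_pos h0
  have c2 := cAx_le hh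
  have hmr : (0 : ℝ) < m := by exact_mod_cast hm1
  have hE := Real.exp_pos (-(2 * β) * |u.im|)
  have e0 : min 1 (cAx h0 / 2) = cAx h0 / 2 := min_eq_right (by linarith)
  rw [e0] at h1
  unfold NUO.cut at h1
  have h2 : 0 < min 1 (m * Real.exp (-(2 * β) * |u.im|)) := lt_min one_pos (by positivity)
  refine (inv_anti₀ (by positivity) h1).trans ?_
  have e1 : (cAx h0 / 2 / 2 * min 1 (m * Real.exp (-(2 * β) * |u.im|)))⁻¹ =
      4 / cAx h0 * (min 1 (m * Real.exp (-(2 * β) * |u.im|)))⁻¹ := by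
    field_simp
    ring
  rw [e1]
  refine mul_le_mul_of_nonneg_left ?_ (by positivity)
  rw [inv_le_iff_one_le_mul₀ h2]
  rcases le_total 1 (m * Real.exp (-(2 * β) * |u.im|)) with h4 | h4
  · rw [min_eq_left h4, mul_one]
    exact le_max_left _ _
  · rw [min_eq_right h4]
    have h5 : Real.exp (2 * β * |u.im|) / m * (m * Real.exp (-(2 * β) * |u.im|)) = 1 := by
      rw [div_mul_eq_mul_div, mul_left_comm, ← Real.exp_add,
        show 2 * β * |u.im| + -(2 * β) * |u.im| = 0 by ring, Real.exp_zero, mul_one,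
        div_self hmr.ne']
    calc (1 : ℝ) = Real.exp (2 * β * |u.im|) / m * (m * Real.exp (-(2 * β) * |u.im|)) := h5.symm
      _ ≤ _ := by
          gcongr
          exact le_max_right _ _

/-- **the cutoff from above** -/
theorem phi_ax_up (hβ0 : 0 < β) (hβ1 : β ≤ 4 / 3) (hh : 0 ≤ h0) (hW : W.Perm (X ++ Y))
    (hX : AxL h0 X) (hY : ExL h0 Y) {Cl : ℝ} (hC : 0 ≤ Cl) (hm1 : 1 ≤ m) (hn : Y.length ≤ n0)
    (hlen : (W.length : ℝ) ≤ Cl * m) (hu : |u.re + l / 2| ≤ sH) :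
    ‖phi β W u‖ ≤ cU (1 / 2) h0 Cl (cK (1 / 2) h0 * n0) * cut m β u.im := by
  have hK := cK_ge (δ := 1 / 2) (by norm_num) (by norm_num) hh
  have hY' := hY.rwD hu
  have hX' := hX.ex.rwD hu
  have hXY : RwD (1 / 2) h0 u W := fun x hx => by
    rcases List.mem_append.1 (hW.mem_iff.1 hx) with h | h
    · exact hX' x h
    · exact hY' x h
  have hE1 : Real.exp (-(2 * β) * |u.im|) ≤ 1 := Real.exp_le_one_iff.2 (by
    have := abs_nonneg u.im
    nlinarith)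
  have hE := Real.exp_pos (-(2 * β) * |u.im|)
  refine (phi_up hβ0 hβ1 (by norm_num) (by norm_num) hh hXY hm1 hC (by positivity) hlen ?_).2
  rw [(hW.map fun x => psi β (u - x)).prod_eq, List.map_append, List.prod_append, norm_mul]
  have a1 := prod_ax (m := 0) hβ0 hβ1 hh hX (Nat.zero_le _) hu
  have a2 := prod_le hβ0 hβ1 (by norm_num) (by norm_num) hh hY'
  have a3 : Real.exp (-(cAx h0 * (((0 : ℕ) : ℝ) * Real.exp (-(2 * β) * |u.im|)))) = 1 := by simp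
  rw [a3] at a1
  have hn' : (Y.length : ℝ) ≤ n0 := by exact_mod_cast hn
  have hY0 : (0 : ℝ) ≤ Y.length := Nat.cast_nonneg _
  have a4 : cK (1 / 2) h0 * Y.length * Real.exp (-(2 * β) * |u.im|) ≤ cK (1 / 2) h0 * n0 := by
    calc cK (1 / 2) h0 * Y.length * Real.exp (-(2 * β) * |u.im|) ≤
        cK (1 / 2) h0 * Y.length * 1 := by
          refine mul_le_mul_of_nonneg_left hE1 (mul_nonneg (by linarith) hY0)
      _ ≤ cK (1 / 2) h0 * n0 := by
          rw [mul_one]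
          exact mul_le_mul_of_nonneg_left hn' (by linarith)
  calc ‖(X.map fun x => psi β (u - x)).prod‖ * ‖(Y.map fun x => psi β (u - x)).prod‖ ≤
      1 * Real.exp (cK (1 / 2) h0 * n0) :=
        mul_le_mul a1 (a2.trans (Real.exp_le_exp.2 a4)) (norm_nonneg _) zero_le_one
    _ = _ := one_mul _

end lists

/-! ### the strip of the holes -/

/-- **rows on the axis: the cutoffs have no zero in the strip of the holes** -/
theorem phI6_ax {N : Bool → ℕ} {β : ℝ} (hβ : 0 < β) (hβ' : β ≤ 4 / 3) {h0 : ℝ} (hh : 0 ≤ h0)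
    {ro : ∀ a, Fin (N a) → ℂ} {ex : Bool → List ℂ} {n0 m : ℕ}
    (hro : ∀ a i, (ro a i).re = 0 ∧ |(ro a i).im| ≤ h0) (hex : ∀ a, ExL h0 (ex a))
    (hn : ∀ a, (ex a).length ≤ n0) (hN : ∀ a, m ≤ N a) (hm1 : 1 ≤ m)
    (hm : cK (1 / 2) h0 * n0 ≤ cAx h0 / 2 * m) : PhI6 β ro ex := by
  have hl := NUP1.l_pos
  have c1 := cAx_pos h0
  have hX : ∀ a, AxL h0 (List.ofFn (ro a)) := by
    intro a x hx
    obtain ⟨i, rfl⟩ := (List.mem_ofFn' _ _).1 hx
    exact hro a i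
  have key : ∀ a (u : ℂ), 1 / 9 * l < u.re → u.re < 63 / 64 * l →
      ph β (ro a) (gP β (ex a)) u ≠ 0 ∧ ‖(ph β (ro a) (gP β (ex a)) u)⁻¹‖ ≤
        4 / cAx h0 * Real.exp (2 * β * |u.im|) := by
    intro a u h1 h2
    have hu : |u.re + NUP1.l / 2| ≤ sH := by
      unfold PBO.PLX.sH
      rw [abs_le]
      constructor <;> linarith
    have hlen : m ≤ (List.ofFn (ro a)).length := by
      rw [List.length_ofFn]
      exact hN a
    rw [PBX.ph_gP]
    refine ⟨phi_ax_ne hβ hβ' hh (List.Perm.refl _) (hX a) (hex a) hm1 hlen (hn a) hm hu, ?_⟩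
    rw [norm_inv]
    refine (phi_ax_inv hβ hβ' hh (List.Perm.refl _) (hX a) (hex a) hm1 hlen (hn a) hm hu).trans ?_
    have hmr : (1 : ℝ) ≤ m := by exact_mod_cast hm1
    have hE : (1 : ℝ) ≤ Real.exp (2 * β * |u.im|) := Real.one_le_exp (by positivity)
    have h4 : max 1 (Real.exp (2 * β * |u.im|) / m) ≤ Real.exp (2 * β * |u.im|) :=
      max_le hE (div_le_self (by positivity) hmr)
    exact mul_le_mul_of_nonneg_left h4 (by positivity)
  exact ⟨fun a u h1 h2 => (key a u h1 h2).1, fun a => ⟨4 / cAx h0, by positivity, fun u hu =>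
    (key a u (by linarith [hu.1]) (by linarith [hu.2])).2⟩⟩

theorem exL_II {h0 : ℝ} (h : 1 ≤ h0) : ExL h0 [I, -I] := by
  have hl := NUP1.l_pos
  intro w hw
  rw [List.mem_cons, List.mem_singleton] at hw
  rcases hw with rfl | rfl
  · rw [Complex.I_re, abs_zero, Complex.I_im, abs_one]
    exact ⟨by positivity, h⟩
  · rw [Complex.neg_re, Complex.I_re, neg_zero, abs_zero, Complex.neg_im, Complex.I_im, abs_neg,
      abs_one]
    exact ⟨by positivity, h⟩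

variable [Fil]

theorem le_Nq (m : ℕ) (a : Bool) : m ≤ Nq m a := by
  cases a
  · exact Nat.le_mul_of_pos_left _ Fil.one_le_q
  · exact le_rfl

theorem rwq_ax {h0 : ℝ} {m : ℕ} {x : Fin m → ℂ} (hx : ∀ i, (x i).re = 0 ∧ |(x i).im| ≤ h0) (a : Bool)
    (i : Fin (Nq m a)) : (rwq x a i).re = 0 ∧ |(rwq x a i).im| ≤ h0 := by
  cases a
  · exact hx _
  · exact hx _

/-- **one `m0` for all rows on the axis with heights `≤ h0`**, cutoff points `ex` -/
theorem phI6_axE {h0 : ℝ} (hh : 0 ≤ h0) (n0 : ℕ) : ∃ m0 : ℕ, 1 ≤ m0 ∧ ∀ m : ℕ, m0 ≤ m →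
    ∀ β : ℝ, 0 < β → β ≤ 4 / 3 → ∀ x : Fin m → ℂ, (∀ i, (x i).re = 0 ∧ |(x i).im| ≤ h0) →
    ∀ ex : Bool → List ℂ, (∀ a, ExL h0 (ex a)) → (∀ a, (ex a).length ≤ n0) →
    PhI6 (N := Nq m) β (rwq x) ex := by
  obtain ⟨m0, hm0⟩ := exists_nat_ge (cK (1 / 2) h0 * n0 / (cAx h0 / 2))
  refine ⟨m0 + 1, by omega, fun m hm β hβ hβ' x hx ex hex hl => ?_⟩
  have c1 := cAx_pos h0
  refine phI6_ax hβ hβ' hh (fun a i => rwq_ax hx a i) hex hl (le_Nq m) (by omega) ?_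
  have h1 : (m0 : ℝ) ≤ m := by exact_mod_cast (by omega : m0 ≤ m)
  have h2 := (div_le_iff₀ (by positivity)).1 (hm0.trans h1)
  linarith

/-- **one `m0` for all rows on the axis with heights `≤ h0`**, cutoff points `[I, -I]` -/
theorem phI6_axq {h0 : ℝ} (hh : 1 ≤ h0) : ∃ m0 : ℕ, 1 ≤ m0 ∧ ∀ m : ℕ, m0 ≤ m →
    ∀ β : ℝ, 0 < β → β ≤ 4 / 3 → ∀ x : Fin m → ℂ, (∀ i, (x i).re = 0 ∧ |(x i).im| ≤ h0) →
    PhI6 (N := Nq m) β (rwq x) fun _ => [I, -I] := by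
  obtain ⟨m0, h1, h2⟩ := phI6_axE (h0 := h0) (by linarith) 2
  exact ⟨m0, h1, fun m hm β hβ hβ' x hx => h2 m hm β hβ hβ' x hx _ (fun _ => exL_II hh)
    fun _ => le_rfl⟩

/-- **the rows of `Rws0`**, cutoff points `[I, -I]` -/
theorem phI6_Rws0 : ∃ m0 : ℕ, 1 ≤ m0 ∧ ∀ m : ℕ, m0 ≤ m → ∀ β : ℝ, 0 < β → β ≤ 4 / 3 →
    ∀ x : Fin m → ℂ, Rws0 x → PhI6 (N := Nq m) β (rwq x) fun _ => [I, -I] := by
  obtain ⟨m0, h1, h2⟩ := phI6_axq (h0 := 1) le_rfl
  exact ⟨m0, h1, fun m hm β hβ hβ' x hx => h2 m hm β hβ hβ' x fun i => ⟨hx.re i, hx.im i⟩⟩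

/-- the rows of a record -/
theorem xrU_rwq {m : ℕ} {D : RU m (Fil.q * m)} {x : Fin m → ℂ} (hx : D.x = x) (hy : D.y = yq x) :
    xrU D = rwq x := by
  funext a
  cases a
  · exact hy
  · exact hx

/-- **the rows of a record** -/
theorem phI6_axU : ∃ m0 : ℕ, 1 ≤ m0 ∧ ∀ m : ℕ, m0 ≤ m → ∀ (D : RU m (Fil.q * m)) (x : Fin m → ℂ),
    0 < D.β → D.β ≤ 4 / 3 → D.x = x → D.y = yq x → Rws0 x →
    PhI6 (N := fun a => cond a m (Fil.q * m)) D.β (xrU D) fun _ => [I, -I] := by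
  obtain ⟨m0, h1, h2⟩ := phI6_Rws0
  refine ⟨m0, h1, fun m hm D x hβ hβ' hx hy hr => ?_⟩
  rw [xrU_rwq hx hy]
  exact h2 m hm D.β hβ hβ' x hr

end PLT.H1

end
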