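import Pool.Agent.PLT.OneSq
import Pool.Agent.PLT.MfoC
import Pool.Agent.PLT.GeoC

/-!
# `OneRTC`, `OneRC` of a geometry over a sequence of seas

* `oneRTC_iff`, `oneRC_iff`: `OneRTC P G` is `OneSqT P G.B G.one`;
* **`oneRTC_wkb`, `oneRC_wkb`** (data `WKBC`), **`oneRTC_of`, `oneRC_of`** (data `Mf`, `ObC`);
* **`oneRTC_sea`, `oneRC_sea`**: the exponents are the clouds `mfo6` of `N m` rows over the sea `S m`.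
-/

set_option autoImplicit false

noncomputable section

open Complex MeasureTheory Set

namespace PLT

open PHK
open NUO hiding vl_re vl_im
open NUP1 NUGC.PLX
open PBP.PLX (gT gT_nonneg)

variable {P : Par6} {G : GeoC}

theorem oneRTC_iff : OneRTC P G ↔ OneSqT P G.B G.one := Iff.rfl

theorem oneRC_iff : OneRC P G ↔ OneSq P G.B G.one := Iff.rfl

variable {E : ℕ → Xo → ℝ} {pr : ℕ → Bool → ℝ → ℝ → ℝ}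

/-- **data with `WKBC`** -/
theorem oneRTC_wkb (τ : ℝ) {κ B0 : ℝ} (hκ : 0 < κ) (hB0 : 0 < B0)
    (hpr : ∃ m0 : ℕ, ∀ m ≥ m0, ∀ j ∈ loL P, ∀ a t, κ * (m * NUMF.P t) ≤ pr m a j t)
    (hB : ∀ ep : ℝ, 0 < ep → ep ≤ 1 / 100 → ∃ m0 : ℕ, ∀ m ≥ m0,
      WKBC B0 P (pr m) (E m) m (4 / 3 * (1 - ep)) (Tb (Real.log m) + τ) (G.B m (4 / 3 * (1 - ep))) ∧
        (G.B m (4 / 3 * (1 - ep))).Nn)
    {Kc : ℝ} (h1 : ∀ (m : ℕ) (ep e1 J : ℝ), 1 ≤ m → 0 < ep → 0 < e1 → 0 ≤ J →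
      ∀ (r : ℕ) (O : Fin r → Xo) (i : Fin r),
        G.one m ep e1 J r O i ≤ oneEC (E m) m ep e1 J O i + Kc) :
    OneRTC P G := oneSqT_wkb τ hκ hB0 hpr hB h1

/-- data with `WKBC`, without the gain -/
theorem oneRC_wkb (τ : ℝ) {κ B0 : ℝ} (hκ : 0 < κ) (hB0 : 0 < B0)
    (hpr : ∃ m0 : ℕ, ∀ m ≥ m0, ∀ j ∈ loL P, ∀ a t, κ * (m * NUMF.P t) ≤ pr m a j t)
    (hB : ∀ ep : ℝ, 0 < ep → ep ≤ 1 / 100 → ∃ m0 : ℕ, ∀ m ≥ m0,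
      WKBC B0 P (pr m) (E m) m (4 / 3 * (1 - ep)) (Tb (Real.log m) + τ) (G.B m (4 / 3 * (1 - ep))) ∧
        (G.B m (4 / 3 * (1 - ep))).Nn)
    {Kc : ℝ} (h1 : ∀ (m : ℕ) (ep e1 J : ℝ), 1 ≤ m → 0 < ep → 0 < e1 → 0 ≤ J →
      ∀ (r : ℕ) (O : Fin r → Xo) (i : Fin r),
        G.one m ep e1 J r O i ≤ oneEC (E m) m ep e1 J O i + Kc) :
    OneRC P G := (oneRTC_wkb τ hκ hB0 hpr hB h1).oneRC

/-- **data with `Mf`, `ObC`** -/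
theorem oneRTC_of {C : ℝ} (hC : 0 < C) (τ : ℝ) {κ : ℝ} (hκ : 0 < κ) {rw : ℕ → Bool → ℂ → ℝ}
    {cl : ℕ → Bool → ℝ → ℝ → ℝ} {pT : ℕ → Bool → ℝ → ℝ}
    (hM : ∃ m0 : ℕ, ∀ m ≥ m0, Mf P C (rw m) (cl m) (pr m) (pT m))
    (hpr : ∃ m0 : ℕ, ∀ m ≥ m0, ∀ j ∈ loL P, ∀ a t, κ * (m * NUMF.P t) ≤ pr m a j t)
    (hB : ∀ ep : ℝ, 0 < ep → ep ≤ 1 / 100 → ∃ m0 : ℕ, ∀ m ≥ m0,
      ObC P C (rw m) (pT m) m (4 / 3 * (1 - ep)) (Tb (Real.log m) + τ) (G.B m (4 / 3 * (1 - ep))))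
    {Kc : ℝ} (h1 : ∀ (m : ℕ) (ep e1 J : ℝ), 1 ≤ m → 0 < ep → 0 < e1 → 0 ≤ J →
      ∀ (r : ℕ) (O : Fin r → Xo) (i : Fin r),
        G.one m ep e1 J r O i ≤ oneEC (clK (cl m) P) m ep e1 J O i + Kc) :
    OneRTC P G := oneSqT_of hC τ hκ hM hpr hB h1

/-- data with `Mf`, `ObC`, without the gain -/
theorem oneRC_of {C : ℝ} (hC : 0 < C) (τ : ℝ) {κ : ℝ} (hκ : 0 < κ) {rw : ℕ → Bool → ℂ → ℝ}
    {cl : ℕ → Bool → ℝ → ℝ → ℝ} {pT : ℕ → Bool → ℝ → ℝ}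
    (hM : ∃ m0 : ℕ, ∀ m ≥ m0, Mf P C (rw m) (cl m) (pr m) (pT m))
    (hpr : ∃ m0 : ℕ, ∀ m ≥ m0, ∀ j ∈ loL P, ∀ a t, κ * (m * NUMF.P t) ≤ pr m a j t)
    (hB : ∀ ep : ℝ, 0 < ep → ep ≤ 1 / 100 → ∃ m0 : ℕ, ∀ m ≥ m0,
      ObC P C (rw m) (pT m) m (4 / 3 * (1 - ep)) (Tb (Real.log m) + τ) (G.B m (4 / 3 * (1 - ep))))
    {Kc : ℝ} (h1 : ∀ (m : ℕ) (ep e1 J : ℝ), 1 ≤ m → 0 < ep → 0 < e1 → 0 ≤ J →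
      ∀ (r : ℕ) (O : Fin r → Xo) (i : Fin r),
        G.one m ep e1 J r O i ≤ oneEC (clK (cl m) P) m ep e1 J O i + Kc) :
    OneRC P G := (oneRTC_of hC τ hκ hM hpr hB h1).oneRC

/-- **the exponents are the clouds of `N m` rows over the sea `S m`** -/
theorem oneRTC_sea (B : SeaCB) (S : ℕ → SeaC) (hS : ∀ m, @SeaCU B (S m)) (N : ℕ → Bool → ℝ)
    {C : ℝ} (hC : 0 < C) (τ : ℝ) {κ : ℝ} (hκ : 0 < κ) {rw : ℕ → Bool → ℂ → ℝ}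
    {pT : ℕ → Bool → ℝ → ℝ}
    (hM : ∃ m0 : ℕ, ∀ m ≥ m0, Mf P C (rw m) (@Cv.clo (S m) (N m)) (pr m) (pT m))
    (hpr : ∃ m0 : ℕ, ∀ m ≥ m0, ∀ j ∈ loL P, ∀ a t, κ * (m * NUMF.P t) ≤ pr m a j t)
    (hB : ∀ ep : ℝ, 0 < ep → ep ≤ 1 / 100 → ∃ m0 : ℕ, ∀ m ≥ m0,
      ObC P C (rw m) (pT m) m (4 / 3 * (1 - ep)) (Tb (Real.log m) + τ) (G.B m (4 / 3 * (1 - ep))))
    {Kc : ℝ} (h1 : ∀ (m : ℕ) (ep e1 J : ℝ), 1 ≤ m → 0 < ep → 0 < e1 → 0 ≤ J →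
      ∀ (r : ℕ) (O : Fin r → Xo) (i : Fin r), G.one m ep e1 J r O i ≤
        oneEC (fun x => @Cv.mfo6 (S m) (N m) (parts6 P x)) m ep e1 J O i + Kc) :
    OneRTC P G := by
  refine oneRTC_of hC τ hκ hM hpr hB (Kc := Kc) fun m ep e1 J a1 a2 a3 a4 r O i => ?_
  have h2 := h1 m ep e1 J a1 a2 a3 a4 r O i
  have e : (fun x => @Cv.mfo6 (S m) (N m) (parts6 P x)) = clK (@Cv.clo (S m) (N m)) P := by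
    funext x
    exact @Cv.mfo6C_clK B (S m) (hS m) (N m) P x
  rwa [e] at h2

/-- the same without the gain -/
theorem oneRC_sea (B : SeaCB) (S : ℕ → SeaC) (hS : ∀ m, @SeaCU B (S m)) (N : ℕ → Bool → ℝ)
    {C : ℝ} (hC : 0 < C) (τ : ℝ) {κ : ℝ} (hκ : 0 < κ) {rw : ℕ → Bool → ℂ → ℝ}
    {pT : ℕ → Bool → ℝ → ℝ}
    (hM : ∃ m0 : ℕ, ∀ m ≥ m0, Mf P C (rw m) (@Cv.clo (S m) (N m)) (pr m) (pT m))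
    (hpr : ∃ m0 : ℕ, ∀ m ≥ m0, ∀ j ∈ loL P, ∀ a t, κ * (m * NUMF.P t) ≤ pr m a j t)
    (hB : ∀ ep : ℝ, 0 < ep → ep ≤ 1 / 100 → ∃ m0 : ℕ, ∀ m ≥ m0,
      ObC P C (rw m) (pT m) m (4 / 3 * (1 - ep)) (Tb (Real.log m) + τ) (G.B m (4 / 3 * (1 - ep))))
    {Kc : ℝ} (h1 : ∀ (m : ℕ) (ep e1 J : ℝ), 1 ≤ m → 0 < ep → 0 < e1 → 0 ≤ J →
      ∀ (r : ℕ) (O : Fin r → Xo) (i : Fin r), G.one m ep e1 J r O i ≤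
        oneEC (fun x => @Cv.mfo6 (S m) (N m) (parts6 P x)) m ep e1 J O i + Kc) :
    OneRC P G := (oneRTC_sea B S hS N hC τ hκ hM hpr hB h1).oneRC

end PLT

end
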