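import Pool.Agent.PLT.OneTC
import Pool.Agent.PHK.OneKB6

/-!
# One body bounds for a sequence of seas

Data `Bd m β`, exponents `one m ep e1 J r O i` of a sequence (`m` = number of rows); the sea enters only
through the exponent `E m x` of the clouds at an object, the content through prices `pr m a j t`.

* `OneSqT P Bd one`, `OneSq P Bd one`: the one body factor of every object against the activity, with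
  and without the gain of the tent (`OneRT6`, `OneR6` of `PHK` are `OneSqT par6 G.B G.one`, ..);
* **`oneSqT_wkb`, `oneSq_wkb`**: data with `WKBC`; **`oneSqT_of`, `oneSq_of`**: data with `Mf`, `ObC`
  (`E m = clK (cl m) P`), for exponents at most `oneEC + Kc`.
-/

set_option autoImplicit false

noncomputable section

open Complex MeasureTheory Set

namespace PLT

open PHK
open NUO hiding vl_re vl_im
open NUP1 NUGC.PLX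
open PBP.PLX (gT gT_nonneg)

/-- **one body factor of every object against the activity**, the gain of the tent kept -/
def OneSqT (P : Par6) (Bd : ℕ → ℝ → OB)
    (one : ℕ → ℝ → ℝ → ℝ → (r : ℕ) → (Fin r → Xo) → Fin r → ℝ) : Prop :=
  ∃ aS c2 τ : ℝ, 0 ≤ aS ∧ 0 < c2 ∧ ∀ K0 : ℝ, ∃ C c : ℝ, 0 < C ∧ 0 < c ∧
  ∀ ep : ℝ, 0 < ep → ep ≤ 1 / 100 → ∀ e1 : ℝ, 0 < e1 → e1 ≤ 1 / 100 → ∀ J : ℝ, 0 ≤ J →
  ∃ m1 : ℕ, ∀ m ≥ m1, ∀ (r : ℕ) (O : Fin r → Xo) (i : Fin r),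
    ob6 (Bd m (4 / 3 * (1 - ep))) P (O i) * Real.exp (one m ep e1 J r O i + K0) ≤
    act6 C c c2 aS τ 6 (Real.log m) ep e1 J r (k6 (O i)) (ht (O i)) *
      Real.exp (-gT e1 (Real.log m) (ht (O i)))

/-- the same without the gain -/
def OneSq (P : Par6) (Bd : ℕ → ℝ → OB)
    (one : ℕ → ℝ → ℝ → ℝ → (r : ℕ) → (Fin r → Xo) → Fin r → ℝ) : Prop :=
  ∃ aS c2 τ : ℝ, 0 ≤ aS ∧ 0 < c2 ∧ ∀ K0 : ℝ, ∃ C c : ℝ, 0 < C ∧ 0 < c ∧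
  ∀ ep : ℝ, 0 < ep → ep ≤ 1 / 100 → ∀ e1 : ℝ, 0 < e1 → e1 ≤ 1 / 100 → ∀ J : ℝ, 0 ≤ J →
  ∃ m1 : ℕ, ∀ m ≥ m1, ∀ (r : ℕ) (O : Fin r → Xo) (i : Fin r),
    ob6 (Bd m (4 / 3 * (1 - ep))) P (O i) * Real.exp (one m ep e1 J r O i + K0) ≤
    act6 C c c2 aS τ 6 (Real.log m) ep e1 J r (k6 (O i)) (ht (O i))

/-- the exponent of an object: clouds `E`, current `hC` -/
def oneEC (E : Xo → ℝ) (m : ℕ) (ep e1 J : ℝ) {r : ℕ} (O : Fin r → Xo) (i : Fin r) : ℝ :=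
  E (O i) - 2 * Real.pi * wind6 (k6 (O i)) * hC e1 J m (ht (O i)) + exc (TW ep e1 m) (ht (O i))

theorem log_nn' (m : ℕ) : 0 ≤ Real.log (m : ℝ) := Real.log_natCast_nonneg m

variable {P : Par6} {Bd : ℕ → ℝ → OB}
  {one : ℕ → ℝ → ℝ → ℝ → (r : ℕ) → (Fin r → Xo) → Fin r → ℝ}

theorem OneSqT.sq (h : OneSqT P Bd one) : OneSq P Bd one := by
  obtain ⟨aS, c2, τ, haS, hc2, h⟩ := h
  refine ⟨aS, c2, τ, haS, hc2, fun K0 => ?_⟩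
  obtain ⟨C, c, hC, hc, h⟩ := h K0
  refine ⟨C, c, hC, hc, fun ep hep hep1 e1 he1 he11 J hJ => ?_⟩
  obtain ⟨m1, h⟩ := h ep hep hep1 e1 he1 he11 J hJ
  refine ⟨m1, fun m hm r O i => (h m hm r O i).trans ?_⟩
  have h0 : 0 ≤ act6 C c c2 aS τ 6 (Real.log m) ep e1 J r (k6 (O i)) (ht (O i)) :=
    act6_nonneg hC.le (log_nn' m) _ _
  exact mul_le_of_le_one_right h0
    (Real.exp_le_one_iff.2 (by linarith [gT_nonneg e1 (Real.log m) (ht (O i))]))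

/-- a smaller exponent, up to a constant -/
theorem OneSqT.le (h : OneSqT P Bd one)
    {one' : ℕ → ℝ → ℝ → ℝ → (r : ℕ) → (Fin r → Xo) → Fin r → ℝ} {K : ℝ}
    (hn : ∀ m β, (Bd m β).Nn)
    (h1 : ∀ (m : ℕ) (ep e1 J : ℝ), 1 ≤ m → 0 < ep → 0 < e1 → 0 ≤ J →
      ∀ (r : ℕ) (O : Fin r → Xo) (i : Fin r), one' m ep e1 J r O i ≤ one m ep e1 J r O i + K) :
    OneSqT P Bd one' := by
  obtain ⟨aS, c2, τ, haS, hc2, h⟩ := h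
  refine ⟨aS, c2, τ, haS, hc2, fun K0 => ?_⟩
  obtain ⟨C, c, hC, hc, h⟩ := h (K + K0)
  refine ⟨C, c, hC, hc, fun ep hep hep1 e1 he1 he11 J hJ => ?_⟩
  obtain ⟨m1, h⟩ := h ep hep hep1 e1 he1 he11 J hJ
  refine ⟨max m1 1, fun m hm r O i => ?_⟩
  simp only [ge_iff_le, max_le_iff] at hm
  refine le_trans (mul_le_mul_of_nonneg_left (Real.exp_le_exp.2 ?_) (ob6_nonneg (hn _ _) _ _))
    (h m hm.1 r O i)
  have := h1 m ep e1 J hm.2 hep he1 hJ r O i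
  linarith

variable {E : ℕ → Xo → ℝ} {pr : ℕ → Bool → ℝ → ℝ → ℝ}

/-- **data with `WKBC`** -/
theorem oneSqT_wkb (τ : ℝ) {κ B0 : ℝ} (hκ : 0 < κ) (hB0 : 0 < B0)
    (hpr : ∃ m0 : ℕ, ∀ m ≥ m0, ∀ j ∈ loL P, ∀ a t, κ * (m * NUMF.P t) ≤ pr m a j t)
    (hB : ∀ ep : ℝ, 0 < ep → ep ≤ 1 / 100 → ∃ m0 : ℕ, ∀ m ≥ m0,
      WKBC B0 P (pr m) (E m) m (4 / 3 * (1 - ep)) (Tb (Real.log m) + τ) (Bd m (4 / 3 * (1 - ep))) ∧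
        (Bd m (4 / 3 * (1 - ep))).Nn)
    {Kc : ℝ} (h1 : ∀ (m : ℕ) (ep e1 J : ℝ), 1 ≤ m → 0 < ep → 0 < e1 → 0 ≤ J →
      ∀ (r : ℕ) (O : Fin r → Xo) (i : Fin r),
        one m ep e1 J r O i ≤ oneEC (E m) m ep e1 J O i + Kc) :
    OneSqT P Bd one := by
  refine ⟨6, 1 / 5, τ, by norm_num, by norm_num, fun K0 => ?_⟩
  obtain ⟨A, hA, H⟩ := one_hCCT (Kc + K0) τ hκ hB0
  obtain ⟨m2, hm2⟩ := hpr
  refine ⟨A, 7 / 10 * (κ / 2), hA, by positivity, fun ep hep hep1 e1 he1 he11 J hJ => ?_⟩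
  obtain ⟨m0, hm0⟩ := hB ep hep hep1
  obtain ⟨m1, hm1, H⟩ := H e1 he1 he11 J hJ
  refine ⟨max (max m0 m1) m2, fun m hm r O i => ?_⟩
  simp only [ge_iff_le, max_le_iff] at hm
  obtain ⟨⟨g0, g1⟩, g2⟩ := hm
  have g3 : 3 ≤ m := hm1.trans g1
  have hL := log_ge_one g3
  obtain ⟨w1, w2⟩ := hm0 m g0
  have key := H m g1 6 ep hep hep1 (TW ep e1 m) (PBI.PLX.TW_ge6 hep hep1 he1.le (by linarith)) P
    (pr m) (E m) (hm2 m g2) _ w2 w1 r (O i)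
  refine le_trans (mul_le_mul_of_nonneg_left (Real.exp_le_exp.2 ?_) (ob6_nonneg w2 _ _)) key
  have h4 := h1 m ep e1 J (by omega) hep he1 hJ r O i
  unfold oneEC at h4
  linarith

/-- data with `WKBC`, without the gain -/
theorem oneSq_wkb (τ : ℝ) {κ B0 : ℝ} (hκ : 0 < κ) (hB0 : 0 < B0)
    (hpr : ∃ m0 : ℕ, ∀ m ≥ m0, ∀ j ∈ loL P, ∀ a t, κ * (m * NUMF.P t) ≤ pr m a j t)
    (hB : ∀ ep : ℝ, 0 < ep → ep ≤ 1 / 100 → ∃ m0 : ℕ, ∀ m ≥ m0,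
      WKBC B0 P (pr m) (E m) m (4 / 3 * (1 - ep)) (Tb (Real.log m) + τ) (Bd m (4 / 3 * (1 - ep))) ∧
        (Bd m (4 / 3 * (1 - ep))).Nn)
    {Kc : ℝ} (h1 : ∀ (m : ℕ) (ep e1 J : ℝ), 1 ≤ m → 0 < ep → 0 < e1 → 0 ≤ J →
      ∀ (r : ℕ) (O : Fin r → Xo) (i : Fin r),
        one m ep e1 J r O i ≤ oneEC (E m) m ep e1 J O i + Kc) :
    OneSq P Bd one := (oneSqT_wkb τ hκ hB0 hpr hB h1).sq

/-- **data with `Mf`, `ObC`** -/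
theorem oneSqT_of {C : ℝ} (hC : 0 < C) (τ : ℝ) {κ : ℝ} (hκ : 0 < κ) {rw : ℕ → Bool → ℂ → ℝ}
    {cl : ℕ → Bool → ℝ → ℝ → ℝ} {pT : ℕ → Bool → ℝ → ℝ}
    (hM : ∃ m0 : ℕ, ∀ m ≥ m0, Mf P C (rw m) (cl m) (pr m) (pT m))
    (hpr : ∃ m0 : ℕ, ∀ m ≥ m0, ∀ j ∈ loL P, ∀ a t, κ * (m * NUMF.P t) ≤ pr m a j t)
    (hB : ∀ ep : ℝ, 0 < ep → ep ≤ 1 / 100 → ∃ m0 : ℕ, ∀ m ≥ m0,
      ObC P C (rw m) (pT m) m (4 / 3 * (1 - ep)) (Tb (Real.log m) + τ) (Bd m (4 / 3 * (1 - ep))))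
    {Kc : ℝ} (h1 : ∀ (m : ℕ) (ep e1 J : ℝ), 1 ≤ m → 0 < ep → 0 < e1 → 0 ≤ J →
      ∀ (r : ℕ) (O : Fin r → Xo) (i : Fin r),
        one m ep e1 J r O i ≤ oneEC (clK (cl m) P) m ep e1 J O i + Kc) :
    OneSqT P Bd one := by
  obtain ⟨m2, hm2⟩ := hM
  refine oneSqT_wkb τ hκ (cKBC_pos hC) hpr (fun ep hep hep1 => ?_) h1
  obtain ⟨m0, hm0⟩ := hB ep hep hep1
  refine ⟨max m0 m2, fun m hm => ?_⟩
  simp only [ge_iff_le, max_le_iff] at hm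
  exact ⟨wkbC_of hC (by linarith) (hm2 m hm.2) (hm0 m hm.1), (hm0 m hm.1).nn⟩

/-- data with `Mf`, `ObC`, without the gain -/
theorem oneSq_of {C : ℝ} (hC : 0 < C) (τ : ℝ) {κ : ℝ} (hκ : 0 < κ) {rw : ℕ → Bool → ℂ → ℝ}
    {cl : ℕ → Bool → ℝ → ℝ → ℝ} {pT : ℕ → Bool → ℝ → ℝ}
    (hM : ∃ m0 : ℕ, ∀ m ≥ m0, Mf P C (rw m) (cl m) (pr m) (pT m))
    (hpr : ∃ m0 : ℕ, ∀ m ≥ m0, ∀ j ∈ loL P, ∀ a t, κ * (m * NUMF.P t) ≤ pr m a j t)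
    (hB : ∀ ep : ℝ, 0 < ep → ep ≤ 1 / 100 → ∃ m0 : ℕ, ∀ m ≥ m0,
      ObC P C (rw m) (pT m) m (4 / 3 * (1 - ep)) (Tb (Real.log m) + τ) (Bd m (4 / 3 * (1 - ep))))
    {Kc : ℝ} (h1 : ∀ (m : ℕ) (ep e1 J : ℝ), 1 ≤ m → 0 < ep → 0 < e1 → 0 ≤ J →
      ∀ (r : ℕ) (O : Fin r → Xo) (i : Fin r),
        one m ep e1 J r O i ≤ oneEC (clK (cl m) P) m ep e1 J O i + Kc) :
    OneSq P Bd one := (oneSqT_of hC τ hκ hM hpr hB h1).sq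

end PLT

end
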