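import Pool.Agent.PLT.TopG
import Pool.Agent.PLT.OneSq
import Pool.Agent.PLT.OneRTC

/-!
# Sea on a curve: the one body bound of a family, uniform in the index

* `oneTF_wkb`: `OneTF` from the bounds by kinds `WKBC`, uniform in the index;
* **`DatF F P B S pT`**: the one body data of a family against rows and clouds (`Mf`, `ObC`), uniform in the index,
  `pT` the growth of the rows at the line of `T`; **`oneTF_of`**: it gives `OneTF` for the exponents `oneHC`.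
-/

set_option autoImplicit false
set_option linter.unusedSectionVars false
set_option linter.unusedVariables false

noncomputable section

open Complex MeasureTheory Finset
open scoped ENNReal
open PLX (Fil Ends)

namespace PLT

open NUO NUP1 NUP1S NUP1S.Ab NUP1S.AbC
open NUGC.PLX (OB pE qE hC)
open PHK
open PBP.PLX (gT gT_nonneg)
open PotH.PLX (sN)

variable [Fil] [Ends] {ι : Type} {F : FamC ι} {P : Par6} {B : ℝ → ℕ → ι → OB}

/-- **the one body bound of a family from the bounds by kinds** -/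
theorem oneTF_wkb {one : ℝ → ℝ → ℝ → ℕ → ι → (r : ℕ) → (Fin r → Xo) → Fin r → ℝ} (τ : ℝ) {κ B0 : ℝ}
    (hκ : 0 < κ) (hB0 : 0 < B0) {pr : ℕ → ι → Bool → ℝ → ℝ → ℝ} {E : ℕ → ι → Xo → ℝ}
    (hpr : ∃ m0 : ℕ, ∀ m ≥ m0, ∀ i, F.ok m i → ∀ j ∈ loL P, ∀ a t, κ * (m * NUMF.P t) ≤ pr m i a j t)
    (hB : ∀ ep : ℝ, 0 < ep → ep ≤ 1 / 100 → ∃ m0 : ℕ, ∀ m ≥ m0, ∀ i, F.ok m i →
      WKBC B0 P (pr m i) (E m i) m (4 / 3 * (1 - ep)) (Tb (Real.log m) + τ) (B ep m i) ∧ (B ep m i).Nn)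
    {Kc : ℝ} (h1 : ∀ e1 : ℝ, 0 < e1 → e1 ≤ 1 / 100 → ∀ J : ℝ, 0 ≤ J → ∃ m0 : ℕ, ∀ m ≥ m0, ∀ i, F.ok m i →
      ∀ (ep : ℝ) (r : ℕ) (O : Fin r → Xo) (j : Fin r),
        one ep e1 J m i r O j ≤ oneEC (E m i) m ep e1 J O j + Kc) :
    OneTF F P B one := by
  refine ⟨6, 1 / 5, τ, by norm_num, by norm_num, fun K0 => ?_⟩
  obtain ⟨A, hA, H⟩ := one_hCCT (Kc + K0) τ hκ hB0
  obtain ⟨m2, hm2⟩ := hpr
  refine ⟨A, 7 / 10 * (κ / 2), hA, by positivity, fun ep hep hep1 e1 he1 he11 J hJ => ?_⟩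
  obtain ⟨m0, hm0⟩ := hB ep hep hep1
  obtain ⟨m1, hm1, H⟩ := H e1 he1 he11 J hJ
  obtain ⟨m3, hm3⟩ := h1 e1 he1 he11 J hJ
  refine ⟨max (max m0 m1) (max m2 m3), fun m hm i hi r O j => ?_⟩
  simp only [ge_iff_le, max_le_iff] at hm
  obtain ⟨⟨g0, g1⟩, g2, g4⟩ := hm
  have g3 : 3 ≤ m := hm1.trans g1
  obtain ⟨w1, w2⟩ := hm0 m g0 i hi
  have key := H m g1 6 ep hep hep1 (TW ep e1 m) (PBI.PLX.TW_ge6 hep hep1 he1.le (log_nn' m)) P
    (pr m i) (E m i) (hm2 m g2 i hi) _ w2 w1 r (O j)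
  refine le_trans (mul_le_mul_of_nonneg_left (Real.exp_le_exp.2 ?_) (ob6_nonneg w2 _ _)) key
  have h4 := hm3 m g4 i hi ep r O j
  unfold oneEC at h4
  linarith

/-- **the one body data of a family**, uniform in the index; `pT` the growth of the rows at the line of `T` -/
def DatF (F : FamC ι) (P : Par6) (B : ℝ → ℕ → ι → OB) (S : ℕ → ι → SeaC)
    (pT : ℕ → ι → Bool → ℝ → ℝ) : Prop :=
  ∃ C τ κ : ℝ, 0 < C ∧ 0 < κ ∧ ∃ (rw : ℕ → ι → Bool → ℂ → ℝ) (pr : ℕ → ι → Bool → ℝ → ℝ → ℝ),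
    (∃ m0 : ℕ, ∀ m ≥ m0, ∀ i, F.ok m i →
      Mf P C (rw m i) (@Cv.clo (S m i) (sN m)) (pr m i) (pT m i) ∧
        ∀ j ∈ loL P, ∀ a t, κ * (m * NUMF.P t) ≤ pr m i a j t) ∧
    ∀ ep : ℝ, 0 < ep → ep ≤ 1 / 100 → ∃ m0 : ℕ, ∀ m ≥ m0, ∀ i, F.ok m i →
      ObC P C (rw m i) (pT m i) m (4 / 3 * (1 - ep)) (Tb (Real.log m) + τ) (B ep m i)

/-- the exponents of `GasF` are those of the clouds and the current `hC` -/
theorem oneHC_le {SB : SeaCB} {S : SeaC} (hS : @SeaCU SB S) {e1 J : ℝ} {m : ℕ} (hm : 1 ≤ m) (ep : ℝ)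
    {r : ℕ} (O : Fin r → Xo) (j : Fin r) :
    @oneHC S _ _ P m (@Cv.etaC S e1 J m m) (TW ep e1 m) r O j ≤
      oneEC (clK (@Cv.clo S (sN m)) P) m ep e1 J O j + 0 := by
  unfold oneHC oneEC
  rw [@crC_etaC S _ _ SB hS e1 J m (by omega), @Cv.mfo6C_clK SB S hS (sN m) P (O j), add_zero]

/-- **the one body bound of a family from its data** -/
theorem oneTF_of {SB : SeaCB} {S : ℕ → ι → SeaC} (hu : ∀ m i, F.ok m i → @SeaCU SB (S m i))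
    {pT : ℕ → ι → Bool → ℝ → ℝ} (h : DatF F P B S pT) :
    OneTF F P B fun ep e1 J m i r O j =>
      @oneHC (S m i) _ _ P m (@Cv.etaC (S m i) e1 J m m) (TW ep e1 m) r O j := by
  obtain ⟨C, τ, κ, hC, hκ, rw, pr, ⟨m2, hM⟩, hB⟩ := h
  refine oneTF_wkb τ hκ (cKBC_pos hC) ⟨m2, fun m hm i hi => (hM m hm i hi).2⟩
    (E := fun m i => clK (@Cv.clo (S m i) (sN m)) P) (fun ep hep hep1 => ?_) (Kc := 0)
    fun e1 he he1 J hJ => ⟨1, fun m hm i hi ep r O j => oneHC_le (hu m i hi) hm ep O j⟩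
  obtain ⟨m0, hm0⟩ := hB ep hep hep1
  refine ⟨max m0 m2, fun m hm i hi => ?_⟩
  simp only [ge_iff_le, max_le_iff] at hm
  exact ⟨wkbC_of hC (by linarith) (hM m hm.2 i hi).1 (hm0 m hm.1 i hi), (hm0 m hm.1 i hi).nn⟩

end PLT

end
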