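import Pool.Agent.PLT.EnvLC
import Pool.Agent.PLT.OneTFw
import Pool.Agent.PLT.EnT

/-!
# All inputs of the bounds of a family in one record

* **`InUX`**: gas theorem, stability, one body data, value, class, seas of a family; **`InUX.ux`**: `UXC F P`;
* `StabF` from `WinQ` (`stabF_enT`);
* **`ReqL`**: what the family of the dislocated function over a content needs (contents, legs, cutoff, gas theorem,
  window of the point, one body data); **`inUX_L`**: the record; `ux_reqL`.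
-/

set_option autoImplicit false
set_option linter.unusedSectionVars false
set_option linter.unusedVariables false

noncomputable section

open Complex MeasureTheory Finset
open scoped ENNReal
open PLX (Fil Ends)

namespace PLT

open NUO NUP1 NUP1S NUP1S.Ab NUP1S.AbC NUDispO
open NUGC.PLX (OB pE qE)
open PHK
open Pool.Agent.NUM3

variable [Fil] [Ends] {ι : Type}

/-- **all inputs of the bounds of a family** -/
structure InUX (SB : SeaCB) (F : FamC ι) (P : Par6) (S : ℕ → ι → SeaC) (B : ℝ → ℕ → ι → OB) (en : EnC)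
    (lin : ℝ → ℝ → ℕ → ι → ℝ) (pT : ℕ → ι → Bool → ℝ → ℝ) (h1 h0 : ℝ) : Prop where
  good : GoodP6 P
  seas : SeasC SB F S
  gas : GasFC F P S B (EcC P en S) lin
  stab : StabF F P fun m i => en (S m i)
  dat : DatF F P B S pT
  val : ValF F lin
  cls : ClsF F P B h1 h0

variable {SB : SeaCB} {F : FamC ι} {P : Par6} {S : ℕ → ι → SeaC} {B : ℝ → ℕ → ι → OB} {en : EnC}
  {lin : ℝ → ℝ → ℕ → ι → ℝ} {pT : ℕ → ι → Bool → ℝ → ℝ} {h1 h0 : ℝ}

/-- **U1, U3, U4 from the record** -/
theorem InUX.ux (h : InUX SB F P S B en lin pT h1 h0) : UXC F P :=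
  ux_ofC h.cls.bd h.seas (topFC_EcC h.good h.stab (oneTF_of h.seas.u h.dat) h.val h.cls) h.gas

/-- the density of the sea is integrable -/
theorem InUX.dc (h : InUX SB F P S B en lin pT h1 h0) (m : ℕ) (i : ι) (hi : F.ok m i) : Integrable (F.dc m i) := by
  rw [h.seas.dc m i hi]
  have h5 := @shiftC (S m i) _ _ SB (h.seas.u m i hi) (h.seas.win m i hi) (F.lo - 1) (F.hi + 1)
    (fun _ => 0) ⟨differentiableOn_const 0, fun _ _ => by simp⟩ (by linarith) (by linarith)
  exact h5.1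

/-- **stability over every family of seas in the window of a point** -/
theorem stabF_enT {q : Pt} {t : Tb8} {δ : ℝ} (hT : HT q t δ) (hW : ∀ m i, F.ok m i → WinQ q (S m i)) :
    StabF F q.par fun m i => enT q.par (S m i) := by
  obtain ⟨C, c1, hc, H⟩ := stab_enT hT
  exact ⟨C, c1, hc, fun m i hi r O W => H (S m i) (hW m i hi) r O W⟩

/-! ### the family of the dislocated function over a content -/

/-- **the inputs of the family of the dislocated function over a content** -/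
structure ReqL (SB : SeaCB) (P : Par6) (en : EnC) (x : (m : ℕ) → ι → Fin m → ℂ) (z : ι → ℂ) (S : ℕ → ι → SeaC)
    (ok : ℕ → ι → Prop) (pT : ℕ → ι → Bool → ℝ → ℝ) (h1 h0 : ℝ) : Prop where
  cnt : CntL SB x z S ok h1 h0
  seas : SeasL x z S ok
  z3 : ∀ m i, ok m i → (z i).re ≤ 31 / 10 * NUMF.l
  cut : ∀ ep : ℝ, 0 < ep → ep ≤ 1 / 100 → ∀ e1 : ℝ, 0 < e1 → e1 ≤ 1 / 100 → ∀ J : ℝ, 0 ≤ J →
    ∃ C0 : ℝ, 1 ≤ C0 ∧ ∃ m0 : ℕ, ∀ m ≥ m0, ∀ i, ok m i →
      @CutBC (S m i) _ ep e1 C0 m (@Cv.etaC (S m i) e1 J m m) (BLC x z ep m i)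
  gas : S4MC SB P en
  stab : StabF (famLC x z S ok (-(h1 * NUP1.l)) (h0 * NUP1.l)) P fun m i => en (S m i)
  dat : DatF (famLC x z S ok (-(h1 * NUP1.l)) (h0 * NUP1.l)) P (BLC x z) S pT

/-- **the record of the family** -/
theorem inUX_L {x : (m : ℕ) → ι → Fin m → ℂ} {z : ι → ℂ} {ok : ℕ → ι → Prop} (he : Ends.e = 0)
    (ho : Ends.o = 0) (hP : GoodP6 P) (h : ReqL SB P en x z S ok pT h1 h0) :
    InUX SB (famLC x z S ok (-(h1 * NUP1.l)) (h0 * NUP1.l)) P S (BLC x z) en (linLC z S) pT h1 h0 where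
  good := hP
  seas := seasC_of h.cnt.sea h.cnt.win (fun _ _ _ => rfl) curF_L
  gas := gasFC_of h.cnt.sea curF_L h.gas (envF_L he ho h.cnt h.seas h.z3 h.cut)
  stab := h.stab
  dat := h.dat
  val := valF_L he ho h.cnt.sea h.seas (fun m i hi => ⟨h.cnt.z1 m i hi, h.z3 m i hi⟩) _ _
  cls := clsF_L he ho h.cnt

/-- **U1, U3, U4 of the dislocated function over a content** -/
theorem ux_reqL {x : (m : ℕ) → ι → Fin m → ℂ} {z : ι → ℂ} {ok : ℕ → ι → Prop} (he : Ends.e = 0)
    (ho : Ends.o = 0) (hP : GoodP6 P) (h : ReqL SB P en x z S ok pT h1 h0) :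
    UXC (famLC x z S ok (-(h1 * NUP1.l)) (h0 * NUP1.l)) P := (inUX_L he ho hP h).ux

end PLT

end
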