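import Pool.Agent.PLT.FibI
import Pool.Agent.PHK.RepZ6

/-!
# (P), rows on the imaginary axis: the data of the transfer, one index

`PHK/RepZ6` with the content as data.  Rows `x` on the imaginary axis (any content), legs at `z`
(`|Re z| ≤ l / 2`, any height), curves `CrsB ep`, cutoff `4 (1 - ep) / 3`; the straight lines of the
first Ward identity are the landed ones, `fl (pL k)`, `3/5 l`.

* **`trN_I`**: `TrN6` of `ZI k x`, the masses finite;
* `fin_of`: the masses are finite when the sum of the masses times `|Pf|` is.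
-/

set_option autoImplicit false
set_option linter.unusedSectionVars false

noncomputable section

open Complex MeasureTheory Finset
open scoped ENNReal Classical
open PLX (Fil)

namespace PLT.RI

open NUP1 hiding Kd
open NUO NUP1S NUP1S.Ab NUP1S.AbC PB PHK
open PBX (ph)
open PBI.PLX (ClsB6)
open PBF.PLX (Crs MCr dN FE6 FA_eq_FE6)
open PBT.PLX (pL)
open Pool.Agent.PB (Pf)
open Pool.Agent.PLX (rwq yq GF6 PhI6)
open PLT.FI (CrsB ZI g0I Rws_re)

attribute [local instance] NUSea.seaP _root_.PLX.ends0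

variable [Fil]

/-- the cutoffs of the strings over the rows on the imaginary axis -/
theorem gF6_g0I (k : ℕ) {m : ℕ} {x : Fin m → ℂ} (hx : ∀ i, (x i).re = 0) (a : Bool) :
    GF6 (rwq x a) (g0I k x a) :=
  Pool.Agent.PLX.gF6_gO (PBU.PLX.T1L k) (Pool.Agent.PLX.Rws_rwq (Rws_re hx) a) (by simp)

theorem re_pm (w : ℂ) (hw : w ∈ [I, -I]) : |w.re| ≤ l / 2 := by
  have hl := NUP1.l_pos
  rw [List.mem_cons, List.mem_singleton] at hw
  rcases hw with rfl | rfl
  · rw [Complex.I_re, abs_zero]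
    positivity
  · rw [Complex.neg_re, Complex.I_re, neg_zero, abs_zero]
    positivity

/-- **the class of the dislocated function**, rows on the imaginary axis -/
theorem clZ_I {ep : ℝ} (hep : 0 < ep) (hep1 : ep ≤ 1 / 100) (k : ℕ) {m : ℕ} {x : Fin m → ℂ}
    (hx : ∀ i, (x i).re = 0) {z : ℂ} (hz : |z.re| ≤ l / 2)
    (hphi : PhI6 (N := Nq m) (4 / 3 * (1 - ep)) (rwq x) fun _ => [I, -I]) (x0 : ℝ) :
    ClZ6 (ZI k x (4 / 3 * (1 - ep)) z) par6 x0 (2 * (4 / 3 * (1 - ep))) (2 * (4 / 3 * (1 - ep)))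
      (ep / 4) (-Fil.xn m) := by
  have hl := Bd.l_pos
  have hz' := abs_le.1 hz
  exact clZ6_Q (c := PBU.PLX.ccS6 k) (g0 := g0I k x) (ex := fun _ => [I, -I]) (z := z) par6_good
    Pool.Agent.PLX.hI6_par6 (by norm_num [par6]) hep hep1
    (by linarith : (0 : ℝ) < 4 / 3 * (1 - ep)) (by linarith) (Rws_re hx) (fun _ w hw => re_pm w hw)
    (gF6_g0I k hx) hphi (mul_pos two_pos NUO.cos_l_pos) (PBU.PLX.norm_ccS6 k)
    (by linarith [hz'.1]) (by linarith [hz'.2]) x0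

/-- **the data of the transfer at one index**, any straight lines of the first Ward identity -/
theorem trN_IP (hC : ClsB6) {P0 : NUO.Par} (hP : NURow.ParP P0) {ep : ℝ} (hep : 0 < ep)
    (hep1 : ep ≤ 1 / 100) {η η' : Crs} (hcr : CrsB ep η η') (k : ℕ) {m : ℕ} {x : Fin m → ℂ}
    (hx : ∀ i, (x i).re = 0) {z : ℂ} (hz : |z.re| ≤ l / 2)
    (hphi : PhI6 (N := Nq m) (4 / 3 * (1 - ep)) (rwq x) fun _ => [I, -I])
    (hfin : ∀ n ≤ 2 * m, FA6 (ZI k x (4 / 3 * (1 - ep)) z) par6 n (n + dN (2 * m)) η η'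
      (fun _ _ _ _ _ => 1) < ∞) :
    PBRep.PLX.TrN6 (ZI k x (4 / 3 * (1 - ep)) z) (PBI.PLX.fl P0) par6 (3 / 5 * l)
      (2 * (4 / 3 * (1 - ep))) (2 * (4 / 3 * (1 - ep))) (ep / 4) (2 * m) (fun _ => η) fun _ => η' := by
  have hl := Bd.l_pos
  have hS : StP (ep / 4) par6 := par6_good.stP (by positivity) (by linarith) (by
    show 7 / 8 + ep / 4 < 1
    linarith)
  have hN : dN (2 * m) = Fil.xn m := PBF.PLX.dN_two m
  have hcr' : ∀ r (O : Fin r → Xo), CrvR6 (ep / 4) (η r O) (η' r O) :=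
    fun r O => crvR6_of (hcr.cur r O)
  refine ⟨fun n _ => ?_, ?_, hfin⟩
  · refine insQ6_fl hP par6_good (by norm_num [par6]) (by norm_num [par6])
      (by norm_num [par6]) hS hcr.mc (fun r _ O => hcr' r O) (by linarith)
      (by push_cast; ring) fun Z hZ => ?_
    exact hC Z _ _ _ _ n (n + dN (2 * m)) _ _ (by linarith) hS (by push_cast; ring)
      (fun r _ O => hcr' r O) hZ
  · rw [hN]
    exact clZ_I hep hep1 k hx hz hphi _

/-- **the data of the transfer at one index**, the landed lines -/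
theorem trN_I (hC : ClsB6) {ep : ℝ} (hep : 0 < ep) (hep1 : ep ≤ 1 / 100) {η η' : Crs}
    (hcr : CrsB ep η η') (k : ℕ) {m : ℕ} {x : Fin m → ℂ} (hx : ∀ i, (x i).re = 0) {z : ℂ}
    (hz : |z.re| ≤ l / 2) (hphi : PhI6 (N := Nq m) (4 / 3 * (1 - ep)) (rwq x) fun _ => [I, -I])
    (hfin : ∀ n ≤ 2 * m, FA6 (ZI k x (4 / 3 * (1 - ep)) z) par6 n (n + dN (2 * m)) η η'
      (fun _ _ _ _ _ => 1) < ∞) :
    PBRep.PLX.TrN6 (ZI k x (4 / 3 * (1 - ep)) z) (PBI.PLX.fl (pL k)) par6 (3 / 5 * l)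
      (2 * (4 / 3 * (1 - ep))) (2 * (4 / 3 * (1 - ep))) (ep / 4) (2 * m) (fun _ => η) fun _ => η' :=
  trN_IP hC (PBRep.PLX.parP_par0 k) hep hep1 hcr k hx hz hphi hfin

/-- the masses are finite when their sum times `|Pf|` is -/
theorem fin_of {Z : Bool → Option O3 → ℂ → ℂ} {P : Par6} {N : ℕ} {η η' : Crs} {p : ℂ} (hp : p ≠ 0)
    (h : ENNReal.ofReal ‖p‖ * ∑ n ∈ range (N + 1), FE6 Z P n (n + dN N) η η' (fun _ _ _ _ _ => 1) < ∞) :
    ∀ n ≤ N, FA6 Z P n (n + dN N) η η' (fun _ _ _ _ _ => 1) < ∞ := by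
  intro n hn
  have h1 : ENNReal.ofReal ‖p‖ * FE6 Z P n (n + dN N) η η' (fun _ _ _ _ _ => 1) < ∞ :=
    lt_of_le_of_lt (mul_le_mul_right (Finset.single_le_sum (f := fun n =>
      FE6 Z P n (n + dN N) η η' (fun _ _ _ _ _ => 1)) (fun _ _ => zero_le)
      (Finset.mem_range.2 (Nat.lt_succ_of_le hn))) _) h
  have h2 : ENNReal.ofReal ‖p‖ ≠ 0 := by
    rw [Ne, ENNReal.ofReal_eq_zero, not_le]
    exact norm_pos_iff.2 hp
  have h3 : FE6 Z P n (n + dN N) η η' (fun _ _ _ _ _ => 1) ≠ ∞ := by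
    intro h
    rw [h, ENNReal.mul_top h2] at h1
    exact lt_irrefl _ h1
  rw [FA_eq_FE6]
  simp only [enorm_one]
  exact lt_top_iff_ne_top.2 h3

end PLT.RI

end
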