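import Pool.Agent.PLT.HDI
import Pool.Agent.PLT.FibI

/-!
# The family of the first Ward identity at the base parameter: the class functions `ZI`

* **`ZRm_ZI`**: `ZRm (cRm m) β x i0 z η0 v (T1L m) X η0 = ZI m x β z`, any velocities, any field, any row;
* **`hD_I6`**: `hD_U` with the value of the total insertion over `ZI m x β z`.
-/

set_option autoImplicit false
set_option linter.unusedSectionVars false

noncomputable section

open MeasureTheory Filter Topology Finset Complex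
open scoped Classical

namespace PLT

open NUP1 hiding Kd
open NUP1S NUP1.Bd NURow PB PBI PBI.PLX PBForce PBQ1
open PBZF (Lz)
open PBU.PLX (T1L)
open Pool.Agent.PLX (fQ)
open PLX (Fil)

attribute [local instance] NUSea.seaP

variable [Fil] {m : ℕ}

/-- **at the base parameter** -/
theorem ZRm_ZI (β : ℝ) (x : Fin m → ℂ) (i0 : Fin m) (z : ℂ) (η0 : ℝ) (v : Bool → Fin 2 → ℂ)
    (X : ℂ → ℂ) : ZRm (cRm m) β x i0 z η0 v (T1L m) X η0 = FI.ZI m x β z := by
  rw [ZRm_at]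
  rfl

/-- **the first Ward identity at one index**, value of the total insertion over `ZI` -/
theorem hD_I6 {x : Fin m → ℂ} {i0 : Fin m} {η0 β : ℝ} {z0 : ℂ} {P : NUO.Par}
    (v : Bool → Fin 2 → ℂ) (hP : NUGC.PLX.ParC P) (hP' : NURow.ParP P) (hb : 0 < β) (hb' : β ≤ 4 / 3)
    (hz : |z0.re| ≤ NUMF.l / 2) (hx : Rws0 x) (hi : x i0 = I * η0) {main : ℂ} {δa δc : ℝ}
    (ha : ‖(m : ℂ) * F0TI (FI.ZI m x β z0) P x i0 z0 - main‖ ≤ δa)
    (hc : ‖cutI (FI.ZI m x β z0) (ZdRm (cRm m) β x i0 z0 η0 v (T1L m) (xiR x i0) η0)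
      (ZpRm (cRm m) β x i0 z0 η0 v (T1L m) (xiR x i0)) P x i0 z0‖ ≤ δc) :
    ∃ D' : ℂ, HasDerivAt (fun η : ℝ => fQ Fil.q (Function.update x i0 (I * η)) z0) D' η0 ∧
      ‖(m : ℂ) * D' - main‖ ≤ δa + m * δc := by
  have hl := Bd.l_pos
  have e : NUMF.l = NUP1.l := rfl
  rw [e] at hz
  have h0 := abs_le.1 hz
  refine hD_U (b := β) (v := v) (T1 := T1L m) hP hP' hb hb'
    ⟨by linarith [h0.1, h0.2], by linarith [h0.1, h0.2]⟩ (by rw [e]; exact hz) hx hi ?_ ?_
  · rw [ZRm_ZI]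
    exact ha
  · rw [ZRm_ZI]
    exact hc

end PLT

end
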