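import Pool.Agent.PLT.ZcOkXI
import Pool.Agent.PLT.FibI
import Pool.Agent.PLX.PB.ZcCa

/-!
# The cut term with legs at arbitrary rows on the imaginary axis

Rows `x : Fin m → ℂ` (`Rws0 x`), the row `i0` moves with velocity `I`, legs at `z`.

* `zI_eq`: the class functions `FI.ZI` are `XXF6`;
* **`cutZI_L`**, **`zcOkI_L`**: `CutZ6`, `ZcOk6` of the dislocated function from `CutHI`;
* `MTI_cut`: the moved cut of `T` against the clouds of the rows, `MTI_dec`: its decay;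
* **`cut_dataI`**: all data of the cut term, `T1 ≥ (3/8) log m + tau0 2 q`; **`cut_dataZ`**: over `FI.ZI`, `T1 = T1L m`.
-/

set_option autoImplicit false
set_option linter.unusedVariables false
set_option linter.unusedSectionVars false

noncomputable section

open Complex Set

namespace PLT.Fr

open NUP1 NURow PBFar NUO PB.K11
open NUGC NUGC.PLX
open PBForce (xiR xiP xiM Rws0)
open PHK (om omA pP phO gO Par6 GoodP6 CutZ6 obU6 obX6 par6 par6_good tau0)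
open PBX (ph gP Rws Lg Lg_meas Lg_diff)
open PBC.PLX (FlX6 XXF6)
open PBI.PLX (ZcOk6)
open PBQ1 (vv)
open _root_.PLX (Fil)
open _root_.Pool.Agent.PLX (rwq RRU cond_eq)

variable [Fil]

variable {m : ℕ} {x : Fin m → ℂ} {i0 : Fin m} {b : ℝ} {z : ℂ} {T1 : ℝ} {X : ℂ → ℂ}

theorem zI_eq (k : ℕ) (x : Fin m → ℂ) (b : ℝ) (z : ℂ) :
    FI.ZI k x b z = XXF6 (PBU.PLX.ccS6 k) b (rwq x) (PBU.PLX.T1L k) (fun _ => Lg z z)
      (fun _ w => Lg z z w * Lg z z (w - l)) := rfl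

theorem obU6_Lg (T1 : ℝ) (x : Fin m → ℂ) (b : ℝ) (z : ℂ) :
    obU6 (2 * Real.cos l) b (rwq x) (fun _ => [I, -I])
      (fun a => ph (4 / 3) (rwq x a) (gO T1 [] (rwq x a))) (fun _ u => ‖Lg z z u‖) =
    obX6 (2 * Real.cos l) b x (fun _ => [I, -I]) (fun a => phO T1 (List.ofFn (rwq x a) ++ []))
      fun _ u => PBX.PLX.thZ z u := by
  rw [PHK.obU6_rwq]
  have e : (fun a => ph (4 / 3) (rwq x a) (gO T1 [] (rwq x a))) =
      fun a => phO T1 (List.ofFn (rwq x a) ++ []) := funext fun a => PHK.ph_gO_fun _ _ _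
  rw [e]
  simp only [PBX.PLX.norm_Lg]

theorem rws_ax (hx : Rws0 x) : Rws x := fun i => by
  have hl := Bd.l_pos
  rw [hx.re i, abs_zero]
  positivity

variable {ep C0 c1 : ℝ} {M : Bool → ℝ → ℝ} {cc : Bool → ℂ} {P : Par6}

/-- **the cut term relative to the class functions** -/
theorem cutZI_L (hep : 0 < ep) (hep1 : ep ≤ 1 / 100) (hx : Rws0 x) (hF : FlX6 m C0 X (xeI x i0))
    (hCH : CutHI (4 / 3 * (1 - ep)) (rwq x) (rwq (vv i0)) (xeI x i0) T1 X c1 M (ep / 4))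
    (z1 : -(9 / 10 * l) ≤ z.re) (z2 : z.re < 37 / 10 * l)
    (hcc : ∀ a, ‖cc a‖ = 2 * Real.cos l) {x0 : ℝ} (hx0 : 51 / 100 * l ≤ x0)
    (hx0' : x0 ≤ 19 / 20 * l) (hP : GoodP6 P) (hj2 : P.j2 ≤ 8 / 9) :
    CutZ6 (XXF6 cc (4 / 3 * (1 - ep)) (rwq x) T1 (fun _ => Lg z z)
        (fun _ w => Lg z z w * Lg z z (w - l)))
      (ZcLI cc x i0 (4 / 3 * (1 - ep)) z T1 X)
      (obX6 (2 * Real.cos l) (4 / 3 * (1 - ep)) x (fun _ => [I, -I])
        (fun a => phO T1 (List.ofFn (rwq x a) ++ [])) fun _ u => PBX.PLX.thZ z u)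
      P ep (2 * (4 / 3 * (1 - ep))) x0 (-Fil.xn m) (Set.range fun i => (x i).im) c1 M := by
  have hl := Bd.l_pos
  have key := cutZI_X (N := fun a => cond a m (Fil.q * m)) (c := cc)
    (y := rwq x) (v := rwq (vv i0)) (s1 := fun _ => Lg z z)
    (s2 := fun _ w => Lg z z w * Lg z z (w - l)) (E := ∅) (q := 0) hx0 hx0' hP hj2 hep hep1
    (by linarith : 0 < 4 / 3 * (1 - ep)) (by linarith) (PBC.hyp_ep hep hep1) le_rfl
    (fun a => Pool.Agent.PLX.Rws_rwq (rws_ax hx) a) hcc hF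
    (fun _ => Lg_meas z z) (fun _ => (Lg_meas z z).mul ((Lg_meas z z).comp
      (measurable_id.sub_const _)))
    (fun a => PHK.Lg_SpecAt6 hx0 a z1 z2) (fun _ => PHK.Lg_SpecS6 z) (by simp) hCH
  rw [PBX.PLX.iUnion_range_rwq, Set.empty_union, obU6_Lg] at key
  have e : (0 : ℤ) + ((cond true m (Fil.q * m) : ℕ) : ℤ) -
      ((cond false m (Fil.q * m) : ℕ) : ℤ) = -Fil.xn m := by
    show (0 : ℤ) + (m : ℤ) - ((Fil.q * m : ℕ) : ℤ) = -Fil.xn m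
    rw [← Fil.add_xn]
    push_cast
    ring
  rw [e] at key
  exact key

/-- **the hypotheses of the cut estimate** -/
theorem zcOkI_L (hep : 0 < ep) (hep1 : ep ≤ 1 / 100) (hx : Rws0 x) (hF : FlX6 m C0 X (xeI x i0))
    (hCH : CutHI (4 / 3 * (1 - ep)) (rwq x) (rwq (vv i0)) (xeI x i0) T1 X c1 M (ep / 4))
    {D0 κ : ℝ} (hM : ∀ a t, M a t ≤ D0 * Real.exp (-(κ * |t|)))
    (z1 : -(9 / 10 * l) ≤ z.re) (z2 : z.re < 31 / 10 * l) (hP : GoodP6 P) (hj : P.jL ≤ 9 / 4) :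
    ZcOk6 (XXF6 cc (4 / 3 * (1 - ep)) (rwq x) T1 (fun _ => Lg z z)
        (fun _ w => Lg z z w * Lg z z (w - l)))
      (ZcLI cc x i0 (4 / 3 * (1 - ep)) z T1 X) P κ (ep / 4) c1 (-(Fil.xn m : ℤ)) := by
  have hl := Bd.l_pos
  have dL : ∀ u : ℂ, -(5 / 2 * l) < u.re → u.re < 11 / 10 * l → DifferentiableAt ℂ (Lg z z) u := by
    intro u u1 u2
    refine Lg_diff (NUGC.sin_pos_ne ?_ ?_)
    · linarith
    · linarith
  have hth : ∀ u : ℂ, -(5 / 2 * l) ≤ u.re → u.re ≤ l → ‖Lg z z u‖ ≤ PBO.PLX.cZ := by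
    intro u u1 u2
    rw [PBX.PLX.norm_Lg]
    exact PBO.PLX.leg_up z1 z2.le u1 u2
  refine zcOk_I (c := cc) hP hj (by linarith) (by linarith) (PBC.hyp_ep hep hep1) le_rfl hx hF
    (fun _ => Lg_meas z z)
    (fun _ => (Lg_meas z z).mul ((Lg_meas z z).comp (measurable_id.sub_const _)))
    (fun a u u1 u2 => dL u (by linarith) (by nlinarith)) (fun a u u1 u2 => dL u (by linarith)
      (by linarith)) (fun a u u1 u2 => ?_) (S2 := PBO.PLX.cZ * PBO.PLX.cZ) (fun a t => ?_) hM hCH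
  · refine (dL u (by linarith) (by linarith)).mul ?_
    refine DifferentiableAt.comp (g := Lg z z) u (dL (u - l) ?_ ?_)
      (differentiableAt_id.sub_const _)
    · rw [sub_re, ofReal_re]
      linarith
    · rw [sub_re, ofReal_re]
      linarith
  · have r1 : (posT t).re = -(1 / 2 * l) := posT_re t
    have r2 : (posT t - l).re = -(3 / 2 * l) := by
      rw [sub_re, r1, ofReal_re]
      ring
    show ‖Lg z z (posT t) * Lg z z (posT t - l)‖ ≤ _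
    rw [norm_mul]
    exact mul_le_mul (hth _ (by rw [r1]; linarith) (by rw [r1]; linarith))
      (hth _ (by rw [r2]; linarith) (by rw [r2]; linarith)) (norm_nonneg _)
      PBO.PLX.cZ_pos.le

/-! ### the moved cut of `T` -/

theorem eMy_le_one {ι : Type*} [Fintype ι] (y : ι → ℂ) (t : ℝ) : eMy y t ≤ 1 := by
  unfold eMy
  rw [Real.exp_le_one_iff, neg_nonpos]
  exact Finset.sum_nonneg fun i _ => PBC.Ag_half_nn _

/-- **the moved cut of `T` decays** -/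
theorem MTI_dec {N : Bool → ℕ} {K : ℝ} (hK : 0 ≤ K) {b : ℝ} (hb : b ≤ 4 / 3) (y : ∀ a, Fin (N a) → ℂ)
    (a : Bool) (t : ℝ) : MTI K b y a t ≤
      K * ((N a : ℝ) ^ (-(9 / 4 * b)) * N a) * Real.exp (-(2 * b * |t|)) := by
  have h1 := eMy_le_one (y a) t
  have h0 := (eMy_pos (y a) t).le
  have h2 : 0 ≤ (N a : ℝ) ^ (-(9 / 4 * b)) := Real.rpow_nonneg (Nat.cast_nonneg _) _
  have h3 : 0 ≤ min 1 ((N a : ℝ) * Real.exp (-(8 / 3) * |t|)) := le_min zero_le_one (by positivity)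
  have h4 : min 1 ((N a : ℝ) * Real.exp (-(8 / 3) * |t|)) ≤ N a * Real.exp (-(2 * b * |t|)) := by
    refine (min_le_right _ _).trans (mul_le_mul_of_nonneg_left (Real.exp_le_exp.2 ?_)
      (Nat.cast_nonneg _))
    have := abs_nonneg t
    nlinarith
  unfold MTI
  calc _ ≤ K * ((N a : ℝ) ^ (-(9 / 4 * b)) * min 1 ((N a : ℝ) * Real.exp (-(8 / 3) * |t|))) * 1 :=
        mul_le_mul_of_nonneg_left h1 (by positivity)
    _ ≤ K * ((N a : ℝ) ^ (-(9 / 4 * b)) * (N a * Real.exp (-(2 * b * |t|)))) * 1 := by gcongr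
    _ = _ := by ring

/-- **the moved cut of `T` against the clouds of the rows** -/
theorem MTI_cut {K : ℝ} (hK : 0 < K) {b : ℝ} (hb : b ≤ 4 / 3)
    (hb1 : 10 / 9 ≤ b) : ∃ N : ℕ, 1 ≤ N ∧ ∀ m : ℕ, N ≤ m → ∀ E : ℝ, 0 ≤ E →
      E ≤ ((m : ℝ) + 1) ^ 2 → ∀ (x : Fin m → ℂ) (a : Bool) (t : ℝ),
      Real.exp (∑ j, NUMF.Ag (1 / 2) (t - (rwq x a j).im)) * (E * MTI K b (rwq x) a t) ≤
        1 * NUO.cut m b t := by
  have hq1 : (1 : ℝ) ≤ (Fil.q : ℕ) := by exact_mod_cast Fil.one_le_q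
  obtain ⟨N, hN, H⟩ := PBC.small_k (K := K * (Fil.q : ℕ)) (by positivity)
    (p := -(9 / 4 * b)) (by linarith)
  refine ⟨N, hN, fun m hm E hE0 hE x a t => ?_⟩
  have hm1 : 1 ≤ m := hN.trans hm
  have hmp : (0 : ℝ) < m := by exact_mod_cast hm1
  have h3 := H m hm
  have hc0 := NUO.cut_nonneg m b t
  obtain ⟨n, hn⟩ : ∃ n : ℕ, n = cond a m (Fil.q * m) := ⟨_, rfl⟩
  have hnm : m ≤ n := by
    rw [hn, cond_eq]
    exact Nat.le_mul_of_pos_left m (Fil.one_le_n a)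
  have hnq : n ≤ Fil.q * m := by
    rw [hn, cond_eq]
    exact Nat.mul_le_mul_right m (Fil.n_le a)
  have hnm' : (m : ℝ) ≤ (n : ℝ) := by exact_mod_cast hnm
  have hnq' : (n : ℝ) ≤ (Fil.q : ℕ) * (m : ℝ) := by exact_mod_cast hnq
  have hpow : (n : ℝ) ^ (-(9 / 4 * b)) ≤ (m : ℝ) ^ (-(9 / 4 * b)) :=
    Real.rpow_le_rpow_of_nonpos hmp hnm' (by linarith)
  have hp0 : 0 ≤ (n : ℝ) ^ (-(9 / 4 * b)) := Real.rpow_nonneg (Nat.cast_nonneg _) _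
  have hcut : min 1 ((n : ℝ) * Real.exp (-(8 / 3) * |t|)) ≤ (Fil.q : ℕ) * NUO.cut m b t := by
    unfold NUO.cut
    have e0 := Real.exp_pos (-(2 * b) * |t|)
    have e1 : Real.exp (-(8 / 3) * |t|) ≤ Real.exp (-(2 * b) * |t|) := by
      refine Real.exp_le_exp.2 ?_
      have := abs_nonneg t
      nlinarith
    rcases le_total (1 : ℝ) ((m : ℝ) * Real.exp (-(2 * b) * |t|)) with h | h
    · rw [min_eq_left h, mul_one]
      exact (min_le_left _ _).trans hq1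
    · rw [min_eq_right h, ← mul_assoc]
      exact (min_le_right _ _).trans (mul_le_mul hnq' e1 (Real.exp_pos _).le (by positivity))
  have hmin0 : 0 ≤ min 1 ((n : ℝ) * Real.exp (-(8 / 3) * |t|)) := le_min zero_le_one (by positivity)
  have e : Real.exp (∑ j, NUMF.Ag (1 / 2) (t - (rwq x a j).im)) * (E * MTI K b (rwq x) a t) =
      E * (K * ((n : ℝ) ^ (-(9 / 4 * b)) * min 1 ((n : ℝ) * Real.exp (-(8 / 3) * |t|)))) := by
    unfold MTI eMy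
    have e2 : Real.exp (∑ j, NUMF.Ag (1 / 2) (t - (rwq x a j).im)) *
        Real.exp (-∑ j, NUMF.Ag (1 / 2) (t - (rwq x a j).im)) = 1 := by
      rw [← Real.exp_add, add_neg_cancel, Real.exp_zero]
    rw [hn]
    calc _ = E * (K * (((cond a m (Fil.q * m) : ℕ) : ℝ) ^ (-(9 / 4 * b)) *
            min 1 (((cond a m (Fil.q * m) : ℕ) : ℝ) * Real.exp (-(8 / 3) * |t|)))) *
          (Real.exp (∑ j, NUMF.Ag (1 / 2) (t - (rwq x a j).im)) *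
            Real.exp (-∑ j, NUMF.Ag (1 / 2) (t - (rwq x a j).im))) := by ring
      _ = _ := by rw [e2, mul_one]
  rw [e]
  calc _ ≤ ((m : ℝ) + 1) ^ 2 * (K * ((m : ℝ) ^ (-(9 / 4 * b)) * ((Fil.q : ℕ) * NUO.cut m b t))) := by
        gcongr
    _ = ((m : ℝ) + 1) ^ 2 * (K * (Fil.q : ℕ) * (m : ℝ) ^ (-(9 / 4 * b))) * NUO.cut m b t := by ring
    _ ≤ 1 * NUO.cut m b t := mul_le_mul_of_nonneg_right h3 hc0

/-- **all data of the cut term**: `Zc` relative to `Z`, and the moved cut of `T` against the clouds of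
the rows -/
theorem cut_dataI {ep : ℝ} (hep : 0 < ep) (hep1 : ep ≤ 1 / 100) : ∃ Cc K : ℝ, 0 < Cc ∧ 0 < K ∧
    ∃ m0 : ℕ, 1 ≤ m0 ∧ ∀ m : ℕ, m0 ≤ m → ∀ (x : Fin m → ℂ) (i0 : Fin m), Rws0 x →
    ∀ z : ℂ, -(9 / 10 * l) ≤ z.re → z.re < 31 / 10 * l →
    ∀ T1 : ℝ, 3 / 8 * Real.log m + tau0 2 (Fil.q : ℕ) ≤ T1 →
    (∀ cc : Bool → ℂ, (∀ a, ‖cc a‖ = 2 * Real.cos l) →
      (∀ x0 : ℝ, 51 / 100 * l ≤ x0 → x0 ≤ 19 / 20 * l →
        CutZ6 (XXF6 cc (4 / 3 * (1 - ep)) (rwq x) T1 (fun _ => Lg z z)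
            (fun _ w => Lg z z w * Lg z z (w - l)))
          (ZcLI cc x i0 (4 / 3 * (1 - ep)) z T1 (xiR x i0))
          (obX6 (2 * Real.cos l) (4 / 3 * (1 - ep)) x (fun _ => [I, -I])
            (fun a => phO T1 (List.ofFn (rwq x a) ++ [])) fun _ u => PBX.PLX.thZ z u)
          par6 ep (2 * (4 / 3 * (1 - ep))) x0 (-Fil.xn m) (Set.range fun i => (x i).im)
          (Cc / (m : ℝ) ^ 3) (MTI K (4 / 3 * (1 - ep)) (rwq x))) ∧
      ZcOk6 (XXF6 cc (4 / 3 * (1 - ep)) (rwq x) T1 (fun _ => Lg z z)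
          (fun _ w => Lg z z w * Lg z z (w - l)))
        (ZcLI cc x i0 (4 / 3 * (1 - ep)) z T1 (xiR x i0)) par6
        (2 * (4 / 3 * (1 - ep))) (ep / 4) (Cc / (m : ℝ) ^ 3) (-(Fil.xn m : ℤ))) ∧
    ∀ E : ℝ, 0 ≤ E → E ≤ ((m : ℝ) + 1) ^ 2 → ∀ (a : Bool) (t : ℝ),
      Real.exp (∑ j, NUMF.Ag (1 / 2) (t - (rwq x a j).im)) *
        (E * MTI K (4 / 3 * (1 - ep)) (rwq x) a t) ≤
        1 * NUO.cut m (4 / 3 * (1 - ep)) t := by
  have hl := Bd.l_pos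
  obtain ⟨C0, hC0, HX⟩ := flX_xiR
  obtain ⟨Cc, K, N0, hCc, hK, hN0, HC⟩ := cutHI hep hep1 hC0
  set b := 4 / 3 * (1 - ep) with hb
  have hb1 : b ≤ 4 / 3 := by rw [hb]; linarith
  have hb2 : 10 / 9 ≤ b := by rw [hb]; linarith
  obtain ⟨N2, hN2, h2⟩ := MTI_cut hK hb1 hb2
  refine ⟨Cc, K, hCc, hK, max N0 N2, hN2.trans (le_max_right _ _),
    fun m hm x i0 hx z z1 z2 T1 hT1 => ?_⟩
  simp only [max_le_iff] at hm
  obtain ⟨k1, k3⟩ := hm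
  have hF := HX m x i0 hx
  have hCH := HC m k1 x i0 hx _ hF T1 hT1
  obtain ⟨D, hD⟩ : ∃ D : Bool → ℝ, D = fun a =>
    K * (((cond a m (Fil.q * m) : ℕ) : ℝ) ^ (-(9 / 4 * b)) * (cond a m (Fil.q * m) : ℕ)) := ⟨_, rfl⟩
  have hD0 : ∀ a, 0 ≤ D a := fun a => by
    rw [hD]
    exact mul_nonneg hK.le (mul_nonneg (Real.rpow_nonneg (Nat.cast_nonneg _) _) (Nat.cast_nonneg _))
  refine ⟨fun cc hcc => ⟨fun x0 hx0 hx0' => ?_, ?_⟩, fun E hE hE1 a t => h2 m k3 E hE hE1 x a t⟩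
  · exact cutZI_L hep hep1 hx hF hCH z1 (by linarith) hcc hx0 hx0' par6_good
      (by norm_num [par6])
  · refine zcOkI_L (D0 := D true + D false) hep hep1 hx hF hCH (fun a t => ?_) z1 z2 par6_good
      (by norm_num [par6])
    have h3 := MTI_dec hK.le hb1 (rwq x) a t
    have h4 : D a ≤ D true + D false := by
      cases a
      · linarith [hD0 true]
      · linarith [hD0 false]
    have h5 : K * (((cond a m (Fil.q * m) : ℕ) : ℝ) ^ (-(9 / 4 * b)) * (cond a m (Fil.q * m) : ℕ)) =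
        D a := by rw [hD]
    rw [h5] at h3
    exact h3.trans (mul_le_mul_of_nonneg_right h4 (Real.exp_pos _).le)

theorem T1L_ge (m : ℕ) : 3 / 8 * Real.log m + tau0 2 (Fil.q : ℕ) ≤ PBU.PLX.T1L m := by
  unfold PBU.PLX.T1L NUO.Tb PBU.PLX.tauF tau0
  have h1 := PHK.cL_ge (h0 := 2) (Nat.cast_nonneg Fil.q : (0 : ℝ) ≤ _)
  have h2 : PHK.cL 2 (Fil.q : ℕ) ≤ PHK.cL 2 (((Fil.q : ℕ) : ℝ) + (2 : ℕ)) := by
    unfold PHK.cL
    have h3 := Real.exp_pos (8 / 3 * (2 : ℝ))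
    have h4 : (8 : ℝ) * Real.exp (8 / 3 * 2) * (Fil.q : ℕ) ≤
        8 * Real.exp (8 / 3 * 2) * (((Fil.q : ℕ) : ℝ) + (2 : ℕ)) :=
      mul_le_mul_of_nonneg_left (by push_cast; linarith) (by positivity)
    linarith
  have h5 : Real.log (5 * PHK.cL 2 (Fil.q : ℕ)) ≤
      Real.log (5 * PHK.cL 2 (((Fil.q : ℕ) : ℝ) + (2 : ℕ))) :=
    Real.log_le_log (by linarith) (by linarith)
  exact add_le_add le_rfl (mul_le_mul_of_nonneg_left h5 (by norm_num))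

/-- **the same for the class functions `FI.ZI`**, `T1 = T1L m`, constants `ccS6 m` -/
theorem cut_dataZ {ep : ℝ} (hep : 0 < ep) (hep1 : ep ≤ 1 / 100) : ∃ Cc K : ℝ, 0 < Cc ∧ 0 < K ∧
    ∃ m0 : ℕ, 1 ≤ m0 ∧ ∀ m : ℕ, m0 ≤ m → ∀ (x : Fin m → ℂ) (i0 : Fin m), Rws0 x →
    ∀ z : ℂ, -(9 / 10 * l) ≤ z.re → z.re < 31 / 10 * l →
      (∀ x0 : ℝ, 51 / 100 * l ≤ x0 → x0 ≤ 19 / 20 * l →
        CutZ6 (FI.ZI m x (4 / 3 * (1 - ep)) z)
          (ZcLI (PBU.PLX.ccS6 m) x i0 (4 / 3 * (1 - ep)) z (PBU.PLX.T1L m) (xiR x i0))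
          (obX6 (2 * Real.cos l) (4 / 3 * (1 - ep)) x (fun _ => [I, -I])
            (fun a => phO (PBU.PLX.T1L m) (List.ofFn (rwq x a) ++ [])) fun _ u => PBX.PLX.thZ z u)
          par6 ep (2 * (4 / 3 * (1 - ep))) x0 (-Fil.xn m) (Set.range fun i => (x i).im)
          (Cc / (m : ℝ) ^ 3) (MTI K (4 / 3 * (1 - ep)) (rwq x))) ∧
      ZcOk6 (FI.ZI m x (4 / 3 * (1 - ep)) z)
        (ZcLI (PBU.PLX.ccS6 m) x i0 (4 / 3 * (1 - ep)) z (PBU.PLX.T1L m) (xiR x i0)) par6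
        (2 * (4 / 3 * (1 - ep))) (ep / 4) (Cc / (m : ℝ) ^ 3) (-(Fil.xn m : ℤ)) ∧
      ∀ E : ℝ, 0 ≤ E → E ≤ ((m : ℝ) + 1) ^ 2 → ∀ (a : Bool) (t : ℝ),
        Real.exp (∑ j, NUMF.Ag (1 / 2) (t - (rwq x a j).im)) *
          (E * MTI K (4 / 3 * (1 - ep)) (rwq x) a t) ≤
          1 * NUO.cut m (4 / 3 * (1 - ep)) t := by
  obtain ⟨Cc, K, hCc, hK, m0, hm0, H⟩ := cut_dataI hep hep1
  refine ⟨Cc, K, hCc, hK, m0, hm0, fun m hm x i0 hx z z1 z2 => ?_⟩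
  obtain ⟨h1, h2⟩ := H m hm x i0 hx z z1 z2 (PBU.PLX.T1L m) (T1L_ge m)
  obtain ⟨h3, h4⟩ := h1 (PBU.PLX.ccS6 m) (PBU.PLX.norm_ccS6 m)
  exact ⟨h3, h4, h2⟩

end PLT.Fr

end
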