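import Pool.Agent.PLT.CutHI
import Pool.Agent.PHK.ZcB6

/-!
# The cut term at arbitrary rows on the imaginary axis: definitions

* `ZcXI`, **`ZcFI`** : the cut term in product form for any rows `y a` with velocities `v a`;
* `ZcLI`: rows `rwq x`, velocities `rwq (vv i0)`, legs at `z`.
-/

set_option autoImplicit false
set_option linter.unusedVariables false
set_option linter.unusedSectionVars false

noncomputable section

open Complex Set

namespace PLT.Fr

open NUP1 NURow PBFar NUO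
open NUP1S (O3)
open PBX (Lg)
open PBQ1 (vv)
open _root_.PLX (Fil)
open _root_.Pool.Agent.PLX (RRU rwq)

section def6
variable {m M : ℕ}

/-- **the cut term in product form** -/
def ZcXI (c : ℂ) (y : Fin m → ℂ) (z : Fin M → ℂ) (v : Fin m → ℂ) (b : ℝ) (ξe : ℝ → ℂ) (T1 : ℝ)
    (X s1 s2 : ℂ → ℂ) : Option O3 → ℂ → ℂ
  | none, u => RRU c y z u * DWI b y v ξe (X u) u * s1 u
  | some .L, u => RRU c y z u * DWI b y v ξe (X (u + 2 * l)) u * s1 u
  | some .S, w => RRU c y z w * RRU c y z (w - l) * DSI y v T1 (X (w + 2 * l)) w * s2 w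
  | some .T, w => RRU c y z w * RRU c y z (w - l) * DTI b y v ξe T1 (X (w + 2 * l)) w * s2 w

end def6

/-- **the cut term of the two species** -/
def ZcFI {N : Bool → ℕ} (c : Bool → ℂ) (y v : ∀ a, Fin (N a) → ℂ) (b : ℝ) (ξe : ℝ → ℂ) (T1 : ℝ)
    (X : ℂ → ℂ) (s1 s2 : Bool → ℂ → ℂ) : Bool → Option O3 → ℂ → ℂ := fun a =>
  ZcXI (c a) (y a) (y !a) (v a) b ξe T1 X (s1 a) (s2 a)

/-- **the cut term with legs at `z`**, rows `x`, the row `i0` moved -/
def ZcLI [Fil] {m : ℕ} (c : Bool → ℂ) (x : Fin m → ℂ) (i0 : Fin m) (b : ℝ) (z : ℂ) (T1 : ℝ)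
    (X : ℂ → ℂ) : Bool → Option O3 → ℂ → ℂ :=
  ZcFI (N := fun a => cond a m (Fil.q * m)) c (rwq x) (rwq (vv i0)) b (xeI x i0) T1 X
    (fun _ => Lg z z) (fun _ w => Lg z z w * Lg z z (w - l))

end PLT.Fr

end
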