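import Pool.Agent.PLT.ZFamC
import Pool.Agent.PLT.ZcDI

/-!
# The cut term of the first Ward identity at arbitrary rows on the imaginary axis (helper25)

Rows `x` with `Re = 0`, the row `i0` moved, velocities of the extra points `vEI b x i0`, field `X`.

* `path_phiE`, `path_phiR`: the cutoffs along the path;
* **`zcutI_eq`**: `Zcut` of the family of 89 is the cut term `ZcLI` in product form, on the inner strips;
* **`zcutI_K`**: the same on the lines of all words, literal names of the Ward identity.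
-/

set_option autoImplicit false
set_option linter.unusedSectionVars false
set_option linter.unusedVariables false

noncomputable section

open Complex MeasureTheory Filter Topology Finset

namespace PLT.Fr

open PLX (Fil)
open NUP1 NUP1.Bd NURow PB PBFar
open NUP1S hiding R0
open PBX (ph gP Lg)
open PBForce (rowB krA r1A Rws0 xiR)
open PBI PBI.PLX
open PBQ1 (vv)
open PBZF (vx vx_at Lz KI hyp75 all_KI)
open PBZF.PLX (FdX RRU_rwq)
open PHK (om omA pP)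
open Pool.Agent.PLX (RRU rwq forall_rwq)

variable {m : ℕ} [Fil]

/-- **the velocities of the extra points**, rows `x`, the row `i0` moved -/
def vEI (b : ℝ) (x : Fin m → ℂ) (i0 : Fin m) (s : Bool) : Fin 2 → ℂ :=
  PBFar.vE b 0 0 (rwq x s) (rwq (vv i0) s) (xeI x i0)

/-! ### the path -/

theorem rwq_mvx (x : Fin m → ℂ) (i0 : Fin m) (η0 : ℝ) (θ : ℂ) (s : Bool)
    (j : Fin (cond s m (Fil.q * m))) :
    rwq (mvx x i0 η0 θ) s j = rwq x s j + (θ - η0) * rwq (vv i0) s j := by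
  cases s <;> rfl

theorem hasDerivAt_row (x : Fin m → ℂ) (i0 : Fin m) (η0 : ℝ) (s : Bool)
    (j : Fin (cond s m (Fil.q * m))) :
    HasDerivAt (fun τ : ℝ => rwq (mvx x i0 η0 ((η0 : ℂ) + τ)) s j) (rwq (vv i0) s j) 0 := by
  have hid : HasDerivAt (fun τ : ℝ => ((τ : ℝ) : ℂ)) 1 0 := by
    simpa using (hasDerivAt_id ((0 : ℝ) : ℂ)).comp_ofReal
  have e : (fun τ : ℝ => rwq (mvx x i0 η0 ((η0 : ℂ) + τ)) s j) =
      fun τ : ℝ => rwq x s j + (τ : ℂ) * rwq (vv i0) s j := by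
    funext τ
    rw [rwq_mvx, add_sub_cancel_left]
  rw [e]
  simpa using (hid.mul_const (rwq (vv i0) s j)).const_add (rwq x s j)

theorem hasDerivAt_ext (η0 : ℝ) (v : Fin 2 → ℂ) (j : Fin 2) :
    HasDerivAt (fun τ : ℝ => vx η0 v ((η0 : ℂ) + τ) j) (v j) 0 := by
  have hid : HasDerivAt (fun τ : ℝ => ((τ : ℝ) : ℂ)) 1 0 := by
    simpa using (hasDerivAt_id ((0 : ℝ) : ℂ)).comp_ofReal
  have key : ∀ c : ℂ, HasDerivAt (fun τ : ℝ => c + (((η0 : ℂ) + τ) - η0) * v j) (v j) 0 := by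
    intro c
    have e : (fun τ : ℝ => c + (((η0 : ℂ) + τ) - η0) * v j) = fun τ : ℝ => c + (τ : ℂ) * v j := by
      funext τ
      rw [add_sub_cancel_left]
    rw [e]
    simpa using (hid.mul_const (v j)).const_add c
  fin_cases j
  · exact key I
  · exact key (-I)

theorem hasDerivAt_pt (u ξ : ℂ) : HasDerivAt (fun τ : ℝ => u + I * ξ * τ) (I * ξ) 0 := by
  have hid : HasDerivAt (fun τ : ℝ => ((τ : ℝ) : ℂ)) 1 0 := by
    simpa using (hasDerivAt_id ((0 : ℝ) : ℂ)).comp_ofReal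
  simpa using (hid.const_mul (I * ξ)).const_add u

theorem den_ax {b : ℝ} (hb1 : 1 ≤ b) (hb' : b ≤ 4 / 3) {u w : ℂ} (hu : |u.re + l / 2| ≤ 7 / 5 * l)
    (hw : w.re = 0) : cos (th b (u - w)) + cos (b * l) ≠ 0 := by
  have hl := Bd.l_pos
  refine den_ne' (hyp75 hb1 hb').wide ?_
  rw [sub_re, hw, sub_zero]
  linarith

theorem prd1_flip {ι : Type*} [Fintype ι] [DecidableEq ι] (b : ℝ) (v w : ι → ℂ) (c u : ℂ) :
    -prd1 b (fun i => c - v i) w u = prd1 b (fun i => v i - c) w u := by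
  unfold PBFar.prd1
  rw [← Finset.sum_neg_distrib]
  exact Finset.sum_congr rfl fun i _ => by ring

theorem rwq_re0 {x : Fin m → ℂ} (hx : ∀ i, (x i).re = 0) (s : Bool) (j : Fin (cond s m (Fil.q * m))) :
    (rwq x s j).re = 0 := forall_rwq (P := fun w : ℂ => w.re = 0) hx s j

theorem wE_re0 (j : Fin 2) : (PBFar.wE j).re = 0 := by
  fin_cases j
  · exact I_re
  · show (-I : ℂ).re = 0
    rw [neg_re, I_re, neg_zero]

/-- **the cutoff of the quanta along the path** -/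
theorem path_phiE {b : ℝ} (hb1 : 1 ≤ b) (hb' : b ≤ 4 / 3) {x : Fin m → ℂ} (hx : ∀ i, (x i).re = 0)
    (i0 : Fin m) (η0 : ℝ) (s : Bool) (v : Fin 2 → ℂ) {u : ℂ} (ξ : ℂ)
    (hu : |u.re + l / 2| ≤ 7 / 5 * l) :
    HasDerivAt (fun τ : ℝ => NUP1.phi b (rl (mvx x i0 η0 ((η0 : ℂ) + τ)) s ++
      [vx η0 v ((η0 : ℂ) + τ) 0, vx η0 v ((η0 : ℂ) + τ) 1]) (u + I * ξ * τ))
      (prd1 b (fun i => Sum.elim (rwq (vv i0) s) v i - I * ξ) (Sum.elim (rwq x s) wE) u) 0 := by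
  have e : (fun τ : ℝ => NUP1.phi b (rl (mvx x i0 η0 ((η0 : ℂ) + τ)) s ++
      [vx η0 v ((η0 : ℂ) + τ) 0, vx η0 v ((η0 : ℂ) + τ) 1]) (u + I * ξ * τ)) =
      fun τ : ℝ => 1 - prd b (Sum.elim (rwq (mvx x i0 η0 ((η0 : ℂ) + τ)) s)
        (vx η0 v ((η0 : ℂ) + τ))) (u + I * ξ * τ) := by
    funext τ
    rw [← ph_rl, ph_e]
  rw [e]
  have h := hasDerivAt_prd (b := b)
    (w := fun τ : ℝ => Sum.elim (rwq (mvx x i0 η0 ((η0 : ℂ) + τ)) s) (vx η0 v ((η0 : ℂ) + τ)))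
    (v := Sum.elim (rwq (vv i0) s) v) (u := fun τ : ℝ => u + I * ξ * τ) (u' := I * ξ) (τ := 0)
    (by
      rintro (i | i)
      · exact hasDerivAt_row x i0 η0 s i
      · exact hasDerivAt_ext η0 v i) (hasDerivAt_pt u ξ)
    (by
      have e0 : (η0 : ℂ) + ((0 : ℝ) : ℂ) = η0 := by rw [ofReal_zero, add_zero]
      have e1 : u + I * ξ * ((0 : ℝ) : ℂ) = u := by rw [ofReal_zero, mul_zero, add_zero]
      intro i
      rw [e1]
      refine den_ax hb1 hb' hu ?_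
      rcases i with i | i
      · show (rwq (mvx x i0 η0 ((η0 : ℂ) + ((0 : ℝ) : ℂ))) s i).re = 0
        rw [e0, mvx_self]
        exact rwq_re0 hx s i
      · show (vx η0 v ((η0 : ℂ) + ((0 : ℝ) : ℂ)) i).re = 0
        rw [e0, vx_at]
        exact wE_re0 i)
  have h2 := h.const_sub 1
  refine h2.congr_deriv ?_
  have e0 : (η0 : ℂ) + ((0 : ℝ) : ℂ) = η0 := by rw [ofReal_zero, add_zero]
  have e1 : u + I * ξ * ((0 : ℝ) : ℂ) = u := by rw [ofReal_zero, mul_zero, add_zero]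
  rw [prd1_flip, e0, e1, mvx_self, vx_at]

/-- **the cutoff of the rows along the path** -/
theorem path_phiR {x : Fin m → ℂ} (hx : ∀ i, (x i).re = 0) (i0 : Fin m) (η0 : ℝ) (s : Bool) {u : ℂ}
    (ξ : ℂ) (hu : |u.re + l / 2| ≤ 7 / 5 * l) :
    HasDerivAt (fun τ : ℝ => NUP1.phi (4 / 3) (rl (mvx x i0 η0 ((η0 : ℂ) + τ)) s) (u + I * ξ * τ))
      (DRI (rwq x s) (rwq (vv i0) s) ξ u) 0 := by
  have e0 : (η0 : ℂ) + ((0 : ℝ) : ℂ) = η0 := by rw [ofReal_zero, add_zero]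
  have e1 : u + I * ξ * ((0 : ℝ) : ℂ) = u := by rw [ofReal_zero, mul_zero, add_zero]
  have e : (fun τ : ℝ => NUP1.phi (4 / 3) (rl (mvx x i0 η0 ((η0 : ℂ) + τ)) s) (u + I * ξ * τ)) =
      fun τ : ℝ => 1 - prd (4 / 3) (rwq (mvx x i0 η0 ((η0 : ℂ) + τ)) s) (u + I * ξ * τ) := by
    funext τ
    exact phi_ofFn _ _ _
  rw [e]
  have h := hasDerivAt_prd (b := 4 / 3)
    (w := fun τ : ℝ => rwq (mvx x i0 η0 ((η0 : ℂ) + τ)) s)
    (v := rwq (vv i0) s) (u := fun τ : ℝ => u + I * ξ * τ) (u' := I * ξ) (τ := 0)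
    (fun i => hasDerivAt_row x i0 η0 s i) (hasDerivAt_pt u ξ)
    (by
      intro i
      rw [e1]
      refine den_ax (by norm_num) le_rfl hu ?_
      rw [e0, mvx_self]
      exact rwq_re0 hx s i)
  have h2 := h.const_sub 1
  refine h2.congr_deriv ?_
  rw [prd1_flip, e0, e1, mvx_self]
  rfl

/-- the strips of the kinds -/
theorem KI_75 {k : Option O3} {u : ℂ} (hu : u.re ∈ KI k) : |u.re + l / 2| ≤ 7 / 5 * l := by
  have hl := Bd.l_pos
  rw [abs_le]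
  rcases k with _ | (_ | _ | _)
  all_goals
    obtain ⟨h1, h2⟩ := hu
    constructor <;> linarith

theorem KI_75T {u : ℂ} (hu : u.re ∈ KI (some .T)) : |(u - l).re + l / 2| ≤ 7 / 5 * l := by
  have hl := Bd.l_pos
  have e : (u - (l : ℂ)).re = u.re - l := by rw [sub_re, ofReal_re]
  rw [e, abs_le]
  obtain ⟨h1, h2⟩ := hu
  constructor <;> linarith

/-! ### the cut term -/

variable {b : ℝ} {z0 : ℂ} {T1 : ℝ} {X : ℂ → ℂ}

/-- **`Zcut` is `ZcLI`** on the inner strips -/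
theorem zcutI_eq (c : Bool → ℂ) {x : Fin m → ℂ} (hx : ∀ i, (x i).re = 0) (i0 : Fin m) (hb1 : 1 ≤ b)
    (hb' : b ≤ 4 / 3) (hz : Lz z0) (η0 : ℝ) (T1 : ℝ) (hXF : FdX X) {Ξ κr r1 lam : PBI.Kd → ℂ → ℂ}
    (s : Bool) {k : Option O3} {u : ℂ} (hu : u.re ∈ KI k)
    (hX : Ξ (s, none) u = X u) (hX' : ∀ o : O3, Ξ (s, some o) u = X (u + 2 * l))
    (hκ : κr (s, k) u = krA (Fil.b s) (Fil.b (!s)) (ob4 k) x u)
    (hr : r1 (s, k) u = r1A (Fil.b s) (Fil.b (!s)) (ob4 k) x i0 u)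
    (hlam : lam (s, k) u = PBZF.lamK z0 k u) :
    Zcut (ZRm c b x i0 z0 η0 (vEI b x i0) T1 X η0) (ZdRm c b x i0 z0 η0 (vEI b x i0) T1 X η0)
      (ZpRm c b x i0 z0 η0 (vEI b x i0) T1 X) Ξ κr r1 lam s k u =
    ZcLI c x i0 b z0 T1 X s k u := by
  have hb : 0 < b := by linarith
  have hu75 := KI_75 hu
  have e3 := RRU_rwq (c s) x s
  have hW := path_phiE hb1 hb' hx i0 η0 s (vEI b x i0 s) (Ξ (s, k) u) hu75
  have hR := path_phiR hx i0 η0 s (Ξ (s, k) u) hu75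
  have hW' : k = some .T → HasDerivAt (fun τ : ℝ => NUP1.phi b (rl (mvx x i0 η0 ((η0 : ℂ) + τ)) s ++
      [vx η0 (vEI b x i0 s) ((η0 : ℂ) + τ) 0, vx η0 (vEI b x i0 s) ((η0 : ℂ) + τ) 1])
      (u + I * Ξ (s, k) u * τ - l))
      (prd1 b (fun i => Sum.elim (rwq (vv i0) s) (vEI b x i0 s) i - I * Ξ (s, k) u)
        (Sum.elim (rwq x s) wE) (u - l)) 0 := by
    intro hk
    subst hk
    have h := path_phiE hb1 hb' hx i0 η0 s (vEI b x i0 s) (Ξ (s, some .T) u) (KI_75T hu)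
    refine h.congr_of_eventuallyEq (Filter.Eventually.of_forall fun τ => ?_)
    beta_reduce
    rw [add_sub_right_comm]
  have key := zcutC_eq (T1 := T1) c hx hb hb' hz hXF (Ξ := Ξ) (κr := κr) (r1 := r1) (lam := lam) s hu
    (v := vEI b x i0) (i0 := i0) (η0 := η0) (by
      rintro (rfl | rfl)
      · exact hX' .S
      · exact hX' .T) hW hW' (fun _ => hR) hκ hr hlam
  rw [key]
  rcases k with _ | (_ | _ | _)
  · rw [hX]
    show _ = RRU (c s) (rwq x s) (rwq x (!s)) u *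
      DWI b (rwq x s) (rwq (vv i0) s) (xeI x i0) (X u) u * Lg z0 z0 u
    rw [e3]
    rfl
  · rw [hX' .L]
    show _ = RRU (c s) (rwq x s) (rwq x (!s)) u *
      DWI b (rwq x s) (rwq (vv i0) s) (xeI x i0) (X (u + 2 * l)) u * Lg z0 z0 u
    rw [e3]
    rfl
  · rw [hX' .S]
    show _ = RRU (c s) (rwq x s) (rwq x (!s)) u * RRU (c s) (rwq x s) (rwq x (!s)) (u - l) *
      DSI (rwq x s) (rwq (vv i0) s) T1 (X (u + 2 * l)) u * (Lg z0 z0 u * Lg z0 z0 (u - l))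
    rw [e3, e3]
    rfl
  · rw [hX' .T]
    show _ = RRU (c s) (rwq x s) (rwq x (!s)) u * RRU (c s) (rwq x s) (rwq x (!s)) (u - l) *
      DTI b (rwq x s) (rwq (vv i0) s) (xeI x i0) T1 (X (u + 2 * l)) u *
      (Lg z0 z0 u * Lg z0 z0 (u - l))
    have e4 : ∀ w : ℂ, ph b (rwq x s) (gP b [I, -I]) w = NUP1.phi b (rl x s ++ [I, -I]) w := fun w => by
      rw [PBX.ph_gP]
      rfl
    unfold DTI
    rw [e3, e3, e4, e4]
    rfl

/-- **the cut term on the lines of all words, literal names** -/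
theorem zcutI_K (c : Bool → ℂ) {x : Fin m → ℂ} (hx : Rws0 x) (i0 : Fin m) (hb1 : 1 ≤ b)
    (hb' : b ≤ 4 / 3) (hz : Lz z0) (η0 : ℝ) (T1 : ℝ) {α : ℝ} (hα : 3 / 5 * l ≤ α)
    (hα' : α ≤ 9 / 10 * l) {L : PBI.Lns} (hL : LnH L.X L.Y) (n n' : ℕ) :
    AllW α n n' L fun c' y => ∀ i, ∀ t : ℝ,
      Zcut (ZRm c b x i0 z0 η0 (vEI b x i0) T1 (xiR x i0) η0)
        (ZdRm c b x i0 z0 η0 (vEI b x i0) T1 (xiR x i0) η0)
        (ZpRm c b x i0 z0 η0 (vEI b x i0) T1 (xiR x i0))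
        (PBQ1.xiK x i0) (PBQ1.krK2 x) (PBQ1.r1K2 x i0) (PBQ1.lamK z0)
        (c' i).1 (c' i).2 (NUP1.vl (y i) t) =
      ZcLI c x i0 b z0 T1 (xiR x i0) (c' i).1 (c' i).2 (NUP1.vl (y i) t) := by
  intro p p' k k' h1 h2 i t
  have hi := all_KI hα hα' hL n n' k k' i
  rw [show L.all α n n' k k' i = (NUP1.vl (L.all α n n' k k' i) t).re from
    (NUP1.re_vl _ _).symm] at hi
  exact zcutI_eq c hx.re i0 hb1 hb' hz η0 T1 (fdX_xiRm hx i0)
    (PBI.cl n n' k k' i).1 hi rfl (fun o => rfl) rfl rfl (PBZF.lamK_eq hz hi)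

end PLT.Fr

end
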