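import Pool.Agent.PLT.CutBdI
import Pool.Agent.PLT.FamLC
import Pool.Agent.PLT.RepZI
import Pool.Agent.PLT.ZRI
import Pool.Agent.PLT.ZcPI
import Pool.Agent.PLT.ZcCI
import Pool.Agent.PLT.FamWI
import Pool.Agent.PLT.H1Phi
import Pool.Agent.PLT.InUX

/-!
# The cut term of the first Ward identity at any rows on the imaginary axis

Rows `x` (`Rws0 x`), moved row `i0`, legs at `z` (`|Re z| ≤ l / 2`, any height).

* `SupI ep x z η η' B`: the supremum over the perturbations at one index;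
* **`cutI_core`**: the cut term from the data of the replaced factors and `SupI`, at one index;
* **`cutI_one`**: `‖cutI ..‖ ≤ m ^ (- 2 + d) B`, from `SupI .. B`;
* **`CutW h0 e0`**: the cut term of the block S-W; **`cutW_of`**, **`cutW_ux`**: it follows from the inputs of the
  bounds of the family of the dislocated function.
-/

set_option autoImplicit false
set_option maxHeartbeats 1000000
set_option linter.unusedSectionVars false
set_option linter.unusedVariables false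

noncomputable section

open Complex MeasureTheory Finset
open scoped ENNReal Classical
open PLX (Fil)

namespace PLT.Fr

open NUP1 hiding Kd
open NUO NUP1S NUP1S.Ab NUP1S.AbC PB PHK
open PBX (ph Lg)
open PBI.PLX (ClsB6 ZcOk6 Zep F0D_sum_le6 cut_le6)
open PBI (AllW F0D)
open PBF.PLX (Crs MCr dN FE6 FA_eq_FE6)
open PBU.PLX (T1L tauF)
open PBForce (Rws0 xiR)
open PBQ1 (vv)
open Pool.Agent.PB (Pf)
open Pool.Agent.PLX (rwq yq GF6 PhI6)
open PLT.FI (CrsB ZI g0I Rws_re)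
open PLT.RI (clZ_I)

attribute [local instance] NUSea.seaP _root_.PLX.ends0

variable [Fil]

/-- **the supremum over the perturbations at one index** -/
def SupI (ep : ℝ) {m : ℕ} (x : Fin m → ℂ) (z : ℂ) (η η' : Crs) (B : ℝ) : Prop :=
  ∀ (Z : Bool → Option O3 → ℂ → ℂ) (r' : Bool → ℂ → ℝ) (δ₀ : ℝ) (M : Bool → ℝ → ℝ)
    (κ x0 : ℝ) (Qc : ℤ) (E : Set ℝ),
  0 ≤ δ₀ → δ₀ ≤ 1 / (m : ℝ) → RE6 r' δ₀ → (∀ a t, 0 ≤ M a t) →
  (∀ a t, Real.exp (∑ j, NUMF.Ag (1 / 2) (t - (rwq x a j).im)) * M a t ≤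
    1 * cut m (4 / 3 * (1 - ep)) t) →
  OneC6 Z (obE6 (obLC (T1L m) x (4 / 3 * (1 - ep)) z) r' M) par6 ep κ x0 Qc E →
  ∑ n ∈ range (2 * m + 1), ‖Pf z x (yq x)‖ₑ * FA6 Z par6 n (n + dN (2 * m)) η η'
    (fun _ _ _ _ _ => 1) ≤ ENNReal.ofReal B

/-- the one body bounds of the class functions -/
theorem oneC6_I {ep : ℝ} (hep : 0 < ep) (hep1 : ep ≤ 1 / 100) (k : ℕ) {m : ℕ} {x : Fin m → ℂ}
    (hx : ∀ i, (x i).re = 0) {z : ℂ} (hz : |z.re| ≤ NUP1.l / 2) :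
    OneC6 (ZI k x (4 / 3 * (1 - ep)) z) (obLC (T1L k) x (4 / 3 * (1 - ep)) z) par6 ep
      (2 * (4 / 3 * (1 - ep))) (51 / 100 * NUP1.l) (-Fil.xn m) (Set.range fun i => (x i).im) := by
  have hl := NUP1.l_pos
  have hz' := abs_le.1 hz
  have h := oneC6_Lg (P := par6) (z := z) (ep := ep) (x0 := 51 / 100 * NUP1.l) (c := PBU.PLX.ccS6 k)
    (β := 4 / 3 * (1 - ep)) (g0 := g0I k x) le_rfl (by linarith) hep hep1 (by linarith) (by linarith)
    (Rws_re hx) (ex := fun _ => [I, -I]) (fun _ w hw => PLT.RI.re_pm w hw)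
    (PLT.FI.meas_g0I k (Rws_re hx)) (PBU.PLX.norm_ccS6 k) (by linarith [hz'.1]) (by linarith [hz'.2])
  have e : (fun a => PBX.ph (4 / 3) (rwq x a) (g0I k x a)) =
      fun a => phO (T1L k) (List.ofFn (rwq x a) ++ []) := funext fun a => PLT.FI.ph_g0I k x a
  rw [e] at h
  exact h

/-- **the cut term at one index** -/
theorem cutI_core (hC : ClsB6) {ep : ℝ} (hep : 0 < ep) (hep1 : ep ≤ 1 / 100) {η η' : Crs}
    (hcr : CrsB ep η η') {m : ℕ} (hm : 2 ≤ m) {x : Fin m → ℂ} (hx : ∀ i, (x i).re = 0) {z : ℂ}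
    (hz : |z.re| ≤ NUP1.l / 2) (hphi : PhI6 (N := Nq m) (4 / 3 * (1 - ep)) (rwq x) fun _ => [I, -I])
    {P0 : NUO.Par} (hP : NURow.ParP P0) {Zc Zd : PBI.Stt} {c1 E B : ℝ} {M : Bool → ℝ → ℝ}
    (hok : ∀ n ∈ range (2 * m + 1), AllW (3 / 5 * NUP1.l) n (n + Fil.xn m) (PBI.PLX.fl P0) fun c x =>
      PBI.LnOk c x)
    (hcut : CutZ6 (ZI m x (4 / 3 * (1 - ep)) z) Zc (obLC (T1L m) x (4 / 3 * (1 - ep)) z) par6 ep
      (2 * (4 / 3 * (1 - ep))) (51 / 100 * NUP1.l) (-Fil.xn m) (Set.range fun i => (x i).im) c1 M)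
    (hzc : ZcOk6 (ZI m x (4 / 3 * (1 - ep)) z) Zc par6 (2 * (4 / 3 * (1 - ep))) (ep / 4) c1
      (-(Fil.xn m : ℤ)))
    (hline : ∀ n ∈ range (2 * m + 1), AllW (3 / 5 * NUP1.l) n (n + Fil.xn m) (PBI.PLX.fl P0)
      fun c x => ∀ i, ∀ t : ℝ, Zd (c i).1 (c i).2 (NUP1.vl (x i) t) =
        Zc (c i).1 (c i).2 (NUP1.vl (x i) t))
    (hE : 0 < E) (hE1 : E * c1 ≤ 1 / (m : ℝ))
    (hM : ∀ a t, Real.exp (∑ j, NUMF.Ag (1 / 2) (t - (rwq x a j).im)) * (E * M a t) ≤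
      1 * cut m (4 / 3 * (1 - ep)) t)
    (hB : 0 ≤ B) (hS : SupI ep x z η η' B) :
    ‖Pf z x (yq x) * ∑ n ∈ range (2 * m + 1), F0D (3 / 5 * NUP1.l) n (n + Fil.xn m) (PBI.PLX.fl P0)
      (ZI m x (4 / 3 * (1 - ep)) z) Zd‖ ≤ B / E := by
  have hl := NUP1.l_pos
  have hz' := abs_le.1 hz
  have hm2 : (2 : ℝ) ≤ m := by exact_mod_cast hm
  have hmp : (0 : ℝ) < m := by linarith
  have hc0 := hcut.c0
  have hδ0 : 0 ≤ E * c1 := by positivity
  have hδ2 : E * c1 ≤ 1 / 2 := hE1.trans (one_div_le_one_div_of_le (by norm_num) hm2)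
  have hS' : StP (ep / 4) par6 := par6_good.stP (by positivity) (by linarith) (by
    show 7 / 8 + ep / 4 < 1
    linarith)
  have hcr' : ∀ r (O : Fin r → Xo), CrvR6 (ep / 4) (η r O) (η' r O) :=
    fun r O => crvR6_of (hcr.cur r O)
  have hQn : ∀ n : ℕ, (n : ℤ) - ((n + Fil.xn m : ℕ) : ℤ) = -(Fil.xn m : ℤ) := fun n => by
    push_cast
    ring
  have hI : ∀ n : ℕ, InsQ6 (PBI.PLX.fl P0) par6 (3 / 5 * NUP1.l) (2 * (4 / 3 * (1 - ep)))
      (2 * (4 / 3 * (1 - ep))) (ep / 4) (-(Fil.xn m : ℤ)) n (n + Fil.xn m) η η' := by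
    intro n
    refine insQ6_fl hP par6_good (by norm_num [par6]) (by norm_num [par6])
      (by norm_num [par6]) hS' hcr.mc (fun r _ O => hcr' r O) (by linarith) (hQn n) fun Z hZ => ?_
    exact hC Z _ _ _ _ n (n + Fil.xn m) _ _ (by linarith) hS' (hQn n) (fun r _ O => hcr' r O) hZ
  have hcl := clZ_I hep hep1 m hx hz hphi (3 / 5 * NUP1.l)
  have hone := oneC6_I hep hep1 m hx hz
  refine cut_le6 (S := range (2 * m + 1)) (d := Fil.xn m) (Pf := Pf z x (yq x)) (fun n _ => hI n) hok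
    (by linarith) hcl hzc hc0 hline hE hδ2 hB ?_
  intro ε hε
  have hone2 := hone.eps hcut par6_good (ε := ε) (δ := E * c1) hδ0
    (by linarith) (by rw [hε]) (M' := fun a t => E * M a t) (fun s t => by rw [hε])
  have h1 := hS _ _ _ _ _ _ _ _ hδ0 hE1 (rE6_RE hδ0) (fun a t => mul_nonneg hE.le (hcut.M0 a t))
    hM hone2
  rw [PBF.PLX.dN_two] at h1
  exact h1

/-! ### with the lines of the first Ward identity -/

/-- **the cut term**, any rows on the axis, uniform in the rows, the legs and the supremum -/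
theorem cutI_one (hC : ClsB6) {d : ℝ} (hd : 0 < d) {ep : ℝ} (hep : 0 < ep) (hep1 : ep ≤ 1 / 100) :
    ∃ m0 : ℕ, ∀ m : ℕ, m0 ≤ m → ∀ (x : Fin m → ℂ) (i0 : Fin m), Rws0 x → ∀ z : ℂ,
      |z.re| ≤ NUP1.l / 2 → ∀ η η' : Crs, CrsB ep η η' →
      ∀ P0 : NUO.Par, NUGC.PLX.ParC P0 → NURow.ParP P0 →
      ∀ (η0 B : ℝ), 0 ≤ B → SupI ep x z η η' B →
      ‖cutI (ZI m x (4 / 3 * (1 - ep)) z)
        (ZdRm (cRm m) (4 / 3 * (1 - ep)) x i0 z η0 (vEI (4 / 3 * (1 - ep)) x i0) (T1L m)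
          (xiR x i0) η0)
        (ZpRm (cRm m) (4 / 3 * (1 - ep)) x i0 z η0 (vEI (4 / 3 * (1 - ep)) x i0) (T1L m)
          (xiR x i0)) P0 x i0 z‖ ≤ (m : ℝ) ^ (-2 + d) * B := by
  obtain ⟨Cc, K, hCc, hK, k0, hk0, HD⟩ := cut_dataZ hep hep1
  obtain ⟨mp, hmp1, hphi⟩ := PLT.H1.phI6_Rws0
  have t1 : Filter.Tendsto (fun m : ℕ => (m : ℝ) ^ d) Filter.atTop Filter.atTop :=
    (tendsto_rpow_atTop hd).comp tendsto_natCast_atTop_atTop
  obtain ⟨mx, hmx⟩ := Filter.eventually_atTop.1 (t1.eventually_ge_atTop Cc)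
  refine ⟨max (max k0 mp) (max mx 2), fun m hm x i0 hx z hz η η' hcr P0 hP hP' η0 B hB hS => ?_⟩
  have k1 : k0 ≤ m := (le_max_left _ _).trans ((le_max_left _ _).trans hm)
  have k4 : mp ≤ m := (le_max_right _ _).trans ((le_max_left _ _).trans hm)
  have k2 : mx ≤ m := (le_max_left _ _).trans ((le_max_right _ _).trans hm)
  have k3 : 2 ≤ m := (le_max_right _ _).trans ((le_max_right _ _).trans hm)
  have hl := NUP1.l_pos
  have hz' := abs_le.1 hz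
  have hmr : (2 : ℝ) ≤ m := by exact_mod_cast k3
  have hmp : (0 : ℝ) < m := by linarith
  have hm1 : (1 : ℝ) ≤ m := by linarith
  obtain ⟨E, hE⟩ : ∃ E : ℝ, E = (m : ℝ) ^ (2 - d) := ⟨_, rfl⟩
  have hE0 : 0 < E := by rw [hE]; exact Real.rpow_pos_of_pos hmp _
  have hE2 : E ≤ ((m : ℝ) + 1) ^ 2 := by
    have h1 : E ≤ (m : ℝ) ^ 2 := by
      rw [hE, ← Real.rpow_natCast]
      exact Real.rpow_le_rpow_of_exponent_le hm1 (by push_cast; linarith)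
    nlinarith
  have hEd : E * (m : ℝ) ^ d = (m : ℝ) ^ 2 := by
    rw [hE, ← Real.rpow_add hmp, ← Real.rpow_natCast]
    congr 1
    push_cast
    ring
  have hE1 : E * (Cc / (m : ℝ) ^ 3) ≤ 1 / (m : ℝ) := by
    have h4 : E * Cc ≤ (m : ℝ) ^ 2 := by
      rw [← hEd]
      exact mul_le_mul_of_nonneg_left (hmx m k2) hE0.le
    rw [mul_div_assoc', div_le_div_iff₀ (by positivity) hmp]
    have h5 : E * Cc * (m : ℝ) ≤ (m : ℝ) ^ 2 * (m : ℝ) := mul_le_mul_of_nonneg_right h4 hmp.le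
    have h6 : (m : ℝ) ^ 2 * (m : ℝ) = (m : ℝ) ^ 3 := by ring
    linarith
  obtain ⟨hcut, hzc, hact⟩ := HD m k1 x i0 hx z (by linarith [hz'.1]) (by linarith [hz'.2])
  have hLz : PBZF.Lz z := ⟨by linarith [hz'.1], by linarith [hz'.2]⟩
  have hFd : PBZF.PLX.FdX (xiR x i0) := fdX_xiRm hx i0
  obtain ⟨Dz, -, hZF⟩ := exists_zfamC_P (cRm m) hx.re i0 η0 (vEI (4 / 3 * (1 - ep)) x i0) (T1L m) hFd
    (by linarith : (0 : ℝ) < 4 / 3 * (1 - ep)) (by linarith) hLz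
  have key := cutI_core (Zd := PBI.Zcut (ZI m x (4 / 3 * (1 - ep)) z)
      (ZdRm (cRm m) (4 / 3 * (1 - ep)) x i0 z η0 (vEI (4 / 3 * (1 - ep)) x i0) (T1L m)
        (xiR x i0) η0)
      (ZpRm (cRm m) (4 / 3 * (1 - ep)) x i0 z η0 (vEI (4 / 3 * (1 - ep)) x i0) (T1L m)
        (xiR x i0))
      (PBQ1.xiK x i0) (PBQ1.krK2 x) (PBQ1.r1K2 x i0) (PBQ1.lamK z)) hC hep hep1 hcr k3 hx.re hz
    (hphi m k4 _ (by linarith) (by linarith) x hx) hP'
    (fun n _ => (hZF P0 hP n _ rfl).hok) (hcut (51 / 100 * NUP1.l) le_rfl (by linarith)) hzc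
    (fun n _ => ?_) hE0 hE1 (fun a t => hact E hE0.le hE2 a t) hB hS
  · refine key.trans (le_of_eq ?_)
    rw [hE, div_eq_mul_inv, ← Real.rpow_neg hmp.le, mul_comm]
    congr 2
    ring
  · have h1 := zcutI_K (b := 4 / 3 * (1 - ep)) (cRm m) hx i0 (by linarith) (by linarith) hLz η0
      (T1L m) (α := 3 / 5 * NUP1.l) le_rfl (by linarith)
      (L := PBI.PLX.fl P0) (NURow.LnH_P hP.goodP hP.j1 hP.j2 fun r => by
          have h3 := hP.e2 r
          have h4 := hP.d0 r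
          linarith) n (n + Fil.xn m)
    rw [ZRm_ZI (4 / 3 * (1 - ep)) x i0 z η0 (vEI (4 / 3 * (1 - ep)) x i0) (xiR x i0)] at h1
    exact h1

/-! ### over the family -/

/-- **the cut term of the block S-W**: rows on the axis of heights at most `h0`, legs at `I τ`,
`|τ| ≤ e0 log m` -/
def CutW (h0 e0 : ℝ) : Prop :=
  ∀ d : ℝ, 0 < d → ∃ a0 : ℝ, 0 < a0 ∧ ∀ ep : ℝ, 0 < ep → ep ≤ a0 → ∃ m0 : ℕ, ∀ m : ℕ, m0 ≤ m →
    ∀ x : Fin m → ℂ, (∀ k, (x k).re = 0 ∧ |(x k).im| ≤ h0) → ∀ (i0 : Fin m) (τ : ℝ),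
    |τ| ≤ e0 * Real.log m → ∀ P0 : NUO.Par, NUGC.PLX.ParC P0 → NURow.ParP P0 → ∀ η0 : ℝ,
    ‖cutI (ZI m x (4 / 3 * (1 - ep)) (I * τ))
      (ZdRm (cRm m) (4 / 3 * (1 - ep)) x i0 (I * τ) η0 (vEI (4 / 3 * (1 - ep)) x i0) (T1L m)
        (xiR x i0) η0)
      (ZpRm (cRm m) (4 / 3 * (1 - ep)) x i0 (I * τ) η0 (vEI (4 / 3 * (1 - ep)) x i0) (T1L m)
        (xiR x i0)) P0 x i0 (I * τ)‖ ≤ (m : ℝ) ^ (-2 + d) * Real.exp (2 * |τ|)

/-- **the cut term of the block S-W** from the data of the family -/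
theorem cutW_of (hC : ClsB6) {SB : SeaCB} {S : ℕ → SW.IxW → SeaC} {h0 e0 lo hi : ℝ} (hh : h0 ≤ 1)
    (hS : SW.SeaIx SB S h0 e0) {en : EnC} {lin : ℝ → ℝ → ℕ → SW.IxW → ℝ}
    {pT : ℕ → SW.IxW → Bool → ℝ → ℝ}
    (hU : SeasC SB (famLC SW.xIx SW.zIx S (SW.okIx h0 e0) lo hi) S)
    (hG : GasFC (famLC SW.xIx SW.zIx S (SW.okIx h0 e0) lo hi) par6 S (BLC SW.xIx SW.zIx)
      (EcC par6 en S) lin)
    (hSt : StabF (famLC SW.xIx SW.zIx S (SW.okIx h0 e0) lo hi) par6 fun m i => en (S m i))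
    (hD : DatF (famLC SW.xIx SW.zIx S (SW.okIx h0 e0) lo hi) par6 (BLC SW.xIx SW.zIx) S pT)
    (hV : ValF (famLC SW.xIx SW.zIx S (SW.okIx h0 e0) lo hi) lin)
    (hCl : ClsF (famLC SW.xIx SW.zIx S (SW.okIx h0 e0) lo hi) par6 (BLC SW.xIx SW.zIx) 0 0)
    {Cp : ℝ} (hpT : ∀ m i, SW.okIx h0 e0 m i → ∀ a t, pT m i a t ≤
      ∑ j, NUMF.Ag (1 / 2) (t - (rwq (SW.xIx m i) a j).im) + Cp) : CutW h0 e0 := by
  intro d hd
  have hdc : ∀ m i, (famLC SW.xIx SW.zIx S (SW.okIx h0 e0) lo hi).ok m i →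
      Integrable ((famLC SW.xIx SW.zIx S (SW.okIx h0 e0) lo hi).dc m i) := by
    intro m i hi
    have hm : 0 < m := hi.1
    have h1 : (fun t : ℝ => (m : ℂ) * @Cv.Pc (S m i) t) = fun t : ℝ => rhA (SW.xIx m i) t :=
      funext fun t => hS.den m i hi t
    have h2 : Integrable fun t : ℝ => (m : ℂ) * @Cv.Pc (S m i) t := by
      rw [h1]
      refine SW.rhA_int hm ⟨fun k => ?_, fun k => ?_⟩
      · show (I * ((i.1 k : ℝ) : ℂ)).re = 0
        simp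
      · show |(I * ((i.1 k : ℝ) : ℂ)).im| ≤ 1
        simp only [mul_im, I_re, ofReal_im, mul_zero, I_im, ofReal_re, one_mul, zero_add]
        exact (hi.2.1 k k.2).trans hh
    have h3 := h2.const_mul ((m : ℂ)⁻¹)
    refine h3.congr (Filter.Eventually.of_forall fun t => ?_)
    have hmc : (m : ℂ) ≠ 0 := by exact_mod_cast hm.ne'
    show (m : ℂ)⁻¹ * ((m : ℂ) * @Cv.Pc (S m i) t) = @Cv.Pc (S m i) t
    rw [← mul_assoc, inv_mul_cancel₀ hmc, one_mul]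
  obtain ⟨a0, ha0, H⟩ := cutSupC6 (CM := Real.exp Cp) par6_good hU hG hSt hD hV hCl hdc
    (Real.exp_pos Cp).le (δ := d / 2) (by linarith)
  -- the parameters of the curves
  obtain ⟨e1, he1⟩ : ∃ e1 : ℝ, e1 = min (1 / 100) (a0 / 9) := ⟨_, rfl⟩
  have he0 : 0 < e1 := by rw [he1]; exact lt_min (by norm_num) (by positivity)
  have he1a : e1 ≤ 1 / 100 := by rw [he1]; exact min_le_left _ _
  have he1b : e1 ≤ a0 / 9 := by rw [he1]; exact min_le_right _ _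
  obtain ⟨J, hJ0, hJ⟩ : ∃ J : ℝ, 0 ≤ J ∧ Real.exp (-(2 * Real.pi * J)) ≤ a0 / 9 := by
    obtain ⟨n, hn⟩ := exists_nat_ge (-Real.log (a0 / 9))
    refine ⟨n, Nat.cast_nonneg n, ?_⟩
    rw [← Real.exp_log (by positivity : 0 < a0 / 9), Real.exp_le_exp]
    have hpi := Real.pi_gt_three
    have hn0 : (0 : ℝ) ≤ n := Nat.cast_nonneg n
    nlinarith
  refine ⟨min (1 / 100) (a0 / 9), lt_min (by norm_num) (by positivity), fun ep hep hepa => ?_⟩
  have hep1 : ep ≤ 1 / 100 := hepa.trans (min_le_left _ _)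
  have hep2 : ep ≤ a0 / 9 := hepa.trans (min_le_right _ _)
  obtain ⟨m1, H⟩ := H ep hep hep1 e1 he0 J hJ0 (by linarith)
  obtain ⟨m2, hm2, hCur⟩ := SW.curB_etaC he0 he1a hJ0 hep SB
  obtain ⟨m3, H3⟩ := cutI_one hC (d := d / 2) (by linarith) hep hep1
  refine ⟨max (max m1 m2) (max m3 1), fun m hm x hx i0 τ hτ P0 hP hP' η0 => ?_⟩
  have k1 : m1 ≤ m := (le_max_left _ _).trans ((le_max_left _ _).trans hm)
  have k2 : m2 ≤ m := (le_max_right _ _).trans ((le_max_left _ _).trans hm)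
  have k3 : m3 ≤ m := (le_max_left _ _).trans ((le_max_right _ _).trans hm)
  have hm0 : 0 < m := i0.pos
  have hmp : (0 : ℝ) < m := by exact_mod_cast hm0
  have hok : SW.okIx h0 e0 m (SW.ixOf x τ) := SW.okIx_of hm0 (fun k => (hx k).2) hτ
  have hxx : SW.xIx m (SW.ixOf x τ) = x := SW.xIx_of (fun k => (hx k).1) τ
  have hzz : SW.zIx (SW.ixOf x τ) = I * τ := rfl
  have hRw : Rws0 x := ⟨fun k => (hx k).1, fun k => ((hx k).2).trans hh⟩
  have hst := hS.eta m _ hok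
  have hsea := hS.sea m _ hok
  have hcb := @hCur (S m (SW.ixOf x τ)) hsea m k2
  have hτ0 : (I * (τ : ℂ)).re = 0 := by simp
  have hτi : (I * (τ : ℂ)).im = τ := by simp
  have hS1 : SupI ep x (I * τ) (fun _ _ => @Cv.etaC (S m (SW.ixOf x τ)) e1 J m m)
      (fun _ _ => @Cv.etaC' (S m (SW.ixOf x τ)) e1 J m m)
      ((m : ℝ) ^ (d / 2) * Real.exp (2 * |τ|)) := by
    intro Z r' δ₀ M κ x0 Qc E g0 g1 hr hM0 hM1 hone
    have h1 := H m k1 (SW.ixOf x τ) hok (@Cv.etaC (S m (SW.ixOf x τ)) e1 J m m)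
      (@Cv.etaC' (S m (SW.ixOf x τ)) e1 J m m)
      (@SW.dsp_straight _ (S m (SW.ixOf x τ)) hst _) (@SW.dsp1_straight _ (S m (SW.ixOf x τ)) hst _ _)
      Z r' δ₀ M κ x0 Qc E g0 g1 hr hM0 (fun a t => ?_) (by
        show OneC6 Z (obE6 (obLC (T1L m) (SW.xIx m (SW.ixOf x τ)) (4 / 3 * (1 - ep))
          (SW.zIx (SW.ixOf x τ))) r' M) par6 ep κ x0 Qc E
        rw [hxx, hzz]
        exact hone)
    · have e1 : (famLC SW.xIx SW.zIx S (SW.okIx h0 e0) lo hi).Pf m (SW.ixOf x τ) =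
          Pf (I * τ) x (yq x) := by
        show Pf (SW.zIx (SW.ixOf x τ)) (SW.xIx m (SW.ixOf x τ)) (yq (SW.xIx m (SW.ixOf x τ))) = _
        rw [hxx, hzz]
      have e2 : (famLC SW.xIx SW.zIx S (SW.okIx h0 e0) lo hi).bd m (SW.ixOf x τ) =
          Real.exp (2 * |τ|) := by
        show Real.exp (2 * |(SW.zIx (SW.ixOf x τ)).im|) = _
        rw [hzz, hτi]
      rw [e1, e2] at h1
      exact h1
    · have h2 := hpT m _ hok a t
      rw [hxx] at h2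
      have h3 := hM1 a t
      rw [one_mul] at h3
      calc Real.exp (pT m (SW.ixOf x τ) a t) * M a t ≤
            Real.exp (∑ j, NUMF.Ag (1 / 2) (t - (rwq x a j).im) + Cp) * M a t :=
            mul_le_mul_of_nonneg_right (Real.exp_le_exp.2 h2) (hM0 a t)
        _ = Real.exp Cp * (Real.exp (∑ j, NUMF.Ag (1 / 2) (t - (rwq x a j).im)) * M a t) := by
            rw [Real.exp_add]
            ring
        _ ≤ _ := mul_le_mul_of_nonneg_left h3 (Real.exp_pos Cp).le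
  have hl := NUP1.l_pos
  have key := H3 m k3 x i0 hRw (I * τ) (by rw [hτ0, abs_zero]; positivity) _ _ (CrsB.of hcb) P0 hP hP'
    η0 _ (by positivity) hS1
  refine key.trans (le_of_eq ?_)
  rw [← mul_assoc, ← Real.rpow_add hmp]
  congr 2
  ring

/-- **the cut term of the block S-W** from the record of the family -/
theorem cutW_ux (hC : ClsB6) {SB : SeaCB} {S : ℕ → SW.IxW → SeaC} {h0 e0 lo hi : ℝ} (hh : h0 ≤ 1)
    (hS : SW.SeaIx SB S h0 e0) {en : EnC} {lin : ℝ → ℝ → ℕ → SW.IxW → ℝ}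
    {pT : ℕ → SW.IxW → Bool → ℝ → ℝ}
    (h : InUX SB (famLC SW.xIx SW.zIx S (SW.okIx h0 e0) lo hi) par6 S (BLC SW.xIx SW.zIx) en lin pT 0 0)
    {Cp : ℝ} (hpT : ∀ m i, SW.okIx h0 e0 m i → ∀ a t, pT m i a t ≤
      ∑ j, NUMF.Ag (1 / 2) (t - (rwq (SW.xIx m i) a j).im) + Cp) : CutW h0 e0 :=
  cutW_of hC hh hS h.seas h.gas h.stab h.dat h.val h.cls hpT

end PLT.Fr

end
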