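import Pool.Agent.PLT.CutRC

/-!
# The cutoff of rows on the imaginary axis over the flat seas

The static curve is the line, the rows are at `x`, `re x = 0`, at any bounded heights: every row gains alone.

* `RwA n0 hh m X W ex`: the list `W` is a permutation of the rows `X` and of at most `n0` further points `ex`;
* **`exists_cutAx`**: for `-(ep l / 4) ≤ l - re u ≤ l / 4` the product of the `psi` is at most `exp (-c m e^{-p |im u|})`,
  the cutoff at most `C m e^{-p |im u|}`, `p = (8 / 3) (1 - ep)`;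
* **`exists_cutRA`**, **`cutBC_ax`**: one admissible cutoff for all flat seas, contents, curves.
-/

set_option autoImplicit false
set_option linter.unusedSectionVars false

noncomputable section

open MeasureTheory Finset Filter Topology

open PLX (Fil Ends)

namespace PLT

section point

open NUP1 Complex

/-- rows on the axis -/
structure RwA (n0 : ℕ) (hh : ℝ) (m : ℕ) (X W ex : List ℂ) : Prop where
  perm : W.Perm (X ++ ex)
  pl : ∀ x ∈ X, x.re = 0 ∧ |x.im| ≤ hh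
  len : ex.length ≤ n0
  pt : ∀ x ∈ ex, |x.re| ≤ l / 2 ∧ |x.im| ≤ hh
  up : X.length ≤ 3 * m
  dn : m ≤ X.length + n0

theorem phi_prA {n0 m : ℕ} {hh : ℝ} {X W ex : List ℂ} (h : RwA n0 hh m X W ex) (β : ℝ)
    (u : ℂ) : phi β W u = 1 - prZ β X ex u := by
  unfold phi prZ
  rw [(h.perm.map fun x => psi β (u - x)).prod_eq]

theorem RwA.rwD {n0 m : ℕ} {hh : ℝ} {X W ex : List ℂ} (h : RwA n0 hh m X W ex) {u : ℂ}
    (h1 : l - u.re ≤ l / 4) (h2 : -(l / 8) ≤ l - u.re) : RwD (1 / 4) hh u W := by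
  have hl := l_pos
  intro x hx
  have hx' := h.perm.mem_iff.1 hx
  rw [List.mem_append] at hx'
  rw [sub_re]
  rcases hx' with hx' | hx'
  · obtain ⟨a, b⟩ := h.pl x hx'
    exact ⟨by rw [a]; linarith, by rw [a]; linarith, b⟩
  · obtain ⟨a, b⟩ := h.pt x hx'
    obtain ⟨a1, a2⟩ := abs_le.1 a
    exact ⟨by linarith, by linarith, b⟩

/-- one row on the axis -/
theorem row_gainA {ep hh : ℝ} (h0 : 0 < ep) (h1 : ep ≤ 1 / 100) (hhh : 0 ≤ hh) {v : ℝ} (hv0 : ep * l / 5 ≤ v)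
    (hv : v ≤ 13 / 50 * l) {x : ℂ} (hx : |x.im| ≤ hh) (t : ℝ) :
    ep * l / 5 * Real.exp (-(8 / 3) * hh) * Real.exp (-(8 / 3 * (1 - ep)) * |t|) ≤ Ag v ((1 - ep) * (t - x.im)) := by
  have hl := l_pos
  have hepl : 0 < ep * l := by positivity
  obtain ⟨T, hT⟩ : ∃ T, T = (1 - ep) * (t - x.im) := ⟨_, rfl⟩
  have w1 : |(0 : ℝ)| < l := by rw [abs_zero]; exact hl
  have w2 : |v| < l := by rw [abs_lt]; constructor <;> linarith
  have sl := Ag_slope w1 w2 (by linarith) T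
  rw [Ag_zero, sub_zero, sub_zero] at sl
  have h3 : √3 ≤ (2 : ℝ) := (Real.sqrt_le_left (by norm_num)).2 (by norm_num)
  have h4 : (2 : ℝ) ≤ 4 / √3 := by
    rw [le_div_iff₀ (by positivity)]
    linarith
  have h5 := exp_le_ch T
  have h6 : Real.exp (-(8 / 3) * hh) * Real.exp (-(8 / 3 * (1 - ep)) * |t|) ≤ Real.exp (-(8 / 3) * |T|) := by
    rw [← Real.exp_add, Real.exp_le_exp]
    have a1 : |T| ≤ (1 - ep) * |t| + hh := by
      rw [hT, abs_mul, abs_of_pos (by linarith : 0 < 1 - ep)]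
      have a2 : |t - x.im| ≤ |t| + |x.im| := abs_sub _ _
      have a3 : (1 - ep) * |t - x.im| ≤ (1 - ep) * (|t| + hh) :=
        mul_le_mul_of_nonneg_left (by linarith) (by linarith)
      nlinarith
    linarith
  have h7 : Real.exp (-(8 / 3) * |T|) ≤ 1 / NUMF.ch T := h5
  have hE := Real.exp_pos (-(8 / 3) * |T|)
  have h8 : Real.exp (-(8 / 3) * |T|) ≤ 4 / √3 / NUMF.ch T := by
    have h9 : 2 * Real.exp (-(8 / 3) * |T|) ≤ 4 / √3 * (1 / NUMF.ch T) :=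
      mul_le_mul h4 h7 hE.le (by positivity)
    rw [mul_one_div] at h9
    linarith
  rw [← hT]
  have h10 : 0 ≤ Real.exp (-(8 / 3) * hh) * Real.exp (-(8 / 3 * (1 - ep)) * |t|) := by positivity
  calc ep * l / 5 * Real.exp (-(8 / 3) * hh) * Real.exp (-(8 / 3 * (1 - ep)) * |t|) =
        (Real.exp (-(8 / 3) * hh) * Real.exp (-(8 / 3 * (1 - ep)) * |t|)) * (ep * l / 5) := by ring
    _ ≤ 4 / √3 / NUMF.ch T * v := mul_le_mul (h6.trans h8) hv0 (by positivity) (h10.trans (h6.trans h8))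
    _ ≤ _ := sl

/-- **the cutoff near the line** -/
theorem exists_cutAx {ep : ℝ} (h0 : 0 < ep) (h1 : ep ≤ 1 / 100) (n0 : ℕ) {hh : ℝ} (hhh : 0 ≤ hh) :
    ∃ c C : ℝ, 0 < c ∧ 1 ≤ C ∧ ∃ m0 : ℕ, 1 ≤ m0 ∧ ∀ m ≥ m0, ∀ (X W ex : List ℂ),
      RwA n0 hh m X W ex → ∀ u : ℂ, -(ep * l / 4) ≤ l - u.re → l - u.re ≤ l / 4 →
      ‖prZ (4 / 3 * (1 - ep)) X ex u‖ ≤
        Real.exp (-(c * (m * Real.exp (-(8 / 3 * (1 - ep)) * |u.im|)))) ∧
      ‖phi (4 / 3 * (1 - ep)) W u‖ ≤ C * (m * Real.exp (-(8 / 3 * (1 - ep)) * |u.im|)) := by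
  have hl := l_pos
  have hβ0 : 0 < 4 / 3 * (1 - ep) := by nlinarith
  have hβ1 : 4 / 3 * (1 - ep) ≤ 4 / 3 := by nlinarith
  have hd0 : (0 : ℝ) < 1 / 4 := by norm_num
  have hd1 : (1 / 4 : ℝ) ≤ 1 := by norm_num
  have e2 : -(8 / 3 * (1 - ep)) = -(2 * (4 / 3 * (1 - ep))) := by ring
  obtain ⟨K, hK⟩ : ∃ K, K = cK (1 / 4) hh := ⟨_, rfl⟩
  have hK4 : 4 ≤ K := by rw [hK]; exact cK_ge hd0 hd1 hhh
  obtain ⟨c0, hc0⟩ : ∃ c0, c0 = ep * l / 5 * Real.exp (-(8 / 3) * hh) := ⟨_, rfl⟩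
  have hc00 : 0 < c0 := by rw [hc0]; positivity
  obtain ⟨c1, hc1⟩ : ∃ c1, c1 = c0 / 2 := ⟨_, rfl⟩
  have hc10 : 0 < c1 := by rw [hc1]; positivity
  obtain ⟨m1, hm1⟩ := exists_nat_ge (2 * K * n0 / c1)
  refine ⟨c1 / 2, cU (1 / 4) hh (3 + n0) 0 + 1, by positivity, ?_, max (2 * n0 + 1) m1,
    le_trans (by omega) (le_max_left _ _), ?_⟩
  · have : 0 ≤ cU (1 / 4) hh (3 + n0) 0 := by
      unfold cU
      rw [← hK]
      positivity
    linarith
  intro m hm X W ex hW u hu1 hu3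
  have hm2 : 2 * n0 + 1 ≤ m := (le_max_left _ _).trans hm
  have hm3 : (m1 : ℝ) ≤ m := by exact_mod_cast (le_max_right _ _).trans hm
  have hmr : (1 : ℝ) ≤ m := by
    have : 1 ≤ m := by omega
    exact_mod_cast this
  have hn0 : (0 : ℝ) ≤ n0 := Nat.cast_nonneg n0
  -- the bulk
  have eu : u = vl (l - (l - u.re)) u.im := by
    apply Complex.ext
    · rw [vl_re]; ring
    · rw [vl_im]
  obtain ⟨v', hv'⟩ : ∃ v', v' = l - u.re + (1 - (1 - ep)) * (l / 2 - (l - u.re)) := ⟨_, rfl⟩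
  have hv0 : ep * l / 5 ≤ v' := by
    rw [hv']
    have : (1 - (1 - ep)) * (l / 2 - (l - u.re)) = ep * (l / 2) - ep * (l - u.re) := by ring
    rw [this]
    rcases le_total 0 (l - u.re) with h | h
    · nlinarith
    · nlinarith
  have hv1 : v' ≤ 13 / 50 * l := by
    rw [hv']
    nlinarith
  have hb0 : ‖(X.map fun x => psi (4 / 3 * (1 - ep)) (u - x)).prod‖ ≤
      Real.exp (-(X.length * (c0 * Real.exp (-(8 / 3 * (1 - ep)) * |u.im|)))) := by
    have hX : ∀ x ∈ X, x.re = 0 ∧ |x.im| ≤ hh := hW.pl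
    clear hW
    induction X with
    | nil => simp
    | cons x X ih =>
      have i := ih fun y hy => hX y (by simp [hy])
      obtain ⟨a, b⟩ := hX x (by simp)
      have k := psi_betaZ (ρ := 1 - ep) (by linarith) (by linarith) (v := l - u.re) (x := x) (by rw [a]; positivity)
        (by rw [a]; nlinarith) (by linarith) u.im
      rw [← eu, ← hv', a, add_zero] at k
      have g := row_gainA h0 h1 hhh hv0 hv1 b u.im
      rw [← hc0] at g
      rw [List.map_cons, List.prod_cons, norm_mul, List.length_cons]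
      have k2 := k.trans (Real.exp_le_exp.2 (neg_le_neg g))
      refine (mul_le_mul k2 i (norm_nonneg _) (Real.exp_pos _).le).trans (le_of_eq ?_)
      rw [← Real.exp_add]
      congr 1
      push_cast
      ring
  have hlen : (m : ℝ) / 2 ≤ X.length := by
    have h3 := hW.dn
    have h4 : m ≤ 2 * X.length := by omega
    have h5 : (m : ℝ) ≤ 2 * X.length := by exact_mod_cast h4
    linarith
  rw [e2] at hb0 ⊢
  obtain ⟨E, hE⟩ : ∃ E : ℝ, E = Real.exp (-(2 * (4 / 3 * (1 - ep))) * |u.im|) := ⟨_, rfl⟩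
  have hE0 : 0 < E := by rw [hE]; exact Real.exp_pos _
  have hbulk : ‖(X.map fun x => psi (4 / 3 * (1 - ep)) (u - x)).prod‖ ≤
      Real.exp (-(c1 * (m * Real.exp (-(2 * (4 / 3 * (1 - ep))) * |u.im|)))) := by
    refine hb0.trans (Real.exp_le_exp.2 (neg_le_neg ?_))
    rw [← hE]
    calc c1 * (m * E) = (m : ℝ) / 2 * (c0 * E) := by rw [hc1]; ring
      _ ≤ X.length * (c0 * E) := mul_le_mul_of_nonneg_right hlen (by positivity)
  have hD := hW.rwD (u := u) hu3 (by nlinarith)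
  have hDp : RwD (1 / 4) hh u (X ++ ex) := fun x hx => hD x (hW.perm.mem_iff.2 hx)
  have hmK : cK (1 / 4) hh * n0 ≤ c1 / 2 * m := by
    rw [← hK]
    have h3 := hm1.trans hm3
    rw [div_le_iff₀ hc10] at h3
    linarith
  have k1 := prod_low hβ0 hβ1 hd0 hd1 hhh hDp.right hbulk hW.len hmK
  rw [← hE] at k1
  constructor
  · rw [← hE]
    exact k1
  · have hW1 : ‖(W.map fun x => psi (4 / 3 * (1 - ep)) (u - x)).prod‖ ≤ Real.exp 0 := by
      rw [(hW.perm.map fun x => psi (4 / 3 * (1 - ep)) (u - x)).prod_eq]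
      refine k1.trans (Real.exp_le_exp.2 ?_)
      have : 0 ≤ c1 / 2 * (m * E) := by positivity
      linarith
    have hlW : (W.length : ℝ) ≤ (3 + n0) * m := by
      have h3 : W.length = X.length + ex.length := by
        rw [hW.perm.length_eq, List.length_append]
      have h4 : (X.length : ℝ) ≤ 3 * m := by exact_mod_cast hW.up
      have h5 : (ex.length : ℝ) ≤ n0 := by exact_mod_cast hW.len
      rw [h3]
      push_cast
      nlinarith
    have h3 := (phi_up hβ0 hβ1 hd0 hd1 hhh hD (by omega : 1 ≤ m) (by positivity) le_rfl hlW hW1).2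
    have h4 : NUO.cut m (4 / 3 * (1 - ep)) u.im ≤ m * E := by
      unfold NUO.cut
      rw [← hE]
      exact min_le_right _ _
    have h5 : 0 ≤ cU (1 / 4) hh (3 + n0) 0 := by
      unfold cU
      rw [← hK]
      positivity
    rw [← hE]
    refine h3.trans ((mul_le_mul_of_nonneg_left h4 h5).trans ?_)
    exact mul_le_mul_of_nonneg_right (by linarith) (by positivity)

end point

/-! ### the admissible cutoff -/

open NUO (Tb)
open NUGC.PLX (OB)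

/-- the point of the curve over a flat sea -/
theorem pt_flat [SeaC] [Fil] (h0 : Cv.eta = fun _ => (0 : ℝ)) (η : ℝ → ℝ) (a : Bool) (t : ℝ) :
    (ptC (dsp η) a t).re = NUP1.l - Fil.cv a η t ∧ (ptC (dsp η) a t).im = t := by
  have eu : ptC (dsp η) a t = NUMF.l + Complex.I * Cv.zt (Cv.gD (Fil.cv a η)) t := ptC_dsp η a t
  have hd : deriv (Cv.eta) t = 0 := by rw [h0]; simp
  have e1 : (Cv.zt (Cv.gD (Fil.cv a η)) t).im = Cv.eta t + Fil.cv a η t := by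
    simp [Cv.zt, Cv.gD, Cv.ga, NUKer.iD]
  have e2 : (Cv.zt (Cv.gD (Fil.cv a η)) t).re - t = -(Fil.cv a η t * deriv Cv.eta t) := by
    simp [Cv.zt, Cv.gD, Cv.ga, NUKer.iD]
  have e3 : Cv.eta t = 0 := by rw [h0]
  rw [hd, mul_zero, neg_zero, sub_eq_zero] at e2
  rw [e3, zero_add] at e1
  have hll : NUP1.l = NUMF.l := rfl
  rw [eu, hll]
  constructor
  · simp [e1, sub_eq_add_neg]
  · simp [e2]

private lemma fin3 {C Q m m' E : ℝ} (hC : 1 ≤ C) (h2 : m' ≤ Q * m) (hE : 0 ≤ E) :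
    C * (m' * E) ≤ C * Q * (m * E) := by
  have h3 : C * Q * (m * E) = C * (Q * m * E) := by ring
  rw [h3]
  exact mul_le_mul_of_nonneg_left (mul_le_mul_of_nonneg_right h2 hE) (zero_le_one.trans hC)

/-- **one admissible cutoff for all contents on the axis over the flat seas** -/
theorem exists_cutRA [Fil] (SB : SeaCB) {ep e1 : ℝ} (hep : 0 < ep) (hep1 : ep ≤ 1 / 100)
    (he : 0 < e1) (n0 : ℕ) {hh : ℝ} (hhh : 0 ≤ hh) {Q : ℝ} (hQ : 1 ≤ Q) :
    ∃ C0 : ℝ, 1 ≤ C0 ∧ ∃ m0 : ℕ, 1 ≤ m0 ∧ ∀ m ≥ m0, ∃ cr Bc Bc' : ℝ → ℝ,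
      ∀ [SeaC] [SeaCU SB], CutC ep C0 ((1 - e1) * Tb (Real.log m)) m cr Bc Bc' ∧
      (Cv.eta = (fun _ => (0 : ℝ)) → ∀ m' : ℕ, m ≤ m' → (m' : ℝ) ≤ Q * m → ∀ X W ex : List ℂ,
        RwA n0 hh m' X W ex → ∀ η : ℝ → ℝ, (∀ t, 0 ≤ η t) → (∀ t, |η t| ≤ NUMF.l / 1000) → ∀ (a : Bool) (t : ℝ),
          ‖NUP1.phi (4 / 3 * (1 - ep)) W (ptC (dsp η) a t)‖ ≤ cr t) := by
  have hll : NUP1.l = NUMF.l := rfl
  have hl := NUMF.l_pos
  obtain ⟨c, C, hc, hC, m1, hm1, H⟩ := exists_cutAx hep hep1 n0 hhh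
  have hCQ : 1 ≤ C * Q := by nlinarith
  obtain ⟨C0, hC0, m2, hm2, H2⟩ := @PotH.PLX.exists_crM NUSea.seaP ep c (C * Q) hep hep1 hc hCQ e1 he
  obtain ⟨Q', hQ', H3⟩ := cutC_of_cutR SB
  refine ⟨Q' * C0, by nlinarith, max m1 m2, hm1.trans (le_max_left _ _), fun m hm => ?_⟩
  have hmm1 : m1 ≤ m := (le_max_left _ _).trans hm
  have hmm2 : m2 ≤ m := (le_max_right _ _).trans hm
  obtain ⟨cr, Bc, Bc', hcut, hle⟩ := H2 m hmm2
  refine ⟨cr, Bc, Bc', @fun _ hS => ⟨H3 hcut, ?_⟩⟩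
  intro hflat m' h1 h2 X W ex hW η hη0 hη a t
  obtain ⟨p1, p2⟩ := pt_flat hflat η a t
  have p3 := Fil.cv_nonneg (a := a) (hη0 t)
  have p4 := (abs_le.1 (Fil.abs_cv_le_of (a := a) (hη t))).2
  obtain ⟨u, hu⟩ : ∃ u, u = ptC (dsp η) a t := ⟨_, rfl⟩
  rw [← hu] at p1 p2 ⊢
  obtain ⟨k1, k2⟩ := H m' (hmm1.trans h1) X W ex hW u (by
      rw [p1, hll]
      have : 0 < ep * NUMF.l / 4 := by positivity
      linarith) (by
      rw [p1, hll]
      linarith)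
  rw [p2] at k1 k2
  have hmr : (m : ℝ) ≤ m' := by exact_mod_cast h1
  have hm0 : (0 : ℝ) ≤ m := Nat.cast_nonneg m
  have hEt := Real.exp_pos (-(8 / 3 * (1 - ep)) * |t|)
  refine hle t _ ?_ ?_
  · rw [phi_prA hW]
    refine (norm_sub_le _ _).trans ?_
    rw [norm_one]
    refine add_le_add le_rfl (k1.trans (Real.exp_le_exp.2 (neg_le_neg ?_)))
    exact mul_le_mul_of_nonneg_left (mul_le_mul_of_nonneg_right hmr hEt.le) hc.le
  · exact k2.trans (fin3 hC h2 hEt.le)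

/-- **`CutBC` of the one body data with the cutoffs of a content on the axis** -/
theorem cutBC_ax [Fil] [Ends] (SB : SeaCB) {ep e1 : ℝ} (hep : 0 < ep) (hep1 : ep ≤ 1 / 100)
    (he : 0 < e1) (he1 : e1 ≤ 1 / 100) {J : ℝ} (hJ : 0 ≤ J) (n0 : ℕ) {hh : ℝ} (hhh : 0 ≤ hh) :
    ∃ C0 : ℝ, 1 ≤ C0 ∧ ∃ m0 : ℕ, ∀ m ≥ m0, ∀ [SeaC] [SeaCU SB] (B : OB) (X W ex : Bool → List ℂ),
      Cv.eta = (fun _ => (0 : ℝ)) → (∀ a, B.φ a = NUP1.phi (4 / 3 * (1 - ep)) (W a)) →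
      (∀ a, RwA n0 hh (Fil.ne a m) (X a) (W a) (ex a)) →
      CutBC ep e1 C0 m (Cv.etaC e1 J m m) B := by
  obtain ⟨C0, hC0, m1, hm1, H⟩ := exists_cutRA SB hep hep1 he n0 hhh Fil.one_le_qor
  obtain ⟨Cc, hCc, m2, hm2, hcrv⟩ := exists_crvC SB (J := J) he he1 hJ
  refine ⟨C0, hC0, max m1 m2, fun m hm S hS B X W ex hflat hφ hW => ?_⟩
  have a1 : m1 ≤ m := (le_max_left _ _).trans hm
  obtain ⟨hT, hη⟩ := hcrv m ((le_max_right _ _).trans hm)
  obtain ⟨cr, Bc, Bc', h⟩ := H m a1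
  obtain ⟨h1, h2⟩ := @h S hS
  refine ⟨cr, Bc, Bc', h1, fun a t => ?_⟩
  rw [hφ a]
  exact h2 hflat _ (Fil.le_ne a m) (Fil.ner_le_qo a (hm1.trans a1)) (X a) (W a) (ex a) (hW a) _ hη.nn hη.le a t

end PLT

end
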