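import Pool.Agent.PLT.OneTFw
import Pool.Agent.PHK.UseW
import Pool.Agent.NUBR.Z1

/-!
# Sea on a curve: the gas of the perturbed one body data

* `gasIC_obE`: the gas of the perturbed data `obE6 B r M`, `1 - δ ≤ r ≤ 1 + δ`, is at most `(1 + δ) ^ (p + q)`
  times the gas of `B`;
* `Prt ι`: an index with perturbed one body functions `Z` at the parameter `ep`, factor `r`, additional weight `M`
  of `T`, size `δ`; `PrtOk`: the conditions; **`FamC.prt`**: the family of the perturbed functions;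
* **`gasFC_prt`**: its gas bound from the one of the family; `oneTF_prt`: the one body bound from `DatF`;
* **`ux_prt`**: the bounds `UXC` of the perturbed family; **`cutSupC`**: the supremum over the perturbations.
-/

set_option autoImplicit false
set_option linter.unusedSectionVars false
set_option linter.unusedVariables false

noncomputable section

open Complex MeasureTheory Finset
open scoped ENNReal
open PLX (Fil Ends)

namespace PLT

open NUO NUP1 NUP1S NUP1S.Ab NUP1S.AbC PHK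
open NUGC.PLX (OB)
open PBF.PLX (InsE dN)
open NUDispW (win)
open PotH.PLX (sN)
open NUR2 (Cfg)

/-! ### the perturbed gas -/

/-- the quanta, any factor: inequality -/
theorem qAC_obE_le {B : OB} (hB : B.Nn) (P : Par6) {r' : Bool → ℂ → ℝ} {δ : ℝ}
    (hr : RE6 r' δ) (hδ1 : δ ≤ 1) (M : Bool → ℝ → ℝ) (D : Bool → ℝ → ℂ) {r : ℕ} (O : Fin r → Xo) (a : Bool)
    (t : ℝ) : 0 ≤ qAC (obE6 B r' M) P D O a t ∧
      qAC (obE6 B r' M) P D O a t ≤ (1 + δ) * qAC B P D O a t := by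
  have hpi := Real.pi_pos
  have h1 := hB a (ptC D a t)
  have h2 : 0 ≤ ∏ i, potN6 P O i a (ptC D a t) :=
    prod_nonneg fun i _ => potN6_nonneg _ _ _ _ _
  have h3 := hr a (ptC D a t)
  have h4 : qAC (obE6 B r' M) P D O a t = r' a (ptC D a t) * qAC B P D O a t := by
    show (2 * Real.pi)⁻¹ * (r' a (ptC D a t) * B.R a (ptC D a t) * ‖B.φ a (ptC D a t)‖) * _ =
      _ * ((2 * Real.pi)⁻¹ * (B.R a (ptC D a t) * ‖B.φ a (ptC D a t)‖) * _)
    ring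
  have h5 : 0 ≤ qAC B P D O a t := by
    unfold qAC
    clear * - h1 h2
    positivity
  rw [h4]
  exact ⟨mul_nonneg (by linarith [h3.1]) h5, mul_le_mul_of_nonneg_right h3.2 h5⟩

/-- **the gas of the perturbed one body data** -/
theorem gasIC_obE {B : OB} (hB : B.Nn) (P : Par6) {r' : Bool → ℂ → ℝ} {δ : ℝ}
    (hr : RE6 r' δ) (hδ : 0 ≤ δ) (hδ1 : δ ≤ 1) (M : Bool → ℝ → ℝ) (D D1 : Bool → ℝ → ℂ) {r : ℕ}
    (O : Fin r → Xo) (p q : ℕ) (ψ : (Fin p → ℝ) × (Fin q → ℝ) → ℝ≥0∞) :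
    gasIC (obE6 B r' M) P D D1 O p q ψ ≤
      ENNReal.ofReal ((1 + δ) ^ (p + q)) * gasIC B P D D1 O p q ψ := by
  have h0 : (0 : ℝ) ≤ (1 + δ) ^ (p + q) := by positivity
  have hq := fun a t => qAC_obE_le hB P hr hδ1 M D O a t
  have e : ∀ x : (Fin p → ℝ) × (Fin q → ℝ),
      ENNReal.ofReal (NU42.WO (D true) (D1 true) (D false) (D1 false) (qAC (obE6 B r' M) P D O true)
        (qAC (obE6 B r' M) P D O false) x.1 x.2) * ψ x ≤
      ENNReal.ofReal ((1 + δ) ^ (p + q)) *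
        (ENNReal.ofReal (NU42.WO (D true) (D1 true) (D false) (D1 false) (qAC B P D O true)
          (qAC B P D O false) x.1 x.2) * ψ x) := by
    intro x
    rw [← mul_assoc, ← ENNReal.ofReal_mul h0, ← NUBR.WO_smul]
    refine mul_le_mul' (ENNReal.ofReal_le_ofReal ?_) le_rfl
    exact NUBR.WO_mono _ _ _ _ (fun t => (hq true t).1) (fun t => (hq false t).1)
      (fun t => (hq true t).2) (fun t => (hq false t).2) _ _
  unfold gasIC
  calc _ ≤ ((p.factorial : ℝ≥0∞) * q.factorial)⁻¹ * ∫⁻ x : (Fin p → ℝ) × (Fin q → ℝ),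
        ENNReal.ofReal ((1 + δ) ^ (p + q)) *
        (ENNReal.ofReal (NU42.WO (D true) (D1 true) (D false) (D1 false) (qAC B P D O true)
          (qAC B P D O false) x.1 x.2) * ψ x) :=
        mul_le_mul' le_rfl (lintegral_mono e)
    _ = _ := by
        rw [lintegral_const_mul' _ _ ENNReal.ofReal_ne_top]
        ring

/-- `(1 + δ) ^ N ≤ e ^ c` for `N ≤ c m`, `δ ≤ 1 / m` -/
theorem pow_obC {δ : ℝ} (hδ : 0 ≤ δ) {m N : ℕ} {c : ℝ} (hm : 1 ≤ m) (hN : (N : ℝ) ≤ c * m)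
    (h : δ ≤ 1 / (m : ℝ)) : (1 + δ) ^ N ≤ Real.exp c := by
  have hmp : (0 : ℝ) < m := by exact_mod_cast hm
  calc (1 + δ) ^ N ≤ Real.exp δ ^ N :=
        pow_le_pow_left₀ (by linarith) (by linarith [Real.add_one_le_exp δ]) N
    _ = Real.exp (N * δ) := by rw [Real.exp_nat_mul]
    _ ≤ Real.exp c := by
        refine Real.exp_le_exp.2 ?_
        calc (N : ℝ) * δ ≤ (c * m) * (1 / m) := mul_le_mul hN h hδ (by
              have : (0 : ℝ) ≤ N := Nat.cast_nonneg N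
              linarith)
          _ = c := by field_simp

/-! ### the perturbed family -/

/-- an index with perturbed one body functions at the parameter `ep`, factor, additional weight of `T`, size -/
structure Prt (ι : Type) where
  /-- the index -/
  i : ι
  /-- the parameter -/
  ep : ℝ
  /-- the one body functions -/
  Z : Bool → Option O3 → ℂ → ℂ
  /-- the factor of the rows -/
  r : Bool → ℂ → ℝ
  /-- the additional weight of `T` -/
  M : Bool → ℝ → ℝ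
  /-- the size -/
  δ : ℝ

variable {ι : Type}

open Classical in
/-- the perturbed one body data -/
def obP (B : ℝ → ℕ → ι → OB) (ep : ℝ) (m : ℕ) (p : Prt ι) : OB :=
  if ep = p.ep then obE6 (B ep m p.i) p.r p.M else B ep m p.i

theorem obP_eq (B : ℝ → ℕ → ι → OB) (m : ℕ) (p : Prt ι) :
    obP B p.ep m p = obE6 (B p.ep m p.i) p.r p.M := by
  unfold obP
  rw [if_pos rfl]

theorem obP_ne {B : ℝ → ℕ → ι → OB} {ep : ℝ} {m : ℕ} {p : Prt ι} (h : ep ≠ p.ep) :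
    obP B ep m p = B ep m p.i := by
  unfold obP
  rw [if_neg h]

/-- **the conditions of a perturbation**, strip of the curves `-(h1 + ep/4) .. h0 + ep/4` -/
structure PrtOk (F : FamC ι) (P : Par6) (B : ℝ → ℕ → ι → OB) (pT : ℕ → ι → Bool → ℝ → ℝ) (CM h1 h0 : ℝ)
    (m : ℕ) (p : Prt ι) : Prop where
  ok : F.ok m p.i
  d0 : 0 ≤ p.δ
  d1 : p.δ ≤ 1 / (m : ℝ)
  d2 : p.δ ≤ 1 / 2
  re : RE6 p.r p.δ
  M0 : ∀ a t, 0 ≤ p.M a t
  M1 : ∀ a t, Real.exp (pT m p.i a t) * p.M a t ≤ CM * cut m (4 / 3 * (1 - p.ep)) t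
  cls : ∃ (κ x0 : ℝ) (Q : ℤ) (E : Set ℝ), OneCC p.Z (obE6 (B p.ep m p.i) p.r p.M) P (-(h1 + p.ep / 4))
    (h0 + p.ep / 4) κ x0 Q E

open Classical in
/-- **the family of the perturbed functions** -/
def FamC.prt (F : FamC ι) (P : Par6) (B : ℝ → ℕ → ι → OB) (pT : ℕ → ι → Bool → ℝ → ℝ) (CM h1 h0 : ℝ) :
    FamC (Prt ι) where
  Z ep m p := if ep = p.ep then p.Z else F.Z ep m p.i
  Pf m p := F.Pf m p.i
  top := F.top
  ok m p := PrtOk F P B pT CM h1 h0 m p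
  bd m p := F.bd m p.i
  D e1 J m p := F.D e1 J m p.i
  D1 e1 J m p := F.D1 e1 J m p.i
  dc m p := F.dc m p.i
  lo := F.lo
  hi := F.hi

variable [Fil] [Ends] {F : FamC ι} {P : Par6} {S : ℕ → ι → SeaC} {B : ℝ → ℕ → ι → OB}
  {pT : ℕ → ι → Bool → ℝ → ℝ} {CM h1 h0 : ℝ}

/-- **the gas of the perturbed family** -/
theorem gasFC_prt {Ec : ℝ → ℝ → ℝ → ℕ → ι → (r : ℕ) → (Fin r → Xo) → ℝ} {lin : ℝ → ℝ → ℕ → ι → ℝ}
    (hn : ∀ ep m i, F.ok m i → (B ep m i).Nn) (h : GasFC F P S B Ec lin) :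
    GasFC (F.prt P B pT CM h1 h0) P (fun m p => S m p.i) (obP B) (fun ep e1 J m p => Ec ep e1 J m p.i)
      (fun e1 J m p => lin e1 J m p.i) := by
  obtain ⟨K, Ca, hK, hCa, h⟩ := h
  refine ⟨K, Ca, hK, hCa, fun A0 hA0 kap hkap ep hep hep1 e1 he he1 J hJ δ hδ => ?_⟩
  obtain ⟨d, Cst, Cg, hd, hCst, hCg, ms, hM⟩ := h A0 hA0 kap hkap ep hep hep1 e1 he he1 J hJ δ hδ
  obtain ⟨c, hc⟩ : ∃ c : ℝ, c = 30 + 5 * ((Fil.qo : ℕ) : ℝ) + 4 * (6 + (Fil.qo : ℕ)) := ⟨_, rfl⟩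
  refine ⟨d, Real.exp c * Cst, Cg, hd, by positivity, hCg, max ms 1, ?_⟩
  intro m hm p hp b' hb' n hn' r O hr g1 g2 hcnt Ψ w D hw hD hpoly hstat
  have m1 : ms ≤ m := (le_max_left _ _).trans hm
  have m2 : 1 ≤ m := (le_max_right _ _).trans hm
  have key := hM m m1 p.i hp.ok b' hb' n hn' r O hr g1 g2 hcnt Ψ w D hw hD hpoly hstat
  have hN : ((nA6 n O true + nA6 (n + Fil.xe m) O false : ℕ) : ℝ) ≤ c * m := by
    have a1 := nA6_leC O true g1
    have a2 := nA6_leC O false g2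
    have a3 : (Fil.xe m : ℝ) ≤ (Fil.qo : ℕ) * m := by exact_mod_cast Fil.xe_le_qo m2
    have a4 : (n : ℝ) ≤ 3 * m := by exact_mod_cast hn'
    have a5 : (r : ℝ) ≤ 2 * (2 * n + Fil.xe m) := by exact_mod_cast hr
    have a6 : (0 : ℝ) ≤ m := Nat.cast_nonneg m
    push_cast at a1 a2 ⊢
    rw [hc]
    nlinarith
  have hp' := pow_obC hp.d0 m2 hN hp.d1
  have hcp : 1 ≤ Real.exp c := Real.one_le_exp (by
    rw [hc]
    positivity)
  obtain ⟨N, hNd⟩ : ∃ N, N = nA6 n O true + nA6 (n + Fil.xe m) O false := ⟨_, rfl⟩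
  have hg : gasIC (obP B ep m p) P (F.D e1 J m p.i) (F.D1 e1 J m p.i) O (nA6 n O true)
      (nA6 (n + Fil.xe m) O false) Ψ ≤ ENNReal.ofReal (Real.exp c) *
        gasIC (B ep m p.i) P (F.D e1 J m p.i) (F.D1 e1 J m p.i) O (nA6 n O true)
          (nA6 (n + Fil.xe m) O false) Ψ := by
    by_cases he : ep = p.ep
    · rw [he, obP_eq]
      refine (gasIC_obE (hn p.ep m p.i hp.ok) P hp.re hp.d0 (by linarith [hp.d2]) p.M (F.D e1 J m p.i)
        (F.D1 e1 J m p.i) O (nA6 n O true) (nA6 (n + Fil.xe m) O false) Ψ).trans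
        (mul_le_mul' (ENNReal.ofReal_le_ofReal hp') le_rfl)
    · rw [obP_ne he]
      refine le_mul_of_one_le_left zero_le ?_
      rw [← ENNReal.ofReal_one]
      exact ENNReal.ofReal_le_ofReal hcp
  show ENNReal.ofReal (Real.exp (b' * ((m : ℝ) - n))) *
        gasIC (obP B ep m p) P (F.D e1 J m p.i) (F.D1 e1 J m p.i) O (nA6 n O true)
          (nA6 (n + Fil.xe m) O false) Ψ ≤ _
  obtain ⟨G, hG⟩ : ∃ G, G = gasIC (B ep m p.i) P (F.D e1 J m p.i) (F.D1 e1 J m p.i) O (nA6 n O true)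
    (nA6 (n + Fil.xe m) O false) Ψ := ⟨_, rfl⟩
  rw [← hG] at hg key
  calc _ ≤ ENNReal.ofReal (Real.exp (b' * ((m : ℝ) - n))) * (ENNReal.ofReal (Real.exp c) * G) :=
        mul_le_mul' le_rfl hg
    _ = ENNReal.ofReal (Real.exp c) * (ENNReal.ofReal (Real.exp (b' * ((m : ℝ) - n))) * G) := by
        ring
    _ ≤ ENNReal.ofReal (Real.exp c) * _ := mul_le_mul' le_rfl key
    _ = _ := by
        rw [← ENNReal.ofReal_mul (Real.exp_pos c).le]
        congr 1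
        ring

/-- **the one body bound of the perturbed family** -/
theorem oneTF_prt {SB : SeaCB} (hP : GoodP6 P) (hu : ∀ m i, F.ok m i → @SeaCU SB (S m i))
    (hn : ∀ ep m i, F.ok m i → (B ep m i).Nn) (hCM : 0 ≤ CM) (h : DatF F P B S pT) :
    OneTF (F.prt P B pT CM h1 h0) P (obP B) fun ep e1 J m p r O j =>
      @oneHC (S m p.i) _ _ P m (@Cv.etaC (S m p.i) e1 J m m) (TW ep e1 m) r O j := by
  obtain ⟨C, τ, κ, hC, hκ, rw', pr, ⟨m2, hM⟩, hB⟩ := h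
  have haS := NUO.aS_pos
  obtain ⟨W0, hW0⟩ : ∃ W0 : ℝ, W0 = cKBC C := ⟨_, rfl⟩
  have hW0p : 0 < W0 := by
    rw [hW0]
    exact cKBC_pos hC
  refine oneTF_wkb (B0 := 16 * (W0 + NUO.aS * C ^ 4 * CM)) τ hκ (by positivity)
    ⟨m2, fun m hm p hp => (hM m hm p.i hp.ok).2⟩
    (E := fun m p => clK (@Cv.clo (S m p.i) (sN m)) P) (fun ep hep hep1 => ?_) (Kc := 0)
    fun e1 he he1 J hJ => ⟨1, fun m hm p hp ep r O j => oneHC_le (hu m p.i hp.ok) hm ep O j⟩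
  obtain ⟨m0, hm0⟩ := hB ep hep hep1
  refine ⟨max m0 m2, fun m hm p hp => ?_⟩
  simp only [ge_iff_le, max_le_iff] at hm
  have hMf := (hM m hm.2 p.i hp.ok).1
  have hOb := hm0 m hm.1 p.i hp.ok
  have hW : WKBC W0 P (pr m p.i) (clK (@Cv.clo (S m p.i) (sN m)) P) m (4 / 3 * (1 - ep))
      (Tb (Real.log m) + τ) (B ep m p.i) := by
    rw [hW0]
    exact wkbC_of hC (by linarith) hMf hOb
  by_cases he : ep = p.ep
  · have e := obP_eq B m p
    rw [← he] at e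
    rw [e]
    have he13 := hP.e13
    refine ⟨wkbC_obE6 hOb hMf hC.le (by linarith) hW hp.re hp.d0 hp.d2 hp.M0 hCM fun a t => ?_,
      obE6_nn (hn ep m p.i hp.ok) hp.re (by linarith [hp.d2])⟩
    rw [he]
    exact hp.M1 a t
  · rw [obP_ne he]
    refine ⟨hW.mono ?_, hOb.nn⟩
    have : 0 ≤ NUO.aS * C ^ 4 * CM := by positivity
    linarith

/-- the class of the perturbed family -/
theorem clsF_prt (hC : ClsF F P B h1 h0) : ClsF (F.prt P B pT CM h1 h0) P (obP B) h1 h0 where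
  top := hC.top
  xe := hC.xe
  nn ep m p hp := by
    by_cases he : ep = p.ep
    · rw [he, obP_eq]
      exact obE6_nn (hC.nn p.ep m p.i hp.ok) hp.re (by linarith [hp.d2])
    · rw [obP_ne he]
      exact hC.nn ep m p.i hp.ok
  bd m p hp := hC.bd m p.i hp.ok
  cls ep hep hep1 m p hp := by
    by_cases he : ep = p.ep
    · obtain ⟨κ, x0, Q, E, h⟩ := hp.cls
      refine ⟨κ, x0, Q, E, ?_⟩
      have e1 : (F.prt P B pT CM h1 h0).Z ep m p = p.Z := by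
        show (if ep = p.ep then p.Z else F.Z ep m p.i) = _
        rw [if_pos he]
      rw [e1, he, obP_eq]
      exact h
    · obtain ⟨κ, x0, Q, E, h⟩ := hC.cls ep hep hep1 m p.i hp.ok
      refine ⟨κ, x0, Q, E, ?_⟩
      have e1 : (F.prt P B pT CM h1 h0).Z ep m p = F.Z ep m p.i := by
        show (if ep = p.ep then p.Z else F.Z ep m p.i) = _
        rw [if_neg he]
      rw [e1, obP_ne he]
      exact h
  cur ep hep hep1 e1 he0 he1 J hJ := by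
    obtain ⟨m1, h⟩ := hC.cur ep hep hep1 e1 he0 he1 J hJ
    exact ⟨m1, fun m hm p hp => h m hm p.i hp.ok⟩

theorem stabF_prt {en : ℕ → ι → (r : ℕ) → (Fin r → Xo) → ℝ} (h : StabF F P en) :
    StabF (F.prt P B pT CM h1 h0) P fun m p => en m p.i := by
  obtain ⟨C2, c1, hc1, h⟩ := h
  exact ⟨C2, c1, hc1, fun m p hp r O W => h m p.i hp.ok r O W⟩

theorem valF_prt {lin : ℝ → ℝ → ℕ → ι → ℝ} (h : ValF F lin) :
    ValF (F.prt P B pT CM h1 h0) fun e1 J m p => lin e1 J m p.i := by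
  intro e1 he he1 J hJ
  obtain ⟨C, hC', m0, h⟩ := h e1 he he1 J hJ
  exact ⟨C, hC', m0, fun m hm p hp => h m hm p.i hp.ok⟩

theorem seasC_prt {SB : SeaCB} (h : SeasC SB F S) : SeasC SB (F.prt P B pT CM h1 h0) fun m p => S m p.i where
  u m p hp := h.u m p.i hp.ok
  win m p hp := h.win m p.i hp.ok
  dc m p hp := h.dc m p.i hp.ok
  dis e1 he he1 J hJ r hr := by
    obtain ⟨W, C1, hW, hC1, m0, H⟩ := h.dis e1 he he1 J hJ r hr
    exact ⟨W, C1, hW, hC1, m0, fun m hm p hp a => H m hm p.i hp.ok a⟩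

/-- **the bounds of the perturbed family** -/
theorem ux_prt {SB : SeaCB} (hP : GoodP6 P) {en : EnC} {lin : ℝ → ℝ → ℕ → ι → ℝ}
    (hS : SeasC SB F S) (hG : GasFC F P S B (EcC P en S) lin) (hSt : StabF F P fun m i => en (S m i))
    (hD : DatF F P B S pT) (hV : ValF F lin) (hC : ClsF F P B h1 h0) (hCM : 0 ≤ CM) :
    UXC (F.prt P B pT CM h1 h0) P := by
  have hT : TopFC (F.prt P B pT CM h1 h0) P (obP B) (EcC P en fun m (p : Prt ι) => S m p.i)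
      (fun e1 J m p => lin e1 J m p.i) :=
    topFC_EcC hP (stabF_prt (en := fun m i => en (S m i)) hSt) (oneTF_prt hP hS.u hC.nn hCM hD)
      (valF_prt hV) (clsF_prt hC)
  have hG' : GasFC (F.prt P B pT CM h1 h0) P (fun m (p : Prt ι) => S m p.i) (obP B)
      (EcC P en fun m (p : Prt ι) => S m p.i) (fun e1 J m p => lin e1 J m p.i) := gasFC_prt hC.nn hG
  exact ux_ofC (clsF_prt hC).bd (seasC_prt hS) hT hG'

/-- **the supremum over the perturbations** -/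
theorem cutSupC {SB : SeaCB} (hP : GoodP6 P) {en : EnC} {lin : ℝ → ℝ → ℕ → ι → ℝ}
    (hS : SeasC SB F S) (hG : GasFC F P S B (EcC P en S) lin) (hSt : StabF F P fun m i => en (S m i))
    (hD : DatF F P B S pT) (hV : ValF F lin) (hC : ClsF F P B h1 h0)
    (hdc : ∀ m i, F.ok m i → Integrable (F.dc m i)) (hCM : 0 ≤ CM) {δ : ℝ} (hδ : 0 < δ) :
    ∃ a0 : ℝ, 0 < a0 ∧ ∀ ep : ℝ, 0 < ep → ∀ e1 : ℝ, 0 < e1 → ∀ J : ℝ, 0 ≤ J →
    Real.exp (-(2 * Real.pi * J)) + 3 * e1 + 3 * ep ≤ a0 → ∃ m0 : ℕ, ∀ m : ℕ, m0 ≤ m → ∀ i, F.ok m i →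
      ∀ (Z : Bool → Option O3 → ℂ → ℂ) (r' : Bool → ℂ → ℝ) (δ₀ : ℝ) (M : Bool → ℝ → ℝ)
        (κ x0 : ℝ) (Qc : ℤ) (E : Set ℝ),
      0 ≤ δ₀ → δ₀ ≤ 1 / (m : ℝ) → RE6 r' δ₀ → (∀ a t, 0 ≤ M a t) →
      (∀ a t, Real.exp (pT m i a t) * M a t ≤ CM * cut m (4 / 3 * (1 - ep)) t) →
      OneCC Z (obE6 (B ep m i) r' M) P (-(h1 + ep / 4)) (h0 + ep / 4) κ x0 Qc E →
      ENNReal.ofReal ‖F.Pf m i‖ * ∑ n ∈ range (F.top m + 1), FEC Z P n (n + dN (F.top m))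
          (F.cr e1 J m i) (F.cr' e1 J m i) (fun _ _ _ _ _ => 1) ≤
        ENNReal.ofReal ((m : ℝ) ^ δ * F.bd m i) := by
  obtain ⟨a0, ha0, H⟩ := ux_prt (CM := CM) hP hS hG hSt hD hV hC hCM 0 1 δ hδ
  refine ⟨a0, ha0, fun ep hep e1 he J hJ hsm => ?_⟩
  have H1 : UBC (F.prt P B pT CM h1 h0) P ep e1 J 0 1 δ := H ep e1 J hep he hJ hsm
  have hI : ∀ (m : ℕ) (p : Prt ι), (F.prt P B pT CM h1 h0).ok m p →
      Integrable ((F.prt P B pT CM h1 h0).dc m p) := fun m p hp => hdc m p.i hp.ok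
  obtain ⟨m0, H⟩ := H1.mass hI le_rfl
  refine ⟨max m0 2, fun m hm i hi Z r' δ₀ M κ x0 Qc E g0 g1 hr hM0 hM1 hcl => ?_⟩
  have k1 : m0 ≤ m := (le_max_left _ _).trans hm
  have k2 : (2 : ℝ) ≤ m := by exact_mod_cast (le_max_right m0 2).trans hm
  have hδ2 : δ₀ ≤ 1 / 2 := g1.trans (one_div_le_one_div_of_le (by norm_num) k2)
  have key := H m k1 ⟨i, ep, Z, r', M, δ₀⟩ ⟨hi, g0, g1, hδ2, hr, hM0, hM1, ⟨κ, x0, Qc, E, hcl⟩⟩
  rw [FSC_eq] at key
  have e1 : (F.prt P B pT CM h1 h0).Z ep m ⟨i, ep, Z, r', M, δ₀⟩ = Z := by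
    show (if ep = ep then Z else F.Z ep m i) = _
    rw [if_pos rfl]
  rw [e1] at key
  rw [ofReal_norm]
  exact key

/-- **the supremum over the perturbations**, straight curves, functionals of (P) -/
theorem cutSupC6 {SB : SeaCB} (hP : GoodP6 P) {en : EnC} {lin : ℝ → ℝ → ℕ → ι → ℝ}
    (hS : SeasC SB F S) (hG : GasFC F P S B (EcC P en S) lin) (hSt : StabF F P fun m i => en (S m i))
    (hD : DatF F P B S pT) (hV : ValF F lin) (hC : ClsF F P B 0 0)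
    (hdc : ∀ m i, F.ok m i → Integrable (F.dc m i)) (hCM : 0 ≤ CM) {δ : ℝ} (hδ : 0 < δ) :
    ∃ a0 : ℝ, 0 < a0 ∧ ∀ ep : ℝ, 0 < ep → ep ≤ 1 / 100 → ∀ e1 : ℝ, 0 < e1 → ∀ J : ℝ, 0 ≤ J →
    Real.exp (-(2 * Real.pi * J)) + 3 * e1 + 3 * ep ≤ a0 → ∃ m0 : ℕ, ∀ m : ℕ, m0 ≤ m → ∀ i, F.ok m i →
      ∀ η η' : ℝ → ℝ, F.D e1 J m i = dF η → F.D1 e1 J m i = dF η' →
      ∀ (Z : Bool → Option O3 → ℂ → ℂ) (r' : Bool → ℂ → ℝ) (δ₀ : ℝ) (M : Bool → ℝ → ℝ)
        (κ x0 : ℝ) (Qc : ℤ) (E : Set ℝ),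
      0 ≤ δ₀ → δ₀ ≤ 1 / (m : ℝ) → RE6 r' δ₀ → (∀ a t, 0 ≤ M a t) →
      (∀ a t, Real.exp (pT m i a t) * M a t ≤ CM * cut m (4 / 3 * (1 - ep)) t) →
      OneC6 Z (obE6 (B ep m i) r' M) P ep κ x0 Qc E →
      ∑ n ∈ range (F.top m + 1), ‖F.Pf m i‖ₑ * FA6 Z P n (n + dN (F.top m)) (fun _ _ => η)
          (fun _ _ => η') (fun _ _ _ _ _ => 1) ≤ ENNReal.ofReal ((m : ℝ) ^ δ * F.bd m i) := by
  obtain ⟨a0, ha0, H⟩ := cutSupC (CM := CM) hP hS hG hSt hD hV hC hdc hCM hδ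
  refine ⟨a0, ha0, fun ep hep hep1 e1 he J hJ hsm => ?_⟩
  obtain ⟨m0, H⟩ := H ep hep e1 he J hJ hsm
  refine ⟨m0, fun m hm i hi η η' hη hη' Z r' δ₀ M κ x0 Qc E g0 g1 hr hM0 hM1 hcl => ?_⟩
  have key := H m hm i hi Z r' δ₀ M κ x0 Qc E g0 g1 hr hM0 hM1
    (hcl.toC.sub (by linarith) (by linarith))
  have e1' : F.cr e1 J m i = fun _ _ => dF η := by
    funext r O
    exact hη
  have e2' : F.cr' e1 J m i = fun _ _ => dF η' := by
    funext r O
    exact hη'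
  rw [e1', e2', Finset.mul_sum] at key
  refine le_trans (le_of_eq ?_) key
  refine Finset.sum_congr rfl fun n _ => ?_
  rw [FEC_dF, PBF.PLX.FA_eq_FE6, ofReal_norm]
  simp only [enorm_one]

end PLT

end
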