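import Pool.Agent.PLT.PsiAg
import Pool.Agent.PLT.Rate
import Pool.Agent.PotH.CutB

/-!
# The cutoff of the rows of a content near the curve of the gas

`β = 4 / 3 ρ`, offset `v`, height `t`, places `x ≤ l / 2`:

* **`psi_beta`**: `‖psi β (vl (l - v) t - x)‖ ≤ exp (-Ag (v + (1 - ρ) (l / 2 - v) + x) (ρ t))`: the exponent
  `β < 4 / 3` is a shift of the offset to the side of the holes;
* `sum_Ag_ge`: the sum of the level functions above the curve;
* `RwC`, **`exists_cutC`**: for `v ≥ η t - ep l / 4` (`η` the curve, `η ((1 - ep) t) ≤ η t + ep l / 7`) the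
  product of the `psi` is at most `exp (- c m e^{-p |im u|})`, the cutoff at most `C m e^{-p |im u|}`,
  `p = (8 / 3) (1 - ep)`;
* **`exists_lphC`**: in the bulk the logarithm of the cutoff is analytic and tiny.
-/

set_option autoImplicit false

noncomputable section

open Complex Filter Topology

namespace PLT

open NUP1

/-! ### one row -/

theorem psi_beta {ρ : ℝ} (hρ0 : 0 < ρ) (hρ1 : ρ ≤ 1) {v x : ℝ} (hx : x ≤ l / 2) (h1 : -l < v + x)
    (hv : v ≤ l / 2) (t : ℝ) : ‖psi (4 / 3 * ρ) (vl (l - v) t - x)‖ ≤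
      Real.exp (-Ag (v + (1 - ρ) * (l / 2 - v) + x) (ρ * t)) := by
  have hl := l_pos
  have hl8 : l = Real.pi / 8 := rfl
  have hp := Real.pi_pos
  obtain ⟨w, hw⟩ : ∃ w : ℝ, w = v + (1 - ρ) * (l / 2 - v) + x := ⟨_, rfl⟩
  rw [← hw]
  have r1 : 0 ≤ (1 - ρ) * (l / 2 - v) := mul_nonneg (by linarith) (by linarith)
  have r2 : (1 - ρ) * (l / 2 - v) ≤ l / 2 - v := mul_le_of_le_one_left (by linarith) (by linarith)
  have w1 : -l < w := by linarith
  have w2 : w ≤ l := by linarith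
  have k1 : -1 < w / l := by rw [lt_div_iff₀ hl]; linarith
  have k2 : w / l < 4 := by rw [div_lt_iff₀ hl]; linarith
  have e' : w / l * l = w := by field_simp
  have q := Qps_le k1 k2 (ρ * t)
  rw [e'] at q
  refine (sq_le_sq₀ (norm_nonneg _) (Real.exp_pos _).le).1 ?_
  rw [← Real.exp_nat_mul, show ((2 : ℕ) : ℝ) * -Ag w (ρ * t) = -(2 * Ag w (ρ * t)) by push_cast; ring]
  refine le_trans ?_ q
  obtain ⟨a1, a2⟩ := abs_th_lt k1 k2
  have n1 := neg_one_lt_cos a1
  have n2 := neg_one_lt_cos a2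
  have e1 : Real.pi / 3 * (2 - w / l) = 8 / 3 * (2 * l - w) := by
    rw [hl8]; field_simp
  have e2 : Real.pi / 3 * (1 - w / l) = 8 / 3 * (l - w) := by
    rw [hl8]; field_simp
  have hT := Real.one_le_cosh (8 / 3 * (ρ * t))
  have ez : vl (l - v) t - (x : ℂ) = vl (l - (v + x)) t := by
    unfold vl
    push_cast
    ring
  have m1 : ρ * (2 * l - (v + x)) ≤ 2 * l - w := by nlinarith
  have m2 : ρ * (l - (v + x)) ≤ l - w := by nlinarith
  have c1 : Real.cos (8 / 3 * (2 * l - w)) ≤ Real.cos (2 * (4 / 3 * ρ) * (l - (v + x) + l)) := by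
    refine Real.cos_le_cos_of_nonneg_of_le_pi ?_ (by rw [hl8] at *; linarith) ?_
    · have : 0 ≤ l - (v + x) + l := by linarith
      positivity
    · nlinarith
  have c2 : Real.cos (8 / 3 * (l - w)) ≤ Real.cos (2 * (4 / 3 * ρ) * (l - (v + x))) := by
    refine Real.cos_le_cos_of_nonneg_of_le_pi ?_ (by rw [hl8] at *; linarith) ?_
    · have : 0 ≤ l - (v + x) := by linarith
      positivity
    · nlinarith
  rw [e1] at n1
  rw [e2] at n2
  rw [ez, psi_sq, vl_re, vl_im]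
  unfold Qps
  rw [e1, e2, show 2 * (4 / 3 * ρ) * t = 8 / 3 * (ρ * t) by ring]
  refine mul_le_mul (fq_anti (by linarith) c1 (by linarith)) (fq_anti (by linarith) c2 (by linarith))
    (fq_nonneg (by linarith [Real.cos_le_one (2 * (4 / 3 * ρ) * (l - (v + x)))]) (by linarith))
    (fq_nonneg (by linarith [Real.cos_le_one (8 / 3 * (2 * l - w))]) (by linarith))

theorem prod_beta {ρ : ℝ} (hρ0 : 0 < ρ) (hρ1 : ρ ≤ 1) {v : ℝ} (hv : v ≤ l / 2) (t : ℝ) (X : List ℝ)
    (hX : ∀ x ∈ X, -l < v + x ∧ x ≤ l / 2) :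
    ‖((X.map fun x : ℝ => (x : ℂ)).map fun x => psi (4 / 3 * ρ) (vl (l - v) t - x)).prod‖ ≤
      Real.exp (-(X.map fun x => Ag (v + (1 - ρ) * (l / 2 - v) + x) (ρ * t)).sum) := by
  induction X with
  | nil => simp
  | cons x X ih =>
    have i := ih fun y hy => hX y (by simp [hy])
    obtain ⟨a, b⟩ := hX x (by simp)
    rw [List.map_cons, List.map_cons, List.prod_cons, List.map_cons, List.sum_cons, norm_mul,
      neg_add, Real.exp_add]
    exact mul_le_mul (psi_beta hρ0 hρ1 b a hv t) i (norm_nonneg _) (Real.exp_pos _).le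

/-- the sum of the level functions above the curve -/
theorem sum_Ag_ge {e0 v : ℝ} (h : e0 ≤ v) (s : ℝ) (X : List ℝ)
    (hX : ∀ x ∈ X, |e0 + x| < l ∧ |v + x| < l) :
    (X.map fun x => Ag (e0 + x) s).sum + X.length * (2 * (v - e0) * Real.exp (-(8 / 3) * |s|)) ≤
      (X.map fun x => Ag (v + x) s).sum := by
  induction X with
  | nil => simp
  | cons x X ih =>
    have i := ih fun y hy => hX y (by simp [hy])
    obtain ⟨a, b⟩ := hX x (by simp)
    have h1 := Ag_slope a b (by linarith) s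
    have h2 : 2 * (v - e0) * Real.exp (-(8 / 3) * |s|) ≤ 4 / √3 / NUMF.ch s * (v + x - (e0 + x)) := by
      have h3 : √3 ≤ (2 : ℝ) := (Real.sqrt_le_left (by norm_num)).2 (by norm_num)
      have h4 : (2 : ℝ) ≤ 4 / √3 := by
        rw [le_div_iff₀ (by positivity)]
        linarith
      have h5 := exp_le_ch s
      have h6 := Real.exp_pos (-(8 / 3) * |s|)
      have h7 : 2 * Real.exp (-(8 / 3) * |s|) ≤ 4 / √3 * (1 / NUMF.ch s) :=
        mul_le_mul h4 h5 h6.le (by positivity)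
      have h8 := mul_le_mul_of_nonneg_right h7 (by linarith : (0 : ℝ) ≤ v - e0)
      calc 2 * (v - e0) * Real.exp (-(8 / 3) * |s|) = 2 * Real.exp (-(8 / 3) * |s|) * (v - e0) := by ring
        _ ≤ 4 / √3 * (1 / NUMF.ch s) * (v - e0) := h8
        _ = _ := by rw [mul_one_div]; ring
    rw [List.map_cons, List.sum_cons, List.map_cons, List.sum_cons, List.length_cons]
    push_cast
    linarith

/-! ### lists -/

/-- rows: the places `X` of the content and the further points `ex` -/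
structure RwC (n0 : ℕ) (de hh : ℝ) (m : ℕ) (X : List ℝ) (W ex : List ℂ) : Prop where
  perm : W.Perm ((X.map fun x : ℝ => (x : ℂ)) ++ ex)
  pl : ∀ x ∈ X, -((1 - de) * l) ≤ x ∧ x ≤ l / 2
  len : ex.length ≤ n0
  pt : ∀ x ∈ ex, -((1 - de) * l) ≤ x.re ∧ x.re ≤ l / 2 ∧ |x.im| ≤ hh
  up : X.length ≤ 3 * m
  dn : m ≤ X.length + n0

/-- the product of the `psi` -/
def prCu (β : ℝ) (X : List ℝ) (ex : List ℂ) (u : ℂ) : ℂ :=
  (((X.map fun x : ℝ => (x : ℂ)) ++ ex).map fun x => psi β (u - x)).prod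

theorem phi_prC {n0 m : ℕ} {de hh : ℝ} {X : List ℝ} {W ex : List ℂ} (h : RwC n0 de hh m X W ex) (β : ℝ)
    (u : ℂ) : phi β W u = 1 - prCu β X ex u := by
  unfold phi prCu
  rw [(h.perm.map fun x => psi β (u - x)).prod_eq]

theorem RwC.rwD {n0 m : ℕ} {de hh : ℝ} {X : List ℝ} {W ex : List ℂ} (h : RwC n0 de hh m X W ex)
    (hh0 : 0 ≤ hh) {u : ℂ} (h1 : l - u.re ≤ l) (h2 : -(de / 2 * l) ≤ l - u.re) :
    RwD (de / 2) hh u W := by
  have hl := l_pos
  intro x hx
  have hx' := h.perm.mem_iff.1 hx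
  rw [List.mem_append, List.mem_map] at hx'
  rw [sub_re]
  rcases hx' with ⟨y, hy, rfl⟩ | hx'
  · obtain ⟨a, b⟩ := h.pl y hy
    rw [ofReal_re, ofReal_im, abs_zero]
    refine ⟨by nlinarith, by nlinarith, hh0⟩
  · obtain ⟨a, b, c⟩ := h.pt x hx'
    exact ⟨by nlinarith, by nlinarith, c⟩

/-- the curve of the gas: small, and slowly varying under scaling -/
structure CvS (ep : ℝ) (η : ℝ → ℝ) (X : List ℝ) : Prop where
  nn : ∀ t, 0 ≤ η t
  le : ∀ t, η t ≤ l / 16
  sc : ∀ t, η ((1 - ep) * t) ≤ η t + ep * l / 7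
  lv : ∀ t, 0 ≤ (X.map fun x => Ag (η t + x) t).sum

theorem shift_ok {ep : ℝ} (h0 : 0 < ep) (h1 : ep ≤ 1 / 100) {η : ℝ → ℝ} {X : List ℝ}
    (hη : CvS ep η X) {v t : ℝ} (hv : η t - ep * l / 4 ≤ v) :
    η ((1 - ep) * t) + ep * l / 25 ≤ v + (1 - (1 - ep)) * (l / 2 - v) := by
  have hl := l_pos
  have a1 := hη.sc t
  have a2 := hη.le t
  have a3 := hη.nn t
  have a4 : 0 < ep * l := by positivity
  have a5 : ep * η t ≤ ep * (l / 16) := mul_le_mul_of_nonneg_left a2 h0.le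
  have a6 : (1 - ep) * (η t - ep * l / 4) ≤ (1 - ep) * v := mul_le_mul_of_nonneg_left hv (by linarith)
  have e : v + (1 - (1 - ep)) * (l / 2 - v) = (1 - ep) * v + ep * l / 2 := by ring
  rw [e]
  nlinarith

/-- **the cutoff near the curve of the gas** -/
theorem exists_cutC {ep : ℝ} (h0 : 0 < ep) (h1 : ep ≤ 1 / 100) (n0 : ℕ) {de hh : ℝ} (hde : 0 < de)
    (hde1 : de ≤ 1) (hhh : 0 ≤ hh) :
    ∃ c C : ℝ, 0 < c ∧ 1 ≤ C ∧ ∃ m0 : ℕ, 1 ≤ m0 ∧ ∀ m ≥ m0, ∀ (X : List ℝ) (W ex : List ℂ)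
      (η : ℝ → ℝ), RwC n0 de hh m X W ex → CvS ep η X → ∀ u : ℂ,
      η u.im - ep * l / 4 ≤ l - u.re → -(de / 2 * l) ≤ l - u.re → l - u.re ≤ l / 4 →
      ‖prCu (4 / 3 * (1 - ep)) X ex u‖ ≤
        Real.exp (-(c * (m * Real.exp (-(8 / 3 * (1 - ep)) * |u.im|)))) ∧
      ‖phi (4 / 3 * (1 - ep)) W u‖ ≤ C * (m * Real.exp (-(8 / 3 * (1 - ep)) * |u.im|)) := by
  have hl := l_pos
  have hβ0 : 0 < 4 / 3 * (1 - ep) := by nlinarith
  have hβ1 : 4 / 3 * (1 - ep) ≤ 4 / 3 := by nlinarith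
  have hd0 : 0 < de / 2 := by positivity
  have hd1 : de / 2 ≤ 1 := by linarith
  have e2 : -(8 / 3 * (1 - ep)) = -(2 * (4 / 3 * (1 - ep))) := by ring
  obtain ⟨K, hK⟩ : ∃ K, K = cK (de / 2) hh := ⟨_, rfl⟩
  have hK4 : 4 ≤ K := by rw [hK]; exact cK_ge hd0 hd1 hhh
  obtain ⟨c1, hc1⟩ : ∃ c1, c1 = ep * l / 25 := ⟨_, rfl⟩
  have hc10 : 0 < c1 := by rw [hc1]; positivity
  obtain ⟨m1, hm1⟩ := exists_nat_ge (2 * K * n0 / c1)
  refine ⟨c1 / 2, cU (de / 2) hh (3 + n0) 0 + 1, by positivity, ?_, max (2 * n0 + 1) m1,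
    le_trans (by omega) (le_max_left _ _), ?_⟩
  · have : 0 ≤ cU (de / 2) hh (3 + n0) 0 := by
      unfold cU
      rw [← hK]
      positivity
    linarith
  intro m hm X W ex η hW hη u hu1 hu2 hu3
  have hm2 : 2 * n0 + 1 ≤ m := (le_max_left _ _).trans hm
  have hm3 : (m1 : ℝ) ≤ m := by exact_mod_cast (le_max_right _ _).trans hm
  have hmr : (1 : ℝ) ≤ m := by
    have : 1 ≤ m := by omega
    exact_mod_cast this
  have hn0 : (0 : ℝ) ≤ n0 := Nat.cast_nonneg n0
  rw [e2]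
  obtain ⟨E, hE⟩ : ∃ E : ℝ, E = Real.exp (-(2 * (4 / 3 * (1 - ep))) * |u.im|) := ⟨_, rfl⟩
  have hE0 : 0 < E := by rw [hE]; exact Real.exp_pos _
  have hE1 : E ≤ 1 := by
    rw [hE, Real.exp_le_one_iff]
    have := abs_nonneg u.im
    nlinarith
  -- the bulk
  have eu : u = vl (l - (l - u.re)) u.im := by
    apply Complex.ext
    · rw [vl_re]; ring
    · rw [vl_im]
  have hX : ∀ x ∈ X, -l < l - u.re + x ∧ x ≤ l / 2 := fun x hx => by
    obtain ⟨a, b⟩ := hW.pl x hx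
    exact ⟨by nlinarith, b⟩
  have p1 := prod_beta (ρ := 1 - ep) (by linarith) (by linarith) (v := l - u.re) (by linarith) u.im X hX
  rw [← eu] at p1
  have sh := shift_ok h0 h1 hη (v := l - u.re) (t := u.im) hu1
  obtain ⟨v', hv'⟩ : ∃ v', v' = l - u.re + (1 - (1 - ep)) * (l / 2 - (l - u.re)) := ⟨_, rfl⟩
  rw [← hv'] at sh p1
  have hv1 : v' ≤ 13 / 50 * l := by
    rw [hv']
    nlinarith
  have hv2 : -(de / 2 * l) ≤ v' := by
    rw [hv']
    have : 0 ≤ (1 - (1 - ep)) * (l / 2 - (l - u.re)) := mul_nonneg (by linarith) (by linarith)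
    linarith
  have hs := sum_Ag_ge (e0 := η ((1 - ep) * u.im)) (v := v') (by
    have : 0 < ep * l / 25 := by positivity
    linarith) ((1 - ep) * u.im) X fun x hx => by
      obtain ⟨a, b⟩ := hW.pl x hx
      have a1 := hη.nn ((1 - ep) * u.im)
      have a2 := hη.le ((1 - ep) * u.im)
      have a3 : 0 < de * l := by positivity
      constructor <;> rw [abs_lt] <;> constructor <;> nlinarith
  have hlv := hη.lv ((1 - ep) * u.im)
  have eE : Real.exp (-(8 / 3) * |(1 - ep) * u.im|) = E := by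
    rw [hE, abs_mul, abs_of_pos (by linarith : 0 < 1 - ep)]
    congr 1
    ring
  rw [eE] at hs
  have hlen : (m : ℝ) / 2 ≤ X.length := by
    have h3 := hW.dn
    have h4 : m ≤ 2 * X.length := by omega
    have h5 : (m : ℝ) ≤ 2 * X.length := by exact_mod_cast h4
    linarith
  have hb : c1 * (m * E) ≤ (X.map fun x => Ag (v' + x) ((1 - ep) * u.im)).sum := by
    have h3 : c1 * E ≤ (v' - η ((1 - ep) * u.im)) * E :=
      mul_le_mul_of_nonneg_right (by rw [hc1]; linarith) hE0.le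
    have h4 : (m : ℝ) / 2 * (2 * (v' - η ((1 - ep) * u.im)) * E) ≤
        X.length * (2 * (v' - η ((1 - ep) * u.im)) * E) := by
      refine mul_le_mul_of_nonneg_right hlen ?_
      have : 0 ≤ c1 * E := by positivity
      linarith
    have h5 : c1 * (m * E) ≤ (m : ℝ) / 2 * (2 * (v' - η ((1 - ep) * u.im)) * E) := by
      have := mul_le_mul_of_nonneg_left h3 (by linarith : (0 : ℝ) ≤ m)
      linarith
    linarith
  have hbulk : ‖((X.map fun x : ℝ => (x : ℂ)).map fun x => psi (4 / 3 * (1 - ep)) (u - x)).prod‖ ≤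
      Real.exp (-(c1 * (m * Real.exp (-(2 * (4 / 3 * (1 - ep))) * |u.im|)))) := by
    rw [← hE]
    exact p1.trans (Real.exp_le_exp.2 (neg_le_neg hb))
  have hD := hW.rwD hhh (u := u) (by linarith) hu2
  have hDp : RwD (de / 2) hh u ((X.map fun x : ℝ => (x : ℂ)) ++ ex) :=
    fun x hx => hD x (hW.perm.mem_iff.2 hx)
  have hmK : cK (de / 2) hh * n0 ≤ c1 / 2 * m := by
    rw [← hK]
    have h3 := hm1.trans hm3
    rw [div_le_iff₀ hc10] at h3
    linarith
  have k1 := prod_low hβ0 hβ1 hd0 hd1 hhh hDp.right hbulk hW.len hmK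
  rw [← hE] at k1
  constructor
  · rw [← hE]
    exact k1
  · have hW1 : ‖(W.map fun x => psi (4 / 3 * (1 - ep)) (u - x)).prod‖ ≤ Real.exp 0 := by
      rw [(hW.perm.map fun x => psi (4 / 3 * (1 - ep)) (u - x)).prod_eq]
      refine k1.trans (Real.exp_le_exp.2 ?_)
      have : 0 ≤ c1 / 2 * (m * E) := by positivity
      linarith
    have hlW : (W.length : ℝ) ≤ (3 + n0) * m := by
      have h3 : W.length = X.length + ex.length := by
        rw [hW.perm.length_eq, List.length_append, List.length_map]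
      have h4 : (X.length : ℝ) ≤ 3 * m := by exact_mod_cast hW.up
      have h5 : (ex.length : ℝ) ≤ n0 := by exact_mod_cast hW.len
      rw [h3]
      push_cast
      nlinarith
    have h3 := (phi_up hβ0 hβ1 hd0 hd1 hhh hD (by omega : 1 ≤ m) (by positivity) le_rfl hlW hW1).2
    have h4 : NUO.cut m (4 / 3 * (1 - ep)) u.im ≤ m * E := by
      unfold NUO.cut
      rw [← hE]
      exact min_le_right _ _
    have h5 : 0 ≤ cU (de / 2) hh (3 + n0) 0 := by
      unfold cU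
      rw [← hK]
      positivity
    rw [← hE]
    refine h3.trans ((mul_le_mul_of_nonneg_left h4 h5).trans ?_)
    exact mul_le_mul_of_nonneg_right (by linarith) (by positivity)

/-- `psi` is analytic in the wide strip -/
theorem diff_psi_row {β δ : ℝ} (hβ0 : 0 < β) (hβ1 : β ≤ 4 / 3) (hd0 : 0 < δ) (hd1 : δ ≤ 1) {z : ℂ}
    (h1 : (-3 + δ) * l ≤ z.re) (h2 : z.re ≤ (2 - δ) * l) : DifferentiableAt ℂ (psi β) z := by
  have hl := l_pos
  have hk := kd_pos hd0 (by linarith)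
  have hk1 := kd_le hd0.le hd1
  obtain ⟨a1, a2⟩ := abs_th_de (d := 1 - z.re / l) (δ := δ)
    (by
      have : z.re / l ≤ 2 - δ := by rw [div_le_iff₀ hl]; exact h2
      linarith)
    (by
      have : -3 + δ ≤ z.re / l := by rw [le_div_iff₀ hl]; exact h1
      linarith)
  have r0 : 0 ≤ 3 * β / 4 := by positivity
  have r1 : 3 * β / 4 ≤ 1 := by linarith
  have c1 := cos_ge_kd hd0.le r0 r1 a1
  have c2 := cos_ge_kd hd0.le r0 r1 a2
  have hT := Real.one_le_cosh (2 * β * z.im)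
  obtain ⟨b1, -⟩ := fq_le_exp hT hk hk1 c1
  obtain ⟨b3, -⟩ := fq_le_exp hT hk hk1 c2
  have hkc : 0 < kd δ * Real.cosh (2 * β * z.im) := by positivity
  have e0 : Complex.normSq (Complex.cos (2 * (β : ℂ) * z + β * l) + ((Real.cos (β * l) : ℝ) : ℂ)) =
      (Real.cosh (2 * β * z.im) + Real.cos (3 * β / 4 * (Real.pi / 3 * (2 - (1 - z.re / l))))) *
      (Real.cosh (2 * β * z.im) + Real.cos (3 * β / 4 * (Real.pi / 3 * (1 - (1 - z.re / l))))) := by
    have q : z.re / l * l = z.re := by field_simp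
    have q' : z.re / l = 8 * z.re / Real.pi := by
      rw [show l = Real.pi / 8 from rfl]; field_simp
    rw [arg_eq, normSq_cos_add]
    congr 3
    · rw [q', show l = Real.pi / 8 from rfl]; field_simp; ring
    · rw [q', show l = Real.pi / 8 from rfl]; field_simp; ring
  have hne : Complex.cos (2 * (β : ℂ) * z + β * l) + Complex.cos (β * l) ≠ 0 := by
    intro h
    rw [show Complex.cos ((β : ℂ) * l) = ((Real.cos (β * l) : ℝ) : ℂ) by push_cast; rfl] at h
    rw [h, map_zero] at e0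
    have : 0 < (Real.cosh (2 * β * z.im) + Real.cos (3 * β / 4 * (Real.pi / 3 * (2 - (1 - z.re / l))))) *
      (Real.cosh (2 * β * z.im) + Real.cos (3 * β / 4 * (Real.pi / 3 * (1 - (1 - z.re / l))))) :=
      mul_pos (lt_of_lt_of_le hkc b1) (lt_of_lt_of_le hkc b3)
    linarith
  unfold psi
  exact DifferentiableAt.div (by fun_prop) (by fun_prop) hne

theorem diff_prod_row {β δ hh : ℝ} (hβ0 : 0 < β) (hβ1 : β ≤ 4 / 3) (hd0 : 0 < δ) (hd1 : δ ≤ 1) {u : ℂ}
    {X : List ℂ} (h : RwD δ hh u X) :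
    DifferentiableAt ℂ (fun u => (X.map fun x => psi β (u - x)).prod) u := by
  induction X with
  | nil => simp
  | cons x X ih =>
    obtain ⟨a, b, -⟩ := h x (by simp)
    have d1 : DifferentiableAt ℂ (fun u => psi β (u - x)) u :=
      DifferentiableAt.comp (g := psi β) (f := fun u => u - x) u
        (diff_psi_row hβ0 hβ1 hd0 hd1 a b) (by fun_prop)
    simp only [List.map_cons, List.prod_cons]
    exact d1.mul (ih h.cons)

/-- **the logarithm of the cutoff in the bulk** -/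
theorem exists_lphC {ep : ℝ} (h0 : 0 < ep) (h1 : ep ≤ 1 / 100) (n0 : ℕ) {de hh : ℝ} (hde : 0 < de)
    (hde1 : de ≤ 1) (hhh : 0 ≤ hh) {e : ℝ} (he : 0 < e) (_he1 : e ≤ 1) {A : ℝ} (hA0 : 0 < A) :
    ∃ m0 : ℕ, 1 ≤ m0 ∧ ∀ m ≥ m0, ∀ (X : List ℝ) (W ex : List ℂ) (η : ℝ → ℝ),
      RwC n0 de hh m X W ex → CvS ep η X → ∀ z : ℂ,
      |z.re| ≤ (1 - e) * (3 / 8 * Real.log m) + 5 → η z.re - ep * l / 4 ≤ z.im →
      -(de / 2 * l) ≤ z.im → z.im ≤ l / 4 →
      DifferentiableAt ℂ (fun z => Complex.log (phi (4 / 3 * (1 - ep)) W (PotH.uI z))) z ∧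
        ‖Complex.log (phi (4 / 3 * (1 - ep)) W (PotH.uI z))‖ ≤ A ∧
        ‖phi (4 / 3 * (1 - ep)) W (PotH.uI z)‖ =
          Real.exp (Complex.log (phi (4 / 3 * (1 - ep)) W (PotH.uI z))).re := by
  obtain ⟨c, C, hc, -, m1, hm1, H⟩ := exists_cutC h0 h1 n0 hde hde1 hhh
  have ht1 : Tendsto (fun m : ℕ => (m : ℝ) ^ e) atTop atTop :=
    (tendsto_rpow_atTop he).comp tendsto_natCast_atTop_atTop
  obtain ⟨m2, hm2⟩ := eventually_atTop.1 (ht1.eventually_ge_atTop
    ((4 + 2 / A) * Real.exp 14 / c))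
  refine ⟨max m1 m2, hm1.trans (le_max_left _ _), fun m hm X W ex η hW hη z hz hz1 hz2 hz3 => ?_⟩
  have hmm1 := (le_max_left m1 m2).trans hm
  have hmr : (1 : ℝ) ≤ m := by exact_mod_cast hm1.trans hmm1
  have hmp : (0 : ℝ) < m := by linarith
  have hL := Real.log_nonneg hmr
  have eo : l - (PotH.uI z).re = z.im := by rw [PotH.uI_re]; ring
  obtain ⟨k1, -⟩ := H m hmm1 X W ex η hW hη (PotH.uI z) (by rw [eo, PotH.uI_im]; exact hz1)
    (by rw [eo]; exact hz2) (by rw [eo]; exact hz3)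
  rw [PotH.uI_im] at k1
  have h2 : Real.exp (-14) * (m : ℝ) ^ (-(1 - e)) ≤ Real.exp (-(8 / 3 * (1 - ep)) * |z.re|) := by
    rw [Real.rpow_def_of_pos hmp, ← Real.exp_add]
    refine Real.exp_le_exp.2 ?_
    have h4 : 8 / 3 * (1 - ep) * |z.re| ≤ 8 / 3 * |z.re| := by
      refine mul_le_mul_of_nonneg_right ?_ (abs_nonneg _)
      linarith
    have h5 : 8 / 3 * |z.re| ≤ 8 / 3 * ((1 - e) * (3 / 8 * Real.log m) + 5) := by linarith
    nlinarith
  have h3 : (m : ℝ) * (m : ℝ) ^ (-(1 - e)) = (m : ℝ) ^ e := by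
    rw [← Real.rpow_one_add' hmp.le (by linarith)]
    congr 1
    ring
  have h4 : 4 + 2 / A ≤ c * (m * Real.exp (-(8 / 3 * (1 - ep)) * |z.re|)) := by
    have h5 := hm2 m ((le_max_right _ _).trans hm)
    rw [div_le_iff₀ hc] at h5
    have h6 : (4 + 2 / A) ≤ Real.exp (-14) * (c * (m : ℝ) ^ e) := by
      have h7 : Real.exp (-14) * ((4 + 2 / A) * Real.exp 14) ≤ Real.exp (-14) * ((m : ℝ) ^ e * c) :=
        mul_le_mul_of_nonneg_left h5 (Real.exp_pos _).le
      have h8 : Real.exp (-14) * Real.exp 14 = 1 := by rw [← Real.exp_add]; simp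
      have h9 : Real.exp (-14) * ((4 + 2 / A) * Real.exp 14) = 4 + 2 / A := by
        rw [mul_left_comm, h8, mul_one]
      rw [h9] at h7
      linarith
    refine h6.trans ?_
    rw [← h3]
    calc Real.exp (-14) * (c * (m * (m : ℝ) ^ (-(1 - e)))) =
          c * (m * (Real.exp (-14) * (m : ℝ) ^ (-(1 - e)))) := by ring
      _ ≤ _ := by gcongr
  have h5 : ‖prCu (4 / 3 * (1 - ep)) X ex (PotH.uI z)‖ ≤ min (1 / 4) (A / 2) := by
    refine k1.trans ((Real.exp_le_exp.2 (neg_le_neg h4)).trans ?_)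
    have h6 := Real.add_one_le_exp (4 + 2 / A)
    have h7 : 0 < 2 / A := by positivity
    rw [Real.exp_neg]
    refine le_min ?_ ?_
    · rw [one_div]
      exact inv_anti₀ (by norm_num) (by linarith)
    · rw [show A / 2 = (2 / A)⁻¹ by rw [inv_div]]
      exact inv_anti₀ h7 (by linarith)
  obtain ⟨x, hx⟩ : ∃ x : ℂ, x = prCu (4 / 3 * (1 - ep)) X ex (PotH.uI z) := ⟨_, rfl⟩
  rw [← hx] at h5
  have hph : phi (4 / 3 * (1 - ep)) W (PotH.uI z) = 1 + -x := by
    rw [phi_prC hW, hx]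
    ring
  have hx1 : ‖-x‖ ≤ 1 / 4 := by
    rw [norm_neg]
    exact h5.trans (min_le_left _ _)
  have hx2 : ‖-x‖ ≤ A / 2 := by
    rw [norm_neg]
    exact h5.trans (min_le_right _ _)
  have hsl : 1 + -x ∈ Complex.slitPlane := Complex.mem_slitPlane_of_norm_lt_one (by linarith)
  refine ⟨?_, ?_, ?_⟩
  · have hβ0 : 0 < 4 / 3 * (1 - ep) := by nlinarith
    have hβ1 : 4 / 3 * (1 - ep) ≤ 4 / 3 := by nlinarith
    have hD := hW.rwD hhh (u := PotH.uI z) (by rw [eo]; linarith [l_pos]) (by rw [eo]; exact hz2)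
    have hd3 : DifferentiableAt ℂ (phi (4 / 3 * (1 - ep)) W) (PotH.uI z) := by
      unfold phi
      exact (diff_prod_row hβ0 hβ1 (by positivity) (by linarith) hD).const_sub 1
    have hu : DifferentiableAt ℂ PotH.uI z := by
      unfold PotH.uI
      fun_prop
    refine DifferentiableAt.clog ?_ ?_
    · exact DifferentiableAt.comp (g := phi (4 / 3 * (1 - ep)) W) (f := PotH.uI) z hd3 hu
    · rw [hph]
      exact hsl
  · rw [hph]
    have h6 := Complex.norm_log_one_add_half_le_self (z := -x) (by linarith)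
    linarith
  · have hne : (1 + -x) ≠ 0 := Complex.slitPlane_ne_zero hsl
    rw [hph, ← Complex.norm_exp, Complex.exp_log hne]

end PLT
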