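import Pool.Agent.PLT.FarTI
import Pool.Agent.PHK.CutH6
import Pool.Agent.PB.Num

/-!
# The moved cutoffs of the first Ward identity at arbitrary rows on the imaginary axis

Rows `x : Fin m → ℂ` (`Rws0 x`), the row `i0` moves with velocity `I`, species `a`: the rows `rwq x a`
with the velocities `rwq (vv i0) a`, field `xiR x i0`, limits `xeI x i0`.

* `DWI`, `DRI`, `DSI`, `DTI`: the moved cutoffs (`DW`, `DR`, `DS6`, `DT6` of `PHK/CutH6` for any rows);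
* `flX_xiR`: the field of the row `i0` is a field `FlX6 m`;
* `tr_rows`, `tr_rowsW`: the transport condition of the rows, and with the points `I`, `-I`;
* **`CutHI`**, **`cutHI`**: bounds of the moved cutoffs, `MTI` the bound of `T`.
-/

set_option autoImplicit false
set_option linter.unusedVariables false
set_option linter.unusedSectionVars false

noncomputable section

open Complex Set

namespace PLT.Fr

open NUP1 NURow PBFar NUO PB.K11
open PBForce (xiR xiP xiM Rws0 xiR_right xiR_left xiP_le xiM_le xiP_nonneg xiM_nonneg)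
open PHK (om omA pP phO tau0)
open PBX (ph gP)
open PBC.PLX (FlX6)
open PBQ1 (vv)
open _root_.PLX (Fil)
open _root_.Pool.Agent.PLX (rwq sum_rwq cond_eq forall_rwq)

/-! ## names -/

section names
variable {n : ℕ}

theorem phi_ofFn (b : ℝ) (y : Fin n → ℂ) (u : ℂ) : NUP1.phi b (List.ofFn y) u = 1 - prd b y u := by
  unfold NUP1.phi prd
  rw [List.map_ofFn, List.prod_ofFn]
  rfl

theorem pP_ofFn (y : Fin n → ℂ) (u : ℂ) : pP (List.ofFn y) u = prd (4 / 3) y u := by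
  unfold PHK.pP prd
  rw [List.map_ofFn, List.prod_ofFn]
  rfl

theorem prd_sum (b : ℝ) (y : Fin n → ℂ) (e : Fin 2 → ℂ) (u : ℂ) :
    prd b (Sum.elim y e) u = prd b y u * (psi b (u - e 0) * psi b (u - e 1)) := by
  unfold prd
  rw [Fintype.prod_sum_type, Fin.prod_univ_two]
  rfl

/-- the cutoff of the quanta, points `e` -/
theorem ph_e (b : ℝ) (y : Fin n → ℂ) (e : Fin 2 → ℂ) (u : ℂ) :
    ph b y (gP b [e 0, e 1]) u = 1 - prd b (Sum.elim y e) u := by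
  rw [prd_sum]
  unfold PBX.ph PBX.gP prd
  simp

theorem ph_wE (b : ℝ) (y : Fin n → ℂ) (u : ℂ) :
    ph b y (gP b [I, -I]) u = 1 - prd b (Sum.elim y wE) u := ph_e b y wE u

/-- `(∂_η + ξ ∂_t) phi_b`, rows and extra points -/
def DWI (b : ℝ) (y v : Fin n → ℂ) (ξe : ℝ → ℂ) (ξ u : ℂ) : ℂ :=
  prd1 b (fun i => Sum.elim v (vE b 0 0 y v ξe) i - I * ξ) (Sum.elim y wE) u

/-- `(∂_η + ξ ∂_t) phi_{4/3}`, rows only -/
def DRI (y v : Fin n → ℂ) (ξ u : ℂ) : ℂ := prd1 (4 / 3) (fun i => v i - I * ξ) y u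

/-- `(∂_η + ξ ∂_t) (phi_0 om)`, the exponent of `om` transported -/
def DSI (y v : Fin n → ℂ) (T1 : ℝ) (ξ w : ℂ) : ℂ :=
  DRI y v ξ w * (om T1 (pP (List.ofFn y)) w * (1 + omA T1 w * NUP1.phi (4 / 3) (List.ofFn y) w))

/-- `(∂_η + ξ ∂_t)` of the cut of `T` -/
def DTI (b : ℝ) (y v : Fin n → ℂ) (ξe : ℝ → ℂ) (T1 : ℝ) (ξ w : ℂ) : ℂ :=
  DWI b y v ξe ξ w * ph b y (gP b [I, -I]) (w - l) +
    ph b y (gP b [I, -I]) w * DWI b y v ξe ξ (w - l) - DSI y v T1 ξ w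

end names

/-! ## the field -/

section field
variable {m : ℕ}

/-- the limits of the field of the row `i0` -/
def xeI (x : Fin m → ℂ) (i0 : Fin m) (σ : ℝ) : ℂ :=
  ((Real.exp (8 / 3 * (σ * (x i0).im)) / ∑ i, Real.exp (8 / 3 * (σ * (x i).im)) : ℝ) : ℂ)

theorem xeI_one (x : Fin m → ℂ) (i0 : Fin m) : (xiP x i0 : ℂ) = xeI x i0 1 := by
  unfold PBForce.xiP xeI
  simp only [one_mul]

theorem xeI_neg (x : Fin m → ℂ) (i0 : Fin m) : (xiM x i0 : ℂ) = xeI x i0 (-1) := by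
  unfold PBForce.xiM xeI
  simp only [neg_mul, one_mul, mul_neg]

/-- **the field on a line** -/
theorem fl_xiR {b : ℝ} (hb0 : 0 ≤ b) (hb : b < l) : ∃ C0 : ℝ, 1 ≤ C0 ∧ ∀ (m : ℕ) (x : Fin m → ℂ)
    (i0 : Fin m), Rws0 x → ∀ r : ℝ, |r - l| ≤ b →
      Fl m C0 (fun t => xiR x i0 (vl r t)) (xeI x i0) := by
  obtain ⟨C1, hC1, h1⟩ := xiR_right hb0 hb
  obtain ⟨C2, hC2, h2⟩ := xiR_left hb0 hb
  set C := max 1 (max (Real.exp (16 / 3)) (max C1 C2)) with hC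
  have c0 : 1 ≤ C := le_max_left _ _
  have c1 : Real.exp (16 / 3) ≤ C := (le_max_left _ _).trans (le_max_right _ _)
  have c2 : C1 ≤ C := (le_max_left _ _).trans ((le_max_right _ _).trans (le_max_right _ _))
  have c3 : C2 ≤ C := (le_max_right _ _).trans ((le_max_right _ _).trans (le_max_right _ _))
  refine ⟨C, c0, fun m x i0 hx r hr => ?_⟩
  have hm : (0 : ℝ) < m := by exact_mod_cast i0.pos
  have hdiv : ∀ {K : ℝ}, K ≤ C → K / (m : ℝ) ≤ C / m := fun hK =>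
    div_le_div_of_nonneg_right hK hm.le
  have hre : ∀ t : ℝ, |(vl r t - l).re| ≤ b := by
    intro t
    have : (vl r t - l).re = r - l := by unfold vl; simp
    rw [this]
    exact hr
  have him : ∀ t : ℝ, (vl r t).im = t := fun t => by unfold vl; simp
  have he : ∀ t : ℝ, Real.exp (-(32 / 3 * |t|)) ≤ Real.exp (-(16 / 3 * |t|)) := fun t =>
    Real.exp_le_exp.2 (by linarith [abs_nonneg t])
  refine ⟨?_, ?_⟩
  · intro σ hσ
    rcases hσ with rfl | rfl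
    · rw [← xeI_one, Complex.norm_real, Real.norm_of_nonneg (xiP_nonneg _ _)]
      exact (xiP_le hx i0).trans (hdiv c1)
    · rw [← xeI_neg, Complex.norm_real, Real.norm_of_nonneg (xiM_nonneg _ _)]
      exact (xiM_le hx i0).trans (hdiv c1)
  · intro σ hσ t ht
    rcases hσ with rfl | rfl
    · rw [one_mul] at ht ⊢
      have := h1 m x i0 hx (vl r t) (hre t) (by rw [him]; exact ht)
      rw [him] at this
      rw [← xeI_one]
      refine this.trans ?_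
      have e1 := he t
      rw [abs_of_nonneg ht] at e1 ⊢
      exact mul_le_mul (hdiv c2) e1 (Real.exp_pos _).le (by positivity)
    · have ht' : t ≤ 0 := by linarith
      have := h2 m x i0 hx (vl r t) (hre t) (by rw [him]; exact ht')
      rw [him] at this
      rw [← xeI_neg]
      refine this.trans ?_
      have e1 := he t
      rw [abs_of_nonpos ht'] at e1 ⊢
      rw [show (-1 : ℝ) * t = -t by ring]
      exact mul_le_mul (hdiv c3) e1 (Real.exp_pos _).le (by positivity)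

/-- **the field of the row `i0`** -/
theorem flX_xiR : ∃ C0 : ℝ, 1 ≤ C0 ∧ ∀ (m : ℕ) (x : Fin m → ℂ) (i0 : Fin m), Rws0 x →
    FlX6 m C0 (xiR x i0) (xeI x i0) := by
  have hl := Bd.l_pos
  obtain ⟨C0, h1, H⟩ := fl_xiR (b := 8 / 9 * l) (by positivity) (by linarith)
  refine ⟨C0, h1, fun m x i0 hx => ⟨PBC.meas_xiR _ _, fun r r0 r1 => H m x i0 hx r ?_,
    fun u u0 u1 => PBForce.xiR_diff0 hx i0 ?_⟩⟩
  · rw [abs_le]
    constructor <;> (clear * - r0 hl r1; linarith)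
  · have e : (u - l).re = u.re - l := by simp
    rw [e, abs_lt]
    constructor <;> (clear * - hl u0 u1; linarith)

/-! ## the transport condition -/

variable [Fil]

theorem Ep_ax {x : ℂ} (hr : x.re = 0) (σ : ℝ) :
    Ep σ (4 / 3) x = ((Real.exp (8 / 3 * (σ * x.im)) : ℝ) : ℂ) := by
  have e : x = (x.im : ℂ) * I := by
    apply Complex.ext <;> simp [hr]
  conv_lhs => rw [e]
  exact Ep_row x.im σ

theorem sum_vv (i0 : Fin m) (f : Fin m → ℂ) : ∑ i, vv i0 i * f i = I * f i0 := by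
  rw [Finset.sum_eq_single i0]
  · unfold PBQ1.vv
    rw [if_pos rfl]
  · intro i _ hi
    unfold PBQ1.vv
    rw [if_neg hi, zero_mul]
  · intro h
    exact absurd (Finset.mem_univ i0) h

theorem norm_vv (i0 : Fin m) : ∑ i, ‖vv i0 i‖ = 1 := by
  rw [Finset.sum_eq_single i0]
  · unfold PBQ1.vv
    rw [if_pos rfl, Complex.norm_I]
  · intro i _ hi
    unfold PBQ1.vv
    rw [if_neg hi, norm_zero]
  · intro h
    exact absurd (Finset.mem_univ i0) h

/-- the pairs row, velocity -/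
theorem sum_rwq2 {M : Type*} [AddCommMonoid M] (f : ℂ → ℂ → M) (v x : Fin m → ℂ) (a : Bool) :
    ∑ j, f (rwq v a j) (rwq x a j) = Fil.n a • ∑ i, f (v i) (x i) := by
  have h := sum_rwq (fun p : ℂ × ℂ => f p.1 p.2) (fun i => (v i, x i)) a
  rw [← h]
  refine Finset.sum_congr rfl fun j _ => ?_
  cases a <;> rfl

theorem card_rwq (a : Bool) (m : ℕ) :
    ((Fintype.card (Fin (cond a m (Fil.q * m))) : ℕ) : ℝ) = Fil.n a * m := by
  rw [Fintype.card_fin, cond_eq]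
  push_cast
  rfl

/-- **the transport condition of the rows** -/
theorem tr_rows {x : Fin m → ℂ} (hx : Rws0 x) (i0 : Fin m) {C0 : ℝ} (hC0 : 1 ≤ C0) {ξ : ℝ → ℂ}
    (hF : Fl m C0 ξ (xeI x i0)) (a : Bool) :
    TrA (4 / 3) (rwq x a) (rwq (vv i0) a) ξ (xeI x i0) (Fil.n a * C0) := by
  have hn1 : (1 : ℝ) ≤ (Fil.n a : ℕ) := by exact_mod_cast Fil.one_le_n a
  have hm : (0 : ℝ) < m := by exact_mod_cast i0.pos
  have e : (Fil.n a : ℝ) * C0 / ((Fintype.card (Fin (cond a m (Fil.q * m))) : ℕ) : ℝ) = C0 / m := by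
    rw [card_rwq, mul_div_mul_left _ _ (by linarith : (Fil.n a : ℝ) ≠ 0)]
  refine ⟨fun j => forall_rwq (P := fun w : ℂ => w.re = 0) hx.re a j, fun j =>
    forall_rwq (P := fun w : ℂ => |w.im| ≤ 2) (fun i => (hx.im i).trans one_le_two) a j, ?_, ?_,
    fun σ hσ => ?_, fun σ hσ t ht => ?_⟩
  · have h := sum_rwq (fun w : ℂ => ‖w‖) (vv i0) a
    rw [h, norm_vv, nsmul_eq_mul, mul_one]
    nlinarith
  · intro σ hσ
    rw [sum_rwq2 (fun v y => v * Ep σ (4 / 3) y), sum_rwq (fun y => Ep σ (4 / 3) y), sum_vv,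
      nsmul_eq_mul, nsmul_eq_mul]
    have h1 : ∑ i, Ep σ (4 / 3) (x i) = ((∑ i, Real.exp (8 / 3 * (σ * (x i).im)) : ℝ) : ℂ) := by
      push_cast
      refine Finset.sum_congr rfl fun i _ => ?_
      rw [Ep_ax (hx.re i)]
      push_cast
      rfl
    have h0 : (0 : ℝ) < ∑ i, Real.exp (8 / 3 * (σ * (x i).im)) :=
      Finset.sum_pos (fun i _ => Real.exp_pos _) ⟨i0, Finset.mem_univ i0⟩
    rw [h1, Ep_ax (hx.re i0)]
    unfold xeI
    have h2 : ((∑ i, Real.exp (8 / 3 * (σ * (x i).im)) : ℝ) : ℂ) ≠ 0 := by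
      exact_mod_cast h0.ne'
    rw [ofReal_div]
    obtain ⟨S, hS⟩ : ∃ S : ℂ, S = ((∑ i, Real.exp (8 / 3 * (σ * (x i).im)) : ℝ) : ℂ) := ⟨_, rfl⟩
    rw [← hS] at h2 ⊢
    field_simp
  · rw [e]
    exact hF.lim σ hσ
  · rw [e]
    exact hF.dec σ hσ t ht

/-- **the transport condition with the points `I`, `-I`** -/
theorem tr_rowsW {x : Fin m → ℂ} (hx : Rws0 x) (i0 : Fin m) {C0 : ℝ} (hC0 : 1 ≤ C0) {ξ : ℝ → ℂ}
    (hF : Fl m C0 ξ (xeI x i0)) (a : Bool) {b : ℝ} (hb : 1 ≤ b) :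
    TrA b (Sum.elim (rwq x a) wE) (Sum.elim (rwq (vv i0) a)
      (vE b 0 0 (rwq x a) (rwq (vv i0) a) (xeI x i0))) ξ (xeI x i0) (CX b (Fil.n a * C0)) := by
  have T := tr_rows hx i0 hC0 hF a
  have hn1 : 1 ≤ Fil.n a := Fil.one_le_n a
  refine tr_ext hb T.re T.im T.vel ?_ T.lim T.dec
  rw [Fintype.card_fin, cond_eq]
  exact Nat.mul_pos hn1 i0.pos

end field

/-! ## the strings -/

section strings
variable {n : ℕ} {y v : Fin n → ℂ} {C0 : ℝ}

/-- **the moved cut of the strings**, relative -/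
theorem norm_DSI_le {k : ℝ} (hk : 1 ≤ k) {ξ u : ℂ} (hr : ∀ i, (y i).re = 0)
    (hi : ∀ i, |(y i).im| ≤ 2) {T1 : ℝ} (hT3 : 3 ≤ T1) (hT : 3 / 8 * Real.log k ≤ T1)
    (hu : |u.re + l / 2| ≤ l) {c K : ℝ} (hc : 0 ≤ c) (hK : 0 ≤ K)
    (h1 : ‖DRI y v ξ u‖ ≤ c / k ^ 3 * ‖1 - prd (4 / 3) y u‖)
    (h2 : 3 ≤ |u.im| → ‖DRI y v ξ u‖ ≤
      K * Real.exp (-(8 * |u.im|)) * ‖prd (4 / 3) y u‖) :
    ‖DSI y v T1 ξ u‖ ≤ (5 * c + 2 * K) / k ^ 3 * ‖phO T1 (List.ofFn y) u‖ := by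
  have hk0 : (0 : ℝ) < k := by linarith
  have hk3 : (0 : ℝ) < k ^ 3 := by positivity
  have p2 := phi_two_ax hyp_43 hu hr hi
  have q1 : ‖prd (4 / 3) y u‖ ≤ 1 := prod_ax_one hyp_43 hu hr hi Finset.univ
  have e8 : Real.exp (-(8 * T1)) ≤ 1 / k ^ 3 := by
    have e : 1 / k ^ 3 = Real.exp (-(3 * Real.log k)) := by
      rw [Real.exp_neg, one_div, mul_comm, Real.exp_mul, Real.exp_log hk0]
      norm_cast
    rw [e]
    exact Real.exp_le_exp.2 (by linarith)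
  obtain ⟨φ, hφ⟩ : ∃ φ, φ = 1 - prd (4 / 3) y u := ⟨_, rfl⟩
  obtain ⟨D, hD⟩ : ∃ D, D = DRI y v ξ u := ⟨_, rfl⟩
  obtain ⟨A, hA⟩ : ∃ A, A = omA T1 u := ⟨_, rfl⟩
  have hA1 := PHK.norm_omA_le T1 u
  rw [← hA] at hA1
  rw [← hφ] at h1 p2
  rw [← hD] at h1 h2
  -- the product with the exponent
  have key : ‖D‖ * ‖A‖ ≤ (4 * c + 2 * K) / k ^ 3 := by
    rcases le_total |u.im| T1 with h | h
    · have b : Real.exp (11 / 2 * (|u.im| - T1)) ≤ 1 := Real.exp_le_one_iff.2 (by linarith)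
      have b2 : ‖A‖ ≤ 2 := by linarith
      have b3 : ‖D‖ ≤ c / k ^ 3 * 2 :=
        h1.trans (mul_le_mul_of_nonneg_left p2 (by positivity))
      calc ‖D‖ * ‖A‖ ≤ c / k ^ 3 * 2 * 2 :=
            mul_le_mul b3 b2 (norm_nonneg _) (by positivity)
        _ = 4 * c / k ^ 3 := by ring
        _ ≤ _ := div_le_div_of_nonneg_right (by linarith) hk3.le
    · have b1 := h2 (hT3.trans h)
      have b3 : ‖D‖ ≤ K * Real.exp (-(8 * |u.im|)) :=
        b1.trans (mul_le_of_le_one_right (by positivity) q1)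
      calc ‖D‖ * ‖A‖ ≤ (K * Real.exp (-(8 * |u.im|))) * (2 * Real.exp (11 / 2 * (|u.im| - T1))) :=
            mul_le_mul b3 hA1 (norm_nonneg _) (by positivity)
        _ = 2 * K * Real.exp (-(8 * T1) + -(5 / 2 * (|u.im| - T1))) := by
            rw [show K * Real.exp (-(8 * |u.im|)) * (2 * Real.exp (11 / 2 * (|u.im| - T1))) =
              2 * K * (Real.exp (-(8 * |u.im|)) * Real.exp (11 / 2 * (|u.im| - T1))) by ring,
              ← Real.exp_add]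
            congr 2
            ring
        _ ≤ 2 * K * Real.exp (-(8 * T1)) :=
            mul_le_mul_of_nonneg_left (Real.exp_le_exp.2 (by linarith)) (by positivity)
        _ ≤ 2 * K * (1 / k ^ 3) := mul_le_mul_of_nonneg_left e8 (by positivity)
        _ = 2 * K / k ^ 3 := by ring
        _ ≤ _ := div_le_div_of_nonneg_right (by linarith) hk3.le
  unfold DSI PHK.phO
  rw [phi_ofFn, ← hφ, ← hD, ← hA, norm_mul, norm_mul, norm_mul]
  have hb : ‖1 + A * φ‖ ≤ 1 + ‖A‖ * ‖φ‖ := by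
    refine (norm_add_le _ _).trans ?_
    rw [norm_one, norm_mul]
  obtain ⟨o, ho⟩ : ∃ o, o = ‖om T1 (pP (List.ofFn y)) u‖ := ⟨_, rfl⟩
  have ho0 : 0 ≤ o := by rw [ho]; exact norm_nonneg _
  rw [← ho]
  have k1 : ‖D‖ * (1 + ‖A‖ * ‖φ‖) ≤ (5 * c + 2 * K) / k ^ 3 * ‖φ‖ := by
    calc ‖D‖ * (1 + ‖A‖ * ‖φ‖) = ‖D‖ + ‖D‖ * ‖A‖ * ‖φ‖ := by ring
      _ ≤ c / k ^ 3 * ‖φ‖ + (4 * c + 2 * K) / k ^ 3 * ‖φ‖ :=
          add_le_add h1 (mul_le_mul_of_nonneg_right key (norm_nonneg _))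
      _ = _ := by ring
  calc ‖D‖ * (o * ‖1 + A * φ‖) ≤ ‖D‖ * (o * (1 + ‖A‖ * ‖φ‖)) := by gcongr
    _ = ‖D‖ * (1 + ‖A‖ * ‖φ‖) * o := by ring
    _ ≤ (5 * c + 2 * K) / k ^ 3 * ‖φ‖ * o := mul_le_mul_of_nonneg_right k1 ho0
    _ = _ := by ring

/-- the factor of the strings on the line of `T` -/
theorem norm_factor (hr : ∀ i, (y i).re = 0) (hi : ∀ i, |(y i).im| ≤ 2) {m : ℕ} (hm : 1 ≤ m)
    {Cl T1 : ℝ} (hC : 0 ≤ Cl) (hcard : (n : ℝ) ≤ Cl * m)
    (hT : 3 / 8 * Real.log m + tau0 2 Cl ≤ T1) (t : ℝ) :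
    ‖om T1 (pP (List.ofFn y)) (posT t) *
      (1 + omA T1 (posT t) * NUP1.phi (4 / 3) (List.ofFn y) (posT t))‖ ≤ 121 * Real.exp 3 := by
  have hl := Bd.l_pos
  have he3 := Real.exp_pos 3
  have r1 : (posT t).re = -(1 / 2 * l) := PB.K11.posT_re t
  have hu : |(posT t).re + l / 2| ≤ l := by
    rw [r1, show -(1 / 2 * l) + l / 2 = 0 by ring, abs_zero]
    exact hl.le
  have ho : |(posT t).re + 31 / 32 * NUMF.l| ≤ 77 / 160 * NUMF.l :=
    PHK.range_win (by rw [r1]; show -(29 / 20 * l) ≤ _; linarith)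
      (by rw [r1]; show _ ≤ -(l / 2); linarith)
  have hP1 : |(posT t).im| ≤ T1 → ‖pP (List.ofFn y) (posT t)‖ ≤ 1 := fun _ => by
    rw [pP_ofFn]
    exact prod_ax_one hyp_43 hu hr hi Finset.univ
  have hRw : PBO.PLX.RwL n 2 0 (List.ofFn y) (List.ofFn y) :=
    ⟨by simp, by rw [List.length_ofFn], fun w hw => by
      obtain ⟨i, rfl⟩ := List.mem_ofFn.1 hw
      rw [hr i, abs_zero]
      exact (half_pos NUMF.l_pos).le, fun w hw => by
      obtain ⟨i, rfl⟩ := List.mem_ofFn.1 hw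
      exact hi i⟩
  have hP2 : T1 ≤ |(posT t).im| → ‖pP (List.ofFn y) (posT t) - 1‖ ≤ 1 / 5 := fun h =>
    PHK.pP_vac zero_le_two hRw hC hm (by rw [List.length_ofFn]; exact hcard) hu hT h
  have o1 : ‖om T1 (pP (List.ofFn y)) (posT t)‖ ≤ Real.exp 3 := by
    refine (PHK.norm_om_le ho hP1 hP2).trans (mul_le_of_le_one_right he3.le ?_)
    rw [Real.exp_le_one_iff]
    have := Real.exp_pos (11 / 2 * (|(posT t).im| - T1))
    linarith
  have o2 : ‖omA T1 (posT t)‖ * ‖om T1 (pP (List.ofFn y)) (posT t)‖ ≤ 60 * Real.exp 3 := by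
    refine (PHK.norm_omA_om ho hP1 hP2).trans (mul_le_of_le_one_right (by positivity) ?_)
    rw [Real.exp_le_one_iff]
    have := Real.exp_pos (11 / 2 * (|(posT t).im| - T1))
    linarith
  have o3 : ‖NUP1.phi (4 / 3) (List.ofFn y) (posT t)‖ ≤ 2 := by
    rw [phi_ofFn]
    exact phi_two_ax hyp_43 hu hr hi
  obtain ⟨o, eo⟩ : ∃ o, o = om T1 (pP (List.ofFn y)) (posT t) := ⟨_, rfl⟩
  obtain ⟨A, eA⟩ : ∃ A, A = omA T1 (posT t) := ⟨_, rfl⟩
  obtain ⟨φ, eφ⟩ : ∃ φ, φ = NUP1.phi (4 / 3) (List.ofFn y) (posT t) := ⟨_, rfl⟩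
  rw [← eo] at o1 o2
  rw [← eA] at o2
  rw [← eφ] at o3
  rw [← eo, ← eA, ← eφ]
  have e : o * (1 + A * φ) = o + A * o * φ := by ring
  rw [e]
  have k1 := norm_add_le o (A * o * φ)
  rw [norm_mul, norm_mul] at k1
  have k2 : ‖A‖ * ‖o‖ * ‖φ‖ ≤ 60 * Real.exp 3 * 2 := mul_le_mul o2 o3 (norm_nonneg _) (by positivity)
  linarith

end strings

/-! ## the moved cutoffs of the two species -/

/-- the bound of `T` -/
def MTI {N : Bool → ℕ} (K b : ℝ) (y : ∀ a, Fin (N a) → ℂ) (a : Bool) (t : ℝ) : ℝ :=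
  K * ((N a : ℝ) ^ (-(9 / 4 * b)) * min 1 ((N a : ℝ) * Real.exp (-(8 / 3) * |t|))) * eMy (y a) t

theorem MTI_nonneg {N : Bool → ℕ} {K : ℝ} (hK : 0 ≤ K) (b : ℝ) (y : ∀ a, Fin (N a) → ℂ) (a : Bool)
    (t : ℝ) : 0 ≤ MTI K b y a t := by
  have h1 := (eMy_pos (y a) t).le
  have h2 : 0 ≤ (N a : ℝ) ^ (-(9 / 4 * b)) := Real.rpow_nonneg (Nat.cast_nonneg _) _
  have h3 : 0 ≤ min 1 ((N a : ℝ) * Real.exp (-(8 / 3) * |t|)) := le_min zero_le_one (by positivity)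
  unfold MTI
  positivity

/-- **bounds of the moved cutoffs** -/
structure CutHI {N : Bool → ℕ} (b : ℝ) (y v : ∀ a, Fin (N a) → ℂ) (ξe : ℝ → ℂ) (T1 : ℝ) (X : ℂ → ℂ)
    (c : ℝ) (M : Bool → ℝ → ℝ) (δ : ℝ) : Prop where
  c0 : 0 ≤ c
  M0 : ∀ a t, 0 ≤ M a t
  A : ∀ (a : Bool) (u : ℂ), 1 / 9 * l ≤ u.re → u.re ≤ (1 + δ) * l →
    ‖DWI b (y a) (v a) ξe (X u) u‖ ≤ c * ‖ph b (y a) (gP b [I, -I]) u‖
  L : ∀ (a : Bool) (u : ℂ), -(3 / 2 * l) ≤ u.re → u.re ≤ -l →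
    ‖DWI b (y a) (v a) ξe (X (u + 2 * l)) u‖ ≤ c * ‖ph b (y a) (gP b [I, -I]) u‖
  S : ∀ (a : Bool) (w : ℂ), -(3 / 2 * l) ≤ w.re → w.re ≤ -l →
    ‖DSI (y a) (v a) T1 (X (w + 2 * l)) w‖ ≤ c * ‖phO T1 (List.ofFn (y a)) w‖
  T : ∀ (a : Bool) t, ‖DTI b (y a) (v a) ξe T1 (X (posT t + 2 * l)) (posT t)‖ ≤ M a t

variable [Fil]

/-- **the moved cutoffs** -/
theorem cutHI {ep : ℝ} (h0 : 0 < ep) (h1 : ep ≤ 1 / 100) {C0 : ℝ} (hC0 : 1 ≤ C0) :
    ∃ (Cc K : ℝ) (N0 : ℕ), 0 < Cc ∧ 0 < K ∧ 1 ≤ N0 ∧ ∀ m : ℕ, N0 ≤ m → ∀ (x : Fin m → ℂ)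
      (i0 : Fin m), Rws0 x → ∀ X : ℂ → ℂ, FlX6 m C0 X (xeI x i0) → ∀ T1 : ℝ,
      3 / 8 * Real.log m + tau0 2 (Fil.q : ℕ) ≤ T1 →
      CutHI (4 / 3 * (1 - ep)) (rwq x) (rwq (vv i0)) (xeI x i0) T1 X
        (Cc / (m : ℝ) ^ 3) (MTI K (4 / 3 * (1 - ep)) (rwq x)) (ep / 4) := by
  have hl := Bd.l_pos
  have hlN : NUP1.l = NUMF.l := rfl
  have hH := PBC.hyp_ep h0 h1
  have hH' := hyp_43
  obtain ⟨κ, hκ, hκ1, hG⟩ := PB.K11.exists_good h0 (by linarith)
  have hG := hG (4 / 3 * (1 - ep)) (by linarith) le_rfl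
  have hkq := kq_pos hκ
  obtain ⟨b, hb⟩ : ∃ b, b = 4 / 3 * (1 - ep) := ⟨_, rfl⟩
  rw [← hb] at hH hG ⊢
  have hb1 : 1 ≤ b := by rw [hb]; linarith
  have hb2 : b < 4 / 3 := by rw [hb]; linarith
  have hHb := hyp_b hb1 hb2
  set s := (3 / 2 + ep / 4) * l with hs
  have hq1 : (1 : ℝ) ≤ (Fil.q : ℕ) := by exact_mod_cast Fil.one_le_q
  set Q := (Fil.q : ℝ) * C0 with hQ
  have hQ1 : 1 ≤ Q := by rw [hQ]; nlinarith
  have hQ0 : 0 ≤ Q := by linarith
  have hCX : ∀ C : ℝ, 0 ≤ C → 0 ≤ CX b C := fun C h => by unfold CX; positivity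
  -- the constants are monotone
  have nle : ∀ a : Bool, (Fil.n a : ℝ) * C0 ≤ Q := fun a => by
    have h3 : ((Fil.n a : ℕ) : ℝ) ≤ (Fil.q : ℕ) := by exact_mod_cast Fil.n_le a
    exact mul_le_mul_of_nonneg_right h3 (by linarith)
  have nn0 : ∀ a : Bool, 0 ≤ (Fil.n a : ℝ) * C0 := fun a => by positivity
  obtain ⟨CA, hCA⟩ : ∃ CA : ℝ, CA = CFA b s (CX b Q) := ⟨_, rfl⟩
  obtain ⟨cR, hcR⟩ : ∃ cR : ℝ, cR = CFA (4 / 3) l Q := ⟨_, rfl⟩
  obtain ⟨kR, hkR⟩ : ∃ kR : ℝ, kR = K1 (4 / 3) Q := ⟨_, rfl⟩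
  have hCA0 : 0 ≤ CA := by rw [hCA]; exact CFA_nonneg hH (hCX Q hQ0)
  have hcR0 : 0 ≤ cR := by rw [hcR]; exact CFA_nonneg hH' hQ0
  have hkR0 : 0 ≤ kR := by rw [hkR]; unfold K1; positivity
  obtain ⟨Kt, hKt⟩ : ∃ Kt : ℝ, Kt = 4 * KW b Q + KR Q * (121 * Real.exp 3) := ⟨_, rfl⟩
  have hKW0 : 0 ≤ KW b Q := KW_nonneg hQ0
  have hKR0 : 0 ≤ KR Q := KR_nonneg hQ0
  have hKt0 : 0 ≤ Kt := by rw [hKt]; positivity
  obtain ⟨N4, hN4⟩ := exists_nat_ge (Real.exp 8)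
  refine ⟨1 + CA + (5 * cR + 2 * kR), (1 + Kt) * (1 + 6 / kq κ ^ 3), max 1 N4, by positivity,
    by positivity, le_max_left _ _, fun m hm x i0 hx X hF T1 hT1 => ?_⟩
  simp only [max_le_iff] at hm
  obtain ⟨m1, m4⟩ := hm
  have hm0 : (0 : ℝ) < m := by exact_mod_cast m1
  have hmr : (1 : ℝ) ≤ m := by exact_mod_cast m1
  have hmp : (0 : ℝ) < (m : ℝ) ^ 3 := by positivity
  have hTI : 0 ≤ tau0 2 ((Fil.q : ℕ) : ℝ) := PHK.tau0_nonneg (Nat.cast_nonneg _)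
  have hT2 : 3 / 8 * Real.log m ≤ T1 := by linarith
  have hT3 : 3 ≤ T1 := by
    have : (8 : ℝ) ≤ Real.log m := by
      rw [Real.le_log_iff_exp_le hm0]
      exact hN4.trans (by exact_mod_cast m4)
    linarith
  have hvl : ∀ u : ℂ, vl u.re u.im = u := fun u => by
    unfold vl
    exact re_add_im u
  have him2 : ∀ u : ℂ, (u + 2 * l).im = u.im := fun u => by simp
  have hre2 : ∀ u : ℂ, (u + 2 * l).re = u.re + 2 * l := fun u => by simp
  -- the rows of a species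
  have hr : ∀ (a : Bool) j, (rwq x a j).re = 0 := fun a j =>
    forall_rwq (P := fun w : ℂ => w.re = 0) hx.re a j
  have hi : ∀ (a : Bool) j, |(rwq x a j).im| ≤ 2 := fun a j =>
    forall_rwq (P := fun w : ℂ => |w.im| ≤ 2) (fun i => (hx.im i).trans one_le_two) a j
  have hcard : ∀ a : Bool, (m : ℝ) ≤ ((Fintype.card (Fin (cond a m (Fil.q * m))) : ℕ) : ℝ) := fun a => by
    rw [card_rwq]
    have : (1 : ℝ) ≤ (Fil.n a : ℕ) := by exact_mod_cast Fil.one_le_n a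
    exact le_mul_of_one_le_left hm0.le this
  have hcard1 : ∀ a : Bool, 1 ≤ Fintype.card (Fin (cond a m (Fil.q * m))) := fun a => by
    have := (hmr.trans (hcard a))
    exact_mod_cast this
  have hcardq : ∀ a : Bool, ((cond a m (Fil.q * m) : ℕ) : ℝ) ≤ ((Fil.q : ℕ) : ℝ) * m := fun a => by
    rw [cond_eq]
    exact_mod_cast Nat.mul_le_mul_right m (Fil.n_le a)
  -- the two transport conditions, constants `Q`
  have TR : ∀ (a : Bool) (r : ℝ), 1 / 9 * l ≤ r → r ≤ 31 / 20 * l →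
      TrA (4 / 3) (rwq x a) (rwq (vv i0) a) (fun t => X (vl r t)) (xeI x i0) Q := fun a r r0 r1 => by
    have T := tr_rows hx i0 hC0 (hF.fl r r0 r1) a
    have hc : (Fil.n a : ℝ) * C0 / ((Fintype.card (Fin (cond a m (Fil.q * m))) : ℕ) : ℝ) ≤
        Q / ((Fintype.card (Fin (cond a m (Fil.q * m))) : ℕ) : ℝ) :=
      div_le_div_of_nonneg_right (nle a) (Nat.cast_nonneg _)
    exact ⟨T.re, T.im, T.vel.trans (nle a), T.cond, fun σ hσ => (T.lim σ hσ).trans hc,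
      fun σ hσ t ht => (T.dec σ hσ t ht).trans (mul_le_mul_of_nonneg_right hc (Real.exp_pos _).le)⟩
  have TW : ∀ (a : Bool) (r : ℝ), 1 / 9 * l ≤ r → r ≤ 31 / 20 * l →
      TrA b (Sum.elim (rwq x a) wE) (Sum.elim (rwq (vv i0) a)
        (vE b 0 0 (rwq x a) (rwq (vv i0) a) (xeI x i0))) (fun t => X (vl r t)) (xeI x i0)
        (CX b Q) := fun a r r0 r1 => by
    have T := TR a r r0 r1
    exact tr_ext hb1 T.re T.im T.vel (hcard1 a) T.lim T.dec
  -- the far bound with the extra points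
  have WW : ∀ (a : Bool) (u h : ℂ), |u.re + l / 2| ≤ s → h.im = u.im → 1 / 9 * l ≤ h.re →
      h.re ≤ 31 / 20 * l → ‖DWI b (rwq x a) (rwq (vv i0) a) (xeI x i0) (X h) u‖ ≤
        (1 + CA + (5 * cR + 2 * kR)) / (m : ℝ) ^ 3 * ‖ph b (rwq x a) (gP b [I, -I]) u‖ := by
    intro a u h hu hih r0 r1
    have key := (TW a h.re r0 r1).FAR hH hu (by
      rw [Fintype.card_sum]
      have := hcard1 a
      omega)
    beta_reduce at key
    rw [← hih, hvl] at key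
    rw [ph_wE]
    refine key.trans (mul_le_mul_of_nonneg_right ?_ (norm_nonneg _))
    rw [← hCA]
    have hc3 : (m : ℝ) ^ 3 ≤
        ((Fintype.card (Fin (cond a m (Fil.q * m)) ⊕ Fin 2) : ℕ) : ℝ) ^ 3 := by
      refine pow_le_pow_left₀ hm0.le ((hcard a).trans ?_) 3
      rw [Fintype.card_sum]
      push_cast
      linarith [Nat.cast_nonneg (α := ℝ) (Fintype.card (Fin 2))]
    refine (div_le_div_of_nonneg_left hCA0 hmp hc3).trans
      (div_le_div_of_nonneg_right (by linarith) hmp.le)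
  refine
    { c0 := by positivity
      M0 := fun a t => MTI_nonneg (by positivity) _ _ _ _
      A := fun a u u0 u1 => WW a u u (by rw [abs_of_pos (by linarith)]; rw [hs]; nlinarith) rfl u0
        (u1.trans (by nlinarith))
      L := fun a u u0 u1 => WW a u (u + 2 * l) (by
          rw [abs_le, hs]
          constructor <;> nlinarith) (him2 u) (by rw [hre2]; linarith) (by rw [hre2]; linarith)
      S := fun a w u0 u1 => ?_
      T := fun a t => ?_ }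
  · -- the strings
    have hu : |w.re + l / 2| ≤ l := by
      rw [abs_le]
      constructor <;> linarith
    have TRa := TR a (w + 2 * l).re (by rw [hre2]; linarith) (by rw [hre2]; linarith)
    have key := TRa.FAR hH' hu (hcard1 a)
    beta_reduce at key
    rw [← him2 w, hvl, ← hcR] at key
    have key2 : 3 ≤ |w.im| → _ := fun h3 => TRa.far hH' hu h3
    have hc3 : (m : ℝ) ^ 3 ≤ ((Fintype.card (Fin (cond a m (Fil.q * m))) : ℕ) : ℝ) ^ 3 :=
      pow_le_pow_left₀ hm0.le (hcard a) 3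
    refine (norm_DSI_le (v := rwq (vv i0) a) hmr (hr a) (hi a) hT3 hT2 hu hcR0 hkR0
      (key.trans (mul_le_mul_of_nonneg_right (div_le_div_of_nonneg_left hcR0 hmp hc3)
        (norm_nonneg _))) fun h3 => ?_).trans (mul_le_mul_of_nonneg_right
        (div_le_div_of_nonneg_right (by linarith) hmp.le) (norm_nonneg _))
    have k2 := key2 h3
    beta_reduce at k2
    rw [← him2 w, hvl, ← hkR, him2, show 6 * (4 / 3 : ℝ) = 8 by norm_num] at k2
    exact k2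
  · -- the line of `T`
    obtain ⟨s1, s2, s3⟩ := posT_strip t
    have r1 : (posT t).re = -(1 / 2 * l) := PB.K11.posT_re t
    have i1 : (posT t).im = t := PB.K11.posT_im t
    set h := posT t + 2 * l with hh
    have hr0 : 1 / 9 * l ≤ h.re := by rw [hre2, r1]; linarith
    have hr1 : h.re ≤ 31 / 20 * l := by rw [hre2, r1]; linarith
    have hih : h.im = t := by rw [him2, i1]
    have eX : X (vl h.re t) = X h := by
      have h2 := hvl h
      rw [hih] at h2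
      rw [h2]
    obtain ⟨G, hGe⟩ : ∃ G, G = Real.exp (-(6 * b * |t|)) * Qy (kq κ) (rwq x a) t := ⟨_, rfl⟩
    have hG0 : 0 ≤ G := by
      rw [hGe]
      have := (Qy_pos (kq κ) (rwq x a) t).le
      positivity
    have W1 := W_T hG hκ.le hκ1 hHb le_rfl (hr a) (hi a) (TW a h.re hr0 hr1) (Or.inl rfl) s2
    have W2 := W_T hG hκ.le hκ1 hHb le_rfl (hr a) (hi a) (TW a h.re hr0 hr1) (t := t) (Or.inr rfl) s3
    have R1 := R_T hG hκ.le hκ1 hb2.le (TR a h.re hr0 hr1) t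
    beta_reduce at W1 W2 R1
    rw [← hGe, eX] at W1 W2 R1
    have p1 : ‖ph b (rwq x a) (gP b [I, -I]) (posT t)‖ ≤ 2 := by
      rw [ph_wE]
      refine phi_two_ax hHb s2 ?_ ?_
      · rintro (j | j)
        · exact hr a j
        · exact wE_re j
      · rintro (j | j)
        · exact hi a j
        · exact wE_im j
    have p2 : ‖ph b (rwq x a) (gP b [I, -I]) (posT t - l)‖ ≤ 2 := by
      rw [ph_wE]
      refine phi_two_ax hHb s3 ?_ ?_
      · rintro (j | j)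
        · exact hr a j
        · exact wE_re j
      · rintro (j | j)
        · exact hi a j
        · exact wE_im j
    have hfac := norm_factor (hr a) (hi a) m1 (Nat.cast_nonneg _) (hcardq a) hT1 t
    have D1 : ‖DTI b (rwq x a) (rwq (vv i0) a) (xeI x i0) T1 (X h) (posT t)‖ ≤ Kt * G := by
      unfold DTI DSI
      refine (norm_sub_le _ _).trans ((add_le_add (norm_add_le _ _) le_rfl).trans ?_)
      rw [norm_mul, norm_mul, norm_mul (DRI _ _ _ _)]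
      have m1 := mul_le_mul W1 p2 (norm_nonneg _) (by positivity)
      have m2 := mul_le_mul p1 W2 (norm_nonneg _) zero_le_two
      have m3 := mul_le_mul R1 hfac (norm_nonneg _) (by positivity)
      have e : Kt * G = KW b Q * G * 2 + 2 * (KW b Q * G) + KR Q * G * (121 * Real.exp 3) := by
        rw [hKt]
        ring
      rw [e]
      unfold DWI DRI
      linarith
    refine D1.trans ?_
    have hN0 : (0 : ℝ) < ((cond a m (Fil.q * m) : ℕ) : ℝ) := by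
      have := hcard1 a
      rw [Fintype.card_fin] at this
      exact_mod_cast this
    have hp := pw_min (b := b) (κ := kq κ) (by linarith) hb2.le hkq hN0 t
    unfold MTI
    have eG : G = eMy (rwq x a) t * (Real.exp (-(6 * b * |t|)) *
        Real.exp (-(kq κ * (((cond a m (Fil.q * m) : ℕ) : ℝ) * Real.exp (-(8 / 3) * |t|))))) := by
      rw [hGe]
      unfold Qy
      rw [Fintype.card_fin]
      ring
    rw [eG]
    have hE0 := (eMy_pos (rwq x a) t).le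
    obtain ⟨Pm, hPm⟩ : ∃ Pm : ℝ, Pm = ((cond a m (Fil.q * m) : ℕ) : ℝ) ^ (-(9 / 4 * b)) *
      min 1 (((cond a m (Fil.q * m) : ℕ) : ℝ) * Real.exp (-(8 / 3) * |t|)) := ⟨_, rfl⟩
    rw [← hPm] at hp ⊢
    have hPm0 : 0 ≤ Pm := by
      rw [hPm]
      exact mul_nonneg (Real.rpow_nonneg hN0.le _) (le_min zero_le_one (by positivity))
    calc Kt * (eMy (rwq x a) t * _) ≤ Kt * (eMy (rwq x a) t * ((1 + 6 / kq κ ^ 3) * Pm)) := by
          gcongr
      _ ≤ (1 + Kt) * (eMy (rwq x a) t * ((1 + 6 / kq κ ^ 3) * Pm)) := by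
          gcongr
          linarith
      _ = _ := by ring

end PLT.Fr

end
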