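import Pool.Agent.PLT.CutZ
import Pool.Agent.PLT.GOkC
import Pool.Agent.PLX.PotH.CrM

/-!
# Sea on a curve: one admissible cutoff for all contents

* **`cutC_of_cutR`**: a cutoff which is admissible over the sea on the line is admissible over every sea of
  the class;
* **`exists_cutRC`**: for `m ≥ m0` there is one cutoff `cr`, admissible over all seas of the class, which
  dominates `phi (4 / 3 (1 - ep)) W` on the curve for every list `W` of rows and points (`RwZ`, `CvZ`) of a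
  size between `m` and `Q m` and every admissible curve; **`cutBC_of`**: `CutBC`.
-/

set_option autoImplicit false
set_option linter.unusedSectionVars false

noncomputable section

open MeasureTheory Finset Filter Topology

open PLX (Fil Ends)

namespace PLT

open NUO (Tb)
open NUGC.PLX (OB)

/-- **cutoffs over the line are cutoffs over the seas of the class** -/
theorem cutC_of_cutR (SB : SeaCB) : ∃ Q : ℝ, 1 ≤ Q ∧ ∀ {ep C0 b : ℝ} {m : ℕ} {cr Bc Bc' : ℝ → ℝ},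
    @PotH.PLX.CutR NUSea.seaP ep C0 b m cr Bc Bc' → ∀ [SeaC] [SeaCU SB],
      CutC ep (Q * C0) b m cr Bc Bc' := by
  let _ : NUSea.Sea := NUSea.seaP
  obtain ⟨c, hc, hlow⟩ := NUSea.le_P
  obtain ⟨C, hC, H⟩ := Cv.P_le SB
  refine ⟨C / c + 1, by have : 0 ≤ C / c := by positivity
                        linarith, ?_⟩
  intro ep C0 b m cr Bc Bc' h _ hS
  have hC0 : 0 ≤ C0 := (integral_nonneg fun t => by positivity).trans h.EC
  have hCc : 0 ≤ C / c := by positivity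
  have hQ : C0 ≤ (C / c + 1) * C0 := by nlinarith
  have hP : ∀ t, Cv.P t ≤ C / c * NUSea.P t := by
    intro t
    have h1 := H t
    have h2 := hlow t
    have h3 : C / c * (c * Real.exp (-(8 / 3) * |t|)) ≤ C / c * NUSea.P t :=
      mul_le_mul_of_nonneg_left h2 hCc
    have e : C / c * (c * Real.exp (-(8 / 3) * |t|)) = C * Real.exp (-(8 / 3) * |t|) := by
      field_simp
    rw [e] at h3
    exact h1.trans h3
  have hm : (0 : ℝ) ≤ m := Nat.cast_nonneg m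
  have hle : ∀ t, (m : ℝ) * Cv.P t * Bc t ≤ C / c * ((m : ℝ) * NUSea.P t * Bc t) := by
    intro t
    have h1 := mul_le_mul_of_nonneg_right (mul_le_mul_of_nonneg_left (hP t) hm) (h.B0 t)
    refine h1.trans (le_of_eq ?_)
    ring
  have hBc : Continuous Bc := continuous_iff_continuousAt.2 fun t => (h.Bd t).continuousAt
  have hPI : Integrable (fun t => (m : ℝ) * Cv.P t * Bc t) := by
    refine (h.PI.const_mul (C / c)).mono' ?_ (Eventually.of_forall fun t => ?_)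
    · exact ((Cv.P_cont SB).const_mul _ |>.mul hBc).aestronglyMeasurable
    · rw [Real.norm_eq_abs, abs_of_nonneg (mul_nonneg (mul_nonneg hm (Cv.P_pos SB t).le) (h.B0 t))]
      exact hle t
  exact
    { meas := h.meas, nn := h.nn, Bd := h.Bd, Bcc := h.Bcc, B0 := h.B0, B1 := h.B1
      PI := hPI
      PC := by
        have h1 := integral_mono hPI (h.PI.const_mul (C / c)) hle
        rw [integral_const_mul] at h1
        have h2 := mul_le_mul_of_nonneg_left h.PC hCc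
        have h3 : 0 ≤ C0 := hC0
        calc _ ≤ C / c * C0 := h1.trans h2
          _ ≤ _ := by nlinarith
      EI := h.EI
      EC := h.EC.trans hQ
      le := h.le, le2 := h.le2
      dec := fun t => (h.dec t).trans (by
        have h1 := Real.exp_pos (-(8 / 3 * (1 - ep)) * |t|)
        refine mul_le_mul_of_nonneg_right ?_ h1.le
        exact mul_le_mul_of_nonneg_right hQ hm)
      ext := h.ext }

/-- the point of the curve -/
private theorem pt_near [SeaC] [Fil] {η : ℝ → ℝ} (h0 : ∀ t, 0 ≤ η t) (h : ∀ t, |η t| ≤ NUMF.l / 1000)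
    (a : Bool) (t : ℝ) :
    |(Cv.zt (Cv.gD (Fil.cv a η)) t).re - t| ≤ 1 / 4 * Fil.cv a η t ∧
      (Cv.zt (Cv.gD (Fil.cv a η)) t).im = Cv.eta t + Fil.cv a η t ∧
      0 ≤ Fil.cv a η t ∧ Fil.cv a η t ≤ NUMF.l / 1000 := by
  have h1 := Fil.cv_nonneg (a := a) (h0 t)
  have h2 := (abs_le.1 (Fil.abs_cv_le_of (a := a) (h t))).2
  have h3 := Cv.eta'_le t
  have e1 : (Cv.zt (Cv.gD (Fil.cv a η)) t).im = Cv.eta t + Fil.cv a η t := by
    simp [Cv.zt, Cv.gD, Cv.ga, NUKer.iD]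
  have e2 : (Cv.zt (Cv.gD (Fil.cv a η)) t).re - t = -(Fil.cv a η t * deriv Cv.eta t) := by
    simp [Cv.zt, Cv.gD, Cv.ga, NUKer.iD]
  refine ⟨?_, e1, h1, h2⟩
  rw [e2, abs_neg, abs_mul, abs_of_nonneg h1]
  nlinarith

/-- the static curve is Lipschitz -/
private theorem eta_lip [SeaC] (s t : ℝ) : |Cv.eta s - Cv.eta t| ≤ 1 / 4 * |s - t| := by
  have h := Convex.norm_image_sub_le_of_norm_hasDerivWithin_le (f := Cv.eta) (f' := deriv Cv.eta)
    (s := Set.univ) (x := t) (y := s) (C := 1 / 4)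
    (fun u _ => (Cv.hasDerivAt_eta u).hasDerivWithinAt)
    (fun u _ => by rw [Real.norm_eq_abs]; exact Cv.eta'_le u) convex_univ (Set.mem_univ _)
    (Set.mem_univ _)
  rwa [Real.norm_eq_abs, Real.norm_eq_abs] at h

private lemma fin1 {c q m m' E1 E2 : ℝ} (hc : 0 < c) (hq0 : 0 < q) (hm0 : 0 ≤ m)
    (hmr : m ≤ m') (h : E1 / q ≤ E2) (hE : 0 ≤ E1) : c / q * (m * E1) ≤ c * (m' * E2) := by
  have h3 : c / q * (m * E1) = c * (m * (E1 / q)) := by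
    field_simp
  rw [h3]
  exact mul_le_mul_of_nonneg_left (mul_le_mul hmr h (div_nonneg hE hq0.le) (hm0.trans hmr)) hc.le

private lemma fin2 {C Q q m m' E1 E2 : ℝ} (hC : 1 ≤ C) (hQ : 0 ≤ Q) (hm0 : 0 ≤ m)
    (h2 : m' ≤ Q * m) (h : E2 ≤ q * E1) (hE : 0 ≤ E2) :
    C * (m' * E2) ≤ C * Q * q * (m * E1) := by
  have h3 : C * Q * q * (m * E1) = C * ((Q * m) * (q * E1)) := by ring
  rw [h3]
  exact mul_le_mul_of_nonneg_left (mul_le_mul h2 h hE (mul_nonneg hQ hm0)) (zero_le_one.trans hC)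

/-- **one admissible cutoff for all contents** -/
theorem exists_cutRC [Fil] (SB : SeaCB) {ep e1 : ℝ} (hep : 0 < ep) (hep1 : ep ≤ 1 / 100)
    (he : 0 < e1) (n0 : ℕ) {K0 : ℝ} (hK0 : 0 ≤ K0) {de s0 hh : ℝ} (hde : 0 < de) (hde1 : de ≤ 1)
    (hs0 : 0 ≤ s0) (hs1 : 10000000 * s0 ≤ de ^ 2) (hsh : s0 ≤ hh) {Q : ℝ} (hQ : 1 ≤ Q) :
    ∃ C0 : ℝ, 1 ≤ C0 ∧ ∃ m0 : ℕ, 1 ≤ m0 ∧ ∀ m ≥ m0, ∃ cr Bc Bc' : ℝ → ℝ,
      ∀ [SeaC] [SeaCU SB], CutC ep C0 ((1 - e1) * Tb (Real.log m)) m cr Bc Bc' ∧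
      ∀ m' : ℕ, m ≤ m' → (m' : ℝ) ≤ Q * m → ∀ X W ex : List ℂ, RwZ n0 de s0 hh m' X W ex →
        CvZ ep K0 Cv.eta X → (∀ t, ∀ x ∈ X, -NUMF.l < Cv.eta t + x.re) →
        (∀ t, -(de / 2 * NUMF.l) ≤ Cv.eta t) → ∀ η : ℝ → ℝ, (∀ t, 0 ≤ η t) →
        (∀ t, |η t| ≤ NUMF.l / 1000) → ∀ (a : Bool) (t : ℝ),
          ‖NUP1.phi (4 / 3 * (1 - ep)) W (ptC (dsp η) a t)‖ ≤ cr t := by
  have hll : NUP1.l = NUMF.l := rfl
  have hl := NUMF.l_pos
  have hl2 : NUMF.l ≤ 1 := by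
    unfold NUMF.l
    linarith [Real.pi_le_four]
  obtain ⟨c, C, hc, hC, m1, hm1, H⟩ := exists_cutZ hep hep1 n0 hK0 hde hde1 hs0 hs1 hsh
  obtain ⟨q, hq⟩ : ∃ q, q = Real.exp (8 / 3 * (1 / 4000)) := ⟨_, rfl⟩
  have hq0 : 0 < q := by rw [hq]; exact Real.exp_pos _
  have hq1 : 1 ≤ q := by rw [hq]; exact Real.one_le_exp (by norm_num)
  have hCQ : 1 ≤ C * Q * q := by
    have : 1 ≤ C * Q := by nlinarith
    nlinarith
  obtain ⟨C0, hC0, m2, hm2, H2⟩ := @PotH.PLX.exists_crM NUSea.seaP ep (c / q) (C * Q * q) hep hep1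
    (by positivity) hCQ e1 he
  obtain ⟨Q', hQ', H3⟩ := cutC_of_cutR SB
  refine ⟨Q' * C0, by nlinarith, max m1 m2, hm1.trans (le_max_left _ _), fun m hm => ?_⟩
  have hmm1 : m1 ≤ m := (le_max_left _ _).trans hm
  have hmm2 : m2 ≤ m := (le_max_right _ _).trans hm
  obtain ⟨cr, Bc, Bc', hcut, hle⟩ := H2 m hmm2
  refine ⟨cr, Bc, Bc', @fun _ hS => ⟨H3 hcut, ?_⟩⟩
  intro m' h1 h2 X W ex hW hcv hXl hlo η hη0 hη a t
  obtain ⟨p1, p2, p3, p4⟩ := pt_near hη0 hη a t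
  obtain ⟨z, hz⟩ : ∃ z, z = Cv.zt (Cv.gD (Fil.cv a η)) t := ⟨_, rfl⟩
  rw [← hz] at p1 p2
  have eu : ptC (dsp η) a t = NUMF.l + Complex.I * z := by
    rw [hz]
    exact ptC_dsp η a t
  have ere : (ptC (dsp η) a t).re = NUMF.l - z.im := by
    rw [eu]
    simp
    ring
  have eim : (ptC (dsp η) a t).im = z.re := by
    rw [eu]
    simp
  obtain ⟨u, hu⟩ : ∃ u, u = ptC (dsp η) a t := ⟨_, rfl⟩
  rw [← hu] at ere eim ⊢
  have e1' : NUP1.l - u.re = z.im := by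
    rw [ere, hll]
    ring
  have hlip := eta_lip z.re t
  have hz1 := (abs_le.1 hlip).2
  obtain ⟨c1, c2⟩ := abs_le.1 (hcv.le t)
  obtain ⟨k1, k2⟩ := H m' (hmm1.trans h1) X W ex Cv.eta hW hcv hXl u
    (by
      rw [e1', eim, p2]
      have : 0 < ep * NUP1.l / 4 := by rw [hll]; positivity
      linarith)
    (by
      rw [e1', p2, hll]
      linarith [hlo t])
    (by
      rw [e1', p2, hll]
      rw [hll] at c2
      linarith)
  rw [eim] at k1 k2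
  have hmr : (m : ℝ) ≤ m' := by exact_mod_cast h1
  have hm0 : (0 : ℝ) ≤ m := Nat.cast_nonneg m
  -- the heights
  have habs : |(|z.re| - |t|)| ≤ 1 / 4000 := by
    refine (abs_abs_sub_abs_le_abs_sub _ _).trans (p1.trans ?_)
    nlinarith
  obtain ⟨g1, g2⟩ := abs_le.1 habs
  have hp0 : 0 ≤ 8 / 3 * (1 - ep) := by linarith
  have hE1 : Real.exp (-(8 / 3 * (1 - ep)) * |t|) / q ≤ Real.exp (-(8 / 3 * (1 - ep)) * |z.re|) := by
    rw [hq, div_le_iff₀ (Real.exp_pos _), ← Real.exp_add]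
    refine Real.exp_le_exp.2 ?_
    nlinarith
  have hE2 : Real.exp (-(8 / 3 * (1 - ep)) * |z.re|) ≤ q * Real.exp (-(8 / 3 * (1 - ep)) * |t|) := by
    rw [hq, ← Real.exp_add]
    refine Real.exp_le_exp.2 ?_
    nlinarith
  have hEt := Real.exp_pos (-(8 / 3 * (1 - ep)) * |t|)
  have hEz := Real.exp_pos (-(8 / 3 * (1 - ep)) * |z.re|)
  refine hle t _ ?_ ?_
  · rw [phi_prZ hW]
    refine (norm_sub_le _ _).trans ?_
    rw [norm_one]
    refine add_le_add le_rfl (k1.trans (Real.exp_le_exp.2 (neg_le_neg ?_)))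
    exact fin1 hc hq0 hm0 hmr hE1 hEt.le
  · exact k2.trans (fin2 hC (zero_le_one.trans hQ) hm0 h2 hE2 hEz.le)

/-- **`CutBC` of the one body data with the cutoffs of a content** -/
theorem cutBC_of [Fil] [Ends] (SB : SeaCB) {ep e1 : ℝ} (hep : 0 < ep) (hep1 : ep ≤ 1 / 100)
    (he : 0 < e1) (he1 : e1 ≤ 1 / 100) {J : ℝ} (hJ : 0 ≤ J) (n0 : ℕ) {K0 : ℝ} (hK0 : 0 ≤ K0)
    {de s0 hh : ℝ} (hde : 0 < de) (hde1 : de ≤ 1) (hs0 : 0 ≤ s0) (hs1 : 10000000 * s0 ≤ de ^ 2)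
    (hsh : s0 ≤ hh) :
    ∃ C0 : ℝ, 1 ≤ C0 ∧ ∃ m0 : ℕ, ∀ m ≥ m0, ∀ [SeaC] [SeaCU SB] (B : OB) (X W ex : Bool → List ℂ),
      (∀ a, B.φ a = NUP1.phi (4 / 3 * (1 - ep)) (W a)) →
      (∀ a, RwZ n0 de s0 hh (Fil.ne a m) (X a) (W a) (ex a)) → (∀ a, CvZ ep K0 Cv.eta (X a)) →
      (∀ a t, ∀ x ∈ X a, -NUMF.l < Cv.eta t + x.re) → (∀ t, -(de / 2 * NUMF.l) ≤ Cv.eta t) →
      CutBC ep e1 C0 m (Cv.etaC e1 J m m) B := by
  obtain ⟨C0, hC0, m1, hm1, H⟩ := exists_cutRC SB hep hep1 he n0 hK0 hde hde1 hs0 hs1 hsh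
    Fil.one_le_qor
  obtain ⟨Cc, hCc, m2, hm2, hcrv⟩ := exists_crvC SB (J := J) he he1 hJ
  refine ⟨C0, hC0, max m1 m2, fun m hm S hS B X W ex hφ hW hcv hXl hlo => ?_⟩
  have a1 : m1 ≤ m := (le_max_left _ _).trans hm
  obtain ⟨hT, hη⟩ := hcrv m ((le_max_right _ _).trans hm)
  obtain ⟨cr, Bc, Bc', h⟩ := H m a1
  obtain ⟨h1, h2⟩ := @h S hS
  refine ⟨cr, Bc, Bc', h1, fun a t => ?_⟩
  rw [hφ a]
  exact h2 _ (Fil.le_ne a m) (Fil.ner_le_qo a (hm1.trans a1)) (X a) (W a) (ex a) (hW a) (hcv a)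
    (hXl a) hlo _ hη.nn hη.le a t

end PLT

end
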