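import Pool.Agent.PLT.CutBdI
import Pool.Agent.PLT.FamLC

/-!
# The supremum over the perturbations for the dislocated function over a content

* **`cutSup_L`**: for a content whose static curve is zero (window `0 .. 0`) the absolute functional of every perturbed
  class function is at most `m ^ δ exp (2 |Im z|)`; inputs as in `ux_L`, with `DatF` in place of `OneTF`.
-/

set_option autoImplicit false
set_option linter.unusedSectionVars false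
set_option linter.unusedVariables false

noncomputable section

open Complex MeasureTheory Finset
open scoped ENNReal
open PLX (Fil Ends)

namespace PLT

open NUO NUP1 NUP1S NUP1S.Ab NUP1S.AbC PHK
open NUGC.PLX (OB)
open PBF.PLX (InsE dN dN_two)
open NUDispW (win)
open PotH.PLX (sN)
open PBU.PLX (T1L)
open Pool.Agent.PLX (rwq yq)

variable [Fil] [Ends] {ι : Type} {x : (m : ℕ) → ι → Fin m → ℂ} {z : ι → ℂ} {S : ℕ → ι → SeaC}
  {ok : ℕ → ι → Prop}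

theorem dN_xe (he : Ends.e = 0) (ho : Ends.o = 0) (m : ℕ) : dN (2 * m) = Fil.xe m := by
  unfold Fil.xe
  rw [ho, he, Nat.add_zero, Nat.sub_zero]
  exact dN_two _

/-- **the supremum over the perturbations**, dislocated function over a content with the static curve zero -/
theorem cutSup_L (he : Ends.e = 0) (ho : Ends.o = 0) {P : Par6} (hP : GoodP6 P) {SB : SeaCB} {en : EnC}
    {lin : ℝ → ℝ → ℕ → ι → ℝ} {pT : ℕ → ι → Bool → ℝ → ℝ} {CM : ℝ} (hc : CntL SB x z S ok 0 0)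
    (hM : S4MC SB P en) (hE : EnvFC (famLC x z S ok (-(0 * NUP1.l)) (0 * NUP1.l)) S (BLC x z) lin)
    (hS : StabF (famLC x z S ok (-(0 * NUP1.l)) (0 * NUP1.l)) P fun m i => en (S m i))
    (hD : DatF (famLC x z S ok (-(0 * NUP1.l)) (0 * NUP1.l)) P (BLC x z) S pT)
    (hV : ValF (famLC x z S ok (-(0 * NUP1.l)) (0 * NUP1.l)) lin)
    (hdc : ∀ m i, ok m i → Integrable fun t : ℝ => @Cv.Pc (S m i) t) (hCM : 0 ≤ CM) {δ : ℝ} (hδ : 0 < δ) :
    ∃ a0 : ℝ, 0 < a0 ∧ ∀ ep : ℝ, 0 < ep → ep ≤ 1 / 100 → ∀ e1 : ℝ, 0 < e1 → ∀ J : ℝ, 0 ≤ J →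
    Real.exp (-(2 * Real.pi * J)) + 3 * e1 + 3 * ep ≤ a0 → ∃ m0 : ℕ, ∀ m : ℕ, m0 ≤ m → ∀ i, ok m i →
      ∀ η η' : ℝ → ℝ, @dsp (S m i) _ (@Cv.etaC (S m i) e1 J m m) = dF η →
      @dsp1 (S m i) _ (@Cv.etaC (S m i) e1 J m m) (@Cv.etaC' (S m i) e1 J m m) = dF η' →
      ∀ (Z : Bool → Option O3 → ℂ → ℂ) (r' : Bool → ℂ → ℝ) (δ₀ : ℝ) (M : Bool → ℝ → ℝ)
        (κ x0 : ℝ) (Qc : ℤ) (E : Set ℝ),
      0 ≤ δ₀ → δ₀ ≤ 1 / (m : ℝ) → RE6 r' δ₀ → (∀ a t, 0 ≤ M a t) →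
      (∀ a t, Real.exp (pT m i a t) * M a t ≤ CM * cut m (4 / 3 * (1 - ep)) t) →
      OneC6 Z (obE6 (obLC (T1L m) (x m i) (4 / 3 * (1 - ep)) (z i)) r' M) P ep κ x0 Qc E →
      ∑ n ∈ range (2 * m + 1), ‖Pool.Agent.PB.Pf (z i) (x m i) (yq (x m i))‖ₑ *
          FA6 Z P n (n + Fil.xe m) (fun _ _ => η) (fun _ _ => η') (fun _ _ _ _ _ => 1) ≤
        ENNReal.ofReal ((m : ℝ) ^ δ * Real.exp (2 * |(z i).im|)) := by
  have hG : GasFC (famLC x z S ok (-(0 * NUP1.l)) (0 * NUP1.l)) P S (BLC x z) (EcC P en S) lin :=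
    gasFC_of hc.sea curF_L hM hE
  obtain ⟨a0, ha0, H⟩ := cutSupC6 (CM := CM) hP (seasC_of hc.sea hc.win (fun _ _ _ => rfl) curF_L) hG hS
    hD hV (clsF_L he ho hc) hdc hCM hδ
  refine ⟨a0, ha0, fun ep hep hep1 e1 he1 J hJ hsm => ?_⟩
  obtain ⟨m0, H⟩ := H ep hep hep1 e1 he1 J hJ hsm
  refine ⟨m0, fun m hm i hi η η' hη hη' Z r' δ₀ M κ x0 Qc E g0 g1 hr hM0 hM1 hcl => ?_⟩
  have key := H m hm i hi η η' hη hη' Z r' δ₀ M κ x0 Qc E g0 g1 hr hM0 hM1 hcl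
  have e : dN ((famLC x z S ok (-(0 * NUP1.l)) (0 * NUP1.l)).top m) = Fil.xe m := dN_xe he ho m
  rw [e] at key
  exact key

end PLT

end
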