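import Pool.Agent.PHK.HQf6
import Pool.Agent.PLT.CutRw

/-!
# Second moment of the quadratic remainder, any rows on the imaginary axis, one index

Twin of `PHK/HQf6` at ONE index: content `x : Fin m → ℂ` with `Rws0 x`, any curves, leg at any real height `t`; the
constants depend on `ep` and `c0` only.

* **`hQ_genI`**: all fields; **`hQ_plusI`**, **`hQ_minusI`**: the hypothesis `hQ` of the two channels.
-/

set_option autoImplicit false
set_option linter.unusedSectionVars false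

noncomputable section

open Complex MeasureTheory Finset Filter Topology

open PLX (Fil)

namespace PLT

open NUO NUP1 NUCR NUP1S NUP1S.Ab NUP1S.AbC NUGC NUGC.PLX PBFunc PBFunc.PLX PBF PBF.PLX PBE PBE.PLX PBLX PBLX.PLX
open PBWP PBWP.PLX
open PBEI (h0T cL)
open PHK hiding cL
open PBForce (Rws0)

variable [Fil]

/-- size of the quotient for `m` rows -/
abbrev thM (c0 : ℝ) (m : ℕ) : ℝ := thX c0 (m : ℝ) (189 / 100 - 1 / 100) 0

theorem cL_nonneg : 0 ≤ cL :=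
  (norm_nonneg _).trans ((h0T_fam le_rfl 0).2 0 (by
    have hl := Bd.l_pos
    rw [zero_im, abs_zero]; positivity))

/-- **second moment of the remainder**, all fields, one index -/
theorem hQ_genI {ep : ℝ} (hep0 : 0 < ep) (hep1 : ep ≤ 1 / 100) : ∃ CQ : ℝ, 0 ≤ CQ ∧
    ∀ {N : ℕ} {Z : ℕ → Bool → Option O3 → ℂ → ℂ} {η η' : ℕ → Crs} {c : ℕ → ℂ} {δ b0 : ℝ}
      {κf : ℕ → ℝ} {LZ : ℕ → Bool → ℂ → ℂ} {ρ : ℂ → ℂ} {K q dp : ℝ}
      (_ : FibN6 N Z (fun _ => par6) η η' δ 0 b0 bb6 κf LZ (fun _ => LPo6 par6) ρ)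
      (_ : b0 < ep / 4) (_ : 0 ≤ K)
      (_ : PBU.PLX.MBd6 N Z (fun _ => par6) η η' c ρ (-(ep / 4)) bb6' K q dp)
      (_ : PBQM.PLX.Mom4 (mN6 N) (wN6 Z (fun _ => par6) N η η' c) (VN6 N η ρ) (-(ep / 4)) bb6' K)
      {m : ℕ} {x : Fin m → ℂ} (_ : Rws0 x) (t : ℝ) (T Te Tc : ℝ) (X e : Bool → ℂ → ℂ),
      0 ≤ Te → 0 ≤ Tc → (∀ u, TC (-bb6) bb6 (1 / 100) T (X u)) →
      (∀ u, PBU.PLX.BC (-(ep / 4)) bb6' Te (e u)) →
      (∀ u (z : ℂ), |z.im| < ep / 4 → DifferentiableAt ℂ (e u) z) →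
      ‖∑ u, ∫ y : ℝ, ρ y * (X u y * cutX ep u x y)‖ ≤ Tc →
      M2 (mN6 N) (wN6 Z (fun _ => par6) N η η' c) K
        (evN6 fun n => Qp (η n) ρ (ib X) e (fun _ => h0T t)
          (fun u => cutX ep u x) (LPo6 par6)) (CQ * (T + Te + Tc)) := by
  have hl := Bd.l_pos
  have hl1 : NUP1.l < 1 := by
    unfold NUP1.l
    linarith [Real.pi_lt_d2]
  have hl2 : 3 / 8 < NUP1.l := by
    unfold NUP1.l
    linarith [Real.pi_gt_three]
  obtain ⟨Cq, hCq, HQ⟩ := qy_fib6 (b := bb6) (κ₁ := 1 / 100) (y₁ := -(ep / 4)) (y₂ := bb6')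
    (by unfold bb6; linarith) (by norm_num) (by norm_num) (by unfold bb6; linarith)
    (by linarith) bb6'_pos bb6'_lt
  have hK := KJ_pos hep0 hep1
  obtain ⟨Co, hCo⟩ : ∃ Co : ℝ, Co = COc (1 / 200) + 4 := ⟨_, rfl⟩
  have hCo0 : 0 ≤ Co := by
    have := COc_pos dsC_bb6
    rw [hCo]; linarith
  have hcL : 0 ≤ cL := cL_nonneg
  obtain ⟨A, hA⟩ : ∃ A : ℝ, A = Cq + cL + KJ ep + Co + 400 * cL + 400 * Co := ⟨_, rfl⟩
  have hA0 : 0 ≤ A := by rw [hA]; positivity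
  refine ⟨1 + A, by positivity, ?_⟩
  have hb1 : ep / 4 < bb6 := by unfold bb6; linarith
  intro N Z η η' c δ b0 κf LZ ρ K q dp hF hb0 hKj hM h4 m x hx t T Te Tc X e hTe hTc hX he hed hrc
  have hT : 0 ≤ T := (hX true).nonneg (by linarith [bb6_pos]) bb6_pos
  have hleg := h0T_fam (b := bb6) (by unfold bb6; linarith) t
  have key := qpr_M26 (b0 := b0) (b'' := ep / 4) (b1 := bb6) (b := bb6)
    (κ₁ := 1 / 100) (T := T) (Te := Te) (Ml := cL) (Mc := KJ ep) (Co := Co) (Tc := Tc) hM hKj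
    hF.mZ hF.mc hF.hs hb0 (by linarith) hF.sea hb1.le hb1.le (by linarith) bb6'_lt.le
    (hF.mP 0 (Nat.zero_le _)) (X := X) (e := e) (leg := fun _ => h0T t)
    (cut := fun u => cutX ep u x) (by norm_num) hT hTe hcL hK.le hCo0 hTc hX he hed
    (fun _ => hleg.1) (fun _ => hleg.2)
    (fun u z hz => cutX_an hep0 hep1 u hx (by have := (abs_lt.1 hz).1; linarith)
      (by have := (abs_lt.1 hz).2; linarith))
    (fun u => ⟨fun z hz => (cutX_an hep0 hep1 u hx (by have := hz.1; linarith)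
      (by have := hz.2; unfold bb6' at this; linarith)).differentiableWithinAt,
      fun z hz => cutX_le hep0 hep1 u hx (by have := hz.1; linarith)
        (by have := hz.2; unfold bb6' at this; linarith)⟩)
    (fun r O u z hz => obF_dAt6 dsC_bb6 O u (by unfold bb6 at hz; linarith))
    (fun r O u z hz => by
      rw [hCo]
      exact obF_le6 dsC_bb6 O u (by unfold bb6 at hz; linarith)) hrc
  have kq := HQ (c := c) hF (by linarith) (by unfold bb6'; linarith) hKj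
    h4 (fun u => TC.ib u (hX u))
  have hXF : PB.FldF bb6 X := ⟨fun u z hz => (hX u).an.differentiableAt
    ((Pool.Agent.PB.isOpen_Sp _ _).mem_nhds (abs_lt.1 hz)), T, hT, fun u z hz => by
      exact ((BC_of (hX u) (by norm_num) hT le_rfl le_rfl)).bd z (abs_lt.1 hz)⟩
  have mQ : AEStronglyMeasurable (evN6 fun n => Qy 0 (η n) ρ (ib X))
      (mN6 N) := (evN_meas6 fun n hn =>
    MIn.qy (hF.mc n hn) (hF.hs n hn) hF.b1p hF.b01 hF.sea (FldF.ib hXF)).aestronglyMeasurable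
  have hw : AEStronglyMeasurable (wN6 Z (fun _ => par6) N η η' c) (mN6 N) :=
    (wN_meas6 hF.mZ).aestronglyMeasurable
  have k2 := PBWP.PLX.M2.add0 (mul_nonneg hCq hT) (by positivity) hKj hw mQ kq key
  have k3 := k2.congr (B := evN6 fun n => Qp (η n) ρ (ib X) e (fun _ => h0T t)
      (fun u => cutX ep u x) (LPo6 par6)) fun ω => by
    simp only [evN6, ev6]
    ring
  refine k3.mono (by positivity) ?_ le_rfl hKj
  rw [hA]
  have e1 : 0 ≤ Cq * Te := by positivity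
  have e2 : 0 ≤ Cq * Tc := by positivity
  have e3 : 0 ≤ cL * Te := by positivity
  have e4 : 0 ≤ cL * Tc := by positivity
  have e5 : 0 ≤ KJ ep * Te := by positivity
  have e6 : 0 ≤ KJ ep * Tc := by positivity
  have e7 : 0 ≤ Co * Te := by positivity
  have e8 : 0 ≤ Co * Tc := by positivity
  nlinarith

/-- **the hypothesis `hQ` of the plus channel**, one index -/
theorem hQ_plusI {ep : ℝ} (hep0 : 0 < ep) (hep1 : ep ≤ 1 / 100) (c0 : ℝ) : ∃ CQ : ℝ, 0 ≤ CQ ∧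
    ∀ {N : ℕ} {Z : ℕ → Bool → Option O3 → ℂ → ℂ} {η η' : ℕ → Crs} {c : ℕ → ℂ} {δ b0 : ℝ}
      {κf : ℕ → ℝ} {LZ : ℕ → Bool → ℂ → ℂ} {ρ : ℂ → ℂ} {K q dp : ℝ}
      (_ : FibN6 N Z (fun _ => par6) η η' δ 0 b0 bb6 κf LZ (fun _ => LPo6 par6) ρ)
      (_ : b0 < ep / 4) (_ : 0 ≤ K)
      (_ : PBU.PLX.MBd6 N Z (fun _ => par6) η η' c ρ (-(ep / 4)) bb6' K q dp)
      (_ : PBQM.PLX.Mom4 (mN6 N) (wN6 Z (fun _ => par6) N η η' c) (VN6 N η ρ) (-(ep / 4)) bb6' K)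
      {m : ℕ} (_ : 0 < m) {x : Fin m → ℂ} (_ : Rws0 x) (_ : SeaL bb6 c0 (m : ℝ) ρ) (t : ℝ)
      (M : ℝ) (β e : ℂ → ℂ), 0 ≤ M → TC (-bb6) bb6 (189 / 100) M β →
      TC (-bb6') bb6' (1 / 200) (thM c0 m * M) e →
      M2 (mN6 N) (wN6 Z (fun _ => par6) N η η' c) K
        (evN6 fun n => Qp (η n) ρ (ib fun _ => XS ρ 0 β) (fun _ => e)
          (fun _ => h0T t) (fun u => cutX ep u x) (LPo6 par6)) (CQ * (thM c0 m * M)) := by
  have hl := Bd.l_pos
  have hl2 : 3 / 8 < NUP1.l := by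
    unfold NUP1.l
    linarith [Real.pi_gt_three]
  obtain ⟨CQ, hCQ, H1⟩ := hQ_genI hep0 hep1
  obtain ⟨Cr, hCr, H2⟩ := rho_cutX hep0 hep1 (b := bb6) (c0 := c0) (κ := 189 / 100)
    (κ₁ := 1 / 100) bb6_pos (by norm_num) (by norm_num) (by norm_num)
  refine ⟨CQ * (2 + 2 * Cr), by positivity, ?_⟩
  intro N Z η η' c δ b0 κf LZ ρ K q dp hF hb0 hK hM h4 m hm x hx hρ t M β e hM0 hβ he
  have hth : 0 ≤ thM c0 m := thX_nonneg hρ.Np
  have tX := XS_TC hρ hβ hM0 (κ₁ := 1 / 100) (by norm_num) (by norm_num) 0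
  have hTe : 0 ≤ thM c0 m * M := mul_nonneg hth hM0
  obtain ⟨th, hth'⟩ : ∃ th : ℝ, th = thM c0 m * M := ⟨_, rfl⟩
  have hrc : ∀ u, ‖∫ y : ℝ, ρ y * (XS ρ 0 β y * cutX ep u x y)‖ ≤ Cr * th :=
    fun u => (H2 u m hm x hx ρ hρ M β hβ).trans (le_of_eq (by rw [hth']))
  have k := H1 hF hb0 hK hM h4 hx t (thM c0 m * M) (thM c0 m * M) (2 * (Cr * (thM c0 m * M)))
    (fun _ => XS ρ 0 β) (fun _ => e) hTe (by positivity) (fun _ => tX)
    (fun _ => BC_of he (by norm_num) hTe (by unfold bb6'; linarith) le_rfl)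
    (fun _ z hz => TC.dAt' he le_rfl le_rfl (hz.trans (by unfold bb6'; linarith)))
    (by
      rw [Fintype.sum_bool, ← hth']
      refine (norm_add_le _ _).trans ?_
      have e1 := hrc true
      have e2 := hrc false
      linarith)
  refine k.mono (by positivity) (le_of_eq ?_) le_rfl hK
  ring

/-- **the hypothesis `hQ` of the minus channel**, one index -/
theorem hQ_minusI {ep : ℝ} (hep0 : 0 < ep) (hep1 : ep ≤ 1 / 100) (c0 : ℝ) : ∃ CQ : ℝ, 0 ≤ CQ ∧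
    ∀ {N : ℕ} {Z : ℕ → Bool → Option O3 → ℂ → ℂ} {η η' : ℕ → Crs} {c : ℕ → ℂ} {δ b0 : ℝ}
      {κf : ℕ → ℝ} {LZ : ℕ → Bool → ℂ → ℂ} {ρ : ℂ → ℂ} {K q dp : ℝ}
      (_ : FibN6 N Z (fun _ => par6) η η' δ 0 b0 bb6 κf LZ (fun _ => LPo6 par6) ρ)
      (_ : b0 < ep / 4) (_ : 0 ≤ K)
      (_ : PBU.PLX.MBd6 N Z (fun _ => par6) η η' c ρ (-(ep / 4)) bb6' K q dp)
      (_ : PBQM.PLX.Mom4 (mN6 N) (wN6 Z (fun _ => par6) N η η' c) (VN6 N η ρ) (-(ep / 4)) bb6' K)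
      {m : ℕ} (_ : 0 < m) {x : Fin m → ℂ} (_ : Rws0 x) (_ : SeaL bb6 c0 (m : ℝ) ρ) (t : ℝ)
      (M : ℝ) (β e : ℂ → ℂ), 0 ≤ M → TC (-bb6) bb6 (189 / 100) M β →
      TC (-bb6') bb6' (1 / 200) (thM c0 m * M) e →
      M2 (mN6 N) (wN6 Z (fun _ => par6) N η η' c) K
        (evN6 fun n => Qp (η n) ρ (ib (sg2 (XS ρ 0 β)))
          (sg2 fun z => e z + 4 * mass (XS ρ 0 β) * PBV.tgh z)
          (fun _ => h0T t) (fun u => cutX ep u x) (LPo6 par6)) (CQ * (thM c0 m * M)) := by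
  have hl := Bd.l_pos
  have hl2 : 3 / 8 < NUP1.l := by
    unfold NUP1.l
    linarith [Real.pi_gt_three]
  obtain ⟨CQ, hCQ, H1⟩ := hQ_genI hep0 hep1
  obtain ⟨Cr, hCr, H2⟩ := rho_cutX hep0 hep1 (b := bb6) (c0 := c0) (κ := 189 / 100)
    (κ₁ := 1 / 100) bb6_pos (by norm_num) (by norm_num) (by norm_num)
  refine ⟨CQ * (2402 + 2 * Cr), by positivity, ?_⟩
  intro N Z η η' c δ b0 κf LZ ρ K q dp hF hb0 hK hMB h4 m hm x hx hρ t M β e hM hβ he
  have hth : 0 ≤ thM c0 m := thX_nonneg hρ.Np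
  have tX := XS_TC hρ hβ hM (κ₁ := 1 / 100) (by norm_num) (by norm_num) 0
  have hTe : 0 ≤ thM c0 m * M := mul_nonneg hth hM
  have hm1 : ‖mass (XS ρ 0 β)‖ ≤ thM c0 m * M * 200 := by
    have := PBE.int_XD_le tX bb6_pos (by norm_num) hTe 0 (f := fun _ => 1) (B := 1)
      (fun _ => by simp)
    unfold mass
    simp only [ofReal_zero, sub_zero, mul_one] at this
    refine this.trans (le_of_eq ?_)
    ring
  have hed : ∀ z : ℂ, |z.im| < bb6' → DifferentiableAt ℂ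
      (fun z => e z + 4 * mass (XS ρ 0 β) * PBV.tgh z) z := fun z hz =>
    (TC.dAt' he le_rfl le_rfl hz).add
      ((PBWM.PLX.tgh_dAt bb6'_pos (by unfold bb6'; linarith) hz).const_mul _)
  have heb : ∀ z : ℂ, |z.im| < bb6' → ‖e z + 4 * mass (XS ρ 0 β) * PBV.tgh z‖ ≤
      thM c0 m * M * 2401 := fun z hz => by
    have h2 := (BC_of he (by norm_num) hTe le_rfl le_rfl).bd z (abs_lt.1 hz)
    have h3 := PBWM.PLX.tgh_le (by unfold bb6'; linarith) hz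
    refine (norm_add_le _ _).trans ?_
    rw [norm_mul, norm_mul]
    have h4 : ‖(4 : ℂ)‖ = 4 := by norm_num
    rw [h4]
    have h5 : 4 * ‖mass (XS ρ 0 β)‖ * ‖PBV.tgh z‖ ≤ 4 * (thM c0 m * M * 200) * 3 :=
      mul_le_mul (by linarith) h3 (norm_nonneg _) (by positivity)
    linarith
  have hsub : ∀ z ∈ PBE.Sp (-(ep / 4)) bb6', |z.im| < bb6' := fun z hz =>
    abs_lt.2 ⟨by have h5 := hz.1; unfold bb6'; linarith, hz.2⟩
  obtain ⟨th, hth'⟩ : ∃ th : ℝ, th = thM c0 m * M := ⟨_, rfl⟩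
  have hrc : ∀ u, ‖∫ y : ℝ, ρ y * (sg2 (XS ρ 0 β) u y * cutX ep u x y)‖ ≤
      Cr * th := fun u => by
    have e1 : ∫ y : ℝ, ρ y * (sg2 (XS ρ 0 β) u y * cutX ep u x y) =
        (if u then (-1 : ℂ) else 1) *
          ∫ y : ℝ, ρ y * (XS ρ 0 β y * cutX ep u x y) := by
      rw [← integral_const_mul]
      refine integral_congr_ae (Eventually.of_forall fun y => ?_)
      cases u <;> simp [sg2]
    have e2 : ‖(if u then (-1 : ℂ) else 1)‖ = 1 := by cases u <;> simp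
    rw [e1, norm_mul, e2, one_mul, hth']
    exact H2 u m hm x hx ρ hρ M β hβ
  have k := H1 hF hb0 hK hMB h4 hx t (thM c0 m * M) (thM c0 m * M * 2401)
    (2 * (Cr * (thM c0 m * M)))
    (sg2 (XS ρ 0 β)) (sg2 fun z => e z + 4 * mass (XS ρ 0 β) * PBV.tgh z)
    (by positivity) (by positivity) (fun u => PBE.TC.sg2 tX u)
    (fun u => ⟨fun z hz => by
      rw [PBWM.PLX.sg2_fun]
      exact ((hed z (hsub z hz)).const_mul _).differentiableWithinAt, fun z hz => by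
      rw [PBWM.PLX.norm_sg2]
      exact heb z (hsub z hz)⟩)
    (fun u z hz => by
      rw [PBWM.PLX.sg2_fun]
      exact (hed z (hz.trans (by unfold bb6'; linarith))).const_mul _)
    (by
      rw [Fintype.sum_bool, ← hth']
      refine (norm_add_le _ _).trans ?_
      have e1 := hrc true
      have e2 := hrc false
      linarith)
  refine k.mono (by positivity) (le_of_eq ?_) le_rfl hK
  ring

end PLT

end
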