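import Pool.Agent.PLT.MomI
import Pool.Agent.PHK.UInst6

/-!
# Second moments and one pinned factor at ONE index, any straight curve, any density

`PHK/UInst6` over `UBI` (`PLT/MomI`): nothing is tied to the sea `P`, to `etaC` or to a family.

* `UBI.le`: less statistics; `lint_wN_leI`, `L1_ofI`, `M2_ofI`, `FSI_maj`, `FSI_pin`;
* `M2_oneI`, `M2_VpI`, `M2_VmI`, `M2_SNI`, **`M2_allI`**: second moments (`PBFunc.M2`);
* **`pinsI`**: the structure `PBRep.Pins` (moments with one pinned factor).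
-/

set_option autoImplicit false
set_option linter.unusedSectionVars false
set_option linter.unusedVariables false

noncomputable section

open Complex MeasureTheory Finset
open scoped ENNReal
open PLX (Fil)

namespace PLT.MI

open NUO NUP1 NUP1S NUP1S.Ab NUP1S.AbC NUGC NUGC.PLX NUCR PBF PBF.PLX PBP PBP.PLX PBU PBU.PLX PBFunc PBFunc.PLX
open PBE PBE.PLX PBUI.PLX
open PHK

attribute [local instance] NUSea.seaP

variable [Fil] {Z : Bool → Option O3 → ℂ → ℂ} {P : Par6} {c : ℂ} {N : ℕ} {η η' : Crs}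
variable {e1 K y₁ y₂ b : ℝ} {m p : ℕ} {ρ : ℝ → ℂ}

/-- **less statistics** -/
theorem UBI.le (h : UBI Z P c N η η' e1 m p K y₁ y₂ b ρ) {q : ℕ} (hq : q ≤ p) :
    UBI Z P c N η η' e1 m q K y₁ y₂ b ρ := by
  obtain ⟨s, rfl⟩ := Nat.exists_eq_add_of_le hq
  intro B hB w hw g g' hg
  refine (FSI_mono fun r O a b x => ?_).trans (h B hB w hw
    (fun r O => Fin.append (g r O) (fun (_ : Fin s) _ => 0))
    (fun r O => Fin.append (g' r O) (fun (_ : Fin s) _ => 0))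
    (fun r O j => ⟨BC_appendI (fun j => (hg r O j).1) (fun _ => zero_BCI _ _) j,
      BC_appendI (fun j => (hg r O j).2) (fun _ => zero_BCI _ _) j⟩))
  rw [← prod_nuE_leI]
  refine mul_le_mul' le_rfl ?_
  exact le_mul_of_one_le_right' (one_le_prod_nuEI _ _ _ _ x)

/-- a larger constant per object is a stronger bound -/
theorem UBI.le_K (h : UBI Z P c N η η' e1 m p K y₁ y₂ b ρ) {K' : ℝ} (hK : 0 ≤ K') (hKK : K' ≤ K) :
    UBI Z P c N η η' e1 m p K' y₁ y₂ b ρ := fun B hB w hw g g' hg =>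
  h B hB w (hw.mono hK hKK hB le_rfl) g g' hg

theorem lint_wN_leI (Ψ : Ins) :
    ∫⁻ ω, ‖wI Z P c N η η' ω‖ₑ * ‖(evN6 (fun _ => Ψ) : CfN6 N → ℂ) ω‖ₑ ∂(mN6 N) ≤
    FSI Z P c N η η' fun r O a b x => ‖Ψ r O a b x‖ₑ := by
  unfold FSI mN6
  rw [lintegral_sig, Finset.sum_range]
  refine Finset.sum_le_sum fun n _ => ?_
  rw [← FA_eq_FE6]
  refine le_trans (le_of_eq ?_) (mul_le_mul' (le_refl ‖c‖ₑ) (lint_wC_le6 (Z := Z)
    (P := P) (n := n) (n' := n + dN N) (η := η) (η' := η') Ψ))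
  rw [← lintegral_const_mul' _ _ enorm_ne_top]
  refine lintegral_congr fun x => ?_
  unfold wI wN6 evN6
  rw [enorm_mul, mul_assoc]

theorem L1_ofI {Ψ : Ins} {B : ℝ}
    (h : FSI Z P c N η η' (fun r O a b x => ‖Ψ r O a b x‖ₑ) ≤ ENNReal.ofReal B) :
    L1 (mN6 N) (wI Z P c N η η') (evN6 fun _ => Ψ) B := by
  unfold L1
  refine le_trans (le_of_eq ?_) ((lint_wN_leI Ψ).trans h)
  refine lintegral_congr fun ω => ?_
  rw [ENNReal.ofReal_mul (norm_nonneg _), ofReal_norm, ofReal_norm]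

theorem M2_ofI {Ψ : Ins} {a K : ℝ}
    (h : FSI Z P c N η η' (fun r O c d x => ‖Ψ r O c d x * Ψ r O c d x‖ₑ) ≤
      ENNReal.ofReal (a ^ 2 * K)) :
    M2 (mN6 N) (wI Z P c N η η') K (evN6 fun _ => Ψ) a := by
  unfold M2
  refine le_trans (le_of_eq ?_) ((lint_wN_leI (fun r O c d x => Ψ r O c d x * Ψ r O c d x)).trans h)
  refine lintegral_congr fun ω => ?_
  rw [ENNReal.ofReal_mul (norm_nonneg _), ofReal_norm, ← ofReal_norm (evN6 _ ω)]
  congr 2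
  rw [show (evN6 (fun _ => fun r O c d x => Ψ r O c d x * Ψ r O c d x) : CfN6 N → ℂ) ω =
    (evN6 (fun _ => Ψ) : CfN6 N → ℂ) ω * (evN6 (fun _ => Ψ) : CfN6 N → ℂ) ω from rfl,
    norm_mul, pow_two]

/-! ### the master bound with majorants -/

/-- without pin -/
theorem FSI_maj (h : UBI Z P c N η η' e1 m 2 K y₁ y₂ b ρ) (hK : 6 ≤ K) (s : ℕ) {M : ℝ} (hM : 0 ≤ M)
    {g g' : Fin 2 → ℂ → ℂ} (hg : ∀ j, BC y₁ y₂ 1 (g j) ∧ BC y₁ y₂ 1 (g' j)) {φ : InsE}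
    (hφ : ∀ r O c d x, φ r O c d x ≤ ENNReal.ofReal (M * ((r : ℝ) + 1) ^ s) *
        (nuE ρ (η r O) (g 0) (g' 0) x * nuE ρ (η r O) (g 1) (g' 1) x)) :
    FSI Z P c N η η' φ ≤ ENNReal.ofReal (M * (3 * s.factorial) * b) := by
  have hw := ((OWC.pow (e1 := e1) s m).mono (K' := K) (by norm_num) (by linarith) (by positivity)
    le_rfl).smul hM
  have h3 := h _ (mul_nonneg hM (by positivity)) _ hw (fun _ _ => g) (fun _ _ => g')
    (fun _ _ j => hg j)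
  refine (FSI_mono ?_).trans h3
  intro r O c d x
  rw [Fin.prod_univ_two]
  exact hφ r O c d x

/-- with pin -/
theorem FSI_pin (h : UBI Z P c N η η' e1 m 2 K y₁ y₂ b ρ) (hK : 6 ≤ K) (hm : 0 < m) {q : ℝ}
    (hq0 : 0 ≤ q) (hq : q ≤ 8 / 3) (s : ℕ) {M : ℝ} (hM : 0 ≤ M)
    {g g' : Fin 2 → ℂ → ℂ} (hg : ∀ j, BC y₁ y₂ 1 (g j) ∧ BC y₁ y₂ 1 (g' j)) {φ : InsE}
    (hφ : ∀ r O c d x, φ r O c d x ≤
        ENNReal.ofReal (M * (((r : ℝ) + 1) ^ s * ∑ j, Real.exp (-(q * |ht (O j)|)))) *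
        (nuE ρ (η r O) (g 0) (g' 0) x * nuE ρ (η r O) (g 1) (g' 1) x)) :
    FSI Z P c N η η' φ ≤
      ENNReal.ofReal (M * (3 * s.factorial * (m : ℝ) ^ (-(3 / 8 * q * (1 - 4 * e1)))) * b) := by
  have hw := (OWC.pin_rpow hK hq0 hq e1 s hm).smul hM
  have h3 := h _ (mul_nonneg hM (by positivity)) _ hw (fun _ _ => g) (fun _ _ => g')
    (fun _ _ j => hg j)
  refine (FSI_mono ?_).trans h3
  intro r O c d x
  rw [Fin.prod_univ_two]
  exact hφ r O c d x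

/-! ### second moments -/

/-- **the mass** -/
theorem M2_oneI (h : UBI Z P c N η η' e1 m 2 K y₁ y₂ b ρ) (hK : 6 ≤ K) :
    M2 (mN6 N) (wI Z P c N η η') (3 * b) (fun _ => 1) 1 := by
  refine M2_ofI (Ψ := fun _ _ _ _ _ => 1) ?_
  refine (FSI_maj h hK 0 zero_le_one (g := fun _ _ => 0) (g' := fun _ _ => 0)
    (fun j => ⟨BC.zero _ _, BC.zero _ _⟩) fun r O c d x => ?_).trans (le_of_eq ?_)
  · simp only [pow_zero, mul_one, ENNReal.ofReal_one, one_mul, enorm_one]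
    exact one_le_mul_of_one_le_of_one_le (one_le_nuE _ _ _ _ _) (one_le_nuE _ _ _ _ _)
  · congr 1
    simp [Nat.factorial]

/-- **a statistic of the quanta**, plus -/
theorem M2_VpI (h : UBI Z P c N η η' e1 m 2 K y₁ y₂ b ρ) (hK : 6 ≤ K) {M : ℝ} (hM : 0 ≤ M)
    {g : ℂ → ℂ} (hg : BC y₁ y₂ M g) :
    M2 (mN6 N) (wI Z P c N η η') (3 * b) (Vp6 ρ (fun _ => η) g) M := by
  rw [Vp_ins6]
  refine le_of_lim (f := fun M => M ^ 2 * (3 * b)) (by fun_prop) fun M' hM' => ?_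
  have hM0 : 0 < M' := hM.trans_lt hM'
  have hg' := (hg.mono hM'.le).normed hM0
  refine M2_ofI (a := M') ?_
  refine (FSI_maj h hK 0 (M := M' ^ 2) (by positivity) (g := fun _ => nz M' g)
    (g' := fun _ => nz M' g) (fun j => ⟨hg', hg'⟩) fun r O c d x => ?_).trans (le_of_eq ?_)
  · rw [enorm_mul, pow_zero, mul_one, pow_two, ENNReal.ofReal_mul hM0.le]
    have := vpI_le ρ η g hM0 r O c d x
    refine (mul_le_mul' this this).trans (le_of_eq ?_)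
    ring
  · congr 1
    simp [Nat.factorial]
    ring

/-- **a statistic of the quanta**, minus -/
theorem M2_VmI (h : UBI Z P c N η η' e1 m 2 K y₁ y₂ b ρ) (hK : 6 ≤ K) {M : ℝ} (hM : 0 ≤ M)
    {g : ℂ → ℂ} (hg : BC y₁ y₂ M g) :
    M2 (mN6 N) (wI Z P c N η η') (3 * b) (Vm6 ρ (fun _ => η) g) M := by
  rw [Vm_ins6]
  refine le_of_lim (f := fun M => M ^ 2 * (3 * b)) (by fun_prop) fun M' hM' => ?_
  have hM0 : 0 < M' := hM.trans_lt hM'
  have hg' := (hg.mono hM'.le).normed hM0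
  refine M2_ofI (a := M') ?_
  refine (FSI_maj h hK 0 (M := M' ^ 2) (by positivity) (g := fun _ => nz M' g)
    (g' := fun _ => nz M' g) (fun j => ⟨hg', hg'⟩) fun r O c d x => ?_).trans (le_of_eq ?_)
  · rw [enorm_mul, pow_zero, mul_one, pow_two, ENNReal.ofReal_mul hM0.le]
    have := vmI_le ρ η g hM0 r O c d x
    refine (mul_le_mul' this this).trans (le_of_eq ?_)
    ring
  · congr 1
    simp [Nat.factorial]
    ring

theorem BC_nzI (h1 : -NUP1.l ≤ y₁) (h2 : y₂ ≤ NUP1.l) : BC y₁ y₂ 1 (nz 3 PB.NX.sgC) :=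
  (BC_sgC h1 h2).normed (by norm_num)

/-- **the step** -/
theorem M2_SNI (h : UBI Z par6 c N η η' e1 m 2 K y₁ y₂ b ρ) (hK : 6 ≤ K) (h1 : -NUP1.l ≤ y₁)
    (h2 : y₂ ≤ NUP1.l) :
    M2 (mN6 N) (wI Z par6 c N η η') (345600 * b) (SN6 ρ par6 fun _ => η) 1 := by
  rw [SN_ins6]
  refine M2_ofI (Ψ := snI6 ρ par6 η) ?_
  refine (FSI_maj h hK 2 (M := 240 ^ 2) (by positivity) (g := fun _ => nz 3 PB.NX.sgC)
    (g' := fun _ => nz 3 PB.NX.sgC) (fun j => ⟨BC_nzI h1 h2, BC_nzI h1 h2⟩)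
    fun r O c d x => ?_).trans (le_of_eq ?_)
  · rw [enorm_mul]
    have := step_le6 ρ η r O c d x
    refine (mul_le_mul' this this).trans (le_of_eq ?_)
    rw [show (240 : ℝ) ^ 2 * ((r : ℝ) + 1) ^ 2 = (240 * ((r : ℝ) + 1)) * (240 * ((r : ℝ) + 1)) by ring,
      ENNReal.ofReal_mul (p := 240 * ((r : ℝ) + 1)) (by positivity)]
    ring
  · congr 1
    rw [show Nat.factorial 2 = 2 from rfl]
    push_cast
    ring

/-! ### one pinned factor -/

/-- the pinned bound -/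
def dlI (C e1 a b : ℝ) (m : ℕ) : ℝ := C * (m : ℝ) ^ (-(3 / 8 * a * (1 - 4 * e1))) * b

theorem dlI_mono {C C' e1 a b : ℝ} {m : ℕ} (h : C ≤ C') (hb : 0 ≤ b) :
    dlI C e1 a b m ≤ dlI C' e1 a b m := by
  unfold dlI
  gcongr

/-- **a pinned factor times an insertion with a majorant** -/
theorem L1_pinI (h : UBI Z P c N η η' e1 m 2 K y₁ y₂ b ρ) (hK : 6 ≤ K) (hm : 0 < m) {a : ℝ}
    (ha0 : 0 ≤ a) (ha : a ≤ 8 / 3) (s : ℕ) {M : ℝ} (hM : 0 ≤ M)
    {g g' : Fin 2 → ℂ → ℂ} (hg : ∀ j, BC y₁ y₂ 1 (g j) ∧ BC y₁ y₂ 1 (g' j)) {Ψ : Ins}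
    (hΨ : ∀ r O c d x, ‖Ψ r O c d x‖ₑ ≤ ENNReal.ofReal (M * ((r : ℝ) + 1) ^ s) *
        (nuE ρ (η r O) (g 0) (g' 0) x * nuE ρ (η r O) (g 1) (g' 1) x)) :
    L1 (mN6 N) (wI Z P c N η η')
      (fun ω => (pinN6 a ω : ℂ) * (evN6 (fun _ => Ψ) : CfN6 N → ℂ) ω)
      (M * dlI (3 * s.factorial) e1 a b m) := by
  have e : (fun ω : CfN6 N => (pinN6 a ω : ℂ) * (evN6 (fun _ => Ψ) : CfN6 N → ℂ) ω) =
      evN6 fun _ => fun r O c d x => PBUI.PLX.pinI a r O c d x * Ψ r O c d x := rfl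
  rw [e]
  refine L1_ofI ?_
  refine (FSI_pin h hK hm ha0 ha s hM hg fun r O c d x => ?_).trans (le_of_eq ?_)
  · rw [enorm_mul, pinI_enorm]
    refine (mul_le_mul' le_rfl (hΨ r O c d x)).trans (le_of_eq ?_)
    have hp : 0 ≤ ∑ j, Real.exp (-(a * |ht (O j)|)) := Finset.sum_nonneg fun _ _ => (Real.exp_pos _).le
    rw [show M * (((r : ℝ) + 1) ^ s * ∑ j, Real.exp (-(a * |ht (O j)|))) =
      (∑ j, Real.exp (-(a * |ht (O j)|))) * (M * ((r : ℝ) + 1) ^ s) by ring,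
      ENNReal.ofReal_mul hp]
    ring
  · congr 1
    unfold dlI
    ring

/-- **the moments with one pinned factor** -/
theorem pinsI (h : UBI Z par6 c N η η' e1 m 2 K y₁ y₂ b ρ) (hK : 6 ≤ K) (hm : 0 < m) {a : ℝ}
    (ha0 : 0 ≤ a) (ha : a ≤ 8 / 3) (h1 : y₁ < 0) (h2 : 0 < y₂) (h1' : -NUP1.l ≤ y₁)
    (h2' : y₂ ≤ NUP1.l) (hb : 0 ≤ b) :
    PBRep.Pins y₁ y₂ a (mN6 N) (wI Z par6 c N η η') (Vp6 ρ fun _ => η) (Vm6 ρ fun _ => η)
      (SN6 ρ par6 fun _ => η) (pinN6 a) (dlI 720 e1 a b m) := by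
  have z0 : ∀ j : Fin 2, BC y₁ y₂ 1 ((fun _ _ => 0 : Fin 2 → ℂ → ℂ) j) ∧
      BC y₁ y₂ 1 ((fun _ _ => 0 : Fin 2 → ℂ → ℂ) j) := fun j => ⟨BC.zero _ _, BC.zero _ _⟩
  have d3 : dlI (3 * Nat.factorial 0) e1 a b m ≤ dlI 720 e1 a b m := dlI_mono (by norm_num) hb
  have d0 : 0 ≤ dlI 720 e1 a b m := by
    unfold dlI
    positivity
  have nn : ∀ (r : ℕ) (O : Fin r → Xo) (c d : ℕ) (x : (Fin c → ℝ) × (Fin d → ℝ)),
      1 ≤ nuE ρ (η r O) (fun _ => 0) (fun _ => 0) x * nuE ρ (η r O) (fun _ => 0)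
        (fun _ => 0) x := fun r O c d x =>
    one_le_mul_of_one_le_of_one_le (one_le_nuE _ _ _ _ _) (one_le_nuE _ _ _ _ _)
  -- a statistic of the quanta
  have vv : ∀ (V : (ℂ → ℂ) → Ins), (∀ (M : ℝ) (_ : 0 < M) (g : ℂ → ℂ) (r : ℕ) (O : Fin r → Xo)
      (c d : ℕ) (x : (Fin c → ℝ) × (Fin d → ℝ)), ‖V g r O c d x‖ₑ ≤
        ENNReal.ofReal M * nuE ρ (η r O) (nz M g) (nz M g) x) →
      ∀ M g, PBE.TC y₁ y₂ a M g → L1 (mN6 N) (wI Z par6 c N η η')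
        (fun ω => (pinN6 a ω : ℂ) * (evN6 (fun _ => V g) : CfN6 N → ℂ) ω)
        (M * dlI 720 e1 a b m) := by
    intro V hV M g hg
    have M0 := hg.nonneg h1 h2
    refine le_of_lim (f := fun M => M * dlI 720 e1 a b m) (by fun_prop) fun M' hM' => ?_
    have hM0 : 0 < M' := M0.trans_lt hM'
    have hg' := ((BC.of_TC hg ha0 M0).mono hM'.le).normed hM0
    have := L1_pinI h hK hm ha0 ha 0 hM0.le (g := fun j => if j = 0 then nz M' g else fun _ => 0)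
      (g' := fun j => if j = 0 then nz M' g else fun _ => 0) (fun j => by
        by_cases hj : j = 0
        · simp only [hj, if_true]
          exact ⟨hg', hg'⟩
        · simp only [hj, if_false]
          exact ⟨BC.zero _ _, BC.zero _ _⟩) (Ψ := V g) (fun r O c d x => by
        rw [pow_zero, mul_one]
        refine (hV M' hM0 g r O c d x).trans (mul_le_mul' le_rfl ?_)
        exact le_mul_of_one_le_right' (one_le_nuE _ _ _ _ _))
    exact this.mono (mul_le_mul_of_nonneg_left d3 hM0.le)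
  refine ⟨d0, fun ω => pinN6_nonneg a ω, ?_, ?_, ?_, ?_, ?_⟩
  · have := L1_pinI h hK hm ha0 ha 0 zero_le_one (g := fun _ _ => 0) (g' := fun _ _ => 0) z0
      (Ψ := fun _ _ _ _ _ => 1) (fun r O c d x => by
        rw [enorm_one, pow_zero, mul_one, ENNReal.ofReal_one, one_mul]
        exact nn r O c d x)
    have e : (fun ω : CfN6 N => (pinN6 a ω : ℂ)) = fun ω : CfN6 N => (pinN6 a ω : ℂ) *
        (evN6 (fun _ => fun _ _ _ _ _ => 1) : CfN6 N → ℂ) ω := by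
      funext ω
      exact (mul_one _).symm
    rw [e]
    exact this.mono (by rw [one_mul]; exact d3)
  · have := L1_pinI h hK hm ha0 ha 1 zero_le_one (g := fun _ _ => 0) (g' := fun _ _ => 0) z0
      (Ψ := PBUI.PLX.pinI a) (fun r O c d x => by
        rw [pinI_enorm, pow_one, one_mul]
        refine (ENNReal.ofReal_le_ofReal (pin_le ha0 O)).trans (le_mul_of_one_le_right' ?_)
        exact one_le_mul_of_one_le_of_one_le (one_le_nuE _ _ _ _ _) (one_le_nuE _ _ _ _ _))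
    refine this.mono ?_
    rw [one_mul]
    exact dlI_mono (by norm_num) hb
  · have := L1_pinI h hK hm ha0 ha 1 (M := 240) (by norm_num) (g := fun _ => nz 3 PB.NX.sgC)
      (g' := fun _ => nz 3 PB.NX.sgC) (fun j => ⟨BC_nzI h1' h2', BC_nzI h1' h2'⟩)
      (Ψ := snI6 ρ par6 η) (fun r O c d x => by
        rw [pow_one]
        refine (step_le6 ρ η r O c d x).trans (mul_le_mul' le_rfl ?_)
        exact le_mul_of_one_le_right' (one_le_nuE _ _ _ _ _))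
    refine this.mono (le_of_eq ?_)
    unfold dlI
    norm_num
    ring
  · intro M g hg
    rw [Vp_ins6]
    exact vv (vpI ρ η) (fun M hM g r O c d x => vpI_le ρ η g hM r O c d x) M g hg
  · intro M g hg
    rw [Vm_ins6]
    exact vv (vmI ρ η) (fun M hM g r O c d x => vmI_le ρ η g hM r O c d x) M g hg

/-- **all second moments with one constant** -/
theorem M2_allI (h : UBI Z par6 c N η η' e1 m 2 K y₁ y₂ b ρ) (hK : 6 ≤ K) (h1 : -NUP1.l ≤ y₁)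
    (h2 : y₂ ≤ NUP1.l) (hb : 0 ≤ b) :
    M2 (mN6 N) (wI Z par6 c N η η') (345600 * b) (fun _ => 1) 1 ∧
      (∀ M g, 0 ≤ M → BC y₁ y₂ M g → M2 (mN6 N) (wI Z par6 c N η η') (345600 * b)
        (Vp6 ρ (fun _ => η) g) M) ∧
      (∀ M g, 0 ≤ M → BC y₁ y₂ M g → M2 (mN6 N) (wI Z par6 c N η η') (345600 * b)
        (Vm6 ρ (fun _ => η) g) M) ∧
      M2 (mN6 N) (wI Z par6 c N η η') (345600 * b) (SN6 ρ par6 fun _ => η) 1 := by
  have k0 : 0 ≤ 3 * b := by positivity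
  have kk : 3 * b ≤ 345600 * b := by nlinarith
  exact ⟨(M2_oneI h hK).mono zero_le_one le_rfl kk k0,
    fun M g hM hg => (M2_VpI h hK hM hg).mono hM le_rfl kk k0,
    fun M g hM hg => (M2_VmI h hK hM hg).mono hM le_rfl kk k0, M2_SNI h hK h1 h2⟩

end PLT.MI

end
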