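import Pool.Agent.PLT.LevOne
import Pool.Agent.PLT.HQfI
import Pool.Agent.PLT.MomI2
import Pool.Agent.PLT.FibI
import Pool.Agent.PHK.RepI6

/-!
# What the family of the dislocated function gives at one index of the block S-W (helper46)

Content `x : Fin m → ℂ` with all rows on the imaginary axis, legs at `I τ`.

* `cW x τ`: the normaliser; `ZW ep k x τ`: the class functions; `wW ep k x τ η η'`: the weight on the configurations;
* **`IdxW ep k x τ η η' K dp`**: admissible curves, moments, one pinned factor;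
* **`levD_of`**: the data of level two (`PBEM.LevD`) from `IdxW`; constants depend on `ep` only.
-/

set_option autoImplicit false
set_option linter.unusedSectionVars false

noncomputable section

open Complex MeasureTheory Finset Filter Topology

open PLX (Fil)

namespace PLT.SW

open NUO NUP1 NUCR NUP1S NUP1S.Ab NUP1S.AbC NUGC NUGC.PLX PBFunc PBFunc.PLX PBF PBF.PLX PBE PBE.PLX
open PBWP.PLX PBLX.PLX
open PBEI (y1 y26 h0T mfL Apl6 Ami6 Bch6)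
open PBV (wm)
open PBU.PLX (MBd6 BC)
open PHK
open PBForce (Rws0)
open Pool.Agent.PLX (rwq yq)
open Pool.Agent.PB (Pf)

variable [Fil]

/-- the normaliser -/
abbrev cW {m : ℕ} (x : Fin m → ℂ) (τ : ℝ) : ℂ := Pf (I * τ) x (yq x)

/-- the class functions -/
abbrev ZW (ep : ℝ) (k : ℕ) {m : ℕ} (x : Fin m → ℂ) (τ : ℝ) : Bool → Option O3 → ℂ → ℂ :=
  PLT.FI.ZI k x (4 / 3 * (1 - ep)) (I * τ)

/-- the weight on the configurations -/
abbrev wW (ep : ℝ) (k : ℕ) {m : ℕ} (x : Fin m → ℂ) (τ : ℝ) (η η' : Crs) : CfN6 (2 * m) → ℂ :=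
  wN6 (fun _ => ZW ep k x τ) (fun _ => par6) (2 * m) (fun _ => η) (fun _ => η') (fun _ => cW x τ)

/-- **what the family gives at one index** -/
structure IdxW (ep : ℝ) (k : ℕ) {m : ℕ} (x : Fin m → ℂ) (τ : ℝ) (η η' : Crs) (K dp : ℝ) : Prop where
  crs : PLT.FI.CrsB ep η η'
  K0 : 0 ≤ K
  d0 : 0 ≤ dp
  mbd : MBd6 (2 * m) (fun _ => ZW ep k x τ) (fun _ => par6) (fun _ => η) (fun _ => η')
    (fun _ => cW x τ) (rhA x) (-(ep / 4)) bb6' K (189 / 100) dp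
  mom4 : PBQM.PLX.Mom4 (mN6 (2 * m)) (wW ep k x τ η η') (VN6 (2 * m) (fun _ => η) (rhA x))
    (-(ep / 4)) bb6' K
  mo : PBRep.PLX.Mo6 (19 / 10) (wW ep k x τ η η') (fun u : ℝ => rhA x u) par6 (fun _ => η) K dp

theorem BC_strip {y₁ y₂ y₁' y₂' M : ℝ} {g : ℂ → ℂ} (h : BC y₁' y₂' M g) (h1 : y₁' ≤ y₁)
    (h2 : y₂ ≤ y₂') : BC y₁ y₂ M g := by
  have hs : PBE.Sp y₁ y₂ ⊆ PBE.Sp y₁' y₂' := fun z hz => ⟨h1.trans_lt hz.1, hz.2.trans_le h2⟩
  exact ⟨h.an.mono hs, fun z hz => h.bd z (hs hz)⟩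

theorem MBd6_strip {N : ℕ} {Z : ℕ → Bool → Option O3 → ℂ → ℂ} {P : ℕ → Par6} {η η' : ℕ → Crs}
    {c : ℕ → ℂ} {ρ : ℂ → ℂ} {y₁ y₂ y₁' y₂' K q dp : ℝ} (h : MBd6 N Z P η η' c ρ y₁ y₂ K q dp)
    (h1 : y₁' ≤ y₁) (h2 : y₂ ≤ y₂') : MBd6 N Z P η η' c ρ y₁' y₂' K q dp where
  one := h.one
  vy M g hM hg hm := h.vy M g hM (fun r O s => BC_strip (hg r O s) h1 h2) hm
  pin := h.pin
  pinv M g hM hg hm := h.pinv M g hM (fun r O s => BC_strip (hg r O s) h1 h2) hm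

theorem l_num : 39 / 100 < NUP1.l ∧ NUP1.l < 2 / 5 := by
  unfold NUP1.l
  constructor
  · linarith [Real.pi_gt_d2]
  · linarith [Real.pi_lt_d2]

/-- the data of the fibres -/
theorem fib_of {ep : ℝ} (hep0 : 0 < ep) (hep1 : ep ≤ 1 / 100) (k : ℕ) {m : ℕ} (hm : 0 < m) {x : Fin m → ℂ}
    (hx : Rws0 x) (τ : ℝ) {η η' : Crs} (hC : PLT.FI.CrsB ep η η') {b1 : ℝ} (hb : ep * NUP1.l / 4 < b1)
    (hb' : 2 * b1 ≤ NUP1.l) (hs : PB.SeaF b1 (rhA x)) :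
    FibN6 (2 * m) (fun _ => ZW ep k x τ) (fun _ => par6) (fun _ => η) (fun _ => η') (ep / 4) 0
      (ep * NUP1.l / 4) b1 (fun _ => 1) (fun _ u => PBLZ.PLX.LZX u (4 / 3 * (1 - ep)) x [I, -I] (I * τ))
      (fun _ => LPo6 par6) (rhA x) := by
  have hl := NUP1.l_pos
  refine PLT.FI.fibN6_I hep0 hep1 hC k hm hx.re ?_ le_rfl hb hb' hs (fun _ => one_pos) (fun _ => ?_)
  · have : (I * (τ : ℂ)).re = 0 := by simp
    rw [this, abs_zero]
    positivity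
  · nlinarith

/-- **the data of level two at one index** -/
theorem levD_of {ep : ℝ} (hep0 : 0 < ep) (hep1 : ep ≤ 1 / 100) : ∃ C : ℝ, 1 ≤ C ∧
    ∀ (k : ℕ) {m : ℕ} (_ : 0 < m) {x : Fin m → ℂ} (_ : Rws0 x) (i0 : Fin m) (τ : ℝ) {η η' : Crs}
      {K dp : ℝ} (_ : IdxW ep k x τ η η' K dp),
      PBEM.LevD y1 y26 (19 / 10) (mN6 (2 * m)) (wW ep k x τ η η')
        (Vp6 (fun u : ℝ => rhA x u) fun _ => η) (Vm6 (fun u : ℝ => rhA x u) fun _ => η)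
        (SN6 (fun u : ℝ => rhA x u) par6 fun _ => η) (C * K) (C * (m : ℝ) ^ (-(141 / 200 : ℝ)))
        (C * dp) (mfL τ) PBEI.sg' wm (Apl6 x i0) (Ami6 x i0) Bch6 := by
  obtain ⟨hl1, hl2⟩ := l_num
  have hb6 : bb6 = 19 / 2000 * NUP1.l := rfl
  have hb6' : bb6' = 9 / 1000 * NUP1.l := rfl
  obtain ⟨c0, hc0, hS⟩ := seaL_rows (b := bb6) bb6_pos.le (by rw [hb6]; linarith)
  obtain ⟨c0', hc0', hS'⟩ := seaL_rows (b := bb6') bb6'_pos.le (by rw [hb6']; linarith)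
  obtain ⟨Q1, hQ1, q1⟩ := hQ_plusI hep0 hep1 c0
  obtain ⟨Q2, hQ2, q2⟩ := hQ_minusI hep0 hep1 c0
  obtain ⟨C, hC, H⟩ := levD_one (CQ := max Q1 Q2) (hQ1.trans (le_max_left _ _))
  have hmx : 1 ≤ max 1 c0⁻¹ := le_max_left _ _
  refine ⟨C * max 1 c0⁻¹, one_le_mul_of_one_le_of_one_le hC hmx, fun k m hm x hx i0 τ η η' K dp h => ?_⟩
  have hep4 : ep * NUP1.l / 4 < ep / 4 := by nlinarith
  have f6 := fib_of hep0 hep1 k hm hx τ h.crs (b1 := bb6) (by rw [hb6]; nlinarith)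
    (by rw [hb6]; linarith) (hS m x hm hx).2
  have f6' := fib_of hep0 hep1 k hm hx τ h.crs (b1 := bb6') (by rw [hb6']; nlinarith)
    (by rw [hb6']; linarith) (hS' m x hm hx).2
  have sL := (hS m x hm hx).1
  have th0 : 0 ≤ thX c0 (m : ℝ) (189 / 100 - 1 / 100) 0 := thX_nonneg (by exact_mod_cast hm)
  have m2 : ∀ {X : CfN6 (2 * m) → ℂ} {Q M : ℝ}, 0 ≤ Q → 0 ≤ M → Q ≤ max Q1 Q2 →
      M2 (mN6 (2 * m)) (wW ep k x τ η η') K X (Q * (thX c0 (m : ℝ) (189 / 100 - 1 / 100) 0 * M)) →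
      M2 (mN6 (2 * m)) (wW ep k x τ η η') K X
        (max Q1 Q2 * (thX c0 (m : ℝ) (189 / 100 - 1 / 100) 0 * M)) := by
    intro X Q M hQ hM hQm hX
    exact hX.mono (mul_nonneg hQ (mul_nonneg th0 hM))
      (mul_le_mul_of_nonneg_right hQm (mul_nonneg th0 hM)) le_rfl h.K0
  have hF : Fib1 (2 * m) x (4 / 3 * (1 - ep)) [I, -I] τ (fun _ => ZW ep k x τ) (fun _ => η)
      (fun _ => η') (fun _ => cW x τ) (ep / 4) (ep * NUP1.l / 4) (fun _ => 1) c0 (m : ℝ) K dp :=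
    { hx := hx.re
      fib := f6'
      sea := sL
      K0 := h.K0
      d0 := h.d0
      mb := MBd6_strip h.mbd (by rw [hb6']; nlinarith) le_rfl }
  have hth : C * thX c0 (m : ℝ) (189 / 100 - 1 / 100) 0 ≤
      C * max 1 c0⁻¹ * (m : ℝ) ^ (-(141 / 200 : ℝ)) := by
    unfold thX
    rw [abs_zero, mul_zero, Real.exp_zero, mul_one,
      show -(3 / 8 * (189 / 100 - 1 / 100) : ℝ) = -(141 / 200) by norm_num]
    exact le_of_eq (by ring)
  exact H i0 hF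
    (fun M β e hM hβ he => m2 hQ1 hM (le_max_left _ _)
      (q1 f6 hep4 h.K0 h.mbd h.mom4 hm hx sL τ M β e hM hβ he))
    (fun M β e hM hβ he => m2 hQ2 hM (le_max_right _ _)
      (q2 f6 hep4 h.K0 h.mbd h.mom4 hm hx sL τ M β e hM hβ he))
    _ _ _ (mul_le_mul_of_nonneg_right (le_mul_of_one_le_right (by linarith) hmx) h.K0) hth
    (mul_le_mul_of_nonneg_right (le_mul_of_one_le_right (by linarith) hmx) h.d0)

end PLT.SW

end
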