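import Pool.Agent.PHK.RepL6

/-!
# Legs of any height: the linear insertion of the first Ward identity

`PHK/RepL6` with a leg at `i τ`, `τ` real, without a bound of `|τ|`: every constant gets the factor
`e^{2 |τ|}`.

* **`exists_gl_decT`**: the test function `qF x i0 τ` and the values of `m gl x i0 (i τ)`.
-/

set_option autoImplicit false
set_option linter.unusedSectionVars false

noncomputable section

open Complex MeasureTheory Finset

namespace PLT

open NUP1 hiding Kd
open NUO NUP1S NUGC NUGC.PLX PHK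
open PBI (Kd)
open PBForce (Rws0)
open PBQ1 (xiK lamK)
open PBRep.PLX (gl)

/-- **the constants, legs of any height** -/
theorem exists_gl_decT {C2 : ℝ} (hC2 : 0 ≤ C2)
    (hL : ∀ z : ℂ, z.re = 0 → ∀ (b : Kd), ∀ u ∈ PBOb.DQ6 b,
      ‖lamK z b u‖ ≤ C2 * Real.exp (2 * |z.im|) * Real.exp (-2 * |u.im|)) :
    ∃ C : ℝ, 0 < C ∧ ∀ (m : ℕ) (x : Fin m → ℂ) (i0 : Fin m), Rws0 x → ∀ τ : ℝ,
      ∀ a : ℝ, 0 ≤ a → a ≤ 2 →
      PBE.TC PBEI.y1 PBEI.y26 a (C * Real.exp (2 * |τ|)) (PBEI.qF x i0 τ) ∧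
      ∀ b, ∀ z ∈ PBOb.DQ6 b, ‖(m : ℂ) * gl x i0 (I * τ) b z‖ ≤
        C * Real.exp (2 * |τ|) * Real.exp (-a * |z.im|) := by
  have hl := Bd.l_pos
  obtain ⟨C1, hC1, h1⟩ := PBForce.xiR_le (b := 9 / 10 * NUP1.l) (by positivity) (by
    show 9 / 10 * NUP1.l < NUP1.l
    linarith)
  obtain ⟨C3, hC3, h3⟩ := PBEI.qF_TC6
  refine ⟨C3 + C1 * C2 + 1, by positivity, fun m x i0 hx τ a ha0 ha =>
    ⟨⟨(h3 m x i0 hx a ha0 ha τ).an, fun z hz => ?_⟩, fun b u hu => ?_⟩⟩
  · refine ((h3 m x i0 hx a ha0 ha τ).bd z hz).trans ?_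
    refine mul_le_mul_of_nonneg_right ?_ (Real.exp_pos _).le
    have h4 : Real.exp (a * |τ|) ≤ Real.exp (2 * |τ|) :=
      Real.exp_le_exp.2 (mul_le_mul_of_nonneg_right ha (abs_nonneg τ))
    have h6 : 0 ≤ C1 * C2 := by positivity
    have h7 := Real.exp_pos (2 * |τ|)
    have h5 := mul_le_mul_of_nonneg_left h4 hC3.le
    nlinarith [mul_nonneg h6 h7.le]
  · have hm : (0 : ℝ) < m := by exact_mod_cast i0.pos
    have k1 : ‖xiK x i0 b u‖ ≤ C1 / m := by
      refine h1 m x i0 hx _ ?_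
      obtain ⟨s, k⟩ := b
      obtain ⟨h4, h5⟩ := hu
      rcases k with _ | k
      · show |(u - NUP1.l : ℂ).re| ≤ _
        rw [sub_re, ofReal_re]
        simp only [PBOb.lo6, PBOb.hi6] at h4 h5
        rw [abs_le]
        constructor <;> linarith
      · show |(u + 2 * NUP1.l - NUP1.l : ℂ).re| ≤ _
        have e : (u + 2 * NUP1.l - NUP1.l : ℂ).re = u.re + NUP1.l := by
          simp
          ring
        rw [e, abs_le]
        cases k <;> simp only [PBOb.lo6, PBOb.hi6] at h4 h5 <;> constructor <;> linarith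
    have k2 := hL (I * τ) (by simp) b u hu
    have hzi : (I * (τ : ℂ)).im = τ := by simp
    rw [hzi] at k2
    have k3 : Real.exp (-2 * |u.im|) ≤ Real.exp (-a * |u.im|) := by
      refine Real.exp_le_exp.2 ?_
      have := mul_le_mul_of_nonneg_right ha (abs_nonneg u.im)
      linarith
    have hE := Real.exp_pos (2 * |τ|)
    unfold PBRep.PLX.gl
    rw [norm_mul, norm_mul, Complex.norm_natCast]
    calc (m : ℝ) * (‖xiK x i0 b u‖ * ‖lamK (I * τ) b u‖) ≤
          (m : ℝ) * (C1 / m * (C2 * Real.exp (2 * |τ|) * Real.exp (-a * |u.im|))) := by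
          refine mul_le_mul_of_nonneg_left ?_ hm.le
          exact mul_le_mul k1 (k2.trans (mul_le_mul_of_nonneg_left k3 (by positivity)))
            (norm_nonneg _) (by positivity)
      _ = C1 * C2 * Real.exp (2 * |τ|) * Real.exp (-a * |u.im|) := by
          field_simp
      _ ≤ _ := by
          refine mul_le_mul_of_nonneg_right ?_ (Real.exp_pos _).le
          refine mul_le_mul_of_nonneg_right ?_ hE.le
          linarith

end PLT

end
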