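import Pool.Agent.PHK.EMain6

/-!
# `(E')` for any content on the imaginary axis, legs at any height

`PHK/EInst6`, `PHK/EMain6` at one index: any rows `x` with `Rws0 x`, any row `i0`, any height `τ` of the
legs (the constants grow like `exp (5 |τ|)`).

* `Lim.shift`, `MeanDat.shift`, **`meanDatT`**: the mean data of the legs at every height;
* **`vdatT`**: the data of the values;
* **`E_fieldT`**: `(E')` at the true field;
* **`E_index`**: `(E')` from the level two data `LevD`, the first Ward identity and the derivatives in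
  the height of the legs, at one index.
-/

set_option autoImplicit false

open Complex Set Filter Topology MeasureTheory

noncomputable section

namespace Pool.Agent.PB

theorem Lim.shift {f f' : ℝ → ℂ} {B : ℝ} {fp fm : ℂ} (h : Lim f f' B fp fm) (hB : 0 ≤ B) (τ : ℝ) :
    Lim (fun t => f (t - τ)) (fun t => f' (t - τ)) (B * Real.exp (|τ| / 2)) fp fm where
  d s := by
    have h1 := h.d (s - τ)
    exact HasDerivAt.comp_sub_const s τ h1
  c := h.c.comp (by fun_prop)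
  b s := (h.b _).trans (le_mul_of_one_le_right hB (Real.one_le_exp (by positivity)))
  b' s := by
    refine (h.b' _).trans ?_
    rw [mul_assoc, ← Real.exp_add]
    refine mul_le_mul_of_nonneg_left (Real.exp_le_exp.2 ?_) hB
    have h1 : |s| ≤ |s - τ| + |τ| := by
      have := abs_add_le (s - τ) τ
      rwa [sub_add_cancel] at this
    linarith
  top := h.top.comp (tendsto_atTop_add_const_right atTop (-τ) tendsto_id)
  bot := h.bot.comp (tendsto_atBot_add_const_right atBot (-τ) tendsto_id)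

theorem MeanDat.shift {m m' D D' : ℝ → ℂ} {B : ℝ} {mp mm : ℂ} (h : MeanDat m m' D D' B mp mm)
    (hB : 0 ≤ B) (τ : ℝ) :
    MeanDat (fun t => m (t - τ)) (fun t => m' (t - τ)) (fun t => D (t - τ)) (fun t => D' (t - τ))
      (B * Real.exp (|τ| / 2)) mp mm where
  lim := h.lim.shift hB τ
  dD t := HasDerivAt.comp_sub_const t τ (h.dD (t - τ))
  eq t := by
    have h1 := h.eq (t - τ)
    rw [← h1, ← integral_sub_right_eq_self (fun s : ℝ => m s * (NUMF.V (t - τ - s) : ℂ)) τ]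
    refine integral_congr_ae (Eventually.of_forall fun s => ?_)
    simp only []
    rw [show t - τ - (s - τ) = t - s by ring]
  top := h.top.comp (tendsto_atTop_add_const_right atTop (-τ) tendsto_id)
  bot := h.bot.comp (tendsto_atBot_add_const_right atBot (-τ) tendsto_id)

end Pool.Agent.PB

namespace PBEI

open NUMF (l r l_pos r_pos r_lt_one)
open PBForce (xiR xiP xiM Rws0 pc rhoR)
open PBV
open Pool.Agent.PB (Lim rl KC KmC MeasR MeanDat VDat Kw Kg TC_Lim mV CV CmV CsV CssV)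

variable {m : ℕ}

/-- **the mean data of the legs at every height** -/
theorem meanDatT : ∃ B : ℝ, 1 ≤ B ∧ ∀ τ : ℝ,
    MeanDat (mfL τ) (mfL' τ) (fun t => PBLeg.Dleg 0 (t - τ)) (rl (h0T τ)) (B * Real.exp (|τ| / 2))
      (8 * I / (3 * Real.pi)) (-(8 * I / (3 * Real.pi))) := by
  obtain ⟨B, hB, h⟩ := meanDat
  refine ⟨B, hB, fun τ => ?_⟩
  have h1 := (h 0 (by simp)).shift (by linarith) τ
  have e1 : (fun t : ℝ => mfL 0 (t - τ)) = mfL τ := by
    funext t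
    unfold mfL
    push_cast
    rw [sub_zero]
  have e2 : (fun t : ℝ => mfL' 0 (t - τ)) = mfL' τ := by
    funext t
    unfold mfL'
    push_cast
    rw [sub_zero]
  have e3 : (fun t : ℝ => rl (h0T 0) (t - τ)) = rl (h0T τ) := by
    funext t
    show h00 (((t - τ : ℝ) : ℂ) - ((0 : ℝ) : ℂ)) = h00 ((t : ℂ) - τ)
    push_cast
    rw [sub_zero]
  rw [e1, e2, e3] at h1
  exact h1

/-- **the data of the values at the true field**, legs at any height -/
theorem vdatT {a a' : ℝ} (ha : 1 / 2 ≤ a') (haa : a' < a) (ha2 : a < 2) : ∃ C1 C : ℝ, 0 < C1 ∧ 32 ≤ C ∧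
    ∀ (m : ℕ) (x : Fin m → ℂ) (i0 : Fin m), Rws0 x → ∀ τ : ℝ,
    ∀ (mf mf' D : ℝ → ℂ) (B : ℝ) (mp mm : ℂ), MeanDat mf mf' D (rl (h0T τ)) B mp mm → ∀ b : ℝ, C ≤ b → B ≤ b →
      VDat y1 y26 a' (l / 20) wm wm (Apl6 x i0) Bch6 (aE C1 a) (bE' C1 a') (Ami6 x i0) Bch6 (aE C1 a) (bE' C1 a')
        (rF x i0) (uF x i0) (h0T τ) (g2T τ) (qF x i0 τ)
        (fun t : ℝ => deriv (rF x i0) t) (rl (deriv (uF x i0))) sg sg' sg'' mf mf' D b
        (C * Real.exp (a' * |τ|)) (C * Real.exp (a' * |τ|)) (C * Real.exp (a' * |τ|)) C (rP x i0) (rM x i0)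
        mp mm ∧
      ∫ q, aE C1 a q * bE' C1 a' q ∂wm ≤ C ∧ ‖rP x i0‖ ≤ C ∧ ‖rM x i0‖ ≤ C := by
  have hl := l_pos
  have ha0 : 0 ≤ a' := by linarith
  have ha1 : 0 < a' := by linarith
  have hd : 0 < a - a' := by linarith
  obtain ⟨C1, hC1, h1⟩ := rep_EF6 ha0 haa ha2
  obtain ⟨C2, hC2, h2⟩ := rF_XiA (b := 19 / 20 * l) (by linarith) (by linarith)
  obtain ⟨C3, hC3, h3⟩ := uF_TC6
  obtain ⟨C4, hC4, h4⟩ := qF_TC6
  have hcL := cL_pos
  set Cu := max C3 (C3 * Real.exp (a' * (l / 20)) / (l / 20)) with hCu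
  have hCu0 : 0 < Cu := lt_of_lt_of_le hC3 (le_max_left _ _)
  set G := cL * Real.exp (a' * (l / 10)) / (l / 10) with hG
  have hG0 : 0 < G := by positivity
  set W := C1 ^ 2 * (4 / (a - a')) with hW
  have hW0 : 0 < W := by positivity
  refine ⟨C1, 32 + W + 3 * C2 + Cu + cL + G + C4, hC1, by linarith,
    fun m x i0 hx τ mf mf' D B mp mm hm b hb hB => ?_⟩
  set C := 32 + W + 3 * C2 + Cu + cL + G + C4 with hC
  obtain ⟨r1, r2, r3⟩ := h1 m x i0 hx
  obtain ⟨hXi, hP, hM⟩ := h2 m x i0 hx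
  have hE0 := Real.exp_pos (a' * |τ|)
  have e1 : y1 = -(l / 10) := rfl
  have e2 : y26 = 351 / 400 * l := rfl
  have hu := h3 m x i0 hx a' (by linarith)
  have hy1 : y1 < 0 := by rw [e1]; linarith
  have hy2 : 0 < y26 := by rw [e2]; linarith
  refine ⟨{
    ha := ha1
    hθ := by linarith
    h1 := by rw [e1]; linarith
    h2 := by rw [e2]; linarith
    hb := by linarith
    hR := r1
    hR' := r2
    mA := MeasR_of (Apl_measurable6 x i0)
    mB := MeasR_of Bch_measurable6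
    mA' := MeasR_of (Ami_measurable6 x i0)
    mB' := MeasR_of Bch_measurable6
    kp := kp_field6 x i0 hx
    km := km_field6 x i0 hx
    lr := (XiA.lim hXi (by norm_num)).mono (by linarith)
    lu := (TC_Lim hu ha (by linarith : 0 < l / 20) (by rw [e1]; linarith) (by rw [e2]; linarith)).mono
      (by rw [← hCu]; linarith)
    ls := lim_sg.mono (by linarith)
    ls' := lim_sg'.mono (by linarith)
    tu := hu.mono (by linarith [le_max_left C3 (C3 * Real.exp (a' * (l / 20)) / (l / 20))])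
    hm := { hm with lim := hm.lim.mono hB }
    th0 := (h0_TC6 ha0 (by linarith) τ).mono (mul_le_mul_of_nonneg_right (by linarith) hE0.le)
    tg2 := (g2_TC6 ha0 (by linarith) τ).mono ?_
    dg2 := fun t => ?_
    tq := (h4 m x i0 hx a' ha0 (by linarith) τ).mono (mul_le_mul_of_nonneg_right (by linarith) hE0.le)
    eq := fun t => rfl }, ?_, by linarith, by linarith⟩
  · have e3 : cL * Real.exp (a' * |τ|) * Real.exp (a' * (l / 10)) / (l / 10) =
        G * Real.exp (a' * |τ|) := by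
      rw [hG]
      ring
    rw [e3]
    exact mul_le_mul_of_nonneg_right (by linarith) hE0.le
  · exact Pool.Agent.PB.TC_deriv (h0_TC6 ha0 (by linarith) τ) hy1 hy2 t
  · show ∫ q, (C1 * Real.exp (-(a * |q.2|))) * (C1 * Real.exp (a' * |q.2|)) ∂wm ≤ C
    rw [r3]
    linarith

/-- **`(E')` at the true field**: any rows on the imaginary axis, legs at any height -/
theorem E_fieldT {a' : ℝ} (ha : 1 / 2 ≤ a') (ha2 : a' < 2) : ∃ K : ℝ, 0 < K ∧
    ∀ (m : ℕ) (x : Fin m → ℂ) (i0 : Fin m), Rws0 x → ∀ τ : ℝ,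
    ∀ (f fη fτ fττ : ℂ) (G1 : (ℂ → ℂ) → ℂ) (G2 H2 : (ℂ → ℂ) → (ℂ → ℂ) → ℂ) (Hs : (ℂ → ℂ) → ℂ) (Hss : ℂ)
      (δ δ0 : ℝ), 0 ≤ δ →
      PBE.Lev2 y1 y26 a' f G1 G2 (mV (mfL τ)) CV δ →
      PBE.Lev2m y1 y26 a' f H2 Hs Hss CmV (CsV sg') (CssV sg') δ →
      PBE.Lin1 y1 y26 a' G1 → PBE.Lin2 y1 y26 a' G2 →
      Integrable (fun s => G2 (Apl6 x i0 s) (Bch6 s)) wm →
      Integrable (fun s => H2 (Ami6 x i0 s) (Bch6 s)) wm →
      ‖fη - ((∫ s, G2 (Apl6 x i0 s) (Bch6 s) ∂wm) +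
        ((∫ s, H2 (Ami6 x i0 s) (Bch6 s) ∂wm) + 2 * Hs (uF x i0) - (rP x i0 - rM x i0) / 2 * Hss) +
          G1 (qF x i0 τ))‖ ≤ δ0 →
      ‖G1 (h0T τ) + fτ‖ ≤ δ → ‖G2 (h0T τ) (h0T τ) + G1 (g2T τ) - fττ‖ ≤ δ →
      ‖fη - (-((rP x i0 - rM x i0) / 8) * fττ - (rP x i0 + rM x i0) / 2 * fτ)‖ ≤
        δ0 + K * Real.exp (5 * |τ|) * δ := by
  have hl := l_pos
  obtain ⟨C1, C, hC1, hC, h⟩ := vdatT (a := (a' + 2) / 2) ha (by linarith) (by linarith)
  obtain ⟨B, hB, hmd⟩ := meanDatT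
  have ha0 : 0 < a' := by linarith
  set n := 2 * (3 * l) with hn
  have hn0 : 0 < n := by positivity
  set F := 1 + 2 * C / (a' * n) with hF
  have hC0 : 0 < C := by linarith
  have hF0 : 0 < F := by positivity
  have hB0 : 0 < B := by linarith
  refine ⟨(3 + (C + B) * (2 / a')) * F ^ 2 * C + (C + 2 * C + C) + C * F + C + C * (1 + C), by positivity,
    fun m x i0 hx τ f fη fτ fττ G1 G2 H2 Hs Hss δ δ0 hδ hL hL' hG1 hG2 iG iH hI h1 h2 => ?_⟩
  set e := Real.exp (a' * |τ|) with he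
  set e' := Real.exp (|τ| / 2) with he'
  have hτ := abs_nonneg τ
  have e1 : 1 ≤ e := Real.one_le_exp (by positivity)
  have e1' : 1 ≤ e' := Real.one_le_exp (by positivity)
  have hC1' : C ≤ C * e' + B * e' := by nlinarith
  have hB1' : B * e' ≤ C * e' + B * e' := by nlinarith
  obtain ⟨d, hint, hP, hM⟩ := h m x i0 hx τ _ _ _ _ _ _ (hmd τ) (C * e' + B * e') hC1' hB1'
  have key := d.E_prime hδ hL hL' hG1 hG2 iG iH hI h1 h2
  refine key.trans ?_
  have hmass : ‖PBE.mass (h0T τ)‖ = n := by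
    rw [mass_h0, norm_mul, norm_mul, norm_I, norm_real, Real.norm_of_nonneg hl.le]
    have : ‖(6 : ℂ)‖ = 6 := by simp
    rw [this, hn]; ring
  rw [hmass]
  have hD : ‖rP x i0 - rM x i0‖ ≤ 2 * C := (norm_sub_le _ _).trans (by linarith)
  have hS : ‖(rP x i0 + rM x i0) / 2‖ ≤ C := by
    rw [norm_div]
    have h3 := norm_add_le (rP x i0) (rM x i0)
    have : ‖(2 : ℂ)‖ = 2 := by simp
    rw [this]; linarith
  have hD8 : ‖-((rP x i0 - rM x i0) / 8)‖ ≤ C := by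
    rw [norm_neg, norm_div]
    have : ‖(8 : ℂ)‖ = 8 := by simp
    rw [this]; linarith
  have hIn0 : 0 ≤ ∫ q, aE C1 ((a' + 2) / 2) q * bE' C1 a' q ∂wm := integral_nonneg fun q => by positivity
  -- the factor of the legs
  have hFe : 1 + 2 * (C * e) / (a' * n) ≤ F * e := by
    have : 2 * (C * e) / (a' * n) = 2 * C / (a' * n) * e := by ring
    rw [this, hF, add_mul, one_mul]
    linarith
  have hFe0 : 0 ≤ 1 + 2 * (C * e) / (a' * n) := by positivity
  have hX : Real.exp (5 * |τ|) = Real.exp (5 * |τ|) := rfl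
  have hee : e' * e ^ 2 ≤ Real.exp (5 * |τ|) := by
    rw [he, he', ← Real.exp_nat_mul, ← Real.exp_add]
    refine Real.exp_le_exp.2 ?_
    push_cast
    nlinarith
  have hX1 : e ≤ Real.exp (5 * |τ|) := by
    refine le_trans ?_ hee
    nlinarith
  have hX2 : e * e ≤ Real.exp (5 * |τ|) := by
    refine le_trans ?_ hee
    nlinarith
  have hX0 : 1 ≤ Real.exp (5 * |τ|) := e1.trans hX1
  obtain ⟨X, hXd⟩ : ∃ X, X = Real.exp (5 * |τ|) := ⟨_, rfl⟩
  rw [← hXd] at hee hX1 hX2 hX0 ⊢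
  have t1 : (3 + (C * e' + B * e') * (2 / a')) * (1 + 2 * (C * e) / (a' * n)) ^ 2 *
      (∫ q, aE C1 ((a' + 2) / 2) q * bE' C1 a' q ∂wm) ≤ (3 + (C + B) * (2 / a')) * F ^ 2 * C * X := by
    have s1 : 3 + (C * e' + B * e') * (2 / a') ≤ (3 + (C + B) * (2 / a')) * e' := by
      have : (C * e' + B * e') * (2 / a') = (C + B) * (2 / a') * e' := by ring
      rw [this, add_mul]
      linarith
    have s2 : (1 + 2 * (C * e) / (a' * n)) ^ 2 ≤ (F * e) ^ 2 := pow_le_pow_left₀ hFe0 hFe 2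
    have s0 : 0 ≤ 3 + (C * e' + B * e') * (2 / a') := by positivity
    calc _ ≤ ((3 + (C + B) * (2 / a')) * e') * (F * e) ^ 2 * C := by gcongr
      _ = (3 + (C + B) * (2 / a')) * F ^ 2 * C * (e' * e ^ 2) := by ring
      _ ≤ _ := mul_le_mul_of_nonneg_left hee (by positivity)
  have t2 : (∫ q, aE C1 ((a' + 2) / 2) q * bE' C1 a' q ∂wm) + 2 * C + ‖rP x i0 - rM x i0‖ / 2 ≤
      (C + 2 * C + C) * X := by
    have : (C + 2 * C + C) * 1 ≤ (C + 2 * C + C) * X := by gcongr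
    linarith
  have t3 : C * e * (1 + 2 * (C * e) / (a' * n)) ≤ C * F * X := by
    calc C * e * (1 + 2 * (C * e) / (a' * n)) ≤ C * e * (F * e) := by gcongr
      _ = C * F * (e * e) := by ring
      _ ≤ _ := mul_le_mul_of_nonneg_left hX2 (by positivity)
  have t4 : ‖(rP x i0 + rM x i0) / 2‖ ≤ C * X := hS.trans (le_mul_of_one_le_right hC0.le hX0)
  have t5 : ‖-((rP x i0 - rM x i0) / 8)‖ * (1 + C * e) ≤ C * (1 + C) * X := by
    calc _ ≤ C * (X + C * X) := by gcongr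
      _ = _ := by ring
  refine add_le_add le_rfl (mul_le_mul_of_nonneg_right ?_ hδ)
  calc _ ≤ (3 + (C + B) * (2 / a')) * F ^ 2 * C * X + (C + 2 * C + C) * X + C * F * X + C * X +
        C * (1 + C) * X := by linarith
    _ = _ := by ring

/-- **`(E')` from the Ward identities at one index** -/
theorem E_index {a' : ℝ} (ha : 1 / 2 ≤ a') (ha2 : a' < 2) : ∃ K : ℝ, 0 < K ∧
    ∀ (Ω : Type) [MeasurableSpace Ω] (μ : Measure Ω) [SFinite μ] (w : Ω → ℂ)
      (V Vm : (ℂ → ℂ) → Ω → ℂ) (S : Ω → ℂ) (K' th δp δ0 δ1 : ℝ) (m : ℕ) (x : Fin m → ℂ) (i0 : Fin m)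
      (τ : ℝ) (fη fτ fττ : ℂ), Rws0 x →
      PBEM.LevD y1 y26 a' μ w V Vm S K' th δp (mfL τ) PBEI.sg' wm (Apl6 x i0) (Ami6 x i0) Bch6 →
      ‖fη - ((∫ q, PBFunc.F μ w (fun ω => V (Apl6 x i0 q) ω * V (Bch6 q) ω) ∂wm) +
        ((∫ q, PBFunc.F μ w (fun ω => Vm (Ami6 x i0 q) ω * Vm (Bch6 q) ω) ∂wm) +
          2 * PBFunc.F μ w (fun ω => Vm (uF x i0) ω * S ω) -
          (rP x i0 - rM x i0) / 2 * PBFunc.F μ w (fun ω => S ω * S ω)) +
        PBFunc.F μ w (V (qF x i0 τ)))‖ ≤ δ0 →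
      ‖PBFunc.F μ w (V (h0T τ)) + fτ‖ ≤ δ1 →
      ‖PBFunc.F μ w (fun ω => V (h0T τ) ω * V (h0T τ) ω) + PBFunc.F μ w (V (g2T τ)) - fττ‖ ≤ δ1 →
      ‖fη - (-((rP x i0 - rM x i0) / 8) * fττ - (rP x i0 + rM x i0) / 2 * fτ)‖ ≤
        δ0 + K * Real.exp (5 * |τ|) * (2 * K' * th + δp + δ1) := by
  obtain ⟨K, hK, hE⟩ := E_fieldT ha ha2
  obtain ⟨C1, CC, -, -, hV⟩ := vdatT (a := (a' + 2) / 2) ha (by linarith) (by linarith)
  obtain ⟨B, hB, hmd⟩ := meanDatT
  refine ⟨K, hK, fun Ω _ μ _ w V Vm S K' th δp δ0 δ1 m x i0 τ fη fτ fττ hx L hD e1 e2 => ?_⟩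
  obtain ⟨dv, -⟩ := hV m x i0 hx τ _ _ _ _ _ _ (hmd τ) (max CC (B * Real.exp (|τ| / 2)))
    (le_max_left _ _) (le_max_right _ _)
  have hy1 := PBEM.y1_neg
  have hy2 := PBEM.y2_pos6
  have hδ1 : 0 ≤ δ1 := (norm_nonneg _).trans e1
  have hKt : 0 ≤ 2 * K' * th := by
    have := L.K0
    have := L.th0
    positivity
  have hdp := L.dp0
  exact hE m x i0 hx τ (PBFunc.F μ w (fun _ => 1)) fη fτ fττ _ _ _ _ _ (2 * K' * th + δp + δ1) δ0
    (by linarith) ((L.lev2 hy1 hy2).mono hy1 hy2 (by linarith))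
    ((L.lev2m hy1 hy2).mono hy1 hy2 (by linarith)) (L.lin1 hy1 hy2)
    (L.lin2 hy1 hy2) (L.iG hy1 hy2 dv.hR) (L.iH hy1 hy2 dv.hR') hD (e1.trans (by linarith))
    (e2.trans (by linarith))

end PBEI

end
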