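import Pool.Agent.PHK.LevP6
import Pool.Agent.PHK.LevN6
import Pool.Agent.PLT.EInstI

/-!
# Level two at ONE index: any rows on the imaginary axis, legs at any height

The landed levels (`LevI6`, `LevP6`, `LevN6`, `LevX6`, `LevF6`) are for the index `(j, s, t)` of one moved row and
`0 ≤ t ≤ 1`. Here the rows are any `x : Fin m → ℂ` with `re = 0`, the legs are at `I t`, `t` any real number, and
there is no filter: **`levD_one`** gives `PBEM.LevD` from the data of the fibres, the lower bound of the density, the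
moments and the two bounds of the remainder; the constant comes before all data.

* `rhA x`: the density of the rows as a function of the height; `hr_axis`, `hl_axis`, `hl_fibA`;
* `Fib1`: the data of one index; `Fib1.bas`;
* `wpl_one` (plus channel), `wmi_one` (minus channel), **`levD_one`**.
-/

set_option autoImplicit false
set_option linter.unusedSectionVars false

noncomputable section

open Complex MeasureTheory Finset Filter Topology

open PLX (Fil)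

namespace PLT

open NUO NUP1 NUCR NUP1S NUP1S.Ab NUP1S.AbC NUGC NUGC.PLX PBFunc PBFunc.PLX PBF PBF.PLX PBE PBE.PLX
open PBWP.PLX PBLX.PLX
open PBEI (y1 y26 h0T mfL cL Apl6 Ami6 Bch6)
open PBV (wm)
open Pool.Agent.PB (mV CV CmV CsV CssV MeanDat rl)
open PBU.PLX (MBd6)
open PHK
open _root_.Pool.Agent.PLX (rwq)

/-- the density of the rows as a function of the height -/
abbrev rhA {m : ℕ} (x : Fin m → ℂ) : ℂ → ℂ := fun z => PBForce.rhoR x (NUP1.l + I * z)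

theorem hr_axis {m : ℕ} {x : Fin m → ℂ} (hx : ∀ i, (x i).re = 0) (i : Fin m) :
    (PBQ1.hr (x i)).im = 0 := by
  unfold PBQ1.hr
  simp [hx i]

variable [Fil]

/-- **the force without the row force**, rows on the axis -/
theorem hl_axis {m : ℕ} {x : Fin m → ℂ} (hx : ∀ i, (x i).re = 0) (β : ℝ) (W : List ℂ) (u : Bool)
    (t : ℝ) {z : ℂ} (hz : |z.im| < NUP1.l) :
    I * PBLZ.PLX.LZX u β x W (I * t) (NUP1.l + I * z) - PB.kp2 (rhA x) u z =
      h0T t z + PBLZ.PLX.cutI β (List.ofFn (rwq x u) ++ W) z := by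
  have h1 : ∀ w : ℂ, |w.im| < NUP1.l → ∀ i, |(w - PBQ1.hr (x i)).im| < NUP1.l := by
    intro w hw i
    rw [sub_im, hr_axis hx, sub_zero]
    exact hw
  have e : PB.kp2 (rhA x) u z = PB.kp2 (PBLZ.PLX.rhoH x) u z :=
    kp2_congr (b := NUP1.l) (fun w hw => PBLZ.PLX.rhoH_eq (h1 w hw)) u hz
  rw [e, PBLZ.PLX.I_LZX u β W (h1 z hz) (by rw [hr_I]; simpa using hz), hr_I]
  unfold PBEI.h0T
  ring

/-- the force on the curves -/
theorem hl_fibA {N m : ℕ} {x : Fin m → ℂ} (hx : ∀ i, (x i).re = 0)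
    {Z : ℕ → Bool → Option O3 → ℂ → ℂ} {P : ℕ → Par6} {η η' : ℕ → Crs}
    {δ b0 b1 : ℝ} {κ : ℕ → ℝ} {LP : ℕ → (r : ℕ) → (Fin r → Xo) → Bool → ℂ → ℂ} {β : ℝ}
    {W : List ℂ} {t : ℝ}
    (h : FibN6 N Z P η η' δ 0 b0 b1 κ (fun _ u => PBLZ.PLX.LZX u β x W (I * t)) LP (rhA x))
    (n : ℕ) (hn : n ≤ N) (r : ℕ) (O : Fin r → Xo) (u : Bool) (y : ℝ) :
    I * PBLZ.PLX.LZX u β x W (I * t) (NUP1.l + I * zy 0 (Fil.cv u (η n r O)) y) -
      PB.kp2 (rhA x) u (zy 0 (Fil.cv u (η n r O)) y) =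
      h0T t (zy 0 (Fil.cv u (η n r O)) y) +
        (fun u : Bool => PBLZ.PLX.cutI β (List.ofFn (rwq x u) ++ W)) u
          (zy 0 (Fil.cv u (η n r O)) y) := by
  refine hl_axis hx β W u t ?_
  have h1 := zy_strip (h.hs n hn) r O u y
  have h2 := h.b01
  have h3 := h.b1l
  have h4 := h.b1p
  linarith

/-- a density is bounded and measurable on the real line -/
theorem sea_real {b : ℝ} (hb : 0 < b) {ρ : ℂ → ℂ} (h : PB.SeaF b ρ) :
    AEStronglyMeasurable (fun u : ℝ => ρ u) volume ∧ ∃ B : ℝ, ∀ u : ℝ, ‖ρ u‖ ≤ B := by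
  have hc : Continuous fun u : ℝ => ρ u := by
    rw [continuous_iff_continuousAt]
    intro u
    exact ContinuousAt.comp (f := fun t : ℝ => (t : ℂ))
      (h.d _ (by rw [ofReal_im, abs_zero]; exact hb)).continuousAt continuous_ofReal.continuousAt
  obtain ⟨A, k, hA, hk, h1⟩ := h.bd
  refine ⟨hc.aestronglyMeasurable, A, fun u =>
    (h1 u (by rw [ofReal_im, abs_zero]; exact hb)).trans ?_⟩
  refine mul_le_of_le_one_right hA (Real.exp_le_one_iff.2 ?_)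
  have := mul_nonneg hk.le (abs_nonneg (u : ℂ).re)
  linarith

/-- **the data of one index**: rows on the axis, fibres, lower bound of the density, moments -/
structure Fib1 (N : ℕ) {m : ℕ} (x : Fin m → ℂ) (β : ℝ) (W : List ℂ) (t : ℝ)
    (Z : ℕ → Bool → Option O3 → ℂ → ℂ) (η η' : ℕ → Crs) (c : ℕ → ℂ) (δ b0 : ℝ) (κf : ℕ → ℝ)
    (c0 Nr K dp : ℝ) : Prop where
  hx : ∀ i, (x i).re = 0
  fib : FibN6 N Z (fun _ => par6) η η' δ 0 b0 bb6' κf (fun _ u => PBLZ.PLX.LZX u β x W (I * t))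
    (fun _ => LPo6 par6) (rhA x)
  sea : SeaL bb6 c0 Nr (rhA x)
  K0 : 0 ≤ K
  d0 : 0 ≤ dp
  mb : MBd6 N Z (fun _ => par6) η η' c (rhA x) (-bb6') bb6' K (189 / 100) dp


section one

variable {N m : ℕ} {x : Fin m → ℂ} {β : ℝ} {W : List ℂ} {t : ℝ}
  {Z : ℕ → Bool → Option O3 → ℂ → ℂ} {η η' : ℕ → Crs} {c : ℕ → ℂ} {δ b0 : ℝ} {κf : ℕ → ℝ}
  {c0 Nr K dp : ℝ}

theorem Fib1.bas (h : Fib1 N x β W t Z η η' c δ b0 κf c0 Nr K dp) :
    Bas6 N Z par6 η η' b0 bb6' where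
  mc := h.fib.mc
  hs := h.fib.hs
  hb := h.fib.b01
  hbl := by
    have h1 := h.fib.b1l
    have h2 := Bd.l_pos
    linarith
  mZ := h.fib.mZ
  gP := par6_good

/-- the cutoff of the index -/
abbrev cutW {m : ℕ} (β : ℝ) (x : Fin m → ℂ) (W : List ℂ) : Bool → ℂ → ℂ :=
  fun u => PBLZ.PLX.cutI β (List.ofFn (rwq x u) ++ W)

end one

/-- **level two at one index, plus channel** -/
theorem wpl_one {CQ : ℝ} (hCQ : 0 ≤ CQ) : ∃ C : ℝ, 1 ≤ C ∧
    ∀ {N m : ℕ} {x : Fin m → ℂ} {β : ℝ} {W : List ℂ} {t : ℝ}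
      {Z : ℕ → Bool → Option O3 → ℂ → ℂ} {η η' : ℕ → Crs} {c : ℕ → ℂ} {δ b0 : ℝ} {κf : ℕ → ℝ}
      {c0 Nr K dp : ℝ} (_ : Fib1 N x β W t Z η η' c δ b0 κf c0 Nr K dp)
      (_ : ∀ M β' e, 0 ≤ M → TC (-bb6) bb6 (189 / 100) M β' →
        TC (-bb6') bb6' (1 / 200) (thX c0 Nr (189 / 100 - 1 / 100) 0 * M) e →
        M2 (mN6 N) (wN6 Z (fun _ => par6) N η η' c) K
          (evN6 fun n => Qp (η n) (rhA x) (ib fun _ => XS (rhA x) 0 β') (fun _ => e)
            (fun _ => h0T t) (cutW β x W) (LPo6 par6))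
          (CQ * (thX c0 Nr (189 / 100 - 1 / 100) 0 * M)))
      (K' th dp' : ℝ) (_ : C * K ≤ K') (_ : C * thX c0 Nr (189 / 100 - 1 / 100) 0 ≤ th)
      (_ : C * dp ≤ dp'),
      ∀ M g, TC y1 y26 (19 / 10) M g → mass g = 0 →
        ∃ (D : (ℂ → ℂ) → CfN6 N → ℂ) (Q P : CfN6 N → ℂ),
          WPl y1 y26 (19 / 10) (mN6 N) (wN6 Z (fun _ => par6) N η η' c) K' th dp' M
            (fun h => evN6 fun n => Vy 0 (η n) (rhA x) fun _ => h) g (mV (mfL t) g) (CV g) D Q P := by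
  have hl := Bd.l_pos
  have hl3 : 3 / 8 < NUP1.l := by
    unfold NUP1.l
    linarith [Real.pi_gt_three]
  have hy1 : y1 = -(NUP1.l / 10) := rfl
  have hy2 : y26 = 351 / 400 * NUP1.l := rfl
  have hb6 : bb6 = 19 / 2000 * NUP1.l := rfl
  have hb6' : bb6' = 9 / 1000 * NUP1.l := rfl
  have hCP : 0 ≤ PBOR.PLX.CK6 (189 / 100) := PBOR.PLX.CK6_nonneg (by norm_num) (by norm_num)
  obtain ⟨C1, hC1, H4⟩ := wplus6 (y₁ := y1) (y₂ := y26) (a := 19 / 10) (κ := 189 / 100)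
    (κ₁ := 1 / 100) (κ₂ := 1 / 200) (b := bb6) (b' := bb6') (Y₁ := -bb6') (Y₂ := bb6')
    (CQ := CQ) (CP := PBOR.PLX.CK6 (189 / 100)) (by norm_num) (by norm_num) (by norm_num)
    (by norm_num) (by norm_num) (by norm_num) (by norm_num) bb6'_pos bb6'_lt
    (by rw [hy1, hb6]; linarith) (by rw [hy2, hb6]; linarith)
    le_rfl le_rfl hCQ hCP
  obtain ⟨B, hB, hmd⟩ := PBEI.meanDatT
  refine ⟨C1 + 1, by linarith, ?_⟩
  intro N m x β W t Z η η' c δ b0 κf c0 Nr K dp h hQ K' th dp' hK' hth hdp M g hg hmg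
  have hM0 : 0 ≤ M := hg.nonneg (by rw [hy1]; linarith) (by rw [hy2]; linarith)
  have hN0 : 0 ≤ thX c0 Nr (189 / 100 - 1 / 100) 0 := thX_nonneg h.sea.Np
  obtain ⟨D, Q, P, h5⟩ := H4 (c := c) h.fib h.sea (hmd t)
    (PBEI.h0_TC6 (by norm_num : (0 : ℝ) ≤ 19 / 10) (by norm_num) t)
    (cut := cutW β x W) (fun n hn r O u y => hl_fibA h.hx h.fib n hn r O u y)
    (fun r O u => obF_line6 r O u)
    (fun M β hM hβ r O a b x => Pp_le_plus6 par6_good (by norm_num [par6]) O hβ bb6_pos (by norm_num)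
      (by norm_num) le_rfl hM a b x)
    hQ h.K0 h.d0 h.mb M g hg hmg
  refine ⟨D, Q, P, WPl.mono6 h5 (by rw [hy1]; linarith) (by rw [hy2]; linarith) hM0
    h.K0 ?_ (mul_nonneg hC1 hN0) ?_ ?_⟩
  · refine le_trans ?_ hK'
    exact le_mul_of_one_le_left h.K0 (by linarith)
  · refine le_trans ?_ hth
    exact mul_le_mul_of_nonneg_right (by linarith) hN0
  · refine le_trans ?_ hdp
    exact mul_le_mul_of_nonneg_right (by linarith) h.d0

/-- **level two at one index, minus channel** -/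
theorem wmi_one {CQ : ℝ} (hCQ : 0 ≤ CQ) : ∃ C : ℝ, 1 ≤ C ∧
    ∀ {N m : ℕ} {x : Fin m → ℂ} {β : ℝ} {W : List ℂ} {t : ℝ}
      {Z : ℕ → Bool → Option O3 → ℂ → ℂ} {η η' : ℕ → Crs} {c : ℕ → ℂ} {δ b0 : ℝ} {κf : ℕ → ℝ}
      {c0 Nr K dp : ℝ} (_ : Fib1 N x β W t Z η η' c δ b0 κf c0 Nr K dp)
      (_ : ∀ M β' e, 0 ≤ M → TC (-bb6) bb6 (189 / 100) M β' →
        TC (-bb6') bb6' (1 / 200) (thX c0 Nr (189 / 100 - 1 / 100) 0 * M) e →
        M2 (mN6 N) (wN6 Z (fun _ => par6) N η η' c) K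
          (evN6 fun n => Qp (η n) (rhA x) (ib (sg2 (XS (rhA x) 0 β')))
            (sg2 fun z => e z + 4 * mass (XS (rhA x) 0 β') * PBV.tgh z) (fun _ => h0T t)
            (cutW β x W) (LPo6 par6))
          (CQ * (thX c0 Nr (189 / 100 - 1 / 100) 0 * M)))
      (K' th dp' : ℝ) (_ : C * K ≤ K') (_ : C * thX c0 Nr (189 / 100 - 1 / 100) 0 ≤ th)
      (_ : C * dp ≤ dp'),
      (∀ M g, TC y1 y26 (19 / 10) M g →
        ∃ (D : (ℂ → ℂ) → CfN6 N → ℂ) (Ds Q P : CfN6 N → ℂ),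
        WMi y1 y26 (19 / 10) (mN6 N) (wN6 Z (fun _ => par6) N η η' c) K' th dp' M
          (Vm6 (fun u : ℝ => rhA x u) η) (SN6 (fun u : ℝ => rhA x u) par6 η)
          (Vm6 (fun u : ℝ => rhA x u) η g) (CmV g) (CsV PBEI.sg' g) D Ds Q P) ∧
      ∃ (C' : (ℂ → ℂ) → ℂ) (D : (ℂ → ℂ) → CfN6 N → ℂ) (Ds Q P : CfN6 N → ℂ),
        WMi y1 y26 (19 / 10) (mN6 N) (wN6 Z (fun _ => par6) N η η' c) K' th dp' 1
          (Vm6 (fun u : ℝ => rhA x u) η) (SN6 (fun u : ℝ => rhA x u) par6 η)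
          (SN6 (fun u : ℝ => rhA x u) par6 η) C' (CssV PBEI.sg') D Ds Q P := by
  have hl := NUP1.Bd.l_pos
  have hl3 : 3 / 8 < NUP1.l := by
    unfold NUP1.l
    linarith [Real.pi_gt_three]
  have hy1 : y1 = -(NUP1.l / 10) := rfl
  have hy2 : y26 = 351 / 400 * NUP1.l := rfl
  have hb6 : bb6 = 19 / 2000 * NUP1.l := rfl
  have hb6' : bb6' = 9 / 1000 * NUP1.l := rfl
  have hb : bb6 < NUP1.l := by
    rw [hb6]
    linarith
  obtain ⟨C, hC, Wm⟩ := PBWM.PLX.wm_of6 (y₁ := y1) (y₂ := y26) (a := 19 / 10) (κ := 189 / 100)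
    (κ₁ := 1 / 100) (κ₂ := 1 / 200) (b := bb6) (b' := bb6') (q := 189 / 100) (CQ := CQ)
    (by norm_num) (by norm_num) (by norm_num) (by norm_num) (by norm_num) (by norm_num)
    (by norm_num) (by norm_num) bb6'_pos bb6'_lt
    (by rw [hy1, hb6]; linarith) (by rw [hy2, hb6]; linarith) hb (by norm_num)
    le_rfl hCQ
  refine ⟨C, hC, ?_⟩
  intro N m x β W t Z η η' c δ b0 κf c0 Nr K dp h hQ K' th dp' hK' hth hdp
  have hb25 : bb6' ≤ 2 / 5 * NUP1.l := by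
    rw [hb6']
    linarith
  exact Wm (c := c) h.fib le_rfl h.sea par6_good (by norm_num [par6])
    (fun r O u y => LPo_line6 _ r O u y) (h0T_fam hb25 t).1
    (h0T_fam hb25 t).2 (hl_fibA h.hx h.fib) hQ h.K0 h.d0 h.mb le_rfl le_rfl K' th dp' hK' hth hdp

/-- **the data of level two at one index** -/
theorem levD_one {CQ : ℝ} (hCQ : 0 ≤ CQ) : ∃ C : ℝ, 1 ≤ C ∧
    ∀ {N m : ℕ} {x : Fin m → ℂ} {β : ℝ} {W : List ℂ} {t : ℝ}
      {Z : ℕ → Bool → Option O3 → ℂ → ℂ} {η η' : ℕ → Crs} {c : ℕ → ℂ} {δ b0 : ℝ} {κf : ℕ → ℝ}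
      {c0 Nr K dp : ℝ} (i0 : Fin m) (_ : Fib1 N x β W t Z η η' c δ b0 κf c0 Nr K dp)
      (_ : ∀ M β' e, 0 ≤ M → TC (-bb6) bb6 (189 / 100) M β' →
        TC (-bb6') bb6' (1 / 200) (thX c0 Nr (189 / 100 - 1 / 100) 0 * M) e →
        M2 (mN6 N) (wN6 Z (fun _ => par6) N η η' c) K
          (evN6 fun n => Qp (η n) (rhA x) (ib fun _ => XS (rhA x) 0 β') (fun _ => e)
            (fun _ => h0T t) (cutW β x W) (LPo6 par6))
          (CQ * (thX c0 Nr (189 / 100 - 1 / 100) 0 * M)))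
      (_ : ∀ M β' e, 0 ≤ M → TC (-bb6) bb6 (189 / 100) M β' →
        TC (-bb6') bb6' (1 / 200) (thX c0 Nr (189 / 100 - 1 / 100) 0 * M) e →
        M2 (mN6 N) (wN6 Z (fun _ => par6) N η η' c) K
          (evN6 fun n => Qp (η n) (rhA x) (ib (sg2 (XS (rhA x) 0 β')))
            (sg2 fun z => e z + 4 * mass (XS (rhA x) 0 β') * PBV.tgh z) (fun _ => h0T t)
            (cutW β x W) (LPo6 par6))
          (CQ * (thX c0 Nr (189 / 100 - 1 / 100) 0 * M)))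
      (K' th dp' : ℝ) (_ : C * K ≤ K') (_ : C * thX c0 Nr (189 / 100 - 1 / 100) 0 ≤ th)
      (_ : C * dp ≤ dp'),
      PBEM.LevD y1 y26 (19 / 10) (mN6 N) (wN6 Z (fun _ => par6) N η η' c)
        (Vp6 (fun u : ℝ => rhA x u) η) (Vm6 (fun u : ℝ => rhA x u) η)
        (SN6 (fun u : ℝ => rhA x u) par6 η) K' th dp' (mfL t) PBEI.sg' wm (Apl6 x i0) (Ami6 x i0)
        Bch6 := by
  have hl := NUP1.Bd.l_pos
  have hl3 : 3 / 8 < NUP1.l := by
    unfold NUP1.l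
    linarith [Real.pi_gt_three]
  have hy1 : y1 = -(NUP1.l / 10) := rfl
  have hy2 : y26 = 351 / 400 * NUP1.l := rfl
  have hb6' : bb6' = 9 / 1000 * NUP1.l := rfl
  obtain ⟨C1, hC1, H1⟩ := wpl_one hCQ
  obtain ⟨C2, hC2, H2⟩ := wmi_one hCQ
  have hKS := one_le_KS6
  refine ⟨C1 + C2 + KS6, by linarith, ?_⟩
  intro N m x β W t Z η η' c δ b0 κf c0 Nr K dp i0 h hQp hQm K' th dp' hK' hth hdp
  have hN0 : 0 ≤ thX c0 Nr (189 / 100 - 1 / 100) 0 := thX_nonneg h.sea.Np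
  have hK0 := h.K0
  have hd0 := h.d0
  have e1 : ∀ a : ℝ, a ≤ C1 + C2 + KS6 → a * K ≤ K' := fun a ha =>
    (mul_le_mul_of_nonneg_right ha hK0).trans hK'
  have e2 : ∀ a : ℝ, a ≤ C1 + C2 + KS6 → a * thX c0 Nr (189 / 100 - 1 / 100) 0 ≤ th := fun a ha =>
    (mul_le_mul_of_nonneg_right ha hN0).trans hth
  have e3 : ∀ a : ℝ, a ≤ C1 + C2 + KS6 → a * dp ≤ dp' := fun a ha =>
    (mul_le_mul_of_nonneg_right ha hd0).trans hdp
  obtain ⟨hm, hm'⟩ := H2 h hQm K' th dp' (e1 C2 (by linarith)) (e2 C2 (by linarith))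
    (e3 C2 (by linarith))
  obtain ⟨hρ, Bρ, hρB⟩ := sea_real h.fib.b1p h.fib.sea
  have e4 : (Vp6 (fun u : ℝ => rhA x u) η : (ℂ → ℂ) → CfN6 N → ℂ) =
      fun h => evN6 fun n => Vy 0 (η n) (rhA x) fun _ => h := funext fun h => Vp_evN6 _ _ _
  refine levD_of6 h.bas h.mb (by norm_num) PBEM.y1_neg (by rw [hy2]; linarith)
    (by rw [hy1, hb6']; linarith) (by rw [hy2, hb6']; linarith) (by rw [hb6']; linarith)
    (by rw [hb6']; linarith) (by rw [hy1, hb6']; linarith) (by rw [hy2, hb6']; linarith) hK0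
    (e1 KS6 (by linarith)) ?_ ?_ hρ hρB ?_ hm hm' (PBEI.Apl_measurable6 _ _)
    (PBEI.Ami_measurable6 _ _) PBEI.Bch_measurable6
  · exact (mul_nonneg (by linarith) hN0).trans hth
  · exact (mul_nonneg (by linarith) hd0).trans hdp
  · intro M g hg hmg
    rw [e4]
    exact H1 h hQp K' th dp' (e1 C1 (by linarith)) (e2 C1 (by linarith)) (e3 C1 (by linarith))
      M g hg hmg

end PLT

end
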