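import Pool.Agent.PHK.ZLegL6
import Pool.Agent.PLX.PB.Mom4F
import Pool.Agent.PLT.FibI
import Pool.Agent.PLT.LevOne

/-!
# The derivatives in the height of the legs at ONE index

Index form of `PHK/ZLeg6`, `PHK/ZLegL6`: any `m` rows on the imaginary axis, any curve, legs at any height (the error
grows like `exp (4 |t|)`); no family, no filter. All sizes come from the moments `MBd6` of level two.

* `exists_constT`, `leg_b1T`, `leg_b2T`: the two bounds of `ZLeg6` at any height;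
* `Z0X`: the class functions without legs; `ZXL_lgK`;
* `fin_M`: finiteness of every level from the mass in `MBd6`; `pI_M`, `pI2_M`: the pinned functionals from `MBd6`;
* **`legs_I`**: `F[V h0] + i G'` and `F[V h0 V h0] + F[V g2] + G''` for `G = fQ q x` (the two last inputs of `InE`).
-/

set_option autoImplicit false
set_option linter.unusedSectionVars false
set_option linter.unusedVariables false

noncomputable section

open Complex MeasureTheory Finset Filter Topology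
open scoped ENNReal

open PLX (Fil)

namespace PBLg.PLX

open PBF PBF.PLX PBFunc PBFunc.PLX NUO NUP1S NUP1S.AbC NUGC NUGC.PLX NUCR
open PBI (Stt)
open NUMF (l P)
open PHK (Cst6 Par6 GoodP6 cst6 csA6 k6 tz tz_cons posB FF6 FA6 Fa6 stA6 stO6 obT6 MC6 Cf6 wC6 wP6 ev6 CfN6 mN6
  wN6 evN6 FFN6 FAN6)

variable [Fil]

/-- the constant of the bounds at any height -/
theorem exists_constT : ∃ C : ℝ, 1 ≤ C ∧ ∀ (τ : ℝ) (Pm : Par6), GoodP6 Pm →
    (∀ u, InR u → ‖dl (hgt u - τ)‖ ≤ C * Real.exp (2 * |τ|) ∧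
      ‖dl2 (hgt u - τ)‖ ≤ C * Real.exp (2 * |τ|)) ∧
    ∀ {r a b : ℕ} (O : Fin r → Xo) (x : (Fin a → ℝ) × (Fin b → ℝ)),
      ‖obP6 (fun z => dl (z - τ)) Pm r O a b x‖ ≤ C * Real.exp (2 * |τ|) * ‖pI r O a b x‖ ∧
      ‖obP6 (fun z => dl2 (z - τ)) Pm r O a b x‖ ≤ C * Real.exp (2 * |τ|) * ‖pI r O a b x‖ := by
  obtain ⟨C, hC, hd⟩ := dls_bd
  have hC0 : 0 ≤ C := by linarith
  have hl := NUMF.l_pos
  have hE : 1 ≤ Real.exp (l / 8) := Real.one_le_exp (by linarith)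
  refine ⟨8 * C * Real.exp (l / 8), by nlinarith, fun τ Pm hP => ⟨fun u hu => ?_,
    fun O x => ⟨?_, ?_⟩⟩⟩
  · have h0 : 1 ≤ Real.exp (2 * |τ|) := Real.one_le_exp (by positivity)
    have hp : Real.exp (-(2 * |u.im - τ|)) ≤ 1 := exp_le_one _
    have h1 : C ≤ 8 * C * Real.exp (l / 8) * Real.exp (2 * |τ|) := by
      calc C = C * 1 * 1 := by ring
        _ ≤ (8 * C) * Real.exp (l / 8) * Real.exp (2 * |τ|) := by gcongr; linarith
    exact ⟨((hd τ u hu).1.trans (mul_le_of_le_one_right hC0 hp)).trans h1,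
      ((hd τ u hu).2.trans (mul_le_of_le_one_right hC0 hp)).trans h1⟩
  all_goals
    have h2 : 8 * C * Real.exp (2 * |τ| + l / 8) = 8 * C * Real.exp (l / 8) * Real.exp (2 * |τ|) := by
      rw [Real.exp_add]
      ring
  · exact (obP_le6 hP hC0 (fun u hu => (hd τ u hu).1) O x).trans (le_of_eq (by rw [h2]))
  · exact (obP_le6 hP hC0 (fun u hu => (hd τ u hu).2) O x).trans (le_of_eq (by rw [h2]))

/-- **first derivative of the functional against the statistic of the quanta**, any height -/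
theorem leg_b1T : ∃ C : ℝ, 1 ≤ C ∧ ∀ {Z0 : Stt} {Pm : Par6} {N : ℕ} {η η' : ℕ → Crs}
    (_ : LegH6 Z0 Pm N η η') (ρ : ℝ → ℂ) (c : ℝ → ℂ) (τ : ℝ), ∀ {d : ℝ}, 0 ≤ d →
    FAN6 (fun _ => Zm Z0 (lgK (I * τ))) (fun _ => Pm) N η η' (fun _ => c τ) (fun _ => pI) ≤
      ENNReal.ofReal d →
    ‖F (mN6 N) (WT6 Z0 Pm N η η' c τ) (evN6 fun n => vP ρ (fun z => dl (z - τ)) (η n)) +
      T16 Z0 Pm N η η' ρ c τ‖ ≤ C * Real.exp (2 * |τ|) * d := by
  obtain ⟨C0, hC0', hb⟩ := exists_constT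
  refine ⟨C0, hC0', fun {Z0 Pm N η η'} H ρ c τ {d} hd hI => ?_⟩
  obtain ⟨C, hCd⟩ : ∃ C, C = C0 * Real.exp (2 * |τ|) := ⟨_, rfl⟩
  have hC : 1 ≤ C := by
    rw [hCd]
    exact one_le_mul_of_one_le_of_one_le hC0' (Real.one_le_exp (by positivity))
  have hC0 : 0 ≤ C := by linarith
  obtain ⟨hg, ho⟩ := hb τ Pm H.P
  rw [← hCd] at hg ⊢
  simp only [← hCd] at ho
  obtain ⟨D, hD, hdl⟩ := dls_bd
  have hD0 : 0 ≤ D := by linarith
  obtain ⟨B, hB⟩ := H.zpath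
  set K : ℝ := max ((2 * N + dN N) * C + ‖bS * ∫ t : ℝ, ρ t * dl (t - τ)‖)
    (8 * D * Real.exp (2 * |τ| + l / 8) * (4 * N + 2 * dN N)) with hK
  have key := hB.bound1 (c := c) (M := Mn ρ) (τ := τ)
    (V := evN6 fun n => vP ρ (fun z => dl (z - τ)) (η n))
    (O := evN6 fun _ => obP6 (fun z => dl (z - τ)) Pm) (K := K) (d := C * d)
    (fun x => AN_split6 ρ (fun z => dl (z - τ)) x)
    (PHK.evN_meas6 fun n _ => MIn_vP6 (H.c n) ρ (measurable_dls τ)).aestronglyMeasurable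
    (PHK.evN_meas6 fun n _ => MIn_obP6 (measurable_dls τ)).aestronglyMeasurable
    (fun x => (H.vP_bdd hC0 (fun u hu => (hg u hu).1) x).trans (le_max_left _ _))
    (fun x => (H.obP_bdd hD0 (fun u hu => (hdl τ u hu).1) x).trans (le_max_right _ _))
    (by positivity) ?_
  · unfold T16
    rw [WT_eq6]
    exact key
  · rw [← WT_eq6]
    rw [PHK.FAN6_eq (fun n _ => H.mc _ (measurable_lgK _) n) fun n _ => MIn_pI] at hI
    calc ∫⁻ x, ‖WT6 Z0 Pm N η η' c τ x‖ₑ * ‖evN6 (fun _ => obP6 (fun z => dl (z - τ)) Pm) x‖ₑ ∂mN6 N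
        ≤ ∫⁻ x, ENNReal.ofReal C * (‖WT6 Z0 Pm N η η' c τ x‖ₑ * ‖evN6 (fun _ => pI) x‖ₑ) ∂mN6 N := by
          refine lintegral_mono fun x => ?_
          have h1 : ‖evN6 (fun _ => obP6 (fun z => dl (z - τ)) Pm) x‖ₑ ≤
              ENNReal.ofReal C * ‖evN6 (fun _ => pI) x‖ₑ := by
            rw [← ofReal_norm, ← ofReal_norm, ← ENNReal.ofReal_mul hC0]
            exact ENNReal.ofReal_le_ofReal (ho x.2.2.1 x.2.2.2).1
          refine (mul_le_mul' le_rfl h1).trans (le_of_eq ?_)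
          ring
      _ = ENNReal.ofReal C * ∫⁻ x, ‖WT6 Z0 Pm N η η' c τ x‖ₑ * ‖evN6 (fun _ => pI) x‖ₑ ∂mN6 N :=
          lintegral_const_mul' _ _ ENNReal.ofReal_ne_top
      _ ≤ ENNReal.ofReal C * ENNReal.ofReal d := mul_le_mul' le_rfl hI
      _ = ENNReal.ofReal (C * d) := (ENNReal.ofReal_mul hC0).symm

/-- **second derivative of the functional**, any height -/
theorem leg_b2T : ∃ C : ℝ, 1 ≤ C ∧ ∀ {Z0 : Stt} {Pm : Par6} {N : ℕ} {η η' : ℕ → Crs}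
    (_ : LegH6 Z0 Pm N η η') (ρ : ℝ → ℂ) (c : ℝ → ℂ) (τ : ℝ), ∀ {d : ℝ}, 0 ≤ d →
    FAN6 (fun _ => Zm Z0 (lgK (I * τ))) (fun _ => Pm) N η η' (fun _ => c τ)
      (fun n => pI2 ρ (fun z => dl (z - τ)) (η n)) ≤ ENNReal.ofReal d →
    ‖F (mN6 N) (WT6 Z0 Pm N η η' c τ) (fun x =>
        evN6 (fun n => vP ρ (fun z => dl (z - τ)) (η n)) x *
          evN6 (fun n => vP ρ (fun z => dl (z - τ)) (η n)) x) +
      F (mN6 N) (WT6 Z0 Pm N η η' c τ) (evN6 fun n => vP ρ (fun z => dl2 (z - τ)) (η n)) -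
      T26 Z0 Pm N η η' ρ c τ‖ ≤ C * Real.exp (4 * |τ|) * d := by
  obtain ⟨C0, hC0', hb⟩ := exists_constT
  refine ⟨2 * C0 ^ 2, by nlinarith, fun {Z0 Pm N η η'} H ρ c τ {d} hd hI => ?_⟩
  obtain ⟨C, hCd⟩ : ∃ C, C = C0 * Real.exp (2 * |τ|) := ⟨_, rfl⟩
  have hC : 1 ≤ C := by
    rw [hCd]
    exact one_le_mul_of_one_le_of_one_le hC0' (Real.one_le_exp (by positivity))
  have hC0 : 0 ≤ C := by linarith
  have e4 : 2 * C0 ^ 2 * Real.exp (4 * |τ|) = 2 * C ^ 2 := by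
    rw [hCd, mul_pow, ← Real.exp_nat_mul]
    push_cast
    rw [show (2 : ℝ) * (2 * |τ|) = 4 * |τ| by ring]
    ring
  rw [e4]
  obtain ⟨hg, ho⟩ := hb τ Pm H.P
  rw [← hCd] at hg
  simp only [← hCd] at ho
  obtain ⟨D, hD, hdl⟩ := dls_bd
  have hD0 : 0 ≤ D := by linarith
  obtain ⟨B, hB⟩ := H.zpath
  set K : ℝ := max (max ((2 * N + dN N) * C + ‖bS * ∫ t : ℝ, ρ t * dl (t - τ)‖)
    ((2 * N + dN N) * C + ‖bS * ∫ t : ℝ, ρ t * dl2 (t - τ)‖))
    (8 * D * Real.exp (2 * |τ| + l / 8) * (4 * N + 2 * dN N)) with hK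
  have key := hB.bound2 (c := c) (M := Mn ρ) (M2 := Mn2 ρ) (τ := τ)
    (V := evN6 fun n => vP ρ (fun z => dl (z - τ)) (η n))
    (O := evN6 fun _ => obP6 (fun z => dl (z - τ)) Pm)
    (V' := evN6 fun n => vP ρ (fun z => dl2 (z - τ)) (η n))
    (O' := evN6 fun _ => obP6 (fun z => dl2 (z - τ)) Pm) (K := K) (d := 2 * C ^ 2 * d)
    (fun x => AN_split6 ρ (fun z => dl (z - τ)) x)
    (fun x => AN_split6 ρ (fun z => dl2 (z - τ)) x)
    (PHK.evN_meas6 fun n _ => MIn_vP6 (H.c n) ρ (measurable_dls τ)).aestronglyMeasurable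
    (PHK.evN_meas6 fun n _ => MIn_obP6 (measurable_dls τ)).aestronglyMeasurable
    (PHK.evN_meas6 fun n _ => MIn_vP6 (H.c n) ρ (measurable_dls2 τ)).aestronglyMeasurable
    (PHK.evN_meas6 fun n _ => MIn_obP6 (measurable_dls2 τ)).aestronglyMeasurable
    (fun x => (H.vP_bdd hC0 (fun u hu => (hg u hu).1) x).trans
        ((le_max_left _ _).trans (le_max_left _ _)))
    (fun x => (H.obP_bdd hD0 (fun u hu => (hdl τ u hu).1) x).trans (le_max_right _ _))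
    (fun x => (H.vP_bdd hC0 (fun u hu => (hg u hu).2) x).trans
        ((le_max_right _ _).trans (le_max_left _ _)))
    (fun x => (H.obP_bdd hD0 (fun u hu => (hdl τ u hu).2) x).trans (le_max_right _ _))
    (by positivity) ?_
  · unfold T26
    rw [WT_eq6]
    exact key
  · rw [← WT_eq6]
    rw [PHK.FAN6_eq (fun n _ => H.mc _ (measurable_lgK _) n)
      fun n _ => MIn_pI26 (H.c n) ρ (measurable_dls τ)] at hI
    have h1 : ∀ x : CfN6 N, ‖WT6 Z0 Pm N η η' c τ x‖ₑ *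
        (2 * ‖evN6 (fun n => vP ρ (fun z => dl (z - τ)) (η n)) x‖ₑ *
          ‖evN6 (fun _ => obP6 (fun z => dl (z - τ)) Pm) x‖ₑ +
          ‖evN6 (fun _ => obP6 (fun z => dl (z - τ)) Pm) x‖ₑ ^ 2 +
          ‖evN6 (fun _ => obP6 (fun z => dl2 (z - τ)) Pm) x‖ₑ) ≤
        ENNReal.ofReal (2 * C ^ 2) * (‖WT6 Z0 Pm N η η' c τ x‖ₑ *
          ‖evN6 (fun n => pI2 ρ (fun z => dl (z - τ)) (η n)) x‖ₑ) := by
      intro x
      have h2 := enorm_combo (a := evN6 (fun n => vP ρ (fun z => dl (z - τ)) (η n)) x)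
        (norm_nonneg (evN6 (fun _ => pI) x)) hC (ho x.2.2.1 x.2.2.2).1 (ho x.2.2.1 x.2.2.2).2
        (pI_le x.2.2.1 x.2.2.2)
      have h3 : ‖evN6 (fun n => pI2 ρ (fun z => dl (z - τ)) (η n)) x‖ₑ =
          ENNReal.ofReal (‖evN6 (fun _ => pI) x‖ *
            (1 + x.2.1.1 + ‖evN6 (fun n => vP ρ (fun z => dl (z - τ)) (η n)) x‖)) := by
        have h4 : evN6 (fun n => pI2 ρ (fun z => dl (z - τ)) (η n)) x =
            evN6 (fun _ => pI) x * ((1 + x.2.1.1 + ‖evN6 (fun n => vP ρ (fun z => dl (z - τ)) (η n)) x‖ :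
              ℝ) : ℂ) := rfl
        rw [← ofReal_norm, h4, norm_mul, norm_real, Real.norm_of_nonneg (by positivity)]
      rw [h3]
      refine (mul_le_mul' le_rfl h2).trans (le_of_eq ?_)
      ring
    refine (lintegral_mono h1).trans ?_
    rw [lintegral_const_mul' _ _ ENNReal.ofReal_ne_top,
      ENNReal.ofReal_mul (p := 2 * C ^ 2) (by positivity)]
    exact mul_le_mul' le_rfl hI

end PBLg.PLX

namespace PLT

open NUP1 PBF PBF.PLX PBFunc PBFunc.PLX NUO NUP1S NUP1S.AbC NUGC NUGC.PLX NUCR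
open PBLg PBLg.PLX
open PBI (Stt)
open Pool.Agent.PB (Pf)
open PBFX.PLX (ZXL)
open PBL.PLX (mu1)
open _root_.Pool.Agent.PLX (XXU rwq yq fQ FFth PhI6 Rws_rwq)
open PHK (Par6 par6 par6_good FF6 FA6 FAN6 MC6 CfN6 mN6 wN6 evN6 Vp6 FAN6_eq wN_meas6 evN_meas6 Nq)
open PBU.PLX (MBd6 BC)
open PBX (gP Rws)
open PLT.FI

variable [Fil]

/-! ### the class functions without legs -/

/-- the class functions without legs -/
def Z0X (c : Bool → ℂ) (g0 : Bool → ℂ → ℂ) (β : ℝ) {m : ℕ} (x : Fin m → ℂ) (W : List ℂ) :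
    Bool → Option O3 → ℂ → ℂ := fun a =>
  XXU (c a) β (rwq x a) (rwq x !a) (gP β W) (g0 a) (fun _ => 1) fun _ => 1

/-- **the legs are a multiplicative insertion** -/
theorem ZXL_lgK (c : Bool → ℂ) (g0 : Bool → ℂ → ℂ) (β : ℝ) {m : ℕ} (x : Fin m → ℂ) (W : List ℂ) (z : ℂ) :
    Zm (Z0X c g0 β x W) (lgK z) = ZXL c g0 β x W z := by
  rw [← lgF_eq]
  symm
  funext a o u
  rcases o with _ | o
  · show Pool.Agent.PLX.RRU _ _ _ _ * PBX.ph _ _ _ _ * _ =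
      Pool.Agent.PLX.RRU _ _ _ _ * PBX.ph _ _ _ _ * 1 * _
    rw [mul_one]
    rfl
  · rcases o with _ | _ | _
    · show Pool.Agent.PLX.RRU _ _ _ _ * PBX.ph _ _ _ _ * _ =
        Pool.Agent.PLX.RRU _ _ _ _ * PBX.ph _ _ _ _ * 1 * _
      rw [mul_one]
      rfl
    · show Pool.Agent.PLX.RRU _ _ _ _ * Pool.Agent.PLX.RRU _ _ _ _ * PBX.ph _ _ _ _ * _ =
        Pool.Agent.PLX.RRU _ _ _ _ * Pool.Agent.PLX.RRU _ _ _ _ * PBX.ph _ _ _ _ * 1 * _
      rw [mul_one]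
      rfl
    · show Pool.Agent.PLX.TTU _ _ _ _ _ _ _ _ * _ = Pool.Agent.PLX.TTU _ _ _ _ _ _ _ _ * 1 * _
      rw [mul_one]
      rfl

theorem measurable_Z0X {c : Bool → ℂ} {g0 : Bool → ℂ → ℂ} (hg : ∀ a, Measurable (g0 a)) (β : ℝ) {m : ℕ}
    (x : Fin m → ℂ) (W : List ℂ) (a : Bool) (o : Option O3) : Measurable (Z0X c g0 β x W a o) :=
  Pool.Agent.PLX.measurable_XXU (PBX.measurable_gP _ _) (hg a) measurable_const measurable_const o

/-! ### finiteness and the pinned functionals from the moments -/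

section mom

variable {N : ℕ} {Z : ℕ → Bool → Option O3 → ℂ → ℂ} {P : ℕ → Par6} {η η' : ℕ → Crs} {c : ℕ → ℂ}
  {ρ : ℂ → ℂ} {y₁ y₂ K q dp : ℝ}

/-- **finiteness of every level** from the mass -/
theorem fin_M (hM : ∀ n ≤ N, MC6 (Z n) (P n) (η n) (η' n)) (h : MBd6 N Z P η η' c ρ y₁ y₂ K q dp)
    {n : ℕ} (hn : n ≤ N) (hc : c n ≠ 0) :
    FA6 (Z n) (P n) n (n + dN N) (η n) (η' n) (fun _ _ _ _ _ => 1) < ∞ := by
  have h1 : FAN6 Z P N η η' c (fun _ _ _ _ _ _ => 1) < ∞ := by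
    rw [FAN6_eq hM fun n _ => MIn.one]
    refine lt_of_le_of_lt (lintegral_mono fun x => ?_) (h.one.trans_lt ENNReal.ofReal_lt_top)
    have e1 : ‖evN6 (fun _ _ _ _ _ _ => (1 : ℂ)) x‖ₑ = 1 := by
      show ‖(1 : ℂ)‖ₑ = 1
      exact enorm_one
    rw [e1, mul_one, ← ofReal_norm]
    refine ENNReal.ofReal_le_ofReal (le_mul_of_one_le_right (norm_nonneg _) ?_)
    have e2 : ‖evN6 (fun _ => PBU.PLX.cnI) x‖ = (x.2.1.1 : ℝ) + 1 := by
      show ‖((x.2.1.1 : ℕ) : ℂ) + 1‖ = _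
      rw [show (((x.2.1.1 : ℕ) : ℂ) + 1) = (((x.2.1.1 : ℕ) : ℝ) + 1 : ℝ) by push_cast; rfl, norm_real,
        Real.norm_of_nonneg (by positivity)]
    rw [e2]
    have h3 : (0 : ℝ) ≤ ((x.2.1.1 : ℕ) : ℝ) := Nat.cast_nonneg _
    nlinarith
  unfold FAN6 at h1
  rw [ENNReal.sum_lt_top] at h1
  have h2 := h1 n (Finset.mem_range.2 (by omega))
  have hc' : ‖c n‖ₑ ≠ 0 := by
    rw [enorm_ne_zero]
    exact hc
  by_contra h3
  rw [not_lt, top_le_iff] at h3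
  rw [h3, ENNReal.mul_top hc'] at h2
  exact lt_irrefl _ h2

theorem pI_le_pin {q : ℝ} (hq : q ≤ 2) {r a b : ℕ} (O : Fin r → Xo) (x : (Fin a → ℝ) × (Fin b → ℝ)) :
    ‖pI r O a b x‖ * ((r : ℝ) + 1) ≤ ‖((r : ℂ) + 1) * PBU.PLX.pinI q r O a b x‖ := by
  have h0 : ∀ p : ℝ, 0 ≤ ∑ j : Fin r, Real.exp (-(p * |ht (O j)|)) := fun p =>
    Finset.sum_nonneg fun i _ => (Real.exp_pos _).le
  have e1 : ‖pI r O a b x‖ = ∑ j : Fin r, Real.exp (-(2 * |ht (O j)|)) := by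
    unfold pI
    rw [norm_real, Real.norm_of_nonneg (h0 2)]
  have e2 : ‖((r : ℂ) + 1) * PBU.PLX.pinI q r O a b x‖ =
      ((r : ℝ) + 1) * ∑ j : Fin r, Real.exp (-(q * |ht (O j)|)) := by
    unfold PBU.PLX.pinI
    rw [norm_mul, norm_real, Real.norm_of_nonneg (h0 q),
      show ((r : ℂ) + 1) = ((r : ℝ) + 1 : ℝ) by push_cast; rfl, norm_real,
      Real.norm_of_nonneg (by positivity)]
  rw [e1, e2, mul_comm]
  refine mul_le_mul_of_nonneg_left (Finset.sum_le_sum fun i _ => Real.exp_le_exp.2 ?_) (by positivity)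
  have := abs_nonneg (ht (O i))
  nlinarith

/-- the pinned functional -/
theorem pI_M (hq : q ≤ 2) (hM : ∀ n ≤ N, MC6 (Z n) (P n) (η n) (η' n))
    (h : MBd6 N Z P η η' c ρ y₁ y₂ K q dp) :
    FAN6 Z P N η η' c (fun _ => pI) ≤ ENNReal.ofReal dp := by
  rw [FAN6_eq hM fun n _ => MIn_pI]
  refine (lintegral_mono fun x => ?_).trans h.pin
  rw [← ofReal_norm, ← ofReal_norm, ← ENNReal.ofReal_mul (norm_nonneg _)]
  refine ENNReal.ofReal_le_ofReal (mul_le_mul_of_nonneg_left ?_ (norm_nonneg _))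
  refine le_trans ?_ (pI_le_pin hq x.2.2.1 x.2.2.2)
  refine le_mul_of_one_le_right (norm_nonneg _) ?_
  have h3 : (0 : ℝ) ≤ ((x.2.1.1 : ℕ) : ℝ) := Nat.cast_nonneg _
  linarith

/-- the statistic of the legs -/
theorem vP_Vy (ρ : ℂ → ℂ) (η : ℕ → Crs) (g : ℂ → ℂ) :
    (evN6 fun n => vP (fun u : ℝ => ρ u) g (η n) : CfN6 N → ℂ) =
      evN6 fun n r O a b x => Vy 0 (η n) ρ (fun _ => g) r O a b x := by
  rw [← Vp_vP6, Vp_evN6]

/-- the pinned functional with the statistic -/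
theorem pI2_M (hq : q ≤ 2) (hdp : 0 ≤ dp) (hc : ∀ n, MCr (η n) (η' n))
    (hM : ∀ n ≤ N, MC6 (Z n) (P n) (η n) (η' n)) (hρ : Measurable fun u : ℝ => ρ u)
    (h : MBd6 N Z P η η' c ρ y₁ y₂ K q dp) {M : ℝ} (hM0 : 0 ≤ M) {g : ℂ → ℂ} (hg : Measurable g)
    (hBC : BC y₁ y₂ M g) :
    FAN6 Z P N η η' c (fun n => pI2 (fun u : ℝ => ρ u) g (η n)) ≤ ENNReal.ofReal (dp + M * dp) := by
  let _ : NUSea.Sea := NUSea.seaP
  have m1 : Measurable (wN6 Z P N η η' c) := wN_meas6 hM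
  have hVy : ∀ n ≤ N, MIn fun r O a b x => Vy 0 (η n) ρ (fun _ => g) r O a b x := fun n _ =>
    PBU.PLX.MIn_vy (hc n) hρ fun _ => hg
  have h1 := h.pinv M (fun _ _ _ => g) hM0 (fun _ _ _ => hBC) hVy
  have mp : Measurable (evN6 (fun _ r O a b x => ((r : ℂ) + 1) * PBU.PLX.pinI q r O a b x) : CfN6 N → ℂ) :=
    evN_meas6 fun n _ => fun r a b => measurable_const.mul (PBU.PLX.MIn.pinI q r a b)
  rw [FAN6_eq hM fun n _ => MIn_pI26 (hc n) _ hg, ENNReal.ofReal_add hdp (mul_nonneg hM0 hdp)]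
  refine le_trans ?_ (add_le_add h.pin h1)
  have mm : Measurable fun x : CfN6 N => ENNReal.ofReal (‖wN6 Z P N η η' c x‖ *
      ‖evN6 (fun _ r O a b x => ((r : ℂ) + 1) * PBU.PLX.pinI q r O a b x) x‖) :=
    (m1.norm.mul mp.norm).ennreal_ofReal
  refine le_trans (lintegral_mono fun x => ?_) (le_of_eq (lintegral_add_left mm _))
  rw [← ENNReal.ofReal_add (by positivity) (by positivity), ← ofReal_norm, ← ofReal_norm,
    ← ENNReal.ofReal_mul (norm_nonneg _)]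
  refine ENNReal.ofReal_le_ofReal ?_
  rw [← mul_add]
  refine mul_le_mul_of_nonneg_left ?_ (norm_nonneg _)
  obtain ⟨v, hv⟩ : ∃ v, v = (evN6 fun n => vP (fun u : ℝ => ρ u) g (η n)) x := ⟨_, rfl⟩
  have e1 : ‖evN6 (fun n => pI2 (fun u : ℝ => ρ u) g (η n)) x‖ =
      ‖evN6 (fun _ => pI) x‖ * (1 + ((x.2.1.1 : ℕ) : ℝ) + ‖v‖) := by
    have h4 : evN6 (fun n => pI2 (fun u : ℝ => ρ u) g (η n)) x =
        evN6 (fun _ => pI) x * ((1 + ((x.2.1.1 : ℕ) : ℝ) + ‖v‖ : ℝ) : ℂ) := by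
      rw [hv]
      rfl
    rw [h4, norm_mul, norm_real, Real.norm_of_nonneg (by positivity)]
  have e2 : ‖evN6 (fun n r O a b x => (((r : ℂ) + 1) * PBU.PLX.pinI q r O a b x) *
      Vy 0 (η n) ρ (fun _ => g) r O a b x) x‖ =
      ‖evN6 (fun _ r O a b x => ((r : ℂ) + 1) * PBU.PLX.pinI q r O a b x) x‖ * ‖v‖ := by
    rw [hv, vP_Vy, ← norm_mul]
    rfl
  rw [e1, e2]
  obtain ⟨p, hp⟩ : ∃ p, p = ‖evN6 (fun _ r O a b x => ((r : ℂ) + 1) * PBU.PLX.pinI q r O a b x) x‖ := ⟨_, rfl⟩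
  rw [← hp]
  have h5 : ‖evN6 (fun _ => pI) x‖ * (((x.2.1.1 : ℕ) : ℝ) + 1) ≤ p := by
    rw [hp]
    exact pI_le_pin hq x.2.2.1 x.2.2.2
  have h6 : (0 : ℝ) ≤ ((x.2.1.1 : ℕ) : ℝ) := Nat.cast_nonneg _
  have h7 := norm_nonneg (evN6 (fun _ => pI) x)
  have h8 := norm_nonneg v
  have h9 : ‖evN6 (fun _ => pI) x‖ ≤ p := le_trans (le_mul_of_one_le_right h7 (by linarith)) h5
  nlinarith [mul_le_mul_of_nonneg_right h9 h8]

end mom

/-! ### the two leg identities -/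

/-- the density as the function of the heights of the rows -/
theorem rhA_rhS {m : ℕ} {x : Fin m → ℂ} (hx : ∀ i, (x i).re = 0) :
    (fun u : ℝ => rhA x u) = rhS fun i => (x i).im := by
  funext u
  show PBForce.rhoR x (NUP1.l + I * (u : ℂ)) = _
  unfold PBForce.rhoR rhS
  refine Finset.sum_congr rfl fun i _ => ?_
  rw [← PBForce.pc_I]
  congr 1
  have e : x i = I * ((x i).im : ℂ) := by
    apply Complex.ext
    · simp [hx i]
    · simp
  rw [e]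
  push_cast
  ring

theorem meas_rhA {m : ℕ} {x : Fin m → ℂ} (hx : ∀ i, (x i).re = 0) :
    Measurable fun u : ℝ => rhA x u := by
  rw [rhA_rhS hx]
  unfold rhS
  refine Finset.measurable_fun_sum _ fun i _ => ?_
  refine Complex.measurable_ofReal.comp ?_
  unfold NUMF.P NUMF.ch
  fun_prop

/-- **the two leg identities at one index**: rows on the imaginary axis, legs at any height -/
theorem legs_I (hFF : FFth) : ∃ C : ℝ, 1 ≤ C ∧ ∀ {ep : ℝ} (_ : 0 < ep) (_ : ep ≤ 1 / 100) {η η' : Crs}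
    (_ : CrsB ep η η') {m : ℕ} {x : Fin m → ℂ} (_ : ∀ i, (x i).re = 0)
    (_ : PhI6 (N := Nq m) (4 / 3 * (1 - ep)) (rwq x) fun _ => [I, -I]) {t K q dp y₁ y₂ : ℝ} (_ : q ≤ 2)
    (_ : 0 ≤ dp) (_ : -(NUP1.l / 2) ≤ y₁) (_ : y₂ ≤ NUP1.l)
    (_ : MBd6 (2 * m) (fun _ => ZI m x (4 / 3 * (1 - ep)) (I * t)) (fun _ => par6) (fun _ => η) (fun _ => η')
      (fun _ => Pf (I * t) x (yq x)) (rhA x) y₁ y₂ K q dp),
    ‖F (mN6 (2 * m)) (wN6 (fun _ => ZI m x (4 / 3 * (1 - ep)) (I * t)) (fun _ => par6) (2 * m) (fun _ => η)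
        (fun _ => η') fun _ => Pf (I * t) x (yq x))
        (Vp6 (fun u : ℝ => rhA x u) (fun _ => η) (PBEI.h0T t)) + I * deriv (fQ Fil.q x) (I * t)‖ ≤
      C * Real.exp (4 * |t|) * dp ∧
    ‖F (mN6 (2 * m)) (wN6 (fun _ => ZI m x (4 / 3 * (1 - ep)) (I * t)) (fun _ => par6) (2 * m) (fun _ => η)
        (fun _ => η') fun _ => Pf (I * t) x (yq x)) (fun ω =>
          Vp6 (fun u : ℝ => rhA x u) (fun _ => η) (PBEI.h0T t) ω *
            Vp6 (fun u : ℝ => rhA x u) (fun _ => η) (PBEI.h0T t) ω) +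
      F (mN6 (2 * m)) (wN6 (fun _ => ZI m x (4 / 3 * (1 - ep)) (I * t)) (fun _ => par6) (2 * m) (fun _ => η)
        (fun _ => η') fun _ => Pf (I * t) x (yq x))
        (Vp6 (fun u : ℝ => rhA x u) (fun _ => η) (PBEI.g2T t)) -
      -deriv (deriv (fQ Fil.q x)) (I * t)‖ ≤ C * Real.exp (4 * |t|) * dp := by
  have hl := NUMF.l_pos
  have hl1 : NUP1.l = NUMF.l := rfl
  obtain ⟨C1, hC1, B1⟩ := leg_b1T
  obtain ⟨C2, hC2, B2⟩ := leg_b2T
  obtain ⟨M, hM, hBC⟩ := BC_dls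
  refine ⟨C1 + C2 * (1 + M), by nlinarith, ?_⟩
  intro ep hep hep1 η η' hC m x hx hphi t K q dp y₁ y₂ hq hdp hy1 hy2 hmb
  have hRws : Rws x := Rws_re hx
  obtain ⟨Z0, hZ0⟩ : ∃ Z0 : Bool → Option O3 → ℂ → ℂ,
    Z0 = Z0X (PBU.PLX.ccS6 m) (g0I m x) (4 / 3 * (1 - ep)) x [I, -I] := ⟨_, rfl⟩
  have eZ : ∀ τ : ℝ, Zm Z0 (lgK (I * τ)) = ZI m x (4 / 3 * (1 - ep)) (I * τ) := fun τ => by
    rw [hZ0]
    exact ZXL_lgK _ _ _ _ _ _
  have mZ0 : ∀ s k, Measurable (Z0 s k) := fun s k => by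
    rw [hZ0]
    exact measurable_Z0X (meas_g0I m hRws) _ _ _ s k
  have hM6 : ∀ n ≤ 2 * m, MC6 (ZI m x (4 / 3 * (1 - ep)) (I * t)) par6 η η' := fun n _ =>
    MC6.of (fun s k => PBFX.PLX.measurable_ZXL (meas_g0I m hRws) s k) hC.mc
  have hPf : Pf (I * t) x (yq x) ≠ 0 := Pf_ne hx (by simp)
  have H : LegH6 Z0 par6 (2 * m) (fun _ => η) (fun _ => η') := by
    refine ⟨par6_good, mZ0, fun _ => hC.mc, fun n r O t => ?_, fun n hn => ⟨t, ?_⟩⟩
    · refine ((hC.cur r O).h1 t).trans ?_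
      rw [hl1]
      nlinarith
    · rw [eZ]
      exact fin_M hM6 hmb hn hPf
  have hb : ∀ (n : ℕ) (r : ℕ) (O : Fin r → Xo) (u : ℝ), |(fun _ : ℕ => η) n r O u| ≤ NUMF.l / 2 := H.b
  -- the density
  have hrh := rhA_rhS hx
  obtain ⟨hh, hhd⟩ : ∃ hh : Fin m → ℝ, hh = fun i => (x i).im := ⟨_, rfl⟩
  rw [← hhd] at hrh
  -- the function
  obtain ⟨cT, hcT⟩ : ∃ cT : ℝ → ℂ, cT = fun τ : ℝ => Pf (I * τ) x (yq x) := ⟨_, rfl⟩
  have hXs : ∀ i, x i = I * hh i := fun i => by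
    rw [hhd]
    apply Complex.ext
    · simp [hx i]
    · simp
  have hc1 : ∀ τ : ℝ, HasDerivAt cT (Mn (rhS hh) τ * cT τ) τ := fun τ => by
    rw [hcT]
    exact Pf_Mn hXs τ
  have hf : ∀ τ : ℝ, fQ Fil.q x (I * τ) = T06 Z0 par6 (2 * m) (fun _ => η) (fun _ => η') cT τ := by
    intro τ
    rw [H.T0_eq, eZ, dN_two, hcT]
    have hre : (I * (τ : ℂ)).re = 0 := by simp
    exact PHK.fN_FF6 hFF par6_good Pool.Agent.PLX.hI6_par6 hep hep1 (by linarith) (by linarith) hRws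
      (fun _ => PHK.re_II) (fun a => Pool.Agent.PLX.gF6_gO _ (Rws_rwq hRws a) (by simp)) hphi
      (by rw [hre, hl1]; linarith) (by rw [hre, hl1]; linarith)
      (fun n _ r _ => Eventually.of_forall fun O => hC.cur r O)
  -- the derivatives
  have hS' : IsOpen {z : ℂ | |z.re| < 43 / 10 * NUP1.l} :=
    isOpen_lt (continuous_abs.comp Complex.continuous_re) continuous_const
  have hd := Pool.Agent.PLX.fQ_diff Fil.q (Pool.Agent.PB.Rws.rwo hRws)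
  have hd' : DifferentiableOn ℂ (deriv (fQ Fil.q x)) {z : ℂ | |z.re| < 43 / 10 * NUP1.l} :=
    hd.deriv hS'
  have hmem : ∀ τ : ℝ, I * (τ : ℂ) ∈ {z : ℂ | |z.re| < 43 / 10 * NUP1.l} := fun τ => by
    show |(I * (τ : ℂ)).re| < 43 / 10 * NUP1.l
    rw [show (I * (τ : ℂ)).re = 0 by simp, abs_zero, hl1]
    positivity
  have d0 : ∀ τ : ℝ, HasDerivAt (fun τ : ℝ => I * (τ : ℂ)) I τ := fun τ => by
    simpa using (Complex.ofRealCLM.hasDerivAt (x := τ)).const_mul I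
  have f1 : ∀ τ : ℝ, I * deriv (fQ Fil.q x) (I * τ) = T16 Z0 par6 (2 * m) (fun _ => η) (fun _ => η')
      (rhS hh) cT τ := by
    intro τ
    have a1 := ((hd.differentiableAt (hS'.mem_nhds (hmem τ))).hasDerivAt.comp_of_eq τ (d0 τ) rfl)
    have a2 := H.d1 (hc1 τ)
    have e : (fQ Fil.q x ∘ fun τ : ℝ => I * (τ : ℂ)) = T06 Z0 par6 (2 * m) (fun _ => η) (fun _ => η') cT :=
      funext hf
    rw [e] at a1
    rw [← a1.unique a2, mul_comm]
  have f2 : -deriv (deriv (fQ Fil.q x)) (I * t) = T26 Z0 par6 (2 * m) (fun _ => η) (fun _ => η')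
      (rhS hh) cT t := by
    have a1 := ((hd'.differentiableAt (hS'.mem_nhds (hmem t))).hasDerivAt.comp_of_eq t (d0 t)
      rfl).const_mul I
    have a2 := H.d2 (hc1 t) (hasDerivAt_Mn hh t)
    have e : (fun τ : ℝ => I * (deriv (fQ Fil.q x) ∘ fun τ : ℝ => I * (τ : ℂ)) τ) =
        T16 Z0 par6 (2 * m) (fun _ => η) (fun _ => η') (rhS hh) cT := funext f1
    rw [e] at a1
    rw [← a1.unique a2]
    linear_combination (-(deriv (deriv (fQ Fil.q x)) (I * t))) * I_mul_I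
  -- the weight
  have hw : WT6 Z0 par6 (2 * m) (fun _ => η) (fun _ => η') cT t =
      wN6 (fun _ => ZI m x (4 / 3 * (1 - ep)) (I * t)) (fun _ => par6) (2 * m) (fun _ => η) (fun _ => η')
        fun _ => Pf (I * t) x (yq x) := by
    unfold WT6
    rw [eZ, hcT]
  have v0 : (Vp6 (rhS hh) (fun _ => η) (PBEI.h0T t) : CfN6 (2 * m) → ℂ) =
      evN6 fun n => vP (rhS hh) (fun z => dl (z - t)) ((fun _ => η) n) := by
    rw [← Vp_vP6]
    exact Vp_congr6 hb fun z h1 h2 => h0T_dl h1 h2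
  have v1 : (Vp6 (rhS hh) (fun _ => η) (PBEI.g2T t) : CfN6 (2 * m) → ℂ) =
      evN6 fun n => vP (rhS hh) (fun z => dl2 (z - t)) ((fun _ => η) n) := by
    rw [← Vp_vP6]
    exact Vp_congr6 hb fun z h1 h2 => g2T_dl h1 h2
  have Q1 := pI_M hq hM6 hmb
  have hBC' : BC y₁ y₂ M (fun z => dl (z - t)) := ⟨(hBC t).an.mono fun z hz => ⟨by
      have := hz.1
      rw [hl1] at hy1
      linarith, by
      have := hz.2
      rw [hl1] at hy2
      linarith⟩, fun z hz => (hBC t).bd z ⟨by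
      have := hz.1
      rw [hl1] at hy1
      linarith, by
      have := hz.2
      rw [hl1] at hy2
      linarith⟩⟩
  have Q2 := pI2_M hq hdp (fun _ => hC.mc) hM6 (meas_rhA hx) hmb hM.le (measurable_dls t) hBC'
  rw [hrh] at Q2 ⊢
  have hE2 : Real.exp (2 * |t|) ≤ Real.exp (4 * |t|) := Real.exp_le_exp.2 (by linarith [abs_nonneg t])
  have hE0 := Real.exp_pos (4 * |t|)
  constructor
  · have k := B1 H (rhS hh) cT t (d := dp) hdp (by
      rw [eZ, hcT]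
      exact Q1)
    rw [hw, ← f1 t] at k
    rw [v0]
    refine k.trans (mul_le_mul_of_nonneg_right ?_ hdp)
    calc C1 * Real.exp (2 * |t|) ≤ C1 * Real.exp (4 * |t|) := by gcongr
      _ ≤ (C1 + C2 * (1 + M)) * Real.exp (4 * |t|) := by
          refine mul_le_mul_of_nonneg_right ?_ hE0.le
          nlinarith
  · have k := B2 H (rhS hh) cT t (d := dp + M * dp) (by positivity) (by
      rw [eZ, hcT]
      exact Q2)
    rw [hw, ← f2] at k
    rw [v0, v1]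
    refine k.trans ?_
    calc C2 * Real.exp (4 * |t|) * (dp + M * dp) = C2 * (1 + M) * Real.exp (4 * |t|) * dp := by ring
      _ ≤ (C1 + C2 * (1 + M)) * Real.exp (4 * |t|) * dp := by
          refine mul_le_mul_of_nonneg_right (mul_le_mul_of_nonneg_right ?_ hE0.le) hdp
          linarith

end PLT

end
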