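import Pool.Agent.PLT.I1FI
import Pool.Agent.PLT.CloseI
import Pool.Agent.PLT.RepZI
import Pool.Agent.PLT.RepLT
import Pool.Agent.PLT.LamDecT
import Pool.Agent.PLT.IdxW
import Pool.Agent.PLT.ZLegI
import Pool.Agent.PHK.RepF6
import Pool.Agent.PHK.RepI6
import Pool.Agent.PHK.RepJ6

/-!
# (P), rows on the imaginary axis: the total insertion against the bracket, one index

`total_le6` of `PHK/I1G6` at one index, content, curves and moments as data, legs at `I τ` of any height.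

* **`total_leI`**: `‖m F0N6 (insI x i0 (I τ)) - brE‖ ≤ K e^(2 |τ|) dp`, `dp` the bound of the pinned
  moments; constant absolute;
* **`ha_I`**: the first input of `hD_I6` (total insertion against the bracket) from the record `IdxW`.
-/

set_option autoImplicit false
set_option linter.unusedSectionVars false
set_option maxHeartbeats 1000000

noncomputable section

open Complex MeasureTheory Finset Filter
open scoped Classical
open PLX (Fil)

namespace PLT.RI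

open NUP1 hiding Kd
open NUO NUP1S NUP1S.Ab NUP1S.AbC PBF PBF.PLX PBFunc PBFunc.PLX PB
open PBI (Stt Kd)
open PBRep.PLX (F0N6 Mo6 Ln6 TrN6 VC6 VC_smul6 sK adS_gl6 obs_gl6 gl ln_row6 RhoK wT6 i26 i2'6)
open PBForce (xiR rhoR Rws0)
open PBQ1 (xiK lamK)
open PBV (wm)
open PBEI (Apl6 Ami6 Bch6 uF qF)
open PHK
open PLT.CloE (brE)
open PLT.SW (IdxW ZW wW cW)
open PBI.PLX (ClsB6)
open PBQM.PLX
open _root_.Pool.Agent.PLX (rwq PhI6)
open Pool.Agent.PB (Pf)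
open _root_.Pool.Agent.PLX (yq)

variable [Fil]

/-- the density of the rows on the line of the quanta -/
theorem rhA_vl {m : ℕ} (x : Fin m → ℂ) : (fun u : ℝ => rhoR x (vl l u)) = fun u : ℝ => rhA x u := by
  funext u
  show rhoR x (vl l u) = rhoR x (l + I * u)
  unfold vl
  rw [mul_comm]

/-- **the total insertion against the bracket, one index**: any content with rows on the imaginary axis,
legs at `I τ`, any curves, any moments -/
theorem total_leI : ∃ K : ℝ, 0 < K ∧ ∀ (m : ℕ) (x : Fin m → ℂ) (i0 : Fin m), Rws0 x →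
    ∀ (τ : ℝ) (P0 : NUO.Par) (Z : Stt) (κ κ' δ : ℝ) (η η' : ℕ → PBF.PLX.Crs) (c : ℕ → ℂ) (K2 dp : ℝ),
    NURow.ParP P0 → δ ≤ 1 / 20 →
    TrN6 Z (PBI.PLX.fl P0) par6 (3 / 5 * l) κ κ' δ (2 * m) η η' →
    (∀ n ≤ 2 * m, ∀ r (O : Fin r → Xo), CrvR6 δ (η n r O) (η' n r O)) →
    Mo6 (19 / 10) (wT6 Z par6 (2 * m) η η' c) (fun u : ℝ => rhA x u) par6 η K2 dp →
    ‖(m : ℂ) * F0N6 Z (PBI.PLX.fl P0) (3 / 5 * l) (2 * m) c (insI x i0 (I * τ)) -
      brE (mN6 (2 * m)) (wT6 Z par6 (2 * m) η η' c) (Vp6 (fun u : ℝ => rhA x u) η)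
        (Vm6 (fun u : ℝ => rhA x u) η) (SN6 (fun u : ℝ => rhA x u) par6 η) x i0 τ‖ ≤
      K * Real.exp (2 * |τ|) * dp := by
  have hl := Bd.l_pos
  have hlN : NUP1.l = NUMF.l := rfl
  obtain ⟨Kr, hKr, HR⟩ := PBRep.PLX.repI6 (a' := 19 / 10) (by norm_num) (by norm_num)
  obtain ⟨C1, hC1, HE⟩ := PBEI.rep_EF6 (a := 39 / 20) (a' := 19 / 10) (by norm_num) (by norm_num)
    (by norm_num)
  obtain ⟨C2, hC2, HL⟩ := lamK_DQT
  obtain ⟨Mq, hMq, HQ⟩ := exists_gl_decT hC2.le (fun z h1 b u hu =>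
    HL z (by rw [h1, abs_zero]; exact (half_pos NUMF.l_pos).le) 2 le_rfl b u hu)
  refine ⟨Kr * (1 + Mq), by positivity, fun m x i0 hx τ P0 Z κ κ' δ η η' c K2 dp hP hδ hT hcr hM => ?_⟩
  have hL := ln_row6 (N := 2 * m) hP (x0 := 3 / 5 * l) (by linarith) (by linarith) rfl hx
  rw [rhA_vl] at hL
  have hcc : ∀ n ≤ 2 * m, PBF.PLX.MCr (η n) (η' n) := fun n hn => (hT.ins n hn).hc
  have hre : |(I * (τ : ℂ)).re| ≤ l / 2 := by
    rw [show (I * (τ : ℂ)).re = 0 by simp, abs_zero]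
    positivity
  have hadl : AdS6 par6 (3 / 5 * l) δ (sK fun b z => (m : ℂ) * gl x i0 (I * τ) b z) :=
    (adS_gl6 par6_good hδ hx i0 hre).cmul _
  obtain ⟨q1, q2⟩ := HQ m x i0 hx τ (19 / 10) (by norm_num) (by norm_num)
  have hMq0 : 0 ≤ Mq * Real.exp (2 * |τ|) := by positivity
  have hobs := obs_gl6 (N := 2 * m) (P := par6) (δ := δ) (a := 19 / 10)
    (Mq := Mq * Real.exp (2 * |τ|)) (η := η) (η' := η') par6_good PBOb.PLX.par6_O hcc hδ hcr hL.hρ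
    x i0 τ (by norm_num) (by norm_num) hMq0 q1 q2
  have evc : (VC6 (PBQ1.rhK2 x) par6 η
      fun b z => (m : ℂ) * gl x i0 (I * τ) b z : CfN6 (2 * m) → ℂ) =
      fun ω => (m : ℂ) * VC6 (PBQ1.rhK2 x) par6 η (gl x i0 (I * τ)) ω := by
    funext ω
    exact VC_smul6 _ _ _ ω
  rw [← evc] at hobs
  obtain ⟨r1, r2, -⟩ := HE m x i0 hx
  have y1 : -(NUMF.l / 10) < 0 := by rw [← hlN]; linarith
  have y2 : 0 < 351 / 400 * NUMF.l := by rw [← hlN]; linarith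
  have hρm : AEStronglyMeasurable (fun u : ℝ => rhA x u) volume := hL.hρ.i.1
  have i1 := i26 (N := 2 * m) (η := η) (η' := η') (x := x) (i0 := i0) r1 y1 y2 hρm hcc hM.wm hM.K0
    hM.vp
  have i1' := i2'6 (N := 2 * m) (η := η) (η' := η') (x := x) (i0 := i0) r2 y1 y2 hρm hcc hM.wm hM.K0
    hM.vm
  have key := HR m x i0 hx Z (PBI.PLX.fl P0) par6 (3 / 5 * l) _ _ _
    (2 * m) η η' c _ (PBQ1.rhK2 x) (fun u : ℝ => rhA x u)
    (gl x i0 (I * τ)) τ (Mq * Real.exp (2 * |τ|)) K2 dp hT hL hM hadl hobs i1 i1'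
  refine (key).trans ?_
  have hE : 1 ≤ Real.exp (2 * |τ|) := Real.one_le_exp (by positivity)
  have hdp : 0 ≤ dp := hM.pin.δ0
  have h1 : Kr * (1 + Mq * Real.exp (2 * |τ|)) ≤ Kr * (1 + Mq) * Real.exp (2 * |τ|) := by
    nlinarith
  exact mul_le_mul_of_nonneg_right h1 hdp

/-- **the first input of the identity of the moved row**, from the record of the family at one index -/
theorem ha_I (hC : ClsB6) : ∃ K : ℝ, 0 < K ∧ ∀ {ep : ℝ}, 0 < ep → ep ≤ 1 / 100 → ∀ (k : ℕ) {m : ℕ}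
    (x : Fin m → ℂ) (i0 : Fin m), Rws0 x →
    (PhI6 (N := Nq m) (4 / 3 * (1 - ep)) (rwq x) fun _ => [I, -I]) →
    ∀ (τ : ℝ) {η η' : PBF.PLX.Crs} {K' dp : ℝ}, IdxW ep k x τ η η' K' dp → ∀ P0 : NUO.Par, NURow.ParP P0 →
    ‖(m : ℂ) * F0TI (ZW ep k x τ) P0 x i0 (I * τ) -
      brE (mN6 (2 * m)) (wW ep k x τ η η') (Vp6 (fun u : ℝ => rhA x u) fun _ => η)
        (Vm6 (fun u : ℝ => rhA x u) fun _ => η) (SN6 (fun u : ℝ => rhA x u) par6 fun _ => η) x i0 τ‖ ≤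
      K * Real.exp (2 * |τ|) * dp := by
  obtain ⟨K, hK, H⟩ := total_leI
  refine ⟨K, hK, fun {ep} hep hep1 k {m} x i0 hx hphi τ {η η'} {K' dp} hI P0 hP => ?_⟩
  have hl := Bd.l_pos
  have hre : (I * (τ : ℂ)).re = 0 := by simp
  have hz : |(I * (τ : ℂ)).re| ≤ l / 2 := by
    rw [hre, abs_zero]
    positivity
  have hm : 0 < m := i0.pos
  have hPf : Pf (I * (τ : ℂ)) x (yq x) ≠ 0 := PBLg.PLX.Pf_ne hx.re hre
  have hfin : ∀ n ≤ 2 * m, FA6 (ZW ep k x τ) par6 n (n + dN (2 * m)) η η'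
      (fun _ _ _ _ _ => 1) < ⊤ := fun n hn =>
    fin_M (fun n _ => PLT.FI.mc6_XXI hI.crs x [I, -I] (I * τ) _ _
      (PLT.FI.meas_g0I k (PLT.FI.Rws_re hx.re)) par6) hI.mbd hn hPf
  have hT := trN_IP hC hP hep hep1 hI.crs k hx.re hz hphi hfin
  have hM := hI.mo
  exact H m x i0 hx τ P0 (ZW ep k x τ) _ _ (ep / 4) (fun _ => η) (fun _ => η') (fun _ => cW x τ) K' dp
    hP (by linarith) hT (fun n _ r O => crvR6_of (hI.crs.cur r O)) hM

end PLT.RI

end
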