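import Pool.Agent.PLT.IdxW
import Pool.Agent.PLT.CloseI
import Pool.Agent.PLT.ZLegI
import Pool.Agent.PLT.ZRI
import Pool.Agent.PLT.H1Phi
import Pool.Agent.PLT.I1GI
import Pool.Agent.PLT.FamWI

/-!
# The Ward identity on the imaginary segment from the family and the cut term (helper46)

* `CutV h0 e0`: the cut term of the first identity (velocities of the cutoff points free);
* `inE_idx`: the inputs of the closing at one index;
* **`inW_of`**: `FamW → CutV → InW q a0 b0 (13/20) e0 d1`; **`wim_W`**: 17's `WIM`.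
-/

set_option autoImplicit false
set_option linter.unusedSectionVars false

noncomputable section

open Complex MeasureTheory Finset Filter Topology

open PLX (Fil)

namespace PLT.SW

open NUO NUP1 NUCR NUP1S NUP1S.Ab NUP1S.AbC NUGC NUGC.PLX PBFunc PBFunc.PLX PBF PBF.PLX PBE PBE.PLX
open PBWP.PLX PBLX.PLX
open PBEI (y1 y26 h0T mfL Apl6 Ami6 Bch6)
open PBV (wm)
open PBU.PLX (MBd6 BC T1L)
open PBT.PLX (pL)
open PHK
open PBForce (Rws0 xiR)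
open Pool.Agent.PLX (rwq yq fQ FFth PhI6)
open Pool.Agent.PB (Pf)
open PLT.CloE PLT.Pa PLT.FS

attribute [local instance] NUSea.seaP _root_.PLX.ends0

variable [Fil]

/-- **the cut term**, the velocities of the cutoff points are free -/
def CutV (h0 e0 : ℝ) : Prop := ∃ a0 : ℝ, 0 < a0 ∧ ∀ ep : ℝ, 0 < ep → ep ≤ 1 / 100 → ep ≤ a0 →
  ∃ C : ℝ, 0 < C ∧ ∀ᶠ m : ℕ in atTop, ∀ x : Fin m → ℂ, (∀ k, (x k).re = 0 ∧ |(x k).im| ≤ h0) →
  ∀ (i0 : Fin m) (η0 : ℝ), x i0 = I * η0 → ∀ τ : ℝ, |τ| ≤ e0 * Real.log m → ∃ v : Bool → Fin 2 → ℂ,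
    ‖cutI (FI.ZI m x (4 / 3 * (1 - ep)) (I * τ))
      (ZdRm (cRm m) (4 / 3 * (1 - ep)) x i0 (I * τ) η0 v (T1L m) (xiR x i0) η0)
      (ZpRm (cRm m) (4 / 3 * (1 - ep)) x i0 (I * τ) η0 v (T1L m) (xiR x i0)) (pL m) x i0 (I * τ)‖ ≤
      C * (m : ℝ) ^ (-(33 / 20) : ℝ) * Real.exp (C * |τ|)

/-- **the inputs of the closing at one index** -/
theorem inE_idx (hFF : FFth) (hCl : PBI.PLX.ClsB6) {ep : ℝ} (hep0 : 0 < ep) (hep1 : ep ≤ 1 / 100) :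
    ∃ C : ℝ, 1 ≤ C ∧ ∃ m0 : ℕ, ∀ m : ℕ, m0 ≤ m → ∀ (x : Fin m → ℂ) (i0 : Fin m) (η0 : ℝ), Rws0 x →
      x i0 = I * η0 → ∀ (τ : ℝ) (η η' : PBF.PLX.Crs) (K dp δc : ℝ) (v : Bool → Fin 2 → ℂ),
      IdxW ep m x τ η η' K dp →
      ‖cutI (FI.ZI m x (4 / 3 * (1 - ep)) (I * τ))
        (ZdRm (cRm m) (4 / 3 * (1 - ep)) x i0 (I * τ) η0 v (T1L m) (xiR x i0) η0)
        (ZpRm (cRm m) (4 / 3 * (1 - ep)) x i0 (I * τ) η0 v (T1L m) (xiR x i0)) (pL m) x i0 (I * τ)‖ ≤ δc →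
      ∃ D : ℂ, HasDerivAt (fun σ : ℝ => fQ Fil.q (Function.update x i0 (I * σ)) (I * τ)) D η0 ∧
        InE x i0 τ (fQ Fil.q x) D
          (C * Real.exp (4 * |τ|) * (K * (m : ℝ) ^ (-(141 / 200 : ℝ)) + dp) + m * δc) := by
  obtain ⟨hl1, hl2⟩ := l_num
  have hb6' : bb6' = 9 / 1000 * NUP1.l := rfl
  obtain ⟨C1, hC1, H1⟩ := levD_of hep0 hep1
  obtain ⟨C2, hC2, H2⟩ := PLT.RI.ha_I hCl
  obtain ⟨C3, hC3, H3⟩ := legs_I hFF
  obtain ⟨m0, hm0, hphi⟩ := PLT.H1.phI6_Rws0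
  refine ⟨2 * C1 ^ 2 + C1 + C2 + C3, by nlinarith, m0, fun m hm x i0 η0 hx hi τ η η' K dp δc v h hc => ?_⟩
  have hm1 : 0 < m := by omega
  have hph := hphi m hm (4 / 3 * (1 - ep)) (by linarith) (by linarith) x hx
  have L := H1 m hm1 hx i0 τ h
  have ha := H2 hep0 hep1 m x i0 hx hph τ h (pL m) (PBRep.PLX.parP_par0 m)
  obtain ⟨l1, l2⟩ := H3 hep0 hep1 h.crs hx.re hph (t := τ) (by norm_num) h.d0 (by linarith)
    (by rw [hb6']; linarith) h.mbd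
  have hz : |(I * (τ : ℂ)).re| ≤ NUMF.l / 2 := by
    have e0 : (I * (τ : ℂ)).re = 0 := by simp
    have e1 : 0 < NUMF.l := NUMF.l_pos
    rw [e0, abs_zero]
    linarith
  obtain ⟨D, hD, hDm⟩ := hD_I6 (β := 4 / 3 * (1 - ep)) v (PBF.PLX.parZ_parC m) (PBRep.PLX.parP_par0 m)
    (by linarith) (by linarith) hz hx hi ha hc
  have hδc : 0 ≤ δc := (norm_nonneg _).trans hc
  have hK := h.K0
  have hd := h.d0
  have hmr : (0 : ℝ) < m := by exact_mod_cast hm1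
  obtain ⟨th, hth⟩ : ∃ th : ℝ, th = (m : ℝ) ^ (-(141 / 200 : ℝ)) := ⟨_, rfl⟩
  have hth0 : 0 < th := by rw [hth]; positivity
  obtain ⟨E, hE⟩ : ∃ E : ℝ, E = Real.exp (4 * |τ|) := ⟨_, rfl⟩
  have hE1 : 1 ≤ E := by rw [hE]; exact Real.one_le_exp (by positivity)
  have hE2 : Real.exp (2 * |τ|) ≤ E := by
    rw [hE]
    exact Real.exp_le_exp.2 (by linarith [abs_nonneg τ])
  have hmδ : 0 ≤ (m : ℝ) * δc := mul_nonneg hmr.le hδc
  have hKt : 0 ≤ K * th := mul_nonneg hK hth0.le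
  have b1 : E * dp ≤ E * (K * th + dp) := mul_le_mul_of_nonneg_left (by linarith) (by linarith)
  have hX : 0 ≤ E * (K * th + dp) := by positivity
  refine ⟨D, hD, CfN6 (2 * m), inferInstance, mN6 (2 * m), inferInstance, wW ep m x τ η η',
    Vp6 (fun u : ℝ => rhA x u) fun _ => η, Vm6 (fun u : ℝ => rhA x u) fun _ => η,
    SN6 (fun u : ℝ => rhA x u) par6 fun _ => η, C1 * K, C1 * (m : ℝ) ^ (-(141 / 200 : ℝ)), C1 * dp, L,
    ?_, ?_, ?_, ?_⟩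
  · rw [← hth, ← hE]
    have e1 : 2 * (C1 * K) * (C1 * th) + C1 * dp ≤ (2 * C1 ^ 2 + C1) * (K * th + dp) := by
      nlinarith [mul_nonneg (sq_nonneg C1) hd, mul_nonneg (by linarith : (0 : ℝ) ≤ C1) hKt]
    have e2 : (2 * C1 ^ 2 + C1) * (K * th + dp) ≤ (2 * C1 ^ 2 + C1) * (E * (K * th + dp)) :=
      mul_le_mul_of_nonneg_left (le_mul_of_one_le_left (by positivity) hE1) (by nlinarith)
    nlinarith [mul_nonneg (by linarith : (0 : ℝ) ≤ C2 + C3) hX]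
  · refine hDm.trans ?_
    rw [← hth, ← hE]
    have e1 : C2 * Real.exp (2 * |τ|) * dp ≤ C2 * (E * (K * th + dp)) := by
      rw [mul_assoc]
      exact mul_le_mul_of_nonneg_left ((mul_le_mul_of_nonneg_right hE2 hd).trans b1) hC2.le
    nlinarith [mul_nonneg (by nlinarith : (0 : ℝ) ≤ 2 * C1 ^ 2 + C1 + C3) hX]
  · refine l1.trans ?_
    rw [← hth, ← hE]
    have e1 : C3 * E * dp ≤ C3 * (E * (K * th + dp)) := by
      rw [mul_assoc]
      exact mul_le_mul_of_nonneg_left b1 (by linarith)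
    nlinarith [mul_nonneg (by nlinarith : (0 : ℝ) ≤ 2 * C1 ^ 2 + C1 + C2) hX]
  · refine l2.trans ?_
    rw [← hth, ← hE]
    have e1 : C3 * E * dp ≤ C3 * (E * (K * th + dp)) := by
      rw [mul_assoc]
      exact mul_le_mul_of_nonneg_left b1 (by linarith)
    nlinarith [mul_nonneg (by nlinarith : (0 : ℝ) ≤ 2 * C1 ^ 2 + C1 + C2) hX]

/-- `InE` with a larger error -/
theorem InE_mono {m : ℕ} {x : Fin m → ℂ} {i0 : Fin m} {τ : ℝ} {G : ℂ → ℂ} {D : ℂ} {δ δ' : ℝ}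
    (h : InE x i0 τ G D δ) (hδ : δ ≤ δ') : InE x i0 τ G D δ' := by
  obtain ⟨Ω, _, μ, _, w, V, Vm, S, K', th, δp, L, h0, h1, h2, h3⟩ := h
  exact ⟨Ω, _, μ, ‹_›, w, V, Vm, S, K', th, δp, L, h0.trans hδ, h1.trans hδ, h2.trans hδ, h3.trans hδ⟩

/-- **the inputs of the Ward identity on the imaginary segment** -/
theorem inW_of (hFF : FFth) (hCl : PBI.PLX.ClsB6) {a0 b0 : ℕ} (ha : 1 ≤ a0) (hb : 1 ≤ b0)
    {h0 e0 d1 : ℝ} (he0 : 0 ≤ e0) (hd : d1 ≤ h0) (hd1 : d1 ≤ 1) (hF : FamW h0 e0) (hcut : CutV h0 e0) :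
    InW Fil.q a0 b0 (13 / 20) e0 d1 := by
  have hA : (0 : ℝ) < a0 := by exact_mod_cast ha
  have hB : (0 : ℝ) < b0 := by exact_mod_cast hb
  obtain ⟨a1, ha1, H1⟩ := hF (1 / 20) (by norm_num)
  obtain ⟨a2, ha2, H2⟩ := hcut
  obtain ⟨a, haa⟩ : ∃ a : ℝ, a = min a1 (min a2 (1 / 10)) := ⟨_, rfl⟩
  have ha' : 0 < a := by
    rw [haa]
    exact lt_min ha1 (lt_min ha2 (by norm_num))
  have e1' : a ≤ a1 := by rw [haa]; exact min_le_left _ _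
  have e2' : a ≤ a2 := by rw [haa]; exact (min_le_right _ _).trans (min_le_left _ _)
  have e3' : a ≤ 1 / 10 := by rw [haa]; exact (min_le_right _ _).trans (min_le_right _ _)
  obtain ⟨J, hJ0, hJ⟩ : ∃ J : ℝ, 0 ≤ J ∧ Real.exp (-(2 * Real.pi * J)) ≤ a / 10 := by
    have h1 : Tendsto (fun J : ℝ => Real.exp (-(2 * Real.pi * J))) atTop (𝓝 0) := by
      refine Real.tendsto_exp_atBot.comp ?_
      exact (tendsto_neg_atTop_atBot).comp (tendsto_id.const_mul_atTop (by positivity))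
    have h2 := h1.eventually (Iic_mem_nhds (show (0 : ℝ) < a / 10 by positivity))
    obtain ⟨J, h3, h4⟩ := (h2.and (eventually_ge_atTop (0 : ℝ))).exists
    exact ⟨J, h4, h3⟩
  have hp : SmallP a1 (a / 10) (a / 10) J :=
    ⟨by positivity, by linarith, by positivity, by linarith, hJ0, by linarith⟩
  obtain ⟨Cf, hCf, Hf⟩ := H1 _ _ _ hp
  obtain ⟨Cc, hCc, Hc⟩ := H2 (a / 10) hp.ep0 hp.ep1 (by linarith)
  obtain ⟨C, hC, m0, HI⟩ := inE_idx hFF hCl hp.ep0 hp.ep1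
  obtain ⟨n1, hn1⟩ := eventually_atTop.1 Hf
  obtain ⟨n2, hn2⟩ := eventually_atTop.1 Hc
  obtain ⟨A, hAd⟩ : ∃ A : ℝ, A = 2 * C * Cf + Cc + 4 := ⟨_, rfl⟩
  have hCCf : 0 < C * Cf := by positivity
  refine ⟨A + Cf, ?_⟩
  filter_upwards [eventually_ge_atTop (max (max n1 n2) (max m0 1))] with k hk s hs τ hτ b hkb
  have k1 : n1 ≤ k := (le_max_left _ _).trans ((le_max_left _ _).trans hk)
  have k2 : n2 ≤ k := (le_max_right _ _).trans ((le_max_left _ _).trans hk)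
  have k3 : m0 ≤ k := (le_max_left _ _).trans ((le_max_right _ _).trans hk)
  have k4 : 1 ≤ k := (le_max_right _ _).trans ((le_max_right _ _).trans hk)
  have hk0 : (0 : ℝ) < k := by exact_mod_cast k4
  obtain ⟨m, hm⟩ : ∃ m : ℕ, m = k * a0 + (b + 1) := ⟨_, rfl⟩
  have hkm : k ≤ m := by
    rw [hm]
    have : k * 1 ≤ k * a0 := Nat.mul_le_mul_left k ha
    omega
  have hkm' : (k : ℝ) ≤ m := by exact_mod_cast hkm
  have hs1 : |s| ≤ 1 := hs.trans hd1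
  have hR := xs_Rws0 hA hB (k * a0) b hs1
  obtain ⟨p1, p2⟩ := ps_le hA hB s
  have hx : ∀ i, (xs a0 b0 (k * a0) b s i).re = 0 ∧ |(xs a0 b0 (k * a0) b s i).im| ≤ h0 := by
    intro i
    refine ⟨hR.re i, ?_⟩
    unfold CloE.xs
    refine cnt_cases (p := fun w : ℂ => |w.im| ≤ h0) ?_ ?_ i
    · simpa using (p1.trans hs).trans hd
    · simpa using (p2.trans hs).trans hd
  have hlog : |τ| ≤ e0 * Real.log ((k * a0 + (b + 1) : ℕ) : ℝ) := by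
    refine hτ.trans (mul_le_mul_of_nonneg_left (Real.log_le_log hk0 ?_) he0)
    rw [← hm]
    exact hkm'
  obtain ⟨η, η', hI⟩ := hn1 (k * a0 + (b + 1)) (by rw [← hm]; exact k1.trans hkm) _ hx τ hlog
  obtain ⟨v, hv⟩ := hn2 (k * a0 + (b + 1)) (by rw [← hm]; exact k2.trans hkm) _ hx (im0 (k * a0) b)
    (qs a0 b0 s) (xs_im0 _ _ _ _ _) τ hlog
  obtain ⟨D, hD, hE⟩ := HI (k * a0 + (b + 1)) (by rw [← hm]; exact k3.trans hkm) _ (im0 (k * a0) b)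
    (qs a0 b0 s) hR (xs_im0 _ _ _ _ _) τ η η' _ _ _ v hI hv
  refine ⟨D, hD, InE_mono hE ?_⟩
  rw [← hm]
  -- the sizes
  have hmr : (0 : ℝ) < m := hk0.trans_le hkm'
  have hm1 : (1 : ℝ) ≤ m := by
    have : (1 : ℝ) ≤ k := by exact_mod_cast k4
    linarith
  have q1 : (m : ℝ) ^ (-(13 / 20) : ℝ) ≤ (k : ℝ) ^ (-(13 / 20) : ℝ) :=
    Real.rpow_le_rpow_of_nonpos hk0 hkm' (by norm_num)
  have q2 : (m : ℝ) ^ (1 / 20 : ℝ) * (m : ℝ) ^ (-(141 / 200 : ℝ)) ≤ (m : ℝ) ^ (-(13 / 20) : ℝ) := by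
    rw [← Real.rpow_add hmr]
    exact Real.rpow_le_rpow_of_exponent_le hm1 (by norm_num)
  have q3 : (m : ℝ) * (m : ℝ) ^ (-(33 / 20) : ℝ) = (m : ℝ) ^ (-(13 / 20) : ℝ) := by
    nth_rewrite 1 [← Real.rpow_one (m : ℝ)]
    rw [← Real.rpow_add hmr]
    norm_num
  obtain ⟨M, hM⟩ : ∃ M : ℝ, M = (m : ℝ) ^ (-(13 / 20) : ℝ) := ⟨_, rfl⟩
  have hM0 : 0 ≤ M := by rw [hM]; positivity
  obtain ⟨t, ht⟩ : ∃ t : ℝ, t = |τ| := ⟨_, rfl⟩
  have ht0 : 0 ≤ t := by rw [ht]; exact abs_nonneg τ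
  rw [← ht, ← hM]
  have r1 : C * Real.exp (4 * t) * (Cf * (m : ℝ) ^ (1 / 20 : ℝ) * Real.exp (Cf * t) *
      (m : ℝ) ^ (-(141 / 200 : ℝ)) + Cf * M * Real.exp (Cf * t)) ≤
      2 * C * Cf * (M * Real.exp ((4 + Cf) * t)) := by
    have e4 : Real.exp ((4 + Cf) * t) = Real.exp (4 * t) * Real.exp (Cf * t) := by
      rw [← Real.exp_add]
      congr 1
      ring
    rw [e4]
    have q2' := q2
    rw [← hM] at q2'
    calc _ = C * Cf * (Real.exp (4 * t) * Real.exp (Cf * t)) *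
          ((m : ℝ) ^ (1 / 20 : ℝ) * (m : ℝ) ^ (-(141 / 200 : ℝ)) + M) := by ring
      _ ≤ C * Cf * (Real.exp (4 * t) * Real.exp (Cf * t)) * (M + M) :=
          mul_le_mul_of_nonneg_left (by linarith) (by positivity)
      _ = _ := by ring
  have r2 : (m : ℝ) * (Cc * (m : ℝ) ^ (-(33 / 20) : ℝ) * Real.exp (Cc * t)) =
      Cc * (M * Real.exp (Cc * t)) := by
    rw [hM, ← q3]
    ring
  rw [r2]
  have hAC : 0 ≤ A + Cf := by
    rw [hAd]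
    linarith
  have x1 : Real.exp ((4 + Cf) * t) ≤ Real.exp ((A + Cf) * t) :=
    Real.exp_le_exp.2 (mul_le_mul_of_nonneg_right (by rw [hAd]; linarith) ht0)
  have x2 : Real.exp (Cc * t) ≤ Real.exp ((A + Cf) * t) :=
    Real.exp_le_exp.2 (mul_le_mul_of_nonneg_right (by rw [hAd]; linarith) ht0)
  have hMk : M ≤ (k : ℝ) ^ (-(13 / 20) : ℝ) := by rw [hM]; exact q1
  calc _ ≤ 2 * C * Cf * (M * Real.exp ((4 + Cf) * t)) + Cc * (M * Real.exp (Cc * t)) :=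
        add_le_add r1 le_rfl
    _ ≤ 2 * C * Cf * (M * Real.exp ((A + Cf) * t)) + Cc * (M * Real.exp ((A + Cf) * t)) :=
        add_le_add (mul_le_mul_of_nonneg_left (mul_le_mul_of_nonneg_left x1 hM0) (by positivity))
          (mul_le_mul_of_nonneg_left (mul_le_mul_of_nonneg_left x2 hM0) hCc.le)
    _ = (2 * C * Cf + Cc) * (M * Real.exp ((A + Cf) * t)) := by ring
    _ ≤ (A + Cf) * ((k : ℝ) ^ (-(13 / 20) : ℝ) * Real.exp ((A + Cf) * t)) := by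
        refine mul_le_mul (by rw [hAd]; linarith) (mul_le_mul_of_nonneg_right hMk (Real.exp_pos _).le)
          (by positivity) hAC
    _ = _ := by ring

/-- **the Ward identity on the imaginary segment** from the family and the cut term -/
theorem wim_W (hFF : FFth) (hCl : PBI.PLX.ClsB6) {a0 b0 : ℕ} (ha : 1 ≤ a0) (hb : 1 ≤ b0)
    {h0 e0 d1 : ℝ} (he0 : 0 ≤ e0) (hd : d1 ≤ h0) (hd1 : d1 ≤ 1) (hF : FamW h0 e0) (hcut : CutV h0 e0) :
    WIM Fil.q a0 b0 (13 / 20) e0 d1 :=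
  wim_of ha hb hd1 (inW_of hFF hCl ha hb he0 hd hd1 hF hcut)

end PLT.SW

end
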