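import Pool.Agent.PLT.CutAllI
import Pool.Agent.PLT.SWFin

/-!
# The cut term of the block S-W in the form of the top

* **`cutV_of`**: `CutV` from `CutW`; `cutV_ux`: from the record of the family.
-/

set_option autoImplicit false
set_option linter.unusedSectionVars false

noncomputable section

open Complex MeasureTheory Finset Filter Topology
open PLX (Fil)

namespace PLT.Fr

open NUO NUP1 NUP1S NUP1S.Ab NUP1S.AbC PHK
open PBI.PLX (ClsB6)
open Pool.Agent.PLX (rwq)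

attribute [local instance] NUSea.seaP _root_.PLX.ends0

variable [Fil]

/-- **the cut term in the form of the top of the block S-W** -/
theorem cutV_of {h0 e0 : ℝ} (h : CutW h0 e0) : SW.CutV h0 e0 := by
  obtain ⟨a0, ha0, H⟩ := h (7 / 20) (by norm_num)
  refine ⟨a0, ha0, fun ep hep _ hepa => ?_⟩
  obtain ⟨m0, H⟩ := H ep hep hepa
  refine ⟨2, two_pos, ?_⟩
  filter_upwards [eventually_ge_atTop (max m0 1)] with m hm
  intro x hx i0 η0 _ τ hτ
  have m1 : 1 ≤ m := (le_max_right _ _).trans hm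
  have hmp : (0 : ℝ) < m := by exact_mod_cast m1
  refine ⟨vEI (4 / 3 * (1 - ep)) x i0, ?_⟩
  refine (H m ((le_max_left _ _).trans hm) x hx i0 τ hτ (PBT.PLX.pL m)
    (PBF.PLX.parZ_parC m) (PBRep.PLX.parP_par0 m) η0).trans ?_
  have e : (-2 + 7 / 20 : ℝ) = -(33 / 20) := by norm_num
  rw [e]
  refine mul_le_mul_of_nonneg_right ?_ (Real.exp_pos _).le
  have h1 : 0 ≤ (m : ℝ) ^ (-(33 / 20) : ℝ) := Real.rpow_nonneg hmp.le _
  linarith

/-- **the cut term of the block S-W** from the record of the family -/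
theorem cutV_ux (hC : ClsB6) {SB : SeaCB} {S : ℕ → SW.IxW → SeaC} {h0 e0 lo hi : ℝ} (hh : h0 ≤ 1)
    (hS : SW.SeaIx SB S h0 e0) {en : EnC} {lin : ℝ → ℝ → ℕ → SW.IxW → ℝ}
    {pT : ℕ → SW.IxW → Bool → ℝ → ℝ}
    (h : InUX SB (famLC SW.xIx SW.zIx S (SW.okIx h0 e0) lo hi) par6 S (BLC SW.xIx SW.zIx) en lin pT 0 0)
    {Cp : ℝ} (hpT : ∀ m i, SW.okIx h0 e0 m i → ∀ a t, pT m i a t ≤
      ∑ j, NUMF.Ag (1 / 2) (t - (rwq (SW.xIx m i) a j).im) + Cp) : SW.CutV h0 e0 :=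
  cutV_of (cutW_ux hC hh hS h hpT)

end PLT.Fr

end
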