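import Pool.Agent.PLT.CutC
import Pool.Agent.PLT.AgL

/-!
# The cutoff of the rows of a content near the curve of the gas, complex places

As `PLT/CutC`, with the places of the content in a thin complex neighbourhood of `[-l, l / 2]`
(heights at most `s0 ≤ de ^ 2 / 10 ^ 7`), and a curve without sign:

* `RwZ`, `CvZ`, **`exists_cutZ`**, **`exists_lphZ`**.
-/

set_option autoImplicit false

noncomputable section

open Complex Filter Topology

namespace PLT

open NUP1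

/-- rows: the places `X` of the content and the further points `ex` -/
structure RwZ (n0 : ℕ) (de s0 hh : ℝ) (m : ℕ) (X W ex : List ℂ) : Prop where
  perm : W.Perm (X ++ ex)
  pl : ∀ x ∈ X, -((1 - de) * l) ≤ x.re ∧ x.re ≤ l / 2 ∧ |x.im| ≤ s0
  len : ex.length ≤ n0
  pt : ∀ x ∈ ex, -((1 - de) * l) ≤ x.re ∧ x.re ≤ l / 2 ∧ |x.im| ≤ hh
  up : X.length ≤ 3 * m
  dn : m ≤ X.length + n0

/-- the product of the `psi` -/
def prZ (β : ℝ) (X ex : List ℂ) (u : ℂ) : ℂ := ((X ++ ex).map fun x => psi β (u - x)).prod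

theorem phi_prZ {n0 m : ℕ} {de s0 hh : ℝ} {X W ex : List ℂ} (h : RwZ n0 de s0 hh m X W ex) (β : ℝ)
    (u : ℂ) : phi β W u = 1 - prZ β X ex u := by
  unfold phi prZ
  rw [(h.perm.map fun x => psi β (u - x)).prod_eq]

theorem RwZ.rwD {n0 m : ℕ} {de s0 hh : ℝ} {X W ex : List ℂ} (h : RwZ n0 de s0 hh m X W ex)
    (hs : s0 ≤ hh) {u : ℂ} (h1 : l - u.re ≤ l) (h2 : -(de / 2 * l) ≤ l - u.re) :
    RwD (de / 2) hh u W := by
  have hl := l_pos
  intro x hx
  have hx' := h.perm.mem_iff.1 hx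
  rw [List.mem_append] at hx'
  rw [sub_re]
  rcases hx' with hx' | hx'
  · obtain ⟨a, b, c⟩ := h.pl x hx'
    exact ⟨by nlinarith, by nlinarith, c.trans hs⟩
  · obtain ⟨a, b, c⟩ := h.pt x hx'
    exact ⟨by nlinarith, by nlinarith, c⟩

/-- the curve of the gas: small, and slowly varying under scaling; no sign; level function of the rows
at least `- K0 exp (-(8 / 3) |t|)` -/
structure CvZ (ep K0 : ℝ) (η : ℝ → ℝ) (X : List ℂ) : Prop where
  le : ∀ t, |η t| ≤ l / 16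
  sc : ∀ t, η ((1 - ep) * t) ≤ η t + ep * l / 7
  lv : ∀ t, -(K0 * Real.exp (-(8 / 3) * |t|)) ≤ (X.map fun x => Ag (η t + x.re) (t - x.im)).sum

theorem shift_okZ {ep K0 : ℝ} (h0 : 0 < ep) (h1 : ep ≤ 1 / 100) {η : ℝ → ℝ} {X : List ℂ}
    (hη : CvZ ep K0 η X) {v t : ℝ} (hv : η t - ep * l / 4 ≤ v) :
    η ((1 - ep) * t) + ep * l / 25 ≤ v + (1 - (1 - ep)) * (l / 2 - v) := by
  have hl := l_pos
  have a1 := hη.sc t
  obtain ⟨a3, a2⟩ := abs_le.1 (hη.le t)
  have a4 : 0 < ep * l := by positivity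
  have a5 : ep * η t ≤ ep * (l / 16) := mul_le_mul_of_nonneg_left a2 h0.le
  have a6 : (1 - ep) * (η t - ep * l / 4) ≤ (1 - ep) * v := mul_le_mul_of_nonneg_left hv (by linarith)
  have e : v + (1 - (1 - ep)) * (l / 2 - v) = (1 - ep) * v + ep * l / 2 := by ring
  rw [e]
  nlinarith

/-- one row at a complex place -/
theorem psi_betaZ {ρ : ℝ} (hρ0 : 0 < ρ) (hρ1 : ρ ≤ 1) {v : ℝ} {x : ℂ} (hx : x.re ≤ l / 2)
    (h1 : -l < v + x.re) (hv : v ≤ l / 2) (t : ℝ) : ‖psi (4 / 3 * ρ) (vl (l - v) t - x)‖ ≤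
      Real.exp (-Ag (v + (1 - ρ) * (l / 2 - v) + x.re) (ρ * (t - x.im))) := by
  have e : vl (l - v) t - x = vl (l - v) (t - x.im) - (x.re : ℂ) := by
    apply Complex.ext
    · rw [sub_re, sub_re, vl_re, vl_re, ofReal_re]
    · rw [sub_im, sub_im, vl_im, vl_im, ofReal_im, sub_zero]
  rw [e]
  exact psi_beta hρ0 hρ1 hx h1 hv (t - x.im)

/-- one row: gain over the curve minus the mismatch of the heights -/
theorem row_gain {ep de s0 : ℝ} (h0 : 0 < ep) (h1 : ep ≤ 1 / 100) (hde : 0 < de) (hde1 : de ≤ 1)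
    (hs0 : 0 ≤ s0) (hs1 : 10000000 * s0 ≤ de ^ 2) {e0 v : ℝ} (he : e0 + ep * l / 25 ≤ v)
    (hv : v ≤ 13 / 50 * l) (he0 : |e0| ≤ l / 16) (hv2 : -(de / 2 * l) ≤ v) {x : ℂ}
    (hx1 : -((1 - de) * l) ≤ x.re) (hx2 : x.re ≤ l / 2) (hx3 : |x.im| ≤ s0)
    (hx4 : -l < e0 + x.re) (t : ℝ) :
    Ag (e0 + x.re) ((1 - ep) * t - x.im) + ep * l / 50 * Real.exp (-(8 / 3) * |(1 - ep) * t|) ≤
      Ag (v + x.re) ((1 - ep) * (t - x.im)) := by
  have hl := l_pos
  have hl2 : l < 2 / 5 := by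
    unfold NUP1.l
    have := Real.pi_lt_d2
    linarith
  have hl3 : (3 : ℝ) / 8 < l := by
    unfold NUP1.l
    have := Real.pi_gt_three
    linarith
  obtain ⟨e1, e2⟩ := abs_le.1 he0
  have hepl : 0 < ep * l := by positivity
  have hs2 : s0 ≤ 1 / 1000000 := by nlinarith
  obtain ⟨E, hE⟩ : ∃ E, E = Real.exp (-(8 / 3) * |(1 - ep) * t|) := ⟨_, rfl⟩
  have hE0 : 0 < E := by rw [hE]; exact Real.exp_pos _
  -- the slope
  have w1 : |e0 + x.re| < l := by rw [abs_lt]; constructor <;> linarith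
  have w2 : |v + x.re| < l := by rw [abs_lt]; constructor <;> nlinarith
  have sl := Ag_slope w1 w2 (by linarith) ((1 - ep) * t - x.im)
  have g1 : 9 / 5 * E ≤ 4 / √3 / NUMF.ch ((1 - ep) * t - x.im) := by
    have h3 : √3 ≤ (2 : ℝ) := (Real.sqrt_le_left (by norm_num)).2 (by norm_num)
    have h4 : (2 : ℝ) ≤ 4 / √3 := by
      rw [le_div_iff₀ (by positivity)]
      linarith
    have h5 := exp_le_ch ((1 - ep) * t - x.im)
    have h6 : 9 / 10 * E ≤ Real.exp (-(8 / 3) * |(1 - ep) * t - x.im|) := by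
      have a1 : |(1 - ep) * t - x.im| ≤ |(1 - ep) * t| + |x.im| := by
        rw [sub_eq_add_neg, ← abs_neg x.im]
        exact abs_add_le _ _
      have a2 : (9 : ℝ) / 10 ≤ Real.exp (-(8 / 3) * s0) := by
        have := Real.add_one_le_exp (-(8 / 3) * s0)
        linarith
      calc 9 / 10 * E ≤ Real.exp (-(8 / 3) * s0) * E := mul_le_mul_of_nonneg_right a2 hE0.le
        _ = Real.exp (-(8 / 3) * s0 + -(8 / 3) * |(1 - ep) * t|) := by rw [Real.exp_add, hE]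
        _ ≤ _ := Real.exp_le_exp.2 (by linarith)
    have h7 : 2 * (9 / 10 * E) ≤ 4 / √3 * (1 / NUMF.ch ((1 - ep) * t - x.im)) :=
      mul_le_mul h4 (h6.trans h5) (by positivity) (by positivity)
    rw [mul_one_div] at h7
    linarith
  have g2 : 9 / 125 * (ep * l) * E ≤ Ag (v + x.re) ((1 - ep) * t - x.im) -
      Ag (e0 + x.re) ((1 - ep) * t - x.im) := by
    refine le_trans ?_ sl
    have : 9 / 5 * E * (ep * l / 25) ≤ 4 / √3 / NUMF.ch ((1 - ep) * t - x.im) *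
        (v + x.re - (e0 + x.re)) := mul_le_mul g1 (by linarith) (by positivity)
          (le_trans (by positivity) g1)
    linarith
  -- the mismatch
  have hdl : de * l ≤ l := mul_le_of_le_one_left hl.le hde1
  have hdl0 : 0 < de * l := by positivity
  have hc : AgL.cc (de * l / 5) (v + x.re) := by
    refine AgL.cc_win (by positivity) 0 (Or.inl ⟨?_, ?_⟩)
    · show (3 * ((0 : ℤ) : ℝ) - 1) * l + de * l / 5 ≤ v + x.re
      push_cast
      linarith
    · show v + x.re ≤ (3 * ((0 : ℤ) : ℝ) + 1) * l - de * l / 5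
      push_cast
      linarith
  have lp := AgL.Ag_lip_t (c0 := de * l / 5) (by positivity) hc (s := x.im - (1 - ep) * x.im)
    (by
      rw [show x.im - (1 - ep) * x.im = ep * x.im by ring, abs_mul, abs_of_pos h0]
      nlinarith [abs_nonneg x.im]) ((1 - ep) * (t - x.im))
  rw [show (1 - ep) * (t - x.im) - (x.im - (1 - ep) * x.im) = (1 - ep) * t - x.im by ring,
    show x.im - (1 - ep) * x.im = ep * x.im by ring, abs_mul, abs_of_pos h0] at lp
  have lp2 : 300 / (de * l / 5) ^ 2 * (ep * |x.im|) * Real.exp (-(8 / 3 * |(1 - ep) * (t - x.im)|)) ≤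
      ep * l / 25 * E := by
    have a1 : Real.exp (-(8 / 3 * |(1 - ep) * (t - x.im)|)) ≤ 11 / 10 * E := by
      have b1 : |(1 - ep) * t| ≤ |(1 - ep) * (t - x.im)| + |x.im| := by
        have : (1 - ep) * t = (1 - ep) * (t - x.im) + (1 - ep) * x.im := by ring
        rw [this]
        refine (abs_add_le _ _).trans ?_
        have : |(1 - ep) * x.im| ≤ |x.im| := by
          rw [abs_mul, abs_of_pos (by linarith : 0 < 1 - ep)]
          exact mul_le_of_le_one_left (abs_nonneg _) (by linarith)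
        linarith
      have b2 : Real.exp (8 / 3 * s0) ≤ 11 / 10 := by
        have := Real.exp_bound_div_one_sub_of_interval (x := 8 / 3 * s0) (by positivity) (by linarith)
        refine this.trans ?_
        rw [div_le_iff₀ (by linarith)]
        linarith
      calc Real.exp (-(8 / 3 * |(1 - ep) * (t - x.im)|)) ≤
            Real.exp (8 / 3 * s0 + -(8 / 3) * |(1 - ep) * t|) := Real.exp_le_exp.2 (by linarith)
        _ = Real.exp (8 / 3 * s0) * E := by rw [Real.exp_add, hE]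
        _ ≤ _ := mul_le_mul_of_nonneg_right b2 hE0.le
    have a2 : 300 / (de * l / 5) ^ 2 * |x.im| ≤ 1 / 100 := by
      have c1 : 0 < (de * l / 5) ^ 2 := by positivity
      have c2 : 300 * |x.im| ≤ 1 / 100 * (de * l / 5) ^ 2 := by
        have c3 : 10000000 * |x.im| ≤ de ^ 2 := (mul_le_mul_of_nonneg_left hx3 (by norm_num)).trans hs1
        have c4 : (9 : ℝ) / 64 ≤ l ^ 2 := by nlinarith
        have c5 : de ^ 2 * (9 / 64) ≤ de ^ 2 * l ^ 2 := mul_le_mul_of_nonneg_left c4 (by positivity)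
        nlinarith
      rw [div_mul_eq_mul_div, div_le_iff₀ c1]
      exact c2
    have a3 : 0 ≤ ep * E := by positivity
    calc 300 / (de * l / 5) ^ 2 * (ep * |x.im|) * Real.exp (-(8 / 3 * |(1 - ep) * (t - x.im)|)) =
          300 / (de * l / 5) ^ 2 * |x.im| * (ep * Real.exp (-(8 / 3 * |(1 - ep) * (t - x.im)|))) := by
          ring
      _ ≤ 1 / 100 * (ep * (11 / 10 * E)) := by
          refine mul_le_mul a2 (mul_le_mul_of_nonneg_left a1 h0.le) (by positivity) (by norm_num)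
      _ ≤ _ := by nlinarith
  have lp3 := (abs_le.1 (lp.trans lp2)).2
  rw [← hE]
  nlinarith [mul_pos hepl hE0]

/-- the bulk -/
theorem bulk_gain {ep de s0 : ℝ} (h0 : 0 < ep) (h1 : ep ≤ 1 / 100) (hde : 0 < de) (hde1 : de ≤ 1)
    (hs0 : 0 ≤ s0) (hs1 : 10000000 * s0 ≤ de ^ 2) {e0 v : ℝ} (he : e0 + ep * l / 25 ≤ v)
    (hv : v ≤ 13 / 50 * l) (he0 : |e0| ≤ l / 16) (hv2 : -(de / 2 * l) ≤ v) (t : ℝ) (X : List ℂ)
    (hX : ∀ x ∈ X, -((1 - de) * l) ≤ x.re ∧ x.re ≤ l / 2 ∧ |x.im| ≤ s0 ∧ -l < e0 + x.re) :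
    (X.map fun x => Ag (e0 + x.re) ((1 - ep) * t - x.im)).sum +
      X.length * (ep * l / 50 * Real.exp (-(8 / 3) * |(1 - ep) * t|)) ≤
      (X.map fun x => Ag (v + x.re) ((1 - ep) * (t - x.im))).sum := by
  induction X with
  | nil => simp
  | cons x X ih =>
    have i := ih fun y hy => hX y (by simp [hy])
    obtain ⟨a, b, c, d⟩ := hX x (by simp)
    have g := row_gain h0 h1 hde hde1 hs0 hs1 he hv he0 hv2 a b c d t
    rw [List.map_cons, List.sum_cons, List.map_cons, List.sum_cons, List.length_cons]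
    push_cast
    linarith

/-- **the cutoff near the curve of the gas** -/
theorem exists_cutZ {ep : ℝ} (h0 : 0 < ep) (h1 : ep ≤ 1 / 100) (n0 : ℕ) {K0 : ℝ} (hK0 : 0 ≤ K0)
    {de s0 hh : ℝ} (hde : 0 < de) (hde1 : de ≤ 1) (hs0 : 0 ≤ s0) (hs1 : 10000000 * s0 ≤ de ^ 2)
    (hsh : s0 ≤ hh) :
    ∃ c C : ℝ, 0 < c ∧ 1 ≤ C ∧ ∃ m0 : ℕ, 1 ≤ m0 ∧ ∀ m ≥ m0, ∀ (X W ex : List ℂ)
      (η : ℝ → ℝ), RwZ n0 de s0 hh m X W ex → CvZ ep K0 η X → (∀ t, ∀ x ∈ X, -l < η t + x.re) → ∀ u : ℂ,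
      η u.im - ep * l / 4 ≤ l - u.re → -(de / 2 * l) ≤ l - u.re → l - u.re ≤ l / 4 →
      ‖prZ (4 / 3 * (1 - ep)) X ex u‖ ≤
        Real.exp (-(c * (m * Real.exp (-(8 / 3 * (1 - ep)) * |u.im|)))) ∧
      ‖phi (4 / 3 * (1 - ep)) W u‖ ≤ C * (m * Real.exp (-(8 / 3 * (1 - ep)) * |u.im|)) := by
  have hl := l_pos
  have hhh : 0 ≤ hh := hs0.trans hsh
  have hβ0 : 0 < 4 / 3 * (1 - ep) := by nlinarith
  have hβ1 : 4 / 3 * (1 - ep) ≤ 4 / 3 := by nlinarith
  have hd0 : 0 < de / 2 := by positivity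
  have hd1 : de / 2 ≤ 1 := by linarith
  have e2 : -(8 / 3 * (1 - ep)) = -(2 * (4 / 3 * (1 - ep))) := by ring
  obtain ⟨K, hK⟩ : ∃ K, K = cK (de / 2) hh := ⟨_, rfl⟩
  have hK4 : 4 ≤ K := by rw [hK]; exact cK_ge hd0 hd1 hhh
  obtain ⟨c1, hc1⟩ : ∃ c1, c1 = ep * l / 200 := ⟨_, rfl⟩
  have hc10 : 0 < c1 := by rw [hc1]; positivity
  obtain ⟨m1, hm1⟩ := exists_nat_ge ((2 * K * n0 + K0) / c1)
  refine ⟨c1 / 2, cU (de / 2) hh (3 + n0) 0 + 1, by positivity, ?_, max (2 * n0 + 1) m1,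
    le_trans (by omega) (le_max_left _ _), ?_⟩
  · have : 0 ≤ cU (de / 2) hh (3 + n0) 0 := by
      unfold cU
      rw [← hK]
      positivity
    linarith
  intro m hm X W ex η hW hη hηX u hu1 hu2 hu3
  have hm2 : 2 * n0 + 1 ≤ m := (le_max_left _ _).trans hm
  have hm3 : (m1 : ℝ) ≤ m := by exact_mod_cast (le_max_right _ _).trans hm
  have hmr : (1 : ℝ) ≤ m := by
    have : 1 ≤ m := by omega
    exact_mod_cast this
  have hn0 : (0 : ℝ) ≤ n0 := Nat.cast_nonneg n0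
  rw [e2]
  obtain ⟨E, hE⟩ : ∃ E : ℝ, E = Real.exp (-(2 * (4 / 3 * (1 - ep))) * |u.im|) := ⟨_, rfl⟩
  have hE0 : 0 < E := by rw [hE]; exact Real.exp_pos _
  -- the bulk
  have eu : u = vl (l - (l - u.re)) u.im := by
    apply Complex.ext
    · rw [vl_re]; ring
    · rw [vl_im]
  obtain ⟨v', hv'⟩ : ∃ v', v' = l - u.re + (1 - (1 - ep)) * (l / 2 - (l - u.re)) := ⟨_, rfl⟩
  have p1 : ‖(X.map fun x => psi (4 / 3 * (1 - ep)) (u - x)).prod‖ ≤
      Real.exp (-(X.map fun x => Ag (v' + x.re) ((1 - ep) * (u.im - x.im))).sum) := by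
    have hX : ∀ x ∈ X, -l < l - u.re + x.re ∧ x.re ≤ l / 2 := fun x hx => by
      obtain ⟨a, b, -⟩ := hW.pl x hx
      exact ⟨by nlinarith, b⟩
    clear hW hη hηX
    induction X with
    | nil => simp
    | cons x X ih =>
      have i := ih fun y hy => hX y (by simp [hy])
      obtain ⟨a, b⟩ := hX x (by simp)
      have k := psi_betaZ (ρ := 1 - ep) (by linarith) (by linarith) b a (by linarith) u.im
      rw [← eu, ← hv'] at k
      rw [List.map_cons, List.prod_cons, List.map_cons, List.sum_cons, norm_mul, neg_add,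
        Real.exp_add]
      exact mul_le_mul k i (norm_nonneg _) (Real.exp_pos _).le
  have sh := shift_okZ h0 h1 hη (v := l - u.re) (t := u.im) hu1
  rw [← hv'] at sh
  have hv1 : v' ≤ 13 / 50 * l := by
    rw [hv']
    nlinarith
  have hv2 : -(de / 2 * l) ≤ v' := by
    rw [hv']
    have : 0 ≤ (1 - (1 - ep)) * (l / 2 - (l - u.re)) := mul_nonneg (by linarith) (by linarith)
    linarith
  have hs := bulk_gain h0 h1 hde hde1 hs0 hs1 sh hv1 (hη.le _) hv2 u.im X fun x hx => by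
    obtain ⟨a, b, c⟩ := hW.pl x hx
    exact ⟨a, b, c, hηX _ x hx⟩
  have hlv := hη.lv ((1 - ep) * u.im)
  have eE : Real.exp (-(8 / 3) * |(1 - ep) * u.im|) = E := by
    rw [hE, abs_mul, abs_of_pos (by linarith : 0 < 1 - ep)]
    congr 1
    ring
  rw [eE] at hs
  have hlen : (m : ℝ) / 2 ≤ X.length := by
    have h3 := hW.dn
    have h4 : m ≤ 2 * X.length := by omega
    have h5 : (m : ℝ) ≤ 2 * X.length := by exact_mod_cast h4
    linarith
  have hb : c1 * (m * E) ≤ (X.map fun x => Ag (v' + x.re) ((1 - ep) * (u.im - x.im))).sum := by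
    have h4 : (m : ℝ) / 2 * (ep * l / 50 * E) ≤ X.length * (ep * l / 50 * E) :=
      mul_le_mul_of_nonneg_right hlen (by positivity)
    have h5 : 2 * (c1 * (m * E)) = (m : ℝ) / 2 * (ep * l / 50 * E) := by rw [hc1]; ring
    have h6 : K0 * E ≤ c1 * (m * E) := by
      have h3 := hm1.trans hm3
      rw [div_le_iff₀ hc10] at h3
      have h7 : K0 ≤ c1 * m := by
        have : 0 ≤ 2 * K * n0 := by positivity
        linarith
      calc K0 * E ≤ c1 * m * E := mul_le_mul_of_nonneg_right h7 hE0.le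
        _ = _ := by ring
    rw [eE] at hlv
    linarith
  have hbulk : ‖(X.map fun x => psi (4 / 3 * (1 - ep)) (u - x)).prod‖ ≤
      Real.exp (-(c1 * (m * Real.exp (-(2 * (4 / 3 * (1 - ep))) * |u.im|)))) := by
    rw [← hE]
    exact p1.trans (Real.exp_le_exp.2 (neg_le_neg hb))
  have hD := hW.rwD hsh (u := u) (by linarith) hu2
  have hDp : RwD (de / 2) hh u (X ++ ex) := fun x hx => hD x (hW.perm.mem_iff.2 hx)
  have hmK : cK (de / 2) hh * n0 ≤ c1 / 2 * m := by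
    rw [← hK]
    have h3 := hm1.trans hm3
    rw [div_le_iff₀ hc10] at h3
    linarith
  have k1 := prod_low hβ0 hβ1 hd0 hd1 hhh hDp.right hbulk hW.len hmK
  rw [← hE] at k1
  constructor
  · rw [← hE]
    exact k1
  · have hW1 : ‖(W.map fun x => psi (4 / 3 * (1 - ep)) (u - x)).prod‖ ≤ Real.exp 0 := by
      rw [(hW.perm.map fun x => psi (4 / 3 * (1 - ep)) (u - x)).prod_eq]
      refine k1.trans (Real.exp_le_exp.2 ?_)
      have : 0 ≤ c1 / 2 * (m * E) := by positivity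
      linarith
    have hlW : (W.length : ℝ) ≤ (3 + n0) * m := by
      have h3 : W.length = X.length + ex.length := by
        rw [hW.perm.length_eq, List.length_append]
      have h4 : (X.length : ℝ) ≤ 3 * m := by exact_mod_cast hW.up
      have h5 : (ex.length : ℝ) ≤ n0 := by exact_mod_cast hW.len
      rw [h3]
      push_cast
      nlinarith
    have h3 := (phi_up hβ0 hβ1 hd0 hd1 hhh hD (by omega : 1 ≤ m) (by positivity) le_rfl hlW hW1).2
    have h4 : NUO.cut m (4 / 3 * (1 - ep)) u.im ≤ m * E := by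
      unfold NUO.cut
      rw [← hE]
      exact min_le_right _ _
    have h5 : 0 ≤ cU (de / 2) hh (3 + n0) 0 := by
      unfold cU
      rw [← hK]
      positivity
    rw [← hE]
    refine h3.trans ((mul_le_mul_of_nonneg_left h4 h5).trans ?_)
    exact mul_le_mul_of_nonneg_right (by linarith) (by positivity)

/-- **the logarithm of the cutoff in the bulk** -/
theorem exists_lphZ {ep : ℝ} (h0 : 0 < ep) (h1 : ep ≤ 1 / 100) (n0 : ℕ) {K0 : ℝ} (hK0 : 0 ≤ K0)
    {de s0 hh : ℝ} (hde : 0 < de) (hde1 : de ≤ 1) (hs0 : 0 ≤ s0) (hs1 : 10000000 * s0 ≤ de ^ 2) (hsh : s0 ≤ hh) {e : ℝ} (he : 0 < e)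
    {A : ℝ} (hA0 : 0 < A) :
    ∃ m0 : ℕ, 1 ≤ m0 ∧ ∀ m ≥ m0, ∀ (X W ex : List ℂ) (η : ℝ → ℝ),
      RwZ n0 de s0 hh m X W ex → CvZ ep K0 η X → (∀ t, ∀ x ∈ X, -l < η t + x.re) → ∀ z : ℂ,
      |z.re| ≤ (1 - e) * (3 / 8 * Real.log m) + 5 → η z.re - ep * l / 4 ≤ z.im →
      -(de / 2 * l) ≤ z.im → z.im ≤ l / 4 →
      DifferentiableAt ℂ (fun z => Complex.log (phi (4 / 3 * (1 - ep)) W (PotH.uI z))) z ∧
        ‖Complex.log (phi (4 / 3 * (1 - ep)) W (PotH.uI z))‖ ≤ A ∧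
        ‖phi (4 / 3 * (1 - ep)) W (PotH.uI z)‖ =
          Real.exp (Complex.log (phi (4 / 3 * (1 - ep)) W (PotH.uI z))).re := by
  obtain ⟨c, C, hc, -, m1, hm1, H⟩ := exists_cutZ h0 h1 n0 hK0 hde hde1 hs0 hs1 hsh
  have ht1 : Tendsto (fun m : ℕ => (m : ℝ) ^ e) atTop atTop :=
    (tendsto_rpow_atTop he).comp tendsto_natCast_atTop_atTop
  obtain ⟨m2, hm2⟩ := eventually_atTop.1 (ht1.eventually_ge_atTop
    ((4 + 2 / A) * Real.exp 14 / c))
  refine ⟨max m1 m2, hm1.trans (le_max_left _ _), fun m hm X W ex η hW hη hηX z hz hz1 hz2 hz3 => ?_⟩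
  have hmm1 := (le_max_left m1 m2).trans hm
  have hmr : (1 : ℝ) ≤ m := by exact_mod_cast hm1.trans hmm1
  have hmp : (0 : ℝ) < m := by linarith
  have hL := Real.log_nonneg hmr
  have eo : l - (PotH.uI z).re = z.im := by rw [PotH.uI_re]; ring
  obtain ⟨k1, -⟩ := H m hmm1 X W ex η hW hη hηX (PotH.uI z) (by rw [eo, PotH.uI_im]; exact hz1)
    (by rw [eo]; exact hz2) (by rw [eo]; exact hz3)
  rw [PotH.uI_im] at k1
  have h2 : Real.exp (-14) * (m : ℝ) ^ (-(1 - e)) ≤ Real.exp (-(8 / 3 * (1 - ep)) * |z.re|) := by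
    rw [Real.rpow_def_of_pos hmp, ← Real.exp_add]
    refine Real.exp_le_exp.2 ?_
    have h4 : 8 / 3 * (1 - ep) * |z.re| ≤ 8 / 3 * |z.re| := by
      refine mul_le_mul_of_nonneg_right ?_ (abs_nonneg _)
      linarith
    have h5 : 8 / 3 * |z.re| ≤ 8 / 3 * ((1 - e) * (3 / 8 * Real.log m) + 5) := by linarith
    nlinarith
  have h3 : (m : ℝ) * (m : ℝ) ^ (-(1 - e)) = (m : ℝ) ^ e := by
    rw [← Real.rpow_one_add' hmp.le (by linarith)]
    congr 1
    ring
  have h4 : 4 + 2 / A ≤ c * (m * Real.exp (-(8 / 3 * (1 - ep)) * |z.re|)) := by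
    have h5 := hm2 m ((le_max_right _ _).trans hm)
    rw [div_le_iff₀ hc] at h5
    have h6 : (4 + 2 / A) ≤ Real.exp (-14) * (c * (m : ℝ) ^ e) := by
      have h7 : Real.exp (-14) * ((4 + 2 / A) * Real.exp 14) ≤ Real.exp (-14) * ((m : ℝ) ^ e * c) :=
        mul_le_mul_of_nonneg_left h5 (Real.exp_pos _).le
      have h8 : Real.exp (-14) * Real.exp 14 = 1 := by rw [← Real.exp_add]; simp
      have h9 : Real.exp (-14) * ((4 + 2 / A) * Real.exp 14) = 4 + 2 / A := by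
        rw [mul_left_comm, h8, mul_one]
      rw [h9] at h7
      linarith
    refine h6.trans ?_
    rw [← h3]
    calc Real.exp (-14) * (c * (m * (m : ℝ) ^ (-(1 - e)))) =
          c * (m * (Real.exp (-14) * (m : ℝ) ^ (-(1 - e)))) := by ring
      _ ≤ _ := by gcongr
  have h5 : ‖prZ (4 / 3 * (1 - ep)) X ex (PotH.uI z)‖ ≤ min (1 / 4) (A / 2) := by
    refine k1.trans ((Real.exp_le_exp.2 (neg_le_neg h4)).trans ?_)
    have h6 := Real.add_one_le_exp (4 + 2 / A)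
    have h7 : 0 < 2 / A := by positivity
    rw [Real.exp_neg]
    refine le_min ?_ ?_
    · rw [one_div]
      exact inv_anti₀ (by norm_num) (by linarith)
    · rw [show A / 2 = (2 / A)⁻¹ by rw [inv_div]]
      exact inv_anti₀ h7 (by linarith)
  obtain ⟨x, hx⟩ : ∃ x : ℂ, x = prZ (4 / 3 * (1 - ep)) X ex (PotH.uI z) := ⟨_, rfl⟩
  rw [← hx] at h5
  have hph : phi (4 / 3 * (1 - ep)) W (PotH.uI z) = 1 + -x := by
    rw [phi_prZ hW, hx]
    ring
  have hx1 : ‖-x‖ ≤ 1 / 4 := by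
    rw [norm_neg]
    exact h5.trans (min_le_left _ _)
  have hx2 : ‖-x‖ ≤ A / 2 := by
    rw [norm_neg]
    exact h5.trans (min_le_right _ _)
  have hsl : 1 + -x ∈ Complex.slitPlane := Complex.mem_slitPlane_of_norm_lt_one (by linarith)
  refine ⟨?_, ?_, ?_⟩
  · have hβ0 : 0 < 4 / 3 * (1 - ep) := by nlinarith
    have hβ1 : 4 / 3 * (1 - ep) ≤ 4 / 3 := by nlinarith
    have hD := hW.rwD hsh (u := PotH.uI z) (by rw [eo]; linarith [l_pos]) (by rw [eo]; exact hz2)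
    have hd3 : DifferentiableAt ℂ (phi (4 / 3 * (1 - ep)) W) (PotH.uI z) := by
      unfold phi
      exact (diff_prod_row hβ0 hβ1 (by positivity) (by linarith) hD).const_sub 1
    have hu : DifferentiableAt ℂ PotH.uI z := by
      unfold PotH.uI
      fun_prop
    refine DifferentiableAt.clog ?_ ?_
    · exact DifferentiableAt.comp (g := phi (4 / 3 * (1 - ep)) W) (f := PotH.uI) z hd3 hu
    · rw [hph]
      exact hsl
  · rw [hph]
    have h6 := Complex.norm_log_one_add_half_le_self (z := -x) (by linarith)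
    linarith
  · have hne : (1 + -x) ≠ 0 := Complex.slitPlane_ne_zero hsl
    rw [hph, ← Complex.norm_exp, Complex.exp_log hne]

/-! ### the level function of rows with the numbers of a content -/

theorem abs_La_cc {c0 β : ℝ} (h0 : 0 < c0) (h : c0 ≤ |Real.cos β|) (t : ℝ) :
    |La β (NUMF.ch t)| ≤ 4 / c0 ^ 2 * Real.exp (-(8 / 3) * |t|) := by
  obtain ⟨d1, d2, d3⟩ := AgL.den h0 h t
  have hc := NUMF.ch_pos t
  have hc1 := NUMF.one_le_ch t
  have h2 := AgL.inv_ch_le t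
  have key : ∀ s : ℝ, |s| ≤ 1 → 0 < NUMF.ch t + s → 0 < NUMF.ch t - s →
      c0 ^ 2 * NUMF.ch t ^ 2 ≤ NUMF.ch t ^ 2 - s ^ 2 →
      Real.log (NUMF.ch t + s) - Real.log (NUMF.ch t - s) ≤ 8 / c0 ^ 2 * Real.exp (-(8 / 3) * |t|) := by
    intro s hs1 s1 s2 s3
    rw [← Real.log_div s1.ne' s2.ne']
    refine (Real.log_le_sub_one_of_pos (div_pos s1 s2)).trans ?_
    have a2 : (NUMF.ch t + s) / (NUMF.ch t - s) - 1 ≤ 4 / c0 ^ 2 * (NUMF.ch t)⁻¹ := by
      have e1 : (NUMF.ch t + s) / (NUMF.ch t - s) - 1 = 2 * s / (NUMF.ch t - s) := by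
        field_simp
        ring
      have e2 : 4 / c0 ^ 2 * (NUMF.ch t)⁻¹ = 4 / (c0 ^ 2 * NUMF.ch t) := by
        field_simp
      rw [e1, e2, div_le_div_iff₀ s2 (by positivity)]
      obtain ⟨t1, t2⟩ := abs_le.1 hs1
      rcases le_total s 0 with hs | hs
      · have : 2 * s * (c0 ^ 2 * NUMF.ch t) ≤ 0 :=
          mul_nonpos_of_nonpos_of_nonneg (by linarith) (by positivity)
        linarith
      · have b1 : s * (c0 ^ 2 * NUMF.ch t ^ 2) ≤ s * (NUMF.ch t ^ 2 - s ^ 2) :=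
          mul_le_mul_of_nonneg_left s3 hs
        have b2 : s * (NUMF.ch t + s) ≤ 2 * NUMF.ch t := by nlinarith
        have b3 : s * (NUMF.ch t + s) * (NUMF.ch t - s) ≤ 2 * NUMF.ch t * (NUMF.ch t - s) :=
          mul_le_mul_of_nonneg_right b2 s2.le
        have b4 : 2 * s * (c0 ^ 2 * NUMF.ch t) * NUMF.ch t ≤ 4 * (NUMF.ch t - s) * NUMF.ch t := by
          nlinarith
        exact le_of_mul_le_mul_right b4 hc
    refine a2.trans ?_
    have b5 : 4 / c0 ^ 2 * (NUMF.ch t)⁻¹ ≤ 4 / c0 ^ 2 * (2 * Real.exp (-(8 / 3 * |t|))) :=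
      mul_le_mul_of_nonneg_left h2 (by positivity)
    rw [show -(8 / 3) * |t| = -(8 / 3 * |t|) by ring]
    refine b5.trans (le_of_eq (by ring))
  have hs1 := Real.abs_sin_le_one β
  have k1 := key (Real.sin β) hs1 d2 d3 d1
  have k2 := key (-Real.sin β) (by rwa [abs_neg]) (by linarith) (by linarith) (by linarith [neg_sq (Real.sin β)])
  rw [sub_neg_eq_add, ← sub_eq_add_neg] at k2
  have e : 8 / c0 ^ 2 * Real.exp (-(8 / 3) * |t|) = 2 * (4 / c0 ^ 2 * Real.exp (-(8 / 3) * |t|)) := by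
    ring
  rw [e] at k1 k2
  unfold La
  rw [abs_le]
  constructor <;> linarith

theorem abs_Ag_cc {c0 v : ℝ} (h0 : 0 < c0) (h : AgL.cc c0 v) (t : ℝ) :
    |Ag v t| ≤ 8 / c0 ^ 2 * Real.exp (-(8 / 3) * |t|) := by
  have a1 := abs_La_cc h0 h.1 t
  have a2 := abs_La_cc h0 h.2 t
  unfold Ag
  refine (abs_add_le _ _).trans ?_
  have e : 8 / c0 ^ 2 * Real.exp (-(8 / 3) * |t|) = 4 / c0 ^ 2 * Real.exp (-(8 / 3) * |t|) +
    4 / c0 ^ 2 * Real.exp (-(8 / 3) * |t|) := by ring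
  rw [e]
  exact add_le_add a1 a2

/-- one row near the curve -/
theorem abs_Ag_row {de s0 : ℝ} (hde : 0 < de) (hde1 : de ≤ 1) {e0 : ℝ} (he0 : |e0| ≤ l / 16)
    (he1 : -(de / 2 * l) ≤ e0) {x : ℂ} (hx1 : -((1 - de) * l) ≤ x.re) (hx2 : x.re ≤ l / 2)
    (hx3 : |x.im| ≤ s0) (hs0 : s0 ≤ 1 / 100) (t : ℝ) :
    |Ag (e0 + x.re) (t - x.im)| ≤ 3000 / de ^ 2 * Real.exp (-(8 / 3) * |t|) := by
  have hl := l_pos
  have hl3 : (3 : ℝ) / 8 < l := by
    unfold NUP1.l
    have := Real.pi_gt_three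
    linarith
  obtain ⟨e1, e2⟩ := abs_le.1 he0
  have hdl : de * l ≤ l := mul_le_of_le_one_left hl.le hde1
  have hdl0 : 0 < de * l := by positivity
  have hc : AgL.cc (de * l / 5) (e0 + x.re) := by
    refine AgL.cc_win (by positivity) 0 (Or.inl ⟨?_, ?_⟩)
    · show (3 * ((0 : ℤ) : ℝ) - 1) * l + de * l / 5 ≤ e0 + x.re
      push_cast
      linarith
    · show e0 + x.re ≤ (3 * ((0 : ℤ) : ℝ) + 1) * l - de * l / 5
      push_cast
      linarith
  have h1 := abs_Ag_cc (by positivity) hc (t - x.im)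
  refine h1.trans ?_
  have h2 : Real.exp (-(8 / 3) * |t - x.im|) ≤ 21 / 20 * Real.exp (-(8 / 3) * |t|) := by
    have a1 : |t| - |x.im| ≤ |t - x.im| := abs_sub_abs_le_abs_sub _ _
    have a2 : Real.exp (8 / 3 * (1 / 100)) ≤ 21 / 20 := by
      have := Real.exp_bound_div_one_sub_of_interval (x := 8 / 3 * (1 / 100)) (by norm_num) (by norm_num)
      refine this.trans ?_
      norm_num
    calc Real.exp (-(8 / 3) * |t - x.im|) ≤ Real.exp (8 / 3 * (1 / 100) + -(8 / 3) * |t|) :=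
          Real.exp_le_exp.2 (by linarith)
      _ = Real.exp (8 / 3 * (1 / 100)) * Real.exp (-(8 / 3) * |t|) := Real.exp_add _ _
      _ ≤ _ := mul_le_mul_of_nonneg_right a2 (Real.exp_pos _).le
  have h3 : 8 / (de * l / 5) ^ 2 ≤ 1500 / de ^ 2 := by
    rw [div_le_div_iff₀ (by positivity) (by positivity)]
    have : (9 : ℝ) / 64 ≤ l ^ 2 := by nlinarith
    have h4 : de ^ 2 * (9 / 64) ≤ de ^ 2 * l ^ 2 := mul_le_mul_of_nonneg_left this (by positivity)
    nlinarith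
  calc 8 / (de * l / 5) ^ 2 * Real.exp (-(8 / 3) * |t - x.im|) ≤
        1500 / de ^ 2 * (21 / 20 * Real.exp (-(8 / 3) * |t|)) :=
        mul_le_mul h3 h2 (Real.exp_pos _).le (by positivity)
    _ = 1575 / de ^ 2 * Real.exp (-(8 / 3) * |t|) := by ring
    _ ≤ _ := by gcongr; norm_num

/-- **the level function of rows with the numbers of a content** -/
theorem lv_of_cnt {ι : Type*} [Fintype ι] {w : ι → ℝ} {x : ι → ℂ} {X : List ℂ} {n : ι → ℝ}
    {N K0 de s0 : ℝ} (hN : 0 ≤ N) (hde : 0 < de) (hde1 : de ≤ 1) (hs0 : s0 ≤ 1 / 100) {η : ℝ → ℝ}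
    (hη : ∀ t, |η t| ≤ l / 16) (hη1 : ∀ t, -(de / 2 * l) ≤ η t)
    (hX : ∀ f : ℂ → ℝ, (X.map f).sum = ∑ i, n i * f (x i)) (hn : ∀ i, |N * w i - n i| ≤ K0)
    (hx : ∀ i, -((1 - de) * l) ≤ (x i).re ∧ (x i).re ≤ l / 2 ∧ |(x i).im| ≤ s0)
    (hlev : ∀ t, 0 ≤ ∑ i, w i * Ag (η t + (x i).re) (t - (x i).im)) (t : ℝ) :
    -(Fintype.card ι * K0 * (3000 / de ^ 2) * Real.exp (-(8 / 3) * |t|)) ≤
      (X.map fun x => Ag (η t + x.re) (t - x.im)).sum := by
  rw [hX]
  have h1 : ∑ i, n i * Ag (η t + (x i).re) (t - (x i).im) =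
      N * ∑ i, w i * Ag (η t + (x i).re) (t - (x i).im) -
        ∑ i, (N * w i - n i) * Ag (η t + (x i).re) (t - (x i).im) := by
    rw [Finset.mul_sum, ← Finset.sum_sub_distrib]
    refine Finset.sum_congr rfl fun i _ => ?_
    ring
  rw [h1]
  have h2 : ∑ i, (N * w i - n i) * Ag (η t + (x i).re) (t - (x i).im) ≤
      ∑ _i : ι, K0 * (3000 / de ^ 2 * Real.exp (-(8 / 3) * |t|)) := by
    refine Finset.sum_le_sum fun i _ => ?_
    obtain ⟨a, b, c⟩ := hx i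
    have k := abs_Ag_row hde hde1 (hη t) (hη1 t) a b c hs0 t
    refine (le_abs_self _).trans ?_
    rw [abs_mul]
    exact mul_le_mul (hn i) k (abs_nonneg _) ((abs_nonneg _).trans (hn i))
  rw [Finset.sum_const, Finset.card_univ, nsmul_eq_mul] at h2
  have h3 := mul_nonneg hN (hlev t)
  have e : (Fintype.card ι : ℝ) * K0 * (3000 / de ^ 2) * Real.exp (-(8 / 3) * |t|) =
      Fintype.card ι * (K0 * (3000 / de ^ 2 * Real.exp (-(8 / 3) * |t|))) := by ring
  rw [e]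
  linarith

end PLT
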