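import Pool.Agent.PLX.DZUclsP
import Pool.Agent.PHK.SpW6

/-!
# Rows of a general direction: the contour integral on the lines of (P), shifted

Direction `theta`: rows `x i` with real parts in `[-l / 2 - c0, l / 2 - c0]`, `0 ≤ c0 < l / 2` (`RwT c0 x`;
`c0 = (y0 - 1/2) l`, rows `-y0 l`, `y1 l`).  The centred rows `cen c0 x = x + c0` have `Rws`, so that all functions
of the library (`DZU`, `nzU`, ..) are defined and continuous there.

* `RwT`, `cen`, `DSU_cen` : the state sum is invariant under the common shift;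
* `KT` : `[-49/20 l, l]`, all real parts which occur; `NQ_T`, `bdd_phT`, `diffAt_phT`;
* **`DZU_T`** : `DZU c c' s~ t~ (cen x) (cen y) n n' = Z3 (51/100 l) (-201/100 l) n n' (GU c β x y g s) (GU c' β y x g' t)`
  (`s~ u = s (u - c0)`), spectators `SpW6`, any cutoffs `GOn KT β`.
-/

set_option autoImplicit false
set_option linter.unusedSectionVars false
set_option linter.unusedVariables false

noncomputable section

open Complex MeasureTheory Filter Topology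

namespace PLTX

open NUP1 NUP1S NUP1.Bd NURow
open NUP1.N (Z3 Gr0)
open NUP1.Leg (hr)
open PBX (Rws ph GOk pull pull_Rws pull_tendsto pull_im_le pull_ne pull_re measurable_ph im_le box bdd_glueR ph_row
  ph_row_sub)
open Pool.Agent.PLX

variable {m M : ℕ} {c0 : ℝ}

/-- rows with real parts in `[-l / 2 - c0, l / 2 - c0]` -/
def RwT (c0 : ℝ) (x : Fin m → ℂ) : Prop := ∀ i, |(x i).re + c0| ≤ l / 2

/-- the centred rows -/
def cen (c0 : ℝ) (x : Fin m → ℂ) : Fin m → ℂ := fun i => x i + c0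

theorem RwT.cen {x : Fin m → ℂ} (h : RwT c0 x) : Rws (cen c0 x) := fun i => by
  simpa [PLTX.cen] using h i

theorem RwT.lo {x : Fin m → ℂ} (h : RwT c0 x) (i : Fin m) : -(l / 2) - c0 ≤ (x i).re := by
  have := (abs_le.1 (h i)).1
  linarith

theorem RwT.hi {x : Fin m → ℂ} (h : RwT c0 x) (i : Fin m) : (x i).re ≤ l / 2 - c0 := by
  have := (abs_le.1 (h i)).2
  linarith

theorem RwT.pull {x : Fin m → ℂ} (h : RwT c0 x) (e : ℝ) : RwT c0 (PBX.pull x e) := fun i => by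
  rw [pull_re]
  exact h i

theorem cen_pull (x : Fin m → ℂ) (e : ℝ) : cen c0 (PBX.pull x e) = PBX.pull (cen c0 x) e := by
  funext i
  unfold cen PBX.pull
  ring

/-! ### the state sum -/

theorem hr_cen (c : ℂ) (x : Fin m → ℂ) (y : Fin M → ℂ) (u : ℂ) :
    hr c (cen c0 x) (cen c0 y) (u + c0) = hr c x y u := by
  unfold NUP1.Leg.hr cen
  simp only [add_sub_add_right_eq_sub]

theorem sw_cen (a : SignType) (h : ℂ → ℂ) (x : ℂ) :
    NUP1.sw a h (x + c0) = NUP1.sw a (fun u => h (u + c0)) x := by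
  cases a
  · rfl
  · simp only [NUP1.sw]
    rw [show x + (c0 : ℂ) - l = x - l + c0 by ring]
  · rfl

theorem qu_cen (a : SignType) (x : ℂ) : NUP1.qu a (x + c0) = (NUP1.qu a x).map fun u => u + (c0 : ℂ) := by
  cases a
  · rfl
  · simp only [NUP1.qu, List.map_cons, List.map_nil]
    rw [show x + (c0 : ℂ) - l = x - l + c0 by ring]
  · rfl

theorem pr_cen (a b : SignType) (x y : ℂ) : NUP1.pr a b (x + c0) (y + c0) = NUP1.pr a b x y := by
  unfold NUP1.pr
  simp only [qu_cen, List.map_map, Function.comp_def, add_sub_add_right_eq_sub]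

theorem sta_cen (x : Fin m → ℂ) (h : ℂ → ℂ) (a : Fin m → SignType) :
    sta (cen c0 x) h a = sta x (fun u => h (u + c0)) a := by
  unfold NUP1.sta
  congr 1
  · exact Finset.prod_congr rfl fun i _ => sw_cen (a i) h (x i)
  · congr 1
    funext i j
    exact pr_cen (a i) (a j) (x i) (x j)

theorem crq_cen (x : Fin m → ℂ) (y : Fin M → ℂ) (a : Fin m → SignType) (b : Fin M → SignType) :
    crq (cen c0 x) (cen c0 y) a b = crq x y a b := by
  unfold NUP1.crq
  refine Finset.prod_congr rfl fun i _ => Finset.prod_congr rfl fun j _ => ?_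
  unfold cen
  simp only [qu_cen, List.map_map, Function.comp_def, add_sub_add_right_eq_sub]

/-- **the common shift** -/
theorem DSU_cen (c c' : ℂ) (s t : ℂ → ℂ) (x : Fin m → ℂ) (y : Fin M → ℂ) (n n' : ℕ) :
    DSU c c' (fun u => s (u - c0)) (fun u => t (u - c0)) (cen c0 x) (cen c0 y) n n' = DSU c c' s t x y n n' := by
  unfold DSU
  refine Finset.sum_congr rfl fun a _ => Finset.sum_congr rfl fun b _ => ?_
  rw [sta_cen, sta_cen, crq_cen]
  simp only [hr_cen, add_sub_cancel_right]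

/-! ### the cutoffs -/

/-- all real parts which occur -/
def KT : Set ℝ := Set.Icc (-(49 / 20 * l)) l

theorem isCompact_KT : IsCompact KT := isCompact_Icc

theorem Bdd_cen {K : Set ℝ} {s : ℝ} {g : ℂ → ℂ} (h : Bdd ((fun d => d + c0) '' K) s g) :
    Bdd K s (fun z => g (z + c0)) := Bdd.shift c0 h

section cut

variable {β : ℝ} {x : Fin m → ℂ}

/-- the range of the differences -/
theorem T_range (h0 : 0 ≤ c0) (h1 : c0 < l / 2) (hx : RwT c0 x) {d : ℝ} (hd : d ∈ KT) (i : Fin m) :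
    -(59 / 20 * l) ≤ d - (x i).re ∧ d - (x i).re < 2 * l := by
  have hl := Bd.l_pos
  have a := hx.lo i
  have b := hx.hi i
  obtain ⟨d1, d2⟩ := hd
  constructor <;> linarith

theorem NQ_T (hβ : 0 < β) (hβ' : β ≤ 4 / 3) (h0 : 0 ≤ c0) (h1 : c0 < l / 2) (hx : RwT c0 x) {z : ℂ}
    (hz : z.re ∈ KT) (i : Fin m) : NQ β (z - x i).re := by
  have hl := Bd.l_pos
  obtain ⟨a, b⟩ := T_range h0 h1 hx hz i
  rw [sub_re]
  exact NQ_strip hβ hβ' (by linarith) (by linarith)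

theorem NQr_T (hβ : 0 < β) (hβ' : β ≤ 4 / 3) (h0 : 0 ≤ c0) (h1 : c0 < l / 2) :
    NQr β (l / 2) ((fun d => d + c0) '' KT) := by
  have hl := Bd.l_pos
  refine NQr_strip hβ hβ' ?_
  rintro _ ⟨d, ⟨d1, d2⟩, rfl⟩
  constructor <;> dsimp only <;> linarith

theorem isCompact_cen {K : Set ℝ} (hK : IsCompact K) : IsCompact ((fun d => d + c0) '' K) :=
  hK.image (by fun_prop)

theorem prod_cen (β : ℝ) (x : Fin m → ℂ) (z : ℂ) :
    (∏ i, psi β (z + c0 - cen c0 x i)) = ∏ i, psi β (z - x i) := by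
  unfold cen
  simp only [add_sub_add_right_eq_sub]

theorem bdd_prodT (hβ : 0 < β) (hβ' : β ≤ 4 / 3) (h0 : 0 ≤ c0) (h1 : c0 < l / 2) (hx : RwT c0 x) :
    Bdd KT 0 (fun z => ∏ i, psi β (z - x i)) := by
  have h := Bdd_cen ((ub_prod_psi (Θ := Unit) (S := Set.univ) (W := fun _ => cen c0 x) hβ
    (fun i => box hx.cen (im_le (cen c0 x)) i) (isCompact_cen isCompact_KT) (NQr_T hβ hβ' h0 h1)).bdd
      (Set.mem_univ ()))
  simpa only [prod_cen] using h

theorem bdd_phT {K : Set ℝ} {g : ℂ → ℂ} (hβ : 0 < β) (hβ' : β ≤ 4 / 3) (h0 : 0 ≤ c0) (h1 : c0 < l / 2)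
    (hx : RwT c0 x) (hK : ∀ t ∈ K, t ∈ KT) (hg : GOn K β g) : Bdd K (-(2 * β)) (ph β x g) := by
  have h1' := Bdd_cen ((ub_phi (Θ := Unit) (S := Set.univ) (W := fun _ => cen c0 x) hβ
    (fun i => box hx.cen (im_le (cen c0 x)) i) (isCompact_cen isCompact_KT) (NQr_T hβ hβ' h0 h1)).bdd
      (Set.mem_univ ()))
  have h3 := Bdd.mono_set h1' hK
  have h2 := ((Bdd.mono_set (bdd_prodT hβ hβ' h0 h1 hx) hK).mul hg.bd).rate (s' := -(2 * β)) (by ring)
  obtain ⟨C, hC, h3⟩ := h3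
  obtain ⟨D, hD, h2⟩ := h2
  refine ⟨C + D, by positivity, fun z hz => ?_⟩
  have e : ph β x g z = phi β (List.ofFn (cen c0 x)) (z + c0) + (∏ i, psi β (z - x i)) * (1 - g z) := by
    rw [phi_ofFn, prod_cen]
    unfold PBX.ph
    ring
  rw [e, add_mul]
  exact (norm_add_le _ _).trans (add_le_add (h3 z hz) (h2 z hz))

theorem diffAt_phT {K : Set ℝ} {g : ℂ → ℂ} (hβ : 0 < β) (hβ' : β ≤ 4 / 3) (h0 : 0 ≤ c0) (h1 : c0 < l / 2)
    (hx : RwT c0 x) (hK : ∀ t ∈ K, t ∈ KT) (hg : GOn K β g) {z : ℂ} (hz : z.re ∈ K) :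
    DifferentiableAt ℂ (ph β x g) z := by
  have d1 := DifferentiableAt.fun_finsetProd (𝕜 := ℂ) (u := Finset.univ)
    (f := fun (i : Fin m) s => psi β (s - x i)) (x := z) (fun i _ =>
      (diff_psi' (NQ_T hβ hβ' h0 h1 hx (hK _ hz) i)).comp z (differentiableAt_id.sub_const _))
  exact (d1.mul (hg.diff z hz)).const_sub 1

end cut

/-! ### the state sum as a contour integral -/

/-- the start lines: quanta, L, strings -/
def K3T : Set ℝ := {51 / 100 * l, -(201 / 100 * l), -(201 / 100 * l) + l}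

theorem isCompact_K3T : IsCompact K3T := by
  unfold K3T
  exact ((Set.finite_singleton _).insert _ |>.insert _).isCompact

theorem K3T_KT {d : ℝ} (h : d ∈ K3T) : d ∈ KT := by
  have hl := Bd.l_pos
  simp only [K3T, Set.mem_insert_iff, Set.mem_singleton_iff] at h
  rcases h with h | h | h <;> rw [h] <;> constructor <;> linarith

theorem mem_K3T {z : ℂ} (hz : z.re = 51 / 100 * l ∨ z.re = -(201 / 100 * l) ∨ z.re = -(201 / 100 * l) + l) :
    z.re ∈ K3T := by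
  simp only [K3T, Set.mem_insert_iff, Set.mem_singleton_iff]
  exact hz

theorem Icc_KT {z : ℂ} (h1 : -(201 / 100 * l) ≤ z.re) (h2 : z.re ≤ 51 / 100 * l) : z.re ∈ KT := by
  have hl := Bd.l_pos
  exact ⟨by linarith, by linarith⟩

theorem diff_hrT (h0 : 0 ≤ c0) (h1 : c0 < l / 2) (c : ℂ) {x : Fin m → ℂ} {y : Fin M → ℂ} (hx : RwT c0 x) {z : ℂ}
    (h2 : -(201 / 100 * l) ≤ z.re) (h3 : z.re ≤ 51 / 100 * l) : DifferentiableAt ℂ (hr c x y) z := by
  have hl := Bd.l_pos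
  unfold NUP1.Leg.hr
  refine ((differentiableAt_const c).mul ?_).mul ?_
  · refine DifferentiableAt.fun_finsetProd fun i _ => ?_
    have hs : sin (z - x i - 2 * l) ≠ 0 := by
      refine Bd.sin_ne_zero_of_re ?_
      have e : (z - x i - 2 * l).re = z.re - (x i).re - 2 * l := by simp
      obtain ⟨h4, h5⟩ := T_range h0 h1 hx (Icc_KT h2 h3) i
      rw [e]
      exact NURow.sin_ne_neg (by linarith) (by linarith)
    fun_prop (disch := exact hs)
  · refine DifferentiableAt.fun_finsetProd fun i _ => ?_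
    fun_prop

/-- **The state sum as a contour integral**, any cutoff. -/
theorem DSU_Z3T {c c' : ℂ} {s t g g' : ℂ → ℂ} {x : Fin m → ℂ} {y : Fin M → ℂ} {β q : ℝ} (h0 : 0 ≤ c0)
    (h1 : c0 < l / 2) (hβ : 0 < β)
    (hβ' : β ≤ 4 / 3) (ix : ∀ i j, i ≠ j → (x i).im ≠ (x j).im)
    (iy : ∀ i j, i ≠ j → (y i).im ≠ (y j).im) (hx : RwT c0 x) (hy : RwT c0 y) (hg : GOn KT β g)
    (hg' : GOn KT β g') (hs : SpW6 q s) (ht : SpW6 (-q) t) {n n' : ℕ} (hn : (n' : ℝ) + m = n + M + q) :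
    DSU c c' s t x y n n' = Z3 (51 / 100 * l) (-(201 / 100 * l)) n n' (GU c β x y g s)
      (GU c' β y x g' t) := by
  have hl := Bd.l_pos
  have hw : NUP1.N.Wd (51 / 100 * l) (-(201 / 100 * l)) := ⟨by linarith, by linarith⟩
  have key : ∀ {m M : ℕ} {c : ℂ} {q : ℝ} {s g : ℂ → ℂ} {x : Fin m → ℂ} {y : Fin M → ℂ}, RwT c0 x → GOn KT β g →
      SpW6 q s →
      (∀ z : ℂ, -(201 / 100 * l) ≤ z.re → z.re ≤ 51 / 100 * l →
        DifferentiableAt ℂ (fun u => hr c x y u * (ph β x g u * s u)) z) ∧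
      Measurable (fun u => hr c x y u * (ph β x g u * s u)) ∧
      Gr (51 / 100 * l) (-(201 / 100 * l)) (-(2 * β - 2 * M + m - 2 * q))
        (fun u => hr c x y u * (ph β x g u * s u)) := by
    intro m M c q s g x y hx hg hs
    refine ⟨fun z h2 h3 => (diff_hrT h0 h1 c hx h2 h3).mul
      ((diffAt_phT hβ hβ' h0 h1 hx (fun t ht => ht) hg (Icc_KT h2 h3)).mul
        (hs.diff z (by linarith) (by linarith))),
      (meas_hrU c x y).mul ((measurable_ph β x hg.meas).mul hs.meas), ?_⟩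
    have h2 : Gr (51 / 100 * l) (-(201 / 100 * l)) (-(2 * β)) (ph β x g) := by
      obtain ⟨C, hC, h⟩ := bdd_phT hβ hβ' h0 h1 hx (fun t ht => ht) hg
      exact ⟨C, 0, hC, fun z h1 h2 _ => h z (Icc_KT h1 h2)⟩
    have h3 : Gr (51 / 100 * l) (-(201 / 100 * l)) (2 * q) s := hs.gr.strip (by linarith) (by linarith)
    exact ((Gr_hrU c _ _ x y).mul (h2.mul h3)).mono (le_of_eq (by ring))
  obtain ⟨d1, m1, g1⟩ := key (c := c) (y := y) hx hg hs
  obtain ⟨d2, m2, g2⟩ := key (c := c') (y := x) hy hg' ht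
  have rx : ∀ {m : ℕ} {x : Fin m → ℂ}, RwT c0 x → ∀ i, -(201 / 100 * l) + l < (x i).re ∧
      (x i).re < 51 / 100 * l := by
    intro m x hx i
    have a := hx.lo i
    have b := hx.hi i
    constructor <;> linarith
  unfold Pool.Agent.PLX.GU
  rw [← NUP1.N.assemG hw ix iy (rx hx) (rx hy) d1 d2 m1 m2 g1 g2 n n' (by linarith) (by linarith)]
  unfold DSU
  refine Finset.sum_congr rfl fun a _ => Finset.sum_congr rfl fun b _ => ?_
  rw [NUP1.N.sta_congr' (x := x) (h := fun u => hr c x y u * s u)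
      (k := fun u => hr c x y u * (ph β x g u * s u)) (fun i => by rw [ph_row, one_mul])
      (fun i => by rw [ph_row_sub, one_mul]) a,
    NUP1.N.sta_congr' (x := y) (h := fun u => hr c' y x u * t u)
      (k := fun u => hr c' y x u * (ph β y g' u * t u)) (fun i => by rw [ph_row, one_mul])
      (fun i => by rw [ph_row_sub, one_mul]) b]

/-! ### limits -/

theorem NPr_K3T (h0 : 0 ≤ c0) (h1 : c0 < l / 2) : NPr (l / 2) ((fun d => d + c0) '' K3T) := by
  have hl := Bd.l_pos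
  rintro _ ⟨d, hd, rfl⟩ e he
  obtain ⟨h3, h4⟩ := abs_le.1 he
  simp only [K3T, Set.mem_insert_iff, Set.mem_singleton_iff] at hd
  rcases hd with hd | hd | hd
  · rw [hd]
    exact NP_pos (by dsimp only; linarith) (by dsimp only; linarith)
  · rw [hd]
    exact NP_neg (by dsimp only; linarith) (by dsimp only; linarith)
  · rw [hd]
    exact NP_neg (by dsimp only; linarith) (by dsimp only; linarith)

/-- the one body function of the centred rows -/
theorem GU_cen (c : ℂ) (β : ℝ) (x : Fin m → ℂ) (y : Fin M → ℂ) (g s : ℂ → ℂ) (z : ℂ) :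
    GU c β x y g s z = (hr c (cen c0 x) (cen c0 y) (z + c0) * ∏ i, 1 / sin (z + c0 - cen c0 x i)) *
      ph β x g z * s z := by
  unfold Pool.Agent.PLX.GU NUP1.N.Gr0
  rw [hr_cen]
  unfold cen
  simp only [add_sub_add_right_eq_sub]
  ring

/-- uniform bound of the one body function on the three lines -/
theorem GU_ubT {E : Type*} {S : Set E} {β R q : ℝ} (h0 : 0 ≤ c0) (h1 : c0 < l / 2) (hβ : 0 < β) (hβ' : β ≤ 4 / 3)
    (c : ℂ) {x : E → Fin m → ℂ} {y : E → Fin M → ℂ} {g : ℂ → ℂ} (hg : GOn KT β g)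
    (hx : ∀ e ∈ S, RwT c0 (x e)) (hy : ∀ e ∈ S, RwT c0 (y e)) (bx : ∀ e ∈ S, ∀ i, |(x e i).im| ≤ R)
    (by' : ∀ e ∈ S, ∀ i, |(y e i).im| ≤ R) {s : E → ℂ → ℂ} {D : ℝ} (hD : 0 ≤ D)
    (hs : ∀ e ∈ S, ∀ z : ℂ, z.re ∈ K3T → ‖s e z‖ ≤ D * Real.exp (2 * q * |z.im|)) :
    ∃ C : ℝ, 0 ≤ C ∧ ∀ e ∈ S, ∀ z : ℂ, z.re ∈ K3T →
      ‖GU c β (x e) (y e) g (s e) z‖ ≤
        C * Real.exp (-((2 * β - 2 * ((M : ℝ) - m) - 2 * q) * |z.im|)) := by
  have ib : ∀ {k : ℕ} {x : E → Fin k → ℂ}, (∀ e ∈ S, RwT c0 (x e)) → (∀ e ∈ S, ∀ i, |(x e i).im| ≤ R) →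
      ∀ i, InBox S (l / 2) R fun e => cen c0 (x e) i := fun h1 h2 i e he =>
    ⟨(h1 e he).cen i, by simpa [cen] using h2 e he i⟩
  obtain ⟨C1, hC1, h1'⟩ := ub_hrU (Θ := E) (S := S) c (ib hx bx) (ib hy by') (isCompact_cen isCompact_K3T)
    (NPr_K3T h0 h1)
  have nq : NQr β (l / 2) ((fun d => d + c0) '' K3T) := by
    rintro _ ⟨d, hd, rfl⟩
    exact NQr_T hβ hβ' h0 h1 _ ⟨d, K3T_KT hd, rfl⟩
  obtain ⟨C2, hC2, h2⟩ := ub_phi (Θ := E) (S := S) hβ (ib hx bx) (isCompact_cen isCompact_K3T) nq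
  obtain ⟨C3, hC3, h3⟩ := ub_prod_psi (Θ := E) (S := S) hβ (ib hx bx) (isCompact_cen isCompact_K3T) nq
  obtain ⟨C4, hC4, h4⟩ := hg.bd
  refine ⟨C1 * (C2 + C3 * C4) * D, by positivity, fun e he z hz => ?_⟩
  have hz' : (z + c0).re ∈ (fun d => d + c0) '' K3T := ⟨z.re, hz, by simp⟩
  have ei : (z + (c0 : ℂ)).im = z.im := by simp
  have a1 := h1' e he _ hz'
  have a2 := h2 e he _ hz'
  have a3 := h3 e he _ hz'
  have a4 := h4 z (K3T_KT hz)
  have a5 := hs e he z hz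
  simp only [zero_mul, Real.exp_zero, mul_one, prod_cen] at a3
  rw [ei] at a1 a2
  have ep : ph β (x e) g z = phi β (List.ofFn (cen c0 (x e))) (z + c0) +
      (∏ i, psi β (z - x e i)) * (1 - g z) := by
    rw [phi_ofFn, prod_cen]
    unfold PBX.ph
    ring
  have a6 : ‖ph β (x e) g z‖ ≤ (C2 + C3 * C4) * Real.exp (-(2 * β) * |z.im|) := by
    rw [ep, add_mul]
    refine (norm_add_le _ _).trans (add_le_add a2 ?_)
    rw [norm_mul, mul_assoc]
    exact mul_le_mul a3 a4 (norm_nonneg _) hC3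
  rw [GU_cen (c0 := c0), norm_mul, norm_mul]
  calc _ ≤ (C1 * Real.exp ((2 * (M : ℝ) - 2 * m) * |z.im|)) *
        ((C2 + C3 * C4) * Real.exp (-(2 * β) * |z.im|)) * (D * Real.exp (2 * q * |z.im|)) :=
        mul_le_mul (mul_le_mul a1 a6 (norm_nonneg _) (by positivity)) a5 (norm_nonneg _)
          (by positivity)
    _ = (C1 * (C2 + C3 * C4) * D) * (Real.exp ((2 * (M : ℝ) - 2 * m) * |z.im|) *
        Real.exp (-(2 * β) * |z.im|) * Real.exp (2 * q * |z.im|)) := by ring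
    _ = _ := by
        rw [← Real.exp_add, ← Real.exp_add]
        congr 2
        ring

theorem GU_tendstoT {E : Type*} {F : Filter E} {β : ℝ} (h0 : 0 ≤ c0) (h1 : c0 < l / 2) (hβ : 0 < β)
    (hβ' : β ≤ 4 / 3) (c : ℂ)
    {x : E → Fin m → ℂ} {y : E → Fin M → ℂ} {x0 : Fin m → ℂ} {y0 : Fin M → ℂ} (g : ℂ → ℂ) (hx0 : RwT c0 x0)
    (tx : ∀ i, Tendsto (fun e => x e i) F (𝓝 (x0 i)))
    (ty : ∀ i, Tendsto (fun e => y e i) F (𝓝 (y0 i))) {s : E → ℂ → ℂ} {s0 : ℂ → ℂ} {z : ℂ}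
    (hz : z.re ∈ K3T) (ts : Tendsto (fun e => s e z) F (𝓝 (s0 z))) :
    Tendsto (fun e => GU c β (x e) (y e) g (s e) z) F (𝓝 (GU c β x0 y0 g s0 z)) := by
  have np : ∀ i, NP (z - x0 i).re := fun i => by
    have := NPr_K3T h0 h1 _ ⟨z.re, hz, rfl⟩ _ (hx0 i)
    rw [sub_re]
    simpa using this
  have t1 : ∀ i, Tendsto (fun e => 1 / sin (z - x e i)) F (𝓝 (1 / sin (z - x0 i))) := fun i =>
    tendsto_const_nhds.div ((Complex.continuous_sin.tendsto _).comp
      (tendsto_const_nhds.sub (tx i))) (Bd.sin_ne_zero_of_re (np i).1)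
  have t2 : ∀ i, Tendsto (fun e => 1 / sin (z - x e i - 2 * l)) F
      (𝓝 (1 / sin (z - x0 i - 2 * l))) := fun i =>
    tendsto_const_nhds.div ((Complex.continuous_sin.tendsto _).comp
      ((tendsto_const_nhds.sub (tx i)).sub_const _)) (Bd.sin_ne_zero_of_re (by
        have := (np i).2
        simpa using this))
  have t3 : ∀ i, Tendsto (fun e => sin (z - y e i + 3 * l) ^ 2) F
      (𝓝 (sin (z - y0 i + 3 * l) ^ 2)) := fun i =>
    ((Complex.continuous_sin.tendsto _).comp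
      ((tendsto_const_nhds.sub (ty i)).add_const _)).pow 2
  have t4 : ∀ i, Tendsto (fun e => psi β (z - x e i)) F (𝓝 (psi β (z - x0 i))) := fun i =>
    ((diff_psi' (NQ_T hβ hβ' h0 h1 hx0 (K3T_KT hz) i)).continuousAt.tendsto).comp
      (tendsto_const_nhds.sub (tx i))
  unfold Pool.Agent.PLX.GU NUP1.N.Gr0 NUP1.Leg.hr PBX.ph
  exact (((tendsto_const_nhds.mul (tendsto_finsetProd _ fun i _ => t2 i)).mul
    (tendsto_finsetProd _ fun i _ => t3 i)).mul
      ((tendsto_const_nhds.sub ((tendsto_finsetProd _ fun i _ => t4 i).mul_const _)).mul ts)).mul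
      (tendsto_finsetProd _ fun i _ => t1 i)

theorem SpW6.bdT {q : ℝ} {s : ℂ → ℂ} (hs : SpW6 q s) :
    ∃ D : ℝ, 0 ≤ D ∧ ∀ z : ℂ, z.re ∈ K3T → ‖s z‖ ≤ D * Real.exp (2 * q * |z.im|) := by
  have hl := Bd.l_pos
  obtain ⟨C, R, hC, h⟩ := hs.gr
  have r : ∀ {z : ℂ}, z.re ∈ K3T → -(49 / 20 * l) ≤ z.re ∧ z.re ≤ 21 / 20 * l := by
    intro z hz
    obtain ⟨h1, h2⟩ := K3T_KT hz
    constructor <;> linarith
  exact PBX.bdd_glueR (R := R) (s := 2 * q) isCompact_K3T
    (fun z hz => (hs.diff z (r hz).1 (r hz).2).continuousAt)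
    ⟨C, hC, fun z hz hi => h z (r hz).1 (r hz).2 hi⟩

/-- the spectators of the centred rows -/
theorem SpW6.cenU {q : ℝ} {s : ℂ → ℂ} (h0 : 0 ≤ c0) (h1 : c0 < l / 2) (hs : SpW6 q s) :
    SpU q (fun u => s (u - c0)) := by
  have hl := Bd.l_pos
  obtain ⟨C, R, hC, h⟩ := hs.gr
  refine ⟨hs.meas.comp (measurable_id.sub_const _), fun z h2 h3 => ?_, ?_⟩
  · have e : (z - (c0 : ℂ)).re = z.re - c0 := by simp
    exact (hs.diff (z - c0) (by rw [e]; linarith) (by rw [e]; linarith)).comp z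
      (differentiableAt_id.sub_const _)
  · refine ⟨C, R, hC, fun z h2 h3 hi => ?_⟩
    have e : (z - (c0 : ℂ)).re = z.re - c0 := by simp
    have e' : (z - (c0 : ℂ)).im = z.im := by simp
    have := h (z - c0) (by rw [e]; linarith) (by rw [e]; linarith) (by rw [e']; exact hi)
    rwa [e'] at this

/-- **the contour integral on the lines of the direction** -/
theorem DZU_T {c c' : ℂ} {s t g g' : ℂ → ℂ} {x : Fin m → ℂ} {y : Fin M → ℂ} {β q : ℝ} (h0 : 0 ≤ c0)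
    (h1 : c0 < l / 2) (hβ : 0 < β) (hβ' : β ≤ 4 / 3) (hx : RwT c0 x) (hy : RwT c0 y) (hg : GOn KT β g)
    (hg' : GOn KT β g') (hs : SpW6 q s) (ht : SpW6 (-q) t) {n n' : ℕ} (hn : (n' : ℝ) + m = n + M + q) :
    DZU c c' (fun u => s (u - c0)) (fun u => t (u - c0)) (cen c0 x) (cen c0 y) n n' =
      Z3 (51 / 100 * l) (-(201 / 100 * l)) n n' (GU c β x y g s) (GU c' β y x g' t) := by
  have hl := Bd.l_pos
  -- the limit of the state sums, centred
  have A := pull_limU (c := c) (c' := c') (n := n) (n' := n') (β := 4 / 3) (by norm_num) le_rfl hx.cen hy.cen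
    (GOk.one _) (GOk.one _) (SpW6.cenU h0 h1 hs) (SpW6.cenU h0 h1 ht) hn
  -- the same limit on the lines of the direction
  obtain ⟨D1, hD1, b1⟩ := SpW6.bdT hs
  obtain ⟨D2, hD2, b2⟩ := SpW6.bdT ht
  have hpos : ∀ᶠ e : ℝ in 𝓝[>] 0, 0 < e := self_mem_nhdsWithin
  have hle : ∀ᶠ e : ℝ in 𝓝[>] 0, e ≤ 1 := nhdsWithin_le_nhds (eventually_le_nhds one_pos)
  have sx : 0 ≤ ∑ j, |(x j).im| := Finset.sum_nonneg fun _ _ => abs_nonneg _
  have sy : 0 ≤ ∑ j, |(y j).im| := Finset.sum_nonneg fun _ _ => abs_nonneg _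
  have m0 : (0 : ℝ) ≤ m := Nat.cast_nonneg _
  have M0 : (0 : ℝ) ≤ M := Nat.cast_nonneg _
  set R : ℝ := ∑ j, |(x j).im| + ∑ j, |(y j).im| + m + M with hR
  set S : Set ℝ := {e | 0 < e ∧ e ≤ 1} with hS
  have hSF : ∀ᶠ e in 𝓝[>] (0 : ℝ), e ∈ S := hpos.and hle
  have rx : ∀ e ∈ S, ∀ i, |(pull x e i).im| ≤ R := fun e he i =>
    (pull_im_le x he.1.le he.2 i).trans (by rw [hR]; linarith)
  have ry : ∀ e ∈ S, ∀ i, |(pull y e i).im| ≤ R := fun e he i =>
    (pull_im_le y he.1.le he.2 i).trans (by rw [hR]; linarith)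
  obtain ⟨C1, hC1, g1⟩ := GU_ubT (S := S) (R := R) (q := q) h0 h1 hβ hβ' c (x := pull x) (y := pull y)
    (s := fun _ => s) hg (fun e _ => hx.pull e) (fun e _ => hy.pull e) rx ry hD1 (fun e _ z hz => b1 z hz)
  obtain ⟨C2, hC2, g2⟩ := GU_ubT (S := S) (R := R) (q := -q) h0 h1 hβ hβ' c' (x := pull y) (y := pull x)
    (s := fun _ => t) hg' (fun e _ => hy.pull e) (fun e _ => hx.pull e) ry rx hD2 (fun e _ z hz => b2 z hz)
  have B : Tendsto (fun e => Z3 (51 / 100 * l) (-(201 / 100 * l)) n n' (GU c β (pull x e) (pull y e) g s)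
      (GU c' β (pull y e) (pull x e) g' t)) (𝓝[>] (0 : ℝ))
      (𝓝 (Z3 (51 / 100 * l) (-(201 / 100 * l)) n n' (GU c β x y g s) (GU c' β y x g' t))) := by
    refine NUP1.N.Z3_tendsto (D := max C1 C2) (κ := 2 * β - 2 * ((M : ℝ) - m) - 2 * q)
      (κ' := 2 * β - 2 * ((m : ℝ) - M) - 2 * (-q)) (by linarith)
      (by linarith) (Eventually.of_forall fun e => measurable_GU c β _ _ hg.meas hs.meas)
      (Eventually.of_forall fun e => measurable_GU c' β _ _ hg'.meas ht.meas)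
      (fun z hz => GU_tendstoT h0 h1 hβ hβ' c g hx (pull_tendsto x) (pull_tendsto y) (mem_K3T hz)
        (s := fun _ => s) tendsto_const_nhds)
      (fun z hz => GU_tendstoT h0 h1 hβ hβ' c' g' hy (pull_tendsto y) (pull_tendsto x) (mem_K3T hz)
        (s := fun _ => t) tendsto_const_nhds)
      (hSF.mono fun e he z hz => ?_) (hSF.mono fun e he z hz => ?_)
      (by linarith) (by linarith)
    · exact (g1 e he z (mem_K3T hz)).trans
        (mul_le_mul_of_nonneg_right (le_max_left _ _) (Real.exp_pos _).le)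
    · exact (g2 e he z (mem_K3T hz)).trans
        (mul_le_mul_of_nonneg_right (le_max_right _ _) (Real.exp_pos _).le)
  refine tendsto_nhds_unique A (B.congr' ?_)
  filter_upwards [pull_ne x, pull_ne y] with e ex ey
  rw [← cen_pull, ← cen_pull, DSU_cen]
  exact (DSU_Z3T h0 h1 hβ hβ' ex ey (hx.pull e) (hy.pull e) hg hg' hs ht hn).symm

end PLTX

end
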