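import Pool.Agent.PLT.DatOc

/-!
# The displacement fields of the objects over a sea on a static curve

* `SAsy.d1R`, `SAsy.d1L`, `SAsy.d1M`, `SAsy.d2`: the derivatives of a potential with asymptotics
  `± c (z - τ) + a ± i φ + O(e^{-2 |Re z - τ|})` (Cauchy on discs in the larger strip);
* `re_disp`, `dre_disp`: the real part on two near paths; `gD_bd`: the displacement of a current;
* **`exists_dFC`**: `dFC I O a` is `C^1`, with the bound `K ε ∑ e^{-2 |t - h|} + K r (M / σ) e^{-|t|}`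
  (`σ ≤ s a`: the charged part sees only the real displacement).
-/

set_option autoImplicit false
set_option linter.unusedSectionVars false
set_option linter.unusedVariables false

open MeasureTheory Set Filter Topology Complex

namespace PLT.Cv

open NUMF (l l_pos w g V)
open NUKer (iD kw kg)
open NUSea.PLX.H0 (Inp Vn)
open NUDispW (bmaj)

noncomputable section

/-! ### derivatives of a potential with asymptotics -/

section asy

variable {lo hi r κ c a φ τ k : ℝ} {f : ℂ → ℂ}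

/-- the constant of the first derivative -/
def kA (r k : ℝ) : ℝ := 5 * k * Real.exp (2 * r) / r

/-- the constant of the second derivative -/
def kB (r k : ℝ) : ℝ := (k + kA r k) * Real.exp (4 * r) / r

lemma kA_nonneg (hr : 0 < r) (hk : 0 ≤ k) : 0 ≤ kA r k := by
  unfold kA
  positivity

lemma kB_nonneg (hr : 0 < r) (hk : 0 ≤ k) : 0 ≤ kB r k := by
  have := kA_nonneg hr hk
  unfold kB
  positivity

/-- a closed disc around a point of the strip is in the larger strip -/
lemma disc_strip {z w : ℂ} (h1 : lo ≤ z.im) (h2 : z.im ≤ hi) (hw : ‖w - z‖ ≤ r) :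
    lo - r ≤ w.im ∧ w.im ≤ hi + r ∧ |w.re - z.re| ≤ r := by
  have h3 := (Complex.abs_im_le_norm (w - z)).trans hw
  have h4 := (Complex.abs_re_le_norm (w - z)).trans hw
  rw [Complex.sub_im] at h3
  rw [Complex.sub_re] at h4
  obtain ⟨h5, h6⟩ := abs_le.1 h3
  exact ⟨by linarith, by linarith, h4⟩

lemma dcc_of {F : ℂ → ℂ} {z : ℂ} (hr : 0 < r) (h1 : lo ≤ z.im) (h2 : z.im ≤ hi)
    (hd : ∀ w : ℂ, lo - r ≤ w.im → w.im ≤ hi + r → DifferentiableAt ℂ F w) :
    DiffContOnCl ℂ F (Metric.ball z r) := by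
  refine DifferentiableOn.diffContOnCl fun w hw => ?_
  have hw' : ‖w - z‖ ≤ r := by
    rw [closure_ball z hr.ne'] at hw
    rwa [Metric.mem_closedBall, dist_eq_norm] at hw
  obtain ⟨h3, h4, -⟩ := disc_strip h1 h2 hw'
  exact (hd w h3 h4).differentiableWithinAt

/-- right of the height -/
theorem SAsy.d1R (h : SAsy (lo - r) (hi + r) κ c a φ τ f) (hr : 0 < r) (hκ : κ ≤ k) (hk : 0 ≤ k)
    (hd : ∀ z : ℂ, lo - r ≤ z.im → z.im ≤ hi + r → DifferentiableAt ℂ f z) {z : ℂ}
    (h1 : lo ≤ z.im) (h2 : z.im ≤ hi) (hz : r ≤ z.re - τ) :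
    ‖deriv f z - c‖ ≤ kA r k * Real.exp (-2 * |z.re - τ|) := by
  have hL : ∀ w : ℂ, HasDerivAt (fun w : ℂ => (c : ℂ) * (w - τ) + a + φ * I) c w := fun w => by
    have h3 := ((((hasDerivAt_id w).sub_const (τ : ℂ)).const_mul (c : ℂ)).add_const (a : ℂ)).add_const
      ((φ : ℂ) * I)
    simpa using h3
  have key := Complex.norm_deriv_le_of_forall_mem_sphere_norm_le (c := z) (R := r)
    (C := k * Real.exp (2 * r) * Real.exp (-2 * |z.re - τ|))
    (f := fun w => f w - ((c : ℂ) * (w - τ) + a + φ * I)) hr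
    (dcc_of hr h1 h2 fun w h3 h4 => (hd w h3 h4).sub (hL w).differentiableAt) (fun w hw => by
      rw [mem_sphere_iff_norm] at hw
      obtain ⟨h3, h4, h5⟩ := disc_strip h1 h2 hw.le
      obtain ⟨h6, h7⟩ := abs_le.1 h5
      refine (h.ar w h3 h4 (by linarith)).trans ?_
      rw [mul_assoc, ← Real.exp_add]
      refine mul_le_mul hκ (Real.exp_le_exp.2 ?_) (Real.exp_pos _).le hk
      rw [abs_of_nonneg (by linarith : (0 : ℝ) ≤ w.re - τ),
        abs_of_nonneg (by linarith : (0 : ℝ) ≤ z.re - τ)]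
      linarith)
  have e : deriv (fun w => f w - ((c : ℂ) * (w - τ) + a + φ * I)) z = deriv f z - c := by
    have h3 := (hd z (by linarith) (by linarith)).hasDerivAt.sub (hL z)
    exact h3.deriv
  rw [e] at key
  refine key.trans ?_
  unfold kA
  rw [div_mul_eq_mul_div]
  refine (div_le_div_iff_of_pos_right hr).2 ?_
  have hE := Real.exp_pos (2 * r)
  have hE' := Real.exp_pos (-2 * |z.re - τ|)
  refine mul_le_mul_of_nonneg_right (mul_le_mul_of_nonneg_right ?_ hE.le) hE'.le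
  linarith

/-- left of the height -/
theorem SAsy.d1L (h : SAsy (lo - r) (hi + r) κ c a φ τ f) (hr : 0 < r) (hκ : κ ≤ k) (hk : 0 ≤ k)
    (hd : ∀ z : ℂ, lo - r ≤ z.im → z.im ≤ hi + r → DifferentiableAt ℂ f z) {z : ℂ}
    (h1 : lo ≤ z.im) (h2 : z.im ≤ hi) (hz : z.re - τ ≤ -r) :
    ‖deriv f z + c‖ ≤ kA r k * Real.exp (-2 * |z.re - τ|) := by
  have hL : ∀ w : ℂ, HasDerivAt (fun w : ℂ => -(c : ℂ) * (w - τ) + a - φ * I) (-c) w := fun w => by
    have h3 := ((((hasDerivAt_id w).sub_const (τ : ℂ)).const_mul (-(c : ℂ))).add_const (a : ℂ)).sub_const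
      ((φ : ℂ) * I)
    simpa using h3
  have key := Complex.norm_deriv_le_of_forall_mem_sphere_norm_le (c := z) (R := r)
    (C := k * Real.exp (2 * r) * Real.exp (-2 * |z.re - τ|))
    (f := fun w => f w - (-(c : ℂ) * (w - τ) + a - φ * I)) hr
    (dcc_of hr h1 h2 fun w h3 h4 => (hd w h3 h4).sub (hL w).differentiableAt) (fun w hw => by
      rw [mem_sphere_iff_norm] at hw
      obtain ⟨h3, h4, h5⟩ := disc_strip h1 h2 hw.le
      obtain ⟨h6, h7⟩ := abs_le.1 h5
      refine (h.al w h3 h4 (by linarith)).trans ?_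
      rw [mul_assoc, ← Real.exp_add]
      refine mul_le_mul hκ (Real.exp_le_exp.2 ?_) (Real.exp_pos _).le hk
      rw [abs_of_nonpos (by linarith : w.re - τ ≤ 0),
        abs_of_nonpos (by linarith : z.re - τ ≤ 0)]
      linarith)
  have e : deriv (fun w => f w - (-(c : ℂ) * (w - τ) + a - φ * I)) z = deriv f z + c := by
    have h3 := (hd z (by linarith) (by linarith)).hasDerivAt.sub (hL z)
    have h4 : deriv (fun w => f w - (-(c : ℂ) * (w - τ) + a - φ * I)) z = deriv f z - -(c : ℂ) :=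
      h3.deriv
    rw [h4, sub_neg_eq_add]
  rw [e] at key
  refine key.trans ?_
  unfold kA
  rw [div_mul_eq_mul_div]
  refine (div_le_div_iff_of_pos_right hr).2 ?_
  have hE := Real.exp_pos (2 * r)
  have hE' := Real.exp_pos (-2 * |z.re - τ|)
  refine mul_le_mul_of_nonneg_right (mul_le_mul_of_nonneg_right ?_ hE.le) hE'.le
  linarith

/-- the phases of the asymptotics are bounded -/
theorem SAsy.phi_le (h : SAsy lo hi κ c a φ τ f) (hl : lo ≤ hi) (h1 : -1 ≤ lo) (h2 : lo ≤ 1) :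
    |φ| ≤ κ + |c| := by
  have h3 := h.ar ((τ : ℂ) + lo * I) (by simp) (by simpa using hl) (by simp)
  have h4 := h.al ((τ : ℂ) + lo * I) (by simp) (by simpa using hl) (by simp)
  have e0 : (((τ : ℂ) + lo * I).re - τ : ℝ) = 0 := by simp
  rw [e0, abs_zero, mul_zero, Real.exp_zero, mul_one] at h3 h4
  have h5 := norm_sub_le (f ((τ : ℂ) + lo * I) - (-(c : ℂ) * (((τ : ℂ) + lo * I) - τ) + a - φ * I))
    (f ((τ : ℂ) + lo * I) - ((c : ℂ) * (((τ : ℂ) + lo * I) - τ) + a + φ * I))
  have e1 : (f ((τ : ℂ) + lo * I) - (-(c : ℂ) * (((τ : ℂ) + lo * I) - τ) + a - φ * I)) -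
      (f ((τ : ℂ) + lo * I) - ((c : ℂ) * (((τ : ℂ) + lo * I) - τ) + a + φ * I)) =
      ((2 * (c * lo + φ) : ℝ) : ℂ) * I := by
    push_cast
    ring
  rw [e1, norm_mul, Complex.norm_I, mul_one, Complex.norm_real, Real.norm_eq_abs, abs_mul] at h5
  have e2 : |(2 : ℝ)| = 2 := abs_of_pos two_pos
  rw [e2] at h5
  have h6 : |c * lo| ≤ |c| := by
    rw [abs_mul]
    have := abs_nonneg c
    have h7 : |lo| ≤ 1 := abs_le.2 ⟨h1, h2⟩
    nlinarith
  have h7 : |φ| ≤ |c * lo + φ| + |c * lo| := by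
    have := abs_sub (c * lo + φ) (c * lo)
    rwa [add_sub_cancel_left] at this
  linarith

/-- near the height -/
theorem SAsy.d1M (h : SAsy (lo - r) (hi + r) κ c a φ τ f) (hr : 0 < r) (hκ : κ ≤ k) (hc : |c| ≤ k)
    (hl : lo ≤ hi) (hlo : -1 ≤ lo - r) (hhi : hi + r ≤ 1) (hr2 : r ≤ 1 / 2)
    (hd : ∀ z : ℂ, lo - r ≤ z.im → z.im ≤ hi + r → DifferentiableAt ℂ f z) {z : ℂ}
    (h1 : lo ≤ z.im) (h2 : z.im ≤ hi) (hz : |z.re - τ| ≤ r) :
    ‖deriv f z‖ ≤ kA r k * Real.exp (-2 * |z.re - τ|) := by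
  have hk : 0 ≤ k := (abs_nonneg c).trans hc
  have hφ := h.phi_le (by linarith) hlo (by linarith)
  have key := Complex.norm_deriv_le_of_forall_mem_sphere_norm_le (c := z) (R := r)
    (C := 5 * k) (f := fun w => f w - a) hr
    (dcc_of hr h1 h2 fun w h3 h4 => (hd w h3 h4).sub (differentiableAt_const _)) (fun w hw => by
      rw [mem_sphere_iff_norm] at hw
      obtain ⟨h3, h4, h5⟩ := disc_strip h1 h2 hw.le
      obtain ⟨h6, h7⟩ := abs_le.1 h5
      obtain ⟨h8, h9⟩ := abs_le.1 hz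
      have hwn : ‖w - (τ : ℂ)‖ ≤ 2 := by
        refine (Complex.norm_le_abs_re_add_abs_im _).trans ?_
        rw [Complex.sub_re, Complex.sub_im, Complex.ofReal_re, Complex.ofReal_im, sub_zero]
        have a1 : |w.re - τ| ≤ 1 := abs_le.2 ⟨by linarith, by linarith⟩
        have a2 : |w.im| ≤ 1 := abs_le.2 ⟨by linarith, by linarith⟩
        linarith
      have hcw : ‖(c : ℂ) * (w - τ)‖ ≤ 2 * k := by
        rw [norm_mul, Complex.norm_real, Real.norm_eq_abs]
        have := norm_nonneg (w - (τ : ℂ))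
        nlinarith [abs_nonneg c]
      have hφn : ‖(φ : ℂ) * I‖ ≤ 2 * k := by
        rw [norm_mul, Complex.norm_I, mul_one, Complex.norm_real, Real.norm_eq_abs]
        linarith
      have hE : Real.exp (-2 * |w.re - τ|) ≤ 1 :=
        Real.exp_le_one_iff.2 (by have := abs_nonneg (w.re - τ); linarith)
      have hκ0 : 0 ≤ κ := by
        rcases le_total τ w.re with ht | ht
        · have := (norm_nonneg _).trans (h.ar w h3 h4 ht)
          exact nonneg_of_mul_nonneg_left this (Real.exp_pos _)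
        · have := (norm_nonneg _).trans (h.al w h3 h4 ht)
          exact nonneg_of_mul_nonneg_left this (Real.exp_pos _)
      rcases le_total τ w.re with ht | ht
      · have h10 := h.ar w h3 h4 ht
        have e1 : f w - a = (f w - ((c : ℂ) * (w - τ) + a + φ * I)) + (c : ℂ) * (w - τ) + φ * I := by
          ring
        rw [e1]
        refine (norm_add_le _ _).trans ((add_le_add (norm_add_le _ _) le_rfl).trans ?_)
        nlinarith
      · have h10 := h.al w h3 h4 ht
        have e1 : f w - a = (f w - (-(c : ℂ) * (w - τ) + a - φ * I)) - (c : ℂ) * (w - τ) - φ * I := by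
          ring
        rw [e1]
        refine (norm_sub_le _ _).trans ((add_le_add (norm_sub_le _ _) le_rfl).trans ?_)
        nlinarith)
  have e : deriv (fun w => f w - (a : ℂ)) z = deriv f z := by
    rw [deriv_sub_const]
  rw [e] at key
  refine key.trans ?_
  unfold kA
  rw [div_mul_eq_mul_div]
  refine (div_le_div_iff_of_pos_right hr).2 ?_
  rw [mul_assoc, ← Real.exp_add]
  have h3 : 1 ≤ Real.exp (2 * r + -2 * |z.re - τ|) := Real.one_le_exp (by linarith)
  nlinarith

/-- **all bounds of the first and of the second derivative** -/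
structure DB (lo hi k k1 k2 τ : ℝ) (f : ℂ → ℂ) : Prop where
  d : ∀ z : ℂ, lo ≤ z.im → z.im ≤ hi → DifferentiableAt ℂ f z
  dd : ∀ z : ℂ, lo ≤ z.im → z.im ≤ hi → DifferentiableAt ℂ (deriv f) z
  d1 : ∀ z : ℂ, lo ≤ z.im → z.im ≤ hi → ∃ σ : ℝ, |σ| ≤ k ∧
    ‖deriv f z - σ‖ ≤ k1 * Real.exp (-2 * |z.re - τ|)
  d2 : ∀ z : ℂ, lo ≤ z.im → z.im ≤ hi → ‖deriv (deriv f) z‖ ≤ k2 * Real.exp (-2 * |z.re - τ|)

/-- **Cauchy** -/
theorem SAsy.db (h : SAsy (lo - 2 * r) (hi + 2 * r) κ c a φ τ f) (hr : 0 < r) (hκ : κ ≤ k)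
    (hc : |c| ≤ k) (hl : lo ≤ hi) (hlo : -1 ≤ lo - 2 * r) (hhi : hi + 2 * r ≤ 1) (hr2 : r ≤ 1 / 2)
    (hd : ∀ z : ℂ, lo - 2 * r ≤ z.im → z.im ≤ hi + 2 * r → DifferentiableAt ℂ f z) :
    DB lo hi k (kA r k) (kB r k) τ f := by
  have hk : 0 ≤ k := (abs_nonneg c).trans hc
  have hkA := kA_nonneg hr hk
  have h' : SAsy ((lo - r) - r) ((hi + r) + r) κ c a φ τ f := by
    have e1 : lo - 2 * r = lo - r - r := by ring
    have e2 : hi + 2 * r = hi + r + r := by ring
    rwa [e1, e2] at h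
  have hd' : ∀ z : ℂ, lo - r - r ≤ z.im → z.im ≤ hi + r + r → DifferentiableAt ℂ f z :=
    fun z h1 h2 => hd z (by linarith) (by linarith)
  have R : ∀ z : ℂ, lo - r ≤ z.im → z.im ≤ hi + r → r ≤ z.re - τ →
      ‖deriv f z - c‖ ≤ kA r k * Real.exp (-2 * |z.re - τ|) := fun z h1 h2 hz =>
    h'.d1R hr hκ hk hd' h1 h2 hz
  have L : ∀ z : ℂ, lo - r ≤ z.im → z.im ≤ hi + r → z.re - τ ≤ -r →
      ‖deriv f z + c‖ ≤ kA r k * Real.exp (-2 * |z.re - τ|) := fun z h1 h2 hz =>
    h'.d1L hr hκ hk hd' h1 h2 hz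
  have M : ∀ z : ℂ, lo - r ≤ z.im → z.im ≤ hi + r → |z.re - τ| ≤ r →
      ‖deriv f z‖ ≤ kA r k * Real.exp (-2 * |z.re - τ|) := fun z h1 h2 hz =>
    h'.d1M hr hκ hc (by linarith) (by linarith) (by linarith) hr2 hd' h1 h2 hz
  have hU : IsOpen {z : ℂ | lo - 2 * r < z.im ∧ z.im < hi + 2 * r} := strip_open _ _
  have hDD : ∀ z : ℂ, lo - r ≤ z.im → z.im ≤ hi + r → DifferentiableAt ℂ (deriv f) z := by
    intro z h1 h2
    have h3 : DifferentiableOn ℂ f {z : ℂ | lo - 2 * r < z.im ∧ z.im < hi + 2 * r} := fun w hw =>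
      (hd w hw.1.le hw.2.le).differentiableWithinAt
    exact (h3.deriv hU).differentiableAt (hU.mem_nhds ⟨by linarith, by linarith⟩)
  have A : ∀ z : ℂ, lo - r ≤ z.im → z.im ≤ hi + r → ‖deriv f z‖ ≤ k + kA r k := by
    intro z h1 h2
    have hE : Real.exp (-2 * |z.re - τ|) ≤ 1 :=
      Real.exp_le_one_iff.2 (by have := abs_nonneg (z.re - τ); linarith)
    have hE2 : kA r k * Real.exp (-2 * |z.re - τ|) ≤ kA r k := by nlinarith
    have hcn : ‖(c : ℂ)‖ ≤ k := by rwa [Complex.norm_real, Real.norm_eq_abs]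
    rcases le_or_gt r (z.re - τ) with h3 | h3
    · have h4 := R z h1 h2 h3
      have h5 := norm_add_le (deriv f z - c) (c : ℂ)
      rw [sub_add_cancel] at h5
      linarith
    · rcases le_or_gt (z.re - τ) (-r) with h4 | h4
      · have h5 := L z h1 h2 h4
        have h6 := norm_sub_le (deriv f z + c) (c : ℂ)
        rw [add_sub_cancel_right] at h6
        linarith
      · have := M z h1 h2 (abs_le.2 ⟨h4.le, h3.le⟩)
        linarith
  refine ⟨fun z h1 h2 => hd z (by linarith) (by linarith),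
    fun z h1 h2 => hDD z (by linarith) (by linarith), fun z h1 h2 => ?_, fun z h1 h2 => ?_⟩
  · rcases le_or_gt r (z.re - τ) with h3 | h3
    · exact ⟨c, hc, R z (by linarith) (by linarith) h3⟩
    · rcases le_or_gt (z.re - τ) (-r) with h4 | h4
      · refine ⟨-c, by rwa [abs_neg], ?_⟩
        have := L z (by linarith) (by linarith) h4
        rwa [Complex.ofReal_neg, sub_neg_eq_add]
      · refine ⟨0, by rwa [abs_zero], ?_⟩
        have := M z (by linarith) (by linarith) (abs_le.2 ⟨h4.le, h3.le⟩)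
        rwa [Complex.ofReal_zero, sub_zero]
  · have dc : DiffContOnCl ℂ (deriv f) (Metric.ball z r) := dcc_of hr h1 h2 hDD
    rcases le_or_gt (2 * r) (z.re - τ) with h3 | h3
    · have key := Complex.norm_deriv_le_of_forall_mem_sphere_norm_le (c := z) (R := r)
        (C := kA r k * Real.exp (2 * r) * Real.exp (-2 * |z.re - τ|))
        (f := fun w => deriv f w - c) hr
        (dc.sub (diffContOnCl_const)) (fun w hw => by
          rw [mem_sphere_iff_norm] at hw
          obtain ⟨h4, h5, h6⟩ := disc_strip h1 h2 hw.le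
          obtain ⟨h7, h8⟩ := abs_le.1 h6
          refine (R w h4 h5 (by linarith)).trans ?_
          rw [mul_assoc, ← Real.exp_add]
          refine mul_le_mul_of_nonneg_left (Real.exp_le_exp.2 ?_) hkA
          rw [abs_of_nonneg (by linarith : (0 : ℝ) ≤ w.re - τ),
            abs_of_nonneg (by linarith : (0 : ℝ) ≤ z.re - τ)]
          linarith)
      rw [deriv_sub_const] at key
      refine key.trans ?_
      unfold kB
      rw [div_mul_eq_mul_div]
      refine (div_le_div_iff_of_pos_right hr).2 ?_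
      have hE' := Real.exp_pos (-2 * |z.re - τ|)
      refine mul_le_mul_of_nonneg_right ?_ hE'.le
      refine mul_le_mul (by linarith) (Real.exp_le_exp.2 (by linarith)) (Real.exp_pos _).le
        (by linarith)
    · rcases le_or_gt (z.re - τ) (-(2 * r)) with h4 | h4
      · have key := Complex.norm_deriv_le_of_forall_mem_sphere_norm_le (c := z) (R := r)
          (C := kA r k * Real.exp (2 * r) * Real.exp (-2 * |z.re - τ|))
          (f := fun w => deriv f w + c) hr
          (dc.add (diffContOnCl_const)) (fun w hw => by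
            rw [mem_sphere_iff_norm] at hw
            obtain ⟨h4', h5, h6⟩ := disc_strip h1 h2 hw.le
            obtain ⟨h7, h8⟩ := abs_le.1 h6
            refine (L w h4' h5 (by linarith)).trans ?_
            rw [mul_assoc, ← Real.exp_add]
            refine mul_le_mul_of_nonneg_left (Real.exp_le_exp.2 ?_) hkA
            rw [abs_of_nonpos (by linarith : w.re - τ ≤ 0),
              abs_of_nonpos (by linarith : z.re - τ ≤ 0)]
            linarith)
        rw [deriv_add_const] at key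
        refine key.trans ?_
        unfold kB
        rw [div_mul_eq_mul_div]
        refine (div_le_div_iff_of_pos_right hr).2 ?_
        have hE' := Real.exp_pos (-2 * |z.re - τ|)
        refine mul_le_mul_of_nonneg_right ?_ hE'.le
        refine mul_le_mul (by linarith) (Real.exp_le_exp.2 (by linarith)) (Real.exp_pos _).le
          (by linarith)
      · have key := Complex.norm_deriv_le_of_forall_mem_sphere_norm_le (c := z) (R := r)
          (C := k + kA r k) (f := deriv f) hr dc (fun w hw => by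
            rw [mem_sphere_iff_norm] at hw
            obtain ⟨h4', h5, h6⟩ := disc_strip h1 h2 hw.le
            exact A w h4' h5)
        refine key.trans ?_
        unfold kB
        rw [div_mul_eq_mul_div]
        refine (div_le_div_iff_of_pos_right hr).2 ?_
        rw [mul_assoc, ← Real.exp_add]
        have h5 : |z.re - τ| ≤ 2 * r := abs_le.2 ⟨h4.le, h3.le⟩
        have h6 : 1 ≤ Real.exp (4 * r + -2 * |z.re - τ|) := Real.one_le_exp (by linarith)
        nlinarith

/-! ### the real part on two near paths -/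

variable {k1 k2 : ℝ}

/-- the points of the segment are in the strip -/
lemma seg_strip {z d : ℂ} (h1 : lo ≤ z.im) (h2 : z.im ≤ hi) (h3 : lo ≤ (z + d).im)
    (h4 : (z + d).im ≤ hi) {x : ℝ} (hx : x ∈ Icc (0 : ℝ) 1) :
    lo ≤ (z + x * d).im ∧ (z + x * d).im ≤ hi ∧ |(z + x * d).re - z.re| ≤ |d.re| := by
  have e1 : (z + x * d).im = z.im + x * d.im := by simp
  have e2 : (z + x * d).re = z.re + x * d.re := by simp
  rw [Complex.add_im] at h3 h4
  rw [e1, e2]
  refine ⟨?_, ?_, ?_⟩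
  · nlinarith [hx.1, hx.2]
  · nlinarith [hx.1, hx.2]
  · rw [add_sub_cancel_left, abs_mul, abs_of_nonneg hx.1]
    have := abs_nonneg d.re
    nlinarith [hx.2]

lemma exp_shift {x y t ρ : ℝ} (h : |x - y| ≤ ρ) :
    Real.exp (-2 * |x - t|) ≤ Real.exp (2 * ρ) * Real.exp (-2 * |y - t|) := by
  rw [← Real.exp_add]
  refine Real.exp_le_exp.2 ?_
  have h1 : |y - t| ≤ |x - t| + |x - y| := by
    have := abs_sub_le y x t
    rw [abs_sub_comm y x] at this
    linarith
  linarith

/-- **the real part at a near point** -/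
theorem DB.re_disp (h : DB lo hi k k1 k2 τ f) (hk1 : 0 ≤ k1) {z d : ℂ} (h1 : lo ≤ z.im)
    (h2 : z.im ≤ hi) (h3 : lo ≤ (z + d).im) (h4 : (z + d).im ≤ hi) :
    |(f (z + d)).re - (f z).re| ≤
      k * |d.re| + k1 * Real.exp (2 * |d.re|) * Real.exp (-2 * |z.re - τ|) * ‖d‖ := by
  have key := Convex.norm_image_sub_le_of_norm_hasDerivWithin_le
    (f := fun x : ℝ => (f (z + x * d)).re)
    (f' := fun x : ℝ => (deriv f (z + x * d) * d).re) (s := Icc (0 : ℝ) 1)
    (C := k * |d.re| + k1 * Real.exp (2 * |d.re|) * Real.exp (-2 * |z.re - τ|) * ‖d‖)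
    (fun x hx => by
      obtain ⟨a1, a2, -⟩ := seg_strip h1 h2 h3 h4 hx
      have hp : HasDerivAt (fun x : ℝ => z + (x : ℂ) * d) d x := by
        have := ((Complex.ofRealCLM.hasDerivAt (x := x)).mul_const d).const_add z
        simpa using this
      have h5 := (h.d _ a1 a2).hasDerivAt.comp x hp
      exact (Complex.reCLM.hasFDerivAt.comp_hasDerivAt x h5).hasDerivWithinAt)
    (fun x hx => by
      obtain ⟨a1, a2, a3⟩ := seg_strip h1 h2 h3 h4 hx
      obtain ⟨σ, hσ, h5⟩ := h.d1 _ a1 a2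
      have e : (deriv f (z + x * d) * d).re = σ * d.re + ((deriv f (z + x * d) - σ) * d).re := by
        rw [sub_mul, Complex.sub_re, Complex.re_ofReal_mul]
        ring
      rw [Real.norm_eq_abs, e]
      refine (abs_add_le _ _).trans (add_le_add ?_ ?_)
      · rw [abs_mul]
        exact mul_le_mul_of_nonneg_right hσ (abs_nonneg _)
      · refine (Complex.abs_re_le_norm _).trans ?_
        rw [norm_mul]
        refine mul_le_mul_of_nonneg_right (h5.trans ?_) (norm_nonneg _)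
        rw [mul_assoc]
        exact mul_le_mul_of_nonneg_left (exp_shift a3) hk1)
    (convex_Icc _ _) (left_mem_Icc.2 zero_le_one) (right_mem_Icc.2 zero_le_one)
  simp only [Complex.ofReal_one, one_mul, Complex.ofReal_zero, zero_mul, add_zero, sub_zero,
    norm_one, mul_one] at key
  rwa [Real.norm_eq_abs] at key

/-- the derivative at a near point -/
theorem DB.d_disp (h : DB lo hi k k1 k2 τ f) (hk2 : 0 ≤ k2) {z d : ℂ} (h1 : lo ≤ z.im)
    (h2 : z.im ≤ hi) (h3 : lo ≤ (z + d).im) (h4 : (z + d).im ≤ hi) :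
    ‖deriv f (z + d) - deriv f z‖ ≤
      k2 * Real.exp (2 * |d.re|) * Real.exp (-2 * |z.re - τ|) * ‖d‖ := by
  have key := Convex.norm_image_sub_le_of_norm_hasDerivWithin_le
    (f := fun x : ℝ => deriv f (z + x * d))
    (f' := fun x : ℝ => deriv (deriv f) (z + x * d) * d) (s := Icc (0 : ℝ) 1)
    (C := k2 * Real.exp (2 * |d.re|) * Real.exp (-2 * |z.re - τ|) * ‖d‖)
    (fun x hx => by
      obtain ⟨a1, a2, -⟩ := seg_strip h1 h2 h3 h4 hx
      have hp : HasDerivAt (fun x : ℝ => z + (x : ℂ) * d) d x := by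
        have := ((Complex.ofRealCLM.hasDerivAt (x := x)).mul_const d).const_add z
        simpa using this
      exact ((h.dd _ a1 a2).hasDerivAt.comp x hp).hasDerivWithinAt)
    (fun x hx => by
      obtain ⟨a1, a2, a3⟩ := seg_strip h1 h2 h3 h4 hx
      rw [norm_mul]
      refine mul_le_mul_of_nonneg_right ((h.d2 _ a1 a2).trans ?_) (norm_nonneg _)
      rw [mul_assoc]
      exact mul_le_mul_of_nonneg_left (exp_shift a3) hk2)
    (convex_Icc _ _) (left_mem_Icc.2 zero_le_one) (right_mem_Icc.2 zero_le_one)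
  simpa using key

/-- **the derivative of the real part along two near paths** -/
theorem DB.dre_disp (h : DB lo hi k k1 k2 τ f) (hk1 : 0 ≤ k1) (hk2 : 0 ≤ k2) {z d z1 d1 : ℂ}
    (h1 : lo ≤ z.im) (h2 : z.im ≤ hi) (h3 : lo ≤ (z + d).im) (h4 : (z + d).im ≤ hi) :
    |(deriv f (z + d) * (z1 + d1)).re - (deriv f z * z1).re| ≤ k * |d1.re| +
      (k2 * ‖d‖ * ‖z1‖ + k1 * ‖d1‖) * Real.exp (2 * |d.re|) * Real.exp (-2 * |z.re - τ|) := by
  obtain ⟨σ, hσ, h5⟩ := h.d1 (z + d) h3 h4
  have e : (deriv f (z + d) * (z1 + d1)).re - (deriv f z * z1).re =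
      ((deriv f (z + d) - deriv f z) * z1).re + (σ * d1.re + ((deriv f (z + d) - σ) * d1).re) := by
    rw [sub_mul, sub_mul, mul_add, Complex.add_re, Complex.sub_re, Complex.sub_re,
      Complex.re_ofReal_mul]
    ring
  rw [e]
  have hre : |(z + d).re - z.re| ≤ |d.re| := by
    rw [Complex.add_re, add_sub_cancel_left]
  have b1 : |((deriv f (z + d) - deriv f z) * z1).re| ≤
      k2 * Real.exp (2 * |d.re|) * Real.exp (-2 * |z.re - τ|) * ‖d‖ * ‖z1‖ := by
    refine (Complex.abs_re_le_norm _).trans ?_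
    rw [norm_mul]
    exact mul_le_mul_of_nonneg_right (h.d_disp hk2 h1 h2 h3 h4) (norm_nonneg _)
  have b2 : |σ * d1.re| ≤ k * |d1.re| := by
    rw [abs_mul]
    exact mul_le_mul_of_nonneg_right hσ (abs_nonneg _)
  have b3 : |((deriv f (z + d) - σ) * d1).re| ≤
      k1 * (Real.exp (2 * |d.re|) * Real.exp (-2 * |z.re - τ|)) * ‖d1‖ := by
    refine (Complex.abs_re_le_norm _).trans ?_
    rw [norm_mul]
    refine mul_le_mul_of_nonneg_right (h5.trans ?_) (norm_nonneg _)
    exact mul_le_mul_of_nonneg_left (exp_shift hre) hk1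
  have b4 := abs_add_le ((deriv f (z + d) - deriv f z) * z1).re
    (σ * d1.re + ((deriv f (z + d) - σ) * d1).re)
  have b5 := abs_add_le (σ * d1.re) ((deriv f (z + d) - σ) * d1).re
  nlinarith

end asy

/-! ### the displacement of a current -/

/-- **the displacement of a current**: sizes; its real part is `O(M / s)` -/
theorem gD_bd (B : SeaCB) : ∃ C : ℝ, 1 ≤ C ∧ ∀ [SeaC] [SeaCU B], ∀ {s ε M b σ : ℝ}
    {e η η1 : ℝ → ℝ}, 0 < σ → σ ≤ s → Cur s ε M b e η → (∀ t, HasDerivAt η (η1 t) t) → ∀ t,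
    ‖gD η t‖ ≤ C * ε ∧ |(gD η t).re| ≤ C * (M / σ) * Real.exp (-|t|) ∧
    ‖gD1 η η1 t‖ ≤ C * ε ∧ |(gD1 η η1 t).re| ≤ C * (M / σ) * Real.exp (-|t|) ∧ ‖ga' t‖ ≤ C := by
  obtain ⟨C1, hC1, H1⟩ := ga'_bd B
  obtain ⟨C2, hC2, H2⟩ := ga2_bd B
  obtain ⟨C3, hC3, H3⟩ := eta_exp B 1
  obtain ⟨C4, hC4, H4⟩ := eta_exp B 2
  obtain ⟨c, hc0, Hc⟩ := le_P B
  have q3 : 0 ≤ C3 / c := by positivity
  have q4 : 0 ≤ C4 / c := by positivity
  refine ⟨C1 + C2 + C3 / c + C4 / c, by linarith,
    @fun _ hS s ε M b σ e η η1 hσ hs hc h1 t => ?_⟩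
  have hε0 := hc.ε0
  have h0 : 0 < s := hσ.trans_le hs
  have hM0 := hc.M0 B h0.le
  have hP := P_pos B t
  have hPl := @Hc _ hS t
  have he0 := hc.nonneg t
  have g0' : |η t| ≤ e t := by
    have := hc.oc.le t
    rwa [iD, norm_mul, Complex.norm_I, mul_one, Complex.norm_real, Real.norm_eq_abs] at this
  have g1' : |η1 t| ≤ e t := by
    have := (hc.oc1 h1).le t
    rwa [iD, norm_mul, Complex.norm_I, mul_one, Complex.norm_real, Real.norm_eq_abs] at this
  have g0 : |η t| ≤ ε := g0'.trans (hc.le t)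
  have g1 : |η1 t| ≤ ε := g1'.trans (hc.le t)
  -- the mass
  have hm := hc.mass t
  have em : e t * (c * Real.exp (-(8 / 3) * |t|)) ≤ M / σ := by
    rw [le_div_iff₀ hσ]
    calc e t * (c * Real.exp (-(8 / 3) * |t|)) * σ ≤ e t * P t * s :=
          mul_le_mul (mul_le_mul_of_nonneg_left hPl he0) hs hσ.le (by positivity)
      _ = s * P t * e t := by ring
      _ ≤ M := hm
  have hX : Real.exp (-(32 / 3) * |t|) = Real.exp (-(8 / 3) * |t|) * Real.exp (-8 * |t|) := by
    rw [← Real.exp_add]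
    congr 1
    ring
  have h8 : Real.exp (-8 * |t|) ≤ Real.exp (-|t|) :=
    Real.exp_le_exp.2 (by have := abs_nonneg t; linarith)
  have hMσ : 0 ≤ M / σ := by positivity
  have hE := Real.exp_pos (-|t|)
  have key : ∀ {x C5 : ℝ}, 0 ≤ C5 → |x| ≤ C5 * Real.exp (-(32 / 3) * |t|) → ∀ {y : ℝ}, |y| ≤ e t →
      |y| * |x| ≤ C5 / c * (M / σ) * Real.exp (-|t|) := by
    intro x C5 h5 hx y hy
    have s1 : |y| * |x| ≤ e t * (C5 * Real.exp (-(32 / 3) * |t|)) :=
      mul_le_mul hy hx (abs_nonneg _) he0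
    refine s1.trans ?_
    rw [hX]
    calc e t * (C5 * (Real.exp (-(8 / 3) * |t|) * Real.exp (-8 * |t|))) =
          C5 / c * (e t * (c * Real.exp (-(8 / 3) * |t|))) * Real.exp (-8 * |t|) := by
          field_simp
      _ ≤ C5 / c * (M / σ) * Real.exp (-|t|) := by
          refine mul_le_mul (mul_le_mul_of_nonneg_left em (by positivity)) h8
            (Real.exp_pos _).le (by positivity)
  have j3 : |deriv eta t| ≤ C3 * Real.exp (-(32 / 3) * |t|) := by
    have := @H3 _ hS t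
    rwa [iteratedDeriv_one] at this
  have j4 := @H4 _ hS t
  have h2 := @H1 _ hS t
  have h3 := @H2 _ hS t
  have hgD : ‖gD η t‖ ≤ ε * C1 := by
    unfold gD iD
    rw [norm_mul, norm_mul, Complex.norm_I, mul_one, Complex.norm_real, Real.norm_eq_abs]
    exact mul_le_mul g0 h2 (norm_nonneg _) hε0
  have hre : (gD η t).re = -(η t * deriv eta t) := by
    unfold gD iD ga'
    simp
  have hre1 : (gD1 η η1 t).re = -(η1 t * deriv eta t + η t * iteratedDeriv 2 eta t) := by
    unfold gD1 iD ga2 ga'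
    simp
    ring
  have hgD1 : ‖gD1 η η1 t‖ ≤ ε * C1 + ε * C2 := by
    unfold gD1 iD
    refine (norm_add_le _ _).trans ?_
    rw [norm_mul, norm_mul, norm_mul, norm_mul, Complex.norm_I, mul_one, mul_one,
      Complex.norm_real, Complex.norm_real, Real.norm_eq_abs, Real.norm_eq_abs]
    exact add_le_add (mul_le_mul g1 h2 (norm_nonneg _) hε0)
      (mul_le_mul g0 h3 (norm_nonneg _) hε0)
  have p1 : 0 ≤ C1 * ((M / σ) * Real.exp (-|t|)) := by
    have : (0 : ℝ) ≤ C1 := by linarith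
    positivity
  have p2 : 0 ≤ C2 * ((M / σ) * Real.exp (-|t|)) := by
    have : (0 : ℝ) ≤ C2 := by linarith
    positivity
  have p3 : 0 ≤ C3 / c * ((M / σ) * Real.exp (-|t|)) := by positivity
  have p4 : 0 ≤ C4 / c * ((M / σ) * Real.exp (-|t|)) := by positivity
  have r3 : 0 ≤ C3 / c * ε := by positivity
  have r4 : 0 ≤ C4 / c * ε := by positivity
  have r2 : 0 ≤ C2 * ε := by nlinarith
  refine ⟨by linarith, ?_, by linarith, ?_, by linarith⟩
  · rw [hre, abs_neg, abs_mul]
    have k3 := key hC3 j3 g0'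
    linarith
  · rw [hre1, abs_neg]
    have h5 := abs_add_le (η1 t * deriv eta t) (η t * iteratedDeriv 2 eta t)
    rw [abs_mul, abs_mul] at h5
    have k3 := key hC3 j3 g1'
    have k4 := key hC4 j4 g0'
    linarith

/-! ### the displacement fields -/

/-- **the displacement fields of the objects** -/
theorem exists_dFC (B : SeaCB) {w kd : ℝ} (hw : 0 < w) : ∃ K : ℝ, 1 ≤ K ∧ ∀ [SeaC] [SeaCU B],
    ∀ {lo hi Cp ε M b : ℝ} {e : ℝ → ℝ} {I : Inp}, IOkC B lo hi Cp ε M b e I → K * ε ≤ 1 →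
    ∀ {σ : ℝ}, 0 < σ → (∀ a, σ ≤ I.s a) →
    ∀ {A ε' c : ℝ} {r : ℕ} {O : Fin r → Oc}, (∀ i, (O i).Ok (lo - w) (hi + w) kd A ε' c) → ∀ a,
    ∃ F' : ℝ → ℝ, (∀ t, HasDerivAt (dFC I O a) (F' t) t) ∧ Continuous F' ∧
      (∀ t, |dFC I O a t| ≤ K * ε * bmaj Finset.univ (fun i => (O i).h) 2 t +
        K * r * (M / σ) * Real.exp (-|t|)) ∧
      ∀ t, |F' t| ≤ K * ε * bmaj Finset.univ (fun i => (O i).h) 2 t +
        K * r * (M / σ) * Real.exp (-|t|) := by
  obtain ⟨C, hC, H⟩ := gD_bd B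
  obtain ⟨ρ, hρd⟩ : ∃ ρ : ℝ, ρ = min (w / 2) (1 / 4) := ⟨_, rfl⟩
  have hρ : 0 < ρ := by rw [hρd]; exact lt_min (by linarith) (by norm_num)
  have hρw : 2 * ρ ≤ w := by
    have := min_le_left (w / 2) (1 / 4 : ℝ)
    rw [← hρd] at this
    linarith
  have hρ4 : ρ ≤ 1 / 4 := by
    rw [hρd]
    exact min_le_right _ _
  have hkd := abs_nonneg kd
  have hkA := kA_nonneg hρ hkd
  have hkB := kB_nonneg hρ hkd
  obtain ⟨k1, hk1⟩ : ∃ k1 : ℝ, k1 = kA ρ |kd| := ⟨_, rfl⟩
  obtain ⟨k2, hk2⟩ : ∃ k2 : ℝ, k2 = kB ρ |kd| := ⟨_, rfl⟩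
  rw [← hk1] at hkA
  rw [← hk2] at hkB
  have hE2 := Real.exp_pos (2 : ℝ)
  obtain ⟨K, hK⟩ : ∃ K : ℝ, K = 1 + C + |kd| * C + (k1 + k2) * Real.exp 2 * (C * (C + 1)) := ⟨_, rfl⟩
  have q1 : 0 ≤ |kd| * C := by positivity
  have q2 : 0 ≤ (k1 + k2) * Real.exp 2 * (C * (C + 1)) := by positivity
  refine ⟨K, by rw [hK]; linarith, @fun _ hS lo hi Cp ε M b e I h hε σ hσ hσs A ε' c r O hO a => ?_⟩
  have hcur := h.cur a
  have hder := h.der a
  have hε0 := hcur.ε0
  have hM0 := hcur.M0 B (h.s0 a)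
  have hMσ : 0 ≤ M / σ := by positivity
  have hCε : C * ε ≤ 1 := by
    refine le_trans (mul_le_mul_of_nonneg_right ?_ hε0) hε
    rw [hK]
    linarith
  have hh := B.h1
  have hh0 := B.h0
  have hl := l_pos
  have hl1 : l ≤ 1 := by
    unfold l
    linarith [Real.pi_le_four]
  have hs1 := h.str.h1
  have hs2 := h.str.h2
  have hs3 := h.str.h3
  have hs4 := h.str.h4
  -- the two paths
  have g1 : ∀ t, lo ≤ (ga t).im := fun t => by
    rw [ga_im]
    have := eta_lo B t
    linarith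
  have hBd := B.d0
  have hBt := B.top0
  have g2 : ∀ t, (ga t).im ≤ hi := fun t => by
    rw [ga_im]
    have := eta_top B t
    linarith
  have z1 : ∀ t, lo ≤ (ga t + gD (I.η a) t).im := fun t => (h.pth a).im_ge t
  have z2 : ∀ t, (ga t + gD (I.η a) t).im ≤ hi := fun t => (h.pth a).im_le t
  have db : ∀ i, DB lo hi |kd| k1 k2 (O i).h ((O i).F a) := by
    intro i
    obtain ⟨c₀, a₀, f₀, hc₀, hA⟩ := (hO i).asy a
    rw [hk1, hk2]
    exact (hA.sub (lo' := lo - 2 * ρ) (hi' := hi + 2 * ρ) (by linarith) (by linarith)).db hρ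
      (le_abs_self _) (hc₀.trans (le_abs_self _)) (by linarith) (by linarith) (by linarith)
      (by linarith) fun z h1 h2 => (hO i).diff a z (by linarith) (by linarith)
  have dga : ∀ t, HasDerivAt ga (ga' t) t := hasDerivAt_ga
  have dze : ∀ t, HasDerivAt (fun t => ga t + gD (I.η a) t) (ga' t + gD1 (I.η a) (I.η1 a) t) t :=
    fun t => (hasDerivAt_ga t).add (hasDerivAt_gD hder t)
  have d0 : ∀ i t, HasDerivAt (fun t => ((O i).F a (ga t)).re) (deriv ((O i).F a) (ga t) * ga' t).re t :=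
    fun i t => by
      have h5 := ((db i).d _ (g1 t) (g2 t)).hasDerivAt.comp t (dga t)
      exact Complex.reCLM.hasFDerivAt.comp_hasDerivAt t h5
  have d1 : ∀ i t, HasDerivAt (fun t => ((O i).F a (ga t + gD (I.η a) t)).re)
      (deriv ((O i).F a) (ga t + gD (I.η a) t) * (ga' t + gD1 (I.η a) (I.η1 a) t)).re t :=
    fun i t => by
      have h5 := ((db i).d _ (z1 t) (z2 t)).hasDerivAt.comp t (dze t)
      exact Complex.reCLM.hasFDerivAt.comp_hasDerivAt t h5
  have hexp : ∀ t, Real.exp (2 * |(gD (I.η a) t).re|) ≤ Real.exp 2 := fun t => by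
    obtain ⟨b1, -, -, -, -⟩ := @H _ hS _ _ _ _ _ _ _ _ hσ (hσs a) hcur hder t
    refine Real.exp_le_exp.2 ?_
    have := (Complex.abs_re_le_norm (gD (I.η a) t)).trans b1
    linarith
  have hsum : ∀ t, K * ε * bmaj Finset.univ (fun i => (O i).h) 2 t +
      K * r * (M / σ) * Real.exp (-|t|) =
      ∑ i, (K * ε * Real.exp (-2 * |t - (O i).h|) + K * (M / σ) * Real.exp (-|t|)) := by
    intro t
    rw [Finset.sum_add_distrib, ← Finset.mul_sum, Finset.sum_const, Finset.card_univ,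
      Fintype.card_fin, nsmul_eq_mul, bmaj]
    have e1 : ∀ i, Real.exp (-2 * |t - (O i).h|) = Real.exp (-(2 * |t - (O i).h|)) := fun i => by
      rw [neg_mul]
    simp only [e1]
    ring
  have hKc : |kd| * C ≤ K := by rw [hK]; linarith
  have a3 : ∀ t, |kd| * (C * (M / σ) * Real.exp (-|t|)) ≤ K * (M / σ) * Real.exp (-|t|) := fun t => by
    have hE' := Real.exp_pos (-|t|)
    calc |kd| * (C * (M / σ) * Real.exp (-|t|)) = |kd| * C * ((M / σ) * Real.exp (-|t|)) := by ring
      _ ≤ K * ((M / σ) * Real.exp (-|t|)) := mul_le_mul_of_nonneg_right hKc (by positivity)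
      _ = _ := by ring
  refine ⟨fun t => ∑ i, ((deriv ((O i).F a) (ga t + gD (I.η a) t) *
      (ga' t + gD1 (I.η a) (I.η1 a) t)).re - (deriv ((O i).F a) (ga t) * ga' t).re),
    fun t => ?_, ?_, fun t => ?_, fun t => ?_⟩
  · have e1 : dFC I O a = fun t => ∑ i, (((O i).F a (ga t + gD (I.η a) t)).re -
        ((O i).F a (ga t)).re) := rfl
    rw [e1]
    exact HasDerivAt.fun_sum fun i _ => (d1 i t).sub (d0 i t)
  · refine continuous_finsetSum _ fun i _ => ?_
    have hc : ContinuousOn (deriv ((O i).F a)) {z : ℂ | lo ≤ z.im ∧ z.im ≤ hi} := fun z hz =>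
      ((db i).dd z hz.1 hz.2).continuousAt.continuousWithinAt
    have c1 : Continuous fun t => deriv ((O i).F a) (ga t) :=
      hc.comp_continuous continuous_ga fun t => ⟨g1 t, g2 t⟩
    have c2 : Continuous fun t => deriv ((O i).F a) (ga t + gD (I.η a) t) :=
      hc.comp_continuous (continuous_iff_continuousAt.2 fun t => (dze t).continuousAt)
        fun t => ⟨z1 t, z2 t⟩
    have c3 : Continuous fun t => ga' t + gD1 (I.η a) (I.η1 a) t := (h.pth a).cont
    exact (Complex.continuous_re.comp (c2.mul c3)).sub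
      (Complex.continuous_re.comp (c1.mul continuous_ga'))
  · rw [hsum]
    refine (Finset.abs_sum_le_sum_abs _ _).trans (Finset.sum_le_sum fun i _ => ?_)
    obtain ⟨b1, b2, -, -, -⟩ := @H _ hS _ _ _ _ _ _ _ _ hσ (hσs a) hcur hder t
    have key := (db i).re_disp hkA (g1 t) (g2 t) (z1 t) (z2 t)
    rw [ga_re] at key
    refine key.trans ?_
    have hE := Real.exp_pos (-2 * |t - (O i).h|)
    have hE' := Real.exp_pos (-|t|)
    have a1 : |kd| * |(gD (I.η a) t).re| ≤ |kd| * (C * (M / σ) * Real.exp (-|t|)) :=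
      mul_le_mul_of_nonneg_left b2 hkd
    have a2 : k1 * Real.exp (2 * |(gD (I.η a) t).re|) * Real.exp (-2 * |t - (O i).h|) *
        ‖gD (I.η a) t‖ ≤ k1 * Real.exp 2 * Real.exp (-2 * |t - (O i).h|) * (C * ε) := by
      refine mul_le_mul (mul_le_mul_of_nonneg_right (mul_le_mul_of_nonneg_left (hexp t) hkA) hE.le)
        b1 (norm_nonneg _) (by positivity)
    have a4 : k1 * Real.exp 2 * Real.exp (-2 * |t - (O i).h|) * (C * ε) ≤
        K * ε * Real.exp (-2 * |t - (O i).h|) := by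
      have : k1 * Real.exp 2 * C ≤ K := by
        have h6 : k1 * Real.exp 2 * C ≤ (k1 + k2) * Real.exp 2 * (C * (C + 1)) := by
          have h7 : C ≤ C * (C + 1) := by nlinarith
          refine mul_le_mul (mul_le_mul_of_nonneg_right (by linarith) hE2.le) h7 (by linarith)
            (by positivity)
        rw [hK]
        linarith
      calc k1 * Real.exp 2 * Real.exp (-2 * |t - (O i).h|) * (C * ε) =
          k1 * Real.exp 2 * C * (ε * Real.exp (-2 * |t - (O i).h|)) := by ring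
        _ ≤ K * (ε * Real.exp (-2 * |t - (O i).h|)) :=
          mul_le_mul_of_nonneg_right this (by positivity)
        _ = _ := by ring
    have := a3 t
    linarith
  · rw [hsum]
    refine (Finset.abs_sum_le_sum_abs _ _).trans (Finset.sum_le_sum fun i _ => ?_)
    obtain ⟨b1, b2, b3, b4, b5⟩ := @H _ hS _ _ _ _ _ _ _ _ hσ (hσs a) hcur hder t
    have key := (db i).dre_disp hkA hkB (z1 := ga' t) (d1 := gD1 (I.η a) (I.η1 a) t) (g1 t) (g2 t)
      (z1 t) (z2 t)
    rw [ga_re] at key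
    refine key.trans ?_
    have hE := Real.exp_pos (-2 * |t - (O i).h|)
    have hE' := Real.exp_pos (-|t|)
    have a1 : |kd| * |(gD1 (I.η a) (I.η1 a) t).re| ≤ |kd| * (C * (M / σ) * Real.exp (-|t|)) :=
      mul_le_mul_of_nonneg_left b4 hkd
    have a0 : k2 * ‖gD (I.η a) t‖ * ‖ga' t‖ + k1 * ‖gD1 (I.η a) (I.η1 a) t‖ ≤
        (k1 + k2) * (C * (C + 1)) * ε := by
      have s1 : k2 * ‖gD (I.η a) t‖ * ‖ga' t‖ ≤ k2 * (C * ε) * C :=
        mul_le_mul (mul_le_mul_of_nonneg_left b1 hkB) b5 (norm_nonneg _) (by positivity)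
      have s2 : k1 * ‖gD1 (I.η a) (I.η1 a) t‖ ≤ k1 * (C * ε) := mul_le_mul_of_nonneg_left b3 hkA
      have s3 : 0 ≤ k1 * ε * (C * C) := by positivity
      have s4 : 0 ≤ k2 * ε * C := by positivity
      nlinarith
    have a2 : (k2 * ‖gD (I.η a) t‖ * ‖ga' t‖ + k1 * ‖gD1 (I.η a) (I.η1 a) t‖) *
        Real.exp (2 * |(gD (I.η a) t).re|) * Real.exp (-2 * |t - (O i).h|) ≤
        (k1 + k2) * (C * (C + 1)) * ε * Real.exp 2 * Real.exp (-2 * |t - (O i).h|) := by
      refine mul_le_mul_of_nonneg_right ?_ hE.le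
      exact mul_le_mul a0 (hexp t) (Real.exp_pos _).le (by positivity)
    have a4 : (k1 + k2) * (C * (C + 1)) * ε * Real.exp 2 * Real.exp (-2 * |t - (O i).h|) ≤
        K * ε * Real.exp (-2 * |t - (O i).h|) := by
      have : (k1 + k2) * Real.exp 2 * (C * (C + 1)) ≤ K := by rw [hK]; linarith
      calc (k1 + k2) * (C * (C + 1)) * ε * Real.exp 2 * Real.exp (-2 * |t - (O i).h|) =
          (k1 + k2) * Real.exp 2 * (C * (C + 1)) * (ε * Real.exp (-2 * |t - (O i).h|)) := by ring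
        _ ≤ K * (ε * Real.exp (-2 * |t - (O i).h|)) :=
          mul_le_mul_of_nonneg_right this (by positivity)
        _ = _ := by ring
    have := a3 t
    linarith

end

end PLT.Cv
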