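import Pool.Agent.PLT.PhiE
import Pool.Agent.PLT.Gas2

/-!
# Size of the quadratic part of the one body potential around a static curve

* `stat_bd`: `∫ Im (Up Uc ga t y) g y`, `|g| ≤ A + κ`: value and increments `≤ K A e^{-|t|/2} + K κ Wb b t`;
* `exists_phi1C`: the own curve; `sum_KB_two`: the one body potential of two curves;
* **`exists_phiQC`**: two curves with almost the same current: `Q_a = Re ∑ KB a d` is `C¹` on the line,
  `|Q_a| ≤ K M ε (Wb b + 1) + K A e^{-|t|/8}`, `|Q_a'| ≤ K M ε Wb b + K A e^{-|t|/8}`.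
-/

set_option autoImplicit false
set_option linter.unusedSectionVars false
set_option linter.unusedVariables false

open MeasureTheory Set Filter Topology Complex
open scoped ContDiff

namespace PLT.Cv

open NUMF (l l_pos V)
open NUAct (Us Ux Uxd Uc Ud Up gr Kern OC Gas Up_Uc Up_meas Uc_meas ae_ne' Wt Wb Wt_nonneg Wt_int Wb_nonneg
  wt_bd wt_re)
open NUKer (iD)
open NUSea.PLX (Com)

noncomputable section

/-! ### the static term -/

lemma E2_integrable (t : ℝ) : Integrable (fun y => E2 t y) := by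
  have h := (NUAct.int_exp_abs' (κ := 1 / 4) (by norm_num)).comp_sub_left t
  refine (h.mul_const (Real.exp (-(|t| / 2)))).congr (Eventually.of_forall fun y => ?_)
  unfold E2
  simp only
  congr 2
  ring

/-- the mass of `e^{-|y|/4}` -/
def J4 : ℝ := ∫ y : ℝ, Real.exp (-(1 / 4) * |y|)

lemma J4_nonneg : 0 ≤ J4 := integral_nonneg fun _ => (Real.exp_pos _).le

lemma E2_integral (t : ℝ) : ∫ y, E2 t y = J4 * Real.exp (-(|t| / 2)) := by
  have e : (fun y => E2 t y) = fun y => Real.exp (-(1 / 4) * |t - y|) * Real.exp (-(|t| / 2)) := by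
    funext y
    unfold E2
    congr 2
    ring
  rw [e, integral_mul_const, integral_sub_left_eq_self (fun y : ℝ => Real.exp (-(1 / 4) * |y|)) volume t]
  rfl

section

variable (B : SeaCB) [SeaC] [SeaCU B]

include B

/-- integrability of the static term -/
lemma stat_int {g : ℝ → ℝ} {b : ℝ} (hg : Continuous g) (hs : ∀ y, b < |y| → g y = 0) (t : ℝ) :
    Integrable fun y => (Up Uc ga t y).im * g y := by
  obtain ⟨K, hK, HK⟩ := ker_im B
  have hc : HasCompactSupport g := by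
    refine HasCompactSupport.intro (isCompact_Icc (a := -b) (b := b)) fun y hy => hs y ?_
    by_contra h
    exact hy (abs_le.1 (not_lt.1 h))
  have hi : Integrable g := hg.integrable_of_hasCompactSupport hc
  have mU : Measurable fun y : ℝ => Up Uc ga t y :=
    (Up_meas Uc_meas continuous_ga).comp (measurable_const.prodMk measurable_id)
  refine (hi.norm.const_mul K).mono' ((Complex.measurable_im.comp mU).mul hg.measurable).aestronglyMeasurable ?_
  filter_upwards [ae_ne' t] with y hy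
  have h1 := (HK t y (Ne.symm hy)).1.1
  have h2 : Real.exp (-|t - y|) ≤ 1 := Real.exp_le_one_iff.2 (by simp)
  rw [norm_mul, Real.norm_eq_abs]
  exact mul_le_mul_of_nonneg_right (h1.trans (mul_le_of_le_one_right (by linarith) h2)) (norm_nonneg _)

end

/-- **the static term**: value and increments -/
theorem stat_bd (B : SeaCB) : ∃ K : ℝ, 1 ≤ K ∧ ∀ [SeaC] [SeaCU B], ∀ {g : ℝ → ℝ} {A κ b : ℝ},
    Continuous g → (∀ y, b < |y| → g y = 0) → (∀ y, |g y| ≤ A + κ) → 0 ≤ A → 0 ≤ κ → ∀ t,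
    |∫ y, (Up Uc ga t y).im * g y| ≤ K * κ * Wb b t + K * A * Real.exp (-(|t| / 2)) ∧
    ∀ t', |t' - t| ≤ 1 / 2 → |(∫ y, (Up Uc ga t' y).im * g y) - ∫ y, (Up Uc ga t y).im * g y| ≤
      (K * κ * Wb b t + K * A * Real.exp (-(|t| / 2))) * |t' - t| := by
  obtain ⟨K1, hK1, HK1⟩ := ker_im B
  obtain ⟨K2, hK2, HK2⟩ := ker_im_lip B
  have hJ := J4_nonneg
  obtain ⟨K, hK⟩ : ∃ K, K = K1 + K2 := ⟨_, rfl⟩
  have hK0 : 0 < K := by linarith
  refine ⟨K + K * J4, by
    have : 0 ≤ K * J4 := by positivity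
    linarith, @fun _ _ g A κ b hg hs hgA hA hκ t => ?_⟩
  have hWb := Wb_nonneg b t
  have hEt := Real.exp_pos (-(|t| / 2))
  -- the general bound
  have gen : ∀ {F : ℝ → ℝ} {c : ℝ}, 0 ≤ c → (∀ y, b < |y| → F y = 0) →
      (∀ y, y ≠ t → |F y| ≤ c * (K * κ * Real.exp (-|t - y|) + K * A * E2 t y)) →
      |∫ y, F y| ≤ c * ((K + K * J4) * κ * Wb b t + (K + K * J4) * A * Real.exp (-(|t| / 2))) := by
    intro F c hc hF hb
    have e1 : ∫ y, F y = ∫ y in Icc (-b) b, F y := by
      refine (setIntegral_eq_integral_of_forall_compl_eq_zero fun y hy => ?_).symm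
      exact hF y (by
        by_contra h3
        exact hy (abs_le.1 (not_lt.1 h3)))
    have iW := (Wt_int.comp_sub_left t).integrableOn (s := Icc (-b) b)
    have iE := (E2_integrable t).integrableOn (s := Icc (-b) b)
    rw [e1, ← Real.norm_eq_abs]
    refine (norm_integral_le_of_norm_le (((iW.const_mul (K * κ)).add (iE.const_mul (K * A))).const_mul c)
      ?_).trans ?_
    · filter_upwards [ae_restrict_of_ae (ae_ne' t)] with y hy
      rw [Real.norm_eq_abs]
      refine (hb y hy).trans (mul_le_mul_of_nonneg_left ?_ hc)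
      refine add_le_add ?_ le_rfl
      refine mul_le_mul_of_nonneg_left ?_ (by positivity)
      unfold Wt
      linarith [abs_nonneg (V (t - y))]
    · rw [integral_const_mul]
      refine mul_le_mul_of_nonneg_left ?_ hc
      simp only [Pi.add_apply]
      rw [integral_add (iW.const_mul _) (iE.const_mul _), integral_const_mul, integral_const_mul]
      have h1 : ∫ y in Icc (-b) b, Wt (t - y) = Wb b t := rfl
      have h2 : ∫ y in Icc (-b) b, E2 t y ≤ J4 * Real.exp (-(|t| / 2)) := by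
        rw [← E2_integral]
        exact setIntegral_le_integral (E2_integrable t) (Eventually.of_forall fun y => (E2_pos t y).le)
      rw [h1]
      have p1 : 0 ≤ K * J4 * κ * Wb b t := by positivity
      have p2 : 0 ≤ K * A * Real.exp (-(|t| / 2)) := by positivity
      calc K * κ * Wb b t + K * A * ∫ y in Icc (-b) b, E2 t y ≤
            K * κ * Wb b t + K * A * (J4 * Real.exp (-(|t| / 2))) := by gcongr
        _ ≤ _ := by nlinarith
  constructor
  · have h := gen (F := fun y => (Up Uc ga t y).im * g y) zero_le_one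
      (fun y hy => by rw [hs y hy, mul_zero]) (fun y hy => by
        obtain ⟨⟨h1, h2⟩, -⟩ := HK1 t y (Ne.symm hy)
        have hE := Real.exp_pos (-|t - y|)
        have hE2 := E2_pos t y
        rw [abs_mul, one_mul]
        calc |(Up Uc ga t y).im| * |g y| ≤ |(Up Uc ga t y).im| * (A + κ) :=
              mul_le_mul_of_nonneg_left (hgA y) (abs_nonneg _)
          _ = |(Up Uc ga t y).im| * κ + |(Up Uc ga t y).im| * A := by ring
          _ ≤ (K1 * Real.exp (-|t - y|)) * κ + (K1 * E2 t y) * A := by gcongr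
          _ ≤ (K * Real.exp (-|t - y|)) * κ + (K * E2 t y) * A := by
              have : K1 ≤ K := by linarith
              gcongr
          _ = _ := by ring)
    rwa [one_mul] at h
  · intro t' ht'
    rw [← integral_sub (stat_int B hg hs t') (stat_int B hg hs t)]
    have h0 := abs_nonneg (t' - t)
    have h : |∫ y, ((Up Uc ga t' y).im * g y - (Up Uc ga t y).im * g y)| ≤
        |t' - t| * ((K + K * J4) * κ * Wb b t + (K + K * J4) * A * Real.exp (-(|t| / 2))) := by
      have e1 : ∫ y, ((Up Uc ga t' y).im * g y - (Up Uc ga t y).im * g y) =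
          ∫ y, (if y = t' then 0 else ((Up Uc ga t' y).im * g y - (Up Uc ga t y).im * g y)) := by
        refine integral_congr_ae ?_
        filter_upwards [ae_ne' t'] with y hy
        rw [if_neg hy]
      rw [e1]
      refine gen h0 (fun y hy => ?_) (fun y hy => ?_)
      · split_ifs
        · rfl
        · rw [hs y hy, mul_zero, mul_zero, sub_zero]
      · have hE := Real.exp_pos (-|t - y|)
        have hE2 := E2_pos t y
        split_ifs with hy'
        · rw [abs_zero]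
          positivity
        · obtain ⟨h1, h2⟩ := HK2 t t' y (Ne.symm hy) (Ne.symm hy') ht'
          rw [← sub_mul, abs_mul]
          obtain ⟨x, hx⟩ : ∃ x, x = |(Up Uc ga t' y).im - (Up Uc ga t y).im| := ⟨_, rfl⟩
          rw [← hx] at h1 h2 ⊢
          have hx0 : 0 ≤ x := by rw [hx]; exact abs_nonneg _
          calc x * |g y| ≤ x * (A + κ) := mul_le_mul_of_nonneg_left (hgA y) hx0
            _ = x * κ + x * A := by ring
            _ ≤ (K2 * |t' - t| * Real.exp (-|t - y|)) * κ + (K2 * |t' - t| * E2 t y) * A := by gcongr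
            _ ≤ (K * |t' - t| * Real.exp (-|t - y|)) * κ + (K * |t' - t| * E2 t y) * A := by
                have : K2 ≤ K := by linarith
                gcongr
            _ = _ := by ring
    refine h.trans (le_of_eq ?_)
    ring

/-! ### the own curve -/

section

variable (B : SeaCB) [SeaC] [SeaCU B] {s ε M R : ℝ} {δ δ1 δ2 : ℝ → ℂ}

include B

/-- integrability -/
lemma KF_int (D : Disp s ε M R δ δ1 δ2) (hε : ε ≤ B.r) {f f1 : ℝ → ℂ} (cf : Continuous f)
    (cf1 : Continuous f1) (z0 : ∀ y, R ≤ |y| → f y = 0 ∧ f1 y = 0) (t : ℝ) :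
    Integrable (fun y => QZ δ δ1 t y * f y + Up Uc (zt δ) t y * f1 y) ∧
      Integrable fun y => Up Uc (zt δ) t y * f y := by
  obtain ⟨bd, bi, hbd⟩ := KF_dom B D hε cf cf1 z0 t
  obtain ⟨C, hC, H⟩ := Disp_path B
  obtain ⟨-, hP⟩ := H D hε
  have mU : Measurable fun p : ℝ × ℝ => Up Uc (zt δ) p.1 p.2 := Up_meas Uc_meas hP.continuous
  have mQ := QZ_meas B D
  have mB := cf.measurable
  have mB1 := cf1.measurable
  have mU1 : Measurable fun u : ℝ => Up Uc (zt δ) t (t + u) :=
    mU.comp (measurable_const.prodMk (measurable_const.add measurable_id))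
  have mQ1 : Measurable fun u : ℝ => QZ δ δ1 t (t + u) :=
    mQ.comp (measurable_const.prodMk (measurable_const.add measurable_id))
  have back : ∀ {g : ℝ → ℂ}, Integrable (fun u => g (t + u)) → Integrable g := by
    intro g hg
    have h1 := hg.comp_add_left (-t)
    refine h1.congr (Eventually.of_forall fun u => ?_)
    simp only
    congr 1
    ring
  constructor
  · refine back (bi.mono' ((mQ1.mul (mB.comp (measurable_const.add measurable_id))).add
      (mU1.mul (mB1.comp (measurable_const.add measurable_id)))).aestronglyMeasurable ?_)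
    filter_upwards [ae_ne' 0] with u hu
    exact (hbd t u (by simp) hu).1
  · refine back (bi.mono' (mU1.mul (mB.comp (measurable_const.add measurable_id))).aestronglyMeasurable ?_)
    filter_upwards [ae_ne' 0] with u hu
    exact (hbd t u (by simp) hu).2

lemma Disp_zero (s R : ℝ) : Disp s 0 0 R (fun _ => 0) (fun _ => 0) fun _ => 0 where
  d0 t := hasDerivAt_const t 0
  d1 t := hasDerivAt_const t 0
  c2 := continuous_const
  e0 t := by simp
  e1 t := by simp
  e2 t := by simp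
  m0 t := by simp
  m1 t := by simp
  m2 t := by simp
  supp t _ := ⟨rfl, rfl, rfl⟩

end

/-- **the own part of the quadratic part of the one body potential** -/
theorem exists_phi1C (B : SeaCB) : ∃ K : ℝ, 1 ≤ K ∧ ∀ [SeaC] [SeaCU B], ∀ {s ε M b A κ : ℝ}
    {e η η1 : ℝ → ℝ}, 0 ≤ s → 0 ≤ b → K * ε ≤ 1 → Cur s ε M b e η → (∀ t, HasDerivAt η (η1 t) t) →
    0 ≤ A → 0 ≤ κ → (∀ t, |hd s η η1 t| ≤ A + κ) →
    ∃ Q' : ℝ → ℝ, Continuous Q' ∧ (∀ t, HasDerivAt (fun t =>
      (∫ y, Up Uc (zt (gD η)) t y * Bf s (gD η) (gD1 η η1) y).re) (Q' t) t) ∧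
    (∀ t, |(∫ y, Up Uc (zt (gD η)) t y * Bf s (gD η) (gD1 η η1) y).re| ≤
      K * (M * ε + κ) * Wb b t + K * A * Real.exp (-(|t| / 2))) ∧
    (∀ t, |Q' t| ≤ K * (M * ε + κ) * Wb b t + K * A * Real.exp (-(|t| / 2))) := by
  obtain ⟨C1, h1, H1⟩ := Br_OC B 3
  obtain ⟨C2, h2, H2⟩ := af_OC B 3
  obtain ⟨G, hG, hg⟩ := gD_OC B
  obtain ⟨C3, h3, H3⟩ := Cur_disp B
  obtain ⟨K, hK, HK⟩ := exists_kerC B
  obtain ⟨Ks, hKs, HS⟩ := stat_bd B
  have hh := B.r0
  have hG0 : 0 < G := by linarith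
  obtain ⟨X, hX⟩ : ∃ X, X = C1 * G ^ 2 := ⟨_, rfl⟩
  obtain ⟨Y, hY⟩ : ∃ Y, Y = C2 * G := ⟨_, rfl⟩
  have hX0 : 0 < X := by rw [hX]; positivity
  have hY0 : 0 < Y := by rw [hY]; positivity
  obtain ⟨Z, hZ⟩ : ∃ Z, Z = 2 * (K * C3 * (X + Y)) + 2 * (K * X) + X := ⟨_, rfl⟩
  have hZ0 : 0 < Z := by rw [hZ]; positivity
  obtain ⟨KK, hKK⟩ : ∃ KK, KK = 1 + Z + Ks + C3 / B.r + G / B.r := ⟨_, rfl⟩
  have hd1 : 0 < C3 / B.r := by positivity
  have hd2 : 0 < G / B.r := by positivity
  have hKK1 : 1 ≤ KK := by linarith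
  refine ⟨KK, hKK1, @fun _ _ s ε M b A κ e η η1 hs hb hε hc hη hA hκ hhd => ?_⟩
  have hM := hc.M0 B hs
  have hε0 := hc.ε0
  have hε1 : ε ≤ 1 := by nlinarith
  have hMε : 0 ≤ M * ε := mul_nonneg hM hε0
  have hMεM : M * ε ≤ M := mul_le_of_le_one_right hM hε1
  have hsm : ∀ {c : ℝ}, c / B.r ≤ KK → c * ε ≤ B.r := by
    intro c hc
    have q1 : c / B.r * ε ≤ 1 := (mul_le_mul_of_nonneg_right hc hε0).trans hε
    have q2 : c / B.r * ε * B.r = c * ε := by field_simp
    nlinarith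
  have hε3 : C3 * ε ≤ B.r := hsm (by linarith)
  have hεG : G * ε ≤ B.r := hsm (by linarith)
  obtain ⟨δ2, D, -⟩ := H3 hs hc hη
  have D0 := Disp_zero B s (b + 1)
  have h00 : (0:ℝ) ≤ B.r := hh.le
  obtain ⟨o0', o1⟩ := hg hc hη
  have o0 := o0'.lower
  have hse : ∀ t, G * e t ≤ B.r := fun t => (mul_le_mul_of_nonneg_left (hc.le t) hG0.le).trans hεG
  have b1 := H1 hs (hasDerivAt_gD hη) o0 o1 hse
  have b2 := H2 hs o0 o1
  have m1 : ∀ t, C1 * (s * P t * (G * e t) ^ 2) ≤ X * (M * ε) := fun t => by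
    have q1 := hc.mass t
    have q2 := hc.le t
    have q3 := hc.nonneg t
    calc C1 * (s * P t * (G * e t) ^ 2) = X * ((s * P t * e t) * e t) := by rw [hX]; ring
      _ ≤ X * (M * ε) := by gcongr
  have m2 : ∀ t, C2 * (s * P t * (G * e t)) ≤ Y * M := fun t => by
    have q1 := hc.mass t
    calc C2 * (s * P t * (G * e t)) = Y * (s * P t * e t) := by rw [hY]; ring
      _ ≤ _ := by gcongr
  have z1 : ∀ t, b < |t| → C1 * (s * P t * (G * e t) ^ 2) = 0 := fun t ht => by
    rw [hc.supp t ht]; ring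
  have z2 : ∀ t, b < |t| → C2 * (s * P t * (G * e t)) = 0 := fun t ht => by
    rw [hc.supp t ht]; ring
  obtain ⟨-, r1, hr1, or1⟩ := id b1
  obtain ⟨-, a1, ha1, oa1⟩ := id b2
  obtain ⟨Br', hBr'⟩ : ∃ f, f = Br s (gD η) (gD1 η η1) := ⟨_, rfl⟩
  obtain ⟨af', haf'⟩ : ∃ f, f = af s (gD η) (gD1 η η1) := ⟨_, rfl⟩
  obtain ⟨Bf', hBf'⟩ : ∃ f, f = Bf s (gD η) (gD1 η η1) := ⟨_, rfl⟩
  have eB : ∀ y, Bf' y = af' y + Br' y := fun y => by rw [hBf', haf', hBr']; exact Bf_eq _ _ _ _
  rw [← hBr'] at b1 hr1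
  rw [← haf'] at b2 ha1
  have haf2 : ∀ y, af' y = (hd s η η1 y : ℂ) * I := fun y => by rw [haf']; exact af_eq B s η η1 y
  have hhdc : Continuous (hd s η η1) := by
    have := b2.cont
    rw [haf'] at this
    exact Complex.continuous_im.comp this
  rw [← hBf']
  -- bounds
  have nr : ∀ y, ‖Br' y‖ ≤ X * (M * ε) := fun y => (b1.le y).trans (m1 y)
  have nr1 : ∀ y, ‖r1 y‖ ≤ X * (M * ε) := fun y => (or1.le y).trans (m1 y)
  have na : ∀ y, ‖af' y‖ ≤ Y * M := fun y => (b2.le y).trans (m2 y)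
  have na1 : ∀ y, ‖a1 y‖ ≤ Y * M := fun y => (oa1.le y).trans (m2 y)
  have zr : ∀ y, b < |y| → Br' y = 0 := fun y hy => by
    have := b1.le y
    rw [z1 y hy] at this
    exact norm_le_zero_iff.1 this
  have zr1 : ∀ y, b < |y| → r1 y = 0 := fun y hy => by
    have := or1.le y
    rw [z1 y hy] at this
    exact norm_le_zero_iff.1 this
  have za : ∀ y, b < |y| → af' y = 0 := fun y hy => by
    have := b2.le y
    rw [z2 y hy] at this
    exact norm_le_zero_iff.1 this
  have za1 : ∀ y, b < |y| → a1 y = 0 := fun y hy => by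
    have := oa1.le y
    rw [z2 y hy] at this
    exact norm_le_zero_iff.1 this
  have hXM : X * (M * ε) ≤ X * M := mul_le_mul_of_nonneg_left hMεM hX0.le
  have nB : ∀ y, ‖Bf' y‖ ≤ (X + Y) * M := fun y => by
    rw [eB]
    refine (norm_add_le _ _).trans ?_
    linarith [na y, nr y]
  have nB1 : ∀ y, ‖a1 y + r1 y‖ ≤ (X + Y) * M := fun y => by
    refine (norm_add_le _ _).trans ?_
    linarith [na1 y, nr1 y]
  have hBd : ∀ t, HasDerivAt Bf' (a1 t + r1 t) t := fun t => by
    have : Bf' = fun y => af' y + Br' y := funext eB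
    rw [this]
    exact (ha1 t).add (hr1 t)
  have cB : Continuous Bf' := continuous_iff_continuousAt.2 fun t => (hBd t).continuousAt
  have cB1 : Continuous fun t => a1 t + r1 t := oa1.cont.add or1.cont
  have supB : ∀ y, b + 1 ≤ |y| → Bf' y = 0 ∧ a1 y + r1 y = 0 := fun y hy => by
    have hy' : b < |y| := by linarith
    rw [eB, za y hy', zr y hy', za1 y hy', zr1 y hy']
    simp
  have supA : ∀ y, b + 1 ≤ |y| → af' y = 0 ∧ a1 y = 0 := fun y hy =>
    ⟨za y (by linarith), za1 y (by linarith)⟩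
  have zt0 : zt (fun _ => (0:ℂ)) = ga := by
    funext u
    unfold zt
    ring
  -- the two potentials
  have dI := hasDerivAt_KF B D hε3 hBd cB1 supB
  have dJ := hasDerivAt_KF B D0 h00 ha1 oa1.cont supA
  rw [zt0] at dJ
  have cI := continuous_KF1 B D hε3 hBd cB1 supB
  have iI := KF_int B D hε3 cB cB1 supB
  have iJ := KF_int B D0 h00 b2.cont oa1.cont supA
  rw [zt0] at iJ
  -- the real part of the static potential
  have reJ : ∀ t, (∫ y, Up Uc ga t y * af' y).re = -∫ y, (Up Uc ga t y).im * hd s η η1 y := by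
    intro t
    have e1 : (∫ y, Up Uc ga t y * af' y).re = ∫ y, (Up Uc ga t y * af' y).re := (integral_re (iJ t).2).symm
    rw [e1, ← integral_neg]
    refine integral_congr_ae (Eventually.of_forall fun y => ?_)
    simp only
    rw [haf2, ← mul_assoc, Complex.mul_I_re, Complex.im_mul_ofReal]
  have hds : ∀ y, b < |y| → hd s η η1 y = 0 := fun y hy => by
    have h4 := za y hy
    rw [haf2] at h4
    have h5 := (mul_eq_zero.1 h4).resolve_right Complex.I_ne_zero
    exact_mod_cast h5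
  have st := fun t => HS hhdc hds hhd hA hκ t
  have dJr : ∀ t, HasDerivAt (fun t => (∫ y, Up Uc ga t y * af' y).re)
      (∫ y, (QZ (fun _ => 0) (fun _ => 0) t y * af' y + Up Uc ga t y * a1 y)).re t := fun t =>
    Complex.reCLM.hasFDerivAt.comp_hasDerivAt t (dJ t)
  have J1 : ∀ t, |(∫ y, (QZ (fun _ => 0) (fun _ => 0) t y * af' y + Up Uc ga t y * a1 y)).re| ≤
      Ks * κ * Wb b t + Ks * A * Real.exp (-(|t| / 2)) := by
    intro t
    have hc0 : 0 ≤ Ks * κ * Wb b t + Ks * A * Real.exp (-(|t| / 2)) := by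
      have := Wb_nonneg b t
      positivity
    rw [← Real.norm_eq_abs]
    refine (dJr t).le_of_lip' hc0 ?_
    have hball : Metric.ball t (1 / 2) ∈ 𝓝 t := Metric.ball_mem_nhds t (by norm_num)
    filter_upwards [hball] with t' ht'
    rw [Metric.mem_ball, Real.dist_eq] at ht'
    rw [reJ, reJ, Real.norm_eq_abs, Real.norm_eq_abs]
    have e1 : -(∫ y, (Up Uc ga t' y).im * hd s η η1 y) - -(∫ y, (Up Uc ga t y).im * hd s η η1 y) =
        -((∫ y, (Up Uc ga t' y).im * hd s η η1 y) - ∫ y, (Up Uc ga t y).im * hd s η η1 y) := by ring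
    rw [e1, abs_neg]
    exact (st t).2 t' ht'.le
  -- kernels
  have k0 : ∀ t y, y ≠ t → ‖Up Uc (zt (gD η)) t y - Up Uc ga t y‖ ≤ K * C3 * ε * Real.exp (-|t - y|) ∧
      ‖QZ (gD η) (gD1 η η1) t y - QZ (fun _ => 0) (fun _ => 0) t y‖ ≤ K * C3 * ε * Real.exp (-|t - y|) ∧
      ‖QZ (fun _ => 0) (fun _ => 0) t y‖ ≤ K * Real.exp (-|t - y|) ∧
      ‖Up Uc ga t y‖ ≤ |V (t - y)| + K * Real.exp (-|t - y|) := by
    intro t y hy
    obtain ⟨q1, q2, -, q4⟩ := HK D hε3 t y (Ne.symm hy)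
    obtain ⟨-, -, q3, -⟩ := HK D0 h00 t y (Ne.symm hy)
    refine ⟨q1.trans (le_of_eq (by ring)), q2.trans (le_of_eq (by ring)), q3, ?_⟩
    have e1 : Up Uc ga t y = (V (t - y) : ℂ) + (Up Uc ga t y - (V (t - y) : ℂ)) := by ring
    rw [e1]
    refine (norm_add_le _ _).trans ?_
    rw [Complex.norm_real, Real.norm_eq_abs]
    linarith
  have fin : ∀ {t a c : ℝ}, a ≤ Z * (M * ε) * Wb b t → c ≤ Ks * κ * Wb b t + Ks * A * Real.exp (-(|t| / 2)) →
      a + c ≤ KK * (M * ε + κ) * Wb b t + KK * A * Real.exp (-(|t| / 2)) := by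
    intro t a c ha hc
    have hW := Wb_nonneg b t
    have hE := Real.exp_pos (-(|t| / 2))
    have q1 : Z * (M * ε) * Wb b t ≤ KK * (M * ε) * Wb b t := by
      have : Z ≤ KK := by linarith
      gcongr
    have q2 : Ks * κ * Wb b t ≤ KK * κ * Wb b t := by
      have : Ks ≤ KK := by linarith
      gcongr
    have q3 : Ks * A * Real.exp (-(|t| / 2)) ≤ KK * A * Real.exp (-(|t| / 2)) := by
      have : Ks ≤ KK := by linarith
      gcongr
    calc a + c ≤ KK * (M * ε) * Wb b t + (KK * κ * Wb b t + KK * A * Real.exp (-(|t| / 2))) := by linarith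
      _ = _ := by ring
  refine ⟨fun t => (∫ y, (QZ (gD η) (gD1 η η1) t y * Bf' y + Up Uc (zt (gD η)) t y * (a1 y + r1 y))).re,
    Complex.continuous_re.comp cI, fun t => Complex.reCLM.hasFDerivAt.comp_hasDerivAt t (dI t),
    fun t => ?_, fun t => ?_⟩
  · have e1 : (∫ y, Up Uc (zt (gD η)) t y * Bf' y) =
        (∫ y, (Up Uc (zt (gD η)) t y * Bf' y - Up Uc ga t y * af' y)) + ∫ y, Up Uc ga t y * af' y := by
      rw [integral_sub (iI t).2 (iJ t).2]
      ring
    rw [e1, Complex.add_re]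
    refine (abs_add_le _ _).trans (fin ((Complex.abs_re_le_norm _).trans ?_) ?_)
    · refine wt_bd (fun y hy => ?_) fun y hy => ?_
      · rw [eB, za y hy, zr y hy]
        simp
      · obtain ⟨q1, q2, q3, q4⟩ := k0 t y hy
        have e2 : Up Uc (zt (gD η)) t y * Bf' y - Up Uc ga t y * af' y =
            (Up Uc (zt (gD η)) t y - Up Uc ga t y) * Bf' y + Up Uc ga t y * Br' y := by
          rw [eB]
          ring
        rw [e2]
        refine (norm_add_le _ _).trans ?_
        rw [norm_mul, norm_mul]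
        have hE := Real.exp_pos (-|t - y|)
        have hV := abs_nonneg (V (t - y))
        have w1 := mul_le_mul q1 (nB y) (norm_nonneg _) (by positivity)
        have w2 := mul_le_mul q4 (nr y) (norm_nonneg _) (by positivity)
        unfold Wt
        obtain ⟨E, hE'⟩ : ∃ E, E = Real.exp (-|t - y|) := ⟨_, rfl⟩
        obtain ⟨v, hv⟩ : ∃ v, v = |V (t - y)| := ⟨_, rfl⟩
        obtain ⟨m, hm⟩ : ∃ m, m = M * ε := ⟨_, rfl⟩
        rw [← hE'] at w1 w2 hE ⊢
        rw [← hv] at w2 hV ⊢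
        rw [← hm] at w2 hMε ⊢
        have e3 : K * C3 * ε * E * ((X + Y) * M) = K * C3 * (X + Y) * m * E := by rw [hm]; ring
        rw [e3] at w1
        have p1 : 0 ≤ K * C3 * (X + Y) * m * E := by positivity
        have p2 : 0 ≤ K * X * m * E := by positivity
        have p3 : 0 ≤ K * C3 * (X + Y) * m * v := by positivity
        have p4 : 0 ≤ K * X * m * v := by positivity
        have p5 : 0 ≤ X * m * E := by positivity
        rw [hZ]
        nlinarith
    · rw [reJ, abs_neg]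
      exact (st t).1
  · have e1 : (∫ y, (QZ (gD η) (gD1 η η1) t y * Bf' y + Up Uc (zt (gD η)) t y * (a1 y + r1 y))) =
        (∫ y, ((QZ (gD η) (gD1 η η1) t y * Bf' y + Up Uc (zt (gD η)) t y * (a1 y + r1 y)) -
          (QZ (fun _ => 0) (fun _ => 0) t y * af' y + Up Uc ga t y * a1 y))) +
        ∫ y, (QZ (fun _ => 0) (fun _ => 0) t y * af' y + Up Uc ga t y * a1 y) := by
      rw [integral_sub (iI t).1 (iJ t).1]
      ring
    beta_reduce
    rw [e1, Complex.add_re]
    refine (abs_add_le _ _).trans (fin ((Complex.abs_re_le_norm _).trans ?_) (J1 t))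
    refine wt_bd (fun y hy => ?_) fun y hy => ?_
    · rw [eB, za y hy, zr y hy, za1 y hy, zr1 y hy]
      simp
    · obtain ⟨q1, q2, q3, q4⟩ := k0 t y hy
      have e2 : (QZ (gD η) (gD1 η η1) t y * Bf' y + Up Uc (zt (gD η)) t y * (a1 y + r1 y)) -
          (QZ (fun _ => 0) (fun _ => 0) t y * af' y + Up Uc ga t y * a1 y) =
          ((QZ (gD η) (gD1 η η1) t y - QZ (fun _ => 0) (fun _ => 0) t y) * Bf' y +
            QZ (fun _ => 0) (fun _ => 0) t y * Br' y) +
          ((Up Uc (zt (gD η)) t y - Up Uc ga t y) * (a1 y + r1 y) + Up Uc ga t y * r1 y) := by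
        rw [eB]
        ring
      rw [e2]
      refine (norm_add_le _ _).trans ((add_le_add (norm_add_le _ _) (norm_add_le _ _)).trans ?_)
      rw [norm_mul, norm_mul, norm_mul, norm_mul]
      have hE := Real.exp_pos (-|t - y|)
      have hV := abs_nonneg (V (t - y))
      have w1 := mul_le_mul q1 (nB1 y) (norm_nonneg _) (by positivity)
      have w2 := mul_le_mul q4 (nr1 y) (norm_nonneg _) (by positivity)
      have w3 := mul_le_mul q2 (nB y) (norm_nonneg _) (by positivity)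
      have w4 := mul_le_mul q3 (nr y) (norm_nonneg _) (by positivity)
      unfold Wt
      obtain ⟨E, hE'⟩ : ∃ E, E = Real.exp (-|t - y|) := ⟨_, rfl⟩
      obtain ⟨v, hv⟩ : ∃ v, v = |V (t - y)| := ⟨_, rfl⟩
      obtain ⟨m, hm⟩ : ∃ m, m = M * ε := ⟨_, rfl⟩
      rw [← hE'] at w1 w2 w3 w4 hE ⊢
      rw [← hv] at w2 hV ⊢
      rw [← hm] at w2 w4 hMε ⊢
      have e3 : K * C3 * ε * E * ((X + Y) * M) = K * C3 * (X + Y) * m * E := by rw [hm]; ring
      rw [e3] at w1 w3
      have p1 : 0 ≤ K * C3 * (X + Y) * m * E := by positivity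
      have p2 : 0 ≤ K * X * m * E := by positivity
      have p3 : 0 ≤ K * C3 * (X + Y) * m * v := by positivity
      have p4 : 0 ≤ K * X * m * v := by positivity
      have p5 : 0 ≤ X * m * E := by positivity
      rw [hZ]
      nlinarith

/-! ### two curves -/

/-- the one body potential of two curves -/
theorem sum_KB_two (B : SeaCB) [SeaC] [SeaCU B] {s : Bool → ℝ} {b c C : ℝ} {η η1 : Bool → ℝ → ℝ}
    (P' : ∀ a, SPath (-B.h) (l / 4) c C (zt (gD (η a))) (zd (gD1 (η a) (η1 a))))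
    (hout : ∀ a y, b < |y| → η a y = 0) (Fe : Bool → ℂ → ℂ) (a : Bool) (t : ℝ) :
    ∑ d, (gas s η η1 Fe).KB a d t =
      (∫ y, Up Uc (zt (gD (η a))) t y * Bf (s a) (gD (η a)) (gD1 (η a) (η1 a)) y) +
      (DJ (s (!a)) b (η (!a)) (zt (gD (η a)) t) - DJ (s a) b (η a) (zt (gD (η a)) t)) := by
  have hl := l_pos
  have hh := B.h0
  have S : Str B (-B.h) (l / 4) := ⟨le_rfl, neg_le_neg B.dh', B.top_l4, le_rfl⟩
  have z1 := (P' a).im_ge t
  have z2 := (P' a).im_le t
  have hF := Ux_ext B z1 z2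
  have i1 : Integrable fun y => Up Us (zt (gD (η a))) t y * Bf (s a) (gD (η a)) (gD1 (η a) (η1 a)) y := by
    have j1 := two_i1 (Fe := Fe) B s S P' a a t
    have j2 := two_i2 (Fe := Fe) B s S P' a a t
    refine (j2.sub j1).congr (Eventually.of_forall fun y => ?_)
    simp only [Pi.sub_apply, two_K, if_true, two_rhoh, two_rho]
    unfold Bf
    ring
  have i2 : Integrable fun y => Ux (zt (gD (η a)) t - zt (gD (η a)) y) *
      Bf (s a) (gD (η a)) (gD1 (η a) (η1 a)) y := by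
    have j1 := (fe_x B (P' a) z1 z2).1.const_mul (s a : ℂ)
    have j2 := int_rFh B (s a) (P' a) hF
    refine (j1.sub j2).congr (Eventually.of_forall fun y => ?_)
    simp only [Pi.sub_apply]
    unfold Bf
    ring
  have e0 : ∑ d, (gas s η η1 Fe).KB a d t =
      (gas s η η1 Fe).KB a a t + (gas s η η1 Fe).KB a (!a) t := by
    rw [Fintype.sum_bool]
    cases a
    · rw [add_comm]; rfl
    · rfl
  have e1 : (gas s η η1 Fe).KB a a t =
      ∫ y, Up Us (zt (gD (η a))) t y * Bf (s a) (gD (η a)) (gD1 (η a) (η1 a)) y := by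
    rw [gas_KB]
    refine integral_congr_ae (Eventually.of_forall fun y => ?_)
    unfold Kf
    simp only [if_true]
  have e2 : (gas s η η1 Fe).KB a (!a) t = DJ (s (!a)) b (η (!a)) (zt (gD (η a)) t) := by
    rw [← J_eq B (P' (!a)) (hout (!a)) z1 z2, gas_KB]
    refine integral_congr_ae (Eventually.of_forall fun y => ?_)
    simp only [Kf]
    rw [if_neg (by cases a <;> simp)]
  have e3 : (∫ y, Up Uc (zt (gD (η a))) t y * Bf (s a) (gD (η a)) (gD1 (η a) (η1 a)) y) =
      (∫ y, Up Us (zt (gD (η a))) t y * Bf (s a) (gD (η a)) (gD1 (η a) (η1 a)) y) +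
      DJ (s a) b (η a) (zt (gD (η a)) t) := by
    rw [← J_eq B (P' a) (hout a) z1 z2, ← integral_add i1 i2]
    refine integral_congr_ae (Eventually.of_forall fun y => ?_)
    simp only
    rw [Up_Uc]
    ring
  rw [e0, e1, e2, e3]
  ring

/-- **the quadratic part of the one body potential**, two curves with almost the same current; the derivative of
the current is at most `A` -/
theorem exists_phiQ2C (B : SeaCB) : ∃ K : ℝ, 1 ≤ K ∧ ∀ [SeaC] [SeaCU B], ∀ {s : Bool → ℝ} {ε M b : ℝ} {e : ℝ → ℝ}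
    {η η1 : Bool → ℝ → ℝ}, (∀ a, 0 ≤ s a) → 0 ≤ b → K * ε ≤ 1 → (∀ a, Cur (s a) ε M b e (η a)) →
    (∀ a t, HasDerivAt (η a) (η1 a t) t) → Com M s e η η1 → ∀ {A : ℝ},
    (∀ t, |hd (s true) (η true) (η1 true) t| ≤ A) → ∀ (Fe : Bool → ℂ → ℂ),
    ∃ Q' : Bool → ℝ → ℝ, (∀ a, Continuous (Q' a)) ∧ (∀ a t, HasDerivAt (fun t =>
      (∑ d, (gas s η η1 Fe).KB a d t).re) (Q' a t) t) ∧
    (∀ a t, |(∑ d, (gas s η η1 Fe).KB a d t).re| ≤
      K * (M * ε) * (Wb b t + 1) + K * A * Real.exp (-(|t| / 2))) ∧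
    (∀ a t, |Q' a t| ≤ K * (M * ε) * Wb b t + K * A * Real.exp (-(|t| / 2))) := by
  obtain ⟨K1, hK1, H1⟩ := exists_phi1C B
  obtain ⟨K2, hK2, H2⟩ := DJ_diff B
  obtain ⟨Cp, hCp, HP⟩ := P_le B
  obtain ⟨Cc, hCc, Hc⟩ := exists_com B
  obtain ⟨Cd, hCd, HD⟩ := Cur_disp B
  obtain ⟨Ce, hCe, HE⟩ := Disp_path B
  have hh := B.r0
  have hl := l_pos
  have hd1 : 0 < Cd / B.r := by positivity
  obtain ⟨K, hK⟩ : ∃ K, K = 4 + K1 * (1 + Cc * Cp) + 6 * K2 + Cd / B.r + 3 * K2 * (Ce + 1) := ⟨_, rfl⟩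
  have hK0 : 0 ≤ K1 * (1 + Cc * Cp) := by positivity
  have hK1' : K1 ≤ K1 * (1 + Cc * Cp) := le_mul_of_one_le_right (by linarith) (by
    have : 0 ≤ Cc * Cp := by positivity
    linarith)
  have hK3 : 0 ≤ 3 * K2 * (Ce + 1) := by positivity
  refine ⟨K, by linarith, ?_⟩
  intro _ _ s ε M b e η η1 hs hb hε hc hη hcom A hA Fe
  have hM := (hc true).M0 B (hs true)
  have hε0 := (hc true).ε0
  have hA0 : 0 ≤ A := (abs_nonneg _).trans (hA 0)
  have hMε : 0 ≤ M * ε := mul_nonneg hM hε0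
  have hε4 : ε ≤ 1 / 4 := by
    have : 4 * ε ≤ K * ε := mul_le_mul_of_nonneg_right (by linarith) hε0
    linarith
  have hεd : Cd * ε ≤ B.r := by
    have q1 : Cd / B.r * ε ≤ 1 := (mul_le_mul_of_nonneg_right (by linarith) hε0).trans hε
    have q2 : Cd / B.r * ε * B.r = Cd * ε := by field_simp
    nlinarith
  have hε1 : K1 * ε ≤ 1 := (mul_le_mul_of_nonneg_right (by linarith) hε0).trans hε
  have hP : ∀ a, SPath (-B.h) (l / 4) (1 / 2) Ce (zt (gD (η a))) (zd (gD1 (η a) (η1 a))) ∧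
      NUAct.Path (l / 7) (1 / 2) Ce (zt (gD (η a))) (zd (gD1 (η a) (η1 a))) := fun a => by
    obtain ⟨δ2, D, -⟩ := HD (hs a) (hc a) (hη a)
    exact HE D hεd
  have he : ∀ t, 0 ≤ e t ∧ e t ≤ ε := fun t => ⟨(hc true).nonneg t, (hc true).le t⟩
  have hn : ∀ a t, |η a t| ≤ e t := fun a t => Cur.abs_le (hc a) t
  have cη : ∀ a, Continuous (η a) := fun a =>
    continuous_iff_continuousAt.2 fun t => (hη a t).continuousAt
  have hm : ∀ a t, s a * P t * |η a t| ≤ M := by
    intro a t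
    refine le_trans ?_ ((hc a).mass t)
    exact mul_le_mul_of_nonneg_left (hn a t) (mul_nonneg (hs a) (P_pos B t).le)
  have hout : ∀ a y, b < |y| → η a y = 0 := by
    intro a y hy
    have h1 := hn a y
    rw [(hc a).supp y hy] at h1
    exact abs_eq_zero.1 (le_antisymm h1 (abs_nonneg _))
  have hcd : ∀ a y, |s (!a) * η (!a) y - s a * η a y| ≤ 2 * (M * ε) := by
    intro a y
    have h1 := hcom.c0 (!a) y
    have h2 := hcom.c0 a y
    have h3 : M * e y ≤ M * ε := mul_le_mul_of_nonneg_left (he y).2 hM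
    have e1 : s (!a) * η (!a) y - s a * η a y =
        (s (!a) * η (!a) y - s true * η true y) - (s a * η a y - s true * η true y) := by ring
    rw [e1]
    refine (abs_sub _ _).trans ?_
    linarith
  have hPC : ∀ y, P y ≤ Cp := fun y => (HP y).trans (mul_le_of_le_one_right hCp.le (by
    rw [Real.exp_le_one_iff]
    have := abs_nonneg y
    linarith))
  have hdd : ∀ a t, |hd (s a) (η a) (η1 a) t| ≤ A + Cc * Cp * (M * ε) := by
    intro a t
    have h1 := (Hc hcom a t).2
    have h2 := hA t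
    have h3 : Cc * (M * (P t * e t)) ≤ Cc * Cp * (M * ε) := by
      have := hPC t
      have hp := (P_pos B t).le
      have h4 : P t * e t ≤ Cp * ε := mul_le_mul this (he t).2 (he t).1 hCp.le
      calc Cc * (M * (P t * e t)) ≤ Cc * (M * (Cp * ε)) := by gcongr
        _ = _ := by ring
    have e1 : hd (s a) (η a) (η1 a) t = hd (s true) (η true) (η1 true) t +
        (hd (s a) (η a) (η1 a) t - hd (s true) (η true) (η1 true) t) := by ring
    rw [e1]
    refine (abs_add_le _ _).trans ?_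
    linarith
  have hκ : 0 ≤ Cc * Cp * (M * ε) := by positivity
  have him : ∀ a t, |(zt (gD (η a)) t).im| ≤ l / 7 := fun a t => (hP a).2.im_le t
  have hre : ∀ a t, |(zt (gD (η a)) t).re - t| ≤ 1 / 2 := by
    intro a t
    have e1 : (zt (gD (η a)) t).re - t = (gD (η a) t).re := by
      unfold zt
      rw [Complex.add_re, ga_re]
      ring
    rw [e1]
    have h1 := (Complex.abs_re_le_norm _).trans (gD_norm (η a) t)
    have h2 := (hn a t).trans (he t).2
    linarith
  have key : ∀ a t,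
      |(DJ (s (!a)) b (η (!a)) (zt (gD (η a)) t) - DJ (s a) b (η a) (zt (gD (η a)) t)).re| ≤
        3 * K2 * (M * ε) * (Wb b t + 1) ∧
      ‖DJ1 (s (!a)) b (η (!a)) (zt (gD (η a)) t) - DJ1 (s a) b (η a) (zt (gD (η a)) t)‖ ≤
        3 * K2 * (M * ε) * Wb b t := by
    intro a t
    obtain ⟨h1, h2⟩ := H2 (b := b) (hs a) (hs (!a)) hM hε0 (by linarith) (by positivity : 0 ≤ 2 * (M * ε))
      (cη a) (cη (!a)) (him a) (him (!a)) (fun y => (hn a y).trans (he y).2)
      (fun y => (hn (!a) y).trans (he y).2) (hm a) (hm (!a)) (hcd a) (zt (gD (η a)) t) t (him a t) (hre a t)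
    exact ⟨h1.trans (le_of_eq (by ring)), h2.trans (le_of_eq (by ring))⟩
  have hsum := fun a t => sum_KB_two B (s := s) (fun a => (hP a).1) hout Fe a t
  choose q hq1 hq2 hq3 hq4 using fun a => H1 (hs a) hb hε1 (hc a) (hη a) hA0 hκ (hdd a)
  have fin1 : ∀ {t x : ℝ}, x ≤ K1 * (M * ε + Cc * Cp * (M * ε)) * Wb b t + K1 * A * Real.exp (-(|t| / 2)) →
      x ≤ K1 * (1 + Cc * Cp) * (M * ε) * Wb b t + K * A * Real.exp (-(|t| / 2)) := by
    intro t x hx
    have hE := Real.exp_pos (-(|t| / 2))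
    have q3 : K1 * A * Real.exp (-(|t| / 2)) ≤ K * A * Real.exp (-(|t| / 2)) := by
      have : K1 ≤ K := by linarith
      gcongr
    calc x ≤ _ := hx
      _ ≤ K1 * (M * ε + Cc * Cp * (M * ε)) * Wb b t + K * A * Real.exp (-(|t| / 2)) := by linarith
      _ = _ := by ring
  refine ⟨fun a t => q a t + ((DJ1 (s (!a)) b (η (!a)) (zt (gD (η a)) t) -
    DJ1 (s a) b (η a) (zt (gD (η a)) t)) * zd (gD1 (η a) (η1 a)) t).re, fun a => ?_, fun a t => ?_,
    fun a t => ?_, fun a t => ?_⟩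
  · have c1 := continuous_DJ1 B (s := s (!a)) (b := b) (cη (!a)) (him (!a)) (hP a).1.continuous (him a)
    have c2 := continuous_DJ1 B (s := s a) (b := b) (cη a) (him a) (hP a).1.continuous (him a)
    exact (hq1 a).add (Complex.continuous_re.comp ((c1.sub c2).mul (hP a).1.cont))
  · have e1 : (fun t => (∑ d, (gas s η η1 Fe).KB a d t).re) = fun t =>
        (∫ y, Up Uc (zt (gD (η a))) t y * Bf (s a) (gD (η a)) (gD1 (η a) (η1 a)) y).re +
        (DJ (s (!a)) b (η (!a)) (zt (gD (η a)) t) - DJ (s a) b (η a) (zt (gD (η a)) t)).re := by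
      funext t
      rw [hsum, Complex.add_re]
    rw [e1]
    have z6 : |(zt (gD (η a)) t).im| ≤ l / 6 := (him a t).trans (by linarith)
    have d1 := (hasDerivAt_DJ B (s := s (!a)) (b := b) (cη (!a)) (him (!a)) z6).comp t ((hP a).1.der t)
    have d2 := (hasDerivAt_DJ B (s := s a) (b := b) (cη a) (him a) z6).comp t ((hP a).1.der t)
    have d3 : HasDerivAt (fun t => DJ (s (!a)) b (η (!a)) (zt (gD (η a)) t) -
        DJ (s a) b (η a) (zt (gD (η a)) t)) ((DJ1 (s (!a)) b (η (!a)) (zt (gD (η a)) t) -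
        DJ1 (s a) b (η a) (zt (gD (η a)) t)) * zd (gD1 (η a) (η1 a)) t) t :=
      (d1.sub d2).congr_deriv (by ring)
    exact (hq2 a t).add (Complex.reCLM.hasFDerivAt.comp_hasDerivAt t d3)
  · rw [hsum, Complex.add_re]
    refine (abs_add_le _ _).trans ((add_le_add (fin1 (hq3 a t)) (key a t).1).trans ?_)
    have hW := Wb_nonneg b t
    have p := mul_nonneg hMε hW
    have p2 : K1 * (1 + Cc * Cp) * (M * ε) * Wb b t + 3 * K2 * (M * ε) * (Wb b t + 1) ≤
        K * (M * ε) * (Wb b t + 1) := by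
      have q1 : K1 * (1 + Cc * Cp) * (M * ε) * Wb b t ≤ K1 * (1 + Cc * Cp) * (M * ε) * (Wb b t + 1) := by
        refine mul_le_mul_of_nonneg_left (by linarith) (by positivity)
      have q2 : (K1 * (1 + Cc * Cp) + 3 * K2) * ((M * ε) * (Wb b t + 1)) ≤ K * ((M * ε) * (Wb b t + 1)) := by
        refine mul_le_mul_of_nonneg_right ?_ (by positivity)
        linarith
      linarith
    linarith
  · refine (abs_add_le _ _).trans ((add_le_add (fin1 (hq4 a t))
      ((Complex.abs_re_le_norm _).trans (le_of_eq (norm_mul _ _)))).trans ?_)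
    have hW := Wb_nonneg b t
    have h1 := mul_le_mul (key a t).2 ((hP a).1.dle t) (norm_nonneg _)
      (mul_nonneg (mul_nonneg (by linarith) hMε) hW)
    have q2 : (K1 * (1 + Cc * Cp) + 3 * K2 * Ce) * ((M * ε) * Wb b t) ≤ K * ((M * ε) * Wb b t) := by
      refine mul_le_mul_of_nonneg_right ?_ (by positivity)
      linarith
    linarith

/-- **the quadratic part of the one body potential**, as in `THETA_B1b` -/
theorem exists_phiQC (B : SeaCB) : ∃ K : ℝ, 1 ≤ K ∧ ∀ [SeaC] [SeaCU B], ∀ {s : Bool → ℝ} {ε M b : ℝ} {e : ℝ → ℝ}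
    {η η1 : Bool → ℝ → ℝ}, (∀ a, 0 ≤ s a) → 0 ≤ b → K * ε ≤ 1 → (∀ a, Cur (s a) ε M b e (η a)) →
    (∀ a t, HasDerivAt (η a) (η1 a t) t) → Com M s e η η1 → ∀ {A : ℝ},
    (∀ t, |hd (s true) (η true) (η1 true) t| ≤ A) → ∀ (Fe : Bool → ℂ → ℂ),
    ∃ Q' : Bool → ℝ → ℝ, (∀ a, Continuous (Q' a)) ∧ (∀ a t, HasDerivAt (fun t =>
      (∑ d, (gas s η η1 Fe).KB a d t).re) (Q' a t) t) ∧
    (∀ a t, |(∑ d, (gas s η η1 Fe).KB a d t).re| ≤
      K * (M * ε) * (Wb b t + 1) + K * A * Real.exp (-|t| / 8)) ∧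
    (∀ a t, |Q' a t| ≤ K * (M * ε) * Wb b t + K * A * Real.exp (-|t| / 8)) := by
  obtain ⟨K, hK, H⟩ := exists_phiQ2C B
  refine ⟨K, hK, ?_⟩
  intro _ _ s ε M b e η η1 hs hb hε hc hη hcom A hA Fe
  have hA0 : 0 ≤ A := (abs_nonneg _).trans (hA 0)
  obtain ⟨Q', h1, h2, h3, h4⟩ := H hs hb hε hc hη hcom hA Fe
  have hE : ∀ t : ℝ, K * A * Real.exp (-(|t| / 2)) ≤ K * A * Real.exp (-|t| / 8) := fun t =>
    mul_le_mul_of_nonneg_left (Real.exp_le_exp.2 (by
      have := abs_nonneg t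
      linarith)) (by positivity)
  exact ⟨Q', h1, h2, fun a t => (h3 a t).trans (by linarith [hE t]), fun a t => (h4 a t).trans (by linarith [hE t])⟩

end

end PLT.Cv
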