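import Pool.Agent.PLT.DatFC
import Pool.Agent.PLT.PhiQ2
import Pool.Agent.PLT.KsPB
import Pool.Agent.PLT.InsP

/-!
# The remainder of the data of a configuration over a static curve: bounds, local energy

`φ a = QrC a + dFC a + phS a + KsP ν a + wOC a` (`phiC`).

* `exists_phiC_C1`: regularity; **`exists_phi_leC`**: size of the remainder and of its derivative, with its
  decay;
* **`exists_NTC`**: its local energy on the window.
-/

set_option autoImplicit false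
set_option linter.unusedSectionVars false
set_option linter.unusedVariables false

open MeasureTheory Set Filter Topology Complex

namespace PLT.Cv

open NUMF (l l_pos w g V)
open NUAct (Wb Wm Wm_nonneg Wb_le Wb_nonneg Wb_int)
open NUSea.PLX.H0 (Inp Vn)
open NUDispW (bmaj win win_nonneg bmaj_nonneg bmaj_cont bmaj_sq_int Sd Sd_pos pair_exp_le int_exp_abs)

noncomputable section

/-! ### sums over the objects -/

/-- the sum of the weights of the heights -/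
def sH {r : ℕ} (O : Fin r → Oc) (c : ℝ) : ℝ := ∑ i, Real.exp (-(c * |(O i).h|))

section sums

variable {r : ℕ} (O : Fin r → Oc)

lemma sH_nonneg (c : ℝ) : 0 ≤ sH O c := Finset.sum_nonneg fun _ _ => (Real.exp_pos _).le

lemma sH_le {c : ℝ} (hc : 0 ≤ c) : sH O c ≤ r := by
  unfold sH
  have h1 : ∑ i : Fin r, Real.exp (-(c * |(O i).h|)) ≤ ∑ _i : Fin r, (1 : ℝ) :=
    Finset.sum_le_sum fun i _ => Real.exp_le_one_iff.2 (by
      have := mul_nonneg hc (abs_nonneg (O i).h)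
      linarith)
  simpa using h1

/-- the square of the sum of the weights is bounded by the window energy -/
lemma sH_sq {c : ℝ} (hc : 0 < c) :
    sH O c ^ 2 ≤ Real.exp c * Sd c * win Finset.univ fun i => (O i).h := by
  refine le_trans ?_ (pair_exp_le hc Finset.univ fun i => (O i).h)
  unfold sH
  rw [sq, Finset.sum_mul_sum]
  refine Finset.sum_le_sum fun i _ => Finset.sum_le_sum fun j _ => ?_
  rw [← Real.exp_add]
  refine Real.exp_le_exp.2 ?_
  have h1 := abs_sub (O i).h (O j).h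
  nlinarith

lemma bmaj_le_r (t : ℝ) : bmaj Finset.univ (fun i => (O i).h) 2 t ≤ r := by
  unfold bmaj
  have h1 : ∑ i : Fin r, Real.exp (-(2 * |t - (O i).h|)) ≤ ∑ _i : Fin r, (1 : ℝ) :=
    Finset.sum_le_sum fun i _ => Real.exp_le_one_iff.2 (by
      have := abs_nonneg (t - (O i).h)
      linarith)
  simpa using h1

end sums

lemma sq5 (a b c d e : ℝ) : (a + b + c + d + e) ^ 2 ≤ 5 * (a ^ 2 + b ^ 2 + c ^ 2 + d ^ 2 + e ^ 2) := by
  nlinarith [sq_nonneg (a - b), sq_nonneg (a - c), sq_nonneg (a - d), sq_nonneg (a - e),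
    sq_nonneg (b - c), sq_nonneg (b - d), sq_nonneg (b - e), sq_nonneg (c - d), sq_nonneg (c - e),
    sq_nonneg (d - e)]

lemma sq_le_two {x a b : ℝ} (h : |x| ≤ a + b) : x ^ 2 ≤ 2 * a ^ 2 + 2 * b ^ 2 := by
  have h1 : x ^ 2 ≤ (a + b) ^ 2 := by
    rw [← sq_abs]
    exact pow_le_pow_left₀ (abs_nonneg _) h 2
  nlinarith [sq_nonneg (a - b)]

lemma exp_int {c : ℝ} (hc : 0 < c) : Integrable (fun t : ℝ => Real.exp (-(c * |t|))) ∧
    ∫ t : ℝ, Real.exp (-(c * |t|)) = 2 / c := by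
  have h := int_exp_abs hc 0
  simpa using h

/-- the integral over a window is at most the integral over the line -/
lemma win_int_le {f : ℝ → ℝ} (hf : Integrable f) (h0 : ∀ t, 0 ≤ f t) {T : ℝ} (hT : 0 ≤ T) :
    ∫ t in (-(T + 1))..(T + 1), f t ≤ ∫ t, f t := by
  rw [intervalIntegral.integral_of_le (by linarith)]
  exact setIntegral_le_integral hf (Eventually.of_forall h0)

section

variable [SeaC]

lemma phiC_eq {r : ℕ} (I : Inp) (O : Fin r → Oc) (a : Bool) (t : ℝ) :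
    phiC I O a t = QrC I O a t + dFC I O a t + phS O a t + KsP I.ν a t + Sp.wOC (zI I) I a t := rfl

/-- the derivative of the remainders of the objects -/
def phS' {r : ℕ} (O : Fin r → Oc) (a : Bool) (t : ℝ) : ℝ := ∑ i, (O i).φ' a t

section phS

variable {r : ℕ} {O : Fin r → Oc} {lo hi kd A ε' c : ℝ}

lemma phS_d (hO : ∀ i, (O i).Ok lo hi kd A ε' c) (a : Bool) (t : ℝ) :
    HasDerivAt (phS O a) (phS' O a t) t := by
  have e1 : phS O a = fun t => ∑ i, (O i).φ a t := rfl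
  rw [e1]
  exact HasDerivAt.fun_sum fun i _ => (hO i).φd a t

lemma phS_c (hO : ∀ i, (O i).Ok lo hi kd A ε' c) (a : Bool) : Continuous (phS' O a) := by
  unfold phS'
  exact continuous_finsetSum _ fun i _ => (hO i).φc a

lemma exp_split (h t : ℝ) : ε' * Real.exp (-(c * |t|) - c * |h|) =
    ε' * Real.exp (-(c * |t|)) * Real.exp (-(c * |h|)) := by
  rw [mul_assoc, ← Real.exp_add]
  congr 2

lemma phS_le (hO : ∀ i, (O i).Ok lo hi kd A ε' c) (a : Bool) (t : ℝ) :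
    |phS O a t| ≤ ε' * sH O c * Real.exp (-(c * |t|)) := by
  unfold phS
  refine (Finset.abs_sum_le_sum_abs _ _).trans ?_
  have e : ε' * sH O c * Real.exp (-(c * |t|)) =
      ∑ i, ε' * Real.exp (-(c * |t|) - c * |(O i).h|) := by
    unfold sH
    rw [mul_right_comm, Finset.mul_sum]
    exact Finset.sum_congr rfl fun i _ => (exp_split _ _).symm
  rw [e]
  exact Finset.sum_le_sum fun i _ => (hO i).φb a t

lemma phS'_le (hO : ∀ i, (O i).Ok lo hi kd A ε' c) (a : Bool) (t : ℝ) :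
    |phS' O a t| ≤ ε' * sH O c * Real.exp (-(c * |t|)) := by
  unfold phS'
  refine (Finset.abs_sum_le_sum_abs _ _).trans ?_
  have e : ε' * sH O c * Real.exp (-(c * |t|)) =
      ∑ i, ε' * Real.exp (-(c * |t|) - c * |(O i).h|) := by
    unfold sH
    rw [mul_right_comm, Finset.mul_sum]
    exact Finset.sum_congr rfl fun i _ => (exp_split _ _).symm
  rw [e]
  exact Finset.sum_le_sum fun i _ => (hO i).φb' a t

end phS

end

/-! ### the remainder -/

/-- derivatives and bounds of the quadratic part and of the displacement of the objects -/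
theorem exists_parts (B : SeaCB) {w kd : ℝ} (hw : 0 < w) : ∃ K : ℝ, 1 ≤ K ∧ ∀ [SeaC] [SeaCU B],
    ∀ {lo hi Cp ε M b : ℝ} {e : ℝ → ℝ} {I : Inp}, IOkC B lo hi Cp ε M b e I → K * ε ≤ 1 →
    ∀ {σ : ℝ}, 0 < σ → (∀ a, σ ≤ I.s a) →
    ∀ {AH : ℝ}, (∀ t, |hd (I.s true) (I.η true) (I.η1 true) t| ≤ AH) →
    ∀ {A ε' c : ℝ} {r : ℕ} {O : Fin r → Oc}, (∀ i, (O i).Ok (lo - w) (hi + w) kd A ε' c) → ∀ a,
    (∃ Q' : ℝ → ℝ, Continuous Q' ∧ (∀ t, HasDerivAt (QrC I O a) (Q' t) t) ∧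
      (∀ t, |QrC I O a t| ≤ K * (M * ε) * (Wb b t + 1) + K * AH * Real.exp (-(1 / 8 * |t|))) ∧
      ∀ t, |Q' t| ≤ K * (M * ε) * (Wb b t + 1) + K * AH * Real.exp (-(1 / 8 * |t|))) ∧
    ∃ F' : ℝ → ℝ, (∀ t, HasDerivAt (dFC I O a) (F' t) t) ∧ Continuous F' ∧
      (∀ t, |dFC I O a t| ≤ K * ε * bmaj Finset.univ (fun i => (O i).h) 2 t +
        K * r * (M / σ) * Real.exp (-|t|)) ∧
      ∀ t, |F' t| ≤ K * ε * bmaj Finset.univ (fun i => (O i).h) 2 t +
        K * r * (M / σ) * Real.exp (-|t|) := by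
  obtain ⟨K1, hK1, H1⟩ := exists_phiQC B
  obtain ⟨K2, hK2, H2⟩ := exists_dFC B (kd := kd) hw
  refine ⟨K1 + K2, by linarith,
    @fun _ hS lo hi Cp ε M b e I h hε σ hσ hσs AH hAH A ε' c r O hO a => ?_⟩
  have hε0 := (h.cur a).ε0
  have hM0 := (h.cur a).M0 B (h.s0 a)
  have hA0 : 0 ≤ AH := (abs_nonneg _).trans (hAH 0)
  have hε1 : K1 * ε ≤ 1 := by nlinarith
  have hε2 : K2 * ε ≤ 1 := by nlinarith
  constructor
  · obtain ⟨Q', q1, q2, q3, q4⟩ := @H1 _ hS _ _ _ _ _ _ _ h.s0 h.b0 hε1 h.cur h.der h.com _ hAH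
      (FC I O)
    have e8 : ∀ t : ℝ, Real.exp (-|t| / 8) = Real.exp (-(1 / 8 * |t|)) := fun t => by
      congr 1
      ring
    have mono : ∀ t, K1 * (M * ε) * (Wb b t + 1) + K1 * AH * Real.exp (-(1 / 8 * |t|)) ≤
        (K1 + K2) * (M * ε) * (Wb b t + 1) + (K1 + K2) * AH * Real.exp (-(1 / 8 * |t|)) := fun t => by
      have hW := Wb_nonneg b t
      have hE := Real.exp_pos (-(1 / 8 * |t|))
      have s1 : 0 ≤ K2 * (M * ε) * (Wb b t + 1) := by positivity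
      have s2 : 0 ≤ K2 * AH * Real.exp (-(1 / 8 * |t|)) := by positivity
      linarith
    refine ⟨Q' a, q1 a, fun t => q2 a t, fun t => ?_, fun t => ?_⟩
    · have := q3 a t
      rw [e8] at this
      exact this.trans (mono t)
    · have := q4 a t
      rw [e8] at this
      refine this.trans (le_trans ?_ (mono t))
      have : 0 ≤ K1 * (M * ε) := by positivity
      linarith
  · obtain ⟨F', f1, f2, f34⟩ := @H2 _ hS _ _ _ _ _ _ _ _ h hε2 _ hσ hσs _ _ _ _ O hO a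
    have mono : ∀ t, K2 * ε * bmaj Finset.univ (fun i => (O i).h) 2 t +
        K2 * r * (M / σ) * Real.exp (-|t|) ≤
        (K1 + K2) * ε * bmaj Finset.univ (fun i => (O i).h) 2 t +
        (K1 + K2) * r * (M / σ) * Real.exp (-|t|) := fun t => by
      have hb := bmaj_nonneg (Finset.univ : Finset (Fin r)) (fun i => (O i).h) 2 t
      have hE := Real.exp_pos (-|t|)
      have s1 : 0 ≤ K1 * ε * bmaj Finset.univ (fun i => (O i).h) 2 t := by positivity
      have s2 : 0 ≤ K1 * r * (M / σ) * Real.exp (-|t|) := by positivity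
      linarith
    exact ⟨F', f1, f2, fun t => (f34.1 t).trans (mono t), fun t => (f34.2 t).trans (mono t)⟩

/-- **the remainder is `C^1`** -/
theorem exists_phiC_C1 (B : SeaCB) {w kd Ks c0 : ℝ} (hw : 0 < w) (hc0 : 0 < c0) :
    ∃ K : ℝ, 1 ≤ K ∧ ∀ [SeaC] [SeaCU B], KsB Ks c0 →
    ∀ {lo hi Cp ε M b : ℝ} {e : ℝ → ℝ} {I : Inp}, IOkC B lo hi Cp ε M b e I → K * ε ≤ 1 →
    ∀ {σ : ℝ}, 0 < σ → (∀ a, σ ≤ I.s a) →
    ∀ {AH : ℝ}, (∀ t, |hd (I.s true) (I.η true) (I.η1 true) t| ≤ AH) →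
    ∀ {CB : ℝ}, (∀ a t, |I.ν a t| ≤ CB) →
    ∀ {A ε' c : ℝ} {r : ℕ} {O : Fin r → Oc}, (∀ i, (O i).Ok (lo - w) (hi + w) kd A ε' c) → ∀ a,
    ContDiff ℝ 1 (phiC I O a) := by
  obtain ⟨K, hK, H⟩ := exists_parts B (kd := kd) hw
  refine ⟨K, hK, @fun _ hS hks lo hi Cp ε M b e I h hε σ hσ hσs AH hAH CB hCB A ε' c r O hO a => ?_⟩
  obtain ⟨⟨Q', q1, q2, -, -⟩, F', f1, f2, -, -⟩ :=
    @H _ hS _ _ _ _ _ _ _ _ h hε _ hσ hσs _ hAH _ _ _ _ O hO a
  have cd : ∀ {f f' : ℝ → ℝ}, (∀ t, HasDerivAt f (f' t) t) → Continuous f' → ContDiff ℝ 1 f := by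
    intro f f' h1 h2
    rw [contDiff_one_iff_deriv]
    refine ⟨fun t => (h1 t).differentiableAt, ?_⟩
    rw [show deriv f = f' from funext fun t => (h1 t).deriv]
    exact h2
  have e1 : phiC I O a = fun t => QrC I O a t + dFC I O a t + phS O a t + KsP I.ν a t +
      Sp.wOC (zI I) I a t := rfl
  rw [e1]
  exact ((((cd q2 q1).add (cd f1 f2)).add (cd (phS_d hO a) (phS_c hO a))).add
    (KsP_C1 hc0 hks h.νc hCB a).1).add (h.wc a)

/-- **size of the remainder and of its derivative** -/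
theorem exists_phi_leC (B : SeaCB) {w kd Ks c0 : ℝ} (hw : 0 < w) (hc0 : 0 < c0) :
    ∃ K : ℝ, 1 ≤ K ∧ ∀ [SeaC] [SeaCU B], KsB Ks c0 →
    ∀ {lo hi Cp ε M b : ℝ} {e : ℝ → ℝ} {I : Inp}, IOkC B lo hi Cp ε M b e I → K * ε ≤ 1 →
    ∀ {σ : ℝ}, 0 < σ → (∀ a, σ ≤ I.s a) →
    ∀ {AH : ℝ}, (∀ t, |hd (I.s true) (I.η true) (I.η1 true) t| ≤ AH) →
    ∀ {CB : ℝ}, (∀ a t, |I.ν a t| ≤ CB) →
    ∀ {A ε' c : ℝ} {r : ℕ} {O : Fin r → Oc}, (∀ i, (O i).Ok (lo - w) (hi + w) kd A ε' c) →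
    ∀ a t, |phiC I O a t - Sp.wOC (zI I) I a t| ≤
        K * (M * ε) * (Wb b t + 1) + K * AH * Real.exp (-(1 / 8 * |t|)) +
        K * ε * bmaj Finset.univ (fun i => (O i).h) 2 t + K * r * (M / σ) * Real.exp (-|t|) +
        ε' * sH O c * Real.exp (-(c * |t|)) + K * CB * Real.exp (-(c0 * |t|)) ∧
      |deriv (phiC I O a) t - deriv (Sp.wOC (zI I) I a) t| ≤
        K * (M * ε) * (Wb b t + 1) + K * AH * Real.exp (-(1 / 8 * |t|)) +
        K * ε * bmaj Finset.univ (fun i => (O i).h) 2 t + K * r * (M / σ) * Real.exp (-|t|) +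
        ε' * sH O c * Real.exp (-(c * |t|)) + K * CB * Real.exp (-(c0 * |t|)) := by
  obtain ⟨K, hK, H⟩ := exists_parts B (kd := kd) hw
  obtain ⟨Ka, hKa⟩ : ∃ Ka : ℝ, Ka = 4 * |Ks| / c0 := ⟨_, rfl⟩
  have hKa0 : 0 ≤ Ka := by rw [hKa]; positivity
  refine ⟨K + Ka, by linarith,
    @fun _ hS hks lo hi Cp ε M b e I h hε σ hσ hσs AH hAH CB hCB A ε' c r O hO a t => ?_⟩
  have hε0 := (h.cur a).ε0
  have hM0 := (h.cur a).M0 B (h.s0 a)
  have hA0 : 0 ≤ AH := (abs_nonneg _).trans (hAH 0)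
  have hCB0 : 0 ≤ CB := (abs_nonneg _).trans (hCB a 0)
  have hK0 : 0 ≤ K := by linarith
  have hε1 : K * ε ≤ 1 := by
    refine le_trans (mul_le_mul_of_nonneg_right ?_ hε0) hε
    linarith
  obtain ⟨⟨Q', q1, q2, q3, q4⟩, F', f1, f2, f3, f4⟩ :=
    @H _ hS _ _ _ _ _ _ _ _ h hε1 _ hσ hσs _ hAH _ _ _ _ O hO a
  obtain ⟨hK1, hKb⟩ := KsP_C1 hc0 hks h.νc hCB a
  have r0 : (0 : ℝ) ≤ r := Nat.cast_nonneg r
  have hW := Wb_nonneg b t
  have hb := bmaj_nonneg (Finset.univ : Finset (Fin r)) (fun i => (O i).h) 2 t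
  have hE8 := Real.exp_pos (-(1 / 8 * |t|))
  have hE1 := Real.exp_pos (-|t|)
  have hE0 := Real.exp_pos (-(c0 * |t|))
  have n1 : 0 ≤ Ka * (M * ε) * (Wb b t + 1) := by positivity
  have n2 : 0 ≤ Ka * AH * Real.exp (-(1 / 8 * |t|)) := by positivity
  have n3 : 0 ≤ Ka * ε * bmaj Finset.univ (fun i => (O i).h) 2 t := by positivity
  have n4 : 0 ≤ Ka * r * (M / σ) * Real.exp (-|t|) := by positivity
  have n5 : 0 ≤ K * CB * Real.exp (-(c0 * |t|)) := by positivity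
  have n6 : 4 * Ks / c0 * CB * Real.exp (-(c0 * |t|)) ≤ Ka * CB * Real.exp (-(c0 * |t|)) := by
    have : 4 * Ks / c0 ≤ Ka := by
      rw [hKa]
      exact div_le_div_of_nonneg_right (by linarith [le_abs_self Ks]) hc0.le
    gcongr
  have hder : deriv (phiC I O a) t = Q' t + F' t + phS' O a t + deriv (KsP I.ν a) t +
      deriv (Sp.wOC (zI I) I a) t := by
    have e1 : phiC I O a = fun t => QrC I O a t + dFC I O a t + phS O a t + KsP I.ν a t +
        Sp.wOC (zI I) I a t := rfl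
    rw [e1]
    exact (((((q2 t).add (f1 t)).add (phS_d hO a t)).add
      ((hK1.differentiable (by norm_num)) t).hasDerivAt).add
      (((h.wc a).differentiable (by norm_num)) t).hasDerivAt).deriv
  constructor
  · have e1 : phiC I O a t - Sp.wOC (zI I) I a t =
        QrC I O a t + dFC I O a t + phS O a t + KsP I.ν a t := by
      rw [phiC_eq]
      ring
    rw [e1]
    have t2 := abs_add_le (QrC I O a t + dFC I O a t + phS O a t) (KsP I.ν a t)
    have t3 := abs_add_le (QrC I O a t + dFC I O a t) (phS O a t)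
    have t4 := abs_add_le (QrC I O a t) (dFC I O a t)
    have b1 := q3 t
    have b2 := f3 t
    have b3 := phS_le hO a t
    have b4 := (hKb t).1
    linarith
  · have e1 : deriv (phiC I O a) t - deriv (Sp.wOC (zI I) I a) t =
        Q' t + F' t + phS' O a t + deriv (KsP I.ν a) t := by
      rw [hder]
      ring
    rw [e1]
    have t2 := abs_add_le (Q' t + F' t + phS' O a t) (deriv (KsP I.ν a) t)
    have t3 := abs_add_le (Q' t + F' t) (phS' O a t)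
    have t4 := abs_add_le (Q' t) (F' t)
    have b1 := q4 t
    have b2 := f4 t
    have b3 := phS'_le hO a t
    have b4 := (hKb t).2
    linarith

/-! ### the local energy -/

/-- **local energy of the remainder** -/
theorem exists_NTC (B : SeaCB) {w kd Kk c0 c : ℝ} (hw : 0 < w) (hc0 : 0 < c0)
    (hc : 0 < c) : ∃ K : ℝ, 1 ≤ K ∧ ∀ [SeaC] [SeaCU B], KsB Kk c0 →
    ∀ {lo hi Cp ε M b : ℝ} {e : ℝ → ℝ} {I : Inp}, IOkC B lo hi Cp ε M b e I → K * ε ≤ 1 →
    ∀ {σ : ℝ}, 0 < σ → (∀ a, σ ≤ I.s a) →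
    ∀ {AH : ℝ}, (∀ t, |hd (I.s true) (I.η true) (I.η1 true) t| ≤ AH) →
    ∀ {CB : ℝ}, (∀ a t, |I.ν a t| ≤ CB) →
    ∀ {A ε' : ℝ} {r : ℕ} {O : Fin r → Oc}, (∀ i, (O i).Ok (lo - w) (hi + w) kd A ε' c) →
    ∀ T : ℝ, 0 ≤ T → ∀ a, Gs.Nl (datC I O) T a ≤
      K * (AH ^ 2 + CB ^ 2 + (M * ε) ^ 2 * (b + T + 1) + (r * (M / σ)) ^ 2 +
        (ε ^ 2 + ε' ^ 2) * win Finset.univ (fun i => (O i).h)) + 5 * NWC I T a := by
  obtain ⟨K, hK, H⟩ := exists_parts B (kd := kd) hw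
  obtain ⟨Ks, hKs⟩ : ∃ Ka : ℝ, Ka = 4 * |Kk| / c0 := ⟨_, rfl⟩
  have hKa0 : 0 ≤ Ks := by rw [hKs]; positivity
  have hW := Wm_nonneg
  obtain ⟨kp, hkp⟩ : ∃ kp : ℝ, kp = 4 / 2 * (Real.exp (2 / 2) * Sd (2 / 2)) := ⟨_, rfl⟩
  have hkp0 : 0 ≤ kp := by
    have := Sd_pos (d := 2 / 2) (by norm_num)
    rw [hkp]
    positivity
  obtain ⟨kq, hkq⟩ : ∃ kq : ℝ, kq = Real.exp c * Sd c := ⟨_, rfl⟩
  have hkq0 : 0 ≤ kq := by
    have := Sd_pos hc
    rw [hkq]
    positivity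
  obtain ⟨Z1, hZ1⟩ : ∃ Z : ℝ, Z = 4 * K ^ 2 * (Wm + 1) * (2 * Wm + 2) := ⟨_, rfl⟩
  obtain ⟨Z2, hZ2⟩ : ∃ Z : ℝ, Z = 32 * K ^ 2 := ⟨_, rfl⟩
  obtain ⟨Z3, hZ3⟩ : ∃ Z : ℝ, Z = 4 * K ^ 2 * kp := ⟨_, rfl⟩
  obtain ⟨Z4, hZ4⟩ : ∃ Z : ℝ, Z = 4 * K ^ 2 := ⟨_, rfl⟩
  obtain ⟨Z5, hZ5⟩ : ∃ Z : ℝ, Z = 2 / c * kq := ⟨_, rfl⟩
  obtain ⟨Z6, hZ6⟩ : ∃ Z : ℝ, Z = 2 * Ks ^ 2 / c0 := ⟨_, rfl⟩
  have z1 : 0 ≤ Z1 := by rw [hZ1]; positivity
  have z2 : 0 ≤ Z2 := by rw [hZ2]; positivity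
  have z3 : 0 ≤ Z3 := by rw [hZ3]; positivity
  have z4 : 0 ≤ Z4 := by rw [hZ4]; positivity
  have z5 : 0 ≤ Z5 := by rw [hZ5]; positivity
  have z6 : 0 ≤ Z6 := by rw [hZ6]; positivity
  refine ⟨K + 5 * (Z1 + Z2 + Z3 + Z4 + Z5 + Z6), by linarith,
    @fun _ hS hkk lo hi Cp ε M b e I h hε σ hσ hσs AH hAH CB hCBb A ε' r O hO T hT a => ?_⟩
  have hε0 := (h.cur a).ε0
  have hM0 := (h.cur a).M0 B (h.s0 a)
  have hA0 : 0 ≤ AH := (abs_nonneg _).trans (hAH 0)
  have hCB : 0 ≤ CB := (abs_nonneg _).trans (hCBb a 0)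
  have hks : ∀ a, ContDiff ℝ 1 (KsP I.ν a) ∧ ∀ t, |KsP I.ν a t| ≤ Ks * CB * Real.exp (-(c0 * |t|)) ∧
      |deriv (KsP I.ν a) t| ≤ Ks * CB * Real.exp (-(c0 * |t|)) := by
    intro a
    obtain ⟨k1, k2⟩ := KsP_C1 hc0 hkk h.νc hCBb a
    have h4 : 4 * Kk / c0 ≤ Ks := by
      rw [hKs]
      exact div_le_div_of_nonneg_right (by linarith [le_abs_self Kk]) hc0.le
    refine ⟨k1, fun t => ⟨(k2 t).1.trans ?_, (k2 t).2.trans ?_⟩⟩ <;> gcongr
  have hK0 : 0 ≤ K := by linarith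
  have hb := h.b0
  have hε1 : K * ε ≤ 1 := by
    refine le_trans (mul_le_mul_of_nonneg_right ?_ hε0) hε
    linarith
  obtain ⟨⟨Q', q1, q2, q3, q4⟩, F', f1, f2, f3, f4⟩ :=
    @H _ hS _ _ _ _ _ _ _ _ h hε1 _ hσ hσs _ hAH _ _ _ _ O hO a
  have r0 : (0 : ℝ) ≤ r := Nat.cast_nonneg r
  have hw0 := win_nonneg (Finset.univ : Finset (Fin r)) fun i => (O i).h
  have hs0 := sH_nonneg O c
  have hsq := sH_sq O hc
  rw [← hkq] at hsq
  obtain ⟨β, hβ⟩ : ∃ β : ℝ → ℝ, β = bmaj Finset.univ (fun i => (O i).h) 2 := ⟨_, rfl⟩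
  have cβ : Continuous β := by rw [hβ]; exact bmaj_cont _ _ _
  have iβ : Integrable (fun x => β x ^ 2) ∧ ∫ x, β x ^ 2 ≤ kp * win Finset.univ fun i => (O i).h := by
    rw [hβ, hkp]
    exact bmaj_sq_int (c := 2) (by norm_num) Finset.univ fun i => (O i).h
  simp only [← hβ] at f3 f4
  have hwc := h.wc a
  -- the derivative of the remainder
  have hder : ∀ t, HasDerivAt (phiC I O a) (Q' t + F' t + phS' O a t + deriv (KsP I.ν a) t +
      deriv (Sp.wOC (zI I) I a) t) t := by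
    intro t
    have e1 : phiC I O a = fun t => QrC I O a t + dFC I O a t + phS O a t + KsP I.ν a t +
        Sp.wOC (zI I) I a t := rfl
    rw [e1]
    exact ((((q2 t).add (f1 t)).add (phS_d hO a t)).add
      (((hks a).1.differentiable (by norm_num)) t).hasDerivAt).add
      ((hwc.differentiable (by norm_num)) t).hasDerivAt
  -- pointwise bound
  have hpt : ∀ t, phiC I O a t ^ 2 + deriv (phiC I O a) t ^ 2 ≤
      5 * (4 * K ^ 2 * (M * ε) ^ 2 * (Wm + 1) * (Wb b t + 1) +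
        4 * K ^ 2 * AH ^ 2 * Real.exp (-(1 / 4 * |t|)) +
        4 * K ^ 2 * ε ^ 2 * β t ^ 2 + 4 * K ^ 2 * (r * (M / σ)) ^ 2 * Real.exp (-(2 * |t|)) +
        2 * (ε' * sH O c) ^ 2 * Real.exp (-(2 * c * |t|)) +
        2 * (Ks * CB) ^ 2 * Real.exp (-(2 * c0 * |t|)) +
        (Sp.wOC (zI I) I a t ^ 2 + deriv (Sp.wOC (zI I) I a) t ^ 2)) := by
    intro t
    have hWb := Wb_nonneg b t
    have hWl := Wb_le b t
    have hβ0 : 0 ≤ β t := by rw [hβ]; exact bmaj_nonneg _ _ _ _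
    have x8 : Real.exp (-(1 / 8 * |t|)) ^ 2 = Real.exp (-(1 / 4 * |t|)) := by
      rw [sq, ← Real.exp_add]
      congr 1
      ring
    have x1 : Real.exp (-|t|) ^ 2 = Real.exp (-(2 * |t|)) := by
      rw [sq, ← Real.exp_add]
      congr 1
      ring
    have xc : Real.exp (-(c * |t|)) ^ 2 = Real.exp (-(2 * c * |t|)) := by
      rw [sq, ← Real.exp_add]
      congr 1
      ring
    have x0 : Real.exp (-(c0 * |t|)) ^ 2 = Real.exp (-(2 * c0 * |t|)) := by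
      rw [sq, ← Real.exp_add]
      congr 1
      ring
    have hWW : (Wb b t + 1) ^ 2 ≤ (Wm + 1) * (Wb b t + 1) := by nlinarith
    have Qb : ∀ x : ℝ, |x| ≤ K * (M * ε) * (Wb b t + 1) + K * AH * Real.exp (-(1 / 8 * |t|)) →
        x ^ 2 ≤ 2 * K ^ 2 * (M * ε) ^ 2 * (Wm + 1) * (Wb b t + 1) +
          2 * K ^ 2 * AH ^ 2 * Real.exp (-(1 / 4 * |t|)) := by
      intro x hx
      have h1 := sq_le_two hx
      have h2 : (K * (M * ε) * (Wb b t + 1)) ^ 2 ≤
          K ^ 2 * (M * ε) ^ 2 * ((Wm + 1) * (Wb b t + 1)) := by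
        rw [mul_pow, mul_pow]
        exact mul_le_mul_of_nonneg_left hWW (by positivity)
      have h3 : (K * AH * Real.exp (-(1 / 8 * |t|))) ^ 2 =
          K ^ 2 * AH ^ 2 * Real.exp (-(1 / 4 * |t|)) := by
        rw [mul_pow, mul_pow, x8]
      rw [h3] at h1
      linarith
    have Fb : ∀ x : ℝ, |x| ≤ K * ε * β t + K * r * (M / σ) * Real.exp (-|t|) →
        x ^ 2 ≤ 2 * K ^ 2 * ε ^ 2 * β t ^ 2 +
          2 * K ^ 2 * (r * (M / σ)) ^ 2 * Real.exp (-(2 * |t|)) := by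
      intro x hx
      have h1 := sq_le_two hx
      have h2 : (K * ε * β t) ^ 2 = K ^ 2 * ε ^ 2 * β t ^ 2 := by ring
      have h3 : (K * r * (M / σ) * Real.exp (-|t|)) ^ 2 =
          K ^ 2 * (r * (M / σ)) ^ 2 * Real.exp (-(2 * |t|)) := by
        rw [← x1]
        ring
      rw [h2, h3] at h1
      linarith
    have Pb : ∀ x : ℝ, |x| ≤ ε' * sH O c * Real.exp (-(c * |t|)) →
        x ^ 2 ≤ (ε' * sH O c) ^ 2 * Real.exp (-(2 * c * |t|)) := by
      intro x hx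
      rw [← sq_abs, ← xc, ← mul_pow]
      exact pow_le_pow_left₀ (abs_nonneg _) hx 2
    have Kb : ∀ x : ℝ, |x| ≤ Ks * CB * Real.exp (-(c0 * |t|)) →
        x ^ 2 ≤ (Ks * CB) ^ 2 * Real.exp (-(2 * c0 * |t|)) := by
      intro x hx
      rw [← sq_abs, ← x0, ← mul_pow]
      exact pow_le_pow_left₀ (abs_nonneg _) hx 2
    rw [(hder t).deriv, phiC_eq]
    have s1 := sq5 (QrC I O a t) (dFC I O a t) (phS O a t) (KsP I.ν a t) (Sp.wOC (zI I) I a t)
    have s2 := sq5 (Q' t) (F' t) (phS' O a t) (deriv (KsP I.ν a) t) (deriv (Sp.wOC (zI I) I a) t)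
    have a1 := Qb _ (q3 t)
    have a2 := Qb _ (q4 t)
    have a3 := Fb _ (f3 t)
    have a4 := Fb _ (f4 t)
    have a5 := Pb _ (phS_le hO a t)
    have a6 := Pb _ (phS'_le hO a t)
    have a7 := Kb _ ((hks a).2 t).1
    have a8 := Kb _ ((hks a).2 t).2
    linarith
  -- integration
  have hle : -(T + 1) ≤ T + 1 := by linarith
  have hcφ : Continuous fun t => phiC I O a t ^ 2 + deriv (phiC I O a) t ^ 2 := by
    have c1 : Continuous (phiC I O a) :=
      continuous_iff_continuousAt.2 fun t => (hder t).continuousAt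
    have c2 : Continuous (deriv (phiC I O a)) := by
      rw [show deriv (phiC I O a) = fun t => Q' t + F' t + phS' O a t + deriv (KsP I.ν a) t +
        deriv (Sp.wOC (zI I) I a) t from funext fun t => (hder t).deriv]
      exact (((q1.add f2).add (phS_c hO a)).add ((hks a).1.continuous_deriv le_rfl)).add
        (hwc.continuous_deriv le_rfl)
    exact (c1.pow 2).add (c2.pow 2)
  have cw : Continuous fun t => Sp.wOC (zI I) I a t ^ 2 + deriv (Sp.wOC (zI I) I a) t ^ 2 :=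
    (hwc.continuous.pow 2).add ((hwc.continuous_deriv le_rfl).pow 2)
  obtain ⟨iW, eW⟩ := Wb_int hb
  have j1 : IntervalIntegrable (fun t => 4 * K ^ 2 * (M * ε) ^ 2 * (Wm + 1) * (Wb b t + 1)) volume
      (-(T + 1)) (T + 1) :=
    (iW.intervalIntegrable.add (continuous_const.intervalIntegrable _ _)).const_mul _
  have cE : ∀ d : ℝ, Continuous fun t : ℝ => Real.exp (-(d * |t|)) := fun d => by fun_prop
  have j2 : IntervalIntegrable (fun t => 4 * K ^ 2 * AH ^ 2 * Real.exp (-(1 / 4 * |t|))) volume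
      (-(T + 1)) (T + 1) := (continuous_const.mul (cE _)).intervalIntegrable _ _
  have j3 : IntervalIntegrable (fun t => 4 * K ^ 2 * ε ^ 2 * β t ^ 2) volume
      (-(T + 1)) (T + 1) := (continuous_const.mul (cβ.pow 2)).intervalIntegrable _ _
  have j4 : IntervalIntegrable (fun t => 4 * K ^ 2 * (r * (M / σ)) ^ 2 * Real.exp (-(2 * |t|))) volume
      (-(T + 1)) (T + 1) := (continuous_const.mul (cE _)).intervalIntegrable _ _
  have j5 : IntervalIntegrable (fun t => 2 * (ε' * sH O c) ^ 2 * Real.exp (-(2 * c * |t|))) volume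
      (-(T + 1)) (T + 1) := (continuous_const.mul (cE _)).intervalIntegrable _ _
  have j6 : IntervalIntegrable (fun t => 2 * (Ks * CB) ^ 2 * Real.exp (-(2 * c0 * |t|))) volume
      (-(T + 1)) (T + 1) := (continuous_const.mul (cE _)).intervalIntegrable _ _
  have j7 : IntervalIntegrable (fun t => Sp.wOC (zI I) I a t ^ 2 +
      deriv (Sp.wOC (zI I) I a) t ^ 2) volume (-(T + 1)) (T + 1) := cw.intervalIntegrable _ _
  have iE : ∀ {d : ℝ}, 0 < d → ∫ t in (-(T + 1))..(T + 1), Real.exp (-(d * |t|)) ≤ 2 / d := by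
    intro d hd
    obtain ⟨i1, i2⟩ := exp_int hd
    exact (win_int_le i1 (fun t => (Real.exp_pos _).le) hT).trans i2.le
  have k1 : ∫ t in (-(T + 1))..(T + 1), 4 * K ^ 2 * (M * ε) ^ 2 * (Wm + 1) * (Wb b t + 1) ≤
      Z1 * ((M * ε) ^ 2 * (b + T + 1)) := by
    rw [intervalIntegral.integral_const_mul, intervalIntegral.integral_add
      iW.intervalIntegrable (continuous_const.intervalIntegrable _ _),
      intervalIntegral.integral_const]
    have h1 := win_int_le iW (fun t => Wb_nonneg b t) hT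
    rw [eW] at h1
    have h2 : (T + 1 - -(T + 1)) • (1 : ℝ) = 2 * (T + 1) := by
      rw [smul_eq_mul]
      ring
    rw [h2, hZ1]
    have h3 : 0 ≤ 4 * K ^ 2 * (M * ε) ^ 2 * (Wm + 1) := by positivity
    have h4 : (∫ t in (-(T + 1))..(T + 1), Wb b t) + 2 * (T + 1) ≤ (2 * Wm + 2) * (b + T + 1) := by
      have h5 : 0 ≤ Wm * (T + 1) := by positivity
      nlinarith
    calc _ ≤ 4 * K ^ 2 * (M * ε) ^ 2 * (Wm + 1) * ((2 * Wm + 2) * (b + T + 1)) :=
          mul_le_mul_of_nonneg_left h4 h3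
      _ = _ := by ring
  have k2 : ∫ t in (-(T + 1))..(T + 1), 4 * K ^ 2 * AH ^ 2 * Real.exp (-(1 / 4 * |t|)) ≤
      Z2 * AH ^ 2 := by
    rw [intervalIntegral.integral_const_mul, hZ2]
    have h1 := iE (d := 1 / 4) (by norm_num)
    have h3 : 0 ≤ 4 * K ^ 2 * AH ^ 2 := by positivity
    nlinarith
  have k3 : ∫ t in (-(T + 1))..(T + 1), 4 * K ^ 2 * ε ^ 2 * β t ^ 2 ≤
      Z3 * (ε ^ 2 * win Finset.univ fun i => (O i).h) := by
    rw [intervalIntegral.integral_const_mul, hZ3]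
    have h1 := (win_int_le iβ.1 (fun t => sq_nonneg _) hT).trans iβ.2
    calc _ ≤ 4 * K ^ 2 * ε ^ 2 * (kp * win Finset.univ fun i => (O i).h) :=
          mul_le_mul_of_nonneg_left h1 (by positivity)
      _ = _ := by ring
  have k4 : ∫ t in (-(T + 1))..(T + 1), 4 * K ^ 2 * (r * (M / σ)) ^ 2 * Real.exp (-(2 * |t|)) ≤
      Z4 * (r * (M / σ)) ^ 2 := by
    rw [intervalIntegral.integral_const_mul, hZ4]
    have h1 := iE (d := 2) (by norm_num)
    have h3 : 0 ≤ 4 * K ^ 2 * (r * (M / σ)) ^ 2 := by positivity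
    nlinarith
  have k5 : ∫ t in (-(T + 1))..(T + 1), 2 * (ε' * sH O c) ^ 2 * Real.exp (-(2 * c * |t|)) ≤
      Z5 * (ε' ^ 2 * win Finset.univ fun i => (O i).h) := by
    rw [intervalIntegral.integral_const_mul, hZ5]
    have h1 := iE (d := 2 * c) (by linarith)
    have h2 : 2 * (ε' * sH O c) ^ 2 ≤ 2 * (ε' ^ 2 * (kq * win Finset.univ fun i => (O i).h)) := by
      rw [mul_pow]
      have := mul_le_mul_of_nonneg_left hsq (sq_nonneg ε')
      linarith
    calc _ ≤ 2 * (ε' ^ 2 * (kq * win Finset.univ fun i => (O i).h)) * (2 / (2 * c)) := by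
          refine mul_le_mul h2 h1 ?_ (by positivity)
          exact intervalIntegral.integral_nonneg hle fun t _ => (Real.exp_pos _).le
      _ = _ := by
          field_simp
  have k6 : ∫ t in (-(T + 1))..(T + 1), 2 * (Ks * CB) ^ 2 * Real.exp (-(2 * c0 * |t|)) ≤
      Z6 * CB ^ 2 := by
    rw [intervalIntegral.integral_const_mul, hZ6]
    have h1 := iE (d := 2 * c0) (by linarith)
    calc _ ≤ 2 * (Ks * CB) ^ 2 * (2 / (2 * c0)) := mul_le_mul_of_nonneg_left h1 (by positivity)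
      _ = _ := by
          field_simp
  have e0 : Gs.Nl (datC I O) T a =
      ∫ t in (-(T + 1))..(T + 1), (phiC I O a t ^ 2 + deriv (phiC I O a) t ^ 2) := rfl
  rw [e0]
  refine (intervalIntegral.integral_mono_on hle (hcφ.intervalIntegrable _ _)
    (((((((j1.add j2).add j3).add j4).add j5).add j6).add j7).const_mul 5) fun t _ => hpt t).trans ?_
  rw [intervalIntegral.integral_const_mul,
    intervalIntegral.integral_add (((((j1.add j2).add j3).add j4).add j5).add j6) j7,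
    intervalIntegral.integral_add ((((j1.add j2).add j3).add j4).add j5) j6,
    intervalIntegral.integral_add (((j1.add j2).add j3).add j4) j5,
    intervalIntegral.integral_add ((j1.add j2).add j3) j4,
    intervalIntegral.integral_add (j1.add j2) j3, intervalIntegral.integral_add j1 j2]
  have e7 : ∫ t in (-(T + 1))..(T + 1), (Sp.wOC (zI I) I a t ^ 2 +
      deriv (Sp.wOC (zI I) I a) t ^ 2) = NWC I T a := rfl
  rw [e7]
  obtain ⟨x1, hx1⟩ : ∃ x : ℝ, x = (M * ε) ^ 2 * (b + T + 1) := ⟨_, rfl⟩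
  obtain ⟨x3, hx3⟩ : ∃ x : ℝ, x = ε ^ 2 * win Finset.univ fun i => (O i).h := ⟨_, rfl⟩
  obtain ⟨x5, hx5⟩ : ∃ x : ℝ, x = ε' ^ 2 * win Finset.univ fun i => (O i).h := ⟨_, rfl⟩
  have p1 : 0 ≤ x1 := by rw [hx1]; positivity
  have p3 : 0 ≤ x3 := by rw [hx3]; positivity
  have p5 : 0 ≤ x5 := by rw [hx5]; positivity
  rw [add_mul (ε ^ 2), ← hx1, ← hx3, ← hx5]
  rw [← hx1] at k1
  rw [← hx3] at k3
  rw [← hx5] at k5
  obtain ⟨X, hX⟩ : ∃ X : ℝ, X = AH ^ 2 + CB ^ 2 + x1 + (r * (M / σ)) ^ 2 + (x3 + x5) := ⟨_, rfl⟩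
  have pA := sq_nonneg AH
  have pC := sq_nonneg CB
  have pr := sq_nonneg (r * (M / σ))
  have c1 : Z1 * x1 ≤ Z1 * X := mul_le_mul_of_nonneg_left (by rw [hX]; linarith) z1
  have c2 : Z2 * AH ^ 2 ≤ Z2 * X := mul_le_mul_of_nonneg_left (by rw [hX]; linarith) z2
  have c3 : Z3 * x3 ≤ Z3 * X := mul_le_mul_of_nonneg_left (by rw [hX]; linarith) z3
  have c4 : Z4 * (r * (M / σ)) ^ 2 ≤ Z4 * X := mul_le_mul_of_nonneg_left (by rw [hX]; linarith) z4
  have c5 : Z5 * x5 ≤ Z5 * X := mul_le_mul_of_nonneg_left (by rw [hX]; linarith) z5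
  have c6 : Z6 * CB ^ 2 ≤ Z6 * X := mul_le_mul_of_nonneg_left (by rw [hX]; linarith) z6
  have c0' : 0 ≤ K * X := mul_nonneg hK0 (by rw [hX]; linarith)
  rw [← hX]
  nlinarith

end

end PLT.Cv

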