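import Pool.Agent.PHK.DecZ6
import Pool.Agent.PHK.InsTwo6
import Pool.Agent.PLT.ClsCrvC

/-!
# Sea on a curve: the class of one body data, admissible statistics

(P) twins of `PHK/DecZ6` and of the class half of `PHK/InsTwo6`; the curves of the quanta lie in the
strip of the offsets `lo .. hi` (`KsC lo hi`). The left end `a0` of the strip of the statistics is a
variable (`a0 < (1 - j2) l`).

* `AdmC`, `AdSC`: admissible statistics;
* `ClZC`: the class of one body data; **`ClZC.tw`**: it is closed under `tw`;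
* `AdmC.sok`: statistics on straight lines in the boxes; `AdmC.box`.
-/

set_option autoImplicit false
set_option linter.unusedSectionVars false

noncomputable section

open Complex MeasureTheory Finset
open scoped ENNReal

namespace PLT

open NUO NUP1 NUP1S NUP1S.Ab NUGC NUGC.PLX PHK
open PBF.PLX (decOn_mul bdd_mul norm_tw_le)
open PBI (Stt)
open NUP1.Bd (Ob)

/-- **admissible statistics**: analytic and bounded on the strip `[a0, (1 - lo) l]` of the quanta and
of the holes, and on the boxes of the lines of the objects -/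
structure AdmC (a : Stt) (P : Par6) (a0 lo C : ℝ) : Prop where
  m : ∀ s k, Measurable (a s k)
  d : ∀ s (u : ℂ), a0 ≤ u.re → u.re ≤ (1 - lo) * l → DifferentiableAt ℂ (a s none) u
  A : ∀ s (u : ℂ), a0 ≤ u.re → u.re ≤ (1 - lo) * l → ‖a s none u‖ ≤ C
  dO : ∀ s (o : O3) (u : ℂ), u.re ∈ Set.Icc (loB P (some o)) (hiB P (some o)) →
    DifferentiableAt ℂ (a s (some o)) u
  bO : ∀ s (o : O3) (u : ℂ), u.re ∈ Set.Icc (loB P (some o)) (hiB P (some o)) →
    ‖a s (some o) u‖ ≤ C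

/-- **admissible statistics** -/
def AdSC (P : Par6) (a0 lo : ℝ) (D : Stt) : Prop := ∃ C, AdmC D P a0 lo C

/-- **the class of one body data** -/
structure ClZC (Z : Stt) (P : Par6) (lo hi κ κ' : ℝ) (Q : ℤ) : Prop where
  m : ∀ s k, Measurable (Z s k)
  q : QOkC Z lo hi κ' Q
  dec : ∀ s o, DecOn (κ + 2 * Q * sc (s, ob4 o)) (Set.Icc (loB P o) (hiB P o)) (Z s o)
  dif : ∀ s o (u : ℂ), u.re ∈ Set.Icc (loB P o) (hiB P o) → DifferentiableAt ℂ (Z s o) u
  S : ∀ s (N : ℕ), DecOn (N : ℝ) {-((1 + P.e) * l)} (Z s (some .S))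
  inv : ∃ κh del : ℝ, κh < 6 ∧ 0 < del ∧
    (∀ s, Bdd (Set.Icc ((1 - P.j2) * l) ((1 - P.j1) * l)) (κh + 2 * Q * sc (s, Ob.A))
      fun u => (Z s none u)⁻¹) ∧
    (∀ s (u : ℂ), (1 - P.j2) * l - del < u.re → u.re < (1 - P.j1) * l + del →
      DifferentiableAt ℂ (fun u => (Z s none u)⁻¹) u) ∧
    ∀ s (u : ℂ), 51 / 100 * l ≤ u.re → u.re < (1 - P.j1) * l + del → Z s none u ≠ 0

variable {Z a : Stt} {P : Par6} {a0 lo hi κ κ' C : ℝ} {Q : ℤ}

/-- **the class is closed under `tw`** -/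
theorem ClZC.tw (h : ClZC Z P lo hi κ κ' Q) (ha : AdmC a P a0 lo C) (hG : GoodP6 P)
    (h0 : a0 < (1 - P.j2) * l) (h1 : a0 ≤ (1 - hi) * l) (h2 : a0 ≤ 51 / 100 * l) (hlo : lo ≤ 0)
    {ε : ℂ} (hε : ‖ε‖ * C ≤ 1 / 2) : ClZC (PBI.tw Z a ε) P lo hi κ κ' Q := by
  have hl := Bd.l_pos
  have g1 := hG.j1
  have g2 := hG.j1e
  have g3 := hG.ej2
  have g6 := hG.e13
  have hle : l ≤ (1 - lo) * l := by nlinarith
  obtain ⟨κh, del, k1, d0, hH, hF, hN⟩ := h.inv
  obtain ⟨dd, hdd⟩ : ∃ dd : ℝ, dd = min del (min ((1 - P.j2) * l - a0) (P.j1 * l)) := ⟨_, rfl⟩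
  have dd0 : 0 < dd := by
    rw [hdd]
    refine lt_min d0 (lt_min (by linarith) (by nlinarith))
  have dd1 : dd ≤ del := by rw [hdd]; exact min_le_left _ _
  have dd2 : dd ≤ (1 - P.j2) * l - a0 := by
    rw [hdd]
    exact (min_le_right _ _).trans (min_le_left _ _)
  have dd3 : dd ≤ P.j1 * l := by
    rw [hdd]
    exact (min_le_right _ _).trans (min_le_right _ _)
  have e : ∀ (s : Bool) (ε : ℂ), (fun u => (PBI.tw Z a ε s none u)⁻¹) =
      fun u => (Z s none u)⁻¹ * (1 + ε * a s none u)⁻¹ := by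
    intro s ε
    funext u
    exact mul_inv _ _
  refine ⟨fun s k => (h.m s k).mul (((ha.m s k).const_mul ε).const_add 1),
    ⟨h.q.kpos, fun s => ?_, fun s u hu => ?_, fun s => ?_⟩, fun s o => ?_, fun s o u hu => ?_,
    fun s N => ?_, κh, dd, k1, dd0, fun s => ?_, fun s u h3 h4 => ?_, fun s u h3 h4 => ?_⟩
  · exact (h.q.m s).mul (((ha.m s none).const_mul ε).const_add 1)
  · exact (h.q.d s u hu).mul (((ha.d s u (h1.trans hu.1) hu.2).const_mul ε).const_add 1)
  · exact bdd_mul (h.q.b s) (B := 1 + ‖ε‖ * C) fun z hz =>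
      norm_tw_le (ha.A s z (h1.trans hz.1) hz.2) ε
  · refine decOn_mul (h.dec s o) (B := 1 + ‖ε‖ * C) fun z hz => norm_tw_le ?_ ε
    rcases o with _ | o
    · exact ha.A s z (h2.trans hz.1) (hz.2.trans hle)
    · exact ha.bO s o z hz
  · refine (h.dif s o u hu).mul ?_
    rcases o with _ | o
    · exact ((ha.d s u (h2.trans hu.1) (hu.2.trans hle)).const_mul ε).const_add 1
    · exact ((ha.dO s o u hu).const_mul ε).const_add 1
  · refine decOn_mul (h.S s N) (B := 1 + ‖ε‖ * C) fun z hz => norm_tw_le (ha.bO s .S z ?_) ε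
    rw [Set.mem_singleton_iff] at hz
    rw [hz]
    refine ⟨le_rfl, ?_⟩
    show -((1 + P.e) * l) ≤ -(5 / 4 * l)
    nlinarith
  · rw [e]
    refine bdd_mul (hH s) (B := 2) fun z hz => norm_inv_tw (ha.A s z ?_ ?_) hε
    · exact h0.le.trans hz.1
    · have := hz.2
      nlinarith
  · have u1 : a0 ≤ u.re := by linarith
    have u2 : u.re ≤ (1 - lo) * l := by nlinarith
    rw [e]
    refine (hF s u (by linarith) (by linarith)).mul ?_
    exact (((ha.d s u u1 u2).const_mul ε).const_add 1).inv (one_tw_ne (ha.A s u u1 u2) hε)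
  · have u1 : a0 ≤ u.re := h2.trans h3
    have u2 : u.re ≤ (1 - lo) * l := by nlinarith
    exact mul_ne_zero (hN s u h3 (by linarith)) (one_tw_ne (ha.A s u u1 u2) hε)

/-- admissible statistics are bounded on straight lines in the boxes -/
theorem AdmC.sok (ha : AdmC a P a0 lo C) (hlo : lo ≤ 0) (h2 : a0 ≤ 51 / 100 * l) {L : PBI.Lns}
    {y0 : ℝ} {n n' : ℕ}
    (hw : PBI.AllW y0 n n' L fun c x => ∀ i, x i ∈ Set.Icc (loB P (c i).2) (hiB P (c i).2)) :
    PBI.SOk y0 n n' L a := by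
  have hl := Bd.l_pos
  have hle : l ≤ (1 - lo) * l := by nlinarith
  refine ⟨|C|, abs_nonneg _, fun p p' k k' h1 h2' => ⟨ha.m, fun i t => ?_⟩⟩
  have h3 := hw p p' k k' h1 h2' i
  refine le_trans ?_ (le_abs_self C)
  generalize PBI.cl n n' k k' i = c at h3 ⊢
  obtain ⟨s, o⟩ := c
  have e : (vl ((L.all y0 n n' k k') i) t).re = (L.all y0 n n' k k') i := NUO.vl_re59 _ _
  rcases o with _ | o
  · refine ha.A s _ ?_ ?_
    · rw [e]
      exact h2.trans h3.1
    · rw [e]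
      exact h3.2.trans hle
  · refine ha.bO s o _ ?_
    rw [e]
    exact h3

theorem AdmC.mono (ha : AdmC a P a0 lo C) {a1 lo1 : ℝ} (h1 : a0 ≤ a1) (h2 : lo ≤ lo1) :
    AdmC a P a1 lo1 C := by
  have hl := Bd.l_pos
  have h3 : (1 - lo1) * l ≤ (1 - lo) * l := by nlinarith
  exact ⟨ha.m, fun s u x y => ha.d s u (h1.trans x) (y.trans h3),
    fun s u x y => ha.A s u (h1.trans x) (y.trans h3), ha.dO, ha.bO⟩

theorem AdSC.mono {D : Stt} (h : AdSC P a0 lo D) {a1 lo1 : ℝ} (h1 : a0 ≤ a1) (h2 : lo ≤ lo1) :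
    AdSC P a1 lo1 D := by
  obtain ⟨C, h⟩ := h
  exact ⟨C, h.mono h1 h2⟩

/-- the landed statistics -/
theorem AdmC.of_six {x0 δ : ℝ} (h : Adm6 a P x0 δ C) : AdmC a P (99 / 800 * l) (-δ) C := by
  have e : (1 - -δ) * l = (1 + δ) * l := by ring
  exact ⟨h.m, fun s u x y => h.d s u x (by rwa [e] at y), fun s u x y => h.A s u x (by rwa [e] at y),
    h.dO, h.bO⟩

end PLT

end
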