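import Pool.Agent.PLT.SeaC

/-!
# The straight sea of rows at any heights

* `avW w h F z = ∑ i, w i * F (z - h i)`: average over the rows with weights `w`;
* `WtI w`: weights of mass one; bounds of `avW w h Pc`, `avW w h vs`, `avW w h vx`, uniform in `|h i| ≤ s0`;
* `seaW w h`: the sea of weights `w` at heights `h`, straight (`eta = 0`); **`seaWU`**;
* **`seaI m h`** (`m` rows at the heights `h 0, .., h (m - 1)`), **`seaIB : SeaCB`**, **`seaIU`** (`|h i| ≤ 1` for `i < m`);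
  `seaI_Pc`, `seaI_P`: `m Pc = Σ Pc (z - h i)`.
-/

set_option autoImplicit false
set_option linter.unusedSectionVars false

open MeasureTheory Set Filter Topology Complex
open scoped ContDiff

namespace PLT

open NUMF (l l_pos)
open NUAct (ks kx ks_bd kx_bd ks_meas kx_cont)

noncomputable section

variable {ι : Type*} [Fintype ι]

/-- average over the rows -/
def avW (w h : ι → ℝ) (F : ℂ → ℂ) (z : ℂ) : ℂ := ∑ i, (w i : ℂ) * F (z - h i)

/-- weights of mass one -/
structure WtI (w : ι → ℝ) : Prop where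
  nn : ∀ i, 0 ≤ w i
  sum : ∑ i, w i = 1

section

variable {w h : ι → ℝ} {F : ℂ → ℂ}

private lemma im_sub (z : ℂ) (x : ℝ) : (z - x).im = z.im := by simp

private lemma re_sub (z : ℂ) (x : ℝ) : (z - x).re = z.re - x := by simp

theorem avW_diff {a : ℝ} (hF : ∀ z : ℂ, |z.im| < a → DifferentiableAt ℂ F z) {z : ℂ}
    (hz : |z.im| < a) : DifferentiableAt ℂ (avW w h F) z := by
  have e : avW w h F = fun z => ∑ i, (w i : ℂ) * F (z - h i) := rfl
  rw [e]
  refine DifferentiableAt.fun_sum fun i _ => ?_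
  have h1 : DifferentiableAt ℂ F (z - h i) := hF _ (by rwa [im_sub])
  exact (h1.comp z (differentiableAt_id.sub_const _)).const_mul _

theorem avW_iter {a : ℝ} (hF : ∀ z : ℂ, |z.im| < a → DifferentiableAt ℂ F z) (n : ℕ) {z : ℂ}
    (hz : |z.im| < a) : iteratedDeriv n (avW w h F) z = avW w h (iteratedDeriv n F) z := by
  have hop : IsOpen {z : ℂ | |z.im| < a} := isOpen_lt (Complex.continuous_im.abs) continuous_const
  have hA : ∀ z : ℂ, |z.im| < a → ContDiffAt ℂ (n : ℕ∞) F z := fun z hz => by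
    have hd : DifferentiableOn ℂ F {z : ℂ | |z.im| < a} := fun w hw =>
      (hF w hw).differentiableWithinAt
    exact (hd.analyticAt (hop.mem_nhds hz)).contDiffAt
  have e : avW w h F = fun z => ∑ i, (w i : ℂ) * F (z - h i) := rfl
  rw [e, iteratedDeriv_fun_sum]
  · unfold avW
    refine Finset.sum_congr rfl fun i _ => ?_
    rw [iteratedDeriv_const_mul_field (n := n) (w i : ℂ) (fun z => F (z - h i)),
      iteratedDeriv_comp_sub_const]
  · intro i _
    have h1 : ContDiffAt ℂ (n : ℕ∞) F (z - h i) := hA _ (by rwa [im_sub])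
    exact contDiffAt_const.mul (h1.comp z (contDiffAt_id.sub contDiffAt_const))

/-- bounds of an average -/
theorem avW_le (hw : WtI w) {z : ℂ} {B : ℝ}
    (hF : ∀ i, ‖F (z - h i)‖ ≤ B) : ‖avW w h F z‖ ≤ B := by
  unfold avW
  refine (norm_sum_le _ _).trans ?_
  calc ∑ i, ‖(w i : ℂ) * F (z - h i)‖ ≤ ∑ i, w i * B := by
        refine Finset.sum_le_sum fun i _ => ?_
        rw [norm_mul, Complex.norm_real, Real.norm_eq_abs, abs_of_nonneg (hw.nn i)]
        exact mul_le_mul_of_nonneg_left (hF i) (hw.nn i)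
    _ = B := by rw [← Finset.sum_mul, hw.sum, one_mul]

theorem avW_conv {k : ℝ → ℂ} {z : ℂ} (hi : ∀ i, Integrable fun u : ℝ => F (z - h i - u) * k u)
    {G : ℂ → ℂ} (hG : ∀ i, ∫ u : ℝ, F (z - h i - u) * k u = G (z - h i)) :
    ∫ u : ℝ, avW w h F (z - u) * k u = avW w h G z := by
  have e : (fun u : ℝ => avW w h F (z - u) * k u) =
      fun u : ℝ => ∑ i, (w i : ℂ) * (F (z - h i - u) * k u) := by
    funext u
    unfold avW
    rw [Finset.sum_mul]
    refine Finset.sum_congr rfl fun i _ => ?_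
    rw [sub_right_comm]
    ring
  rw [e, integral_finsetSum _ fun i _ => (hi i).const_mul _]
  unfold avW
  refine Finset.sum_congr rfl fun i _ => ?_
  rw [integral_const_mul, hG]


/-! ### exponential weights -/

private lemma exp_shift {s s0 : ℝ} (hs : |s| ≤ s0) (t : ℝ) : Real.exp (-(8 / 3) * |t - s|) ≤
    Real.exp (8 / 3 * s0) * Real.exp (-(8 / 3) * |t|) := by
  rw [← Real.exp_add]
  refine Real.exp_le_exp.2 ?_
  have h1 : |t| ≤ |t - s| + |s| := by
    have := abs_add_le (t - s) s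
    rwa [sub_add_cancel] at this
  linarith

private lemma exp_shift' {s s0 : ℝ} (hs : |s| ≤ s0) (t : ℝ) : Real.exp (-(8 / 3) * s0) *
    Real.exp (-(8 / 3) * |t|) ≤ Real.exp (-(8 / 3) * |t - s|) := by
  rw [← Real.exp_add]
  refine Real.exp_le_exp.2 ?_
  have h1 : |t - s| ≤ |t| + |s| := abs_sub _ _
  linarith

/-- derivatives of the averaged density -/
theorem avW_Pc_bd (s0 b : ℝ) (hb0 : 0 ≤ b) (hb : b < l) (n : ℕ) : ∃ C : ℝ, 0 ≤ C ∧
    ∀ w h : ι → ℝ, WtI w → (∀ i, |h i| ≤ s0) → ∀ z : ℂ, |z.im| ≤ b →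
      ‖iteratedDeriv n (avW w h NUMF.Pc) z‖ ≤ C * Real.exp (-(8 / 3) * |z.re|) := by
  obtain ⟨C, hC, H⟩ := NUMF.Pc_deriv_exp hb0 hb n
  refine ⟨C * Real.exp (8 / 3 * s0), by positivity, fun w h hw hh z hz => ?_⟩
  rw [avW_iter (a := l) (fun z hz => NUMF.Pc_diff hz) n (hz.trans_lt hb)]
  refine avW_le hw fun i => ?_
  have h1 := H (z - h i) (by rwa [im_sub])
  rw [re_sub] at h1
  refine h1.trans ?_
  rw [mul_assoc]
  exact mul_le_mul_of_nonneg_left (exp_shift (hh i) _) hC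

/-- growth of the averaged fields -/
theorem avW_gr {F : ℂ → ℂ} {K a : ℝ} (hK : 0 ≤ K) (hF : ∀ z : ℂ, |z.im| ≤ a → ‖F z‖ ≤ K * (1 + |z.re|))
    {s0 : ℝ} {w h : ι → ℝ} (hw : WtI w) (hh : ∀ i, |h i| ≤ s0) (hs0 : s0 ≤ 1) {z : ℂ} (hz : |z.im| ≤ a) :
    ‖avW w h F z‖ ≤ 2 * K * (1 + |z.re|) := by
  refine avW_le hw fun i => ?_
  have h1 := hF (z - h i) (by rwa [im_sub])
  rw [re_sub] at h1
  refine h1.trans ?_
  have h2 : |z.re - h i| ≤ |z.re| + |h i| := abs_sub _ _
  have h3 := hh i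
  have h4 := abs_nonneg z.re
  nlinarith

/-- the real density -/
def dnI (w h : ι → ℝ) (t : ℝ) : ℝ := ∑ i, w i * NUMF.P (t - h i)

theorem dnI_real (w h : ι → ℝ) (t : ℝ) : avW w h NUMF.Pc t = (dnI w h t : ℂ) := by
  unfold avW dnI
  push_cast
  refine Finset.sum_congr rfl fun i _ => ?_
  rw [← NUMF.Pc_ofReal]
  push_cast
  rfl

theorem dnI_low {s0 : ℝ} {w h : ι → ℝ} (hw : WtI w) (hh : ∀ i, |h i| ≤ s0) (t : ℝ) :
    4 / (√3 * Real.pi) * Real.exp (-(8 / 3) * s0) * Real.exp (-(8 / 3) * |t|) ≤ dnI w h t := by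
  have key : ∀ i, 4 / (√3 * Real.pi) * Real.exp (-(8 / 3) * s0) * Real.exp (-(8 / 3) * |t|) ≤
      NUMF.P (t - h i) := fun i => by
    refine le_trans ?_ (NUMF.le_P (t - h i))
    rw [mul_assoc]
    have := Real.pi_pos
    have := NUMF.sq3_pos
    exact mul_le_mul_of_nonneg_left (exp_shift' (hh i) t) (by positivity)
  unfold dnI
  calc 4 / (√3 * Real.pi) * Real.exp (-(8 / 3) * s0) * Real.exp (-(8 / 3) * |t|) =
        ∑ i, w i * (4 / (√3 * Real.pi) * Real.exp (-(8 / 3) * s0) * Real.exp (-(8 / 3) * |t|)) := by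
        rw [← Finset.sum_mul, hw.sum, one_mul]
    _ ≤ _ := Finset.sum_le_sum fun i _ => mul_le_mul_of_nonneg_left (key i) (hw.nn i)

private theorem P_integrable' : Integrable NUMF.P := NUMF.P_integrable

theorem dnI_mass {w h : ι → ℝ} (hw : WtI w) : ∫ t, dnI w h t = 1 := by
  unfold dnI
  rw [integral_finsetSum _ fun i _ => (NUMF.P_integrable.comp_sub_right (h i)).const_mul _]
  rw [← hw.sum]
  refine Finset.sum_congr rfl fun i _ => ?_
  rw [integral_const_mul, integral_sub_right_eq_self (fun t => NUMF.P t), NUMF.integral_P, mul_one]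

theorem avW_conv_s {w h : ι → ℝ} {z : ℂ} (hz : |z.im| < l) :
    ∫ u : ℝ, avW w h NUMF.Pc (z - u) * ks u = avW w h NUAct.vs z := by
  obtain ⟨K, hK⟩ := ks_bd
  refine avW_conv (fun i => ?_) fun i => ?_
  · exact NUAct.J_int ks_meas hK (by rwa [im_sub])
  · exact NUAct.horiz_s (by rwa [im_sub])

theorem avW_conv_x {w h : ι → ℝ} {z : ℂ} (hz : |z.im| < l) :
    ∫ u : ℝ, avW w h NUMF.Pc (z - u) * kx u = avW w h NUAct.vx z := by
  obtain ⟨K, hK⟩ := kx_bd
  refine avW_conv (fun i => ?_) fun i => ?_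
  · exact NUAct.J_int kx_cont.aestronglyMeasurable hK (by rwa [im_sub])
  · exact NUAct.horiz_x (by rwa [im_sub])

/-! ### the sea -/

/-- **the straight sea** of weights `w` at the heights `h` -/
@[reducible] def seaW (w h : ι → ℝ) (hw : WtI w) : SeaC where
  dens := dnI w h
  densc := avW w h NUMF.Pc
  fs := avW w h NUAct.vs
  fx := avW w h NUAct.vx
  eta := fun _ => 0
  smooth := contDiff_const
  eta_nn := fun _ => by
    have := l_pos
    linarith
  eta_le7 := fun _ => by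
    have := l_pos
    linarith
  eta'_le := fun _ => by simp
  real := fun t => by simpa using dnI_real w h t
  mass := dnI_mass hw

/-- the bounds for all weights and heights `|h i| ≤ s0` -/
theorem seaWU (s0 : ℝ) (hs0 : s0 ≤ 1) : ∃ B : SeaCB, B.d = 0 ∧ B.top = 0 ∧
    ∀ {ι : Type} [Fintype ι] (w h : ι → ℝ) (hw : WtI w), (∀ i, |h i| ≤ s0) →
      @SeaCU B (seaW w h hw) := by
  have hl := l_pos
  have hb : 0 ≤ l / 2 := by linarith
  have hbd : ∀ n : ℕ, ∃ C : ℝ, 0 ≤ C ∧ ∀ {ι : Type} [Fintype ι] (w h : ι → ℝ), WtI w →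
      (∀ i, |h i| ≤ s0) → ∀ z : ℂ, |z.im| ≤ l / 2 →
      ‖iteratedDeriv n (avW w h NUMF.Pc) z‖ ≤ C * Real.exp (-(8 / 3) * |z.re|) := by
    intro n
    obtain ⟨C, hC, H⟩ := NUMF.Pc_deriv_exp hb (by linarith : l / 2 < l) n
    refine ⟨C * Real.exp (8 / 3 * s0), by positivity, fun w h hw hh z hz => ?_⟩
    rw [avW_iter (a := l) (fun z hz => NUMF.Pc_diff hz) n (hz.trans_lt (by linarith))]
    refine avW_le hw fun i => ?_
    have h1 := H (z - h i) (by rwa [im_sub])
    rw [re_sub] at h1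
    refine h1.trans ?_
    rw [mul_assoc]
    exact mul_le_mul_of_nonneg_left (exp_shift (hh i) _) hC
  choose Cb hCb HCb using hbd
  obtain ⟨Ks, hKs, HKs⟩ := NUAct.vs_gr
  obtain ⟨Kx, hKx, HKx⟩ := NUAct.vx_gr
  have hpi := Real.pi_pos
  have h3 := NUMF.sq3_pos
  obtain ⟨B, hB⟩ : ∃ B : SeaCB, B =
    { h := l / 40, Cb := Cb, Ce := fun _ => 0, c0 := 4 / (√3 * Real.pi) * Real.exp (-(8 / 3) * s0)
      K := 2 * Ks + 2 * Kx, d := 0, h0 := by positivity, h1 := le_rfl, d0 := le_rfl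
      dh := by linarith, dl := by positivity, top := 0, top0 := le_rfl, top1 := by positivity, Cb0 := hCb
      Ce0 := fun _ => le_rfl, c0p := by positivity, K0 := by positivity } := ⟨_, rfl⟩
  refine ⟨B, by rw [hB], by rw [hB], fun {ι} _ w h hw hh => ?_⟩
  have im2 : ∀ {z : ℂ}, -(2 * B.h) < z.im → z.im < l / 2 → |z.im| < l := by
    intro z h1 h2
    rw [hB] at h1
    simp only at h1
    rw [abs_lt]
    constructor <;> linarith
  have im1 : ∀ {z : ℂ}, -B.h ≤ z.im → z.im ≤ l / 4 → |z.im| ≤ l / 2 := by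
    intro z h1 h2
    rw [hB] at h1
    simp only at h1
    rw [abs_le]
    constructor <;> linarith
  have gr : ∀ {F : ℂ → ℂ} {K : ℝ}, 0 ≤ K → K ≤ Ks + Kx →
      (∀ z : ℂ, |z.im| ≤ l / 2 → ‖F z‖ ≤ K * (1 + |z.re|)) → ∀ z : ℂ, |z.im| ≤ l / 2 →
      ‖avW w h F z‖ ≤ (2 * Ks + 2 * Kx) * (1 + |z.re|) := by
    intro F K hK hK' hF z hz
    refine (avW_gr hK hF hw hh hs0 hz).trans ?_
    have := abs_nonneg z.re
    exact mul_le_mul_of_nonneg_right (by linarith) (by linarith)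
  let _ : SeaC := seaW w h hw
  exact
    { diff := fun z h1 h2 => avW_diff (fun z hz => NUMF.Pc_diff hz) (im2 h1 h2)
      bd := fun n z h1 h2 => by
        have := HCb n w h hw hh z (im1 h1 h2)
        rw [hB]
        exact this
      low := fun t => by
        have := dnI_low hw hh t
        rw [hB]
        exact this
      eta_lo := fun t => by
        show -B.d ≤ (0 : ℝ)
        have := B.d0
        linarith
      eta_top := fun t => B.top0
      cur := fun n t hn => by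
        have h1 : iteratedDeriv n (fun _ : ℝ => (0 : ℝ)) t = 0 := by
          rw [iteratedDeriv_const, if_neg (by omega)]
        show |iteratedDeriv n (fun _ : ℝ => (0 : ℝ)) t| ≤ _
        rw [h1, abs_zero]
        exact mul_nonneg (B.Ce0 n) (Real.exp_pos _).le
      fs_diff := fun z h1 h2 => avW_diff (fun z hz => NUAct.diff_vs hz) (im2 h1 h2)
      fx_diff := fun z h1 h2 => avW_diff (fun z hz => NUAct.diff_vx hz) (im2 h1 h2)
      fs_gr := fun z h1 h2 => by
        have := gr hKs (by linarith) HKs z (im1 h1 h2)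
        rw [hB]
        exact this
      fx_gr := fun z h1 h2 => by
        have := gr hKx (by linarith) HKx z (im1 h1 h2)
        rw [hB]
        exact this
      conv_s := fun z h1 h2 => avW_conv_s ((im1 h1 h2).trans_lt (by linarith))
      conv_x := fun z h1 h2 => avW_conv_x ((im1 h1 h2).trans_lt (by linarith)) }

end

/-! ### `m` rows -/

/-- equal weights -/
def wI (m : ℕ) : Fin m → ℝ := fun _ => (m : ℝ)⁻¹

theorem wtI {m : ℕ} (hm : 0 < m) : WtI (wI m) := by
  have h0 : (0 : ℝ) < m := by exact_mod_cast hm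
  refine ⟨fun i => by unfold wI; positivity, ?_⟩
  unfold wI
  rw [Finset.sum_const, Finset.card_univ, Fintype.card_fin, nsmul_eq_mul, mul_inv_cancel₀ h0.ne']

theorem wtI1 : WtI (fun _ : Fin 1 => (1 : ℝ)) := ⟨fun _ => zero_le_one, by simp⟩

/-- **the sea of `m` rows at the heights `h 0, .., h (m - 1)`** (one row at `0` for `m = 0`) -/
@[reducible] def seaI (m : ℕ) (h : ℕ → ℝ) : SeaC :=
  if hm : 0 < m then seaW (wI m) (fun i => h i) (wtI hm) else seaW (fun _ : Fin 1 => 1) (fun _ => 0) wtI1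

theorem seaI_pos {m : ℕ} (hm : 0 < m) (h : ℕ → ℝ) : seaI m h = seaW (wI m) (fun i => h i) (wtI hm) :=
  dif_pos hm

/-- the numbers of the straight seas -/
def seaIB : SeaCB := (seaWU 1 le_rfl).choose

theorem seaIB_d : seaIB.d = 0 := (seaWU 1 le_rfl).choose_spec.1

theorem seaIB_top : seaIB.top = 0 := (seaWU 1 le_rfl).choose_spec.2.1

/-- **the bounds**, uniform in the number of rows and in the heights -/
theorem seaIU {m : ℕ} {h : ℕ → ℝ} (hh : ∀ i, i < m → |h i| ≤ 1) : @SeaCU seaIB (seaI m h) := by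
  by_cases hm : 0 < m
  · rw [seaI_pos hm]
    exact (seaWU 1 le_rfl).choose_spec.2.2 _ _ (wtI hm) fun i => hh i i.2
  · have e : seaI m h = seaW (fun _ : Fin 1 => 1) (fun _ => 0) wtI1 := dif_neg hm
    rw [e]
    exact (seaWU 1 le_rfl).choose_spec.2.2 _ _ wtI1 fun i => by norm_num

theorem seaI_eta (m : ℕ) (h : ℕ → ℝ) : @Cv.eta (seaI m h) = fun _ => 0 := by
  by_cases hm : 0 < m
  · rw [seaI_pos hm]
    rfl
  · have e : seaI m h = seaW (fun _ : Fin 1 => 1) (fun _ => 0) wtI1 := dif_neg hm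
    rw [e]
    rfl

theorem seaI_Pc {m : ℕ} (hm : 0 < m) (h : ℕ → ℝ) (z : ℂ) :
    (m : ℂ) * @Cv.Pc (seaI m h) z = ∑ i : Fin m, NUMF.Pc (z - h i) := by
  rw [seaI_pos hm]
  show (m : ℂ) * avW (wI m) (fun i => h i) NUMF.Pc z = _
  have h0 : (m : ℂ) ≠ 0 := by exact_mod_cast hm.ne'
  unfold avW wI
  rw [Finset.mul_sum]
  refine Finset.sum_congr rfl fun i _ => ?_
  push_cast
  field_simp

theorem seaI_P {m : ℕ} (hm : 0 < m) (h : ℕ → ℝ) (t : ℝ) :
    (m : ℝ) * @Cv.P (seaI m h) t = ∑ i : Fin m, NUMF.P (t - h i) := by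
  rw [seaI_pos hm]
  show (m : ℝ) * dnI (wI m) (fun i => h i) t = _
  have h0 : (m : ℝ) ≠ 0 := by exact_mod_cast hm.ne'
  unfold dnI wI
  rw [Finset.mul_sum]
  refine Finset.sum_congr rfl fun i _ => ?_
  field_simp

theorem seaI_vs {m : ℕ} (hm : 0 < m) (h : ℕ → ℝ) (z : ℂ) :
    (m : ℂ) * @Cv.vs (seaI m h) z = ∑ i : Fin m, NUAct.vs (z - h i) := by
  rw [seaI_pos hm]
  show (m : ℂ) * avW (wI m) (fun i => h i) NUAct.vs z = _
  have h0 : (m : ℂ) ≠ 0 := by exact_mod_cast hm.ne'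
  unfold avW wI
  rw [Finset.mul_sum]
  refine Finset.sum_congr rfl fun i _ => ?_
  push_cast
  field_simp

theorem seaI_vx {m : ℕ} (hm : 0 < m) (h : ℕ → ℝ) (z : ℂ) :
    (m : ℂ) * @Cv.vx (seaI m h) z = ∑ i : Fin m, NUAct.vx (z - h i) := by
  rw [seaI_pos hm]
  show (m : ℂ) * avW (wI m) (fun i => h i) NUAct.vx z = _
  have h0 : (m : ℂ) ≠ 0 := by exact_mod_cast hm.ne'
  unfold avW wI
  rw [Finset.mul_sum]
  refine Finset.sum_congr rfl fun i _ => ?_
  push_cast
  field_simp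

end

end PLT
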