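import Pool.Agent.PLX.PB.ValE2

/-!
# The prefactor is the mean field value: any places of the rows

`eX w`, `eO w`, `eL w`: energy of two rows of different groups, of one group, of a leg and a row, as
closed functions on `|Re w| < 5 l`, `|Re w| < 2 l`, `-2 l < Re w < 5 l` (`PBV.PLX.mEx`, `mEo`, `NUMFH.lE` on
`|Re w| ≤ l`, `-l ≤ Re w ≤ 4 l`: `eX_eq`, `eO_eq`, `eL_eq`).

* `Sf_ne`, `Lf_ne`; `Q2 x y z`: energy of the rows and of the legs at `z`;
* **`log_PfC`**: `log ‖Pf z x y‖ + Q2 x y z = log (3/2 ‖sin l‖ / ‖rh 0‖)` for rows at any places with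
  differences `< 2 l`, legs at `-2 l < Re (z - x i) < 5 l`.
-/

set_option autoImplicit false
set_option linter.unusedSectionVars false
set_option linter.unusedVariables false

noncomputable section

open Complex MeasureTheory

namespace PLT.Le

open NUP1.Grand (P)
open PBR (rh rh_neg rh_ne_zero)
open Pool.Agent.PB
open Pool.Agent.PLX
open NUP1 (l lpos)

variable {m M : ℕ}

/-! ### the energies -/

/-- energy of two rows of different groups -/
def eX (w : ℂ) : ℝ := 2 * Real.log ‖rh w‖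

/-- energy of two rows of one group -/
def eO (w : ℂ) : ℝ := -Real.log ‖Sf w‖

/-- energy of a leg and a row -/
def eL (w : ℂ) : ℝ := -Real.log ‖Lf w‖

theorem eX_eq (w : ℂ) : eX w = PBV.PLX.mEx w := rfl

theorem eO_eq {w : ℂ} (h : |w.re| ≤ l) : eO w = PBV.PLX.mEo w := by
  unfold eO
  rw [(PBV.PLX.log_Sf h).2, neg_neg]

theorem eL_eq {w : ℂ} (h0 : -l ≤ w.re) (h1 : w.re ≤ 4 * l) : eL w = NUMFH.lE w := by
  unfold eL
  rw [(PBV.PLX.log_Lf h0 h1).2, neg_neg]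

theorem eX_neg (w : ℂ) : eX (-w) = eX w := by
  unfold eX
  rw [rh_neg]

theorem eO_neg (w : ℂ) : eO (-w) = eO w := by
  unfold eO
  rw [Sf_neg]

private theorem sin_ne {w : ℂ} (h0 : 0 < w.re) (h1 : w.re < 8 * l) : sin w ≠ 0 :=
  PBS.sin_ne_of_bd h0 h1

/-- two rows of one group -/
theorem Sf_ne {w : ℂ} (h : |w.re| < 2 * l) : Sf w ≠ 0 := by
  have hl := lpos
  obtain ⟨h1, h2⟩ := abs_lt.1 h
  have hr : rh w ≠ 0 := rh_ne_zero (by linarith)
  unfold Sf Fp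
  refine div_ne_zero (mul_ne_zero (mul_ne_zero ?_ ?_) (mul_ne_zero ?_ ?_)) (pow_ne_zero _ hr) <;>
    refine sin_ne ?_ ?_ <;> simp <;> linarith

/-- a leg and a row -/
theorem Lf_ne {w : ℂ} (h0 : -(2 * l) < w.re) (h1 : w.re < 5 * l) : Lf w ≠ 0 := by
  have hl := lpos
  have hr : rh w ≠ 0 := rh_ne_zero (by rw [abs_lt]; constructor <;> linarith)
  unfold Lf
  refine div_ne_zero (mul_ne_zero ?_ ?_) (pow_ne_zero _ hr) <;>
    refine sin_ne ?_ ?_ <;> simp <;> linarith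

private theorem log_Sf {w : ℂ} (h : |w.re| < 2 * l) : Sf w ≠ 0 ∧ Real.log ‖Sf w‖ = -eO w :=
  ⟨Sf_ne h, by unfold eO; ring⟩

private theorem log_Lf {w : ℂ} (h0 : -(2 * l) < w.re) (h1 : w.re < 5 * l) :
    Lf w ≠ 0 ∧ Real.log ‖Lf w‖ = -eL w := ⟨Lf_ne h0 h1, by unfold eL; ring⟩

theorem eO_zero : eO 0 = -2 * Real.log (3 / 2 * ‖sin (l : ℂ)‖) := by
  rw [eO_eq (by rw [Complex.zero_re, abs_zero]; exact lpos.le)]
  exact PBV.PLX.mEo_zero

/-! ### sums over the pairs -/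

/-- energy of the rows `x` of the first, `y` of the second group and of the legs at `z` -/
def Q2 (x : Fin m → ℂ) (y : Fin M → ℂ) (z : ℂ) : ℝ :=
  1 / 2 * (∑ i, ∑ j, eO (x i - x j)) + 1 / 2 * (∑ i, ∑ j, eO (y i - y j)) +
    (∑ i, ∑ j, eX (x i - y j)) + (∑ i, eL (z - x i)) + ∑ j, eL (z - y j)

/-- **the prefactor is the mean field value**, logarithms, any places of the rows -/
theorem log_PfC {x : Fin m → ℂ} {y : Fin M → ℂ} {z : ℂ} (hx : ∀ i j, |(x i - x j).re| < 2 * l)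
    (hy : ∀ i j, |(y i - y j).re| < 2 * l) (hxy : ∀ i j, |(x i - y j).re| < 5 * l)
    (hzx : ∀ i, -(2 * l) < (z - x i).re ∧ (z - x i).re < 5 * l)
    (hzy : ∀ j, -(2 * l) < (z - y j).re ∧ (z - y j).re < 5 * l) :
    Pf z x y ≠ 0 ∧ Real.log ‖Pf z x y‖ + Q2 x y z = Real.log (3 / 2 * ‖sin (l : ℂ)‖ / ‖rh 0‖) := by
  have hl := lpos
  have hr0 : rh 0 ≠ 0 := rh_ne_zero (by rw [Complex.zero_re, abs_zero]; positivity)
  have hs : sin (l : ℂ) ≠ 0 := PBS.sin_ne_of_bd (by simp; exact hl) (by simp; linarith)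
  have S0 := (log_Sf (w := 0) (by rw [Complex.zero_re, abs_zero]; positivity))
  obtain ⟨px, vx⟩ := PBV.PLX.log_P x Sf_neg S0.1 fun i j => (log_Sf (hx i j)).1
  obtain ⟨py, vy⟩ := PBV.PLX.log_P y Sf_neg S0.1 fun i j => (log_Sf (hy i j)).1
  rw [Finset.sum_congr rfl fun i _ => Finset.sum_congr rfl fun j _ => (log_Sf (hx i j)).2,
    S0.2] at vx
  rw [Finset.sum_congr rfl fun i _ => Finset.sum_congr rfl fun j _ => (log_Sf (hy i j)).2,
    S0.2] at vy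
  simp only [Finset.sum_neg_distrib] at vx vy
  have lx : (∏ i, Lf (z - x i)) ≠ 0 ∧ Real.log ‖∏ i, Lf (z - x i)‖ = -∑ i, eL (z - x i) := by
    refine ⟨Finset.prod_ne_zero_iff.2 fun i _ => (log_Lf (hzx i).1 (hzx i).2).1, ?_⟩
    rw [norm_prod, Real.log_prod fun i _ =>
      norm_ne_zero_iff.2 (log_Lf (hzx i).1 (hzx i).2).1, ← Finset.sum_neg_distrib]
    exact Finset.sum_congr rfl fun i _ => (log_Lf (hzx i).1 (hzx i).2).2
  have ly : (∏ i, Lf (z - y i)) ≠ 0 ∧ Real.log ‖∏ i, Lf (z - y i)‖ = -∑ i, eL (z - y i) := by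
    refine ⟨Finset.prod_ne_zero_iff.2 fun i _ => (log_Lf (hzy i).1 (hzy i).2).1, ?_⟩
    rw [norm_prod, Real.log_prod fun i _ =>
      norm_ne_zero_iff.2 (log_Lf (hzy i).1 (hzy i).2).1, ← Finset.sum_neg_distrib]
    exact Finset.sum_congr rfl fun i _ => (log_Lf (hzy i).1 (hzy i).2).2
  have rxy : ∀ i j, rh (x i - y j) ≠ 0 := fun i j => rh_ne_zero (hxy i j)
  have d2 : D2 x y ≠ 0 ∧ Real.log ‖D2 x y‖ = ∑ i, ∑ j, eX (x i - y j) := by
    unfold D2
    refine ⟨Finset.prod_ne_zero_iff.2 fun i _ => Finset.prod_ne_zero_iff.2 fun j _ =>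
      pow_ne_zero _ (rxy i j), ?_⟩
    rw [norm_prod, Real.log_prod fun i _ => norm_ne_zero_iff.2
      (Finset.prod_ne_zero_iff.2 fun j _ => pow_ne_zero _ (rxy i j))]
    refine Finset.sum_congr rfl fun i _ => ?_
    rw [norm_prod, Real.log_prod fun j _ => norm_ne_zero_iff.2 (pow_ne_zero _ (rxy i j))]
    refine Finset.sum_congr rfl fun j _ => ?_
    rw [norm_pow, Real.log_pow]
    unfold eX
    push_cast
    rfl
  have h32 : (3 / 2 : ℂ) ≠ 0 := by norm_num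
  have c1 : ((3 / 2 : ℂ) ^ (m + M + 1) * sin l ^ (m + M + 1) / rh 0) ≠ 0 :=
    div_ne_zero (mul_ne_zero (pow_ne_zero _ h32) (pow_ne_zero _ hs)) hr0
  have hn32 : ‖(3 / 2 : ℂ)‖ = 3 / 2 := by rw [norm_div, Complex.norm_ofNat, Complex.norm_ofNat]
  have hns : 0 < ‖sin (l : ℂ)‖ := norm_pos_iff.2 hs
  have hnr : 0 < ‖rh 0‖ := norm_pos_iff.2 hr0
  have c2 : Real.log ‖((3 / 2 : ℂ) ^ (m + M + 1) * sin l ^ (m + M + 1) / rh 0)‖ =
      (m + M + 1) * Real.log (3 / 2 * ‖sin (l : ℂ)‖) - Real.log ‖rh 0‖ := by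
    rw [norm_div, norm_mul, norm_pow, norm_pow, hn32, ← mul_pow, Real.log_div (by positivity)
      hnr.ne', Real.log_pow]
    push_cast
    ring
  have e := Pf_prod z x y
  have a1 := mul_ne_zero lx.1 ly.1
  have a2 := mul_ne_zero px py
  have hne : Pf z x y ≠ 0 := by
    rw [e]
    exact div_ne_zero (mul_ne_zero (mul_ne_zero c1 a1) a2) d2.1
  refine ⟨hne, ?_⟩
  have hz0 := eO_zero
  rw [e, norm_div, norm_mul, norm_mul, Real.log_div (mul_ne_zero (mul_ne_zero (norm_ne_zero_iff.2 c1)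
    (norm_ne_zero_iff.2 a1)) (norm_ne_zero_iff.2 a2)) (norm_ne_zero_iff.2 d2.1),
    Real.log_mul (mul_ne_zero (norm_ne_zero_iff.2 c1) (norm_ne_zero_iff.2 a1)) (norm_ne_zero_iff.2 a2),
    Real.log_mul (norm_ne_zero_iff.2 c1) (norm_ne_zero_iff.2 a1), c2, norm_mul, norm_mul,
    Real.log_mul (norm_ne_zero_iff.2 lx.1) (norm_ne_zero_iff.2 ly.1),
    Real.log_mul (norm_ne_zero_iff.2 px) (norm_ne_zero_iff.2 py), lx.2, ly.2, d2.2,
    Real.log_div (by positivity) hnr.ne']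
  unfold Q2
  have vx' : Real.log ‖P fun i j => Sf (x i - x j)‖ =
      -(1 / 2) * ∑ i, ∑ j, eO (x i - x j) - m * Real.log (3 / 2 * ‖sin (l : ℂ)‖) := by
    rw [hz0] at vx
    linarith
  have vy' : Real.log ‖P fun i j => Sf (y i - y j)‖ =
      -(1 / 2) * ∑ i, ∑ j, eO (y i - y j) - M * Real.log (3 / 2 * ‖sin (l : ℂ)‖) := by
    rw [hz0] at vy
    linarith
  rw [vx', vy']
  ring


end PLT.Le

end
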