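import Pool.Agent.PLT.HC
import Pool.Agent.PLT.PfC

/-!
# The energies of legs and rows are the potentials of the clouds

* `rh_unit`: `rh (w + l) * rh (w - l) = cos w * rh w`;
* **`eL_Hc`**: `eL w = (Hc w.im w.re - Hc w.im (w.re - 3 l)) / 2` for `-2 l < Re w < 5 l`;
* **`eX_Hc`**: `eX w = Hc w.im w.re - log 2` for `|Re w| < 5 l`;
* **`eO_Hc`**: `eO w = log 2 - (Hc w.im (w.re + 3 l) + Hc w.im (w.re - 3 l)) / 2` for `|Re w| < 2 l`.
-/

set_option autoImplicit false
set_option linter.unusedSectionVars false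
set_option linter.unusedVariables false

noncomputable section

open Complex MeasureTheory

namespace PLT.Le

open PBR (rh rh_neg rh_ne_zero sk sk_ne far_int den_ne rh_prod sin_sub_prod)
open Pool.Agent.PB
open Pool.Agent.PLX
open NUP1 (l lpos)

private theorem sk_sh (k : ℝ) (a : ℝ) (w : ℂ) : sk k (w + a * l) = sk (k - a) w := by
  unfold PBR.sk
  congr 1
  push_cast
  ring

/-- **the unit shift of the bulk factor** -/
theorem rh_unit {w : ℂ} (h : |w.re| < 7 * l) : rh (w + l) * rh (w - l) = cos w * rh w := by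
  have hl := lpos
  obtain ⟨h1, h2⟩ := abs_lt.1 h
  have d0 := den_ne (w := w) (by rw [abs_lt]; constructor <;> linarith)
  have d1 := den_ne (w := w + l) (by
    rw [abs_lt]
    constructor <;> simp <;> linarith)
  have d2 := den_ne (w := w - l) (by
    rw [abs_lt]
    constructor <;> simp <;> linarith)
  have e1 : w + (l : ℂ) = w + ((1 : ℝ) : ℂ) * l := by push_cast; ring
  have e2 : w - (l : ℂ) = w + ((-1 : ℝ) : ℂ) * l := by push_cast; ring
  have hc : cos w = sin ((4 : ℝ) * l - w) := by
    rw [show ((4 : ℝ) : ℂ) * l - w = (Real.pi : ℂ) / 2 - w by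
      unfold NUP1.l
      push_cast
      ring, Complex.sin_pi_div_two_sub]
  rw [e1] at d1 ⊢
  rw [e2] at d2 ⊢
  rw [rh_prod, rh_prod, rh_prod, hc, sin_sub_prod]
  simp only [sk_sh] at d1 d2 ⊢
  norm_num at d0 d1 d2 ⊢
  obtain ⟨⟨⟨a9, a15⟩, a8⟩, a16⟩ := d0
  obtain ⟨⟨⟨-, a14⟩, a7⟩, -⟩ := d1
  obtain ⟨⟨⟨a10, -⟩, -⟩, a17⟩ := d2
  field_simp

/-- the logarithm of the cosine -/
theorem h_cos {w : ℂ} (h : cos w ≠ 0) : NUMF.h w.im w.re = Real.log 2 + 2 * Real.log ‖cos w‖ := by
  have h1 := NUMF.norm_cos_sq w.re w.im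
  have h2 : 0 < ‖cos w‖ := norm_pos_iff.2 h
  have e : ((w.re : ℂ) + w.im * I) = w := Complex.re_add_im w
  rw [e] at h1
  unfold NUMF.h
  have h3 : Real.cosh (2 * w.im) + Real.cos (2 * w.re) = 2 * ‖cos w‖ ^ 2 := by
    rw [h1]
    ring
  rw [h3, Real.log_mul (by norm_num) (by positivity), Real.log_pow]
  push_cast
  ring

private theorem sin_ne {w : ℂ} (h0 : 0 < w.re) (h1 : w.re < 8 * l) : sin w ≠ 0 :=
  PBS.sin_ne_of_bd h0 h1

private theorem cos_eq (w : ℂ) : cos w = sin (w + 4 * l) := by
  rw [show w + 4 * (l : ℂ) = w + (Real.pi : ℂ) / 2 by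
    unfold NUP1.l
    push_cast
    ring, Complex.sin_add_pi_div_two]

/-- the unit rule of the energy of a leg -/
theorem eL_unit {w : ℂ} (h0 : -l < w.re) (h1 : w.re < 4 * l) :
    eL (w + l) + eL (w - l) - eL w = (NUMF.h w.im w.re - NUMF.h w.im (w.re - 3 * l)) / 2 := by
  have hl := lpos
  have n1 := Lf_ne (w := w + l) (by simp; linarith) (by simp; linarith)
  have n2 := Lf_ne (w := w - l) (by simp; linarith) (by simp; linarith)
  have n3 := Lf_ne (w := w) (by linarith) (by linarith)
  have r1 : rh (w + l) ≠ 0 := rh_ne_zero (by rw [abs_lt]; constructor <;> simp <;> linarith)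
  have r2 : rh (w - l) ≠ 0 := rh_ne_zero (by rw [abs_lt]; constructor <;> simp <;> linarith)
  have r3 : rh w ≠ 0 := rh_ne_zero (by rw [abs_lt]; constructor <;> linarith)
  have hu := rh_unit (w := w) (by rw [abs_lt]; constructor <;> linarith)
  have c1 : cos w ≠ 0 := by
    rw [cos_eq]
    exact sin_ne (by simp; linarith) (by simp; linarith)
  have c2 : sin (w + l) ≠ 0 := sin_ne (by simp; linarith) (by simp; linarith)
  have e3 : cos (w - 3 * l) = sin (w + l) := by
    rw [cos_eq]
    congr 1
    ring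
  have c3 : cos (w - 3 * l) ≠ 0 := by rw [e3]; exact c2
  have hh1 := h_cos c1
  have hh2 := h_cos c3
  have i1 : (w - 3 * (l : ℂ)).im = w.im := by simp
  have i2 : (w - 3 * (l : ℂ)).re = w.re - 3 * l := by simp
  rw [i1, i2, e3] at hh2
  have key : Pool.Agent.PLX.Lf (w + l) * Pool.Agent.PLX.Lf (w - l) * cos w =
      Pool.Agent.PLX.Lf w * sin (w + l) := by
    have e1 : w + (l : ℂ) + 2 * l = w + 3 * l := by ring
    have e2 : w + (l : ℂ) + 3 * l = w + 4 * l := by ring
    have e4 : w - (l : ℂ) + 2 * l = w + l := by ring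
    have e5 : w - (l : ℂ) + 3 * l = w + 2 * l := by ring
    unfold Pool.Agent.PLX.Lf
    rw [e1, e2, e4, e5, ← cos_eq]
    have hu2 : rh (w + l) ^ 2 * rh (w - l) ^ 2 = cos w ^ 2 * rh w ^ 2 := by
      rw [← mul_pow, hu, mul_pow]
    generalize sin (w + 2 * (l : ℂ)) = s2
    generalize sin (w + 3 * (l : ℂ)) = s3
    generalize sin (w + (l : ℂ)) = s1
    generalize cos w = c0 at *
    field_simp
    linear_combination (-(s3 * s2 * s1) : ℂ) * hu2
  have k2 := congrArg (fun z => Real.log ‖z‖) key
  simp only [norm_mul] at k2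
  have p1 := norm_pos_iff.2 n1
  have p2 := norm_pos_iff.2 n2
  have p3 := norm_pos_iff.2 n3
  have p4 := norm_pos_iff.2 c1
  have p5 := norm_pos_iff.2 c2
  rw [Real.log_mul (mul_ne_zero p1.ne' p2.ne') p4.ne', Real.log_mul p1.ne' p2.ne',
    Real.log_mul p3.ne' p5.ne'] at k2
  have hll : NUMF.l = l := rfl
  rw [hh1, hh2]
  unfold eL
  linarith

/-- **the energy of a leg is the potential of the cloud** -/
theorem eL_Hc {w : ℂ} (h0 : -(2 * l) < w.re) (h1 : w.re < 5 * l) :
    eL w = (Hc w.im w.re - Hc w.im (w.re - 3 * l)) / 2 := by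
  have hl := lpos
  have hll : NUMF.l = l := rfl
  -- the inner part
  have inner : ∀ v : ℂ, -l < v.re → v.re < 4 * l →
      eL v = (Hc v.im v.re - Hc v.im (v.re - 3 * l)) / 2 := by
    intro v v0 v1
    rw [eL_eq v0.le v1.le]
    unfold NUMFH.lE
    rw [Hc_eq (by rw [abs_lt, hll]; constructor <;> linarith),
      Hc_eq (by rw [abs_lt, hll]; constructor <;> linarith), hll]
  have unit : ∀ v : ℂ, -l < v.re → v.re < 4 * l →
      (Hc v.im (v.re + l) - Hc v.im (v.re + l - 3 * l)) / 2 +
        (Hc v.im (v.re - l) - Hc v.im (v.re - l - 3 * l)) / 2 -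
          (Hc v.im v.re - Hc v.im (v.re - 3 * l)) / 2 =
        (NUMF.h v.im v.re - NUMF.h v.im (v.re - 3 * l)) / 2 := by
    intro v v0 v1
    have a1 := conv_c (y := v.re) (by rw [abs_lt, hll]; constructor <;> linarith) v.im
    have a2 := conv_c (y := v.re - 3 * l) (by rw [abs_lt, hll]; constructor <;> linarith) v.im
    rw [hll] at a1 a2
    rw [show v.re + l - 3 * l = v.re - 3 * l + l by ring,
      show v.re - l - 3 * l = v.re - 3 * l - l by ring]
    linarith
  by_cases c1 : -l < w.re
  · by_cases c2 : w.re < 4 * l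
    · exact inner w c1 c2
    · push Not at c2
      obtain ⟨v, hv⟩ : ∃ v : ℂ, v = w - l := ⟨_, rfl⟩
      have vr : v.re = w.re - l := by rw [hv]; simp
      have vi : v.im = w.im := by rw [hv]; simp
      have hw : w = v + l := by rw [hv]; ring
      have u1 := eL_unit (w := v) (by linarith) (by linarith)
      have u2 := unit v (by linarith) (by linarith)
      have u3 := inner v (by linarith) (by linarith)
      have u4 := inner (v - l) (by simp; linarith) (by simp; linarith)
      have e1 : (v - (l : ℂ)).re = v.re - l := by simp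
      have e2 : (v - (l : ℂ)).im = v.im := by simp
      rw [e1, e2] at u4
      rw [← hw] at u1
      have e3 : v.re + l = w.re := by linarith
      rw [e3] at u2
      rw [← vi]
      linarith
  · push Not at c1
    obtain ⟨v, hv⟩ : ∃ v : ℂ, v = w + l := ⟨_, rfl⟩
    have vr : v.re = w.re + l := by rw [hv]; simp
    have vi : v.im = w.im := by rw [hv]; simp
    have hw : w = v - l := by rw [hv]; ring
    have u1 := eL_unit (w := v) (by linarith) (by linarith)
    have u2 := unit v (by linarith) (by linarith)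
    have u3 := inner v (by linarith) (by linarith)
    have u4 := inner (v + l) (by simp; linarith) (by simp; linarith)
    have e1 : (v + (l : ℂ)).re = v.re + l := by simp
    have e2 : (v + (l : ℂ)).im = v.im := by simp
    rw [e1, e2] at u4
    rw [← hw] at u1
    have e3 : v.re - l = w.re := by linarith
    rw [e3] at u2
    rw [← vi]
    linarith

/-! ### rows -/

/-- two steps of the rule -/
theorem Hc_three {y : ℝ} (h0 : -(2 * l) < y) (h1 : y < 2 * l) (t : ℝ) :
    Hc t (y + 3 * l) + Hc t (y - 3 * l) = -(2 * Hc t y) + (NUMF.h t (y + l) + NUMF.h t (y + 2 * l)) +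
      (NUMF.h t (y - l) + NUMF.h t (y - 2 * l)) := by
  have hl := lpos
  have hll : NUMF.l = l := rfl
  have a1 := conv_c (y := y + 2 * l) (by rw [abs_lt, hll]; constructor <;> linarith) t
  have a2 := conv_c (y := y + l) (by rw [abs_lt, hll]; constructor <;> linarith) t
  have a3 := conv_c (y := y - 2 * l) (by rw [abs_lt, hll]; constructor <;> linarith) t
  have a4 := conv_c (y := y - l) (by rw [abs_lt, hll]; constructor <;> linarith) t
  rw [hll] at a1 a2 a3 a4
  rw [show y + 2 * l + l = y + 3 * l by ring, show y + 2 * l - l = y + l by ring] at a1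
  rw [show y + l + l = y + 2 * l by ring, show y + l - l = y by ring] at a2
  rw [show y - 2 * l + l = y - l by ring, show y - 2 * l - l = y - 3 * l by ring] at a3
  rw [show y - l + l = y by ring, show y - l - l = y - 2 * l by ring] at a4
  linarith

/-- the logarithm of a sine at distance `k l` -/
private theorem log_sin_h {k : ℝ} {w : ℂ} (h0 : 0 < w.re + k * l) (h1 : w.re + k * l < 8 * l) :
    Real.log ‖sin (w + k * l)‖ = (NUMF.h w.im (w.re + (k - 4) * l) - Real.log 2) / 2 := by
  have hl := lpos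
  have e : cos (w + (k - 4 : ℝ) * l) = sin (w + k * l) := by
    rw [cos_eq]
    congr 1
    push_cast
    ring
  have hs : sin (w + k * l) ≠ 0 := sin_ne (by simpa using h0) (by simpa using h1)
  have h2 := h_cos (w := w + (k - 4 : ℝ) * l) (by rw [e]; exact hs)
  rw [e] at h2
  have i1 : (w + ((k - 4 : ℝ) : ℂ) * l).im = w.im := by simp
  have i2 : (w + ((k - 4 : ℝ) : ℂ) * l).re = w.re + (k - 4) * l := by simp
  rw [i1, i2] at h2
  linarith

/-- the four sines of two rows -/
private theorem log_Fp {w : ℂ} (h : |w.re| < 2 * l) : Real.log ‖Fp w‖ =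
    (NUMF.h w.im (w.re + l) + NUMF.h w.im (w.re + 2 * l) + NUMF.h w.im (w.re - l) +
      NUMF.h w.im (w.re - 2 * l)) / 2 - 2 * Real.log 2 := by
  have hl := lpos
  obtain ⟨h1, h2⟩ := abs_lt.1 h
  have s1 := log_sin_h (k := 2) (w := w) (by linarith) (by linarith)
  have s2 := log_sin_h (k := 3) (w := w) (by linarith) (by linarith)
  have s3 := log_sin_h (k := 5) (w := w) (by linarith) (by linarith)
  have s4 := log_sin_h (k := 6) (w := w) (by linarith) (by linarith)
  have n1 : sin (w + (2 : ℝ) * l) ≠ 0 := sin_ne (by simp; linarith) (by simp; linarith)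
  have n2 : sin (w + (3 : ℝ) * l) ≠ 0 := sin_ne (by simp; linarith) (by simp; linarith)
  have n3 : sin (w + (5 : ℝ) * l) ≠ 0 := sin_ne (by simp; linarith) (by simp; linarith)
  have n4 : sin (w + (6 : ℝ) * l) ≠ 0 := sin_ne (by simp; linarith) (by simp; linarith)
  have e8 : 8 * (l : ℂ) = Real.pi := by
    unfold NUP1.l
    push_cast
    ring
  have e3 : sin (3 * (l : ℂ) - w) = sin (w + (5 : ℝ) * l) := by
    rw [← Complex.sin_pi_sub, ← e8]
    congr 1
    push_cast
    ring
  have e2 : sin (2 * (l : ℂ) - w) = sin (w + (6 : ℝ) * l) := by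
    rw [← Complex.sin_pi_sub, ← e8]
    congr 1
    push_cast
    ring
  have e : Fp w = sin (w + (2 : ℝ) * l) * sin (w + (3 : ℝ) * l) *
      (sin (w + (5 : ℝ) * l) * sin (w + (6 : ℝ) * l)) := by
    unfold Fp
    rw [e3, e2]
    push_cast
    rfl
  rw [e, norm_mul, norm_mul, norm_mul, Real.log_mul (by positivity) (by positivity),
    Real.log_mul (by positivity) (by positivity), Real.log_mul (by positivity) (by positivity),
    s1, s2, s3, s4]
  rw [show w.re + (2 - 4) * l = w.re - 2 * l by ring, show w.re + (3 - 4) * l = w.re - l by ring,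
    show w.re + (5 - 4) * l = w.re + l by ring, show w.re + (6 - 4) * l = w.re + 2 * l by ring]
  ring

/-- **the energy of two rows of different groups** -/
theorem eX_Hc {w : ℂ} (h : |w.re| < 5 * l) : eX w = Hc w.im w.re - Real.log 2 := by
  have hl := lpos
  have hll : NUMF.l = l := rfl
  obtain ⟨h1, h2⟩ := abs_lt.1 h
  have inner : ∀ v : ℂ, |v.re| < 4 * l → eX v = Hc v.im v.re - Real.log 2 := by
    intro v hv
    rw [Hc_eq (by rw [hll]; exact hv), NUMF.H_rhz (by rw [hll]; exact hv.le)]
    unfold eX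
    ring
  have unit : ∀ v : ℂ, |v.re| < 4 * l → eX (v + l) + eX (v - l) - eX v =
      NUMF.h v.im v.re - Real.log 2 := by
    intro v hv
    obtain ⟨v1, v2⟩ := abs_lt.1 hv
    have r1 : rh (v + l) ≠ 0 := rh_ne_zero (by rw [abs_lt]; constructor <;> simp <;> linarith)
    have r2 : rh (v - l) ≠ 0 := rh_ne_zero (by rw [abs_lt]; constructor <;> simp <;> linarith)
    have r3 : rh v ≠ 0 := rh_ne_zero (by linarith)
    have hu := congrArg (fun z => Real.log ‖z‖) (rh_unit (w := v) (by linarith))
    have c1 : cos v ≠ 0 := by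
      rw [cos_eq]
      exact sin_ne (by simp; linarith) (by simp; linarith)
    simp only [norm_mul] at hu
    rw [Real.log_mul (norm_ne_zero_iff.2 r1) (norm_ne_zero_iff.2 r2),
      Real.log_mul (norm_ne_zero_iff.2 c1) (norm_ne_zero_iff.2 r3)] at hu
    rw [h_cos c1]
    unfold eX
    linarith
  by_cases c : |w.re| < 4 * l
  · exact inner w c
  · rcases le_or_gt 0 w.re with hs | hs
    · rw [abs_of_nonneg hs] at c
      push Not at c
      obtain ⟨v, hv⟩ : ∃ v : ℂ, v = w - l := ⟨_, rfl⟩
      have vr : v.re = w.re - l := by rw [hv]; simp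
      have vi : v.im = w.im := by rw [hv]; simp
      have hw : w = v + l := by rw [hv]; ring
      have u1 := unit v (by rw [abs_lt]; constructor <;> linarith)
      have u2 := conv_c (y := v.re) (by rw [abs_lt, hll]; constructor <;> linarith) v.im
      have u3 := inner v (by rw [abs_lt]; constructor <;> linarith)
      have u4 := inner (v - l) (by rw [abs_lt]; constructor <;> simp <;> linarith)
      have e1 : (v - (l : ℂ)).re = v.re - l := by simp
      have e2 : (v - (l : ℂ)).im = v.im := by simp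
      rw [e1, e2] at u4
      rw [← hw] at u1
      rw [hll, show v.re + l = w.re by linarith] at u2
      rw [← vi]
      linarith
    · rw [abs_of_neg hs] at c
      push Not at c
      obtain ⟨v, hv⟩ : ∃ v : ℂ, v = w + l := ⟨_, rfl⟩
      have vr : v.re = w.re + l := by rw [hv]; simp
      have vi : v.im = w.im := by rw [hv]; simp
      have hw : w = v - l := by rw [hv]; ring
      have u1 := unit v (by rw [abs_lt]; constructor <;> linarith)
      have u2 := conv_c (y := v.re) (by rw [abs_lt, hll]; constructor <;> linarith) v.im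
      have u3 := inner v (by rw [abs_lt]; constructor <;> linarith)
      have u4 := inner (v + l) (by rw [abs_lt]; constructor <;> simp <;> linarith)
      have e1 : (v + (l : ℂ)).re = v.re + l := by simp
      have e2 : (v + (l : ℂ)).im = v.im := by simp
      rw [e1, e2] at u4
      rw [← hw] at u1
      rw [hll, show v.re - l = w.re by linarith] at u2
      rw [← vi]
      linarith

/-- **the energy of two rows of one group** -/
theorem eO_Hc {w : ℂ} (h : |w.re| < 2 * l) :
    eO w = Real.log 2 - (Hc w.im (w.re + 3 * l) + Hc w.im (w.re - 3 * l)) / 2 := by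
  have hl := lpos
  obtain ⟨h1, h2⟩ := abs_lt.1 h
  have a2 := Hc_three (y := w.re) h1 h2 w.im
  have a3 := log_Fp h
  have a5 := Sf_ne (w := w) h
  have r3 : rh w ≠ 0 := rh_ne_zero (by linarith)
  have hF : Fp w ≠ 0 := by
    intro h0
    apply a5
    unfold Sf
    rw [h0, zero_div]
  have a6 := eX_Hc (w := w) (by linarith)
  unfold eX at a6
  unfold eO Pool.Agent.PLX.Sf
  rw [norm_div, norm_pow, Real.log_div (norm_ne_zero_iff.2 hF)
    (pow_ne_zero _ (norm_ne_zero_iff.2 r3)), Real.log_pow, a3]
  push_cast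
  linarith

end PLT.Le

end
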