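import Pool.Agent.PLT.LegV
import Pool.Agent.PLT.LegE
import Pool.Agent.PLT.CurX
import Pool.Agent.PLT.TopDef
import Pool.Agent.PLX.Yq
import Pool.Agent.PLX.PB.DomL0

/-!
# The normaliser of a content is its mean field value

* `SeaV w X`: the sea is that of the content (weights `w i`, complex places `X i`) on its curve; `seaV_of`;
* `vx_h`, `vs_h`: fields of a row on the curve; `leg_h`: the legs on the static curve;
* **`int_leg`**: `∫ P log thZ z (ga) = ∑ w eL(z - X)`; **`MF_val`**: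
  `MF s = (s_X² + s_Y²) / 2 ∑∑ w w eO + s_X s_Y ∑∑ w w eX`;
* `CntV w X x`: `x` is a list of rows with the numbers `n w i` at `X i`;
* **`log_Pf_C`**: `log ‖Pf z x (yq x)‖ + MF (b a n) + ∑ₐ b a n ∫ P log thZ z (ga) = c`;
* `DD0_th`: the ends on the curve.
-/

set_option autoImplicit false
set_option linter.unusedSectionVars false
set_option linter.unusedVariables false

open MeasureTheory Set Filter Topology Complex
open PLX (Fil Ends)

noncomputable section

namespace PLT.Le

open NUMF (l l_pos)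
open PBO.PLX (thZ)
open NUGC.PLX (ThN pE qE)
open PLT.Le (eO eX eL)
open Pool.Agent.PLX (yq)
open Cv (ga)

variable {ι : Type*} [Fintype ι] {w : ι → ℝ} {X : ι → ℂ}

/-- **the sea is that of a content** on its curve: rows at `X i` = offset `re`, height `im`; the places keep a
distance from `-l` -/
structure SeaV [SeaC] (w : ι → ℝ) (X : ι → ℂ) : Prop where
  cur : ∃ δ : ℝ, 0 < δ ∧ δ ≤ 1 / 1000 ∧ CurX w X (-(δ * l)) (3 / 50 * l) Cv.eta (deriv Cv.eta) Cv.P
  nn : ∀ i, 0 ≤ w i
  hi : ∀ i, (X i).re ≤ l / 2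
  im : ∀ i, |(X i).im| ≤ 1
  sum : ∑ i, w i = 1
  vs : ∀ z, Cv.vs z = ∑ i, (w i : ℂ) * NUAct.vs (z + X i * I)
  vx : ∀ z, Cv.vx z = ∑ i, (w i : ℂ) * NUAct.vx (z + X i * I)

theorem SeaV.lo [SeaC] (h : SeaV w X) (i : ι) : -l < (X i).re := by
  obtain ⟨δ, d0, -, hc⟩ := h.cur
  have := hc.x1 i
  have : 0 < δ * l := mul_pos d0 l_pos
  linarith

/-- the density on the curve -/
theorem SeaV.real [SeaC] (h : SeaV w X) (t : ℝ) :
    PCx w X (cpt Cv.eta t) * cjc (deriv Cv.eta) t = (Cv.P t : ℂ) := by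
  obtain ⟨δ, -, -, hc⟩ := h.cur
  exact hc.real t

/-- the places at the distance `l / 1000` -/
theorem SeaV.of1 [SeaC] (cur : CurX w X (-(l / 1000)) (3 / 50 * l) Cv.eta (deriv Cv.eta) Cv.P)
    (nn : ∀ i, 0 ≤ w i) (hi : ∀ i, (X i).re ≤ l / 2) (im : ∀ i, |(X i).im| ≤ 1)
    (sum : ∑ i, w i = 1) (vs : ∀ z, Cv.vs z = ∑ i, (w i : ℂ) * NUAct.vs (z + X i * I))
    (vx : ∀ z, Cv.vx z = ∑ i, (w i : ℂ) * NUAct.vx (z + X i * I)) : SeaV w X :=
  ⟨⟨1 / 1000, by norm_num, le_rfl, by
    rw [show -(1 / 1000 * l) = -(l / 1000) by ring]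
    exact cur⟩, nn, hi, im, sum, vs, vx⟩

/-! ### one row and the legs at a point of the curve -/

/-- the logarithm of the hyperbolic cosine -/
private theorem log_ch {z : ℂ} (hz : |z.im| < Real.pi / 2) :
    Real.log ‖Complex.cosh z‖ = (NUMF.h z.re z.im - Real.log 2) / 2 := by
  have h0 := NUMF.cosh_ne hz
  have e : Complex.cos (z * I) = Complex.cosh z := Complex.cos_mul_I z
  have h1 := PLT.Le.h_cos (w := z * I) (by rw [e]; exact h0)
  have e1 : (z * I).im = z.re := by simp
  have e2 : (z * I).re = -z.im := by simp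
  rw [e, e1, e2, NUMF.h_neg_right] at h1
  linarith

/-- the cross factor -/
theorem vx_h {z : ℂ} (hz : |z.im| < Real.pi / 2) :
    (NUAct.vx z).re = NUMF.h z.re z.im - Real.log 2 := by
  have h1 := log_ch hz
  unfold NUAct.vx NUAct.Ly
  simp only [Complex.ofReal_zero, zero_mul, add_zero, sub_zero, Complex.sub_re, Complex.add_re,
    Complex.log_re, Complex.ofReal_re]
  rw [h1]
  ring

/-- the own factor -/
theorem vs_h {z : ℂ} (hz : |z.im| < l) : (NUAct.vs z).re =
    Real.log 2 - (NUMF.h z.re (z.im + 3 * l) + NUMF.h z.re (z.im - 3 * l)) / 2 := by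
  have hl := l_pos
  have h4 : Real.pi / 2 = 4 * l := by unfold NUMF.l; ring
  obtain ⟨a1, a2⟩ := abs_lt.1 hz
  have h1 := log_ch (z := z + (3 * l : ℝ) * I) (by
    rw [h4, abs_lt]; simp only [Complex.add_im, Complex.mul_im, Complex.ofReal_re, Complex.I_im,
      mul_one, Complex.ofReal_im, Complex.I_re, mul_zero, add_zero]; constructor <;> linarith)
  have h2 := log_ch (z := z - (3 * l : ℝ) * I) (by
    rw [h4, abs_lt]; simp only [Complex.sub_im, Complex.mul_im, Complex.ofReal_re, Complex.I_im,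
      mul_one, Complex.ofReal_im, Complex.I_re, mul_zero, add_zero]; constructor <;> linarith)
  have e1 : (z + (3 * l : ℝ) * I).re = z.re := by simp
  have e2 : (z + (3 * l : ℝ) * I).im = z.im + 3 * l := by simp
  have e3 : (z - (3 * l : ℝ) * I).re = z.re := by simp
  have e4 : (z - (3 * l : ℝ) * I).im = z.im - 3 * l := by simp
  rw [e1, e2] at h1
  rw [e3, e4] at h2
  unfold NUAct.vs NUAct.Ly
  simp only [Complex.sub_re, Complex.add_re, Complex.log_re, Complex.ofReal_re]
  rw [h1, h2]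
  ring

/-- **the legs on a curve** -/
theorem leg_h (z : ℂ) {v : ℝ} (t : ℝ) (h1 : |z.re + v| < 4 * l) (h2 : |z.re + v - 3 * l| < 4 * l) :
    Real.log (thZ z (l + I * (t + v * I))) =
      (NUMF.h (z.im - t) (z.re + v) - NUMF.h (z.im - t) (z.re + v - 3 * l)) / 2 := by
  have hl := l_pos
  have hll : (NUP1.l : ℂ) = (l : ℂ) := rfl
  have h4 : Real.pi / 2 = 4 * l := by unfold NUMF.l; ring
  have hc : ∀ u : ℂ, |u.re| < 4 * l → cos u ≠ 0 := by
    intro u hu
    have h5 := NUMF.cosh_ne (w := u * I) (by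
      rw [Complex.mul_I_im, h4]
      exact hu)
    rwa [Complex.cosh_mul_I] at h5
  obtain ⟨u1, hu1⟩ : ∃ u : ℂ, u = z + v - t * I := ⟨_, rfl⟩
  have r1 : u1.re = z.re + v := by rw [hu1]; simp
  have i1 : u1.im = z.im - t := by rw [hu1]; simp
  have r2 : (u1 - 3 * (l : ℂ)).re = z.re + v - 3 * l := by rw [Complex.sub_re, r1]; simp
  have i2 : (u1 - 3 * (l : ℂ)).im = z.im - t := by rw [Complex.sub_im, i1]; simp
  have c1 := hc u1 (by rw [r1]; exact h1)
  have c2 := hc (u1 - 3 * (l : ℂ)) (by rw [r2]; exact h2)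
  have k1 := PLT.Le.h_cos c1
  have k2 := PLT.Le.h_cos c2
  rw [r1, i1] at k1
  rw [r2, i2] at k2
  have hpi : (Real.pi : ℂ) / 2 = 4 * (l : ℂ) := by
    unfold NUMF.l
    push_cast
    ring
  have s1 : z - ((l : ℂ) + I * (t + v * I)) - 3 * NUP1.l = -((Real.pi : ℂ) / 2 - u1) := by
    rw [hll, hpi, hu1]
    linear_combination (-(v : ℂ)) * I_sq
  have s2 : z - ((l : ℂ) + I * (t + v * I)) + 2 * NUP1.l = (u1 - 3 * (l : ℂ)) + (Real.pi : ℂ) / 2 := by
    rw [hll, hpi, hu1]
    linear_combination (-(v : ℂ)) * I_sq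
  unfold PBO.PLX.thZ
  rw [s1, s2, Complex.sin_neg, norm_neg, Complex.sin_pi_div_two_sub, Complex.sin_add_pi_div_two,
    Real.log_div (norm_ne_zero_iff.2 c1) (norm_ne_zero_iff.2 c2), k1, k2]
  ring

variable [SeaC]

/-! ### integrals along the static curve -/

private theorem ga_eq (t : ℝ) : ga t = (t : ℂ) + (Cv.eta t : ℝ) * I := rfl

private theorem eta_b (t : ℝ) : -(l / 1000) ≤ Cv.eta t ∧ Cv.eta t ≤ 3 / 50 * l := by
  have hl := l_pos
  have := Cv.eta_nn t
  have := Cv.eta_le t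
  constructor <;> linarith

/-- one potential -/
private theorem pot {δ : ℝ} (h : CurX w X (-(δ * l)) (3 / 50 * l) Cv.eta (deriv Cv.eta) Cv.P) {y : ℝ}
    (y1 : 3 / 50 * l - 4 * l < y)
    (y2 : y < 4 * l - δ * l) (t : ℝ) : Integrable (fun s => Cv.P s * NUMF.h (t - s) (y - Cv.eta s)) ∧
    ∫ s, Cv.P s * NUMF.h (t - s) (y - Cv.eta s) = ∑ i, w i * Hc (t - (X i).im) (y + (X i).re) :=
  cur_potX h y1 (by linarith) t

private theorem potn {δ : ℝ} (h : CurX w X (-(δ * l)) (3 / 50 * l) Cv.eta (deriv Cv.eta) Cv.P) {y : ℝ}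
    (y1 : -(4 * l) + δ * l < y)
    (y2 : y < 4 * l - 3 / 50 * l) (t : ℝ) :
    Integrable (fun s => Cv.P s * NUMF.h (t - s) (y + Cv.eta s)) ∧
    ∫ s, Cv.P s * NUMF.h (t - s) (y + Cv.eta s) = ∑ i, w i * Hc (t - (X i).im) (y - (X i).re) := by
  obtain ⟨i1, e1⟩ := pot h (y := -y) (by linarith) (by linarith) t
  have e : ∀ s, NUMF.h (t - s) (-y - Cv.eta s) = NUMF.h (t - s) (y + Cv.eta s) := fun s => by
    rw [← NUMF.h_neg_right (t - s) (y + Cv.eta s)]
    congr 1
    ring
  simp only [e] at i1 e1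
  refine ⟨i1, e1.trans (Finset.sum_congr rfl fun i _ => ?_)⟩
  rw [← Hc_neg (t - (X i).im) (y - (X i).re)]
  congr 2
  ring

/-- **the legs against the sea, on the static curve** -/
theorem int_leg (h : SeaV w X) {z : ℂ} (z1 : -(9 / 10 * l) ≤ z.re) (z2 : z.re ≤ 31 / 10 * l) :
    Integrable (fun t => Cv.P t * Real.log (thZ z (l + I * ga t))) ∧
    ∫ t, Cv.P t * Real.log (thZ z (l + I * ga t)) = ∑ i, w i * eL (z - X i) := by
  have hl := l_pos
  obtain ⟨δ, d0, d1, hc⟩ := h.cur
  have hdl : δ * l ≤ 1 / 1000 * l := mul_le_mul_of_nonneg_right d1 hl.le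
  obtain ⟨i1, e1⟩ := potn hc (y := z.re) (by linarith) (by linarith) z.im
  obtain ⟨i2, e2⟩ := potn hc (y := z.re - 3 * l) (by linarith) (by linarith) z.im
  have e : (fun t => Cv.P t * Real.log (thZ z (l + I * ga t))) = fun t =>
      (1 / 2) * (Cv.P t * NUMF.h (z.im - t) (z.re + Cv.eta t)) -
        (1 / 2) * (Cv.P t * NUMF.h (z.im - t) (z.re - 3 * l + Cv.eta t)) := by
    funext t
    obtain ⟨n1, n2⟩ := eta_b t
    rw [ga_eq, leg_h z t (by rw [abs_lt]; constructor <;> linarith)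
      (by rw [abs_lt]; constructor <;> linarith), show z.re + Cv.eta t - 3 * l =
        z.re - 3 * l + Cv.eta t by ring]
    ring
  rw [e]
  refine ⟨(i1.const_mul _).sub (i2.const_mul _), ?_⟩
  rw [integral_sub (i1.const_mul _) (i2.const_mul _), integral_const_mul, integral_const_mul,
    e1, e2, Finset.mul_sum, Finset.mul_sum, ← Finset.sum_sub_distrib]
  refine Finset.sum_congr rfl fun i _ => ?_
  have b1 := h.lo i
  have b2 := h.hi i
  have hre : (z - X i).re = z.re - (X i).re := Complex.sub_re _ _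
  have him : (z - X i).im = z.im - (X i).im := Complex.sub_im _ _
  rw [PLT.Le.eL_Hc (by rw [hre]; show -(2 * l) < _; linarith) (by rw [hre]; show _ < 5 * l; linarith),
    hre, him]
  have hlN : (NUP1.l : ℝ) = l := rfl
  rw [hlN, show z.re - 3 * l - (X i).re = z.re - (X i).re - 3 * l by ring]
  ring

private theorem add_im (z x : ℂ) : (z + x * I).im = z.im + x.re := by simp

private theorem add_re' (z x : ℂ) : (z + x * I).re = z.re - x.im := by
  simp [sub_eq_add_neg]

/-- the cross energy of the sea -/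
theorem int_vx (h : SeaV w X) : Integrable (fun t => Cv.P t * (Cv.vx (ga t)).re) ∧
    ∫ t, Cv.P t * (Cv.vx (ga t)).re = ∑ i, ∑ j, w i * w j * eX (X i - X j) := by
  have hl := l_pos
  obtain ⟨δ, d0, d1, hc⟩ := h.cur
  have hdl : δ * l ≤ 1 / 1000 * l := mul_le_mul_of_nonneg_right d1 hl.le
  have hP : Integrable Cv.P := (cur_massX hc).1
  have h4 : Real.pi / 2 = 4 * l := by unfold NUMF.l; ring
  have key : ∀ i, Integrable (fun t => Cv.P t * (NUAct.vx (ga t + X i * I)).re) ∧
      ∫ t, Cv.P t * (NUAct.vx (ga t + X i * I)).re = ∑ j, w j * eX (X i - X j) := by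
    intro i
    have b1 := h.lo i
    have b2 := h.hi i
    obtain ⟨i1, e1⟩ := potn hc (y := (X i).re) (by linarith) (by linarith) (X i).im
    have e : (fun t => Cv.P t * (NUAct.vx (ga t + X i * I)).re) = fun t =>
        Cv.P t * NUMF.h ((X i).im - t) ((X i).re + Cv.eta t) - Cv.P t * Real.log 2 := by
      funext t
      obtain ⟨n1, n2⟩ := eta_b t
      have him : (ga t + X i * I).im = (X i).re + Cv.eta t := by
        rw [add_im, Cv.ga_im]
        ring
      have hre : (ga t + X i * I).re = -((X i).im - t) := by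
        rw [add_re', Cv.ga_re]
        ring
      rw [vx_h (by rw [him, h4, abs_lt]; constructor <;> linarith), him, hre, NUMF.h_neg_left]
      ring
    rw [e]
    refine ⟨i1.sub (hP.mul_const _), ?_⟩
    rw [integral_sub i1 (hP.mul_const _), e1, integral_mul_const, Cv.P_mass, one_mul]
    have e2 : Real.log 2 = ∑ j, w j * Real.log 2 := by
      rw [← Finset.sum_mul, h.sum, one_mul]
    rw [e2, ← Finset.sum_sub_distrib]
    refine Finset.sum_congr rfl fun j _ => ?_
    have c1 := h.lo j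
    have c2 := h.hi j
    have hre : (X i - X j).re = (X i).re - (X j).re := Complex.sub_re _ _
    have him : (X i - X j).im = (X i).im - (X j).im := Complex.sub_im _ _
    rw [PLT.Le.eX_Hc (by
      rw [hre, abs_lt]
      show -(5 * l) < _ ∧ _ < 5 * l
      constructor <;> linarith), hre, him]
    ring
  have e : (fun t => Cv.P t * (Cv.vx (ga t)).re) = fun t =>
      ∑ i, w i * (Cv.P t * (NUAct.vx (ga t + X i * I)).re) := by
    funext t
    rw [h.vx (ga t), Complex.re_sum, Finset.mul_sum]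
    refine Finset.sum_congr rfl fun i _ => ?_
    rw [Complex.re_ofReal_mul]
    ring
  rw [e]
  refine ⟨integrable_finsetSum _ fun i _ => (key i).1.const_mul _, ?_⟩
  rw [integral_finsetSum _ fun i _ => (key i).1.const_mul _]
  refine Finset.sum_congr rfl fun i _ => ?_
  rw [integral_const_mul, (key i).2, Finset.mul_sum]
  refine Finset.sum_congr rfl fun j _ => ?_
  ring

/-- the own energy of the sea -/
theorem int_vs (h : SeaV w X) : Integrable (fun t => Cv.P t * (Cv.vs (ga t)).re) ∧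
    ∫ t, Cv.P t * (Cv.vs (ga t)).re = ∑ i, ∑ j, w i * w j * eO (X i - X j) := by
  have hl := l_pos
  obtain ⟨δ, d0, d1, hc⟩ := h.cur
  have hdl : δ * l ≤ 1 / 1000 * l := mul_le_mul_of_nonneg_right d1 hl.le
  have hP : Integrable Cv.P := (cur_massX hc).1
  have key : ∀ i, Integrable (fun t => Cv.P t * (NUAct.vs (ga t + X i * I)).re) ∧
      ∫ t, Cv.P t * (NUAct.vs (ga t + X i * I)).re = ∑ j, w j * eO (X i - X j) := by
    intro i
    have b1 := h.lo i
    have b2 := h.hi i
    have x1 := hc.x1 i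
    obtain ⟨i1, e1⟩ := potn hc (y := (X i).re + 3 * l) (by linarith) (by linarith) (X i).im
    obtain ⟨i2, e2⟩ := potn hc (y := (X i).re - 3 * l) (by linarith) (by linarith) (X i).im
    have e : (fun t => Cv.P t * (NUAct.vs (ga t + X i * I)).re) = fun t =>
        Cv.P t * Real.log 2 -
          (1 / 2 * (Cv.P t * NUMF.h ((X i).im - t) ((X i).re + 3 * l + Cv.eta t)) +
          1 / 2 * (Cv.P t * NUMF.h ((X i).im - t) ((X i).re - 3 * l + Cv.eta t))) := by
      funext t
      obtain ⟨-, n2⟩ := eta_b t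
      have n1 := hc.prf.ge t
      have him : (ga t + X i * I).im = (X i).re + Cv.eta t := by
        rw [add_im, Cv.ga_im]
        ring
      have hre : (ga t + X i * I).re = -((X i).im - t) := by
        rw [add_re', Cv.ga_re]
        ring
      rw [vs_h (by rw [him, abs_lt]; constructor <;> linarith), him, hre,
        NUMF.h_neg_left, NUMF.h_neg_left,
        show (X i).re + Cv.eta t + 3 * l = (X i).re + 3 * l + Cv.eta t by ring,
        show (X i).re + Cv.eta t - 3 * l = (X i).re - 3 * l + Cv.eta t by ring]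
      ring
    rw [e]
    have i3 : Integrable fun t =>
        1 / 2 * (Cv.P t * NUMF.h ((X i).im - t) ((X i).re + 3 * l + Cv.eta t)) +
        1 / 2 * (Cv.P t * NUMF.h ((X i).im - t) ((X i).re - 3 * l + Cv.eta t)) :=
      (i1.const_mul (1 / 2)).add (i2.const_mul (1 / 2))
    refine ⟨(hP.mul_const _).sub i3, ?_⟩
    have e3 := integral_add (i1.const_mul (1 / 2)) (i2.const_mul (1 / 2))
    rw [integral_sub (hP.mul_const _) i3, e3, integral_const_mul, integral_const_mul, e1, e2,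
      integral_mul_const, Cv.P_mass, one_mul]
    have e4 : Real.log 2 = ∑ j, w j * Real.log 2 := by
      rw [← Finset.sum_mul, h.sum, one_mul]
    rw [e4, Finset.mul_sum, Finset.mul_sum, ← Finset.sum_add_distrib, ← Finset.sum_sub_distrib]
    refine Finset.sum_congr rfl fun j _ => ?_
    have c1 := h.lo j
    have c2 := h.hi j
    have hre : (X i - X j).re = (X i).re - (X j).re := Complex.sub_re _ _
    have him : (X i - X j).im = (X i).im - (X j).im := Complex.sub_im _ _
    rw [PLT.Le.eO_Hc (by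
      rw [hre, abs_lt]
      show -(2 * l) < _ ∧ _ < 2 * l
      constructor <;> linarith), hre, him]
    have hlN : (NUP1.l : ℝ) = l := rfl
    rw [hlN, show (X i).re + 3 * l - (X j).re = (X i).re - (X j).re + 3 * l by ring,
      show (X i).re - 3 * l - (X j).re = (X i).re - (X j).re - 3 * l by ring]
    ring
  have e : (fun t => Cv.P t * (Cv.vs (ga t)).re) = fun t =>
      ∑ i, w i * (Cv.P t * (NUAct.vs (ga t + X i * I)).re) := by
    funext t
    rw [h.vs (ga t), Complex.re_sum, Finset.mul_sum]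
    refine Finset.sum_congr rfl fun i _ => ?_
    rw [Complex.re_ofReal_mul]
    ring
  rw [e]
  refine ⟨integrable_finsetSum _ fun i _ => (key i).1.const_mul _, ?_⟩
  rw [integral_finsetSum _ fun i _ => (key i).1.const_mul _]
  refine Finset.sum_congr rfl fun i _ => ?_
  rw [integral_const_mul, (key i).2, Finset.mul_sum]
  refine Finset.sum_congr rfl fun j _ => ?_
  ring

/-- **the mean field constant of the sea of a content** -/
theorem MF_val (h : SeaV w X) (s : Bool → ℝ) : Cv.MF s =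
    1 / 2 * (s true ^ 2 + s false ^ 2) * (∑ i, ∑ j, w i * w j * eO (X i - X j)) +
      s true * s false * (∑ i, ∑ j, w i * w j * eX (X i - X j)) := by
  obtain ⟨i1, e1⟩ := int_vs h
  obtain ⟨i2, e2⟩ := int_vx h
  have e3 : ∫ t, Cv.P t * Cv.v t = (∫ t, Cv.P t * (Cv.vs (ga t)).re) +
      ∫ t, Cv.P t * (Cv.vx (ga t)).re := by
    rw [← integral_add i1 i2]
    refine integral_congr_ae (Eventually.of_forall fun t => ?_)
    simp only
    unfold Cv.v Cv.vc
    rw [Complex.add_re]
    ring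
  unfold Cv.MF Cv.Ms Cv.Mx
  rw [e3, e1, e2]
  ring

/-! ### the normaliser -/

/-- `x` lists the rows of the content: `n w i` of them at `X i` -/
structure CntV {n : ℕ} (w : ι → ℝ) (X : ι → ℂ) (x : Fin n → ℂ) : Prop where
  sum : ∀ F : ℂ → ℝ, ∑ i, F (x i) = n * ∑ k, w k * F (X k)
  mem : ∀ i, ∃ k, x i = X k

variable [Fil]

/-- **the normaliser is the mean field value**, exactly -/
theorem log_Pf_C (h : SeaV w X) {n : ℕ} {x : Fin n → ℂ} (hc : CntV w X x) {z : ℂ}
    (z1 : -(9 / 10 * l) ≤ z.re) (z2 : z.re ≤ 31 / 10 * l) :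
    Pool.Agent.PB.Pf z x (yq x) ≠ 0 ∧
    Real.log ‖Pool.Agent.PB.Pf z x (yq x)‖ + (Cv.MF (fun a => Fil.b a * n) +
      ∑ a, Fil.b a * n * ∫ t, Cv.P t * Real.log (thZ z (l + I * ga t))) =
    Real.log (3 / 2 * ‖sin (NUP1.l : ℂ)‖ / ‖PBR.rh 0‖) := by
  have hl := l_pos
  have hlN : (NUP1.l : ℝ) = l := rfl
  have hb : ∀ i, -l < (x i).re ∧ (x i).re ≤ l / 2 := fun i => by
    obtain ⟨k, hk⟩ := hc.mem i
    have := h.lo k
    rw [hk]
    exact ⟨by linarith, h.hi k⟩
  have hd : ∀ i j, |(x i - x j).re| < 2 * l := fun i j => by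
    have b1 := hb i
    have b2 := hb j
    rw [Complex.sub_re, abs_lt]
    constructor <;> linarith
  have hz : ∀ i, -(2 * l) < (z - x i).re ∧ (z - x i).re < 5 * l := fun i => by
    have b1 := hb i
    rw [Complex.sub_re]
    constructor <;> linarith
  obtain ⟨k1, k2⟩ := PLT.Le.log_PfC (x := x) (y := yq x) (z := z) hd
    (fun i j => hd (Fin.modNat i) (Fin.modNat j))
    (fun i j => (hd i (Fin.modNat j)).trans (by rw [hlN]; linarith)) hz
    fun j => hz (Fin.modNat j)
  refine ⟨k1, ?_⟩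
  rw [← k2]
  -- sums
  have p1 : ∀ F : ℂ → ℝ, ∑ i, ∑ j, F (x i - x j) =
      (n : ℝ) ^ 2 * ∑ i, ∑ j, w i * w j * F (X i - X j) := by
    intro F
    have e1 : ∀ i, ∑ j, F (x i - x j) = n * ∑ k, w k * F (x i - X k) := fun i =>
      hc.sum fun u => F (x i - u)
    simp only [e1]
    rw [hc.sum fun u => n * ∑ k, w k * F (u - X k), Finset.mul_sum, Finset.mul_sum]
    refine Finset.sum_congr rfl fun i _ => ?_
    rw [Finset.mul_sum, Finset.mul_sum, Finset.mul_sum, Finset.mul_sum]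
    refine Finset.sum_congr rfl fun j _ => ?_
    ring
  have y1 : ∑ i, ∑ j, eO (yq x i - yq x j) = Fil.q * (Fil.q * ∑ i, ∑ j, eO (x i - x j)) := by
    have e1 : ∀ i, ∑ j, eO (yq x i - yq x j) = Fil.q * ∑ j, eO (yq x i - x j) := fun i =>
      Pool.Agent.PLX.sum_yqn_real _ (fun u => eO (yq x i - u)) _
    simp only [e1]
    rw [← Finset.mul_sum]
    congr 1
    exact Pool.Agent.PLX.sum_yqn_real _ (fun u => ∑ j, eO (u - x j)) _
  have y2 : ∑ i, ∑ j, eX (x i - yq x j) = Fil.q * ∑ i, ∑ j, eX (x i - x j) := by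
    have e1 : ∀ i, ∑ j, eX (x i - yq x j) = Fil.q * ∑ j, eX (x i - x j) := fun i =>
      Pool.Agent.PLX.sum_yqn_real _ (fun u => eX (x i - u)) _
    simp only [e1]
    rw [← Finset.mul_sum]
  have y3 : ∑ j, eL (z - yq x j) = Fil.q * ∑ i, eL (z - x i) :=
    Pool.Agent.PLX.sum_yqn_real _ (fun u => eL (z - u)) _
  have y4 : ∑ i, eL (z - x i) = n * ∑ k, w k * eL (z - X k) := hc.sum fun u => eL (z - u)
  unfold PLT.Le.Q2
  rw [MF_val h, (int_leg h z1 z2).2, y1, y2, y3, y4, p1 eO, p1 eX, Fintype.sum_bool]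
  simp only [Fil.b_true, Fil.b_false]
  ring

/-- **the ends at a point of the curve** -/
theorem DD0_th (a : Bool) {ζ : ℂ} (h : |ζ.im| < 1 / 4 * l) :
    (NUSp.DD pE qE [] a ζ).re = Real.log (ThN (l + I * ζ)) := by
  have h1 := PBL.PLX.end0_pA a (η := fun _ => ζ.im) (t := ζ.re) h
  have e1 : NUAct.zt (NUKer.iD fun _ => ζ.im) ζ.re = ζ := by
    unfold NUAct.zt NUKer.iD
    exact Complex.re_add_im ζ
  have e2 : NUO.pA (fun _ => ζ.im) ζ.re = l + I * ζ := by
    rw [PBV.PLX.pA_zt, e1]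
  rw [e1, e2] at h1
  have h2 := congrArg Real.log h1
  rw [Real.log_exp] at h2
  exact h2

end PLT.Le

end
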