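import Pool.Agent.PLT.MfX
import Pool.Agent.PLT.ValC0
import Pool.Agent.PLT.SeaI

/-!
# The straight sea of rows on the imaginary axis as the sea of a content

Rows `x : Fin m → ℂ` on the axis, every row with the weight `1 / m`, the curve `eta = 0`.

* **`seaOX_flat`**: `SeaOX de s0 0 0 (1 / m) x` from the density; `seaOX_V`: from `SeaV`;
* **`seaOX_I`**: the sea `seaI m h`, rows `I * h k`.
-/

set_option autoImplicit false

noncomputable section

open Complex Finset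

namespace PLT

section sea
variable [X : SeaC] {m : ℕ} {x : Fin m → ℂ} {de s0 : ℝ}

private theorem d0 (h0 : ∀ t, Cv.eta (X := X) t = 0) : deriv Cv.eta = fun _ : ℝ => (0 : ℝ) := by
  have e0 : Cv.eta = fun _ : ℝ => (0 : ℝ) := funext h0
  rw [e0]
  exact deriv_const' 0

private theorem P0 (h0 : ∀ t, Cv.eta (X := X) t = 0) (t : ℝ) : Cv.Pc t = (Cv.P t : ℂ) := by
  have key := Cv.Pc_ga (X := X) t
  have g1 : Cv.ga (X := X) t = (t : ℂ) := by
    unfold Cv.ga
    rw [h0 t, ofReal_zero, zero_mul, add_zero]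
  have g2 : Cv.ga' (X := X) t = 1 := by
    unfold Cv.ga'
    rw [d0 h0]
    simp
  rwa [g1, g2, mul_one] at key

omit [X : SeaC] in
private theorem row0 {x : Fin m → ℂ} (hx : ∀ i, (x i).re = 0) (i : Fin m) :
    x i * I = -((x i).im : ℂ) := by
  apply Complex.ext <;> simp [hx i]

/-- the density of the content on the axis -/
private theorem PCx0 (hx : ∀ i, (x i).re = 0) (h0 : ∀ t, Cv.eta (X := X) t = 0) (t : ℝ) :
    PCx (fun _ : Fin m => (m : ℝ)⁻¹) x (cpt Cv.eta t) * cjc (deriv Cv.eta) t =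
      (m : ℂ)⁻¹ * ∑ i, NUMF.Pc (t - (x i).im) := by
  unfold PCx cpt cjc
  rw [d0 h0, h0 t]
  have h2 : ∀ i, NUMF.Pc ((t : ℂ) + ((0 : ℝ) : ℂ) * I + x i * I) = NUMF.Pc (t - (x i).im) := by
    intro i
    rw [row0 hx i, ofReal_zero, zero_mul, add_zero, ← sub_eq_add_neg]
  simp only [h2]
  rw [← Finset.mul_sum, ofReal_zero, zero_mul, add_zero, mul_one, ofReal_inv, ofReal_natCast]

/-- **the straight sea of rows on the axis**, from its density -/
theorem seaOX_flat (hm : 0 < m) (hde : de ≤ 1 / 2) (h0 : ∀ t, Cv.eta t = 0)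
    (hx : ∀ i, (x i).re = 0 ∧ |(x i).im| ≤ s0)
    (hP : ∀ t : ℝ, (m : ℂ) * Cv.Pc t = ∑ i, NUMF.Pc (t - (x i).im)) :
    SeaOX de s0 0 0 (fun _ : Fin m => (m : ℝ)⁻¹) x := by
  have hl := NUMF.l_pos
  have e0 : Cv.eta = fun _ : ℝ => (0 : ℝ) := funext h0
  have hmc : (m : ℂ) ≠ 0 := by exact_mod_cast hm.ne'
  refine ⟨⟨⟨fun t => ?_, ?_, ⟨0, le_rfl, fun t => ?_⟩, fun t => ?_, fun t => ?_⟩, fun i => ?_,
    fun i => ?_, fun t => ?_⟩, fun _ => by positivity, fun i => ?_, fun i => ?_, fun i => (hx i).2,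
    fun t => ?_⟩
  · rw [d0 h0, e0]
    exact hasDerivAt_const t 0
  · rw [d0 h0]
    exact continuous_const
  · rw [d0 h0, abs_zero]
  · rw [h0, zero_mul]
  · rw [h0, zero_mul]
  · rw [(hx i).1, zero_mul]
    linarith
  · rw [(hx i).1, zero_mul]
    linarith
  · rw [PCx0 (fun i => (hx i).1) h0, ← hP t, ← mul_assoc, inv_mul_cancel₀ hmc, one_mul, P0 h0]
  · rw [(hx i).1]
    nlinarith
  · rw [(hx i).1]
    nlinarith
  · refine Finset.sum_eq_zero fun i _ => ?_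
    rw [h0, (hx i).1, add_zero, Ag_zero, mul_zero]

/-- **the straight sea of rows on the axis**, from `SeaV` -/
theorem seaOX_V (hm : 0 < m) (hde : de ≤ 1 / 2) (h0 : ∀ t, Cv.eta t = 0)
    (hx : ∀ i, (x i).re = 0 ∧ |(x i).im| ≤ s0)
    (h : Le.SeaV (fun _ : Fin m => (m : ℝ)⁻¹) x) :
    SeaOX de s0 0 0 (fun _ : Fin m => (m : ℝ)⁻¹) x := by
  have hmc : (m : ℂ) ≠ 0 := by exact_mod_cast hm.ne'
  refine seaOX_flat hm hde h0 hx fun t => ?_
  rw [P0 h0, ← h.real t, PCx0 (fun i => (hx i).1) h0, ← mul_assoc, mul_inv_cancel₀ hmc,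
    one_mul]

end sea

/-- **the sea of the rows `I * h k`** -/
theorem seaOX_I {m : ℕ} {h : ℕ → ℝ} {de s0 : ℝ} (hm : 0 < m) (hde : de ≤ 1 / 2)
    (hh : ∀ k : Fin m, |h k| ≤ s0) :
    @SeaOX (Fin m) _ (seaI m h) de s0 0 0 (fun _ => (m : ℝ)⁻¹) fun k => I * h k := by
  refine @seaOX_flat (seaI m h) m (fun k => I * h k) de s0 hm hde (fun t => ?_) (fun k => ?_)
    fun t => ?_
  · rw [seaI_eta]
  · refine ⟨by simp, ?_⟩
    have := hh k
    simpa using this
  · rw [seaI_Pc hm h]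
    refine Finset.sum_congr rfl fun k _ => ?_
    simp

end PLT

end
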