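import Pool.Agent.PLT.UPropsC

/-!
# Sea on a curve: U1, U3, U4 of a family inside another family (helper64)

Twin of `PHK/UXmap6`.

* `FSC_map`: the functional of `F'` at the index `j` is at most `C` times the functional of `F` at `i`, when the one
  body functions, the curves and the numbers of quanta agree and the prefactor is at most `C` times larger;
* **`UXC.map`**: then `UXC F P → UXC F' P` (constants are absorbed in `m ^ ε`); the index of `F` may depend on `m`.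
-/

set_option autoImplicit false
set_option linter.unusedSectionVars false

noncomputable section

open Complex MeasureTheory Finset
open scoped ENNReal
open PLX (Fil)

namespace PLT

open NUO NUP1 NUP1S NUP1S.Ab NUP1S.AbC NUGC NUGC.PLX PHK
open PBF.PLX (InsE dN)
open PBU.PLX (BC)

variable [Fil] {ι ι' : Type} {F : FamC ι} {F' : FamC ι'} {P : Par6}

theorem FSC_map {ep e1 J : ℝ} {m : ℕ} {j : ι'} {i : ι} {C : ℝ}
    (hZ : F'.Z ep m j = F.Z ep m i) (hD : F'.D e1 J m j = F.D e1 J m i)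
    (hD1 : F'.D1 e1 J m j = F.D1 e1 J m i) (hPf : ‖F'.Pf m j‖ ≤ C * ‖F.Pf m i‖)
    (htop : F'.top m = F.top m) (φ : InsE) :
    FSC F' P ep e1 J m j (fun _ => 1) φ ≤ ENNReal.ofReal C * FSC F P ep e1 J m i (fun _ => 1) φ := by
  have hPe : ‖F'.Pf m j‖ₑ ≤ ENNReal.ofReal C * ‖F.Pf m i‖ₑ := by
    rw [← ofReal_norm, ← ofReal_norm]
    refine (ENNReal.ofReal_le_ofReal hPf).trans (le_of_eq ?_)
    rw [ENNReal.ofReal_mul' (norm_nonneg _)]
  have hcr : F'.cr e1 J m j = F.cr e1 J m i := by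
    funext r O
    exact hD
  have hcr' : F'.cr' e1 J m j = F.cr' e1 J m i := by
    funext r O
    exact hD1
  unfold FSC
  rw [hZ, htop, hcr, hcr', Finset.mul_sum]
  refine Finset.sum_le_sum fun n _ => ?_
  rw [one_mul, one_mul, ← mul_assoc]
  exact mul_le_mul' hPe le_rfl

omit [Fil] in
/-- constants are absorbed in a power of `m` -/
theorem const_le_rpowC (C : ℝ) {ε : ℝ} (hε : 0 < ε) : ∃ m0 : ℕ, ∀ m ≥ m0, C ≤ (m : ℝ) ^ ε := by
  have h := (tendsto_rpow_atTop hε).comp (tendsto_natCast_atTop_atTop (R := ℝ))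
  obtain ⟨m0, h0⟩ := Filter.eventually_atTop.1 (h.eventually_ge_atTop C)
  exact ⟨m0, fun m hm => h0 m hm⟩

/-- **the bounds of a family inside another family** -/
theorem UXC.map (h : UXC F P) (φ : ℕ → ι' → ι) {C C' : ℝ} (hC : 0 ≤ C) (hlo : F'.lo ≤ F.lo)
    (hhi : F.hi ≤ F'.hi) (hbd : ∀ m j, 0 ≤ F'.bd m j) (m1 : ℕ) (H : ∀ m ≥ m1, ∀ j, F'.ok m j →
      F.ok m (φ m j) ∧ (∀ ep, F'.Z ep m j = F.Z ep m (φ m j)) ∧
      (∀ e1 J, F'.D e1 J m j = F.D e1 J m (φ m j)) ∧ (∀ e1 J, F'.D1 e1 J m j = F.D1 e1 J m (φ m j)) ∧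
      F'.dc m j = F.dc m (φ m j) ∧ ‖F'.Pf m j‖ ≤ C * ‖F.Pf m (φ m j)‖ ∧ F'.top m = F.top m ∧
      F.bd m (φ m j) ≤ C' * F'.bd m j) : UXC F' P := by
  intro p K ε hε
  obtain ⟨a0, ha0, h0⟩ := h p K (ε / 2) (by positivity)
  refine ⟨a0, ha0, fun ep e1 J hep he1 hJ hsm => ?_⟩
  intro C0 y₁ y₂ h1 h2
  obtain ⟨m0, h3⟩ := h0 ep e1 J hep he1 hJ hsm C0 y₁ y₂ (h1.trans_le hlo) (hhi.trans_lt h2)
  obtain ⟨m2, h4⟩ := const_le_rpowC (C * C') (ε := ε / 2) (by positivity)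
  refine ⟨max (max m0 m1) (max m2 1), fun m hm j hj ρ hρ B hB w hw g g' hg => ?_⟩
  have k0 : m0 ≤ m := by omega
  have k1 : m1 ≤ m := by omega
  have k2 : m2 ≤ m := by omega
  have k3 : (0 : ℝ) < m := by
    have : 0 < m := by omega
    exact_mod_cast this
  obtain ⟨g1, g2, g3, g3', gd, g4, g5, g6⟩ := H m k1 j hj
  have hρ' : DNC C0 m (F.dc m (φ m j)) ρ := by rw [← gd]; exact hρ
  have key := h3 m k0 (φ m j) g1 ρ hρ' B hB w hw g g' hg
  rw [← g3 e1 J] at key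
  refine (FSC_map (g2 ep) (g3 e1 J) (g3' e1 J) g4 g5 _).trans ((mul_le_mul' le_rfl key).trans ?_)
  rw [← ENNReal.ofReal_mul hC]
  refine ENNReal.ofReal_le_ofReal ?_
  have e1' : (m : ℝ) ^ ε = (m : ℝ) ^ (ε / 2) * (m : ℝ) ^ (ε / 2) := by
    rw [← Real.rpow_add k3]
    congr 1
    ring
  have hp : 0 ≤ (m : ℝ) ^ (ε / 2) := by positivity
  have hb := hbd m j
  calc C * (B * (m : ℝ) ^ (ε / 2) * F.bd m (φ m j))
      ≤ C * (B * (m : ℝ) ^ (ε / 2) * (C' * F'.bd m j)) := by gcongr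
    _ = B * ((C * C') * (m : ℝ) ^ (ε / 2)) * F'.bd m j := by ring
    _ ≤ B * ((m : ℝ) ^ (ε / 2) * (m : ℝ) ^ (ε / 2)) * F'.bd m j := by
        have := h4 m k2
        gcongr
    _ = _ := by rw [e1']

end PLT

end
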