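import Pool.Agent.PLT.FamLC
import Pool.Agent.PLT.RV
import Pool.Agent.PLT.UXmapC

/-!
# (S-TR): U1, U3, U4 of the left end of the `s`-path (helper64)

The family `famVI S` of `PLT/RV` is the family of the dislocated function over the content `xI m h` with the legs at
`zt τ`:
* `okI_im`: the window of the legs; `ZvI_eq`: the class functions;
* **`ux_famVI`**: `UXC` of the family of legs over any index set which contains these contents gives
  `UXC (famVI S) par6`;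
* `okLI`, `famLI S`, `cntLI`: the family of the legs over the heights, index `(h, z)`; `ux_famVI_L`.
-/

set_option autoImplicit false
set_option linter.unusedSectionVars false
set_option linter.unusedVariables false

noncomputable section

open Complex MeasureTheory Finset
open scoped ENNReal
open PLX (Fil Ends)

namespace PLT.St

open NUO NUP1 NUP1S NUP1S.Ab NUP1S.AbC NUGC NUGC.PLX PHK
open PBU.PLX (T1L)
open _root_.Pool.Agent.PLX (yq rwq)

/-- the window of the legs -/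
theorem okI_im {m : ℕ} {i : (ℕ → ℝ) × (ℝ × ℝ)} (h : okI m i) : |(PBT3.zt i.2).im| ≤ 1 / 20 * Real.log m := by
  rw [PBT3.zt_im]
  obtain ⟨_, h1, h2⟩ := h
  have h3 : |(-(i.2.1 + i.2.2) / 2 : ℝ)| ≤ (|i.2.1| + |i.2.2|) / 2 := by
    rw [abs_div, abs_neg, abs_two]
    have := abs_add_le i.2.1 i.2.2
    linarith
  linarith

variable [Fil]

/-- the class functions of the left end are those of the dislocated function -/
theorem ZvI_eq (ep : ℝ) {m : ℕ} (x : Fin m → ℂ) (τ : ℝ × ℝ) :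
    ZvI ep x τ = FI.ZI m x (4 / 3 * (1 - ep)) (PBT3.zt τ) := rfl

variable [Ends] {ι : Type}

/-- **U1, U3, U4 of the left end of the path** -/
theorem ux_famVI {S : ℕ → (ℕ → ℝ) → SeaC} {x : (m : ℕ) → ι → Fin m → ℂ} {z : ι → ℂ} {S' : ℕ → ι → SeaC}
    {ok : ℕ → ι → Prop} {lo hi : ℝ} (h : UXC (famLC x z S' ok lo hi) par6) (hlo : 0 ≤ lo) (hhi : hi ≤ 0)
    (φ : ℕ → (ℕ → ℝ) × (ℝ × ℝ) → ι) (m1 : ℕ) (H : ∀ m ≥ m1, ∀ i, okI m i → ok m (φ m i) ∧
      x m (φ m i) = xI m i.1 ∧ z (φ m i) = PBT3.zt i.2 ∧ S' m (φ m i) = S m i.1) : UXC (famVI S) par6 := by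
  refine UXC.map h φ (C := 1) (C' := 1) zero_le_one hlo hhi (fun m i => (Real.exp_pos _).le) m1 fun m hm i hi' => ?_
  obtain ⟨g1, g2, g3, g4⟩ := H m hm i hi'
  refine ⟨g1, fun ep => ?_, fun e1 J => ?_, fun e1 J => ?_, ?_, ?_, rfl, ?_⟩
  · show ZvI ep (xI m i.1) i.2 = FI.ZI m (x m (φ m i)) (4 / 3 * (1 - ep)) (z (φ m i))
    rw [g2, g3]
    exact ZvI_eq _ _ _
  · show @dsp (S m i.1) _ (@Cv.etaC (S m i.1) e1 J m m) = @dsp (S' m (φ m i)) _ (@Cv.etaC (S' m (φ m i)) e1 J m m)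
    rw [g4]
  · show @dsp1 (S m i.1) _ (@Cv.etaC (S m i.1) e1 J m m) (@Cv.etaC' (S m i.1) e1 J m m) =
      @dsp1 (S' m (φ m i)) _ (@Cv.etaC (S' m (φ m i)) e1 J m m) (@Cv.etaC' (S' m (φ m i)) e1 J m m)
    rw [g4]
  · show (fun t : ℝ => @Cv.Pc (S m i.1) t) = fun t : ℝ => @Cv.Pc (S' m (φ m i)) t
    rw [g4]
  · show ‖PvI (xI m i.1) i.2‖ ≤ 1 * ‖Pool.Agent.PB.Pf (z (φ m i)) (x m (φ m i)) (yq (x m (φ m i)))‖
    rw [g2, g3, one_mul]
    exact le_rfl
  · show Real.exp (2 * |(z (φ m i)).im|) ≤ 1 * Real.exp |i.2.1 + i.2.2|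
    rw [g3, one_mul, PBT3.zt_im, Real.exp_le_exp, abs_div, abs_neg, abs_two]
    linarith

/-! ### the family of the legs over the heights -/

/-- the window of the index `(h, z)` -/
def okLI (m : ℕ) (i : (ℕ → ℝ) × ℂ) : Prop :=
  HtS i.1 ∧ -(9 / 10 * NUP1.l) ≤ i.2.re ∧ i.2.re < 31 / 10 * NUP1.l ∧ |i.2.im| ≤ 3 / 20 * Real.log m + 2

/-- **the family of the legs over the heights** -/
def famLI (S : ℕ → (ℕ → ℝ) → SeaC) : FamC ((ℕ → ℝ) × ℂ) :=
  famLC (fun m i => xI m i.1) (fun i => i.2) (fun m i => S m i.1) okLI (-(0 * NUP1.l)) (0 * NUP1.l)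

/-- **the content of the family** -/
theorem cntLI {SB : SeaCB} {S : ℕ → (ℕ → ℝ) → SeaC} (hS : ∀ m h, HtS h → @SeaCU SB (S m h))
    (hw : ∀ m h, HtS h → @Cv.eta (S m h) = fun _ => 0) :
    CntL SB (fun m i => xI m i.1) (fun i => i.2) (fun m i => S m i.1) okLI 0 0 where
  lo1 := by norm_num
  hi1 := by norm_num
  row m i hi k := by
    have := NUP1.l_pos
    rw [(rws0_xI hi.1 m).re k, abs_zero]
    positivity
  z1 m i hi := hi.2.1
  z2 m i hi := by
    have := hi.2.2.1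
    have := NUP1.l_pos
    linarith
  sea m i hi := hS m i.1 hi.1
  win m i hi := by
    refine @WinC.mk (S m i.1) _ _ (by simp) (by simp) (fun t => ?_) (fun t => ?_) <;>
      simp [hw m i.1 hi.1]

/-- **from the family of the legs over the heights** -/
theorem ux_famVI_L {S : ℕ → (ℕ → ℝ) → SeaC} (h : UXC (famLI S) par6) : UXC (famVI S) par6 := by
  refine ux_famVI h (by simp) (by simp) (fun _ i => (i.1, PBT3.zt i.2)) 1 fun m hm i hi => ⟨⟨hi.1, ?_, ?_, ?_⟩, rfl, rfl, rfl⟩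
  · have := NUP1.l_pos
    show -(9 / 10 * NUP1.l) ≤ (PBT3.zt i.2).re
    rw [PBT3.zt_re]
    linarith
  · have := NUP1.l_pos
    show (PBT3.zt i.2).re < 31 / 10 * NUP1.l
    rw [PBT3.zt_re]
    linarith
  · have h1 := okI_im hi
    have h2 : 0 ≤ Real.log (m : ℝ) := Real.log_natCast_nonneg m
    show |(PBT3.zt i.2).im| ≤ 3 / 20 * Real.log m + 2
    linarith

end PLT.St

end
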