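import Pool.Agent.PLT.LegC
import Pool.Agent.PLT.AxX
import Pool.Agent.PLT.UVI
import Pool.Agent.PLT.SeaOI

/-!
# The one body data of the dislocated function, rows on the imaginary axis

Rows `x m i` (all on the axis, `|im| ≤ s0`), every row with the weight `1 / m` in the sea, legs at `z i`.

* `cntX_ax`: the weights `1 / m`;
* **`datF_axO`**: `DatF` from `SeaOX` of the weights `1 / m`, any point with `LnT`;
* **`datF_ax`**: `DatF (famLC x z S ok lo hi) P (BLC x z) S (pTL x)`, straight seas given by their densities,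
  any index set; **`datF_axV`**: given by `SeaV`;
* **`datF_LI`**: the family over the heights `famLI S` at `par6`; `datF_LI_I`: over the seas `seaI`;
* `Ag_NUMF`, **`pTL_ax`**: the growth at the line of `T` is `∑ j, NUMF.Ag (1 / 2) (t - im)`.
-/

set_option autoImplicit false

noncomputable section

open Complex MeasureTheory Finset
open PLX (Fil Ends)

namespace PLT

open NUO NUP1 NUP1S
open NUGC.PLX (OB)
open PHK
open PotH.PLX (sN)
open PBU.PLX (T1L tauF)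
open PBO.PLX (thZ cZ cZ_pos thZ_nonneg)
open Pool.Agent.PLX (rwq yq)

/-! ### the level function of the landed family -/

/-- **the two level functions** -/
theorem Ag_NUMF {a : ℝ} (ha : |a| < 1) (t : ℝ) : Ag (a * NUMF.l) t = NUMF.Ag a t := by
  have hl := NUMF.l_pos
  obtain ⟨⟨a1, a2⟩, a3, a4⟩ := ang (v := a * NUMF.l) (by
    rw [abs_mul, abs_of_pos hl]
    nlinarith)
  obtain ⟨p1, p2⟩ := cpos (NUMF.one_le_ch t) a1 a2
  obtain ⟨p3, p4⟩ := cpos (NUMF.one_le_ch t) a3 a4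
  obtain ⟨d1, d2⟩ := NUMF.Dg_pm ha t
  rw [NUMF.Ag_closed ha t]
  unfold Ag La
  obtain ⟨y, hy⟩ : ∃ y, y = 8 / 3 * (a * NUMF.l) := ⟨_, rfl⟩
  have h3 : √3 * √3 = 3 := Real.mul_self_sqrt (by norm_num)
  have s3 : (0 : ℝ) < √3 := Real.sqrt_pos.2 (by norm_num)
  have hsc := Real.sin_sq_add_cos_sq y
  have e1 : Real.sin (y - Real.pi / 6) = √3 / 2 * Real.sin y - 1 / 2 * Real.cos y := by
    rw [Real.sin_sub, Real.cos_pi_div_six, Real.sin_pi_div_six]
    ring
  have e2 : Real.sin (y + Real.pi / 6) = √3 / 2 * Real.sin y + 1 / 2 * Real.cos y := by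
    rw [Real.sin_add, Real.cos_pi_div_six, Real.sin_pi_div_six]
    ring
  have hE : NUMF.Eg a t = 4 / 3 * (√3 * (NUMF.ch t * Real.sin y)) := by
    unfold NUMF.Eg NUMF.ch
    have h3' : √3 ^ 2 = 3 := by rw [sq]; exact h3
    rw [← hy]
    field_simp
    rw [h3']
  have hD : NUMF.Dg a t = 4 / 3 * (NUMF.ch t ^ 2 + 3 / 4 - Real.cos y ^ 2) := by
    unfold NUMF.Dg NUMF.ch
    rw [← hy]
    ring
  rw [← hy] at p1 p2 p3 p4 ⊢
  have q1 : NUMF.Dg a t + NUMF.Eg a t =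
      4 / 3 * ((NUMF.ch t + Real.sin (y - Real.pi / 6)) *
        (NUMF.ch t + Real.sin (y + Real.pi / 6))) := by
    rw [hD, hE, e1, e2]
    have : Real.sin y ^ 2 = 1 - Real.cos y ^ 2 := by linarith
    have h3' : √3 ^ 2 = 3 := by rw [sq]; exact h3
    linear_combination (-1 / 3 * √3 ^ 2) * this - (1 / 3 * (1 - Real.cos y ^ 2)) * h3'
  have q2 : NUMF.Dg a t - NUMF.Eg a t =
      4 / 3 * ((NUMF.ch t - Real.sin (y - Real.pi / 6)) *
        (NUMF.ch t - Real.sin (y + Real.pi / 6))) := by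
    rw [hD, hE, e1, e2]
    have : Real.sin y ^ 2 = 1 - Real.cos y ^ 2 := by linarith
    have h3' : √3 ^ 2 = 3 := by rw [sq]; exact h3
    linear_combination (-1 / 3 * √3 ^ 2) * this - (1 / 3 * (1 - Real.cos y ^ 2)) * h3'
  rw [q1, q2, Real.log_mul (by norm_num) (mul_pos p1 p3).ne', Real.log_mul p1.ne' p3.ne',
    Real.log_mul (by norm_num) (mul_pos p2 p4).ne', Real.log_mul p2.ne' p4.ne']
  ring

/-! ### the content -/

section content
variable [Fil] {m : ℕ}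

theorem mem_cq {x : Fin m → ℂ} {a : Bool} {y : ℂ} (h : y ∈ cq x a) : ∃ i, y = x i := by
  unfold cq at h
  rw [List.mem_ofFn] at h
  obtain ⟨j, rfl⟩ := h
  exact Pool.Agent.PLX.forall_rwq (P := fun w : ℂ => ∃ i, w = x i) (fun i => ⟨i, rfl⟩) a j

/-- **every row with the weight `1 / m`** -/
theorem cntX_ax (hm : 1 ≤ m) (x : Fin m → ℂ) (a : Bool) :
    CntX 0 (fun _ : Fin m => (m : ℝ)⁻¹) x (cq x a) 0 where
  mem y hy := mem_cq hy
  ex := by
    refine ⟨fun _ => Fil.n a, fun f => ?_, fun i => ?_⟩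
    · unfold cq
      rw [List.map_ofFn, List.sum_ofFn, ← Finset.mul_sum, ← nsmul_eq_mul]
      exact Pool.Agent.PLX.sum_rwq f x a
    · have hm0 : (m : ℝ) ≠ 0 := by
        have : (0 : ℝ) < m := by exact_mod_cast hm
        exact this.ne'
      have e : ((cq x a).length : ℝ) = Fil.n a * m := by
        unfold cq
        rw [List.length_ofFn]
        cases a
        · show ((Fil.q * m : ℕ) : ℝ) = _
          push_cast
          rfl
        · show ((m : ℕ) : ℝ) = ((1 : ℕ) : ℝ) * m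
          rw [Nat.cast_one, one_mul]
      rw [e, Nat.cast_zero, add_zero, mul_assoc, mul_inv_cancel₀ hm0, mul_one, sub_self, abs_zero]

/-- **the growth at the line of `T`, rows on the axis** -/
theorem pTL_ax {ι : Type} {x : (m : ℕ) → ι → Fin m → ℂ} {m : ℕ} {i : ι}
    (hx : ∀ k, (x m i k).re = 0) (a : Bool) (t : ℝ) :
    pTL x m i a t = ∑ j, NUMF.Ag (1 / 2) (t - (rwq (x m i) a j).im) := by
  unfold pTL pTX SAe cq
  rw [List.map_ofFn, List.sum_ofFn, List.map_nil, List.sum_nil, add_zero]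
  refine Finset.sum_congr rfl fun j _ => ?_
  show Ag (l / 2 - (rwq (x m i) a j).re) (t - (rwq (x m i) a j).im) = _
  have h0 : (rwq (x m i) a j).re = 0 :=
    Pool.Agent.PLX.forall_rwq (P := fun w : ℂ => w.re = 0) hx a j
  rw [h0, sub_zero, show (l : ℝ) / 2 = 1 / 2 * NUMF.l by
    rw [show (NUP1.l : ℝ) = NUMF.l from rfl]; ring]
  exact Ag_NUMF (by rw [abs_of_pos (by norm_num)]; norm_num) _

end content

/-! ### the data -/

section data
variable [Fil] [Ends] {ι : Type} {x : (m : ℕ) → ι → Fin m → ℂ} {z : ι → ℂ} {S : ℕ → ι → SeaC}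
  {ok : ℕ → ι → Prop} {de s0 lo hi : ℝ}

omit [Ends] in
private theorem rwX_cq (hde0 : 0 < de) (hde1 : de ≤ 1 / 50) {m : ℕ} (x : Fin m → ℂ) :
    RwX 0 1 de 0 (cq x) (fun _ => 0) (fun _ => []) fun a => List.ofFn (rwq x a) where
  hh := zero_le_one
  de0 := hde0
  de1 := hde1
  kn _ := le_rfl
  perm a := by
    rw [List.append_nil]
    exact List.Perm.refl _
  len _ := rfl
  re a y hy := absurd hy List.not_mem_nil
  im a y hy := absurd hy List.not_mem_nil

/-- **the one body data of the dislocated function, rows on the axis**, every row with the weight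
`1 / m` in the sea -/
theorem datF_axO (he : Ends.e = 0) (ho : Ends.o = 0) {P : Par6} (hP : LnT P) (hPe : P.e ≤ 15 / 32)
    (hP2 : P.j2 ≤ 7 / 8) (hde : 0 < de) (hde1 : de ≤ 1 / 50) (hs0 : 0 ≤ s0) (hs1 : s0 ≤ 1)
    (hlo : -(1 / 100) ≤ lo) (hj : hi < P.j1) (hL : 2 + hi < P.jL)
    (h1 : ∃ m0 : ℕ, ∀ m ≥ m0, ∀ i, ok m i → ∀ k, (x m i k).re = 0 ∧ |(x m i k).im| ≤ s0)
    (h2 : ∃ m0 : ℕ, ∀ m ≥ m0, ∀ i, ok m i →
      @SeaOX (Fin m) _ (S m i) de s0 lo hi (fun _ => (m : ℝ)⁻¹) (x m i))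
    (z1 : ∀ m i, ok m i → -(9 / 10 * l) ≤ (z i).re) (z2 : ∀ m i, ok m i → (z i).re ≤ 31 / 10 * l)
    (lo' hi' : ℝ) : DatF (famLC x z S ok lo' hi') P (BLC x z) S (pTL x) := by
  have hl := NUP1.l_pos
  obtain ⟨m1, h1⟩ := h1
  obtain ⟨m2, h2⟩ := h2
  have hq1 : (1 : ℝ) ≤ (Fil.q : ℕ) := by exact_mod_cast Fil.one_le_q
  have hcos : 0 < 2 * Real.cos NUP1.l := by
    have h8 : NUP1.l < Real.pi / 2 := by
      unfold NUP1.l
      linarith [Real.pi_pos]
    have := Real.cos_pos_of_mem_Ioo ⟨by linarith [Real.pi_pos], h8⟩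
    linarith
  obtain ⟨CM, hCM, HM⟩ := mf_ofXM.{0} (s0 := s0) hP 0 1 hde hde1 hlo (by linarith) hj hL 0
  obtain ⟨κ, hκ, m3, Hκ⟩ := prXP_axis hP s0 0
  obtain ⟨CB, hCB, m4, HB⟩ := obC_axis (s0 := s0) (de := de) (G := cZ)
    (c0 := 2 * Real.cos NUP1.l) (d1 := ((Fil.q : ℕ) : ℝ)) (h0 := 1) hP hPe 0 2 hs1
    hcos hq1 cZ_pos.le hde hde1 hs0
  have hge : ∀ (m : ℕ) (i : ι) (a : Bool), (m : ℝ) ≤ 2 * nX (cq (x m i)) (fun _ => 0) a := by
    intro m i a
    unfold nX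
    rw [cq_length]
    have hn1 : (1 : ℝ) ≤ Fil.b a := Fil.one_le a
    have hm0 : (0 : ℝ) ≤ m := Nat.cast_nonneg m
    push_cast
    nlinarith
  have hmem : ∀ m ≥ m1, ∀ i, ok m i → ∀ a, ∀ y ∈ cq (x m i) a, y.re = 0 ∧ |y.im| ≤ s0 := by
    intro m hm i hi a y hy
    obtain ⟨k, rfl⟩ := mem_cq hy
    exact h1 m hm i hi k
  refine ⟨CM + CB, tauF, κ, by positivity, hκ,
    fun m i => rwEX (cq (x m i)) (fun _ => 0) fun _ => [], fun m i => prX (cq (x m i)),
    ⟨max (max 1 m1) (max m2 m3), fun m hm i hi => ?_⟩, fun ep hep hep1 =>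
    ⟨max (max 1 m1) m4, fun m hm i hi => ?_⟩⟩
  · simp only [ge_iff_le, max_le_iff] at hm
    obtain ⟨⟨g0, g1⟩, g2, g3⟩ := hm
    refine ⟨?_, fun j hj a t => Hκ _ _ m g3 (hmem m g1 i hi) (fun _ => le_rfl) (hge m i) j hj a t⟩
    have key := @HM (Fin m) _ 0 (by rw [mul_zero]) (S m i) _ _ (h2 m g2 i hi) (cq (x m i))
      (fun _ => 0) (fun _ => []) (fun a => List.ofFn (rwq (x m i) a)) 0
      (fun a => cntX_ax g0 (x m i) a) (rwX_cq hde hde1 (x m i))
    rw [nX_cq he ho g0 (x m i)] at key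
    exact key.mono (by linarith)
  · simp only [ge_iff_le, max_le_iff] at hm
    obtain ⟨⟨g0, g1⟩, g4⟩ := hm
    have hw : ∀ a : Bool, ((fun _ : Bool => ([I, -I] : List ℂ)) a).length ≤ 2 ∧
        Wdw 1 de ((fun _ : Bool => ([I, -I] : List ℂ)) a) := by
      intro a
      refine ⟨le_rfl, fun w hw => ?_⟩
      simp only [List.mem_cons, List.not_mem_nil, or_false] at hw
      rcases hw with rfl | rfl
      · refine ⟨?_, ?_, ?_⟩
        · rw [Complex.I_re]; nlinarith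
        · rw [Complex.I_re]; nlinarith
        · rw [Complex.I_im, abs_one]
      · refine ⟨?_, ?_, ?_⟩
        · rw [Complex.neg_re, Complex.I_re]; nlinarith
        · rw [Complex.neg_re, Complex.I_re]; nlinarith
        · rw [Complex.neg_im, Complex.I_im, abs_neg, abs_one]
    have key := @HB (cq (x m i)) (fun _ => 0) (fun _ => []) 0 m _ (rwq (x m i))
      (fun _ => [I, -I]) (fun _ => []) (fun _ u => thZ (z i) u) g4
      (rwX_cq hde hde1 (x m i)) (hmem m g1 i hi) (hge m i) (fun a => ?_) hw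
      (fun a => ⟨Nat.zero_le _, fun w hw => absurd hw List.not_mem_nil⟩)
      (fun a u => thZ_nonneg _ u)
      (fun j hj a t => leg_gu hP (z1 m i hi) (z2 m i hi) hj t)
      (fun j hj a t => leg_gl6 hP hP2 (z1 m i hi) (z2 m i hi) hj t)
      (4 / 3 * (1 - ep)) (by linarith) (by linarith) (T1L m) ?_
    · rw [obU6_rwq] at key
      exact key.mono (rwEX_nonneg _ _ _) (by linarith)
    · have e : ((cond a m (Fil.q * m) : ℕ) : ℝ) = Fil.n a * m := by
        cases a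
        · show ((Fil.q * m : ℕ) : ℝ) = _
          push_cast
          rfl
        · show (m : ℝ) = ((1 : ℕ) : ℝ) * m
          rw [Nat.cast_one, one_mul]
      rw [e]
      have h3 : ((Fil.n a : ℕ) : ℝ) ≤ (Fil.q : ℕ) := by exact_mod_cast Fil.n_le a
      exact mul_le_mul_of_nonneg_right h3 (Nat.cast_nonneg m)
    · unfold PBU.PLX.T1L
      have := tauT_le
      linarith

/-- **the one body data, rows on the axis and straight seas** (given by their densities), any index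
set -/
theorem datF_ax (he : Ends.e = 0) (ho : Ends.o = 0) {P : Par6} (hP : LnT P) (hPe : P.e ≤ 15 / 32)
    (hP2 : P.j2 ≤ 7 / 8) (hs1 : s0 ≤ 1)
    (hx : ∀ m i, ok m i → ∀ k, (x m i k).re = 0 ∧ |(x m i k).im| ≤ s0)
    (z1 : ∀ m i, ok m i → -(9 / 10 * l) ≤ (z i).re) (z2 : ∀ m i, ok m i → (z i).re ≤ 31 / 10 * l)
    (h0 : ∀ m i, ok m i → ∀ t, @Cv.eta (S m i) t = 0)
    (hd : ∀ m i, ok m i → ∀ t : ℝ, (m : ℂ) * @Cv.Pc (S m i) t = ∑ k, NUMF.Pc (t - (x m i k).im))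
    (lo' hi' : ℝ) : DatF (famLC x z S ok lo' hi') P (BLC x z) S (pTL x) := by
  have hP1 := hP.j1
  have hPL := hP.L2
  have hx1 : ∀ m i, ok m i → ∀ k, (x m i k).re = 0 ∧ |(x m i k).im| ≤ max s0 0 := fun m i hi k =>
    ⟨(hx m i hi k).1, (hx m i hi k).2.trans (le_max_left _ _)⟩
  exact datF_axO he ho hP hPe hP2 (de := 1 / 50) (s0 := max s0 0) (lo := 0) (hi := 0) (by norm_num)
    le_rfl (le_max_right _ _) (max_le hs1 zero_le_one) (by norm_num) (by linarith) (by linarith)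
    ⟨0, fun m _ i hi => hx1 m i hi⟩
    ⟨1, fun m hm i hi => @seaOX_flat (S m i) m (x m i) _ _ (by omega) (by norm_num) (h0 m i hi)
      (hx1 m i hi) (hd m i hi)⟩ z1 z2 lo' hi'

/-- the same, the seas given by `SeaV` -/
theorem datF_axV (he : Ends.e = 0) (ho : Ends.o = 0) {P : Par6} (hP : LnT P) (hPe : P.e ≤ 15 / 32)
    (hP2 : P.j2 ≤ 7 / 8) (hs1 : s0 ≤ 1)
    (hx : ∀ m i, ok m i → ∀ k, (x m i k).re = 0 ∧ |(x m i k).im| ≤ s0)
    (z1 : ∀ m i, ok m i → -(9 / 10 * l) ≤ (z i).re) (z2 : ∀ m i, ok m i → (z i).re ≤ 31 / 10 * l)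
    (h0 : ∀ m i, ok m i → ∀ t, @Cv.eta (S m i) t = 0)
    (hv : ∀ m i, ok m i → @Le.SeaV _ _ (S m i) (fun _ : Fin m => (m : ℝ)⁻¹) (x m i))
    (lo' hi' : ℝ) : DatF (famLC x z S ok lo' hi') P (BLC x z) S (pTL x) := by
  have hP1 := hP.j1
  have hPL := hP.L2
  have hx1 : ∀ m i, ok m i → ∀ k, (x m i k).re = 0 ∧ |(x m i k).im| ≤ max s0 0 := fun m i hi k =>
    ⟨(hx m i hi k).1, (hx m i hi k).2.trans (le_max_left _ _)⟩
  exact datF_axO he ho hP hPe hP2 (de := 1 / 50) (s0 := max s0 0) (lo := 0) (hi := 0) (by norm_num)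
    le_rfl (le_max_right _ _) (max_le hs1 zero_le_one) (by norm_num) (by linarith) (by linarith)
    ⟨0, fun m _ i hi => hx1 m i hi⟩
    ⟨1, fun m hm i hi => @seaOX_V (S m i) m (x m i) _ _ (by omega) (by norm_num) (h0 m i hi)
      (hx1 m i hi) (hv m i hi)⟩ z1 z2 lo' hi'

end data

/-! ### the family over the heights -/

/-- the straight point -/
theorem par6_ax : LnT par6 ∧ par6.e ≤ 15 / 32 ∧ par6.j2 ≤ 7 / 8 :=
  ⟨lnT_good par6_good, by norm_num [par6], by norm_num [par6]⟩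

/-- **the one body data of the family of the legs over the heights**, straight seas -/
theorem datF_LI [Fil] [Ends] (he : Ends.e = 0) (ho : Ends.o = 0) {S : ℕ → (ℕ → ℝ) → SeaC}
    (h0 : ∀ (m : ℕ) (h : ℕ → ℝ), St.HtS h → ∀ t, @Cv.eta (S m h) t = 0)
    (hd : ∀ (m : ℕ) (h : ℕ → ℝ), St.HtS h → ∀ t : ℝ,
      (m : ℂ) * @Cv.Pc (S m h) t = ∑ k : Fin m, NUMF.Pc (t - h k)) :
    DatF (St.famLI S) par6 (BLC (fun m i => St.xI m i.1) fun i => i.2) (fun m i => S m i.1)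
      (pTL fun m i => St.xI m i.1) := by
  obtain ⟨a1, a2, a3⟩ := par6_ax
  refine datF_ax (s0 := 1 / 100) he ho a1 a2 a3 (by norm_num) (fun m i hi k => ?_)
    (fun m i hi => hi.2.1) (fun m i hi => hi.2.2.1.le) (fun m i hi => h0 m i.1 hi.1)
    (fun m i hi t => ?_) _ _
  · refine ⟨by simp [St.xI], ?_⟩
    have := hi.1 k
    simpa [St.xI] using this
  · rw [hd m i.1 hi.1 t]
    refine Finset.sum_congr rfl fun k _ => ?_
    simp [St.xI]

/-- **the same over the seas `seaI`** -/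
theorem datF_LI_I [Fil] [Ends] (he : Ends.e = 0) (ho : Ends.o = 0) :
    DatF (St.famLI seaI) par6 (BLC (fun m i => St.xI m i.1) fun i => i.2) (fun m i => seaI m i.1)
      (pTL fun m i => St.xI m i.1) := by
  refine datF_LI he ho (fun m h _ t => by rw [seaI_eta]) fun m h _ t => ?_
  rcases Nat.eq_zero_or_pos m with rfl | hm
  · simp
  · rw [seaI_Pc hm h]

end PLT

end
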