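import Pool.Agent.PLT.H1Geo
import Pool.Agent.PLT.OneGX
import Pool.Agent.PLT.SeaOI
import Pool.Agent.PLT.LegI
import Pool.Agent.PLT.LetBC

/-!
# One body side of the geometries of rows on the imaginary axis

* **`datG_I`**: the one body data of `GX par6 en (seaI m h) (xI m h) 0`, uniform in the heights
  `|h i| ≤ 1 / 100`;
* **`oneRT_I`, `oneR_I`**: `OneRTC`, `OneRC` for every selection of `GI seaI en`;
  **`oneRT_IL`, `oneR_IL`**: the same with two letters.
-/

set_option autoImplicit false
set_option linter.unusedSectionVars false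

noncomputable section

open Complex Finset
open PLX (Fil Ends)

namespace PLT
namespace St

open PHK hiding mfo6
open PBR.PLX (Ix6)

variable [Fil] [Ends]

/-- **the one body data of the rows on the axis** -/
theorem datG_I (ho : Ends.o = 0) (he : Ends.e = 0) :
    DatG par6 (fun (i : HI) m => seaI m i.1) (fun i m => xI m i.1) fun _ _ => 0 := by
  have hl := NUP1.l_pos
  obtain ⟨h1, h2, -⟩ := par6_ax
  refine datG_axis (de := 1 / 50) (s0 := 1 / 100) (lo := 0) (hi := 0) h1 h2 he ho (by norm_num)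
    le_rfl (by norm_num) (by norm_num) (by norm_num) (by norm_num [par6]) (by norm_num [par6])
    (by norm_num [par6]) ⟨1, fun i m hm => ⟨?_, fun k => ?_⟩⟩ ⟨0, fun i m _ => ?_⟩
  · exact seaOX_I hm (by norm_num) fun k => i.2 k
  · simp [xI]
  · rw [zero_re]
    constructor <;> nlinarith

theorem seaU_HI (i : HI) (m : ℕ) : @SeaCU seaIB (seaI m i.1) :=
  seaIU fun k _ => (i.2 k).trans (by norm_num)

/-- **every selection of the rows on the axis satisfies `OneRTC`** -/
theorem oneRT_I (ho : Ends.o = 0) (he : Ends.e = 0) (en : EnC) (i : ℕ → HI) :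
    OneRTC par6 (GeoC.sel (GI seaI en) i) :=
  oneRT_GX (SB := seaIB) (en := en) seaU_HI (datG_I ho he) i

theorem oneR_I (ho : Ends.o = 0) (he : Ends.e = 0) (en : EnC) (i : ℕ → HI) :
    OneRC par6 (GeoC.sel (GI seaI en) i) :=
  (oneRT_I ho he en i).oneRC

/-- **the same with two letters** -/
theorem oneRT_IL (ho : Ends.o = 0) (he : Ends.e = 0) (en : EnC) (i : ℕ → HI × Ix6) :
    OneRTC par6 (GeoC.sel (GLU (GI seaI en) (mNI seaI)) i) :=
  oneRT_GXL (SB := seaIB) (en := en) (awP_six le_rfl le_rfl) seaU_HI (datG_I ho he) i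

theorem oneR_IL (ho : Ends.o = 0) (he : Ends.e = 0) (en : EnC) (i : ℕ → HI × Ix6) :
    OneRC par6 (GeoC.sel (GLU (GI seaI en) (mNI seaI)) i) :=
  (oneRT_IL ho he en i).oneRC

end St
end PLT

end
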