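import Pool.Agent.PLT.GBd0
import Pool.Agent.PLT.EnvLC
import Pool.Agent.PLT.LinAC
import Pool.Agent.PLT.GLC

/-!
# The geometry of a sequence of contents, four ends at one place

Any number of rows at any places in both groups (`x | x ^ q`), the four ends at `e`, no missing rows
(`Ends.o = 0`, `Ends.e = 0`).

* `EMX e m`, `MFX m σ c w`: mean field value of sea and ends; of a group; `obX m x e β`: one body data;
  **`GX P en S x e : GeoC`**;
* `norm_thE_e`, `aend`, `thE_atoms`: the ends against `ThN` are atoms; **`R_obX`**: one body factor in the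
  strip of the sea.
-/

set_option autoImplicit false
set_option linter.unusedSectionVars false
set_option linter.unusedVariables false

noncomputable section

open Complex MeasureTheory Finset Filter Topology
open PLX (Fil Ends)

namespace PLT

open PHK hiding mfo6
open PBO.PLX (thZ)
open NUMF (l l_pos)
open NUGC.PLX (OB ThN pE qE)
open NUO (Xo TW Tb)
open NUP1.Leg (thE)
open NUSea.PLX.H0 (Gd)
open PBH (LC)
open PBH.PLX (Atm)
open PBX.PLX (rwC)
open PBU.PLX (T1L)
open PotH.PLX (sN)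
open Pool.Agent.PLX (rwq yq)
open PLT.Le (SeaV CntV)
open PBR.PLX (Ix6)

/-! ### the ends -/

/-- **four ends at `e`** -/
theorem norm_thE_e (e u : ℂ) : ‖thE e e e e u‖ = thZ e u ^ 2 := by
  unfold NUP1.Leg.thE PBO.PLX.thZ
  have h : u - e + 3 * NUP1.l = -(e - u - 3 * NUP1.l) := by ring
  rw [h, Complex.sin_neg, neg_mul_neg, norm_div, norm_mul, norm_mul, div_pow]
  ring

/-- the atoms of the ends at `e` against `ThN` -/
def aend (e : ℂ) (_a : Bool) : Fin 3 → Atm := ![⟨2, e.re, e.re - 3 * l, e.im⟩,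
  ⟨-(1 / 2), 7 / 2 * l, -(7 / 2 * l), 0⟩, ⟨-(1 / 2), 5 / 2 * l, -(5 / 2 * l), 0⟩]

/-- **the ends at `e` against `ThN`** -/
theorem thE_atoms {e z : ℂ} {δ : ℝ} (h0 : 0 < δ) (h01 : δ ≤ 4 * l)
    (w : PBH.Dm δ e.re (e.re - 3 * l) (z - e.im)) (hz : |z.im| ≤ l / 4) (a : Bool) :
    ‖thE e e e e (l + I * z)‖ = ThN (l + I * z) * Real.exp (HA (aend e) a z) := by
  obtain ⟨p1, e1⟩ := log_leg h0 h01 w
  obtain ⟨p2, e2⟩ := log_end hz
  rw [norm_thE_e]
  have e3 : Real.log (thZ e (l + I * z) ^ 2) = Real.log (ThN (l + I * z)) + HA (aend e) a z := by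
    rw [Real.log_pow, e1, e2]
    unfold HA aend
    simp only [Fin.sum_univ_succ, Matrix.cons_val_zero, Matrix.cons_val_succ, Fin.sum_univ_zero,
      Matrix.cons_val_fin_one]
    push_cast
    ring
  rw [← Real.exp_log (pow_pos p1 2), e3, Real.exp_add, Real.exp_log p2]

private theorem win_end (B : SeaCB) {e : ℂ} (h1 : -(9 / 10 * l) ≤ e.re) (h2 : e.re ≤ l / 2) :
    Win (l / 20) (-B.h) (7 / 100 * l) e.re (e.re - 3 * l) := by
  have hl := l_pos
  have hh := B.h0
  have hh1 := B.h1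
  constructor <;> linarith

private theorem win_fix (B : SeaCB) {y : ℝ} (h1 : |y| ≤ 7 / 2 * l) :
    Win (l / 20) (-B.h) (7 / 100 * l) y (-y) := by
  have hl := l_pos
  have hh := B.h0
  have hh1 := B.h1
  obtain ⟨a1, a2⟩ := abs_le.1 h1
  constructor <;> linarith

/-- **the atoms of the ends are seen from the strip** -/
theorem aend_ok (B : SeaCB) {e : ℂ} (h1 : -(9 / 10 * l) ≤ e.re) (h2 : e.re ≤ l / 2) :
    AtC 3 (l / 20) (-B.h) (7 / 100 * l) (aend e) := by
  have hl := l_pos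
  intro a i
  unfold aend
  fin_cases i
  · exact ⟨by norm_num, win_end B h1 h2⟩
  · exact ⟨by norm_num, win_fix B (y := 7 / 2 * l) (by rw [abs_of_pos (by linarith)])⟩
  · exact ⟨by norm_num, win_fix B (y := 5 / 2 * l) (by rw [abs_of_pos (by linarith)]; linarith)⟩

/-! ### the geometry -/

section geo

variable [Fil] [Ends]

section one

variable [SeaC]

/-- mean field value of sea and ends -/
def EMX (e : ℂ) (m : ℕ) : ℝ := Cv.MF (sN m) + ∑ a : Bool, ∫ t, sN m a * Cv.P t *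
  Real.log ‖thE e e e e (l + I * Cv.ga t)‖

/-- mean field value of a group -/
def MFX (m : ℕ) (σ : Bool) (c : NUSp.Cl) (w : ℂ) : ℝ :=
  ∫ t : ℝ, Cv.P t * (sN m true * (NUSp.gp true (NUSp.grp c σ w) (Cv.ga t)).re +
    sN m false * (NUSp.gp false (NUSp.grp c σ w) (Cv.ga t)).re)

theorem seaGC_MFX (m : ℕ) (g : Gd) : seaGC (sN m) g = MFX m g.σ g.c g.w := rfl

end one

/-- the cutoff of the strings -/
def F0X (m : ℕ) (x : Fin m → ℂ) (a : Bool) : ℂ → ℂ := phO (T1L m) (List.ofFn (rwq x a) ++ [])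

/-- **one body data**: rows `(x | x ^ q)`, four ends at `e` -/
def obX (m : ℕ) (x : Fin m → ℂ) (e : ℂ) (β : ℝ) : OB :=
  PHK.obX6 (2 * Real.cos NUP1.l) β x (fun _ => [I, -I]) (F0X m x) fun _ u => ‖thE e e e e u‖

theorem obX_nn (m : ℕ) (x : Fin m → ℂ) (e : ℂ) (β : ℝ) : (obX m x e β).Nn :=
  PHK.obX6_nn PBT.PLX.two_cos.1 β x _ _ fun _ _ => norm_nonneg _

theorem obX_φ (m : ℕ) (x : Fin m → ℂ) (e : ℂ) (β : ℝ) (a : Bool) :
    (obX m x e β).φ a = NUP1.phi β (List.ofFn (rwq x a) ++ [I, -I]) := rfl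

/-- **the geometry of a sequence of contents** -/
def GX (P : Par6) (en : EnC) (S : ℕ → SeaC) (x : (m : ℕ) → Fin m → ℂ) (e : ℕ → ℂ) : GeoC where
  B m β := obX m (x m) (e m) β
  one m ep e1 J r O i := @oneHC (S m) _ _ P m (@Cv.etaC (S m) e1 J m m) (TW ep e1 m) r O i
  EM m := @EMX _ _ (S m) (e m) m
  MF m := @MFX _ _ (S m) m
  D e1 J m := @dsp (S m) _ (@Cv.etaC (S m) e1 J m m)
  D1 e1 J m := @dsp1 (S m) _ (@Cv.etaC (S m) e1 J m m) (@Cv.etaC' (S m) e1 J m m)
  en m := en (S m)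

/-- selections -/
theorem GX_sel {ι : Type*} (P : Par6) (en : EnC) (S : ι → ℕ → SeaC) (x : ι → (m : ℕ) → Fin m → ℂ)
    (e : ι → ℕ → ℂ) (i : ℕ → ι) : GeoC.sel (fun j => GX P en (S j) (x j) (e j)) i =
      GX P en (fun m => S (i m) m) (fun m => x (i m) m) fun m => e (i m) m := rfl

/-- **the one body factor in the strip of the sea** -/
theorem R_obX (B : SeaCB) [SeaC] (ho : Ends.o = 0) (he : Ends.e = 0) {κ : Type} [Fintype κ]
    {w : κ → ℝ} {X : κ → ℂ} (hw : SeaV w X) {m : ℕ} (hm : 1 ≤ m) {x : Fin m → ℂ} (hx : CntV w X x)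
    {e : ℂ} (e1 : -(9 / 10 * l) ≤ e.re) (e2 : e.re ≤ l / 2) (hr : ∀ k, -l + B.h < (x k).re)
    (hr' : ∀ k, (x k).re ≤ l / 2) (β : ℝ) (a : Bool) {z : ℂ} (h1 : -B.h ≤ z.im)
    (h2 : z.im ≤ 7 / 100 * l) :
    (obX m x e β).R a (l + I * z) = 2 * Real.cos NUP1.l * Real.exp (Cv.vb (sN m) a z).re *
      ThN (l + I * z) * Real.exp (HA (aend e) a z) := by
  have hl := l_pos
  have hh := B.h0
  have hh1 := B.h1
  have hrow : ∀ k, |z.im + (x k).re| < l := fun k => by
    have := hr k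
    have := hr' k
    rw [abs_lt]
    constructor <;> linarith
  have h3 := rows_vb ho he hw hm hx a hrow
  have hwn := win_end B e1 e2
  have h4 := thE_atoms (e := e) (z := z) (δ := l / 20) (by positivity) (by linarith) (by
    have e : (z - ((e.im : ℝ) : ℂ)).im = z.im := by simp
    have := hwn.a1
    have := hwn.b1
    have := hwn.a2
    have := hwn.b2
    constructor <;> rw [e, abs_le] <;> constructor <;> linarith)
    (by rw [abs_le]; constructor <;> linarith) a
  show 2 * Real.cos NUP1.l * (∏ i, rwC a (x i) (l + I * z)) * ‖thE e e e e (l + I * z)‖ = _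
  rw [h3, h4]
  ring

end geo

end PLT

end
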