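import Pool.Agent.PLT.H1En
import Pool.Agent.PLT.TopDef
import Pool.Agent.PLT.RV

/-!
# (H1) The prefactor: the mean field of the straight sea is the normaliser, exactly (helper39)

* `StrS S m h` : `S` is the straight sea of the rows at the heights `h`;
* **`MF_I`** : `Cv.MF (sN m) = ∑ i j, (1/2 (1 + q ^ 2) mEo + q mEx) (x i - x j)`, `x = xI m h`;
* **`pre_I`** : `Cv.MF (sN m) + ∑ a, ∫ sN m a P (2 lgL 0) = - log |nrI x| + log (9/4 sin l / rh 0 ^ 2)`, every `m ≥ 1`, every `h`;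
* `two_lgL` : the two ends at `0` are one row on the line.
-/

set_option autoImplicit false
set_option linter.unusedSectionVars false
set_option linter.unusedVariables false

noncomputable section

open Complex MeasureTheory

namespace PLT

namespace H1

open NUMF (l l_pos)
open NUMFH (mE lE)
open PBV.PLX (mEo mEx mE_add)
open PBR (rh rh_neg rh_ne_zero)
open Pool.Agent.PLX (yq)
open PLX (Fil EMs)
open PotH.PLX (sN)
open St (xI nrI)

/-- **the straight sea** of `m` rows at the heights `h` -/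
structure StrS (S : SeaC) (m : ℕ) (h : ℕ → ℝ) : Prop where
  dens : ∀ t : ℝ, S.dens t = (m : ℝ)⁻¹ * ∑ i : Fin m, NUMF.P (t - h i)
  eta : ∀ t : ℝ, S.eta t = 0
  fs : ∀ t : ℝ, S.fs t = (m : ℂ)⁻¹ * ∑ i : Fin m, NUAct.vs (t - h i)
  fx : ∀ t : ℝ, S.fx t = (m : ℂ)⁻¹ * ∑ i : Fin m, NUAct.vx (t - h i)

variable {m : ℕ} {h : ℕ → ℝ}

section

variable [S : SeaC]

theorem ga_I (hS : StrS S m h) (t : ℝ) : Cv.ga t = t := by
  unfold Cv.ga Cv.eta
  rw [hS.eta, ofReal_zero, zero_mul, add_zero]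

theorem v_I (hS : StrS S m h) (t : ℝ) : Cv.v t = (m : ℝ)⁻¹ * ∑ i : Fin m, NUMF.v (t - h i) := by
  unfold Cv.v
  rw [ga_I hS, Cv.vc_eq]
  unfold Cv.vs Cv.vx
  rw [hS.fs, hS.fx, ← mul_add, ← Finset.sum_add_distrib]
  have e : ∀ i : Fin m, NUAct.vs ((t : ℂ) - h i) + NUAct.vx ((t : ℂ) - h i) = ((NUMF.v (t - h i) : ℝ) : ℂ) := by
    intro i
    rw [← NUAct.vc_eq, ← ofReal_sub, NUAct.vc_ofReal]
  rw [Finset.sum_congr rfl fun i _ => e i, ← ofReal_natCast, ← ofReal_inv, ← ofReal_sum, ← ofReal_mul, ofReal_re]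

theorem vx_I (hS : StrS S m h) (t : ℝ) : (Cv.vx (Cv.ga t)).re =
    (m : ℝ)⁻¹ * ∑ i : Fin m, (NUAct.vx ((t - h i : ℝ) : ℂ)).re := by
  rw [ga_I hS]
  unfold Cv.vx
  rw [hS.fx, ← ofReal_natCast, ← ofReal_inv, re_ofReal_mul, re_sum]
  simp only [ofReal_sub]

theorem hI (i j : Fin m) : xI m h i - xI m h j = ((h i - h j : ℝ) : ℂ) * I := by
  unfold St.xI
  push_cast
  ring

theorem sq_P {W E : ℝ → ℝ} (hS : StrS S m h) (hW : ∀ d, Integrable (fun t : ℝ => NUMF.P t * W (t - d)) ∧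
    ∫ t : ℝ, NUMF.P t * W (t - d) = E d) (hm : 0 < m) :
    (m : ℝ) ^ 2 * ∫ t, Cv.P t * ((m : ℝ)⁻¹ * ∑ i : Fin m, W (t - h i)) = ∑ i : Fin m, ∑ j : Fin m, E (h j - h i) := by
  have hm0 : (m : ℝ) ≠ 0 := by exact_mod_cast hm.ne'
  have e : ∀ t, Cv.P t * ((m : ℝ)⁻¹ * ∑ i : Fin m, W (t - h i)) =
      ((m : ℝ) ^ 2)⁻¹ * ((∑ i : Fin m, NUMF.P (t - h i)) * ∑ i : Fin m, W (t - h i)) := by
    intro t
    unfold Cv.P
    rw [hS.dens]
    field_simp
  simp only [e]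
  rw [integral_const_mul, (dbl_int hW fun i : Fin m => h i).2, ← mul_assoc, mul_inv_cancel₀ (pow_ne_zero 2 hm0), one_mul]

/-- **the mean field of the straight sea**, sizes `s a = n_a m` -/
theorem MF_s (hS : StrS S m h) (hm : 0 < m) {s : Bool → ℝ} {q : ℝ} (h1 : s true = m) (h2 : s false = q * m) :
    Cv.MF s = 1 / 2 * (1 + q ^ 2) * (∑ i, ∑ j, mE (xI m h i - xI m h j)) -
      1 / 2 * (q - 1) ^ 2 * ∑ i, ∑ j, mEx (xI m h i - xI m h j) := by
  have a1 := sq_P (S := S) hS int_vI hm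
  have a2 := sq_P (S := S) (W := fun t => (NUAct.vx ((t : ℝ) : ℂ)).re) hS int_vxI hm
  have b1 : ∀ i j : Fin m, mE (((h j - h i : ℝ) : ℂ) * I) = mE (xI m h i - xI m h j) := by
    intro i j
    rw [← hI, ← NUMFH.mE_even, neg_sub]
  have b2 : ∀ i j : Fin m, mEx (((h j - h i : ℝ) : ℂ) * I) = mEx (xI m h i - xI m h j) := by
    intro i j
    rw [← hI, ← PBV.PLX.mEx_neg, neg_sub]
  simp only [b1, b2] at a1 a2
  rw [← a1, ← a2]
  unfold Cv.MF Cv.Ms Cv.Mx
  simp only [v_I hS, vx_I hS]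
  rw [h1, h2]
  ring

variable [Fil]

theorem MF_I (hS : StrS S m h) (hm : 0 < m) {s : Bool → ℝ} (h1 : s true = m) (h2 : s false = Fil.q * m) :
    Cv.MF s = ∑ i, ∑ j, (1 / 2 * (1 + (Fil.q : ℝ) ^ 2) * mEo (xI m h i - xI m h j) +
      Fil.q * mEx (xI m h i - xI m h j)) := by
  rw [MF_s hS hm h1 h2, Q2E_mE]

/-- a leg against the sea -/
theorem leg_I (hS : StrS S m h) (hm : 0 < m) {z : ℂ} (h0 : -l < z.re) (h1 : z.re < 4 * l) :
    Integrable (fun t => Cv.P t * lgL z t) ∧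
    (m : ℝ) * ∫ t, Cv.P t * lgL z t = ∑ i, lE (z - xI m h i) := by
  have hm0 : (m : ℝ) ≠ 0 := by exact_mod_cast hm.ne'
  have e : ∀ t, Cv.P t * lgL z t = (m : ℝ)⁻¹ * ((∑ i : Fin m, NUMF.P (t - h i)) * lgL z t) := by
    intro t
    unfold Cv.P
    rw [hS.dens]
    ring
  have hx : ∀ i : Fin m, ((h i : ℝ) : ℂ) * I = xI m h i := by
    intro i
    unfold St.xI
    ring
  obtain ⟨i0, e0⟩ := sgl_int (fun d => int_lI d h0 h1) fun i : Fin m => h i
  simp only [hx] at e0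
  simp only [e]
  refine ⟨i0.const_mul _, ?_⟩
  rw [integral_const_mul, e0, ← mul_assoc, mul_inv_cancel₀ hm0, one_mul]

/-- **the prefactor is the normaliser**, ends `p`, `q`, exactly -/
theorem pre_E (hS : StrS S m h) (hm : 0 < m) {s : Bool → ℝ} (h1 : s true = m) (h2 : s false = Fil.q * m)
    {p q : ℂ} (hp : |p.re| ≤ l / 2) (hq : |q.re| ≤ l / 2) :
    Cv.MF s + ∑ a, ∫ t, s a * Cv.P t * (lgL p t + lgL q t) =
      -Real.log ‖preU (xI m h) (yq (xI m h)) p q‖ + Real.log (9 / 4 * ‖sin (NUP1.l : ℂ)‖ / ‖rh (p - q)‖ ^ 2) := by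
  have hl := l_pos
  have hx : ∀ i, |(xI m h i).re| ≤ l / 2 := by
    intro i
    have : (xI m h i).re = 0 := by simp [St.xI]
    rw [this, abs_zero]
    positivity
  obtain ⟨-, e1⟩ := log_preU (x := xI m h) (y := yq (xI m h)) hx (fun j => hx (Fin.modNat j)) hp hq
  obtain ⟨p1, p2⟩ := abs_le.1 hp
  obtain ⟨q1, q2⟩ := abs_le.1 hq
  obtain ⟨ip, ep⟩ := leg_I hS hm (z := p) (by linarith) (by linarith)
  obtain ⟨iq, eq⟩ := leg_I hS hm (z := q) (by linarith) (by linarith)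
  have e2 : ∀ a, ∫ t, s a * Cv.P t * (lgL p t + lgL q t) =
      s a * ((∫ t, Cv.P t * lgL p t) + ∫ t, Cv.P t * lgL q t) := by
    intro a
    rw [← integral_add ip iq, ← integral_const_mul]
    refine integral_congr_ae (ae_of_all _ fun t => ?_)
    ring
  have e3 : (∑ i, (lE (p - xI m h i) + lE (q - xI m h i))) =
      (m : ℝ) * ((∫ t, Cv.P t * lgL p t) + ∫ t, Cv.P t * lgL q t) := by
    rw [Finset.sum_add_distrib, ← ep, ← eq]
    ring
  rw [← e1, Q2E_yq, ← MF_I hS hm h1 h2, e3]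
  simp only [e2, Fintype.sum_bool, h1, h2]
  ring

theorem nrI_preU (x : Fin m → ℂ) : nrI x = preU x (yq x) 0 0 := rfl

end

section

variable [S : SeaC] [Fil]

attribute [local instance] _root_.PLX.ends0

/-- **SH1.Pre** -/
theorem pre_I (hS : StrS S m h) (hm : 0 < m) :
    Cv.MF (sN m) + ∑ a, ∫ t, sN m a * Cv.P t * (2 * lgL 0 t) =
      -Real.log ‖nrI (xI m h)‖ + Real.log (9 / 4 * ‖sin (NUP1.l : ℂ)‖ / ‖rh 0‖ ^ 2) := by
  have hl := l_pos
  have h1 : sN m true = m := by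
    show ((Fil.ne true m : ℕ) : ℝ) = m
    rw [_root_.PLX.ne_ends0]
    simp
  have h2 : sN m false = Fil.q * m := by
    show ((Fil.ne false m : ℕ) : ℝ) = Fil.q * m
    rw [_root_.PLX.ne_ends0]
    simp
  have h3 := pre_E hS hm h1 h2 (p := 0) (q := 0) (by rw [zero_re, abs_zero]; positivity)
    (by rw [zero_re, abs_zero]; positivity)
  rw [sub_zero, ← nrI_preU] at h3
  rw [← h3]
  simp only [← two_mul]

end

/-- **the two ends at `0` are one row on the line** -/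
theorem two_lgL (t : ℝ) : 2 * lgL 0 t = NUMF.v t := by
  have hl := l_pos
  have h1 := NUMFH.log_leg (z := 0) (by rw [zero_re]; linarith) (by rw [zero_re]; linarith) t
  unfold lgL
  rw [h1, zero_im, zero_re, zero_sub, zero_sub, NUMF.h_neg_left, NUMF.h_neg_left, NUMF.h_neg_right, NUMF.v_eq]
  ring

end H1

end PLT

end
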