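import Pool.Agent.PLT.H1Fam
import Pool.Agent.PLT.H1Phi
import Pool.Agent.PLT.RV
import Pool.Agent.PLX.PB.OwnLe0

/-!
# SH1.R: the data of the regular function at rows on the axis

Record `RI ep x` of `PLT/RV`: `m` rows `x` of `X` on the imaginary axis, `Y` = `q` copies, ends `0`.

* `KI ep x`, `kDI ep x`: its classes, the kernels of D1, D1'; `isKD_RI`;
* **`ok6_RI`**, **`rfn6_RI`** (one `m1` for all rows), `dat_RI` (both);
* dictionary: `pre_RI` (`preWW6 (RI ep x) = kRI x`), `eed_RI`, `fw_RI`; **`YI_eq6`**, **`KKI_eq6`**.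
-/

set_option autoImplicit false
set_option linter.unusedSectionVars false

noncomputable section

open Complex MeasureTheory Finset Filter
open scoped ENNReal
open PLX (Fil Ends)

namespace PLT.St

open NUO NUP1 NUP1S NUP1S.Ab NUCR NUGC NUGC.PLX PHK
open NUP1.Leg (Dk)
open PBX (Rws gP)
open PBForce (Rws0)
open PBR.PLX (IsKD6 RFn6 EED6 preWW6 ZWW6 RB6)
open PBO.PLX (beC_bd6)
open PBF.PLX (Crs)
open PB0.PLX (KRU kDRU)
open PBU.PLX (T1L)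
open _root_.Pool.Agent.PLX (yq rwq RU FFth GF6 gF6_gO)

variable [Fil] {m : ℕ}

/-- the classes of the regular function -/
def KI (ep : ℝ) (x : Fin m → ℂ) : PBQ.PLX.KD := KRU (RI ep x)

/-- the kernels of D1, D1' -/
def kDI (ep : ℝ) (x : Fin m → ℂ) : Bool → ℂ → ℂ := kDRU (RI ep x)

theorem isKD_RI (ep : ℝ) (x : Fin m → ℂ) : IsKD6 (KI ep x) (kDI ep x) (RI ep x) :=
  ⟨rfl, rfl, rfl, rfl, rfl, rfl, rfl, rfl⟩

theorem gF_RI {x : Fin m → ℂ} (h : Rws x) (a : Bool) : GF6 (rwq x a) (gI x a) :=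
  gF6_gO (T1L m) (_root_.Pool.Agent.PLX.Rws_rwq h a) (by simp)

omit [Fil] in
theorem re_zero_le : |(0 : ℂ).re| ≤ l / 2 := by
  have hl := Bd.l_pos
  rw [zero_re, abs_zero]
  linarith

omit [Fil] in
theorem two_cosI : 0 < 2 * Real.cos l := by
  have hp := Real.pi_pos
  have hl : l = Real.pi / 8 := rfl
  have h : 0 < Real.cos l := Real.cos_pos_of_mem_Ioo ⟨by linarith, by linarith⟩
  linarith

/-- **the data are admissible** -/
theorem ok6_RI {x : Fin m → ℂ} (hx : Rws0 x) {ep : ℝ} (h0 : 0 < ep) (h2 : ep ≤ 1 / 100) : (RI ep x).Ok6 := by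
  obtain ⟨b1, b2, b3⟩ := beC_bd6 h0 h2
  have hl := Bd.l_pos
  have hw := rws_of hx
  have hy : Rws (yq x) := _root_.Pool.Agent.PLX.Rws_rwq hw false
  have hnx : ∀ i, (x i).re ≠ l / 4 := fun i => by
    rw [hx.re i]
    intro h
    linarith
  have hny : ∀ j, (yq x j).re ≠ l / 4 := fun j => by
    have h3 : (yq x j).re = 0 := hx.re _
    rw [h3]
    intro h
    linarith
  exact ⟨b3, b2, hw, hy, re_zero_le, re_zero_le, hnx, hny, PBX.GOk.gP b3 b2 fun w hw => re_II w hw,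
    PBX.GOk.gP b3 b2 fun w hw => re_II w hw, (gF_RI hw true).gn, (gF_RI hw false).gn⟩

/-- **what the class formula needs** -/
theorem rfn6_RI : ∃ m1 : ℕ, 1 ≤ m1 ∧ ∀ m ≥ m1, ∀ x : Fin m → ℂ, Rws0 x → ∀ ep : ℝ, 0 < ep → ep ≤ 1 / 100 →
    RFn6 (RI ep x) (Fil.xn m) (fun _ => [I, -I]) (2 * Real.cos l) := by
  obtain ⟨m1, h1, H⟩ := PLT.H1.phI6_axU
  refine ⟨m1, h1, fun m hm x hx ep h0 h2 => ?_⟩
  obtain ⟨b1, b2, b3⟩ := beC_bd6 h0 h2
  have hw := rws_of hx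
  have hy : Rws (yq x) := _root_.Pool.Agent.PLX.Rws_rwq hw false
  exact ⟨(Fil.add_xn m).symm, ⟨b3, b2, hw, hy, re_zero_le, re_zero_le, rfl, rfl, (gF_RI hw true).gn.meas,
    (gF_RI hw false).gn.meas, PBX.norm_cc m, PBX.norm_cc _, fun _ w hw => re_II w hw⟩, two_cosI, gF_RI hw true,
    gF_RI hw false, H m hm (RI ep x) x b3 b2 rfl rfl hx⟩

/-- both, and `1 < β` -/
theorem dat_RI : ∃ m1 : ℕ, 1 ≤ m1 ∧ ∀ m ≥ m1, ∀ x : Fin m → ℂ, Rws0 x → ∀ ep : ℝ, 0 < ep → ep ≤ 1 / 100 →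
    (RI ep x).Ok6 ∧ 1 < (RI ep x).β ∧ RFn6 (RI ep x) (Fil.xn m) (fun _ => [I, -I]) (2 * Real.cos l) := by
  obtain ⟨m1, h1, H⟩ := rfn6_RI
  exact ⟨m1, h1, fun m hm x hx ep h0 h2 => ⟨ok6_RI hx h0 h2, (beC_bd6 h0 h2).1, H m hm x hx ep h0 h2⟩⟩

/-! ### the dictionary -/

omit [Fil] in
theorem kf_pr1 {m M : ℕ} (p q : ℂ) (x : Fin m → ℂ) (y : Fin M → ℂ) (w : ℂ) :
    NUP1.N.pr1 p q x y w = kfG p q x y w := by
  unfold NUP1.N.pr1 NUP1.N.prc NUP1.N.rA NUP1.N.rB kfG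
  rw [Finset.prod_div_distrib, Finset.prod_const_one]
  ring

/-- **the prefactor of the class `W W`** -/
theorem pre_RI (ep : ℝ) (x : Fin m → ℂ) (y : ℝ × ℝ) : preWW6 (RI ep x) y = kRI x y := by
  have e1 : (RI ep x).KF (vl (5 / 4 * l) y.1) = kfG 0 0 x (yq x) (vl (5 / 4 * l) y.1) := kf_pr1 _ _ _ _ _
  have e2 : (RI ep x).KF' (vl (5 / 4 * l) y.2) = kfG 0 0 (yq x) x (vl (5 / 4 * l) y.2) := kf_pr1 _ _ _ _ _
  unfold preWW6 kRI
  rw [e1, e2, PBI.PLX.wt_vl, PBI.PLX.wt_vl]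

/-- the eleven integrals -/
theorem eed_RI (ep : ℝ) (x : Fin m → ℂ) (n : ℕ) : EED6 (RI ep x) (Fil.xn m) n = E11I ep x n := rfl

/-- the functional of the class `W W` -/
theorem fw_RI (ep : ℝ) (x : Fin m → ℂ) (n : ℕ) (η η' : Crs) (y : ℝ × ℝ) :
    FF6 (ZWW6 (RI ep x) y) par6 n (n + Fil.xn m) η η' (fun _ _ _ _ _ => 1) = FWI ep x n η η' y := by
  unfold FWI ZWW6
  rw [PBI.PLX.wt_vl, PBI.PLX.wt_vl]

theorem YI_eq6 (ep : ℝ) (x : Fin m → ℂ) :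
    YI ep x = nrI x * ∑ n ∈ range (2 * m + 1), EED6 (RI ep x) (Fil.xn m) n := rfl

/-- the integrand in the names of the classes -/
theorem KKI_eq6 (ep : ℝ) (x : Fin m → ℂ) (η η' : Crs) (y : ℝ × ℝ) : KKI ep x η η' y =
    (-1) ^ Fil.xn m * (nrI x * (2 * (Real.pi : ℂ))⁻¹ ^ 2) * (preWW6 (RI ep x) y *
      ∑ n ∈ range (2 * m + 1), FF6 (ZWW6 (RI ep x) y) par6 n (n + Fil.xn m) η η' (fun _ _ _ _ _ => 1)) := by
  unfold KKI SRI
  rw [pre_RI]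
  simp only [fw_RI]
  ring

end PLT.St

end
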