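import Pool.Agent.PLT.PriceX
import Pool.Agent.PLT.Rate
import Pool.Agent.PHK.LetM

/-!
# The clouds of the letters over a sea on a curve: one row

A row at the place `x` (complex, file units), a half quantum at `w`: everything depends on
`v = (w - x).re / l` and `t = (w - x).im`.

* `hl y t = (Hc t (y l) - log 2) / 2`: the cloud of one row on one sine; `md`; `md_in`, `hl_flip`;
* `rdk k0 k`: the representative of `k` modulo `8` in `k0 .. k0 + 7`; `k0L t`: that of the type;
  **`cwX k0 L v t`**: the cloud of one row on the word `L`;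
* closed forms: `cw_Wo`, `cw_Wx`, `cw_Fo`, `cw_Fx`, `cw_Po`, `cw_Px`, `cw_Hso` .. `cw_Hgx`, `cw_Do`.
-/

set_option autoImplicit false
set_option linter.unusedSectionVars false
set_option linter.unusedVariables false
set_option linter.unusedSimpArgs false

noncomputable section

open MeasureTheory Set Filter Topology

namespace PLT

open NUMF (l l_pos zj)
open NUHM (ls ls_per ls_neg)
open NURow (HT)

/-! ### one sine -/

/-- the cloud of one row on one sine at the distance `y l` of the line `4 l` -/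
def hl (y t : ℝ) : ℝ := (Hc t (y * l) - Real.log 2) / 2

/-- the combination of the field equation -/
def md (y t : ℝ) : ℝ := hl (y + 1) t + hl (y - 1) t - hl y t

theorem hl_neg (y t : ℝ) : hl (-y) t = hl y t := by
  unfold hl
  rw [neg_mul, Hc_neg]

/-- **the field equation** -/
theorem md_in {y : ℝ} (h1 : -4 < y) (h2 : y < 4) (t : ℝ) : md y t = ls (4 - y) t := by
  have hl := l_pos
  have h := conv_c (y := y * l) (by rw [abs_lt]; constructor <;> nlinarith) t
  unfold md PLT.hl NUHM.ls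
  rw [show (y + 1) * l = y * l + l by ring, show (y - 1) * l = y * l - l by ring,
    show (4 - (4 - y)) * l = y * l by ring]
  linarith

/-- **beyond the line `4 l`** -/
theorem hl_flip {y : ℝ} (h1 : 3 < y) (h2 : y < 5) (t : ℝ) : hl y t = hl (8 - y) t - Ag ((y - 4) * l) t := by
  have hl := l_pos
  have h := Hc_flip (y := y * l) (by nlinarith) (by nlinarith) t
  unfold PLT.hl
  rw [show (8 - y) * l = 8 * l - y * l by ring, show (y - 4) * l = y * l - 4 * l by ring]
  linarith

/-- the representative of `k` modulo `8` -/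
def rdk (k0 k : ℤ) : ℤ := k0 + (k - k0) % 8

theorem rdk_ge (k0 k : ℤ) : k0 ≤ rdk k0 k := by
  have := Int.emod_nonneg (k - k0) (by norm_num : (8 : ℤ) ≠ 0)
  unfold rdk
  omega

theorem rdk_le (k0 k : ℤ) : rdk k0 k ≤ k0 + 7 := by
  have := Int.emod_lt_of_pos (k - k0) (by norm_num : (0 : ℤ) < 8)
  unfold rdk
  omega

theorem rdk_mod (k0 k : ℤ) : ∃ n : ℤ, k = rdk k0 k + 8 * n :=
  ⟨(k - k0) / 8, by
    have := Int.emod_add_mul_ediv (k - k0) 8
    unfold rdk
    omega⟩

/-- **the cloud of one row on a word**, `v` = place of the half quantum minus place of the row -/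
def cwX (k0 : ℤ) (L : List (ℤ × ℝ)) (v t : ℝ) : ℝ :=
  (L.map fun kc => kc.2 * hl (3 - rdk k0 kc.1 + v) t).sum

@[simp] theorem cwX_nil (k0 : ℤ) (v t : ℝ) : cwX k0 [] v t = 0 := rfl

theorem cwX_cons (k0 : ℤ) (a : ℤ × ℝ) (L : List (ℤ × ℝ)) (v t : ℝ) :
    cwX k0 (a :: L) v t = a.2 * hl (3 - rdk k0 a.1 + v) t + cwX k0 L v t := by
  simp [cwX]

/-- the representatives of a type: half quanta at `5/4 l` (`W`), `-11/4 l` (`F`, `P`), `5/8 l` (`H`) -/
def k0L : HT → ℤ
  | .W => 1
  | .F => -3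
  | .P => -3
  | .H => 0

/-! ### type `W`, `v` in `(0, 4)` -/

theorem cw_Wo {v : ℝ} (h1 : 0 < v) (h2 : v < 8) (t : ℝ) : cwX 1 (NUSp.wX .w) v t = ls v t := by
  have h := md_in (y := v - 4) (by linarith) (by linarith) t
  rw [show 4 - (v - 4) = -v + 8 by ring, ls_per, ls_neg] at h
  rw [← h]
  unfold NUSp.wX
  simp only [cwX_cons, cwX_nil]
  rw [show rdk 1 0 = 8 by decide, show rdk 1 (-2) = 6 by decide, show rdk 1 (-1) = 7 by decide]
  push_cast
  unfold md
  rw [show (3 : ℝ) - 8 + v = v - 4 - 1 by ring, show (3 : ℝ) - 6 + v = v - 4 + 1 by ring,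
    show (3 : ℝ) - 7 + v = v - 4 by ring]
  ring

theorem cw_Wx {v : ℝ} (h1 : -3 < v) (h2 : v < 5) (t : ℝ) : cwX 1 (NUSp.wY .w) v t = -ls (v + 3) t := by
  have h := md_in (y := v - 1) (by linarith) (by linarith) t
  rw [show 4 - (v - 1) = -(v + 3) + 8 by ring, ls_per, ls_neg] at h
  rw [← h]
  unfold NUSp.wY
  simp only [cwX_cons, cwX_nil]
  rw [show rdk 1 4 = 4 by decide, show rdk 1 3 = 3 by decide, show rdk 1 (-3) = 5 by decide]
  push_cast
  unfold md
  rw [show (3 : ℝ) - 4 + v = v - 1 by ring, show (3 : ℝ) - 3 + v = v - 1 + 1 by ring,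
    show (3 : ℝ) - 5 + v = v - 1 - 1 by ring]
  ring

/-! ### types `F`, `P`, `D`, `v` in `(-7/2, -3/2)` -/

theorem cw_Fo {v : ℝ} (h1 : -8 < v) (h2 : v < 0) (t : ℝ) : cwX (-3) (NUSp.wX .w) v t = ls v t := by
  have h := md_in (y := v + 4) (by linarith) (by linarith) t
  rw [show 4 - (v + 4) = -v by ring, ls_neg] at h
  rw [← h]
  unfold NUSp.wX
  simp only [cwX_cons, cwX_nil]
  rw [show rdk (-3) 0 = 0 by decide, show rdk (-3) (-2) = -2 by decide,
    show rdk (-3) (-1) = -1 by decide]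
  push_cast
  unfold md
  rw [show (3 : ℝ) - 0 + v = v + 4 - 1 by ring, show (3 : ℝ) - -2 + v = v + 4 + 1 by ring,
    show (3 : ℝ) - -1 + v = v + 4 by ring]
  ring

private theorem cw_Fx_eq (v t : ℝ) : cwX (-3) (NUSp.wY .w) v t = -(hl v t + hl (v + 6) t - hl (v - 1) t) := by
  unfold NUSp.wY
  simp only [cwX_cons, cwX_nil]
  rw [show rdk (-3) 4 = 4 by decide, show rdk (-3) 3 = 3 by decide, show rdk (-3) (-3) = -3 by decide]
  push_cast
  rw [show (3 : ℝ) - 4 + v = v - 1 by ring, show (3 : ℝ) - 3 + v = v by ring,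
    show (3 : ℝ) - -3 + v = v + 6 by ring]
  ring

/-- rows left of `1/4 l` -/
private theorem cw_Fx1 {v : ℝ} (h1 : -3 < v) (h2 : v < -1) (t : ℝ) :
    cwX (-3) (NUSp.wY .w) v t = -ls (v + 3) t - Ag (-(v + 2) * l) t := by
  have h := md_in (y := v - 1) (by linarith) (by linarith) t
  have f := hl_flip (y := v + 6) (by linarith) (by linarith) t
  have n := hl_neg (v - 2) t
  have a := Ag_neg_v ((v + 2) * l) t
  rw [show 4 - (v - 1) = -(v + 3) + 8 by ring, ls_per, ls_neg] at h
  rw [show 8 - (v + 6) = -(v - 2) by ring, n, show (v + 6 - 4) * l = (v + 2) * l by ring] at f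
  rw [cw_Fx_eq, neg_mul, a]
  unfold md at h
  rw [show v - 1 + 1 = v by ring, show v - 1 - 1 = v - 2 by ring] at h
  linarith

/-- rows right of `1/4 l` -/
private theorem cw_Fx2 {v : ℝ} (h1 : -5 < v) (h2 : v < -3) (h3 : -4 < v) (t : ℝ) :
    cwX (-3) (NUSp.wY .w) v t = -ls (v + 3) t - Ag (-(v + 2) * l) t := by
  have hl := l_pos
  have h := md_in (y := v + 7) (by linarith) (by linarith) t
  have f1 := hl_flip (y := 1 - v) (by linarith) (by linarith) t
  have f2 := hl_flip (y := -v) (by linarith) (by linarith) t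
  have n1 := hl_neg (v - 1) t
  have n2 := hl_neg v t
  have s := Ag_split (-(v + 2) * l) t
  have a := Ag_neg_v ((v + 4) * l) t
  rw [show 4 - (v + 7) = -(v + 3) by ring, ls_neg] at h
  rw [show 1 - v = -(v - 1) by ring, n1, show 8 - -(v - 1) = v + 7 by ring,
    show (-(v - 1) - 4) * l = (-v - 3) * l by ring] at f1
  rw [n2, show 8 - -v = v + 7 + 1 by ring, show (-v - 4) * l = -((v + 4) * l) by ring, a] at f2
  rw [show 2 * l - -(v + 2) * l = (v + 4) * l by ring, show -(v + 2) * l - l = (-v - 3) * l by ring] at s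
  rw [cw_Fx_eq, s]
  unfold md at h
  rw [show v + 7 - 1 = v + 6 by ring] at h
  linarith

private theorem h_cont_y {t : ℝ} (ht : t ≠ 0) : Continuous fun y => NUMF.h t y := by
  unfold NUMF.h
  refine Continuous.log (by fun_prop) fun y => ?_
  have h1 := Real.neg_one_le_cos (2 * y)
  have h2 : 1 < Real.cosh (2 * t) := Real.one_lt_cosh.2 (by simpa using ht)
  linarith

private theorem Ag_cont_y {t : ℝ} (ht : t ≠ 0) : Continuous fun v => Ag v t := by
  have hc : 1 < NUMF.ch t := by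
    unfold NUMF.ch
    exact Real.one_lt_cosh.2 (by simpa using ht)
  unfold Ag La
  have key : ∀ c : ℝ, Continuous fun v : ℝ =>
      (Real.log (NUMF.ch t + Real.sin (8 / 3 * v + c)) -
        Real.log (NUMF.ch t - Real.sin (8 / 3 * v + c))) / 2 := by
    intro c
    refine (Continuous.sub ?_ ?_).div_const 2
    · refine Continuous.log (by fun_prop) fun v => ?_
      have := Real.neg_one_le_sin (8 / 3 * v + c)
      linarith
    · refine Continuous.log (by fun_prop) fun v => ?_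
      have := Real.sin_le_one (8 / 3 * v + c)
      linarith
  have k1 := key (-(Real.pi / 6))
  simp only [← sub_eq_add_neg] at k1
  exact k1.add (key _)

private theorem hl_at {a v : ℝ} (t : ℝ) (h0 : |v + a| < 5) : ContinuousAt (fun v => hl (v + a) t) v := by
  have hl := l_pos
  unfold PLT.hl
  have h1 : |(v + a) * l| < 5 * l := by
    rw [abs_mul, abs_of_pos hl]
    exact mul_lt_mul_of_pos_right h0 hl
  have h2 : ContinuousAt (fun v => Hc t ((v + a) * l)) v :=
    ContinuousAt.comp (f := fun v : ℝ => (v + a) * l) (g := fun y => Hc t y) (Hc_cont_y t h1)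
      (by fun_prop)
  exact (h2.sub continuousAt_const).div_const 2

/-- two continuous functions which agree on one side agree at the end -/
private theorem eq_of_right {f g : ℝ → ℝ} {a b : ℝ} (hab : a < b) (hf : ContinuousAt f a)
    (hg : ContinuousAt g a) (h : ∀ y ∈ Ioo a b, f y = g y) : f a = g a := by
  have h1 : Tendsto f (𝓝[>] a) (𝓝 (f a)) := hf.tendsto.mono_left nhdsWithin_le_nhds
  have h2 : Tendsto g (𝓝[>] a) (𝓝 (g a)) := hg.tendsto.mono_left nhdsWithin_le_nhds
  refine tendsto_nhds_unique h1 (h2.congr' ?_)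
  filter_upwards [Ioo_mem_nhdsGT hab] with y hy
  exact (h y hy).symm

/-- **type `F`, the other species**: all rows, but not at the zero of the row factor -/
theorem cw_Fx {v : ℝ} (h1 : -4 < v) (h2 : v < -1) {t : ℝ} (hv : v ≠ -3 ∨ t ≠ 0) :
    cwX (-3) (NUSp.wY .w) v t = -ls (v + 3) t - Ag (-(v + 2) * l) t := by
  rcases lt_trichotomy v (-3) with h | h | h
  · exact cw_Fx2 (by linarith) h h1 t
  · have ht : t ≠ 0 := hv.resolve_left (fun h' => h' h)
    rw [h]
    refine eq_of_right (f := fun v => cwX (-3) (NUSp.wY .w) v t)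
      (g := fun v => -ls (v + 3) t - Ag (-(v + 2) * l) t) (a := -3) (b := -1) (by norm_num) ?_ ?_
      fun y hy => cw_Fx1 hy.1 hy.2 t
    · simp only [cw_Fx_eq]
      have a1 := hl_at (a := 0) (v := -3) t (by norm_num [abs_lt])
      have a2 := hl_at (a := 6) (v := -3) t (by norm_num [abs_lt])
      have a3 := hl_at (a := -1) (v := -3) t (by norm_num [abs_lt])
      simp only [add_zero, ← sub_eq_add_neg] at a1 a3
      exact ((a1.add a2).sub a3).neg
    · refine ContinuousAt.sub (ContinuousAt.neg ?_) ?_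
      · unfold NUHM.ls
        exact ((((h_cont_y ht).comp (by fun_prop : Continuous fun v : ℝ => (4 - (v + 3)) * l)).sub
          continuous_const).div_const 2).continuousAt
      · exact ((Ag_cont_y ht).comp (by fun_prop : Continuous fun v : ℝ => -(v + 2) * l)).continuousAt
  · exact cw_Fx1 h h2 t

theorem cw_Po {v : ℝ} (h1 : -6 < v) (h2 : v < 0) (t : ℝ) :
    cwX (-3) (NUSp.wX .p) v t = ls v t - 2 * ls (v + 6) t := by
  have h := md_in (y := v + 4) (by linarith) (by linarith) t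
  have h' := md_in (y := v + 2) (by linarith) (by linarith) t
  rw [show 4 - (v + 4) = -v by ring, ls_neg] at h
  rw [show 4 - (v + 2) = -(v + 6) + 8 by ring, ls_per, ls_neg] at h'
  rw [← h, ← h']
  unfold NUSp.wX
  simp only [cwX_cons, cwX_nil]
  rw [show rdk (-3) 0 = 0 by decide, show rdk (-3) (-2) = -2 by decide,
    show rdk (-3) (-1) = -1 by decide, show rdk (-3) 1 = 1 by decide, show rdk (-3) 2 = 2 by decide]
  push_cast
  unfold md
  rw [show (3 : ℝ) - 0 + v = v + 4 - 1 by ring, show (3 : ℝ) - -2 + v = v + 4 + 1 by ring,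
    show (3 : ℝ) - -1 + v = v + 4 by ring, show (3 : ℝ) - 1 + v = v + 2 by ring,
    show (3 : ℝ) - 2 + v = v + 2 - 1 by ring, show v + 2 + 1 = v + 4 - 1 by ring]
  ring

theorem cw_Px {v : ℝ} (h1 : -9 < v) (h2 : v < -1) (t : ℝ) :
    cwX (-3) (NUSp.wY .p) v t = ls (v + 1) t := by
  have h := md_in (y := v + 5) (by linarith) (by linarith) t
  rw [show 4 - (v + 5) = -(v + 1) by ring, ls_neg] at h
  rw [← h]
  unfold NUSp.wY
  simp only [cwX_cons, cwX_nil]
  rw [show rdk (-3) (-3) = -3 by decide, show rdk (-3) (-1) = -1 by decide,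
    show rdk (-3) (-2) = -2 by decide]
  push_cast
  unfold md
  rw [show (3 : ℝ) - -3 + v = v + 5 + 1 by ring, show (3 : ℝ) - -1 + v = v + 5 - 1 by ring,
    show (3 : ℝ) - -2 + v = v + 5 by ring]
  ring

/-- the class D1 -/
theorem cw_Do {v : ℝ} (h1 : -6 < v) (h2 : v < 0) (t : ℝ) :
    cwX (-3) (NUSp.wX .d) v t = ls v t - ls (v - 2) t := by
  have h := md_in (y := v + 4) (by linarith) (by linarith) t
  have h' := md_in (y := v + 2) (by linarith) (by linarith) t
  rw [show 4 - (v + 4) = -v by ring, ls_neg] at h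
  rw [show 4 - (v + 2) = -(v - 2) by ring, ls_neg] at h'
  rw [← h, ← h']
  unfold NUSp.wX
  simp only [cwX_cons, cwX_nil]
  rw [show rdk (-3) (-2) = -2 by decide,
    show rdk (-3) (-1) = -1 by decide, show rdk (-3) 1 = 1 by decide, show rdk (-3) 2 = 2 by decide]
  push_cast
  unfold md
  rw [show (3 : ℝ) - -2 + v = v + 4 + 1 by ring,
    show (3 : ℝ) - -1 + v = v + 4 by ring, show (3 : ℝ) - 1 + v = v + 2 by ring,
    show (3 : ℝ) - 2 + v = v + 2 - 1 by ring, show v + 2 + 1 = v + 4 - 1 by ring]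
  ring

/-! ### type `H`, `v` in `(0, 2)` -/

private theorem H_a {v : ℝ} (h1 : 0 < v) (h2 : v < 2) (t : ℝ) :
    hl (v - 3) t + hl (v + 3) t - hl (v - 4) t = ls v t - Ag ((v - 1) * l) t := by
  have h := md_in (y := v - 4) (by linarith) (by linarith) t
  have f := hl_flip (y := v + 3) (by linarith) (by linarith) t
  have n := hl_neg (v - 5) t
  rw [show 4 - (v - 4) = -v + 8 by ring, ls_per, ls_neg] at h
  rw [show 8 - (v + 3) = -(v - 5) by ring, n, show v + 3 - 4 = v - 1 by ring] at f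
  rw [f, ← h]
  unfold md
  rw [show v - 4 + 1 = v - 3 by ring, show v - 4 - 1 = v - 5 by ring]
  ring

private theorem H_m3 {v : ℝ} (h1 : -1 < v) (h2 : v < 7) (t : ℝ) :
    hl (v - 2) t + hl (v - 4) t - hl (v - 3) t = ls (v + 1) t := by
  have h := md_in (y := v - 3) (by linarith) (by linarith) t
  rw [show 4 - (v - 3) = -(v + 1) + 8 by ring, ls_per, ls_neg] at h
  rw [← h]
  unfold md
  rw [show v - 3 + 1 = v - 2 by ring, show v - 3 - 1 = v - 4 by ring]

private theorem H_p2 {v : ℝ} (h1 : -6 < v) (h2 : v < 2) (t : ℝ) :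
    hl (v + 3) t + hl (v + 1) t - hl (v + 2) t = ls (v - 2) t := by
  have h := md_in (y := v + 2) (by linarith) (by linarith) t
  rw [show 4 - (v + 2) = -(v - 2) by ring, ls_neg] at h
  rw [← h]
  unfold md
  rw [show v + 2 + 1 = v + 3 by ring, show v + 2 - 1 = v + 1 by ring]

private theorem H_p1 {v : ℝ} (h1 : -5 < v) (h2 : v < 3) (t : ℝ) :
    hl (v + 2) t + hl v t - hl (v + 1) t = ls (v - 3) t := by
  have h := md_in (y := v + 1) (by linarith) (by linarith) t
  rw [show 4 - (v + 1) = -(v - 3) by ring, ls_neg] at h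
  rw [← h]
  unfold md
  rw [show v + 1 + 1 = v + 2 by ring, show v + 1 - 1 = v by ring]

private theorem H_p0 {v : ℝ} (h1 : -4 < v) (h2 : v < 4) (t : ℝ) :
    hl (v + 1) t + hl (v - 1) t - hl v t = ls (v - 4) t := by
  have h := md_in (y := v) (by linarith) (by linarith) t
  rw [show 4 - v = -(v - 4) by ring, ls_neg] at h
  rw [← h]
  rfl

private theorem H_m1 {v : ℝ} (h1 : -3 < v) (h2 : v < 5) (t : ℝ) :
    hl v t + hl (v - 2) t - hl (v - 1) t = ls (v + 3) t := by
  have h := md_in (y := v - 1) (by linarith) (by linarith) t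
  rw [show 4 - (v - 1) = -(v + 3) + 8 by ring, ls_per, ls_neg] at h
  rw [← h]
  unfold md
  rw [show v - 1 + 1 = v by ring, show v - 1 - 1 = v - 2 by ring]

private theorem rd0 : rdk 0 (-3) = 5 ∧ rdk 0 (-2) = 6 ∧ rdk 0 (-1) = 7 ∧ rdk 0 0 = 0 ∧ rdk 0 1 = 1 ∧
    rdk 0 2 = 2 ∧ rdk 0 3 = 3 ∧ rdk 0 4 = 4 := by decide

private theorem k_m3 (v : ℝ) : 3 - ((rdk 0 (-3) : ℤ) : ℝ) + v = v - 2 := by
  rw [rd0.1]
  push_cast
  ring
private theorem k_m2 (v : ℝ) : 3 - ((rdk 0 (-2) : ℤ) : ℝ) + v = v - 3 := by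
  rw [rd0.2.1]
  push_cast
  ring
private theorem k_m1 (v : ℝ) : 3 - ((rdk 0 (-1) : ℤ) : ℝ) + v = v - 4 := by
  rw [rd0.2.2.1]
  push_cast
  ring
private theorem k_0 (v : ℝ) : 3 - ((rdk 0 0 : ℤ) : ℝ) + v = v + 3 := by
  rw [rd0.2.2.2.1]
  push_cast
  ring
private theorem k_1 (v : ℝ) : 3 - ((rdk 0 1 : ℤ) : ℝ) + v = v + 2 := by
  rw [rd0.2.2.2.2.1]
  push_cast
  ring
private theorem k_2 (v : ℝ) : 3 - ((rdk 0 2 : ℤ) : ℝ) + v = v + 1 := by
  rw [rd0.2.2.2.2.2.1]
  push_cast
  ring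
private theorem k_3 (v : ℝ) : 3 - ((rdk 0 3 : ℤ) : ℝ) + v = v := by
  rw [rd0.2.2.2.2.2.2.1]
  push_cast
  ring
private theorem k_4 (v : ℝ) : 3 - ((rdk 0 4 : ℤ) : ℝ) + v = v - 1 := by
  rw [rd0.2.2.2.2.2.2.2]
  push_cast
  ring

section H

variable {v : ℝ} (h1 : 0 < v) (h2 : v < 2) (t : ℝ)

include h1 h2

theorem cw_Hso : cwX 0 (NUSp.wX .hs) v t = -ls v t - 2 * ls (v + 1) t - Ag ((1 - v) * l) t := by
  have a1 := H_a h1 h2 t
  have a2 := H_m3 (v := v) (by linarith) (by linarith) t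
  have a := Ag_neg_v ((v - 1) * l) t
  rw [show (1 - v) * l = -((v - 1) * l) by ring, a]
  unfold NUSp.wX
  simp only [cwX_cons, cwX_nil, k_m3, k_m2, k_m1, k_0, k_1, k_2, k_3, k_4]
  linarith

theorem cw_Hsx : cwX 0 (NUSp.wY .hs) v t = ls (v - 2) t + ls (v - 3) t + ls (v - 4) t := by
  have a1 := H_p2 (v := v) (by linarith) (by linarith) t
  have a2 := H_p1 (v := v) (by linarith) (by linarith) t
  have a3 := H_p0 (v := v) (by linarith) (by linarith) t
  unfold NUSp.wY
  simp only [cwX_cons, cwX_nil, k_m3, k_m2, k_m1, k_0, k_1, k_2, k_3, k_4]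
  linarith

theorem cw_Hpo : cwX 0 (NUSp.wX .hp) v t = ls (v - 2) t - 2 * ls (v + 1) t := by
  have a1 := H_p2 (v := v) (by linarith) (by linarith) t
  have a2 := H_m3 (v := v) (by linarith) (by linarith) t
  unfold NUSp.wX
  simp only [cwX_cons, cwX_nil, k_m3, k_m2, k_m1, k_0, k_1, k_2, k_3, k_4]
  linarith

theorem cw_Hpx : cwX 0 (NUSp.wY .hp) v t = ls (v - 2) t + ls (v - 3) t + ls (v - 4) t -
    2 * ls (v + 3) t := by
  have a1 := H_p2 (v := v) (by linarith) (by linarith) t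
  have a2 := H_p1 (v := v) (by linarith) (by linarith) t
  have a3 := H_p0 (v := v) (by linarith) (by linarith) t
  have a4 := H_m1 (v := v) (by linarith) (by linarith) t
  unfold NUSp.wY
  simp only [cwX_cons, cwX_nil, k_m3, k_m2, k_m1, k_0, k_1, k_2, k_3, k_4]
  linarith

/-- string and hole of the other species -/
theorem cw_Hto : cwX 0 PHK.wXs v t = -ls v t - 2 * ls (v + 1) t + 2 * ls (v + 3) t -
    Ag ((1 - v) * l) t := by
  have a1 := H_a h1 h2 t
  have a2 := H_m3 (v := v) (by linarith) (by linarith) t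
  have a4 := H_m1 (v := v) (by linarith) (by linarith) t
  have a := Ag_neg_v ((v - 1) * l) t
  rw [show (1 - v) * l = -((v - 1) * l) by ring, a]
  unfold PHK.wXs
  simp only [cwX_cons, cwX_nil, k_m3, k_m2, k_m1, k_0, k_1, k_2, k_3, k_4]
  linarith

theorem cw_Htx : cwX 0 PHK.wYs v t = ls (v - 3) t + ls (v - 4) t - ls v t -
    Ag ((1 - v) * l) t := by
  have a1 := H_a h1 h2 t
  have a2 := H_p1 (v := v) (by linarith) (by linarith) t
  have a3 := H_p0 (v := v) (by linarith) (by linarith) t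
  have a := Ag_neg_v ((v - 1) * l) t
  rw [show (1 - v) * l = -((v - 1) * l) by ring, a]
  unfold PHK.wYs
  simp only [cwX_cons, cwX_nil, k_m3, k_m2, k_m1, k_0, k_1, k_2, k_3, k_4]
  linarith

/-- string, quantum and hole -/
theorem cw_Hgo : cwX 0 PHK.wXg v t = ls (v - 2) t - 2 * ls (v + 1) t + 2 * ls (v + 3) t := by
  have a1 := H_p2 (v := v) (by linarith) (by linarith) t
  have a2 := H_m3 (v := v) (by linarith) (by linarith) t
  have a4 := H_m1 (v := v) (by linarith) (by linarith) t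
  unfold PHK.wXg
  simp only [cwX_cons, cwX_nil, k_m3, k_m2, k_m1, k_0, k_1, k_2, k_3, k_4]
  linarith

theorem cw_Hgx : cwX 0 PHK.wYg v t = ls (v - 3) t + ls (v - 4) t - 2 * ls (v + 3) t - ls v t -
    Ag ((1 - v) * l) t := by
  have a0 := H_a h1 h2 t
  have a1 := H_p2 (v := v) (by linarith) (by linarith) t
  have a2 := H_p1 (v := v) (by linarith) (by linarith) t
  have a3 := H_p0 (v := v) (by linarith) (by linarith) t
  have a4 := H_m1 (v := v) (by linarith) (by linarith) t
  have a := Ag_neg_v ((v - 1) * l) t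
  rw [show (1 - v) * l = -((v - 1) * l) by ring, a]
  unfold PHK.wYg
  simp only [cwX_cons, cwX_nil, k_m3, k_m2, k_m1, k_0, k_1, k_2, k_3, k_4]
  linarith

end H

/-! ### the mean of a word on the curve -/

variable {ι : Type*} [Fintype ι] {w : ι → ℝ} {x : ι → ℂ} {lo hi : ℝ} {η η' ρ : ℝ → ℝ}

/-- one sine on the curve -/
private theorem log_sin_curve {W : ℂ} {k : ℤ} {s e : ℝ} (hs : s ≠ W.im) :
    Real.log ‖Complex.sin (NUP1.vl (l - e) s - W + k * NUP1.l)‖ =
      (NUMF.h (W.im - s) (-((3 - k) * l + W.re) - e) - Real.log 2) / 2 := by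
  have hll : (NUP1.l : ℂ) = (l : ℂ) := rfl
  have e1 : NUP1.vl (l - e) s - W + k * NUP1.l = ((l - e - W.re + k * l : ℝ) : ℂ) +
      ((s - W.im : ℝ) : ℂ) * Complex.I := by
    rw [hll]
    unfold NUP1.vl
    apply Complex.ext <;> simp
  have hn : Complex.sin (((l - e - W.re + k * l : ℝ) : ℂ) + ((s - W.im : ℝ) : ℂ) * Complex.I) ≠ 0 := by
    intro h0
    have h1 := NUMF.norm_sin_sq (l - e - W.re + k * l) (s - W.im)
    rw [h0, norm_zero] at h1
    have h2 : 1 < Real.cosh (2 * (s - W.im)) := Real.one_lt_cosh.2 (by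
      intro h3
      exact hs (by linarith))
    have h3 := Real.cos_le_one (2 * (l - e - W.re + k * l))
    nlinarith
  have h1 := NUMF.log_norm_sin hn
  rw [show 4 * l - (l - e - W.re + k * l) = -(-((3 - k) * l + W.re) - e) by ring, h_even] at h1
  have h4 : NUMF.h (s - W.im) (-((3 - k) * l + W.re) - e) =
      NUMF.h (W.im - s) (-((3 - k) * l + W.re) - e) := by
    rw [show s - W.im = -(W.im - s) by ring, NUMF.h_neg_left]
  rw [h4] at h1
  rw [e1]
  linarith

/-- the mean of one sine -/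
private theorem int_one (h : CurX w x lo hi η η' ρ) {k0 : ℤ} {W : ℂ} (h1 : k0 * l - lo < W.re)
    (h2 : W.re < (k0 + 1) * l - hi) (k : ℤ) :
    Integrable (fun s => ρ s * Real.log ‖Complex.sin (NUP1.vl (l - η s) s - W + k * NUP1.l)‖) ∧
    ∫ s, ρ s * Real.log ‖Complex.sin (NUP1.vl (l - η s) s - W + k * NUP1.l)‖ =
      ∑ i, w i * hl (3 - rdk k0 k + (W.re - (x i).re) / l) (W.im - (x i).im) := by
  have hl := l_pos
  have g0 : (k0 : ℝ) ≤ rdk k0 k := by exact_mod_cast rdk_ge k0 k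
  have g1 : ((rdk k0 k : ℤ) : ℝ) ≤ k0 + 7 := by exact_mod_cast rdk_le k0 k
  obtain ⟨n, hn⟩ := rdk_mod k0 k
  set k' := rdk k0 k with hk'
  have g0' : (k0 : ℝ) * l ≤ k' * l := mul_le_mul_of_nonneg_right g0 hl.le
  have g1' : (k' : ℝ) * l ≤ (k0 + 7) * l := mul_le_mul_of_nonneg_right g1 hl.le
  obtain ⟨p1, p2⟩ := cur_potX h (y := -((3 - k') * l + W.re)) (by nlinarith) (by nlinarith) W.im
  obtain ⟨m1, m2⟩ := cur_massX h
  have hae : (fun s => ρ s * Real.log ‖Complex.sin (NUP1.vl (l - η s) s - W + k * NUP1.l)‖) =ᵐ[volume]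
      fun s => (1 / 2) * (ρ s * NUMF.h (W.im - s) (-((3 - k') * l + W.re) - η s) -
        Real.log 2 * ρ s) := by
    have : ({W.im} : Set ℝ)ᶜ ∈ ae (volume : Measure ℝ) := compl_mem_ae_iff.2 (by simp)
    filter_upwards [this] with s hs
    rw [log_sin_curve hs]
    have hp : NUMF.h (W.im - s) (-((3 - k) * l + W.re) - η s) =
        NUMF.h (W.im - s) (-((3 - k') * l + W.re) - η s) := by
      have hq : ∀ (n : ℤ) (y : ℝ), NUMF.h (W.im - s) (y + 8 * n * l) = NUMF.h (W.im - s) y := by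
        intro n y
        unfold NUMF.h
        congr 2
        rw [show 2 * (y + 8 * n * l) = 2 * y + ((2 * n : ℤ) : ℝ) * (8 * l) by push_cast; ring,
          show 8 * l = Real.pi by unfold NUMF.l; ring]
        rw [show ((2 * n : ℤ) : ℝ) * Real.pi = (n : ℝ) * (2 * Real.pi) by push_cast; ring,
          Real.cos_add_int_mul_two_pi]
      rw [← hq n (-((3 - k') * l + W.re) - η s), hn]
      congr 1
      push_cast
      ring
    rw [hp]
    ring
  refine ⟨((p1.sub (m1.const_mul _)).const_mul (1 / 2)).congr hae.symm, ?_⟩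
  rw [integral_congr_ae hae, integral_const_mul, integral_sub p1 (m1.const_mul _),
    integral_const_mul, p2, m2, Finset.mul_sum, ← Finset.sum_sub_distrib, Finset.mul_sum]
  refine Finset.sum_congr rfl fun i _ => ?_
  unfold PLT.hl
  have e : (3 - (k' : ℝ) + (W.re - (x i).re) / l) * l = -(-((3 - k') * l + W.re) + (x i).re) := by
    field_simp
    ring
  rw [e, Hc_neg]
  ring

/-- **the mean of a word on the curve** -/
theorem int_lwX (h : CurX w x lo hi η η' ρ) {k0 : ℤ} {W : ℂ} (h1 : k0 * l - lo < W.re)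
    (h2 : W.re < (k0 + 1) * l - hi) (L : List (ℤ × ℝ)) :
    Integrable (fun s => ρ s * PHK.lw L W (NUP1.vl (l - η s) s)) ∧
    ∫ s, ρ s * PHK.lw L W (NUP1.vl (l - η s) s) =
      ∑ i, w i * cwX k0 L ((W.re - (x i).re) / l) (W.im - (x i).im) := by
  induction L with
  | nil => simp
  | cons a L ih =>
    obtain ⟨i1, i2⟩ := ih
    obtain ⟨j1, j2⟩ := int_one h h1 h2 a.1
    have e : (fun s => ρ s * PHK.lw (a :: L) W (NUP1.vl (l - η s) s)) = fun s =>
        a.2 * (ρ s * Real.log ‖Complex.sin (NUP1.vl (l - η s) s - W + a.1 * NUP1.l)‖) +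
          ρ s * PHK.lw L W (NUP1.vl (l - η s) s) := by
      funext s
      rw [PHK.lw_cons]
      ring
    rw [e]
    refine ⟨(j1.const_mul a.2).add i1, ?_⟩
    rw [integral_add (j1.const_mul a.2) i1, integral_const_mul, j2, i2, Finset.mul_sum,
      ← Finset.sum_add_distrib]
    refine Finset.sum_congr rfl fun i _ => ?_
    rw [cwX_cons]
    ring

/-! ### the letters -/

open PHK PBR.PLX

/-- **the sea term of a letter over a sea on a curve** -/
def MF6X (ρ η : ℝ → ℝ) (s : Bool → ℝ) (t : HT) (u : Ch6) (a : Bool) (W : ℂ) : ℝ :=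
  s a * (∫ y, ρ y * lw (wl6 t u true) W (NUP1.vl (l - η y) y)) +
    s (!a) * ∫ y, ρ y * lw (wl6 t u false) W (NUP1.vl (l - η y) y)

/-- the window of the half quanta of a type -/
theorem htL_win (hlo : -(1 / 4 * l) < lo) (hhi : hi < 1 / 4 * l) (t : HT) :
    k0L t * l - lo < NUGC.PLX.htL t ∧ NUGC.PLX.htL t < (k0L t + 1) * l - hi := by
  have hl := l_pos
  have hll : NUP1.l = l := rfl
  cases t <;> simp only [k0L, NUGC.PLX.htL] <;> rw [hll] <;> push_cast <;> constructor <;> nlinarith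

/-- **the sea term of a letter over a content** -/
theorem MF6X_eq (h : CurX w x lo hi η η' ρ) (hlo : -(1 / 4 * l) < lo) (hhi : hi < 1 / 4 * l)
    (s : Bool → ℝ) (t : HT) (u : Ch6) (a : Bool) (τ : ℝ) :
    MF6X ρ η s t u a (NUP1.vl (NUGC.PLX.htL t) τ) =
      s a * (∑ i, w i * cwX (k0L t) (wl6 t u true) ((NUGC.PLX.htL t - (x i).re) / l) (τ - (x i).im)) +
      s (!a) * ∑ i, w i * cwX (k0L t) (wl6 t u false) ((NUGC.PLX.htL t - (x i).re) / l)
        (τ - (x i).im) := by
  obtain ⟨w1, w2⟩ := htL_win hlo hhi t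
  have hre : (NUP1.vl (NUGC.PLX.htL t) τ).re = NUGC.PLX.htL t := by simp [NUP1.vl]
  have him : (NUP1.vl (NUGC.PLX.htL t) τ).im = τ := by simp [NUP1.vl]
  unfold MF6X
  rw [(int_lwX h (by rw [hre]; exact w1) (by rw [hre]; exact w2) _).2,
    (int_lwX h (by rw [hre]; exact w1) (by rw [hre]; exact w2) _).2, hre, him]

end PLT

end
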