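import Pool.Agent.PLT.PthC
import Pool.Agent.PLX.NUGC.LinT

/-!
# The linear term at the true heights of the groups, sea on a static curve

* `gpC_axis`, `gpC_cont`, `gpC_int`: the potential of a group on the static curve against the sea;
* `exists_linTC`: pinned groups with the remainders `Sp.BF` and the constant `cstF` against the groups at
  their true heights, up to `K n (Hm e^{-(T - b)} + s e^{-(8/3) T})`;
* `sum_seaGC`; **`seaLinC_abs`** (twin of `PotH.PLX.seaLin_abs`).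
-/

set_option autoImplicit false
set_option linter.unusedSectionVars false
set_option linter.unusedVariables false

open MeasureTheory Set Filter Topology Complex
open PLX (Fil Ends)

namespace PLT

open NUMF (l l_pos)
open NUO (Tb TW)
open NUSp (Cl Grp grp gp gp1 gq gn pinw kr kk Asy kk_nonneg)
open NUSea.PLX.H0 (Gd cstF l5)
open NUGC.PLX (gP)
open PotH.PLX (sN sN_sub sN_le sN_nonneg sN_true)

noncomputable section

/-! ### geometry -/

lemma kk4_nonneg : 0 ≤ kk (1 / 4) (NUMF.l / 5) := NUSp.kk_nonneg _ _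

lemma l5pos : 0 < NUMF.l / 5 := by
  have := NUMF.l_pos
  positivity

lemma gq_abs (g : Gd) (a : Bool) : |gq a g.G| ≤ 3 := by
  have h : gq a g.G = if a = g.σ then NUSp.qc g.c else -NUSp.qc g.c := NUSp.gq_grp _ _ _ _
  rw [h]
  split_ifs <;> cases g.c <;> norm_num [NUSp.qc]

lemma pin_absT {T τ : ℝ} (hT : 0 ≤ T) (h : T ≤ |τ|) : |NUSp.pin T τ| = T := by
  rw [NUSp.pin_eq_sg hT h, abs_mul, NUSp.sg_abs, one_mul, abs_of_nonneg hT]

/-- distances to the pinned and to the true height -/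
lemma geo_out {T τ t : ℝ} (hT : 0 ≤ T) (ht : T ≤ |t|) :
    |(|t - NUSp.pin T τ| - |t - τ| + NUSp.exc T τ)| ≤ 2 * (|t| - T) := by
  rcases le_total |τ| T with h | h
  · rw [NUSp.pin_of_le h, NUSp.exc_of_le h, sub_self, zero_add, abs_zero]
    linarith
  · have h1 : |τ - NUSp.pin T τ| = NUSp.exc T τ := by
      rw [NUSp.exc_of_ge h, NUSp.pin_eq_sg hT h]
      have h9 : τ - NUSp.sg τ * T = NUSp.sg τ * (|τ| - T) := by
        rw [mul_sub]
        congr 1
        exact NUSp.eq_sg τ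
      rw [h9, abs_mul, NUSp.sg_abs, one_mul, abs_of_nonneg (by linarith)]
    have h2 : |t - τ| ≤ |t - NUSp.pin T τ| + NUSp.exc T τ := by
      rw [← h1, abs_sub_comm τ]
      exact abs_sub_le _ _ _
    have h3 := pin_absT hT h
    rw [abs_of_nonneg (by linarith)]
    rcases le_total 0 t with h0 | h0 <;> rcases le_total 0 τ with h5 | h5
    · rw [abs_of_nonneg h0] at ht
      rw [abs_of_nonneg h5] at h
      rw [NUSp.pin_of_ge hT h, NUSp.exc_of_ge (by rwa [abs_of_nonneg h5]), abs_of_nonneg h5,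
        abs_of_nonneg h0, abs_of_nonneg (by linarith : 0 ≤ t - T)]
      have := neg_abs_le (t - τ)
      have := le_abs_self (t - τ)
      linarith
    · rw [abs_of_nonneg h0] at ht
      rw [abs_of_nonpos h5] at h
      rw [NUSp.pin_of_le_neg hT (by linarith), NUSp.exc_of_ge (by rwa [abs_of_nonpos h5]),
        abs_of_nonpos h5, abs_of_nonneg h0, abs_of_nonneg (by linarith : 0 ≤ t - -T),
        abs_of_nonneg (by linarith : 0 ≤ t - τ)]
      linarith
    · rw [abs_of_nonpos h0] at ht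
      rw [abs_of_nonneg h5] at h
      rw [NUSp.pin_of_ge hT h, NUSp.exc_of_ge (by rwa [abs_of_nonneg h5]), abs_of_nonneg h5,
        abs_of_nonpos h0, abs_of_nonpos (by linarith : t - T ≤ 0),
        abs_of_nonpos (by linarith : t - τ ≤ 0)]
      linarith
    · rw [abs_of_nonpos h0] at ht
      rw [abs_of_nonpos h5] at h
      rw [NUSp.pin_of_le_neg hT (by linarith), NUSp.exc_of_ge (by rwa [abs_of_nonpos h5]),
        abs_of_nonpos h5, abs_of_nonpos h0, abs_of_nonpos (by linarith : t - -T ≤ 0)]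
      have := neg_abs_le (t - τ)
      have := le_abs_self (t - τ)
      linarith

section

variable [SeaC]

lemma ga_im_lt (t : ℝ) : |(Cv.ga t).im| < l / 5 := by
  rw [Cv.ga_im]
  have h1 := Cv.eta_abs t
  have h2 := l_pos
  linarith

/-- one species on the static curve -/
theorem gpC_axis (g : Gd) (a : Bool) (t : ℝ) :
    |(gp a g.G (Cv.ga t)).re - (gq a g.G * |t - g.τ| + -(gq a g.G * Real.log 2))| ≤
      kk (1 / 4) (l / 5) * Real.exp (-2 * |t - g.τ|) := by
  have h1 := NUSp.re_le_z (NUSp.asy_grp l5pos l5 (by norm_num) g.away g.c a g.σ) (ga_im_lt t)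
  rw [Gd.im, Cv.ga_re] at h1
  exact h1

lemma gpC_contc (g : Gd) (a : Bool) : Continuous fun t : ℝ => gp a g.G (Cv.ga t) :=
  (NUSp.continuous_f (NUSp.potB_grp (w := g.w) l5pos l5 g.away g.c a g.σ)).comp_continuous
    Cv.continuous_ga ga_im_lt

lemma gpC_cont (g : Gd) (a : Bool) : Continuous fun t : ℝ => (gp a g.G (Cv.ga t)).re :=
  Complex.continuous_re.comp (gpC_contc g a)

/-- the difference of a group on species `a` -/
def dfC (T : ℝ) (g : Gd) (a : Bool) (ζ : ℝ → ℂ) (t : ℝ) : ℝ :=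
  (gp a (g.pin T).G (Cv.ga t)).re + gq a g.G * NUSp.exc T g.τ + Sp.remG T g.c a g.σ g.w ζ t -
    (gp a g.G (Cv.ga t)).re

variable {T b K : ℝ} {ζ ζ' : ℝ → ℂ}

lemma dfC_zero {g : Gd} (h : |g.τ| ≤ T) (a : Bool) (t : ℝ) : dfC T g a ζ t = 0 := by
  unfold dfC
  have h' : |g.w.im| ≤ T := by rwa [Gd.im]
  rw [Gd.pin_of_le h, Sp.remG_zero h', NUSp.exc_of_le h]
  ring

/-- inside the window -/
theorem dfC_in (g : Gd) (a : Bool) (hT : 0 ≤ T) (h : T ≤ |g.τ|) (hζ : Sp.Pth (l / 5) T K ζ ζ') {t : ℝ}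
    (ht : |t| ≤ T - 1) :
    |dfC T g a ζ t| ≤ 2 * kk (1 / 4) (l / 5) * Real.exp 1 * ‖ζ t - Cv.ga t‖ *
      Real.exp (-2 * |t - NUSp.pin T g.τ|) := by
  have k0 := kk4_nonneg
  have ht' : |t| ≤ T := by linarith
  have h1 := Sp.gp_in ht' g.c a g.σ g.w ζ
  rw [Gd.im, ← Gd.pin_G] at h1
  have hf := NUSp.potB_grp (w := g.w) l5pos l5 g.away g.c a g.σ
  have hg := NUSp.potB_grp (w := (g.pin T).w) l5pos l5 (g.pin T).away g.c a g.σ
  rw [Gd.im] at hf hg
  have e0 : (g.pin T).τ = NUSp.pin T g.τ := rfl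
  have e4 : gq a (grp g.c g.σ (g.pin T).w) = gq a (grp g.c g.σ g.w) := by
    rw [NUSp.gq_grp, NUSp.gq_grp]
  rw [e0, e4] at hg
  -- the difference of the two potentials on the segment
  have hseg : ∀ z ∈ segment ℝ (Cv.ga t) (ζ t), |z.im| < l / 5 ∧ |z.re - t| ≤ 1 / 2 := by
    intro z hz
    have c1 : Convex ℝ {z : ℂ | |z.im| < l / 5 ∧ |z.re - t| ≤ 1 / 2} := by
      have : {z : ℂ | |z.im| < l / 5 ∧ |z.re - t| ≤ 1 / 2} =
          (Complex.imLm ⁻¹' Set.Ioo (-(l / 5)) (l / 5)) ∩ (Complex.reLm ⁻¹' Set.Icc (t - 1 / 2) (t + 1 / 2)) := by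
        ext z
        simp only [Set.mem_ofPred_eq, Set.mem_inter_iff, Set.mem_preimage, Set.mem_Ioo, Set.mem_Icc,
          Complex.imLm_coe, Complex.reLm_coe, abs_lt, abs_le]
        constructor
        · rintro ⟨⟨a1, a2⟩, a3, a4⟩
          exact ⟨⟨a1, a2⟩, by linarith, by linarith⟩
        · rintro ⟨⟨a1, a2⟩, a3, a4⟩
          exact ⟨⟨a1, a2⟩, by linarith, by linarith⟩
      rw [this]
      exact ((convex_Ioo _ _).linear_preimage _).inter ((convex_Icc _ _).linear_preimage _)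
    exact c1.segment_subset ⟨ga_im_lt t, by rw [Cv.ga_re]; norm_num⟩ ⟨hζ.im t, hζ.re t⟩ hz
  have hbd : ∀ z ∈ segment ℝ (Cv.ga t) (ζ t),
      ‖gp1 a (grp g.c g.σ g.w) z - gp1 a (grp g.c g.σ (g.pin T).w) z‖ ≤
        2 * kk (1 / 4) (l / 5) * (Real.exp 1 * Real.exp (-2 * |t - NUSp.pin T g.τ|)) := by
    intro z hz
    obtain ⟨z1, z2⟩ := hseg z hz
    have hre : NUSp.sg g.τ * z.re ≤ T := by
      have h2 := NUSp.sg_mul_le g.τ z.re
      have h3 := abs_sub_abs_le_abs_sub z.re t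
      linarith
    refine (NUSp.cmp_d hf hg hT h z1 hre).trans ?_
    refine mul_le_mul_of_nonneg_left ?_ (by positivity)
    rw [← Real.exp_add]
    refine Real.exp_le_exp.2 ?_
    have h5 := abs_sub_le t z.re (NUSp.pin T g.τ)
    have h6 : |t - z.re| ≤ 1 / 2 := by rw [abs_sub_comm]; exact z2
    linarith
  have hmv := (convex_segment (𝕜 := ℝ) (Cv.ga t) (ζ t)).norm_image_sub_le_of_norm_hasDerivWithin_le
    (f := fun z => gp a (grp g.c g.σ g.w) z - gp a (grp g.c g.σ (g.pin T).w) z)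
    (f' := fun z => gp1 a (grp g.c g.σ g.w) z - gp1 a (grp g.c g.σ (g.pin T).w) z)
    (fun z hz => ((hf.hd z (hseg z hz).1).sub (hg.hd z (hseg z hz).1)).hasDerivWithinAt) hbd
    (left_mem_segment ℝ _ _) (right_mem_segment ℝ _ _)
  have e1 : dfC T g a ζ t =
      ((gp a (grp g.c g.σ g.w) (ζ t) - gp a (grp g.c g.σ (g.pin T).w) (ζ t)) -
      (gp a (grp g.c g.σ g.w) (Cv.ga t) - gp a (grp g.c g.σ (g.pin T).w) (Cv.ga t))).re := by
    have e2 : gp a (g.pin T).G = gp a (grp g.c g.σ (g.pin T).w) := rfl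
    have e3 : gp a g.G = gp a (grp g.c g.σ g.w) := rfl
    have e4 : gq a g.G = gq a (grp g.c g.σ g.w) := rfl
    unfold dfC
    rw [e2] at h1
    rw [e2, e3, e4, Complex.sub_re, Complex.sub_re, Complex.sub_re, h1]
    ring
  rw [e1]
  refine (Complex.abs_re_le_norm _).trans (hmv.trans (le_of_eq ?_))
  ring

/-- outside the window -/
theorem dfC_out (g : Gd) (a : Bool) (hT : 0 ≤ T) (hζ : Sp.Pth (l / 5) T K ζ ζ') {t : ℝ} (ht : T ≤ |t|) :
    |dfC T g a ζ t| ≤ 2 * kk (1 / 4) (l / 5) + kr (1 / 4) (l / 5) + 6 * (|t| - T) := by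
  have k0 := kk4_nonneg
  have k1 : 0 ≤ kr (1 / 4) (l / 5) := NUSp.rc_nonneg (NUSp.kk_nonneg _ _)
  have e1 : ∀ x : ℝ, Real.exp (-2 * |x|) ≤ 1 := fun x =>
    Real.exp_le_one_iff.2 (by have := abs_nonneg x; linarith)
  have h1 := gpC_axis (g.pin T) a t
  have h2 := gpC_axis g a t
  have e2 : gq a (g.pin T).G = gq a g.G := by
    have a1 : gq a (g.pin T).G = if a = g.σ then NUSp.qc g.c else -NUSp.qc g.c :=
      NUSp.gq_grp _ _ _ _
    have a2 : gq a g.G = if a = g.σ then NUSp.qc g.c else -NUSp.qc g.c := NUSp.gq_grp _ _ _ _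
    rw [a1, a2]
  have e3 : (g.pin T).τ = NUSp.pin T g.τ := rfl
  rw [e2, e3] at h1
  have h3 := Sp.remG_le (w := g.w) l5pos l5 (by norm_num) g.away hT g.c a g.σ hζ t
  have h5 : kk (1 / 4) (l / 5) * Real.exp (-2 * |t - NUSp.pin T g.τ|) ≤
      kk (1 / 4) (l / 5) * 1 := mul_le_mul_of_nonneg_left (e1 _) k0
  have h6 : kk (1 / 4) (l / 5) * Real.exp (-2 * |t - g.τ|) ≤
      kk (1 / 4) (l / 5) * 1 := mul_le_mul_of_nonneg_left (e1 _) k0
  have h7 : kr (1 / 4) (l / 5) * Real.exp (-2 * |t - NUSp.pin T g.w.im|) ≤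
      kr (1 / 4) (l / 5) * 1 := mul_le_mul_of_nonneg_left (e1 _) k1
  have h8 : |gq a g.G * (|t - NUSp.pin T g.τ| - |t - g.τ| + NUSp.exc T g.τ)| ≤ 6 * (|t| - T) := by
    rw [abs_mul]
    calc |gq a g.G| * |(|t - NUSp.pin T g.τ| - |t - g.τ| + NUSp.exc T g.τ)|
        ≤ 3 * (2 * (|t| - T)) := mul_le_mul (gq_abs g a) (geo_out hT ht) (abs_nonneg _) (by norm_num)
      _ = _ := by ring
  unfold dfC
  rw [abs_le] at h1 h2 h3 h8 ⊢
  constructor <;> nlinarith [h1.1, h1.2, h2.1, h2.2, h3.1, h3.2, h8.1, h8.2]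

end

/-- **the linear term of a group** -/
theorem exists_dfC (B : SeaCB) : ∃ K : ℝ, 0 ≤ K ∧ ∀ [SeaC] [SeaCU B], ∀ (g : Gd) (a : Bool) (T b s Hm K' : ℝ)
    (ζ ζ' : ℝ → ℂ), 0 ≤ T → b ≤ T - 1 → 0 ≤ s → 0 ≤ Hm → Sp.Pth (l / 5) T K' ζ ζ' →
    (∀ t, b < |t| → ζ t = Cv.ga t) → (∀ t, s * Cv.P t * ‖ζ t - Cv.ga t‖ ≤ Hm) →
    ∀ t, |s * Cv.P t * dfC T g a ζ t| ≤
      K * Hm * Real.exp (-(T - b)) * Real.exp (-(1 * |t - NUSp.pin T g.τ|)) +
      K * s * Real.exp (-(8 / 3 * T)) * (Real.exp (-(1 * |t - T|)) + Real.exp (-(1 * |t - -T|))) := by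
  obtain ⟨C, hC, hP⟩ := Cv.P_le B
  have k0 := kk4_nonneg
  have k1 : 0 ≤ kr (1 / 4) (l / 5) := NUSp.rc_nonneg (NUSp.kk_nonneg _ _)
  obtain ⟨A, hA⟩ : ∃ A, A = 2 * kk (1 / 4) (l / 5) * Real.exp 1 + 2 * kk (1 / 4) (l / 5) +
    kr (1 / 4) (l / 5) + 6 := ⟨_, rfl⟩
  have hA0 : 0 ≤ A := by rw [hA]; positivity
  obtain ⟨B', hB⟩ : ∃ B, B = 2 * A * (1 + C) := ⟨_, rfl⟩
  have hB0 : 0 ≤ B' := by rw [hB]; positivity
  have hAC : 0 ≤ A * C := by positivity
  have hB1 : 2 * kk (1 / 4) (l / 5) * Real.exp 1 ≤ B' := by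
    have h1 : 2 * kk (1 / 4) (l / 5) * Real.exp 1 ≤ A := by
      rw [hA]
      linarith
    rw [hB]
    linarith
  have hB2 : 2 * (A * C) ≤ B' := by rw [hB]; linarith
  refine ⟨B', hB0, @fun _ hS g a T b s Hm K' ζ ζ' hT hb hs hHm hζ hz hH t => ?_⟩
  have hPt := (Cv.P_pos B t).le
  have q1 : 0 ≤ B' * Hm * Real.exp (-(T - b)) * Real.exp (-(1 * |t - NUSp.pin T g.τ|)) := by
    positivity
  have q2 : 0 ≤ B' * s * Real.exp (-(8 / 3 * T)) *
      (Real.exp (-(1 * |t - T|)) + Real.exp (-(1 * |t - -T|))) := by positivity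
  rcases le_total |g.τ| T with h0 | h0
  · rw [dfC_zero h0, mul_zero, abs_zero]
    positivity
  rcases le_or_gt |t| T with ht | ht
  · -- inside
    refine le_trans ?_ (le_add_of_nonneg_right q2)
    rcases lt_or_ge b |t| with hbt | hbt
    · have h1 : dfC T g a ζ t = 0 := by
        have h2 := Sp.gp_in ht g.c a g.σ g.w ζ
        rw [Gd.im, ← Gd.pin_G] at h2
        have e3 : gp a g.G = gp a (grp g.c g.σ g.w) := rfl
        have e4 : gq a g.G = gq a (grp g.c g.σ g.w) := rfl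
        unfold dfC
        rw [hz t hbt] at h2
        rw [e3, e4, h2]
        ring
      rw [h1, mul_zero, abs_zero]
      exact q1
    · have h1 := dfC_in g a hT h0 hζ (hbt.trans hb)
      rw [abs_mul, abs_of_nonneg (by positivity : 0 ≤ s * Cv.P t)]
      have h2 : T - b ≤ |t - NUSp.pin T g.τ| := by
        have h3 := pin_absT hT h0
        have h4 := abs_sub_abs_le_abs_sub (NUSp.pin T g.τ) t
        rw [abs_sub_comm] at h4
        linarith
      have h3 : Real.exp (-2 * |t - NUSp.pin T g.τ|) ≤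
          Real.exp (-(T - b)) * Real.exp (-(1 * |t - NUSp.pin T g.τ|)) := by
        rw [← Real.exp_add]
        exact Real.exp_le_exp.2 (by linarith)
      calc s * Cv.P t * |dfC T g a ζ t| ≤ s * Cv.P t * (2 * kk (1 / 4) (l / 5) * Real.exp 1 *
            ‖ζ t - Cv.ga t‖ * Real.exp (-2 * |t - NUSp.pin T g.τ|)) :=
            mul_le_mul_of_nonneg_left h1 (by positivity)
        _ = 2 * kk (1 / 4) (l / 5) * Real.exp 1 * (s * Cv.P t * ‖ζ t - Cv.ga t‖) *
            Real.exp (-2 * |t - NUSp.pin T g.τ|) := by ring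
        _ ≤ 2 * kk (1 / 4) (l / 5) * Real.exp 1 * Hm *
            (Real.exp (-(T - b)) * Real.exp (-(1 * |t - NUSp.pin T g.τ|))) := by
            have := hH t
            gcongr
        _ ≤ B' * Hm *
            (Real.exp (-(T - b)) * Real.exp (-(1 * |t - NUSp.pin T g.τ|))) := by gcongr
        _ = _ := by ring
  · -- outside
    refine le_trans ?_ (le_add_of_nonneg_left q1)
    have h1 := dfC_out g a hT hζ ht.le
    rw [abs_mul, abs_of_nonneg (by positivity : 0 ≤ s * Cv.P t)]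
    obtain ⟨u, hu⟩ : ∃ u, u = |t| - T := ⟨_, rfl⟩
    have hu0 : 0 ≤ u := by rw [hu]; linarith
    have h2 : Real.exp (-(1 * u)) ≤
        Real.exp (-(1 * |t - T|)) + Real.exp (-(1 * |t - -T|)) := by
      rcases le_total 0 t with h3 | h3
      · rw [abs_of_nonneg h3] at ht hu
        have h4 : Real.exp (-(1 * u)) = Real.exp (-(1 * |t - T|)) := by
          rw [abs_of_nonneg (by linarith), hu]
        have h5 : 0 ≤ Real.exp (-(1 * |t - -T|)) := by positivity
        linarith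
      · rw [abs_of_nonpos h3] at ht hu
        have h4 : Real.exp (-(1 * u)) = Real.exp (-(1 * |t - -T|)) := by
          rw [abs_of_nonpos (by linarith), hu]
          congr 1
          ring
        have h5 : 0 ≤ Real.exp (-(1 * |t - T|)) := by positivity
        linarith
    have hA6 : 6 ≤ A := by
      rw [hA]
      have : 0 ≤ 2 * kk (1 / 4) (l / 5) * Real.exp 1 := by positivity
      linarith
    have h3 : Real.exp (-(8 / 3) * |t|) * (A + 6 * u) ≤
        Real.exp (-(8 / 3 * T)) * (Real.exp (-(1 * u)) * A * 2) := by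
      have e4 : Real.exp (-(8 / 3) * |t|) =
          Real.exp (-(8 / 3 * T)) * (Real.exp (-(1 * u)) * Real.exp (-(5 / 3 * u))) := by
        rw [← Real.exp_add, ← Real.exp_add, hu]
        congr 1
        ring
      have e5 : Real.exp (-(5 / 3 * u)) * (A + 6 * u) ≤ A * 2 := by
        have a1 : Real.exp (-(5 / 3 * u)) ≤ 1 := Real.exp_le_one_iff.2 (by linarith)
        have a2 : Real.exp (-(5 / 3 * u)) * u ≤ 1 := by
          have b1 := Real.add_one_le_exp (5 / 3 * u)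
          have b2 : Real.exp (-(5 / 3 * u)) * Real.exp (5 / 3 * u) = 1 := by
            rw [← Real.exp_add]
            simp
          have b3 := Real.exp_pos (-(5 / 3 * u))
          nlinarith
        nlinarith
      rw [e4]
      calc Real.exp (-(8 / 3 * T)) * (Real.exp (-(1 * u)) * Real.exp (-(5 / 3 * u))) * (A + 6 * u)
          = Real.exp (-(8 / 3 * T)) * (Real.exp (-(1 * u)) *
            (Real.exp (-(5 / 3 * u)) * (A + 6 * u))) := by ring
        _ ≤ Real.exp (-(8 / 3 * T)) * (Real.exp (-(1 * u)) * (A * 2)) := by gcongr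
        _ = _ := by ring
    have h1' : |dfC T g a ζ t| ≤ A + 6 * u := by
      rw [hA, hu]
      have : 0 ≤ 2 * kk (1 / 4) (l / 5) * Real.exp 1 := by positivity
      linarith
    calc s * Cv.P t * |dfC T g a ζ t| ≤ s * (C * Real.exp (-(8 / 3) * |t|)) * (A + 6 * u) := by
          have := @hP _ hS t
          gcongr
      _ = s * C * (Real.exp (-(8 / 3) * |t|) * (A + 6 * u)) := by ring
      _ ≤ s * C * (Real.exp (-(8 / 3 * T)) * (Real.exp (-(1 * u)) * A * 2)) := by gcongr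
      _ ≤ s * C * (Real.exp (-(8 / 3 * T)) *
          ((Real.exp (-(1 * |t - T|)) + Real.exp (-(1 * |t - -T|))) * A * 2)) := by gcongr
      _ = 2 * (A * C) * (s * (Real.exp (-(8 / 3 * T)) *
          (Real.exp (-(1 * |t - T|)) + Real.exp (-(1 * |t - -T|))))) := by ring
      _ ≤ B' * (s * (Real.exp (-(8 / 3 * T)) *
          (Real.exp (-(1 * |t - T|)) + Real.exp (-(1 * |t - -T|))))) :=
          mul_le_mul_of_nonneg_right hB2 (by positivity)
      _ = _ := by ring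

/-- the potential of a group against the sea -/
theorem gpC_int (B : SeaCB) [SeaC] [SeaCU B] (G : Gd) (a : Bool) (s : ℝ) :
    Integrable fun t : ℝ => s * Cv.P t * (gp a G.G (Cv.ga t)).re := by
  have k0 := kk4_nonneg
  obtain ⟨C, hC, hP⟩ := Cv.P_le B
  have h0 : ∀ t : ℝ, |(gp a G.G (Cv.ga t)).re| ≤ 4 * (kk (1 / 4) (l / 5) + |G.τ| + 1) * Real.exp |t| := by
    intro t
    have h1 := gpC_axis G a t
    have h2 : Real.exp (-2 * |t - G.τ|) ≤ 1 :=
      Real.exp_le_one_iff.2 (by have := abs_nonneg (t - G.τ); linarith)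
    have h3 : |gq a G.G * |t - G.τ| + -(gq a G.G * Real.log 2)| ≤ 3 * (|t| + |G.τ| + 1) := by
      have a1 := gq_abs G a
      have a2 := abs_sub t G.τ
      have a3 := Real.log_two_lt_d9
      have a4 : 0 < Real.log 2 := Real.log_pos (by norm_num)
      rw [← sub_eq_add_neg, ← mul_sub, abs_mul]
      refine mul_le_mul a1 ?_ (abs_nonneg _) (by norm_num)
      rw [abs_le]
      have a5 := abs_nonneg (t - G.τ)
      have a6 := abs_nonneg t
      have a7 := abs_nonneg G.τ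
      constructor <;> linarith
    have h4 := Real.add_one_le_exp |t|
    have h5 := abs_nonneg t
    have h6 := abs_nonneg G.τ
    have h7 : |(gp a G.G (Cv.ga t)).re| ≤ kk (1 / 4) (l / 5) * 1 + 3 * (|t| + |G.τ| + 1) := by
      have b1 := (abs_sub_abs_le_abs_sub _ _).trans
        (h1.trans (mul_le_mul_of_nonneg_left h2 k0))
      linarith
    have h8 : 1 ≤ Real.exp |t| := Real.one_le_exp h5
    nlinarith
  have h1 : Integrable fun t : ℝ => Real.exp (-(1 * |t - 0|)) :=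
    (NUDispW.int_exp_abs (c := 1) one_pos 0).1
  refine (h1.const_mul (|s| * C * (4 * (kk (1 / 4) (l / 5) + |G.τ| + 1)))).mono'
    (((continuous_const.mul (Cv.P_cont B)).mul (gpC_cont G a)).aestronglyMeasurable)
    (ae_of_all _ fun t => ?_)
  have hP0 := (Cv.P_pos B t).le
  rw [Real.norm_eq_abs, abs_mul, abs_mul, abs_of_nonneg hP0, sub_zero]
  have h6 := abs_nonneg G.τ
  calc |s| * Cv.P t * |(gp a G.G (Cv.ga t)).re|
      ≤ |s| * (C * Real.exp (-(8 / 3) * |t|)) *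
        (4 * (kk (1 / 4) (l / 5) + |G.τ| + 1) * Real.exp |t|) := by
        have := hP t
        have := h0 t
        gcongr
    _ = |s| * C * (4 * (kk (1 / 4) (l / 5) + |G.τ| + 1)) *
        (Real.exp (-(8 / 3) * |t|) * Real.exp |t|) := by ring
    _ ≤ |s| * C * (4 * (kk (1 / 4) (l / 5) + |G.τ| + 1)) * Real.exp (-(1 * |t|)) := by
        refine mul_le_mul_of_nonneg_left ?_ (by positivity)
        rw [← Real.exp_add]
        refine Real.exp_le_exp.2 ?_
        have := abs_nonneg t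
        linarith

/-- **the linear term at the true heights**, species `a` with density `s` and path `ζ` -/
theorem exists_linTC (B : SeaCB) : ∃ K : ℝ, 0 ≤ K ∧ ∀ [SeaC] [SeaCU B], ∀ (a : Bool) (n : ℕ) (g : Fin n → Gd)
    (T b s Hm K' : ℝ) (ζ ζ' : ℝ → ℂ), 0 ≤ T → b ≤ T - 1 → 0 ≤ s → 0 ≤ Hm → Sp.Pth (l / 5) T K' ζ ζ' →
    (∀ t, b < |t| → ζ t = Cv.ga t) → (∀ t, s * Cv.P t * ‖ζ t - Cv.ga t‖ ≤ Hm) →
    |(∫ t, s * Cv.P t * ∑ i, (gp a ((g i).pin T).G (Cv.ga t)).re) + (∫ t, s * Cv.P t * Sp.BF T g ζ a t) +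
      s * cstF T g a - ∫ t, s * Cv.P t * ∑ i, (gp a (g i).G (Cv.ga t)).re| ≤
      K * n * (Hm * Real.exp (-(T - b)) + s * Real.exp (-(8 / 3 * T))) := by
  obtain ⟨K, hK, H⟩ := exists_dfC B
  refine ⟨4 * K, by positivity, @fun _ hS a n g T b s Hm K' ζ ζ' hT hb hs hHm hζ hz hH => ?_⟩
  have k0 := kk4_nonneg
  -- integrability
  have iC : ∀ c : ℝ, Integrable fun t => s * Cv.P t * c := fun c =>
    ((Cv.P_int B).const_mul s).mul_const c
  have iR : ∀ i : Fin n, Integrable fun t =>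
      s * Cv.P t * Sp.remG T (g i).c a (g i).σ (g i).w ζ t := by
    intro i
    have h1 : Integrable fun t => s * Cv.P t := (Cv.P_int B).const_mul s
    have hc : Continuous fun t => Sp.remG T (g i).c a (g i).σ (g i).w ζ t :=
      continuous_iff_continuousAt.2 fun t => (Sp.hasDerivAt_remG l5pos l5
        (g i).away (g i).c a (g i).σ hζ t).continuousAt
    refine h1.mul_bdd (c := kr (1 / 4) (l / 5)) hc.aestronglyMeasurable
      (ae_of_all _ fun t => ?_)
    have h2 := Sp.remG_le (w := (g i).w) l5pos l5 (by norm_num) (g i).away hT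
      (g i).c a (g i).σ hζ t
    refine h2.trans ?_
    have h3 : Real.exp (-2 * |t - NUSp.pin T (g i).w.im|) ≤ 1 :=
      Real.exp_le_one_iff.2 (by have := abs_nonneg (t - NUSp.pin T (g i).w.im); linarith)
    have h4 : 0 ≤ kr (1 / 4) (l / 5) := NUSp.rc_nonneg (NUSp.kk_nonneg _ _)
    have := mul_le_mul_of_nonneg_left h3 h4
    linarith
  -- one group
  have eD : ∀ i : Fin n, (∫ t, s * Cv.P t * dfC T (g i) a ζ t) =
      (∫ t, s * Cv.P t * (gp a ((g i).pin T).G (Cv.ga t)).re) + s * (gq a (g i).G * NUSp.exc T (g i).τ) +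
      (∫ t, s * Cv.P t * Sp.remG T (g i).c a (g i).σ (g i).w ζ t) -
      ∫ t, s * Cv.P t * (gp a (g i).G (Cv.ga t)).re := by
    intro i
    have e0 : (∫ t, s * Cv.P t * (gq a (g i).G * NUSp.exc T (g i).τ)) =
        s * (gq a (g i).G * NUSp.exc T (g i).τ) := by
      rw [integral_mul_const, integral_const_mul, Cv.P_mass]
      ring
    have j1 := gpC_int B ((g i).pin T) a s
    have j2 := iC (gq a (g i).G * NUSp.exc T (g i).τ)
    have j3 := iR i
    have j4 := gpC_int B (g i) a s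
    have e : (fun t => s * Cv.P t * dfC T (g i) a ζ t) =
        (((fun t : ℝ => s * Cv.P t * (gp a ((g i).pin T).G (Cv.ga t)).re) +
          (fun t : ℝ => s * Cv.P t * (gq a (g i).G * NUSp.exc T (g i).τ))) +
          (fun t : ℝ => s * Cv.P t * Sp.remG T (g i).c a (g i).σ (g i).w ζ t)) -
        (fun t : ℝ => s * Cv.P t * (gp a (g i).G (Cv.ga t)).re) := by
      funext t
      simp only [Pi.sub_apply, Pi.add_apply]
      unfold dfC
      ring
    rw [e, integral_sub' ((j1.add j2).add j3) j4, integral_add' (j1.add j2) j3,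
      integral_add' j1 j2, e0]
  -- the sum
  have eS : ∀ g' : Fin n → Gd, (∫ t, s * Cv.P t * ∑ i, (gp a (g' i).G (Cv.ga t)).re) =
      ∑ i, ∫ t, s * Cv.P t * (gp a (g' i).G (Cv.ga t)).re := by
    intro g'
    rw [← integral_finsetSum _ fun i _ => gpC_int B (g' i) a s]
    refine integral_congr_ae (ae_of_all _ fun t => ?_)
    simp only
    rw [Finset.mul_sum]
  have eB : (∫ t, s * Cv.P t * Sp.BF T g ζ a t) =
      ∑ i, ∫ t, s * Cv.P t * Sp.remG T (g i).c a (g i).σ (g i).w ζ t := by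
    rw [← integral_finsetSum _ fun i _ => iR i]
    refine integral_congr_ae (ae_of_all _ fun t => ?_)
    show s * Cv.P t * Sp.BF T g ζ a t = _
    unfold Sp.BF
    rw [Finset.mul_sum]
  have e1 : (∫ t, s * Cv.P t * ∑ i, (gp a ((g i).pin T).G (Cv.ga t)).re) +
      (∫ t, s * Cv.P t * Sp.BF T g ζ a t) +
      s * cstF T g a - (∫ t, s * Cv.P t * ∑ i, (gp a (g i).G (Cv.ga t)).re) =
      ∑ i, ∫ t, s * Cv.P t * dfC T (g i) a ζ t := by
    rw [eS (fun i => (g i).pin T), eS g, eB, Finset.sum_congr rfl fun i _ => eD i,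
      Finset.sum_sub_distrib, Finset.sum_add_distrib, Finset.sum_add_distrib, ← Finset.mul_sum]
    unfold cstF
    ring
  rw [e1]
  -- the bound of one group
  have key : ∀ i, |∫ t, s * Cv.P t * dfC T (g i) a ζ t| ≤
      4 * K * (Hm * Real.exp (-(T - b)) + s * Real.exp (-(8 / 3 * T))) := by
    intro i
    have hE := fun x : ℝ => NUDispW.int_exp_abs (c := 1) one_pos x
    have hx := hE (NUSp.pin T (g i).τ)
    have h1 := hE T
    have h2 := hE (-T)
    have hE2 : Integrable fun t => Real.exp (-(1 * |t - T|)) + Real.exp (-(1 * |t - -T|)) :=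
      h1.1.add h2.1
    have hi : Integrable fun t => K * Hm * Real.exp (-(T - b)) *
        Real.exp (-(1 * |t - NUSp.pin T (g i).τ|)) + K * s * Real.exp (-(8 / 3 * T)) *
        (Real.exp (-(1 * |t - T|)) + Real.exp (-(1 * |t - -T|))) :=
      (hx.1.const_mul _).add (hE2.const_mul _)
    have hpt : ∀ t, ‖s * Cv.P t * dfC T (g i) a ζ t‖ ≤ K * Hm * Real.exp (-(T - b)) *
        Real.exp (-(1 * |t - NUSp.pin T (g i).τ|)) + K * s * Real.exp (-(8 / 3 * T)) *
        (Real.exp (-(1 * |t - T|)) + Real.exp (-(1 * |t - -T|))) := fun t =>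
      @H _ hS (g i) a T b s Hm K' ζ ζ' hT hb hs hHm hζ hz hH t
    refine (norm_integral_le_of_norm_le hi (ae_of_all _ hpt)).trans ?_
    rw [integral_add (hx.1.const_mul _) (hE2.const_mul _), integral_const_mul,
      integral_const_mul]
    have e2 : (∫ t, (Real.exp (-(1 * |t - T|)) + Real.exp (-(1 * |t - -T|)))) = 4 := by
      rw [integral_add h1.1 h2.1, h1.2, h2.2]
      norm_num
    rw [e2, hx.2]
    have q1 : 0 ≤ K * Hm * Real.exp (-(T - b)) := by positivity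
    linarith
  refine (Finset.abs_sum_le_sum_abs _ _).trans ?_
  refine (Finset.sum_le_card_nsmul _ _ _ fun i _ => key i).trans (le_of_eq ?_)
  rw [Finset.card_univ, Fintype.card_fin, nsmul_eq_mul]
  ring

/-! ### the sea terms of the groups -/

section

variable (B : SeaCB) [SeaC] [SeaCU B]

include B

/-- the sea term of a family, species by species -/
theorem sum_seaGC (s : Bool → ℝ) {n : ℕ} (g : Fin n → Gd) :
    ∑ a, ∫ t : ℝ, s a * Cv.P t * ∑ i, (gp a (g i).G (Cv.ga t)).re = ∑ i, seaGC s (g i) := by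
  have e1 : ∀ a, (∫ t : ℝ, s a * Cv.P t * ∑ i, (gp a (g i).G (Cv.ga t)).re) =
      ∑ i, ∫ t : ℝ, s a * Cv.P t * (gp a (g i).G (Cv.ga t)).re := by
    intro a
    rw [← integral_finsetSum _ fun i _ => gpC_int B (g i) a (s a)]
    refine integral_congr_ae (ae_of_all _ fun t => ?_)
    simp only
    rw [Finset.mul_sum]
  rw [Fintype.sum_bool, e1, e1, ← Finset.sum_add_distrib]
  refine Finset.sum_congr rfl fun i _ => ?_
  rw [← integral_add (gpC_int B (g i) true (s true)) (gpC_int B (g i) false (s false))]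
  unfold seaGC
  refine integral_congr_ae (ae_of_all _ fun t => ?_)
  simp only
  ring

end

/-- **pinned heights with the remainders and the constants against the true heights** -/
theorem seaLinC_abs (B : SeaCB) [Fil] [Ends] {ep : ℝ} (h0 : 0 < ep) {e1 : ℝ} (he : 0 < e1) (he' : e1 ≤ 1 / 100)
    {Cc : ℝ} (hCc : 0 ≤ Cc) :
    ∃ (C : ℝ) (m0 : ℕ), 0 ≤ C ∧ ∀ [SeaC] [SeaCU B], ∀ m : ℕ, m0 ≤ m → ∀ η η1 : ℝ → ℝ,
      CrvP e1 Cc m η η1 →
      ∀ n : ℕ, n ≤ 2 → ∀ (g : Fin n → Gd) (T1 : ℝ), TW ep e1 m ≤ T1 →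
      |(∑ i, seaGC (sN m) (gP T1 g i)) +
        (∑ a, ∫ t, sN m a * Cv.P t * Sp.BF T1 g (Cv.zt (Cv.gD (Fil.cv a η))) a t) -
        cstF T1 g true * Fil.xe m - ∑ i, seaGC (sN m) (g i)| ≤ C := by
  obtain ⟨K, hK, H⟩ := exists_linTC B
  obtain ⟨Kp, hKp, HP⟩ := exists_pth B
  obtain ⟨m1, hm1, HP⟩ := HP ep h0 e1 he he'
  obtain ⟨m2, hm2, HW⟩ := exists_win he
  obtain ⟨Cg, hCg, HG⟩ := Cv.ga'_bd B
  have hl := l_pos
  have hq1 := Fil.one_le_qor
  have hq0 : (0 : ℝ) < (Fil.qo : ℕ) := by linarith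
  refine ⟨2 * (K * 2 * (Cg * ((Fil.qo : ℕ) * (Cc * (1 / e1))) + (Fil.qo : ℕ))), max m1 m2, by positivity,
    @fun _ hS m hm η η1 hc n hn g T1 hT1 => ?_⟩
  have k1 : m1 ≤ m := (le_max_left _ _).trans hm
  have k2 : m2 ≤ m := (le_max_right _ _).trans hm
  have hmm : 1 ≤ m := by omega
  have hmp : (0 : ℝ) < m := by exact_mod_cast hmm
  obtain ⟨w1, w2⟩ := HW m k2 ep h0
  obtain ⟨ε, e, hcur, hε0, -, hεx⟩ := hc.cur
  obtain ⟨L, hL⟩ : ∃ L, L = Real.log m := ⟨_, rfl⟩
  have hL1 : 1 ≤ L := by rw [hL]; exact w2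
  obtain ⟨T, hTd⟩ : ∃ T, T = Tb (Real.log m) := ⟨_, rfl⟩
  have hTL : T = 3 / 8 * L := by rw [hTd, hL]; rfl
  have hTW : TW ep e1 m = (1 + 2 * e1 + 2 * ep) * T := by
    rw [hTd]
    rfl
  rw [← hTd] at w1
  rw [← hTd, ← hL] at hcur
  have hpth := fun a => @HP _ _ hS m k1 Cc η η1 hc T1 hT1 a
  have w3 : (1 - e1) * T ≤ T1 - 1 := by linarith
  rw [hTW] at hT1
  have hT0 : 0 < T := by rw [hTL]; linarith
  have hT10 : 0 ≤ T1 := by nlinarith
  have hgap : 3 * e1 * T ≤ T1 - (1 - e1) * T := by nlinarith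
  have hηle : ∀ t, |η t| ≤ e t := hcur.abs_le
  have hHm0 : 0 ≤ Cg * ((Fil.qo : ℕ) * (Cc * L)) := by positivity
  have hz : ∀ a t, (1 - e1) * T < |t| → Cv.zt (Cv.gD (Fil.cv a η)) t = Cv.ga t := by
    intro a t ht
    have h5 := hηle t
    rw [hcur.supp t ht] at h5
    unfold Cv.zt Cv.gD NUKer.iD
    rw [Fil.cv_apply, abs_nonpos_iff.1 h5, zero_div]
    simp
  have hH : ∀ a t, sN m a * Cv.P t * ‖Cv.zt (Cv.gD (Fil.cv a η)) t - Cv.ga t‖ ≤
      Cg * ((Fil.qo : ℕ) * (Cc * L)) := by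
    intro a t
    have h5 : 0 ≤ (m : ℝ) * Cv.P t := mul_nonneg hmp.le (Cv.P_pos B t).le
    have h6 : (m : ℝ) * Cv.P t * |η t| ≤ Cc * L :=
      (mul_le_mul_of_nonneg_left (hηle t) h5).trans (hcur.mass t)
    have h7 := sN_le hmm a
    have h8 := Fil.abs_cv_le a η t
    have h9 := (Cv.P_pos B t).le
    have h10 : ‖Cv.zt (Cv.gD (Fil.cv a η)) t - Cv.ga t‖ ≤ |η t| * Cg := by
      have e1' : Cv.zt (Cv.gD (Fil.cv a η)) t - Cv.ga t = Cv.gD (Fil.cv a η) t := by
        unfold Cv.zt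
        ring
      rw [e1']
      unfold Cv.gD NUKer.iD
      rw [norm_mul, norm_mul, Complex.norm_I, mul_one, Complex.norm_real, Real.norm_eq_abs]
      exact mul_le_mul h8 (@HG _ hS t) (norm_nonneg _) (abs_nonneg _)
    calc sN m a * Cv.P t * ‖Cv.zt (Cv.gD (Fil.cv a η)) t - Cv.ga t‖ ≤
          ((Fil.qo : ℕ) * m) * Cv.P t * (|η t| * Cg) := by
          have := sN_nonneg m a
          gcongr
      _ = Cg * ((Fil.qo : ℕ) * (m * Cv.P t * |η t|)) := by ring
      _ ≤ Cg * ((Fil.qo : ℕ) * (Cc * L)) := by gcongr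
  have k1 : Cg * ((Fil.qo : ℕ) * (Cc * L)) * Real.exp (-(T1 - (1 - e1) * T)) ≤
      Cg * ((Fil.qo : ℕ) * (Cc * (1 / e1))) := by
    have a1 : Real.exp (-(T1 - (1 - e1) * T)) ≤ Real.exp (-(3 * e1 * T)) :=
      Real.exp_le_exp.2 (by linarith)
    have b1 := Real.add_one_le_exp (3 * e1 * T)
    have b2 : Real.exp (-(3 * e1 * T)) * Real.exp (3 * e1 * T) = 1 := by
      rw [← Real.exp_add]
      simp
    have b3 := Real.exp_pos (-(3 * e1 * T))
    have b4 : 3 * e1 * T * Real.exp (-(3 * e1 * T)) ≤ 1 := by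
      have : 3 * e1 * T * Real.exp (-(3 * e1 * T)) ≤
          Real.exp (3 * e1 * T) * Real.exp (-(3 * e1 * T)) :=
        mul_le_mul_of_nonneg_right (by linarith) b3.le
      linarith
    have b5 : L * Real.exp (-(3 * e1 * T)) ≤ 1 / e1 := by
      rw [le_div_iff₀ he]
      have h9 : 3 * e1 * T = 9 / 8 * (e1 * L) := by rw [hTL]; ring
      rw [h9] at b4 ⊢
      nlinarith [Real.exp_pos (-(9 / 8 * (e1 * L))), mul_pos he (by linarith : 0 < L)]
    calc Cg * ((Fil.qo : ℕ) * (Cc * L)) * Real.exp (-(T1 - (1 - e1) * T)) ≤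
          Cg * ((Fil.qo : ℕ) * (Cc * L)) * Real.exp (-(3 * e1 * T)) :=
          mul_le_mul_of_nonneg_left a1 hHm0
      _ = Cg * ((Fil.qo : ℕ) * (Cc * (L * Real.exp (-(3 * e1 * T))))) := by ring
      _ ≤ Cg * ((Fil.qo : ℕ) * (Cc * (1 / e1))) := by gcongr
  have k2 : ∀ a, sN m a * Real.exp (-(8 / 3 * T1)) ≤ (Fil.qo : ℕ) := by
    intro a
    have a1 : Real.log m ≤ 8 / 3 * T1 := by
      have b1 : 8 / 3 * T = Real.log m := by
        rw [hTd]
        unfold NUO.Tb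
        ring
      nlinarith
    have a2 : Real.exp (-(8 / 3 * T1)) ≤ Real.exp (-Real.log m) := Real.exp_le_exp.2 (by linarith)
    rw [Real.exp_neg (Real.log m), Real.exp_log hmp] at a2
    calc sN m a * Real.exp (-(8 / 3 * T1)) ≤ ((Fil.qo : ℕ) * m) * (m : ℝ)⁻¹ :=
          mul_le_mul (sN_le hmm a) a2 (Real.exp_pos _).le (by positivity)
      _ = (Fil.qo : ℕ) := by field_simp
  have hn2 : (n : ℝ) ≤ 2 := by exact_mod_cast hn
  -- one species
  have key : ∀ a, |(∫ t, sN m a * Cv.P t * ∑ i, (NUSp.gp a ((g i).pin T1).G (Cv.ga t)).re) +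
      (∫ t, sN m a * Cv.P t * Sp.BF T1 g (Cv.zt (Cv.gD (Fil.cv a η))) a t) + sN m a * cstF T1 g a -
      ∫ t, sN m a * Cv.P t * ∑ i, (NUSp.gp a (g i).G (Cv.ga t)).re| ≤
      K * 2 * (Cg * ((Fil.qo : ℕ) * (Cc * (1 / e1))) + (Fil.qo : ℕ)) := by
    intro a
    refine (@H _ hS a n g T1 ((1 - e1) * T) (sN m a) (Cg * ((Fil.qo : ℕ) * (Cc * L))) Kp _ _ hT10 w3
      (sN_nonneg m a) hHm0 (hpth a) (hz a) (hH a)).trans ?_
    have k3 : 0 ≤ Cg * ((Fil.qo : ℕ) * (Cc * L)) * Real.exp (-(T1 - (1 - e1) * T)) +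
        sN m a * Real.exp (-(8 / 3 * T1)) := by
      have := sN_nonneg m a
      positivity
    calc K * n * (Cg * ((Fil.qo : ℕ) * (Cc * L)) * Real.exp (-(T1 - (1 - e1) * T)) +
          sN m a * Real.exp (-(8 / 3 * T1))) ≤ K * 2 * (Cg * ((Fil.qo : ℕ) * (Cc * L)) *
          Real.exp (-(T1 - (1 - e1) * T)) + sN m a * Real.exp (-(8 / 3 * T1))) :=
          mul_le_mul_of_nonneg_right (mul_le_mul_of_nonneg_left hn2 hK) k3
      _ ≤ K * 2 * (Cg * ((Fil.qo : ℕ) * (Cc * (1 / e1))) + (Fil.qo : ℕ)) := by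
          refine mul_le_mul_of_nonneg_left ?_ (by positivity)
          linarith [k2 a]
  have s1 := sum_seaGC B (sN m) (fun i => (g i).pin T1)
  have s2 := sum_seaGC B (sN m) g
  rw [Fintype.sum_bool] at s1 s2
  have s3 : ∑ i, seaGC (sN m) (gP T1 g i) = ∑ i, seaGC (sN m) ((g i).pin T1) := rfl
  rw [Fintype.sum_bool, s3, ← s1, ← s2]
  have c1 := NUSea.PLX.H0.cstF_cancel g T1
  have c2 := sN_sub m
  have c3 : sN m true * cstF T1 g true + sN m false * cstF T1 g false =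
      -(cstF T1 g true * Fil.xe m) := by
    rw [← c2]
    have : cstF T1 g false = -cstF T1 g true := by linarith
    rw [this]
    ring
  obtain ⟨a1, a2⟩ := abs_le.1 (key true)
  obtain ⟨b1, b2⟩ := abs_le.1 (key false)
  rw [abs_le]
  constructor <;> linarith

end

end PLT
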