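import Pool.Agent.PLT.LinAC
import Pool.Agent.PLT.LinTC
import Pool.Agent.PLT.LetMC

/-!
# The total sea exponent of a letter over a sea on a static curve

* `int_HSs`: the atoms of a letter on the static curve are integrable against the sea;
* **`mNC_sea`**: `mNC s m σ t u τ + seaGC s (gd6 t u σ τ) = MF6X P η s t u σ (vl (htL t) τ) + pl6 m t u τ`,
  the static exponent of the neutral factor and of the base group together is that of the words of the letter.
-/

set_option autoImplicit false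
set_option linter.unusedSectionVars false
set_option linter.unusedVariables false

noncomputable section

open Complex MeasureTheory Set Filter Topology
open PLX (Fil Ends)

namespace PLT

open NUMF (l l_pos)
open NUO (Tb)
open NUSp (wd)
open NUGC.PLX (htL)
open NURow (HT)
open PHK
open PBR.PLX (Ch6)
open PBH.PLX (HS)
open PotH.PLX (sN)
open NUSea.PLX.H0 (Gd)
open Cv (ga)

/-- the point of the static curve -/
private theorem ga_vl [SeaC] (x : ℝ) : (l : ℂ) + I * ga x = NUP1.vl (l - Cv.eta x) x := by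
  unfold Cv.ga NUP1.vl
  apply Complex.ext
  · simp
    ring
  · simp

/-- a word on the static curve -/
theorem wd_ga [SeaC] (L : List (ℤ × ℝ)) (w : ℂ) (x : ℝ) :
    (wd L w (ga x)).re = lw L w (NUP1.vl (l - Cv.eta x) x) := by
  have hll : (NUP1.l : ℂ) = (l : ℂ) := rfl
  rw [lw_wd, hll, ga_vl]

/-- the base group of a letter on the static curve -/
theorem gp_gd6 (t : HT) (u : Ch6) (σ : Bool) (τ : ℝ) (a : Bool) (ζ : ℂ) :
    (NUSp.gp a (gd6 t u σ τ).G ζ).re =
      (wd (NUSp.wc (bc6 t u) (decide (a = σ))) (pb6 t u τ) ζ).re := by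
  have h : (gd6 t u σ τ).G = NUSp.grp (bc6 t u) σ (pb6 t u τ) := rfl
  rw [h, NUSp.gp_grp]

/-- atoms and base group together are the words of the letter -/
theorem HS_gp [SeaC] [Fil] [Ends] (t : HT) (u : Ch6) (σ : Bool) (τ : ℝ) (a : Bool) (x : ℝ) :
    HS (at6 t u σ τ) (fun _ => Cv.eta) a x + (NUSp.gp a (gd6 t u σ τ).G (ga x)).re =
      lw (wl6 t u (decide (a = σ))) (NUP1.vl (htL t) τ) (NUP1.vl (l - Cv.eta x) x) := by
  rw [← ptA_ga, gp_gd6, ← wd_ga]
  unfold ptA
  rw [Complex.sub_re]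
  ring

section

variable (B : SeaCB) [SeaC] [SeaCU B] [Fil] [Ends]

include B

/-- **the atoms of a letter on the static curve against the sea** -/
theorem int_HSs (t : HT) (u : Ch6) (σ : Bool) (τ : ℝ) (a : Bool) :
    Integrable fun x => Cv.P x * HS (at6 t u σ τ) (fun _ => Cv.eta) a x := by
  obtain ⟨Cc, hCc, m1, hm1, hcrv⟩ := exists_crvC B (e1 := 1 / 100) (J := 0) (by norm_num) le_rfl le_rfl
  obtain ⟨C, hC, m2, hm2, H⟩ := int_atC B (e1 := 1 / 100) (Cc := Cc) (by norm_num) (by norm_num)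
    (by linarith)
  obtain ⟨m, hm⟩ : ∃ m, m = max m1 m2 := ⟨_, rfl⟩
  obtain ⟨-, hc⟩ := hcrv m (by rw [hm]; exact le_max_left _ _)
  obtain ⟨-, i1, -⟩ := H m (by rw [hm]; exact le_max_right _ _) _ _ hc t u σ τ
  have h0 : (0 : ℝ) < m := by
    have : 1 ≤ m := by rw [hm]; exact hm1.trans (le_max_left _ _)
    exact_mod_cast this
  have hs : 0 < sN m a := h0.trans_le (PotH.PLX.le_sN m a)
  refine ((i1 a).const_mul (sN m a)⁻¹).congr (ae_of_all _ fun x => ?_)
  simp only
  field_simp

/-- **the static exponent of a letter**: neutral factor and base group are the words of the letter -/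
theorem mNC_sea (s : Bool → ℝ) (m : ℕ) (σ : Bool) (t : HT) (u : Ch6) (τ : ℝ) :
    mNC s m σ t u τ + seaGC s (gd6 t u σ τ) =
      MF6X Cv.P Cv.eta s t u σ (NUP1.vl (htL t) τ) + PBR.PLX.pl6 m t u τ := by
  have i1 := int_HSs B t u σ τ
  have i2 : ∀ a, Integrable fun x => Cv.P x * (NUSp.gp a (gd6 t u σ τ).G (ga x)).re := fun a =>
    (gpC_int B (gd6 t u σ τ) a 1).congr (ae_of_all _ fun x => by simp only; ring)
  have e1 : ∀ a, (∫ x, Cv.P x * HS (at6 t u σ τ) (fun _ => Cv.eta) a x) +
      (∫ x, Cv.P x * (NUSp.gp a (gd6 t u σ τ).G (ga x)).re) =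
      ∫ x, Cv.P x * lw (wl6 t u (decide (a = σ))) (NUP1.vl (htL t) τ)
        (NUP1.vl (l - Cv.eta x) x) := by
    intro a
    rw [← integral_add (i1 a) (i2 a)]
    refine integral_congr_ae (ae_of_all _ fun x => ?_)
    simp only
    rw [← HS_gp]
    ring
  have e2 : seaGC s (gd6 t u σ τ) =
      ∑ a, s a * ∫ x, Cv.P x * (NUSp.gp a (gd6 t u σ τ).G (ga x)).re := by
    rw [Fintype.sum_bool, ← integral_const_mul, ← integral_const_mul,
      ← integral_add ((i2 true).const_mul _) ((i2 false).const_mul _)]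
    unfold seaGC
    refine integral_congr_ae (ae_of_all _ fun x => ?_)
    simp only
    ring
  have e3 : MF6X Cv.P Cv.eta s t u σ (NUP1.vl (htL t) τ) =
      ∑ a, s a * ∫ x, Cv.P x * lw (wl6 t u (decide (a = σ))) (NUP1.vl (htL t) τ)
        (NUP1.vl (l - Cv.eta x) x) := by
    unfold MF6X
    rw [Fintype.sum_bool]
    cases σ
    · simp only [decide_true, Bool.not_false, Bool.true_eq_false, decide_false]
      ring
    · simp only [decide_true, Bool.not_true, Bool.false_eq_true, decide_false]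
  unfold mNC
  have e4 : ∀ a, s a * (∫ x, Cv.P x * lw (wl6 t u (decide (a = σ))) (NUP1.vl (htL t) τ)
      (NUP1.vl (l - Cv.eta x) x)) = s a * (∫ x, Cv.P x * HS (at6 t u σ τ) (fun _ => Cv.eta) a x) +
      s a * ∫ x, Cv.P x * (NUSp.gp a (gd6 t u σ τ).G (ga x)).re := by
    intro a
    rw [← e1 a]
    ring
  rw [e2, e3, Finset.sum_congr rfl fun a _ => e4 a, Finset.sum_add_distrib]
  ring

end

end PLT

end
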