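import Pool.Agent.PLT.LetOC
import Pool.Agent.PLT.H1R
import Pool.Agent.PLT.H1Pre
import Pool.Agent.PLT.LinAS
import Pool.Agent.PLT.OthYS
import Pool.Agent.PHK.Oth16
import Pool.Agent.PHK.Dir6

/-!
# THETA, SH1.Own: own and direct factors of all classes over rows on the axis

Content: `m` rows `xI m h` at the heights `h`, `|h i| ≤ 1/100`, cut rows and ends at `0`; record `RI ep`.

* `SeaHt S`: the straight seas of the contents (curve `0`, `m Pc = rhoI`), `seaHt_of`; `curX_ht`: they are the seas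
  of the rows in the sense of `CurX`; `cntX_ht`, `ownD_I`: the data of `LetOC`;
* `AgT v m h τ = ∑ Ag (v l) (τ - h i)`, `AgT_ge`, `sm_AgT`; `fTX`: the gain of a letter, `gC'_ge`, `sm_fTX`;
* `CutI`: the cutoffs at the half quanta; **`ownI`**: own factor times sea term, one constant for all heights;
  **`ownDI`**: classes D1, D1';
* `MFS s`: the sea term of the groups; `mec_MFS`, `mfs_d`;
* **`clOkI`**: `ClOk6` for a sequence of heights, sea exponents of the letters at most the words of the letters;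
  **`clOkIS`**: for the exponents `mNC`, `MFS` over a class of seas.
-/

set_option autoImplicit false
set_option linter.unusedSectionVars false
set_option linter.unusedVariables false

noncomputable section

open Complex MeasureTheory Finset
open PLX (Fil Ends)

namespace PLT.H1

open NURow (HT)
open NUGC.PLX (htL)
open NUGC (cut)
open PB0.PLX (KRU)
open PHK
open PBR.PLX
open NUP1 (l vl)
open _root_.Pool.Agent.PLX (yq rwq RU sum_ofFn_rwq mem_ofFn_rwq)
open PLT.St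
open PotH.PLX (sN)
open NUSea.PLX.H0 (Gd)
open PBO.PLX (ClOk6 clOk6_of ltS)

attribute [local instance] _root_.PLX.ends0

/-! ### the seas -/

/-- **the straight seas of the contents** -/
structure SeaHt (S : ℕ → (ℕ → ℝ) → SeaC) : Prop where
  eta : ∀ (m : ℕ) (h : ℕ → ℝ), 0 < m → HtS h → ∀ t, @Cv.eta (S m h) t = 0
  den : ∀ (m : ℕ) (h : ℕ → ℝ), 0 < m → HtS h → ∀ t : ℝ,
    (m : ℂ) * @Cv.Pc (S m h) t = rhoI (xI m h) t

/-- the weights -/
def wI (m : ℕ) : Fin m → ℝ := fun _ => (m : ℝ)⁻¹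

theorem wI_mass {m : ℕ} (hm : 0 < m) : ∑ i, wI m i = 1 := by
  have h0 : (m : ℝ) ≠ 0 := by exact_mod_cast hm.ne'
  unfold wI
  rw [Finset.sum_const, Finset.card_univ, Fintype.card_fin, nsmul_eq_mul, mul_inv_cancel₀ h0]

/-- the density of a straight sea is real on the line -/
theorem pc_real {S : SeaC} (h : ∀ t, @Cv.eta S t = 0) (t : ℝ) : @Cv.Pc S t = (@Cv.P S t : ℂ) := by
  have e : @Cv.eta S = fun _ => 0 := funext h
  have h1 := @Cv.Pc_ga S t
  unfold Cv.ga Cv.ga' at h1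
  rw [e] at h1
  simpa using h1

/-- **the straight sea is the sea of the rows** -/
theorem curX_ht {S : ℕ → (ℕ → ℝ) → SeaC} (hS : SeaHt S) {m : ℕ} (hm : 0 < m) {h : ℕ → ℝ} (hh : HtS h) :
    CurX (wI m) (xI m h) 0 0 (@Cv.eta (S m h)) (fun _ => 0) (@Cv.P (S m h)) where
  prf := by
    have e : @Cv.eta (S m h) = fun _ => 0 := funext (hS.eta m h hm hh)
    rw [e]
    exact ⟨fun t => hasDerivAt_const t (0 : ℝ), continuous_const, ⟨0, le_rfl, fun t => by simp⟩,
      fun t => le_rfl, fun t => le_rfl⟩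
  x1 i := by
    have hl := NUMF.l_pos
    rw [show (xI m h i).re = 0 by simp [xI]]
    linarith
  x2 i := by
    have hl := NUMF.l_pos
    rw [show (xI m h i).re = 0 by simp [xI]]
    linarith
  real t := by
    have h0 : (m : ℂ) ≠ 0 := by exact_mod_cast hm.ne'
    have e : @Cv.eta (S m h) = fun _ => 0 := funext (hS.eta m h hm hh)
    have h1 := hS.den m h hm hh t
    rw [pc_real (hS.eta m h hm hh)] at h1
    unfold PCx cpt cjc
    rw [e]
    have e2 : ∑ i, (wI m i : ℂ) * NUMF.Pc ((t : ℂ) + xI m h i * I) =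
        (m : ℂ)⁻¹ * rhoI (xI m h) t := by
      unfold rhoI wI
      rw [Finset.mul_sum]
      refine Finset.sum_congr rfl fun i _ => ?_
      rw [ofReal_inv, ofReal_natCast, mul_comm (xI m h i) I]
    simp only [ofReal_zero, zero_mul, add_zero, mul_one]
    rw [e2, ← h1, ← mul_assoc, inv_mul_cancel₀ h0, one_mul]

/-- a straight sea of 39's form has the density of the rows -/
theorem seaHt_of {S : ℕ → (ℕ → ℝ) → SeaC} (h : ∀ m h, 0 < m → HtS h → StrS (S m h) m h) : SeaHt S where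
  eta m k hm hk t := (h m k hm hk).eta t
  den m k hm hk t := by
    have h0 : (m : ℂ) ≠ 0 := by exact_mod_cast hm.ne'
    have hr : ∀ t : ℝ, NUMF.Pc (t : ℂ) = (NUMF.P t : ℂ) := NUSea.seaP.real
    have hS := h m k hm hk
    rw [pc_real (S := S m k) hS.eta]
    have e : @Cv.P (S m k) t = (m : ℝ)⁻¹ * ∑ i : Fin m, NUMF.P (t - k i) := hS.dens t
    rw [e, ofReal_mul, ofReal_inv, ofReal_natCast, ofReal_sum, ← mul_assoc, mul_inv_cancel₀ h0, one_mul]
    unfold rhoI
    refine Finset.sum_congr rfl fun i _ => ?_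
    rw [← hr]
    congr 1
    unfold xI
    rw [← mul_assoc, I_mul_I]
    push_cast
    ring

/-! ### the content -/

section cnt

variable [Fil]

/-- the lists of the rows -/
def cI (m : ℕ) (h : ℕ → ℝ) (a : Bool) : List ℂ := List.ofFn (rwq (xI m h) a)

theorem len_cI (m : ℕ) (h : ℕ → ℝ) (a : Bool) : ((cI m h a).length : ℝ) = Fil.b a * m := by
  unfold cI
  rw [List.length_ofFn]
  exact _root_.Pool.Agent.PLX.cast_cond a m

/-- **the content is in exact proportion** -/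
theorem cntX_ht {m : ℕ} (hm : 0 < m) (h : ℕ → ℝ) (a : Bool) :
    CntX 0 (wI m) (xI m h) (cI m h a) 0 where
  mem y hy := by
    have h1 := mem_ofFn_rwq.1 hy
    rw [List.mem_ofFn] at h1
    obtain ⟨i, hi⟩ := h1
    exact ⟨i, hi.symm⟩
  ex := by
    have h0 : (m : ℝ) ≠ 0 := by exact_mod_cast hm.ne'
    refine ⟨fun _ => Fil.n a, fun f => ?_, fun i => ?_⟩
    · unfold cI
      rw [sum_ofFn_rwq, List.map_ofFn, List.sum_ofFn, nsmul_eq_mul, Finset.mul_sum]
      rfl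
    · rw [len_cI, Nat.cast_zero, add_zero]
      unfold wI
      rw [Fil.cast_n, mul_assoc, mul_inv_cancel₀ h0, mul_one, sub_self, abs_zero]

omit [Fil] in
private theorem norm_cc_two (m : ℕ) : ‖NUP1.Leg.cc m‖ ≤ 2 := by
  rw [PBX.norm_cc]
  have := Real.cos_le_one NUP1.l
  linarith

/-- **the data of the own factors** -/
theorem ownD_I {m : ℕ} (hm : 0 < m) {h : ℕ → ℝ} (hh : HtS h) (ep : ℝ) :
    OwnD 0 (1 / 100) (1 / 100) 0 0 (wI m) (xI m h) (cI m h) (fun _ => 0) (fun _ => [])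
      (RI ep (xI m h)) := by
  have hl := NUP1.l_pos
  have hre : ∀ i, (xI m h i).re = 0 := fun i => by simp [xI]
  have him : ∀ i, (xI m h i).im = h i := fun i => by simp [xI]
  have hw : ∀ (a : Bool) (y : ℂ), y ∈ cI m h a → -l ≤ y.re ∧ y.re ≤ l / 2 := by
    intro a y hy
    obtain ⟨i, rfl⟩ := (cntX_ht hm h a).mem y hy
    rw [hre]
    constructor <;> linarith
  have hE : EndL (1 / 100) 0 := ⟨by simp; linarith, by simp; linarith, by simp⟩
  refine ⟨wI_mass hm, fun i => by rw [hre]; linarith, fun i => by rw [hre]; linarith,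
    fun i => by rw [him]; exact hh i, fun a => cntX_ht hm h a, by norm_num, ?_, ?_, hE, hE,
    norm_cc_two _, norm_cc_two _⟩
  · exact ⟨by simp; rfl, rfl, le_rfl, hw true, fun y hy => by simp at hy, fun y hy => by simp at hy⟩
  · exact ⟨by simp; rfl, rfl, le_rfl, hw false, fun y hy => by simp at hy, fun y hy => by simp at hy⟩

/-- the numbers of the sea -/
theorem nX_ht (m : ℕ) (h : ℕ → ℝ) : nX (cI m h) (fun _ => 0) = fun a => sN m a := by
  funext a
  unfold nX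
  rw [len_cI, Nat.cast_zero, add_zero]
  show _ = ((Fil.ne a m : ℕ) : ℝ)
  rw [_root_.PLX.ne_ends0]
  push_cast
  rw [Fil.cast_n]

end cnt

/-! ### the gains -/

/-- **the decay of the rows** at the heights `h` -/
def AgT (v : ℝ) (m : ℕ) (h : ℕ → ℝ) (τ : ℝ) : ℝ := ∑ i : Fin m, Ag (v * NUMF.l) (τ - h i)

theorem AgT_nonneg {v : ℝ} (h0 : 0 ≤ v) (h1 : v ≤ 1) (m : ℕ) (h : ℕ → ℝ) (τ : ℝ) :
    0 ≤ AgT v m h τ := by
  have hl := NUMF.l_pos
  exact Finset.sum_nonneg fun i _ => Ag_nonneg (by positivity) (by nlinarith) _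

/-- the constant of the decay -/
def kT (v : ℝ) : ℝ := 3 / 2 * (v * NUMF.l) * Real.exp (-(8 / 3 * (1 / 100)))

theorem kT_pos {v : ℝ} (h0 : 0 < v) : 0 < kT v := by
  have hl := NUMF.l_pos
  unfold kT
  positivity

/-- lower bound of the decay -/
theorem AgT_ge {v : ℝ} (h0 : 0 < v) (h1 : v ≤ 1) (m : ℕ) {h : ℕ → ℝ} (hh : HtS h) (τ : ℝ) :
    kT v * (m * Real.exp (-(8 / 3 * |τ|))) ≤ AgT v m h τ := by
  have hl := NUMF.l_pos
  have hv : v * NUMF.l ≤ NUMF.l := by nlinarith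
  have key : ∀ i : Fin m, kT v * Real.exp (-(8 / 3 * |τ|)) ≤ Ag (v * NUMF.l) (τ - h i) := by
    intro i
    have g := Ag_ge (V := v * NUMF.l) (by positivity) (by linarith) (τ - h i)
    rw [min_eq_left hv] at g
    refine le_trans ?_ g
    have e1 := exp_le_ch (τ - h i)
    have e2 : Real.exp (-(8 / 3 * (1 / 100))) * Real.exp (-(8 / 3 * |τ|)) ≤
        Real.exp (-(8 / 3) * |τ - h i|) := by
      rw [← Real.exp_add]
      refine Real.exp_le_exp.2 ?_
      have h3 := abs_sub τ (h i)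
      have h4 := hh i
      linarith
    have e3 := e2.trans e1
    have hc : 0 ≤ 3 / 2 * (v * NUMF.l) := by positivity
    calc kT v * Real.exp (-(8 / 3 * |τ|)) = 3 / 2 * (v * NUMF.l) *
        (Real.exp (-(8 / 3 * (1 / 100))) * Real.exp (-(8 / 3 * |τ|))) := by
          unfold kT
          ring
      _ ≤ 3 / 2 * (v * NUMF.l) * (1 / NUMF.ch (τ - h i)) := mul_le_mul_of_nonneg_left e3 hc
      _ = _ := by ring
  calc kT v * (m * Real.exp (-(8 / 3 * |τ|))) = ∑ _i : Fin m, kT v * Real.exp (-(8 / 3 * |τ|)) := by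
        rw [Finset.sum_const, Finset.card_univ, Fintype.card_fin, nsmul_eq_mul]
        ring
    _ ≤ AgT v m h τ := Finset.sum_le_sum fun i _ => key i

/-- **the decay of rows on the axis is small in the bulk** -/
theorem sm_AgT {v : ℝ} (h0 : 0 < v) (h1 : v ≤ 1) {e1 : ℝ} (he : 0 < e1) : ∃ k0 : ℕ, ∀ k ≥ k0,
    ∀ h : ℕ → ℝ, HtS h → ∀ τ : ℝ, |τ| ≤ (1 - e1) * NUO.Tb (Real.log k) →
      Real.exp (-AgT v k h τ) ≤ Real.exp (-(2 * (1 - e1) * NUO.Tb (Real.log k))) := by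
  obtain ⟨k0, hk0⟩ := PBQ.PLX.fF_small (c := kT v) (kT_pos h0) he
  refine ⟨k0, fun k hk h hh τ hτ => le_trans (Real.exp_le_exp.2 (neg_le_neg ?_)) (hk0 k hk τ hτ)⟩
  have h2 := AgT_ge h0 h1 k hh τ
  rw [show -(8 / 3) * |τ| = -(8 / 3 * |τ|) by ring]
  exact h2

/-- **the gain of a letter** over the rows at the heights `h` -/
def fTX (m : ℕ) (h : ℕ → ℝ) (t : HT) (u : Ch6) (τ : ℝ) : ℝ :=
  match t with
  | .W => 1
  | .F => Real.exp (-AgT (3 / 4) m h τ)
  | .P => if u.2 = true then Real.exp (-AgT (3 / 4) m h τ) else 1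
  | .H => if u.1 = true ∧ u.2 = false then 1 else Real.exp (-AgT (3 / 8) m h τ)

theorem fTX_le_one (m : ℕ) (h : ℕ → ℝ) (t : HT) (u : Ch6) (τ : ℝ) : fTX m h t u τ ≤ 1 := by
  have k : ∀ v : ℝ, 0 ≤ v → v ≤ 1 → Real.exp (-AgT v m h τ) ≤ 1 := by
    intro v h0 h1
    rw [Real.exp_le_one_iff]
    have := AgT_nonneg h0 h1 m h τ
    linarith
  unfold fTX
  cases t
  · exact le_rfl
  · exact k _ (by norm_num) (by norm_num)
  · show (if u.2 = true then _ else _) ≤ _
    split_ifs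
    · exact k _ (by norm_num) (by norm_num)
    · exact le_rfl
  · show (if u.1 = true ∧ u.2 = false then _ else _) ≤ _
    split_ifs
    · exact le_rfl
    · exact k _ (by norm_num) (by norm_num)

theorem fTX_pos (m : ℕ) (h : ℕ → ℝ) (t : HT) (u : Ch6) (τ : ℝ) : 0 < fTX m h t u τ := by
  unfold fTX
  cases t
  · exact one_pos
  · exact Real.exp_pos _
  · show 0 < (if u.2 = true then _ else _)
    split_ifs
    · exact Real.exp_pos _
    · exact one_pos
  · show 0 < (if u.1 = true ∧ u.2 = false then _ else _)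
    split_ifs
    · exact one_pos
    · exact Real.exp_pos _

/-- **the gain of a letter without half quantum at `W` is small in the bulk** -/
theorem sm_fTX {e1 : ℝ} (he : 0 < e1) : ∃ k0 : ℕ, ∀ k ≥ k0, ∀ h : ℕ → ℝ, HtS h →
    ∀ (t : HT) (u : Ch6), okC6 t u → t ≠ .W → bc6 t u = .w → ∀ τ : ℝ,
      |τ| ≤ (1 - e1) * NUO.Tb (Real.log k) →
      fTX k h t u τ ≤ Real.exp (-(2 * (1 - e1) * NUO.Tb (Real.log k))) := by
  obtain ⟨k1, hk1⟩ := sm_AgT (v := 3 / 4) (by norm_num) (by norm_num) he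
  obtain ⟨k2, hk2⟩ := sm_AgT (v := 3 / 8) (by norm_num) (by norm_num) he
  refine ⟨max k1 k2, fun m hm h hh t u hu ht hb τ hτ => ?_⟩
  obtain ⟨g1, g2⟩ := max_le_iff.1 hm
  have a1 := hk1 m g1 h hh τ hτ
  have a2 := hk2 m g2 h hh τ hτ
  obtain ⟨u1, u2⟩ := u
  cases t
  · exact absurd rfl ht
  · exact a1
  · cases u2
    · simp [bc6] at hb
    · exact a1
  · cases u1 <;> cases u2
    · simp [bc6] at hb
    · simp [bc6] at hb
    · simp [bc6] at hb
    · exact a2

section own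

variable [Fil]

/-- the price of the rows of a species -/
theorem prX_ht (m : ℕ) (h : ℕ → ℝ) (a : Bool) (v τ : ℝ) :
    prX (cI m h) a v τ = Fil.n a * AgT v m h τ := by
  unfold prX cI AgT
  rw [sum_ofFn_rwq, List.map_ofFn, List.sum_ofFn, nsmul_eq_mul]
  congr 1
  refine Finset.sum_congr rfl fun i _ => ?_
  simp [xI]

theorem prX_ge {v : ℝ} (h0 : 0 ≤ v) (h1 : v ≤ 1) (m : ℕ) (h : ℕ → ℝ) (a : Bool) (τ : ℝ) :
    AgT v m h τ ≤ prX (cI m h) a v τ := by
  rw [prX_ht]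
  have h2 := AgT_nonneg h0 h1 m h τ
  have h3 : (1 : ℝ) ≤ Fil.n a := by
    have : 1 ≤ Fil.n a := by
      cases a
      · exact Fil.one_le_q
      · exact le_rfl
    exact_mod_cast this
  nlinarith

/-- **the gains of `LetOC` dominate `fTX`** -/
theorem gC_le (m : ℕ) (h : ℕ → ℝ) (a : Bool) (t : HT) (u : Ch6) (τ : ℝ) :
    Real.exp (-gC' (cI m h) a t u τ) ≤ fTX m h t u τ := by
  have p1 := prX_ge (v := 3 / 4) (by norm_num) (by norm_num) m h (!a) τ
  have p2 := prX_ge (v := 3 / 8) (by norm_num) (by norm_num) m h (!a) τ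
  have p3 := prX_ge (v := 3 / 8) (by norm_num) (by norm_num) m h a τ
  have n2 := AgT_nonneg (v := 3 / 8) (by norm_num) (by norm_num) m h τ
  obtain ⟨u1, u2⟩ := u
  cases t
  · have e : gC' (cI m h) a .W (u1, u2) τ = 0 := by simp [gC', gC]
    rw [e, neg_zero, Real.exp_zero]
    exact le_rfl
  · have e : gC' (cI m h) a .F (u1, u2) τ = prX (cI m h) (!a) (3 / 4) τ := by simp [gC', gC]
    rw [e]
    exact Real.exp_le_exp.2 (by linarith)
  · cases u2
    · have e : gC' (cI m h) a .P (u1, false) τ = 0 := by simp [gC', gC]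
      rw [e, neg_zero, Real.exp_zero]
      exact le_rfl
    · have e : gC' (cI m h) a .P (u1, true) τ = prX (cI m h) (!a) (3 / 4) τ := by simp [gC', gC]
      rw [e]
      exact Real.exp_le_exp.2 (by linarith)
  · cases u1 <;> cases u2
    · have e : gC' (cI m h) a .H (false, false) τ = prX (cI m h) a (3 / 8) τ := by simp [gC', gC]
      rw [e]
      exact Real.exp_le_exp.2 (by linarith)
    · have e : gC' (cI m h) a .H (false, true) τ = prX (cI m h) (!a) (3 / 8) τ := by simp [gC']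
      rw [e]
      exact Real.exp_le_exp.2 (by linarith)
    · have e : gC' (cI m h) a .H (true, false) τ = 0 := by simp [gC', gC]
      rw [e, neg_zero, Real.exp_zero]
      exact le_rfl
    · have e : gC' (cI m h) a .H (true, true) τ = prX (cI m h) (!a) (3 / 8) τ := by simp [gC', gC]
      rw [e]
      exact Real.exp_le_exp.2 (by linarith)

/-! ### the own factors -/

/-- **the cutoffs at the half quanta**, one constant for all heights -/
def CutI : Prop := ∀ ep : ℝ, 0 < ep → ep ≤ 1 / 100 → ∃ A : ℝ, 1 ≤ A ∧ ∃ m0 : ℕ, ∀ m ≥ m0,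
  ∀ h : ℕ → ℝ, HtS h →
    CutX6 (RI ep (xI m h)).x m ep A (RI ep (xI m h)).β (RI ep (xI m h)).g (RI ep (xI m h)).g0 ∧
    CutX6 (RI ep (xI m h)).y m ep A (RI ep (xI m h)).β (RI ep (xI m h)).g' (RI ep (xI m h)).g0'

/-- **own factors of the letters with the sea term**, one constant for all heights -/
theorem ownI {S : ℕ → (ℕ → ℝ) → SeaC} (hS : SeaHt S) (hC : CutI) {ep : ℝ} (hep : 0 < ep)
    (hep1 : ep ≤ 1 / 100) : ∃ C : ℝ, 0 ≤ C ∧ ∃ m0 : ℕ, ∀ m ≥ m0, ∀ h : ℕ → ℝ, HtS h →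
      ∀ K : PBQ.PLX.KD, IsR K (RI ep (xI m h)) →
      ∀ (a : Bool) (t : HT) (u : Ch6), okC6 t u → ∀ τ : ℝ,
        own6 K a t u (vl (htL t) τ) *
          Real.exp (MF6X (@Cv.P (S m h)) (@Cv.eta (S m h)) (sN m) t u a (vl (htL t) τ) +
            pl6 m t u τ) ≤
          C * fTX m h t u τ * Real.exp (-|τ|) * cut (Real.log m) ep (qh6 t u) τ := by
  have hl := NUMF.l_pos
  obtain ⟨C, hC0, H⟩ := ownC6P 0 (s0 := 1 / 100) (h0 := 1 / 100) 0 (by norm_num) (by norm_num)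
    (kT_pos (v := 3 / 8) (by norm_num))
  obtain ⟨A, hA, m0, hcut⟩ := hC ep hep hep1
  refine ⟨C * A ^ 4, by positivity, max m0 1, fun m hm h hh K hK a t u hu τ => ?_⟩
  obtain ⟨g0, g1⟩ := max_le_iff.1 hm
  obtain ⟨cx, cy⟩ := hcut m g0 h hh
  have b := H (ι := Fin m) (K0 := 0) (by rw [mul_zero]) (ownD_I g1 hh ep) (curX_ht hS g1 hh)
    (by linarith) (by linarith) hK hA cx cy (fun a τ => (AgT_ge (by norm_num) (by norm_num) m hh τ).trans
      (prX_ge (by norm_num) (by norm_num) m h a τ)) a t u hu τ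
  rw [nX_ht] at b
  refine b.trans ?_
  have hg := gC_le m h a t u τ
  have hcn : 0 ≤ cut (Real.log m) ep (qh6 t u) τ := NUGC.cut_nonneg _ _ _ _
  have hA4 : 0 < A ^ 4 := by positivity
  have he := Real.exp_pos (-|τ|)
  calc C * A ^ 4 * Real.exp (-|τ|) * cut (Real.log m) ep (qh6 t u) τ *
        Real.exp (-gC' (cI m h) a t u τ) ≤
      C * A ^ 4 * Real.exp (-|τ|) * cut (Real.log m) ep (qh6 t u) τ * fTX m h t u τ :=
        mul_le_mul_of_nonneg_left hg (by positivity)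
    _ = _ := by ring

/-- **classes D1, D1'**, one constant for all heights -/
theorem ownDI {S : ℕ → (ℕ → ℝ) → SeaC} (hS : SeaHt S) : ∃ C : ℝ, 0 ≤ C ∧ ∀ m : ℕ, 0 < m →
    ∀ h : ℕ → ℝ, HtS h → ∀ ep : ℝ, ∀ (o : Bool) (τ : ℝ),
      ‖kDI ep (xI m h) o (vl (-(11 / 4) * l) τ)‖ *
        Real.exp (MFdX (@Cv.P (S m h)) (@Cv.eta (S m h)) (sN m (!o)) (vl (-(11 / 4) * l) τ)) ≤
      C * Real.exp (-2 * |τ|) := by
  have hl := NUMF.l_pos
  obtain ⟨C, hC0, H⟩ := ownC6D 0 (s0 := 1 / 100) (h0 := 1 / 100) 0 (by norm_num)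
  refine ⟨C, hC0.le, fun m hm h hh ep o τ => ?_⟩
  have b := H (ι := Fin m) (K0 := 0) (by rw [mul_zero]) (ownD_I hm hh ep) (curX_ht hS hm hh)
    (by linarith) (by linarith) o τ
  rw [nX_ht] at b
  have e : NUGC.PLX.htL .F = -(11 / 4) * l := rfl
  rw [e] at b
  rw [show -2 * |τ| = -(2 * |τ|) by ring]
  cases o
  · exact b
  · exact b

/-! ### all classes -/

/-- **the sea term of the groups**, numbers `s` -/
def MFS (S : SeaC) (s : Bool → ℝ) (σ : Bool) (c : NUSp.Cl) (w : ℂ) : ℝ :=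
  ∫ t : ℝ, @Cv.P S t * (s true * (NUSp.gp true (NUSp.grp c σ w) (@Cv.ga S t)).re +
    s false * (NUSp.gp false (NUSp.grp c σ w) (@Cv.ga S t)).re)

theorem seaGC_MFS (S : SeaC) (s : Bool → ℝ) (g : Gd) : @seaGC S s g = MFS S s g.σ g.c g.w := rfl

/-- the exponent of a letter -/
theorem mec_MFS (B : SeaCB) (S : SeaC) (hB : @SeaCU B S) (s : Bool → ℝ) (m : ℕ) (σ : Bool) (t : HT)
    (u : Ch6) (τ : ℝ) : @mNC S s m σ t u τ + MFS S s σ (bc6 t u) (pb6 t u τ) =
      MF6X (@Cv.P S) (@Cv.eta S) s t u σ (vl (htL t) τ) + pl6 m t u τ :=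
  @mNC_sea B S hB _ _ s m σ t u τ

/-- class D1 -/
theorem mfs_d (S : SeaC) (s : Bool → ℝ) (σ : Bool) (w : ℂ) :
    MFS S s σ .d w = MFdX (@Cv.P S) (@Cv.eta S) (s σ) w := by
  have e1 : ∀ (a : Bool) (ζ : ℂ), (NUSp.gp a (NUSp.grp .d σ w) ζ).re =
      if a = σ then (NUSp.wd (NUSp.wX .d) w ζ).re else 0 := by
    intro a ζ
    rw [NUSp.gp_grp]
    by_cases h : a = σ
    · rw [if_pos h, decide_eq_true h]
      rfl
    · rw [if_neg h, decide_eq_false h]
      show (NUSp.wd [] w ζ).re = 0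
      simp [NUSp.wd]
  unfold MFS MFdX
  rw [← integral_const_mul]
  refine integral_congr_ae (Filter.Eventually.of_forall fun t => ?_)
  simp only [e1]
  rw [@wd_ga S]
  cases σ
  · simp only [Bool.true_eq_false, if_false, if_true]
    ring
  · simp only [Bool.false_eq_true, if_false, if_true]
    ring

/-- **own and direct factors of all classes** along a sequence of heights -/
theorem clOkI {S : ℕ → (ℕ → ℝ) → SeaC} (hS : SeaHt S) (hC : CutI) {σ : ℕ → ℕ → ℝ}
    (hσ : ∀ m, HtS (σ m)) {mN : MNC} {MF : ℕ → Bool → NUSp.Cl → ℂ → ℝ}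
    (hM : ∃ (CM : ℝ) (m0 : ℕ), ∀ m ≥ m0, ∀ (a : Bool) (t : HT) (u : Ch6), okC6 t u → ∀ τ : ℝ,
      MEC mN MF m a t u τ ≤ MF6X (@Cv.P (S m (σ m))) (@Cv.eta (S m (σ m))) (sN m) t u a
        (vl (htL t) τ) + pl6 m t u τ + CM)
    (hD : ∃ (CM : ℝ) (m0 : ℕ), ∀ m ≥ m0, ∀ (a : Bool) (τ : ℝ),
      MF m a .d (vl (-(11 / 4) * l) τ) ≤
        MFdX (@Cv.P (S m (σ m))) (@Cv.eta (S m (σ m))) (sN m a) (vl (-(11 / 4) * l) τ) + CM) :
    ClOk6 (ltG (fun _ m t u τ => fTX m (σ m) t u τ) mN MF) MF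
      (fun ep m => KI ep (xI m (σ m))) (fun ep m => kDI ep (xI m (σ m)))
      (fun ep m t t' y u => cw6 (KI ep (xI m (σ m))) t t' (vl (htL t) y.1) (vl (htL t') y.2) u) := by
  refine clOk6_of dir6Le (fun ep h0 h1 => ?_) (fun ep h0 h1 => ?_)
    (fun _ m t u τ => (fTX_pos m (σ m) t u τ).le) (fun _ m t u τ => fTX_le_one m (σ m) t u τ)
    (fun ep _ _ e1 he => ?_)
  · obtain ⟨C, hC0, m1, H⟩ := ownI hS hC h0 h1
    obtain ⟨CM, m2, hM⟩ := hM
    refine ⟨Real.exp CM * C, by positivity, max m1 m2, fun m hm a t u hu τ => ?_⟩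
    obtain ⟨g1, g2⟩ := max_le_iff.1 hm
    have b := H m g1 (σ m) (hσ m) _ (isR_KRU (RI ep (xI m (σ m)))) a t u hu τ
    have e1 := Real.exp_le_exp.2 (hM m g2 a t u hu τ)
    rw [Real.exp_add _ CM] at e1
    have ho := own6_nonneg (KI ep (xI m (σ m))) a t u (vl (htL t) τ)
    have hcm := Real.exp_pos CM
    calc own6 (KI ep (xI m (σ m))) a t u (vl (htL t) τ) * Real.exp (MEC mN MF m a t u τ) ≤
        own6 (KI ep (xI m (σ m))) a t u (vl (htL t) τ) * (Real.exp
          (MF6X (@Cv.P (S m (σ m))) (@Cv.eta (S m (σ m))) (sN m) t u a (vl (htL t) τ) +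
            pl6 m t u τ) * Real.exp CM) := mul_le_mul_of_nonneg_left e1 ho
      _ = Real.exp CM * (own6 (KI ep (xI m (σ m))) a t u (vl (htL t) τ) * Real.exp
          (MF6X (@Cv.P (S m (σ m))) (@Cv.eta (S m (σ m))) (sN m) t u a (vl (htL t) τ) +
            pl6 m t u τ)) := by ring
      _ ≤ Real.exp CM * (C * fTX m (σ m) t u τ * Real.exp (-|τ|) *
          cut (Real.log m) ep (qh6 t u) τ) := mul_le_mul_of_nonneg_left b hcm.le
      _ = _ := by ring
  · obtain ⟨C, hC0, H⟩ := ownDI hS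
    obtain ⟨CM, m2, hD⟩ := hD
    refine ⟨Real.exp CM * C, by positivity, max m2 1, fun m hm o τ => ?_⟩
    obtain ⟨g1, g2⟩ := max_le_iff.1 hm
    have b := H m g2 (σ m) (hσ m) ep o τ
    have e1 := Real.exp_le_exp.2 (hD m g1 (!o) τ)
    rw [Real.exp_add _ CM] at e1
    have hcm := Real.exp_pos CM
    calc ‖kDI ep (xI m (σ m)) o (vl (-(11 / 4) * l) τ)‖ *
          Real.exp (MF m (!o) .d (vl (-(11 / 4) * l) τ)) ≤
        ‖kDI ep (xI m (σ m)) o (vl (-(11 / 4) * l) τ)‖ * (Real.exp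
          (MFdX (@Cv.P (S m (σ m))) (@Cv.eta (S m (σ m))) (sN m (!o)) (vl (-(11 / 4) * l) τ)) *
            Real.exp CM) := mul_le_mul_of_nonneg_left e1 (norm_nonneg _)
      _ = Real.exp CM * (‖kDI ep (xI m (σ m)) o (vl (-(11 / 4) * l) τ)‖ * Real.exp
          (MFdX (@Cv.P (S m (σ m))) (@Cv.eta (S m (σ m))) (sN m (!o)) (vl (-(11 / 4) * l) τ))) := by
            ring
      _ ≤ Real.exp CM * (C * Real.exp (-2 * |τ|)) := mul_le_mul_of_nonneg_left b hcm.le
      _ = _ := by ring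
  · obtain ⟨k0, hk⟩ := sm_fTX he
    exact ⟨k0, fun m hm t u hu ht hb τ hτ => hk m hm (σ m) (hσ m) t u hu ht hb τ hτ⟩

/-- **the same for the exponents of the class of seas** -/
theorem clOkIS {B : SeaCB} {S : ℕ → (ℕ → ℝ) → SeaC} (hB : ∀ m h, 0 < m → HtS h → @SeaCU B (S m h))
    (hS : SeaHt S) (hC : CutI) {σ : ℕ → ℕ → ℝ} (hσ : ∀ m, HtS (σ m)) :
    ClOk6 (ltG (fun _ m t u τ => fTX m (σ m) t u τ) (fun m a t u τ => @mNC (S m (σ m)) (sN m) m a t u τ)
      fun m => MFS (S m (σ m)) (sN m)) (fun m => MFS (S m (σ m)) (sN m))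
      (fun ep m => KI ep (xI m (σ m))) (fun ep m => kDI ep (xI m (σ m)))
      (fun ep m t t' y u => cw6 (KI ep (xI m (σ m))) t t' (vl (htL t) y.1) (vl (htL t') y.2) u) :=
  clOkI hS hC hσ ⟨0, 1, fun m hm a t u hu τ => by
      rw [add_zero]
      exact (mec_MFS B (S m (σ m)) (hB m _ hm (hσ m)) (sN m) m a t u τ).le⟩
    ⟨0, 1, fun m hm a τ => by
      rw [add_zero]
      exact (mfs_d (S m (σ m)) (sN m) a _).le⟩

end own

end PLT.H1

end
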