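import Pool.Agent.PLT.UWI
import Pool.Agent.PLT.H1Own
import Pool.Agent.PLT.GX
import Pool.Agent.PLT.SeaI

/-!
# The own kernels of the bare half quanta over rows on the axis

Rows `xI m h` (`x | x ^ q`), ends at `0`, half quanta on the line `5/4 l`.

* `kfG_pr1`, `own6_W`: the prefactor of a half quantum is the own factor of the letter `W`;
* `MFX_W`: the group of class `w` on the line `5/4 l` is the sea term of the letter `W`;
* **`own_WI`**: own factor times sea term at most `C exp (-|y|)`, both species, one constant for all heights;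
* **`ownG_W`**, `ownG_W'`: the fields `own`, `own'` of `OwnI` for geometries with the group term `MFX`;
* `seaHt_seaI`: the seas `seaI` are those of the rows; **`own_GI`**, `own_GI'`: the fields over `seaI`.
-/

set_option autoImplicit false
set_option linter.unusedSectionVars false
set_option linter.unusedVariables false

noncomputable section

open Complex MeasureTheory Finset Filter
open PLX (Fil)

namespace PLT.St

open NUP1 (l vl)
open NUGC.PLX (htL)
open NURow (HT)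
open PB0.PLX (KRU)
open PHK
open PBR.PLX
open PBT3 (wt)
open PotH.PLX (sN)
open Pool.Agent.PLX (RU yq rwq)
open PLT.H1 (SeaHt cI curX_ht ownD_I nX_ht)

attribute [local instance] _root_.PLX.ends0

/-! ### the kernel -/

/-- the prefactor of a half quantum -/
theorem kfG_pr1 {m M : ℕ} (p q : ℂ) (x : Fin m → ℂ) (y : Fin M → ℂ) (w : ℂ) :
    kfG p q x y w = NUP1.N.pr1 p q x y w := by
  unfold kfG NUP1.N.pr1 NUP1.N.prc NUP1.N.rA NUP1.N.rB
  rw [Finset.prod_div_distrib, Finset.prod_const_one]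
  ring

/-- the own factor of the letter `W` -/
theorem own6_W (K : PBQ.PLX.KD) (a : Bool) (w : ℂ) :
    own6 K a .W (false, false) w = if a = true then ‖K.kF w‖ else ‖K.kF' w‖ := by
  unfold own6 ownH6 PBQ.PLX.KD.own PBQ.PLX.KD.ownZ
  cases a <;> simp [NUGC.PLX.ownK]

theorem okC6_W : okC6 .W (false, false) := ⟨fun h => by simp at h, fun h => by simp at h⟩

/-! ### the sea term -/

section sea

variable [Fil] [SeaC] {ι : Type*} [Fintype ι] {w : ι → ℝ} {x : ι → ℂ} {lo hi : ℝ} {η' : ℝ → ℝ}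

/-- **the group of class `w` on the line `5/4 l`** -/
theorem MFX_W (h : CurX w x lo hi Cv.eta η' Cv.P) (hlo : -(1 / 4 * NUMF.l) < lo)
    (hhi : hi < 1 / 4 * NUMF.l) (m : ℕ) (σ : Bool) (τ : ℝ) :
    MFX m σ .w (vl (htL .W) τ) =
      MF6X Cv.P Cv.eta (sN m) .W (false, false) σ (vl (htL .W) τ) := by
  obtain ⟨w1, w2⟩ := htL_win hlo hhi .W
  have hre : (vl (htL .W) τ).re = htL .W := by simp [vl]
  have hI : ∀ L : List (ℤ × ℝ), Integrable fun s => Cv.P s *
      lw L (vl (htL .W) τ) (vl (NUMF.l - Cv.eta s) s) := fun L =>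
    (int_lwX h (by rw [hre]; exact w1) (by rw [hre]; exact w2) L).1
  have e1 : ∀ (a : Bool) (t : ℝ), (NUSp.gp a (NUSp.grp .w σ (vl (htL .W) τ)) (Cv.ga t)).re =
      lw (NUSp.wc .w (decide (a = σ))) (vl (htL .W) τ) (vl (NUMF.l - Cv.eta t) t) := by
    intro a t
    rw [NUSp.gp_grp, wd_ga]
  have e2 : MFX m σ .w (vl (htL .W) τ) =
      ∑ a, sN m a * ∫ t, Cv.P t * lw (NUSp.wc .w (decide (a = σ))) (vl (htL .W) τ)
        (vl (NUMF.l - Cv.eta t) t) := by
    rw [Fintype.sum_bool, ← integral_const_mul, ← integral_const_mul,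
      ← integral_add ((hI _).const_mul _) ((hI _).const_mul _)]
    unfold MFX
    refine integral_congr_ae (Eventually.of_forall fun t => ?_)
    simp only [e1]
    ring
  rw [e2, Fintype.sum_bool]
  unfold MF6X
  cases σ
  · simp only [decide_true, Bool.not_false, Bool.true_eq_false, decide_false]
    rw [add_comm]
    rfl
  · simp only [decide_true, Bool.not_true, Bool.false_eq_true, decide_false]
    rfl

end sea

/-! ### the own factor -/

private theorem inv_cosh' (τ : ℝ) : (Real.cosh τ)⁻¹ ≤ 2 * Real.exp (-|τ|) := by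
  have h1 : Real.exp |τ| ≤ 2 * Real.cosh τ := by
    rw [← Real.cosh_abs τ, Real.cosh_eq]
    have := Real.exp_pos (-|τ|)
    linarith
  have hc := Real.cosh_pos τ
  rw [Real.exp_neg, inv_le_iff_one_le_mul₀ hc]
  have he := Real.exp_pos |τ|
  rw [show 2 * (Real.exp |τ|)⁻¹ * Real.cosh τ = (2 * Real.cosh τ) / Real.exp |τ| by
    rw [div_eq_mul_inv]; ring, le_div_iff₀ he, one_mul]
  exact h1

variable [Fil]

/-- **own factor of the letter `W` with its sea term**, one constant for all heights -/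
theorem own6_WI {S : ℕ → (ℕ → ℝ) → SeaC} (hS : SeaHt S) : ∃ C : ℝ, 0 ≤ C ∧ ∀ m : ℕ, 0 < m →
    ∀ h : ℕ → ℝ, HtS h → ∀ (a : Bool) (τ : ℝ),
      own6 (KRU (RI (1 / 100) (xI m h))) a .W (false, false) (vl (htL .W) τ) *
        Real.exp (MF6X (@Cv.P (S m h)) (@Cv.eta (S m h)) (sN m) .W (false, false) a
          (vl (htL .W) τ)) ≤ C * Real.exp (-|τ|) := by
  have hl := NUMF.l_pos
  obtain ⟨C1, hC1, H⟩ := MF6X_mfC
  obtain ⟨Q, hQ⟩ : ∃ Q, Q = cOw6 * (cRO (1 / 100) ^ 2 * (cRO (1 / 100) ^ 0) ^ 2) := ⟨_, rfl⟩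
  have hQ0 : 0 < Q := by
    have := one_le_cRO (h0 := 1 / 100) (by norm_num)
    have := cOw6_pos
    rw [hQ]
    positivity
  refine ⟨Q * 2, by positivity, fun m hm h hh a τ => ?_⟩
  have hD := ownD_I hm hh (1 / 100)
  have hc := curX_ht hS hm hh
  have hmf := (abs_le.1 (H hc (by linarith) (by linarith) hD.mass hD.lo hD.up hD.im hD.cnt .W
    (false, false) okC6_W a τ)).2
  rw [nX_ht, zero_mul, mul_zero, mul_zero] at hmf
  have hexp := Real.exp_le_exp.2 (sub_nonpos.1 hmf)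
  have hic := inv_cosh' τ
  have key : ∀ X : ℝ, 0 ≤ X →
      X * Real.exp (mfC (cI m h) (fun _ => 0) .W (false, false) a τ) ≤
        Q * (Real.cosh τ)⁻¹ * 1 * Real.exp (-gC (cI m h) a .W (false, false) τ) →
      X * Real.exp (MF6X (@Cv.P (S m h)) (@Cv.eta (S m h)) (fun a => sN m a) .W (false, false) a
        (vl (htL .W) τ)) ≤ Q * 2 * Real.exp (-|τ|) := by
    intro X hX0 hX
    have e0 : gC (cI m h) a .W (false, false) τ = 0 := rfl
    rw [e0, neg_zero, Real.exp_zero, mul_one, mul_one] at hX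
    calc _ ≤ X * Real.exp (mfC (cI m h) (fun _ => 0) .W (false, false) a τ) :=
          mul_le_mul_of_nonneg_left hexp hX0
      _ ≤ Q * (Real.cosh τ)⁻¹ := hX
      _ ≤ Q * (2 * Real.exp (-|τ|)) := mul_le_mul_of_nonneg_left hic hQ0.le
      _ = _ := by ring
  have hK := isR_KRU (RI (1 / 100) (xI m h))
  refine key _ (own6_nonneg _ _ _ _ _) ?_
  cases a
  · have b := own_oneC hK.sw hD.c2 hD.c1 (by norm_num) hD.rY hD.rX hD.eq hD.ep okC6_W τ
    rw [← own6_swK, ← hQ] at b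
    rw [← gC_eq]
    exact b
  · have b := own_oneC hK hD.c1 hD.c2 (by norm_num) hD.rX hD.rY hD.ep hD.eq okC6_W τ
    rw [← hQ] at b
    rw [← gC_eq]
    exact b

/-- **the own kernels of the bare half quanta** -/
theorem own_WI {S : ℕ → (ℕ → ℝ) → SeaC} (hS : SeaHt S) : ∃ C : ℝ, 0 ≤ C ∧ ∀ m : ℕ, 0 < m →
    ∀ h : ℕ → ℝ, HtS h → ∀ y : ℝ,
      ‖kfG 0 0 (xI m h) (yq (xI m h)) (wt y)‖ *
        Real.exp (@MFX _ _ (S m h) m true .w (vl (htL .W) y)) ≤ C * Real.exp (-|y|) ∧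
      ‖kfG 0 0 (yq (xI m h)) (xI m h) (wt y)‖ *
        Real.exp (@MFX _ _ (S m h) m false .w (vl (htL .W) y)) ≤ C * Real.exp (-|y|) := by
  have hl := NUMF.l_pos
  obtain ⟨C, hC, H⟩ := own6_WI hS
  refine ⟨C, hC, fun m hm h hh y => ?_⟩
  have hw : wt y = vl (htL .W) y := PBI.PLX.wt_vl y
  have hc := curX_ht hS hm hh
  have m1 := @MFX_W _ (S m h) _ _ _ _ _ _ _ hc (by linarith) (by linarith) m true y
  have m2 := @MFX_W _ (S m h) _ _ _ _ _ _ _ hc (by linarith) (by linarith) m false y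
  have k1 : own6 (KRU (RI (1 / 100) (xI m h))) true .W (false, false) (vl (htL .W) y) =
      ‖kfG 0 0 (xI m h) (yq (xI m h)) (wt y)‖ := by
    rw [own6_W, if_pos rfl, hw, kfG_pr1]
    rfl
  have k2 : own6 (KRU (RI (1 / 100) (xI m h))) false .W (false, false) (vl (htL .W) y) =
      ‖kfG 0 0 (yq (xI m h)) (xI m h) (wt y)‖ := by
    rw [own6_W, if_neg (by simp), hw, kfG_pr1]
    rfl
  rw [m1, m2, ← k1, ← k2]
  exact ⟨H m hm h hh true y, H m hm h hh false y⟩

/-! ### geometries -/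

/-- **the field `own` of `OwnI`** -/
theorem ownG_W {S : ℕ → (ℕ → ℝ) → SeaC} (hS : SeaHt S) {G : {h : ℕ → ℝ // HtS h} → GeoC}
    (hG : ∀ m h, (G h).MF m = @MFX _ _ (S m h.1) m) :
    ∃ C : ℝ, 0 ≤ C ∧ ∃ m0 : ℕ, ∀ m ≥ m0, ∀ h : {h : ℕ → ℝ // HtS h}, ∀ y : ℝ,
      |y| ≤ 3 / 8 * Real.log m → ‖kfG 0 0 (xI m h.1) (yq (xI m h.1)) (wt y)‖ *
        Real.exp ((G h).MF m true .w (vl (htL .W) y)) ≤ C * Real.exp (-|y|) := by
  obtain ⟨C, hC, H⟩ := own_WI hS
  refine ⟨C, hC, 1, fun m hm h y _ => ?_⟩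
  rw [hG]
  exact (H m hm h.1 h.2 y).1

/-- **the field `own'` of `OwnI`** -/
theorem ownG_W' {S : ℕ → (ℕ → ℝ) → SeaC} (hS : SeaHt S) {G : {h : ℕ → ℝ // HtS h} → GeoC}
    (hG : ∀ m h, (G h).MF m = @MFX _ _ (S m h.1) m) :
    ∃ C : ℝ, 0 ≤ C ∧ ∃ m0 : ℕ, ∀ m ≥ m0, ∀ h : {h : ℕ → ℝ // HtS h}, ∀ y : ℝ,
      |y| ≤ 3 / 8 * Real.log m → ‖kfG 0 0 (yq (xI m h.1)) (xI m h.1) (wt y)‖ *
        Real.exp ((G h).MF m false .w (vl (htL .W) y)) ≤ C * Real.exp (-|y|) := by
  obtain ⟨C, hC, H⟩ := own_WI hS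
  refine ⟨C, hC, 1, fun m hm h y _ => ?_⟩
  rw [hG]
  exact (H m hm h.1 h.2 y).2

/-- the seas `seaI` are the straight seas of the rows -/
theorem seaHt_seaI : SeaHt seaI where
  eta m h _ _ t := congrFun (seaI_eta m h) t
  den m h hm _ t := by
    rw [seaI_Pc hm]
    unfold rhoI
    refine Finset.sum_congr rfl fun i _ => ?_
    congr 1
    unfold xI
    rw [← mul_assoc, I_mul_I]
    ring

/-- **the geometries of the rows on the axis**: field `own` -/
theorem own_GI (P : Par6) (en : EnC) :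
    ∃ C : ℝ, 0 ≤ C ∧ ∃ m0 : ℕ, ∀ m ≥ m0, ∀ h : {h : ℕ → ℝ // HtS h}, ∀ y : ℝ,
      |y| ≤ 3 / 8 * Real.log m → ‖kfG 0 0 (xI m h.1) (yq (xI m h.1)) (wt y)‖ *
        Real.exp ((GX P en (fun m => seaI m h.1) (fun m => xI m h.1) fun _ => 0).MF m true .w
          (vl (htL .W) y)) ≤ C * Real.exp (-|y|) :=
  ownG_W seaHt_seaI (G := fun h => GX P en (fun m => seaI m h.1) (fun m => xI m h.1) fun _ => 0)
    fun m h => rfl

/-- **the geometries of the rows on the axis**: field `own'` -/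
theorem own_GI' (P : Par6) (en : EnC) :
    ∃ C : ℝ, 0 ≤ C ∧ ∃ m0 : ℕ, ∀ m ≥ m0, ∀ h : {h : ℕ → ℝ // HtS h}, ∀ y : ℝ,
      |y| ≤ 3 / 8 * Real.log m → ‖kfG 0 0 (yq (xI m h.1)) (xI m h.1) (wt y)‖ *
        Real.exp ((GX P en (fun m => seaI m h.1) (fun m => xI m h.1) fun _ => 0).MF m false .w
          (vl (htL .W) y)) ≤ C * Real.exp (-|y|) :=
  ownG_W' seaHt_seaI (G := fun h => GX P en (fun m => seaI m h.1) (fun m => xI m h.1) fun _ => 0)
    fun m h => rfl

end PLT.St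

end
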