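import Pool.Agent.PLT.OwnPre
import Pool.Agent.PLT.OwnW

/-!
# `OwnI` over the geometries of the rows on the axis (helper85)

* `strS_seaI`: `seaI m h` is the straight sea of the rows at the heights `h`;
* **`ownI_GI`**: `OwnI` of the geometries `GX` over the seas `seaI`, rows `xI m h`, ends `0`.
-/

set_option autoImplicit false
set_option linter.unusedSectionVars false
set_option linter.unusedVariables false

noncomputable section

open Complex

namespace PLT.St

open PHK (Par6)
open PLX (Fil)

attribute [local instance] _root_.PLX.ends0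

/-- **the sea `seaI`** is the straight sea of its rows -/
theorem strS_seaI {m : ℕ} (hm : 0 < m) (h : ℕ → ℝ) : H1.StrS (seaI m h) m h := by
  have h0 : (m : ℂ) ≠ 0 := by exact_mod_cast hm.ne'
  have h1 : (m : ℝ) ≠ 0 := by exact_mod_cast hm.ne'
  constructor
  · intro t
    have e : (m : ℝ) * (seaI m h).dens t = ∑ i : Fin m, NUMF.P (t - h i) := seaI_P hm h t
    rw [← e, ← mul_assoc, inv_mul_cancel₀ h1, one_mul]
  · intro t
    exact congrFun (seaI_eta m h) t
  · intro t
    have e : (m : ℂ) * (seaI m h).fs t = ∑ i : Fin m, NUAct.vs (t - h i) := seaI_vs hm h t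
    rw [← e, ← mul_assoc, inv_mul_cancel₀ h0, one_mul]
  · intro t
    have e : (m : ℂ) * (seaI m h).fx t = ∑ i : Fin m, NUAct.vx (t - h i) := seaI_vx hm h t
    rw [← e, ← mul_assoc, inv_mul_cancel₀ h0, one_mul]

variable [Fil]

/-- **`OwnI` over the geometries of the rows on the axis** -/
theorem ownI_GI (P : Par6) (en : EnC) :
    OwnI fun h => GX P en (fun m => seaI m h.1) (fun m => xI m h.1) fun _ => 0 where
  bs := bs_GI P en fun h m => seaI m h.1
  pre := pre_GI P en (fun h m => seaI m h.1) ⟨1, fun m hm h => strS_seaI hm h.1⟩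
  own := own_GI P en
  own' := own_GI' P en

end PLT.St

end
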