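import Pool.Agent.PLT.TRP
import Pool.Agent.PLX.PB.TRsG0

/-!
# Row R of the directions: the forces over rows on the imaginary axis

Twin of the parts of `PLX/PB/TRsG0` which see the rows; legs, path and objects are the landed ones.

* `AxR x`: rows on the imaginary axis, heights at most `1`; `AxL L n`: the points of a cutoff, `n` rows and two
  extras; `AxR.axL`: the points of the cutoff of a species;
* `cut_facR`, **`cut_massR`**: the force of the cutoff and its mass against the decay of the field;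
* **`X_facR`**: the regularised field over the rows.
-/

set_option autoImplicit false
set_option linter.unusedSectionVars false

noncomputable section

open Complex MeasureTheory Finset Filter
open scoped ENNReal

namespace PLT.RT

open NUP1 (l)
open PLX (Fil)
open PBTs (mn mn_nonneg)
open PBTs.PLX (adm_ep be_st5 nq_le)
open PBT3 (be MM G5)

/-- rows on the imaginary axis, heights at most `1` -/
def AxR {m : ℕ} (x : Fin m → ℂ) : Prop := ∀ i, (x i).re = 0 ∧ |(x i).im| ≤ 1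

/-- points of a cutoff: `n` rows and two extras on the axis -/
structure AxL (L : List ℂ) (n : ℕ) : Prop where
  re : ∀ w ∈ L, |w.re| ≤ 0
  im : ∀ w ∈ L, |w.im| ≤ 1
  len : L.length = n + 2

theorem AxL.ne {L : List ℂ} {n : ℕ} (h : AxL L n) : L ≠ [] := by
  intro e
  have := h.len
  rw [e] at this
  simp at this

/-- the points of the cutoff of a species -/
theorem AxR.axL [Fil] {m : ℕ} {x : Fin m → ℂ} (h : AxR x) (a : Bool) :
    AxL (List.ofFn (_root_.Pool.Agent.PLX.rwq x a) ++ [I, -I]) (Fil.n a * m) := by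
  have key : ∀ i, (_root_.Pool.Agent.PLX.rwq x a i).re = 0 ∧
      |(_root_.Pool.Agent.PLX.rwq x a i).im| ≤ 1 := by
    intro i
    cases a
    · exact h _
    · exact h _
  refine ⟨fun w hw => ?_, fun w hw => ?_, ?_⟩
  · rw [List.mem_append] at hw
    rcases hw with h1 | h1
    · rw [List.mem_ofFn] at h1
      obtain ⟨i, rfl⟩ := h1
      rw [(key i).1, abs_zero]
    · simp only [List.mem_cons, List.not_mem_nil, or_false] at h1
      rcases h1 with rfl | rfl <;> simp
  · rw [List.mem_append] at hw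
    rcases hw with h1 | h1
    · rw [List.mem_ofFn] at h1
      obtain ⟨i, rfl⟩ := h1
      exact (key i).2
    · simp only [List.mem_cons, List.not_mem_nil, or_false] at h1
      rcases h1 with rfl | rfl <;> simp
  · rw [List.length_append, List.length_ofFn, _root_.Pool.Agent.PLX.cond_eq]
    rfl

section cut

variable {ep : ℝ} {L : List ℂ} {n : ℕ}

/-- the force of the cutoff: analytic and bounded -/
theorem cut_facR (h0 : 0 < ep) (h1 : ep ≤ 1 / 100) (h : AxL L n) {z : ℂ} (hz : |z.im| < ep / 2) :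
    DifferentiableAt ℂ (PBLZ.PLX.cutI (4 / 3 * (1 - ep)) L) z ∧
      ‖PBLZ.PLX.cutI (4 / 3 * (1 - ep)) L z‖ ≤
        PBLZ.PLX.KL (4 / 3 * (1 - ep)) (3 * NUP1.l / 2 + ep / 2) := by
  have hl := NUP1.Bd.l_pos
  have : Fil := ⟨1, le_rfl⟩
  have hA := adm_ep h0 h1
  obtain ⟨h2, h3⟩ := abs_lt.1 hz
  refine ⟨?_, PBLZ.PLX.cutI_bd' hA h.ne h.re (by linarith) (by linarith)⟩
  have hd := PBLZ.PLX.cutI_diff hA h.ne h.re
  have hm : z ∈ {z : ℂ | -(3 * NUP1.l / 2 + ep / 2 - 3 / 2 * NUP1.l - 0) < z.im ∧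
      z.im < 3 / 2 * NUP1.l + (3 * NUP1.l / 2 + ep / 2) - 0} := by
    constructor <;> linarith
  exact (hd z hm).differentiableAt ((PBLZ.PLX.strip_open _ _).mem_nhds hm)

/-- the mass of the cutoff against the decay of the field -/
theorem cut_massR (h0 : 0 < ep) (h1 : ep ≤ 1 / 100) : ∃ C : ℝ, 0 ≤ C ∧ ∀ (L : List ℂ) (m : ℕ), AxL L m →
    Integrable (fun t : ℝ => Real.exp (-(8 / 3 * |t|)) *
      ‖PBLZ.PLX.cutI (4 / 3 * (1 - ep)) L t‖) ∧
    ∫ t : ℝ, Real.exp (-(8 / 3 * |t|)) * ‖PBLZ.PLX.cutI (4 / 3 * (1 - ep)) L t‖ ≤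
      C / (m + 2) := by
  have hl := NUP1.Bd.l_pos
  have : Fil := ⟨1, le_rfl⟩
  have hA := adm_ep h0 h1
  obtain ⟨β, hβ⟩ : ∃ β, β = 4 / 3 * (1 - ep) := ⟨_, rfl⟩
  obtain ⟨s, hs⟩ : ∃ s, s = 3 * NUP1.l / 2 + ep / 2 := ⟨_, rfl⟩
  have hb0 : 0 < β := by rw [hβ]; linarith
  rw [← hβ, ← hs] at hA
  have hK := PBLZ.PLX.KL_pos hA
  obtain ⟨κ, hκ⟩ : ∃ κ, κ = PBLZ.PLX.κ0 β s / 2 * Real.exp (-(2 * β * 1)) := ⟨_, rfl⟩
  have hκ0 : 0 < κ := by
    have := PBLZ.PLX.κ0_pos hA
    rw [hκ]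
    positivity
  have hi : Integrable fun t : ℝ => Real.exp (-(8 / 3 * ep) * |t|) := by
    have := (PBE.int_exp_abs (a := 8 / 3 * ep) (by positivity)).1
    simpa only [neg_mul] using this
  refine ⟨PBLZ.PLX.KL β s / κ * ∫ t : ℝ, Real.exp (-(8 / 3 * ep) * |t|), ?_, fun L m h => ?_⟩
  · have : 0 ≤ ∫ t : ℝ, Real.exp (-(8 / 3 * ep) * |t|) :=
      integral_nonneg fun t => (Real.exp_pos _).le
    positivity
  · rw [← hβ]
    have hlen : ((L.length : ℕ) : ℝ) = m + 2 := by
      rw [h.len]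
      push_cast
      ring
    have hk : ∀ t : ℝ, Real.exp (-(8 / 3 * |t|)) * ‖PBLZ.PLX.cutI β L t‖ ≤
        PBLZ.PLX.KL β s / κ / (m + 2) * Real.exp (-(8 / 3 * ep) * |t|) := by
      intro t
      have c1 := PBLZ.PLX.cutI_bd hA h.ne h.re h.im (z := (t : ℂ)) (by
        rw [Complex.ofReal_im, hs]
        linarith) (by
        rw [Complex.ofReal_im, hs]
        linarith)
      rw [Complex.ofReal_re, hlen, ← hκ] at c1
      have c2 := PBLZ.PLX.cut_exp (a := 2 * β) (k := κ) (m := (m : ℝ) + 2) (t := t) hb0 (by positivity)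
        hκ0 (by positivity)
      have e1 : 2 * β / (2 * β) = 1 := div_self (by positivity)
      rw [e1, Real.rpow_one, Real.rpow_neg_one] at c2
      have e2 : Real.exp (-(8 / 3 * |t|)) =
          Real.exp (-(8 / 3 * ep) * |t|) * Real.exp (-(2 * β * |t|)) := by
        rw [← Real.exp_add, hβ]
        congr 1
        ring
      have e3 := Real.exp_pos (-(8 / 3 * ep) * |t|)
      have e4 := Real.exp_pos (-(2 * β * |t|))
      calc Real.exp (-(8 / 3 * |t|)) * ‖PBLZ.PLX.cutI β L t‖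
          ≤ Real.exp (-(8 / 3 * |t|)) * (PBLZ.PLX.KL β s *
              Real.exp (-(κ * (((m : ℝ) + 2) * Real.exp (-(2 * β) * |t|))))) :=
            mul_le_mul_of_nonneg_left c1 (Real.exp_pos _).le
        _ = PBLZ.PLX.KL β s * Real.exp (-(8 / 3 * ep) * |t|) * (Real.exp (-(2 * β * |t|)) *
              Real.exp (-(κ * (((m : ℝ) + 2) * Real.exp (-(2 * β) * |t|))))) := by
            rw [e2]
            ring
        _ ≤ PBLZ.PLX.KL β s * Real.exp (-(8 / 3 * ep) * |t|) * (1 / κ * ((m : ℝ) + 2)⁻¹) :=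
            mul_le_mul_of_nonneg_left c2 (by positivity)
        _ = _ := by
            have e5 : (m : ℝ) + 2 ≠ 0 := by positivity
            field_simp
    have hcont : Continuous fun t : ℝ => PBLZ.PLX.cutI β L t := by
      refine continuous_iff_continuousAt.2 fun t => ?_
      have h2 := (cut_facR h0 h1 h (z := (t : ℂ)) (by
        rw [Complex.ofReal_im, abs_zero]
        positivity)).1.continuousAt
      rw [← hβ] at h2
      exact ContinuousAt.comp (f := fun t : ℝ => (t : ℂ)) h2 Complex.continuous_ofReal.continuousAt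
    have hi2 : Integrable fun t : ℝ => Real.exp (-(8 / 3 * |t|)) * ‖PBLZ.PLX.cutI β L t‖ := by
      refine (hi.const_mul (PBLZ.PLX.KL β s / κ / (m + 2))).mono' ?_ (Eventually.of_forall fun t => ?_)
      · exact (Continuous.mul (by fun_prop) hcont.norm).aestronglyMeasurable
      · rw [Real.norm_of_nonneg (by positivity)]
        exact hk t
    refine ⟨hi2, ?_⟩
    refine (integral_mono hi2 (hi.const_mul _) hk).trans (le_of_eq ?_)
    rw [integral_const_mul]
    ring

end cut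

/-! ### the field -/

/-- **the regularised field over rows on the axis** -/
theorem X_facR : ∃ C : ℝ, 1 ≤ C ∧ ∀ k : ℕ, 2 ≤ k → ∀ x : Fin (k - 1) → ℂ, AxR x → ∀ w w' : ℂ, G5 w w' →
    ∀ (b : Bool) (z : ℂ), |z.im| < l / 5 →
    DifferentiableAt ℂ (fldR (rowsD x) ((k : ℝ) ^ 10)⁻¹ (be w w') b) z ∧
    ‖fldR (rowsD x) ((k : ℝ) ^ 10)⁻¹ (be w w') b z‖ ≤
      C * (Real.exp (8 / 3 * MM w w') / k) * mn (33 / 8 * Real.log k) z.re := by
  have hl : 0 < NUMF.l := NUP1.Bd.l_pos
  have e : NUMF.l = l := rfl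
  have : Fil := ⟨1, le_rfl⟩
  obtain ⟨C1, hC1, H1⟩ := be_st5
  obtain ⟨c, C, hc, hc1, hC, H2⟩ := seaR_axis (b1 := l / 5) (by rw [← e]; positivity) (by rw [e]; linarith)
  refine ⟨2 * (1 / c) * C1, ?_, fun k hk x hx w w' h b z hz => ?_⟩
  · have : 1 ≤ 1 / c := (one_le_div hc).2 hc1
    nlinarith
  have hk0 : (0 : ℝ) < k := by
    have : 0 < k := by omega
    exact_mod_cast this
  have hk1 : (1 : ℝ) ≤ k := by exact_mod_cast (by omega : 1 ≤ k)
  have hn : (0 : ℝ) < ((k - 1 : ℕ) : ℝ) := by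
    have : 0 < k - 1 := by omega
    exact_mod_cast this
  have hn2 : (k : ℝ) ≤ 2 * ((k - 1 : ℕ) : ℝ) := by
    have : k ≤ 2 * (k - 1) := by omega
    exact_mod_cast this
  have hq : (0 : ℝ) < ((k : ℝ) ^ 10)⁻¹ := by positivity
  have hB : 0 ≤ C1 * Real.exp (8 / 3 * MM w w') := by positivity
  have hS := H2 (k - 1) x (by omega) hx
  obtain ⟨z1, z2⟩ := abs_lt.1 hz
  refine ⟨hS.fld_d hq.le (fun b z g1 g2 => (H1 w w' h b z (abs_lt.2 ⟨g1, g2⟩)).1) b z z1 z2, ?_⟩
  have h2 := hS.fld_min (q := ((k : ℝ) ^ 10)⁻¹) (L := 33 / 8 * Real.log k)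
    (B := C1 * Real.exp (8 / 3 * MM w w')) hq (nq_le hk) hB (β := be w w')
    (fun b z g1 g2 => (H1 w w' h b z (abs_lt.2 ⟨g1, g2⟩)).2) b z z1 z2
  refine h2.trans (mul_le_mul_of_nonneg_right ?_ (mn_nonneg _ _))
  have h3 : C1 * Real.exp (8 / 3 * MM w w') / ((k - 1 : ℕ) : ℝ) ≤
      2 * C1 * (Real.exp (8 / 3 * MM w w') / k) := by
    rw [mul_div_assoc', div_le_div_iff₀ hn hk0]
    have h4 := Real.exp_pos (8 / 3 * MM w w')
    have h5 : 0 < C1 := by linarith
    calc C1 * Real.exp (8 / 3 * MM w w') * k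
        ≤ C1 * Real.exp (8 / 3 * MM w w') * (2 * ((k - 1 : ℕ) : ℝ)) :=
          mul_le_mul_of_nonneg_left hn2 hB
      _ = _ := by ring
  calc 1 / c * (C1 * Real.exp (8 / 3 * MM w w') / ((k - 1 : ℕ) : ℝ))
      ≤ 1 / c * (2 * C1 * (Real.exp (8 / 3 * MM w w') / k)) :=
        mul_le_mul_of_nonneg_left h3 (by positivity)
    _ = _ := by ring

end PLT.RT

end
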