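import Pool.Agent.PLT.FibI
import Pool.Agent.PLT.TRG0
import Pool.Agent.PHK.TRsM6
import Pool.Agent.PHK.TRsN6
import Pool.Agent.PHK.FNeq6

/-!
# (S-TR), row STR.N: the hypotheses of the mean statement over any rows on the imaginary axis

Twin of `PHK/TRsN6` for `m` rows `x` on the imaginary axis (`AxR x`, heights at most `1`), half quanta `wa t`,
`wb t` on `5/4 l`, legs at `zt t`, parameters of `m` rows, any constants `c` of one modulus, any string cutoff `g0`,
curves as data (`CrsB`).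

* `XgI q x t` (field over `rowsD x`, regularisation `q`), `LgI`, `lgI`, `EgI`: the data;
* `sea_I`, `fld_I`, `eL_I`, `iE_I`;
* **`mean_I`**: `MeanH6` for every complex `s`, every `t`; no `k` large.
-/

set_option autoImplicit false
set_option linter.unusedSectionVars false

noncomputable section

open Complex MeasureTheory Finset
open scoped ENNReal
open PLX (Fil)

namespace PLT.SN

open NUO NUP1 NUP1S NUP1S.Ab NUP1S.AbC NUGC NUGC.PLX PBF PBF.PLX PBU PBU.PLX PBFunc PBFunc.PLX PBTV.PLX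
open PHK
open PLT.RT (AxR rowsD seaR_axis fldR SeaR)
open _root_.Pool.Agent.PLX (yq rwq)

variable [Fil]

/-- the field over the rows, regularisation `q` -/
def XgI (q : ℝ) {m : ℕ} (x : Fin m → ℂ) (t : ℝ × ℝ) : Bool → ℂ → ℂ := fun b z =>
  (Fil.b b : ℂ)⁻¹ * fldR (rowsD x) q (PBT3.be (wa t) (wb t)) b z

/-- log derivative of the one body function -/
def LgI (ep : ℝ) {m : ℕ} (x : Fin m → ℂ) (t : ℝ × ℝ) : Bool → ℂ → ℂ := fun b =>
  PBLZ.PLX.LZX b (4 / 3 * (1 - ep)) x [I, -I] (PBT3.zt t)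

/-- force of the legs and of the cutoff -/
def lgI (ep : ℝ) {m : ℕ} (x : Fin m → ℂ) (t : ℝ × ℝ) : Bool → ℂ → ℂ := fun b z =>
  PBEI.h00 (z - PBQ1.hr (PBT3.zt t)) +
    PBLZ.PLX.cutI (4 / 3 * (1 - ep)) (List.ofFn (rwq x b) ++ [I, -I]) z

/-- error of the regularisation -/
def EgI (q : ℝ) {m : ℕ} (x : Fin m → ℂ) (t : ℝ × ℝ) : Bool → ℂ → ℂ := fun b z =>
  Dv t b none (NUP1.l + I * z) - PB.rsp (PB.mulF2 (rowsD x) (XgI q x t)) b z

section one

variable {m : ℕ} {x : Fin m → ℂ}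

/-- the density -/
theorem sea_I (hm : 0 < m) (hx : AxR x) : PB.SeaF (NUP1.l / 5) (rowsD x) := by
  have hl := Bd.l_pos
  obtain ⟨c, C, -, -, -, H⟩ := seaR_axis (b1 := NUP1.l / 5) (by positivity) (by
    show NUP1.l / 5 < NUP1.l
    linarith)
  exact (H m x hm hx).seaF

theorem g5_I (t : ℝ × ℝ) : PBT3.G5 (wa t) (wb t) := ⟨PBT3.wt_re _, PBT3.wt_re _⟩

/-- the field without the multiplicity -/
theorem fld_I0 (hm : 0 < m) (hx : AxR x) {q : ℝ} (hq : 0 < q) (t : ℝ × ℝ) :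
    PB.FldF (NUP1.l / 5) (fldR (rowsD x) q (PBT3.be (wa t) (wb t))) := by
  have hl : 0 < NUMF.l := NUMF.l_pos
  have h := g5_I t
  have hC := PBT3.Cst_nonneg (y1 := -(NUMF.l / 5)) (y2 := NUMF.l / 5) (by linarith) (by linarith)
    (by linarith)
  obtain ⟨c, C, -, -, -, H⟩ := seaR_axis (b1 := NUP1.l / 5) (by
    show 0 < NUMF.l / 5
    positivity) (by
    show NUMF.l / 5 < NUMF.l
    linarith)
  refine (H m x hm hx).fldF (B := PBT3.Cst (-(NUMF.l / 5)) (NUMF.l / 5) *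
    Real.exp (8 / 3 * PBT3.MM (wa t) (wb t))) hq (by positivity) (PBTs.PLX.be_diff h) fun b z hz => ?_
  refine (PBTs.PLX.be_strip h b z hz).trans (mul_le_of_le_one_right (by positivity) ?_)
  rw [Real.exp_le_one_iff]
  have := abs_nonneg z.re
  linarith

/-- the field over the multiplicity -/
theorem fldF_invI {b1 : ℝ} {X : Bool → ℂ → ℂ} (h : PB.FldF b1 X) :
    PB.FldF b1 fun b z => (Fil.b b : ℂ)⁻¹ * X b z where
  d b z hz := (h.d b z hz).const_mul _
  bd := by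
    obtain ⟨B, hB, hb⟩ := h.bd
    refine ⟨B, hB, fun b z hz => ?_⟩
    rw [norm_mul, norm_inv, Complex.norm_real, Real.norm_of_nonneg (Fil.b_nonneg b)]
    have h1 := Fil.inv_b_le b
    have h2 := (Fil.inv_b_pos b).le
    calc (Fil.b b)⁻¹ * ‖X b z‖ ≤ 1 * B := mul_le_mul h1 (hb b z hz) (norm_nonneg _) zero_le_one
      _ = B := one_mul B

/-- the field -/
theorem fld_I (hm : 0 < m) (hx : AxR x) {q : ℝ} (hq : 0 < q) (t : ℝ × ℝ) :
    PB.FldF (NUP1.l / 5) (XgI q x t) := fldF_invI (fld_I0 hm hx hq t)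

/-- density times field -/
theorem mulF2_I (q : ℝ) (x : Fin m → ℂ) (t : ℝ × ℝ) : PB.mulF2 (rowsD x) (XgI q x t) =
    PB.mulF (rowsD x) (fldR (rowsD x) q (PBT3.be (wa t) (wb t))) := by
  funext b z
  have h := Fil.b_ne_c b
  unfold PB.mulF2 PB.mulF XgI
  field_simp

/-- the rows of the density -/
theorem rhoH_I (x : Fin m → ℂ) : PBLZ.PLX.rhoH x = rowsD x := by
  funext z
  unfold PBLZ.PLX.rhoH rowsD PBQ1.hr
  refine Finset.sum_congr rfl fun i _ => ?_
  rw [sub_neg_eq_add]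

/-- **the splitting of the force** -/
theorem eL_I (ep : ℝ) (hx : AxR x) (t : ℝ × ℝ) (b : Bool) {z : ℂ} (hz : |z.im| < NUP1.l / 5) :
    I * LgI ep x t b (NUP1.l + I * z) - PB.kp2 (rowsD x) b z = lgI ep x t b z := by
  have hl := Bd.l_pos
  obtain ⟨z1, z2⟩ := abs_lt.1 hz
  have h1 : ∀ i : Fin m, |(z - PBQ1.hr (x i)).im| < NUP1.l := by
    intro i
    rw [sub_im, PBQ1.hr_im, (hx i).1, neg_zero, sub_zero]
    linarith [abs_lt.2 ⟨z1, z2⟩]
  have h2 : |(z - PBQ1.hr (PBT3.zt t)).im| < NUP1.l := by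
    rw [sub_im, PBQ1.hr_im, PBT3.zt_re, abs_lt]
    have e : NUMF.l = NUP1.l := rfl
    constructor <;> linarith
  have key := PBLZ.PLX.I_LZX b (x := x) (p := PBT3.zt t) (4 / 3 * (1 - ep)) [I, -I] h1 h2
  unfold LgI lgI
  rw [key, rhoH_I]
  ring

/-- the response of the regularised field is integrable against the density -/
theorem iE_I (hm : 0 < m) (hx : AxR x) {q : ℝ} (hq : 0 < q) (t : ℝ × ℝ) (b : Bool) :
    Integrable fun s : ℝ => rowsD x s * EgI q x t b s := by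
  have hl := Bd.l_pos
  have hL := int_line2 (sea_I hm hx) (fld_I hm hx hq t) (by linarith) b
  have h1 : Integrable fun s : ℝ => rowsD x s * PB.cV (deriv (PB.mulF2 (rowsD x) (XgI q x t) b)) s +
      rowsD x s * PB.cG (fun w => PB.mulF2 (rowsD x) (XgI q x t) b w -
        PB.mulF2 (rowsD x) (XgI q x t) (!b) w) s :=
    hL.2.2.1.add hL.2.2.2
  obtain ⟨C, -, h⟩ := PBTs.PLX.DT_le
  have H := fun s : ℝ => h (wa t) (wb t) (Mv t) (PBT3.wt_re _) (PBT3.wt_re _) (by
    unfold wa Mv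
    rw [PBT3.wt_im]
    exact le_max_left _ _) (by
    unfold wb Mv
    rw [PBT3.wt_im]
    exact le_max_right _ _) b none (NUP1.l + I * s) (by
      show 3 / 5 * NUP1.l ≤ _ ∧ _ ≤ 6 / 5 * NUP1.l
      simp
      constructor <;> linarith)
  have hm2 : Measurable fun s : ℝ => PBTs.PLX.DT (wa t) (wb t) b none (NUP1.l + I * s) :=
    (PBTs.PLX.measurable_DT (wa t) (wb t) b none).comp (by fun_prop)
  have h2 : Integrable fun s : ℝ => rowsD x s * PBTs.PLX.DT (wa t) (wb t) b none (NUP1.l + I * s) :=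
    hL.1.mul_bdd hm2.aestronglyMeasurable (Filter.Eventually.of_forall H)
  refine (h2.add h1).congr (Filter.Eventually.of_forall fun s => ?_)
  simp only [Pi.add_apply]
  unfold EgI PB.rsp Dv
  ring

end one

/-- **the hypotheses of the mean statement**, rows on the imaginary axis, every complex `s` -/
theorem mean_I {ep : ℝ} (hep : 0 < ep) (hep1 : ep ≤ 1 / 100) {η η' : Crs} (hC : FI.CrsB ep η η')
    {m : ℕ} {x : Fin m → ℂ} (hm : 0 < m) (hx : AxR x) {c : Bool → ℂ} {c0 : ℝ} (hc : ∀ a, ‖c a‖ = c0)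
    {g0 : Bool → ℂ → ℂ} (hg : ∀ a, Measurable (g0 a)) {q : ℝ} (hq : 0 < q) (t : ℝ × ℝ) (s : ℂ) :
    MeanH6 (ZQ6 c g0 (4 / 3 * (1 - ep)) x (fun _ => [I, -I]) (PBT3.zt t)) (Dv t) par6 η η'
      (-(dN (2 * m) : ℤ)) s (ep / 4) (2 * (4 / 3 * (1 - ep))) (NUP1.l / 5) (rowsD x) (XgI q x t)
      (LgI ep x t) (D1v t) (EgI q x t) (lgI ep x t) (LPo6 par6)
      (fun r O b z => I * LPo6 par6 r O b (NUP1.l + I * z)) := by
  have hl := Bd.l_pos
  have hl1 : NUP1.l ≤ 1 := by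
    unfold NUP1.l
    linarith [Real.pi_le_four]
  have hF : FibN6 (2 * m) (fun _ => PBFX.PLX.ZXL c g0 (4 / 3 * (1 - ep)) x [I, -I] (PBT3.zt t))
      (fun _ => par6) (fun _ => η) (fun _ => η') (ep / 4) 0 (ep * NUP1.l / 4) (NUP1.l / 5)
      (fun _ => 2 * (4 / 3 * (1 - ep))) (fun _ u => PBLZ.PLX.LZX u (4 / 3 * (1 - ep)) x [I, -I] (PBT3.zt t))
      (fun _ => LPo6 par6) (rowsD x) := by
    refine FI.fibN6_XXI hep hep1 hC hm (fun i => (hx i).1) (fun w hw => ?_) ?_ hc hg le_rfl ?_ ?_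
      (sea_I hm hx) (fun _ => by linarith) (fun _ => le_rfl) (dN_two m)
    · simp only [List.mem_cons, List.not_mem_nil, or_false] at hw
      rcases hw with rfl | rfl <;> simp
    · rw [PBT3.zt_re, abs_neg, abs_of_nonneg (by
        show 0 ≤ NUP1.l / 4
        positivity)]
      show NUP1.l / 4 ≤ NUP1.l / 2
      linarith
    · nlinarith
    · linarith
  obtain ⟨C, hC0, hD⟩ := PBTs.PLX.DT_DOk
  have hDk : DOk6 (Dv t) (D1v t) (ep / 4) (C * (1 + Mv t)) := by
    refine DOk6.of (hD (wa t) (wb t) (Mv t) (PBT3.wt_re _) (PBT3.wt_re _) ?_ ?_ (ep / 4) (by linarith))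
      (by linarith)
    · unfold wa Mv
      rw [PBT3.wt_im]
      exact le_max_left _ _
    · unfold wb Mv
      rw [PBT3.wt_im]
      exact le_max_right _ _
  exact {
    hQ := (hF.hQ 0 (Nat.zero_le _)).expZ hDk s
    hS := hF.hS 0 (Nat.zero_le _)
    crv := hF.crv 0 (Nat.zero_le _)
    hL := (hF.hL 0 (Nat.zero_le _)).expZ hDk s
    b0 := by nlinarith
    bl := by linarith
    sea := sea_I hm hx
    fld := fld_I hm hx hq t
    eR := fun b z _ => by
      unfold EgI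
      ring
    eL := fun b z hz => eL_I ep hx t b hz
    eP := fun r O b z _ => rfl
    iE := fun b => iE_I hm hx hq t b
    mP := fun r b => meas_LPo26 par6 r b }

end PLT.SN

end
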