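import Pool.Agent.PLT.MomI2
import Pool.Agent.PHK.Mom4F6
import Pool.Agent.PHK.QRepU6

/-!
# Products of four statistics and the quadratic statistic at ONE index, any straight curve, any density

`PHK/Mom4F6` and `PHK/QRepU6` over `UBI` (`PLT/MomI`).

* **`momqI`**, **`mom4I`**: products of `q ≤ p` linear statistics (`PBQM.PLX.Mom4`), no measurability of the test
  functions; the curves lie in `(y₁, y₂)`;
* `twoI`: products of two statistics; **`quadI`**: the quadratic statistic of a field.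
-/

set_option autoImplicit false
set_option linter.unusedSectionVars false
set_option linter.unusedVariables false

noncomputable section

open Complex MeasureTheory Finset
open scoped ENNReal
open PLX (Fil)

namespace PLT.MI

open NUO NUP1 NUP1S NUP1S.Ab NUP1S.AbC NUGC NUGC.PLX PBF PBF.PLX PBP PBP.PLX PBU PBU.PLX PBFunc PBFunc.PLX
open PBQM.PLX (Mom4 BB)
open PHK

attribute [local instance] NUSea.seaP

variable [Fil] {Z : Bool → Option O3 → ℂ → ℂ} {P : Par6} {c : ℂ} {N : ℕ} {η η' : Crs}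
variable {e1 K y₁ y₂ b : ℝ} {m p : ℕ} {ρ : ℂ → ℂ}

/-- **products of `q ≤ p` linear statistics**, no measurability of the test functions -/
theorem momqI (h : UBI Z P c N η η' e1 m p K y₁ y₂ b fun t => ρ t) (hMC : MC6 Z P η η')
    (hcr : MCr η η') {q : ℕ} (hq : q ≤ p) (hK : 1 ≤ K) (h1 : y₁ < 0) (h2 : 0 < y₂)
    (hη : ∀ r (O : Fin r → Xo) t, y₁ < η r O t ∧ η r O t < y₂)
    (hρm : Measurable fun u : ℝ => ρ u)
    {M : Fin q → ℝ} {g : Fin q → Bool → ℂ → ℂ} (hM : ∀ j, 0 ≤ M j)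
    (hg : ∀ j s, BC y₁ y₂ (M j) (g j s)) :
    ∫⁻ ω, ‖wI Z P c N η η' ω‖ₑ * ∏ j, ‖VN6 N (fun _ => η) ρ (g j) ω‖ₑ ∂(mN6 N) ≤
      ENNReal.ofReal ((∏ j, M j) * b) := by
  have hmeas : ∀ j, MIn (Vy 0 η ρ (ctS y₁ y₂ (g j))) := fun j =>
    MIn_vy (η' := η') hcr hρm fun s => ctS_meas (hg j s)
  have e0 : ∀ ω : CfN6 N, ∏ j, ‖VN6 N (fun _ => η) ρ (g j) ω‖ₑ =
      ‖evN6 (fun _ r O a b x => ∏ j, Vy 0 η ρ (ctS y₁ y₂ (g j)) r O a b x) ω‖ₑ := by
    intro ω
    have hV : ∀ j, VN6 N (fun _ => η) ρ (g j) ω =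
        Vy 0 η ρ (ctS y₁ y₂ (g j)) ω.2.1.1 ω.2.2.1 ω.2.1.2.1 ω.2.1.2.2 ω.2.2.2 :=
      fun j => Vy_congr h1 h2 (fun s z hz => (ctS_eq (g j) s hz).symm) hη _ _ _ _ _
    simp only [hV]
    show _ = ‖∏ j, Vy 0 η ρ (ctS y₁ y₂ (g j)) ω.2.1.1 ω.2.2.1 ω.2.1.2.1 ω.2.1.2.2
      ω.2.2.2‖ₑ
    rw [← ofReal_norm, norm_prod, ENNReal.ofReal_prod_of_nonneg fun j _ => norm_nonneg _]
    simp only [ofReal_norm]
  simp only [e0]
  have key : ∀ δ : ℝ, 0 < δ →
      ∫⁻ ω, ‖wI Z P c N η η' ω‖ₑ *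
        ‖evN6 (fun _ r O a b x => ∏ j, Vy 0 η ρ (ctS y₁ y₂ (g j)) r O a b x) ω‖ₑ
        ∂(mN6 N) ≤ ENNReal.ofReal ((∏ j, (M j + δ)) * b) := by
    intro δ hδ
    have h3 := h.l1 hMC hq (M := fun j => M j + δ)
      (fun j => add_pos_of_nonneg_of_pos (hM j) hδ)
      (g := fun _ _ j s => ctS y₁ y₂ (g j) s)
      (fun _ _ j s => (ctS_BC (hg j s)).mono (by linarith)) zero_le_one (w := fun _ _ => 1)
      (OWC.one hK m) (Ψ := fun _ r O a b x => ∏ j, Vy 0 η ρ (ctS y₁ y₂ (g j)) r O a b x)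
      (fun _ _ => MIn.prod hmeas) (fun n _ r O a b x => by
        rw [one_mul, norm_prod])
    unfold L1 at h3
    rw [one_mul] at h3
    refine le_trans (le_of_eq ?_) h3
    refine lintegral_congr fun ω => ?_
    rw [ENNReal.ofReal_mul (norm_nonneg _), ofReal_norm, ofReal_norm]
  have ht : Filter.Tendsto (fun δ : ℝ => ENNReal.ofReal ((∏ j, (M j + δ)) * b))
      (nhdsWithin 0 (Set.Ioi 0)) (nhds (ENNReal.ofReal ((∏ j, (M j + 0)) * b))) := by
    refine ENNReal.tendsto_ofReal (Filter.Tendsto.mono_left ?_ nhdsWithin_le_nhds)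
    exact Continuous.tendsto (by fun_prop) 0
  simp only [add_zero] at ht
  exact ge_of_tendsto ht (Filter.eventually_of_mem self_mem_nhdsWithin fun δ hδ => key δ hδ)

/-- **`Mom4` of the linear statistics** -/
theorem mom4I (h : UBI Z P c N η η' e1 m p K y₁ y₂ b fun t => ρ t) (hMC : MC6 Z P η η')
    (hcr : MCr η η') (hp : 4 ≤ p) (hK : 1 ≤ K) (h1 : y₁ < 0) (h2 : 0 < y₂)
    (hη : ∀ r (O : Fin r → Xo) t, y₁ < η r O t ∧ η r O t < y₂)
    (hρm : Measurable fun u : ℝ => ρ u) :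
    Mom4 (mN6 N) (wI Z P c N η η') (VN6 N (fun _ => η) ρ) y₁ y₂ b :=
  fun M g hM hg => momqI h hMC hcr hp hK h1 h2 hη hρm hM fun j s => ⟨(hg j s).1, (hg j s).2⟩

/-- products of two statistics -/
theorem twoI (h : UBI Z P c N η η' e1 m p K y₁ y₂ b fun t => ρ t) (hMC : MC6 Z P η η')
    (hcr : MCr η η') (hp : 2 ≤ p) (hK : 1 ≤ K) (hρm : Measurable fun u : ℝ => ρ u)
    {M M' : ℝ} (hM : 0 < M) (hM' : 0 < M') {g g' : Bool → ℂ → ℂ} (mg : ∀ b, Measurable (g b))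
    (mg' : ∀ b, Measurable (g' b)) (hg : ∀ s, BC y₁ y₂ M (g s)) (hg' : ∀ s, BC y₁ y₂ M' (g' s)) :
    ∫⁻ x, ‖wI Z P c N η η' x‖ₑ * (‖evN6 (fun _ => Vst η ρ g) x‖ₑ *
      ‖evN6 (fun _ => Vst η ρ g') x‖ₑ) ∂(mN6 N) ≤ ENNReal.ofReal (M * M' * b) := by
  have h3 := h.l1 hMC hp (M := ![M, M']) (by
      intro j
      fin_cases j
      · exact hM
      · exact hM')
    (g := fun _ _ j => (![g, g'] : Fin 2 → Bool → ℂ → ℂ) j) (by
      intro r O j s
      fin_cases j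
      · exact hg s
      · exact hg' s)
    zero_le_one (w := fun _ _ => 1) (OWC.one hK m)
    (Ψ := fun _ r O a b x => Vst η ρ g r O a b x * Vst η ρ g' r O a b x)
    (fun n _ => by
      have a1 := MIn_Vst hcr hρm mg
      have a2 := MIn_Vst hcr hρm mg'
      exact fun r a b => (a1 r a b).mul (a2 r a b))
    (fun n _ r O a b x => by
      rw [one_mul, Fin.prod_univ_two, norm_mul, Vst_eqI, Vst_eqI]
      exact le_rfl)
  have h4 := L1_enorm h3
  rw [Fin.prod_univ_two, one_mul] at h4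
  refine le_trans (le_of_eq ?_) h4
  refine lintegral_congr fun x => ?_
  rw [← enorm_mul]
  rfl

/-- **the quadratic term**; the constant depends on the strips only -/
theorem quadI {y0 y1 b1 : ℝ} (hY : PB.YOk y0 y1 b1) (hy0 : 0 < y0) :
    ∃ C : ℝ, 0 < C ∧ ∀ {Z : Bool → Option O3 → ℂ → ℂ} {P : Par6} {c : ℂ} {N : ℕ} {η η' : Crs}
      {e1 K b : ℝ} {m p : ℕ} {ρ : ℂ → ℂ},
      UBI Z P c N η η' e1 m p K (-y0) y0 b (fun t => ρ t) → MC6 Z P η η' → MCr η η' → 2 ≤ p →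
      1 ≤ K → (∀ r (O : Fin r → Xo) t, |η r O t| ≤ y0) → 0 ≤ b →
      Integrable (fun u : ℝ => ρ u) → Measurable (fun u : ℝ => ρ u) →
      ∀ (S L : ℝ) (X : Bool → ℂ → ℂ), 0 < S → 0 ≤ L → PB.XBd b1 S L X →
        ∫⁻ x, ‖wI Z P c N η η' x‖ₑ * ‖evN6 (fun _ => Qst η ρ X) x‖ₑ ∂(mN6 N) ≤
        ENNReal.ofReal (C * S * (1 + L) * b) := by
  obtain ⟨C1, hC1, hA⟩ := PB.QA_le hY
  have hr := NUMF.r_pos
  set cB := PBV.cE 1 (y1 - y0) with hcB
  have hθ : 0 < y1 - y0 := by linarith [hY.h01]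
  have hcB0 : 0 < cB := by
    refine PBV.cE_pos one_pos hθ ?_
    have := hY.pi
    have := hY.h0
    linarith
  set g1 := 1 + 2 / NUMF.r with hg1
  have hg10 : 0 < g1 := by positivity
  refine ⟨2 * g1 + 32 * (C1 + 1) * cB, by positivity, ?_⟩
  intro Z P c N η η' e1 K b m p ρ h hMC hmc hp hK hη hT0 hρi hρm S L X hS hL hX
  have hl : y0 ≤ NUMF.l := by
    have h1 := hY.h01
    have h2 := hY.h1
    have h3 := hY.hl
    have h4 := hY.h0
    linarith
  have hXm := hX.m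
  have mf : ∀ b, Measurable (PB.fX X b) := fun b => by
    unfold PB.fX
    exact (hXm b).const_mul _
  have mg : ∀ b, Measurable (PB.gT2 b) := fun b => by
    unfold PB.gT2
    exact PBV.tgh_measurable.const_mul _
  have mw : Measurable (wI Z P c N η η') := wN_meas6 fun _ _ => hMC
  -- the superposition
  have mA : Measurable fun p : PB.QI4 × CfN6 N =>
      evN6 (fun _ => Vst η ρ (PB.QA X y1 p.1)) p.2 :=
    evN_meas_s6 (Ψ := fun q _ => Vst η ρ (PB.QA X y1 q)) fun _ _ =>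
      MIs_Vst hmc hρm fun b => PB.QA_measurable hXm y1 b
  have mB : Measurable fun p : PB.QI4 × CfN6 N =>
      evN6 (fun _ => Vst η ρ (PB.QB y1 p.1)) p.2 :=
    evN_meas_s6 (Ψ := fun q _ => Vst η ρ (PB.QB y1 q)) fun _ _ =>
      MIs_Vst hmc hρm fun b => PB.QB_measurable y1 b
  have key : ∀ x : CfN6 N, ‖evN6 (fun _ => Qst η ρ X) x‖ₑ ≤
      ‖evN6 (fun _ => Vst η ρ (PB.fX X)) x‖ₑ * ‖evN6 (fun _ => Vst η ρ PB.gT2) x‖ₑ +
      ∫⁻ q, ‖evN6 (fun _ => Vst η ρ (PB.QA X y1 q)) x‖ₑ *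
        ‖evN6 (fun _ => Vst η ρ (PB.QB y1 q)) x‖ₑ ∂PB.qm := fun x =>
    enorm_Qst_le hY hS.le hL hX hρi hρm (fun r O t => hη r O t) _ _ _ _ _
  have t1 := twoI h hMC hmc hp hK hρm (M := 2 * S) (M' := g1) (by positivity) hg10
    (g := PB.fX X) (g' := PB.gT2) mf mg
    (fun s => BC_fX hY hS.le hX s) (fun s => BC_gT2 hl s)
  have t2 : ∀ q : PB.QI4, ∫⁻ x, ‖wI Z P c N η η' x‖ₑ *
      (‖evN6 (fun _ => Vst η ρ (PB.QA X y1 q)) x‖ₑ *
        ‖evN6 (fun _ => Vst η ρ (PB.QB y1 q)) x‖ₑ) ∂(mN6 N) ≤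
      ENNReal.ofReal ((C1 + 1) * S * cB * b) * ENNReal.ofReal (PB.WL L q.2.2) := by
    intro q
    have hW := PB.WL_pos L q.2.2
    have mQA : ∀ b, Measurable (PB.QA X y1 q b) := fun b =>
      (PB.QA_measurable hXm y1 b).comp (measurable_const.prodMk measurable_id)
    have mQB : ∀ b, Measurable (PB.QB y1 q b) := fun b =>
      (PB.QB_measurable y1 b).comp (measurable_const.prodMk measurable_id)
    refine (twoI h hMC hmc hp hK hρm (M := (C1 + 1) * S * PB.WL L q.2.2) (M' := cB) (by positivity)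
      hcB0 (g := PB.QA X y1 q) (g' := PB.QB y1 q) mQA mQB (fun s => ?_)
      (fun s => ?_)).trans (le_of_eq ?_)
    · refine ⟨fun z hz => ?_, fun z hz => ?_⟩
      · have h1 : |z.im| < b1 := (abs_lt.2 ⟨hz.1, hz.2⟩).trans (hY.h01.trans hY.h1)
        exact (PB.QA_diff hY hS.le hX q s h1).differentiableWithinAt
      · have h1 : |z.im| ≤ y1 := (abs_lt.2 ⟨hz.1, hz.2⟩).le.trans hY.h01.le
        refine (hA S L X hS.le hX q s z h1).trans ?_
        unfold PB.qa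
        have : C1 ≤ C1 + 1 := by linarith
        gcongr
    · refine ⟨(PB.QB_diff hY q s).mono fun z hz => ?_, fun z hz => ?_⟩
      · exact ⟨by linarith [hz.1, hY.h01], by linarith [hz.2, hY.h01]⟩
      · exact PB.QB_le hY q s (abs_lt.2 ⟨hz.1, hz.2⟩).le
    · rw [← ENNReal.ofReal_mul (by positivity)]
      congr 1
      ring
  have hWi := PB.WL_int hL
  have t0 : ∫⁻ s : ℝ, ENNReal.ofReal (PB.WL L s) = ENNReal.ofReal (2 * L + 4) := by
    rw [← ofReal_integral_eq_lintegral_ofReal hWi.1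
        (Filter.Eventually.of_forall fun x => (PB.WL_pos L x).le), hWi.2]
  have t3 : ∫⁻ q : PB.QI4, ENNReal.ofReal (PB.WL L q.2.2) ∂PB.qm =
      8 * ENNReal.ofReal (2 * L + 4) := by
    rw [PB.lintegral_qm]
    have e1 : ∫⁻ q : Bool × ℝ, ENNReal.ofReal (PB.WL L q.2) ∂PBV.wm =
        2 * ENNReal.ofReal (2 * L + 4) := by
      rw [PB.lintegral_wm, t0]
      exact (two_mul _).symm
    simp only [e1]
    rw [Finset.sum_const, Finset.card_univ, Fintype.card_prod, Fintype.card_bool, nsmul_eq_mul,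
      ← mul_assoc]
    norm_num
  calc ∫⁻ x, ‖wI Z P c N η η' x‖ₑ * ‖evN6 (fun _ => Qst η ρ X) x‖ₑ ∂(mN6 N)
      ≤ ∫⁻ x, (‖wI Z P c N η η' x‖ₑ * (‖evN6 (fun _ => Vst η ρ (PB.fX X)) x‖ₑ *
          ‖evN6 (fun _ => Vst η ρ PB.gT2) x‖ₑ) +
        ∫⁻ q, ‖wI Z P c N η η' x‖ₑ * (‖evN6 (fun _ => Vst η ρ (PB.QA X y1 q)) x‖ₑ *
        ‖evN6 (fun _ => Vst η ρ (PB.QB y1 q)) x‖ₑ) ∂PB.qm) ∂(mN6 N) := by
        refine lintegral_mono fun x => ?_
        rw [lintegral_const_mul']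
        · rw [← mul_add]
          exact mul_le_mul' le_rfl (key x)
        · exact enorm_ne_top
    _ = ∫⁻ x, ‖wI Z P c N η η' x‖ₑ * (‖evN6 (fun _ => Vst η ρ (PB.fX X)) x‖ₑ *
          ‖evN6 (fun _ => Vst η ρ PB.gT2) x‖ₑ) ∂(mN6 N) +
        ∫⁻ x, ∫⁻ q, ‖wI Z P c N η η' x‖ₑ *
          (‖evN6 (fun _ => Vst η ρ (PB.QA X y1 q)) x‖ₑ *
          ‖evN6 (fun _ => Vst η ρ (PB.QB y1 q)) x‖ₑ) ∂PB.qm ∂(mN6 N) := by
        refine lintegral_add_left (mw.enorm.mul ?_) _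
        exact (evN_meas6 fun _ _ => MIn_Vst hmc hρm mf).enorm.mul
          (evN_meas6 fun _ _ => MIn_Vst hmc hρm mg).enorm
    _ ≤ ENNReal.ofReal (2 * S * g1 * b) + ENNReal.ofReal ((C1 + 1) * S * cB * b) *
          (8 * ENNReal.ofReal (2 * L + 4)) := by
        refine add_le_add t1 ?_
        rw [lintegral_lintegral_swap]
        · calc ∫⁻ q, ∫⁻ x, ‖wI Z P c N η η' x‖ₑ *
                (‖evN6 (fun _ => Vst η ρ (PB.QA X y1 q)) x‖ₑ *
                ‖evN6 (fun _ => Vst η ρ (PB.QB y1 q)) x‖ₑ) ∂(mN6 N) ∂PB.qm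
              ≤ ∫⁻ q, ENNReal.ofReal ((C1 + 1) * S * cB * b) * ENNReal.ofReal (PB.WL L q.2.2) ∂PB.qm :=
                lintegral_mono t2
            _ = _ := by
                rw [lintegral_const_mul' _ _ ENNReal.ofReal_ne_top, t3]
        · refine Measurable.aemeasurable ?_
          have mA' := (mA.comp (measurable_snd.prodMk measurable_fst :
            Measurable fun p : CfN6 N × PB.QI4 => (p.2, p.1))).enorm
          have mB' := (mB.comp (measurable_snd.prodMk measurable_fst :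
            Measurable fun p : CfN6 N × PB.QI4 => (p.2, p.1))).enorm
          exact (mw.comp measurable_fst).enorm.mul (mA'.mul mB')
    _ ≤ ENNReal.ofReal ((2 * g1 + 32 * (C1 + 1) * cB) * S * (1 + L) * b) := by
        have e8 : (8 : ℝ≥0∞) = ENNReal.ofReal 8 := by norm_num
        rw [e8, ← ENNReal.ofReal_mul (by norm_num), ← ENNReal.ofReal_mul (by positivity),
          ← ENNReal.ofReal_add (by positivity) (by positivity)]
        refine ENNReal.ofReal_le_ofReal ?_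
        have h1 : 0 ≤ 2 * g1 * S * b * L := by positivity
        have h2 : 0 ≤ (C1 + 1) * S * cB * b * L := by positivity
        nlinarith

end PLT.MI

end
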