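import Pool.Agent.PLX.PB.TRsGE
import Pool.Agent.PLT.TRP

/-!
# Row R of the directions: the error of the regularised field over any sea

Twin of `PLX/PB/TRsGE`: `E z = DT w w' b none (l + i z) - rsp (ρ * fldR ρ q β) b z`, `β = be w w'`,
`q = k⁻¹⁰`, `ρ` a sea of mass `n`, `k / 2 ≤ n ≤ k` (`SeaR (-l/5) (l/5) c C n ρ`).

* `rspR_hol`: the response of `ρ * fldR ρ q β` is analytic;
* **`E_bdR`**: `E` is analytic and `‖E z‖ ≤ C (e^{8/3 M} / k) (1 + log k)` for `|Im z| < l / 10`,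
  `C` depends on `c` only.
-/

set_option autoImplicit false
set_option linter.unusedSectionVars false

noncomputable section

open MeasureTheory Set Filter Topology

namespace PLT.RT

open NUMF (Pc l)
open PB (SeaF FldF mulF rsp cV cG)
open PBT3 (be be_le be_hd Cst Cst_nonneg MM MM_nonneg G5 St Dl rsp_Dl exp_split BB)
open PBTs.PLX (lpos rsp_holS measurable_be St_of be_strip be_diff DT DT_Dl)

/-- the response of the regularised field is analytic -/
theorem rspR_hol {w w' : ℂ} (h : G5 w w') {c C n q : ℝ} {ρ : ℂ → ℂ} (hρ : SeaR (-(l / 5)) (l / 5) c C n ρ)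
    (hq : 0 < q) (b : Bool) {z : ℂ} (hz : |z.im| < l / 10) :
    DifferentiableAt ℂ (rsp (mulF ρ (fldR ρ q (be w w'))) b) z := by
  have hl := lpos
  have hC := Cst_nonneg (y1 := -(l / 5)) (y2 := l / 5) (by linarith) (by linarith) (by linarith)
  have hX : FldF (l / 5) (fldR ρ q (be w w')) := by
    refine hρ.fldF (B := Cst (-(l / 5)) (l / 5) * Real.exp (8 / 3 * MM w w')) hq (by positivity)
      (be_diff h) fun b z hz => ?_
    refine (be_strip h b z hz).trans (mul_le_of_le_one_right (by positivity) ?_)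
    rw [Real.exp_le_one_iff]
    have := abs_nonneg z.re
    linarith
  obtain ⟨A, c, hA, hc, hb⟩ := PB.mulF_bd hρ.seaF hX
  exact rsp_holS (b0 := l / 10) (b1 := l / 5) (by linarith) hA hc (PB.mulF_d hρ.seaF hX) hb b hz

/-- **the error of the regularised field**, uniform in the sea -/
theorem E_bdR {c : ℝ} (hc : 0 < c) : ∃ C : ℝ, 1 ≤ C ∧ ∀ (C1 n : ℝ) (ρ : ℂ → ℂ),
    SeaR (-(l / 5)) (l / 5) c C1 n ρ → ∀ k : ℕ, 1 ≤ k → (k : ℝ) ≤ 2 * n → n ≤ k →
    ∀ w w' : ℂ, G5 w w' → ∀ b : Bool,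
    (∀ z : ℂ, |z.im| < l / 10 → DifferentiableAt ℂ (fun z => DT w w' b none (l + Complex.I * z) -
      rsp (mulF ρ (fldR ρ (((k : ℝ) ^ 10)⁻¹) (be w w'))) b z) z)
    ∧ ∀ z : ℂ, |z.im| < l / 10 → ‖DT w w' b none (l + Complex.I * z) -
      rsp (mulF ρ (fldR ρ (((k : ℝ) ^ 10)⁻¹) (be w w'))) b z‖ ≤
        C * (Real.exp (8 / 3 * MM w w') / k) * (1 + Real.log k) := by
  have hl := lpos
  obtain ⟨C0, hC0, H⟩ := SeaR.rsp hc (r := l / 10) (by linarith)
  have hC := Cst_nonneg (y1 := -(l / 5)) (y2 := l / 5) (by linarith) (by linarith) (by linarith)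
  refine ⟨10 * C0 * Cst (-(l / 5)) (l / 5) + 1, by
    have : 0 ≤ 10 * C0 * Cst (-(l / 5)) (l / 5) := by positivity
    linarith, ?_⟩
  intro C1 n ρ hρ k hk hkn hnk w w' h b
  have hk1 : (1 : ℝ) ≤ k := by exact_mod_cast hk
  have hk0 : (0 : ℝ) < k := by linarith
  have hn : 0 < n := hρ.n0
  have hq : 0 < ((k : ℝ) ^ 10)⁻¹ := by positivity
  have hlog : 0 ≤ Real.log k := Real.log_nonneg hk1
  have hDT : ∀ z : ℂ, |z.im| < l / 10 → DT w w' b none (l + Complex.I * z) = rsp (be w w') b z := by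
    intro z hz
    rw [rsp_Dl h b (St_of (by linarith))]
    exact DT_Dl w w' b z
  constructor
  · intro z hz
    have h1 : DifferentiableAt ℂ (rsp (be w w') b) z := by
      have hB : 0 ≤ Cst (-(l / 5)) (l / 5) * Real.exp (8 / 3 * MM w w') := by positivity
      exact rsp_holS (b0 := l / 10) (b1 := l / 5) (by linarith) hB (by norm_num : (0 : ℝ) < 8 / 3)
        (be_diff h) (be_strip h) b hz
    have h2 : (fun z => DT w w' b none (l + Complex.I * z)) =ᶠ[𝓝 z] rsp (be w w') b :=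
      (PBTs.ev_strip hz).mono fun z hz => hDT z hz
    exact (h1.congr_of_eventuallyEq h2).sub (rspR_hol h hρ hq b hz)
  · intro z hz
    rw [hDT z hz, norm_sub_rev]
    set M := MM w w' with hM
    have hB : 0 ≤ Cst (-(l / 5)) (l / 5) * Real.exp (8 / 3 * M) := by positivity
    have hL : 0 ≤ 33 / 8 * Real.log k := by positivity
    have hnq : n / ((k : ℝ) ^ 10)⁻¹ ≤ Real.exp (8 / 3 * (33 / 8 * Real.log k)) := by
      have e2 : Real.exp (8 / 3 * (33 / 8 * Real.log k)) = (k : ℝ) ^ 11 := by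
        rw [show 8 / 3 * (33 / 8 * Real.log k) = ((11 : ℕ) : ℝ) * Real.log k by
          push_cast
          ring, Real.exp_nat_mul, Real.exp_log hk0]
      rw [e2, div_inv_eq_mul]
      have h3 : (0 : ℝ) ≤ (k : ℝ) ^ 10 := by positivity
      calc n * (k : ℝ) ^ 10 ≤ k * (k : ℝ) ^ 10 := mul_le_mul_of_nonneg_right hnk h3
        _ = (k : ℝ) ^ 11 := by ring
    have him := abs_lt.1 hz
    have st : ∀ {P : ℂ → Prop}, (∀ z : ℂ, |z.im| < l / 5 → P z) →
        ∀ z : ℂ, -(l / 5) < z.im → z.im < l / 5 → P z := fun hP z g1 g2 => hP z (abs_lt.2 ⟨g1, g2⟩)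
    have h4 := H _ _ _ _ _ hρ _ (33 / 8 * Real.log k) _ hq hL hnq hB (be w w') (measurable_be w w')
      (fun b => st (be_diff h b)) (fun b => st (be_strip h b)) b z (by linarith) (by linarith)
    refine h4.trans ?_
    have hq1 : ((k : ℝ) ^ 10)⁻¹ ≤ 1 := inv_le_one_of_one_le₀ (one_le_pow₀ hk1)
    have h5 : Cst (-(l / 5)) (l / 5) * Real.exp (8 / 3 * M) / n ≤
        2 * (Cst (-(l / 5)) (l / 5) * (Real.exp (8 / 3 * M) / k)) := by
      rw [div_le_iff₀ hn]
      have h6 : 1 ≤ 2 / (k : ℝ) * n := by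
        rw [div_mul_eq_mul_div, le_div_iff₀ hk0]
        linarith
      calc Cst (-(l / 5)) (l / 5) * Real.exp (8 / 3 * M)
          = Cst (-(l / 5)) (l / 5) * Real.exp (8 / 3 * M) * 1 := by ring
        _ ≤ Cst (-(l / 5)) (l / 5) * Real.exp (8 / 3 * M) * (2 / (k : ℝ) * n) :=
            mul_le_mul_of_nonneg_left h6 hB
        _ = _ := by ring
    have h7 : 1 + 33 / 8 * Real.log k ≤ 5 * (1 + Real.log k) := by linarith
    have hX : 0 ≤ Real.exp (8 / 3 * M) / k := by positivity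
    calc C0 * ((k : ℝ) ^ 10)⁻¹ * (Cst (-(l / 5)) (l / 5) * Real.exp (8 / 3 * M) / n) *
          (1 + 33 / 8 * Real.log k)
        ≤ C0 * 1 * (2 * (Cst (-(l / 5)) (l / 5) * (Real.exp (8 / 3 * M) / k))) *
          (5 * (1 + Real.log k)) := by
          gcongr
      _ = 10 * C0 * Cst (-(l / 5)) (l / 5) * (Real.exp (8 / 3 * M) / k) * (1 + Real.log k) := by
          ring
      _ ≤ (10 * C0 * Cst (-(l / 5)) (l / 5) + 1) * (Real.exp (8 / 3 * M) / k) *
          (1 + Real.log k) := by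
          gcongr
          linarith

end PLT.RT

end
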