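import Pool.Agent.PHK.TRsV6
import Pool.Agent.PLT.TRP

/-!
# Row R of the directions, straight contents: the literal data of the s-path

`PLX/PB/TRsV` and `PHK/TRsV6` for any content `x : Fin m → ℂ` on the imaginary axis, index `k` with
`m ≤ k ≤ 2 m` (landed: `m = k - 1`, `x = 0`; here: `a` rows at `- s I`, `b - 1` rows at `0`, `k = a + b`).
The half quanta `wa`, `wb`, the regularisation `qk`, `Dv`, `D1v`, `kov6`, `Mv`, `mTv`, `Szv`, `okv` are the
landed ones; the density is `rowsD x z = ∑ i, Pc (z + I x i)`.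

* `AxC k x`: the contents; `XI`, `lgI`, `EI`: field, force, error of the regularisation;
* `ax_sea`: `SeaR (-b) b c C m (rowsD x)`, uniform.
-/

set_option autoImplicit false
set_option linter.unusedSectionVars false

noncomputable section

open Complex MeasureTheory Finset
open PLX (Fil)

namespace PLT.TV

open NUO NUP1 NUP1S NUP1S.Ab NUGC NUGC.PLX PBF PBF.PLX PBU PBU.PLX PBTV.PLX PLT.RT PHK
open _root_.Pool.Agent.PLX (yq rwq)

/-- contents on the imaginary axis -/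
structure AxC (k : ℕ) {m : ℕ} (x : Fin m → ℂ) : Prop where
  re : ∀ i, (x i).re = 0
  im : ∀ i, |(x i).im| ≤ 1
  le : m ≤ k
  ge : k ≤ 2 * m
  k0 : 1 ≤ k

variable {k m : ℕ} {x : Fin m → ℂ}

theorem AxC.m0 (h : AxC k x) : 0 < m := by
  have h1 := h.ge
  have h2 := h.k0
  omega

theorem AxC.mle (h : AxC k x) : (m : ℝ) ≤ k := by exact_mod_cast h.le

theorem AxC.km (h : AxC k x) : (k : ℝ) ≤ 2 * m := by exact_mod_cast h.ge

theorem AxC.kpos (h : AxC k x) : (0 : ℝ) < k := by exact_mod_cast h.k0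

theorem AxC.mpos (h : AxC k x) : (0 : ℝ) < m := by exact_mod_cast h.m0

theorem AxC.log (h : AxC k x) : 0 ≤ Real.log k := Real.log_nonneg (by exact_mod_cast h.k0)

/-- the landed content: `k - 1` rows at `0` -/
theorem AxC.zero {k : ℕ} (hk : 2 ≤ k) : AxC k (fun _ : Fin (k - 1) => (0 : ℂ)) :=
  ⟨fun _ => rfl, fun _ => by simp, by omega, by omega, by omega⟩

/-- **the sea**: uniform constants -/
theorem ax_sea {b : ℝ} (h0 : 0 < b) (hb : b < NUMF.l) : ∃ c C : ℝ, 0 < c ∧ c ≤ 1 ∧ 0 ≤ C ∧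
    ∀ (k m : ℕ) (x : Fin m → ℂ), AxC k x → SeaR (-b) b c C m (rowsD x) := by
  obtain ⟨c, C, h1, h2, h3, H⟩ := seaR_axis h0 hb
  exact ⟨c, C, h1, h2, h3, fun k m x h => H m x h.m0 fun i => ⟨h.re i, h.im i⟩⟩

variable [Fil] [NUSea.Sea]

/-- the field: field times density `Fil.b b * rowsD x` is `rowsD x * fldR` -/
def XI (k : ℕ) {m : ℕ} (x : Fin m → ℂ) (τ : ℝ × ℝ) : Bool → ℂ → ℂ := fun b z =>
  (Fil.b b : ℂ)⁻¹ * fldR (rowsD x) (qk k) (PBT3.be (wa τ) (wb τ)) b z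

/-- the points of the cutoff of a species -/
def LxI {m : ℕ} (x : Fin m → ℂ) (b : Bool) : List ℂ := List.ofFn (rwq x b) ++ [I, -I]

/-- force of the legs and of the cutoff -/
def lgI (ep : ℝ) {m : ℕ} (x : Fin m → ℂ) (τ : ℝ × ℝ) : Bool → ℂ → ℂ := fun b z =>
  PBEI.h00 (z - PBQ1.hr (PBT3.zt τ)) + PBLZ.PLX.cutI (4 / 3 * (1 - ep)) (LxI x b) z

/-- error of the regularisation -/
def EI (k : ℕ) {m : ℕ} (x : Fin m → ℂ) (τ : ℝ × ℝ) : Bool → ℂ → ℂ := fun b z =>
  Dv τ b none (NUP1.l + I * z) - PB.rsp (PB.mulF2 (rowsD x) (XI k x τ)) b z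

end PLT.TV

end
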