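import Pool.Agent.PHK.TRsG6
import Pool.Agent.PLT.TRsVI
import Pool.Agent.PLT.TRsGE

/-!
# Row R of the directions, straight contents: the error of the mean statement, pointwise (G1), (G2)

The file `PHK/TRsG6` for any content `x` on the imaginary axis (`AxC k x`, data of `PLT/TRsVI`), all
constants uniform in the content.

* `cut_facL`, `cut_massL`: the cutoff of any list on the axis; `X0I_fac`, `XI_fac`; `EI_fac`;
* `FvI`, `FvI_fac`; **`G2_I`**, **`G1_I`**, **`G12_I`**.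
-/

set_option autoImplicit false
set_option linter.unusedSectionVars false

noncomputable section

open Complex MeasureTheory Set Filter
open PLX (Fil)

namespace PLT.TV

open NUO NUP1 NUP1S NUP1S.Ab NUGC NUGC.PLX PBU PBU.PLX PBTs PBTs.PLX PHK PBTV.PLX PBTV.PLX.GG PLT.RT
open PBF.PLX (fMH)
open PBT3 (G5 be MM)
open _root_.Pool.Agent.PLX (yq rwq forall_rwq)

variable {r : ℕ} [Fil] [NUSea.Sea]

/-! ### the cutoff of a list on the axis -/

/-- lists of points of the imaginary axis -/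
structure AxL (X : List ℂ) : Prop where
  ne : X ≠ []
  re : ∀ x ∈ X, |x.re| ≤ 0
  im : ∀ x ∈ X, |x.im| ≤ 1

section cut

variable {ep : ℝ}

/-- the force of the cutoff: analytic and bounded -/
theorem cut_facL (h0 : 0 < ep) (h1 : ep ≤ 1 / 100) {X : List ℂ} (hX : AxL X) {z : ℂ}
    (hz : |z.im| < ep / 2) :
    DifferentiableAt ℂ (PBLZ.PLX.cutI (4 / 3 * (1 - ep)) X) z ∧
      ‖PBLZ.PLX.cutI (4 / 3 * (1 - ep)) X z‖ ≤
        PBLZ.PLX.KL (4 / 3 * (1 - ep)) (3 * NUP1.l / 2 + ep / 2) := by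
  have hl := Bd.l_pos
  have hA := PBTs.PLX.adm_ep h0 h1
  obtain ⟨h2, h3⟩ := abs_lt.1 hz
  refine ⟨?_, PBLZ.PLX.cutI_bd' hA hX.ne hX.re (by linarith) (by linarith)⟩
  have hd := PBLZ.PLX.cutI_diff hA hX.ne hX.re
  have hm : z ∈ {z : ℂ | -(3 * NUP1.l / 2 + ep / 2 - 3 / 2 * NUP1.l - 0) < z.im ∧
      z.im < 3 / 2 * NUP1.l + (3 * NUP1.l / 2 + ep / 2) - 0} := by
    constructor <;> linarith
  exact (hd z hm).differentiableAt ((PBLZ.PLX.strip_open _ _).mem_nhds hm)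

/-- the mass of the cutoff against the decay of the field -/
theorem cut_massL (h0 : 0 < ep) (h1 : ep ≤ 1 / 100) : ∃ C : ℝ, 0 ≤ C ∧ ∀ X : List ℂ, AxL X →
    Integrable (fun t : ℝ => Real.exp (-(8 / 3 * |t|)) *
      ‖PBLZ.PLX.cutI (4 / 3 * (1 - ep)) X t‖) ∧
    ∫ t : ℝ, Real.exp (-(8 / 3 * |t|)) * ‖PBLZ.PLX.cutI (4 / 3 * (1 - ep)) X t‖ ≤
      C / X.length := by
  have hl := Bd.l_pos
  have hA := PBTs.PLX.adm_ep h0 h1
  obtain ⟨β, hβ⟩ : ∃ β, β = 4 / 3 * (1 - ep) := ⟨_, rfl⟩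
  obtain ⟨s, hs⟩ : ∃ s, s = 3 * NUP1.l / 2 + ep / 2 := ⟨_, rfl⟩
  have hb0 : 0 < β := by rw [hβ]; linarith
  rw [← hβ, ← hs] at hA
  have hK := PBLZ.PLX.KL_pos hA
  obtain ⟨κ, hκ⟩ : ∃ κ, κ = PBLZ.PLX.κ0 β s / 2 * Real.exp (-(2 * β * 1)) := ⟨_, rfl⟩
  have hκ0 : 0 < κ := by
    have := PBLZ.PLX.κ0_pos hA
    rw [hκ]
    positivity
  have hi : Integrable fun t : ℝ => Real.exp (-(8 / 3 * ep) * |t|) := by
    have := (PBE.int_exp_abs (a := 8 / 3 * ep) (by positivity)).1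
    simpa only [neg_mul] using this
  refine ⟨PBLZ.PLX.KL β s / κ * ∫ t : ℝ, Real.exp (-(8 / 3 * ep) * |t|), ?_, fun X hX => ?_⟩
  · have : 0 ≤ ∫ t : ℝ, Real.exp (-(8 / 3 * ep) * |t|) :=
      integral_nonneg fun t => (Real.exp_pos _).le
    positivity
  · have hm : (0 : ℝ) < X.length := by exact_mod_cast List.length_pos_of_ne_nil hX.ne
    obtain ⟨m, hmd⟩ : ∃ m : ℝ, m = X.length := ⟨_, rfl⟩
    rw [← hmd] at hm ⊢
    rw [← hβ]
    have hk : ∀ t : ℝ, Real.exp (-(8 / 3 * |t|)) * ‖PBLZ.PLX.cutI β X t‖ ≤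
        PBLZ.PLX.KL β s / κ / m * Real.exp (-(8 / 3 * ep) * |t|) := by
      intro t
      have c1 := PBLZ.PLX.cutI_bd hA hX.ne hX.re hX.im (z := (t : ℂ)) (by
        rw [Complex.ofReal_im, hs]
        linarith) (by
        rw [Complex.ofReal_im, hs]
        linarith)
      rw [Complex.ofReal_re, ← hmd, ← hκ] at c1
      have c2 := PBLZ.PLX.cut_exp (a := 2 * β) (k := κ) (m := m) (t := t) hb0 (by positivity)
        hκ0 (by positivity)
      have e1 : 2 * β / (2 * β) = 1 := div_self (by positivity)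
      rw [e1, Real.rpow_one, Real.rpow_neg_one] at c2
      have e2 : Real.exp (-(8 / 3 * |t|)) =
          Real.exp (-(8 / 3 * ep) * |t|) * Real.exp (-(2 * β * |t|)) := by
        rw [← Real.exp_add, hβ]
        congr 1
        ring
      have e3 := Real.exp_pos (-(8 / 3 * ep) * |t|)
      have e4 := Real.exp_pos (-(2 * β * |t|))
      calc Real.exp (-(8 / 3 * |t|)) * ‖PBLZ.PLX.cutI β X t‖
          ≤ Real.exp (-(8 / 3 * |t|)) * (PBLZ.PLX.KL β s *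
              Real.exp (-(κ * (m * Real.exp (-(2 * β) * |t|))))) :=
            mul_le_mul_of_nonneg_left c1 (Real.exp_pos _).le
        _ = PBLZ.PLX.KL β s * Real.exp (-(8 / 3 * ep) * |t|) * (Real.exp (-(2 * β * |t|)) *
              Real.exp (-(κ * (m * Real.exp (-(2 * β) * |t|))))) := by
            rw [e2]
            ring
        _ ≤ PBLZ.PLX.KL β s * Real.exp (-(8 / 3 * ep) * |t|) * (1 / κ * m⁻¹) :=
            mul_le_mul_of_nonneg_left c2 (by positivity)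
        _ = _ := by
            have e5 : m ≠ 0 := hm.ne'
            field_simp
    have hcont : Continuous fun t : ℝ => PBLZ.PLX.cutI β X t := by
      refine continuous_iff_continuousAt.2 fun t => ?_
      have h2 := (cut_facL h0 h1 hX (z := (t : ℂ)) (by
        rw [Complex.ofReal_im, abs_zero]
        positivity)).1.continuousAt
      rw [← hβ] at h2
      exact ContinuousAt.comp (f := fun t : ℝ => (t : ℂ)) h2 Complex.continuous_ofReal.continuousAt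
    have hi2 : Integrable fun t : ℝ => Real.exp (-(8 / 3 * |t|)) * ‖PBLZ.PLX.cutI β X t‖ := by
      refine (hi.const_mul (PBLZ.PLX.KL β s / κ / m)).mono' ?_ (Eventually.of_forall fun t => ?_)
      · exact (Continuous.mul (by fun_prop) hcont.norm).aestronglyMeasurable
      · rw [Real.norm_of_nonneg (by positivity)]
        exact hk t
    refine ⟨hi2, ?_⟩
    refine (integral_mono hi2 (hi.const_mul _) hk).trans (le_of_eq ?_)
    rw [integral_const_mul]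
    ring

end cut

theorem axL_LxI {k m : ℕ} {x : Fin m → ℂ} (h : AxC k x) (b : Bool) : AxL (LxI x b) := by
  have hr : ∀ y ∈ LxI x b, y.re = 0 ∧ |y.im| ≤ 1 := by
    intro y hy
    unfold LxI at hy
    rw [List.mem_append] at hy
    rcases hy with hy | hy
    · rw [List.mem_ofFn] at hy
      obtain ⟨i, rfl⟩ := hy
      exact forall_rwq (P := fun w : ℂ => w.re = 0 ∧ |w.im| ≤ 1) (fun i => ⟨h.re i, h.im i⟩) b i
    · simp only [List.mem_cons, List.not_mem_nil, or_false] at hy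
      rcases hy with rfl | rfl <;> simp
  refine ⟨by simp [LxI], fun y hy => ?_, fun y hy => (hr y hy).2⟩
  rw [(hr y hy).1, abs_zero]

theorem LxI_len {m : ℕ} (x : Fin m → ℂ) (b : Bool) :
    ((LxI x b).length : ℝ) = ((Fil.n b * m : ℕ) : ℝ) + 2 := by
  unfold LxI
  rw [List.length_append, List.length_ofFn, _root_.Pool.Agent.PLX.cond_eq]
  push_cast
  rfl

theorem LxI_ge {k m : ℕ} {x : Fin m → ℂ} (h : AxC k x) (b : Bool) :
    (k : ℝ) ≤ 2 * ((LxI x b).length : ℝ) := by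
  rw [LxI_len]
  have h1 : m ≤ Fil.n b * m := Nat.le_mul_of_pos_left _ (Fil.n_pos b)
  have h2 := h.ge
  have h3 : k ≤ 2 * (Fil.n b * m) := by omega
  have h4 : (k : ℝ) ≤ 2 * ((Fil.n b * m : ℕ) : ℝ) := by exact_mod_cast h3
  linarith

/-- the parts of the force -/
theorem parts_facI {ep : ℝ} (h0 : 0 < ep) (h1 : ep ≤ 1 / 100) : ∃ C : ℝ, 1 ≤ C ∧
    ∀ (k m : ℕ) (x : Fin m → ℂ), AxC k x → ∀ (τ : ℝ × ℝ) (b : Bool) (z : ℂ), |z.im| < ep / 8 →
    (DifferentiableAt ℂ (fun z => PBEI.h00 (z - PBQ1.hr (PBT3.zt τ))) z ∧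
      ‖PBEI.h00 (z - PBQ1.hr (PBT3.zt τ))‖ ≤ C) ∧
    (DifferentiableAt ℂ (PBLZ.PLX.cutI (4 / 3 * (1 - ep)) (LxI x b)) z ∧
      ‖PBLZ.PLX.cutI (4 / 3 * (1 - ep)) (LxI x b) z‖ ≤ C) ∧
    (I * D1v τ b (NUP1.l + I * z) = deriv (PBT3.Dl (wa τ) (wb τ) b) z ∧
      DifferentiableAt ℂ (fun z => I * D1v τ b (NUP1.l + I * z)) z ∧
      ‖I * D1v τ b (NUP1.l + I * z)‖ ≤ C) := by
  have hl := Bd.l_pos
  have hep := ep_l h1
  obtain ⟨C1, hC1, H1⟩ := h00_fac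
  obtain ⟨C3, hC3, H3⟩ := D1_fac
  have hK := PBLZ.PLX.KL_pos (PBTs.PLX.adm_ep h0 h1)
  obtain ⟨C2, hC2⟩ : ∃ C2, C2 = PBLZ.PLX.KL (4 / 3 * (1 - ep)) (3 * NUP1.l / 2 + ep / 2) := ⟨_, rfl⟩
  rw [← hC2] at hK
  refine ⟨C1 + C2 + C3 + 1, by (clear * - hC1 hC3 hK; linarith), fun k m x hx τ b z hz => ?_⟩
  have hz' : |z.im| < NUP1.l / 20 := hz.trans hep
  have a1 := H1 (wa τ) (wb τ) (g5v τ) z hz'
  have a2 := cut_facL h0 h1 (axL_LxI hx b) (z := z) (by (clear * - h0 hz; linarith))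
  have a3 := H3 (wa τ) (wb τ) (g5v τ) b z hz'
  rw [← hC2] at a2
  refine ⟨⟨a1.1, a1.2.trans (by (clear * - h0 h1 hC3 hK; linarith))⟩, ⟨a2.1, a2.2.trans (by (clear * - h0 h1 hC1 hC3; linarith))⟩, a3.1, ?_, ?_⟩
  · refine (Dl_deriv_diff (g5v τ) b hz').congr_of_eventuallyEq ?_
    exact (ev_strip hz').mono fun y hy => (H3 (wa τ) (wb τ) (g5v τ) b y hy).1
  · rw [norm_mul, norm_I, one_mul]
    exact a3.2.trans (by (clear * - h0 h1 hC1 hK; linarith))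

/-! ### the field -/

/-- the field times the density is the one of `PLT/TRP` -/
theorem mulF2_I (k : ℕ) {m : ℕ} (x : Fin m → ℂ) (τ : ℝ × ℝ) : PB.mulF2 (rowsD x) (XI k x τ) =
    PB.mulF (rowsD x) (fldR (rowsD x) (qk k) (be (wa τ) (wb τ))) := by
  funext b z
  have hb := Fil.b_ne_c b
  unfold PB.mulF2 PB.mulF XI
  field_simp

theorem EI_eq (k : ℕ) {m : ℕ} (x : Fin m → ℂ) (τ : ℝ × ℝ) (b : Bool) : EI k x τ b = fun z =>
    Dv τ b none (NUP1.l + I * z) - PB.rsp (PB.mulF (rowsD x)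
      (fldR (rowsD x) (qk k) (be (wa τ) (wb τ)))) b z := by
  funext z
  unfold EI
  rw [mulF2_I]

/-- **the error of the regularisation** -/
theorem EI_fac : ∃ C : ℝ, 1 ≤ C ∧ ∀ (k m : ℕ) (x : Fin m → ℂ), AxC k x → ∀ (τ : ℝ × ℝ) (b : Bool),
    (∀ z : ℂ, |z.im| < NUP1.l / 10 → DifferentiableAt ℂ (EI k x τ b) z) ∧
    ∀ z : ℂ, |z.im| < NUP1.l / 10 → ‖EI k x τ b z‖ ≤ C * Szv k τ * (1 + Real.log k) := by
  have hl : 0 < NUMF.l := Bd.l_pos
  obtain ⟨c, C0, hc, hc1, hC0, HS⟩ := ax_sea (b := NUMF.l / 5) (by positivity) (by linarith)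
  obtain ⟨C, hC, H⟩ := E_bdR hc
  refine ⟨C, hC, fun k m x hx τ b => ?_⟩
  obtain ⟨h1, h2⟩ := H C0 m (rowsD x) (HS k m x hx) k hx.k0 hx.km hx.mle (wa τ) (wb τ) (g5v τ) b
  rw [MM_v] at h2
  rw [EI_eq]
  exact ⟨h1, h2⟩

/-- the field times the filling -/
def X0I (k : ℕ) {m : ℕ} (x : Fin m → ℂ) (τ : ℝ × ℝ) : Bool → ℂ → ℂ :=
  fldR (rowsD x) (qk k) (be (wa τ) (wb τ))

theorem X0I_fac : ∃ C : ℝ, 1 ≤ C ∧ ∀ (k m : ℕ) (x : Fin m → ℂ), AxC k x → ∀ (τ : ℝ × ℝ) (b : Bool)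
    (z : ℂ), |z.im| < NUP1.l / 5 → DifferentiableAt ℂ (X0I k x τ b) z ∧
    ‖X0I k x τ b z‖ ≤ C * Szv k τ * mn (33 / 8 * Real.log k) z.re := by
  have hl : 0 < NUMF.l := Bd.l_pos
  obtain ⟨c, C0, hc, hc1, hC0, HS⟩ := ax_sea (b := NUMF.l / 5) (by positivity) (by linarith)
  obtain ⟨C1, hC1, H1⟩ := be_st5
  refine ⟨2 * (1 / c) * C1, ?_, fun k m x hx τ b z hz => ?_⟩
  · have h2 : 1 ≤ 1 / c := (one_le_div hc).2 hc1
    nlinarith
  have hS := HS k m x hx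
  have hz' := abs_lt.1 hz
  have g1 : -(NUMF.l / 5) < z.im := hz'.1
  have g2 : z.im < NUMF.l / 5 := hz'.2
  have hq : 0 < qk k := by
    have := hx.kpos
    unfold qk
    positivity
  have hb : ∀ b (z : ℂ), -(NUMF.l / 5) < z.im → z.im < NUMF.l / 5 →
      DifferentiableAt ℂ (be (wa τ) (wb τ) b) z ∧ ‖be (wa τ) (wb τ) b z‖ ≤
        C1 * Real.exp (8 / 3 * Mv τ) * Real.exp (-(8 / 3 * |z.re|)) := by
    intro b z g1 g2
    have h := H1 (wa τ) (wb τ) (g5v τ) b z (abs_lt.2 ⟨g1, g2⟩)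
    rwa [MM_v] at h
  refine ⟨hS.fld_d hq.le (fun b z g1 g2 => (hb b z g1 g2).1) b z g1 g2, ?_⟩
  have hk1 : (1 : ℝ) ≤ k := by exact_mod_cast hx.k0
  have hk0 := hx.kpos
  have hL := hx.log
  have hm0 := hx.mpos
  have hB : 0 ≤ C1 * Real.exp (8 / 3 * Mv τ) := by positivity
  have hnq : (m : ℝ) / qk k ≤ Real.exp (8 / 3 * (33 / 8 * Real.log k)) := by
    have e1 : Real.exp (8 / 3 * (33 / 8 * Real.log k)) = (k : ℝ) ^ 11 := by
      have e2 : 8 / 3 * (33 / 8 * Real.log k) = Real.log k * ((11 : ℕ) : ℝ) := by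
        push_cast
        ring
      rw [e2, Real.exp_mul, Real.exp_log hk0, Real.rpow_natCast]
    unfold qk
    rw [e1, div_inv_eq_mul]
    have h3 : (0 : ℝ) ≤ (k : ℝ) ^ 10 := by positivity
    calc (m : ℝ) * (k : ℝ) ^ 10 ≤ k * (k : ℝ) ^ 10 := mul_le_mul_of_nonneg_right hx.mle h3
      _ = (k : ℝ) ^ 11 := by ring
  have h2 := hS.fld_min (L := 33 / 8 * Real.log k) hq hnq hB (fun b z g1 g2 => (hb b z g1 g2).2)
    b z g1 g2
  refine h2.trans (mul_le_mul_of_nonneg_right ?_ (mn_nonneg _ _))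
  have h3 : C1 * Real.exp (8 / 3 * Mv τ) / m ≤ 2 * C1 * Szv k τ := by
    unfold Szv
    rw [div_le_iff₀ hm0]
    have h6 : 1 ≤ 2 / (k : ℝ) * m := by
      rw [div_mul_eq_mul_div, le_div_iff₀ hk0]
      linarith [hx.km]
    calc C1 * Real.exp (8 / 3 * Mv τ) = C1 * Real.exp (8 / 3 * Mv τ) * 1 := by ring
      _ ≤ C1 * Real.exp (8 / 3 * Mv τ) * (2 / (k : ℝ) * m) := mul_le_mul_of_nonneg_left h6 hB
      _ = _ := by ring
  have hc0 : 0 ≤ 1 / c := by positivity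
  calc 1 / c * (C1 * Real.exp (8 / 3 * Mv τ) / m) ≤ 1 / c * (2 * C1 * Szv k τ) :=
        mul_le_mul_of_nonneg_left h3 hc0
    _ = _ := by ring

/-- the field -/
theorem XI_fac : ∃ C : ℝ, 1 ≤ C ∧ ∀ (k m : ℕ) (x : Fin m → ℂ), AxC k x → ∀ (τ : ℝ × ℝ) (b : Bool)
    (z : ℂ), |z.im| < NUP1.l / 5 → DifferentiableAt ℂ (XI k x τ b) z ∧
    ‖XI k x τ b z‖ ≤ C * Szv k τ * mn (33 / 8 * Real.log k) z.re := by
  obtain ⟨C, hC, H⟩ := X0I_fac
  refine ⟨C, hC, fun k m x hx τ b z hz => ?_⟩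
  have h := H k m x hx τ b z hz
  refine ⟨h.1.const_mul _, ?_⟩
  have e : XI k x τ b z = (Fil.b b : ℂ)⁻¹ * X0I k x τ b z := rfl
  rw [e, norm_mul]
  exact (mul_le_of_le_one_left (norm_nonneg _) (norm_binv_le b)).trans h.2

/-- the force -/
def FvI (ep : ℝ) (k : ℕ) {m : ℕ} (x : Fin m → ℂ) (τ : ℝ × ℝ) (s : ℝ) (r : ℕ) (O : Fin r → Xo) (b : Bool)
    (z : ℂ) : ℂ :=
  lgI ep x τ b z + s * (I * D1v τ b (NUP1.l + I * z)) + kov6 k r O b z

theorem fMH_FvI (ep : ℝ) (k : ℕ) {m : ℕ} (x : Fin m → ℂ) (τ : ℝ × ℝ) (s : ℝ) (r : ℕ) (O : Fin r → Xo) (b : Bool) (z : ℂ) :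
    fMH s (XI k x τ) (D1v τ) (lgI ep x τ) (kov6 k) r O b z =
      XI k x τ b z * FvI ep k x τ s r O b z := rfl

theorem FvI_eq (ep : ℝ) (k : ℕ) {m : ℕ} (x : Fin m → ℂ) (τ : ℝ × ℝ) (s : ℝ) (r : ℕ) (O : Fin r → Xo) (b : Bool) (z : ℂ) :
    FvI ep k x τ s r O b z = PBEI.h00 (z - PBQ1.hr (PBT3.zt τ)) +
      PBLZ.PLX.cutI (4 / 3 * (1 - ep)) (LxI x b) z +
      s * (I * D1v τ b (NUP1.l + I * z)) + kov6 k r O b z := by
  rfl

/-- **the force**: analytic and bounded -/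
theorem FvI_fac {ep : ℝ} (h0 : 0 < ep) (h1 : ep ≤ 1 / 100) : ∃ C : ℝ, 1 ≤ C ∧
    ∀ (k m : ℕ) (x : Fin m → ℂ), AxC k x → ∀ (τ : ℝ × ℝ) (s : ℝ), s ∈ Icc (0 : ℝ) 1 → ∀ (r : ℕ)
    (O : Fin r → Xo) (b : Bool) (z : ℂ), |z.im| < ep / 8 → DifferentiableAt ℂ (FvI ep k x τ s r O b) z ∧
      ‖FvI ep k x τ s r O b z‖ ≤ C * (r + 1) := by
  have hl := Bd.l_pos
  have hep := ep_l6 h1
  obtain ⟨C, hC, H⟩ := parts_facI h0 h1
  have hCO := CV6_nonneg
  refine ⟨3 * C + CV6, by (clear * - h0 h1 hC hCO; linarith), fun k m x hx τ s hs r O b z hz => ?_⟩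
  have hz' : |z.im| < 1 / 250 * NUP1.l := hz.trans hep
  obtain ⟨⟨d1, b1⟩, ⟨d2, b2⟩, -, d3, b3⟩ := H k m x hx τ b z hz
  obtain ⟨d4, b4⟩ := kov_fac6 k O b hz'
  constructor
  · have e : FvI ep k x τ s r O b = fun z => PBEI.h00 (z - PBQ1.hr (PBT3.zt τ)) +
        PBLZ.PLX.cutI (4 / 3 * (1 - ep)) (LxI x b) z +
        s * (I * D1v τ b (NUP1.l + I * z)) + kov6 k r O b z := funext fun z => FvI_eq ..
    rw [e]
    exact ((d1.add d2).add (d3.const_mul (s : ℂ))).add d4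
  · have hs' : ‖(s : ℂ) * (I * D1v τ b (NUP1.l + I * z))‖ ≤ C := by
      rw [norm_mul, norm_real, Real.norm_of_nonneg hs.1]
      calc s * ‖I * D1v τ b (NUP1.l + I * z)‖ ≤ 1 * C :=
            mul_le_mul hs.2 b3 (norm_nonneg _) zero_le_one
        _ = C := one_mul _
    have hr : (0 : ℝ) ≤ r := Nat.cast_nonneg r
    rw [FvI_eq]
    have n1 := norm_add_le (PBEI.h00 (z - PBQ1.hr (PBT3.zt τ)) +
      PBLZ.PLX.cutI (4 / 3 * (1 - ep)) (LxI x b) z + s * (I * D1v τ b (NUP1.l + I * z)))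
      (kov6 k r O b z)
    have n2 := norm_add_le (PBEI.h00 (z - PBQ1.hr (PBT3.zt τ)) +
      PBLZ.PLX.cutI (4 / 3 * (1 - ep)) (LxI x b) z) (s * (I * D1v τ b (NUP1.l + I * z)))
    have n3 := norm_add_le (PBEI.h00 (z - PBQ1.hr (PBT3.zt τ)))
      (PBLZ.PLX.cutI (4 / 3 * (1 - ep)) (LxI x b) z)
    clear * - hCO b1 b2 b4 hs' n1 n2 n3 hC
    nlinarith

/-- **(G2)**: the test function of the error -/
theorem G2_I {ep : ℝ} (h0 : 0 < ep) (h1 : ep ≤ 1 / 100) : ∃ C : ℝ, 1 ≤ C ∧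
    ∀ (k m : ℕ) (x : Fin m → ℂ), AxC k x → ∀ (τ : ℝ × ℝ) (s : ℝ), s ∈ Icc (0 : ℝ) 1 → ∀ (r : ℕ)
    (O : Fin r → Xo) (b : Bool), BC (-(ep / 8)) (ep / 8) (C * Szv k τ * (1 + Real.log k) * (r + 1))
      (fun z => EI k x τ b z + fMH s (XI k x τ) (D1v τ) (lgI ep x τ) (kov6 k) r O b z) := by
  have hl := Bd.l_pos
  have hep := ep_l6 h1
  obtain ⟨C1, hC1, H1⟩ := EI_fac
  obtain ⟨C2, hC2, H2⟩ := FvI_fac h0 h1
  obtain ⟨C3, hC3, H3⟩ := XI_fac
  refine ⟨C1 + C2 * C3, by (clear * - h1 hC1 hC2 hC3 h0; nlinarith), fun k m x hx τ s hs r O b => ?_⟩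
  have hlog := hx.log
  have hS := Szv_nonneg k τ
  have hr : (0 : ℝ) ≤ r := Nat.cast_nonneg r
  obtain ⟨e1, e2⟩ := H1 k m x hx τ b
  have hin : ∀ z ∈ PBE.Sp (-(ep / 8)) (ep / 8), |z.im| < ep / 8 := fun z hz => abs_lt.2 hz
  refine ⟨fun z hz => ?_, fun z hz => ?_⟩
  · have hz1 := hin z hz
    have d1 : DifferentiableAt ℂ (EI k x τ b) z := by
      exact e1 z (by
        show |z.im| < NUP1.l / 10
        clear * - h0 hep hz1
        linarith)
    have d2 := (H3 k m x hx τ b z (by (clear * - h0 hep hz1; linarith))).1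
    have d3 := (H2 k m x hx τ s hs r O b z hz1).1
    exact (d1.add (d2.mul d3)).differentiableWithinAt
  · have hz1 := hin z hz
    have b1 : ‖EI k x τ b z‖ ≤ C1 * Szv k τ * (1 + Real.log k) := by
      exact e2 z (by
        show |z.im| < NUP1.l / 10
        clear * - h0 hep hz1
        linarith)
    have b2 := (H3 k m x hx τ b z (by (clear * - h0 hep hz1; linarith))).2
    have b3 := (H2 k m x hx τ s hs r O b z hz1).2
    have b4 : ‖XI k x τ b z‖ ≤ C3 * Szv k τ :=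
      b2.trans (mul_le_of_le_one_right (by positivity) (mn_le_one _ _))
    rw [fMH_FvI]
    refine (norm_add_le _ _).trans ?_
    rw [norm_mul]
    have b5 : ‖XI k x τ b z‖ * ‖FvI ep k x τ s r O b z‖ ≤ C3 * Szv k τ * (C2 * (r + 1)) :=
      mul_le_mul b4 b3 (norm_nonneg _) (by positivity)
    have p1 : C1 * Szv k τ * (1 + Real.log k) ≤ C1 * Szv k τ * (1 + Real.log k) * (r + 1) :=
      le_mul_of_one_le_right (by positivity) (by (clear * -; linarith))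
    have p2 : C3 * Szv k τ * (C2 * (r + 1)) ≤ C2 * C3 * Szv k τ * (1 + Real.log k) * (r + 1) := by
      have p3 : 0 ≤ C2 * C3 * Szv k τ * (r + 1) := by positivity
      clear * - p3 hlog
      nlinarith [mul_nonneg p3 hlog]
    calc _ ≤ C1 * Szv k τ * (1 + Real.log k) * (r + 1) +
          C2 * C3 * Szv k τ * (1 + Real.log k) * (r + 1) := by linarith
      _ = _ := by ring

/-- **(G1)**: the constant of the error -/
theorem G1_I {ep : ℝ} (h0 : 0 < ep) (h1 : ep ≤ 1 / 100) : ∃ C : ℝ, 1 ≤ C ∧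
    ∀ (k m : ℕ) (x : Fin m → ℂ), AxC k x → ∀ (τ : ℝ × ℝ) (s : ℝ), s ∈ Icc (0 : ℝ) 1 → ∀ (r : ℕ)
    (O : Fin r → Xo),
    ‖stO6 (Dv τ) par6 O +
        ∑ b, (∫ t : ℝ, Fil.b b * rowsD x t * fMH s (XI k x τ) (D1v τ) (lgI ep x τ) (kov6 k) r O b t) -
        s * PBT3.qI (wa τ) (wb τ) - PBT3.pI (wa τ) (wb τ)‖ ≤
      C * (1 + Mv τ) ^ 2 * Real.exp (2 * Mv τ) * ∑ i, Real.exp (-(2 * |ht (O i)|)) +
        C * Szv k τ * (1 + Real.log k) * (r + 1) := by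
  have hl := Bd.l_pos
  have hep := ep_l6 h1
  have hep0 : 0 < ep / 8 := by positivity
  obtain ⟨C1, hC1, H1⟩ := resp_DT6
  obtain ⟨C2, hC2, H2⟩ := FvI_fac h0 h1
  obtain ⟨C3, hC3, H3⟩ := X0I_fac
  obtain ⟨C4, hC4, H4⟩ := cut_massL h0 h1
  obtain ⟨C5, hC5, H5⟩ := parts_facI h0 h1
  obtain ⟨C6, hC6, H6⟩ := be_st5
  have hCO := CV6_nonneg
  obtain ⟨c, C0, hc, hc1, hC0, HS⟩ := ax_sea (b := NUMF.l / 5) (by
    have e : NUMF.l = NUP1.l := rfl
    rw [e]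
    positivity) (by
    have e : NUMF.l = NUP1.l := rfl
    rw [e]
    linarith)
  refine ⟨C1 + 4 * C6 * C4 + 60 * C3 * C2, by
    have : 0 ≤ 4 * C6 * C4 := by positivity
    clear * - h1 hC1 hC2 hC3 this h0
    nlinarith, fun k m x hx τ s hs r O => ?_⟩
  have hSea := HS k m x hx
  have hk0 := hx.kpos
  have hlog := hx.log
  have hS := Szv_nonneg k τ
  have hM0 : 0 ≤ Mv τ := (abs_nonneg _).trans (le_max_left _ _)
  have hr : (0 : ℝ) ≤ r := Nat.cast_nonneg r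
  have hG := g5v τ
  have hg := hG.geo
  have hq : 0 < qk k := by
    unfold qk
    positivity
  have hq1 : qk k ≤ 1 := by
    unfold qk
    refine inv_le_one_of_one_le₀ (one_le_pow₀ ?_)
    exact_mod_cast hx.k0
  -- the functions on the line
  have re0 : ∀ t : ℝ, |((t : ℂ)).im| < ep / 8 := fun t => by
    rw [ofReal_im, abs_zero]
    exact hep0
  have re1 : ∀ t : ℝ, |((t : ℂ)).im| < 1 / 250 * NUP1.l := fun t => (re0 t).trans hep
  have re2 : ∀ t : ℝ, |((t : ℂ)).im| < NUP1.l / 5 := fun t => (re1 t).trans (by (clear * - h0 hep; linarith))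
  have ib : ∀ b, Integrable fun t : ℝ => PBT3.be (wa τ) (wb τ) b t := fun b => PBT3.be_int hg b
  have jb : ∀ (b : Bool) (a : ℂ → ℂ) (K : ℝ), (∀ z : ℂ, |z.im| < ep / 8 → DifferentiableAt ℂ a z) →
      (∀ t : ℝ, ‖a t‖ ≤ K) → Integrable fun t : ℝ => PBT3.be (wa τ) (wb τ) b t * a t := by
    intro b a K ha hK
    exact (ib b).mul_bdd (c := K) (cont_line hep0 ha).aestronglyMeasurable
      (Eventually.of_forall hK)
  -- the field on the line
  obtain ⟨L, hL⟩ : ∃ L, L = 33 / 8 * Real.log k := ⟨_, rfl⟩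
  have hL0 : 0 ≤ L := by rw [hL]; positivity
  have hmn : Integrable (fun t : ℝ => mn L t) ∧ ∫ t : ℝ, mn L t ≤ 2 * Real.exp 1 * (1 + L) := by
    have h1 := int_mn hL0 0
    have e : (fun u : ℝ => mn L (0 - u)) = fun u : ℝ => mn L u := by
      funext u
      unfold mn
      rw [zero_sub, abs_neg]
    rwa [e] at h1
  have hXb : ∀ b (t : ℝ), ‖X0I k x τ b t‖ ≤ C3 * Szv k τ * mn L t := by
    intro b t
    have h := (H3 k m x hx τ b t (re2 t)).2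
    rw [ofReal_re, ← hL] at h
    exact h
  have hXc : ∀ b, Continuous fun t : ℝ => X0I k x τ b t := fun b =>
    cont_line (c := NUP1.l / 5) (by positivity) fun z hz => (H3 k m x hx τ b z hz).1
  have hXi : ∀ b, Integrable fun t : ℝ => X0I k x τ b t := fun b =>
    (hmn.1.const_mul (C3 * Szv k τ)).mono' (hXc b).aestronglyMeasurable
      (Eventually.of_forall (hXb b))
  have hFc : ∀ b, Continuous fun t : ℝ => FvI ep k x τ s r O b t := fun b =>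
    cont_line hep0 fun z hz => (H2 k m x hx τ s hs r O b z hz).1
  have hFb : ∀ b (t : ℝ), ‖FvI ep k x τ s r O b t‖ ≤ C2 * (r + 1) := fun b t =>
    (H2 k m x hx τ s hs r O b t (re0 t)).2
  -- the splitting
  have split : ∀ b, ∫ t : ℝ, Fil.b b * rowsD x t * fMH s (XI k x τ) (D1v τ) (lgI ep x τ) (kov6 k) r O b t =
      (∫ t : ℝ, PBT3.be (wa τ) (wb τ) b t * PBEI.h00 (t - PBQ1.hr (PBT3.zt τ))) +
      (∫ t : ℝ, PBT3.be (wa τ) (wb τ) b t * PBLZ.PLX.cutI (4 / 3 * (1 - ep)) (LxI x b) t) +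
      s * (∫ t : ℝ, PBT3.be (wa τ) (wb τ) b t * deriv (PBT3.Dl (wa τ) (wb τ) b) t) +
      (∫ t : ℝ, PBT3.be (wa τ) (wb τ) b t *
        kov6 k r O b t) -
      qk k * ∫ t : ℝ, X0I k x τ b t * FvI ep k x τ s r O b t := by
    intro b
    have i1 := jb b (fun z => PBEI.h00 (z - PBQ1.hr (PBT3.zt τ))) C5
      (fun z hz => (H5 k m x hx τ b z hz).1.1) fun t => (H5 k m x hx τ b t (re0 t)).1.2
    have i2 := jb b (PBLZ.PLX.cutI (4 / 3 * (1 - ep)) (LxI x b)) C5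
      (fun z hz => (H5 k m x hx τ b z hz).2.1.1) fun t => (H5 k m x hx τ b t (re0 t)).2.1.2
    have i3 := jb b (fun z => I * D1v τ b (NUP1.l + I * z)) C5
      (fun z hz => (H5 k m x hx τ b z hz).2.2.2.1) fun t => (H5 k m x hx τ b t (re0 t)).2.2.2.2
    have i4 := jb b (kov6 k r O b) (r * CV6)
      (fun z hz => (kov_fac6 k O b (hz.trans hep)).1) fun t => (kov_fac6 k O b (re1 t)).2
    have i5 : Integrable fun t : ℝ => X0I k x τ b t * FvI ep k x τ s r O b t :=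
      (hXi b).mul_bdd (hFc b).aestronglyMeasurable (Eventually.of_forall (hFb b))
    have e1 : ∀ t : ℝ, Fil.b b * rowsD x t * fMH s (XI k x τ) (D1v τ) (lgI ep x τ) (kov6 k) r O b t =
        (PBT3.be (wa τ) (wb τ) b t * PBEI.h00 (t - PBQ1.hr (PBT3.zt τ)) +
        PBT3.be (wa τ) (wb τ) b t * PBLZ.PLX.cutI (4 / 3 * (1 - ep)) (LxI x b) t +
        s * (PBT3.be (wa τ) (wb τ) b t * (I * D1v τ b (NUP1.l + I * t))) +
        PBT3.be (wa τ) (wb τ) b t * kov6 k r O b t) -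
        qk k * (X0I k x τ b t * FvI ep k x τ s r O b t) := by
      intro t
      have h1 := hSea.mul hq.le (PBT3.be (wa τ) (wb τ)) b (z := (t : ℂ)) (abs_lt.1 (re2 t)).1
        (abs_lt.1 (re2 t)).2
      have h2 : Fil.b b * rowsD x t * XI k x τ b t =
          PBT3.be (wa τ) (wb τ) b t - qk k * X0I k x τ b t := by
        have hb := Fil.b_ne_c b
        unfold PB.mulF at h1
        unfold XI X0I
        rw [← h1]
        field_simp
      rw [fMH_FvI, ← mul_assoc, h2, sub_mul]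
      have h3 : FvI ep k x τ s r O b t = PBEI.h00 (t - PBQ1.hr (PBT3.zt τ)) +
        PBLZ.PLX.cutI (4 / 3 * (1 - ep)) (LxI x b) t +
        s * (I * D1v τ b (NUP1.l + I * t)) + kov6 k r O b t := FvI_eq ..
      rw [mul_assoc (qk k : ℂ)]
      congr 1
      rw [h3]
      ring
    simp only [e1]
    have j1 := i1.add i2
    have j2 := j1.add (i3.const_mul (s : ℂ))
    have j3 := j2.add i4
    have s1 := integral_sub j3 (i5.const_mul (qk k : ℂ))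
    have s2 := integral_add j2 i4
    have s3 := integral_add j1 (i3.const_mul (s : ℂ))
    have s4 := integral_add i1 i2
    simp only [Pi.add_apply] at s1 s2 s3 s4
    rw [s1, s2, s3, s4, integral_const_mul, integral_const_mul]
    have e3 : ∫ t : ℝ, PBT3.be (wa τ) (wb τ) b t * (I * D1v τ b (NUP1.l + I * t)) =
        ∫ t : ℝ, PBT3.be (wa τ) (wb τ) b t * deriv (PBT3.Dl (wa τ) (wb τ) b) t := by
      refine integral_congr_ae (Eventually.of_forall fun t => ?_)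
      simp only
      rw [(H5 k m x hx τ b t (re0 t)).2.2.1]
    rw [e3]
  -- legs
  have eP : PBT3.pI (wa τ) (wb τ) =
      ∑ b, ∫ t : ℝ, PBT3.be (wa τ) (wb τ) b t * PBEI.h00 (t - PBQ1.hr (PBT3.zt τ)) := by
    rw [PBT3.pI_leg hG]
    refine Finset.sum_congr rfl fun b _ => ?_
    refine integral_congr_ae (Eventually.of_forall fun t => ?_)
    simp only [PBEI.h00, PBQ1.hr, zz_v, sub_neg_eq_add]
  have eQ := PBT3.qI_Dl hG
  -- the cutoff
  have hcut : ∀ b, ‖∫ t : ℝ, PBT3.be (wa τ) (wb τ) b t *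
      PBLZ.PLX.cutI (4 / 3 * (1 - ep)) (LxI x b) t‖ ≤ 2 * C6 * C4 * Szv k τ := by
    intro b
    obtain ⟨c1, c2⟩ := H4 _ (axL_LxI hx b)
    have hb : ∀ t : ℝ, ‖PBT3.be (wa τ) (wb τ) b t *
        PBLZ.PLX.cutI (4 / 3 * (1 - ep)) (LxI x b) t‖ ≤ C6 * Real.exp (8 / 3 * Mv τ) *
        (Real.exp (-(8 / 3 * |t|)) * ‖PBLZ.PLX.cutI (4 / 3 * (1 - ep)) (LxI x b) t‖) := by
      intro t
      have h := (H6 (wa τ) (wb τ) hG b t (re2 t)).2
      rw [ofReal_re, MM_v] at h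
      rw [norm_mul, ← mul_assoc]
      exact mul_le_mul_of_nonneg_right h (norm_nonneg _)
    refine (norm_integral_le_of_norm_le (c1.const_mul _) (Eventually.of_forall hb)).trans ?_
    rw [integral_const_mul]
    have hE := Real.exp_pos (8 / 3 * Mv τ)
    have hk' := LxI_ge hx b
    have c3 : C4 / ((LxI x b).length : ℝ) ≤ 2 * (C4 / k) := by
      have hX0 : (0 : ℝ) < (LxI x b).length := by
        clear * - hk' hk0
        linarith
      rw [div_le_iff₀ hX0]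
      have h6 : 1 ≤ 2 / (k : ℝ) * (LxI x b).length := by
        rw [div_mul_eq_mul_div, le_div_iff₀ hk0]
        clear * - hk'
        linarith
      calc C4 = C4 * 1 := by ring
        _ ≤ C4 * (2 / (k : ℝ) * (LxI x b).length) := mul_le_mul_of_nonneg_left h6 hC4
        _ = _ := by ring
    calc C6 * Real.exp (8 / 3 * Mv τ) * ∫ t : ℝ, (Real.exp (-(8 / 3 * |t|)) *
          ‖PBLZ.PLX.cutI (4 / 3 * (1 - ep)) (LxI x b) t‖)
        ≤ C6 * Real.exp (8 / 3 * Mv τ) * (2 * (C4 / k)) :=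
          mul_le_mul_of_nonneg_left (c2.trans c3) (by positivity)
      _ = 2 * C6 * C4 * Szv k τ := by
          unfold Szv
          ring
  -- the regularisation
  have hreg : ∀ b, ‖∫ t : ℝ, X0I k x τ b t * FvI ep k x τ s r O b t‖ ≤
      30 * C3 * C2 * Szv k τ * (1 + Real.log k) * (r + 1) := by
    intro b
    have hb : ∀ t : ℝ, ‖X0I k x τ b t * FvI ep k x τ s r O b t‖ ≤
        C3 * Szv k τ * (C2 * (r + 1)) * mn L t := by
      intro t
      rw [norm_mul]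
      have h := mul_le_mul (hXb b t) (hFb b t) (norm_nonneg _)
        (mul_nonneg (by positivity) (mn_nonneg L t))
      calc _ ≤ C3 * Szv k τ * mn L t * (C2 * (r + 1)) := h
        _ = _ := by ring
    refine (norm_integral_le_of_norm_le (hmn.1.const_mul _) (Eventually.of_forall hb)).trans ?_
    rw [integral_const_mul]
    have he : Real.exp 1 ≤ 3 := by
      have := Real.exp_one_lt_d9
      linarith
    have h2 : ∫ t : ℝ, mn L t ≤ 30 * (1 + Real.log k) := by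
      refine hmn.2.trans ?_
      rw [hL]
      clear * - h1 hlog he h0
      nlinarith
    have hA : 0 ≤ C3 * Szv k τ * (C2 * (r + 1)) := by (clear * - hC3 hS hC2; positivity)
    calc C3 * Szv k τ * (C2 * (r + 1)) * ∫ t : ℝ, mn L t
        ≤ C3 * Szv k τ * (C2 * (r + 1)) * (30 * (1 + Real.log k)) :=
          mul_le_mul_of_nonneg_left h2 hA
      _ = _ := by ring
  -- the objects
  have hobj := H1 (wa τ) (wb τ) hG r O
  rw [MM_v] at hobj
  have hpin := sum_min_pin (Mv τ) O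
  simp only [split]
  rw [eP, eQ]
  obtain ⟨A1, hA1⟩ : ∃ A : Bool → ℂ, A = fun b => ∫ t : ℝ, PBT3.be (wa τ) (wb τ) b t *
    PBEI.h00 (t - PBQ1.hr (PBT3.zt τ)) := ⟨_, rfl⟩
  obtain ⟨A2, hA2⟩ : ∃ A : Bool → ℂ, A = fun b => ∫ t : ℝ, PBT3.be (wa τ) (wb τ) b t *
    PBLZ.PLX.cutI (4 / 3 * (1 - ep)) (LxI x b) t := ⟨_, rfl⟩
  obtain ⟨A3, hA3⟩ : ∃ A : Bool → ℂ, A = fun b => ∫ t : ℝ, PBT3.be (wa τ) (wb τ) b t *
    deriv (PBT3.Dl (wa τ) (wb τ) b) t := ⟨_, rfl⟩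
  obtain ⟨A4, hA4⟩ : ∃ A : Bool → ℂ, A = fun b => ∫ t : ℝ, PBT3.be (wa τ) (wb τ) b t *
    kov6 k r O b t := ⟨_, rfl⟩
  obtain ⟨A5, hA5⟩ : ∃ A : Bool → ℂ, A = fun b => ∫ t : ℝ, X0I k x τ b t * FvI ep k x τ s r O b t :=
    ⟨_, rfl⟩
  have hcut' : ∀ b, ‖A2 b‖ ≤ 2 * C6 * C4 * Szv k τ := fun b => by rw [hA2]; exact hcut b
  have hreg' : ∀ b, ‖A5 b‖ ≤ 30 * C3 * C2 * Szv k τ * (1 + Real.log k) * (r + 1) := fun b => by
    rw [hA5]; exact hreg b
  have hobj' : ‖(∑ b, A4 b) + stO6 (Dv τ) par6 O‖ ≤ C1 * (1 + Mv τ) ^ 2 *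
      ∑ i, min 1 (Real.exp (2 * (Mv τ - |ht (O i)|))) := by
    rw [hA4]
    exact hobj
  have e : stO6 (Dv τ) par6 O + ∑ b, (A1 b + A2 b + s * A3 b + A4 b - qk k * A5 b) -
      s * ∑ b, A3 b - ∑ b, A1 b =
      ((∑ b, A4 b) + stO6 (Dv τ) par6 O) + (A2 true + A2 false) -
        qk k * (A5 true + A5 false) := by
    simp only [Fintype.sum_bool]
    ring
  have e' : stO6 (Dv τ) par6 O + ∑ b, ((∫ t : ℝ, PBT3.be (wa τ) (wb τ) b t *
      PBEI.h00 (t - PBQ1.hr (PBT3.zt τ))) +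
      (∫ t : ℝ, PBT3.be (wa τ) (wb τ) b t * PBLZ.PLX.cutI (4 / 3 * (1 - ep)) (LxI x b) t) +
      s * (∫ t : ℝ, PBT3.be (wa τ) (wb τ) b t * deriv (PBT3.Dl (wa τ) (wb τ) b) t) +
      (∫ t : ℝ, PBT3.be (wa τ) (wb τ) b t *
        kov6 k r O b t) -
      qk k * ∫ t : ℝ, X0I k x τ b t * FvI ep k x τ s r O b t) -
      s * (∑ b, ∫ t : ℝ, PBT3.be (wa τ) (wb τ) b t * deriv (PBT3.Dl (wa τ) (wb τ) b) t) -
      (∑ b, ∫ t : ℝ, PBT3.be (wa τ) (wb τ) b t * PBEI.h00 (t - PBQ1.hr (PBT3.zt τ))) =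
      stO6 (Dv τ) par6 O + ∑ b, (A1 b + A2 b + s * A3 b + A4 b - qk k * A5 b) -
      s * ∑ b, A3 b - ∑ b, A1 b := by
    rw [hA1, hA2, hA3, hA4, hA5]
  rw [e', e]
  have n1 := norm_sub_le (((∑ b, A4 b) + stO6 (Dv τ) par6 O) + (A2 true + A2 false))
    (qk k * (A5 true + A5 false))
  have n2 := norm_add_le ((∑ b, A4 b) + stO6 (Dv τ) par6 O) (A2 true + A2 false)
  have n3 := norm_add_le (A2 true) (A2 false)
  have n4 := norm_add_le (A5 true) (A5 false)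
  have n5 : ‖(qk k : ℂ) * (A5 true + A5 false)‖ ≤ ‖A5 true + A5 false‖ := by
    rw [norm_mul, norm_real, Real.norm_of_nonneg hq.le]
    exact mul_le_of_le_one_left (norm_nonneg _) hq1
  have m1 := hcut' true
  have m2 := hcut' false
  have m3 := hreg' true
  have m4 := hreg' false
  obtain ⟨pn, hpn'⟩ : ∃ pn, pn = ∑ i, Real.exp (-(2 * |ht (O i)|)) := ⟨_, rfl⟩
  have hpn0 : 0 ≤ pn := by
    rw [hpn']
    exact Finset.sum_nonneg fun i _ => (Real.exp_pos _).le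
  rw [← hpn'] at hpin ⊢
  have hE := Real.exp_pos (2 * Mv τ)
  have m5 : C1 * (1 + Mv τ) ^ 2 * ∑ i, min 1 (Real.exp (2 * (Mv τ - |ht (O i)|))) ≤
      C1 * (1 + Mv τ) ^ 2 * Real.exp (2 * Mv τ) * pn := by
    rw [mul_assoc _ (Real.exp _)]
    exact mul_le_mul_of_nonneg_left hpin (by positivity)
  have m6 : 2 * C6 * C4 * Szv k τ ≤ 2 * C6 * C4 * Szv k τ * (1 + Real.log k) * (r + 1) := by
    have p1 : 0 ≤ 2 * C6 * C4 * Szv k τ := by positivity
    rw [mul_assoc (2 * C6 * C4 * Szv k τ)]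
    refine le_mul_of_one_le_right p1 ?_
    clear * - hlog
    nlinarith
  have m7 : C1 * (1 + Mv τ) ^ 2 * Real.exp (2 * Mv τ) * pn ≤
      (C1 + 4 * C6 * C4 + 60 * C3 * C2) * (1 + Mv τ) ^ 2 * Real.exp (2 * Mv τ) * pn := by
    have p1 : C1 ≤ C1 + 4 * C6 * C4 + 60 * C3 * C2 := by
      have q1 : 0 ≤ 4 * C6 * C4 := by positivity
      have q2 : 0 ≤ 60 * C3 * C2 := by positivity
      clear * - q1 q2
      linarith
    clear * - p1 hM0 hpn0
    gcongr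
  have m8 : 0 ≤ C1 * Szv k τ * (1 + Real.log k) * (r + 1) := by (clear * - hC1 hS; positivity)
  clear * - hobj' n1 n2 n3 n4 n5 m1 m2 m3 m4 m5 m6 m7 m8
  nlinarith



/-- **(G1) and (G2) together**, the hypothesis of the last layer -/
theorem G12_I {ep : ℝ} (h0 : 0 < ep) (h1 : ep ≤ 1 / 100) : ∃ C : ℝ, 1 ≤ C ∧
    ∀ (k m : ℕ) (x : Fin m → ℂ), AxC k x → ∀ (τ : ℝ × ℝ) (s : ℝ), 0 ≤ s → s ≤ 1 →
    (∀ (r : ℕ) (O : Fin r → Xo), ‖stO6 (Dv τ) par6 O +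
        ∑ b, (∫ t : ℝ, Fil.b b * rowsD x t * fMH s (XI k x τ) (D1v τ) (lgI ep x τ) (kov6 k) r O b t) -
        s * PBT3.qI (wa τ) (wb τ) - PBT3.pI (wa τ) (wb τ)‖ ≤
      C * (1 + Mv τ) ^ 2 * Real.exp (2 * Mv τ) * ∑ i, Real.exp (-(2 * |ht (O i)|)) +
        C * Szv k τ * (1 + Real.log k) * (r + 1)) ∧
    (∀ (r : ℕ) (O : Fin r → Xo) (b : Bool),
      BC (-(ep / 8)) (ep / 8) (C * Szv k τ * (1 + Real.log k) * (r + 1))
      (fun z => EI k x τ b z + fMH s (XI k x τ) (D1v τ) (lgI ep x τ) (kov6 k) r O b z)) := by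
  obtain ⟨C1, hC1, H1⟩ := G1_I h0 h1
  obtain ⟨C2, hC2, H2⟩ := G2_I h0 h1
  refine ⟨max C1 C2, hC1.trans (le_max_left _ _),
    fun k m x hx τ s hs0 hs1 => ⟨fun r O => ?_, fun r O b => ?_⟩⟩
  · have hlog := hx.log
    have hS := Szv_nonneg k τ
    have hM0 : 0 ≤ Mv τ := (abs_nonneg _).trans (le_max_left _ _)
    have hpn0 : 0 ≤ ∑ i, Real.exp (-(2 * |ht (O i)|)) :=
      Finset.sum_nonneg fun i _ => (Real.exp_pos _).le
    refine (H1 k m x hx τ s ⟨hs0, hs1⟩ r O).trans ?_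
    have hC := le_max_left C1 C2
    clear * - hC hM0 hS hlog hpn0
    gcongr
  · have hlog := hx.log
    have hS := Szv_nonneg k τ
    refine (H2 k m x hx τ s ⟨hs0, hs1⟩ r O b).mono ?_
    have hC := le_max_right C1 C2
    clear * - hC hS hlog
    gcongr

end PLT.TV

end
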