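import Pool.Agent.PHK.TRsF6
import Pool.Agent.PLT.TRsGI
import Pool.Agent.PLT.MomI3

/-!
# Row R of the directions, straight contents: the error on the s-path and (H3), at one index

`PHK/TRsF6` for any content `x` on the imaginary axis (`AxC k x`), class functions `Z`, normaliser `pf`, number
of quanta `N` and curves `η, η'` as data; the upper bounds are `UBI` of `PLT/MomI`.

* `κI`; `nFI`, `nFI'`: the normalised functional on the path and its derivative;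
* `TRd`: the data at one index: bounds of the two ends, mean statement, path;
* `xbd_I`: the field is admissible for the quadratic term; `ERLI`, `lin_bdI`, `quad_bdI`;
* `hE_I`: `‖nF' - (s q + p) nF‖ ≤ (E1v + E2v) (e^{|τ₁+τ₂|})^{1-s} (e^{-mT} / |k1|)^s`;
* **`h3_I`**: the conclusion (H3) between the two ends of the path, uniform in the data.
-/

set_option autoImplicit false
set_option linter.unusedSectionVars false

noncomputable section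

open Complex MeasureTheory Finset Filter
open scoped ENNReal
open PLX (Fil)

namespace PLT.TV

open NUO NUP1 NUP1S NUP1S.Ab NUP1S.AbC NUGC NUGC.PLX PBFunc PBFunc.PLX PBF PBF.PLX PBU PBU.PLX PBP PBP.PLX
open PHK PBTV.PLX PLT.RT PLT.MI
open PBTV (E1v E2v E_le)

variable [Fil]

attribute [local instance] NUSea.seaP

/-- mean of the statistic -/
def κI {m : ℕ} (x : Fin m → ℂ) (τ : ℝ × ℝ) : ℂ := kap (Dv τ) (rowsD x)

/-- **the normalised functional on the path** -/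
def nFI (Z : Bool → Option O3 → ℂ → ℂ) (pf : ℂ) (N : ℕ) (η η' : Crs) {m : ℕ} (x : Fin m → ℂ) (τ : ℝ × ℝ)
    (s : ℝ) : ℂ :=
  nF6 (fun _ => Z) (fun _ => Dv τ) (fun _ => par6) N (fun _ => η) (fun _ => η') (fun _ => pf) 1
    (κI x τ) s

/-- derivative of the normalised functional -/
def nFI' (Z : Bool → Option O3 → ℂ → ℂ) (pf : ℂ) (N : ℕ) (η η' : Crs) {m : ℕ} (x : Fin m → ℂ) (τ : ℝ × ℝ)
    (s : ℝ) : ℂ :=
  nF'6 (fun _ => Z) (fun _ => Dv τ) (fun _ => par6) N (fun _ => η) (fun _ => η') (fun _ => pf) 1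
    (κI x τ) s

/-- the normaliser of the right end -/
def pfW (pf : ℂ) {m : ℕ} (x : Fin m → ℂ) (τ : ℝ × ℝ) : ℂ :=
  PBT3.k1T τ * (Complex.exp (-κI x τ) * pf)

/-- **the data of the path at one index** -/
structure TRd (ep e1 ε : ℝ) (k : ℕ) {m : ℕ} (x : Fin m → ℂ) (τ : ℝ × ℝ) (Z : Bool → Option O3 → ℂ → ℂ)
    (pf : ℂ) (N : ℕ) (η η' : Crs) : Prop where
  hx : AxC k x
  mc : MCr η η'
  nr : ∀ (r : ℕ) (O : Fin r → Xo) t, |η r O t| ≤ NUMF.l / 10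
  V1 : UBI Z par6 pf N η η' e1 k 2 6 (-(ep / 8)) (ep / 8) ((k : ℝ) ^ ε * Real.exp |τ.1 + τ.2|)
    fun t => rowsD x t
  V2 : UBI Z par6 pf N η η' e1 k 2 6 (-(NUMF.l / 10)) (NUMF.l / 10)
    ((k : ℝ) ^ ε * Real.exp |τ.1 + τ.2|) fun t => rowsD x t
  W1 : UBI (expZ Z (Dv τ) 1) par6 (pfW pf x τ) N η η' e1 k 2 6 (-(ep / 8)) (ep / 8)
    ((k : ℝ) ^ ε * Real.exp (-mTv τ)) fun t => rowsD x t
  W2 : UBI (expZ Z (Dv τ) 1) par6 (pfW pf x τ) N η η' e1 k 2 6 (-(NUMF.l / 10)) (NUMF.l / 10)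
    ((k : ℝ) ^ ε * Real.exp (-mTv τ)) fun t => rowsD x t
  mean : ∀ s : ℂ, ∃ (κ : ℝ) (LZ : Bool → ℂ → ℂ),
    MeanH6 Z (Dv τ) par6 η η' (-(dN N : ℤ)) s (ep / 4) κ (NUP1.l / 5) (rowsD x) (XI k x τ) LZ (D1v τ)
      (EI k x τ) (lgI ep x τ) (LPv6 k) (kov6 k)
  path : ∃ B : ℝ, PathD6 (fun _ => Z) (fun _ => Dv τ) (fun _ => par6) N (fun _ => η) (fun _ => η') B

/-! ### the field -/

theorem meas_XI (k : ℕ) {m : ℕ} (x : Fin m → ℂ) (τ : ℝ × ℝ) (b : Bool) : Measurable (XI k x τ b) := by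
  unfold XI fldR
  exact ((meas_be _ _ _).div ((meas_rowsD x).add_const _)).const_mul _

theorem meas_rowsD_re {m : ℕ} (x : Fin m → ℂ) : Measurable fun t : ℝ => rowsD x t :=
  (meas_rowsD x).comp Complex.measurable_ofReal

/-- **the field is admissible for the quadratic term** -/
theorem xbd_I : ∃ C : ℝ, 1 ≤ C ∧ ∀ (k m : ℕ) (x : Fin m → ℂ), AxC k x → ∀ τ : ℝ × ℝ,
    PB.XBd (NUMF.l / 5) (C * Szv k τ) (5 * Real.log k) (XI k x τ) := by
  obtain ⟨C, hC, H⟩ := XI_fac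
  refine ⟨C, hC, fun k m x hx τ => ⟨meas_XI k x τ, fun b z hz => ?_, fun b z hz => ?_⟩⟩
  · exact (H k m x hx τ b z hz).1
  · refine (H k m x hx τ b z hz).2.trans ?_
    have hS : 0 ≤ C * Szv k τ := mul_nonneg (by linarith) (Szv_pos hx.k0 τ).le
    refine mul_le_mul_of_nonneg_left ?_ hS
    have hL := hx.log
    refine le_trans ?_ (mn_le_WL z.re)
    unfold PBTs.mn
    refine min_le_min le_rfl (Real.exp_le_exp.2 ?_)
    linarith

theorem rowsD_int {k m : ℕ} {x : Fin m → ℂ} (hx : AxC k x) : Integrable fun t : ℝ => rowsD x t := by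
  obtain ⟨c, C, -, -, hC, HS⟩ := ax_sea (b := NUMF.l / 5) (by
    have := NUMF.l_pos
    positivity) (by
    have := NUMF.l_pos
    linarith)
  have hS := HS k m x hx
  have hl := NUMF.l_pos
  have h1 : Integrable fun t : ℝ => C * m * Real.exp (-(8 / 3 * |t|)) := by
    have := (NUMF.int_exp_abs (by norm_num : (0 : ℝ) < 8 / 3)).const_mul (C * m)
    simpa only [neg_mul] using this
  refine h1.mono' (meas_rowsD_re x).aestronglyMeasurable (Eventually.of_forall fun t => ?_)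
  have h2 := hS.up (t : ℂ) (by rw [Complex.ofReal_im]; linarith) (by rw [Complex.ofReal_im]; linarith)
  rwa [Complex.ofReal_re] at h2

/-! ### the linear part -/

/-- the error without the quadratic term -/
def ERLI (ep : ℝ) (k : ℕ) {m : ℕ} (x : Fin m → ℂ) (η : Crs) (τ : ℝ × ℝ) (s : ℝ) : Ins := fun r O a b y =>
  ERR6 (Dv τ) par6 η s (PBT3.pI (wa τ) (wb τ)) (PBT3.qI (wa τ) (wb τ)) (rowsD x)
    (XI k x τ) (D1v τ) (EI k x τ) (lgI ep x τ) (kov6 k) r O a b y -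
  Qst η (rowsD x) (XI k x τ) r O a b y

/-- the normed test function -/
def gvI (ep C : ℝ) (k : ℕ) {m : ℕ} (x : Fin m → ℂ) (τ : ℝ × ℝ) (s : ℝ) (r : ℕ) (O : Fin r → Xo)
    (b : Bool) (z : ℂ) : ℂ :=
  (((C * Szv k τ * (1 + Real.log k) * (r + 1) : ℝ) : ℂ)⁻¹) *
    (EI k x τ b z + fMH s (XI k x τ) (D1v τ) (lgI ep x τ) (kov6 k) r O b z)

/-- objects and constants, (G1) of `G12_I` -/
def G1I (ep C : ℝ) (k : ℕ) {m : ℕ} (x : Fin m → ℂ) (τ : ℝ × ℝ) (s : ℝ) : Prop :=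
  ∀ (r : ℕ) (O : Fin r → Xo), ‖stO6 (Dv τ) par6 O +
      ∑ b, (∫ t : ℝ, Fil.b b * rowsD x t * fMH s (XI k x τ) (D1v τ) (lgI ep x τ) (kov6 k) r O b t) -
      s * PBT3.qI (wa τ) (wb τ) - PBT3.pI (wa τ) (wb τ)‖ ≤
    C * (1 + Mv τ) ^ 2 * Real.exp (2 * Mv τ) * ∑ i, Real.exp (-(2 * |ht (O i)|)) +
      C * Szv k τ * (1 + Real.log k) * (r + 1)

/-- the linear statistic, (G2) of `G12_I` -/
def G2I (ep C : ℝ) (k : ℕ) {m : ℕ} (x : Fin m → ℂ) (τ : ℝ × ℝ) (s : ℝ) : Prop :=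
  ∀ (r : ℕ) (O : Fin r → Xo) (b : Bool),
    BC (-(ep / 8)) (ep / 8) (C * Szv k τ * (1 + Real.log k) * (r + 1))
      (fun z => EI k x τ b z + fMH s (XI k x τ) (D1v τ) (lgI ep x τ) (kov6 k) r O b z)

theorem lin_absI {A : ℂ} {α M : ℝ} (hA : ‖A‖ ≤ α + M) (hα : 0 ≤ α) (hM : 0 < M) (η : Crs) (ρ : ℂ → ℂ)
    (g : Bool → ℂ → ℂ) (r : ℕ) (O : Fin r → Xo) (a b : ℕ) (y : (Fin a → ℝ) × (Fin b → ℝ)) :
    ‖A + Vst η ρ g r O a b y‖ₑ ≤ ENNReal.ofReal (α + 2 * M) *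
      nuE (fun t => ρ t) (η r O) (fun z => ((M : ℂ)⁻¹) * g true z)
        (fun z => ((M : ℂ)⁻¹) * g false z) y := by
  rw [Vst_eqI]
  refine (enorm_add_le _ _).trans ?_
  have h3 := enorm_Vy_nuEI η hM ρ g r O a b y
  have h4 : ‖A‖ₑ ≤ ENNReal.ofReal (α + M) := by
    rw [← ofReal_norm]
    exact ENNReal.ofReal_le_ofReal hA
  have h5 := one_le_nuEI (fun t => ρ t) (η r O) (fun z => ((M : ℂ)⁻¹) * g true z)
        (fun z => ((M : ℂ)⁻¹) * g false z) y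
  have e2 : α + 2 * M = (α + M) + M := by ring
  rw [e2, ENNReal.ofReal_add (by positivity) hM.le, add_mul]
  exact add_le_add (h4.trans (le_mul_of_one_le_right' h5)) h3

theorem ERLI_le {ep C : ℝ} {k m : ℕ} {x : Fin m → ℂ} {η : Crs} {τ : ℝ × ℝ} {s : ℝ} (hC : 1 ≤ C)
    (hk : 1 ≤ k) (h1 : G1I ep C k x τ s) (r : ℕ) (O : Fin r → Xo) (a b : ℕ)
    (y : (Fin a → ℝ) × (Fin b → ℝ)) :
    ‖ERLI ep k x η τ s r O a b y‖ₑ ≤ ENNReal.ofReal (wv C k τ r O) *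
      nuE (fun t => rowsD x t) (η r O) (gvI ep C k x τ s r O true) (gvI ep C k x τ s r O false) y := by
  have hk1 : (1 : ℝ) ≤ k := by exact_mod_cast hk
  have hL : 0 ≤ Real.log k := Real.log_nonneg hk1
  have hS := Szv_pos hk τ
  have hr : (0 : ℝ) < (r : ℝ) + 1 := by positivity
  have hM0 : 0 < C * Szv k τ * (1 + Real.log k) * (r + 1) := by positivity
  have hp : 0 ≤ C * (1 + Mv τ) ^ 2 * Real.exp (2 * Mv τ) *
      ∑ i, Real.exp (-(2 * |ht (O i)|)) := by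
    have : 0 ≤ ∑ i, Real.exp (-(2 * |ht (O i)|)) := Finset.sum_nonneg fun i _ => (Real.exp_pos _).le
    positivity
  have e2 : wv C k τ r O = C * (1 + Mv τ) ^ 2 * Real.exp (2 * Mv τ) *
      ∑ i, Real.exp (-(2 * |ht (O i)|)) + 2 * (C * Szv k τ * (1 + Real.log k) * (r + 1)) := by
    unfold wv
    ring
  have e3 : ERLI ep k x η τ s r O a b y = _ := ERR6_sub _ _ _ _ _ _ _ _ _ _ _ _ r O a b y
  rw [e3, e2]
  exact lin_absI (h1 r O) hp hM0 _ _ _ _ _ _ _ _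

theorem BC_gvI {ep C : ℝ} {k m : ℕ} {x : Fin m → ℂ} {τ : ℝ × ℝ} {s : ℝ} (hC : 1 ≤ C) (hk : 1 ≤ k)
    (h : G2I ep C k x τ s) (r : ℕ) (O : Fin r → Xo) (b : Bool) :
    BC (-(ep / 8)) (ep / 8) 1 (gvI ep C k x τ s r O b) := by
  have hk1 : (1 : ℝ) ≤ k := by exact_mod_cast hk
  have hL : 0 ≤ Real.log k := Real.log_nonneg hk1
  have hS := Szv_pos hk τ
  have hr : (0 : ℝ) < (r : ℝ) + 1 := by positivity
  exact (h r O b).normed (by positivity)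

/-- **the linear part of the error under `UBI`** -/
theorem lin_bdI {ep e1 ε C bd : ℝ} {k m : ℕ} {x : Fin m → ℂ} {τ : ℝ × ℝ} {s : ℝ}
    {Z : Bool → Option O3 → ℂ → ℂ} {c : ℂ} {N : ℕ} {η η' : Crs}
    (h : UBI Z par6 c N η η' e1 k 2 6 (-(ep / 8)) (ep / 8) ((k : ℝ) ^ ε * bd) fun t => rowsD x t)
    (hC : 1 ≤ C) (hk : 1 ≤ k) (hbd : 0 ≤ bd) (hMC : MC6 Z par6 η η') (h1 : G1I ep C k x τ s)
    (h2 : G2I ep C k x τ s) (hm : MIn (ERLI ep k x η τ s)) :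
    ∫⁻ y, ‖wI Z par6 c N η η' y‖ₑ * ‖evN6 (fun _ => ERLI ep k x η τ s) y‖ₑ ∂(mN6 N) ≤
      ENNReal.ofReal (E1v (2 * C) e1 ε k (Mv τ) * bd) := by
  refine (lint_wI hMC (Ψ := fun _ => ERLI ep k x η τ s) (fun _ _ => hm)
    (φ := fun r O a b y => ENNReal.ofReal (wv C k τ r O) * nuE (fun t => rowsD x t) (η r O)
      (gvI ep C k x τ s r O true) (gvI ep C k x τ s r O false) y)
    (fun _ _ r O a b y => ERLI_le hC hk h1 r O a b y)).trans ?_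
  have h3 := h (Bv C e1 k τ) (Bv_nonneg hC hk τ) (wv C k τ) (fun r O => OW_wv hC hk τ r O)
    (fun r O _ => gvI ep C k x τ s r O true) (fun r O _ => gvI ep C k x τ s r O false)
    (fun r O _ => ⟨BC_gvI hC hk h2 r O true, BC_gvI hC hk h2 r O false⟩)
  refine le_trans (FSI_mono fun r O a b y => ?_) (h3.trans ?_)
  · rw [Fin.prod_univ_two]
    refine mul_le_mul' le_rfl (le_mul_of_one_le_right' (one_le_nuEI _ _ _ _ _))
  · refine ENNReal.ofReal_le_ofReal ?_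
    rw [← mul_assoc]
    exact mul_le_mul_of_nonneg_right (Bv_E1 hC hk τ) hbd

/-! ### the quadratic part -/

/-- **the quadratic part of the error under `UBI`** -/
theorem quad_bdI : ∃ C : ℝ, 0 < C ∧ ∀ {e1 ε bd : ℝ} {k m : ℕ} {x : Fin m → ℂ} {τ : ℝ × ℝ}
    {Z : Bool → Option O3 → ℂ → ℂ} {c : ℂ} {N : ℕ} {η η' : Crs},
    UBI Z par6 c N η η' e1 k 2 6 (-(NUMF.l / 10)) (NUMF.l / 10) ((k : ℝ) ^ ε * bd)
      (fun t => rowsD x t) → AxC k x → 0 ≤ bd → MC6 Z par6 η η' → MCr η η' →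
    (∀ (r : ℕ) (O : Fin r → Xo) t, |η r O t| ≤ NUMF.l / 10) →
    ∫⁻ y, ‖wI Z par6 c N η η' y‖ₑ * ‖evN6 (fun _ => Qst η (rowsD x) (XI k x τ)) y‖ₑ ∂(mN6 N) ≤
      ENNReal.ofReal (E2v C ε k (Mv τ) * bd) := by
  obtain ⟨Cx, hCx, hX⟩ := xbd_I
  have hl := NUMF.l_pos
  obtain ⟨C, hC, H⟩ := quadI YOk_v (by linarith)
  refine ⟨C * Cx, by positivity, ?_⟩
  intro e1 ε bd k m x τ Z c N η η' h hx hbd hMC hmc hη
  have hL := hx.log
  have hS := Szv_pos hx.k0 τ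
  have hk0 := hx.kpos
  have h3 := H h hMC hmc le_rfl (by norm_num) hη (by positivity) (rowsD_int hx) (meas_rowsD_re x)
    (Cx * Szv k τ) (5 * Real.log k) (XI k x τ) (by positivity) (by positivity) (hX k m x hx τ)
  refine h3.trans (le_of_eq ?_)
  congr 1
  unfold E2v Szv
  ring

/-! ### the error on the path -/

theorem lint_WI {pf : ℂ} {m : ℕ} {x : Fin m → ℂ} {τ : ℝ × ℝ} {Z : Bool → Option O3 → ℂ → ℂ} {N : ℕ}
    {η η' : Crs} {Y : CfN6 N → ℝ≥0∞} {E : ℝ} (hk : PBT3.k1T τ ≠ 0)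
    (h : ∫⁻ y, ‖wI (expZ Z (Dv τ) 1) par6 (pfW pf x τ) N η η' y‖ₑ * Y y ∂(mN6 N) ≤
      ENNReal.ofReal (E * Real.exp (-mTv τ))) :
    ENNReal.ofReal (‖(1 : ℂ)‖ * Real.exp (-(κI x τ).re)) *
      ∫⁻ y, ‖wN6 (expN (fun _ => Z) (fun _ => Dv τ) 1) (fun _ => par6)
        N (fun _ => η) (fun _ => η') (fun _ => pf) y‖ₑ * Y y
        ∂(mN6 N) ≤ ENNReal.ofReal (E * (Real.exp (-mTv τ) / ‖PBT3.k1T τ‖)) := by
  rw [norm_one, one_mul]
  refine lint_div (norm_pos_iff.2 hk) (Real.exp_pos _) (le_trans (le_of_eq ?_) h)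
  have e1 : ENNReal.ofReal (‖PBT3.k1T τ‖ * Real.exp (-(κI x τ).re)) =
      ‖PBT3.k1T τ * Complex.exp (-κI x τ)‖ₑ := by
    rw [← ofReal_norm, norm_mul, Complex.norm_exp, Complex.neg_re]
  rw [e1, ← lintegral_const_mul' _ _ enorm_ne_top]
  refine lintegral_congr fun y => ?_
  have e2 : wI (expZ Z (Dv τ) 1) par6 (pfW pf x τ) N η η' y = PBT3.k1T τ * Complex.exp (-κI x τ) *
      wN6 (expN (fun _ => Z) (fun _ => Dv τ) 1) (fun _ => par6) N (fun _ => η) (fun _ => η')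
        (fun _ => pf) y := by
    show PBT3.k1T τ * (Complex.exp (-κI x τ) * pf) * _ = PBT3.k1T τ * Complex.exp (-κI x τ) * (pf * _)
    rw [← mul_assoc (PBT3.k1T τ), mul_assoc (PBT3.k1T τ * Complex.exp (-κI x τ))]
    rfl
  rw [e2, enorm_mul (PBT3.k1T τ * Complex.exp (-κI x τ)), mul_assoc]

variable {ep e1 ε : ℝ} {k m : ℕ} {x : Fin m → ℂ} {τ : ℝ × ℝ} {Z : Bool → Option O3 → ℂ → ℂ} {pf : ℂ}
  {N : ℕ} {η η' : Crs}

/-- integrability at the left end, from the bound of the mass -/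
theorem TRd.wi (h : TRd ep e1 ε k x τ Z pf N η η') (hMC : MC6 Z par6 η η') :
    WI (mN6 N) (wN6 (fun _ => Z) (fun _ => par6) N (fun _ => η) (fun _ => η') (fun _ => pf))
      (fun _ => 1) := by
  have hOW : OWC e1 6 1 k fun _ _ => 1 := by
    intro r O
    have h1 : (1 : ℝ) ≤ 6 ^ r := one_le_pow₀ (by norm_num)
    have h2 := one_le_gPi (e1 := e1) (L := Real.log k) (fun j => ht (O j))
    rw [one_mul]
    exact one_le_mul_of_one_le_of_one_le h1 h2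
  have h0 : ∀ (r : ℕ) (O : Fin r → Xo) (j : Fin 2), BC (-(ep / 8)) (ep / 8) 1 (fun _ => (0 : ℂ)) ∧
      BC (-(ep / 8)) (ep / 8) 1 (fun _ => (0 : ℂ)) := fun r O j => ⟨zero_BCI _ _, zero_BCI _ _⟩
  have key := h.V1 1 zero_le_one (fun _ _ => 1) hOW (fun _ _ _ _ => 0) (fun _ _ _ _ => 0) h0
  refine WI_wI (c := pf) hMC (Ψ := fun _ _ _ _ _ _ => 1) (fun n _ => MIn.one)
    (φ := fun r O _ _ y => ENNReal.ofReal 1 * ∏ _j : Fin 2, nuE (fun t => rowsD x t) (η r O)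
      (fun _ => 0) (fun _ => 0) y) (fun n _ r O a b y => ?_) (key.trans_lt ENNReal.ofReal_lt_top)
  rw [ENNReal.ofReal_one, one_mul, enorm_one]
  exact one_le_prod_nuEI _ _ (fun _ _ => 0) (fun _ _ => 0) y

/-- **the error on the path** -/
theorem hE_I : ∃ C' : ℝ, 0 < C' ∧ ∀ {ep e1 ε : ℝ} {k m : ℕ} {x : Fin m → ℂ} {τ : ℝ × ℝ}
    {Z : Bool → Option O3 → ℂ → ℂ} {pf : ℂ} {N : ℕ} {η η' : Crs}, TRd ep e1 ε k x τ Z pf N η η' →
    PBT3.k1T τ ≠ 0 → ∀ C : ℝ, 1 ≤ C → ∀ s : ℝ, 0 ≤ s → s ≤ 1 → G1I ep C k x τ s → G2I ep C k x τ s →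
      ‖nFI' Z pf N η η' x τ s - (s * PBT3.qI (wa τ) (wb τ) + PBT3.pI (wa τ) (wb τ)) *
        nFI Z pf N η η' x τ s‖ ≤ (E1v (2 * C) e1 ε k (Mv τ) + E2v C' ε k (Mv τ)) *
        (Real.exp |τ.1 + τ.2| ^ (1 - s) * (Real.exp (-mTv τ) / ‖PBT3.k1T τ‖) ^ s) := by
  obtain ⟨C1, hC1, HQ⟩ := quad_bdI
  refine ⟨C1, hC1, ?_⟩
  intro ep e1 ε k m x τ Z pf N η η' h hk1 C hC s hs0 hs1 g1 g2
  obtain ⟨B, hB⟩ := h.path
  have mV : MC6 Z par6 η η' := hB.mc0 0 (Nat.zero_le _)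
  have mW : MC6 (expZ Z (Dv τ) 1) par6 η η' := hB.mc 1 0 (Nat.zero_le _)
  have hI := h.wi mV
  obtain ⟨κ, LZ, hMean⟩ := h.mean (s : ℂ)
  have hkn := h.hx.k0
  have hkp := h.hx.kpos
  have hlog := h.hx.log
  have hmc := h.mc
  have hEm := hMean.mE hmc (hB.mst 0 (Nat.zero_le _)) (PBT3.pI (wa τ) (wb τ)) (PBT3.qI (wa τ) (wb τ))
  have hQm := MIn_Qst6 hMean.b1_pos hMean.zc_lt hMean.sea hMean.fld hmc
  have hLm : MIn (ERLI ep k x η τ s) := fun r a b => (hEm r a b).sub (hQm r a b)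
  set Y : Bool → CfN6 N → ℝ≥0∞ := fun b y => if b then
    ‖evN6 (fun _ => ERLI ep k x η τ s) y‖ₑ else
    ‖evN6 (fun _ => Qst η (rowsD x) (XI k x τ)) y‖ₑ with hY
  set Ec : Bool → ℝ := fun b => if b then E1v (2 * C) e1 ε k (Mv τ) else
    E2v C1 ε k (Mv τ) with hEc
  have hkε : 0 < (k : ℝ) ^ ε := Real.rpow_pos_of_pos hkp _
  have hk3 : 0 < (k : ℝ) ^ (-(3 / 4 * (1 - 4 * e1))) := Real.rpow_pos_of_pos hkp _
  have hM0 := MvF_nonneg τ
  have hEpos : ∀ b ∈ (Finset.univ : Finset Bool), 0 < Ec b := by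
    intro b _
    cases b
    · simp only [hEc, E2v, Bool.false_eq_true, if_false]
      positivity
    · simp only [hEc, E1v, if_true]
      positivity
  have hYm : ∀ b ∈ (Finset.univ : Finset Bool), Measurable (Y b) := by
    intro b _
    cases b
    · exact (evN_meas6 fun _ _ => hQm).enorm
    · exact (evN_meas6 fun _ _ => hLm).enorm
  have hb0 : ∀ b ∈ (Finset.univ : Finset Bool), ENNReal.ofReal ‖(1 : ℂ)‖ *
      ∫⁻ y, ‖wN6 (fun _ => Z) (fun _ => par6) N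
        (fun _ => η) (fun _ => η') (fun _ => pf) y‖ₑ * Y b y
        ∂(mN6 N) ≤ ENNReal.ofReal (Ec b * Real.exp |τ.1 + τ.2|) := by
    intro b _
    rw [norm_one, ENNReal.ofReal_one, one_mul]
    cases b
    · exact HQ h.V2 h.hx (Real.exp_pos _).le mV hmc h.nr
    · exact lin_bdI h.V1 hC hkn (Real.exp_pos _).le mV g1 g2 hLm
  have hb1 : ∀ b ∈ (Finset.univ : Finset Bool),
      ENNReal.ofReal (‖(1 : ℂ)‖ * Real.exp (-(κI x τ).re)) *
      ∫⁻ y, ‖wN6 (expN (fun _ => Z) (fun _ => Dv τ) 1) (fun _ => par6)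
        N (fun _ => η) (fun _ => η') (fun _ => pf) y‖ₑ * Y b y
        ∂(mN6 N) ≤ ENNReal.ofReal (Ec b * (Real.exp (-mTv τ) / ‖PBT3.k1T τ‖)) := by
    intro b _
    refine lint_WI hk1 ?_
    cases b
    · exact HQ h.W2 h.hx (Real.exp_pos _).le mW hmc h.nr
    · exact lin_bdI h.W1 hC hkn (Real.exp_pos _).le mW g1 g2 hLm
  have hμ1 : 0 < Real.exp (-mTv τ) / ‖PBT3.k1T τ‖ := div_pos (Real.exp_pos _) (norm_pos_iff.2 hk1)
  have hmean := mean_N6 hB hI (fun n _ => hMean) (κ0 := κI x τ) (fun n _ => rfl)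
    (PBT3.pI (wa τ) (wb τ)) (PBT3.qI (wa τ) (wb τ)) Finset.univ (Y := Y) hYm (by
      intro y
      rw [Fintype.sum_bool]
      have e : evN6 (fun n => ERR6 (Dv τ) par6 η (s : ℂ)
          (PBT3.pI (wa τ) (wb τ)) (PBT3.qI (wa τ) (wb τ)) (rowsD x) (XI k x τ) (D1v τ) (EI k x τ)
          (lgI ep x τ) (kov6 k)) y = evN6 (fun _ => ERLI ep k x η τ s) y +
          evN6 (fun _ => Qst η (rowsD x) (XI k x τ)) y := by
        unfold evN6 ev6 ERLI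
        exact (sub_add_cancel _ _).symm
      rw [e]
      exact enorm_add_le _ _)
  have key := nF_err6 hB Finset.univ hYm hs0 hs1 (Real.exp_pos _) hμ1 hEpos one_ne_zero hb0 hb1 hmean
  rw [Fintype.sum_bool] at key
  exact key

/-! ### (H3) -/

/-- **(H3) between the two ends of the s-path**, uniform in the data -/
theorem h3_I {c1 : ℝ} (hc1 : c1 < 3 / 4) : ∃ e0 : ℝ, 0 < e0 ∧ ∀ ep e1 ε : ℝ, 0 < ep → ep ≤ 1 / 100 →
    0 < e1 → ε + 3 * e1 ≤ e0 → ∃ k0 : ℕ, ∀ k ≥ k0, ∀ (m : ℕ) (x : Fin m → ℂ) (τ : ℝ × ℝ)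
    (Z : Bool → Option O3 → ℂ → ℂ) (pf : ℂ) (N : ℕ) (η η' : Crs), okv k τ →
    TRd ep e1 ε k x τ Z pf N η η' →
      ‖PBT3.k1T τ‖ * ‖nFI Z pf N η η' x τ 1 - Complex.exp (PBT3.gF τ) * nFI Z pf N η η' x τ 0‖ ≤
        (k : ℝ) ^ (-c1) := by
  set e := (3 / 4 - c1) / 2 with he
  have he0 : 0 < e := by rw [he]; linarith
  refine ⟨e / 2, by positivity, fun ep e1 ε hep hep1 he1 hsm => ?_⟩
  obtain ⟨C', hC', hE⟩ := hE_I
  obtain ⟨C, hC, hG⟩ := G12_I hep hep1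
  obtain ⟨A, hA, hk1⟩ := PBT3.k1T_le
  obtain ⟨Cg, hCg, hgF⟩ := PBT3.gF_re
  obtain ⟨Cp, hCp, hpF⟩ := PBT3.pF_re
  set A' := max A 1 with hA'
  set Cc := max Cg Cp with hCc
  have hCc0 : 0 ≤ Cc := le_max_of_le_left hCg
  have hlim : Tendsto (fun k : ℕ => 3 * A' * Real.exp (2 * Cc) * (k : ℝ) ^ (-(3 / 4 - e - c1)))
      atTop (nhds (3 * A' * Real.exp (2 * Cc) * 0)) :=
    ((tendsto_rpow_neg_atTop (by rw [he]; linarith)).comp tendsto_natCast_atTop_atTop).const_mul _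
  rw [mul_zero] at hlim
  have hev : ∀ᶠ k : ℕ in atTop, (∀ M : ℝ, 0 ≤ M → M ≤ Real.log k →
      E1v (2 * C) e1 ε k M + E2v C' ε k M ≤ (k : ℝ) ^ e * PBTs.Er k M) ∧
      3 * A' * Real.exp (2 * Cc) * (k : ℝ) ^ (-(3 / 4 - e - c1)) ≤ 1 := by
    filter_upwards [E_le (C := 2 * C) (C' := C') (e := e) (e1 := e1) (ε := ε) (by positivity)
      hC'.le he1.le (by linarith), hlim.eventually_le_const one_pos] with k f1 f2
    exact ⟨f1, f2⟩
  obtain ⟨k0, hk0'⟩ := eventually_atTop.1 hev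
  refine ⟨k0, fun k hk m x τ Z pf N η η' hok h => ?_⟩
  obtain ⟨f1, f2⟩ := hk0' k hk
  have f5 := h.hx.k0
  have hκ : (1 : ℝ) ≤ k := by exact_mod_cast f5
  have hκ0 : (0 : ℝ) < k := by linarith
  rcases eq_or_ne (PBT3.k1T τ) 0 with hz | hz
  · rw [hz, norm_zero, zero_mul]
    exact Real.rpow_nonneg hκ0.le _
  obtain ⟨B, hB⟩ := h.path
  have hI := h.wi (hB.mc0 0 (Nat.zero_le _))
  have hnn : ∀ s : ℝ, 0 ≤ Real.exp |τ.1 + τ.2| ^ (1 - s) *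
      (Real.exp (-mTv τ) / ‖PBT3.k1T τ‖) ^ s := fun s =>
    mul_nonneg (Real.rpow_nonneg (Real.exp_pos _).le _)
      (Real.rpow_nonneg (div_nonneg (Real.exp_pos _).le (norm_nonneg _)) _)
  have hM0 := MvF_nonneg τ
  have key := PBTs.h3_pt (k1 := PBT3.k1T τ) (F := nFI Z pf N η η' x τ) (F' := nFI' Z pf N η η' x τ)
    (p := PBT3.pI (wa τ) (wb τ)) (q := PBT3.qI (wa τ) (wb τ))
    (m := fun s => Real.exp |τ.1 + τ.2| ^ (1 - s) * (Real.exp (-mTv τ) / ‖PBT3.k1T τ‖) ^ s)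
    (A := A') (C := Cc) (d := 1 / 20) (e := e) (e0 := 0) (e1 := 0) (κ := (k : ℝ)) (t := τ)
    (le_max_right _ _) hCc0 (by norm_num) hκ le_rfl le_rfl
    (by
      have : PBTs.mT τ = mTv τ := rfl
      rw [this]
      refine hok.trans (le_of_eq ?_)
      ring)
    ((hk1 τ).trans (mul_le_mul_of_nonneg_right (le_max_left _ _) (Real.exp_pos _).le))
    (by
      rw [gI_v]
      have h := abs_le.1 (hgF τ)
      have h' : Cg ≤ Cc := le_max_left _ _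
      linarith [h.2])
    (by
      rw [pI_v]
      have h := abs_le.1 (hpF τ)
      have h' : Cp ≤ Cc := le_max_right _ _
      linarith [h.1])
    (fun s _ => hasDerivAt_nF6 hB hI 1 (κI x τ) s)
    (fun s hs => by
      obtain ⟨g1, g2⟩ := hG k m x h.hx τ s hs.1 hs.2
      exact (hE h hz C hC s hs.1 hs.2 g1 g2).trans
        (mul_le_mul_of_nonneg_right (f1 (Mv τ) hM0 (Mv_le_log f5 hok)) (hnn s)))
    (fun s _ => hnn s)
    (fun s _ => by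
      simp only [sub_zero, Real.rpow_one, Real.rpow_zero, mul_one, sub_self, one_mul, le_refl])
    (by simp only [sub_zero, Real.rpow_one, Real.rpow_zero, mul_one, one_mul, le_refl])
    (by
      simp only [sub_self, Real.rpow_one, Real.rpow_zero, one_mul]
      rw [mul_div_cancel₀ _ (norm_ne_zero_iff.2 hz)]
      exact le_rfl)
  rw [gI_v] at key
  refine key.trans ?_
  have e1' : (k : ℝ) ^ (e + 0 + 0 - 3 / 4) = (k : ℝ) ^ (-(3 / 4 - e - c1)) * (k : ℝ) ^ (-c1) := by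
    rw [← Real.rpow_add hκ0]
    congr 1
    ring
  rw [e1', ← mul_assoc]
  calc 3 * A' * Real.exp (2 * Cc) * (k : ℝ) ^ (-(3 / 4 - e - c1)) * (k : ℝ) ^ (-c1)
      ≤ 1 * (k : ℝ) ^ (-c1) := mul_le_mul_of_nonneg_right f2 (Real.rpow_nonneg hκ0.le _)
    _ = _ := one_mul _

end PLT.TV

end
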