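import Pool.Agent.PLT.STRAll
import Pool.Agent.PLT.SN
import Pool.Agent.PLT.TRsFI
import Pool.Agent.PLT.FamWI

/-!
# (S-TR), row STR.L: the path estimate (H3) from the bounds of the two families

* `SeaHD SB S`: the seas of the contents on the axis: bounds, straight curve, density of the rows;
* `cur_of`: the curve of every content; `dnc_of`: the density of the rows;
* `TRd_of`: the data of the path at one index, from the four master bounds;
* **`h3_of`**, **`h3S_of`**: (H3) of `str_of`, `str_all` from `UXC (famVI S) par6`, `UXC (famWI S) par6`.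
-/

set_option autoImplicit false
set_option linter.unusedSectionVars false
set_option linter.unusedVariables false

noncomputable section

open Complex MeasureTheory Finset Filter Topology
open PLX (Fil)

namespace PLT.St

open NUO NUP1 NUP1S NUP1S.Ab NUP1S.AbC NUGC NUGC.PLX PBF PBF.PLX PBU PBU.PLX PBFunc PBFunc.PLX PHK
open PBTV.PLX (wa wb Dv D1v Mv mTv okv)
open PBX (Rws)
open Pool.Agent.PB (Pf)
open PBForce (Rws0)
open _root_.Pool.Agent.PLX (yq rwq RU)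
open PBT3 (wt zt gF k1T)
open NUCR (CurB)
open PLT.MI PLT.TV

attribute [local instance] NUSea.seaP

/-- **the seas of the contents**: straight curve, density of the rows at the heights `h` -/
structure SeaHD (SB : SeaCB) (S : ℕ → (ℕ → ℝ) → SeaC) : Prop where
  sea : ∀ (m : ℕ) (h : ℕ → ℝ), 0 < m → HtS h → @SeaCU SB (S m h)
  eta : ∀ (m : ℕ) (h : ℕ → ℝ), 0 < m → HtS h → ∀ t, @Cv.eta (S m h) t = 0
  den : ∀ (m : ℕ) (h : ℕ → ℝ), 0 < m → HtS h → ∀ t : ℝ,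
    (m : ℂ) * @Cv.Pc (S m h) t = rhoI (xI m h) t

variable [Fil] {SB : SeaCB} {S : ℕ → (ℕ → ℝ) → SeaC}

theorem axC_xI {m : ℕ} (hm : 0 < m) {h : ℕ → ℝ} (hh : HtS h) : AxC m (xI m h) :=
  ⟨fun i => (rws0_xI hh m).re i, fun i => (rws0_xI hh m).im i, le_rfl, by omega, hm⟩

/-- **the density of the content** is the density of the sea -/
theorem dnc_of (hS : SeaHD SB S) {m : ℕ} (hm : 0 < m) {h : ℕ → ℝ} (hh : HtS h) :
    DNC 0 m (fun t => @Cv.Pc (S m h) t) fun t => RT.rowsD (xI m h) t := by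
  refine ⟨rowsD_int (axC_xI hm hh), le_of_eq ?_⟩
  have e : ∀ t : ℝ, RT.rowsD (xI m h) t - ((m : ℝ) : ℂ) * @Cv.Pc (S m h) t = 0 := by
    intro t
    have h3 : (m : ℂ) * @Cv.Pc (S m h) t = RT.rowsD (xI m h) t := hS.den m h hm hh t
    rw [ofReal_natCast, h3, sub_self]
  simp only [e, norm_zero, integral_zero]

/-- **the curve of every content** -/
theorem cur_of (hS : SeaHD SB S) {ep e1 J : ℝ} (hep : 0 < ep) (he : 0 < e1) (he1 : e1 ≤ 1 / 100)
    (hJ : 0 ≤ J) : ∀ᶠ m : ℕ in atTop, ∀ h, HtS h →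
      CurB ep (@Cv.etaC (S m h) e1 J m m) (@Cv.etaC' (S m h) e1 J m m) := by
  obtain ⟨m1, -, Hc⟩ := SW.curB_etaC he he1 hJ hep SB
  filter_upwards [eventually_ge_atTop m1, eventually_ge_atTop 1] with m j1 j2 h hh
  exact @Hc (S m h) (hS.sea m h j2 hh) m j1

theorem okv_of {m : ℕ} {i : (ℕ → ℝ) × (ℝ × ℝ)} (h : okI m i) : okv m i.2 := by
  obtain ⟨-, h1, h2⟩ := h
  have h3 := abs_sub i.2.1 i.2.2
  show 2 * |i.2.1| + 2 * |i.2.2| + |i.2.1 - i.2.2| / 2 ≤ 17 / 40 * Real.log m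
  have h4 := abs_nonneg i.2.1
  linarith

/-- **the data of the path at one index** -/
theorem TRd_of {ep e1 ε : ℝ} (hep0 : 0 < ep) (hep : ep ≤ 1 / 100) {m : ℕ} (hm : 0 < m) {h : ℕ → ℝ}
    (hh : HtS h) {η η' : ℝ → ℝ} (hc : CurB ep η η') {τ : ℝ × ℝ}
    (V1 : UBI (ZvI ep (xI m h) τ) par6 (PvI (xI m h) τ) (2 * m) (fun _ _ => η) (fun _ _ => η') e1 m 2 6
      (-(ep / 8)) (ep / 8) ((m : ℝ) ^ ε * Real.exp |τ.1 + τ.2|) fun t => RT.rowsD (xI m h) t)
    (V2 : UBI (ZvI ep (xI m h) τ) par6 (PvI (xI m h) τ) (2 * m) (fun _ _ => η) (fun _ _ => η') e1 m 2 6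
      (-(NUMF.l / 10)) (NUMF.l / 10) ((m : ℝ) ^ ε * Real.exp |τ.1 + τ.2|) fun t => RT.rowsD (xI m h) t)
    (W1 : UBI (expZ (ZvI ep (xI m h) τ) (Dv τ) 1) par6 (k1T τ * (Complex.exp (-κvI (xI m h) τ) *
      PvI (xI m h) τ)) (2 * m) (fun _ _ => η) (fun _ _ => η') e1 m 2 6
      (-(ep / 8)) (ep / 8) ((m : ℝ) ^ ε * Real.exp (-mTv τ)) fun t => RT.rowsD (xI m h) t)
    (W2 : UBI (expZ (ZvI ep (xI m h) τ) (Dv τ) 1) par6 (k1T τ * (Complex.exp (-κvI (xI m h) τ) *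
      PvI (xI m h) τ)) (2 * m) (fun _ _ => η) (fun _ _ => η') e1 m 2 6
      (-(NUMF.l / 10)) (NUMF.l / 10) ((m : ℝ) ^ ε * Real.exp (-mTv τ)) fun t => RT.rowsD (xI m h) t) :
    TRd ep e1 ε m (xI m h) τ (ZvI ep (xI m h) τ) (PvI (xI m h) τ) (2 * m) (fun _ _ => η)
      (fun _ _ => η') where
  hx := axC_xI hm hh
  mc := mcr_of hc
  nr := fun r O t => by
    have hl := NUMF.l_pos
    have h1 := hc.h1 t
    have e : NUP1.l = NUMF.l := rfl
    rw [e] at h1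
    exact h1.trans (by nlinarith)
  V1 := V1
  V2 := V2
  W1 := W1
  W2 := W2
  mean := fun s => by
    have hx : RT.AxR (xI m h) := fun i => ⟨(rws0_xI hh m).re i, (rws0_xI hh m).im i⟩
    have hq : 0 < qI m := by
      unfold qI
      have : (0 : ℝ) < m := by exact_mod_cast hm
      positivity
    exact ⟨_, _, SN.mean_I hep0 hep (FI.CrsB.of hc) hm hx (c := fun a => Leg.cc (Nq m a))
      (c0 := 2 * Real.cos NUP1.l) (fun a => PBX.norm_cc _) (g0 := gI (xI m h))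
      (meas_gI (rws_of (rws0_xI hh m))) (q := qI m) hq τ s⟩
  path := pathI (rws_of (rws0_xI hh m)) (mcr_of hc) (fun t => by
    have hl := NUP1.l_pos
    exact (hc.h1 t).trans (by nlinarith)) τ

/-- **(H3)** of `str_of` -/
theorem h3_of (hS : SeaHD SB S) (hV : UXC (famVI S) par6) (hW : UXC (famWI S) par6) {c2 : ℝ}
    (hc2 : c2 < 3 / 4) : ∃ a0 : ℝ, 0 < a0 ∧ ∀ ep e1 J : ℝ, 0 < ep → 0 < e1 → 0 ≤ J →
      Real.exp (-(2 * Real.pi * J)) + 3 * e1 + 3 * ep ≤ a0 →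
      ∀ᶠ m : ℕ in atTop, ∀ h τ, okI m (h, τ) →
        ‖k1T τ‖ * ‖nFvI ep (xI m h) (crI S e1 J m h) (crI' S e1 J m h) τ 1 -
          Complex.exp (gF τ) * nFvI ep (xI m h) (crI S e1 J m h) (crI' S e1 J m h) τ 0‖ ≤
            (m : ℝ) ^ (-c2) := by
  have hl := NUMF.l_pos
  obtain ⟨e0, he0, H3⟩ := h3_I hc2
  obtain ⟨aV, haV, HV⟩ := hV 2 6 (e0 / 2) (by positivity)
  obtain ⟨aW, haW, HW⟩ := hW 2 6 (e0 / 2) (by positivity)
  refine ⟨min (min aV aW) (min (e0 / 2) (3 / 100)), by positivity, ?_⟩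
  intro ep e1 J hep he1 hJ hsm
  have hE := Real.exp_pos (-(2 * Real.pi * J))
  have q1 := hsm.trans ((min_le_left _ _).trans (min_le_left _ _))
  have q2 := hsm.trans ((min_le_left _ _).trans (min_le_right _ _))
  have q3 := hsm.trans ((min_le_right _ _).trans (min_le_left _ _))
  have q4 := hsm.trans ((min_le_right _ _).trans (min_le_right _ _))
  have hep' : ep ≤ 1 / 100 := by linarith
  have he1' : e1 ≤ 1 / 100 := by linarith
  obtain ⟨k0, HK⟩ := H3 ep e1 (e0 / 2) hep hep' he1 (by linarith)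
  have hUV := HV ep e1 J hep he1 hJ q1
  have hUW := HW ep e1 J hep he1 hJ q2
  have y1 : -(ep / 8) < (famVI S).lo := by
    show -(ep / 8) < 0
    linarith
  have y2 : (famVI S).hi < ep / 8 := by
    show (0 : ℝ) < ep / 8
    linarith
  have y3 : -(NUMF.l / 10) < (famVI S).lo := by
    show -(NUMF.l / 10) < 0
    linarith
  have y4 : (famVI S).hi < NUMF.l / 10 := by
    show (0 : ℝ) < NUMF.l / 10
    linarith
  obtain ⟨m1, G1⟩ := UBI.of_UBC hUV 0 y1 y2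
  obtain ⟨m2, G2⟩ := UBI.of_UBC hUV 0 y3 y4
  obtain ⟨m3, G3⟩ := UBI.of_UBC hUW 0 (y₁ := -(ep / 8)) (y₂ := ep / 8) y1 y2
  obtain ⟨m4, G4⟩ := UBI.of_UBC hUW 0 (y₁ := -(NUMF.l / 10)) (y₂ := NUMF.l / 10) y3 y4
  filter_upwards [cur_of hS hep he1 he1' hJ, eventually_ge_atTop k0, eventually_ge_atTop m1,
    eventually_ge_atTop m2, eventually_ge_atTop m3, eventually_ge_atTop m4,
    eventually_ge_atTop 1] with m jc jk j1 j2 j3 j4 j5 h τ hok
  have hh : HtS h := hok.1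
  have hm : 0 < m := j5
  have hη0 := hS.eta m h hm hh
  have hD := @SW.dsp_straight _ (S m h) hη0 (@Cv.etaC (S m h) e1 J m m)
  have hD1 := @SW.dsp1_straight _ (S m h) hη0 (@Cv.etaC (S m h) e1 J m m) (@Cv.etaC' (S m h) e1 J m m)
  have hρ := dnc_of hS hm hh
  exact HK m jk m (xI m h) τ (ZvI ep (xI m h) τ) (PvI (xI m h) τ) (2 * m) (crI S e1 J m h)
    (crI' S e1 J m h) (okv_of (i := (h, τ)) hok)
    (TRd_of hep hep' hm hh (jc h hh) (G1 m j1 (h, τ) hok _ _ hD hD1 _ hρ)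
      (G2 m j2 (h, τ) hok _ _ hD hD1 _ hρ) (G3 m j3 (h, τ) hok _ _ hD hD1 _ hρ)
      (G4 m j4 (h, τ) hok _ _ hD hD1 _ hρ))

/-- **(H3) over the seas of the contents**, for all small parameters -/
theorem h3S_of (hS : SeaHD SB S) (hV : UXC (famVI S) par6) (hW : UXC (famWI S) par6) {c2 : ℝ}
    (hc2 : c2 < 3 / 4) : Sm3 (H3S S c2) := by
  obtain ⟨a0, ha0, H⟩ := h3_of hS hV hW hc2
  exact Sm3.of_sum ha0 H

end PLT.St

end
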