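import Mathlib.Data.Nat.Pairing
import Mathlib.Data.Nat.Find
import Mathlib.Analysis.SpecialFunctions.Pow.Real

/-!
# Uniformity by selection

A statement with constants which holds for every sequence of instances (one instance at each size) holds
with uniform constants.

* `sel`: one level of constants; `selR`: one real constant;
* **`sel2`**: two levels (`Λ` first, then parameters `e`, then the constants `Θ`); `sel2R`: the first one a small
  positive number (`a0`), the second one a real constant.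
-/

set_option autoImplicit false

namespace PLT

section one

variable {S Θ : Type*} [Nonempty S] {A : ℕ → S → Θ → Prop}

/-- the worst instance at every size -/
theorem exists_worst (θ : ℕ → Θ) : ∃ σ : ℕ → S, ∀ m n : ℕ, n ≤ m → (∃ s, ¬A m s (θ n)) →
    ∃ k, n ≤ k ∧ ¬A m (σ m) (θ k) := by
  classical
  have key : ∀ m : ℕ, ∃ s0 : S, ∀ n ≤ m, (∃ s, ¬A m s (θ n)) → ∃ k, n ≤ k ∧ ¬A m s0 (θ k) := by
    intro m
    by_cases h : ∃ n, n ≤ m ∧ ∃ s, ¬A m s (θ n)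
    · obtain ⟨N, hN⟩ : ∃ N, N = Nat.findGreatest (fun n => ∃ s, ¬A m s (θ n)) m := ⟨_, rfl⟩
      obtain ⟨n0, hn0, h0⟩ := h
      have h1 : ∃ s, ¬A m s (θ N) := by
        rw [hN]
        exact Nat.findGreatest_spec (P := fun n => ∃ s, ¬A m s (θ n)) hn0 h0
      obtain ⟨s0, hs0⟩ := h1
      refine ⟨s0, fun n hn hs => ⟨N, ?_, hs0⟩⟩
      rw [hN]
      exact Nat.le_findGreatest hn hs
    · refine ⟨Classical.arbitrary S, fun n hn hs => ?_⟩
      exact absurd ⟨n, hn, hs⟩ h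
  choose σ hσ using key
  exact ⟨σ, hσ⟩

/-- **selection**: constants `Θ` exhausted by `θ` -/
theorem sel (θ : ℕ → Θ) (hθ : ∀ t, ∃ n, ∀ k, n ≤ k → ∀ m s, A m s t → A m s (θ k))
    (h : ∀ σ : ℕ → S, ∃ t, ∃ m0, ∀ m ≥ m0, A m (σ m) t) :
    ∃ n m0 : ℕ, ∀ m ≥ m0, ∀ s, A m s (θ n) := by
  obtain ⟨σ, hσ⟩ := exists_worst (A := A) θ
  obtain ⟨t, m0, H⟩ := h σ
  obtain ⟨n, hn⟩ := hθ t
  refine ⟨n, max m0 n, fun m hm s => ?_⟩
  by_contra hs
  obtain ⟨k, hk, h1⟩ := hσ m n ((le_max_right _ _).trans hm) ⟨s, hs⟩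
  exact h1 (hn k hk m _ (H m ((le_max_left _ _).trans hm)))

end one

/-- **selection with one real constant** -/
theorem selR {S : Type*} [Nonempty S] {A : ℕ → S → ℝ → Prop}
    (hA : ∀ m s C C', C ≤ C' → A m s C → A m s C')
    (h : ∀ σ : ℕ → S, ∃ C, ∃ m0, ∀ m ≥ m0, A m (σ m) C) :
    ∃ C : ℝ, 0 ≤ C ∧ ∃ m0 : ℕ, ∀ m ≥ m0, ∀ s, A m s C := by
  obtain ⟨n, m0, H⟩ := sel (A := A) (fun n : ℕ => (n : ℝ)) (fun t => by
    obtain ⟨n, hn⟩ := exists_nat_ge t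
    refine ⟨n, fun k hk m s => hA m s t k (hn.trans ?_)⟩
    exact_mod_cast hk) h
  exact ⟨n, Nat.cast_nonneg n, m0, H⟩

section two

variable {S Λ E Θ : Type*} [Nonempty S] {Sm : Λ → E → Prop} {A : Λ → E → ℕ → S → Θ → Prop}

/-- **selection, two levels**: first constant `Λ` exhausted by `lam`, parameters `E` restricted by `Sm`, second
constant `Θ` exhausted by `θ` -/
theorem sel2 (lam : ℕ → Λ) (θ : ℕ → Θ)
    (hΛ : ∀ a, ∃ n, ∀ k, n ≤ k → ∀ e, Sm (lam k) e → Sm a e ∧ ∀ m s t, A a e m s t → A (lam k) e m s t)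
    (hθ : ∀ a e t, ∃ n, ∀ k, n ≤ k → ∀ m s, A a e m s t → A a e m s (θ k))
    (h : ∀ σ : ℕ → S, ∃ a, ∀ e, Sm a e → ∃ t, ∃ m0, ∀ m ≥ m0, A a e m (σ m) t) :
    ∃ n0 : ℕ, ∀ e, Sm (lam n0) e → ∃ n m0 : ℕ, ∀ m ≥ m0, ∀ s, A (lam n0) e m s (θ n) := by
  classical
  by_contra hc
  push Not at hc
  -- bad parameters for every first constant
  choose e he hbad using hc
  -- strictly increasing sizes: step `j` serves the pair `j.unpair`
  have step : ∀ (j N : ℕ), ∃ m, N < m ∧ ∃ s, ¬A (lam j.unpair.1) (e j.unpair.1) m s (θ j.unpair.2) := by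
    intro j N
    obtain ⟨m, hm, s, hs⟩ := hbad j.unpair.1 j.unpair.2 (N + 1)
    exact ⟨m, by omega, s, hs⟩
  choose f hf using step
  let M : ℕ → ℕ := fun j => Nat.rec (motive := fun _ => ℕ) (f 0 0) (fun i r => f (i + 1) r) j
  have hM0 : M 0 = f 0 0 := rfl
  have hMs : ∀ j, M (j + 1) = f (j + 1) (M j) := fun j => rfl
  have hMb : ∀ j, ∃ s, ¬A (lam j.unpair.1) (e j.unpair.1) (M j) s (θ j.unpair.2) := by
    intro j
    cases j with
    | zero => exact (hf 0 0).2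
    | succ i => exact (hf (i + 1) (M i)).2
  have hmono : StrictMono M := by
    refine strictMono_nat_of_lt_succ fun j => ?_
    rw [hMs]
    exact (hf (j + 1) (M j)).1
  choose s hs using hMb
  obtain ⟨σ, hσ⟩ : ∃ σ : ℕ → S, ∀ j, σ (M j) = s j :=
    ⟨Function.extend M s fun _ => Classical.arbitrary S, fun j => hmono.injective.extend_apply _ _ j⟩
  obtain ⟨a, H⟩ := h σ
  obtain ⟨n1, hn1⟩ := hΛ a
  obtain ⟨hS, hAa⟩ := hn1 n1 le_rfl (e n1) (he n1)
  obtain ⟨t, m0, H⟩ := H (e n1) hS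
  obtain ⟨n2, hn2⟩ := hθ (lam n1) (e n1) t
  -- a step which serves `(n1, k)` with `k` and the size large
  obtain ⟨k, hk⟩ : ∃ k, k = max n2 m0 := ⟨_, rfl⟩
  obtain ⟨j, hj⟩ : ∃ j, j = Nat.pair n1 k := ⟨_, rfl⟩
  have hju : j.unpair = (n1, k) := by rw [hj, Nat.unpair_pair]
  have hjk : k ≤ j := by rw [hj]; exact Nat.right_le_pair n1 k
  have hMj : m0 ≤ M j := by
    have h1 : j ≤ M j := hmono.le_apply
    have h2 : m0 ≤ k := by rw [hk]; exact le_max_right _ _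
    omega
  have h1 := hs j
  rw [hju] at h1
  have h2 := H (M j) hMj
  rw [hσ j] at h2
  refine h1 ?_
  exact hn2 k (by rw [hk]; exact le_max_left _ _) _ _ (hAa _ _ _ h2)

end two

/-- **selection**: first a small positive number, then a real constant -/
theorem sel2R {S E : Type*} [Nonempty S] {Sm : ℝ → E → Prop} {A : E → ℕ → S → ℝ → Prop}
    (hS : ∀ a a' e, a' ≤ a → Sm a' e → Sm a e)
    (hA : ∀ e m s C C', C ≤ C' → A e m s C → A e m s C')
    (h : ∀ σ : ℕ → S, ∃ a : ℝ, 0 < a ∧ ∀ e, Sm a e → ∃ C, ∃ m0, ∀ m ≥ m0, A e m (σ m) C) :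
    ∃ a : ℝ, 0 < a ∧ ∀ e, Sm a e → ∃ C : ℝ, 0 ≤ C ∧ ∃ m0 : ℕ, ∀ m ≥ m0, ∀ s, A e m s C := by
  obtain ⟨n0, H⟩ := sel2 (Λ := {a : ℝ // 0 < a}) (Sm := fun a e => Sm a.1 e)
    (A := fun _ e m s C => A e m s C) (fun k => ⟨1 / ((k : ℝ) + 1), by positivity⟩)
    (fun n : ℕ => (n : ℝ)) (fun a => by
      obtain ⟨n, hn⟩ := exists_nat_ge (1 / a.1)
      refine ⟨n, fun k hk e he => ⟨hS _ _ e ?_ he, fun _ _ _ h => h⟩⟩
      have ha := a.2
      have hk' : (n : ℝ) ≤ k := by exact_mod_cast hk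
      show 1 / ((k : ℝ) + 1) ≤ a.1
      rw [div_le_iff₀ (by positivity)]
      rw [div_le_iff₀ ha] at hn
      nlinarith) (fun _ e t => by
      obtain ⟨n, hn⟩ := exists_nat_ge t
      refine ⟨n, fun k hk m s => hA e m s t k (hn.trans ?_)⟩
      exact_mod_cast hk) (fun σ => by
      obtain ⟨a, ha, H⟩ := h σ
      exact ⟨⟨a, ha⟩, H⟩)
  refine ⟨1 / ((n0 : ℝ) + 1), by positivity, fun e he => ?_⟩
  obtain ⟨n, m0, H⟩ := H e he
  exact ⟨n, Nat.cast_nonneg n, m0, H⟩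

end PLT
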