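import Pool.Agent.PLT.H1R
import Pool.Agent.PLT.Sel

/-!
# (S-TR), row SH1.Mst: the regular function at rows on the axis as its class `W W` on the window (helper70)

`m` rows `x` of `X` on the imaginary axis, `q` copies, ends `0`; record `RI ep x` (`PLT/RV`).

* `SeqI σ`: the state sum over one sequence of contents (`SumBd6`, `ClOk6`, `‖nrI‖ exp (EM m) ≤ C`);
* `MsA`: the two bounds for one content; `ms_seq`: for one sequence; **`ms_I`**: for every `ε > 0`: the error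
  `C m ^ (-7/16 + ε)` and the bound `C m ^ ε exp (-mT τ)` of the integrand, uniformly in the content;
* `meas_KKI`: measurability of the integrand;
* **`h12_I`**, **`hm_I`**: the inputs `H1`, `H2`, `Hm` of `str_of`, any sea.
-/

set_option autoImplicit false
set_option linter.unusedSectionVars false

noncomputable section

open Complex MeasureTheory Finset Filter
open scoped ENNReal
open PLX (Fil Ends)

namespace PLT.St

open NUO NUP1 NUP1S NUP1S.Ab NUCR NUGC NUGC.PLX PHK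
open PBForce (Rws0)
open PBR.PLX (IsKD6 RFn6 EED6 preWW6 ZWW6)
open NURow (HT)
open PBO.PLX (LtS SumBd6 ClOk6 beC_bd6)
open PBF.PLX (Crs)
open PBTR (winW mT)
open PB0.PLX (KRU kDRU)
open _root_.Pool.Agent.PLX (yq rwq RU FFth)

attribute [local instance] _root_.PLX.ends0

variable [Fil]

/-- **the state sum over one sequence of contents** -/
def SeqI (h : ℕ → ℕ → ℝ) : Prop := ∃ (T : LtS) (EM : ℕ → ℝ) (MF : ℕ → Bool → NUSp.Cl → ℂ → ℝ)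
  (cw : ℝ → ℕ → HT → HT → ℝ × ℝ → PBR.PLX.Ch6 × PBR.PLX.Ch6 → ℝ) (C : ℝ),
  SumBd6 T EM MF (fun ep m => KRU (RI ep (xI m (h m)))) (fun ep m => kDRU (RI ep (xI m (h m)))) cw ∧
  ClOk6 T MF (fun ep m => KRU (RI ep (xI m (h m)))) (fun ep m => kDRU (RI ep (xI m (h m)))) cw ∧
  ∀ᶠ m : ℕ in atTop, ‖nrI (xI m (h m))‖ * Real.exp (EM m) ≤ C

/-- **the two bounds** with the constant `C`, one content -/
def MsA (ε ep : ℝ) (m : ℕ) (h : ℕ → ℝ) (C : ℝ) : Prop :=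
  ∀ η η' : ℝ × ℝ → Crs, (∀ y, ∀ r ≤ 2 * (2 * m + (2 * m + Fil.xn m)),
      ∀ᵐ O ∂(Measure.pi fun _ : Fin r => nu), CurB ep (η y r O) (η' y r O)) →
    ‖YI ep (xI m h) - (-1) ^ Fil.xn m *
        ∫ τ in winW (3 / 8) m, KKI ep (xI m h) (η τ) (η' τ) τ‖ ≤ C * (m : ℝ) ^ (-(7 / 16) + ε) ∧
      ∀ τ ∈ winW (3 / 8) m, ‖KKI ep (xI m h) (η τ) (η' τ) τ‖ ≤ C * ((m : ℝ) ^ ε * Real.exp (-(mT τ)))

theorem MsA.mono {ε ep : ℝ} {m : ℕ} {h : ℕ → ℝ} {C C' : ℝ} (hC : C ≤ C') (H : MsA ε ep m h C) :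
    MsA ε ep m h C' := by
  intro η η' hη
  obtain ⟨h1, h2⟩ := H η η' hη
  refine ⟨h1.trans (mul_le_mul_of_nonneg_right hC (Real.rpow_nonneg (Nat.cast_nonneg m) _)), fun τ hτ =>
    (h2 τ hτ).trans (mul_le_mul_of_nonneg_right hC ?_)⟩
  exact mul_nonneg (Real.rpow_nonneg (Nat.cast_nonneg m) _) (Real.exp_pos _).le

/-- the error in the names of the classes -/
theorem err_eq6 (ep : ℝ) {m : ℕ} (x : Fin m → ℂ) (η η' : ℝ × ℝ → Crs) (V : Set (ℝ × ℝ)) :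
    YI ep x - (-1) ^ Fil.xn m * ∫ τ in V, KKI ep x (η τ) (η' τ) τ =
      nrI x * (∑ n ∈ range (2 * m + 1), EED6 (RI ep x) (Fil.xn m) n - (2 * (Real.pi : ℂ))⁻¹ ^ 2 *
        ∫ y in V, preWW6 (RI ep x) y * ∑ n ∈ range (2 * m + 1),
          FF6 (ZWW6 (RI ep x) y) par6 n (n + Fil.xn m) (η y) (η' y) (fun _ _ _ _ _ => 1)) := by
  have e1 : ∫ τ in V, KKI ep x (η τ) (η' τ) τ = (-1) ^ Fil.xn m * (nrI x * (2 * (Real.pi : ℂ))⁻¹ ^ 2) *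
      ∫ y in V, preWW6 (RI ep x) y * ∑ n ∈ range (2 * m + 1),
          FF6 (ZWW6 (RI ep x) y) par6 n (n + Fil.xn m) (η y) (η' y) (fun _ _ _ _ _ => 1) := by
    rw [← integral_const_mul]
    exact integral_congr_ae (Eventually.of_forall fun y => KKI_eq6 ep x (η y) (η' y) y)
  have sgn : ((-1 : ℂ) ^ Fil.xn m) * (-1) ^ Fil.xn m = 1 := by
    rw [← mul_pow]
    norm_num
  rw [e1, YI_eq6]
  linear_combination (-(nrI x * (2 * (Real.pi : ℂ))⁻¹ ^ 2 *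
      ∫ y in V, preWW6 (RI ep x) y * ∑ n ∈ range (2 * m + 1),
          FF6 (ZWW6 (RI ep x) y) par6 n (n + Fil.xn m) (η y) (η' y) (fun _ _ _ _ _ => 1))) * sgn

/-- **one sequence of contents** -/
theorem ms_seq (hFF : FFth) {h : ℕ → ℕ → ℝ} (hh : ∀ m, HtS (h m)) (hS : SeqI h) {ε : ℝ} (hε : 0 < ε) :
    ∃ ep0 : ℝ, 0 < ep0 ∧ ∀ ep : ℝ, 0 < ep ∧ ep ≤ ep0 ∧ ep ≤ 1 / 100 → ∃ C : ℝ, ∃ m0 : ℕ,
      ∀ m ≥ m0, MsA ε ep m (h m) C := by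
  obtain ⟨T, EM, MF, cw, C0, hP, hK, hN⟩ := hS
  obtain ⟨n1, hn1⟩ := eventually_atTop.1 hN
  obtain ⟨m1, -, hdat⟩ := dat_RI
  obtain ⟨ep0, h0, h1, H⟩ := PLT.H1.mst_famN (mm := fun m => m) (MM := fun m => Fil.q * m) (N := fun m => 2 * m)
    (D := fun ep m => RI ep (xI m (h m))) hFF hP hK (fun _ => le_rfl) (fun ep hep hep1 =>
      ⟨m1, fun m hm => by
        obtain ⟨a1, a2, a3⟩ := hdat m hm (xI m (h m)) (rws0_xI (hh m) m) ep hep hep1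
        exact ⟨a1, a2, ⟨_, _, a3⟩, ⟨rfl, rfl, rfl, rfl, rfl, rfl, rfl, rfl⟩⟩⟩) ε hε
  refine ⟨ep0, h0, fun ep hep => ?_⟩
  obtain ⟨hep, hep', -⟩ := hep
  obtain ⟨Cst, k0, hC, hk0, H⟩ := H ep hep hep'
  refine ⟨Cst * (1 + C0), max k0 n1, fun m hm η η' hη => ?_⟩
  obtain ⟨H1, H2⟩ := H m ((le_max_left _ _).trans hm) η η' hη
  have hN1 := hn1 m ((le_max_right _ _).trans hm)
  have hm0 : (0 : ℝ) ≤ m := Nat.cast_nonneg m
  have hC0 : 0 ≤ C0 := (mul_nonneg (norm_nonneg _) (Real.exp_pos _).le).trans hN1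
  have hN2 : ‖nrI (xI m (h m))‖ * Real.exp (EM m) ≤ 1 + C0 := by linarith
  refine ⟨?_, fun τ hτ => ?_⟩
  · rw [err_eq6, norm_mul]
    refine (mul_le_mul_of_nonneg_left H1 (norm_nonneg _)).trans ?_
    calc ‖nrI (xI m (h m))‖ * (Cst * (m : ℝ) ^ (-(7 / 16) + ε) * Real.exp (EM m))
        = Cst * (m : ℝ) ^ (-(7 / 16) + ε) * (‖nrI (xI m (h m))‖ * Real.exp (EM m)) := by ring
      _ ≤ Cst * (m : ℝ) ^ (-(7 / 16) + ε) * (1 + C0) :=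
          mul_le_mul_of_nonneg_left hN2 (mul_nonneg hC (Real.rpow_nonneg hm0 _))
      _ = _ := by ring
  · rw [KKI_eq6, norm_mul, norm_mul, norm_mul, norm_pow, norm_neg, norm_one, one_pow, one_mul, norm_pow,
      PBR.RG.norm_2pi]
    have h3 := H2 τ hτ
    have hpi : (2 * Real.pi)⁻¹ ^ 2 ≤ 1 := by
      have hp := Real.pi_gt_three
      have : (2 * Real.pi)⁻¹ ≤ 1 := inv_le_one_of_one_le₀ (by linarith)
      exact pow_le_one₀ (by positivity) this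
    have h4 : 0 ≤ (m : ℝ) ^ ε * Real.exp (-(mT τ)) := mul_nonneg (Real.rpow_nonneg hm0 _) (Real.exp_pos _).le
    refine (mul_le_mul_of_nonneg_left h3 (by positivity)).trans ?_
    calc ‖nrI (xI m (h m))‖ * (2 * Real.pi)⁻¹ ^ 2 * (Cst * ((m : ℝ) ^ ε * Real.exp (-(mT τ))) * Real.exp (EM m))
        = (2 * Real.pi)⁻¹ ^ 2 * (Cst * ((m : ℝ) ^ ε * Real.exp (-(mT τ))) *
            (‖nrI (xI m (h m))‖ * Real.exp (EM m))) := by ring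
      _ ≤ 1 * (Cst * ((m : ℝ) ^ ε * Real.exp (-(mT τ))) * (1 + C0)) := by
          refine mul_le_mul hpi (mul_le_mul_of_nonneg_left hN2 (mul_nonneg hC h4)) ?_ zero_le_one
          exact mul_nonneg (mul_nonneg hC h4) (mul_nonneg (norm_nonneg _) (Real.exp_pos _).le)
      _ = _ := by ring

/-- **the regular function at rows on the axis, uniformly in the content** -/
theorem ms_I (hFF : FFth) (hS : ∀ h : ℕ → ℕ → ℝ, (∀ m, HtS (h m)) → SeqI h) {ε : ℝ} (hε : 0 < ε) :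
    ∃ ep0 : ℝ, 0 < ep0 ∧ ep0 ≤ 1 / 100 ∧ ∀ ep : ℝ, 0 < ep → ep ≤ ep0 → ∃ C : ℝ, 0 ≤ C ∧ ∃ m0 : ℕ,
      ∀ m ≥ m0, ∀ h, HtS h → MsA ε ep m h C := by
  have : Nonempty {h : ℕ → ℝ // HtS h} := ⟨⟨fun _ => 0, fun _ => by norm_num⟩⟩
  obtain ⟨a, ha, H⟩ := PLT.sel2R (S := {h : ℕ → ℝ // HtS h}) (E := ℝ)
    (Sm := fun a ep => 0 < ep ∧ ep ≤ a ∧ ep ≤ 1 / 100) (A := fun ep m h C => MsA ε ep m h.1 C)
    (fun a a' e haa he => ⟨he.1, he.2.1.trans haa, he.2.2⟩) (fun ep m h C C' hC hA => hA.mono hC)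
    (fun σ => ms_seq hFF (h := fun m => (σ m).1) (fun m => (σ m).2) (hS _ fun m => (σ m).2) hε)
  refine ⟨min a (1 / 100), lt_min ha (by norm_num), min_le_right _ _, fun ep h0 h1 => ?_⟩
  obtain ⟨C, hC, m0, H⟩ := H ep ⟨h0, h1.trans (min_le_left _ _), h1.trans (min_le_right _ _)⟩
  exact ⟨C, hC, m0, fun m hm h hh => H m hm ⟨h, hh⟩⟩

/-- **measurability of the integrand** -/
theorem meas_KKI (hFF : FFth) : ∃ m1 : ℕ, 1 ≤ m1 ∧ ∀ m ≥ m1, ∀ x : Fin m → ℂ, Rws0 x →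
    ∀ ep : ℝ, 0 < ep → ep ≤ 1 / 100 → ∀ η η' : ℝ × ℝ → Crs, (∀ y, ∀ r ≤ 2 * (2 * m + (2 * m + Fil.xn m)),
      ∀ᵐ O ∂(Measure.pi fun _ : Fin r => nu), CurB ep (η y r O) (η' y r O)) → ∀ V : Set (ℝ × ℝ),
    AEStronglyMeasurable (fun τ => KKI ep x (η τ) (η' τ) τ) (volume.restrict V) := by
  obtain ⟨m1, h1, H⟩ := dat_RI
  refine ⟨m1, h1, fun m hm x hx ep h0 h2 η η' hη V => ?_⟩
  obtain ⟨a1, a2, a3⟩ := H m hm x hx ep h0 h2
  have key := (PLT.H1.ms_famN hFF a1 a2 a3 h0 h2 (N := 2 * m) hη V).const_mul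
    ((-1) ^ Fil.xn m * (nrI x * (2 * (Real.pi : ℂ))⁻¹ ^ 2))
  refine key.congr (Eventually.of_forall fun y => ?_)
  exact (KKI_eq6 ep x (η y) (η' y) y).symm

/-- **the bounds with given powers**, all curves -/
theorem pow_I (hFF : FFth) (hS : ∀ h : ℕ → ℕ → ℝ, (∀ m, HtS (h m)) → SeqI h) {c1 b : ℝ} (hc : c1 < 7 / 16)
    (hb : 0 < b) : ∃ a0 : ℝ, 0 < a0 ∧ a0 ≤ 1 / 100 ∧ ∀ ep : ℝ, 0 < ep → ep ≤ a0 →
      ∀ᶠ m : ℕ in atTop, ∀ h, HtS h → ∀ η η' : ℝ × ℝ → Crs, (∀ y, ∀ r ≤ 2 * (2 * m + (2 * m + Fil.xn m)),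
        ∀ᵐ O ∂(Measure.pi fun _ : Fin r => nu), CurB ep (η y r O) (η' y r O)) →
      ‖YI ep (xI m h) - (-1) ^ Fil.xn m *
          ∫ τ in winW (3 / 8) m, KKI ep (xI m h) (η τ) (η' τ) τ‖ ≤ (m : ℝ) ^ (-c1) ∧
        ∀ τ ∈ winW (3 / 8) m, ‖KKI ep (xI m h) (η τ) (η' τ) τ‖ ≤ (m : ℝ) ^ b * Real.exp (-mT τ) := by
  obtain ⟨δ, hδ⟩ : ∃ δ, δ = min ((7 / 16 - c1) / 2) (b / 2) := ⟨_, rfl⟩
  have hδ0 : 0 < δ := by rw [hδ]; exact lt_min (by linarith) (by linarith)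
  have d1 : δ ≤ (7 / 16 - c1) / 2 := by rw [hδ]; exact min_le_left _ _
  have d2 : δ ≤ b / 2 := by rw [hδ]; exact min_le_right _ _
  obtain ⟨a0, h0, h1, H⟩ := ms_I hFF hS hδ0
  refine ⟨a0, h0, h1, fun ep hep hep' => ?_⟩
  obtain ⟨C, hC, m0, H⟩ := H ep hep hep'
  have ht : Tendsto (fun m : ℕ => (m : ℝ) ^ δ) atTop atTop :=
    (tendsto_rpow_atTop hδ0).comp tendsto_natCast_atTop_atTop
  filter_upwards [ht.eventually_ge_atTop C, eventually_ge_atTop m0, eventually_ge_atTop 1] with m g1 g2 g3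
  intro h hh η η' hη
  have hm0 : (0 : ℝ) < m := by exact_mod_cast g3
  have hm1 : (1 : ℝ) ≤ m := by exact_mod_cast g3
  obtain ⟨H1, H2⟩ := H m g2 h hh η η' hη
  refine ⟨H1.trans ?_, fun τ hτ => (H2 τ hτ).trans ?_⟩
  · calc C * (m : ℝ) ^ (-(7 / 16) + δ) ≤ (m : ℝ) ^ δ * (m : ℝ) ^ (-(7 / 16) + δ) :=
          mul_le_mul_of_nonneg_right g1 (Real.rpow_nonneg hm0.le _)
      _ = (m : ℝ) ^ (δ + (-(7 / 16) + δ)) := (Real.rpow_add hm0 _ _).symm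
      _ ≤ (m : ℝ) ^ (-c1) := Real.rpow_le_rpow_of_exponent_le hm1 (by linarith)
  · rw [← mul_assoc]
    refine mul_le_mul_of_nonneg_right ?_ (Real.exp_pos _).le
    calc C * (m : ℝ) ^ δ ≤ (m : ℝ) ^ δ * (m : ℝ) ^ δ :=
          mul_le_mul_of_nonneg_right g1 (Real.rpow_nonneg hm0.le _)
      _ = (m : ℝ) ^ (δ + δ) := (Real.rpow_add hm0 _ _).symm
      _ ≤ (m : ℝ) ^ b := Real.rpow_le_rpow_of_exponent_le hm1 (by linarith)

/-! ### the inputs of `str_of` -/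

section

variable (S : ℕ → (ℕ → ℝ) → SeaC)

/-- the curve over the sea is admissible, for all contents -/
def CurI (ep e1 J : ℝ) : Prop := ∀ᶠ m : ℕ in atTop, ∀ h, HtS h →
  CurB ep (@Cv.etaC (S m h) e1 J m m) (@Cv.etaC' (S m h) e1 J m m)

variable {S}

/-- **`H1`, `H2` of `str_of`**, any exponents `c1 < 7 / 16`, `b > 0` -/
theorem h12_I (hFF : FFth) (hS : ∀ h : ℕ → ℕ → ℝ, (∀ m, HtS (h m)) → SeqI h) {c1 b : ℝ} (hc : c1 < 7 / 16)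
    (hb : 0 < b) : ∃ a0 : ℝ, 0 < a0 ∧ a0 ≤ 1 / 100 ∧ ∀ ep e1 J : ℝ, 0 < ep → ep ≤ a0 → CurI S ep e1 J →
      (∀ᶠ m : ℕ in atTop, ∀ h, HtS h → ‖YI ep (xI m h) - (-1) ^ Fil.xn m *
        ∫ τ in winW (3 / 8) m, KKI ep (xI m h) (crI S e1 J m h) (crI' S e1 J m h) τ‖ ≤ (m : ℝ) ^ (-c1)) ∧
      (∀ᶠ m : ℕ in atTop, ∀ h, HtS h → ∀ τ ∈ winW (3 / 8) m,
        ‖KKI ep (xI m h) (crI S e1 J m h) (crI' S e1 J m h) τ‖ ≤ (m : ℝ) ^ b * Real.exp (-mT τ)) := by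
  obtain ⟨a0, h0, h1, H⟩ := pow_I hFF hS hc hb
  refine ⟨a0, h0, h1, fun ep e1 J hep hep' hcur => ?_⟩
  have key : ∀ᶠ m : ℕ in atTop, ∀ h, HtS h → ‖YI ep (xI m h) - (-1) ^ Fil.xn m *
        ∫ τ in winW (3 / 8) m, KKI ep (xI m h) (crI S e1 J m h) (crI' S e1 J m h) τ‖ ≤ (m : ℝ) ^ (-c1) ∧
      ∀ τ ∈ winW (3 / 8) m,
        ‖KKI ep (xI m h) (crI S e1 J m h) (crI' S e1 J m h) τ‖ ≤ (m : ℝ) ^ b * Real.exp (-mT τ) := by
    filter_upwards [H ep hep hep', hcur] with m g1 g2 h hh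
    exact g1 h hh (fun _ => crI S e1 J m h) (fun _ => crI' S e1 J m h)
      fun _ _ _ => Eventually.of_forall fun _ => g2 h hh
  exact ⟨key.mono fun m hm h hh => (hm h hh).1, key.mono fun m hm h hh => (hm h hh).2⟩

/-- **`Hm` of `str_of`** -/
theorem hm_I (hFF : FFth) {ep e1 J : ℝ} (h0 : 0 < ep) (h1 : ep ≤ 1 / 100) (hcur : CurI S ep e1 J) :
    ∀ᶠ m : ℕ in atTop, ∀ h, HtS h → AEStronglyMeasurable
      (KKI ep (xI m h) (crI S e1 J m h) (crI' S e1 J m h)) (volume.restrict (winW (3 / 8) m)) := by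
  obtain ⟨m1, -, H⟩ := meas_KKI hFF
  filter_upwards [hcur, eventually_ge_atTop m1] with m g1 g2 h hh
  exact H m g2 (xI m h) (rws0_xI hh m) ep h0 h1 (fun _ => crI S e1 J m h) (fun _ => crI' S e1 J m h)
    (fun _ _ _ => Eventually.of_forall fun _ => g1 h hh) _

end

end PLT.St

end
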