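import Pool.Agent.PLT.SPI
import Pool.Agent.PLT.UVI

/-!
# (S-TR), rows on the imaginary axis: all inputs joined (helper71)

* `Sm3 P`: `P ep e1 J` for all small `ep`, `e1`, `exp (-2 π J)`; `Sm3.and`, `Sm3.of_sum`, `Sm3.exists`;
* `H1S`, `HmS`, `H2S`, `H3S`: the inputs of `str_of` over the sea `S`; `StrO`: its conclusion;
* `int_Pc`: the density of a straight sea is integrable on the line;
* **`str_all`**: `(S-TR)` for all small `ep`.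
-/

set_option autoImplicit false
set_option linter.unusedSectionVars false
set_option linter.unusedVariables false

noncomputable section

open Complex MeasureTheory Set Filter Topology
open PLX (Fil)

namespace PLT.St

open NUCR (CurB)
open PHK (par6)
open PBF.PLX (MCr)
open PBForce (Rws0)
open PBT3 (wt zt gF k1T)
open PBTR (mT winW win ew)
open PBTRF (u0 u0_ne)
open Pool.Agent.PLX (fQ FFth)

/-! ### small parameters -/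

/-- **for all small `ep`, `e1`, `exp (-2 π J)`** -/
def Sm3 (P : ℝ → ℝ → ℝ → Prop) : Prop := ∃ a0 : ℝ, 0 < a0 ∧ ∀ ep e1 J : ℝ, 0 < ep → ep ≤ a0 → 0 < e1 →
  e1 ≤ a0 → 0 ≤ J → Real.exp (-(2 * Real.pi * J)) ≤ a0 → P ep e1 J

theorem Sm3.mono {P Q : ℝ → ℝ → ℝ → Prop} (h : Sm3 P) (H : ∀ ep e1 J, P ep e1 J → Q ep e1 J) : Sm3 Q := by
  obtain ⟨a, ha, h⟩ := h
  exact ⟨a, ha, fun ep e1 J h1 h2 h3 h4 h5 h6 => H _ _ _ (h ep e1 J h1 h2 h3 h4 h5 h6)⟩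

theorem Sm3.and {P Q : ℝ → ℝ → ℝ → Prop} (h : Sm3 P) (h' : Sm3 Q) : Sm3 fun ep e1 J => P ep e1 J ∧ Q ep e1 J := by
  obtain ⟨a, ha, h⟩ := h
  obtain ⟨a', ha', h'⟩ := h'
  refine ⟨min a a', lt_min ha ha', fun ep e1 J h1 h2 h3 h4 h5 h6 => ⟨?_, ?_⟩⟩
  · exact h ep e1 J h1 (h2.trans (min_le_left _ _)) h3 (h4.trans (min_le_left _ _)) h5
      (h6.trans (min_le_left _ _))
  · exact h' ep e1 J h1 (h2.trans (min_le_right _ _)) h3 (h4.trans (min_le_right _ _)) h5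
      (h6.trans (min_le_right _ _))

/-- numbers below a bound -/
theorem Sm3.le {a : ℝ} (ha : 0 < a) : Sm3 fun ep e1 J => 0 < ep ∧ ep ≤ a ∧ 0 < e1 ∧ e1 ≤ a ∧ 0 ≤ J ∧
    Real.exp (-(2 * Real.pi * J)) ≤ a :=
  ⟨a, ha, fun ep e1 J h1 h2 h3 h4 h5 h6 => ⟨h1, h2, h3, h4, h5, h6⟩⟩

/-- the form with the sum -/
theorem Sm3.of_sum {P : ℝ → ℝ → ℝ → Prop} {a0 : ℝ} (ha : 0 < a0) (h : ∀ ep e1 J : ℝ, 0 < ep → 0 < e1 →
    0 ≤ J → Real.exp (-(2 * Real.pi * J)) + 3 * e1 + 3 * ep ≤ a0 → P ep e1 J) : Sm3 P :=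
  ⟨a0 / 7, by positivity, fun ep e1 J h1 h2 h3 h4 h5 h6 => h ep e1 J h1 h3 h5 (by linarith)⟩

theorem Sm3.exists {P : ℝ → ℝ → ℝ → Prop} (h : Sm3 P) : ∃ ep e1 J : ℝ, 0 < ep ∧ 0 < e1 ∧ 0 ≤ J ∧ P ep e1 J := by
  obtain ⟨a, ha, h⟩ := h
  obtain ⟨J, hJ, hJ1⟩ : ∃ J : ℝ, 0 ≤ J ∧ Real.exp (-(2 * Real.pi * J)) ≤ a := by
    have h1 : Tendsto (fun J : ℝ => Real.exp (-(2 * Real.pi * J))) atTop (𝓝 0) := by
      refine Real.tendsto_exp_neg_atTop_nhds_zero.comp ?_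
      exact Tendsto.const_mul_atTop (by positivity) tendsto_id
    obtain ⟨J, h2, h3⟩ := ((eventually_ge_atTop (0 : ℝ)).and (h1.eventually_le_const ha)).exists
    exact ⟨J, h2, h3⟩
  exact ⟨a, a, J, ha, ha, hJ, h a a J ha le_rfl ha le_rfl hJ hJ1⟩

/-! ### the density of a straight sea -/

theorem int_P [SeaC] : Integrable Cv.P := by
  by_contra h
  have h1 := Cv.P_mass
  rw [integral_undef h] at h1
  exact zero_ne_one h1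

theorem int_Pc [SeaC] (h0 : Cv.eta = fun _ => (0 : ℝ)) : Integrable fun t : ℝ => Cv.Pc t := by
  have h : (fun t : ℝ => Cv.Pc t) = fun t : ℝ => ((Cv.P t : ℝ) : ℂ) := by
    funext t
    have h1 := Cv.Pc_ga t
    have e1 : Cv.ga t = (t : ℂ) := by simp [Cv.ga, h0]
    have e2 : Cv.ga' t = 1 := by simp [Cv.ga', h0]
    rw [e1, e2, mul_one] at h1
    exact h1
  rw [h]
  exact int_P.ofReal

/-! ### the inputs over the sea -/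

variable [Fil]

/-- (H1) -/
def H1S (S : ℕ → (ℕ → ℝ) → SeaC) (c1 ep e1 J : ℝ) : Prop :=
  ∀ᶠ m : ℕ in atTop, ∀ h, HtS h → ‖YI ep (xI m h) - (-1) ^ Fil.xn m *
    ∫ τ in winW (3 / 8) m, KKI ep (xI m h) (crI S e1 J m h) (crI' S e1 J m h) τ‖ ≤ (m : ℝ) ^ (-c1)

/-- measurability of the integrand -/
def HmS (S : ℕ → (ℕ → ℝ) → SeaC) (ep e1 J : ℝ) : Prop :=
  ∀ᶠ m : ℕ in atTop, ∀ h, HtS h → AEStronglyMeasurable
    (KKI ep (xI m h) (crI S e1 J m h) (crI' S e1 J m h)) (volume.restrict (winW (3 / 8) m))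

/-- (H2) -/
def H2S (S : ℕ → (ℕ → ℝ) → SeaC) (ep e1 J : ℝ) : Prop :=
  ∀ᶠ m : ℕ in atTop, ∀ h, HtS h → ∀ τ ∈ winW (3 / 8) m,
    ‖KKI ep (xI m h) (crI S e1 J m h) (crI' S e1 J m h) τ‖ ≤ (m : ℝ) ^ (1 / 160 : ℝ) * Real.exp (-mT τ)

/-- (H3) -/
def H3S (S : ℕ → (ℕ → ℝ) → SeaC) (c2 ep e1 J : ℝ) : Prop :=
  ∀ᶠ m : ℕ in atTop, ∀ h τ, okI m (h, τ) →
    ‖k1T τ‖ * ‖nFvI ep (xI m h) (crI S e1 J m h) (crI' S e1 J m h) τ 1 -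
      Complex.exp (gF τ) * nFvI ep (xI m h) (crI S e1 J m h) (crI' S e1 J m h) τ 0‖ ≤ (m : ℝ) ^ (-c2)

/-- **(S-TR)** -/
def StrO (ep : ℝ) : Prop := ∃ c C : ℝ, 0 < c ∧ ∀ᶠ m : ℕ in atTop, ∀ h, HtS h →
  ‖YI ep (xI m h) - (-1) ^ Fil.xn m *
    (u0 * ∫ τ in winW (1 / 20) m, k1T τ * (Complex.exp (gF τ) * fQ Fil.q (xI m h) (zt τ)))‖ ≤
      C * (m : ℝ) ^ (-c)

variable [PLX.Ends]

/-- **(S-TR) for all small `ep`** -/
theorem str_all (hFF : FFth) {SB : SeaCB} {S : ℕ → (ℕ → ℝ) → SeaC} {c1 c2 : ℝ} (hc1 : 0 < c1) (hc2 : 0 < c2)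
    (hw : ∀ m h, HtS h → @Cv.eta (S m h) = fun _ => 0)
    (hcur : ∀ ep e1 J : ℝ, 0 < ep → 0 < e1 → e1 ≤ 1 / 100 → 0 ≤ J → ∀ᶠ m : ℕ in atTop, ∀ h, HtS h →
      CurB ep (@Cv.etaC (S m h) e1 J m m) (@Cv.etaC' (S m h) e1 J m m))
    (hD : ∀ m h, HtS h → ∀ η : ℝ → ℝ, @dsp (S m h) _ η = dF η)
    (hD1 : ∀ m h, HtS h → ∀ η η1 : ℝ → ℝ, @dsp1 (S m h) _ η η1 = dF η1)
    (hL : UXC (famLI S) par6) (h1 : Sm3 (H1S S c1)) (hm : Sm3 (HmS S)) (h2 : Sm3 (H2S S))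
    (h3 : Sm3 (H3S S c2)) : Sm3 fun ep _ _ => StrO ep := by
  obtain ⟨a0, ha0, hU⟩ := ux_famVI_L hL 0 1 1 one_pos
  have h4 : Sm3 fun ep e1 J => UBC (famVI S) par6 ep e1 J 0 1 1 := Sm3.of_sum ha0 hU
  refine (((((Sm3.le (a := 1 / 100) (by norm_num)).and h1).and hm).and h2).and (h3.and h4)).mono ?_
  rintro ep e1 J ⟨⟨⟨⟨⟨q1, q2, q3, q4, q5, q6⟩, g1⟩, g2⟩, g3⟩, g4, g5⟩
  have hc := hcur ep e1 J q1 q3 q4 q5
  exact str_of hFF S q1 q2 hc1 hc2 hc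
    (pii_of S le_rfl g5 (fun m h hh => @int_Pc (S m h) (hw m h hh)) hc (fun m h hh => hD m h hh _)
      (fun m h hh => hD1 m h hh _ _)) g1 g2 g3 g4

end PLT.St

end
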