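import Pool.Agent.PLT.SeaI
import Pool.Agent.PLT.FamWI
import Pool.Agent.PLT.STRAll

/-!
# The straight seas of contents on the imaginary axis: inputs of the blocks S-TR and S-W

* `rhoI_seaI`, `rhA_seaI`: `m Pc` is the density of the rows;
* `seaI_cur`, `seaI_dsp`, `seaI_dsp1`: the curves (literals of `str_all`);
* **`seaIx`**: `SeaIx seaIB (fun m i => seaI m i.1) h0 e0` for `h0 ≤ 1`.
-/

set_option autoImplicit false
set_option linter.unusedSectionVars false

noncomputable section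

open Complex MeasureTheory Finset Filter Topology

open PLX (Fil)

namespace PLT

open NUMF (l l_pos)
open NUCR (CurB)
open PLT.St PLT.SW

/-- the density of the rows of S-TR -/
theorem rhoI_seaI {m : ℕ} (hm : 0 < m) (h : ℕ → ℝ) (z : ℂ) :
    rhoI (xI m h) z = (m : ℂ) * @Cv.Pc (seaI m h) z := by
  rw [seaI_Pc hm]
  unfold rhoI xI
  refine Finset.sum_congr rfl fun i _ => ?_
  congr 1
  rw [← mul_assoc, I_mul_I]
  ring

variable [Fil]

/-- **the curves are admissible** -/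
theorem seaI_cur (ep e1 J : ℝ) (hep : 0 < ep) (he : 0 < e1) (he1 : e1 ≤ 1 / 100) (hJ : 0 ≤ J) :
    ∀ᶠ m : ℕ in atTop, ∀ h, HtS h →
      CurB ep (@Cv.etaC (seaI m h) e1 J m m) (@Cv.etaC' (seaI m h) e1 J m m) := by
  obtain ⟨m0, -, H⟩ := curB_etaC he he1 hJ hep seaIB
  filter_upwards [eventually_ge_atTop m0] with m hm h hh
  exact @H (seaI m h) (seaIU fun i _ => (hh i).trans (by norm_num)) m hm

theorem seaI_dsp (m : ℕ) (h : ℕ → ℝ) (η : ℝ → ℝ) : @dsp (seaI m h) _ η = dF η :=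
  @dsp_straight _ (seaI m h) (fun t => by rw [seaI_eta]) η

theorem seaI_dsp1 (m : ℕ) (h : ℕ → ℝ) (η η1 : ℝ → ℝ) : @dsp1 (seaI m h) _ η η1 = dF η1 :=
  @dsp1_straight _ (seaI m h) (fun t => by rw [seaI_eta]) η η1

omit [Fil] in
/-- the density of the rows of S-W -/
theorem rhA_seaI {m : ℕ} (hm : 0 < m) (i : IxW) (t : ℝ) :
    (m : ℂ) * @Cv.Pc (seaI m i.1) t = rhA (xIx m i) t := by
  have hl := NUP1.l_pos
  have hx : ∀ k, |(xIx m i k).re| < NUP1.l := fun k => by simpa [xIx] using hl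
  have h1 : rhA (xIx m i) t = PBQ1.ro (xIx m i) t := by
    have h2 := PBQ1.rhoR_line hx t
    rw [mul_comm] at h2
    exact h2
  rw [h1, seaI_Pc hm]
  unfold PBQ1.ro PBQ1.hr xIx
  refine Finset.sum_congr rfl fun k _ => ?_
  congr 1
  rw [← mul_assoc, I_mul_I]
  ring

omit [Fil] in
/-- **the seas of the indices of S-W** -/
theorem seaIx {h0 : ℝ} (hh : h0 ≤ 1) (e0 : ℝ) : SeaIx seaIB (fun m i => seaI m i.1) h0 e0 where
  sea m i hi := seaIU fun k hk => (hi.2.1 k hk).trans hh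
  eta m i _ t := by rw [seaI_eta]
  den m i hi t := rhA_seaI hi.1 i t

end PLT

end
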