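import Pool.Agent.PLT.LetOw
import Pool.Agent.PLT.H1Phi
import Pool.Agent.PHK.CutV6b

/-!
# The bounds of the cutoffs at the places of the half quanta, rows at complex places

Rows `y : Fin N → ℂ`, `-l ≤ re ≤ l / 2`, `|im| ≤ 1` (`CRw y`), `N ≤ q m`; the quanta have the cutoff over the rows and
`± i`, the strings the cutoff `gO (T1L m) [] y`:

* `phS_le`: the cutoff of the strings at the place `-11/8 l`, with the factor `om`;
* **`cutX6_core`**: `CutX6` from the bounds of the product of `psi` over the rows and `± i` at the places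
  `l / 4` and `5 / 8 l`; the constant `aCX κ B` depends on these bounds only;
* **`cutX6_ax`**: rows on the imaginary axis, heights `≤ 1`, one constant, every `m ≥ 1`; `cutX6_xI`: rows of `xI m h`.
-/

set_option autoImplicit false
set_option linter.unusedSectionVars false
set_option linter.unusedVariables false

noncomputable section

open Complex

namespace PLT

open NUP1
open NUGC.PLX (beC)
open PBX (ph gP)
open PBU.PLX (T1L tauF tauF_nonneg)
open PHK (gO om pP phO pP_append norm_om_le om_cut norm_phi_csL cL cL_ge tau0)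
open _root_.PLX (Fil)
open PBForce (Rws0)
open _root_.Pool.Agent.PLX (rwq yq RU)
open PLT.H1 (AxL prod_ax cAx cAx_pos cAx_le exL_II)

/-- rows at complex places -/
def CRw {N : ℕ} (y : Fin N → ℂ) : Prop := ∀ i, -l ≤ (y i).re ∧ (y i).re ≤ l / 2 ∧ |(y i).im| ≤ 1

theorem cut_nat {m : ℕ} (hm : 1 ≤ m) (ep τ : ℝ) :
    NUO.cut m (beC ep) τ = NUGC.cut (Real.log m) ep (-1) τ := by
  have hm0 : (0 : ℝ) < m := by exact_mod_cast hm
  unfold NUO.cut NUGC.cut NUGC.PLX.beC
  have e : Real.exp (Real.log m - 8 / 3 * (1 - ep) * |τ|) = m * Real.exp (-(8 / 3 * (1 - ep) * |τ|)) := by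
    rw [Real.exp_sub, Real.exp_log hm0, Real.exp_neg, div_eq_mul_inv]
  rw [if_neg (by norm_num), e]
  congr 3
  ring

theorem cut_43 {m : ℕ} {ep : ℝ} (h0 : 0 ≤ ep) (τ : ℝ) : NUO.cut m (4 / 3) τ ≤ NUO.cut m (beC ep) τ := by
  unfold NUO.cut NUGC.PLX.beC
  refine min_le_min_left _ (mul_le_mul_of_nonneg_left (Real.exp_le_exp.2 ?_) (Nat.cast_nonneg m))
  have := mul_nonneg h0 (abs_nonneg τ)
  linarith

/-- the list of the rows and `± i` -/
def yE {N : ℕ} (y : Fin N → ℂ) : List ℂ := List.ofFn y ++ [I, -I]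

theorem CRw.mem {N : ℕ} {y : Fin N → ℂ} (h : CRw y) {x : ℂ} (hx : x ∈ List.ofFn y) :
    -l ≤ x.re ∧ x.re ≤ l / 2 ∧ |x.im| ≤ 1 := by
  obtain ⟨i, rfl⟩ := (List.mem_ofFn' _ _).1 hx
  exact h i

theorem CRw.memE {N : ℕ} {y : Fin N → ℂ} (h : CRw y) {x : ℂ} (hx : x ∈ yE y) :
    -l ≤ x.re ∧ x.re ≤ l / 2 ∧ |x.im| ≤ 1 := by
  have hl := l_pos
  rcases List.mem_append.1 hx with hx | hx
  · exact h.mem hx
  · rw [List.mem_cons, List.mem_singleton] at hx
    rcases hx with rfl | rfl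
    · rw [I_re, I_im, abs_one]
      exact ⟨by linarith, by positivity, le_rfl⟩
    · rw [neg_re, neg_im, I_re, I_im, abs_neg, abs_one, neg_zero]
      exact ⟨by linarith, by positivity, le_rfl⟩

theorem CRw.rwD {N : ℕ} {y : Fin N → ℂ} (h : CRw y) {δ : ℝ} {u : ℂ} (h1 : (-(5 / 2) + δ) * l ≤ u.re)
    (h2 : u.re ≤ (1 - δ) * l) : RwD δ 1 u (yE y) := by
  intro x hx
  obtain ⟨a, b, c⟩ := h.memE hx
  rw [sub_re]
  exact ⟨by linarith, by linarith, c⟩

theorem yE_length {N : ℕ} (y : Fin N → ℂ) : ((yE y).length : ℝ) = N + 2 := by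
  unfold yE
  rw [List.length_append, List.length_ofFn]
  push_cast
  simp

theorem vlre (a τ : ℝ) : (vl a τ).re = a := by simp [vl]

theorem vlim (a τ : ℝ) : (vl a τ).im = τ := by simp [vl]

/-! ### the strings -/

section str

variable [Fil] {N m : ℕ} {y : Fin N → ℂ}

/-- **the cutoff of the strings at the place of a host string** -/
theorem phS_le (hy : CRw y) (hm : 1 ≤ m) (hN : N ≤ Fil.q * m) {ep : ℝ} (h0 : 0 ≤ ep) (τ : ℝ) :
    ‖ph (4 / 3) y (gO (T1L m) [] y) (vl (-(11 / 8) * l) τ)‖ ≤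
      Real.exp 3 * Real.exp (8 / 3 * tauF) * cU 1 1 Fil.q 0 * NUGC.cut (Real.log m) ep (-1) τ ^ 2 := by
  have hl := l_pos
  have hll : NUMF.l = l := rfl
  obtain ⟨u, hu⟩ : ∃ u, u = vl (-(11 / 8) * l) τ := ⟨_, rfl⟩
  rw [← hu]
  have hre : u.re = -(11 / 8) * l := by rw [hu, vlre]
  have him : u.im = τ := by rw [hu, vlim]
  have hm' : (1 : ℝ) ≤ m := by exact_mod_cast hm
  have hm0 : (0 : ℝ) < m := by linarith
  have hN' : (N : ℝ) ≤ Fil.q * m := by exact_mod_cast hN
  have hq0 : (0 : ℝ) ≤ (Fil.q : ℝ) := Nat.cast_nonneg _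
  obtain ⟨X, hX⟩ : ∃ X, X = List.ofFn y ++ ([] : List ℂ) := ⟨_, rfl⟩
  have hmem : ∀ x ∈ X, -l ≤ x.re ∧ x.re ≤ l / 2 ∧ |x.im| ≤ 1 := by
    intro x hx
    rw [hX, List.append_nil] at hx
    exact hy.mem hx
  have hlen : (X.length : ℝ) = N := by rw [hX, List.append_nil, List.length_ofFn]
  have hs : ∀ x ∈ X, |(u - x).re + l / 2| ≤ 3 * l / 2 := by
    intro x hx
    obtain ⟨a, b, -⟩ := hmem x hx
    rw [sub_re, hre, abs_le]
    constructor <;> linarith
  have hE := Real.exp_pos (-(2 * (4 / 3)) * |u.im|)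
  -- the product
  have p1 : ‖pP X u‖ ≤ 1 := PBO.PLX.norm_prod_cs (by norm_num) le_rfl hs
  have p2 : T1L m ≤ |u.im| → ‖pP X u - 1‖ ≤ 1 / 5 := by
    intro hT
    have e : ‖pP X u - 1‖ = ‖phi (4 / 3) X u‖ := by rw [PHK.phi_pP, norm_sub_rev]
    rw [e]
    refine (norm_phi_csL (by norm_num) le_rfl hs zero_le_one fun x hx => (hmem x hx).2.2).trans ?_
    rw [hlen]
    obtain ⟨c, hc⟩ : ∃ c, c = cL 2 ((Fil.q : ℝ) + (2 : ℕ)) := ⟨_, rfl⟩
    have hc2 : 2 ≤ c := by
      rw [hc]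
      exact cL_ge (by positivity)
    have h1 : Real.exp (-(2 * (4 / 3)) * |u.im|) ≤ (m * (5 * c))⁻¹ := by
      have h2 : (m * (5 * c) : ℝ)⁻¹ = Real.exp (-(Real.log m + Real.log (5 * c))) := by
        rw [Real.exp_neg, Real.exp_add, Real.exp_log hm0, Real.exp_log (by linarith)]
      rw [h2]
      refine Real.exp_le_exp.2 ?_
      have h3 : T1L m = 3 / 8 * Real.log m + 3 / 8 * Real.log (5 * c) := by
        rw [hc]
        rfl
      rw [h3] at hT
      linarith
    have h4 : 8 * Real.exp (8 / 3 * 1) * (Fil.q : ℝ) ≤ c := by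
      rw [hc]
      unfold PHK.cL
      have h5 : Real.exp (8 / 3 * 1) ≤ Real.exp (8 / 3 * 2) := Real.exp_le_exp.2 (by norm_num)
      have h6 := Real.exp_pos (8 / 3 * 2)
      have h7 : Real.exp (8 / 3 * 1) * (Fil.q : ℝ) ≤ Real.exp (8 / 3 * 2) * Fil.q :=
        mul_le_mul_of_nonneg_right h5 hq0
      push_cast
      nlinarith
    calc 8 * Real.exp (8 / 3 * 1) * ((N : ℝ) * Real.exp (-(2 * (4 / 3)) * |u.im|)) ≤
        8 * Real.exp (8 / 3 * 1) * ((Fil.q * m) * (m * (5 * c))⁻¹) := by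
          refine mul_le_mul_of_nonneg_left ?_ (by positivity)
          exact mul_le_mul hN' h1 hE.le (by positivity)
      _ = 8 * Real.exp (8 / 3 * 1) * (Fil.q : ℝ) * (5 * c)⁻¹ := by
          rw [mul_inv]
          field_simp
      _ ≤ c * (5 * c)⁻¹ := mul_le_mul_of_nonneg_right h4 (inv_nonneg.2 (by linarith))
      _ = 1 / 5 := by
          have : c ≠ 0 := by linarith
          field_simp
  have hom := norm_om_le (T1 := T1L m) (P := pP X) (w := u) (by
      show |u.re + 31 / 32 * NUMF.l| ≤ 77 / 160 * NUMF.l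
      rw [hll, hre, abs_le]
      constructor <;> linarith) (fun _ => p1) p2
  rw [him] at hom
  -- the cutoff without `om`
  have hphi : ‖phi (4 / 3) X u‖ ≤ cU 1 1 Fil.q 0 * NUO.cut m (4 / 3) τ := by
    have h1 : RwD 1 1 u X := by
      intro x hx
      obtain ⟨a, b, c⟩ := hmem x hx
      rw [sub_re, hre]
      exact ⟨by linarith, by linarith, c⟩
    have h2 := (phi_up (δ := 1) (h0 := 1) (β := 4 / 3) (B := 0) (Cl := (Fil.q : ℝ)) (by norm_num) le_rfl
      zero_lt_one le_rfl zero_le_one h1 hm hq0 le_rfl (by rw [hlen]; exact hN')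
      (by rw [Real.exp_zero]; exact p1)).2
    rwa [him] at h2
  have e1 : ph (4 / 3) y (gO (T1L m) [] y) u = phi (4 / 3) X u * om (T1L m) (pP X) u := by
    rw [PHK.ph_gO, ← hX]
    rfl
  rw [e1, norm_mul]
  have h7 := om_cut h0 hm tauF_nonneg (ep := ep) τ
  have h8 : Real.exp (-(Real.exp (11 / 2 * (|τ| - T1L m)) / 5)) ≤
    Real.exp (8 / 3 * tauF) * NUGC.cut (Real.log m) ep (-1) τ := h7
  obtain ⟨Y, hY⟩ : ∃ Y, Y = NUGC.cut (Real.log m) ep (-1) τ := ⟨_, rfl⟩
  have hY0 : 0 ≤ Y := by rw [hY]; exact NUGC.cut_nonneg _ _ _ _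
  rw [← hY] at h8 ⊢
  have h9 : NUO.cut m (4 / 3) τ ≤ Y := by
    rw [hY, ← cut_nat hm]
    exact cut_43 h0 τ
  have hcU : 0 ≤ cU 1 1 Fil.q 0 := by
    have := cK_ge (δ := 1) (h0 := 1) zero_lt_one le_rfl zero_le_one
    unfold cU
    positivity
  calc ‖phi (4 / 3) X u‖ * ‖om (T1L m) (pP X) u‖ ≤
      (cU 1 1 Fil.q 0 * Y) * (Real.exp 3 * (Real.exp (8 / 3 * tauF) * Y)) := by
        refine mul_le_mul (hphi.trans (mul_le_mul_of_nonneg_left h9 hcU))
          (hom.trans (mul_le_mul_of_nonneg_left h8 (Real.exp_pos 3).le)) (norm_nonneg _) (by positivity)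
    _ = _ := by ring

end str

/-! ### the quanta -/

section core

variable [Fil]

/-- the constant -/
def aCX (κ B : ℝ) : ℝ := cU (3 / 4) 1 (Fil.q + 2) B + 2 + 2 / min 1 κ +
  Real.exp 3 * Real.exp (8 / 3 * tauF) * cU 1 1 Fil.q 0

theorem cU_nonneg {δ Cl B : ℝ} (h1 : 0 < δ) (h2 : δ ≤ 1) (h3 : 0 ≤ Cl) : 0 ≤ cU δ 1 Cl B := by
  have := cK_ge (δ := δ) (h0 := 1) h1 h2 zero_le_one
  unfold cU
  positivity

theorem one_le_aCX {κ B : ℝ} (hκ : 0 < κ) : 1 ≤ aCX κ B := by
  have h1 := cU_nonneg (δ := 3 / 4) (Cl := (Fil.q : ℝ) + 2) (B := B) (by norm_num) (by norm_num) (by positivity)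
  have h2 := cU_nonneg (δ := 1) (Cl := (Fil.q : ℝ)) (B := 0) (by norm_num) (by norm_num) (by positivity)
  have h3 : 0 < min 1 κ := lt_min one_pos hκ
  have h4 : 0 ≤ 2 / min 1 κ := by positivity
  have h5 : 0 ≤ Real.exp 3 * Real.exp (8 / 3 * tauF) * cU 1 1 Fil.q 0 := by positivity
  unfold aCX
  linarith

/-- **the bounds of the cutoffs** from the bounds of the product of `psi` over the rows and `± i` -/
theorem cutX6_core {κ B : ℝ} (hκ : 0 < κ) (hB : 0 ≤ B) {N m : ℕ} {y : Fin N → ℂ} (hy : CRw y) (hm : 1 ≤ m)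
    (hN : N ≤ Fil.q * m) {ep : ℝ} (h0 : 0 ≤ ep) (h1 : ep < 1)
    (hq : ∀ τ : ℝ, ‖((yE y).map fun x => psi (beC ep) (vl (1 / 4 * l) τ - x)).prod‖ ≤ Real.exp B)
    (hh : ∀ τ : ℝ, ‖((yE y).map fun x => psi (beC ep) (vl (5 / 8 * l) τ - x)).prod‖ ≤
      Real.exp (-(κ * (m * Real.exp (-(2 * beC ep) * |τ|))))) :
    CutX6 y m ep (aCX κ B) (beC ep) (gP (beC ep) [I, -I]) (gO (T1L m) [] y) := by
  have hl := l_pos
  have hβ0 : 0 < beC ep := by
    unfold NUGC.PLX.beC
    linarith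
  have hβ1 : beC ep ≤ 4 / 3 := by
    unfold NUGC.PLX.beC
    linarith
  have hm' : (1 : ℝ) ≤ m := by exact_mod_cast hm
  have hN' : (N : ℝ) ≤ Fil.q * m := by exact_mod_cast hN
  have c1 := cU_nonneg (δ := 3 / 4) (Cl := (Fil.q : ℝ) + 2) (B := B) (by norm_num) (by norm_num) (by positivity)
  have c2 := cU_nonneg (δ := 1) (Cl := (Fil.q : ℝ)) (B := 0) (by norm_num) (by norm_num) (by positivity)
  have hmin : 0 < min 1 κ := lt_min one_pos hκ
  have c3 : 0 ≤ 2 / min 1 κ := by positivity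
  have c4 : 0 ≤ Real.exp 3 * Real.exp (8 / 3 * tauF) * cU 1 1 Fil.q 0 := by positivity
  have hcut := fun τ => NUGC.cut_nonneg (Real.log m) ep (-1) τ
  have eP : ∀ u, ph (beC ep) y (gP (beC ep) [I, -I]) u = phi (beC ep) (yE y) u := fun u => by
    rw [PBX.ph_gP]
    rfl
  refine ⟨fun τ => ?_, fun τ => ?_, fun τ => ?_, fun τ => ?_⟩
  · rw [eP]
    have h2 := (phi_up (δ := 3 / 4) (h0 := 1) hβ0 hβ1 (by norm_num) (by norm_num) zero_le_one
      (hy.rwD (δ := 3 / 4) (u := vl (1 / 4 * l) τ) (by rw [vlre]; linarith) (by rw [vlre]; linarith)) hm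
      (Cl := (Fil.q : ℝ) + 2) (by positivity) hB (by
        rw [yE_length]
        nlinarith) (hq τ)).2
    rw [vlim, cut_nat hm] at h2
    refine h2.trans (mul_le_mul_of_nonneg_right ?_ (hcut τ))
    unfold aCX
    linarith
  · rw [eP]
    have h2 := hh τ
    have h3 : Real.exp (-(κ * (m * Real.exp (-(2 * beC ep) * |τ|)))) ≤ 1 :=
      Real.exp_le_one_iff.2 (neg_nonpos.2 (by positivity))
    have h4 : ‖phi (beC ep) (yE y) (vl (5 / 8 * l) τ)‖ ≤ 1 + 1 := by
      unfold NUP1.phi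
      refine (norm_sub_le _ _).trans (add_le_add (by rw [norm_one]) (h2.trans h3))
    refine h4.trans ?_
    unfold aCX
    linarith
  · rw [eP]
    have h2 := hh τ
    have hE := Real.exp_pos (-(2 * beC ep) * |τ|)
    obtain ⟨z, hz⟩ : ∃ z, z = m * Real.exp (-(2 * beC ep) * |τ|) := ⟨_, rfl⟩
    have hz0 : 0 < z := by rw [hz]; positivity
    rw [← hz] at h2
    have h3 := one_sub_exp_neg_ge (x := κ * z) (by positivity)
    have h4 : min 1 (κ * z) / 2 ≤ ‖phi (beC ep) (yE y) (vl (5 / 8 * l) τ)‖ := by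
      unfold NUP1.phi
      have h5 := norm_sub_norm_le (1 : ℂ) (((yE y).map fun x => psi (beC ep) (vl (5 / 8 * l) τ - x)).prod)
      rw [norm_one] at h5
      linarith
    have h5 : min 1 κ / 2 * NUGC.cut (Real.log m) ep (-1) τ ≤
        ‖phi (beC ep) (yE y) (vl (5 / 8 * l) τ)‖ := by
      refine le_trans ?_ h4
      rw [← cut_nat hm]
      unfold NUO.cut
      rw [← hz, div_mul_eq_mul_div]
      refine div_le_div_of_nonneg_right (le_min ?_ ?_) two_pos.le
      · calc min 1 κ * min 1 z ≤ 1 * 1 := mul_le_mul (min_le_left _ _) (min_le_left _ _)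
              (le_min zero_le_one hz0.le) zero_le_one
          _ = 1 := one_mul 1
      · exact mul_le_mul (min_le_right _ _) (min_le_right _ _) (le_min zero_le_one hz0.le) hκ.le
    have hcp : 0 < NUGC.cut (Real.log m) ep (-1) τ := by
      rw [← cut_nat hm]
      unfold NUO.cut
      rw [← hz]
      exact lt_min one_pos hz0
    refine (inv_anti₀ (by positivity) h5).trans ?_
    rw [mul_inv, inv_div]
    refine mul_le_mul_of_nonneg_right ?_ (inv_pos.2 hcp).le
    unfold aCX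
    linarith
  · refine (phS_le hy hm hN h0 τ).trans (mul_le_mul_of_nonneg_right ?_ (sq_nonneg _))
    unfold aCX
    linarith

end core

/-! ### rows on the imaginary axis -/

section ax

variable [Fil]

/-- the constant of the rows on the axis -/
def aAx : ℝ := aCX (cAx 1) 0

theorem one_le_aAx : 1 ≤ aAx := one_le_aCX (cAx_pos 1)

/-- **rows on the imaginary axis**: one constant, every `m ≥ 1` -/
theorem cutX6_ax {m : ℕ} (hm : 1 ≤ m) {x : Fin m → ℂ} (hx : Rws0 x) {ep : ℝ} (h0 : 0 ≤ ep) (h1 : ep < 1)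
    (a : Bool) : CutX6 (rwq x a) m ep aAx (beC ep) (gP (beC ep) [I, -I]) (gO (T1L m) [] (rwq x a)) := by
  have hl := l_pos
  have hβ0 : 0 < beC ep := by
    unfold NUGC.PLX.beC
    linarith
  have hβ1 : beC ep ≤ 4 / 3 := by
    unfold NUGC.PLX.beC
    linarith
  have hy : ∀ i, (rwq x a i).re = 0 ∧ |(rwq x a i).im| ≤ 1 :=
    fun i => H1.rwq_ax (fun i => ⟨hx.re i, hx.im i⟩) a i
  have hA : AxL 1 (yE (rwq x a)) := by
    intro z hz
    rcases List.mem_append.1 hz with hz | hz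
    · obtain ⟨i, rfl⟩ := (List.mem_ofFn' _ _).1 hz
      exact hy i
    · rw [List.mem_cons, List.mem_singleton] at hz
      rcases hz with rfl | rfl
      · exact ⟨I_re, by rw [I_im, abs_one]⟩
      · exact ⟨by rw [neg_re, I_re, neg_zero], by rw [neg_im, I_im, abs_neg, abs_one]⟩
  have hm2 : m ≤ (yE (rwq x a)).length := by
    unfold yE
    rw [List.length_append, List.length_ofFn]
    exact (H1.le_Nq m a).trans (Nat.le_add_right _ _)
  have hN : PHK.Nq m a ≤ Fil.q * m := by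
    cases a
    · exact le_rfl
    · exact Nat.le_mul_of_pos_left _ Fil.one_le_q
  refine cutX6_core (cAx_pos 1) le_rfl (fun i => ?_) hm hN h0 h1 (fun τ => ?_) fun τ => ?_
  · rw [(hy i).1]
    exact ⟨by linarith, by positivity, (hy i).2⟩
  · have h2 := prod_ax (m := 0) (u := vl (1 / 4 * l) τ) hβ0 hβ1 zero_le_one hA (Nat.zero_le _) (by
      unfold PBO.PLX.sH
      rw [vlre, abs_le]
      constructor <;> linarith)
    refine h2.trans (Real.exp_le_exp.2 ?_)
    simp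
  · have h2 := prod_ax (m := m) (u := vl (5 / 8 * l) τ) hβ0 hβ1 zero_le_one hA hm2 (by
      unfold PBO.PLX.sH
      rw [vlre, abs_le]
      constructor <;> linarith)
    rwa [vlim] at h2

end ax

end PLT

end
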