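import Pool.Agent.PLT.SeqI
import Pool.Agent.PLT.SeaI2
import Pool.Agent.PLT.H1Cut

/-!
# (H1) Inputs of the assembly over the contents on the axis at the seas `seaI` (helper39)

* `cutI : CutI`; `strS_seaI : StrS (seaI m h) m h`; `seaCU_I`; **`seqI_sum`**: `SumI` for all sequences gives `SeqI`.
-/

set_option autoImplicit false
set_option linter.unusedSectionVars false
set_option linter.unusedVariables false

noncomputable section

open Complex MeasureTheory Finset Filter
open PLX (Fil Ends)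

namespace PLT.H1

open PHK
open PBR.PLX
open PLT.St

attribute [local instance] _root_.PLX.ends0

variable [Fil]

/-- **the cutoffs at the half quanta**, contents on the axis -/
theorem cutI : CutI := fun ep h0 h1 => ⟨aAx, one_le_aAx, 1, fun m hm h hh =>
  ⟨cutX6_ax hm (rws0_xI hh m) h0.le (by linarith) true, cutX6_ax hm (rws0_xI hh m) h0.le (by linarith) false⟩⟩

omit [Fil] in
/-- **the seas are straight seas of the contents** -/
theorem strS_seaI {m : ℕ} (hm : 0 < m) (h : ℕ → ℝ) : StrS (seaI m h) m h where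
  dens t := by
    have h0 : (m : ℝ) ≠ 0 := by exact_mod_cast hm.ne'
    have h1 : (m : ℝ) * (seaI m h).dens t = _ := seaI_P hm h t
    rw [← h1, inv_mul_cancel_left₀ h0]
  eta t := by
    have h1 := congrFun (seaI_eta m h) t
    exact h1
  fs t := by
    have h0 : (m : ℂ) ≠ 0 := by exact_mod_cast hm.ne'
    have h1 : (m : ℂ) * (seaI m h).fs t = _ := seaI_vs hm h t
    rw [← h1, inv_mul_cancel_left₀ h0]
  fx t := by
    have h0 : (m : ℂ) ≠ 0 := by exact_mod_cast hm.ne'
    have h1 : (m : ℂ) * (seaI m h).fx t = _ := seaI_vx hm h t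
    rw [← h1, inv_mul_cancel_left₀ h0]

omit [Fil] in
theorem seaCU_I {m : ℕ} {h : ℕ → ℝ} (hh : HtS h) : @SeaCU seaIB (seaI m h) :=
  seaIU fun i _ => (hh i).trans (by norm_num)

/-- **`SeqI` for all sequences from the state sums** -/
theorem seqI_sum (hs : ∀ σ : ℕ → ℕ → ℝ, (∀ m, HtS (σ m)) → SumI seaI σ) :
    ∀ σ : ℕ → ℕ → ℝ, (∀ m, HtS (σ m)) → SeqI σ :=
  seqI_of (fun m h _ hh => seaCU_I hh) (fun m h hm _ => strS_seaI hm h) cutI hs

/-- **`SeqI` from the class bounds** -/
theorem seqI_cls (hWZ : WordThZ) (hFF : _root_.Pool.Agent.PLX.FFth) (en : EnC)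
    (H : ∀ σ : ℕ → ℕ → ℝ, (∀ m, HtS (σ m)) → ClsSq (Gσ seaI en σ) (mNσ seaI σ)) :
    ∀ σ : ℕ → ℕ → ℝ, (∀ m, HtS (σ m)) → SeqI σ :=
  seqI_sum fun σ hσ => sumI_of hWZ hFF en (fun m h hm _ t => (strS_seaI hm h).eta t) hσ (H σ hσ)

end PLT.H1

end
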