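import Pool.Agent.PLT.EnvLI
import Pool.Agent.PLT.SWFin
import Pool.Agent.PLT.SMst
import Pool.Agent.PLT.SH3
import Pool.Agent.PLT.SeaI2
import Pool.Agent.PLT.StabP6
import Pool.Agent.PLT.CutWV
import Pool.Agent.PLT.LegI
import Pool.Agent.PLT.H1One
import Pool.Agent.PLT.SeqF
import Pool.Agent.PLT.OwnGI
import Pool.Agent.PHK.ClsB6
import Pool.Agent.PHK.WordThB
import Pool.Agent.PHK.WordThZ

/-!
# The blocks at rows on the imaginary axis from the gas theorems (helper51)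

The seas `seaI`, the point `par6`, the energy `enT par6`, no ends.

* `seq_fin`: the state sum of every sequence of contents, from `S4C`;
* `uxL_fin`, `uxW_fin`: the families of the two ends of the path, from `S4MC`;
* **`str_fin`**: (S-TR); **`wim_fin`**: (S-W).
-/

set_option autoImplicit false
set_option linter.unusedSectionVars false
set_option linter.unusedVariables false

noncomputable section

open Complex MeasureTheory Filter Topology Finset
open PLX (Fil)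

namespace PLT.Top

open PHK
open PLT.St PLT.SW
open Pool.Agent.PLX (FFth)

attribute [local instance] _root_.PLX.ends0

/-- the straight seas of the rows -/
theorem seaHD_I : SeaHD seaIB seaI where
  sea m h hm hh := seaIU fun i _ => (hh i).trans (by norm_num)
  eta m h hm hh t := by rw [seaI_eta]
  den m h hm hh t := (rhoI_seaI hm h t).symm

variable [Fil]

/-- stability of every selection -/
theorem stab_I (i : ℕ → HI) : StabU par6 (GeoC.sel (GI seaI (enT par6)) i).en :=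
  stabP6 (S := fun m => seaI m (i m).1) fun m => winP6_of fun x => by
    rw [seaI_eta, abs_zero]
    exact div_nonneg NUMF.l_pos.le (by norm_num)

/-- **the state sum of every sequence of contents** -/
theorem seq_fin (hFF : FFth) (h4 : S4C seaIB par6 (enT par6)) :
    ∀ σ : ℕ → ℕ → ℝ, (∀ m, HtS (σ m)) → SeqI σ :=
  PLT.H1.seqI_cls wordThZ hFF (enT par6) fun σ hσ ρ hρ => by
    obtain ⟨κ0, h0, h1, H⟩ := clsRC_I rfl rfl seaH_I h4 stab_I (oneR_IL rfl rfl _) (oneR_I rfl rfl _) hρ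
    refine ⟨κ0, h0, h1, fun ep a1 a2 e1 a3 a4 J a5 a6 => ?_⟩
    obtain ⟨Cst, hC, m0, H⟩ := H ep a1 a2 e1 a3 a4 J a5 a6
    exact ⟨Cst, hC, m0, fun m hm => H m hm ⟨σ m, hσ m⟩⟩

/-- **the left end of the path** -/
theorem uxL_fin (hM : S4MC seaIB par6 (enT par6)) : UXC (famLI seaI) par6 :=
  ux_LI rfl rfl seaH_I hM (stabF_LI htP6 qP6_par (fun S h => @winP6_of S h) seaH_I) (datF_LI_I rfl rfl)

/-- **the right end of the path** -/
theorem uxW_fin (hM : S4MC seaIB par6 (enT par6)) : UXC (famWI seaI) par6 :=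
  ux_famWI (SB := seaIB) (fun m h hh => seaIU fun i _ => (hh i).trans (by norm_num))
    (fun m h _ t => by rw [seaI_eta])
    (ux_famRI (fun m h _ t => by rw [seaI_eta]) (gOk_I rfl rfl seaH_I (enT par6)) hM stab_I
      (oneRT_I rfl rfl _) (ownI_GI par6 (enT par6)))

/-- **(S-TR)** -/
theorem str_fin (hFF : FFth) (h4 : S4C seaIB par6 (enT par6)) (hM : S4MC seaIB par6 (enT par6)) :
    Sm3 fun ep _ _ => StrO ep := by
  obtain ⟨a1, ha1, ha1', h12⟩ := h12_I (S := seaI) hFF (seq_fin hFF h4) (c1 := 1 / 4) (b := 1 / 160)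
    (by norm_num) (by norm_num)
  have hL := uxL_fin hM
  have hcur : ∀ ep e1 J : ℝ, 0 < ep → 0 < e1 → e1 ≤ 1 / 100 → 0 ≤ J → CurI seaI ep e1 J :=
    fun ep e1 J h1 h2 h3 h4 => seaI_cur ep e1 J h1 h2 h3 h4
  refine str_all (SB := seaIB) hFF (c1 := 1 / 4) (c2 := 1 / 2) (by norm_num) (by norm_num)
    (fun m h hh => seaI_eta m h) hcur (fun m h _ η => seaI_dsp m h η) (fun m h _ η η1 => seaI_dsp1 m h η η1) hL
    ?_ ?_ ?_ (h3S_of seaHD_I (ux_famVI_L hL) (uxW_fin hM) (by norm_num))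
  · refine ⟨a1, ha1, fun ep e1 J h1 h2 h3 h4 h5 h6 => ?_⟩
    exact (h12 ep e1 J h1 h2 (hcur ep e1 J h1 h3 (h4.trans ha1') h5)).1
  · refine ⟨1 / 100, by norm_num, fun ep e1 J h1 h2 h3 h4 h5 h6 => ?_⟩
    exact hm_I hFF h1 h2 (hcur ep e1 J h1 h3 h4 h5)
  · refine ⟨a1, ha1, fun ep e1 J h1 h2 h3 h4 h5 h6 => ?_⟩
    exact (h12 ep e1 J h1 h2 (hcur ep e1 J h1 h3 (h4.trans ha1') h5)).2

/-- **(S-W)** -/
theorem wim_fin (hFF : FFth) (hM : S4MC seaIB par6 (enT par6)) {a0 b0 : ℕ} (ha : 1 ≤ a0) (hb : 1 ≤ b0) :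
    ∃ c e0 d : ℝ, 0 < c ∧ 0 < e0 ∧ 0 < d ∧ PLT.FS.WIM Fil.q a0 b0 c e0 d := by
  have hl := NUP1.l_pos
  have hCl : PBI.PLX.ClsB6 := PBI.PLX.clsB6_of wordThB
  obtain ⟨p1, p2, p3⟩ := par6_ax
  have hx : ∀ (m : ℕ) (i : IxW), okIx (1 / 100) (3 / 20) m i → ∀ k, (xIx m i k).re = 0 ∧ |(xIx m i k).im| ≤ 1 :=
    fun m i hi k => by
      refine ⟨by simp [xIx], ?_⟩
      have h2 := (hi.2.1 k k.2).trans (by norm_num : (1 : ℝ) / 100 ≤ 1)
      simpa [xIx] using h2
  have hd : DatF (famLC xIx zIx (fun m i => seaI m i.1) (okIx (1 / 100) (3 / 20)) (-(0 * NUP1.l)) (0 * NUP1.l)) par6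
      (BLC xIx zIx) (fun m i => seaI m i.1) (pTL xIx) :=
    datF_axV (s0 := 1) rfl rfl p1 p2 p3 le_rfl hx
      (fun m i hi => by simp only [zIx, mul_re, I_re, ofReal_re, zero_mul, I_im, ofReal_im, mul_zero, sub_zero]; linarith)
      (fun m i hi => by
        simp only [zIx, mul_re, I_re, ofReal_re, zero_mul, I_im, ofReal_im, mul_zero, sub_zero]
        positivity)
      (fun m i hi t => by rw [seaI_eta])
      (fun m i hi => seaV_seaI hi.1 fun k hk => (hi.2.1 k hk).trans (by norm_num)) _ _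
  have hS : SeaIx seaIB (fun m i => seaI m i.1) (1 / 100) (3 / 20) := seaIx (by norm_num) _
  have hR := reqSW_I rfl rfl (h0 := 1 / 100) (e0 := 3 / 20) (by norm_num) le_rfl hS hM hd
  have q0 : qP6.of 0 ≤ 0 := by rw [qP6_of0]; norm_num
  have q1 : 0 ≤ qP6.of 1 := by rw [qP6_of1]; norm_num
  have hF : FamW (1 / 100) (3 / 20) := famW_SW rfl rfl htP6 qP6_par q0 q1 hR
  have hU := inUX_SW rfl rfl htP6 qP6_par q0 q1 hR
  have hC : CutV (1 / 100) (3 / 20) := PLT.Fr.cutV_ux hCl (by norm_num) hS hU (Cp := 0) fun m i hi a t => by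
    rw [pTL_ax (fun k => (hx m i hi k).1), add_zero]
  exact ⟨13 / 20, 3 / 20, 1 / 100, by norm_num, by norm_num, by norm_num,
    wim_W hFF hCl ha hb (by norm_num) le_rfl (by norm_num) hF hC⟩

end PLT.Top

end
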