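import Pool.Agent.PB.EInst2

/-!
# PLAX-theta, W3: the data of `PBE.E_prime` at an admissible field, narrow symmetric strips, tall legs

The statistics of the particle-hole form live on the curves only, so the test functions are analytic in a
narrow strip `|Im z| < y` around the curve; Cauchy lines `± Y`, field analytic in `|Im z| ≤ bF`.

* `StrW y Y bF`: the numbers of the strips; `FldW bF K r rp rm`: an admissible field with (complex) plateaus;
* `AplC`, `AmiC`, `BchC`, **`rep_EFC`**, `Apl_eqC`, `Ami_eqC`, `h0_TCC`, `g2_TCC`, `uF_TCC`, `qF_TCC`,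
  **`vdatC`**, **`E_fieldC`**: `(E')` at the field `r`, leg at any height `τ`, error factor `exp (4 |τ|)`.
-/

set_option autoImplicit false

open Complex Set Filter Topology MeasureTheory

noncomputable section

namespace PLT.W

open NUMF (l r l_pos r_pos r_lt_one)
open PBV PBEI
open Pool.Agent.PB (Lim rl KC KmC MeasR MeanDat VDat Kw Kg TC_Lim mV CV CmV CsV CssV)

/-- the numbers of the narrow symmetric strips -/
structure StrW (y Y bF : ℝ) : Prop where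
  y0 : 0 < y
  yY : y < Y
  YF : Y < bF
  Fl : bF ≤ l / 4

/-- an admissible field on the strip `|Im z| ≤ bF` -/
structure FldW (bF K : ℝ) (ξ : ℂ → ℂ) (xp xm : ℂ) : Prop where
  xi : XiA ξ bF K (32 / 3) xp xm
  np : ‖xp‖ ≤ K
  nm : ‖xm‖ ≤ K
  ms : Measurable ξ

variable {y Y bF K : ℝ} {ξ : ℂ → ℂ} {xp xm : ℂ}

lemma StrW.geo (h : StrW y Y bF) : Geo (-y) y (-Y) Y (Y - y) 4 bF (2 * Y) := by
  have hl := l_pos
  have hl4 : l = Real.pi / 8 := rfl
  have hpi := Real.pi_pos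
  have h1 := h.y0
  have h2 := h.yY
  have h3 := h.YF
  have h4 := h.Fl
  refine ⟨by linarith, by linarith, by linarith, by norm_num, ?_, ?_, ?_, by linarith, by linarith, by linarith,
    by linarith⟩
  · rw [hl4] at h4; linarith
  · rw [abs_neg, abs_of_pos (by linarith)]; linarith
  · rw [abs_of_pos (by linarith)]; linarith

lemma FldW.pd (h : FldW bF K ξ xp xm) : ‖xp - xm‖ ≤ 2 * K :=
  (norm_sub_le _ _).trans (by linarith [h.np, h.nm])

lemma FldW.K0 (h : FldW bF K ξ xp xm) : 0 ≤ K := h.xi.K0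

lemma FldW.mono {K' : ℝ} (h : FldW bF K ξ xp xm) (hK : K ≤ K') : FldW bF K' ξ xp xm where
  xi :=
    { K0 := h.K0.trans hK
      c0 := h.xi.c0
      b0 := h.xi.b0
      an := h.xi.an
      db := fun z hz => (h.xi.db z hz).trans (by gcongr)
      pp := fun z hz h0 => (h.xi.pp z hz h0).trans (by gcongr)
      pm := fun z hz h0 => (h.xi.pm z hz h0).trans (by gcongr) }
  np := h.np.trans hK
  nm := h.nm.trans hK
  ms := h.ms

/-- plus channel, first factors -/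
def AplC (ξ : ℂ → ℂ) (xp xm : ℂ) (Y : ℝ) : Bool × ℝ → ℂ → ℂ := AE (Ep ξ xp xm) (-Y) Y
/-- minus channel, first factors -/
def AmiC (ξ : ℂ → ℂ) (xp xm : ℂ) (Y : ℝ) : Bool × ℝ → ℂ → ℂ := AE (Em ξ xp xm) (-Y) Y
/-- second factors -/
def BchC (Y : ℝ) : Bool × ℝ → ℂ → ℂ := BE 4 (-Y) Y

lemma Apl_measurableC (hm : Measurable ξ) :
    Measurable fun p : (Bool × ℝ) × ℂ => AplC ξ xp xm Y p.1 p.2 :=
  AE_Ec_measurable _ _ hm _ _ _ _

lemma Ami_measurableC (hm : Measurable ξ) :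
    Measurable fun p : (Bool × ℝ) × ℂ => AmiC ξ xp xm Y p.1 p.2 :=
  AE_Ec_measurable _ _ hm _ _ _ _

lemma Bch_measurableC : Measurable fun p : (Bool × ℝ) × ℂ => BchC Y p.1 p.2 := BE_measurable _ _ _

/-- **the product representations of the two channels**, every rate `0 < a' < a < 2` -/
theorem rep_EFC (hW : StrW y Y bF) (hK : 0 ≤ K) {a a' : ℝ} (ha0 : 0 ≤ a') (haa : a' < a) (ha : a < 2) :
    ∃ C : ℝ, 0 < C ∧ ∀ (ξ : ℂ → ℂ) (xp xm : ℂ), FldW bF K ξ xp xm →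
      PBE.Rep (-y) y a' wm (AplC ξ xp xm Y) (BchC Y) (fun q => C * Real.exp (-(a * |q.2|)))
        (fun q => C * Real.exp (a' * |q.2|)) ∧
      PBE.Rep (-y) y a' wm (AmiC ξ xp xm Y) (BchC Y) (fun q => C * Real.exp (-(a * |q.2|)))
        (fun q => C * Real.exp (a' * |q.2|)) ∧
      ∫ q, (C * Real.exp (-(a * |q.2|))) * (C * Real.exp (a' * |q.2|)) ∂wm = C ^ 2 * (4 / (a - a')) := by
  have hl := l_pos
  have g1 := hW.y0
  have g2 := hW.yY
  have g3 := hW.YF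
  have g4 := hW.Fl
  obtain ⟨C1, hC1, h1⟩ := Ec_rep (1 / 4) (1 / 4) hW.geo (ha0.trans haa.le) ha
  obtain ⟨C2, hC2, h2⟩ := Ec_rep (1 / 4) (-(1 / 4)) hW.geo (ha0.trans haa.le) ha
  have hcE : 0 < cE 4 (Y - y) := by
    refine cE_pos (by norm_num) (by linarith) ?_
    have hl4 : l = Real.pi / 8 := rfl
    have := Real.pi_pos
    rw [hl4] at g4; linarith
  set C := C1 * (K + 2 * K) + C2 * (K + 2 * K) + cE 4 (Y - y) with hCdef
  have hCpos : 0 < C := by positivity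
  have hp : 0 < a - a' := by linarith
  have hint : Integrable (fun q : Bool × ℝ => (C * Real.exp (-(a * |q.2|))) * (C * Real.exp (a' * |q.2|))) wm ∧
      ∫ q, (C * Real.exp (-(a * |q.2|))) * (C * Real.exp (a' * |q.2|)) ∂wm = C ^ 2 * (4 / (a - a')) := by
    have e : (fun q : Bool × ℝ => (C * Real.exp (-(a * |q.2|))) * (C * Real.exp (a' * |q.2|))) =
        fun q : Bool × ℝ => C ^ 2 * Real.exp (-((a - a') * |q.2|)) := by
      funext q
      have : Real.exp (-((a - a') * |q.2|)) = Real.exp (-(a * |q.2|)) * Real.exp (a' * |q.2|) := by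
        rw [← Real.exp_add]; congr 1; ring
      rw [this]; ring
    rw [e]
    exact ⟨(integrable_exp_wm hp).const_mul _, by rw [integral_const_mul, integral_exp_wm hp]⟩
  refine ⟨C, hCpos, fun ξ xp xm hF => ?_⟩
  have hXi := hF.xi
  have hD := hF.pd
  have r1 := (h1 hXi (by norm_num) a' ha0 haa (by linarith)).1
  have r2 := (h2 hXi (by norm_num) a' ha0 haa (by linarith)).1
  have k1 : C1 * (K + ‖xp - xm‖) ≤ C := by
    have : C1 * (K + ‖xp - xm‖) ≤ C1 * (K + 2 * K) := by gcongr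
    have h3 : 0 ≤ C2 * (K + 2 * K) := by positivity
    linarith
  have k2 : C2 * (K + ‖xp - xm‖) ≤ C := by
    have : C2 * (K + ‖xp - xm‖) ≤ C2 * (K + 2 * K) := by gcongr
    have h3 : 0 ≤ C1 * (K + 2 * K) := by positivity
    linarith
  have k3 : cE 4 (Y - y) ≤ C := by
    have h3 : 0 ≤ C1 * (K + 2 * K) := by positivity
    have h4 : 0 ≤ C2 * (K + 2 * K) := by positivity
    linarith
  refine ⟨⟨fun q => (r1.tA q).mono ?_, fun q => (r1.tB q).mono ?_, hint.1⟩,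
    ⟨fun q => (r2.tA q).mono ?_, fun q => (r2.tB q).mono ?_, hint.1⟩, hint.2⟩
  · gcongr
  · gcongr
  · gcongr
  · gcongr

/-- pointwise product form, plus channel -/
theorem Apl_eqC (hW : StrW y Y bF) (hF : FldW bF K ξ xp xm) {z w : ℂ} (hz : z ∈ PBE.Sp (-y) y)
    (hw : w ∈ PBE.Sp (-y) y) : Integrable (fun q => AplC ξ xp xm Y q z * BchC Y q w) wm ∧
      Ep ξ xp xm z w = ∫ q, AplC ξ xp xm Y q z * BchC Y q w ∂wm :=
  Ec_decomp _ _ hW.geo hF.xi (by norm_num) hz hw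

/-- pointwise product form, minus channel -/
theorem Ami_eqC (hW : StrW y Y bF) (hF : FldW bF K ξ xp xm) {z w : ℂ} (hz : z ∈ PBE.Sp (-y) y)
    (hw : w ∈ PBE.Sp (-y) y) : Integrable (fun q => AmiC ξ xp xm Y q z * BchC Y q w) wm ∧
      Em ξ xp xm z w = ∫ q, AmiC ξ xp xm Y q z * BchC Y q w ∂wm :=
  Ec_decomp _ _ hW.geo hF.xi (by norm_num) hz hw

/-! ### the leg functions -/

theorem h0_TCC (hW : StrW y Y bF) {a : ℝ} (ha0 : 0 ≤ a) (ha : a ≤ 2) (τ : ℝ) :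
    PBE.TC (-y) y a (cL * Real.exp (a * |τ|)) (h0T τ) := by
  have hl := l_pos
  have g1 := hW.y0
  have g2 := hW.yY
  have g3 := hW.YF
  have g4 := hW.Fl
  exact TC_sub (h0_TC ha0 ha τ) (by show -(2 / 5 * l) ≤ -y; linarith) (by show y ≤ l; linarith)

theorem g2_TCC (hW : StrW y Y bF) {a : ℝ} (ha0 : 0 ≤ a) (ha : a ≤ 2) (τ : ℝ) :
    PBE.TC (-y) y a (cL * Real.exp (a * |τ|) * Real.exp (a * (l / 10)) / (l / 10)) (g2T τ) := by
  have hl := l_pos
  have g1 := hW.y0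
  have g2 := hW.yY
  have g3 := hW.YF
  have g4 := hW.Fl
  have h := TC_sub (h0_TC ha0 ha τ) (w1' := -y - l / 10) (w2' := y + l / 10)
    (by show -(2 / 5 * l) ≤ -y - l / 10; linarith)
    (by show y + l / 10 ≤ l; linarith)
  exact TC_deriv (by linarith) h ha0 (by have := cL_pos; positivity)

lemma mem_realC (hy : 0 < y) (t : ℝ) : (t : ℂ) ∈ PBE.Sp (-y) y := by
  show -y < (t : ℂ).im ∧ (t : ℂ).im < y
  rw [ofReal_im]
  constructor <;> linarith

theorem kp_fieldC (hW : StrW y Y bF) (hF : FldW bF K ξ xp xm) :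
    ∀ᵐ p : ℝ × ℝ ∂(volume.prod volume),
    ∫ s, AplC ξ xp xm Y s (p.1 : ℂ) * BchC Y s (p.2 : ℂ) ∂wm =
      1 / 4 * (ξ p.1 - ξ p.2) * KC (p.1 - p.2) := by
  have hl := l_pos
  filter_upwards [ae_ne] with p hp
  have h1 := (Apl_eqC hW hF (mem_realC hW.y0 p.1) (mem_realC hW.y0 p.2)).2
  have h2 := Ep_eq ξ xp xm (z := (p.1 : ℂ)) (w := (p.2 : ℂ)) (by simpa using hl.le)
    (by simpa using hl.le) (by simpa using hl.le) (by exact_mod_cast hp)
  have hu : p.1 - p.2 ≠ 0 := sub_ne_zero.2 hp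
  have k1 := kf_real true hu
  have k2 := kf_real false hu
  simp only [if_true, Bool.false_eq_true, if_false] at k1 k2
  rw [← ofReal_sub, k1, k2] at h2
  rw [← h1]
  unfold KC
  rw [ofReal_add]
  linear_combination -(1 / 4) * h2

theorem km_fieldC (hW : StrW y Y bF) (hF : FldW bF K ξ xp xm) :
    ∀ᵐ p : ℝ × ℝ ∂(volume.prod volume),
    ∫ s, AmiC ξ xp xm Y s (p.1 : ℂ) * BchC Y s (p.2 : ℂ) ∂wm =
      1 / 4 * (ξ p.1 - ξ p.2) * KmC (p.1 - p.2) -
        beC ξ xp xm p.1 * sg p.2 - sg p.1 * beC ξ xp xm p.2 -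
        (xp - xm) / 2 * (1 - sg p.1 * sg p.2) := by
  have hl := l_pos
  filter_upwards [ae_ne] with p hp
  have h1 := (Ami_eqC hW hF (mem_realC hW.y0 p.1) (mem_realC hW.y0 p.2)).2
  have h2 := Em_eq ξ xp xm (z := (p.1 : ℂ)) (w := (p.2 : ℂ)) (by simpa using hl.le)
    (by simpa using hl.le) (by simpa using hl.le) (by exact_mod_cast hp)
  have hu : p.1 - p.2 ≠ 0 := sub_ne_zero.2 hp
  have k1 := kf_real true hu
  have k2 := kf_real false hu
  simp only [if_true, Bool.false_eq_true, if_false] at k1 k2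
  rw [← ofReal_sub, k1, k2] at h2
  rw [← h1]
  unfold KmC sg
  unfold Pl at h2
  rw [ofReal_sub (Kw (p.1 - p.2))]
  linear_combination -(1 / 4) * h2

/-- test function: the one body function of the plateau part -/
theorem uF_TCC (hW : StrW y Y bF) (hF : FldW bF K ξ xp xm) {a : ℝ} (ha : a ≤ 4) :
    PBE.TC (-y) y a (K + 2 * K / r) (beC ξ xp xm) := by
  have hl := l_pos
  have g1 := hW.y0
  have g2 := hW.yY
  have g3 := hW.YF
  have g4 := hW.Fl
  have hr := r_pos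
  have hK := hF.K0
  have hD := hF.pd
  have h1 := beC_TC hF.xi (by norm_num) (by linarith : bF ≤ l) (y₁ := -y) (y₂ := y)
    (by linarith) (by linarith) ha
  refine h1.mono ?_
  gcongr

/-- the field is bounded on the strip -/
theorem fld_bddC (hF : FldW bF K ξ xp xm) {z : ℂ} (hz : |z.im| ≤ bF) : ‖ξ z‖ ≤ 2 * K := by
  have hK := hF.K0
  have hE : Real.exp (-(32 / 3 * |z.re|)) ≤ 1 := Real.exp_le_one_iff.2 (by linarith [abs_nonneg z.re])
  rcases le_total 0 z.re with h0 | h0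
  · have h1 := hF.xi.pp z hz h0
    have h2 : ‖ξ z‖ ≤ ‖ξ z - xp‖ + ‖xp‖ := by simpa using norm_add_le (ξ z - xp) xp
    nlinarith [hF.np]
  · have h1 := hF.xi.pm z hz h0
    have h2 : ‖ξ z‖ ≤ ‖ξ z - xm‖ + ‖xm‖ := by simpa using norm_add_le (ξ z - xm) xm
    nlinarith [hF.nm]

lemma im_of_memC (hW : StrW y Y bF) {z : ℂ} (hz : z ∈ PBE.Sp (-y) y) : |z.im| ≤ bF := by
  have g2 := hW.yY
  have g3 := hW.YF
  have h1 : -y < z.im := hz.1
  have h2 : z.im < y := hz.2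
  rw [abs_le]; constructor <;> linarith

/-- test function: the field times the leg function -/
theorem qF_TCC (hW : StrW y Y bF) (hF : FldW bF K ξ xp xm) {a : ℝ} (ha0 : 0 ≤ a) (ha : a ≤ 2) (τ : ℝ) :
    PBE.TC (-y) y a (2 * K * cL * Real.exp (a * |τ|)) (fun z => ξ z * h0T τ z) := by
  have h1 := TC_mul (h0_TCC hW ha0 ha τ) (h := ξ)
    (fun z hz => (hF.xi.an z (im_of_memC hW hz)).differentiableWithinAt)
    (fun z hz => fld_bddC hF (im_of_memC hW hz))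
  rw [← mul_assoc] at h1
  exact h1

/-- the constants of the rates -/
def aEC (C1 a : ℝ) (q : Bool × ℝ) : ℝ := C1 * Real.exp (-(a * |q.2|))
/-- the constants of the rates -/
def bEC (C1 a' : ℝ) (q : Bool × ℝ) : ℝ := C1 * Real.exp (a' * |q.2|)

/-- **the data of the values at the field**, one constant; leg at the height `τ`, `T = exp (2 |τ|)` -/
theorem vdatC (hW : StrW y Y bF) (hK : 0 ≤ K) {a a' : ℝ} (ha : 1 / 2 ≤ a') (haa : a' < a) (ha2 : a < 2) :
    ∃ C1 C : ℝ, 0 < C1 ∧ 32 ≤ C ∧ ∀ (ξ : ℂ → ℂ) (xp xm : ℂ), FldW bF K ξ xp xm → ∀ τ : ℝ,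
    ∀ (mf mf' D : ℝ → ℂ) (B : ℝ) (mp mm : ℂ), MeanDat mf mf' D (rl (h0T τ)) B mp mm → ∀ b : ℝ, C ≤ b → B ≤ b →
      VDat (-y) y a' (y / 2) wm wm (AplC ξ xp xm Y) (BchC Y) (aEC C1 a) (bEC C1 a') (AmiC ξ xp xm Y) (BchC Y)
        (aEC C1 a) (bEC C1 a')
        ξ (beC ξ xp xm) (h0T τ) (g2T τ) (fun z => ξ z * h0T τ z)
        (fun t : ℝ => deriv ξ t) (rl (deriv (beC ξ xp xm))) sg sg' sg'' mf mf' D b
        (C * Real.exp (2 * |τ|)) (C * Real.exp (2 * |τ|)) (C * Real.exp (2 * |τ|)) C xp xm mp mm ∧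
      ∫ q, aEC C1 a q * bEC C1 a' q ∂wm ≤ C ∧ ‖xp‖ ≤ C ∧ ‖xm‖ ≤ C := by
  have hl := l_pos
  have g1 := hW.y0
  have g2 := hW.yY
  have g3 := hW.YF
  have g4 := hW.Fl
  have hr := r_pos
  have ha0 : 0 ≤ a' := by linarith
  have ha1 : 0 < a' := by linarith
  have hd : 0 < a - a' := by linarith
  obtain ⟨C1, hC1, h1⟩ := rep_EFC hW hK ha0 haa ha2
  have hcL := cL_pos
  obtain ⟨C3, hC3⟩ : ∃ C3 : ℝ, C3 = K + 2 * K / r := ⟨_, rfl⟩
  have hC30 : 0 ≤ C3 := by rw [hC3]; positivity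
  set Cu := max C3 (C3 * Real.exp (a' * (y / 2)) / (y / 2)) with hCu
  have hCu0 : 0 ≤ Cu := hC30.trans (le_max_left _ _)
  set G := cL * Real.exp (a' * (l / 10)) / (l / 10) with hG
  have hG0 : 0 < G := by positivity
  set W := C1 ^ 2 * (4 / (a - a')) with hWd
  have hW0 : 0 < W := by positivity
  have c2 : 0 ≤ 2 * K * cL := by positivity
  refine ⟨C1, 32 + W + 3 * K + Cu + cL + G + 2 * K * cL, hC1, by linarith,
    fun ξ xp xm hF τ mf mf' D B mp mm hm b hb hB => ?_⟩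
  set C := 32 + W + 3 * K + Cu + cL + G + 2 * K * cL with hC
  obtain ⟨r1, r2, r3⟩ := h1 ξ xp xm hF
  have hXi := hF.xi
  have hP := hF.np
  have hM := hF.nm
  have hEτ : Real.exp (a' * |τ|) ≤ Real.exp (2 * |τ|) :=
    Real.exp_le_exp.2 (by nlinarith [abs_nonneg τ])
  have hE0 : 0 < Real.exp (2 * |τ|) := Real.exp_pos _
  have hu := uF_TCC hW hF (a := a') (by linarith)
  rw [← hC3] at hu
  have hy1 : -y < 0 := by linarith
  refine ⟨{
    ha := ha1
    hθ := by linarith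
    h1 := by linarith
    h2 := by linarith
    hb := by linarith
    hR := r1
    hR' := r2
    mA := MeasR_of (Apl_measurableC hF.ms)
    mB := MeasR_of Bch_measurableC
    mA' := MeasR_of (Ami_measurableC hF.ms)
    mB' := MeasR_of Bch_measurableC
    kp := kp_fieldC hW hF
    km := km_fieldC hW hF
    lr := (XiA.lim hXi (by norm_num)).mono (by linarith)
    lu := (TC_Lim hu ha (by linarith : 0 < y / 2) (by linarith) (by linarith)).mono
      (by rw [← hCu]; linarith)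
    ls := lim_sg.mono (by linarith)
    ls' := lim_sg'.mono (by linarith)
    tu := hu.mono (by linarith [le_max_left C3 (C3 * Real.exp (a' * (y / 2)) / (y / 2))])
    hm := { hm with lim := hm.lim.mono hB }
    th0 := (h0_TCC hW ha0 (by linarith) τ).mono ?_
    tg2 := (g2_TCC hW ha0 (by linarith) τ).mono ?_
    dg2 := fun t => ?_
    tq := (qF_TCC hW hF ha0 (by linarith) τ).mono ?_
    eq := fun t => rfl }, ?_, by linarith, by linarith⟩
  · calc cL * Real.exp (a' * |τ|) ≤ cL * Real.exp (2 * |τ|) := by gcongr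
      _ ≤ _ := mul_le_mul_of_nonneg_right (by linarith) hE0.le
  · calc cL * Real.exp (a' * |τ|) * Real.exp (a' * (l / 10)) / (l / 10)
        ≤ cL * Real.exp (2 * |τ|) * Real.exp (a' * (l / 10)) / (l / 10) := by gcongr
      _ = G * Real.exp (2 * |τ|) := by rw [hG]; ring
      _ ≤ _ := mul_le_mul_of_nonneg_right (by linarith) hE0.le
  · exact Pool.Agent.PB.TC_deriv (h0_TCC hW ha0 (by linarith) τ) hy1 g1 t
  · calc 2 * K * cL * Real.exp (a' * |τ|) ≤ 2 * K * cL * Real.exp (2 * |τ|) := by gcongr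
      _ ≤ _ := mul_le_mul_of_nonneg_right (by linarith) hE0.le
  · show ∫ q, (C1 * Real.exp (-(a * |q.2|))) * (C1 * Real.exp (a' * |q.2|)) ∂wm ≤ C
    rw [r3]
    linarith

/-- the arithmetic of the constants -/
lemma num_leC {C E B a' n In d1 d2 d3 : ℝ} (hC : 32 ≤ C) (hE : 1 ≤ E) (hB : 0 ≤ B) (ha : 0 < a') (hn : 0 < n)
    (hI0 : 0 ≤ In) (hI : In ≤ C) (h1 : d1 ≤ 2 * C) (h2 : d2 ≤ C) (h3 : d3 ≤ C) (h30 : 0 ≤ d3) :
    (3 + (C + B) * (2 / a')) * (1 + 2 * (C * E) / (a' * n)) ^ 2 * In + (In + 2 * C + d1 / 2) +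
        C * E * (1 + 2 * (C * E) / (a' * n)) + d2 + d3 * (1 + C * E) ≤
      ((3 + (C + 1) * (2 / a')) * (1 + 2 * C / (a' * n)) ^ 2 * C + (C + 2 * C + C) +
        C * (1 + 2 * C / (a' * n)) + C + C * (1 + C)) * (1 + B) * E ^ 2 := by
  have hC0 : 0 < C := by linarith
  have hE0 : 0 < E := by linarith
  obtain ⟨F, hF⟩ : ∃ F : ℝ, F = 1 + 2 * C / (a' * n) := ⟨_, rfl⟩
  have hF0 : 0 < F := by rw [hF]; positivity
  rw [← hF]
  obtain ⟨G, hG⟩ : ∃ G : ℝ, G = 1 + 2 * (C * E) / (a' * n) := ⟨_, rfl⟩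
  have hG0 : 0 ≤ G := by rw [hG]; positivity
  have k1 : G ≤ F * E := by
    have e : G = 1 + 2 * C / (a' * n) * E := by rw [hG]; ring
    rw [e, hF, add_mul, one_mul]
    linarith
  rw [← hG]
  have k2 : G ^ 2 ≤ F ^ 2 * E ^ 2 := by
    rw [← mul_pow]
    exact pow_le_pow_left₀ hG0 k1 2
  obtain ⟨s, hs⟩ : ∃ s : ℝ, s = 2 / a' := ⟨_, rfl⟩
  have hs0 : 0 < s := by rw [hs]; positivity
  rw [← hs]
  have k3 : 3 + (C + B) * s ≤ (3 + (C + 1) * s) * (1 + B) := by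
    have e3 : (3 + (C + 1) * s) * (1 + B) - (3 + (C + B) * s) = s + 3 * B + C * B * s := by ring
    have h4 : 0 ≤ s + 3 * B + C * B * s := by positivity
    linarith
  have hB1 : 1 ≤ 1 + B := by linarith
  obtain ⟨X, hX⟩ : ∃ X : ℝ, X = (1 + B) * E ^ 2 := ⟨_, rfl⟩
  have hE2 : E ≤ E ^ 2 := by nlinarith
  have hX1 : E ^ 2 ≤ X := by rw [hX]; nlinarith [sq_nonneg E]
  have hXE : E ≤ X := hE2.trans hX1
  have hXo : 1 ≤ X := hE.trans hXE
  have t1 : (3 + (C + B) * s) * G ^ 2 * In ≤ (3 + (C + 1) * s) * F ^ 2 * C * X := by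
    calc (3 + (C + B) * s) * G ^ 2 * In
        ≤ ((3 + (C + 1) * s) * (1 + B)) * (F ^ 2 * E ^ 2) * C := by gcongr
      _ = _ := by rw [hX]; ring
  have t2 : In + 2 * C + d1 / 2 ≤ (C + 2 * C + C) * X := by
    have h5 : In + 2 * C + d1 / 2 ≤ C + 2 * C + C := by linarith
    exact h5.trans (le_mul_of_one_le_right (by positivity) hXo)
  have t3 : C * E * G ≤ C * F * X := by
    calc C * E * G ≤ C * E * (F * E) := by gcongr
      _ = C * F * E ^ 2 := by ring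
      _ ≤ _ := by gcongr
  have t4 : d2 ≤ C * X := h2.trans (le_mul_of_one_le_right hC0.le hXo)
  have t5 : d3 * (1 + C * E) ≤ C * (1 + C) * X := by
    calc d3 * (1 + C * E) ≤ C * (E + C * E) := by gcongr
      _ = C * (1 + C) * E := by ring
      _ ≤ _ := by gcongr
  have e6 : ((3 + (C + 1) * s) * F ^ 2 * C + (C + 2 * C + C) + C * F + C + C * (1 + C)) *
        (1 + B) * E ^ 2 =
      (3 + (C + 1) * s) * F ^ 2 * C * X + (C + 2 * C + C) * X + C * F * X + C * X +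
        C * (1 + C) * X := by rw [hX]; ring
  rw [e6]
  exact add_le_add (add_le_add (add_le_add (add_le_add t1 t2) t3) t4) t5

/-- **`(E')` at the field**: one constant `Kc` for all fields of the strip, all heights of the legs -/
theorem E_fieldC (hW : StrW y Y bF) (hK : 0 ≤ K) {a' : ℝ} (ha : 1 / 2 ≤ a') (ha2 : a' < 2) :
    ∃ Kc : ℝ, 0 < Kc ∧ ∀ (ξ : ℂ → ℂ) (xp xm : ℂ), FldW bF K ξ xp xm → ∀ τ : ℝ,
    ∀ (mf mf' D : ℝ → ℂ) (B : ℝ) (mp mm : ℂ), MeanDat mf mf' D (rl (h0T τ)) B mp mm →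
    ∀ (f fη fτ fττ : ℂ) (G1 : (ℂ → ℂ) → ℂ) (G2 H2 : (ℂ → ℂ) → (ℂ → ℂ) → ℂ) (Hs : (ℂ → ℂ) → ℂ) (Hss : ℂ)
      (δ δ0 : ℝ), 0 ≤ δ → 0 ≤ B →
      PBE.Lev2 (-y) y a' f G1 G2 (mV mf) CV δ →
      PBE.Lev2m (-y) y a' f H2 Hs Hss CmV (CsV sg') (CssV sg') δ →
      PBE.Lin1 (-y) y a' G1 → PBE.Lin2 (-y) y a' G2 →
      Integrable (fun s => G2 (AplC ξ xp xm Y s) (BchC Y s)) wm →
      Integrable (fun s => H2 (AmiC ξ xp xm Y s) (BchC Y s)) wm →
      ‖fη - ((∫ s, G2 (AplC ξ xp xm Y s) (BchC Y s) ∂wm) +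
        ((∫ s, H2 (AmiC ξ xp xm Y s) (BchC Y s) ∂wm) + 2 * Hs (beC ξ xp xm) - (xp - xm) / 2 * Hss) +
          G1 (fun z => ξ z * h0T τ z))‖ ≤ δ0 →
      ‖G1 (h0T τ) + fτ‖ ≤ δ → ‖G2 (h0T τ) (h0T τ) + G1 (g2T τ) - fττ‖ ≤ δ →
      ‖fη - (-((xp - xm) / 8) * fττ - (xp + xm) / 2 * fτ)‖ ≤
        δ0 + Kc * (1 + B) * Real.exp (4 * |τ|) * δ := by
  have hl := l_pos
  obtain ⟨C1, C, hC1, hC, h⟩ := vdatC hW hK (a := (a' + 2) / 2) ha (by linarith) (by linarith)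
  have ha0 : 0 < a' := by linarith
  have hC0 : 0 < C := by linarith
  obtain ⟨n, hn⟩ : ∃ n : ℝ, n = 2 * (3 * l) := ⟨_, rfl⟩
  have hn0 : 0 < n := by rw [hn]; positivity
  refine ⟨(3 + (C + 1) * (2 / a')) * (1 + 2 * C / (a' * n)) ^ 2 * C + (C + 2 * C + C) +
    C * (1 + 2 * C / (a' * n)) + C + C * (1 + C), by positivity,
    fun ξ xp xm hx τ mf mf' D B mp mm hm f fη fτ fττ G1 G2 H2 Hs Hss δ δ0 hδ hB0 hL hL' hG1 hG2 iG iH hI h1
      h2 => ?_⟩
  obtain ⟨d, hint, hP, hM⟩ := h ξ xp xm hx τ mf mf' D B mp mm hm (C + B) (by linarith) (by linarith)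
  have key := d.E_prime hδ hL hL' hG1 hG2 iG iH hI h1 h2
  refine key.trans ?_
  have hmass : ‖PBE.mass (h0T τ)‖ = n := by
    rw [mass_h0, norm_mul, norm_mul, norm_I, norm_real, Real.norm_of_nonneg hl.le]
    have : ‖(6 : ℂ)‖ = 6 := by simp
    rw [this, hn]; ring
  rw [hmass]
  have hD : ‖xp - xm‖ ≤ 2 * C := (norm_sub_le _ _).trans (by linarith)
  have hS : ‖(xp + xm) / 2‖ ≤ C := by
    rw [norm_div]
    have h3 := norm_add_le xp xm
    have : ‖(2 : ℂ)‖ = 2 := by simp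
    rw [this]; linarith
  have hD8 : ‖-((xp - xm) / 8)‖ ≤ C := by
    rw [norm_neg, norm_div]
    have : ‖(8 : ℂ)‖ = 8 := by simp
    rw [this]; linarith
  have hIn0 : 0 ≤ ∫ q, aEC C1 ((a' + 2) / 2) q * bEC C1 a' q ∂wm :=
    integral_nonneg fun q => by unfold aEC bEC; positivity
  have hE1 : 1 ≤ Real.exp (2 * |τ|) := Real.one_le_exp (by positivity)
  have hE4 : Real.exp (4 * |τ|) = Real.exp (2 * |τ|) ^ 2 := by
    rw [← Real.exp_nat_mul]; congr 1; push_cast; ring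
  rw [hE4]
  refine add_le_add le_rfl (mul_le_mul_of_nonneg_right ?_ hδ)
  exact num_leC hC hE1 hB0 ha0 hn0 hIn0 hint hD hS hD8 (norm_nonneg _)

end PLT.W

end
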