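import Pool.Agent.PLT.EInstC
import Pool.Agent.PB.EMain

/-!
# PLAX-theta, W3: `(E')` from level two, the first Ward identity and the derivatives in the legs

**`E_levC`**: for ONE functional (index), no family: `PBEM.LevD` on the narrow strips, the first Ward identity
`hI`, the leg derivatives `hτ`, `hττ` give `(E')` with the complex plateaus `xp`, `xm`.

**`ward_rowC`**: the same in the form of the Ward identity of a row at the place `x` (plateaus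
`n e^(-+ i w x) / V`): `V D = -(1/4) sin (w x) f_zz - cos (w x) f_z` up to the errors.
-/

set_option autoImplicit false

open MeasureTheory Set Filter Topology Complex

noncomputable section

namespace PLT.W

open PBE PBFunc PBEI PBV PBEM
open Pool.Agent.PB (rl MeanDat VDat mV CV CmV CsV CssV)

variable {y Y bF K : ℝ}

/-- **(E')** at one index -/
theorem E_levC (hW : StrW y Y bF) (hK : 0 ≤ K) {a' : ℝ} (ha : 1 / 2 ≤ a') (ha2 : a' < 2) :
    ∃ Kc : ℝ, 0 < Kc ∧ ∀ (ξ : ℂ → ℂ) (xp xm : ℂ), FldW bF K ξ xp xm → ∀ τ : ℝ,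
    ∀ (mf mf' D0 : ℝ → ℂ) (B : ℝ) (mp mm : ℂ), MeanDat mf mf' D0 (rl (h0T τ)) B mp mm → 0 ≤ B →
    ∀ {Ω : Type} [MeasurableSpace Ω] (μ : Measure Ω) [SFinite μ] (w : Ω → ℂ)
      (V Vm : (ℂ → ℂ) → Ω → ℂ) (S : Ω → ℂ) (Kj th δp δ0 δ1 : ℝ) (fη fτ fττ : ℂ),
      LevD (-y) y a' μ w V Vm S Kj th δp mf PBEI.sg' wm (AplC ξ xp xm Y) (AmiC ξ xp xm Y) (BchC Y) →
      ‖fη - ((∫ q, F μ w (fun ω => V (AplC ξ xp xm Y q) ω * V (BchC Y q) ω) ∂wm) +
        ((∫ q, F μ w (fun ω => Vm (AmiC ξ xp xm Y q) ω * Vm (BchC Y q) ω) ∂wm) +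
          2 * F μ w (fun ω => Vm (beC ξ xp xm) ω * S ω) - (xp - xm) / 2 * F μ w (fun ω => S ω * S ω)) +
        F μ w (V (fun z => ξ z * h0T τ z)))‖ ≤ δ0 →
      ‖F μ w (V (h0T τ)) + fτ‖ ≤ δ1 →
      ‖F μ w (fun ω => V (h0T τ) ω * V (h0T τ) ω) + F μ w (V (g2T τ)) - fττ‖ ≤ δ1 →
      ‖fη - (-((xp - xm) / 8) * fττ - (xp + xm) / 2 * fτ)‖ ≤
        δ0 + Kc * (1 + B) * Real.exp (4 * |τ|) * (2 * Kj * th + δp + δ1) := by
  obtain ⟨Kc, hKc, hE⟩ := E_fieldC hW hK ha ha2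
  obtain ⟨C1, CC, -, -, hV⟩ := vdatC hW hK (a := (a' + 2) / 2) ha (by linarith) (by linarith)
  refine ⟨Kc, hKc, fun ξ xp xm hF τ mf mf' D0 B mp mm hm hB Ω _ μ _ w V Vm S Kj th δp δ0 δ1 fη fτ fττ L hI
    e1 e2 => ?_⟩
  obtain ⟨dv, -⟩ := hV ξ xp xm hF τ mf mf' D0 B mp mm hm (max CC B) (le_max_left _ _) (le_max_right _ _)
  have g1 := hW.y0
  have hy1 : -y < 0 := by linarith
  have hKt : 0 ≤ 2 * Kj * th := by
    have := L.K0
    have := L.th0
    positivity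
  have z3 : 0 ≤ δ1 := (norm_nonneg _).trans e1
  have hδ : 2 * Kj * th + δp ≤ 2 * Kj * th + δp + δ1 := by linarith
  have hδ1 : δ1 ≤ 2 * Kj * th + δp + δ1 := by linarith [L.dp0]
  have hδ0 : 0 ≤ 2 * Kj * th + δp + δ1 := by linarith
  exact hE ξ xp xm hF τ mf mf' D0 B mp mm hm (F μ w (fun _ => 1)) fη fτ fττ _ _ _ _ _
    (2 * Kj * th + δp + δ1) δ0 hδ0 hB
    ((L.lev2 hy1 g1).mono hy1 g1 hδ) ((L.lev2m hy1 g1).mono hy1 g1 hδ) (L.lin1 hy1 g1)
    (L.lin2 hy1 g1) (L.iG hy1 g1 dv.hR) (L.iH hy1 g1 dv.hR') hI (e1.trans hδ1) (e2.trans hδ1)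

/-- the plateaus of a row at the place `x` in a sea with `V`: `n e^(-i w x) / V`, `n e^(i w x) / V` -/
def plP (n V : ℝ) (x : ℂ) : ℂ := n / V * exp (-(8 / 3 * x * I))
/-- the left plateau -/
def plM (n V : ℝ) (x : ℂ) : ℂ := n / V * exp (8 / 3 * x * I)

lemma plP_sub (n V : ℝ) (x : ℂ) : plP n V x - plM n V x = -(2 * I * (n / V) * sin (8 / 3 * x)) := by
  unfold plP plM
  rw [Complex.sin]
  have e1 : exp (-(8 / 3 * x * I)) = exp (-(8 / 3 * x) * I) := by congr 1; ring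
  rw [e1]
  linear_combination (n / V * (exp (-(8 / 3 * x) * I) - exp (8 / 3 * x * I))) * I_sq

lemma plP_add (n V : ℝ) (x : ℂ) : plP n V x + plM n V x = 2 * (n / V) * cos (8 / 3 * x) := by
  unfold plP plM
  rw [Complex.cos]
  have e1 : exp (-(8 / 3 * x * I)) = exp (-(8 / 3 * x) * I) := by congr 1; ring
  rw [e1]
  ring

/-- **the Ward identity of a row at the place `x`**: with `fη = n I Dx`, `fτ = I fz`, `fττ = - fzz`
(`Dx` the derivative in the place, `n = V + ..` any positive number) -/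
theorem ward_rowC {n V : ℝ} (hn : 0 < n) (hV : 0 < V) {x Dx fz fzz : ℂ} {δ : ℝ}
    (h : ‖(n : ℂ) * (I * Dx) - (-((plP n V x - plM n V x) / 8) * (-fzz) -
      (plP n V x + plM n V x) / 2 * (I * fz))‖ ≤ δ) :
    ‖(V : ℂ) * Dx - (-(1 / 4) * sin (8 / 3 * x) * fzz - cos (8 / 3 * x) * fz)‖ ≤ V / n * δ := by
  rw [plP_sub, plP_add] at h
  have hnC : (n : ℂ) ≠ 0 := by exact_mod_cast hn.ne'
  have hVC : (V : ℂ) ≠ 0 := by exact_mod_cast hV.ne'
  have e : (V : ℂ) * Dx - (-(1 / 4) * sin (8 / 3 * x) * fzz - cos (8 / 3 * x) * fz) =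
      ((V / n : ℝ) : ℂ) * (-I) * ((n : ℂ) * (I * Dx) - (-(-(2 * I * (n / V) * sin (8 / 3 * x)) / 8) * (-fzz) -
        2 * (n / V) * cos (8 / 3 * x) / 2 * (I * fz))) := by
    push_cast
    field_simp
    ring_nf
    rw [I_sq]
    ring
  rw [e, norm_mul, norm_mul, norm_neg, norm_I, mul_one, norm_real, Real.norm_of_nonneg (by positivity)]
  exact mul_le_mul_of_nonneg_left h (by positivity)

end PLT.W

end
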