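import Pool.Agent.PHK.CfgC

/-!
# The energy of two sources as an integral of a potential

* `ES_pot`: `∑_a ∫ f'_a p_a = ES S' S`; `muS_pot`: a family of sources against the potential of one source;
* `Sr.sg_sum`: the signed sum of the densities is the density of the splitting.
-/

set_option autoImplicit false

open MeasureTheory Set Filter Topology

namespace PLT

noncomputable section

open NUMF (l l_pos g h V)
open NUC43 NUGC
open Pool.Agent.NUM3 (EV EU sgn)

variable {S S' : Sr}

/-- the signed sum of the densities -/
lemma sr_split (h : S.Ok) (t : ℝ) : S.f true t - S.f false t = sg S.a * S.fT t := by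
  have := h.split t
  unfold Sr.f
  rcases hb : S.a with _ | _
  · simp only [sg, beq_self_eq_true, if_true, Bool.false_eq_true,
      show (false == true) = false from rfl, if_false]
    linarith
  · simp only [sg, beq_self_eq_true, if_true, Bool.false_eq_true,
      show (true == false) = false from rfl, if_false]
    linarith

/-- the potential of a source -/
lemma sr_pot (h : S.Ok) (a : Bool) (t : ℝ) :
    S.p a (t - S.t) = (∫ u, S.f a (u - S.t) * V (t - u)) +
      sg a * (sg S.a * ∫ u, S.fT (u - S.t) * Real.log (g (t - u))) := by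
  have h1 := h.eqn a (t - S.t)
  have e1 : ∫ s, V s * S.f a (t - S.t - s) = ∫ u, S.f a (u - S.t) * V (t - u) := by
    rw [← integral_sub_left_eq_self (fun s => V s * S.f a (t - S.t - s)) volume t]
    congr 1
    funext s
    rw [show t - S.t - (t - s) = s - S.t by ring]
    ring
  have e2 : lgp S.fT (t - S.t) = ∫ u, S.fT (u - S.t) * Real.log (g (t - u)) := by
    unfold lgp
    rw [← integral_sub_right_eq_self (fun s => S.fT s * Real.log (g (t - S.t - s))) S.t]
    congr 1
    funext s
    rw [show t - S.t - (s - S.t) = t - s by ring]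
  rw [← e1, ← e2]
  linarith

lemma dens_V_in (h : S.Ok) (a : Bool) (t : ℝ) : Integrable fun u => S.f a (u - S.t) * V (t - u) :=
  V_in ((h.df a).shift _) t

/-- integrability of a density against the potential of a source -/
lemma pot_in {f : ℝ → ℝ} (hf : Dn f) (h : S.Ok) (a : Bool) : Integrable fun t => f t * S.p a (t - S.t) := by
  simp only [sr_pot h a, mul_add]
  have i1 : Integrable fun t => f t * ∫ u, S.f a (u - S.t) * V (t - u) := V_out hf ((h.df a).shift _)
  have i2 : Integrable fun t => f t * ∫ u, S.fT (u - S.t) * Real.log (g (t - u)) :=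
    lg_out hf (h.dT.shift _)
  refine i1.add ((i2.const_mul (sg a * sg S.a)).congr (ae_of_all _ fun t => ?_))
  simp only
  ring

/-- **the energy as the integral of the potential** -/
theorem ES_pot (h : S.Ok) (h' : S'.Ok) :
    ∑ a, ∫ t, S'.f a (t - S'.t) * S.p a (t - S.t) = ES S' S := by
  have key : ∀ a, ∫ t, S'.f a (t - S'.t) * S.p a (t - S.t) =
      EV (S'.f a) (S.f a) S'.t S.t +
        sg a * sg S.a * ∫ t, S'.f a (t - S'.t) * ∫ u, S.fT (u - S.t) * Real.log (g (t - u)) := by
    intro a
    simp only [sr_pot h a, mul_add]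
    have i1 : Integrable fun t => S'.f a (t - S'.t) * ∫ u, S.f a (u - S.t) * V (t - u) :=
      V_out ((h'.df a).shift _) ((h.df a).shift _)
    have i2 : Integrable fun t => S'.f a (t - S'.t) * ∫ u, S.fT (u - S.t) * Real.log (g (t - u)) :=
      lg_out ((h'.df a).shift _) (h.dT.shift _)
    have i3 : Integrable fun t => S'.f a (t - S'.t) * (sg a * (sg S.a *
        ∫ u, S.fT (u - S.t) * Real.log (g (t - u)))) := by
      refine (i2.const_mul (sg a * sg S.a)).congr (ae_of_all _ fun t => ?_)
      simp only
      ring
    rw [integral_add i1 i3, bil_V (h'.ef a)]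
    congr 1
    rw [← integral_const_mul]
    congr 1
    funext t
    ring
  have e3 : (∫ t, S'.f true (t - S'.t) * ∫ u, S.fT (u - S.t) * Real.log (g (t - u))) -
      (∫ t, S'.f false (t - S'.t) * ∫ u, S.fT (u - S.t) * Real.log (g (t - u))) =
      -(sg S'.a * EU S'.fT S.fT S'.t S.t) := by
    have i2 : ∀ a, Integrable fun t => S'.f a (t - S'.t) *
        ∫ u, S.fT (u - S.t) * Real.log (g (t - u)) := fun a =>
      lg_out ((h'.df a).shift _) (h.dT.shift _)
    rw [← integral_sub (i2 true) (i2 false)]
    have e4 : ∀ t, S'.f true (t - S'.t) * (∫ u, S.fT (u - S.t) * Real.log (g (t - u))) -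
        S'.f false (t - S'.t) * (∫ u, S.fT (u - S.t) * Real.log (g (t - u))) =
        sg S'.a * (S'.fT (t - S'.t) * ∫ u, S.fT (u - S.t) * Real.log (g (t - u))) := by
      intro t
      rw [← sub_mul, sr_split h']
      ring
    simp only [e4]
    rw [integral_const_mul, bil_U h'.eT]
    ring
  rw [Fintype.sum_bool, key, key]
  unfold ES
  have e5 : sg true * sg S.a * (∫ t, S'.f true (t - S'.t) * ∫ u, S.fT (u - S.t) * Real.log (g (t - u))) +
      sg false * sg S.a * (∫ t, S'.f false (t - S'.t) * ∫ u, S.fT (u - S.t) * Real.log (g (t - u))) =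
      -(sg S.a * sg S'.a * EU S'.fT S.fT S'.t S.t) := by
    have e6 : sg true = 1 := rfl
    have e7 : sg false = -1 := rfl
    rw [e6, e7]
    linear_combination sg S.a * e3
  have e8 : EV (S'.f true) (S.f true) S'.t S.t + EV (S'.f false) (S.f false) S'.t S.t =
      (if S'.a == S.a then EV S'.fO S.fO S'.t S.t + EV S'.fX S.fX S'.t S.t
        else EV S'.fO S.fX S'.t S.t + EV S'.fX S.fO S'.t S.t) := by
    unfold Sr.f
    rcases hb : S.a with _ | _ <;> rcases hb' : S'.a with _ | _ <;>
      simp only [beq_self_eq_true, if_true, Bool.false_eq_true, if_false,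
        show (false == true) = false from rfl, show (true == false) = false from rfl] <;> ring
  have e9 : sg S.a * sg S'.a = sgn (S'.a == S.a) := by
    rcases hb : S.a with _ | _ <;> rcases hb' : S'.a with _ | _ <;>
      simp only [sg, sgn, beq_self_eq_true, if_true, Bool.false_eq_true, if_false,
        show (false == true) = false from rfl, show (true == false) = false from rfl] <;> ring
  rw [← e8, ← e9]
  linarith

/-- **a family of sources against the potential of one source** -/
theorem muS_pot {κ : Type*} [Fintype κ] {T : κ → Sr} (hT : ∀ d, (T d).Ok) (h : S.Ok) :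
    ∑ a, ∫ t, muS T a t * S.p a (t - S.t) = ∑ d, ES (T d) S := by
  have e1 : ∀ a, ∫ t, muS T a t * S.p a (t - S.t) =
      ∑ d, ∫ t, (T d).f a (t - (T d).t) * S.p a (t - S.t) := by
    intro a
    unfold muS
    simp only [Finset.sum_mul]
    exact integral_finsetSum _ fun d _ => pot_in (((hT d).df a).shift _) h a
  simp only [e1]
  rw [Finset.sum_comm]
  exact Finset.sum_congr rfl fun d _ => ES_pot h (hT d)

/-- the same with symmetric energies -/
theorem muS_pot' {κ : Type*} [Fintype κ] {T : κ → Sr} (hT : ∀ d, (T d).Ok) (h : S.Ok)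
    (hs : ∀ d, Sym S (T d)) :
    ∑ a, ∫ t, muS T a t * S.p a (t - S.t) = ∑ d, ES S (T d) := by
  rw [muS_pot hT h]
  exact Finset.sum_congr rfl fun d _ => (hs d).symm

end

end PLT
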