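import Pool.Agent.PLT.GEn
import Pool.Agent.PLT.SrPot

/-!
# The energy of densities in given potentials, static kernels

* `Wk W`: kernels `W (t - u)` which can be paired with the densities `Dn`; `bW` the pairing; `wkV`, `wkG`;
* `Fq`, `Uq`, `Kq`: pairing with potentials, through the straight kernels, through the static kernels;
* **`EQ ks f μ`** `= ⟨μ, f⟩ - 1/2 U (μ, μ) + 1/2 ks (μ, μ)`;
* `EQ_add`: sum of two families of potentials and densities; **`EQ_src`**: the second one a family of sources;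
* **`En_EQ'`**, `En_EQ`: the exponent of the objects of `Gs.Dat` through `EQ`.
-/

set_option autoImplicit false

open MeasureTheory Set Filter Topology

namespace PLT.Gs

open NUH0 (conv_bc int_mul_bc conv_symm)
open NUMF (V g)
open NUKer NUC43 NU42
open NUGC (Sr muS tauS linS ES muS_sub muS_energy muS_eq dn_muS dn_tauS)

noncomputable section

/-! ### densities and potentials -/

lemma dn_add {f f' : ℝ → ℝ} (h : Dn f) (h' : Dn f') : Dn fun t => f t + f' t := by
  obtain ⟨M, h0, hM⟩ := h.bd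
  obtain ⟨M', h0', hM'⟩ := h'.bd
  refine ⟨h.cont.add h'.cont, M + M', by positivity, fun t => ?_⟩
  rw [add_mul]
  exact (abs_add_le _ _).trans (add_le_add (hM t) (hM' t))

lemma dn_sub {f f' : ℝ → ℝ} (h : Dn f) (h' : Dn f') : Dn fun t => f t - f' t := by
  have := dn_add h (h'.smul (-1))
  simpa only [neg_mul, one_mul, ← sub_eq_add_neg] using this

lemma dn_int1 {f : ℝ → ℝ} (hf : Dn f) : Integrable fun x => f x * x := by
  refine hf.wint.mono (hf.cont.mul continuous_id).aestronglyMeasurable (ae_of_all _ fun t => ?_)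
  rw [Real.norm_eq_abs, Real.norm_eq_abs, abs_mul, abs_mul, abs_of_nonneg (by positivity : 0 ≤ 1 + |t|),
    mul_comm]
  exact mul_le_mul_of_nonneg_right (by linarith) (abs_nonneg _)

/-- potentials which can be paired with the densities -/
def Pk (f : Bool → ℝ → ℝ) : Prop := ∀ ρ : ℝ → ℝ, Dn ρ → ∀ a, Integrable fun t => ρ t * f a t

lemma pk_of {f : Bool → ℝ → ℝ} {A : ℝ} (hc : ∀ a, Continuous (f a)) (hA : ∀ a t, |f a t| ≤ A * (1 + |t|)) :
    Pk f := by
  intro ρ hρ a
  refine (hρ.wint.const_mul A).mono (hρ.cont.mul (hc a)).aestronglyMeasurable (ae_of_all _ fun t => ?_)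
  have hA0 : 0 ≤ A := by
    have := (abs_nonneg _).trans (hA a 0)
    simpa using this
  rw [Real.norm_eq_abs, Real.norm_eq_abs, abs_mul, abs_mul, abs_mul,
    abs_of_nonneg (by positivity : 0 ≤ 1 + |t|), abs_of_nonneg hA0]
  calc |ρ t| * |f a t| ≤ |ρ t| * (A * (1 + |t|)) := mul_le_mul_of_nonneg_left (hA a t) (abs_nonneg _)
    _ = _ := by ring

lemma Pk.add {f f' : Bool → ℝ → ℝ} (h : Pk f) (h' : Pk f') : Pk fun a t => f a t + f' a t := by
  intro ρ hρ a
  refine ((h ρ hρ a).add (h' ρ hρ a)).congr (ae_of_all _ fun t => ?_)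
  simp only [Pi.add_apply]
  ring

lemma Pk.sub {f f' : Bool → ℝ → ℝ} (h : Pk f) (h' : Pk f') : Pk fun a t => f a t - f' a t := by
  intro ρ hρ a
  refine ((h ρ hρ a).sub (h' ρ hρ a)).congr (ae_of_all _ fun t => ?_)
  simp only [Pi.sub_apply]
  ring

lemma Pk.smul {f : Bool → ℝ → ℝ} (h : Pk f) (c : ℝ) : Pk fun a t => c * f a t := by
  intro ρ hρ a
  refine ((h ρ hρ a).const_mul c).congr (ae_of_all _ fun t => ?_)
  simp only
  ring

/-- pairing with potentials -/
def Fq (f μ : Bool → ℝ → ℝ) : ℝ := ∑ a, ∫ t, μ a t * f a t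

section

variable {f f' μ ν : Bool → ℝ → ℝ} {c : ℝ}

lemma Fq_add (h : Pk f) (h' : Pk f') (hμ : ∀ a, Dn (μ a)) :
    Fq (fun a t => f a t + f' a t) μ = Fq f μ + Fq f' μ := by
  unfold Fq
  rw [← Finset.sum_add_distrib]
  refine Finset.sum_congr rfl fun a _ => ?_
  rw [← integral_add (h _ (hμ a) a) (h' _ (hμ a) a)]
  refine integral_congr_ae (ae_of_all _ fun t => ?_)
  simp only
  ring

lemma Fq_sub (h : Pk f) (h' : Pk f') (hμ : ∀ a, Dn (μ a)) :
    Fq (fun a t => f a t - f' a t) μ = Fq f μ - Fq f' μ := by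
  unfold Fq
  rw [← Finset.sum_sub_distrib]
  refine Finset.sum_congr rfl fun a _ => ?_
  rw [← integral_sub (h _ (hμ a) a) (h' _ (hμ a) a)]
  refine integral_congr_ae (ae_of_all _ fun t => ?_)
  simp only
  ring

lemma Fq_add_right (h : Pk f) (hμ : ∀ a, Dn (μ a)) (hν : ∀ a, Dn (ν a)) :
    Fq f (fun a t => μ a t + ν a t) = Fq f μ + Fq f ν := by
  unfold Fq
  rw [← Finset.sum_add_distrib]
  refine Finset.sum_congr rfl fun a _ => ?_
  rw [← integral_add (h _ (hμ a) a) (h _ (hν a) a)]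
  refine integral_congr_ae (ae_of_all _ fun t => ?_)
  simp only
  ring

lemma Fq_smul_right : Fq f (fun a t => c * μ a t) = c * Fq f μ := by
  unfold Fq
  rw [Finset.mul_sum]
  refine Finset.sum_congr rfl fun a _ => ?_
  rw [← integral_const_mul]
  refine integral_congr_ae (ae_of_all _ fun t => ?_)
  simp only
  ring

end

/-! ### convolution kernels -/

/-- the pairing through `W (t - u)` -/
def bW (W f f' : ℝ → ℝ) : ℝ := ∫ t, f t * ∫ u, f' u * W (t - u)

/-- kernels which can be paired with the densities -/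
structure Wk (W : ℝ → ℝ) : Prop where
  inn : ∀ {f : ℝ → ℝ}, Dn f → ∀ t, Integrable fun u => f u * W (t - u)
  out : ∀ {f f' : ℝ → ℝ}, Dn f → Dn f' → Integrable fun t => f t * ∫ u, f' u * W (t - u)
  symm : ∀ {f f' : ℝ → ℝ}, Dn f → Dn f' → bW W f f' = bW W f' f

theorem wkV : Wk V where
  inn hf := V_in hf
  out hf hf' := V_out hf hf'
  symm hf hf' := by
    obtain ⟨M, -, hM⟩ := hf'.bdd
    exact conv_symm hf.int hf'.cont hM

theorem wkG : Wk fun x => Real.log (g x) where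
  inn hf := lg_in hf
  out hf hf' := lg_out hf hf'
  symm hf hf' := (logg_symm hf.int (dn_int1 hf) hf'.int (dn_int1 hf')).2

section

variable {W f f' h h' : ℝ → ℝ} {c : ℝ}

lemma Wk.add_left (hW : Wk W) (hf : Dn f) (hf' : Dn f') (hh : Dn h) :
    bW W (fun t => f t + f' t) h = bW W f h + bW W f' h := by
  unfold bW
  rw [← integral_add (hW.out hf hh) (hW.out hf' hh)]
  refine integral_congr_ae (ae_of_all _ fun t => ?_)
  simp only
  ring

lemma Wk.add_right (hW : Wk W) (hf : Dn f) (hf' : Dn f') (hh : Dn h) :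
    bW W h (fun t => f t + f' t) = bW W h f + bW W h f' := by
  rw [hW.symm hh (dn_add hf hf'), hW.add_left hf hf' hh, hW.symm hf hh, hW.symm hf' hh]

lemma bW_smul_left : bW W (fun t => c * f t) h = c * bW W f h := by
  unfold bW
  rw [← integral_const_mul]
  refine integral_congr_ae (ae_of_all _ fun t => ?_)
  simp only
  ring

lemma Wk.smul_right (hW : Wk W) (hf : Dn f) (hh : Dn h) : bW W h (fun t => c * f t) = c * bW W h f := by
  rw [hW.symm hh (hf.smul c), bW_smul_left, hW.symm hf hh]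

lemma Wk.neg_left (f : ℝ → ℝ) : bW W (fun t => -f t) h = -bW W f h := by
  have : (fun t => -f t) = fun t => -1 * f t := by
    funext t; ring
  rw [this, bW_smul_left]
  ring

end

/-! ### the straight kernels -/

/-- the pairing through the straight kernels -/
def Uq (μ ν : Bool → ℝ → ℝ) : ℝ := (∑ a, bW V (μ a) (ν a)) +
  bW (fun x => Real.log (g x)) (fun t => μ true t - μ false t) fun t => ν true t - ν false t

section

variable {μ ν μ' : Bool → ℝ → ℝ} {c : ℝ}

lemma Uq_symm (hμ : ∀ a, Dn (μ a)) (hν : ∀ a, Dn (ν a)) : Uq μ ν = Uq ν μ := by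
  unfold Uq
  rw [wkG.symm (dn_sub (hμ _) (hμ _)) (dn_sub (hν _) (hν _)),
    Finset.sum_congr rfl fun a _ => wkV.symm (hμ a) (hν a)]

lemma Uq_add_left (hμ : ∀ a, Dn (μ a)) (hμ' : ∀ a, Dn (μ' a)) (hν : ∀ a, Dn (ν a)) :
    Uq (fun a t => μ a t + μ' a t) ν = Uq μ ν + Uq μ' ν := by
  unfold Uq
  have e1 : (fun t => μ true t + μ' true t - (μ false t + μ' false t)) =
      fun t => (μ true t - μ false t) + (μ' true t - μ' false t) := by
    funext t; ring
  rw [e1, wkG.add_left (dn_sub (hμ _) (hμ _)) (dn_sub (hμ' _) (hμ' _)) (dn_sub (hν _) (hν _)),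
    Finset.sum_congr rfl fun a _ => wkV.add_left (hμ a) (hμ' a) (hν a), Finset.sum_add_distrib]
  ring

lemma Uq_add_right (hμ : ∀ a, Dn (μ a)) (hμ' : ∀ a, Dn (μ' a)) (hν : ∀ a, Dn (ν a)) :
    Uq ν (fun a t => μ a t + μ' a t) = Uq ν μ + Uq ν μ' := by
  rw [Uq_symm hν (fun a => dn_add (hμ a) (hμ' a)), Uq_add_left hμ hμ' hν, Uq_symm hμ hν, Uq_symm hμ' hν]

lemma Uq_smul_left : Uq (fun a t => c * μ a t) ν = c * Uq μ ν := by
  unfold Uq
  have e1 : (fun t => c * μ true t - c * μ false t) = fun t => c * (μ true t - μ false t) := by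
    funext t; ring
  rw [e1, bW_smul_left, Finset.sum_congr rfl fun a _ => bW_smul_left, ← Finset.mul_sum]
  ring

lemma Uq_smul_right (hμ : ∀ a, Dn (μ a)) (hν : ∀ a, Dn (ν a)) :
    Uq ν (fun a t => c * μ a t) = c * Uq ν μ := by
  rw [Uq_symm hν (fun a => (hμ a).smul c), Uq_smul_left, Uq_symm hμ hν]

end

/-! ### the static kernels -/

/-- the pairing through the static kernels -/
def Kq (ks : Bool → Bool → ℝ → ℝ → ℝ) (μ ν : Bool → ℝ → ℝ) : ℝ := ∑ a, ∫ t, μ a t * kR ks ν a t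

section

variable {ks : Bool → Bool → ℝ → ℝ → ℝ} {C : ℝ} {μ ν μ' : Bool → ℝ → ℝ} {c : ℝ}

lemma Kq_int (hk : ∀ a b, Bk C (ks a b)) (hμ : ∀ a, Dn (μ a)) (hν : ∀ a, Dn (ν a)) (a : Bool) :
    Integrable fun t => μ a t * kR ks ν a t :=
  (ibd (hμ a).int (kR_cont (fun b => (hν b).int) hk a) (kR_abs (fun b => (hν b).int) hk a)).congr
    (ae_of_all _ fun x => by simp only; ring)

lemma Kq_abs (hk : ∀ a b, Bk C (ks a b)) (hμ : ∀ a, Dn (μ a)) (hν : ∀ a, Dn (ν a)) :
    |Kq ks μ ν| ≤ C * (∑ b, ∫ u, |ν b u|) * ∑ a, ∫ t, |μ a t| := by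
  unfold Kq
  rw [Finset.mul_sum]
  refine (Finset.abs_sum_le_sum_abs _ _).trans (Finset.sum_le_sum fun a _ => ?_)
  have h1 := abs_ibd (hμ a).int (kR_abs (fun b => (hν b).int) hk a)
  refine le_trans (le_of_eq ?_) h1
  congr 1
  refine integral_congr_ae (ae_of_all _ fun t => ?_)
  simp only
  ring

lemma Kq_symm (hk : ∀ a b, Bk C (ks a b)) (hs : ∀ a b t t', ks a b t t' = ks b a t' t)
    (hμ : ∀ a, Dn (μ a)) (hν : ∀ a, Dn (ν a)) : Kq ks μ ν = Kq ks ν μ :=
  kR_symm (fun a => (hν a).int) (fun a => (hμ a).int) hk hs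

lemma Kq_add_left (hk : ∀ a b, Bk C (ks a b)) (hμ : ∀ a, Dn (μ a)) (hμ' : ∀ a, Dn (μ' a))
    (hν : ∀ a, Dn (ν a)) : Kq ks (fun a t => μ a t + μ' a t) ν = Kq ks μ ν + Kq ks μ' ν := by
  unfold Kq
  rw [← Finset.sum_add_distrib]
  refine Finset.sum_congr rfl fun a _ => ?_
  rw [← integral_add (Kq_int hk hμ hν a) (Kq_int hk hμ' hν a)]
  refine integral_congr_ae (ae_of_all _ fun t => ?_)
  simp only
  ring

lemma Kq_add_right (hk : ∀ a b, Bk C (ks a b)) (hs : ∀ a b t t', ks a b t t' = ks b a t' t)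
    (hμ : ∀ a, Dn (μ a)) (hμ' : ∀ a, Dn (μ' a)) (hν : ∀ a, Dn (ν a)) :
    Kq ks ν (fun a t => μ a t + μ' a t) = Kq ks ν μ + Kq ks ν μ' := by
  rw [Kq_symm hk hs hν (fun a => dn_add (hμ a) (hμ' a)), Kq_add_left hk hμ hμ' hν,
    Kq_symm hk hs hμ hν, Kq_symm hk hs hμ' hν]

lemma Kq_smul_left : Kq ks (fun a t => c * μ a t) ν = c * Kq ks μ ν := by
  unfold Kq
  rw [Finset.mul_sum]
  refine Finset.sum_congr rfl fun a _ => ?_
  rw [← integral_const_mul]
  refine integral_congr_ae (ae_of_all _ fun t => ?_)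
  simp only
  ring

lemma Kq_smul_right (hk : ∀ a b, Bk C (ks a b)) (hs : ∀ a b t t', ks a b t t' = ks b a t' t)
    (hμ : ∀ a, Dn (μ a)) (hν : ∀ a, Dn (ν a)) : Kq ks ν (fun a t => c * μ a t) = c * Kq ks ν μ := by
  rw [Kq_symm hk hs hν (fun a => (hμ a).smul c), Kq_smul_left, Kq_symm hk hs hμ hν]

end

/-! ### the energy -/

/-- **the energy of the densities `μ` in the potentials `f`** -/
def EQ (ks : Bool → Bool → ℝ → ℝ → ℝ) (f μ : Bool → ℝ → ℝ) : ℝ :=
  Fq f μ - 1 / 2 * Uq μ μ + 1 / 2 * Kq ks μ μ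

section

variable {ks : Bool → Bool → ℝ → ℝ → ℝ} {C : ℝ} {f f' μ ν : Bool → ℝ → ℝ} {c : ℝ}

/-- **sum of two families** -/
theorem EQ_add (hk : ∀ a b, Bk C (ks a b)) (hs : ∀ a b t t', ks a b t t' = ks b a t' t)
    (hf : Pk f) (hf' : Pk f') (hμ : ∀ a, Dn (μ a)) (hν : ∀ a, Dn (ν a)) :
    EQ ks (fun a t => f a t + f' a t) (fun a t => μ a t + ν a t) =
      EQ ks f μ + EQ ks f' ν + (Fq f ν + Fq f' μ - Uq μ ν + Kq ks μ ν) := by
  unfold EQ
  rw [Fq_add hf hf' (fun a => dn_add (hμ a) (hν a)), Fq_add_right hf hμ hν, Fq_add_right hf' hμ hν,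
    Uq_add_left hμ hν (fun a => dn_add (hμ a) (hν a)), Uq_add_right hμ hν hμ, Uq_add_right hμ hν hν,
    Kq_add_left hk hμ hν (fun a => dn_add (hμ a) (hν a)), Kq_add_right hk hs hμ hν hμ,
    Kq_add_right hk hs hμ hν hν, Uq_symm hν hμ, Kq_symm hk hs hν hμ]
  ring

/-- a change of the densities -/
theorem EQ_var (hk : ∀ a b, Bk C (ks a b)) (hs : ∀ a b t t', ks a b t t' = ks b a t' t)
    (hf : Pk f) (hμ : ∀ a, Dn (μ a)) (hν : ∀ a, Dn (ν a)) (c : ℝ) :
    EQ ks f (fun a t => μ a t + c * ν a t) =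
      EQ ks f μ + c * (Fq f ν - Uq μ ν + Kq ks μ ν) - c ^ 2 * (1 / 2 * Uq ν ν - 1 / 2 * Kq ks ν ν) := by
  have hcν : ∀ a, Dn fun t => c * ν a t := fun a => (hν a).smul c
  unfold EQ
  rw [Fq_add_right hf hμ hcν, Fq_smul_right, Uq_add_left hμ hcν (fun a => dn_add (hμ a) (hcν a)),
    Uq_add_right hμ hcν hμ, Uq_add_right hμ hcν hcν, Kq_add_left hk hμ hcν (fun a => dn_add (hμ a) (hcν a)),
    Kq_add_right hk hs hμ hcν hμ, Kq_add_right hk hs hμ hcν hcν, Uq_smul_left, Uq_smul_left,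
    Uq_smul_right hν hμ, Uq_smul_right hν hν, Kq_smul_left, Kq_smul_left, Kq_smul_right hk hs hν hμ,
    Kq_smul_right hk hs hν hν, Uq_symm hν hμ, Kq_symm hk hs hν hμ]
  ring

end

/-! ### sources -/

section

variable {ks : Bool → Bool → ℝ → ℝ → ℝ} {C : ℝ} {f μ : Bool → ℝ → ℝ} {κ : Type*} [Fintype κ] {T : κ → Sr}

/-- the potentials of a family of sources against any densities -/
theorem linS_pair (hT : ∀ d, (T d).Ok) (hμ : ∀ a, Dn (μ a)) : Fq (linS T) μ = Uq μ (muS T) := by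
  unfold Fq Uq bW
  have e1 : ∀ a, ∫ t, μ a t * linS T a t = (∫ t, μ a t * ∫ u, muS T a u * V (t - u)) +
      sg a * ∫ t, μ a t * ∫ u, tauS T u * Real.log (g (t - u)) := by
    intro a
    have i1 : Integrable fun t => μ a t * ∫ u, muS T a u * V (t - u) := V_out (hμ a) (dn_muS hT a)
    have i2 : Integrable fun t => μ a t * ∫ u, tauS T u * Real.log (g (t - u)) :=
      lg_out (hμ a) (dn_tauS hT)
    rw [← integral_const_mul, ← integral_add i1 (i2.const_mul _)]
    refine integral_congr_ae (ae_of_all _ fun t => ?_)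
    simp only
    have h1 := muS_eq hT a t
    have h2 : lgp (tauS T) t = ∫ u, tauS T u * Real.log (g (t - u)) := rfl
    rw [h2] at h1
    rw [← h1]
    ring
  have e2 : (fun t => muS T true t - muS T false t) = tauS T := by
    funext t
    exact muS_sub hT t
  rw [Fintype.sum_bool, Fintype.sum_bool, e1, e1]
  have e3 : ∫ t, (μ true t - μ false t) * ∫ u, (muS T true u - muS T false u) * Real.log (g (t - u)) =
      (∫ t, μ true t * ∫ u, tauS T u * Real.log (g (t - u))) -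
        ∫ t, μ false t * ∫ u, tauS T u * Real.log (g (t - u)) := by
    have e4 : ∀ u, muS T true u - muS T false u = tauS T u := fun u => muS_sub hT u
    simp only [e4]
    have i2 : ∀ a, Integrable fun t => μ a t * ∫ u, tauS T u * Real.log (g (t - u)) := fun a =>
      lg_out (hμ a) (dn_tauS hT)
    rw [← integral_sub (i2 true) (i2 false)]
    refine integral_congr_ae (ae_of_all _ fun t => ?_)
    simp only
    ring
  rw [e3]
  have e6 : sg true = 1 := rfl
  have e7 : sg false = -1 := rfl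
  rw [e6, e7]
  ring

/-- the energy of a family of sources -/
theorem Uq_src (hT : ∀ d, (T d).Ok) : Uq (muS T) (muS T) = ∑ d, ∑ d', ES (T d) (T d') := by
  have h1 := muS_energy hT
  have e2 : (fun t => muS T true t - muS T false t) = tauS T := by
    funext t
    exact muS_sub hT t
  unfold Uq bW
  have e3 : (∫ t, (fun t => muS T true t - muS T false t) t *
      ∫ u, (fun t => muS T true t - muS T false t) u * Real.log (g (t - u))) =
      ∫ t, tauS T t * lgp (tauS T) t := by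
    rw [e2]
    rfl
  simp only [e3]
  simp only [← Finset.mul_sum] at h1
  linarith

lemma pk_linS (hT : ∀ d, (T d).Ok) : Pk (linS T) := by
  intro ρ hρ a
  have i1 : Integrable fun t => ρ t * ∫ u, muS T a u * V (t - u) := V_out hρ (dn_muS hT a)
  have i2 : Integrable fun t => ρ t * ∫ u, tauS T u * Real.log (g (t - u)) := lg_out hρ (dn_tauS hT)
  refine (i1.add (i2.const_mul (sg a))).congr (ae_of_all _ fun t => ?_)
  simp only [Pi.add_apply]
  have h1 := muS_eq hT a t
  have h2 : lgp (tauS T) t = ∫ u, tauS T u * Real.log (g (t - u)) := rfl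
  rw [h2] at h1
  rw [← h1]
  ring

/-- **objects and a family of sources** -/
theorem EQ_src (hk : ∀ a b, Bk C (ks a b)) (hs : ∀ a b t t', ks a b t t' = ks b a t' t)
    (hf : Pk f) (hμ : ∀ a, Dn (μ a)) (hT : ∀ d, (T d).Ok) :
    EQ ks (fun a t => f a t + linS T a t) (fun a t => μ a t + muS T a t) =
      EQ ks f μ + Fq f (muS T) + 1 / 2 * (∑ d, ∑ d', ES (T d) (T d')) +
        (Kq ks μ (muS T) + 1 / 2 * Kq ks (muS T) (muS T)) := by
  rw [EQ_add hk hs hf (pk_linS hT) hμ (dn_muS hT), linS_pair hT hμ]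
  have h1 : EQ ks (linS T) (muS T) = 1 / 2 * (∑ d, ∑ d', ES (T d) (T d')) +
      1 / 2 * Kq ks (muS T) (muS T) := by
    unfold EQ
    rw [linS_pair hT (dn_muS hT), Uq_src hT]
    ring
  rw [h1]
  ring

end

/-! ### the exponent of `Gs.Dat` -/

variable {X : Dat} {tc Cκ : ℝ} {p n : ℕ}

/-- **the exponent of the objects**, any density of the splitting -/
theorem En_EQ' (hG : Geo X tc Cκ) (hF : Fld X p n) (hR : Reg X)
    (dτ : Dn X.τ) (hμ : ∀ a, Dn (X.μ a)) (hr : ∀ a, Dn (X.r a))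
    {f : Bool → ℝ → ℝ} (hf : Pk f) :
    X.En = X.S + (∑ a, ∫ t, X.ρ a t * X.E a t) + Fq (fun a t => X.lin a t + X.E a t - f a t) X.μ +
      EQ X.ks f X.μ - 1 / 2 * Kq X.ks (fun a t => X.μ a t - X.r a t) (fun a t => X.μ a t - X.r a t) +
      1 / 2 * bW (fun x => Real.log (g x)) (fun t => X.μ true t - X.μ false t - X.τ t)
        (fun t => X.μ true t - X.μ false t - X.τ t) := by
  have iV : ∀ a, Integrable fun t => X.μ a t * X.Vm a t := fun a => V_out (hμ a) (hμ a)
  have iφ : ∀ a, Integrable fun t => X.μ a t * X.φ a t := fun a => by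
    obtain ⟨M, hM⟩ := hR.φb a
    exact int_mul_bc (hμ a).int (hR.φc a) hM
  have iG : ∀ a, Integrable fun t => X.μ a t * X.Gt t := fun a => lg_out (hμ a) dτ
  have iK : ∀ a, Integrable fun t => X.μ a t * X.Kr a t := fun a => Kq_int hG.bs hμ hr a
  have iL : ∀ a, Integrable fun t => X.μ a t * (X.lin a t + X.E a t) := by
    intro a
    refine ((((iV a).add (iφ a)).add ((iG a).const_mul (Dat.sg a))).sub (iK a)).congr
      (ae_of_all _ fun t => ?_)
    simp only [Pi.add_apply, Pi.sub_apply]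
    linear_combination -(X.μ a t) * hF.eq a t
  have e1 : ∀ a, ∫ t, X.μ a t * (X.lin a t + X.E a t) = (∫ t, X.μ a t * X.Vm a t) +
      (∫ t, X.μ a t * X.φ a t) + Dat.sg a * (∫ t, X.μ a t * X.Gt t) - ∫ t, X.μ a t * X.Kr a t := by
    intro a
    have i1 : Integrable fun t => X.μ a t * X.Vm a t + X.μ a t * X.φ a t := (iV a).add (iφ a)
    have i2 : Integrable fun t => X.μ a t * X.Vm a t + X.μ a t * X.φ a t +
        Dat.sg a * (X.μ a t * X.Gt t) := i1.add ((iG a).const_mul _)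
    rw [← integral_const_mul, ← integral_add (iV a) (iφ a), ← integral_add i1 ((iG a).const_mul _),
      ← integral_sub i2 (iK a)]
    refine integral_congr_ae (ae_of_all _ fun t => ?_)
    simp only
    linear_combination X.μ a t * hF.eq a t
  have e2 : Fq (fun a t => X.lin a t + X.E a t - f a t) X.μ =
      (∑ a, ∫ t, X.μ a t * (X.lin a t + X.E a t)) - Fq f X.μ := by
    unfold Fq
    rw [← Finset.sum_sub_distrib]
    refine Finset.sum_congr rfl fun a _ => ?_
    rw [← integral_sub (iL a) (hf _ (hμ a) a)]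
    refine integral_congr_ae (ae_of_all _ fun t => ?_)
    simp only
    ring
  have dσ : Dn fun t => X.μ true t - X.μ false t := dn_sub (hμ _) (hμ _)
  have e3 : (∫ t, X.μ true t * X.Gt t) - (∫ t, X.μ false t * X.Gt t) =
      bW (fun x => Real.log (g x)) (fun t => X.μ true t - X.μ false t) X.τ := by
    rw [← integral_sub (iG true) (iG false)]
    unfold bW
    refine integral_congr_ae (ae_of_all _ fun t => ?_)
    simp only [Dat.Gt]
    ring
  have e4 : Uq X.μ X.μ = (∑ a, ∫ t, X.μ a t * X.Vm a t) +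
      bW (fun x => Real.log (g x)) (fun t => X.μ true t - X.μ false t)
        (fun t => X.μ true t - X.μ false t) := rfl
  have e4' : bW (fun x => Real.log (g x)) (fun t => X.μ true t - X.μ false t - X.τ t)
        (fun t => X.μ true t - X.μ false t - X.τ t) =
      bW (fun x => Real.log (g x)) (fun t => X.μ true t - X.μ false t)
        (fun t => X.μ true t - X.μ false t) -
      2 * bW (fun x => Real.log (g x)) (fun t => X.μ true t - X.μ false t) X.τ +
      ∫ t, X.τ t * X.Gt t := by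
    have hdτ : Dn fun t => -1 * X.τ t := dτ.smul (-1)
    have e0 : (fun t => X.μ true t - X.μ false t - X.τ t) =
        fun t => (X.μ true t - X.μ false t) + -1 * X.τ t := by
      funext t; ring
    have e9 : bW (fun x => Real.log (g x)) X.τ X.τ = ∫ t, X.τ t * X.Gt t := rfl
    rw [e0, wkG.add_left dσ hdτ (dn_add dσ hdτ), wkG.add_right dσ hdτ dσ, wkG.add_right dσ hdτ hdτ,
      bW_smul_left, bW_smul_left, wkG.smul_right dτ dσ, wkG.smul_right dτ dτ, wkG.symm dτ dσ, ← e9]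
    ring
  have hd : ∀ a, Dn fun t => -1 * X.r a t := fun a => (hr a).smul (-1)
  have e5 : Kq X.ks (fun a t => X.μ a t - X.r a t) (fun a t => X.μ a t - X.r a t) =
      Kq X.ks X.μ X.μ - 2 * Kq X.ks X.μ X.r + Kq X.ks X.r X.r := by
    have e6 : (fun a t => X.μ a t - X.r a t) = fun a t => X.μ a t + -1 * X.r a t := by
      funext a t; ring
    rw [e6, Kq_add_left hG.bs hμ hd (fun a => dn_add (hμ a) (hd a)), Kq_add_right hG.bs hG.sy hμ hd hμ,
      Kq_add_right hG.bs hG.sy hμ hd hd, Kq_smul_left, Kq_smul_left, Kq_smul_right hG.bs hG.sy hr hμ,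
      Kq_smul_right hG.bs hG.sy hr hr, Kq_symm hG.bs hG.sy hr hμ]
    ring
  have e7 : (∑ a, ∫ t, X.μ a t * X.Kr a t) = Kq X.ks X.μ X.r := rfl
  have e8 : (∑ a, ∫ t, X.r a t * X.Kr a t) = Kq X.ks X.r X.r := rfl
  rw [e2, e5]
  simp only [e1]
  unfold EQ Dat.En
  rw [e4, e8, e4']
  have e9 : ∑ a, ((∫ t, X.μ a t * X.Vm a t) + (∫ t, X.μ a t * X.φ a t) + Dat.sg a * (∫ t, X.μ a t * X.Gt t) -
      ∫ t, X.μ a t * X.Kr a t) = (∑ a, ∫ t, X.μ a t * X.Vm a t) + (∑ a, ∫ t, X.μ a t * X.φ a t) +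
      bW (fun x => Real.log (g x)) (fun t => X.μ true t - X.μ false t) X.τ - Kq X.ks X.μ X.r := by
    rw [← e7, ← e3]
    simp only [Fintype.sum_bool, Dat.sg, if_true, Bool.false_eq_true, if_false]
    ring
  rw [e9]
  simp only [Finset.sum_add_distrib, ← Finset.mul_sum]
  ring

/-- **the exponent of the objects** -/
theorem En_EQ (hG : Geo X tc Cκ) (hF : Fld X p n) (hR : Reg X)
    (hτ : ∀ t, X.τ t = X.μ true t - X.μ false t) (hμ : ∀ a, Dn (X.μ a)) (hr : ∀ a, Dn (X.r a))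
    {f : Bool → ℝ → ℝ} (hf : Pk f) :
    X.En = X.S + (∑ a, ∫ t, X.ρ a t * X.E a t) + Fq (fun a t => X.lin a t + X.E a t - f a t) X.μ +
      EQ X.ks f X.μ - 1 / 2 * Kq X.ks (fun a t => X.μ a t - X.r a t) fun a t => X.μ a t - X.r a t := by
  have hτe : (fun t => X.μ true t - X.μ false t) = X.τ := by
    funext t
    rw [hτ]
  have dτ : Dn X.τ := by
    rw [← hτe]
    exact dn_sub (hμ _) (hμ _)
  rw [En_EQ' hG hF hR dτ hμ hr hf]
  have e0 : (fun t => X.μ true t - X.μ false t - X.τ t) = fun _ => (0 : ℝ) := by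
    funext t
    rw [hτ t, sub_self]
  have e1 : bW (fun x => Real.log (g x)) (fun _ => (0 : ℝ)) (fun _ => (0 : ℝ)) = 0 := by
    unfold bW
    simp
  rw [e0, e1]
  ring

end

end PLT.Gs
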