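import Pool.Agent.PLT.EQ
import Pool.Agent.PLX.IST.Src0

/-!
# The exponent of `Gs.Dat` with a source

* `AddS X X' ν τ`: the data `X'` are the data `X` with the source `(ν, τ)`;
* **`En_addS`**: the exponent; **`En_addS_le`**: the cross terms are at most `K s (1 + s + A + Φ)`, `A` a bound of the
  masses, `Φ` of the remainder.
-/

set_option autoImplicit false

open MeasureTheory Set Filter Topology

namespace PLT.Gs

open NUH0 (conv_bc int_mul_bc conv_symm)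
open NUMF (V g)
open NUKer NUC43 NU42
open NUSea.PLX.H0 (SrcOk srcP DnS)

noncomputable section

/-- **the data with a source** -/
structure AddS (X X' : Dat) (ν : Bool → ℝ → ℝ) (τ : ℝ → ℝ) : Prop where
  s : X'.s = X.s
  P : X'.P = X.P
  ks : X'.ks = X.ks
  S : X'.S = X.S
  E : ∀ a t, X'.E a t = X.E a t + srcP ν τ a t
  τ : ∀ t, X'.τ t = X.τ t + τ t
  μ : ∀ a t, X'.μ a t = X.μ a t + ν a t
  r : ∀ a t, X'.r a t = X.r a t + ν a t
  φ : ∀ a t, X'.φ a t = X.φ a t + kR X.ks ν a t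

variable {X X' : Dat} {tc Cκ s : ℝ} {ν : Bool → ℝ → ℝ} {τ : ℝ → ℝ}

/-- the cross terms of a source -/
def crD (X : Dat) (ν : Bool → ℝ → ℝ) (τ : ℝ → ℝ) : ℝ :=
  (∫ t, X.τ t * lgp τ t) + (∑ a, ∫ t, X.μ a t * ∫ u, ν a u * V (t - u)) + (∑ a, ∫ t, ν a t * X.φ a t) +
    (Kq X.ks X.μ ν - Kq X.ks X.r ν)

/-- the energy of a source -/
def srD (X : Dat) (ν : Bool → ℝ → ℝ) (τ : ℝ → ℝ) : ℝ :=
  1 / 2 * (∫ t, τ t * lgp τ t) + 1 / 2 * (∑ a, ∫ t, ν a t * ∫ u, ν a u * V (t - u)) + 1 / 2 * Kq X.ks ν ν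

/-- **the exponent with a source** -/
theorem En_addS (h : AddS X X' ν τ) (hG : Geo X tc Cκ) (hR : Reg X) (hs : SrcOk s ν τ) (dτ : Dn X.τ)
    (hμ : ∀ a, Dn (X.μ a)) (hr : ∀ a, Dn (X.r a)) :
    X'.En = X.En + (∑ a, ∫ t, X.ρ a t * srcP ν τ a t) + srD X ν τ + crD X ν τ := by
  have dν : ∀ a, Dn (ν a) := fun a => (hs.dν a).dn
  have dτ' : Dn τ := hs.dτ.dn
  -- the splitting
  have a1 : ∫ t, X'.τ t * X'.Gt t = (∫ t, X.τ t * X.Gt t) + 2 * (∫ t, X.τ t * lgp τ t) + ∫ t, τ t * lgp τ t := by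
    have e0 : X'.τ = fun t => X.τ t + τ t := funext h.τ
    have e1 : ∫ t, X'.τ t * X'.Gt t = bW (fun x => Real.log (g x)) X'.τ X'.τ := rfl
    rw [e1, e0, wkG.add_left dτ dτ' (dn_add dτ dτ'), wkG.add_right dτ dτ' dτ, wkG.add_right dτ dτ' dτ',
      wkG.symm dτ' dτ]
    have e2 : bW (fun x => Real.log (g x)) X.τ X.τ = ∫ t, X.τ t * X.Gt t := rfl
    have e3 : bW (fun x => Real.log (g x)) X.τ τ = ∫ t, X.τ t * lgp τ t := rfl
    have e4 : bW (fun x => Real.log (g x)) τ τ = ∫ t, τ t * lgp τ t := rfl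
    rw [e2, e3, e4]
    ring
  -- the densities
  have a2 : ∀ a, ∫ t, X'.μ a t * X'.Vm a t = (∫ t, X.μ a t * X.Vm a t) +
      2 * (∫ t, X.μ a t * ∫ u, ν a u * V (t - u)) + ∫ t, ν a t * ∫ u, ν a u * V (t - u) := by
    intro a
    have e0 : X'.μ a = fun t => X.μ a t + ν a t := funext (h.μ a)
    have e1 : ∫ t, X'.μ a t * X'.Vm a t = bW V (X'.μ a) (X'.μ a) := rfl
    rw [e1, e0, wkV.add_left (hμ a) (dν a) (dn_add (hμ a) (dν a)), wkV.add_right (hμ a) (dν a) (hμ a),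
      wkV.add_right (hμ a) (dν a) (dν a), wkV.symm (dν a) (hμ a)]
    have e2 : bW V (X.μ a) (X.μ a) = ∫ t, X.μ a t * X.Vm a t := rfl
    rw [e2]
    unfold bW
    ring
  -- the static kernels
  have a3 : ∑ a, ∫ t, X'.r a t * X'.Kr a t = (∑ a, ∫ t, X.r a t * X.Kr a t) + 2 * Kq X.ks X.r ν +
      Kq X.ks ν ν := by
    have e0 : X'.r = fun a t => X.r a t + ν a t := by
      funext a t
      exact h.r a t
    have e1 : (∑ a, ∫ t, X'.r a t * X'.Kr a t) = Kq X'.ks X'.r X'.r := rfl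
    have e2 : (∑ a, ∫ t, X.r a t * X.Kr a t) = Kq X.ks X.r X.r := rfl
    rw [e1, e2, h.ks, e0, Kq_add_left hG.bs hr dν (fun a => dn_add (hr a) (dν a)),
      Kq_add_right hG.bs hG.sy hr dν hr, Kq_add_right hG.bs hG.sy hr dν dν,
      Kq_symm hG.bs hG.sy dν hr]
    ring
  -- the remainder
  have a4 : ∀ a, ∫ t, X'.μ a t * X'.φ a t = (∫ t, X.μ a t * X.φ a t) + (∫ t, ν a t * X.φ a t) +
      (∫ t, X.μ a t * kR X.ks ν a t) + ∫ t, ν a t * kR X.ks ν a t := by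
    intro a
    obtain ⟨M, hM⟩ := hR.φb a
    have i1 : Integrable fun t => X.μ a t * X.φ a t := int_mul_bc (hμ a).int (hR.φc a) hM
    have i2 : Integrable fun t => ν a t * X.φ a t := int_mul_bc (dν a).int (hR.φc a) hM
    have i3 : Integrable fun t => X.μ a t * kR X.ks ν a t := Kq_int hG.bs hμ dν a
    have i4 : Integrable fun t => ν a t * kR X.ks ν a t := Kq_int hG.bs dν dν a
    have i12 : Integrable fun t => X.μ a t * X.φ a t + ν a t * X.φ a t := i1.add i2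
    have i123 : Integrable fun t => X.μ a t * X.φ a t + ν a t * X.φ a t + X.μ a t * kR X.ks ν a t :=
      i12.add i3
    rw [← integral_add i1 i2, ← integral_add i12 i3, ← integral_add i123 i4]
    refine integral_congr_ae (ae_of_all _ fun t => ?_)
    simp only
    rw [h.μ, h.φ]
    ring
  -- the potentials
  have a5 : ∀ a, ∫ t, X'.ρ a t * X'.E a t = (∫ t, X.ρ a t * X.E a t) + ∫ t, X.ρ a t * srcP ν τ a t := by
    intro a
    obtain ⟨M, hM⟩ := hR.Eb a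
    rw [← integral_add (int_mul_bc (hG.ρi a) (hR.Ec a) hM) (int_mul_bc (hG.ρi a) (hs.cont a) (hs.le a))]
    refine integral_congr_ae (ae_of_all _ fun t => ?_)
    simp only
    rw [h.E]
    unfold Dat.ρ
    rw [h.s, h.P]
    ring
  unfold Dat.En crD srD
  simp only [a1, a3, a2, a4, a5, h.S]
  have a6 : Kq X.ks X.μ ν = ∑ a, ∫ t, X.μ a t * kR X.ks ν a t := rfl
  have a7 : Kq X.ks ν ν = ∑ a, ∫ t, ν a t * kR X.ks ν a t := rfl
  rw [a6, a7]
  simp only [Fintype.sum_bool]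
  ring

/-- a density of finite mass against a bounded function -/
lemma mass_le {f w : ℝ → ℝ} {B : ℝ} (hf : Integrable f) (hw : ∀ t, |w t| ≤ B) :
    |∫ t, f t * w t| ≤ (∫ t, |f t|) * B := by
  rw [← Real.norm_eq_abs, ← integral_mul_const]
  refine norm_integral_le_of_norm_le (hf.abs.mul_const B) (ae_of_all _ fun t => ?_)
  rw [Real.norm_eq_abs, abs_mul]
  exact mul_le_mul_of_nonneg_left (hw t) (abs_nonneg _)

/-- the constant of the sources -/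
def Ka (C : ℝ) : ℝ := 30 + 4 * (∫ u, |V u|) + 16 * C

/-- **the cross terms and the energy of a source** -/
theorem src_le (hC : ∀ a b, Bk Cκ (X.ks a b)) (hs : SrcOk s ν τ) (dτ : Dn X.τ) (hμ : ∀ a, Dn (X.μ a))
    (hr : ∀ a, Dn (X.r a)) {A Φ : ℝ} (hτA : ∫ t, |X.τ t| ≤ A) (hμA : ∀ a, ∫ t, |X.μ a t| ≤ A)
    (hrA : ∀ a, ∫ t, |X.r a t| ≤ A) (hφ : ∀ a t, |X.φ a t| ≤ Φ) :
    |srD X ν τ + crD X ν τ| ≤ Ka Cκ * s * (s + A + Φ) := by
  have dν : ∀ a, Dn (ν a) := fun a => (hs.dν a).dn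
  have hV : 0 ≤ ∫ u, |V u| := integral_nonneg fun _ => abs_nonneg _
  have s0 := hs.s0
  have hC0 : 0 ≤ Cκ := (hC true true).C0
  have hA0 : 0 ≤ A := (integral_nonneg fun _ => abs_nonneg _).trans hτA
  have hΦ0 : 0 ≤ Φ := (abs_nonneg _).trans (hφ true 0)
  have mν : ∀ a, ∫ t, |ν a t| ≤ s := fun a => (hs.dν a).abs_le.trans (by linarith)
  have mτ : ∫ t, |τ t| ≤ s := hs.dτ.abs_le.trans (by linarith)
  obtain ⟨Vt, hVt⟩ : ∃ Vt, Vt = ∫ u, |V u| := ⟨_, rfl⟩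
  have b1 : |∫ t, τ t * lgp τ t| ≤ s * (12 * s) :=
    (mass_le hs.dτ.int (hs.dτ.lgp_le hs.τ0)).trans (mul_le_mul_of_nonneg_right mτ (by positivity))
  have b2 : ∀ a, |∫ t, ν a t * ∫ u, ν a u * V (t - u)| ≤ s * (s * Vt) := fun a => by
    rw [hVt]
    exact (mass_le (hs.dν a).int (hs.dν a).Vf_bc.2).trans (mul_le_mul_of_nonneg_right (mν a) (by positivity))
  have b3 : |∫ t, X.τ t * lgp τ t| ≤ A * (12 * s) :=
    (mass_le dτ.int (hs.dτ.lgp_le hs.τ0)).trans (mul_le_mul_of_nonneg_right hτA (by positivity))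
  have b4 : ∀ a, |∫ t, X.μ a t * ∫ u, ν a u * V (t - u)| ≤ A * (s * Vt) := fun a => by
    rw [hVt]
    exact (mass_le (hμ a).int (hs.dν a).Vf_bc.2).trans (mul_le_mul_of_nonneg_right (hμA a) (by positivity))
  have b5 : ∀ a, |∫ t, ν a t * X.φ a t| ≤ s * Φ := fun a =>
    (mass_le (dν a).int (hφ a)).trans (mul_le_mul_of_nonneg_right (mν a) hΦ0)
  have m2 : ∑ b, ∫ u, |ν b u| ≤ 2 * s := by
    rw [Fintype.sum_bool]
    linarith [mν true, mν false]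
  have m3 : ∑ a, ∫ t, |X.μ a t| ≤ 2 * A := by
    rw [Fintype.sum_bool]
    linarith [hμA true, hμA false]
  have m4 : ∑ a, ∫ t, |X.r a t| ≤ 2 * A := by
    rw [Fintype.sum_bool]
    linarith [hrA true, hrA false]
  have n2 : 0 ≤ ∑ b, ∫ u, |ν b u| := Finset.sum_nonneg fun _ _ => integral_nonneg fun _ => abs_nonneg _
  have n3 : 0 ≤ ∑ a, ∫ t, |X.μ a t| := Finset.sum_nonneg fun _ _ => integral_nonneg fun _ => abs_nonneg _
  have n4 : 0 ≤ ∑ a, ∫ t, |X.r a t| := Finset.sum_nonneg fun _ _ => integral_nonneg fun _ => abs_nonneg _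
  have b6 : |Kq X.ks ν ν| ≤ Cκ * (2 * s) * (2 * s) :=
    (Kq_abs hC dν dν).trans (mul_le_mul (mul_le_mul_of_nonneg_left m2 hC0) m2 n2 (by positivity))
  have b7 : |Kq X.ks X.μ ν| ≤ Cκ * (2 * s) * (2 * A) :=
    (Kq_abs hC hμ dν).trans (mul_le_mul (mul_le_mul_of_nonneg_left m2 hC0) m3 n3 (by positivity))
  have b8 : |Kq X.ks X.r ν| ≤ Cκ * (2 * s) * (2 * A) :=
    (Kq_abs hC hr dν).trans (mul_le_mul (mul_le_mul_of_nonneg_left m2 hC0) m4 n4 (by positivity))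
  unfold srD crD Ka
  rw [Fintype.sum_bool, Fintype.sum_bool, Fintype.sum_bool, ← hVt]
  rw [← hVt] at hV
  have k1 := b2 true
  have k2 := b2 false
  have k3 := b4 true
  have k4 := b4 false
  have k5 := b5 true
  have k6 := b5 false
  have p1 : 0 ≤ s * s := by positivity
  have p2 : 0 ≤ s * A := by positivity
  have p3 : 0 ≤ s * Φ := by positivity
  have p4 : 0 ≤ s * s * Vt := by positivity
  have p5 : 0 ≤ s * A * Vt := by positivity
  have p6 : 0 ≤ s * Φ * Vt := by positivity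
  have p7 : 0 ≤ Cκ * s * s := by positivity
  have p8 : 0 ≤ Cκ * s * A := by positivity
  have p9 : 0 ≤ Cκ * s * Φ := by positivity
  rw [abs_le] at *
  constructor <;> nlinarith [b1.1, b1.2, b3.1, b3.2, b6.1, b6.2, b7.1, b7.2, b8.1, b8.2, k1.1, k1.2, k2.1, k2.2,
    k3.1, k3.2, k4.1, k4.2, k5.1, k5.2, k6.1, k6.2]

/-- **the exponent with a source** -/
theorem En_addS_le (h : AddS X X' ν τ) (hG : Geo X tc Cκ) (hR : Reg X) (hs : SrcOk s ν τ) (dτ : Dn X.τ)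
    (hμ : ∀ a, Dn (X.μ a)) (hr : ∀ a, Dn (X.r a)) {A Φ : ℝ} (hτA : ∫ t, |X.τ t| ≤ A)
    (hμA : ∀ a, ∫ t, |X.μ a t| ≤ A) (hrA : ∀ a, ∫ t, |X.r a t| ≤ A) (hφ : ∀ a t, |X.φ a t| ≤ Φ) :
    X'.En ≤ X.En + (∑ a, ∫ t, X.ρ a t * srcP ν τ a t) + Ka Cκ * s * (s + A + Φ) := by
  rw [En_addS h hG hR hs dτ hμ hr]
  have h1 := (abs_le.1 (src_le hG.bs hs dτ hμ hr hτA hμA hrA hφ)).2
  linarith

end

end PLT.Gs
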