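import Pool.Agent.PLT.IntQ
import Pool.Agent.PLT.EQ
import Pool.Agent.PLT.SmallC

/-!
# The energy `EQ` of helper82 is the energy of the pair functions on the curve (helper38)

* `ks8 eta eta'`: the static kernels; `CuB`: slope at most `3 / 10`, oscillation at most `1 / 40`;
* `lnK_true`, `lnK_false`: the pair functions; **`EQ_eq8`**: `EQ = EQ8`;
* **`EQ_le`**: the energy bound for `EQ`.
-/

set_option autoImplicit false

noncomputable section

open Finset MeasureTheory Set Filter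

namespace PLT

open PHK NUP1 NUO NUDispO Pool.Agent.NUM3
open NUKer (iD kw kg wcx gcx)
open Gs (Fq Uq Kq EQ bW kR wkV wkG)

/-- the static kernels of the curve -/
def ks8 (eta eta' : ℝ → ℝ) (a b : Bool) : ℝ → ℝ → ℝ :=
  if a = b then kw (iD eta) (iD eta') else kg (iD eta) (iD eta)

/-- a curve -/
structure CuB (eta eta' : ℝ → ℝ) : Prop where
  hD : ∀ x, HasDerivAt eta (eta' x) x
  hc : Continuous eta'
  h1 : ∀ x, |eta' x| ≤ 3 / 10
  h0 : ∀ t u, |eta t - eta u| ≤ 1 / 40

variable {eta eta' : ℝ → ℝ}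

theorem CuB.cont (h : CuB eta eta') : Continuous eta := continuous_iff_continuousAt.2 fun x => (h.hD x).continuousAt

theorem CuB.dI (h : CuB eta eta') (x : ℝ) : HasDerivAt (iD eta) (iD eta' x) x :=
  (h.hD x).ofReal_comp.mul_const Complex.I

theorem CuB.cI (h : CuB eta eta') : Continuous (iD eta') :=
  (Complex.continuous_ofReal.comp h.hc).mul_const _

theorem CuB.n1 (h : CuB eta eta') (x : ℝ) : ‖iD eta' x‖ ≤ 3 / 10 := by
  unfold NUKer.iD
  rw [norm_mul, Complex.norm_I, mul_one, Complex.norm_real]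
  exact h.h1 x

theorem CuB.n0 (h : CuB eta eta') (t u : ℝ) : ‖iD eta t - iD eta u‖ ≤ 1 / 40 := by
  unfold NUKer.iD
  rw [← sub_mul, norm_mul, Complex.norm_I, mul_one, ← Complex.ofReal_sub, Complex.norm_real]
  exact h.h0 t u

theorem CuB.bk (h : CuB eta eta') (a b : Bool) : NU42.Bk 8 (ks8 eta eta' a b) := by
  unfold ks8
  split_ifs
  · exact Cv.bk_w h.dI h.cI h.n1 h.n0
  · have cD : Continuous (iD eta) := (Complex.continuous_ofReal.comp h.cont).mul_const _
    exact Cv.bk_g cD cD h.n0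

private theorem arg_eq (eta : ℝ → ℝ) (t u : ℝ) : ((t - u : ℝ) : ℂ) + ((eta t - eta u : ℝ) : ℂ) * Complex.I =
    (t + iD eta t) - (u + iD eta u) := by
  unfold NUKer.iD
  push_cast
  ring

/-- **the own pair function** -/
theorem lnK_true (h : CuB eta eta') {t u : ℝ} (htu : t - u ≠ 0) :
    lnK true (((t - u : ℝ) : ℂ) + ((eta t - eta u : ℝ) : ℂ) * Complex.I) =
      -NUMF.V (t - u) - Real.log (NUMF.g (t - u)) + ks8 eta eta' true true t u := by
  have hs := Cv.sm_of h.dI h.cI h.n1 h.n0 (max |t| |u|)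
  have h2 := NUKer.norm_wcx hs (le_max_left |t| |u|) (le_max_right |t| |u|)
  have hw := NUMF.w_pos htu
  have hg := NUMF.g_pos (t - u)
  unfold lnK ks8
  rw [if_pos rfl, if_pos rfl, arg_eq, h2, Real.log_mul hw.ne' (Real.exp_pos _).ne', Real.log_exp]
  unfold NUMF.V
  rw [Real.log_mul hw.ne' hg.ne']
  ring

/-- **the cross pair function** -/
theorem lnK_false (h : CuB eta eta') (t u : ℝ) {a b : Bool} (hab : a ≠ b) :
    lnK false (((t - u : ℝ) : ℂ) + ((eta t - eta u : ℝ) : ℂ) * Complex.I) =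
      Real.log (NUMF.g (t - u)) + ks8 eta eta' a b t u := by
  have hs : NUKer.Sm2 (max |t| |u|) (iD eta) (iD eta) := Cv.sm2_of h.n0 _
  have h2 := NUKer.norm_gcx hs (le_max_left |t| |u|) (le_max_right |t| |u|)
  have hg := NUMF.g_pos (t - u)
  unfold lnK ks8
  rw [if_neg (by simp), if_neg hab, arg_eq, h2, Real.log_mul hg.ne' (Real.exp_pos _).ne', Real.log_exp]

/-! ### integrability -/

theorem iter {f f' : ℝ → ℝ} {K : ℝ → ℝ → ℝ} (h : Integrable fun p : ℝ × ℝ => f p.1 * f' p.2 * K p.1 p.2) :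
    Integrable (fun t => f t * ∫ u, f' u * K t u) ∧
      ∫ p : ℝ × ℝ, f p.1 * f' p.2 * K p.1 p.2 = ∫ t, f t * ∫ u, f' u * K t u := by
  have e : ∀ t, ∫ u, f t * f' u * K t u = f t * ∫ u, f' u * K t u := by
    intro t
    rw [← integral_const_mul]
    refine integral_congr_ae (Filter.Eventually.of_forall fun u => ?_)
    simp only
    ring
  have h' : Integrable (fun p : ℝ × ℝ => f p.1 * f' p.2 * K p.1 p.2) (volume.prod volume) := h
  constructor
  · refine h'.integral_prod_left.congr (Filter.Eventually.of_forall fun t => ?_)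
    exact e t
  · rw [Measure.volume_eq_prod, integral_prod _ h']
    exact integral_congr_ae (Filter.Eventually.of_forall fun t => e t)

variable {μ : Bool → ℝ → ℝ}

theorem int_ks (h : CuB eta eta') (hμ : ∀ a, NUC43.Dn (μ a)) (a b : Bool) :
    Integrable fun p : ℝ × ℝ => μ a p.1 * μ b p.2 * ks8 eta eta' a b p.1 p.2 := by
  have h1 := h.bk a b
  have h2 : Integrable fun p : ℝ × ℝ => μ a p.1 * μ b p.2 := (hμ a).int.mul_prod (hμ b).int
  exact h2.mul_bdd (c := 8) h1.cont.aestronglyMeasurable (Filter.Eventually.of_forall fun p => h1.le _ _)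

theorem int_lg (hμ : ∀ a, NUC43.Dn (μ a)) (a b : Bool) :
    Integrable fun p : ℝ × ℝ => μ a p.1 * μ b p.2 * Real.log (NUMF.g (p.1 - p.2)) := by
  have h1 := Gs.logg_prod (hμ a).int (Gs.dn_int1 (hμ a)) (hμ b).int (Gs.dn_int1 (hμ b))
  refine h1.congr (Filter.Eventually.of_forall fun p => ?_)
  simp only
  ring

theorem int_lnK (hm : Measurable eta) (hμ : ∀ a, NUC43.Dn (μ a)) (a b : Bool) :
    Integrable fun p : ℝ × ℝ => μ a p.1 * μ b p.2 *
      lnK (a == b) (((p.1 - p.2 : ℝ) : ℂ) + ((eta p.1 - eta p.2 : ℝ) : ℂ) * Complex.I) := by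
  have hl := l_pos8
  have h1 : Integrable fun p : ℝ × ℝ => μ a p.1 * μ b p.2 *
      WK 0 (a == b) (eta p.2 / l - eta p.1 / l) (p.1 - p.2) := by
    refine ((pair_lb (hμ a) (hμ b)).norm.const_mul 6).mono' ?_ ?_
    · exact ((((hμ a).cont.measurable.comp measurable_fst).mul ((hμ b).cont.measurable.comp measurable_snd)).mul
        (meas_WK (((hm.comp measurable_snd).div_const l).sub ((hm.comp measurable_fst).div_const l))
          (measurable_fst.sub measurable_snd) _ _)).aestronglyMeasurable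
    · filter_upwards [ae_ne] with p hp
      rw [norm_mul, norm_mul (μ a p.1 * μ b p.2)]
      have h1 := abs_WK_le 0 (a == b) (eta p.2 / l - eta p.1 / l) hp
      have h2 : lb (p.1 - p.2) ≤ ‖lb (p.1 - p.2)‖ := le_abs_self _
      rw [Real.norm_eq_abs (WK _ _ _ _)]
      calc _ ≤ ‖μ a p.1 * μ b p.2‖ * (6 * ‖lb (p.1 - p.2)‖) :=
            mul_le_mul_of_nonneg_left (h1.trans (by linarith)) (norm_nonneg _)
        _ = _ := by ring
  refine h1.congr ?_
  filter_upwards [ae_ne] with p hp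
  rw [WK_K _ _ hp]
  congr 4
  have : (eta p.1 - eta p.2 : ℝ) = -((eta p.2 / l - eta p.1 / l) * l) := by
    field_simp
    ring
  rw [← this]

/-! ### the energy -/

theorem pair_own (h : CuB eta eta') (hμ : ∀ a, NUC43.Dn (μ a)) (a : Bool) :
    ∫ p : ℝ × ℝ, μ a p.1 * μ a p.2 *
      lnK (a == a) (((p.1 - p.2 : ℝ) : ℂ) + ((eta p.1 - eta p.2 : ℝ) : ℂ) * Complex.I) =
    -bW NUMF.V (μ a) (μ a) - bW (fun x => Real.log (NUMF.g x)) (μ a) (μ a) +
      ∫ t, μ a t * ∫ u, μ a u * ks8 eta eta' a a t u := by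
  have i0 := int_lnK h.cont.measurable hμ a a
  have i1 := int_lg hμ a a
  have i2 := int_ks h hμ a a
  have e0 : ∀ᵐ p : ℝ × ℝ, μ a p.1 * μ a p.2 * NUMF.V (p.1 - p.2) =
      μ a p.1 * μ a p.2 * ks8 eta eta' a a p.1 p.2 - μ a p.1 * μ a p.2 * Real.log (NUMF.g (p.1 - p.2)) -
      μ a p.1 * μ a p.2 *
        lnK (a == a) (((p.1 - p.2 : ℝ) : ℂ) + ((eta p.1 - eta p.2 : ℝ) : ℂ) * Complex.I) := by
    filter_upwards [ae_ne] with p hp
    rw [beq_self_eq_true, lnK_true h hp]
    have : ks8 eta eta' true true = ks8 eta eta' a a := by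
      unfold ks8
      rw [if_pos rfl, if_pos rfl]
    rw [this]
    ring
  have i3 : Integrable fun p : ℝ × ℝ => μ a p.1 * μ a p.2 * NUMF.V (p.1 - p.2) :=
    ((i2.sub i1).sub i0).congr (e0.mono fun p hp => hp.symm)
  have e3 := integral_congr_ae e0
  have i4 : Integrable fun p : ℝ × ℝ => μ a p.1 * μ a p.2 * ks8 eta eta' a a p.1 p.2 -
      μ a p.1 * μ a p.2 * Real.log (NUMF.g (p.1 - p.2)) := i2.sub i1
  rw [integral_sub i4 i0, integral_sub i2 i1, (iter (K := fun t u => NUMF.V (t - u)) i3).2,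
    (iter (K := fun t u => Real.log (NUMF.g (t - u))) i1).2, (iter i2).2] at e3
  unfold bW
  linarith

theorem pair_cross (h : CuB eta eta') (hμ : ∀ a, NUC43.Dn (μ a)) {a b : Bool} (hab : a ≠ b) :
    ∫ p : ℝ × ℝ, μ a p.1 * μ b p.2 *
      lnK (a == b) (((p.1 - p.2 : ℝ) : ℂ) + ((eta p.1 - eta p.2 : ℝ) : ℂ) * Complex.I) =
    bW (fun x => Real.log (NUMF.g x)) (μ a) (μ b) + ∫ t, μ a t * ∫ u, μ b u * ks8 eta eta' a b t u := by
  have i1 := int_lg hμ a b
  have i2 := int_ks h hμ a b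
  have e : (a == b) = false := by simpa using hab
  have e0 : ∀ p : ℝ × ℝ, μ a p.1 * μ b p.2 *
      lnK (a == b) (((p.1 - p.2 : ℝ) : ℂ) + ((eta p.1 - eta p.2 : ℝ) : ℂ) * Complex.I) =
      μ a p.1 * μ b p.2 * Real.log (NUMF.g (p.1 - p.2)) + μ a p.1 * μ b p.2 * ks8 eta eta' a b p.1 p.2 := by
    intro p
    rw [e, lnK_false h p.1 p.2 hab]
    ring
  simp only [e0]
  rw [integral_add i1 i2, (iter (K := fun t u => Real.log (NUMF.g (t - u))) i1).2, (iter i2).2]
  rfl

/-- **the energies agree** -/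
theorem EQ_eq8 (h : CuB eta eta') (hμ : ∀ a, NUC43.Dn (μ a)) (f : Bool → ℝ → ℝ) :
    EQ (ks8 eta eta') f μ = EQ8 eta f μ := by
  set G : Bool → Bool → ℝ := fun a b => bW (fun x => Real.log (NUMF.g x)) (μ a) (μ b) with hG
  set K : Bool → Bool → ℝ := fun a b => ∫ t, μ a t * ∫ u, μ b u * ks8 eta eta' a b t u with hK
  have hτ : bW (fun x => Real.log (NUMF.g x)) (fun t => μ true t - μ false t) (fun t => μ true t - μ false t) =
      G true true - G true false - G false true + G false false := by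
    have sl : ∀ {x : ℝ → ℝ}, NUC43.Dn x → bW (fun x => Real.log (NUMF.g x)) (fun t => μ true t - μ false t) x =
        bW (fun x => Real.log (NUMF.g x)) (μ true) x - bW (fun x => Real.log (NUMF.g x)) (μ false) x := by
      intro x hx
      have e : (fun t => μ true t - μ false t) = fun t => μ true t + -1 * μ false t := by
        funext t; ring
      rw [e, wkG.add_left (hμ true) ((hμ false).smul (-1)) hx, Gs.bW_smul_left]
      ring
    rw [sl (Gs.dn_sub (hμ true) (hμ false)), wkG.symm (hμ true) (Gs.dn_sub (hμ true) (hμ false)),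
      wkG.symm (hμ false) (Gs.dn_sub (hμ true) (hμ false)), sl (hμ true), sl (hμ false)]
    simp only [hG]
    ring
  have hKq : Kq (ks8 eta eta') μ μ = ∑ a, ∑ b, K a b := by
    unfold Kq
    refine Finset.sum_congr rfl fun a _ => ?_
    have e : ∀ t, μ a t * kR (ks8 eta eta') μ a t = ∑ b, μ a t * ∫ u, μ b u * ks8 eta eta' a b t u := by
      intro t
      unfold Gs.kR
      rw [Finset.mul_sum]
      refine Finset.sum_congr rfl fun b _ => ?_
      congr 1
      exact integral_congr_ae (Filter.Eventually.of_forall fun u => mul_comm _ _)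
    simp only [e]
    rw [integral_finsetSum _ fun b _ => (iter (int_ks h hμ a b)).1]
  have hU : Uq μ μ = bW NUMF.V (μ true) (μ true) + bW NUMF.V (μ false) (μ false) +
      (G true true - G true false - G false true + G false false) := by
    unfold Uq
    rw [hτ, Fintype.sum_bool]
  have o1 := pair_own h hμ true
  have o2 := pair_own h hμ false
  have c1 := pair_cross h hμ (a := true) (b := false) (by simp)
  have c2 := pair_cross h hμ (a := false) (b := true) (by simp)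
  unfold EQ EQ8 Gs.Fq
  rw [hKq, hU]
  simp only [Fintype.sum_bool]
  rw [o1, o2, c1, c2]
  simp only [hG, hK]
  ring

/-- **the energy bound** -/
theorem EQ_le {q : Pt} {t : Tb8} (hq : HQ q t) : ∃ c0 : ℝ, 0 < c0 ∧ ∀ (eta eta' : ℝ → ℝ), CuB eta eta' →
    (∀ x, q.of 0 * l ≤ eta x ∧ eta x ≤ q.of 1 * l) → ∀ (r : ℕ) (O : Fin r → Xo) (f : Bool → ℝ → ℝ),
    (∀ a x, ∏ i, potN6 q.par O i a (vl (l - eta x) x) = Real.exp (f a x)) →
    ∀ μ : Bool → ℝ → ℝ, (∀ a, NUC43.Dn (μ a)) →
    (∫ x, μ true x) - (∫ x, μ false x) = -∑ i, sg6 (sp (O i)) * kq6 (k6 (O i)) →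
    EQ (ks8 eta eta') f μ ≤ 1 / 2 * (∑ i, ∑ j, Dr6 12 q.par (sp (O i) == sp (O j)) (k6 (O i)) (k6 (O j))
      (ht (O i) - ht (O j))) - c0 / 2 * W2 univ (fun i => ⌊ht (O i)⌋) := by
  obtain ⟨c0, h0, H⟩ := intQ hq
  refine ⟨c0, h0, fun eta eta' hc he r O f hf μ hμ hn => ?_⟩
  rw [EQ_eq8 hc hμ]
  exact H eta hc.cont.measurable he r O f hf μ hμ hn

end PLT

end
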