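import Pool.Agent.PLT.EnId
import Pool.Agent.PLT.PhiQ2
import Pool.Agent.PLT.DatFC
import Pool.Agent.PLT.EnT

/-!
# Small terms of the exponent of a configuration over a sea on a static curve

* `sE c h = ∑ i, e^{-c |h i|}`; `sE_sq`;
* `int_muO`, `muO_bmaj`: masses and majorant of the densities of the objects;
* `Fq_bd`: a remainder with sup part, part near the objects and part near the origin;
* `Kq_sum`, `Kq_pr`: the static kernels on the differences of the two densities of the objects;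
* `exists_QrC`, **`exists_regC`**: the quadratic part, regularity of the data.
-/

set_option autoImplicit false
set_option linter.unusedSectionVars false
set_option linter.unusedVariables false

open MeasureTheory Set Filter Topology Complex

namespace PLT.Cv

open NUMF (l l_pos V g)
open NUO (Xo ht sp)

open NU42 (Bk)
open NUDispW (win Sd bmaj bmaj_nonneg bmaj_cont bmaj_integrable bmaj_sq_int int_exp_abs pair_exp_le)
open NUSea.PLX.H0 (Inp Vn)

noncomputable section

/-! ### heights against the origin -/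

/-- heights against the origin -/
def sE (c : ℝ) {r : ℕ} (h : Fin r → ℝ) : ℝ := ∑ i, Real.exp (-(c * |h i|))

lemma sE_nonneg (c : ℝ) {r : ℕ} (h : Fin r → ℝ) : 0 ≤ sE c h := Finset.sum_nonneg fun _ _ => (Real.exp_pos _).le

lemma sE_sq {c : ℝ} (hc : 0 < c) {r : ℕ} (h : Fin r → ℝ) :
    sE c h ^ 2 ≤ Real.exp c * Sd c * win Finset.univ h := by
  unfold sE
  rw [sq, Finset.sum_mul_sum]
  refine le_trans (Finset.sum_le_sum fun i _ => Finset.sum_le_sum fun j _ => ?_) (pair_exp_le hc _ h)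
  rw [← Real.exp_add]
  apply Real.exp_le_exp.2
  have h1 : |h i - h j| ≤ |h i| + |h j| := abs_sub (h i) (h j)
  nlinarith

/-- a linear term against the window energy -/
lemma sE_lin {c : ℝ} (hc : 0 < c) {k x : ℝ} (hk : 0 < k) {r : ℕ} (h : Fin r → ℝ) :
    x * sE c h ≤ k * win Finset.univ h + x ^ 2 * (Real.exp c * Sd c) / (4 * k) := by
  have h1 := sE_sq hc h
  have h2 := NUDispW.Sd_pos hc
  obtain ⟨E, hE⟩ : ∃ E : ℝ, E = Real.exp c * Sd c := ⟨_, rfl⟩
  have hE0 : 0 < E := by rw [hE]; positivity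
  rw [← hE] at h1 ⊢
  obtain ⟨y, hy⟩ : ∃ y : ℝ, y = sE c h := ⟨_, rfl⟩
  rw [← hy] at h1 ⊢
  have h3 : k * (y ^ 2 / E) ≤ k * win Finset.univ h := by
    refine mul_le_mul_of_nonneg_left ?_ hk.le
    rw [div_le_iff₀ hE0]
    linarith
  have h4 : x * y ≤ k * (y ^ 2 / E) + x ^ 2 * E / (4 * k) := by
    have e1 : k * (y ^ 2 / E) + x ^ 2 * E / (4 * k) - x * y = (2 * k * y - x * E) ^ 2 / (4 * k * E) := by
      field_simp
      ring
    have e2 : 0 ≤ (2 * k * y - x * E) ^ 2 / (4 * k * E) := by positivity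
    linarith
  linarith

section

variable [SeaC] {lo hi kd A ε' c : ℝ} {r : ℕ} {O' : Fin r → Oc}

/-- masses of the densities of the objects -/
theorem int_muO (hO : ∀ i, (O' i).Ok lo hi kd A ε' c) (a : Bool) :
    ∫ t, |muO O' a t| ≤ 4 / 5 * (kd * r + A * sE c fun i => (O' i).h) := by
  have h0 : ∀ i, Integrable fun t => (kd + A * Real.exp (-(c * |(O' i).h|))) *
      Real.exp (-(5 / 2 * |t - (O' i).h|)) := fun i =>
    (int_exp_abs (c := 5 / 2) (by norm_num) _).1.const_mul _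
  have h1 : ∫ t, |muO O' a t| ≤ ∫ t, ∑ i, (kd + A * Real.exp (-(c * |(O' i).h|))) *
      Real.exp (-(5 / 2 * |t - (O' i).h|)) := by
    refine integral_mono (dnSμ hO a).int.abs (integrable_finsetSum _ fun i _ => h0 i) fun t => ?_
    simp only
    unfold muO
    refine (Finset.abs_sum_le_sum_abs _ _).trans (Finset.sum_le_sum fun i _ => ?_)
    have := (hO i).μb a t
    rwa [neg_mul] at this
  refine h1.trans (le_of_eq ?_)
  rw [integral_finsetSum _ fun i _ => h0 i]
  have h2 : ∀ i, ∫ t, (kd + A * Real.exp (-(c * |(O' i).h|))) * Real.exp (-(5 / 2 * |t - (O' i).h|)) =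
      (kd + A * Real.exp (-(c * |(O' i).h|))) * (4 / 5) := by
    intro i
    rw [integral_const_mul, (int_exp_abs (c := 5 / 2) (by norm_num) _).2]
    norm_num
  simp only [h2]
  unfold sE
  rw [← Finset.sum_mul, Finset.sum_add_distrib, Finset.sum_const, Finset.card_univ, Fintype.card_fin,
    nsmul_eq_mul, ← Finset.mul_sum]
  ring

/-- majorant of the densities of the objects -/
theorem muO_bmaj (hc : 0 ≤ c) (hO : ∀ i, (O' i).Ok lo hi kd A ε' c) (a : Bool) (t : ℝ) :
    |muO O' a t| ≤ (|kd| + |A|) * bmaj Finset.univ (fun i => (O' i).h) 2 t := by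
  unfold muO bmaj
  rw [Finset.mul_sum]
  refine (Finset.abs_sum_le_sum_abs _ _).trans (Finset.sum_le_sum fun i _ => ?_)
  refine ((hO i).μb a t).trans ?_
  have h1 := (hO i).kA0
  have h2 : kd + A * Real.exp (-(c * |(O' i).h|)) ≤ |kd| + |A| := by
    have h3 : Real.exp (-(c * |(O' i).h|)) ≤ 1 := Real.exp_le_one_iff.2 (by
      have := abs_nonneg (O' i).h
      have : 0 ≤ c * |(O' i).h| := by positivity
      linarith)
    have h4 := le_abs_self kd
    have h5 := le_abs_self A
    have h6 := (hO i).A0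
    have h7 := Real.exp_pos (-(c * |(O' i).h|))
    nlinarith
  refine mul_le_mul h2 (Real.exp_le_exp.2 ?_) (Real.exp_pos _).le (by positivity)
  have := abs_nonneg (t - (O' i).h)
  linarith

end

/-! ### remainders against the densities -/

section

variable {r : ℕ} {h : Fin r → ℝ}

lemma bmaj_r (c t : ℝ) (hc : 0 ≤ c) : bmaj Finset.univ h c t ≤ r := by
  unfold bmaj
  have h1 : ∑ i : Fin r, Real.exp (-(c * |t - h i|)) ≤ ∑ _i : Fin r, (1 : ℝ) :=
    Finset.sum_le_sum fun i _ => Real.exp_le_one_iff.2 (by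
      have := abs_nonneg (t - h i)
      have : 0 ≤ c * |t - h i| := by positivity
      linarith)
  refine h1.trans (le_of_eq ?_)
  rw [Finset.sum_const, Finset.card_univ, Fintype.card_fin, nsmul_eq_mul, mul_one]

/-- objects against the origin -/
lemma bmaj_exp (t : ℝ) : bmaj Finset.univ h 2 t * Real.exp (-|t|) ≤
    ∑ i, Real.exp (-(1 * |h i|)) * Real.exp (-(1 * |t - h i|)) := by
  unfold bmaj
  rw [Finset.sum_mul]
  refine Finset.sum_le_sum fun i _ => ?_
  rw [← Real.exp_add, ← Real.exp_add]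
  apply Real.exp_le_exp.2
  have h1 : |h i| ≤ |t| + |t - h i| := by
    have := abs_sub t (t - h i)
    have e : t - (t - h i) = h i := by ring
    rwa [e] at this
  linarith

/-- **a remainder against the densities** -/
theorem Fq_bd {f μ ν : Bool → ℝ → ℝ} {S1 D1 D2 kA m1 CB : ℝ} (hS : 0 ≤ S1) (hD1 : 0 ≤ D1) (hD2 : 0 ≤ D2)
    (hk : 0 ≤ kA) (hf : ∀ a t, |f a t| ≤ S1 + (D1 * bmaj Finset.univ h 2 t + D2 * Real.exp (-|t|)))
    (hμi : ∀ a, Integrable (μ a)) (hνi : ∀ a, Integrable (ν a))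
    (hμ : ∀ a t, |μ a t| ≤ kA * bmaj Finset.univ h 2 t) (hm : ∀ a, ∫ t, |μ a t| ≤ m1)
    (hν : ∀ a, ∫ t, |ν a t| ≤ CB) :
    |Gs.Fq f fun a t => μ a t + ν a t| ≤ 2 * (S1 * (m1 + CB) +
      (kA * (D1 * (2 * (Real.exp 1 * Sd 1) * win Finset.univ h) + D2 * (2 * sE 1 h)) +
        (D1 * r + D2) * CB)) := by
  have hbn : ∀ t, 0 ≤ bmaj Finset.univ h 2 t := fun t => bmaj_nonneg _ _ _ _
  obtain ⟨ib, eb⟩ := bmaj_sq_int (c := 2) (by norm_num) Finset.univ h
  have eb' : ∫ x, bmaj Finset.univ h 2 x ^ 2 ≤ 2 * (Real.exp 1 * Sd 1) * win Finset.univ h := by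
    refine eb.trans (le_of_eq ?_)
    norm_num
  have ie : ∀ i, Integrable fun t => Real.exp (-(1 * |h i|)) * Real.exp (-(1 * |t - h i|)) := fun i =>
    (int_exp_abs (c := 1) one_pos _).1.const_mul _
  have is : Integrable fun t => ∑ i, Real.exp (-(1 * |h i|)) * Real.exp (-(1 * |t - h i|)) :=
    integrable_finsetSum _ fun i _ => ie i
  have es : ∫ t, ∑ i, Real.exp (-(1 * |h i|)) * Real.exp (-(1 * |t - h i|)) = 2 * sE 1 h := by
    rw [integral_finsetSum _ fun i _ => ie i]
    have h2 : ∀ i, ∫ t, Real.exp (-(1 * |h i|)) * Real.exp (-(1 * |t - h i|)) =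
        Real.exp (-(1 * |h i|)) * 2 := by
      intro i
      rw [integral_const_mul, (int_exp_abs (c := 1) one_pos _).2]
      norm_num
    simp only [h2]
    unfold sE
    rw [← Finset.sum_mul]
    ring
  have key : ∀ a, |∫ t, (μ a t + ν a t) * f a t| ≤ S1 * (m1 + CB) +
      (kA * (D1 * (2 * (Real.exp 1 * Sd 1) * win Finset.univ h) + D2 * (2 * sE 1 h)) +
        (D1 * r + D2) * CB) := by
    intro a
    have j1 : Integrable fun t => S1 * (|μ a t| + |ν a t|) := ((hμi a).abs.add (hνi a).abs).const_mul _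
    have j2 : Integrable fun t => kA * (D1 * bmaj Finset.univ h 2 t ^ 2 + D2 *
        ∑ i, Real.exp (-(1 * |h i|)) * Real.exp (-(1 * |t - h i|))) :=
      ((ib.const_mul D1).add (is.const_mul D2)).const_mul kA
    have j3 : Integrable fun t => (D1 * r + D2) * |ν a t| := (hνi a).abs.const_mul _
    have j23 := j2.add j3
    have hle : |∫ t, (μ a t + ν a t) * f a t| ≤ ∫ t, (S1 * (|μ a t| + |ν a t|) +
        (kA * (D1 * bmaj Finset.univ h 2 t ^ 2 + D2 *
          ∑ i, Real.exp (-(1 * |h i|)) * Real.exp (-(1 * |t - h i|))) + (D1 * r + D2) * |ν a t|)) := by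
      rw [← Real.norm_eq_abs]
      refine norm_integral_le_of_norm_le (j1.add j23) (ae_of_all _ fun t => ?_)
      rw [Real.norm_eq_abs, abs_mul]
      have hb := hbn t
      have hE := Real.exp_pos (-|t|)
      have hE1 : Real.exp (-|t|) ≤ 1 := Real.exp_le_one_iff.2 (by have := abs_nonneg t; linarith)
      have hbe := bmaj_exp (h := h) t
      have hbr := bmaj_r (h := h) 2 t (by norm_num)
      have q1 : |μ a t + ν a t| ≤ |μ a t| + |ν a t| := abs_add_le _ _
      have hm0 := abs_nonneg (μ a t)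
      have hn0 := abs_nonneg (ν a t)
      obtain ⟨R, hR⟩ : ∃ R : ℝ, R = D1 * bmaj Finset.univ h 2 t + D2 * Real.exp (-|t|) := ⟨_, rfl⟩
      have hR0 : 0 ≤ R := by rw [hR]; positivity
      have hR1 : R ≤ D1 * r + D2 := by
        rw [hR]
        have a1 : D1 * bmaj Finset.univ h 2 t ≤ D1 * r := mul_le_mul_of_nonneg_left hbr hD1
        have a2 : D2 * Real.exp (-|t|) ≤ D2 := mul_le_of_le_one_right hD2 hE1
        linarith
      have hf1 := hf a t
      rw [← hR] at hf1
      have g1 : |μ a t + ν a t| * |f a t| ≤ (|μ a t| + |ν a t|) * (S1 + R) :=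
        mul_le_mul q1 hf1 (abs_nonneg _) (by positivity)
      have g2 : |μ a t| * R ≤ kA * (D1 * bmaj Finset.univ h 2 t ^ 2 + D2 *
          ∑ i, Real.exp (-(1 * |h i|)) * Real.exp (-(1 * |t - h i|))) := by
        refine (mul_le_mul_of_nonneg_right (hμ a t) hR0).trans ?_
        have e1 : kA * bmaj Finset.univ h 2 t * R = kA * (D1 * bmaj Finset.univ h 2 t ^ 2 +
            D2 * (bmaj Finset.univ h 2 t * Real.exp (-|t|))) := by
          rw [hR]
          ring
        rw [e1]
        refine mul_le_mul_of_nonneg_left ?_ hk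
        have := mul_le_mul_of_nonneg_left hbe hD2
        linarith
      have g3 : |ν a t| * R ≤ (D1 * r + D2) * |ν a t| := by
        rw [mul_comm]
        exact mul_le_mul_of_nonneg_right hR1 hn0
      calc |μ a t + ν a t| * |f a t| ≤ (|μ a t| + |ν a t|) * (S1 + R) := g1
        _ = S1 * (|μ a t| + |ν a t|) + (|μ a t| * R + |ν a t| * R) := by ring
        _ ≤ _ := by
          refine add_le_add le_rfl (add_le_add g2 g3)
    refine hle.trans ?_
    have e1 := integral_add j1 j23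
    have e2 := integral_add j2 j3
    simp only [Pi.add_apply] at e1 e2
    rw [e1, e2, integral_const_mul, integral_const_mul, integral_const_mul,
      integral_add (hμi a).abs (hνi a).abs, integral_add (ib.const_mul D1) (is.const_mul D2),
      integral_const_mul, integral_const_mul, es]
    have c1 := hm a
    have c2 := hν a
    have hr0 : (0 : ℝ) ≤ r := Nat.cast_nonneg r
    gcongr
  unfold Gs.Fq
  rw [Fintype.sum_bool]
  refine (abs_add_le _ _).trans ?_
  have k1 := key true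
  have k2 := key false
  linarith

end

/-! ### the static kernels on the differences of the two densities -/

section

variable {ks : Bool → Bool → ℝ → ℝ → ℝ} {C : ℝ} {ν : Bool → ℝ → ℝ}

lemma Kq_zero_left : Gs.Kq ks (fun _ _ => 0) ν = 0 := by
  unfold Gs.Kq
  simp

lemma Kq_sum_left (hk : ∀ a b, Bk C (ks a b)) {ι : Type*} (s : Finset ι) {f : ι → Bool → ℝ → ℝ}
    (hf : ∀ i a, NUC43.Dn (f i a)) (hν : ∀ a, NUC43.Dn (ν a)) :
    Gs.Kq ks (fun a t => ∑ i ∈ s, f i a t) ν = ∑ i ∈ s, Gs.Kq ks (f i) ν := by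
  classical
  induction s using Finset.induction_on with
  | empty => simp [Kq_zero_left]
  | insert x s hx ih =>
    rw [Finset.sum_insert hx, ← ih, ← Gs.Kq_add_left hk (hf x) (fun a => NUC43.Dn.sum _ fun i => hf i a) hν]
    congr 1
    funext a t
    rw [Finset.sum_insert hx]

theorem Kq_sum (hk : ∀ a b, Bk C (ks a b)) (hs : ∀ a b t t', ks a b t t' = ks b a t' t) {r : ℕ}
    {f : Fin r → Bool → ℝ → ℝ} (hf : ∀ i a, NUC43.Dn (f i a)) :
    Gs.Kq ks (fun a t => ∑ i, f i a t) (fun a t => ∑ i, f i a t) = ∑ i, ∑ j, Gs.Kq ks (f i) (f j) := by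
  have hS : ∀ a, NUC43.Dn fun t => ∑ i, f i a t := fun a => NUC43.Dn.sum _ fun i => hf i a
  rw [Kq_sum_left hk Finset.univ hf hS]
  refine Finset.sum_congr rfl fun i _ => ?_
  rw [Gs.Kq_symm hk hs (hf i) hS, Kq_sum_left hk Finset.univ hf (hf i)]
  exact Finset.sum_congr rfl fun j _ => Gs.Kq_symm hk hs (hf j) (hf i)

end

section

variable [SeaC] {lo hi kd A ε' c εo : ℝ} {r : ℕ} {O' : Fin r → Oc}

/-- **the static kernels on the differences of the two densities of the objects** -/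
theorem Kq_pr (hc : 0 < c) (hεo : 0 ≤ εo) (hO : ∀ i, (O' i).Ok lo hi kd A ε' c)
    (hp : ∀ i j, Oc.PrK εo c (O' i) (O' j)) :
    |Gs.Kq ksC (fun a t => ∑ i, ((O' i).μ a t - (O' i).r a t))
      (fun a t => ∑ i, ((O' i).μ a t - (O' i).r a t))| ≤
      εo * (Real.exp c * Sd c * win Finset.univ fun i => (O' i).h) := by
  have hf : ∀ i a, NUC43.Dn fun t => (O' i).μ a t - (O' i).r a t := fun i a =>
    Gs.dn_sub ((hO i).dnμ a) ((hO i).dnr a)
  rw [Kq_sum (C := 8) bk_ks ks_symm (f := fun i a t => (O' i).μ a t - (O' i).r a t) hf]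
  have h1 : ∀ i j, |Gs.Kq ksC (fun a t => (O' i).μ a t - (O' i).r a t)
      (fun a t => (O' j).μ a t - (O' j).r a t)| ≤
      εo * (Real.exp (-(c * |(O' i).h|)) * Real.exp (-(c * |(O' j).h|))) := by
    intro i j
    have h2 := hp i j
    unfold Oc.PrK at h2
    have e1 : Gs.Kq ksC (fun a t => (O' i).μ a t - (O' i).r a t) (fun a t => (O' j).μ a t - (O' j).r a t) =
        ∑ a, ∑ b, ∫ t, ((O' i).μ a t - (O' i).r a t) * ∫ u, ksC a b t u * ((O' j).μ b u - (O' j).r b u) := by
      unfold Gs.Kq Gs.kR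
      refine Finset.sum_congr rfl fun a _ => ?_
      have e2 : ∀ t, ((O' i).μ a t - (O' i).r a t) * ∑ b, ∫ u, ksC a b t u * ((O' j).μ b u - (O' j).r b u) =
          ∑ b, ((O' i).μ a t - (O' i).r a t) * ∫ u, ksC a b t u * ((O' j).μ b u - (O' j).r b u) := fun t =>
        Finset.mul_sum _ _ _
      simp only [e2]
      refine integral_finsetSum _ fun b _ => ?_
      have h3 := Gs.ibd (hf i a).int (Gs.cvc (hf j b).int (bk_ks a b))
        fun t => Gs.abs_ibd (hf j b).int ((bk_ks a b).le t)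
      exact h3.congr (ae_of_all _ fun t => by simp only; ring)
    rw [e1, ← Real.exp_add]
    refine h2.trans (le_of_eq ?_)
    congr 2
  refine (Finset.abs_sum_le_sum_abs _ _).trans ((Finset.sum_le_sum fun i _ =>
    (Finset.abs_sum_le_sum_abs _ _).trans (Finset.sum_le_sum fun j _ => h1 i j)).trans ?_)
  have e3 : ∑ i, ∑ j, εo * (Real.exp (-(c * |(O' i).h|)) * Real.exp (-(c * |(O' j).h|))) =
      εo * (sE c fun i => (O' i).h) ^ 2 := by
    unfold sE
    rw [sq, Finset.sum_mul_sum, Finset.mul_sum]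
    exact Finset.sum_congr rfl fun i _ => by rw [Finset.mul_sum]
  rw [e3]
  exact mul_le_mul_of_nonneg_left (sE_sq hc _) hεo

end

/-! ### the quadratic part; regularity -/

/-- **size of the quadratic part** -/
theorem exists_QrC (B : SeaCB) : ∃ K : ℝ, 1 ≤ K ∧ ∀ [SeaC] [SeaCU B],
    ∀ {lo hi Cp ε M b : ℝ} {e : ℝ → ℝ} {I : Inp}, IOkC B lo hi Cp ε M b e I → K * ε ≤ 1 →
    (∀ t, |hd (I.s true) (I.η true) (I.η1 true) t| ≤ 1) → M * ε ≤ 1 →
    ∀ {r : ℕ} (O : Fin r → Oc), (∀ a, Continuous (QrC I O a)) ∧ ∀ a t, |QrC I O a t| ≤ K := by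
  obtain ⟨K, hK, H⟩ := exists_phiQC B
  have hW := NUAct.Wm_nonneg
  refine ⟨K * (NUAct.Wm + 2), by nlinarith, @fun _ hS lo hi Cp ε M b e I h hε hA hM r O => ?_⟩
  have hε0 := (h.cur true).ε0
  have hM0 := (h.cur true).M0 B (h.s0 true)
  have hMε := mul_nonneg hM0 hε0
  have k1 : K * ε ≤ 1 := by
    refine le_trans (mul_le_mul_of_nonneg_right ?_ hε0) hε
    nlinarith
  obtain ⟨Q', h1, h2, h3, -⟩ := @H _ hS I.s ε M b e I.η I.η1 h.s0 h.b0 k1 h.cur h.der h.com 1 hA (FC I O)
  refine ⟨fun a => continuous_iff_continuousAt.2 fun t => (h2 a t).continuousAt, fun a t => ?_⟩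
  refine (h3 a t).trans ?_
  have e1 := NUAct.Wb_le b t
  have e2 := NUAct.Wb_nonneg b t
  have e3 : Real.exp (-|t| / 8) ≤ 1 := Real.exp_le_one_iff.2 (by have := abs_nonneg t; linarith)
  have e4 : K * (M * ε) * (NUAct.Wb b t + 1) ≤ K * 1 * (NUAct.Wm + 1) := by gcongr
  have e5 : K * 1 * Real.exp (-|t| / 8) ≤ K := by
    rw [mul_one]
    exact mul_le_of_le_one_right (by linarith) e3
  linarith

/-- **regularity of the data** -/
theorem exists_regC (B : SeaCB) {w kd : ℝ} (hw : 0 < w) : ∃ K : ℝ, 1 ≤ K ∧ ∀ [SeaC] [SeaCU B],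
    ∀ {lo hi Cp ε M b : ℝ} {e : ℝ → ℝ} {I : Inp}, IOkC B lo hi Cp ε M b e I → K * ε ≤ 1 →
    (∀ t, |hd (I.s true) (I.η true) (I.η1 true) t| ≤ 1) → M * ε ≤ 1 → (∀ a, 0 < I.s a) →
    ∀ {A ε' c : ℝ} {r : ℕ} {O : Fin r → Oc}, (∀ i, (O i).Ok (lo - w) (hi + w) kd A ε' c) →
    Gs.Reg (datC I O) := by
  obtain ⟨K1, hK1, H1⟩ := exists_QrC B
  obtain ⟨K2, hK2, H2⟩ := exists_dFC B (kd := kd) hw
  refine ⟨K1 + K2, by linarith, @fun _ hS lo hi Cp ε M b e I h hε hA hM hs A ε' c r O hO => ?_⟩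
  have hε0 := (h.cur true).ε0
  have hM0 := (h.cur true).M0 B (h.s0 true)
  have k0 : (K1 + K2) * ε = K1 * ε + K2 * ε := by ring
  have p1 : 0 ≤ K1 * ε := by positivity
  have p2 : 0 ≤ K2 * ε := by positivity
  obtain ⟨q1, q2⟩ := @H1 _ hS lo hi Cp ε M b e I h (by linarith) hA hM r O
  have hσ : 0 < min (I.s true) (I.s false) := lt_min (hs _) (hs _)
  have hσ' : ∀ a, min (I.s true) (I.s false) ≤ I.s a := fun a => by
    cases a
    · exact min_le_right _ _
    · exact min_le_left _ _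
  have d0 := fun a => @H2 _ hS lo hi Cp ε M b e I h (by linarith) _ hσ hσ' A ε' c r O hO a
  have dc : ∀ a, Continuous (dFC I O a) := fun a => by
    obtain ⟨F', g1, -⟩ := d0 a
    exact continuous_iff_continuousAt.2 fun t => (g1 t).continuousAt
  have db : ∀ a t, |dFC I O a t| ≤ K2 * ε * r + K2 * r * (M / min (I.s true) (I.s false)) := by
    intro a t
    obtain ⟨F', -, -, g3, -⟩ := d0 a
    refine (g3 t).trans ?_
    have e1 := bmaj_r (h := fun i => (O i).h) 2 t (by norm_num)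
    have e2 : Real.exp (-|t|) ≤ 1 := Real.exp_le_one_iff.2 (by have := abs_nonneg t; linarith)
    have e3 : 0 ≤ K2 * r * (M / min (I.s true) (I.s false)) := by positivity
    refine add_le_add (mul_le_mul_of_nonneg_left e1 p2) ?_
    exact mul_le_of_le_one_right e3 e2
  have sc : ∀ a, Continuous (phS O a) := fun a => continuous_finsetSum _ fun i _ =>
    continuous_iff_continuousAt.2 fun t => ((hO i).φd a t).continuousAt
  have sb : ∀ a t, |phS O a t| ≤ r * ε' := by
    intro a t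
    unfold phS
    refine (Finset.abs_sum_le_sum_abs _ _).trans ?_
    have e1 : ∀ i, |(O i).φ a t| ≤ ε' := fun i => by
      refine ((hO i).φb a t).trans (mul_le_of_le_one_right (hO i).ε0 (Real.exp_le_one_iff.2 ?_))
      have g1 : 0 ≤ c * |t| := mul_nonneg (hO i).c0 (abs_nonneg _)
      have g2 : 0 ≤ c * |(O i).h| := mul_nonneg (hO i).c0 (abs_nonneg _)
      linarith
    refine (Finset.sum_le_sum fun i _ => e1 i).trans (le_of_eq ?_)
    rw [Finset.sum_const, Finset.card_univ, Fintype.card_fin, nsmul_eq_mul]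
  have kc : ∀ a, Continuous (KsP I.ν a) := fun a => continuous_finsetSum _ fun b _ =>
    Gs.cvc (h.νi b) (bk_ks a b)
  have kb : ∀ a t, |KsP I.ν a t| ≤ ∑ b, 8 * ∫ u, |I.ν b u| := by
    intro a t
    unfold KsP
    exact (Finset.abs_sum_le_sum_abs _ _).trans (Finset.sum_le_sum fun b _ =>
      Gs.abs_ibd (h.νi b) ((bk_ks a b).le t))
  refine regC h hO (fun a => ?_) fun a => ?_
  · exact ((((q1 a).add (dc a)).add (sc a)).add (kc a)).add (h.wc a).continuous
  · obtain ⟨C, hC⟩ := h.wb a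
    refine ⟨K1 + (K2 * ε * r + K2 * r * (M / min (I.s true) (I.s false))) + r * ε' +
      (∑ b, 8 * ∫ u, |I.ν b u|) + C, fun t => ?_⟩
    unfold phiC
    have e1 := q2 a t
    have e2 := db a t
    have e3 := sb a t
    have e4 := kb a t
    have e5 := hC t
    refine (abs_add_le _ _).trans (add_le_add ((abs_add_le _ _).trans (add_le_add ((abs_add_le _ _).trans
      (add_le_add ((abs_add_le _ _).trans (add_le_add e1 e2)) e3)) e4)) e5)

end

end PLT.Cv
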