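import Pool.Agent.PLT.EnAdd
import Pool.Agent.PLT.DatNC
import Pool.Agent.PLT.DatCC
import Pool.Agent.PLT.GAct
import Pool.Agent.PLT.FxHC

/-!
# The exponent of a configuration with a source, sea on a static curve

* `addS_datC`: the data with a source are the data and the source (`Gs.AddS`);
* `exists_phi_bd`: the remainder is continuous and bounded;
* **`exists_srcC`**: a source of size `s` costs its potential against the sea, `K` per object, `kap` times the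
  window energy and a constant.
-/

set_option autoImplicit false
set_option linter.unusedSectionVars false
set_option linter.unusedVariables false

open MeasureTheory Set Filter Topology Complex

namespace PLT.Cv

open NUMF (l l_pos V g)
open NUC43 (Dn)
open NUO (Tb)
open NUAct (Wb Wm Wm_nonneg Wb_le Wb_nonneg)
open NUDispW (win bmaj win_nonneg bmaj_nonneg Sd Sd_pos int_exp_abs)
open NUSea.PLX.H0 (Inp SrcOk srcP ψ0)
open NUGC (Sr muS tauS dn_muS dn_tauS muS_sub)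

noncomputable section

/-! ### the data with a source -/

section

variable [SeaC] {B : SeaCB} {lo hi Cp ε M b s : ℝ} {e : ℝ → ℝ} {I : Inp} {ν : Bool → ℝ → ℝ} {τ : ℝ → ℝ}

/-- **the data with a source** -/
theorem addS_datC (h : IOkC B lo hi Cp ε M b e I) (hs : SrcOk s ν τ) {r : ℕ} (O : Fin r → Oc) :
    Gs.AddS (datC I O) (datC (NUSea.PLX.H0.addS I ν τ ψ0) O) ν τ where
  s := rfl
  P := rfl
  ks := rfl
  S := rfl
  E a t := by
    show I.B a t + (srcP ν τ a t + 0) = I.B a t + srcP ν τ a t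
    rw [add_zero]
  τ t := (add_assoc _ _ _).symm
  μ a t := (add_assoc _ _ _).symm
  r a t := (add_assoc _ _ _).symm
  φ a t := by
    have h1 := congrFun (congrFun (h.wOC_addS0 hs) a) t
    have h2 := KsP_add (ρ := I.ν) (σ := ν) h.νi (fun a => (hs.dν a).int) a t
    have e1 : (datC (NUSea.PLX.H0.addS I ν τ ψ0) O).φ a t = QrC I O a t + dFC I O a t + phS O a t +
        KsP (fun a t => I.ν a t + ν a t) a t +
        Sp.wOC (zI (NUSea.PLX.H0.addS I ν τ ψ0)) (NUSea.PLX.H0.addS I ν τ ψ0) a t := rfl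
    have e2 : (datC I O).φ a t = QrC I O a t + dFC I O a t + phS O a t + KsP I.ν a t +
        Sp.wOC (zI I) I a t := rfl
    have e3 : Gs.kR (datC I O).ks ν a t = KsP ν a t := rfl
    rw [e1, e2, e3, h1, h2]
    ring

end

/-! ### masses -/

/-- the mass of a density with decay around a point -/
private lemma mass_le {f : ℝ → ℝ} {M h : ℝ} (hM : 0 ≤ M)
    (hf : ∀ t, |f t| ≤ M * Real.exp (-(5 / 2) * |t - h|)) : ∫ t, |f t| ≤ M := by
  obtain ⟨i1, e1⟩ := int_exp_abs (c := 5 / 2) (by norm_num) h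
  have h1 : ∫ t, |f t| ≤ ∫ t, M * Real.exp (-(5 / 2 * |t - h|)) := by
    refine integral_mono_of_nonneg (ae_of_all _ fun t => abs_nonneg _) (i1.const_mul M)
      (ae_of_all _ fun t => ?_)
    have := hf t
    rw [neg_mul] at this
    exact this
  rw [integral_const_mul, e1] at h1
  linarith

/-- the mass of a sum -/
private lemma mass_add {r : ℕ} {f : Fin r → ℝ → ℝ} {f0 : ℝ → ℝ} (hf : ∀ i, Integrable (f i)) (h0 : Integrable f0) :
    ∫ t, |(∑ i, f i t) + f0 t| ≤ (∑ i, ∫ t, |f i t|) + ∫ t, |f0 t| := by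
  rw [← integral_finsetSum _ fun i _ => (hf i).abs, ← integral_add
    (integrable_finsetSum _ fun i _ => (hf i).abs) h0.abs]
  refine integral_mono ((integrable_finsetSum _ fun i _ => hf i).add h0).abs
    ((integrable_finsetSum _ fun i _ => (hf i).abs).add h0.abs) fun t => ?_
  exact (abs_add_le _ _).trans (add_le_add (Finset.abs_sum_le_sum_abs _ _) le_rfl)

section

variable [SeaC] {lo hi kd A ε' c : ℝ} {r : ℕ} {O : Fin r → Oc}

/-- the masses of the objects -/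
private lemma mass_ob (hO : ∀ i, (O i).Ok lo hi kd A ε' c) {f : Fin r → ℝ → ℝ}
    (hf : ∀ i t, |f i t| ≤ (kd + A * Real.exp (-(c * |(O i).h|))) * Real.exp (-(5 / 2) * |t - (O i).h|)) :
    ∑ i, ∫ t, |f i t| ≤ kd * r + A * sH O c := by
  have h1 : ∑ i, ∫ t, |f i t| ≤ ∑ i, (kd + A * Real.exp (-(c * |(O i).h|))) :=
    Finset.sum_le_sum fun i _ => mass_le (hO i).kA0 (hf i)
  refine h1.trans (le_of_eq ?_)
  rw [Finset.sum_add_distrib, ← Finset.mul_sum]
  unfold sH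
  simp
  ring

end

/-! ### the remainder -/

/-- **the remainder is continuous and bounded** -/
theorem exists_phi_bd (B : SeaCB) {w kd : ℝ} (hw : 0 < w) : ∃ K : ℝ, 1 ≤ K ∧ ∀ [SeaC] [SeaCU B],
    ∀ {lo hi Cp ε M b : ℝ} {e : ℝ → ℝ} {I : Inp}, IOkC B lo hi Cp ε M b e I → K * ε ≤ 1 → M * ε ≤ 1 →
    ∀ {σ : ℝ}, 0 < σ → (∀ a, σ ≤ I.s a) → M ≤ σ →
    (∀ t, |hd (I.s true) (I.η true) (I.η1 true) t| ≤ 1) →
    ∀ {A ε' c : ℝ} {r : ℕ} {O : Fin r → Oc}, (∀ i, (O i).Ok (lo - w) (hi + w) kd A ε' c) → ε' ≤ 1 →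
    ∀ {W Cν : ℝ}, (∀ a t, |Sp.wOC (zI I) I a t| ≤ W) → (∀ a, ∫ t, |I.ν a t| ≤ Cν) → ∀ a,
    Continuous (phiC I O a) ∧ ∀ t, |phiC I O a t| ≤ W + 16 * Cν + K + K * r := by
  obtain ⟨K, hK, H⟩ := exists_parts B (kd := kd) hw
  have hWm := Wm_nonneg
  refine ⟨K * (Wm + 2) + K + 2, by nlinarith,
    @fun _ hS lo hi Cp ε M b e I h hε hMε σ hσ hσs hMσ hh A ε' c r O hO hε' W Cν hW hν a => ?_⟩
  have hε0 := (h.cur a).ε0
  have hM0 := (h.cur a).M0 B (h.s0 a)
  have hK0 : 0 ≤ K := by linarith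
  have hε1 : K * ε ≤ 1 := by
    refine le_trans (mul_le_mul_of_nonneg_right ?_ hε0) hε
    nlinarith
  obtain ⟨⟨Q', q1, q2, q3, -⟩, F', f1, f2, f3, -⟩ :=
    @H _ hS _ _ _ _ _ _ _ _ h hε1 _ hσ hσs _ hh _ _ _ _ O hO a
  have r0 : (0 : ℝ) ≤ r := Nat.cast_nonneg r
  have hr1 : ∀ a b : Bool, NU42.Bk 8 (ksC a b) := fun a b => bk_ks a b
  have e1 : phiC I O a = fun t => QrC I O a t + dFC I O a t + phS O a t + KsP I.ν a t +
      Sp.wOC (zI I) I a t := rfl
  have c1 : Continuous (QrC I O a) := continuous_iff_continuousAt.2 fun t => (q2 t).continuousAt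
  have c2 : Continuous (dFC I O a) := continuous_iff_continuousAt.2 fun t => (f1 t).continuousAt
  have c3 : Continuous (phS O a) := continuous_iff_continuousAt.2 fun t => (phS_d hO a t).continuousAt
  have c4 : Continuous (KsP I.ν a) := Gs.kR_cont h.νi hr1 a
  have c5 : Continuous (Sp.wOC (zI I) I a) := (h.wc a).continuous
  refine ⟨by rw [e1]; exact (((c1.add c2).add c3).add c4).add c5, fun t => ?_⟩
  have b1 : |QrC I O a t| ≤ K * (Wm + 1) + K := by
    refine (q3 t).trans (add_le_add ?_ ?_)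
    · have h1 : M * ε * (Wb b t + 1) ≤ 1 * (Wm + 1) :=
        mul_le_mul hMε (by linarith [Wb_le b t]) (by linarith [Wb_nonneg b t]) zero_le_one
      nlinarith
    · have h1 : Real.exp (-(1 / 8 * |t|)) ≤ 1 := Real.exp_le_one_iff.2 (by
        have := abs_nonneg t
        linarith)
      nlinarith
  have b2 : |dFC I O a t| ≤ (1 + K) * r := by
    refine (f3 t).trans ?_
    have h1 : K * ε * bmaj Finset.univ (fun i => (O i).h) 2 t ≤ 1 * r :=
      mul_le_mul hε1 (bmaj_le_r O t) (bmaj_nonneg _ _ _ _) zero_le_one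
    have h2 : M / σ ≤ 1 := (div_le_one hσ).2 hMσ
    have h3 : Real.exp (-|t|) ≤ 1 := Real.exp_le_one_iff.2 (by
      have := abs_nonneg t
      linarith)
    have h4 : K * r * (M / σ) * Real.exp (-|t|) ≤ K * r * 1 * 1 := by
      have h5 : 0 ≤ M / σ := div_nonneg hM0 hσ.le
      have h6 := Real.exp_pos (-|t|)
      gcongr
    linarith
  have b3 : |phS O a t| ≤ r := by
    refine (phS_le hO a t).trans ?_
    rcases Nat.eq_zero_or_pos r with hr | hr
    · subst hr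
      simp [sH]
    · have h0 := (hO ⟨0, hr⟩).ε0
      have hc := (hO ⟨0, hr⟩).c0
      have h1 : Real.exp (-(c * |t|)) ≤ 1 := Real.exp_le_one_iff.2 (by
        have := mul_nonneg hc (abs_nonneg t)
        linarith)
      have h2 := sH_le O hc
      have h3 := sH_nonneg O c
      calc ε' * sH O c * Real.exp (-(c * |t|)) ≤ 1 * (r : ℝ) * 1 := by
            have := Real.exp_pos (-(c * |t|))
            gcongr
        _ = r := by ring
  have b4 : |KsP I.ν a t| ≤ 16 * Cν := by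
    have h1 := Gs.kR_abs h.νi hr1 a t
    have e3 : Gs.kR ksC I.ν a t = KsP I.ν a t := rfl
    rw [e3, Fintype.sum_bool] at h1
    linarith [hν true, hν false]
  have b5 := hW a t
  rw [phiC_eq]
  have t1 := abs_add_le (QrC I O a t + dFC I O a t + phS O a t + KsP I.ν a t) (Sp.wOC (zI I) I a t)
  have t2 := abs_add_le (QrC I O a t + dFC I O a t + phS O a t) (KsP I.ν a t)
  have t3 := abs_add_le (QrC I O a t + dFC I O a t) (phS O a t)
  have t4 := abs_add_le (QrC I O a t) (dFC I O a t)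
  have n1 : 0 ≤ K * Wm * r := by positivity
  nlinarith

/-! ### the source -/

/-- **a source in a configuration** -/
theorem exists_srcC (B : SeaCB) {Q : Par7} (hQ : Q.Ok) {s Cν W : ℝ} (hs0 : 0 ≤ s) (hCν : 0 ≤ Cν)
    (hW0 : 0 ≤ W) : ∃ K : ℝ, 0 ≤ K ∧ ∀ kap : ℝ, 0 < kap → ∀ A : ℝ, 0 ≤ A → ∀ κ : ℝ, 0 < κ → ∀ k : ℕ,
    ∃ (C : ℝ) (m0 : ℕ), 0 ≤ C ∧ ∀ [SeaC] [SeaCU B], ∀ m ≥ m0, ∀ (b : ℝ) (I : Inp),
    (∃ (ε M : ℝ) (e : ℝ → ℝ), IOkC B Q.lo Q.hi Q.Cp ε M b e I ∧ ε ≤ (m : ℝ) ^ (-κ) ∧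
      M ≤ Real.log m ^ k) → (∀ a, (m : ℝ) / 2 ≤ I.s a) →
    (∀ t, |hd (I.s true) (I.η true) (I.η1 true) t| ≤ 1) →
    ∀ (r : ℕ) (O : Fin r → Oc) (εo : ℝ), (∀ i, (O i).Ok (Q.lo - Q.w) (Q.hi + Q.w) Q.kd A εo Q.c) →
    εo ≤ 1 → ∀ (ι : Type) [Fintype ι] (T : ι → Sr), (∀ d, (T d).Ok) → (∀ a, I.ν a = muS T a) →
    I.τD = tauS T → (∀ a, ∫ t, |I.ν a t| ≤ Cν) → (∀ a t, |Sp.wOC (zI I) I a t| ≤ W) →
    ∀ (ν : Bool → ℝ → ℝ) (τ : ℝ → ℝ), SrcOk s ν τ →
      (datC (NUSea.PLX.H0.addS I ν τ ψ0) O).M0 + (datC (NUSea.PLX.H0.addS I ν τ ψ0) O).En ≤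
        (datC I O).M0 + (datC I O).En + (∑ a, ∫ t, I.s a * P t * srcP ν τ a t) + K * r +
        kap * win Finset.univ (fun i => (O i).h) + C := by
  obtain ⟨K1, hK1, HP⟩ := exists_phi_bd B (w := Q.w) (kd := Q.kd) hQ.w0
  obtain ⟨tc, K2, htc, hK2, HG⟩ := exists_geoC B
  have hc := hQ.c0
  have hkd := hQ.kd0
  obtain ⟨Z, hZ⟩ : ∃ Z, Z = Gs.Ka 8 * s := ⟨_, rfl⟩
  have hZ0 : 0 ≤ Z := by
    rw [hZ]
    unfold Gs.Ka
    have : 0 ≤ ∫ u, |V u| := integral_nonneg fun _ => abs_nonneg _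
    positivity
  obtain ⟨Wc, hWc⟩ : ∃ Wc, Wc = Real.exp Q.c * Sd Q.c := ⟨_, rfl⟩
  have hWc0 : 0 < Wc := by
    rw [hWc]
    have := Sd_pos hc
    positivity
  refine ⟨Z * (2 * Q.kd + K1), by positivity, fun kap hkap A hA κ hκ k => ?_⟩
  obtain ⟨m1, hm1⟩ := @NUGC.PLX.log_pow_small NUSea.seaP 1 κ 1 k hκ one_pos
  obtain ⟨m2, hm2⟩ := @NUGC.PLX.log_pow_small NUSea.seaP 2 1 1 k one_pos one_pos
  obtain ⟨m3, hm3⟩ := @NUGC.PLX.log_pow_small NUSea.seaP (K1 + K2) κ 1 0 hκ one_pos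
  obtain ⟨x, hx⟩ : ∃ x, x = Z * (2 * A) := ⟨_, rfl⟩
  have hx0 : 0 ≤ x := by rw [hx]; positivity
  obtain ⟨C, hC⟩ : ∃ C, C = Z * (s + 2 * Cν + (W + 16 * Cν + K1)) + x ^ 2 * Wc / (4 * kap) := ⟨_, rfl⟩
  have hC0 : 0 ≤ C := by rw [hC]; positivity
  refine ⟨C, max (max m1 m2) (max m3 1), hC0, @fun _ hS m hm b I hI hsm hh r O εo hO hεo ι _ T hT hν hτ
    hνm hW ν τ hs => ?_⟩
  simp only [ge_iff_le, max_le_iff] at hm
  obtain ⟨⟨g1, g2⟩, g3, g4⟩ := hm
  obtain ⟨ε, M, e, hI, hε, hM⟩ := hI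
  have hmp : (0 : ℝ) < m := by exact_mod_cast g4
  have hL : 0 ≤ Real.log m := Real.log_nonneg (by exact_mod_cast g4)
  have hLk : Real.log m ^ k ≤ (1 + Real.log m) ^ k := pow_le_pow_left₀ hL (by linarith) k
  have hLk0 : 0 ≤ Real.log m ^ k := pow_nonneg hL k
  have hmκ : 0 < (m : ℝ) ^ (-κ) := Real.rpow_pos_of_pos hmp _
  have hε0 := (hI.cur true).ε0
  have hM0 := (hI.cur true).M0 B (hI.s0 true)
  have hMε : M * ε ≤ 1 := by
    refine le_trans (mul_le_mul (hM.trans hLk) hε hε0 (by positivity)) ?_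
    have := hm1 m g1
    rwa [one_mul] at this
  have hMσ : M ≤ (m : ℝ) / 2 := by
    have h1 := hm2 m g2
    rw [Real.rpow_neg_one] at h1
    have h2 : 2 * (1 + Real.log m) ^ k ≤ m := by
      rw [← div_eq_mul_inv, div_le_one hmp] at h1
      exact h1
    linarith
  have hKε : (K1 + K2) * ε ≤ 1 := by
    have h1 := hm3 m g3
    rw [pow_zero, mul_one] at h1
    refine le_trans (mul_le_mul_of_nonneg_left hε (by linarith)) h1
  have hK1ε : K1 * ε ≤ 1 := by nlinarith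
  have hK2ε : K2 * ε ≤ 1 := by nlinarith
  have hw := hQ.w0
  have hG : Gs.Geo (datC I O) tc 8 := @HG _ hS _ _ _ _ _ _ _ _ hI hK2ε r O fun i a =>
    ((hO i).ext a).mono (by linarith) (by linarith)
  have hφ := fun a => @HP _ hS _ _ _ _ _ _ _ _ hI hK1ε hMε _ (by positivity : (0 : ℝ) < m / 2) hsm hMσ hh
    _ _ _ _ _ hO hεo _ _ hW hνm a
  have hR : Gs.Reg (datC I O) := regC hI hO (fun a => (hφ a).1) fun a => ⟨_, (hφ a).2⟩
  have dμ : ∀ a, Dn (I.ν a) := fun a => by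
    rw [hν]
    exact dn_muS hT a
  have dτ : Dn I.τD := by
    rw [hτ]
    exact dn_tauS hT
  have dX : Dn (datC I O).τ := Gs.dn_add (dnSτ hO) dτ
  have dXμ : ∀ a, Dn ((datC I O).μ a) := fun a => Gs.dn_add (dnSμ hO a) (dμ a)
  have dXr : ∀ a, Dn ((datC I O).r a) := fun a => Gs.dn_add (dnSr hO a) (dμ a)
  obtain ⟨A', hA'⟩ : ∃ A', A' = Q.kd * r + A * sH O Q.c + 2 * Cν := ⟨_, rfl⟩
  have mτ : ∫ t, |I.τD t| ≤ 2 * Cν := by
    have h1 : ∀ t, I.τD t = I.ν true t - I.ν false t := fun t => by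
      rw [hτ, hν, hν]
      exact (muS_sub hT t).symm
    calc ∫ t, |I.τD t| ≤ ∫ t, (|I.ν true t| + |I.ν false t|) := by
          refine integral_mono dτ.int.abs ((dμ true).int.abs.add (dμ false).int.abs) fun t => ?_
          simp only
          rw [h1]
          exact abs_sub _ _
      _ = (∫ t, |I.ν true t|) + ∫ t, |I.ν false t| := integral_add (dμ true).int.abs (dμ false).int.abs
      _ ≤ _ := by linarith [hνm true, hνm false]
  have a1 : ∫ t, |(datC I O).τ t| ≤ A' := by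
    refine (mass_add (fun i => (hO i).dnτ.int) dτ.int).trans ?_
    have := mass_ob hO (f := fun i => (O i).τ) (fun i t => (hO i).τb t)
    rw [hA']
    linarith
  have a2 : ∀ a, ∫ t, |(datC I O).μ a t| ≤ A' := fun a => by
    refine (mass_add (fun i => ((hO i).dnμ a).int) (dμ a).int).trans ?_
    have := mass_ob hO (f := fun i => (O i).μ a) (fun i t => (hO i).μb a t)
    rw [hA']
    linarith [hνm a]
  have a3 : ∀ a, ∫ t, |(datC I O).r a t| ≤ A' := fun a => by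
    refine (mass_add (fun i => ((hO i).dnr a).int) (dμ a).int).trans ?_
    have := mass_ob hO (f := fun i => (O i).r a) (fun i t => (hO i).rb a t)
    rw [hA']
    linarith [hνm a]
  have key := Gs.En_addS_le (addS_datC hI hs O) hG hR hs dX dXμ dXr a1 a2 a3 (fun a t => (hφ a).2 t)
  rw [← hZ] at key
  have e1 : (datC (NUSea.PLX.H0.addS I ν τ ψ0) O).M0 = (datC I O).M0 := rfl
  have e2 : (∑ a, ∫ t, (datC I O).ρ a t * srcP ν τ a t) = ∑ a, ∫ t, I.s a * P t * srcP ν τ a t := rfl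
  rw [e2] at key
  rw [e1]
  -- the weights
  obtain ⟨S, hSd⟩ : ∃ S, S = sH O Q.c := ⟨_, rfl⟩
  obtain ⟨w2, hw2⟩ : ∃ w2, w2 = win Finset.univ (fun i => (O i).h) := ⟨_, rfl⟩
  have hsq : S ^ 2 ≤ Wc * w2 := by
    rw [hSd, hWc, hw2]
    exact sH_sq O hc
  have hS0 : 0 ≤ S := by rw [hSd]; exact sH_nonneg O _
  have r0 : (0 : ℝ) ≤ r := Nat.cast_nonneg r
  have hamgm : x * S ≤ kap * w2 + x ^ 2 * Wc / (4 * kap) := by
    have h1 : x * S ≤ kap / Wc * S ^ 2 + x ^ 2 * Wc / (4 * kap) := by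
      have h2 : 0 ≤ (S * (kap / Wc) * 2 - x) ^ 2 := sq_nonneg _
      have h3 : kap / Wc * S ^ 2 + x ^ 2 * Wc / (4 * kap) - x * S =
          (S * (kap / Wc) * 2 - x) ^ 2 * (Wc / (4 * kap)) := by
        field_simp
        ring
      have h4 : 0 ≤ (S * (kap / Wc) * 2 - x) ^ 2 * (Wc / (4 * kap)) := by positivity
      linarith
    have h5 : kap / Wc * S ^ 2 ≤ kap / Wc * (Wc * w2) := mul_le_mul_of_nonneg_left hsq (by positivity)
    have h6 : kap / Wc * (Wc * w2) = kap * w2 := by field_simp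
    linarith
  have h7 : Z * (s + A' + (W + 16 * Cν + K1 + K1 * r)) ≤
      Z * (2 * Q.kd + K1) * r + x * S + Z * (s + 2 * Cν + (W + 16 * Cν + K1)) := by
    rw [hA', hx, ← hSd]
    have h8 : 0 ≤ Z * (Q.kd * r) := by positivity
    have h9 : 0 ≤ Z * (A * S) := by positivity
    nlinarith
  rw [← hw2]
  rw [hC]
  linarith

end

end PLT.Cv
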