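import Pool.Agent.PLT.EnDef
import Pool.Agent.PLT.EnSrC
import Pool.Agent.PLT.LinTC
import Pool.Agent.PHK.PotH.ExH

/-!
# The exponent of a configuration with groups, a real potential and its source, sea on a static curve

Twin of `PHK/PotH/ExH` over the exponent `Cv.EnGCSt`; `en` any bound of the energies of the admissible densities.

* **`exists_enSXC`**: families `g : Fin n → Gd`, `n ≤ 2`;
* `int_AC`, `int_BC`: ends, groups and real potentials against the sea;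
* `linC_src`: the linear term of a potential with a source;
* **`exists_enHC`**: the data `inC` with a source: exact linear term `linC`, the whole current on the objects, sea terms
  of the groups at their true heights.
-/

set_option autoImplicit false
set_option linter.unusedSectionVars false
set_option linter.unusedVariables false

noncomputable section

open MeasureTheory Finset Filter Topology Complex
open PLX (Fil Ends)

namespace PLT

open PHK hiding mfo6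
open NUMF (l l_pos)
open NUGC (ES Sr Sym)
open NUGC.PLX (pE qE gP)
open NUO (Xo ht Tb TW)
open NUSea.PLX.H0 (Inp Gd TG cstF SpI SrcOk srcP ψ0)
open NUDispW (win)
open PotH.PLX (sN sN_true sN_nonneg sN_le le_sN phG)

/-! ### families of groups -/

namespace Cv

attribute [local instance] NUSea.seaP in
/-- symmetric energies with the objects of the six kinds -/
theorem TG_symC {R : Par6} (hP : Ok6 R) {n : ℕ} (g : Fin n → Gd) {r : ℕ} (O : Fin r → Xo) (i : Fin r)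
    (x : NUSea.PLX.H0.IG g) : Sym (obSr6 R (O i)) (TG g x) := by
  obtain ⟨α, hα⟩ := (((NUSp.kG (g x.1).c (g x.1).rt).get x.2).2).chg
  exact NUSea.PLX.H0.sym_ob6 hP hα (O i) _ _

/-- **the exponent of a configuration with at most two groups of spectators**, exact linear term -/
theorem exists_enSXC {SB : SeaCB} {R : Par6} (hP : Ok6 R) {Q : Par7} {kb WB : ℝ} (hWB : 0 ≤ WB)
    (hS : ∀ W CB : ℝ, 0 ≤ W → 0 ≤ CB → EnGCSt SB R Q W CB kb) :
    ∃ (K0 K : ℝ), 0 ≤ K0 ∧ 1 ≤ K ∧ ∀ kap : ℝ, 0 < kap → ∃ ε1 : ℝ, 0 < ε1 ∧ ∀ A κ : ℝ, 0 ≤ A → 0 < κ →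
    ∀ k : ℕ, ∃ (Cc : ℝ) (m0 : ℕ), ∀ [SeaC] [SeaCU SB], ∀ m ≥ m0, ∀ e1 : ℝ, 0 < e1 → e1 ≤ 1 / 100 →
    ∀ εo : ℝ, 0 ≤ εo → εo ≤ ε1 → ∀ n : ℕ, n ≤ 2 → ∀ (g : Fin n → Gd) (p q : ℂ) (I : Inp)
      (B' : Bool → ℝ → ℝ), SpI p q g I B' → (∀ a t, |I.B a t| ≤ WB) →
    (∀ t t', |curC I t - curC I t'| ≤ |t - t'|) → (∀ a, (m : ℝ) / 2 ≤ I.s a) →
    ∀ (r : ℕ) (O : Fin r → Xo) (O' : Fin r → Oc), (r : ℝ) ≤ kb * m →
    (∃ (ε M : ℝ) (e : ℝ → ℝ), IOkC SB Q.lo Q.hi Q.Cp ε M ((1 - e1) * Tb (Real.log m)) e I ∧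
      ε ≤ (m : ℝ) ^ (-κ) ∧ M ≤ Real.log m ^ k) →
    (∃ p n : ℕ, Gs.Fld (datC I O') p n) → (∀ i, OcL R (O i) (O' i)) →
    (∀ i, (O' i).Ok (Q.lo - Q.w) (Q.hi + Q.w) Q.kd A εo Q.c) → (∀ i j, Oc.PrK εo Q.c (O' i) (O' j)) →
    ((∀ a, ∫ t, |I.ν a t| ≤ 2 * K) ∧ ∀ a t, |Sp.wOC (zI I) I a t| ≤ WB + 3 * K) ∧
    ∀ en : ℝ, (∀ μ, ChO O μ → Gs.EQ ksC (fOC R O) μ ≤ en) →
      (datC I O').M0 + (datC I O').En ≤ MF I.s + (∑ i, oneC I R O (curC I) i) + en +
        (∑ i, ∑ d, ES (obSr6 R (O i)) (TG g d)) + 1 / 2 * (∑ d, ∑ d', ES (TG g d) (TG g d')) +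
        (∫ t : ℝ, P t * (I.s true * (I.A true (ga t)).re + I.s false * (I.A false (ga t)).re)) +
        (∑ a, ∫ t, I.s a * P t * I.B a t) -
        2 * (12 * l * curC I p.im + ∑ i, (NUSp.gph true (g i).G + NUSp.gph false (g i).G) *
          curC I (g i).τ) + NUCR.bil (hd (I.s true) (I.η true) (I.η1 true))
            (hd (I.s true) (I.η true) (I.η1 true)) +
        K0 * r + kap * win Finset.univ (fun i => ht (O i)) + Cc := by
  obtain ⟨C0, K, hC0, hK, HS⟩ := exists_spIOk SB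
  obtain ⟨K0, hK0, H⟩ := hS (WB + 3 * K) (2 * K) (by linarith) (by linarith)
  refine ⟨K0, K, hK0, hK, fun kap hkap => ?_⟩
  obtain ⟨ε1, hε1, H⟩ := H kap hkap
  refine ⟨ε1, hε1, fun A κ hA hκ k => ?_⟩
  have H := fun n => H A κ hA hκ k (1 / 4) 15 (by norm_num) (by norm_num) (by norm_num) n
  choose Cc m0 H using H
  obtain ⟨m1, hm1⟩ := @NUGC.PLX.log_pow_small NUSea.seaP (2 * C0) κ 1 0 hκ one_pos
  refine ⟨|Cc 0| + |Cc 1| + |Cc 2|, max m1 (max (m0 0) (max (m0 1) (m0 2))), ?_⟩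
  intro _ hSU m hm e1 he1 he1' εo hεo hεo' n hn g p q I B' hSp hB hL hs1 r O O' hr hok hfld hlnk hobj hprk
  simp only [ge_iff_le, max_le_iff] at hm
  obtain ⟨g1, g2, g3, g4⟩ := hm
  have hmn : m0 n ≤ m := by interval_cases n <;> assumption
  have hCn : Cc n ≤ |Cc 0| + |Cc 1| + |Cc 2| := by
    have a0 := abs_nonneg (Cc 0)
    have a1 := abs_nonneg (Cc 1)
    have a2 := abs_nonneg (Cc 2)
    have b0 := le_abs_self (Cc 0)
    have b1 := le_abs_self (Cc 1)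
    have b2 := le_abs_self (Cc 2)
    interval_cases n <;> linarith
  have hmk := hm1 m g1
  rw [pow_zero, mul_one] at hmk
  obtain ⟨ε, M, e, hI, hε, hM⟩ := hok
  have hCε : C0 * ε ≤ 1 / 2 := by
    have h1 : C0 * ε ≤ C0 * (m : ℝ) ^ (-κ) := mul_le_mul_of_nonneg_left hε (by linarith)
    linarith
  obtain ⟨w0, -, -, -, w4, -⟩ := @HS _ hSU n g p q I B' hSp ε M ((1 - e1) * Tb (Real.log m)) e hI.s0
    hCε hI.cur hI.der
  have hn2 : (n : ℝ) ≤ 2 := by exact_mod_cast hn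
  have hn0 : (0 : ℝ) ≤ n := Nat.cast_nonneg n
  have hmass : ∀ a, ∫ t, |I.ν a t| ≤ 2 * K := fun a => (w4 a).trans (by nlinarith)
  have hwO : ∀ a t, |Sp.wOC (zI I) I a t| ≤ WB + 3 * K := by
    intro a t
    refine (w0 a t).trans (add_le_add (hB a t) ?_)
    nlinarith
  refine ⟨⟨hmass, hwO⟩, fun en hen => ?_⟩
  have hE : EnOkC SB Q A εo e1 κ (WB + 3 * K) (2 * K) kb k m I R O O' (TG g) :=
    { s1 := hs1
      rk := hr
      ok := ⟨ε, M, e, hI, hε, hM⟩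
      lip := hL
      fld := hfld
      lnk := hlnk
      obj := hobj
      prk := hprk
      Tok := NUSea.PLX.H0.TG_ok g
      sy := fun i d => TG_symC hP g O i d
      nu := fun a => by rw [hSp.ν]
      tau := hSp.τ
      mass := hmass
      w0 := hwO }
  have hl := l_pos
  have h1 := @H n _ hSU m hmn e1 he1 he1' εo hεo hεo' I r O O' _ _ (TG g) hE en hen p q
    (fun i => (g i).G) (fun i => (g i).τ) (NUSea.PLX.H0.away_p hSp.hp) (NUSea.PLX.H0.away_q hSp.hq)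
    hSp.him (by rw [hSp.hp, abs_neg, abs_of_pos (by positivity)]; linarith)
    (by rw [hSp.hq, abs_of_pos (by positivity)]; linarith)
    (fun i => (g i).ok) (fun i => NUSp.gn_grp _ _ _)
    (fun a z _ => by rw [hSp.A, @NUSea.PLX.H0.sum_fD NUSea.seaP])
  linarith

end Cv

/-! ### potentials against the sea -/

section

variable (SB : SeaCB) [SeaC] [SeaCU SB]

include SB

/-- a bounded potential against the sea -/
private lemma int_bd {f : ℝ → ℝ} {C : ℝ} (s : ℝ) (hc : Continuous f) (hb : ∀ t, |f t| ≤ C) :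
    Integrable fun t => s * Cv.P t * f t :=
  ((Cv.P_int SB).const_mul s).mul_bdd (c := C) hc.aestronglyMeasurable (ae_of_all _ hb)

/-- the potential of the ends against the sea -/
private lemma th_int (s : ℝ) (a : Bool) :
    Integrable fun t => s * Cv.P t * (NUSp.DD pE qE [] a (Cv.ga t)).re := by
  have hp : NUO.Away (1 / 4) pE := NUSea.PLX.H0.away_p (by unfold pE; rw [Complex.ofReal_re])
  have hq : NUO.Away (1 / 4) qE := NUSea.PLX.H0.away_q (by unfold qE; rw [Complex.ofReal_re])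
  have him : (qE : ℂ).im = (pE : ℂ).im := by unfold pE qE; rw [Complex.ofReal_im, Complex.ofReal_im]
  have e1 : ∀ t : ℝ, NUSp.DD pE qE [] a (Cv.ga t) = NUSp.th pE qE (Cv.ga t) := fun t => by
    unfold NUSp.DD
    simp
  have hB := NUSp.potB_th l5pos NUSea.PLX.H0.l5 hp hq him
  have hA := NUSp.asy_th NUSea.PLX.H0.l5 hp hq him
  have c1 : Continuous fun t : ℝ => (NUSp.th pE qE (Cv.ga t)).re :=
    Complex.continuous_re.comp ((NUSp.continuous_f hB).comp_continuous Cv.continuous_ga ga_im_lt)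
  have hκ := hA.κ0 l5pos
  refine (int_bd SB s c1 (C := 2 * NUSp.ka (1 / 4) (l / 5)) fun t => ?_).congr (ae_of_all _ fun t => ?_)
  · have h1 := NUSp.re_le_z hA (ga_im_lt t)
    rw [zero_mul, add_zero, sub_zero] at h1
    refine h1.trans (mul_le_of_le_one_right hκ (Real.exp_le_one_iff.2 ?_))
    have := abs_nonneg ((Cv.ga t).re - (pE : ℂ).im)
    linarith
  · simp only [e1]

/-- the potentials of the ends and of the groups against the sea -/
theorem int_AC (s : Bool → ℝ) {n : ℕ} (g : Fin n → Gd) :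
    (∫ t : ℝ, Cv.P t * (s true * (NUSp.DD pE qE (List.ofFn fun i => (g i).G) true (Cv.ga t)).re +
      s false * (NUSp.DD pE qE (List.ofFn fun i => (g i).G) false (Cv.ga t)).re)) =
      (∑ i, seaGC s (g i)) + ∑ a, ∫ t, s a * Cv.P t * (NUSp.DD pE qE [] a (Cv.ga t)).re := by
  have e0 : ∀ (a : Bool) (z : ℂ), (NUSp.DD pE qE (List.ofFn fun i => (g i).G) a z).re =
      (NUSp.DD pE qE [] a z).re + ∑ i, (NUSp.gp a (g i).G z).re := fun a z => by
    rw [NUSea.PLX.H0.DD_sum]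
    congr 1
    unfold NUSp.DD
    simp
  have i1 := fun a => th_int SB (s a) a
  have i2 : ∀ a, Integrable fun t => s a * Cv.P t * ∑ i, (NUSp.gp a (g i).G (Cv.ga t)).re := fun a => by
    refine (integrable_finsetSum Finset.univ fun i _ => gpC_int SB (g i) a (s a)).congr
      (ae_of_all _ fun t => ?_)
    simp only
    rw [Finset.mul_sum]
  rw [← sum_seaGC SB s g, ← Finset.sum_add_distrib, Fintype.sum_bool,
    ← integral_add (i2 true) (i1 true), ← integral_add (i2 false) (i1 false)]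
  have i3 : ∀ a, Integrable fun t => s a * Cv.P t * ∑ i, (NUSp.gp a (g i).G (Cv.ga t)).re +
      s a * Cv.P t * (NUSp.DD pE qE [] a (Cv.ga t)).re := fun a => (i2 a).add (i1 a)
  rw [← integral_add (i3 true) (i3 false)]
  refine integral_congr_ae (ae_of_all _ fun t => ?_)
  simp only
  rw [e0, e0]
  ring

variable [Fil] [Ends]

/-- **the real potentials against the sea** -/
theorem int_BC {η η1 : ℝ → ℝ} {m : ℕ} {T1 b' : ℝ} {n : ℕ} (g : Fin n → Gd) {B1 : ℝ → ℝ}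
    {H : Bool → ℝ → ℝ} {KB B0 : ℝ} (hm : 1 ≤ m) (hBi : Integrable fun t => (m : ℝ) * Cv.P t * B1 t)
    (hBc : ∀ a, Continuous (Sp.BF T1 g (zC η a) a)) (hK : ∀ (a : Bool) (t : ℝ), |Sp.BF T1 g (zC η a) a t| ≤ KB)
    (hHc : ∀ a, Continuous (H a)) (hH : ∀ a t, |H a t| ≤ B0) :
    (∑ a, ∫ t, (inC η η1 m T1 b' g B1 H).s a * Cv.P t * (inC η η1 m T1 b' g B1 H).B a t) =
      (∑ a, ∫ t, sN m a * Cv.P t * B1 t) + (∑ a, ∫ t, sN m a * Cv.P t * Sp.BF T1 g (zC η a) a t) +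
        (∑ a, ∫ t, sN m a * Cv.P t * H a t) - b' / 2 * (sN m true + sN m false) := by
  have hmp : (0 : ℝ) < m := by exact_mod_cast hm
  have hi := fun a => int_bd SB (sN m a) (hBc a) (hK a)
  have hj := fun a => int_bd SB (sN m a) (hHc a) (hH a)
  have hB : ∀ a, Integrable fun t => sN m a * Cv.P t * B1 t := by
    intro a
    refine (hBi.const_mul (sN m a / m)).congr (Eventually.of_forall fun t => ?_)
    simp only
    field_simp
  have h1 : ∀ a, (∫ t, (inC η η1 m T1 b' g B1 H).s a * Cv.P t * (inC η η1 m T1 b' g B1 H).B a t) =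
      (∫ t, sN m a * Cv.P t * B1 t) + (∫ t, sN m a * Cv.P t * Sp.BF T1 g (zC η a) a t) +
        (∫ t, sN m a * Cv.P t * H a t) - b' / 2 * sN m a := by
    intro a
    have h2 : ∀ t, (inC η η1 m T1 b' g B1 H).s a * Cv.P t * (inC η η1 m T1 b' g B1 H).B a t =
        (sN m a * Cv.P t * B1 t + sN m a * Cv.P t * Sp.BF T1 g (zC η a) a t + sN m a * Cv.P t * H a t) -
          (b' / 2 * sN m a) * Cv.P t := by
      intro t
      show sN m a * Cv.P t * (B1 t + Sp.BF T1 g (zC η a) a t + H a t - b' / 2) = _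
      ring
    simp_rw [h2]
    have h3 : Integrable fun t => sN m a * Cv.P t * B1 t + sN m a * Cv.P t * Sp.BF T1 g (zC η a) a t :=
      (hB a).add (hi a)
    have h4 : Integrable fun t => sN m a * Cv.P t * B1 t + sN m a * Cv.P t * Sp.BF T1 g (zC η a) a t +
        sN m a * Cv.P t * H a t := h3.add (hj a)
    rw [integral_sub h4 ((Cv.P_int SB).const_mul _), integral_add h3 (hj a),
      integral_add (hB a) (hi a), integral_const_mul, Cv.P_mass, mul_one]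
  rw [Fintype.sum_bool, h1, h1, Fintype.sum_bool, Fintype.sum_bool, Fintype.sum_bool]
  ring

/-- the linear term of a potential with a source -/
theorem linC_src {η η1 : ℝ → ℝ} {m : ℕ} {T1 : ℝ} {n : ℕ} {g : Fin n → Gd} {H : Bool → ℝ → ℝ}
    {ν : Bool → ℝ → ℝ} {τ : ℝ → ℝ} {s B0 : ℝ} (hs : SrcOk s ν τ)
    (hc : ∀ a, Continuous fun t => H a t - srcP ν τ a t) (hb : ∀ a t, |H a t - srcP ν τ a t| ≤ B0) :
    linC η η1 m g T1 H = NUCR.bil (Cv.hd m η η1) (Cv.hd m η η1) - 24 * NUMF.l * crC η m 0 -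
      2 * (∑ i, phG (g i) * crC η m (NUSp.pin T1 (g i).τ)) +
      (∑ a, ∫ t, sN m a * Cv.P t * (NUSp.DD pE qE [] a (Cv.ga t)).re) +
      (∑ a, ∫ t, sN m a * Cv.P t * (H a t - srcP ν τ a t)) +
      ∑ a, ∫ t, sN m a * Cv.P t * srcP ν τ a t := by
  have i1 := fun a => th_int SB (sN m a) a
  have i2 := fun a => int_bd SB (sN m a) (hc a) (hb a)
  have i3 := fun a => int_bd SB (sN m a) (hs.cont a) (hs.le a)
  have h1 : ∀ a, ∫ t, sN m a * Cv.P t * ((NUSp.DD pE qE [] a (Cv.ga t)).re + H a t) =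
      (∫ t, sN m a * Cv.P t * (NUSp.DD pE qE [] a (Cv.ga t)).re) +
      (∫ t, sN m a * Cv.P t * (H a t - srcP ν τ a t)) + ∫ t, sN m a * Cv.P t * srcP ν τ a t := by
    intro a
    have i12 : Integrable fun t => sN m a * Cv.P t * (NUSp.DD pE qE [] a (Cv.ga t)).re +
      sN m a * Cv.P t * (H a t - srcP ν τ a t) := (i1 a).add (i2 a)
    rw [← integral_add (i1 a) (i2 a), ← integral_add i12 (i3 a)]
    refine integral_congr_ae (ae_of_all _ fun t => ?_)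
    simp only
    ring
  unfold linC
  rw [Fintype.sum_bool, Fintype.sum_bool, Fintype.sum_bool, Fintype.sum_bool, h1 true, h1 false]
  ring

end

/-! ### the exponent -/

attribute [local instance] NUSea.seaP in
private theorem phG_pinC (T : ℝ) (g : Gd) : phG (g.pin T) = phG g := PotH.PLX.phG_pin T g

/-- the slope of the current of an admissible curve -/
private theorem hd_le1 (SB : SeaCB) [SeaC] [SeaCU SB] {e1 Cc : ℝ} {m : ℕ} {η η1 : ℝ → ℝ}
    (h : CrvP e1 Cc m η η1) (t : ℝ) : |Cv.hd m η η1 t| ≤ 1 := by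
  have h1 := Cv.hasDerivAt_hd SB (m : ℝ) h.d t
  have h2 : LipschitzWith 1 fun t => (m : ℝ) * Cv.P t * η t := by
    refine LipschitzWith.of_dist_le_mul fun x y => ?_
    rw [Real.dist_eq, Real.dist_eq, NNReal.coe_one, one_mul]
    exact h.lip x y
  have h3 := norm_deriv_le_of_lipschitz h2 (x₀ := t)
  rw [h1.deriv, NNReal.coe_one, Real.norm_eq_abs] at h3
  exact h3

/-- **the exponent of the data with groups, a potential and its source**: exact linear term `linC`, full current on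
the objects, sea terms of the groups at their true heights -/
theorem exists_enHC [Fil] [Ends] (SB : SeaCB) {P : Par6} (hP : Ok6 P) {Q : Cv.Par7} (hQ : Q.Ok) {kb : ℝ}
    (hS : ∀ W CB : ℝ, 0 ≤ W → 0 ≤ CB → Cv.EnGCSt SB P Q W CB kb) {W B0 : ℝ} (hW : 0 ≤ W) (hB0 : 0 ≤ B0) :
    ∃ K0 : ℝ, 0 ≤ K0 ∧ ∀ kap : ℝ, 0 < kap → ∃ ε1 : ℝ, 0 < ε1 ∧ ∀ A : ℝ, 0 ≤ A →
    ∀ ep : ℝ, 0 < ep → ep ≤ 1 / 100 → ∀ e1 : ℝ, 0 < e1 → e1 ≤ 1 / 100 → ∀ Cc : ℝ, 0 ≤ Cc →
    ∀ (k : ℕ) (κ C : ℝ), 0 < κ → ∃ (C1 : ℝ) (m0 : ℕ), ∀ [SeaC] [SeaCU SB], ∀ m ≥ m0,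
    ∀ εo : ℝ, 0 ≤ εo → εo ≤ ε1 → ∀ η η1 : ℝ → ℝ, CrvP e1 Cc m η η1 → ∀ b' : ℝ, |b'| ≤ 1 →
    ∀ n : ℕ, n ≤ 2 → ∀ (g : Fin n → Gd) (T1 : ℝ), TW ep e1 m ≤ T1 →
    ∀ B1 : ℝ → ℝ, ContDiff ℝ 1 B1 → (∀ t, 0 ≤ B1 t) → (∀ t, B1 t ≤ W) →
    Integrable (fun t => (m : ℝ) * Cv.P t * B1 t) → (∫ t, (m : ℝ) * Cv.P t * B1 t) ≤ C →
    ∀ (H H0' : Bool → ℝ → ℝ) (νs : Bool → ℝ → ℝ) (τs : ℝ → ℝ), SrcOk B0 νs τs →
    (∀ a t, HasDerivAt (fun t => H a t - srcP νs τs a t) (H0' a t) t) → (∀ a, Continuous (H0' a)) →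
    (∀ a t, |H a t - srcP νs τs a t| ≤ B0) →
    ∀ (r : ℕ) (O : Fin r → Xo) (O' : Fin r → Cv.Oc), (r : ℝ) ≤ kb * m →
    (∃ (ε M : ℝ) (e : ℝ → ℝ), Cv.IOkC SB Q.lo Q.hi Q.Cp ε M ((1 - e1) * Tb (Real.log m)) e
      (inC η η1 m T1 b' g B1 fun a t => H a t - srcP νs τs a t) ∧
      ε ≤ (m : ℝ) ^ (-κ) ∧ M ≤ Real.log m ^ k) →
    (∃ p q : ℕ, Gs.Fld (Cv.datC (inC η η1 m T1 b' g B1 fun a t => H a t - srcP νs τs a t) O') p q) →
    (∀ i, Cv.OcL P (O i) (O' i)) → (∀ i, (O' i).Ok (Q.lo - Q.w) (Q.hi + Q.w) Q.kd A εo Q.c) →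
    (∀ i j, Cv.Oc.PrK εo Q.c (O' i) (O' j)) →
    ∀ en : ℝ, (∀ μ, ChO O μ → Gs.EQ Cv.ksC (Cv.fOC P O) μ ≤ en) →
      (Cv.datC (NUSea.PLX.H0.addS (inC η η1 m T1 b' g B1 fun a t => H a t - srcP νs τs a t) νs τs ψ0) O').M0 +
      (Cv.datC (NUSea.PLX.H0.addS (inC η η1 m T1 b' g B1 fun a t => H a t - srcP νs τs a t) νs τs ψ0) O').En ≤
        Cv.MF (sN m) +
        (∑ i, (Cv.mfo6 (sN m) (parts6 P (O i)) -
          2 * Real.pi * wind6 (k6 (O i)) * crC η m (ht (O i)))) + en +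
        (∑ i, ∑ d, ES (obSr6 P (O i)) (TG (gP T1 g) d)) +
        1 / 2 * (∑ d, ∑ d', ES (TG (gP T1 g) d) (TG (gP T1 g) d')) +
        (∑ i, seaGC (sN m) (g i)) + cstF T1 g true * (Fil.xe m : ℕ) -
        b' / 2 * (sN m true + sN m false) + linC η η1 m g T1 H +
        K0 * r + kap * win Finset.univ (fun i => ht (O i)) + C1 := by
  obtain ⟨Kp, hKp, HP⟩ := exists_pth SB
  obtain ⟨Kb, hKb, HB⟩ := Sp.exists_BF hKp
  obtain ⟨WB, hWB⟩ : ∃ WB, WB = W + Kb * 2 + 1 / 2 + B0 := ⟨_, rfl⟩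
  have hWB0 : 0 ≤ WB := by rw [hWB]; positivity
  obtain ⟨K1, Kc, hK1, hKc, HX⟩ := Cv.exists_enSXC hP hWB0 hS
  obtain ⟨K2, hK2, HR⟩ := Cv.exists_srcC SB hQ (s := B0) (Cν := 2 * Kc) (W := WB + 3 * Kc) hB0
    (by linarith) (by linarith)
  refine ⟨K1 + K2, by linarith, fun kap hkap => ?_⟩
  obtain ⟨ε1, hε1, HX⟩ := HX (kap / 2) (by positivity)
  refine ⟨min ε1 1, lt_min hε1 one_pos, fun A hA ep hep hep1 e1 he he1 Cc hCc k κ C hκ => ?_⟩
  obtain ⟨C1, m1, HX⟩ := HX A κ hA hκ k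
  obtain ⟨C2, m2, hC2, HR⟩ := HR (kap / 2) (by positivity) A hA κ hκ k
  obtain ⟨CS, m3, hCS, HS⟩ := seaLinC_abs SB hep he he1 hCc
  obtain ⟨m4, hm4, HP⟩ := HP ep hep e1 he he1
  obtain ⟨m5, hm5, HWn⟩ := exists_win he
  refine ⟨C1 + C2 + CS + 2 * ((Fil.qo : ℕ) * C), max (max m1 m2) (max m3 (max m4 m5)), ?_⟩
  intro _ hSU m hm εo hεo hεo' η η1 hc b' hb' n hn g T1 hT1 B1 hB hB0' hB1 hBi hBC Hp H0' νs τs hs hHd hHc
    hHb r O O' hr hok hfld hlnk hobj hprk en hen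
  simp only [ge_iff_le, max_le_iff] at hm
  obtain ⟨⟨g1, g2⟩, g3, g4, g5⟩ := hm
  have hmm : 1 ≤ m := by omega
  have hmp : (0 : ℝ) < m := by exact_mod_cast hmm
  obtain ⟨w1, w2⟩ := HWn m g5 ep hep
  have hTb : 0 ≤ Tb (Real.log m) := by
    show 0 ≤ 3 / 8 * Real.log m
    linarith
  have hT0 : 0 ≤ T1 := by
    have : 0 ≤ (1 - e1) * Tb (Real.log m) := mul_nonneg (by linarith) hTb
    linarith
  have HBa := fun a => HB n g T1 (zC η a) (zC' η η1 a) hT0 (@HP _ _ hSU m g4 Cc η η1 hc T1 hT1 a)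
  have p1 := fun a => (HBa a).1 a
  have p2 := fun a => (HBa a).2.1 a
  have hn2 : (n : ℝ) ≤ 2 := by exact_mod_cast hn
  have p5 : ∀ (a : Bool) (t : ℝ), |Sp.BF T1 g (zC η a) a t| ≤ Kb * 2 := fun a t =>
    ((HBa a).2.2.2.2.1 a t).trans (mul_le_mul_of_nonneg_left hn2 (by linarith))
  have hBFc : ∀ a, Continuous (Sp.BF T1 g (zC η a) a) := fun a =>
    continuous_iff_continuousAt.2 fun t => (p1 a t).continuousAt
  have hH0c : ∀ a, Continuous fun t => Hp a t - srcP νs τs a t := fun a =>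
    continuous_iff_continuousAt.2 fun t => (hHd a t).continuousAt
  obtain ⟨I, hI⟩ : ∃ I, I = inC η η1 m T1 b' g B1 fun a t => Hp a t - srcP νs τs a t := ⟨_, rfl⟩
  have SI : SpI pE qE (gP T1 g) I
      (fun a t => deriv B1 t + Sp.BF1 T1 g (zC η a) (zC' η η1 a) a t + H0' a t) := by
    rw [hI]
    exact
      { hp := by unfold pE; rw [Complex.ofReal_re]
        hq := by unfold qE; rw [Complex.ofReal_re]
        him := by unfold pE qE; rw [Complex.ofReal_im, Complex.ofReal_im]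
        A := fun a z => rfl
        ν := rfl
        τ := rfl
        dB := fun a t => ((((hB.differentiable one_ne_zero t).hasDerivAt).add (p1 a t)).add
          (hHd a t)).sub_const _
        cB := fun a => ((hB.continuous_deriv le_rfl).add (p2 a)).add (hHc a) }
  have hBb : ∀ a t, |I.B a t| ≤ WB := by
    intro a t
    rw [hI, hWB]
    show |B1 t + Sp.BF T1 g (zC η a) a t + (Hp a t - srcP νs τs a t) - b' / 2| ≤ _
    have h1 := hB0' t
    have h2 := hB1 t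
    have h3 := abs_le.1 (p5 a t)
    have h4 := abs_le.1 hb'
    have h5 := abs_le.1 (hHb a t)
    rw [abs_le]
    constructor <;> linarith [h3.1, h3.2, h4.1, h4.2, h5.1, h5.2]
  have hcur : Cv.curC I = crC η m := by
    funext t
    rw [hI]
    show sN m true * Cv.P t * Fil.cv true η t = (m : ℝ) * Cv.P t * η t
    rw [sN_true hmm, Fil.cv_true]
  have hs1 : ∀ a, (m : ℝ) / 2 ≤ I.s a := fun a => by
    rw [hI]
    exact (by linarith : (m : ℝ) / 2 ≤ m).trans (le_sN m a)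
  have hhd : Cv.hd (I.s true) (I.η true) (I.η1 true) = Cv.hd m η η1 := by
    rw [hI]
    show Cv.hd (sN m true) (Fil.cv true η) (Fil.cv true η1) = _
    rw [sN_true hmm, Fil.cv_true, Fil.cv_true]
  rw [← hI] at hok hfld
  rw [← hI]
  obtain ⟨⟨hν, hw⟩, h1⟩ := @HX _ hSU m g1 e1 he he1 εo hεo (hεo'.trans (min_le_left _ _)) n hn (gP T1 g)
    pE qE I _ SI hBb (by rw [hcur]; exact hc.lip) hs1 r O O' hr hok hfld hlnk hobj hprk
  have h1 := h1 en hen
  have h2 := @HR _ hSU m g2 ((1 - e1) * Tb (Real.log m)) I hok hs1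
    (fun t => by rw [hhd]; exact hd_le1 SB hc t) r O' εo hobj (hεo'.trans (min_le_right _ _)) _ _
    (TG (gP T1 g)) (NUSea.PLX.H0.TG_ok _) (fun a => by rw [SI.ν]) SI.τ hν hw νs τs hs
  have hwin : (fun i => (O' i).h) = fun i => ht (O i) := funext fun i => (hlnk i).h
  rw [hwin] at h2
  have h3 := (abs_le.1 (@HS _ hSU m g3 η η1 hc n hn g T1 hT1)).2
  have e1' : (∫ t : ℝ, Cv.P t * (I.s true * (I.A true (Cv.ga t)).re + I.s false * (I.A false (Cv.ga t)).re)) =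
      (∑ i, seaGC (sN m) (gP T1 g i)) +
        ∑ a, ∫ t, sN m a * Cv.P t * (NUSp.DD pE qE [] a (Cv.ga t)).re := by
    rw [hI]
    exact int_AC SB (sN m) (gP T1 g)
  have e2' : (∑ a, ∫ t, I.s a * Cv.P t * I.B a t) = (∑ a, ∫ t, sN m a * Cv.P t * B1 t) +
      (∑ a, ∫ t, sN m a * Cv.P t * Sp.BF T1 g (zC η a) a t) +
        (∑ a, ∫ t, sN m a * Cv.P t * (Hp a t - srcP νs τs a t)) - b' / 2 * (sN m true + sN m false) := by
    rw [hI]
    exact int_BC SB g hmm hBi hBFc p5 hH0c hHb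
  have e3' := linC_src SB (η := η) (η1 := η1) (m := m) (T1 := T1) (g := g) (H := Hp) hs hH0c hHb
  have e4' : (∑ a, ∫ t, I.s a * Cv.P t * srcP νs τs a t) = ∑ a, ∫ t, sN m a * Cv.P t * srcP νs τs a t := by
    rw [hI]
    rfl
  have e5' : (∑ i, Cv.oneC I P O (crC η m) i) = ∑ i, (Cv.mfo6 (sN m) (parts6 P (O i)) -
      2 * Real.pi * wind6 (k6 (O i)) * crC η m (ht (O i))) := by
    rw [hI]
    rfl
  have e6' : Cv.MF I.s = Cv.MF (sN m) := by rw [hI]; rfl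
  have e7' : (pE : ℂ).im = 0 := by unfold pE; rw [Complex.ofReal_im]
  have e8' : (∑ i, (NUSp.gph true (gP T1 g i).G + NUSp.gph false (gP T1 g i).G) *
      crC η m (gP T1 g i).τ) = ∑ i, phG (g i) * crC η m (NUSp.pin T1 (g i).τ) :=
    Finset.sum_congr rfl fun i _ => by
      show phG ((g i).pin T1) * _ = _
      rw [phG_pinC]
      rfl
  have h8 : ∀ a, ∫ t, sN m a * Cv.P t * B1 t ≤ (Fil.qo : ℕ) * C := by
    intro a
    have e1 : (∫ t, sN m a * Cv.P t * B1 t) = sN m a / m * ∫ t, (m : ℝ) * Cv.P t * B1 t := by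
      rw [← integral_const_mul]
      refine integral_congr_ae (ae_of_all _ fun t => ?_)
      simp only
      field_simp
    have e2 : 0 ≤ ∫ t, (m : ℝ) * Cv.P t * B1 t := integral_nonneg fun t =>
      mul_nonneg (mul_nonneg hmp.le (Cv.P_pos SB t).le) (hB0' t)
    have e3 : sN m a / m ≤ (Fil.qo : ℕ) := by
      rw [div_le_iff₀ hmp]
      exact sN_le hmm a
    rw [e1]
    exact mul_le_mul e3 hBC e2 (Nat.cast_nonneg _)
  have h9 : (∑ a, ∫ t, sN m a * Cv.P t * B1 t) ≤ 2 * ((Fil.qo : ℕ) * C) := by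
    rw [Fintype.sum_bool]
    linarith [h8 true, h8 false]
  have hz : (∑ a, ∫ t, sN m a * Cv.P t * Sp.BF T1 g (Cv.zt (Cv.gD (Fil.cv a η))) a t) =
      ∑ a, ∫ t, sN m a * Cv.P t * Sp.BF T1 g (zC η a) a t := rfl
  rw [hz] at h3
  rw [hcur, e5', e6', e1', e2', hhd, e7', e8'] at h1
  rw [e4'] at h2
  rw [e3']
  linarith

end PLT

end
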