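import Pool.Agent.PLT.PotS
import Pool.Agent.PLT.EQ
import Pool.Agent.PHK.Dsp

/-!
# The potential of an object on the static curve and on the real axis

* `re_fO6_real`: on the real axis the potential is that of the source `obSr6`;
* `fO6_lip`: the potential is Lipschitz in the strip;
* **`fO6_curve`**: the potentials on the curve and on the axis differ by at most `5 GS δ |eta t|`;
* **`Fq_FO6_src`**: the potentials on the curve against a family of sources: the energies `ES`, up to `K` times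
  the mass, per object.
-/

set_option autoImplicit false
set_option linter.unusedSectionVars false

open MeasureTheory Set Filter Topology Complex

namespace PLT.Cv

open NUMF (l l_pos V)
open NUO (Xo ht sp)
open NUC43 NUGC
open PHK

noncomputable section

variable {δ lo hi : ℝ} {P : Par6}

lemma cf6_offC (h : PGC δ lo hi P) (K : Kd6) : ∀ y ∈ cf6 P K, NUO.Off δ y.1.2.2 := by
  have h1 := h.lo0
  have h2 := h.hi0
  have t1 : NUO.Off δ (3 / 2) := h.oT.off h1 h2
  have s2 : NUO.Off δ (2 + P.e) := by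
    have := NUDispP.Off_int (h.oe.off h1 h2) 2
    push_cast at this
    rwa [add_comm P.e 2] at this
  cases K <;> simp only [cf6, List.forall_mem_cons]
  · exact ⟨h.oL.off h1 h2, by simp⟩
  · exact ⟨t1, by simp⟩
  · exact ⟨s2, h.oe.off h1 h2, by simp⟩
  · exact ⟨s2, h.oe.off h1 h2, h.oe.off h1 h2, by simp⟩
  · exact ⟨h.o1.off h1 h2, by simp⟩
  · exact ⟨h.o2.off h1 h2, by simp⟩

/-- **the potential on the real axis** -/
theorem re_fO6_real (h : PGC δ lo hi P) (x : Xo) (a : Bool) (t : ℝ) :
    (fO6 P x a (t : ℂ)).re = (obSr6 P x).p a (t - ht x) := by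
  have hz1 : lo ≤ (t : ℂ).im := by rw [Complex.ofReal_im]; exact h.lo0
  have hz2 : (t : ℂ).im ≤ hi := by rw [Complex.ofReal_im]; exact h.hi0
  have h1 := exp_fO6C h hz1 hz2 (r := 1) (fun _ => x) 0 a
  have h2 := log_potN6 (y := 0) h.δ0 h.δ1 P (r := 1) (fun _ => x) 0 a t (fun p hp => by
    rw [zero_div, sub_zero]
    exact cf6_offC h _ p hp)
  have e0 : NUP1.vl (NUP1.l - 0) t = (l : ℂ) + I * (t : ℂ) := by
    unfold NUP1.vl
    have : NUP1.l = l := rfl
    rw [this]
    push_cast
    ring
  rw [e0, h1, Real.log_exp] at h2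
  have e1 : (obSr6 P x).p a (t - ht x) = kS6 P (sp x == a) (k6 x) (t - ht x) := by
    unfold Sr.p obSr6 chSr kS6
    split_ifs <;> rfl
  rw [e1, ← PT6_base]
  simpa using h2

/-- **the potential is Lipschitz in the strip** -/
theorem fO6_lip (h : PGC δ lo hi P) (x : Xo) (a : Bool) {z w : ℂ} (hz1 : lo ≤ z.im) (hz2 : z.im ≤ hi)
    (hw1 : lo ≤ w.im) (hw2 : w.im ≤ hi) : ‖fO6 P x a z - fO6 P x a w‖ ≤ 5 * GS δ * ‖z - w‖ := by
  have hG := GS_pos h.δ0 h.δ1
  rw [fO6_gq, fO6_gq]
  have e1 : ∀ L : List (Bool × ℝ × ℤ), (∀ p ∈ L, OffS δ lo hi p.2.1) →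
      ‖(L.map fun p => ((p.2.2 : ℝ) : ℂ) * gq (qsp p.1 (sp x)) p.2.1 (ht x) a z).sum -
        (L.map fun p => ((p.2.2 : ℝ) : ℂ) * gq (qsp p.1 (sp x)) p.2.1 (ht x) a w).sum‖ ≤
        (L.map fun p => |(p.2.2 : ℝ)| * (GS δ * ‖z - w‖)).sum := by
    intro L hL
    induction L with
    | nil => simp
    | cons p L ih =>
      rw [List.map_cons, List.map_cons, List.map_cons, List.sum_cons, List.sum_cons, List.sum_cons]
      have h3 := ih fun q hq => hL q (by simp [hq])
      have h4 : ‖((p.2.2 : ℝ) : ℂ) * gq (qsp p.1 (sp x)) p.2.1 (ht x) a z -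
          ((p.2.2 : ℝ) : ℂ) * gq (qsp p.1 (sp x)) p.2.1 (ht x) a w‖ ≤
          |(p.2.2 : ℝ)| * (GS δ * ‖z - w‖) := by
        rw [← mul_sub, norm_mul, Complex.norm_real, Real.norm_eq_abs]
        exact mul_le_mul_of_nonneg_left (gqS_lip' (hL p (by simp)) h.δ0 h.lo0 h.hi0 h.δ1 hz1 hz2 hw1 hw2)
          (abs_nonneg _)
      refine le_trans (le_of_eq ?_) ((norm_add_le _ _).trans (add_le_add h4 h3))
      congr 1
      ring
  refine (e1 _ (h.off (k6 x))).trans ((sum_abs_offK6 P _ (by positivity)).trans (le_of_eq ?_))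
  ring

variable [SeaC]

/-- **the potential on the curve and on the axis** -/
theorem fO6_curve (h : PGC δ lo hi P) (hw : ∀ t, lo ≤ eta t ∧ eta t ≤ hi) (x : Xo) (a : Bool) (t : ℝ) :
    |(fO6 P x a (ga t)).re - (obSr6 P x).p a (t - ht x)| ≤ 5 * GS δ * |eta t| := by
  have hG := GS_pos h.δ0 h.δ1
  rw [← re_fO6_real h, ← Complex.sub_re]
  refine (Complex.abs_re_le_norm _).trans ?_
  have h1 := fO6_lip h x a (z := ga t) (w := (t : ℂ)) (by rw [ga_im]; exact (hw t).1)
    (by rw [ga_im]; exact (hw t).2) (by rw [Complex.ofReal_im]; exact h.lo0)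
    (by rw [Complex.ofReal_im]; exact h.hi0)
  refine h1.trans (mul_le_mul_of_nonneg_left ?_ (by positivity))
  have e : ga t - (t : ℂ) = (eta t : ℂ) * I := by
    apply Complex.ext <;> simp
  rw [e, norm_mul, Complex.norm_I, mul_one, Complex.norm_real, Real.norm_eq_abs]

/-- the potentials of the objects on the curve -/
def fOC (P : Par6) {r : ℕ} (O : Fin r → Xo) (a : Bool) (t : ℝ) : ℝ := (FO6 P O a (ga t)).re

/-- the potentials of the objects can be paired with the densities -/
theorem pk_fOC (h : PGC δ lo hi P) (hw : ∀ t, lo ≤ eta t ∧ eta t ≤ hi) {r : ℕ} (O : Fin r → Xo) :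
    Gs.Pk (fOC P O) := by
  have hA := AS_pos h.δ0 h.δ1
  refine Gs.pk_of (A := 5 * AS δ * ∑ i, (1 + |ht (O i)|)) (fun a => ?_) fun a t => ?_
  · have hcg : Continuous ga := continuous_ga
    refine Complex.continuous_re.comp (continuous_iff_continuousAt.2 fun t => ?_)
    have h1 := (hasDerivAt_FO6C h (z := ga t) (by rw [ga_im]; exact (hw t).1)
      (by rw [ga_im]; exact (hw t).2) O a).continuousAt
    exact ContinuousAt.comp (f := ga) (g := FO6 P O a) h1 hcg.continuousAt
  · unfold fOC
    refine (Complex.abs_re_le_norm _).trans ?_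
    refine (norm_FO6C h (z := ga t) (by rw [ga_im]; exact (hw t).1) (by rw [ga_im]; exact (hw t).2) O a).trans ?_
    rw [mul_assoc (5 * AS δ)]
    refine mul_le_mul_of_nonneg_left ?_ (by positivity)
    rw [Finset.sum_mul]
    refine Finset.sum_le_sum fun i _ => ?_
    rw [ga_re]
    have h1 := abs_sub t (ht (O i))
    have h2 := abs_nonneg t
    have h3 := abs_nonneg (ht (O i))
    nlinarith

/-- **the potentials of the objects on the curve against a family of sources** -/
theorem Fq_fOC_src (hP : Ok6 P) (h : PGC δ lo hi P) (hw : ∀ t, lo ≤ eta t ∧ eta t ≤ hi)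
    {κ : Type*} [Fintype κ] {T : κ → Sr} (hT : ∀ d, (T d).Ok) {r : ℕ} (O : Fin r → Xo)
    (hs : ∀ i d, Sym (obSr6 P (O i)) (T d)) {A : ℝ} (hA : ∀ a, ∫ t, |muS T a t| ≤ A) :
    |Gs.Fq (fOC P O) (muS T) - ∑ i, ∑ d, ES (obSr6 P (O i)) (T d)| ≤
      10 * GS δ * (|lo| + |hi|) * A * r := by
  have hG := GS_pos h.δ0 h.δ1
  have dT := fun a => dn_muS hT a
  have hA0 : 0 ≤ A := (integral_nonneg fun _ => abs_nonneg _).trans (hA true)
  -- object by object
  have e1 : Gs.Fq (fOC P O) (muS T) = ∑ i, ∑ a, ∫ t, muS T a t * (fO6 P (O i) a (ga t)).re := by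
    unfold Gs.Fq
    rw [Finset.sum_comm]
    refine Finset.sum_congr rfl fun a _ => ?_
    have e2 : ∀ t, muS T a t * fOC P O a t = ∑ i, muS T a t * (fO6 P (O i) a (ga t)).re := by
      intro t
      unfold fOC FO6
      rw [Complex.re_sum, Finset.mul_sum]
    simp only [e2]
    refine integral_finsetSum _ fun i _ => ?_
    have h1 := pk_fOC h hw (r := 1) (fun _ => O i) _ (dT a) a
    refine h1.congr (ae_of_all _ fun t => ?_)
    simp only [fOC, FO6, Finset.univ_unique, Finset.sum_const, Finset.card_singleton, one_smul]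
  have i1 : ∀ i a, Integrable fun t => muS T a t * (fO6 P (O i) a (ga t)).re := by
    intro i a
    have h1 := pk_fOC h hw (r := 1) (fun _ => O i) _ (dT a) a
    refine h1.congr (ae_of_all _ fun t => ?_)
    simp only [fOC, FO6, Finset.univ_unique, Finset.sum_const, Finset.card_singleton, one_smul]
  have e3 : ∀ i, |(∑ a, ∫ t, muS T a t * (fO6 P (O i) a (ga t)).re) - ∑ d, ES (obSr6 P (O i)) (T d)| ≤
      10 * GS δ * (|lo| + |hi|) * A := by
    intro i
    rw [← muS_pot' hT (obSr_ok6 hP (O i)) (hs i)]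
    have e4 : ∀ a, |(∫ t, muS T a t * (fO6 P (O i) a (ga t)).re) -
        ∫ t, muS T a t * (obSr6 P (O i)).p a (t - (obSr6 P (O i)).t)| ≤
        A * (5 * GS δ * (|lo| + |hi|)) := by
      intro a
      have i2 : Integrable fun t => muS T a t * (obSr6 P (O i)).p a (t - (obSr6 P (O i)).t) :=
        pot_in (dT a) (obSr_ok6 hP (O i)) a
      rw [← integral_sub (i1 i a) i2]
      have e5 : ∀ t, muS T a t * (fO6 P (O i) a (ga t)).re -
          muS T a t * (obSr6 P (O i)).p a (t - (obSr6 P (O i)).t) =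
          muS T a t * ((fO6 P (O i) a (ga t)).re - (obSr6 P (O i)).p a (t - ht (O i))) := by
        intro t
        rw [← mul_sub]
        rfl
      simp only [e5]
      have e6 : ∀ t, |(fO6 P (O i) a (ga t)).re - (obSr6 P (O i)).p a (t - ht (O i))| ≤
          5 * GS δ * (|lo| + |hi|) := by
        intro t
        refine (fO6_curve h hw (O i) a t).trans (mul_le_mul_of_nonneg_left ?_ (by positivity))
        obtain ⟨w1, w2⟩ := hw t
        rw [abs_le]
        have := neg_abs_le lo
        have := le_abs_self hi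
        have := abs_nonneg lo
        have := abs_nonneg hi
        constructor <;> linarith
      have e7 : |∫ t, muS T a t * ((fO6 P (O i) a (ga t)).re - (obSr6 P (O i)).p a (t - ht (O i)))| ≤
          (∫ t, |muS T a t|) * (5 * GS δ * (|lo| + |hi|)) := by
        rw [← Real.norm_eq_abs, ← integral_mul_const]
        refine norm_integral_le_of_norm_le ((dT a).int.abs.mul_const _) (ae_of_all _ fun t => ?_)
        rw [Real.norm_eq_abs, abs_mul]
        exact mul_le_mul_of_nonneg_left (e6 t) (abs_nonneg _)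
      exact e7.trans (mul_le_mul_of_nonneg_right (hA a) (by positivity))
    rw [Fintype.sum_bool, Fintype.sum_bool]
    have k1 := e4 true
    have k2 := e4 false
    rw [abs_le] at k1 k2 ⊢
    constructor <;> linarith [k1.1, k1.2, k2.1, k2.2]
  rw [e1, ← Finset.sum_sub_distrib]
  refine (Finset.abs_sum_le_sum_abs _ _).trans ((Finset.sum_le_sum fun i _ => e3 i).trans (le_of_eq ?_))
  rw [Finset.sum_const, Finset.card_univ, Fintype.card_fin, nsmul_eq_mul]
  ring

end

end PLT.Cv
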