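import Pool.Agent.PLT.DatC
import Pool.Agent.PLT.ObSt
import Pool.Agent.PLT.TopDef

/-!
# The exponent of a configuration over a sea on a static curve, identity

* `M0_MF`: the mean field constant of the data `datC` and `Cv.MF`;
* `OcL Q x X`: the abstract object `X` is the object `x` (potentials, height, charge);
* **`En_datC`**: `M0 + En = MF + S + ⟨ρ, B⟩ + ⟨μ, Q + dF + wO⟩ + EQ + sources - 1/2 ks (μ - r)`.
-/

set_option autoImplicit false
set_option linter.unusedSectionVars false
set_option linter.unusedVariables false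

open MeasureTheory Set Filter Topology Complex

namespace PLT.Cv

open NUMF (l l_pos V g)
open NUO (Xo ht sp)
open NUC43 NUGC
open PHK hiding mfo6
open NUSea.PLX.H0 (Inp Vn)

noncomputable section

/-! ### the mean field constant -/

section

variable [SeaC] {r : ℕ}

lemma int_Pvs (B : SeaCB) [SeaCU B] : Integrable fun t : ℝ => P t * (vs (ga t)).re := by
  have h := int_rvb B (fun a => if a = true then 1 else 0) true
  refine h.congr (ae_of_all _ fun t => ?_)
  simp [vb]

lemma int_Pvx (B : SeaCB) [SeaCU B] : Integrable fun t : ℝ => P t * (vx (ga t)).re := by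
  have h := (int_rvb B (fun _ => 1) true).sub (int_Pvs B)
  refine h.congr (ae_of_all _ fun t => ?_)
  simp only [Pi.sub_apply, vb, Complex.ofReal_one, one_mul, Complex.add_re]
  ring

/-- **the mean field constant of the data** -/
theorem M0_MF (B : SeaCB) [SeaCU B] (I : Inp) (O : Fin r → Oc) (hG : ∃ tc C, Gs.Geo (datC I O) tc C) :
    (datC I O).M0 - 1 / 2 * ∑ a, ∑ b, ∫ t, I.s a * P t * ∫ u, ksC a b t u * (I.s b * P u) = MF I.s := by
  obtain ⟨tc, C, hG⟩ := hG
  have hks : (datC I O).ks = ksC := rfl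
  -- twice the constant
  have hPb : ∀ t, |(datC I O).P t| ≤ tc / 2 := by
    intro t
    rw [abs_of_nonneg (hG.P0 t)]
    have h1 := hG.PT t
    have h2 : Real.exp (-(8 / 3) * |t|) ≤ 1 := Real.exp_le_one_iff.2 (by have := abs_nonneg t; linarith)
    have h3 := hG.tc0
    exact h1.trans (mul_le_of_le_one_right (by linarith) h2)
  obtain ⟨c1, b1⟩ := NUH0.conv_bc hG.Pc hPb
  have iV : Integrable fun t => (datC I O).P t * (datC I O).VP t := NUH0.int_mul_bc hG.Pi c1 b1
  have iG : Integrable fun t => (datC I O).P t * (datC I O).GP t :=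
    (Gs.logg_symm hG.Pi hG.Pm hG.Pi hG.Pm).1
  have e1 : 2 * (datC I O).M0 = ∑ a, ∫ t, I.s a * P t * (datC I O).vr a t := by
    have e2 : ∀ a, ∫ t, I.s a * P t * (datC I O).vr a t =
        I.s a ^ 2 * (∫ t, (datC I O).P t * (datC I O).VP t) +
          Gs.Dat.sg a * I.s a * (I.s true - I.s false) * ∫ t, (datC I O).P t * (datC I O).GP t := by
      intro a
      rw [← integral_const_mul, ← integral_const_mul,
        ← integral_add (iV.const_mul _) (iG.const_mul _)]
      refine integral_congr_ae (ae_of_all _ fun t => ?_)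
      show I.s a * P t * (I.s a * (datC I O).VP t + Gs.Dat.sg a * ((I.s true - I.s false) * (datC I O).GP t)) =
        I.s a ^ 2 * (P t * (datC I O).VP t) +
          Gs.Dat.sg a * I.s a * (I.s true - I.s false) * (P t * (datC I O).GP t)
      ring
    rw [Fintype.sum_bool, e2, e2]
    unfold Gs.Dat.M0
    have g1 : Gs.Dat.sg true = 1 := rfl
    have g2 : Gs.Dat.sg false = -1 := rfl
    have g3 : (datC I O).s = I.s := rfl
    rw [g1, g2, g3]
    ring
  -- the field
  have iv : ∀ a, Integrable fun t => I.s a * P t * (vb I.s a (ga t)).re := fun a => int_rvb B I.s a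
  have dP : ∀ b, Integrable fun u => I.s b * P u := fun b => hG.Pi.const_mul _
  have ik : ∀ a b, Integrable fun t => I.s a * P t * ∫ u, ksC a b t u * (I.s b * P u) := by
    intro a b
    have h1 := Gs.ibd (dP a) (Gs.cvc (dP b) (hG.bs a b)) fun t => Gs.abs_ibd (dP b) ((hG.bs a b).le t)
    exact h1.congr (ae_of_all _ fun t => by simp only [hks]; ring)
  have e3 : ∀ a, ∫ t, I.s a * P t * (datC I O).vr a t = (∫ t, I.s a * P t * (vb I.s a (ga t)).re) +
      ∑ b, ∫ t, I.s a * P t * ∫ u, ksC a b t u * (I.s b * P u) := by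
    intro a
    rw [← integral_finsetSum _ fun b _ => ik a b, ← integral_add (iv a)
      (integrable_finsetSum _ fun b _ => ik a b)]
    refine integral_congr_ae (ae_of_all _ fun t => ?_)
    simp only
    rw [vr_eq B, mul_add, Finset.mul_sum]
  have e4 : 2 * MF I.s = ∑ a, ∫ t, I.s a * P t * (vb I.s a (ga t)).re := by
    have h5 : ∀ a, ∫ t, I.s a * P t * (vb I.s a (ga t)).re = I.s a ^ 2 * (∫ t, P t * (vs (ga t)).re) +
        I.s a * I.s (!a) * ∫ t, P t * (vx (ga t)).re := by
      intro a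
      rw [← integral_const_mul, ← integral_const_mul, ← integral_add ((int_Pvs B).const_mul _)
        ((int_Pvx B).const_mul _)]
      refine integral_congr_ae (ae_of_all _ fun t => ?_)
      simp only [vb, Complex.add_re, Complex.re_ofReal_mul]
      ring
    have h6 : ∫ t, P t * v t = (∫ t, P t * (vs (ga t)).re) + ∫ t, P t * (vx (ga t)).re := by
      rw [← integral_add (int_Pvs B) (int_Pvx B)]
      refine integral_congr_ae (ae_of_all _ fun t => ?_)
      simp only [v, vc, Complex.add_re]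
      ring
    rw [Fintype.sum_bool, h5, h5]
    unfold MF Ms Mx
    rw [h6]
    simp only [Bool.not_true, Bool.not_false]
    ring
  have e5 : 2 * (datC I O).M0 = 2 * MF I.s +
      ∑ a, ∑ b, ∫ t, I.s a * P t * ∫ u, ksC a b t u * (I.s b * P u) := by
    rw [e1, e4, ← Finset.sum_add_distrib]
    exact Finset.sum_congr rfl fun a _ => e3 a
  linarith

end

/-! ### the identity -/

/-- the object `X` is the object `x` of the parameters `P` -/
structure OcL (Q : Par6) (x : Xo) (X : Oc) : Prop where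
  F : ∀ a z, X.F a z = fO6 Q x a z
  h : X.h = ht x
  q : X.q = sg (sp x) * kq6 (k6 x)

/-- the densities of the objects -/
def muO {r : ℕ} (O' : Fin r → Oc) (a : Bool) (t : ℝ) : ℝ := ∑ i, (O' i).μ a t

section

variable [SeaC] {δ lo hi lo' hi' kd A ε' c tc C : ℝ} {Q : Par6} {r : ℕ} {O : Fin r → Xo} {O' : Fin r → Oc}
  {I : Inp} {p n : ℕ} {κ : Type*} [Fintype κ] {T : κ → Sr}

/-- the potentials which are left -/
lemma lin_rest (hT : ∀ d, (T d).Ok) (hν : ∀ a, I.ν a = muS T a) (hτ : I.τD = tauS T)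
    (hL : ∀ i, OcL Q (O i) (O' i)) (a : Bool) (t : ℝ) :
    (datC I O').lin a t + (datC I O').E a t - (fOC Q O a t + linS T a t) =
      QrC I O' a t + dFC I O' a t + Sp.wOC (zI I) I a t := by
  have e1 : (datC I O').lin a t = QrC I O' a t + (FC I O' a (zI I a t)).re := rfl
  have e2 : (datC I O').E a t = I.B a t := rfl
  have e3 : (FC I O' a (zI I a t)).re = (∑ i, ((O' i).F a (zI I a t)).re) + (I.A a (zI I a t)).re := by
    unfold FC
    rw [Complex.add_re, Complex.re_sum]
  have e4 : fOC Q O a t = ∑ i, ((O' i).F a (ga t)).re := by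
    unfold fOC FO6
    rw [Complex.re_sum]
    exact Finset.sum_congr rfl fun i _ => by rw [(hL i).F]
  have e5 : dFC I O' a t = (∑ i, ((O' i).F a (zI I a t)).re) - ∑ i, ((O' i).F a (ga t)).re := by
    unfold dFC
    rw [Finset.sum_sub_distrib]
  have e6 : Sp.wOC (zI I) I a t = (I.A a (zI I a t)).re + I.B a t - sg a * lgp (tauS T) t -
      ∫ u, muS T a u * V (t - u) := by
    have h1 : Sp.wOC (zI I) I a t = (I.A a (zI I a t)).re + I.B a t - sg a * lgp I.τD t -
      ∫ u, I.ν a u * V (t - u) := rfl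
    rw [h1, hτ, hν]
  rw [e1, e2, e3, e4, e5, e6, ← muS_eq hT a t]
  ring

/-- **the exponent of a configuration** -/
theorem En_datC (B : SeaCB) [SeaCU B] (hG : Gs.Geo (datC I O') tc C) (hF : Gs.Fld (datC I O') p n)
    (hR : Gs.Reg (datC I O')) (hO : ∀ i, (O' i).Ok lo' hi' kd A ε' c)
    (hT : ∀ d, (T d).Ok) (hν : ∀ a, I.ν a = muS T a) (hτ : I.τD = tauS T)
    (hL : ∀ i, OcL Q (O i) (O' i)) (hp : PGC δ lo hi Q) (hw : ∀ t, lo ≤ eta t ∧ eta t ≤ hi) :
    (datC I O').M0 + (datC I O').En = MF I.s + (gasI I O').S + (∑ a, ∫ t, I.s a * P t * I.B a t) +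
      Gs.Fq (fun a t => QrC I O' a t + dFC I O' a t + Sp.wOC (zI I) I a t) (datC I O').μ +
      Gs.EQ ksC (fOC Q O) (muO O') + Gs.Fq (fOC Q O) (muS T) + 1 / 2 * (∑ d, ∑ d', ES (T d) (T d')) +
      (Gs.Kq ksC (muO O') (muS T) + 1 / 2 * Gs.Kq ksC (muS T) (muS T)) -
      1 / 2 * Gs.Kq ksC (fun a t => ∑ i, ((O' i).μ a t - (O' i).r a t))
        (fun a t => ∑ i, ((O' i).μ a t - (O' i).r a t)) := by
  have dO : ∀ a, Dn (muO O' a) := fun a => dnSμ hO a
  have dT : ∀ a, Dn (muS T a) := fun a => dn_muS hT a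
  have eμ : (datC I O').μ = fun a t => muO O' a t + muS T a t := by
    funext a t
    show (∑ i, (O' i).μ a t) + I.ν a t = _
    rw [hν]
    rfl
  have er : (datC I O').r = fun a t => (∑ i, (O' i).r a t) + muS T a t := by
    funext a t
    show (∑ i, (O' i).r a t) + I.ν a t = _
    rw [hν]
  have hμ : ∀ a, Dn ((datC I O').μ a) := fun a => by
    rw [eμ]
    exact Gs.dn_add (dO a) (dT a)
  have hr : ∀ a, Dn ((datC I O').r a) := fun a => by
    rw [er]
    exact Gs.dn_add (dnSr hO a) (dT a)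
  have hτe := datC_τe (I := I) hO (fun t => by rw [hτ, hν, hν]; exact (muS_sub hT t).symm)
  have hf : Gs.Pk fun a t => fOC Q O a t + linS T a t := (pk_fOC hp hw O).add (Gs.pk_linS hT)
  have h1 := Gs.En_EQ hG hF hR hτe hμ hr hf
  have e1 : Gs.Fq (fun a t => (datC I O').lin a t + (datC I O').E a t - (fOC Q O a t + linS T a t))
      (datC I O').μ = Gs.Fq (fun a t => QrC I O' a t + dFC I O' a t + Sp.wOC (zI I) I a t) (datC I O').μ := by
    congr 1
    funext a t
    exact lin_rest hT hν hτ hL a t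
  have hks : (datC I O').ks = ksC := rfl
  have e2 : Gs.EQ (datC I O').ks (fun a t => fOC Q O a t + linS T a t) (datC I O').μ =
      Gs.EQ ksC (fOC Q O) (muO O') + Gs.Fq (fOC Q O) (muS T) + 1 / 2 * (∑ d, ∑ d', ES (T d) (T d')) +
        (Gs.Kq ksC (muO O') (muS T) + 1 / 2 * Gs.Kq ksC (muS T) (muS T)) := by
    rw [eμ, hks]
    exact Gs.EQ_src hG.bs hG.sy (pk_fOC hp hw O) dO hT
  have e3 : (fun a t => (datC I O').μ a t - (datC I O').r a t) =
      fun a t => ∑ i, ((O' i).μ a t - (O' i).r a t) := by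
    funext a t
    rw [eμ, er, Finset.sum_sub_distrib]
    unfold muO
    ring
  have e4 : (datC I O').S = (gasI I O').S -
      1 / 2 * ∑ a, ∑ b, ∫ t, I.s a * P t * ∫ u, ksC a b t u * (I.s b * P u) := rfl
  have e5 : (∑ a, ∫ t, (datC I O').ρ a t * (datC I O').E a t) = ∑ a, ∫ t, I.s a * P t * I.B a t := rfl
  have e6 := M0_MF B I O' ⟨tc, C, hG⟩
  rw [e1, e2, e3, e4, e5, hks] at h1
  rw [h1]
  linarith

end

end

end PLT.Cv
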