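import Pool.Agent.PLT.GlueK
import Pool.Agent.PLT.BulkE

/-!
# The limits at the end of a direction (helper17)

* `evL` : the value of the function side along the even indices;
* **`y_lim`** : from the glue, `‖Y (2 k) l‖ → ‖U kapI‖ ‖Λ‖`;
* **`end_lim`** : from `‖Y k‖ = nr k * w k`, the normaliser and `y_lim` to the limit of `w (2 k) * (2 k √(a² + a b + b²)) ^ (5/24)`.
-/

set_option autoImplicit false

noncomputable section

open Complex Filter Topology Set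

namespace PLT.FS

open NUP1 (l lpos)
open Pool.Agent.PLX (f0Q fQ FunO2)
open PLT.Pa

/-- **the limit along the even indices** -/
theorem evL {c : ℝ} {f : ℕ → ℂ → ℂ} {g : ℕ → ℂ} (h : FunO2 c f g) (hc : 0 < c) :
    ∃ L : ℂ, Tendsto (fun n : ℕ => g (2 * n)) atTop (𝓝 L) := by
  obtain ⟨L, C', hC', hL⟩ := h.lim hc
  refine ⟨L 0, ?_⟩
  have ht : Tendsto (fun n : ℕ => 2 * n) atTop atTop :=
    tendsto_atTop_mono (fun n => by omega : ∀ n, n ≤ 2 * n) tendsto_id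
  have h1 : Tendsto (fun n : ℕ => C' * (((2 * n : ℕ) : ℝ)) ^ (-c)) atTop (𝓝 0) := by
    have h2 := ((tendsto_rpow_neg_atTop hc).comp
      (tendsto_natCast_atTop_atTop (R := ℝ))).const_mul C'
    rw [mul_zero] at h2
    exact h2.comp ht
  rw [tendsto_iff_norm_sub_tendsto_zero]
  refine squeeze_zero' (Eventually.of_forall fun _ => norm_nonneg _) ?_ h1
  filter_upwards [ht.eventually hL] with n hn
  have e : 2 * n % 2 = 0 := by omega
  rwa [e] at hn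

/-- **the physical function at the lattice point, even sizes** -/
theorem y_lim {a0 b0 : ℕ} (ha : 1 ≤ a0) {g : ℕ → ℂ} {Lm : ℂ}
    (hg : Tendsto (fun n : ℕ => g (2 * n)) atTop (𝓝 Lm)) {Y : ℕ → ℂ → ℂ} {u : ℕ → ℂ} {K : ℂ} {c' : ℝ} (hc' : 0 < c')
    (hu : ∀ᶠ k : ℕ in atTop, ‖u k‖ = 1)
    (hY : ∀ᶠ k : ℕ in atTop, ∀ x : ℝ, 0 ≤ x → x ≤ l →
      ‖Y k x - K * (u k * g (k * a0 + k * b0))‖ ≤ (k : ℝ) ^ (-c')) :
    Tendsto (fun k : ℕ => ‖Y (2 * k) (l : ℂ)‖) atTop (𝓝 (‖K‖ * ‖Lm‖)) := by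
  have ht : Tendsto (fun n : ℕ => 2 * n) atTop atTop :=
    tendsto_atTop_mono (fun n => by omega : ∀ n, n ≤ 2 * n) tendsto_id
  have h0 : Tendsto (fun n : ℕ => n * (a0 + b0)) atTop atTop :=
    tendsto_atTop_mono (fun n => by nlinarith : ∀ n, n ≤ n * (a0 + b0)) tendsto_id
  have h1 : Tendsto (fun k : ℕ => ‖K‖ * ‖g (2 * (k * (a0 + b0)))‖) atTop (𝓝 (‖K‖ * ‖Lm‖)) :=
    ((hg.comp h0).norm).const_mul _
  have h2 : Tendsto (fun k : ℕ => (((2 * k : ℕ) : ℝ)) ^ (-c')) atTop (𝓝 0) :=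
    ((tendsto_rpow_neg_atTop hc').comp (tendsto_natCast_atTop_atTop (R := ℝ))).comp ht
  have h3 : Tendsto (fun k : ℕ => ‖Y (2 * k) (l : ℂ)‖ - ‖K‖ * ‖g (2 * (k * (a0 + b0)))‖) atTop (𝓝 0) := by
    refine squeeze_zero_norm' ?_ h2
    filter_upwards [ht.eventually hY, ht.eventually hu] with k hk huk
    have h4 := hk l lpos.le le_rfl
    have e : 2 * k * a0 + 2 * k * b0 = 2 * (k * (a0 + b0)) := by ring
    rw [e] at h4
    have h5 : ‖K * (u (2 * k) * g (2 * (k * (a0 + b0))))‖ = ‖K‖ * ‖g (2 * (k * (a0 + b0)))‖ := by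
      rw [norm_mul, norm_mul, huk, one_mul]
    rw [← h5, Real.norm_eq_abs]
    exact (abs_norm_sub_norm_le _ _).trans h4
  have h6 := h3.add h1
  rw [zero_add] at h6
  exact h6.congr fun k => by ring

/-- **from the normaliser to the function of the words** -/
theorem end_lim {q a0 b0 : ℕ} (ha : 1 ≤ a0) (hb : 1 ≤ b0) {L B : ℝ} (hL : 0 < L) {nr w y : ℕ → ℝ}
    (hn : Tendsto (fun k : ℕ => nr k / ((((1 + q) * k : ℕ) : ℝ) * VV a0 b0 l) ^ (5 / 24 : ℝ)) atTop (𝓝 L))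
    (hy : ∀ᶠ k : ℕ in atTop, y k = nr k * w k)
    (hlim : Tendsto (fun k : ℕ => y (2 * k)) atTop (𝓝 B)) :
    Tendsto (fun k : ℕ => w (2 * k) * ((2 * k : ℝ) * √((a0 : ℝ) ^ 2 + a0 * b0 + (b0 : ℝ) ^ 2)) ^ (5 / 24 : ℝ))
      atTop (𝓝 (B / L * (1 + q : ℝ) ^ (-(5 / 24) : ℝ))) := by
  have hA : (0 : ℝ) < a0 := by exact_mod_cast ha
  have hB : (0 : ℝ) < b0 := by exact_mod_cast hb
  have hl := lpos
  have hll : l ∈ Icc 0 l := ⟨hl.le, le_rfl⟩
  have hV := VV_pos hA hB hll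
  have ht : Tendsto (fun n : ℕ => 2 * n) atTop atTop :=
    tendsto_atTop_mono (fun n => by omega : ∀ n, n ≤ 2 * n) tendsto_id
  have h1 := hn.comp ht
  have h2 := (hlim.div h1 hL.ne').mul_const ((1 + q : ℝ) ^ (-(5 / 24) : ℝ))
  refine h2.congr' ?_
  filter_upwards [ht.eventually hy, h1.eventually (lt_mem_nhds hL), eventually_ge_atTop 1] with k hk hpos hk1
  have hk0 : (0 : ℝ) < k := by exact_mod_cast hk1
  have hq : (0 : ℝ) < 1 + (q : ℝ) := by positivity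
  have e1 : (((1 + q) * (2 * k) : ℕ) : ℝ) * VV a0 b0 l = (1 + q : ℝ) * ((2 * k : ℝ) * VV a0 b0 l) := by
    push_cast
    ring
  have e2 : √((a0 : ℝ) ^ 2 + a0 * b0 + (b0 : ℝ) ^ 2) = VV a0 b0 l := by
    rw [VV_l]
    congr 1
    ring
  have hp : 0 < (2 * k : ℝ) * VV a0 b0 l := by positivity
  simp only [Pi.div_apply, Function.comp_apply] at hpos ⊢
  rw [e1] at hpos
  rw [hk, e1, e2, Real.mul_rpow hq.le hp.le, Real.rpow_neg hq.le]
  rw [Real.mul_rpow hq.le hp.le] at hpos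
  have q1 : 0 < (1 + q : ℝ) ^ (5 / 24 : ℝ) := Real.rpow_pos_of_pos hq _
  have q2 : 0 < ((2 * k : ℝ) * VV a0 b0 l) ^ (5 / 24 : ℝ) := Real.rpow_pos_of_pos hp _
  have q3 : nr (2 * k) ≠ 0 := by
    intro h
    rw [h, zero_div] at hpos
    exact lt_irrefl _ hpos
  generalize ((2 * k : ℝ) * VV a0 b0 l) ^ (5 / 24 : ℝ) = r at *
  generalize (1 + q : ℝ) ^ (5 / 24 : ℝ) = s at *
  field_simp

end PLT.FS

end
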