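import Pool.Agent.PLT.GasR
import Pool.Agent.DRX.FunR
import Pool.Agent.NUBD.Sq

/-!
# THETA, row T: the normaliser of any list of rows is the square of the gas functional

`vz z = -(8/3) i z`.

* **`BD_sq_gas`**: `2 ^ (n (n - 1)) * BD z X ^ 2 = bulkG V * gas (Lam V) ^ 2`, `V = X.map vz`, any rows with
  `|8/3 Re z| < 5 π / 6`, equal rows allowed, `bulkG V = (2/3)^n ∏_{i<j} ku (v_i - v_j)^2`;
* `bulkG_ne`.
-/

set_option autoImplicit false

noncomputable section

open Complex Filter Topology Finset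

namespace PLT.Nr

open DUA DRX SPN NUGas
open Pool.Agent.NUBD (BD BD_map cont_BD BD_sq_N countable_sin)

theorem eta4 : NUMv.eta ^ 4 = -1 := by
  unfold NUMv.eta NUMv.el
  rw [← Complex.exp_nat_mul]
  have : ((4 : ℕ) : ℂ) * (2 * I * ((Real.pi / 8 : ℝ) : ℂ)) = Real.pi * I := by
    push_cast
    ring
  rw [this, Complex.exp_pi_mul_I]

theorem eta_r : NUMv.eta - NUMv.eta ^ 3 = ((Real.sqrt 2 : ℝ) : ℂ) := by
  have e1 : NUMv.eta = ((Real.sqrt 2 / 2 : ℝ) : ℂ) + ((Real.sqrt 2 / 2 : ℝ) : ℂ) * I := by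
    unfold NUMv.eta NUMv.el
    have : (2 * I * ((Real.pi / 8 : ℝ) : ℂ) : ℂ) = ((Real.pi / 4 : ℝ) : ℂ) * I := by
      push_cast
      ring
    rw [this, Complex.exp_mul_I, ← Complex.ofReal_cos, ← Complex.ofReal_sin, Real.cos_pi_div_four,
      Real.sin_pi_div_four]
  have h2 : ((Real.sqrt 2 : ℝ) : ℂ) ^ 2 = 2 := s2_sq
  have hI := I_sq
  rw [e1]
  push_cast
  generalize ((Real.sqrt 2 : ℝ) : ℂ) = r at h2 ⊢
  have e2 : (r / 2 + r / 2 * I) ^ 2 = r ^ 2 / 2 * I := by
    linear_combination (r ^ 2 / 4) * hI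
  have e3 : (r / 2 + r / 2 * I) ^ 3 = (r / 2 + r / 2 * I) * (r ^ 2 / 2 * I) := by
    rw [← e2]
    ring
  rw [e3, h2]
  linear_combination (-(r / 2)) * hI

/-! ### generic rows -/

theorem sep_of_sin {a b : ℂ} (h : ∀ k : ℕ, sin (a - b - k * NUMv.el) ≠ 0) :
    Sep NUMv.eta (exp (-(2 * I * a))) (exp (-(2 * I * b))) := by
  intro k hk
  apply h k
  unfold NUMv.eta at hk
  rw [← Complex.exp_nat_mul, ← exp_add, Complex.exp_eq_exp_iff_exists_int] at hk
  obtain ⟨n, hn⟩ := hk
  rw [Complex.sin_eq_zero_iff]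
  refine ⟨-n, ?_⟩
  have hI : (2 * I : ℂ) ≠ 0 := by simp
  apply mul_left_cancel₀ hI
  push_cast
  linear_combination -hn

/-- generic directions -/
theorem dense_gen8 {n : ℕ} (z : Fin n → ℂ) : Dense {t : ℂ | ∀ i j : Fin n, i ≠ j → ∀ k : ℕ,
    sin (z i + t * ((i : ℕ) : ℂ) - (z j + t * ((j : ℕ) : ℂ)) - k * NUMv.el) ≠ 0} := by
  have hc : (⋃ q : {q : Fin n × Fin n // q.1 ≠ q.2}, ⋃ k : ℕ,
      {t : ℂ | sin ((z q.1.1 - z q.1.2 - k * NUMv.el) + t * (((q.1.1 : ℕ) : ℂ) - ((q.1.2 : ℕ) : ℂ))) = 0}).Countable := by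
    refine Set.countable_iUnion fun q => Set.countable_iUnion fun k => countable_sin ?_
    rw [sub_ne_zero]
    exact_mod_cast fun e => q.2 (Fin.ext (by exact_mod_cast e))
  refine (hc.dense_compl ℂ).mono fun t ht i j hij k => ?_
  rw [Set.mem_compl_iff, Set.mem_iUnion, not_exists] at ht
  have h1 := ht ⟨(i, j), hij⟩
  rw [Set.mem_iUnion, not_exists] at h1
  have h3 := h1 k
  rw [Set.mem_ofPred_eq] at h3
  intro h2
  apply h3
  rw [← h2]
  congr 1
  ring

/-- an identity for generic rapidities holds for all rapidities -/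
theorem gen_ext8 {n : ℕ} {f g : (Fin n → ℂ) → ℂ}
    (hf : ∀ z w : Fin n → ℂ, Continuous fun t : ℂ => f fun i => z i + t * w i)
    (hg : ∀ z w : Fin n → ℂ, Continuous fun t : ℂ => g fun i => z i + t * w i)
    (h : ∀ z : Fin n → ℂ, (∀ i j, i ≠ j → ∀ k : ℕ, sin (z i - z j - k * NUMv.el) ≠ 0) → f z = g z)
    (z : Fin n → ℂ) : f z = g z := by
  have key := Continuous.ext_on (dense_gen8 z) (hf z fun i => ((i : ℕ) : ℂ)) (hg z fun i => ((i : ℕ) : ℂ))
    fun t ht => h _ fun i j hij k => ht i j hij k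
  have := congrFun key 0
  simpa using this

theorem exists_sigma : ∃ σ : ℂ, σ ^ 2 = 2 - NUMv.eta + NUMv.eta ^ 3 :=
  IsAlgClosed.exists_pow_nat_eq _ (by norm_num)

/-- the square of the scalar by the total two state sum -/
theorem BD_sq_b {b : List ℂ → ℂ} (hb : BT NUMv.eta (1 + NUMv.eta ^ 3) (1 + NUMv.eta ^ 2) b)
    (hb' : ∀ L, Gen NUMv.eta L → b L = B NUMv.eta L) {ι : Type*} (z : ι → ℂ) (X : List ι) :
    BD z X ^ 2 = (X.map fun k => exp (2 * I * ((X.length : ℂ) - 1) * z k)).prod * (1 / 2) ^ NUMv.dg X.length *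
      b (X.map fun k => exp (-(2 * I * z k))) ^ 2 := by
  have main : ∀ (n : ℕ) (w : Fin n → ℂ), BD w (List.finRange n) ^ 2 =
      ((List.finRange n).map fun k => exp (2 * I * ((n : ℂ) - 1) * w k)).prod * (1 / 2) ^ NUMv.dg n *
        b ((List.finRange n).map fun k => exp (-(2 * I * w k))) ^ 2 := by
    intro n
    refine gen_ext8 (f := fun w => BD w (List.finRange n) ^ 2) (g := fun w =>
      ((List.finRange n).map fun k => exp (2 * I * ((n : ℂ) - 1) * w k)).prod * (1 / 2) ^ NUMv.dg n *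
        b ((List.finRange n).map fun k => exp (-(2 * I * w k))) ^ 2) ?_ ?_ ?_
    · intro z w
      exact (cont_BD fun k _ => by fun_prop).pow 2
    · intro z w
      refine Continuous.mul (Continuous.mul ?_ continuous_const) (Continuous.pow ?_ 2)
      · have e : ∀ t : ℂ, ((List.finRange n).map fun k => exp (2 * I * ((n : ℂ) - 1) * (z k + t * w k))).prod =
            ∏ k : Fin n, exp (2 * I * ((n : ℂ) - 1) * (z k + t * w k)) := fun t => by
          rw [← List.ofFn_eq_map, List.prod_ofFn]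
        simp only [e]
        exact continuous_finsetProd _ fun k _ => by fun_prop
      · obtain ⟨P, hP⟩ := hb.mv n
        have e : ∀ t : ℂ, b ((List.finRange n).map fun k => exp (-(2 * I * (z k + t * w k)))) =
            MvPolynomial.eval (fun k => exp (-(2 * I * (z k + t * w k)))) P := fun t => by
          rw [← List.ofFn_eq_map, ← hP]
        simp only [e]
        exact (MvPolynomial.continuous_eval P).comp (continuous_pi fun k => by fun_prop)
    · intro w hw
      obtain ⟨σ, hσ⟩ := exists_sigma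
      have hG : Gen NUMv.eta ((List.finRange n).map fun k => exp (-(2 * I * w k))) := by
        refine ⟨fun x hx => ?_, ?_⟩
        · obtain ⟨k, -, rfl⟩ := List.mem_map.1 hx
          exact exp_ne_zero _
        · rw [List.pairwise_map]
          refine (List.nodup_finRange n).imp fun {i j} hij => ?_
          exact sep_of_sin (hw i j hij)
      have h1 := BD_sq_N (z := w) (S1 := List.finRange n) (S2 := []) hσ I_sq hG ⟨by simp, by simp⟩
      have h2 := B_sq eta4 hσ I_ne_zero hG
      rw [List.append_nil, List.map_nil, List.length_finRange, ← h2, ← hb' _ hG] at h1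
      exact h1
  have e0 : X = (List.finRange X.length).map X.get := by simp
  have h1 := main X.length fun k => z (X.get k)
  have e1 : BD z X = BD (fun k => z (X.get k)) (List.finRange X.length) := by
    conv_lhs => rw [e0]
    rw [BD_map]
  have e2 : ∀ f : ℂ → ℂ, (X.map fun k => f (z k)) = (List.finRange X.length).map fun k => f (z (X.get k)) := by
    intro f
    conv_lhs => rw [e0]
    rw [List.map_map]
    rfl
  rw [e1, h1, e2 fun w => exp (2 * I * ((X.length : ℂ) - 1) * w), e2 fun w => exp (-(2 * I * w))]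

/-! ### the normaliser -/

/-- the rapidity on the dual side -/
def vz (z : ℂ) : ℂ := -(8 / 3) * I * z

theorem xx_vz (z : ℂ) : xx (vz z) = exp (-(2 * I * z)) := by
  unfold xx vz
  congr 1
  ring

theorem vz_im (z : ℂ) : (vz z).im = -(8 / 3) * z.re := by
  unfold vz
  simp

theorem vz_re (z : ℂ) : (vz z).re = 8 / 3 * z.im := by
  unfold vz
  simp

/-- the bulk term of a list of rows -/
def bulkG (V : List ℂ) : ℂ := (2 / 3) ^ V.length * PP (fun v w => ku (v - w) ^ 2) V

theorem PP_exp (c : ℂ) (V : List ℂ) :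
    PP (fun v w => exp (c * (v + w))) V = (V.map fun v => exp (c * ((V.length : ℂ) - 1) * v)).prod := by
  have key : ∀ (V : List ℂ) (m : ℂ), (V.map fun v => exp (c * (m + 1) * v)).prod =
      (V.map fun v => exp (c * v)).prod * (V.map fun v => exp (c * m * v)).prod := by
    intro V m
    rw [← List.prod_map_mul]
    congr 1
    refine List.map_congr_left fun v _ => ?_
    rw [← exp_add]
    congr 1
    ring
  have key2 : ∀ (v : ℂ) (V : List ℂ), (V.map fun w => exp (c * (v + w))).prod =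
      exp (c * V.length * v) * (V.map fun w => exp (c * w)).prod := by
    intro v V
    induction V with
    | nil => simp
    | cons w V ih =>
      rw [List.map_cons, List.prod_cons, ih, List.map_cons, List.prod_cons, List.length_cons]
      have e : exp (c * (v + w)) * (exp (c * V.length * v) * (V.map fun w => exp (c * w)).prod) =
          (exp (c * (v + w)) * exp (c * V.length * v)) * (V.map fun w => exp (c * w)).prod := by ring
      have e2 : exp (c * ((V.length + 1 : ℕ) : ℂ) * v) * (exp (c * w) * (V.map fun w => exp (c * w)).prod) =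
          (exp (c * ((V.length + 1 : ℕ) : ℂ) * v) * exp (c * w)) * (V.map fun w => exp (c * w)).prod := by ring
      rw [e, e2, ← exp_add, ← exp_add]
      congr 2
      push_cast
      ring
  induction V with
  | nil => simp [PP]
  | cons v V ih =>
    rw [PP_cons, ih, key2, List.map_cons, List.prod_cons, List.length_cons]
    have e := key V ((V.length : ℂ) - 1)
    rw [sub_add_cancel] at e
    have e3 : ((V.length + 1 : ℕ) : ℂ) - 1 = V.length := by push_cast; ring
    rw [e3, e]
    ring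

/-- **the square of the scalar is the bulk term times the square of the gas functional** -/
theorem BD_sq_gas {ι : Type*} (z : ι → ℂ) (X : List ι) (hX : ∀ k ∈ X, |8 / 3 * (z k).re| < 5 * Real.pi / 6) :
    2 ^ (X.length * (X.length - 1)) * BD z X ^ 2 =
      bulkG (X.map fun k => vz (z k)) * gas (fun x => Lam (X.map fun k => vz (z k)) (x : ℂ)) ^ 2 := by
  obtain ⟨b, hb, hb'⟩ := exists_bt eta4
  set V : List ℂ := X.map fun k => vz (z k) with hV
  have hlen : V.length = X.length := by rw [hV, List.length_map]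
  have hW : Wn 0 V := by
    intro v hv
    obtain ⟨k, hk, rfl⟩ := List.mem_map.1 hv
    rw [sub_zero, vz_im, show -(8 / 3 : ℝ) * (z k).re = -(8 / 3 * (z k).re) by ring, abs_neg]
    exact hX k hk
  have h1 := bod gHol eta4 eta_r hb hW
  have e0 : V.map xx = X.map fun k => exp (-(2 * I * z k)) := by
    rw [hV, List.map_map]
    exact List.map_congr_left fun k _ => xx_vz _
  have eL : (fun x : ℝ => Lam V (ln 0 x)) = fun x : ℝ => Lam V (x : ℂ) := by
    funext x
    congr 1
    unfold ln
    simp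
  rw [e0, eL, hlen] at h1
  have hu : PP u2 V = PP (fun v w => exp (3 / 8 * (v + w))) V * PP (fun v w => ku (v - w)) V := by
    rw [PP_mul]
    refine PP_congr fun v _ w _ => ?_
    unfold u2
    congr 2
    ring
  have hk2 : PP (fun v w => ku (v - w) ^ 2) V = PP (fun v w => ku (v - w)) V ^ 2 := by
    rw [sq, PP_mul]
    exact PP_congr fun v _ w _ => sq _
  have hph : (X.map fun k => exp (2 * I * ((X.length : ℂ) - 1) * z k)).prod *
      (V.map fun v => exp (3 / 8 * ((V.length : ℂ) - 1) * v)).prod ^ 2 = 1 := by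
    rw [sq, ← List.prod_map_mul, hV, List.map_map, ← List.prod_map_mul, List.length_map]
    refine List.prod_eq_one fun y hy => ?_
    obtain ⟨k, -, rfl⟩ := List.mem_map.1 hy
    simp only [Function.comp_apply]
    rw [← exp_add, ← exp_add, ← exp_zero]
    congr 1
    unfold vz
    ring
  have hdg : (2 : ℂ) ^ (X.length * (X.length - 1)) * (1 / 2) ^ NUMv.dg X.length = 1 := by
    unfold NUMv.dg
    rw [← mul_pow]
    norm_num
  have hKK : (DRX.KK ^ X.length) ^ 2 = (2 / 3) ^ X.length := by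
    rw [← pow_mul, mul_comm, pow_mul, KK_sq]
  rw [BD_sq_b hb hb' z X, h1, hu, PP_exp]
  unfold bulkG
  rw [hk2, hlen, ← hKK]
  generalize gas (fun x : ℝ => Lam V (x : ℂ)) = g
  generalize PP (fun v w => ku (v - w)) V = P
  have e3 : (X.map fun k => exp (2 * I * ((X.length : ℂ) - 1) * z k)).prod *
      (V.map fun v => exp (3 / 8 * ((X.length : ℂ) - 1) * v)).prod ^ 2 = 1 := by
    rw [← hlen]
    rw [← hlen] at hph
    exact hph
  linear_combination (((X.map fun k => exp (2 * I * ((X.length : ℂ) - 1) * z k)).prod *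
      (V.map fun v => exp (3 / 8 * ((X.length : ℂ) - 1) * v)).prod ^ 2) * (DRX.KK ^ X.length) ^ 2 * P ^ 2 * g ^ 2) * hdg +
      ((DRX.KK ^ X.length) ^ 2 * P ^ 2 * g ^ 2) * e3

/-- the bulk term does not vanish -/
theorem bulkG_ne {V : List ℂ} (hV : Wn 0 V) : bulkG V ≠ 0 := by
  unfold bulkG
  refine mul_ne_zero (pow_ne_zero _ (by norm_num)) (PP_ne ?_)
  have : ∀ v ∈ V, ∀ w ∈ V, ku (v - w) ^ 2 ≠ 0 := fun v hv w hw => pow_ne_zero _ (ku_ne (S5_win (hV v hv) (hV w hw)))
  exact List.pairwise_of_forall_mem_list this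

/-- **the normaliser of a list of rows** -/
def nrmG {ι : Type*} (z : ι → ℂ) (X : List ι) : ℝ :=
  2 ^ (X.length * (X.length - 1)) * ‖BD z X‖ ^ 2 / ‖bulkG (X.map fun k => vz (z k))‖

theorem nrmG_gas {ι : Type*} (z : ι → ℂ) (X : List ι) (hX : ∀ k ∈ X, |8 / 3 * (z k).re| < 5 * Real.pi / 6) :
    nrmG z X = ‖gas (fun x => Lam (X.map fun k => vz (z k)) (x : ℂ))‖ ^ 2 := by
  have h := congrArg norm (BD_sq_gas z X hX)
  have hW : Wn 0 (X.map fun k => vz (z k)) := by
    intro v hv
    obtain ⟨k, hk, rfl⟩ := List.mem_map.1 hv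
    rw [sub_zero, vz_im, show -(8 / 3 : ℝ) * (z k).re = -(8 / 3 * (z k).re) by ring, abs_neg]
    exact hX k hk
  have hb := norm_pos_iff.2 (bulkG_ne hW)
  rw [norm_mul, norm_mul, norm_pow, norm_pow, norm_pow] at h
  have h2 : ‖(2 : ℂ)‖ = 2 := by norm_num
  rw [h2] at h
  unfold nrmG
  rw [h, mul_div_cancel_left₀ _ hb.ne']

/-! ### the axis -/

theorem ku_zero : ku 0 = ((2 / 3 * (2 + Real.sqrt 2) : ℝ) : ℂ) := by
  unfold ku
  rw [zero_div, zero_div, cosh_zero]
  have hr := s2_sq
  push_cast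
  generalize ((Real.sqrt 2 : ℝ) : ℂ) = r at hr ⊢
  have h1 : (2 : ℂ) * 1 + r ≠ 0 := by
    intro h
    have h2 : r = -2 := by linear_combination h
    rw [h2] at hr
    norm_num at hr
  rw [div_eq_iff (mul_ne_zero (by norm_num) h1)]
  linear_combination (-2 : ℂ) * hr

theorem PP_replicate (c : ℂ) (f : ℂ → ℂ → ℂ) (n : ℕ) (h : f 0 0 = c) :
    PP f (List.replicate n 0) ^ 2 = c ^ (n * (n - 1)) := by
  induction n with
  | zero => simp [PP]
  | succ n ih =>
    rw [List.replicate_succ, PP_cons, List.map_replicate, List.prod_replicate, h, mul_pow, ih, ← pow_mul, ← pow_add]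
    congr 1
    rcases n with _ | n
    · rfl
    · simp only [Nat.add_sub_cancel]
      ring

theorem gas_axis (n : ℕ) : gas (fun x => Lam (List.replicate n 0) (x : ℂ)) = (GV n : ℂ) := by
  unfold GV
  rw [← gas_Gp]
  congr 1
  funext x
  have h1 : Lam (List.replicate n 0) (x : ℂ) = (L0 x : ℂ) ^ n := by
    unfold Lam
    rw [List.map_replicate, List.prod_replicate, zero_sub, ← tau_L0, ← ofReal_neg, tau_L0, L0_neg, tau_L0]
  rw [h1]
  unfold aV
  rw [Real.rpow_natCast]
  push_cast
  ring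

end PLT.Nr

end
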