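import Pool.Agent.PLT.EndL
import Pool.Agent.THJ.Nrm
import Pool.Agent.THJ.Pub

/-!
# The end of a direction: the transfer along the ray (helper17)

* `Wds q a0 b0 J I` : words with `k a0` mirrored and `k b0` normal rows, `q` times as many behind;
* **`nrmS_dir`** : the normaliser of the words, the same constant in every direction;
* **`rayD_of`** : `RayD` from the value of the physical function at the lattice point;
* `ThH q a0 b0` : what the blocks deliver in one direction; **`endT`** : `RayD (A q) q 2 a b` for every direction.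
-/

set_option autoImplicit false

noncomputable section

open Complex Filter Topology Set

namespace PLT.FS

open NUP1 (l lpos)
open Pool.Agent.PLX (f0Q fQ FunO2)
open Pool.Agent.THJ (Stair WL nrmS RayD zS m_ofL lam_l)
open Pool.Agent.MXR (XR)
open PLT.Pa
open PLT.Nr (nrmG nrmG_sh nrmG_dir RC_cnt vz)

/-- the words of the direction -/
structure Wds (q a0 b0 : ℕ) (J I : ℕ → List Bool) : Prop where
  jt : ∀ k, (J k).count true = k * a0
  jf : ∀ k, (J k).count false = k * b0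
  it : ∀ k, (I k).count true = q * (k * a0)
  if' : ∀ k, (I k).count false = q * (k * b0)

/-- the standard words -/
theorem wds_std (q a0 b0 : ℕ) : Wds q a0 b0 (fun k => List.replicate (k * a0) true ++ List.replicate (k * b0) false)
    (fun k => List.replicate (q * (k * a0)) true ++ List.replicate (q * (k * b0)) false) := by
  constructor <;> intro k <;> simp [List.count_replicate]

/-- the rows of the word -/
def rwL (J I : List Bool) : List Bool := false :: (J ++ false :: I)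

theorem countP_fin {L : List Bool} {N : ℕ} (hN : L.length = N) {f : ℕ → Bool}
    (hf : ∀ (j : ℕ) (h : j < L.length), f j = L[j]) (b : Bool) :
    ((List.finRange N).countP fun j => f j.val == b) = L.count b := by
  subst hN
  have h : (List.finRange L.length).map (fun j => f j.val) = L := by
    apply List.ext_getElem
    · simp
    · intro i h1 h2
      simp only [List.getElem_map, List.getElem_finRange]
      exact hf i h2
  conv_rhs => rw [← h]
  rw [List.count, List.countP_map]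
  rfl

/-- the type of a row -/
def mrS (S : Stair) {N : ℕ} : Pool.Agent.NUF.St N → Bool
  | Sum.inl (j, _) => S.m ((j : ℕ) : ℤ)
  | Sum.inr _ => false

theorem countP_XR {L : List Bool} {N : ℕ} (hN : L.length = N) :
    ((XR N).countP (mrS (Stair.ofL L)) = L.count true) ∧
      ((XR N).countP (fun i => !mrS (Stair.ofL L) i)) = L.count false := by
  have h : ∀ (j : ℕ) (h : j < L.length), (Stair.ofL L).m ((j : ℕ) : ℤ) = L[j] := fun j h => m_ofL L h
  have h1 := countP_fin hN h true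
  have h2 := countP_fin hN h false
  constructor
  · rw [← h1]
    unfold Pool.Agent.MXR.XR
    rw [List.countP_map]
    refine List.countP_congr fun i _ => ?_
    simp [mrS, Pool.Agent.NUN.Xr]
  · rw [← h2]
    unfold Pool.Agent.MXR.XR
    rw [List.countP_map]
    refine List.countP_congr fun i _ => ?_
    simp [mrS, Pool.Agent.NUN.Xr]

/-- **the normaliser of the words, the same constant in every direction** -/
theorem nrmS_dir : ∃ L : ℝ, 0 < L ∧ ∀ (q a0 b0 : ℕ) (J I : ℕ → List Bool), 1 ≤ a0 → 1 ≤ b0 → Wds q a0 b0 J I →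
    Tendsto (fun k : ℕ => nrmS (Stair.ofL (rwL (J k) (I k))) ((I k).length + (J k).length + 2) /
      ((((1 + q) * k : ℕ) : ℝ) * VV a0 b0 l) ^ (5 / 24 : ℝ)) atTop (𝓝 L) := by
  obtain ⟨L, hL, -, h⟩ := nrmG_dir
  refine ⟨L, hL, fun q a0 b0 J I ha hb hw => ?_⟩
  have hA : (0 : ℝ) < a0 := by exact_mod_cast ha
  have hB : (0 : ℝ) < b0 := by exact_mod_cast hb
  have hB1 : (1 : ℝ) ≤ b0 := by exact_mod_cast hb
  have hl := lpos
  have hll : l ∈ Icc 0 l := ⟨hl.le, le_rfl⟩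
  have hV1 : 1 ≤ VV a0 b0 l := hB1.trans (VV_low hA hB hll)
  rw [Metric.tendsto_nhds]
  intro ε hε
  obtain ⟨V0, hV0⟩ := h ((a0 : ℝ) + b0 + 4) (ε / 2) (by positivity)
  filter_upwards [tendsto_natCast_atTop_atTop.eventually_ge_atTop V0, eventually_ge_atTop 1] with k hk hk1
  obtain ⟨S, hS⟩ : ∃ S, S = Stair.ofL (rwL (J k) (I k)) := ⟨_, rfl⟩
  obtain ⟨N, hN⟩ : ∃ N, N = (I k).length + (J k).length + 2 := ⟨_, rfl⟩
  have hlen : (rwL (J k) (I k)).length = N := by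
    rw [hN]
    simp [rwL]
    omega
  have hVk : V0 ≤ (((1 + q) * k : ℕ) : ℝ) * VV a0 b0 l := by
    have h1 : (k : ℝ) ≤ (((1 + q) * k : ℕ) : ℝ) := by
      have : k ≤ (1 + q) * k := by nlinarith
      exact_mod_cast this
    have h2 : (0 : ℝ) ≤ (((1 + q) * k : ℕ) : ℝ) := Nat.cast_nonneg _
    nlinarith
  obtain ⟨c1, c2⟩ := countP_XR hlen
  have ct : (rwL (J k) (I k)).count true = (1 + q) * (k * a0) := by
    unfold rwL
    rw [List.count_cons_of_ne (by simp), List.count_append, List.count_cons_of_ne (by simp), hw.jt, hw.it]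
    ring
  have cf : (rwL (J k) (I k)).count false = (1 + q) * (k * b0) + 2 := by
    unfold rwL
    rw [List.count_cons_self, List.count_append, List.count_cons_self, hw.jf, hw.if']
    ring
  rw [ct] at c1
  rw [cf] at c2
  rw [← hS] at c1 c2 ⊢
  rw [← hN]
  have hz : ∀ i ∈ XR N, zS S N i + ((qq a0 b0 l : ℝ) : ℂ) = if mrS S i then ((-pp a0 b0 l : ℝ) : ℂ) else
      ((qq a0 b0 l : ℝ) : ℂ) := by
    intro i hi
    unfold Pool.Agent.MXR.XR at hi
    obtain ⟨j, -, rfl⟩ := List.mem_map.1 hi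
    show (if S.m ((j : ℕ) : ℤ) then -Pool.Agent.EXL.Fm.lam else 0) + ((qq a0 b0 l : ℝ) : ℂ) =
      if S.m ((j : ℕ) : ℤ) then ((-pp a0 b0 l : ℝ) : ℂ) else ((qq a0 b0 l : ℝ) : ℂ)
    split_ifs
    · rw [lam_l, qq]
      push_cast
      ring
    · rw [zero_add]
  have hR := RC_cnt (z := fun i => zS S N i + ((qq a0 b0 l : ℝ) : ℂ)) (X := XR N) (s := mrS S) (q := q) ha hb hk1 hz
    c1.ge (by omega) (by omega) (by omega)
  have h3 := hV0 _ hVk _ _ hR
  rw [nrmG_sh] at h3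
  rw [Real.dist_eq]
  exact h3.trans_lt (by linarith)

/-- **the transfer along the ray** -/
theorem rayD_of {L : ℝ} (hL : 0 < L) {q a0 b0 : ℕ} (ha : 1 ≤ a0) (hb : 1 ≤ b0) {J I : ℕ → List Bool}
    (hw : Wds q a0 b0 J I)
    (hn : Tendsto (fun k : ℕ => nrmS (Stair.ofL (rwL (J k) (I k))) ((I k).length + (J k).length + 2) /
      ((((1 + q) * k : ℕ) : ℝ) * VV a0 b0 l) ^ (5 / 24 : ℝ)) atTop (𝓝 L))
    {y : ℕ → ℝ} {B : ℝ} (hY : Tendsto (fun k : ℕ => y (2 * k)) atTop (𝓝 B))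
    (hP : ∀ᶠ k : ℕ in atTop, y k = nrmS (Stair.ofL (rwL (J k) (I k))) ((I k).length + (J k).length + 2) *
      WL false (J k) (I k)) : RayD (B / L * (1 + q : ℝ) ^ (-(5 / 24) : ℝ)) q 2 a0 b0 := by
  refine ⟨fun k => J (2 * k), fun k => I (2 * k), fun k => ⟨hw.jt _, hw.jf _, hw.it _, hw.if' _⟩, ?_⟩
  have h := end_lim ha hb hL hn hP hY
  refine h.congr fun k => ?_
  push_cast
  rfl

/-- **what the blocks deliver in one direction** -/
structure ThH (q a0 b0 : ℕ) (J J' : ℕ → List Bool) (Y : ℕ → ℂ → ℂ) (u : ℕ → ℂ) : Prop where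
  wds : Wds q a0 b0 J J'
  /-- (B-f) and (S-W) -/
  ward : ∃ d1 cw e0 : ℝ, 0 < d1 ∧ d1 ≤ 1 / 100 ∧ 0 < cw ∧ 0 < e0 ∧ UBD q a0 b0 d1 ∧ WIM q a0 b0 cw e0 d1
  ph : ∀ᶠ k : ℕ in atTop, ‖u k‖ = 1
  /-- (B-Y) -/
  by' : ∃ δ : ℝ, 0 < δ ∧ (∀ᶠ k : ℕ in atTop, ∀ D ∈ PLT.TwoC.Rc 0 l δ, DifferentiableAt ℂ (Y k) D) ∧
    ∀ ε : ℝ, 0 < ε → ∀ᶠ k : ℕ in atTop, ∀ D ∈ PLT.TwoC.Rc 0 l δ, ‖Y k D‖ ≤ (k : ℝ) ^ ε
  /-- (S-TR) -/
  str : ∃ σ s0 c C : ℝ, 0 < σ ∧ σ < 9 / 80 ∧ 0 < s0 ∧ 0 < c ∧ ∀ᶠ k : ℕ in atTop, ∀ s : ℝ, |s| ≤ s0 →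
    ‖Y k (s * I) - u k * (PBTRF.u0 * KI q a0 b0 σ k (s * I))‖ ≤ C * (k : ℝ) ^ (-c)
  /-- the lattice point -/
  phys : ∀ᶠ k : ℕ in atTop, ‖Y k (l : ℂ)‖ =
    nrmS (Stair.ofL (rwL (J k) (J' k))) ((J' k).length + (J k).length + 2) * WL false (J k) (J' k)

/-- **the transfer along every ray, the same numbers in every direction** -/
theorem endT {Q : Set ℕ} {c0 : ℝ} (hc0 : 0 < c0) {g : ℕ → ℕ → ℂ} (hF : ∀ q ∈ Q, FunO2 c0 (f0Q q) (g q))
    (h : ∀ a b : ℕ, 1 ≤ a → a < b → ∀ q ∈ Q, ∃ J I Y u, ThH q a b J I Y u) :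
    ∃ A : ℕ → ℝ, ∀ a b : ℕ, 1 ≤ a → a < b → ∃ κ : ℕ, 1 ≤ κ ∧ ∀ q ∈ Q, RayD (A q) q κ a b := by
  classical
  obtain ⟨L, hL, hn⟩ := nrmS_dir
  have hlim : ∀ q : ℕ, ∃ Lm : ℂ, q ∈ Q → Tendsto (fun n : ℕ => g q (2 * n)) atTop (𝓝 Lm) := by
    intro q
    by_cases hq : q ∈ Q
    · obtain ⟨Lm, hLm⟩ := evL (hF q hq) hc0
      exact ⟨Lm, fun _ => hLm⟩
    · exact ⟨0, fun h => absurd h hq⟩
  choose Lm hLm using hlim
  refine ⟨fun q => ‖PBTRF.u0 * kapI‖ * ‖Lm q‖ / L * (1 + q : ℝ) ^ (-(5 / 24) : ℝ), fun a b ha hab =>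
    ⟨2, by norm_num, fun q hq => ?_⟩⟩
  have hb : 1 ≤ b := ha.trans hab.le
  obtain ⟨J, I, Y, u, H⟩ := h a b ha hab q hq
  obtain ⟨d1, cw, e0, hd1, hd1', hcw, he0, hU, hW⟩ := H.ward
  obtain ⟨δ, hδ, hYd, hYb⟩ := H.by'
  obtain ⟨σ, s0, c, C, hσ, hσ', hs0, hc, hS⟩ := H.str
  obtain ⟨c', hc', hG⟩ := glueW ha hb hd1 hd1' hσ hσ' hs0 hδ hc0 hcw he0 hc (hF q hq) hU hW
    (H.ph.mono fun k hk => hk.le) hYd hYb hS
  exact rayD_of hL ha hb H.wds (hn q a b J I ha hb H.wds) (y := fun k => ‖Y k (l : ℂ)‖)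
    (y_lim ha (hLm q hq) hc' H.ph hG) H.phys

end PLT.FS

end
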