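import Pool.Agent.PLT.FNeqC
import Pool.Agent.PLT.ContE

/-!
# The upper bound at complex separation from the bounds of the family

* `xUB a0 b0 m (D, z)`: `m a0 / (a0 + b0)` rows at `-pz D`, the others at `qz D`; `okUB`: the domain of `UBD`;
* `stC_Th`, `goodT_Th`: the point of the tilted sea;
* **`ubd_of_ux`**: `UXC` of the family at the point of the tilted sea gives `UBD q a0 b0 d1`.
-/

set_option autoImplicit false
set_option linter.unusedSectionVars false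
set_option linter.unusedVariables false

noncomputable section

open Complex MeasureTheory Finset Filter
open scoped ENNReal
open PLX (Fil Ends)

namespace PLT

open NUP1 NUO NUP1S NUP1S.Ab NUP1S.AbC NUStabP NUDispW
open PHK
open PLT.FS (fz Fz cz UBD fS fS_self ball_Nz)
open PLT.Pa (pz qz Nz)
open Pool.Agent.PLX (fQ yq)
open Pool.Agent.PB (Pf)

/-! ### the point -/

theorem goodT_Th : PLTX.GoodT parTh := { parTh_good with jL' := by norm_num [parTh] }

theorem stC_Th {v w : ℝ} (h1 : -(1 / 400) ≤ v) (h2 : v ≤ 0) (h3 : 0 ≤ w) (h4 : w ≤ 1 / 20) : StC v w parTh := by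
  constructor <;> norm_num [parTh] <;> linarith

/-! ### the content -/

/-- rows: `a0 : b0` rows at `-pz D`, `qz D` -/
def xUB (a0 b0 : ℕ) (m : ℕ) (i : ℂ × ℂ) : Fin m → ℂ := fun j =>
  if (j : ℕ) < m / (a0 + b0) * a0 then -pz a0 b0 i.1 else qz a0 b0 i.1

theorem xUB_cz {a0 b0 : ℕ} (hab : 0 < a0 + b0) (k : ℕ) (D z : ℂ) :
    xUB a0 b0 (k * a0 + k * b0) (D, z) = cz a0 b0 (k * a0) (k * b0) D := by
  have e : (k * a0 + k * b0) / (a0 + b0) = k := by
    rw [← Nat.mul_add, Nat.mul_div_cancel _ hab]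
  funext j
  unfold xUB
  rw [e]
  refine Fin.addCases (fun i => ?_) (fun i => ?_) j
  · rw [if_pos (by simp), PLT.FS.cz, PLT.FS.cnt_left]
  · rw [if_neg (by simp), PLT.FS.cz, PLT.FS.cnt_right]

/-- the domain of the bound -/
structure okUB (a0 b0 : ℕ) (d1 : ℝ) (m : ℕ) (i : ℂ × ℂ) : Prop where
  k : ∃ k : ℕ, m = k * a0 + k * b0
  m1 : 1 ≤ m
  D : ‖i.1‖ ≤ d1
  z1 : -(2 / 5 * NUP1.l) ≤ i.2.re
  z2 : i.2.re ≤ 1 / 5 * NUP1.l
  z3 : |i.2.im| ≤ 9 / 80 * Real.log m + 1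

theorem re_places {a0 b0 : ℕ} (ha : 1 ≤ a0) (hb : 1 ≤ b0) {d1 : ℝ} (h1 : d1 ≤ 1 / 40) {D : ℂ} (h : ‖D‖ ≤ d1) :
    |(-pz a0 b0 D).re| ≤ d1 ∧ |(qz a0 b0 D).re| ≤ d1 := by
  have hA : (0 : ℝ) < a0 := by exact_mod_cast ha
  have hB : (0 : ℝ) < b0 := by exact_mod_cast hb
  have h2 := PLT.Pa.re_pz hA hB le_rfl (ball_Nz h1 h)
  have h3 := (abs_re_le_norm D).trans h
  have e : (qz a0 b0 D).re = D.re - (pz a0 b0 D).re := by rw [PLT.Pa.qz, sub_re]
  rw [e, neg_re, abs_neg]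
  obtain ⟨k1, k2⟩ := abs_le.1 h2
  rcases le_total 0 D.re with h4 | h4
  · rw [abs_of_nonneg h4] at k1 k2 h3
    constructor <;> rw [abs_le] <;> constructor <;> linarith
  · rw [abs_of_nonpos h4] at k1 k2 h3
    constructor <;> rw [abs_le] <;> constructor <;> linarith

theorem xUB_re {a0 b0 : ℕ} (ha : 1 ≤ a0) (hb : 1 ≤ b0) {d1 : ℝ} (h1 : d1 ≤ 1 / 40) {m : ℕ} {i : ℂ × ℂ}
    (h : ‖i.1‖ ≤ d1) (j : Fin m) : |(xUB a0 b0 m i j).re| ≤ d1 := by
  obtain ⟨k1, k2⟩ := re_places ha hb h1 h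
  unfold xUB
  split_ifs
  · exact k1
  · exact k2

/-! ### the bound -/

variable [Fil] [Ends]

theorem ux_pick {a : ℝ} (ha : 0 < a) : ∃ ep J : ℝ, 0 < ep ∧ ep ≤ 1 / 300 ∧ 0 ≤ J ∧
    Real.exp (-(2 * Real.pi * J)) + 3 * ep + 3 * ep ≤ a := by
  have hp := Real.pi_gt_three
  refine ⟨min (1 / 300) (a / 12), max 0 (-Real.log (a / 2) / (2 * Real.pi)), lt_min (by norm_num) (by positivity),
    min_le_left _ _, le_max_left _ _, ?_⟩
  have h1 : Real.exp (-(2 * Real.pi * max 0 (-Real.log (a / 2) / (2 * Real.pi)))) ≤ a / 2 := by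
    rw [← Real.exp_log (half_pos ha)]
    refine Real.exp_le_exp.2 ?_
    rw [Real.exp_log (half_pos ha)]
    have h2 := le_max_right 0 (-Real.log (a / 2) / (2 * Real.pi))
    rw [div_le_iff₀ (by positivity)] at h2
    linarith
  have h2 := min_le_right (1 / 300) (a / 12)
  linarith

/-- **the upper bound at complex separation** -/
theorem ubd_of_ux (he : Ends.e = 0) (ho : Ends.o = 0) {a0 b0 : ℕ} (ha : 1 ≤ a0) (hb : 1 ≤ b0) {d1 : ℝ}
    (hd1 : d1 ≤ 1 / 40) {S : ℕ → ℂ × ℂ → SeaC} {SB : SeaCB} {h1 h0 : ℝ}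
    (hc : CntL SB (xUB a0 b0) (fun i => i.2) S (okUB a0 b0 d1) h1 h0)
    (hU : UXC (famLC (xUB a0 b0) (fun i => i.2) S (okUB a0 b0 d1) (-(h1 * NUP1.l)) (h0 * NUP1.l)) parTh) :
    UBD Fil.q a0 b0 d1 := by
  have hl := NUP1.l_pos
  have hll := PLT.Pa.l_gt
  intro ε hε
  obtain ⟨a, ha0, H⟩ := hU 0 1 (ε / 2) (by positivity)
  obtain ⟨ep, J, hep, hep1, hJ, hs⟩ := ux_pick ha0
  have hB := H ep ep J hep hep hJ hs
  obtain ⟨F, hF⟩ : ∃ F, F = famLC (xUB a0 b0) (fun i => i.2) S (okUB a0 b0 d1) (-(h1 * NUP1.l)) (h0 * NUP1.l) :=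
    ⟨_, rfl⟩
  have hcls := clsF_L he ho (P := parTh) hc
  obtain ⟨m1, hm1⟩ := hcls.cur ep hep (by linarith) ep hep (by linarith) J hJ
  obtain ⟨m2, hm2⟩ := hB.mass (fun m i hi => by
    have h5 := @shiftC (S m i) _ _ SB (hc.sea m i hi) (hc.win m i hi) (-(h1 * NUP1.l) - 1) (h0 * NUP1.l + 1)
      (fun _ => 0) ⟨differentiableOn_const 0, fun _ _ => by simp⟩ (by linarith) (by linarith)
    exact h5.1) le_rfl
  filter_upwards [eventually_ge_atTop (max (max m1 m2) (max 1 (a0 + b0)))] with k hk D hD z z1 z2 z3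
  have k1 : m1 ≤ k := (le_max_left _ _).trans ((le_max_left _ _).trans hk)
  have k2 : m2 ≤ k := (le_max_right _ _).trans ((le_max_left _ _).trans hk)
  have k3 : 1 ≤ k := (le_max_left _ _).trans ((le_max_right _ _).trans hk)
  have k4 : a0 + b0 ≤ k := (le_max_right _ _).trans ((le_max_right _ _).trans hk)
  obtain ⟨m, hm⟩ : ∃ m : ℕ, m = k * a0 + k * b0 := ⟨_, rfl⟩
  have hkm : k ≤ m := by
    rw [hm]
    nlinarith
  have hkr : (1 : ℝ) ≤ k := by exact_mod_cast k3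
  have hmr : (k : ℝ) ≤ m := by exact_mod_cast hkm
  have hok : okUB a0 b0 d1 m (D, z) := ⟨⟨k, hm⟩, k3.trans hkm, hD, z1, z2, z3.trans (by
    have := Real.log_le_log (by linarith) hmr
    linarith)⟩
  have hre := fun j => xUB_re ha hb hd1 (i := (D, z)) hD (m := m) j
  have hd0 : 0 ≤ d1 := (norm_nonneg _).trans hD
  have hplc : PlcT parTh (xUB a0 b0 m (D, z)) z d1 0 (1 / 1000) :=
    { h0 := hd0
      hh := by linarith
      hx := hre
      xa0 := le_rfl
      xa1 := by linarith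
      dl := by norm_num
      d1 := by norm_num [parTh]; linarith
      d2 := by norm_num [parTh]; linarith
      z1 := by linarith
      z2 := by linarith
      z3 := by linarith }
  have hlo := hc.lo1
  have hhi := hc.hi1
  have hw := hc.win m (D, z) hok
  have hw1 : 0 ≤ h1 := by
    have := @WinC.lo0 (S m (D, z)) _ _ hw
    nlinarith
  have hw2 : 0 ≤ h0 := by
    have := @WinC.hi0 (S m (D, z)) _ _ hw
    nlinarith
  have hcur := hm1 m (k1.trans hkm) (D, z) hok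
  have hf := fN_le_FSC (S := S) (ok := okUB a0 b0 d1) (X := xUB a0 b0) (zz := fun i => i.2)
    (lo := -(h1 * NUP1.l)) (hi := h0 * NUP1.l) goodT_Th (J := J) (e1 := ep) hep (by linarith) hplc
    (lo' := -(h1 + ep / 4)) (hi' := h0 + ep / 4) (by linarith) (by linarith)
    (stC_Th (by linarith) (by linarith) (by linarith) (by linarith)) hcur
  have hmass := hf.trans (hm2 m (k2.trans hkm) (D, z) hok)
  have hbd : (famLC (xUB a0 b0) (fun i => i.2) S (okUB a0 b0 d1) (-(h1 * NUP1.l)) (h0 * NUP1.l)).bd m (D, z) =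
      Real.exp (2 * |z.im|) := rfl
  rw [hbd, ← ofReal_norm, ENNReal.ofReal_le_ofReal_iff (by positivity)] at hmass
  have e1 : fz Fil.q a0 b0 k D z = fQ Fil.q (xUB a0 b0 m (D, z)) z := by
    subst hm
    unfold PLT.FS.fz PLT.FS.Fz
    rw [← xUB_cz (by omega) k D z]
    refine fS_self _ (fun j => ?_) (by rw [abs_lt]; constructor <;> linarith)
    exact lt_of_le_of_lt (hre j) (by linarith)
  rw [e1]
  refine hmass.trans (mul_le_mul_of_nonneg_right ?_ (Real.exp_pos _).le)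
  have hm' : (m : ℝ) ≤ k * k := by
    have h6 : m ≤ k * k := by
      rw [hm, ← Nat.mul_add]
      exact Nat.mul_le_mul_left _ k4
    exact_mod_cast h6
  calc (m : ℝ) ^ (ε / 2) ≤ ((k : ℝ) * k) ^ (ε / 2) := Real.rpow_le_rpow (by linarith) hm' (by positivity)
    _ = (k : ℝ) ^ ε := by
        rw [Real.mul_rpow (by linarith) (by linarith), ← Real.rpow_add (by linarith), add_halves]

end PLT

end
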