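import Pool.Agent.PLT.InUX
import Pool.Agent.PLT.UBDL
import Pool.Agent.PLT.FamWI

/-!
# The two applications of the bounds of the dislocated function over a content

* `cntV_all`: all rows with equal weights; `cntV_UB`: `a0 : b0` rows at two places; `seasL_UB`, `cntL_UB`;
* **`ReqUB`**, **`ubd_fin`**: the upper bound at complex separation from the sea of the two places, the certificate of
  the point of the tilted sea, the gas theorem, cutoff and one body data;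
* **`ReqSW`**, **`inUX_SW`**, **`ux_SW`**, **`famW_SW`**: rows and legs on the axis at `par6`, straight sea.
-/

set_option autoImplicit false
set_option linter.unusedSectionVars false
set_option linter.unusedVariables false

noncomputable section

open Complex MeasureTheory Finset
open scoped ENNReal
open PLX (Fil Ends)

namespace PLT

open NUO NUP1 NUP1S NUP1S.Ab NUP1S.AbC NUDispO
open NUGC.PLX (OB pE qE)
open PHK
open Pool.Agent.NUM3
open PLT.Le (SeaV CntV)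
open PLT.Pa (pz qz)
open PLT.SW (IxW xIx zIx okIx SeaIx FamW famW_of_ux)

/-! ### contents -/

/-- all rows with equal weights -/
theorem cntV_all {m : ℕ} (hm : 0 < m) (x : Fin m → ℂ) : CntV (fun _ : Fin m => (m : ℝ)⁻¹) x x where
  sum F := by
    have h : (m : ℝ) ≠ 0 := by exact_mod_cast hm.ne'
    rw [← Finset.mul_sum, ← mul_assoc, mul_inv_cancel₀ h, one_mul]
  mem i := ⟨i, rfl⟩

/-- weights of the two places -/
def w2B (a0 b0 : ℕ) : Fin 2 → ℝ := ![(a0 : ℝ) / (a0 + b0), (b0 : ℝ) / (a0 + b0)]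

/-- the two places -/
def X2B (a0 b0 : ℕ) (D : ℂ) : Fin 2 → ℂ := ![-pz a0 b0 D, qz a0 b0 D]

/-- **`a0 : b0` rows at the two places** -/
theorem cntV_UB {a0 b0 : ℕ} (hab : 0 < a0 + b0) {m k : ℕ} (hm : m = k * a0 + k * b0) (i : ℂ × ℂ) :
    CntV (w2B a0 b0) (X2B a0 b0 i.1) (xUB a0 b0 m i) := by
  subst hm
  obtain ⟨D, z⟩ := i
  rw [xUB_cz hab k D z]
  have h0 : ((a0 : ℝ) + b0) ≠ 0 := by
    have : (0 : ℝ) < (a0 : ℝ) + b0 := by exact_mod_cast hab
    exact this.ne'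
  refine ⟨fun F => ?_, fun i => ?_⟩
  · rw [Fin.sum_univ_add, Fin.sum_univ_two]
    unfold PLT.FS.cz
    simp only [PLT.FS.cnt_left, PLT.FS.cnt_right, Finset.sum_const, Finset.card_univ, Fintype.card_fin, nsmul_eq_mul]
    show ((k * a0 : ℕ) : ℝ) * F (-pz a0 b0 D) + ((k * b0 : ℕ) : ℝ) * F (qz a0 b0 D) =
      ((k * a0 + k * b0 : ℕ) : ℝ) * ((a0 : ℝ) / (a0 + b0) * F (-pz a0 b0 D) + (b0 : ℝ) / (a0 + b0) * F (qz a0 b0 D))
    push_cast
    field_simp
  · refine Fin.addCases (fun j => ⟨0, ?_⟩) (fun j => ⟨1, ?_⟩) i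
    · unfold PLT.FS.cz
      rw [PLT.FS.cnt_left]
      rfl
    · unfold PLT.FS.cz
      rw [PLT.FS.cnt_right]
      rfl

variable [Fil] [Ends]

/-! ### complex separation -/

/-- **the inputs of the upper bound at complex separation**: seas of the two places `-pz D`, `qz D`, `|D| ≤ d1`, in the
window of the point, gas theorem, cutoff, one body data -/
structure ReqUB (SB : SeaCB) (a0 b0 : ℕ) (d1 : ℝ) (S : ℕ → ℂ × ℂ → SeaC) (pT : ℕ → ℂ × ℂ → Bool → ℝ → ℝ)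
    (h1 h0 : ℝ) : Prop where
  d1' : d1 ≤ 1 / 40
  lo1 : h1 ≤ 1 / 1000
  hi1 : h0 ≤ 1 / 25
  sea : ∀ m i, okUB a0 b0 d1 m i → @SeaCU SB (S m i)
  win : ∀ m i, okUB a0 b0 d1 m i → @WinC (S m i) (-(h1 * NUP1.l)) (h0 * NUP1.l)
  seaV : ∀ m i, okUB a0 b0 d1 m i → @SeaV _ _ (S m i) (w2B a0 b0) (X2B a0 b0 i.1)
  cut : ∀ ep : ℝ, 0 < ep → ep ≤ 1 / 100 → ∀ e1 : ℝ, 0 < e1 → e1 ≤ 1 / 100 → ∀ J : ℝ, 0 ≤ J →
    ∃ C0 : ℝ, 1 ≤ C0 ∧ ∃ m0 : ℕ, ∀ m ≥ m0, ∀ i, okUB a0 b0 d1 m i →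
      @CutBC (S m i) _ ep e1 C0 m (@Cv.etaC (S m i) e1 J m m) (BLC (xUB a0 b0) (fun i => i.2) ep m i)
  gas : S4MC SB parTh (enT parTh)
  dat : DatF (famLC (xUB a0 b0) (fun i => i.2) S (okUB a0 b0 d1) (-(h1 * NUP1.l)) (h0 * NUP1.l)) parTh
    (BLC (xUB a0 b0) (fun i => i.2)) S pT

variable {SB : SeaCB} {a0 b0 : ℕ} {d1 : ℝ} {S : ℕ → ℂ × ℂ → SeaC} {pT : ℕ → ℂ × ℂ → Bool → ℝ → ℝ} {h1 h0 : ℝ}

theorem ReqUB.cnt (ha : 1 ≤ a0) (hb : 1 ≤ b0) (h : ReqUB SB a0 b0 d1 S pT h1 h0) :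
    CntL SB (xUB a0 b0) (fun i => i.2) S (okUB a0 b0 d1) h1 h0 where
  lo1 := h.lo1
  hi1 := h.hi1
  row m i hi k := by
    have hl := PLT.Pa.l_gt
    have hd := h.d1'
    exact (xUB_re ha hb h.d1' hi.D k).trans (by linarith)
  z1 m i hi := by
    have hl := NUP1.l_pos
    linarith [hi.z1]
  z2 m i hi := by
    have hl := NUP1.l_pos
    linarith [hi.z2]
  sea := h.sea
  win := h.win

theorem ReqUB.seasL (ha : 1 ≤ a0) (h : ReqUB SB a0 b0 d1 S pT h1 h0) :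
    SeasL (xUB a0 b0) (fun i => i.2) S (okUB a0 b0 d1) where
  sea m i hi := by
    obtain ⟨k, hk⟩ := hi.k
    exact ⟨Fin 2, inferInstance, _, _, h.seaV m i hi, cntV_UB (by omega) hk i⟩
  ht m i hi := by
    have h1 : 0 ≤ Real.log m := Real.log_nonneg (by exact_mod_cast hi.m1)
    linarith [hi.z3]

/-- **the window of the point** -/
theorem winQ_Th {S : SeaC} {h1 h0 : ℝ} (h : @WinC S (-(h1 * NUP1.l)) (h0 * NUP1.l)) (k1 : h1 ≤ 1 / 1000)
    (k2 : h0 ≤ 1 / 25) : WinQ qTh S where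
  lo x := by
    have hl := NUP1.l_pos
    have e : (NUMF.l : ℝ) = NUP1.l := rfl
    have := @WinC.ge S _ _ h x
    rw [qTh_of0, e]
    nlinarith
  hi x := by
    have hl := NUP1.l_pos
    have e : (NUMF.l : ℝ) = NUP1.l := rfl
    have := @WinC.le S _ _ h x
    rw [qTh_of1, e]
    nlinarith
  osc x y := by
    have hl := NUP1.l_pos
    have hl2 : NUP1.l < 2 / 5 := PLT.Pa.l_lt
    have a1 := @WinC.ge S _ _ h x
    have a2 := @WinC.le S _ _ h x
    have a3 := @WinC.ge S _ _ h y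
    have a4 := @WinC.le S _ _ h y
    rw [abs_le]
    constructor <;> nlinarith

/-- **the record of the family at complex separation** -/
theorem inUX_UB (he : Ends.e = 0) (ho : Ends.o = 0) (ha : 1 ≤ a0) (hb : 1 ≤ b0) {t : Tb8} {δ : ℝ}
    (hT : HT qTh t δ) (h : ReqUB SB a0 b0 d1 S pT h1 h0) :
    InUX SB (famLC (xUB a0 b0) (fun i => i.2) S (okUB a0 b0 d1) (-(h1 * NUP1.l)) (h0 * NUP1.l)) parTh S
      (BLC (xUB a0 b0) (fun i => i.2)) (enT parTh) (linLC (fun i => i.2) S) pT h1 h0 := by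
  have hst := stabF_enT (F := famLC (xUB a0 b0) (fun i => i.2) S (okUB a0 b0 d1) (-(h1 * NUP1.l)) (h0 * NUP1.l)) hT
    fun m i hi => winQ_Th (h.win m i hi) h.lo1 h.hi1
  rw [qTh_par] at hst
  exact inUX_L he ho parTh_good
    { cnt := h.cnt ha hb
      seas := h.seasL ha
      z3 := fun m i hi => by
        have hl : 0 < NUMF.l := NUP1.l_pos
        have h2 : i.2.re ≤ 1 / 5 * NUMF.l := hi.z2
        show i.2.re ≤ 31 / 10 * NUMF.l
        linarith
      cut := h.cut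
      gas := h.gas
      stab := hst
      dat := h.dat }

/-- **the upper bound at complex separation** -/
theorem ubd_fin (he : Ends.e = 0) (ho : Ends.o = 0) (ha : 1 ≤ a0) (hb : 1 ≤ b0) {t : Tb8} {δ : ℝ}
    (hT : HT qTh t δ) (h : ReqUB SB a0 b0 d1 S pT h1 h0) : PLT.FS.UBD Fil.q a0 b0 d1 :=
  ubd_of_ux he ho ha hb h.d1' (h.cnt ha hb) (inUX_UB he ho ha hb hT h).ux

/-! ### rows and legs on the axis -/

/-- **the inputs of the bounds at `par6`**: straight seas of all rows, gas theorem, cutoff, one body data -/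
structure ReqSW (SB : SeaCB) (S : ℕ → IxW → SeaC) (h0 e0 : ℝ) (pT : ℕ → IxW → Bool → ℝ → ℝ) : Prop where
  h1 : h0 ≤ 1
  e1 : e0 ≤ 3 / 20
  seas : SeaIx SB S h0 e0
  seaV : ∀ m i, okIx h0 e0 m i → @SeaV _ _ (S m i) (fun _ : Fin m => (m : ℝ)⁻¹) (xIx m i)
  cut : ∀ ep : ℝ, 0 < ep → ep ≤ 1 / 100 → ∀ e1 : ℝ, 0 < e1 → e1 ≤ 1 / 100 → ∀ J : ℝ, 0 ≤ J →
    ∃ C0 : ℝ, 1 ≤ C0 ∧ ∃ m0 : ℕ, ∀ m ≥ m0, ∀ i, okIx h0 e0 m i →
      @CutBC (S m i) _ ep e1 C0 m (@Cv.etaC (S m i) e1 J m m) (BLC xIx zIx ep m i)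
  gas : S4MC SB par6 (enT par6)
  dat : DatF (famLC xIx zIx S (okIx h0 e0) (-(0 * NUP1.l)) (0 * NUP1.l)) par6 (BLC xIx zIx) S pT

variable {T : ℕ → IxW → SeaC} {g0 e0 : ℝ} {pI : ℕ → IxW → Bool → ℝ → ℝ}

theorem ReqSW.cnt (h : ReqSW SB T g0 e0 pI) : CntL SB xIx zIx T (okIx g0 e0) 0 0 where
  lo1 := by norm_num
  hi1 := by norm_num
  row m i hi k := by
    have hl := NUP1.l_pos
    have e : (xIx m i k).re = 0 := by simp [PLT.SW.xIx]
    rw [e, abs_zero]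
    positivity
  z1 m i hi := by
    have hl := NUP1.l_pos
    have e : (zIx i).re = 0 := by simp [PLT.SW.zIx]
    rw [e]
    linarith
  z2 m i hi := by
    have hl := NUP1.l_pos
    have e : (zIx i).re = 0 := by simp [PLT.SW.zIx]
    rw [e]
    linarith
  sea := h.seas.sea
  win m i hi := by
    have h2 := h.seas.eta m i hi
    refine @WinC.mk (T m i) _ _ (by simp) (by simp) (fun t => ?_) (fun t => ?_)
    · rw [h2 t]; simp
    · rw [h2 t]; simp

theorem ReqSW.seasL (h : ReqSW SB T g0 e0 pI) : SeasL xIx zIx T (okIx g0 e0) where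
  sea m i hi := ⟨Fin m, inferInstance, _, _, h.seaV m i hi, cntV_all hi.1 _⟩
  ht m i hi := by
    have hm : (1 : ℝ) ≤ m := by exact_mod_cast hi.1
    have h1 : 0 ≤ Real.log m := Real.log_nonneg hm
    have e : (zIx i).im = i.2 := by simp [PLT.SW.zIx]
    have h2 := hi.2.2
    have h3 := mul_le_mul_of_nonneg_right h.e1 h1
    rw [e]
    linarith

/-- **the record of the family at `par6`** -/
theorem inUX_SW (he : Ends.e = 0) (ho : Ends.o = 0) {q : Pt} {t : Tb8} {δ : ℝ} (hT : HT q t δ)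
    (hq : q.par = par6) (q0 : q.of 0 ≤ 0) (q1 : 0 ≤ q.of 1) (h : ReqSW SB T g0 e0 pI) :
    InUX SB (famLC xIx zIx T (okIx g0 e0) (-(0 * NUP1.l)) (0 * NUP1.l)) par6 T (BLC xIx zIx) (enT par6)
      (linLC zIx T) pI 0 0 := by
  have hst := stabF_enT (F := famLC xIx zIx T (okIx g0 e0) (-(0 * NUP1.l)) (0 * NUP1.l)) hT
    fun m i hi => by
      have hl : 0 < NUMF.l := NUP1.l_pos
      have h2 := h.seas.eta m i hi
      refine ⟨fun x => ?_, fun x => ?_, fun x y => ?_⟩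
      · rw [h2 x]; nlinarith
      · rw [h2 x]; nlinarith
      · rw [h2 x, h2 y]; norm_num
  rw [hq] at hst
  exact inUX_L he ho par6_good
    { cnt := h.cnt
      seas := h.seasL
      z3 := fun m i hi => by
        have hl : 0 < NUMF.l := NUP1.l_pos
        have e : (zIx i).re = 0 := by simp [PLT.SW.zIx]
        rw [e]
        positivity
      cut := h.cut
      gas := h.gas
      stab := hst
      dat := h.dat }

/-- **`UXC` of the family at `par6`** -/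
theorem ux_SW (he : Ends.e = 0) (ho : Ends.o = 0) {q : Pt} {t : Tb8} {δ : ℝ} (hT : HT q t δ)
    (hq : q.par = par6) (q0 : q.of 0 ≤ 0) (q1 : 0 ≤ q.of 1) (h : ReqSW SB T g0 e0 pI) :
    UXC (famLC xIx zIx T (okIx g0 e0) (-(0 * NUP1.l)) (0 * NUP1.l)) par6 :=
  (inUX_SW he ho hT hq q0 q1 h).ux

/-- **the record of every index of the block S-W** -/
theorem famW_SW (he : Ends.e = 0) (ho : Ends.o = 0) {q : Pt} {t : Tb8} {δ : ℝ} (hT : HT q t δ)
    (hq : q.par = par6) (q0 : q.of 0 ≤ 0) (q1 : 0 ≤ q.of 1) (h : ReqSW SB T g0 e0 pI) : FamW g0 e0 :=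
  famW_of_ux h.h1 h.seas (by simp) (by simp) (ux_SW he ho hT hq q0 q1 h)

end PLT

end
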