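import Pool.Agent.PLT.CutAx
import Pool.Agent.PLT.UXL
import Pool.Agent.PLT.UVI
import Pool.Agent.PLT.SeaI

/-!
# The family of the legs over the heights: seas, cutoff, environment, stability (helper64)

Contents `xI m h` on the imaginary axis, `|h i| ≤ 1 / 100`, seas `S m h` on the line, legs `z` in the window `okLI`.

* `SeaH SB S`: the sea of the heights (class, flat curve, content); `seaV_flat`: `SeaV` of a flat sea from its sums;
* **`cutL_ax`**: the cutoff of the family of the legs over any contents on the axis (heights `≤ 1`), flat seas;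
* `seasL_LI`, **`cutLI`**, `valF_LI`, `envF_LI`; `winQ_LI`, `stabF_LI`;
* `seaV_seaI`, **`seaH_I`**: the straight seas of all rows (`PLT/SeaI`);
* **`reqLI`**: `ReqL` at `par6` from the gas theorem and the one body data; `inUX_LI`, **`ux_LI`**; `reqSW_I`: `ReqSW`.
-/

set_option autoImplicit false
set_option linter.unusedSectionVars false
set_option linter.unusedVariables false

noncomputable section

open Complex MeasureTheory Finset
open scoped ENNReal
open PLX (Fil Ends)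

namespace PLT.St

open NUO NUP1 NUP1S NUP1S.Ab NUP1S.AbC NUGC NUGC.PLX PHK
open PBU.PLX (T1L)
open _root_.Pool.Agent.PLX (yq rwq)
open PLT.Le (SeaV CntV)

/-- **a flat sea of a content** from its density and fields -/
theorem seaV_flat [SeaC] {κ : Type} [Fintype κ] {w : κ → ℝ} {X : κ → ℂ} (h0 : Cv.eta = fun _ => (0 : ℝ))
    (hP : ∀ t : ℝ, ((Cv.P t : ℝ) : ℂ) = ∑ i, (w i : ℂ) * NUMF.Pc (t + X i * I)) (hw : ∀ i, 0 ≤ w i)
    (h1 : ∀ i, (X i).re = 0) (h2 : ∀ i, |(X i).im| ≤ 1) (h3 : ∑ i, w i = 1)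
    (vs : ∀ z, Cv.vs z = ∑ i, (w i : ℂ) * NUAct.vs (z + X i * I))
    (vx : ∀ z, Cv.vx z = ∑ i, (w i : ℂ) * NUAct.vx (z + X i * I)) : SeaV w X := by
  have hl := NUMF.l_pos
  have hd : deriv Cv.eta = fun _ => (0 : ℝ) := by
    rw [h0]
    funext t
    simp
  refine Le.SeaV.of1 ⟨⟨fun t => ?_, ?_, ⟨0, le_rfl, fun t => ?_⟩, fun t => ?_, fun t => ?_⟩, fun i => ?_, fun i => ?_,
    fun t => ?_⟩ hw (fun i => ?_) h2 h3 vs vx
  · rw [hd, h0]
    exact hasDerivAt_const t 0
  · rw [hd]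
    exact continuous_const
  · rw [hd]
    simp
  · rw [h0]
    show -(NUMF.l / 1000) ≤ 0
    linarith
  · rw [h0]
    show (0 : ℝ) ≤ 3 / 50 * NUMF.l
    positivity
  · rw [h1]
    linarith
  · rw [h1]
    linarith
  · rw [hP, hd, h0]
    unfold PCx cpt cjc
    simp
  · rw [h1]
    positivity

/-- the straight sea of weights `w` at heights `h` is the sea of its content -/
theorem seaV_seaW {κ : Type} [Fintype κ] (w h : κ → ℝ) (hw : WtI w) (hh : ∀ i, |h i| ≤ 1) :
    @SeaV κ _ (seaW w h hw) w (fun i => I * (h i : ℂ)) := by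
  let _ : SeaC := seaW w h hw
  have e : ∀ (z : ℂ) (i : κ), z + I * (h i : ℂ) * I = z - h i := fun z i => by
    linear_combination (h i : ℂ) * I_sq
  refine seaV_flat rfl (fun t => ?_) hw.nn (fun i => by simp) (fun i => by simpa using hh i) hw.sum (fun z => ?_)
    fun z => ?_
  · have h1 := dnI_real w h t
    show ((dnI w h t : ℝ) : ℂ) = _
    rw [← h1]
    unfold avW
    exact Finset.sum_congr rfl fun i _ => by rw [e]
  · show avW w h NUAct.vs z = _
    unfold avW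
    exact Finset.sum_congr rfl fun i _ => by rw [e]
  · show avW w h NUAct.vx z = _
    unfold avW
    exact Finset.sum_congr rfl fun i _ => by rw [e]

/-- **the straight sea of `m` rows is the sea of its content** -/
theorem seaV_seaI {m : ℕ} (hm : 0 < m) {h : ℕ → ℝ} (hh : ∀ i, i < m → |h i| ≤ 1) :
    @SeaV (Fin m) _ (seaI m h) (fun _ => (m : ℝ)⁻¹) (fun i => I * (h i : ℂ)) := by
  rw [seaI_pos hm]
  exact seaV_seaW (wI m) (fun i : Fin m => h i) (wtI hm) fun i => hh i i.2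

/-- **the seas of the heights**: class, flat curve, content -/
structure SeaH (SB : SeaCB) (S : ℕ → (ℕ → ℝ) → SeaC) : Prop where
  sea : ∀ m h, HtS h → @SeaCU SB (S m h)
  eta : ∀ m h, HtS h → @Cv.eta (S m h) = fun _ => 0
  cnt : ∀ m h, HtS h → ∃ (κ : Type) (_ : Fintype κ) (w : κ → ℝ) (X : κ → ℂ),
    @SeaV κ _ (S m h) w X ∧ CntV w X (xI m h)

/-- **the straight seas of all rows** -/
theorem seaH_I : SeaH seaIB seaI where
  sea m h hh := seaIU fun i _ => (hh i).trans (by norm_num)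
  eta m h _ := seaI_eta m h
  cnt m h hh := by
    have hh' : ∀ i, |h i| ≤ 1 := fun i => (hh i).trans (by norm_num)
    rcases Nat.eq_zero_or_pos m with rfl | hm
    · refine ⟨Fin 1, inferInstance, fun _ => 1, fun _ => I * ((0 : ℝ) : ℂ), ?_, ⟨fun F => by simp, fun i => i.elim0⟩⟩
      have e : seaI 0 h = seaW (fun _ : Fin 1 => 1) (fun _ => 0) wtI1 := dif_neg (lt_irrefl 0)
      rw [e]
      exact seaV_seaW (fun _ : Fin 1 => (1 : ℝ)) (fun _ => 0) wtI1 fun i => by norm_num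
    · exact ⟨Fin m, inferInstance, _, _, seaV_seaI hm fun i _ => hh' i, cntV_all hm _⟩

variable {SB : SeaCB} {S : ℕ → (ℕ → ℝ) → SeaC}

theorem seasL_LI (h : SeaH SB S) : SeasL (fun m i => xI m i.1) (fun i => i.2) (fun m i => S m i.1) okLI where
  sea m i hi := h.cnt m i.1 hi.1
  ht m i hi := hi.2.2.2

theorem winQ_LI (h : SeaH SB S) (m : ℕ) (i : (ℕ → ℝ) × ℂ) (hi : okLI m i) : ∀ x, |@Cv.eta (S m i.1) x| ≤ NUMF.l / 128 := by
  intro x
  have hl := NUMF.l_pos
  rw [h.eta m i.1 hi.1]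
  simp
  positivity

variable [Fil] [Ends]

/-- **the cutoff of the family of the legs**, contents on the axis, flat seas, any index set -/
theorem cutL_ax (he : Ends.e = 0) (ho : Ends.o = 0) {ι : Type} {x : (m : ℕ) → ι → Fin m → ℂ} {z : ι → ℂ}
    {T : ℕ → ι → SeaC} {ok : ℕ → ι → Prop} (hs : ∀ m i, ok m i → @SeaCU SB (T m i))
    (h0 : ∀ m i, ok m i → @Cv.eta (T m i) = fun _ => 0)
    (hx : ∀ m i, ok m i → ∀ k, (x m i k).re = 0 ∧ |(x m i k).im| ≤ 1) :
    ∀ ep : ℝ, 0 < ep → ep ≤ 1 / 100 → ∀ e1 : ℝ, 0 < e1 → e1 ≤ 1 / 100 → ∀ J : ℝ, 0 ≤ J →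
      ∃ C0 : ℝ, 1 ≤ C0 ∧ ∃ m0 : ℕ, ∀ m ≥ m0, ∀ i, ok m i →
        @CutBC (T m i) _ ep e1 C0 m (@Cv.etaC (T m i) e1 J m m) (BLC x z ep m i) := by
  intro ep hep hep1 e1 he1 he2 J hJ
  have hl := NUP1.l_pos
  obtain ⟨C0, hC0, m0, H⟩ := cutBC_ax SB hep hep1 he1 he2 hJ 2 (hh := 1) zero_le_one
  refine ⟨C0, hC0, m0, fun m hm i hi => ?_⟩
  let _ : SeaC := T m i
  have hu : SeaCU SB := hs m i hi
  have hlen : ∀ a, (List.ofFn (rwq (x m i) a)).length = Fil.ne a m := by
    intro a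
    rw [List.length_ofFn, Pool.Agent.PLX.cond_eq]
    unfold Fil.ne
    rw [he, ho, Nat.sub_zero, Nat.add_zero]
    cases a <;> rfl
  have hpl : ∀ a, ∀ y ∈ List.ofFn (rwq (x m i) a), y.re = 0 ∧ |y.im| ≤ 1 := by
    intro a y hy
    obtain ⟨j, rfl⟩ := (List.mem_ofFn' _ _).1 hy
    cases a
    · exact hx m i hi _
    · exact hx m i hi _
  refine H m hm (BLC x z ep m i) (fun a => List.ofFn (rwq (x m i) a))
    (fun a => List.ofFn (rwq (x m i) a) ++ [I, -I]) (fun _ => [I, -I]) (h0 m i hi) (fun a => rfl)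
    (fun a => ⟨List.Perm.refl _, hpl a, le_rfl, ?_, ?_, ?_⟩)
  · intro y hy
    rw [List.mem_cons, List.mem_singleton] at hy
    rcases hy with rfl | rfl
    · rw [Complex.I_re, Complex.I_im, abs_one, abs_zero]
      exact ⟨by positivity, le_rfl⟩
    · rw [Complex.neg_re, Complex.neg_im, Complex.I_re, Complex.I_im, neg_zero, abs_zero, abs_neg, abs_one]
      exact ⟨by positivity, le_rfl⟩
  · rw [hlen]
    omega
  · rw [hlen]
    omega

/-- **the cutoff of the family of the legs over the heights** -/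
theorem cutLI (he : Ends.e = 0) (ho : Ends.o = 0) (h : SeaH SB S) :
    ∀ ep : ℝ, 0 < ep → ep ≤ 1 / 100 → ∀ e1 : ℝ, 0 < e1 → e1 ≤ 1 / 100 → ∀ J : ℝ, 0 ≤ J →
      ∃ C0 : ℝ, 1 ≤ C0 ∧ ∃ m0 : ℕ, ∀ m ≥ m0, ∀ i, okLI m i →
        @CutBC (S m i.1) _ ep e1 C0 m (@Cv.etaC (S m i.1) e1 J m m)
          (BLC (fun m (i : (ℕ → ℝ) × ℂ) => xI m i.1) (fun i => i.2) ep m i) :=
  cutL_ax he ho (fun m i hi => h.sea m i.1 hi.1) (fun m i hi => h.eta m i.1 hi.1)
    fun m i hi k => ⟨(rws0_xI hi.1 m).re k, (rws0_xI hi.1 m).im k⟩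

/-- **the value** -/
theorem valF_LI (he : Ends.e = 0) (ho : Ends.o = 0) (h : SeaH SB S) :
    ValF (famLI S) (linLC (fun i => i.2) fun m i => S m i.1) :=
  valF_L he ho (fun m i hi => h.sea m i.1 hi.1) (seasL_LI h) (fun m i hi => ⟨hi.2.1, hi.2.2.1.le⟩) _ _

/-- **the environment** -/
theorem envF_LI (he : Ends.e = 0) (ho : Ends.o = 0) (h : SeaH SB S) :
    EnvFC (famLI S) (fun m i => S m i.1) (BLC (fun m (i : (ℕ → ℝ) × ℂ) => xI m i.1) fun i => i.2)
      (linLC (fun i => i.2) fun m i => S m i.1) :=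
  envF_L he ho (cntLI h.sea h.eta) (seasL_LI h) (fun m i hi => hi.2.2.1.le) (cutLI he ho h)

/-- **stability**, from the certificate of the point `par6` with two lines -/
theorem stabF_LI {q : Pt} {t : Tb8} {δ : ℝ} (hT : HT q t δ) (hq : q.par = par6)
    (hW : ∀ S : SeaC, (∀ x, |@Cv.eta S x| ≤ NUMF.l / 128) → WinQ q S) (h : SeaH SB S) :
    StabF (famLI S) par6 fun m i => enT par6 (S m i.1) := by
  have h1 := stabF_enT (F := famLI S) (S := fun m i => S m i.1) hT fun m i hi => hW _ (winQ_LI h m i hi)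
  rwa [hq] at h1

/-- **the inputs of the family of the legs over the heights** -/
theorem reqLI (he : Ends.e = 0) (ho : Ends.o = 0) (h : SeaH SB S) {en : EnC} {pT : ℕ → (ℕ → ℝ) × ℂ → Bool → ℝ → ℝ}
    (gas : S4MC SB par6 en) (stab : StabF (famLI S) par6 fun m i => en (S m i.1))
    (dat : DatF (famLI S) par6 (BLC (fun m (i : (ℕ → ℝ) × ℂ) => xI m i.1) fun i => i.2) (fun m i => S m i.1) pT) :
    ReqL SB par6 en (fun m (i : (ℕ → ℝ) × ℂ) => xI m i.1) (fun i => i.2) (fun m i => S m i.1) okLI pT 0 0 where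
  cnt := cntLI h.sea h.eta
  seas := seasL_LI h
  z3 m i hi := hi.2.2.1.le
  cut := cutLI he ho h
  gas := gas
  stab := stab
  dat := dat

/-- **the record of the family of the legs over the heights** -/
theorem inUX_LI (he : Ends.e = 0) (ho : Ends.o = 0) (h : SeaH SB S) {en : EnC} {pT : ℕ → (ℕ → ℝ) × ℂ → Bool → ℝ → ℝ}
    (gas : S4MC SB par6 en) (stab : StabF (famLI S) par6 fun m i => en (S m i.1))
    (dat : DatF (famLI S) par6 (BLC (fun m (i : (ℕ → ℝ) × ℂ) => xI m i.1) fun i => i.2) (fun m i => S m i.1) pT) :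
    InUX SB (famLI S) par6 (fun m i => S m i.1) (BLC (fun m (i : (ℕ → ℝ) × ℂ) => xI m i.1) fun i => i.2) en
      (linLC (fun i => i.2) fun m i => S m i.1) pT 0 0 :=
  inUX_L he ho par6_good (reqLI he ho h gas stab dat)

/-- **U1, U3, U4 of the legs over the heights** -/
theorem ux_LI (he : Ends.e = 0) (ho : Ends.o = 0) (h : SeaH SB S) {en : EnC} {pT : ℕ → (ℕ → ℝ) × ℂ → Bool → ℝ → ℝ}
    (gas : S4MC SB par6 en) (stab : StabF (famLI S) par6 fun m i => en (S m i.1))
    (dat : DatF (famLI S) par6 (BLC (fun m (i : (ℕ → ℝ) × ℂ) => xI m i.1) fun i => i.2) (fun m i => S m i.1) pT) :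
    UXC (famLI S) par6 := (inUX_LI he ho h gas stab dat).ux

/-! ### the block of the levels -/

open PLT.SW (IxW xIx zIx okIx SeaIx)

/-- **the inputs of the block of the levels** over the straight seas: gas theorem and one body data -/
theorem reqSW_I (he : Ends.e = 0) (ho : Ends.o = 0) {h0 e0 : ℝ} (h1 : h0 ≤ 1) (e1 : e0 ≤ 3 / 20)
    {pT : ℕ → IxW → Bool → ℝ → ℝ} (seas : SeaIx seaIB (fun m i => seaI m i.1) h0 e0)
    (gas : S4MC seaIB par6 (enT par6))
    (dat : DatF (famLC xIx zIx (fun m i => seaI m i.1) (okIx h0 e0) (-(0 * NUP1.l)) (0 * NUP1.l)) par6 (BLC xIx zIx)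
      (fun m i => seaI m i.1) pT) : ReqSW seaIB (fun m i => seaI m i.1) h0 e0 pT where
  h1 := h1
  e1 := e1
  seas := seas
  seaV m i hi := seaV_seaI hi.1 fun k hk => (hi.2.1 k hk).trans h1
  cut := cutL_ax he ho seas.sea (fun m i hi => funext (seas.eta m i hi)) fun m i hi k => by
    refine ⟨by simp [PLT.SW.xIx], ?_⟩
    have h2 := (hi.2.1 k k.2).trans h1
    simpa [PLT.SW.xIx] using h2
  gas := gas
  dat := dat

end PLT.St

end
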