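import Pool.Agent.PLT.LegC
import Pool.Agent.PLT.UXL

/-!
# The one body data at complex separation: `a0 : b0` rows at the two places `-pz D`, `qz D`

* `cntX_UB`: the rows of a species against the proportions, exactly; `cntDX_UB`: the content `xUB` over its sea;
* `cntL2_UB`, **`datF_UB`**: the field `dat` of `ReqUB` at the point of the tilted sea, from `SeaOX` alone.
-/

set_option autoImplicit false
set_option linter.unusedSectionVars false

noncomputable section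

open Complex MeasureTheory Finset
open scoped ENNReal
open PLX (Fil Ends)

namespace PLT

open NUO NUP1 NUP1S NUP1S.Ab NUP1S.AbC
open NUGC.PLX (OB pE qE)
open PHK
open PotH.PLX (sN)
open Pool.Agent.PLX (rwq yq)
open PLT.Pa (pz qz)

section exact

variable [Fil] {a0 b0 : ℕ}

/-- **the rows of a species against the proportions**, exactly -/
theorem cntX_UB (hab : 0 < a0 + b0) {m k : ℕ} (hm : m = k * a0 + k * b0) (i : ℂ × ℂ) (a : Bool) :
    CntX 0 (w2B a0 b0) (X2B a0 b0 i.1) (cq (xUB a0 b0 m i) a) 0 := by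
  have hV := cntV_UB hab hm i
  have hs : ((a0 : ℝ) + b0) ≠ 0 := by
    have : (0 : ℝ) < (a0 : ℝ) + b0 := by exact_mod_cast hab
    exact this.ne'
  refine ⟨fun y hy => ?_, fun j => Fil.n a * (k * (![a0, b0] : Fin 2 → ℕ) j), fun f => ?_, fun j => ?_⟩
  · unfold cq at hy
    rw [List.mem_ofFn] at hy
    obtain ⟨j, rfl⟩ := hy
    cases a
    · exact hV.mem _
    · exact hV.mem _
  · unfold cq
    rw [List.map_ofFn, List.sum_ofFn]
    have h1 := Pool.Agent.PLX.sum_rwq_real f (xUB a0 b0 m i) a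
    have h2 := hV.sum f
    simp only [Function.comp_apply]
    rw [h1, h2, ← Fil.cast_n, hm, Fin.sum_univ_two, Fin.sum_univ_two]
    show ((Fil.n a : ℕ) : ℝ) * (((k * a0 + k * b0 : ℕ) : ℝ) * ((a0 : ℝ) / (a0 + b0) * f (X2B a0 b0 i.1 0) +
      (b0 : ℝ) / (a0 + b0) * f (X2B a0 b0 i.1 1))) = ((Fil.n a * (k * a0) : ℕ) : ℝ) * f (X2B a0 b0 i.1 0) +
      ((Fil.n a * (k * b0) : ℕ) : ℝ) * f (X2B a0 b0 i.1 1)
    push_cast
    field_simp
  · rw [cq_length, ← Fil.cast_n, hm]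
    refine le_of_eq ?_
    rw [abs_eq_zero]
    fin_cases j
    · show (((Fil.n a : ℕ) : ℝ) * ((k * a0 + k * b0 : ℕ) : ℝ) + ((0 : ℕ) : ℝ)) * ((a0 : ℝ) / (a0 + b0)) -
        ((Fil.n a * (k * a0) : ℕ) : ℝ) = 0
      push_cast
      field_simp
      ring
    · show (((Fil.n a : ℕ) : ℝ) * ((k * a0 + k * b0 : ℕ) : ℝ) + ((0 : ℕ) : ℝ)) * ((b0 : ℝ) / (a0 + b0)) -
        ((Fil.n a * (k * b0) : ℕ) : ℝ) = 0
      push_cast
      field_simp
      ring

/-- **the content at complex separation over its sea** -/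
theorem cntDX_UB [SeaC] (ha : 1 ≤ a0) (hab : a0 ≤ b0) {d1 : ℝ} (hd : d1 ≤ 1 / 40) {de s0 lo hi : ℝ}
    (hde : 0 < de) (hde1 : de ≤ 1 / 50) {m : ℕ} {i : ℂ × ℂ} (hok : okUB a0 b0 d1 m i)
    (hso : SeaOX de s0 lo hi (w2B a0 b0) (X2B a0 b0 i.1)) :
    CntDX de s0 lo hi ((a0 : ℝ) / (a0 + b0)) 0 1 0 (w2B a0 b0) (X2B a0 b0 i.1) (cq (xUB a0 b0 m i))
      (fun _ => 0) (fun _ => []) (cq (xUB a0 b0 m i)) 0 m := by
  have hA : (1 : ℝ) ≤ a0 := by exact_mod_cast ha
  have hB : (a0 : ℝ) ≤ b0 := by exact_mod_cast hab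
  have hs : (0 : ℝ) < (a0 : ℝ) + b0 := by linarith
  have hl := PLT.Pa.l_gt
  obtain ⟨r0, r1⟩ := re_places ha (ha.trans hab) hd hok.D
  have r0' := abs_le.1 r0
  have r1' := abs_le.1 r1
  have e0 : X2B a0 b0 i.1 0 = -pz a0 b0 i.1 := rfl
  have e1 : X2B a0 b0 i.1 1 = qz a0 b0 i.1 := rfl
  have hX : ∀ j, |(X2B a0 b0 i.1 j).re| ≤ d1 := by
    intro j
    fin_cases j
    · exact r0
    · exact r1
  have eN : (NUMF.l : ℝ) = NUP1.l := rfl
  obtain ⟨k, hk⟩ := hok.k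
  refine ⟨hso, fun j => ?_, fun j j' => ?_, ?_, fun a => cntX_UB (by omega) hk i a,
    ⟨zero_le_one, hde, hde1, fun _ => le_rfl, fun s => by rw [List.append_nil], fun s => rfl,
      fun s y hy => absurd hy List.not_mem_nil, fun s y hy => absurd hy List.not_mem_nil⟩, fun a => ?_⟩
  · fin_cases j
    · exact le_rfl
    · show (a0 : ℝ) / (a0 + b0) ≤ (b0 : ℝ) / (a0 + b0)
      exact div_le_div_of_nonneg_right hB hs.le
  · have h1 := abs_le.1 (hX j)
    have h2 := abs_le.1 (hX j')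
    linarith
  · have h1 : ∀ j, (if -(1 / 4) * l ≤ (X2B a0 b0 i.1 j).re then w2B a0 b0 j else 0) = w2B a0 b0 j := by
      intro j
      refine if_pos ?_
      have h1 := abs_le.1 (hX j)
      linarith
    rw [Finset.sum_congr rfl fun j _ => h1 j]
    have h2 : 0 ≤ ∑ j, w2B a0 b0 j := Finset.sum_nonneg fun j _ => hso.nn j
    linarith
  · unfold nX
    rw [cq_length]
    have hb : (1 : ℝ) ≤ Fil.b a := by
      cases a
      · exact Fil.one_le_qr
      · exact le_rfl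
    have hm0 : (0 : ℝ) ≤ m := Nat.cast_nonneg m
    push_cast
    nlinarith

/-- **the contents of the family at complex separation** -/
theorem cntL2_UB (ha : 1 ≤ a0) (hab : a0 ≤ b0) {d1 : ℝ} (hd : d1 ≤ 1 / 40) {de s0 lo hi : ℝ}
    (hde : 0 < de) (hde1 : de ≤ 1 / 50) (hdd : d1 ≤ de / 10 * l) {S : ℕ → ℂ × ℂ → SeaC}
    (hso : ∀ m i, okUB a0 b0 d1 m i → @SeaOX (Fin 2) _ (S m i) de s0 lo hi (w2B a0 b0) (X2B a0 b0 i.1)) :
    CntL2 de s0 lo hi ((a0 : ℝ) / (a0 + b0)) 0 (xUB a0 b0) (fun i => i.2) S (okUB a0 b0 d1) where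
  cnt := by
    refine ⟨0, fun m _ i hok => ⟨w2B a0 b0, X2B a0 b0 i.1, ?_, ?_, ?_, ?_⟩⟩
    · exact @cntDX_UB _ a0 b0 (S m i) ha hab d1 hd de s0 lo hi hde hde1 m i hok (hso m i hok)
    · have hA : (1 : ℝ) ≤ a0 := by exact_mod_cast ha
      have hB : (a0 : ℝ) ≤ b0 := by exact_mod_cast hab
      show (a0 : ℝ) / (a0 + b0) ≤ (b0 : ℝ) / (a0 + b0)
      exact div_le_div_of_nonneg_right hB (by linarith)
    · have hl := PLT.Pa.l_gt
      have eN : (NUMF.l : ℝ) = NUP1.l := rfl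
      obtain ⟨r0, -⟩ := re_places ha (ha.trans hab) hd hok.D
      have := abs_le.1 r0
      show (-pz a0 b0 i.1).re ≤ l / 10
      linarith
    · obtain ⟨-, r1⟩ := re_places ha (ha.trans hab) hd hok.D
      have := abs_le.1 r1
      show -(de / 10 * l) ≤ (qz a0 b0 i.1).re
      linarith
  z1 m i hi := by
    have hl := NUP1.l_pos
    have := hi.z1
    show -(9 / 10 * l) ≤ i.2.re
    linarith
  z2 m i hi := by
    have hl := NUP1.l_pos
    have := hi.z2
    show i.2.re ≤ 29 / 10 * l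
    linarith

end exact

variable [Fil] [Ends] {a0 b0 : ℕ}

/-- **the one body data at complex separation**, the point of the tilted sea -/
theorem datF_UB (he : Ends.e = 0) (ho : Ends.o = 0) (ha : 1 ≤ a0) (hab : a0 ≤ b0) {d1 : ℝ} (hd : d1 ≤ 1 / 40)
    {de s0 lo hi : ℝ} (hde : 0 < de) (hde1 : de ≤ 1 / 50) (hs0 : 0 ≤ s0) (hs : 10000000 * s0 ≤ de ^ 2)
    (hlo0 : lo ≤ 0) (hlo2 : -(de / 2) ≤ lo) (hhi : hi ≤ 7 / 120) (hdd : d1 ≤ de / 10 * l)
    {S : ℕ → ℂ × ℂ → SeaC}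
    (hso : ∀ m i, okUB a0 b0 d1 m i → @SeaOX (Fin 2) _ (S m i) de s0 lo hi (w2B a0 b0) (X2B a0 b0 i.1))
    (lo' hi' : ℝ) :
    DatF (famLC (xUB a0 b0) (fun i => i.2) S (okUB a0 b0 d1) lo' hi') parTh
      (BLC (xUB a0 b0) fun i => i.2) S (pTL (xUB a0 b0)) := by
  have hl := PLT.Pa.l_gt
  have hl2 := PLT.Pa.l_lt
  have eN : (NUMF.l : ℝ) = NUP1.l := rfl
  have hA : (1 : ℝ) ≤ a0 := by exact_mod_cast ha
  have hB : (0 : ℝ) ≤ b0 := Nat.cast_nonneg _
  have hs1 : s0 ≤ de ^ 2 / 10000000 := by linarith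
  have hs2 : de ^ 2 ≤ 1 / 50 * de := by nlinarith
  have hdl : de / 2 ≤ de + lo := by linarith
  have hdl0 : 0 < de + lo := by linarith
  refine datF_L2 he ho (lnT_good parTh_good) (by norm_num [parTh]) hdl0 hde1 hs0
    (by nlinarith) (by nlinarith) hlo0 (by linarith) (by norm_num [parTh]; linarith)
    (by norm_num [parTh]; linarith) (by norm_num [parTh]; linarith) ?_ (by positivity) le_rfl
    (cntL2_UB ha hab hd hde hde1 hdd hso) lo' hi'
  -- the condition on the heights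
  have h1 : (de / 2 * (39 / 100)) ^ 2 ≤ ((de + lo) * l) ^ 2 :=
    pow_le_pow_left₀ (by positivity) (mul_le_mul hdl hl.le (by norm_num) hdl0.le) 2
  have h2 : 0 < ((de + lo) * l) ^ 2 := by
    have : 0 < l := by linarith
    positivity
  rw [div_mul_eq_mul_div, div_le_iff₀ h2]
  have h3 : 1 / 60 * (39 / 100) ≤ (parTh.j1 - hi) * l := by
    refine mul_le_mul ?_ hl.le (by norm_num) ?_
    · norm_num [parTh]
      linarith
    · norm_num [parTh]
      linarith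
  calc 4 * s0 ≤ 1 / 60 * (39 / 100) * (de / 2 * (39 / 100)) ^ 2 := by nlinarith [sq_nonneg de]
    _ ≤ (parTh.j1 - hi) * l * ((de + lo) * l) ^ 2 :=
        mul_le_mul h3 h1 (by positivity) (le_trans (by norm_num) h3)

end PLT

end
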