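import Pool.Agent.PLT.CutLC
import Pool.Agent.PLT.UXL
import Pool.Agent.PLT.SeaYB
import Pool.Agent.PLT.LegCU
import Pool.Agent.PLT.StabT

/-!
# The upper bound at complex separation, up to the gas theorem

* `SUB a0 b0`: the seas of the contents `xUB`, `seaLX_UB`: in the form of the one body bounds;
* **`reqUB`**: 91's record `ReqUB` for `1 ≤ a0 < b0`, small `d1`, the gas theorem is the only input;
* **`ubd_AB`**: `UBD q a0 b0 d1` for all small `d1`.
-/

set_option autoImplicit false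
set_option linter.unusedSectionVars false
set_option linter.unusedVariables false

noncomputable section

open Complex MeasureTheory Finset
open PLX (Fil Ends)

namespace PLT

open NUMF (l l_pos)
open PLT.Le (SeaV CntV)
open PLT.FS (UBD)

/-- the seas of the contents `xUB` -/
@[reducible] def SUB (a0 b0 : ℕ) : ℕ → ℂ × ℂ → SeaC := fun _ i => seaAB a0 b0 i.1

variable {a0 b0 : ℕ} {d1 : ℝ}

private theorem l_le1 : l ≤ 2 / 5 := by
  unfold NUMF.l
  linarith [Real.pi_lt_d2]

/-- the sea at a separation of the small disc -/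
theorem seaAt_UB (ha : 1 ≤ a0) (hab : a0 < b0) (h1 : d1 < deAB a0 b0) {D : ℂ} (hD : ‖D‖ ≤ d1) :
    SeaAt a0 b0 (SBAB a0 b0) D (seaAB a0 b0 D) :=
  (seasAB (A := a0) (B := b0) (by exact_mod_cast ha) (by exact_mod_cast hab)).at' D
    (disc_Nz h1 hD)

theorem seaOX_UB (ha : 1 ≤ a0) (hab : a0 < b0) (h1 : d1 < deAB a0 b0) {D : ℂ} (hD : ‖D‖ ≤ d1) :
    @SeaOX (Fin 2) _ (seaAB a0 b0 D) (cAB a0 b0) (gAB a0 b0) (-gAB a0 b0) (7 / 120) (w2B a0 b0)
      (X2B a0 b0 D) := by
  have hA : (0 : ℝ) < a0 := by exact_mod_cast ha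
  have hAB : (a0 : ℝ) < b0 := by exact_mod_cast hab
  have g1 := gAB_c hA hAB
  have g2 := gAB_pos hA hAB
  exact (seaAt_UB ha hab h1 hD).ox (-gAB a0 b0) (7 / 120) (by linarith) (by linarith) le_rfl
    (by norm_num)

/-- **the seas of the contents in the form of the one body bounds** -/
theorem seaLX_UB (ha : 1 ≤ a0) (hab : a0 < b0) (h1 : d1 < deAB a0 b0) :
    SeaLX (SBAB a0 b0) (cAB a0 b0) (gAB a0 b0) (-gAB a0 b0) (7 / 120) (xUB a0 b0) (SUB a0 b0)
      (okUB a0 b0 d1) where
  sea m i hi := (seaAt_UB ha hab h1 hi.D).su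
  cnt m i hi := by
    obtain ⟨k, hk⟩ := hi.k
    exact ⟨Fin 2, inferInstance, w2B a0 b0, X2B a0 b0 i.1, seaOX_UB ha hab h1 hi.D,
      cntV_UB (by omega) hk i, (seaAt_UB ha hab h1 hi.D).fs, (seaAt_UB ha hab h1 hi.D).fx⟩
  scal m i hi t := by
    have hA : (0 : ℝ) < a0 := by exact_mod_cast ha
    have hAB : (a0 : ℝ) < b0 := by exact_mod_cast hab
    have h2 := (seaAt_UB ha hab h1 hi.D).sc t
    have g1 := gAB_sq hA hAB
    have c1 := cAB_le (a0 : ℝ) b0
    have c2 := cAB_pos hA hAB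
    have hl : (3 / 8 : ℝ) < l := by
      unfold NUMF.l
      linarith [Real.pi_gt_three]
    have g3 : gAB a0 b0 ≤ 1 / 1000 := gAB_le hA hAB
    refine le_trans ?_ h2
    linarith

variable [Fil] [Ends]

/-- **the record of the upper bound**: the gas theorem is the only input -/
theorem reqUB (he : Ends.e = 0) (ho : Ends.o = 0) (ha : 1 ≤ a0) (hab : a0 < b0)
    (h1 : d1 < deAB a0 b0) (gas : S4MC (SBAB a0 b0) parTh (enT parTh)) :
    ReqUB (SBAB a0 b0) a0 b0 d1 (SUB a0 b0) (pTL (xUB a0 b0)) (1 / 1000) (1 / 1000) := by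
  have hA : (0 : ℝ) < a0 := by exact_mod_cast ha
  have hAB : (a0 : ℝ) < b0 := by exact_mod_cast hab
  have H := seasAB (A := a0) (B := b0) hA hAB
  have hl := l_pos
  have hl1 := l_le1
  have hlN : (NUP1.l : ℝ) = l := rfl
  have k1 := H.del
  have k2 := H.dec
  have k3 := H.g7
  have g1 := gAB_c hA hAB
  have g2 := gAB_pos hA hAB
  have g3 := gAB_le hA hAB
  have c1 := cAB_le (a0 : ℝ) b0
  have c2 := cAB_pos hA hAB
  have hw : ∀ D : ℂ, ‖D‖ ≤ d1 → ∀ t, |(seaAB a0 b0 D).eta t| ≤ l / 1000 := fun D hD t => by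
    have h5 := (Complex.abs_re_le_norm D).trans hD
    exact (seaAt_UB ha hab h1 hD).small hA (hA.trans hAB) H.de1 (disc_Nz h1 hD) (by linarith)
      (by linarith) t
  exact
    { d1' := by linarith
      lo1 := le_rfl
      hi1 := by norm_num
      sea := fun m i hi => (seaAt_UB ha hab h1 hi.D).su
      win := fun m i hi => by
        have h6 := hw i.1 hi.D
        refine @WinC.mk (SUB a0 b0 m i) _ _ ?_ ?_ (fun t => ?_) fun t => ?_
        · rw [hlN]
          linarith
        · rw [hlN]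
          positivity
        · rw [hlN]
          have h7 : -(l / 1000) ≤ @Cv.eta (SUB a0 b0 m i) t := (abs_le.1 (h6 t)).1
          linarith
        · rw [hlN]
          have h7 : @Cv.eta (SUB a0 b0 m i) t ≤ l / 1000 := (abs_le.1 (h6 t)).2
          linarith
      seaV := fun m i hi => @Le.SeaV.of_ox _ _ _ _ (SUB a0 b0 m i) _ _ _ _
        (seaOX_UB ha hab h1 hi.D) (by linarith) (by norm_num) (by linarith) (by linarith) c2.le
        (seaAt_UB ha hab h1 hi.D).fs (seaAt_UB ha hab h1 hi.D).fx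
      cut := cutL he ho (seaLX_UB ha hab h1) c2 (by linarith) g2.le (by linarith) (by linarith)
        (by linarith) (by norm_num)
      gas := gas
      dat := datF_UB he ho ha hab.le (by linarith) c2 c1 g2.le (by linarith) (by linarith)
        (by linarith) (by norm_num) (by rw [hlN]; linarith) (fun m i hi => seaOX_UB ha hab h1 hi.D) _ _ }

/-- **the upper bound at complex separation** from the gas theorem -/
theorem ubd_AB (he : Ends.e = 0) (ho : Ends.o = 0) (ha : 1 ≤ a0) (hab : a0 < b0)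
    (h1 : d1 < deAB a0 b0) (gas : S4MC (SBAB a0 b0) parTh (enT parTh)) : UBD Fil.q a0 b0 d1 :=
  ubd_fin he ho ha (by omega) htTh (reqUB he ho ha hab h1 gas)

end PLT

end
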