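import Pool.Agent.PLT.Frq8

/-!
# The error of the moved singularity (helper38)

* `sn_le`, `sn_ge`: `log |sinh t| ≤ sn x t ≤ |t|`; `sn_abs`;
* `N2`: size of the swept charges; `swp_ge`, `swp_diff_le`;
* `own_cf`: the own energy with the singularity moved by `δ` as an integral over `k`;
* **`N2_int`**: `N2 cosh (4 l k) / (k sinh (π k / 2))` is integrable on `(1, ∞)`;
* **`Er8_int`**, **`Er8_lim`**: the error is integrable and its integral tends to `0`.
-/

set_option autoImplicit false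

noncomputable section

open MeasureTheory Set Filter
open scoped ComplexConjugate Topology

namespace PLT

open PHK NUP1 NUO NUDispO Pool.Agent.NUM3
open NUMF (sk sk_pos)

/-! ### the sines in real space -/

theorem norm_sq_sn (x t : ℝ) : ‖Complex.sin (((x * l : ℝ) : ℂ) + t * Complex.I)‖ ^ 2 =
    Real.sin (x * l) ^ 2 + Real.sinh t ^ 2 := by
  rw [NUP1.norm_sin_sq]
  have h1 : (((x * l : ℝ) : ℂ) + t * Complex.I).re = x * l := by simp
  have h2 : (((x * l : ℝ) : ℂ) + t * Complex.I).im = t := by simp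
  rw [h1, h2]

theorem sn_eq (x t : ℝ) : sn x t = Real.log (Real.sin (x * l) ^ 2 + Real.sinh t ^ 2) / 2 := by
  unfold sn
  rw [← norm_sq_sn, Real.log_pow]
  push_cast
  ring

theorem sn_abs (x t : ℝ) : sn |x| t = sn x t := by
  rw [sn_eq, sn_eq]
  rcases abs_cases x with ⟨h, _⟩ | ⟨h, _⟩
  · rw [h]
  · rw [h, neg_mul, Real.sin_neg, neg_sq]

theorem sn_ge (x : ℝ) {t : ℝ} (ht : t ≠ 0) : Real.log |Real.sinh t| ≤ sn x t := by
  rw [sn_eq]
  have h1 : Real.sinh t ≠ 0 := by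
    intro h
    exact ht (Real.sinh_eq_zero.1 h)
  have h2 : Real.log |Real.sinh t| = Real.log (Real.sinh t ^ 2) / 2 := by
    rw [Real.log_pow, Real.log_abs]
    push_cast
    ring
  rw [h2]
  have h3 : 0 < Real.sinh t ^ 2 := by positivity
  have := Real.log_le_log h3 (by nlinarith [sq_nonneg (Real.sin (x * l))] :
    Real.sinh t ^ 2 ≤ Real.sin (x * l) ^ 2 + Real.sinh t ^ 2)
  linarith

theorem sn_le (x : ℝ) (t : ℝ) : sn x t ≤ |t| := by
  rw [sn_eq]
  have h1 := Real.cosh_sq t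
  have h2 := Real.sin_sq_add_cos_sq (x * l)
  have h3 : Real.sin (x * l) ^ 2 + Real.sinh t ^ 2 ≤ Real.cosh t ^ 2 := by
    nlinarith [sq_nonneg (Real.cos (x * l))]
  have h4 : Real.cosh t ≤ Real.exp |t| := by
    rw [← Real.cosh_abs, Real.cosh_eq]
    have : Real.exp (-|t|) ≤ Real.exp |t| := Real.exp_le_exp.2 (by linarith [abs_nonneg t])
    linarith
  rcases eq_or_lt_of_le (by positivity : (0:ℝ) ≤ Real.sin (x * l) ^ 2 + Real.sinh t ^ 2) with h5 | h5
  · rw [← h5, Real.log_zero, zero_div]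
    exact abs_nonneg t
  · have h6 : Real.log (Real.sin (x * l) ^ 2 + Real.sinh t ^ 2) ≤ Real.log (Real.exp |t| ^ 2) := by
      refine Real.log_le_log h5 (h3.trans ?_)
      have := Real.cosh_pos t
      nlinarith [Real.exp_pos |t|]
    rw [Real.log_pow, Real.log_exp] at h6
    push_cast at h6
    linarith

/-- the bound of a sine -/
def lb (t : ℝ) : ℝ := |Real.log (|Real.sinh t|)| + |t|

theorem abs_sn_le (x : ℝ) {t : ℝ} (ht : t ≠ 0) : |sn x t| ≤ lb t := by
  have h1 := sn_ge x ht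
  have h2 := sn_le x t
  have h3 := neg_abs_le (Real.log |Real.sinh t|)
  have h4 := abs_nonneg t
  have h5 := abs_nonneg (Real.log |Real.sinh t|)
  unfold lb
  rw [abs_le]
  constructor <;> linarith

/-! ### sizes of the swept charges -/

variable {d : ℝ} {ρ v : Bool → ℝ → ℝ}

/-- size of the swept charges -/
def N2 (ρ v : Bool → ℝ → ℝ) (k z d : ℝ) (a : Bool) : ℝ :=
  (Vf ρ v k z d a 0).re ^ 2 + (Vf ρ v k z d a 0).im ^ 2 + (Vf ρ v k z d a 1).re ^ 2 + (Vf ρ v k z d a 1).im ^ 2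

theorem N2_nonneg (ρ v : Bool → ℝ → ℝ) (k z d : ℝ) (a : Bool) : 0 ≤ N2 ρ v k z d a := by
  unfold N2
  positivity

theorem cross_le (ρ v : Bool → ℝ → ℝ) (k z d : ℝ) (a : Bool) :
    |2 * ((Vf ρ v k z d a 0).re * (Vf ρ v k z d a 1).re + (Vf ρ v k z d a 0).im * (Vf ρ v k z d a 1).im)| ≤
      N2 ρ v k z d a := by
  unfold N2
  rw [abs_le]
  constructor
  · nlinarith [sq_nonneg ((Vf ρ v k z d a 0).re + (Vf ρ v k z d a 1).re),
      sq_nonneg ((Vf ρ v k z d a 0).im + (Vf ρ v k z d a 1).im)]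
  · nlinarith [sq_nonneg ((Vf ρ v k z d a 0).re - (Vf ρ v k z d a 1).re),
      sq_nonneg ((Vf ρ v k z d a 0).im - (Vf ρ v k z d a 1).im)]

theorem swp_ge (ρ v : Bool → ℝ → ℝ) (k z d P : ℝ) (a : Bool) :
    N2 ρ v k z d a * (Real.cosh (z * P) - Real.cosh (z * (P - d))) ≤ swp ρ v k z d P a := by
  have h1 := cross_le ρ v k z d a
  have h2 := (Real.cosh_pos (z * (P - d))).le
  have h3 := (abs_le.1 h1).1
  unfold swp
  show N2 ρ v k z d a * _ ≤ N2 ρ v k z d a * Real.cosh (z * P) + _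
  nlinarith [mul_le_mul_of_nonneg_right h3 h2]

theorem swp_diff_le {z : ℝ} (hz : 0 ≤ z) (hd0 : 0 ≤ d) (hd : d ≤ 1) {δ : ℝ} (h0 : 0 ≤ δ) (h1 : δ ≤ 1) (k : ℝ)
    (a : Bool) : swp ρ v k z d 4 a - swp ρ v k z d (4 - δ) a ≤
      2 * N2 ρ v k z d a * (Real.cosh (z * 4) - Real.cosh (z * (4 - δ))) ∧
    0 ≤ swp ρ v k z d 4 a - swp ρ v k z d (4 - δ) a := by
  have e : ∀ A B : ℝ, Real.cosh A - Real.cosh B = 2 * Real.sinh ((A + B) / 2) * Real.sinh ((A - B) / 2) := by
    intro A B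
    have p1 := Real.cosh_add ((A + B) / 2) ((A - B) / 2)
    have p2 := Real.cosh_sub ((A + B) / 2) ((A - B) / 2)
    rw [show (A + B) / 2 + (A - B) / 2 = A by ring] at p1
    rw [show (A + B) / 2 - (A - B) / 2 = B by ring] at p2
    linarith
  set X : ℝ := Real.cosh (z * 4) - Real.cosh (z * (4 - δ)) with hX
  set Y : ℝ := Real.cosh (z * (4 - d)) - Real.cosh (z * (4 - δ - d)) with hY
  have hs : 0 ≤ Real.sinh (z * δ / 2) := Real.sinh_nonneg_iff.2 (by positivity)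
  have eX : X = 2 * Real.sinh (z * (8 - δ) / 2) * Real.sinh (z * δ / 2) := by
    rw [hX, e, show (z * 4 + z * (4 - δ)) / 2 = z * (8 - δ) / 2 by ring,
      show (z * 4 - z * (4 - δ)) / 2 = z * δ / 2 by ring]
  have eY : Y = 2 * Real.sinh (z * (8 - δ - 2 * d) / 2) * Real.sinh (z * δ / 2) := by
    rw [hY, e, show (z * (4 - d) + z * (4 - δ - d)) / 2 = z * (8 - δ - 2 * d) / 2 by ring,
      show (z * (4 - d) - z * (4 - δ - d)) / 2 = z * δ / 2 by ring]
  have hYX : Y ≤ X := by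
    rw [eX, eY]
    have : Real.sinh (z * (8 - δ - 2 * d) / 2) ≤ Real.sinh (z * (8 - δ) / 2) := by
      refine Real.sinh_le_sinh.2 ?_
      nlinarith [mul_nonneg hz hd0]
    nlinarith
  have hY0 : 0 ≤ Y := by
    rw [eY]
    have : 0 ≤ Real.sinh (z * (8 - δ - 2 * d) / 2) := Real.sinh_nonneg_iff.2 (by
      have : 0 ≤ z * (8 - δ - 2 * d) := mul_nonneg hz (by linarith)
      linarith)
    positivity
  have hc := cross_le ρ v k z d a
  have hN := N2_nonneg ρ v k z d a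
  have e2 : swp ρ v k z d 4 a - swp ρ v k z d (4 - δ) a = N2 ρ v k z d a * X +
      2 * ((Vf ρ v k z d a 0).re * (Vf ρ v k z d a 1).re + (Vf ρ v k z d a 0).im * (Vf ρ v k z d a 1).im) * Y := by
    rw [hX, hY]
    unfold swp N2
    ring
  rw [e2]
  set R : ℝ := 2 * ((Vf ρ v k z d a 0).re * (Vf ρ v k z d a 1).re + (Vf ρ v k z d a 0).im * (Vf ρ v k z d a 1).im)
  have h4 := (abs_le.1 hc).1
  have h5 := (abs_le.1 hc).2
  constructor
  · nlinarith [mul_le_mul_of_nonneg_right h5 hY0, mul_le_mul_of_nonneg_left hYX hN]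
  · nlinarith [mul_le_mul_of_nonneg_right h4 hY0, mul_le_mul_of_nonneg_left hYX hN]

/-! ### the own energy, singularity moved by `δ` -/

theorem Dn.pair (h : Dn d ρ v) (a b : Bool) :
    Integrable fun p : ℝ × ℝ => ρ a p.1 * ρ b p.2 * (1 + (p.1 - p.2) ^ 2) := by
  have h1 := ((h.ri a).mul_prod (h.ri b)).const_mul 2
  refine h1.mono ?_ (Filter.Eventually.of_forall fun p => ?_)
  · refine Measurable.aestronglyMeasurable ?_
    exact (((h.rm a).comp measurable_fst).mul ((h.rm b).comp measurable_snd)).mul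
      (measurable_const.add ((measurable_fst.sub measurable_snd).pow_const 2))
  · simp only [norm_mul, Real.norm_eq_abs]
    rw [abs_of_nonneg (by positivity : (0:ℝ) ≤ 1 + (p.1 - p.2) ^ 2), abs_of_nonneg (by positivity : (0:ℝ) ≤ 1 + p.1 ^ 2),
      abs_of_nonneg (by positivity : (0:ℝ) ≤ 1 + p.2 ^ 2), abs_of_pos (by norm_num : (0:ℝ) < 2)]
    have h2 : 1 + (p.1 - p.2) ^ 2 ≤ 2 * ((1 + p.1 ^ 2) * (1 + p.2 ^ 2)) := by
      nlinarith [sq_nonneg (p.1 + p.2), mul_nonneg (sq_nonneg p.1) (sq_nonneg p.2)]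
    have h3 : 0 ≤ |ρ a p.1| * |ρ b p.2| := by positivity
    calc _ ≤ |ρ a p.1| * |ρ b p.2| * (2 * ((1 + p.1 ^ 2) * (1 + p.2 ^ 2))) := mul_le_mul_of_nonneg_left h2 h3
      _ = _ := by ring

theorem Dn.pair0 (h : Dn d ρ v) (a b : Bool) : Integrable fun p : ℝ × ℝ => ρ a p.1 * ρ b p.2 :=
  (h.int a).mul_prod (h.int b)

theorem m8_small {x : ℝ} (h0 : 0 ≤ x) (h1 : x < 8) : m8 x = x := by
  unfold m8
  rw [Int.fract_eq_self.2 ⟨by positivity, by linarith⟩]
  ring

theorem UC_own (hd1 : d ≤ 1) {δ : ℝ} (h0 : 0 < δ) (h1 : δ ≤ 1) :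
    UC (fun x t => sn (|x| + δ) t) 1 (fun x k => Real.cosh ((4 - m8 (|x| + δ)) * (l * k))) {x | |x| ≤ d} δ B0 := by
  refine sn_UC (g := fun x => |x| + δ) (measurable_id.abs.add_const δ) h0 (by linarith) fun x hx => ?_
  have hx' : |x| ≤ d := hx
  have h2 := abs_nonneg x
  rw [m8_small (by linarith) (by linarith), abs_of_nonneg (by linarith)]
  linarith

theorem mem_diff (h : Dn d ρ v) (a b : Bool) (p : ℝ × ℝ) : v a p.1 - v b p.2 ∈ {x : ℝ | |x| ≤ d} := by
  have h1 := h.vr a p.1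
  have h2 := h.vr b p.2
  show |v a p.1 - v b p.2| ≤ d
  rw [abs_le]
  constructor <;> linarith [h1.1, h1.2, h2.1, h2.2]

/-- own form with the singularity moved -/
def Hd (ρ v : Bool → ℝ → ℝ) (a : Bool) (δ k : ℝ) : ℝ :=
  Rf ρ v k a a fun x y => Real.cosh (l * k * (4 - δ - |x - y|))

theorem Hd_eq (h : Dn d ρ v) (hd1 : d ≤ 1) {δ : ℝ} (h0 : 0 < δ) (h1 : δ ≤ 1) (a : Bool) (k : ℝ) :
    ∫ p : ℝ × ℝ, ρ a p.1 * ρ a p.2 * (Real.cosh ((4 - m8 (|v a p.1 - v a p.2| + δ)) * (l * k)) *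
      Real.cos (k * (p.1 - p.2))) = Hd ρ v a δ k := by
  unfold Hd Rf
  refine integral_congr_ae (Filter.Eventually.of_forall fun p => ?_)
  simp only
  have h2 : |v a p.1 - v a p.2| ≤ d := mem_diff h a a p
  have h3 := abs_nonneg (v a p.1 - v a p.2)
  rw [m8_small (by linarith) (by linarith)]
  congr 3
  ring

/-- the integrand of the own energy -/
def Gd8 (ρ v : Bool → ℝ → ℝ) (a : Bool) (δ k : ℝ) : ℝ :=
  ((∫ p : ℝ × ℝ, ρ a p.1 * ρ a p.2) - Hd ρ v a δ k) / (k * sk k)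

theorem own_cf (h : Dn d ρ v) (hd1 : d ≤ 1) {δ : ℝ} (h0 : 0 < δ) (h1 : δ ≤ 1) (a : Bool) :
    Integrable (fun p : ℝ × ℝ => ρ a p.1 * ρ a p.2 * sn (|v a p.1 - v a p.2| + δ) (p.1 - p.2)) ∧
    IntegrableOn (Gd8 ρ v a δ) (Ioi 0) ∧
    ∫ p : ℝ × ℝ, ρ a p.1 * ρ a p.2 * sn (|v a p.1 - v a p.2| + δ) (p.1 - p.2) =
      ∫ k in Ioi (0:ℝ), Gd8 ρ v a δ k := by
  obtain ⟨i1, i2, e⟩ := (UC_own hd1 h0 h1).fub (μ := (volume : Measure (ℝ × ℝ))) h0
    (w := fun p => ρ a p.1 * ρ a p.2) (v := fun p => v a p.1 - v a p.2) (τ := fun p => p.1 - p.2)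
    (h.pair a a) (h.pair0 a a).1 (((h.vm a).comp measurable_fst).sub ((h.vm a).comp measurable_snd))
    (measurable_fst.sub measurable_snd) (mem_diff h a a)
  have e2 : ∀ k : ℝ, (1 * ∫ p : ℝ × ℝ, ρ a p.1 * ρ a p.2) -
      ∫ p : ℝ × ℝ, ρ a p.1 * ρ a p.2 * (Real.cosh ((4 - m8 (|v a p.1 - v a p.2| + δ)) * (l * k)) *
      Real.cos (k * (p.1 - p.2))) = (∫ p : ℝ × ℝ, ρ a p.1 * ρ a p.2) - Hd ρ v a δ k := by
    intro k
    rw [Hd_eq h hd1 h0 h1, one_mul]
  simp only [e2] at i2 e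
  exact ⟨i1, i2, e⟩

/-- **uniform bound of the integrand** -/
theorem Gd_bd (h : Dn d ρ v) (hd1 : d ≤ 1) {δ : ℝ} (h0 : 0 < δ) (h1 : δ ≤ 1) (a : Bool) {k : ℝ} (hk : 0 < k) :
    |Gd8 ρ v a δ k| ≤ B0 * ∫ p : ℝ × ℝ, ‖ρ a p.1 * ρ a p.2 * (1 + (p.1 - p.2) ^ 2)‖ := by
  have hks : 0 < k * sk k := mul_pos hk (sk_pos hk)
  have hC : ∀ x ∈ Icc (0:ℝ) d, ∀ y ∈ Icc (0:ℝ) d, |Real.cosh (l * k * (4 - δ - |x - y|))| ≤
      Real.cosh (l * k * 4) := by
    intro x hx y hy
    have h2 : |x - y| ≤ d := by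
      rw [abs_le]
      constructor <;> linarith [hx.1, hx.2, hy.1, hy.2]
    have hlk : 0 < l * k := mul_pos l_pos8 hk
    have h3 := abs_nonneg (x - y)
    rw [abs_of_nonneg (Real.cosh_pos _).le, Real.cosh_le_cosh,
      abs_of_nonneg (mul_nonneg hlk.le (by linarith) : 0 ≤ l * k * (4 - δ - |x - y|)),
      abs_of_nonneg (by positivity : (0:ℝ) ≤ l * k * 4)]
    exact mul_le_mul_of_nonneg_left (by linarith) hlk.le
  have hi := Rf_int h k a a (K := fun x y => Real.cosh (l * k * (4 - δ - |x - y|)))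
    (cont_ab (l * k) (4 - δ)).measurable hC
  have e : Gd8 ρ v a δ k = ∫ p : ℝ × ℝ, ρ a p.1 * ρ a p.2 * (1 / (k * sk k) -
      Real.cosh ((4 - δ - |v a p.1 - v a p.2|) * (l * k)) / (k * sk k) * Real.cos (k * (p.1 - p.2))) := by
    unfold Gd8 Hd Rf
    rw [← integral_sub (h.pair0 a a) hi, ← integral_div]
    refine integral_congr_ae (Filter.Eventually.of_forall fun p => ?_)
    simp only
    rw [mul_comm (4 - δ - |v a p.1 - v a p.2|)]
    ring
  rw [e, ← integral_const_mul]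
  rw [← Real.norm_eq_abs]
  refine norm_integral_le_of_norm_le ((h.pair a a).norm.const_mul B0) (Filter.Eventually.of_forall fun p => ?_)
  have h2 : |v a p.1 - v a p.2| ≤ d := mem_diff h a a p
  have h3 := abs_nonneg (v a p.1 - v a p.2)
  have h4 := bd_sn (ε := δ) (c := 4 - δ - |v a p.1 - v a p.2|) (k := k) (t := p.1 - p.2) h0.le (by linarith)
    (by rw [abs_of_nonneg (by linarith)]; linarith) hk
  have h5 : Real.exp (-(δ * (l * k))) ≤ 1 := by
    rw [Real.exp_le_one_iff]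
    have := mul_pos l_pos8 hk
    nlinarith
  rw [norm_mul, norm_mul (ρ a p.1 * ρ a p.2), Real.norm_eq_abs (1 / _ - _), Real.norm_eq_abs (1 + (p.1 - p.2) ^ 2),
    abs_of_nonneg (by positivity : (0:ℝ) ≤ 1 + (p.1 - p.2) ^ 2)]
  have h6 : B0 * Real.exp (-(δ * (l * k))) * (1 + (p.1 - p.2) ^ 2) ≤ B0 * (1 + (p.1 - p.2) ^ 2) := by
    have := B0_pos
    have h7 : (0:ℝ) ≤ 1 + (p.1 - p.2) ^ 2 := by positivity
    nlinarith [mul_le_mul_of_nonneg_left h5 this.le, mul_nonneg this.le h7]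
  calc _ ≤ ‖ρ a p.1 * ρ a p.2‖ * (B0 * (1 + (p.1 - p.2) ^ 2)) :=
        mul_le_mul_of_nonneg_left (h4.trans h6) (norm_nonneg _)
    _ = _ := by ring

/-! ### the diagonal -/

theorem ae_ne : ∀ᵐ p : ℝ × ℝ, p.1 - p.2 ≠ 0 := by
  have hm : MeasurableSet {p : ℝ × ℝ | p.1 - p.2 = 0} :=
    measurableSet_eq_fun (measurable_fst.sub measurable_snd) measurable_const
  have h0 : (volume : Measure (ℝ × ℝ)) {p : ℝ × ℝ | p.1 - p.2 = 0} = 0 := by
    rw [Measure.volume_eq_prod, Measure.measure_prod_null hm]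
    refine Filter.Eventually.of_forall fun x => ?_
    have : Prod.mk x ⁻¹' {p : ℝ × ℝ | p.1 - p.2 = 0} = {x} := by
      ext y
      simp only [mem_preimage, mem_ofPred_eq, mem_singleton_iff, sub_eq_zero]
      exact eq_comm
    show volume (Prod.mk x ⁻¹' {p : ℝ × ℝ | p.1 - p.2 = 0}) = 0
    rw [this]
    simp
  rw [ae_iff]
  simpa using h0

/-- the logarithmic condition -/
def Lg (ρ : Bool → ℝ → ℝ) : Prop := ∀ a, Integrable fun p : ℝ × ℝ => ρ a p.1 * ρ a p.2 * lb (p.1 - p.2)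

theorem own_bd (_h : Dn d ρ v) (hL : Lg ρ) (δ : ℝ) (a : Bool) :
    |∫ p : ℝ × ℝ, ρ a p.1 * ρ a p.2 * sn (|v a p.1 - v a p.2| + δ) (p.1 - p.2)| ≤
      ∫ p : ℝ × ℝ, ‖ρ a p.1 * ρ a p.2 * lb (p.1 - p.2)‖ := by
  rw [← Real.norm_eq_abs]
  refine norm_integral_le_of_norm_le (hL a).norm ?_
  filter_upwards [ae_ne] with p hp
  rw [norm_mul, norm_mul (ρ a p.1 * ρ a p.2)]
  refine mul_le_mul_of_nonneg_left ?_ (norm_nonneg _)
  rw [Real.norm_eq_abs, Real.norm_eq_abs]
  refine (abs_sn_le _ hp).trans (le_abs_self _)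

/-! ### finite energy of the swept charges -/

theorem meas_pb2 (d : ℝ) (b : Fin 2) : Measurable fun q : ℝ × ℝ => pb q.1 d b q.2 := by
  have hs : Measurable fun q : ℝ × ℝ => Real.sinh (q.1 * d) :=
    Real.measurable_sinh.comp (measurable_fst.mul_const d)
  unfold pb
  split_ifs
  · unfold Bal.p0
    exact (Real.measurable_sinh.comp (measurable_fst.mul (measurable_const.sub measurable_snd))).div hs
  · unfold Bal.p1
    exact (Real.measurable_sinh.comp (measurable_fst.mul measurable_snd)).div hs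

theorem meas_Vf (h : Dn d ρ v) (a : Bool) (b : Fin 2) : Measurable fun k : ℝ => Vf ρ v k (l * k) d a b := by
  have h1 : Measurable fun q : ℝ × ℝ => wf ρ q.1 a q.2 * ((pb (l * q.1) d b (v a q.2) : ℝ) : ℂ) := by
    have h2 : Measurable fun q : ℝ × ℝ => wf ρ q.1 a q.2 := by
      unfold wf
      refine (Complex.measurable_ofReal.comp ((h.rm a).comp measurable_snd)).mul (Complex.measurable_exp.comp ?_)
      exact (Complex.measurable_ofReal.comp (measurable_fst.mul measurable_snd)).mul_const _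
    refine h2.mul (Complex.measurable_ofReal.comp ?_)
    exact (meas_pb2 d b).comp ((measurable_fst.const_mul l).prodMk ((h.vm a).comp measurable_snd))
  exact (h1.stronglyMeasurable.integral_prod_right' (ν := (volume : Measure ℝ))).measurable

theorem meas_N2 (h : Dn d ρ v) (a : Bool) : Measurable fun k : ℝ => N2 ρ v k (l * k) d a := by
  have h0 := meas_Vf h a 0
  have h1 := meas_Vf h a 1
  unfold N2
  exact ((((Complex.measurable_re.comp h0).pow_const 2).add ((Complex.measurable_im.comp h0).pow_const 2)).add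
    ((Complex.measurable_re.comp h1).pow_const 2)).add ((Complex.measurable_im.comp h1).pow_const 2)

theorem cosh_diff (A B : ℝ) :
    Real.cosh A - Real.cosh B = 2 * Real.sinh ((A + B) / 2) * Real.sinh ((A - B) / 2) := by
  have p1 := Real.cosh_add ((A + B) / 2) ((A - B) / 2)
  have p2 := Real.cosh_sub ((A + B) / 2) ((A - B) / 2)
  rw [show (A + B) / 2 + (A - B) / 2 = A by ring] at p1
  rw [show (A + B) / 2 - (A - B) / 2 = B by ring] at p2
  linarith

/-- gap of the two line form -/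
def Lz (d z P : ℝ) : ℝ := Real.cosh (z * P) - Real.cosh (z * (P - d))

theorem Lz_nonneg {z P : ℝ} (hz : 0 ≤ z) (hd : 0 ≤ d) (hP : d ≤ P) : 0 ≤ Lz d z P := by
  unfold Lz
  rw [cosh_diff]
  have h1 : 0 ≤ Real.sinh ((z * P + z * (P - d)) / 2) := Real.sinh_nonneg_iff.2 (by
    have : 0 ≤ z * (P - d) := mul_nonneg hz (by linarith)
    have : 0 ≤ z * P := mul_nonneg hz (by linarith)
    linarith)
  have h2 : 0 ≤ Real.sinh ((z * P - z * (P - d)) / 2) := Real.sinh_nonneg_iff.2 (by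
    have : 0 ≤ z * d := mul_nonneg hz hd
    linarith)
  positivity

theorem sinh_low {x a : ℝ} (hx : a ≤ x) : (1 - Real.exp (-(2 * a))) / 2 * Real.exp x ≤ Real.sinh x := by
  have h1 : Real.exp (-x) = Real.exp (-(2 * x)) * Real.exp x := by
    rw [← Real.exp_add]; congr 1; ring
  have h2 : Real.exp (-(2 * x)) ≤ Real.exp (-(2 * a)) := Real.exp_le_exp.2 (by linarith)
  rw [Real.sinh_eq, h1]
  have := Real.exp_pos x
  nlinarith [mul_le_mul_of_nonneg_right h2 this.le]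

theorem Lz_low (hd : 0 < d) (hd1 : d ≤ 1) : ∃ c : ℝ, 0 < c ∧ ∀ z : ℝ, l ≤ z → c * Real.cosh (z * 4) ≤ Lz d z 4 := by
  have hl := l_pos8
  set a1 : ℝ := l * (8 - d) / 2 with ha1
  set a2 : ℝ := l * d / 2 with ha2
  have h1 : 0 < a1 := by
    have : 0 < 8 - d := by linarith
    positivity
  have h2 : 0 < a2 := by positivity
  have e1 : Real.exp (-(2 * a1)) < 1 := Real.exp_lt_one_iff.2 (by linarith)
  have e2 : Real.exp (-(2 * a2)) < 1 := Real.exp_lt_one_iff.2 (by linarith)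
  refine ⟨2 * ((1 - Real.exp (-(2 * a1))) / 2) * ((1 - Real.exp (-(2 * a2))) / 2),
    mul_pos (mul_pos two_pos (by linarith)) (by linarith), fun z hz => ?_⟩
  have hz0 : 0 < z := hl.trans_le hz
  have s1 := sinh_low (x := z * (8 - d) / 2) (a := a1) (by
    have : l * (8 - d) ≤ z * (8 - d) := mul_le_mul_of_nonneg_right hz (by linarith)
    rw [ha1]; linarith)
  have s2 := sinh_low (x := z * d / 2) (a := a2) (by
    have : l * d ≤ z * d := mul_le_mul_of_nonneg_right hz hd.le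
    rw [ha2]; linarith)
  have hc : Real.cosh (z * 4) ≤ Real.exp (z * 4) := by
    rw [Real.cosh_eq]
    have : Real.exp (-(z * 4)) ≤ Real.exp (z * 4) := Real.exp_le_exp.2 (by nlinarith)
    linarith
  have he : Real.exp (z * 4) = Real.exp (z * (8 - d) / 2) * Real.exp (z * d / 2) := by
    rw [← Real.exp_add]; congr 1; ring
  unfold Lz
  rw [cosh_diff, show (z * 4 + z * (4 - d)) / 2 = z * (8 - d) / 2 by ring,
    show (z * 4 - z * (4 - d)) / 2 = z * d / 2 by ring]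
  set c1 : ℝ := (1 - Real.exp (-(2 * a1))) / 2
  set c2 : ℝ := (1 - Real.exp (-(2 * a2))) / 2
  have q1 : 0 < c1 := by
    show 0 < (1 - Real.exp (-(2 * a1))) / 2
    linarith
  have q2 : 0 < c2 := by
    show 0 < (1 - Real.exp (-(2 * a2))) / 2
    linarith
  have h5 := mul_le_mul s1 s2 (mul_pos q2 (Real.exp_pos _)).le ((mul_pos q1 (Real.exp_pos _)).le.trans s1)
  calc 2 * c1 * c2 * Real.cosh (z * 4) ≤ 2 * c1 * c2 * Real.exp (z * 4) :=
        mul_le_mul_of_nonneg_left hc (by positivity)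
    _ = 2 * (c1 * Real.exp (z * (8 - d) / 2) * (c2 * Real.exp (z * d / 2))) := by rw [he]; ring
    _ ≤ 2 * (Real.sinh (z * (8 - d) / 2) * Real.sinh (z * d / 2)) := by linarith
    _ = _ := by ring

theorem Hd_ge (h : Dn d ρ v) (hd : 0 < d) (hd1 : d ≤ 1) {δ : ℝ} (h1 : δ ≤ 1) (a : Bool) {k : ℝ} (hk : 0 < k) :
    N2 ρ v k (l * k) d a * Lz d (l * k) (4 - δ) ≤ Hd ρ v a δ k := by
  have hz : 0 < l * k := mul_pos l_pos8 hk
  exact (swp_ge ρ v k (l * k) d (4 - δ) a).trans (own_ge h hz hd (by linarith) k a)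

theorem int_inv : IntegrableOn (fun k : ℝ => 1 / (k * sk k)) (Ioi 1) := by
  have hl := l_pos8
  have h1 := (integrableOn_exp_mul_Ioi (a := -(l * 4)) (by linarith) 1)
  have h2 : IntegrableOn (fun k : ℝ => (2 + 1 / (4 * l)) * Real.exp (-(l * 4) * k)) (Ioi 1) := h1.const_mul _
  refine h2.mono' ?_ ?_
  · exact (measurable_const.div (measurable_id.mul measurable_sk)).aestronglyMeasurable
  · rw [ae_restrict_iff' measurableSet_Ioi]
    refine Filter.Eventually.of_forall fun k hk => ?_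
    have hk1 : (1:ℝ) < k := hk
    have hk0 : 0 < k := by linarith
    have hz : 0 < l * k := by positivity
    have h3 := exp_le_sinh hz
    have hs : sk k = Real.sinh (4 * (l * k)) := sk_eq6 k
    have hs0 : 0 < Real.sinh (4 * (l * k)) := Real.sinh_pos_iff.2 (by positivity)
    rw [Real.norm_eq_abs, abs_of_pos (by rw [hs]; positivity), hs, div_le_iff₀ (by positivity)]
    have h4 : Real.exp (-(l * 4) * k) * Real.exp (4 * (l * k)) = 1 := by
      rw [← Real.exp_add, show -(l * 4) * k + 4 * (l * k) = 0 by ring, Real.exp_zero]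
    have h5 : 1 / (4 * (l * k)) ≤ 1 / (4 * l) := by
      apply one_div_le_one_div_of_le (by positivity)
      nlinarith
    have h6 : Real.exp (4 * (l * k)) ≤ (2 + 1 / (4 * l)) * Real.sinh (4 * (l * k)) :=
      h3.trans (mul_le_mul_of_nonneg_right (by linarith) hs0.le)
    have he := Real.exp_pos (-(l * 4) * k)
    calc (1:ℝ) = Real.exp (-(l * 4) * k) * Real.exp (4 * (l * k)) := h4.symm
      _ ≤ Real.exp (-(l * 4) * k) * ((2 + 1 / (4 * l)) * Real.sinh (4 * (l * k))) :=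
          mul_le_mul_of_nonneg_left h6 he.le
      _ = (2 + 1 / (4 * l)) * Real.exp (-(l * 4) * k) * Real.sinh (4 * (l * k)) * 1 := by ring
      _ ≤ (2 + 1 / (4 * l)) * Real.exp (-(l * 4) * k) * Real.sinh (4 * (l * k)) * k :=
          mul_le_mul_of_nonneg_left hk1.le (by positivity)
      _ = _ := by ring

/-- **uniform bound of the own energy on `(1, ∞)`** -/
theorem Hd_bd (h : Dn d ρ v) (hd1 : d ≤ 1) (hL : Lg ρ) (a : Bool) : ∃ K : ℝ, ∀ δ : ℝ, 0 < δ → δ ≤ 1 →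
    IntegrableOn (fun k => Hd ρ v a δ k / (k * sk k)) (Ioi 1) ∧
    ∫ k in Ioi (1:ℝ), Hd ρ v a δ k / (k * sk k) ≤ K := by
  set W : ℝ := ∫ p : ℝ × ℝ, ρ a p.1 * ρ a p.2
  set M : ℝ := B0 * ∫ p : ℝ × ℝ, ‖ρ a p.1 * ρ a p.2 * (1 + (p.1 - p.2) ^ 2)‖
  set U : ℝ := ∫ p : ℝ × ℝ, ‖ρ a p.1 * ρ a p.2 * lb (p.1 - p.2)‖
  refine ⟨W * (∫ k in Ioi (1:ℝ), 1 / (k * sk k)) + (U + M), fun δ h0 h1 => ?_⟩
  obtain ⟨_, i2, e⟩ := own_cf h hd1 h0 h1 a
  have i3 : IntegrableOn (Gd8 ρ v a δ) (Ioi 1) := i2.mono_set (Ioi_subset_Ioi zero_le_one)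
  have i4 : IntegrableOn (Gd8 ρ v a δ) (Ioc 0 1) := i2.mono_set Ioc_subset_Ioi_self
  have e1 : ∀ k : ℝ, Hd ρ v a δ k / (k * sk k) = W * (1 / (k * sk k)) - Gd8 ρ v a δ k := by
    intro k
    show _ = W * (1 / (k * sk k)) - (W - Hd ρ v a δ k) / (k * sk k)
    ring
  have e2 : ∫ k in Ioi (0:ℝ), Gd8 ρ v a δ k =
      (∫ k in Ioc (0:ℝ) 1, Gd8 ρ v a δ k) + ∫ k in Ioi (1:ℝ), Gd8 ρ v a δ k := by
    rw [← Ioc_union_Ioi_eq_Ioi (zero_le_one : (0:ℝ) ≤ 1)]
    exact setIntegral_union Ioc_disjoint_Ioi_same measurableSet_Ioi i4 i3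
  have e3 := own_bd h hL δ a
  have e4 : |∫ k in Ioc (0:ℝ) 1, Gd8 ρ v a δ k| ≤ M := by
    have := norm_setIntegral_le_of_norm_le_const (μ := volume) (s := Ioc (0:ℝ) 1) (f := Gd8 ρ v a δ) (C := M)
      (by simp) fun k hk => Gd_bd h hd1 h0 h1 a hk.1
    simpa using this
  constructor
  · simp only [e1]
    exact (int_inv.const_mul W).sub i3
  · simp only [e1]
    rw [integral_sub (int_inv.const_mul W) i3, integral_const_mul]
    rw [e, e2] at e3
    have e5 := (abs_le.1 e3).1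
    have e6 := (abs_le.1 e4).2
    linarith

/-- the sequence of the shifts -/
def dl (n : ℕ) : ℝ := 1 / ((n : ℝ) + 1)

theorem dl_pos (n : ℕ) : 0 < dl n := by unfold dl; positivity

theorem dl_le (n : ℕ) : dl n ≤ 1 := by
  unfold dl
  rw [div_le_one (by positivity)]
  have : (0:ℝ) ≤ n := Nat.cast_nonneg n
  linarith

theorem dl_lim : Tendsto dl atTop (𝓝 0) := tendsto_one_div_add_atTop_nhds_zero_nat

/-- **finite energy** -/
theorem N2_int (h : Dn d ρ v) (hd : 0 < d) (hd1 : d ≤ 1) (hL : Lg ρ) (a : Bool) :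
    IntegrableOn (fun k => N2 ρ v k (l * k) d a * Real.cosh (l * k * 4) / (k * sk k)) (Ioi 1) := by
  have hl := l_pos8
  obtain ⟨K, hK⟩ := Hd_bd h hd1 hL a
  obtain ⟨c, hc, hcL⟩ := Lz_low hd hd1
  set F : ℕ → ℝ → ENNReal := fun n k => ENNReal.ofReal (N2 ρ v k (l * k) d a * Lz d (l * k) (4 - dl n) / (k * sk k))
  set G : ℝ → ℝ := fun k => N2 ρ v k (l * k) d a * Lz d (l * k) 4 / (k * sk k)
  have mL : ∀ P : ℝ, Measurable fun k : ℝ => Lz d (l * k) P := by
    intro P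
    unfold Lz
    exact (Real.measurable_cosh.comp ((measurable_id.const_mul l).mul_const P)).sub
      (Real.measurable_cosh.comp ((measurable_id.const_mul l).mul_const (P - d)))
  have mF : ∀ n, Measurable (F n) := fun n =>
    (((meas_N2 h a).mul (mL _)).div (measurable_id.mul measurable_sk)).ennreal_ofReal
  have mG : Measurable G := ((meas_N2 h a).mul (mL 4)).div (measurable_id.mul measurable_sk)
  have hb : ∀ n, ∫⁻ k in Ioi (1:ℝ), F n k ≤ ENNReal.ofReal K := by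
    intro n
    obtain ⟨i, hi⟩ := hK (dl n) (dl_pos n) (dl_le n)
    have hpos : ∀ k ∈ Ioi (1:ℝ), N2 ρ v k (l * k) d a * Lz d (l * k) (4 - dl n) / (k * sk k) ≤
        Hd ρ v a (dl n) k / (k * sk k) ∧ 0 ≤ Hd ρ v a (dl n) k / (k * sk k) := by
      intro k hk
      have hk0 : (0:ℝ) < k := lt_trans zero_lt_one hk
      have hks : 0 < k * sk k := mul_pos hk0 (sk_pos hk0)
      have h2 := Hd_ge h hd hd1 (dl_le n) a hk0
      have h3 : 0 ≤ N2 ρ v k (l * k) d a * Lz d (l * k) (4 - dl n) :=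
        mul_nonneg (N2_nonneg _ _ _ _ _ _) (Lz_nonneg (by positivity) hd.le (by
          have := dl_le n
          linarith))
      exact ⟨div_le_div_of_nonneg_right h2 hks.le, div_nonneg (h3.trans h2) hks.le⟩
    calc ∫⁻ k in Ioi (1:ℝ), F n k ≤ ∫⁻ k in Ioi (1:ℝ), ENNReal.ofReal (Hd ρ v a (dl n) k / (k * sk k)) :=
          setLIntegral_mono' measurableSet_Ioi fun k hk => ENNReal.ofReal_le_ofReal (hpos k hk).1
      _ = ENNReal.ofReal (∫ k in Ioi (1:ℝ), Hd ρ v a (dl n) k / (k * sk k)) := by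
          rw [ofReal_integral_eq_lintegral_ofReal i]
          rw [Filter.EventuallyLE, ae_restrict_iff' measurableSet_Ioi]
          exact Filter.Eventually.of_forall fun k hk => (hpos k hk).2
      _ ≤ ENNReal.ofReal K := ENNReal.ofReal_le_ofReal hi
  have hlim : ∀ k, Tendsto (fun n => F n k) atTop (𝓝 (ENNReal.ofReal (G k))) := by
    intro k
    refine ENNReal.tendsto_ofReal ?_
    refine (Tendsto.mul tendsto_const_nhds ?_).div_const _
    have h2 : Continuous fun P : ℝ => Lz d (l * k) P := by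
      unfold Lz
      exact (Real.continuous_cosh.comp (continuous_const.mul continuous_id)).sub
        (Real.continuous_cosh.comp (continuous_const.mul (continuous_id.sub continuous_const)))
    have h3 : Tendsto (fun n => 4 - dl n) atTop (𝓝 (4 - 0)) := tendsto_const_nhds.sub dl_lim
    rw [sub_zero] at h3
    exact (h2.tendsto 4).comp h3
  have hG : ∫⁻ k in Ioi (1:ℝ), ENNReal.ofReal (G k) ≤ ENNReal.ofReal K := by
    calc ∫⁻ k in Ioi (1:ℝ), ENNReal.ofReal (G k) = ∫⁻ k in Ioi (1:ℝ), liminf (fun n => F n k) atTop := by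
          refine lintegral_congr fun k => ?_
          exact (hlim k).liminf_eq.symm
      _ ≤ liminf (fun n => ∫⁻ k in Ioi (1:ℝ), F n k) atTop := lintegral_liminf_le mF
      _ ≤ ENNReal.ofReal K := by
          refine (liminf_le_liminf (v := fun _ => ENNReal.ofReal K) (Filter.Eventually.of_forall hb)).trans ?_
          rw [liminf_const]
  have hGpos : ∀ k ∈ Ioi (1:ℝ), 0 ≤ G k := by
    intro k hk
    have hk0 : (0:ℝ) < k := lt_trans zero_lt_one hk
    exact div_nonneg (mul_nonneg (N2_nonneg _ _ _ _ _ _) (Lz_nonneg (by positivity) hd.le (by linarith)))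
      (mul_pos hk0 (sk_pos hk0)).le
  have iG : IntegrableOn G (Ioi 1) := by
    refine ⟨mG.aestronglyMeasurable, ?_⟩
    rw [hasFiniteIntegral_iff_ofReal]
    · exact lt_of_le_of_lt hG ENNReal.ofReal_lt_top
    · rw [Filter.EventuallyLE, ae_restrict_iff' measurableSet_Ioi]
      exact Filter.Eventually.of_forall fun k hk => hGpos k hk
  refine (iG.const_mul c⁻¹).mono' ?_ ?_
  · exact (((meas_N2 h a).mul (Real.measurable_cosh.comp ((measurable_id.const_mul l).mul_const 4))).div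
      (measurable_id.mul measurable_sk)).aestronglyMeasurable
  · rw [ae_restrict_iff' measurableSet_Ioi]
    refine Filter.Eventually.of_forall fun k hk => ?_
    have hk1 : (1:ℝ) < k := hk
    have hk0 : (0:ℝ) < k := lt_trans zero_lt_one hk
    have hks : 0 < k * sk k := mul_pos hk0 (sk_pos hk0)
    have h2 := hcL (l * k) (by nlinarith)
    have hN := N2_nonneg ρ v k (l * k) d a
    rw [Real.norm_eq_abs, abs_of_nonneg (div_nonneg (mul_nonneg hN (Real.cosh_pos _).le) hks.le)]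
    show _ ≤ c⁻¹ * (N2 ρ v k (l * k) d a * Lz d (l * k) 4 / (k * sk k))
    rw [← mul_div_assoc]
    refine div_le_div_of_nonneg_right ?_ hks.le
    rw [inv_mul_eq_div, le_div_iff₀ hc]
    nlinarith [mul_le_mul_of_nonneg_left h2 hN]

/-! ### the error tends to zero -/

theorem Vf_le (h : Dn d ρ v) {z : ℝ} (hz : 0 < z) (hd : 0 < d) (k : ℝ) (a : Bool) (b : Fin 2) :
    ‖Vf ρ v k z d a b‖ ≤ ∫ t, ‖ρ a t‖ := by
  unfold Vf Sf
  refine norm_integral_le_of_norm_le (h.int a).norm (Filter.Eventually.of_forall fun t => ?_)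
  rw [norm_mul, norm_wf, Complex.norm_real, Real.norm_eq_abs (pb z d b _)]
  exact (mul_le_mul_of_nonneg_left (pb_abs hz hd b (h.vr a t)) (norm_nonneg _)).trans_eq (mul_one _)

theorem N2_le (h : Dn d ρ v) {z : ℝ} (hz : 0 < z) (hd : 0 < d) (k : ℝ) (a : Bool) :
    N2 ρ v k z d a ≤ 2 * (∫ t, ‖ρ a t‖) ^ 2 := by
  have h0 := Vf_le h hz hd k a 0
  have h1 := Vf_le h hz hd k a 1
  have e : N2 ρ v k z d a = ‖Vf ρ v k z d a 0‖ ^ 2 + ‖Vf ρ v k z d a 1‖ ^ 2 := by
    unfold N2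
    rw [← Complex.normSq_eq_norm_sq, ← Complex.normSq_eq_norm_sq, Complex.normSq_apply, Complex.normSq_apply]
    ring
  rw [e]
  have := pow_le_pow_left₀ (norm_nonneg _) h0 2
  have := pow_le_pow_left₀ (norm_nonneg _) h1 2
  linarith

/-- bound of the difference of the hyperbolic cosines -/
theorem cosh_sub_le {z δ : ℝ} (hz : 0 < z) (h0 : 0 ≤ δ) (h1 : δ ≤ 1) :
    Real.cosh (z * 4) - Real.cosh (z * (4 - δ)) ≤ z * δ * Real.sinh (4 * z) ∧
    0 ≤ Real.cosh (z * 4) - Real.cosh (z * (4 - δ)) := by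
  have e : Real.cosh (z * (4 - δ)) = Real.cosh (4 * z) * Real.cosh (z * δ) - Real.sinh (4 * z) * Real.sinh (z * δ) := by
    rw [← Real.cosh_sub]; congr 1; ring
  have hh : 0 ≤ z * δ := by positivity
  have q1 := Real.add_one_le_exp (-(z * δ))
  have q2 : Real.exp (-(z * δ)) = Real.cosh (z * δ) - Real.sinh (z * δ) := by rw [Real.cosh_sub_sinh]
  have q3 := Real.one_le_cosh (z * δ)
  have q4 : Real.sinh (4 * z) ≤ Real.cosh (4 * z) := (Real.sinh_lt_cosh _).le
  have q5 : 0 ≤ Real.sinh (4 * z) := Real.sinh_nonneg_iff.2 (by positivity)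
  constructor
  · rw [e, mul_comm z 4]
    nlinarith [mul_nonneg q5 (sub_nonneg.2 q1), mul_nonneg (sub_nonneg.2 q4) (sub_nonneg.2 q3)]
  · have : Real.cosh (z * (4 - δ)) ≤ Real.cosh (z * 4) := by
      rw [Real.cosh_le_cosh, abs_of_nonneg (mul_nonneg hz.le (by linarith) : 0 ≤ z * (4 - δ)),
        abs_of_nonneg (by positivity : (0:ℝ) ≤ z * 4)]
      exact mul_le_mul_of_nonneg_left (by linarith) hz.le
    linarith

/-- the error per unit frequency -/
def er8 (ρ v : Bool → ℝ → ℝ) (d δ k : ℝ) : ℝ := Er8 ρ v k (l * k) d δ / (k * sk k)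

theorem er8_bd (hd : 0 < d) (hd1 : d ≤ 1) {δ : ℝ} (h0 : 0 ≤ δ) (h1 : δ ≤ 1) {k : ℝ} (hk : 0 < k) :
    |er8 ρ v d δ k| ≤ ∑ a, 4 * l * δ * N2 ρ v k (l * k) d a ∧
    |er8 ρ v d δ k| ≤ ∑ a, 4 * (N2 ρ v k (l * k) d a * Real.cosh (l * k * 4) / (k * sk k)) := by
  have hz : 0 < l * k := mul_pos l_pos8 hk
  have hks : 0 < k * sk k := mul_pos hk (sk_pos hk)
  have hs : sk k = Real.sinh (4 * (l * k)) := sk_eq6 k
  obtain ⟨c1, c2⟩ := cosh_sub_le hz h0 h1
  have hE : ∀ a, 0 ≤ swp ρ v k (l * k) d 4 a - swp ρ v k (l * k) d (4 - δ) a := fun a =>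
    (swp_diff_le hz.le hd.le hd1 h0 h1 k a).2
  have h2 : 0 ≤ Er8 ρ v k (l * k) d δ := Finset.sum_nonneg fun a _ => mul_nonneg two_pos.le (hE a)
  unfold er8
  rw [abs_of_nonneg (div_nonneg h2 hks.le)]
  unfold Er8
  rw [Finset.sum_div]
  constructor
  · refine Finset.sum_le_sum fun a _ => ?_
    have h3 := (swp_diff_le (ρ := ρ) (v := v) hz.le hd.le hd1 h0 h1 k a).1
    have hN := N2_nonneg ρ v k (l * k) d a
    rw [div_le_iff₀ hks, hs]
    have h4 := mul_le_mul_of_nonneg_left c1 hN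
    nlinarith
  · refine Finset.sum_le_sum fun a _ => ?_
    have h3 := (swp_diff_le (ρ := ρ) (v := v) hz.le hd.le hd1 h0 h1 k a).1
    have hN := N2_nonneg ρ v k (l * k) d a
    rw [← mul_div_assoc]
    refine div_le_div_of_nonneg_right ?_ hks.le
    have h4 := (Real.cosh_pos (l * k * (4 - δ))).le
    have h5 := mul_nonneg hN h4
    nlinarith

theorem meas_er8 (h : Dn d ρ v) (δ : ℝ) : Measurable (er8 ρ v d δ) := by
  have ms : ∀ (P : ℝ) (a : Bool), Measurable fun k : ℝ => swp ρ v k (l * k) d P a := by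
    intro P a
    have h0 := meas_Vf h a 0
    have h1 := meas_Vf h a 1
    have hN := meas_N2 h a
    unfold swp
    exact (hN.mul (Real.measurable_cosh.comp ((measurable_id.const_mul l).mul_const P))).add
      (((((Complex.measurable_re.comp h0).mul (Complex.measurable_re.comp h1)).add
      ((Complex.measurable_im.comp h0).mul (Complex.measurable_im.comp h1))).const_mul 2).mul
      (Real.measurable_cosh.comp ((measurable_id.const_mul l).mul_const (P - d))))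
  unfold er8 Er8
  exact (Finset.measurable_fun_sum _ fun a _ => ((ms 4 a).sub (ms (4 - δ) a)).const_mul 2).div
    (measurable_id.mul measurable_sk)

/-- the dominating function -/
def gm8 (ρ v : Bool → ℝ → ℝ) (d k : ℝ) : ℝ :=
  if k ≤ 1 then ∑ a : Bool, 4 * l * (2 * (∫ t, ‖ρ a t‖) ^ 2) else
    ∑ a, 4 * (N2 ρ v k (l * k) d a * Real.cosh (l * k * 4) / (k * sk k))

theorem gm8_int (h : Dn d ρ v) (hd : 0 < d) (hd1 : d ≤ 1) (hL : Lg ρ) : IntegrableOn (gm8 ρ v d) (Ioi 0) := by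
  rw [← Ioc_union_Ioi_eq_Ioi (zero_le_one : (0:ℝ) ≤ 1)]
  refine IntegrableOn.union ?_ ?_
  · have h1 : IntegrableOn (fun _ : ℝ => ∑ a : Bool, 4 * l * (2 * (∫ t, ‖ρ a t‖) ^ 2)) (Ioc 0 1) := by
      exact integrableOn_const (by simp) (by simp)
    refine h1.congr_fun (fun k hk => ?_) measurableSet_Ioc
    unfold gm8
    rw [if_pos hk.2]
  · have h1 : IntegrableOn (fun k : ℝ => ∑ a : Bool, 4 * (N2 ρ v k (l * k) d a * Real.cosh (l * k * 4) /
        (k * sk k))) (Ioi 1) := integrable_finsetSum _ fun a _ => (N2_int h hd hd1 hL a).const_mul 4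
    refine h1.congr_fun (fun k hk => ?_) measurableSet_Ioi
    unfold gm8
    rw [if_neg (not_le.2 hk)]

theorem er8_le_gm (h : Dn d ρ v) (hd : 0 < d) (hd1 : d ≤ 1) {δ : ℝ} (h0 : 0 ≤ δ) (h1 : δ ≤ 1) {k : ℝ}
    (hk : 0 < k) : |er8 ρ v d δ k| ≤ gm8 ρ v d k := by
  obtain ⟨b1, b2⟩ := er8_bd (ρ := ρ) (v := v) hd hd1 h0 h1 hk
  unfold gm8
  split_ifs with h2
  · refine b1.trans (Finset.sum_le_sum fun a _ => ?_)
    have h3 := N2_le h (mul_pos l_pos8 hk) hd k a
    have h4 := N2_nonneg ρ v k (l * k) d a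
    have h5 := l_pos8
    calc 4 * l * δ * N2 ρ v k (l * k) d a ≤ 4 * l * 1 * (2 * (∫ t, ‖ρ a t‖) ^ 2) := by
          gcongr
      _ = _ := by ring
  · exact b2

/-- **the error is integrable** -/
theorem er8_int (h : Dn d ρ v) (hd : 0 < d) (hd1 : d ≤ 1) (hL : Lg ρ) {δ : ℝ} (h0 : 0 ≤ δ) (h1 : δ ≤ 1) :
    IntegrableOn (er8 ρ v d δ) (Ioi 0) := by
  refine (gm8_int h hd hd1 hL).mono' (meas_er8 h δ).aestronglyMeasurable ?_
  rw [ae_restrict_iff' measurableSet_Ioi]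
  exact Filter.Eventually.of_forall fun k hk => er8_le_gm h hd hd1 h0 h1 hk

/-- **its integral tends to zero** -/
theorem er8_lim (h : Dn d ρ v) (hd : 0 < d) (hd1 : d ≤ 1) (hL : Lg ρ) :
    Tendsto (fun n => ∫ k in Ioi (0:ℝ), er8 ρ v d (dl n) k) atTop (𝓝 0) := by
  have key : Tendsto (fun n => ∫ k in Ioi (0:ℝ), er8 ρ v d (dl n) k) atTop (𝓝 (∫ k in Ioi (0:ℝ), (0:ℝ))) := by
    refine tendsto_integral_of_dominated_convergence (gm8 ρ v d)
      (fun n => (meas_er8 h _).aestronglyMeasurable) (gm8_int h hd hd1 hL) (fun n => ?_) ?_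
    · rw [ae_restrict_iff' measurableSet_Ioi]
      exact Filter.Eventually.of_forall fun k hk => er8_le_gm h hd hd1 (dl_pos n).le (dl_le n) hk
    · rw [ae_restrict_iff' measurableSet_Ioi]
      refine Filter.Eventually.of_forall fun k hk => ?_
      have h2 : Tendsto (fun n => ∑ a, 4 * l * dl n * N2 ρ v k (l * k) d a) atTop
          (𝓝 (∑ a, 4 * l * 0 * N2 ρ v k (l * k) d a)) :=
        tendsto_finsetSum _ fun a _ => (tendsto_const_nhds.mul dl_lim).mul tendsto_const_nhds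
      have e2 : (∑ a, 4 * l * 0 * N2 ρ v k (l * k) d a) = 0 := by simp
      rw [e2] at h2
      exact squeeze_zero_norm (fun n => (er8_bd hd hd1 (dl_pos n).le (dl_le n) hk).1) h2
  simpa using key

end PLT

end
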