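import Pool.Agent.PLT.CurveB
import Pool.Agent.PLT.Slope
import Pool.Agent.PLT.SeaY

/-!
# The level curves of all balanced two place contents are in the class of `SeaY` (helper9)

* **`PLT.CA.etU2`**: one family of constants `Ce` for all contents `CA.Bal2 de a b p q`: `EtU Ce (m2 a b) (x2 p q)`;

-/

set_option autoImplicit false

noncomputable section

open Filter Topology Set NUMF

namespace PLT.CA

/-- the content of `EtU` in the form of `Two` -/
theorem Bal2.two {de a b p q : ℝ} (d0 : 0 < de) (hb : Bal2 de a b p q) :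
    ∃ a' b' : ℝ, PLT.Bal2 a' b' p q ∧ ∀ v t, SC (m2 a b) (x2 p q) v t = SC (mT a' b') (xT p q) v t := by
  rcases eq_or_lt_of_le hb.b0 with h0 | h0
  · have ha : a = 1 := by linarith [hb.sum]
    have hp0 := hb.q0.trans hb.qp
    have hp : p = 0 := by
      have h1 := hb.bal
      rw [← h0, ha, zero_mul, one_mul] at h1
      by_contra hne
      have hp1 : 0 < p := lt_of_le_of_ne hp0 (Ne.symm hne)
      have hpi := Real.pi_pos
      have := hb.pde
      have := Real.sin_pos_of_pos_of_lt_pi (x := Real.pi * p / 3) (by positivity) (by nlinarith)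
      linarith
    have hq : q = 0 := le_antisymm (by rw [← hp]; exact hb.qp) hb.q0
    subst hp
    refine ⟨0, 1, ⟨hb.q0, hb.qp, hb.pq, by norm_num, le_rfl, one_pos, ?_⟩, fun v t => ?_⟩
    · rw [hq]
      simp
    · unfold SC
      rw [Fin.sum_univ_two, Fin.sum_univ_two]
      show a * Ag (v + -(0 * l)) t + b * Ag (v + q * l) t = 0 * Ag (v + -(0 * l)) t + 1 * Ag (v + q * l) t
      rw [← h0, ha, hq]
      ring_nf
  · exact ⟨a, b, ⟨hb.q0, hb.qp, hb.pq, by linarith [hb.pde], hb.a0, h0, hb.bal⟩, fun v t => rfl⟩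

/-- **the bounds of the class, one family of constants for all contents** -/
theorem etU2 {de : ℝ} (d0 : 0 < de) (d1 : de ≤ 1 / 2) :
    ∃ Ce : ℕ → ℝ, (∀ n, 0 ≤ Ce n) ∧ ∀ a b p q : ℝ, Bal2 de a b p q →
      EtU Ce (m2 a b) (x2 p q) := by
  obtain ⟨Ce, hCe, h⟩ := iter2 hex2 d0 d1
  refine ⟨Ce, hCe, ?_⟩
  intro a b p q hb
  have hS : ∀ v t, SC (m2 a b) (x2 p q) v t = a * Ag (v - p * l) t + b * Ag (v + q * l) t := by
    intro v t
    unfold SC
    rw [Fin.sum_univ_two]
    show a * Ag (v + -(p * l)) t + b * Ag (v + q * l) t = _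
    rw [sub_eq_add_neg]
  have hwt : Wt (m2 a b) := (plU2 hb.a0 hb.b0 hb.sum (hb.q0.trans hb.qp) hb.pde hb.q0
    (by linarith [hb.qp, hb.pq])).wt
  obtain ⟨a', b', hT, hS'⟩ := hb.two d0
  have hLev : Lev (m2 a b) (x2 p q) := fun t => by
    obtain ⟨v, hv, h1⟩ := hT.lev t
    exact ⟨v, hv, by rw [hS']; exact h1⟩
  have he : eta (m2 a b) (x2 p q) = eta2 a' b' p q := by
    funext t
    exact eta_unique hwt hLev (hT.mem' (hT.eta_mem t)) (by rw [hS']; exact PLT.eta_eq hT.lev t)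
  have h7 : ∀ t, eta (m2 a b) (x2 p q) t ∈ Icc (0 : ℝ) v0 := fun t => by
    rw [he]
    exact hT.eta_mem t
  have hwin : ∀ t, eta (m2 a b) (x2 p q) t ∈ Icc (0 : ℝ) (3 / 50 * l) := fun t =>
    ⟨(h7 t).1, (h7 t).2.trans PLT.v0_lt.le⟩
  refine ⟨hLev, fun t => (hwin t).1, fun t => (hwin t).2, fun t => (h7 t).2.trans PLT.v0_lt7.le, fun t => ?_, ?_⟩
  · rw [← (hasDerivAt_eta hwt hLev t).deriv, he]
    exact deriv_eta2 hT t
  · exact (h a b p q hb _ fun t => ⟨hwin t, by rw [← hS]; exact eta_eq hLev t⟩).2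

end PLT.CA

end
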