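import Mathlib

/-!
# The evolution lemma (forward heat equation with an exponential weight)

`F θ τ`, `a ≤ θ ≤ b`, `|τ| ≤ T`, with `∂_θ F = κ(θ) ∂_τ² F + E`, `κ ≥ 0`, `‖E‖ ≤ d'`; `‖F - L‖ ≤ M` everywhere,
`‖F a τ - L‖ ≤ d`.  Then (`Kf θ = ∫_a^θ κ`, any `lam`)

`‖F θ τ - L‖ ≤ d + d' (θ - a) + M exp (lam ^ 2 Kf θ) cosh (lam τ) / cosh (lam T)`.

Proof: maximum principle with a barrier.
-/

set_option autoImplicit false

noncomputable section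

open Set Filter Topology

namespace PLT.Evo

/-- second derivative at a local maximum -/
theorem second_le {f f1 : ℝ → ℝ} {f2 x : ℝ} (hm : IsLocalMax f x)
    (h1 : ∀ᶠ y in 𝓝 x, HasDerivAt f (f1 y) y) (h2 : HasDerivAt f1 f2 x) : f2 ≤ 0 := by
  by_contra hc
  rw [not_le] at hc
  have e1 : deriv f =ᶠ[𝓝 x] f1 := h1.mono fun y hy => hy.deriv
  have e2 : deriv (deriv f) x = f2 := by
    rw [e1.deriv_eq]
    exact h2.deriv
  have h0 : deriv f x = 0 := hm.deriv_eq_zero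
  have h3 : IsLocalMin f x := isLocalMin_of_deriv_deriv_pos (by rw [e2]; exact hc) h0
    h1.self_of_nhds.continuousAt
  have h4 : f =ᶠ[𝓝 x] fun _ => f x := by
    filter_upwards [hm, h3] with y hy hy'
    exact le_antisymm hy hy'
  have h5 : deriv f =ᶠ[𝓝 x] fun _ => 0 := by
    have := h4.deriv
    simpa using this
  have h6 : deriv (deriv f) x = 0 := by
    rw [h5.deriv_eq]
    simp
  rw [e2] at h6
  linarith

/-- first derivative at a maximum from the left -/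
theorem first_ge {f : ℝ → ℝ} {f1 a b x : ℝ} (hx : a < x) (hxb : x ≤ b)
    (hm : ∀ y ∈ Icc a b, f y ≤ f x) (h : HasDerivWithinAt f f1 (Icc a b) x) : 0 ≤ f1 := by
  have h2 : HasDerivWithinAt f f1 (Icc a x) x := h.mono (Icc_subset_Icc_right hxb)
  have h3 : HasDerivWithinAt f f1 (Iio x) x :=
    (h2.mono_of_mem_nhdsWithin (Icc_mem_nhdsLE hx)).mono Iio_subset_Iic_self
  rw [hasDerivWithinAt_iff_tendsto_slope' (by simp)] at h3
  refine ge_of_tendsto h3 ?_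
  have h4 : ∀ᶠ y in 𝓝[<] x, y ∈ Ioo a x := Ioo_mem_nhdsLT hx
  filter_upwards [h4] with y hy
  rw [slope_def_field]
  have h5 : f y ≤ f x := hm y ⟨hy.1.le, hy.2.le.trans hxb⟩
  have h6 : y - x < 0 := sub_neg.2 hy.2
  rw [div_nonneg_iff]
  right
  constructor <;> linarith

/-- **the comparison principle**: `u ≤ v` on the parabolic boundary, `u_θ - κ u_ττ ≤ v_θ - κ v_ττ` inside -/
theorem comp_le {a b T : ℝ} {u v u1 v1 u2 v2 ut vt : ℝ → ℝ → ℝ} {κ : ℝ → ℝ}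
    (hκ : ∀ θ ∈ Ioc a b, 0 ≤ κ θ)
    (hu : ContinuousOn (fun q : ℝ × ℝ => u q.1 q.2) (Icc a b ×ˢ Icc (-T) T))
    (hv : ContinuousOn (fun q : ℝ × ℝ => v q.1 q.2) (Icc a b ×ˢ Icc (-T) T))
    (hu1 : ∀ θ ∈ Ioc a b, ∀ τ ∈ Ioo (-T) T, HasDerivAt (u θ) (u1 θ τ) τ)
    (hv1 : ∀ θ ∈ Ioc a b, ∀ τ ∈ Ioo (-T) T, HasDerivAt (v θ) (v1 θ τ) τ)
    (hu2 : ∀ θ ∈ Ioc a b, ∀ τ ∈ Ioo (-T) T, HasDerivAt (u1 θ) (u2 θ τ) τ)
    (hv2 : ∀ θ ∈ Ioc a b, ∀ τ ∈ Ioo (-T) T, HasDerivAt (v1 θ) (v2 θ τ) τ)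
    (hut : ∀ θ ∈ Ioc a b, ∀ τ ∈ Ioo (-T) T, HasDerivWithinAt (fun θ => u θ τ) (ut θ τ) (Icc a b) θ)
    (hvt : ∀ θ ∈ Ioc a b, ∀ τ ∈ Ioo (-T) T, HasDerivWithinAt (fun θ => v θ τ) (vt θ τ) (Icc a b) θ)
    (h : ∀ θ ∈ Ioc a b, ∀ τ ∈ Ioo (-T) T, ut θ τ - κ θ * u2 θ τ ≤ vt θ τ - κ θ * v2 θ τ)
    (h0 : ∀ τ ∈ Icc (-T) T, u a τ ≤ v a τ)
    (hb : ∀ θ ∈ Icc a b, ∀ τ, |τ| = T → u θ τ ≤ v θ τ) :
    ∀ θ ∈ Icc a b, ∀ τ ∈ Icc (-T) T, u θ τ ≤ v θ τ := by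
  intro θ0 hθ0 τ0 hτ0
  refine le_of_forall_pos_le_add fun η hη => ?_
  have hL : 0 < 1 + (b - a) := by
    have := hθ0.1.trans hθ0.2
    linarith
  set ε : ℝ := η / (1 + (b - a)) with hε
  have hε0 : 0 < ε := div_pos hη hL
  set H : ℝ × ℝ → ℝ := fun q => u q.1 q.2 - v q.1 q.2 - ε * (1 + (q.1 - a)) with hH
  have hc : IsCompact (Icc a b ×ˢ Icc (-T) T) := isCompact_Icc.prod isCompact_Icc
  have hne : (Icc a b ×ˢ Icc (-T) T).Nonempty := ⟨(θ0, τ0), hθ0, hτ0⟩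
  have hHc : ContinuousOn H (Icc a b ×ˢ Icc (-T) T) :=
    (hu.sub hv).sub (by fun_prop)
  obtain ⟨⟨θ, τ⟩, ⟨hθ, hτ⟩, hmax⟩ := hc.exists_isMaxOn hne hHc
  have hmax' : ∀ q ∈ Icc a b ×ˢ Icc (-T) T, H q ≤ H (θ, τ) := fun q hq => hmax hq
  have key : H (θ, τ) ≤ 0 := by
    by_contra hpos
    rw [not_le] at hpos
    have hθa : a < θ := by
      rcases eq_or_lt_of_le hθ.1 with e | e
      · exfalso
        have h1 := h0 τ hτ
        simp only [hH] at hpos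
        have e' : a = θ := e
        rw [← e'] at hpos
        have : ε * (1 + (a - a)) = ε := by ring
        rw [this] at hpos
        linarith
      · exact e
    have hτT : |τ| < T := by
      rcases eq_or_lt_of_le (abs_le.2 hτ) with e | e
      · exfalso
        have h1 := hb θ hθ τ e
        simp only [hH] at hpos
        have : 0 ≤ ε * (1 + (θ - a)) := mul_nonneg hε0.le (by linarith)
        linarith
      · exact e
    have hθI : θ ∈ Ioc a b := ⟨hθa, hθ.2⟩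
    have hτI : τ ∈ Ioo (-T) T := abs_lt.1 hτT
    -- the second derivative
    have s1 : IsLocalMax (fun s => u θ s - v θ s) τ := by
      filter_upwards [Ioo_mem_nhds hτI.1 hτI.2] with s hs
      have := hmax' (θ, s) ⟨hθ, hs.1.le, hs.2.le⟩
      simp only [hH] at this
      linarith
    have s2 : u2 θ τ - v2 θ τ ≤ 0 := by
      refine second_le (f1 := fun s => u1 θ s - v1 θ s) s1 ?_ ((hu2 θ hθI τ hτI).sub (hv2 θ hθI τ hτI))
      filter_upwards [Ioo_mem_nhds hτI.1 hτI.2] with s hs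
      exact (hu1 θ hθI s hs).sub (hv1 θ hθI s hs)
    -- the first derivative
    have s3 : 0 ≤ ut θ τ - vt θ τ - ε := by
      have hd : HasDerivWithinAt (fun s => u s τ - v s τ - ε * (1 + (s - a)))
          (ut θ τ - vt θ τ - ε) (Icc a b) θ := by
        refine ((hut θ hθI τ hτI).sub (hvt θ hθI τ hτI)).sub ?_
        have : HasDerivAt (fun s : ℝ => ε * (1 + (s - a))) (ε * 1) θ :=
          (((hasDerivAt_id θ).sub_const a).const_add 1).const_mul ε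
        simpa using this.hasDerivWithinAt
      exact first_ge hθa hθ.2 (fun s hs => hmax' (s, τ) ⟨hs, hτ⟩) hd
    have s4 := h θ hθI τ hτI
    have s5 : κ θ * (u2 θ τ - v2 θ τ) ≤ 0 := mul_nonpos_of_nonneg_of_nonpos (hκ θ hθI) s2
    nlinarith
  have h1 := (hmax' (θ0, τ0) ⟨hθ0, hτ0⟩).trans key
  simp only [hH] at h1
  have h2 : ε * (1 + (θ0 - a)) ≤ η := by
    rw [hε, div_mul_eq_mul_div, div_le_iff₀ hL]
    have := hθ0.2
    nlinarith
  linarith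

/-- **the evolution lemma** -/
theorem evo {a b T d d' M lam : ℝ} (hT : 0 < T) (hd : 0 ≤ d) (hd' : 0 ≤ d') (hM : 0 ≤ M) {L : ℂ}
    {F F1 F2 E : ℝ → ℝ → ℂ} {κ Kf : ℝ → ℝ}
    (hκ : ∀ θ ∈ Ioc a b, 0 ≤ κ θ) (hK : ∀ θ ∈ Ioc a b, HasDerivWithinAt Kf (κ θ) (Icc a b) θ)
    (hKc : ContinuousOn Kf (Icc a b)) (hK0 : ∀ θ ∈ Icc a b, 0 ≤ Kf θ)
    (hF : ContinuousOn (fun q : ℝ × ℝ => F q.1 q.2) (Icc a b ×ˢ Icc (-T) T))
    (hF1 : ∀ θ ∈ Ioc a b, ∀ τ ∈ Ioo (-T) T, HasDerivAt (F θ) (F1 θ τ) τ)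
    (hF2 : ∀ θ ∈ Ioc a b, ∀ τ ∈ Ioo (-T) T, HasDerivAt (F1 θ) (F2 θ τ) τ)
    (hFt : ∀ θ ∈ Ioc a b, ∀ τ ∈ Ioo (-T) T,
      HasDerivWithinAt (fun θ => F θ τ) ((κ θ : ℂ) * F2 θ τ + E θ τ) (Icc a b) θ)
    (hE : ∀ θ ∈ Ioc a b, ∀ τ ∈ Ioo (-T) T, ‖E θ τ‖ ≤ d')
    (hB : ∀ θ ∈ Icc a b, ∀ τ, |τ| = T → ‖F θ τ - L‖ ≤ M)
    (h0 : ∀ τ ∈ Icc (-T) T, ‖F a τ - L‖ ≤ d) :
    ∀ θ ∈ Icc a b, ∀ τ ∈ Icc (-T) T, ‖F θ τ - L‖ ≤
      d + d' * (θ - a) + M * Real.exp (lam ^ 2 * Kf θ) * (Real.cosh (lam * τ) / Real.cosh (lam * T)) := by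
  intro θ0 hθ0 τ0 hτ0
  have hC : 0 < Real.cosh (lam * T) := Real.cosh_pos _
  set v : ℝ → ℝ → ℝ := fun θ τ => d + d' * (θ - a) +
    M * Real.exp (lam ^ 2 * Kf θ) * (Real.cosh (lam * τ) / Real.cosh (lam * T)) with hv
  have hvp : ∀ θ ∈ Icc a b, ∀ τ, 0 ≤ M * Real.exp (lam ^ 2 * Kf θ) *
      (Real.cosh (lam * τ) / Real.cosh (lam * T)) := fun θ _ τ =>
    mul_nonneg (mul_nonneg hM (Real.exp_pos _).le) (div_nonneg (Real.cosh_pos _).le hC.le)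
  -- the direction
  set z := F θ0 τ0 - L with hz
  obtain ⟨ω, hω, hωz⟩ : ∃ ω : ℂ, ‖ω‖ ≤ 1 ∧ (ω * z).re = ‖z‖ := by
    by_cases h : z = 0
    · exact ⟨0, by simp, by simp [h]⟩
    · have hn : (0 : ℝ) < ‖z‖ := norm_pos_iff.2 h
      refine ⟨(starRingEnd ℂ) z / (‖z‖ : ℂ), ?_, ?_⟩
      · rw [norm_div, RCLike.norm_conj, Complex.norm_real, norm_norm, div_self hn.ne']
      · have : (starRingEnd ℂ) z / (‖z‖ : ℂ) * z = ((‖z‖ : ℝ) : ℂ) := by
          have h1 : (starRingEnd ℂ) z * z = ((‖z‖ ^ 2 : ℝ) : ℂ) := by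
            rw [mul_comm, Complex.mul_conj, Complex.normSq_eq_norm_sq]
          have h2 : (‖z‖ : ℂ) ≠ 0 := by exact_mod_cast hn.ne'
          rw [div_mul_eq_mul_div, h1]
          push_cast
          field_simp
        rw [this, Complex.ofReal_re]
  have hre : ∀ w : ℂ, (ω * w).re ≤ ‖w‖ := fun w => by
    refine (Complex.re_le_norm _).trans ?_
    rw [norm_mul]
    calc ‖ω‖ * ‖w‖ ≤ 1 * ‖w‖ := mul_le_mul_of_nonneg_right hω (norm_nonneg _)
      _ = ‖w‖ := one_mul _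
  have dre : ∀ {g : ℝ → ℂ} {g' : ℂ} {x : ℝ} {s : Set ℝ}, HasDerivWithinAt g g' s x →
      HasDerivWithinAt (fun x => (ω * g x).re) (ω * g').re s x := fun {g g' x s} hg =>
    Complex.reCLM.hasFDerivAt.comp_hasDerivWithinAt x (hg.const_mul ω)
  have dre' : ∀ {g : ℝ → ℂ} {g' : ℂ} {x : ℝ}, HasDerivAt g g' x →
      HasDerivAt (fun x => (ω * g x).re) (ω * g').re x := fun {g g' x} hg =>
    Complex.reCLM.hasFDerivAt.comp_hasDerivAt x (hg.const_mul ω)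
  have main := comp_le (a := a) (b := b) (T := T) (u := fun θ τ => (ω * (F θ τ - L)).re) (v := v)
    (u1 := fun θ τ => (ω * F1 θ τ).re) (u2 := fun θ τ => (ω * F2 θ τ).re)
    (ut := fun θ τ => (ω * ((κ θ : ℂ) * F2 θ τ + E θ τ)).re)
    (v1 := fun θ τ => M * Real.exp (lam ^ 2 * Kf θ) * (lam * Real.sinh (lam * τ) / Real.cosh (lam * T)))
    (v2 := fun θ τ => M * Real.exp (lam ^ 2 * Kf θ) *
      (lam ^ 2 * Real.cosh (lam * τ) / Real.cosh (lam * T)))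
    (vt := fun θ τ => d' + M * (Real.exp (lam ^ 2 * Kf θ) * (lam ^ 2 * κ θ)) *
      (Real.cosh (lam * τ) / Real.cosh (lam * T))) (κ := κ) hκ ?_ ?_ ?_ ?_ ?_ ?_ ?_ ?_ ?_ ?_ ?_
      θ0 hθ0 τ0 hτ0
  · have e : (ω * (F θ0 τ0 - L)).re = ‖F θ0 τ0 - L‖ := hωz
    simp only [e] at main
    exact main
  · exact Complex.continuous_re.comp_continuousOn (continuousOn_const.mul (hF.sub continuousOn_const))
  · have hKc2 : ContinuousOn (fun q : ℝ × ℝ => Kf q.1) (Icc a b ×ˢ Icc (-T) T) :=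
      hKc.comp continuousOn_fst fun q hq => hq.1
    have h2 : ContinuousOn (fun q : ℝ × ℝ => Real.cosh (lam * q.2) / Real.cosh (lam * T))
        (Icc a b ×ˢ Icc (-T) T) := by
      refine Continuous.continuousOn ?_
      exact (Real.continuous_cosh.comp (continuous_const.mul continuous_snd)).div_const _
    have h3 : ContinuousOn (fun q : ℝ × ℝ => d + d' * (q.1 - a)) (Icc a b ×ˢ Icc (-T) T) := by
      fun_prop
    exact h3.add ((continuousOn_const.mul (Real.continuous_exp.comp_continuousOn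
      (continuousOn_const.mul hKc2))).mul h2)
  · intro θ hθ τ hτ
    have := dre' ((hF1 θ hθ τ hτ).sub_const L)
    simpa using this
  · intro θ hθ τ hτ
    have h1 : HasDerivAt (fun τ => Real.cosh (lam * τ)) (Real.sinh (lam * τ) * (lam * 1)) τ :=
      ((hasDerivAt_id τ).const_mul lam).cosh
    have h2 := ((h1.div_const (Real.cosh (lam * T))).const_mul
      (M * Real.exp (lam ^ 2 * Kf θ))).const_add (d + d' * (θ - a))
    refine h2.congr_deriv ?_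
    ring
  · intro θ hθ τ hτ
    exact dre' (hF2 θ hθ τ hτ)
  · intro θ hθ τ hτ
    have h1 : HasDerivAt (fun τ => Real.sinh (lam * τ)) (Real.cosh (lam * τ) * (lam * 1)) τ :=
      ((hasDerivAt_id τ).const_mul lam).sinh
    have h2 := (((h1.const_mul lam).div_const (Real.cosh (lam * T))).const_mul
      (M * Real.exp (lam ^ 2 * Kf θ)))
    refine h2.congr_deriv ?_
    ring
  · intro θ hθ τ hτ
    have := dre ((hFt θ hθ τ hτ).sub_const L)
    simpa using this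
  · intro θ hθ τ hτ
    have h1 : HasDerivWithinAt (fun θ => d + d' * (θ - a)) (d' * 1) (Icc a b) θ :=
      ((((hasDerivAt_id θ).sub_const a).const_mul d').const_add d).hasDerivWithinAt
    have h2 := (((hK θ hθ).const_mul (lam ^ 2)).exp.const_mul M).mul_const
      (Real.cosh (lam * τ) / Real.cosh (lam * T))
    have h3 := h1.add h2
    rw [mul_one] at h3
    exact h3
  · intro θ hθ τ hτ
    have e1 : (ω * ((κ θ : ℂ) * F2 θ τ + E θ τ)).re - κ θ * (ω * F2 θ τ).re = (ω * E θ τ).re := by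
      have : ω * ((κ θ : ℂ) * F2 θ τ + E θ τ) = (κ θ : ℂ) * (ω * F2 θ τ) + ω * E θ τ := by ring
      rw [this, Complex.add_re, Complex.re_ofReal_mul]
      ring
    show (ω * ((κ θ : ℂ) * F2 θ τ + E θ τ)).re - κ θ * (ω * F2 θ τ).re ≤ _
    rw [e1]
    have e2 := (hre (E θ τ)).trans (hE θ hθ τ hτ)
    refine e2.trans (le_of_eq ?_)
    ring
  · intro τ hτ
    refine ((hre _).trans (h0 τ hτ)).trans ?_
    have := hvp a ⟨le_rfl, hθ0.1.trans hθ0.2⟩ τ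
    simp only [hv]
    nlinarith
  · intro θ hθ τ hτ
    refine ((hre _).trans (hB θ hθ τ hτ)).trans ?_
    have e1 : Real.cosh (lam * τ) = Real.cosh (lam * T) := by
      rw [← Real.cosh_abs (lam * τ), abs_mul, hτ, ← Real.cosh_abs (lam * T), abs_mul,
        abs_of_pos hT]
    simp only [hv]
    rw [e1, div_self hC.ne', mul_one]
    have e2 : 1 ≤ Real.exp (lam ^ 2 * Kf θ) :=
      Real.one_le_exp (mul_nonneg (sq_nonneg _) (hK0 θ hθ))
    have e3 : 0 ≤ d' * (θ - a) := mul_nonneg hd' (by linarith [hθ.1])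
    nlinarith

/-- the last factor -/
theorem cosh_ratio {lam T τ : ℝ} (hl : 0 ≤ lam) :
    Real.cosh (lam * τ) / Real.cosh (lam * T) ≤ 2 * Real.exp (-(lam * (T - |τ|))) := by
  have hC : 0 < Real.cosh (lam * T) := Real.cosh_pos _
  rw [div_le_iff₀ hC]
  have h1 : Real.exp (lam * T) ≤ 2 * Real.cosh (lam * T) := by
    rw [Real.cosh_eq]
    have := Real.exp_pos (-(lam * T))
    linarith
  have h2 : Real.cosh (lam * τ) ≤ Real.exp (lam * |τ|) := by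
    rw [← Real.cosh_abs (lam * τ), abs_mul, abs_of_nonneg hl, Real.cosh_eq]
    have : Real.exp (-(lam * |τ|)) ≤ Real.exp (lam * |τ|) :=
      Real.exp_le_exp.2 (by have := mul_nonneg hl (abs_nonneg τ); linarith)
    linarith
  have h3 : Real.exp (lam * |τ|) = Real.exp (-(lam * (T - |τ|))) * Real.exp (lam * T) := by
    rw [← Real.exp_add]
    congr 1
    ring
  calc Real.cosh (lam * τ) ≤ Real.exp (-(lam * (T - |τ|))) * Real.exp (lam * T) := h2.trans h3.le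
    _ ≤ Real.exp (-(lam * (T - |τ|))) * (2 * Real.cosh (lam * T)) :=
        mul_le_mul_of_nonneg_left h1 (Real.exp_pos _).le
    _ = _ := by ring

/-- **the evolution lemma with a large parameter `N`**, `|τ| ≤ e1 log N` -/
theorem evoN {a b N c ep A e1 C Cl Km : ℝ} (hN : 1 < N) (hc : 0 ≤ c) (hep : 0 ≤ ep)
    (hA : 0 ≤ A) (he1 : 0 < e1) (hAe : A * e1 ≤ c / 2) (hC : 0 ≤ C) {L : ℂ} (hL : ‖L‖ ≤ Cl)
    {F F1 F2 E : ℝ → ℝ → ℂ} {κ Kf : ℝ → ℝ}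
    (hκ : ∀ θ ∈ Ioc a b, 0 ≤ κ θ) (hK : ∀ θ ∈ Ioc a b, HasDerivWithinAt Kf (κ θ) (Icc a b) θ)
    (hKc : ContinuousOn Kf (Icc a b)) (hK0 : ∀ θ ∈ Icc a b, 0 ≤ Kf θ)
    (hKm : ∀ θ ∈ Icc a b, Kf θ ≤ Km)
    (hF : ContinuousOn (fun q : ℝ × ℝ => F q.1 q.2)
      (Icc a b ×ˢ Icc (-(e1 * Real.log N)) (e1 * Real.log N)))
    (hF1 : ∀ θ ∈ Ioc a b, ∀ τ ∈ Ioo (-(e1 * Real.log N)) (e1 * Real.log N),
      HasDerivAt (F θ) (F1 θ τ) τ)
    (hF2 : ∀ θ ∈ Ioc a b, ∀ τ ∈ Ioo (-(e1 * Real.log N)) (e1 * Real.log N),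
      HasDerivAt (F1 θ) (F2 θ τ) τ)
    (hFt : ∀ θ ∈ Ioc a b, ∀ τ ∈ Ioo (-(e1 * Real.log N)) (e1 * Real.log N),
      HasDerivWithinAt (fun θ => F θ τ) ((κ θ : ℂ) * F2 θ τ + E θ τ) (Icc a b) θ)
    (hE : ∀ θ ∈ Ioc a b, ∀ τ ∈ Ioo (-(e1 * Real.log N)) (e1 * Real.log N),
      ‖E θ τ‖ ≤ C * N ^ (-c) * Real.exp (A * |τ|))
    (hB : ∀ θ ∈ Icc a b, ∀ τ ∈ Icc (-(e1 * Real.log N)) (e1 * Real.log N),
      ‖F θ τ‖ ≤ C * N ^ ep * Real.exp (A * |τ|))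
    (h0 : ∀ τ ∈ Icc (-(e1 * Real.log N)) (e1 * Real.log N),
      ‖F a τ - L‖ ≤ C * N ^ (-c) * Real.exp (A * |τ|)) :
    ∀ θ ∈ Icc a b, ∀ τ : ℝ, |τ| ≤ e1 / 2 * Real.log N → ‖F θ τ - L‖ ≤
      (C * (1 + (b - a)) + 2 * (C + Cl) * Real.exp ((2 * (ep + A * e1 + c / 2) / e1) ^ 2 * Km)) *
        N ^ (-(c / 2)) := by
  intro θ hθ τ hτ
  have hN0 : 0 < N := by linarith
  have hlog : 0 < Real.log N := Real.log_pos hN
  set T : ℝ := e1 * Real.log N with hT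
  have hT0 : 0 < T := mul_pos he1 hlog
  have hCl : 0 ≤ Cl := (norm_nonneg _).trans hL
  set lam : ℝ := 2 * (ep + A * e1 + c / 2) / e1 with hlam
  have hAe0 : 0 ≤ A * e1 := mul_nonneg hA he1.le
  have hlam0 : 0 ≤ lam := div_nonneg (by linarith) he1.le
  have hexp : ∀ τ : ℝ, |τ| ≤ T → Real.exp (A * |τ|) ≤ N ^ (A * e1) := by
    intro τ hτ
    rw [Real.rpow_def_of_pos hN0]
    refine Real.exp_le_exp.2 ?_
    calc A * |τ| ≤ A * T := mul_le_mul_of_nonneg_left hτ hA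
      _ = Real.log N * (A * e1) := by rw [hT]; ring
  have hpos : ∀ r : ℝ, 0 < N ^ r := fun r => Real.rpow_pos_of_pos hN0 r
  have hmono : ∀ r r' : ℝ, r ≤ r' → N ^ r ≤ N ^ r' := fun r r' h =>
    Real.rpow_le_rpow_of_exponent_le hN.le h
  have hd : ∀ τ : ℝ, |τ| ≤ T → C * N ^ (-c) * Real.exp (A * |τ|) ≤ C * N ^ (-(c / 2)) := by
    intro τ hτ
    calc C * N ^ (-c) * Real.exp (A * |τ|) ≤ C * N ^ (-c) * N ^ (A * e1) :=
          mul_le_mul_of_nonneg_left (hexp τ hτ) (mul_nonneg hC (hpos _).le)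
      _ = C * N ^ (-c + A * e1) := by rw [mul_assoc, ← Real.rpow_add hN0]
      _ ≤ C * N ^ (-(c / 2)) := mul_le_mul_of_nonneg_left (hmono _ _ (by linarith)) hC
  have hM : ∀ τ : ℝ, |τ| ≤ T → C * N ^ ep * Real.exp (A * |τ|) + Cl ≤
      (C + Cl) * N ^ (ep + A * e1) := by
    intro τ hτ
    have h1 : C * N ^ ep * Real.exp (A * |τ|) ≤ C * N ^ (ep + A * e1) := by
      calc C * N ^ ep * Real.exp (A * |τ|) ≤ C * N ^ ep * N ^ (A * e1) :=
            mul_le_mul_of_nonneg_left (hexp τ hτ) (mul_nonneg hC (hpos _).le)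
        _ = _ := by rw [mul_assoc, ← Real.rpow_add hN0]
    have h2 : (1 : ℝ) ≤ N ^ (ep + A * e1) := by
      rw [← Real.rpow_zero N]
      exact hmono _ _ (by linarith)
    have h3 : Cl ≤ Cl * N ^ (ep + A * e1) := le_mul_of_one_le_right hCl h2
    linarith
  have main := evo (a := a) (b := b) (T := T) (d := C * N ^ (-(c / 2))) (d' := C * N ^ (-(c / 2)))
    (M := (C + Cl) * N ^ (ep + A * e1)) (lam := lam) hT0 (mul_nonneg hC (hpos _).le)
    (mul_nonneg hC (hpos _).le) (mul_nonneg (by linarith) (hpos _).le) (L := L) hκ hK hKc hK0 hF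
    hF1 hF2 hFt (fun θ hθ τ hτ => (hE θ hθ τ hτ).trans (hd τ (abs_lt.2 hτ).le))
    (fun θ hθ τ hτ => by
      have h1 : τ ∈ Icc (-T) T := abs_le.1 hτ.le
      refine (norm_sub_le _ _).trans ?_
      exact (add_le_add (hB θ hθ τ h1) hL).trans (hM τ hτ.le))
    (fun τ hτ => (h0 τ hτ).trans (hd τ (abs_le.2 hτ))) θ hθ τ
    (abs_le.1 (hτ.trans (by rw [hT]; nlinarith)))
  refine main.trans ?_
  have e1' : Real.cosh (lam * τ) / Real.cosh (lam * T) ≤ 2 * N ^ (-(ep + A * e1 + c / 2)) := by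
    refine (cosh_ratio hlam0).trans ?_
    refine mul_le_mul_of_nonneg_left ?_ (by norm_num)
    rw [Real.rpow_def_of_pos hN0]
    refine Real.exp_le_exp.2 ?_
    have h1 : T / 2 ≤ T - |τ| := by
      have : e1 / 2 * Real.log N = T / 2 := by rw [hT]; ring
      linarith
    have h2 := mul_le_mul_of_nonneg_left h1 hlam0
    have h3 : lam * (T / 2) = Real.log N * (ep + A * e1 + c / 2) := by
      rw [hlam, hT]
      field_simp
    linarith
  have e2' : Real.exp (lam ^ 2 * Kf θ) ≤ Real.exp (lam ^ 2 * Km) :=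
    Real.exp_le_exp.2 (mul_le_mul_of_nonneg_left (hKm θ hθ) (sq_nonneg _))
  have e3' : (C + Cl) * N ^ (ep + A * e1) * Real.exp (lam ^ 2 * Kf θ) *
      (Real.cosh (lam * τ) / Real.cosh (lam * T)) ≤
      2 * (C + Cl) * Real.exp (lam ^ 2 * Km) * N ^ (-(c / 2)) := by
    have hCC : 0 ≤ C + Cl := by linarith
    calc (C + Cl) * N ^ (ep + A * e1) * Real.exp (lam ^ 2 * Kf θ) *
        (Real.cosh (lam * τ) / Real.cosh (lam * T))
        ≤ (C + Cl) * N ^ (ep + A * e1) * Real.exp (lam ^ 2 * Km) *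
          (2 * N ^ (-(ep + A * e1 + c / 2))) := by
          refine mul_le_mul (mul_le_mul_of_nonneg_left e2' (mul_nonneg hCC (hpos _).le)) e1'
            (div_nonneg (Real.cosh_pos _).le (Real.cosh_pos _).le)
            (mul_nonneg (mul_nonneg hCC (hpos _).le) (Real.exp_pos _).le)
      _ = 2 * (C + Cl) * Real.exp (lam ^ 2 * Km) *
          (N ^ (ep + A * e1) * N ^ (-(ep + A * e1 + c / 2))) := by ring
      _ = _ := by
          rw [← Real.rpow_add hN0]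
          congr 2
          ring
  have e4' : C * N ^ (-(c / 2)) * (θ - a) ≤ C * N ^ (-(c / 2)) * (b - a) :=
    mul_le_mul_of_nonneg_left (by linarith [hθ.2]) (mul_nonneg hC (hpos _).le)
  calc _ ≤ C * N ^ (-(c / 2)) + C * N ^ (-(c / 2)) * (b - a) +
        2 * (C + Cl) * Real.exp (lam ^ 2 * Km) * N ^ (-(c / 2)) := by linarith
    _ = _ := by ring

/-- the time of the evolution from `V` -/
theorem hasDeriv_K {V V' : ℝ → ℝ} {w a b θ : ℝ} (hV : 0 < V θ)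
    (h : HasDerivWithinAt V (V' θ) (Icc a b) θ) :
    HasDerivWithinAt (fun θ => (Real.log (V a) - Real.log (V θ)) / (4 * w))
      (-V' θ / (4 * w * V θ)) (Icc a b) θ := by
  have h1 := ((h.log hV.ne').const_sub (Real.log (V a))).div_const (4 * w)
  refine h1.congr_deriv ?_
  rw [neg_div, neg_div, div_div, mul_comm (V θ)]

/-- **the form with an analytic function**: `F θ τ = f θ (i τ)`, `∂_θ f = V' / (4 w V) f'' + E`, `V' ≤ 0` -/
theorem evoV {a b N c ep A e1 C Cl w v0 v1 : ℝ} (hab : a ≤ b) (hN : 1 < N) (hc : 0 ≤ c)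
    (hep : 0 ≤ ep) (hA : 0 ≤ A) (he1 : 0 < e1) (hAe : A * e1 ≤ c / 2) (hC : 0 ≤ C) {L : ℂ}
    (hL : ‖L‖ ≤ Cl) (hw : 0 < w) {V V' : ℝ → ℝ} (hv0 : 0 < v0) (hV0 : ∀ θ ∈ Icc a b, v0 ≤ V θ)
    (hV1 : V a ≤ v1) (hVd : ∀ θ ∈ Icc a b, HasDerivWithinAt V (V' θ) (Icc a b) θ)
    (hV' : ∀ θ ∈ Icc a b, V' θ ≤ 0)
    {f f1 f2 E : ℝ → ℂ → ℂ}
    (hf : ContinuousOn (fun q : ℝ × ℝ => f q.1 (Complex.I * q.2))
      (Icc a b ×ˢ Icc (-(e1 * Real.log N)) (e1 * Real.log N)))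
    (hf1 : ∀ θ ∈ Ioc a b, ∀ τ ∈ Ioo (-(e1 * Real.log N)) (e1 * Real.log N),
      HasDerivAt (f θ) (f1 θ (Complex.I * τ)) (Complex.I * τ))
    (hf2 : ∀ θ ∈ Ioc a b, ∀ τ ∈ Ioo (-(e1 * Real.log N)) (e1 * Real.log N),
      HasDerivAt (f1 θ) (f2 θ (Complex.I * τ)) (Complex.I * τ))
    (hft : ∀ θ ∈ Ioc a b, ∀ τ ∈ Ioo (-(e1 * Real.log N)) (e1 * Real.log N),
      HasDerivWithinAt (fun θ => f θ (Complex.I * τ))
        (((V' θ / (4 * w * V θ) : ℝ) : ℂ) * f2 θ (Complex.I * τ) + E θ (Complex.I * τ))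
        (Icc a b) θ)
    (hE : ∀ θ ∈ Ioc a b, ∀ τ ∈ Ioo (-(e1 * Real.log N)) (e1 * Real.log N),
      ‖E θ (Complex.I * τ)‖ ≤ C * N ^ (-c) * Real.exp (A * |τ|))
    (hB : ∀ θ ∈ Icc a b, ∀ τ ∈ Icc (-(e1 * Real.log N)) (e1 * Real.log N),
      ‖f θ (Complex.I * τ)‖ ≤ C * N ^ ep * Real.exp (A * |τ|))
    (h0 : ∀ τ ∈ Icc (-(e1 * Real.log N)) (e1 * Real.log N),
      ‖f a (Complex.I * τ) - L‖ ≤ C * N ^ (-c) * Real.exp (A * |τ|)) :
    ∀ θ ∈ Icc a b, ∀ τ : ℝ, |τ| ≤ e1 / 2 * Real.log N → ‖f θ (Complex.I * τ) - L‖ ≤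
      (C * (1 + (b - a)) + 2 * (C + Cl) * Real.exp ((2 * (ep + A * e1 + c / 2) / e1) ^ 2 *
        ((Real.log v1 - Real.log v0) / (4 * w)))) * N ^ (-(c / 2)) := by
  have hVp : ∀ θ ∈ Icc a b, 0 < V θ := fun θ hθ => hv0.trans_le (hV0 θ hθ)
  have hKd : ∀ θ ∈ Icc a b, HasDerivWithinAt
      (fun θ => (Real.log (V a) - Real.log (V θ)) / (4 * w)) (-V' θ / (4 * w * V θ)) (Icc a b) θ :=
    fun θ hθ => hasDeriv_K (hVp θ hθ) (hVd θ hθ)
  have haI : a ∈ Icc a b := ⟨le_rfl, hab⟩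
  have hVc : ContinuousOn V (Icc a b) := fun θ hθ => (hVd θ hθ).continuousWithinAt
  have hanti : AntitoneOn V (Icc a b) := by
    refine antitoneOn_of_deriv_nonpos (convex_Icc a b) hVc ?_ ?_
    · intro x hx
      rw [interior_Icc] at hx
      exact ((hVd x (Ioo_subset_Icc_self hx)).hasDerivAt
        (Icc_mem_nhds hx.1 hx.2)).differentiableAt.differentiableWithinAt
    · intro x hx
      rw [interior_Icc] at hx
      rw [((hVd x (Ioo_subset_Icc_self hx)).hasDerivAt (Icc_mem_nhds hx.1 hx.2)).deriv]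
      exact hV' x (Ioo_subset_Icc_self hx)
  have hline : ∀ τ : ℝ, HasDerivAt (fun τ : ℝ => Complex.I * (τ : ℂ)) Complex.I τ := fun τ => by
    have := (Complex.ofRealCLM.hasDerivAt (x := τ)).const_mul Complex.I
    simpa using this
  refine evoN (F := fun θ τ => f θ (Complex.I * τ)) (F1 := fun θ τ => f1 θ (Complex.I * τ) * Complex.I)
    (F2 := fun θ τ => -f2 θ (Complex.I * τ)) (E := fun θ τ => E θ (Complex.I * τ))
    (κ := fun θ => -V' θ / (4 * w * V θ))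
    (Kf := fun θ => (Real.log (V a) - Real.log (V θ)) / (4 * w)) hN hc hep hA he1 hAe hC hL
    ?_ (fun θ hθ => hKd θ (Ioc_subset_Icc_self hθ))
    (fun θ hθ => (hKd θ hθ).continuousWithinAt) ?_ ?_ hf ?_ ?_ ?_ hE hB h0
  · intro θ hθ
    have hθ' := Ioc_subset_Icc_self hθ
    exact div_nonneg (by linarith [hV' θ hθ'])
      (mul_nonneg (by linarith) (hVp θ hθ').le)
  · intro θ hθ
    refine div_nonneg ?_ (by linarith)
    have := Real.log_le_log (hVp θ hθ) (hanti haI hθ hθ.1)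
    linarith
  · intro θ hθ
    refine div_le_div_of_nonneg_right ?_ (by linarith)
    have h1 := Real.log_le_log (hVp a haI) hV1
    have h2 := Real.log_le_log hv0 (hV0 θ hθ)
    linarith
  · intro θ hθ τ hτ
    exact (hf1 θ hθ τ hτ).comp_of_eq τ (hline τ) rfl
  · intro θ hθ τ hτ
    have h1 : HasDerivAt (fun τ : ℝ => f1 θ (Complex.I * τ)) (f2 θ (Complex.I * τ) * Complex.I) τ :=
      (hf2 θ hθ τ hτ).comp_of_eq τ (hline τ) rfl
    refine (h1.mul_const Complex.I).congr_deriv ?_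
    rw [mul_assoc, Complex.I_mul_I]
    ring
  · intro θ hθ τ hτ
    refine (hft θ hθ τ hτ).congr_deriv ?_
    push_cast
    ring

end PLT.Evo

end
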