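import Pool.Agent.PLT.Chain
import Pool.Agent.PLT.Evo
import Pool.Agent.PLX.RayE

/-!
# The evolution from the axis to a direction (helper17)

Direction `a0, b0 ≥ 1`; content of size `k` : `k a0` rows at `-pp`, `k b0` rows at `qq`.

* `fth q a0 b0 k th z` : the dislocated function;
* `WTH` : the Ward identity at the content (row at `qq`), `U0T` : polynomial bound, `Re z = 0`;
* **`evoF`** : with `FunO2` on the first axis: `|fth .. th (I τ) - g (k a0 + k b0)| ≤ C k ^ (-c1)`, `|τ| ≤ e1 log k`,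
  all `th ∈ [0, l]`.
-/

set_option autoImplicit false
set_option linter.unusedSectionVars false

noncomputable section

open Complex Filter Topology Set

namespace PLT.FS

open NUP1 (l lpos)
open Pool.Agent.PB (Rwo_zero)
open Pool.Agent.PLX (f0Q fQ FunO2)
open PLT.Pa

/-- the dislocated function of the content of size `k` on the path of the direction `(a0, b0)` -/
def fth (q a0 b0 k : ℕ) (th : ℝ) (z : ℂ) : ℂ := fS q (cth a0 b0 (k * a0) (k * b0) th) z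

/-- **the Ward identity at the content**, a row at the place `qq`, legs on `Re z = 0` -/
def WTH (q a0 b0 : ℕ) (c e0 : ℝ) : Prop := ∃ C : ℝ, ∀ᶠ k : ℕ in atTop, ∀ th ∈ Ioc 0 l, ∀ τ : ℝ,
  |τ| ≤ e0 * Real.log k → ∀ b : ℕ, b + 1 = k * b0 →
  ‖((k * VV a0 b0 th : ℝ) : ℂ) * Dq q (k * a0) b ((-pp a0 b0 th : ℝ) : ℂ) ((qq a0 b0 th : ℝ) : ℂ) (I * τ) +
      (1 / 4 * Real.sin (8 / 3 * qq a0 b0 th) : ℝ) * deriv (deriv (fth q a0 b0 k th)) (I * τ) +
      (Real.cos (8 / 3 * qq a0 b0 th) : ℝ) * deriv (fth q a0 b0 k th) (I * τ)‖ ≤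
    C * (k : ℝ) ^ (-c) * Real.exp (C * |τ|)

/-- polynomial bound on `Re z = 0` -/
def U0T (q a0 b0 : ℕ) (e0 : ℝ) : Prop := ∃ C : ℝ, ∀ᶠ k : ℕ in atTop, ∀ th ∈ Icc 0 l, ∀ τ : ℝ,
  |τ| ≤ e0 * Real.log k → ‖fth q a0 b0 k th (I * τ)‖ ≤ (k : ℝ) ^ C

theorem fth_zero (q a0 b0 k : ℕ) {z : ℂ} (hz : |z.re| < 3 * l) :
    fth q a0 b0 k 0 z = f0Q q (k * a0 + k * b0) z := by
  unfold fth cth f0Q
  rw [pp_zero, qq_zero, neg_zero, ofReal_zero, cnt_zero]
  exact fS_self q (Rwo_zero _) hz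

theorem re_I (τ : ℝ) : |(I * (τ : ℂ)).re| < 3 * l := by
  have := lpos
  simpa using this

theorem g_bd {c : ℝ} {f : ℕ → ℂ → ℂ} {g : ℕ → ℂ} (h : FunO2 c f g) (hc : 0 < c) :
    ∃ Cl : ℝ, 0 ≤ Cl ∧ ∀ᶠ j : ℕ in atTop, ‖g j‖ ≤ Cl := by
  obtain ⟨L, C', hC', hL⟩ := h.lim hc
  refine ⟨‖L 0‖ + ‖L 1‖ + C', by positivity, ?_⟩
  filter_upwards [hL, eventually_ge_atTop 1] with j hj hj1
  have hj1' : (1 : ℝ) ≤ j := by exact_mod_cast hj1
  have e1 : (j : ℝ) ^ (-c) ≤ 1 := Real.rpow_le_one_of_one_le_of_nonpos hj1' (by linarith)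
  have e2 : ‖L (j % 2)‖ ≤ ‖L 0‖ + ‖L 1‖ := by
    rcases Nat.mod_two_eq_zero_or_one j with h | h
    · rw [h]
      linarith [norm_nonneg (L 1)]
    · rw [h]
      linarith [norm_nonneg (L 0)]
  have e3 := norm_sub_norm_le (g j) (L (j % 2))
  have e4 : C' * (j : ℝ) ^ (-c) ≤ C' := by nlinarith
  linarith

/-- the start of the evolution -/
theorem start {q a0 b0 : ℕ} (hb : 1 ≤ b0) {c : ℝ} (hc : 0 < c) {g : ℕ → ℂ}
    (h : FunO2 c (f0Q q) g) : ∀ᶠ k : ℕ in atTop, ∀ τ : ℝ, |τ| ≤ 1 / 200 * Real.log k →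
      ‖fth q a0 b0 k 0 (I * τ) - g (k * a0 + k * b0)‖ ≤ (k : ℝ) ^ (-(c / 4)) * Real.exp (2 * |τ|) := by
  have ht : Tendsto (fun k : ℕ => k * a0 + k * b0) atTop atTop :=
    tendsto_atTop_mono (fun k => by nlinarith : ∀ k : ℕ, k ≤ k * a0 + k * b0) tendsto_id
  have hv := h.val 0 le_rfl Pool.Agent.PLX.σP_pos (c / 4) (by positivity)
  filter_upwards [ht.eventually hv, eventually_ge_atTop 2] with k hk hk2 τ hτ
  have hk2' : (2 : ℝ) ≤ k := by exact_mod_cast hk2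
  obtain ⟨j, hj⟩ : ∃ j, j = k * a0 + k * b0 := ⟨_, rfl⟩
  rw [fth_zero q a0 b0 k (re_I τ), ← hj]
  rw [← hj] at hk
  have hkj : k ≤ j := by
    rw [hj]
    nlinarith
  have hkj' : (k : ℝ) ≤ j := by exact_mod_cast hkj
  have hlk : 0 < Real.log k := Real.log_pos (by linarith)
  have hlj : Real.log k ≤ Real.log j := Real.log_le_log (by linarith) hkj'
  have h1 := hk (I * τ) (by
    have := PBV.aL_pos
    simpa using this.le) (by
      have : (I * (τ : ℂ)).im = τ := by simp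
      rw [this]
      linarith [abs_nonneg τ])
  have him : (I * (τ : ℂ)).im = τ := by simp
  rw [him] at h1
  refine h1.trans (mul_le_mul_of_nonneg_right ?_ (Real.exp_pos _).le)
  have h2 : |τ| / (1 / 100 * Real.log j) ≤ 1 / 2 := by
    rw [div_le_iff₀ (by linarith)]
    linarith
  have h3 : -(c * (1 - |τ| / (1 / 100 * Real.log j))) + c / 4 ≤ -(c / 4) := by nlinarith
  calc (j : ℝ) ^ (-(c * (1 - |τ| / (1 / 100 * Real.log j))) + c / 4) ≤ (j : ℝ) ^ (-(c / 4)) :=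
        Real.rpow_le_rpow_of_exponent_le (by linarith) h3
    _ ≤ (k : ℝ) ^ (-(c / 4)) := Real.rpow_le_rpow_of_nonpos (by linarith) hkj' (by linarith)

theorem fth_cont (q a0 b0 k : ℕ) (ha : 1 ≤ a0) (hb : 1 ≤ b0) {th τ : ℝ} (h : th ∈ Icc 0 l) :
    ContinuousAt (fun p : ℝ × ℝ => fth q a0 b0 k p.1 (I * p.2)) (th, τ) := by
  have hA : (0 : ℝ) < a0 := by exact_mod_cast ha
  have hB : (0 : ℝ) < b0 := by exact_mod_cast hb
  refine fS_tendsto q (F := 𝓝 (th, τ)) (z := fun p : ℝ × ℝ => I * (p.2 : ℂ))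
    (x := fun p : ℝ × ℝ => cth a0 b0 (k * a0) (k * b0) p.1) (z0 := I * τ) ?_ (fun i => ?_)
    (Ad_cth hA hB h _ _) (re_I τ)
  · exact (continuous_const.mul (continuous_ofReal.comp continuous_snd)).tendsto (th, τ)
  · have h1 : Tendsto (fun p : ℝ × ℝ => ((-pp a0 b0 p.1 : ℝ) : ℂ)) (𝓝 (th, τ)) (𝓝 ((-pp a0 b0 th : ℝ) : ℂ)) :=
      (continuous_ofReal.tendsto _).comp
        (((pp_deriv hA hB h).continuousAt.neg.tendsto).comp (continuous_fst.tendsto (th, τ)))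
    have h2 : Tendsto (fun p : ℝ × ℝ => ((qq a0 b0 p.1 : ℝ) : ℂ)) (𝓝 (th, τ)) (𝓝 ((qq a0 b0 th : ℝ) : ℂ)) :=
      (continuous_ofReal.tendsto _).comp
        (((qq_deriv hA hB h).continuousAt.tendsto).comp (continuous_fst.tendsto (th, τ)))
    unfold cth
    refine Fin.addCases (fun i => ?_) (fun i => ?_) i
    · simpa using h1
    · simpa using h2

/-- **the evolution** -/
theorem evoF {q a0 b0 : ℕ} (ha : 1 ≤ a0) (hb : 1 ≤ b0) {c0 c e0 : ℝ} (hc0 : 0 < c0) (hc : 0 < c) (he0 : 0 < e0)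
    {g : ℕ → ℂ} (hF : FunO2 c0 (f0Q q) g) (hW : WTH q a0 b0 c e0) (hU : U0T q a0 b0 e0) :
    ∃ c1 : ℝ, 0 < c1 ∧ ∃ e1 : ℝ, 0 < e1 ∧ ∃ C : ℝ, ∀ᶠ k : ℕ in atTop, ∀ th ∈ Icc 0 l, ∀ τ : ℝ,
      |τ| ≤ e1 * Real.log k → ‖fth q a0 b0 k th (I * τ) - g (k * a0 + k * b0)‖ ≤ C * (k : ℝ) ^ (-c1) := by
  have hl := lpos
  have hA : (0 : ℝ) < a0 := by exact_mod_cast ha
  have hB : (0 : ℝ) < b0 := by exact_mod_cast hb
  have hB1 : (1 : ℝ) ≤ b0 := by exact_mod_cast hb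
  obtain ⟨CW, hW⟩ := hW
  obtain ⟨CU, hU⟩ := hU
  obtain ⟨Cl, hCl, hg⟩ := g_bd hF hc0
  obtain ⟨c2, hc2⟩ : ∃ c2 : ℝ, c2 = min c (c0 / 4) := ⟨_, rfl⟩
  have hc2p : 0 < c2 := by
    rw [hc2]
    exact lt_min hc (by positivity)
  have hc2a : c2 ≤ c := by
    rw [hc2]
    exact min_le_left _ _
  have hc2b : c2 ≤ c0 / 4 := by
    rw [hc2]
    exact min_le_right _ _
  obtain ⟨A, hAe⟩ : ∃ A : ℝ, A = |CW| + 2 := ⟨_, rfl⟩
  have hAp : 0 < A := by
    rw [hAe]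
    positivity
  obtain ⟨e1, he1⟩ : ∃ e1 : ℝ, e1 = min (min e0 (1 / 200)) (c2 / (2 * A)) := ⟨_, rfl⟩
  have he1p : 0 < e1 := by
    rw [he1]
    exact lt_min (lt_min he0 (by norm_num)) (by positivity)
  have he1a : e1 ≤ e0 := by
    rw [he1]
    exact (min_le_left _ _).trans (min_le_left _ _)
  have he1b : e1 ≤ 1 / 200 := by
    rw [he1]
    exact (min_le_left _ _).trans (min_le_right _ _)
  have he1c : A * e1 ≤ c2 / 2 := by
    have : e1 ≤ c2 / (2 * A) := by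
      rw [he1]
      exact min_le_right _ _
    calc A * e1 ≤ A * (c2 / (2 * A)) := mul_le_mul_of_nonneg_left this hAp.le
      _ = c2 / 2 := by
          field_simp
  obtain ⟨CC, hCC⟩ : ∃ CC : ℝ, CC = max |CW| 1 := ⟨_, rfl⟩
  have hCC1 : 1 ≤ CC := by
    rw [hCC]
    exact le_max_right _ _
  have hCCW : |CW| ≤ CC := by
    rw [hCC]
    exact le_max_left _ _
  have ht : Tendsto (fun k : ℕ => k * a0 + k * b0) atTop atTop :=
    tendsto_atTop_mono (fun k => by nlinarith : ∀ k : ℕ, k ≤ k * a0 + k * b0) tendsto_id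
  refine ⟨c2 / 2, by positivity, e1 / 2, by positivity,
    CC * (1 + (l - 0)) + 2 * (CC + Cl) * Real.exp ((2 * (|CU| + A * e1 + c2 / 2) / e1) ^ 2 *
      ((Real.log (a0 + b0) - Real.log b0) / (4 * (8 / 3)))), ?_⟩
  filter_upwards [hW, hU, start (a0 := a0) hb hc0 hF, ht.eventually hg, eventually_ge_atTop 2] with k w u s hgk hk2
  have hk2' : (2 : ℝ) ≤ k := by exact_mod_cast hk2
  have hk1 : (1 : ℝ) < k := by linarith
  have hlk : 0 < Real.log k := Real.log_pos hk1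
  have hkp : ∀ {x y : ℝ}, x ≤ y → (k : ℝ) ^ x ≤ (k : ℝ) ^ y := fun h =>
    Real.rpow_le_rpow_of_exponent_le hk1.le h
  have hkpos : ∀ x : ℝ, 0 < (k : ℝ) ^ x := fun x => Real.rpow_pos_of_pos (by linarith) x
  obtain ⟨b, hb1⟩ : ∃ b : ℕ, b + 1 = k * b0 := ⟨k * b0 - 1, by
    have : 1 ≤ k * b0 := Nat.one_le_iff_ne_zero.2 (Nat.mul_ne_zero (by omega) (by omega))
    omega⟩
  have hbk : ((b + 1 : ℕ) : ℂ) = ((k * b0 : ℝ) : ℂ) := by
    rw [hb1]
    push_cast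
    ring
  -- the error
  set E : ℝ → ℂ → ℂ := fun th z => ((b0 / VV a0 b0 th : ℝ) : ℂ) *
    (((k * VV a0 b0 th : ℝ) : ℂ) * Dq q (k * a0) b ((-pp a0 b0 th : ℝ) : ℂ) ((qq a0 b0 th : ℝ) : ℂ) z +
      (1 / 4 * Real.sin (8 / 3 * qq a0 b0 th) : ℝ) * deriv (deriv (fth q a0 b0 k th)) z +
      (Real.cos (8 / 3 * qq a0 b0 th) : ℝ) * deriv (fth q a0 b0 k th) z) with hE
  have habs : ∀ {τ : ℝ}, τ ∈ Icc (-(e1 * Real.log k)) (e1 * Real.log k) → |τ| ≤ e1 * Real.log k :=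
    fun h => abs_le.2 h
  have habs' : ∀ {τ : ℝ}, τ ∈ Ioo (-(e1 * Real.log k)) (e1 * Real.log k) → |τ| ≤ e1 * Real.log k :=
    fun h => abs_le.2 ⟨h.1.le, h.2.le⟩
  have hle0 : e1 * Real.log k ≤ e0 * Real.log k := mul_le_mul_of_nonneg_right he1a hlk.le
  have hle2 : e1 * Real.log k ≤ 1 / 200 * Real.log k := mul_le_mul_of_nonneg_right he1b hlk.le
  have hdiff : ∀ th ∈ Icc 0 l, DifferentiableOn ℂ (fth q a0 b0 k th) {z | |z.re| < 3 * l} := fun th h =>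
    fS_diff q (Ad_cth hA hB h _ _)
  have key := PLT.Evo.evoV (a := 0) (b := l) (N := (k : ℝ)) (c := c2) (ep := |CU|) (A := A) (e1 := e1) (C := CC)
    (L := g (k * a0 + k * b0)) (Cl := Cl) (w := 8 / 3) (v0 := b0) (v1 := a0 + b0) hl.le hk1 hc2p.le
    (abs_nonneg _) hAp.le he1p he1c (by linarith) hgk (by norm_num) (V := VV a0 b0) (V' := VV' a0 b0) hB
    (fun th h => VV_low hA hB h) (VV_zero hA hB).le (fun th h => (VV_deriv hA hB h).hasDerivWithinAt)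
    (fun th h => VV'_nonpos hA hB h) (f := fth q a0 b0 k) (f1 := fun th => deriv (fth q a0 b0 k th))
    (f2 := fun th => deriv (deriv (fth q a0 b0 k th))) (E := E) ?_ ?_ ?_ ?_ ?_ ?_ ?_
  · intro th h τ hτ
    exact key th h τ (by linarith)
  · intro p hp
    exact (fth_cont q a0 b0 k ha hb (th := p.1) (τ := p.2) hp.1).continuousWithinAt
  · intro th h τ _
    exact ((hdiff th ⟨h.1.le, h.2⟩).differentiableAt (isOpen_st.mem_nhds (re_I τ))).hasDerivAt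
  · intro th h τ _
    exact (((hdiff th ⟨h.1.le, h.2⟩).deriv isOpen_st).differentiableAt (isOpen_st.mem_nhds (re_I τ))).hasDerivAt
  · intro th h τ _
    have hth : th ∈ Icc 0 l := ⟨h.1.le, h.2⟩
    have hv := VV_pos hA hB hth
    have h1 := path_deriv q (k * a0) b hA hB hth (re_I τ)
    rw [hb1] at h1
    refine (h1.congr_deriv ?_).hasDerivWithinAt
    rw [kap_eq hA hB hth]
    simp only [hE]
    have hfe : fS q (cth a0 b0 (k * a0) (k * b0) th) = fth q a0 b0 k th := rfl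
    rw [hfe]
    have hvc : ((VV a0 b0 th : ℝ) : ℂ) ≠ 0 := ofReal_ne_zero.2 hv.ne'
    push_cast
    generalize Dq q (k * a0) b _ _ _ = D
    generalize deriv (deriv (fth q a0 b0 k th)) (I * (τ : ℂ)) = f2
    generalize deriv (fth q a0 b0 k th) (I * (τ : ℂ)) = f1
    generalize (VV a0 b0 th : ℝ) = v at *
    generalize Complex.sin (8 / 3 * (qq (a0 : ℝ) (b0 : ℝ) th : ℂ)) = s
    generalize Complex.cos (8 / 3 * (qq (a0 : ℝ) (b0 : ℝ) th : ℂ)) = co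
    field_simp
    ring
  · intro th h τ hτ
    have hth : th ∈ Icc 0 l := ⟨h.1.le, h.2⟩
    have hv := VV_pos hA hB hth
    have h1 := w th h τ ((habs' hτ).trans hle0) b hb1
    have h2 : ‖((b0 / VV a0 b0 th : ℝ) : ℂ)‖ ≤ 1 := by
      rw [norm_real, Real.norm_eq_abs, abs_of_pos (by positivity), div_le_one hv]
      exact VV_low hA hB hth
    have e1 : CW * (k : ℝ) ^ (-c) * Real.exp (CW * |τ|) ≤ CC * (k : ℝ) ^ (-c2) * Real.exp (A * |τ|) := by
      have a1 : CW ≤ CC := (le_abs_self _).trans hCCW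
      have a2 : Real.exp (CW * |τ|) ≤ Real.exp (A * |τ|) := by
        refine Real.exp_le_exp.2 (mul_le_mul_of_nonneg_right ?_ (abs_nonneg _))
        rw [hAe]
        linarith [le_abs_self CW]
      have a3 : (k : ℝ) ^ (-c) ≤ (k : ℝ) ^ (-c2) := hkp (by linarith)
      calc CW * (k : ℝ) ^ (-c) * Real.exp (CW * |τ|) ≤ CC * (k : ℝ) ^ (-c) * Real.exp (CW * |τ|) :=
            mul_le_mul_of_nonneg_right (mul_le_mul_of_nonneg_right a1 (hkpos _).le) (Real.exp_pos _).le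
        _ ≤ CC * (k : ℝ) ^ (-c2) * Real.exp (CW * |τ|) :=
            mul_le_mul_of_nonneg_right (mul_le_mul_of_nonneg_left a3 (by linarith)) (Real.exp_pos _).le
        _ ≤ CC * (k : ℝ) ^ (-c2) * Real.exp (A * |τ|) :=
            mul_le_mul_of_nonneg_left a2 (mul_nonneg (by linarith) (hkpos _).le)
    simp only [hE]
    rw [norm_mul]
    calc _ ≤ 1 * (CW * (k : ℝ) ^ (-c) * Real.exp (CW * |τ|)) := mul_le_mul h2 h1 (norm_nonneg _) zero_le_one
      _ ≤ _ := by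
          rw [one_mul]
          exact e1
  · intro th h τ hτ
    have h1 := u th h τ ((habs hτ).trans hle0)
    have h2 : (k : ℝ) ^ CU ≤ (k : ℝ) ^ |CU| := hkp (le_abs_self _)
    have h3 : 1 ≤ Real.exp (A * |τ|) := Real.one_le_exp (by positivity)
    calc ‖fth q a0 b0 k th (I * τ)‖ ≤ 1 * (k : ℝ) ^ |CU| * 1 := by
          rw [one_mul, mul_one]
          exact h1.trans h2
      _ ≤ CC * (k : ℝ) ^ |CU| * Real.exp (A * |τ|) :=
          mul_le_mul (mul_le_mul_of_nonneg_right hCC1 (hkpos _).le) h3 zero_le_one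
            (mul_nonneg (by linarith) (hkpos _).le)
  · intro τ hτ
    have h1 := s τ ((habs hτ).trans hle2)
    have h2 : (k : ℝ) ^ (-(c0 / 4)) ≤ (k : ℝ) ^ (-c2) := hkp (by linarith)
    have h3 : Real.exp (2 * |τ|) ≤ Real.exp (A * |τ|) := by
      refine Real.exp_le_exp.2 (mul_le_mul_of_nonneg_right ?_ (abs_nonneg _))
      rw [hAe]
      linarith [abs_nonneg CW]
    calc ‖fth q a0 b0 k 0 (I * τ) - g (k * a0 + k * b0)‖ ≤ (k : ℝ) ^ (-(c0 / 4)) * Real.exp (2 * |τ|) := h1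
      _ ≤ (k : ℝ) ^ (-c2) * Real.exp (A * |τ|) := mul_le_mul h2 h3 (Real.exp_pos _).le (hkpos _).le
      _ ≤ CC * (k : ℝ) ^ (-c2) * Real.exp (A * |τ|) := by
          refine mul_le_mul_of_nonneg_right ?_ (Real.exp_pos _).le
          nlinarith [hkpos (-c2)]

end PLT.FS

end
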