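import Pool.Agent.PLT.EvoF
import Pool.Agent.PB.Two

/-!
# The value of the dislocated function at the content of a direction (helper17)

* `UBT q a0 b0` : the sharp upper bound along the path, `-17/20 l ≤ Re z ≤ l / 5`;
* `VAL q a0 b0 g` : the value at the content of the direction, `-3/4 l ≤ Re z ≤ 0`, legs up to `e2 log k`;
* **`valF`** : `FunO2` on the first axis, `WTH`, `UBT` give `VAL`.
-/

set_option autoImplicit false
set_option linter.unusedSectionVars false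

noncomputable section

open Complex Filter Topology Set

namespace PLT.FS

open NUP1 (l lpos)
open Pool.Agent.PLX (f0Q fQ FunO2)
open PLT.Pa

/-- the upper bound along the path of contents -/
def UBT (q a0 b0 : ℕ) : Prop := ∀ ε : ℝ, 0 < ε → ∀ᶠ k : ℕ in atTop, ∀ th ∈ Icc 0 l, ∀ z : ℂ,
  -(17 / 20 * l) ≤ z.re → z.re ≤ 1 / 5 * l → |z.im| ≤ 9 / 80 * Real.log k + 1 →
  ‖fth q a0 b0 k th z‖ ≤ (k : ℝ) ^ ε * Real.exp (2 * |z.im|)

/-- the value at the content of the direction -/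
def VAL (q a0 b0 : ℕ) (g : ℕ → ℂ) : Prop := ∃ c2 : ℝ, 0 < c2 ∧ ∃ e2 : ℝ, 0 < e2 ∧ ∃ C : ℝ, ∀ᶠ k : ℕ in atTop,
  ∀ z : ℂ, -(3 / 4 * l) ≤ z.re → z.re ≤ 0 → |z.im| ≤ e2 * Real.log k →
  ‖fth q a0 b0 k l z - g (k * a0 + k * b0)‖ ≤ C * (k : ℝ) ^ (-c2)

theorem exp_log_mul {k x : ℝ} (hk : 0 < k) : Real.exp (x * Real.log k) = k ^ x := by
  rw [Real.rpow_def_of_pos hk, mul_comm]

theorem UBT.u0 {q a0 b0 : ℕ} (h : UBT q a0 b0) {e0 : ℝ} (h1 : e0 ≤ 9 / 80) : U0T q a0 b0 e0 := by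
  have hl := lpos
  refine ⟨1 + 2 * (9 / 80), ?_⟩
  filter_upwards [h 1 one_pos, eventually_ge_atTop 1] with k hk hk1 th hth τ hτ
  have hk1' : (1 : ℝ) ≤ k := by exact_mod_cast hk1
  have hlk : 0 ≤ Real.log k := Real.log_nonneg hk1'
  have him : (I * (τ : ℂ)).im = τ := by simp
  have hre : (I * (τ : ℂ)).re = 0 := by simp
  have h2 : |τ| ≤ 9 / 80 * Real.log k := hτ.trans (mul_le_mul_of_nonneg_right h1 hlk)
  have h3 := hk th hth (I * τ) (by rw [hre]; linarith) (by rw [hre]; positivity) (by rw [him]; linarith)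
  rw [him] at h3
  refine h3.trans ?_
  rw [Real.rpow_add (by linarith)]
  refine mul_le_mul_of_nonneg_left ?_ (by positivity)
  rw [← exp_log_mul (by linarith : (0 : ℝ) < k)]
  exact Real.exp_le_exp.2 (by linarith)

/-- two constants, mirrored, with the numbers of the application -/
theorem two_left {f : ℂ → ℂ} {δ M h : ℝ} (hh : 0 < h) (hδ : 0 < δ) (hδM : δ ≤ M)
    (hf : DifferentiableOn ℂ f {z | |z.re| < 3 * l})
    (h0 : ∀ τ : ℝ, |τ| ≤ h → ‖f (I * τ)‖ ≤ δ)
    (hM : ∀ z : ℂ, -(17 / 20 * l) ≤ z.re → z.re ≤ 0 → |z.im| ≤ h → ‖f z‖ ≤ M)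
    (hhh : 2 * Real.exp (-h / 2) * 2 ≤ 1 / 17) {z : ℂ}
    (z1 : -(3 / 4 * l) ≤ z.re) (z2 : z.re ≤ 0) (z3 : |z.im| ≤ h / 2) :
    ‖f z‖ ≤ δ * (M / δ) ^ (16 / 17 : ℝ) := by
  have hl := lpos
  have hl1 : l < 1 / 2 := by
    unfold NUP1.l
    linarith [Real.pi_lt_d2]
  have hMδ : 1 ≤ M / δ := (one_le_div hδ).2 hδM
  have hw : (1 : ℝ) * (17 / 20 * l - 0) < Real.pi := by linarith [Real.pi_gt_three]
  have hd : DiffContOnCl ℂ (fun w => f (-w)) (PBT.Rect 0 (17 / 20 * l) 0 h) := by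
    have hs : closure (PBT.Rect 0 (17 / 20 * l) 0 h) ⊆ {w : ℂ | |w.re| < 3 * l} := by
      intro w hw
      have := PBT.closure_Rect_subset _ _ _ _ hw
      show |w.re| < 3 * l
      rw [abs_of_nonneg this.1.1]
      linarith [this.1.2]
    have hd2 : DifferentiableOn ℂ (fun w => f (-w)) {w : ℂ | |w.re| < 3 * l} := by
      refine hf.comp (differentiable_neg.differentiableOn) fun w hw => ?_
      show |(-w).re| < 3 * l
      rw [neg_re, abs_neg]
      exact hw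
    exact (hd2.mono hs).diffContOnCl
  have key := PBT.rect_one_side (f := fun w => f (-w)) (a := 0) (b := 17 / 20 * l) (y₀ := 0) (h := h) (α := 1)
    (δ := δ) (M := M) (by positivity) hh one_pos hw hδ hδM hd ?_ ?_ (z := -z) ?_
  · rw [neg_neg] at key
    refine key.trans (mul_le_mul_of_nonneg_left (Real.rpow_le_rpow_of_exponent_le hMδ ?_) hδ.le)
    simp only [neg_re, neg_im, sub_zero, one_mul]
    have e1 : -z.re / (17 / 20 * l) ≤ 15 / 17 := by
      rw [div_le_iff₀ (by positivity)]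
      linarith
    have e2 : Real.cos (-z.re - (0 + 17 / 20 * l) / 2) * Real.cosh (-z.im) /
        (Real.cos (17 / 20 * l / 2) * Real.cosh h) ≤ 1 / 17 := by
      have c0 : (1 : ℝ) / 2 ≤ Real.cos (17 / 20 * l / 2) := by
        have := Real.one_sub_sq_div_two_le_cos (x := 17 / 20 * l / 2)
        nlinarith
      have c1 : Real.cosh (-z.im) ≤ Real.exp (h / 2) := by
        rw [Real.cosh_neg, ← Real.cosh_abs]
        have c8 : Real.cosh (h / 2) ≤ Real.exp (h / 2) := by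
          rw [Real.cosh_eq]
          have := Real.exp_le_exp.2 (show -(h / 2) ≤ h / 2 by linarith)
          linarith
        refine (Real.cosh_le_cosh.2 ?_).trans c8
        rw [abs_abs, abs_of_pos (by positivity : 0 < h / 2)]
        exact z3
      have c2 : Real.exp h / 2 ≤ Real.cosh h := by
        rw [Real.cosh_eq]
        linarith [Real.exp_pos (-h)]
      have c3 : Real.cos (-z.re - (0 + 17 / 20 * l) / 2) ≤ 1 := Real.cos_le_one _
      have c4 : 0 < Real.cosh (-z.im) := Real.cosh_pos _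
      have c5 : 0 < Real.exp h := Real.exp_pos _
      have c6 : 0 < Real.cos (17 / 20 * l / 2) * Real.cosh h := mul_pos (by linarith) (Real.cosh_pos _)
      rw [div_le_iff₀ c6]
      have c7 : Real.exp (-h / 2) * Real.exp h = Real.exp (h / 2) := by
        rw [← Real.exp_add]
        congr 1
        ring
      calc Real.cos (-z.re - (0 + 17 / 20 * l) / 2) * Real.cosh (-z.im) ≤ 1 * Real.exp (h / 2) :=
            mul_le_mul c3 c1 c4.le zero_le_one
        _ = Real.exp (-h / 2) * Real.exp h := by rw [one_mul, c7]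
        _ ≤ (1 / 17 / 4) * Real.exp h := mul_le_mul_of_nonneg_right (by linarith) c5.le
        _ ≤ 1 / 17 * (1 / 2 * (Real.exp h / 2)) := by linarith
        _ ≤ 1 / 17 * (Real.cos (17 / 20 * l / 2) * Real.cosh h) := by
            refine mul_le_mul_of_nonneg_left ?_ (by norm_num)
            exact mul_le_mul c0 c2 (by positivity) (by linarith)
    linarith
  · intro w hw1 hw2
    have e : -w = I * ((-w.im : ℝ) : ℂ) := by
      apply Complex.ext
      · simp [hw1]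
      · simp
    rw [e]
    exact h0 _ (by rw [abs_neg]; simpa using hw2)
  · intro w hw1 hw2
    exact hM (-w) (by rw [neg_re]; linarith [hw1.2]) (by rw [neg_re]; linarith [hw1.1])
      (by rw [neg_im, abs_neg]; simpa using hw2)
  · refine ⟨⟨?_, ?_⟩, ?_⟩
    · rw [neg_re]
      linarith
    · rw [neg_re]
      linarith
    · rw [neg_im, sub_zero, abs_neg]
      linarith

/-- **the value at the content of the direction** -/
theorem valF {q a0 b0 : ℕ} (ha : 1 ≤ a0) (hb : 1 ≤ b0) {c0 c e0 : ℝ} (hc0 : 0 < c0) (hc : 0 < c) (he0 : 0 < e0)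
    {g : ℕ → ℂ} (hF : FunO2 c0 (f0Q q) g) (hW : WTH q a0 b0 c e0) (hU : UBT q a0 b0) : VAL q a0 b0 g := by
  have hl := lpos
  have hA : (0 : ℝ) < a0 := by exact_mod_cast ha
  have hB : (0 : ℝ) < b0 := by exact_mod_cast hb
  obtain ⟨e0', he0'⟩ : ∃ e0' : ℝ, e0' = min e0 (9 / 80) := ⟨_, rfl⟩
  have p1 : 0 < e0' := by
    rw [he0']
    exact lt_min he0 (by norm_num)
  have p2 : e0' ≤ e0 := by
    rw [he0']
    exact min_le_left _ _
  have p3 : e0' ≤ 9 / 80 := by
    rw [he0']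
    exact min_le_right _ _
  have hW' : WTH q a0 b0 c e0' := by
    obtain ⟨C, hC⟩ := hW
    refine ⟨C, ?_⟩
    filter_upwards [hC, eventually_ge_atTop 1] with k hk hk1 th hth τ hτ b hb
    have hk1' : (1 : ℝ) ≤ k := by exact_mod_cast hk1
    exact hk th hth τ (hτ.trans (mul_le_mul_of_nonneg_right p2 (Real.log_nonneg hk1'))) b hb
  obtain ⟨c1, hc1, e1, he1, C, hev⟩ := evoF ha hb hc0 hc p1 hF hW' (hU.u0 p3)
  obtain ⟨Cl, hCl, hg⟩ := g_bd hF hc0
  have ht : Tendsto (fun k : ℕ => k * a0 + k * b0) atTop atTop :=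
    tendsto_atTop_mono (fun k => by nlinarith : ∀ k : ℕ, k ≤ k * a0 + k * b0) tendsto_id
  -- the height
  obtain ⟨e3, he3⟩ : ∃ e3 : ℝ, e3 = min (min e1 (9 / 80)) (c1 / 200) := ⟨_, rfl⟩
  have r1 : 0 < e3 := by
    rw [he3]
    exact lt_min (lt_min he1 (by norm_num)) (by positivity)
  have r2 : e3 ≤ e1 := by
    rw [he3]
    exact (min_le_left _ _).trans (min_le_left _ _)
  have r3 : e3 ≤ 9 / 80 := by
    rw [he3]
    exact (min_le_left _ _).trans (min_le_right _ _)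
  have r4 : e3 ≤ c1 / 200 := by
    rw [he3]
    exact min_le_right _ _
  obtain ⟨C1, hC1⟩ : ∃ C1 : ℝ, C1 = max |C| 1 := ⟨_, rfl⟩
  have hC11 : 1 ≤ C1 := by
    rw [hC1]
    exact le_max_right _ _
  have hCC1 : C ≤ C1 := by
    rw [hC1]
    exact (le_abs_self C).trans (le_max_left _ _)
  obtain ⟨D, hD⟩ : ∃ D : ℝ, D = 1 + Cl + C1 := ⟨_, rfl⟩
  have hlog : Tendsto (fun k : ℕ => e3 * Real.log k) atTop atTop :=
    (Real.tendsto_log_atTop.comp tendsto_natCast_atTop_atTop).const_mul_atTop r1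
  have hsm : ∀ᶠ k : ℕ in atTop, 2 * Real.exp (-(e3 * Real.log k) / 2) * 2 ≤ 1 / 17 := by
    have h1 : Tendsto (fun k : ℕ => 2 * Real.exp (-(e3 * Real.log k) / 2) * 2) atTop (𝓝 (2 * 0 * 2)) := by
      refine ((Real.tendsto_exp_atBot.comp ?_).const_mul 2).mul_const 2
      have h2 : Tendsto (fun k : ℕ => -(e3 * Real.log k) / 2) atTop atBot := by
        have := (tendsto_neg_atTop_atBot.comp hlog).atBot_div_const (show (0 : ℝ) < 2 by norm_num)
        exact this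
      exact h2
    rw [mul_zero, zero_mul] at h1
    exact h1.eventually (Iic_mem_nhds (by norm_num))
  refine ⟨c1 / 34, by positivity, e3 / 2, by positivity, D, ?_⟩
  filter_upwards [hev, hU (c1 / 200) (by positivity), ht.eventually hg, hsm, eventually_ge_atTop 2]
    with k h1 h2 h3 h4 hk2 z z1 z2 z3
  have hk2' : (2 : ℝ) ≤ k := by exact_mod_cast hk2
  have hk1 : (1 : ℝ) < k := by linarith
  have hk0 : (0 : ℝ) < k := by linarith
  have hlk : 0 < Real.log k := Real.log_pos hk1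
  have hkpos : ∀ x : ℝ, 0 < (k : ℝ) ^ x := fun x => Real.rpow_pos_of_pos hk0 x
  have hkp : ∀ {x y : ℝ}, x ≤ y → (k : ℝ) ^ x ≤ (k : ℝ) ^ y := fun h =>
    Real.rpow_le_rpow_of_exponent_le hk1.le h
  have hth : l ∈ Icc (0 : ℝ) l := ⟨hl.le, le_rfl⟩
  obtain ⟨G, hG⟩ : ∃ G, G = g (k * a0 + k * b0) := ⟨_, rfl⟩
  rw [← hG] at h3
  set δ : ℝ := C1 * (k : ℝ) ^ (-c1) with hδ
  set M : ℝ := D * (k : ℝ) ^ (c1 / 200 + 2 * e3) with hM
  have hδ0 : 0 < δ := mul_pos (by linarith) (hkpos _)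
  have hDC : C1 ≤ D := by
    rw [hD]
    linarith
  have hδM : δ ≤ M := mul_le_mul hDC (hkp (by linarith)) (hkpos _).le (by linarith)
  have hone : 1 ≤ (k : ℝ) ^ (c1 / 200 + 2 * e3) := Real.one_le_rpow hk1.le (by positivity)
  have key := two_left (f := fun z => fth q a0 b0 k l z - G) (h := e3 * Real.log k) (δ := δ) (M := M)
    (mul_pos r1 hlk) hδ0 hδM ((fS_diff q (Ad_cth hA hB hth _ _)).sub_const _) ?_ ?_ h4 z1 z2 (by linarith)
  · rw [← hG]
    refine key.trans ?_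
    have e1 : δ * (M / δ) ^ (16 / 17 : ℝ) = δ ^ (1 / 17 : ℝ) * M ^ (16 / 17 : ℝ) := by
      rw [Real.div_rpow (hδ0.le.trans hδM) hδ0.le]
      have : δ = δ ^ (1 / 17 : ℝ) * δ ^ (16 / 17 : ℝ) := by
        rw [← Real.rpow_add hδ0]
        norm_num
      have h5 : 0 < δ ^ (16 / 17 : ℝ) := Real.rpow_pos_of_pos hδ0 _
      calc δ * (M ^ (16 / 17 : ℝ) / δ ^ (16 / 17 : ℝ)) =
            (δ ^ (1 / 17 : ℝ) * δ ^ (16 / 17 : ℝ)) * (M ^ (16 / 17 : ℝ) / δ ^ (16 / 17 : ℝ)) := by rw [← this]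
        _ = _ := by field_simp
    have hD1 : 1 ≤ D := hC11.trans hDC
    have e2 : δ ^ (1 / 17 : ℝ) ≤ D ^ (1 / 17 : ℝ) * (k : ℝ) ^ (-(c1 / 17)) := by
      rw [hδ, Real.mul_rpow (by linarith) (hkpos _).le, ← Real.rpow_mul hk0.le]
      refine mul_le_mul (Real.rpow_le_rpow (by linarith) hDC (by norm_num)) (le_of_eq ?_) (hkpos _).le (by positivity)
      congr 1
      ring
    have e3' : M ^ (16 / 17 : ℝ) ≤ D ^ (16 / 17 : ℝ) * (k : ℝ) ^ (c1 / 34) := by
      rw [hM, Real.mul_rpow (by linarith) (hkpos _).le, ← Real.rpow_mul hk0.le]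
      refine mul_le_mul_of_nonneg_left (hkp ?_) (by positivity)
      nlinarith
    rw [e1]
    calc δ ^ (1 / 17 : ℝ) * M ^ (16 / 17 : ℝ) ≤
          (D ^ (1 / 17 : ℝ) * (k : ℝ) ^ (-(c1 / 17))) * (D ^ (16 / 17 : ℝ) * (k : ℝ) ^ (c1 / 34)) :=
          mul_le_mul e2 e3' (Real.rpow_nonneg (hδ0.le.trans hδM) _)
            (mul_nonneg (Real.rpow_nonneg (by linarith) _) (hkpos _).le)
      _ = (D ^ (1 / 17 : ℝ) * D ^ (16 / 17 : ℝ)) * ((k : ℝ) ^ (-(c1 / 17)) * (k : ℝ) ^ (c1 / 34)) := by ring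
      _ = D * (k : ℝ) ^ (-(c1 / 34)) := by
          rw [← Real.rpow_add (by linarith), ← Real.rpow_add hk0]
          congr 1
          · norm_num
          · congr 1
            ring
  · intro τ hτ
    have h5 := h1 l hth τ (hτ.trans (mul_le_mul_of_nonneg_right r2 hlk.le))
    rw [← hG] at h5
    exact h5.trans (mul_le_mul_of_nonneg_right hCC1 (hkpos _).le)
  · intro w w1 w2 w3
    have h5 := h2 l hth w w1 (by linarith) (by
      have := mul_le_mul_of_nonneg_right r3 hlk.le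
      linarith)
    have h6 : Real.exp (2 * |w.im|) ≤ (k : ℝ) ^ (2 * e3) := by
      rw [← exp_log_mul hk0]
      exact Real.exp_le_exp.2 (by linarith)
    calc ‖fth q a0 b0 k l w - G‖ ≤ ‖fth q a0 b0 k l w‖ + ‖G‖ := norm_sub_le _ _
      _ ≤ (k : ℝ) ^ (c1 / 200) * (k : ℝ) ^ (2 * e3) + Cl :=
          add_le_add (h5.trans (mul_le_mul_of_nonneg_left h6 (hkpos _).le)) h3
      _ = (k : ℝ) ^ (c1 / 200 + 2 * e3) + Cl := by rw [← Real.rpow_add hk0]
      _ ≤ M := by
          rw [hM, hD]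
          nlinarith

end PLT.FS

end
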