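import Pool.Agent.PLT.ContE
import Pool.Agent.PLT.ValT

/-!
# The value at small real separation (helper17)

* `evoX` : the evolution on `[0, x1]` from the defect on `[0, x1]`;
* `two_side` : two constants, one side;
* `VALX q a0 b0 g x1` : `‖fz q a0 b0 k th z - g (k a0 + k b0)‖ ≤ C k ^ (-c)`, `th ∈ [0, x1]`,
  `-3/10 l ≤ Re z ≤ 3/20 l`, `|Im z| ≤ e log k`;
* **`valX`** : from `FunO2` on the first axis, `WIM`, `UBD` : `VALX .. (d1 / 8)`.
-/

set_option autoImplicit false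
set_option linter.unusedSectionVars false

noncomputable section

open Complex Filter Topology Set Metric

namespace PLT.FS

open NUP1 (l lpos)
open Pool.Agent.PLX (f0Q fQ FunO2)
open PBH (Hol2)
open PLT.Pa

theorem fz_real {q a0 b0 k : ℕ} (ha : 1 ≤ a0) (hb : 1 ≤ b0) {th : ℝ} (h : th ∈ Icc 0 l) (z : ℂ) :
    fz q a0 b0 k (th : ℂ) z = fth q a0 b0 k th z := by
  have hA : (0 : ℝ) < a0 := by exact_mod_cast ha
  have hB : (0 : ℝ) < b0 := by exact_mod_cast hb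
  unfold fz Fz fth cz cth
  rw [pz_real hA hB h, qz_real hA hB h, ofReal_neg]

/-- **the evolution on `[0, x1]`** -/
theorem evoX {q a0 b0 : ℕ} (ha : 1 ≤ a0) (hb : 1 ≤ b0) {c0 c e0 x1 : ℝ} (hc0 : 0 < c0) (hc : 0 < c) (he0 : 0 < e0)
    (hx1 : 0 < x1) (hx1' : x1 ≤ l) {g : ℕ → ℂ} (hF : FunO2 c0 (f0Q q) g)
    (hW : ∃ C : ℝ, 0 < C ∧ ∀ᶠ k : ℕ in atTop, ∀ th ∈ Icc 0 x1, ∀ τ : ℝ, |τ| ≤ e0 * Real.log k →
      ‖Ez q a0 b0 (k * a0) (k * b0) (th : ℂ) (I * τ)‖ ≤ C * (k : ℝ) ^ (-c))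
    (hU : ∃ C : ℝ, ∀ᶠ k : ℕ in atTop, ∀ th ∈ Icc 0 x1, ∀ τ : ℝ, |τ| ≤ e0 * Real.log k →
      ‖fz q a0 b0 k (th : ℂ) (I * τ)‖ ≤ (k : ℝ) ^ C) :
    ∃ c1 : ℝ, 0 < c1 ∧ ∃ e1 : ℝ, 0 < e1 ∧ ∃ C : ℝ, ∀ᶠ k : ℕ in atTop, ∀ th ∈ Icc 0 x1, ∀ τ : ℝ,
      |τ| ≤ e1 * Real.log k → ‖fz q a0 b0 k (th : ℂ) (I * τ) - g (k * a0 + k * b0)‖ ≤ C * (k : ℝ) ^ (-c1) := by
  have hl := lpos
  have hA : (0 : ℝ) < a0 := by exact_mod_cast ha
  have hB : (0 : ℝ) < b0 := by exact_mod_cast hb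
  obtain ⟨CW, hCW, hW⟩ := hW
  obtain ⟨CU, hU⟩ := hU
  obtain ⟨Cl, hCl, hg⟩ := g_bd hF hc0
  obtain ⟨c2, hc2⟩ : ∃ c2 : ℝ, c2 = min c (c0 / 4) := ⟨_, rfl⟩
  have hc2p : 0 < c2 := by
    rw [hc2]
    exact lt_min hc (by positivity)
  have hc2a : c2 ≤ c := by
    rw [hc2]
    exact min_le_left _ _
  have hc2b : c2 ≤ c0 / 4 := by
    rw [hc2]
    exact min_le_right _ _
  obtain ⟨e1, he1⟩ : ∃ e1 : ℝ, e1 = min (min e0 (1 / 200)) (c2 / 4) := ⟨_, rfl⟩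
  have he1p : 0 < e1 := by
    rw [he1]
    exact lt_min (lt_min he0 (by norm_num)) (by positivity)
  have he1a : e1 ≤ e0 := by
    rw [he1]
    exact (min_le_left _ _).trans (min_le_left _ _)
  have he1b : e1 ≤ 1 / 200 := by
    rw [he1]
    exact (min_le_left _ _).trans (min_le_right _ _)
  have he1c : 2 * e1 ≤ c2 / 2 := by
    have : e1 ≤ c2 / 4 := by
      rw [he1]
      exact min_le_right _ _
    linarith
  obtain ⟨CC, hCC⟩ : ∃ CC : ℝ, CC = max CW 1 := ⟨_, rfl⟩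
  have hCC1 : 1 ≤ CC := by
    rw [hCC]
    exact le_max_right _ _
  have hCCW : CW ≤ CC := by
    rw [hCC]
    exact le_max_left _ _
  have ht : Tendsto (fun k : ℕ => k * a0 + k * b0) atTop atTop :=
    tendsto_atTop_mono (fun k => by nlinarith : ∀ k : ℕ, k ≤ k * a0 + k * b0) tendsto_id
  refine ⟨c2 / 2, by positivity, e1 / 2, by positivity,
    CC * (1 + (x1 - 0)) + 2 * (CC + Cl) * Real.exp ((2 * (|CU| + 2 * e1 + c2 / 2) / e1) ^ 2 *
      ((Real.log (a0 + b0) - Real.log b0) / (4 * (8 / 3)))), ?_⟩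
  filter_upwards [hW, hU, start (a0 := a0) hb hc0 hF, ht.eventually hg, eventually_ge_atTop 2] with k w u s hgk hk2
  have hk2' : (2 : ℝ) ≤ k := by exact_mod_cast hk2
  have hk1 : (1 : ℝ) < k := by linarith
  have hlk : 0 < Real.log k := Real.log_pos hk1
  have hkp : ∀ {x y : ℝ}, x ≤ y → (k : ℝ) ^ x ≤ (k : ℝ) ^ y := fun h =>
    Real.rpow_le_rpow_of_exponent_le hk1.le h
  have hkpos : ∀ x : ℝ, 0 < (k : ℝ) ^ x := fun x => Real.rpow_pos_of_pos (by linarith) x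
  have habs : ∀ {τ : ℝ}, τ ∈ Icc (-(e1 * Real.log k)) (e1 * Real.log k) → |τ| ≤ e1 * Real.log k :=
    fun h => abs_le.2 h
  have habs' : ∀ {τ : ℝ}, τ ∈ Ioo (-(e1 * Real.log k)) (e1 * Real.log k) → |τ| ≤ e1 * Real.log k :=
    fun h => abs_le.2 ⟨h.1.le, h.2.le⟩
  have hle0 : e1 * Real.log k ≤ e0 * Real.log k := mul_le_mul_of_nonneg_right he1a hlk.le
  have hle2 : e1 * Real.log k ≤ 1 / 200 * Real.log k := mul_le_mul_of_nonneg_right he1b hlk.le
  have hl20 : (0 : ℝ) < 1 / 20 := by norm_num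
  have hsub : ∀ {th : ℝ}, th ∈ Icc 0 x1 → th ∈ Icc 0 l := fun h => ⟨h.1, h.2.trans hx1'⟩
  have hWo := WZ_open (1 / 20)
  have H : Hol2 (WZ (1 / 20)) (fz q a0 b0 k) := Fz_Hol2 (q := q) hA hB le_rfl (k * a0) (k * b0)
  have hmem : ∀ {th τ : ℝ}, th ∈ Icc 0 x1 → ((th : ℂ), I * (τ : ℂ)) ∈ WZ (1 / 20) := fun h =>
    ⟨Icc_Nz hl20 (hsub h), re_I _⟩
  have key := PLT.Evo.evoV (a := 0) (b := x1) (N := (k : ℝ)) (c := c2) (ep := |CU|) (A := 2) (e1 := e1) (C := CC)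
    (L := g (k * a0 + k * b0)) (Cl := Cl) (w := 8 / 3) (v0 := b0) (v1 := a0 + b0) hx1.le hk1 hc2p.le
    (abs_nonneg _) (by norm_num) he1p he1c (by linarith) hgk (by norm_num) (V := VV a0 b0) (V' := VV' a0 b0) hB
    (fun th h => VV_low hA hB (hsub h)) (VV_zero hA hB).le (fun th h => (VV_deriv hA hB (hsub h)).hasDerivWithinAt)
    (fun th h => VV'_nonpos hA hB (hsub h)) (f := fun th => fz q a0 b0 k (th : ℂ))
    (f1 := fun th => deriv (fz q a0 b0 k (th : ℂ)))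
    (f2 := fun th => deriv (deriv (fz q a0 b0 k (th : ℂ))))
    (E := fun th z => Ez q a0 b0 (k * a0) (k * b0) (th : ℂ) z) ?_ ?_ ?_ ?_ ?_ ?_ ?_
  · intro th h τ hτ
    exact key th h τ (by linarith)
  · intro p hp
    have h1 : ContinuousAt (fun p : ℝ × ℝ => ((p.1 : ℂ), I * (p.2 : ℂ))) p := by
      refine ContinuousAt.prodMk (continuous_ofReal.comp continuous_fst).continuousAt
        (continuous_const.mul (continuous_ofReal.comp continuous_snd)).continuousAt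
    have h2 := H.cont ((p.1 : ℂ), I * (p.2 : ℂ)) (hmem hp.1)
    exact (ContinuousAt.comp (f := fun p : ℝ × ℝ => ((p.1 : ℂ), I * (p.2 : ℂ))) h2 h1).continuousWithinAt
  · intro th h τ _
    exact (H.d2 _ (hmem ⟨h.1.le, h.2⟩)).hasDerivAt
  · intro th h τ _
    exact ((H.D2 hWo).d2 _ (hmem ⟨h.1.le, h.2⟩)).hasDerivAt
  · intro th h τ _
    have hth : th ∈ Icc 0 x1 := ⟨h.1.le, h.2⟩
    have h1 := (H.d1 _ (hmem (τ := τ) hth)).hasDerivAt.comp_ofReal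
    refine (h1.congr_deriv ?_).hasDerivWithinAt
    rw [kap_eq hA hB (hsub hth)]
    have e : Ez q a0 b0 (k * a0) (k * b0) (th : ℂ) (I * τ) =
        deriv (fun D => fz q a0 b0 k D (I * τ)) (th : ℂ) +
        b0 * sin (8 / 3 * qz a0 b0 (th : ℂ)) / (4 * Vz a0 b0 (th : ℂ)) *
          deriv (deriv (fz q a0 b0 k (th : ℂ))) (I * τ) := by
      unfold Ez fz
      push_cast
      rfl
    rw [e, qz_real hA hB (hsub hth), Vz_real hA hB (hsub hth)]
    push_cast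
    ring
  · intro th h τ hτ
    have h1 := w th ⟨h.1.le, h.2⟩ τ ((habs' hτ).trans hle0)
    refine h1.trans ?_
    have a3 : (k : ℝ) ^ (-c) ≤ (k : ℝ) ^ (-c2) := hkp (by linarith)
    have a4 : 1 ≤ Real.exp (2 * |τ|) := Real.one_le_exp (by positivity)
    calc CW * (k : ℝ) ^ (-c) ≤ CC * (k : ℝ) ^ (-c2) := mul_le_mul hCCW a3 (hkpos _).le (by linarith)
      _ = CC * (k : ℝ) ^ (-c2) * 1 := (mul_one _).symm
      _ ≤ _ := mul_le_mul_of_nonneg_left a4 (mul_nonneg (by linarith) (hkpos _).le)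
  · intro th h τ hτ
    have h1 := u th h τ ((habs hτ).trans hle0)
    have h2 : (k : ℝ) ^ CU ≤ (k : ℝ) ^ |CU| := hkp (le_abs_self _)
    have h3 : 1 ≤ Real.exp (2 * |τ|) := Real.one_le_exp (by positivity)
    calc ‖fz q a0 b0 k (th : ℂ) (I * τ)‖ ≤ 1 * (k : ℝ) ^ |CU| * 1 := by
          rw [one_mul, mul_one]
          exact h1.trans h2
      _ ≤ CC * (k : ℝ) ^ |CU| * Real.exp (2 * |τ|) :=
          mul_le_mul (mul_le_mul_of_nonneg_right hCC1 (hkpos _).le) h3 zero_le_one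
            (mul_nonneg (by linarith) (hkpos _).le)
  · intro τ hτ
    have h1 := s τ ((habs hτ).trans hle2)
    have h2 : (k : ℝ) ^ (-(c0 / 4)) ≤ (k : ℝ) ^ (-c2) := hkp (by linarith)
    show ‖fz q a0 b0 k ((0 : ℝ) : ℂ) (I * τ) - g (k * a0 + k * b0)‖ ≤ _
    rw [fz_real ha hb ⟨le_rfl, hl.le⟩]
    calc ‖fth q a0 b0 k 0 (I * τ) - g (k * a0 + k * b0)‖ ≤ (k : ℝ) ^ (-(c0 / 4)) * Real.exp (2 * |τ|) := h1
      _ ≤ (k : ℝ) ^ (-c2) * Real.exp (2 * |τ|) := mul_le_mul_of_nonneg_right h2 (Real.exp_pos _).le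
      _ ≤ CC * (k : ℝ) ^ (-c2) * Real.exp (2 * |τ|) := by
          refine mul_le_mul_of_nonneg_right ?_ (Real.exp_pos _).le
          nlinarith [hkpos (-c2)]

/-- **two constants, one side** -/
theorem two_side {f : ℂ → ℂ} {b δ M h : ℝ} (hb : 0 < b) (hb1 : b ≤ 1) (hh : 0 < h) (hδ : 0 < δ) (hδM : δ ≤ M)
    (hf : ∀ z : ℂ, 0 ≤ z.re → z.re ≤ b → DifferentiableAt ℂ f z)
    (h0 : ∀ τ : ℝ, |τ| ≤ h → ‖f (I * τ)‖ ≤ δ)
    (hM : ∀ z : ℂ, 0 ≤ z.re → z.re ≤ b → |z.im| ≤ h → ‖f z‖ ≤ M)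
    (hhh : 2 * Real.exp (-h / 2) * 2 ≤ 1 / 20) {z : ℂ}
    (z1 : 0 ≤ z.re) (z2 : z.re ≤ 3 / 4 * b) (z3 : |z.im| ≤ h / 2) :
    ‖f z‖ ≤ δ * (M / δ) ^ (4 / 5 : ℝ) := by
  have hMδ : 1 ≤ M / δ := (one_le_div hδ).2 hδM
  have hw : (1 : ℝ) * (b - 0) < Real.pi := by linarith [Real.pi_gt_three]
  have hd : DiffContOnCl ℂ f (PBT.Rect 0 b 0 h) := by
    refine DifferentiableOn.diffContOnCl fun w hw => ?_
    have := PBT.closure_Rect_subset _ _ _ _ hw
    exact (hf w this.1.1 this.1.2).differentiableWithinAt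
  have key := PBT.rect_one_side (f := f) (a := 0) (b := b) (y₀ := 0) (h := h) (α := 1)
    (δ := δ) (M := M) hb hh one_pos hw hδ hδM hd ?_ ?_ (z := z) ?_
  · refine key.trans (mul_le_mul_of_nonneg_left (Real.rpow_le_rpow_of_exponent_le hMδ ?_) hδ.le)
    simp only [sub_zero, one_mul]
    have e1 : z.re / b ≤ 3 / 4 := by
      rw [div_le_iff₀ hb]
      linarith
    have e2 : Real.cos (z.re - (0 + b) / 2) * Real.cosh z.im / (Real.cos (b / 2) * Real.cosh h) ≤ 1 / 20 := by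
      have c0 : (1 : ℝ) / 2 ≤ Real.cos (b / 2) := by
        have := Real.one_sub_sq_div_two_le_cos (x := b / 2)
        nlinarith
      have c1 : Real.cosh z.im ≤ Real.exp (h / 2) := by
        rw [← Real.cosh_abs]
        have c8 : Real.cosh (h / 2) ≤ Real.exp (h / 2) := by
          rw [Real.cosh_eq]
          have := Real.exp_le_exp.2 (show -(h / 2) ≤ h / 2 by linarith)
          linarith
        refine (Real.cosh_le_cosh.2 ?_).trans c8
        rw [abs_abs, abs_of_pos (by positivity : 0 < h / 2)]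
        exact z3
      have c2 : Real.exp h / 2 ≤ Real.cosh h := by
        rw [Real.cosh_eq]
        linarith [Real.exp_pos (-h)]
      have c3 : Real.cos (z.re - (0 + b) / 2) ≤ 1 := Real.cos_le_one _
      have c4 : 0 < Real.cosh z.im := Real.cosh_pos _
      have c5 : 0 < Real.exp h := Real.exp_pos _
      have c6 : 0 < Real.cos (b / 2) * Real.cosh h := mul_pos (by linarith) (Real.cosh_pos _)
      rw [div_le_iff₀ c6]
      have c7 : Real.exp (-h / 2) * Real.exp h = Real.exp (h / 2) := by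
        rw [← Real.exp_add]
        congr 1
        ring
      calc Real.cos (z.re - (0 + b) / 2) * Real.cosh z.im ≤ 1 * Real.exp (h / 2) :=
            mul_le_mul c3 c1 c4.le zero_le_one
        _ = Real.exp (-h / 2) * Real.exp h := by rw [one_mul, c7]
        _ ≤ (1 / 20 / 4) * Real.exp h := mul_le_mul_of_nonneg_right (by linarith) c5.le
        _ ≤ 1 / 20 * (1 / 2 * (Real.exp h / 2)) := by linarith
        _ ≤ 1 / 20 * (Real.cos (b / 2) * Real.cosh h) := by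
            refine mul_le_mul_of_nonneg_left ?_ (by norm_num)
            exact mul_le_mul c0 c2 (by positivity) (by linarith)
    linarith
  · intro w hw1 hw2
    have e : w = I * ((w.im : ℝ) : ℂ) := by
      apply Complex.ext
      · simp [hw1]
      · simp
    rw [e]
    exact h0 _ (by simpa using hw2)
  · intro w hw1 hw2
    exact hM w hw1.1 hw1.2 (by simpa using hw2)
  · refine ⟨⟨z1, by linarith⟩, ?_⟩
    rw [sub_zero]
    linarith

/-- the value at small real separation -/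
def VALX (q a0 b0 : ℕ) (g : ℕ → ℂ) (x1 : ℝ) : Prop := ∃ c2 : ℝ, 0 < c2 ∧ ∃ e2 : ℝ, 0 < e2 ∧ ∃ C : ℝ,
  ∀ᶠ k : ℕ in atTop, ∀ th ∈ Icc 0 x1, ∀ z : ℂ, -(3 / 10 * l) ≤ z.re → z.re ≤ 3 / 20 * l →
  |z.im| ≤ e2 * Real.log k →
  ‖fz q a0 b0 k (th : ℂ) z - g (k * a0 + k * b0)‖ ≤ C * (k : ℝ) ^ (-c2)

/-- **the value at small real separation** -/
theorem valX {q a0 b0 : ℕ} (ha : 1 ≤ a0) (hb : 1 ≤ b0) {c0 c e0 d1 : ℝ} (hc0 : 0 < c0) (hc : 0 < c) (he0 : 0 < e0)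
    (hd1 : 0 < d1) (hd1' : d1 ≤ 1 / 40) {g : ℕ → ℂ} (hF : FunO2 c0 (f0Q q) g) (hW : WIM q a0 b0 c e0 d1)
    (hU : UBD q a0 b0 d1) : VALX q a0 b0 g (d1 / 8) := by
  have hl := lpos
  have hlg := l_gt
  have hll := l_lt
  have hA : (0 : ℝ) < a0 := by exact_mod_cast ha
  have hB : (0 : ℝ) < b0 := by exact_mod_cast hb
  obtain ⟨c', hc', e1, he1, C1, hC1, hE⟩ := contE ha hb hc he0 hd1 hd1' hW hU
  obtain ⟨e2, he2⟩ : ∃ e2 : ℝ, e2 = min e1 (9 / 80) := ⟨_, rfl⟩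
  have he2p : 0 < e2 := by
    rw [he2]
    exact lt_min he1 (by norm_num)
  have he2a : e2 ≤ e1 := by
    rw [he2]
    exact min_le_left _ _
  have he2b : e2 ≤ 9 / 80 := by
    rw [he2]
    exact min_le_right _ _
  have hnorm : ∀ {th : ℝ}, th ∈ Icc 0 (d1 / 8) → ‖(th : ℂ)‖ ≤ d1 := by
    intro th h
    rw [norm_real, Real.norm_eq_abs, abs_of_nonneg h.1]
    linarith [h.2]
  have hE' : ∃ C : ℝ, 0 < C ∧ ∀ᶠ k : ℕ in atTop, ∀ th ∈ Icc 0 (d1 / 8), ∀ τ : ℝ, |τ| ≤ e2 * Real.log k →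
      ‖Ez q a0 b0 (k * a0) (k * b0) (th : ℂ) (I * τ)‖ ≤ C * (k : ℝ) ^ (-c') := by
    refine ⟨C1, hC1, ?_⟩
    filter_upwards [hE, eventually_ge_atTop 1] with k hk hk1 th hth τ hτ
    have hk1' : (1 : ℝ) ≤ k := by exact_mod_cast hk1
    exact hk th hth τ (hτ.trans (mul_le_mul_of_nonneg_right he2a (Real.log_nonneg hk1')))
  have hU' : ∃ C : ℝ, ∀ᶠ k : ℕ in atTop, ∀ th ∈ Icc 0 (d1 / 8), ∀ τ : ℝ, |τ| ≤ e2 * Real.log k →
      ‖fz q a0 b0 k (th : ℂ) (I * τ)‖ ≤ (k : ℝ) ^ C := by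
    refine ⟨1 + 2 * (9 / 80), ?_⟩
    filter_upwards [hU 1 one_pos, eventually_ge_atTop 1] with k hk hk1 th hth τ hτ
    have hk1' : (1 : ℝ) ≤ k := by exact_mod_cast hk1
    have hlk : 0 ≤ Real.log k := Real.log_nonneg hk1'
    have him : (I * (τ : ℂ)).im = τ := by simp
    have hre : (I * (τ : ℂ)).re = 0 := by simp
    have h2 : |τ| ≤ 9 / 80 * Real.log k := hτ.trans (mul_le_mul_of_nonneg_right he2b hlk)
    have h3 := hk (th : ℂ) (hnorm hth) (I * τ) (by rw [hre]; linarith) (by rw [hre]; positivity)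
      (by rw [him]; linarith)
    rw [him] at h3
    refine h3.trans ?_
    rw [Real.rpow_add (by linarith)]
    refine mul_le_mul_of_nonneg_left ?_ (by positivity)
    rw [← exp_log_mul (by linarith : (0 : ℝ) < k)]
    exact Real.exp_le_exp.2 (by linarith)
  obtain ⟨c1, hc1, e3, he3, C, hev⟩ := evoX ha hb hc0 hc' he2p (by positivity : 0 < d1 / 8) (by linarith) hF hE' hU'
  obtain ⟨Cl, hCl, hg⟩ := g_bd hF hc0
  have ht : Tendsto (fun k : ℕ => k * a0 + k * b0) atTop atTop :=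
    tendsto_atTop_mono (fun k => by nlinarith : ∀ k : ℕ, k ≤ k * a0 + k * b0) tendsto_id
  -- the height
  obtain ⟨e4, he4⟩ : ∃ e4 : ℝ, e4 = min (min e3 (9 / 80)) (c1 / 100) := ⟨_, rfl⟩
  have r1 : 0 < e4 := by
    rw [he4]
    exact lt_min (lt_min he3 (by norm_num)) (by positivity)
  have r2 : e4 ≤ e3 := by
    rw [he4]
    exact (min_le_left _ _).trans (min_le_left _ _)
  have r3 : e4 ≤ 9 / 80 := by
    rw [he4]
    exact (min_le_left _ _).trans (min_le_right _ _)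
  have r4 : e4 ≤ c1 / 100 := by
    rw [he4]
    exact min_le_right _ _
  obtain ⟨C2, hC2⟩ : ∃ C2 : ℝ, C2 = max |C| 1 := ⟨_, rfl⟩
  have hC21 : 1 ≤ C2 := by
    rw [hC2]
    exact le_max_right _ _
  have hCC2 : C ≤ C2 := by
    rw [hC2]
    exact (le_abs_self C).trans (le_max_left _ _)
  obtain ⟨D, hD⟩ : ∃ D : ℝ, D = 1 + Cl + C2 := ⟨_, rfl⟩
  have hlog : Tendsto (fun k : ℕ => e4 * Real.log k) atTop atTop :=
    (Real.tendsto_log_atTop.comp tendsto_natCast_atTop_atTop).const_mul_atTop r1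
  have hsm : ∀ᶠ k : ℕ in atTop, 2 * Real.exp (-(e4 * Real.log k) / 2) * 2 ≤ 1 / 20 := by
    have h1 : Tendsto (fun k : ℕ => 2 * Real.exp (-(e4 * Real.log k) / 2) * 2) atTop (𝓝 (2 * 0 * 2)) := by
      refine ((Real.tendsto_exp_atBot.comp ?_).const_mul 2).mul_const 2
      have h2 : Tendsto (fun k : ℕ => -(e4 * Real.log k) / 2) atTop atBot := by
        have := (tendsto_neg_atTop_atBot.comp hlog).atBot_div_const (show (0 : ℝ) < 2 by norm_num)
        exact this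
      exact h2
    rw [mul_zero, zero_mul] at h1
    exact h1.eventually (Iic_mem_nhds (by norm_num))
  refine ⟨c1 / 10, by positivity, e4 / 2, by positivity, D, ?_⟩
  filter_upwards [hev, hU (c1 / 100) (by positivity), ht.eventually hg, hsm, eventually_ge_atTop 2]
    with k h1 h2 h3 h4 hk2 th hth z z1 z2 z3
  have hk2' : (2 : ℝ) ≤ k := by exact_mod_cast hk2
  have hk1 : (1 : ℝ) < k := by linarith
  have hk0 : (0 : ℝ) < k := by linarith
  have hlk : 0 < Real.log k := Real.log_pos hk1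
  have hkpos : ∀ x : ℝ, 0 < (k : ℝ) ^ x := fun x => Real.rpow_pos_of_pos hk0 x
  have hkp : ∀ {x y : ℝ}, x ≤ y → (k : ℝ) ^ x ≤ (k : ℝ) ^ y := fun h =>
    Real.rpow_le_rpow_of_exponent_le hk1.le h
  obtain ⟨G, hG⟩ : ∃ G, G = g (k * a0 + k * b0) := ⟨_, rfl⟩
  rw [← hG] at h3 ⊢
  set δ : ℝ := C2 * (k : ℝ) ^ (-c1) with hδ
  set M : ℝ := D * (k : ℝ) ^ (c1 / 100 + 2 * e4) with hM
  have hδ0 : 0 < δ := mul_pos (by linarith) (hkpos _)
  have hDC : C2 ≤ D := by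
    rw [hD]
    linarith
  have hδM : δ ≤ M := mul_le_mul hDC (hkp (by linarith)) (hkpos _).le (by linarith)
  have hone : 1 ≤ (k : ℝ) ^ (c1 / 100 + 2 * e4) := Real.one_le_rpow hk1.le (by positivity)
  have hD1 : 1 ≤ D := hC21.trans hDC
  have hdiff : ∀ w : ℂ, |w.re| < 3 * l → DifferentiableAt ℂ (fun z => fz q a0 b0 k (th : ℂ) z - G) w := fun w hw =>
    ((Fz_Hol2 (q := q) hA hB le_rfl (k * a0) (k * b0)).d2 ((th : ℂ), w)
      ⟨ball_Nz hd1' (hnorm hth), hw⟩).sub_const _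
  have hline : ∀ τ : ℝ, |τ| ≤ e4 * Real.log k → ‖fz q a0 b0 k (th : ℂ) (I * τ) - G‖ ≤ δ := by
    intro τ hτ
    have h5 := h1 th hth τ (hτ.trans (mul_le_mul_of_nonneg_right r2 hlk.le))
    rw [← hG] at h5
    exact h5.trans (mul_le_mul_of_nonneg_right hCC2 (hkpos _).le)
  have hup : ∀ w : ℂ, -(2 / 5 * l) ≤ w.re → w.re ≤ 1 / 5 * l → |w.im| ≤ e4 * Real.log k →
      ‖fz q a0 b0 k (th : ℂ) w - G‖ ≤ M := by
    intro w w1 w2 w3
    have h5 := h2 (th : ℂ) (hnorm hth) w w1 w2 (by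
      have := mul_le_mul_of_nonneg_right r3 hlk.le
      linarith)
    have h6 : Real.exp (2 * |w.im|) ≤ (k : ℝ) ^ (2 * e4) := by
      rw [← exp_log_mul hk0]
      exact Real.exp_le_exp.2 (by linarith)
    calc ‖fz q a0 b0 k (th : ℂ) w - G‖ ≤ ‖fz q a0 b0 k (th : ℂ) w‖ + ‖G‖ := norm_sub_le _ _
      _ ≤ (k : ℝ) ^ (c1 / 100) * (k : ℝ) ^ (2 * e4) + Cl :=
          add_le_add (h5.trans (mul_le_mul_of_nonneg_left h6 (hkpos _).le)) h3
      _ = (k : ℝ) ^ (c1 / 100 + 2 * e4) + Cl := by rw [← Real.rpow_add hk0]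
      _ ≤ M := by
          rw [hM, hD]
          nlinarith
  have hfin : δ * (M / δ) ^ (4 / 5 : ℝ) ≤ D * (k : ℝ) ^ (-(c1 / 10)) := by
    have e1 : δ * (M / δ) ^ (4 / 5 : ℝ) = δ ^ (1 / 5 : ℝ) * M ^ (4 / 5 : ℝ) := by
      rw [Real.div_rpow (hδ0.le.trans hδM) hδ0.le]
      have : δ = δ ^ (1 / 5 : ℝ) * δ ^ (4 / 5 : ℝ) := by
        rw [← Real.rpow_add hδ0]
        norm_num
      have h5 : 0 < δ ^ (4 / 5 : ℝ) := Real.rpow_pos_of_pos hδ0 _
      calc δ * (M ^ (4 / 5 : ℝ) / δ ^ (4 / 5 : ℝ)) =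
            (δ ^ (1 / 5 : ℝ) * δ ^ (4 / 5 : ℝ)) * (M ^ (4 / 5 : ℝ) / δ ^ (4 / 5 : ℝ)) := by rw [← this]
        _ = _ := by field_simp
    have e2 : δ ^ (1 / 5 : ℝ) ≤ D ^ (1 / 5 : ℝ) * (k : ℝ) ^ (-(c1 / 5)) := by
      rw [hδ, Real.mul_rpow (by linarith) (hkpos _).le, ← Real.rpow_mul hk0.le]
      refine mul_le_mul (Real.rpow_le_rpow (by linarith) hDC (by norm_num)) (le_of_eq ?_) (hkpos _).le (by positivity)
      congr 1
      ring
    have e3' : M ^ (4 / 5 : ℝ) ≤ D ^ (4 / 5 : ℝ) * (k : ℝ) ^ (c1 / 10) := by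
      rw [hM, Real.mul_rpow (by linarith) (hkpos _).le, ← Real.rpow_mul hk0.le]
      refine mul_le_mul_of_nonneg_left (hkp ?_) (by positivity)
      nlinarith
    rw [e1]
    calc δ ^ (1 / 5 : ℝ) * M ^ (4 / 5 : ℝ) ≤
          (D ^ (1 / 5 : ℝ) * (k : ℝ) ^ (-(c1 / 5))) * (D ^ (4 / 5 : ℝ) * (k : ℝ) ^ (c1 / 10)) :=
          mul_le_mul e2 e3' (Real.rpow_nonneg (hδ0.le.trans hδM) _)
            (mul_nonneg (Real.rpow_nonneg (by linarith) _) (hkpos _).le)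
      _ = (D ^ (1 / 5 : ℝ) * D ^ (4 / 5 : ℝ)) * ((k : ℝ) ^ (-(c1 / 5)) * (k : ℝ) ^ (c1 / 10)) := by ring
      _ = D * (k : ℝ) ^ (-(c1 / 10)) := by
          rw [← Real.rpow_add (by linarith), ← Real.rpow_add hk0]
          congr 1
          · norm_num
          · congr 1
            ring
  rcases le_total 0 z.re with hz | hz
  · refine (two_side (f := fun z => fz q a0 b0 k (th : ℂ) z - G) (b := 1 / 5 * l) (h := e4 * Real.log k)
      (δ := δ) (M := M) (by positivity) (by linarith) (mul_pos r1 hlk) hδ0 hδM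
      (fun w w1 w2 => hdiff w (by rw [abs_of_nonneg w1]; linarith)) hline
      (fun w w1 w2 w3 => hup w (by linarith) w2 w3) h4 hz (by linarith) (by linarith)).trans hfin
  · have h5 := two_side (f := fun z => fz q a0 b0 k (th : ℂ) (-z) - G) (b := 2 / 5 * l) (h := e4 * Real.log k)
      (δ := δ) (M := M) (z := -z) (by positivity) (by linarith) (mul_pos r1 hlk) hδ0 hδM
      (fun w w1 w2 => ?_) (fun τ hτ => ?_)
      (fun w w1 w2 w3 => hup (-w) (by rw [neg_re]; linarith) (by rw [neg_re]; linarith)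
        (by rw [neg_im, abs_neg]; exact w3)) h4 (by rw [neg_re]; linarith) (by rw [neg_re]; linarith)
        (by rw [neg_im, abs_neg]; linarith)
    · simp only [neg_neg] at h5
      exact h5.trans hfin
    · have h6 := hdiff (-w) (by rw [neg_re, abs_neg, abs_of_nonneg w1]; linarith)
      exact DifferentiableAt.comp w (f := fun z : ℂ => -z) h6 differentiableAt_id.neg
    · have h6 := hline (-τ) (by rwa [abs_neg])
      push_cast at h6
      rw [mul_neg] at h6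
      exact h6

end PLT.FS

end
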