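import Pool.Agent.PLT.PtG

/-!
# Rows without a condition on their distance: the class formula before the holes

Rows `RwG` (complex, real parts in `(-l, 101/200 l]`).  `stageXG` : the contour integral on the start lines
`51/100 l`, `-201/100 l` is `ZobjQ (XXT ..)` for all final lines in the strips A `[51/100 l, l]`,
L `[-201/100 l, -102/100 l]`, S `[-29/20 l, -101/100 l]`, T `[-101/100 l, -l/2]`.
-/

set_option autoImplicit false
set_option linter.unusedSectionVars false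
set_option linter.unusedVariables false

noncomputable section

open Complex MeasureTheory Filter Topology

namespace PLTX

open NUP1 NUP1S NUP1.Bd NURow
open NUP1.N (Z3 Gr0)
open NUP1.Leg (hr)
open PBX (Rws ph GOk measurable_ph im_le bdd_glueR)
open Pool.Agent.PLX

variable {m M : ℕ}

/-! ### the strings T -/

section strT

variable {c : ℂ} {x : Fin m → ℂ} {y : Fin M → ℂ} {β β' : ℝ} {g g0 : ℂ → ℂ} {w : ℂ}

/-- the sine of a difference vanishes only at the row -/
theorem sin_orG (hx : RwG x) (hw : w.re ∈ K2T) (i : Fin m) : w - x i = 0 ∨ sin (w - x i) ≠ 0 := by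
  have hl := Bd.l_pos
  have hpi := Bd.pi_eq
  obtain ⟨h2, h3⟩ := G_range (hx i) (K2T_KT hw)
  by_cases h4 : w - x i = 0
  · exact Or.inl h4
  · exact Or.inr (NUP1.sin_ne (by rw [sub_re]; linarith) (by rw [sub_re]; linarith) h4)

theorem NQ_negG (hβ : 0 < β) (hβ' : β ≤ 4 / 3) (hx : RwG x) (hw : w.re ∈ K2T) (i : Fin m) :
    NQ β (-(w - x i)).re := by
  have hl := Bd.l_pos
  obtain ⟨a, b⟩ := hx i
  obtain ⟨h2, h3⟩ := hw
  refine NQ_strip hβ hβ' ?_ ?_ <;> rw [neg_re, sub_re] <;> linarith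

theorem diffAt_TTG (c : ℂ) (hβ : 0 < β) (hβ1 : β ≤ 4 / 3) (hβ' : 0 < β')
    (hβ1' : β' ≤ 4 / 3) (hx : RwG x) (hg : GOn KT β g) (hg0 : GOn K2T β' g0) (hw : w.re ∈ K2T) :
    DifferentiableAt ℂ (TTT c β β' x y g g0) w := by
  have hl := Bd.l_pos
  have hK := K2T_KT hw
  have hK' : (w - l).re ∈ KT := by
    have := K2T_KT' hw
    simpa using this
  have hR : DifferentiableAt ℂ (RgT c x y) w := by
    unfold RgT
    refine ((differentiableAt_const c).mul ?_).mul ?_
    · refine DifferentiableAt.fun_finsetProd fun i _ => ?_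
      have hs : sin (w - x i - 2 * l) ≠ 0 := by
        refine Bd.sin_ne_zero_of_re ?_
        have e : (w - x i - 2 * l).re = w.re - (x i).re - 2 * l := by simp
        obtain ⟨h4, h5⟩ := G_range (hx i) hK
        rw [e]
        exact NURow.sin_ne_neg (by linarith) (by linarith)
      fun_prop (disch := exact hs)
    · refine DifferentiableAt.fun_finsetProd fun i _ => ?_
      fun_prop
  have hA : ∀ {b : ℝ} {k : ℂ → ℂ}, 0 < b → b ≤ 4 / 3 → DifferentiableAt ℂ k w →
      DifferentiableAt ℂ (AmT b x k) w := by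
    intro b k a0 a1 hk
    unfold AmT
    refine DifferentiableAt.mul ?_ hk
    refine DifferentiableAt.fun_finsetProd fun i _ => ?_
    exact (differentiableAt_qs (NQ_G a0 a1 hx hK i) (sin_orG hx hw i)).comp w
      (differentiableAt_id.sub_const _)
  have hC : DifferentiableAt ℂ (CmT β x g) w := by
    unfold CmT
    refine DifferentiableAt.mul ?_ ((hg.diff (w - l) hK').comp w
      (differentiableAt_id.sub_const _))
    refine DifferentiableAt.fun_finsetProd fun i _ => ?_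
    refine ((differentiableAt_qs (NQ_negG hβ hβ1 hx hw i) ?_).comp w
      ((differentiableAt_id.sub_const _).neg)).neg
    rcases sin_orG hx hw i with h2 | h2
    · left
      rw [h2, neg_zero]
    · right
      rw [Complex.sin_neg]
      exact neg_ne_zero.2 h2
  unfold TTT
  exact (hR.mul (RRG_shift_diff c hx hw)).mul (((hA hβ' hβ1' (hg0.diff w hw)).sub
    (hA hβ hβ1 (hg.diff w hK))).sub ((diffAt_phG hβ hβ1 hx (fun t ht => ht) hg hK).mul hC))

/-- **The strings T decay on strips containing the rows.** -/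
theorem bdd_TTG (c : ℂ) (hβ : 0 < β) (hββ' : β ≤ β') (hβ1' : β' ≤ 4 / 3)
    (hx : RwG x) (hg : GOn KT β g) (hg0 : GOn K2T β' g0) :
    Bdd K2T (-(2 * β) + 4 * ((M : ℝ) - m)) (TTT c β β' x y g g0) := by
  have hβ' : 0 < β' := hβ.trans_le hββ'
  have hβ1 : β ≤ 4 / 3 := hββ'.trans hβ1'
  have hl := Bd.l_pos
  obtain ⟨C1, R1, hC1, g1⟩ := Gr_RRU c l (-(49 / 20 * l)) x y
  obtain ⟨C2, hC2, g2⟩ := RRG_shift_bdd (y := y) c hx
  obtain ⟨C3, hC3, g3⟩ := bdd_phG hβ hβ1 hx (fun t ht => ht) hg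
  obtain ⟨C4, hC4, g4⟩ := bdd_phG hβ' hβ1' hx (fun t ht => K2T_KT ht) hg0
  refine bdd_glueR (R := max R1 (1 + ∑ j, |(x j).im|)) isCompact_K2T
    (fun z hz => (diffAt_TTG c hβ hβ1 hβ' hβ1' hx hg hg0 hz).continuousAt)
    ⟨C1 * C2 * (C3 * C3 + C4), by positivity, fun z hz hi => ?_⟩
  have hK := K2T_KT hz
  have hK' : (z - l).re ∈ KT := by
    have := K2T_KT' hz
    simpa using this
  have hi1 := (le_max_left _ _).trans hi
  have hi2 := (le_max_right _ _).trans hi
  have hs : ∀ i, sin (z - x i) ≠ 0 := by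
    intro i
    refine NUP1.sin_ne_im ?_
    rw [sub_im]
    intro h2
    have h3 : z.im = (x i).im := by linarith
    have h4 := im_le x i
    rw [h3] at hi2
    linarith
  rw [TTT_eq (fun i => NQ_G hβ hβ1 hx hK i) (fun i => NQ_G hβ' hβ1' hx hK i)
    (fun i => NQ_negG hβ hβ1 hx hz i) hs, norm_mul, norm_mul]
  have a1 : ‖RRU c x y z‖ ≤ C1 * Real.exp (2 * ((M : ℝ) - m) * |z.im|) := g1 z hK.1 hK.2 hi1
  have a2 : ‖RRU c x y (z - l)‖ ≤ C2 * Real.exp (2 * ((M : ℝ) - m) * |z.im|) := g2 z hz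
  have a3 := g3 z hK
  have a4 := g3 (z - l) hK'
  have a5 := g4 z hz
  have e1 : (z - (l : ℂ)).im = z.im := by simp
  rw [e1] at a4
  have b1 : Real.exp (-(2 * β) * |z.im|) ≤ 1 := by
    rw [Real.exp_le_one_iff]
    have := abs_nonneg z.im
    nlinarith
  have b2 : Real.exp (-(2 * β') * |z.im|) ≤ Real.exp (-(2 * β) * |z.im|) := by
    refine Real.exp_le_exp.2 ?_
    have := abs_nonneg z.im
    nlinarith
  have hE := (Real.exp_pos (-(2 * β) * |z.im|)).le
  have a6 : ‖ph β x g z * ph β x g (z - l) - ph β' x g0 z‖ ≤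
      (C3 * C3 + C4) * Real.exp (-(2 * β) * |z.im|) := by
    refine (norm_sub_le _ _).trans ?_
    rw [norm_mul, add_mul]
    refine add_le_add ?_ ?_
    · calc ‖ph β x g z‖ * ‖ph β x g (z - l)‖ ≤
          (C3 * Real.exp (-(2 * β) * |z.im|)) * (C3 * 1) :=
            mul_le_mul a3 (a4.trans (mul_le_mul_of_nonneg_left b1 hC3)) (norm_nonneg _)
              (by positivity)
        _ = _ := by ring
    · exact a5.trans (mul_le_mul_of_nonneg_left b2 hC4)
  calc _ ≤ (C1 * Real.exp (2 * ((M : ℝ) - m) * |z.im|)) * (C2 * Real.exp (2 * ((M : ℝ) - m) * |z.im|)) *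
          ((C3 * C3 + C4) * Real.exp (-(2 * β) * |z.im|)) :=
        mul_le_mul (mul_le_mul a1 a2 (norm_nonneg _) (by positivity)) a6 (norm_nonneg _) (by positivity)
    _ = _ := by
        have e2 : Real.exp ((-(2 * β) + 4 * ((M : ℝ) - m)) * |z.im|) = Real.exp (2 * ((M : ℝ) - m) * |z.im|) *
            Real.exp (2 * ((M : ℝ) - m) * |z.im|) * Real.exp (-(2 * β) * |z.im|) := by
          rw [← Real.exp_add, ← Real.exp_add]
          congr 1
          ring
        rw [e2]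
        ring

end strT

/-! ### the data -/

section data

variable {c : ℂ} {x : Fin m → ℂ} {y : Fin M → ℂ} {β : ℝ} {g g0 s1 s2 : ℂ → ℂ} {b : Bool} {Q Q' : ℝ}

/-- **on the lines the landed functions** -/
theorem XXT_XXG (hβ : 0 < β) (hβ' : β ≤ 4 / 3) (hx : RwG x)
    (k : Option O3) {z : ℂ} (hz : k = some .T → z.re = -(l / 2)) :
    XXU c β x y g g0 s1 s2 k z = XXT c β x y g g0 s1 s2 k z := by
  have hl := Bd.l_pos
  rcases k with _ | k
  · rfl
  · cases k
    · rfl
    · rfl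
    · have hz' := hz rfl
      have hK : z.re ∈ K2T := by
        rw [hz']
        exact ⟨by linarith, le_rfl⟩
      show TTU c β (4 / 3) x y g g0 z * s2 z = TTT c β (4 / 3) x y g g0 z * s2 z
      rw [TTU_TTT (fun i => NQ_G hβ hβ' hx (K2T_KT hK) i)
        (fun i => NQ_G (by norm_num) le_rfl hx (K2T_KT hK) i)
        (fun i => NQ_negG hβ hβ' hx hK i) (fun i hi => ?_)]
      rcases sin_orG hx hK i with h2 | h2
      · exfalso
        apply hi
        have : (z - x i).re = 0 := by rw [h2, zero_re]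
        rw [sub_re, hz'] at this
        linarith
      · exact h2

theorem K1T_box {r : ℝ} (h : r ∈ K1T) : -(3 * l) ≤ r ∧ r ≤ l := by
  have hl := Bd.l_pos
  rcases h with ⟨h1, h2⟩ | ⟨h1, h2⟩ <;> constructor <;> linarith

theorem bdd_GXG (hβ : 0 < β) (hβ' : β ≤ 4 / 3) (hx : RwG x) (hg : GOn KT β g)
    (h : SpecT b Q' s1 s2) (hQ : Q * sc (b, .A) = Q' * sc (b, .A) - ((M : ℝ) - m)) :
    Bdd K1T (-(2 * β) + -(2 * Q * sc (b, .A))) (GXU c β x y g s1) := by
  have h2 := bdd_RRG (y := y) c isCompact_K1T (fun r hr => K1T_box hr) fun d hd i => NP_G1 hx hd i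
  have h3 : Bdd K1T (-(2 * β)) (ph β x g) := Bdd.mono_set (bdd_phG hβ hβ' hx (fun t ht => ht) hg)
    fun x hx => K1T_KT hx
  exact ((h2.mul h3).mul h.b1).rate (by linarith)

theorem diffAt_GXG (hβ : 0 < β) (hβ' : β ≤ 4 / 3) (hx : RwG x) (hg : GOn KT β g)
    (h : SpecT b Q' s1 s2) {z : ℂ} (hz : z.re ∈ K1T) :
    DifferentiableAt ℂ (GXU c β x y g s1) z :=
  ((diffAt_RRG c fun i => NP_G1 hx hz i).mul (diffAt_phG hβ hβ' hx (fun t ht => ht) hg
    (K1T_KT hz))).mul (h.d1 z hz)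

theorem S_K2G {t : ℝ} (h : t ∈ Set.Icc (-(29 / 20 * l)) (-(101 / 100 * l))) : t ∈ K2T := by
  have hl := Bd.l_pos
  exact ⟨h.1, by linarith [h.2]⟩

theorem T_K2G {t : ℝ} (h : t ∈ Set.Icc (-(101 / 100 * l)) (-(l / 2))) : t ∈ K2T := by
  have hl := Bd.l_pos
  exact ⟨by linarith [h.1], h.2⟩

theorem bdd_RRGS (c : ℂ) (hx : RwG x) : Bdd (Set.Icc (-(29 / 20 * l)) (-(101 / 100 * l))) (2 * ((M : ℝ) - m))
    (RRU c x y) := by
  have hl := Bd.l_pos
  exact bdd_RRG (y := y) c isCompact_Icc (a := -(29 / 20 * l)) (b := -(101 / 100 * l)) (fun r hr => hr)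
    fun d hd i => NP_GS hx hd i

theorem bdd_SXG (hx : RwG x) (hg0 : GOn K2T (4 / 3) g0) (h : SpecT b Q' s1 s2)
    (hQ : Q * sc (b, .A) = Q' * sc (b, .A) - ((M : ℝ) - m)) :
    Bdd (Set.Icc (-(29 / 20 * l)) (-(101 / 100 * l))) (-(2 * (4 / 3)) + -(2 * Q * sc (b, .S)))
      (fun w => RRU c x y w * RRU c x y (w - l) * ph (4 / 3) x g0 w * s2 w) := by
  have a1 := bdd_RRGS (y := y) c hx
  have a2 : Bdd (Set.Icc (-(29 / 20 * l)) (-(101 / 100 * l))) (2 * ((M : ℝ) - m)) (fun w => RRU c x y (w - l)) :=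
    Bdd.mono_set (RRG_shift_bdd (y := y) c hx) fun x hx => S_K2G hx
  have a3 : Bdd (Set.Icc (-(29 / 20 * l)) (-(101 / 100 * l))) (-(2 * (4 / 3))) (ph (4 / 3) x g0) :=
    Bdd.mono_set (bdd_phG (by norm_num) le_rfl hx (fun t ht => K2T_KT ht) hg0) fun x hx => S_K2G hx
  exact (((a1.mul a2).mul a3).mul (Bdd.mono_set h.b2 fun x hx => S_K2G hx)).rate (by
    rw [sc_S]
    linarith)

theorem diffAt_SXG (hx : RwG x) (hg0 : GOn K2T (4 / 3) g0) (h : SpecT b Q' s1 s2) {z : ℂ}
    (hz : z.re ∈ Set.Icc (-(29 / 20 * l)) (-(101 / 100 * l))) :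
    DifferentiableAt ℂ (fun w => RRU c x y w * RRU c x y (w - l) * ph (4 / 3) x g0 w * s2 w) z :=
  (((diffAt_RRG c fun i => NP_GS hx hz i).mul (RRG_shift_diff c hx (S_K2G hz))).mul
    (diffAt_phG (by norm_num) le_rfl hx (fun t ht => K2T_KT ht) hg0 (S_K2G hz))).mul
      (h.d2 z (S_K2G hz))

theorem diffAt_XXG (hβ : 0 < β) (hβ' : β ≤ 4 / 3) (hx : RwG x) (hg : GOn KT β g)
    (hg0 : GOn K2T (4 / 3) g0) (h : SpecT b Q' s1 s2) (k : Option O3) {z : ℂ}
    (hz : z.re ∈ Set.Icc (lo4 (51 / 100 * l) (-(201 / 100 * l)) (-(29 / 20 * l)) (-(101 / 100 * l)) k)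
      (lo4 l (-(102 / 100 * l)) (-(101 / 100 * l)) (-(l / 2)) k)) :
    DifferentiableAt ℂ (XXT c β x y g g0 s1 s2 k) z := by
  rcases k with _ | k
  · exact diffAt_GXG hβ hβ' hx hg h (Or.inl hz)
  · cases k
    · exact diffAt_GXG hβ hβ' hx hg h (Or.inr hz)
    · exact diffAt_SXG hx hg0 h hz
    · exact (diffAt_TTG c hβ hβ' (by norm_num) le_rfl hx hg hg0 (T_K2G hz)).mul
        (h.d2 z (T_K2G hz))

/-- **the one body functions on the strips** -/
theorem famXG (hβ : 0 < β) (hβ' : β ≤ 4 / 3) (hx : RwG x) (hg : GOn KT β g)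
    (hg0 : GOn K2T (4 / 3) g0) (h : SpecT b Q' s1 s2)
    (hQ : Q * sc (b, .A) = Q' * sc (b, .A) - ((M : ℝ) - m)) :
    FamA b (51 / 100 * l) l (-(201 / 100 * l)) (-(102 / 100 * l)) (-(29 / 20 * l))
      (-(101 / 100 * l)) (-(101 / 100 * l)) (-(l / 2)) (2 * β) Q (XXT c β x y g g0 s1 s2) where
  meas k := by
    have a1 := measurable_RRU c x y
    have a2 := measurable_ph β x hg.meas
    have a3 := measurable_ph (4 / 3) x hg0.meas
    have a4 := measurable_TTT (y := y) c β (4 / 3) x hg.meas hg0.meas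
    rcases k with _ | k
    · exact (a1.mul a2).mul h.m1
    · cases k
      · exact (a1.mul a2).mul h.m1
      · exact ((a1.mul (a1.comp (measurable_id.sub_const _))).mul a3).mul h.m2
      · exact a4.mul h.m2
  dec k := by
    have hl := Bd.l_pos
    rcases k with _ | k
    · refine DecOn_of (Bdd.mono_set (bdd_GXG hβ hβ' hx hg h hQ) ?_)
        (by simp only [sc4, ob4, Option.elim]; linarith)
      intro t ht
      exact Or.inl ht
    · cases k
      · refine DecOn_of (Bdd.mono_set (bdd_GXG hβ hβ' hx hg h hQ) ?_)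
          (by simp only [sc4, ob4, ob3, Option.elim]; exact le_of_eq (by cases b <;> simp [sc, chg] <;> ring))
        rintro x ⟨h1, h2⟩
        exact Or.inr ⟨h1, h2⟩
      · exact DecOn_of (bdd_SXG hx hg0 h hQ) (by simp only [sc4, ob4, ob3, Option.elim]; linarith)
      · refine DecOn_of (Bdd.mono_set
          (((bdd_TTG c hβ hβ' le_rfl hx hg hg0).mul h.b2).rate
            (s' := -(2 * β) + -(2 * Q * sc (b, .S))) (by rw [sc_S]; linarith)) ?_)
          (by simp only [sc4, ob4, ob3, Option.elim]; linarith)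
        intro t ht
        exact T_K2G ht
  cont k := fun z hz => (diffAt_XXG hβ hβ' hx hg hg0 h k
    ⟨hz.1, hz.2⟩).continuousAt.continuousWithinAt
  diff k := fun z hz => (diffAt_XXG hβ hβ' hx hg hg0 h k
    ⟨hz.1.le, hz.2.le⟩).differentiableWithinAt

theorem GXG_mul (hβ : 0 < β) (hβ' : β ≤ 4 / 3) (hx : RwG x) (h : SpecT b Q' s1 s2) {w : ℂ}
    (hw : w.re = -(101 / 100 * l)) : GXU c β x y g s1 w * GXU c β x y g s1 (w - l) =
      XXT c β x y g g0 s1 s2 (some .S) w + XXT c β x y g g0 s1 s2 (some .T) w := by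
  have hl := Bd.l_pos
  have hK : w.re ∈ K2T := by
    rw [hw]
    exact ⟨by linarith, by linarith⟩
  have hs : ∀ i, sin (w - x i) ≠ 0 := by
    intro i
    refine Bd.sin_ne_zero_of_re ?_
    obtain ⟨a, b⟩ := hx i
    rw [sub_re, hw]
    exact sin_ne_neg (by linarith) (by linarith)
  show _ = RRU c x y w * RRU c x y (w - l) * ph (4 / 3) x g0 w * s2 w +
    TTT c β (4 / 3) x y g g0 w * s2 w
  rw [TTT_eq (fun i => NQ_G hβ hβ' hx (K2T_KT hK) i)
    (fun i => NQ_G (by norm_num) le_rfl hx (K2T_KT hK) i)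
    (fun i => NQ_negG hβ hβ' hx hK i) hs, h.mul w hw]
  unfold Pool.Agent.PLX.GXU
  ring

theorem split_XXG (hβ : 0 < β) (hβ' : β ≤ 4 / 3) (hx : RwG x) (h : SpecT b Q' s1 s2) (k : Ob) (t : ℝ) :
    oneL (51 / 100 * l) (-(201 / 100 * l)) (GXU c β x y g s1) k t =
      ∑ a ∈ Finset.univ.filter (fun a => ob4 a = k),
        one4L (51 / 100 * l) (-(201 / 100 * l)) (XXT c β x y g g0 s1 s2) a t := by
  have e : ∀ a, one4L (51 / 100 * l) (-(201 / 100 * l)) (XXT c β x y g g0 s1 s2) a t =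
      XXT c β x y g g0 s1 s2 a (pt (51 / 100 * l) (-(201 / 100 * l)) (ob4 a) t) := fun _ => rfl
  unfold oneL
  cases k
  · have : (Finset.univ.filter fun a => ob4 a = Ob.A) = {none} := by decide
    rw [this, Finset.sum_singleton, e]
    rfl
  · have : (Finset.univ.filter fun a => ob4 a = Ob.L) = {some .L} := by decide
    rw [this, Finset.sum_singleton, e]
    rfl
  · have : (Finset.univ.filter fun a => ob4 a = Ob.S) = {some .S, some .T} := by decide
    rw [this, Finset.sum_pair (by decide), e, e]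
    have hw : (pt (51 / 100 * l) (-(201 / 100 * l)) .S t).re = -(101 / 100 * l) := by
      show (vl (-(201 / 100 * l) + l) t).re = _
      rw [re_vl]
      ring
    exact GXG_mul hβ hβ' hx h hw

end data

/-! ### the class formula -/

section stage

variable {c c' : ℂ} {x : Fin m → ℂ} {y : Fin M → ℂ} {β : ℝ} {g g0 g' g0' s1 s2 t1 t2 : ℂ → ℂ} {q : ℝ}

/-- **the class formula on the lines of the direction**, rows without a condition on their distance -/
theorem stageXG (hβ : 0 < β) (hβ' : β ≤ 4 / 3) (hx : RwG x) (hy : RwG y)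
    (hg : GOn KT β g) (hg0 : GOn K2T (4 / 3) g0) (hh : GOn KT β g') (hh0 : GOn K2T (4 / 3) g0') (n n' : ℕ)
    (hn : (n' : ℝ) + m = n + M + q) (hX : SpecT true (-q) s1 s2) (hY : SpecT false (-q) t1 t2)
    (lnX : ∀ p p' : ℕ, (Fin p → O3) → (Fin p' → O3) → Fin p → ℝ)
    (lnY : ∀ p p' : ℕ, (Fin p → O3) → (Fin p' → O3) → Fin p' → ℝ)
    (hlX : ∀ p p' k k' i, lnX p p' k k' i ∈ Set.Icc
      (lo4 0 (-(201 / 100 * l)) (-(29 / 20 * l)) (-(101 / 100 * l)) (some (k i)))
      (lo4 0 (-(102 / 100 * l)) (-(101 / 100 * l)) (-(l / 2)) (some (k i))))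
    (hlY : ∀ p p' k k' i, lnY p p' k k' i ∈ Set.Icc
      (lo4 0 (-(201 / 100 * l)) (-(29 / 20 * l)) (-(101 / 100 * l)) (some (k' i)))
      (lo4 0 (-(102 / 100 * l)) (-(101 / 100 * l)) (-(l / 2)) (some (k' i)))) :
    Z3 (51 / 100 * l) (-(201 / 100 * l)) n n' (GXU c β x y g s1) (GXU c' β y x g' t1) =
      ZobjQ (XXT c β x y g g0 s1 s2) (XXT c' β y x g' g0' t1 t2) (51 / 100 * l) n n' lnX lnY := by
  have hl := Bd.l_pos
  have hκ : 0 < 2 * β := by linarith
  have FX : FamA true (51 / 100 * l) l (-(201 / 100 * l)) (-(102 / 100 * l)) (-(29 / 20 * l))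
      (-(101 / 100 * l)) (-(101 / 100 * l)) (-(l / 2)) (2 * β) ((n : ℝ) - n') (XXT c β x y g g0 s1 s2) :=
    famXG hβ hβ' hx hg hg0 hX (by
      have e : sc (true, .A) = 1 := by simp [sc, chg]
      rw [e]
      linarith)
  have FY : FamA false (51 / 100 * l) l (-(201 / 100 * l)) (-(102 / 100 * l)) (-(29 / 20 * l))
      (-(101 / 100 * l)) (-(101 / 100 * l)) (-(l / 2)) (2 * β) ((n : ℝ) - n') (XXT c' β y x g' g0' t1 t2) :=
    famXG hβ hβ' hy hh hh0 hY (by
      have e : sc (false, .A) = -1 := by simp [sc, chg]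
      rw [e]
      linarith)
  refine stage2Z (bl := -(201 / 100 * l)) (bh := -(102 / 100 * l)) (sl := -(29 / 20 * l)) (sh := -(101 / 100 * l))
      (tl := -(101 / 100 * l)) (th := -(l / 2)) (gl := -(29 / 20 * l)) (gh := -(l / 2))
      (by constructor <;> linarith) ⟨le_rfl, by linarith⟩ ⟨by linarith, by linarith⟩
      ⟨by linarith, by linarith⟩ (κ := 2 * β) hκ n n'
      ⟨(FX.mono (al' := 51 / 100 * l) (ah' := 51 / 100 * l) le_rfl (by linarith) le_rfl le_rfl
        le_rfl le_rfl le_rfl le_rfl).toFam, split_XXG hβ hβ' hx hX⟩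
      ⟨(FY.mono (al' := 51 / 100 * l) (ah' := 51 / 100 * l) le_rfl (by linarith) le_rfl le_rfl
        le_rfl le_rfl le_rfl le_rfl).toFam, split_XXG hβ hβ' hy hY⟩ lnX lnY ?_ ?_
  · intro p p' k k' i
    have := hlX p p' k k' i
    rcases hki : k i with _ | _ | _ <;> rw [hki] at this <;> simpa only [lo4] using this
  · intro p p' k k' i
    have := hlY p p' k k' i
    rcases hki : k' i with _ | _ | _ <;> rw [hki] at this <;> simpa only [lo4] using this

end stage

end PLTX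

end
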