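import Pool.Agent.PLT.DZT

/-!
# Rows of a general direction: the class formula before the holes

Rows `RwT c0` (real parts in `[-l / 2 - c0, l / 2 - c0]`, `0 ≤ c0 < l / 2`).

* `TTT` : the one body function of the strings T without its poles at the rows, `TTT_eq`; **`TTU_TTT`** : on the line
  `-l / 2` it is the landed `TTU`;
* `XXT` : the one body functions of the four kinds; `XXT_XXU` : on the lines they are the landed `XXU`;
* `SpTq` : `SpW6` gives the spectators; `famXT` : the strips A `[51/100 l, l]`, L `[-201/100 l, -102/100 l]`,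
  S `[-29/20 l, -101/100 l]`, T `[-101/100 l, -l/2]`;
* **`stageXT`**, **`DZU_clsT`** : `DZU` (centred rows) `= ZobjQ (XXU ..) (51/100 l) ..` for all final lines in the strips.
-/

set_option autoImplicit false
set_option linter.unusedSectionVars false
set_option linter.unusedVariables false

noncomputable section

open Complex MeasureTheory Filter Topology

namespace PLTX

open NUP1 NUP1S NUP1.Bd NURow
open NUP1.N (Z3 Gr0)
open NUP1.Leg (hr)
open PBX (Rws ph GOk measurable_ph im_le box bdd_glueR)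
open Pool.Agent.PLX

variable {m M : ℕ} {c0 : ℝ}

/-! ### the row factor -/

section row

variable {c : ℂ} {x : Fin m → ℂ} {y : Fin M → ℂ}

theorem RRU_cen (c : ℂ) (x : Fin m → ℂ) (y : Fin M → ℂ) (u : ℂ) :
    RRU c (cen c0 x) (cen c0 y) (u + c0) = RRU c x y u := by
  unfold RRU cen
  simp only [add_sub_add_right_eq_sub]

theorem bdd_RRT (c : ℂ) (hx : RwT c0 x) (hy : RwT c0 y) {K : Set ℝ} (hK : IsCompact K)
    (h : NPr (l / 2) ((fun d => d + c0) '' K)) : Bdd K (2 * ((M : ℝ) - m)) (RRU c x y) := by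
  have := Bdd_cen (bdd_RRU c hx.cen hy.cen (isCompact_cen hK) h)
  simpa only [RRU_cen] using this

theorem diffAt_RRT (c : ℂ) {K : Set ℝ} (h : NPr (l / 2) ((fun d => d + c0) '' K)) (hx : RwT c0 x) {z : ℂ}
    (hz : z.re ∈ K) : DifferentiableAt ℂ (RRU c x y) z := by
  have h1 := diffAt_RRU (y := cen c0 y) c h hx.cen (z := z + c0) ⟨z.re, hz, by simp⟩
  have h2 := h1.comp z (differentiableAt_id.add_const (c0 : ℂ))
  have e : (RRU c (cen c0 x) (cen c0 y)) ∘ (fun u => id u + (c0 : ℂ)) = RRU c x y := by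
    funext u
    exact RRU_cen c x y u
  rwa [e] at h2

end row

/-- the quanta and L -/
def K1T : Set ℝ := Set.Icc (51 / 100 * l) l ∪ Set.Icc (-(201 / 100 * l)) (-(102 / 100 * l))

/-- the strings -/
def K2T : Set ℝ := Set.Icc (-(29 / 20 * l)) (-(l / 2))

theorem isCompact_K1T : IsCompact K1T := isCompact_Icc.union isCompact_Icc
theorem isCompact_K2T : IsCompact K2T := isCompact_Icc

theorem K1T_KT {x : ℝ} (h : x ∈ K1T) : x ∈ KT := by
  have hl := Bd.l_pos
  rcases h with ⟨h1, h2⟩ | ⟨h1, h2⟩ <;> constructor <;> linarith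

theorem K2T_KT {x : ℝ} (h : x ∈ K2T) : x ∈ KT := by
  have hl := Bd.l_pos
  obtain ⟨h1, h2⟩ := h
  constructor <;> linarith

theorem K2T_KT' {x : ℝ} (h : x ∈ K2T) : x - l ∈ KT := by
  have hl := Bd.l_pos
  obtain ⟨h1, h2⟩ := h
  constructor <;> linarith

section sets

variable (h0 : 0 ≤ c0) (h1 : c0 < l / 2)

include h0 h1

theorem NPr_K1T : NPr (l / 2) ((fun d => d + c0) '' K1T) := by
  have hl := Bd.l_pos
  rintro _ ⟨d, hd, rfl⟩ e he
  obtain ⟨h3, h4⟩ := abs_le.1 he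
  rcases hd with ⟨h1, h2⟩ | ⟨h1, h2⟩
  · exact NP_pos (by dsimp only; linarith) (by dsimp only; linarith)
  · exact NP_neg (by dsimp only; linarith) (by dsimp only; linarith)

theorem NPr_ST : NPr (l / 2) ((fun d => d + c0) '' Set.Icc (-(29 / 20 * l)) (-(101 / 100 * l))) := by
  have hl := Bd.l_pos
  rintro _ ⟨d, ⟨h5, h6⟩, rfl⟩ e he
  obtain ⟨h3, h4⟩ := abs_le.1 he
  exact NP_neg (by dsimp only; linarith) (by dsimp only; linarith)

theorem NPr_K2T' : NPr (l / 2) ((fun d => d + c0) '' ((fun d => d + -l) '' K2T)) := by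
  have hl := Bd.l_pos
  rintro _ ⟨_, ⟨d, ⟨h5, h6⟩, rfl⟩, rfl⟩ e he
  obtain ⟨h3, h4⟩ := abs_le.1 he
  exact NP_neg (by dsimp only; linarith) (by dsimp only; linarith)

end sets

section row2

variable {c : ℂ} {x : Fin m → ℂ} {y : Fin M → ℂ} (h0 : 0 ≤ c0) (h1 : c0 < l / 2)

include h0 h1

theorem RRT_shift_bdd (c : ℂ) (hx : RwT c0 x) (hy : RwT c0 y) :
    Bdd K2T (2 * ((M : ℝ) - m)) fun w => RRU c x y (w - l) :=
  bdd_shift_l (bdd_RRT c hx hy (isCompact_K2T.image (by fun_prop)) (NPr_K2T' h0 h1))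

theorem RRT_shift_diff (c : ℂ) (hx : RwT c0 x) {w : ℂ} (hw : w.re ∈ K2T) :
    DifferentiableAt ℂ (fun w => RRU c x y (w - l)) w := by
  refine (diffAt_RRT (y := y) c (NPr_K2T' h0 h1) hx (z := w - l) ?_).comp w
    (differentiableAt_id.sub_const _)
  refine ⟨w.re, hw, ?_⟩
  simp [sub_eq_add_neg]

end row2

/-! ### the strings T -/

section strT

variable {c : ℂ} {x : Fin m → ℂ} {y : Fin M → ℂ} {β β' : ℝ} {g g0 : ℂ → ℂ} {w : ℂ}

/-- the zeros -/
def PmT (x : Fin m → ℂ) (w : ℂ) : ℂ := ∏ i, sin (w - x i)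

/-- the row factor without the poles at the rows -/
def RgT (c : ℂ) (x : Fin m → ℂ) (y : Fin M → ℂ) (w : ℂ) : ℂ :=
  c * (∏ i, 1 / sin (w - x i - 2 * l)) * ∏ j, sin (w - y j + 3 * l) ^ 2

/-- `(1 - ph w) / PmT w` -/
def AmT (β : ℝ) (x : Fin m → ℂ) (g : ℂ → ℂ) (w : ℂ) : ℂ := (∏ i, qs β (w - x i)) * g w

/-- `(1 - ph (w - l)) / PmT w` -/
def CmT (β : ℝ) (x : Fin m → ℂ) (g : ℂ → ℂ) (w : ℂ) : ℂ := (∏ i, -qs β (-(w - x i))) * g (w - l)

/-- the one body function of the strings T, without the poles at the rows -/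
def TTT (c : ℂ) (β β' : ℝ) (x : Fin m → ℂ) (y : Fin M → ℂ) (g g0 : ℂ → ℂ) (w : ℂ) : ℂ :=
  RgT c x y w * RRU c x y (w - l) * (AmT β' x g0 w - AmT β x g w - ph β x g w * CmT β x g w)

theorem RRU_PmT (hs : ∀ i, sin (w - x i) ≠ 0) : RRU c x y w * PmT x w = RgT c x y w := by
  unfold RRU PmT RgT
  have e : (∏ i, 1 / sin (w - x i)) * (∏ i, sin (w - x i)) = 1 := by
    rw [← Finset.prod_mul_distrib]
    exact Finset.prod_eq_one fun i _ => one_div_mul_cancel (hs i)
  calc _ = ((∏ i, 1 / sin (w - x i)) * (∏ i, sin (w - x i))) * (c * (∏ i, 1 / sin (w - x i - 2 * l)) *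
        ∏ j, sin (w - y j + 3 * l) ^ 2) := by ring
    _ = _ := by rw [e, one_mul]

theorem AmT_mul (hq : ∀ i, NQ β (w - x i).re) (hs : ∀ i, sin (w - x i) ≠ 0) :
    AmT β x g w * PmT x w = 1 - ph β x g w := by
  unfold AmT PmT PBX.ph
  have e : (∏ i, qs β (w - x i)) * (∏ i, sin (w - x i)) = ∏ i, psi β (w - x i) := by
    rw [← Finset.prod_mul_distrib]
    exact Finset.prod_congr rfl fun i _ => qs_mul (hq i) (hs i)
  rw [← e]
  ring

theorem psi_shift (β : ℝ) (z : ℂ) : psi β (z - l) = psi β (-z) := by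
  unfold NUP1.psi
  have e : 2 * (β : ℂ) * (z - l) + β * l = -(2 * β * -z + β * l) := by ring
  rw [e, Complex.cos_neg]

theorem CmT_mul (hq : ∀ i, NQ β (-(w - x i)).re) (hs : ∀ i, sin (w - x i) ≠ 0) :
    CmT β x g w * PmT x w = 1 - ph β x g (w - l) := by
  unfold CmT PmT PBX.ph
  have e : (∏ i, -qs β (-(w - x i))) * (∏ i, sin (w - x i)) = ∏ i, psi β (w - l - x i) := by
    rw [← Finset.prod_mul_distrib]
    refine Finset.prod_congr rfl fun i _ => ?_
    have h1 := qs_mul (hq i) (by rw [Complex.sin_neg]; exact neg_ne_zero.2 (hs i))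
    rw [Complex.sin_neg] at h1
    rw [show w - (l : ℂ) - x i = w - x i - l by ring, psi_shift, ← h1]
    ring
  rw [← e]
  ring

theorem TTT_eq (hq : ∀ i, NQ β (w - x i).re) (hq' : ∀ i, NQ β' (w - x i).re)
    (hq'' : ∀ i, NQ β (-(w - x i)).re) (hs : ∀ i, sin (w - x i) ≠ 0) :
    TTT c β β' x y g g0 w = RRU c x y w * RRU c x y (w - l) *
      (ph β x g w * ph β x g (w - l) - ph β' x g0 w) := by
  have e1 := AmT_mul (g := g) hq hs
  have e2 := AmT_mul (g := g0) hq' hs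
  have e3 := CmT_mul (g := g) hq'' hs
  have e4 := RRU_PmT (c := c) (y := y) hs
  unfold TTT
  rw [← e4]
  have f1 : ph β x g w = 1 - AmT β x g w * PmT x w := by rw [e1]; ring
  have f2 : ph β' x g0 w = 1 - AmT β' x g0 w * PmT x w := by rw [e2]; ring
  have f3 : ph β x g (w - l) = 1 - CmT β x g w * PmT x w := by rw [e3]; ring
  rw [f2, f3, f1]
  ring

/-- **the landed function**: only the rows at real part `- l / 2` can be zeros of the sine -/
theorem TTU_TTT (hq : ∀ i, NQ β (w - x i).re) (hq' : ∀ i, NQ β' (w - x i).re)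
    (hq'' : ∀ i, NQ β (-(w - x i)).re) (hs : ∀ i, ¬ (x i).re = -(l / 2) → sin (w - x i) ≠ 0) :
    TTU c β β' x y g g0 w = TTT c β β' x y g g0 w := by
  classical
  set E : ℂ := ∏ i, (if (x i).re = -(l / 2) then 1 else sin (w - x i)) with hE
  have e1 : RgU c x y w * E = RgT c x y w := by
    unfold RgU RgT
    have e : (∏ i, if (x i).re = -(l / 2) then 1 else 1 / sin (w - x i)) * E = 1 := by
      rw [hE, ← Finset.prod_mul_distrib]
      refine Finset.prod_eq_one fun i _ => ?_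
      split_ifs with h
      · rw [one_mul]
      · exact one_div_mul_cancel (hs i h)
    calc _ = ((∏ i, if (x i).re = -(l / 2) then 1 else 1 / sin (w - x i)) * E) *
          (c * (∏ i, 1 / sin (w - x i - 2 * l)) * ∏ j, sin (w - y j + 3 * l) ^ 2) := by ring
      _ = _ := by rw [e, one_mul]
  have e2 : ∀ {b : ℝ} {k : ℂ → ℂ}, (∀ i, NQ b (w - x i).re) → PBX.Am b x k w = E * AmT b x k w := by
    intro b k hb
    unfold PBX.Am AmT
    rw [← mul_assoc, hE, ← Finset.prod_mul_distrib]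
    congr 1
    refine Finset.prod_congr rfl fun i _ => ?_
    split_ifs with h
    · rw [one_mul]
    · rw [← qs_mul (hb i) (hs i h)]
      ring
  have e3 : PBX.Cm β x g w = E * CmT β x g w := by
    unfold PBX.Cm CmT
    rw [← mul_assoc, hE, ← Finset.prod_mul_distrib]
    congr 1
    refine Finset.prod_congr rfl fun i _ => ?_
    split_ifs with h
    · rw [one_mul]
    · have h1 := qs_mul (hq'' i) (by rw [Complex.sin_neg]; exact neg_ne_zero.2 (hs i h))
      rw [Complex.sin_neg] at h1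
      rw [show w - (l : ℂ) - x i = w - x i - l by ring, psi_shift, ← h1]
      ring
  unfold TTU TTT
  rw [e2 hq, e2 hq', e3, ← e1]
  ring

/-- the sine of a difference vanishes only at the row -/
theorem sin_orT (h0 : 0 ≤ c0) (h1 : c0 < l / 2) (hx : RwT c0 x) (hw : w.re ∈ K2T) (i : Fin m) :
    w - x i = 0 ∨ sin (w - x i) ≠ 0 := by
  have hl := Bd.l_pos
  have hpi := Bd.pi_eq
  obtain ⟨h2, h3⟩ := T_range h0 h1 hx (K2T_KT hw) i
  by_cases h4 : w - x i = 0
  · exact Or.inl h4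
  · exact Or.inr (NUP1.sin_ne (by rw [sub_re]; linarith) (by rw [sub_re]; linarith) h4)

theorem NQ_negT (hβ : 0 < β) (hβ' : β ≤ 4 / 3) (h0 : 0 ≤ c0) (h1 : c0 < l / 2) (hx : RwT c0 x)
    (hw : w.re ∈ K2T) (i : Fin m) : NQ β (-(w - x i)).re := by
  have hl := Bd.l_pos
  have a := hx.lo i
  have b := hx.hi i
  obtain ⟨h2, h3⟩ := hw
  refine NQ_strip hβ hβ' ?_ ?_ <;> rw [neg_re, sub_re] <;> linarith

theorem diffAt_TTT (c : ℂ) (h0 : 0 ≤ c0) (h1 : c0 < l / 2) (hβ : 0 < β) (hβ1 : β ≤ 4 / 3) (hβ' : 0 < β')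
    (hβ1' : β' ≤ 4 / 3) (hx : RwT c0 x) (hg : GOn KT β g) (hg0 : GOn K2T β' g0) (hw : w.re ∈ K2T) :
    DifferentiableAt ℂ (TTT c β β' x y g g0) w := by
  have hl := Bd.l_pos
  have hK := K2T_KT hw
  have hK' : (w - l).re ∈ KT := by
    have := K2T_KT' hw
    simpa using this
  have hR : DifferentiableAt ℂ (RgT c x y) w := by
    unfold RgT
    refine ((differentiableAt_const c).mul ?_).mul ?_
    · refine DifferentiableAt.fun_finsetProd fun i _ => ?_
      have hs : sin (w - x i - 2 * l) ≠ 0 := by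
        refine Bd.sin_ne_zero_of_re ?_
        have e : (w - x i - 2 * l).re = w.re - (x i).re - 2 * l := by simp
        obtain ⟨h4, h5⟩ := T_range h0 h1 hx hK i
        rw [e]
        exact NURow.sin_ne_neg (by linarith) (by linarith)
      fun_prop (disch := exact hs)
    · refine DifferentiableAt.fun_finsetProd fun i _ => ?_
      fun_prop
  have hA : ∀ {b : ℝ} {k : ℂ → ℂ}, 0 < b → b ≤ 4 / 3 → DifferentiableAt ℂ k w →
      DifferentiableAt ℂ (AmT b x k) w := by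
    intro b k a0 a1 hk
    unfold AmT
    refine DifferentiableAt.mul ?_ hk
    refine DifferentiableAt.fun_finsetProd fun i _ => ?_
    exact (differentiableAt_qs (NQ_T a0 a1 h0 h1 hx hK i) (sin_orT h0 h1 hx hw i)).comp w
      (differentiableAt_id.sub_const _)
  have hC : DifferentiableAt ℂ (CmT β x g) w := by
    unfold CmT
    refine DifferentiableAt.mul ?_ ((hg.diff (w - l) hK').comp w
      (differentiableAt_id.sub_const _))
    refine DifferentiableAt.fun_finsetProd fun i _ => ?_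
    refine ((differentiableAt_qs (NQ_negT hβ hβ1 h0 h1 hx hw i) ?_).comp w
      ((differentiableAt_id.sub_const _).neg)).neg
    rcases sin_orT h0 h1 hx hw i with h2 | h2
    · left
      rw [h2, neg_zero]
    · right
      rw [Complex.sin_neg]
      exact neg_ne_zero.2 h2
  unfold TTT
  exact (hR.mul (RRT_shift_diff h0 h1 c hx hw)).mul (((hA hβ' hβ1' (hg0.diff w hw)).sub
    (hA hβ hβ1 (hg.diff w hK))).sub ((diffAt_phT hβ hβ1 h0 h1 hx (fun t ht => ht) hg hK).mul hC))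

theorem measurable_TTT (c : ℂ) (β β' : ℝ) (x : Fin m → ℂ) (y : Fin M → ℂ) (hg : Measurable g)
    (hg0 : Measurable g0) : Measurable (TTT c β β' x y g g0) := by
  have hA : ∀ {b : ℝ} {k : ℂ → ℂ}, Measurable k → Measurable (AmT b x k) := by
    intro b k hk
    unfold AmT
    exact Measurable.mul (Finset.measurable_prod _ fun i _ =>
      (measurable_qs b).comp (measurable_id.sub_const _)) hk
  have hC : Measurable (CmT β x g) := by
    unfold CmT
    exact Measurable.mul (Finset.measurable_prod _ fun i _ =>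
      ((measurable_qs β).comp (measurable_id.sub_const _).neg).neg)
      (hg.comp (measurable_id.sub_const _))
  have hR : Measurable (RgT c x y) := by
    unfold RgT
    fun_prop
  unfold TTT
  exact (hR.mul ((measurable_RRU c x y).comp (measurable_id.sub_const _))).mul
    (((hA hg0).sub (hA hg)).sub ((measurable_ph β x hg).mul hC))

/-- **The strings T decay on strips containing the rows.** -/
theorem bdd_TTT (c : ℂ) (h0 : 0 ≤ c0) (h1 : c0 < l / 2) (hβ : 0 < β) (hββ' : β ≤ β') (hβ1' : β' ≤ 4 / 3)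
    (hx : RwT c0 x) (hy : RwT c0 y) (hg : GOn KT β g) (hg0 : GOn K2T β' g0) :
    Bdd K2T (-(2 * β) + 4 * ((M : ℝ) - m)) (TTT c β β' x y g g0) := by
  have hβ' : 0 < β' := hβ.trans_le hββ'
  have hβ1 : β ≤ 4 / 3 := hββ'.trans hβ1'
  have hl := Bd.l_pos
  obtain ⟨C1, R1, hC1, g1⟩ := Gr_RRU c l (-(49 / 20 * l)) x y
  obtain ⟨C2, hC2, g2⟩ := RRT_shift_bdd h0 h1 c hx hy
  obtain ⟨C3, hC3, g3⟩ := bdd_phT hβ hβ1 h0 h1 hx (fun t ht => ht) hg
  obtain ⟨C4, hC4, g4⟩ := bdd_phT hβ' hβ1' h0 h1 hx (fun t ht => K2T_KT ht) hg0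
  refine bdd_glueR (R := max R1 (1 + ∑ j, |(x j).im|)) isCompact_K2T
    (fun z hz => (diffAt_TTT c h0 h1 hβ hβ1 hβ' hβ1' hx hg hg0 hz).continuousAt)
    ⟨C1 * C2 * (C3 * C3 + C4), by positivity, fun z hz hi => ?_⟩
  have hK := K2T_KT hz
  have hK' : (z - l).re ∈ KT := by
    have := K2T_KT' hz
    simpa using this
  have hi1 := (le_max_left _ _).trans hi
  have hi2 := (le_max_right _ _).trans hi
  have hs : ∀ i, sin (z - x i) ≠ 0 := by
    intro i
    refine NUP1.sin_ne_im ?_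
    rw [sub_im]
    intro h2
    have h3 : z.im = (x i).im := by linarith
    have h4 := im_le x i
    rw [h3] at hi2
    linarith
  rw [TTT_eq (fun i => NQ_T hβ hβ1 h0 h1 hx hK i) (fun i => NQ_T hβ' hβ1' h0 h1 hx hK i)
    (fun i => NQ_negT hβ hβ1 h0 h1 hx hz i) hs, norm_mul, norm_mul]
  have a1 : ‖RRU c x y z‖ ≤ C1 * Real.exp (2 * ((M : ℝ) - m) * |z.im|) := g1 z hK.1 hK.2 hi1
  have a2 : ‖RRU c x y (z - l)‖ ≤ C2 * Real.exp (2 * ((M : ℝ) - m) * |z.im|) := g2 z hz
  have a3 := g3 z hK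
  have a4 := g3 (z - l) hK'
  have a5 := g4 z hz
  have e1 : (z - (l : ℂ)).im = z.im := by simp
  rw [e1] at a4
  have b1 : Real.exp (-(2 * β) * |z.im|) ≤ 1 := by
    rw [Real.exp_le_one_iff]
    have := abs_nonneg z.im
    nlinarith
  have b2 : Real.exp (-(2 * β') * |z.im|) ≤ Real.exp (-(2 * β) * |z.im|) := by
    refine Real.exp_le_exp.2 ?_
    have := abs_nonneg z.im
    nlinarith
  have hE := (Real.exp_pos (-(2 * β) * |z.im|)).le
  have a6 : ‖ph β x g z * ph β x g (z - l) - ph β' x g0 z‖ ≤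
      (C3 * C3 + C4) * Real.exp (-(2 * β) * |z.im|) := by
    refine (norm_sub_le _ _).trans ?_
    rw [norm_mul, add_mul]
    refine add_le_add ?_ ?_
    · calc ‖ph β x g z‖ * ‖ph β x g (z - l)‖ ≤
          (C3 * Real.exp (-(2 * β) * |z.im|)) * (C3 * 1) :=
            mul_le_mul a3 (a4.trans (mul_le_mul_of_nonneg_left b1 hC3)) (norm_nonneg _)
              (by positivity)
        _ = _ := by ring
    · exact a5.trans (mul_le_mul_of_nonneg_left b2 hC4)
  calc _ ≤ (C1 * Real.exp (2 * ((M : ℝ) - m) * |z.im|)) * (C2 * Real.exp (2 * ((M : ℝ) - m) * |z.im|)) *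
          ((C3 * C3 + C4) * Real.exp (-(2 * β) * |z.im|)) :=
        mul_le_mul (mul_le_mul a1 a2 (norm_nonneg _) (by positivity)) a6 (norm_nonneg _) (by positivity)
    _ = _ := by
        have e2 : Real.exp ((-(2 * β) + 4 * ((M : ℝ) - m)) * |z.im|) = Real.exp (2 * ((M : ℝ) - m) * |z.im|) *
            Real.exp (2 * ((M : ℝ) - m) * |z.im|) * Real.exp (-(2 * β) * |z.im|) := by
          rw [← Real.exp_add, ← Real.exp_add]
          congr 1
          ring
        rw [e2]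
        ring

end strT

/-! ### spectators -/

/-- spectators of a species: `s1` for quanta, `s2` for strings, charge `-Q` -/
structure SpecT (c : Bool) (Q : ℝ) (s1 s2 : ℂ → ℂ) : Prop where
  m1 : Measurable s1
  m2 : Measurable s2
  b1 : Bdd K1T (-(2 * Q * sc (c, .A))) s1
  b2 : Bdd K2T (-(2 * Q * sc (c, .S))) s2
  d1 : ∀ z : ℂ, z.re ∈ K1T → DifferentiableAt ℂ s1 z
  d2 : ∀ z : ℂ, z.re ∈ K2T → DifferentiableAt ℂ s2 z
  mul : ∀ z : ℂ, z.re = -(101 / 100 * l) → s2 z = s1 z * s1 (z - l)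

theorem SpW6.specT {a : Bool} {q : ℝ} {s : ℂ → ℂ} (h : SpW6 (sc (a, .A) * q) s) :
    SpecT a (-q) s (fun w => s w * s (w - l)) := by
  have hl := lpos
  have d1 : ∀ z : ℂ, z.re ∈ K1T → DifferentiableAt ℂ s z := by
    rintro z (⟨h1, h2⟩ | ⟨h1, h2⟩)
    · exact h.diff z (by linarith) (by linarith)
    · exact h.diff z (by linarith) (by linarith)
  refine ⟨h.meas, h.meas.mul (h.meas.comp (measurable_id.sub_const _)), ?_, h.specP.b2, d1, h.specP.d2,
    fun z _ => rfl⟩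
  have h1 := PBX.Bdd_of_Gr (K := K1T) isCompact_K1T (α := 21 / 20 * l) (β := -(49 / 20 * l))
    (s := 2 * (sc (a, .A) * q)) (by
      rintro r (⟨h1, h2⟩ | ⟨h1, h2⟩)
      · constructor <;> linarith
      · constructor <;> linarith) h.gr (fun z hz => (d1 z hz).continuousAt)
  exact h1.rate (by ring)

/-! ### the data -/

/-- one body functions of the four kinds -/
def XXT (c : ℂ) (β : ℝ) (x : Fin m → ℂ) (y : Fin M → ℂ) (g g0 s1 s2 : ℂ → ℂ) : Option O3 → ℂ → ℂ
  | none, u => RRU c x y u * ph β x g u * s1 u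
  | some .L, u => RRU c x y u * ph β x g u * s1 u
  | some .S, w => RRU c x y w * RRU c x y (w - l) * ph (4 / 3) x g0 w * s2 w
  | some .T, w => TTT c β (4 / 3) x y g g0 w * s2 w

section data

variable {c : ℂ} {x : Fin m → ℂ} {y : Fin M → ℂ} {β : ℝ} {g g0 s1 s2 : ℂ → ℂ} {b : Bool} {Q Q' : ℝ}

/-- **on the lines the landed functions** -/
theorem XXT_XXU (h0 : 0 ≤ c0) (h1 : c0 < l / 2) (hβ : 0 < β) (hβ' : β ≤ 4 / 3) (hx : RwT c0 x)
    (k : Option O3) {z : ℂ} (hz : k = some .T → z.re = -(l / 2)) :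
    XXU c β x y g g0 s1 s2 k z = XXT c β x y g g0 s1 s2 k z := by
  have hl := Bd.l_pos
  rcases k with _ | k
  · rfl
  · cases k
    · rfl
    · rfl
    · have hz' := hz rfl
      have hK : z.re ∈ K2T := by
        rw [hz']
        exact ⟨by linarith, le_rfl⟩
      show TTU c β (4 / 3) x y g g0 z * s2 z = TTT c β (4 / 3) x y g g0 z * s2 z
      rw [TTU_TTT (fun i => NQ_T hβ hβ' h0 h1 hx (K2T_KT hK) i)
        (fun i => NQ_T (by norm_num) le_rfl h0 h1 hx (K2T_KT hK) i)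
        (fun i => NQ_negT hβ hβ' h0 h1 hx hK i) (fun i hi => ?_)]
      rcases sin_orT h0 h1 hx hK i with h2 | h2
      · exfalso
        apply hi
        have : (z - x i).re = 0 := by rw [h2, zero_re]
        rw [sub_re, hz'] at this
        linarith
      · exact h2

variable (h0 : 0 ≤ c0) (h1 : c0 < l / 2)

include h0 h1

theorem bdd_GXT (hβ : 0 < β) (hβ' : β ≤ 4 / 3) (hx : RwT c0 x) (hy : RwT c0 y) (hg : GOn KT β g)
    (h : SpecT b Q' s1 s2) (hQ : Q * sc (b, .A) = Q' * sc (b, .A) - ((M : ℝ) - m)) :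
    Bdd K1T (-(2 * β) + -(2 * Q * sc (b, .A))) (GXU c β x y g s1) := by
  have h2 := bdd_RRT c hx hy isCompact_K1T (NPr_K1T h0 h1)
  have h3 : Bdd K1T (-(2 * β)) (ph β x g) := Bdd.mono_set (bdd_phT hβ hβ' h0 h1 hx (fun t ht => ht) hg)
    fun x hx => K1T_KT hx
  exact ((h2.mul h3).mul h.b1).rate (by linarith)

theorem diffAt_GXT (hβ : 0 < β) (hβ' : β ≤ 4 / 3) (hx : RwT c0 x) (hg : GOn KT β g)
    (h : SpecT b Q' s1 s2) {z : ℂ} (hz : z.re ∈ K1T) :
    DifferentiableAt ℂ (GXU c β x y g s1) z :=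
  ((diffAt_RRT c (NPr_K1T h0 h1) hx hz).mul (diffAt_phT hβ hβ' h0 h1 hx (fun t ht => ht) hg
    (K1T_KT hz))).mul (h.d1 z hz)

theorem S_K2T {t : ℝ} (h : t ∈ Set.Icc (-(29 / 20 * l)) (-(101 / 100 * l))) : t ∈ K2T := by
  have hl := Bd.l_pos
  exact ⟨h.1, by linarith [h.2]⟩

theorem T_K2T {t : ℝ} (h : t ∈ Set.Icc (-(101 / 100 * l)) (-(l / 2))) : t ∈ K2T := by
  have hl := Bd.l_pos
  exact ⟨by linarith [h.1], h.2⟩

theorem bdd_SXT (hx : RwT c0 x) (hy : RwT c0 y) (hg0 : GOn K2T (4 / 3) g0) (h : SpecT b Q' s1 s2)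
    (hQ : Q * sc (b, .A) = Q' * sc (b, .A) - ((M : ℝ) - m)) :
    Bdd (Set.Icc (-(29 / 20 * l)) (-(101 / 100 * l))) (-(2 * (4 / 3)) + -(2 * Q * sc (b, .S)))
      (fun w => RRU c x y w * RRU c x y (w - l) * ph (4 / 3) x g0 w * s2 w) := by
  have a1 := bdd_RRT c hx hy isCompact_Icc (NPr_ST h0 h1)
  have a2 : Bdd (Set.Icc (-(29 / 20 * l)) (-(101 / 100 * l))) (2 * ((M : ℝ) - m)) (fun w => RRU c x y (w - l)) :=
    Bdd.mono_set (RRT_shift_bdd h0 h1 c hx hy) fun x hx => S_K2T h0 h1 hx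
  have a3 : Bdd (Set.Icc (-(29 / 20 * l)) (-(101 / 100 * l))) (-(2 * (4 / 3))) (ph (4 / 3) x g0) :=
    Bdd.mono_set (bdd_phT (by norm_num) le_rfl h0 h1 hx (fun t ht => K2T_KT ht) hg0) fun x hx => S_K2T h0 h1 hx
  exact (((a1.mul a2).mul a3).mul (Bdd.mono_set h.b2 fun x hx => S_K2T h0 h1 hx)).rate (by
    rw [sc_S]
    linarith)

theorem diffAt_SXT (hx : RwT c0 x) (hg0 : GOn K2T (4 / 3) g0) (h : SpecT b Q' s1 s2) {z : ℂ}
    (hz : z.re ∈ Set.Icc (-(29 / 20 * l)) (-(101 / 100 * l))) :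
    DifferentiableAt ℂ (fun w => RRU c x y w * RRU c x y (w - l) * ph (4 / 3) x g0 w * s2 w) z :=
  (((diffAt_RRT c (NPr_ST h0 h1) hx hz).mul (RRT_shift_diff h0 h1 c hx (S_K2T h0 h1 hz))).mul
    (diffAt_phT (by norm_num) le_rfl h0 h1 hx (fun t ht => K2T_KT ht) hg0 (S_K2T h0 h1 hz))).mul
      (h.d2 z (S_K2T h0 h1 hz))

theorem diffAt_XXT (hβ : 0 < β) (hβ' : β ≤ 4 / 3) (hx : RwT c0 x) (hg : GOn KT β g)
    (hg0 : GOn K2T (4 / 3) g0) (h : SpecT b Q' s1 s2) (k : Option O3) {z : ℂ}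
    (hz : z.re ∈ Set.Icc (lo4 (51 / 100 * l) (-(201 / 100 * l)) (-(29 / 20 * l)) (-(101 / 100 * l)) k)
      (lo4 l (-(102 / 100 * l)) (-(101 / 100 * l)) (-(l / 2)) k)) :
    DifferentiableAt ℂ (XXT c β x y g g0 s1 s2 k) z := by
  rcases k with _ | k
  · exact diffAt_GXT h0 h1 hβ hβ' hx hg h (Or.inl hz)
  · cases k
    · exact diffAt_GXT h0 h1 hβ hβ' hx hg h (Or.inr hz)
    · exact diffAt_SXT h0 h1 hx hg0 h hz
    · exact (diffAt_TTT c h0 h1 hβ hβ' (by norm_num) le_rfl hx hg hg0 (T_K2T h0 h1 hz)).mul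
        (h.d2 z (T_K2T h0 h1 hz))

/-- **the one body functions on the strips** -/
theorem famXT (hβ : 0 < β) (hβ' : β ≤ 4 / 3) (hx : RwT c0 x) (hy : RwT c0 y) (hg : GOn KT β g)
    (hg0 : GOn K2T (4 / 3) g0) (h : SpecT b Q' s1 s2)
    (hQ : Q * sc (b, .A) = Q' * sc (b, .A) - ((M : ℝ) - m)) :
    FamA b (51 / 100 * l) l (-(201 / 100 * l)) (-(102 / 100 * l)) (-(29 / 20 * l))
      (-(101 / 100 * l)) (-(101 / 100 * l)) (-(l / 2)) (2 * β) Q (XXT c β x y g g0 s1 s2) where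
  meas k := by
    have a1 := measurable_RRU c x y
    have a2 := measurable_ph β x hg.meas
    have a3 := measurable_ph (4 / 3) x hg0.meas
    have a4 := measurable_TTT c β (4 / 3) x y hg.meas hg0.meas
    rcases k with _ | k
    · exact (a1.mul a2).mul h.m1
    · cases k
      · exact (a1.mul a2).mul h.m1
      · exact ((a1.mul (a1.comp (measurable_id.sub_const _))).mul a3).mul h.m2
      · exact a4.mul h.m2
  dec k := by
    have hl := Bd.l_pos
    rcases k with _ | k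
    · refine DecOn_of (Bdd.mono_set (bdd_GXT h0 h1 hβ hβ' hx hy hg h hQ) ?_)
        (by simp only [sc4, ob4, Option.elim]; linarith)
      intro t ht
      exact Or.inl ht
    · cases k
      · refine DecOn_of (Bdd.mono_set (bdd_GXT h0 h1 hβ hβ' hx hy hg h hQ) ?_)
          (by simp only [sc4, ob4, ob3, Option.elim]; exact le_of_eq (by cases b <;> simp [sc, chg] <;> ring))
        rintro x ⟨h1, h2⟩
        exact Or.inr ⟨h1, h2⟩
      · exact DecOn_of (bdd_SXT h0 h1 hx hy hg0 h hQ) (by simp only [sc4, ob4, ob3, Option.elim]; linarith)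
      · refine DecOn_of (Bdd.mono_set
          (((bdd_TTT c h0 h1 hβ hβ' le_rfl hx hy hg hg0).mul h.b2).rate
            (s' := -(2 * β) + -(2 * Q * sc (b, .S))) (by rw [sc_S]; linarith)) ?_)
          (by simp only [sc4, ob4, ob3, Option.elim]; linarith)
        intro t ht
        exact T_K2T h0 h1 ht
  cont k := fun z hz => (diffAt_XXT h0 h1 hβ hβ' hx hg hg0 h k
    ⟨hz.1, hz.2⟩).continuousAt.continuousWithinAt
  diff k := fun z hz => (diffAt_XXT h0 h1 hβ hβ' hx hg hg0 h k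
    ⟨hz.1.le, hz.2.le⟩).differentiableWithinAt

theorem GXT_mul (hβ : 0 < β) (hβ' : β ≤ 4 / 3) (hx : RwT c0 x) (h : SpecT b Q' s1 s2) {w : ℂ}
    (hw : w.re = -(101 / 100 * l)) : GXU c β x y g s1 w * GXU c β x y g s1 (w - l) =
      XXT c β x y g g0 s1 s2 (some .S) w + XXT c β x y g g0 s1 s2 (some .T) w := by
  have hl := Bd.l_pos
  have hK : w.re ∈ K2T := by
    rw [hw]
    exact ⟨by linarith, by linarith⟩
  have hs : ∀ i, sin (w - x i) ≠ 0 := by
    intro i
    refine Bd.sin_ne_zero_of_re ?_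
    have a := hx.lo i
    have b := hx.hi i
    rw [sub_re, hw]
    exact sin_ne_neg (by linarith) (by linarith)
  show _ = RRU c x y w * RRU c x y (w - l) * ph (4 / 3) x g0 w * s2 w +
    TTT c β (4 / 3) x y g g0 w * s2 w
  rw [TTT_eq (fun i => NQ_T hβ hβ' h0 h1 hx (K2T_KT hK) i)
    (fun i => NQ_T (by norm_num) le_rfl h0 h1 hx (K2T_KT hK) i)
    (fun i => NQ_negT hβ hβ' h0 h1 hx hK i) hs, h.mul w hw]
  unfold Pool.Agent.PLX.GXU
  ring

theorem split_XXT (hβ : 0 < β) (hβ' : β ≤ 4 / 3) (hx : RwT c0 x) (h : SpecT b Q' s1 s2) (k : Ob) (t : ℝ) :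
    oneL (51 / 100 * l) (-(201 / 100 * l)) (GXU c β x y g s1) k t =
      ∑ a ∈ Finset.univ.filter (fun a => ob4 a = k),
        one4L (51 / 100 * l) (-(201 / 100 * l)) (XXT c β x y g g0 s1 s2) a t := by
  have e : ∀ a, one4L (51 / 100 * l) (-(201 / 100 * l)) (XXT c β x y g g0 s1 s2) a t =
      XXT c β x y g g0 s1 s2 a (pt (51 / 100 * l) (-(201 / 100 * l)) (ob4 a) t) := fun _ => rfl
  unfold oneL
  cases k
  · have : (Finset.univ.filter fun a => ob4 a = Ob.A) = {none} := by decide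
    rw [this, Finset.sum_singleton, e]
    rfl
  · have : (Finset.univ.filter fun a => ob4 a = Ob.L) = {some .L} := by decide
    rw [this, Finset.sum_singleton, e]
    rfl
  · have : (Finset.univ.filter fun a => ob4 a = Ob.S) = {some .S, some .T} := by decide
    rw [this, Finset.sum_pair (by decide), e, e]
    have hw : (pt (51 / 100 * l) (-(201 / 100 * l)) .S t).re = -(101 / 100 * l) := by
      show (vl (-(201 / 100 * l) + l) t).re = _
      rw [re_vl]
      ring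
    exact GXT_mul h0 h1 hβ hβ' hx h hw

end data

/-! ### the class formula -/

section stage

variable {c c' : ℂ} {x : Fin m → ℂ} {y : Fin M → ℂ} {β : ℝ} {g g0 g' g0' s1 s2 t1 t2 : ℂ → ℂ} {q : ℝ}

/-- **the class formula on the lines of the direction** -/
theorem stageXT (h0 : 0 ≤ c0) (h1 : c0 < l / 2) (hβ : 0 < β) (hβ' : β ≤ 4 / 3) (hx : RwT c0 x) (hy : RwT c0 y)
    (hg : GOn KT β g) (hg0 : GOn K2T (4 / 3) g0) (hh : GOn KT β g') (hh0 : GOn K2T (4 / 3) g0') (n n' : ℕ)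
    (hn : (n' : ℝ) + m = n + M + q) (hX : SpecT true (-q) s1 s2) (hY : SpecT false (-q) t1 t2)
    (lnX : ∀ p p' : ℕ, (Fin p → O3) → (Fin p' → O3) → Fin p → ℝ)
    (lnY : ∀ p p' : ℕ, (Fin p → O3) → (Fin p' → O3) → Fin p' → ℝ)
    (hlX : ∀ p p' k k' i, lnX p p' k k' i ∈ Set.Icc
      (lo4 0 (-(201 / 100 * l)) (-(29 / 20 * l)) (-(101 / 100 * l)) (some (k i)))
      (lo4 0 (-(102 / 100 * l)) (-(101 / 100 * l)) (-(l / 2)) (some (k i))))
    (hlY : ∀ p p' k k' i, lnY p p' k k' i ∈ Set.Icc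
      (lo4 0 (-(201 / 100 * l)) (-(29 / 20 * l)) (-(101 / 100 * l)) (some (k' i)))
      (lo4 0 (-(102 / 100 * l)) (-(101 / 100 * l)) (-(l / 2)) (some (k' i)))) :
    Z3 (51 / 100 * l) (-(201 / 100 * l)) n n' (GXU c β x y g s1) (GXU c' β y x g' t1) =
      ZobjQ (XXT c β x y g g0 s1 s2) (XXT c' β y x g' g0' t1 t2) (51 / 100 * l) n n' lnX lnY := by
  have hl := Bd.l_pos
  have hκ : 0 < 2 * β := by linarith
  have FX : FamA true (51 / 100 * l) l (-(201 / 100 * l)) (-(102 / 100 * l)) (-(29 / 20 * l))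
      (-(101 / 100 * l)) (-(101 / 100 * l)) (-(l / 2)) (2 * β) ((n : ℝ) - n') (XXT c β x y g g0 s1 s2) :=
    famXT h0 h1 hβ hβ' hx hy hg hg0 hX (by
      have e : sc (true, .A) = 1 := by simp [sc, chg]
      rw [e]
      linarith)
  have FY : FamA false (51 / 100 * l) l (-(201 / 100 * l)) (-(102 / 100 * l)) (-(29 / 20 * l))
      (-(101 / 100 * l)) (-(101 / 100 * l)) (-(l / 2)) (2 * β) ((n : ℝ) - n') (XXT c' β y x g' g0' t1 t2) :=
    famXT h0 h1 hβ hβ' hy hx hh hh0 hY (by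
      have e : sc (false, .A) = -1 := by simp [sc, chg]
      rw [e]
      linarith)
  refine stage2Z (bl := -(201 / 100 * l)) (bh := -(102 / 100 * l)) (sl := -(29 / 20 * l)) (sh := -(101 / 100 * l))
      (tl := -(101 / 100 * l)) (th := -(l / 2)) (gl := -(29 / 20 * l)) (gh := -(l / 2))
      (by constructor <;> linarith) ⟨le_rfl, by linarith⟩ ⟨by linarith, by linarith⟩
      ⟨by linarith, by linarith⟩ (κ := 2 * β) hκ n n'
      ⟨(FX.mono (al' := 51 / 100 * l) (ah' := 51 / 100 * l) le_rfl (by linarith) le_rfl le_rfl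
        le_rfl le_rfl le_rfl le_rfl).toFam, split_XXT h0 h1 hβ hβ' hx hX⟩
      ⟨(FY.mono (al' := 51 / 100 * l) (ah' := 51 / 100 * l) le_rfl (by linarith) le_rfl le_rfl
        le_rfl le_rfl le_rfl le_rfl).toFam, split_XXT h0 h1 hβ hβ' hy hY⟩ lnX lnY ?_ ?_
  · intro p p' k k' i
    have := hlX p p' k k' i
    rcases hki : k i with _ | _ | _ <;> rw [hki] at this <;> simpa only [lo4] using this
  · intro p p' k k' i
    have := hlY p p' k k' i
    rcases hki : k' i with _ | _ | _ <;> rw [hki] at this <;> simpa only [lo4] using this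

end stage

end PLTX

end
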