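import Pool.Agent.NUKer.Cut

/-!
# Double Fourier series of smooth kernels: definitions (helper69)
-/

set_option autoImplicit false

open MeasureTheory Set Filter Topology Complex

namespace PLT.F2

open NUKer

noncomputable section

/-- six derivatives in each variable against `M ρ t ρ s` on `[-L, L]^2` -/
structure T6 (L M : ℝ) (ρ : ℝ → ℝ) (F : ℝ → ℝ → ℂ) (A B : ℕ → ℝ → ℝ → ℂ) : Prop where
  co : Continuous fun p : ℝ × ℝ => F p.1 p.2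
  a0 : A 0 = F
  b0 : B 0 = F
  ad : ∀ n, n < 6 → ∀ t s, HasDerivAt (fun t => A n t s) (A (n + 1) t s) t
  bd : ∀ n, n < 6 → ∀ t s, HasDerivAt (fun s => B n t s) (B (n + 1) t s) s
  ac : ∀ n, n ≤ 6 → ∀ s, Continuous fun t => A n t s
  bc : ∀ n, n ≤ 6 → ∀ t, Continuous fun s => B n t s
  ab : ∀ n, n ≤ 6 → ∀ t s, |t| ≤ L → |s| ≤ L → ‖A n t s‖ ≤ M * (ρ t * ρ s)
  bb : ∀ n, n ≤ 6 → ∀ t s, |t| ≤ L → |s| ≤ L → ‖B n t s‖ ≤ M * (ρ t * ρ s)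

/-- weights -/
def wf (L : ℝ) (m : ℤ) : ℝ := 1 / (1 + Real.pi * |(m : ℝ)| / L) ^ 3

end

end PLT.F2
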