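import Pool.Agent.NUKer.Cut
import Pool.Agent.PLT.F2Def

/-!
# Double Fourier series of smooth kernels, 1 (helper5, literals of helper69)

* **`four`** : the double Fourier series of a kernel supported in a square (`T6`, `wf`: PLT/F2Def; `0 ≤ M` is needed);
* `wf_sum'`, `wf_sum`, `wf_summable`.
-/

set_option autoImplicit false

open MeasureTheory Set Filter Topology Complex

namespace PLT.F2

open NUKer

noncomputable section

/-! ### One variable -/

/-- the coefficients against an integrable bound -/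
lemma coef_le {L J W : ℝ} (hL : 0 < L) (hab : -L < L) {ρ : ℝ → ℝ} (hρ : Continuous ρ) (hW : 0 ≤ W)
    (hJ : ∫ t in (-L)..L, ρ t ≤ 2 * L * J) {g : ℝ → ℂ} (hg : ∀ t, |t| ≤ L → ‖g t‖ ≤ W * ρ t) (n : ℤ) :
    ‖fourierCoeffOn hab g n‖ ≤ W * J := by
  have : Fact (0 < L - -L) := ⟨by linarith⟩
  rw [fourierCoeffOn_eq_integral, norm_smul, Real.norm_of_nonneg (by
    have : 0 < L - -L := by linarith
    positivity)]
  have h1 : ‖∫ x in (-L)..L, fourier (-n) (x : AddCircle (L - -L)) • g x‖ ≤ ∫ x in (-L)..L, W * ρ x := by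
    refine intervalIntegral.norm_integral_le_of_norm_le hab.le ?_ ((hρ.const_mul W).intervalIntegrable _ _)
    refine Eventually.of_forall fun x hx => ?_
    rw [norm_smul]
    have h2 : ‖(fourier (-n) (x : AddCircle (L - -L)) : ℂ)‖ = 1 := by
      rw [fourier_apply]
      exact Circle.norm_coe _
    rw [h2, one_mul]
    exact hg x (abs_le.2 ⟨hx.1.le, hx.2⟩)
  rw [intervalIntegral.integral_const_mul] at h1
  have h2 : W * ∫ x in (-L)..L, ρ x ≤ W * (2 * L * J) := mul_le_mul_of_nonneg_left hJ hW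
  rw [div_mul_eq_mul_div, one_mul, div_le_iff₀ (by linarith)]
  calc ‖∫ x in (-L)..L, fourier (-n) (x : AddCircle (L - -L)) • g x‖ ≤ W * (2 * L * J) := h1.trans h2
    _ = W * J * (L - -L) := by ring

/-- the Fourier series, one variable -/
lemma four1 {L : ℝ} (hL : 0 < L) (hab : -L < L) {g : ℝ → ℂ} (hg : Continuous g) (z1 : g (-L) = 0) (z2 : g L = 0)
    (hs : Summable fun n : ℤ => ‖fourierCoeffOn hab g n‖) {t : ℝ} (ht : |t| ≤ L) :
    HasSum (fun n : ℤ => fourierCoeffOn hab g n * cexp (((Real.pi * n / L * t : ℝ) : ℂ) * I)) (g t) := by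
  have hF : Fact (0 < 2 * L) := ⟨by linarith⟩
  set F : AddCircle (2 * L) → ℂ := AddCircle.liftIco (2 * L) (-L) g with hFdef
  have hFc : Continuous F := by
    apply AddCircle.liftIco_continuous
    · rw [z1, show -L + 2 * L = L by ring, z2]
    · exact hg.continuousOn
  set Fc : C(AddCircle (2 * L), ℂ) := ⟨F, hFc⟩ with hFc'
  have hcoef : ∀ n : ℤ, fourierCoeff F n = fourierCoeffOn hab g n := by
    intro n
    have := fourierCoeff_liftIco_eq (T := 2 * L) (a := -L) g n
    rw [hFdef, this]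
    congr 1
    ring
  have hsumn : Summable fun n : ℤ => ‖fourierCoeff F n‖ := by
    simp only [hcoef]
    exact hs
  have htL := abs_le.1 ht
  have h6 : HasSum (fun i => fourierCoeff F i • fourier i (t : AddCircle (2 * L)))
      (F (t : AddCircle (2 * L))) := by
    have := has_pointwise_sum_fourier_series_of_summable (f := Fc) (by
      exact Summable.of_norm hsumn) (t : AddCircle (2 * L))
    exact this
  have h7 : F (t : AddCircle (2 * L)) = g t := by
    rcases eq_or_lt_of_le htL.2 with h | h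
    · have e : (t : AddCircle (2 * L)) = ((-L : ℝ) : AddCircle (2 * L)) := by
        rw [← AddCircle.coe_add_period (2 * L) (-L), h]
        congr 1
        ring
      rw [e, h, z2, hFdef, AddCircle.liftIco_coe_apply (by constructor <;> linarith), z1]
    · rw [hFdef, AddCircle.liftIco_coe_apply]
      constructor <;> linarith
  rw [h7] at h6
  have h8 : ∀ n : ℤ, (fourierCoeff F n • fourier n (t : AddCircle (2 * L)) : ℂ) =
      fourierCoeffOn hab g n * cexp (((Real.pi * n / L * t : ℝ) : ℂ) * I) := by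
    intro n
    rw [fourier_coe_apply, smul_eq_mul, hcoef]
    congr 2
    push_cast
    field_simp
  simp only [h8] at h6
  exact h6

/-- six integrations by parts -/
lemma coef_six {L J W : ℝ} (hL : 0 < L) (hab : -L < L) {ρ : ℝ → ℝ} (hρ : Continuous ρ) (hW : 0 ≤ W)
    (hJ : ∫ t in (-L)..L, ρ t ≤ 2 * L * J) {a : ℕ → ℝ → ℂ} (hd : ∀ n, n < 6 → ∀ t, HasDerivAt (a n) (a (n + 1) t) t)
    (hc : ∀ n, n ≤ 6 → Continuous (a n)) (hz : ∀ t, L ≤ |t| → a 0 t = 0) (hb : ∀ n, n ≤ 6 → ∀ t, |t| ≤ L → ‖a n t‖ ≤ W * ρ t)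
    (m : ℤ) : ‖fourierCoeffOn hab (a 0) m‖ ≤ W * J ∧
      (m ≠ 0 → ‖fourierCoeffOn hab (a 0) m‖ ≤ (L / (Real.pi * |(m : ℝ)|)) ^ 6 * (W * J)) := by
  -- the derivatives vanish outside
  have hz' : ∀ n, n ≤ 6 → ∀ t, L ≤ |t| → a n t = 0 := by
    intro n
    induction n with
    | zero => exact fun _ => hz
    | succ n ih =>
      intro hn t ht
      have h0 := ih (by omega)
      have hout : ∀ u : ℝ, L < |u| → a (n + 1) u = 0 := by
        intro u hu
        have h1 : (a n) =ᶠ[𝓝 u] fun _ => (0 : ℂ) := by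
          filter_upwards [(isOpen_lt continuous_const continuous_abs).mem_nhds hu] with v hv
          exact h0 v (le_of_lt hv)
        exact (hd n (by omega) u).unique ((hasDerivAt_const u (0 : ℂ)).congr_of_eventuallyEq h1)
      rcases eq_or_lt_of_le ht with h2 | h2
      · -- the boundary
        have h3 : Tendsto (fun k : ℕ => a (n + 1) (t * (1 + 1 / ((k : ℝ) + 1)))) atTop (𝓝 (a (n + 1) t)) := by
          have h4 : Tendsto (fun k : ℕ => t * (1 + 1 / ((k : ℝ) + 1))) atTop (𝓝 t) := by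
            have h5 := (tendsto_one_div_add_atTop_nhds_zero_nat (𝕜 := ℝ)).const_add 1 |>.const_mul t
            rwa [add_zero, mul_one] at h5
          exact ((hc (n + 1) hn).tendsto t).comp h4
        have h4 : ∀ k : ℕ, a (n + 1) (t * (1 + 1 / ((k : ℝ) + 1))) = 0 := by
          intro k
          apply hout
          rw [abs_mul, ← h2]
          have h5 : (0 : ℝ) < 1 / ((k : ℝ) + 1) := by positivity
          rw [abs_of_pos (by linarith : (0 : ℝ) < 1 + 1 / ((k : ℝ) + 1))]
          nlinarith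
        simp only [h4] at h3
        exact (tendsto_nhds_unique h3 tendsto_const_nhds)
      · exact hout t h2
  have hLm : L ≤ |(-L : ℝ)| := by rw [abs_neg, abs_of_pos hL]
  have hLp : L ≤ |(L : ℝ)| := by rw [abs_of_pos hL]
  refine ⟨coef_le hL hab hρ hW hJ (hb 0 (by omega)) m, fun hm => ?_⟩
  have st : ∀ n, n < 6 → ‖fourierCoeffOn hab (a n) m‖ = L / (Real.pi * |(m : ℝ)|) * ‖fourierCoeffOn hab (a (n + 1)) m‖ :=
    fun n hn => coeff_step hL (fun x _ _ => hd n hn x) (hc (n + 1) (by omega)) (hz' n (by omega) _ hLm)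
      (hz' n (by omega) _ hLp) hm hab
  rw [st 0 (by omega), st 1 (by omega), st 2 (by omega), st 3 (by omega), st 4 (by omega), st 5 (by omega)]
  have h6 := coef_le hL hab hρ hW hJ (hb 6 le_rfl) m
  calc L / (Real.pi * |(m : ℝ)|) * (L / (Real.pi * |(m : ℝ)|) * (L / (Real.pi * |(m : ℝ)|) * (L / (Real.pi * |(m : ℝ)|) *
      (L / (Real.pi * |(m : ℝ)|) * (L / (Real.pi * |(m : ℝ)|) * ‖fourierCoeffOn hab (a (5 + 1)) m‖))))) =
      (L / (Real.pi * |(m : ℝ)|)) ^ 6 * ‖fourierCoeffOn hab (a 6) m‖ := by ring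
    _ ≤ _ := by gcongr

/-- the integral of the coefficients in the other order -/
lemma coef_swap {L : ℝ} (hab : -L < L) {F : ℝ → ℝ → ℂ} (hF : Continuous fun p : ℝ × ℝ => F p.1 p.2) (m n : ℤ) :
    fourierCoeffOn hab (fun s => fourierCoeffOn hab (fun t => F t s) m) n =
      fourierCoeffOn hab (fun t => fourierCoeffOn hab (fun s => F t s) n) m := by
  have : Fact (0 < L - -L) := ⟨by linarith⟩
  have h0 : ∀ k : ℤ, Continuous fun x : ℝ => (fourier (-k) (x : AddCircle (L - -L)) : ℂ) := fun k =>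
    (fourier (-k)).continuous.comp (AddCircle.continuous_mk' _)
  simp only [fourierCoeffOn_eq_integral]
  congr 1
  obtain ⟨c, hc⟩ : ∃ c : ℝ, c = 1 / (L - -L) := ⟨_, rfl⟩
  rw [← hc]
  have e1 : ∀ s : ℝ, (fourier (-n) (s : AddCircle (L - -L)) : ℂ) • (c • ∫ t in (-L)..L,
      (fourier (-m) (t : AddCircle (L - -L)) : ℂ) • F t s) = ∫ t in (-L)..L, (c : ℂ) *
        ((fourier (-n) (s : AddCircle (L - -L)) : ℂ) * ((fourier (-m) (t : AddCircle (L - -L)) : ℂ) * F t s)) := by
    intro s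
    rw [intervalIntegral.integral_const_mul, intervalIntegral.integral_const_mul, Complex.real_smul, smul_eq_mul]
    simp only [smul_eq_mul]
    ring
  have e2 : ∀ t : ℝ, (fourier (-m) (t : AddCircle (L - -L)) : ℂ) • (c • ∫ s in (-L)..L,
      (fourier (-n) (s : AddCircle (L - -L)) : ℂ) • F t s) = ∫ s in (-L)..L, (c : ℂ) *
        ((fourier (-n) (s : AddCircle (L - -L)) : ℂ) * ((fourier (-m) (t : AddCircle (L - -L)) : ℂ) * F t s)) := by
    intro t
    rw [intervalIntegral.integral_const_mul, Complex.real_smul, smul_eq_mul]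
    have e3 : ∫ s in (-L)..L, (fourier (-n) (s : AddCircle (L - -L)) : ℂ) *
        ((fourier (-m) (t : AddCircle (L - -L)) : ℂ) * F t s) = (fourier (-m) (t : AddCircle (L - -L)) : ℂ) *
        ∫ s in (-L)..L, (fourier (-n) (s : AddCircle (L - -L)) : ℂ) • F t s := by
      rw [← intervalIntegral.integral_const_mul]
      refine intervalIntegral.integral_congr fun s _ => ?_
      simp only [smul_eq_mul]
      ring
    rw [e3]
    ring
  simp only [e1, e2]
  refine intervalIntegral_intervalIntegral_swap ?_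
  have hcont : Continuous (Function.uncurry fun s t : ℝ => (c : ℂ) *
      ((fourier (-n) (s : AddCircle (L - -L)) : ℂ) * ((fourier (-m) (t : AddCircle (L - -L)) : ℂ) * F t s))) := by
    have k1 : Continuous fun p : ℝ × ℝ => (fourier (-n) (p.1 : AddCircle (L - -L)) : ℂ) := (h0 n).comp continuous_fst
    have k2 : Continuous fun p : ℝ × ℝ => (fourier (-m) (p.2 : AddCircle (L - -L)) : ℂ) := (h0 m).comp continuous_snd
    have k3 : Continuous fun p : ℝ × ℝ => F p.2 p.1 := hF.comp continuous_swap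
    exact continuous_const.mul (k1.mul (k2.mul k3))
  exact (hcont.continuousOn.integrableOn_compact (isCompact_Icc.prod isCompact_Icc)).mono_set
    (Set.prod_mono (uIoc_subset_uIcc.trans_eq (uIcc_of_le hab.le)) (uIoc_subset_uIcc.trans_eq (uIcc_of_le hab.le)))

/-- the coefficient depends continuously on the parameter -/
lemma coef_cont {L : ℝ} (hab : -L < L) {F : ℝ → ℝ → ℂ} (hF : Continuous fun p : ℝ × ℝ => F p.1 p.2) (m : ℤ) :
    Continuous fun s => fourierCoeffOn hab (fun t => F t s) m := by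
  have : Fact (0 < L - -L) := ⟨by linarith⟩
  have h0 : Continuous fun x : ℝ => (fourier (-m) (x : AddCircle (L - -L)) : ℂ) :=
    (fourier (-m)).continuous.comp (AddCircle.continuous_mk' _)
  simp only [fourierCoeffOn_eq_integral]
  refine Continuous.const_smul ?_ _
  refine intervalIntegral.continuous_parametric_intervalIntegral_of_continuous' ?_ _ _
  have k2 : Continuous fun p : ℝ × ℝ => (fourier (-m) (p.2 : AddCircle (L - -L)) : ℂ) := h0.comp continuous_snd
  have k3 : Continuous fun p : ℝ × ℝ => F p.2 p.1 := hF.comp continuous_swap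
  exact k2.smul k3

/-! ### The weights -/

lemma wf_nn (L : ℝ) (m : ℤ) (hL : 0 < L) : 0 ≤ wf L m := by
  unfold wf
  positivity

lemma wf_mul {L : ℝ} (hL : 0 < L) (m : ℤ) : wf L m * (1 + Real.pi * |(m : ℝ)| / L) = 1 / (1 + Real.pi * |(m : ℝ)| / L) ^ 2 := by
  unfold wf
  have h : (0 : ℝ) < 1 + Real.pi * |(m : ℝ)| / L := by positivity
  rw [div_mul_eq_mul_div, one_mul, div_eq_div_iff (by positivity) (by positivity)]
  ring

/-- the sum of the weights, telescoping -/
lemma wf_sum' {L : ℝ} (hL : 0 < L) (s : Finset ℤ) : ∑ m ∈ s, wf L m * (1 + Real.pi * |(m : ℝ)| / L) ≤ 1 + L := by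
  obtain ⟨h, hh⟩ : ∃ h : ℝ, h = Real.pi / L := ⟨_, rfl⟩
  have hh0 : 0 < h := by rw [hh]; positivity
  have e : ∀ m : ℤ, wf L m * (1 + Real.pi * |(m : ℝ)| / L) = 1 / (1 + h * |(m : ℝ)|) ^ 2 := by
    intro m
    rw [wf_mul hL, hh]
    congr 2
    ring
  simp only [e]
  have key : ∀ N : ℕ, ∑ m ∈ Finset.Icc (-(N : ℤ)) N, 1 / (1 + h * |(m : ℝ)|) ^ 2 ≤
      1 + 2 / h * (1 - 1 / (1 + h * N)) := by
    intro N
    induction N with
    | zero => simp
    | succ N ih =>
      have e1 : Finset.Icc (-((N + 1 : ℕ) : ℤ)) ((N + 1 : ℕ) : ℤ) =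
          insert ((N + 1 : ℕ) : ℤ) (insert (-((N + 1 : ℕ) : ℤ)) (Finset.Icc (-(N : ℤ)) N)) := by
        ext x
        simp only [Finset.mem_Icc, Finset.mem_insert]
        push_cast
        omega
      rw [e1, Finset.sum_insert (by
        simp only [Finset.mem_insert, Finset.mem_Icc, not_or]
        push_cast
        omega), Finset.sum_insert (by
        simp only [Finset.mem_Icc]
        push_cast
        omega)]
      have e2 : |(((N + 1 : ℕ) : ℤ) : ℝ)| = N + 1 := by
        rw [abs_of_nonneg (by positivity)]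
        push_cast
        ring
      have e3 : |((-((N + 1 : ℕ) : ℤ) : ℤ) : ℝ)| = N + 1 := by
        rw [Int.cast_neg, abs_neg]
        exact e2
      rw [e2, e3]
      have p1 : (0 : ℝ) < 1 + h * N := by positivity
      have p2 : (0 : ℝ) < 1 + h * (N + 1) := by positivity
      have h1 : 1 / (1 + h * ((N : ℝ) + 1)) ^ 2 ≤ 1 / h * (1 / (1 + h * N) - 1 / (1 + h * ((N : ℝ) + 1))) := by
        have e4 : 1 / h * (1 / (1 + h * N) - 1 / (1 + h * ((N : ℝ) + 1))) = 1 / ((1 + h * N) * (1 + h * ((N : ℝ) + 1))) := by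
          field_simp
          ring
        rw [e4]
        refine one_div_le_one_div_of_le (by positivity) ?_
        rw [sq]
        refine mul_le_mul_of_nonneg_right ?_ p2.le
        linarith
      have h2 : 1 + 2 / h * (1 - 1 / (1 + h * ((N + 1 : ℕ) : ℝ))) =
          1 + 2 / h * (1 - 1 / (1 + h * N)) + 2 * (1 / h * (1 / (1 + h * N) - 1 / (1 + h * ((N : ℝ) + 1)))) := by
        push_cast
        ring
      rw [h2]
      linarith
  obtain ⟨N, hN⟩ : ∃ N : ℕ, s ⊆ Finset.Icc (-(N : ℤ)) N := by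
    refine ⟨s.sup Int.natAbs, fun x hx => ?_⟩
    have h1 : x.natAbs ≤ s.sup Int.natAbs := Finset.le_sup (f := Int.natAbs) hx
    rw [Finset.mem_Icc]
    omega
  refine (Finset.sum_le_sum_of_subset_of_nonneg hN fun _ _ _ => by positivity).trans ((key N).trans ?_)
  have h1 : 2 / h ≤ L := by
    rw [hh, div_div_eq_mul_div, div_le_iff₀ Real.pi_pos]
    nlinarith [Real.pi_gt_three]
  have h2 : (0 : ℝ) ≤ 1 / (1 + h * N) := by positivity
  have h3 : 0 < 2 / h := by positivity
  nlinarith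

lemma wf_sum : ∀ L : ℝ, 1 ≤ L → ∀ s : Finset ℤ, ∑ m ∈ s, wf L m * (1 + Real.pi * |(m : ℝ)| / L) ≤ 2 * L := by
  intro L hL s
  have := wf_sum' (by linarith : 0 < L) s
  linarith

lemma wf_summable {L : ℝ} (hL : 0 < L) : Summable fun m : ℤ => wf L m := by
  refine summable_of_sum_le (fun m => wf_nn L m hL) fun s => (?_ : ∑ m ∈ s, wf L m ≤ 1 + L)
  refine (Finset.sum_le_sum fun m _ => ?_).trans (wf_sum' hL s)
  have h1 := wf_nn L m hL
  have h2 : 0 ≤ Real.pi * |(m : ℝ)| / L := by positivity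
  nlinarith

lemma mins {x y v C : ℝ} (hx : 0 ≤ x) (hy : 0 ≤ y) (hC : 0 ≤ C) (h0 : v ≤ C) (h1 : 0 < x → v ≤ (1 / x) ^ 6 * C)
    (h2 : 0 < y → v ≤ (1 / y) ^ 6 * C) : v ≤ 64 * C * (1 / (1 + x) ^ 3 * (1 / (1 + y) ^ 3)) := by
  obtain ⟨z, hz⟩ : ∃ z : ℝ, z = max 1 (max x y) := ⟨_, rfl⟩
  have z1 : 1 ≤ z := by rw [hz]; exact le_max_left _ _
  have z2 : x ≤ z := by rw [hz]; exact (le_max_left _ _).trans (le_max_right _ _)
  have z3 : y ≤ z := by rw [hz]; exact (le_max_right _ _).trans (le_max_right _ _)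
  have hv : v ≤ (1 / z) ^ 6 * C := by
    have hz' : z = 1 ∨ (z = x ∧ 1 ≤ x) ∨ (z = y ∧ 1 ≤ y) := by
      rcases max_choice 1 (max x y) with h | h
      · exact Or.inl (hz.trans h)
      · rw [h] at hz
        rcases max_choice x y with h' | h'
        · rw [h'] at hz
          exact Or.inr (Or.inl ⟨hz, by linarith⟩)
        · rw [h'] at hz
          exact Or.inr (Or.inr ⟨hz, by linarith⟩)
    rcases hz' with h | ⟨h, h'⟩ | ⟨h, h'⟩
    · rw [h]
      simpa using h0
    · rw [h]
      exact h1 (by linarith)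
    · rw [h]
      exact h2 (by linarith)
  refine hv.trans ?_
  have h3 : (1 + x) ^ 3 * (1 + y) ^ 3 ≤ 64 * z ^ 6 := by
    calc (1 + x) ^ 3 * (1 + y) ^ 3 ≤ (2 * z) ^ 3 * (2 * z) ^ 3 := by
          gcongr <;> linarith
      _ = 64 * z ^ 6 := by ring
  have h4 : (1 / z) ^ 6 ≤ 64 * (1 / (1 + x) ^ 3 * (1 / (1 + y) ^ 3)) := by
    rw [one_div_pow, one_div_mul_one_div, mul_one_div, div_le_div_iff₀ (by positivity) (by positivity), one_mul]
    exact h3
  calc (1 / z) ^ 6 * C ≤ 64 * (1 / (1 + x) ^ 3 * (1 / (1 + y) ^ 3)) * C := mul_le_mul_of_nonneg_right h4 hC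
    _ = _ := by ring

/-- **(F1)** the double Fourier series; support in `(-L, L)^2` -/
theorem four {L M J : ℝ} (hL : 0 < L) (hM : 0 ≤ M) {ρ : ℝ → ℝ} (hρ : Continuous ρ) (hρ0 : ∀ t, 0 ≤ ρ t)
    (hJ : ∫ t in (-L)..L, ρ t ≤ 2 * L * J) {F : ℝ → ℝ → ℂ} {A B : ℕ → ℝ → ℝ → ℂ} (h : T6 L M ρ F A B)
    (hs : ∀ t s, L ≤ |t| ∨ L ≤ |s| → F t s = 0) :
    ∃ c : ℤ → ℤ → ℂ, (∀ m n, ‖c m n‖ ≤ 64 * M * J ^ 2 * (wf L m * wf L n)) ∧
      ∀ t s, |t| ≤ L → |s| ≤ L → HasSum (fun p : ℤ × ℤ => c p.1 p.2 *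
        cexp (((Real.pi * p.1 / L * t + Real.pi * p.2 / L * s : ℝ) : ℂ) * I)) (F t s) := by
  have hab : -L < L := by linarith
  have hJ0 : 0 ≤ J := by
    have h1 : 0 ≤ ∫ t in (-L)..L, ρ t := intervalIntegral.integral_nonneg hab.le fun t _ => hρ0 t
    have h2 : 0 ≤ 2 * L * J := h1.trans hJ
    by_contra hcon
    push Not at hcon
    nlinarith
  have hx : ∀ m : ℤ, 0 ≤ Real.pi * |(m : ℝ)| / L := fun m => by positivity
  have hx0 : ∀ m : ℤ, 0 < Real.pi * |(m : ℝ)| / L → m ≠ 0 := by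
    rintro m h1 rfl
    simp at h1
  have hinv : ∀ m : ℤ, 1 / (Real.pi * |(m : ℝ)| / L) = L / (Real.pi * |(m : ℝ)|) := fun m => by
    rw [one_div_div]
  -- inner coefficients, first variable
  have inA : ∀ s, |s| ≤ L → ∀ m : ℤ, ‖fourierCoeffOn hab (fun t => F t s) m‖ ≤ M * ρ s * J ∧
      (m ≠ 0 → ‖fourierCoeffOn hab (fun t => F t s) m‖ ≤ (L / (Real.pi * |(m : ℝ)|)) ^ 6 * (M * ρ s * J)) := by
    intro s hsL m
    have h1 := coef_six hL hab hρ (mul_nonneg hM (hρ0 s)) hJ (a := fun n t => A n t s) (fun n hn t => h.ad n hn t s)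
      (fun n hn => h.ac n hn s) (fun t ht => by
        show A 0 t s = 0
        rw [h.a0]
        exact hs t s (Or.inl ht)) (fun n hn t ht => by
        refine (h.ab n hn t s ht hsL).trans (le_of_eq ?_)
        ring) m
    have e : (fun t => A 0 t s) = fun t => F t s := by rw [h.a0]
    rw [← e]
    exact h1
  have inB : ∀ t, |t| ≤ L → ∀ n : ℤ, n ≠ 0 →
      ‖fourierCoeffOn hab (fun s => F t s) n‖ ≤ (L / (Real.pi * |(n : ℝ)|)) ^ 6 * (M * ρ t * J) := by
    intro t htL m hm
    have h1 := coef_six hL hab hρ (mul_nonneg hM (hρ0 t)) hJ (a := fun n s => B n t s) (fun n hn s => h.bd n hn t s)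
      (fun n hn => h.bc n hn t) (fun s hsL => by
        show B 0 t s = 0
        rw [h.b0]
        exact hs t s (Or.inr hsL)) (fun n hn s hsL => by
        refine (h.bb n hn t s htL hsL).trans (le_of_eq ?_)
        ring) m
    have e : (fun s => B 0 t s) = fun s => F t s := by rw [h.b0]
    rw [← e]
    exact h1.2 hm
  obtain ⟨c, hc⟩ : ∃ c : ℤ → ℤ → ℂ, ∀ m n, c m n = fourierCoeffOn hab (fun s => fourierCoeffOn hab (fun t => F t s) m) n :=
    ⟨_, fun _ _ => rfl⟩
  have hcb : ∀ m n, ‖c m n‖ ≤ 64 * M * J ^ 2 * (wf L m * wf L n) := by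
    intro m n
    have h1 : ‖c m n‖ ≤ 64 * (M * J ^ 2) * (1 / (1 + Real.pi * |(m : ℝ)| / L) ^ 3 * (1 / (1 + Real.pi * |(n : ℝ)| / L) ^ 3)) := by
      refine mins (hx m) (hx n) (by positivity) ?_ (fun hm => ?_) (fun hn => ?_)
      · rw [hc]
        refine (coef_le hL hab hρ (W := M * J) (by positivity) hJ (fun s hsL => ?_) n).trans (le_of_eq (by ring))
        refine (inA s hsL m).1.trans (le_of_eq (by ring))
      · rw [hc, hinv]
        refine (coef_le hL hab hρ (W := (L / (Real.pi * |(m : ℝ)|)) ^ 6 * (M * J)) (by positivity) hJ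
          (fun s hsL => ?_) n).trans (le_of_eq (by ring))
        refine ((inA s hsL m).2 (hx0 m hm)).trans (le_of_eq (by ring))
      · rw [hc, coef_swap hab h.co, hinv]
        refine (coef_le hL hab hρ (W := (L / (Real.pi * |(n : ℝ)|)) ^ 6 * (M * J)) (by positivity) hJ
          (fun t htL => ?_) m).trans (le_of_eq (by ring))
        refine (inB t htL n (hx0 n hn)).trans (le_of_eq (by ring))
    refine h1.trans (le_of_eq ?_)
    unfold wf
    ring
  refine ⟨c, hcb, fun t s htL hsL => ?_⟩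
  have hLp : L ≤ |(L : ℝ)| := le_abs_self L
  have hLm : L ≤ |(-L : ℝ)| := by rw [abs_neg]; exact hLp
  -- the first variable
  have s1 : HasSum (fun m : ℤ => fourierCoeffOn hab (fun t => F t s) m * cexp (((Real.pi * m / L * t : ℝ) : ℂ) * I)) (F t s) := by
    refine four1 hL hab (g := fun t => F t s) (h.co.comp (continuous_id.prodMk continuous_const)) (hs _ _ (Or.inl hLm))
      (hs _ _ (Or.inl hLp)) ?_ htL
    refine Summable.of_nonneg_of_le (fun m => norm_nonneg _) (fun m => (?_ : _ ≤ 64 * (M * ρ s * J) * wf L m))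
      ((wf_summable hL).mul_left _)
    have h1 := mins (v := ‖fourierCoeffOn hab (fun t => F t s) m‖) (hx m) le_rfl
      (mul_nonneg (mul_nonneg hM (hρ0 s)) hJ0) (inA s hsL m).1 (fun hm => by
        rw [hinv]
        exact (inA s hsL m).2 (hx0 m hm)) (fun h0 => absurd h0 (lt_irrefl _))
    refine h1.trans (le_of_eq ?_)
    unfold wf
    norm_num
  -- the second variable
  have s2 : ∀ m : ℤ, HasSum (fun n : ℤ => c m n * cexp (((Real.pi * n / L * s : ℝ) : ℂ) * I))
      (fourierCoeffOn hab (fun t => F t s) m) := by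
    intro m
    have z : ∀ s', L ≤ |s'| → fourierCoeffOn hab (fun t => F t s') m = 0 := by
      intro s' hs'
      have e : (fun t => F t s') = fun _ => (0 : ℂ) := by
        funext t
        exact hs t s' (Or.inr hs')
      have : Fact (0 < L - -L) := ⟨by linarith⟩
      rw [e, fourierCoeffOn_eq_integral]
      simp
    have h1 := four1 hL hab (g := fun s => fourierCoeffOn hab (fun t => F t s) m) (coef_cont hab h.co m) (z _ hLm) (z _ hLp) (by
      refine Summable.of_nonneg_of_le (fun n => norm_nonneg _) (fun n => (?_ : _ ≤ 64 * M * J ^ 2 * wf L m * wf L n))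
        ((wf_summable hL).mul_left _)
      rw [← hc]
      refine (hcb m n).trans (le_of_eq (by ring))) hsL
    simp only [← hc] at h1
    exact h1
  have hsum : Summable fun p : ℤ × ℤ => c p.1 p.2 *
      cexp (((Real.pi * p.1 / L * t + Real.pi * p.2 / L * s : ℝ) : ℂ) * I) := by
    refine Summable.of_norm_bounded (g := fun p : ℤ × ℤ => 64 * M * J ^ 2 * (wf L p.1 * wf L p.2)) ?_ fun p => ?_
    · exact ((wf_summable hL).mul_of_nonneg (wf_summable hL) (fun m => wf_nn L m hL) (fun m => wf_nn L m hL)).mul_left _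
    · rw [norm_mul, norm_e, mul_one]
      exact hcb p.1 p.2
  have s3 := hsum.hasSum.prod_fiberwise (g := fun m : ℤ => fourierCoeffOn hab (fun t => F t s) m *
    cexp (((Real.pi * m / L * t : ℝ) : ℂ) * I)) (fun m => by
      have h1 := (s2 m).mul_right (cexp (((Real.pi * m / L * t : ℝ) : ℂ) * I))
      have e : (fun n : ℤ => c m n * cexp (((Real.pi * n / L * s : ℝ) : ℂ) * I) * cexp (((Real.pi * m / L * t : ℝ) : ℂ) * I)) =
          fun n : ℤ => c (m, n).1 (m, n).2 *
            cexp (((Real.pi * ((m, n).1 : ℤ) / L * t + Real.pi * ((m, n).2 : ℤ) / L * s : ℝ) : ℂ) * I) := by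
        funext n
        show _ = c m n * cexp (((Real.pi * m / L * t + Real.pi * n / L * s : ℝ) : ℂ) * I)
        rw [mul_assoc, ← Complex.exp_add]
        congr 2
        push_cast
        ring
      rw [e] at h1
      exact h1)
  rw [s1.unique s3]
  exact hsum.hasSum

end

end PLT.F2
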