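import Pool.Agent.PLT.F2Def

/-!
# Double Fourier series of smooth kernels: the cutoff (helper78)

`cf R t` : `1` for `|t| ≤ R`, `0` for `3/2 R ≤ |t|`; **`T6.cut`** : the cut kernel is of the same class.
-/

set_option autoImplicit false

open MeasureTheory Set Filter Topology Complex

namespace PLT.F2

open NUKer Finset

noncomputable section

/-- derivatives of the fixed bump -/
def bk (n : ℕ) (x : ℝ) : ℝ := iteratedDeriv n b0 x

lemma b0_top : ContDiff ℝ (⊤ : ℕ∞) b0 := bmp.contDiff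

lemma bk_zero : bk 0 = b0 := by
  funext x
  simp [bk]

lemma bk_deriv (n : ℕ) (x : ℝ) : HasDerivAt (bk n) (bk (n + 1) x) x := by
  have h1 : Differentiable ℝ (iteratedDeriv n b0) :=
    b0_top.differentiable_iteratedDeriv n (by exact_mod_cast ENat.natCast_lt_top n)
  have h2 := (h1 x).hasDerivAt
  have h3 : deriv (iteratedDeriv n b0) x = bk (n + 1) x := by
    unfold bk
    rw [iteratedDeriv_succ]
  rw [h3] at h2
  exact h2

lemma bk_cont (n : ℕ) : Continuous (bk n) := continuous_iff_continuousAt.2 fun x => (bk_deriv n x).continuousAt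

lemma bk_supp (n : ℕ) : HasCompactSupport (bk n) := by
  induction n with
  | zero =>
    rw [bk_zero]
    exact b0_supp
  | succ n ih =>
    have h : bk (n + 1) = deriv (bk n) := by
      funext x
      exact (bk_deriv n x).deriv.symm
    rw [h]
    exact ih.deriv

lemma bk_bound : ∃ C : ℝ, 1 ≤ C ∧ ∀ n, n ≤ 6 → ∀ x, |bk n x| ≤ C := by
  choose C hC using fun n => (bk_supp n).exists_bound_of_continuous (bk_cont n)
  refine ⟨1 + ∑ n ∈ range 7, |C n|, le_add_of_nonneg_right (sum_nonneg fun _ _ => abs_nonneg _), fun n hn x => ?_⟩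
  have h1 : |C n| ≤ ∑ n ∈ range 7, |C n| :=
    single_le_sum (f := fun n => |C n|) (fun _ _ => abs_nonneg _) (mem_range.2 (by omega))
  have h2 := hC n x
  rw [Real.norm_eq_abs] at h2
  linarith [le_abs_self (C n)]

/-- the cutoff at scale `R` and its derivatives -/
def ck (R : ℝ) (n : ℕ) (t : ℝ) : ℂ := ((bk n (t / R) / R ^ n : ℝ) : ℂ)

/-- the cutoff at scale `R` -/
def cf (R t : ℝ) : ℂ := ck R 0 t

lemma ck_deriv {R : ℝ} (_ : 0 < R) (n : ℕ) (t : ℝ) : HasDerivAt (ck R n) (ck R (n + 1) t) t := by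
  have h1 := ((bk_deriv n (t / R)).comp t ((hasDerivAt_id t).div_const R)).div_const (R ^ n)
  have h2 := h1.ofReal_comp
  unfold ck
  convert h2 using 1
  congr 1
  rw [pow_succ]
  field_simp

lemma ck_cont {R : ℝ} (hR : 0 < R) (n : ℕ) : Continuous (ck R n) :=
  continuous_iff_continuousAt.2 fun x => (ck_deriv hR n x).continuousAt

lemma cf_one {R t : ℝ} (hR : 0 < R) (ht : |t| ≤ R) : cf R t = 1 := by
  unfold cf ck
  rw [bk_zero, b0_one, pow_zero, div_one, ofReal_one]
  rw [abs_div, abs_of_pos hR, div_le_one hR]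
  exact ht

lemma cf_zero {R t : ℝ} (hR : 0 < R) (ht : 3 / 2 * R ≤ |t|) : cf R t = 0 := by
  unfold cf ck
  rw [bk_zero, b0_zero, zero_div, ofReal_zero]
  rw [abs_div, abs_of_pos hR, le_div_iff₀ hR]
  exact ht

lemma ck_norm {C R : ℝ} (hR : 1 ≤ R) (hC : ∀ n, n ≤ 6 → ∀ x, |bk n x| ≤ C) {n : ℕ} (hn : n ≤ 6) (t : ℝ) : ‖ck R n t‖ ≤ C := by
  unfold ck
  rw [Complex.norm_real, Real.norm_eq_abs, abs_div, abs_of_pos (by positivity : 0 < R ^ n)]
  exact (div_le_self (abs_nonneg _) (one_le_pow₀ hR)).trans (hC n hn _)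

/-- Leibniz sum -/
def lz (u v : ℕ → ℝ → ℂ) (n : ℕ) (t : ℝ) : ℂ := ∑ p ∈ antidiagonal n, (n.choose p.1 : ℂ) * (u p.1 t * v p.2 t)

lemma lz_zero (u v : ℕ → ℝ → ℂ) (t : ℝ) : lz u v 0 t = u 0 t * v 0 t := by
  simp [lz]

lemma lz_deriv {u v : ℕ → ℝ → ℂ} {n : ℕ} {t : ℝ} (hu : ∀ k, k ≤ n → HasDerivAt (u k) (u (k + 1) t) t)
    (hv : ∀ k, k ≤ n → HasDerivAt (v k) (v (k + 1) t) t) : HasDerivAt (lz u v n) (lz u v (n + 1) t) t := by
  have h1 : HasDerivAt (fun t => ∑ p ∈ antidiagonal n, (n.choose p.1 : ℂ) * (u p.1 t * v p.2 t))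
      (∑ p ∈ antidiagonal n, (n.choose p.1 : ℂ) * (u (p.1 + 1) t * v p.2 t + u p.1 t * v (p.2 + 1) t)) t := by
    refine HasDerivAt.fun_sum fun p hp => ?_
    have hp' := mem_antidiagonal.1 hp
    exact ((hu p.1 (by omega)).mul (hv p.2 (by omega))).const_mul _
  have h2 : lz u v (n + 1) t =
      ∑ p ∈ antidiagonal n, (n.choose p.1 : ℂ) * (u (p.1 + 1) t * v p.2 t + u p.1 t * v (p.2 + 1) t) := by
    unfold lz
    rw [sum_antidiagonal_choose_succ_mul (fun i j => u i t * v j t) n, ← sum_add_distrib]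
    refine sum_congr rfl fun p hp => ?_
    have hp' := mem_antidiagonal.1 hp
    rw [Nat.choose_symm_of_eq_add (by omega : n = p.1 + p.2)]
    ring
  rw [h2]
  exact h1

lemma lz_norm {u v : ℕ → ℝ → ℂ} {n : ℕ} {t C V : ℝ} (hC : 0 ≤ C) (hu : ∀ k, k ≤ n → ‖u k t‖ ≤ C) (hv : ∀ k, k ≤ n → ‖v k t‖ ≤ V) :
    ‖lz u v n t‖ ≤ 2 ^ n * (C * V) := by
  have h1 : ‖lz u v n t‖ ≤ ∑ p ∈ antidiagonal n, (n.choose p.1 : ℝ) * (C * V) := by
    refine (norm_sum_le _ _).trans (sum_le_sum fun p hp => ?_)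
    have hp' := mem_antidiagonal.1 hp
    rw [norm_mul, norm_mul, Complex.norm_natCast]
    exact mul_le_mul_of_nonneg_left (mul_le_mul (hu p.1 (by omega)) (hv p.2 (by omega)) (norm_nonneg _) hC) (Nat.cast_nonneg _)
  refine h1.trans (le_of_eq ?_)
  rw [← sum_mul]
  congr 1
  rw [Nat.sum_antidiagonal_eq_sum_range_succ_mk]
  exact_mod_cast Nat.sum_range_choose n

/-- **the cut kernel** -/
theorem T6.cut : ∃ C : ℝ, 1 ≤ C ∧ ∀ {L M R : ℝ} {ρ : ℝ → ℝ} {F : ℝ → ℝ → ℂ} {A B : ℕ → ℝ → ℝ → ℂ}, 1 ≤ R → T6 L M ρ F A B →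
    ∃ A' B' : ℕ → ℝ → ℝ → ℂ, T6 L (C * M) ρ (fun t s => cf R t * cf R s * F t s) A' B' := by
  obtain ⟨C, hC1, hC⟩ := bk_bound
  have hC0 : 0 ≤ C := by linarith
  refine ⟨64 * C ^ 2, by nlinarith, fun {L M R ρ F A B} hR h => ?_⟩
  have hR0 : 0 < R := by linarith
  refine ⟨fun n t s => lz (ck R) (fun k t => A k t s) n t * cf R s, fun n t s => lz (ck R) (fun k s => B k t s) n s * cf R t, ?_⟩
  have bnd : ∀ n, n ≤ 6 → ∀ t s, |t| ≤ L → |s| ≤ L → ‖lz (ck R) (fun k t => A k t s) n t‖ ≤ 64 * (C * (M * (ρ t * ρ s))) := by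
    intro n hn t s ht hs
    have h1 := lz_norm (u := ck R) (v := fun k t => A k t s) (n := n) (t := t) hC0 (fun k hk => ck_norm hR hC (hk.trans hn) t)
      (fun k hk => h.ab k (hk.trans hn) t s ht hs)
    refine h1.trans (mul_le_mul_of_nonneg_right ?_ (mul_nonneg hC0 ((norm_nonneg _).trans (h.ab 0 (by norm_num) t s ht hs))))
    calc (2 : ℝ) ^ n ≤ 2 ^ 6 := pow_le_pow_right₀ (by norm_num) hn
      _ = 64 := by norm_num
  have bnd' : ∀ n, n ≤ 6 → ∀ t s, |t| ≤ L → |s| ≤ L → ‖lz (ck R) (fun k s => B k t s) n s‖ ≤ 64 * (C * (M * (ρ t * ρ s))) := by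
    intro n hn t s ht hs
    have h1 := lz_norm (u := ck R) (v := fun k s => B k t s) (n := n) (t := s) hC0 (fun k hk => ck_norm hR hC (hk.trans hn) s)
      (fun k hk => h.bb k (hk.trans hn) t s ht hs)
    refine h1.trans (mul_le_mul_of_nonneg_right ?_ (mul_nonneg hC0 ((norm_nonneg _).trans (h.bb 0 (by norm_num) t s ht hs))))
    calc (2 : ℝ) ^ n ≤ 2 ^ 6 := pow_le_pow_right₀ (by norm_num) hn
      _ = 64 := by norm_num
  have cfc : Continuous (cf R) := ck_cont hR0 0
  exact {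
    co := by
      have c1 : Continuous fun p : ℝ × ℝ => cf R p.1 := cfc.comp continuous_fst
      have c2 : Continuous fun p : ℝ × ℝ => cf R p.2 := cfc.comp continuous_snd
      exact (c1.mul c2).mul h.co
    a0 := by
      funext t s
      rw [lz_zero, h.a0]
      unfold cf
      ring
    b0 := by
      funext t s
      rw [lz_zero, h.b0]
      unfold cf
      ring
    ad := fun n hn t s => (lz_deriv (fun k _ => ck_deriv hR0 k t) (fun k hk => h.ad k (by omega) t s)).mul_const _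
    bd := fun n hn t s => (lz_deriv (fun k _ => ck_deriv hR0 k s) (fun k hk => h.bd k (by omega) t s)).mul_const _
    ac := fun n hn s => by
      refine Continuous.mul ?_ continuous_const
      unfold lz
      refine continuous_finsetSum _ fun p hp => ?_
      have hp' := mem_antidiagonal.1 hp
      exact continuous_const.mul ((ck_cont hR0 p.1).mul (h.ac p.2 (by omega) s))
    bc := fun n hn t => by
      refine Continuous.mul ?_ continuous_const
      unfold lz
      refine continuous_finsetSum _ fun p hp => ?_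
      have hp' := mem_antidiagonal.1 hp
      exact continuous_const.mul ((ck_cont hR0 p.1).mul (h.bc p.2 (by omega) t))
    ab := fun n hn t s ht hs => by
      rw [norm_mul]
      have h1 := bnd n hn t s ht hs
      have h2 : ‖cf R s‖ ≤ C := ck_norm hR hC (by norm_num) s
      refine (mul_le_mul h1 h2 (norm_nonneg _) ((norm_nonneg _).trans h1)).trans (le_of_eq ?_)
      ring
    bb := fun n hn t s ht hs => by
      rw [norm_mul]
      have h1 := bnd' n hn t s ht hs
      have h2 : ‖cf R t‖ ≤ C := ck_norm hR hC (by norm_num) t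
      refine (mul_le_mul h1 h2 (norm_nonneg _) ((norm_nonneg _).trans h1)).trans (le_of_eq ?_)
      ring }

end

end PLT.F2
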