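import Pool.Agent.PLT.SumC

/-!
# Sea on a curve: the representation corollary of a class

**`R4C_ofC`**: `OneCC` (the one body functions of a class are bounded by its one body data), and the class
formula `Z n = FFC .. 1` on every family of curves `CurC lo hi`, give `R4CofC`.
-/

set_option autoImplicit false
set_option linter.unusedSectionVars false

noncomputable section

open Complex MeasureTheory Finset
open scoped ENNReal

namespace PLT

open NUO NUP1 NUP1S NUP1S.Ab NUP1S.AbC NUGC NUGC.PLX NUCR PHK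
open PBF.PLX (Ins)

variable {Z : Bool → Option O3 → ℂ → ℂ} {B : OB} {P : Par6} {lo hi κ x0 : ℝ} {Q : ℤ}
  {E : Set ℝ}

/-- **The representation corollary of a class.** -/
theorem R4C_ofC (h : OneCC Z B P lo hi κ x0 Q E) {aX aY : ℕ} {Zn : ℕ → ℂ}
    (hZ : ∀ D D1 : CrsC, (∀ (r : ℕ) (O : Fin r → Xo), CurC lo hi (D r O) (D1 r O)) →
      ∀ n : ℕ, Zn n = FFC Z P (n + aX) (n + aY) D D1 fun _ _ _ _ _ => 1) :
    R4CofC lo hi B P aX aY Zn := by
  intro D D1 hD n
  rw [hZ D D1 hD n]
  refine (FFC_le _).trans ((FAC_le_FncC h hD _ _).trans (le_of_eq ?_))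
  have e : 2 * (n + aX + (n + aY)) + 1 = 2 * (2 * n + (aX + aY)) + 1 := by ring
  rw [e]
  rfl

end PLT

end
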