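import Pool.Agent.PLT.ClsCrvC
import Pool.Agent.PLT.R4CC

/-!
# Sea on a curve: the class formula, from the straight line to every curve in the strip

* `QOkC.of_oneC`: `OneCC` gives the regularity `QOkC` in the strip of the offsets `lo .. hi`;
* **`FFC_straight`**: `FFC .. D D1 1 = FF6 Z P n n' 0 0 1` for every family of curves in the strip;
* **`R4C_of_six`**: a class which is the functional on the STRAIGHT line has `R4CofC`.
-/

set_option autoImplicit false
set_option linter.unusedSectionVars false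

noncomputable section

open Complex MeasureTheory Finset
open scoped ENNReal
open PLX (Fil)

namespace PLT

open NUO NUP1 NUP1S NUP1S.Ab NUP1S.AbC NUGC NUGC.PLX NUCR PHK
open PBF.PLX (Ins Crs)

variable {Z : Bool → Option O3 → ℂ → ℂ} {B : OB} {P : Par6} {lo hi κ x0 : ℝ} {Q : ℤ} {E : Set ℝ}

/-- **regularity in the strip from the one body bounds** -/
theorem QOkC.of_oneC (h : OneCC Z B P lo hi κ x0 Q E) : QOkC Z lo hi κ Q where
  kpos := h.kpos
  m s := h.meas s none
  d s u hu := h.dA s u (h.x1.trans hu.1) hu.2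
  b s := bdd_sub (h.bA s) (Set.Icc_subset_Icc h.x1 le_rfl)

/-- the straight line of (P) -/
theorem dF_zero [Fil] (h0 : lo ≤ 0) (h1 : 0 ≤ hi) :
    CurC lo hi (dF (0 : ℝ → ℝ)) (dF (0 : ℝ → ℝ)) := by
  have hl := Bd.l_pos
  have hc : CurB 0 (0 : ℝ → ℝ) 0 :=
    ⟨fun t => hasDerivAt_const t (0 : ℝ), continuous_const, fun t => by
      simp only [Pi.zero_apply, abs_zero, zero_mul, zero_div, le_refl], ⟨0, fun t => by simp⟩⟩
  refine (curC_of hc le_rfl).sub ?_ ?_
  · simpa using h0
  · simpa using h1

variable [Fil]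

/-- **The functional without insertion on every family of curves in the strip is the functional on
the straight line.** -/
theorem FFC_straight (h : QOkC Z lo hi κ Q) (hP : StC lo hi P) {D D1 : CrsC} {n n' : ℕ}
    (hD : ∀ r ≤ 2 * (n + n'), ∀ᵐ O ∂(Measure.pi fun _ : Fin r => nu),
      CurC lo hi (D r O) (D1 r O)) (hn : (n : ℤ) - n' = Q) :
    FFC Z P n n' D D1 (fun _ _ _ _ _ => 1) =
      FF6 Z P n n' (fun _ _ => 0) (fun _ _ => 0) (fun _ _ _ _ _ => 1) := by
  rw [← FFC_dF]
  exact FFC_crv h hP hD (fun r _ => Filter.Eventually.of_forall fun O =>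
    dF_zero hP.d0 hP.d0') hn

/-- **A class which is the functional on the straight line has the representation on all curves.** -/
theorem R4C_of_six (h : OneCC Z B P lo hi κ x0 Q E) (hP : StC lo hi P) {aX aY : ℕ} {Zn : ℕ → ℂ}
    (hn : (aX : ℤ) - aY = Q) (hZ : ∀ n : ℕ, Zn n =
      FF6 Z P (n + aX) (n + aY) (fun _ _ => 0) (fun _ _ => 0) fun _ _ _ _ _ => 1) :
    R4CofC lo hi B P aX aY Zn :=
  R4C_ofC h fun D D1 hD n => by
    rw [hZ n, FFC_straight (QOkC.of_oneC h) hP (fun r _ => Filter.Eventually.of_forall (hD r))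
      (by push_cast; linarith)]

end PLT

end
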