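import Pool.Agent.PLT.ExT
import Pool.Agent.PHK.ClZK6

/-!
# Rows of a general direction: the landed class functions `ZK6` at the rows `RwT c0`

* `SpWx xa q s` : the spectators `SpW6` with zeros allowed on the left of `xa` only (`xa = l / 10`: `SpW6`);
* `PhT xa xb β ro ex` : the cutoffs have no zero for `xa < Re < xb`;
* `gonT` : the cutoffs of lists of points; **`DZ_ZobjT`** : the state sum of the CENTRED rows is
  `ZobjQ (ZK6 c β ro ex g0 s true) (ZK6 .. false) (51/100 l) ..` with the uncentred rows `ro`, lines `ln6 P`;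
* **`decZT`** (`DecZ6`), **`invT_an`**, `invT_bd`, `invT_ne`, **`difZT`** (`DifZ6`), **`decQT`** (`PHK.DecZ6`).
-/

set_option autoImplicit false
set_option linter.unusedSectionVars false
set_option linter.unusedVariables false

noncomputable section

open Complex MeasureTheory Filter Topology

namespace PLTX

open NUP1 NUP1S NUP1.Bd NURow
open NUP1.N (Z3 Gr0)
open NUP1.Leg (hr)
open PBX (Rws ph GOk gP measurable_ph im_le box bdd_glueR Bdd_of_Gr Lg)
open Pool.Agent.PLX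
open PHK (Par6 GoodP6 DifZ6)

variable {c0 : ℝ}

/-! ### spectators -/

/-- **spectators of growth `exp (2 q |Im|)`, without zeros on the right of `xa`** -/
structure SpWx (xa q : ℝ) (s : ℂ → ℂ) : Prop where
  meas : Measurable s
  diff : ∀ z : ℂ, -(49 / 20 * l) ≤ z.re → z.re ≤ 21 / 20 * l → DifferentiableAt ℂ s z
  gr : Gr (21 / 20 * l) (-(49 / 20 * l)) (2 * q) s
  ne : ∀ z : ℂ, xa < z.re → z.re ≤ 21 / 20 * l → s z ≠ 0
  gri : Gr (21 / 20 * l) (-(49 / 20 * l)) (-(2 * q)) fun z => (s z)⁻¹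

theorem SpWx.to6 {xa q : ℝ} {s : ℂ → ℂ} (h : SpWx xa q s) (ha : xa ≤ 1 / 10 * l) : SpW6 q s :=
  ⟨h.meas, h.diff, h.gr, fun z h1 h2 => h.ne z (lt_of_le_of_lt ha h1) h2, h.gri⟩

theorem SpWx.of6 {q : ℝ} {s : ℂ → ℂ} (h : SpW6 q s) : SpWx (1 / 10 * l) q s :=
  ⟨h.meas, h.diff, h.gr, h.ne, h.gri⟩

theorem SpWx.mono {xa xa' q : ℝ} {s : ℂ → ℂ} (h : SpWx xa q s) (ha : xa ≤ xa') : SpWx xa' q s :=
  ⟨h.meas, h.diff, h.gr, fun z h1 h2 => h.ne z (lt_of_le_of_lt ha h1) h2, h.gri⟩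

theorem SpWx.mul {xa q r : ℝ} {s t : ℂ → ℂ} (h : SpWx xa q s) (k : SpWx xa r t) :
    SpWx xa (q + r) (fun u => s u * t u) where
  meas := h.meas.mul k.meas
  diff z h1 h2 := (h.diff z h1 h2).mul (k.diff z h1 h2)
  gr := (h.gr.mul k.gr).mono (le_of_eq (by ring))
  ne z h1 h2 := mul_ne_zero (h.ne z h1 h2) (k.ne z h1 h2)
  gri := ((h.gri.mul k.gri).mono (le_of_eq (by ring))).congr 0 fun u _ _ _ => mul_inv _ _

theorem SpWx.one {xa : ℝ} : SpWx xa 0 fun _ => 1 where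
  meas := measurable_const
  diff z _ _ := differentiableAt_const _
  gr := by
    rw [mul_zero]
    exact Gr.const 1
  ne z _ _ := one_ne_zero
  gri := by
    rw [mul_zero, neg_zero]
    simpa using (Gr.const (α := 21 / 20 * l) (β := -(49 / 20 * l)) 1)

/-- the inverse -/
theorem SpWx.inv_diff {xa q : ℝ} {s : ℂ → ℂ} (h : SpWx xa q s) (ha : -(49 / 20 * l) ≤ xa) {z : ℂ} (h1 : xa < z.re)
    (h2 : z.re ≤ 21 / 20 * l) : DifferentiableAt ℂ (fun z => (s z)⁻¹) z :=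
  (h.diff z (by linarith) h2).inv (h.ne z h1 h2)

theorem SpWx.inv_bdd {xa q : ℝ} {s : ℂ → ℂ} (h : SpWx xa q s) (ha : -(49 / 20 * l) ≤ xa) {r : ℝ} (hr : xa < r) :
    Bdd (Set.Icc r (21 / 20 * l)) (-(2 * q)) fun z => (s z)⁻¹ := by
  have hl := lpos
  refine Bdd_of_Gr (K := Set.Icc r (21 / 20 * l)) isCompact_Icc (α := 21 / 20 * l)
    (β := -(49 / 20 * l)) (s := -(2 * q)) (fun t ht => ⟨by linarith [ht.1], ht.2⟩) h.gri fun z hz =>
      (h.inv_diff ha (lt_of_lt_of_le hr hz.1) hz.2).continuousAt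

/-- the legs: the zero is at `z - 3 l` -/
theorem SpWx.leg {xa : ℝ} (ha : -(49 / 20 * l) ≤ xa) {z : ℂ} (h1 : -(9 / 10 * l) ≤ z.re)
    (h2 : z.re ≤ 3 * l + xa) (h3 : z.re ≤ 31 / 10 * l) :
    SpWx xa 0 (Lg z z) := by
  have hl := lpos
  have h := SpW6.leg (z := z) h1 h3
  refine ⟨h.meas, h.diff, h.gr, fun u h4 h5 => ?_, h.gri⟩
  unfold PBX.Lg
  refine div_ne_zero (sin_ne_re (a := z.re - u.re - 3 * l) (by simp) ?_)
    (sin_ne_re (a := z.re - u.re + 2 * l) (by simp) ?_)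
  · have := sin_pos_of (x := -(z.re - u.re - 3 * l)) (by linarith) (by linarith)
    rw [Real.sin_neg] at this
    linarith
  · exact (sin_pos_of (by linarith) (by linarith)).ne'

/-- the minus row, own group: zeros at `w`, `w + 2 l` -/
theorem SpWx.minusX {xa : ℝ} (ha : xa ≤ 1 / 10 * l) {w : ℂ} (h1 : -(47 / 50 * l) ≤ w.re) (h2 : w.re ≤ xa) :
    SpWx xa 1 (fun u => sin (u - w) * sin (u - w - 2 * l)) := by
  have hl := lpos
  have h := SpW6.minusX (w := w) h1 (h2.trans ha)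
  refine ⟨h.meas, h.diff, h.gr, fun u h3 h4 => ?_, h.gri⟩
  refine mul_ne_zero (sin_ne_re (a := u.re - w.re) (by simp) (sin_pos_of (by linarith) (by linarith)).ne')
    (sin_ne_re (a := u.re - w.re - 2 * l) (by simp) ?_)
  have := sin_pos_of (x := -(u.re - w.re - 2 * l)) (by linarith) (by linarith)
  rw [Real.sin_neg] at this
  linarith

/-- the minus row, other group: no zeros -/
theorem SpWx.minusY {xa : ℝ} (ha : -(49 / 20 * l) ≤ xa) {w : ℂ} (h1 : -(47 / 50 * l) ≤ w.re)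
    (h2 : w.re ≤ 1 / 2 * l) : SpWx xa (-1) (fun v => 1 / sin (v - w + 3 * l) ^ 2) := by
  have hl := lpos
  have h := SpW6.minusY (w := w) h1 h2
  refine ⟨h.meas, h.diff, h.gr, fun u h3 h4 => ?_, h.gri⟩
  exact one_div_ne_zero (pow_ne_zero 2 (sin_ne_re (a := u.re - w.re + 3 * l) (by simp)
    (sin_pos_of (by linarith) (by linarith)).ne'))

/-! ### the cutoffs -/

theorem gP_cen (β : ℝ) (W : List ℂ) (u : ℂ) : gP β (W.map fun w => w + (c0 : ℂ)) (u + c0) = gP β W u := by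
  unfold PBX.gP
  rw [List.map_map]
  congr 1
  refine List.map_congr_left fun w _ => ?_
  simp only [Function.comp_def, add_sub_add_right_eq_sub]

/-- **the cutoffs of lists of points** -/
theorem gonT {β : ℝ} (hβ : 0 < β) (hβ' : β ≤ 4 / 3) (h0 : 0 ≤ c0) (h1 : c0 < l / 2) {W : List ℂ}
    (hW : ∀ w ∈ W, |w.re + c0| ≤ l / 2) : GOn KT β (gP β W) := by
  have hW' : ∀ w ∈ W.map fun w => w + (c0 : ℂ), |w.re| ≤ l / 2 := by
    intro w hw
    obtain ⟨v, hv, rfl⟩ := List.mem_map.1 hw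
    simpa using hW v hv
  refine ⟨PBX.measurable_gP β W, ?_, fun z hz => ?_⟩
  · have h := Bdd_cen (PBX.bdd_gP hβ (isCompact_cen isCompact_KT) (NQr_T hβ hβ' h0 h1) hW').1
    simpa only [gP_cen] using h
  · have h := PBX.diffAt_gP (NQr_T hβ hβ' h0 h1) hW' (z := z + c0) ⟨z.re, hz, by simp⟩
    have h2 := h.comp z (differentiableAt_id.add_const (c0 : ℂ))
    have e : (gP β (W.map fun w => w + (c0 : ℂ))) ∘ (fun u => id u + (c0 : ℂ)) = gP β W := by
      funext u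
      exact gP_cen β W u
    rwa [e] at h2

variable {N : Bool → ℕ}

/-- **the cutoffs have no zero in the strip of the holes** -/
structure PhT (xa xb β : ℝ) (ro : ∀ a, Fin (N a) → ℂ) (ex : Bool → List ℂ) : Prop where
  ne : ∀ a (u : ℂ), xa < u.re → u.re < xb → ph β (ro a) (gP β (ex a)) u ≠ 0
  bd : ∀ a (r r' : ℝ), xa < r → r' < xb → Bdd (Set.Icc r r') (2 * β) fun u => (ph β (ro a) (gP β (ex a)) u)⁻¹

/-! ### the row factor -/

section row

variable {m M : ℕ} {c : ℂ} {x : Fin m → ℂ} {y : Fin M → ℂ}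

theorem sin_row3T (h0 : 0 ≤ c0) (h1 : c0 < l / 2) (hy : RwT c0 y) {u : ℂ} (h2 : 0 ≤ u.re) (h3 : u.re < l)
    (j : Fin M) : sin (u - y j + 3 * l) ≠ 0 := by
  have hl := lpos
  have a := hy.lo j
  have b := hy.hi j
  exact sin_ne_re (a := u.re - (y j).re + 3 * l) (by simp) (sin_pos_of (by linarith) (by linarith)).ne'

theorem diffAt_RRT_inv (h0 : 0 ≤ c0) (h1 : c0 < l / 2) (hy : RwT c0 y) {u : ℂ} (h2 : 0 ≤ u.re) (h3 : u.re < l) :
    DifferentiableAt ℂ (fun u => (RRU c x y u)⁻¹) u := by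
  have e : (fun u => (RRU c x y u)⁻¹) = fun u =>
    c⁻¹ * (∏ i, sin (u - x i)) * (∏ i, sin (u - x i - 2 * l)) * ∏ j, (sin (u - y j + 3 * l) ^ 2)⁻¹ :=
    funext fun u => RRU_inv u
  rw [e]
  refine ((((differentiableAt_const _).mul ?_)).mul ?_).mul ?_
  · exact DifferentiableAt.fun_finsetProd fun i _ => by fun_prop
  · exact DifferentiableAt.fun_finsetProd fun i _ => by fun_prop
  · refine DifferentiableAt.fun_finsetProd fun j _ => ?_
    have hs := pow_ne_zero 2 (sin_row3T h0 h1 hy h2 h3 j)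
    fun_prop (disch := exact hs)

theorem RRT_ne (h0 : 0 ≤ c0) (h1 : c0 < l / 2) (hc : c ≠ 0) (hx : RwT c0 x) (hy : RwT c0 y) {u : ℂ}
    (h2 : 51 / 100 * l ≤ u.re) (h3 : u.re < l) : RRU c x y u ≠ 0 := by
  have hl := lpos
  intro hz
  have h00 : (RRU c x y u)⁻¹ = 0 := by rw [hz, inv_zero]
  revert h00
  rw [RRU_inv]
  refine mul_ne_zero (mul_ne_zero (mul_ne_zero (inv_ne_zero hc) ?_) ?_) ?_
  · refine Finset.prod_ne_zero_iff.2 fun i _ => ?_
    have a := hx.lo i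
    have b := hx.hi i
    exact sin_ne_re (a := u.re - (x i).re) (by simp) (sin_pos_of (by linarith) (by linarith)).ne'
  · refine Finset.prod_ne_zero_iff.2 fun i _ => ?_
    have a := hx.lo i
    have b := hx.hi i
    have e : Real.sin (u.re - (x i).re - 2 * l) ≠ 0 := by
      have h5 := sin_pos_of (x := 2 * l - (u.re - (x i).re)) (by linarith) (by linarith)
      have e6 : u.re - (x i).re - 2 * l = -(2 * l - (u.re - (x i).re)) := by ring
      rw [e6, Real.sin_neg]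
      exact neg_ne_zero.2 h5.ne'
    exact sin_ne_re (a := u.re - (x i).re - 2 * l) (by simp) e
  · refine Finset.prod_ne_zero_iff.2 fun j _ => inv_ne_zero (pow_ne_zero 2
      (sin_row3T h0 h1 hy (by linarith) h3 j))

theorem bdd_RRT_inv (h0 : 0 ≤ c0) (h1 : c0 < l / 2) (hy : RwT c0 y) {r r' : ℝ} (hr : 0 ≤ r) (hr' : r' < l) :
    Bdd (Set.Icc r r') (2 * ((m : ℝ) - M)) fun u => (RRU c x y u)⁻¹ := by
  refine Bdd_of_Gr (K := Set.Icc r r') isCompact_Icc (α := r')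
    (β := r) (s := 2 * ((m : ℝ) - M)) (fun r hr => hr) (Gr_RRU_inv _ _) fun z hz =>
      (diffAt_RRT_inv h0 h1 hy (by linarith [hz.1]) (by linarith [hz.2])).continuousAt

end row

/-! ### the class functions -/

variable {P : Par6} {ep β : ℝ} {c : Bool → ℂ} {ro : ∀ a, Fin (N a) → ℂ}
  {ex : Bool → List ℂ} {g0 : Bool → ℂ → ℂ} {s : Bool → ℂ → ℂ} {q : ℤ}

/-- the parameters of a direction: L and S lines on the left of all rows -/
structure GoodT (P : Par6) : Prop extends GoodP6 P where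
  jL' : 101 / 50 ≤ P.jL

/-- the class functions with the removable form of T -/
def ZKT (c : Bool → ℂ) (β : ℝ) (ro : ∀ a, Fin (N a) → ℂ) (ex : Bool → List ℂ) (g0 : Bool → ℂ → ℂ)
    (s : Bool → ℂ → ℂ) : Bool → Option O3 → ℂ → ℂ := fun a =>
  XXT (c a) β (ro a) (ro (!a)) (gP β (ex a)) (g0 a) (s a) (fun w => s a w * s a (w - l))

theorem ZKT_ZK6 (h0 : 0 ≤ c0) (h1 : c0 < l / 2) (hβ : 0 < β) (hβ' : β ≤ 4 / 3) (hr : ∀ a, RwT c0 (ro a)) (a : Bool)
    (k : Option O3) {z : ℂ} (hz : k = some .T → z.re = -(l / 2)) :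
    ZK6 c β ro ex g0 s a k z = ZKT c β ro ex g0 s a k z :=
  XXT_XXU h0 h1 hβ hβ' (hr a) k hz

theorem termQ_congr {X Y X' Y' : Option O3 → ℂ → ℂ} {α : ℝ} {n n' p p' : ℕ} {k : Fin p → O3} {k' : Fin p' → O3}
    {x : Fin p → ℝ} {x' : Fin p' → ℝ} (hX0 : X none = X' none) (hY0 : Y none = Y' none)
    (hX : ∀ i (z : ℂ), z.re = x i → X (some (k i)) z = X' (some (k i)) z)
    (hY : ∀ i (z : ℂ), z.re = x' i → Y (some (k' i)) z = Y' (some (k' i)) z) :
    termQ X Y α n n' k k' x x' = termQ X' Y' α n n' k k' x x' := by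
  unfold termQ
  rw [hX0, hY0]
  congr 1
  refine integral_congr_ae (Eventually.of_forall fun t => ?_)
  dsimp only
  congr 1
  unfold Fg
  congr 1
  refine Finset.prod_congr rfl fun i _ => ?_
  rcases i with i | i
  · exact hX i _ (pos_re _ _ _)
  · exact hY i _ (pos_re _ _ _)

theorem ZobjQ_congr {X Y X' Y' : Option O3 → ℂ → ℂ} {α : ℝ} {n n' : ℕ} {ln : O3 → ℝ} (hX0 : X none = X' none)
    (hY0 : Y none = Y' none) (hX : ∀ k (z : ℂ), z.re = ln k → X (some k) z = X' (some k) z)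
    (hY : ∀ k (z : ℂ), z.re = ln k → Y (some k) z = Y' (some k) z) :
    ZobjQ X Y α n n' (fun _ _ k _ i => ln (k i)) (fun _ _ _ k' i => ln (k' i)) =
      ZobjQ X' Y' α n n' (fun _ _ k _ i => ln (k i)) (fun _ _ _ k' i => ln (k' i)) := by
  unfold ZobjQ
  refine Finset.sum_congr rfl fun p' _ => Finset.sum_congr rfl fun p _ => ?_
  congr 1
  refine Finset.sum_congr rfl fun k' _ => Finset.sum_congr rfl fun k _ => ?_
  split_ifs with h
  · exact termQ_congr hX0 hY0 (fun i z hz => hX _ z hz) fun i z hz => hY _ z hz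
  · rfl

/-- **the state sum of the centred rows on the lines of (P)** -/
theorem DZ_ZobjT (hP : GoodT P) (h0 : 0 ≤ c0) (h1 : c0 < l / 2) (hβ : 0 < β) (hβ' : β ≤ 4 / 3)
    (hr : ∀ a, RwT c0 (ro a)) (hex : ∀ a, ∀ w ∈ ex a, |w.re + c0| ≤ l / 2) (hg0 : ∀ a, GO6 (g0 a))
    (hs : ∀ a, SpW6 (sc (a, .A) * (q : ℝ)) (s a)) {n n' : ℕ} (hn : (n' : ℤ) + N true = n + N false + q) :
    DZU (c true) (c false) (fun u => s true (u - c0)) (fun u => s false (u - c0)) (cen c0 (ro true))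
        (cen c0 (ro false)) n n' =
      ZobjQ (ZK6 c β ro ex g0 s true) (ZK6 c β ro ex g0 s false) (51 / 100 * l) n n'
        (fun _ _ k _ i => ln6 P (k i)) (fun _ _ _ k' i => ln6 P (k' i)) := by
  have hl := lpos
  have hj1 := hP.jL'
  have he3 := hP.e13
  have he := hP.e45
  have hj : P.jL ≤ 27 / 10 := by linarith [hP.Lj, hP.j1e]
  have eT : sc (true, .A) * (q : ℝ) = q := by rw [sc_A]; simp
  have eF : sc (false, .A) * (q : ℝ) = -(q : ℝ) := by rw [sc_A]; simp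
  have hn' : (n' : ℝ) + N true = n + N false + (q : ℝ) := by exact_mod_cast hn
  have hsT : SpW6 (q : ℝ) (s true) := by
    rw [← eT]
    exact hs true
  have hsF : SpW6 (-(q : ℝ)) (s false) := by
    rw [← eF]
    exact hs false
  have hln : ∀ k : O3, ln6 P k ∈ Set.Icc
      (lo4 0 (-(201 / 100 * l)) (-(29 / 20 * l)) (-(101 / 100 * l)) (some k))
      (lo4 0 (-(102 / 100 * l)) (-(101 / 100 * l)) (-(l / 2)) (some k)) := by
    intro k
    cases k <;> simp only [ln6, lo4] <;> constructor <;> nlinarith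
  have gon := fun a => gonT hβ hβ' h0 h1 (hex a)
  have A1 := DZU_T (c := c true) (c' := c false) h0 h1 hβ hβ' (hr true) (hr false) (gon true) (gon false) hsT hsF hn'
  have A2 := stageXT (c := c true) (c' := c false) (g0 := g0 true) (g0' := g0 false) h0 h1 hβ hβ' (hr true)
    (hr false) (gon true) (hg0 true) (gon false) (hg0 false) n n' hn'
    (SpW6.specT (hs true)) (SpW6.specT (hs false)) (fun _ _ k _ i => ln6 P (k i)) (fun _ _ _ k' i => ln6 P (k' i))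
    (fun _ _ k _ i => hln (k i)) (fun _ _ _ k' i => hln (k' i))
  have A3 := ZobjQ_congr (ln := ln6 P) (α := 51 / 100 * l) (n := n) (n' := n') (X := ZK6 c β ro ex g0 s true)
    (Y := ZK6 c β ro ex g0 s false) (X' := ZKT c β ro ex g0 s true) (Y' := ZKT c β ro ex g0 s false)
    (funext fun z => ZKT_ZK6 (c0 := c0) h0 h1 hβ hβ' hr true none fun hk => by cases hk)
    (funext fun z => ZKT_ZK6 (c0 := c0) h0 h1 hβ hβ' hr false none fun hk => by cases hk)
    (fun k z hz => ZKT_ZK6 (c0 := c0) h0 h1 hβ hβ' hr true (some k) fun hk => by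
      cases hk
      exact hz)
    (fun k z hz => ZKT_ZK6 (c0 := c0) h0 h1 hβ hβ' hr false (some k) fun hk => by
      cases hk
      exact hz)
  rw [A3, A1, ← GXU_eq_GU, ← GXU_eq_GU]
  exact A2

/-- the data of the class functions on the strips -/
theorem famZKT (h0 : 0 ≤ c0) (h1 : c0 < l / 2) (hβ : 0 < β) (hβ' : β ≤ 4 / 3)
    (hr : ∀ a, RwT c0 (ro a)) (hex : ∀ a, ∀ w ∈ ex a, |w.re + c0| ≤ l / 2) (hg0 : ∀ a, GO6 (g0 a))
    (hs : ∀ a, SpW6 (sc (a, .A) * (q : ℝ)) (s a)) (a : Bool) :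
    FamA a (51 / 100 * l) l (-(201 / 100 * l)) (-(102 / 100 * l)) (-(29 / 20 * l))
      (-(101 / 100 * l)) (-(101 / 100 * l)) (-(l / 2)) (2 * β) (-(q : ℝ) + N true - N false)
      (ZKT c β ro ex g0 s a) :=
  famXT h0 h1 hβ hβ' (hr a) (hr (!a)) (gonT hβ hβ' h0 h1 (hex a)) (hg0 a) (SpW6.specT (hs a)) (charge_ZK a)

/-- **decay on the lines** -/
theorem decZT (hP : GoodT P) (h0 : 0 ≤ c0) (h1 : c0 < l / 2) (hβ : 0 < β) (hβ' : β ≤ 4 / 3)
    (hr : ∀ a, RwT c0 (ro a)) (hex : ∀ a, ∀ w ∈ ex a, |w.re + c0| ≤ l / 2) (hg0 : ∀ a, GF6 (ro a) (g0 a))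
    (hs : ∀ a, SpW6 (sc (a, .A) * (q : ℝ)) (s a)) :
    Pool.Agent.PLX.DecZ6 (ZK6 c β ro ex g0 s) P (51 / 100 * l) (2 * β) (-(q : ℝ) + N true - N false) := by
  have hl := lpos
  have hj1 := hP.jL'
  have he3 := hP.e13
  have he := hP.e45
  have hj : P.jL ≤ 27 / 10 := by linarith [hP.Lj, hP.j1e]
  have hsp := fun a => SpW6.specT (hs a)
  have F := fun a => famZKT (c := c) h0 h1 hβ hβ' hr hex (fun a => (hg0 a).gn) hs a
  refine ⟨fun a => (F a).dec none, fun a => ?_, fun a => ?_, fun a M => ?_⟩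
  · refine DecOn.mono ((F a).dec (some .L)) ?_
    rw [Set.singleton_subset_iff]
    constructor
    · show -(201 / 100 * l) ≤ (1 - P.jL) * l
      nlinarith
    · show (1 - P.jL) * l ≤ -(102 / 100 * l)
      nlinarith
  · obtain ⟨D, hD⟩ := (F a).dec (some .T)
    refine ⟨D, fun z hz => ?_⟩
    have hz' : z.re = -(l / 2) := hz
    rw [ZKT_ZK6 (c0 := c0) h0 h1 hβ hβ' hr a (some .T) fun _ => hz']
    refine hD z ?_
    rw [hz']
    constructor
    · show -(101 / 100 * l) ≤ -(l / 2)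
      linarith
    · show -(l / 2) ≤ -(l / 2)
      linarith
  · have b1 := bdd_RRT (c := c a) (hr a) (hr (!a)) isCompact_Icc (NPr_ST h0 h1)
    have b2 : Bdd (Set.Icc (-(29 / 20 * l)) (-(101 / 100 * l))) _ (fun w => RRU (c a) (ro a) (ro (!a)) (w - l)) :=
      Bdd.mono_set (RRT_shift_bdd h0 h1 (c a) (hr a) (hr (!a))) fun x hx => S_K2T h0 h1 hx
    have b3 : Bdd (Set.Icc (-(29 / 20 * l)) (-(101 / 100 * l))) _ (fun w => s a w * s a (w - l)) :=
      Bdd.mono_set (hsp a).b2 fun x hx => S_K2T h0 h1 hx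
    have b4 : ∀ M : ℕ, DecOn (M : ℝ) (Set.Icc (-(29 / 20 * l)) (-(101 / 100 * l))) (ph (4 / 3) (ro a) (g0 a)) :=
      fun M => DecOn.mono ((hg0 a).fast M) fun x hx => S_K2T h0 h1 hx
    have b5 := DecOn_fast ((b1.mul b2).mul b3) b4 M
    refine DecOn.mono (K' := Set.Icc (-(29 / 20 * l)) (-(101 / 100 * l))) ?_ ?_
    · obtain ⟨D, hD⟩ := b5
      refine ⟨D, fun z hz => ?_⟩
      have e : ZK6 c β ro ex g0 s a (some .S) z = RRU (c a) (ro a) (ro (!a)) z *
          RRU (c a) (ro a) (ro (!a)) (z - l) * (s a z * s a (z - l)) * ph (4 / 3) (ro a) (g0 a) z := by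
        show RRU (c a) (ro a) (ro (!a)) z * RRU (c a) (ro a) (ro (!a)) (z - l) * ph (4 / 3) (ro a) (g0 a) z *
          (s a z * s a (z - l)) = _
        ring
      rw [e]
      exact hD z hz
    · rw [Set.singleton_subset_iff]
      constructor
      · show -(29 / 20 * l) ≤ -((1 + P.e) * l)
        nlinarith
      · show -((1 + P.e) * l) ≤ -(101 / 100 * l)
        nlinarith

/-- **holomorphy of the quanta on `[51/100 l, l]`** -/
theorem diffAT (h0 : 0 ≤ c0) (h1 : c0 < l / 2) (hβ : 0 < β) (hβ' : β ≤ 4 / 3)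
    (hr : ∀ a, RwT c0 (ro a)) (hex : ∀ a, ∀ w ∈ ex a, |w.re + c0| ≤ l / 2)
    (hs : ∀ a, SpW6 (sc (a, .A) * (q : ℝ)) (s a)) (a : Bool) {u : ℂ} (h2 : 51 / 100 * l ≤ u.re) (h3 : u.re ≤ l) :
    DifferentiableAt ℂ (ZK6 c β ro ex g0 s a none) u :=
  diffAt_GXT (y := ro (!a)) h0 h1 hβ hβ' (hr a) (gonT hβ hβ' h0 h1 (hex a)) (SpW6.specT (hs a))
    (Or.inl ⟨h2, h3⟩)

section inv

variable {xa xb : ℝ} (h0 : 0 ≤ c0) (h1 : c0 < l / 2) (hβ : 0 < β) (hβ' : β ≤ 4 / 3)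
  (hr : ∀ a, RwT c0 (ro a)) (hex : ∀ a, ∀ w ∈ ex a, |w.re + c0| ≤ l / 2) (hφ : PhT xa xb β ro ex)
  (hc : ∀ a, c a ≠ 0) (hs : ∀ a, SpWx xa (sc (a, .A) * (q : ℝ)) (s a)) (hxa : 0 ≤ xa) (hxb : xb ≤ l)

theorem ZK6_inv (a : Bool) : (fun u => (ZK6 c β ro ex g0 s a none u)⁻¹) = fun u =>
      (RRU (c a) (ro a) (ro (!a)) u)⁻¹ * (ph β (ro a) (gP β (ex a)) u)⁻¹ * (s a u)⁻¹ := by
  funext u
  show (RRU (c a) (ro a) (ro (!a)) u * ph β (ro a) (gP β (ex a)) u * s a u)⁻¹ = _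
  rw [mul_inv, mul_inv]

include h0 h1 hβ hβ' hr hex hφ hs hxa hxb

theorem invT_an (a : Bool) {u : ℂ} (h2 : xa < u.re) (h3 : u.re < xb) :
    DifferentiableAt ℂ (fun u => (ZK6 c β ro ex g0 s a none u)⁻¹) u := by
  have hl := lpos
  rw [ZK6_inv]
  refine ((diffAt_RRT_inv h0 h1 (hr (!a)) (by linarith) (by linarith)).mul ?_).mul
    ((hs a).inv_diff (by linarith) (by linarith) (by linarith))
  exact (diffAt_phT hβ hβ' h0 h1 (hr a) (fun t ht => ht) (gonT hβ hβ' h0 h1 (hex a)) (z := u)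
    ⟨by linarith, by linarith⟩).inv (hφ.ne a u h2 h3)

theorem invT_bd (a : Bool) {r r' : ℝ} (h2 : xa < r) (h3 : r' < xb) :
    Bdd (Set.Icc r r') (2 * β + 2 * (-(q : ℝ) + N true - N false) * sc (a, Ob.A))
      fun u => (ZK6 c β ro ex g0 s a none u)⁻¹ := by
  have hl := lpos
  rw [ZK6_inv]
  have a1 := bdd_RRT_inv (c := c a) (x := ro a) h0 h1 (hr (!a)) (r := r) (r' := r') (by linarith) (by linarith)
  have a3 := Bdd.mono_set ((hs a).inv_bdd (by linarith) h2) (K := Set.Icc r r')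
    fun t ht => ⟨ht.1, by linarith [ht.2]⟩
  refine ((a1.mul (hφ.bd a r r' h2 h3)).mul a3).rate ?_
  have := charge_ZK (N := N) (q := q) a
  linarith

include hc

theorem invT_ne (hxa' : xa < 51 / 100 * l) (a : Bool) {u : ℂ} (h2 : 51 / 100 * l ≤ u.re) (h3 : u.re < xb) :
    ZK6 c β ro ex g0 s a none u ≠ 0 := by
  have hl := lpos
  show RRU (c a) (ro a) (ro (!a)) u * ph β (ro a) (gP β (ex a)) u * s a u ≠ 0
  exact mul_ne_zero (mul_ne_zero (RRT_ne h0 h1 (hc a) (hr a) (hr (!a)) h2 (by linarith))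
    (hφ.ne a u (by linarith) h3)) ((hs a).ne u (by linarith) (by linarith))

/-- **holomorphy**, `xa + δ ≤ (1 - j2) l`, `(1 - j1) l + δ ≤ xb` -/
theorem difZT (ha6 : xa ≤ 1 / 10 * l) {δ : ℝ} (d1 : xa + δ ≤ (1 - P.j2) * l) (d2 : (1 - P.j1) * l + δ ≤ xb) :
    DifZ6 (ZK6 c β ro ex g0 s) P (51 / 100 * l) δ := by
  have hl := lpos
  refine ⟨fun a u h2 h3 => ?_, fun a u h2 h3 => ?_, fun a u h2 h3 => ?_⟩
  · exact diffAT (c0 := c0) h0 h1 hβ hβ' hr hex (fun a => (hs a).to6 ha6) a h2 h3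
  · exact invT_an (c0 := c0) h0 h1 hβ hβ' hr hex hφ hs hxa hxb a (by linarith) (by linarith)
  · exact invT_ne (c0 := c0) h0 h1 hβ hβ' hr hex hφ hc hs hxa hxb (by linarith) a h2 (by linarith)

/-- **the record of the class formula** -/
theorem decQT (hP : GoodT P) (ha6 : xa ≤ 1 / 10 * l) (hg0 : ∀ a, GF6 (ro a) (g0 a)) {δ : ℝ} (hδ : 0 < δ)
    (d1 : xa + δ ≤ (1 - P.j2) * l) (d2 : (1 - P.j1) * l + δ ≤ xb) :
    PHK.DecZ6 (ZK6 c β ro ex g0 s) P (51 / 100 * l) (2 * β) (2 * β) (-(q : ℝ) + N true - N false) := by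
  have hl := lpos
  have h := decZT (c := c) hP h0 h1 hβ hβ' hr hex hg0 (fun a => (hs a).to6 ha6)
  refine ⟨h.A, h.L, fun a => ?_, h.S, fun a => ?_⟩
  · have e : -(1 / 2 * l) = -(l / 2) := by ring
    rw [e]
    exact h.T a
  · exact invT_bd (c0 := c0) h0 h1 hβ hβ' hr hex hφ hs hxa hxb a (by linarith) (by linarith)

end inv

end PLTX

end
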