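import Pool.Agent.PLT.FamLC
import Pool.Agent.PLT.ClsTh
import Pool.Agent.PLT.ZKT
import Pool.Agent.PLT.PsiAg
import Pool.Agent.PLT.Rate
import Pool.Agent.PLT.FFCof
import Pool.Agent.PLT.PtTh
import Pool.Agent.PHK.FNeq6

/-!
# The literal function is the functional of its class, any point of the tilted sea

* `norm_psi_le`, `norm_prod_psi`: one cutoff and products of cutoffs on the left of `l - h`;
* **`phT_small`**: rows and points with `|Re| ≤ h`: the cutoffs have no zero for `xa < Re < xb`, `xb ≤ l - h`;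
* **`nz_FFC`**, **`fN_FFC`**: `fQ q x z = Pf z x (yq x) * ∑ n ≤ 2 m, FFC (FI.ZI m x β z) P n (n + xn m) D D1 1`
  on every family of curves in the strip, `GoodT P`;
* **`fN_leC`**: the bound by the functional with moduli.
-/

set_option autoImplicit false
set_option linter.unusedSectionVars false
set_option linter.unusedVariables false

noncomputable section

open Complex MeasureTheory Finset
open scoped ENNReal
open PLX (Fil)

namespace PLT

open NUP1 NUO NUP1S NUP1S.Ab NUP1S.AbC NURow NUGC.PLX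
open NUP1.Bd (Ob)
open PHK
open PBU.PLX (T1L ccS6 norm_ccS6)
open Pool.Agent.PB (Pf LS cn)
open Pool.Agent.PLX (ZK6 DZU yq rwq Rws_rwq SpW6 GF6 nzU fQ fQ_right sumU_q)
open PBX (Rws ph Lg gP GOk)
open PBF.PLX (dN)

/-! ### the cutoffs on the left of `l - h` -/

section phi

variable {β h : ℝ}

/-- one cutoff -/
theorem norm_psi_le (hβ0 : 0 < β) (hβ1 : β ≤ 4 / 3) {d : ℝ} (hd : 0 ≤ d) {u w : ℂ}
    (h1 : (u - w).re ≤ NUP1.l - d) (h2 : -NUP1.l < (u - w).re) :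
    ‖psi β (u - w)‖ ≤ Real.exp (-(3 / 2 * min d NUP1.l * Real.exp (-(2 * β * |(u - w).im|)))) := by
  have hl := NUP1.l_pos
  obtain ⟨V, hV⟩ : ∃ V : ℝ, V = NUP1.l - (u - w).re := ⟨_, rfl⟩
  obtain ⟨t, ht⟩ : ∃ t : ℝ, t = (u - w).im := ⟨_, rfl⟩
  have e : u - w = vl (NUP1.l - V) t := by
    apply Complex.ext
    · rw [vl_re, hV]
      ring
    · rw [vl_im, ht]
  rw [← ht, e]
  have hV0 : 0 ≤ V := by linarith
  have hV2 : V < 2 * NUP1.l := by linarith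
  refine (psi_le_Ag hβ0 hβ1 (by linarith) (by linarith) t).trans (Real.exp_le_exp.2 (neg_le_neg ?_))
  refine le_trans ?_ (Ag_ge hV0 hV2 _)
  have hdV : min d NUP1.l ≤ min V NUP1.l := min_le_min_right _ (by linarith)
  have h0 : 0 ≤ min d NUP1.l := le_min hd hl.le
  rw [mul_div_assoc, mul_assoc]
  refine mul_le_mul_of_nonneg_left ?_ (by norm_num)
  have hc : Real.exp (-(2 * β * |t|)) ≤ 1 / NUMF.ch (3 * β / 4 * t) := by
    rw [Real.exp_neg, ← one_div]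
    refine one_div_le_one_div_of_le (NUMF.ch_pos _) ((PLT.ch_le_exp _).trans (le_of_eq ?_))
    congr 1
    rw [abs_mul, abs_of_pos (by positivity : 0 < 3 * β / 4)]
    ring
  calc min d NUP1.l * Real.exp (-(2 * β * |t|)) ≤ min V NUP1.l * (1 / NUMF.ch (3 * β / 4 * t)) :=
        mul_le_mul hdV hc (Real.exp_pos _).le (h0.trans hdV)
    _ = _ := by rw [mul_one_div]; rfl

theorem norm_prod_psi (hβ0 : 0 < β) (hβ1 : β ≤ 4 / 3) {d : ℝ} (hd : 0 ≤ d) {u : ℂ} {W : List ℂ}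
    (hW : ∀ w ∈ W, (u - w).re ≤ NUP1.l - d ∧ -NUP1.l < (u - w).re) :
    ‖(W.map fun w => psi β (u - w)).prod‖ ≤ 1 := by
  have hl := NUP1.l_pos
  induction W with
  | nil => simp
  | cons w W ih =>
    rw [List.map_cons, List.prod_cons, norm_mul]
    obtain ⟨a, b⟩ := hW w (by simp)
    have h1 := norm_psi_le hβ0 hβ1 hd a b
    have h2 : ‖psi β (u - w)‖ ≤ 1 := h1.trans (by
      rw [Real.exp_le_one_iff, neg_nonpos]
      have := le_min hd hl.le
      positivity)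
    exact mul_le_one₀ h2 (norm_nonneg _) (ih fun v hv => hW v (by simp [hv]))

/-- **a nonempty list** -/
theorem norm_prod_psi_lt (hβ0 : 0 < β) (hβ1 : β ≤ 4 / 3) {d : ℝ} (hd : 0 ≤ d) {u : ℂ} {W : List ℂ}
    (hW : ∀ w ∈ W, (u - w).re ≤ NUP1.l - d ∧ -NUP1.l < (u - w).re) {w : ℂ} (hw : w ∈ W) :
    ‖(W.map fun w => psi β (u - w)).prod‖ ≤
      Real.exp (-(3 / 2 * min d NUP1.l * Real.exp (-(2 * β * |w.im|)) * Real.exp (-(2 * β * |u.im|)))) := by
  have hl := NUP1.l_pos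
  obtain ⟨A, B, rfl⟩ := List.append_of_mem hw
  rw [List.map_append, List.prod_append, List.map_cons, List.prod_cons, norm_mul, norm_mul]
  obtain ⟨a, b⟩ := hW w hw
  have h1 := norm_psi_le hβ0 hβ1 hd a b
  have hA := norm_prod_psi hβ0 hβ1 hd (u := u) (W := A) fun v hv => hW v (by simp [hv])
  have hB := norm_prod_psi hβ0 hβ1 hd (u := u) (W := B) fun v hv => hW v (by simp [hv])
  have h3 : ‖psi β (u - w)‖ ≤ Real.exp (-(3 / 2 * min d NUP1.l * Real.exp (-(2 * β * |w.im|)) *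
      Real.exp (-(2 * β * |u.im|)))) := by
    refine h1.trans (Real.exp_le_exp.2 (neg_le_neg ?_))
    rw [mul_assoc (3 / 2 * min d NUP1.l), ← Real.exp_add]
    refine mul_le_mul_of_nonneg_left (Real.exp_le_exp.2 ?_) (by
      have := le_min hd hl.le
      positivity)
    have h4 : |(u - w).im| ≤ |u.im| + |w.im| := by
      rw [sub_im]
      exact abs_sub _ _
    nlinarith [abs_nonneg (u - w).im]
  calc ‖(A.map fun w => psi β (u - w)).prod‖ * (‖psi β (u - w)‖ * ‖(B.map fun w => psi β (u - w)).prod‖) ≤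
        1 * (Real.exp _ * 1) := mul_le_mul hA (mul_le_mul h3 hB (norm_nonneg _) (Real.exp_pos _).le)
          (by positivity) zero_le_one
    _ = _ := by rw [one_mul, mul_one]

/-- the cutoff of a nonempty list from below -/
theorem phi_ge (hβ0 : 0 < β) (hβ1 : β ≤ 4 / 3) {d : ℝ} (hd : 0 < d) {u : ℂ} {W : List ℂ}
    (hW : ∀ w ∈ W, (u - w).re ≤ NUP1.l - d ∧ -NUP1.l < (u - w).re) {w : ℂ} (hw : w ∈ W) :
    min 1 (3 / 2 * min d NUP1.l * Real.exp (-(2 * β * |w.im|))) / 2 * Real.exp (-(2 * β * |u.im|)) ≤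
      ‖phi β W u‖ := by
  have hl := NUP1.l_pos
  have hm : 0 < min d NUP1.l := lt_min hd hl
  have h1 := norm_prod_psi_lt hβ0 hβ1 hd.le hW hw
  obtain ⟨c, hc⟩ : ∃ c : ℝ, c = 3 / 2 * min d NUP1.l * Real.exp (-(2 * β * |w.im|)) := ⟨_, rfl⟩
  have hc0 : 0 < c := by
    rw [hc]
    positivity
  obtain ⟨E, hE⟩ : ∃ E : ℝ, E = Real.exp (-(2 * β * |u.im|)) := ⟨_, rfl⟩
  have hE0 : 0 < E := by
    rw [hE]
    exact Real.exp_pos _
  have hE1 : E ≤ 1 := by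
    rw [hE, Real.exp_le_one_iff, neg_nonpos]
    positivity
  rw [← hc, ← hE] at h1 ⊢
  have h2 := one_sub_exp_neg_ge (x := c * E) (by positivity)
  have h3 : min 1 c * E ≤ min 1 (c * E) := by
    refine le_min ?_ ?_
    · exact mul_le_one₀ (min_le_left _ _) hE0.le hE1
    · exact mul_le_mul_of_nonneg_right (min_le_right _ _) hE0.le
  have h4 : 1 - ‖(W.map fun w => psi β (u - w)).prod‖ ≤ ‖phi β W u‖ := by
    unfold phi
    have := norm_sub_norm_le (1 : ℂ) (W.map fun w => psi β (u - w)).prod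
    rwa [norm_one] at this
  linarith

variable {N : Bool → ℕ} {ro : ∀ a, Fin (N a) → ℂ} {ex : Bool → List ℂ}

/-- **rows and points with small real parts: the cutoffs have no zero in the strip of the holes** -/
theorem phT_small (hβ0 : 0 < β) (hβ1 : β ≤ 4 / 3) (hro : ∀ a i, |(ro a i).re| ≤ h)
    (hex : ∀ a, ∀ w ∈ ex a, |w.re| ≤ h) (hne : ∀ a, ex a ≠ []) {xa xb : ℝ} (hxa : h - NUP1.l ≤ xa)
    (hxb : xb ≤ NUP1.l - h) : PLTX.PhT xa xb β ro ex := by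
  have hl := NUP1.l_pos
  have hmem : ∀ a, ∀ w ∈ List.ofFn (ro a) ++ ex a, |w.re| ≤ h := by
    intro a w hw
    rcases List.mem_append.1 hw with h1 | h1
    · obtain ⟨i, rfl⟩ := (List.mem_ofFn' _ _).1 h1
      exact hro a i
    · exact hex a w h1
  have key : ∀ (a : Bool) (r' : ℝ), r' < xb → ∃ c : ℝ, 0 < c ∧ ∀ u : ℂ, xa < u.re → u.re ≤ r' →
      c * Real.exp (-(2 * β * |u.im|)) ≤ ‖ph β (ro a) (gP β (ex a)) u‖ := by
    intro a r' hr'
    obtain ⟨w, hw⟩ := List.exists_mem_of_ne_nil _ (hne a)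
    have hd : 0 < xb - r' := by linarith
    have hm : 0 < min (xb - r') NUP1.l := lt_min hd hl
    refine ⟨min 1 (3 / 2 * min (xb - r') NUP1.l * Real.exp (-(2 * β * |w.im|))) / 2, by positivity,
      fun u h1 h2 => ?_⟩
    rw [PBX.ph_gP]
    refine phi_ge hβ0 hβ1 hd (fun v hv => ?_) (List.mem_append_right _ hw)
    obtain ⟨k1, k2⟩ := abs_le.1 (hmem a v hv)
    rw [sub_re]
    constructor <;> linarith
  refine ⟨fun a u h1 h2 h0 => ?_, fun a r r' h1 h2 => ?_⟩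
  · obtain ⟨c, hc, H⟩ := key a u.re h2
    have := H u h1 le_rfl
    rw [h0, norm_zero] at this
    exact absurd this (not_le.2 (by positivity))
  · obtain ⟨c, hc, H⟩ := key a r' h2
    refine ⟨c⁻¹, inv_nonneg.2 hc.le, fun u hu => ?_⟩
    have h3 := H u (by linarith [hu.1]) hu.2
    rw [norm_inv]
    have h4 : c⁻¹ * Real.exp (2 * β * |u.im|) = (c * Real.exp (-(2 * β * |u.im|)))⁻¹ := by
      rw [mul_inv, Real.exp_neg, inv_inv]
    rw [h4]
    exact inv_anti₀ (by positivity) h3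

end phi

/-! ### the state sum is the functional -/

variable [Fil] {m : ℕ} {x : Fin m → ℂ} {P : Par6} {β : ℝ} {z : ℂ}

theorem ZI_ZK6 (x : Fin m → ℂ) (β : ℝ) (z : ℂ) : FI.ZI m x β z =
    ZK6 (N := Nq m) (ccS6 m) β (rwq x) (fun _ => [I, -I]) (FI.g0I m x) (fun _ => Lg z z) := rfl

theorem re_pmI {h : ℝ} (h0 : 0 ≤ h) : ∀ w ∈ ([I, -I] : List ℂ), |w.re| ≤ h := by
  intro w hw
  rw [List.mem_cons, List.mem_singleton] at hw
  rcases hw with rfl | rfl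
  · rw [Complex.I_re, abs_zero]; exact h0
  · rw [Complex.neg_re, Complex.I_re, neg_zero, abs_zero]; exact h0

/-- **the state sum of the dislocated function is the functional** -/
theorem DZ_FFC (hP : PLTX.GoodT P) (hβ0 : 0 < β) (hβ1 : β ≤ 4 / 3) {h xa del : ℝ} (hh : h ≤ NUP1.l / 2)
    (hx : ∀ i, |(x i).re| ≤ h) (h0 : 0 ≤ h) (hxa0 : 0 ≤ xa) (hxa1 : xa ≤ 1 / 10 * NUP1.l)
    (hdel : 0 < del) (d1 : xa + del ≤ (1 - P.j2) * NUP1.l) (d2 : (1 - P.j1) * NUP1.l + del ≤ NUP1.l - h)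
    (z1 : -(9 / 10 * NUP1.l) ≤ z.re) (z2 : z.re ≤ 31 / 10 * NUP1.l) (z3 : z.re ≤ 3 * NUP1.l + xa)
    {lo hi : ℝ} (hlo : -(1 / 400) ≤ lo) (hhi : hi ≤ 1 / 20) (hS : StC lo hi P) {n n' : ℕ}
    (hn : n' = n + Fil.xn m) {D D1 : CrsC} (hD : ∀ r (O : Fin r → Xo), CurC lo hi (D r O) (D1 r O)) :
    DZU (cn m) (cn (Fil.q * m)) (Lg z z) (Lg z z) x (yq x) n n' =
      FFC (FI.ZI m x β z) P n n' D D1 (fun _ _ _ _ _ => 1) := by
  have hl := NUP1.l_pos
  have hrw : Rws x := fun i => (hx i).trans hh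
  have hrT : ∀ a, PLTX.RwT 0 (rwq x a) := fun a i => by
    rw [add_zero]
    exact Rws_rwq hrw a i
  have hexT : ∀ a : Bool, ∀ w ∈ ([I, -I] : List ℂ), |w.re + 0| ≤ NUP1.l / 2 := fun a w hw => by
    rw [add_zero]
    exact re_pmI (by positivity) w hw
  have hg0 : ∀ a, GF6 (rwq x a) (FI.g0I m x a) := fun a =>
    Pool.Agent.PLX.gF6_gO _ (Rws_rwq hrw a) (by simp)
  have hsp : ∀ a : Bool, PLTX.SpWx xa (sc (a, .A) * ((0 : ℤ) : ℝ)) (Lg z z) := fun a => by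
    have := PLTX.SpWx.leg (xa := xa) (by linarith) z1 z3 z2
    simpa using this
  have hφ : PLTX.PhT xa (NUP1.l - h) β (rwq x) (fun _ => [I, -I]) :=
    phT_small hβ0 hβ1 (h := h) (fun a i => Pool.Agent.PLX.forall_rwq (P := fun w : ℂ => |w.re| ≤ h) hx a i)
      (fun _ => re_pmI h0) (fun _ => by simp) (by linarith) le_rfl
  have hc : ∀ a, ccS6 m a ≠ 0 := fun a => by
    have h1 := norm_cc_pos m
    rw [PBU.PLX.norm_Lcc] at h1
    rw [← norm_pos_iff, norm_ccS6]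
    exact h1
  have hq : (n : ℝ) - n' = -((0 : ℤ) : ℝ) + ((Nq m true : ℕ) : ℝ) - ((Nq m false : ℕ) : ℝ) := by
    rw [charge_qR, hn]
    push_cast
    ring
  have hdec := PLTX.decQT (N := Nq m) (c0 := 0) (c := ccS6 m) (ro := rwq x) (ex := fun _ => [I, -I])
    (g0 := FI.g0I m x) (s := fun _ => Lg z z) (q := 0) (P := P) le_rfl (by positivity) hβ0 hβ1 hrT hexT hφ hc hsp
    hxa0 (by linarith) hP hxa1 hg0 hdel d1 d2
  rw [← hq, ← ZI_ZK6] at hdec
  have hdif := PLTX.difZT (N := Nq m) (c0 := 0) (c := ccS6 m) (ro := rwq x) (ex := fun _ => [I, -I])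
    (g0 := FI.g0I m x) (s := fun _ => Lg z z) (q := 0) (P := P) le_rfl (by positivity) hβ0 hβ1 hrT hexT hφ hc hsp
    hxa0 (by linarith) hxa1 d1 d2
  rw [← ZI_ZK6] at hdif
  have hone := oneCC_L (P := P) m hrw hβ0 hβ1 z1 (by linarith) hlo hhi
  have hsp6 : ∀ a : Bool, SpW6 (sc (a, .A) * ((0 : ℤ) : ℝ)) (Lg z z) := fun a => (hsp a).to6 hxa1
  have e1 := Pool.Agent.PLX.DZ_Zobj6 (N := Nq m) (c := ccS6 m) (ro := rwq x) (ex := fun _ => [I, -I])
    (g0 := FI.g0I m x) (s := fun _ => Lg z z) (q := 0) (P := P) (n := n) (n' := n') hP.toGoodP6 hβ0 hβ1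
    (fun a => Rws_rwq hrw a) (fun _ => re_pmI (by positivity)) (fun a => (hg0 a).gn) hsp6 (by
      have h1 := charge_q m 0
      rw [hn]
      push_cast at h1 ⊢
      linarith)
  have e2 := cls_FFC (Z := FI.ZI m x β z) (P := P) (n := n) (n' := n') (κ := 2 * β) (κ' := 2 * β) (v := lo)
    (w := hi) (del := del) (Q := -Fil.xn m) (D := D) (D1 := D1) hP.toGoodP6 (fun s k => hone.meas s k)
    ⟨by linarith, by linarith, fun s => (hdec.A s).mono (Set.Icc_subset_Icc (by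
      have := hP.e45
      nlinarith) le_rfl), hdec.L, fun s => by
        have e : -(1 / 2 * NUP1.l) = -(NUP1.l / 2) := by ring
        have := hdec.T s
        rwa [e] at this, hdec.S, hdec.H⟩ hdec.A hdel hdif
    (QOkC.of_oneC hone) hS (by rw [hn]; push_cast; ring) fun r _ => Filter.Eventually.of_forall (hD r)
  rw [← e2]
  exact e1

/-- **places of the rows and the legs at a general point** -/
structure PlcT (P : Par6) (x : Fin m → ℂ) (z : ℂ) (h xa del : ℝ) : Prop where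
  h0 : 0 ≤ h
  hh : h ≤ NUP1.l / 2
  hx : ∀ i, |(x i).re| ≤ h
  xa0 : 0 ≤ xa
  xa1 : xa ≤ 1 / 10 * NUP1.l
  dl : 0 < del
  d1 : xa + del ≤ (1 - P.j2) * NUP1.l
  d2 : (1 - P.j1) * NUP1.l + del ≤ NUP1.l - h
  z1 : -(9 / 10 * NUP1.l) ≤ z.re
  z2 : z.re ≤ 31 / 10 * NUP1.l
  z3 : z.re ≤ 3 * NUP1.l + xa

theorem PlcT.rws {h xa del : ℝ} (hp : PlcT P x z h xa del) : Rws x := fun i => (hp.hx i).trans hp.hh

/-- **the function at all rows is the functional** -/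
theorem nz_FFC (hP : PLTX.GoodT P) (hβ0 : 0 < β) (hβ1 : β ≤ 4 / 3) {h xa del : ℝ} (hp : PlcT P x z h xa del)
    {lo hi : ℝ} (hlo : -(1 / 400) ≤ lo) (hhi : hi ≤ 1 / 20) (hS : StC lo hi P)
    {D D1 : ℕ → CrsC} (hD : ∀ n ∈ range (2 * m + 1), ∀ r (O : Fin r → Xo), CurC lo hi (D n r O) (D1 n r O)) :
    nzU z x (yq x) = Pf z x (yq x) * ∑ n ∈ range (2 * m + 1),
      FFC (FI.ZI m x β z) P n (n + Fil.xn m) (D n) (D1 n) (fun _ _ _ _ _ => 1) := by
  unfold Pool.Agent.PLX.nzU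
  congr 1
  rw [sumU_q Fil.one_le_q]
  refine Finset.sum_congr rfl fun n hn => ?_
  rw [← DZ_FFC hP hβ0 hβ1 hp.hh hp.hx hp.h0 hp.xa0 hp.xa1 hp.dl hp.d1 hp.d2 hp.z1 hp.z2 hp.z3 hlo hhi hS rfl
    (hD n hn)]
  rfl

/-- **the literal function is the functional** -/
theorem fN_FFC (hP : PLTX.GoodT P) (hβ0 : 0 < β) (hβ1 : β ≤ 4 / 3) {h xa del : ℝ} (hp : PlcT P x z h xa del)
    {lo hi : ℝ} (hlo : -(1 / 400) ≤ lo) (hhi : hi ≤ 1 / 20) (hS : StC lo hi P)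
    {D D1 : ℕ → CrsC} (hD : ∀ n ∈ range (2 * m + 1), ∀ r (O : Fin r → Xo), CurC lo hi (D n r O) (D1 n r O)) :
    fQ Fil.q x z = Pf z x (yq x) * ∑ n ∈ range (2 * m + 1),
      FFC (FI.ZI m x β z) P n (n + Fil.xn m) (D n) (D1 n) (fun _ _ _ _ _ => 1) := by
  have hl := NUP1.l_pos
  rw [fQ_right (Pool.Agent.PB.Rws.rwo hp.rws) ⟨by linarith [hp.z1], by linarith [hp.z2]⟩]
  exact nz_FFC hP hβ0 hβ1 hp hlo hhi hS hD

/-- **the bound by the functional with moduli** -/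
theorem fN_leC (hP : PLTX.GoodT P) (hβ0 : 0 < β) (hβ1 : β ≤ 4 / 3) {h xa del : ℝ} (hp : PlcT P x z h xa del)
    {lo hi : ℝ} (hlo : -(1 / 400) ≤ lo) (hhi : hi ≤ 1 / 20) (hS : StC lo hi P)
    {D D1 : ℕ → CrsC} (hD : ∀ n ∈ range (2 * m + 1), ∀ r (O : Fin r → Xo), CurC lo hi (D n r O) (D1 n r O)) :
    ‖fQ Fil.q x z‖ₑ ≤ ‖Pf z x (yq x)‖ₑ * ∑ n ∈ range (2 * m + 1),
      FEC (FI.ZI m x β z) P n (n + Fil.xn m) (D n) (D1 n) (fun _ _ _ _ _ => 1) := by
  rw [fN_FFC hP hβ0 hβ1 hp hlo hhi hS hD, enorm_mul]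
  refine mul_le_mul_right ((enorm_sum_le _ _).trans (Finset.sum_le_sum fun n _ => ?_)) _
  refine (FFC_le _).trans (le_of_eq ?_)
  rw [FAC_eq_FEC]
  simp only [enorm_one]

/-! ### the family -/

variable [PLX.Ends] {ι : Type} {X : (m : ℕ) → ι → Fin m → ℂ} {zz : ι → ℂ} {S : ℕ → ι → SeaC}
  {ok : ℕ → ι → Prop} {lo hi : ℝ}

/-- **the function is bounded by the mass of the family** -/
theorem fN_le_FSC (hP : PLTX.GoodT P) {ep e1 J : ℝ} (hep : 0 < ep) (hep1 : ep ≤ 1 / 2) {i : ι} {h xa del : ℝ}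
    (hp : PlcT P (X m i) (zz i) h xa del) {lo' hi' : ℝ} (hlo : -(1 / 400) ≤ lo') (hhi : hi' ≤ 1 / 20)
    (hS : StC lo' hi' P)
    (hD : CurC lo' hi' ((famLC X zz S ok lo hi).D e1 J m i) ((famLC X zz S ok lo hi).D1 e1 J m i)) :
    ‖fQ Fil.q (X m i) (zz i)‖ₑ ≤ FSC (famLC X zz S ok lo hi) P ep e1 J m i (fun _ => 1) (fun _ _ _ _ _ => 1) := by
  rw [FSC_eq]
  have e : dN (2 * m) = Fil.xn m := PBF.PLX.dN_two m
  have h1 := fN_leC (β := 4 / 3 * (1 - ep)) hP (by linarith) (by linarith) hp hlo hhi hS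
    (D := fun _ => (famLC X zz S ok lo hi).cr e1 J m i) (D1 := fun _ => (famLC X zz S ok lo hi).cr' e1 J m i)
    (fun n _ r O => hD)
  refine h1.trans (le_of_eq ?_)
  show _ = ‖Pf (zz i) (X m i) (yq (X m i))‖ₑ * ∑ n ∈ range (2 * m + 1), FEC (FI.ZI m (X m i)
    (4 / 3 * (1 - ep)) (zz i)) P n (n + dN (2 * m)) _ _ _
  rw [e]

end PLT

end
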