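import Pool.Agent.PLX.NzB

/-!
# The dislocated function of a content in any strip of width `6 l / 5` (helper17)

* `sh c x` : all rows moved by `c`; `nzU_sh`, `fU_sh`, `fQ_sh` : invariance under a common shift of rows and legs;
* `Ad c mu` : the content moved by the real number `c` lies in the open strip `|Re| < 3 l / 5`;
* **`fS q mu z`** : the function of the content `mu` in its own frame, `fS_eq` : `= fQ q (mu + c) (z + c)` for every
  admissible `c`, `|Re z| < 3 l`; `fS_self` : `= fQ q mu z` if `mu` lies in the strip itself;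
* `fS_sh`, `fS_tendsto`, `fS_hol`, `fS_diff`, `fS_perm`.
-/

set_option autoImplicit false
set_option linter.unusedSectionVars false

noncomputable section

open Complex Filter Topology Set

namespace PLT.FS

open NUP1 (l lpos)
open Pool.Agent.PB
open Pool.Agent.PLX
open PBX (Rws pull pull_re pull_Rws pull_tendsto)

variable {m M : ℕ}

theorem comb {a b u v R : ℝ} (ha : 0 ≤ a) (hb : 0 ≤ b) (hab : a + b = 1) (hu : |u| < R) (hv : |v| < R) :
    |a * u + b * v| < R := by
  have h1 := abs_add_le (a * u) (b * v)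
  rw [abs_mul, abs_mul, abs_of_nonneg ha, abs_of_nonneg hb] at h1
  have hR : R = a * R + b * R := by rw [← add_mul, hab, one_mul]
  have h3 : b * |v| ≤ b * R := mul_le_mul_of_nonneg_left hv.le hb
  rcases ha.eq_or_lt with h | h
  · rw [← h] at hab h1 ⊢
    rw [zero_add] at hab
    rw [hab] at h1 ⊢
    simp only [zero_mul, one_mul, zero_add] at h1 ⊢
    linarith
  · have h2 : a * |u| < a * R := mul_lt_mul_of_pos_left hu h
    linarith

/-- all rows moved by `c` -/
def sh (c : ℂ) (x : Fin m → ℂ) : Fin m → ℂ := fun i => x i + c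

theorem sh_apply (c : ℂ) (x : Fin m → ℂ) (i : Fin m) : sh c x i = x i + c := rfl

theorem sh_zero (x : Fin m → ℂ) : sh 0 x = x := by
  funext i
  simp [sh]

theorem sh_sh (c d : ℂ) (x : Fin m → ℂ) : sh c (sh d x) = sh (d + c) x := by
  funext i
  simp only [sh]
  ring

theorem sh_cons (c ξ : ℂ) (x : Fin m → ℂ) :
    sh c (Fin.cons ξ x : Fin (m + 1) → ℂ) = (Fin.cons (ξ + c) (sh c x) : Fin (m + 1) → ℂ) := by
  funext i
  refine Fin.cases ?_ (fun j => ?_) i
  · simp [sh]
  · simp [sh]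

theorem sh_yqn (c : ℂ) (q : ℕ) (x : Fin m → ℂ) : sh c (yqn q x) = yqn q (sh c x) := rfl

theorem sh_pull (c : ℂ) (x : Fin m → ℂ) (e : ℝ) : pull (sh c x) e = sh c (pull x e) := by
  funext i
  simp only [sh, PBX.pull]
  ring

theorem nh_sh (c z : ℂ) (x : Fin m → ℂ) (y : Fin M → ℂ) :
    PBS.nh (z + c) (sh c x) (sh c y) = PBS.nh z x y := by
  unfold PBS.nh PBS.SS PBS.PN PBS.tm sh
  simp only [add_sub_add_right_eq_sub]

/-- narrow rows -/
theorem nzU_shR {c z : ℂ} {x : Fin m → ℂ} {y : Fin M → ℂ} (hz : z ∈ LS) (hz' : z + c ∈ LS) (hx : Rws x)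
    (hy : Rws y) (hx' : Rws (sh c x)) (hy' : Rws (sh c y)) :
    nzU (z + c) (sh c x) (sh c y) = nzU z x y := by
  have t1 : Tendsto (fun e => nzU (z + c) (pull (sh c x) e) (pull (sh c y) e)) (𝓝[>] (0 : ℝ))
      (𝓝 (nzU (z + c) (sh c x) (sh c y))) :=
    nzU_tendsto tendsto_const_nhds (pull_tendsto _) (pull_tendsto _)
      (Eventually.of_forall fun e => pull_Rws hx' e) (Eventually.of_forall fun e => pull_Rws hy' e) hx' hy' hz'
  have t2 : Tendsto (fun e => nzU z (pull x e) (pull y e)) (𝓝[>] (0 : ℝ)) (𝓝 (nzU z x y)) :=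
    nzU_tendsto tendsto_const_nhds (pull_tendsto x) (pull_tendsto y)
      (Eventually.of_forall fun e => pull_Rws hx e) (Eventually.of_forall fun e => pull_Rws hy e) hx hy hz
  refine tendsto_nhds_unique (t1.congr' ?_) t2
  filter_upwards [pull_Hgt x, pull_Hgt y, pull_Hgt (sh c x), pull_Hgt (sh c y)] with e ex ey ex' ey'
  rw [nzU_nh hz' (pull_Rws hx' e) (pull_Rws hy' e) ex' ey', nzU_nh hz (pull_Rws hx e) (pull_Rws hy e) ex ey,
    sh_pull, sh_pull, nh_sh]

theorem isOpen_sh (x : Fin m → ℂ) : IsOpen {c : ℂ | Rwo (sh c x)} :=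
  (isOpen_Rwo m).preimage (f := fun c : ℂ => sh c x) (by unfold sh; fun_prop)

/-- small shifts -/
theorem nzU_sh_ev {z : ℂ} {x : Fin m → ℂ} {y : Fin M → ℂ} (hx : Rwo x) (hy : Rwo y) (hz : z ∈ LS) :
    ∀ᶠ c in 𝓝 (0 : ℂ), nzU (z + c) (sh c x) (sh c y) = nzU z x y := by
  have hl := lpos
  have e1 : ∀ᶠ c in 𝓝 (0 : ℂ), |c.re| < l / 10 :=
    (isOpen_lt (by fun_prop) continuous_const).mem_nhds (by simpa using by positivity)
  have e2 : ∀ᶠ c in 𝓝 (0 : ℂ), z + c ∈ LS := by
    have h : Continuous fun c : ℂ => z + c := by fun_prop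
    exact (LS_open.preimage h).mem_nhds (by simpa using hz)
  have e3 : ∀ᶠ c in 𝓝 (0 : ℂ), Rwo (sh c x) := (isOpen_sh x).mem_nhds (by simpa [sh_zero] using hx)
  have e4 : ∀ᶠ c in 𝓝 (0 : ℂ), Rwo (sh c y) := (isOpen_sh y).mem_nhds (by simpa [sh_zero] using hy)
  filter_upwards [e1, e2, e3, e4] with c c1 c2 c3 c4
  obtain ⟨k1, k2⟩ := abs_lt.1 c1
  set S : Set ℂ := (rS x ∩ rS y) ∩
    ({θ | ∀ i, |(x i).re * θ.re + c.re| < 3 / 5 * l} ∩ {θ | ∀ i, |(y i).re * θ.re + c.re| < 3 / 5 * l}) with hS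
  have ho : ∀ {k : ℕ} (x : Fin k → ℂ), IsOpen {θ : ℂ | ∀ i, |(x i).re * θ.re + c.re| < 3 / 5 * l} := by
    intro k x
    rw [show {θ : ℂ | ∀ i, |(x i).re * θ.re + c.re| < 3 / 5 * l} =
      ⋂ i, {θ : ℂ | |(x i).re * θ.re + c.re| < 3 / 5 * l} by ext; simp]
    exact isOpen_iInter_of_finite fun i => isOpen_lt (by fun_prop) continuous_const
  have hcv : ∀ {k : ℕ} (x : Fin k → ℂ), Convex ℝ {θ : ℂ | ∀ i, |(x i).re * θ.re + c.re| < 3 / 5 * l} := by
    intro k x θ hθ η hη a b ha hb hab i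
    have e : (x i).re * (a • θ + b • η).re + c.re =
        a * ((x i).re * θ.re + c.re) + b * ((x i).re * η.re + c.re) := by
      simp only [real_smul, add_re, mul_re, ofReal_re, ofReal_im, zero_mul, sub_zero]
      have : c.re = a * c.re + b * c.re := by rw [← add_mul, hab, one_mul]
      linarith
    rw [e]
    exact comb ha hb hab (hθ i) (hη i)
  have hSo : IsOpen S := ((rS_open x).inter (rS_open y)).inter ((ho x).inter (ho y))
  have hSc : Convex ℝ S := ((rS_convex x).inter (rS_convex y)).inter ((hcv x).inter (hcv y))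
  have hrw : ∀ {k : ℕ} {x : Fin k → ℂ} {θ : ℂ}, (∀ i, |(x i).re * θ.re + c.re| < 3 / 5 * l) →
      Rwo (sh c (rsc x θ)) := by
    intro k x θ h i
    rw [sh_apply, add_re, rsc_re]
    exact h i
  have hd1 : DifferentiableOn ℂ (fun θ => nzU (z + c) (sh c (rsc x θ)) (sh c (rsc y θ))) S := fun θ hθ =>
    (nzU_hol (z := fun _ => z + c) (x := fun θ => sh c (rsc x θ)) (y := fun θ => sh c (rsc y θ))
      (Eventually.of_forall fun _ => differentiableAt_const _)
      (Eventually.of_forall fun θ i => (rsc_diff x i θ).add_const _)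
      (Eventually.of_forall fun θ i => (rsc_diff y i θ).add_const _) (hrw hθ.2.1)
      (hrw hθ.2.2) c2).differentiableWithinAt
  have hd2 : DifferentiableOn ℂ (fun θ => nzU z (rsc x θ) (rsc y θ)) S := fun θ hθ =>
    (nzU_hol (z := fun _ => z) (x := fun θ => rsc x θ) (y := fun θ => rsc y θ)
      (Eventually.of_forall fun _ => differentiableAt_const _)
      (Eventually.of_forall fun θ i => rsc_diff x i θ)
      (Eventually.of_forall fun θ i => rsc_diff y i θ) (rS_rwo hθ.1.1)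
      (rS_rwo hθ.1.2) hz).differentiableWithinAt
  have hsm : ∀ {k : ℕ} {x : Fin k → ℂ}, Rwo x → ∀ θ : ℂ, |θ.re| < 1 / 2 →
      Rws (rsc x θ) ∧ Rws (sh c (rsc x θ)) := by
    intro k x hx θ hθ
    have hb : ∀ i, |(x i).re * θ.re| ≤ 3 / 10 * l := by
      intro i
      rw [abs_mul]
      have h1 := (hx i).le
      calc |(x i).re| * |θ.re| ≤ 3 / 5 * l * (1 / 2) :=
            mul_le_mul h1 hθ.le (abs_nonneg _) (by positivity)
        _ = 3 / 10 * l := by ring
    constructor <;> intro i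
    · rw [rsc_re]
      linarith [hb i]
    · rw [sh_apply, add_re, rsc_re]
      have := abs_add_le ((x i).re * θ.re) c.re
      linarith [hb i]
  have h0 : (0 : ℂ) ∈ S := by
    refine ⟨⟨fun i => ?_, fun i => ?_⟩, fun i => ?_, fun i => ?_⟩
    · simpa using by positivity
    · simpa using by positivity
    · simp only [zero_re, mul_zero, zero_add]
      linarith
    · simp only [zero_re, mul_zero, zero_add]
      linarith
  have h1' : (1 : ℂ) ∈ S := by
    refine ⟨⟨mem_rS_one hx, mem_rS_one hy⟩, fun i => ?_, fun i => ?_⟩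
    · have := c3 i
      rw [sh_apply, add_re] at this
      simpa using this
    · have := c4 i
      rw [sh_apply, add_re] at this
      simpa using this
  have hev : (fun θ => nzU (z + c) (sh c (rsc x θ)) (sh c (rsc y θ))) =ᶠ[𝓝 (0 : ℂ)]
      fun θ => nzU z (rsc x θ) (rsc y θ) := by
    have hn : {θ : ℂ | |θ.re| < 1 / 2} ∈ 𝓝 (0 : ℂ) :=
      (isOpen_lt (by fun_prop) continuous_const).mem_nhds (by simp)
    filter_upwards [hn] with θ hθ
    exact nzU_shR hz c2 (hsm hx θ hθ).1 (hsm hy θ hθ).1 (hsm hx θ hθ).2 (hsm hy θ hθ).2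
  have key := (hd1.analyticOnNhd hSo).eqOn_of_preconnected_of_eventuallyEq
    (hd2.analyticOnNhd hSo) hSc.isPreconnected h0 hev h1'
  simpa only [rsc_one] using key

theorem LS_convex : Convex ℝ LS := by
  have h : LS = {z : ℂ | -(7 / 5 * l) < z.re} ∩ {z | z.re < 43 / 10 * l} := by
    ext
    rfl
  rw [h]
  exact (convex_halfSpace_re_gt _).inter (convex_halfSpace_re_lt _)

theorem sh_convex (x : Fin m → ℂ) : Convex ℝ {c : ℂ | Rwo (sh c x)} := by
  intro c hc d hd a b ha hb hab i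
  have e : (sh (a • c + b • d) x i).re = a * (sh c x i).re + b * (sh d x i).re := by
    simp only [sh_apply, real_smul, add_re, mul_re, ofReal_re, ofReal_im, zero_mul, sub_zero]
    have : (x i).re = a * (x i).re + b * (x i).re := by rw [← add_mul, hab, one_mul]
    linarith
  rw [e]
  exact comb ha hb hab (hc i) (hd i)

/-- **invariance under a common shift**, legs in `LS` -/
theorem nzU_sh {c z : ℂ} {x : Fin m → ℂ} {y : Fin M → ℂ} (hx : Rwo x) (hy : Rwo y) (hz : z ∈ LS)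
    (hx' : Rwo (sh c x)) (hy' : Rwo (sh c y)) (hz' : z + c ∈ LS) :
    nzU (z + c) (sh c x) (sh c y) = nzU z x y := by
  set S : Set ℂ := ({c | Rwo (sh c x)} ∩ {c | Rwo (sh c y)}) ∩ {c | z + c ∈ LS} with hS
  have hcont : Continuous fun c : ℂ => z + c := by fun_prop
  have hSo : IsOpen S := ((isOpen_sh x).inter (isOpen_sh y)).inter (LS_open.preimage hcont)
  have hSc : Convex ℝ S := ((sh_convex x).inter (sh_convex y)).inter (LS_convex.translate_preimage_right z)
  have hd : DifferentiableOn ℂ (fun c => nzU (z + c) (sh c x) (sh c y)) S := fun c hc =>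
    (nzU_hol (z := fun c => z + c) (x := fun c => sh c x) (y := fun c => sh c y)
      (Eventually.of_forall fun _ => by fun_prop)
      (Eventually.of_forall fun c i => by unfold sh; fun_prop)
      (Eventually.of_forall fun c i => by unfold sh; fun_prop) hc.1.1 hc.1.2 hc.2).differentiableWithinAt
  have h0 : (0 : ℂ) ∈ S := ⟨⟨by simpa [sh_zero] using hx, by simpa [sh_zero] using hy⟩, by simpa using hz⟩
  have hev : (fun c => nzU (z + c) (sh c x) (sh c y)) =ᶠ[𝓝 (0 : ℂ)] fun _ => nzU z x y := nzU_sh_ev hx hy hz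
  exact (hd.analyticOnNhd hSo).eqOn_of_preconnected_of_eventuallyEq analyticOnNhd_const
    hSc.isPreconnected h0 hev (x := c) ⟨⟨hx', hy'⟩, hz'⟩

/-- **invariance under a common shift**, whole strip of the legs -/
theorem fU_sh {c z : ℂ} {mu : Fin m → ℂ} {nu : Fin M → ℂ} (hx : Rwo mu) (hy : Rwo nu)
    (hx' : Rwo (sh c mu)) (hy' : Rwo (sh c nu)) (hc : |c.re| < 43 / 10 * l) (hz : |z.re| < 43 / 10 * l)
    (hz' : |z.re + c.re| < 43 / 10 * l) : fU (sh c mu) (sh c nu) (z + c) = fU mu nu z := by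
  have hl := lpos
  set S : Set ℂ := {z | |z.re| < 43 / 10 * l} ∩ {z | |(z + c).re| < 43 / 10 * l} with hS
  have ho : IsOpen {z : ℂ | |z.re| < 43 / 10 * l} := isOpen_lt (by fun_prop) continuous_const
  have hcont : Continuous fun z : ℂ => z + c := by fun_prop
  have hSo : IsOpen S := ho.inter (ho.preimage hcont)
  have hSc : Convex ℝ S := by
    intro u hu v hv a b ha hb hab
    have e : (a • u + b • v).re = a * u.re + b * v.re := by
      simp [real_smul]
    have e' : (a • u + b • v + c).re = a * (u + c).re + b * (v + c).re := by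
      simp only [add_re, real_smul, mul_re, ofReal_re, ofReal_im, zero_mul, sub_zero]
      have : c.re = a * c.re + b * c.re := by rw [← add_mul, hab, one_mul]
      linarith
    refine ⟨?_, ?_⟩
    · show |(a • u + b • v).re| < _
      rw [e]
      exact comb ha hb hab hu.1 hv.1
    · show |(a • u + b • v + c).re| < _
      rw [e']
      exact comb ha hb hab hu.2 hv.2
  have hd1 : DifferentiableOn ℂ (fun z => fU (sh c mu) (sh c nu) (z + c)) S := fun z hz =>
    (DifferentiableAt.comp (g := fU (sh c mu) (sh c nu)) z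
      ((fU_diff hx' hy').differentiableAt (ho.mem_nhds hz.2)) (by fun_prop)).differentiableWithinAt
  have hd2 : DifferentiableOn ℂ (fU mu nu) S := (fU_diff hx hy).mono fun z hz => hz.1
  obtain ⟨k1, k2⟩ := abs_lt.1 hc
  set z0 : ℂ := ((max 0 (-c.re) : ℝ) : ℂ) with hz0
  have r0 : z0.re = max 0 (-c.re) := ofReal_re _
  have q1 : 0 ≤ z0.re := by
    rw [r0]
    exact le_max_left _ _
  have q2 : 0 ≤ z0.re + c.re := by
    rw [r0]
    linarith [le_max_right 0 (-c.re)]
  have q3 : z0.re < 43 / 10 * l := by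
    rw [r0]
    exact max_lt (by positivity) (by linarith)
  have q4 : z0.re + c.re < 43 / 10 * l := by
    rw [r0]
    rcases max_cases 0 (-c.re) with h | h
    · rw [h.1]
      linarith
    · rw [h.1]
      linarith
  have m1 : z0 ∈ LS := ⟨by linarith, q3⟩
  have m2 : z0 + c ∈ LS := ⟨by rw [add_re]; linarith, by rw [add_re]; exact q4⟩
  have hmem : z0 ∈ S := ⟨by
    show |z0.re| < _
    rw [abs_of_nonneg q1]; exact q3, by
    show |(z0 + c).re| < _
    rw [add_re, abs_of_nonneg q2]; exact q4⟩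
  have hev : (fun z => fU (sh c mu) (sh c nu) (z + c)) =ᶠ[𝓝 z0] fU mu nu := by
    have n1 : ∀ᶠ z in 𝓝 z0, z ∈ LS := LS_open.mem_nhds m1
    have n2 : ∀ᶠ z in 𝓝 z0, z + c ∈ LS := (LS_open.preimage hcont).mem_nhds m2
    filter_upwards [n1, n2] with z h1 h2
    rw [fU_right hx' hy' h2, fU_right hx hy h1, nzU_sh hx hy h1 hx' hy' h2]
  exact (hd1.analyticOnNhd hSo).eqOn_of_preconnected_of_eventuallyEq (hd2.analyticOnNhd hSo)
    hSc.isPreconnected hmem hev (x := z) ⟨hz, by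
      show |(z + c).re| < _
      rwa [add_re]⟩

theorem fQ_sh (q : ℕ) {c z : ℂ} {mu : Fin m → ℂ} (hx : Rwo mu) (hx' : Rwo (sh c mu))
    (hc : |c.re| < 43 / 10 * l) (hz : |z.re| < 43 / 10 * l) (hz' : |z.re + c.re| < 43 / 10 * l) :
    fQ q (sh c mu) (z + c) = fQ q mu z := by
  unfold fQ
  rw [← sh_yqn]
  exact fU_sh hx (Rwo_yqn hx) hx' (Rwo_yqn (y := sh c mu) hx') hc hz hz'

/-! ### the function in the frame of the content -/

/-- the content moved by the real number `c` lies in the open strip `|Re| < 3 l / 5` -/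
structure Ad (c : ℝ) (mu : Fin m → ℂ) : Prop where
  le : |c| ≤ 6 / 5 * l
  rw : Rwo (sh (c : ℂ) mu)

open scoped Classical in
/-- **the dislocated function of the content `mu`** (every row `q`-fold in the second group), in the frame of
the content -/
def fS (q : ℕ) (mu : Fin m → ℂ) (z : ℂ) : ℂ :=
  if h : ∃ c : ℝ, Ad c mu then fQ q (sh (h.choose : ℂ) mu) (z + (h.choose : ℂ)) else 0

theorem fQ_Ad (q : ℕ) {c c' : ℝ} {mu : Fin m → ℂ} (h : Ad c mu) (h' : Ad c' mu) {z : ℂ}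
    (hz : |z.re| < 3 * l) : fQ q (sh (c : ℂ) mu) (z + (c : ℂ)) = fQ q (sh (c' : ℂ) mu) (z + (c' : ℂ)) := by
  have hl := lpos
  obtain ⟨a1, a2⟩ := abs_le.1 h.le
  obtain ⟨b1, b2⟩ := abs_le.1 h'.le
  obtain ⟨z1, z2⟩ := abs_lt.1 hz
  have e1 : sh (c : ℂ) mu = sh ((c - c' : ℝ) : ℂ) (sh (c' : ℂ) mu) := by
    rw [sh_sh]
    congr 1
    push_cast
    ring
  have e2 : z + (c : ℂ) = (z + (c' : ℂ)) + ((c - c' : ℝ) : ℂ) := by
    push_cast
    ring
  rw [e2, e1]
  refine fQ_sh q h'.rw (by rw [← e1]; exact h.rw) ?_ ?_ ?_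
  · rw [ofReal_re, abs_lt]
    constructor <;> linarith
  · rw [add_re, ofReal_re, abs_lt]
    constructor <;> linarith
  · rw [add_re, ofReal_re, ofReal_re, abs_lt]
    constructor <;> linarith

/-- **every admissible frame gives the same function** -/
theorem fS_eq (q : ℕ) {c : ℝ} {mu : Fin m → ℂ} (h : Ad c mu) {z : ℂ} (hz : |z.re| < 3 * l) :
    fS q mu z = fQ q (sh (c : ℂ) mu) (z + (c : ℂ)) := by
  have hex : ∃ c : ℝ, Ad c mu := ⟨c, h⟩
  unfold fS
  rw [dif_pos hex]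
  exact fQ_Ad q hex.choose_spec h hz

theorem Ad.zero {mu : Fin m → ℂ} (h : Rwo mu) : Ad 0 mu :=
  ⟨by rw [abs_zero]; exact mul_nonneg (by norm_num) lpos.le, by rwa [ofReal_zero, sh_zero]⟩

/-- a content in the strip itself -/
theorem fS_self (q : ℕ) {mu : Fin m → ℂ} (h : Rwo mu) {z : ℂ} (hz : |z.re| < 3 * l) :
    fS q mu z = fQ q mu z := by
  rw [fS_eq q (Ad.zero h) hz, ofReal_zero, sh_zero, add_zero]

theorem Ad_open (c : ℝ) (hc : |c| ≤ 6 / 5 * l) : IsOpen {mu : Fin m → ℂ | Ad c mu} := by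
  have h : {mu : Fin m → ℂ | Ad c mu} = (fun mu => sh (c : ℂ) mu) ⁻¹' {mu | Rwo mu} := by
    ext mu
    exact ⟨fun h => h.rw, fun h => ⟨hc, h⟩⟩
  rw [h]
  exact (isOpen_Rwo m).preimage (by unfold sh; fun_prop)

theorem Ad.eventually {c : ℝ} {mu : Fin m → ℂ} (h : Ad c mu) : ∀ᶠ nu in 𝓝 mu, Ad c nu :=
  (Ad_open c h.le).mem_nhds h

/-- common shift of the content and of the legs by a complex number -/
theorem fS_sh (q : ℕ) {c : ℝ} {d z : ℂ} {mu : Fin m → ℂ} (h : Ad c mu) (h' : Ad c (sh d mu))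
    (hz : |z.re| < 3 * l) (hz' : |z.re + d.re| < 3 * l) (hd : |d.re| < 43 / 10 * l) :
    fS q (sh d mu) (z + d) = fS q mu z := by
  have hl := lpos
  obtain ⟨a1, a2⟩ := abs_le.1 h.le
  obtain ⟨z1, z2⟩ := abs_lt.1 hz
  obtain ⟨z3, z4⟩ := abs_lt.1 hz'
  rw [fS_eq q h' (by rwa [add_re]), fS_eq q h hz]
  have e1 : sh (c : ℂ) (sh d mu) = sh d (sh (c : ℂ) mu) := by
    rw [sh_sh, sh_sh, add_comm]
  have e2 : z + d + (c : ℂ) = (z + (c : ℂ)) + d := by ring
  rw [e2, e1]
  refine fQ_sh q h.rw (by rw [← e1]; exact h'.rw) hd ?_ ?_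
  · rw [add_re, ofReal_re, abs_lt]
    constructor <;> linarith
  · rw [add_re, ofReal_re, abs_lt]
    constructor <;> linarith

theorem isOpen_st : IsOpen {z : ℂ | |z.re| < 3 * l} := isOpen_lt (by fun_prop) continuous_const

/-- joint continuity -/
theorem fS_tendsto {E : Type*} {F : Filter E} [F.IsCountablyGenerated] (q : ℕ) {z : E → ℂ}
    {x : E → Fin m → ℂ} {z0 : ℂ} {x0 : Fin m → ℂ} (tz : Tendsto z F (𝓝 z0))
    (tx : ∀ i, Tendsto (fun e => x e i) F (𝓝 (x0 i))) {c : ℝ} (hx0 : Ad c x0)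
    (hz : |z0.re| < 3 * l) : Tendsto (fun e => fS q (x e) (z e)) F (𝓝 (fS q x0 z0)) := by
  have hl := lpos
  obtain ⟨a1, a2⟩ := abs_le.1 hx0.le
  obtain ⟨z1, z2⟩ := abs_lt.1 hz
  rw [fS_eq q hx0 hz]
  have h1 : Tendsto (fun e => fQ q (sh (c : ℂ) (x e)) (z e + (c : ℂ))) F
      (𝓝 (fQ q (sh (c : ℂ) x0) (z0 + (c : ℂ)))) :=
    fQ_tendsto q (tz.add_const _) (fun i => (tx i).add_const _) hx0.rw (by
      rw [add_re, ofReal_re, abs_lt]
      constructor <;> linarith)
  refine h1.congr' ?_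
  have e1 : ∀ᶠ e in F, Ad c (x e) := (tendsto_pi_nhds.2 tx).eventually hx0.eventually
  have e2 : ∀ᶠ e in F, |(z e).re| < 3 * l :=
    tz.eventually (isOpen_st.mem_nhds hz)
  filter_upwards [e1, e2] with e h1 h2
  exact (fS_eq q h1 h2).symm

/-- holomorphy along analytic curves of legs and rows -/
theorem fS_hol (q : ℕ) {z : ℂ → ℂ} {x : ℂ → Fin m → ℂ} {θ0 : ℂ}
    (dz : ∀ᶠ θ in 𝓝 θ0, DifferentiableAt ℂ z θ)
    (dx : ∀ᶠ θ in 𝓝 θ0, ∀ i, DifferentiableAt ℂ (fun θ => x θ i) θ) {c : ℝ} (hx : Ad c (x θ0))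
    (hz : |(z θ0).re| < 3 * l) : DifferentiableAt ℂ (fun θ => fS q (x θ) (z θ)) θ0 := by
  have hl := lpos
  obtain ⟨a1, a2⟩ := abs_le.1 hx.le
  obtain ⟨z1, z2⟩ := abs_lt.1 hz
  have h1 : DifferentiableAt ℂ (fun θ => fQ q (sh (c : ℂ) (x θ)) (z θ + (c : ℂ))) θ0 :=
    fQ_hol q (z := fun θ => z θ + (c : ℂ)) (x := fun θ => sh (c : ℂ) (x θ))
      (dz.mono fun θ h => h.add_const _) (dx.mono fun θ h i => (h i).add_const _) hx.rw (by
        show |(z θ0 + (c : ℂ)).re| < _
        rw [add_re, ofReal_re, abs_lt]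
        constructor <;> linarith)
  refine h1.congr_of_eventuallyEq ?_
  have t1 : Tendsto x (𝓝 θ0) (𝓝 (x θ0)) :=
    tendsto_pi_nhds.2 fun i => (dx.self_of_nhds i).continuousAt.tendsto
  have e2 : ∀ᶠ θ in 𝓝 θ0, |(z θ).re| < 3 * l :=
    dz.self_of_nhds.continuousAt.tendsto.eventually (isOpen_st.mem_nhds hz)
  filter_upwards [t1.eventually hx.eventually, e2] with θ h1 h2
  exact fS_eq q h1 h2

theorem fS_diff (q : ℕ) {c : ℝ} {mu : Fin m → ℂ} (h : Ad c mu) :
    DifferentiableOn ℂ (fS q mu) {z | |z.re| < 3 * l} := fun _ hz =>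
  (fS_hol q (z := fun z => z) (x := fun _ => mu) (Eventually.of_forall fun _ => differentiableAt_id)
    (Eventually.of_forall fun _ _ => differentiableAt_const _) h hz).differentiableWithinAt

theorem fQ_perm (q : ℕ) (mu : Fin m → ℂ) (z : ℂ) (σ : Equiv.Perm (Fin m)) :
    fQ q (fun i => mu (σ i)) z = fQ q mu z := by
  have h : yqn q (fun i => mu (σ i)) = fun j => yqn q mu
      ((finProdFinEquiv.symm.trans ((Equiv.refl (Fin q)).prodCongr σ)).trans finProdFinEquiv j) := by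
    funext j
    have e : ∀ (a : Fin q) (b : Fin m), (finProdFinEquiv (a, b)).modNat = b := fun a b =>
      congrArg Prod.snd (finProdFinEquiv.symm_apply_apply (a, b))
    unfold yqn
    simp [e]
  unfold fQ
  rw [h]
  exact fU_perm _ _ _ _ _

theorem fS_perm (q : ℕ) (mu : Fin m → ℂ) {z : ℂ} (hz : |z.re| < 3 * l) (σ : Equiv.Perm (Fin m)) :
    fS q (fun i => mu (σ i)) z = fS q mu z := by
  by_cases h : ∃ c : ℝ, Ad c mu
  · obtain ⟨c, hc⟩ := h
    have h' : Ad c (fun i => mu (σ i)) := ⟨hc.le, fun i => hc.rw (σ i)⟩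
    rw [fS_eq q h' hz, fS_eq q hc hz]
    exact fQ_perm q (sh (c : ℂ) mu) _ σ
  · have h' : ¬∃ c : ℝ, Ad c (fun i => mu (σ i)) := by
      rintro ⟨c, hc⟩
      refine h ⟨c, hc.le, fun i => ?_⟩
      have := hc.rw (σ.symm i)
      simpa [sh] using this
    unfold fS
    rw [dif_neg h, dif_neg h']

end PLT.FS

end
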