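import Pool.Agent.PLT.RV

/-!
# (S-TR), rows on the imaginary axis: the family of the class `W W` on the wide window

* **`famRI S`**: index `(h, y)`, heights `h` of the rows, heights `y` of the half quanta, `|y_i| ≤ 3/8 log m`.
-/

set_option autoImplicit false

noncomputable section

open Complex
open PLX (Fil)

namespace PLT.St

open PBT3 (wt)
open PBR.PLX (RZW)

/-- **the family of the class `W W`** on the wide window -/
def famRI [Fil] (S : ℕ → (ℕ → ℝ) → SeaC) : FamC ((ℕ → ℝ) × (ℝ × ℝ)) where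
  Z ep m i := RZW (RI ep (xI m i.1)) (wt i.2.1) (wt i.2.2)
  Pf m i := nrI (xI m i.1) * (2 * Real.pi : ℂ)⁻¹ ^ 2 * kRI (xI m i.1) i.2
  top m := 2 * m
  ok m i := HtS i.1 ∧ |i.2.1| ≤ 3 / 8 * Real.log m ∧ |i.2.2| ≤ 3 / 8 * Real.log m
  bd _ i := Real.exp (-(2 * |i.2.1| + 2 * |i.2.2| + |i.2.1 - i.2.2| / 2))
  D e1 J m i := @dsp (S m i.1) _ (@Cv.etaC (S m i.1) e1 J m m)
  D1 e1 J m i := @dsp1 (S m i.1) _ (@Cv.etaC (S m i.1) e1 J m m) (@Cv.etaC' (S m i.1) e1 J m m)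
  dc m i t := @Cv.Pc (S m i.1) t
  lo := 0
  hi := 0

end PLT.St

end
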