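import Pool.Agent.PB.Far3
import Pool.Agent.PB.K11D

/-!
# Far end of the cutoff for arbitrary rows on the imaginary axis

Points `w i`, `Re w i = 0`, `|Im w i| ≤ 2`, velocities `v i`, the argument moves with velocity `I ξ`.
`prd1 b (fun i => v i - I * ξ) w u` is the derivative of `1 - prd b w u` along this motion.

* `TrA b w v ξ ξe C0`: the transport condition is exact at both ends (the sum of the velocities only);
* **`TrA.far`** : `‖prd1‖ ≤ K1 e^{-6 b |t|} ‖prd‖` for `|t| ≥ 3`;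
* **`TrA.FAR`** : `‖prd1‖ ≤ C n ^ (-3) ‖1 - prd‖` for all heights, `n` points, no condition on `n`;
* **`TrA.ext`** : with the velocities `vE` of the extra points `I`, `-I` the condition holds for every `b`.
-/

set_option autoImplicit false
set_option linter.unusedSectionVars false

open Complex Finset

noncomputable section

namespace PLT.Fr

open NUP1 NURow PBFar

section
variable {ι : Type*} [Fintype ι] [DecidableEq ι]

/-! ### rates -/

/-- the rate of one point of the axis -/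
def cA (b s : ℝ) : ℝ := c1 b s * Real.exp (-(4 * b))

theorem cA_pos {b s : ℝ} (h : Hyp b s) : 0 < cA b s := mul_pos (c1_pos h) (Real.exp_pos _)

theorem E_im {b : ℝ} (hb : 0 ≤ b) {u w : ℂ} (hi : |w.im| ≤ 2) :
    Real.exp (-(4 * b)) * Real.exp (-(2 * b * |u.im|)) ≤ Real.exp (-(2 * b * |(u - w).im|)) := by
  rw [← Real.exp_add]
  refine Real.exp_le_exp.2 ?_
  have h1 : |(u - w).im| ≤ |u.im| + |w.im| := by rw [sub_im]; exact abs_sub _ _
  nlinarith

/-- one point of the axis -/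
theorem psi_ax {b s : ℝ} (h : Hyp b s) {u w : ℂ} (hu : |u.re + l / 2| ≤ s) (hw : w.re = 0)
    (hi : |w.im| ≤ 2) :
    ‖psi b (u - w)‖ ≤ Real.exp (-(cA b s * Real.exp (-(2 * b * |u.im|)))) := by
  have hre : |(u - w).re + l / 2| ≤ s := by rwa [sub_re, hw, sub_zero]
  have h1 := norm_psi h.adm hre
  rw [neg_mul] at h1
  refine h1.trans (Real.exp_le_exp.2 (neg_le_neg ?_))
  have h2 := E_im (b := b) (by linarith [h.b1]) (u := u) hi
  have hc := c1_pos h
  unfold cA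
  calc c1 b s * Real.exp (-(4 * b)) * Real.exp (-(2 * b * |u.im|)) =
        c1 b s * (Real.exp (-(4 * b)) * Real.exp (-(2 * b * |u.im|))) := by ring
    _ ≤ c1 b s * Real.exp (-(2 * b * |(u - w).im|)) := mul_le_mul_of_nonneg_left h2 hc.le

/-- products -/
theorem prod_ax {b s : ℝ} (h : Hyp b s) {u : ℂ} (hu : |u.re + l / 2| ≤ s) {w : ι → ℂ}
    (hw : ∀ i, (w i).re = 0) (hi : ∀ i, |(w i).im| ≤ 2) (S : Finset ι) :
    ‖∏ i ∈ S, psi b (u - w i)‖ ≤
      Real.exp (-(cA b s * (S.card * Real.exp (-(2 * b * |u.im|))))) := by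
  rw [norm_prod]
  calc _ ≤ ∏ _i ∈ S, Real.exp (-(cA b s * Real.exp (-(2 * b * |u.im|)))) :=
        prod_le_prod (fun _ _ => norm_nonneg _) fun i _ => psi_ax h hu (hw i) (hi i)
    _ = _ := by
        rw [prod_const, ← Real.exp_nat_mul]
        congr 1
        ring

theorem prod_ax_one {b s : ℝ} (h : Hyp b s) {u : ℂ} (hu : |u.re + l / 2| ≤ s) {w : ι → ℂ}
    (hw : ∀ i, (w i).re = 0) (hi : ∀ i, |(w i).im| ≤ 2) (S : Finset ι) :
    ‖∏ i ∈ S, psi b (u - w i)‖ ≤ 1 := by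
  refine (prod_ax h hu hw hi S).trans (Real.exp_le_one_iff.2 ?_)
  have := cA_pos h
  have : 0 ≤ cA b s * (S.card * Real.exp (-(2 * b * |u.im|))) := by positivity
  linarith

theorem prd_ax {b s : ℝ} (h : Hyp b s) {u : ℂ} (hu : |u.re + l / 2| ≤ s) {w : ι → ℂ}
    (hw : ∀ i, (w i).re = 0) (hi : ∀ i, |(w i).im| ≤ 2) :
    ‖prd b w u‖ ≤
      Real.exp (-(cA b s * (Fintype.card ι * Real.exp (-(2 * b * |u.im|))))) := by
  have := prod_ax h hu hw hi univ
  rwa [card_univ] at this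

theorem erase_ax {b s : ℝ} (h : Hyp b s) {u : ℂ} (hu : |u.re + l / 2| ≤ s) {w : ι → ℂ}
    (hw : ∀ i, (w i).re = 0) (hi : ∀ i, |(w i).im| ≤ 2) (i : ι) :
    ‖∏ j ∈ univ.erase i, psi b (u - w j)‖ ≤ Real.exp (cA b s) *
      Real.exp (-(cA b s * (Fintype.card ι * Real.exp (-(2 * b * |u.im|))))) := by
  refine (prod_ax h hu hw hi (univ.erase i)).trans ?_
  rw [← Real.exp_add]
  refine Real.exp_le_exp.2 ?_
  have hc := cA_pos h
  have hE := E_le_one (b := b) (t := u.im) (by linarith [h.b1])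
  have hE0 := Real.exp_pos (-(2 * b * |u.im|))
  have e1 : (((univ.erase i).card : ℕ) : ℝ) = Fintype.card ι - 1 := by
    rw [card_erase_of_mem (mem_univ i), card_univ, Nat.cast_sub, Nat.cast_one]
    exact Fintype.card_pos_iff.2 ⟨i⟩
  rw [e1]
  have := mul_le_mul_of_nonneg_left hE hc.le
  linarith

theorem phi_ge_ax {b s : ℝ} (h : Hyp b s) {u : ℂ} (hu : |u.re + l / 2| ≤ s) {w : ι → ℂ}
    (hw : ∀ i, (w i).re = 0) (hi : ∀ i, |(w i).im| ≤ 2) :
    1 - Real.exp (-(cA b s * (Fintype.card ι * Real.exp (-(2 * b * |u.im|))))) ≤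
      ‖1 - prd b w u‖ := by
  have h1 := prd_ax h hu hw hi
  have h2 := norm_sub_norm_le (1 : ℂ) (prd b w u)
  rw [norm_one] at h2
  linarith

theorem phi_two_ax {b s : ℝ} (h : Hyp b s) {u : ℂ} (hu : |u.re + l / 2| ≤ s) {w : ι → ℂ}
    (hw : ∀ i, (w i).re = 0) (hi : ∀ i, |(w i).im| ≤ 2) : ‖1 - prd b w u‖ ≤ 2 := by
  have h1 := prod_ax_one h hu hw hi univ
  refine (norm_sub_le _ _).trans ?_
  rw [norm_one]
  unfold prd
  linarith

/-! ### the transport condition -/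

/-- **the transport condition is exact**, the sum of the velocities is bounded -/
structure TrA (b : ℝ) (w v : ι → ℂ) (ξ ξe : ℝ → ℂ) (C0 : ℝ) : Prop where
  re : ∀ i, (w i).re = 0
  im : ∀ i, |(w i).im| ≤ 2
  vel : ∑ i, ‖v i‖ ≤ C0
  cond : ∀ σ : ℝ, (σ = 1 ∨ σ = -1) →
    ∑ i, v i * Ep σ b (w i) = I * ξe σ * ∑ i, Ep σ b (w i)
  lim : ∀ σ : ℝ, (σ = 1 ∨ σ = -1) → ‖ξe σ‖ ≤ C0 / Fintype.card ι
  dec : ∀ σ : ℝ, (σ = 1 ∨ σ = -1) → ∀ t : ℝ, 0 ≤ σ * t →
    ‖ξ t - ξe σ‖ ≤ C0 / Fintype.card ι * Real.exp (-(16 / 3 * (σ * t)))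

namespace TrA

variable {b : ℝ} {w v : ι → ℂ} {ξ ξe : ℝ → ℂ} {C0 : ℝ}

theorem c0 (T : TrA b w v ξ ξe C0) : 0 ≤ C0 :=
  (Finset.sum_nonneg fun _ _ => norm_nonneg _).trans T.vel

theorem pts (T : TrA b w v ξ ξe C0) : Pts w := by
  have hl := l_pos
  refine ⟨fun i => ?_, T.im⟩
  rw [T.re i, abs_zero]
  positivity

theorem norm_xi (T : TrA b w v ξ ξe C0) (t : ℝ) : ‖ξ t‖ ≤ 2 * C0 / Fintype.card ι := by
  obtain ⟨σ, hσ, hσt⟩ : ∃ σ : ℝ, (σ = 1 ∨ σ = -1) ∧ 0 ≤ σ * t := by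
    rcases le_total 0 t with h0 | h0
    · exact ⟨1, Or.inl rfl, by rw [one_mul]; exact h0⟩
    · exact ⟨-1, Or.inr rfl, by linarith⟩
  have h1 := T.lim σ hσ
  have h2 := T.dec σ hσ t hσt
  have h3 : 0 ≤ C0 / (Fintype.card ι : ℝ) := (norm_nonneg _).trans h1
  have e1 : Real.exp (-(16 / 3 * (σ * t))) ≤ 1 := Real.exp_le_one_iff.2 (by linarith)
  have e2 : ‖ξ t‖ ≤ ‖ξ t - ξe σ‖ + ‖ξe σ‖ := by
    have := norm_add_le (ξ t - ξe σ) (ξe σ)
    rwa [sub_add_cancel] at this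
  have e3 : C0 / (Fintype.card ι : ℝ) * Real.exp (-(16 / 3 * (σ * t))) ≤ C0 / Fintype.card ι * 1 :=
    mul_le_mul_of_nonneg_left e1 h3
  have e4 : 2 * C0 / (Fintype.card ι : ℝ) = C0 / Fintype.card ι * 1 + C0 / Fintype.card ι := by ring
  linarith

/-- the sum of the relative velocities -/
theorem sum_rel (T : TrA b w v ξ ξe C0) (t : ℝ) : ∑ i, ‖v i - I * ξ t‖ ≤ 3 * C0 := by
  have h1 : ∑ i, ‖v i - I * ξ t‖ ≤ ∑ i, (‖v i‖ + ‖ξ t‖) := Finset.sum_le_sum fun i _ => by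
    refine (norm_sub_le _ _).trans ?_
    rw [norm_mul, Complex.norm_I, one_mul]
  rw [Finset.sum_add_distrib, Finset.sum_const, card_univ, nsmul_eq_mul] at h1
  have h2 : (Fintype.card ι : ℝ) * ‖ξ t‖ ≤ 2 * C0 := by
    have h3 := T.norm_xi t
    rcases Nat.eq_zero_or_pos (Fintype.card ι) with h0 | h0
    · rw [h0, Nat.cast_zero, zero_mul]
      linarith [T.c0]
    · have h4 : (0 : ℝ) < Fintype.card ι := by exact_mod_cast h0
      rw [le_div_iff₀ h4] at h3
      linarith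
  linarith [T.vel]

/-- constant of `far` -/
def _root_.PLT.Fr.K1 (b C0 : ℝ) : ℝ := C0 * (11 * Real.exp (4 * b) + 600 * Real.exp (12 * b))

/-- **the far region** -/
theorem far (T : TrA b w v ξ ξe C0) {s : ℝ} (h : Hyp b s) {u : ℂ} (hu : |u.re + l / 2| ≤ s)
    (ht : 3 ≤ |u.im|) :
    ‖prd1 b (fun i => v i - I * ξ u.im) w u‖ ≤
      K1 b C0 * Real.exp (-(6 * b * |u.im|)) * ‖prd b w u‖ := by
  have hb := h.b1
  have hb2 := h.b2
  have hC0 := T.c0
  obtain ⟨σ, hσ, hσu⟩ : ∃ σ : ℝ, (σ = 1 ∨ σ = -1) ∧ σ * u.im = |u.im| := by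
    rcases le_total 0 u.im with h0 | h0
    · exact ⟨1, Or.inl rfl, by rw [one_mul, abs_of_nonneg h0]⟩
    · exact ⟨-1, Or.inr rfl, by rw [abs_of_nonpos h0]; ring⟩
  obtain ⟨F, hF⟩ : ∃ F, F = Real.exp (-(6 * b * |u.im|)) := ⟨_, rfl⟩
  have hF0 : 0 < F := by rw [hF]; exact Real.exp_pos _
  set a : ι → ℂ := fun i => v i - I * ξ u.im with ha
  have hn : (0 : ℝ) ≤ Fintype.card ι := Nat.cast_nonneg _
  -- the remainder
  have hrem : ‖prd1 b a w u + σ * (8 * I * b * cos (b * l)) * Xs σ b u * (∑ i, a i * Ep σ b (w i)) *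
      prd b w u‖ ≤ 3 * C0 * (200 * (Real.exp (12 * b) * F)) * ‖prd b w u‖ := by
    have e : prd1 b a w u + σ * (8 * I * b * cos (b * l)) * Xs σ b u * (∑ i, a i * Ep σ b (w i)) *
        prd b w u = ∑ i, a i * Rm b σ (u - w i) * ∏ j ∈ univ.erase i, psi b (u - w j) := by
      unfold prd1
      rw [mul_assoc (σ * (8 * I * b * cos (b * l)) * Xs σ b u : ℂ), Finset.sum_mul, Finset.mul_sum,
        ← Finset.sum_add_distrib]
      refine Finset.sum_congr rfl fun i _ => ?_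
      have e1 : prd b w u = psi b (u - w i) * ∏ j ∈ univ.erase i, psi b (u - w j) :=
        (Finset.mul_prod_erase univ (fun j => psi b (u - w j)) (mem_univ i)).symm
      rw [psiD_eq b σ u (w i), e1]
      ring
    rw [e]
    refine (norm_sum_le _ _).trans ?_
    have hone : ∀ i ∈ (univ : Finset ι),
        ‖a i * Rm b σ (u - w i) * ∏ j ∈ univ.erase i, psi b (u - w j)‖ ≤
        ‖a i‖ * ((200 * (Real.exp (12 * b) * F)) * ‖prd b w u‖) := by
      intro i _
      have e1 : prd b w u = psi b (u - w i) * ∏ j ∈ univ.erase i, psi b (u - w j) :=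
        (Finset.mul_prod_erase univ (fun j => psi b (u - w j)) (mem_univ i)).symm
      have him := T.pts.imu hσ (u := u) i
      have h1 := expand h.wide (re_pt h hu (T.pts.re i)) hσ (z := u - w i) (by linarith)
      have h2 : Real.exp (-(6 * b * (σ * (u - w i).im))) ≤ Real.exp (12 * b) * F := by
        rw [hF, ← Real.exp_add]
        refine Real.exp_le_exp.2 ?_
        rw [← hσu]
        nlinarith
      have h3 : ‖Rm b σ (u - w i)‖ ≤ 200 * (Real.exp (12 * b) * F) * ‖psi b (u - w i)‖ := by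
        refine h1.trans (mul_le_mul_of_nonneg_right ?_ (norm_nonneg _))
        linarith
      rw [norm_mul, norm_mul, e1, norm_mul]
      calc ‖a i‖ * ‖Rm b σ (u - w i)‖ * ‖∏ j ∈ univ.erase i, psi b (u - w j)‖ ≤
          ‖a i‖ * (200 * (Real.exp (12 * b) * F) * ‖psi b (u - w i)‖) *
            ‖∏ j ∈ univ.erase i, psi b (u - w j)‖ :=
            mul_le_mul_of_nonneg_right (mul_le_mul_of_nonneg_left h3 (norm_nonneg _))
              (norm_nonneg _)
        _ = _ := by ring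
    refine (Finset.sum_le_sum hone).trans ?_
    rw [← Finset.sum_mul]
    have hs := T.sum_rel u.im
    have h0 : 0 ≤ 200 * (Real.exp (12 * b) * F) * ‖prd b w u‖ := by positivity
    refine (mul_le_mul_of_nonneg_right hs h0).trans (le_of_eq ?_)
    ring
  -- the main term
  have hmain : ‖σ * (8 * I * b * cos (b * l)) * Xs σ b u * (∑ i, a i * Ep σ b (w i)) *
      prd b w u‖ ≤ 11 * (C0 * Real.exp (4 * b)) * F * ‖prd b w u‖ := by
    have e1 : ∑ i, a i * Ep σ b (w i) = I * (ξe σ - ξ u.im) * ∑ i, Ep σ b (w i) := by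
      have : ∑ i, a i * Ep σ b (w i) = ∑ i, v i * Ep σ b (w i) -
          I * ξ u.im * ∑ i, Ep σ b (w i) := by
        rw [Finset.mul_sum, ← Finset.sum_sub_distrib]
        refine Finset.sum_congr rfl fun i _ => ?_
        rw [ha]
        ring
      rw [this, T.cond σ hσ]
      ring
    have h1 : ‖∑ i, Ep σ b (w i)‖ ≤ Fintype.card ι * Real.exp (4 * b) := by
      refine (norm_sum_le _ _).trans ((Finset.sum_le_sum fun i _ =>
        norm_Ep (by linarith) hσ (T.im i)).trans (le_of_eq ?_))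
      rw [Finset.sum_const, card_univ, nsmul_eq_mul]
    have h2 := T.dec σ hσ u.im (by rw [hσu]; exact abs_nonneg _)
    rw [hσu] at h2
    have h3 : ‖∑ i, a i * Ep σ b (w i)‖ ≤ C0 * Real.exp (4 * b) *
        Real.exp (-(16 / 3 * |u.im|)) := by
      rw [e1, norm_mul, norm_mul, Complex.norm_I, one_mul, norm_sub_rev]
      refine (mul_le_mul h2 h1 (norm_nonneg _) ((norm_nonneg _).trans h2)).trans ?_
      rcases Nat.eq_zero_or_pos (Fintype.card ι) with h0 | h0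
      · rw [h0, Nat.cast_zero, zero_mul, mul_zero]
        positivity
      · have h4 : (Fintype.card ι : ℝ) ≠ 0 := by
          have : (0 : ℝ) < Fintype.card ι := by exact_mod_cast h0
          exact this.ne'
        refine le_of_eq ?_
        field_simp
    have h4 : ‖(σ : ℂ) * (8 * I * b * cos (b * l))‖ ≤ 11 := by
      have hσ1 : ‖(σ : ℂ)‖ = 1 := by rcases hσ with rfl | rfl <;> simp
      rw [norm_mul, hσ1, one_mul, norm_mul, norm_mul, norm_mul, Complex.norm_I, Complex.norm_real,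
        Real.norm_of_nonneg (by linarith : (0 : ℝ) ≤ b)]
      have h8 : ‖(8 : ℂ)‖ = 8 := by norm_num
      have hc := norm_cos_bl b
      have hc0 := norm_nonneg (cos (b * l : ℂ))
      rw [h8]
      nlinarith
    have h5 : ‖Xs σ b u‖ = Real.exp (-(2 * b * |u.im|)) := by rw [norm_Xs, hσu]
    have h6 : Real.exp (-(2 * b * |u.im|)) * Real.exp (-(16 / 3 * |u.im|)) ≤ F := by
      rw [hF, ← Real.exp_add]
      refine Real.exp_le_exp.2 ?_
      have := abs_nonneg u.im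
      nlinarith
    rw [norm_mul, norm_mul, norm_mul (((σ : ℂ) * (8 * I * b * cos (b * l))))]
    rw [h5]
    refine mul_le_mul_of_nonneg_right ?_ (norm_nonneg _)
    have h7 : ‖(σ : ℂ) * (8 * I * b * cos (b * l))‖ * Real.exp (-(2 * b * |u.im|)) *
        ‖∑ i, a i * Ep σ b (w i)‖ ≤ 11 * Real.exp (-(2 * b * |u.im|)) *
          (C0 * Real.exp (4 * b) * Real.exp (-(16 / 3 * |u.im|))) :=
      mul_le_mul (mul_le_mul_of_nonneg_right h4 (Real.exp_pos _).le) h3 (norm_nonneg _)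
        (by positivity)
    refine h7.trans ?_
    calc _ = 11 * (C0 * Real.exp (4 * b)) *
          (Real.exp (-(2 * b * |u.im|)) * Real.exp (-(16 / 3 * |u.im|))) := by ring
      _ ≤ _ := mul_le_mul_of_nonneg_left h6 (by positivity)
  rw [← hF]
  have e : prd1 b a w u = (prd1 b a w u + σ * (8 * I * b * cos (b * l)) * Xs σ b u *
      (∑ i, a i * Ep σ b (w i)) * prd b w u) - σ * (8 * I * b * cos (b * l)) * Xs σ b u *
      (∑ i, a i * Ep σ b (w i)) * prd b w u := by ring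
  rw [e]
  refine (norm_sub_le _ _).trans ((add_le_add hrem hmain).trans (le_of_eq ?_))
  unfold K1
  ring

/-- **all heights**, no transport condition used -/
theorem crude (T : TrA b w v ξ ξe C0) {s : ℝ} (h : Hyp b s) {u : ℂ} (hu : |u.re + l / 2| ≤ s) :
    ‖prd1 b (fun i => v i - I * ξ u.im) w u‖ ≤
      3 * C0 * (Kd b s * Real.exp (cA b s)) * Real.exp (-(2 * b * |u.im|)) *
        Real.exp (-(cA b s * (Fintype.card ι * Real.exp (-(2 * b * |u.im|))))) := by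
  have hK := Kd_pos h
  obtain ⟨E, hE⟩ : ∃ E, E = Real.exp (-(2 * b * |u.im|)) := ⟨_, rfl⟩
  have hE0 : 0 < E := by rw [hE]; exact Real.exp_pos _
  obtain ⟨Y, hY⟩ : ∃ Y, Y = Real.exp (-(cA b s * (Fintype.card ι * E))) := ⟨_, rfl⟩
  have hY0 : 0 < Y := by rw [hY]; exact Real.exp_pos _
  rw [← hE, ← hY]
  unfold prd1
  refine (norm_sum_le _ _).trans ?_
  have hone : ∀ i ∈ (univ : Finset ι),
      ‖(v i - I * ξ u.im) * psiD b (u - w i) * ∏ j ∈ univ.erase i, psi b (u - w j)‖ ≤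
      ‖v i - I * ξ u.im‖ * (Kd b s * E * (Real.exp (cA b s) * Y)) := by
    intro i _
    have h1 := psiD_le' h hu (T.pts.re i) (T.pts.im i)
    have h2 := erase_ax h hu T.re T.im i
    rw [← hE] at h1 h2
    rw [← hY] at h2
    rw [norm_mul, norm_mul, mul_assoc]
    exact mul_le_mul_of_nonneg_left (mul_le_mul h1 h2 (norm_nonneg _) (by positivity))
      (norm_nonneg _)
  refine (Finset.sum_le_sum hone).trans ?_
  rw [← Finset.sum_mul]
  refine (mul_le_mul_of_nonneg_right (T.sum_rel u.im) (by positivity)).trans (le_of_eq ?_)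
  ring

/-- constant of `FAR` -/
def _root_.PLT.Fr.CFA (b s C0 : ℝ) : ℝ :=
  (K1 b C0 + 3 * C0 * (Kd b s * Real.exp (cA b s)) * Real.exp (12 * b)) *
    ((1 / cA b s) ^ 3 * 6)

theorem _root_.PLT.Fr.CFA_nonneg {b s C0 : ℝ} (h : Hyp b s) (h0 : 0 ≤ C0) : 0 ≤ CFA b s C0 := by
  have := cA_pos h
  have := Kd_pos h
  unfold CFA K1
  positivity

/-- **(FAR)**: `‖prd1‖ ≤ C n ^ (-3) ‖1 - prd‖` -/
theorem FAR (T : TrA b w v ξ ξe C0) {s : ℝ} (h : Hyp b s) {u : ℂ} (hu : |u.re + l / 2| ≤ s)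
    (hn : 1 ≤ Fintype.card ι) :
    ‖prd1 b (fun i => v i - I * ξ u.im) w u‖ ≤
      CFA b s C0 / (Fintype.card ι : ℝ) ^ 3 * ‖1 - prd b w u‖ := by
  have hb := h.b1
  have hC0 := T.c0
  have hc := cA_pos h
  have hK := Kd_pos h
  have hn0 : (0 : ℝ) < Fintype.card ι := by exact_mod_cast hn
  obtain ⟨E, hE⟩ : ∃ E, E = Real.exp (-(2 * b * |u.im|)) := ⟨_, rfl⟩
  have hE0 : 0 < E := by rw [hE]; exact Real.exp_pos _
  have hP := prd_ax h hu T.re T.im
  have hG := phi_ge_ax h hu T.re T.im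
  have hX := T.crude h hu
  rw [← hE] at hP hG hX
  obtain ⟨n, hnn⟩ : ∃ n : ℝ, n = Fintype.card ι := ⟨_, rfl⟩
  rw [← hnn] at hP hG hX hn0 ⊢
  obtain ⟨y, hy⟩ : ∃ y, y = n * E := ⟨_, rfl⟩
  have hy0 : 0 < y := by rw [hy]; positivity
  rw [← hy] at hP hG hX
  have hE3 : E ^ 3 = y ^ 3 / n ^ 3 := by rw [hy]; field_simp
  obtain ⟨Y, hY⟩ : ∃ Y, Y = Real.exp (-(cA b s * y)) := ⟨_, rfl⟩
  have hY0 : 0 < Y := by rw [hY]; exact Real.exp_pos _
  rw [← hY] at hP hG hX
  obtain ⟨K, hKe⟩ : ∃ K, K = K1 b C0 := ⟨_, rfl⟩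
  have hK0 : 0 ≤ K := by rw [hKe]; unfold K1; positivity
  obtain ⟨K2, hK2⟩ : ∃ K2, K2 = 3 * C0 * (Kd b s * Real.exp (cA b s)) := ⟨_, rfl⟩
  have hK20 : 0 ≤ K2 := by rw [hK2]; positivity
  rw [← hK2] at hX
  have main : ‖prd1 b (fun i => v i - I * ξ u.im) w u‖ ≤
      (K + K2 * Real.exp (12 * b)) * (E ^ 3 * Y) := by
    rcases le_total 3 |u.im| with ht | ht
    · have h1 := T.far h hu ht
      have e1 : Real.exp (-(6 * b * |u.im|)) = E ^ 3 := by
        rw [hE, ← Real.exp_nat_mul]; congr 1; push_cast; ring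
      rw [e1, ← hKe] at h1
      refine h1.trans ?_
      have h2 : K * E ^ 3 * ‖prd b w u‖ ≤ K * E ^ 3 * Y :=
        mul_le_mul_of_nonneg_left hP (by positivity)
      have h3 : 0 ≤ K2 * Real.exp (12 * b) * (E ^ 3 * Y) := by positivity
      linarith
    · have e1 : Real.exp (-(6 * b)) ≤ E := by
        rw [hE]
        refine Real.exp_le_exp.2 ?_
        nlinarith
      have e2 : E ≤ Real.exp (12 * b) * E ^ 3 := by
        have g1 : 1 ≤ Real.exp (6 * b) * E := by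
          have := mul_le_mul_of_nonneg_left e1 (Real.exp_pos (6 * b)).le
          rwa [← Real.exp_add, add_neg_cancel, Real.exp_zero] at this
        have g2 : Real.exp (12 * b) = Real.exp (6 * b) ^ 2 := by
          rw [← Real.exp_nat_mul]; congr 1; push_cast; ring
        have g3 : (1 : ℝ) ≤ (Real.exp (6 * b) * E) ^ 2 := one_le_pow₀ g1
        have e : Real.exp (12 * b) * E ^ 3 = (Real.exp (6 * b) * E) ^ 2 * E := by
          rw [g2]
          ring
        rw [e]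
        exact le_mul_of_one_le_left hE0.le g3
      refine hX.trans ?_
      have h2 : K2 * E * Y ≤ K2 * (Real.exp (12 * b) * E ^ 3) * Y :=
        mul_le_mul_of_nonneg_right (mul_le_mul_of_nonneg_left e2 hK20) hY0.le
      have h3 : 0 ≤ K * (E ^ 3 * Y) := by positivity
      linarith
  have hcube := cube_exp (x := cA b s * y) (by positivity)
  rw [← hY] at hcube
  have e4 : y ^ 3 * Y ≤ (1 / cA b s) ^ 3 * 6 * ‖1 - prd b w u‖ := by
    have e5 : y ^ 3 = (1 / cA b s) ^ 3 * (cA b s * y) ^ 3 := by field_simp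
    rw [e5, mul_assoc, mul_assoc]
    refine mul_le_mul_of_nonneg_left ?_ (by positivity)
    linarith
  refine main.trans ?_
  rw [hE3]
  calc (K + K2 * Real.exp (12 * b)) * (y ^ 3 / n ^ 3 * Y) =
        (K + K2 * Real.exp (12 * b)) * (y ^ 3 * Y) / n ^ 3 := by ring
    _ ≤ (K + K2 * Real.exp (12 * b)) * ((1 / cA b s) ^ 3 * 6 * ‖1 - prd b w u‖) / n ^ 3 := by
        gcongr
    _ = _ := by
        unfold CFA
        rw [← hKe, ← hK2]
        ring

end TrA

/-! ### the extra points -/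

/-- constant of `norm_vE` -/
def CE (b C0 : ℝ) : ℝ := 8 * (C0 * Real.exp (6 * b))

/-- the velocities of the extra points -/
theorem norm_vE {b : ℝ} (hb : 1 ≤ b) {w v : ι → ℂ} (hi : ∀ i, |(w i).im| ≤ 2) {C0 : ℝ}
    (hv : ∑ i, ‖v i‖ ≤ C0) (hn : 1 ≤ Fintype.card ι) {ξe : ℝ → ℂ}
    (hξ : ∀ σ : ℝ, (σ = 1 ∨ σ = -1) → ‖ξe σ‖ ≤ C0 / Fintype.card ι) (i : Fin 2) :
    ‖vE b 0 0 w v ξe i‖ ≤ CE b C0 := by
  have hC0 : 0 ≤ C0 := (Finset.sum_nonneg fun i _ => norm_nonneg _).trans hv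
  have hn0 : (1 : ℝ) ≤ Fintype.card ι := by exact_mod_cast hn
  have h4 : Real.exp (2 * b) ≤ Real.exp (4 * b) := Real.exp_le_exp.2 (by linarith)
  have h4' : Real.exp (-(2 * b)) ≤ Real.exp (4 * b) := Real.exp_le_exp.2 (by linarith)
  have n2 : ‖(exp (2 * b) : ℂ)‖ = Real.exp (2 * b) := by rw [Complex.norm_exp]; simp
  have n2' : ‖(exp (-(2 * b)) : ℂ)‖ = Real.exp (-(2 * b)) := by rw [Complex.norm_exp]; simp
  have key : ∀ σ : ℝ, (σ = 1 ∨ σ = -1) → ‖RE b 0 0 w v ξe σ‖ ≤ 4 * (C0 * Real.exp (4 * b)) := by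
    intro σ hσ
    have e2 : ‖∑ i, Ep σ b (w i)‖ ≤ Fintype.card ι * Real.exp (4 * b) := by
      refine (norm_sum_le _ _).trans ((Finset.sum_le_sum fun i _ =>
        norm_Ep (by linarith) hσ (hi i)).trans (le_of_eq ?_))
      rw [Finset.sum_const, card_univ, nsmul_eq_mul]
    have e5 : ‖∑ i, v i * Ep σ b (w i)‖ ≤ C0 * Real.exp (4 * b) := by
      refine (norm_sum_le _ _).trans ((Finset.sum_le_sum (g := fun i => ‖v i‖ * Real.exp (4 * b))
        fun i _ => ?_).trans ?_)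
      · rw [norm_mul]
        exact mul_le_mul_of_nonneg_left (norm_Ep (by linarith) hσ (hi i)) (norm_nonneg _)
      · rw [← Finset.sum_mul]
        exact mul_le_mul_of_nonneg_right hv (Real.exp_pos _).le
    have e4 : ‖(2 * ((0 : ℕ) : ℂ) * cos (b * l) + ((0 : ℕ) : ℂ) +
        (∑ i, Ep σ b (w i) + (exp (2 * b) + exp (-(2 * b)))) : ℂ)‖ ≤
        3 * (Fintype.card ι * Real.exp (4 * b)) := by
      have e : (2 * ((0 : ℕ) : ℂ) * cos (b * l) + ((0 : ℕ) : ℂ) +
        (∑ i, Ep σ b (w i) + (exp (2 * b) + exp (-(2 * b)))) : ℂ) =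
        ∑ i, Ep σ b (w i) + (exp (2 * b) + exp (-(2 * b))) := by
        push_cast
        ring
      rw [e]
      refine (norm_add_le _ _).trans ?_
      have h5 := norm_add_le (exp (2 * b) : ℂ) (exp (-(2 * b)))
      rw [n2, n2'] at h5
      have h6 : Real.exp (4 * b) ≤ Fintype.card ι * Real.exp (4 * b) :=
        le_mul_of_one_le_left (Real.exp_pos _).le hn0
      linarith
    unfold RE
    refine (norm_sub_le _ _).trans ?_
    rw [norm_mul, norm_mul, Complex.norm_I, one_mul]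
    have h7 := mul_le_mul (hξ σ hσ) e4 (norm_nonneg _) (by positivity)
    have h8 : C0 / (Fintype.card ι : ℝ) * (3 * (Fintype.card ι * Real.exp (4 * b))) =
        3 * (C0 * Real.exp (4 * b)) := by
      field_simp
    rw [h8] at h7
    linarith
  have h1 := key 1 (Or.inl rfl)
  have h2 := key (-1) (Or.inr rfl)
  set R1 := RE b 0 0 w v ξe 1
  set R2 := RE b 0 0 w v ξe (-1)
  have n3 : ‖(exp (-(2 * b)) : ℂ)‖ ≤ Real.exp (2 * b) := by
    rw [n2']
    exact Real.exp_le_exp.2 (by linarith)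
  have hdet : 1 ≤ ‖(exp (4 * b) - exp (-(4 * b)) : ℂ)‖ := by
    rw [det_eq, Complex.norm_real]
    exact (det_ge hb).trans (le_abs_self _)
  have h6 : Real.exp (2 * b) * (4 * (C0 * Real.exp (4 * b))) = 4 * (C0 * Real.exp (6 * b)) := by
    have : Real.exp (6 * b) = Real.exp (2 * b) * Real.exp (4 * b) := by
      rw [← Real.exp_add]
      ring_nf
    rw [this]
    ring
  have fin : ∀ X Y : ℂ, ‖X‖ ≤ 4 * (C0 * Real.exp (4 * b)) → ‖Y‖ ≤ 4 * (C0 * Real.exp (4 * b)) →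
      ‖(exp (2 * b) * X - exp (-(2 * b)) * Y) / (exp (4 * b) - exp (-(4 * b)) : ℂ)‖ ≤ CE b C0 := by
    intro X Y hX hY
    rw [norm_div]
    refine (div_le_self (norm_nonneg _) hdet).trans ((norm_sub_le _ _).trans ?_)
    rw [norm_mul, norm_mul, n2]
    have a1 := mul_le_mul_of_nonneg_left hX (Real.exp_pos (2 * b)).le
    have a2 := mul_le_mul n3 hY (norm_nonneg _) (Real.exp_pos (2 * b)).le
    rw [h6] at a1 a2
    unfold CE
    linarith
  fin_cases i
  · exact fin _ _ h1 h2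
  · exact fin _ _ h2 h1

/-- constant of `ext` -/
def CX (b C0 : ℝ) : ℝ := C0 * (3 + 16 * Real.exp (6 * b))

/-- **the transport condition holds with the extra points** -/
theorem tr_ext {b : ℝ} (hb : 1 ≤ b) {w v : ι → ℂ} (hr : ∀ i, (w i).re = 0)
    (hi : ∀ i, |(w i).im| ≤ 2) {C0 : ℝ} (hv : ∑ i, ‖v i‖ ≤ C0) (hn : 1 ≤ Fintype.card ι)
    {ξ ξe : ℝ → ℂ} (hξ : ∀ σ : ℝ, (σ = 1 ∨ σ = -1) → ‖ξe σ‖ ≤ C0 / Fintype.card ι)
    (hd : ∀ σ : ℝ, (σ = 1 ∨ σ = -1) → ∀ t : ℝ, 0 ≤ σ * t →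
      ‖ξ t - ξe σ‖ ≤ C0 / Fintype.card ι * Real.exp (-(16 / 3 * (σ * t)))) :
    TrA b (Sum.elim w wE) (Sum.elim v (vE b 0 0 w v ξe)) ξ ξe (CX b C0) := by
  have hC0 : 0 ≤ C0 := (Finset.sum_nonneg fun i _ => norm_nonneg _).trans hv
  have hn0 : (1 : ℝ) ≤ Fintype.card ι := by exact_mod_cast hn
  have hcard : ((Fintype.card (ι ⊕ Fin 2) : ℕ) : ℝ) = Fintype.card ι + 2 := by
    rw [Fintype.card_sum, Fintype.card_fin]
    push_cast
    ring
  have hdiv : C0 / (Fintype.card ι : ℝ) ≤ CX b C0 / (Fintype.card (ι ⊕ Fin 2) : ℕ) := by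
    rw [hcard, div_le_div_iff₀ (by linarith) (by linarith)]
    unfold CX
    have h1 : C0 * (Fintype.card ι + 2) ≤ C0 * (3 * (Fintype.card ι : ℝ)) :=
      mul_le_mul_of_nonneg_left (by linarith) hC0
    have h2 : 0 ≤ C0 * (16 * Real.exp (6 * b)) * (Fintype.card ι : ℝ) := by positivity
    linarith
  refine ⟨?_, ?_, ?_, ?_, fun σ hσ => (hξ σ hσ).trans hdiv, fun σ hσ t ht =>
    (hd σ hσ t ht).trans (mul_le_mul_of_nonneg_right hdiv (Real.exp_pos _).le)⟩
  · rintro (i | i)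
    · exact hr i
    · fin_cases i <;> simp [wE]
  · rintro (i | i)
    · exact hi i
    · fin_cases i <;> simp [wE]
  · rw [Fintype.sum_sum_type]
    simp only [Sum.elim_inl, Sum.elim_inr]
    rw [Fin.sum_univ_two]
    have h1 := norm_vE hb hi hv hn hξ 0
    have h2 := norm_vE hb hi hv hn hξ 1
    unfold CE at h1 h2
    unfold CX
    linarith
  · intro σ hσ
    rw [Fintype.sum_sum_type, Fintype.sum_sum_type]
    simp only [Sum.elim_inl, Sum.elim_inr]
    rw [vE_cond hb 0 0 w v ξe hσ]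
    have e : ∑ i, Ep σ b (wE i) = exp (2 * b) + exp (-(2 * b)) := by
      unfold wE
      rw [Fin.sum_univ_two]
      simp only [Matrix.cons_val_zero, Matrix.cons_val_one]
      rw [Ep_I, Ep_nI]
      rcases hσ with rfl | rfl
      · simp
      · simp [add_comm]
    rw [e]
    unfold RE
    push_cast
    ring

end

end PLT.Fr

end
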