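import Pool.Agent.PLT.FarI
import Pool.Agent.PB.FarT

/-!
# Far end of the cutoff at arbitrary rows on the imaginary axis: the line of `T`

* `eMy y t = exp (- ∑ i, Ag (1/2) (t - Im y i))`, `Qy κ y t`: the product of the row factors on the line;
* **`W_T`**, **`R_T`**: the moved cutoffs with and without the extra points on the line of `T`, all heights:
  `≤ K e^{-6 b |t|} Qy`;
* `pw_min`: `e^{-6 b |t|} e^{- κ n e^{-(8/3)|t|}} ≤ C n ^ (-9 b / 4) min 1 (n e^{-(8/3)|t|})`;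
* `vac_ax`: the vacuum of the rows.
-/

set_option autoImplicit false
set_option linter.unusedSectionVars false

open Complex Finset

noncomputable section

namespace PLT.Fr

open NUP1 NURow PBFar NUO
open PB.K11 (Good wt wt_nonneg wt_le_one dpsi prod_le_sub norm_dprod_le psi43_ge)

section
variable {ι : Type*} [Fintype ι] [DecidableEq ι]

/-- the product of the row factors on the line of `T` -/
def eMy (y : ι → ℂ) (t : ℝ) : ℝ := Real.exp (-∑ i, NUMF.Ag (1 / 2) (t - (y i).im))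

theorem eMy_pos (y : ι → ℂ) (t : ℝ) : 0 < eMy y t := Real.exp_pos _

/-- with the rate of the larger cutoffs -/
def Qy (κ : ℝ) (y : ι → ℂ) (t : ℝ) : ℝ :=
  eMy y t * Real.exp (-(κ * (Fintype.card ι * Real.exp (-(8 / 3) * |t|))))

theorem Qy_pos (κ : ℝ) (y : ι → ℂ) (t : ℝ) : 0 < Qy κ y t := mul_pos (eMy_pos _ _) (Real.exp_pos _)

/-- the rate after shifting the heights -/
def kq (κ : ℝ) : ℝ := κ * Real.exp (-(16 / 3))

theorem kq_nonneg {κ : ℝ} (h : 0 ≤ κ) : 0 ≤ kq κ := mul_nonneg h (Real.exp_pos _).le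

theorem kq_pos {κ : ℝ} (h : 0 < κ) : 0 < kq κ := mul_pos h (Real.exp_pos _)

theorem g_eq {y : ℂ} (hr : y.re = 0) (t : ℝ) :
    ‖psi (4 / 3) (posT t - l - y)‖ = Real.exp (-NUMF.Ag (1 / 2) (t - y.im)) := by
  rw [← NUO.norm_psi_T_sub]
  congr 2
  have e : y = (y.im : ℂ) * I := by
    apply Complex.ext <;> simp [hr]
  rw [e]
  unfold posT vl
  simp
  ring

theorem wt_ax {y : ℂ} (hr : y.re = 0) (hi : |y.im| ≤ 2) (t : ℝ) :
    Real.exp (-(16 / 3)) * Real.exp (-(8 / 3) * |t|) ≤ wt y t := by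
  unfold PB.K11.wt
  rw [if_pos hr.ge, ← Real.exp_add]
  refine Real.exp_le_exp.2 ?_
  have := abs_sub t y.im
  linarith

/-- the product with the weights of the rows -/
theorem prod_g {y : ι → ℂ} (hr : ∀ i, (y i).re = 0) (hi : ∀ i, |(y i).im| ≤ 2) {κ : ℝ} (hκ : 0 ≤ κ)
    (t : ℝ) : (∏ i, ‖psi (4 / 3) (posT t - l - y i)‖) * Real.exp (-(κ * ∑ i, wt (y i) t)) ≤
      Qy (kq κ) y t := by
  have e1 : ∏ i, ‖psi (4 / 3) (posT t - l - y i)‖ = eMy y t := by
    unfold eMy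
    rw [← Finset.sum_neg_distrib, Real.exp_sum]
    exact Finset.prod_congr rfl fun i _ => g_eq (hr i) t
  rw [e1]
  unfold Qy
  refine mul_le_mul_of_nonneg_left (Real.exp_le_exp.2 (neg_le_neg ?_)) (eMy_pos y t).le
  have h1 : (Fintype.card ι : ℝ) * (Real.exp (-(16 / 3)) * Real.exp (-(8 / 3) * |t|)) ≤
      ∑ i, wt (y i) t := by
    have : ∑ _i : ι, Real.exp (-(16 / 3)) * Real.exp (-(8 / 3) * |t|) ≤ ∑ i, wt (y i) t :=
      Finset.sum_le_sum fun i _ => wt_ax (hr i) (hi i) t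
    rwa [Finset.sum_const, card_univ, nsmul_eq_mul] at this
  unfold kq
  calc κ * Real.exp (-(16 / 3)) * (Fintype.card ι * Real.exp (-(8 / 3) * |t|)) =
        κ * (Fintype.card ι * (Real.exp (-(16 / 3)) * Real.exp (-(8 / 3) * |t|))) := by ring
    _ ≤ _ := mul_le_mul_of_nonneg_left h1 hκ

theorem re_half {y : ℂ} (hr : y.re = 0) : |y.re| ≤ l / 2 := by
  have hl := l_pos
  rw [hr, abs_zero]
  positivity

/-- one row: lower bound of the weight -/
theorem h8 {κ : ℝ} (hκ : 0 ≤ κ) (hκ1 : κ ≤ 1 / 100) {y : ℂ} (hr : y.re = 0) (t : ℝ) :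
    1 / 8 ≤ ‖psi (4 / 3) (posT t - l - y)‖ * Real.exp (-(κ * wt y t)) := by
  have hl := l_pos
  have a1 : 1 / 4 ≤ ‖psi (4 / 3) (posT t - l - y)‖ := by
    have e : (posT t - l - y).re + l / 2 = -l := by
      rw [sub_re, sub_re, PB.K11.posT_re, ofReal_re, hr]
      ring
    refine psi43_ge ?_ ?_
    · rw [e, abs_neg, abs_of_pos hl]
    · rw [e, abs_neg, abs_of_pos hl]
      linarith
  have a2 : 1 / 2 ≤ Real.exp (-(κ * wt y t)) := by
    have b1 : κ * wt y t ≤ 1 / 2 := by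
      have := wt_le_one y t
      have := wt_nonneg y t
      nlinarith
    have := Real.add_one_le_exp (-(κ * wt y t))
    linarith
  nlinarith

theorem psiD_dpsi (β : ℝ) (z : ℂ) : psiD β z = dpsi β z := by
  unfold PBFar.psiD PB.K11.dpsi PBFar.th
  congr 1
  ring

theorem exp_im {β : ℝ} (hβ : 0 ≤ β) {w : ℂ} (hi : |w.im| ≤ 2) (t : ℝ) :
    Real.exp (-(2 * β) * |t - w.im|) ≤ Real.exp (4 * β) * Real.exp (-(2 * β * |t|)) := by
  rw [← Real.exp_add]
  refine Real.exp_le_exp.2 ?_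
  have h1 : |t| ≤ |t - w.im| + |w.im| := by
    have := abs_add_le (t - w.im) w.im
    rwa [sub_add_cancel] at this
  nlinarith

/-- **the derivative near the axis**, rows `y`, further points `x` -/
theorem near_T {κ' : Type*} [Fintype κ'] [DecidableEq κ'] {κ β : ℝ} (hκ : 0 ≤ κ) (hκ1 : κ ≤ 1 / 100)
    (h0 : 0 < β) (h1 : β ≤ 4 / 3) {y : ι → ℂ} {x : κ' → ℂ} (hr : ∀ i, (y i).re = 0)
    (hi : ∀ i, |(y i).im| ≤ 2) (hr' : ∀ i, (x i).re = 0) (hi' : ∀ i, |(x i).im| ≤ 2)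
    {a : ι ⊕ κ' → ℂ} {C : ℝ} (ha : ∑ i, ‖a i‖ ≤ C) {p : ℂ} {t : ℝ} (hp : p.im = t)
    (hp2 : |p.re + l / 2| ≤ 3 * l / 2)
    (hf : ∀ i, ‖psi β (p - y i)‖ ≤ ‖psi (4 / 3) (posT t - l - y i)‖ * Real.exp (-(κ * wt (y i) t))) :
    ‖prd1 β a (Sum.elim y x) p‖ ≤
      688 * (C * Real.exp (4 * β) * Real.exp (-(2 * β * |t|))) * Qy (kq κ) y t := by
  have hre : ∀ i, (Sum.elim y x i).re = 0 := by
    rintro (i | i)
    · exact hr i
    · exact hr' i
  have him : ∀ i, |(Sum.elim y x i).im| ≤ 2 := by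
    rintro (i | i)
    · exact hi i
    · exact hi' i
  set R : Finset (ι ⊕ κ') := univ.map Function.Embedding.inl with hR
  have hmem : ∀ i ∈ R, ∃ j, i = Sum.inl j := by
    intro i hi
    rw [hR, Finset.mem_map] at hi
    obtain ⟨j, -, rfl⟩ := hi
    exact ⟨j, rfl⟩
  have nD := norm_dprod_le (β := β) (R := R) (T := univ) (z := fun i => p - Sum.elim y x i) (c := a)
    (g := fun i => ‖psi (4 / 3) (posT t - l - Sum.elim y x i)‖)
    (w := fun i => wt (Sum.elim y x i) t) (κ := κ) h0 h1 (Finset.subset_univ R)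
    (fun i => by rw [sub_re, hre i, sub_zero]; exact hp2)
    (fun i hi => by
      obtain ⟨j, rfl⟩ := hmem i hi
      exact hf j)
    (fun i hi => by
      obtain ⟨j, rfl⟩ := hmem i hi
      exact h8 hκ hκ1 (hr j) t)
  have e1 : prd1 β a (Sum.elim y x) p = ∑ i, (∏ j ∈ univ.erase i, psi β (p - Sum.elim y x j)) *
      (dpsi β (p - Sum.elim y x i) * a i) := by
    unfold prd1
    refine Finset.sum_congr rfl fun i _ => ?_
    rw [psiD_dpsi]
    ring
  rw [e1]
  refine nD.trans ?_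
  have hs : ∑ i, ‖a i‖ * Real.exp (-(2 * β) * |(p - Sum.elim y x i).im|) ≤
      C * Real.exp (4 * β) * Real.exp (-(2 * β * |t|)) := by
    calc _ ≤ ∑ i, ‖a i‖ * (Real.exp (4 * β) * Real.exp (-(2 * β * |t|))) := by
          refine Finset.sum_le_sum fun i _ => mul_le_mul_of_nonneg_left ?_ (norm_nonneg _)
          rw [sub_im, hp]
          exact exp_im h0.le (him i) t
      _ = (∑ i, ‖a i‖) * (Real.exp (4 * β) * Real.exp (-(2 * β * |t|))) := by
          rw [Finset.sum_mul]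
      _ ≤ C * (Real.exp (4 * β) * Real.exp (-(2 * β * |t|))) :=
          mul_le_mul_of_nonneg_right ha (by positivity)
      _ = _ := by ring
  have hQ : (∏ i ∈ R, ‖psi (4 / 3) (posT t - l - Sum.elim y x i)‖) *
      Real.exp (-(κ * ∑ i ∈ R, wt (Sum.elim y x i) t)) ≤ Qy (kq κ) y t := by
    rw [hR, Finset.prod_map, Finset.sum_map]
    exact prod_g hr hi hκ t
  have hQ0 : 0 ≤ (∏ i ∈ R, ‖psi (4 / 3) (posT t - l - Sum.elim y x i)‖) *
      Real.exp (-(κ * ∑ i ∈ R, wt (Sum.elim y x i) t)) :=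
    mul_nonneg (Finset.prod_nonneg fun i _ => norm_nonneg _) (Real.exp_pos _).le
  have hC : 0 ≤ C := (Finset.sum_nonneg fun _ _ => norm_nonneg _).trans ha
  exact mul_le_mul (mul_le_mul_of_nonneg_left hs (by norm_num)) hQ hQ0 (by positivity)

/-- the products on the line of `T` -/
theorem prod_T {κ β : ℝ} (hκ : 0 ≤ κ) {y : ι → ℂ} (hr : ∀ i, (y i).re = 0)
    (hi : ∀ i, |(y i).im| ≤ 2) {p : ℂ} {t : ℝ}
    (hf : ∀ i, ‖psi β (p - y i)‖ ≤ ‖psi (4 / 3) (posT t - l - y i)‖ * Real.exp (-(κ * wt (y i) t))) :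
    ‖prd β y p‖ ≤ Qy (kq κ) y t := by
  refine le_trans ?_ (prod_g hr hi hκ t)
  unfold prd
  rw [norm_prod]
  have e : Real.exp (-(κ * ∑ i, wt (y i) t)) = ∏ i, Real.exp (-(κ * wt (y i) t)) := by
    rw [← Real.exp_sum]
    congr 1
    rw [Finset.mul_sum, Finset.sum_neg_distrib]
  rw [e, ← Finset.prod_mul_distrib]
  exact Finset.prod_le_prod (fun i _ => norm_nonneg _) fun i _ => hf i

theorem wE_re (i : Fin 2) : (wE i).re = 0 := by fin_cases i <;> simp [wE]

theorem wE_im (i : Fin 2) : |(wE i).im| ≤ 2 := by fin_cases i <;> simp [wE]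

/-! ### the three terms -/

/-- constant of `W_T` -/
def KW (b C0 : ℝ) : ℝ :=
  K1 b (CX b C0) + 688 * (3 * CX b C0 * Real.exp (4 * b)) * Real.exp (12 * b)

theorem KW_nonneg {b C0 : ℝ} (h : 0 ≤ C0) : 0 ≤ KW b C0 := by
  unfold KW K1 CX
  positivity

theorem near_exp {b t : ℝ} (hb : 0 ≤ b) (ht : |t| ≤ 3) :
    Real.exp (-(2 * b * |t|)) ≤ Real.exp (12 * b) * Real.exp (-(6 * b * |t|)) := by
  rw [← Real.exp_add]
  refine Real.exp_le_exp.2 ?_
  nlinarith [abs_nonneg t]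

/-- **the moved cutoff with the extra points on the line of `T`**, `p = posT t`, `posT t - l` -/
theorem W_T {κ b : ℝ} (hG : Good κ b) (hκ : 0 ≤ κ) (hκ1 : κ ≤ 1 / 100) {s : ℝ} (h : Hyp b s)
    (hs : s ≤ 3 * l / 2) {y v : ι → ℂ} {ξ ξe : ℝ → ℂ} {C0 : ℝ} (hr : ∀ i, (y i).re = 0)
    (hi : ∀ i, |(y i).im| ≤ 2)
    (T : TrA b (Sum.elim y wE) (Sum.elim v (vE b 0 0 y v ξe)) ξ ξe (CX b C0)) {p : ℂ} {t : ℝ}
    (hp : p = posT t ∨ p = posT t - l) (hu : |p.re + l / 2| ≤ s) :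
    ‖prd1 b (fun i => Sum.elim v (vE b 0 0 y v ξe) i - I * ξ t) (Sum.elim y wE) p‖ ≤
      KW b C0 * (Real.exp (-(6 * b * |t|)) * Qy (kq κ) y t) := by
  have hl := l_pos
  have hb := h.b1
  have hpt : p.im = t := by
    rcases hp with rfl | rfl
    · exact PB.K11.posT_im t
    · rw [sub_im, PB.K11.posT_im, ofReal_im, sub_zero]
  have hf : ∀ i, ‖psi b (p - y i)‖ ≤
      ‖psi (4 / 3) (posT t - l - y i)‖ * Real.exp (-(κ * wt (y i) t)) := fun i => by
    rcases hp with rfl | rfl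
    · exact (hG (y i) t (re_half (hr i))).2.1
    · exact (hG (y i) t (re_half (hr i))).1
  have hC := T.c0
  have hQ := Qy_pos (kq κ) y t
  obtain ⟨F, hF⟩ : ∃ F, F = Real.exp (-(6 * b * |t|)) := ⟨_, rfl⟩
  have hF0 : 0 < F := by rw [hF]; exact Real.exp_pos _
  have hK1 : 0 ≤ K1 b (CX b C0) := by unfold K1; positivity
  rcases le_total 3 |t| with ht | ht
  · have h1 := T.far h hu (by rw [hpt]; exact ht)
    rw [hpt, ← hF] at h1
    have h2 : ‖prd b (Sum.elim y wE) p‖ ≤ Qy (kq κ) y t := by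
      have e : prd b (Sum.elim y wE) p = prd b y p * prd b wE p := by
        unfold prd
        rw [Fintype.prod_sum_type]
        rfl
      rw [e, norm_mul]
      have h3 := prod_T (β := b) hκ hr hi hf
      have h4 := prod_ax_one h hu wE_re wE_im univ
      calc _ ≤ Qy (kq κ) y t * 1 := mul_le_mul h3 h4 (norm_nonneg _) hQ.le
        _ = _ := mul_one _
    refine h1.trans ?_
    rw [← hF]
    have h3 : K1 b (CX b C0) * F * ‖prd b (Sum.elim y wE) p‖ ≤
        K1 b (CX b C0) * F * Qy (kq κ) y t := mul_le_mul_of_nonneg_left h2 (by positivity)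
    have h4 : 0 ≤ 688 * (3 * CX b C0 * Real.exp (4 * b)) * Real.exp (12 * b) *
        (F * Qy (kq κ) y t) := by positivity
    unfold KW
    linarith
  · have h1 := near_T (κ' := Fin 2) (x := wE) hκ hκ1 (by linarith : 0 < b) h.b2 hr hi wE_re wE_im
      (T.sum_rel t) hpt (hu.trans hs) hf
    refine h1.trans ?_
    have h2 := near_exp (b := b) (by linarith) ht
    rw [← hF] at h2
    rw [← hF]
    have h3 : 688 * (3 * CX b C0 * Real.exp (4 * b) * Real.exp (-(2 * b * |t|))) * Qy (kq κ) y t ≤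
        688 * (3 * CX b C0 * Real.exp (4 * b) * (Real.exp (12 * b) * F)) * Qy (kq κ) y t := by
      gcongr
    have h4 : 0 ≤ K1 b (CX b C0) * (F * Qy (kq κ) y t) := by positivity
    unfold KW
    linarith

/-- constant of `R_T` -/
def KR (C0 : ℝ) : ℝ :=
  K1 (4 / 3) C0 + 688 * (3 * C0 * Real.exp (4 * (4 / 3))) * Real.exp (12 * (4 / 3))

theorem KR_nonneg {C0 : ℝ} (h : 0 ≤ C0) : 0 ≤ KR C0 := by
  unfold KR K1
  positivity

/-- **the moved cutoff of the rows on the line of `T`** -/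
theorem R_T {κ b : ℝ} (hG : Good κ b) (hκ : 0 ≤ κ) (hκ1 : κ ≤ 1 / 100) (h2 : b ≤ 4 / 3)
    {y v : ι → ℂ} {ξ ξe : ℝ → ℂ} {C0 : ℝ} (T : TrA (4 / 3) y v ξ ξe C0) (t : ℝ) :
    ‖prd1 (4 / 3) (fun i => v i - I * ξ t) y (posT t)‖ ≤
      KR C0 * (Real.exp (-(6 * b * |t|)) * Qy (kq κ) y t) := by
  have hl := l_pos
  obtain ⟨s1, s2, s3⟩ := posT_strip t
  have hpt : (posT t).im = t := PB.K11.posT_im t
  have hf : ∀ i, ‖psi (4 / 3) (posT t - y i)‖ ≤
      ‖psi (4 / 3) (posT t - l - y i)‖ * Real.exp (-(κ * wt (y i) t)) := fun i =>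
    (hG (y i) t (re_half (T.re i))).2.2.1
  have hC := T.c0
  have hQ := Qy_pos (kq κ) y t
  obtain ⟨F, hF⟩ : ∃ F, F = Real.exp (-(6 * b * |t|)) := ⟨_, rfl⟩
  have hF0 : 0 < F := by rw [hF]; exact Real.exp_pos _
  have hF8 : Real.exp (-(6 * (4 / 3) * |t|)) ≤ F := by
    rw [hF]
    refine Real.exp_le_exp.2 ?_
    nlinarith [abs_nonneg t]
  have hK1 : 0 ≤ K1 (4 / 3) C0 := by unfold K1; positivity
  rw [← hF]
  rcases le_total 3 |t| with ht | ht
  · have h1 := T.far hyp_43 s1 (by rw [hpt]; exact ht)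
    rw [hpt] at h1
    have h3 := prod_T (β := 4 / 3) hκ T.re T.im hf
    have h4 : K1 (4 / 3) C0 * Real.exp (-(6 * (4 / 3) * |t|)) * ‖prd (4 / 3) y (posT t)‖ ≤
        K1 (4 / 3) C0 * F * Qy (kq κ) y t :=
      mul_le_mul (mul_le_mul_of_nonneg_left hF8 hK1) h3 (norm_nonneg _) (by positivity)
    refine (h1.trans h4).trans ?_
    have h5 : 0 ≤ 688 * (3 * C0 * Real.exp (4 * (4 / 3))) * Real.exp (12 * (4 / 3)) *
        (F * Qy (kq κ) y t) := by positivity
    unfold KR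
    linarith
  · have h1 := near_T (κ' := Fin 0) (x := Fin.elim0) (β := 4 / 3) hκ hκ1 (by norm_num) le_rfl T.re
      T.im (fun i => i.elim0) (fun i => i.elim0)
      (a := Sum.elim (fun i => v i - I * ξ t) Fin.elim0) (C := 3 * C0) (by
        rw [Fintype.sum_sum_type]
        simpa using T.sum_rel t) hpt s2 hf
    have e : prd1 (4 / 3) (Sum.elim (fun i => v i - I * ξ t) Fin.elim0)
        (Sum.elim y Fin.elim0 : ι ⊕ Fin 0 → ℂ) (posT t) =
        prd1 (4 / 3) (fun i => v i - I * ξ t) y (posT t) := by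
      unfold prd1
      rw [Fintype.sum_sum_type]
      simp only [Sum.elim_inl, univ_eq_empty, Finset.sum_empty, add_zero]
      refine Finset.sum_congr rfl fun i _ => ?_
      congr 1
      have e2 : (univ : Finset (ι ⊕ Fin 0)).erase (Sum.inl i) =
          (univ.erase i).map Function.Embedding.inl := by
        ext j
        rcases j with j | j
        · simp
        · exact j.elim0
      rw [e2, Finset.prod_map]
      rfl
    rw [e] at h1
    refine h1.trans ?_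
    have h2 := near_exp (b := 4 / 3) (by norm_num) ht
    have h3 : 688 * (3 * C0 * Real.exp (4 * (4 / 3)) * Real.exp (-(2 * (4 / 3) * |t|))) *
        Qy (kq κ) y t ≤
        688 * (3 * C0 * Real.exp (4 * (4 / 3)) * (Real.exp (12 * (4 / 3)) * F)) *
          Qy (kq κ) y t := by
      have h4 := h2.trans (mul_le_mul_of_nonneg_left hF8 (Real.exp_pos _).le)
      gcongr
    have h5 : 0 ≤ K1 (4 / 3) C0 * (F * Qy (kq κ) y t) := by positivity
    unfold KR
    linarith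

/-! ### powers -/

/-- **powers of the number of rows** -/
theorem pw_min {b κ : ℝ} (h1 : 4 / 9 ≤ b) (h2 : b ≤ 4 / 3) (hκ : 0 < κ) {n : ℝ} (hn : 0 < n) (t : ℝ) :
    Real.exp (-(6 * b * |t|)) * Real.exp (-(κ * (n * Real.exp (-(8 / 3) * |t|)))) ≤
      (1 + 6 / κ ^ 3) * (n ^ (-(9 / 4 * b)) * min 1 (n * Real.exp (-(8 / 3) * |t|))) := by
  set y := n * Real.exp (-(8 / 3) * |t|) with hy
  have hy0 : 0 < y := by rw [hy]; positivity
  have e1 : Real.exp (-(6 * b * |t|)) = n ^ (-(9 / 4 * b)) * y ^ (9 / 4 * b) := by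
    rw [hy, Real.mul_rpow hn.le (Real.exp_pos _).le, ← mul_assoc, ← Real.rpow_add hn,
      neg_add_cancel, Real.rpow_zero, one_mul, ← Real.exp_mul]
    congr 1
    ring
  rw [e1]
  have e2 := rpow_exp_le (p := 9 / 4 * b) hκ (by linarith) (by linarith) hy0.le
  have e3 : 0 ≤ n ^ (-(9 / 4 * b)) := Real.rpow_nonneg hn.le _
  calc n ^ (-(9 / 4 * b)) * y ^ (9 / 4 * b) * Real.exp (-(κ * y)) =
        n ^ (-(9 / 4 * b)) * (y ^ (9 / 4 * b) * Real.exp (-(κ * y))) := by ring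
    _ ≤ n ^ (-(9 / 4 * b)) * ((1 + 6 / κ ^ 3) * min 1 y) := mul_le_mul_of_nonneg_left e2 e3
    _ = _ := by ring

/-! ### the vacuum -/

/-- the height of the vacuum of `n` rows is `3 / 8 log n + tauI` -/
def tauI : ℝ := 3 / 8 * Real.log (6 * (1 + Kp (4 / 3) l))

theorem tauI_nonneg : 0 ≤ tauI := by
  have := Kp_pos hyp_43
  unfold tauI
  exact mul_nonneg (by norm_num) (Real.log_nonneg (by linarith))

/-- **the vacuum of the rows** -/
theorem vac_ax {y : ι → ℂ} (hr : ∀ i, (y i).re = 0) (hi : ∀ i, |(y i).im| ≤ 2) {N : ℝ} (hN : 0 < N)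
    (hcard : (Fintype.card ι : ℝ) ≤ N) {u : ℂ} (hu : |u.re + l / 2| ≤ l)
    (ht : 3 / 8 * Real.log N + tauI ≤ |u.im|) : ‖prd (4 / 3) y u - 1‖ ≤ 1 / 5 := by
  have hK := Kp_pos hyp_43
  have h1 := one_sub_prod_le (f := fun i => psi (4 / 3) (u - y i))
    (fun i => le_exp_sub (one_sub_psi_le' hyp_43 hu (re_half (hr i)) (hi i))) univ
  rw [norm_sub_rev]
  unfold prd
  refine h1.trans ?_
  rw [card_univ]
  have h2 : Real.exp (-(2 * (4 / 3) * |u.im|)) ≤ 1 / (N * (6 * (1 + Kp (4 / 3) l))) := by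
    have h3 : Real.exp (-(2 * (4 / 3) * |u.im|)) ≤
        Real.exp (-(Real.log (N * (6 * (1 + Kp (4 / 3) l))))) := by
      refine Real.exp_le_exp.2 (neg_le_neg ?_)
      rw [Real.log_mul hN.ne' (by positivity)]
      unfold tauI at ht
      linarith
    rwa [Real.exp_neg (Real.log _), Real.exp_log (by positivity), ← one_div] at h3
  have h4 : (Fintype.card ι : ℝ) * (Kp (4 / 3) l * Real.exp (-(2 * (4 / 3) * |u.im|))) ≤ 1 / 6 := by
    calc _ ≤ N * (Kp (4 / 3) l * (1 / (N * (6 * (1 + Kp (4 / 3) l))))) := by gcongr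
      _ = Kp (4 / 3) l / (1 + Kp (4 / 3) l) * (1 / 6) := by field_simp
      _ ≤ 1 * (1 / 6) := by
          refine mul_le_mul_of_nonneg_right ?_ (by norm_num)
          rw [div_le_one (by positivity)]
          linarith
      _ = _ := one_mul _
  have h5 := Real.exp_le_exp.2 h4
  have h6 : Real.exp (1 / 6) ≤ 6 / 5 := by
    have h7 : Real.exp (-(1 / 6)) ≥ 5 / 6 := by
      have := Real.add_one_le_exp (-(1 / 6) : ℝ)
      linarith
    have h8 : Real.exp (1 / 6) * Real.exp (-(1 / 6)) = 1 := by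
      rw [← Real.exp_add, add_neg_cancel, Real.exp_zero]
    have h9 := Real.exp_pos (1 / 6 : ℝ)
    nlinarith
  linarith

end

end PLT.Fr

end
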