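import Pool.Agent.PLT.FldT

/-!
# PLAX-theta, field for two places: trigonometric estimates

`fc z = cos z / (2 cos z + 1)`, `gc z = 2 cos z - 1`; `A`, `B` of the same height `τ`, `C = cosh τ`.
* **`re_fg`** : `Re (fc A gc B) ≥ (2 cos x₁ - 1) / 9 C` for `|Re A|, |Re B| ≤ x₁ < π / 3`,
  `sin (Re A) sin (Re B) ≤ 1 / 4`;
* `norm_fg_le` : `‖fc A gc B‖ ≤ 3 C`; `re_fg_far` : `k C - 1 / 2 - 3 / (4 k) ≤ Re (fc A gc B)`,
  `|Re A|, |Re B| ≤ x₂ < π / 2`, `k = cos x₂`.
-/

set_option autoImplicit false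

noncomputable section

namespace PLT

open Complex

/-- first factor -/
def fc (z : ℂ) : ℂ := cos z / (2 * cos z + 1)

/-- second factor -/
def gc (z : ℂ) : ℂ := 2 * cos z - 1

theorem two_cos_re (z : ℂ) : (2 * cos z).re = 2 * (Real.cos z.re * Real.cosh z.im) := by
  rw [show (2 : ℂ) = ((2 : ℝ) : ℂ) by push_cast; rfl, re_ofReal_mul, cos_re']

theorem norm_gc_le (z : ℂ) : ‖gc z‖ ≤ 3 * Real.cosh z.im := by
  unfold gc
  refine (norm_sub_le _ _).trans ?_
  rw [norm_mul, norm_one]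
  simp only [Complex.norm_ofNat]
  have h1 := norm_cos_le z
  have h2 := Real.one_le_cosh z.im
  linarith

theorem cos_le_of {x x1 : ℝ} (h : |x| ≤ x1) (h1 : x1 ≤ Real.pi) : Real.cos x1 ≤ Real.cos x := by
  rw [← Real.cos_abs x]
  exact Real.cos_le_cos_of_nonneg_of_le_pi (abs_nonneg _) h1 h

/-- `2 cos z + 1` is away from `0` -/
theorem re_den {z : ℂ} (h : |z.re| ≤ Real.pi / 2) : 1 ≤ (2 * cos z + 1).re := by
  rw [add_re, one_re, two_cos_re]
  have h1 : 0 ≤ Real.cos z.re := Real.cos_nonneg_of_mem_Icc ⟨by linarith [(abs_le.1 h).1], (abs_le.1 h).2⟩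
  have h2 := Real.cosh_pos z.im
  have := mul_nonneg h1 h2.le
  linarith

theorem den_ne {z : ℂ} (h : |z.re| ≤ Real.pi / 2) : 2 * cos z + 1 ≠ 0 := by
  intro h0
  have := re_den h
  rw [h0, zero_re] at this
  linarith

theorem fc_eq {z : ℂ} (h : |z.re| ≤ Real.pi / 2) : fc z = 1 / 2 - 1 / (2 * (2 * cos z + 1)) := by
  unfold fc
  have h1 := den_ne h
  obtain ⟨d, hd⟩ : ∃ d, d = 2 * cos z + 1 := ⟨_, rfl⟩
  have h2 : cos z = (d - 1) / 2 := by rw [hd]; ring
  rw [← hd] at h1 ⊢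
  rw [h2]
  field_simp

theorem norm_fc_le {z : ℂ} (h : |z.re| ≤ Real.pi / 2) : ‖fc z‖ ≤ 1 := by
  rw [fc_eq h]
  refine (norm_sub_le _ _).trans ?_
  rw [norm_div, norm_div, norm_mul, norm_one]
  simp only [Complex.norm_ofNat]
  have h1 : 1 ≤ ‖2 * cos z + 1‖ := (re_den h).trans (Complex.re_le_norm _)
  have h2 : 1 / (2 * ‖2 * cos z + 1‖) ≤ 1 / (2 * 1) := by gcongr
  linarith

/-- upper bound -/
theorem norm_fg_le {A B : ℂ} (hi : A.im = B.im) (h : |A.re| ≤ Real.pi / 2) :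
    ‖fc A * gc B‖ ≤ 3 * Real.cosh A.im := by
  rw [norm_mul]
  have h1 := norm_fc_le h
  have h2 := norm_gc_le B
  rw [← hi] at h2
  have h3 := Real.cosh_pos A.im
  calc ‖fc A‖ * ‖gc B‖ ≤ 1 * (3 * Real.cosh A.im) := by gcongr
    _ = _ := one_mul _

/-- the exact real part -/
theorem re_fg_eq (A B : ℂ) (h0 : 2 * cos A + 1 ≠ 0) : (fc A * gc B).re * normSq (2 * cos A + 1) =
    (2 * normSq (cos A) + (cos A).re) * (2 * (cos B).re - 1) - 2 * ((cos A).im * (cos B).im) := by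
  have h1 : fc A * gc B * (2 * cos A + 1) = cos A * gc B := by
    unfold fc
    rw [mul_right_comm, div_mul_cancel₀ _ h0]
  have hn := normSq_pos.2 h0
  have h2 : (fc A * gc B).re * normSq (2 * cos A + 1) =
      (cos A * gc B * (starRingEnd ℂ) (2 * cos A + 1)).re := by
    rw [← h1, mul_assoc, mul_conj, re_mul_ofReal]
  rw [h2]
  unfold gc
  simp only [mul_re, mul_im, sub_re, sub_im, add_re, add_im, conj_re, conj_im, one_re, one_im,
    normSq_apply]
  simp
  ring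

/-- **lower bound on the inner strip** -/
theorem re_fg {x1 : ℝ} {A B : ℂ} (hi : A.im = B.im) (hx : x1 < Real.pi / 3) (hA : |A.re| ≤ x1)
    (hB : |B.re| ≤ x1) (hs : Real.sin A.re * Real.sin B.re ≤ 1 / 4) :
    0 < 2 * Real.cos x1 - 1 ∧ (2 * Real.cos x1 - 1) / 9 * Real.cosh A.im ≤ (fc A * gc B).re := by
  have hpi := Real.pi_pos
  have hx0 : 0 ≤ x1 := (abs_nonneg _).trans hA
  have hk : 1 / 2 < Real.cos x1 := by
    rw [← Real.cos_pi_div_three]
    exact Real.cos_lt_cos_of_nonneg_of_le_pi hx0 (by linarith) hx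
  refine ⟨by linarith, ?_⟩
  have h0 : 2 * cos A + 1 ≠ 0 := den_ne (by linarith)
  have hn := normSq_pos.2 h0
  have key := re_fg_eq A B h0
  have cA := cos_le_of hA (by linarith)
  have cB := cos_le_of hB (by linarith)
  obtain ⟨C, hC⟩ : ∃ C, C = Real.cosh A.im := ⟨_, rfl⟩
  have hC1 : 1 ≤ C := by rw [hC]; exact Real.one_le_cosh _
  have hS : Real.sinh A.im ^ 2 = C ^ 2 - 1 := by
    rw [hC, Real.cosh_sq]
    ring
  have e1 : normSq (cos A) = C ^ 2 - Real.sin A.re ^ 2 := by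
    rw [Complex.normSq_eq_norm_sq, norm_cos_sq, hS]
    have := Real.sin_sq_add_cos_sq A.re
    linarith
  have e2 : (cos A).re = Real.cos A.re * C := by rw [cos_re', hC]
  have e3 : (cos B).re = Real.cos B.re * C := by rw [cos_re', ← hi, hC]
  have e4 : (cos A).im * (cos B).im = Real.sin A.re * Real.sin B.re * (C ^ 2 - 1) := by
    rw [cos_im', cos_im', ← hi, ← hS]
    ring
  rw [e1, e2, e3, e4] at key
  have hup : normSq (2 * cos A + 1) ≤ 9 * C ^ 2 := by
    rw [Complex.normSq_eq_norm_sq]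
    have h1 : ‖2 * cos A + 1‖ ≤ 3 * C := by
      refine (norm_add_le _ _).trans ?_
      rw [norm_mul, norm_one]
      simp only [Complex.norm_ofNat]
      have := norm_cos_le A
      rw [← hC] at this
      linarith
    have h2 := norm_nonneg (2 * cos A + 1)
    nlinarith
  have hsA : Real.sin A.re ^ 2 ≤ 3 / 4 := by
    have := Real.sin_sq_add_cos_sq A.re
    nlinarith
  rw [← hC]
  generalize (fc A * gc B).re = X at *
  generalize normSq (2 * cos A + 1) = n at *
  generalize Real.cos x1 = k at *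
  have f1 : C ^ 2 ≤ 2 * (C ^ 2 - Real.sin A.re ^ 2) + Real.cos A.re * C := by nlinarith
  have f2 : (2 * k - 1) * C + (C - 1) ≤ 2 * (Real.cos B.re * C) - 1 := by nlinarith
  have f3 : 0 ≤ (2 * k - 1) * C + (C - 1) := by
    have : 0 ≤ (2 * k - 1) * C := mul_nonneg (by linarith) (by linarith)
    linarith
  have f4 : Real.sin A.re * Real.sin B.re * (C ^ 2 - 1) ≤ 1 / 4 * (C ^ 2 - 1) := by
    have : 0 ≤ C ^ 2 - 1 := by nlinarith
    gcongr
  have f5 : C ^ 2 * ((2 * k - 1) * C + (C - 1)) ≤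
      (2 * (C ^ 2 - Real.sin A.re ^ 2) + Real.cos A.re * C) * (2 * (Real.cos B.re * C) - 1) := by
    have : 0 ≤ C ^ 2 := by positivity
    exact mul_le_mul f1 f2 f3 (this.trans f1)
  have f6 : (2 * k - 1) * C ^ 3 ≤ X * n := by
    rw [key]
    have : 0 ≤ (C - 1) * (C ^ 2 - (C + 1) / 2) := mul_nonneg (by linarith) (by nlinarith)
    nlinarith
  have f7 : (2 * k - 1) / 9 * C * n ≤ X * n := by
    have : (2 * k - 1) / 9 * C * n ≤ (2 * k - 1) / 9 * C * (9 * C ^ 2) := by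
      have : 0 ≤ (2 * k - 1) / 9 * C := mul_nonneg (by linarith) (by linarith)
      gcongr
    nlinarith
  exact le_of_mul_le_mul_right f7 hn

/-- **lower bound far away** -/
theorem re_fg_far {x2 : ℝ} {A B : ℂ} (hi : A.im = B.im) (hx : x2 < Real.pi / 2) (hA : |A.re| ≤ x2)
    (hB : |B.re| ≤ x2) : 0 < Real.cos x2 ∧
    Real.cos x2 * Real.cosh A.im - 1 / 2 - 3 / (4 * Real.cos x2) ≤ (fc A * gc B).re := by
  have hpi := Real.pi_pos
  have hx0 : 0 ≤ x2 := (abs_nonneg _).trans hA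
  have hk : 0 < Real.cos x2 := Real.cos_pos_of_mem_Ioo ⟨by linarith, hx⟩
  refine ⟨hk, ?_⟩
  have cA := cos_le_of hA (by linarith)
  have cB := cos_le_of hB (by linarith)
  have hC := Real.one_le_cosh A.im
  have hC0 := Real.cosh_pos A.im
  have hd : 2 * (Real.cos x2 * Real.cosh A.im) ≤ ‖2 * cos A + 1‖ := by
    refine le_trans ?_ (Complex.re_le_norm _)
    rw [add_re, one_re, two_cos_re]
    have : Real.cos x2 * Real.cosh A.im ≤ Real.cos A.re * Real.cosh A.im := by gcongr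
    linarith
  have hg := norm_gc_le B
  rw [← hi] at hg
  have h1 : ‖gc B / (2 * (2 * cos A + 1))‖ ≤ 3 / (4 * Real.cos x2) := by
    rw [norm_div, norm_mul]
    simp only [Complex.norm_ofNat]
    have hp : 0 < Real.cos x2 * Real.cosh A.im := by positivity
    calc ‖gc B‖ / (2 * ‖2 * cos A + 1‖) ≤ 3 * Real.cosh A.im / (2 * (2 * (Real.cos x2 * Real.cosh A.im))) := by
          gcongr
      _ = _ := by
          field_simp
          norm_num
  have h2 : fc A * gc B = gc B / 2 - gc B / (2 * (2 * cos A + 1)) := by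
    rw [fc_eq (by linarith)]
    ring
  have h3 := (Complex.re_le_norm (gc B / (2 * (2 * cos A + 1)))).trans h1
  have h4 : (gc B / 2).re = (2 * (Real.cos B.re * Real.cosh A.im) - 1) / 2 := by
    rw [show (2 : ℂ) = ((2 : ℝ) : ℂ) by push_cast; rfl, Complex.div_ofReal_re]
    unfold gc
    rw [sub_re, one_re, two_cos_re, ← hi]
  rw [h2, sub_re, h4]
  have h5 : Real.cos x2 * Real.cosh A.im ≤ Real.cos B.re * Real.cosh A.im := by gcongr
  linarith

theorem gc_ne {z : ℂ} (h : |z.re| < Real.pi / 3) : gc z ≠ 0 := by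
  have hpi := Real.pi_pos
  intro h0
  have h1 : (gc z).re = 2 * (Real.cos z.re * Real.cosh z.im) - 1 := by
    unfold gc
    rw [sub_re, one_re, two_cos_re]
  rw [h0, zero_re] at h1
  have g1 : 1 / 2 < Real.cos z.re := by
    rw [← Real.cos_pi_div_three, ← Real.cos_abs z.re]
    exact Real.cos_lt_cos_of_nonneg_of_le_pi (abs_nonneg _) (by linarith) h
  have g2 := Real.one_le_cosh z.im
  nlinarith

end PLT

end
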