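import Pool.Agent.PLT.FldR
import Pool.Agent.PB.FieldR

/-!
# PLAX-theta, field: bounds of the density times the divisor

* `Hom y0 K x`: homogeneous content (rows at `- y0 l` and `y1 l`, balanced up to `K`) with at most `K` extra
  rows on the imaginary axis, heights `≤ 1`;
* **`RT y0 x w`** `= ∑ rrow y0 (x i) w`: density times divisor, continued; `RT_eq`, `RT_diff`;
* `RT_up`, `RT_far`, **`RT_low`**.
-/

set_option autoImplicit false

noncomputable section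

namespace PLT

open Complex
open NUP1 (l)
open PBForce (pc rhoR)

theorem cosh3_le (t : ℝ) : Real.cosh (3 * t) ≤ 4 * Real.cosh t ^ 3 := by
  rw [Real.cosh_three_mul]
  linarith [Real.cosh_pos t]

theorem cosh2_le (t : ℝ) : Real.cosh (2 * t) ≤ 2 * Real.cosh t ^ 2 := by
  rw [Real.cosh_two_mul, Real.cosh_sq]
  linarith

theorem norm_sin_le (z : ℂ) : ‖sin z‖ ≤ Real.cosh z.im := by
  have e : sin z = cos (z - Real.pi / 2) := (Complex.cos_sub_pi_div_two z).symm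
  rw [e]
  refine (norm_cos_le _).trans (le_of_eq ?_)
  congr 1
  rw [sub_im, show (Real.pi : ℂ) / 2 = ((Real.pi / 2 : ℝ) : ℂ) by push_cast; rfl, ofReal_im, sub_zero]

theorem exp_cosh_le (t : ℝ) : Real.exp (-|t|) * Real.cosh t ≤ 1 := by
  rw [← Real.cosh_abs, Real.cosh_eq]
  have h1 : Real.exp (-|t|) * Real.exp |t| = 1 := by rw [← Real.exp_add]; simp
  have h2 : Real.exp (-|t|) ≤ 1 := Real.exp_le_one_iff.2 (by linarith [abs_nonneg t])
  have h3 := Real.exp_pos (-|t|)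
  nlinarith

/-- common factor -/
theorem norm_4c_le (U : ℂ) : ‖4 * cos U ^ 2 - 1‖ ≤ 5 * Real.cosh U.im ^ 2 := by
  have h1 := norm_cos_le U
  have h2 := Real.one_le_cosh U.im
  refine (norm_sub_le _ _).trans ?_
  rw [norm_mul, norm_pow, norm_one]
  simp only [Complex.norm_ofNat]
  have h3 : ‖cos U‖ ^ 2 ≤ Real.cosh U.im ^ 2 := by gcongr
  nlinarith

theorem le_cos3 {b1 : ℝ} (hb : b1 < Real.pi / 2) {V : ℂ} (hV : |V.re| ≤ b1) :
    0 < Real.cos b1 ∧ (Real.cos b1 * Real.cosh V.im) ^ 3 ≤ ‖cos V ^ 3‖ := by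
  have hpi := Real.pi_pos
  have hb0 : 0 ≤ b1 := (abs_nonneg _).trans hV
  have hc : 0 < Real.cos b1 := Real.cos_pos_of_mem_Ioo ⟨by linarith, hb⟩
  refine ⟨hc, ?_⟩
  rw [norm_pow]
  have h1 := le_norm_cos hb hV
  have h2 := Real.cosh_pos V.im
  gcongr

theorem norm_pair_le {b1 : ℝ} (hb : b1 < Real.pi / 2) {U V : ℂ} (hi : U.im = V.im) (hV : |V.re| ≤ b1)
    (s : ℝ) : ‖(c00 : ℂ) * (sin (2 * V + s) * (4 * cos U ^ 2 - 1) / (2 * cos V ^ 3))‖ ≤
      5 * c00 / Real.cos b1 ^ 3 * Real.cosh V.im := by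
  obtain ⟨hc, h1⟩ := le_cos3 hb hV
  have h2 := norm_4c_le U
  rw [hi] at h2
  have hch := Real.cosh_pos V.im
  have hc00 := c00_pos
  have h3 : ‖sin (2 * V + s)‖ ≤ 2 * Real.cosh V.im ^ 2 := by
    refine (norm_sin_le _).trans ?_
    have e : (2 * V + (s : ℂ)).im = 2 * V.im := by
      rw [add_im, ofReal_im, add_zero]
      simp
    rw [e]
    exact cosh2_le _
  rw [norm_mul, norm_div, norm_mul, norm_mul, norm_real, Real.norm_of_nonneg hc00.le]
  simp only [Complex.norm_ofNat]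
  have h4 : 0 < (Real.cos b1 * Real.cosh V.im) ^ 3 := by positivity
  calc c00 * (‖sin (2 * V + s)‖ * ‖4 * cos U ^ 2 - 1‖ / (2 * ‖cos V ^ 3‖)) ≤
      c00 * (2 * Real.cosh V.im ^ 2 * (5 * Real.cosh V.im ^ 2) / (2 * (Real.cos b1 * Real.cosh V.im) ^ 3)) := by
        gcongr
    _ = _ := by
        field_simp

theorem norm_rM_le {b1 : ℝ} (hb : b1 < Real.pi / 2) {y0 : ℝ} {w : ℂ} (hV : |(aV y0 w).re| ≤ b1) :
    ‖rM y0 w‖ ≤ 5 * c00 / Real.cos b1 ^ 3 * Real.cosh (8 / 3 * w.im) := by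
  have h := norm_pair_le hb (U := aU w) (V := aV y0 w) (by rw [aU_im, aV_im]) hV (Real.pi / 3)
  rw [aV_im] at h
  unfold rM
  refine le_trans (le_of_eq ?_) h
  push_cast
  rfl

theorem norm_rP_le {b1 : ℝ} (hb : b1 < Real.pi / 2) {y0 : ℝ} {w : ℂ} (hV : |(aV y0 w).re| ≤ b1) :
    ‖rP y0 w‖ ≤ 5 * c00 / Real.cos b1 ^ 3 * Real.cosh (8 / 3 * w.im) := by
  have h := norm_pair_le hb (U := aU w) (V := aV y0 w) (by rw [aU_im, aV_im]) hV (-(Real.pi / 3))
  rw [aV_im] at h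
  unfold rP
  rw [norm_neg]
  refine le_trans (le_of_eq ?_) h
  push_cast
  rw [← sub_eq_add_neg]

/-- bound of the divisor -/
theorem norm_DT_le {b1 : ℝ} (hb : b1 < Real.pi / 2) {y0 : ℝ} {w : ℂ} (hV : |(aV y0 w).re| ≤ b1) :
    ‖DT y0 w‖ ≤ 20 / Real.cos b1 ^ 3 * Real.cosh (8 / 3 * w.im) ^ 2 := by
  obtain ⟨hc, h1⟩ := le_cos3 hb hV
  have h2 := norm_4c_le (aU w)
  rw [aU_im] at h2
  rw [aV_im] at h1
  have hch := Real.cosh_pos (8 / 3 * w.im)
  have h3 : ‖cos (3 * aV y0 w)‖ ≤ 4 * Real.cosh (8 / 3 * w.im) ^ 3 := by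
    refine (norm_cos_le _).trans ?_
    have e : (3 * aV y0 w).im = 3 * (8 / 3 * w.im) := by
      rw [show (3 : ℂ) = ((3 : ℝ) : ℂ) by push_cast; rfl, im_ofReal_mul, aV_im]
    rw [e]
    exact cosh3_le _
  unfold DT
  rw [norm_div, norm_mul]
  have h4 : 0 < (Real.cos b1 * Real.cosh (8 / 3 * w.im)) ^ 3 := by positivity
  calc ‖cos (3 * aV y0 w)‖ * ‖4 * cos (aU w) ^ 2 - 1‖ / ‖cos (aV y0 w) ^ 3‖ ≤
      4 * Real.cosh (8 / 3 * w.im) ^ 3 * (5 * Real.cosh (8 / 3 * w.im) ^ 2) /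
        (Real.cos b1 * Real.cosh (8 / 3 * w.im)) ^ 3 := by gcongr
    _ = _ := by
        field_simp
        norm_num

/-- extra rows -/
theorem norm_ext_le {b1 b : ℝ} (hb : b1 < Real.pi / 2) (hb0 : 0 ≤ b) (hbl : b < l) : ∃ C : ℝ, 0 < C ∧
    ∀ (y0 : ℝ) (X w : ℂ), X.re = 0 → |X.im| ≤ 1 → |w.re| ≤ b → |(aV y0 w).re| ≤ b1 →
      ‖pc (w - X) * DT y0 w‖ ≤ C * Real.cosh (8 / 3 * w.im) := by
  obtain ⟨C, hC, h⟩ := PBForce.pc_row_le hb0 hbl
  by_cases hc : 0 < Real.cos b1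
  swap
  · refine ⟨1, one_pos, fun y0 X w _ _ _ hV => absurd ?_ hc⟩
    have hb0 : 0 ≤ b1 := (abs_nonneg _).trans hV
    exact Real.cos_pos_of_mem_Ioo ⟨by linarith [Real.pi_pos], hb⟩
  refine ⟨C * (20 / Real.cos b1 ^ 3), by positivity, fun y0 X w hX0 hX1 hw hV => ?_⟩
  have h1 := h 1 (fun _ => X) ⟨fun _ => hX0, fun _ => hX1⟩ (w + l) (by simpa using hw) 0
  have h2 : ‖pc (w - X)‖ ≤ C * Real.exp (-|8 / 3 * w.im|) := by
    have e1 : w + l - l - X = w - X := by ring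
    rw [e1] at h1
    refine h1.trans (le_of_eq ?_)
    rw [add_im, ofReal_im, add_zero, abs_mul, abs_of_pos (by norm_num : (0 : ℝ) < 8 / 3)]
  have h3 := norm_DT_le hb hV
  have hch := Real.cosh_pos (8 / 3 * w.im)
  have h4 := exp_cosh_le (8 / 3 * w.im)
  rw [norm_mul]
  calc ‖pc (w - X)‖ * ‖DT y0 w‖ ≤ (C * Real.exp (-|8 / 3 * w.im|)) *
        (20 / Real.cos b1 ^ 3 * Real.cosh (8 / 3 * w.im) ^ 2) := by gcongr
    _ = C * (20 / Real.cos b1 ^ 3) * (Real.exp (-|8 / 3 * w.im|) * Real.cosh (8 / 3 * w.im)) *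
        Real.cosh (8 / 3 * w.im) := by ring
    _ ≤ C * (20 / Real.cos b1 ^ 3) * 1 * Real.cosh (8 / 3 * w.im) := by gcongr
    _ = _ := by ring

/-! ### contents -/

section content

variable {m : ℕ}

open Classical in
/-- number of rows at `- y0 l` -/
def nM (y0 : ℝ) (x : Fin m → ℂ) : ℕ := (Finset.univ.filter fun i => x i = -((y0 * l : ℝ) : ℂ)).card

open Classical in
/-- number of rows at `y1 l` -/
def nP (y0 : ℝ) (x : Fin m → ℂ) : ℕ :=
  (Finset.univ.filter fun i => x i ≠ -((y0 * l : ℝ) : ℂ) ∧ x i = (((1 - y0) * l : ℝ) : ℂ)).card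

open Classical in
/-- the extra rows -/
def eX (y0 : ℝ) (x : Fin m → ℂ) : Finset (Fin m) :=
  Finset.univ.filter fun i => x i ≠ -((y0 * l : ℝ) : ℂ) ∧ x i ≠ (((1 - y0) * l : ℝ) : ℂ)

/-- **homogeneous content with at most `K` extra rows** -/
structure Hom (y0 K : ℝ) (x : Fin m → ℂ) : Prop where
  lo : 1 / 2 ≤ y0
  hi : y0 ≤ 1
  row : ∀ i, x i = -((y0 * l : ℝ) : ℂ) ∨ x i = (((1 - y0) * l : ℝ) : ℂ) ∨ ((x i).re = 0 ∧ |(x i).im| ≤ 1)
  bal : |(nM y0 x : ℝ) * Real.sin (Real.pi / 6 + am y0) - nP y0 x * Real.sin (Real.pi / 6 - am y0)| ≤ K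
  mv : ((eX y0 x).card : ℝ) ≤ K

/-- **density times divisor, continued** -/
def RT (y0 : ℝ) (x : Fin m → ℂ) (w : ℂ) : ℂ := ∑ i, rrow y0 (x i) w

theorem RT_eq {y0 : ℝ} {x : Fin m → ℂ} {w : ℂ} (h : cos (3 * aV y0 w) ≠ 0) :
    RT y0 x w = rhoR x (l + w) * DT y0 w := by
  unfold RT rhoR
  rw [Finset.sum_mul]
  refine Finset.sum_congr rfl fun i _ => ?_
  rw [rrow_eq fun _ => h]
  congr 2
  ring

theorem RT_split (y0 : ℝ) (x : Fin m → ℂ) (w : ℂ) :
    RT y0 x w = nM y0 x * rM y0 w + nP y0 x * rP y0 w + ∑ i ∈ eX y0 x, pc (w - x i) * DT y0 w := by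
  classical
  unfold RT
  rw [← Finset.sum_filter_add_sum_filter_not Finset.univ (fun i => x i = -((y0 * l : ℝ) : ℂ))]
  have e1 : ∑ i ∈ Finset.univ.filter (fun i => x i = -((y0 * l : ℝ) : ℂ)), rrow y0 (x i) w =
      nM y0 x * rM y0 w := by
    rw [Finset.sum_congr rfl (g := fun _ => rM y0 w) fun i hi => by
      rw [Finset.mem_filter] at hi
      unfold rrow
      rw [if_pos hi.2], Finset.sum_const, nsmul_eq_mul]
    unfold nM
    congr!
  have e2 : ∑ i ∈ Finset.univ.filter (fun i => ¬ x i = -((y0 * l : ℝ) : ℂ)), rrow y0 (x i) w =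
      nP y0 x * rP y0 w + ∑ i ∈ eX y0 x, pc (w - x i) * DT y0 w := by
    rw [← Finset.sum_filter_add_sum_filter_not _ (fun i => x i = (((1 - y0) * l : ℝ) : ℂ)),
      Finset.filter_filter, Finset.filter_filter]
    congr 1
    · rw [Finset.sum_congr rfl (g := fun _ => rP y0 w) fun i hi => by
        rw [Finset.mem_filter] at hi
        unfold rrow
        rw [if_neg hi.2.1, if_pos hi.2.2], Finset.sum_const, nsmul_eq_mul]
      unfold nP
      congr!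
    · unfold eX
      refine Finset.sum_congr (by congr!) fun i hi => ?_
      rw [Finset.mem_filter] at hi
      unfold rrow
      rw [if_neg hi.2.1, if_neg hi.2.2]
  rw [e1, e2]
  ring

theorem card_eq (y0 : ℝ) (x : Fin m → ℂ) : nM y0 x + nP y0 x + (eX y0 x).card = m := by
  classical
  have h1 := Finset.card_filter_add_card_filter_not (s := (Finset.univ : Finset (Fin m)))
    (fun i => x i = -((y0 * l : ℝ) : ℂ))
  have h2 := Finset.card_filter_add_card_filter_not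
    (s := (Finset.univ.filter fun i : Fin m => ¬ x i = -((y0 * l : ℝ) : ℂ)))
    (fun i => x i = (((1 - y0) * l : ℝ) : ℂ))
  rw [Finset.filter_filter, Finset.filter_filter] at h2
  rw [Finset.card_univ, Fintype.card_fin] at h1
  have e1 : nM y0 x = (Finset.univ.filter fun i : Fin m => x i = -((y0 * l : ℝ) : ℂ)).card := by
    unfold nM; congr!
  have e2 : nP y0 x = (Finset.univ.filter fun i : Fin m => ¬ x i = -((y0 * l : ℝ) : ℂ) ∧
      x i = (((1 - y0) * l : ℝ) : ℂ)).card := by unfold nP; congr!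
  have e3 : (eX y0 x).card = (Finset.univ.filter fun i : Fin m => ¬ x i = -((y0 * l : ℝ) : ℂ) ∧
      ¬ x i = (((1 - y0) * l : ℝ) : ℂ)).card := by unfold eX; congr!
  rw [e1, e2, e3]
  omega

end content

end PLT

end
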