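import Pool.Agent.PLT.FeA
import Pool.Agent.PLT.FldB

/-!
# PLAX-theta, field for two places: the density times the divisor

Places `- p l`, `q l`; `w = u - l`; `aA p w = 8 (w + p l) / 3`, `aB q w = 8 (w - q l) / 3`.
* `D2 p q w = gc A gc B`; `rr2 p q X w` = `pc (w - X) D2`, continued for `X = - p l` and `X = q l`;
* `Two p q K x` : rows at the two places, at most `K` extra rows on the imaginary axis, heights `≤ 1`;
* **`R2 p q x w = ∑ rr2 p q (x i) w`**; `R2_up`, **`R2_low`**, `R2_far`, `R2_diff`, `R2_eq`.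
No balance is used.
-/

set_option autoImplicit false

noncomputable section

namespace PLT

open Complex
open NUP1 (l)
open PBForce (pc rhoR)

/-- angle with respect to the rows at `- p l` -/
def aA (p : ℝ) (w : ℂ) : ℂ := 8 / 3 * (w + ((p * l : ℝ) : ℂ))

/-- angle with respect to the rows at `q l` -/
def aB (q : ℝ) (w : ℂ) : ℂ := 8 / 3 * (w - ((q * l : ℝ) : ℂ))

/-- **the divisor** -/
def D2 (p q : ℝ) (w : ℂ) : ℂ := gc (aA p w) * gc (aB q w)

theorem re83 (z : ℂ) : (8 / 3 * z).re = 8 / 3 * z.re := by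
  rw [show (8 / 3 : ℂ) = ((8 / 3 : ℝ) : ℂ) by push_cast; rfl, re_ofReal_mul]

theorem im83 (z : ℂ) : (8 / 3 * z).im = 8 / 3 * z.im := by
  rw [show (8 / 3 : ℂ) = ((8 / 3 : ℝ) : ℂ) by push_cast; rfl, im_ofReal_mul]

theorem aA_re (p : ℝ) (w : ℂ) : (aA p w).re = 8 / 3 * w.re + Real.pi / 3 * p := by
  unfold aA l
  rw [re83, add_re, ofReal_re]
  ring

theorem aB_re (q : ℝ) (w : ℂ) : (aB q w).re = 8 / 3 * w.re - Real.pi / 3 * q := by
  unfold aB l
  rw [re83, sub_re, ofReal_re]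
  ring

theorem aA_im (p : ℝ) (w : ℂ) : (aA p w).im = 8 / 3 * w.im := by
  unfold aA
  rw [im83, add_im, ofReal_im, add_zero]

theorem aB_im (q : ℝ) (w : ℂ) : (aB q w).im = 8 / 3 * w.im := by
  unfold aB
  rw [im83, sub_im, ofReal_im, sub_zero]

theorem aAB_im (p q : ℝ) (w : ℂ) : (aA p w).im = (aB q w).im := by rw [aA_im, aB_im]

open Classical in
/-- **row times divisor, continued** -/
def rr2 (p q : ℝ) (X w : ℂ) : ℂ :=
  if X = -((p * l : ℝ) : ℂ) then c00 * (fc (aA p w) * gc (aB q w)) else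
    if X = ((q * l : ℝ) : ℂ) then c00 * (fc (aB q w) * gc (aA p w)) else pc (w - X) * D2 p q w

theorem pc_fc (z : ℂ) (h : gc (8 / 3 * z) ≠ 0) : pc z * gc (8 / 3 * z) = c00 * fc (8 / 3 * z) := by
  rw [pc_eq]
  unfold fc gc at *
  obtain ⟨c, hc⟩ : ∃ c, c = cos (8 / 3 * z) := ⟨_, rfl⟩
  rw [← hc] at h ⊢
  have e : 4 * c ^ 2 - 1 = (2 * c - 1) * (2 * c + 1) := by ring
  rw [e]
  obtain ⟨d, hd⟩ : ∃ d, d = 2 * c - 1 := ⟨_, rfl⟩
  rw [← hd] at h ⊢
  by_cases h1 : 2 * c + 1 = 0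
  · rw [h1]
    simp
  · obtain ⟨d', hd'⟩ : ∃ d', d' = 2 * c + 1 := ⟨_, rfl⟩
    rw [← hd'] at h1 ⊢
    field_simp

/-- the continuation agrees off the poles -/
theorem rr2_eq {p q : ℝ} {X w : ℂ} (hA : gc (aA p w) ≠ 0) (hB : gc (aB q w) ≠ 0) :
    rr2 p q X w = pc (w - X) * D2 p q w := by
  unfold rr2 D2
  split_ifs with h1 h2
  · have h3 := pc_fc (w + ((p * l : ℝ) : ℂ)) hA
    rw [h1, sub_neg_eq_add]
    unfold aA at *
    linear_combination -(gc (aB q w)) * h3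
  · have h3 := pc_fc (w - ((q * l : ℝ) : ℂ)) hB
    rw [h2]
    unfold aB at *
    linear_combination -(gc (aA p w)) * h3
  · rfl

/-- bound of the divisor -/
theorem norm_D2_le (p q : ℝ) (w : ℂ) : ‖D2 p q w‖ ≤ 9 * Real.cosh (8 / 3 * w.im) ^ 2 := by
  unfold D2
  rw [norm_mul]
  have h1 := norm_gc_le (aA p w)
  have h2 := norm_gc_le (aB q w)
  rw [aA_im] at h1
  rw [aB_im] at h2
  have h3 := Real.cosh_pos (8 / 3 * w.im)
  calc ‖gc (aA p w)‖ * ‖gc (aB q w)‖ ≤ (3 * Real.cosh (8 / 3 * w.im)) * (3 * Real.cosh (8 / 3 * w.im)) := by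
        gcongr
    _ = _ := by ring

/-- extra rows -/
theorem norm_ext2_le {b : ℝ} (hb0 : 0 ≤ b) (hbl : b < l) : ∃ C : ℝ, 0 < C ∧
    ∀ (p q : ℝ) (X w : ℂ), X.re = 0 → |X.im| ≤ 1 → |w.re| ≤ b →
      ‖pc (w - X) * D2 p q w‖ ≤ C * Real.cosh (8 / 3 * w.im) := by
  obtain ⟨C, hC, h⟩ := PBForce.pc_row_le hb0 hbl
  refine ⟨C * 9, by positivity, fun p q X w hX0 hX1 hw => ?_⟩
  have h1 := h 1 (fun _ => X) ⟨fun _ => hX0, fun _ => hX1⟩ (w + l) (by simpa using hw) 0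
  have h2 : ‖pc (w - X)‖ ≤ C * Real.exp (-|8 / 3 * w.im|) := by
    have e1 : w + l - l - X = w - X := by ring
    rw [e1] at h1
    refine h1.trans (le_of_eq ?_)
    rw [add_im, ofReal_im, add_zero, abs_mul, abs_of_pos (by norm_num : (0 : ℝ) < 8 / 3)]
  have h3 := norm_D2_le p q w
  have hch := Real.cosh_pos (8 / 3 * w.im)
  have h4 := exp_cosh_le (8 / 3 * w.im)
  rw [norm_mul]
  calc ‖pc (w - X)‖ * ‖D2 p q w‖ ≤ (C * Real.exp (-|8 / 3 * w.im|)) *
        (9 * Real.cosh (8 / 3 * w.im) ^ 2) := by gcongr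
    _ = C * 9 * (Real.exp (-|8 / 3 * w.im|) * Real.cosh (8 / 3 * w.im)) *
        Real.cosh (8 / 3 * w.im) := by ring
    _ ≤ C * 9 * 1 * Real.cosh (8 / 3 * w.im) := by gcongr
    _ = _ := by ring

/-! ### contents -/

section content

variable {m : ℕ}

open Classical in
/-- the rows which are not at the two places -/
def eX2 (p q : ℝ) (x : Fin m → ℂ) : Finset (Fin m) :=
  Finset.univ.filter fun i => x i ≠ -((p * l : ℝ) : ℂ) ∧ x i ≠ ((q * l : ℝ) : ℂ)

/-- **two places and at most `K` extra rows** -/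
structure Two (p q K : ℝ) (x : Fin m → ℂ) : Prop where
  row : ∀ i, x i = -((p * l : ℝ) : ℂ) ∨ x i = ((q * l : ℝ) : ℂ) ∨ ((x i).re = 0 ∧ |(x i).im| ≤ 1)
  mv : ((eX2 p q x).card : ℝ) ≤ K

/-- **density times divisor, continued** -/
def R2 (p q : ℝ) (x : Fin m → ℂ) (w : ℂ) : ℂ := ∑ i, rr2 p q (x i) w

theorem R2_eq {p q : ℝ} {x : Fin m → ℂ} {w : ℂ} (hA : gc (aA p w) ≠ 0) (hB : gc (aB q w) ≠ 0) :
    R2 p q x w = rhoR x (l + w) * D2 p q w := by
  unfold R2 rhoR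
  rw [Finset.sum_mul]
  refine Finset.sum_congr rfl fun i _ => ?_
  rw [rr2_eq hA hB]
  congr 2
  ring

theorem R2_split (p q : ℝ) (x : Fin m → ℂ) (w : ℂ) : R2 p q x w =
    ∑ i ∈ Finset.univ \ eX2 p q x, rr2 p q (x i) w + ∑ i ∈ eX2 p q x, rr2 p q (x i) w := by
  classical
  unfold R2
  rw [Finset.sum_sdiff (Finset.subset_univ _)]

theorem Two.K0 {p q K : ℝ} {x : Fin m → ℂ} (h : Two p q K x) : 0 ≤ K := (Nat.cast_nonneg _).trans h.mv

/-- a place row -/
theorem place_row {p q : ℝ} {x : Fin m → ℂ} {i : Fin m} (h : i ∈ Finset.univ \ eX2 p q x) (w : ℂ) :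
    rr2 p q (x i) w = c00 * (fc (aA p w) * gc (aB q w)) ∨ rr2 p q (x i) w = c00 * (fc (aB q w) * gc (aA p w)) := by
  classical
  rw [Finset.mem_sdiff] at h
  unfold eX2 at h
  rw [Finset.mem_filter, not_and, not_and_or, not_not, not_not] at h
  unfold rr2
  rcases h.2 (Finset.mem_univ _) with h1 | h1
  · exact Or.inl (if_pos h1)
  · by_cases h2 : x i = -((p * l : ℝ) : ℂ)
    · exact Or.inl (if_pos h2)
    · exact Or.inr (by rw [if_neg h2, if_pos h1])

theorem extra_row {p q K : ℝ} {x : Fin m → ℂ} (hx : Two p q K x) {i : Fin m} (h : i ∈ eX2 p q x) (w : ℂ) :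
    rr2 p q (x i) w = pc (w - x i) * D2 p q w ∧ (x i).re = 0 ∧ |(x i).im| ≤ 1 := by
  classical
  unfold eX2 at h
  rw [Finset.mem_filter] at h
  refine ⟨?_, ?_⟩
  · unfold rr2
    rw [if_neg h.2.1, if_neg h.2.2]
  · rcases hx.row i with h1 | h1 | h1
    · exact absurd h1 h.2.1
    · exact absurd h1 h.2.2
    · exact h1

theorem card2 (p q : ℝ) (x : Fin m → ℂ) :
    ((Finset.univ \ eX2 p q x).card : ℝ) + (eX2 p q x).card = m := by
  classical
  have h := Finset.card_sdiff_add_card_eq_card (Finset.subset_univ (eX2 p q x))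
  rw [Finset.card_univ, Fintype.card_fin] at h
  exact_mod_cast h

/-- **upper bound of a row** -/
theorem rr2_up {b : ℝ} (hb0 : 0 ≤ b) (hbl : b < l) : ∃ C : ℝ, 0 < C ∧
    ∀ (m : ℕ) (p q K : ℝ) (x : Fin m → ℂ) (i : Fin m) (w : ℂ), Two p q K x → |w.re| ≤ b →
      |(aA p w).re| ≤ Real.pi / 2 → |(aB q w).re| ≤ Real.pi / 2 →
      ‖rr2 p q (x i) w‖ ≤ C * Real.cosh (8 / 3 * w.im) := by
  classical
  obtain ⟨C, hC, h⟩ := norm_ext2_le hb0 hbl
  have hc := c00_pos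
  refine ⟨3 * c00 + C, by positivity, fun m p q K x i w hx hw hA hB => ?_⟩
  have hch := Real.cosh_pos (8 / 3 * w.im)
  have g1 := norm_fg_le (aAB_im p q w) hA
  have g2 := norm_fg_le (aAB_im p q w).symm hB
  rw [aA_im] at g1
  rw [aB_im] at g2
  have hp : ∀ z : ℂ, ‖z‖ ≤ 3 * Real.cosh (8 / 3 * w.im) →
      ‖(c00 : ℂ) * z‖ ≤ (3 * c00 + C) * Real.cosh (8 / 3 * w.im) := by
    intro z hz
    rw [norm_mul, norm_real, Real.norm_of_nonneg hc.le]
    have : 0 ≤ C * Real.cosh (8 / 3 * w.im) := by positivity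
    calc c00 * ‖z‖ ≤ c00 * (3 * Real.cosh (8 / 3 * w.im)) := by gcongr
      _ ≤ _ := by linarith
  by_cases hi : i ∈ eX2 p q x
  · obtain ⟨e1, e2, e3⟩ := extra_row hx hi w
    rw [e1]
    have h1 := h p q (x i) w e2 e3 hw
    have : 0 ≤ 3 * c00 * Real.cosh (8 / 3 * w.im) := by positivity
    linarith
  · rcases place_row (Finset.mem_sdiff.2 ⟨Finset.mem_univ i, hi⟩) w with h1 | h1
    · rw [h1]
      exact hp _ g1
    · rw [h1]
      exact hp _ g2

theorem R2_up {b : ℝ} (hb0 : 0 ≤ b) (hbl : b < l) : ∃ C : ℝ, 0 < C ∧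
    ∀ (m : ℕ) (p q K : ℝ) (x : Fin m → ℂ) (w : ℂ), Two p q K x → |w.re| ≤ b →
      |(aA p w).re| ≤ Real.pi / 2 → |(aB q w).re| ≤ Real.pi / 2 →
      ‖R2 p q x w‖ ≤ C * m * Real.cosh (8 / 3 * w.im) := by
  obtain ⟨C, hC, h⟩ := rr2_up hb0 hbl
  refine ⟨C, hC, fun m p q K x w hx hw hA hB => ?_⟩
  unfold R2
  refine (norm_sum_le _ _).trans ((Finset.sum_le_sum fun i _ => h m p q K x i w hx hw hA hB).trans
    (le_of_eq ?_))
  rw [Finset.sum_const, Finset.card_univ, Fintype.card_fin, nsmul_eq_mul]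
  ring

/-- real part from below, general form -/
theorem R2_re {b : ℝ} (hb0 : 0 ≤ b) (hbl : b < l) : ∃ C : ℝ, 0 < C ∧
    ∀ (m : ℕ) (p q K s : ℝ) (x : Fin m → ℂ) (w : ℂ), Two p q K x → |w.re| ≤ b →
      s ≤ (fc (aA p w) * gc (aB q w)).re → s ≤ (fc (aB q w) * gc (aA p w)).re →
      c00 * s * (Finset.univ \ eX2 p q x).card - C * K * Real.cosh (8 / 3 * w.im) ≤ (R2 p q x w).re := by
  obtain ⟨C, hC, h⟩ := norm_ext2_le hb0 hbl
  have hc := c00_pos
  refine ⟨C, hC, fun m p q K s x w hx hw h1 h2 => ?_⟩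
  have hch := Real.cosh_pos (8 / 3 * w.im)
  rw [R2_split, add_re, re_sum]
  have e1 : c00 * s * (Finset.univ \ eX2 p q x).card ≤ ∑ i ∈ Finset.univ \ eX2 p q x, (rr2 p q (x i) w).re := by
    have : ∑ _i ∈ Finset.univ \ eX2 p q x, c00 * s ≤ ∑ i ∈ Finset.univ \ eX2 p q x, (rr2 p q (x i) w).re := by
      refine Finset.sum_le_sum fun i hi => ?_
      rcases place_row hi w with h3 | h3
      · rw [h3, re_ofReal_mul]
        gcongr
      · rw [h3, re_ofReal_mul]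
        gcongr
    rw [Finset.sum_const, nsmul_eq_mul] at this
    linarith
  have e2 : ‖∑ i ∈ eX2 p q x, rr2 p q (x i) w‖ ≤ C * K * Real.cosh (8 / 3 * w.im) := by
    refine (norm_sum_le _ _).trans ?_
    refine (Finset.sum_le_sum fun i hi => ?_).trans (b := ∑ _i ∈ eX2 p q x, C * Real.cosh (8 / 3 * w.im)) ?_
    · obtain ⟨e1, e2, e3⟩ := extra_row hx hi w
      rw [e1]
      exact h p q (x i) w e2 e3 hw
    · rw [Finset.sum_const, nsmul_eq_mul]
      have := hx.mv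
      calc ((eX2 p q x).card : ℝ) * (C * Real.cosh (8 / 3 * w.im)) ≤ K * (C * Real.cosh (8 / 3 * w.im)) := by
            gcongr
        _ = _ := by ring
  have e3 := (abs_le.1 ((Complex.abs_re_le_norm _).trans e2)).1
  linarith

/-- **real part from below on the inner strip** -/
theorem R2_low {x1 b : ℝ} (hx1 : x1 < Real.pi / 3) (hb0 : 0 ≤ b) (hbl : b < l) :
    ∃ c C : ℝ, 0 < c ∧ 0 < C ∧ ∀ (m : ℕ) (p q K : ℝ) (x : Fin m → ℂ) (w : ℂ), Two p q K x → |w.re| ≤ b →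
      |(aA p w).re| ≤ x1 → |(aB q w).re| ≤ x1 → Real.sin (aA p w).re * Real.sin (aB q w).re ≤ 1 / 4 →
      (c * m - C * K) * Real.cosh (8 / 3 * w.im) ≤ (R2 p q x w).re := by
  obtain ⟨C, hC, h⟩ := R2_re hb0 hbl
  have hc := c00_pos
  have hpi := Real.pi_pos
  by_cases hx0 : 0 ≤ x1
  swap
  · exact ⟨1, 1, one_pos, one_pos, fun m p q K x w _ _ hA => absurd ((abs_nonneg _).trans hA) hx0⟩
  have hk : 1 / 2 < Real.cos x1 := by
    rw [← Real.cos_pi_div_three]
    exact Real.cos_lt_cos_of_nonneg_of_le_pi hx0 (by linarith) hx1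
  obtain ⟨c, hcd⟩ : ∃ c, c = (2 * Real.cos x1 - 1) / 9 := ⟨_, rfl⟩
  have hcp : 0 < c := by rw [hcd]; linarith
  refine ⟨c00 * c, c00 * c + C, by positivity, by positivity, fun m p q K x w hx hw hA hB hs => ?_⟩
  have hch := Real.cosh_pos (8 / 3 * w.im)
  obtain ⟨-, h1⟩ := re_fg (aAB_im p q w) hx1 hA hB hs
  obtain ⟨-, h2⟩ := re_fg (aAB_im p q w).symm hx1 hB hA (by rw [mul_comm]; exact hs)
  rw [← hcd, aA_im] at h1
  rw [← hcd, aB_im] at h2
  have h3 := h m p q K _ x w hx hw h1 h2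
  refine le_trans ?_ h3
  have e := card2 p q x
  have hmv := hx.mv
  have e1 : (m : ℝ) - K ≤ (Finset.univ \ eX2 p q x).card := by linarith
  have e2 : c00 * (c * Real.cosh (8 / 3 * w.im)) * ((m : ℝ) - K) ≤
      c00 * (c * Real.cosh (8 / 3 * w.im)) * (Finset.univ \ eX2 p q x).card := by gcongr
  linarith

/-- real part from below on the whole strip -/
theorem R2_far {x2 b : ℝ} (hx2 : x2 < Real.pi / 2) (hb0 : 0 ≤ b) (hbl : b < l) :
    ∃ c C : ℝ, 0 < c ∧ 0 < C ∧ ∀ (m : ℕ) (p q K : ℝ) (x : Fin m → ℂ) (w : ℂ), Two p q K x → |w.re| ≤ b →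
      |(aA p w).re| ≤ x2 → |(aB q w).re| ≤ x2 →
      (c * m - C * K) * Real.cosh (8 / 3 * w.im) - C * m ≤ (R2 p q x w).re := by
  obtain ⟨C, hC, h⟩ := R2_re hb0 hbl
  have hc := c00_pos
  have hpi := Real.pi_pos
  by_cases hx0 : 0 ≤ x2
  swap
  · exact ⟨1, 1, one_pos, one_pos, fun m p q K x w _ _ hA => absurd ((abs_nonneg _).trans hA) hx0⟩
  obtain ⟨k, hk⟩ : ∃ k, k = Real.cos x2 := ⟨_, rfl⟩
  have hkp : 0 < k := by rw [hk]; exact Real.cos_pos_of_mem_Ioo ⟨by linarith, hx2⟩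
  obtain ⟨g, hg⟩ : ∃ g, g = 1 / 2 + 3 / (4 * k) := ⟨_, rfl⟩
  have hgp : 0 < g := by rw [hg]; positivity
  refine ⟨c00 * k, c00 * k + C + c00 * g, by positivity, by positivity, fun m p q K x w hx hw hA hB => ?_⟩
  have hch := Real.cosh_pos (8 / 3 * w.im)
  obtain ⟨-, h1⟩ := re_fg_far (aAB_im p q w) hx2 hA hB
  obtain ⟨-, h2⟩ := re_fg_far (aAB_im p q w).symm hx2 hB hA
  rw [← hk, aA_im, sub_sub, ← hg] at h1
  rw [← hk, aB_im, sub_sub, ← hg] at h2
  have h3 := h m p q K _ x w hx hw h1 h2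
  refine le_trans ?_ h3
  have e := card2 p q x
  have hmv := hx.mv
  have hK := hx.K0
  have hE : (0 : ℝ) ≤ (eX2 p q x).card := Nat.cast_nonneg _
  have e1 : (m : ℝ) - K ≤ (Finset.univ \ eX2 p q x).card := by linarith
  have e4 : ((Finset.univ \ eX2 p q x).card : ℝ) ≤ m := by linarith
  have e2 : c00 * (k * Real.cosh (8 / 3 * w.im)) * ((m : ℝ) - K) ≤
      c00 * (k * Real.cosh (8 / 3 * w.im)) * (Finset.univ \ eX2 p q x).card := by gcongr
  have e3 : c00 * g * (Finset.univ \ eX2 p q x).card ≤ c00 * g * m := by gcongr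
  have e5 : 0 ≤ c00 * g * K * Real.cosh (8 / 3 * w.im) := by positivity
  have e6 : 0 ≤ (c00 * k + C) * m := by positivity
  linarith

/-! ### holomorphy -/

theorem aA_diff (p : ℝ) (w : ℂ) : DifferentiableAt ℂ (aA p) w := by
  unfold aA
  fun_prop

theorem aB_diff (q : ℝ) (w : ℂ) : DifferentiableAt ℂ (aB q) w := by
  unfold aB
  fun_prop

theorem gc_diff (z : ℂ) : DifferentiableAt ℂ gc z := by
  unfold gc
  fun_prop

theorem fc_diff {z : ℂ} (h : |z.re| ≤ Real.pi / 2) : DifferentiableAt ℂ fc z := by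
  unfold fc
  exact DifferentiableAt.fun_div (by fun_prop) (by fun_prop) (den_ne h)

theorem D2_diff (p q : ℝ) (w : ℂ) : DifferentiableAt ℂ (D2 p q) w := by
  unfold D2
  exact (DifferentiableAt.comp w (g := gc) (f := aA p) (gc_diff _) (aA_diff p w)).fun_mul
    (DifferentiableAt.comp w (g := gc) (f := aB q) (gc_diff _) (aB_diff q w))

theorem rr2_diff {p q K : ℝ} {x : Fin m → ℂ} (hx : Two p q K x) (i : Fin m) {w : ℂ} (hw : |w.re| < l)
    (hA : |(aA p w).re| ≤ Real.pi / 2) (hB : |(aB q w).re| ≤ Real.pi / 2) :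
    DifferentiableAt ℂ (rr2 p q (x i)) w := by
  classical
  have gA := DifferentiableAt.comp w (g := gc) (f := aA p) (gc_diff _) (aA_diff p w)
  have gB := DifferentiableAt.comp w (g := gc) (f := aB q) (gc_diff _) (aB_diff q w)
  have fA := DifferentiableAt.comp w (g := fc) (f := aA p) (fc_diff hA) (aA_diff p w)
  have fB := DifferentiableAt.comp w (g := fc) (f := aB q) (fc_diff hB) (aB_diff q w)
  by_cases h1 : x i = -((p * l : ℝ) : ℂ)
  · have e : rr2 p q (x i) = fun w => c00 * (fc (aA p w) * gc (aB q w)) := by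
      funext w
      unfold rr2
      rw [if_pos h1]
    rw [e]
    exact (fA.fun_mul gB).const_mul _
  by_cases h2 : x i = ((q * l : ℝ) : ℂ)
  · have e : rr2 p q (x i) = fun w => c00 * (fc (aB q w) * gc (aA p w)) := by
      funext w
      unfold rr2
      rw [if_neg h1, if_pos h2]
    rw [e]
    exact (fB.fun_mul gA).const_mul _
  · have e : rr2 p q (x i) = fun w => pc (w - x i) * D2 p q w := by
      funext w
      unfold rr2
      rw [if_neg h1, if_neg h2]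
    rw [e]
    have h3 : (x i).re = 0 := by
      rcases hx.row i with h | h | h
      · exact absurd h h1
      · exact absurd h h2
      · exact h.1
    refine DifferentiableAt.fun_mul ?_ (D2_diff p q w)
    have h4 : DifferentiableAt ℂ pc (w - x i) := PBForce.pc_diff (by rw [sub_re, h3, sub_zero]; exact hw)
    have h5 : DifferentiableAt ℂ (fun w : ℂ => w - x i) w := by fun_prop
    exact DifferentiableAt.comp w (g := pc) (f := fun w => w - x i) h4 h5

theorem R2_diff {p q K : ℝ} {x : Fin m → ℂ} (hx : Two p q K x) {w : ℂ} (hw : |w.re| < l)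
    (hA : |(aA p w).re| ≤ Real.pi / 2) (hB : |(aB q w).re| ≤ Real.pi / 2) :
    DifferentiableAt ℂ (R2 p q x) w := by
  have h0 : R2 p q x = fun w => ∑ i, rr2 p q (x i) w := rfl
  rw [h0]
  exact DifferentiableAt.fun_sum fun i _ => rr2_diff hx i hw hA hB

end content

end PLT

end
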