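import Pool.Agent.PLT.FldC

/-!
# PLAX-theta: the corrected field of a moved row

`xiT κ y0 x i0 u = pc (u - l - x i0) κ D E(κ R)`, `E(w) = (1 - exp (-w)) / w` entire, `R = ρ D`: this is
`xiR (1 - exp (- κ R))` with all its poles removed.

* `Ew`, `Ew_mul`, `Ew_diff`, `norm_Ew_le`;
* **`xiT_diff`** : holomorphic for `|Re (u - l)| < l`, offset `< 1 + y0`;
* **`rho_xiT`** : `ρ xiT = pc (1 - exp (- κ R))` off the poles of the rows; `xiT_eq`;
* **`xiT_inner`** : on the inner strip `xiT = xiR` up to the factor `exp (- κ (c m - C K) cosh (8 t / 3))`;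
* **`xiT_wide`**, `xiT_far` : bounds on the whole strip.
-/

set_option autoImplicit false

noncomputable section

namespace PLT

open Complex
open NUP1 (l)
open PBForce (pc rhoR xiR)

/-! ### the entire function -/

/-- `(1 - exp (-w)) / w`, entire -/
def Ew (w : ℂ) : ℂ := dslope exp 0 (-w)

theorem Ew_mul (w : ℂ) : w * Ew w = 1 - exp (-w) := by
  unfold Ew
  have h := sub_smul_dslope exp (0 : ℂ) (-w)
  rw [smul_eq_mul, Complex.exp_zero] at h
  linear_combination -h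

theorem Ew_diff (w : ℂ) : DifferentiableAt ℂ Ew w := by
  have h1 : DifferentiableOn ℂ (dslope exp (0 : ℂ)) Set.univ :=
    (Complex.differentiableOn_dslope Filter.univ_mem).2 Complex.differentiable_exp.differentiableOn
  have h2 : DifferentiableAt ℂ (dslope exp (0 : ℂ)) (-w) := h1.differentiableAt Filter.univ_mem
  exact DifferentiableAt.comp w (g := dslope exp (0 : ℂ)) (f := fun w => -w) h2 (by fun_prop)

theorem norm_exp_sub_le (z : ℂ) : ‖exp z - 1‖ ≤ Real.exp (max 0 z.re) * ‖z‖ := by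
  have hs : Convex ℝ {w : ℂ | w.re ≤ max 0 z.re} := convex_halfSpace_re_le _
  have h := hs.norm_image_sub_le_of_norm_deriv_le (𝕜 := ℂ) (f := exp) (C := Real.exp (max 0 z.re)) (x := 0)
    (y := z) (fun w _ => Complex.differentiable_exp.differentiableAt) (fun w hw => by
      rw [Complex.deriv_exp, Complex.norm_exp]
      exact Real.exp_le_exp.2 hw) (by simp) (by simp)
  rw [Complex.exp_zero, sub_zero] at h
  exact h

theorem norm_Ew_le (w : ℂ) : ‖Ew w‖ ≤ Real.exp (max 0 (-w.re)) := by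
  by_cases h0 : w = 0
  · rw [h0]
    unfold Ew
    rw [neg_zero, dslope_same, Complex.deriv_exp, Complex.exp_zero, norm_one]
    exact Real.one_le_exp (le_max_left _ _)
  · have h1 := Ew_mul w
    have h2 := norm_exp_sub_le (-w)
    rw [norm_neg, neg_re] at h2
    have h3 : ‖w‖ * ‖Ew w‖ = ‖exp (-w) - 1‖ := by
      rw [← norm_mul, h1, ← norm_neg]
      congr 1
      ring
    have hw : 0 < ‖w‖ := norm_pos_iff.2 h0
    have h4 : ‖w‖ * ‖Ew w‖ ≤ ‖w‖ * Real.exp (max 0 (-w.re)) := by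
      rw [h3]
      linarith
    exact le_of_mul_le_mul_left h4 hw

/-- decay in the right half plane -/
theorem norm_Ew_right {w : ℂ} (h : 0 < w.re) : ‖Ew w‖ ≤ 2 / w.re := by
  have h1 := Ew_mul w
  have h0 : 0 < ‖w‖ := lt_of_lt_of_le h (Complex.re_le_norm w)
  have h2 : ‖w‖ * ‖Ew w‖ ≤ 2 := by
    rw [← norm_mul, h1]
    refine (norm_sub_le _ _).trans ?_
    rw [norm_one, Complex.norm_exp, neg_re]
    have : Real.exp (-w.re) ≤ 1 := Real.exp_le_one_iff.2 (by linarith)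
    linarith
  rw [le_div_iff₀ h]
  calc ‖Ew w‖ * w.re ≤ ‖Ew w‖ * ‖w‖ := by
        gcongr
        exact Complex.re_le_norm w
    _ ≤ 2 := by linarith

/-! ### the field -/

variable {m : ℕ} {y0 K : ℝ} {x : Fin m → ℂ}

/-- **the corrected field** -/
def xiT (κ y0 : ℝ) (x : Fin m → ℂ) (i0 : Fin m) (u : ℂ) : ℂ :=
  pc (u - l - x i0) * (κ * DT y0 (u - l) * Ew (κ * RT y0 x (u - l)))

theorem aV_ne {w : ℂ} (h : |(aV y0 w).re| < Real.pi / 2) : cos (aV y0 w) ≠ 0 := cos_ne h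

/-- **holomorphic** -/
theorem xiT_diff (hx : Hom y0 K x) (κ : ℝ) {i0 : Fin m} (h0 : (x i0).re = 0) {u : ℂ}
    (hu : |(u - l).re| < l) (hV : |(aV y0 (u - l)).re| < Real.pi / 2) :
    DifferentiableAt ℂ (xiT κ y0 x i0) u := by
  have hl : DifferentiableAt ℂ (fun u : ℂ => u - l) u := by fun_prop
  have hli : DifferentiableAt ℂ (fun u : ℂ => u - l - x i0) u := by fun_prop
  have h1 : DifferentiableAt ℂ (fun u => pc (u - l - x i0)) u :=
    DifferentiableAt.comp u (g := pc) (f := fun u : ℂ => u - (l : ℂ) - x i0)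
      (PBForce.pc_diff (by rw [sub_re, h0, sub_zero]; exact hu)) hli
  have h2 : DifferentiableAt ℂ (fun u => DT y0 (u - l)) u :=
    DifferentiableAt.comp u (g := DT y0) (f := fun u : ℂ => u - (l : ℂ)) (DT_diff (aV_ne hV)) hl
  have h3 : DifferentiableAt ℂ (fun u => RT y0 x (u - l)) u :=
    DifferentiableAt.comp u (g := RT y0 x) (f := fun u : ℂ => u - (l : ℂ)) (RT_diff hx (aV_ne hV) hu) hl
  have h4 : DifferentiableAt ℂ (fun u => Ew (κ * RT y0 x (u - l))) u :=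
    DifferentiableAt.comp u (g := Ew) (f := fun u : ℂ => κ * RT y0 x (u - (l : ℂ))) (Ew_diff _) (h3.const_mul _)
  unfold xiT
  exact h1.fun_mul ((h2.const_mul _).fun_mul h4)

/-- **the transport identity** -/
theorem RT_xiT (κ : ℝ) (i0 : Fin m) (u : ℂ) : RT y0 x (u - l) * xiT κ y0 x i0 u =
    pc (u - l - x i0) * DT y0 (u - l) * (1 - exp (-(κ * RT y0 x (u - l)))) := by
  unfold xiT
  rw [← Ew_mul]
  ring

theorem rho_xiT (κ : ℝ) (i0 : Fin m) {u : ℂ} (h : cos (3 * aV y0 (u - l)) ≠ 0)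
    (hD : DT y0 (u - l) ≠ 0) : rhoR x u * xiT κ y0 x i0 u =
    pc (u - l - x i0) * (1 - exp (-(κ * RT y0 x (u - l)))) := by
  have h1 := RT_xiT (y0 := y0) (x := x) κ i0 u
  have h2 := RT_eq (y0 := y0) (x := x) h
  rw [show (l : ℂ) + (u - l) = u by ring] at h2
  have h3 : DT y0 (u - l) * (rhoR x u * xiT κ y0 x i0 u) =
      DT y0 (u - l) * (pc (u - l - x i0) * (1 - exp (-(κ * RT y0 x (u - l))))) := by
    rw [h2] at h1 ⊢
    linear_combination h1
  exact mul_left_cancel₀ hD h3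

theorem xiT_eq (κ : ℝ) (i0 : Fin m) {u : ℂ} (h : cos (3 * aV y0 (u - l)) ≠ 0)
    (hD : DT y0 (u - l) ≠ 0) (hr : rhoR x u ≠ 0) : xiT κ y0 x i0 u =
    xiR x i0 u * (1 - exp (-(κ * RT y0 x (u - l)))) := by
  have h1 := rho_xiT (x := x) κ i0 h hD
  unfold xiR
  rw [div_mul_eq_mul_div, eq_div_iff hr, mul_comm]
  exact h1

/-- the inner strip has no pole and no zero of the divisor -/
theorem inner_ne {w : ℂ} (hU : |(aU w).re| < Real.pi / 3) (hV : |(aV y0 w).re| < Real.pi / 6) :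
    cos (3 * aV y0 w) ≠ 0 ∧ DT y0 w ≠ 0 := by
  have hpi := Real.pi_pos
  have h1 : cos (3 * aV y0 w) ≠ 0 := by
    refine cos_ne ?_
    rw [show (3 : ℂ) = ((3 : ℝ) : ℂ) by push_cast; rfl, re_ofReal_mul, abs_mul,
      abs_of_pos (by norm_num : (0 : ℝ) < 3)]
    linarith
  have h2 : cos (aV y0 w) ≠ 0 := cos_ne (by linarith)
  have h3 : 4 * cos (aU w) ^ 2 - 1 ≠ 0 := by
    intro h
    have e : (2 * cos (aU w) - 1) * (2 * cos (aU w) + 1) = 0 := by linear_combination h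
    have hc : 1 / 2 < (cos (aU w)).re := by
      rw [cos_re']
      have g1 : 1 / 2 < Real.cos (aU w).re := by
        rw [← Real.cos_pi_div_three, ← Real.cos_abs (aU w).re]
        exact Real.cos_lt_cos_of_nonneg_of_le_pi (abs_nonneg _) (by linarith) hU
      have g2 := Real.one_le_cosh (aU w).im
      nlinarith
    rcases mul_eq_zero.1 e with e | e
    · have := congrArg Complex.re e
      rw [sub_re, one_re, zero_re, show (2 : ℂ) = ((2 : ℝ) : ℂ) by push_cast; rfl, re_ofReal_mul] at this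
      linarith
    · have := congrArg Complex.re e
      rw [add_re, one_re, zero_re, show (2 : ℂ) = ((2 : ℝ) : ℂ) by push_cast; rfl, re_ofReal_mul] at this
      linarith
  refine ⟨h1, ?_⟩
  unfold DT
  exact div_ne_zero (mul_ne_zero h1 h3) (pow_ne_zero 3 h2)

theorem aU_re_abs (w : ℂ) : |(aU w).re| = 8 / 3 * |w.re| := by
  rw [aU_re, abs_mul, abs_of_pos (by norm_num : (0 : ℝ) < 8 / 3)]

/-- **on the inner strip the corrected field is the field** -/
theorem xiT_inner {b b0 : ℝ} (hb0 : 0 ≤ b) (hbl : b < l) (hb : b0 < Real.pi / 6) :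
    ∃ c C : ℝ, 0 < c ∧ 0 < C ∧ ∀ (m : ℕ) (y0 K κ : ℝ) (x : Fin m → ℂ) (i0 : Fin m) (u : ℂ), Hom y0 K x →
      0 ≤ κ → |(u - l).re| ≤ b → |(aV y0 (u - l)).re| ≤ b0 → rhoR x u ≠ 0 →
      xiT κ y0 x i0 u = xiR x i0 u * (1 - exp (-(κ * RT y0 x (u - l)))) ∧
        ‖exp (-(κ * RT y0 x (u - l)))‖ ≤ Real.exp (-(κ * (c * m - C * K) * Real.cosh (8 / 3 * u.im))) := by
  have hpi := Real.pi_pos
  obtain ⟨c, C, hc, hC, h⟩ := RT_low (a0 := 8 / 3 * b) (b0 := b0) (b := b) (by unfold l at hbl; linarith) hb hb0 hbl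
  refine ⟨c, C, hc, hC, fun m y0 K κ x i0 u hx hκ hu hV hr => ?_⟩
  have hU : |(aU (u - l)).re| ≤ 8 / 3 * b := by
    rw [aU_re_abs]
    linarith
  have hl : 8 / 3 * b < Real.pi / 3 := by unfold l at hbl; linarith
  obtain ⟨n1, n2⟩ := inner_ne (y0 := y0) (lt_of_le_of_lt hU hl) (lt_of_le_of_lt hV hb)
  refine ⟨xiT_eq κ i0 n1 n2 hr, ?_⟩
  have h1 := h m y0 K x (u - l) hx hu hU hV
  have him : (u - (l : ℂ)).im = u.im := by rw [sub_im, ofReal_im, sub_zero]
  rw [him] at h1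
  rw [Complex.norm_exp, neg_re, re_ofReal_mul]
  refine Real.exp_le_exp.2 (neg_le_neg ?_)
  rw [mul_assoc]
  exact mul_le_mul_of_nonneg_left h1 hκ

/-- **bound on the whole strip** -/
theorem xiT_wide {a1 b1 b : ℝ} (ha : a1 < Real.pi / 2) (hb : b1 < Real.pi / 2) (hb0 : 0 ≤ b) (hbl : b < l) :
    ∃ c C : ℝ, 0 < c ∧ 0 < C ∧ ∀ (m : ℕ) (y0 K κ : ℝ) (x : Fin m → ℂ) (i0 : Fin m) (u : ℂ), Hom y0 K x →
      0 ≤ κ → (x i0).re = 0 → |(x i0).im| ≤ 1 → |(u - l).re| ≤ b → |(aU (u - l)).re| ≤ a1 →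
      |(aV y0 (u - l)).re| ≤ b1 →
      ‖xiT κ y0 x i0 u‖ ≤ C * κ * Real.cosh (8 / 3 * u.im) *
        Real.exp (max 0 (κ * (C * m - (c * m - C * K) * Real.cosh (8 / 3 * u.im)))) := by
  obtain ⟨c, C, hc, hC, h⟩ := RT_far ha hb hb0 hbl
  obtain ⟨C2, hC2, h2⟩ := norm_ext_le (b1 := b1) hb hb0 hbl
  obtain ⟨C3, hC3⟩ : ∃ C3, C3 = max C C2 := ⟨_, rfl⟩
  have hCC : C ≤ C3 := by rw [hC3]; exact le_max_left _ _
  have hCC2 : C2 ≤ C3 := by rw [hC3]; exact le_max_right _ _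
  have hC3p : 0 < C3 := by linarith
  refine ⟨c, C3, hc, hC3p, fun m y0 K κ x i0 u hx hκ g1 g2 hu hU hV => ?_⟩
  have h1 := h m y0 K x (u - l) hx hu hU hV
  have h3 := h2 y0 (x i0) (u - l) g1 g2 hu hV
  have him : (u - (l : ℂ)).im = u.im := by rw [sub_im, ofReal_im, sub_zero]
  rw [him] at h1 h3
  have hch := Real.cosh_pos (8 / 3 * u.im)
  have hm : (0 : ℝ) ≤ m := Nat.cast_nonneg _
  have hK := hx.K0
  have h4 := norm_Ew_le (κ * RT y0 x (u - l))
  rw [re_ofReal_mul] at h4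
  have h5 : Real.exp (max 0 (-(κ * (RT y0 x (u - l)).re))) ≤
      Real.exp (max 0 (κ * (C3 * m - (c * m - C3 * K) * Real.cosh (8 / 3 * u.im)))) := by
    refine Real.exp_le_exp.2 (max_le_max le_rfl ?_)
    rw [← mul_neg]
    refine mul_le_mul_of_nonneg_left ?_ hκ
    have g3 : C * m ≤ C3 * m := by gcongr
    have g4 : C * K * Real.cosh (8 / 3 * u.im) ≤ C3 * K * Real.cosh (8 / 3 * u.im) := by gcongr
    linarith
  unfold xiT
  have e : pc (u - l - x i0) * (κ * DT y0 (u - l) * Ew (κ * RT y0 x (u - l))) =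
      κ * (pc (u - l - x i0) * DT y0 (u - l)) * Ew (κ * RT y0 x (u - l)) := by ring
  rw [e, norm_mul, norm_mul, norm_real, Real.norm_of_nonneg hκ]
  calc κ * ‖pc (u - l - x i0) * DT y0 (u - l)‖ * ‖Ew (κ * RT y0 x (u - l))‖ ≤
      κ * (C3 * Real.cosh (8 / 3 * u.im)) *
        Real.exp (max 0 (κ * (C3 * m - (c * m - C3 * K) * Real.cosh (8 / 3 * u.im)))) := by
        have h6 : ‖pc (u - l - x i0) * DT y0 (u - l)‖ ≤ C3 * Real.cosh (8 / 3 * u.im) := h3.trans (by gcongr)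
        have h7 := h4.trans h5
        gcongr
    _ = _ := by ring

/-- size `1 / m` far away, whole strip -/
theorem xiT_far {a1 b1 b : ℝ} (ha : a1 < Real.pi / 2) (hb : b1 < Real.pi / 2) (hb0 : 0 ≤ b) (hbl : b < l) :
    ∃ C H : ℝ, 0 < C ∧ 0 < H ∧ ∀ (m : ℕ) (y0 K κ : ℝ) (x : Fin m → ℂ) (i0 : Fin m) (u : ℂ), Hom y0 K x →
      0 < κ → (x i0).re = 0 → |(x i0).im| ≤ 1 → |(u - l).re| ≤ b → |(aU (u - l)).re| ≤ a1 →
      |(aV y0 (u - l)).re| ≤ b1 → H * K ≤ m → H ≤ Real.cosh (8 / 3 * u.im) →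
      ‖xiT κ y0 x i0 u‖ ≤ C / m := by
  obtain ⟨c, C, hc, hC, h⟩ := RT_far ha hb hb0 hbl
  obtain ⟨C2, hC2, h2⟩ := norm_ext_le (b1 := b1) hb hb0 hbl
  refine ⟨8 * C2 / c, 4 * C / c, by positivity, by positivity,
    fun m y0 K κ x i0 u hx hκ g1 g2 hu hU hV hm hH => ?_⟩
  have h1 := h m y0 K x (u - l) hx hu hU hV
  have h3 := h2 y0 (x i0) (u - l) g1 g2 hu hV
  have him : (u - (l : ℂ)).im = u.im := by rw [sub_im, ofReal_im, sub_zero]
  rw [him] at h1 h3
  have hch := Real.cosh_pos (8 / 3 * u.im)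
  have hm0 : (0 : ℝ) < m := by exact_mod_cast i0.pos
  have hK := hx.K0
  obtain ⟨s, hs⟩ : ∃ s, s = Real.cosh (8 / 3 * u.im) := ⟨_, rfl⟩
  rw [← hs] at h1 h3 hH hch
  have hm' : 4 * C * K ≤ c * m := by
    have : 4 * C / c * K ≤ m := hm
    rw [div_mul_eq_mul_div, div_le_iff₀ hc] at this
    linarith
  have hH' : 4 * C ≤ c * s := by
    rw [div_le_iff₀ hc] at hH
    linarith
  have hR : c * m * s / 4 ≤ (RT y0 x (u - l)).re := by
    refine le_trans ?_ h1
    have i1 : C * K * s ≤ c * m / 4 * s := by gcongr; linarith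
    have i2 : C * m ≤ c * s / 4 * m := by gcongr; linarith
    have i3 : 0 < c * m * s := by positivity
    linarith
  have hRp : 0 < c * m * s / 4 := by positivity
  have h4 : ‖Ew (κ * RT y0 x (u - l))‖ ≤ 2 / (κ * (c * m * s / 4)) := by
    have i4 : 0 < (κ * RT y0 x (u - l)).re := by
      rw [re_ofReal_mul]
      exact mul_pos hκ (lt_of_lt_of_le hRp hR)
    refine (norm_Ew_right i4).trans ?_
    rw [re_ofReal_mul]
    gcongr
  unfold xiT
  have e : pc (u - l - x i0) * (κ * DT y0 (u - l) * Ew (κ * RT y0 x (u - l))) =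
      κ * (pc (u - l - x i0) * DT y0 (u - l)) * Ew (κ * RT y0 x (u - l)) := by ring
  rw [e, norm_mul, norm_mul, norm_real, Real.norm_of_nonneg hκ.le]
  calc κ * ‖pc (u - l - x i0) * DT y0 (u - l)‖ * ‖Ew (κ * RT y0 x (u - l))‖ ≤
      κ * (C2 * s) * (2 / (κ * (c * m * s / 4))) := by gcongr
    _ = 8 * C2 / c / m := by
        field_simp
        norm_num

end PLT

end
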