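import Pool.Agent.PLT.FeB
import Pool.Agent.PLT.FldX

/-!
# PLAX-theta, two places `- p l`, `q l`: the corrected field of a row

`xiE κ p q x i0 u = r E(κ R)`, `r = rr2 p q (x i0) (u - l)` (row times divisor, continued), `R = R2`,
`E(w) = (1 - exp (-w)) / w` entire. The row `x i0` may be at a place or an extra row.

* **`xiE_diff`** : holomorphic for `|Re (u - l)| < l`, `|Re aA|, |Re aB| ≤ π / 2`;
* `R2_xiE` : `R xiE = r (1 - exp (- κ R))`; **`rho_xiE`** : `ρ xiE = pc (1 - exp (- κ R))` off the poles; `xiE_eq`;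
* **`xiE_inner`** : on the inner strip `xiE = xiR` up to the factor `exp (- κ (c m - C K) cosh (8 t / 3))`;
* **`xiE_wide`**, `xiE_far` : bounds on the whole strip.
-/

set_option autoImplicit false

noncomputable section

namespace PLT

open Complex
open NUP1 (l)
open PBForce (pc rhoR xiR)

/-- **the corrected field** -/
def xiE {m : ℕ} (κ p q : ℝ) (x : Fin m → ℂ) (i0 : Fin m) (u : ℂ) : ℂ :=
  rr2 p q (x i0) (u - l) * (κ * Ew (κ * R2 p q x (u - l)))

section id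

variable {m : ℕ} {p q K : ℝ} {x : Fin m → ℂ}

/-- **holomorphic** -/
theorem xiE_diff (hx : Two p q K x) (κ : ℝ) (i0 : Fin m) {u : ℂ} (hu : |(u - l).re| < l)
    (hA : |(aA p (u - l)).re| ≤ Real.pi / 2) (hB : |(aB q (u - l)).re| ≤ Real.pi / 2) :
    DifferentiableAt ℂ (xiE κ p q x i0) u := by
  have hl : DifferentiableAt ℂ (fun u : ℂ => u - l) u := by fun_prop
  have h1 : DifferentiableAt ℂ (fun u => rr2 p q (x i0) (u - l)) u :=
    DifferentiableAt.comp u (g := rr2 p q (x i0)) (f := fun u : ℂ => u - (l : ℂ)) (rr2_diff hx i0 hu hA hB) hl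
  have h3 : DifferentiableAt ℂ (fun u => R2 p q x (u - l)) u :=
    DifferentiableAt.comp u (g := R2 p q x) (f := fun u : ℂ => u - (l : ℂ)) (R2_diff hx hu hA hB) hl
  have h4 : DifferentiableAt ℂ (fun u => Ew (κ * R2 p q x (u - l))) u :=
    DifferentiableAt.comp u (g := Ew) (f := fun u : ℂ => κ * R2 p q x (u - (l : ℂ))) (Ew_diff _)
      (h3.const_mul _)
  unfold xiE
  exact h1.fun_mul (h4.const_mul _)

theorem R2_xiE (κ : ℝ) (i0 : Fin m) (u : ℂ) : R2 p q x (u - l) * xiE κ p q x i0 u =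
    rr2 p q (x i0) (u - l) * (1 - exp (-(κ * R2 p q x (u - l)))) := by
  unfold xiE
  rw [← Ew_mul]
  ring

/-- **the transport identity** -/
theorem rho_xiE (κ : ℝ) (i0 : Fin m) {u : ℂ} (hA : gc (aA p (u - l)) ≠ 0) (hB : gc (aB q (u - l)) ≠ 0) :
    rhoR x u * xiE κ p q x i0 u = pc (u - l - x i0) * (1 - exp (-(κ * R2 p q x (u - l)))) := by
  have h1 := R2_xiE (p := p) (q := q) (x := x) κ i0 u
  have h2 := R2_eq (x := x) hA hB
  rw [show (l : ℂ) + (u - l) = u by ring] at h2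
  have h3 := rr2_eq (X := x i0) hA hB
  have hD : D2 p q (u - l) ≠ 0 := by
    unfold D2
    exact mul_ne_zero hA hB
  rw [h3] at h1
  obtain ⟨E, hE⟩ : ∃ E, E = exp (-(κ * R2 p q x (u - l))) := ⟨_, rfl⟩
  rw [← hE] at h1 ⊢
  rw [h2] at h1
  have h4 : D2 p q (u - l) * (rhoR x u * xiE κ p q x i0 u) =
      D2 p q (u - l) * (pc (u - l - x i0) * (1 - E)) := by linear_combination h1
  exact mul_left_cancel₀ hD h4

theorem xiE_eq (κ : ℝ) (i0 : Fin m) {u : ℂ} (hA : gc (aA p (u - l)) ≠ 0) (hB : gc (aB q (u - l)) ≠ 0)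
    (hr : rhoR x u ≠ 0) : xiE κ p q x i0 u = xiR x i0 u * (1 - exp (-(κ * R2 p q x (u - l)))) := by
  have h1 := rho_xiE (x := x) κ i0 hA hB
  unfold xiR
  rw [div_mul_eq_mul_div, eq_div_iff hr, mul_comm]
  exact h1

theorem im_sub_l (u : ℂ) : (u - (l : ℂ)).im = u.im := by rw [sub_im, ofReal_im, sub_zero]

end id

/-- **on the inner strip the corrected field is the field** -/
theorem xiE_inner {x1 b : ℝ} (hx1 : x1 < Real.pi / 3) (hb0 : 0 ≤ b) (hbl : b < l) :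
    ∃ c C : ℝ, 0 < c ∧ 0 < C ∧ ∀ (m : ℕ) (p q K κ : ℝ) (x : Fin m → ℂ) (i0 : Fin m) (u : ℂ), Two p q K x →
      0 ≤ κ → |(u - l).re| ≤ b → |(aA p (u - l)).re| ≤ x1 → |(aB q (u - l)).re| ≤ x1 →
      Real.sin (aA p (u - l)).re * Real.sin (aB q (u - l)).re ≤ 1 / 4 →
      gc (aA p (u - l)) ≠ 0 ∧ gc (aB q (u - l)) ≠ 0 ∧
      (rhoR x u ≠ 0 → xiE κ p q x i0 u = xiR x i0 u * (1 - exp (-(κ * R2 p q x (u - l))))) ∧
      (c * m - C * K) * Real.cosh (8 / 3 * u.im) ≤ (R2 p q x (u - l)).re ∧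
      ‖exp (-(κ * R2 p q x (u - l)))‖ ≤ Real.exp (-(κ * (c * m - C * K) * Real.cosh (8 / 3 * u.im))) := by
  obtain ⟨c, C, hc, hC, h⟩ := R2_low hx1 hb0 hbl
  refine ⟨c, C, hc, hC, fun m p q K κ x i0 u hx hκ hu hA hB hs => ?_⟩
  have nA := gc_ne (lt_of_le_of_lt hA hx1)
  have nB := gc_ne (lt_of_le_of_lt hB hx1)
  have h1 := h m p q K x (u - l) hx hu hA hB hs
  rw [im_sub_l] at h1
  refine ⟨nA, nB, fun hr => xiE_eq κ i0 nA nB hr, h1, ?_⟩
  rw [Complex.norm_exp, neg_re, re_ofReal_mul]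
  refine Real.exp_le_exp.2 (neg_le_neg ?_)
  rw [mul_assoc]
  exact mul_le_mul_of_nonneg_left h1 hκ

/-- the density does not vanish on the inner strip, and its size -/
theorem rho2_inner {x1 b : ℝ} (hx1 : x1 < Real.pi / 3) (hb0 : 0 ≤ b) (hbl : b < l) :
    ∃ c C : ℝ, 0 < c ∧ 0 < C ∧ ∀ (m : ℕ) (p q K : ℝ) (x : Fin m → ℂ) (u : ℂ), Two p q K x →
      |(u - l).re| ≤ b → |(aA p (u - l)).re| ≤ x1 → |(aB q (u - l)).re| ≤ x1 →
      Real.sin (aA p (u - l)).re * Real.sin (aB q (u - l)).re ≤ 1 / 4 → C * K < c * m →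
      rhoR x u ≠ 0 ∧ (∀ i0, ‖xiR x i0 u‖ * (c * m - C * K) ≤ C) := by
  have hpi := Real.pi_pos
  obtain ⟨c, C, hc, hC, h⟩ := R2_low hx1 hb0 hbl
  obtain ⟨C2, hC2, h2⟩ := rr2_up hb0 hbl
  obtain ⟨C3, hC3⟩ : ∃ C3, C3 = max C C2 := ⟨_, rfl⟩
  have hCC : C ≤ C3 := by rw [hC3]; exact le_max_left _ _
  have hCC2 : C2 ≤ C3 := by rw [hC3]; exact le_max_right _ _
  have hC3p : 0 < C3 := by linarith
  refine ⟨c, C3, hc, hC3p, fun m p q K x u hx hu hA hB hs hm => ?_⟩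
  have nA := gc_ne (lt_of_le_of_lt hA hx1)
  have nB := gc_ne (lt_of_le_of_lt hB hx1)
  have hK := hx.K0
  have h1 := h m p q K x (u - l) hx hu hA hB hs
  have hch := Real.cosh_pos (8 / 3 * (u - (l : ℂ)).im)
  have g1 : C * K ≤ C3 * K := by gcongr
  have g2 : 0 < (c * m - C3 * K) := by linarith
  have g3 : (c * m - C3 * K) * Real.cosh (8 / 3 * (u - (l : ℂ)).im) ≤ (R2 p q x (u - l)).re := by
    refine le_trans ?_ h1
    have : c * m - C3 * K ≤ c * m - C * K := by linarith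
    gcongr
  have g4 : 0 < (R2 p q x (u - l)).re := lt_of_lt_of_le (by positivity) g3
  have g5 : R2 p q x (u - l) ≠ 0 := by
    intro h0
    rw [h0, zero_re] at g4
    exact lt_irrefl _ g4
  have e2 := R2_eq (x := x) nA nB
  rw [show (l : ℂ) + (u - l) = u by ring] at e2
  have hr : rhoR x u ≠ 0 := by
    intro h0
    rw [h0, zero_mul] at e2
    exact g5 e2
  have hD : D2 p q (u - l) ≠ 0 := by
    unfold D2
    exact mul_ne_zero nA nB
  refine ⟨hr, fun i0 => ?_⟩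
  have e3 : xiR x i0 u * R2 p q x (u - l) = rr2 p q (x i0) (u - l) := by
    rw [rr2_eq nA nB, e2]
    unfold xiR
    field_simp
  have h3 := h2 m p q K x i0 (u - l) hx hu (by linarith) (by linarith)
  rw [← e3, norm_mul] at h3
  have h4 := g3.trans (Complex.re_le_norm _)
  have h5 : ‖xiR x i0 u‖ * ((c * m - C3 * K) * Real.cosh (8 / 3 * (u - (l : ℂ)).im)) ≤
      C3 * Real.cosh (8 / 3 * (u - (l : ℂ)).im) := by
    refine le_trans ?_ (h3.trans (by gcongr))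
    gcongr
  rw [← mul_assoc] at h5
  exact le_of_mul_le_mul_right h5 hch

/-- **bound on the whole strip** -/
theorem xiE_wide {x2 b : ℝ} (hx2 : x2 < Real.pi / 2) (hb0 : 0 ≤ b) (hbl : b < l) :
    ∃ c C : ℝ, 0 < c ∧ 0 < C ∧ ∀ (m : ℕ) (p q K κ : ℝ) (x : Fin m → ℂ) (i0 : Fin m) (u : ℂ), Two p q K x →
      0 ≤ κ → |(u - l).re| ≤ b → |(aA p (u - l)).re| ≤ x2 → |(aB q (u - l)).re| ≤ x2 →
      ‖xiE κ p q x i0 u‖ ≤ C * κ * Real.cosh (8 / 3 * u.im) *
        Real.exp (max 0 (κ * (C * m - (c * m - C * K) * Real.cosh (8 / 3 * u.im)))) := by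
  obtain ⟨c, C, hc, hC, h⟩ := R2_far hx2 hb0 hbl
  obtain ⟨C2, hC2, h2⟩ := rr2_up hb0 hbl
  obtain ⟨C3, hC3⟩ : ∃ C3, C3 = max C C2 := ⟨_, rfl⟩
  have hCC : C ≤ C3 := by rw [hC3]; exact le_max_left _ _
  have hCC2 : C2 ≤ C3 := by rw [hC3]; exact le_max_right _ _
  have hC3p : 0 < C3 := by linarith
  refine ⟨c, C3, hc, hC3p, fun m p q K κ x i0 u hx hκ hu hA hB => ?_⟩
  have h1 := h m p q K x (u - l) hx hu hA hB
  have h3 := h2 m p q K x i0 (u - l) hx hu (by linarith) (by linarith)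
  rw [im_sub_l] at h1 h3
  have hch := Real.cosh_pos (8 / 3 * u.im)
  have hm : (0 : ℝ) ≤ m := Nat.cast_nonneg _
  have hK := hx.K0
  have h4 := norm_Ew_le (κ * R2 p q x (u - l))
  rw [re_ofReal_mul] at h4
  have h5 : Real.exp (max 0 (-(κ * (R2 p q x (u - l)).re))) ≤
      Real.exp (max 0 (κ * (C3 * m - (c * m - C3 * K) * Real.cosh (8 / 3 * u.im)))) := by
    refine Real.exp_le_exp.2 (max_le_max le_rfl ?_)
    rw [← mul_neg]
    refine mul_le_mul_of_nonneg_left ?_ hκ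
    have g3 : C * m ≤ C3 * m := by gcongr
    have g4 : C * K * Real.cosh (8 / 3 * u.im) ≤ C3 * K * Real.cosh (8 / 3 * u.im) := by gcongr
    linarith
  unfold xiE
  rw [norm_mul, norm_mul, norm_real, Real.norm_of_nonneg hκ]
  have h6 : ‖rr2 p q (x i0) (u - l)‖ ≤ C3 * Real.cosh (8 / 3 * u.im) := h3.trans (by gcongr)
  have h7 := h4.trans h5
  calc ‖rr2 p q (x i0) (u - l)‖ * (κ * ‖Ew (κ * R2 p q x (u - l))‖) ≤
      (C3 * Real.cosh (8 / 3 * u.im)) *
        (κ * Real.exp (max 0 (κ * (C3 * m - (c * m - C3 * K) * Real.cosh (8 / 3 * u.im))))) := by gcongr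
    _ = _ := by ring

/-- size `1 / m` far away, whole strip -/
theorem xiE_far {x2 b : ℝ} (hx2 : x2 < Real.pi / 2) (hb0 : 0 ≤ b) (hbl : b < l) :
    ∃ C H : ℝ, 0 < C ∧ 0 < H ∧ ∀ (m : ℕ) (p q K κ : ℝ) (x : Fin m → ℂ) (i0 : Fin m) (u : ℂ), Two p q K x →
      0 < κ → |(u - l).re| ≤ b → |(aA p (u - l)).re| ≤ x2 → |(aB q (u - l)).re| ≤ x2 →
      H * K ≤ m → H ≤ Real.cosh (8 / 3 * u.im) → ‖xiE κ p q x i0 u‖ ≤ C / m ∧
      0 < (R2 p q x (u - l)).re ∧ m / C * Real.cosh (8 / 3 * u.im) ≤ (R2 p q x (u - l)).re := by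
  obtain ⟨c, C, hc, hC, h⟩ := R2_far hx2 hb0 hbl
  obtain ⟨C2, hC2, h2⟩ := rr2_up hb0 hbl
  refine ⟨8 * C2 / c + 4 / c, 4 * C / c, by positivity, by positivity,
    fun m p q K κ x i0 u hx hκ hu hA hB hm hH => ?_⟩
  have h1 := h m p q K x (u - l) hx hu hA hB
  have h3 := h2 m p q K x i0 (u - l) hx hu (by linarith) (by linarith)
  rw [im_sub_l] at h1 h3
  have hch := Real.cosh_pos (8 / 3 * u.im)
  have hm0 : (0 : ℝ) < m := by exact_mod_cast i0.pos
  have hK := hx.K0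
  obtain ⟨s, hs⟩ : ∃ s, s = Real.cosh (8 / 3 * u.im) := ⟨_, rfl⟩
  rw [← hs] at h1 h3 hH hch ⊢
  have hm' : 4 * C * K ≤ c * m := by
    have : 4 * C / c * K ≤ m := hm
    rw [div_mul_eq_mul_div, div_le_iff₀ hc] at this
    linarith
  have hH' : 4 * C ≤ c * s := by
    rw [div_le_iff₀ hc] at hH
    linarith
  have hR : c * m * s / 4 ≤ (R2 p q x (u - l)).re := by
    refine le_trans ?_ h1
    have i1 : C * K * s ≤ c * m / 4 * s := by gcongr; linarith
    have i2 : C * m ≤ c * s / 4 * m := by gcongr; linarith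
    have i3 : 0 < c * m * s := by positivity
    linarith
  have hRp : 0 < c * m * s / 4 := by positivity
  have h4 : ‖Ew (κ * R2 p q x (u - l))‖ ≤ 2 / (κ * (c * m * s / 4)) := by
    have i4 : 0 < (κ * R2 p q x (u - l)).re := by
      rw [re_ofReal_mul]
      exact mul_pos hκ (lt_of_lt_of_le hRp hR)
    refine (norm_Ew_right i4).trans ?_
    rw [re_ofReal_mul]
    gcongr
  refine ⟨?_, lt_of_lt_of_le hRp hR, le_trans ?_ hR⟩
  · unfold xiE
    rw [norm_mul, norm_mul, norm_real, Real.norm_of_nonneg hκ.le]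
    calc ‖rr2 p q (x i0) (u - l)‖ * (κ * ‖Ew (κ * R2 p q x (u - l))‖) ≤
        (C2 * s) * (κ * (2 / (κ * (c * m * s / 4)))) := by gcongr
      _ = 8 * C2 / c / m := by
          field_simp
          norm_num
      _ ≤ (8 * C2 / c + 4 / c) / m := by
          have : 0 < 4 / c := by positivity
          gcongr
          linarith
  · rw [div_mul_eq_mul_div, div_le_iff₀ (by positivity)]
    have e : c * m * s / 4 * (8 * C2 / c + 4 / c) = m * s + 2 * C2 * m * s := by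
      field_simp
      ring
    rw [e]
    have : 0 ≤ 2 * C2 * m * s := by positivity
    linarith

end PLT

end
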