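import Pool.Agent.PB.FieldR

/-!
# The field of a row at rows at places

Twin of `PB/FieldR` for rows `x i` of any real part (places) with `|Im (x i)| ≤ 1`.

* **inner strip** (`|Re (u - l - x i)| ≤ b < l` for every row; constants depend on `b` only):
  `low`, `row_le`, `up`, `xi_le` : `c m exp (- 8/3 |Im u|) ≤ Re ρ`, `‖ρ‖ ≤ C m exp (- 8/3 |Im u|)`,
  `‖ξ‖ ≤ C / m`;
* plateaus `xiP x i0 = yE (- x i0) / ∑ yE (- x i)`, `xiM x i0 = yE (x i0) / ∑ yE (x i)` (complex),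
  `|Re (x i)| ≤ R0`, `0 < cos (8/3 R0)`;
* `right'`, `right`, `left` : `‖ξ - plateau‖ ≤ (C / m) exp (- 32/3 |Im u|)` on the inner strip;
  `dif`, `der` : `‖ξ'‖ ≤ (C / m) exp (- 32/3 |Im u|)`;
* **far** (`T ≤ |Im u|`, ANY real part of `u`): `far_low`, `far_right`, `far_left`.
-/

set_option autoImplicit false

noncomputable section

open MeasureTheory Set Filter Topology Metric

namespace PLT.FP

open NUP1 PBForce

variable {m : ℕ}

/-- heights `≤ 1` -/
def Hts (x : Fin m → ℂ) : Prop := ∀ i, |(x i).im| ≤ 1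

/-- real parts `≤ R` -/
def Plc (R : ℝ) (x : Fin m → ℂ) : Prop := ∀ i, |(x i).re| ≤ R

/-- the point `u` sees every row in the strip `|Re| ≤ b` -/
def Ins (b : ℝ) (x : Fin m → ℂ) (u : ℂ) : Prop := ∀ i, |(u - l - x i).re| ≤ b

lemma Hts.neg {x : Fin m → ℂ} (h : Hts x) : Hts fun i => -x i := fun i => by
  rw [Complex.neg_im, abs_neg]; exact h i

lemma Plc.neg {R : ℝ} {x : Fin m → ℂ} (h : Plc R x) : Plc R fun i => -x i := fun i => by
  rw [Complex.neg_re, abs_neg]; exact h i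

lemma Ins.neg {b : ℝ} {x : Fin m → ℂ} {u : ℂ} (h : Ins b x u) : Ins b (fun i => -x i) (2 * l - u) :=
  fun i => by
    have e : (2 * l - u - l - -x i : ℂ) = -(u - l - x i) := by ring
    rw [e, Complex.neg_re, abs_neg]
    exact h i

lemma Ins.mono {b b' : ℝ} {x : Fin m → ℂ} {u : ℂ} (h : Ins b x u) (hb : b ≤ b') : Ins b' x u :=
  fun i => (h i).trans hb

/-! ### sizes in the inner strip -/

/-- **lower bound of the density** -/
theorem low {b : ℝ} (hb0 : 0 ≤ b) (hb : b < l) : ∃ c : ℝ, 0 < c ∧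
    ∀ (m : ℕ) (x : Fin m → ℂ), Hts x → ∀ u : ℂ, Ins b x u →
      c * m * Real.exp (-(8 / 3 * |u.im|)) ≤ (rhoR x u).re := by
  obtain ⟨c, hc, hlow⟩ := pc_re_low hb0 hb
  refine ⟨c * Real.exp (-(8 / 3)), by positivity, fun m x hx u hu => ?_⟩
  unfold rhoR
  rw [Complex.re_sum]
  have h1 : ∀ i : Fin m, c * Real.exp (-(8 / 3)) * Real.exp (-(8 / 3 * |u.im|)) ≤
      (pc (u - l - x i)).re := by
    intro i
    refine le_trans ?_ (hlow _ (hu i))
    rw [row_im, mul_assoc, ← Real.exp_add, le_div_iff₀ (Real.cosh_pos _)]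
    have h2 := PBForce.cosh_le_exp (8 / 3 * (u.im - (x i).im))
    have h3 : |8 / 3 * (u.im - (x i).im)| ≤ 8 / 3 * |u.im| + 8 / 3 := by
      rw [abs_mul, abs_of_pos (by norm_num : (0:ℝ) < 8 / 3)]
      have := abs_sub u.im (x i).im
      have := hx i
      linarith
    have h4 : Real.cosh (8 / 3 * (u.im - (x i).im)) ≤ Real.exp (8 / 3 * |u.im| + 8 / 3) :=
      h2.trans (Real.exp_le_exp.2 h3)
    calc c * Real.exp (-(8 / 3) + -(8 / 3 * |u.im|)) * Real.cosh (8 / 3 * (u.im - (x i).im))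
        ≤ c * Real.exp (-(8 / 3) + -(8 / 3 * |u.im|)) * Real.exp (8 / 3 * |u.im| + 8 / 3) := by
          gcongr
      _ = c := by
          rw [mul_assoc, ← Real.exp_add]
          rw [show -(8 / 3) + -(8 / 3 * |u.im|) + (8 / 3 * |u.im| + 8 / 3) = 0 by ring,
            Real.exp_zero, mul_one]
  calc c * Real.exp (-(8 / 3)) * m * Real.exp (-(8 / 3 * |u.im|))
      = ∑ _i : Fin m, c * Real.exp (-(8 / 3)) * Real.exp (-(8 / 3 * |u.im|)) := by
        rw [Finset.sum_const, Finset.card_univ, Fintype.card_fin, nsmul_eq_mul]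
        ring
    _ ≤ _ := Finset.sum_le_sum fun i _ => h1 i

/-- one row: upper bound of its density -/
theorem row_le {b : ℝ} (hb0 : 0 ≤ b) (hb : b < l) : ∃ C : ℝ, 0 < C ∧
    ∀ (x u : ℂ), |x.im| ≤ 1 → |(u - l - x).re| ≤ b →
      ‖pc (u - l - x)‖ ≤ C * Real.exp (-(8 / 3 * |u.im|)) := by
  have hD0 := (strip_low hb0 hb (w := 0) (by simpa using hb0)).1
  set D := 2 * Real.cos (8 / 3 * b) - 1 with hD
  have hb' : b < NUMF.l := hb
  refine ⟨16 / (√3 * Real.pi) / D ^ 2 * (2 * Real.exp (8 / 3)), by positivity,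
    fun x u hx hu => ?_⟩
  have e0 : (u - l - x).im = u.im - x.im := by simp
  have h1 := pc_le hb0 hb' (w := u - l - x) hu
  rw [← hD, e0] at h1
  refine h1.trans ?_
  have hK : 0 < 16 / (√3 * Real.pi) / D ^ 2 := by positivity
  rw [div_eq_mul_inv, mul_assoc]
  refine mul_le_mul_of_nonneg_left ?_ hK.le
  have h2 := PBForce.exp_le_cosh (8 / 3 * (u.im - x.im))
  have h3 : 8 / 3 * |u.im| - 8 / 3 ≤ |8 / 3 * (u.im - x.im)| := by
    rw [abs_mul, abs_of_pos (by norm_num : (0:ℝ) < 8 / 3)]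
    have := abs_sub_abs_le_abs_sub u.im x.im
    linarith
  have h4 : Real.exp (8 / 3 * |u.im| - 8 / 3) / 2 ≤ Real.cosh (8 / 3 * (u.im - x.im)) :=
    le_trans (by have := Real.exp_le_exp.2 h3; linarith) h2
  rw [inv_le_comm₀ (Real.cosh_pos _) (by positivity)]
  refine le_trans (le_of_eq ?_) h4
  rw [mul_inv, mul_inv, ← Real.exp_neg, ← Real.exp_neg, neg_neg, Real.exp_sub, Real.exp_neg]
  field_simp

/-- upper bound of the density -/
theorem up {b : ℝ} (hb0 : 0 ≤ b) (hb : b < l) : ∃ C : ℝ, 0 < C ∧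
    ∀ (m : ℕ) (x : Fin m → ℂ), Hts x → ∀ u : ℂ, Ins b x u →
      ‖rhoR x u‖ ≤ C * m * Real.exp (-(8 / 3 * |u.im|)) := by
  obtain ⟨C, hC, h⟩ := row_le hb0 hb
  refine ⟨C, hC, fun m x hx u hu => ?_⟩
  unfold rhoR
  calc ‖∑ i, pc (u - l - x i)‖ ≤ ∑ i, ‖pc (u - l - x i)‖ := norm_sum_le _ _
    _ ≤ ∑ _i : Fin m, C * Real.exp (-(8 / 3 * |u.im|)) :=
        Finset.sum_le_sum fun i _ => h (x i) u (hx i) (hu i)
    _ = _ := by
        rw [Finset.sum_const, Finset.card_univ, Fintype.card_fin, nsmul_eq_mul]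
        ring

/-- **the field is `O(1/m)`** -/
theorem xi_le {b : ℝ} (hb0 : 0 ≤ b) (hb : b < l) : ∃ C : ℝ, 0 < C ∧
    ∀ (m : ℕ) (x : Fin m → ℂ) (i0 : Fin m), Hts x → ∀ u : ℂ, Ins b x u →
      ‖xiR x i0 u‖ ≤ C / m := by
  obtain ⟨c, hc, hlow⟩ := low hb0 hb
  obtain ⟨C, hC, hup⟩ := row_le hb0 hb
  refine ⟨C / c, by positivity, fun m x i0 hx u hu => ?_⟩
  have hm : (0 : ℝ) < m := by exact_mod_cast i0.pos
  have h1 := hlow m x hx u hu
  have h2 := hup (x i0) u (hx i0) (hu i0)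
  have h3 : c * m * Real.exp (-(8 / 3 * |u.im|)) ≤ ‖rhoR x u‖ :=
    h1.trans (Complex.re_le_norm _)
  have he := Real.exp_pos (-(8 / 3 * |u.im|))
  unfold xiR
  rw [norm_div]
  calc ‖pc (u - l - x i0)‖ / ‖rhoR x u‖ ≤
      C * Real.exp (-(8 / 3 * |u.im|)) / (c * m * Real.exp (-(8 / 3 * |u.im|))) :=
        div_le_div₀ (by positivity) h2 (by positivity) h3
    _ = _ := by field_simp

/-! ### the plateaus -/

/-- the plateau of the field at `+ ∞` -/
def xiP (x : Fin m → ℂ) (i0 : Fin m) : ℂ := yE (-x i0) / ∑ i, yE (-x i)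

/-- the plateau of the field at `- ∞` -/
def xiM (x : Fin m → ℂ) (i0 : Fin m) : ℂ := yE (x i0) / ∑ i, yE (x i)

lemma xiM_neg (x : Fin m → ℂ) (i0 : Fin m) : xiP (fun i => -x i) i0 = xiM x i0 := by
  unfold xiP xiM
  simp only [neg_neg]

/-- the exponential of a row -/
lemma yE_row (x u : ℂ) : yE (u - l - x) = yE (u - l) * yE (-x) := by
  unfold yE
  rw [← Complex.exp_add]
  congr 1
  ring

lemma norm_yE_neg (x : ℂ) : ‖yE (-x)‖ = Real.exp (8 / 3 * x.im) := by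
  rw [norm_yE, Complex.neg_im]
  congr 1
  ring

lemma norm_yE_neg_le {x : ℂ} (h : |x.im| ≤ 1) : ‖yE (-x)‖ ≤ Real.exp (8 / 3) := by
  rw [norm_yE_neg]
  exact Real.exp_le_exp.2 (by have := abs_le.1 h; linarith)

lemma yE_re (x : ℂ) : (yE (-x)).re = Real.exp (8 / 3 * x.im) * Real.cos (8 / 3 * x.re) := by
  unfold yE
  rw [Complex.exp_re]
  have e1 : (Complex.I * (8 / 3 * -x)).re = 8 / 3 * x.im := by
    rw [Complex.mul_re, Complex.I_re, Complex.I_im, zero_mul, one_mul, zero_sub, im_83,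
      Complex.neg_im]
    ring
  have e2 : (Complex.I * (8 / 3 * -x)).im = -(8 / 3 * x.re) := by
    rw [Complex.mul_im, Complex.I_re, Complex.I_im, zero_mul, one_mul, zero_add, re_83,
      Complex.neg_re]
    ring
  rw [e1, e2, Real.cos_neg]

lemma cos_re_low {R : ℝ} (hR : 8 / 3 * R ≤ Real.pi / 2) {x : ℂ} (h : |x.re| ≤ R) :
    Real.cos (8 / 3 * R) ≤ Real.cos (8 / 3 * x.re) := by
  rw [← Real.cos_abs (8 / 3 * x.re)]
  refine Real.cos_le_cos_of_nonneg_of_le_pi (abs_nonneg _) (by have := Real.pi_pos; linarith) ?_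
  rw [abs_mul, abs_of_pos (by norm_num : (0:ℝ) < 8 / 3)]
  linarith

/-- **the sum of the exponentials of the rows** -/
theorem sum_re_low {R : ℝ} (hR : 8 / 3 * R ≤ Real.pi / 2) {x : Fin m → ℂ} (hx : Hts x)
    (hp : Plc R x) : m * (Real.exp (-(8 / 3)) * Real.cos (8 / 3 * R)) ≤ (∑ i, yE (-x i)).re := by
  rw [Complex.re_sum]
  calc m * (Real.exp (-(8 / 3)) * Real.cos (8 / 3 * R)) =
        ∑ _i : Fin m, Real.exp (-(8 / 3)) * Real.cos (8 / 3 * R) := by
        rw [Finset.sum_const, Finset.card_univ, Fintype.card_fin, nsmul_eq_mul]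
    _ ≤ _ := Finset.sum_le_sum fun i _ => by
        rw [yE_re]
        have h0 : 0 ≤ R := (abs_nonneg _).trans (hp i)
        have h1 : 0 ≤ Real.cos (8 / 3 * R) :=
          Real.cos_nonneg_of_neg_pi_div_two_le_of_le (by have := Real.pi_pos; linarith) hR
        have h2 := cos_re_low hR (hp i)
        have h3 : Real.exp (-(8 / 3)) ≤ Real.exp (8 / 3 * (x i).im) :=
          Real.exp_le_exp.2 (by have := abs_le.1 (hx i); linarith)
        exact mul_le_mul h3 h2 h1 (Real.exp_pos _).le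

lemma sum_norm_up {x : Fin m → ℂ} (hx : Hts x) : ‖∑ i, yE (-x i)‖ ≤ m * Real.exp (8 / 3) := by
  calc ‖∑ i, yE (-x i)‖ ≤ ∑ i, ‖yE (-x i)‖ := norm_sum_le _ _
    _ ≤ ∑ _i : Fin m, Real.exp (8 / 3) := Finset.sum_le_sum fun i _ => norm_yE_neg_le (hx i)
    _ = _ := by rw [Finset.sum_const, Finset.card_univ, Fintype.card_fin, nsmul_eq_mul]

/-- the constant of the plateaus -/
def kR (R : ℝ) : ℝ := Real.exp (-(8 / 3)) * Real.cos (8 / 3 * R)

lemma kR_pos {R : ℝ} (h0 : 0 ≤ R) (hR : 8 / 3 * R < Real.pi / 2) : 0 < kR R :=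
  mul_pos (Real.exp_pos _) (Real.cos_pos_of_mem_Ioo ⟨by have := Real.pi_pos; linarith, hR⟩)

lemma sum_norm_low {R : ℝ} (hR : 8 / 3 * R ≤ Real.pi / 2) {x : Fin m → ℂ} (hx : Hts x)
    (hp : Plc R x) : m * kR R ≤ ‖∑ i, yE (-x i)‖ :=
  (sum_re_low hR hx hp).trans (Complex.re_le_norm _)

/-- sizes of the plateaus -/
theorem xiP_le {R : ℝ} (h0 : 0 ≤ R) (hR : 8 / 3 * R < Real.pi / 2) {x : Fin m → ℂ} (hx : Hts x)
    (hp : Plc R x) (i0 : Fin m) : ‖xiP x i0‖ ≤ Real.exp (8 / 3) / kR R / m := by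
  have hm : (0 : ℝ) < m := by exact_mod_cast i0.pos
  have hk := kR_pos h0 hR
  unfold xiP
  rw [norm_div]
  calc ‖yE (-x i0)‖ / ‖∑ i, yE (-x i)‖ ≤ Real.exp (8 / 3) / (m * kR R) :=
        div_le_div₀ (Real.exp_pos _).le (norm_yE_neg_le (hx i0)) (by positivity)
          (sum_norm_low hR.le hx hp)
    _ = _ := by field_simp

theorem xiM_le {R : ℝ} (h0 : 0 ≤ R) (hR : 8 / 3 * R < Real.pi / 2) {x : Fin m → ℂ} (hx : Hts x)
    (hp : Plc R x) (i0 : Fin m) : ‖xiM x i0‖ ≤ Real.exp (8 / 3) / kR R / m := by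
  rw [← xiM_neg]
  exact xiP_le h0 hR hx.neg hp.neg i0

/-! ### the comparison with the plateau -/

/-- algebra: the ratio of two asymptotic forms -/
lemma ratio {ι : Type*} {s : Finset ι} {c Y : ℂ} {p e r : ι → ℂ} {i0 : ι}
    (hp : ∀ i, p i = c * (Y * e i) + r i) (h1 : ∑ i ∈ s, p i ≠ 0) (h2 : ∑ i ∈ s, e i ≠ 0) :
    p i0 / ∑ i ∈ s, p i - e i0 / ∑ i ∈ s, e i =
      (r i0 * (∑ i ∈ s, e i) - e i0 * ∑ i ∈ s, r i) / ((∑ i ∈ s, p i) * ∑ i ∈ s, e i) := by
  have hs : ∑ i ∈ s, p i = c * (Y * ∑ i ∈ s, e i) + ∑ i ∈ s, r i := by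
    rw [Finset.sum_congr rfl fun i _ => hp i, Finset.sum_add_distrib, ← Finset.mul_sum,
      ← Finset.mul_sum]
  rw [div_sub_div _ _ h1 h2]
  congr 1
  rw [hp i0, hs]
  ring

/-- **comparison**, one point: rows with the asymptotic form, density bounded below -/
theorem cmp {R c K t : ℝ} (h0 : 0 ≤ R) (hR : 8 / 3 * R < Real.pi / 2) (hc : 0 < c) (hK : 0 < K)
    {x : Fin m → ℂ} (hx : Hts x) (hp : Plc R x) (i0 : Fin m) {u : ℂ}
    (hr : ∀ i, ‖pc (u - l - x i) - c1 * (yE (u - l) * yE (-x i))‖ ≤ K * Real.exp (-(40 / 3 * t)))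
    (hl : c * m * Real.exp (-(8 / 3 * t)) ≤ ‖rhoR x u‖) :
    ‖xiR x i0 u - xiP x i0‖ ≤ 2 * Real.exp (8 / 3) * K / (c * kR R) / m *
      Real.exp (-(32 / 3 * t)) := by
  have hm : (0 : ℝ) < m := by exact_mod_cast i0.pos
  have hk := kR_pos h0 hR
  have hE1 := sum_norm_low hR.le hx hp
  have hE2 := sum_norm_up hx
  have hE0 : 0 < ‖∑ i, yE (-x i)‖ := lt_of_lt_of_le (by positivity) hE1
  have hrho0 : 0 < ‖rhoR x u‖ := lt_of_lt_of_le (by positivity) hl
  set r : Fin m → ℂ := fun i => pc (u - l - x i) - c1 * (yE (u - l) * yE (-x i)) with hrd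
  have e0 := ratio (s := Finset.univ) (c := (c1 : ℂ)) (Y := yE (u - l))
    (p := fun i => pc (u - l - x i)) (e := fun i => yE (-x i)) (r := r) (i0 := i0)
    (fun i => by rw [hrd]; ring) (norm_pos_iff.1 hrho0) (norm_pos_iff.1 hE0)
  have e1 : xiR x i0 u - xiP x i0 = (r i0 * (∑ i, yE (-x i)) - yE (-x i0) * ∑ i, r i) /
      (rhoR x u * ∑ i, yE (-x i)) := e0
  have hs : ‖∑ i, r i‖ ≤ m * (K * Real.exp (-(40 / 3 * t))) := by
    calc ‖∑ i, r i‖ ≤ ∑ i, ‖r i‖ := norm_sum_le _ _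
      _ ≤ ∑ _i : Fin m, K * Real.exp (-(40 / 3 * t)) := Finset.sum_le_sum fun i _ => hr i
      _ = _ := by rw [Finset.sum_const, Finset.card_univ, Fintype.card_fin, nsmul_eq_mul]
  have hnum : ‖r i0 * (∑ i, yE (-x i)) - yE (-x i0) * ∑ i, r i‖ ≤
      2 * (m * Real.exp (8 / 3)) * (K * Real.exp (-(40 / 3 * t))) := by
    refine (norm_sub_le _ _).trans ?_
    rw [norm_mul, norm_mul]
    have k1 : ‖r i0‖ * ‖∑ i, yE (-x i)‖ ≤
        (K * Real.exp (-(40 / 3 * t))) * (m * Real.exp (8 / 3)) :=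
      mul_le_mul (hr i0) hE2 hE0.le (by positivity)
    have k2 : ‖yE (-x i0)‖ * ‖∑ i, r i‖ ≤
        Real.exp (8 / 3) * (m * (K * Real.exp (-(40 / 3 * t)))) :=
      mul_le_mul (norm_yE_neg_le (hx i0)) hs (norm_nonneg _) (Real.exp_pos _).le
    linarith
  have hden : (c * m * Real.exp (-(8 / 3 * t))) * (m * kR R) ≤ ‖rhoR x u * ∑ i, yE (-x i)‖ := by
    rw [norm_mul]
    exact mul_le_mul hl hE1 (by positivity) (norm_nonneg _)
  rw [e1, norm_div]
  calc _ ≤ 2 * (m * Real.exp (8 / 3)) * (K * Real.exp (-(40 / 3 * t))) /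
        ((c * m * Real.exp (-(8 / 3 * t))) * (m * kR R)) :=
        div_le_div₀ (by positivity) hnum (by positivity) hden
    _ = _ := by
      have e5 : Real.exp (-(40 / 3 * t)) =
          Real.exp (-(8 / 3 * t)) * Real.exp (-(32 / 3 * t)) := by
        rw [← Real.exp_add]
        congr 1
        ring
      rw [e5]
      have := Real.exp_pos (-(8 / 3 * t))
      field_simp

/-- the remainder of a row of height `≤ 1` -/
lemma rem_le {C : ℝ} (hC : 0 ≤ C) {x u : ℂ} (hx : |x.im| ≤ 1)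
    (h : ‖pc (u - l - x) - c1 * yE (u - l - x)‖ ≤ C * ‖yE (u - l - x)‖ ^ 5) :
    ‖pc (u - l - x) - c1 * (yE (u - l) * yE (-x))‖ ≤
      C * Real.exp (40 / 3) * Real.exp (-(40 / 3 * u.im)) := by
  rw [← yE_row]
  refine h.trans ?_
  have e0 : (u - l - x).im = u.im - x.im := by simp
  rw [norm_yE, e0, ← Real.exp_nat_mul, mul_assoc, ← Real.exp_add]
  refine mul_le_mul_of_nonneg_left (Real.exp_le_exp.2 ?_) hC
  push_cast
  have := abs_le.1 hx
  linarith

/-- **the right plateau**, inner strip, also a little below the real axis -/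
theorem right' {b R : ℝ} (hb0 : 0 ≤ b) (hb : b < l) (h0 : 0 ≤ R) (hR : 8 / 3 * R < Real.pi / 2) :
    ∃ C : ℝ, 0 < C ∧ ∀ (m : ℕ) (x : Fin m → ℂ) (i0 : Fin m), Hts x → Plc R x → ∀ u : ℂ,
      Ins b x u → -1 ≤ u.im → ‖xiR x i0 u - xiP x i0‖ ≤ C / m * Real.exp (-(32 / 3 * u.im)) := by
  obtain ⟨c, hc, hlow⟩ := low hb0 hb
  obtain ⟨C, hC, hasy⟩ := pc_asym hb0 hb
  have hk := kR_pos h0 hR
  refine ⟨2 * Real.exp (8 / 3) * (C * Real.exp (40 / 3)) / (c * Real.exp (-(16 / 3)) * kR R),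
    by positivity, fun m x i0 hx hp u hu hu1 => ?_⟩
  refine cmp h0 hR (by positivity) (by positivity) hx hp i0 (t := u.im)
    (fun i => rem_le hC.le (hx i) (hasy _ (hu i))) ?_
  refine le_trans ?_ ((hlow m x hx u hu).trans (Complex.re_le_norm _))
  rw [show c * Real.exp (-(16 / 3)) * m * Real.exp (-(8 / 3 * u.im)) =
    c * m * (Real.exp (-(16 / 3)) * Real.exp (-(8 / 3 * u.im))) by ring, ← Real.exp_add]
  refine mul_le_mul_of_nonneg_left (Real.exp_le_exp.2 ?_) (by positivity)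
  have : |u.im| ≤ u.im + 2 := by
    rw [abs_le]
    constructor <;> linarith
  linarith

/-- **the right plateau** -/
theorem right {b R : ℝ} (hb0 : 0 ≤ b) (hb : b < l) (h0 : 0 ≤ R) (hR : 8 / 3 * R < Real.pi / 2) :
    ∃ C : ℝ, 0 < C ∧ ∀ (m : ℕ) (x : Fin m → ℂ) (i0 : Fin m), Hts x → Plc R x → ∀ u : ℂ,
      Ins b x u → 0 ≤ u.im → ‖xiR x i0 u - xiP x i0‖ ≤ C / m * Real.exp (-(32 / 3 * |u.im|)) := by
  obtain ⟨C, hC, h⟩ := right' hb0 hb h0 hR
  exact ⟨C, hC, fun m x i0 hx hp u hu h1 => by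
    rw [abs_of_nonneg h1]
    exact h m x i0 hx hp u hu (by linarith)⟩

/-- **the left plateau** -/
theorem left {b R : ℝ} (hb0 : 0 ≤ b) (hb : b < l) (h0 : 0 ≤ R) (hR : 8 / 3 * R < Real.pi / 2) :
    ∃ C : ℝ, 0 < C ∧ ∀ (m : ℕ) (x : Fin m → ℂ) (i0 : Fin m), Hts x → Plc R x → ∀ u : ℂ,
      Ins b x u → u.im ≤ 0 → ‖xiR x i0 u - xiM x i0‖ ≤ C / m * Real.exp (-(32 / 3 * |u.im|)) := by
  obtain ⟨C, hC, h⟩ := right hb0 hb h0 hR
  refine ⟨C, hC, fun m x i0 hx hp u hu h1 => ?_⟩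
  have e2 : (2 * l - u : ℂ).im = -u.im := by simp
  have := h m (fun i => -x i) i0 hx.neg hp.neg (2 * l - u) hu.neg (by rw [e2]; linarith)
  rwa [xiR_refl, xiM_neg, e2, abs_neg] at this

/-! ### differentiability -/

theorem dif {b : ℝ} (hb : b < l) {x : Fin m → ℂ} (i0 : Fin m) {u : ℂ} (h : Ins b x u) :
    DifferentiableAt ℂ (xiR x i0) u :=
  xiR_diff i0 fun i => lt_of_le_of_lt (h i) hb

lemma Ins.ball {b r : ℝ} {x : Fin m → ℂ} {u v : ℂ} (h : Ins b x u) (hv : v ∈ closedBall u r) :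
    Ins (b + r) x v := fun i => by
  rw [mem_closedBall, dist_eq_norm] at hv
  have h1 := Complex.abs_re_le_norm (v - u)
  have h3 : (v - l - x i : ℂ).re = (u - l - x i : ℂ).re + (v - u).re := by
    simp only [Complex.sub_re]
    ring
  rw [h3]
  refine (abs_add_le _ _).trans ?_
  have := h i
  linarith

/-- **the derivative of the field**, inner strip -/
theorem der {b R : ℝ} (hb0 : 0 ≤ b) (hb : b < l) (h0 : 0 ≤ R) (hR : 8 / 3 * R < Real.pi / 2) :
    ∃ C : ℝ, 0 < C ∧ ∀ (m : ℕ) (x : Fin m → ℂ) (i0 : Fin m), Hts x → Plc R x → ∀ u : ℂ,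
      Ins b x u → ‖deriv (xiR x i0) u‖ ≤ C / m * Real.exp (-(32 / 3 * |u.im|)) := by
  have hl : 0 < l := NUMF.l_pos
  have hl1 : l < 1 := by
    unfold l
    have := Real.pi_lt_d2
    linarith
  set r := (l - b) / 2 with hr
  have hr0 : 0 < r := by rw [hr]; linarith
  have hr1 : r < 1 := by rw [hr]; linarith
  have hbr : b + r < l := by rw [hr]; linarith
  obtain ⟨C, hC, h⟩ := right' (b := b + r) (R := R) (by positivity) hbr h0 hR
  -- the right half
  have key : ∀ (m : ℕ) (x : Fin m → ℂ) (i0 : Fin m), Hts x → Plc R x → ∀ u : ℂ, Ins b x u →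
      0 ≤ u.im → ‖deriv (xiR x i0) u‖ ≤
        C * Real.exp (32 / 3) / r / m * Real.exp (-(32 / 3 * u.im)) := by
    intro m x i0 hx hp u hu h1
    have hm : (0 : ℝ) < m := by exact_mod_cast i0.pos
    have hball : ∀ v ∈ closedBall u r, u.im - r ≤ v.im := by
      intro v hv
      rw [mem_closedBall, dist_eq_norm] at hv
      have h2 := Complex.abs_im_le_norm (v - u)
      have h4 : v.im = u.im + (v - u).im := by simp
      rw [h4]
      have := neg_abs_le (v - u).im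
      linarith
    have hd : DiffContOnCl ℂ (fun v => xiR x i0 v - xiP x i0) (ball u r) := by
      refine DifferentiableOn.diffContOnCl_ball (U := closedBall u r) (fun v hv => ?_)
        subset_rfl
      exact ((dif hbr i0 (hu.ball hv)).sub_const _).differentiableWithinAt
    have hb2 : ∀ v ∈ sphere u r, ‖xiR x i0 v - xiP x i0‖ ≤
        C / m * (Real.exp (32 / 3) * Real.exp (-(32 / 3 * u.im))) := by
      intro v hv
      have hv' := sphere_subset_closedBall hv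
      have h6 := hball v hv'
      refine (h m x i0 hx hp v (hu.ball hv') (by linarith)).trans ?_
      refine mul_le_mul_of_nonneg_left ?_ (by positivity)
      rw [← Real.exp_add]
      exact Real.exp_le_exp.2 (by linarith)
    have h7 := Complex.norm_deriv_le_of_forall_mem_sphere_norm_le hr0 hd hb2
    have h8 : deriv (fun v => xiR x i0 v - xiP x i0) u = deriv (xiR x i0) u := by
      rw [deriv_sub_const]
    rw [h8] at h7
    refine h7.trans (le_of_eq ?_)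
    field_simp
  refine ⟨C * Real.exp (32 / 3) / r, by positivity, fun m x i0 hx hp u hu => ?_⟩
  rcases le_total 0 u.im with h1 | h1
  · rw [abs_of_nonneg h1]
    exact key m x i0 hx hp u hu h1
  · have e2 : (2 * l - u : ℂ).im = -u.im := by simp
    have h9 := key m (fun i => -x i) i0 hx.neg hp.neg (2 * l - u) hu.neg (by rw [e2]; linarith)
    have e3 : xiR x i0 = fun u => xiR (fun i => -x i) i0 (2 * l - u) := by
      funext v
      rw [xiR_refl]
    have e4 : deriv (xiR x i0) u = -deriv (xiR (fun i => -x i) i0) (2 * l - u) := by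
      rw [e3, deriv_comp_const_sub]
    rw [e4, norm_neg, abs_of_nonpos h1]
    rw [e2] at h9
    exact h9

/-! ### far from the real axis: any real part -/

/-- **asymptotic form of the density, any real part** -/
theorem asym_far : ∃ C : ℝ, 0 < C ∧ ∀ w : ℂ, 1 ≤ w.im → ‖pc w - c1 * yE w‖ ≤ C * ‖yE w‖ ^ 5 := by
  refine ⟨c1 * 2, mul_pos c1_pos (by norm_num), fun w hw => ?_⟩
  set y := yE w with hy
  have hy0 : y ≠ 0 := Complex.exp_ne_zero _
  have hyn : ‖y‖ ≤ 1 / 2 := by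
    rw [hy, norm_yE]
    have h1 : Real.exp (-(8 / 3 * w.im)) ≤ Real.exp (-1) := Real.exp_le_exp.2 (by linarith)
    have h2 : Real.exp (-1) ≤ 1 / 2 := by
      rw [Real.exp_neg, inv_le_comm₀ (Real.exp_pos _) (by norm_num)]
      have := Real.add_one_le_exp (1 : ℝ)
      linarith
    exact h1.trans h2
  have hyp := norm_nonneg y
  -- the denominator
  have e1 : y ^ 2 * ((2 * Complex.cos (8 / 3 * w) - 1) * (2 * Complex.cos (8 / 3 * w) + 1)) =
      1 + y ^ 2 + y ^ 4 := by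
    rw [cos_yE, ← hy]
    field_simp
    ring
  have h2 : ‖y‖ ^ 2 ≤ 1 / 4 := by nlinarith
  have h4 : ‖y‖ ^ 4 ≤ 1 / 16 := by
    have : ‖y‖ ^ 4 = (‖y‖ ^ 2) ^ 2 := by ring
    rw [this]
    nlinarith [sq_nonneg (‖y‖)]
  have hden : 1 / 2 ≤ ‖1 + y ^ 2 + y ^ 4‖ := by
    have h5 : ‖(1 : ℂ)‖ - ‖y ^ 2 + y ^ 4‖ ≤ ‖(1 : ℂ) + (y ^ 2 + y ^ 4)‖ := by
      have := norm_sub_norm_le (1 : ℂ) (-(y ^ 2 + y ^ 4))
      rwa [norm_neg, sub_neg_eq_add] at this
    have h6 : ‖y ^ 2 + y ^ 4‖ ≤ 1 / 4 + 1 / 16 := by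
      refine (norm_add_le _ _).trans ?_
      rw [norm_pow, norm_pow]
      linarith
    rw [add_assoc]
    rw [norm_one] at h5
    linarith
  have hdpos : 0 < ‖1 + y ^ 2 + y ^ 4‖ := lt_of_lt_of_le (by norm_num) hden
  have hd0 : 1 + y ^ 2 + y ^ 4 ≠ 0 := norm_pos_iff.1 hdpos
  have hprod : (2 * Complex.cos (8 / 3 * w) - 1) * (2 * Complex.cos (8 / 3 * w) + 1) ≠ 0 := by
    intro h
    rw [h, mul_zero] at e1
    exact hd0 e1.symm
  have e3 : pc w = c1 * (y * (1 + y ^ 2) / (1 + y ^ 2 + y ^ 4)) := by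
    have e4 : Complex.cos (8 / 3 * w) /
        ((2 * Complex.cos (8 / 3 * w) - 1) * (2 * Complex.cos (8 / 3 * w) + 1)) =
        y * (1 + y ^ 2) / (1 + y ^ 2 + y ^ 4) / 2 := by
      rw [← e1]
      rw [div_div, div_eq_div_iff hprod (mul_ne_zero (mul_ne_zero (pow_ne_zero _ hy0) hprod)
        two_ne_zero)]
      have e5 : Complex.cos (8 / 3 * w) * (2 * y) = 1 + y ^ 2 := by
        rw [cos_yE, ← hy]
        field_simp
        ring
      linear_combination (y * ((2 * Complex.cos (8 / 3 * w) - 1) *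
        (2 * Complex.cos (8 / 3 * w) + 1))) * e5
    unfold pc c1
    rw [pc_split, e4]
    push_cast
    ring
  have e6 : pc w - c1 * y = -(c1 * (y ^ 5 / (1 + y ^ 2 + y ^ 4))) := by
    rw [e3]
    field_simp
    ring
  rw [e6, norm_neg, norm_mul, norm_div, norm_pow, Complex.norm_real, Real.norm_eq_abs,
    abs_of_pos c1_pos]
  calc c1 * (‖y‖ ^ 5 / ‖1 + y ^ 2 + y ^ 4‖) ≤ c1 * (‖y‖ ^ 5 / (1 / 2)) := by
        have := c1_pos
        gcongr
    _ = _ := by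
      field_simp

/-- **far from the real axis** (`T ≤ Im u`, any real part): the density from below and the
plateau -/
theorem far_right {R : ℝ} (h0 : 0 ≤ R) (hR : 8 / 3 * R < Real.pi / 2) : ∃ T c C : ℝ,
    2 ≤ T ∧ 0 < c ∧ 0 < C ∧ ∀ (m : ℕ) (x : Fin m → ℂ), Hts x → Plc R x → ∀ u : ℂ, T ≤ u.im →
      c * m * Real.exp (-(8 / 3 * u.im)) ≤ ‖rhoR x u‖ ∧
      ‖rhoR x u‖ ≤ C * m * Real.exp (-(8 / 3 * u.im)) ∧
      ∀ i0 : Fin m, ‖xiR x i0 u - xiP x i0‖ ≤ C / m * Real.exp (-(32 / 3 * u.im)) := by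
  obtain ⟨C, hC, hasy⟩ := asym_far
  have hk := kR_pos h0 hR
  have hc1 := c1_pos
  set K := C * Real.exp (40 / 3) with hK
  have hK0 : 0 < K := by positivity
  -- the height
  have hT : ∃ T : ℝ, 2 ≤ T ∧ K * Real.exp (-(32 / 3 * T)) ≤ c1 * kR R / 2 := by
    have h1 : Tendsto (fun T : ℝ => K * Real.exp (-(32 / 3 * T))) atTop (𝓝 (K * 0)) :=
      (Real.tendsto_exp_atBot.comp (tendsto_neg_atTop_atBot.comp
        (tendsto_id.const_mul_atTop (by norm_num : (0 : ℝ) < 32 / 3)))).const_mul K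
    rw [mul_zero] at h1
    obtain ⟨T, hT1, hT2⟩ := ((h1.eventually (ge_mem_nhds
      (by positivity : (0 : ℝ) < c1 * kR R / 2))).and (eventually_ge_atTop (2 : ℝ))).exists
    exact ⟨T, hT2, hT1⟩
  obtain ⟨T, hT2, hT1⟩ := hT
  refine ⟨T, c1 * kR R / 2, max (2 * Real.exp (8 / 3) * K / (c1 * kR R / 2 * kR R))
    (c1 * Real.exp (8 / 3) + K), hT2, by positivity, by positivity, fun m x hx hp u hu => ?_⟩
  have hY : ‖yE (u - l)‖ = Real.exp (-(8 / 3 * u.im)) := by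
    rw [norm_yE]
    congr 2
    simp
  have hr : ∀ i, ‖pc (u - l - x i) - c1 * (yE (u - l) * yE (-x i))‖ ≤
      K * Real.exp (-(40 / 3 * u.im)) := fun i => by
    refine rem_le hC.le (hx i) (hasy _ ?_)
    have e0 : (u - l - x i).im = u.im - (x i).im := by simp
    rw [e0]
    have := abs_le.1 (hx i)
    linarith
  have hsum : rhoR x u = c1 * (yE (u - l) * ∑ i, yE (-x i)) +
      ∑ i, (pc (u - l - x i) - c1 * (yE (u - l) * yE (-x i))) := by
    rw [Finset.sum_sub_distrib, Finset.mul_sum, Finset.mul_sum]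
    unfold rhoR
    ring
  have hs : ‖∑ i, (pc (u - l - x i) - c1 * (yE (u - l) * yE (-x i)))‖ ≤
      m * (K * Real.exp (-(40 / 3 * u.im))) := by
    refine (norm_sum_le _ _).trans ((Finset.sum_le_sum fun i _ => hr i).trans (le_of_eq ?_))
    rw [Finset.sum_const, Finset.card_univ, Fintype.card_fin, nsmul_eq_mul]
  have e40 : Real.exp (-(40 / 3 * u.im)) =
      Real.exp (-(32 / 3 * u.im)) * Real.exp (-(8 / 3 * u.im)) := by
    rw [← Real.exp_add]
    congr 1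
    ring
  have hsm : K * Real.exp (-(32 / 3 * u.im)) ≤ c1 * kR R / 2 :=
    le_trans (mul_le_mul_of_nonneg_left (Real.exp_le_exp.2 (by linarith)) hK0.le) hT1
  have hmain : ‖c1 * (yE (u - l) * ∑ i, yE (-x i))‖ =
      c1 * (Real.exp (-(8 / 3 * u.im)) * ‖∑ i, yE (-x i)‖) := by
    rw [norm_mul, norm_mul, hY, Complex.norm_real, Real.norm_eq_abs, abs_of_pos hc1]
  have hex := Real.exp_pos (-(8 / 3 * u.im))
  have hlow : c1 * kR R / 2 * m * Real.exp (-(8 / 3 * u.im)) ≤ ‖rhoR x u‖ := by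
    have h1 : ‖c1 * (yE (u - l) * ∑ i, yE (-x i))‖ -
        ‖∑ i, (pc (u - l - x i) - c1 * (yE (u - l) * yE (-x i)))‖ ≤ ‖rhoR x u‖ := by
      rw [hsum]
      have := norm_sub_norm_le (c1 * (yE (u - l) * ∑ i, yE (-x i)))
        (-∑ i, (pc (u - l - x i) - c1 * (yE (u - l) * yE (-x i))))
      rwa [norm_neg, sub_neg_eq_add] at this
    have h2 : c1 * (Real.exp (-(8 / 3 * u.im)) * (m * kR R)) ≤
        c1 * (Real.exp (-(8 / 3 * u.im)) * ‖∑ i, yE (-x i)‖) := by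
      have := sum_norm_low hR.le hx hp
      gcongr
    have h3 : m * (K * Real.exp (-(40 / 3 * u.im))) ≤
        m * (c1 * kR R / 2 * Real.exp (-(8 / 3 * u.im))) := by
      rw [e40, ← mul_assoc K]
      gcongr
    rw [hmain] at h1
    calc c1 * kR R / 2 * m * Real.exp (-(8 / 3 * u.im)) =
        c1 * (Real.exp (-(8 / 3 * u.im)) * (m * kR R)) -
          m * (c1 * kR R / 2 * Real.exp (-(8 / 3 * u.im))) := by ring
      _ ≤ _ := by linarith
  have hup : ‖rhoR x u‖ ≤ (c1 * Real.exp (8 / 3) + K) * m * Real.exp (-(8 / 3 * u.im)) := by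
    rw [hsum]
    refine (norm_add_le _ _).trans ?_
    rw [hmain]
    have h2 : c1 * (Real.exp (-(8 / 3 * u.im)) * ‖∑ i, yE (-x i)‖) ≤
        c1 * (Real.exp (-(8 / 3 * u.im)) * (m * Real.exp (8 / 3))) := by
      have := sum_norm_up hx
      gcongr
    have h3 : Real.exp (-(40 / 3 * u.im)) ≤ Real.exp (-(8 / 3 * u.im)) :=
      Real.exp_le_exp.2 (by linarith)
    have h4 : m * (K * Real.exp (-(40 / 3 * u.im))) ≤ m * (K * Real.exp (-(8 / 3 * u.im))) := by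
      gcongr
    calc _ ≤ c1 * (Real.exp (-(8 / 3 * u.im)) * (m * Real.exp (8 / 3))) +
        m * (K * Real.exp (-(8 / 3 * u.im))) := by linarith
      _ = _ := by ring
  refine ⟨hlow, hup.trans ?_, fun i0 => ?_⟩
  · gcongr
    exact le_max_right _ _
  · refine (cmp h0 hR (by positivity) hK0 hx hp i0 hr hlow).trans ?_
    gcongr
    exact le_max_left _ _

lemma rho_refl_norm (x : Fin m → ℂ) (u : ℂ) : ‖rhoR (fun i => -x i) (2 * l - u)‖ = ‖rhoR x u‖ := by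
  rw [rhoR_refl]

/-- **far from the real axis**, below -/
theorem far_left {R : ℝ} (h0 : 0 ≤ R) (hR : 8 / 3 * R < Real.pi / 2) : ∃ T c C : ℝ,
    2 ≤ T ∧ 0 < c ∧ 0 < C ∧ ∀ (m : ℕ) (x : Fin m → ℂ), Hts x → Plc R x → ∀ u : ℂ, T ≤ -u.im →
      c * m * Real.exp (8 / 3 * u.im) ≤ ‖rhoR x u‖ ∧
      ‖rhoR x u‖ ≤ C * m * Real.exp (8 / 3 * u.im) ∧
      ∀ i0 : Fin m, ‖xiR x i0 u - xiM x i0‖ ≤ C / m * Real.exp (32 / 3 * u.im) := by
  obtain ⟨T, c, C, hT, hc, hC, h⟩ := far_right h0 hR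
  refine ⟨T, c, C, hT, hc, hC, fun m x hx hp u hu => ?_⟩
  have e2 : (2 * l - u : ℂ).im = -u.im := by simp
  obtain ⟨a1, a2, a3⟩ := h m (fun i => -x i) hx.neg hp.neg (2 * l - u) (by rw [e2]; exact hu)
  rw [rho_refl_norm, e2] at a1 a2
  have n1 : -(8 / 3 * -u.im) = 8 / 3 * u.im := by ring
  have n2 : -(32 / 3 * -u.im) = 32 / 3 * u.im := by ring
  rw [n1] at a1 a2
  refine ⟨a1, a2, fun i0 => ?_⟩
  have := a3 i0
  rwa [xiR_refl, xiM_neg, e2, n2] at this

end PLT.FP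

end
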