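import Pool.Agent.PLT.FldB

/-!
# PLAX-theta, field: the real part of the density times the divisor

* `RT_up` : `‖RT‖ ≤ C m cosh (8 t / 3)`;
* **`RT_low`** : `Re RT ≥ (c m - C K) cosh (8 t / 3)` on the inner strip (offset in `(- y1, y0)`);
* `RT_far` : `Re RT ≥ (c m - C K) cosh (8 t / 3) - C m` on the whole strip;
* `RT_diff` : holomorphic.
-/

set_option autoImplicit false

noncomputable section

namespace PLT

open Complex
open NUP1 (l)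
open PBForce (pc rhoR)

variable {m : ℕ} {y0 K : ℝ} {x : Fin m → ℂ}

theorem am_mem (h0 : 1 / 2 ≤ y0) (h1 : y0 ≤ 1) : 0 ≤ am y0 ∧ am y0 ≤ Real.pi / 6 := by
  have hpi := Real.pi_pos
  unfold am
  constructor <;> nlinarith

theorem Hom.K0 (h : Hom y0 K x) : 0 ≤ K := (Nat.cast_nonneg _).trans h.mv

/-- numbers of a content -/
theorem Hom.num (h : Hom y0 K x) : ∃ Λ e : ℝ, (nM y0 x : ℝ) = Λ * Real.sin (Real.pi / 6 - am y0) + e ∧
    (nP y0 x : ℝ) = Λ * Real.sin (Real.pi / 6 + am y0) ∧ |e| ≤ 2 * K ∧ 0 ≤ Λ ∧ Λ ≤ 2 * m ∧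
      (m : ℝ) - 3 * K ≤ Λ := by
  have hpi := Real.pi_pos
  obtain ⟨a0, a1⟩ := am_mem h.lo h.hi
  have hs : 1 / 2 ≤ Real.sin (Real.pi / 6 + am y0) := by
    rw [← Real.sin_pi_div_six]
    exact Real.sin_le_sin_of_le_of_le_pi_div_two (by linarith) (by linarith) (by linarith)
  obtain ⟨s0, hs0⟩ : ∃ s, s = Real.sin (Real.pi / 6 + am y0) := ⟨_, rfl⟩
  obtain ⟨s1, hs1⟩ : ∃ s, s = Real.sin (Real.pi / 6 - am y0) := ⟨_, rfl⟩
  have hsum : s1 + s0 ≤ 1 := by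
    have e : s1 + s0 = Real.cos (am y0) := by
      rw [hs0, hs1, Real.sin_add, Real.sin_sub, Real.sin_pi_div_six]
      ring
    rw [e]
    exact Real.cos_le_one _
  have hs10 : 0 ≤ s1 := by
    rw [hs1]
    exact Real.sin_nonneg_of_nonneg_of_le_pi (by linarith) (by linarith)
  have hb := h.bal
  have hmv := h.mv
  have hc : ((nM y0 x : ℝ) + nP y0 x) + (eX y0 x).card = m := by exact_mod_cast card_eq y0 x
  rw [← hs0] at hs
  rw [← hs0, ← hs1] at hb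
  rw [← hs0, ← hs1]
  have hs0p : 0 < s0 := by linarith
  have hnM : (0 : ℝ) ≤ nM y0 x := Nat.cast_nonneg _
  have hnP : (0 : ℝ) ≤ nP y0 x := Nat.cast_nonneg _
  have hE : (0 : ℝ) ≤ (eX y0 x).card := Nat.cast_nonneg _
  obtain ⟨Λ, hΛ⟩ : ∃ Λ : ℝ, Λ = nP y0 x / s0 := ⟨_, rfl⟩
  have hΛ1 : (nP y0 x : ℝ) = Λ * s0 := by rw [hΛ]; field_simp
  have hΛ0 : 0 ≤ Λ := by rw [hΛ]; positivity
  refine ⟨Λ, nM y0 x - Λ * s1, by ring, hΛ1, ?_, hΛ0, ?_, ?_⟩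
  · rw [hΛ1] at hb
    have e : (nM y0 x : ℝ) * s0 - Λ * s0 * s1 = (nM y0 x - Λ * s1) * s0 := by ring
    rw [e, abs_mul, abs_of_pos hs0p] at hb
    nlinarith [abs_nonneg ((nM y0 x : ℝ) - Λ * s1)]
  · nlinarith
  · rw [hΛ1] at hb hc
    have e : (nM y0 x : ℝ) * s0 - Λ * s0 * s1 = (nM y0 x - Λ * s1) * s0 := by ring
    rw [e, abs_mul, abs_of_pos hs0p] at hb
    have h2 : |(nM y0 x : ℝ) - Λ * s1| ≤ 2 * K := by
      nlinarith [abs_nonneg ((nM y0 x : ℝ) - Λ * s1)]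
    have h3 := (abs_le.1 h2).2
    nlinarith

/-- the exact form -/
theorem RT_form {Λ e : ℝ} (h1 : (nM y0 x : ℝ) = Λ * Real.sin (Real.pi / 6 - am y0) + e)
    (h2 : (nP y0 x : ℝ) = Λ * Real.sin (Real.pi / 6 + am y0)) {w : ℂ} (h0 : cos (aV y0 w) ≠ 0) :
    RT y0 x w = ((Λ * (c00 * (Real.sqrt 3 / 4)) : ℝ) : ℂ) * (2 * (cos (aU w) * (4 - 3 / cos (aV y0 w) ^ 2)) +
        ((Real.cos (3 * am y0) : ℝ) : ℂ) * (1 / cos (aV y0 w) ^ 3)) + e * rM y0 w +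
      ∑ i ∈ eX y0 x, pc (w - x i) * DT y0 w := by
  have hp := pair_eq y0 w h0
  have e1 : (nM y0 x : ℂ) = ((Λ * Real.sin (Real.pi / 6 - am y0) + e : ℝ) : ℂ) := by
    rw [← h1]
    push_cast
    rfl
  have e2 : (nP y0 x : ℂ) = ((Λ * Real.sin (Real.pi / 6 + am y0) : ℝ) : ℂ) := by
    rw [← h2]
    push_cast
    rfl
  rw [RT_split, e1, e2]
  have e3 : ((Λ * (c00 * (Real.sqrt 3 / 4)) : ℝ) : ℂ) = Λ * ((c00 * (Real.sqrt 3 / 4) : ℝ) : ℂ) := by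
    push_cast
    ring
  rw [e3, mul_assoc, ← hp]
  push_cast
  ring

/-- the extra rows together -/
theorem ext_sum_le {b1 b : ℝ} (hb : b1 < Real.pi / 2) (hb0 : 0 ≤ b) (hbl : b < l) : ∃ C : ℝ, 0 < C ∧
    ∀ (m : ℕ) (y0 K : ℝ) (x : Fin m → ℂ) (w : ℂ), Hom y0 K x → |w.re| ≤ b → |(aV y0 w).re| ≤ b1 →
      ‖∑ i ∈ eX y0 x, pc (w - x i) * DT y0 w‖ ≤ (eX y0 x).card * (C * Real.cosh (8 / 3 * w.im)) := by
  obtain ⟨C, hC, h⟩ := norm_ext_le hb hb0 hbl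
  refine ⟨C, hC, fun m y0 K x w hx hw hV => ?_⟩
  refine (norm_sum_le _ _).trans ?_
  refine (Finset.sum_le_sum fun i hi => ?_).trans (le_of_eq ?_) (b := ∑ _i ∈ eX y0 x, C * Real.cosh (8 / 3 * w.im))
  · unfold eX at hi
    rw [Finset.mem_filter] at hi
    rcases hx.row i with h1 | h1 | h1
    · exact absurd h1 hi.2.1
    · exact absurd h1 hi.2.2
    · exact h y0 (x i) w h1.1 h1.2 hw hV
  · rw [Finset.sum_const, nsmul_eq_mul]

/-- **upper bound** -/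
theorem RT_up {b1 b : ℝ} (hb : b1 < Real.pi / 2) (hb0 : 0 ≤ b) (hbl : b < l) : ∃ C : ℝ, 0 < C ∧
    ∀ (m : ℕ) (y0 K : ℝ) (x : Fin m → ℂ) (w : ℂ), Hom y0 K x → |w.re| ≤ b → |(aV y0 w).re| ≤ b1 →
      ‖RT y0 x w‖ ≤ C * m * Real.cosh (8 / 3 * w.im) := by
  obtain ⟨C, hC, h⟩ := ext_sum_le hb hb0 hbl
  have hc00 := c00_pos
  by_cases hc : 0 < Real.cos b1
  swap
  · refine ⟨1, one_pos, fun m y0 K x w _ _ hV => absurd ?_ hc⟩
    have hb0 : 0 ≤ b1 := (abs_nonneg _).trans hV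
    exact Real.cos_pos_of_mem_Ioo ⟨by linarith [Real.pi_pos], hb⟩
  obtain ⟨C1, hC1⟩ : ∃ C1, C1 = 5 * c00 / Real.cos b1 ^ 3 := ⟨_, rfl⟩
  have hC1p : 0 < C1 := by rw [hC1]; positivity
  refine ⟨C1 + C, by positivity, fun m y0 K x w hx hw hV => ?_⟩
  have h1 := norm_rM_le hb hV
  have h2 := norm_rP_le hb hV
  have h3 := h m y0 K x w hx hw hV
  rw [← hC1] at h1 h2
  have hcard : ((nM y0 x : ℝ) + nP y0 x) + (eX y0 x).card = m := by exact_mod_cast card_eq y0 x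
  have hch := Real.cosh_pos (8 / 3 * w.im)
  have hnM : (0 : ℝ) ≤ nM y0 x := Nat.cast_nonneg _
  have hnP : (0 : ℝ) ≤ nP y0 x := Nat.cast_nonneg _
  have hE : (0 : ℝ) ≤ (eX y0 x).card := Nat.cast_nonneg _
  rw [RT_split]
  calc ‖(nM y0 x : ℂ) * rM y0 w + nP y0 x * rP y0 w + ∑ i ∈ eX y0 x, pc (w - x i) * DT y0 w‖ ≤
      ‖(nM y0 x : ℂ) * rM y0 w‖ + ‖(nP y0 x : ℂ) * rP y0 w‖ + ‖∑ i ∈ eX y0 x, pc (w - x i) * DT y0 w‖ :=
        norm_add₃_le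
    _ ≤ nM y0 x * (C1 * Real.cosh (8 / 3 * w.im)) + nP y0 x * (C1 * Real.cosh (8 / 3 * w.im)) +
        (eX y0 x).card * (C * Real.cosh (8 / 3 * w.im)) := by
        rw [norm_mul, norm_mul, Complex.norm_natCast, Complex.norm_natCast]
        gcongr
    _ ≤ (C1 + C) * (nM y0 x + nP y0 x + (eX y0 x).card) * Real.cosh (8 / 3 * w.im) := by
        have e : (C1 + C) * ((nM y0 x : ℝ) + nP y0 x + (eX y0 x).card) * Real.cosh (8 / 3 * w.im) -
          (nM y0 x * (C1 * Real.cosh (8 / 3 * w.im)) + nP y0 x * (C1 * Real.cosh (8 / 3 * w.im)) +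
            (eX y0 x).card * (C * Real.cosh (8 / 3 * w.im))) =
          (C * (nM y0 x + nP y0 x) + C1 * (eX y0 x).card) * Real.cosh (8 / 3 * w.im) := by ring
        have : 0 ≤ (C * ((nM y0 x : ℝ) + nP y0 x) + C1 * (eX y0 x).card) * Real.cosh (8 / 3 * w.im) := by
          positivity
        linarith
    _ = _ := by rw [hcard]

/-- real part from below, general form -/
theorem RT_re {b1 b : ℝ} (hb : b1 < Real.pi / 2) (hb0 : 0 ≤ b) (hbl : b < l) : ∃ C : ℝ, 0 < C ∧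
    ∀ (m : ℕ) (y0 K : ℝ) (x : Fin m → ℂ) (w : ℂ), Hom y0 K x → |w.re| ≤ b → |(aV y0 w).re| ≤ b1 →
      ∃ Λ : ℝ, 0 ≤ Λ ∧ Λ ≤ 2 * m ∧ (m : ℝ) - 3 * K ≤ Λ ∧
      Λ * (c00 * (Real.sqrt 3 / 4)) * (2 * (cos (aU w) * (4 - 3 / cos (aV y0 w) ^ 2)).re +
        Real.cos (3 * am y0) * (1 / cos (aV y0 w) ^ 3).re) - C * K * Real.cosh (8 / 3 * w.im) ≤
          (RT y0 x w).re := by
  obtain ⟨C, hC, h⟩ := ext_sum_le hb hb0 hbl
  have hc00 := c00_pos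
  by_cases hc : 0 < Real.cos b1
  swap
  · refine ⟨1, one_pos, fun m y0 K x w _ _ hV => absurd ?_ hc⟩
    have hb0 : 0 ≤ b1 := (abs_nonneg _).trans hV
    exact Real.cos_pos_of_mem_Ioo ⟨by linarith [Real.pi_pos], hb⟩
  obtain ⟨C1, hC1⟩ : ∃ C1, C1 = 5 * c00 / Real.cos b1 ^ 3 := ⟨_, rfl⟩
  have hC1p : 0 < C1 := by rw [hC1]; positivity
  refine ⟨2 * C1 + C, by positivity, fun m y0 K x w hx hw hV => ?_⟩
  obtain ⟨Λ, e, g1, g2, g3, g4, g5, g6⟩ := hx.num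
  refine ⟨Λ, g4, g5, g6, ?_⟩
  have hVn : cos (aV y0 w) ≠ 0 := cos_ne (lt_of_le_of_lt hV hb)
  have h1 := norm_rM_le hb hV
  have h3 := h m y0 K x w hx hw hV
  rw [← hC1] at h1
  have hch := Real.cosh_pos (8 / 3 * w.im)
  have hmv := hx.mv
  have hK := hx.K0
  have h4 : ‖(e : ℂ) * rM y0 w‖ ≤ 2 * K * (C1 * Real.cosh (8 / 3 * w.im)) := by
    rw [norm_mul, norm_real, Real.norm_eq_abs]
    gcongr
  have h5 : ‖∑ i ∈ eX y0 x, pc (w - x i) * DT y0 w‖ ≤ K * (C * Real.cosh (8 / 3 * w.im)) :=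
    h3.trans (by gcongr)
  have h6 := (abs_le.1 ((Complex.abs_re_le_norm _).trans h4)).1
  have h7 := (abs_le.1 ((Complex.abs_re_le_norm _).trans h5)).1
  rw [RT_form g1 g2 hVn, add_re, add_re, re_ofReal_mul, add_re, re_ofReal_mul]
  have h8 : (2 * (cos (aU w) * (4 - 3 / cos (aV y0 w) ^ 2))).re =
      2 * (cos (aU w) * (4 - 3 / cos (aV y0 w) ^ 2)).re := by
    rw [show (2 : ℂ) = ((2 : ℝ) : ℂ) by push_cast; rfl, re_ofReal_mul]
  rw [h8]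
  linarith

/-- **real part from below on the inner strip** -/
theorem RT_low {a0 b0 b : ℝ} (ha : a0 < Real.pi / 3) (hb : b0 < Real.pi / 6) (hb0 : 0 ≤ b) (hbl : b < l) :
    ∃ c C : ℝ, 0 < c ∧ 0 < C ∧ ∀ (m : ℕ) (y0 K : ℝ) (x : Fin m → ℂ) (w : ℂ), Hom y0 K x → |w.re| ≤ b →
      |(aU w).re| ≤ a0 → |(aV y0 w).re| ≤ b0 →
      (c * m - C * K) * Real.cosh (8 / 3 * w.im) ≤ (RT y0 x w).re := by
  have hpi := Real.pi_pos
  have hc00 := c00_pos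
  obtain ⟨C, hC, h⟩ := RT_re (b1 := b0) (b := b) (by linarith) hb0 hbl
  obtain ⟨c, hc, h1⟩ := re_main ha hb
  obtain ⟨g, hg⟩ : ∃ g, g = c00 * (Real.sqrt 3 / 4) := ⟨_, rfl⟩
  have hgp : 0 < g := by
    rw [hg]
    have : 0 < Real.sqrt 3 := Real.sqrt_pos.2 (by norm_num)
    positivity
  refine ⟨2 * g * c, 6 * g * c + C, by positivity, by positivity, fun m y0 K x w hx hw hU hV => ?_⟩
  obtain ⟨Λ, g4, g5, g6, h2⟩ := h m y0 K x w hx hw hV
  refine le_trans ?_ h2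
  have h3 := h1 (aU w) (aV y0 w) (by rw [aU_im, aV_im]) hU hV
  rw [aV_im] at h3
  have h4 := re_sec3 (V := aV y0 w) (by linarith)
  obtain ⟨a0', a1'⟩ := am_mem hx.lo hx.hi
  have h5 : 0 ≤ Real.cos (3 * am y0) := Real.cos_nonneg_of_mem_Icc ⟨by linarith, by linarith⟩
  have hch := Real.cosh_pos (8 / 3 * w.im)
  have hK := hx.K0
  rw [← hg]
  have h6 : 2 * (c * Real.cosh (8 / 3 * w.im)) ≤ 2 * (cos (aU w) * (4 - 3 / cos (aV y0 w) ^ 2)).re +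
      Real.cos (3 * am y0) * (1 / cos (aV y0 w) ^ 3).re := by
    have := mul_nonneg h5 h4
    linarith
  calc (2 * g * c * m - (6 * g * c + C) * K) * Real.cosh (8 / 3 * w.im) =
        ((m : ℝ) - 3 * K) * g * (2 * (c * Real.cosh (8 / 3 * w.im))) - C * K * Real.cosh (8 / 3 * w.im) := by ring
    _ ≤ Λ * g * (2 * (c * Real.cosh (8 / 3 * w.im))) - C * K * Real.cosh (8 / 3 * w.im) := by gcongr
    _ ≤ _ := by gcongr

/-- real part from below on the whole strip -/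
theorem RT_far {a1 b1 b : ℝ} (ha : a1 < Real.pi / 2) (hb : b1 < Real.pi / 2) (hb0 : 0 ≤ b) (hbl : b < l) :
    ∃ c C : ℝ, 0 < c ∧ 0 < C ∧ ∀ (m : ℕ) (y0 K : ℝ) (x : Fin m → ℂ) (w : ℂ), Hom y0 K x → |w.re| ≤ b →
      |(aU w).re| ≤ a1 → |(aV y0 w).re| ≤ b1 →
      (c * m - C * K) * Real.cosh (8 / 3 * w.im) - C * m ≤ (RT y0 x w).re := by
  have hpi := Real.pi_pos
  have hc00 := c00_pos
  obtain ⟨C, hC, h⟩ := RT_re (b1 := b1) (b := b) hb hb0 hbl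
  obtain ⟨g, hg⟩ : ∃ g, g = c00 * (Real.sqrt 3 / 4) := ⟨_, rfl⟩
  have hgp : 0 < g := by
    rw [hg]
    have : 0 < Real.sqrt 3 := Real.sqrt_pos.2 (by norm_num)
    positivity
  by_cases hcc : 0 < Real.cos a1 ∧ 0 < Real.cos b1
  swap
  · refine ⟨1, 1, one_pos, one_pos, fun m y0 K x w _ _ hU hV => absurd ?_ hcc⟩
    have hb0 : 0 ≤ b1 := (abs_nonneg _).trans hV
    have ha0 : 0 ≤ a1 := (abs_nonneg _).trans hU
    exact ⟨Real.cos_pos_of_mem_Ioo ⟨by linarith, ha⟩, Real.cos_pos_of_mem_Ioo ⟨by linarith, hb⟩⟩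
  obtain ⟨hca, hcb⟩ := hcc
  obtain ⟨q, hq⟩ : ∃ q, q = 6 / Real.cos b1 ^ 2 + 1 / Real.cos b1 ^ 3 := ⟨_, rfl⟩
  have hq0 : 0 < q := by rw [hq]; positivity
  refine ⟨8 * g * Real.cos a1, 24 * g * Real.cos a1 + C + 2 * g * q, by positivity, by positivity,
    fun m y0 K x w hx hw hU hV => ?_⟩
  obtain ⟨Λ, g4, g5, g6, h2⟩ := h m y0 K x w hx hw hV
  refine le_trans ?_ h2
  have h3 := re_main_far ha hb (U := aU w) (V := aV y0 w) (by rw [aU_im, aV_im]) hU hV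
  rw [aV_im] at h3
  have h4 := norm_sec3_le hb (V := aV y0 w) hV
  have h4' := (abs_le.1 ((Complex.abs_re_le_norm _).trans h4)).1
  obtain ⟨a0', a1'⟩ := am_mem hx.lo hx.hi
  have h5 : 0 ≤ Real.cos (3 * am y0) := Real.cos_nonneg_of_mem_Icc ⟨by linarith, by linarith⟩
  have h51 := Real.cos_le_one (3 * am y0)
  have hch := Real.cosh_pos (8 / 3 * w.im)
  have hK := hx.K0
  rw [← hg]
  have h7 : -(1 / Real.cos b1 ^ 3) ≤ Real.cos (3 * am y0) * (1 / cos (aV y0 w) ^ 3).re := by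
    have h8 : 0 ≤ 1 / Real.cos b1 ^ 3 := by positivity
    nlinarith
  have h6 : 8 * Real.cos a1 * Real.cosh (8 / 3 * w.im) - q ≤
      2 * (cos (aU w) * (4 - 3 / cos (aV y0 w) ^ 2)).re +
      Real.cos (3 * am y0) * (1 / cos (aV y0 w) ^ 3).re := by
    rw [hq]
    have e : 6 / Real.cos b1 ^ 2 = 2 * (3 / Real.cos b1 ^ 2) := by ring
    rw [e]
    linarith
  have hm : (0 : ℝ) ≤ m := Nat.cast_nonneg _
  have h9 : (8 * g * Real.cos a1 * m - 24 * g * Real.cos a1 * K) * Real.cosh (8 / 3 * w.im) - 2 * g * q * m ≤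
      Λ * g * (8 * Real.cos a1 * Real.cosh (8 / 3 * w.im) - q) := by
    have i1 : ((m : ℝ) - 3 * K) * (g * (8 * Real.cos a1 * Real.cosh (8 / 3 * w.im))) ≤
        Λ * (g * (8 * Real.cos a1 * Real.cosh (8 / 3 * w.im))) := by gcongr
    have i2 : Λ * (g * q) ≤ 2 * m * (g * q) := by gcongr
    linarith
  have h10 : Λ * g * (8 * Real.cos a1 * Real.cosh (8 / 3 * w.im) - q) ≤
      Λ * g * (2 * (cos (aU w) * (4 - 3 / cos (aV y0 w) ^ 2)).re +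
      Real.cos (3 * am y0) * (1 / cos (aV y0 w) ^ 3).re) := by gcongr
  have h11 : 0 ≤ 2 * g * q * K * Real.cosh (8 / 3 * w.im) := by positivity
  have h12 : 0 ≤ (24 * g * Real.cos a1 + C) * m := by positivity
  linarith

/-! ### holomorphy -/

theorem aU_diff (w : ℂ) : DifferentiableAt ℂ aU w := by
  unfold aU
  fun_prop

theorem aV_diff (y0 : ℝ) (w : ℂ) : DifferentiableAt ℂ (aV y0) w := by
  unfold aV
  fun_prop

theorem rM_diff {w : ℂ} (h : cos (aV y0 w) ≠ 0) : DifferentiableAt ℂ (rM y0) w := by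
  have h1 := aU_diff w
  have h2 := aV_diff y0 w
  unfold rM
  refine DifferentiableAt.const_mul ?_ _
  refine DifferentiableAt.fun_div (by fun_prop) (by fun_prop) ?_
  exact mul_ne_zero two_ne_zero (pow_ne_zero 3 h)

theorem rP_diff {w : ℂ} (h : cos (aV y0 w) ≠ 0) : DifferentiableAt ℂ (rP y0) w := by
  have h1 := aU_diff w
  have h2 := aV_diff y0 w
  unfold rP
  refine DifferentiableAt.fun_neg (DifferentiableAt.const_mul ?_ _)
  refine DifferentiableAt.fun_div (by fun_prop) (by fun_prop) ?_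
  exact mul_ne_zero two_ne_zero (pow_ne_zero 3 h)

theorem DT_diff {w : ℂ} (h : cos (aV y0 w) ≠ 0) : DifferentiableAt ℂ (DT y0) w := by
  have h1 := aU_diff w
  have h2 := aV_diff y0 w
  unfold DT
  refine DifferentiableAt.fun_div (by fun_prop) (by fun_prop) ?_
  exact pow_ne_zero 3 h

theorem RT_diff (hx : Hom y0 K x) {w : ℂ} (h : cos (aV y0 w) ≠ 0) (hw : |w.re| < l) :
    DifferentiableAt ℂ (RT y0 x) w := by
  have h0 : RT y0 x = fun w => nM y0 x * rM y0 w + nP y0 x * rP y0 w +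
      ∑ i ∈ eX y0 x, pc (w - x i) * DT y0 w := funext fun w => RT_split y0 x w
  rw [h0]
  refine DifferentiableAt.fun_add (DifferentiableAt.fun_add ((rM_diff h).const_mul _)
    ((rP_diff h).const_mul _)) (DifferentiableAt.fun_sum fun i hi => ?_)
  unfold eX at hi
  rw [Finset.mem_filter] at hi
  rcases hx.row i with h1 | h1 | h1
  · exact absurd h1 hi.2.1
  · exact absurd h1 hi.2.2
  · refine DifferentiableAt.fun_mul ?_ (DT_diff h)
    have h2 : DifferentiableAt ℂ pc (w - x i) := PBForce.pc_diff (by rw [sub_re, h1.1, sub_zero]; exact hw)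
    have h3 : DifferentiableAt ℂ (fun w : ℂ => w - x i) w := by fun_prop
    exact DifferentiableAt.comp w (g := pc) (f := fun w => w - x i) h2 h3

end PLT

end
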