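import Pool.Agent.PLT.FldT
import Pool.Agent.PB.ForceK

/-!
# PLAX-theta, field: the density times the divisor

File units, `w = u - l` (offset `- Re w / l`), `aU w = 8 w / 3`, `aV y0 w = 8 w / 3 + π y0 / 3 - π / 6`.
* `DT y0 w = cos (3 V) (4 cos² U - 1) / cos³ V`;
* `rrow y0 X w = pc (w - X) DT y0 w`, continued analytically for the rows `X = - y0 l` and `X = y1 l`
  (`y1 = 1 - y0`); `rrow_eq`;
* `pair_eq`: the balanced pair `sin b1 rM + sin b0 rP`.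
-/

set_option autoImplicit false

noncomputable section

namespace PLT

open Complex
open NUP1 (l)
open PBForce (pc)

/-- angle of a point -/
def aU (w : ℂ) : ℂ := 8 / 3 * w

/-- shift of the angle -/
def am (y0 : ℝ) : ℝ := Real.pi * y0 / 3 - Real.pi / 6

/-- shifted angle -/
def aV (y0 : ℝ) (w : ℂ) : ℂ := 8 / 3 * w + (am y0 : ℂ)

/-- **the divisor** -/
def DT (y0 : ℝ) (w : ℂ) : ℂ := cos (3 * aV y0 w) * (4 * cos (aU w) ^ 2 - 1) / cos (aV y0 w) ^ 3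

/-- constant of the density -/
def c00 : ℝ := 16 / (Real.sqrt 3 * Real.pi)

theorem c00_pos : 0 < c00 := by
  unfold c00
  have := Real.pi_pos
  have : 0 < Real.sqrt 3 := Real.sqrt_pos.2 (by norm_num)
  positivity

/-- row at `- y0 l`, continued -/
def rM (y0 : ℝ) (w : ℂ) : ℂ :=
  c00 * (sin (2 * aV y0 w + Real.pi / 3) * (4 * cos (aU w) ^ 2 - 1) / (2 * cos (aV y0 w) ^ 3))

/-- row at `y1 l`, continued -/
def rP (y0 : ℝ) (w : ℂ) : ℂ :=
  -(c00 * (sin (2 * aV y0 w - Real.pi / 3) * (4 * cos (aU w) ^ 2 - 1) / (2 * cos (aV y0 w) ^ 3)))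

open Classical in
/-- **row times divisor, continued** -/
def rrow (y0 : ℝ) (X w : ℂ) : ℂ :=
  if X = -((y0 * l : ℝ) : ℂ) then rM y0 w else if X = (((1 - y0) * l : ℝ) : ℂ) then rP y0 w
    else pc (w - X) * DT y0 w

theorem aU_im (w : ℂ) : (aU w).im = 8 / 3 * w.im := by
  unfold aU
  rw [show (8 / 3 : ℂ) = ((8 / 3 : ℝ) : ℂ) by push_cast; rfl, im_ofReal_mul]

theorem aU_re (w : ℂ) : (aU w).re = 8 / 3 * w.re := by
  unfold aU
  rw [show (8 / 3 : ℂ) = ((8 / 3 : ℝ) : ℂ) by push_cast; rfl, re_ofReal_mul]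

theorem aV_eq (y0 : ℝ) (w : ℂ) : aV y0 w = aU w + (am y0 : ℂ) := rfl

theorem aV_im (y0 : ℝ) (w : ℂ) : (aV y0 w).im = 8 / 3 * w.im := by
  rw [aV_eq, add_im, ofReal_im, add_zero, aU_im]

theorem aV_re (y0 : ℝ) (w : ℂ) : (aV y0 w).re = 8 / 3 * w.re + am y0 := by
  rw [aV_eq, add_re, ofReal_re, aU_re]

theorem cos3 (z : ℂ) : cos (3 * z) = 4 * cos z ^ 3 - 3 * cos z := Complex.cos_three_mul z

theorem sin_pi6 : sin ((Real.pi : ℂ) / 6) = 1 / 2 := by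
  have := Real.sin_pi_div_six
  have h : ((Real.sin (Real.pi / 6) : ℝ) : ℂ) = ((1 / 2 : ℝ) : ℂ) := by rw [this]
  push_cast at h
  exact h

theorem cos_pi6 : cos ((Real.pi : ℂ) / 6) = ((Real.sqrt 3 : ℝ) : ℂ) / 2 := by
  have := Real.cos_pi_div_six
  have h : ((Real.cos (Real.pi / 6) : ℝ) : ℂ) = ((Real.sqrt 3 / 2 : ℝ) : ℂ) := by rw [this]
  push_cast at h
  exact h

theorem sin_pi3 : sin ((Real.pi : ℂ) / 3) = ((Real.sqrt 3 : ℝ) : ℂ) / 2 := by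
  have := Real.sin_pi_div_three
  have h : ((Real.sin (Real.pi / 3) : ℝ) : ℂ) = ((Real.sqrt 3 / 2 : ℝ) : ℂ) := by rw [this]
  push_cast at h
  exact h

theorem cos_pi3 : cos ((Real.pi : ℂ) / 3) = 1 / 2 := by
  have := Real.cos_pi_div_three
  have h : ((Real.cos (Real.pi / 3) : ℝ) : ℂ) = ((1 / 2 : ℝ) : ℂ) := by rw [this]
  push_cast at h
  exact h

/-- `sin θ (4 cos² θ - 1) = sin 3θ` at `θ = V + π / 6` -/
theorem key_M (V : ℂ) : sin (V + Real.pi / 6) * (4 * cos (V + Real.pi / 6) ^ 2 - 1) = cos (3 * V) := by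
  have h1 : sin (3 * (V + Real.pi / 6)) = cos (3 * V) := by
    rw [show 3 * (V + (Real.pi : ℂ) / 6) = 3 * V + Real.pi / 2 by ring, Complex.sin_add_pi_div_two]
  have h2 : sin (3 * (V + (Real.pi : ℂ) / 6)) = 3 * sin (V + Real.pi / 6) - 4 * sin (V + Real.pi / 6) ^ 3 :=
    Complex.sin_three_mul _
  have h3 := Complex.sin_sq_add_cos_sq (V + (Real.pi : ℂ) / 6)
  rw [← h1, h2]
  linear_combination (4 * sin (V + (Real.pi : ℂ) / 6)) * h3

theorem key_P (V : ℂ) : sin (V - Real.pi / 6) * (4 * cos (V - Real.pi / 6) ^ 2 - 1) = -cos (3 * V) := by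
  have h1 : sin (3 * (V - (Real.pi : ℂ) / 6)) = -cos (3 * V) := by
    rw [show 3 * (V - (Real.pi : ℂ) / 6) = 3 * V - Real.pi / 2 by ring, Complex.sin_sub_pi_div_two]
  have h2 : sin (3 * (V - (Real.pi : ℂ) / 6)) = 3 * sin (V - Real.pi / 6) - 4 * sin (V - Real.pi / 6) ^ 3 :=
    Complex.sin_three_mul _
  have h3 := Complex.sin_sq_add_cos_sq (V - (Real.pi : ℂ) / 6)
  rw [← h1, h2]
  linear_combination (4 * sin (V - (Real.pi : ℂ) / 6)) * h3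

theorem pc_eq (z : ℂ) : pc z = c00 * (cos (8 / 3 * z) / (4 * cos (8 / 3 * z) ^ 2 - 1)) := by
  unfold pc c00
  push_cast
  rfl

theorem ang_M (y0 : ℝ) (w : ℂ) : 8 / 3 * (w - -((y0 * l : ℝ) : ℂ)) = aV y0 w + Real.pi / 6 := by
  unfold aV am l
  push_cast
  ring

theorem ang_P (y0 : ℝ) (w : ℂ) : 8 / 3 * (w - (((1 - y0) * l : ℝ) : ℂ)) = aV y0 w - Real.pi / 6 := by
  unfold aV am l
  push_cast
  ring

/-- **the continuation agrees off the poles** -/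
theorem rrow_eq {y0 : ℝ} {X w : ℂ} (h : (X = -((y0 * l : ℝ) : ℂ) ∨ X = (((1 - y0) * l : ℝ) : ℂ)) →
    cos (3 * aV y0 w) ≠ 0) : rrow y0 X w = pc (w - X) * DT y0 w := by
  unfold rrow
  split_ifs with h1 h2
  · have h3 := h (Or.inl h1)
    rw [h1, pc_eq, ang_M]
    unfold rM DT
    have hk := key_M (aV y0 w)
    obtain ⟨θ, hθ⟩ : ∃ θ : ℂ, θ = aV y0 w + Real.pi / 6 := ⟨_, rfl⟩
    have h2θ : 2 * aV y0 w + Real.pi / 3 = 2 * θ := by rw [hθ]; ring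
    rw [h2θ, sin_two_mul, ← hθ]
    rw [← hθ] at hk
    rw [← hk] at h3 ⊢
    obtain ⟨-, h4⟩ := mul_ne_zero_iff.1 h3
    generalize 4 * cos θ ^ 2 - 1 = q at *
    field_simp
  · have h3 := h (Or.inr h2)
    rw [h2, pc_eq, ang_P]
    unfold rP DT
    have hk := key_P (aV y0 w)
    obtain ⟨θ, hθ⟩ : ∃ θ : ℂ, θ = aV y0 w - Real.pi / 6 := ⟨_, rfl⟩
    have h2θ : 2 * aV y0 w - Real.pi / 3 = 2 * θ := by rw [hθ]; ring
    rw [h2θ, sin_two_mul, ← hθ]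
    rw [← hθ] at hk
    have hk' : cos (3 * aV y0 w) = -(sin θ * (4 * cos θ ^ 2 - 1)) := by rw [hk, neg_neg]
    rw [hk'] at h3 ⊢
    obtain ⟨-, h4⟩ := mul_ne_zero_iff.1 (neg_ne_zero.1 h3)
    generalize 4 * cos θ ^ 2 - 1 = q at *
    field_simp
  · rfl

/-- the balanced combination of the numerators -/
theorem pair_num (m : ℝ) (V : ℂ) :
    ((Real.sin (Real.pi / 6 - m) : ℝ) : ℂ) * sin (2 * V + Real.pi / 3) -
      ((Real.sin (Real.pi / 6 + m) : ℝ) : ℂ) * sin (2 * V - Real.pi / 3) =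
    ((Real.sqrt 3 : ℝ) : ℂ) / 2 * cos (2 * V + m) := by
  push_cast
  rw [sin_sub (Real.pi / 6 : ℂ) m, sin_add (Real.pi / 6 : ℂ) m, sin_add (2 * V), sin_sub (2 * V), cos_add (2 * V),
    sin_pi6, cos_pi6, sin_pi3, cos_pi3]
  ring

/-- product formula -/
theorem prod_num (m : ℝ) (U V : ℂ) (h : V = U + m) : cos (2 * V + m) * (4 * cos U ^ 2 - 1) =
    2 * cos U * cos (3 * V) + ((Real.cos (3 * m) : ℝ) : ℂ) := by
  have e1 : 2 * V + m = (3 * V - U) := by rw [h]; ring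
  have e2 : (3 * m : ℂ) = 3 * V - 3 * U := by rw [h]; ring
  push_cast
  rw [e2, e1, cos_sub, cos_sub, cos3 U, Complex.sin_three_mul U]
  have h1 := Complex.sin_sq_add_cos_sq U
  linear_combination (4 * sin (3 * V) * sin U) * h1

/-- **the balanced pair** -/
theorem pair_eq (y0 : ℝ) (w : ℂ) (h0 : cos (aV y0 w) ≠ 0) :
    ((Real.sin (Real.pi / 6 - am y0) : ℝ) : ℂ) * rM y0 w + ((Real.sin (Real.pi / 6 + am y0) : ℝ) : ℂ) * rP y0 w =
      ((c00 * (Real.sqrt 3 / 4) : ℝ) : ℂ) * (2 * (cos (aU w) * (4 - 3 / cos (aV y0 w) ^ 2)) +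
        ((Real.cos (3 * am y0) : ℝ) : ℂ) * (1 / cos (aV y0 w) ^ 3)) := by
  have h1 := pair_num (am y0) (aV y0 w)
  have h2 := prod_num (am y0) (aU w) (aV y0 w) rfl
  have h3 : 4 - 3 / cos (aV y0 w) ^ 2 = cos (3 * aV y0 w) / cos (aV y0 w) ^ 3 := by
    rw [cos3]
    field_simp
  have e : ((Real.sin (Real.pi / 6 - am y0) : ℝ) : ℂ) * rM y0 w +
      ((Real.sin (Real.pi / 6 + am y0) : ℝ) : ℂ) * rP y0 w =
      c00 * ((((Real.sin (Real.pi / 6 - am y0) : ℝ) : ℂ) * sin (2 * aV y0 w + Real.pi / 3) -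
        ((Real.sin (Real.pi / 6 + am y0) : ℝ) : ℂ) * sin (2 * aV y0 w - Real.pi / 3)) *
          (4 * cos (aU w) ^ 2 - 1) / (2 * cos (aV y0 w) ^ 3)) := by
    unfold rM rP
    ring
  rw [e, h1, mul_assoc, h2, h3]
  push_cast
  field_simp
  ring

end PLT

end
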