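import Mathlib

/-!
# PLAX-theta, field: trigonometric estimates

`U = -a + i τ`, `V = -b + i τ` complex.
* `re_main` : `Re (cos U (4 - 3 / cos² V)) ≥ c cosh τ` for `|a| ≤ a₀ < π / 3`, `|b| ≤ b₀ < π / 6`;
* `re_sec3` : `Re (1 / cos³ V) ≥ 0` for `|b| ≤ π / 6`;
* upper bounds on wider strips.
-/

set_option autoImplicit false

noncomputable section

namespace PLT

open Complex

theorem cos_re' (z : ℂ) : (cos z).re = Real.cos z.re * Real.cosh z.im := by
  have e : cos z = ((Real.cos z.re * Real.cosh z.im : ℝ) : ℂ) +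
      ((-(Real.sin z.re * Real.sinh z.im) : ℝ) : ℂ) * I := by
    conv_lhs => rw [← Complex.re_add_im z]
    rw [cos_add_mul_I]
    push_cast
    ring
  rw [e, add_re, ofReal_re, re_ofReal_mul, I_re, mul_zero, add_zero]

theorem cos_im' (z : ℂ) : (cos z).im = -(Real.sin z.re * Real.sinh z.im) := by
  have e : cos z = ((Real.cos z.re * Real.cosh z.im : ℝ) : ℂ) +
      ((-(Real.sin z.re * Real.sinh z.im) : ℝ) : ℂ) * I := by
    conv_lhs => rw [← Complex.re_add_im z]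
    rw [cos_add_mul_I]
    push_cast
    ring
  rw [e, add_im, ofReal_im, im_ofReal_mul, I_im, mul_one, zero_add]

theorem norm_cos_sq (z : ℂ) : ‖cos z‖ ^ 2 = Real.cos z.re ^ 2 + Real.sinh z.im ^ 2 := by
  rw [Complex.sq_norm, Complex.normSq_apply, cos_re', cos_im']
  have h1 := Real.cosh_sq z.im
  have h2 := Real.sin_sq_add_cos_sq z.re
  have h3 : Real.sin z.re ^ 2 = 1 - Real.cos z.re ^ 2 := by linarith
  calc Real.cos z.re * Real.cosh z.im * (Real.cos z.re * Real.cosh z.im) +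
        -(Real.sin z.re * Real.sinh z.im) * -(Real.sin z.re * Real.sinh z.im) =
      Real.cos z.re ^ 2 * Real.cosh z.im ^ 2 + Real.sin z.re ^ 2 * Real.sinh z.im ^ 2 := by ring
    _ = _ := by rw [h1, h3]; ring

theorem norm_cos_le (z : ℂ) : ‖cos z‖ ≤ Real.cosh z.im := by
  have h := norm_cos_sq z
  have h1 := Real.cosh_sq z.im
  have h2 := Real.cos_sq_le_one z.re
  have h3 := Real.cosh_pos z.im
  refine abs_le_of_sq_le_sq' ?_ h3.le |>.2
  nlinarith

/-- lower bound of the cosine -/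
theorem le_norm_cos {z : ℂ} {b : ℝ} (hb : b < Real.pi / 2) (h : |z.re| ≤ b) :
    Real.cos b * Real.cosh z.im ≤ ‖cos z‖ := by
  have hb0 : 0 ≤ b := (abs_nonneg _).trans h
  have hc : Real.cos b ≤ Real.cos z.re := by
    rw [← Real.cos_abs z.re]
    exact Real.cos_le_cos_of_nonneg_of_le_pi (abs_nonneg _) (by linarith [Real.pi_pos]) h
  refine le_trans ?_ (Complex.re_le_norm _)
  rw [cos_re']
  have := Real.cosh_pos z.im
  gcongr

theorem cos_ne {z : ℂ} (h : |z.re| < Real.pi / 2) : cos z ≠ 0 := by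
  rw [← norm_pos_iff]
  refine lt_of_lt_of_le ?_ (le_norm_cos h le_rfl)
  have h1 := Real.cosh_pos z.im
  have h2 : 0 < Real.cos |z.re| := Real.cos_pos_of_mem_Ioo ⟨by linarith [abs_nonneg z.re, Real.pi_pos], h⟩
  positivity

/-- the exact real part -/
theorem re_eq (U V : ℂ) (hi : U.im = V.im) (h0 : cos V ≠ 0) :
    (cos U * (4 - 3 / cos V ^ 2)).re * normSq (1 + cos (2 * V)) =
      2 * Real.cosh V.im * (Real.cos U.re * ((2 * Real.cos (2 * V.re) - 1) * (Real.cos (2 * V.re) + 1) +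
        8 * Real.sinh V.im ^ 2 * (1 + Real.sinh V.im ^ 2) + 2 * Real.cos (2 * V.re) * Real.sinh V.im ^ 2) -
        6 * Real.sin U.re * Real.sin (2 * V.re) * Real.sinh V.im ^ 2) := by
  obtain ⟨ζ, hζ⟩ : ∃ ζ, ζ = cos (2 * V) := ⟨_, rfl⟩
  have h1 : 2 * cos V ^ 2 = 1 + ζ := by rw [hζ, cos_two_mul]; ring
  have h2 : 1 + ζ ≠ 0 := by rw [← h1]; exact mul_ne_zero two_ne_zero (pow_ne_zero 2 h0)
  have h3 : cos U * (4 - 3 / cos V ^ 2) = cos U * ((4 * ζ - 2) / (1 + ζ)) := by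
    rw [← h1]
    field_simp
    rw [hζ, cos_two_mul]
    ring
  have r2 : (2 * V).re = 2 * V.re := by simp
  have i2 : (2 * V).im = 2 * V.im := by simp
  have hX : ζ.re = Real.cos (2 * V.re) * Real.cosh (2 * V.im) := by rw [hζ, cos_re', r2, i2]
  have hY : ζ.im = -(Real.sin (2 * V.re) * Real.sinh (2 * V.im)) := by rw [hζ, cos_im', r2, i2]
  obtain ⟨X, hX'⟩ : ∃ X, X = ζ.re := ⟨_, rfl⟩
  obtain ⟨Y, hY'⟩ : ∃ Y, Y = ζ.im := ⟨_, rfl⟩
  have hn : normSq (1 + ζ) = (1 + X) ^ 2 + Y ^ 2 := by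
    rw [normSq_apply, add_re, add_im, one_re, one_im, ← hX', ← hY']
    ring
  have hn0 : (1 + X) ^ 2 + Y ^ 2 ≠ 0 := by
    rw [← hn]
    exact (normSq_pos.2 h2).ne'
  have hq : ((4 * ζ - 2) / (1 + ζ)).re * ((1 + X) ^ 2 + Y ^ 2) = 2 * X + 4 * (X ^ 2 + Y ^ 2) - 2 ∧
      ((4 * ζ - 2) / (1 + ζ)).im * ((1 + X) ^ 2 + Y ^ 2) = 6 * Y := by
    constructor
    · rw [div_re, hn]
      simp only [sub_re, mul_re, sub_im, mul_im, add_re, add_im, one_re, one_im, ← hX', ← hY']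
      simp
      field_simp
      ring
    · rw [div_im, hn]
      simp only [sub_re, mul_re, sub_im, mul_im, add_re, add_im, one_re, one_im, ← hX', ← hY']
      simp
      field_simp
      ring
  rw [← hX'] at hX
  rw [← hY'] at hY
  rw [← hζ, hn, h3, mul_re, sub_mul, mul_assoc, mul_assoc, hq.1, hq.2, cos_re', cos_im', hi]
  have c2 : Real.cosh (2 * V.im) = 1 + 2 * Real.sinh V.im ^ 2 := by
    rw [Real.cosh_two_mul, Real.cosh_sq]
    ring
  have s2 : Real.sinh (2 * V.im) = 2 * Real.sinh V.im * Real.cosh V.im := Real.sinh_two_mul _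
  have s22 : Real.sin (2 * V.re) ^ 2 = 1 - Real.cos (2 * V.re) ^ 2 := by
    have := Real.sin_sq_add_cos_sq (2 * V.re)
    linarith
  have hc := Real.cosh_sq V.im
  rw [c2] at hX
  rw [s2] at hY
  generalize Real.cosh V.im = ch at *
  generalize Real.sinh V.im = sh at *
  generalize Real.cos (2 * V.re) = k at *
  generalize Real.sin (2 * V.re) = m at *
  generalize Real.cos U.re = p at *
  generalize Real.sin U.re = q at *
  rw [hX, hY]
  linear_combination (16 * p * ch * m ^ 2 * sh ^ 2) * hc + (16 * p * ch * sh ^ 2 * (1 + sh ^ 2)) * s22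

/-- **the main lower bound** -/
theorem re_main {a0 b0 : ℝ} (ha : a0 < Real.pi / 3) (hb : b0 < Real.pi / 6) : ∃ c : ℝ, 0 < c ∧
    ∀ U V : ℂ, U.im = V.im → |U.re| ≤ a0 → |V.re| ≤ b0 →
      c * Real.cosh V.im ≤ (cos U * (4 - 3 / cos V ^ 2)).re := by
  have hpi := Real.pi_pos
  by_cases ha' : a0 < 0
  · exact ⟨1, one_pos, fun U V _ h _ => absurd ((abs_nonneg _).trans h) (not_le.2 ha')⟩
  by_cases hb' : b0 < 0
  · exact ⟨1, one_pos, fun U V _ _ h => absurd ((abs_nonneg _).trans h) (not_le.2 hb')⟩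
  rw [not_lt] at ha' hb'
  obtain ⟨p0, hp0⟩ : ∃ p0, p0 = Real.cos a0 := ⟨_, rfl⟩
  obtain ⟨k0, hk0⟩ : ∃ k0, k0 = Real.cos (2 * b0) := ⟨_, rfl⟩
  have hp : 1 / 2 < p0 := by
    rw [hp0, ← Real.cos_pi_div_three]
    exact Real.cos_lt_cos_of_nonneg_of_le_pi ha' (by linarith) ha
  have hk : 1 / 2 < k0 := by
    rw [hk0, ← Real.cos_pi_div_three]
    exact Real.cos_lt_cos_of_nonneg_of_le_pi (by linarith) (by linarith) (by linarith)
  obtain ⟨c1, hc1⟩ : ∃ c1, c1 = min ((2 * k0 - 1) / 2) 4 := ⟨_, rfl⟩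
  have hc1p : 0 < c1 := by
    rw [hc1]
    exact lt_min (by linarith) (by norm_num)
  have hc1a : c1 ≤ (2 * k0 - 1) / 2 := by rw [hc1]; exact min_le_left _ _
  have hc1b : c1 ≤ 4 := by rw [hc1]; exact min_le_right _ _
  refine ⟨c1 / 4, by positivity, fun U V hi hU hV => ?_⟩
  have hVn : cos V ≠ 0 := cos_ne (by linarith)
  have key := re_eq U V hi hVn
  have h2n : 1 + cos (2 * V) ≠ 0 := by
    have : 1 + cos (2 * V) = 2 * cos V ^ 2 := by rw [cos_two_mul]; ring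
    rw [this]
    exact mul_ne_zero two_ne_zero (pow_ne_zero 2 hVn)
  have hnp : 0 < normSq (1 + cos (2 * V)) := normSq_pos.2 h2n
  obtain ⟨s, hs⟩ : ∃ s, s = Real.sinh V.im ^ 2 := ⟨_, rfl⟩
  have hs0 : 0 ≤ s := by rw [hs]; positivity
  have hup : normSq (1 + cos (2 * V)) ≤ 4 * (1 + s) ^ 2 := by
    have h1 : ‖1 + cos (2 * V)‖ ≤ 2 * (1 + s) := by
      refine (norm_add_le _ _).trans ?_
      have h2 := norm_cos_le (2 * V)
      have i2 : (2 * V).im = 2 * V.im := by simp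
      rw [i2, Real.cosh_two_mul, Real.cosh_sq, ← hs] at h2
      rw [norm_one]
      linarith
    rw [Complex.normSq_eq_norm_sq]
    have h0 := norm_nonneg (1 + cos (2 * V))
    nlinarith
  have hp1 : p0 ≤ Real.cos U.re := by
    rw [hp0, ← Real.cos_abs U.re]
    exact Real.cos_le_cos_of_nonneg_of_le_pi (abs_nonneg _) (by linarith) hU
  have hk1 : k0 ≤ Real.cos (2 * V.re) := by
    rw [hk0, ← Real.cos_abs (2 * V.re)]
    refine Real.cos_le_cos_of_nonneg_of_le_pi (abs_nonneg _) (by linarith) ?_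
    rw [abs_mul, abs_of_pos (by norm_num : (0 : ℝ) < 2)]
    linarith
  have hqm : 6 * Real.sin U.re * Real.sin (2 * V.re) ≤ 9 / 2 := by
    have h1 := Real.sin_sq_add_cos_sq U.re
    have h2 := Real.sin_sq_add_cos_sq (2 * V.re)
    nlinarith [sq_nonneg (Real.sin U.re - Real.sin (2 * V.re)),
      sq_nonneg (Real.sin U.re + Real.sin (2 * V.re))]
  rw [← hs] at key
  have hch := Real.cosh_pos V.im
  generalize (cos U * (4 - 3 / cos V ^ 2)).re = X at *
  generalize normSq (1 + cos (2 * V)) = n at *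
  generalize Real.cosh V.im = ch at *
  generalize Real.cos U.re = p at *
  generalize Real.cos (2 * V.re) = k at *
  have hbr : c1 * (1 + s ^ 2) ≤ p * ((2 * k - 1) * (k + 1) + 8 * s * (1 + s) + 2 * k * s) -
      6 * Real.sin U.re * Real.sin (2 * V.re) * s := by
    have e1 : 6 * Real.sin U.re * Real.sin (2 * V.re) * s ≤ 9 / 2 * s := by gcongr
    have hp2 : 1 / 2 < p := by linarith
    have hk2 : 1 / 2 < k := by linarith
    have e2 : (2 * k0 - 1) ≤ (2 * k - 1) * (k + 1) := by nlinarith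
    have e3 : (2 * k0 - 1) / 2 ≤ p * ((2 * k - 1) * (k + 1)) := by nlinarith
    have e4 : 9 / 2 * s + 4 * s ^ 2 ≤ p * (8 * s * (1 + s) + 2 * k * s) := by
      have e5 : 9 * s + 8 * s ^ 2 ≤ 8 * s * (1 + s) + 2 * k * s := by nlinarith
      have e6 : 0 ≤ 9 * s + 8 * s ^ 2 := by positivity
      nlinarith
    have e7 : c1 * s ^ 2 ≤ 4 * s ^ 2 := by gcongr
    nlinarith
  have h1 : c1 / 4 * ch * n ≤ X * n := by
    rw [key]
    have e8 : (1 + s) ^ 2 ≤ 2 * (1 + s ^ 2) := by nlinarith [sq_nonneg (1 - s)]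
    calc c1 / 4 * ch * n ≤ c1 / 4 * ch * (4 * (1 + s) ^ 2) := by gcongr
      _ = ch * (c1 * (1 + s) ^ 2) := by ring
      _ ≤ ch * (c1 * (2 * (1 + s ^ 2))) := by gcongr
      _ = 2 * ch * (c1 * (1 + s ^ 2)) := by ring
      _ ≤ _ := by gcongr
  exact le_of_mul_le_mul_right h1 hnp

/-- the cube of the secant -/
theorem re_sec3 {V : ℂ} (hV : |V.re| ≤ Real.pi / 6) : 0 ≤ (1 / cos V ^ 3).re := by
  have hpi := Real.pi_pos
  have hx : (cos V ^ 3).re = (cos V).re * ((cos V).re ^ 2 - 3 * (cos V).im ^ 2) := by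
    rw [pow_succ, pow_two]
    simp only [mul_re, mul_im]
    ring
  have h1 : 0 ≤ (cos V ^ 3).re := by
    rw [hx, cos_re', cos_im']
    have hc : Real.sqrt 3 / 2 ≤ Real.cos V.re := by
      rw [← Real.cos_pi_div_six, ← Real.cos_abs V.re]
      exact Real.cos_le_cos_of_nonneg_of_le_pi (abs_nonneg _) (by linarith) hV
    have h3 : Real.sqrt 3 ^ 2 = 3 := Real.sq_sqrt (by norm_num)
    have h30 := Real.sqrt_nonneg 3
    have hc2 : 3 / 4 ≤ Real.cos V.re ^ 2 := by nlinarith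
    have hs := Real.sin_sq_add_cos_sq V.re
    have hch := Real.cosh_sq V.im
    have hcp := Real.cosh_pos V.im
    have hc0 : 0 ≤ Real.cos V.re := by linarith [div_nonneg h30 (by norm_num : (0 : ℝ) ≤ 2)]
    refine mul_nonneg (mul_nonneg hc0 hcp.le) ?_
    rw [mul_pow, neg_sq, mul_pow, hch]
    have hs2 : Real.sin V.re ^ 2 ≤ 1 / 4 := by linarith
    have hsh := sq_nonneg (Real.sinh V.im)
    nlinarith
  rw [one_div, inv_re]
  exact div_nonneg h1 (normSq_nonneg _)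

/-- the second factor, upper bound -/
theorem norm_main_le {b1 : ℝ} (hb : b1 < Real.pi / 2) {U V : ℂ} (hi : U.im = V.im) (hV : |V.re| ≤ b1) :
    ‖cos U * (4 - 3 / cos V ^ 2)‖ ≤ (4 + 3 / Real.cos b1 ^ 2) * Real.cosh V.im := by
  have hpi := Real.pi_pos
  have hb0 : 0 ≤ b1 := (abs_nonneg _).trans hV
  have hc : 0 < Real.cos b1 := Real.cos_pos_of_mem_Ioo ⟨by linarith, hb⟩
  have h1 := le_norm_cos hb hV
  have h2 := norm_cos_le U
  have hch := Real.one_le_cosh V.im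
  rw [hi] at h2
  have h3 : Real.cos b1 ≤ ‖cos V‖ := by
    refine le_trans ?_ h1
    nlinarith
  have h4 : ‖4 - 3 / cos V ^ 2‖ ≤ 4 + 3 / Real.cos b1 ^ 2 := by
    refine (norm_sub_le _ _).trans ?_
    rw [norm_div, norm_pow]
    simp only [Complex.norm_ofNat]
    gcongr
  rw [norm_mul, mul_comm]
  gcongr

/-- the cube of the secant, upper bound -/
theorem norm_sec3_le {b1 : ℝ} (hb : b1 < Real.pi / 2) {V : ℂ} (hV : |V.re| ≤ b1) :
    ‖1 / cos V ^ 3‖ ≤ 1 / Real.cos b1 ^ 3 := by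
  have hpi := Real.pi_pos
  have hb0 : 0 ≤ b1 := (abs_nonneg _).trans hV
  have hc : 0 < Real.cos b1 := Real.cos_pos_of_mem_Ioo ⟨by linarith, hb⟩
  have h1 := le_norm_cos hb hV
  have hch := Real.one_le_cosh V.im
  have h3 : Real.cos b1 ≤ ‖cos V‖ := by
    refine le_trans ?_ h1
    nlinarith
  rw [norm_div, norm_pow, norm_one]
  gcongr

/-- far lower bound -/
theorem re_main_far {a1 b1 : ℝ} (ha : a1 < Real.pi / 2) (hb : b1 < Real.pi / 2) {U V : ℂ}
    (hi : U.im = V.im) (hU : |U.re| ≤ a1) (hV : |V.re| ≤ b1) :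
    4 * Real.cos a1 * Real.cosh V.im - 3 / Real.cos b1 ^ 2 ≤ (cos U * (4 - 3 / cos V ^ 2)).re := by
  have hpi := Real.pi_pos
  have hb0 : 0 ≤ b1 := (abs_nonneg _).trans hV
  have hc : 0 < Real.cos b1 := Real.cos_pos_of_mem_Ioo ⟨by linarith, hb⟩
  have h1 := le_norm_cos hb hV
  have h2 := norm_cos_le U
  have hch := Real.cosh_pos V.im
  have hch1 := Real.one_le_cosh V.im
  rw [hi] at h2
  have hca : Real.cos a1 ≤ Real.cos U.re := by
    rw [← Real.cos_abs U.re]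
    exact Real.cos_le_cos_of_nonneg_of_le_pi (abs_nonneg _) (by linarith) hU
  have h3 : (cos U).re = Real.cos U.re * Real.cosh V.im := by rw [cos_re', hi]
  have h4 : ‖3 * cos U / cos V ^ 2‖ ≤ 3 / Real.cos b1 ^ 2 := by
    rw [norm_div, norm_mul, norm_pow]
    simp only [Complex.norm_ofNat]
    have h5 : (Real.cos b1 * Real.cosh V.im) ^ 2 ≤ ‖cos V‖ ^ 2 := by gcongr
    have h6 : 0 < (Real.cos b1 * Real.cosh V.im) ^ 2 := by positivity
    calc 3 * ‖cos U‖ / ‖cos V‖ ^ 2 ≤ 3 * Real.cosh V.im / (Real.cos b1 * Real.cosh V.im) ^ 2 := by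
          gcongr
      _ = 3 / Real.cos b1 ^ 2 * (1 / Real.cosh V.im) := by field_simp
      _ ≤ 3 / Real.cos b1 ^ 2 * 1 := by
          gcongr
          rw [div_le_one hch]
          exact hch1
      _ = _ := mul_one _
  have e : cos U * (4 - 3 / cos V ^ 2) = 4 * cos U - 3 * cos U / cos V ^ 2 := by ring
  have e4 : (4 * cos U).re = 4 * (cos U).re := by
    rw [show (4 : ℂ) = ((4 : ℝ) : ℂ) by push_cast; rfl, re_ofReal_mul]
  rw [e, sub_re, e4, h3]
  have h7 := (Complex.re_le_norm (3 * cos U / cos V ^ 2)).trans h4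
  have h8 : Real.cos a1 * Real.cosh V.im ≤ Real.cos U.re * Real.cosh V.im := by gcongr
  linarith

end PLT

end
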