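import Pool.Agent.PLT.PtTh

/-!
# Cosine forms uniform in the offset of a quantum, and Fubini (helper38)

`sn x t = log |sin (x l + i t)|`.  `UC f N m S ε B`: the kernels `f v`, `v ∈ S`, have the growth charge `N` and the
transforms `m v k / (k sinh (π k / 2))`, with the bound `B exp (-ε l k) (1 + t²)` of the integrand.

* `bd_sn`: the bound of one sine; `UC.add`, `UC.smul`, `UC.list`; `sn_UC`;
* **`UC.fub`**: `∫ w f (v, τ) dμ` as an integral over `k > 0`.
-/

set_option autoImplicit false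

noncomputable section

open MeasureTheory Set

namespace PLT

open PHK NUP1 NUO NUDispO Pool.Agent.NUM3
open NUMF (sk sk_pos)

/-! ### one sine -/

/-- constant of the bound -/
def B0 : ℝ := 4 * l + 4 + 1 / (4 * l)

lemma l_pos8 : 0 < l := by unfold l; positivity

lemma B0_pos : 0 < B0 := by
  have := l_pos8
  unfold B0
  positivity

lemma cosh_sub_one_le {x : ℝ} (hx : 0 ≤ x) : Real.cosh x - 1 ≤ x * Real.sinh x := by
  have h1 : Real.exp x * Real.exp (-x) = 1 := by rw [← Real.exp_add]; simp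
  have h2 := Real.add_one_le_exp (-x)
  have h3 : Real.exp (-x) ≤ 1 := Real.exp_le_one_iff.2 (by linarith)
  have h4 : 1 ≤ Real.exp x := Real.one_le_exp hx
  rw [Real.cosh_eq, Real.sinh_eq]
  nlinarith [mul_nonneg (sub_nonneg.2 h4) (sub_nonneg.2 h2), mul_nonneg hx (sub_nonneg.2 h3)]

lemma sinh_le_exp {ε z : ℝ} (hε : 0 ≤ ε) (hz : 0 ≤ z) :
    Real.sinh ((4 - ε) * z) ≤ Real.exp (-(ε * z)) * Real.sinh (4 * z) := by
  have h1 : Real.exp ((4 - ε) * z) = Real.exp (-(ε * z)) * Real.exp (4 * z) := by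
    rw [← Real.exp_add]; congr 1; ring
  have h2 : Real.exp (-(ε * z)) * Real.exp (-(4 * z)) ≤ Real.exp (-((4 - ε) * z)) := by
    rw [← Real.exp_add]
    refine Real.exp_le_exp.2 ?_
    nlinarith [mul_nonneg hε hz]
  rw [Real.sinh_eq, Real.sinh_eq, h1]
  linarith

lemma cosh_le_exp' {ε z : ℝ} (hε : ε ≤ 4) (hz : 0 ≤ z) :
    Real.cosh ((4 - ε) * z) ≤ Real.exp (-(ε * z)) * Real.exp (4 * z) := by
  have h1 : Real.exp ((4 - ε) * z) = Real.exp (-(ε * z)) * Real.exp (4 * z) := by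
    rw [← Real.exp_add]; congr 1; ring
  have h2 : Real.exp (-((4 - ε) * z)) ≤ Real.exp ((4 - ε) * z) := by
    refine Real.exp_le_exp.2 ?_
    nlinarith [mul_nonneg (sub_nonneg.2 hε) hz]
  rw [Real.cosh_eq]
  linarith

lemma exp_le_sinh {z : ℝ} (hz : 0 < z) : Real.exp (4 * z) ≤ (2 + 1 / (4 * z)) * Real.sinh (4 * z) := by
  have h1 : Real.exp (4 * z) * Real.exp (-(4 * z)) = 1 := by rw [← Real.exp_add]; simp
  have h2 := Real.add_one_le_exp (8 * z)
  have h3 : Real.exp (8 * z) * Real.exp (-(4 * z)) = Real.exp (4 * z) := by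
    rw [← Real.exp_add]; congr 1; ring
  have h4 := Real.exp_pos (-(4 * z))
  have h5 : 0 < 4 * z := by positivity
  rw [Real.sinh_eq]
  have h6 : (8 * z + 1) * Real.exp (-(4 * z)) ≤ Real.exp (4 * z) := by
    rw [← h3]
    exact mul_le_mul_of_nonneg_right h2 h4.le
  have e : (2 + 1 / (4 * z)) * ((Real.exp (4 * z) - Real.exp (-(4 * z))) / 2) =
      ((8 * z + 1) * Real.exp (4 * z) - (8 * z + 1) * Real.exp (-(4 * z))) / (8 * z) := by
    field_simp
    ring
  rw [e, le_div_iff₀ (by positivity)]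
  nlinarith [Real.exp_pos (4 * z)]

lemma one_sub_cos_le (k t : ℝ) : 1 - Real.cos (k * t) ≤ (1 + t ^ 2) * min 2 (k ^ 2) := by
  have h1 : 1 - Real.cos (k * t) ≤ 2 := by linarith [Real.neg_one_le_cos (k * t)]
  have h2 : 1 - Real.cos (k * t) ≤ (k * t) ^ 2 / 2 := by
    have := Real.one_sub_sq_div_two_le_cos (x := k * t)
    linarith
  have h3 := sq_nonneg t
  have h4 := sq_nonneg k
  rcases le_total (2 : ℝ) (k ^ 2) with h | h
  · rw [min_eq_left h]
    nlinarith
  · rw [min_eq_right h]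
    nlinarith [mul_nonneg h3 h4]

/-- **the bound of one sine** -/
theorem bd_sn {ε c k t : ℝ} (hε : 0 ≤ ε) (hε4 : ε ≤ 4) (hc : |c| ≤ 4 - ε) (hk : 0 < k) :
    |1 / (k * sk k) - Real.cosh (c * (l * k)) / (k * sk k) * Real.cos (k * t)| ≤
      B0 * Real.exp (-(ε * (l * k))) * (1 + t ^ 2) := by
  have hl := l_pos8
  set z : ℝ := l * k with hz
  have hz0 : 0 < z := by positivity
  have hsk : sk k = Real.sinh (4 * z) := sk_eq6 k
  have hs : 0 < Real.sinh (4 * z) := Real.sinh_pos_iff.2 (by positivity)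
  have hD : Real.cosh (c * z) ≤ Real.cosh ((4 - ε) * z) := by
    rw [Real.cosh_le_cosh, abs_mul c z, abs_mul (4 - ε) z, abs_of_nonneg (sub_nonneg.2 hε4)]
    exact mul_le_mul_of_nonneg_right hc (abs_nonneg _)
  have hC1 := Real.one_le_cosh (c * z)
  have hE := Real.exp_pos (-(ε * z))
  have hcos := one_sub_cos_le k t
  have hcos0 : 0 ≤ 1 - Real.cos (k * t) := by linarith [Real.cos_le_one (k * t)]
  set D : ℝ := Real.cosh ((4 - ε) * z) with hDd
  set E : ℝ := Real.exp (-(ε * z)) with hEd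
  set S : ℝ := Real.sinh (4 * z) with hS
  have ht : 0 ≤ t ^ 2 := sq_nonneg t
  -- numerator
  have h1 : |1 - Real.cosh (c * z) * Real.cos (k * t)| ≤ (D - 1) + D * ((1 + t ^ 2) * min 2 (k ^ 2)) := by
    have e : 1 - Real.cosh (c * z) * Real.cos (k * t) =
        -(Real.cosh (c * z) - 1) + Real.cosh (c * z) * (1 - Real.cos (k * t)) := by ring
    rw [e]
    refine (abs_add_le _ _).trans ?_
    rw [abs_neg, abs_of_nonneg (by linarith), abs_of_nonneg (mul_nonneg (by linarith) hcos0)]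
    have h2 : Real.cosh (c * z) * (1 - Real.cos (k * t)) ≤ D * ((1 + t ^ 2) * min 2 (k ^ 2)) :=
      mul_le_mul hD hcos hcos0 (by linarith)
    linarith
  -- first part
  have h2 : D - 1 ≤ 4 * l * E * (k * S) := by
    have a1 := cosh_sub_one_le (x := (4 - ε) * z) (mul_nonneg (sub_nonneg.2 hε4) hz0.le)
    have a2 := sinh_le_exp hε hz0.le
    have a3 : 0 ≤ (4 - ε) * z := mul_nonneg (sub_nonneg.2 hε4) hz0.le
    calc D - 1 ≤ (4 - ε) * z * (E * S) := a1.trans (mul_le_mul_of_nonneg_left a2 a3)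
      _ ≤ 4 * z * (E * S) := mul_le_mul_of_nonneg_right (by nlinarith) (by positivity)
      _ = 4 * l * E * (k * S) := by rw [hz]; ring
  -- second part
  have h3 : D * min 2 (k ^ 2) ≤ (4 + 1 / (4 * l)) * E * (k * S) := by
    have a1 : D ≤ E * ((2 + 1 / (4 * z)) * S) := (cosh_le_exp' hε4 hz0.le).trans
      (mul_le_mul_of_nonneg_left (exp_le_sinh hz0) hE.le)
    have m0 : 0 ≤ min 2 (k ^ 2) := le_min (by norm_num) (sq_nonneg k)
    have m1 : min 2 (k ^ 2) ≤ 2 * k := by
      rcases le_total k 1 with h | h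
      · exact (min_le_right _ _).trans (by nlinarith)
      · exact (min_le_left _ _).trans (by linarith)
    have m2 : min 2 (k ^ 2) ≤ k ^ 2 := min_le_right _ _
    have a2 : (2 + 1 / (4 * z)) * min 2 (k ^ 2) ≤ (4 + 1 / (4 * l)) * k := by
      have : 1 / (4 * z) * k ^ 2 = 1 / (4 * l) * k := by rw [hz]; field_simp
      have b1 : 1 / (4 * z) * min 2 (k ^ 2) ≤ 1 / (4 * z) * k ^ 2 :=
        mul_le_mul_of_nonneg_left m2 (by positivity)
      nlinarith
    calc D * min 2 (k ^ 2) ≤ E * ((2 + 1 / (4 * z)) * S) * min 2 (k ^ 2) := mul_le_mul_of_nonneg_right a1 m0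
      _ = E * S * ((2 + 1 / (4 * z)) * min 2 (k ^ 2)) := by ring
      _ ≤ E * S * ((4 + 1 / (4 * l)) * k) := mul_le_mul_of_nonneg_left a2 (by positivity)
      _ = _ := by ring
  rw [hsk, show 1 / (k * S) - Real.cosh (c * z) / (k * S) * Real.cos (k * t) =
    (1 - Real.cosh (c * z) * Real.cos (k * t)) / (k * S) by ring, abs_div, abs_of_pos (by positivity : 0 < k * S),
    div_le_iff₀ (by positivity)]
  refine h1.trans ?_
  have h4 : D * ((1 + t ^ 2) * min 2 (k ^ 2)) = (1 + t ^ 2) * (D * min 2 (k ^ 2)) := by ring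
  rw [h4]
  have h5 : (1 + t ^ 2) * (D * min 2 (k ^ 2)) ≤ (1 + t ^ 2) * ((4 + 1 / (4 * l)) * E * (k * S)) :=
    mul_le_mul_of_nonneg_left h3 (by positivity)
  have h6 : 4 * l * E * (k * S) ≤ (1 + t ^ 2) * (4 * l * E * (k * S)) := by
    have : 0 ≤ 4 * l * E * (k * S) := by positivity
    nlinarith [mul_nonneg ht this]
  unfold B0
  calc _ ≤ (1 + t ^ 2) * (4 * l * E * (k * S)) + (1 + t ^ 2) * ((4 + 1 / (4 * l)) * E * (k * S)) := by linarith
    _ = _ := by ring

/-- `log |sin (x l + i t)|` -/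
def sn (x t : ℝ) : ℝ := Real.log ‖Complex.sin (((x * l : ℝ) : ℂ) + t * Complex.I)‖

theorem sn_CF {x : ℝ} (h : m8 x ≠ 0) :
    CF (sn x) 1 (fun k => Real.cosh ((4 - m8 x) * (l * k)) / (k * sk k)) := by
  refine (lam_CF6 0 x).congr (fun t => ?_) rfl fun k _ => ?_
  · have hs : Real.sin (x * l) ≠ 0 := by
      intro h0
      apply h
      rw [Real.sin_eq_zero_iff] at h0
      obtain ⟨n, hn⟩ := h0
      have hpi := Real.pi_pos
      have : x = n * 8 := by
        have h1 : (n : ℝ) * 8 * l = x * l := by rw [← hn]; unfold l; ring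
        exact (mul_right_cancel₀ l_pos8.ne' h1).symm
      unfold m8
      rw [this, mul_div_assoc, div_self (by norm_num : (8 : ℝ) ≠ 0), mul_one, Int.fract_intCast, mul_zero]
    rw [lam_reg hs]
    rfl
  · unfold cr
    rw [if_neg h, sub_zero]

/-! ### uniform cosine forms -/

/-- kernels `f v`, `v ∈ S`, growth charge `N`, transforms `m v k / (k sinh (π k / 2))` -/
structure UC (f : ℝ → ℝ → ℝ) (N : ℝ) (m : ℝ → ℝ → ℝ) (S : Set ℝ) (ε B : ℝ) : Prop where
  cf : ∀ v ∈ S, CF (f v) N (fun k => m v k / (k * sk k))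
  bd : ∀ v ∈ S, ∀ k : ℝ, 0 < k → ∀ t : ℝ,
    |N / (k * sk k) - m v k / (k * sk k) * Real.cos (k * t)| ≤ B * Real.exp (-(ε * (l * k))) * (1 + t ^ 2)
  mm : Measurable fun p : ℝ × ℝ => m p.1 p.2

theorem UC.congr {f f' : ℝ → ℝ → ℝ} {N N' : ℝ} {m m' : ℝ → ℝ → ℝ} {S : Set ℝ} {ε B : ℝ} (h : UC f N m S ε B)
    (hf : ∀ v ∈ S, ∀ t, f' v t = f v t) (hN : N' = N) (hm : ∀ v k, m' v k = m v k) : UC f' N' m' S ε B := by
  subst hN
  have e : m' = m := by funext v k; exact hm v k
  subst e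
  exact ⟨fun v hv => (h.cf v hv).congr (fun t => hf v hv t) rfl fun _ _ => rfl, h.bd, h.mm⟩

theorem UC.mono {f : ℝ → ℝ → ℝ} {N : ℝ} {m : ℝ → ℝ → ℝ} {S S' : Set ℝ} {ε ε' B B' : ℝ} (h : UC f N m S ε B)
    (hS : S' ⊆ S) (hε : ε' ≤ ε) (hB : B ≤ B') (hB0 : 0 ≤ B) : UC f N m S' ε' B' := by
  refine ⟨fun v hv => h.cf v (hS hv), fun v hv k hk t => (h.bd v (hS hv) k hk t).trans ?_, h.mm⟩
  have h1 : Real.exp (-(ε * (l * k))) ≤ Real.exp (-(ε' * (l * k))) := by
    refine Real.exp_le_exp.2 (neg_le_neg ?_)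
    exact mul_le_mul_of_nonneg_right hε (mul_pos l_pos8 hk).le
  have h2 : 0 ≤ 1 + t ^ 2 := by positivity
  exact mul_le_mul_of_nonneg_right (mul_le_mul hB h1 (Real.exp_pos _).le (hB0.trans hB)) h2

theorem UC.zero {S : Set ℝ} {ε : ℝ} : UC (fun _ _ => 0) 0 (fun _ _ => 0) S ε 0 := by
  refine ⟨fun v _ => CF.zero.congr (fun _ => rfl) rfl fun _ _ => by simp, fun v _ k _ t => by simp, ?_⟩
  exact measurable_const

theorem UC.add {f f' : ℝ → ℝ → ℝ} {N N' : ℝ} {m m' : ℝ → ℝ → ℝ} {S : Set ℝ} {ε B B' : ℝ} (h : UC f N m S ε B)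
    (h' : UC f' N' m' S ε B') :
    UC (fun v t => f v t + f' v t) (N + N') (fun v k => m v k + m' v k) S ε (B + B') := by
  refine ⟨fun v hv => ((h.cf v hv).add (h'.cf v hv)).congr (fun _ => rfl) rfl fun _ _ => add_div _ _ _,
    fun v hv k hk t => ?_, h.mm.add h'.mm⟩
  have e : (N + N') / (k * sk k) - (m v k + m' v k) / (k * sk k) * Real.cos (k * t) =
      (N / (k * sk k) - m v k / (k * sk k) * Real.cos (k * t)) +
        (N' / (k * sk k) - m' v k / (k * sk k) * Real.cos (k * t)) := by ring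
  rw [e]
  refine (abs_add_le _ _).trans ((add_le_add (h.bd v hv k hk t) (h'.bd v hv k hk t)).trans (le_of_eq ?_))
  ring

theorem UC.smul {f : ℝ → ℝ → ℝ} {N : ℝ} {m : ℝ → ℝ → ℝ} {S : Set ℝ} {ε B : ℝ} (c : ℝ) (h : UC f N m S ε B) :
    UC (fun v t => c * f v t) (c * N) (fun v k => c * m v k) S ε (|c| * B) := by
  refine ⟨fun v hv => ((h.cf v hv).smul c).congr (fun _ => rfl) rfl fun _ _ => by ring,
    fun v hv k hk t => ?_, h.mm.const_mul c⟩
  have e : c * N / (k * sk k) - c * m v k / (k * sk k) * Real.cos (k * t) =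
      c * (N / (k * sk k) - m v k / (k * sk k) * Real.cos (k * t)) := by ring
  rw [e, abs_mul]
  refine (mul_le_mul_of_nonneg_left (h.bd v hv k hk t) (abs_nonneg c)).trans (le_of_eq ?_)
  ring

/-- sums over lists -/
theorem UC.list {γ : Type*} (L : List γ) {f : γ → ℝ → ℝ → ℝ} {N : γ → ℝ} {m : γ → ℝ → ℝ → ℝ} {S : Set ℝ} {ε : ℝ}
    {B : γ → ℝ} (h : ∀ a ∈ L, UC (f a) (N a) (m a) S ε (B a)) :
    UC (fun v t => (L.map fun a => f a v t).sum) (L.map N).sum (fun v k => (L.map fun a => m a v k).sum) S ε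
      (L.map B).sum := by
  induction L with
  | nil => simpa using UC.zero
  | cons a L ih =>
    refine ((h a List.mem_cons_self).add (ih fun b hb => h b (List.mem_cons_of_mem _ hb))).congr
      (fun v _ t => ?_) ?_ fun v k => ?_
    · simp
    · simp
    · simp

lemma measurable_m8 : Measurable m8 := by
  unfold m8
  exact (measurable_fract.comp (measurable_id.div_const 8)).const_mul 8

/-- **one sine**, offset `g v` -/
theorem sn_UC {g : ℝ → ℝ} (hg : Measurable g) {ε : ℝ} (hε : 0 < ε) (hε4 : ε ≤ 4) {S : Set ℝ}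
    (hS : ∀ v ∈ S, |4 - m8 (g v)| ≤ 4 - ε) :
    UC (fun v t => sn (g v) t) 1 (fun v k => Real.cosh ((4 - m8 (g v)) * (l * k))) S ε B0 := by
  refine ⟨fun v hv => sn_CF ?_, fun v hv k hk t => bd_sn hε.le hε4 (hS v hv) hk, ?_⟩
  · intro h0
    have h1 := hS v hv
    rw [h0, sub_zero, abs_of_pos (by norm_num : (0:ℝ) < 4)] at h1
    linarith
  · refine Real.measurable_cosh.comp ?_
    exact (measurable_const.sub (measurable_m8.comp (hg.comp measurable_fst))).mul
      (measurable_snd.const_mul l)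

lemma measurable_sk : Measurable sk := by
  unfold NUMF.sk
  exact Real.measurable_sinh.comp (measurable_id.const_mul _)

/-! ### Fubini -/

section fub

variable {α : Type*} [MeasurableSpace α] {μ : Measure α} [SFinite μ]

/-- **Fubini for a uniform cosine form** -/
theorem UC.fub {f : ℝ → ℝ → ℝ} {N : ℝ} {m : ℝ → ℝ → ℝ} {S : Set ℝ} {ε B : ℝ} (h : UC f N m S ε B) (hε : 0 < ε)
    {w v τ : α → ℝ} (hw : Integrable (fun p => w p * (1 + τ p ^ 2)) μ) (hwm : AEStronglyMeasurable w μ)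
    (hv : Measurable v) (hτ : Measurable τ) (hS : ∀ p, v p ∈ S) :
    Integrable (fun p => w p * f (v p) (τ p)) μ ∧
    IntegrableOn (fun k => (N * ∫ p, w p ∂μ - ∫ p, w p * (m (v p) k * Real.cos (k * τ p)) ∂μ) / (k * sk k))
      (Ioi 0) ∧
    ∫ p, w p * f (v p) (τ p) ∂μ =
      ∫ k in Ioi (0:ℝ), (N * ∫ p, w p ∂μ - ∫ p, w p * (m (v p) k * Real.cos (k * τ p)) ∂μ) / (k * sk k) := by
  have hl := l_pos8
  set ν : Measure ℝ := volume.restrict (Ioi 0) with hν
  set F : α × ℝ → ℝ := fun q => w q.1 * (N / (q.2 * sk q.2) - m (v q.1) q.2 / (q.2 * sk q.2) *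
    Real.cos (q.2 * τ q.1)) with hF
  have hwi : Integrable w μ := by
    refine hw.mono hwm (Filter.Eventually.of_forall fun p => ?_)
    rw [norm_mul, Real.norm_eq_abs (1 + τ p ^ 2), abs_of_nonneg (by positivity)]
    have := norm_nonneg (w p)
    nlinarith [mul_nonneg this (sq_nonneg (τ p))]
  -- measurability
  have hFm : AEStronglyMeasurable F (μ.prod ν) := by
    refine (hwm.comp_fst).mul (Measurable.aestronglyMeasurable ?_)
    have h1 : Measurable fun q : α × ℝ => q.2 * sk q.2 :=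
      measurable_snd.mul (measurable_sk.comp measurable_snd)
    have h2 : Measurable fun q : α × ℝ => m (v q.1) q.2 :=
      h.mm.comp ((hv.comp measurable_fst).prodMk measurable_snd)
    have h3 : Measurable fun q : α × ℝ => Real.cos (q.2 * τ q.1) :=
      Real.measurable_cos.comp (measurable_snd.mul (hτ.comp measurable_fst))
    exact (measurable_const.div h1).sub ((h2.div h1).mul h3)
  -- the bound
  have hexp : Integrable (fun k : ℝ => B * Real.exp (-(ε * (l * k)))) ν := by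
    have h1 := (integrableOn_exp_mul_Ioi (a := -(ε * l)) (by nlinarith [mul_pos hε hl]) 0)
    refine (h1.const_mul B).congr (Filter.Eventually.of_forall fun k => ?_)
    simp only
    congr 2
    ring
  have hFi : Integrable F (μ.prod ν) := by
    have h1 := hw.norm.mul_prod hexp.norm
    have hae : ∀ᵐ q : α × ℝ ∂(μ.prod ν), ‖F q‖ ≤ ‖(fun q : α × ℝ => ‖w q.1 * (1 + τ q.1 ^ 2)‖ *
        ‖B * Real.exp (-(ε * (l * q.2)))‖) q‖ := by
      have h2 : ∀ᵐ q : α × ℝ ∂(μ.prod ν), 0 < q.2 := by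
        have h3 : ∀ᵐ k ∂ν, 0 < k := by
          rw [hν]
          exact ae_restrict_mem measurableSet_Ioi
        exact Measure.quasiMeasurePreserving_snd.ae h3
      filter_upwards [h2] with q hq
      have h3 := h.bd (v q.1) (hS q.1) q.2 hq (τ q.1)
      have h4 : (0 : ℝ) ≤ 1 + τ q.1 ^ 2 := by positivity
      simp only [hF, norm_mul, norm_norm]
      rw [Real.norm_eq_abs (N / (q.2 * sk q.2) - _), Real.norm_eq_abs (1 + τ q.1 ^ 2), abs_of_nonneg h4,
        mul_assoc]
      refine mul_le_mul_of_nonneg_left ?_ (norm_nonneg _)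
      refine h3.trans ?_
      rw [mul_comm (1 + τ q.1 ^ 2)]
      refine mul_le_mul_of_nonneg_right ?_ h4
      rw [← norm_mul]
      exact le_abs_self _
    exact h1.mono hFm hae
  -- inner integrals
  have e1 : ∀ p, ∫ k, F (p, k) ∂ν = w p * f (v p) (τ p) := by
    intro p
    simp only [hF]
    rw [integral_const_mul]
    congr 1
    rw [((h.cf (v p) (hS p)) (τ p)).2]
  have hcos : ∀ k, 0 < k → Integrable (fun p => w p * (m (v p) k * Real.cos (k * τ p))) μ := by
    intro k hk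
    have hks : 0 < k * sk k := mul_pos hk (sk_pos hk)
    have hb : ∀ p, |m (v p) k * Real.cos (k * τ p)| ≤ (|N| + |B| * Real.exp (-(ε * (l * k))) * (k * sk k)) *
        (1 + τ p ^ 2) := by
      intro p
      have h3 := h.bd (v p) (hS p) k hk (τ p)
      have h5 : m (v p) k * Real.cos (k * τ p) = N - (N / (k * sk k) - m (v p) k / (k * sk k) *
          Real.cos (k * τ p)) * (k * sk k) := by
        have hne := hks.ne'
        generalize k * sk k = D at hne
        field_simp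
        ring
      rw [h5]
      refine (abs_sub _ _).trans ?_
      rw [abs_mul, abs_of_pos hks]
      have h6 : |N / (k * sk k) - m (v p) k / (k * sk k) * Real.cos (k * τ p)| * (k * sk k) ≤
          |B| * Real.exp (-(ε * (l * k))) * (1 + τ p ^ 2) * (k * sk k) := by
        refine mul_le_mul_of_nonneg_right (h3.trans ?_) hks.le
        have := le_abs_self B
        gcongr
      have h7 : |N| ≤ |N| * (1 + τ p ^ 2) := by
        nlinarith [abs_nonneg N, sq_nonneg (τ p), mul_nonneg (abs_nonneg N) (sq_nonneg (τ p))]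
      calc _ ≤ |N| * (1 + τ p ^ 2) + |B| * Real.exp (-(ε * (l * k))) * (1 + τ p ^ 2) * (k * sk k) :=
            add_le_add h7 h6
        _ = _ := by ring
    refine (hw.norm.const_mul (|N| + |B| * Real.exp (-(ε * (l * k))) * (k * sk k))).mono ?_ ?_
    · refine hwm.mul (Measurable.aestronglyMeasurable ?_)
      exact (h.mm.comp (hv.prodMk measurable_const)).mul (Real.measurable_cos.comp (hτ.const_mul k))
    · refine Filter.Eventually.of_forall fun p => ?_
      rw [norm_mul, Real.norm_eq_abs (m (v p) k * _)]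
      have h8 : ‖(|N| + |B| * Real.exp (-(ε * (l * k))) * (k * sk k)) * ‖w p * (1 + τ p ^ 2)‖‖ =
          ‖w p‖ * ((|N| + |B| * Real.exp (-(ε * (l * k))) * (k * sk k)) * (1 + τ p ^ 2)) := by
        rw [norm_mul, norm_norm, norm_mul, Real.norm_eq_abs (1 + τ p ^ 2),
          abs_of_nonneg (by positivity : (0:ℝ) ≤ 1 + τ p ^ 2), Real.norm_eq_abs,
          abs_of_nonneg (by positivity)]
        ring
      rw [h8]
      exact mul_le_mul_of_nonneg_left (hb p) (norm_nonneg _)
  have e2 : ∀ k ∈ Ioi (0:ℝ), ∫ p, F (p, k) ∂μ =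
      (N * ∫ p, w p ∂μ - ∫ p, w p * (m (v p) k * Real.cos (k * τ p)) ∂μ) / (k * sk k) := by
    intro k hk
    have hk' : (0:ℝ) < k := hk
    have e3 : ∀ p, F (p, k) = (N / (k * sk k)) * w p - (k * sk k)⁻¹ * (w p * (m (v p) k * Real.cos (k * τ p))) := by
      intro p
      simp only [hF]
      ring
    simp only [e3]
    rw [integral_sub (hwi.const_mul _) ((hcos k hk').const_mul _), integral_const_mul, integral_const_mul]
    ring
  refine ⟨?_, ?_, ?_⟩
  · refine (hFi.integral_prod_left).congr (Filter.Eventually.of_forall fun p => ?_)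
    exact e1 p
  · refine (hFi.integral_prod_right).congr ?_
    rw [Filter.EventuallyEq, hν, ae_restrict_iff' measurableSet_Ioi]
    exact Filter.Eventually.of_forall fun k hk => e2 k hk
  · calc ∫ p, w p * f (v p) (τ p) ∂μ = ∫ p, ∫ k, F (p, k) ∂ν ∂μ := integral_congr_ae
          (Filter.Eventually.of_forall fun p => (e1 p).symm)
      _ = ∫ k, ∫ p, F (p, k) ∂μ ∂ν := integral_integral_swap (f := fun p k => F (p, k)) hFi
      _ = _ := setIntegral_congr_fun measurableSet_Ioi e2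

end fub

end PLT

end
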