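import Pool.Agent.PLT.Four8

/-!
# The two line inequality at one frequency for charge densities on a curve (helper38)

Densities `ρ a` at the offsets `v a t ∈ [0, d]` (`a : Bool` = species), frequency `k`, `z = l k`.

* `Rf`: real form of a kernel of two offsets; `Sf`: swept charges; `Rf_prod`, `Rf_sw2`;
* `own_ge`: the own energy with the singularity moved by `δ` against the energy of the swept charge;
* **`frq8`**: objects, densities: the kernels `N` are at most the energy, up to `Er8` (which vanishes with `δ`).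
-/

set_option autoImplicit false

noncomputable section

open MeasureTheory Set
open scoped ComplexConjugate

namespace PLT

open PHK NUP1 NUO NUDispO Pool.Agent.NUM3

/-- densities on curves -/
structure Dn (d : ℝ) (ρ v : Bool → ℝ → ℝ) : Prop where
  rm : ∀ a, Measurable (ρ a)
  ri : ∀ a, Integrable fun t => ρ a t * (1 + t ^ 2)
  vm : ∀ a, Measurable (v a)
  vr : ∀ a t, v a t ∈ Icc (0 : ℝ) d

/-- form of a kernel of two offsets at the frequency `k` -/
def Rf (ρ v : Bool → ℝ → ℝ) (k : ℝ) (a b : Bool) (K : ℝ → ℝ → ℝ) : ℝ :=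
  ∫ p : ℝ × ℝ, ρ a p.1 * ρ b p.2 * (K (v a p.1) (v b p.2) * Real.cos (k * (p.1 - p.2)))

/-- the wave with density `ρ a` -/
def wf (ρ : Bool → ℝ → ℝ) (k : ℝ) (a : Bool) (t : ℝ) : ℂ := (ρ a t : ℂ) * Complex.exp ((k * t : ℝ) * Complex.I)

/-- swept charge -/
def Sf (ρ v : Bool → ℝ → ℝ) (k : ℝ) (a : Bool) (f : ℝ → ℝ) : ℂ := ∫ t, wf ρ k a t * ((f (v a t) : ℝ) : ℂ)

variable {d : ℝ} {ρ v : Bool → ℝ → ℝ}

theorem Dn.int (h : Dn d ρ v) (a : Bool) : Integrable (ρ a) := by
  refine (h.ri a).mono (h.rm a).aestronglyMeasurable (Filter.Eventually.of_forall fun p => ?_)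
  rw [norm_mul, Real.norm_eq_abs (1 + p ^ 2), abs_of_nonneg (by positivity)]
  have := norm_nonneg (ρ a p)
  nlinarith [mul_nonneg this (sq_nonneg p)]

theorem norm_wf (ρ : Bool → ℝ → ℝ) (k : ℝ) (a : Bool) (t : ℝ) : ‖wf ρ k a t‖ = ‖ρ a t‖ := by
  unfold wf
  rw [norm_mul, Complex.norm_exp_ofReal_mul_I, mul_one, Complex.norm_real]

theorem wf_meas (h : Dn d ρ v) (k : ℝ) (a : Bool) : Measurable (wf ρ k a) := by
  unfold wf
  refine (Complex.measurable_ofReal.comp (h.rm a)).mul (Complex.measurable_exp.comp ?_)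
  exact (Complex.measurable_ofReal.comp (measurable_id.const_mul k)).mul_const _

theorem wf_int (h : Dn d ρ v) (k : ℝ) (a : Bool) : Integrable (wf ρ k a) := by
  refine (h.int a).mono (wf_meas h k a).aestronglyMeasurable (Filter.Eventually.of_forall fun t => ?_)
  rw [norm_wf]

theorem wf_mul_int (h : Dn d ρ v) (k : ℝ) (a : Bool) {f : ℝ → ℝ} (hf : Measurable f) {C : ℝ}
    (hC : ∀ x ∈ Icc (0:ℝ) d, |f x| ≤ C) : Integrable fun t => wf ρ k a t * ((f (v a t) : ℝ) : ℂ) := by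
  refine (wf_int h k a).mul_bdd (c := C) ?_ (Filter.Eventually.of_forall fun t => ?_)
  · exact (Complex.measurable_ofReal.comp (hf.comp (h.vm a))).aestronglyMeasurable
  · rw [Complex.norm_real]
    exact hC _ (h.vr a t)

theorem conj_wf_mul (k : ℝ) (a b : Bool) (t u : ℝ) :
    (conj (wf ρ k a t) * wf ρ k b u).re = ρ a t * ρ b u * Real.cos (k * (t - u)) := by
  unfold wf
  have e : conj ((ρ a t : ℂ) * Complex.exp ((k * t : ℝ) * Complex.I)) *
      ((ρ b u : ℂ) * Complex.exp ((k * u : ℝ) * Complex.I)) =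
      ((ρ a t * ρ b u : ℝ) : ℂ) * Complex.exp ((k * (u - t) : ℝ) * Complex.I) := by
    rw [map_mul, Complex.conj_ofReal, ← Complex.exp_conj, map_mul, Complex.conj_ofReal, Complex.conj_I]
    have : Complex.exp ((k * (u - t) : ℝ) * Complex.I) =
        Complex.exp ((k * t : ℝ) * -Complex.I) * Complex.exp ((k * u : ℝ) * Complex.I) := by
      rw [← Complex.exp_add]
      congr 1
      push_cast
      ring
    rw [this]
    push_cast
    ring
  rw [e, Complex.re_ofReal_mul, Complex.exp_ofReal_mul_I_re]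
  congr 1
  rw [← Real.cos_neg]
  congr 1
  ring

theorem Rf_int (h : Dn d ρ v) (k : ℝ) (a b : Bool) {K : ℝ → ℝ → ℝ} (hK : Measurable fun p : ℝ × ℝ => K p.1 p.2)
    {C : ℝ} (hC : ∀ x ∈ Icc (0:ℝ) d, ∀ y ∈ Icc (0:ℝ) d, |K x y| ≤ C) :
    Integrable fun p : ℝ × ℝ => ρ a p.1 * ρ b p.2 * (K (v a p.1) (v b p.2) * Real.cos (k * (p.1 - p.2))) := by
  have hC0 : 0 ≤ C := (abs_nonneg _).trans (hC _ (h.vr a 0) _ (h.vr a 0))
  refine ((h.int a).mul_prod (h.int b)).mul_bdd (c := C) ?_ (Filter.Eventually.of_forall fun p => ?_)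
  · refine Measurable.aestronglyMeasurable ?_
    exact (hK.comp (((h.vm a).comp measurable_fst).prodMk ((h.vm b).comp measurable_snd))).mul
      (Real.measurable_cos.comp ((measurable_fst.sub measurable_snd).const_mul k))
  · rw [norm_mul, Real.norm_eq_abs, Real.norm_eq_abs]
    calc _ ≤ C * 1 := mul_le_mul (hC _ (h.vr a _) _ (h.vr b _)) (Real.abs_cos_le_one _) (abs_nonneg _) hC0
      _ = C := mul_one C

theorem Rf_congr (h : Dn d ρ v) (k : ℝ) (a b : Bool) {K K' : ℝ → ℝ → ℝ}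
    (hK : ∀ x ∈ Icc (0:ℝ) d, ∀ y ∈ Icc (0:ℝ) d, K x y = K' x y) : Rf ρ v k a b K = Rf ρ v k a b K' := by
  unfold Rf
  refine integral_congr_ae (Filter.Eventually.of_forall fun p => ?_)
  simp only [hK _ (h.vr a _) _ (h.vr b _)]

theorem Rf_smul (k : ℝ) (a b : Bool) (c : ℝ) (K : ℝ → ℝ → ℝ) :
    Rf ρ v k a b (fun x y => c * K x y) = c * Rf ρ v k a b K := by
  unfold Rf
  rw [← integral_const_mul]
  refine integral_congr_ae (Filter.Eventually.of_forall fun p => ?_)
  simp only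
  ring

theorem Rf_add (h : Dn d ρ v) (k : ℝ) (a b : Bool) {K K' : ℝ → ℝ → ℝ}
    (hK : Measurable fun p : ℝ × ℝ => K p.1 p.2) (hK' : Measurable fun p : ℝ × ℝ => K' p.1 p.2) {C C' : ℝ}
    (hC : ∀ x ∈ Icc (0:ℝ) d, ∀ y ∈ Icc (0:ℝ) d, |K x y| ≤ C)
    (hC' : ∀ x ∈ Icc (0:ℝ) d, ∀ y ∈ Icc (0:ℝ) d, |K' x y| ≤ C') :
    Rf ρ v k a b (fun x y => K x y + K' x y) = Rf ρ v k a b K + Rf ρ v k a b K' := by
  unfold Rf
  rw [← integral_add (Rf_int h k a b hK hC) (Rf_int h k a b hK' hC')]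
  refine integral_congr_ae (Filter.Eventually.of_forall fun p => ?_)
  simp only
  ring

/-- product kernels -/
theorem Rf_prod (h : Dn d ρ v) (k : ℝ) (a b : Bool) {f g : ℝ → ℝ} (hf : Measurable f) (hg : Measurable g) {C C' : ℝ}
    (hC : ∀ x ∈ Icc (0:ℝ) d, |f x| ≤ C) (hC' : ∀ x ∈ Icc (0:ℝ) d, |g x| ≤ C') :
    Rf ρ v k a b (fun x y => f x * g y) = (conj (Sf ρ v k a f) * Sf ρ v k b g).re := by
  have h1 := wf_mul_int h k a hf hC
  have h2 := wf_mul_int h k b hg hC'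
  have h1' : Integrable fun t => conj (wf ρ k a t * ((f (v a t) : ℝ) : ℂ)) := by
    have := (LinearIsometryEquiv.integrable_comp_iff Complex.conjLIE).2 h1
    simpa using this
  have h3 : Integrable fun p : ℝ × ℝ => conj (wf ρ k a p.1 * ((f (v a p.1) : ℝ) : ℂ)) *
      (wf ρ k b p.2 * ((g (v b p.2) : ℝ) : ℂ)) := h1'.mul_prod h2
  unfold Sf
  rw [← integral_conj, ← integral_prod_mul]
  have h4 : (∫ p : ℝ × ℝ, conj (wf ρ k a p.1 * ((f (v a p.1) : ℝ) : ℂ)) *
      (wf ρ k b p.2 * ((g (v b p.2) : ℝ) : ℂ))).re = ∫ p : ℝ × ℝ, (conj (wf ρ k a p.1 *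
      ((f (v a p.1) : ℝ) : ℂ)) * (wf ρ k b p.2 * ((g (v b p.2) : ℝ) : ℂ))).re :=
    (integral_re (f := fun p : ℝ × ℝ => conj (wf ρ k a p.1 * ((f (v a p.1) : ℝ) : ℂ)) *
      (wf ρ k b p.2 * ((g (v b p.2) : ℝ) : ℂ))) h3).symm
  refine Eq.trans ?_ h4.symm
  unfold Rf
  refine integral_congr_ae (Filter.Eventually.of_forall fun p => ?_)
  simp only
  have e : conj (wf ρ k a p.1 * ((f (v a p.1) : ℝ) : ℂ)) * (wf ρ k b p.2 * ((g (v b p.2) : ℝ) : ℂ)) =
      ((f (v a p.1) * g (v b p.2) : ℝ) : ℂ) * (conj (wf ρ k a p.1) * wf ρ k b p.2) := by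
    rw [map_mul, Complex.conj_ofReal]
    push_cast
    ring
  rw [e, Complex.re_ofReal_mul, conj_wf_mul]
  ring

/-! ### swept charges of the two lines -/

/-- sweeping functions -/
def pb (z d : ℝ) (b : Fin 2) : ℝ → ℝ := if b = 0 then Bal.p0 z d else Bal.p1 z d

/-- offsets of the lines -/
def ln8 (d : ℝ) (b : Fin 2) : ℝ := if b = 0 then 0 else d

/-- the charge swept on the line `b` -/
def Vf (ρ v : Bool → ℝ → ℝ) (k z d : ℝ) (a : Bool) (b : Fin 2) : ℂ := Sf ρ v k a (pb z d b)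

theorem pb_cont (z d : ℝ) (b : Fin 2) : Continuous (pb z d b) := by
  unfold pb
  split_ifs
  · exact Bal.continuous_p0 z d
  · exact Bal.continuous_p1 z d

theorem pb_mem {z : ℝ} (hz : 0 < z) (hd : 0 < d) (b : Fin 2) {x : ℝ} (hx : x ∈ Icc (0:ℝ) d) :
    pb z d b x ∈ Icc (0:ℝ) 1 := by
  unfold pb
  split_ifs
  · exact Bal.p0_mem hz hd hx
  · exact Bal.p1_mem hz hd hx

theorem pb_abs {z : ℝ} (hz : 0 < z) (hd : 0 < d) (b : Fin 2) {x : ℝ} (hx : x ∈ Icc (0:ℝ) d) :
    |pb z d b x| ≤ 1 := by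
  have h := pb_mem hz hd b hx
  rw [abs_of_nonneg h.1]
  exact h.2

theorem sw2_sum (z d x y : ℝ) (f : ℝ → ℝ → ℝ) :
    sw2 z d x y f = ∑ b, ∑ b', f (ln8 d b) (ln8 d b') * (pb z d b x * pb z d b' y) := by
  simp only [Fin.sum_univ_two, sw2, pb, ln8, Fin.isValue, if_true, one_ne_zero, if_false]
  ring

theorem Rf_pb (h : Dn d ρ v) {z : ℝ} (hz : 0 < z) (hd : 0 < d) (k : ℝ) (a a' : Bool) (b b' : Fin 2) :
    Rf ρ v k a a' (fun x y => pb z d b x * pb z d b' y) =
      (Vf ρ v k z d a b).re * (Vf ρ v k z d a' b').re + (Vf ρ v k z d a b).im * (Vf ρ v k z d a' b').im := by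
  rw [Rf_prod h k a a' (pb_cont z d b).measurable (pb_cont z d b').measurable (C := 1) (C' := 1)
    (fun x hx => pb_abs hz hd b hx) (fun x hx => pb_abs hz hd b' hx)]
  show (conj (Vf ρ v k z d a b) * Vf ρ v k z d a' b').re = _
  rw [Complex.mul_re, Complex.conj_re, Complex.conj_im]
  ring

theorem meas_pb (z d : ℝ) (b b' : Fin 2) : Measurable fun p : ℝ × ℝ => pb z d b p.1 * pb z d b' p.2 :=
  (((pb_cont z d b).comp continuous_fst).mul ((pb_cont z d b').comp continuous_snd)).measurable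

theorem Rf_finset (h : Dn d ρ v) (k : ℝ) (a a' : Bool) {ι : Type*} (s : Finset ι) {K : ι → ℝ → ℝ → ℝ}
    (hK : ∀ i ∈ s, Measurable fun p : ℝ × ℝ => K i p.1 p.2) {C : ι → ℝ}
    (hC : ∀ i ∈ s, ∀ x ∈ Icc (0:ℝ) d, ∀ y ∈ Icc (0:ℝ) d, |K i x y| ≤ C i) :
    Rf ρ v k a a' (fun x y => ∑ i ∈ s, K i x y) = ∑ i ∈ s, Rf ρ v k a a' (K i) := by
  unfold Rf
  rw [← integral_finsetSum s fun i hi => Rf_int h k a a' (hK i hi) (hC i hi)]
  refine integral_congr_ae (Filter.Eventually.of_forall fun p => ?_)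
  simp only
  rw [Finset.sum_mul, Finset.mul_sum]

/-- **form of a swept kernel** -/
theorem Rf_sw2 (h : Dn d ρ v) {z : ℝ} (hz : 0 < z) (hd : 0 < d) (k : ℝ) (a a' : Bool) (f : ℝ → ℝ → ℝ) :
    Rf ρ v k a a' (fun x y => sw2 z d x y f) = ∑ b, ∑ b', f (ln8 d b) (ln8 d b') *
      ((Vf ρ v k z d a b).re * (Vf ρ v k z d a' b').re + (Vf ρ v k z d a b).im * (Vf ρ v k z d a' b').im) := by
  have hm : ∀ b b' : Fin 2, Measurable fun p : ℝ × ℝ => f (ln8 d b) (ln8 d b') * (pb z d b p.1 * pb z d b' p.2) :=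
    fun b b' => (meas_pb z d b b').const_mul _
  have hb : ∀ b b' : Fin 2, ∀ x ∈ Icc (0:ℝ) d, ∀ y ∈ Icc (0:ℝ) d,
      |f (ln8 d b) (ln8 d b') * (pb z d b x * pb z d b' y)| ≤ |f (ln8 d b) (ln8 d b')| := by
    intro b b' x hx y hy
    rw [abs_mul, abs_mul]
    have h1 := pb_abs hz hd b hx
    have h2 := pb_abs hz hd b' hy
    have h3 : |pb z d b x| * |pb z d b' y| ≤ 1 * 1 := mul_le_mul h1 h2 (abs_nonneg _) zero_le_one
    nlinarith [abs_nonneg (f (ln8 d b) (ln8 d b'))]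
  have e1 : (fun x y => sw2 z d x y f) = fun x y => ∑ b, (fun (b : Fin 2) x y => ∑ b', f (ln8 d b) (ln8 d b') *
      (pb z d b x * pb z d b' y)) b x y := by
    funext x y
    exact sw2_sum z d x y f
  rw [e1, Rf_finset h k a a' Finset.univ (C := fun b => ∑ b', |f (ln8 d b) (ln8 d b')|)]
  · refine Finset.sum_congr rfl fun b _ => ?_
    rw [Rf_finset h k a a' Finset.univ (fun b' _ => hm b b') (C := fun b' => |f (ln8 d b) (ln8 d b')|)
      fun b' _ => hb b b']
    refine Finset.sum_congr rfl fun b' _ => ?_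
    rw [Rf_smul, Rf_pb h hz hd]
  · intro b _
    exact Finset.measurable_fun_sum _ fun b' _ => hm b b'
  · intro b _ x hx y hy
    exact (Finset.abs_sum_le_sum_abs _ _).trans (Finset.sum_le_sum fun b' _ => hb b b' x hx y hy)

/-! ### the own energy -/

/-- energy of the swept charge, half period `P` -/
def swp (ρ v : Bool → ℝ → ℝ) (k z d P : ℝ) (a : Bool) : ℝ :=
  ((Vf ρ v k z d a 0).re ^ 2 + (Vf ρ v k z d a 0).im ^ 2 + (Vf ρ v k z d a 1).re ^ 2 + (Vf ρ v k z d a 1).im ^ 2) *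
    Real.cosh (z * P) + 2 * ((Vf ρ v k z d a 0).re * (Vf ρ v k z d a 1).re +
      (Vf ρ v k z d a 0).im * (Vf ρ v k z d a 1).im) * Real.cosh (z * (P - d))

theorem Rf_swp (h : Dn d ρ v) {z : ℝ} (hz : 0 < z) (hd : 0 < d) (k P : ℝ) (a : Bool) :
    Rf ρ v k a a (fun x y => (Bal.p0 z d x * Bal.p0 z d y + Bal.p1 z d x * Bal.p1 z d y) * Real.cosh (z * P) +
      (Bal.p0 z d x * Bal.p1 z d y + Bal.p1 z d x * Bal.p0 z d y) * Real.cosh (z * (P - d))) =
      swp ρ v k z d P a := by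
  have h1 := Rf_sw2 h hz hd k a a fun x y => if x = y then Real.cosh (z * P) else Real.cosh (z * (P - d))
  have e : (fun x y => sw2 z d x y fun x y => if x = y then Real.cosh (z * P) else Real.cosh (z * (P - d))) =
      fun x y => (Bal.p0 z d x * Bal.p0 z d y + Bal.p1 z d x * Bal.p1 z d y) * Real.cosh (z * P) +
      (Bal.p0 z d x * Bal.p1 z d y + Bal.p1 z d x * Bal.p0 z d y) * Real.cosh (z * (P - d)) := by
    funext x y
    simp only [sw2, hd.ne, hd.ne', if_true, if_false]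
    ring
  rw [e] at h1
  rw [h1]
  simp only [Fin.sum_univ_two, ln8, Fin.isValue, if_true, one_ne_zero, if_false, hd.ne, hd.ne']
  unfold swp
  ring

theorem bil_Rf (h : Dn d ρ v) (k : ℝ) (a : Bool) {K : ℝ → ℝ → ℝ} (hK : Measurable fun p : ℝ × ℝ => K p.1 p.2)
    {C : ℝ} (hC : ∀ x ∈ Icc (0:ℝ) d, ∀ y ∈ Icc (0:ℝ) d, |K x y| ≤ C) :
    (Bal.bil volume (wf ρ k a) (v a) K).re = Rf ρ v k a a K := by
  have hi := Bal.integrable_bil (μ := volume) (wf_int h k a) (h.vm a) hK (C := C)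
    fun x y => hC _ (h.vr a x) _ (h.vr a y)
  unfold Bal.bil Rf
  have h4 : (∫ p : ℝ × ℝ, conj (wf ρ k a p.1) * wf ρ k a p.2 * ((K (v a p.1) (v a p.2) : ℝ) : ℂ)).re =
      ∫ p : ℝ × ℝ, (conj (wf ρ k a p.1) * wf ρ k a p.2 * ((K (v a p.1) (v a p.2) : ℝ) : ℂ)).re :=
    (integral_re (f := fun p : ℝ × ℝ => conj (wf ρ k a p.1) * wf ρ k a p.2 *
      ((K (v a p.1) (v a p.2) : ℝ) : ℂ)) hi).symm
  refine Eq.trans h4 ?_
  refine integral_congr_ae (Filter.Eventually.of_forall fun p => ?_)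
  simp only
  rw [mul_comm, Complex.re_ofReal_mul, conj_wf_mul]
  ring

/-- **the own energy is at least the energy of the swept charge** -/
theorem own_ge (h : Dn d ρ v) {z : ℝ} (hz : 0 < z) (hd : 0 < d) {P : ℝ} (hP : d ≤ P) (k : ℝ) (a : Bool) :
    swp ρ v k z d P a ≤ Rf ρ v k a a fun x y => Real.cosh (z * (P - |x - y|)) := by
  have hP0 : 0 < P := hd.trans_le hP
  have hs : 0 < Real.sinh (z * P) := Real.sinh_pos_iff.2 (by positivity)
  have h1 := Bal.int_ck_ge (μ := volume) hz hd hP0 (wf_int h k a) (h.vm a) (h.vr a)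
  have hm : Measurable fun p : ℝ × ℝ => Bal.ck P z (p.1 - p.2) := by
    unfold Bal.ck
    exact ((Real.continuous_cosh.comp (continuous_const.mul (continuous_const.sub
      (continuous_fst.sub continuous_snd).abs))).div_const _).measurable
  have hb : ∀ x ∈ Icc (0:ℝ) d, ∀ y ∈ Icc (0:ℝ) d, |Bal.ck P z (x - y)| ≤
      Real.cosh (z * P) / Real.sinh (z * P) := by
    intro x hx y hy
    unfold Bal.ck
    have hxy : |x - y| ≤ d := by
      rw [abs_le]
      constructor <;> linarith [hx.1, hx.2, hy.1, hy.2]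
    rw [abs_of_nonneg (div_nonneg (Real.cosh_pos _).le hs.le)]
    refine div_le_div_of_nonneg_right ?_ hs.le
    rw [Real.cosh_le_cosh, abs_of_nonneg (mul_nonneg hz.le (by linarith) : 0 ≤ z * (P - |x - y|)),
      abs_of_nonneg (mul_nonneg hz.le hP0.le)]
    exact mul_le_mul_of_nonneg_left (by linarith [abs_nonneg (x - y)]) hz.le
  rw [bil_Rf h k a hm hb] at h1
  have h2 := mul_le_mul_of_nonneg_left h1 hs.le
  have e1 : Real.sinh (z * P) * Rf ρ v k a a (fun x y => Bal.ck P z (x - y)) =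
      Rf ρ v k a a fun x y => Real.cosh (z * (P - |x - y|)) := by
    rw [← Rf_smul]
    congr 1
    funext x y
    unfold Bal.ck
    field_simp
  rw [e1] at h2
  refine le_trans (le_of_eq ?_) h2
  have e2 : (∫ x, wf ρ k a x * ((Bal.p0 z d (v a x) : ℝ) : ℂ)) = Vf ρ v k z d a 0 := rfl
  have e3 : (∫ x, wf ρ k a x * ((Bal.p1 z d (v a x) : ℝ) : ℂ)) = Vf ρ v k z d a 1 := rfl
  rw [e2, e3]
  unfold Bal.sw Bal.ck swp
  set V0 := Vf ρ v k z d a 0
  set V1 := Vf ρ v k z d a 1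
  rw [abs_zero, sub_zero, abs_of_pos hd]
  simp only [Complex.add_re, Complex.mul_re, Complex.ofReal_re, Complex.ofReal_im, mul_zero, sub_zero,
    Complex.conj_re, Complex.conj_im]
  field_simp
  ring

/-- symbol of the own kernel, singularity moved by `δ` -/
def mo (δ z x y : ℝ) : ℝ := DV true (cA8 x) (cA8 y) z +
  2 * (Real.cosh (z * (4 - δ - |x - y|)) - Real.cosh (z * (4 - |x - y|)))

theorem mo_eq {z : ℝ} (hz : 0 < z) (hd : 0 < d) (hd1 : d ≤ 1) (δ : ℝ) {x y : ℝ} (hx : x ∈ Icc (0:ℝ) d)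
    (hy : y ∈ Icc (0:ℝ) d) : mo δ z x y = (sw2 z d x y fun v w => DV true (cA8 v) (cA8 w) z) +
      (2 * Real.cosh (z * (4 - δ - |x - y|)) - 2 *
      ((Bal.p0 z d x * Bal.p0 z d y + Bal.p1 z d x * Bal.p1 z d y) * Real.cosh (z * 4) +
        (Bal.p0 z d x * Bal.p1 z d y + Bal.p1 z d x * Bal.p0 z d y) * Real.cosh (z * (4 - d)))) := by
  have h1 := DV_AA_true hz hd hd1 hx hy
  have h2 := Bal.ck_two hz hd (by norm_num : (0 : ℝ) < 4) x y
  have hs : 0 < Real.sinh (z * 4) := Real.sinh_pos_iff.2 (by positivity)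
  unfold Bal.ck at h2
  rw [abs_zero, abs_of_pos hd, sub_zero] at h2
  have h3 : Real.cosh (z * (4 - |x - y|)) = 2 * Real.sinh (z * 4) * Bal.G z d x y +
      (Bal.p0 z d x * Bal.p0 z d y + Bal.p1 z d x * Bal.p1 z d y) * Real.cosh (z * 4) +
      (Bal.p0 z d x * Bal.p1 z d y + Bal.p1 z d x * Bal.p0 z d y) * Real.cosh (z * (4 - d)) := by
    have hs' := hs.ne'
    field_simp at h2
    linarith
  unfold mo
  rw [h1, h3, mul_comm 4 z]
  ring

theorem cont_ab (z c : ℝ) : Continuous fun p : ℝ × ℝ => Real.cosh (z * (c - |p.1 - p.2|)) :=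
  Real.continuous_cosh.comp (continuous_const.mul (continuous_const.sub (continuous_fst.sub continuous_snd).abs))

theorem bdd_cont (d : ℝ) {K : ℝ → ℝ → ℝ} (hK : Continuous fun p : ℝ × ℝ => K p.1 p.2) :
    ∃ C, ∀ x ∈ Icc (0:ℝ) d, ∀ y ∈ Icc (0:ℝ) d, |K x y| ≤ C := by
  obtain ⟨C, hC⟩ := (isCompact_Icc.prod isCompact_Icc : IsCompact (Icc (0:ℝ) d ×ˢ Icc (0:ℝ) d)).exists_bound_of_continuousOn
    hK.continuousOn
  exact ⟨C, fun x hx y hy => hC (x, y) ⟨hx, hy⟩⟩

/-- **the own form, singularity moved by `δ`** -/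
theorem Rf_mo_ge (h : Dn d ρ v) {z : ℝ} (hz : 0 < z) (hd : 0 < d) (hd1 : d ≤ 1) {δ : ℝ} (hδ : δ ≤ 1) (k : ℝ)
    (a : Bool) : Rf ρ v k a a (fun x y => sw2 z d x y fun v w => DV true (cA8 v) (cA8 w) z) ≤
      Rf ρ v k a a (mo δ z) + 2 * (swp ρ v k z d 4 a - swp ρ v k z d (4 - δ) a) := by
  have h1 := own_ge h hz hd (P := 4 - δ) (by linarith) k a
  set f : ℝ → ℝ → ℝ := fun v w => DV true (cA8 v) (cA8 w) z
  have c1 : Continuous fun p : ℝ × ℝ => sw2 z d p.1 p.2 f := by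
    unfold sw2
    have q0 := Bal.continuous_p0 z d
    have q1 := Bal.continuous_p1 z d
    exact (((((q0.comp continuous_fst).mul (q0.comp continuous_snd)).mul continuous_const).add
      (((q0.comp continuous_fst).mul (q1.comp continuous_snd)).mul continuous_const)).add
      (((q1.comp continuous_fst).mul (q0.comp continuous_snd)).mul continuous_const)).add
      (((q1.comp continuous_fst).mul (q1.comp continuous_snd)).mul continuous_const)
  have c2 : Continuous fun p : ℝ × ℝ => Real.cosh (z * (4 - δ - |p.1 - p.2|)) := cont_ab z (4 - δ)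
  have c3 : Continuous fun p : ℝ × ℝ =>
      (Bal.p0 z d p.1 * Bal.p0 z d p.2 + Bal.p1 z d p.1 * Bal.p1 z d p.2) * Real.cosh (z * 4) +
        (Bal.p0 z d p.1 * Bal.p1 z d p.2 + Bal.p1 z d p.1 * Bal.p0 z d p.2) * Real.cosh (z * (4 - d)) := by
    have q0 := Bal.continuous_p0 z d
    have q1 := Bal.continuous_p1 z d
    exact ((((q0.comp continuous_fst).mul (q0.comp continuous_snd)).add
      ((q1.comp continuous_fst).mul (q1.comp continuous_snd))).mul continuous_const).add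
      ((((q0.comp continuous_fst).mul (q1.comp continuous_snd)).add
      ((q1.comp continuous_fst).mul (q0.comp continuous_snd))).mul continuous_const)
  obtain ⟨C1, b1⟩ := bdd_cont d (K := fun x y => sw2 z d x y f) c1
  obtain ⟨C2, b2⟩ := bdd_cont d (K := fun x y => Real.cosh (z * (4 - δ - |x - y|))) c2
  obtain ⟨C3, b3⟩ := bdd_cont d (K := fun x y =>
      (Bal.p0 z d x * Bal.p0 z d y + Bal.p1 z d x * Bal.p1 z d y) * Real.cosh (z * 4) +
        (Bal.p0 z d x * Bal.p1 z d y + Bal.p1 z d x * Bal.p0 z d y) * Real.cosh (z * (4 - d))) c3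
  have e : Rf ρ v k a a (mo δ z) = Rf ρ v k a a (fun x y => sw2 z d x y f) +
      (2 * Rf ρ v k a a (fun x y => Real.cosh (z * (4 - δ - |x - y|))) + -2 * swp ρ v k z d 4 a) := by
    rw [← Rf_swp h hz hd, ← Rf_smul, ← Rf_smul]
    have c2' : Continuous fun p : ℝ × ℝ => 2 * Real.cosh (z * (4 - δ - |p.1 - p.2|)) := c2.const_mul 2
    have c3' : Continuous fun p : ℝ × ℝ =>
      -2 * ((Bal.p0 z d p.1 * Bal.p0 z d p.2 + Bal.p1 z d p.1 * Bal.p1 z d p.2) * Real.cosh (z * 4) +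
        (Bal.p0 z d p.1 * Bal.p1 z d p.2 + Bal.p1 z d p.1 * Bal.p0 z d p.2) * Real.cosh (z * (4 - d))) :=
      c3.const_mul (-2)
    obtain ⟨C2', b2'⟩ := bdd_cont d (K := fun x y => 2 * Real.cosh (z * (4 - δ - |x - y|))) c2'
    obtain ⟨C3', b3'⟩ := bdd_cont d (K := fun x y =>
      -2 * ((Bal.p0 z d x * Bal.p0 z d y + Bal.p1 z d x * Bal.p1 z d y) * Real.cosh (z * 4) +
        (Bal.p0 z d x * Bal.p1 z d y + Bal.p1 z d x * Bal.p0 z d y) * Real.cosh (z * (4 - d)))) c3'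
    rw [← Rf_add h k a a c2'.measurable c3'.measurable b2' b3']
    obtain ⟨C4, b4⟩ := bdd_cont d (K := fun x y => 2 * Real.cosh (z * (4 - δ - |x - y|)) +
      -2 * ((Bal.p0 z d x * Bal.p0 z d y + Bal.p1 z d x * Bal.p1 z d y) * Real.cosh (z * 4) +
        (Bal.p0 z d x * Bal.p1 z d y + Bal.p1 z d x * Bal.p0 z d y) * Real.cosh (z * (4 - d)))) (c2'.add c3')
    rw [← Rf_add h k a a c1.measurable (c2'.add c3').measurable b1 b4]
    refine Rf_congr h k a a fun x hx y hy => ?_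
    rw [mo_eq hz hd hd1 δ hx hy]
    ring
  rw [e]
  linarith

/-- the kernels of two quanta -/
def kq (δ z : ℝ) (s : Bool) (x y : ℝ) : ℝ := if s then mo δ z x y else DV false (cA8 x) (cA8 y) z

/-- the error -/
def Er8 (ρ v : Bool → ℝ → ℝ) (k z d δ : ℝ) : ℝ :=
  ∑ a : Bool, 2 * (swp ρ v k z d 4 a - swp ρ v k z d (4 - δ) a)

/-- **objects and densities at one frequency** -/
theorem frq8 {F : F8} (hF : F.Nn) {C : Kd6 → List ((Bool × Bool × ℝ) × ℤ)} {z : ℝ} (hz : 0 < z) (hd : 0 < d)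
    (hd1 : d ≤ 1) (hC : ∀ σ K, NWl d σ (C K))
    (ha : ∀ σ K b, F.a σ K b = DV σ (C K) (cA8 (ln8 d b)) z)
    (hu : ∀ σ b b', F.u σ b b' = DV σ (cA8 (ln8 d b)) (cA8 (ln8 d b')) z)
    (h : Dn d ρ v) {r : ℕ} (O : Fin r → Xo) (k : ℝ) {δ : ℝ} (hδ : δ ≤ 1) :
    ∑ i, ∑ j, F.N (sp (O i) == sp (O j)) (k6 (O i)) (k6 (O j)) * Real.cos (k * (ht (O i) - ht (O j))) ≤
      ∑ i, ∑ j, F.D (sp (O i) == sp (O j)) (k6 (O i)) (k6 (O j)) * Real.cos (k * (ht (O i) - ht (O j))) +
      2 * (∑ i, ∑ a, ∫ t, ρ a t * (DV (sp (O i) == a) (C (k6 (O i))) (cA8 (v a t)) z *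
        Real.cos (k * (t - ht (O i))))) +
      ∑ a, ∑ b, Rf ρ v k a b (kq δ z (a == b)) + Er8 ρ v k z d δ := by
  have h1 := F8.point hF O k (Vf ρ v k z d)
  -- objects against densities
  have e2 : ∀ i, ∀ a : Bool, ∑ b, F.a (sp (O i) == a) (k6 (O i)) b *
      (Real.cos (k * ht (O i)) * (Vf ρ v k z d a b).re + Real.sin (k * ht (O i)) * (Vf ρ v k z d a b).im) =
      ∫ t, ρ a t * (DV (sp (O i) == a) (C (k6 (O i))) (cA8 (v a t)) z * Real.cos (k * (t - ht (O i)))) := by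
    intro i a
    set H := ht (O i)
    have hV : ∀ b, Real.cos (k * H) * (Vf ρ v k z d a b).re + Real.sin (k * H) * (Vf ρ v k z d a b).im =
        ∫ t, ρ a t * (pb z d b (v a t) * Real.cos (k * (t - H))) := by
      intro b
      have hi := wf_mul_int h k a (pb_cont z d b).measurable (C := 1) fun x hx => pb_abs hz hd b hx
      have hc : Integrable fun t => Complex.exp (-((k * H : ℝ) * Complex.I)) *
          (wf ρ k a t * ((pb z d b (v a t) : ℝ) : ℂ)) := hi.const_mul _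
      have e3 : Real.cos (k * H) * (Vf ρ v k z d a b).re + Real.sin (k * H) * (Vf ρ v k z d a b).im =
          (Complex.exp (-((k * H : ℝ) * Complex.I)) * Vf ρ v k z d a b).re := by
        rw [Complex.mul_re]
        have : -((k * H : ℝ) * Complex.I) = ((-(k * H) : ℝ) : ℂ) * Complex.I := by push_cast; ring
        rw [this, Complex.exp_ofReal_mul_I_re, Complex.exp_ofReal_mul_I_im, Real.cos_neg, Real.sin_neg]
        ring
      rw [e3]
      unfold Vf Sf
      rw [← integral_const_mul]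
      have h4 : (∫ t, Complex.exp (-((k * H : ℝ) * Complex.I)) * (wf ρ k a t * ((pb z d b (v a t) : ℝ) : ℂ))).re =
          ∫ t, (Complex.exp (-((k * H : ℝ) * Complex.I)) * (wf ρ k a t * ((pb z d b (v a t) : ℝ) : ℂ))).re :=
        (integral_re (f := fun t => Complex.exp (-((k * H : ℝ) * Complex.I)) *
          (wf ρ k a t * ((pb z d b (v a t) : ℝ) : ℂ))) hc).symm
      rw [h4]
      refine integral_congr_ae (Filter.Eventually.of_forall fun t => ?_)
      simp only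
      unfold wf
      have e5 : Complex.exp (-((k * H : ℝ) * Complex.I)) * ((ρ a t : ℂ) * Complex.exp ((k * t : ℝ) * Complex.I) *
          ((pb z d b (v a t) : ℝ) : ℂ)) = ((ρ a t * pb z d b (v a t) : ℝ) : ℂ) *
          Complex.exp (((k * (t - H) : ℝ) : ℂ) * Complex.I) := by
        have : Complex.exp (((k * (t - H) : ℝ) : ℂ) * Complex.I) =
            Complex.exp (-((k * H : ℝ) * Complex.I)) * Complex.exp ((k * t : ℝ) * Complex.I) := by
          rw [← Complex.exp_add]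
          congr 1
          push_cast
          ring
        rw [this]
        push_cast
        ring
      rw [e5, Complex.re_ofReal_mul, Complex.exp_ofReal_mul_I_re]
      ring
    have hI : ∀ b, Integrable fun t => ρ a t * (pb z d b (v a t) * Real.cos (k * (t - H))) := by
      intro b
      refine (h.int a).mul_bdd (c := 1) ?_ (Filter.Eventually.of_forall fun t => ?_)
      · refine Measurable.aestronglyMeasurable ?_
        exact ((pb_cont z d b).measurable.comp (h.vm a)).mul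
          (Real.measurable_cos.comp ((measurable_id.sub_const H).const_mul k))
      · rw [norm_mul, Real.norm_eq_abs, Real.norm_eq_abs]
        have q1 := pb_abs hz hd b (h.vr a t)
        calc _ ≤ (1:ℝ) * 1 := mul_le_mul q1 (Real.abs_cos_le_one _) (abs_nonneg _) zero_le_one
          _ = 1 := one_mul 1
    simp only [hV, Fin.sum_univ_two]
    rw [← integral_const_mul, ← integral_const_mul, ← integral_add ((hI 0).const_mul _) ((hI 1).const_mul _)]
    refine integral_congr_ae (Filter.Eventually.of_forall fun t => ?_)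
    simp only
    rw [DV_swept hz hd (hC _ _) (h.vr a t), ha, ha]
    simp only [pb, ln8, Fin.isValue, if_true, one_ne_zero, if_false]
    ring
  -- densities
  have e6 : ∀ a a' : Bool, ∑ b, ∑ b', F.u (a == a') b b' * ((Vf ρ v k z d a b).re * (Vf ρ v k z d a' b').re +
      (Vf ρ v k z d a b).im * (Vf ρ v k z d a' b').im) =
      Rf ρ v k a a' (fun x y => sw2 z d x y fun v w => DV (a == a') (cA8 v) (cA8 w) z) := by
    intro a a'
    rw [Rf_sw2 h hz hd]
    exact Finset.sum_congr rfl fun b _ => Finset.sum_congr rfl fun b' _ => by rw [hu]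
  have e7 : ∀ a a' : Bool, Rf ρ v k a a' (fun x y => sw2 z d x y fun v w => DV (a == a') (cA8 v) (cA8 w) z) ≤
      Rf ρ v k a a' (kq δ z (a == a')) +
        if a = a' then 2 * (swp ρ v k z d 4 a - swp ρ v k z d (4 - δ) a) else 0 := by
    intro a a'
    by_cases haa : a = a'
    · subst haa
      rw [if_pos rfl, beq_self_eq_true]
      exact Rf_mo_ge h hz hd hd1 hδ k a
    · rw [if_neg haa, add_zero]
      have e8 : (a == a') = false := by simpa using haa
      rw [e8]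
      refine le_of_eq (Rf_congr h k a a' fun x hx y hy => ?_)
      exact (DV_AA_false hz hd hd1 hx hy).symm
  have e9 : ∑ a : Bool, ∑ a', (if a = a' then 2 * (swp ρ v k z d 4 a - swp ρ v k z d (4 - δ) a) else 0) =
      Er8 ρ v k z d δ := by
    unfold Er8
    exact Finset.sum_congr rfl fun a _ => by simp
  have e10 : ∑ a : Bool, ∑ a', ∑ b, ∑ b', F.u (a == a') b b' * ((Vf ρ v k z d a b).re *
      (Vf ρ v k z d a' b').re + (Vf ρ v k z d a b).im * (Vf ρ v k z d a' b').im) ≤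
      ∑ a, ∑ b, Rf ρ v k a b (kq δ z (a == b)) + Er8 ρ v k z d δ := by
    rw [← e9, ← Finset.sum_add_distrib]
    refine Finset.sum_le_sum fun a _ => ?_
    rw [← Finset.sum_add_distrib]
    refine Finset.sum_le_sum fun a' _ => ?_
    rw [e6]
    exact e7 a a'
  simp only [e2] at h1
  have h2 := h1.trans (add_le_add le_rfl e10)
  rw [← add_assoc] at h2
  exact h2

end PLT

end
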