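import Pool.Agent.PLT.FieldP
import Pool.Agent.PHK.ObKer6
import Pool.Agent.PB.WaveE

/-!
# The field of a row at a place is an admissible field

Rows `x : Fin m → ℂ` with heights `≤ 1` and places `≤ R`, `R < 3/2 l`; constants uniform in the
content and the size.

* **`xiA_of`** : `z ↦ m ξ (l + I z)` is a `PBV.XiA` in every strip `|Im z| ≤ bF` with
  `|Re x| + bF ≤ b < l`, rate `32/3`, plateaus `m xiP`, `m xiM`;
* **`fxP6`** : for places `≤ l / 50` it is a `FX6` on the landed wide strips.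
-/

set_option autoImplicit false

noncomputable section

open Complex

namespace PLT.FP

open NUP1 PBForce PBOb

variable {m : ℕ}

lemma sc_m {c a b : ℝ} (hm : 0 < m) (h : a ≤ c / m * b) : (m : ℝ) * a ≤ c * b := by
  have hm' : (0 : ℝ) < m := by exact_mod_cast hm
  calc (m : ℝ) * a ≤ m * (c / m * b) := by gcongr
    _ = c * b := by field_simp

lemma sc_m1 {c a : ℝ} (hm : 0 < m) (h : a ≤ c / m) : (m : ℝ) * a ≤ c := by
  have hm' : (0 : ℝ) < m := by exact_mod_cast hm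
  calc (m : ℝ) * a ≤ m * (c / m) := by gcongr
    _ = c := by field_simp

/-- **the field of the content at the row `i0`**, narrow strips of the second identity -/
theorem xiA_of {b R : ℝ} (hb : b < l) (h0 : 0 ≤ R) (hR : 8 / 3 * R < Real.pi / 2) :
    ∃ K : ℝ, 0 < K ∧ ∀ (m : ℕ) (x : Fin m → ℂ) (i0 : Fin m), Hts x → Plc R x → ∀ bF : ℝ, 0 < bF →
      (∀ i, |(x i).re| + bF ≤ b) →
      PBV.XiA (fun z => m * xiR x i0 (l + I * z)) bF K (32 / 3) (m * xiP x i0) (m * xiM x i0) ∧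
        ‖(m : ℂ) * xiP x i0‖ ≤ K ∧ ‖(m : ℂ) * xiM x i0‖ ≤ K ∧
        ∀ z : ℂ, |z.im| ≤ bF → ‖(m : ℂ) * xiR x i0 (l + I * z)‖ ≤ K := by
  rcases lt_or_ge b 0 with hn | hb0
  · refine ⟨1, one_pos, fun m x i0 _ _ bF h1 h2 => ?_⟩
    have := h2 i0
    have := abs_nonneg (x i0).re
    linarith
  obtain ⟨C1, hC1, h1⟩ := right hb0 hb h0 hR
  obtain ⟨C2, hC2, h2⟩ := left hb0 hb h0 hR
  obtain ⟨C3, hC3, h3⟩ := der hb0 hb h0 hR
  obtain ⟨C4, hC4, h4⟩ := xi_le hb0 hb
  have hk := kR_pos h0 hR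
  refine ⟨C1 + C2 + C3 + C4 + Real.exp (8 / 3) / kR R, by positivity,
    fun m x i0 hx hp bF hF0 hF => ?_⟩
  have hm : 0 < m := i0.pos
  have hmC : ‖(m : ℂ)‖ = m := by simp
  have hE : 0 < Real.exp (8 / 3) / kR R := by positivity
  have hre : ∀ z : ℂ, (l + I * z : ℂ).re = l - z.im := fun z => by simp [sub_eq_add_neg]
  have him : ∀ z : ℂ, (l + I * z : ℂ).im = z.re := fun z => by simp
  have hIns : ∀ z : ℂ, |z.im| ≤ bF → Ins b x (l + I * z) := by
    intro z hz i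
    have e : (l + I * z - l - x i : ℂ).re = -z.im - (x i).re := by
      rw [Complex.sub_re, Complex.sub_re, hre, ofReal_re]
      ring
    rw [e]
    have h5 := abs_sub (-z.im) (x i).re
    rw [abs_neg] at h5
    have := hF i
    linarith
  have hP : ‖(m : ℂ) * xiP x i0‖ ≤ Real.exp (8 / 3) / kR R := by
    rw [norm_mul, hmC]
    exact sc_m1 hm (xiP_le h0 hR hx hp i0)
  have hM : ‖(m : ℂ) * xiM x i0‖ ≤ Real.exp (8 / 3) / kR R := by
    rw [norm_mul, hmC]
    exact sc_m1 hm (xiM_le h0 hR hx hp i0)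
  refine ⟨⟨by positivity, by norm_num, hF0, fun z hz => ?_, fun z hz => ?_, fun z hz hr => ?_,
    fun z hz hr => ?_⟩, by linarith, by linarith, fun z hz => ?_⟩
  · have h5 := dif hb i0 (hIns z hz)
    have h6 : DifferentiableAt ℂ (fun z : ℂ => (l : ℂ) + I * z) z := by fun_prop
    exact (DifferentiableAt.comp (g := xiR x i0) z h5 h6).const_mul _
  · have h5 := dif hb i0 (hIns z hz)
    have h6 : HasDerivAt (fun z : ℂ => (l : ℂ) + I * z) I z := by
      have := ((hasDerivAt_id z).const_mul I).const_add (l : ℂ)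
      rwa [mul_one] at this
    have h7 : HasDerivAt (fun z => (m : ℂ) * xiR x i0 (l + I * z))
        (m * (deriv (xiR x i0) (l + I * z) * I)) z :=
      (HasDerivAt.comp (h₂ := xiR x i0) z h5.hasDerivAt h6).const_mul _
    rw [h7.deriv, norm_mul, hmC, norm_mul, norm_I, mul_one]
    have h8 := sc_m hm (h3 m x i0 hx hp _ (hIns z hz))
    rw [him] at h8
    refine h8.trans ?_
    gcongr
    linarith
  · have e : (m : ℂ) * xiR x i0 (l + I * z) - m * xiP x i0 =
        m * (xiR x i0 (l + I * z) - xiP x i0) := by ring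
    rw [e, norm_mul, hmC]
    have h8 := sc_m hm (h1 m x i0 hx hp _ (hIns z hz) (by rw [him]; exact hr))
    rw [him] at h8
    refine h8.trans ?_
    gcongr
    linarith
  · have e : (m : ℂ) * xiR x i0 (l + I * z) - m * xiM x i0 =
        m * (xiR x i0 (l + I * z) - xiM x i0) := by ring
    rw [e, norm_mul, hmC]
    have h8 := sc_m hm (h2 m x i0 hx hp _ (hIns z hz) (by rw [him]; exact hr))
    rw [him] at h8
    refine h8.trans ?_
    gcongr
    linarith
  · rw [norm_mul, hmC]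
    have := sc_m1 hm (h4 m x i0 hx _ (hIns z hz))
    linarith

/-- **the field of the content at the row `i0`**, landed wide strips, places `≤ l / 50` -/
theorem fxP6 : ∃ C : ℝ, 0 < C ∧ ∀ (m : ℕ) (x : Fin m → ℂ) (i0 : Fin m), Hts x →
    Plc (l / 50) x →
    FX6 (fun u => m * xiR x i0 u) (m * xiP x i0) (m * xiM x i0) C ∧
      ‖(m : ℂ) * xiP x i0 - m * xiM x i0‖ ≤ C ∧ ‖(m : ℂ) * xiP x i0‖ ≤ C ∧
      ‖(m : ℂ) * xiM x i0‖ ≤ C ∧ ∀ u ∈ Fst6, ‖(m : ℂ) * xiR x i0 u‖ ≤ C := by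
  have hl : 0 < l := NUMF.l_pos
  have h0 : 0 ≤ l / 50 := by positivity
  have hR : 8 / 3 * (l / 50) < Real.pi / 2 := by
    unfold l
    have := Real.pi_pos
    linarith
  have hb0 : (0 : ℝ) ≤ 97 / 100 * l := by positivity
  have hb : 97 / 100 * l < l := by linarith
  obtain ⟨C1, hC1, h1⟩ := right hb0 hb h0 hR
  obtain ⟨C2, hC2, h2⟩ := left hb0 hb h0 hR
  obtain ⟨C3, hC3, h3⟩ := der hb0 hb h0 hR
  obtain ⟨C4, hC4, h4⟩ := xi_le hb0 hb
  have hk := kR_pos h0 hR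
  refine ⟨C1 + C2 + C3 + C4 + 2 * (Real.exp (8 / 3) / kR (l / 50)), by positivity,
    fun m x i0 hx hp => ?_⟩
  have hm : 0 < m := i0.pos
  have hmC : ‖(m : ℂ)‖ = m := by simp
  have hE : 0 < Real.exp (8 / 3) / kR (l / 50) := by positivity
  have hee : ∀ t : ℝ, Real.exp (-(32 / 3 * |t|)) ≤ Real.exp (-4 * |t|) := fun t =>
    Real.exp_le_exp.2 (by have := abs_nonneg t; linarith)
  have hIns : ∀ u ∈ FS6, Ins (97 / 100 * l) x u := by
    rintro u ⟨a1, a2⟩ i
    have e : (u - l - x i : ℂ).re = u.re - l - (x i).re := by simp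
    have h5 := abs_le.1 (hp i)
    rw [e, abs_le]
    constructor <;> linarith [h5.1, h5.2]
  have hIn6 : ∀ u ∈ Fst6, Ins (97 / 100 * l) x u := fun u hu => hIns u (Fst_sub_FS6 hu)
  have hP : ‖(m : ℂ) * xiP x i0‖ ≤ Real.exp (8 / 3) / kR (l / 50) := by
    rw [norm_mul, hmC]
    exact sc_m1 hm (xiP_le h0 hR hx hp i0)
  have hM : ‖(m : ℂ) * xiM x i0‖ ≤ Real.exp (8 / 3) / kR (l / 50) := by
    rw [norm_mul, hmC]
    exact sc_m1 hm (xiM_le h0 hR hx hp i0)
  have up : ∀ {c a t : ℝ}, 0 < c → c ≤ C1 + C2 + C3 + C4 + 2 * (Real.exp (8 / 3) / kR (l / 50)) →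
      (m : ℝ) * a ≤ c * Real.exp (-(32 / 3 * |t|)) →
      (m : ℝ) * a ≤ (C1 + C2 + C3 + C4 + 2 * (Real.exp (8 / 3) / kR (l / 50))) *
        Real.exp (-4 * |t|) := by
    intro c a t hc hcc h
    calc (m : ℝ) * a ≤ c * Real.exp (-(32 / 3 * |t|)) := h
      _ ≤ c * Real.exp (-4 * |t|) := mul_le_mul_of_nonneg_left (hee t) hc.le
      _ ≤ _ := mul_le_mul_of_nonneg_right hcc (Real.exp_pos _).le
  refine ⟨⟨fun u hu => ?_, fun u hu => ?_, fun u hu hr => ?_, fun u hu hr => ?_⟩, ?_, by linarith,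
    by linarith, fun u hu => ?_⟩
  · exact ((dif hb i0 (hIns u hu)).const_mul _).differentiableWithinAt
  · rw [deriv_const_mul _ (dif hb i0 (hIn6 u hu)), norm_mul, hmC]
    exact up hC3 (by linarith) (sc_m hm (h3 m x i0 hx hp u (hIn6 u hu)))
  · have e : (m : ℂ) * xiP x i0 - m * xiR x i0 u = -(m * (xiR x i0 u - xiP x i0)) := by ring
    rw [e, norm_neg, norm_mul, hmC]
    exact up hC1 (by linarith) (sc_m hm (h1 m x i0 hx hp u (hIn6 u hu) hr))
  · have e : (m : ℂ) * xiM x i0 - m * xiR x i0 u = -(m * (xiR x i0 u - xiM x i0)) := by ring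
    rw [e, norm_neg, norm_mul, hmC]
    exact up hC2 (by linarith) (sc_m hm (h2 m x i0 hx hp u (hIn6 u hu) hr))
  · exact (norm_sub_le _ _).trans (by linarith)
  · rw [norm_mul, hmC]
    have := sc_m1 hm (h4 m x i0 hx _ (hIn6 u hu))
    linarith

end PLT.FP

end
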