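import Pool.Agent.PLT.GOkC
import Pool.Agent.PLT.HokL

/-!
# Sea on a curve: geometries with rows, ends and atoms

* `HA x a z`: the potential of atoms at a point of the plane; `HP_eq`; `HA_app`; `AtC K δ lo hi x`;
* **`potC_at`**: `PotC` of the curve of TARGET-C from the domination of the one body data in the strip
  `- h ≤ Im z ≤ (7/100) l` by rows, ends `ThN` and atoms; constants uniform in the sea and in the atoms;
* **`gOkF_at`**: `GOkF` for such a family.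
-/

set_option autoImplicit false
set_option linter.unusedSectionVars false

noncomputable section

open MeasureTheory Finset Filter Topology
open scoped ENNReal

open PLX (Fil Ends)

namespace PLT

open PHK hiding mfo6
open PBO.PLX
open NUMF (l l_pos)
open NUGC.PLX (OB ThN pE qE)
open NUO (Xo TW Tb)
open NUSea.PLX.H0 (Gd)
open PotH.PLX (HSk sN)
open PBH (LC)
open PBH.PLX (Atm)

/-! ### atoms -/

/-- **the potential of atoms** at a point of the plane -/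
def HA {n : ℕ} (x : Bool → Fin n → Atm) (a : Bool) (z : ℂ) : ℝ :=
  ∑ i, (x a i).k * (LC (x a i).y1 (x a i).y2 (z - (x a i).c)).re

theorem HP_eq {n : ℕ} (x : Bool → Fin n → Atm) (ζ : Bool → ℝ → ℂ) (a : Bool) (t : ℝ) :
    HP x ζ a t = HA x a (ζ a t) := rfl

/-- two families of atoms -/
theorem HA_append {n n' : ℕ} (x : Bool → Fin n → Atm) (x' : Bool → Fin n' → Atm) (a : Bool) (z : ℂ) :
    HA (fun b => Fin.append (x b) (x' b)) a z = HA x a z + HA x' a z := by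
  unfold HA
  rw [Fin.sum_univ_add]
  simp only [Fin.append_left, Fin.append_right]

theorem HP_append {n n' : ℕ} (x : Bool → Fin n → Atm) (x' : Bool → Fin n' → Atm)
    (ζ : Bool → ℝ → ℂ) (a : Bool) (t : ℝ) :
    HP (fun b => Fin.append (x b) (x' b)) ζ a t = HP x ζ a t + HP x' ζ a t :=
  HA_append x x' a _

/-- **atoms seen from the strip `lo .. hi`** -/
def AtC (K δ lo hi : ℝ) {n : ℕ} (x : Bool → Fin n → Atm) : Prop :=
  ∀ a i, |(x a i).k| ≤ K ∧ Win δ lo hi (x a i).y1 (x a i).y2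

theorem AtC.mono {K K' δ lo hi : ℝ} {n : ℕ} {x : Bool → Fin n → Atm} (h : AtC K δ lo hi x)
    (hK : K ≤ K') : AtC K' δ lo hi x := fun a i => ⟨(h a i).1.trans hK, (h a i).2⟩

theorem AtC.append {K δ lo hi : ℝ} {n n' : ℕ} {x : Bool → Fin n → Atm} {x' : Bool → Fin n' → Atm}
    (h : AtC K δ lo hi x) (h' : AtC K δ lo hi x') :
    AtC K δ lo hi fun b => Fin.append (x b) (x' b) := by
  intro a i
  refine Fin.addCases (fun j => ?_) (fun j => ?_) i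
  · simp only [Fin.append_left]
    exact h a j
  · simp only [Fin.append_right]
    exact h' a j

/-- no atoms -/
theorem AtC.nil (K δ lo hi : ℝ) : AtC K δ lo hi (fun _ : Bool => (Fin.elim0 : Fin 0 → Atm)) :=
  fun _ i => i.elim0

/-- **the potential of the geometry** from the domination in the strip -/
theorem potC_at [Fil] [Ends] (SB : SeaCB) (n : ℕ) {K δ : ℝ} (hK : 0 ≤ K) (hδ : 0 < δ) (hδ1 : δ ≤ 1) :
    ∃ B0 N0 : ℝ, 0 ≤ B0 ∧ 0 ≤ N0 ∧ ∀ e1 : ℝ, 0 < e1 → e1 ≤ 1 / 100 → ∀ J : ℝ, 0 ≤ J →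
    ∃ m0 : ℕ, ∀ m ≥ m0, ∀ [SeaC] [SeaCU SB] (x : Bool → Fin n → Atm),
    AtC K δ (-SB.h) (7 / 100 * l) x → ∀ (B : OB) (V : ℝ),
    (∀ a (z : ℂ), -SB.h ≤ z.im → z.im ≤ 7 / 100 * l → B.R a (l + Complex.I * z) ≤
      2 * Real.cos NUP1.l * Real.exp (Cv.vb (sN m) a z).re * ThN (l + Complex.I * z) *
        Real.exp (HA x a z)) →
    Cv.MF (sN m) + ∑ a, ∫ t, sN m a * Cv.P t * ((NUSp.DD pE qE [] a (Cv.ga t)).re +
      HP x (fun a => Cv.zt (Cv.gD (Fil.cv a (Cv.etaC e1 J m m)))) a t) ≤ V →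
    PotC B0 N0 e1 m (Cv.etaC e1 J m m) B V := by
  obtain ⟨C, hC, HC⟩ := pthA_cur SB
  obtain ⟨B0, N0, A0, hB0, hN0, hA0, H⟩ := hok_path n (K := C) (Kc := K) (δ := δ)
    (by linarith) hK hδ hδ1
  refine ⟨B0, N0, hB0, hN0, fun e1 he he1 J hJ => ?_⟩
  obtain ⟨m1, hm1⟩ := @PBH.PLX.eventually_small NUSea.seaP e1 (1 / C) A0 he (by positivity)
  obtain ⟨Cc, hCc, m2, hm2, hcrv⟩ := exists_crvC SB (J := J) he he1 hJ
  refine ⟨max m1 m2, fun m hm S hS x hx B V hR hV => ?_⟩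
  obtain ⟨a1, a2⟩ := hm1 m ((le_max_left _ _).trans hm)
  obtain ⟨hT, hη⟩ := hcrv m ((le_max_right _ _).trans hm)
  obtain ⟨ε, e, hcur, hε0, hε1, hε2⟩ := hη.cur
  have hCε : C * ε ≤ 1 := by
    have h1 : ε ≤ 1 / C := hε1.trans a1
    rw [le_div_iff₀ (by linarith)] at h1
    linarith
  have hp : ∀ a, PthA C (-SB.h) (7 / 100 * l) (Cv.zt (Cv.gD (Fil.cv a (Cv.etaC e1 J m m))))
      (Cv.zd (Cv.gD1 (Fil.cv a (Cv.etaC e1 J m m)) (Fil.cv a (Cv.etaC' e1 J m m)))) := fun a =>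
    HC (Nat.cast_nonneg m) hCε (cur_cvC hcur a) (hasDerivAt_cvC hη.d a)
  refine ⟨HP x fun a => Cv.zt (Cv.gD (Fil.cv a (Cv.etaC e1 J m m))),
    HP' x (fun a => Cv.zt (Cv.gD (Fil.cv a (Cv.etaC e1 J m m))))
      fun a => Cv.zd (Cv.gD1 (Fil.cv a (Cv.etaC e1 J m m)) (Fil.cv a (Cv.etaC' e1 J m m))),
    fun d hd => (H hx hp d _ _ hd a2).hsk, fun a t => ?_, hV⟩
  have e0 : ptC (dsp (Cv.etaC e1 J m m)) a t =
    l + Complex.I * Cv.zt (Cv.gD (Fil.cv a (Cv.etaC e1 J m m))) t := ptC_dsp _ a t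
  rw [e0]
  exact hR a _ ((hp a).ge t) ((hp a).le t)

/-! ### families -/

variable [Fil] [Ends]

/-- **geometries with rows, ends and atoms**: uniformly in a family -/
theorem gOkF_at {SB : SeaCB} {P : Par6} {en : EnC} {ι : Type*} {ok : ℕ → ι → Prop}
    {S : ℕ → ι → SeaC} {G : ι → GeoC} {n : ℕ} {K δ : ℝ} (hK : 0 ≤ K) (hδ : 0 < δ) (hδ1 : δ ≤ 1)
    {x : ℕ → ι → Bool → Fin n → Atm}
    (sea : ∃ m0 : ℕ, ∀ m ≥ m0, ∀ i, ok m i → @SeaCU SB (S m i))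
    (crv : ∃ m0 : ℕ, ∀ m ≥ m0, ∀ i, ok m i → ∀ e1 J : ℝ,
      (G i).D e1 J m = @dsp (S m i) _ (@Cv.etaC (S m i) e1 J m m) ∧
      (G i).D1 e1 J m = @dsp1 (S m i) _ (@Cv.etaC (S m i) e1 J m m) (@Cv.etaC' (S m i) e1 J m m))
    (hen : ∃ m0 : ℕ, ∀ m ≥ m0, ∀ i, ok m i → ∀ (r : ℕ) (O : Fin r → Xo),
      en (S m i) r O ≤ (G i).en m r O)
    (nn : ∀ m i β, ((G i).B m β).Nn)
    (hx : ∃ m0 : ℕ, ∀ m ≥ m0, ∀ i, ok m i → AtC K δ (-SB.h) (7 / 100 * l) (x m i))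
    (hR : ∃ m0 : ℕ, ∀ m ≥ m0, ∀ i, ok m i → ∀ (β : ℝ) a (z : ℂ), -SB.h ≤ z.im →
      z.im ≤ 7 / 100 * l → ((G i).B m β).R a (l + Complex.I * z) ≤
      2 * Real.cos NUP1.l * Real.exp (@Cv.vb (S m i) (sN m) a z).re * ThN (l + Complex.I * z) *
        Real.exp (HA (x m i) a z))
    (hEM : ∀ e1 : ℝ, 0 < e1 → e1 ≤ 1 / 100 → ∀ J : ℝ, 0 ≤ J → ∃ CH : ℝ, ∃ m0 : ℕ, ∀ m ≥ m0,
      ∀ i, ok m i → @Cv.MF (S m i) (sN m) + ∑ a, ∫ t, sN m a * @Cv.P (S m i) t *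
        ((NUSp.DD pE qE [] a (@Cv.ga (S m i) t)).re + HP (x m i)
          (fun a => @Cv.zt (S m i) (@Cv.gD (S m i) (Fil.cv a (@Cv.etaC (S m i) e1 J m m)))) a t) ≤
        (G i).EM m + CH)
    (hcut : ∀ ep : ℝ, 0 < ep → ep ≤ 1 / 100 → ∀ e1 : ℝ, 0 < e1 → e1 ≤ 1 / 100 → ∀ J : ℝ, 0 ≤ J →
      ∃ C0 : ℝ, 1 ≤ C0 ∧ ∃ m0 : ℕ, ∀ m ≥ m0, ∀ i, ok m i →
        @CutBC (S m i) _ ep e1 C0 m (@Cv.etaC (S m i) e1 J m m) ((G i).B m (4 / 3 * (1 - ep))))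
    (hone : ∃ K1 : ℝ, 0 ≤ K1 ∧ ∀ ep : ℝ, 0 < ep → ep ≤ 1 / 100 → ∀ e1 : ℝ, 0 < e1 →
      e1 ≤ 1 / 100 → ∀ J : ℝ, 0 ≤ J → ∃ m0 : ℕ, ∀ m ≥ m0, ∀ i, ok m i →
      ∀ (r : ℕ) (O : Fin r → Xo) (j : Fin r),
        @oneHC (S m i) _ _ P m (@Cv.etaC (S m i) e1 J m m) (TW ep e1 m) r O j ≤
          (G i).one m ep e1 J r O j + K1)
    (hMF : ∃ C : ℝ, 0 ≤ C ∧ ∃ m0 : ℕ, ∀ m ≥ m0, ∀ i, ok m i → ∀ g : Gd,
      @seaGC (S m i) (sN m) g ≤ (G i).MF m g.σ g.c g.w + C) :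
    GOkF SB P en ok S G where
  sea := sea
  crv := crv
  en := hen
  nn := nn
  pot := by
    obtain ⟨B0, N0, hB0, hN0, H⟩ := potC_at SB n hK hδ hδ1
    refine ⟨B0, N0, hB0, hN0, fun ep hep hep1 e1 he he1 J hJ => ?_⟩
    obtain ⟨m1, H⟩ := H e1 he he1 J hJ
    obtain ⟨CH, m2, hEM⟩ := hEM e1 he he1 J hJ
    obtain ⟨m3, sea⟩ := sea
    obtain ⟨m4, hx⟩ := hx
    obtain ⟨m5, hR⟩ := hR
    refine ⟨CH, max m1 (max (max m2 m3) (max m4 m5)), fun m hm i hi => ?_⟩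
    simp only [ge_iff_le, max_le_iff] at hm
    obtain ⟨b1, ⟨b2, b3⟩, b4, b5⟩ := hm
    exact @H m b1 (S m i) (sea m b3 i hi) (x m i) (hx m b4 i hi) _ _ (hR m b5 i hi _)
      (hEM m b2 i hi)
  cut := hcut
  one := hone
  MF := hMF

end PLT

end
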