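import Pool.Agent.PLT.GMode
import Pool.Agent.NUDi.CutN

/-!
# THETA B1a: modes with the weight of the rest

The cut of the rest of the static kernels is `b = cs * wc c`, `cs` a cut function with slope at most one; `Qt_w`:
energy of its modes; `lin_w`: linear coefficients; `expF_d`, `expF_r`: exponential moments.
-/

set_option autoImplicit false

open MeasureTheory Set Filter Topology
open scoped Real ENNReal

namespace PLT.Gs

open NUH0
open NUMF NUWC NUC37 NUKer NUDi NUMFC

noncomputable section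

/-! ### the weight `1 / cosh (c t)` -/

variable {c : ℝ}

theorem wc_pos (c t : ℝ) : 0 < wc c t := by
  unfold wc
  have := Real.cosh_pos (c * t)
  positivity

theorem wc_le_one (c t : ℝ) : wc c t ≤ 1 := by
  unfold wc
  rw [div_le_one (Real.cosh_pos _)]
  exact Real.one_le_cosh _

theorem wc_ex2 (hc : 0 ≤ c) (t : ℝ) : wc c t ≤ 2 * Real.exp (-c * |t|) := by
  unfold wc
  rw [div_le_iff₀ (Real.cosh_pos _), ← Real.cosh_abs, abs_mul, abs_of_nonneg hc, Real.cosh_eq]
  have h1 : Real.exp (-c * |t|) * Real.exp (c * |t|) = 1 := by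
    rw [← Real.exp_add]
    simp
  have h2 := Real.exp_pos (-c * |t|)
  have h3 := Real.exp_pos (-(c * |t|))
  nlinarith [mul_pos h2 h3]

/-- the derivative -/
def wc' (c t : ℝ) : ℝ := -(Real.sinh (c * t) * c) / Real.cosh (c * t) ^ 2

theorem wc_hd (c t : ℝ) : HasDerivAt (wc c) (wc' c t) t := by
  have h1 : HasDerivAt (fun t => Real.cosh (c * t)) (Real.sinh (c * t) * c) t := by
    have := ((hasDerivAt_id t).const_mul c).cosh
    simpa using this
  have h2 := h1.inv (Real.cosh_pos _).ne'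
  have e : wc c = fun t => (Real.cosh (c * t))⁻¹ := by
    funext t
    unfold wc
    rw [one_div]
  rw [e]
  exact h2

theorem wc_cont (c : ℝ) : Continuous (wc c) :=
  continuous_iff_continuousAt.2 fun t => (wc_hd c t).continuousAt

theorem wc'_cont (c : ℝ) : Continuous (wc' c) := by
  unfold wc'
  have h : ∀ x : ℝ, Real.cosh (c * x) ^ 2 ≠ 0 := fun x => pow_ne_zero _ (Real.cosh_pos _).ne'
  have c1 := Real.continuous_sinh
  have c2 := Real.continuous_cosh
  exact Continuous.div (by fun_prop) (by fun_prop) h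

theorem wc'_abs (hc : 0 ≤ c) (t : ℝ) : |wc' c t| ≤ c * wc c t := by
  unfold wc' wc
  have h0 := Real.cosh_pos (c * t)
  have h1 : |Real.sinh (c * t)| ≤ Real.cosh (c * t) := by
    rw [← abs_of_pos h0, ← sq_le_sq]
    have := Real.cosh_sq (c * t)
    linarith
  rw [abs_div, abs_neg, abs_mul, abs_of_nonneg hc, abs_of_pos (pow_pos h0 2), div_le_iff₀ (pow_pos h0 2)]
  have e : c * (1 / Real.cosh (c * t)) * Real.cosh (c * t) ^ 2 = c * Real.cosh (c * t) := by
    field_simp
  rw [e]
  nlinarith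

/-- the square integral -/
def Iw (c : ℝ) : ℝ := ∫ t, wc c t ^ 2

theorem wc_sq_int (hc : 0 < c) : Integrable fun t => wc c t ^ 2 := by
  have h1 := (NUAct.int_exp_abs' (κ := c) hc).const_mul 2
  refine h1.mono' ((wc_cont c).pow 2).aestronglyMeasurable (ae_of_all _ fun t => ?_)
  have h2 := wc_ex2 hc.le t
  have h3 := wc_le_one c t
  have h4 := wc_pos c t
  rw [Real.norm_eq_abs, abs_of_nonneg (sq_nonneg _)]
  nlinarith

theorem Iw_nonneg (c : ℝ) : 0 ≤ Iw c := integral_nonneg fun t => sq_nonneg _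

/-! ### the cut -/

/-- the cut of the rest -/
structure CutR (R c : ℝ) (b b' cs : ℝ → ℝ) : Prop where
  der : ∀ x, HasDerivAt b (b' x) x
  cont' : Continuous b'
  le : ∀ x, |b x| ≤ wc c x
  le' : ∀ x, |b' x| ≤ (1 + c) * wc c x
  eq : ∀ x, b x = cs x * wc c x
  s0 : ∀ x, 0 ≤ cs x
  s1 : ∀ x, cs x ≤ 1
  one : ∀ x, |x| ≤ R → cs x = 1

theorem CutR.cont {R c : ℝ} {b b' cs : ℝ → ℝ} (h : CutR R c b b' cs) : Continuous b :=
  continuous_iff_continuousAt.2 fun x => (h.der x).continuousAt

theorem exists_cutR (hc : 0 ≤ c) {R : ℝ} (hR : 0 ≤ R) : ∃ (N : ℝ) (b b' cs : ℝ → ℝ), 1 ≤ N ∧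
    Cutf (R + N) b ∧ CutR R c b b' cs := by
  obtain ⟨N, hN1, hN⟩ := exists_cutN
  obtain ⟨h1, h2, h3, h4, h5, h6, h7⟩ := hN R hR
  have hd : ∀ x, HasDerivAt (fun x => cN N R x * wc c x) (cN1 N R x * wc c x + cN N R x * wc' c x) x :=
    fun x => (h2 x).mul (wc_hd c x)
  have hle : ∀ x, |cN N R x * wc c x| ≤ wc c x := fun x => by
    rw [abs_mul, abs_of_pos (wc_pos c x)]
    exact mul_le_of_le_one_left (wc_pos c x).le (h1.le x)
  refine ⟨N, fun x => cN N R x * wc c x, fun x => cN1 N R x * wc c x + cN N R x * wc' c x, cN N R, hN1,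
    ⟨h1.R0, continuous_iff_continuousAt.2 fun x => (hd x).continuousAt, fun x => (hle x).trans (wc_le_one c x),
      fun x hx => by simp only [h1.zero x hx, zero_mul]⟩, ?_⟩
  refine ⟨hd, ?_, hle, fun x => ?_, fun x => rfl, h5, h6, h7⟩
  · have c1 := wc_cont c
    have c2 := wc'_cont c
    have c3 := h1.cont
    fun_prop
  · have w0 := wc_pos c x
    have w1 := wc'_abs hc x
    refine (abs_add_le _ _).trans ?_
    rw [abs_mul, abs_mul, abs_of_pos w0]
    calc |cN1 N R x| * wc c x + |cN N R x| * |wc' c x| ≤ 1 * wc c x + 1 * (c * wc c x) := by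
          gcongr
          · exact h4 x
          · exact h1.le x
      _ = _ := by ring

/-- the energy constant of the modes of the rest -/
def Qr (c : ℝ) : ℝ := (6 + c) * Iw c + 1

theorem Qr_pos (hc : 0 ≤ c) : 1 ≤ Qr c := by
  have := mul_nonneg (by linarith : 0 ≤ 6 + c) (Iw_nonneg c)
  unfold Qr
  linarith

/-- square integral of a function below a multiple of the weight -/
theorem int_sq_w {L C : ℝ} (hL : 0 < L) (hc : 0 < c) (hC : 0 ≤ C) {h : ℝ → ℝ}
    (hcn : ContinuousOn h (Icc (-(L / 2)) (L / 2))) (hb : ∀ x, |h x| ≤ C * wc c x) :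
    ∫ x in (-(L / 2))..(L / 2), h x ^ 2 ≤ C ^ 2 * Iw c := by
  have hle : -(L / 2) ≤ L / 2 := by linarith
  have hi : Integrable fun x => C ^ 2 * wc c x ^ 2 := (wc_sq_int hc).const_mul _
  rw [intervalIntegral.integral_of_le hle]
  have h1 : ∫ x in Ioc (-(L / 2)) (L / 2), h x ^ 2 ≤ ∫ x in Ioc (-(L / 2)) (L / 2), C ^ 2 * wc c x ^ 2 := by
    refine setIntegral_mono_on ?_ hi.integrableOn measurableSet_Ioc fun x _ => ?_
    · exact ((hcn.pow 2).integrableOn_Icc).mono_set Ioc_subset_Icc_self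
    · rw [← sq_abs, ← mul_pow]
      gcongr
      exact hb x
  refine h1.trans ((setIntegral_le_integral hi (ae_of_all _ fun x => ?_)).trans (le_of_eq ?_))
  · show 0 ≤ C ^ 2 * wc c x ^ 2
    positivity
  · rw [integral_const_mul]
    rfl

/-- energy of the modes of the rest -/
theorem Qt_w {G L T R a : ℝ} (hG : 9 ≤ G) (hL : 0 < L) (hT : 2 * T + 2 ≤ L) (hc : 0 < c)
    {b b' cs : ℝ → ℝ} (hb : CutR R c b b' cs) {e e' : ℝ → ℝ}
    (he : ∀ x, HasDerivAt e (e' x) x) (he' : Continuous e') (he1 : ∀ x, |e x| ≤ 1)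
    (he2 : ∀ x, |e' x| ≤ |a|) :
    Qt G L (fun x => chi T x * (b x * e x)) ≤ Qr c * (1 + |a|) := by
  have hbc := hb.cont
  have hec : Continuous e := continuous_iff_continuousAt.2 fun x => (he x).continuousAt
  have h := mode_C1P hL hT hb.der hb.cont' he he'
  have ha := abs_nonneg a
  have hI := Iw_nonneg c
  have h1 : ∫ x in (-(L / 2))..(L / 2), (chi T x * (b x * e x)) ^ 2 ≤ 1 ^ 2 * Iw c := by
    refine int_sq_w hL hc zero_le_one h.cont fun x => ?_
    have w0 := wc_pos c x
    rw [abs_mul, abs_mul]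
    calc |chi T x| * (|b x| * |e x|) ≤ 1 * (wc c x * 1) := by
          gcongr
          · exact chi_abs T x
          · exact hb.le x
          · exact he1 x
      _ = _ := by ring
  have h2 : ∫ x in (-(L / 2))..(L / 2),
      (chi' T x * (b x * e x) + chi T x * (b' x * e x + b x * e' x)) ^ 2 ≤ (4 + c + |a|) ^ 2 * Iw c := by
    refine int_sq_w hL hc (by positivity) h.cont' fun x => ?_
    have w0 := wc_pos c x
    have a1 := chi_abs T x
    have a1' := chi'_abs T x
    have a2 := hb.le x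
    have a2' := hb.le' x
    have a3 := he1 x
    have a3' := he2 x
    calc |chi' T x * (b x * e x) + chi T x * (b' x * e x + b x * e' x)| ≤
        |chi' T x * (b x * e x)| + |chi T x * (b' x * e x + b x * e' x)| := abs_add_le _ _
      _ ≤ |chi' T x| * (|b x| * |e x|) + |chi T x| * (|b' x| * |e x| + |b x| * |e' x|) := by
          rw [abs_mul, abs_mul, abs_mul (chi T x)]
          gcongr
          refine (abs_add_le _ _).trans ?_
          rw [abs_mul, abs_mul]
      _ ≤ 3 * (wc c x * 1) + 1 * ((1 + c) * wc c x * 1 + wc c x * |a|) := by gcongr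
      _ = _ := by ring
  have h3 := Qt_le hG hL h
  have h4 : √((∫ x in (-(L / 2))..(L / 2), (chi T x * (b x * e x)) ^ 2) *
      ∫ x in (-(L / 2))..(L / 2), (chi' T x * (b x * e x) + chi T x * (b' x * e x + b x * e' x)) ^ 2) ≤
      Iw c * (4 + c + |a|) := by
    rw [Real.sqrt_le_left (by positivity)]
    calc _ ≤ (1 ^ 2 * Iw c) * ((4 + c + |a|) ^ 2 * Iw c) := by
          gcongr
          exact intervalIntegral.integral_nonneg (by linarith) fun x _ => sq_nonneg _
      _ = _ := by ring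
  unfold Qr
  have h5 : Iw c * (4 + c + |a|) + 3 / 2 * Iw c ≤ (6 + c) * Iw c * (1 + |a|) := by
    have h6 : 0 ≤ Iw c * |a| := mul_nonneg hI ha
    have h7 : 0 ≤ c * (Iw c * |a|) := mul_nonneg hc.le h6
    nlinarith
  linarith

/-- the linear coefficient: `|f| ≤ w ≤ 1` -/
theorem lin_w {T L : ℝ} (hT : 0 < T) (hTL : 2 * T + 2 ≤ L) {ρ ρν w : ℝ → ℝ}
    (hρ : Integrable ρ) (hν : Integrable ρν) {f : ℝ → ℝ} (hf : Continuous f) (hwc : Continuous w)
    (hw1 : ∀ x, w x ≤ 1) (hfw : ∀ x, |f x| ≤ w x)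
    {m2 δ2 : ℝ} (h2 : ∫ x, w x * |ρ x - ρν x| ≤ m2) (h3 : ∫ x in {x | T ≤ |x|}, |ρν x| ≤ δ2) :
    |(∫ t in (-(L / 2))..(L / 2), ρ t * (chi T t * f t)) - ∫ t, f t * ρν t| ≤ m2 + δ2 := by
  have hle : -(L / 2) ≤ L / 2 := by linarith
  have hw0 : ∀ x, 0 ≤ w x := fun x => (abs_nonneg _).trans (hfw x)
  have hf1 : ∀ x, |f x| ≤ 1 := fun x => (hfw x).trans (hw1 x)
  have e1 : (∫ t in (-(L / 2))..(L / 2), ρ t * (chi T t * f t)) = ∫ t, ρ t * (chi T t * f t) := by
    rw [intervalIntegral.integral_of_le hle]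
    refine setIntegral_eq_integral_of_forall_compl_eq_zero fun x hx => ?_
    rw [chi_out, zero_mul, mul_zero]
    by_contra h
    push Not at h
    rw [abs_lt] at h
    exact hx ⟨by linarith, by linarith⟩
  have hcb : ∀ x, |chi T x * f x| ≤ w x := fun x => by
    rw [abs_mul]
    calc |chi T x| * |f x| ≤ 1 * w x := by
          gcongr
          · exact chi_abs T x
          · exact hfw x
      _ = w x := one_mul _
  have hcb1 : ∀ x, |chi T x * f x| ≤ 1 := fun x => (hcb x).trans (hw1 x)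
  have hcc := chi_cont T
  have i1 : Integrable fun t => (ρ t - ρν t) * (chi T t * f t) :=
    (hρ.sub hν).mul_bdd (c := 1) (Continuous.aestronglyMeasurable (by fun_prop))
      (Eventually.of_forall fun x => by rw [Real.norm_eq_abs]; exact hcb1 x)
  have hcb2 : ∀ x, |(chi T x - 1) * f x| ≤ {x | T ≤ |x|}.indicator (fun _ => (1 : ℝ)) x := by
    intro x
    by_cases hx : T ≤ |x|
    · rw [indicator_of_mem (show x ∈ {x | T ≤ |x|} from hx), abs_mul]
      have a1 := chi_abs T x
      have a2 : 0 ≤ chi T x := by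
        unfold chi
        exact mul_nonneg (cutS_nonneg _) (cutS_nonneg _)
      have a3 := abs_le.1 a1
      have a4 : |chi T x - 1| ≤ 1 := abs_le.2 ⟨by linarith, by linarith⟩
      calc |chi T x - 1| * |f x| ≤ 1 * 1 := by
            gcongr
            exact hf1 x
        _ = 1 := by norm_num
    · rw [indicator_of_notMem (show x ∉ {x | T ≤ |x|} from hx), chi_in (le_of_not_ge hx)]
      simp
  have i2 : Integrable fun t => ρν t * ((chi T t - 1) * f t) :=
    hν.mul_bdd (c := 1) (Continuous.aestronglyMeasurable (by fun_prop))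
      (Eventually.of_forall fun x => by
        rw [Real.norm_eq_abs]
        refine (hcb2 x).trans ?_
        exact indicator_le_self' (fun _ _ => zero_le_one) _)
  have i3 : Integrable fun t => ρ t * (chi T t * f t) :=
    hρ.mul_bdd (c := 1) (Continuous.aestronglyMeasurable (by fun_prop))
      (Eventually.of_forall fun x => by rw [Real.norm_eq_abs]; exact hcb1 x)
  have i4 : Integrable fun t => f t * ρν t :=
    hν.bdd_mul (c := 1) hf.aestronglyMeasurable
      (Eventually.of_forall fun x => by rw [Real.norm_eq_abs]; exact hf1 x)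
  have i5 : Integrable fun x => w x * |ρ x - ρν x| :=
    (hρ.sub hν).abs.bdd_mul (c := 1) hwc.aestronglyMeasurable
      (Eventually.of_forall fun x => by rw [Real.norm_eq_abs, abs_of_nonneg (hw0 x)]; exact hw1 x)
  have e2 : (∫ t, ρ t * (chi T t * f t)) - ∫ t, f t * ρν t =
      (∫ t, (ρ t - ρν t) * (chi T t * f t)) + ∫ t, ρν t * ((chi T t - 1) * f t) := by
    rw [← integral_sub i3 i4, ← integral_add i1 i2]
    congr 1
    funext t
    ring
  rw [e1, e2]
  refine (abs_add_le _ _).trans (add_le_add ?_ ?_)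
  · refine le_trans ?_ h2
    rw [← Real.norm_eq_abs]
    refine (norm_integral_le_integral_norm _).trans ?_
    refine integral_mono i1.norm i5 fun x => ?_
    show ‖(ρ x - ρν x) * (chi T x * f x)‖ ≤ w x * |ρ x - ρν x|
    rw [norm_mul, Real.norm_eq_abs, Real.norm_eq_abs, mul_comm]
    exact mul_le_mul_of_nonneg_right (hcb x) (abs_nonneg _)
  · refine le_trans ?_ h3
    rw [← Real.norm_eq_abs]
    refine (norm_integral_le_integral_norm _).trans ?_
    have hS : MeasurableSet {x : ℝ | T ≤ |x|} := measurableSet_le measurable_const (by fun_prop)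
    rw [← integral_indicator hS]
    refine integral_mono i2.norm (hν.abs.indicator hS) fun x => ?_
    rw [norm_mul, Real.norm_eq_abs, Real.norm_eq_abs]
    have h5 := hcb2 x
    by_cases hx : x ∈ {x : ℝ | T ≤ |x|}
    · rw [indicator_of_mem hx] at h5 ⊢
      exact mul_le_of_le_one_right (abs_nonneg _) h5
    · rw [indicator_of_notMem hx] at h5 ⊢
      have : |(chi T x - 1) * f x| = 0 := le_antisymm h5 (abs_nonneg _)
      rw [this, mul_zero]

/-! ### the two families of modes -/

variable {N : ℕ} {h : Fin N → Bool → ℝ → ℝ} {M : ℝ} {X : Dat} {tc Cκ : ℝ} {p n : ℕ}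
  {T T0 δ η : ℝ} {Sm : Fin N → Fin N → ℝ} {θ e K Cf : ℝ}

/-- the modes of the moving kernels -/
theorem expF_d (hG : Geo X tc Cκ) (hR : RegT X T0 δ) (hT0 : 0 < T) (hT : T0 ≤ T) (hη : 0 < η)
    (hfr : Fr h Sm M θ η T e K Cf) {R m2 δ2 : ℝ} {bb bb' : ℝ → ℝ} (hb : Cut1 R bb bb')
    (hm2 : ∀ a, ∫ t in {t | |t| ≤ R}, |X.μ a t| ≤ m2) (hδ2 : ∀ a, ∫ t in {t | T ≤ |t|}, |X.ρ a t| ≤ δ2)
    (k : Bool) :
    ExpF volume (WW X h Sm T p n) bb (X.ρ k) (spF p n k) (BW X T0 δ T η Cf p n)
      (2 * (2 + 1 / η) * (11 * R)) ((m2 + δ2) ^ 2) := by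
  have hL := Lw_pos hT0.le
  have hTL : 2 * T + 2 ≤ Lw T := by linarith [Lw_ge hT0.le]
  have h1 := hb.one
  refine expF_gen (ρν := X.ρ) hG hR hT0 hT hη hfr hb.der hb.cont' (fun a e e' he he' he1 he2 => ?_)
    (fun k e hec he1 => ?_) ?_ k
  · exact mode_Qt (Gw_ge hT0.le) hL hTL (by linarith) hb.der hb.cont' hb.cutf.le hb.le'
      (fun x _ hx => hb.cutf.zero x hx) (fun x _ hx => deriv_zero hb.cutf hb.der hx) he he' he1 he2
  · have h2 := lin_le_R (R := R) (L := Lw T) hT0 hTL (rm_int hG hR.toReg k) (hG.ρi k)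
      (f := fun x => bb x * e x) (hb.cutf.cont.mul hec) (fun x => by
        rw [abs_mul]
        calc |bb x| * |e x| ≤ 1 * 1 := by
              gcongr
              · exact hb.cutf.le x
              · exact he1 x
          _ = 1 := by norm_num) (fun x hx => by
        show bb x * e x = 0
        rw [hb.cutf.zero x hx, zero_mul]) (m2 := m2) (by
        refine le_trans (le_of_eq ?_) (hm2 k)
        congr 1
        funext t
        unfold rm
        congr 1
        ring) (hδ2 k)
    exact h2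
  · have h3 : 0 < 1 / η := by positivity
    nlinarith

/-- the modes of the rest of the static kernels -/
theorem expF_r (hG : Geo X tc Cκ) (hR : RegT X T0 δ) (hT0 : 0 < T) (hT : T0 ≤ T) (hη : 0 < η)
    (hfr : Fr h Sm M θ η T e K Cf) {R c m3 : ℝ} (hc : 0 < c) {b b' cs : ℝ → ℝ} (hb : CutR R c b b' cs)
    (hm3 : ∀ a, ∫ t, wc c t * |X.μ a t - X.r a t| ≤ m3) (k : Bool) :
    ExpF volume (WW X h Sm T p n) b (rr X k) (spF p n k) (BW X T0 δ T η Cf p n)
      (2 * (2 + 1 / η) * Qr c) ((m3 + 2) ^ 2) := by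
  have hL := Lw_pos hT0.le
  have hTL : 2 * T + 2 ≤ Lw T := by linarith [Lw_ge hT0.le]
  have hQ := Qr_pos hc.le
  refine expF_gen (ρν := rr X) hG hR hT0 hT hη hfr hb.der hb.cont' (fun a e e' he he' he1 he2 => ?_)
    (fun k e hec he1 => ?_) ?_ k
  · exact Qt_w (Gw_ge hT0.le) hL hTL hc hb he he' he1 he2
  · have htl := (hR.tlr hG k).win hT
    have h3 : ∫ x in {x | T ≤ |x|}, |rr X k x| ≤ 2 := by
      refine (NUH0.tail2 (T := T) (c := δ * Real.exp (-(T - T0))) (mul_nonneg hR.δ0 (Real.exp_pos _).le)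
        htl.i (fun x hx => htl.t x hx)).trans ?_
      have := hR.dT_le hT
      unfold dT at this
      linarith
    have h2 := lin_w (L := Lw T) hT0 hTL (rm_int hG hR.toReg k) (rr_int hG hR.toReg k) (w := wc c)
      (f := fun x => b x * e x) (hb.cont.mul hec) (wc_cont c) (wc_le_one c) (fun x => by
        rw [abs_mul]
        calc |b x| * |e x| ≤ wc c x * 1 := by
              have := (wc_pos c x).le
              gcongr
              · exact hb.le x
              · exact he1 x
          _ = _ := mul_one _) (m2 := m3) (by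
        refine le_trans (le_of_eq ?_) (hm3 k)
        congr 1
        funext t
        unfold rm rr
        congr 2
        ring) h3
    exact h2
  · have h3 : 0 < 1 / η := by positivity
    nlinarith

end

end PLT.Gs
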