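import Pool.Agent.NU42.Split
import Pool.Agent.NU42.NuF
import Pool.Agent.NUMFC.Const
import Pool.Agent.NUDi.F2

/-!
# THETA B1a: data of the positive gas on a static curve

Abstract data (no class of seas): `s a` rows of the species `a`, profile `P`, sea `ρ a = s a P`; `D`, `D1` the
total displacement from the real line and its derivative, `κ` its kernels, `ks` the static kernels,
`kd = κ - ks` the moving ones; `pot` one body exponents, `lin`, `S` potential and constant of the action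
identity; `E` real potentials; `τ` the density of the splitting, `μ`, `r` densities of the objects (`μ` for
`V`, `r` for the static kernels), `φ` the remainder:
`lin ∓ log g * τ + E + ks * r = V * μ + φ`.

`StK`: the static kernels are a form of finite rank in the fields `V * h i` plus a small smooth kernel.
-/

set_option autoImplicit false

open MeasureTheory Set Filter Topology

namespace PLT.Gs

open NUMF NUKer NU42

noncomputable section

/-- data -/
structure Dat where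
  /-- row numbers -/
  s : Bool → ℝ
  /-- profile of the sea -/
  P : ℝ → ℝ
  /-- total displacement -/
  D : Bool → ℝ → ℂ
  /-- its derivative -/
  D1 : Bool → ℝ → ℂ
  /-- static kernels -/
  ks : Bool → Bool → ℝ → ℝ → ℝ
  /-- one body exponents -/
  pot : Bool → ℝ → ℝ
  /-- potentials of the action identity -/
  lin : Bool → ℝ → ℝ
  /-- real potentials -/
  E : Bool → ℝ → ℝ
  /-- constant of the action identity -/
  S : ℝ
  /-- density of the splitting -/
  τ : ℝ → ℝ
  /-- densities of the objects for `V` -/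
  μ : Bool → ℝ → ℝ
  /-- densities of the objects for the static kernels -/
  r : Bool → ℝ → ℝ
  /-- remainder -/
  φ : Bool → ℝ → ℝ
  /-- its derivative -/
  φ' : Bool → ℝ → ℝ

/-- the form of all species, centre `ρ` -/
def NF {p n : ℕ} (ρ : Bool → ℝ → ℝ) (κ : Bool → Bool → ℝ → ℝ → ℝ) (t : Fin p → ℝ) (t' : Fin n → ℝ) : ℝ :=
  nuF2 (ρ true) (ρ true) t t (κ true true) + nuF2 (ρ true) (ρ false) t t' (κ true false) +
    (nuF2 (ρ false) (ρ true) t' t (κ false true) + nuF2 (ρ false) (ρ false) t' t' (κ false false))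

namespace Dat

variable (X : Dat)

/-- density of the sea of a species -/
def ρ (a : Bool) (t : ℝ) : ℝ := X.s a * X.P t

/-- the kernels of the total displacement -/
def κ (a b : Bool) : ℝ → ℝ → ℝ := if a = b then kw (X.D a) (X.D1 a) else kg (X.D a) (X.D b)

/-- the moving kernels -/
def kd (a b : Bool) (t t' : ℝ) : ℝ := X.κ a b t t' - X.ks a b t t'

/-- sign of the species -/
def sg (a : Bool) : ℝ := if a then 1 else -1

/-- `log g * τ` -/
def Gt (t : ℝ) : ℝ := ∫ u, X.τ u * Real.log (g (t - u))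

/-- `V * μ` -/
def Vm (a : Bool) (t : ℝ) : ℝ := ∫ u, X.μ a u * V (t - u)

/-- `V * P` -/
def VP (t : ℝ) : ℝ := ∫ u, X.P u * V (t - u)

/-- `log g * P` -/
def GP (t : ℝ) : ℝ := ∫ u, X.P u * Real.log (g (t - u))

/-- the potential of the sea (straight kernels) on a species -/
def vr (a : Bool) (t : ℝ) : ℝ := X.s a * X.VP t + sg a * ((X.s true - X.s false) * X.GP t)

/-- the static kernels on the densities `r` -/
def Kr (a : Bool) (t : ℝ) : ℝ := ∑ b, ∫ u, X.ks a b t u * X.r b u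

/-- the mean field constant of the straight kernels -/
def M0 : ℝ := 1 / 2 * ((X.s true ^ 2 + X.s false ^ 2) * ∫ t, X.P t * X.VP t) +
  1 / 2 * ((X.s true - X.s false) ^ 2 * ∫ t, X.P t * X.GP t)

/-- mean field exponent of the gas with `p + n` quanta (no activities) -/
def Mp (p n : ℕ) : ℝ := X.M0 - ((p : ℝ) + n) * Real.log NUMFC.act

/-- exponent of the objects (besides `Mp p n`) -/
def En : ℝ := X.S + 1 / 2 * (∫ t, X.τ t * X.Gt t) - 1 / 2 * (∑ a, ∫ t, X.r a t * X.Kr a t) +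
  ∑ a, (1 / 2 * (∫ t, X.μ a t * X.Vm a t) + (∫ t, X.ρ a t * X.E a t) + ∫ t, X.μ a t * X.φ a t)

/-- energy of the difference of the two densities -/
def eR : ℝ := ∑ a, ∫ t, (X.μ a t - X.r a t) * ∫ u, (X.μ a u - X.r a u) * V (t - u)

end Dat

/-- geometry: sea, displacements, kernels, the action identity; `tc` constant of the tail of the sea -/
structure Geo (X : Dat) (tc Cκ : ℝ) : Prop where
  s0 : ∀ a, 0 ≤ X.s a
  Pc : Continuous X.P
  P0 : ∀ t, 0 ≤ X.P t
  P1 : ∫ t, X.P t = 1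
  PT : ∀ t, X.P t ≤ tc / 2 * Real.exp (-(8 / 3) * |t|)
  small : Small (X.D true) (X.D1 true) (X.D false) (X.D1 false)
  Dc : ∀ a, Continuous (X.D a)
  D1c : ∀ a, Continuous (X.D1 a)
  bk : ∀ a b, Bk Cκ (X.κ a b)
  bs : ∀ a b, Bk Cκ (X.ks a b)
  sy : ∀ a b t t', X.ks a b t t' = X.ks b a t' t
  act : ∀ {p n : ℕ} (t : Fin p → ℝ) (t' : Fin n → ℝ),
    (∑ i, (X.pot true (t i) - X.E true (t i) - X.vr true (t i))) +
      (∑ j, (X.pot false (t' j) - X.E false (t' j) - X.vr false (t' j))) +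
      KE (X.D true) (X.D1 true) (X.D false) (X.D1 false) t t' =
    X.S + (∑ i, X.lin true (t i)) + (∑ j, X.lin false (t' j)) - (∑ a, ∫ t, X.ρ a t * X.lin a t) +
      1 / 2 * NF X.ρ X.κ t t'

/-- the field equation of the data -/
structure Fld (X : Dat) (p n : ℕ) : Prop where
  τi : Integrable X.τ
  τ1 : Integrable fun x => X.τ x * x
  τ0 : ∫ x, X.τ x = ((p : ℝ) - X.s true) - ((n : ℝ) - X.s false)
  eq : ∀ a t, X.lin a t - Dat.sg a * X.Gt t + X.E a t + X.Kr a t = X.Vm a t + X.φ a t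

/-- regularity of the real data -/
structure Reg (X : Dat) : Prop where
  μi : ∀ a, Integrable (X.μ a)
  μc : ∀ a, Continuous (X.μ a)
  μb : ∀ a, ∃ M, ∀ t, |X.μ a t| ≤ M
  ri : ∀ a, Integrable (X.r a)
  rc : ∀ a, Continuous (X.r a)
  rb : ∀ a, ∃ M, ∀ t, |X.r a t| ≤ M
  φc : ∀ a, Continuous (X.φ a)
  φb : ∀ a, ∃ M, ∀ t, |X.φ a t| ≤ M
  Ec : ∀ a, Continuous (X.E a)
  Eb : ∀ a, ∃ M, ∀ t, |X.E a t| ≤ M

/-! ### static kernels -/

/-- the field `V * h` -/
def Vf (h : ℝ → ℝ) (t : ℝ) : ℝ := ∫ u, h u * V (t - u)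

/-- the field of a combination of densities -/
def fi {N : ℕ} (h : Fin N → Bool → ℝ → ℝ) (i : Fin N) (a : Bool) : ℝ → ℝ := Vf (h i a)

/-- the Gram matrix of the energy -/
def Gm {N : ℕ} (h : Fin N → Bool → ℝ → ℝ) (i j : Fin N) : ℝ := ∑ a, ∫ t, h i a t * fi h j a t

/-- the weight of the rest -/
def wc (c t : ℝ) : ℝ := 1 / Real.cosh (c * t)

/-- finite rank plus a small smooth kernel -/
structure StK (ks : Bool → Bool → ℝ → ℝ → ℝ) (N : ℕ) (h : Fin N → Bool → ℝ → ℝ)
    (Sm : Fin N → Fin N → ℝ) (θ M Λ c : ℝ) (kt : Bool → Bool → ℝ → ℝ → ℝ) : Prop where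
  hc : ∀ i a, Continuous (h i a)
  hb : ∀ i a t, |h i a t| ≤ M * Real.exp (-2 * |t|)
  Sb : ∀ i j, |Sm i j| ≤ M
  Ss : ∀ i j, Sm i j = Sm j i
  op : ∀ b : Fin N → ℝ, ∑ i, ∑ j, Sm i j * (∑ k, Gm h i k * b k) * (∑ k, Gm h j k * b k) ≤
    θ * ∑ i, ∑ j, b i * Gm h i j * b j
  eq : ∀ a b t t', ks a b t t' = (∑ i, ∑ j, Sm i j * fi h i a t * fi h j b t') +
    wc c t * wc c t' * kt a b t t'
  kc : ∀ R a b, KC R Λ (fun t t' => ((kt a b t t' : ℝ) : ℂ))
  ksy : ∀ a b t t', kt a b t t' = kt b a t' t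
  kcont : ∀ a b, Continuous fun p : ℝ × ℝ => kt a b p.1 p.2

/-- a class of static kernels: the rest is as small as we like, the form of finite rank stays `≤ θ` -/
def StC (K : Set (Bool → Bool → ℝ → ℝ → ℝ)) (θ c : ℝ) : Prop :=
  ∀ Λ : ℝ, 0 < Λ → ∃ (N : ℕ) (M : ℝ), ∀ ks ∈ K, ∃ (h : Fin N → Bool → ℝ → ℝ) (Sm : Fin N → Fin N → ℝ)
    (kt : Bool → Bool → ℝ → ℝ → ℝ), StK ks N h Sm θ M Λ c kt

end

end PLT.Gs
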