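import Pool.Agent.PLT.GPoint
import Pool.Agent.NUWC.LemA

/-!
# THETA B1a: the exponent of the mean field

`C0_eq`: `C0 + ∑_a [1/2 <ρ_a+μ_a, V*(ρ_a+μ_a)> + ∫ (ρ_a+μ_a) φ_a] = log g(0) (p+n)/2 + M0 + En`.
-/

set_option autoImplicit false

open MeasureTheory Set Filter Topology

namespace PLT.Gs

open NUH0 (conv_bc int_mul_bc conv_symm)
open NUMF NUKer NUAct NU42 NUE

noncomputable section

variable {X : Dat} {tc Cκ : ℝ} {p n : ℕ}

lemma rm_cont (hG : Geo X tc Cκ) (hR : Reg X) (a : Bool) : Continuous (rm X a) := (hG.ρc a).add (hR.μc a)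

lemma rm_int (hG : Geo X tc Cκ) (hR : Reg X) (a : Bool) : Integrable (rm X a) := (hG.ρi a).add (hR.μi a)

lemma rm_bdd (hG : Geo X tc Cκ) (hR : Reg X) (a : Bool) : ∃ M, ∀ t, |rm X a t| ≤ M := by
  obtain ⟨M, hM⟩ := hR.μb a
  obtain ⟨M', hM'⟩ := hG.ρb a
  exact ⟨M' + M, fun t => (abs_add_le _ _).trans (add_le_add (hM' t) (hM t))⟩

lemma rr_cont (hG : Geo X tc Cκ) (hR : Reg X) (a : Bool) : Continuous (rr X a) := (hG.ρc a).add (hR.rc a)

lemma rr_int (hG : Geo X tc Cκ) (hR : Reg X) (a : Bool) : Integrable (rr X a) := (hG.ρi a).add (hR.ri a)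

lemma sea_VP (X : Dat) (a : Bool) (t : ℝ) : ∫ u, X.ρ a u * V (t - u) = X.s a * X.VP t := by
  unfold Dat.ρ Dat.VP
  rw [← integral_const_mul]
  refine integral_congr_ae (ae_of_all _ fun u => ?_)
  simp only
  ring

/-- the potential of sea and objects -/
lemma rm_V (hG : Geo X tc Cκ) (hR : Reg X) (a : Bool) (t : ℝ) :
    ∫ u, rm X a u * V (t - u) = X.s a * X.VP t + X.Vm a t := by
  obtain ⟨M, hM⟩ := hR.μb a
  obtain ⟨M', hM'⟩ := hG.ρb a
  have i1 := NUWC.rhoV_int (hG.ρc a).aestronglyMeasurable hM' t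
  have i2 := NUWC.rhoV_int (hR.μc a).aestronglyMeasurable hM t
  have e : ∀ u, rm X a u * V (t - u) = X.ρ a u * V (t - u) + X.μ a u * V (t - u) := fun u => by
    unfold rm; ring
  simp_rw [e]
  rw [integral_add i1 i2, sea_VP]
  rfl

/-- the one body exponent -/
lemma Xp_eq (hG : Geo X tc Cκ) (hR : Reg X) (a : Bool) (t : ℝ) :
    Xp X a t = (∫ u, rm X a u * V (t - u)) + X.φ a t := by
  rw [rm_V hG hR]
  rfl

/-- the interaction energy of sea and objects -/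
lemma rm_energy (hG : Geo X tc Cκ) (hR : Reg X) (a : Bool) : ∫ t, rm X a t * ∫ u, rm X a u * V (t - u) =
    X.s a ^ 2 * (∫ t, X.P t * X.VP t) + 2 * (∫ t, X.ρ a t * X.Vm a t) + ∫ t, X.μ a t * X.Vm a t := by
  obtain ⟨M, hM⟩ := hR.μb a
  obtain ⟨M', hM'⟩ := hG.ρb a
  obtain ⟨c1, b1⟩ := conv_bc (hG.ρc a) hM'
  obtain ⟨c2, b2⟩ := conv_bc (hR.μc a) hM
  have hsv : ∀ t, ∫ u, X.ρ a u * V (t - u) = X.s a * X.VP t := fun t => sea_VP X a t
  have j1 : Integrable fun t => X.ρ a t * ∫ u, X.ρ a u * V (t - u) := int_mul_bc (hG.ρi a) c1 b1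
  have j2 : Integrable fun t => X.ρ a t * ∫ u, X.μ a u * V (t - u) := int_mul_bc (hG.ρi a) c2 b2
  have j3 : Integrable fun t => X.μ a t * ∫ u, X.ρ a u * V (t - u) := int_mul_bc (hR.μi a) c1 b1
  have j4 : Integrable fun t => X.μ a t * ∫ u, X.μ a u * V (t - u) := int_mul_bc (hR.μi a) c2 b2
  have e : ∀ t, rm X a t * ∫ u, rm X a u * V (t - u) =
      (X.ρ a t * (∫ u, X.ρ a u * V (t - u)) + X.ρ a t * ∫ u, X.μ a u * V (t - u)) +
      (X.μ a t * (∫ u, X.ρ a u * V (t - u)) + X.μ a t * ∫ u, X.μ a u * V (t - u)) := by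
    intro t
    rw [rm_V hG hR, hsv]
    show (X.ρ a t + X.μ a t) * (X.s a * X.VP t + X.Vm a t) = X.ρ a t * (X.s a * X.VP t) +
      X.ρ a t * X.Vm a t + (X.μ a t * (X.s a * X.VP t) + X.μ a t * X.Vm a t)
    ring
  simp_rw [e]
  have j12 : Integrable fun t => X.ρ a t * (∫ u, X.ρ a u * V (t - u)) +
      X.ρ a t * ∫ u, X.μ a u * V (t - u) := j1.add j2
  have j34 : Integrable fun t => X.μ a t * (∫ u, X.ρ a u * V (t - u)) +
      X.μ a t * ∫ u, X.μ a u * V (t - u) := j3.add j4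
  rw [integral_add j12 j34, integral_add j1 j2, integral_add j3 j4]
  have e1 : ∫ t, X.ρ a t * ∫ u, X.ρ a u * V (t - u) = X.s a ^ 2 * ∫ t, X.P t * X.VP t := by
    simp only [hsv]
    rw [← integral_const_mul]
    refine integral_congr_ae (ae_of_all _ fun t => ?_)
    simp only [Dat.ρ]
    ring
  have e2 := conv_symm (hR.μi a) (hG.ρc a) hM'
  rw [e1, e2]
  have e3 : ∫ t, X.ρ a t * ∫ u, X.μ a u * V (t - u) = ∫ t, X.ρ a t * X.Vm a t := rfl
  have e4 : ∫ t, X.μ a t * ∫ u, X.μ a u * V (t - u) = ∫ t, X.μ a t * X.Vm a t := rfl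
  rw [e3, e4]
  ring

/-- the integral of `lin` against the sea -/
lemma lin_sum (hG : Geo X tc Cκ) (hF : Fld X p n) (hR : Reg X) :
    (∑ a, ∫ t, X.ρ a t * X.lin a t) + (∑ a, ∫ t, X.ρ a t * X.Kr a t) =
      (X.s true - X.s false) * (∫ t, X.P t * X.Gt t) +
      ∑ a, ((∫ t, X.ρ a t * X.Vm a t) + (∫ t, X.ρ a t * X.φ a t) - ∫ t, X.ρ a t * X.E a t) := by
  have iV : ∀ a, Integrable fun t => X.ρ a t * X.Vm a t := fun a => by
    obtain ⟨M, hM⟩ := hR.μb a
    obtain ⟨c2, b2⟩ := conv_bc (hR.μc a) hM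
    exact int_mul_bc (hG.ρi a) c2 b2
  have iφ : ∀ a, Integrable fun t => X.ρ a t * X.φ a t := fun a => by
    obtain ⟨M, hM⟩ := hR.φb a
    exact int_mul_bc (hG.ρi a) (hR.φc a) hM
  have iE : ∀ a, Integrable fun t => X.ρ a t * X.E a t := fun a => by
    obtain ⟨M, hM⟩ := hR.Eb a
    exact int_mul_bc (hG.ρi a) (hR.Ec a) hM
  have iG : Integrable fun t => X.P t * X.Gt t := (logg_symm hG.Pi hG.Pm hF.τi hF.τ1).1
  have iK : ∀ a, Integrable fun t => X.ρ a t * X.Kr a t := fun a =>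
    int_mul_bc (hG.ρi a) (kR_cont hR.ri hG.bs a) (kR_abs hR.ri hG.bs a)
  have key : ∀ a, ∫ t, X.ρ a t * X.lin a t = Dat.sg a * X.s a * (∫ t, X.P t * X.Gt t) +
      ((∫ t, X.ρ a t * X.Vm a t) + (∫ t, X.ρ a t * X.φ a t) - (∫ t, X.ρ a t * X.E a t) -
        ∫ t, X.ρ a t * X.Kr a t) := by
    intro a
    have e : ∀ t, X.ρ a t * X.lin a t = Dat.sg a * X.s a * (X.P t * X.Gt t) +
        (X.ρ a t * X.Vm a t + X.ρ a t * X.φ a t - X.ρ a t * X.E a t - X.ρ a t * X.Kr a t) := by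
      intro t
      have h1 := hF.eq a t
      have h2 : X.ρ a t = X.s a * X.P t := rfl
      rw [h2]
      linear_combination X.s a * X.P t * h1
    have i1 : Integrable fun t => Dat.sg a * X.s a * (X.P t * X.Gt t) := iG.const_mul _
    have i2 : Integrable fun t => X.ρ a t * X.Vm a t + X.ρ a t * X.φ a t := (iV a).add (iφ a)
    have i3 : Integrable fun t => X.ρ a t * X.Vm a t + X.ρ a t * X.φ a t - X.ρ a t * X.E a t :=
      i2.sub (iE a)
    have i4 : Integrable fun t => X.ρ a t * X.Vm a t + X.ρ a t * X.φ a t - X.ρ a t * X.E a t -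
      X.ρ a t * X.Kr a t := i3.sub (iK a)
    simp_rw [e]
    rw [integral_add i1 i4, integral_sub i3 (iK a), integral_sub i2 (iE a), integral_add (iV a) (iφ a),
      integral_const_mul]
  simp only [Fintype.sum_bool, key]
  unfold Dat.sg
  simp only [if_true, Bool.false_eq_true, if_false]
  ring

/-- **the exponent of the mean field** -/
theorem C0_eq (hG : Geo X tc Cκ) (hF : Fld X p n) (hR : Reg X) :
    C0 X p n + ∑ a, (1 / 2 * (∫ t, rm X a t * ∫ u, rm X a u * V (t - u)) + ∫ t, rm X a t * X.φ a t) =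
      Real.log (g 0) * (((p : ℝ) + n) / 2) + X.M0 + X.En := by
  have e1 : ∀ a, ∫ t, rm X a t * X.φ a t = (∫ t, X.ρ a t * X.φ a t) + ∫ t, X.μ a t * X.φ a t := by
    intro a
    obtain ⟨M, hM⟩ := hR.φb a
    rw [← integral_add (int_mul_bc (hG.ρi a) (hR.φc a) hM) (int_mul_bc (hR.μi a) (hR.φc a) hM)]
    refine integral_congr_ae (ae_of_all _ fun t => ?_)
    simp only
    unfold rm
    ring
  have h2 := lin_sum hG hF hR
  unfold C0 Dat.En Dat.M0
  simp only [rm_energy hG hR, e1, Fintype.sum_bool] at h2 ⊢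
  linear_combination -h2

/-- the diagonal constants and the circle constants make up `Mp` -/
theorem exp_Mp (X : Dat) (p n : ℕ) : Real.exp (X.Mp p n) =
    Real.exp (Real.log (g 0) * (((p : ℝ) + n) / 2) + X.M0) * (NUMFC.cpc ^ p * NUMFC.cpc ^ n) := by
  have h1 := NUMFC.act_one'
  have h2 := NUMFC.act_pos
  have e1 : Real.exp (-(((p : ℝ) + n) * Real.log NUMFC.act)) =
      Real.exp (Real.log (g 0) * (((p : ℝ) + n) / 2)) * (NUMFC.cpc ^ p * NUMFC.cpc ^ n) := by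
    have e2 : Real.exp (((p : ℝ) + n) * Real.log NUMFC.act) = NUMFC.act ^ (p + n) := by
      rw [← Nat.cast_add, Real.exp_nat_mul, Real.exp_log h2]
    have e3 : Real.exp (Real.log (g 0) * (((p : ℝ) + n) / 2)) = Real.exp (Real.log (g 0) / 2) ^ (p + n) := by
      rw [← Real.exp_nat_mul]
      congr 1
      push_cast
      ring
    rw [Real.exp_neg, e2, e3, ← pow_add, ← mul_pow, inv_eq_one_div, div_eq_iff (pow_ne_zero _ h2.ne'),
      ← mul_pow]
    have : Real.exp (Real.log (g 0) / 2) * NUMFC.cpc * NUMFC.act = 1 := by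
      rw [← h1]
      ring
    rw [this, one_pow]
  unfold Dat.Mp
  rw [show X.M0 - ((p : ℝ) + n) * Real.log NUMFC.act = X.M0 + -(((p : ℝ) + n) * Real.log NUMFC.act) by ring,
    Real.exp_add, e1, Real.exp_add]
  ring

end

end PLT.Gs
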