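import Pool.Agent.PLT.GOneC
import Pool.Agent.PLT.GEn

/-!
# THETA B1a: exponential moments under the static form of finite rank

`Fd N K θ e C`: the statement of the finite dimensional Gaussian lemma.  `expW`: for the weight
`WT WT exp (1/2 ∑ S_ij y_i y_j)`, `y_i` the centred fields `V * h_i`, every mode has Gaussian exponential moments
with constants which do not depend on the rank.
-/

set_option autoImplicit false

open MeasureTheory Set Filter Topology
open scoped Real ENNReal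

namespace PLT.Gs

open NUH0
open NUMF NUWC NUC37 NUKer NUDi NUMFC

noncomputable section

/-- the finite dimensional lemma (statement) -/
def Fd (N : ℕ) (K θ e C : ℝ) : Prop :=
  ∀ G S : Fin N → Fin N → ℝ, (∀ i j, |G i j| ≤ K) → (∀ i j, |S i j| ≤ K) → (∀ i j, S i j = S j i) →
    (∀ i j, G i j = G j i) → (∀ c : Fin N → ℝ, 0 ≤ ∑ i, ∑ j, G i j * c i * c j) →
    (∀ c : Fin N → ℝ, ∑ i, ∑ j, S i j * (∑ k, G i k * c k) * (∑ k, G j k * c k) ≤
      θ * ∑ i, ∑ j, G i j * c i * c j) →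
    ∀ {Ω : Type} [MeasurableSpace Ω] (μ : Measure Ω) [SFinite μ] (W : Ω → ℝ≥0∞) (y : Fin N → Ω → ℝ),
    Measurable W → (∀ i, Measurable (y i)) → ∀ B : ℝ≥0∞,
    (∀ c : Fin N → ℝ, ∫⁻ ω, W ω * ENNReal.ofReal (Real.exp (∑ i, c i * y i ω)) ∂μ ≤
      B * ENNReal.ofReal (Real.exp (1 / 2 * (∑ i, ∑ j, G i j * c i * c j) + e / 2 * ∑ i, c i ^ 2))) →
    ∫⁻ ω, W ω * ENNReal.ofReal (Real.exp (1 / 2 * ∑ i, ∑ j, S i j * y i ω * y j ω)) ∂μ ≤
      B * ENNReal.ofReal C

/-! ### combinations of the densities -/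

variable {N : ℕ} {h : Fin N → Bool → ℝ → ℝ} {M : ℝ}

/-- combination -/
def hcb (h : Fin N → Bool → ℝ → ℝ) (c : Fin N → ℝ) (a : Bool) (s : ℝ) : ℝ := ∑ i, c i * h i a s

lemma exp2_le {T s : ℝ} (hs : T ≤ |s|) : Real.exp (-2 * |s|) ≤ Real.exp (-2 * T) * Real.exp (-(|s| - T)) := by
  rw [← Real.exp_add]
  exact Real.exp_le_exp.2 (by linarith)

lemma exp2_int : Integrable fun s : ℝ => Real.exp (-2 * |s|) := by
  have := NUAct.int_exp_abs' (κ := 2) (by norm_num)
  exact this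

lemma tl_one {f : ℝ → ℝ} (hc : Continuous f) (hb : ∀ t, |f t| ≤ M * Real.exp (-2 * |t|)) (T : ℝ) :
    Tl f T (M * Real.exp (-2 * T)) := by
  have hM : 0 ≤ M := by
    have h1 := (abs_nonneg _).trans (hb 0)
    simpa using h1
  refine ⟨hc, ?_, ⟨M, fun t => (hb t).trans ?_⟩, fun s hs => (hb s).trans ?_⟩
  · exact (exp2_int.const_mul M).mono' hc.aestronglyMeasurable (ae_of_all _ fun t => by
      rw [Real.norm_eq_abs]; exact hb t)
  · have : Real.exp (-2 * |t|) ≤ 1 := Real.exp_le_one_iff.2 (by have := abs_nonneg t; linarith)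
    exact mul_le_of_le_one_right hM this
  · rw [mul_assoc]
    exact mul_le_mul_of_nonneg_left (exp2_le hs) hM

lemma tl_zero (T : ℝ) : Tl (fun _ => (0 : ℝ)) T 0 :=
  ⟨continuous_const, integrable_zero _ _ _, ⟨0, fun t => by simp⟩, fun s _ => by simp⟩

lemma tl_fs {ι : Type*} (S : Finset ι) {f : ι → ℝ → ℝ} {T : ℝ} {δ : ι → ℝ} (hf : ∀ i ∈ S, Tl (f i) T (δ i)) :
    Tl (fun s => ∑ i ∈ S, f i s) T (∑ i ∈ S, δ i) := by
  classical
  induction S using Finset.induction_on with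
  | empty => simpa using tl_zero T
  | insert a S ha ih =>
    have h1 := (hf a (Finset.mem_insert_self a S)).add (ih fun i hi => hf i (Finset.mem_insert_of_mem hi))
    simpa only [Finset.sum_insert ha] using h1

lemma tl_hcb (hc : ∀ i a, Continuous (h i a)) (hb : ∀ i a t, |h i a t| ≤ M * Real.exp (-2 * |t|))
    (c : Fin N → ℝ) (a : Bool) (T : ℝ) : Tl (hcb h c a) T ((∑ i, |c i|) * (M * Real.exp (-2 * T))) := by
  rw [Finset.sum_mul]
  exact tl_fs Finset.univ fun i _ => (tl_one (hc i a) (hb i a) T).smul (c i)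

lemma Vf_hcb (hc : ∀ i a, Continuous (h i a)) (hb : ∀ i a t, |h i a t| ≤ M * Real.exp (-2 * |t|))
    (c : Fin N → ℝ) (a : Bool) : Vf (hcb h c a) = fun t => ∑ i, c i * fi h i a t := by
  funext t
  unfold Vf hcb fi
  have e : ∀ u, (∑ i, c i * h i a u) * V (t - u) = ∑ i, c i * (h i a u * V (t - u)) := fun u => by
    rw [Finset.sum_mul]
    exact Finset.sum_congr rfl fun i _ => by ring
  simp_rw [e]
  rw [integral_finsetSum _ fun i _ => (Vi (tl_one (hc i a) (hb i a) 0) t).const_mul (c i)]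
  refine Finset.sum_congr rfl fun i _ => ?_
  rw [integral_const_mul]
  rfl

lemma fi_cont (hc : ∀ i a, Continuous (h i a)) (hb : ∀ i a t, |h i a t| ≤ M * Real.exp (-2 * |t|))
    (i : Fin N) (a : Bool) : Continuous (fi h i a) := by
  obtain ⟨M', hM'⟩ := (tl_one (hc i a) (hb i a) 0).b
  exact (conv_bc (hc i a) hM').1

lemma fi_bdd (hc : ∀ i a, Continuous (h i a)) (hb : ∀ i a t, |h i a t| ≤ M * Real.exp (-2 * |t|))
    (i : Fin N) (a : Bool) (t : ℝ) : |fi h i a t| ≤ M * ∫ u, |V u| := by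
  have hM : 0 ≤ M := by
    have h1 := (abs_nonneg _).trans (hb i a 0)
    simpa using h1
  have hM' : ∀ t, |h i a t| ≤ M := fun t => (hb i a t).trans (mul_le_of_le_one_right hM
    (Real.exp_le_one_iff.2 (by have := abs_nonneg t; linarith)))
  exact (conv_bc (hc i a) hM').2 t

/-- the energy of a combination -/
lemma eV_hcb (hc : ∀ i a, Continuous (h i a)) (hb : ∀ i a t, |h i a t| ≤ M * Real.exp (-2 * |t|))
    (c : Fin N → ℝ) (a : Bool) : eV (hcb h c a) (hcb h c a) = ∑ i, ∑ j, eV (h i a) (h j a) * c i * c j := by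
  have e1 : eV (hcb h c a) (hcb h c a) = ∫ t, ∑ i, ∑ j, (c i * c j) * (h i a t * fi h j a t) := by
    unfold eV
    refine integral_congr_ae (ae_of_all _ fun t => ?_)
    have h1 := congrFun (Vf_hcb hc hb c a) t
    unfold Vf at h1
    simp only
    rw [h1]
    unfold hcb
    rw [Finset.sum_mul]
    refine Finset.sum_congr rfl fun i _ => ?_
    rw [Finset.mul_sum]
    exact Finset.sum_congr rfl fun j _ => by ring
  have i1 : ∀ i j, Integrable fun t => h i a t * fi h j a t := fun i j =>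
    eV_i (tl_one (hc i a) (hb i a) 0) (tl_one (hc j a) (hb j a) 0)
  rw [e1, integral_finsetSum _ fun i _ => integrable_finsetSum _ fun j _ => (i1 i j).const_mul _]
  refine Finset.sum_congr rfl fun i _ => ?_
  rw [integral_finsetSum _ fun j _ => (i1 i j).const_mul _]
  refine Finset.sum_congr rfl fun j _ => ?_
  rw [integral_const_mul]
  have e2 : ∫ t, h i a t * fi h j a t = eV (h i a) (h j a) := rfl
  rw [e2]
  ring

lemma Gm_eq (i j : Fin N) : Gm h i j = eV (h i true) (h j true) + eV (h i false) (h j false) := by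
  unfold Gm
  rw [Fintype.sum_bool]
  rfl

lemma Gm_form (hc : ∀ i a, Continuous (h i a)) (hb : ∀ i a t, |h i a t| ≤ M * Real.exp (-2 * |t|))
    (c : Fin N → ℝ) : ∑ i, ∑ j, Gm h i j * c i * c j =
      eV (hcb h c true) (hcb h c true) + eV (hcb h c false) (hcb h c false) := by
  rw [eV_hcb hc hb, eV_hcb hc hb, ← Finset.sum_add_distrib]
  refine Finset.sum_congr rfl fun i _ => ?_
  rw [← Finset.sum_add_distrib]
  refine Finset.sum_congr rfl fun j _ => ?_
  rw [Gm_eq]
  ring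

/-- bound of the Gram matrix -/
def KG (M : ℝ) : ℝ := 2 * ((M * ∫ u : ℝ, |V u|) * (M * ∫ s : ℝ, Real.exp (-2 * |s|)))

lemma Gm_abs (hc : ∀ i a, Continuous (h i a)) (hb : ∀ i a t, |h i a t| ≤ M * Real.exp (-2 * |t|))
    (i j : Fin N) : |Gm h i j| ≤ KG M := by
  have e : ∀ a, |eV (h i a) (h j a)| ≤ (M * ∫ u : ℝ, |V u|) * (M * ∫ s : ℝ, Real.exp (-2 * |s|)) := by
    intro a
    have e0 : (M * ∫ u : ℝ, |V u|) * (M * ∫ s : ℝ, Real.exp (-2 * |s|)) =
        ∫ s : ℝ, (M * ∫ u : ℝ, |V u|) * (M * Real.exp (-2 * |s|)) := by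
      rw [integral_const_mul, integral_const_mul]
    unfold eV
    rw [e0, ← Real.norm_eq_abs]
    refine norm_integral_le_of_norm_le ((exp2_int.const_mul M).const_mul _) (ae_of_all _ fun t => ?_)
    rw [norm_mul, Real.norm_eq_abs, Real.norm_eq_abs, mul_comm]
    exact mul_le_mul (fi_bdd hc hb j a t) (hb i a t) (abs_nonneg _)
      ((abs_nonneg _).trans (fi_bdd hc hb j a t))
  rw [Gm_eq]
  unfold KG
  have := e true
  have := e false
  exact (abs_add_le _ _).trans (by linarith)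

/-! ### the centred fields -/

variable {X : Dat} {tc Cκ : ℝ} {p n : ℕ}

/-- the centred fields -/
def yi (X : Dat) (h : Fin N → Bool → ℝ → ℝ) (i : Fin N) (ω : (Fin p → ℝ) × (Fin n → ℝ)) : ℝ :=
  nuF (rr X true) ω.1 (fi h i true) + nuF (rr X false) ω.2 (fi h i false)

/-- the form of finite rank -/
def Qs (X : Dat) (h : Fin N → Bool → ℝ → ℝ) (Sm : Fin N → Fin N → ℝ) (ω : (Fin p → ℝ) × (Fin n → ℝ)) : ℝ :=
  1 / 2 * ∑ i, ∑ j, Sm i j * yi X h i ω * yi X h j ω

lemma yi_meas (hc : ∀ i a, Continuous (h i a)) (hb : ∀ i a t, |h i a t| ≤ M * Real.exp (-2 * |t|))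
    (i : Fin N) : Measurable (yi (p := p) (n := n) X h i) := by
  unfold yi
  exact (measurable_nuF measurable_fst (fi_cont hc hb i true)).add
    (measurable_nuF measurable_snd (fi_cont hc hb i false))

lemma Qs_meas (hc : ∀ i a, Continuous (h i a)) (hb : ∀ i a t, |h i a t| ≤ M * Real.exp (-2 * |t|))
    (Sm : Fin N → Fin N → ℝ) : Measurable (Qs (p := p) (n := n) X h Sm) := by
  unfold Qs
  refine Measurable.const_mul ?_ _
  refine Finset.measurable_fun_sum _ fun i _ => Finset.measurable_fun_sum _ fun j _ => ?_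
  exact ((yi_meas hc hb i).const_mul _).mul (yi_meas hc hb j)

/-- combination of the fields of one species -/
lemma nuF_hcb (hc : ∀ i a, Continuous (h i a)) (hb : ∀ i a t, |h i a t| ≤ M * Real.exp (-2 * |t|))
    {ρ : ℝ → ℝ} (hρ : Integrable ρ) (c : Fin N → ℝ) (a : Bool) {m : ℕ} (t : Fin m → ℝ) :
    nuF ρ t (Vf (hcb h c a)) = ∑ i, c i * nuF ρ t (fi h i a) := by
  rw [Vf_hcb hc hb]
  unfold nuF
  have e : ∀ u, (∑ i, c i * fi h i a u) * ρ u = ∑ i, c i * (fi h i a u * ρ u) := fun u => by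
    rw [Finset.sum_mul]
    exact Finset.sum_congr rfl fun i _ => by ring
  simp_rw [e]
  rw [integral_finsetSum _ fun i _ => (ibd hρ (fi_cont hc hb i a) (fi_bdd hc hb i a)).const_mul (c i),
    Finset.sum_comm, ← Finset.sum_sub_distrib]
  refine Finset.sum_congr rfl fun i _ => ?_
  rw [integral_const_mul, ← Finset.mul_sum]
  ring

lemma sum_yi (hG : Geo X tc Cκ) (hR : Reg X) (hc : ∀ i a, Continuous (h i a))
    (hb : ∀ i a t, |h i a t| ≤ M * Real.exp (-2 * |t|)) (c : Fin N → ℝ) (ω : (Fin p → ℝ) × (Fin n → ℝ)) :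
    ∑ i, c i * yi X h i ω = nuF (rr X true) ω.1 (Vf (hcb h c true)) +
      nuF (rr X false) ω.2 (Vf (hcb h c false)) := by
  rw [nuF_hcb hc hb (rr_int hG hR true), nuF_hcb hc hb (rr_int hG hR false), ← Finset.sum_add_distrib]
  exact Finset.sum_congr rfl fun i _ => by unfold yi; ring

end

end PLT.Gs
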