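import Pool.Agent.PLT.GExp

/-!
# THETA B1a: exponential moments under the static form of finite rank, two species

`expC`: the field of a combination of the densities and modes of both species; `expW`: the weight with the form
of finite rank, one mode of a species: the constants of the mode do not depend on the rank.
-/

set_option autoImplicit false

open MeasureTheory Set Filter Topology
open scoped Real ENNReal

namespace PLT.Gs

open NUH0
open NUMF NUWC NUC37 NUKer NUDi NUMFC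

noncomputable section

variable {N : ℕ} {h : Fin N → Bool → ℝ → ℝ} {M : ℝ} {X : Dat} {tc Cκ : ℝ} {p n : ℕ}
  {T T0 δ G L η : ℝ}

theorem RegT.tl (hG : Geo X tc Cκ) (hR : RegT X T0 δ) (a : Bool) : Tl (rm X a) T0 δ :=
  ⟨rm_cont hG hR.toReg a, rm_int hG hR.toReg a, rm_bdd hG hR.toReg a, hR.tail a⟩

theorem RegT.tlr (hG : Geo X tc Cκ) (hR : RegT X T0 δ) (a : Bool) : Tl (rr X a) T0 δ := by
  refine ⟨rr_cont hG hR.toReg a, rr_int hG hR.toReg a, ?_, hR.tailr a⟩
  obtain ⟨M, hM⟩ := hR.rb a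
  obtain ⟨M', hM'⟩ := hG.ρb a
  exact ⟨M' + M, fun t => (abs_add_le _ _).trans (add_le_add (hM' t) (hM t))⟩

/-- the energy of the difference -/
theorem eR_eq (X : Dat) : X.eR = eV (fun s => rm X true s + -1 * rr X true s) (fun s => rm X true s + -1 * rr X true s) +
    eV (fun s => rm X false s + -1 * rr X false s) (fun s => rm X false s + -1 * rr X false s) := by
  have e : ∀ a, (fun s => rm X a s + -1 * rr X a s) = fun s => X.μ a s - X.r a s := fun a => by
    funext s
    unfold rm rr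
    ring
  rw [e, e]
  unfold Dat.eR
  rw [Fintype.sum_bool]
  rfl

/-- the linear coefficient of a mode -/
def lc (L : ℝ) (ρ ρν f φ : ℝ → ℝ) : ℝ := (∫ t in (-(L / 2))..(L / 2), ρ t * f t) - ∫ t, φ t * ρν t

/-- **the field of a combination and modes of both species** -/
theorem expC (hG9 : 9 ≤ G) (hT : 0 < T) (hδ : 0 ≤ δ) (hL : L = 2 * T + 2 * G)
    (hm : ∀ a, Tl (rm X a) T δ) (hr : ∀ a, Tl (rr X a) T δ)
    (hG : Geo X tc Cκ) (hR : Reg X) (hM : 0 ≤ M) (hc : ∀ i a, Continuous (h i a))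
    (hb : ∀ i a t, |h i a t| ≤ M * Real.exp (-2 * |t|)) (hη : 0 < η)
    {E E' : Bool → ℝ → ℝ} (hE : ∀ a, C1P L (E a) (E' a)) (hF : ∀ a x, |x| ≤ T → X.φ a x ≤ E a x)
    {f f' φ ρν : Bool → ℝ → ℝ} (hf : ∀ a, C1P L (f a) (f' a)) (hφ : ∀ a x, |x| ≤ T → φ a x = f a x)
    (hφc : ∀ a, Continuous (φ a)) {e : ℝ}
    (he : (2 + 2 * η) * (cV * (2 * G + 1)) * (N * (M * Real.exp (-2 * T)) ^ 2) ≤ e / 4)
    (c : Fin N → ℝ) (x : Bool → ℝ) :
    ∫⁻ ω : (Fin p → ℝ) × (Fin n → ℝ), (WT T p (rm X true) (X.φ true) ω.1 * WT T n (rm X false) (X.φ false) ω.2) *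
      ENNReal.ofReal (Real.exp ((∑ i, c i * yi X h i ω) + (x true * nuF (ρν true) ω.1 (φ true) +
        x false * nuF (ρν false) ω.2 (φ false)))) ≤
      ENNReal.ofReal (Bs G L δ η p (rm X true) (E true) * Bs G L δ η n (rm X false) (E false) *
        Real.exp (1 / η * (1 / 2 * X.eR))) *
      ENNReal.ofReal (Real.exp (1 / 2 * (∑ i, ∑ j, (1 + 3 * η) * Gm h i j * c i * c j) + e / 2 * ∑ i, c i ^ 2)) *
      ENNReal.ofReal (Real.exp (
        (lc L (rm X true) (ρν true) (f true) (φ true) * x true +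
          2 * (2 + 1 / η) * Qt G L (f true) * x true ^ 2 / 2) +
        (lc L (rm X false) (ρν false) (f false) (φ false) * x false +
          2 * (2 + 1 / η) * Qt G L (f false) * x false ^ 2 / 2))) := by
  have hcV := cV_pos
  have hM0 : 0 ≤ M * Real.exp (-2 * T) := mul_nonneg hM (Real.exp_pos _).le
  obtain ⟨d, hd⟩ : ∃ d, d = (∑ i, |c i|) * (M * Real.exp (-2 * T)) := ⟨_, rfl⟩
  have hd0 : 0 ≤ d := by rw [hd]; exact mul_nonneg (Finset.sum_nonneg fun i _ => abs_nonneg _) hM0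
  have th : ∀ a, Tl (hcb h c a) T d := fun a => by rw [hd]; exact tl_hcb hc hb c a T
  have hX := oneC hG9 hT p (hm true) hδ (th true) hd0 (hr true) hL (hE true) (hF true) (hf true)
    (hφ true) hη (x true) (ρν := ρν true)
  have hY := oneC hG9 hT n (hm false) hδ (th false) hd0 (hr false) hL (hE false) (hF false) (hf false)
    (hφ false) hη (x false) (ρν := ρν false)
  have mW : ∀ (a : Bool) (m : ℕ), Measurable (WT T m (rm X a) (X.φ a)) := fun a m =>
    WT_meas (rm_cont hG hR a).measurable (hR.φc a).measurable m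
  have cVf : ∀ a, Continuous (Vf (hcb h c a)) := fun a => by
    obtain ⟨M', hM'⟩ := (th a).b
    exact (conv_bc (th a).c hM').1
  have mF : ∀ (a : Bool) (m : ℕ), Measurable fun ω : Fin m → ℝ =>
      WT T m (rm X a) (X.φ a) ω * ENNReal.ofReal (Real.exp (nuF (rr X a) ω (Vf (hcb h c a)) +
        x a * nuF (ρν a) ω (φ a))) := by
    intro a m
    refine (mW a m).mul (ENNReal.measurable_ofReal.comp (Real.measurable_exp.comp ?_))
    exact (measurable_nuF measurable_id (cVf a)).add ((measurable_nuF measurable_id (hφc a)).const_mul _)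
  have e1 : ∀ ω : (Fin p → ℝ) × (Fin n → ℝ),
      (WT T p (rm X true) (X.φ true) ω.1 * WT T n (rm X false) (X.φ false) ω.2) *
      ENNReal.ofReal (Real.exp ((∑ i, c i * yi X h i ω) + (x true * nuF (ρν true) ω.1 (φ true) +
        x false * nuF (ρν false) ω.2 (φ false)))) =
      (WT T p (rm X true) (X.φ true) ω.1 * ENNReal.ofReal (Real.exp (nuF (rr X true) ω.1 (Vf (hcb h c true)) +
        x true * nuF (ρν true) ω.1 (φ true)))) *
      (WT T n (rm X false) (X.φ false) ω.2 * ENNReal.ofReal (Real.exp (nuF (rr X false) ω.2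
        (Vf (hcb h c false)) + x false * nuF (ρν false) ω.2 (φ false)))) := by
    intro ω
    rw [sum_yi hG hR hc hb c ω, mul_mul_mul_comm, ← ENNReal.ofReal_mul (Real.exp_pos _).le, ← Real.exp_add]
    congr 3
    ring
  simp_rw [e1]
  rw [Measure.volume_eq_prod, lintegral_prod_mul (mF true p).aemeasurable (mF false n).aemeasurable]
  refine (mul_le_mul' hX hY).trans ?_
  have b1 : 0 ≤ Bs G L δ η p (rm X true) (E true) := by unfold Bs; positivity
  have b2 : 0 ≤ Bs G L δ η n (rm X false) (E false) := by unfold Bs; positivity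
  rw [← ENNReal.ofReal_mul (Real.exp_pos _).le, ← ENNReal.ofReal_mul b1,
    ← ENNReal.ofReal_mul (Real.exp_pos _).le, ← ENNReal.ofReal_mul b2, ← ENNReal.ofReal_mul (by positivity),
    ← ENNReal.ofReal_mul (by positivity), ← ENNReal.ofReal_mul (by positivity)]
  refine ENNReal.ofReal_le_ofReal ?_
  obtain ⟨lX, hlX⟩ : ∃ lX, lX = lc L (rm X true) (ρν true) (f true) (φ true) * x true +
          2 * (2 + 1 / η) * Qt G L (f true) * x true ^ 2 / 2 := ⟨_, rfl⟩
  obtain ⟨lY, hlY⟩ : ∃ lY, lY = lc L (rm X false) (ρν false) (f false) (φ false) * x false +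
          2 * (2 + 1 / η) * Qt G L (f false) * x false ^ 2 / 2 := ⟨_, rfl⟩
  have hlX' : ((∫ t in (-(L / 2))..(L / 2), rm X true t * f true t) - ∫ t, φ true t * ρν true t) * x true +
          2 * (2 + 1 / η) * Qt G L (f true) * x true ^ 2 / 2 = lX := hlX.symm
  have hlY' : ((∫ t in (-(L / 2))..(L / 2), rm X false t * f false t) - ∫ t, φ false t * ρν false t) * x false +
          2 * (2 + 1 / η) * Qt G L (f false) * x false ^ 2 / 2 = lY := hlY.symm
  rw [hlX', hlY', ← hlX, ← hlY]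
  have key : ((1 + 3 * η) * (1 / 2 * eV (hcb h c true) (hcb h c true)) +
        (2 + 2 * η) * (cV * d ^ 2 * (2 * G + 1)) +
        1 / η * (1 / 2 * eV (fun s => rm X true s + -1 * rr X true s) (fun s => rm X true s + -1 * rr X true s))) +
      ((1 + 3 * η) * (1 / 2 * eV (hcb h c false) (hcb h c false)) +
        (2 + 2 * η) * (cV * d ^ 2 * (2 * G + 1)) +
        1 / η * (1 / 2 * eV (fun s => rm X false s + -1 * rr X false s) (fun s => rm X false s + -1 * rr X false s))) ≤
      1 / η * (1 / 2 * X.eR) + (1 / 2 * (∑ i, ∑ j, (1 + 3 * η) * Gm h i j * c i * c j) + e / 2 * ∑ i, c i ^ 2) := by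
    have k1 : ∑ i, ∑ j, (1 + 3 * η) * Gm h i j * c i * c j = (1 + 3 * η) *
        (eV (hcb h c true) (hcb h c true) + eV (hcb h c false) (hcb h c false)) := by
      rw [← Gm_form hc hb, Finset.mul_sum]
      refine Finset.sum_congr rfl fun i _ => ?_
      rw [Finset.mul_sum]
      exact Finset.sum_congr rfl fun j _ => by ring
    have k2 : d ^ 2 ≤ (N * (M * Real.exp (-2 * T)) ^ 2) * ∑ i, c i ^ 2 := by
      have h1 : (∑ i, |c i|) ^ 2 ≤ N * ∑ i, c i ^ 2 := by
        have := sq_sum_le_card_mul_sum_sq (s := (Finset.univ : Finset (Fin N))) (f := fun i => |c i|)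
        simpa using this
      rw [hd, mul_pow]
      calc (∑ i, |c i|) ^ 2 * (M * Real.exp (-2 * T)) ^ 2 ≤ (N * ∑ i, c i ^ 2) * (M * Real.exp (-2 * T)) ^ 2 := by
            gcongr
        _ = _ := by ring
    have k3 : (2 + 2 * η) * (cV * d ^ 2 * (2 * G + 1)) ≤ e / 4 * ∑ i, c i ^ 2 := by
      have h0 : 0 ≤ ∑ i, c i ^ 2 := Finset.sum_nonneg fun i _ => sq_nonneg _
      calc (2 + 2 * η) * (cV * d ^ 2 * (2 * G + 1)) ≤
          (2 + 2 * η) * (cV * ((N * (M * Real.exp (-2 * T)) ^ 2) * ∑ i, c i ^ 2) * (2 * G + 1)) := by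
            gcongr
        _ = ((2 + 2 * η) * (cV * (2 * G + 1)) * (N * (M * Real.exp (-2 * T)) ^ 2)) * ∑ i, c i ^ 2 := by ring
        _ ≤ _ := mul_le_mul_of_nonneg_right he h0
    rw [k1, eR_eq]
    linarith
  obtain ⟨AX, hAX⟩ : ∃ AX, AX = (1 + 3 * η) * (1 / 2 * eV (hcb h c true) (hcb h c true)) +
        (2 + 2 * η) * (cV * d ^ 2 * (2 * G + 1)) +
        1 / η * (1 / 2 * eV (fun s => rm X true s + -1 * rr X true s) (fun s => rm X true s + -1 * rr X true s)) :=
    ⟨_, rfl⟩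
  obtain ⟨AY, hAY⟩ : ∃ AY, AY = (1 + 3 * η) * (1 / 2 * eV (hcb h c false) (hcb h c false)) +
        (2 + 2 * η) * (cV * d ^ 2 * (2 * G + 1)) +
        1 / η * (1 / 2 * eV (fun s => rm X false s + -1 * rr X false s) (fun s => rm X false s + -1 * rr X false s)) :=
    ⟨_, rfl⟩
  rw [← hAX, ← hAY] at key ⊢
  obtain ⟨Bx, hBx⟩ : ∃ Bx, Bx = Bs G L δ η p (rm X true) (E true) := ⟨_, rfl⟩
  obtain ⟨By, hBy⟩ : ∃ By, By = Bs G L δ η n (rm X false) (E false) := ⟨_, rfl⟩
  rw [← hBx] at b1 ⊢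
  rw [← hBy] at b2 ⊢
  obtain ⟨U, hU⟩ : ∃ U, U = 1 / η * (1 / 2 * X.eR) := ⟨_, rfl⟩
  obtain ⟨Z, hZ⟩ : ∃ Z, Z = 1 / 2 * (∑ i, ∑ j, (1 + 3 * η) * Gm h i j * c i * c j) + e / 2 * ∑ i, c i ^ 2 :=
    ⟨_, rfl⟩
  rw [← hU, ← hZ] at key ⊢
  calc Bx * (Real.exp AX * Real.exp lX) * (By * (Real.exp AY * Real.exp lY)) =
      Bx * By * (Real.exp (AX + AY) * Real.exp (lX + lY)) := by
        rw [Real.exp_add, Real.exp_add]
        ring
    _ ≤ Bx * By * (Real.exp (U + Z) * Real.exp (lX + lY)) := by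
        have := Real.exp_le_exp.2 key
        gcongr
    _ = _ := by
        rw [Real.exp_add U Z]
        ring

/-- **the weight with the form of finite rank** -/
theorem expW (hG9 : 9 ≤ G) (hT : 0 < T) (hδ : 0 ≤ δ) (hL : L = 2 * T + 2 * G)
    (hm : ∀ a, Tl (rm X a) T δ) (hr : ∀ a, Tl (rr X a) T δ)
    (hG : Geo X tc Cκ) (hR : Reg X) (hM : 0 ≤ M) (hc : ∀ i a, Continuous (h i a))
    (hb : ∀ i a t, |h i a t| ≤ M * Real.exp (-2 * |t|)) (hη : 0 < η)
    {E E' : Bool → ℝ → ℝ} (hE : ∀ a, C1P L (E a) (E' a)) (hF : ∀ a x, |x| ≤ T → X.φ a x ≤ E a x)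
    {f f' φ ρν : Bool → ℝ → ℝ} (hf : ∀ a, C1P L (f a) (f' a)) (hφ : ∀ a x, |x| ≤ T → φ a x = f a x)
    (hφc : ∀ a, Continuous (φ a)) {e θ K Cf : ℝ}
    (he : (2 + 2 * η) * (cV * (2 * G + 1)) * (N * (M * Real.exp (-2 * T)) ^ 2) ≤ e / 4)
    (hfd : Fd N K ((1 + 3 * η) * θ) e Cf) {Sm : Fin N → Fin N → ℝ} (hK : (1 + 3 * η) * KG M ≤ K)
    (hSb : ∀ i j, |Sm i j| ≤ K) (hSs : ∀ i j, Sm i j = Sm j i)
    (hop : ∀ b : Fin N → ℝ, ∑ i, ∑ j, Sm i j * (∑ k, Gm h i k * b k) * (∑ k, Gm h j k * b k) ≤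
      θ * ∑ i, ∑ j, b i * Gm h i j * b j) (x : Bool → ℝ) :
    ∫⁻ ω : (Fin p → ℝ) × (Fin n → ℝ), (WT T p (rm X true) (X.φ true) ω.1 * WT T n (rm X false) (X.φ false) ω.2 *
      ENNReal.ofReal (Real.exp (Qs X h Sm ω))) *
      ENNReal.ofReal (Real.exp (x true * nuF (ρν true) ω.1 (φ true) + x false * nuF (ρν false) ω.2 (φ false))) ≤
      ENNReal.ofReal (Bs G L δ η p (rm X true) (E true) * Bs G L δ η n (rm X false) (E false) *
        Real.exp (1 / η * (1 / 2 * X.eR))) * ENNReal.ofReal Cf *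
      ENNReal.ofReal (Real.exp (
        (lc L (rm X true) (ρν true) (f true) (φ true) * x true +
          2 * (2 + 1 / η) * Qt G L (f true) * x true ^ 2 / 2) +
        (lc L (rm X false) (ρν false) (f false) (φ false) * x false +
          2 * (2 + 1 / η) * Qt G L (f false) * x false ^ 2 / 2))) := by
  have mW : ∀ (a : Bool) (m : ℕ), Measurable (WT T m (rm X a) (X.φ a)) := fun a m =>
    WT_meas (rm_cont hG hR a).measurable (hR.φc a).measurable m
  have mx : Measurable fun ω : (Fin p → ℝ) × (Fin n → ℝ) =>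
      ENNReal.ofReal (Real.exp (x true * nuF (ρν true) ω.1 (φ true) + x false * nuF (ρν false) ω.2 (φ false))) := by
    refine ENNReal.measurable_ofReal.comp (Real.measurable_exp.comp ?_)
    exact ((measurable_nuF measurable_fst (hφc true)).const_mul _).add
      ((measurable_nuF measurable_snd (hφc false)).const_mul _)
  have hS1 : ∀ i j, Gm h i j = Gm h j i := fun i j => by
    rw [Gm_eq, Gm_eq, eV_symm (tl_one (hc i true) (hb i true) 0) (tl_one (hc j true) (hb j true) 0),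
      eV_symm (tl_one (hc i false) (hb i false) 0) (tl_one (hc j false) (hb j false) 0)]
  have q1 : ∀ c : Fin N → ℝ, ∑ i, ∑ j, (1 + 3 * η) * Gm h i j * c i * c j =
      (1 + 3 * η) * ∑ i, ∑ j, Gm h i j * c i * c j := fun c => by
    rw [Finset.mul_sum]
    refine Finset.sum_congr rfl fun i _ => ?_
    rw [Finset.mul_sum]
    exact Finset.sum_congr rfl fun j _ => by ring
  have h1 := hfd (fun i j => (1 + 3 * η) * Gm h i j) Sm (fun i j => by
      rw [abs_mul, abs_of_pos (by positivity)]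
      exact (mul_le_mul_of_nonneg_left (Gm_abs hc hb i j) (by positivity)).trans hK)
    hSb hSs (fun i j => by rw [hS1 i j])
    (fun c => by
      rw [q1, Gm_form hc hb]
      have h0 : ∀ a, 0 ≤ eV (hcb h c a) (hcb h c a) := fun a =>
        psd le_rfl (mul_nonneg (Finset.sum_nonneg fun i _ => abs_nonneg _)
          (mul_nonneg hM (Real.exp_pos _).le)) (tl_hcb hc hb c a 0)
      have := h0 true
      have := h0 false
      positivity)
    (fun c => by
      have h2 := hop c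
      have e1 : ∀ i, ∑ k, (1 + 3 * η) * Gm h i k * c k = (1 + 3 * η) * ∑ k, Gm h i k * c k := fun i => by
        rw [Finset.mul_sum]
        exact Finset.sum_congr rfl fun k _ => by ring
      have e2 : ∑ i, ∑ j, Sm i j * (∑ k, (1 + 3 * η) * Gm h i k * c k) * (∑ k, (1 + 3 * η) * Gm h j k * c k) =
          (1 + 3 * η) ^ 2 * ∑ i, ∑ j, Sm i j * (∑ k, Gm h i k * c k) * (∑ k, Gm h j k * c k) := by
        rw [Finset.mul_sum]
        refine Finset.sum_congr rfl fun i _ => ?_
        rw [Finset.mul_sum]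
        refine Finset.sum_congr rfl fun j _ => ?_
        rw [e1, e1]
        ring
      have e3 : ∑ i, ∑ j, c i * Gm h i j * c j = ∑ i, ∑ j, Gm h i j * c i * c j :=
        Finset.sum_congr rfl fun i _ => Finset.sum_congr rfl fun j _ => by ring
      rw [e3] at h2
      rw [e2, q1]
      calc (1 + 3 * η) ^ 2 * ∑ i, ∑ j, Sm i j * (∑ k, Gm h i k * c k) * (∑ k, Gm h j k * c k) ≤
          (1 + 3 * η) ^ 2 * (θ * ∑ i, ∑ j, Gm h i j * c i * c j) := by gcongr
        _ = _ := by ring)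
    volume (fun ω : (Fin p → ℝ) × (Fin n → ℝ) =>
      (WT T p (rm X true) (X.φ true) ω.1 * WT T n (rm X false) (X.φ false) ω.2) *
      ENNReal.ofReal (Real.exp (x true * nuF (ρν true) ω.1 (φ true) + x false * nuF (ρν false) ω.2 (φ false))))
    (yi X h) ((((mW true p).comp measurable_fst).mul ((mW false n).comp measurable_snd)).mul mx)
    (fun i => yi_meas hc hb i)
    (ENNReal.ofReal (Bs G L δ η p (rm X true) (E true) * Bs G L δ η n (rm X false) (E false) *
        Real.exp (1 / η * (1 / 2 * X.eR))) *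
      ENNReal.ofReal (Real.exp (
        (lc L (rm X true) (ρν true) (f true) (φ true) * x true +
          2 * (2 + 1 / η) * Qt G L (f true) * x true ^ 2 / 2) +
        (lc L (rm X false) (ρν false) (f false) (φ false) * x false +
          2 * (2 + 1 / η) * Qt G L (f false) * x false ^ 2 / 2))))
    (fun c => by
      have h3 := expC (p := p) (n := n) hG9 hT hδ hL hm hr hG hR hM hc hb hη hE hF hf hφ hφc (ρν := ρν) he c x
      refine le_trans (le_of_eq ?_) (h3.trans (le_of_eq (by ring)))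
      refine lintegral_congr fun ω => ?_
      rw [mul_assoc (_ * _), ← ENNReal.ofReal_mul (Real.exp_pos _).le, ← Real.exp_add, add_comm (∑ i, _)])
  refine le_trans (le_of_eq ?_) (h1.trans (le_of_eq (by ring)))
  refine lintegral_congr fun ω => ?_
  unfold Qs
  ring

end

end PLT.Gs
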