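import Pool.Agent.PLT.GH0
import Pool.Agent.NUH0.H0fin

/-!
# THETA B1a: the crude bound on a static curve in the form of `NUS4.fin`

`H0fin`: two radii `Rw ≤ Rb`.  With the cut `cN Nw Rb` (a quantum beyond `Rb` pays `β`, its cutoff factor pays for
it): the total integral with grid squares and the tail, with the small constant `c1` of the moving kernels (masses of
the objects `mb` only times `c1`).  With the cut `cN Nw Rw`, no payment: the exponential squares `SqW2` on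
`[-Rw, Rw]` with the constant `1 / (8 (C₂ (Rw + 1)))` and `m2²` in the exponent.
-/

set_option autoImplicit false
set_option linter.unusedSectionVars false

open MeasureTheory Set Filter Topology
open scoped Real ENNReal

namespace PLT.Gs

open NUH0
open NUMF NUWC NUKer NUDi NUMFC NUR2

noncomputable section

variable {X : Dat} {p n : ℕ}

/-- the exponent of the window without the masses of the objects -/
def Ex1 (X : Dat) (p n : ℕ) (ε' C C1 T Λ m3 ε : ℝ) : ℝ :=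
  X.Mp p n + X.En + (7 / 3 + ε') * T + (C * (1 + NT X T + X.eR) + C1 + C * Λ * m3 ^ 2 +
    ε / 2 * ((p : ℝ) + n + ss X) ^ 2)

theorem Ex_eq1 {ε' C C1 Kq T c' R m2 Λ m3 ε : ℝ} :
    Ex X p n ε' C C1 Kq T c' R m2 Λ m3 ε = Ex1 X p n ε' C C1 T Λ m3 ε + Kq * c' * R * m2 ^ 2 := by
  unfold Ex Ex1
  ring

/-- the growth of the exponent -/
theorem Ex1_le {ε' C C1 Λ m3 ε T0 T N0 e1 : ℝ} (hC : 0 ≤ C) (he : C * e1 ≤ ε') (hT : T0 ≤ T)
    (hN : NT X T ≤ N0 + e1 * (T - T0)) :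
    Ex1 X p n ε' C C1 T Λ m3 ε ≤ (X.Mp p n + X.En + (7 / 3 + ε') * T0 +
      (C * (1 + N0 + X.eR) + C1 + C * Λ * m3 ^ 2 + ε / 2 * ((p : ℝ) + n + ss X) ^ 2)) +
      (7 / 3 + 2 * ε') * (T - T0) := by
  have h3 : C * (1 + NT X T + X.eR) ≤ C * (1 + N0 + X.eR) + ε' * (T - T0) := by
    have h4 : C * (1 + NT X T + X.eR) ≤ C * (1 + (N0 + e1 * (T - T0)) + X.eR) := by gcongr
    have h5 : C * e1 * (T - T0) ≤ ε' * (T - T0) :=
      mul_le_mul_of_nonneg_right he (by linarith)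
    linarith
  unfold Ex1
  linarith

/-- hypotheses for the two radii `Rw ≤ Rb`; `d0`: size of the moving kernels outside `[-Rw, Rw]`, `β` payment -/
structure Hyp1 (X : Dat) (p n : ℕ) (θ c tc k Kq Λ M : ℝ) (N : ℕ)
    (m T0 Rw Rb Nw ε c' m2 mb m3 d0 β : ℝ) : Prop where
  m1 : 1 ≤ m
  pk : (p : ℝ) ≤ k * m
  nk : (n : ℝ) ≤ k * m
  sk : ∀ a, X.s a ≤ k * m
  mT : 3 / 8 * Real.log m ≤ T0
  T0p : 0 < T0
  T0R : T0 ≤ Rw
  RR : Rw ≤ Rb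
  geo : ∃ Cκ, Geo X tc Cκ
  fld : Fld X p n
  reg : ∃ δ, RegT X T0 δ
  stk : ∃ (hh : Fin N → Bool → ℝ → ℝ) (Sm : Fin N → Fin N → ℝ) (kt : Bool → Bool → ℝ → ℝ → ℝ),
    StK X.ks N hh Sm θ M Λ c kt
  ε0 : 0 ≤ ε
  d00 : 0 ≤ d0
  ker : ∀ a d t t', (Rw < |t| ∨ Rw < |t'|) → |X.kd a d t t'| ≤ ε / 3 + d0
  dW : d0 * ((p : ℝ) + n + ss X) ≤ β
  dP : d0 * ∫ t in {t | Rw < |t|}, X.P t ≤ ε / 3
  kc : ∃ Λ1, 0 ≤ Λ1 ∧ 4 * Λ1 ≤ c' ∧ (∀ a d, KC (Rw + Nw) Λ1 (fun t t' => ((X.kd a d t t' : ℝ) : ℂ))) ∧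
    ∀ a d, KC (Rb + Nw) Λ1 (fun t t' => ((X.kd a d t t' : ℝ) : ℂ))
  c0 : 0 < c'
  cq : 8 * c' * (Kq * (Rb + Nw)) ≤ 1
  m2 : ∀ a, ∫ t in {t | |t| ≤ Rw + Nw}, |X.μ a t| ≤ m2
  mb : ∀ a, ∫ t in {t | |t| ≤ Rb + Nw}, |X.μ a t| ≤ mb
  m3 : ∀ a, ∫ t, wc c t * |X.μ a t - X.r a t| ≤ m3

/-- a kernel and its cut, the value outside paid by the two cuts -/
theorem cut_ker2 {b b' κ ε d : ℝ} (h0 : 0 ≤ b) (h1 : b ≤ 1) (h0' : 0 ≤ b') (h1' : b' ≤ 1)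
    (h : b ≠ 1 ∨ b' ≠ 1 → |κ| ≤ ε + d) (hε : 0 ≤ ε) (hd : 0 ≤ d) :
    |κ - b * b' * κ| ≤ ε + d * ((1 - b) + (1 - b')) := by
  have hr : 0 ≤ d * ((1 - b) + (1 - b')) := mul_nonneg hd (by linarith)
  by_cases hb : b = 1 ∧ b' = 1
  · rw [hb.1, hb.2, one_mul, one_mul, sub_self, abs_zero]
    have h2 : (0 : ℝ) ≤ d * ((1 - 1) + (1 - 1)) := by simp
    linarith
  · have h2 : |κ| ≤ ε + d := h (by
      by_contra hcon
      push Not at hcon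
      exact hb hcon)
    have e : κ - b * b' * κ = (1 - b * b') * κ := by ring
    have h3 : 0 ≤ 1 - b * b' := by nlinarith
    have h4 : 1 - b * b' ≤ 1 := by nlinarith [mul_nonneg h0 h0']
    have h5 : 1 - b * b' ≤ (1 - b) + (1 - b') := by nlinarith [mul_nonneg (sub_nonneg.2 h1) (sub_nonneg.2 h1')]
    rw [e, abs_mul, abs_of_nonneg h3]
    calc (1 - b * b') * |κ| ≤ (1 - b * b') * (ε + d) := mul_le_mul_of_nonneg_left h2 h3
      _ = (1 - b * b') * ε + (1 - b * b') * d := by ring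
      _ ≤ 1 * ε + ((1 - b) + (1 - b')) * d :=
          add_le_add (mul_le_mul_of_nonneg_right h4 hε) (mul_le_mul_of_nonneg_right h5 hd)
      _ = _ := by ring

/-- the sea beyond a cut -/
theorem cut_sea {P b : ℝ → ℝ} {R : ℝ} (hP : Integrable P) (hP0 : ∀ t, 0 ≤ P t) (hb : Continuous b)
    (h0 : ∀ t, 0 ≤ b t) (h1 : ∀ t, b t ≤ 1) (h2 : ∀ t, |t| ≤ R → b t = 1) :
    ∫ t, (1 - b t) * P t ≤ ∫ t in {t | R < |t|}, P t := by
  have hm : MeasurableSet {t : ℝ | R < |t|} := measurableSet_lt measurable_const measurable_norm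
  rw [← integral_indicator hm]
  refine integral_mono_of_nonneg (ae_of_all _ fun t => mul_nonneg (by linarith [h1 t]) (hP0 t))
    (hP.indicator hm) (ae_of_all _ fun t => ?_)
  show (1 - b t) * P t ≤ _
  by_cases ht : R < |t|
  · rw [indicator_of_mem (show t ∈ {t : ℝ | R < |t|} from ht)]
    have := mul_nonneg (h0 t) (hP0 t)
    nlinarith
  · rw [indicator_of_notMem (show t ∉ {t : ℝ | R < |t|} from ht), h2 t (not_lt.1 ht)]
    simp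

theorem Hyp1.to0 {θ c tc k Kq Λ M m T0 Rw Rb Nw ε c' m2 mb m3 d0 β : ℝ} {N : ℕ}
    (h : Hyp1 X p n θ c tc k Kq Λ M N m T0 Rw Rb Nw ε c' m2 mb m3 d0 β) {R mm : ℝ} (hR : Rw ≤ R)
    (hc : Cut1 (R + Nw) (cN Nw R) (cN1 Nw R)) (h0 : ∀ x, 0 ≤ cN Nw R x) (h1 : ∀ x, cN Nw R x ≤ 1)
    (h2 : ∀ x, |x| ≤ R → cN Nw R x = 1) {c'' : ℝ} (hcc : c' ≤ c'')
    (hk : ∀ Λ1, (∀ a d, KC (Rw + Nw) Λ1 (fun t t' => ((X.kd a d t t' : ℝ) : ℂ))) →
      (∀ a d, KC (Rb + Nw) Λ1 (fun t t' => ((X.kd a d t t' : ℝ) : ℂ))) →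
      ∀ a d, KC (R + Nw) Λ1 (fun t t' => ((X.kd a d t t' : ℝ) : ℂ)))
    (hq : 8 * c'' * (Kq * (R + Nw)) ≤ 1) (hm : ∀ a, ∫ t in {t | |t| ≤ R + Nw}, |X.μ a t| ≤ mm) :
    Hyp0 X p n θ c tc k Kq Λ M N m T0 (R + Nw) ε c'' mm m3 d0 β (cN Nw R) (cN1 Nw R) where
  m1 := h.m1
  pk := h.pk
  nk := h.nk
  sk := h.sk
  mT := h.mT
  T0p := h.T0p
  geo := h.geo
  fld := h.fld
  reg := h.reg
  stk := h.stk
  cut := hc
  d00 := h.d00
  ker a d t t' := cut_ker2 (h0 t) (h1 t) (h0 t') (h1 t') (fun hb => h.ker a d t t' (by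
    rcases hb with hb | hb
    · exact Or.inl (not_le.1 fun hh => hb (h2 t (hh.trans hR)))
    · exact Or.inr (not_le.1 fun hh => hb (h2 t' (hh.trans hR))))) (by linarith [h.ε0]) h.d00
  dW := h.dW
  dP := by
    obtain ⟨Cκ, hG⟩ := h.geo
    have hPi : Integrable X.P := by
      by_contra hcon
      have h3 := hG.P1
      rw [integral_undef hcon] at h3
      exact zero_ne_one h3
    have h3 := cut_sea (R := Rw) hPi hG.P0 hc.cutf.cont h0 h1 (fun t ht => h2 t (ht.trans hR))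
    exact (mul_le_mul_of_nonneg_left h3 h.d00).trans h.dP
  kc := by
    obtain ⟨Λ1, e1, e2, e3, e4⟩ := h.kc
    exact ⟨Λ1, e1, by linarith, hk Λ1 e3 e4⟩
  c0 := by linarith [h.c0]
  cq := hq
  m2 := hm
  m3 := h.m3

/-- a factor `e^M` of the mass as a constant of the squares -/
theorem sqW2_shift {R c K M A : ℝ} {ρ σ : ℝ → ℝ} {g : Cfg p n → ℝ≥0∞} (hA : 0 ≤ A)
    (h : SqW2 g R ρ σ (ENNReal.ofReal (A * Real.exp M)) c K) :
    SqW2 g R ρ σ (ENNReal.ofReal A) c (M + K) := by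
  have e : ENNReal.ofReal (A * Real.exp M) * ENNReal.ofReal (Real.exp K) =
      ENNReal.ofReal A * ENNReal.ofReal (Real.exp (M + K)) := by
    rw [← ENNReal.ofReal_mul (by positivity), ← ENNReal.ofReal_mul hA, Real.exp_add]
    congr 1
    ring
  exact ⟨fun a => e ▸ h.cosX a, fun a => e ▸ h.sinX a, fun a => e ▸ h.cosY a, fun a => e ▸ h.sinY a⟩

/-- **H0 in the form of `fin`** -/
theorem H0fin {ε' θ c tc k : ℝ} (hSh : ShH0 ε' θ c tc k) : ∃ C Kq Λ0 Nw C₂ : ℝ, 0 ≤ C ∧ 1 ≤ Kq ∧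
    0 < Λ0 ∧ 1 ≤ Nw ∧ 0 < C₂ ∧ ∀ (N : ℕ) (M : ℝ), ∃ C1 T1 : ℝ, 0 ≤ C1 ∧
    ∀ {X : Dat} {p n : ℕ} {m T0 Rw Rb ε c1 m2 mb m3 Λ d0 β : ℝ}, T1 ≤ T0 → Λ ≤ Λ0 →
    Hyp1 X p n θ c tc k Kq Λ M N m T0 Rw Rb Nw ε c1 m2 mb m3 d0 β →
    ∀ {aX aY cf B : ℝ → ℝ} {D q : ℝ}, Shl X aX aY cf B D q → (∀ t, Rb ≤ |t| → cf t * Real.exp β ≤ 1) →
    ∀ {E1 g e1 : ℝ}, 0 ≤ g → g < q → 0 ≤ e1 → β ≤ e1 * Rb → e1 ≤ (q - g) / 2 →
    (∀ T, T0 ≤ T → Ex1 X p n ε' C C1 T Λ m3 ε ≤ E1 + g * (T - T0)) →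
    (∀ {ch : ℝ → ℝ} {K h : ℝ}, Grid ch K h → ∀ (La : Finset ℤ) (a0 : ℝ),
      ∫⁻ x, ENNReal.ofReal (W0 X p n aX aY cf x) * ENNReal.ofReal (Real.exp (1 / 2 *
        ∑ l ∈ La, NU42.Fst ch h a0 (tf X) l x.1 x.2 ^ 2)) ≤
      ENNReal.ofReal ((p.factorial : ℝ) * n.factorial *
        Real.exp (E1 + Kq * c1 * (Rb + Nw) * mb ^ 2 + e1 * T0 + 1) * (1 + shF D q g T0))) ∧
    (∀ R1, T0 ≤ R1 → ∫⁻ x in (Bx (p := p) (n := n) R1)ᶜ, ENNReal.ofReal (W0 X p n aX aY cf x) ≤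
      ENNReal.ofReal ((p.factorial : ℝ) * n.factorial *
        Real.exp (E1 + Kq * c1 * (Rb + Nw) * mb ^ 2 + e1 * T0 + 1) *
        (Real.exp (-(q - g - e1) * (R1 - T0)) * shF D q g T0))) ∧
    SqW2 (p := p) (n := n) (fun x => ENNReal.ofReal (W0 X p n aX aY cf x)) Rw (X.ρ true) (X.ρ false)
        (ENNReal.ofReal ((p.factorial : ℝ) * n.factorial * Real.exp E1 * (1 + shF D q g T0)))
        (1 / (8 * (C₂ * (Rw + 1)))) (m2 ^ 2 + (tc * k) ^ 2) := by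
  obtain ⟨C, Kq, Λ0, hC0, hKq, hΛ0, hC⟩ := H0 hSh
  obtain ⟨Nw, hN1, hN⟩ := exists_cut1
  refine ⟨C, Kq, Λ0, Nw, 2 * Kq * Nw, hC0, hKq, hΛ0, hN1, by positivity, fun N M => ?_⟩
  obtain ⟨C1, T1, hC1, hC⟩ := hC N M
  refine ⟨C1, T1, hC1, ?_⟩
  intro X p n m T0 Rw Rb ε c1 m2 mb m3 Λ d0 β hT1 hΛ hH aX aY cf B D q hS hcf E1 g e1 hg0 hg he10 hβe he1 hEx
  have hRw : 0 < Rw := hH.T0p.trans_le hH.T0R
  have hRR := hH.RR
  have hRb : 0 < Rb := hRw.trans_le hRR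
  obtain ⟨hcut, hb0, hb1, hb2⟩ := hN Rw hRw.le
  obtain ⟨hcut', hb0', hb1', hb2'⟩ := hN Rb hRb.le
  have hRN : 0 < Rw + Nw := by linarith
  have hKq0 : 0 < Kq := by linarith
  have hc1 := hH.c0
  have hcq := hH.cq
  obtain ⟨c2, hc2⟩ : ∃ c2 : ℝ, c2 = 1 / (8 * (Kq * (Rw + Nw))) := ⟨_, rfl⟩
  have hc2q : 8 * c2 * (Kq * (Rw + Nw)) = 1 := by
    rw [hc2]
    field_simp
  have hc12 : c1 ≤ c2 := by
    rw [hc2, le_div_iff₀ (by positivity)]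
    have h1 : c1 * (8 * (Kq * (Rw + Nw))) ≤ c1 * (8 * (Kq * (Rb + Nw))) := by gcongr
    linarith
  have hc20 : 0 < c2 := by linarith
  have hc2s : c2 ≤ 1 / 8 := by
    rw [hc2]
    refine one_div_le_one_div_of_le (by norm_num) ?_
    nlinarith
  have hA := (hC hT1 hΛ (hH.to0 (R := Rb) (mm := mb) hRR hcut' hb0' hb1' hb2' le_rfl (fun _ _ h => h) hcq hH.mb)
    hS (E0 := E1 + Kq * c1 * (Rb + Nw) * mb ^ 2) hg0 hg (fun T hT => by
      have h2 := hEx T hT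
      rw [Ex_eq1]
      linarith)).1 hb0' hb2' hcf he10 hβe he1
  have hB := (hC hT1 hΛ (hH.to0 (R := Rw) (mm := m2) le_rfl hcut hb0 hb1 hb2 hc12 (fun _ h _ => h) hc2q.le hH.m2)
    hS (E0 := E1 + m2 ^ 2) hg0 hg (fun T hT => by
      have h2 := hEx T hT
      rw [Ex_eq1]
      have h3 : Kq * c2 * (Rw + Nw) * m2 ^ 2 = 1 / 8 * m2 ^ 2 := by
        have e : Kq * c2 * (Rw + Nw) = 1 / 8 * (8 * c2 * (Kq * (Rw + Nw))) := by ring
        rw [e, hc2q, mul_one]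
      have h4 := sq_nonneg m2
      linarith)).2
  refine ⟨hA.1, ?_, ?_⟩
  · intro R1 hR1
    have h1 := hA.2 grid0 ∅ 0 R1 hR1
    simp only [Finset.sum_empty, mul_zero, Real.exp_zero, ENNReal.ofReal_one, mul_one] at h1
    rw [Bw_eq] at h1
    exact h1
  · obtain ⟨Cκ, hG⟩ := hH.geo
    have hτ : ∀ a, ∫ t in {t | Rw < |t|}, |X.ρ a t| ≤ tc * k := by
      intro a
      have h1 := sea_tail (T := Rw) (k := k) hG a hH.m1 (hH.sk a) (hH.mT.trans hH.T0R)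
      refine le_trans (setIntegral_mono_set (hG.ρi a).abs.integrableOn
        (ae_of_all _ fun x => abs_nonneg _) ?_) h1
      refine Filter.Eventually.of_forall fun x hx => ?_
      have hx' : Rw < |x| := hx
      exact hx'.le
    have h2 := hB Rw hH.T0R hb2 hτ
    have h3 : SqW2 (p := p) (n := n) (fun x => ENNReal.ofReal (W0 X p n aX aY cf x)) Rw (X.ρ true)
        (X.ρ false)
        (ENNReal.ofReal ((p.factorial : ℝ) * n.factorial * Real.exp E1 * (1 + shF D q g T0) *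
          Real.exp (m2 ^ 2))) (c2 / 2) (c2 * (tc * k) ^ 2) := by
      refine h2.mono (fun x _ => le_rfl) (ENNReal.ofReal_le_ofReal (le_of_eq ?_))
      rw [Real.exp_add]
      ring
    have hsh := shF_nonneg (T0 := T0) hS.D0 hg
    refine (sqW2_shift (by positivity) h3).monoC ?_ ?_
    · rw [hc2, div_div]
      refine one_div_le_one_div_of_le (by positivity) ?_
      nlinarith [mul_nonneg (mul_nonneg hKq0.le (by linarith : (0:ℝ) ≤ Nw - 1)) hRw.le]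
    · nlinarith [mul_le_mul_of_nonneg_right hc2s (sq_nonneg (tc * k)), sq_nonneg (tc * k)]

end

end PLT.Gs
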