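import Pool.Agent.PLT.InHC
import Pool.Agent.PLT.TopDef
import Pool.Agent.PLT.DatCC
import Pool.Agent.PLT.EnId

/-!
# The data of every configuration over a sea on a static curve (statement)

* **`ObjC P x X`** (= `Cv.OcL`): the abstract object `X` (`Cv.Oc`) has the potentials, the height and the charge of the
  object `x`;
* **`DatGHC SB Q P`**: twin of `PotH.PLX.DatGH6`: the data `inC` of every configuration satisfy `Cv.DatCC`, for every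
  family of abstract objects.
-/

set_option autoImplicit false
set_option linter.unusedSectionVars false

noncomputable section

open MeasureTheory Finset Filter Topology
open PLX (Fil Ends)

namespace PLT

open NUO (Xo ht sp Tb TW excS)
open NUC43 (sg)
open NUSea.PLX.H0 (Inp Gd)
open NUGC.PLX (SC chG gP FamOk)
open PHK (Par6 chgO6 nA6 kq6 k6)
open PotH.PLX (sN HOk cfH)

/-- **the abstract object `X` of the object `x`** -/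
abbrev ObjC (P : Par6) (x : Xo) (X : Cv.Oc) : Prop := Cv.OcL P x X

/-- **the data of every configuration, with a potential** -/
def DatGHC [Fil] [Ends] (SB : SeaCB) (Q : Cv.Par7) (P : Par6) : Prop :=
  ∀ G : ℕ, ∃ W : ℝ, 0 ≤ W ∧ ∀ ep : ℝ, 0 < ep → ep ≤ 1 / 100 → ∀ e1 : ℝ, 0 < e1 → e1 ≤ 1 / 100 →
    ∀ Cc C0 : ℝ, 1 ≤ Cc → 1 ≤ C0 → ∀ B0 N0 : ℝ, 0 ≤ B0 → 0 ≤ N0 →
    ∃ (k : ℕ) (κ CB C : ℝ), 0 < κ ∧ 0 ≤ CB ∧ 0 ≤ C ∧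
    ∀ ϑ : ℝ, 0 < ϑ → ∃ d : ℝ, 0 < d ∧ ∃ m0 : ℕ, ∀ [S : SeaC] [SeaCU SB], ∀ m : ℕ, m0 ≤ m →
    ∀ η η1 : ℝ → ℝ, CrvP e1 Cc m η η1 →
    ∀ cr Bc Bc' : ℝ → ℝ, CutC ep C0 ((1 - e1) * Tb (Real.log m)) m cr Bc Bc' →
    ∀ b' : ℝ, |b'| ≤ d → ∀ (T1 x : ℝ) (g : Fin G → Gd), TW ep e1 m ≤ T1 → FamOk T1 x g →
    ∃ B1 : ℝ → ℝ, ContDiff ℝ 1 B1 ∧ (∀ t, 0 ≤ B1 t) ∧ (∀ t, B1 t ≤ W) ∧
      Integrable (fun t => (m : ℝ) * Cv.P t * B1 t) ∧ (∫ t, (m : ℝ) * Cv.P t * B1 t) ≤ C ∧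
    ∀ H H' : Bool → ℝ → ℝ, HOk B0 N0 d ((1 - e1) * Tb (Real.log m)) (Real.log m ^ 3) H H' →
    ∀ nX nY : ℕ, nX ≤ 8 * Fil.qo * m → nY ≤ 8 * Fil.qo * m →
      (nX : ℝ) + (Fil.xe m : ℕ) - nY = -chG g →
    ∀ r : ℕ, r ≤ 32 * Fil.qo * m → ∀ O : Fin r → Xo, chgO6 O true ≤ nX → chgO6 O false ≤ nY →
      TW ep e1 m + excS (TW ep e1 m) O ≤ T1 →
    ∀ (A εo : ℝ) (O' : Fin r → Cv.Oc), (∀ i, ObjC P (O i) (O' i)) →
      (∀ i, (O' i).Ok (Q.lo - Q.w) (Q.hi + Q.w) Q.kd A εo Q.c) →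
      (∀ i j, Cv.Oc.Pr εo Q.c (O' i) (O' j)) →
    ∃ D : ℝ, Cv.DatCC SB Q A εo ep e1 κ CB ϑ (64 * (Fil.qo : ℕ)) k m (inC η η1 m T1 b' g B1 H) O'
        (fun i => (gP T1 g i).τ) (nA6 nX O true) (nA6 nY O false)
        (aCC P η m T1 b' g H O true) (aCC P η m T1 b' g H O false)
        (cfH cr G T1 x) B1 T1 D (49 / 20) (SC G x) ∧
      D * Real.exp (-(49 / 20 * TW ep e1 m)) ≤ SC G x

end PLT

end
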