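import Pool.Agent.PLT.GH0fin
import Pool.Agent.NUH0.Inst

/-!
# THETA B1a: the instance of a configuration on a static curve

`Inst X tc K p n k A κ Kd J m h T' b`: what is needed of the data of a configuration (`h` heights of the
objects, class `K` of static kernels, moving kernels of size `Kd m ^ (-κ)` supported in
`|t| ≤ b ∨ |t'| ≤ b` up to `Kd log^J m / m`, which does not decay); `crude`: **the crude bound of the gas of a
configuration** (hypothesis: the window bound `ShH0`); `hyp1`: the hypotheses of `H0fin`; `bins`: the sum over the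
heights against a fixed point; `Far`: the quanta beyond the radius `Rb` pay `exp β` each.
-/

set_option autoImplicit false
set_option linter.unusedSectionVars false

open MeasureTheory Set Filter Topology
open scoped Real ENNReal

namespace PLT.Gs

open NUH0 (qc plt plt_le plt_nonneg T0c T0c_ge δc δc_pos delta_log qc_ge T0i T0i_ge T0i_cost m2_le3
  polylog_small exists_cut1 grid0 shF shF_nonneg cut_ker log_qc tail2)
open NUMF NUWC NUKer NUDi NUO NUEnW NUDispW NUMFC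

noncomputable section

/-! ### the masses of `μ - r` against the rest of the static kernels -/

/-- **the sum over the heights against a fixed point is bounded by the window energy** -/
theorem bins {ι : Type*} {c : ℝ} (hc : 0 < c) (s : Finset ι) (t : ι → ℝ) :
    (∑ i ∈ s, Real.exp (-(c * |t i|))) ^ 2 ≤ Real.exp c * Sd c * win s t := by
  rw [sq, Finset.sum_mul_sum]
  refine le_trans (Finset.sum_le_sum fun i _ => Finset.sum_le_sum fun j _ => ?_) (pair_exp_le hc s t)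
  rw [← Real.exp_add]
  apply Real.exp_le_exp.2
  have h1 : |t i - t j| ≤ |t i| + |t j| := abs_sub (t i) (t j)
  nlinarith

/-- the rate of the masses -/
def c3 (c : ℝ) : ℝ := min c (5 / 2) / 2

theorem c3_pos {c : ℝ} (hc : 0 < c) : 0 < c3 c := by
  unfold c3
  have := lt_min hc (by norm_num : (0 : ℝ) < 5 / 2)
  linarith

/-- the masses -/
def M3 (c A : ℝ) {r : ℕ} (h : Fin r → ℝ) : ℝ := A * (4 / c3 c) * ∑ i, Real.exp (-(c3 c * |h i|))

/-- the constant of the masses -/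
def K3 (c : ℝ) : ℝ := (4 / c3 c) ^ 2 * (Real.exp (c3 c) * Sd (c3 c))

theorem K3_pos {c : ℝ} (hc : 0 < c) : 0 < K3 c := by
  have h1 := c3_pos hc
  have h2 := Sd_pos h1
  unfold K3
  positivity

theorem M3_sq {c A : ℝ} (hc : 0 < c) {r : ℕ} (h : Fin r → ℝ) :
    M3 c A h ^ 2 ≤ A ^ 2 * K3 c * win Finset.univ h := by
  have h1 := bins (c3_pos hc) Finset.univ h
  unfold M3 K3
  calc (A * (4 / c3 c) * ∑ i, Real.exp (-(c3 c * |h i|))) ^ 2 =
      A ^ 2 * (4 / c3 c) ^ 2 * (∑ i, Real.exp (-(c3 c * |h i|))) ^ 2 := by ring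
    _ ≤ A ^ 2 * (4 / c3 c) ^ 2 * (Real.exp (c3 c) * Sd (c3 c) * win Finset.univ h) := by gcongr
    _ = _ := by ring

theorem wc_nonneg (c t : ℝ) : 0 ≤ wc c t := by
  unfold wc
  exact div_nonneg zero_le_one (Real.cosh_pos _).le

theorem wc_le {c : ℝ} (hc : 0 < c) (t : ℝ) : wc c t ≤ 2 * Real.exp (-(c * |t|)) := by
  unfold wc
  rw [← Real.cosh_abs, abs_mul, abs_of_pos hc, div_le_iff₀ (Real.cosh_pos _), Real.cosh_eq]
  have h1 : Real.exp (-(c * |t|)) * Real.exp (c * |t|) = 1 := by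
    rw [← Real.exp_add, neg_add_cancel, Real.exp_zero]
  have h2 := Real.exp_pos (-(c * |t|))
  nlinarith [mul_pos h2 h2]

theorem wc_exp {c : ℝ} (hc : 0 < c) (a t : ℝ) : wc c t * Real.exp (-(5 / 2 * |t - a|)) ≤
    2 * Real.exp (-(c3 c * |a|)) * Real.exp (-(c3 c * |t - 0|)) := by
  have h1 := wc_le hc t
  have h3 := Real.exp_pos (-(5 / 2 * |t - a|))
  have h4 : Real.exp (-(c * |t|)) * Real.exp (-(5 / 2 * |t - a|)) ≤
      Real.exp (-(c3 c * |a|)) * Real.exp (-(c3 c * |t - 0|)) := by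
    rw [← Real.exp_add, ← Real.exp_add]
    apply Real.exp_le_exp.2
    have e1 : c3 c ≤ c / 2 := by
      unfold c3
      have := min_le_left c (5 / 2)
      linarith
    have e2 : c3 c ≤ 5 / 4 := by
      unfold c3
      have := min_le_right c (5 / 2)
      linarith
    have e3 := (c3_pos hc).le
    have e4 : |a| ≤ |t| + |t - a| := by
      have := abs_sub_abs_le_abs_sub a t
      rw [abs_sub_comm a t] at this
      linarith
    have e5 := abs_nonneg t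
    have e6 := abs_nonneg (t - a)
    rw [sub_zero]
    have e7 : c3 c * |a| ≤ c3 c * (|t| + |t - a|) := mul_le_mul_of_nonneg_left e4 e3
    nlinarith [mul_le_mul_of_nonneg_right e1 e5, mul_le_mul_of_nonneg_right e2 e6]
  calc wc c t * Real.exp (-(5 / 2 * |t - a|)) ≤
      2 * Real.exp (-(c * |t|)) * Real.exp (-(5 / 2 * |t - a|)) := by gcongr
    _ = 2 * (Real.exp (-(c * |t|)) * Real.exp (-(5 / 2 * |t - a|))) := by ring
    _ ≤ 2 * (Real.exp (-(c3 c * |a|)) * Real.exp (-(c3 c * |t - 0|))) := by gcongr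
    _ = _ := by ring

/-- **the masses of densities near the heights against the weight of the rest** -/
theorem m3_le {c A : ℝ} (hc : 0 < c) (hA : 0 ≤ A) {r : ℕ} {h : Fin r → ℝ} {f : ℝ → ℝ}
    (hf : ∀ t, |f t| ≤ A * bmaj Finset.univ h (5 / 2) t) : ∫ t, wc c t * |f t| ≤ M3 c A h := by
  have hd := c3_pos hc
  have h0 : ∀ i : Fin r, Integrable fun t => A * (2 * Real.exp (-(c3 c * |h i|)) *
      Real.exp (-(c3 c * |t - 0|))) := fun i => ((int_exp_abs hd 0).1.const_mul _).const_mul _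
  have h1 : ∫ t, wc c t * |f t| ≤ ∫ t, ∑ i : Fin r, A * (2 * Real.exp (-(c3 c * |h i|)) *
      Real.exp (-(c3 c * |t - 0|))) := by
    refine integral_mono_of_nonneg (ae_of_all _ fun t => mul_nonneg (wc_nonneg c t) (abs_nonneg _))
      (integrable_finsetSum _ fun i _ => h0 i) (ae_of_all _ fun t => ?_)
    show wc c t * |f t| ≤ _
    have h2 := mul_le_mul_of_nonneg_left (hf t) (wc_nonneg c t)
    refine h2.trans ?_
    unfold bmaj
    rw [Finset.mul_sum, Finset.mul_sum]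
    refine Finset.sum_le_sum fun i _ => ?_
    have h3 := mul_le_mul_of_nonneg_left (wc_exp hc (h i) t) hA
    calc wc c t * (A * Real.exp (-(5 / 2 * |t - h i|))) = A * (wc c t * Real.exp (-(5 / 2 * |t - h i|))) := by
          ring
      _ ≤ _ := h3
  refine h1.trans (le_of_eq ?_)
  rw [integral_finsetSum _ fun i _ => h0 i]
  simp_rw [integral_const_mul, (int_exp_abs hd 0).2]
  unfold M3
  rw [Finset.mul_sum]
  refine Finset.sum_congr rfl fun i _ => ?_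
  ring

/-! ### the instance -/

/-- the data of a configuration with heights `h` -/
structure Inst (X : Dat) (tc : ℝ) (K : Set (Bool → Bool → ℝ → ℝ → ℝ)) (p n : ℕ) (k A κ Kd : ℝ)
    (J m : ℕ) {r : ℕ} (h : Fin r → ℝ) (T' b : ℝ) : Prop where
  pk : (p : ℝ) ≤ k * m
  nk : (n : ℝ) ≤ k * m
  sk : ∀ a, X.s a ≤ k * m
  geo : ∃ Cκ, Geo X tc Cκ
  st : X.ks ∈ K
  fld : Fld X p n
  reg : Reg X
  φd : ∀ a t, HasDerivAt (X.φ a) (X.φ' a t) t
  φc' : ∀ a, Continuous (X.φ' a)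
  φq : ∀ a t, |X.φ a t| ≤ qc A r m ^ 2
  μM : ∀ a t, |X.μ a t| ≤ A * (bmaj Finset.univ h (5 / 2) t + plt T' t)
  rM : ∀ a t, |X.r a t| ≤ A * (bmaj Finset.univ h (5 / 2) t + plt T' t)
  dM : ∀ a t, |X.μ a t - X.r a t| ≤ A * bmaj Finset.univ h (5 / 2) t
  kb : ∀ a d t t', b < |t| → b < |t'| → X.kd a d t t' = 0
  kp : ∀ a d t t', |X.kd a d t t'| ≤ Kd * (m : ℝ) ^ (-κ) * Real.exp (-|t - t'|) +
    Kd * Real.log m ^ J / m * (Real.exp (-|t|) + Real.exp (-|t'|))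
  kc : ∀ R, 1 ≤ R → Kd * R ^ J * (m : ℝ) ^ (-κ) ≤ 1 → ∀ a d,
    KC R (Kd * R ^ J * (m : ℝ) ^ (-κ)) (fun t t' => ((X.kd a d t t' : ℝ) : ℂ))

variable {X : Dat} {tc : ℝ} {K : Set (Bool → Bool → ℝ → ℝ → ℝ)} {p n : ℕ} {k A κ Kd : ℝ} {J m r : ℕ}
  {h : Fin r → ℝ} {T' b : ℝ}

/-! ### tails -/

/-- **tail of the sea and of the objects** -/
theorem rm_tail {P : ℝ → ℝ} {Y q ε₂ : ℝ} {M k m s L : ℝ} {μ : ℝ → ℝ} (htc : 0 ≤ tc)
    (hP0 : ∀ t, 0 ≤ P t) (hPT : ∀ t, P t ≤ tc / 2 * Real.exp (-(8 / 3) * |t|)) (hM : 0 ≤ M)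
    (hμ : ∀ t, |μ t| ≤ M * bmaj Finset.univ h (5 / 2) t) (hm : 1 ≤ m) (hL : L = Real.log m)
    (hs0 : 0 ≤ s) (hs : s ≤ k * m) (hT : 3 / 8 * L ≤ T') (hh : ∀ i, |h i| ≤ T' + Y) (hY : 0 ≤ Y)
    (hε : 0 ≤ ε₂) (hq1 : 1 ≤ q) (hqr : (r : ℝ) ≤ q) (hqk : tc * k ≤ q) (hqM : 2 * M ≤ q) {t : ℝ}
    (ht : T0c T' Y q ε₂ ≤ |t|) :
    |s * P t + μ t| ≤ δc Y q ε₂ * Real.exp (-(|t| - T0c T' Y q ε₂)) := by
  have hq0 : 0 < q := by linarith
  have hlq := Real.log_nonneg hq1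
  have hm0 : 0 < m := by linarith
  obtain ⟨T0, hT0⟩ : ∃ T0, T0 = T0c T' Y q ε₂ := ⟨_, rfl⟩
  rw [← hT0] at ht ⊢
  have hi0 : 0 < q⁻¹ := inv_pos.2 hq0
  have hi1 : q⁻¹ ≤ 1 := inv_le_one_of_one_le₀ hq1
  have hqi : q⁻¹ * q = 1 := inv_mul_cancel₀ hq0.ne'
  have hexp : ∀ n : ℕ, Real.exp (-(n * Real.log q)) = q⁻¹ ^ n := by
    intro n
    rw [← mul_neg, Real.exp_nat_mul, Real.exp_neg, Real.exp_log hq0]
  have hk : 0 ≤ k := by
    by_contra hc
    push Not at hc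
    nlinarith
  -- the sea
  have h1 : |s * P t| ≤ 1 / 2 * (δc Y q ε₂ * Real.exp (-(|t| - T0))) := by
    have h2 : |s * P t| ≤ tc / 2 * s * Real.exp (-(8 / 3) * T0) * Real.exp (-(|t| - T0)) := by
      have h3 : Real.exp (-(8 / 3) * |t|) ≤ Real.exp (-(8 / 3) * T0) * Real.exp (-(|t| - T0)) := by
        rw [← Real.exp_add]
        exact Real.exp_le_exp.2 (by linarith)
      rw [abs_mul, abs_of_nonneg (hP0 t), abs_of_nonneg hs0]
      have h4 := hPT t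
      calc s * P t ≤ s * (tc / 2 * Real.exp (-(8 / 3) * |t|)) := by gcongr
        _ ≤ s * (tc / 2 * (Real.exp (-(8 / 3) * T0) * Real.exp (-(|t| - T0)))) := by gcongr
        _ = _ := by ring
    refine h2.trans ?_
    have h3 : Real.exp (-(8 / 3) * T0) ≤ m⁻¹ * (q⁻¹ ^ 3 * Real.exp (-(ε₂ * Y))) := by
      have e : m⁻¹ * (q⁻¹ ^ 3 * Real.exp (-(ε₂ * Y))) =
          Real.exp (-L + (-(((3 : ℕ) : ℝ) * Real.log q) + -(ε₂ * Y))) := by
        have e0 : Real.exp (-L) = m⁻¹ := by rw [hL, Real.exp_neg, Real.exp_log hm0]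
        rw [Real.exp_add, Real.exp_add, hexp 3, e0]
      rw [e]
      apply Real.exp_le_exp.2
      have h4 := mul_nonneg hε hY
      rw [hT0]
      unfold T0c
      push_cast
      nlinarith
    have h5 : tc / 2 * s * (m⁻¹ * (q⁻¹ ^ 3 * Real.exp (-(ε₂ * Y)))) ≤ 1 / 2 * δc Y q ε₂ := by
      have h6 : s * m⁻¹ ≤ k := by
        rw [← div_eq_mul_inv, div_le_iff₀ hm0]
        exact hs
      unfold δc
      have h7 : tc * k * q⁻¹ ≤ 1 := by
        rw [← div_eq_mul_inv, div_le_iff₀ hq0]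
        linarith
      have he := (Real.exp_pos (-(ε₂ * Y))).le
      calc tc / 2 * s * (m⁻¹ * (q⁻¹ ^ 3 * Real.exp (-(ε₂ * Y)))) =
          tc / 2 * (s * m⁻¹) * q⁻¹ * (q⁻¹ ^ 2 * Real.exp (-(ε₂ * Y))) := by ring
        _ ≤ tc / 2 * k * q⁻¹ * (q⁻¹ ^ 2 * Real.exp (-(ε₂ * Y))) := by gcongr
        _ = 1 / 2 * (tc * k * q⁻¹) * (q⁻¹ ^ 2 * Real.exp (-(ε₂ * Y))) := by ring
        _ ≤ 1 / 2 * 1 * (q⁻¹ ^ 2 * Real.exp (-(ε₂ * Y))) := by gcongr
        _ = _ := by ring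
    have he3 := (Real.exp_pos (-(|t| - T0))).le
    calc tc / 2 * s * Real.exp (-(8 / 3) * T0) * Real.exp (-(|t| - T0)) ≤
        tc / 2 * s * (m⁻¹ * (q⁻¹ ^ 3 * Real.exp (-(ε₂ * Y)))) * Real.exp (-(|t| - T0)) := by gcongr
      _ ≤ (1 / 2 * δc Y q ε₂) * Real.exp (-(|t| - T0)) := by gcongr
      _ = _ := by ring
  -- the objects
  have h2 : |μ t| ≤ 1 / 2 * (δc Y q ε₂ * Real.exp (-(|t| - T0))) := by
    refine (hμ t).trans ?_
    have h3 : bmaj Finset.univ h (5 / 2) t ≤ q * (q⁻¹ ^ 5 * Real.exp (-(ε₂ * Y)) *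
        Real.exp (-(|t| - T0))) := by
      unfold bmaj
      calc ∑ i, Real.exp (-(5 / 2 * |t - h i|)) ≤ ∑ _i : Fin r, (q⁻¹ ^ 5 * Real.exp (-(ε₂ * Y)) *
          Real.exp (-(|t| - T0))) := by
            refine Finset.sum_le_sum fun i _ => ?_
            rw [← hexp 5, ← Real.exp_add, ← Real.exp_add]
            apply Real.exp_le_exp.2
            have h4 := abs_sub_abs_le_abs_sub t (h i)
            have h5 := hh i
            have h6 := mul_nonneg hε hY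
            have h7 : |t| - T0 + ε₂ * Y + 2 * Real.log q ≤ |t - h i| := by
              rw [hT0]
              unfold T0c
              linarith
            have h8 : 0 ≤ |t| - T0 := by linarith
            push_cast
            linarith
        _ = r * (q⁻¹ ^ 5 * Real.exp (-(ε₂ * Y)) * Real.exp (-(|t| - T0))) := by
            rw [Finset.sum_const, Finset.card_univ, Fintype.card_fin, nsmul_eq_mul]
        _ ≤ _ := by gcongr
    have h4 : M * q⁻¹ ≤ 1 / 2 := by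
      rw [← div_eq_mul_inv, div_le_iff₀ hq0]
      linarith
    unfold δc
    have he := (Real.exp_pos (-(ε₂ * Y))).le
    have h5 : q * q⁻¹ ^ 5 = q⁻¹ * q⁻¹ ^ 3 := by
      calc q * q⁻¹ ^ 5 = (q⁻¹ * q) * q⁻¹ ^ 4 := by ring
        _ = q⁻¹ * q⁻¹ ^ 3 := by rw [hqi]; ring
    have h6 : q⁻¹ ^ 3 ≤ q⁻¹ ^ 2 := pow_le_pow_of_le_one hi0.le hi1 (by norm_num)
    calc M * bmaj Finset.univ h (5 / 2) t ≤ M * (q * (q⁻¹ ^ 5 * Real.exp (-(ε₂ * Y)) *
        Real.exp (-(|t| - T0)))) := by gcongr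
      _ = (M * (q * q⁻¹ ^ 5)) * (Real.exp (-(ε₂ * Y)) * Real.exp (-(|t| - T0))) := by ring
      _ = ((M * q⁻¹) * q⁻¹ ^ 3) * (Real.exp (-(ε₂ * Y)) * Real.exp (-(|t| - T0))) := by rw [h5]; ring
      _ ≤ (1 / 2 * q⁻¹ ^ 2) * (Real.exp (-(ε₂ * Y)) * Real.exp (-(|t| - T0))) := by gcongr
      _ = _ := by ring
  refine (abs_add_le _ _).trans ?_
  linarith

/-- tails of the sea, of the objects and of the plateau -/
theorem rm_tail3 {P : ℝ → ℝ} {Y q ε₂ : ℝ} {k M m s L : ℝ} {μ : ℝ → ℝ} (htc : 0 ≤ tc)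
    (hP0 : ∀ t, 0 ≤ P t) (hPT : ∀ t, P t ≤ tc / 2 * Real.exp (-(8 / 3) * |t|)) (hM : 0 ≤ M) (hk : 0 ≤ k)
    (hμ : ∀ t, |μ t| ≤ M * (bmaj Finset.univ h (5 / 2) t + plt T' t)) (hm : 1 ≤ m)
    (hL : L = Real.log m) (hs0 : 0 ≤ s) (hs : s ≤ k * m) (hT : 3 / 8 * L ≤ T')
    (hh : ∀ i, |h i| ≤ T' + Y) (hY : 0 ≤ Y) (hε : 0 ≤ ε₂) (hq1 : 1 ≤ q) (hqr : (r : ℝ) ≤ q)
    (hqk : 3 * (tc * k) ≤ q) (hqM : 6 * M ≤ q) {t : ℝ} (ht : T0c T' Y q ε₂ ≤ |t|) :
    |s * P t + μ t| ≤ δc Y q ε₂ * Real.exp (-(|t| - T0c T' Y q ε₂)) := by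
  have hq0 : 0 < q := by linarith
  obtain ⟨e, he⟩ : ∃ e, e = δc Y q ε₂ * Real.exp (-(|t| - T0c T' Y q ε₂)) := ⟨_, rfl⟩
  have a1 : |3 * s * P t + (0 : ℝ)| ≤ e := by
    rw [he]
    refine rm_tail (h := h) (M := 0) (k := 3 * k) (m := m) (L := L) (μ := fun _ => 0) htc hP0 hPT le_rfl
      (fun t => ?_) hm hL (by linarith) (by nlinarith) hT hh hY hε hq1 hqr (by linarith)
      (by linarith) ht
    simp
  have a2 : |(0 : ℝ) * P t + 3 * M * bmaj Finset.univ h (5 / 2) t| ≤ e := by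
    rw [he]
    have hb0 : ∀ t, 0 ≤ bmaj Finset.univ h (5 / 2) t := fun t => bmaj_nonneg _ _ _ _
    refine rm_tail (h := h) (M := 3 * M) (k := k) (m := m) (L := L)
      (μ := fun t => 3 * M * bmaj Finset.univ h (5 / 2) t) htc hP0 hPT (by linarith)
      (fun t => ?_) hm hL le_rfl (by positivity) hT hh hY hε hq1 hqr (by nlinarith [mul_nonneg htc hk])
      (by linarith) ht
    rw [abs_of_nonneg (mul_nonneg (by linarith) (hb0 t))]
  have a3 : 3 * M * plt T' t ≤ e := by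
    have hlq := Real.log_nonneg hq1
    have h1 : plt T' t ≤ q⁻¹ ^ 5 * Real.exp (-(ε₂ * Y)) * Real.exp (-(|t| - T0c T' Y q ε₂)) := by
      have e1 : q⁻¹ ^ 5 = Real.exp (-(((5 : ℕ) : ℝ) * Real.log q)) := by
        rw [← mul_neg, Real.exp_nat_mul, Real.exp_neg, Real.exp_log hq0]
      rw [e1, ← Real.exp_add, ← Real.exp_add]
      unfold plt
      apply Real.exp_le_exp.2
      have h2 := le_max_left (|t| - T') 0
      have h3 : (1 + ε₂) * Y + 2 * Real.log q = T0c T' Y q ε₂ - T' := by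
        unfold T0c
        ring
      have h4 := mul_nonneg hε hY
      push_cast
      nlinarith
    have hi0 : 0 < q⁻¹ := inv_pos.2 hq0
    have hi1 : q⁻¹ ≤ 1 := inv_le_one_of_one_le₀ hq1
    have h5 : 3 * M * q⁻¹ ≤ 1 := by
      rw [← div_eq_mul_inv, div_le_one hq0]
      linarith
    have h6 : q⁻¹ ^ 4 ≤ q⁻¹ ^ 2 := pow_le_pow_of_le_one hi0.le hi1 (by norm_num)
    rw [he]
    unfold δc
    have e2 := (Real.exp_pos (-(ε₂ * Y))).le
    have e3 := (Real.exp_pos (-(|t| - T0c T' Y q ε₂))).le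
    calc 3 * M * plt T' t ≤ 3 * M * (q⁻¹ ^ 5 * Real.exp (-(ε₂ * Y)) *
          Real.exp (-(|t| - T0c T' Y q ε₂))) := by gcongr
      _ = (3 * M * q⁻¹) * q⁻¹ ^ 4 * (Real.exp (-(ε₂ * Y)) *
          Real.exp (-(|t| - T0c T' Y q ε₂))) := by ring
      _ ≤ 1 * q⁻¹ ^ 2 * (Real.exp (-(ε₂ * Y)) * Real.exp (-(|t| - T0c T' Y q ε₂))) := by gcongr
      _ = _ := by ring
  rw [← he]
  have b1 : 3 * |s * P t| ≤ e := by
    have e1 : |3 * s * P t + (0 : ℝ)| = 3 * |s * P t| := by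
      rw [add_zero, mul_assoc, abs_mul, abs_of_pos (by norm_num : (0 : ℝ) < 3)]
    rwa [e1] at a1
  have b2 : 3 * (M * bmaj Finset.univ h (5 / 2) t) ≤ e := by
    have := (le_abs_self _).trans a2
    linarith
  have b3 := hμ t
  have b4 := abs_add_le (s * P t) (μ t)
  linarith

/-- regularity with tails -/
theorem Inst.regT (hI : Inst X tc K p n k A κ Kd J m h T' b) (hA : 1 ≤ A) (hm : 1 ≤ m)
    (hL : 200 + 3 * (tc * k) + 6 * A ≤ Real.log m) (hk : 0 ≤ k) {Y : ℝ}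
    (hT : 3 / 8 * Real.log m ≤ T') (hT' : T' ≤ Real.log m) (hY : 0 ≤ Y) (hh : ∀ i, |h i| ≤ T' + Y) :
    RegT X (T0c T' Y (qc A r m) (1 / 100)) (δc Y (qc A r m) (1 / 100)) := by
  obtain ⟨Cκ, hG⟩ := hI.geo
  have htc := hG.tc0
  have htk : 0 ≤ tc * k := mul_nonneg htc hk
  have hq := qc_ge (r := r) (m := m) hA hL (by linarith)
  have hr : (0 : ℝ) ≤ r := Nat.cast_nonneg r
  have hm1 : (1 : ℝ) ≤ m := by exact_mod_cast hm
  have hq0 : 0 < qc A r m := by linarith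
  have hqL : T' ≤ qc A r m := by
    unfold qc
    nlinarith
  exact
    { hI.reg with
      tail := fun a t ht => by
        unfold rm Dat.ρ
        exact rm_tail3 (h := h) (M := A) (k := k) (m := m) (L := Real.log m) htc hG.P0 hG.PT (by linarith) hk
          (hI.μM a) hm1 rfl (hG.s0 a) (hI.sk a) hT hh hY (by norm_num) (by linarith) (by linarith)
          (by linarith) (by linarith) ht
      tailr := fun a t ht => by
        unfold rr Dat.ρ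
        exact rm_tail3 (h := h) (M := A) (k := k) (m := m) (L := Real.log m) htc hG.P0 hG.PT (by linarith) hk
          (hI.rM a) hm1 rfl (hG.s0 a) (hI.sk a) hT hh hY (by norm_num) (by linarith) (by linarith)
          (by linarith) (by linarith) ht
      φd := hI.φd
      φc' := hI.φc'
      δφ := fun a t => by
        have h1 := hI.φq a t
        have h2 := (δc_pos (Y := Y) (ε₂ := 1 / 100) hq0).le
        have h3 : δc Y (qc A r m) (1 / 100) ≤ (qc A r m)⁻¹ ^ 2 := by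
          unfold δc
          have : Real.exp (-(1 / 100 * Y)) ≤ 1 := Real.exp_le_one_iff.2 (by linarith)
          have h4 : 0 ≤ (qc A r m)⁻¹ ^ 2 := by positivity
          nlinarith
        calc δc Y (qc A r m) (1 / 100) * |X.φ a t| ≤ (qc A r m)⁻¹ ^ 2 * qc A r m ^ 2 := by gcongr
          _ = 1 := by
            rw [← mul_pow, inv_mul_cancel₀ hq0.ne', one_pow]
      δ0 := (δc_pos hq0).le
      δ1 := delta_log hY (by linarith) (by norm_num) (by norm_num) (by linarith) hqL (by linarith)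
      T0 := by
        have := T0c_ge (T' := T') (ε₂ := 1 / 100) hY (by linarith : 1 ≤ qc A r m) (by norm_num)
        linarith }

/-! ### numbers -/

/-- **the constants for large `m`**, windows `R1 ≤ c log^j m` -/
theorem numj {Kd κ0 A x Kq : ℝ} (hKd : 0 ≤ Kd) (hκ : 0 < κ0) (hA : 0 ≤ A) (hx : 0 < x) (hKq : 0 ≤ Kq)
    {N c : ℝ} (hN : 0 ≤ N) (J j : ℕ) : ∃ m0 : ℕ, 3 ≤ m0 ∧ ∀ m ≥ m0, ∀ {R1 : ℝ},
      R1 ≤ c * Real.log m ^ j → 0 ≤ R1 →
      Kd * (R1 + N) ^ J * (m : ℝ) ^ (-κ0) ≤ 1 ∧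
      8 * (4 * Kd * (R1 + N) ^ J * (m : ℝ) ^ (-κ0)) * (Kq * (R1 + N)) ≤ 1 ∧
      (∀ w : ℝ, 0 ≤ w → Kq * (4 * Kd * (R1 + N) ^ J * (m : ℝ) ^ (-κ0)) * (R1 + N) *
        (2 * (R1 + N) * (A * w)) ≤ x * w) ∧
      Kq * (4 * Kd * (R1 + N) ^ J * (m : ℝ) ^ (-κ0)) * (R1 + N) * (A * (R1 + N) ^ 2) ≤ x := by
  obtain ⟨m1, h1⟩ := polylog_small (32 * Kd * Kq * (c + N) ^ (J + 1)) (j * (J + 1)) hκ (zero_lt_one)
  obtain ⟨m2, h2⟩ := polylog_small (8 * Kq * Kd * A * (c + N) ^ (J + 2)) (j * (J + 2)) hκ hx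
  obtain ⟨m3, h3⟩ := polylog_small (Kd * (c + N) ^ J) (j * J) hκ (zero_lt_one)
  obtain ⟨m4, h4⟩ := polylog_small (4 * Kq * Kd * A * (c + N) ^ (J + 3)) (j * (J + 3)) hκ hx
  refine ⟨max (max m1 m2) (max (max m3 m4) 3), (le_max_right _ _).trans
    (le_max_right _ _), fun m hm R1 hR hR0 => ?_⟩
  have hm1 : m1 ≤ m := ((le_max_left _ _).trans (le_max_left _ _)).trans hm
  have hm2 : m2 ≤ m := ((le_max_right _ _).trans (le_max_left _ _)).trans hm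
  have hm34 : max (max m3 m4) 3 ≤ m := (le_max_right _ _).trans hm
  have hm3 : m3 ≤ m := ((le_max_left _ _).trans (le_max_left _ _)).trans hm34
  have hm4 : m4 ≤ m := ((le_max_right _ _).trans (le_max_left _ _)).trans hm34
  have hm5 : 3 ≤ m := (le_max_right _ _).trans hm34
  have g1 := h1 m hm1
  have g2 := h2 m hm2
  have g3 := h3 m hm3
  have g4 := h4 m hm4
  have hmr : (3 : ℝ) ≤ m := by exact_mod_cast hm5
  have hm0 : (0 : ℝ) < m := by linarith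
  have hL : 1 ≤ Real.log m := by
    rw [Real.le_log_iff_exp_le hm0]
    exact (Real.exp_one_lt_d9.trans (by norm_num)).le.trans hmr
  obtain ⟨L, hLd⟩ : ∃ L, L = Real.log m := ⟨_, rfl⟩
  obtain ⟨e, he⟩ : ∃ e, e = (m : ℝ) ^ (-κ0) := ⟨_, rfl⟩
  rw [← hLd] at hL hR g1 g2 g3 g4
  rw [← he] at g1 g2 g3 g4
  rw [← he]
  have he0 : 0 ≤ e := by rw [he]; exact Real.rpow_nonneg hm0.le _
  have hLj : 1 ≤ L ^ j := one_le_pow₀ hL
  have hRN : R1 + N ≤ (c + N) * L ^ j := by nlinarith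
  have hRN0 : 0 ≤ R1 + N := by linarith
  have hp : ∀ i : ℕ, (R1 + N) ^ i ≤ (c + N) ^ i * L ^ (j * i) := by
    intro i
    rw [pow_mul, ← mul_pow]
    exact pow_le_pow_left₀ hRN0 hRN i
  refine ⟨?_, ?_, ?_, ?_⟩
  · calc Kd * (R1 + N) ^ J * e ≤ Kd * ((c + N) ^ J * L ^ (j * J)) * e := by
          have := hp J
          gcongr
      _ = Kd * (c + N) ^ J * L ^ (j * J) * e := by ring
      _ ≤ 1 := g3
  · calc 8 * (4 * Kd * (R1 + N) ^ J * e) * (Kq * (R1 + N)) = 32 * Kd * Kq * (R1 + N) ^ (J + 1) * e := by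
          ring
      _ ≤ 32 * Kd * Kq * ((c + N) ^ (J + 1) * L ^ (j * (J + 1))) * e := by
          have := hp (J + 1)
          gcongr
      _ = 32 * Kd * Kq * (c + N) ^ (J + 1) * L ^ (j * (J + 1)) * e := by ring
      _ ≤ 1 := g1
  · intro w hw
    calc Kq * (4 * Kd * (R1 + N) ^ J * e) * (R1 + N) * (2 * (R1 + N) * (A * w)) =
        8 * Kq * Kd * A * (R1 + N) ^ (J + 2) * e * w := by ring
      _ ≤ 8 * Kq * Kd * A * ((c + N) ^ (J + 2) * L ^ (j * (J + 2))) * e * w := by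
          have := hp (J + 2)
          gcongr
      _ = (8 * Kq * Kd * A * (c + N) ^ (J + 2) * L ^ (j * (J + 2)) * e) * w := by ring
      _ ≤ x * w := by gcongr
  · calc Kq * (4 * Kd * (R1 + N) ^ J * e) * (R1 + N) * (A * (R1 + N) ^ 2) =
        4 * Kq * Kd * A * (R1 + N) ^ (J + 3) * e := by ring
      _ ≤ 4 * Kq * Kd * A * ((c + N) ^ (J + 3) * L ^ (j * (J + 3))) * e := by
          have := hp (J + 3)
          gcongr
      _ = 4 * Kq * Kd * A * (c + N) ^ (J + 3) * L ^ (j * (J + 3)) * e := by ring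
      _ ≤ x := g4

/-- powers of the logarithm -/
theorem powj {L c B x : ℝ} (hx : 0 < x) (hB : 0 ≤ B) (hL8 : 8 ≤ L) (hLc : |c| ≤ L) (hLB : 100 * B ≤ L)
    (hLx : B * |c| ≤ x * L) (hLx' : B ≤ x * L) (J j : ℕ) :
    c * L ^ j ≤ L ^ (J + j + 3) ∧ B / L ^ (j + 3) * L ^ (J + j + 3) = B * L ^ J ∧
    B / L ^ (j + 3) ≤ 1 / 100 ∧ B / L ^ (j + 3) * (c * L ^ j) ≤ x ∧ B / L ^ (j + 3) * L ≤ x ∧
    B * L ^ J + 2 * L ≤ L ^ (J + j + 3) / 2 := by
  have hL0 : 0 < L := by linarith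
  have hL1 : 1 ≤ L := by linarith
  have e1 : L ^ (J + j + 3) = L ^ J * (L ^ j * L ^ 3) := by
    rw [pow_add, pow_add]
    ring
  have e2 : L ^ (j + 3) = L ^ j * L ^ 3 := pow_add L j 3
  rw [e1, e2]
  have hLL : 8 * L ≤ L * L := mul_le_mul_of_nonneg_right hL8 hL0.le
  have hw : L * L * 8 ≤ L ^ 3 := by
    calc L * L * 8 ≤ L * L * L := mul_le_mul_of_nonneg_left hL8 (by positivity)
      _ = L ^ 3 := by ring
  obtain ⟨w, hwd⟩ : ∃ w, w = L ^ 3 := ⟨_, rfl⟩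
  obtain ⟨a, ha⟩ : ∃ a, a = L ^ J := ⟨_, rfl⟩
  obtain ⟨d, hd⟩ : ∃ d, d = L ^ j := ⟨_, rfl⟩
  have ha1 : 1 ≤ a := by rw [ha]; exact one_le_pow₀ hL1
  have hd1 : 1 ≤ d := by rw [hd]; exact one_le_pow₀ hL1
  rw [← hwd] at hw ⊢
  rw [← ha, ← hd]
  clear hwd ha hd e1 e2
  have w1 : 8 * L ≤ w := by linarith
  have w2 : L * L ≤ w := by nlinarith
  have hw0 : 0 < w := by linarith
  have ha0 : 0 < a := by linarith
  have hd0 : 0 < d := by linarith
  have hdw0 : 0 < d * w := mul_pos hd0 hw0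
  have hdw : w ≤ d * w := le_mul_of_one_le_left hw0.le hd1
  have hadw : d * w ≤ a * (d * w) := le_mul_of_one_le_left hdw0.le ha1
  have haw : a * w ≤ a * (d * w) := mul_le_mul_of_nonneg_left hdw ha0.le
  have haw1 : w ≤ a * w := le_mul_of_one_le_left hw0.le ha1
  have hc := le_abs_self c
  refine ⟨?_, ?_, ?_, ?_, ?_, ?_⟩
  · have h1 : c ≤ a * w := by linarith
    calc c * d ≤ a * w * d := mul_le_mul_of_nonneg_right h1 hd0.le
      _ = a * (d * w) := by ring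
  · field_simp
  · rw [div_le_iff₀ hdw0]
    linarith
  · have h5 : B / (d * w) * (c * d) = B * c / w := by
      field_simp
    rw [h5, div_le_iff₀ hw0]
    have h6 : B * c ≤ B * |c| := mul_le_mul_of_nonneg_left hc hB
    have h7 : x * L ≤ x * w := mul_le_mul_of_nonneg_left (by linarith) hx.le
    linarith
  · rw [div_mul_eq_mul_div, div_le_iff₀ hdw0]
    have h6 : B * L ≤ x * L * L := mul_le_mul_of_nonneg_right hLx' hL0.le
    have h7 : x * (L * L) ≤ x * (d * w) := mul_le_mul_of_nonneg_left (w2.trans hdw) hx.le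
    linarith
  · have h1 : 800 * B ≤ w := by linarith
    have h2 : 800 * B * a ≤ w * a := mul_le_mul_of_nonneg_right h1 ha0.le
    linarith

/-- the numbers outside the window -/
theorem nume {K1 κ k tc L : ℝ} {m J : ℕ} (hK1 : 0 ≤ K1) (htc : 0 ≤ tc) (hm0 : (0 : ℝ) < m) (hLd : L = Real.log m)
    (hL : 0 ≤ L)
    (g1 : 24 * k ^ 2 * K1 * (m : ℝ) ^ (-κ) ≤ 1 / 2) (g2 : 48 * k ^ 2 * K1 * tc * L ^ J * (m : ℝ)⁻¹ ≤ 1 / 2)
    {R1 b s : ℝ} (hb : 0 ≤ b) (hR : 2 * L + b ≤ R1) (hs0 : 0 ≤ s) (hs : s ≤ 4 * (k * m)) :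
    (3 * (K1 * (m : ℝ) ^ (-κ) * Real.exp (-(R1 - b)) + 2 * K1 * L ^ J / m *
          (tc * Real.exp (-(8 / 3) * R1)))) / 2 * s ^ 2 ≤ 1 := by
  have h8 : Real.exp (-(R1 - b)) ≤ ((m : ℝ) ^ 2)⁻¹ := by
    have e1 : ((m : ℝ) ^ 2)⁻¹ = Real.exp (-(2 * L)) := by
      rw [Real.exp_neg, show 2 * L = ((2 : ℕ) : ℝ) * L by push_cast; ring, Real.exp_nat_mul, hLd,
        Real.exp_log hm0]
    rw [e1]
    exact Real.exp_le_exp.2 (by linarith)
  have h9 : Real.exp (-(8 / 3) * R1) ≤ ((m : ℝ) ^ 2)⁻¹ := by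
    refine le_trans (Real.exp_le_exp.2 ?_) h8
    linarith
  have h10 : s ^ 2 ≤ (4 * (k * m)) ^ 2 := pow_le_pow_left₀ hs0 hs 2
  have h11 : 0 < ((m : ℝ) ^ 2)⁻¹ := by positivity
  have h12 : 0 ≤ (m : ℝ) ^ (-κ) := Real.rpow_nonneg hm0.le _
  obtain ⟨e, he⟩ : ∃ e, e = (m : ℝ) ^ (-κ) := ⟨_, rfl⟩
  obtain ⟨u, hu⟩ : ∃ u, u = L ^ J := ⟨_, rfl⟩
  have hu0 : 0 ≤ u := by rw [hu]; positivity
  rw [← he] at g1 h12 ⊢
  rw [← hu] at g2 ⊢
  have h13 : K1 * e * Real.exp (-(R1 - b)) ≤ K1 * e * ((m : ℝ) ^ 2)⁻¹ :=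
    mul_le_mul_of_nonneg_left h8 (by positivity)
  have h14 : 2 * K1 * u / m * (tc * Real.exp (-(8 / 3) * R1)) ≤ 2 * K1 * u / m * (tc * ((m : ℝ) ^ 2)⁻¹) :=
    mul_le_mul_of_nonneg_left (mul_le_mul_of_nonneg_left h9 htc) (by positivity)
  have h15 : 0 ≤ 3 * (K1 * e * ((m : ℝ) ^ 2)⁻¹ + 2 * K1 * u / m * (tc * ((m : ℝ) ^ 2)⁻¹)) / 2 := by
    positivity
  calc 3 * (K1 * e * Real.exp (-(R1 - b)) + 2 * K1 * u / m * (tc * Real.exp (-(8 / 3) * R1))) / 2 * s ^ 2 ≤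
      3 * (K1 * e * ((m : ℝ) ^ 2)⁻¹ + 2 * K1 * u / m * (tc * ((m : ℝ) ^ 2)⁻¹)) / 2 * s ^ 2 :=
        mul_le_mul_of_nonneg_right (by linarith) (sq_nonneg s)
    _ ≤ 3 * (K1 * e * ((m : ℝ) ^ 2)⁻¹ + 2 * K1 * u / m * (tc * ((m : ℝ) ^ 2)⁻¹)) / 2 * (4 * (k * m)) ^ 2 :=
        mul_le_mul_of_nonneg_left h10 h15
    _ = 24 * k ^ 2 * K1 * e + 48 * k ^ 2 * K1 * tc * u * (m : ℝ)⁻¹ := by
        field_simp
        ring
    _ ≤ 1 := by linarith

/-- the payment -/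
theorem nump {Cf L v u : ℝ} {m : ℕ} (hm0 : (0 : ℝ) < m) (hLd : L = Real.log m) (hCf : Cf ≤ m)
    (hu2 : v + 2 * L ≤ u / 2) : Cf * m * Real.exp (-(u / 2)) * Real.exp v ≤ 1 := by
  have h7 : Cf * m ≤ Real.exp (2 * L) := by
    have e3 : Real.exp (2 * L) = (m : ℝ) ^ 2 := by
      rw [show 2 * L = ((2 : ℕ) : ℝ) * L by push_cast; ring, Real.exp_nat_mul, hLd,
        Real.exp_log hm0]
    rw [e3, sq]
    exact mul_le_mul_of_nonneg_right hCf hm0.le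
  calc Cf * m * Real.exp (-(u / 2)) * Real.exp v ≤
      Real.exp (2 * L) * Real.exp (-(u / 2)) * Real.exp v := by gcongr
    _ = Real.exp (2 * L + -(u / 2) + v) := by rw [← Real.exp_add, ← Real.exp_add]
    _ ≤ 1 := Real.exp_le_one_iff.2 (by linarith)

/-- **the far quanta**: numbers for `Rb = log^(J + j + 3) m`, `β = B log^J m`, `e1 = B / log^(j + 3) m` -/
theorem numf {K1 k κ tc x c Cf B : ℝ} (hK1 : 0 ≤ K1) (hκ : 0 < κ) (htc : 0 ≤ tc) (hx : 0 < x) (hB : 0 ≤ B)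
    (J j : ℕ) : ∃ m0 : ℕ, 3 ≤ m0 ∧ ∀ m ≥ m0,
      (∀ {R1 b : ℝ}, 0 ≤ b → 2 * Real.log m + b ≤ R1 → ∀ s : ℝ, 0 ≤ s → s ≤ 4 * (k * m) →
        (3 * (K1 * (m : ℝ) ^ (-κ) * Real.exp (-(R1 - b)) + 2 * K1 * Real.log m ^ J / m *
          (tc * Real.exp (-(8 / 3) * R1)))) / 2 * s ^ 2 ≤ 1) ∧
      c * Real.log m ^ j ≤ Real.log m ^ (J + j + 3) ∧
      B / Real.log m ^ (j + 3) * Real.log m ^ (J + j + 3) = B * Real.log m ^ J ∧
      B / Real.log m ^ (j + 3) ≤ 1 / 100 ∧ B / Real.log m ^ (j + 3) * (c * Real.log m ^ j) ≤ x ∧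
      B / Real.log m ^ (j + 3) * Real.log m ≤ x ∧
      ∀ u : ℝ, Real.log m ^ (J + j + 3) ≤ u → Cf * m * Real.exp (-(u / 2)) * Real.exp (B * Real.log m ^ J) ≤ 1 := by
  obtain ⟨m1, h1⟩ := polylog_small (24 * k ^ 2 * K1) 0 hκ (by norm_num : (0 : ℝ) < 1 / 2)
  obtain ⟨m2, h2⟩ := polylog_small (48 * k ^ 2 * K1 * tc) J one_pos (by norm_num : (0 : ℝ) < 1 / 2)
  obtain ⟨m3, h3⟩ := (Real.tendsto_log_atTop.comp tendsto_natCast_atTop_atTop).eventually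
    (eventually_ge_atTop (8 + |c| + 100 * B + B * |c| / x + B / x)) |>.exists_forall_of_atTop
  obtain ⟨m4, h4⟩ := exists_nat_ge Cf
  refine ⟨max (max m1 m2) (max (max m3 m4) 3), (le_max_right _ _).trans
    (le_max_right _ _), fun m hm => ?_⟩
  have hm1 : m1 ≤ m := ((le_max_left _ _).trans (le_max_left _ _)).trans hm
  have hm2 : m2 ≤ m := ((le_max_right _ _).trans (le_max_left _ _)).trans hm
  have hm34 : max (max m3 m4) 3 ≤ m := (le_max_right _ _).trans hm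
  have hm3 : m3 ≤ m := ((le_max_left _ _).trans (le_max_left _ _)).trans hm34
  have hm4 : m4 ≤ m := ((le_max_right _ _).trans (le_max_left _ _)).trans hm34
  have hm5 : 3 ≤ m := (le_max_right _ _).trans hm34
  have g1 := h1 m hm1
  have g2 := h2 m hm2
  have g3 := h3 m hm3
  simp only [Function.comp] at g3
  have hmr : (3 : ℝ) ≤ m := by exact_mod_cast hm5
  have hm0 : (0 : ℝ) < m := by linarith
  have hCf : Cf ≤ m := h4.trans (by exact_mod_cast hm4)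
  have e3 : (m : ℝ) ^ (-(1 : ℝ)) = (m : ℝ)⁻¹ := Real.rpow_neg_one _
  rw [pow_zero, mul_one] at g1
  rw [e3] at g2
  obtain ⟨L, hLd⟩ : ∃ L, L = Real.log m := ⟨_, rfl⟩
  rw [← hLd] at g2 g3 ⊢
  have c0 := abs_nonneg c
  have b1 : 0 ≤ B * |c| / x := by positivity
  have b2 : 0 ≤ B / x := by positivity
  have hL8 : 8 ≤ L := by linarith
  have hLc : |c| ≤ L := by linarith
  have hLB : 100 * B ≤ L := by linarith
  have hLx : B * |c| ≤ x * L := by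
    have h5 : B * |c| / x ≤ L := by linarith
    rw [div_le_iff₀ hx] at h5
    linarith
  have hLx' : B ≤ x * L := by
    have h5 : B / x ≤ L := by linarith
    rw [div_le_iff₀ hx] at h5
    linarith
  obtain ⟨p1, p2, p3, p4, p5, p6⟩ := powj hx hB hL8 hLc hLB hLx hLx' J j
  exact ⟨fun {R1 b} hb hR s hs0 hs => nume hK1 htc hm0 hLd (by linarith) g1 g2 hb hR hs0 hs, p1, p2, p3, p4, p5,
    fun u hu => nump hm0 hLd hCf (by linarith)⟩

/-- **the numbers of an instance**: cut error `ε`, constant `c'`, mass `m2` -/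
structure Nums (X : Dat) (p n : ℕ) {r : ℕ} (h : Fin r → ℝ) (A x Kq R ε c' m2 : ℝ) : Prop where
  ε0 : 0 ≤ ε
  c0 : 0 < c'
  e1 : ε / 2 * ((p : ℝ) + n + ss X) ^ 2 ≤ 1
  cm : Kq * c' * R * m2 ^ 2 ≤ x * (win Finset.univ h + 1)
  mw : m2 ^ 2 ≤ 4 * R * (A ^ 2 * Kc (5 / 2) * win Finset.univ h) + 8 * A ^ 2 * R ^ 2
  cq : 8 * c' * (Kq * R) ≤ 1
  mm : ∀ a, ∫ t in {t | |t| ≤ R}, |X.μ a t| ≤ m2

/-- **the far quanta**: the moving kernels are at most `ε / 3 + d0` outside `[-R1, R1]`; each quantum beyond `Rb`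
pays `exp β` if the cutoff is `≤ Cf m exp (- |t| / 2)` -/
structure Far (X : Dat) (p n m : ℕ) (Cf R1 Rb ε d0 β e1 x : ℝ) : Prop where
  RR : R1 ≤ Rb
  ker : ∀ a d t t', (R1 < |t| ∨ R1 < |t'|) → |X.kd a d t t'| ≤ ε / 3 + d0
  d00 : 0 ≤ d0
  dW : d0 * ((p : ℝ) + n + ss X) ≤ β
  dP : d0 * ∫ t in {t | R1 < |t|}, X.P t ≤ ε / 3
  e0 : 0 ≤ e1
  be : β ≤ e1 * Rb
  es : e1 ≤ 1 / 100
  eR : e1 * R1 ≤ x
  eL : e1 * Real.log m ≤ x
  pay : ∀ cf : ℝ → ℝ, (∀ t, cf t ≤ Cf * m * Real.exp (-(|t| / 2))) → ∀ t, Rb ≤ |t| →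
    cf t * Real.exp β ≤ 1

/-- **the tail of the profile** -/
theorem P_tail {tc Cκ : ℝ} (h : Geo X tc Cκ) (T : ℝ) :
    ∫ t in {t | T < |t|}, X.P t ≤ tc * Real.exp (-(8 / 3) * T) := by
  have hPi : Integrable X.P := by
    by_contra hc
    have h1 := h.P1
    rw [integral_undef hc] at h1
    exact zero_ne_one h1
  have h1 := tail2 (T := T) (c := tc / 2 * Real.exp (-(8 / 3) * T)) (by
      have := h.tc0
      positivity) hPi (fun x hx => by
      have h2 := h.PT x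
      have h3 : Real.exp (-(8 / 3) * |x|) ≤ Real.exp (-(8 / 3) * T) * Real.exp (-(|x| - T)) := by
        rw [← Real.exp_add]
        exact Real.exp_le_exp.2 (by linarith)
      rw [abs_of_nonneg (h.P0 x)]
      have h4 := h.tc0
      calc X.P x ≤ tc / 2 * Real.exp (-(8 / 3) * |x|) := h2
        _ ≤ tc / 2 * (Real.exp (-(8 / 3) * T) * Real.exp (-(|x| - T))) := by gcongr
        _ = _ := by ring)
  have h2 : ∫ t in {t | T < |t|}, X.P t ≤ ∫ t in {t | T ≤ |t|}, |X.P t| := by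
    have e : ∫ t in {t | T < |t|}, X.P t = ∫ t in {t | T < |t|}, |X.P t| := by
      refine setIntegral_congr_fun (measurableSet_lt measurable_const measurable_norm) fun t _ => ?_
      exact (abs_of_nonneg (h.P0 t)).symm
    rw [e]
    refine setIntegral_mono_set hPi.abs.integrableOn (ae_of_all _ fun x => abs_nonneg _) ?_
    refine Filter.Eventually.of_forall fun x hx => ?_
    have hx' : T < |x| := hx
    exact hx'.le
  linarith

/-- a moving kernel outside the window -/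
theorem kd_out {v Kd K1 lam u M b R1 t t' : ℝ} (h2 : |v| ≤ Kd * lam * Real.exp (-|t - t'|) +
    Kd * u / M * (Real.exp (-|t|) + Real.exp (-|t'|))) (hKK : Kd ≤ K1) (hK1 : 0 ≤ K1) (hlam : 0 ≤ lam)
    (hu : 0 ≤ u) (hM : 0 < M) (hbR : b ≤ R1) (ht : R1 < |t| ∨ R1 < |t'|) (h1 : ¬(b < |t| ∧ b < |t'|)) :
    |v| ≤ K1 * lam * Real.exp (-(R1 - b)) + 2 * K1 * u / M := by
  have h3 : R1 - b ≤ |t - t'| := by
    have e1 := abs_sub_abs_le_abs_sub t t'
    have e2 := abs_sub_abs_le_abs_sub t' t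
    rw [abs_sub_comm t' t] at e2
    rw [not_and_or, not_lt, not_lt] at h1
    clear h2
    rcases ht with ht | ht <;> rcases h1 with h1 | h1 <;> linarith
  have h4 : Real.exp (-|t - t'|) ≤ Real.exp (-(R1 - b)) := Real.exp_le_exp.2 (by linarith)
  have h5 : Real.exp (-|t|) + Real.exp (-|t'|) ≤ 2 := by
    have a1 : Real.exp (-|t|) ≤ 1 := Real.exp_le_one_iff.2 (by linarith [abs_nonneg t])
    have a2 : Real.exp (-|t'|) ≤ 1 := Real.exp_le_one_iff.2 (by linarith [abs_nonneg t'])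
    linarith
  have h50 : 0 ≤ Real.exp (-|t|) + Real.exp (-|t'|) := by positivity
  have h7 : Kd * lam * Real.exp (-|t - t'|) ≤ K1 * lam * Real.exp (-(R1 - b)) := by
    calc Kd * lam * Real.exp (-|t - t'|) ≤ K1 * lam * Real.exp (-|t - t'|) :=
          mul_le_mul_of_nonneg_right (mul_le_mul_of_nonneg_right hKK hlam) (Real.exp_pos _).le
      _ ≤ K1 * lam * Real.exp (-(R1 - b)) := mul_le_mul_of_nonneg_left h4 (mul_nonneg hK1 hlam)
  have h8 : Kd * u / M * (Real.exp (-|t|) + Real.exp (-|t'|)) ≤ 2 * K1 * u / M := by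
    have a1 : Kd * u / M ≤ K1 * u / M := div_le_div_of_nonneg_right (mul_le_mul_of_nonneg_right hKK hu) hM.le
    have a2 : 0 ≤ K1 * u / M := by positivity
    calc Kd * u / M * (Real.exp (-|t|) + Real.exp (-|t'|)) ≤
        K1 * u / M * (Real.exp (-|t|) + Real.exp (-|t'|)) := mul_le_mul_of_nonneg_right a1 h50
      _ ≤ K1 * u / M * 2 := mul_le_mul_of_nonneg_left h5 a2
      _ = 2 * K1 * u / M := by ring
  linarith

/-- the masses on a window below the radius `R'` -/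
theorem numm {A A' x Kq c' R R' ε Z : ℝ} {X : Dat} {p n r : ℕ} {h : Fin r → ℝ} {T' : ℝ} (hA : 0 ≤ A)
    (hA' : A' = 2 * (A ^ 2 * Kc (5 / 2)) + 8 * A ^ 2) (hKq : 0 ≤ Kq) (hc0 : 0 < c')
    (hR0 : 1 ≤ R) (hRR : R ≤ R') (hε0 : 0 ≤ ε) (hZ : Z = win Finset.univ h)
    (hεW : ε / 2 * ((p : ℝ) + n + ss X) ^ 2 ≤ 1) (g2 : 8 * c' * (Kq * R') ≤ 1)
    (g3 : Kq * c' * R' * (2 * R' * (A' * Z)) ≤ x * Z) (g5 : Kq * c' * R' * (A' * R' ^ 2) ≤ x)
    (hμi : ∀ a, Integrable (X.μ a)) (hμM : ∀ a t, |X.μ a t| ≤ A * (bmaj Finset.univ h (5 / 2) t + plt T' t)) :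
    ∃ mm : ℝ, Nums X p n h A x Kq R ε c' mm := by
  have hKc := (Kc_pos (by norm_num : (0 : ℝ) < 5 / 2)).le
  have hZ0 : 0 ≤ Z := by rw [hZ]; exact win_nonneg _ _
  obtain ⟨G, hG⟩ : ∃ G, G = A ^ 2 * Kc (5 / 2) := ⟨_, rfl⟩
  have hG0 : 0 ≤ G := by rw [hG]; positivity
  have hA2 : 0 ≤ A ^ 2 := sq_nonneg A
  have hGA : 2 * G ≤ A' := by rw [hA', ← hG]; linarith
  have hAA : 8 * A ^ 2 ≤ A' := by rw [hA', ← hG]; linarith
  have hA'0 : 0 ≤ A' := by linarith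
  have hR0' : 0 ≤ R := by linarith
  have hR0'' : 0 ≤ R' := by linarith
  obtain ⟨S, hS⟩ : ∃ S : ℝ, S = √(2 * R * (A ^ 2 * Kc (5 / 2) * win Finset.univ h)) := ⟨_, rfl⟩
  have hsq : S ^ 2 = 2 * R * (G * Z) := by
    rw [hS, hG, hZ]
    exact Real.sq_sqrt (by rw [← hG, ← hZ]; positivity)
  have hm2 : (S + 2 * A * R) ^ 2 ≤ 4 * R * (G * Z) + 8 * A ^ 2 * R ^ 2 := by
    have h1 : (S + 2 * A * R) ^ 2 ≤ 2 * S ^ 2 + 2 * (2 * A * R) ^ 2 := by
      nlinarith [sq_nonneg (S - 2 * A * R)]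
    rw [hsq] at h1
    linarith
  refine ⟨S + 2 * A * R, hε0, hc0, hεW, ?_, ?_, ?_, fun a => ?_⟩
  · have a1 : 4 * R * (G * Z) ≤ 2 * R' * (A' * Z) := by
      have b1 : G * Z ≥ 0 := mul_nonneg hG0 hZ0
      calc 4 * R * (G * Z) ≤ 4 * R' * (G * Z) := by gcongr
        _ = 2 * R' * (2 * G * Z) := by ring
        _ ≤ 2 * R' * (A' * Z) := by gcongr
    have a2 : 8 * A ^ 2 * R ^ 2 ≤ A' * R' ^ 2 := by
      have b1 : R ^ 2 ≤ R' ^ 2 := pow_le_pow_left₀ hR0' hRR 2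
      calc 8 * A ^ 2 * R ^ 2 ≤ A' * R ^ 2 := mul_le_mul_of_nonneg_right hAA (sq_nonneg R)
        _ ≤ A' * R' ^ 2 := mul_le_mul_of_nonneg_left b1 hA'0
    have a3 : (S + 2 * A * R) ^ 2 ≤ 2 * R' * (A' * Z) + A' * R' ^ 2 := hm2.trans (add_le_add a1 a2)
    have a4 : Kq * c' * R ≤ Kq * c' * R' := mul_le_mul_of_nonneg_left hRR (mul_nonneg hKq hc0.le)
    have a5 : 0 ≤ Kq * c' * R' := by positivity
    rw [← hZ]
    calc Kq * c' * R * (S + 2 * A * R) ^ 2 ≤ Kq * c' * R' * (S + 2 * A * R) ^ 2 :=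
          mul_le_mul_of_nonneg_right a4 (sq_nonneg _)
      _ ≤ Kq * c' * R' * (2 * R' * (A' * Z) + A' * R' ^ 2) := mul_le_mul_of_nonneg_left a3 a5
      _ ≤ x * (Z + 1) := by
          rw [mul_add, mul_add, mul_one]
          exact add_le_add g3 g5
  · rw [← hZ, ← hG]
    exact hm2
  · refine le_trans (mul_le_mul_of_nonneg_left (mul_le_mul_of_nonneg_left hRR hKq) (by positivity)) g2
  · rw [hS]
    exact m2_le3 hA (by linarith) (hμi a) (hμM a)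

/-- kernels and numbers -/
theorem exists_nums {tc k A κ x Kd Kq : ℝ} (Cf : ℝ) (hk : 0 ≤ k) (hA : 0 ≤ A) (hκ : 0 < κ) (hx : 0 < x)
    (hKq : 0 ≤ Kq) {N c : ℝ} (hN : 1 ≤ N) (J j : ℕ) : ∃ m0 : ℕ, 3 ≤ m0 ∧ ∀ m ≥ m0, ∀ {X : Dat}
      {K : Set (Bool → Bool → ℝ → ℝ → ℝ)} {p n r : ℕ} {h : Fin r → ℝ} {T' b : ℝ},
      Inst X tc K p n k A κ Kd J m h T' b → ∀ {R1 : ℝ}, 0 ≤ b →
      2 * Real.log m + b ≤ R1 → R1 ≤ c * Real.log m ^ j →
      ∃ Rb ε c' m2 mb d0 β e1 : ℝ, Far X p n m Cf R1 Rb ε d0 β e1 x ∧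
        Nums X p n h A x Kq (R1 + N) ε c' m2 ∧ Nums X p n h A x Kq (Rb + N) ε c' mb ∧
        (∃ Λ1, 0 ≤ Λ1 ∧ 4 * Λ1 ≤ c' ∧
          (∀ a d, KC (R1 + N) Λ1 (fun t t' => ((X.kd a d t t' : ℝ) : ℂ))) ∧
          ∀ a d, KC (Rb + N) Λ1 (fun t t' => ((X.kd a d t t' : ℝ) : ℂ))) := by
  have hKc := (Kc_pos (by norm_num : (0 : ℝ) < 5 / 2)).le
  obtain ⟨A', hA'⟩ : ∃ A' : ℝ, A' = 2 * (A ^ 2 * Kc (5 / 2)) + 8 * A ^ 2 := ⟨_, rfl⟩
  obtain ⟨K1, hK1⟩ : ∃ K1 : ℝ, K1 = |Kd| + 1 := ⟨_, rfl⟩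
  have hK1p : 0 < K1 := by rw [hK1]; positivity
  have hKK : Kd ≤ K1 := by rw [hK1]; linarith [le_abs_self Kd]
  obtain ⟨B, hB⟩ : ∃ B : ℝ, B = 8 * K1 * k := ⟨_, rfl⟩
  have hB0 : 0 ≤ B := by rw [hB]; positivity
  have hA'0 : 0 ≤ A' := by rw [hA']; positivity
  obtain ⟨m1, hm1, HM⟩ := numj (Kd := K1) (κ0 := κ) (A := A') (x := x) (Kq := Kq) hK1p.le
    hκ hA'0 hx hKq (N := N) (c := 1) (by linarith) J (J + j + 3)
  obtain ⟨m2, hm2, HF⟩ := numf (K1 := K1) (k := k) (κ := κ) (tc := |tc|) (x := x) (c := c) (Cf := Cf) (B := B)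
    hK1p.le hκ (abs_nonneg tc) hx hB0 J j
  refine ⟨max m1 m2, hm1.trans (le_max_left _ _), ?_⟩
  intro m hm X K p n r h T' b hI R1 hb hR hRj
  have hmm1 : m1 ≤ m := (le_max_left _ _).trans hm
  have hmm2 : m2 ≤ m := (le_max_right _ _).trans hm
  have hm3 : (3 : ℝ) ≤ m := by exact_mod_cast hm1.trans hmm1
  have hmp : (0 : ℝ) < m := by linarith
  obtain ⟨L, hL⟩ : ∃ L, L = Real.log m := ⟨_, rfl⟩
  have hL0 : 0 ≤ L := by rw [hL]; exact Real.log_nonneg (by linarith)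
  obtain ⟨f1, f2, f3, f4, f5, f6, f7⟩ := HF m hmm2
  obtain ⟨g1, g2, g3, g5⟩ := HM m hmm1 (R1 := L ^ (J + j + 3)) (by rw [one_mul, hL]) (by positivity)
  rw [← hL] at f1 f2 f3 f4 f5 f6 f7 hR hRj
  have hR0 : 0 ≤ R1 := by linarith
  obtain ⟨Rb, hRb⟩ : ∃ Rb : ℝ, Rb = L ^ (J + j + 3) := ⟨_, rfl⟩
  obtain ⟨e1, he1⟩ : ∃ e1 : ℝ, e1 = B / L ^ (j + 3) := ⟨_, rfl⟩
  have he10 : 0 ≤ e1 := by rw [he1]; positivity
  obtain ⟨u, hu⟩ : ∃ u : ℝ, u = L ^ J := ⟨_, rfl⟩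
  have hu0 : 0 ≤ u := by rw [hu]; positivity
  rw [← hRb] at f2 f3 f7 g1 g2 g3 g5
  rw [← he1] at f3 f4 f5 f6
  obtain ⟨lam, hlam⟩ : ∃ lam : ℝ, lam = (m : ℝ) ^ (-κ) := ⟨_, rfl⟩
  have hlam0 : 0 < lam := by rw [hlam]; exact Real.rpow_pos_of_pos hmp _
  rw [← hlam] at g1 g2 g3 g5 f1
  have hRR : R1 ≤ Rb := hRj.trans f2
  have hRb0 : 0 ≤ Rb := hR0.trans hRR
  obtain ⟨Cκ, hG⟩ := hI.geo
  have htc := hG.tc0
  rw [abs_of_nonneg htc] at f1
  obtain ⟨d0, hd0⟩ : ∃ d0 : ℝ, d0 = 2 * K1 * u / m := ⟨_, rfl⟩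
  have hd00 : 0 ≤ d0 := by rw [hd0]; positivity
  obtain ⟨P1, hP1⟩ : ∃ P1 : ℝ, P1 = K1 * lam * Real.exp (-(R1 - b)) := ⟨_, rfl⟩
  have hP10 : 0 ≤ P1 := by rw [hP1]; positivity
  obtain ⟨P2, hP2⟩ : ∃ P2 : ℝ, P2 = d0 * (tc * Real.exp (-(8 / 3) * R1)) := ⟨_, rfl⟩
  have hP20 : 0 ≤ P2 := by rw [hP2]; positivity
  have hs1 := hG.s0 true
  have hs2 := hG.s0 false
  obtain ⟨W, hWd⟩ : ∃ W : ℝ, W = (p : ℝ) + n + ss X := ⟨_, rfl⟩
  have hW0 : 0 ≤ W := by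
    rw [hWd]
    unfold ss
    positivity
  have hW : W ≤ 4 * (k * m) := by
    rw [hWd]
    unfold ss
    linarith [hI.pk, hI.nk, hI.sk true, hI.sk false]
  have hεW : 3 * (P1 + P2) / 2 * W ^ 2 ≤ 1 := by
    have := f1 hb hR _ hW0 hW
    rw [← hu, ← hd0, ← hP1, ← hP2] at this
    exact this
  obtain ⟨c', hc'⟩ : ∃ c' : ℝ, c' = 4 * K1 * (Rb + N) ^ J * lam := ⟨_, rfl⟩
  rw [← hc'] at g2 g3 g5
  have hRbN : 0 < Rb + N := by linarith
  have hc0 : 0 < c' := by rw [hc']; positivity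
  have hw0 : 0 ≤ win Finset.univ h := win_nonneg _ _
  have hg3 := g3 _ hw0
  have hRN1 : 1 ≤ R1 + N := by linarith
  have hRN2 : R1 + N ≤ Rb + N := by linarith
  have hke : ∀ a d t t', (R1 < |t| ∨ R1 < |t'|) → |X.kd a d t t'| ≤ 3 * (P1 + P2) / 3 + d0 := by
    intro a d t t' ht
    have e3 : 3 * (P1 + P2) / 3 = P1 + P2 := by ring
    rw [e3]
    by_cases h1 : b < |t| ∧ b < |t'|
    · rw [hI.kb a d t t' h1.1 h1.2, abs_zero]
      positivity
    · have h2 := hI.kp a d t t'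
      rw [← hlam, ← hL, ← hu] at h2
      have h3 := kd_out h2 hKK hK1p.le hlam0.le hu0 hmp (by linarith) ht h1
      rw [← hP1, ← hd0] at h3
      linarith
  obtain ⟨m2', hn2⟩ := numm (x := x) (ε := 3 * (P1 + P2)) (p := p) (n := n) hA hA' hKq hc0 hRN1 hRN2 (by positivity)
    rfl (by rw [← hWd]; exact hεW) g2 hg3 g5 hI.reg.μi hI.μM
  obtain ⟨mb', hnb⟩ := numm (x := x) (ε := 3 * (P1 + P2)) (p := p) (n := n) hA hA' hKq hc0 (hRN1.trans hRN2) le_rfl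
    (by positivity) rfl (by rw [← hWd]; exact hεW) g2 hg3 g5 hI.reg.μi hI.μM
  have hkc : ∀ R, 1 ≤ R → R ≤ Rb + N → ∀ a d,
      KC R (K1 * (Rb + N) ^ J * lam) (fun t t' => ((X.kd a d t t' : ℝ) : ℂ)) := by
    intro R hR1 hRN a d
    have a1 : R ^ J ≤ (Rb + N) ^ J := pow_le_pow_left₀ (by linarith) hRN J
    have a2 : 0 ≤ R ^ J := pow_nonneg (by linarith) J
    have hgd : Kd * R ^ J * lam ≤ K1 * (Rb + N) ^ J * lam := by
      calc Kd * R ^ J * lam ≤ K1 * R ^ J * lam :=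
            mul_le_mul_of_nonneg_right (mul_le_mul_of_nonneg_right hKK a2) hlam0.le
        _ ≤ K1 * (Rb + N) ^ J * lam :=
            mul_le_mul_of_nonneg_right (mul_le_mul_of_nonneg_left a1 hK1p.le) hlam0.le
    have h1 := hI.kc R hR1 (by rw [← hlam]; exact hgd.trans g1) a d
    rw [← hlam] at h1
    exact h1.mono hgd
  refine ⟨Rb, 3 * (P1 + P2), c', m2', mb', d0, B * u, e1,
    { RR := hRR
      ker := hke
      d00 := hd00
      dW := ?_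
      dP := ?_
      e0 := he10
      be := by rw [f3, hu]
      es := f4
      eR := (mul_le_mul_of_nonneg_left hRj he10).trans f5
      eL := by rw [← hL]; exact f6
      pay := fun cf hcf t ht => ?_ }, hn2, hnb, K1 * (Rb + N) ^ J * lam, by positivity, by
      rw [hc']
      linarith, hkc _ hRN1 hRN2, hkc _ (hRN1.trans hRN2) le_rfl⟩
  · rw [← hWd]
    calc d0 * W ≤ d0 * (4 * (k * m)) := mul_le_mul_of_nonneg_left hW hd00
      _ = B * u := by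
        rw [hd0, hB]
        field_simp
        ring
  · have h1 := mul_le_mul_of_nonneg_left (P_tail hG R1) hd00
    rw [← hP2] at h1
    linarith
  · have h1 := f7 |t| ht
    have h2 := mul_le_mul_of_nonneg_right (hcf t) (Real.exp_pos (B * u)).le
    rw [← hu] at h1
    exact h2.trans h1

/-- the cost of the first window, with the payment `e1` of the far quanta -/
theorem T0e_cost {x ε' : ℝ} (hx : 0 < x) (A : ℝ) (hA : 1 ≤ A) (_hε'0 : 0 ≤ ε') (hε' : ε' ≤ 1 / 100) :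
    ∃ m0 : ℕ, ∀ m ≥ m0, ∀ (r : ℕ) {T' Y e1 : ℝ}, 0 ≤ Y → 0 ≤ e1 → e1 ≤ 1 / 100 →
      (7 / 3 + ε' + e1) * T0i T' Y A r m ≤
        (7 / 3 + ε') * T' + e1 * T' + 12 / 5 * Y + 6 * r + x * Real.log m := by
  obtain ⟨m0, hm0⟩ := log_qc (x := x / 6) (by positivity) A hA
  refine ⟨m0, fun m hm r T' Y e1 hY he0 he1 => ?_⟩
  have h1 := hm0 m hm r
  have hL0 : 0 ≤ Real.log m := Real.log_natCast_nonneg m
  have hr : (0 : ℝ) ≤ r := Nat.cast_nonneg r
  have h2 := qc_ge (r := r) (m := m) hA le_rfl hL0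
  have h3 := Real.log_nonneg (show 1 ≤ qc A r m by linarith)
  unfold T0i T0c
  have h4 : (7 / 3 + ε' + e1) * (1 + 1 / 100) * Y ≤ 12 / 5 * Y := by
    have : (7 / 3 + ε' + e1) * (1 + 1 / 100) ≤ 12 / 5 := by linarith
    gcongr
  have h5 : (7 / 3 + ε' + e1) * (2 * Real.log (qc A r m)) ≤ 6 * Real.log (qc A r m) := by nlinarith
  have e : (7 / 3 + ε' + e1) * (T' + (1 + 1 / 100) * Y + 2 * Real.log (qc A r m)) =
      (7 / 3 + ε') * T' + e1 * T' + (7 / 3 + ε' + e1) * (1 + 1 / 100) * Y +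
        (7 / 3 + ε' + e1) * (2 * Real.log (qc A r m)) := by ring
  rw [e]
  linarith

/-- the cut kernel, with a part that does not decay -/
theorem cut_kerd {b b' κ ε d : ℝ} (h0 : 0 ≤ b) (h1 : b ≤ 1) (h0' : 0 ≤ b') (h1' : b' ≤ 1)
    (h : b ≠ 1 ∨ b' ≠ 1 → |κ| ≤ ε + d) (hε : 0 ≤ ε) (hd : 0 ≤ d) :
    |κ - b * b' * κ| ≤ ε + d * ((1 - b) + (1 - b')) := by
  have e : κ - b * b' * κ = (1 - b * b') * κ := by ring
  have hb : b * b' ≤ 1 := by nlinarith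
  have hb2 : 1 - b * b' ≤ (1 - b) + (1 - b') := by nlinarith
  have hb0 : 0 ≤ b * b' := mul_nonneg h0 h0'
  rw [e, abs_mul, abs_of_nonneg (by linarith : 0 ≤ 1 - b * b')]
  by_cases hc : b = 1 ∧ b' = 1
  · rw [hc.1, hc.2]
    simp
    exact hε
  · have h2 : |κ| ≤ ε + d := h (by
      by_contra hcon
      push Not at hcon
      exact hc hcon)
    calc (1 - b * b') * |κ| ≤ (1 - b * b') * (ε + d) := by
          apply mul_le_mul_of_nonneg_left h2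
          linarith
      _ = (1 - b * b') * ε + d * (1 - b * b') := by ring
      _ ≤ 1 * ε + d * ((1 - b) + (1 - b')) := by
          gcongr
          linarith
      _ = _ := by ring

/-! ### the crude bound -/

/-- **the crude bound of the gas of a configuration** on a static curve -/
theorem crude {θ c tc k ε' : ℝ} {K : Set (Bool → Bool → ℝ → ℝ → ℝ)} (hSh : ShH0 ε' θ c tc k)
    (hK : StC K θ c) (hc : 0 < c) (hk : 0 ≤ k) (hε' : 0 < ε') (hε'1 : ε' ≤ 1 / 200) :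
    ∃ C : ℝ, 0 ≤ C ∧ ∀ {A κ : ℝ} (Kd Cf : ℝ) (J : ℕ), 1 ≤ A → 0 < κ → ∀ {x : ℝ}, 0 < x →
    ∃ m0 : ℕ, ∀ m ≥ m0,
    ∀ {X : Dat} {p n r : ℕ} {h : Fin r → ℝ} {T' b : ℝ},
    Inst X tc K p n k A κ Kd J m h T' b → 0 ≤ b → b ≤ Real.log m →
    ∀ {aX aY cf B : ℝ → ℝ} {D q : ℝ}, Shl X aX aY cf B D q →
    (∀ t, cf t ≤ Cf * m * Real.exp (-(|t| / 2))) → 7 / 3 + 2 * ε' + 1 / 10 ≤ q →
    ∀ {Y : ℝ}, 3 / 8 * Real.log m ≤ T' → T' ≤ Real.log m → 0 ≤ Y → (∀ i, |h i| ≤ T' + Y) →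
    ∀ {N0 e1 : ℝ}, C * e1 ≤ ε' → (∀ T, T0i T' Y A r m ≤ T → NT X T + X.eR ≤ N0 + e1 * T) →
    ∫⁻ y, ENNReal.ofReal (W0 X p n aX aY cf y) ≤ ENNReal.ofReal ((p.factorial : ℝ) * n.factorial *
      Real.exp (X.Mp p n + X.En + ((7 / 3 + 2 * ε') * T' + 12 / 5 * Y + 6 * r + C * (1 + N0) +
        x * (win Finset.univ h + 1 + Real.log m) + 1)) *
        (1 + shF D q (7 / 3 + 2 * ε') (T0i T' Y A r m))) := by
  obtain ⟨C, Kq, Λ0, hC0, hKq, hΛ0, hC⟩ := H0 hSh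
  obtain ⟨N, hN1, hN⟩ := exists_cut1
  refine ⟨C, hC0, ?_⟩
  intro A κ Kd Cf J hA hκ x hx
  have hK3 := K3_pos hc
  obtain ⟨Λ, hΛ⟩ : ∃ Λ : ℝ, Λ = min Λ0 (x / (4 * ((C + 1) * (A ^ 2 * K3 c)))) := ⟨_, rfl⟩
  have hAK : 0 < A ^ 2 * K3 c := by positivity
  have hΛp : 0 < Λ := by
    rw [hΛ]
    exact lt_min hΛ0 (by positivity)
  have hΛ1 : Λ ≤ Λ0 := by
    rw [hΛ]
    exact min_le_left _ _
  have hΛ2 : C * Λ * (A ^ 2 * K3 c) ≤ x / 4 := by
    have h1 : Λ ≤ x / (4 * ((C + 1) * (A ^ 2 * K3 c))) := by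
      rw [hΛ]
      exact min_le_right _ _
    rw [le_div_iff₀ (by positivity)] at h1
    nlinarith [mul_pos hΛp hAK]
  obtain ⟨Nf, Mf, hSt⟩ := hK Λ hΛp
  obtain ⟨C1, T1, hC10, hC⟩ := hC Nf Mf
  obtain ⟨m1, hm1, HM⟩ := exists_nums (tc := tc) (k := k) (A := A) (κ := κ) (x := x / 4) (Kd := Kd) (Kq := Kq)
    Cf hk (by linarith) hκ (by positivity) (by linarith) (N := N) (c := 3) hN1 J 1
  obtain ⟨m2, HT⟩ := T0e_cost (x := x / 8) (ε' := 2 * ε') (by positivity) A hA (by linarith) (by linarith)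
  obtain ⟨m3, hm3⟩ := (Real.tendsto_log_atTop.comp tendsto_natCast_atTop_atTop).eventually
    (eventually_ge_atTop (200 + 3 * (tc * k) + 6 * A + |8 / 3 * T1| + 4 * (C1 + 1) / x)) |>.exists_forall_of_atTop
  refine ⟨max m1 (max m2 m3), ?_⟩
  intro m hm X p n r h T' b hI hb0 hb aX aY cf B D q hS hcf hq Y hT1 hT2 hY hh N0 e1 he1 hNT
  have hmm1 : m1 ≤ m := (le_max_left _ _).trans hm
  have hmm2 : m2 ≤ m := ((le_max_left _ _).trans (le_max_right _ _)).trans hm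
  have hmm3 : m3 ≤ m := ((le_max_right _ _).trans (le_max_right _ _)).trans hm
  have hm3' : 3 ≤ m := hm1.trans hmm1
  have hmr : (3 : ℝ) ≤ m := by exact_mod_cast hm3'
  obtain ⟨Cκ, hG⟩ := hI.geo
  have htc := hG.tc0
  have htk : 0 ≤ tc * k := mul_nonneg htc hk
  have hL' := hm3 m hmm3
  simp only [Function.comp] at hL'
  have hC1x : 0 ≤ 4 * (C1 + 1) / x := by positivity
  have hL : 200 + 3 * (tc * k) + 6 * A ≤ Real.log m := by linarith [abs_nonneg (8 / 3 * T1)]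
  have hLT : 8 / 3 * T1 ≤ Real.log m := by linarith [le_abs_self (8 / 3 * T1)]
  have hLC : C1 + 1 ≤ x / 4 * Real.log m := by
    have h1 : 4 * (C1 + 1) / x ≤ Real.log m := by linarith [abs_nonneg (8 / 3 * T1)]
    rw [div_le_iff₀ hx] at h1
    linarith
  have hLp : 0 < Real.log m := by linarith
  obtain ⟨Rb, ε, c', m2', mb, d0, β, e1', hF, hn2, hn, Λ1, hΛ10, hΛ11, -, hkc⟩ := HM m hmm1 hI
    (R1 := 3 * Real.log m) hb0 (by linarith) (by rw [pow_one])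
  have hRb0 : 0 ≤ Rb := by linarith [hF.RR]
  obtain ⟨hcut, hb0', hb1', hb2'⟩ := hN Rb hRb0
  have hreg := hI.regT hA (by omega) hL hk hT1 hT2 hY hh
  have hT0 : T' + Y ≤ T0i T' Y A r m := T0i_ge hA hLp.le hY
  have hT0p : 0 < T0i T' Y A r m := by linarith
  have hPi : Integrable X.P := by
    by_contra hcon
    have h1 := hG.P1
    rw [integral_undef hcon] at h1
    exact zero_ne_one h1
  have hH : Hyp0 X p n θ c tc k Kq Λ Mf Nf m (T0i T' Y A r m) (Rb + N) ε c' mb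
      (M3 c A h) d0 β (cN N Rb) (cN1 N Rb) :=
    { m1 := by linarith
      pk := hI.pk
      nk := hI.nk
      sk := hI.sk
      mT := by linarith
      T0p := hT0p
      geo := hI.geo
      fld := hI.fld
      reg := ⟨_, hreg⟩
      stk := hSt X.ks hI.st
      cut := hcut
      ker := fun a d t t' => cut_kerd (hb0' t) (hb1' t) (hb0' t') (hb1' t') (fun hb => hF.ker a d t t' (by
        have hRR := hF.RR
        rcases hb with hb | hb
        · exact Or.inl (lt_of_le_of_lt hRR (not_le.1 fun hh => hb (hb2' t hh)))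
        · exact Or.inr (lt_of_le_of_lt hRR (not_le.1 fun hh => hb (hb2' t' hh)))))
        (by have := hn.ε0; positivity) hF.d00
      d00 := hF.d00
      dW := hF.dW
      dP := by
        refine le_trans (mul_le_mul_of_nonneg_left ?_ hF.d00) hF.dP
        have hms : MeasurableSet {t : ℝ | 3 * Real.log m < |t|} :=
          measurableSet_lt measurable_const measurable_norm
        rw [← integral_indicator hms]
        refine integral_mono_of_nonneg (ae_of_all _ fun t => mul_nonneg (by linarith [hb1' t]) (hG.P0 t))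
          (hPi.indicator hms) (ae_of_all _ fun t => ?_)
        show (1 - cN N Rb t) * X.P t ≤ _
        by_cases ht : 3 * Real.log m < |t|
        · rw [indicator_of_mem (show t ∈ {t : ℝ | 3 * Real.log m < |t|} from ht)]
          have h1 := hG.P0 t
          have h2 := hb0' t
          nlinarith
        · rw [indicator_of_notMem (show t ∉ {t : ℝ | 3 * Real.log m < |t|} from ht),
            hb2' t ((not_lt.1 ht).trans hF.RR)]
          simp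
      kc := ⟨Λ1, hΛ10, hΛ11, hkc⟩
      c0 := hn.c0
      cq := hn.cq
      m2 := hn.mm
      m3 := fun a => m3_le hc (by linarith) (hI.dM a) }
  have hm3s := M3_sq (A := A) hc h
  have hw0 : 0 ≤ win Finset.univ h := win_nonneg _ _
  have h3Λ : C * Λ * M3 c A h ^ 2 ≤ x / 4 * win Finset.univ h := by
    calc C * Λ * M3 c A h ^ 2 ≤ C * Λ * (A ^ 2 * K3 c * win Finset.univ h) := by gcongr
      _ = C * Λ * (A ^ 2 * K3 c) * win Finset.univ h := by ring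
      _ ≤ x / 4 * win Finset.univ h := by gcongr
  have hgq : 7 / 3 + 2 * ε' < q := by linarith
  have hE := ((hC (m := m) (by linarith) hΛ1 hH hS (E0 := X.Mp p n + X.En + (7 / 3 + 2 * ε') * T0i T' Y A r m +
      (C * (1 + N0) + C1 + x / 4 * win Finset.univ h + x / 4 * (win Finset.univ h + 1) + 1))
      (g := 7 / 3 + 2 * ε') (by linarith) hgq (fun T hT => by
        have h2 := hn.e1
        have h3 := hn.cm
        have h4 : C * (NT X T + X.eR) ≤ C * (N0 + e1 * T) := mul_le_mul_of_nonneg_left (hNT T hT) hC0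
        have h5 : C * e1 * T ≤ ε' * T := mul_le_mul_of_nonneg_right he1 (hT0p.le.trans hT)
        unfold Ex
        linarith)).1 (Rb := Rb) (e1 := e1') hb0' hb2' (hF.pay cf hcf) hF.e0 hF.be
        (by linarith [hF.es])).1 grid0 ∅ 0
  simp only [Finset.sum_empty, mul_zero, Real.exp_zero, ENNReal.ofReal_one, mul_one] at hE
  refine hE.trans (ENNReal.ofReal_le_ofReal ?_)
  have h5 := HT m hmm2 r (T' := T') hY hF.e0 hF.es
  have hsh := shF_nonneg (T0 := T0i T' Y A r m) hS.D0 hgq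
  have h7 : e1' * T' ≤ x / 4 := (mul_le_mul_of_nonneg_left hT2 hF.e0).trans hF.eL
  have h6 : X.Mp p n + X.En + (7 / 3 + 2 * ε') * T0i T' Y A r m +
      (C * (1 + N0) + C1 + x / 4 * win Finset.univ h + x / 4 * (win Finset.univ h + 1) + 1) +
        e1' * T0i T' Y A r m + 1 ≤
      X.Mp p n + X.En + ((7 / 3 + 2 * ε') * T' + 12 / 5 * Y + 6 * r + C * (1 + N0) +
        x * (win Finset.univ h + 1 + Real.log m) + 1) := by
    have a1 := mul_nonneg hx.le hw0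
    have a2 := mul_nonneg hx.le hLp.le
    linarith
  gcongr

/-- **the hypotheses of the sharp bound** on the window `[-R1, R1]`, cut radius `Rb` -/
theorem hyp1 {θ c tc k A κ Kd : ℝ} (hc : 0 < c) (hk : 0 ≤ k) (hA : 1 ≤ A) (hκ : 0 < κ)
    {x Kq N cR : ℝ} (hx : 0 < x) (hKq : 0 ≤ Kq) (hN : 1 ≤ N) (J j : ℕ) (Cf : ℝ) : ∃ m0 : ℕ, 3 ≤ m0 ∧ ∀ m ≥ m0,
    ∀ {X : Dat} {K : Set (Bool → Bool → ℝ → ℝ → ℝ)} {p n r : ℕ} {h : Fin r → ℝ} {T' b Λ Mf : ℝ} {Nf : ℕ},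
    Inst X tc K p n k A κ Kd J m h T' b → (∃ (hh : Fin Nf → Bool → ℝ → ℝ) (Sm : Fin Nf → Fin Nf → ℝ)
      (kt : Bool → Bool → ℝ → ℝ → ℝ), StK X.ks Nf hh Sm θ Mf Λ c kt) → 0 ≤ b →
    ∀ {R1 : ℝ}, 2 * Real.log m + b ≤ R1 → R1 ≤ cR * Real.log m ^ j →
    ∀ {Y : ℝ}, 3 / 8 * Real.log m ≤ T' → T' ≤ Real.log m → 0 ≤ Y → (∀ i, |h i| ≤ T' + Y) →
    T0i T' Y A r m ≤ R1 → ∃ Rb ε c' m2 mb d0 β e1 : ℝ, R1 ≤ Rb ∧
      Nums X p n h A x Kq (R1 + N) ε c' m2 ∧ Nums X p n h A x Kq (Rb + N) ε c' mb ∧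
      Hyp1 X p n θ c tc k Kq Λ Mf Nf m (T0i T' Y A r m) R1 Rb N ε c' m2 mb (M3 c A h) d0 β ∧
      0 ≤ e1 ∧ β ≤ e1 * Rb ∧ e1 ≤ 1 / 20 ∧ e1 * R1 ≤ x ∧
      ∀ cf : ℝ → ℝ, (∀ t, cf t ≤ Cf * m * Real.exp (-(|t| / 2))) → ∀ t, Rb ≤ |t| →
        cf t * Real.exp β ≤ 1 := by
  obtain ⟨m1, hm1, HM⟩ := exists_nums (tc := tc) (k := k) (A := A) (κ := κ) (x := x) (Kd := Kd) (Kq := Kq)
    Cf hk (by linarith) hκ hx hKq (N := N) (c := cR) hN J j
  obtain ⟨m3, hm3⟩ := (Real.tendsto_log_atTop.comp tendsto_natCast_atTop_atTop).eventually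
    (eventually_ge_atTop (200 + 3 * (tc * k) + 6 * A)) |>.exists_forall_of_atTop
  refine ⟨max m1 m3, hm1.trans (le_max_left _ _), ?_⟩
  intro m hm X K p n r h T' b Λ Mf Nf hI hSt hb0 R1 hR1 hR2 Y hT1 hT2 hY hh hT0R
  have hmm1 : m1 ≤ m := (le_max_left _ _).trans hm
  have hmm3 : m3 ≤ m := (le_max_right _ _).trans hm
  have hm3' : 3 ≤ m := hm1.trans hmm1
  have hmr : (3 : ℝ) ≤ m := by exact_mod_cast hm3'
  have htc : 0 ≤ tc := by
    obtain ⟨Cκ, hG⟩ := hI.geo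
    exact hG.tc0
  have htk : 0 ≤ tc * k := mul_nonneg htc hk
  have hL := hm3 m hmm3
  simp only [Function.comp] at hL
  have hLp : 0 < Real.log m := by linarith
  obtain ⟨Rb, ε, c', m2', mb, d0, β, e1', hF, hn2, hn, hkc⟩ := HM m hmm1 hI (R1 := R1) hb0 hR1 hR2
  have hreg := hI.regT hA (by omega) hL hk hT1 hT2 hY hh
  have hT0 : T' + Y ≤ T0i T' Y A r m := T0i_ge hA hLp.le hY
  have hT0p : 0 < T0i T' Y A r m := by linarith
  refine ⟨Rb, ε, c', m2', mb, d0, β, e1', hF.RR, hn2, hn, ?_, hF.e0, hF.be, by linarith [hF.es], hF.eR, hF.pay⟩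
  exact
    { m1 := by linarith
      pk := hI.pk
      nk := hI.nk
      sk := hI.sk
      mT := by linarith
      T0p := hT0p
      T0R := hT0R
      RR := hF.RR
      geo := hI.geo
      fld := hI.fld
      reg := ⟨_, hreg⟩
      stk := hSt
      ε0 := hn.ε0
      ker := hF.ker
      d00 := hF.d00
      dW := hF.dW
      dP := hF.dP
      kc := hkc
      c0 := hn.c0
      cq := hn.cq
      m2 := hn2.mm
      mb := hn.mm
      m3 := fun a => m3_le hc (by linarith) (hI.dM a) }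

end

end PLT.Gs
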