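import Pool.Agent.PLT.GExpW

/-!
# THETA B1a: Gaussian exponential moments of all modes for the weight with the form of finite rank

`expF_gen`: for any cut function with bounded energies and linear coefficients; `expF_d` (cut `bb`, centre the
sea, for the moving kernels); `expF_r` (cut times the weight `1/cosh (c t)`, centre `ρ + r`, for the rest of the
static kernels).
-/

set_option autoImplicit false

open MeasureTheory Set Filter Topology
open scoped Real ENNReal

namespace PLT.Gs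

open NUH0
open NUMF NUWC NUC37 NUKer NUDi NUMFC

noncomputable section

variable {N : ℕ} {h : Fin N → Bool → ℝ → ℝ} {M : ℝ} {X : Dat} {tc Cκ : ℝ} {p n : ℕ}
  {T T0 δ η : ℝ}

/-- the tail constant of the window `[-T, T]` -/
def dT (T0 δ T : ℝ) : ℝ := δ * Real.exp (-(T - T0))

theorem RegT.dT_nonneg (h : RegT X T0 δ) : 0 ≤ dT T0 δ T := mul_nonneg h.δ0 (Real.exp_pos _).le

theorem RegT.dT_le (h : RegT X T0 δ) (hT : T0 ≤ T) : dT T0 δ T ≤ 1 := by
  have h1 := h.δ1
  have h2 := h.δ0
  have h3 : 0 ≤ Real.log (1 + T0) := Real.log_nonneg (by linarith [h.T0])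
  have h4 : δ ≤ 1 := by nlinarith [mul_nonneg (sq_nonneg δ) h3]
  have h5 : Real.exp (-(T - T0)) ≤ 1 := Real.exp_le_one_iff.2 (by linarith)
  unfold dT
  calc δ * Real.exp (-(T - T0)) ≤ 1 * 1 := by gcongr
    _ = 1 := one_mul 1

/-- the tent term -/
theorem RegT.tent (h : RegT X T0 δ) (hT : T0 ≤ T) : dT T0 δ T ^ 2 * (2 * Gw T + 1) ≤ 23 := by
  have hT0 := h.T0
  have h1 := h.δ1
  have h3 : 0 ≤ Real.log (1 + T0) := Real.log_nonneg (by linarith)
  have hx : 0 ≤ T - T0 := by linarith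
  have h4 : Real.log (1 + T) ≤ Real.log (1 + T0) + (T - T0) := by
    have h5 : Real.log (1 + T) ≤ Real.log ((1 + T0) * (1 + (T - T0))) :=
      Real.log_le_log (by linarith) (by nlinarith)
    rw [Real.log_mul (by linarith) (by linarith)] at h5
    have h6 := Real.log_le_sub_one_of_pos (show 0 < 1 + (T - T0) by linarith)
    linarith
  have h7 : Real.exp (-(T - T0)) ≤ 1 := Real.exp_le_one_iff.2 (by linarith)
  have h8 : (T - T0) * Real.exp (-(T - T0)) ≤ 1 := by
    have h9 := Real.add_one_le_exp (T - T0)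
    rw [Real.exp_neg, ← div_eq_mul_inv, div_le_one (Real.exp_pos _)]
    linarith
  have h0 := (Real.exp_pos (-(T - T0))).le
  have hd2 : δ ^ 2 ≤ 1 := by nlinarith [mul_nonneg (sq_nonneg δ) h3]
  unfold Gw dT
  set e := Real.exp (-(T - T0)) with he
  have h10 : (δ * e) ^ 2 * (2 * (9 + 2 * Real.log (1 + T)) + 1) ≤
      (δ * e) ^ 2 * (19 + 4 * Real.log (1 + T0) + 4 * (T - T0)) := by
    refine mul_le_mul_of_nonneg_left ?_ (sq_nonneg _)
    linarith
  have h11 : (δ * e) ^ 2 * (19 + 4 * Real.log (1 + T0)) ≤ 19 := by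
    have h12 : e ^ 2 ≤ 1 := by nlinarith
    have h13 : δ ^ 2 * (19 + 4 * Real.log (1 + T0)) ≤ 19 := by nlinarith [mul_nonneg (sq_nonneg δ) h3]
    have h14 : 0 ≤ δ ^ 2 * (19 + 4 * Real.log (1 + T0)) := by positivity
    calc (δ * e) ^ 2 * (19 + 4 * Real.log (1 + T0)) = e ^ 2 * (δ ^ 2 * (19 + 4 * Real.log (1 + T0))) := by
          ring
      _ ≤ 1 * 19 := by gcongr
      _ = 19 := one_mul _
  have h15 : (δ * e) ^ 2 * (4 * (T - T0)) ≤ 4 := by
    have h16 : 0 ≤ (T - T0) * e := by positivity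
    calc (δ * e) ^ 2 * (4 * (T - T0)) = 4 * (δ ^ 2 * e * ((T - T0) * e)) := by ring
      _ ≤ 4 * (1 * 1 * 1) := by gcongr
      _ = 4 := by norm_num
  nlinarith

theorem Nl0 (X : Dat) (hT : 0 ≤ T) (a : Bool) : 0 ≤ Nl X T a :=
  intervalIntegral.integral_nonneg (by linarith) fun t _ => by positivity

/-- the linear term of the window -/
theorem RegT.lin (hG : Geo X tc Cκ) (h : RegT X T0 δ) (hT : T0 ≤ T) (a : Bool) :
    (∫ t in (-(Lw T / 2))..(Lw T / 2), rm X a t * (chi T t * X.φ a t)) ≤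
      (∫ t, rm X a t * X.φ a t) + 2 := by
  have hT0 : 0 ≤ T := h.T0.trans hT
  have hLw := Lw_ge hT0
  have hle : -(Lw T / 2) ≤ Lw T / 2 := by linarith
  have htl := (h.tl hG a).win hT
  have hrc := htl.c
  have hri := htl.i
  obtain ⟨Mφ, hMφ⟩ := h.φb a
  have hφc := h.φc a
  have hcc := chi_cont T
  have hcb : ∀ t, |chi T t * X.φ a t| ≤ Mφ := fun t => by
    rw [abs_mul]
    calc |chi T t| * |X.φ a t| ≤ 1 * Mφ := by
          gcongr
          · exact chi_abs T t
          · exact hMφ t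
      _ = Mφ := one_mul _
  have i1 : Integrable fun t => rm X a t * (chi T t * X.φ a t) := int_mul_bc hri (by fun_prop) hcb
  have i2 : Integrable fun t => rm X a t * X.φ a t := int_mul_bc hri hφc hMφ
  have e1 : (∫ t in (-(Lw T / 2))..(Lw T / 2), rm X a t * (chi T t * X.φ a t)) =
      ∫ t, rm X a t * (chi T t * X.φ a t) := by
    rw [intervalIntegral.integral_of_le hle]
    refine setIntegral_eq_integral_of_forall_compl_eq_zero fun x hx => ?_
    rw [chi_out, zero_mul, mul_zero]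
    by_contra hh
    push Not at hh
    rw [abs_lt] at hh
    exact hx ⟨by linarith, by linarith⟩
  have h2 : |(∫ t, rm X a t * (chi T t * X.φ a t)) - ∫ t, rm X a t * X.φ a t| ≤ 2 := by
    rw [← integral_sub i1 i2, ← Real.norm_eq_abs]
    have h3 := tail2 (T := T) (f := fun t => rm X a t * X.φ a t) zero_le_one i2 (fun t ht => by
      have h4 := htl.t t ht
      have h5 := h.δφ a t
      have h6 : Real.exp (-(T - T0)) ≤ 1 := Real.exp_le_one_iff.2 (by linarith)
      rw [abs_mul]
      calc |rm X a t| * |X.φ a t| ≤ (δ * Real.exp (-(T - T0)) * Real.exp (-(|t| - T))) * |X.φ a t| := by gcongr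
        _ = Real.exp (-(T - T0)) * (δ * |X.φ a t|) * Real.exp (-(|t| - T)) := by ring
        _ ≤ 1 * 1 * Real.exp (-(|t| - T)) := by
            have h7 := mul_nonneg h.δ0 (abs_nonneg (X.φ a t))
            gcongr
        _ = _ := by ring)
    have hms : MeasurableSet {x : ℝ | T ≤ |x|} := measurableSet_le measurable_const (by fun_prop)
    refine (norm_integral_le_of_norm_le (g := {x : ℝ | T ≤ |x|}.indicator
      fun t => |rm X a t * X.φ a t|) ?_ (ae_of_all _ fun t => ?_)).trans ?_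
    · exact i2.abs.indicator hms
    · rw [Real.norm_eq_abs]
      by_cases ht : T ≤ |t|
      · rw [indicator_of_mem (show t ∈ {x : ℝ | T ≤ |x|} from ht)]
        have c1 : |chi T t - 1| ≤ 1 := by
          have a1 := chi_abs T t
          have a2 : 0 ≤ chi T t := by
            unfold chi
            exact mul_nonneg (cutS_nonneg _) (cutS_nonneg _)
          have a3 := abs_le.1 a1
          exact abs_le.2 ⟨by linarith, by linarith⟩
        calc |rm X a t * (chi T t * X.φ a t) - rm X a t * X.φ a t| =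
            |chi T t - 1| * |rm X a t * X.φ a t| := by
              rw [← abs_mul]
              congr 1
              ring
          _ ≤ 1 * |rm X a t * X.φ a t| := by gcongr
          _ = _ := one_mul _
      · rw [indicator_of_notMem (show t ∉ {x : ℝ | T ≤ |x|} from ht), chi_in (le_of_not_ge ht)]
        simp
    · rw [integral_indicator hms]
      linarith
  have h9 := (abs_le.1 h2).2
  rw [e1]
  linarith

/-! ### the weight -/

/-- the weight of the window with the form of finite rank -/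
def WW (X : Dat) (h : Fin N → Bool → ℝ → ℝ) (Sm : Fin N → Fin N → ℝ) (T : ℝ) (p n : ℕ)
    (ω : (Fin p → ℝ) × (Fin n → ℝ)) : ℝ≥0∞ :=
  WT T p (rm X true) (X.φ true) ω.1 * WT T n (rm X false) (X.φ false) ω.2 *
    ENNReal.ofReal (Real.exp (Qs X h Sm ω))

/-- its constant -/
def BW (X : Dat) (T0 δ T η Cf : ℝ) (p n : ℕ) : ℝ≥0∞ :=
  ENNReal.ofReal (Bs (Gw T) (Lw T) (dT T0 δ T) η p (rm X true) (fun t => chi T t * X.φ true t) *
    Bs (Gw T) (Lw T) (dT T0 δ T) η n (rm X false) (fun t => chi T t * X.φ false t) *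
        Real.exp (1 / η * (1 / 2 * X.eR))) * ENNReal.ofReal Cf

/-- the hypotheses on the form of finite rank -/
structure Fr (h : Fin N → Bool → ℝ → ℝ) (Sm : Fin N → Fin N → ℝ) (M θ η T e K Cf : ℝ) : Prop where
  M0 : 0 ≤ M
  hc : ∀ i a, Continuous (h i a)
  hb : ∀ i a t, |h i a t| ≤ M * Real.exp (-2 * |t|)
  he : (2 + 2 * η) * (cV * (2 * Gw T + 1)) * (N * (M * Real.exp (-2 * T)) ^ 2) ≤ e / 4
  fd : Fd N K ((1 + 3 * η) * θ) e Cf
  hK : (1 + 3 * η) * KG M ≤ K
  Sb : ∀ i j, |Sm i j| ≤ K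
  Ss : ∀ i j, Sm i j = Sm j i
  op : ∀ b : Fin N → ℝ, ∑ i, ∑ j, Sm i j * (∑ k, Gm h i k * b k) * (∑ k, Gm h j k * b k) ≤
      θ * ∑ i, ∑ j, b i * Gm h i j * b j

variable {Sm : Fin N → Fin N → ℝ} {θ e K Cf : ℝ}

theorem WW_meas (hG : Geo X tc Cκ) (hR : Reg X) (hf : Fr h Sm M θ η T e K Cf) :
    Measurable (WW X h Sm T p n) := by
  have mW : ∀ (a : Bool) (m : ℕ), Measurable (WT T m (rm X a) (X.φ a)) := fun a m =>
    WT_meas (rm_cont hG hR a).measurable (hR.φc a).measurable m
  exact (((mW true p).comp measurable_fst).mul ((mW false n).comp measurable_snd)).mul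
    (ENNReal.measurable_ofReal.comp (Real.measurable_exp.comp (Qs_meas hf.hc hf.hb Sm)))

/-- **one mode of one species** -/
theorem expK (hG : Geo X tc Cκ) (hR : RegT X T0 δ) (hT0 : 0 < T) (hT : T0 ≤ T) (hη : 0 < η)
    (hfr : Fr h Sm M θ η T e K Cf) {ρν : Bool → ℝ → ℝ} (k : Bool) {f f' φ : ℝ → ℝ} (hf : C1P (Lw T) f f')
    (hφ : ∀ x, |x| ≤ T → φ x = f x) (hφc : Continuous φ) (x : ℝ) :
    ∫⁻ ω, WW X h Sm T p n ω * ENNReal.ofReal (Real.exp (x * nuF (ρν k) (spF p n k ω) φ)) ≤
      BW X T0 δ T η Cf p n * ENNReal.ofReal (Real.exp (lc (Lw T) (rm X k) (ρν k) f φ * x +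
          2 * (2 + 1 / η) * Qt (Gw T) (Lw T) f * x ^ 2 / 2)) := by
  have hL := Lw_pos hT0.le
  have hTL : 2 * T + 2 ≤ Lw T := by linarith [Lw_ge hT0.le]
  have z1 : C1P (Lw T) (fun _ => (0 : ℝ)) (fun _ => 0) :=
    ⟨continuousOn_const, fun x _ => hasDerivAt_const x 0, continuousOn_const, rfl⟩
  have h1 := expW (p := p) (n := n) (Gw_ge hT0.le) hT0 hR.dT_nonneg (L := Lw T) rfl
    (fun a => (hR.tl hG a).win hT) (fun a => (hR.tlr hG a).win hT) hG hR.toReg hfr.M0 hfr.hc hfr.hb hη
    (E := fun a t => chi T t * X.φ a t)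
    (fun a => cut_C1P hL hTL (fun x _ => hR.φd a x) (hR.φc' a).continuousOn)
    (fun a x hx => by simp only [chi_in hx, one_mul]; exact le_rfl)
    (f := fun a => if a = k then f else fun _ => 0) (f' := fun a => if a = k then f' else fun _ => 0)
    (φ := fun a => if a = k then φ else fun _ => 0) (ρν := ρν)
    (fun a => by
      by_cases ha : a = k
      · simp only [if_pos ha]; exact hf
      · simp only [if_neg ha]; exact z1)
    (fun a x hx => by
      by_cases ha : a = k
      · simp only [if_pos ha]; exact hφ x hx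
      · simp only [if_neg ha])
    (fun a => by
      by_cases ha : a = k
      · simp only [if_pos ha]; exact hφc
      · simp only [if_neg ha]; exact continuous_const)
    hfr.he hfr.fd hfr.hK hfr.Sb hfr.Ss hfr.op (fun a => if a = k then x else 0)
  cases k
  · simp only [if_true, Bool.true_eq_false, if_false, zero_mul, mul_zero, ne_eq,
      OfNat.ofNat_ne_zero, not_false_eq_true, zero_pow, zero_div, zero_add, add_zero] at h1
    exact h1
  · simp only [if_true, Bool.false_eq_true, if_false, zero_mul, mul_zero, ne_eq,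
      OfNat.ofNat_ne_zero, not_false_eq_true, zero_pow, zero_div, zero_add, add_zero] at h1
    exact h1

/-- **Gaussian exponential moments of all modes**, general cut -/
theorem expF_gen (hG : Geo X tc Cκ) (hR : RegT X T0 δ) (hT0 : 0 < T) (hT : T0 ≤ T) (hη : 0 < η)
    (hfr : Fr h Sm M θ η T e K Cf) {ρν : Bool → ℝ → ℝ} {b b' : ℝ → ℝ}
    (hbd : ∀ x, HasDerivAt b (b' x) x) (hbc : Continuous b') {Q0 ml : ℝ}
    (hQ : ∀ (a : ℝ) (e e' : ℝ → ℝ), (∀ x, HasDerivAt e (e' x) x) → Continuous e' → (∀ x, |e x| ≤ 1) →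
      (∀ x, |e' x| ≤ |a|) → Qt (Gw T) (Lw T) (fun x => chi T x * (b x * e x)) ≤ Q0 * (1 + |a|))
    (hl : ∀ (k : Bool) (e : ℝ → ℝ), Continuous e → (∀ x, |e x| ≤ 1) →
      |lc (Lw T) (rm X k) (ρν k) (fun x => chi T x * (b x * e x)) (fun x => b x * e x)| ≤ ml)
    (h1 : 1 ≤ 2 * (2 + 1 / η) * Q0) (k : Bool) :
    ExpF volume (WW X h Sm T p n) b (ρν k) (spF p n k) (BW X T0 δ T η Cf p n) (2 * (2 + 1 / η) * Q0) (ml ^ 2) := by
  have hL := Lw_pos hT0.le
  have hTL : 2 * T + 2 ≤ Lw T := by linarith [Lw_ge hT0.le]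
  have hbcn : Continuous b := continuous_iff_continuousAt.2 fun x => (hbd x).continuousAt
  have go : ∀ (a : ℝ) (e e' : ℝ → ℝ), (∀ x, HasDerivAt e (e' x) x) → Continuous e' →
      (∀ x, |e x| ≤ 1) → (∀ x, |e' x| ≤ |a|) →
      ∃ l q : ℝ, q ≤ 2 * (2 + 1 / η) * Q0 * (1 + |a|) ∧
        l ^ 2 ≤ ml ^ 2 * (2 * (2 + 1 / η) * Q0 * (1 + |a|)) ∧ ∀ x : ℝ,
        ∫⁻ ω, WW X h Sm T p n ω * ENNReal.ofReal (Real.exp (x * nuF (ρν k) (spF p n k ω)
          fun t => b t * e t)) ∂volume ≤
          BW X T0 δ T η Cf p n * ENNReal.ofReal (Real.exp (l * x + q * x ^ 2 / 2)) := by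
    intro a e e' he he' he1 he2
    have ha := abs_nonneg a
    have hec : Continuous e := continuous_iff_continuousAt.2 fun x => (he x).continuousAt
    have hm := mode_C1P hL hTL hbd hbc he he' (T := T)
    have hq := hQ a e e' he he' he1 he2
    have hl1 := hl k e hec he1
    refine ⟨lc (Lw T) (rm X k) (ρν k) (fun x => chi T x * (b x * e x)) (fun x => b x * e x),
      2 * (2 + 1 / η) * Qt (Gw T) (Lw T) (fun x => chi T x * (b x * e x)), ?_, ?_, fun x => ?_⟩
    · rw [mul_assoc _ Q0]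
      exact mul_le_mul_of_nonneg_left hq (by positivity)
    · have h4 : lc (Lw T) (rm X k) (ρν k) (fun x => chi T x * (b x * e x)) (fun x => b x * e x) ^ 2 ≤ ml ^ 2 := by
        rw [← sq_abs]
        gcongr
      have h5 : 1 ≤ 2 * (2 + 1 / η) * Q0 * (1 + |a|) := by nlinarith
      calc _ ≤ ml ^ 2 := h4
        _ ≤ ml ^ 2 * (2 * (2 + 1 / η) * Q0 * (1 + |a|)) := le_mul_of_one_le_right (sq_nonneg _) h5
    · exact expK (φ := fun x => b x * e x) hG hR hT0 hT hη hfr k hm (fun x hx => by rw [chi_in hx, one_mul])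
        (hbcn.mul hec) x
  refine ⟨fun a => ?_, fun a => ?_⟩
  · exact go a (fun t => Real.cos (a * t)) (fun t => -Real.sin (a * t) * a)
      (fun x => by
        have := ((hasDerivAt_id x).const_mul a).cos
        simpa using this) (by fun_prop) (fun x => Real.abs_cos_le_one _) (fun x => by
        rw [abs_mul, abs_neg]
        exact mul_le_of_le_one_left (abs_nonneg _) (Real.abs_sin_le_one _))
  · exact go a (fun t => Real.sin (a * t)) (fun t => Real.cos (a * t) * a)
      (fun x => by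
        have := ((hasDerivAt_id x).const_mul a).sin
        simpa using this) (by fun_prop) (fun x => Real.abs_sin_le_one _) (fun x => by
        rw [abs_mul]
        exact mul_le_of_le_one_left (abs_nonneg _) (Real.abs_cos_le_one _))

end

end PLT.Gs
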