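import Pool.Agent.PLT.GDat
import Pool.Agent.NUH0.En

/-!
# THETA B1a: whole line statistics with signed densities; change of the centre of the static form

`nuF2_exp`: expansion for integrable densities; `NF_center`:
`NF ρ κ = NF (ρ + r) κ + 2 ∑ (κ * r)(t_i) - 2 ⟨ρ, κ r⟩ - ⟨r, κ r⟩` for symmetric bounded continuous kernels.
-/

set_option autoImplicit false

open MeasureTheory Set Filter Topology

namespace PLT.Gs

open NUMF NUKer NU42

noncomputable section

variable {ι ι' : Type*} [Fintype ι] [Fintype ι'] {ρ ρ' : ℝ → ℝ} {C C' : ℝ} {κ κ' : ℝ → ℝ → ℝ}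

/-- bounded continuous functions are integrable against an integrable density -/
lemma ibd (hρ : Integrable ρ) {f : ℝ → ℝ} (hf : Continuous f) {C : ℝ} (hC : ∀ t, |f t| ≤ C) :
    Integrable fun t => f t * ρ t :=
  hρ.bdd_mul (c := C) hf.aestronglyMeasurable (ae_of_all _ fun t => by rw [Real.norm_eq_abs]; exact hC t)

lemma abs_ibd (hρ : Integrable ρ) {f : ℝ → ℝ} {C : ℝ} (hC : ∀ t, |f t| ≤ C) :
    |∫ t, f t * ρ t| ≤ C * ∫ t, |ρ t| := by
  rw [← integral_const_mul, ← Real.norm_eq_abs]
  refine norm_integral_le_of_norm_le (hρ.abs.const_mul C) (ae_of_all _ fun t => ?_)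
  rw [norm_mul, Real.norm_eq_abs, Real.norm_eq_abs]
  exact mul_le_mul_of_nonneg_right (hC t) (abs_nonneg _)

lemma cvc (hρ : Integrable ρ) (h : Bk C κ) : Continuous fun t => ∫ u, κ t u * ρ u := by
  refine continuous_of_dominated (F := fun t t' => κ t t' * ρ t') (bound := fun t' => C * |ρ t'|)
    (fun t => ?_) (fun t => ae_of_all _ fun t' => ?_) (hρ.abs.const_mul C) (ae_of_all _ fun t' => ?_)
  · exact (h.right t).aestronglyMeasurable.mul hρ.aestronglyMeasurable
  · rw [norm_mul, Real.norm_eq_abs, Real.norm_eq_abs]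
    exact mul_le_mul_of_nonneg_right (h.le t t') (abs_nonneg _)
  · exact (h.left t').mul continuous_const

/-- expansion of the bilinear form, signed densities -/
lemma nuF2_exp (hρ : Integrable ρ) (hρ' : Integrable ρ') (s : ι → ℝ) (s' : ι' → ℝ) (h : Bk C κ) :
    nuF2 ρ ρ' s s' κ = ∑ i, ∑ j, κ (s i) (s' j) - ∑ i, (∫ u, κ (s i) u * ρ' u) -
      ∑ j, (∫ t, κ t (s' j) * ρ t) + ∫ t, (∫ u, κ t u * ρ' u) * ρ t := by
  unfold nuF2 nuF
  have e1 : ∀ t, (∑ j, κ t (s' j) - ∫ u, κ t u * ρ' u) * ρ t =
      ∑ j, κ t (s' j) * ρ t - (∫ u, κ t u * ρ' u) * ρ t := by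
    intro t
    rw [sub_mul, Finset.sum_mul]
  simp only [e1]
  have i1 : ∀ j, Integrable fun t => κ t (s' j) * ρ t := fun j =>
    ibd hρ (h.left _) fun t => h.le t _
  have i2 : Integrable fun t => (∫ u, κ t u * ρ' u) * ρ t :=
    ibd hρ (cvc hρ' h) fun t => abs_ibd hρ' (h.le t)
  rw [integral_sub (integrable_finsetSum _ fun j _ => i1 j) i2, integral_finsetSum _ fun j _ => i1 j,
    Finset.sum_sub_distrib]
  ring

/-- Fubini for bounded kernels -/
lemma dbl_swap (hρ : Integrable ρ) (hρ' : Integrable ρ') (h : Bk C κ) :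
    ∫ t, (∫ u, κ u t * ρ u) * ρ' t = ∫ t, (∫ u, κ t u * ρ' u) * ρ t := by
  simp only [← integral_mul_const]
  have hi : Integrable (Function.uncurry fun t u => κ u t * ρ u * ρ' t) (volume.prod volume) := by
    have h1 : Integrable (fun p : ℝ × ℝ => ρ' p.1 * ρ p.2) (volume.prod volume) := hρ'.mul_prod hρ
    have c1 := h.cont.comp (by fun_prop : Continuous fun p : ℝ × ℝ => (p.2, p.1))
    refine (h1.bdd_mul (c := C) c1.aestronglyMeasurable (ae_of_all _ fun p => ?_)).congr
      (ae_of_all _ fun p => ?_)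
    · rw [Real.norm_eq_abs]
      exact h.le _ _
    · simp only [Function.uncurry, Function.comp]
      ring
  rw [integral_integral_swap hi]
  refine integral_congr_ae (ae_of_all _ fun t => ?_)
  simp only
  refine integral_congr_ae (ae_of_all _ fun u => ?_)
  simp only
  ring

/-- `κ r` -/
def kR (κ : Bool → Bool → ℝ → ℝ → ℝ) (r : Bool → ℝ → ℝ) (a : Bool) (t : ℝ) : ℝ := ∑ b, ∫ u, κ a b t u * r b u

section center

variable {K : Bool → Bool → ℝ → ℝ → ℝ} {R r : Bool → ℝ → ℝ} {p n : ℕ}

lemma kR_cont (hr : ∀ a, Integrable (r a)) (h : ∀ a b, Bk C (K a b)) (a : Bool) : Continuous (kR K r a) :=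
  continuous_finsetSum _ fun b _ => cvc (hr b) (h a b)

lemma kR_abs (hr : ∀ a, Integrable (r a)) (h : ∀ a b, Bk C (K a b)) (a : Bool) (t : ℝ) :
    |kR K r a t| ≤ C * ∑ b, ∫ u, |r b u| := by
  unfold kR
  rw [Finset.mul_sum]
  exact (Finset.abs_sum_le_sum_abs _ _).trans (Finset.sum_le_sum fun b _ => abs_ibd (hr b) ((h a b).le t))

/-- expansion of the form of all species -/
lemma NF_exp (hR : ∀ a, Integrable (R a)) (h : ∀ a b, Bk C (K a b))
    (hs : ∀ a b t t', K a b t t' = K b a t' t) (t : Fin p → ℝ) (t' : Fin n → ℝ) :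
    NF R K t t' = (∑ i, ∑ j, K true true (t i) (t j)) + (∑ i, ∑ j, K true false (t i) (t' j)) +
        ((∑ i, ∑ j, K false true (t' i) (t j)) + ∑ i, ∑ j, K false false (t' i) (t' j)) -
      2 * ((∑ i, kR K R true (t i)) + ∑ j, kR K R false (t' j)) + ∑ a, ∫ x, R a x * kR K R a x := by
  unfold NF
  rw [nuF2_exp (hR true) (hR true) t t (h true true), nuF2_exp (hR true) (hR false) t t' (h true false),
    nuF2_exp (hR false) (hR true) t' t (h false true), nuF2_exp (hR false) (hR false) t' t' (h false false)]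
  have e1 : ∀ (a b : Bool) (x : ℝ), ∫ u, K a b u x * R a u = ∫ u, K b a x u * R a u := by
    intro a b x
    refine integral_congr_ae (ae_of_all _ fun u => ?_)
    simp only
    rw [hs a b u x]
  simp only [e1]
  have e3 : ∀ a : Bool, ∫ x, R a x * kR K R a x = (∫ x, (∫ u, K a true x u * R true u) * R a x) +
      ∫ x, (∫ u, K a false x u * R false u) * R a x := by
    intro a
    have i1 : ∀ b, Integrable fun x => (∫ u, K a b x u * R b u) * R a x := fun b =>
      ibd (hR a) (cvc (hR b) (h a b)) fun t => abs_ibd (hR b) ((h a b).le t)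
    rw [← integral_add (i1 true) (i1 false)]
    refine integral_congr_ae (ae_of_all _ fun x => ?_)
    simp only [kR, Fintype.sum_bool]
    ring
  rw [Fintype.sum_bool, e3, e3]
  simp only [kR, Fintype.sum_bool, Finset.sum_add_distrib]
  ring

/-- symmetry of the double integrals -/
lemma kR_symm (hR : ∀ a, Integrable (R a)) (hr : ∀ a, Integrable (r a)) (h : ∀ a b, Bk C (K a b))
    (hs : ∀ a b t t', K a b t t' = K b a t' t) :
    ∑ a, ∫ x, r a x * kR K R a x = ∑ a, ∫ x, R a x * kR K r a x := by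
  have e3 : ∀ (f f' : Bool → ℝ → ℝ), (∀ a, Integrable (f a)) → (∀ a, Integrable (f' a)) → ∀ a : Bool,
      ∫ x, f a x * kR K f' a x = (∫ x, (∫ u, K a true x u * f' true u) * f a x) +
      ∫ x, (∫ u, K a false x u * f' false u) * f a x := by
    intro f f' hf hf' a
    have i1 : ∀ b, Integrable fun x => (∫ u, K a b x u * f' b u) * f a x := fun b =>
      ibd (hf a) (cvc (hf' b) (h a b)) fun t => abs_ibd (hf' b) ((h a b).le t)
    rw [← integral_add (i1 true) (i1 false)]
    refine integral_congr_ae (ae_of_all _ fun x => ?_)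
    simp only [kR, Fintype.sum_bool]
    ring
  simp only [e3 r R hr hR, e3 R r hR hr, Fintype.sum_bool]
  have sw : ∀ a b : Bool, ∫ x, (∫ u, K a b x u * R b u) * r a x = ∫ x, (∫ u, K b a x u * r a u) * R b x := by
    intro a b
    rw [← dbl_swap (hR b) (hr a) (h b a)]
    refine integral_congr_ae (ae_of_all _ fun x => ?_)
    simp only
    congr 1
    refine integral_congr_ae (ae_of_all _ fun u => ?_)
    simp only
    rw [hs a b x u]
  rw [sw true true, sw true false, sw false true, sw false false]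
  ring

lemma kR_add (hR : ∀ a, Integrable (R a)) (hr : ∀ a, Integrable (r a)) (h : ∀ a b, Bk C (K a b))
    (a : Bool) (t : ℝ) : kR K (fun b u => R b u + r b u) a t = kR K R a t + kR K r a t := by
  unfold kR
  rw [← Finset.sum_add_distrib]
  refine Finset.sum_congr rfl fun b _ => ?_
  rw [← integral_add (ibd (hR b) ((h a b).right t) ((h a b).le t)) (ibd (hr b) ((h a b).right t) ((h a b).le t))]
  refine integral_congr_ae (ae_of_all _ fun u => ?_)
  simp only
  ring

/-- **change of the centre** -/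
theorem NF_center (hR : ∀ a, Integrable (R a)) (hr : ∀ a, Integrable (r a)) (h : ∀ a b, Bk C (K a b))
    (hs : ∀ a b t t', K a b t t' = K b a t' t) (t : Fin p → ℝ) (t' : Fin n → ℝ) :
    NF R K t t' = NF (fun a u => R a u + r a u) K t t' + 2 * ((∑ i, kR K r true (t i)) + ∑ j, kR K r false (t' j)) -
      2 * (∑ a, ∫ x, R a x * kR K r a x) - ∑ a, ∫ x, r a x * kR K r a x := by
  have hRr : ∀ a, Integrable fun u => R a u + r a u := fun a => (hR a).add (hr a)
  rw [NF_exp hR h hs, NF_exp hRr h hs]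
  have e1 : ∀ a x, kR K (fun b u => R b u + r b u) a x = kR K R a x + kR K r a x := kR_add hR hr h
  simp only [e1, Finset.sum_add_distrib]
  have i : ∀ (f f' : Bool → ℝ → ℝ), (∀ a, Integrable (f a)) → (∀ a, Integrable (f' a)) → ∀ a : Bool,
      Integrable fun x => f a x * kR K f' a x := fun f f' hf hf' a =>
    (ibd (hf a) (kR_cont hf' h a) (kR_abs hf' h a)).congr (ae_of_all _ fun x => by simp only; ring)
  have e2 : ∀ a, ∫ x, (R a x + r a x) * (kR K R a x + kR K r a x) = (∫ x, R a x * kR K R a x) +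
      (∫ x, r a x * kR K R a x) + ((∫ x, R a x * kR K r a x) + ∫ x, r a x * kR K r a x) := by
    intro a
    have j1 : Integrable fun x => R a x * kR K R a x + r a x * kR K R a x := (i R R hR hR a).add (i r R hr hR a)
    have j2 : Integrable fun x => R a x * kR K r a x + r a x * kR K r a x := (i R r hR hr a).add (i r r hr hr a)
    rw [← integral_add (i R R hR hR a) (i r R hr hR a), ← integral_add (i R r hR hr a) (i r r hr hr a),
      ← integral_add j1 j2]
    refine integral_congr_ae (ae_of_all _ fun x => ?_)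
    simp only
    ring
  simp only [e2, Finset.sum_add_distrib]
  have e3 := kR_symm hR hr h hs
  linear_combination -e3

end center

end

end PLT.Gs
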