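import Pool.Agent.NUH0.OneFR
import Pool.Agent.NUH0.RegT
import Pool.Agent.NUH0.En

/-!
# THETA B1a: energy inequalities from the one component bound

`Tl ρ T δ`: density with tail `δ e^{-(|s| - T)}` outside `[-T, T]`.
`lemA`: `-∫ ρ E ≤ 1/2 <ρ, V ρ> + Qt E + cV δ² (2 G + 1)` (the landed one component bound with no particle,
scaled); `lemA'` with a weight; `psd`: `0 ≤ <ρ, V ρ>`; `csV`: the Cauchy inequality of the energy.
-/

set_option autoImplicit false

open MeasureTheory Set Filter Topology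
open scoped Real ENNReal

namespace PLT.Gs

open NUH0
open NUMF NUWC NUC37 NUKer NUDi NUMFC

noncomputable section

/-- a density with a tail -/
structure Tl (ρ : ℝ → ℝ) (T δ : ℝ) : Prop where
  c : Continuous ρ
  i : Integrable ρ
  b : ∃ M, ∀ t, |ρ t| ≤ M
  t : ∀ s, T ≤ |s| → |ρ s| ≤ δ * Real.exp (-(|s| - T))

variable {ρ h : ℝ → ℝ} {T δ δ' G L η : ℝ}

theorem Tl.smul (hρ : Tl ρ T δ) (x : ℝ) : Tl (fun s => x * ρ s) T (|x| * δ) where
  c := continuous_const.mul hρ.c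
  i := hρ.i.const_mul x
  b := by
    obtain ⟨M, hM⟩ := hρ.b
    exact ⟨|x| * M, fun t => by rw [abs_mul]; exact mul_le_mul_of_nonneg_left (hM t) (abs_nonneg _)⟩
  t s hs := by
    rw [abs_mul, mul_assoc]
    exact mul_le_mul_of_nonneg_left (hρ.t s hs) (abs_nonneg _)

theorem Tl.add (hρ : Tl ρ T δ) (hh : Tl h T δ') : Tl (fun s => ρ s + h s) T (δ + δ') where
  c := hρ.c.add hh.c
  i := hρ.i.add hh.i
  b := by
    obtain ⟨M, hM⟩ := hρ.b
    obtain ⟨M', hM'⟩ := hh.b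
    exact ⟨M + M', fun t => (abs_add_le _ _).trans (add_le_add (hM t) (hM' t))⟩
  t s hs := by
    rw [add_mul]
    exact (abs_add_le _ _).trans (add_le_add (hρ.t s hs) (hh.t s hs))

theorem Tl.mono (hρ : Tl ρ T δ) (hd : δ ≤ δ') : Tl ρ T δ' where
  c := hρ.c
  i := hρ.i
  b := hρ.b
  t s hs := (hρ.t s hs).trans (mul_le_mul_of_nonneg_right hd (Real.exp_pos _).le)

/-- larger windows -/
theorem Tl.win {T' : ℝ} (hρ : Tl ρ T δ) (hT : T ≤ T') : Tl ρ T' (δ * Real.exp (-(T' - T))) where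
  c := hρ.c
  i := hρ.i
  b := hρ.b
  t s hs := by
    refine (hρ.t s (hT.trans hs)).trans (le_of_eq ?_)
    rw [mul_assoc, ← Real.exp_add]
    congr 2
    ring

/-- the energy -/
def eV (f h : ℝ → ℝ) : ℝ := ∫ t, f t * ∫ u, h u * V (t - u)

theorem eV_i (hf : Tl ρ T δ) (hh : Tl h T δ') : Integrable fun t => ρ t * ∫ u, h u * V (t - u) := by
  obtain ⟨M, hM⟩ := hh.b
  obtain ⟨c1, b1⟩ := conv_bc hh.c hM
  exact int_mul_bc hf.i c1 b1

theorem Vi (hh : Tl h T δ) (t : ℝ) : Integrable fun u => h u * V (t - u) := by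
  obtain ⟨M, hM⟩ := hh.b
  exact NUWC.rhoV_int hh.c.aestronglyMeasurable hM t

theorem eV_smul (x y : ℝ) (f h : ℝ → ℝ) : eV (fun s => x * f s) (fun s => y * h s) = x * y * eV f h := by
  unfold eV
  have e : ∀ t, ∫ u, y * h u * V (t - u) = y * ∫ u, h u * V (t - u) := fun t => by
    rw [← integral_const_mul]
    refine integral_congr_ae (ae_of_all _ fun u => ?_)
    simp only
    ring
  simp_rw [e]
  rw [← integral_const_mul]
  refine integral_congr_ae (ae_of_all _ fun t => ?_)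
  simp only
  ring

theorem eV_symm (hf : Tl ρ T δ) (hh : Tl h T δ') : eV ρ h = eV h ρ := by
  obtain ⟨M, hM⟩ := hh.b
  exact conv_symm hf.i hh.c hM

theorem eV_add_left {f₁ f₂ : ℝ → ℝ} (h1 : Tl f₁ T δ) (h2 : Tl f₂ T δ') {δ₃ : ℝ} (hh : Tl h T δ₃) :
    eV (fun s => f₁ s + f₂ s) h = eV f₁ h + eV f₂ h := by
  unfold eV
  rw [← integral_add (eV_i h1 hh) (eV_i h2 hh)]
  refine integral_congr_ae (ae_of_all _ fun t => ?_)
  simp only
  ring

theorem eV_add_right {f₁ f₂ : ℝ → ℝ} (h1 : Tl f₁ T δ) (h2 : Tl f₂ T δ') {δ₃ : ℝ} (hh : Tl h T δ₃) :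
    eV h (fun s => f₁ s + f₂ s) = eV h f₁ + eV h f₂ := by
  rw [eV_symm hh (h1.add h2), eV_add_left h1 h2 hh, eV_symm h1 hh, eV_symm h2 hh]

/-- the energy of a sum -/
theorem eV_add (h1 : Tl ρ T δ) (h2 : Tl h T δ') : eV (fun s => ρ s + h s) (fun s => ρ s + h s) =
    eV ρ ρ + 2 * eV h ρ + eV h h := by
  rw [eV_add_left h1 h2 (h1.add h2), eV_add_right h1 h2 h1, eV_add_right h1 h2 h2, eV_symm h1 h2]
  ring

theorem Qt_smul {E E' : ℝ → ℝ} (hG : 9 ≤ G) (hL : 0 < L) (hE : C1P L E E') (x : ℝ) :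
    Qt G L (fun t => x * E t) = x ^ 2 * Qt G L E := by
  have h0 : C1P L (fun _ => (0 : ℝ)) (fun _ => 0) :=
    ⟨continuousOn_const, fun x _ => hasDerivAt_const x 0, continuousOn_const, rfl⟩
  obtain ⟨B, hB1, hB2⟩ := Qt_add hG hL h0 hE
  have h1 := hB2 x
  have h2 := hB2 0
  simp only [zero_add, zero_mul, mul_zero, add_zero] at h1 h2
  have h3 : Qt G L (fun _ : ℝ => (0 : ℝ)) = 0 := by
    unfold Qt NUWC.QF fc
    simp
  rw [h3, zero_mul] at hB1
  have hB0 : B = 0 := by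
    have := sq_nonneg B
    exact pow_eq_zero_iff (two_ne_zero) |>.1 (le_antisymm hB1 this)
  rw [h1, h3, hB0]
  ring

/-- two functions -/
theorem Qt_add_le {E E' F F' : ℝ → ℝ} (hG : 9 ≤ G) (hL : 0 < L) (hE : C1P L E E') (hF : C1P L F F') (x : ℝ) :
    Qt G L (fun t => E t + x * F t) ≤ 2 * Qt G L E + 2 * x ^ 2 * Qt G L F := by
  obtain ⟨B, hB1, hB2⟩ := Qt_add hG hL hE hF
  rw [hB2 x]
  have q1 := Qt_nonneg hG hL hE
  have q2 := Qt_nonneg hG hL hF
  have h3 : 2 * x * B ≤ Qt G L E + x ^ 2 * Qt G L F := by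
    have h4 : (x * B) ^ 2 ≤ Qt G L E * (x ^ 2 * Qt G L F) := by
      calc (x * B) ^ 2 = x ^ 2 * B ^ 2 := by ring
        _ ≤ x ^ 2 * (Qt G L E * Qt G L F) := by gcongr
        _ = _ := by ring
    have h5 : 0 ≤ x ^ 2 * Qt G L F := by positivity
    have h6 : (2 * (x * B)) ^ 2 ≤ (Qt G L E + x ^ 2 * Qt G L F) ^ 2 := by
      nlinarith [sq_nonneg (Qt G L E - x ^ 2 * Qt G L F)]
    have h7 := abs_le_of_sq_le_sq h6 (by positivity)
    have := (abs_le.1 h7).2
    linarith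
  linarith

/-- **the energy inequality** -/
theorem lemA (hG : 9 ≤ G) (hT : 0 < T) (hρ : Tl ρ T δ) (hL : L = 2 * T + 2 * G) {E E' : ℝ → ℝ}
    (hE : C1P L E E') : -(∫ t in (-(L / 2))..(L / 2), ρ t * E t) ≤
      1 / 2 * eV ρ ρ + Qt G L E + cV * δ ^ 2 * (2 * G + 1) := by
  have hL0 : 0 < L := by rw [hL]; linarith
  by_contra hcon
  push Not at hcon
  obtain ⟨K, hK⟩ : ∃ K, K = -(∫ t in (-(L / 2))..(L / 2), ρ t * E t) -
      (1 / 2 * eV ρ ρ + Qt G L E + cV * δ ^ 2 * (2 * G + 1)) := ⟨_, rfl⟩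
  have hKp : 0 < K := by rw [hK]; linarith
  -- the bound with no particle
  have key : ∀ s : ℝ, 0 < s → s ^ 2 * K ≤ 7 / 12 * L + NUC62.err G L 0 := by
    intro s hs
    obtain ⟨M, hM⟩ := (hρ.smul s).b
    have hsE : C1P L (fun t => s * E t) (fun t => s * E' t) := by
      have h0 : C1P L (fun _ => (0 : ℝ)) (fun _ => 0) :=
        ⟨continuousOn_const, fun x _ => hasDerivAt_const x 0, continuousOn_const, rfl⟩
      simpa using C1P.lin h0 hE s
    have h1 := one hG hT 0 (hρ.smul s).c (hρ.smul s).i hM (hρ.smul s).t hL hsE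
      (F := fun t => s * E t) (fun x _ => le_rfl)
    have h2 : (∫⁻ t : Fin 0 → ℝ in Set.univ.pi fun _ => Icc (-T) T,
      ENNReal.ofReal ((∏ i, ∏ j ∈ Finset.Ioi i, om (t i - t j)) *
        ∏ i, Real.exp ((∫ s', s * ρ s' * V (t i - s')) + s * E (t i)))) = 1 := by
      have e1 : (Set.univ.pi fun _ : Fin 0 => Icc (-T) T) = Set.univ := by
        ext x
        simp
      rw [e1, Measure.restrict_univ, volume_pi, Measure.pi_of_empty]
      simp
    rw [h2] at h1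
    have h3 := ENNReal.one_le_ofReal.1 h1
    simp only [Nat.factorial_zero, Nat.cast_one, pow_zero, mul_one, one_mul] at h3
    have h4 : 0 ≤ B0 G L (|s| * δ) 0 (fun t => s * ρ t) +
        (∫ t in (-(L / 2))..(L / 2), s * ρ t * (s * E t)) + Qt G L (fun t => s * E t) := by
      by_contra hc
      push Not at hc
      have := Real.exp_lt_one_iff.2 hc
      linarith
    have e2 : (∫ t in (-(L / 2))..(L / 2), s * ρ t * (s * E t)) =
        s ^ 2 * ∫ t in (-(L / 2))..(L / 2), ρ t * E t := by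
      rw [← intervalIntegral.integral_const_mul]
      refine intervalIntegral.integral_congr fun t _ => ?_
      ring
    have e3 : (1 : ℝ) / 2 * (∫ u, s * ρ u * ∫ s', s * ρ s' * V (u - s')) = s ^ 2 * (1 / 2 * eV ρ ρ) := by
      have := eV_smul s s ρ ρ
      unfold eV at this ⊢
      rw [this]
      ring
    rw [e2, Qt_smul hG hL0 hE] at h4
    unfold B0 at h4
    rw [e3] at h4
    have hu : 0 ≤ NUC62.uG G L / 4 * (((0 : ℕ) : ℝ) - ∫ t in (-(L / 2))..(L / 2), s * ρ t) ^ 2 := by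
      have := NUMFC.uG_ge hG hL0
      have h5 : 0 ≤ NUC62.uG G L := le_trans (by positivity) this
      positivity
    have e4 : cV * (|s| * δ) ^ 2 * (2 * G + 1) = s ^ 2 * (cV * δ ^ 2 * (2 * G + 1)) := by
      rw [mul_pow, sq_abs]
      ring
    rw [e4] at h4
    rw [hK]
    nlinarith
  obtain ⟨c, hc⟩ : ∃ c, c = |7 / 12 * L + NUC62.err G L 0| + 1 := ⟨_, rfl⟩
  have hc0 : 0 < c := by rw [hc]; positivity
  have h5 := key (√(c / K)) (Real.sqrt_pos.2 (by positivity))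
  rw [Real.sq_sqrt (by positivity), div_mul_cancel₀ _ hKp.ne'] at h5
  have h6 := le_abs_self (7 / 12 * L + NUC62.err G L 0)
  linarith

/-- the energy inequality with a weight -/
theorem lemA' (hG : 9 ≤ G) (hT : 0 < T) (hρ : Tl ρ T δ) (hL : L = 2 * T + 2 * G) {E E' : ℝ → ℝ}
    (hE : C1P L E E') (hη : 0 < η) : |∫ t in (-(L / 2))..(L / 2), ρ t * E t| ≤
      η * (1 / 2 * eV ρ ρ + cV * δ ^ 2 * (2 * G + 1)) + 1 / η * Qt G L E := by
  have hL0 : 0 < L := by rw [hL]; linarith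
  have key : ∀ σ : ℝ, σ ^ 2 = 1 → -(σ * ∫ t in (-(L / 2))..(L / 2), ρ t * E t) ≤
      η * (1 / 2 * eV ρ ρ + cV * δ ^ 2 * (2 * G + 1)) + 1 / η * Qt G L E := by
    intro σ hσ
    obtain ⟨a, ha⟩ : ∃ a, a = √η := ⟨_, rfl⟩
    have ha0 : 0 < a := by rw [ha]; exact Real.sqrt_pos.2 hη
    have ha2 : a ^ 2 = η := by rw [ha]; exact Real.sq_sqrt hη.le
    have h0 : C1P L (fun _ => (0 : ℝ)) (fun _ => 0) :=
      ⟨continuousOn_const, fun x _ => hasDerivAt_const x 0, continuousOn_const, rfl⟩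
    have hE2 : C1P L (fun t => σ / a * E t) (fun t => σ / a * E' t) := by
      simpa using C1P.lin h0 hE (σ / a)
    have h1 := lemA hG hT (hρ.smul a) hL hE2
    have e1 : (∫ t in (-(L / 2))..(L / 2), a * ρ t * (σ / a * E t)) =
        σ * ∫ t in (-(L / 2))..(L / 2), ρ t * E t := by
      rw [← intervalIntegral.integral_const_mul]
      refine intervalIntegral.integral_congr fun t _ => ?_
      field_simp
    rw [e1, eV_smul, Qt_smul hG hL0 hE, mul_pow, sq_abs] at h1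
    have e2 : (σ / a) ^ 2 = 1 / η := by
      rw [div_pow, hσ, ha2]
    rw [e2, show a * a = a ^ 2 by ring, ha2] at h1
    linarith
  have h1 := key 1 (by norm_num)
  have h2 := key (-1) (by norm_num)
  rw [abs_le]
  constructor
  · linarith
  · linarith

/-- **positivity of the energy** -/
theorem psd (hT : 0 ≤ T) (hδ : 0 ≤ δ) (hρ : Tl ρ T δ) : 0 ≤ eV ρ ρ := by
  by_contra hcon
  push Not at hcon
  have hcV := cV_pos
  have h0 : ∀ L : ℝ, C1P L (fun _ => (0 : ℝ)) (fun _ => 0) := fun L =>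
    ⟨continuousOn_const, fun x _ => hasDerivAt_const x 0, continuousOn_const, rfl⟩
  have key : ∀ x : ℝ, 0 ≤ x → -(1 / 2 * eV ρ ρ) ≤
      cV * (δ * Real.exp (-(x + 1))) ^ 2 * (19 + 4 * (T + 1 + x)) := by
    intro x hx
    have h1 := hρ.win (T' := T + 1 + x) (by linarith)
    have hT1 : 0 < T + 1 + x := by linarith
    have h2 := lemA (Gw_ge hT1.le) hT1 h1 (L := 2 * (T + 1 + x) + 2 * Gw (T + 1 + x)) rfl (h0 _)
    have h3 : Qt (Gw (T + 1 + x)) (2 * (T + 1 + x) + 2 * Gw (T + 1 + x)) (fun _ : ℝ => (0 : ℝ)) = 0 := by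
      unfold Qt NUWC.QF fc
      simp
    simp only [mul_zero, intervalIntegral.integral_zero, neg_zero, h3, add_zero] at h2
    have h4 : Gw (T + 1 + x) ≤ 9 + 2 * (T + 1 + x) := by
      unfold Gw
      have := Real.log_le_sub_one_of_pos (show 0 < 1 + (T + 1 + x) by linarith)
      linarith
    have e1 : T + 1 + x - T = x + 1 := by ring
    rw [e1] at h2
    have h5 : cV * (δ * Real.exp (-(x + 1))) ^ 2 * (2 * Gw (T + 1 + x) + 1) ≤
        cV * (δ * Real.exp (-(x + 1))) ^ 2 * (19 + 4 * (T + 1 + x)) := by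
      exact mul_le_mul_of_nonneg_left (by linarith) (by positivity)
    linarith
  have lim : Tendsto (fun x : ℝ => cV * (δ * Real.exp (-(x + 1))) ^ 2 * (19 + 4 * (T + 1 + x))) atTop (𝓝 0) := by
    have h1 : Tendsto (fun x : ℝ => Real.exp (-x)) atTop (𝓝 0) := Real.tendsto_exp_neg_atTop_nhds_zero
    have h2 : Tendsto (fun x : ℝ => x ^ 1 * Real.exp (-x)) atTop (𝓝 0) :=
      Real.tendsto_pow_mul_exp_neg_atTop_nhds_zero 1
    have h3 : Tendsto (fun x : ℝ => cV * δ ^ 2 * Real.exp (-2) *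
        ((23 + 4 * T) * (Real.exp (-x) * Real.exp (-x)) + 4 * ((x ^ 1 * Real.exp (-x)) * Real.exp (-x))))
        atTop (𝓝 (cV * δ ^ 2 * Real.exp (-2) * ((23 + 4 * T) * (0 * 0) + 4 * (0 * 0)))) :=
      (((h1.mul h1).const_mul _).add ((h2.mul h1).const_mul _)).const_mul _
    simp only [mul_zero, add_zero] at h3
    refine h3.congr fun x => ?_
    have e : Real.exp (-(x + 1)) ^ 2 = Real.exp (-2) * (Real.exp (-x) * Real.exp (-x)) := by
      rw [← Real.exp_nat_mul, ← Real.exp_add, ← Real.exp_add]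
      congr 1
      push_cast
      ring
    rw [mul_pow, e]
    ring
  have h1 : ∀ᶠ x : ℝ in atTop, cV * (δ * Real.exp (-(x + 1))) ^ 2 * (19 + 4 * (T + 1 + x)) < -(1 / 2 * eV ρ ρ) :=
    lim.eventually_lt_const (by linarith)
  obtain ⟨x, hx, hx0⟩ := (h1.and (eventually_ge_atTop 0)).exists
  have := key x hx0
  linarith

/-- the Cauchy inequality of the energy -/
theorem csV (hT : 0 ≤ T) (hδ : 0 ≤ δ) (hδ' : 0 ≤ δ') (hρ : Tl ρ T δ) (hh : Tl h T δ') (hη : 0 < η) :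
    |eV h ρ| ≤ η * (1 / 2 * eV h h) + 1 / η * (1 / 2 * eV ρ ρ) := by
  obtain ⟨a, ha⟩ : ∃ a, a = √η := ⟨_, rfl⟩
  have ha0 : 0 < a := by rw [ha]; exact Real.sqrt_pos.2 hη
  have ha2 : a ^ 2 = η := by rw [ha]; exact Real.sq_sqrt hη.le
  have key : ∀ σ : ℝ, σ ^ 2 = 1 → -(σ * eV h ρ) ≤ η * (1 / 2 * eV h h) + 1 / η * (1 / 2 * eV ρ ρ) := by
    intro σ hσ
    have h1 := hρ.smul (σ / a)
    have h2 := hh.smul a
    have h3 := psd hT (by positivity) (h1.add h2)
    rw [eV_add h1 h2, eV_smul, eV_smul, eV_smul] at h3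
    have e1 : σ / a * (σ / a) = 1 / η := by
      rw [← ha2]
      field_simp
      exact hσ
    have e2 : a * (σ / a) = σ := by field_simp
    rw [e1, e2, show a * a = a ^ 2 by ring, ha2] at h3
    linarith
  have h1 := key 1 (by norm_num)
  have h2 := key (-1) (by norm_num)
  rw [abs_le]
  constructor
  · linarith
  · linarith

end

end PLT.Gs
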