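import Pool.Agent.PLT.GOne
import Pool.Agent.PLT.GDat

/-!
# THETA B1a: one species, exponential moments of a field `V * h` and a mode

`oneS`: the window weight with density `ρ`, potential `F0 ≤ E`, against `exp (∑ (V * h)(t_i) + x ∑ φ(t_i))`;
`oneC`: the same, centred statistics.
-/

set_option autoImplicit false

open MeasureTheory Set Filter Topology
open scoped Real ENNReal

namespace PLT.Gs

open NUH0
open NUMF NUWC NUC37 NUKer NUDi NUMFC

noncomputable section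

variable {ρ h σ ρν : ℝ → ℝ} {T δ δ' G L η : ℝ}

/-- the constant of one species -/
def Bs (G L δ η : ℝ) (n : ℕ) (ρ E : ℝ → ℝ) : ℝ :=
  (n.factorial : ℝ) * (2 * Real.pi / √NUC62.cω) ^ n * Real.exp ((1 / 2 * eV ρ ρ +
    ∫ t in (-(L / 2))..(L / 2), ρ t * E t) + (7 / 12 * L + NUC62.err G L n) + 2 * (cV * δ ^ 2 * (2 * G + 1)) +
    (2 + 1 / η) * Qt G L E)

/-- **one species with a field `V * h` and a mode** -/
theorem oneS (hG : 9 ≤ G) (hT : 0 < T) (n : ℕ) (hρ : Tl ρ T δ) (hh : Tl h T δ')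
    (hL : L = 2 * T + 2 * G) {E E' : ℝ → ℝ} (hE : C1P L E E') {F0 : ℝ → ℝ} (hF : ∀ x, |x| ≤ T → F0 x ≤ E x)
    {f f' : ℝ → ℝ} (hf : C1P L f f') {φ : ℝ → ℝ} (hφ : ∀ x, |x| ≤ T → φ x = f x) (hη : 0 < η) (x : ℝ) :
    ∫⁻ ω, WT T n ρ F0 ω * ENNReal.ofReal (Real.exp ((∑ i, Vf h (ω i)) + x * ∑ i, φ (ω i))) ≤
      ENNReal.ofReal (Bs G L δ η n ρ E) * ENNReal.ofReal (Real.exp (eV h ρ +
        ((1 + 2 * η) * (1 / 2 * eV h h) + (2 + 2 * η) * (cV * δ' ^ 2 * (2 * G + 1))) +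
        (x * (∫ t in (-(L / 2))..(L / 2), ρ t * f t) + (2 + 1 / η) * Qt G L f * x ^ 2))) := by
  have hL0 : 0 < L := by rw [hL]; linarith
  have hle : -(L / 2) ≤ L / 2 := by linarith
  have hcV := cV_pos
  have hS : MeasurableSet (Set.univ.pi fun _ : Fin n => Icc (-T) T) :=
    MeasurableSet.univ_pi fun _ => measurableSet_Icc
  have hρh := hρ.add hh
  obtain ⟨M, hM⟩ := hρh.b
  have h1 := one hG hT n hρh.c hρh.i hM hρh.t hL (C1P.lin hE hf x) (F := fun t => F0 t + x * φ t)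
    (fun t ht => by
      rw [hφ t ht]
      linarith [hF t ht])
  have e1 : ∀ ω : Fin n → ℝ, WT T n ρ F0 ω *
      ENNReal.ofReal (Real.exp ((∑ i, Vf h (ω i)) + x * ∑ i, φ (ω i))) =
      (Set.univ.pi fun _ : Fin n => Icc (-T) T).indicator (fun t =>
        ENNReal.ofReal ((∏ i, ∏ j ∈ Finset.Ioi i, om (t i - t j)) *
        ∏ i, Real.exp ((∫ s, (ρ s + h s) * V (t i - s)) + (F0 (t i) + x * φ (t i))))) ω := by
    intro ω
    unfold WT
    by_cases hω : ω ∈ Set.univ.pi fun _ : Fin n => Icc (-T) T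
    · rw [indicator_of_mem hω, indicator_of_mem hω, ← ENNReal.ofReal_mul (by
        have : 0 ≤ ∏ i, ∏ j ∈ Finset.Ioi i, om (ω i - ω j) :=
          Finset.prod_nonneg fun i _ => Finset.prod_nonneg fun j _ => om_nonneg _
        exact mul_nonneg this (Finset.prod_nonneg fun i _ => (Real.exp_pos _).le))]
      congr 1
      rw [mul_assoc, ← Real.exp_sum, ← Real.exp_sum, ← Real.exp_add]
      congr 2
      rw [Finset.mul_sum, ← Finset.sum_add_distrib, ← Finset.sum_add_distrib]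
      refine Finset.sum_congr rfl fun i _ => ?_
      have e2 : ∫ s, (ρ s + h s) * V (ω i - s) = (∫ s, ρ s * V (ω i - s)) + Vf h (ω i) := by
        unfold Vf
        rw [← integral_add (Vi hρ (ω i)) (Vi hh (ω i))]
        refine integral_congr_ae (ae_of_all _ fun s => ?_)
        simp only
        ring
      rw [e2]
      ring
    · rw [indicator_of_notMem hω, indicator_of_notMem hω, zero_mul]
  simp_rw [e1]
  rw [lintegral_indicator hS]
  refine h1.trans ?_
  rw [← ENNReal.ofReal_mul (by unfold Bs; positivity)]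
  refine ENNReal.ofReal_le_ofReal ?_
  unfold Bs
  rw [mul_assoc ((n.factorial : ℝ) * (2 * Real.pi / √NUC62.cω) ^ n) (Real.exp _) (Real.exp _), ← Real.exp_add]
  refine mul_le_mul_of_nonneg_left (Real.exp_le_exp.2 ?_) (by positivity)
  -- the exponents
  have hu : 0 ≤ NUC62.uG G L / 4 * ((n : ℝ) - ∫ t in (-(L / 2))..(L / 2), ρ t + h t) ^ 2 := by
    have := NUMFC.uG_ge hG hL0
    have h5 : 0 ≤ NUC62.uG G L := le_trans (by positivity) this
    positivity
  have a1 := lemA' hG hT hh hL hE hη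
  have hxf : C1P L (fun t => x * f t) (fun t => x * f' t) := by
    have h0 : C1P L (fun _ => (0 : ℝ)) (fun _ => 0) :=
      ⟨continuousOn_const, fun x _ => hasDerivAt_const x 0, continuousOn_const, rfl⟩
    simpa using C1P.lin h0 hf x
  have a2 := lemA' hG hT hh hL hxf hη
  rw [Qt_smul hG hL0 hf] at a2
  have a3 := Qt_add_le hG hL0 hE hf x
  have e3 := eV_add hρ hh
  have i1 : IntervalIntegrable (fun t => ρ t * E t) volume (-(L / 2)) (L / 2) := by
    refine ContinuousOn.intervalIntegrable ?_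
    rw [uIcc_of_le hle]
    exact hρ.c.continuousOn.mul hE.cont
  have i2 : IntervalIntegrable (fun t => h t * E t) volume (-(L / 2)) (L / 2) := by
    refine ContinuousOn.intervalIntegrable ?_
    rw [uIcc_of_le hle]
    exact hh.c.continuousOn.mul hE.cont
  have i3 : IntervalIntegrable (fun t => ρ t * f t) volume (-(L / 2)) (L / 2) := by
    refine ContinuousOn.intervalIntegrable ?_
    rw [uIcc_of_le hle]
    exact hρ.c.continuousOn.mul hf.cont
  have i4 : IntervalIntegrable (fun t => h t * (x * f t)) volume (-(L / 2)) (L / 2) := by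
    refine ContinuousOn.intervalIntegrable ?_
    rw [uIcc_of_le hle]
    exact hh.c.continuousOn.mul hxf.cont
  have e4 : (∫ t in (-(L / 2))..(L / 2), (ρ t + h t) * (E t + x * f t)) =
      ((∫ t in (-(L / 2))..(L / 2), ρ t * E t) + ∫ t in (-(L / 2))..(L / 2), h t * E t) +
      (x * (∫ t in (-(L / 2))..(L / 2), ρ t * f t) + ∫ t in (-(L / 2))..(L / 2), h t * (x * f t)) := by
    rw [← intervalIntegral.integral_const_mul, ← intervalIntegral.integral_add i1 i2,
      ← intervalIntegral.integral_add (i3.const_mul x) i4,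
      ← intervalIntegral.integral_add (i1.add i2) ((i3.const_mul x).add i4)]
    refine intervalIntegral.integral_congr fun t _ => ?_
    ring
  have e5 : (1 : ℝ) / 2 * (∫ s, (ρ s + h s) * ∫ s', (ρ s' + h s') * V (s - s')) =
      1 / 2 * (eV ρ ρ + 2 * eV h ρ + eV h h) := by
    rw [← e3]
    rfl
  unfold B0
  rw [e4, e5]
  have d1 : cV * (δ + δ') ^ 2 * (2 * G + 1) ≤ 2 * (cV * δ ^ 2 * (2 * G + 1)) + 2 * (cV * δ' ^ 2 * (2 * G + 1)) := by
    have h6 : 0 ≤ cV * (2 * G + 1) * (δ - δ') ^ 2 := by positivity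
    nlinarith
  have a1' := (abs_le.1 a1).2
  have a2' := (abs_le.1 a2).2
  have e6 : 1 / η * (x ^ 2 * Qt G L f) = 1 / η * Qt G L f * x ^ 2 := by ring
  rw [e6] at a2'
  linarith

/-- **one species, centred**: the field is centred at `σ`, the mode at `ρν` -/
theorem oneC (hG : 9 ≤ G) (hT : 0 < T) (n : ℕ) (hρ : Tl ρ T δ) (hδ : 0 ≤ δ) (hh : Tl h T δ') (hδ' : 0 ≤ δ')
    (hσ : Tl σ T δ) (hL : L = 2 * T + 2 * G) {E E' : ℝ → ℝ} (hE : C1P L E E') {F0 : ℝ → ℝ}
    (hF : ∀ x, |x| ≤ T → F0 x ≤ E x) {f f' : ℝ → ℝ} (hf : C1P L f f') {φ : ℝ → ℝ}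
    (hφ : ∀ x, |x| ≤ T → φ x = f x) (hη : 0 < η) (x : ℝ) :
    ∫⁻ ω, WT T n ρ F0 ω * ENNReal.ofReal (Real.exp (nuF σ ω (Vf h) + x * nuF ρν ω φ)) ≤
      ENNReal.ofReal (Bs G L δ η n ρ E) * (ENNReal.ofReal (Real.exp (
        (1 + 3 * η) * (1 / 2 * eV h h) + (2 + 2 * η) * (cV * δ' ^ 2 * (2 * G + 1)) +
        1 / η * (1 / 2 * eV (fun s => ρ s + -1 * σ s) (fun s => ρ s + -1 * σ s)))) *
        ENNReal.ofReal (Real.exp (((∫ t in (-(L / 2))..(L / 2), ρ t * f t) - ∫ t, φ t * ρν t) * x +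
          2 * (2 + 1 / η) * Qt G L f * x ^ 2 / 2))) := by
  have h1 := oneS hG hT n hρ hh hL hE hF hf hφ hη x
  have e1 : ∀ ω : Fin n → ℝ, WT T n ρ F0 ω *
      ENNReal.ofReal (Real.exp (nuF σ ω (Vf h) + x * nuF ρν ω φ)) =
      ENNReal.ofReal (Real.exp (-(∫ t, Vf h t * σ t) - x * ∫ t, φ t * ρν t)) *
        (WT T n ρ F0 ω * ENNReal.ofReal (Real.exp ((∑ i, Vf h (ω i)) + x * ∑ i, φ (ω i)))) := by
    intro ω
    rw [mul_left_comm, ← ENNReal.ofReal_mul (Real.exp_pos _).le, ← Real.exp_add]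
    congr 3
    unfold nuF
    ring
  simp_rw [e1]
  rw [lintegral_const_mul' _ _ ENNReal.ofReal_ne_top]
  refine (mul_le_mul_right h1 _).trans ?_
  rw [mul_left_comm]
  refine mul_le_mul_right ?_ _
  rw [← ENNReal.ofReal_mul (Real.exp_pos _).le, ← ENNReal.ofReal_mul (Real.exp_pos _).le, ← Real.exp_add,
    ← Real.exp_add]
  refine ENNReal.ofReal_le_ofReal (Real.exp_le_exp.2 ?_)
  have hd := hρ.add (hσ.smul (-1))
  have c1 := csV hT.le (by positivity : 0 ≤ δ + |(-1 : ℝ)| * δ) hδ' hd hh hη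
  have e2 : eV h (fun s => ρ s + -1 * σ s) = eV h ρ - ∫ t, Vf h t * σ t := by
    rw [eV_add_right hρ (hσ.smul (-1)) hh]
    have e3 : eV h (fun s => -1 * σ s) = -eV h σ := by
      have := eV_smul 1 (-1) h σ
      simp only [one_mul] at this
      rw [this]
      ring
    rw [e3, eV_symm hh hσ]
    have e4 : eV σ h = ∫ t, Vf h t * σ t := by
      unfold eV Vf
      refine integral_congr_ae (ae_of_all _ fun t => ?_)
      simp only
      ring
    rw [e4]
    ring
  rw [e2] at c1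
  have c2 := (abs_le.1 c1).2
  have e5 : 2 * (2 + 1 / η) * Qt G L f * x ^ 2 / 2 = (2 + 1 / η) * Qt G L f * x ^ 2 := by ring
  rw [e5]
  linarith

end

end PLT.Gs
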