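import Pool.Agent.PLT.GNu
import Pool.Agent.PLT.GStat
import Pool.Agent.NUH0.Point

/-!
# THETA B1a: the pointwise bound of the positive gas on a static curve

`WO exp (1/2 ∑ F²) ≤ exp C0 * WX * WY * exp (1/2 NF ρ kd + 1/2 NF (ρ + r) ks)`.
-/

set_option autoImplicit false

open MeasureTheory Set Filter Topology

namespace PLT.Gs

open NUH0 (lgm_abs tau_lgm_int tau_logg_int)
open NUMF NUKer NUAct NU42 NUE

noncomputable section

/-! ### the kernel `log g` against integrable functions with first moments -/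

lemma logg_abs (x y : ℝ) : |Real.log (g (x - y))| ≤ (|Real.log (g 0)| + 2) + 2 * |x| + 2 * |y| := by
  have e : Real.log (g (x - y)) = Real.log (g 0) - lgm (x - y) := by unfold lgm; ring
  rw [e]
  refine (abs_sub _ _).trans ?_
  have := lgm_abs (x - y)
  have := abs_sub x y
  linarith

lemma logg_prod {f f' : ℝ → ℝ} (hf : Integrable f) (hf1 : Integrable fun x => f x * x)
    (hf' : Integrable f') (hf1' : Integrable fun x => f' x * x) :
    Integrable (fun z : ℝ × ℝ => f z.1 * (f' z.2 * Real.log (g (z.1 - z.2)))) (volume.prod volume) := by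
  have hm : AEStronglyMeasurable (fun z : ℝ × ℝ => f z.1 * (f' z.2 * Real.log (g (z.1 - z.2))))
      (volume.prod volume) := by
    refine hf.aestronglyMeasurable.comp_fst.mul ?_
    refine hf'.aestronglyMeasurable.comp_snd.mul ?_
    have h1 : Measurable fun t : ℝ => Real.log (g t) := by
      have : (fun t : ℝ => Real.log (g t)) = fun t => Real.log (g 0) - lgm t := by
        funext t; unfold lgm; ring
      rw [this]
      exact measurable_const.sub lgm_meas
    exact (h1.comp (measurable_fst.sub measurable_snd)).aestronglyMeasurable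
  have i1 : Integrable (fun z : ℝ × ℝ => |f z.1| * |f' z.2|) (volume.prod volume) := hf.abs.mul_prod hf'.abs
  have i2 : Integrable (fun z : ℝ × ℝ => |f z.1 * z.1| * |f' z.2|) (volume.prod volume) :=
    hf1.abs.mul_prod hf'.abs
  have i3 : Integrable (fun z : ℝ × ℝ => |f z.1| * |f' z.2 * z.2|) (volume.prod volume) :=
    hf.abs.mul_prod hf1'.abs
  refine (((i1.const_mul (|Real.log (g 0)| + 2)).add (i2.const_mul 2)).add (i3.const_mul 2)).mono' hm
    (ae_of_all _ fun z => ?_)
  have h4 := abs_nonneg (f z.1)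
  have h5 := abs_nonneg (f' z.2)
  rw [norm_mul, norm_mul, Real.norm_eq_abs, Real.norm_eq_abs, Real.norm_eq_abs]
  calc |f z.1| * (|f' z.2| * |Real.log (g (z.1 - z.2))|) ≤
      |f z.1| * (|f' z.2| * ((|Real.log (g 0)| + 2) + 2 * |z.1| + 2 * |z.2|)) := by
        gcongr
        exact logg_abs _ _
    _ = _ := by
      simp only [Pi.add_apply, abs_mul]
      ring

lemma logg_symm {f f' : ℝ → ℝ} (hf : Integrable f) (hf1 : Integrable fun x => f x * x)
    (hf' : Integrable f') (hf1' : Integrable fun x => f' x * x) :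
    Integrable (fun x => f x * ∫ u, f' u * Real.log (g (x - u))) ∧
      ∫ x, f x * ∫ u, f' u * Real.log (g (x - u)) = ∫ x, f' x * ∫ u, f u * Real.log (g (x - u)) := by
  have hint := logg_prod hf hf1 hf' hf1'
  have e1 : ∀ x, ∫ u, f x * (f' u * Real.log (g (x - u))) = f x * ∫ u, f' u * Real.log (g (x - u)) :=
    fun x => by rw [integral_const_mul]
  have e2 : ∀ u, ∫ x, f x * (f' u * Real.log (g (x - u))) = f' u * ∫ x, f x * Real.log (g (u - x)) := by
    intro u
    have h1 : ∀ x, f x * (f' u * Real.log (g (x - u))) = f' u * (f x * Real.log (g (u - x))) := by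
      intro x
      rw [show x - u = -(u - x) by ring, g_neg]
      ring
    simp_rw [h1]
    rw [integral_const_mul]
  refine ⟨hint.integral_prod_left.congr (ae_of_all _ fun x => e1 x), ?_⟩
  have h1 := integral_integral_swap (f := fun x u => f x * (f' u * Real.log (g (x - u)))) hint
  simp only [e1, e2] at h1
  exact h1

/-! ### the sea -/

variable {X : Dat} {tc Cκ : ℝ} {p n : ℕ}

lemma Geo.Pi (h : Geo X tc Cκ) : Integrable X.P := by
  by_contra hn
  have h1 := h.P1
  rw [integral_undef hn] at h1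
  exact zero_ne_one h1

lemma Geo.tc0 (h : Geo X tc Cκ) : 0 ≤ tc := by
  have h1 := (h.P0 0).trans (h.PT 0)
  simp only [abs_zero, mul_zero, Real.exp_zero, mul_one] at h1
  linarith

lemma Geo.Pm (h : Geo X tc Cκ) : Integrable fun x => X.P x * x := by
  have h1 := (int_exp_abs' (κ := 5 / 3) (by norm_num)).const_mul (tc / 2)
  refine h1.mono' (h.Pc.mul continuous_id).aestronglyMeasurable (ae_of_all _ fun x => ?_)
  have h2 := h.PT x
  have h3 := h.P0 x
  have h0 := h.tc0
  rw [norm_mul, Real.norm_eq_abs, Real.norm_eq_abs, abs_of_nonneg h3]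
  have h4 : |x| ≤ Real.exp |x| := by linarith [Real.add_one_le_exp |x|]
  have h5 : Real.exp (-(5 / 3) * |x|) = Real.exp (-(8 / 3) * |x|) * Real.exp |x| := by
    rw [← Real.exp_add]; congr 1; ring
  calc X.P x * |x| ≤ (tc / 2 * Real.exp (-(8 / 3) * |x|)) * Real.exp |x| :=
        mul_le_mul h2 h4 (abs_nonneg _) (by positivity)
    _ = tc / 2 * (Real.exp (-(5 / 3) * |x|)) := by rw [h5]; ring

lemma Geo.dens (h : Geo X tc Cκ) (a : Bool) : Dens (X.ρ a) :=
  ⟨h.Pi.const_mul _, fun t => mul_nonneg (h.s0 a) (h.P0 t), continuous_const.mul h.Pc⟩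

lemma Geo.int_rho (h : Geo X tc Cκ) (a : Bool) : ∫ t, X.ρ a t = X.s a := by
  unfold Dat.ρ
  rw [integral_const_mul, h.P1, mul_one]

lemma Geo.ρi (h : Geo X tc Cκ) (a : Bool) : Integrable (X.ρ a) := (h.dens a).int

lemma Geo.ρc (h : Geo X tc Cκ) (a : Bool) : Continuous (X.ρ a) := (h.dens a).cont

lemma Geo.ρb (h : Geo X tc Cκ) (a : Bool) : ∃ M, ∀ t, |X.ρ a t| ≤ M := by
  refine ⟨X.s a * (tc / 2), fun t => ?_⟩
  have h0 := h.s0 a
  have h1 := h.P0 t
  have h2 := h.PT t
  have h3 := h.tc0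
  have h4 : Real.exp (-(8 / 3) * |t|) ≤ 1 := by
    rw [Real.exp_le_one_iff]
    have := abs_nonneg t
    linarith
  unfold Dat.ρ
  rw [abs_of_nonneg (mul_nonneg h0 h1)]
  refine mul_le_mul_of_nonneg_left (h2.trans ?_) h0
  exact mul_le_of_le_one_right (by positivity) h4

lemma Geo.bd (h : Geo X tc Cκ) (a b : Bool) : Bk (Cκ + Cκ) (X.kd a b) := (h.bk a b).sub (h.bs a b)

lemma Kr_eq (X : Dat) (a : Bool) (t : ℝ) : X.Kr a t = kR X.ks X.r a t := rfl

/-! ### the splitting -/

lemma Fld.tfi (h : Fld X p n) (hG : Geo X tc Cκ) : Integrable (tf X) := h.τi.add (hG.Pi.const_mul _)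

lemma Fld.tf1 (h : Fld X p n) (hG : Geo X tc Cκ) : Integrable fun x => tf X x * x := by
  refine (h.τ1.add (hG.Pm.const_mul (X.s true - X.s false))).congr (ae_of_all _ fun x => ?_)
  simp only [Pi.add_apply]
  unfold tf
  ring

lemma Fld.tf0 (h : Fld X p n) (hG : Geo X tc Cκ) : ∫ x, tf X x = (p : ℝ) - n := by
  unfold tf
  rw [integral_add h.τi (hG.Pi.const_mul _), h.τ0, integral_const_mul, hG.P1]
  ring

/-- `log g * tf` -/
lemma Fld.Gf_eq (h : Fld X p n) (hG : Geo X tc Cκ) (x : ℝ) : ∫ u, tf X u * Real.log (g (x - u)) =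
    X.Gt x + (X.s true - X.s false) * X.GP x := by
  have e : ∀ u, tf X u * Real.log (g (x - u)) = X.τ u * Real.log (g (x - u)) +
      (X.s true - X.s false) * (X.P u * Real.log (g (x - u))) := fun u => by unfold tf; ring
  simp_rw [e]
  rw [integral_add (tau_logg_int h.τi h.τ1 x) ((tau_logg_int hG.Pi hG.Pm x).const_mul _), integral_const_mul]
  rfl

lemma Fld.cv_eq (h : Fld X p n) (hG : Geo X tc Cκ) (x : ℝ) :
    NUE.cv lgm (tf X) x = Real.log (g 0) * ((p : ℝ) - n) - X.Gt x - (X.s true - X.s false) * X.GP x := by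
  have h0 : NUE.cv lgm (tf X) x = Real.log (g 0) * ((p : ℝ) - n) -
      ∫ u, tf X u * Real.log (g (x - u)) := by
    unfold NUE.cv
    rw [← h.tf0 hG, ← integral_const_mul,
      ← integral_sub ((h.tfi hG).const_mul _) (tau_logg_int (h.tfi hG) (h.tf1 hG) x)]
    refine integral_congr_ae (ae_of_all _ fun y => ?_)
    simp only
    unfold lgm
    ring
  rw [h0, h.Gf_eq hG]
  ring

lemma Fld.int_cv (h : Fld X p n) (hG : Geo X tc Cκ) : ∫ x, tf X x * NUE.cv lgm (tf X) x =
    Real.log (g 0) * ((p : ℝ) - n) ^ 2 - (∫ x, X.τ x * X.Gt x) -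
      2 * (X.s true - X.s false) * (∫ x, X.P x * X.Gt x) - (X.s true - X.s false) ^ 2 * ∫ x, X.P x * X.GP x := by
  have j1 : Integrable fun x => X.P x * X.Gt x := (logg_symm hG.Pi hG.Pm h.τi h.τ1).1
  obtain ⟨j2, j3⟩ := logg_symm h.τi h.τ1 hG.Pi hG.Pm
  have j4 : Integrable fun x => X.τ x * X.Gt x := (logg_symm h.τi h.τ1 h.τi h.τ1).1
  have j5 : Integrable fun x => X.P x * X.GP x := (logg_symm hG.Pi hG.Pm hG.Pi hG.Pm).1
  have j2' : Integrable fun x => X.τ x * X.GP x := j2
  have j3' : ∫ x, X.τ x * X.GP x = ∫ x, X.P x * X.Gt x := j3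
  have e : ∀ x, tf X x * NUE.cv lgm (tf X) x = (Real.log (g 0) * ((p : ℝ) - n)) * tf X x -
      X.τ x * X.Gt x - (X.s true - X.s false) * (X.P x * X.Gt x) -
      ((X.s true - X.s false) * (X.τ x * X.GP x) + (X.s true - X.s false) ^ 2 * (X.P x * X.GP x)) := by
    intro x
    rw [h.cv_eq hG]
    unfold tf
    ring
  simp_rw [e]
  have a1 : Integrable fun x => (Real.log (g 0) * ((p : ℝ) - n)) * tf X x - X.τ x * X.Gt x :=
    ((h.tfi hG).const_mul _).sub j4
  have a2 : Integrable fun x => (Real.log (g 0) * ((p : ℝ) - n)) * tf X x - X.τ x * X.Gt x -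
      (X.s true - X.s false) * (X.P x * X.Gt x) := a1.sub (j1.const_mul _)
  have a3 : Integrable fun x => (X.s true - X.s false) * (X.τ x * X.GP x) +
      (X.s true - X.s false) ^ 2 * (X.P x * X.GP x) := (j2'.const_mul _).add (j5.const_mul _)
  rw [integral_sub a2 a3, integral_sub a1 (j1.const_mul _), integral_sub ((h.tfi hG).const_mul _) j4,
    integral_add (j2'.const_mul _) (j5.const_mul _), integral_const_mul, integral_const_mul,
    integral_const_mul, integral_const_mul, h.tf0 hG, j3']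
  ring

/-- one body exponent of the one component gas -/
def Xp (X : Dat) (a : Bool) (t : ℝ) : ℝ := X.s a * X.VP t + X.Vm a t + X.φ a t

/-- the one component weight -/
def W1 (X : Dat) (a : Bool) {N : ℕ} (t : Fin N → ℝ) : ℝ := pom t * ∏ i, Real.exp (Xp X a (t i))

/-- the constant -/
def C0 (X : Dat) (p n : ℕ) : ℝ := Real.log (g 0) * (((p : ℝ) + n) / 2) + X.S +
  (1 / 2 * (∫ x, X.τ x * X.Gt x) + (X.s true - X.s false) * (∫ x, X.P x * X.Gt x) +
    1 / 2 * ((X.s true - X.s false) ^ 2 * ∫ x, X.P x * X.GP x)) - (∑ a, ∫ t, X.ρ a t * X.lin a t) -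
  (∑ a, ∫ t, X.ρ a t * X.Kr a t) - 1 / 2 * ∑ a, ∫ t, X.r a t * X.Kr a t

/-- the forms -/
def NFs (X : Dat) (t : Fin p → ℝ) (t' : Fin n → ℝ) : ℝ := NF X.ρ X.kd t t' + NF (rr X) X.ks t t'

/-- the form of the total kernels -/
lemma NF_kappa (hG : Geo X tc Cκ) (hR : Reg X) (t : Fin p → ℝ) (t' : Fin n → ℝ) :
    1 / 2 * NF X.ρ X.κ t t' = 1 / 2 * NFs X t t' + (∑ i, X.Kr true (t i)) + (∑ j, X.Kr false (t' j)) -
      (∑ a, ∫ x, X.ρ a x * X.Kr a x) - 1 / 2 * ∑ a, ∫ x, X.r a x * X.Kr a x := by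
  have h1 := NF_center (K := X.ks) (R := X.ρ) (r := X.r) hG.ρi hR.ri hG.bs hG.sy t t'
  have h2 : NF X.ρ X.kd t t' = NF X.ρ X.κ t t' - NF X.ρ X.ks t t' := by
    unfold NF
    have e : ∀ {ι ι' : Type} [Fintype ι] [Fintype ι'] (s : ι → ℝ) (s' : ι' → ℝ) (a b : Bool),
        nuF2 (X.ρ a) (X.ρ b) s s' (X.kd a b) = nuF2 (X.ρ a) (X.ρ b) s s' (X.κ a b) -
          nuF2 (X.ρ a) (X.ρ b) s s' (X.ks a b) := fun s s' a b =>
      nuF2_sub (hG.dens a) (hG.dens b) s s' (hG.bk a b) (hG.bs a b)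
    rw [e, e, e, e]
    ring
  have e3 : NF (fun a u => X.ρ a u + X.r a u) X.ks t t' = NF (rr X) X.ks t t' := rfl
  unfold NFs
  rw [h2]
  rw [e3] at h1
  simp only [Kr_eq]
  linear_combination (1 / 2) * h1

/-- **the exponent identity in the final form** -/
theorem expo_eq (hG : Geo X tc Cκ) (hF : Fld X p n) (hR : Reg X) (t : Fin p → ℝ) (t' : Fin n → ℝ) :
    Ctau p n (tf X) + (∑ i, (X.pot true (t i) + NUE.cv lgm (tf X) (t i))) +
      (∑ j, (X.pot false (t' j) - NUE.cv lgm (tf X) (t' j))) +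
      KE (X.D true) (X.D1 true) (X.D false) (X.D1 false) t t' =
    C0 X p n + (∑ i, Xp X true (t i)) + (∑ j, Xp X false (t' j)) + 1 / 2 * NFs X t t' := by
  have h1 := hG.act t t'
  rw [NF_kappa hG hR] at h1
  have e3 : ∀ t, X.lin true t = X.Gt t - X.E true t - X.Kr true t + X.Vm true t + X.φ true t := by
    intro t
    have := hF.eq true t
    unfold Dat.sg at this
    simp only [if_true] at this
    linarith
  have e4 : ∀ t, X.lin false t = - X.Gt t - X.E false t - X.Kr false t + X.Vm false t + X.φ false t := by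
    intro t
    have := hF.eq false t
    unfold Dat.sg at this
    simp only [Bool.false_eq_true, if_false] at this
    linarith
  have v3 : ∀ t, X.vr true t = X.s true * X.VP t + (X.s true - X.s false) * X.GP t := by
    intro t
    unfold Dat.vr Dat.sg
    simp only [if_true, one_mul]
  have v4 : ∀ t, X.vr false t = X.s false * X.VP t - (X.s true - X.s false) * X.GP t := by
    intro t
    unfold Dat.vr Dat.sg
    simp only [Bool.false_eq_true, if_false]
    ring
  have t1 : ∑ i, (X.pot true (t i) + NUE.cv lgm (tf X) (t i)) =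
      ∑ i, (X.pot true (t i) - X.E true (t i) - X.vr true (t i)) +
      ∑ i, (Xp X true (t i) - X.lin true (t i) - X.Kr true (t i) + Real.log (g 0) * ((p : ℝ) - n)) := by
    rw [← Finset.sum_add_distrib]
    refine Finset.sum_congr rfl fun i _ => ?_
    rw [hF.cv_eq hG, e3, v3]
    unfold Xp
    ring
  have t2 : ∑ j, (X.pot false (t' j) - NUE.cv lgm (tf X) (t' j)) =
      ∑ j, (X.pot false (t' j) - X.E false (t' j) - X.vr false (t' j)) +
      ∑ j, (Xp X false (t' j) - X.lin false (t' j) - X.Kr false (t' j) - Real.log (g 0) * ((p : ℝ) - n)) := by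
    rw [← Finset.sum_add_distrib]
    refine Finset.sum_congr rfl fun i _ => ?_
    rw [hF.cv_eq hG, e4, v4]
    unfold Xp
    ring
  rw [t1, t2]
  simp only [Finset.sum_add_distrib, Finset.sum_sub_distrib, Finset.sum_const, Finset.card_univ,
    Fintype.card_fin, nsmul_eq_mul] at h1 ⊢
  unfold Ctau C0
  rw [hF.int_cv hG]
  linear_combination h1

/-- **pointwise bound** -/
theorem point (hG : Geo X tc Cκ) (hF : Fld X p n) (hR : Reg X) {c : ℝ → ℝ} (hc : Continuous c)
    (hce : ∀ k, c (-k) = c k) {K h : ℝ} (hh : 0 < h)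
    (hK : K * h < Real.pi) (hcs : ∀ k, K < |k| → c k = 0) (hL : ∀ k, 0 < k → c k ^ 2 ≤ NUMF.Lh k)
    (La : Finset ℤ) (a0 : ℝ) (t : Fin p → ℝ) (t' : Fin n → ℝ) :
    WO (X.D true) (X.D1 true) (X.D false) (X.D1 false) (fun t => Real.exp (X.pot true t))
      (fun t => Real.exp (X.pot false t)) t t' *
        Real.exp (1 / 2 * ∑ l ∈ La, Fst c h a0 (tf X) l t t' ^ 2) ≤
      Real.exp (C0 X p n) * (W1 X true t * W1 X false t') * Real.exp (1 / 2 * NFs X t t') := by
  have h1 := WO_tau hc hce hh hK hcs hL La a0 (hF.tfi hG) (hF.tf1 hG) (hF.tf0 hG) hG.small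
    (a := fun t => Real.exp (X.pot true t)) (a' := fun t => Real.exp (X.pot false t))
    (fun t => (Real.exp_pos _).le) (fun t => (Real.exp_pos _).le) t t'
  refine h1.trans (le_of_eq ?_)
  have h2 := congrArg Real.exp (expo_eq hG hF hR t t')
  simp only [Real.exp_add, Real.exp_sum, sub_eq_add_neg] at h2
  unfold W1
  calc _ = pom t * pom t' * (Real.exp (Ctau p n (tf X)) *
        (∏ i, (Real.exp (X.pot true (t i)) * Real.exp (NUE.cv lgm (tf X) (t i)))) *
        (∏ j, (Real.exp (X.pot false (t' j)) * Real.exp (-NUE.cv lgm (tf X) (t' j)))) *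
        Real.exp (KE (X.D true) (X.D1 true) (X.D false) (X.D1 false) t t')) := by ring
    _ = pom t * pom t' * (Real.exp (C0 X p n) * (∏ i, Real.exp (Xp X true (t i))) *
        (∏ j, Real.exp (Xp X false (t' j))) * Real.exp (1 / 2 * NFs X t t')) := by rw [h2]
    _ = _ := by ring

end

end PLT.Gs
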