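import Pool.Agent.PLT.GCut

/-!
# THETA B1a: the static form is a form of finite rank plus the rest; the cuts

`rest`: `1/2 NF (ρ + r) ks = Qs + 1/2 NF (ρ + r) (w w kt)`; `NF_cutd`, `NF_cutr`: the forms with cut kernels.
-/

set_option autoImplicit false

open MeasureTheory Set Filter Topology
open scoped Real ENNReal

namespace PLT.Gs

open NUH0
open NUMF NUWC NUC37 NUKer NUDi NUMFC
open NU42 (Bk)

noncomputable section

section lin

variable {ι ι' : Type*} [Fintype ι] [Fintype ι'] {ρ ρ' : ℝ → ℝ} {C C' : ℝ} {κ κ' : ℝ → ℝ → ℝ}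

lemma nuF_add (s : ι → ℝ) {f g : ℝ → ℝ} (hf : Integrable fun t => f t * ρ t)
    (hg : Integrable fun t => g t * ρ t) : nuF ρ s (fun t => f t + g t) = nuF ρ s f + nuF ρ s g := by
  unfold nuF
  have e : ∀ t, (f t + g t) * ρ t = f t * ρ t + g t * ρ t := fun t => by ring
  simp_rw [e]
  rw [integral_add hf hg, Finset.sum_add_distrib]
  ring

lemma nuF_lin {N : ℕ} (s : ι → ℝ) (c : Fin N → ℝ) {f : Fin N → ℝ → ℝ}
    (hf : ∀ i, Integrable fun t => f i t * ρ t) :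
    nuF ρ s (fun t => ∑ i, c i * f i t) = ∑ i, c i * nuF ρ s (f i) := by
  unfold nuF
  have e : ∀ u, (∑ i, c i * f i u) * ρ u = ∑ i, c i * (f i u * ρ u) := fun u => by
    rw [Finset.sum_mul]
    exact Finset.sum_congr rfl fun i _ => by ring
  simp_rw [e]
  rw [integral_finsetSum _ fun i _ => (hf i).const_mul (c i), Finset.sum_comm, ← Finset.sum_sub_distrib]
  refine Finset.sum_congr rfl fun i _ => ?_
  rw [integral_const_mul, ← Finset.mul_sum]
  ring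

lemma nuF_abs (hρ : Integrable ρ) (s : ι → ℝ) {f : ℝ → ℝ} {ε : ℝ} (hf : ∀ t, |f t| ≤ ε) :
    |nuF ρ s f| ≤ ε * (Fintype.card ι + ∫ t, |ρ t|) := by
  unfold nuF
  have h1 : |∑ i, f (s i)| ≤ ε * Fintype.card ι := by
    refine (Finset.abs_sum_le_sum_abs _ _).trans ((Finset.sum_le_sum fun i _ => hf (s i)).trans (le_of_eq ?_))
    rw [Finset.sum_const, Finset.card_univ, nsmul_eq_mul, mul_comm]
  have h2 := abs_ibd hρ hf
  refine (abs_sub _ _).trans ?_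
  linarith

lemma nuF2_add (hρ : Integrable ρ) (hρ' : Integrable ρ') (s : ι → ℝ) (s' : ι' → ℝ) (h : Bk C κ) (h' : Bk C' κ') :
    nuF2 ρ ρ' s s' (fun t t' => κ t t' + κ' t t') = nuF2 ρ ρ' s s' κ + nuF2 ρ ρ' s s' κ' := by
  unfold nuF2
  have e : ∀ t, nuF ρ' s' (fun t' => κ t t' + κ' t t') = nuF ρ' s' (κ t) + nuF ρ' s' (κ' t) := fun t =>
    nuF_add s' (ibd hρ' (h.right t) (h.le t)) (ibd hρ' (h'.right t) (h'.le t))
  simp_rw [e]
  have g : ∀ {C : ℝ} {κ : ℝ → ℝ → ℝ}, Bk C κ → Integrable fun t => nuF ρ' s' (κ t) * ρ t := by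
    intro C κ h
    refine ibd hρ (C := C * (Fintype.card ι' + ∫ t, |ρ' t|)) ?_ fun t => nuF_abs hρ' s' (h.le t)
    unfold nuF
    exact (continuous_finsetSum _ fun i _ => h.left (s' i)).sub (cvc hρ' h)
  exact nuF_add s (g h) (g h')

lemma nuF2_abs (hρ : Integrable ρ) (hρ' : Integrable ρ') (s : ι → ℝ) (s' : ι' → ℝ) {ε : ℝ}
    (h : ∀ t t', |κ t t'| ≤ ε) :
    |nuF2 ρ ρ' s s' κ| ≤ ε * (Fintype.card ι' + ∫ t, |ρ' t|) * (Fintype.card ι + ∫ t, |ρ t|) := by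
  unfold nuF2
  exact nuF_abs hρ s fun t => nuF_abs hρ' s' (h t)

lemma nuF_absg (s : ι → ℝ) {f g : ℝ → ℝ} (hg : Integrable fun t => g t * |ρ t|) (hf : ∀ t, |f t| ≤ g t) :
    |nuF ρ s f| ≤ ∑ i, g (s i) + ∫ t, g t * |ρ t| := by
  unfold nuF
  have h1 : |∑ i, f (s i)| ≤ ∑ i, g (s i) :=
    (Finset.abs_sum_le_sum_abs _ _).trans (Finset.sum_le_sum fun i _ => hf (s i))
  have h2 : |∫ t, f t * ρ t| ≤ ∫ t, g t * |ρ t| := by
    rw [← Real.norm_eq_abs]
    refine norm_integral_le_of_norm_le hg (ae_of_all _ fun t => ?_)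
    rw [norm_mul, Real.norm_eq_abs, Real.norm_eq_abs]
    exact mul_le_mul_of_nonneg_right (hf t) (abs_nonneg _)
  exact (abs_sub _ _).trans (add_le_add h1 h2)

/-- kernels `≤ ε + d0 (γ t + γ t')` -/
lemma nuF2_absg (hρ : Integrable ρ) (hρ' : Integrable ρ') (s : ι → ℝ) (s' : ι' → ℝ) {ε d0 c : ℝ} {γ : ℝ → ℝ}
    (hγ : Continuous γ) (hγ1 : ∀ t, |γ t| ≤ c)
    (h : ∀ t t', |κ t t'| ≤ ε + d0 * (γ t + γ t')) :
    |nuF2 ρ ρ' s s' κ| ≤ ε * (Fintype.card ι' + ∫ t, |ρ' t|) * (Fintype.card ι + ∫ t, |ρ t|) +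
      d0 * ((Fintype.card ι + ∫ t, |ρ t|) * (∑ j, γ (s' j) + ∫ t, γ t * |ρ' t|) +
        (Fintype.card ι' + ∫ t, |ρ' t|) * (∑ i, γ (s i) + ∫ t, γ t * |ρ t|)) := by
  have ig : Integrable fun t => γ t * |ρ t| := ibd hρ.abs hγ hγ1
  have ig' : Integrable fun t => γ t * |ρ' t| := ibd hρ'.abs hγ hγ1
  obtain ⟨m, hm⟩ : ∃ m : ℝ, m = Fintype.card ι + ∫ t, |ρ t| := ⟨_, rfl⟩
  obtain ⟨m', hm'⟩ : ∃ m' : ℝ, m' = Fintype.card ι' + ∫ t, |ρ' t| := ⟨_, rfl⟩
  obtain ⟨G', hG'⟩ : ∃ G' : ℝ, G' = ∑ j, γ (s' j) + ∫ t, γ t * |ρ' t| := ⟨_, rfl⟩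
  have h1 : ∀ t, |nuF ρ' s' (κ t)| ≤ (ε + d0 * γ t) * m' + d0 * G' := by
    intro t
    have i1 : Integrable fun t' => (ε + d0 * (γ t + γ t')) * |ρ' t'| := by
      refine ((hρ'.abs.const_mul (ε + d0 * γ t)).add (ig'.const_mul d0)).congr (ae_of_all _ fun t' => ?_)
      simp only [Pi.add_apply]
      ring
    refine (nuF_absg s' i1 (h t)).trans (le_of_eq ?_)
    have e1 : ∫ t', (ε + d0 * (γ t + γ t')) * |ρ' t'| =
        (ε + d0 * γ t) * (∫ t', |ρ' t'|) + d0 * ∫ t', γ t' * |ρ' t'| := by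
      rw [← integral_const_mul, ← integral_const_mul, ← integral_add (hρ'.abs.const_mul _) (ig'.const_mul _)]
      refine integral_congr_ae (ae_of_all _ fun t' => ?_)
      simp only
      ring
    have e2 : ∑ j, (ε + d0 * (γ t + γ (s' j))) = (ε + d0 * γ t) * Fintype.card ι' + d0 * ∑ j, γ (s' j) := by
      rw [Finset.mul_sum, mul_comm _ (Fintype.card ι' : ℝ), ← nsmul_eq_mul, ← Finset.card_univ, ← Finset.sum_const,
        ← Finset.sum_add_distrib]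
      exact Finset.sum_congr rfl fun j _ => by ring
    rw [e1, e2, hm', hG']
    ring
  have i2 : Integrable fun t => ((ε + d0 * γ t) * m' + d0 * G') * |ρ t| := by
    refine ((hρ.abs.const_mul (ε * m' + d0 * G')).add (ig.const_mul (d0 * m'))).congr (ae_of_all _ fun t => ?_)
    simp only [Pi.add_apply]
    ring
  unfold nuF2
  refine (nuF_absg s i2 h1).trans (le_of_eq ?_)
  have e1 : ∫ t, ((ε + d0 * γ t) * m' + d0 * G') * |ρ t| =
      (ε * m' + d0 * G') * (∫ t, |ρ t|) + d0 * m' * ∫ t, γ t * |ρ t| := by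
    rw [← integral_const_mul, ← integral_const_mul, ← integral_add (hρ.abs.const_mul _) (ig.const_mul _)]
    refine integral_congr_ae (ae_of_all _ fun t => ?_)
    simp only
    ring
  have e2 : ∑ i, ((ε + d0 * γ (s i)) * m' + d0 * G') =
      (ε * m' + d0 * G') * Fintype.card ι + d0 * m' * ∑ i, γ (s i) := by
    rw [Finset.mul_sum, mul_comm _ (Fintype.card ι : ℝ), ← nsmul_eq_mul, ← Finset.card_univ, ← Finset.sum_const,
      ← Finset.sum_add_distrib]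
    exact Finset.sum_congr rfl fun i _ => by ring
  rw [e1, e2, ← hm', ← hm, ← hG', hm]
  ring

/-- a form of finite rank -/
lemma nuF2_fin {N : ℕ} (hρ : Integrable ρ) (hρ' : Integrable ρ') (s : ι → ℝ) (s' : ι' → ℝ)
    (S : Fin N → Fin N → ℝ) {f f' : Fin N → ℝ → ℝ} (hf : ∀ i, Continuous (f i)) (hfb : ∀ i t, |f i t| ≤ C)
    (hf' : ∀ i, Continuous (f' i)) (hfb' : ∀ i t, |f' i t| ≤ C) :
    nuF2 ρ ρ' s s' (fun t t' => ∑ i, ∑ j, S i j * f i t * f' j t') =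
      ∑ i, ∑ j, S i j * nuF ρ s (f i) * nuF ρ' s' (f' j) := by
  unfold nuF2
  have e : ∀ t, nuF ρ' s' (fun t' => ∑ i, ∑ j, S i j * f i t * f' j t') =
      ∑ i, (∑ j, S i j * nuF ρ' s' (f' j)) * f i t := by
    intro t
    have e1 : (fun t' => ∑ i, ∑ j, S i j * f i t * f' j t') = fun t' => ∑ j, (∑ i, S i j * f i t) * f' j t' := by
      funext t'
      rw [Finset.sum_comm]
      exact Finset.sum_congr rfl fun j _ => by rw [Finset.sum_mul]
    rw [e1, nuF_lin s' _ fun j => ibd hρ' (hf' j) (hfb' j)]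
    calc ∑ j, (∑ i, S i j * f i t) * nuF ρ' s' (f' j) = ∑ j, ∑ i, S i j * f i t * nuF ρ' s' (f' j) :=
          Finset.sum_congr rfl fun j _ => by rw [Finset.sum_mul]
      _ = ∑ i, ∑ j, S i j * f i t * nuF ρ' s' (f' j) := Finset.sum_comm
      _ = _ := Finset.sum_congr rfl fun i _ => by
          rw [Finset.sum_mul]
          exact Finset.sum_congr rfl fun j _ => by ring
  simp_rw [e]
  rw [nuF_lin s _ fun i => ibd hρ (hf i) (hfb i)]
  refine Finset.sum_congr rfl fun i _ => ?_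
  rw [Finset.sum_mul]
  exact Finset.sum_congr rfl fun j _ => by ring

end lin

variable {N : ℕ} {h : Fin N → Bool → ℝ → ℝ} {Sm : Fin N → Fin N → ℝ} {θ M Λ c : ℝ}
  {kt : Bool → Bool → ℝ → ℝ → ℝ} {ks : Bool → Bool → ℝ → ℝ → ℝ} {X : Dat} {tc Cκ : ℝ} {p n : ℕ}

/-- the rest is bounded -/
theorem StK.bk (hs : StK ks N h Sm θ M Λ c kt) (a b : Bool) : Bk Λ (kt a b) := by
  refine ⟨hs.kcont a b, fun t t' => ?_⟩
  have h1 := (hs.kc (max |t| |t'|) a b).bound (le_max_left |t| |t'|) (le_max_right |t| |t'|)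
  rw [Complex.norm_real, Real.norm_eq_abs] at h1
  exact h1

/-- the weighted rest -/
def kw' (c : ℝ) (kt : Bool → Bool → ℝ → ℝ → ℝ) (a b : Bool) (t t' : ℝ) : ℝ := wc c t * wc c t' * kt a b t t'

theorem StK.bw (hs : StK ks N h Sm θ M Λ c kt) (a b : Bool) : Bk Λ (kw' c kt a b) :=
  (hs.bk a b).cut (R := 0) (wc_cont c) fun t => by
    rw [abs_of_pos (wc_pos c t)]
    exact wc_le_one c t

/-- **the static form** -/
theorem rest (hG : Geo X tc Cκ) (hR : Reg X) (hs : StK X.ks N h Sm θ M Λ c kt)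
    (ω : (Fin p → ℝ) × (Fin n → ℝ)) :
    1 / 2 * NF (rr X) X.ks ω.1 ω.2 = Qs X h Sm ω + 1 / 2 * NF (rr X) (kw' c kt) ω.1 ω.2 := by
  have hfc := fun (i : Fin N) (a : Bool) => fi_cont hs.hc hs.hb i a
  have hfb := fun (i : Fin N) (a : Bool) (t : ℝ) => fi_bdd hs.hc hs.hb i a t
  have hri := rr_int hG hR
  obtain ⟨C0, hC0⟩ : ∃ C0 : ℝ, C0 = M * ∫ u, |V u| := ⟨_, rfl⟩
  rw [← hC0] at hfb
  have hC : ∀ i : Fin N, 0 ≤ C0 := fun i => (abs_nonneg _).trans (hfb i true 0)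
  have hF : ∀ a b : Bool, Bk (∑ i : Fin N, ∑ j : Fin N, |Sm i j| * C0 * C0)
      (fun t t' => ∑ i, ∑ j, Sm i j * fi h i a t * fi h j b t') := by
    intro a b
    refine ⟨?_, fun t t' => ?_⟩
    · refine continuous_finsetSum _ fun i _ => continuous_finsetSum _ fun j _ => ?_
      have c1 := hfc i a
      have c2 := hfc j b
      fun_prop
    · refine (Finset.abs_sum_le_sum_abs _ _).trans (Finset.sum_le_sum fun i _ => ?_)
      refine (Finset.abs_sum_le_sum_abs _ _).trans (Finset.sum_le_sum fun j _ => ?_)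
      rw [abs_mul, abs_mul]
      have := hC i
      gcongr
      · exact hfb i a t
      · exact hfb j b t'
  have g : ∀ {m m' : ℕ} (t : Fin m → ℝ) (t' : Fin m' → ℝ) (a b : Bool),
      nuF2 (rr X a) (rr X b) t t' (X.ks a b) =
        (∑ i, ∑ j, Sm i j * nuF (rr X a) t (fi h i a) * nuF (rr X b) t' (fi h j b)) +
        nuF2 (rr X a) (rr X b) t t' (kw' c kt a b) := by
    intro m m' t t' a b
    have e1 : X.ks a b = fun u u' => (∑ i, ∑ j, Sm i j * fi h i a u * fi h j b u') + kw' c kt a b u u' := by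
      funext u u'
      exact hs.eq a b u u'
    rw [e1, nuF2_add (hri a) (hri b) t t' (hF a b) (hs.bw a b),
      nuF2_fin (hri a) (hri b) t t' Sm (fun i => hfc i a) (fun i => hfb i a) (fun i => hfc i b) (fun i => hfb i b)]
  unfold NF
  rw [g, g, g, g]
  have e2 : Qs X h Sm ω = 1 / 2 * (((∑ i, ∑ j, Sm i j * nuF (rr X true) ω.1 (fi h i true) *
      nuF (rr X true) ω.1 (fi h j true)) + (∑ i, ∑ j, Sm i j * nuF (rr X true) ω.1 (fi h i true) *
      nuF (rr X false) ω.2 (fi h j false))) + ((∑ i, ∑ j, Sm i j * nuF (rr X false) ω.2 (fi h i false) *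
      nuF (rr X true) ω.1 (fi h j true)) + ∑ i, ∑ j, Sm i j * nuF (rr X false) ω.2 (fi h i false) *
      nuF (rr X false) ω.2 (fi h j false))) := by
    unfold Qs yi
    simp only [← Finset.sum_add_distrib]
    congr 1
    refine Finset.sum_congr rfl fun i _ => Finset.sum_congr rfl fun j _ => ?_
    ring
  rw [e2]
  ring

/-- the kernels of the form -/
def kh (k : Bool → Bool → ℝ → ℝ → ℝ) (a d : Bool) (t t' : ℝ) : ℝ := 1 / 2 * k a d t t'

theorem kh_KC {R Λ1 : ℝ} {k : Bool → Bool → ℝ → ℝ → ℝ}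
    (h : ∀ a d, KC R Λ1 (fun t t' => ((k a d t t' : ℝ) : ℂ))) (a d : Bool) :
    KC R (1 / 2 * Λ1) (fun t t' => ((kh k a d t t' : ℝ) : ℂ)) := by
  have h1 := (h a d).smul ((1 / 2 : ℝ) : ℂ)
  have e : ‖((1 / 2 : ℝ) : ℂ)‖ = 1 / 2 := by
    rw [Complex.norm_real, Real.norm_eq_abs, abs_of_pos (by norm_num)]
  rw [e] at h1
  refine h1.congr fun t t' _ _ => ?_
  unfold kh
  push_cast
  ring

/-- the forms with cut kernels, general; the error of the cut is `ε + d0 (γ t + γ t')` -/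
theorem NF_cutg {R : Bool → ℝ → ℝ} (hR : ∀ a, Integrable (R a)) {k : Bool → Bool → ℝ → ℝ → ℝ} {C : ℝ}
    (hk : ∀ a d, Bk C (k a d)) {k' : Bool → Bool → ℝ → ℝ → ℝ} (hk' : ∀ a d, Bk C (k' a d)) {b : ℝ → ℝ}
    (hb : Continuous b) (hb1 : ∀ t, |b t| ≤ 1) {ε d0 c m1 m2 : ℝ} (hε : 0 ≤ ε) (hd0 : 0 ≤ d0) {γ : ℝ → ℝ}
    (hγ : Continuous γ) (hγ0 : ∀ t, 0 ≤ γ t) (hγ1 : ∀ t, |γ t| ≤ c)
    (he : ∀ a d t t', |k a d t t' - b t * b t' * k' a d t t'| ≤ ε + d0 * (γ t + γ t'))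
    (h1 : (p : ℝ) + ∫ t, |R true t| ≤ m1) (h2 : (n : ℝ) + ∫ t, |R false t| ≤ m2)
    (ω : (Fin p → ℝ) × (Fin n → ℝ)) :
    1 / 2 * NF R k ω.1 ω.2 ≤ QFF b R (kh k') (spF p n) ω + ε / 2 * (m1 + m2) ^ 2 +
      d0 * (m1 + m2) * ((∑ i, γ (ω.1 i) + ∫ t, γ t * |R true t|) + (∑ j, γ (ω.2 j) + ∫ t, γ t * |R false t|)) := by
  have e : ∀ {m m' : ℕ} (t : Fin m → ℝ) (t' : Fin m' → ℝ) (a d : Bool),
      nuF2 (R a) (R d) t t' (fun u u' => b u * b u' * kh k' a d u u') =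
      1 / 2 * nuF2 (R a) (R d) t t' (fun u u' => b u * b u' * k' a d u u') := by
    intro m m' t t' a d
    rw [← nuF2_smul]
    congr 1
    funext u u'
    unfold kh
    ring
  have g : ∀ {m m' : ℕ} (t : Fin m → ℝ) (t' : Fin m' → ℝ) (a d : Bool),
      nuF2 (R a) (R d) t t' (k a d) ≤
        nuF2 (R a) (R d) t t' (fun u u' => b u * b u' * k' a d u u') +
        (ε * ((m' : ℝ) + ∫ t, |R d t|) * ((m : ℝ) + ∫ t, |R a t|) +
        d0 * (((m : ℝ) + ∫ t, |R a t|) * (∑ j, γ (t' j) + ∫ t, γ t * |R d t|) +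
          ((m' : ℝ) + ∫ t, |R d t|) * (∑ i, γ (t i) + ∫ t, γ t * |R a t|))) := by
    intro m m' t t' a d
    have e1 : k a d = fun u u' => b u * b u' * k' a d u u' + (k a d u u' - b u * b u' * k' a d u u') := by
      funext u u'
      ring
    have b1 : Bk C fun u u' => b u * b u' * k' a d u u' := (hk' a d).cut (R := 0) hb hb1
    have b2 := (hk a d).sub b1
    have h3 : nuF2 (R a) (R d) t t' (k a d) = nuF2 (R a) (R d) t t' (fun u u' => b u * b u' * k' a d u u') +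
        nuF2 (R a) (R d) t t' (fun u u' => k a d u u' - b u * b u' * k' a d u u') := by
      rw [← nuF2_add (hR a) (hR d) t t' b1 b2, ← e1]
    have h4 := nuF2_absg (hR a) (hR d) t t' hγ hγ1 (he a d)
    rw [h3]
    have g1 := (abs_le.1 h4).2
    simp only [Fintype.card_fin] at g1
    linarith
  have g1 := g ω.1 ω.1 true true
  have g2 := g ω.1 ω.2 true false
  have g3 := g ω.2 ω.1 false true
  have g4 := g ω.2 ω.2 false false
  have e1 : QFF b R (kh k') (spF p n) ω =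
      (1 / 2 * nuF2 (R true) (R true) ω.1 ω.1 (fun u u' => b u * b u' * k' true true u u') +
       1 / 2 * nuF2 (R true) (R false) ω.1 ω.2 (fun u u' => b u * b u' * k' true false u u')) +
      (1 / 2 * nuF2 (R false) (R true) ω.2 ω.1 (fun u u' => b u * b u' * k' false true u u') +
       1 / 2 * nuF2 (R false) (R false) ω.2 ω.2 (fun u u' => b u * b u' * k' false false u u')) := by
    unfold QFF
    rw [Fintype.sum_bool, Fintype.sum_bool, Fintype.sum_bool, ← e, ← e, ← e, ← e]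
    rfl
  rw [e1]
  unfold NF
  obtain ⟨x, hx⟩ : ∃ x : ℝ, x = (p : ℝ) + ∫ t, |R true t| := ⟨_, rfl⟩
  obtain ⟨y, hy⟩ : ∃ y : ℝ, y = (n : ℝ) + ∫ t, |R false t| := ⟨_, rfl⟩
  obtain ⟨u, hu⟩ : ∃ u : ℝ, u = ∑ i, γ (ω.1 i) + ∫ t, γ t * |R true t| := ⟨_, rfl⟩
  obtain ⟨v, hv⟩ : ∃ v : ℝ, v = ∑ j, γ (ω.2 j) + ∫ t, γ t * |R false t| := ⟨_, rfl⟩
  have hx0 : 0 ≤ x := by
    rw [hx]
    have : 0 ≤ ∫ t, |R true t| := integral_nonneg fun t => abs_nonneg _
    positivity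
  have hy0 : 0 ≤ y := by
    rw [hy]
    have : 0 ≤ ∫ t, |R false t| := integral_nonneg fun t => abs_nonneg _
    positivity
  have hu0 : 0 ≤ u := by
    rw [hu]
    exact add_nonneg (Finset.sum_nonneg fun i _ => hγ0 _) (integral_nonneg fun t => mul_nonneg (hγ0 t) (abs_nonneg _))
  have hv0 : 0 ≤ v := by
    rw [hv]
    exact add_nonneg (Finset.sum_nonneg fun i _ => hγ0 _) (integral_nonneg fun t => mul_nonneg (hγ0 t) (abs_nonneg _))
  rw [← hu, ← hv]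
  rw [← hx] at h1 g1 g2 g3
  rw [← hy] at h2 g2 g3 g4
  rw [← hu] at g1 g2 g3
  rw [← hv] at g2 g3 g4
  have h7 : x + y ≤ m1 + m2 := add_le_add h1 h2
  have h5 : (x + y) ^ 2 ≤ (m1 + m2) ^ 2 := by
    have : 0 ≤ x + y := by positivity
    gcongr
  have h6 : ε / 2 * (x + y) ^ 2 ≤ ε / 2 * (m1 + m2) ^ 2 := by gcongr
  have h8 : d0 * (x + y) * (u + v) ≤ d0 * (m1 + m2) * (u + v) := by
    have : 0 ≤ u + v := by positivity
    gcongr
  have e2 : ε / 2 * (x + y) ^ 2 + d0 * (x + y) * (u + v) =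
      1 / 2 * (ε * x * x + d0 * (x * u + x * u)) + 1 / 2 * (ε * y * x + d0 * (x * v + y * u)) +
      (1 / 2 * (ε * x * y + d0 * (y * u + x * v)) + 1 / 2 * (ε * y * y + d0 * (y * v + y * v))) := by ring
  linarith

/-- the forms with cut kernels, general -/
theorem NF_cut {R : Bool → ℝ → ℝ} (hR : ∀ a, Integrable (R a)) {k : Bool → Bool → ℝ → ℝ → ℝ} {C : ℝ}
    (hk : ∀ a d, Bk C (k a d)) {k' : Bool → Bool → ℝ → ℝ → ℝ} (hk' : ∀ a d, Bk C (k' a d)) {b : ℝ → ℝ}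
    (hb : Continuous b) (hb1 : ∀ t, |b t| ≤ 1) {ε m1 m2 : ℝ} (hε : 0 ≤ ε)
    (he : ∀ a d t t', |k a d t t' - b t * b t' * k' a d t t'| ≤ ε)
    (h1 : (p : ℝ) + ∫ t, |R true t| ≤ m1) (h2 : (n : ℝ) + ∫ t, |R false t| ≤ m2)
    (ω : (Fin p → ℝ) × (Fin n → ℝ)) :
    1 / 2 * NF R k ω.1 ω.2 ≤ QFF b R (kh k') (spF p n) ω + ε / 2 * (m1 + m2) ^ 2 := by
  have h := NF_cutg (p := p) (n := n) hR hk hk' hb hb1 hε (le_refl (0 : ℝ)) (γ := fun _ => 0) (c := 0)
    continuous_const (fun _ => le_rfl) (fun _ => by simp) (fun a d t t' => by simpa using he a d t t') h1 h2 ω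
  simpa using h

/-- the moving kernels: `β` pays for the particles outside the window -/
theorem NF_cutd (hG : Geo X tc Cκ) {bb : ℝ → ℝ} (hb : Continuous bb) (hb1 : ∀ t, |bb t| ≤ 1) {ε d0 β : ℝ}
    (hd0 : 0 ≤ d0)
    (he : ∀ a d t t', |X.kd a d t t' - bb t * bb t' * X.kd a d t t'| ≤ ε / 3 + d0 * ((1 - bb t) + (1 - bb t')))
    (hβ : d0 * ((p : ℝ) + n + ss X) ≤ β) (hP : d0 * ∫ t, (1 - bb t) * X.P t ≤ ε / 3)
    (ω : (Fin p → ℝ) × (Fin n → ℝ)) :
    1 / 2 * NF X.ρ X.kd ω.1 ω.2 ≤ QFF bb X.ρ (kh X.kd) (spF p n) ω + ε / 2 * ((p : ℝ) + n + ss X) ^ 2 +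
      β * ((∑ i, (1 - bb (ω.1 i))) + ∑ j, (1 - bb (ω.2 j))) := by
  have hγ0 : ∀ t, 0 ≤ 1 - bb t := fun t => by linarith [(abs_le.1 (hb1 t)).2]
  have hγ2 : ∀ t, |1 - bb t| ≤ 2 := fun t => by
    rw [abs_of_nonneg (hγ0 t)]
    linarith [(abs_le.1 (hb1 t)).1]
  have hJ : 0 ≤ ∫ t, (1 - bb t) * X.P t := integral_nonneg fun t => mul_nonneg (hγ0 t) (hG.P0 t)
  have hε : 0 ≤ ε / 3 := (mul_nonneg hd0 hJ).trans hP
  have hi : ∀ a, ∫ t, |X.ρ a t| = X.s a := fun a => by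
    rw [← hG.int_rho a]
    refine integral_congr_ae (ae_of_all _ fun t => ?_)
    exact abs_of_nonneg ((hG.dens a).nonneg t)
  have hj : ∀ a, ∫ t, (1 - bb t) * |X.ρ a t| = X.s a * ∫ t, (1 - bb t) * X.P t := fun a => by
    rw [← integral_const_mul]
    refine integral_congr_ae (ae_of_all _ fun t => ?_)
    beta_reduce
    rw [abs_of_nonneg ((hG.dens a).nonneg t)]
    unfold Dat.ρ
    ring
  have h1 := NF_cutg (p := p) (n := n) (γ := fun t => 1 - bb t) hG.ρi hG.bd hG.bd hb hb1 hε hd0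
    (continuous_const.sub hb) hγ0 hγ2 he (by rw [hi]) (by rw [hi]) ω
  rw [hj, hj] at h1
  obtain ⟨J, hJe⟩ : ∃ J, J = ∫ t, (1 - bb t) * X.P t := ⟨_, rfl⟩
  obtain ⟨G1, hG1⟩ : ∃ G1, G1 = ∑ i, (1 - bb (ω.1 i)) := ⟨_, rfl⟩
  obtain ⟨G2, hG2⟩ : ∃ G2, G2 = ∑ j, (1 - bb (ω.2 j)) := ⟨_, rfl⟩
  have hG10 : 0 ≤ G1 := by
    rw [hG1]
    exact Finset.sum_nonneg fun i _ => hγ0 _
  have hG20 : 0 ≤ G2 := by
    rw [hG2]
    exact Finset.sum_nonneg fun i _ => hγ0 _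
  rw [← hJe] at h1 hJ hP
  rw [← hG1, ← hG2] at h1 ⊢
  have s1 := hG.s0 true
  have s2 := hG.s0 false
  have p0 : (0 : ℝ) ≤ p := Nat.cast_nonneg p
  have n0 : (0 : ℝ) ≤ n := Nat.cast_nonneg n
  have hW : (p : ℝ) + X.s true + (n + X.s false) = (p : ℝ) + n + ss X := by
    unfold ss
    ring
  rw [hW] at h1
  obtain ⟨W, hWe⟩ : ∃ W : ℝ, W = (p : ℝ) + n + ss X := ⟨_, rfl⟩
  have hsW : ss X ≤ W := by
    rw [hWe]
    linarith
  have hss : 0 ≤ ss X := by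
    unfold ss
    linarith
  rw [← hWe] at h1 hβ ⊢
  have hW0 : 0 ≤ W := hss.trans hsW
  have k1 : d0 * W * (G1 + G2) ≤ β * (G1 + G2) := mul_le_mul_of_nonneg_right hβ (by positivity)
  have k2 : d0 * W * (ss X * J) ≤ ε / 3 * W ^ 2 := by
    calc d0 * W * (ss X * J) = (d0 * J) * (ss X * W) := by ring
      _ ≤ ε / 3 * (W * W) := by gcongr
      _ = _ := by ring
  have e3 : d0 * W * (G1 + X.s true * J + (G2 + X.s false * J)) =
      d0 * W * (G1 + G2) + d0 * W * (ss X * J) := by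
    unfold ss
    ring
  rw [e3] at h1
  have e4 : ε / 3 / 2 * W ^ 2 + ε / 3 * W ^ 2 = ε / 2 * W ^ 2 := by ring
  linarith

/-- the rest of the static kernels -/
theorem NF_cutr (hG : Geo X tc Cκ) (hR : Reg X) (hs : StK X.ks N h Sm θ M Λ c kt) (hc : 0 ≤ c) {R : ℝ}
    {b b' cs : ℝ → ℝ} (hb : CutR R c b b' cs) {m1 m2 : ℝ}
    (h1 : (p : ℝ) + ∫ t, |rr X true t| ≤ m1) (h2 : (n : ℝ) + ∫ t, |rr X false t| ≤ m2)
    (ω : (Fin p → ℝ) × (Fin n → ℝ)) :
    1 / 2 * NF (rr X) (kw' c kt) ω.1 ω.2 ≤ QFF b (rr X) (kh kt) (spF p n) ω +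
      (Λ * (2 * Real.exp (-c * R))) / 2 * (m1 + m2) ^ 2 := by
  have hΛ : 0 ≤ Λ := (hs.bk true true).C0
  refine NF_cut (rr_int hG hR) hs.bw hs.bk hb.cont (fun t => (hb.le t).trans (wc_le_one c t)) (by positivity)
    (fun a d t t' => ?_) h1 h2 ω
  have e : kw' c kt a d t t' - b t * b t' * kt a d t t' =
      (1 - cs t * cs t') * (wc c t * wc c t') * kt a d t t' := by
    unfold kw'
    rw [hb.eq, hb.eq]
    ring
  have hk := (hs.bk a d).le t t'
  have w1 := wc_pos c t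
  have w2 := wc_pos c t'
  have l1 := wc_le_one c t
  have l2 := wc_le_one c t'
  have hww : 0 ≤ wc c t * wc c t' := by positivity
  have s1 := hb.s0 t
  have s2 := hb.s0 t'
  have s3 := hb.s1 t
  have s4 := hb.s1 t'
  have s5 : cs t * cs t' ≤ 1 := by nlinarith
  have s6 : 0 ≤ cs t * cs t' := mul_nonneg s1 s2
  rw [e, abs_mul, abs_mul, abs_of_nonneg hww, abs_of_nonneg (by linarith : 0 ≤ 1 - cs t * cs t')]
  have key : (1 - cs t * cs t') * (wc c t * wc c t') ≤ 2 * Real.exp (-c * R) := by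
    by_cases ht : |t| ≤ R
    · by_cases ht' : |t'| ≤ R
      · rw [hb.one t ht, hb.one t' ht']
        have := Real.exp_pos (-c * R)
        simp only [mul_one, sub_self, zero_mul]
        positivity
      · have h3 := wc_ex2 hc t'
        have h4 : Real.exp (-c * |t'|) ≤ Real.exp (-c * R) := by
          refine Real.exp_le_exp.2 ?_
          have := mul_le_mul_of_nonneg_left (not_le.1 ht').le hc
          linarith
        calc (1 - cs t * cs t') * (wc c t * wc c t') ≤ 1 * (1 * wc c t') := by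
              gcongr
              linarith
          _ ≤ _ := by linarith
    · have h3 := wc_ex2 hc t
      have h4 : Real.exp (-c * |t|) ≤ Real.exp (-c * R) := by
        refine Real.exp_le_exp.2 ?_
        have := mul_le_mul_of_nonneg_left (not_le.1 ht).le hc
        linarith
      calc (1 - cs t * cs t') * (wc c t * wc c t') ≤ 1 * (wc c t * 1) := by
            gcongr
            linarith
        _ ≤ _ := by linarith
  calc (1 - cs t * cs t') * (wc c t * wc c t') * |kt a d t t'| ≤ 2 * Real.exp (-c * R) * Λ := by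
        have := Real.exp_pos (-c * R)
        gcongr
    _ = _ := by ring

end

end PLT.Gs
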