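import Pool.Agent.PLT.GRest

/-!
# THETA B1a: the window bound, integrals

`sh_pt`: pointwise on the window by `WW exp (Qd + Qr)`; `sh_int`, `sh_int_sq`: the integrals (Cauchy-Schwarz for the
two forms).
-/

set_option autoImplicit false

open MeasureTheory Set Filter Topology
open scoped Real ENNReal

namespace PLT.Gs

open NUH0
open NUMF NUWC NUC37 NUKer NUDi NUMFC NUR2
open NU42 (Bk)

noncomputable section

variable {N : ℕ} {h : Fin N → Bool → ℝ → ℝ} {Sm : Fin N → Fin N → ℝ} {θ M M' Λ c : ℝ}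
  {kt : Bool → Bool → ℝ → ℝ → ℝ} {X : Dat} {tc Cκ : ℝ} {p n : ℕ}

/-- the error of the cuts -/
def er (X : Dat) (p n : ℕ) (ε Λ c R : ℝ) (m1 : ℝ) : ℝ :=
  ε / 2 * ((p : ℝ) + n + ss X) ^ 2 + (Λ * (2 * Real.exp (-c * R))) / 2 * m1 ^ 2

/-- the exponent of the two forms -/
def Qdr (X : Dat) (bb b : ℝ → ℝ) (kt : Bool → Bool → ℝ → ℝ → ℝ) (ω : (Fin p → ℝ) × (Fin n → ℝ)) : ℝ :=
  QFF bb X.ρ (kh X.kd) (spF p n) ω + QFF b (rr X) (kh kt) (spF p n) ω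

/-- **pointwise on the window** -/
theorem sh_pt (hG : Geo X tc Cκ) (hF : Fld X p n) (hR : Reg X) (hs : StK X.ks N h Sm θ M Λ c kt) (hc : 0 ≤ c)
    {ch : ℝ → ℝ} {K hg0 : ℝ} (hg : Grid ch K hg0) (La : Finset ℤ) (a0 : ℝ) {bb : ℝ → ℝ} (hb : Continuous bb)
    (hb1 : ∀ t, |bb t| ≤ 1) {ε d0 β : ℝ} (hd0 : 0 ≤ d0)
    (he : ∀ a d t t', |X.kd a d t t' - bb t * bb t' * X.kd a d t t'| ≤ ε / 3 + d0 * ((1 - bb t) + (1 - bb t')))
    (hβ : d0 * ((p : ℝ) + n + ss X) ≤ β) (hP : d0 * ∫ t, (1 - bb t) * X.P t ≤ ε / 3)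
    {R : ℝ} {b b' cs : ℝ → ℝ} (hbr : CutR R c b b' cs) {m1 m2 : ℝ}
    (h1 : (p : ℝ) + ∫ t, |rr X true t| ≤ m1) (h2 : (n : ℝ) + ∫ t, |rr X false t| ≤ m2) {T : ℝ}
    {aX aY : ℝ → ℝ} (haX : ∀ t, 0 ≤ aX t) (haY : ∀ t, 0 ≤ aY t)
    (hX : ∀ t, |t| ≤ T → aX t ≤ Real.exp (X.pot true t - β * (1 - bb t)))
    (hY : ∀ t, |t| ≤ T → aY t ≤ Real.exp (X.pot false t - β * (1 - bb t))) (ω : (Fin p → ℝ) × (Fin n → ℝ)) :
    (NU42.Bw p n T).indicator (fun ω => ENNReal.ofReal (Wt0 X p n ch hg0 La a0 aX aY ω)) ω ≤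
      ENNReal.ofReal (Real.exp (C0 X p n + er X p n ε Λ c R (m1 + m2))) *
      (WW X h Sm T p n ω * ENNReal.ofReal (Real.exp (Qdr X bb b kt ω))) := by
  by_cases hω : ω ∈ NU42.Bw p n T
  · rw [indicator_of_mem hω]
    obtain ⟨w1, w2⟩ := NU42.mem_Bw.1 hω
    have g1 := point hG hF hR hg.cont hg.even hg.pos hg.nyq hg.supp hg.le La a0 ω.1 ω.2
    have g2 := NF_cutd (n := n) hG hb hb1 hd0 he hβ hP ω
    have g3 := NF_cutr hG hR hs hc hbr h1 h2 ω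
    have g4 := rest hG hR hs ω
    have g5 := WO_mono (DX := X.D true) (DX1 := X.D1 true) (DY := X.D false) (DY1 := X.D1 false)
      haX haY ω.1 ω.2 (b := fun t => Real.exp (X.pot true t) * Real.exp (-(β * (1 - bb t))))
      (b' := fun t => Real.exp (X.pot false t) * Real.exp (-(β * (1 - bb t))))
      (fun i => (hX _ (w1 i)).trans (le_of_eq (by rw [← Real.exp_add]; rfl)))
      (fun i => (hY _ (w2 i)).trans (le_of_eq (by rw [← Real.exp_add]; rfl)))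
    rw [NU42.WO_mul, ← Real.exp_sum, ← Real.exp_sum, ← Real.exp_add] at g5
    obtain ⟨J, hJ⟩ : ∃ J : ℝ, J = ((∑ i, (1 - bb (ω.1 i))) + ∑ j, (1 - bb (ω.2 j))) := ⟨_, rfl⟩
    have eJ : (∑ i, -(β * (1 - bb (ω.1 i)))) + ∑ j, -(β * (1 - bb (ω.2 j))) = -(β * J) := by
      rw [hJ, Finset.sum_neg_distrib, Finset.sum_neg_distrib, ← Finset.mul_sum, ← Finset.mul_sum]
      ring
    rw [eJ] at g5
    rw [← hJ] at g2
    have e : ∀ (a : Bool) (m : ℕ) (t : Fin m → ℝ), (∀ i, |t i| ≤ T) →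
        ENNReal.ofReal (W1 X a t) = WT T m (rm X a) (X.φ a) t := by
      intro a m t ht
      have hm : t ∈ univ.pi fun _ : Fin m => Icc (-T) T := fun i _ => abs_le.1 (ht i)
      unfold WT W1
      rw [indicator_of_mem hm]
      simp only [Xp_eq hG hR]
      rfl
    have p1 : 0 ≤ W1 X true ω.1 := mul_nonneg (NU42.pom_nonneg _)
      (Finset.prod_nonneg fun i _ => (Real.exp_pos _).le)
    have p2 : 0 ≤ W1 X false ω.2 := mul_nonneg (NU42.pom_nonneg _)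
      (Finset.prod_nonneg fun i _ => (Real.exp_pos _).le)
    unfold WW
    rw [← e true p ω.1 w1, ← e false n ω.2 w2, ← ENNReal.ofReal_mul p1, ← ENNReal.ofReal_mul (by positivity),
      ← ENNReal.ofReal_mul (by positivity), ← ENNReal.ofReal_mul (Real.exp_pos _).le]
    refine ENNReal.ofReal_le_ofReal ?_
    unfold Wt0
    have g6 : NU42.WO (X.D true) (X.D1 true) (X.D false) (X.D1 false) aX aY ω.1 ω.2 *
        Real.exp (1 / 2 * ∑ l ∈ La, NU42.Fst ch hg0 a0 (tf X) l ω.1 ω.2 ^ 2) ≤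
        Real.exp (C0 X p n) * (W1 X true ω.1 * W1 X false ω.2) * Real.exp (1 / 2 * NFs X ω.1 ω.2) *
          Real.exp (-(β * J)) := by
      refine (mul_le_mul_of_nonneg_right g5 (Real.exp_pos _).le).trans ?_
      calc _ = NU42.WO (X.D true) (X.D1 true) (X.D false) (X.D1 false) (fun t => Real.exp (X.pot true t))
              (fun t => Real.exp (X.pot false t)) ω.1 ω.2 *
            Real.exp (1 / 2 * ∑ l ∈ La, NU42.Fst ch hg0 a0 (tf X) l ω.1 ω.2 ^ 2) * Real.exp (-(β * J)) := by ring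
        _ ≤ _ := mul_le_mul_of_nonneg_right g1 (Real.exp_pos _).le
    refine g6.trans ?_
    have g7 : 1 / 2 * NFs X ω.1 ω.2 + -(β * J) ≤
        Qs X h Sm ω + Qdr X bb b kt ω + er X p n ε Λ c R (m1 + m2) := by
      unfold NFs Qdr er
      linarith
    have g8 := Real.exp_le_exp.2 g7
    rw [Real.exp_add, Real.exp_add, Real.exp_add] at g8
    calc Real.exp (C0 X p n) * (W1 X true ω.1 * W1 X false ω.2) * Real.exp (1 / 2 * NFs X ω.1 ω.2) *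
          Real.exp (-(β * J)) =
        Real.exp (C0 X p n) * (W1 X true ω.1 * W1 X false ω.2) *
          (Real.exp (1 / 2 * NFs X ω.1 ω.2) * Real.exp (-(β * J))) := by ring
      _ ≤ Real.exp (C0 X p n) * (W1 X true ω.1 * W1 X false ω.2) *
          (Real.exp (Qs X h Sm ω) * Real.exp (Qdr X bb b kt ω) *
          Real.exp (er X p n ε Λ c R (m1 + m2))) := by gcongr
      _ = _ := by
        rw [Real.exp_add (C0 X p n)]
        ring
  · rw [indicator_of_notMem hω]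
    exact bot_le

variable {T T0 δ η e K Cf R Rs ε Λ1 c' m2 m3 δ2 m1 m1' : ℝ} {bb bb' b b' cs : ℝ → ℝ}

/-- the constant of the window -/
def Bwin (X : Dat) (T0 δ T η Cf : ℝ) (p n : ℕ) (E : ℝ) : ℝ≥0∞ :=
  BW X T0 δ T η Cf p n * ENNReal.ofReal (√2 * Real.exp E)

/-- the exponent of the forms -/
def Eab (η c c' R Λ ϑ m2 δ2 m3 : ℝ) : ℝ :=
  4 * (2 * c') * (2 * (2 + 1 / η) * (11 * R)) * (m2 + δ2) ^ 2 +
    4 * (4 * Λ + ϑ) * (2 * (2 + 1 / η) * Qr c) * (m3 + 2) ^ 2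

variable {ϑ : ℝ}

/-- the two forms, with one more square -/
theorem forms (hG : Geo X tc Cκ) (hR : RegT X T0 δ) (hT0 : 0 < T) (hT : T0 ≤ T) (hη : 0 < η)
    (hfr : Fr h Sm M' θ η T e K Cf) (hb : Cut1 R bb bb') (hc : 0 < c) {N0 : ℝ} (hbf : Cutf (Rs + N0) b)
    (hbr : CutR Rs c b b' cs)
    (hKC : ∀ a d, KC R Λ1 (fun t t' => ((X.kd a d t t' : ℝ) : ℂ)))
    (hkt : ∀ a d, KC (Rs + N0) Λ (fun t t' => ((kt a d t t' : ℝ) : ℂ)))
    (hc0 : 0 < c') (hc1 : 4 * Λ1 ≤ c') (hq : 8 * (2 * c') * (2 * (2 + 1 / η) * (11 * R)) ≤ 1)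
    (hΛ : 0 ≤ Λ) (hϑ : 0 < ϑ) (hq2 : 8 * (4 * Λ + ϑ) * (2 * (2 + 1 / η) * Qr c) ≤ 1)
    (hm2 : ∀ a, ∫ t in {t | |t| ≤ R}, |X.μ a t| ≤ m2) (hδ2 : ∀ a, ∫ t in {t | T ≤ |t|}, |X.ρ a t| ≤ δ2)
    (hm3 : ∀ a, ∫ t, wc c t * |X.μ a t - X.r a t| ≤ m3) :
    (∫⁻ ω, WW X h Sm T p n ω * ENNReal.ofReal (Real.exp (Qdr X bb b kt ω)) ≤
      Bwin X T0 δ T η Cf p n (Eab η c c' R Λ ϑ m2 δ2 m3)) ∧
    ∀ (k : Bool) (al : ℝ),
      (∫⁻ ω, WW X h Sm T p n ω * ENNReal.ofReal (Real.exp (Qdr X bb b kt ω + c' / (1 + |al|) *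
        (nuF (X.ρ k) (spF p n k ω) fun t => bb t * Real.cos (al * t)) ^ 2)) ≤
      Bwin X T0 δ T η Cf p n (Eab η c c' R Λ ϑ m2 δ2 m3)) ∧
      ∫⁻ ω, WW X h Sm T p n ω * ENNReal.ofReal (Real.exp (Qdr X bb b kt ω + c' / (1 + |al|) *
        (nuF (X.ρ k) (spF p n k ω) fun t => bb t * Real.sin (al * t)) ^ 2)) ≤
      Bwin X T0 δ T η Cf p n (Eab η c c' R Λ ϑ m2 δ2 m3) := by
  have hη' : 0 < 1 / η := by positivity
  have hR1 := hb.one
  have hQr := Qr_pos hc.le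
  have mW := WW_meas (p := p) (n := n) hG hR.toReg hfr
  have xD := fun k => expF_d (p := p) (n := n) hG hR hT0 hT hη hfr hb hm2 hδ2 k
  have xR := fun k => expF_r (p := p) (n := n) hG hR hT0 hT hη hfr hc hbr hm3 k
  have cρ : ∀ k, Continuous (X.ρ k) := hG.ρc
  have cr : ∀ k, Continuous (rr X k) := rr_cont hG hR.toReg
  have hq0 : 0 ≤ 2 * (2 + 1 / η) * (11 * R) := by positivity
  have hq1 : 0 ≤ 2 * (2 + 1 / η) * Qr c := by positivity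
  obtain ⟨q0, hq0e⟩ : ∃ q0, q0 = 2 * (2 + 1 / η) * (11 * R) := ⟨_, rfl⟩
  obtain ⟨q1, hq1e⟩ : ∃ q1, q1 = 2 * (2 + 1 / η) * Qr c := ⟨_, rfl⟩
  unfold Bwin Eab
  rw [← hq0e] at hq0 hq xD ⊢
  rw [← hq1e] at hq1 hq2 xR ⊢
  obtain ⟨EA, hEA⟩ : ∃ EA, EA = 4 * (2 * c') * q0 * (m2 + δ2) ^ 2 := ⟨_, rfl⟩
  obtain ⟨EB, hEB⟩ : ∃ EB, EB = 4 * (4 * Λ + ϑ) * q1 * (m3 + 2) ^ 2 := ⟨_, rfl⟩
  have hEA0 : 0 ≤ EA := by rw [hEA]; positivity
  have hEB0 : 0 ≤ EB := by rw [hEB]; positivity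
  rw [← hEA, ← hEB]
  have up1 : ∀ {I : ℝ≥0∞}, I ≤ BW X T0 δ T η Cf p n * ENNReal.ofReal (√2 * Real.exp EA) →
      I ≤ BW X T0 δ T η Cf p n * ENNReal.ofReal (√2 * Real.exp (EA + EB)) := fun hI =>
    hI.trans (mul_le_mul_right (ENNReal.ofReal_le_ofReal (mul_le_mul_of_nonneg_left
      (Real.exp_le_exp.2 (by linarith)) (Real.sqrt_nonneg 2))) _)
  have up2 : ∀ {I : ℝ≥0∞}, I ≤ BW X T0 δ T η Cf p n * ENNReal.ofReal (√2 * Real.exp EB) →
      I ≤ BW X T0 δ T η Cf p n * ENNReal.ofReal (√2 * Real.exp (EA + EB)) := fun hI =>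
    hI.trans (mul_le_mul_right (ENNReal.ofReal_le_ofReal (mul_le_mul_of_nonneg_left
      (Real.exp_le_exp.2 (by linarith)) (Real.sqrt_nonneg 2))) _)
  -- the rest, doubled
  have kR2 : ∀ a d, KC (Rs + N0) Λ (fun t t' => ((2 * kh kt a d t t' : ℝ) : ℂ)) := fun a d =>
    (hkt a d).congr fun t t' _ _ => by
      unfold kh
      push_cast
      ring
  have mR : Measurable (QFF (Ω := (Fin p → ℝ) × (Fin n → ℝ)) b (rr X) (kh kt) (spF p n)) :=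
    measurable_QFF hbf measurable_spF cr (kh_KC hkt)
  have mD : Measurable (QFF (Ω := (Fin p → ℝ) × (Fin n → ℝ)) bb X.ρ (kh X.kd) (spF p n)) :=
    measurable_QFF hb.cutf measurable_spF cρ (kh_KC hKC)
  have hRr := crudeF (μ := (volume : Measure ((Fin p → ℝ) × (Fin n → ℝ)))) (s := spF p n)
    (κ := fun a d t t' => 2 * kh kt a d t t') (Λ := fun _ _ => Λ) (Λ0 := 4 * Λ + ϑ) hbf mW measurable_spF cr
    kR2 (by positivity) (by simp only [Fintype.sum_bool]; linarith) hq1 (sq_nonneg (m3 + 2)) hq2 xR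
  rw [← hEB] at hRr
  have hRr2 : ∫⁻ ω, WW X h Sm T p n ω * ENNReal.ofReal (Real.exp (2 * QFF b (rr X) (kh kt) (spF p n) ω)) ≤
      BW X T0 δ T η Cf p n * ENNReal.ofReal (√2 * Real.exp (EA + EB)) := by
    refine up2 (le_trans (le_of_eq ?_) hRr)
    exact lintegral_congr fun ω => by rw [QFF_smul]
  -- the moving kernels, doubled, with one more square
  have kD2 : ∀ a d, KC R Λ1 (fun t t' => ((2 * kh X.kd a d t t' : ℝ) : ℂ)) := fun a d =>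
    (hKC a d).congr fun t t' _ _ => by
      unfold kh
      push_cast
      ring
  have hD0 := crudeF_sq (μ := (volume : Measure ((Fin p → ℝ) × (Fin n → ℝ)))) (s := spF p n)
    (κ := fun a d t t' => 2 * kh X.kd a d t t') (Λ := fun _ _ => Λ1) (Λ0 := c') hb.cutf mW measurable_spF cρ
    kD2 hc0 (by simp only [Fintype.sum_bool]; linarith) hq0 (sq_nonneg (m2 + δ2)) (c := 2 * c') le_rfl hq xD
  rw [← hEA] at hD0
  have comb : ∀ Nn : (Fin p → ℝ) × (Fin n → ℝ) → ℝ, Measurable Nn →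
      ∫⁻ ω, WW X h Sm T p n ω * ENNReal.ofReal (Real.exp (2 * (QFF bb X.ρ (kh X.kd) (spF p n) ω + Nn ω))) ≤
        BW X T0 δ T η Cf p n * ENNReal.ofReal (√2 * Real.exp (EA + EB)) →
      ∫⁻ ω, WW X h Sm T p n ω * ENNReal.ofReal (Real.exp (Qdr X bb b kt ω + Nn ω)) ≤
        BW X T0 δ T η Cf p n * ENNReal.ofReal (√2 * Real.exp (EA + EB)) := by
    intro Nn hNn h1
    refine le_trans (le_of_eq ?_) (two_exp mW (mD.add hNn) mR h1 hRr2)
    refine lintegral_congr fun ω => ?_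
    unfold Qdr
    congr 3
    simp only [Pi.add_apply]
    ring
  have hsq : ∀ (k : Bool) (al : ℝ) (f : ℝ → ℝ), Continuous f →
      ∫⁻ ω, WW X h Sm T p n ω * ENNReal.ofReal (Real.exp (QFF bb X.ρ (fun a d t t' => 2 * kh X.kd a d t t')
        (spF p n) ω + 2 * c' / (1 + |al|) * (nuF (X.ρ k) (spF p n k ω) f) ^ 2)) ≤
        BW X T0 δ T η Cf p n * ENNReal.ofReal (√2 * Real.exp EA) →
      ∫⁻ ω, WW X h Sm T p n ω * ENNReal.ofReal (Real.exp (Qdr X bb b kt ω + c' / (1 + |al|) *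
        (nuF (X.ρ k) (spF p n k ω) f) ^ 2)) ≤
        BW X T0 δ T η Cf p n * ENNReal.ofReal (√2 * Real.exp (EA + EB)) := by
    intro k al f hf h1
    refine comb _ (((measurable_nuF (measurable_spF k) hf).pow_const 2).const_mul _)
      (le_trans (le_of_eq ?_) (up1 h1))
    refine lintegral_congr fun ω => ?_
    rw [QFF_smul]
    congr 3
    ring
  refine ⟨?_, fun k al => ⟨hsq k al _ (hb.cutf.cont.mul (by fun_prop)) (hD0 k al).1,
    hsq k al _ (hb.cutf.cont.mul (by fun_prop)) (hD0 k al).2⟩⟩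
  -- without the square
  have h0 := comb (fun _ => 0) measurable_const (by
    refine le_trans (lintegral_mono fun ω => ?_) (up1 (hD0 true 0).1)
    refine mul_le_mul_right (ENNReal.ofReal_le_ofReal (Real.exp_le_exp.2 ?_)) _
    rw [QFF_smul]
    have : 0 ≤ 2 * c' / (1 + |(0 : ℝ)|) * (nuF (X.ρ true) (spF p n true ω)
      fun t => bb t * Real.cos (0 * t)) ^ 2 := by positivity
    linarith)
  simpa only [add_zero] using h0

/-- **the window bound, both parts** -/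
theorem sh_int (hG : Geo X tc Cκ) (hF : Fld X p n) (hR : RegT X T0 δ) (hs : StK X.ks N h Sm θ M Λ c kt)
    {ch : ℝ → ℝ} {K0 hg0 a0 : ℝ} (hg : Grid ch K0 hg0) (La : Finset ℤ)
    (hb : Cut1 R bb bb') {d0 β : ℝ} (hd0 : 0 ≤ d0)
    (he : ∀ a d t t', |X.kd a d t t' - bb t * bb t' * X.kd a d t t'| ≤ ε / 3 + d0 * ((1 - bb t) + (1 - bb t')))
    (hβ : d0 * ((p : ℝ) + n + ss X) ≤ β) (hP : d0 * ∫ t, (1 - bb t) * X.P t ≤ ε / 3)
    (hT0 : 0 < T) (hT : T0 ≤ T) (hη : 0 < η)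
    (hfr : Fr h Sm M' θ η T e K Cf) (hc : 0 < c) {N0 : ℝ} (hbf : Cutf (Rs + N0) b)
    (hbr : CutR Rs c b b' cs)
    (hKC : ∀ a d, KC R Λ1 (fun t t' => ((X.kd a d t t' : ℝ) : ℂ)))
    (hc0 : 0 < c') (hc1 : 4 * Λ1 ≤ c') (hq : 8 * (2 * c') * (2 * (2 + 1 / η) * (11 * R)) ≤ 1)
    (hϑ : 0 < ϑ) (hq2 : 8 * (4 * Λ + ϑ) * (2 * (2 + 1 / η) * Qr c) ≤ 1)
    (hm2 : ∀ a, ∫ t in {t | |t| ≤ R}, |X.μ a t| ≤ m2) (hδ2 : ∀ a, ∫ t in {t | T ≤ |t|}, |X.ρ a t| ≤ δ2)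
    (hm3 : ∀ a, ∫ t, wc c t * |X.μ a t - X.r a t| ≤ m3)
    (h1 : (p : ℝ) + ∫ t, |rr X true t| ≤ m1) (h2 : (n : ℝ) + ∫ t, |rr X false t| ≤ m1')
    {aX aY : ℝ → ℝ} (haX : ∀ t, 0 ≤ aX t) (haY : ∀ t, 0 ≤ aY t)
    (hX : ∀ t, |t| ≤ T → aX t ≤ Real.exp (X.pot true t - β * (1 - bb t)))
    (hY : ∀ t, |t| ≤ T → aY t ≤ Real.exp (X.pot false t - β * (1 - bb t))) {A : ℝ}
    (hA : ENNReal.ofReal (Real.exp (C0 X p n + er X p n ε Λ c Rs (m1 + m1'))) *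
      Bwin X T0 δ T η Cf p n (Eab η c c' R Λ ϑ m2 δ2 m3) ≤ ENNReal.ofReal A) :
    (∫⁻ ω in NU42.Bw p n T, ENNReal.ofReal (Wt0 X p n ch hg0 La a0 aX aY ω) ≤ ENNReal.ofReal A) ∧
    SqC2 (Wt0 X p n ch hg0 La a0 aX aY) T bb (X.ρ true) (X.ρ false) A c' := by
  obtain ⟨f1, f2⟩ := forms (p := p) (n := n) hG hR hT0 hT hη hfr hb hc hbf hbr hKC (hs.kc (Rs + N0)) hc0 hc1 hq
    (hs.bk true true).C0 hϑ hq2 hm2 hδ2 hm3
  have hpt := fun ω => sh_pt (T := T) (aX := aX) (aY := aY) hG hF hR.toReg hs hc.le hg La a0 hb.cutf.cont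
    hb.cutf.le hd0 he hβ hP hbr h1 h2 haX haY hX hY ω
  have go : ∀ Nn : (Fin p → ℝ) × (Fin n → ℝ) → ℝ,
      ∫⁻ ω, WW X h Sm T p n ω * ENNReal.ofReal (Real.exp (Qdr X bb b kt ω + Nn ω)) ≤
        Bwin X T0 δ T η Cf p n (Eab η c c' R Λ ϑ m2 δ2 m3) →
      ∫⁻ ω in NU42.Bw p n T, ENNReal.ofReal (Wt0 X p n ch hg0 La a0 aX aY ω * Real.exp (Nn ω)) ≤
        ENNReal.ofReal A := by
    intro Nn hD
    rw [← lintegral_indicator (NU42.Bw_meas T)]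
    refine le_trans (lintegral_mono fun ω => ?_) (le_trans (le_of_eq
      (lintegral_const_mul' _ _ ENNReal.ofReal_ne_top)) ((mul_le_mul_right hD _).trans hA))
    have h2 := hpt ω
    have e : ENNReal.ofReal (Real.exp (Qdr X bb b kt ω + Nn ω)) =
        ENNReal.ofReal (Real.exp (Qdr X bb b kt ω)) * ENNReal.ofReal (Real.exp (Nn ω)) := by
      rw [Real.exp_add, ENNReal.ofReal_mul (Real.exp_pos _).le]
    rw [e, ← mul_assoc (WW X h Sm T p n ω), ← mul_assoc]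
    by_cases hω : ω ∈ NU42.Bw p n T
    · rw [indicator_of_mem hω] at h2 ⊢
      rw [ENNReal.ofReal_mul' (Real.exp_pos _).le]
      exact mul_le_mul_left h2 _
    · rw [indicator_of_notMem hω]
      exact bot_le
  refine ⟨?_, ⟨fun a => go _ (f2 true a).1, fun a => go _ (f2 true a).2, fun a => go _ (f2 false a).1,
    fun a => go _ (f2 false a).2⟩⟩
  have h0 := go (fun _ => 0) (by simpa only [add_zero] using f1)
  simpa only [Real.exp_zero, mul_one] using h0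

end

end PLT.Gs
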