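import Pool.Agent.PLT.GX

/-!
# The geometries of contents are admissible

* `HP_aend`: the atoms of the ends on a path; **`exists_endX`**: mean field value and ends on the curve of
  TARGET-C are at most `EMX e m + C`, uniformly in the sea and in the ends;
* `SeaG`: the data of a family of contents; `SeaG.hx`, `SeaG.hR`, `SeaG.hEM`: the hypotheses of `gOkF_at`;
  **`gOkF_X`**: `GOkF` for the family of the geometries `GX` from the cutoff (`CutBC`);
* **`curGU_X`**: the curves are in the strip.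
-/

set_option autoImplicit false
set_option linter.unusedSectionVars false
set_option linter.unusedVariables false

noncomputable section

open Complex MeasureTheory Finset Filter Topology
open PLX (Fil Ends)

namespace PLT

open PHK hiding mfo6
open PBO.PLX (thZ)
open NUMF (l l_pos)
open NUGC.PLX (OB ThN pE qE)
open NUO (Xo TW Tb)
open NUP1.Leg (thE)
open NUSea.PLX.H0 (Gd)
open PBH.PLX (Atm)
open PotH.PLX (sN)
open PLT.Le (SeaV CntV)

section paths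

variable [SeaC] [Fil] [Ends]

/-- the ends at a point: legs and `ThN` -/
theorem HA_aend {δ : ℝ} (h0 : 0 < δ) (h01 : δ ≤ 4 * l) {e z : ℂ}
    (w : PBH.Dm δ e.re (e.re - 3 * l) (z - e.im)) (hz : |z.im| ≤ l / 4) (a : Bool) :
    HA (aend e) a z = 2 * (Real.log (thZ e (l + I * z)) - 1 / 2 * Real.log (ThN (l + I * z))) := by
  obtain ⟨p1, e1⟩ := log_leg h0 h01 w
  obtain ⟨p2, e2⟩ := log_end hz
  rw [e1, e2]
  unfold HA aend
  simp only [Fin.sum_univ_succ, Matrix.cons_val_zero, Matrix.cons_val_succ, Fin.sum_univ_zero,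
    Matrix.cons_val_fin_one]
  push_cast
  ring

end paths

private theorem wnd (B : SeaCB) {e z : ℂ} (h1 : -(9 / 10 * l) ≤ e.re) (h2 : e.re ≤ l / 2)
    (g1 : -B.h ≤ z.im) (g2 : z.im ≤ 7 / 100 * l) :
    PBH.Dm (l / 20) e.re (e.re - 3 * l) (z - e.im) ∧ |z.im| ≤ l / 4 ∧ |z.im| < 1 / 4 * l := by
  have hl := l_pos
  have hh := B.h0
  have hh1 := B.h1
  have e0 : (z - ((e.im : ℝ) : ℂ)).im = z.im := by simp
  refine ⟨?_, by rw [abs_le]; constructor <;> linarith, by rw [abs_lt]; constructor <;> linarith⟩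
  constructor <;> rw [e0, abs_le] <;> constructor <;> linarith

/-- **mean field value and ends on the curve of TARGET-C** -/
theorem exists_endX [Fil] [Ends] (B : SeaCB) {e1 J : ℝ} (he : 0 < e1) (he1 : e1 ≤ 1 / 100)
    (hJ : 0 ≤ J) {s0 : ℝ} (hs0 : 0 ≤ s0) : ∃ C : ℝ, 0 ≤ C ∧ ∃ m0 : ℕ, 1 ≤ m0 ∧ ∀ [SeaC] [SeaCU B],
    ∀ m : ℕ, m0 ≤ m → ∀ e : ℂ, -(9 / 10 * l) ≤ e.re → e.re ≤ l / 2 → |e.im| ≤ s0 →
      Cv.MF (sN m) + ∑ a, ∫ t, sN m a * Cv.P t * ((NUSp.DD pE qE [] a (Cv.ga t)).re +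
        HP (aend e) (fun a => Cv.zt (Cv.gD (Fil.cv a (Cv.etaC e1 J m m)))) a t) ≤ EMX e m + C := by
  obtain ⟨Cc, hCc, m1, hm1, hcrv⟩ := exists_crvC B (J := J) he he1 hJ
  obtain ⟨C2, hC2, m2, hm2, H⟩ := exists_HDC B (e1 := e1) (Cc := Cc) he (by linarith) (by linarith)
  obtain ⟨C3, hC3, H3⟩ := pthA_cur B
  obtain ⟨ms, hms⟩ := @PBH.PLX.eventually_small NUSea.seaP e1 (1 / C3) 0 he (by positivity)
  have hl := l_pos
  refine ⟨2 * C2 + 24 * l * s0, by positivity, max (max m1 m2) ms, by omega, ?_⟩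
  intro S hS m hm e hr1 hr2 him
  simp only [max_le_iff] at hm
  obtain ⟨⟨k1, k2⟩, k3⟩ := hm
  have hm1' : 1 ≤ m := hm1.trans k1
  obtain ⟨hT, hη⟩ := hcrv m k1
  obtain ⟨η, hηd⟩ : ∃ η, η = Cv.etaC e1 J m m := ⟨_, rfl⟩
  obtain ⟨η1, hη1d⟩ : ∃ η1, η1 = Cv.etaC' e1 J m m := ⟨_, rfl⟩
  rw [← hηd, ← hη1d] at hη
  rw [← hηd]
  obtain ⟨a1, -⟩ := hms m k3
  obtain ⟨ε, e0, hcur, hε0, hε1, hε2⟩ := hη.cur
  have hCε : C3 * ε ≤ 1 := by
    have h1 : ε ≤ 1 / C3 := hε1.trans a1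
    rw [le_div_iff₀ (by linarith)] at h1
    linarith
  have hp : ∀ a, PthA C3 (-B.h) (7 / 100 * l) (Cv.zt (Cv.gD (Fil.cv a η)))
      (Cv.zd (Cv.gD1 (Fil.cv a η) (Fil.cv a η1))) := fun a =>
    H3 (Nat.cast_nonneg m) hCε (cur_cvC hcur a) (hasDerivAt_cvC hη.d a)
  have hd1 : ∀ t, |Cv.hd m η η1 t| ≤ 1 := fun t => CrvP.hdc_le B hη t
  have hr3 : e.re ≤ 37 / 10 * l := by linarith
  obtain ⟨i1, j1, h1⟩ := H m k2 η η1 hη hd1 (1 / 2) e (by norm_num [abs_of_pos]) hr1 hr3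
  obtain ⟨-, j0, -⟩ := H m k2 η η1 hη hd1 0 e (by norm_num) hr1 hr3
  -- the atoms
  have eH : ∀ a t, HP (aend e) (fun a => Cv.zt (Cv.gD (Fil.cv a η))) a t = 2 * Hlg (1 / 2) e η a t := by
    intro a t
    obtain ⟨w1, w2, -⟩ := wnd B hr1 hr2 ((hp a).ge t) ((hp a).le t)
    rw [HP_eq, HA_aend (by positivity) (by linarith) w1 w2]
    unfold Hlg
    rw [ptC_dsp]
    rfl
  -- the static curve
  have him2 : ∀ t : ℝ, -B.h ≤ (Cv.ga t).im ∧ (Cv.ga t).im ≤ 7 / 100 * l := fun t => by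
    rw [Cv.ga_im]
    have g := Cv.eta_h B t
    have g2 := (hp true).le t
    have g3 : (Cv.zt (Cv.gD (Fil.cv true η)) t).im = Cv.eta t + Fil.cv true η t := by
      simp [Cv.zt, Cv.gD, Cv.ga, NUKer.iD]
    have g4 : 0 ≤ Fil.cv true η t := Fil.cv_nonneg (hη.nn t)
    rw [g3] at g2
    exact ⟨g, by linarith⟩
  have eD : ∀ (a : Bool) (t : ℝ), (NUSp.DD pE qE [] a (Cv.ga t)).re =
      2 * (Hst 0 e t - Hst (1 / 2) e t) := by
    intro a t
    obtain ⟨-, -, w3⟩ := wnd B hr1 hr2 (him2 t).1 (him2 t).2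
    rw [PLT.Le.DD0_th a w3]
    unfold Hst
    ring
  have eT : ∀ t : ℝ, Real.log ‖thE e e e e (l + I * Cv.ga t)‖ = 2 * Hst 0 e t := by
    intro t
    rw [norm_thE_e, Real.log_pow]
    unfold Hst
    push_cast
    ring
  have s1 : ∀ a, ∫ t, sN m a * Cv.P t * ((NUSp.DD pE qE [] a (Cv.ga t)).re +
      HP (aend e) (fun a => Cv.zt (Cv.gD (Fil.cv a η))) a t) =
      2 * (∫ t, sN m a * Cv.P t * Hst 0 e t) - 2 * (∫ t, sN m a * Cv.P t * Hst (1 / 2) e t) +
        2 * ∫ t, sN m a * Cv.P t * Hlg (1 / 2) e η a t := by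
    intro a
    have q0 := (j0 a).const_mul 2
    have q1 := (j1 a).const_mul 2
    have q2 := (i1 a).const_mul 2
    have q3 : Integrable fun t => 2 * (sN m a * Cv.P t * Hst 0 e t) -
      2 * (sN m a * Cv.P t * Hst (1 / 2) e t) := q0.sub q1
    rw [← integral_const_mul, ← integral_const_mul, ← integral_const_mul, ← integral_sub q0 q1,
      ← integral_add q3 q2]
    refine integral_congr_ae (ae_of_all _ fun t => ?_)
    beta_reduce
    rw [eD a t, eH a t]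
    ring
  have s2 : ∀ a : Bool, ∫ t, sN m a * Cv.P t * Real.log ‖thE e e e e (l + I * Cv.ga t)‖ =
      2 * ∫ t, sN m a * Cv.P t * Hst 0 e t := by
    intro a
    rw [← integral_const_mul]
    refine integral_congr_ae (ae_of_all _ fun t => ?_)
    beta_reduce
    rw [eT]
    ring
  unfold EMX
  rw [Fintype.sum_bool] at h1
  rw [Fintype.sum_bool, Fintype.sum_bool, s1, s1, s2, s2]
  rw [Fintype.sum_bool] at h1
  have h2 := (abs_le.1 h1).2
  have h3 := hη.lip e.im 0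
  have h4 := abs_le.1 h3
  rw [sub_zero] at h4
  have h5 : |e.im| ≤ s0 := him
  have h6 : l * ((m : ℝ) * Cv.P 0 * η 0 - (m : ℝ) * Cv.P e.im * η e.im) ≤ l * s0 :=
    mul_le_mul_of_nonneg_left (by linarith [h4.1]) hl.le
  nlinarith

end PLT

end
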