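import Pool.Agent.PLT.TopDef
import Pool.Agent.PLT.CurH

/-!
# Sea on a curve: the bound of the gas of a family from the gas theorem `S4MC`

* `CurFC F S`: the curves of the family are the curves of TARGET-C of the sea of the index; **`seasC_of`**;
* `EcC P en S`: energy of a configuration; `linC_gd0`;
* `EnvFC`: curve, cutoff, potential, one body data of the family are admissible (`EnvC`, no groups);
* **`gasFC_of : S4MC → EnvFC → GasFC`**; **`ux_ofSC`**: with `TopFC`, the bounds `UXC`.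
-/

set_option autoImplicit false
set_option linter.unusedSectionVars false
set_option linter.unusedVariables false

noncomputable section

open MeasureTheory Finset Filter Topology Complex
open scoped ENNReal
open PLX (Fil Ends)

namespace PLT

open PHK hiding mfo6
open NUGC.PLX (OB pE qE)
open NUO (Xo ht Tb TW)
open NUSea.PLX.H0 (Gd)
open NUR2 (Cfg)
open NUDispW (win)
open PotH.PLX (sN T1H RgH6 phG)

/-- no groups -/
def gdN : Fin 0 → Gd := fun i => i.elim0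

/-! ### no groups -/

section nogroup

variable [SeaC] [Fil] [Ends]

theorem prefC_gdN (m : ℕ) (Cst : ℝ) : prefC m gdN 0 0 Cst = Cst * Real.exp (Cv.MF (sN m)) := by
  unfold prefC
  simp

theorem enHC_gdN (P : Par6) (m : ℕ) {r : ℕ} (O : Fin r → Xo) (T1 : ℝ) (p q : ℕ) :
    enHC P m gdN O T1 p q = 0 := by
  unfold enHC NUSea.PLX.H0.cstF
  have : IsEmpty (NUSea.PLX.H0.IG fun i => (gdN i).pin T1) := ⟨fun x => x.1.elim0⟩
  simp

/-- the exact linear term without groups -/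
def linN (η η1 : ℝ → ℝ) (m : ℕ) (H : Bool → ℝ → ℝ) : ℝ :=
  NUCR.bil (Cv.hd m η η1) (Cv.hd m η η1) - 24 * NUMF.l * crC η m 0 +
    ∑ a, ∫ t, sN m a * Cv.P t * ((NUSp.DD pE qE [] a (Cv.ga t)).re + H a t)

theorem linC_gdN (η η1 : ℝ → ℝ) (m : ℕ) (T1 : ℝ) (H : Bool → ℝ → ℝ) :
    linC η η1 m gdN T1 H = linN η η1 m H := by
  unfold linC linN
  simp

end nogroup

theorem rgH6_gdN [Fil] [Ends] {ep e1 : ℝ} {m n r : ℕ} (O : Fin r → Xo) (hn : n ≤ 3 * m)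
    (hr : r ≤ 2 * (2 * n + Fil.xe m)) (h1 : chgO6 O true ≤ (n : ℤ))
    (h2 : chgO6 O false ≤ ((n + Fil.xe m : ℕ) : ℤ)) :
    RgH6 ep e1 m gdN 0 (Fil.xe m) (m : ℝ) n O 0 0 where
  n2 := by norm_num
  sp i := i.elim0
  ax := by norm_num
  ay := Nat.le_add_right _ _
  ay' := Nat.le_add_right _ _
  q := by simp
  nu := by simp
  hN := hn
  hr := by omega
  hc1 := by simpa using h1
  hc2 := by simpa using h2
  E0 := le_rfl
  hE i := i.elim0
  x0 := le_rfl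
  hx i := i.elim0

variable [Fil] [Ends] {ι : Type}

/-! ### the family -/

/-- **the curves of the family are those of TARGET-C over the sea of the index** -/
structure CurFC (F : FamC ι) (S : ℕ → ι → SeaC) : Prop where
  D : ∀ e1 J m i, F.ok m i → F.D e1 J m i = @dsp (S m i) _ (@Cv.etaC (S m i) e1 J m m)
  D1 : ∀ e1 J m i, F.ok m i → F.D1 e1 J m i =
    @dsp1 (S m i) _ (@Cv.etaC (S m i) e1 J m m) (@Cv.etaC' (S m i) e1 J m m)

omit [Ends] in
/-- **the seas of the family** -/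
theorem seasC_of {SB : SeaCB} {F : FamC ι} {S : ℕ → ι → SeaC}
    (hu : ∀ m i, F.ok m i → @SeaCU SB (S m i)) (hw : ∀ m i, F.ok m i → @WinC (S m i) F.lo F.hi)
    (hdc : ∀ m i, F.ok m i → F.dc m i = fun t : ℝ => @Cv.Pc (S m i) t) (hc : CurFC F S) :
    SeasC SB F S where
  u := hu
  win := hw
  dc := hdc
  dis e1 he1 he1' J hJ r hr := by
    obtain ⟨W, C1, hW, hC1, m0, H⟩ := disKH he1 he1' hJ hr SB
    refine ⟨W, C1, hW, hC1, m0, fun m hm i hi a => ?_⟩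
    rw [hc.D e1 J m i hi]
    exact @H (S m i) (hu m i hi) m hm a

/-- energy of a configuration of objects over the sea of the index -/
def EcC (P : Par6) (en : EnC) (S : ℕ → ι → SeaC) (ep e1 J : ℝ) (m : ℕ) (i : ι) (r : ℕ)
    (O : Fin r → Xo) : ℝ :=
  ∑ j, @oneHC (S m i) _ _ P m (@Cv.etaC (S m i) e1 J m m) (TW ep e1 m) r O j + en (S m i) r O

/-- **curve, cutoff, potential and one body data of the family** -/
def EnvFC (F : FamC ι) (S : ℕ → ι → SeaC) (B : ℝ → ℕ → ι → OB) (lin : ℝ → ℝ → ℕ → ι → ℝ) : Prop :=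
  ∃ B0 N0 : ℝ, 0 ≤ B0 ∧ 0 ≤ N0 ∧ ∀ ep : ℝ, 0 < ep → ep ≤ 1 / 100 → ∀ e1 : ℝ, 0 < e1 →
    e1 ≤ 1 / 100 → ∀ J : ℝ, 0 ≤ J → ∃ Cc C0 : ℝ, 1 ≤ Cc ∧ 1 ≤ C0 ∧ ∃ m0 : ℕ, ∀ m : ℕ, m0 ≤ m →
    ∀ i : ι, F.ok m i → ∀ th : ℝ, 0 ≤ th → ∃ (cf Bc Bc' : ℝ → ℝ) (H H' : Bool → ℝ → ℝ),
      @EnvC (S m i) _ _ ep e1 Cc C0 B0 N0 th m (@Cv.etaC (S m i) e1 J m m)
        (@Cv.etaC' (S m i) e1 J m m) cf Bc Bc' H H' (B ep m i) 0 gdN ∧
      @Cv.MF (S m i) (sN m) + @linN (S m i) _ _ (@Cv.etaC (S m i) e1 J m m)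
        (@Cv.etaC' (S m i) e1 J m m) m H ≤ lin e1 J m i

/-- **the bound of the gas of the family** -/
theorem gasFC_of {SB : SeaCB} {F : FamC ι} {P : Par6} {en : EnC} {S : ℕ → ι → SeaC}
    {B : ℝ → ℕ → ι → OB} {lin : ℝ → ℝ → ℕ → ι → ℝ} (hu : ∀ m i, F.ok m i → @SeaCU SB (S m i))
    (hc : CurFC F S) (hM : S4MC SB P en) (hE : EnvFC F S B lin) :
    GasFC F P S B (EcC P en S) lin := by
  obtain ⟨B0, N0, hB0, hN0, hE⟩ := hE
  obtain ⟨K, Ca, hK, hCa, hM⟩ := hM B0 N0 hB0 hN0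
  refine ⟨K, Ca, hK, hCa, fun A0 hA0 kap hkap ep hep hep1 e1 he he1 J hJ δ hδ => ?_⟩
  obtain ⟨Cc, C0, hCc, hC0, me, hE⟩ := hE ep hep hep1 e1 he he1 J hJ
  obtain ⟨d, Cst, Cg, hd, hCst, hCg, ms, hM⟩ := hM A0 hA0 kap hkap ep hep hep1 e1 he he1 Cc C0 hCc
    hC0 δ hδ
  refine ⟨d, Cst, Cg, hd, hCst, hCg, max me ms, ?_⟩
  intro m hm i hi b' hb' n hn r O hr h1 h2 hcnt Ψ w D hw hD hpoly hstat
  have m1 : me ≤ m := (le_max_left _ _).trans hm
  have m2 : ms ≤ m := (le_max_right _ _).trans hm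
  obtain ⟨cf, Bc, Bc', H, H', hEnv, hlin⟩ := hE m m1 i hi d hd.le
  let _ : SeaC := S m i
  have _ : SeaCU SB := hu m i hi
  have hR := rgH6_gdN (ep := ep) (e1 := e1) O hn hr h1 h2
  have h3 := hM m m2 0 (Cv.etaC e1 J m m) (Cv.etaC' e1 J m m) cf Bc Bc' H H' (B ep m i) gdN
    hEnv 0 (Fil.xe m) (m : ℝ) n b' r O 0 0 hb' hR Ψ w D hw hD hpoly (fun _ _ _ _ => hstat)
  rw [if_pos (fun i => i.elim0), mul_one] at h3
  rw [hc.D e1 J m i hi, hc.D1 e1 J m i hi]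
  refine le_trans (le_of_eq ?_) (h3.trans (ENNReal.ofReal_le_ofReal ?_))
  · rfl
  · have hmp : (0 : ℝ) ≤ (m : ℝ) ^ (3 / 8 + Ca * (ep + e1) + δ) :=
      Real.rpow_nonneg (Nat.cast_nonneg m) _
    refine mul_le_mul_of_nonneg_left ?_ (by positivity)
    rw [prefC_gdN, enHC_gdN, linC_gdN, add_zero]
    have hcf : confEC P (en (S m i)) m (Cv.etaC e1 J m m) (TW ep e1 m) (K + A0) kap O =
        EcC P en S ep e1 J m i r O + (K + A0) * r + kap * win univ fun j => ht (O j) := by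
      unfold confEC EcC
      ring
    rw [hcf]
    obtain ⟨E, hEd⟩ : ∃ E, E = EcC P en S ep e1 J m i r O + (K + A0) * r +
      kap * win univ fun j => ht (O j) := ⟨_, rfl⟩
    rw [← hEd]
    have h4 : Cst * Real.exp (Cv.MF (sN m)) * (m : ℝ) ^ (3 / 8 + Ca * (ep + e1) + δ) *
        Real.exp (E + linN (Cv.etaC e1 J m m) (Cv.etaC' e1 J m m) m H) =
        Cst * (m : ℝ) ^ (3 / 8 + Ca * (ep + e1) + δ) *
          Real.exp (Cv.MF (sN m) + linN (Cv.etaC e1 J m m) (Cv.etaC' e1 J m m) m H + E) := by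
      rw [show Cv.MF (sN m) + linN (Cv.etaC e1 J m m) (Cv.etaC' e1 J m m) m H + E =
        Cv.MF (sN m) + (E + linN (Cv.etaC e1 J m m) (Cv.etaC' e1 J m m) m H) by ring,
        Real.exp_add (Cv.MF (sN m))]
      ring
    rw [h4]
    refine mul_le_mul_of_nonneg_left (Real.exp_le_exp.2 ?_) (by positivity)
    exact add_le_add_left hlin E

/-- **U1, U3, U4 of a family**: gas theorem, environment, bound of the functional by its gas -/
theorem ux_ofSC {SB : SeaCB} {F : FamC ι} {P : Par6} {en : EnC} {S : ℕ → ι → SeaC}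
    {B : ℝ → ℕ → ι → OB} {lin : ℝ → ℝ → ℕ → ι → ℝ} (hbd : ∀ m i, F.ok m i → 0 ≤ F.bd m i)
    (hu : ∀ m i, F.ok m i → @SeaCU SB (S m i))
    (hw : ∀ m i, F.ok m i → @WinC (S m i) F.lo F.hi)
    (hdc : ∀ m i, F.ok m i → F.dc m i = fun t : ℝ => @Cv.Pc (S m i) t)
    (hc : CurFC F S) (hM : S4MC SB P en) (hE : EnvFC F S B lin)
    (hT : TopFC F P B (EcC P en S) lin) : UXC F P :=
  ux_ofC hbd (seasC_of hu hw hdc hc) hT (gasFC_of hu hc hM hE)

end PLT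

end
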