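import Pool.Agent.PLT.FDefC
import Pool.Agent.PHK.GasPot

/-!
# Sea on a curve: the gas of quanta in the field of the objects, asymmetric strip

The curves of the quanta lie in the strip of the offsets `v .. w`, `v ≤ 0 ≤ w`:
`KsC v w = [(1 - w) l, (1 - v) l]`; a curve is `CrvC v w D D1` (landed `NUP1S.Crv`, displacement `D`).

* `StC v w P`: the strip meets no pole of the fields of the objects; `GoodP6.stC`; `StC.sub`;
* `diff_potOC`, `bdd_potOC`: the field `potO6` in the strip;
* `crvC_of`: the curves of (P);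
* **`reg_potC`**, **`gas_pot_leQC`**: step (II): the gas on the line `Re u = l` is bounded by the positive
  gas `ZGC` on any two curves in the strip.
-/

set_option autoImplicit false
set_option linter.unusedSectionVars false

noncomputable section

open Complex MeasureTheory Finset
open scoped ENNReal Real
open PLX (Fil)

namespace PLT

open NUO NUP1 NUP1S NUP1S.Ab PHK
open NUP1.Bd (cwz pwz qg sin_pos_of Ob)

/-- the strip of the quanta, offsets `v .. w` -/
abbrev KsC (v w : ℝ) : Set ℝ := Set.Icc ((1 - w) * NUP1.l) ((1 - v) * NUP1.l)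

/-- a curve with the displacement `D` in the strip -/
abbrev CrvC (v w : ℝ) (D D1 : ℝ → ℂ) : Prop :=
  Crv ((1 - w) * NUP1.l) ((1 - v) * NUP1.l) NUP1.l D D1

/-- the strip of the quanta meets no pole of the objects -/
structure StC (v w : ℝ) (P : Par6) : Prop where
  d0 : v ≤ 0
  d0' : 0 ≤ w
  d1 : w - v < 1
  d2 : -(1 / 2) < v
  o1 : w < P.j1
  o1' : P.j1 - v < 1
  o2 : w < P.j2
  o2' : P.j2 - v < 1
  oe : w < P.e
  oe' : P.e - v < 1
  oL : 1 + w < P.jL
  oL' : P.jL - v < 3

theorem StC.sub {v w v' w' : ℝ} {P : Par6} (h : StC v w P) (h1 : v ≤ v') (h2 : v' ≤ 0) (h3 : 0 ≤ w')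
    (h4 : w' ≤ w) : StC v' w' P := by
  obtain ⟨a1, a2, a3, a4, a5, a6, a7, a8, a9, a10, a11, a12⟩ := h
  exact ⟨h2, h3, by linarith, by linarith, by linarith, by linarith, by linarith, by linarith,
    by linarith, by linarith, by linarith, by linarith⟩

theorem stC_good {v w : ℝ} {P : Par6} (h : GoodP6 P) (h0 : v ≤ 0) (h1 : 0 ≤ w) (h2 : w < P.j1)
    (h3 : P.j2 - v < 1) (h4 : w < 1 / 3) (h5 : -(1 / 2) < v) : StC v w P := by
  have a1 := h.j1
  have a2 := h.j1e
  have a3 := h.ej2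
  have a4 := h.j2
  have a5 := h.L2
  have a6 := h.Lj
  have a7 := h.e13
  have a8 := h.e45
  exact ⟨h0, h1, by linarith, by linarith, h2, by linarith, by linarith, h3, by linarith,
    by linarith, by linarith, by linarith⟩

/-- the symmetric strip of the landed files -/
theorem stC_of_stP {δ : ℝ} {P : Par6} (h : StP δ P) : StC (-δ) δ P := by
  obtain ⟨a1, a2, a3, a4, a5, a6, a7, a8, a9, a10⟩ := h
  exact ⟨by linarith, a1, by linarith, by linarith, a3, by linarith, a5, by linarith, a7,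
    by linarith, a9, by linarith⟩

theorem CrvC.sub {v w v' w' : ℝ} {D D1 : ℝ → ℂ} (h : CrvC v' w' D D1) (h1 : v ≤ v') (h2 : w' ≤ w) :
    CrvC v w D D1 := by
  have hl := Bd.l_pos
  obtain ⟨a1, a2, a3, a4, a5, a6⟩ := h
  refine ⟨a1, a2, a3, ⟨?_, ?_⟩, fun t => ?_, fun t => ?_⟩
  · have := a4.1
    nlinarith
  · have := a4.2
    nlinarith
  · have := a5 t
    nlinarith
  · have := a6 t
    nlinarith

/-- the curves of (P) -/
theorem crvC_of {δ : ℝ} {η η' : ℝ → ℝ} (h : CrvR6 δ η η') (hδ : 0 ≤ δ) :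
    CrvC (-δ) δ (dA η) (dA η') := by
  have h1 := h.crv hδ
  have e : (1 - -δ) * NUP1.l = (1 + δ) * NUP1.l := by ring
  unfold CrvC
  rw [e]
  exact h1

/-- a point of the curve is in the strip -/
theorem ptC_mem {v w : ℝ} {D D1 : Bool → ℝ → ℂ} {s : Bool} (h : CrvC v w (D s) (D1 s)) (t : ℝ) :
    (ptC D s t).re ∈ KsC v w := by
  have e : (ptC D s t).re = NUP1.l - (D s t).im := by
    unfold ptC vl
    simp
    ring
  rw [e]
  exact ⟨h.re1 t, h.re2 t⟩

/-! ### a signed constituent -/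

/-- a quantum of species `s` in the strip does not meet a pole of the signed constituent `p` -/
def OkPC (v w : ℝ) (s : Bool) (p : Part6) : Prop :=
  (∀ y ∈ KsC v w, Ok (s, .A) (p.1.1, obB p.1.2.1) (y - p.1.2.2.re)) ∧
    (0 ≤ p.2 ∨ p.1.2.1 = false ∧ ∀ y ∈ KsC v w, NzA s p.1.1 (y - p.1.2.2.re))

theorem diff_ppC {v w : ℝ} {s : Bool} {p : Part6} (h : OkPC v w s p) {u : ℂ} (hu : u.re ∈ KsC v w) :
    DifferentiableAt ℂ (fun z => pp6 ((s, false, z), 1) p) u := by
  simp_rw [pp6_eq_gz]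
  have h1 : DifferentiableAt ℂ (gz (s, .A) (p.1.1, obB p.1.2.1)) (u - p.1.2.2) :=
    differentiableAt_gz _ _ (by rw [Complex.sub_re]; exact h.1 _ hu)
  have h2 : DifferentiableAt ℂ (fun z => gz (s, .A) (p.1.1, obB p.1.2.1) (z - p.1.2.2)) u :=
    h1.comp u (differentiableAt_id.sub_const _)
  refine h2.zpow ?_
  rcases h.2 with h3 | ⟨h3, h4⟩
  · exact Or.inr h3
  · left
    have h5 := h.1 _ hu
    have h6 := h4 _ hu
    rw [← Complex.sub_re] at h5 h6
    rw [h3] at h5 ⊢
    exact gz_ne h5 h6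

/-- the bound of a power in the strip -/
theorem bdd_ppC {v w : ℝ} {s : Bool} {p : Part6} (h : OkPC v w s p) :
    Bdd (KsC v w) (rtP6 s p) (fun z => pp6 ((s, false, z), 1) p) := by
  have hK : IsCompact ((fun y => y - p.1.2.2.re) '' KsC v w) := isCompact_Icc.image (by fun_prop)
  -- the function on the shifted strip
  have key : Bdd ((fun y => y - p.1.2.2.re) '' KsC v w) (rtP6 s p)
      fun z => gz (s, .A) (p.1.1, obB p.1.2.1) z ^ p.2 := by
    unfold rtP6
    rcases h.2 with h3 | ⟨h3, h4⟩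
    · obtain ⟨n, hn⟩ := Int.eq_ofNat_of_zero_le h3
      rw [hn]
      have b := (bdd_gz hK (s, .A) (p.1.1, obB p.1.2.1) (by
        rintro _ ⟨y, hv, rfl⟩
        exact h.1 y hv)).pow n
      simpa using b
    · rw [h3]
      rcases le_or_gt 0 p.2 with h5 | h5
      · obtain ⟨n, hn⟩ := Int.eq_ofNat_of_zero_le h5
        rw [hn]
        have b := (bdd_gz hK (s, .A) (p.1.1, obB false) (by
          rintro _ ⟨y, hv, rfl⟩
          have := h.1 y hv
          rwa [h3] at this)).pow n
        simpa using b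
      · obtain ⟨n, hn⟩ := Int.eq_ofNat_of_zero_le (Int.neg_nonneg_of_nonpos h5.le)
        have hn' : p.2 = -(n : ℤ) := by
          have : -p.2 = (n : ℤ) := hn
          omega
        rw [hn']
        have b := (bdd_inv_gz hK s p.1.1 (by
          rintro _ ⟨y, hv, rfl⟩
          exact h4 y hv)).pow n
        refine Bdd.rate (s := (n : ℝ) * -rt (s, .A) (p.1.1, .A)) ?_ (by
          push_cast
          show (n : ℝ) * -rt (s, .A) (p.1.1, .A) = -(n : ℝ) * rt (s, .A) (p.1.1, .A)
          ring)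
        obtain ⟨C, hC, hb⟩ := b
        refine ⟨C, hC, fun z hz => ?_⟩
        have e : gz (s, .A) (p.1.1, obB false) z ^ (-(n : ℤ)) = ((gz (s, .A) (p.1.1, .A) z)⁻¹) ^ n := by
          rw [zpow_neg, zpow_natCast, inv_pow]
          rfl
        simp only
        rw [e]
        exact hb z hz
  obtain ⟨C, hC, hb⟩ := key
  refine ⟨C * Real.exp (|rtP6 s p| * |p.1.2.2.im|), by positivity, fun z hz => ?_⟩
  simp only []
  rw [pp6_eq_gz]
  refine (hb (z - p.1.2.2) ⟨z.re, hz, by simp⟩).trans ?_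
  rw [mul_assoc, ← Real.exp_add, Complex.sub_im]
  refine mul_le_mul_of_nonneg_left (Real.exp_le_exp.2 ?_) hC
  have h1 : |z.im - p.1.2.2.im| ≤ |z.im| + |p.1.2.2.im| := abs_sub _ _
  have h2 : |z.im| ≤ |z.im - p.1.2.2.im| + |p.1.2.2.im| := by
    have := abs_add_le (z.im - p.1.2.2.im) p.1.2.2.im
    simpa using this
  rcases le_total 0 (rtP6 s p) with h0 | h0
  · rw [abs_of_nonneg h0]
    nlinarith
  · rw [abs_of_nonpos h0]
    nlinarith

/-! ### lists -/

theorem diff_listC {v w : ℝ} {s : Bool} {B : List Part6} (h : ∀ p ∈ B, OkPC v w s p) {u : ℂ}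
    (hu : u.re ∈ KsC v w) : DifferentiableAt ℂ (fun z => ppC6 [((s, false, z), 1)] B) u := by
  simp_rw [ppC6_single]
  induction B with
  | nil => simp
  | cons p B ih =>
    simp only [List.map_cons, List.prod_cons]
    exact (diff_ppC (h p List.mem_cons_self) hu).mul
      (ih fun q hq => h q (List.mem_cons_of_mem _ hq))

theorem bdd_listC {v w : ℝ} {s : Bool} {B : List Part6} (h : ∀ p ∈ B, OkPC v w s p) :
    Bdd (KsC v w) (B.map (rtP6 s)).sum (fun z => ppC6 [((s, false, z), 1)] B) := by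
  simp_rw [ppC6_single]
  induction B with
  | nil => exact ⟨1, zero_le_one, fun z _ => by simp⟩
  | cons p B ih =>
    simp only [List.map_cons, List.prod_cons, List.sum_cons]
    exact (bdd_ppC (h p List.mem_cons_self)).mul (ih fun q hq => h q (List.mem_cons_of_mem _ hq))

/-! ### no poles -/

theorem okP_partsC {v w : ℝ} {P : Par6} (h : StC v w P) (x : Xo) (s : Bool) :
    ∀ p ∈ parts6 P x, OkPC v w s p := by
  have hl := Bd.l_pos
  have d0 := h.d0
  have d0' := h.d0'
  have d1 := h.d1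
  have d2 := h.d2
  have o1 := h.o1
  have o1' := h.o1'
  have o2 := h.o2
  have o2' := h.o2'
  have oe := h.oe
  have oe' := h.oe'
  have oL := h.oL
  have oL' := h.oL'
  -- a quantum or a hole at offset `j`
  have hH : ∀ j : ℝ, w < j → j - v < 1 → ∀ x ∈ KsC v w, ∀ c : Bool,
      Ok (s, .A) (c, .A) (x - (1 - j) * l) ∧ NzA s c (x - (1 - j) * l) := by
    intro j h1 h2 x hv c
    refine okN ?_ ?_
    · nlinarith [hv.1]
    · nlinarith [hv.2]
  intro p hp
  unfold parts6 at hp
  rcases hk : k6 x with _ | _ | _ | _ | _ | _ <;> simp only [hk] at hp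
  · simp only [List.mem_cons, List.not_mem_nil, or_false] at hp
    subst hp
    refine ⟨fun y hv => ?_, Or.inl (by norm_num)⟩
    show Ok (s, .A) (sp x, .A) (y - (posL P.jL (ht x)).re)
    rw [re_posL6]
    refine okA ?_ ?_ (Or.inr ?_)
    · nlinarith [hv.1]
    · nlinarith [hv.2]
    · nlinarith [hv.1]
  · simp only [List.mem_cons, List.not_mem_nil, or_false] at hp
    subst hp
    refine ⟨fun y hv => ?_, Or.inl (by norm_num)⟩
    show Ok (s, .A) (sp x, .S) (y - (posT (ht x)).re)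
    rw [re_posT6]
    refine okS ?_ ?_ ?_
    · nlinarith [hv.1]
    · nlinarith [hv.2]
    · have : y - -(1 / 2 * l) < 2 * l := by nlinarith [hv.2]
      exact this.ne
  all_goals
    have hS : ∀ y ∈ KsC v w, Ok (s, .A) (sp x, .S) (y - (posS P.e (ht x)).re) := by
      intro y hv
      rw [re_posS6]
      refine okS ?_ ?_ ?_
      · nlinarith [hv.1]
      · nlinarith [hv.2]
      · have : 2 * l < y - -((1 + P.e) * l) := by nlinarith [hv.1]
        exact this.ne'
  · simp only [List.mem_cons, List.not_mem_nil, or_false] at hp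
    rcases hp with rfl | rfl
    · exact ⟨hS, Or.inl (by norm_num)⟩
    · refine ⟨fun y hv => ?_, Or.inl (by norm_num)⟩
      show Ok (s, .A) (!sp x, .A) (y - (posB P.e (ht x)).re)
      rw [re_posB6]
      exact (hH _ oe oe' y hv _).1
  · simp only [List.mem_cons, List.not_mem_nil, or_false] at hp
    rcases hp with rfl | rfl | rfl
    · exact ⟨hS, Or.inl (by norm_num)⟩
    · refine ⟨fun y hv => ?_, Or.inl (by norm_num)⟩
      show Ok (s, .A) (!sp x, .A) (y - (posB P.e (ht x)).re)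
      rw [re_posB6]
      exact (hH _ oe oe' y hv _).1
    · refine ⟨fun y hv => ?_, Or.inr ⟨rfl, fun y hv => ?_⟩⟩
      · show Ok (s, .A) (sp x, .A) (y - (posB P.e (ht x)).re)
        rw [re_posB6]
        exact (hH _ oe oe' y hv _).1
      · show NzA s (sp x) (y - (posB P.e (ht x)).re)
        rw [re_posB6]
        exact (hH _ oe oe' y hv _).2
  · simp only [List.mem_cons, List.not_mem_nil, or_false] at hp
    subst hp
    refine ⟨fun y hv => ?_, Or.inr ⟨rfl, fun y hv => ?_⟩⟩
    · show Ok (s, .A) (sp x, .A) (y - (posL P.j1 (ht x)).re)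
      rw [re_posL6]
      exact (hH _ o1 o1' y hv _).1
    · show NzA s (sp x) (y - (posL P.j1 (ht x)).re)
      rw [re_posL6]
      exact (hH _ o1 o1' y hv _).2
  · simp only [List.mem_cons, List.not_mem_nil, or_false] at hp
    subst hp
    refine ⟨fun y hv => ?_, Or.inr ⟨rfl, fun y hv => ?_⟩⟩
    · show Ok (s, .A) (sp x, .A) (y - (posL P.j2 (ht x)).re)
      rw [re_posL6]
      exact (hH _ o2 o2' y hv _).1
    · show NzA s (sp x) (y - (posL P.j2 (ht x)).re)
      rw [re_posL6]
      exact (hH _ o2 o2' y hv _).2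

/-! ### the field of a configuration -/

variable {r : ℕ}

theorem diff_potOC {v w : ℝ} {P : Par6} (h : StC v w P) (O : Fin r → Xo) (s : Bool) {u : ℂ}
    (hu : u.re ∈ KsC v w) : DifferentiableAt ℂ (potO6 P O s) u := by
  unfold potO6 potC6
  exact DifferentiableAt.fun_finsetProd fun i _ => diff_listC (okP_partsC h (O i) s) hu

theorem bdd_potOC {v w : ℝ} {P : Par6} (h : StC v w P) (O : Fin r → Xo) (s : Bool) :
    Bdd (KsC v w) ((if s then 2 else -2) * ((chgO6 O true : ℝ) - chgO6 O false)) (potO6 P O s) := by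
  rw [← rt_conf6 s P O]
  unfold potO6 potC6
  have : ∀ S : Finset (Fin r), Bdd (KsC v w) (∑ i ∈ S, ((parts6 P (O i)).map (rtP6 s)).sum)
      (fun z => ∏ i ∈ S, ppC6 [((s, false, z), 1)] (parts6 P (O i))) := by
    intro S
    induction S using Finset.induction_on with
    | empty => exact ⟨1, zero_le_one, fun z _ => by simp⟩
    | insert i S hi ih =>
      simp_rw [Finset.sum_insert hi, Finset.prod_insert hi]
      exact (bdd_listC (okP_partsC h (O i) s)).mul ih
  exact this univ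

/-- the positive gas with general one body functions and two curves -/
def ZGC (G G' : ℂ → ℂ) (P : Par6) (D D1 : Bool → ℝ → ℂ) (O : Fin r → Xo) (a b : ℕ) : ℝ≥0∞ :=
  ((a.factorial : ℝ≥0∞) * b.factorial)⁻¹ * ∫⁻ x : (Fin a → ℝ) × (Fin b → ℝ),
    ENNReal.ofReal (NU42.WO (D true) (D1 true) (D false) (D1 false) (qGC G P D O true)
      (qGC G' P D O false) x.1 x.2)

/-- **the one body functions in the field of the objects are regular in the strip** -/
theorem reg_potC {v w : ℝ} {P : Par6} (hP : StC v w P) (O : Fin r → Xo) {κ : ℝ} {Q : ℤ} {G G' : ℂ → ℂ}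
    (m1 : Measurable G) (m2 : Measurable G')
    (d1 : ∀ u : ℂ, u.re ∈ KsC v w → DifferentiableAt ℂ G u)
    (d2 : ∀ u : ℂ, u.re ∈ KsC v w → DifferentiableAt ℂ G' u)
    (b1 : Bdd (KsC v w) (-(κ + 2 * Q)) G) (b2 : Bdd (KsC v w) (-(κ - 2 * Q)) G') {a b : ℕ}
    (hn : ((a : ℤ) + chgO6 O true) - ((b : ℤ) + chgO6 O false) = Q) :
    Reg p0 κ ((1 - w) * l) ((1 - v) * l) ((a : ℤ) - b)
      (g2 (fun z => G z * potO6 P O true z) (fun z => G' z * potO6 P O false z)) := by
  have hQ : ((a : ℝ) - b) = Q + (chgO6 O false : ℝ) - chgO6 O true := by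
    rw [← hn]
    push_cast
    ring
  have r1 := bdd_potOC hP O true
  have r2 := bdd_potOC hP O false
  simp only [if_true] at r1
  simp only [Bool.false_eq_true, if_false] at r2
  have B1 := (b1.mul r1).rate (s' := -(κ + 2 * (((a : ℤ) - b : ℤ) : ℝ))) (by
    push_cast
    linarith)
  have B2 := (b2.mul r2).rate (s' := -(κ - 2 * (((a : ℤ) - b : ℤ) : ℝ))) (by
    push_cast
    linarith)
  exact reg_p0 (m1.mul (meas_potO6 P O true)) (m2.mul (meas_potO6 P O false))
    (fun u h1 h2 => (d1 u ⟨h1, h2⟩).mul (diff_potOC hP O true ⟨h1, h2⟩))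
    (fun u h1 h2 => (d2 u ⟨h1, h2⟩).mul (diff_potOC hP O false ⟨h1, h2⟩))
    (DecOn_of_Bdd B1 le_rfl) (DecOn_of_Bdd B2 le_rfl)

/-- **Step II, total charge `Q`** -/
theorem gas_pot_leQC {v w : ℝ} {P : Par6} (hP : StC v w P) {D D1 : Bool → ℝ → ℂ}
    (hD : ∀ s, CrvC v w (D s) (D1 s)) (O : Fin r → Xo) {κ : ℝ} (hκ : 0 < κ) {Q : ℤ} {G G' : ℂ → ℂ}
    (m1 : Measurable G) (m2 : Measurable G')
    (d1 : ∀ u : ℂ, u.re ∈ KsC v w → DifferentiableAt ℂ G u)
    (d2 : ∀ u : ℂ, u.re ∈ KsC v w → DifferentiableAt ℂ G' u)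
    (b1 : Bdd (KsC v w) (-(κ + 2 * Q)) G) (b2 : Bdd (KsC v w) (-(κ - 2 * Q)) G') {a b : ℕ}
    (hn : ((a : ℤ) + chgO6 O true) - ((b : ℤ) + chgO6 O false) = Q) :
    ‖gas a b l (fun z => G z * potO6 P O true z) (fun z => G' z * potO6 P O false z)‖ₑ ≤
      ZGC G G' P D D1 O a b := by
  have hl := Bd.l_pos
  have hδ1 := hP.d1
  have hg := reg_potC hP O m1 m2 d1 d2 b1 b2 hn
  obtain ⟨hI, hle⟩ := gas_le hκ (by nlinarith) (hD true) (hD false) a b hg
  have hq1 : qGC G P D O true = fun t => (2 * Real.pi)⁻¹ *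
      ‖G (ptC D true t) * potO6 P O true (ptC D true t)‖ := by
    funext t
    unfold qGC
    rw [norm_mul, norm_potO6]
    ring
  have hq2 : qGC G' P D O false =
      fun t => (2 * Real.pi)⁻¹ * ‖G' (ptC D false t) * potO6 P O false (ptC D false t)‖ := by
    funext t
    unfold qGC
    rw [norm_mul, norm_potO6]
    ring
  unfold ZGC
  rw [hq1, hq2]
  simp_rw [WO_smul]
  rw [← ofReal_integral_eq_lintegral_ofReal]
  · have e1 : ((a.factorial : ℝ≥0∞) * b.factorial)⁻¹ =
        ENNReal.ofReal (((a.factorial : ℝ) * b.factorial)⁻¹) := by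
      rw [ENNReal.ofReal_inv_of_pos (by positivity), ENNReal.ofReal_mul (by positivity),
        ENNReal.ofReal_natCast, ENNReal.ofReal_natCast]
    rw [e1, ← ENNReal.ofReal_mul (by positivity), ← ofReal_norm]
    refine ENNReal.ofReal_le_ofReal (hle.trans (le_of_eq ?_))
    rw [integral_const_mul]
    have h2pi : (2 * Real.pi) ^ (a + b) ≠ 0 := by positivity
    have hf : ((a.factorial : ℝ) * b.factorial) ≠ 0 := by positivity
    rw [inv_pow, mul_inv, mul_assoc]
    rfl
  · exact hI.const_mul _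
  · refine Filter.Eventually.of_forall fun x => ?_
    exact mul_nonneg (by positivity) (NU42.WO_nonneg _ _ _ _ (fun _ => norm_nonneg _)
      (fun _ => norm_nonneg _) _ _)

end PLT

end
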