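import Pool.Agent.PLT.GasV

/-!
# THETA, row T: lists of rows in a general direction against `V` rows of the axis

`RC C V R`: `|Im v| ≤ π / 3`, `|Re v| ≤ 1`, at most `C V` rows, `∑ e^v = V + O(1)`, `∑ e^(-v) = V + O(1)`.

**`gas_RC`**: `‖gas (Lam R) - GV V‖ ≤ GV (V + η) - GV V + 4 exp (8 (V + η) ^ (1/4) - √V / 84)`.
-/

set_option autoImplicit false

noncomputable section

open Complex MeasureTheory Filter Topology Finset

namespace PLT.Nr

open DUA DRX

/-- the lists of rows -/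
structure RC (C V : ℝ) (R : List ℂ) : Prop where
  im : ∀ v ∈ R, |v.im| ≤ Real.pi / 3
  re : ∀ v ∈ R, |v.re| ≤ 1
  len : (R.length : ℝ) ≤ C * V
  p : ‖(R.map fun v => exp v).sum - V‖ ≤ C
  m : ‖(R.map fun v => exp (-v)).sum - V‖ ≤ C

theorem RC.st {C V : ℝ} {R : List ℂ} (h : RC C V R) : ∀ v ∈ R, St v := fun v hv => by
  show |v.im| < Real.pi / 2
  have := h.im v hv
  linarith [Real.pi_pos]

/-! ### one row -/

theorem tau_le_exp {z : ℂ} (hz : |z.im| ≤ Real.pi / 3) : ‖tau z‖ ≤ Real.exp (-(1 / 5 * Real.exp (-|z.re|))) := by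
  have hpi := Real.pi_pos
  have hc : (1 : ℝ) / 2 ≤ Real.cos z.im := by
    rw [← Real.cos_pi_div_three, ← Real.cos_abs z.im]
    exact Real.cos_le_cos_of_nonneg_of_le_pi (abs_nonneg _) (by linarith) hz
  have hc1 := Real.cos_le_one z.im
  have h1 := Real.one_le_cosh z.re
  have hs0 := s3p
  have hs1 := s3_hi
  have hs2 := s3_lo
  have hsq : Real.sqrt 3 ^ 2 = 3 := Real.sq_sqrt (by norm_num)
  have n1 := ker_norm_cosh_add z (Real.sqrt 3 / 2)
  have n2 := ker_norm_cosh_add z (-(Real.sqrt 3 / 2))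
  obtain ⟨A, hA⟩ : ∃ A, A = ‖cosh z + ((Real.sqrt 3 / 2 : ℝ) : ℂ)‖ := ⟨_, rfl⟩
  obtain ⟨B, hB⟩ : ∃ B, B = ‖cosh z - ((Real.sqrt 3 / 2 : ℝ) : ℂ)‖ := ⟨_, rfl⟩
  have hB' : ‖cosh z + ((-(Real.sqrt 3 / 2) : ℝ) : ℂ)‖ = B := by
    rw [hB]
    congr 1
    push_cast
    ring
  rw [hB'] at n2
  rw [← hA] at n1
  have hd : A ^ 2 - B ^ 2 = 2 * Real.sqrt 3 * (Real.cosh z.re * Real.cos z.im) := by
    rw [n1, n2]
    ring
  have hAle : A ≤ 2 * Real.cosh z.re := by
    rw [hA]
    have h2 : ‖cosh z‖ ≤ Real.cosh z.re := by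
      have h3 := ker_norm_cosh_add z 0
      simp only [Complex.ofReal_zero, add_zero] at h3
      have h4 : ‖cosh z‖ ^ 2 ≤ Real.cosh z.re ^ 2 := by
        have h5 : ‖cosh z‖ ^ 2 = (cosh z).re ^ 2 + (cosh z).im ^ 2 := by
          rw [Complex.sq_norm, Complex.normSq_apply]
          ring
        rw [h5, cosh_re, cosh_im]
        have h6 := Real.cosh_sq z.re
        have h7 := Real.sin_sq_add_cos_sq z.im
        nlinarith [sq_nonneg (Real.sin z.im)]
      exact le_of_sq_le_sq h4 (by linarith)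
    calc ‖cosh z + ((Real.sqrt 3 / 2 : ℝ) : ℂ)‖ ≤ ‖cosh z‖ + ‖((Real.sqrt 3 / 2 : ℝ) : ℂ)‖ := norm_add_le _ _
      _ ≤ Real.cosh z.re + 1 := by
          refine add_le_add h2 ?_
          rw [Complex.norm_real, Real.norm_of_nonneg (by positivity)]
          linarith
      _ ≤ _ := by linarith
  have hA0 : 0 < A := by
    have : 0 < A ^ 2 := by
      have h2 : 0 < 2 * Real.sqrt 3 * (Real.cosh z.re * Real.cos z.im) := by positivity
      nlinarith [sq_nonneg B]
    have h3 : 0 ≤ A := by rw [hA]; exact norm_nonneg _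
    exact lt_of_le_of_ne h3 fun h => by rw [← h] at this; norm_num at this
  have ht : ‖tau z‖ = B / A := by
    rw [tau_eq, norm_div, ← hA, ← hB]
  have hE : Real.exp (-|z.re|) * Real.cosh z.re ≤ 1 := by
    have h2 := cosh_le_exp_abs z.re
    calc Real.exp (-|z.re|) * Real.cosh z.re ≤ Real.exp (-|z.re|) * Real.exp |z.re| :=
          mul_le_mul_of_nonneg_left h2 (Real.exp_pos _).le
      _ = 1 := by rw [← Real.exp_add]; simp
  have hE0 := Real.exp_pos (-|z.re|)
  have h2 : ‖tau z‖ ^ 2 ≤ 1 - 2 / 5 * Real.exp (-|z.re|) := by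
    rw [ht, div_pow, div_le_iff₀ (by positivity)]
    have h3 : 2 / 5 * Real.exp (-|z.re|) * A ^ 2 ≤ 2 * Real.sqrt 3 * (Real.cosh z.re * Real.cos z.im) := by
      calc 2 / 5 * Real.exp (-|z.re|) * A ^ 2 ≤ 2 / 5 * Real.exp (-|z.re|) * (2 * Real.cosh z.re) ^ 2 := by
            refine mul_le_mul_of_nonneg_left (pow_le_pow_left₀ hA0.le hAle 2) (by positivity)
        _ = 8 / 5 * (Real.exp (-|z.re|) * Real.cosh z.re) * Real.cosh z.re := by ring
        _ ≤ 8 / 5 * 1 * Real.cosh z.re := by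
            refine mul_le_mul_of_nonneg_right (mul_le_mul_of_nonneg_left hE (by norm_num)) (by linarith)
        _ ≤ 2 * Real.sqrt 3 * (Real.cosh z.re * (1 / 2)) := by nlinarith
        _ ≤ _ := by
            refine mul_le_mul_of_nonneg_left (mul_le_mul_of_nonneg_left hc (by linarith)) (by positivity)
    nlinarith
  have h3 : (1 : ℝ) - 2 / 5 * Real.exp (-|z.re|) ≤ Real.exp (-(1 / 5 * Real.exp (-|z.re|))) ^ 2 := by
    rw [← Real.exp_nat_mul]
    have h4 := Real.add_one_le_exp (((2 : ℕ) : ℝ) * -(1 / 5 * Real.exp (-|z.re|)))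
    push_cast at h4 ⊢
    linarith
  exact le_of_sq_le_sq (h2.trans h3) (Real.exp_pos _).le

theorem exp14 : 1 / 14 ≤ 1 / 5 * Real.exp (-1) := by
  have h := Real.exp_one_lt_d9
  rw [Real.exp_neg]
  have h0 := Real.exp_pos (1 : ℝ)
  have : (2.7182818286 : ℝ)⁻¹ ≤ (Real.exp 1)⁻¹ := inv_anti₀ h0 h.le
  norm_num at this ⊢
  linarith

theorem lam_le {R : List ℂ} (him : ∀ v ∈ R, |v.im| ≤ Real.pi / 3) (hre : ∀ v ∈ R, |v.re| ≤ 1) (x : ℝ) :
    ‖Lam R (x : ℂ)‖ ≤ Real.exp (-(R.length / 14 * Real.exp (-|x|))) := by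
  induction R with
  | nil => simp [Lam_nil]
  | cons v R ih =>
    rw [Lam_cons, norm_mul]
    have h1 : ‖tau (v - x)‖ ≤ Real.exp (-(1 / 14 * Real.exp (-|x|))) := by
      have hi : |(v - (x : ℂ)).im| ≤ Real.pi / 3 := by
        simpa using him v List.mem_cons_self
      refine (tau_le_exp hi).trans (Real.exp_le_exp.2 ?_)
      have hr : |(v - (x : ℂ)).re| ≤ 1 + |x| := by
        have := hre v List.mem_cons_self
        rw [Complex.sub_re, Complex.ofReal_re]
        exact (abs_sub _ _).trans (by linarith)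
      have h2 : Real.exp (-1) * Real.exp (-|x|) ≤ Real.exp (-|(v - (x : ℂ)).re|) := by
        rw [← Real.exp_add]
        exact Real.exp_le_exp.2 (by linarith)
      have h3 := exp14
      have h4 := Real.exp_pos (-|x|)
      nlinarith
    have h2 := ih (fun u hu => him u (List.mem_cons_of_mem _ hu)) fun u hu => hre u (List.mem_cons_of_mem _ hu)
    refine (mul_le_mul h1 h2 (norm_nonneg _) (Real.exp_pos _).le).trans (le_of_eq ?_)
    rw [← Real.exp_add, List.length_cons]
    congr 1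
    push_cast
    ring

/-! ### the edges -/

/-- the sign at the edge -/
def sg (x : ℝ) : ℂ := if 0 ≤ x then 1 else -1

theorem sg_mul (x : ℝ) : sg x * (x : ℂ) = ((|x| : ℝ) : ℂ) := by
  unfold sg
  split_ifs with h
  · rw [abs_of_nonneg h, one_mul]
  · rw [abs_of_neg (not_le.1 h)]
    push_cast
    ring

theorem sg_re (x : ℝ) (v : ℂ) : (sg x * v).re ≤ |v.re| := by
  unfold sg
  split_ifs
  · rw [one_mul]; exact le_abs_self _
  · rw [neg_one_mul, Complex.neg_re]; exact neg_le_abs _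

theorem exp_neg_two : Real.exp (-2) ≤ 1 / 4 := by
  rw [Real.exp_neg, inv_le_comm₀ (Real.exp_pos _) (by norm_num)]
  have := Real.exp_one_gt_d9
  have h3 : Real.exp 2 = Real.exp 1 * Real.exp 1 := by rw [← Real.exp_add]; norm_num
  rw [h3]
  nlinarith

theorem exp_one_cube : Real.exp 1 ^ 3 ≤ 21 := by
  have h := Real.exp_one_lt_d9
  calc Real.exp 1 ^ 3 ≤ (2.7182818286 : ℝ) ^ 3 := pow_le_pow_left₀ (Real.exp_pos _).le h.le 3
    _ ≤ 21 := by norm_num

theorem wv_norm {x : ℝ} {v : ℂ} (hv : |v.re| ≤ 1) : ‖exp (sg x * v - ((|x| : ℝ) : ℂ))‖ ≤ Real.exp 1 * Real.exp (-|x|) := by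
  rw [Complex.norm_exp, ← Real.exp_add, Complex.sub_re, Complex.ofReal_re]
  refine Real.exp_le_exp.2 ?_
  have := sg_re x v
  linarith

theorem tau_edge {x : ℝ} (hx : 3 ≤ |x|) {v : ℂ} (hv : |v.re| ≤ 1) :
    tau (v - x) = exp (ll (exp (sg x * v - ((|x| : ℝ) : ℂ)))) := by
  refine tau_exp ?_ ?_
  · unfold sg
    split_ifs with h
    · left
      rw [abs_of_nonneg h, one_mul]
    · right
      rw [abs_of_neg (not_le.1 h)]
      congr 1
      push_cast
      ring
  · refine (wv_norm hv).trans ?_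
    rw [← Real.exp_add]
    refine le_trans (Real.exp_le_exp.2 ?_) exp_neg_two
    linarith

/-- the logarithm of the field at the edge -/
theorem lam_edge {R : List ℂ} (hre : ∀ v ∈ R, |v.re| ≤ 1) {x : ℝ} (hx : 3 ≤ |x|) :
    ∃ E : ℂ, Lam R (x : ℂ) = exp E ∧
      ‖E + 2 * (Real.sqrt 3 : ℝ) * (Real.exp (-|x|) : ℝ) * (R.map fun v => exp (sg x * v)).sum‖ ≤
        315 * R.length * Real.exp (-|x|) ^ 3 := by
  induction R with
  | nil => exact ⟨0, by simp [Lam_nil], by simp⟩
  | cons v R ih =>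
    obtain ⟨E, hE, hE'⟩ := ih fun u hu => hre u (List.mem_cons_of_mem _ hu)
    have hv := hre v List.mem_cons_self
    set w := exp (sg x * v - ((|x| : ℝ) : ℂ)) with hw
    have hwn := wv_norm (x := x) hv
    rw [← hw] at hwn
    have hw4 : ‖w‖ ≤ 1 / 4 := by
      refine hwn.trans ?_
      rw [← Real.exp_add]
      exact le_trans (Real.exp_le_exp.2 (by linarith)) exp_neg_two
    refine ⟨ll w + E, ?_, ?_⟩
    · rw [Lam_cons, hE, tau_edge hx hv, exp_add]
    · have h1 := ll_near hw4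
      have h3 : ‖w‖ ^ 3 ≤ 21 * Real.exp (-|x|) ^ 3 := by
        calc ‖w‖ ^ 3 ≤ (Real.exp 1 * Real.exp (-|x|)) ^ 3 := pow_le_pow_left₀ (norm_nonneg _) hwn 3
          _ = Real.exp 1 ^ 3 * Real.exp (-|x|) ^ 3 := mul_pow _ _ _
          _ ≤ _ := mul_le_mul_of_nonneg_right exp_one_cube (by positivity)
      have ew : w = ((Real.exp (-|x|) : ℝ) : ℂ) * exp (sg x * v) := by
        rw [hw, sub_eq_add_neg, exp_add, Complex.ofReal_exp]
        push_cast
        ring
      have e : ll w + E + 2 * (Real.sqrt 3 : ℝ) * (Real.exp (-|x|) : ℝ) *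
            ((v :: R).map fun v => exp (sg x * v)).sum =
          (ll w + 2 * (Real.sqrt 3 : ℝ) * w) +
            (E + 2 * (Real.sqrt 3 : ℝ) * (Real.exp (-|x|) : ℝ) * (R.map fun v => exp (sg x * v)).sum) := by
        rw [List.map_cons, List.sum_cons, ew]
        ring
      rw [e]
      refine (norm_add_le _ _).trans ?_
      rw [List.length_cons, Nat.cast_succ]
      nlinarith

/-- the field at the edge against `V` rows of the axis -/
theorem lam_near {C V : ℝ} {R : List ℂ} (hC : 0 ≤ C) (hV : 1 ≤ V) (h : RC C V R) {x : ℝ} (hx : 3 ≤ |x|)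
    (hx2 : V * Real.exp (-|x|) ^ 2 ≤ 1) (hs : 2 * (320 * C + 15) * Real.exp (-|x|) ≤ 1) :
    ‖Lam R (x : ℂ) - ((L0 x ^ V : ℝ) : ℂ)‖ ≤ L0 x ^ V * (4 * (320 * C + 15) * Real.exp (-|x|)) := by
  obtain ⟨E, hE, hE'⟩ := lam_edge h.re hx
  have hax := ll_axis (x := x) (by linarith)
  set e : ℝ := Real.exp (-|x|) with he
  have he0 : 0 < e := Real.exp_pos _
  have eC : exp (-((|x| : ℝ) : ℂ)) = (e : ℂ) := by
    rw [he, Complex.ofReal_exp]
    push_cast
    rfl
  rw [eC] at hax
  have he4 : ‖(e : ℂ)‖ ≤ 1 / 4 := by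
    rw [Complex.norm_real, Real.norm_of_nonneg he0.le, he]
    exact le_trans (Real.exp_le_exp.2 (by linarith)) exp_neg_two
  have h1 := ll_near he4
  rw [hax, Complex.norm_real, Real.norm_of_nonneg he0.le] at h1
  have hsum : ‖(R.map fun v => exp (sg x * v)).sum - V‖ ≤ C := by
    unfold sg
    split_ifs
    · simpa only [one_mul] using h.p
    · simpa only [neg_one_mul] using h.m
  set S : ℂ := (R.map fun v => exp (sg x * v)).sum with hS
  set D : ℂ := E + ((V * nl x : ℝ) : ℂ) with hD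
  have hV0 : (0 : ℝ) ≤ V := by linarith
  have hDn : ‖D‖ ≤ (320 * C + 15) * (e + V * e ^ 3) := by
    have e1 : D = (E + 2 * (Real.sqrt 3 : ℝ) * (e : ℝ) * S) - (V : ℂ) * (-(nl x : ℂ) + 2 * (Real.sqrt 3 : ℝ) * (e : ℂ)) -
        2 * (Real.sqrt 3 : ℝ) * (e : ℂ) * (S - V) := by
      rw [hD]
      push_cast
      ring
    have n1 : ‖(V : ℂ) * (-(nl x : ℂ) + 2 * (Real.sqrt 3 : ℝ) * (e : ℂ))‖ ≤ V * (15 * e ^ 3) := by
      rw [norm_mul, Complex.norm_real, Real.norm_of_nonneg hV0]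
      exact mul_le_mul_of_nonneg_left h1 hV0
    have n2 : ‖2 * ((Real.sqrt 3 : ℝ) : ℂ) * (e : ℂ) * (S - V)‖ ≤ 4 * e * C := by
      rw [norm_mul, norm_mul, norm_mul, Complex.norm_real, Complex.norm_real, Real.norm_of_nonneg s3p.le,
        Real.norm_of_nonneg he0.le]
      have h2 : ‖(2 : ℂ)‖ = 2 := by norm_num
      rw [h2]
      have h3 := s3_hi
      refine mul_le_mul ?_ hsum (norm_nonneg _) (by positivity)
      exact mul_le_mul_of_nonneg_right (by linarith) he0.le
    have n3 := norm_sub_le ((E + 2 * (Real.sqrt 3 : ℝ) * (e : ℝ) * S) - (V : ℂ) * (-(nl x : ℂ) + 2 * (Real.sqrt 3 : ℝ) * (e : ℂ)))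
      (2 * (Real.sqrt 3 : ℝ) * (e : ℂ) * (S - V))
    have n4 := norm_sub_le (E + 2 * (Real.sqrt 3 : ℝ) * (e : ℝ) * S) ((V : ℂ) * (-(nl x : ℂ) + 2 * (Real.sqrt 3 : ℝ) * (e : ℂ)))
    rw [e1]
    have n5 : 315 * (R.length : ℝ) * e ^ 3 ≤ 315 * (C * V) * e ^ 3 :=
      mul_le_mul_of_nonneg_right (mul_le_mul_of_nonneg_left h.len (by norm_num)) (by positivity)
    have n6 : 0 ≤ C * V * e ^ 3 := by positivity
    have n7 : 0 ≤ C * e := by positivity
    have n8 : 0 ≤ V * e ^ 3 := by positivity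
    nlinarith
  have hDs : ‖D‖ ≤ 2 * (320 * C + 15) * e := by
    refine hDn.trans ?_
    have h2 : V * e ^ 3 ≤ e := by
      calc V * e ^ 3 = (V * e ^ 2) * e := by ring
        _ ≤ 1 * e := mul_le_mul_of_nonneg_right hx2 he0.le
        _ = e := one_mul _
    nlinarith
  have hD1 : ‖D‖ ≤ 1 := hDs.trans hs
  have e2 : Lam R (x : ℂ) - ((L0 x ^ V : ℝ) : ℂ) = ((L0 x ^ V : ℝ) : ℂ) * (exp D - 1) := by
    rw [hE, L0_rpow, Complex.ofReal_exp, mul_sub, mul_one, ← exp_add]
    congr 2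
    rw [hD]
    push_cast
    ring
  have hL : 0 ≤ L0 x ^ V := Real.rpow_nonneg (L0_pos x).le V
  rw [e2, norm_mul, Complex.norm_real, Real.norm_of_nonneg hL]
  refine mul_le_mul_of_nonneg_left ?_ hL
  have h3 := Complex.norm_exp_sub_one_le (x := D) hD1
  linarith

/-- **a list of rows against `V` rows of the axis** -/
theorem gas_RC {C : ℝ} (hC : 1 ≤ C) : ∃ η V0 : ℝ, 0 ≤ η ∧ 1 ≤ V0 ∧ ∀ V : ℝ, V0 ≤ V → ∀ R : List ℂ, RC C V R →
    ‖gas (fun x => Lam R (x : ℂ)) - GV V‖ ≤ GV (V + η) - GV V +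
      4 * Real.exp (8 * (V + η) ^ (1 / 4 : ℝ) - Real.sqrt V / 84) := by
  obtain ⟨K, hK⟩ : ∃ K : ℝ, K = 320 * C + 15 := ⟨_, rfl⟩
  have hK0 : 300 ≤ K := by linarith
  refine ⟨10 * K, (270 * K) ^ 2, by linarith, by nlinarith, fun V hV R h => ?_⟩
  have hV1 : (1 : ℝ) ≤ V := by nlinarith
  have hV0 : (0 : ℝ) ≤ V := by linarith
  have hVp : (0 : ℝ) < V := by linarith
  have hsq : 270 * K ≤ Real.sqrt V := Real.le_sqrt_of_sq_le hV
  have hsp : 0 < Real.sqrt V := Real.sqrt_pos.2 hVp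
  have hss : Real.sqrt V * Real.sqrt V = V := Real.mul_self_sqrt hV0
  have hn : V / 6 ≤ R.length := by
    have h1 : ‖(R.map fun v => exp v).sum‖ ≤ 3 * R.length := by
      have h2 : ∀ L : List ℂ, (∀ v ∈ L, |v.re| ≤ 1) → ‖(L.map fun v => exp v).sum‖ ≤ 3 * L.length := by
        intro L hL
        induction L with
        | nil => simp
        | cons v L ih =>
          rw [List.map_cons, List.sum_cons, List.length_cons]
          have h3 : ‖exp v‖ ≤ 3 := by
            rw [Complex.norm_exp]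
            have h4 := (abs_le.1 (hL v List.mem_cons_self)).2
            have h5 := Real.exp_one_lt_d9
            have h6 := Real.exp_le_exp.2 h4
            linarith
          have h7 := ih fun u hu => hL u (List.mem_cons_of_mem _ hu)
          have h8 := norm_add_le (exp v) ((L.map fun v => exp v).sum)
          push_cast
          linarith
      exact h2 R h.re
    have h2 : V ≤ ‖(R.map fun v => exp v).sum‖ + C := by
      have h3 : (V : ℂ) = (R.map fun v => exp v).sum - ((R.map fun v => exp v).sum - V) := by ring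
      have h4 : ‖(V : ℂ)‖ = V := by rw [Complex.norm_real, Real.norm_of_nonneg hV0]
      have h5 := norm_sub_le ((R.map fun v => exp v).sum) ((R.map fun v => exp v).sum - V)
      rw [← h3, h4] at h5
      linarith [h.p]
    have h3 : C ≤ V / 2 := by nlinarith
    linarith
  obtain ⟨e1, he1⟩ : ∃ e1 : ℝ, e1 = Real.exp (-(Real.sqrt V / 84)) := ⟨_, rfl⟩
  have he10 : 0 < e1 := by rw [he1]; exact Real.exp_pos _
  have he14 : e1 ≤ 1 / 4 := by
    rw [he1]
    refine le_trans (Real.exp_le_exp.2 ?_) exp_neg_two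
    linarith
  -- the dichotomy
  have hbulk : ∀ x : ℝ, Real.sqrt V * Real.exp (-|x|) < 1 ∨ 1 ≤ Real.sqrt V * Real.exp (-|x|) := fun x =>
    lt_or_ge _ _
  have hedge : ∀ x : ℝ, Real.sqrt V * Real.exp (-|x|) < 1 → 3 ≤ |x| ∧ V * Real.exp (-|x|) ^ 2 ≤ 1 ∧
      270 * K * Real.exp (-|x|) ≤ 1 := by
    intro x hx
    have hE := Real.exp_pos (-|x|)
    have h1 : 270 * K * Real.exp (-|x|) ≤ 1 := by nlinarith
    refine ⟨?_, ?_, h1⟩
    · by_contra hcon
      push Not at hcon
      have h2 : Real.exp (-3) ≤ Real.exp (-|x|) := Real.exp_le_exp.2 (by linarith)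
      have h3 : 1 / 27 ≤ Real.exp (-3) := by
        rw [Real.exp_neg, one_div]
        refine inv_anti₀ (Real.exp_pos _) ?_
        have h4 : Real.exp 3 = Real.exp 1 ^ 3 := by rw [← Real.exp_nat_mul]; norm_num
        rw [h4]
        have := exp_one_cube
        linarith
      nlinarith
    · have h2 : V * Real.exp (-|x|) ^ 2 = (Real.sqrt V * Real.exp (-|x|)) ^ 2 := by
        rw [mul_pow, Real.sq_sqrt hV0]
      rw [h2]
      have h3 : 0 ≤ Real.sqrt V * Real.exp (-|x|) := by positivity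
      nlinarith
  -- the fields
  have hst := h.st
  obtain ⟨A, hA0, hA⟩ := Lam_decay kerH R hst
  have hL : (fun x : ℝ => Lam R (x : ℂ)) ∈ DRX.Kc A := by
    refine ⟨Lam_cont kerH R hst, fun x => (hA x).trans (le_of_eq ?_)⟩
    unfold ew
    rw [zero_sub, abs_neg]
  have ha := aV_Fa hV0
  have hη : (0 : ℝ) ≤ V + 10 * K := by linarith
  have hb := aV_Fa hη
  have hd : Fa fun x => ‖(1 - Lam R (x : ℂ)) - (aV V x : ℂ)‖ := by
    obtain ⟨B, hB⟩ := ha.b
    refine ⟨?_, fun x => norm_nonneg _, A + B, fun x => ?_⟩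
    · exact ((continuous_const.sub hL.1).sub (Complex.continuous_ofReal.comp ha.c)).norm
    · have h1 := norm_sub_le (1 - Lam R (x : ℂ)) (aV V x : ℂ)
      have h2 := hL.2 x
      rw [norm_sub_rev] at h2
      rw [Complex.norm_real, Real.norm_of_nonneg (ha.nn x)] at h1
      rw [add_mul]
      linarith [hB x]
  have hnear := gas_near hL ha hd fun x => le_rfl
  -- the pointwise comparison
  have hpt : ∀ x : ℝ, aV V x + ‖(1 - Lam R (x : ℂ)) - (aV V x : ℂ)‖ ≤ (1 + 4 * e1) * aV (V + 10 * K) x := by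
    intro x
    have hLn : 0 ≤ L0 x ^ V := Real.rpow_nonneg (L0_pos x).le V
    have e2 : (1 - Lam R (x : ℂ)) - (aV V x : ℂ) = -(Lam R (x : ℂ) - ((L0 x ^ V : ℝ) : ℂ)) := by
      unfold aV
      push_cast
      ring
    rw [e2, norm_neg]
    have hE := Real.exp_pos (-|x|)
    have hb0 := hb.nn x
    rcases hbulk x with hx | hx
    · obtain ⟨x3, x2, x1⟩ := hedge x hx
      have h1 := lam_near (by linarith) hV1 h x3 x2 (by rw [← hK]; nlinarith)
      rw [← hK] at h1
      -- the gain of the larger content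
      have h2 : L0 x ^ (V + 10 * K) = L0 x ^ V * Real.exp (-(10 * K * nl x)) := by
        rw [L0_rpow, L0_rpow, ← Real.exp_add]
        congr 1
        ring
      have hy0 : 0 ≤ 10 * K * nl x := mul_nonneg (by linarith) (nl_pos x).le
      have hy1 : 10 * K * nl x ≤ 1 := by
        have := mul_le_mul_of_nonneg_left (nl_le x) (show (0 : ℝ) ≤ 10 * K by linarith)
        linarith
      have h3 : Real.exp (-(10 * K * nl x)) ≤ 1 - 10 * K * nl x / 2 := by
        have h4 := Real.add_one_le_exp (10 * K * nl x)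
        have h5 : Real.exp (-(10 * K * nl x)) * Real.exp (10 * K * nl x) = 1 := by
          rw [← Real.exp_add]; simp
        have h6 := Real.exp_pos (-(10 * K * nl x))
        nlinarith
      have h4 : 4 * K * Real.exp (-|x|) ≤ 10 * K * nl x / 2 := by
        have := mul_le_mul_of_nonneg_left (nl_ge x) (show (0 : ℝ) ≤ 5 * K by linarith)
        linarith
      have h5 : aV V x + L0 x ^ V * (4 * K * Real.exp (-|x|)) ≤ aV (V + 10 * K) x := by
        unfold aV
        rw [h2]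
        nlinarith
      have h6 : 0 ≤ 4 * e1 * aV (V + 10 * K) x := by positivity
      calc aV V x + ‖Lam R (x : ℂ) - ((L0 x ^ V : ℝ) : ℂ)‖ ≤ aV (V + 10 * K) x := by linarith
        _ ≤ _ := by linarith
    · have hLR := lam_le h.im h.re x
      have h1 : ‖Lam R (x : ℂ)‖ ≤ e1 := by
        refine hLR.trans ?_
        rw [he1]
        refine Real.exp_le_exp.2 ?_
        have h2 : Real.sqrt V / 84 ≤ R.length / 14 * Real.exp (-|x|) := by
          have key : V * (1 / Real.sqrt V) = Real.sqrt V := by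
            rw [mul_one_div, div_eq_iff hsp.ne', hss]
          calc Real.sqrt V / 84 = V * (1 / Real.sqrt V) / 84 := by rw [key]
            _ = V / 6 / 14 * (1 / Real.sqrt V) := by ring
            _ ≤ R.length / 14 * Real.exp (-|x|) := by
                refine mul_le_mul (div_le_div_of_nonneg_right hn (by norm_num)) ?_ (by positivity) (by positivity)
                rw [div_le_iff₀ hsp]
                linarith
        linarith
      have h2 : L0 x ^ (V + 10 * K) ≤ e1 := by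
        rw [L0_rpow, he1]
        refine Real.exp_le_exp.2 ?_
        have h3 : Real.sqrt V / 84 ≤ (V + 10 * K) * nl x := by
          have h4 := nl_ge x
          calc Real.sqrt V / 84 ≤ Real.sqrt V * (4 / 5) := by nlinarith
            _ ≤ Real.sqrt V * (4 / 5) * (Real.sqrt V * Real.exp (-|x|)) :=
                le_mul_of_one_le_right (by positivity) hx
            _ = V * (4 / 5 * Real.exp (-|x|)) := by linear_combination (4 / 5 * Real.exp (-|x|)) * hss
            _ ≤ V * nl x := mul_le_mul_of_nonneg_left h4 hV0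
            _ ≤ (V + 10 * K) * nl x := mul_le_mul_of_nonneg_right (by linarith) (nl_pos x).le
        linarith
      have h3 : aV V x + ‖Lam R (x : ℂ) - ((L0 x ^ V : ℝ) : ℂ)‖ ≤ 1 + e1 := by
        have h4 := norm_sub_le (Lam R (x : ℂ)) ((L0 x ^ V : ℝ) : ℂ)
        rw [Complex.norm_real, Real.norm_of_nonneg hLn] at h4
        unfold aV
        linarith
      have h4 : 1 - e1 ≤ aV (V + 10 * K) x := by
        unfold aV
        linarith
      nlinarith
  have h1 : Gp (fun x => aV V x + ‖(1 - Lam R (x : ℂ)) - (aV V x : ℂ)‖) ≤ Gp fun x => (1 + 4 * e1) * aV (V + 10 * K) x :=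
    Gp_mono (ha.add hd) (hb.smul (by linarith)) hpt
  have h2 := Gp_scale hb (aV_int (V := V + 10 * K) (by linarith)) (e := 4 * e1) (by linarith) (by linarith)
  have h3 : 4 * e1 * Real.exp (2 * (z0 * (7 / 2) * (24 * (V + 10 * K) ^ (1 / 4 : ℝ)))) ≤
      4 * Real.exp (8 * (V + 10 * K) ^ (1 / 4 : ℝ) - Real.sqrt V / 84) := by
    have h4 : Real.exp (8 * (V + 10 * K) ^ (1 / 4 : ℝ) - Real.sqrt V / 84) =
        e1 * Real.exp (8 * (V + 10 * K) ^ (1 / 4 : ℝ)) := by
      rw [he1, ← Real.exp_add]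
      congr 1
      ring
    rw [h4, mul_assoc]
    refine mul_le_mul_of_nonneg_left (mul_le_mul_of_nonneg_left (Real.exp_le_exp.2 ?_) he10.le) (by norm_num)
    have h5 := z0_le
    have h6 : 0 ≤ (V + 10 * K) ^ (1 / 4 : ℝ) := by positivity
    nlinarith
  unfold GV
  linarith

end PLT.Nr

end
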