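import Pool.Agent.PLT.Pos

/-!
# THETA, row T: the field of a list of rows against the field `L0 ^ V` of `V` rows on the axis

* `L0 x`: one row at `0` on the central line, `0 < L0 < 1`; `aV V = 1 - L0 ^ V`, `V` real; `GV V = Gp (aV V)`;
* `RC C V R`: the lists `R` of rows (`|Im v| ≤ π / 3`, `|Re v| ≤ 1`) with `∑ e^v`, `∑ e^(-v)` `= V + O(1)`;
* **`gas_RC`**: `‖gas (Lam R) - GV V‖ ≤ GV (V + η) - GV V + exp (- √V / 100)`-small.
-/

set_option autoImplicit false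

noncomputable section

open Complex MeasureTheory Filter Topology Finset

namespace PLT.Nr

open DUA DRX

/-! ### one row on the central line -/

/-- one row at `0` -/
def L0 (x : ℝ) : ℝ := (Real.cosh x - Real.sqrt 3 / 2) / (Real.cosh x + Real.sqrt 3 / 2)

theorem s3p : 0 < Real.sqrt 3 := Real.sqrt_pos.2 (by norm_num)

theorem s3_lo : (1.732 : ℝ) ≤ Real.sqrt 3 := Real.le_sqrt_of_sq_le (by norm_num)

theorem s3_hi : Real.sqrt 3 ≤ 1.7321 := by
  rw [Real.sqrt_le_left (by norm_num)]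
  norm_num

theorem num_pos (x : ℝ) : 0 < Real.cosh x - Real.sqrt 3 / 2 := by
  have h1 := Real.one_le_cosh x
  have h2 := s3_hi
  linarith

theorem den_pos (x : ℝ) : 0 < Real.cosh x + Real.sqrt 3 / 2 := by
  have h1 := Real.one_le_cosh x
  have h2 := s3p
  linarith

theorem L0_pos (x : ℝ) : 0 < L0 x := div_pos (num_pos x) (den_pos x)

theorem L0_lt (x : ℝ) : L0 x < 1 := by
  unfold L0
  rw [div_lt_one (den_pos x)]
  have := s3p
  linarith

theorem L0_cont : Continuous L0 := by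
  unfold L0
  refine (Real.continuous_cosh.sub continuous_const).div (Real.continuous_cosh.add continuous_const)
    fun x => (den_pos x).ne'

theorem L0_neg (x : ℝ) : L0 (-x) = L0 x := by
  unfold L0
  rw [Real.cosh_neg]

theorem L0_abs (x : ℝ) : L0 |x| = L0 x := by
  unfold L0
  rw [Real.cosh_abs]

theorem tau_L0 (x : ℝ) : tau (x : ℂ) = (L0 x : ℂ) := by
  rw [tau_eq]
  unfold L0
  push_cast
  rfl

theorem cosh_le_exp_abs (x : ℝ) : Real.cosh x ≤ Real.exp |x| := ker_cosh_le_exp x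

theorem exp_abs_le_cosh (x : ℝ) : Real.exp |x| / 2 ≤ Real.cosh x := ker_exp_le_cosh x

theorem one_sub_L0 (x : ℝ) : 1 - L0 x = Real.sqrt 3 / (Real.cosh x + Real.sqrt 3 / 2) := by
  unfold L0
  rw [eq_div_iff (den_pos x).ne', sub_mul, div_mul_cancel₀ _ (den_pos x).ne']
  ring

theorem one_sub_L0_ge (x : ℝ) : 4 / 5 * Real.exp (-|x|) ≤ 1 - L0 x := by
  rw [one_sub_L0, le_div_iff₀ (den_pos x)]
  have h1 := cosh_le_exp_abs x
  have h2 := Real.one_le_cosh x
  have h3 := s3_hi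
  have h4 := s3_lo
  have h5 : Real.exp (-|x|) * Real.exp |x| = 1 := by rw [← Real.exp_add]; simp
  have h6 := Real.exp_pos (-|x|)
  have h7 : Real.cosh x + Real.sqrt 3 / 2 ≤ 2 * Real.exp |x| := by linarith
  calc 4 / 5 * Real.exp (-|x|) * (Real.cosh x + Real.sqrt 3 / 2)
      ≤ 4 / 5 * Real.exp (-|x|) * (2 * Real.exp |x|) := mul_le_mul_of_nonneg_left h7 (by positivity)
    _ = 8 / 5 := by linear_combination 8 / 5 * h5
    _ ≤ Real.sqrt 3 := by linarith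

/-- `- log L0` -/
def nl (x : ℝ) : ℝ := -Real.log (L0 x)

theorem nl_ge (x : ℝ) : 4 / 5 * Real.exp (-|x|) ≤ nl x := by
  unfold nl
  have h := Real.log_le_sub_one_of_pos (L0_pos x)
  have h2 := one_sub_L0_ge x
  linarith

theorem nl_pos (x : ℝ) : 0 < nl x := lt_of_lt_of_le (by positivity) (nl_ge x)

theorem nl_le (x : ℝ) : nl x ≤ 27 * Real.exp (-|x|) := by
  unfold nl
  have h := Real.one_sub_inv_le_log_of_pos (L0_pos x)
  have h2 : (L0 x)⁻¹ - 1 = Real.sqrt 3 / (Real.cosh x - Real.sqrt 3 / 2) := by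
    unfold L0
    have h3 := num_pos x
    rw [inv_div, eq_div_iff h3.ne', sub_mul, div_mul_cancel₀ _ h3.ne']
    ring
  have h4 : Real.sqrt 3 / (Real.cosh x - Real.sqrt 3 / 2) ≤ 27 * Real.exp (-|x|) := by
    rw [div_le_iff₀ (num_pos x)]
    have h5 := exp_abs_le_cosh x
    have h6 := Real.one_le_cosh x
    have h7 := s3_hi
    have h8 : Real.exp (-|x|) * Real.exp |x| = 1 := by rw [← Real.exp_add]; simp
    have h9 := Real.exp_pos (-|x|)
    have h10 : 0.13395 * (Real.exp |x| / 2) ≤ Real.cosh x - Real.sqrt 3 / 2 := by nlinarith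
    calc Real.sqrt 3 ≤ 27 * 0.13395 / 2 := by linarith
      _ = 27 * Real.exp (-|x|) * (0.13395 * (Real.exp |x| / 2)) := by linear_combination (-(27 * 0.13395 / 2)) * h8
      _ ≤ _ := mul_le_mul_of_nonneg_left h10 (by positivity)
  linarith

theorem L0_rpow (V x : ℝ) : L0 x ^ V = Real.exp (-(V * nl x)) := by
  rw [Real.rpow_def_of_pos (L0_pos x)]
  congr 1
  unfold nl
  ring

/-! ### the fields of the axis -/

/-- the field of `V` rows, `V` real -/
def aV (V : ℝ) (x : ℝ) : ℝ := 1 - L0 x ^ V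

theorem aV_eq (V x : ℝ) : aV V x = 1 - Real.exp (-(V * nl x)) := by
  unfold aV
  rw [L0_rpow]

theorem aV_le_one (V x : ℝ) : aV V x ≤ 1 := by
  unfold aV
  have := Real.rpow_nonneg (L0_pos x).le V
  linarith

theorem aV_nonneg {V : ℝ} (hV : 0 ≤ V) (x : ℝ) : 0 ≤ aV V x := by
  rw [aV_eq]
  have : Real.exp (-(V * nl x)) ≤ 1 := Real.exp_le_one_iff.2 (by have := mul_nonneg hV (nl_pos x).le; linarith)
  linarith

theorem aV_le {V : ℝ} (hV : 0 ≤ V) (x : ℝ) : aV V x ≤ 27 * V * Real.exp (-|x|) := by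
  rw [aV_eq]
  have h1 := Real.add_one_le_exp (-(V * nl x))
  have h2 := mul_le_mul_of_nonneg_left (nl_le x) hV
  linarith

theorem aV_mono {V W : ℝ} (h : V ≤ W) (x : ℝ) : aV V x ≤ aV W x := by
  rw [aV_eq, aV_eq]
  have := mul_le_mul_of_nonneg_right h (nl_pos x).le
  have h2 : Real.exp (-(W * nl x)) ≤ Real.exp (-(V * nl x)) := Real.exp_le_exp.2 (by linarith)
  linarith

theorem aV_Fa {V : ℝ} (hV : 0 ≤ V) : Fa (aV V) where
  c := by
    unfold aV
    exact continuous_const.sub (L0_cont.rpow_const fun x => Or.inl (L0_pos x).ne')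
  nn := aV_nonneg hV
  b := ⟨27 * V, aV_le hV⟩

/-- the integral of the field -/
theorem aV_int {V : ℝ} (hV : 1 ≤ V) : ∫ x, aV V x ≤ 24 * V ^ (1 / 4 : ℝ) := by
  have h0 : (0 : ℝ) ≤ V := by linarith
  have hp : ∀ x, aV V x ≤ 3 * V ^ (1 / 4 : ℝ) * Real.exp (-(1 / 4 * |x|)) := by
    intro x
    have h1 := aV_le_one V x
    have h2 := aV_le h0 x
    have h3 := aV_nonneg h0 x
    have h4 : aV V x ≤ (27 * V * Real.exp (-|x|)) ^ (1 / 4 : ℝ) := by
      rcases le_or_gt 1 (27 * V * Real.exp (-|x|)) with h | h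
      · exact h1.trans (Real.one_le_rpow h (by norm_num))
      · refine h2.trans ?_
        have h5 : 0 ≤ 27 * V * Real.exp (-|x|) := by positivity
        calc 27 * V * Real.exp (-|x|) = (27 * V * Real.exp (-|x|)) ^ (1 : ℝ) := (Real.rpow_one _).symm
          _ ≤ _ := Real.rpow_le_rpow_of_exponent_ge_of_imp h5 h.le (by norm_num) (fun _ => by norm_num)
    refine h4.trans ?_
    rw [Real.mul_rpow (by positivity) (Real.exp_pos _).le, Real.mul_rpow (by norm_num) h0, ← Real.exp_mul]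
    have h6 : (27 : ℝ) ^ (1 / 4 : ℝ) ≤ 3 := by
      calc (27 : ℝ) ^ (1 / 4 : ℝ) ≤ (81 : ℝ) ^ (1 / 4 : ℝ) :=
            Real.rpow_le_rpow (by norm_num) (by norm_num) (by norm_num)
        _ = 3 := by
            rw [show (81 : ℝ) = 3 ^ (4 : ℝ) by norm_num, ← Real.rpow_mul (by norm_num)]
            norm_num
    have h7 : Real.exp (-|x| * (1 / 4)) = Real.exp (-(1 / 4 * |x|)) := by
      congr 1
      ring
    rw [h7]
    have h8 : 0 ≤ V ^ (1 / 4 : ℝ) := by positivity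
    exact mul_le_mul_of_nonneg_right (mul_le_mul_of_nonneg_right h6 h8) (Real.exp_pos _).le
  have hi : Integrable fun x : ℝ => 3 * V ^ (1 / 4 : ℝ) * Real.exp (-(1 / 4 * |x|)) :=
    (integrable_exp_abs (by norm_num)).const_mul _
  have hI : Integrable (aV V) := by
    refine hi.mono' (aV_Fa h0).c.aestronglyMeasurable (Eventually.of_forall fun x => ?_)
    rw [Real.norm_of_nonneg (aV_nonneg h0 x)]
    exact hp x
  calc ∫ x, aV V x ≤ ∫ x : ℝ, 3 * V ^ (1 / 4 : ℝ) * Real.exp (-(1 / 4 * |x|)) := integral_mono hI hi hp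
    _ = _ := by
        rw [integral_const_mul, integral_exp_abs (by norm_num)]
        ring

/-- **the functional at `V` rows, `V` real** -/
def GV (V : ℝ) : ℝ := Gp (aV V)

theorem GV_mono {V W : ℝ} (h0 : 0 ≤ V) (h : V ≤ W) : GV V ≤ GV W :=
  Gp_mono (aV_Fa h0) (aV_Fa (h0.trans h)) (aV_mono h)

theorem GV_one {V : ℝ} (h0 : 0 ≤ V) : 1 ≤ GV V := Gp_one (aV_Fa h0)

/-! ### the logarithm of one row at the edge -/

/-- `log τ` as a function of `w = e^z` -/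
def ll (w : ℂ) : ℂ := log (1 + (w ^ 2 - (Real.sqrt 3 : ℝ) * w)) - log (1 + (w ^ 2 + (Real.sqrt 3 : ℝ) * w))

theorem uu_le {w : ℂ} (hw : ‖w‖ ≤ 1 / 4) {s : ℂ} (hs : ‖s‖ = Real.sqrt 3) : ‖w ^ 2 + s * w‖ ≤ 2 * ‖w‖ := by
  have h1 := s3_hi
  have h0 := norm_nonneg w
  calc ‖w ^ 2 + s * w‖ ≤ ‖w ^ 2‖ + ‖s * w‖ := norm_add_le _ _
    _ = ‖w‖ * ‖w‖ + Real.sqrt 3 * ‖w‖ := by rw [norm_pow, norm_mul, hs]; ring
    _ ≤ 1 / 4 * ‖w‖ + 1.7321 * ‖w‖ :=
        add_le_add (mul_le_mul_of_nonneg_right hw h0) (mul_le_mul_of_nonneg_right h1 h0)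
    _ ≤ 2 * ‖w‖ := by linarith

theorem log_taylor {u : ℂ} {r : ℝ} (hu : ‖u‖ ≤ 2 * r) (hr : r ≤ 1 / 4) :
    ‖log (1 + u) - (u - u ^ 2 / 2)‖ ≤ 16 / 3 * r ^ 3 := by
  have h0 : 0 ≤ ‖u‖ := norm_nonneg u
  have hr0 : 0 ≤ r := by linarith
  have h1 := Complex.norm_log_sub_logTaylor_le 2 (z := u) (by linarith)
  have e : logTaylor (2 + 1) u = u - u ^ 2 / 2 := by
    rw [logTaylor_succ, logTaylor_succ, logTaylor_succ, logTaylor_zero]
    norm_num
    ring
  rw [e] at h1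
  refine h1.trans ?_
  have h2 : (1 - ‖u‖)⁻¹ ≤ 2 := by
    rw [inv_le_comm₀ (by linarith) (by norm_num)]
    linarith
  have h3 : ‖u‖ ^ 3 ≤ (2 * r) ^ 3 := pow_le_pow_left₀ h0 hu 3
  have h5 : 0 ≤ (1 - ‖u‖)⁻¹ := by
    rw [inv_nonneg]; linarith
  calc ‖u‖ ^ (2 + 1) * (1 - ‖u‖)⁻¹ / ((2 : ℕ) + 1) ≤ (2 * r) ^ 3 * 2 / ((2 : ℕ) + 1) := by
        refine div_le_div_of_nonneg_right (mul_le_mul h3 h2 h5 (by positivity)) (by positivity)
    _ = _ := by push_cast; ring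

theorem ll_near {w : ℂ} (hw : ‖w‖ ≤ 1 / 4) : ‖ll w + 2 * (Real.sqrt 3 : ℝ) * w‖ ≤ 15 * ‖w‖ ^ 3 := by
  set s : ℂ := ((Real.sqrt 3 : ℝ) : ℂ) with hs
  have hsn : ‖s‖ = Real.sqrt 3 := by rw [hs, Complex.norm_real, Real.norm_of_nonneg s3p.le]
  have h1 := log_taylor (uu_le hw hsn) hw
  have h2 := log_taylor (u := w ^ 2 - s * w) (by
    have := uu_le hw (s := -s) (by rw [norm_neg, hsn])
    rwa [neg_mul, ← sub_eq_add_neg] at this) hw
  have e : ll w + 2 * s * w = (log (1 + (w ^ 2 - s * w)) - ((w ^ 2 - s * w) - (w ^ 2 - s * w) ^ 2 / 2)) -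
      (log (1 + (w ^ 2 + s * w)) - ((w ^ 2 + s * w) - (w ^ 2 + s * w) ^ 2 / 2)) + 2 * s * w ^ 3 := by
    unfold ll
    ring
  rw [e]
  have h3 : ‖2 * s * w ^ 3‖ ≤ 3.5 * ‖w‖ ^ 3 := by
    rw [norm_mul, norm_mul, hsn, norm_pow]
    have h4 : ‖(2 : ℂ)‖ = 2 := by norm_num
    rw [h4]
    refine mul_le_mul_of_nonneg_right ?_ (by positivity)
    have := s3_hi
    linarith
  have h5 := norm_add_le ((log (1 + (w ^ 2 - s * w)) - ((w ^ 2 - s * w) - (w ^ 2 - s * w) ^ 2 / 2)) -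
      (log (1 + (w ^ 2 + s * w)) - ((w ^ 2 + s * w) - (w ^ 2 + s * w) ^ 2 / 2))) (2 * s * w ^ 3)
  have h6 := norm_sub_le (log (1 + (w ^ 2 - s * w)) - ((w ^ 2 - s * w) - (w ^ 2 - s * w) ^ 2 / 2))
      (log (1 + (w ^ 2 + s * w)) - ((w ^ 2 + s * w) - (w ^ 2 + s * w) ^ 2 / 2))
  have h7 : 0 ≤ ‖w‖ ^ 3 := by positivity
  linarith

theorem tau_exp {z w : ℂ} (hz : exp z = w ∨ exp (-z) = w) (hw : ‖w‖ ≤ 1 / 4) : tau z = exp (ll w) := by
  set s : ℂ := ((Real.sqrt 3 : ℝ) : ℂ) with hs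
  have hsn : ‖s‖ = Real.sqrt 3 := by rw [hs, Complex.norm_real, Real.norm_of_nonneg s3p.le]
  have n1 : (1 : ℂ) + (w ^ 2 - s * w) ≠ 0 := by
    intro h
    have h1 : w ^ 2 - s * w = -1 := by linear_combination h
    have h2 := uu_le hw (s := -s) (by rw [norm_neg, hsn])
    rw [neg_mul, ← sub_eq_add_neg, h1, norm_neg, norm_one] at h2
    linarith
  have n2 : (1 : ℂ) + (w ^ 2 + s * w) ≠ 0 := by
    intro h
    have h1 : w ^ 2 + s * w = -1 := by linear_combination h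
    have h2 := uu_le hw hsn
    rw [h1, norm_neg, norm_one] at h2
    linarith
  have hw0 : w ≠ 0 := by
    rcases hz with rfl | rfl <;> exact exp_ne_zero _
  have hc : cosh z = (1 + w ^ 2) / (2 * w) := by
    rcases hz with h | h
    · rw [cosh, h, exp_neg, h]
      field_simp
      ring
    · rw [cosh, h]
      have : exp z = w⁻¹ := by rw [← h, exp_neg, inv_inv]
      rw [this]
      field_simp
  rw [tau_eq, hc]
  unfold ll
  rw [exp_sub, exp_log n1, exp_log n2]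
  have e1 : (((Real.sqrt 3 / 2 : ℝ)) : ℂ) = s / 2 := by rw [hs]; push_cast; ring
  rw [e1]
  have e2 : (1 + w ^ 2) / (2 * w) - s / 2 = (1 + (w ^ 2 - s * w)) / (2 * w) := by
    field_simp
    ring
  have e3 : (1 + w ^ 2) / (2 * w) + s / 2 = (1 + (w ^ 2 + s * w)) / (2 * w) := by
    field_simp
    ring
  rw [e2, e3, div_div_div_cancel_right₀ (mul_ne_zero two_ne_zero hw0)]

/-- the logarithm of the axis row at the edge -/
theorem ll_axis {x : ℝ} (hx : 2 ≤ |x|) : ll (exp (-(|x| : ℝ))) = -(nl x : ℂ) := by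
  have hw : ‖exp (-((|x| : ℝ) : ℂ))‖ ≤ 1 / 4 := by
    rw [Complex.norm_exp]
    have e : (-((|x| : ℝ) : ℂ)).re = -|x| := by simp
    rw [e]
    have h1 : Real.exp (-|x|) ≤ Real.exp (-2) := Real.exp_le_exp.2 (by linarith)
    have h2 : Real.exp (-2) ≤ 1 / 4 := by
      rw [Real.exp_neg, inv_le_comm₀ (Real.exp_pos _) (by norm_num)]
      have := Real.exp_one_gt_d9
      have h3 : Real.exp 2 = Real.exp 1 * Real.exp 1 := by rw [← Real.exp_add]; norm_num
      rw [h3]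
      nlinarith
    linarith
  have h1 := tau_exp (z := ((|x| : ℝ) : ℂ)) (Or.inr rfl) hw
  rw [tau_L0, L0_abs] at h1
  -- both sides real
  set W : ℝ := Real.exp (-|x|) with hW
  have eW : exp (-((|x| : ℝ) : ℂ)) = (W : ℂ) := by
    rw [hW, Complex.ofReal_exp]
    push_cast
    rfl
  have hW0 : 0 < W := Real.exp_pos _
  have hWle : W ≤ 1 / 4 := by
    rw [eW, Complex.norm_real, Real.norm_of_nonneg hW0.le] at hw
    exact hw
  have h3 := s3_hi
  have h4 := s3p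
  have p1 : 0 < 1 + (W ^ 2 - Real.sqrt 3 * W) := by nlinarith
  have p2 : 0 < 1 + (W ^ 2 + Real.sqrt 3 * W) := by positivity
  have e2 : ll (W : ℂ) = ((Real.log (1 + (W ^ 2 - Real.sqrt 3 * W)) - Real.log (1 + (W ^ 2 + Real.sqrt 3 * W)) : ℝ) : ℂ) := by
    unfold ll
    rw [Complex.ofReal_sub, Complex.ofReal_log p1.le, Complex.ofReal_log p2.le]
    push_cast
    rfl
  rw [eW] at h1 ⊢
  rw [e2] at h1 ⊢
  rw [← Complex.ofReal_exp, Complex.ofReal_inj] at h1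
  rw [← Complex.ofReal_neg, Complex.ofReal_inj]
  unfold nl
  rw [h1, Real.log_exp, neg_neg]

end PLT.Nr

end
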