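import Mathlib

/-!
# Balayage of a strip (helper89, for 93's B1)

For `z > 0`, `0 < d` and offsets `v ∈ [0, d]`:

* `p0 z d v`, `p1 z d v`: swept weights of a unit charge at `v` on the lines `0` and `d`;
* `bal`, `bal_sub`, **`ck_bal`**: they are exact for every object outside the open strip;
  `bal_two`: both charges in the strip, harmonic kernel;
* `ck P z x = cosh (z (P - |x|)) / sinh (z P)` (circle of half period `P`),
  `G z d v w = sinh (z min) sinh (z (d - max)) / sinh (z d)`;
  **`ck_two`**: `ck P z (v - w) = 2 G + (p0 p0' + p1 p1') ck 0 + (p0 p1' + p1 p0') ck d`;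
* **`G_eq_int`**: `G z d v w = z ∫_0^d hh z s v * hh z s w ds`, `0 ≤ hh ≤ 1`;
* **`sum_G_nonneg`**, **`int_G_nonneg`**: `G` is positive semidefinite (finite sums, integrals);
* **`sum_ck`**, **`sum_ck_ge`**, **`int_ck`**, **`int_ck_ge`**: the own energy of a bent line is at least the
  energy of the swept charge on the two lines.
-/

set_option autoImplicit false

noncomputable section

open MeasureTheory Set
open scoped ComplexConjugate

namespace PLT.Bal

/-- swept weight on the line `0` -/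
def p0 (z d v : ℝ) : ℝ := Real.sinh (z * (d - v)) / Real.sinh (z * d)

/-- swept weight on the line `d` -/
def p1 (z d v : ℝ) : ℝ := Real.sinh (z * v) / Real.sinh (z * d)

/-- kernel of the circle of half period `P` -/
def ck (P z x : ℝ) : ℝ := Real.cosh (z * (P - |x|)) / Real.sinh (z * P)

/-- Green function of `[0, d]` -/
def G (z d v w : ℝ) : ℝ :=
  Real.sinh (z * min v w) * Real.sinh (z * (d - max v w)) / Real.sinh (z * d)

/-- the square root of the Green function -/
def hh (z s v : ℝ) : ℝ := if v ≤ s then Real.sinh (z * v) / Real.sinh (z * s) else 0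

variable {z d : ℝ}

theorem sd_pos (hz : 0 < z) (hd : 0 < d) : 0 < Real.sinh (z * d) :=
  Real.sinh_pos_iff.2 (mul_pos hz hd)

/-! ### Harmonic kernels -/

/-- a harmonic function of the offset is the sum of its swept values -/
theorem bal (hz : 0 < z) (hd : 0 < d) (c v : ℝ) : Real.cosh (z * (c + v)) =
    p0 z d v * Real.cosh (z * c) + p1 z d v * Real.cosh (z * (c + d)) := by
  have h := (sd_pos hz hd).ne'
  unfold p0 p1
  rw [div_mul_eq_mul_div, div_mul_eq_mul_div, ← add_div, eq_div_iff h]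
  rw [mul_add, mul_sub, mul_add, Real.cosh_add, Real.cosh_add, Real.sinh_sub]
  ring

theorem bal_sub (hz : 0 < z) (hd : 0 < d) (c v : ℝ) : Real.cosh (z * (c - v)) =
    p0 z d v * Real.cosh (z * c) + p1 z d v * Real.cosh (z * (c - d)) := by
  have h := bal hz hd (-c) v
  rw [← Real.cosh_neg (z * (-c + v)), ← Real.cosh_neg (z * (-c)), ← Real.cosh_neg (z * (-c + d))] at h
  have e1 : -(z * (-c + v)) = z * (c - v) := by ring
  have e2 : -(z * -c) = z * c := by ring
  have e3 : -(z * (-c + d)) = z * (c - d) := by ring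
  rwa [e1, e2, e3] at h

theorem bal_sinh (hz : 0 < z) (hd : 0 < d) (c v : ℝ) : Real.sinh (z * (c + v)) =
    p0 z d v * Real.sinh (z * c) + p1 z d v * Real.sinh (z * (c + d)) := by
  have h := (sd_pos hz hd).ne'
  unfold p0 p1
  rw [div_mul_eq_mul_div, div_mul_eq_mul_div, ← add_div, eq_div_iff h]
  rw [mul_add, mul_sub, mul_add, Real.sinh_add, Real.sinh_add, Real.sinh_sub]
  ring

/-- both charges in the strip, harmonic kernel -/
theorem bal_two (hz : 0 < z) (hd : 0 < d) (c v w : ℝ) : Real.cosh (z * (c + (v - w))) =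
    (p0 z d v * p0 z d w + p1 z d v * p1 z d w) * Real.cosh (z * c) +
      p0 z d v * p1 z d w * Real.cosh (z * (c - d)) + p1 z d v * p0 z d w * Real.cosh (z * (c + d)) := by
  have e0 : c + (v - w) = (c - w) + v := by ring
  have e1 : c - w + d = (c + d) - w := by ring
  have e2 : c + d - d = c := by ring
  rw [e0, bal hz hd, e1, bal_sub hz hd c w, bal_sub hz hd (c + d) w, e2]
  ring

/-- an object at `b` outside the open strip -/
theorem ck_bal (hz : 0 < z) (hd : 0 < d) (P : ℝ) {b v : ℝ} (hv : v ∈ Icc (0 : ℝ) d)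
    (hb : b ≤ 0 ∨ d ≤ b) : ck P z (b - v) = p0 z d v * ck P z b + p1 z d v * ck P z (b - d) := by
  unfold ck
  rw [mul_div_assoc', mul_div_assoc', ← add_div]
  congr 1
  rcases hb with hb | hb
  · rw [abs_of_nonpos (by linarith [hv.1] : b - v ≤ 0), abs_of_nonpos hb,
      abs_of_nonpos (by linarith : b - d ≤ 0)]
    have e1 : P - -(b - v) = (P + b) - v := by ring
    have e2 : P - -b = P + b := by ring
    have e3 : P - -(b - d) = (P + b) - d := by ring
    rw [e1, e2, e3]
    exact bal_sub hz hd _ _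
  · rw [abs_of_nonneg (by linarith [hv.2] : 0 ≤ b - v), abs_of_nonneg (by linarith : 0 ≤ b),
      abs_of_nonneg (by linarith : 0 ≤ b - d)]
    have e1 : P - (b - v) = (P - b) + v := by ring
    have e3 : P - (b - d) = (P - b) + d := by ring
    rw [e1, e3]
    exact bal hz hd _ _

theorem ck_neg (P z x : ℝ) : ck P z (-x) = ck P z x := by
  unfold ck
  rw [abs_neg]

theorem G_comm (z d v w : ℝ) : G z d v w = G z d w v := by
  unfold G
  rw [min_comm, max_comm]

theorem ck_two_aux (hz : 0 < z) (hd : 0 < d) {P : ℝ} (hP : 0 < P) {v w : ℝ} (hvw : v ≤ w) :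
    ck P z (v - w) = 2 * G z d v w + (p0 z d v * p0 z d w + p1 z d v * p1 z d w) * ck P z 0 +
      (p0 z d v * p1 z d w + p1 z d v * p0 z d w) * ck P z d := by
  have hQ := (sd_pos hz hP).ne'
  have hD := (sd_pos hz hd).ne'
  unfold ck G
  rw [min_eq_left hvw, max_eq_right hvw, abs_of_nonpos (by linarith : v - w ≤ 0), abs_zero,
    abs_of_pos hd, sub_zero]
  have e1 : P - -(v - w) = (P + v) - w := by ring
  have h1 : Real.cosh (z * ((P + v) - w)) =
      p0 z d w * Real.cosh (z * (P + v)) + p1 z d w * Real.cosh (z * (P + v - d)) := bal_sub hz hd _ _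
  have h2 : Real.cosh (z * (P - v)) = p0 z d v * Real.cosh (z * P) + p1 z d v * Real.cosh (z * (P - d)) :=
    bal_sub hz hd _ _
  have h3 : Real.cosh (z * (P - d + v)) =
      p0 z d v * Real.cosh (z * (P - d)) + p1 z d v * Real.cosh (z * (P - d + d)) := bal hz hd _ _
  have e3 : P - d + d = P := by ring
  have e4 : P + v - d = P - d + v := by ring
  rw [e3] at h3
  have h4 : Real.cosh (z * (P + v)) - Real.cosh (z * (P - v)) = 2 * Real.sinh (z * P) * Real.sinh (z * v) := by
    rw [mul_add, mul_sub, Real.cosh_add, Real.cosh_sub]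
    ring
  rw [e1, h1, e4]
  have h5 : Real.cosh (z * (P + v)) = p0 z d v * Real.cosh (z * P) + p1 z d v * Real.cosh (z * (P - d)) +
      2 * Real.sinh (z * P) * Real.sinh (z * v) := by rw [← h2, ← h4]; ring
  have h6 : Real.sinh (z * v) * Real.sinh (z * (d - w)) / Real.sinh (z * d) =
      Real.sinh (z * v) * p0 z d w := by
    unfold p0
    ring
  rw [h6, h3, h5]
  field_simp
  ring

/-- **the kernel of the circle in the strip = swept + twice the Green function** -/
theorem ck_two (hz : 0 < z) (hd : 0 < d) {P : ℝ} (hP : 0 < P) (v w : ℝ) :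
    ck P z (v - w) = 2 * G z d v w + (p0 z d v * p0 z d w + p1 z d v * p1 z d w) * ck P z 0 +
      (p0 z d v * p1 z d w + p1 z d v * p0 z d w) * ck P z d := by
  rcases le_total v w with h | h
  · exact ck_two_aux hz hd hP h
  · rw [← neg_sub, ck_neg, ck_two_aux hz hd hP h, G_comm]
    ring

/-! ### The Green function is a square -/

theorem hh_nonneg (hz : 0 < z) {s v : ℝ} (hv : 0 ≤ v) : 0 ≤ hh z s v := by
  unfold hh
  split_ifs with h
  · exact div_nonneg (Real.sinh_nonneg_iff.2 (mul_nonneg hz.le hv))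
      (Real.sinh_nonneg_iff.2 (mul_nonneg hz.le (hv.trans h)))
  · exact le_refl _

theorem hh_le_one (hz : 0 < z) {s v : ℝ} (hv : 0 ≤ v) : hh z s v ≤ 1 := by
  unfold hh
  split_ifs with h
  · exact div_le_one_of_le₀ (Real.sinh_le_sinh.2 (mul_le_mul_of_nonneg_left h hz.le))
      (Real.sinh_nonneg_iff.2 (mul_nonneg hz.le (hv.trans h)))
  · exact zero_le_one

theorem measurable_hh (z : ℝ) : Measurable fun p : ℝ × ℝ => hh z p.1 p.2 := by
  unfold hh
  refine Measurable.ite (measurableSet_le measurable_snd measurable_fst) ?_ measurable_const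
  exact (Real.continuous_sinh.measurable.comp (measurable_snd.const_mul z)).div
    (Real.continuous_sinh.measurable.comp (measurable_fst.const_mul z))

theorem deriv_coth (hz : 0 < z) {s : ℝ} (hs : 0 < s) :
    HasDerivAt (fun s => -(Real.cosh (z * s) / Real.sinh (z * s))) (z / Real.sinh (z * s) ^ 2) s := by
  have h := (sd_pos hz hs).ne'
  have h1 : HasDerivAt (fun s => z * s) z s := by simpa using (hasDerivAt_id s).const_mul z
  have h2 := ((Real.hasDerivAt_cosh (z * s)).comp s h1).div ((Real.hasDerivAt_sinh (z * s)).comp s h1) h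
  have h3 := h2.neg
  refine h3.congr_deriv ?_
  have e := Real.cosh_sq (z * s)
  simp only [Function.comp]
  rw [← neg_div]
  congr 1
  have : -(Real.sinh (z * s) * z * Real.sinh (z * s) - Real.cosh (z * s) * (Real.cosh (z * s) * z)) =
      z * (Real.cosh (z * s) ^ 2 - Real.sinh (z * s) ^ 2) := by ring
  rw [this, e]
  ring

theorem int_coth (hz : 0 < z) {m : ℝ} (hm : 0 < m) (hmd : m ≤ d) :
    ∫ s in m..d, z / Real.sinh (z * s) ^ 2 =
      Real.sinh (z * (d - m)) / (Real.sinh (z * m) * Real.sinh (z * d)) := by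
  have hc : ContinuousOn (fun s => z / Real.sinh (z * s) ^ 2) (uIcc m d) := by
    refine continuousOn_const.div ((Real.continuous_sinh.comp (continuous_const.mul continuous_id)).pow
      2).continuousOn fun s hs => ?_
    rw [uIcc_of_le hmd] at hs
    exact pow_ne_zero 2 (sd_pos hz (hm.trans_le hs.1)).ne'
  rw [intervalIntegral.integral_eq_sub_of_hasDerivAt (f := fun s => -(Real.cosh (z * s) / Real.sinh (z * s)))
    (fun s hs => ?_) hc.intervalIntegrable]
  · have h1 := (sd_pos hz hm).ne'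
    have h2 := (sd_pos hz (hm.trans_le hmd)).ne'
    rw [mul_sub z d m, Real.sinh_sub]
    field_simp
    ring
  · rw [uIcc_of_le hmd] at hs
    exact deriv_coth hz (hm.trans_le hs.1)

/-- **the Green function as an integral of products** -/
theorem G_eq_int (hz : 0 < z) {v w : ℝ} (hv : v ∈ Icc (0 : ℝ) d) (hw : w ∈ Icc (0 : ℝ) d) :
    G z d v w = z * ∫ s in Ioc (0 : ℝ) d, hh z s v * hh z s w := by
  have hm0 : 0 ≤ max v w := hv.1.trans (le_max_left _ _)
  have hmd : max v w ≤ d := max_le hv.2 hw.2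
  have hmi : 0 ≤ min v w := le_min hv.1 hw.1
  have hprod : Real.sinh (z * v) * Real.sinh (z * w) = Real.sinh (z * min v w) * Real.sinh (z * max v w) := by
    rcases le_total v w with h | h
    · rw [min_eq_left h, max_eq_right h]
    · rw [min_eq_right h, max_eq_left h, mul_comm]
  have hval : ∀ s, hh z s v * hh z s w =
      if max v w ≤ s then Real.sinh (z * min v w) * Real.sinh (z * max v w) / Real.sinh (z * s) ^ 2 else 0 := by
    intro s
    unfold hh
    by_cases h : max v w ≤ s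
    · have h1 : v ≤ s := (le_max_left _ _).trans h
      have h2 : w ≤ s := (le_max_right _ _).trans h
      rw [if_pos h1, if_pos h2, if_pos h, div_mul_div_comm, hprod, sq]
    · rw [if_neg h]
      by_cases h1 : v ≤ s
      · have h2 : ¬ w ≤ s := fun h2 => h (max_le h1 h2)
        rw [if_neg h2, mul_zero]
      · rw [if_neg h1, zero_mul]
  rcases hm0.eq_or_lt with h0 | h0
  · -- both charges at `0`
    have hmi0 : min v w = 0 := le_antisymm (min_le_max.trans h0.symm.le) hmi
    have : ∀ s, hh z s v * hh z s w = 0 := by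
      intro s
      rw [hval, hmi0, mul_zero, Real.sinh_zero, zero_mul, zero_div, ite_self]
    simp only [this]
    unfold G
    rw [hmi0]
    simp
  · have hset : ∫ s in Ioc (0 : ℝ) d, hh z s v * hh z s w =
        ∫ s in Ioc (max v w) d, Real.sinh (z * min v w) * Real.sinh (z * max v w) / Real.sinh (z * s) ^ 2 := by
      have e : Ioc (0 : ℝ) d = Ioo 0 (max v w) ∪ Icc (max v w) d := by
        ext s
        simp only [mem_Ioc, mem_union, mem_Ioo, mem_Icc]
        constructor
        · intro h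
          rcases lt_or_ge s (max v w) with h1 | h1
          · exact Or.inl ⟨h.1, h1⟩
          · exact Or.inr ⟨h1, h.2⟩
        · rintro (h | h)
          · exact ⟨h.1, h.2.le.trans hmd⟩
          · exact ⟨h0.trans_le h.1, h.2⟩
      have hdis : Disjoint (Ioo 0 (max v w)) (Icc (max v w) d) := by
        rw [Set.disjoint_left]
        intro s h1 h2
        exact absurd h1.2 (not_lt.2 h2.1)
      have hz1 : ∀ s ∈ Ioo 0 (max v w), hh z s v * hh z s w = 0 := by
        intro s hs
        rw [hval, if_neg (not_le.2 hs.2)]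
      have hz2 : ∀ s ∈ Icc (max v w) d, hh z s v * hh z s w =
          Real.sinh (z * min v w) * Real.sinh (z * max v w) / Real.sinh (z * s) ^ 2 := by
        intro s hs
        rw [hval, if_pos hs.1]
      have hc : ContinuousOn (fun s => Real.sinh (z * min v w) * Real.sinh (z * max v w) /
          Real.sinh (z * s) ^ 2) (Icc (max v w) d) := by
        refine continuousOn_const.div ((Real.continuous_sinh.comp (continuous_const.mul
          continuous_id)).pow 2).continuousOn fun s hs => ?_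
        exact pow_ne_zero 2 (sd_pos hz (h0.trans_le hs.1)).ne'
      rw [e, setIntegral_union hdis measurableSet_Icc, setIntegral_congr_fun measurableSet_Ioo hz1,
        setIntegral_congr_fun measurableSet_Icc hz2, integral_Icc_eq_integral_Ioc]
      · simp
      · exact (integrableOn_congr_fun hz1 measurableSet_Ioo).2 (integrableOn_zero)
      · exact (integrableOn_congr_fun hz2 measurableSet_Icc).2 (hc.integrableOn_compact isCompact_Icc)
    rw [hset, ← intervalIntegral.integral_of_le hmd]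
    have e2 : ∀ s, Real.sinh (z * min v w) * Real.sinh (z * max v w) / Real.sinh (z * s) ^ 2 =
        (Real.sinh (z * min v w) * Real.sinh (z * max v w) / z) * (z / Real.sinh (z * s) ^ 2) := by
      intro s
      field_simp
    simp only [e2]
    rw [intervalIntegral.integral_const_mul, int_coth hz h0 hmd]
    unfold G
    have h1 := (sd_pos hz h0).ne'
    have h2 := (sd_pos hz (h0.trans_le hmd)).ne'
    field_simp

/-! ### Finite sums -/

theorem measurable_hh_left (z v : ℝ) : Measurable fun s : ℝ => hh z s v :=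
  (measurable_hh z).comp (measurable_id.prodMk measurable_const)

theorem measurable_hh_right (z s : ℝ) : Measurable fun v : ℝ => hh z s v :=
  (measurable_hh z).comp (measurable_const.prodMk measurable_id)

theorem norm_hh_le (hz : 0 < z) {s v : ℝ} (hv : 0 ≤ v) : ‖hh z s v‖ ≤ 1 := by
  rw [Real.norm_eq_abs, abs_of_nonneg (hh_nonneg hz hv)]
  exact hh_le_one hz hv

theorem integrable_hh (hz : 0 < z) (d : ℝ) {v w : ℝ} (hv : 0 ≤ v) (hw : 0 ≤ w) :
    Integrable (fun s => ((hh z s v * hh z s w : ℝ) : ℂ)) (volume.restrict (Ioc 0 d)) := by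
  refine Integrable.ofReal ?_
  refine ⟨((measurable_hh_left z v).mul (measurable_hh_left z w)).aestronglyMeasurable, ?_⟩
  refine HasFiniteIntegral.of_bounded (C := 1) (ae_of_all _ fun s => ?_)
  change ‖hh z s v * hh z s w‖ ≤ 1
  rw [norm_mul]
  calc ‖hh z s v‖ * ‖hh z s w‖ ≤ 1 * 1 :=
        mul_le_mul (norm_hh_le hz hv) (norm_hh_le hz hw) (norm_nonneg _) zero_le_one
    _ = 1 := one_mul 1

theorem sum_G {ι : Type*} (hz : 0 < z) (S : Finset ι) (w : ι → ℂ) {v : ι → ℝ}
    (hv : ∀ i ∈ S, v i ∈ Icc (0 : ℝ) d) :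
    ∑ i ∈ S, ∑ j ∈ S, conj (w i) * w j * ((G z d (v i) (v j) : ℝ) : ℂ) =
      ((z * ∫ s in Ioc (0 : ℝ) d, ‖∑ i ∈ S, w i * ((hh z s (v i) : ℝ) : ℂ)‖ ^ 2 : ℝ) : ℂ) := by
  have h1 : ∀ s, ((‖∑ i ∈ S, w i * ((hh z s (v i) : ℝ) : ℂ)‖ ^ 2 : ℝ) : ℂ) =
      ∑ i ∈ S, ∑ j ∈ S, conj (w i) * w j * ((hh z s (v i) * hh z s (v j) : ℝ) : ℂ) := by
    intro s
    rw [Complex.ofReal_pow, ← Complex.conj_mul', map_sum, Finset.sum_mul_sum]
    refine Finset.sum_congr rfl fun i _ => Finset.sum_congr rfl fun j _ => ?_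
    rw [map_mul, Complex.conj_ofReal, Complex.ofReal_mul]
    ring
  rw [Complex.ofReal_mul, ← integral_complex_ofReal]
  simp only [h1]
  rw [integral_finsetSum _ fun i hi => integrable_finsetSum _ fun j hj =>
    (integrable_hh hz d (hv i hi).1 (hv j hj).1).const_mul _, Finset.mul_sum]
  refine Finset.sum_congr rfl fun i hi => ?_
  rw [integral_finsetSum _ fun j hj => (integrable_hh hz d (hv i hi).1 (hv j hj).1).const_mul _,
    Finset.mul_sum]
  refine Finset.sum_congr rfl fun j hj => ?_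
  rw [integral_const_mul, integral_complex_ofReal, G_eq_int hz (hv i hi) (hv j hj), Complex.ofReal_mul]
  ring

/-- **the Green function is positive semidefinite** -/
theorem sum_G_nonneg {ι : Type*} (hz : 0 < z) (S : Finset ι) (w : ι → ℂ) {v : ι → ℝ}
    (hv : ∀ i ∈ S, v i ∈ Icc (0 : ℝ) d) :
    0 ≤ (∑ i ∈ S, ∑ j ∈ S, conj (w i) * w j * ((G z d (v i) (v j) : ℝ) : ℂ)).re := by
  rw [sum_G hz S w hv, Complex.ofReal_re]
  exact mul_nonneg hz.le (integral_nonneg fun s => by positivity)

/-- the energy of the swept charge -/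
def sw (P z d : ℝ) (S0 S1 : ℂ) : ℂ :=
  (conj S0 * S0 + conj S1 * S1) * ((ck P z 0 : ℝ) : ℂ) + (conj S0 * S1 + conj S1 * S0) * ((ck P z d : ℝ) : ℂ)

theorem sum_ck {ι : Type*} (hz : 0 < z) (hd : 0 < d) {P : ℝ} (hP : 0 < P) (S : Finset ι) (w : ι → ℂ)
    (v : ι → ℝ) :
    ∑ i ∈ S, ∑ j ∈ S, conj (w i) * w j * ((ck P z (v i - v j) : ℝ) : ℂ) =
      2 * ∑ i ∈ S, ∑ j ∈ S, conj (w i) * w j * ((G z d (v i) (v j) : ℝ) : ℂ) +
      sw P z d (∑ i ∈ S, w i * ((p0 z d (v i) : ℝ) : ℂ)) (∑ i ∈ S, w i * ((p1 z d (v i) : ℝ) : ℂ)) := by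
  unfold sw
  simp only [map_sum, map_mul, Complex.conj_ofReal, Finset.sum_mul_sum]
  simp only [← Finset.sum_add_distrib, Finset.sum_mul, Finset.mul_sum]
  refine Finset.sum_congr rfl fun i _ => Finset.sum_congr rfl fun j _ => ?_
  rw [ck_two hz hd hP (v i) (v j)]
  push_cast
  ring

/-- **the own energy of a bent line is at least the energy of the swept charge on the two lines** -/
theorem sum_ck_ge {ι : Type*} (hz : 0 < z) (hd : 0 < d) {P : ℝ} (hP : 0 < P) (S : Finset ι) (w : ι → ℂ)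
    {v : ι → ℝ} (hv : ∀ i ∈ S, v i ∈ Icc (0 : ℝ) d) :
    (sw P z d (∑ i ∈ S, w i * ((p0 z d (v i) : ℝ) : ℂ)) (∑ i ∈ S, w i * ((p1 z d (v i) : ℝ) : ℂ))).re ≤
      (∑ i ∈ S, ∑ j ∈ S, conj (w i) * w j * ((ck P z (v i - v j) : ℝ) : ℂ)).re := by
  rw [sum_ck hz hd hP S w v, Complex.add_re]
  have h := sum_G_nonneg hz S w hv
  have e : (2 * ∑ i ∈ S, ∑ j ∈ S, conj (w i) * w j * ((G z d (v i) (v j) : ℝ) : ℂ)).re =
      2 * (∑ i ∈ S, ∑ j ∈ S, conj (w i) * w j * ((G z d (v i) (v j) : ℝ) : ℂ)).re := by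
    simp [Complex.mul_re]
  rw [e]
  linarith

/-! ### Integrals -/

section Int

variable {α : Type*} [MeasurableSpace α] {μ : Measure α} [SFinite μ] {w : α → ℂ} {v : α → ℝ}

/-- the form of a kernel on a charge distribution `w μ` at offsets `v` -/
def bil (μ : Measure α) (w : α → ℂ) (v : α → ℝ) (k : ℝ → ℝ → ℝ) : ℂ :=
  ∫ p, conj (w p.1) * w p.2 * ((k (v p.1) (v p.2) : ℝ) : ℂ) ∂(μ.prod μ)

omit [SFinite μ] in
theorem integrable_pair (hw : Integrable w μ) :
    Integrable (fun p : α × α => conj (w p.1) * w p.2) (μ.prod μ) := by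
  have h : Integrable (fun x => conj (w x)) μ := by
    have := (LinearIsometryEquiv.integrable_comp_iff Complex.conjLIE).2 hw
    simpa using this
  exact h.mul_prod hw

omit [SFinite μ] in
theorem integrable_bil (hw : Integrable w μ) (hvm : Measurable v) {k : ℝ → ℝ → ℝ} {C : ℝ}
    (hk : Measurable fun p : ℝ × ℝ => k p.1 p.2) (hC : ∀ x y, |k (v x) (v y)| ≤ C) :
    Integrable (fun p : α × α => conj (w p.1) * w p.2 * ((k (v p.1) (v p.2) : ℝ) : ℂ)) (μ.prod μ) := by
  refine (integrable_pair hw).mul_bdd (c := C) ?_ (ae_of_all _ fun p => ?_)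
  · exact (Complex.measurable_ofReal.comp (hk.comp ((hvm.comp measurable_fst).prodMk
      (hvm.comp measurable_snd)))).aestronglyMeasurable
  · rw [Complex.norm_real]
    exact hC _ _

/-- product form -/
theorem bil_prod (a b : ℝ → ℝ) : bil μ w v (fun x y => a x * b y) =
    conj (∫ x, w x * ((a (v x) : ℝ) : ℂ) ∂μ) * ∫ x, w x * ((b (v x) : ℝ) : ℂ) ∂μ := by
  unfold bil
  rw [← integral_conj, ← integral_prod_mul]
  refine integral_congr_ae (ae_of_all _ fun p => ?_)
  simp only [map_mul, Complex.conj_ofReal, Complex.ofReal_mul]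
  ring

/-- iterated integrals -/
theorem bil_iter (hw : Integrable w μ) (hvm : Measurable v) {k : ℝ → ℝ → ℝ} {C : ℝ}
    (hk : Measurable fun p : ℝ × ℝ => k p.1 p.2) (hC : ∀ x y, |k (v x) (v y)| ≤ C) :
    bil μ w v k = ∫ x, ∫ y, conj (w x) * w y * ((k (v x) (v y) : ℝ) : ℂ) ∂μ ∂μ :=
  integral_prod _ (integrable_bil hw hvm hk hC)

theorem bil_G (hz : 0 < z) (hw : Integrable w μ) (hvm : Measurable v) (hv : ∀ x, v x ∈ Icc (0 : ℝ) d) :
    bil μ w v (G z d) =
      ((z * ∫ s in Ioc (0 : ℝ) d, ‖∫ x, w x * ((hh z s (v x) : ℝ) : ℂ) ∂μ‖ ^ 2 : ℝ) : ℂ) := by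
  have h1 : ∀ s, ((‖∫ x, w x * ((hh z s (v x) : ℝ) : ℂ) ∂μ‖ ^ 2 : ℝ) : ℂ) =
      bil μ w v (fun a b => hh z s a * hh z s b) := by
    intro s
    rw [bil_prod, Complex.conj_mul', Complex.ofReal_pow]
  rw [Complex.ofReal_mul, ← integral_complex_ofReal]
  simp only [h1]
  unfold bil
  have hF : Integrable (fun q : ℝ × (α × α) => conj (w q.2.1) * w q.2.2 *
      ((hh z q.1 (v q.2.1) * hh z q.1 (v q.2.2) : ℝ) : ℂ)) ((volume.restrict (Ioc 0 d)).prod (μ.prod μ)) := by
    have hb : Integrable (fun q : ℝ × (α × α) => conj (w q.2.1) * w q.2.2)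
        ((volume.restrict (Ioc 0 d)).prod (μ.prod μ)) := (integrable_pair hw).comp_snd _
    refine hb.mul_bdd (c := 1) ?_ (ae_of_all _ fun q => ?_)
    · refine (Complex.measurable_ofReal.comp ?_).aestronglyMeasurable
      exact ((measurable_hh z).comp (measurable_fst.prodMk (hvm.comp (measurable_fst.comp
        measurable_snd)))).mul ((measurable_hh z).comp (measurable_fst.prodMk (hvm.comp
        (measurable_snd.comp measurable_snd))))
    · rw [Complex.norm_real, norm_mul]
      calc _ ≤ (1 : ℝ) * 1 := mul_le_mul (norm_hh_le hz (hv _).1) (norm_hh_le hz (hv _).1)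
            (norm_nonneg _) zero_le_one
        _ = 1 := one_mul 1
  rw [integral_integral_swap (f := fun s (p : α × α) => conj (w p.1) * w p.2 *
      ((hh z s (v p.1) * hh z s (v p.2) : ℝ) : ℂ)) hF, ← integral_const_mul]
  refine integral_congr_ae (ae_of_all _ fun p => ?_)
  simp only
  rw [integral_const_mul, integral_complex_ofReal, G_eq_int hz (hv _) (hv _), Complex.ofReal_mul]
  ring

/-- **the Green function is positive semidefinite**, integrated -/
theorem int_G_nonneg (hz : 0 < z) (hw : Integrable w μ) (hvm : Measurable v)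
    (hv : ∀ x, v x ∈ Icc (0 : ℝ) d) : 0 ≤ (bil μ w v (G z d)).re := by
  rw [bil_G hz hw hvm hv, Complex.ofReal_re]
  exact mul_nonneg hz.le (integral_nonneg fun s => by positivity)

theorem measurable_G (z d : ℝ) : Measurable fun p : ℝ × ℝ => G z d p.1 p.2 := by
  unfold G
  exact ((Real.continuous_sinh.comp (continuous_const.mul (continuous_fst.min continuous_snd))).mul
    (Real.continuous_sinh.comp (continuous_const.mul (continuous_const.sub (continuous_fst.max
    continuous_snd))))).div_const _ |>.measurable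

theorem continuous_p0 (z d : ℝ) : Continuous (p0 z d) := by
  unfold p0
  exact (Real.continuous_sinh.comp (continuous_const.mul (continuous_const.sub continuous_id))).div_const _

theorem continuous_p1 (z d : ℝ) : Continuous (p1 z d) := by
  unfold p1
  exact (Real.continuous_sinh.comp (continuous_const.mul continuous_id)).div_const _

theorem p0_mem (hz : 0 < z) (hd : 0 < d) {v : ℝ} (hv : v ∈ Icc (0 : ℝ) d) : p0 z d v ∈ Icc (0 : ℝ) 1 := by
  unfold p0
  have h := sd_pos hz hd
  constructor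
  · exact div_nonneg (Real.sinh_nonneg_iff.2 (mul_nonneg hz.le (by linarith [hv.2]))) h.le
  · exact div_le_one_of_le₀ (Real.sinh_le_sinh.2 (mul_le_mul_of_nonneg_left (by linarith [hv.1]) hz.le)) h.le

theorem p1_mem (hz : 0 < z) (hd : 0 < d) {v : ℝ} (hv : v ∈ Icc (0 : ℝ) d) : p1 z d v ∈ Icc (0 : ℝ) 1 := by
  unfold p1
  have h := sd_pos hz hd
  constructor
  · exact div_nonneg (Real.sinh_nonneg_iff.2 (mul_nonneg hz.le hv.1)) h.le
  · exact div_le_one_of_le₀ (Real.sinh_le_sinh.2 (mul_le_mul_of_nonneg_left hv.2 hz.le)) h.le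

/-- `G ≤ p0 (max) * sinh (z min) ≤ sinh (z d)` -/
theorem G_mem (hz : 0 < z) (hd : 0 < d) {v w : ℝ} (hv : v ∈ Icc (0 : ℝ) d) (hw : w ∈ Icc (0 : ℝ) d) :
    G z d v w ∈ Icc (0 : ℝ) (Real.sinh (z * d)) := by
  have hm : max v w ∈ Icc (0 : ℝ) d := ⟨hv.1.trans (le_max_left _ _), max_le hv.2 hw.2⟩
  have hn : min v w ∈ Icc (0 : ℝ) d := ⟨le_min hv.1 hw.1, (min_le_left _ _).trans hv.2⟩
  have e : G z d v w = Real.sinh (z * min v w) * p0 z d (max v w) := by
    unfold G p0
    ring
  have h1 := p0_mem hz hd hm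
  have h2 : 0 ≤ Real.sinh (z * min v w) := Real.sinh_nonneg_iff.2 (mul_nonneg hz.le hn.1)
  have h3 : Real.sinh (z * min v w) ≤ Real.sinh (z * d) :=
    Real.sinh_le_sinh.2 (mul_le_mul_of_nonneg_left hn.2 hz.le)
  rw [e]
  exact ⟨mul_nonneg h2 h1.1, (mul_le_mul h3 h1.2 h1.1 (h2.trans h3)).trans_eq (mul_one _)⟩

/-- **the kernel of the circle on a bent line** -/
theorem int_ck (hz : 0 < z) (hd : 0 < d) {P : ℝ} (hP : 0 < P) (hw : Integrable w μ) (hvm : Measurable v)
    (hv : ∀ x, v x ∈ Icc (0 : ℝ) d) :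
    bil μ w v (fun a b => ck P z (a - b)) = 2 * bil μ w v (G z d) +
      sw P z d (∫ x, w x * ((p0 z d (v x) : ℝ) : ℂ) ∂μ) (∫ x, w x * ((p1 z d (v x) : ℝ) : ℂ) ∂μ) := by
  have mm : ∀ {a b : ℝ → ℝ}, Continuous a → Continuous b → Measurable fun p : ℝ × ℝ => a p.1 * b p.2 :=
    fun ha hb => ((ha.comp continuous_fst).mul (hb.comp continuous_snd)).measurable
  have bd : ∀ {a b : ℝ → ℝ}, (∀ x, a (v x) ∈ Icc (0 : ℝ) 1) → (∀ x, b (v x) ∈ Icc (0 : ℝ) 1) →
      ∀ x y, |a (v x) * b (v y)| ≤ 1 := by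
    intro a b ha hb x y
    rw [abs_of_nonneg (mul_nonneg (ha x).1 (hb y).1)]
    exact (mul_le_mul (ha x).2 (hb y).2 (hb y).1 zero_le_one).trans_eq (one_mul 1)
  have q0 := fun x => p0_mem hz hd (hv x)
  have q1 := fun x => p1_mem hz hd (hv x)
  have iG : Integrable (fun p : α × α => conj (w p.1) * w p.2 * ((G z d (v p.1) (v p.2) : ℝ) : ℂ))
      (μ.prod μ) := integrable_bil hw hvm (measurable_G z d) (C := Real.sinh (z * d)) fun x y => by
    rw [abs_of_nonneg (G_mem hz hd (hv x) (hv y)).1]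
    exact (G_mem hz hd (hv x) (hv y)).2
  have i00 : Integrable (fun p : α × α => conj (w p.1) * w p.2 *
      ((p0 z d (v p.1) * p0 z d (v p.2) : ℝ) : ℂ)) (μ.prod μ) :=
    integrable_bil hw hvm (k := fun x y => p0 z d x * p0 z d y)
      (mm (continuous_p0 z d) (continuous_p0 z d)) (bd q0 q0)
  have i11 : Integrable (fun p : α × α => conj (w p.1) * w p.2 *
      ((p1 z d (v p.1) * p1 z d (v p.2) : ℝ) : ℂ)) (μ.prod μ) :=
    integrable_bil hw hvm (k := fun x y => p1 z d x * p1 z d y)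
      (mm (continuous_p1 z d) (continuous_p1 z d)) (bd q1 q1)
  have i01 : Integrable (fun p : α × α => conj (w p.1) * w p.2 *
      ((p0 z d (v p.1) * p1 z d (v p.2) : ℝ) : ℂ)) (μ.prod μ) :=
    integrable_bil hw hvm (k := fun x y => p0 z d x * p1 z d y)
      (mm (continuous_p0 z d) (continuous_p1 z d)) (bd q0 q1)
  have i10 : Integrable (fun p : α × α => conj (w p.1) * w p.2 *
      ((p1 z d (v p.1) * p0 z d (v p.2) : ℝ) : ℂ)) (μ.prod μ) :=
    integrable_bil hw hvm (k := fun x y => p1 z d x * p0 z d y)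
      (mm (continuous_p1 z d) (continuous_p0 z d)) (bd q1 q0)
  unfold sw
  rw [← bil_prod (p0 z d) (p0 z d), ← bil_prod (p1 z d) (p1 z d), ← bil_prod (p0 z d) (p1 z d),
    ← bil_prod (p1 z d) (p0 z d)]
  unfold bil
  have ia : Integrable (fun p : α × α => conj (w p.1) * w p.2 * ((p0 z d (v p.1) * p0 z d (v p.2) : ℝ) : ℂ) +
      conj (w p.1) * w p.2 * ((p1 z d (v p.1) * p1 z d (v p.2) : ℝ) : ℂ)) (μ.prod μ) := i00.add i11
  have ib : Integrable (fun p : α × α => conj (w p.1) * w p.2 * ((p0 z d (v p.1) * p1 z d (v p.2) : ℝ) : ℂ) +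
      conj (w p.1) * w p.2 * ((p1 z d (v p.1) * p0 z d (v p.2) : ℝ) : ℂ)) (μ.prod μ) := i01.add i10
  have ic : Integrable (fun p : α × α => (conj (w p.1) * w p.2 * ((p0 z d (v p.1) * p0 z d (v p.2) : ℝ) : ℂ) +
      conj (w p.1) * w p.2 * ((p1 z d (v p.1) * p1 z d (v p.2) : ℝ) : ℂ)) * ((ck P z 0 : ℝ) : ℂ) +
      (conj (w p.1) * w p.2 * ((p0 z d (v p.1) * p1 z d (v p.2) : ℝ) : ℂ) +
      conj (w p.1) * w p.2 * ((p1 z d (v p.1) * p0 z d (v p.2) : ℝ) : ℂ)) * ((ck P z d : ℝ) : ℂ)) (μ.prod μ) :=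
    (ia.mul_const _).add (ib.mul_const _)
  rw [← integral_add i00 i11, ← integral_add i01 i10, ← integral_mul_const, ← integral_mul_const,
    ← integral_const_mul, ← integral_add (ia.mul_const _) (ib.mul_const _),
    ← integral_add (iG.const_mul 2) ic]
  refine integral_congr_ae (ae_of_all _ fun p => ?_)
  simp only
  rw [ck_two hz hd hP (v p.1) (v p.2)]
  push_cast
  ring

/-- **the own energy of a bent line is at least the energy of the swept charge on the two lines** -/
theorem int_ck_ge (hz : 0 < z) (hd : 0 < d) {P : ℝ} (hP : 0 < P) (hw : Integrable w μ) (hvm : Measurable v)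
    (hv : ∀ x, v x ∈ Icc (0 : ℝ) d) :
    (sw P z d (∫ x, w x * ((p0 z d (v x) : ℝ) : ℂ) ∂μ) (∫ x, w x * ((p1 z d (v x) : ℝ) : ℂ) ∂μ)).re ≤
      (bil μ w v (fun a b => ck P z (a - b))).re := by
  rw [int_ck hz hd hP hw hvm hv, Complex.add_re]
  have h := int_G_nonneg hz hw hvm hv
  have e : (2 * bil μ w v (G z d)).re = 2 * (bil μ w v (G z d)).re := by simp [Complex.mul_re]
  rw [e]
  linarith

end Int

end PLT.Bal
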