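import Pool.Agent.PHK.ClsA6
import Pool.Agent.PHK.Mst6

/-!
# THETA, row SH1.Cls: the class formulas of a regular function, any data (helper25)

`PHK/LgK06`, `ClsD06`, `K06.clsW06`, `ClsA6.clsA06`, `Oth0R.clsF06` with the record `RFn6 D e ex c0` in place of the
data at rows `0`, any ends.

* `lgB_RF`: the base `LgB`, `Bs6`; `clsD_RF`: the classes D1, D1' at every height;
* `clsW_RF`: W W at every height; `clsA_RF`: the 16 classes at almost all heights;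
* **`clsF_RF`**: the class formulas `ClsF6` of a family.
-/

set_option autoImplicit false
set_option linter.unusedSectionVars false

noncomputable section

open Complex MeasureTheory Finset
open scoped ENNReal
open PLX (Fil Ends)

namespace PBO.PLX

open NUO NUP1 NUCR NUP1S NUP1S.Ab NUP1S.AbC NUP1S.AbG NURow NUP1.Leg NUGC NUGC.PLX
open PHK
open PBR.PLX (Ch6 okC6 aXv aYv obV6 ClsV6 ClsD6 YV6 YD6 RZW D_FF6 dec6_RU inv6_RU bs6_RU RWW_FFU6
  RFn6 IsKD6 Bs6)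
open PBF.PLX (Ins Crs)
open _root_.Pool.Agent.PLX (RU GF6 FFth hI6_par6)

section base

variable {m M e : ℕ} {D : RU m M} {ex : Bool → List ℂ} {c0 ep : ℝ} {K : PBQ.PLX.KD}
  {kD : Bool → ℂ → ℂ}

theorem kZ_RF (hK : IsKD6 K kD D) : K.Z = XB D.X D.Y := by
  funext a
  cases a
  · exact hK.zY
  · exact hK.zX

/-- the base of one body data -/
theorem bsB_RF (hR : RFn6 D e ex c0) (h0 : 0 < ep) (h1 : ep ≤ 1 / 100) :
    ∃ (ob : (Bool → ℂ → ℝ) → PLX.OB) (E0 : Set ℝ), Bs6 (XB D.X D.Y) ob par6 ep (2 * D.β) e E0 :=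
  ⟨_, _, bs6_RU hR.hM hR.rb h0 h1⟩

/-- **the base of the classes** -/
theorem lgB_RF (hR : RFn6 D e ex c0) (hK : IsKD6 K kD D) (h0 : 0 < ep) (h1 : ep ≤ 1 / 100) :
    LgB K.Z (2 * D.β) e ∧ ∃ (ob : (Bool → ℂ → ℝ) → PLX.OB) (E0 : Set ℝ),
      Bs6 K.Z ob par6 ep (2 * D.β) e E0 := by
  have hB := bs6_RU (P := par6) hR.hM hR.rb h0 h1
  have hb := hR.rb.b1
  rw [kZ_RF hK]
  exact ⟨lgB_of hB h0 (by linarith) (dec6_RU hR.hM hR.rb par6_good hR.g hR.g')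
    (inv6_RU hR.hM hR.rb hR.c0p hR.φ), _, _, hB⟩

/-- the functionals of D1, D1' -/
theorem D_FF_RF [Fil] (hFF : FFth) (hR : RFn6 D e ex c0) (h0 : 0 < ep) (h1 : ep ≤ 1 / 100) (o : Bool)
    {w : ℂ} (hw : w.re = -(11 / 4) * l) (n : ℕ) {η η' : Crs}
    (hη : ∀ r ≤ 2 * (n + (n + e)), ∀ᵐ O ∂(Measure.pi fun _ : Fin r => nu),
      CurB ep (η r O) (η' r O)) :
    NURow.ZobjQ (YD6 (XB D.X D.Y) o w true) (YD6 (XB D.X D.Y) o w false) (51 / 100 * l) n (n + e)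
      (fun _ _ k _ i => _root_.Pool.Agent.PLX.ln6 par6 (k i))
      (fun _ _ _ k' i => _root_.Pool.Agent.PLX.ln6 par6 (k' i)) =
      FF6 (YD6 (XB D.X D.Y) o w) par6 n (n + e) η η' (fun _ _ _ _ _ => 1) := by
  have hb := hR.rb.b1
  exact D_FF6 hFF (bs6_RU (P := par6) hR.hM hR.rb h0 h1) (by linarith)
    (dec6_RU hR.hM hR.rb par6_good hR.g hR.g') (inv6_RU hR.hM hR.rb hR.c0p hR.φ) h0 h1 o hw n hη

end base

variable [Fil] [Ends]

section one

variable {m M k : ℕ} {D : RU m M} {ex : Bool → List ℂ} {c0 ep : ℝ} {K : PBQ.PLX.KD}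
  {kD : Bool → ℂ → ℂ}

/-- **The classes D1, D1' at every height.** -/
theorem clsD_RF (hFF : FFth) (hR : RFn6 D (Fil.xe k) ex c0) (hK : IsKD6 K kD D) (h0 : 0 < ep)
    (h1 : ep ≤ 1 / 100) (o : Bool) (y : ℝ) :
    ClsD6 K.Z par6 ep (Fil.xe k) o (vl (-(11 / 4) * l) y) (zPtD6 K kD k o y) := by
  intro η η' hη n
  have h := D_FF_RF hFF hR h0 h1 o (w := vl (-(11 / 4) * l) y) (by simp [vl]) n (η := η) (η' := η')
    (fun r _ => Filter.Eventually.of_forall fun O => hη r O)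
  rw [kZ_RF hK]
  refine Eq.trans ?_ h
  show (cDo o (kD o)).Z (K.Z true) (K.Z false) (51 / 100 * l) n (n + Fil.xe k) lX6 lY6
    (vl (-(11 / 4) * l) y) = _
  rw [kZ_RF hK]
  cases o
  · have e : ∀ a, YD6 (XB D.X D.Y) false (vl (-(11 / 4) * l) y) a =
        XS a ((XB D.X D.Y) a) (fl SD) (fun _ _ _ => 1) (vl (-(11 / 4) * l) y) 0 := by
      intro a
      funext k u
      show _ * (1 * SD (!a) k (_ - u)) = _ * (SD (!a) k (_ - u) * 1)
      ring
    rw [e, e]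
    rfl
  · rfl

/-- **The class formula of W W at every height.** -/
theorem clsW_RF (hFF : FFth) (hR : RFn6 D (Fil.xe k) ex c0) (hK : IsKD6 K kD D) (h0 : 0 < ep)
    (h1 : ep ≤ 1 / 100) (y : ℝ × ℝ) :
    ClsV6 K.Z par6 ep (Fil.xe k) .W .W (vl (htL .W) y.1) (vl (htL .W) y.2)
      (fun u => cw6 K .W .W (vl (htL .W) y.1) (vl (htL .W) y.2) u) (zPt6 K k .W .W y) := by
  intro η η' hη n
  obtain ⟨u0, hu0⟩ : ∃ u0 : Ch6 × Ch6, u0 = ((false, false), (false, false)) := ⟨_, rfl⟩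
  refine ⟨fun u _ _ _ _ _ => if u = u0 then 1 else 0, fun u r O a a' z => ?_, ?_⟩
  · show ‖(if u = u0 then (1 : ℂ) else 0)‖ ≤ cw6 K .W .W _ _ u
    by_cases hu : u = u0
    · rw [if_pos hu, norm_one, hu, hu0]
      refine le_of_eq ?_
      unfold cw6
      rw [if_pos ⟨⟨by simp, by simp⟩, ⟨by simp, by simp⟩⟩]
      simp [PBQ.PLX.KD.wt, wgt2, ownH6, gH6']
    · rw [if_neg hu, norm_zero]
      exact cw6_nonneg _ _ _ _ _ _
  · have h := RWW_FFU6 hFF hI6_par6 hR.hM hR.rb hR.c0p hR.g hR.g' hR.φ par6_good h0 h1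
      (w := vl (htL .W) y.1) (w' := vl (htL .W) y.2) (by simp [vl, htL]) (by simp [vl, htL]) n
      (η := η u0) (η' := η' u0) (fun r _ => Filter.Eventually.of_forall fun O => hη u0 r O)
    have e0 : ∀ u : Ch6 × Ch6, (if u.1.1.toNat ≤ n + aXv (Fil.xe k) .W .W u ∧
        u.2.1.toNat ≤ n + aYv (Fil.xe k) .W .W u then
        FF6 (YV6 K.Z .W .W (vl (htL .W) y.1) (vl (htL .W) y.2) u) par6
          (n + aXv (Fil.xe k) .W .W u - u.1.1.toNat) (n + aYv (Fil.xe k) .W .W u - u.2.1.toNat)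
          (η u) (η' u) (fun _ _ _ _ _ => if u = u0 then 1 else 0) else 0) =
        if u = u0 then FF6 (RZW D (vl (htL .W) y.1) (vl (htL .W) y.2)) par6
          n (n + Fil.xe k) (η u0) (η' u0) (fun _ _ _ _ _ => 1) else 0 := by
      intro u
      by_cases hu : u = u0
      · subst hu
        subst hu0
        rw [if_pos rfl]
        have a1 : aXv (Fil.xe k) .W .W ((false, false), (false, false)) = 0 := by
          unfold PBR.PLX.aXv aXt htN htD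
          simp
        have a2 : aYv (Fil.xe k) .W .W ((false, false), (false, false)) = Fil.xe k := by
          unfold PBR.PLX.aYv aYt htN htD
          simp
        rw [a1, a2]
        simp only [Bool.toNat_false, Nat.add_zero, Nat.sub_zero, Nat.zero_le, and_self, if_true]
        have eY : YV6 K.Z .W .W (vl (htL .W) y.1) (vl (htL .W) y.2)
            ((false, false), (false, false)) =
            RZW D (vl (htL .W) y.1) (vl (htL .W) y.2) := by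
          rw [kZ_RF hK]
          funext a
          cases a <;> rfl
        rw [eY]
      · rw [if_neg hu]
        simp only [if_neg hu]
        split_ifs
        · exact FF6_zero_ins _ _ _ _ _ _
        · rfl
    rw [Finset.sum_congr rfl fun u _ => e0 u, Finset.sum_ite_eq' , if_pos (Finset.mem_univ u0)]
    refine Eq.trans ?_ h
    show (K.cl .W .W).Z (K.Z true) (K.Z false) (51 / 100 * l)
      (n + htN (Fil.xe k) .W .W) (n + htN (Fil.xe k) .W .W + Fil.xe k) lX6 lY6 (vl (htL .W) y.1)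
      (vl (htL .W) y.2) = _
    have a0 : htN (Fil.xe k) .W .W = 0 := by
      unfold htN htD
      simp
    rw [a0, hK.cl, hK.zX, hK.zY]
    rfl

/-- **The class formulas at almost all heights.** -/
theorem clsA_RF (hWZ : WordThZ) (hR : RFn6 D (Fil.xe k) ex c0) (hK : IsKD6 K kD D) (h0 : 0 < ep)
    (h1 : ep ≤ 1 / 100) (t t' : HT) : ∀ᵐ y : ℝ × ℝ,
    ClsV6 K.Z par6 ep (Fil.xe k) t t' (vl (htL t) y.1) (vl (htL t') y.2)
      (fun u => cw6 K t t' (vl (htL t) y.1) (vl (htL t') y.2) u) (zPt6 K k t t' y) := by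
  obtain ⟨hB, ob, E0, hBs⟩ := lgB_RF hR hK h0 h1
  have h := cls_ae hWZ wordThP hB hBs h0 h1 t t'
    (cw := fun y u => cw6 K t t' (vl (htL t) y.1) (vl (htL t') y.2) u)
    (fun y u => cw6_nonneg _ _ _ _ _ _) fun y u hu hu' => cV6_le K hu hu' _ _
  filter_upwards [h] with y hy
  have e : zPt6 K k t t' y = fun n => NURow.ZobjQ
      (Zc6 K.Z t t' (vl (htL t) y.1) (vl (htL t') y.2) true)
      (Zc6 K.Z t t' (vl (htL t) y.1) (vl (htL t') y.2) false) (51 / 100 * l)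
      (n + aXt (Fil.xe k) t t') (n + aYt (Fil.xe k) t t')
      (fun _ _ k _ i => _root_.Pool.Agent.PLX.ln6 par6 (k i))
      (fun _ _ _ k' i => _root_.Pool.Agent.PLX.ln6 par6 (k' i)) :=
    funext fun n => cF_Zc6 _ _ _ _ _ _ _ _ _ _ _ _ _ _
  rw [e]
  exact hy

end one

/-! ### families -/

/-- **The class formulas of a family of regular functions.** -/
theorem clsF_RF (hWZ : WordThZ) (hFF : FFth) {K : ℝ → ℕ → PBQ.PLX.KD} {kD : ℝ → ℕ → Bool → ℂ → ℂ}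
    {mm MM : ℕ → ℕ} {D : ∀ (_ : ℝ) (k : ℕ), RU (mm k) (MM k)} {ex : Bool → List ℂ} {c0 : ℝ}
    (hD : ∀ ep : ℝ, 0 < ep → ep ≤ 1 / 100 → ∃ k1 : ℕ, ∀ k : ℕ, k1 ≤ k →
      RFn6 (D ep k) (Fil.xe k) ex c0 ∧ IsKD6 (K ep k) (kD ep k) (D ep k)) :
    ClsF6 K kD fun ep k t t' y u => cw6 (K ep k) t t' (vl (htL t) y.1) (vl (htL t') y.2) u where
  cls ep h0 h1 := by
    obtain ⟨k1, hk1⟩ := hD ep h0 h1
    exact ⟨k1, fun k hk t t' => clsA_RF hWZ (hk1 k hk).1 (hk1 k hk).2 h0 h1 t t'⟩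
  clsW ep h0 h1 := by
    obtain ⟨k1, hk1⟩ := hD ep h0 h1
    exact ⟨k1, fun k hk y => clsW_RF hFF (hk1 k hk).1 (hk1 k hk).2 h0 h1 y⟩
  clsD ep h0 h1 := by
    obtain ⟨k1, hk1⟩ := hD ep h0 h1
    exact ⟨k1, fun k hk o => Filter.Eventually.of_forall fun y =>
      clsD_RF hFF (hk1 k hk).1 (hk1 k hk).2 h0 h1 o y⟩

/-- **The sums over the numbers of quanta of a family.** -/
theorem sumBd_RF [NUSea.Sea] (hWZ : WordThZ) (hFF : FFth) {T : LtS} {EM : ℕ → ℝ}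
    {MF : ℕ → Bool → NUSp.Cl → ℂ → ℝ} {K : ℝ → ℕ → PBQ.PLX.KD} {kD : ℝ → ℕ → Bool → ℂ → ℂ}
    {mm MM : ℕ → ℕ} {D : ∀ (_ : ℝ) (k : ℕ), RU (mm k) (MM k)} {ex : Bool → List ℂ} {c0 : ℝ}
    (hF : FaBd6 T EM MF fun ep k => (K ep k).Z)
    (hD : ∀ ep : ℝ, 0 < ep → ep ≤ 1 / 100 → ∃ k1 : ℕ, ∀ k : ℕ, k1 ≤ k →
      RFn6 (D ep k) (Fil.xe k) ex c0 ∧ IsKD6 (K ep k) (kD ep k) (D ep k)) :
    SumBd6 T EM MF K kD fun ep k t t' y u =>
      cw6 (K ep k) t t' (vl (htL t) y.1) (vl (htL t') y.2) u :=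
  sumBd6_of hF (clsF_RF hWZ hFF hD) (fun _ _ _ _ _ _ => cw6_nonneg _ _ _ _ _ _)
    fun _ _ _ _ _ _ hu => cw6_ok _ hu

end PBO.PLX

end
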