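import Pool.Agent.PLT.GX
import Pool.Agent.PLT.H1Pre

/-!
# (H1) The exponent of the geometry `GX` over the straight sea is the normaliser (helper39)

* `log_thE` : the four ends at `e` on the line are `2 lgL e`;
* **`EMX_I`** : `EMX 0 m = - log |nrI (xI m h)| + log (9/4 sin l / rh 0 ^ 2)` over the straight sea.
-/

set_option autoImplicit false
set_option linter.unusedSectionVars false
set_option linter.unusedVariables false

noncomputable section

open Complex MeasureTheory

namespace PLT

namespace H1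

open NUMF (l l_pos)
open PBR (rh)
open NUP1.Leg (thE)
open Pool.Agent.PLX (yq)
open PLX (Fil)
open PotH.PLX (sN)
open St (xI nrI)

/-- **the four ends on the line** -/
theorem log_thE (e : ℂ) (t : ℝ) : Real.log ‖thE e e e e (l + I * t)‖ = 2 * lgL e t := by
  rw [norm_thE_e, Real.log_pow]
  unfold PBO.PLX.thZ lgL
  rw [mul_comm I (t : ℂ)]
  push_cast
  rfl

variable {m : ℕ} {h : ℕ → ℝ} [S : SeaC] [Fil]

attribute [local instance] _root_.PLX.ends0

/-- **the exponent of the geometry over the straight sea**, four ends at `e` -/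
theorem EMX_E (hS : StrS S m h) (hm : 0 < m) {e : ℂ} (he : |e.re| ≤ l / 2) :
    EMX e m = -Real.log ‖preU (xI m h) (yq (xI m h)) e e‖ +
      Real.log (9 / 4 * ‖sin (NUP1.l : ℂ)‖ / ‖rh 0‖ ^ 2) := by
  have h1 : sN m true = m := by
    show ((Fil.ne true m : ℕ) : ℝ) = m
    rw [_root_.PLX.ne_ends0]
    simp
  have h2 : sN m false = Fil.q * m := by
    show ((Fil.ne false m : ℕ) : ℝ) = Fil.q * m
    rw [_root_.PLX.ne_ends0]
    simp
  have h3 := pre_E hS hm h1 h2 he he
  rw [sub_self] at h3
  rw [← h3]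
  unfold EMX
  simp only [ga_I hS, log_thE, ← two_mul]

/-- **SH1.Pre over `GX`** -/
theorem EMX_I (hS : StrS S m h) (hm : 0 < m) :
    EMX 0 m = -Real.log ‖nrI (xI m h)‖ + Real.log (9 / 4 * ‖sin (NUP1.l : ℂ)‖ / ‖rh 0‖ ^ 2) := by
  have hl := l_pos
  rw [nrI_preU]
  exact EMX_E hS hm (by rw [zero_re, abs_zero]; positivity)

end H1

end PLT

end
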