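import Pool.Agent.PLX.PB.ValD
import Pool.Agent.PLT.RRat

/-!
# (H1) Energies of rows on the imaginary axis; the normaliser of any rows and ends (helper39)

* `int_vI`, `int_vxI` : the fields of a row at height `d` against the density of a row at height `0`: `mE (d I)`,
  `mEx (d I)`; `int_lI` : a leg at `z`: `lE (z - d I)`;
* **`dbl_int`** : the energy of two averages of translates is the double sum;
* `preU x y p q` : the normaliser (prefactor over bulk term) of the rows `x`, `y` and the ends `p`, `q`;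
  **`log_preU`** : `log |preU| + Q2E x y p q = log (9/4 |sin l| / |rh (p - q)| ^ 2)`, exactly, all rows and ends;
* `Q2E_yq` : `Q2E` for `y = yq x`.
-/

set_option autoImplicit false
set_option linter.unusedSectionVars false
set_option linter.unusedVariables false

noncomputable section

open Complex MeasureTheory

namespace PLT

namespace H1

open NUMF (l l_pos)
open NUMFH (mE lE)
open PBV.PLX (mEo mEx mE_add)
open PBR (rh rh_neg rh_ne_zero)
open PBX (eT Lt)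
open Pool.Agent.PLX (yq Sf Lf)
open PLX (Fil EMs)

/-! ### one row against one row -/

/-- **two rows on the axis**, the whole field -/
theorem int_vI (d : ℝ) : Integrable (fun t : ℝ => NUMF.P t * NUMF.v (t - d)) ∧
    ∫ t : ℝ, NUMF.P t * NUMF.v (t - d) = mE (d * I) := by
  have hl := l_pos
  have hx : |((d : ℂ) * I).re| < l := by simpa using hl
  have hx' : |((d : ℂ) * I).re| + 0 ≤ l := by
    rw [add_zero]
    exact hx.le
  obtain ⟨h1, h2⟩ := NUMFH.int_row (b := 0) le_rfl hl hx hx'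
  have e : ∀ t : ℝ, NUMFH.Pb 0 t * Real.log (‖Complex.sin ((l : ℂ) + t * I - d * I + 3 * l)‖ ^ 2 /
      (‖Complex.sin ((l : ℂ) + t * I - d * I)‖ * ‖Complex.sin ((l : ℂ) + t * I - d * I - 2 * l)‖)) =
      NUMF.P t * NUMF.v (t - d) := by
    intro t
    rw [NUMFH.log_row hx, NUMFH.Pb_zero]
    have r1 : ((d : ℂ) * I).re = 0 := by simp
    have r2 : ((d : ℂ) * I).im = d := by simp
    rw [r1, r2, zero_add, zero_sub, NUMF.h_neg_right, NUMF.v_eq, show d - t = -(t - d) by ring,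
      NUMF.h_neg_left, NUMF.h_neg_left]
    congr 1
    ring
  simp only [e] at h1 h2
  rw [ofReal_zero, sub_zero, add_zero, add_self_div_two] at h2
  exact ⟨h1, h2⟩

theorem vx_h (t : ℝ) : (NUAct.vx (t : ℂ)).re = NUMF.h t 0 - Real.log 2 := by
  have e2 : (NUAct.vx (t : ℂ)) = ((NUMF.h t 0 - Real.log 2 : ℝ) : ℂ) := by
    unfold NUAct.vx
    rw [NUAct.Ly_ofReal (by rw [abs_zero]; exact Real.pi_div_two_pos)]
    push_cast
    rfl
  rw [e2, Complex.ofReal_re]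

/-- **two rows on the axis**, the field of the other species -/
theorem int_vxI (d : ℝ) : Integrable (fun t : ℝ => NUMF.P t * (NUAct.vx ((t - d : ℝ) : ℂ)).re) ∧
    ∫ t : ℝ, NUMF.P t * (NUAct.vx ((t - d : ℝ) : ℂ)).re = mEx (d * I) := by
  have hl := l_pos
  obtain ⟨i0, h0⟩ := PBV.PLX.int_cross (x := (d : ℂ) * I) (by
    have : |((d : ℂ) * I).re| = 0 := by simp
    rw [this]
    positivity)
  have r1 : ((d : ℂ) * I).re = 0 := by simp
  have r2 : ((d : ℂ) * I).im = d := by simp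
  have e : ∀ t : ℝ, NUMF.P t * (NUMF.h (((d : ℂ) * I).im - t) ((d : ℂ) * I).re - Real.log 2) =
      NUMF.P t * (NUAct.vx ((t - d : ℝ) : ℂ)).re := by
    intro t
    rw [vx_h, r1, r2, show d - t = -(t - d) by ring, NUMF.h_neg_left]
  simp only [e] at i0 h0
  exact ⟨i0, h0⟩

/-- logarithm of a leg at `z` on the line -/
def lgL (z : ℂ) (t : ℝ) : ℝ := Real.log (‖Complex.sin (z - ((l : ℂ) + t * I) - 3 * l)‖ /
      ‖Complex.sin (z - ((l : ℂ) + t * I) + 2 * l)‖)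

/-- **a leg at `z`**, row at height `d` -/
theorem int_lI (d : ℝ) {z : ℂ} (h0 : -l < z.re) (h1 : z.re < 4 * l) :
    Integrable (fun t : ℝ => NUMF.P (t - d) * lgL z t) ∧ ∫ t : ℝ, NUMF.P (t - d) * lgL z t = lE (z - d * I) := by
  have hl := l_pos
  have r1 : (z - (d : ℂ) * I).re = z.re := by simp
  obtain ⟨i0, e0⟩ := NUMFH.int_leg (b := 0) le_rfl hl (z := z - d * I) (by rw [r1]; exact h0) (by rw [r1]; exact h1)
    (by rw [r1]; linarith) (by rw [r1]; linarith)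
  rw [ofReal_zero, sub_zero, add_zero, add_self_div_two] at e0
  have e : ∀ t : ℝ, NUMFH.Pb 0 t * Real.log (‖Complex.sin (z - d * I - ((l : ℂ) + t * I) - 3 * l)‖ /
      ‖Complex.sin (z - d * I - ((l : ℂ) + t * I) + 2 * l)‖) = NUMF.P t * lgL z (t + d) := by
    intro t
    rw [NUMFH.Pb_zero]
    unfold lgL
    have e1 : z - (d : ℂ) * I - ((l : ℂ) + t * I) = z - ((l : ℂ) + ((t + d : ℝ) : ℂ) * I) := by
      push_cast
      ring
    rw [e1]
  simp only [e] at i0 e0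
  have e2 : (fun t : ℝ => NUMF.P (t - d) * lgL z t) = fun t => (fun s => NUMF.P s * lgL z (s + d)) (t - d) := by
    funext t
    simp only [sub_add_cancel]
  rw [e2]
  refine ⟨i0.comp_sub_right d, ?_⟩
  rw [integral_sub_right_eq_self (fun s => NUMF.P s * lgL z (s + d)) d]
  exact e0

/-! ### averages of translates -/

variable {m : ℕ}

/-- **the energy of two averages of translates** -/
theorem dbl_int {W E : ℝ → ℝ} (hW : ∀ d, Integrable (fun t : ℝ => NUMF.P t * W (t - d)) ∧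
    ∫ t : ℝ, NUMF.P t * W (t - d) = E d) (h : Fin m → ℝ) :
    Integrable (fun t : ℝ => (∑ i, NUMF.P (t - h i)) * ∑ j, W (t - h j)) ∧
    ∫ t : ℝ, (∑ i, NUMF.P (t - h i)) * ∑ j, W (t - h j) = ∑ i, ∑ j, E (h j - h i) := by
  have h1 : ∀ i j, Integrable (fun t : ℝ => NUMF.P (t - h i) * W (t - h j)) ∧
      ∫ t : ℝ, NUMF.P (t - h i) * W (t - h j) = E (h j - h i) := by
    intro i j
    obtain ⟨i0, e0⟩ := hW (h j - h i)
    have e2 : (fun t : ℝ => NUMF.P (t - h i) * W (t - h j)) =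
        fun t => (fun s => NUMF.P s * W (s - (h j - h i))) (t - h i) := by
      funext t
      simp only
      congr 2
      ring
    rw [e2]
    refine ⟨i0.comp_sub_right (h i), ?_⟩
    rw [integral_sub_right_eq_self (fun s => NUMF.P s * W (s - (h j - h i))) (h i)]
    exact e0
  have e3 : (fun t : ℝ => (∑ i, NUMF.P (t - h i)) * ∑ j, W (t - h j)) =
      fun t => ∑ i, ∑ j, NUMF.P (t - h i) * W (t - h j) := by
    funext t
    rw [Finset.sum_mul_sum]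
  rw [e3]
  refine ⟨integrable_finsetSum _ fun i _ => integrable_finsetSum _ fun j _ => (h1 i j).1, ?_⟩
  rw [integral_finsetSum _ fun i _ => integrable_finsetSum _ fun j _ => (h1 i j).1]
  refine Finset.sum_congr rfl fun i _ => ?_
  rw [integral_finsetSum _ fun j _ => (h1 i j).1]
  exact Finset.sum_congr rfl fun j _ => (h1 i j).2

/-- one average -/
theorem sgl_int {F : ℝ → ℝ} {E : ℝ → ℝ} (hF : ∀ d, Integrable (fun t : ℝ => NUMF.P (t - d) * F t) ∧
    ∫ t : ℝ, NUMF.P (t - d) * F t = E d) (h : Fin m → ℝ) :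
    Integrable (fun t : ℝ => (∑ i, NUMF.P (t - h i)) * F t) ∧
    ∫ t : ℝ, (∑ i, NUMF.P (t - h i)) * F t = ∑ i, E (h i) := by
  have e3 : (fun t : ℝ => (∑ i, NUMF.P (t - h i)) * F t) = fun t => ∑ i, NUMF.P (t - h i) * F t := by
    funext t
    rw [Finset.sum_mul]
  rw [e3]
  refine ⟨integrable_finsetSum _ fun i _ => (hF (h i)).1, ?_⟩
  rw [integral_finsetSum _ fun i _ => (hF (h i)).1]
  exact Finset.sum_congr rfl fun i _ => (hF (h i)).2

/-! ### the normaliser -/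

variable {M : ℕ}

/-- **the normaliser** of the rows `x`, `y` and the ends `p`, `q` -/
def preU (x : Fin m → ℂ) (y : Fin M → ℂ) (p q : ℂ) : ℂ :=
  (2 : ℂ) ^ ((m + M + 2) * (m + M + 1)) * (sin NUP1.l * (NUP1.Leg.Bp p q x * NUP1.Leg.Bp q p y)) / bulkU x y p q

/-- energy of the rows `x`, `y` and the ends `p`, `q` -/
def Q2E (x : Fin m → ℂ) (y : Fin M → ℂ) (p q : ℂ) : ℝ :=
  1 / 2 * (∑ i, ∑ j, mEo (x i - x j)) + 1 / 2 * (∑ i, ∑ j, mEo (y i - y j)) +
    (∑ i, ∑ j, mEx (x i - y j)) + (∑ i, (lE (p - x i) + lE (q - x i))) + ∑ j, (lE (p - y j) + lE (q - y j))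

/-- ordered pairs of one group -/
theorem log_oR {k : ℕ} {x : Fin k → ℂ} (hx : ∀ i j, |(x i - x j).re| ≤ l) :
    (∏ i, ∏ j, oR (x i - x j)) ≠ 0 ∧
    Real.log ‖∏ i, ∏ j, oR (x i - x j)‖ = -(1 / 2 * ∑ i, ∑ j, mEo (x i - x j)) := by
  have hl := l_pos
  have hll : NUP1.l = l := rfl
  have h5 : ∀ i j, |(x i - x j).re| < 5 * NUP1.l := fun i j => by
    rw [hll]
    linarith [hx i j]
  have hS : ∀ i j, oR (x i - x j) * oR (x j - x i) = Sf (x i - x j) := by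
    intro i j
    rw [Sf_eT (h5 i j), neg_sub]
    rfl
  have hne : ∀ i j, oR (x i - x j) ≠ 0 := by
    intro i j h0
    have h1 := hS i j
    rw [h0, zero_mul] at h1
    exact (PBV.PLX.log_Sf (w := x i - x j) (by rw [hll]; exact hx i j)).1 h1.symm
  have hn : (∏ i, ∏ j, oR (x i - x j)) ≠ 0 :=
    Finset.prod_ne_zero_iff.2 fun i _ => Finset.prod_ne_zero_iff.2 fun j _ => hne i j
  refine ⟨hn, ?_⟩
  have h1 : Real.log ‖∏ i, ∏ j, oR (x i - x j)‖ = ∑ i, ∑ j, Real.log ‖oR (x i - x j)‖ := by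
    rw [norm_prod, Real.log_prod fun i _ => norm_ne_zero_iff.2 (Finset.prod_ne_zero_iff.2 fun j _ => hne i j)]
    refine Finset.sum_congr rfl fun i _ => ?_
    rw [norm_prod, Real.log_prod fun j _ => norm_ne_zero_iff.2 (hne i j)]
  have h2 : ∑ i, ∑ j, Real.log ‖oR (x i - x j)‖ = ∑ i, ∑ j, Real.log ‖oR (x j - x i)‖ := Finset.sum_comm
  have h3 : ∀ i j, Real.log ‖oR (x i - x j)‖ + Real.log ‖oR (x j - x i)‖ = -mEo (x i - x j) := by
    intro i j
    rw [← Real.log_mul (norm_ne_zero_iff.2 (hne i j)) (norm_ne_zero_iff.2 (hne j i)), ← norm_mul, hS,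
      (PBV.PLX.log_Sf (w := x i - x j) (by rw [hll]; exact hx i j)).2]
  have h4 : ∑ i, ∑ j, Real.log ‖oR (x i - x j)‖ + ∑ i, ∑ j, Real.log ‖oR (x j - x i)‖ =
      -∑ i, ∑ j, mEo (x i - x j) := by
    rw [← Finset.sum_add_distrib, ← Finset.sum_neg_distrib]
    refine Finset.sum_congr rfl fun i _ => ?_
    rw [← Finset.sum_add_distrib, ← Finset.sum_neg_distrib]
    exact Finset.sum_congr rfl fun j _ => h3 i j
  rw [h1]
  linarith

theorem log_prod_eT {k : ℕ} {x : Fin k → ℂ} {p q : ℂ} (hp : ∀ i, -l ≤ (p - x i).re ∧ (p - x i).re ≤ 4 * l)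
    (hq : ∀ i, -l ≤ (q - x i).re ∧ (q - x i).re ≤ 4 * l) :
    (∏ i, (eT (p - x i) * eT (q - x i))) ≠ 0 ∧
    Real.log ‖∏ i, (eT (p - x i) * eT (q - x i))‖ = -∑ i, (lE (p - x i) + lE (q - x i)) := by
  have h1 : ∀ {z : ℂ}, (-l ≤ z.re ∧ z.re ≤ 4 * l) → eT z ≠ 0 ∧ Real.log ‖eT z‖ = -lE z := by
    intro z hz
    exact PBV.PLX.log_Lf (w := z) hz.1 hz.2
  have hne : ∀ i, eT (p - x i) * eT (q - x i) ≠ 0 := fun i => mul_ne_zero (h1 (hp i)).1 (h1 (hq i)).1
  refine ⟨Finset.prod_ne_zero_iff.2 fun i _ => hne i, ?_⟩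
  rw [norm_prod, Real.log_prod fun i _ => norm_ne_zero_iff.2 (hne i), ← Finset.sum_neg_distrib]
  refine Finset.sum_congr rfl fun i _ => ?_
  rw [norm_mul, Real.log_mul (norm_ne_zero_iff.2 (h1 (hp i)).1) (norm_ne_zero_iff.2 (h1 (hq i)).1),
    (h1 (hp i)).2, (h1 (hq i)).2]
  ring

/-- **the normaliser is the energy of the rows and ends**, exactly -/
theorem log_preU {x : Fin m → ℂ} {y : Fin M → ℂ} {p q : ℂ} (hx : ∀ i, |(x i).re| ≤ l / 2)
    (hy : ∀ j, |(y j).re| ≤ l / 2) (hp : |p.re| ≤ l / 2) (hq : |q.re| ≤ l / 2) :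
    preU x y p q ≠ 0 ∧ Real.log ‖preU x y p q‖ + Q2E x y p q =
      Real.log (9 / 4 * ‖sin (NUP1.l : ℂ)‖ / ‖rh (p - q)‖ ^ 2) := by
  have hl := l_pos
  have hll : NUP1.l = l := rfl
  have hd : ∀ {a b : ℂ}, |a.re| ≤ l / 2 → |b.re| ≤ l / 2 → |(a - b).re| ≤ l := fun h1 h2 => by
    rw [sub_re]
    exact (abs_sub _ _).trans (by linarith)
  have hd5 : ∀ {a b : ℂ}, |a.re| ≤ l / 2 → |b.re| ≤ l / 2 → |(a - b).re| < 5 * NUP1.l := fun h1 h2 => by
    rw [hll]
    linarith [hd h1 h2]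
  have hdl : ∀ {a b : ℂ}, |a.re| ≤ l / 2 → |b.re| ≤ l / 2 → -l ≤ (a - b).re ∧ (a - b).re ≤ 4 * l := fun h1 h2 => by
    obtain ⟨h3, h4⟩ := abs_le.1 (hd h1 h2)
    constructor <;> linarith
  have hz : ∀ {a : ℂ}, |a.re| ≤ l / 2 → eT (p - a) ≠ 0 := fun h1 =>
    (PBV.PLX.log_Lf (w := p - _) (hdl hp h1).1 (hdl hp h1).2).1
  have hP : Plc x y p q p := ⟨fun i j => hd5 (hx i) (hx j), fun i j => hd5 (hy i) (hy j),
    fun i j => hd5 (hx i) (hy j), fun i => hd5 hp (hx i), fun i => hd5 hq (hx i), fun i => hd5 hp (hy i),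
    fun i => hd5 hq (hy i), hd5 hp hq, fun i => hz (hx i), fun j => hz (hy j)⟩
  obtain ⟨nx, lx⟩ := log_oR fun i j => hd (hx i) (hx j)
  obtain ⟨ny, ly⟩ := log_oR fun i j => hd (hy i) (hy j)
  obtain ⟨mx, kx⟩ := log_prod_eT (p := p) (q := q) (fun i => hdl hp (hx i)) fun i => hdl hq (hx i)
  obtain ⟨my, ky⟩ := log_prod_eT (p := p) (q := q) (fun i => hdl hp (hy i)) fun i => hdl hq (hy i)
  have rxy : ∀ i j, rh (x i - y j) ≠ 0 := fun i j => rh_ne_zero (hd5 (hx i) (hy j))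
  have d2 : (∏ i, ∏ j, rh (x i - y j) ^ 2) ≠ 0 ∧
      Real.log ‖∏ i, ∏ j, rh (x i - y j) ^ 2‖ = ∑ i, ∑ j, mEx (x i - y j) := by
    refine ⟨Finset.prod_ne_zero_iff.2 fun i _ => Finset.prod_ne_zero_iff.2 fun j _ =>
      pow_ne_zero _ (rxy i j), ?_⟩
    rw [norm_prod, Real.log_prod fun i _ => norm_ne_zero_iff.2
      (Finset.prod_ne_zero_iff.2 fun j _ => pow_ne_zero _ (rxy i j))]
    refine Finset.sum_congr rfl fun i _ => ?_
    rw [norm_prod, Real.log_prod fun j _ => norm_ne_zero_iff.2 (pow_ne_zero _ (rxy i j))]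
    refine Finset.sum_congr rfl fun j _ => ?_
    rw [norm_pow, Real.log_pow]
    unfold PBV.PLX.mEx
    push_cast
    rfl
  have rpq := rh_ne_zero (hd5 hp hq)
  have hs : sin (NUP1.l : ℂ) ≠ 0 := PBS.sin_ne_of_bd (by simp; exact hl) (by simp; rw [hll]; linarith)
  have e : preU x y p q = 9 / 4 * sin NUP1.l / rh (p - q) ^ 2 *
        ((∏ i, ∏ j, oR (x i - x j)) * (∏ i, ∏ j, oR (y i - y j)) / (∏ i, ∏ j, rh (x i - y j) ^ 2) *
        (∏ i, (eT (p - x i) * eT (q - x i))) * ∏ j, (eT (p - y j) * eT (q - y j))) := by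
    unfold preU
    rw [pre_own hP, mul_div_cancel_left₀ _ (bulkU_ne hP)]
  have c0 : (9 / 4 * sin (NUP1.l : ℂ) / rh (p - q) ^ 2) ≠ 0 :=
    div_ne_zero (mul_ne_zero (by norm_num) hs) (pow_ne_zero _ rpq)
  have c1 := div_ne_zero (mul_ne_zero nx ny) d2.1
  have c2 := mul_ne_zero c1 mx
  have hne : preU x y p q ≠ 0 := by
    rw [e]
    exact mul_ne_zero c0 (mul_ne_zero c2 my)
  refine ⟨hne, ?_⟩
  have h94 : ‖(9 / 4 : ℂ)‖ = 9 / 4 := by norm_num
  have e0 : ‖(9 / 4 * sin (NUP1.l : ℂ) / rh (p - q) ^ 2)‖ = 9 / 4 * ‖sin (NUP1.l : ℂ)‖ / ‖rh (p - q)‖ ^ 2 := by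
    rw [norm_div, norm_mul, norm_pow, h94]
  have e1 : Real.log ‖(∏ i, ∏ j, oR (x i - x j)) * (∏ i, ∏ j, oR (y i - y j)) / (∏ i, ∏ j, rh (x i - y j) ^ 2)‖ =
      Real.log ‖∏ i, ∏ j, oR (x i - x j)‖ + Real.log ‖∏ i, ∏ j, oR (y i - y j)‖ -
        Real.log ‖∏ i, ∏ j, rh (x i - y j) ^ 2‖ := by
    rw [norm_div, Real.log_div (norm_ne_zero_iff.2 (mul_ne_zero nx ny)) (norm_ne_zero_iff.2 d2.1), norm_mul,
      Real.log_mul (norm_ne_zero_iff.2 nx) (norm_ne_zero_iff.2 ny)]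
  rw [e, norm_mul, Real.log_mul (norm_ne_zero_iff.2 c0) (norm_ne_zero_iff.2 (mul_ne_zero c2 my)), norm_mul,
    Real.log_mul (norm_ne_zero_iff.2 c2) (norm_ne_zero_iff.2 my), norm_mul,
    Real.log_mul (norm_ne_zero_iff.2 c1) (norm_ne_zero_iff.2 mx), e1, lx, ly, kx, ky, d2.2, e0]
  unfold Q2E
  ring

/-! ### the rows of the second group are `q`-fold -/

variable [Fil]

/-- **the energy for `y = yq x`** -/
theorem Q2E_yq (x : Fin m → ℂ) (p q : ℂ) : Q2E x (yq x) p q =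
    (∑ i, ∑ j, (1 / 2 * (1 + (Fil.q : ℝ) ^ 2) * mEo (x i - x j) + Fil.q * mEx (x i - x j))) +
      (1 + Fil.q) * ∑ i, (lE (p - x i) + lE (q - x i)) := by
  have y1 : ∑ i, ∑ j, mEo (yq x i - yq x j) = Fil.q * (Fil.q * ∑ i, ∑ j, mEo (x i - x j)) := by
    have e1 : ∀ i, ∑ j, mEo (yq x i - yq x j) = Fil.q * ∑ j, mEo (yq x i - x j) := fun i =>
      Pool.Agent.PLX.sum_yqn_real _ (fun w => mEo (yq x i - w)) _
    simp only [e1]
    rw [← Finset.mul_sum]
    congr 1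
    exact Pool.Agent.PLX.sum_yqn_real _ (fun w => ∑ j, mEo (w - x j)) _
  have y2 : ∑ i, ∑ j, mEx (x i - yq x j) = Fil.q * ∑ i, ∑ j, mEx (x i - x j) := by
    have e1 : ∀ i, ∑ j, mEx (x i - yq x j) = Fil.q * ∑ j, mEx (x i - x j) := fun i =>
      Pool.Agent.PLX.sum_yqn_real _ (fun w => mEx (x i - w)) _
    simp only [e1]
    rw [← Finset.mul_sum]
  have y3 : ∑ j, (lE (p - yq x j) + lE (q - yq x j)) = Fil.q * ∑ i, (lE (p - x i) + lE (q - x i)) :=
    Pool.Agent.PLX.sum_yqn_real _ (fun w => lE (p - w) + lE (q - w)) _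
  unfold Q2E
  rw [y1, y2, y3]
  simp only [Finset.sum_add_distrib, ← Finset.mul_sum]
  ring

/-- the energy against the row part of the mean field -/
theorem Q2E_mE (x : Fin m → ℂ) : (∑ i, ∑ j, (1 / 2 * (1 + (Fil.q : ℝ) ^ 2) * mEo (x i - x j) +
      Fil.q * mEx (x i - x j))) =
    1 / 2 * (1 + (Fil.q : ℝ) ^ 2) * (∑ i, ∑ j, mE (x i - x j)) -
      1 / 2 * ((Fil.q : ℝ) - 1) ^ 2 * ∑ i, ∑ j, mEx (x i - x j) := by
  rw [Finset.mul_sum, Finset.mul_sum, ← Finset.sum_sub_distrib]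
  refine Finset.sum_congr rfl fun i _ => ?_
  rw [Finset.mul_sum, Finset.mul_sum, ← Finset.sum_sub_distrib]
  refine Finset.sum_congr rfl fun j _ => ?_
  rw [← mE_add (x i - x j)]
  ring

end H1

end PLT

end
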