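import Pool.Agent.PHK.Mst06

/-!
# The regular function over a family of data, on the window of the half quanta, any range of the numbers

* **`mst_famN`**: families of data, sums over `n ≤ N k ≤ 2 k`, on the window `|τ|, |τ'| ≤ 3/8 log k`: the
  error `C k ^ (-7/16 + ε) exp (EM k)` and the pointwise bound of the integrand, from `SumBd6`, `ClOk6`;
* `ms_famN`: measurability of the integrand.
-/

set_option autoImplicit false
set_option linter.unusedSectionVars false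

noncomputable section

open Complex MeasureTheory Finset Filter
open scoped ENNReal
open PLX (Fil Ends)

namespace PLT.H1

open NUO NUP1 NUCR NUP1S NURow NUGC NUGC.PLX PBX PBX.PLX
open PBR PBR.PLX
open NUP1.Leg (Dk)
open _root_.Pool.Agent.PLX
open PHK
open PBF.PLX (Ins Crs)
open PBTR (winW mT)
open PBO.PLX (lX6 lY6 sVal6 sValD6 sInt6 sPt6 LtS SumBd6 ClOk6)

/-- the sum of the moduli at one position -/
theorem sPt_eq {m M e : ℕ} {D : RU m M} {K : PBQ.PLX.KD} {kD : Bool → ℂ → ℂ}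
    (h : IsKD6 K kD D) (N : ℕ) (y : ℝ × ℝ) :
    sPt6 K N e .W .W (vl (NUGC.PLX.htL .W) y.1) (vl (NUGC.PLX.htL .W) y.2) =
      ‖preWW6 D y‖ * ∑ n ∈ range (N + 1), ‖objWW6 D e n y‖ := by
  unfold sPt6
  rw [h.cl, h.zX, h.zY, cFWW_pre]
  exact congrArg (fun z => ‖preWW6 D y‖ * z) (Finset.sum_congr rfl fun n _ => by rw [cFWW_Z])

variable [Fil]

/-- the integrand is measurable -/
theorem ms_famN (hFF : FFth) {m M e : ℕ} {D : RU m M} (H : D.Ok6) (hβ : 1 < D.β)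
    {ex : Bool → List ℂ} {c0 ep : ℝ} (h : RFn6 D e ex c0) (hep0 : 0 < ep) (hep : ep ≤ 1 / 100)
    {N : ℕ} {η η' : ℝ × ℝ → Crs} (hη : ∀ y, ∀ r ≤ 2 * (N + (N + e)),
      ∀ᵐ O ∂(Measure.pi fun _ : Fin r => nu), CurB ep (η y r O) (η' y r O)) (S : Set (ℝ × ℝ)) :
    AEStronglyMeasurable (fun y => preWW6 D y * ∑ n ∈ range (N + 1),
      FF6 (ZWW6 D y) par6 n (n + e) (η y) (η' y) (fun _ _ _ _ _ => 1)) (volume.restrict S) := by
  have e1 : (fun y => preWW6 D y * ∑ n ∈ range (N + 1),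
      FF6 (ZWW6 D y) par6 n (n + e) (η y) (η' y) (fun _ _ _ _ _ => 1)) =
      fun y => ∑ n ∈ range (N + 1), preWW6 D y * objWW6 D e n y := by
    funext y
    rw [Finset.mul_sum]
    refine Finset.sum_congr rfl fun n hn => ?_
    rw [objWW6_FF hFF h hep0 hep n y
      fun r hr => hη y r (by have := Finset.mem_range.1 hn; omega)]
  rw [e1]
  have h2 : Integrable (fun y => ∑ n ∈ range (N + 1), preWW6 D y * objWW6 D e n y) :=
    integrable_finsetSum _ fun n _ => int_preWW6 H hβ h.hM n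
  exact h2.aestronglyMeasurable.restrict

variable [Ends]

/-- **The regular function over a family of data, on the window.** -/
theorem mst_famN (hFF : FFth) {T : LtS} {EM : ℕ → ℝ} {MF : ℕ → Bool → NUSp.Cl → ℂ → ℝ}
    {K : ℝ → ℕ → PBQ.PLX.KD} {kD : ℝ → ℕ → Bool → ℂ → ℂ}
    {cw : ℝ → ℕ → HT → HT → ℝ × ℝ → Ch6 × Ch6 → ℝ} (hP : SumBd6 T EM MF K kD cw)
    (hK : ClOk6 T MF K kD cw) {mm MM N : ℕ → ℕ} (hN : ∀ k, N k ≤ 2 * k)
    {D : ∀ (_ : ℝ) (k : ℕ), RU (mm k) (MM k)}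
    (hD : ∀ ep : ℝ, 0 < ep → ep ≤ 1 / 100 → ∃ k1 : ℕ, ∀ k ≥ k1, (D ep k).Ok6 ∧ 1 < (D ep k).β ∧
      (∃ (ex : Bool → List ℂ) (c0 : ℝ), RFn6 (D ep k) (Fil.xe k) ex c0) ∧
      IsKD6 (K ep k) (kD ep k) (D ep k)) :
    ∀ ε : ℝ, 0 < ε → ∃ ep0 : ℝ, 0 < ep0 ∧ ep0 ≤ 1 / 100 ∧
      ∀ ep : ℝ, 0 < ep → ep ≤ ep0 → ∃ (Cst : ℝ) (k0 : ℕ), 0 ≤ Cst ∧ 1 ≤ k0 ∧ ∀ k : ℕ, k0 ≤ k →
        ∀ η η' : ℝ × ℝ → Crs, (∀ y, ∀ r ≤ 2 * (N k + (N k + Fil.xe k)),
          ∀ᵐ O ∂(Measure.pi fun _ : Fin r => nu), CurB ep (η y r O) (η' y r O)) →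
        ‖∑ n ∈ range (N k + 1), EED6 (D ep k) (Fil.xe k) n - (2 * (Real.pi : ℂ))⁻¹ ^ 2 *
          ∫ y in winW (3 / 8) k, preWW6 (D ep k) y * ∑ n ∈ range (N k + 1),
            FF6 (ZWW6 (D ep k) y) par6 n (n + Fil.xe k) (η y) (η' y) (fun _ _ _ _ _ => 1)‖ ≤
          Cst * (k : ℝ) ^ (-(7 / 16) + ε) * Real.exp (EM k) ∧
        ∀ y ∈ winW (3 / 8) k, ‖preWW6 (D ep k) y * ∑ n ∈ range (N k + 1),
            FF6 (ZWW6 (D ep k) y) par6 n (n + Fil.xe k) (η y) (η' y) (fun _ _ _ _ _ => 1)‖ ≤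
          Cst * ((k : ℝ) ^ ε * Real.exp (-(mT y))) * Real.exp (EM k) := by
  intro ε hε
  obtain ⟨ep0, h0, h1, hoth⟩ := PBO.PLX.oth06 hP hK ε hε
  refine ⟨ep0, h0, h1, fun ep hep hep' => ?_⟩
  obtain ⟨Cst, k0, hC, hk0, hk⟩ := hoth ep hep hep'
  have hep1 : ep ≤ 1 / 100 := hep'.trans h1
  obtain ⟨k1, hD⟩ := hD ep hep hep1
  refine ⟨RG.KA * Cst + (2 * Real.pi)⁻¹ ^ 2 * (2 * Cst) + Cst, max k0 k1, by
    have := RG.KA_nonneg
    positivity, hk0.trans (le_max_left _ _), fun k hkk η η' hη => ?_⟩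
  have hkk0 : k0 ≤ k := (le_max_left _ _).trans hkk
  obtain ⟨ho, hd, hww, hpt⟩ := hk k hkk0
  obtain ⟨hOk, hβ, ⟨ex, c0, hR⟩, hIs⟩ := hD k ((le_max_right _ _).trans hkk)
  have hk1 : 1 ≤ k := hk0.trans hkk0
  have hkR : (1 : ℝ) ≤ k := by exact_mod_cast hk1
  have hkR0 : (0 : ℝ) < k := by linarith
  obtain ⟨X, hX⟩ : ∃ X : ℝ, X = Real.exp (EM k) := ⟨_, rfl⟩
  have hX0 : 0 < X := by rw [hX]; exact Real.exp_pos _
  rw [← hX] at ho hd hww hpt ⊢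
  have hKA := RG.KA_nonneg
  refine ⟨?_, fun y hy => ?_⟩
  · have hw := hww (winW (3 / 8) k)ᶜ (15 / 16 * Real.log k)
      (PBTR.measurableSet_winW _ _).compl fun z hz => out_win6 hz
    have e1 : Real.exp (-(15 / 16 * Real.log k)) * (k : ℝ) ^ ε ≤ (k : ℝ) ^ (-(7 / 16) + ε) := by
      have e2 : Real.exp (-(15 / 16 * Real.log k)) = (k : ℝ) ^ (-(15 / 16) : ℝ) := by
        rw [Real.rpow_def_of_pos hkR0]
        congr 1
        ring
      rw [e2, ← Real.rpow_add hkR0]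
      exact Real.rpow_le_rpow_of_exponent_le hkR (by linarith)
    have hB' : 0 ≤ 2 * Cst * (k : ℝ) ^ (-(7 / 16) + ε) * X := by positivity
    have hf : sInt6 (K ep k) (2 * k) (Fil.xe k) .W .W (winW (3 / 8) k)ᶜ ≤
        ENNReal.ofReal (2 * Cst * (k : ℝ) ^ (-(7 / 16) + ε) * X) := by
      refine hw.trans (ENNReal.ofReal_le_ofReal ?_)
      refine mul_le_mul_of_nonneg_right ?_ hX0.le
      calc Cst * (Real.exp (-(15 / 16 * Real.log k)) * (k : ℝ) ^ ε + (k : ℝ) ^ (-(7 / 16) + ε))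
          ≤ Cst * ((k : ℝ) ^ (-(7 / 16) + ε) + (k : ℝ) ^ (-(7 / 16) + ε)) := by gcongr
        _ = _ := by ring
    refine (mst_FF6 hFF hOk hβ hR hep hep1 hIs (N := 2 * k) (N' := N k) (hN k) hB'
      ho hd (PBTR.measurableSet_winW _ _) hf η η' hη).trans ?_
    have h3 : 0 ≤ (k : ℝ) ^ (-(7 / 16) + ε) * X := by positivity
    calc RG.KA * (Cst * (k : ℝ) ^ (-(7 / 16) + ε) * X) + (2 * Real.pi)⁻¹ ^ 2 *
          (2 * Cst * (k : ℝ) ^ (-(7 / 16) + ε) * X)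
        = (RG.KA * Cst + (2 * Real.pi)⁻¹ ^ 2 * (2 * Cst)) * ((k : ℝ) ^ (-(7 / 16) + ε) * X) := by
          ring
      _ ≤ (RG.KA * Cst + (2 * Real.pi)⁻¹ ^ 2 * (2 * Cst) + Cst) *
          ((k : ℝ) ^ (-(7 / 16) + ε) * X) := by
          refine mul_le_mul_of_nonneg_right ?_ h3
          linarith
      _ = _ := by ring
  · have h2 := hpt y hy.1 hy.2
    have e1 : ∑ n ∈ range (N k + 1),
        FF6 (ZWW6 (D ep k) y) par6 n (n + Fil.xe k) (η y) (η' y) (fun _ _ _ _ _ => 1) =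
        ∑ n ∈ range (N k + 1), objWW6 (D ep k) (Fil.xe k) n y := by
      refine Finset.sum_congr rfl fun n hn => ?_
      exact (objWW6_FF hFF hR hep hep1 n y
        fun r hr => hη y r (by have := Finset.mem_range.1 hn; omega)).symm
    rw [e1, norm_mul]
    rw [sPt_eq hIs] at h2
    have e3 : ‖∑ n ∈ range (N k + 1), objWW6 (D ep k) (Fil.xe k) n y‖ ≤
        ∑ n ∈ range (2 * k + 1), ‖objWW6 (D ep k) (Fil.xe k) n y‖ :=
      (norm_sum_le _ _).trans (Finset.sum_le_sum_of_subset_of_nonneg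
        (Finset.range_subset_range.2 (by have := hN k; omega)) fun _ _ _ => norm_nonneg _)
    refine (mul_le_mul_of_nonneg_left e3 (norm_nonneg _)).trans (h2.trans ?_)
    have e4 : Real.exp (-(2 * |y.1| + 2 * |y.2| + |y.1 - y.2| / 2)) =
        Real.exp (-(mT y)) := by
      unfold PBTR.mT
      congr 1
    rw [e4]
    have h4 : 0 ≤ (k : ℝ) ^ ε * Real.exp (-(mT y)) := by positivity
    have h5 : 0 ≤ RG.KA * Cst + (2 * Real.pi)⁻¹ ^ 2 * (2 * Cst) := by positivity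
    calc Cst * (Real.exp (-(mT y)) * (k : ℝ) ^ ε) * X
        = Cst * ((k : ℝ) ^ ε * Real.exp (-(mT y))) * X := by ring
      _ ≤ _ := by
        refine mul_le_mul_of_nonneg_right (mul_le_mul_of_nonneg_right ?_ h4) hX0.le
        linarith

end PLT.H1

end
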