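import Pool.Agent.PHK.Oth16
import Pool.Agent.PHK.LetO

/-!
# THETA, SH1.Own: the gains of the letters over rows at arbitrary heights (helper25)

* `AgS a s τ = ∑ i, Ag a (τ - s i)`; `AgS_nonneg`, `AgS_ge`;
* **`sm_AgS`** : `exp (- AgS a s τ)` is small in the bulk, uniformly in the heights `|s i| ≤ h0`;
* `fTI s t u τ` : the gain of a letter; `fTI_pos`, `fTI_le_one`, **`sm_fTI`**; `fTI_zero`: rows `0`.
-/

set_option autoImplicit false
set_option linter.unusedSectionVars false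

noncomputable section

open Finset

namespace PBO.PLX

open NUO NUP1 NUCR NURow NUP1.Leg NUGC NUGC.PLX
open PHK
open PBR.PLX (Ch6 okC6)
open NUMF (Ag)

variable {ι : Type*} [Fintype ι]

/-- the decay of rows at the heights `s` -/
def AgS (a : ℝ) (s : ι → ℝ) (τ : ℝ) : ℝ := ∑ i, Ag a (τ - s i)

theorem AgS_nonneg {a : ℝ} (h0 : 0 ≤ a) (h1 : a < 1) (s : ι → ℝ) (τ : ℝ) : 0 ≤ AgS a s τ :=
  Finset.sum_nonneg fun _ _ => NUMF.Ag_nonneg h0 h1 _

theorem AgS_zero (a τ : ℝ) (s : ι → ℝ) (hs : ∀ i, s i = 0) :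
    AgS a s τ = (Fintype.card ι : ℝ) * Ag a τ := by
  unfold AgS
  simp [hs]

/-- lower bound, heights at most `h0` -/
theorem AgS_ge {a : ℝ} (ha : 0 < a) (ha1 : a < 1) {h0 : ℝ} {s : ι → ℝ} (hs : ∀ i, |s i| ≤ h0) (τ : ℝ) :
    6 / (7 * √3) * Real.sin (8 / 3 * (a * NUMF.l)) * Real.exp (-(8 / 3 * h0)) *
      ((Fintype.card ι : ℝ) * Real.exp (-(8 / 3) * |τ|)) ≤ AgS a s τ := by
  have hl := NUMF.l_pos
  have hsin : 0 < Real.sin (8 / 3 * (a * NUMF.l)) := by
    refine Real.sin_pos_of_pos_of_lt_pi (by positivity) ?_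
    rw [← NUHM.l8]
    nlinarith
  set c := 6 / (7 * √3) * Real.sin (8 / 3 * (a * NUMF.l)) with hc
  have hc0 : 0 < c := by positivity
  have key : ∀ i, c * Real.exp (-(8 / 3 * h0)) * Real.exp (-(8 / 3) * |τ|) ≤ Ag a (τ - s i) := by
    intro i
    have h := NUMF.Ag_ge (a := a) ha.le ha1 (τ - s i)
    have h2 : Real.exp (-(8 / 3 * h0)) * Real.exp (-(8 / 3) * |τ|) ≤
        Real.exp (-(8 / 3) * |τ - s i|) := by
      rw [← Real.exp_add]
      refine Real.exp_le_exp.2 ?_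
      have h3 := abs_sub τ (s i)
      have h4 := hs i
      linarith
    calc c * Real.exp (-(8 / 3 * h0)) * Real.exp (-(8 / 3) * |τ|)
        = c * (Real.exp (-(8 / 3 * h0)) * Real.exp (-(8 / 3) * |τ|)) := by ring
      _ ≤ c * Real.exp (-(8 / 3) * |τ - s i|) := mul_le_mul_of_nonneg_left h2 hc0.le
      _ ≤ _ := by
        refine le_trans (le_of_eq ?_) h
        rw [hc]
  calc c * Real.exp (-(8 / 3 * h0)) * ((Fintype.card ι : ℝ) * Real.exp (-(8 / 3) * |τ|))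
      = ∑ _i : ι, c * Real.exp (-(8 / 3 * h0)) * Real.exp (-(8 / 3) * |τ|) := by
        rw [Finset.sum_const, Finset.card_univ, nsmul_eq_mul]
        ring
    _ ≤ AgS a s τ := Finset.sum_le_sum fun i _ => key i

/-- **the gain of rows at bounded heights is small in the bulk** -/
theorem sm_AgS {a : ℝ} (ha : 0 < a) (ha1 : a < 1) (h0 : ℝ) {e1 : ℝ} (he : 0 < e1) :
    ∃ k0 : ℕ, ∀ k ≥ k0, ∀ s : Fin k → ℝ, (∀ i, |s i| ≤ h0) → ∀ τ : ℝ,
      |τ| ≤ (1 - e1) * Tb (Real.log k) →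
      Real.exp (-AgS a s τ) ≤ Real.exp (-(2 * (1 - e1) * Tb (Real.log k))) := by
  have hl := NUMF.l_pos
  have hsin : 0 < Real.sin (8 / 3 * (a * NUMF.l)) := by
    refine Real.sin_pos_of_pos_of_lt_pi (by positivity) ?_
    rw [← NUHM.l8]
    nlinarith
  obtain ⟨k0, hk0⟩ := PBQ.PLX.fF_small
    (c := 6 / (7 * √3) * Real.sin (8 / 3 * (a * NUMF.l)) * Real.exp (-(8 / 3 * h0)))
    (by positivity) he
  refine ⟨k0, fun k hk s hs τ hτ => le_trans (Real.exp_le_exp.2 (neg_le_neg ?_)) (hk0 k hk τ hτ)⟩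
  have h := AgS_ge ha ha1 hs τ
  rw [Fintype.card_fin] at h
  exact h

/-- **the gain of a letter over rows at the heights `s`** -/
def fTI (s : ι → ℝ) (t : HT) (u : Ch6) (τ : ℝ) : ℝ :=
  match t with
  | .W => 1
  | .F => Real.exp (-AgS (3 / 4) s τ)
  | .P => if u.2 = true then Real.exp (-AgS (3 / 4) s τ) else 1
  | .H => if u.1 = true ∧ u.2 = false then 1 else Real.exp (-AgS (3 / 8) s τ)

theorem fTI_le_one (s : ι → ℝ) (t : HT) (u : Ch6) (τ : ℝ) : fTI s t u τ ≤ 1 := by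
  have h : ∀ a : ℝ, 0 ≤ a → a < 1 → Real.exp (-AgS a s τ) ≤ 1 := by
    intro a h0 h1
    rw [Real.exp_le_one_iff]
    have := AgS_nonneg h0 h1 s τ
    linarith
  unfold fTI
  cases t
  · exact le_rfl
  · exact h _ (by norm_num) (by norm_num)
  · show (if u.2 = true then _ else _) ≤ _
    split_ifs
    · exact h _ (by norm_num) (by norm_num)
    · exact le_rfl
  · show (if u.1 = true ∧ u.2 = false then _ else _) ≤ _
    split_ifs
    · exact le_rfl
    · exact h _ (by norm_num) (by norm_num)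

theorem fTI_pos (s : ι → ℝ) (t : HT) (u : Ch6) (τ : ℝ) : 0 < fTI s t u τ := by
  unfold fTI
  cases t
  · exact one_pos
  · exact Real.exp_pos _
  · show 0 < (if u.2 = true then _ else _)
    split_ifs
    · exact Real.exp_pos _
    · exact one_pos
  · show 0 < (if u.1 = true ∧ u.2 = false then _ else _)
    split_ifs
    · exact one_pos
    · exact Real.exp_pos _

/-- rows `0` -/
theorem fTI_zero (k : ℕ) {s : Fin k → ℝ} (hs : ∀ i, s i = 0) (t : HT) (u : Ch6) (τ : ℝ) :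
    fTI s t u τ = fT6 k t u τ := by
  unfold fTI fT6
  rw [AgS_zero _ _ _ hs, AgS_zero _ _ _ hs, Fintype.card_fin]
  cases t <;> rfl

/-- **the gain of a letter without half quantum at `W` is small in the bulk** -/
theorem sm_fTI (h0 : ℝ) {e1 : ℝ} (he : 0 < e1) : ∃ k0 : ℕ, ∀ k ≥ k0, ∀ s : Fin k → ℝ,
    (∀ i, |s i| ≤ h0) → ∀ (t : HT) (u : Ch6), okC6 t u → t ≠ .W → bc6 t u = .w → ∀ τ : ℝ,
      |τ| ≤ (1 - e1) * Tb (Real.log k) →
      fTI s t u τ ≤ Real.exp (-(2 * (1 - e1) * Tb (Real.log k))) := by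
  obtain ⟨k1, hk1⟩ := sm_AgS (a := 3 / 4) (by norm_num) (by norm_num) h0 he
  obtain ⟨k2, hk2⟩ := sm_AgS (a := 3 / 8) (by norm_num) (by norm_num) h0 he
  refine ⟨max k1 k2, fun m hm s hs t u hu ht hb τ hτ => ?_⟩
  obtain ⟨g1, g2⟩ := max_le_iff.1 hm
  have a1 := hk1 m g1 s hs τ hτ
  have a2 := hk2 m g2 s hs τ hτ
  obtain ⟨u1, u2⟩ := u
  cases t
  · exact absurd rfl ht
  · exact a1
  · cases u2
    · simp [bc6] at hb
    · exact a1
  · cases u1 <;> cases u2
    · simp [bc6] at hb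
    · simp [bc6] at hb
    · simp [bc6] at hb
    · exact a2

end PBO.PLX

end
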