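import Pool.Agent.PLT.GXFam
import Pool.Agent.PLT.SelGC
import Pool.Agent.PLT.EnvLI

/-!
# (S-H1): the geometries of the rows on the imaginary axis, ends `0`, point `par6`

Family over the heights `h`, `|h i| ≤ 1 / 100`, seas `S m h` (`SeaH`): straight, of the content.

* `HI`: the heights; `xH h m = xI m h`; **`GI S en : HI → GeoC`**: 42's `GX` at `par6`, ends `0`;
* `seaG_I`, `cutG_I`; **`gOk_I`**, **`gOk_IL`** (with two letters, sea exponents `mNI`); **`curGU_I`**;
* **`clsRC_I`**: the sums over the numbers of all choices of all classes, uniformly in the heights, from the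
  gas of the class of seas, stability and the one body bounds.
-/

set_option autoImplicit false
set_option linter.unusedSectionVars false

noncomputable section

open Complex MeasureTheory Finset
open scoped ENNReal

open PLX (Fil Ends)

namespace PLT.St

open PHK PBR.PLX
open NUMF (l l_pos)
open NUGC.PLX (OB)
open PotH.PLX (sN)
open Pool.Agent.PLX (rwq yq)

/-- **the heights** -/
def HI : Type := {h : ℕ → ℝ // HtS h}

instance : Nonempty HI := ⟨⟨fun _ => 0, fun _ => by norm_num⟩⟩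

/-- the rows at the heights -/
def xH (h : HI) (m : ℕ) : Fin m → ℂ := xI m h.1

/-- the seas of the heights -/
@[reducible] def SH (S : ℕ → (ℕ → ℝ) → SeaC) (m : ℕ) (h : HI) : SeaC := S m h.1

theorem re_xH (h : HI) (m : ℕ) (k : Fin m) : (xH h m k).re = 0 := (rws0_xI h.2 m).re k

theorem im_xH (h : HI) (m : ℕ) (k : Fin m) : |(xH h m k).im| ≤ 1 := (rws0_xI h.2 m).im k

variable {SB : SeaCB} {S : ℕ → (ℕ → ℝ) → SeaC}

/-- every height carries the sea of its content -/
theorem seaG_I (hS : SeaH SB S) : SeaG SB 0 (SH S) xH (fun _ _ => 0) fun _ _ => True where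
  sea := ⟨0, fun m _ h _ => hS.sea m h.1 h.2⟩
  cnt := ⟨0, fun m _ h _ => hS.cnt m h.1 h.2⟩
  row := ⟨0, fun m _ h _ k => by
    have hl := l_pos
    have h1 := SB.h1
    rw [re_xH]
    constructor <;> linarith⟩
  end_ := ⟨0, fun m _ h _ => by
    have hl := l_pos
    simp only [zero_re, zero_im, abs_zero]
    exact ⟨by linarith, by linarith, le_rfl⟩⟩

variable [Fil] [Ends]

/-- **the cutoffs** -/
theorem cutG_I (ho : Ends.o = 0) (he : Ends.e = 0) (hS : SeaH SB S) :
    CutG (SH S) xH (fun _ _ => 0) fun _ _ => True := by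
  intro ep hep hep1 e1 he1 he2 J hJ
  have hl := l_pos
  obtain ⟨C0, hC0, m0, H⟩ := cutBC_ax SB hep hep1 he1 he2 hJ 2 (hh := 1) zero_le_one
  refine ⟨C0, hC0, m0, fun m hm h _ => ?_⟩
  let _ : SeaC := SH S m h
  have hu : SeaCU SB := hS.sea m h.1 h.2
  have hlen : ∀ a, (List.ofFn (rwq (xH h m) a)).length = Fil.ne a m := by
    intro a
    rw [List.length_ofFn, Pool.Agent.PLX.cond_eq]
    unfold Fil.ne
    rw [he, ho, Nat.sub_zero, Nat.add_zero]
    cases a <;> rfl
  have hpl : ∀ a, ∀ y ∈ List.ofFn (rwq (xH h m) a), y.re = 0 ∧ |y.im| ≤ 1 := by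
    intro a y hy
    obtain ⟨j, rfl⟩ := (List.mem_ofFn' _ _).1 hy
    cases a
    · exact ⟨re_xH h m _, im_xH h m _⟩
    · exact ⟨re_xH h m _, im_xH h m _⟩
  refine H m hm (obX m (xH h m) 0 (4 / 3 * (1 - ep))) (fun a => List.ofFn (rwq (xH h m) a))
    (fun a => List.ofFn (rwq (xH h m) a) ++ [I, -I]) (fun _ => [I, -I]) (hS.eta m h.1 h.2)
    (fun a => rfl) (fun a => ⟨List.Perm.refl _, hpl a, le_rfl, ?_, ?_, ?_⟩)
  · intro y hy
    rw [List.mem_cons, List.mem_singleton] at hy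
    rcases hy with rfl | rfl
    · rw [Complex.I_re, Complex.I_im, abs_one, abs_zero]
      exact ⟨by positivity, le_rfl⟩
    · rw [Complex.neg_re, Complex.neg_im, Complex.I_re, Complex.I_im, neg_zero, abs_zero, abs_neg, abs_one]
      exact ⟨by positivity, le_rfl⟩
  · rw [hlen]
    omega
  · rw [hlen]
    omega

/-- **the geometries of the rows on the axis**, ends `0` -/
def GI (S : ℕ → (ℕ → ℝ) → SeaC) (en : EnC) (h : HI) : GeoC :=
  GX par6 en (fun m => SH S m h) (xH h) fun _ => 0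

/-- the sea exponents of the letters -/
def mNI (S : ℕ → (ℕ → ℝ) → SeaC) (h : HI) : MNC := fun m σ t u τ =>
  @mNC (SH S m h) (sN m) m σ t u τ

/-- **the geometries are admissible** -/
theorem gOk_I (ho : Ends.o = 0) (he : Ends.e = 0) (hS : SeaH SB S) (en : EnC) :
    GOkF SB par6 en (fun _ _ => True) (SH S) (GI S en) :=
  gOkF_X ho he le_rfl (seaG_I hS) (cutG_I ho he hS) par6 en

/-- **the geometries with two letters are admissible** -/
theorem gOk_IL (ho : Ends.o = 0) (he : Ends.e = 0) (hS : SeaH SB S) (en : EnC) :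
    GOkF SB par6 en (fun (_ : ℕ) (_ : HI × Ix6) => True) (fun m y => SH S m y.1)
      (GLU (GI S en) (mNI S)) :=
  gOkF_XL ho he le_rfl (seaG_I hS) (cutG_I ho he hS) par6 en

/-- **the curves are in the strip** -/
theorem curGU_I (hS : SeaH SB S) (en : EnC) : CurGU 0 0 (GI S en) :=
  curGU_X SB ⟨0, fun m _ h => ⟨hS.sea m h.1 h.2, by
    have e := hS.eta m h.1 h.2
    refine @WinC.mk (SH S m h) _ _ (by simp) (by simp) (fun t => ?_) fun t => ?_
    · show -(0 * NUP1.l) ≤ @Cv.eta (S m h.1) t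
      rw [e]
      simp
    · show @Cv.eta (S m h.1) t ≤ 0 * NUP1.l
      rw [e]
      simp⟩⟩ par6 en xH fun _ _ => 0

/-- **the sums over the numbers of all choices of all classes**, uniformly in the heights -/
theorem clsRC_I (ho : Ends.o = 0) (he : Ends.e = 0) (hS : SeaH SB S) {en : EnC}
    (h4 : S4C SB par6 en) (hSt : ∀ i : ℕ → HI, StabU par6 (GeoC.sel (GI S en) i).en)
    (h1 : ∀ i : ℕ → HI × Ix6, OneRC par6 (GeoC.sel (GLU (GI S en) (mNI S)) i))
    (h1' : ∀ i : ℕ → HI, OneRC par6 (GeoC.sel (GI S en) i)) {ρ : ℝ} (hρ : 0 < ρ) :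
    ∃ κ0 : ℝ, 0 < κ0 ∧ κ0 ≤ 1 / 100 ∧
      ∀ ep : ℝ, 0 < ep → ep ≤ κ0 → ∀ e1 : ℝ, 0 < e1 → e1 ≤ κ0 →
      ∀ J : ℝ, 0 ≤ J → Real.exp (-(2 * Real.pi * J)) ≤ κ0 →
      ∃ Cst : ℝ, 0 ≤ Cst ∧ ∃ m0 : ℕ, ∀ m ≥ m0, ∀ i : HI,
        ClsBd par6 (GI S en i) (mNI S i) 0 0 ρ ep e1 J Cst m := by
  obtain ⟨C3, -, h3⟩ := PHK.spec_pin6
  exact clsRC_of par6_good h4 (specPinC_six h3) (gOk_I ho he hS en) (gOk_IL ho he hS en) hSt h1 h1'
    (by norm_num) (by norm_num) (awP_six le_rfl le_rfl) (fun i => (curGU_I hS en).sel i) hρ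

end PLT.St

end
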