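import Pool.Agent.PLT.OthYS
import Pool.Agent.PLT.SelGC
import Pool.Agent.PLT.H1Cls
import Pool.Agent.PLT.BsCR
import Pool.Agent.PLT.GX

/-!
# THETA, row SH1.Sum: the sums over the numbers, sequences of geometries with real curves (helper89)

The class formulas `ClsF6` (straight line, real displacements) against the class bounds `ClsBd` over a curve.

* `curB_of`: real curves in the strip `-(ep / 4) .. ep / 4`; `dsp_dF`, `dsp1_dF`: a straight sea; `RealG`: the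
  curves of a sequence of geometries are real; `realG_GX`;
* `bsC_RB`: the base of the regular function in any strip, data `RB6`; `BsG`: base data of a sequence;
  **`bsG_RF`**: of a family of regular functions; `ob_GX`: the one body data of `GX`;
* `cls_les6`, `cls_leD6`: a class from its choices, real curves; `ClsSq`, `clsSq_of`, `clsSq_ofF`: the class
  bounds of a sequence of geometries, from `clsRC` and from `clsRC_seq`; **`sumBd6_cls`**: `SumBd6` from them;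
* **`sumBdI`**, **`sumBdI_of`**: a sequence of indices of a family; **`sumRF_cls`**: regular functions.
-/

set_option autoImplicit false
set_option linter.unusedSectionVars false

noncomputable section

open Complex MeasureTheory Finset
open scoped ENNReal
open PLX (Fil Ends)

namespace PLTX

open NUO NUP1 NUCR NUP1S NUP1S.Ab NUP1S.AbC NUP1S.AbG NURow NUGC NUGC.PLX PBX PBX.PLX
open NUP1.Leg (thE Ck Dk cc)
open _root_.Pool.Agent.PLX
open PHK PBR.PLX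
open PLT

/-- **The base of the regular function**, any strip, data `RB6`. -/
theorem bsC_RB {m M e : ℕ} (hM : M = m + e) {D : RU m M} {ex : Bool → List ℂ} {c0 : ℝ}
    (h : RB6 D ex c0) {P : Par6} {lo hi : ℝ} (hlo : -(1 / 20) ≤ lo) (hlo' : lo ≤ 0) :
    BsC (XB D.X D.Y) (obRU6 D ex c0) P lo hi (2 * D.β) e
      (⋃ a, Set.range fun i => (xrU D a i).im) := by
  have hl := Bd.l_pos
  have hc : ∀ a : Bool, ‖cond a D.c D.c'‖ = c0 := by
    intro a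
    cases a
    · exact h.c'
    · exact h.c
  have hg : ∀ a : Bool, Measurable (cond a D.g0 D.g0') := by
    intro a
    cases a
    · exact h.m0'
    · exact h.m0
  have hW : ∀ w : ℂ, |w.re| ≤ l / 2 → PtW lo w := by
    intro w hw
    obtain ⟨h1, h2⟩ := abs_le.1 hw
    exact ⟨by nlinarith, by linarith⟩
  have hE : ∀ w : ℂ, |w.re| ≤ l / 2 → PtE w := by
    intro w hw
    obtain ⟨h1, h2⟩ := abs_le.1 hw
    exact ⟨by linarith, by linarith⟩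
  refine (bsC_endsG (P := P) (hi := hi) (N := fun a => cond a m M) (xr := xrU D)
    (c := fun a => cond a D.c D.c') (g0 := fun a => cond a D.g0 D.g0') hM hlo hlo'
    h.b0 h.b1 (fun a i => hW _ (h.Rws a i)) (fun a w hw => hW w (h.hex a w hw)) hg hc
    (hE _ h.hp) (hE _ h.hq)).congr (fun a k u => ?_) fun g => rfl
  cases a
  · show XXU D.c' D.β D.y D.x (gP D.β (ex false)) D.g0' (thE D.p D.p D.q D.q)
        (fun w => thE D.p D.p D.q D.q w * thE D.p D.p D.q D.q (w - l)) k u = D.Y k u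
    unfold RU.Y thS
    rw [h.g', thE_symm D.q D.p]
  · show XXU D.c D.β D.x D.y (gP D.β (ex true)) D.g0 (thE D.p D.p D.q D.q)
        (fun w => thE D.p D.p D.q D.q w * thE D.p D.p D.q D.q (w - l)) k u = D.X k u
    unfold RU.X thS
    rw [h.g]

end PLTX

namespace PLT

open NUO NUP1 NUCR NUP1S NURow NUP1.Leg NUGC NUGC.PLX
open PHK
open PBR.PLX
open PBO.PLX (LtS QL6 QL6_nonneg ltS ClsF6 SumBd6 zPt6 zPtD6)
open PBQ.PLX (KD QGD QGD_nonneg)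
open PBF.PLX (Ins Crs)
open _root_.Pool.Agent.PLX

/-! ### real curves -/

section real

variable [Fil]

/-- **real curves in the strip** `-(ep / 4) .. ep / 4` -/
theorem curB_of {ep : ℝ} {η η' : ℝ → ℝ} (h : CurC (-(ep / 4)) (ep / 4) (dF η) (dF η')) :
    CurB ep η η' := by
  have e0 : ∀ (ζ : ℝ → ℝ) (t : ℝ), (dF ζ true t).im = ζ t := by
    intro ζ t
    unfold dF
    rw [Fil.cv_true]
    simp [dA]
  have e1 : ∀ ζ : ℝ → ℝ, (fun t => (dF ζ true t).im) = ζ := fun ζ => funext (e0 ζ)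
  have hC := h true
  refine ⟨fun t => ?_, ?_, fun t => ?_, ?_⟩
  · have h1 := Complex.imCLM.hasFDerivAt.comp_hasDerivAt t (hC.der t)
    have h2 : HasDerivAt (fun t => (dF η true t).im) (dF η' true t).im t := h1
    rwa [e1, e0] at h2
  · have h1 := Complex.continuous_im.comp hC.cont
    have h2 : Continuous fun t => (dF η' true t).im := h1
    rwa [e1] at h2
  · have h1 := hC.re1 t
    have h2 := hC.re2 t
    rw [e0] at h1 h2
    rw [abs_le]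
    constructor <;> linarith
  · obtain ⟨M, -, hb⟩ := hC.bdd
    refine ⟨M, fun t => ?_⟩
    have h1 := (Complex.abs_im_le_norm (dF η' true t)).trans (hb t).2
    rwa [e0] at h1

/-- **a straight sea**: the displacement is real -/
theorem dsp_dF [SeaC] (h : ∀ t, Cv.eta t = 0) (η : ℝ → ℝ) : dsp η = dF η := by
  have h1 : Cv.eta = fun _ => 0 := funext h
  have h2 : ∀ t, Cv.ga' t = 1 := by
    intro t
    unfold Cv.ga'
    rw [h1]
    simp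
  funext a t
  unfold dsp dF Cv.gD dA NUKer.iD
  rw [h t, h2 t]
  simp

theorem dsp1_dF [SeaC] (h : ∀ t, Cv.eta t = 0) (η η1 : ℝ → ℝ) : dsp1 η η1 = dF η1 := by
  have h1 : Cv.eta = fun _ => 0 := funext h
  have h2 : ∀ t, Cv.ga' t = 1 := by
    intro t
    unfold Cv.ga'
    rw [h1]
    simp
  have h3 : ∀ t, Cv.ga2 t = 0 := by
    intro t
    unfold Cv.ga2
    rw [h1]
    simp
  funext a t
  unfold dsp1 dF Cv.gD1 dA NUKer.iD
  rw [h1, h2 t, h3 t]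
  simp

/-- **the curves of a sequence of geometries are real** -/
def RealG (G : ℕ → GeoC) : Prop := ∃ m0 : ℕ, ∀ m ≥ m0, ∀ e1 J : ℝ, ∃ η η' : ℝ → ℝ,
  (G m).D e1 J m = dF η ∧ (G m).D1 e1 J m = dF η'

/-- **straight seas** -/
theorem realG_GX [Ends] {ι : Type*} (P : Par6) (en : EnC) (S : ι → ℕ → SeaC)
    (x : ι → (m : ℕ) → Fin m → ℂ) (e : ι → ℕ → ℂ) (i : ℕ → ι)
    (h : ∃ m0 : ℕ, ∀ m ≥ m0, ∀ t, @Cv.eta (S (i m) m) t = 0) :
    RealG fun m => GX P en (S (i m)) (x (i m)) (e (i m)) := by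
  obtain ⟨m0, h⟩ := h
  exact ⟨m0, fun m hm e1 J => ⟨@Cv.etaC (S (i m) m) e1 J m m, @Cv.etaC' (S (i m) m) e1 J m m,
    @dsp_dF _ (S (i m) m) (h m hm) _, @dsp1_dF _ (S (i m) m) (h m hm) _ _⟩⟩

end real

/-! ### the base -/

section base

variable [Fil] [Ends]

/-- **base data of a sequence of geometries** -/
def BsG (G : ℕ → GeoC) (K : ℝ → ℕ → KD) : Prop :=
  ∀ ep : ℝ, 0 < ep → ep ≤ 1 / 100 → ∃ m0 : ℕ, ∀ m ≥ m0, ∃ (κ : ℝ) (E0 : Set ℝ),
    BsC (K ep m).Z (fun g => ((G m).B m (4 / 3 * (1 - ep))).mul g) par6 (-(ep / 4)) (ep / 4) κ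
      (Fil.xe m) E0

/-- **base data of a family of regular functions** -/
theorem bsG_RF {K : ℝ → ℕ → KD} {kD : ℝ → ℕ → Bool → ℂ → ℂ} {mm MM : ℕ → ℕ}
    {D : ∀ (_ : ℝ) (k : ℕ), RU (mm k) (MM k)} {ex : Bool → List ℂ} {c0 : ℝ} {G : ℕ → GeoC}
    (hD : ∀ ep : ℝ, 0 < ep → ep ≤ 1 / 100 → ∃ k1 : ℕ, ∀ k : ℕ, k1 ≤ k →
      RFn6 (D ep k) (Fil.xe k) ex c0 ∧ IsKD6 (K ep k) (kD ep k) (D ep k))
    (hob : ∀ ep : ℝ, 0 < ep → ep ≤ 1 / 100 → ∃ k1 : ℕ, ∀ k : ℕ, k1 ≤ k → ∀ g : Bool → ℂ → ℝ,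
      obRU6 (D ep k) ex c0 g = ((G k).B k (4 / 3 * (1 - ep))).mul g) : BsG G K := by
  intro ep h0 h1
  obtain ⟨k1, hD⟩ := hD ep h0 h1
  obtain ⟨k2, hob⟩ := hob ep h0 h1
  refine ⟨max k1 k2, fun m hm => ?_⟩
  obtain ⟨hR, hK⟩ := hD m ((le_max_left _ _).trans hm)
  have ho := hob m ((le_max_right _ _).trans hm)
  have key := (PLTX.bsC_RB (P := par6) (lo := -(ep / 4)) (hi := ep / 4) hR.hM hR.rb (by linarith)
    (by linarith)).congr (fun _ _ _ => rfl) ho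
  rw [← PBO.PLX.kZ_RF hK] at key
  exact ⟨_, _, key⟩

/-- **the one body data of `GX`**: rows `(x | x ^ q)`, ends `e` -/
theorem ob_GX (P : Par6) (en : EnC) (S : ℕ → SeaC) (x : (m : ℕ) → Fin m → ℂ) (e : ℕ → ℂ) {m : ℕ}
    {D : RU m (Fil.q * m)} (h : RQ6 D (fun _ => [I, -I]) (2 * Real.cos NUP1.l)) (hx : D.x = x m)
    (hp : D.p = e m) (hq : D.q = e m) (hF : F0U D = F0X m (x m)) (g : Bool → ℂ → ℝ) :
    obRU6 D (fun _ => [I, -I]) (2 * Real.cos NUP1.l) g =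
      ((GX P en S x e).B m D.β).mul g := by
  rw [h.ob]
  unfold obR6
  rw [hp, hq, hF, hx]
  show PHK.obX6 _ _ _ _ _ _ = NUGC.PLX.OB.mul (obX m (x m) (e m) D.β) g
  unfold obX PHK.obX6 NUGC.PLX.OB.mul
  congr 1
  funext a u
  show _ * (_ * _) = _ * _ * _
  ring

end base

/-! ### the classes, real curves -/

section cls

variable [Fil] {X : Bool → Option O3 → ℂ → ℂ} {P : Par6} {ep : ℝ} {e K : ℕ} {η η' : ℝ → ℝ}

/-- **the sum over the numbers of a class from those of its choices** -/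
theorem cls_sum6 {t t' : HT} {w w' : ℂ} {cw : Ch6 × Ch6 → ℝ} {Zn : ℕ → ℂ} (hcur : CurB ep η η')
    (hZ : ClsV6 X P ep e t t' w w' cw Zn) : ∑ n ∈ range (K + 1), ‖Zn n‖ₑ ≤
      ∑ u, ENNReal.ofReal (cw u) * sFAC X P e K t t' w w' u (dF η) (dF η') := by
  unfold sFAC
  simp_rw [Finset.mul_sum]
  rw [Finset.sum_comm]
  refine Finset.sum_le_sum fun n _ => ?_
  obtain ⟨Ψ, hΨ, hn⟩ := hZ (fun _ _ _ => η) (fun _ _ _ => η') (fun _ _ _ => hcur) n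
  rw [hn]
  refine (enorm_sum_le _ _).trans (Finset.sum_le_sum fun u _ => ?_)
  split_ifs
  · exact (FF6_le _).trans ((FAC_dF _ _ _ _ _ _ _).symm.le.trans (FAC_cst (hΨ u)))
  · simp

/-- **the sum over the numbers of a class**, real form -/
theorem cls_les6 {t t' : HT} {w w' : ℂ} {cw Q : Ch6 × Ch6 → ℝ} {Zn : ℕ → ℂ} (hcur : CurB ep η η')
    (hZ : ClsV6 X P ep e t t' w w' cw Zn) (hcw : ∀ u, 0 ≤ cw u) (hQ : ∀ u, 0 ≤ Q u)
    (hs : ∀ u, cw u ≠ 0 → sFAC X P e K t t' w w' u (dF η) (dF η') ≤ ENNReal.ofReal (Q u)) :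
    ∑ n ∈ range (K + 1), ‖Zn n‖ ≤ ∑ u, cw u * Q u := by
  have h0 : 0 ≤ ∑ u, cw u * Q u := Finset.sum_nonneg fun u _ => mul_nonneg (hcw u) (hQ u)
  have key : ∑ n ∈ range (K + 1), ‖Zn n‖ₑ ≤ ENNReal.ofReal (∑ u, cw u * Q u) := by
    refine (cls_sum6 hcur hZ).trans ?_
    rw [ENNReal.ofReal_sum_of_nonneg fun u _ => mul_nonneg (hcw u) (hQ u)]
    refine Finset.sum_le_sum fun u _ => ?_
    rw [ENNReal.ofReal_mul (hcw u)]
    by_cases hu : cw u = 0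
    · rw [hu, ENNReal.ofReal_zero, zero_mul, zero_mul]
    · exact mul_le_mul' le_rfl (hs u hu)
  rw [sum_enorm_eq] at key
  exact (ENNReal.ofReal_le_ofReal_iff h0).1 key

/-- **the classes D1, D1'** -/
theorem cls_leD6 {o : Bool} {w : ℂ} {Zn : ℕ → ℂ} (hcur : CurB ep η η')
    (hZ : ClsD6 X P ep e o w Zn) {Q : ℝ} (hQ : 0 ≤ Q)
    (hs : ∑ n ∈ range (K + 1), FAC (YD6 X o w) P n (n + e) (fun _ _ => dF η)
      (fun _ _ => dF η') (fun _ _ _ _ _ => 1) ≤ ENNReal.ofReal Q) :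
    ∑ n ∈ range (K + 1), ‖Zn n‖ ≤ Q := by
  have key : ∑ n ∈ range (K + 1), ‖Zn n‖ₑ ≤ ENNReal.ofReal Q := by
    refine le_trans (Finset.sum_le_sum fun n _ => ?_) hs
    rw [hZ (fun _ _ => η) (fun _ _ => η') (fun _ _ => hcur) n]
    exact (FF6_le _).trans (FAC_dF _ _ _ _ _ _ _).symm.le
  rw [sum_enorm_eq] at key
  exact (ENNReal.ofReal_le_ofReal_iff hQ).1 key

end cls

/-! ### the sums -/

section sum

variable [Fil] [Ends]

/-- **the class bounds of a sequence of geometries**, straight line -/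
def ClsSq (G : ℕ → GeoC) (mN : ℕ → MNC) : Prop :=
  ∀ ρ : ℝ, 0 < ρ → ∃ κ0 : ℝ, 0 < κ0 ∧ κ0 ≤ 1 / 100 ∧ ∀ ep : ℝ, 0 < ep → ep ≤ κ0 →
    ∀ e1 : ℝ, 0 < e1 → e1 ≤ κ0 → ∀ J : ℝ, 0 ≤ J → Real.exp (-(2 * Real.pi * J)) ≤ κ0 →
    ∃ Cst : ℝ, 0 ≤ Cst ∧ ∃ m0 : ℕ, ∀ m ≥ m0, ClsBd par6 (G m) (mN m) 0 0 ρ ep e1 J Cst m

/-- **the class bounds of a sequence of indices of a family** -/
theorem clsSq_of {ι : Type*} [Nonempty ι] (G : ι → GeoC) (mN : ι → MNC)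
    (hB : ∀ i m β, ((G i).B m β).Nn) (hS : ∀ i : ℕ → ι, StabU par6 (GeoC.sel G i).en)
    (h4 : ∀ i : ℕ → ι × Ix6, S4RC par6 (GeoC.sel (GLU G mN) i))
    (h1 : ∀ i : ℕ → ι × Ix6, OneRC par6 (GeoC.sel (GLU G mN) i))
    (h4' : ∀ i : ℕ → ι, S4RC par6 (GeoC.sel G i)) (h1' : ∀ i : ℕ → ι, OneRC par6 (GeoC.sel G i))
    (hcv : ∀ i : ℕ → ι, CurG 0 0 (GeoC.sel G i)) (i : ℕ → ι) :
    ClsSq (fun m => G (i m)) fun m => mN (i m) := by
  obtain ⟨C3, -, h3⟩ := PHK.spec_pin6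
  intro ρ hρ
  obtain ⟨κ0, hκ, hκ', h⟩ := clsRC par6_good G mN hB hS (specPinC_six h3) h4 h1 h4' h1'
    (by norm_num) (by norm_num) (awP_six le_rfl le_rfl) hcv hρ
  refine ⟨κ0, hκ, hκ', fun ep hep hep1 e1 he he1 J hJ hJ1 => ?_⟩
  obtain ⟨Cst, hC, m0, h⟩ := h ep hep hep1 e1 he he1 J hJ hJ1
  exact ⟨Cst, hC, m0, fun m hm => h m hm (i m)⟩

/-- **the same from `GOkF`**, a sequence eventually in the range -/
theorem clsSq_ofF {SB : SeaCB} {en : EnC} (h4 : S4C SB par6 en) {ι : Type*} {ok : ℕ → ι → Prop}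
    {S : ℕ → ι → SeaC} {G : ι → GeoC} {mN : ι → MNC} (hG : GOkF SB par6 en ok S G)
    (hL : GOkF SB par6 en (fun (m : ℕ) (x : ι × Ix6) => ok m x.1) (fun m x => S m x.1) (GLU G mN))
    (i : ℕ → ι) (hi : ∃ m0 : ℕ, ∀ m ≥ m0, ok m (i m)) (hS : StabU par6 (GeoC.sel G i).en)
    (h1 : ∀ u : ℕ → Ix6, OneRC par6 (GeoC.sel (GLU G mN) fun m => (i m, u m)))
    (h1' : OneRC par6 (GeoC.sel G i)) (hcv : CurG 0 0 (GeoC.sel G i)) :
    ClsSq (fun m => G (i m)) fun m => mN (i m) := by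
  obtain ⟨C3, -, h3⟩ := PHK.spec_pin6
  exact fun ρ hρ => clsRC_seq par6_good h4 (specPinC_six h3) hG hL i hi hS h1 h1' (by norm_num)
    (by norm_num) (awP_six le_rfl le_rfl) hcv hρ

variable {K : ℝ → ℕ → KD} {kD : ℝ → ℕ → Bool → ℂ → ℂ}

/-- **the sums over the numbers of a sequence of geometries with real curves**, from the class bounds -/
theorem sumBd6_cls {G : ℕ → GeoC} {mN : ℕ → MNC} (H : ClsSq G mN) (hR : RealG G)
    {cw : ℝ → ℕ → HT → HT → ℝ × ℝ → Ch6 × Ch6 → ℝ} (hC : ClsF6 K kD cw) (hBs : BsG G K)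
    (cw0 : ∀ ep m t t' y u, 0 ≤ cw ep m t t' y u)
    (cwo : ∀ ep m t t' y u, cw ep m t t' y u ≠ 0 → okC6 t u.1 ∧ okC6 t' u.2)
    (f : ℝ → ℕ → HT → Ch6 → ℝ → ℝ) :
    SumBd6 (ltS f fun m a t u τ => MEC (mN m) (G m).MF m a t u τ) (fun m => (G m).EM m)
      (fun m => (G m).MF m) K kD cw := by
  intro ρ hρ
  obtain ⟨κ0, hκ0, hκ1, H⟩ := H ρ hρ
  obtain ⟨n4, hR⟩ := hR
  refine ⟨κ0, hκ0, hκ1, fun ep hep hep1 => ?_⟩
  have hep2 : ep ≤ 1 / 100 := hep1.trans hκ1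
  obtain ⟨J, hJ0, hJ⟩ : ∃ J : ℝ, 0 ≤ J ∧ Real.exp (-(2 * Real.pi * J)) ≤ κ0 := by
    refine ⟨max 0 (-Real.log κ0), le_max_left _ _, ?_⟩
    have hpi := Real.pi_gt_three
    have h1 : -Real.log κ0 ≤ 2 * Real.pi * max 0 (-Real.log κ0) := by
      have h2 := le_max_right 0 (-Real.log κ0)
      have h3 := le_max_left 0 (-Real.log κ0)
      nlinarith
    calc Real.exp (-(2 * Real.pi * max 0 (-Real.log κ0))) ≤ Real.exp (Real.log κ0) :=
          Real.exp_le_exp.2 (by linarith)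
      _ = κ0 := Real.exp_log hκ0
  obtain ⟨Cst, hCst, M0, hM0⟩ := H ep hep hep1 ep hep hep1 J hJ0 hJ
  obtain ⟨n0, h0⟩ := hC.cls ep hep hep2
  obtain ⟨n1, h1⟩ := hC.clsW ep hep hep2
  obtain ⟨n2, h2⟩ := hC.clsD ep hep hep2
  obtain ⟨n3, h3⟩ := hBs ep hep hep2
  refine ⟨J, hJ0, Cst, hCst, max (max M0 n0) (max (max n1 n2) (max n3 n4)), fun m hm => ?_⟩
  obtain ⟨hma, hmb⟩ := max_le_iff.1 hm
  obtain ⟨g0, g1⟩ := max_le_iff.1 hma
  obtain ⟨hmc, hmd⟩ := max_le_iff.1 hmb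
  obtain ⟨g2, g3⟩ := max_le_iff.1 hmc
  obtain ⟨g4, g5⟩ := max_le_iff.1 hmd
  obtain ⟨hcur, hSD⟩ := hM0 m g0
  obtain ⟨κ, E0, hbs⟩ := h3 m g4
  obtain ⟨η, η', e1, e2⟩ := hR m g5 ep J
  rw [zero_add, e1, e2] at hcur
  have hcB : CurB ep η η' := curB_of hcur
  obtain ⟨hSS, hD⟩ := hSD _ _ κ E0 (by rw [zero_add]; exact hbs) fun g => rfl
  rw [e1, e2] at hSS hD
  have hA : 0 ≤ Cst * (m : ℝ) ^ ρ * Real.exp ((G m).EM m) := by positivity
  have key : ∀ (t t' : HT) (y : ℝ × ℝ), ClsV6 (K ep m).Z par6 ep (Fil.xe m) t t'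
      (vl (htL t) y.1) (vl (htL t') y.2) (cw ep m t t' y) (zPt6 (K ep m) m t t' y) →
      ∑ n ∈ range (2 * m + 1), ‖zPt6 (K ep m) m t t' y n‖ ≤ ∑ u : Ch6 × Ch6, cw ep m t t' y u *
        QL6 (ltS f fun m a t u τ => MEC (mN m) (G m).MF m a t u τ) ep ep J m
          (Cst * (m : ℝ) ^ ρ * Real.exp ((G m).EM m)) t t' y u := by
    intro t t' y hy
    refine cls_les6 hcB hy (cw0 ep m t t' y) (fun u => QL6_nonneg _ hA t t' y u) fun u hu => ?_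
    obtain ⟨k1, k2⟩ := cwo ep m t t' y u hu
    exact hSS t t' u k1 k2 y
  refine ⟨fun t t' => ?_, fun y => key .W .W y (h1 m g2 y), fun o => ?_⟩
  · filter_upwards [h0 m g1 t t'] with y hy
    exact key t t' y hy
  · filter_upwards [h2 m g3 o] with y hy
    exact cls_leD6 hcB hy (QGD_nonneg hA o y) (hD o y)

/-- **the sums over the numbers of a sequence of indices**, from the class bounds of the family -/
theorem sumBdI {ι : Type*} [Nonempty ι] (G : ι → GeoC) (mN : ι → MNC)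
    (hB : ∀ i m β, ((G i).B m β).Nn) (hS : ∀ i : ℕ → ι, StabU par6 (GeoC.sel G i).en)
    (h4 : ∀ i : ℕ → ι × Ix6, S4RC par6 (GeoC.sel (GLU G mN) i))
    (h1 : ∀ i : ℕ → ι × Ix6, OneRC par6 (GeoC.sel (GLU G mN) i))
    (h4' : ∀ i : ℕ → ι, S4RC par6 (GeoC.sel G i)) (h1' : ∀ i : ℕ → ι, OneRC par6 (GeoC.sel G i))
    (hcv : ∀ i : ℕ → ι, CurG 0 0 (GeoC.sel G i)) (i : ℕ → ι) (hR : RealG fun m => G (i m))
    {cw : ℝ → ℕ → HT → HT → ℝ × ℝ → Ch6 × Ch6 → ℝ} (hC : ClsF6 K kD cw)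
    (hBs : BsG (fun m => G (i m)) K) (cw0 : ∀ ep m t t' y u, 0 ≤ cw ep m t t' y u)
    (cwo : ∀ ep m t t' y u, cw ep m t t' y u ≠ 0 → okC6 t u.1 ∧ okC6 t' u.2)
    (f : ℝ → ℕ → HT → Ch6 → ℝ → ℝ) :
    SumBd6 (ltS f fun m a t u τ => MEC (mN (i m)) (G (i m)).MF m a t u τ)
      (fun m => (G (i m)).EM m) (fun m => (G (i m)).MF m) K kD cw :=
  sumBd6_cls (clsSq_of G mN hB hS h4 h1 h4' h1' hcv i) hR hC hBs cw0 cwo f

/-- **the same from `GOkF`**, a sequence eventually in the range -/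
theorem sumBdI_of {SB : SeaCB} {en : EnC} (h4 : S4C SB par6 en) {ι : Type*} {ok : ℕ → ι → Prop}
    {S : ℕ → ι → SeaC} {G : ι → GeoC} {mN : ι → MNC} (hG : GOkF SB par6 en ok S G)
    (hL : GOkF SB par6 en (fun (m : ℕ) (x : ι × Ix6) => ok m x.1) (fun m x => S m x.1) (GLU G mN))
    (i : ℕ → ι) (hi : ∃ m0 : ℕ, ∀ m ≥ m0, ok m (i m)) (hS : StabU par6 (GeoC.sel G i).en)
    (h1 : ∀ u : ℕ → Ix6, OneRC par6 (GeoC.sel (GLU G mN) fun m => (i m, u m)))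
    (h1' : OneRC par6 (GeoC.sel G i)) (hcv : CurG 0 0 (GeoC.sel G i))
    (hR : RealG fun m => G (i m))
    {cw : ℝ → ℕ → HT → HT → ℝ × ℝ → Ch6 × Ch6 → ℝ} (hC : ClsF6 K kD cw)
    (hBs : BsG (fun m => G (i m)) K) (cw0 : ∀ ep m t t' y u, 0 ≤ cw ep m t t' y u)
    (cwo : ∀ ep m t t' y u, cw ep m t t' y u ≠ 0 → okC6 t u.1 ∧ okC6 t' u.2)
    (f : ℝ → ℕ → HT → Ch6 → ℝ → ℝ) :
    SumBd6 (ltS f fun m a t u τ => MEC (mN (i m)) (G (i m)).MF m a t u τ)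
      (fun m => (G (i m)).EM m) (fun m => (G (i m)).MF m) K kD cw :=
  sumBd6_cls (clsSq_ofF h4 hG hL i hi hS h1 h1' hcv) hR hC hBs cw0 cwo f

/-- **the sums over the numbers of a family of regular functions** against the class bounds of a sequence of
geometries with the same one body data, real curves -/
theorem sumRF_cls {G : ℕ → GeoC} {mN : ℕ → MNC} (H : ClsSq G mN) (hR : RealG G)
    (hWZ : WordThZ) (hFF : FFth) {mm MM : ℕ → ℕ}
    {D : ∀ (_ : ℝ) (k : ℕ), RU (mm k) (MM k)} {ex : Bool → List ℂ} {c0 : ℝ}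
    (hD : ∀ ep : ℝ, 0 < ep → ep ≤ 1 / 100 → ∃ k1 : ℕ, ∀ k : ℕ, k1 ≤ k →
      RFn6 (D ep k) (Fil.xe k) ex c0 ∧ IsKD6 (K ep k) (kD ep k) (D ep k))
    (hob : ∀ ep : ℝ, 0 < ep → ep ≤ 1 / 100 → ∃ k1 : ℕ, ∀ k : ℕ, k1 ≤ k → ∀ g : Bool → ℂ → ℝ,
      obRU6 (D ep k) ex c0 g = ((G k).B k (4 / 3 * (1 - ep))).mul g)
    (f : ℝ → ℕ → HT → Ch6 → ℝ → ℝ) :
    SumBd6 (ltS f fun m a t u τ => MEC (mN m) (G m).MF m a t u τ) (fun m => (G m).EM m)
      (fun m => (G m).MF m) K kD fun ep k t t' y u =>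
        cw6 (K ep k) t t' (vl (htL t) y.1) (vl (htL t') y.2) u :=
  sumBd6_cls H hR (PBO.PLX.clsF_RF hWZ hFF hD) (bsG_RF hD hob)
    (fun _ _ _ _ _ _ => cw6_nonneg _ _ _ _ _ _) (fun _ _ _ _ _ _ hu => cw6_ok _ hu) f

end sum

end PLT

end
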