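import Pool.Agent.PLT.GAct
import Pool.Agent.NUR2.Wo

/-!
# All kernels of the transport argument on a bent curve: definition and consequences (helper78)

`ksW`, `ksG` : the static kernels of the curve; **`KersC R Λ0 Λ Λ' ..`** : the kernels of the curves `id + Dt η` and of the transported
ones `(id + Dt η) ∘ (id + ξ)` are of the class `KC R Λ0`, their differences with the static ones of the classes `KC R Λ`, `KC R Λ'`;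
exact identities. `KersC.relX`, .. , `KersC.logc` : twins of `NUR2/Wo`.
-/

set_option autoImplicit false
set_option linter.unusedSectionVars false

open Complex Set Filter MeasureTheory

namespace PLT

open NUKer NUOC NUR2

noncomputable section

variable [SeaC]

/-- the static own kernel -/
def ksW : ℝ → ℝ → ℝ := kw (iD Cv.eta) (iD (deriv Cv.eta))

/-- the static cross kernel -/
def ksG : ℝ → ℝ → ℝ := kg (iD Cv.eta) (iD Cv.eta)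

open Cv (Dt Dt1)

/-- **kernel data of the paths `id + Dt η_a` and of the transported ones**, `a = X, Y` -/
structure KersC (R Λ0 Λ Λ' : ℝ) (ηX ηX1 ηY ηY1 ξX ξX1 ξY ξY1 : ℝ → ℝ) : Prop where
  sm_X : Sm R (Dt ηX) (Dt1 ηX ηX1)
  sm_Y : Sm R (Dt ηY) (Dt1 ηY ηY1)
  sm_c : Sm2 R (Dt ηX) (Dt ηY)
  sm_X' : Sm R (cD ξX (Dt ηX)) (cD1 ξX ξX1 (Dt1 ηX ηX1))
  sm_Y' : Sm R (cD ξY (Dt ηY)) (cD1 ξY ξY1 (Dt1 ηY ηY1))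
  sm_c' : Sm2 R (cD ξX (Dt ηX)) (cD ξY (Dt ηY))
  /-- classes of the static kernels -/
  kS : KC R Λ0 (fun t t' => ((ksW t t' : ℝ) : ℂ))
  kG : KC R Λ0 (fun t t' => ((ksG t t' : ℝ) : ℂ))
  /-- classes -/
  kX : KC R Λ0 (fun t t' => ((kw (Dt ηX) (Dt1 ηX ηX1) t t' : ℝ) : ℂ))
  kY : KC R Λ0 (fun t t' => ((kw (Dt ηY) (Dt1 ηY ηY1) t t' : ℝ) : ℂ))
  kc : KC R Λ0 (fun t t' => ((kg (Dt ηX) (Dt ηY) t t' : ℝ) : ℂ))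
  kX' : KC R Λ0 (fun t t' => ((kw (cD ξX (Dt ηX)) (cD1 ξX ξX1 (Dt1 ηX ηX1)) t t' : ℝ) : ℂ))
  kY' : KC R Λ0 (fun t t' => ((kw (cD ξY (Dt ηY)) (cD1 ξY ξY1 (Dt1 ηY ηY1)) t t' : ℝ) : ℂ))
  kc' : KC R Λ0 (fun t t' => ((kg (cD ξX (Dt ηX)) (cD ξY (Dt ηY)) t t' : ℝ) : ℂ))
  /-- differences with the static kernels -/
  nX : KC R Λ (fun t t' => ((kw (Dt ηX) (Dt1 ηX ηX1) t t' - ksW t t' : ℝ) : ℂ))
  nY : KC R Λ (fun t t' => ((kw (Dt ηY) (Dt1 ηY ηY1) t t' - ksW t t' : ℝ) : ℂ))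
  nc : KC R Λ (fun t t' => ((kg (Dt ηX) (Dt ηY) t t' - ksG t t' : ℝ) : ℂ))
  nX' : KC R Λ' (fun t t' => ((kw (cD ξX (Dt ηX)) (cD1 ξX ξX1 (Dt1 ηX ηX1)) t t' - ksW t t' : ℝ) : ℂ))
  nY' : KC R Λ' (fun t t' => ((kw (cD ξY (Dt ηY)) (cD1 ξY ξY1 (Dt1 ηY ηY1)) t t' - ksW t t' : ℝ) : ℂ))
  nc' : KC R Λ' (fun t t' => ((kg (cD ξX (Dt ηX)) (cD ξY (Dt ηY)) t t' - ksG t t' : ℝ) : ℂ))
  /-- symmetry -/
  sX : ∀ x y, |x| ≤ R → |y| ≤ R → kw (Dt ηX) (Dt1 ηX ηX1) x y = kw (Dt ηX) (Dt1 ηX ηX1) y x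
  sY : ∀ x y, |x| ≤ R → |y| ≤ R → kw (Dt ηY) (Dt1 ηY ηY1) x y = kw (Dt ηY) (Dt1 ηY ηY1) y x
  sX' : ∀ x y, |x| ≤ R → |y| ≤ R → kw (cD ξX (Dt ηX)) (cD1 ξX ξX1 (Dt1 ηX ηX1)) x y =
    kw (cD ξX (Dt ηX)) (cD1 ξX ξX1 (Dt1 ηX ηX1)) y x
  sY' : ∀ x y, |x| ≤ R → |y| ≤ R → kw (cD ξY (Dt ηY)) (cD1 ξY ξY1 (Dt1 ηY ηY1)) x y =
    kw (cD ξY (Dt ηY)) (cD1 ξY ξY1 (Dt1 ηY ηY1)) y x
  /-- the exact transport identities -/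
  wX : ∀ x y, |x| ≤ R → |y| ≤ R →
    NUMF.w ((x + ξX x) - (y + ξX y)) * Real.exp (kw (Dt ηX) (Dt1 ηX ηX1) (x + ξX x) (y + ξX y)) =
      NUMF.w (x - y) * Real.exp (kw (cD ξX (Dt ηX)) (cD1 ξX ξX1 (Dt1 ηX ηX1)) x y)
  wY : ∀ x y, |x| ≤ R → |y| ≤ R →
    NUMF.w ((x + ξY x) - (y + ξY y)) * Real.exp (kw (Dt ηY) (Dt1 ηY ηY1) (x + ξY x) (y + ξY y)) =
      NUMF.w (x - y) * Real.exp (kw (cD ξY (Dt ηY)) (cD1 ξY ξY1 (Dt1 ηY ηY1)) x y)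
  gc : ∀ x y, |x| ≤ R → |y| ≤ R →
    NUMF.g ((x + ξX x) - (y + ξY y)) * Real.exp (kg (Dt ηX) (Dt ηY) (x + ξX x) (y + ξY y)) =
      NUMF.g (x - y) * Real.exp (kg (cD ξX (Dt ηX)) (cD ξY (Dt ηY)) x y)
  /-- Jacobians and diagonals -/
  jX : ∀ x, 0 < 1 + ξX1 x
  jY : ∀ x, 0 < 1 + ξY1 x
  dX : ∀ x, kw (cD ξX (Dt ηX)) (cD1 ξX ξX1 (Dt1 ηX ηX1)) x x - kw (Dt ηX) (Dt1 ηX ηX1) x x =
    2 * Real.log (1 + ξX1 x) +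
      2 * (Real.log ‖1 + Dt1 ηX ηX1 (x + ξX x)‖ - Real.log ‖1 + Dt1 ηX ηX1 x‖)
  dY : ∀ x, kw (cD ξY (Dt ηY)) (cD1 ξY ξY1 (Dt1 ηY ηY1)) x x - kw (Dt ηY) (Dt1 ηY ηY1) x x =
    2 * Real.log (1 + ξY1 x) +
      2 * (Real.log ‖1 + Dt1 ηY ηY1 (x + ξY x)‖ - Real.log ‖1 + Dt1 ηY ηY1 x‖)
  /-- the speeds do not vanish -/
  eX : ∀ x, 1 + Dt1 ηX ηX1 x ≠ 0
  eY : ∀ x, 1 + Dt1 ηY ηY1 x ≠ 0

/-! ### the static kernels -/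

lemma eta_d10 (x : ℝ) : ‖iD (deriv Cv.eta) x‖ ≤ 3 / 10 := (Cv.iDeta1_le x).trans (by norm_num)

lemma eta_o40 (t t' : ℝ) : ‖iD Cv.eta t - iD Cv.eta t'‖ ≤ 1 / 40 := (Cv.iDeta_osc t t').trans (Cv.l_lt40.trans (by norm_num))

lemma sm_st (R : ℝ) : Sm R (iD Cv.eta) (iD (deriv Cv.eta)) :=
  Cv.sm_of Cv.hasDerivAt_iDeta Cv.cont_iDeta' eta_d10 eta_o40 R

lemma sm2_st (R : ℝ) : Sm2 R (iD Cv.eta) (iD Cv.eta) := Cv.sm2_of eta_o40 R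

/-- the static own kernel is symmetric everywhere -/
theorem ksW_symm (x y : ℝ) : ksW x y = ksW y x :=
  kw_symm (sm_st (max |x| |y|)) (le_max_left _ _) (le_max_right _ _)

/-- the static cross kernel is symmetric everywhere -/
theorem ksG_symm (x y : ℝ) : ksG x y = ksG y x := kg_symm _ _ x y

theorem ksW_cont : Continuous fun z : ℝ × ℝ => ksW z.1 z.2 :=
  (Cv.bk_w Cv.hasDerivAt_iDeta Cv.cont_iDeta' eta_d10 eta_o40).cont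

theorem ksG_cont : Continuous fun z : ℝ × ℝ => ksG z.1 z.2 :=
  (Cv.bk_g (continuous_iff_continuousAt.2 fun x => (Cv.hasDerivAt_iDeta x).continuousAt)
    (continuous_iff_continuousAt.2 fun x => (Cv.hasDerivAt_iDeta x).continuousAt) eta_o40).cont

/-! ### consequences, twins of `NUR2/Wo` -/

section

variable {R Λ0 Λ Λ' : ℝ} {ηX ηX1 ηY ηY1 ξX ξX1 ξY ξY1 : ℝ → ℝ}

theorem KersC.pX_eq (K : KersC R Λ0 Λ Λ' ηX ηX1 ηY ηY1 ξX ξX1 ξY ξY1) (x y : ℝ) (hx : |x| ≤ R)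
    (hy : |y| ≤ R) : pW (Dt ηX) x y = NUMF.w (x - y) * Real.exp (kw (Dt ηX) (Dt1 ηX ηX1) x y) :=
  norm_wcx K.sm_X hx hy

theorem KersC.pY_eq (K : KersC R Λ0 Λ Λ' ηX ηX1 ηY ηY1 ξX ξX1 ξY ξY1) (x y : ℝ) (hx : |x| ≤ R)
    (hy : |y| ≤ R) : pW (Dt ηY) x y = NUMF.w (x - y) * Real.exp (kw (Dt ηY) (Dt1 ηY ηY1) x y) :=
  norm_wcx K.sm_Y hx hy

theorem KersC.pc_eq (K : KersC R Λ0 Λ Λ' ηX ηX1 ηY ηY1 ξX ξX1 ξY ξY1) (x y : ℝ) (hx : |x| ≤ R)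
    (hy : |y| ≤ R) : pG (Dt ηX) (Dt ηY) x y = NUMF.g (x - y) * Real.exp (kg (Dt ηX) (Dt ηY) x y) :=
  norm_gcx K.sm_c hx hy

variable {ψX ψY : ℝ → ℝ}

theorem KersC.relX (K : KersC R Λ0 Λ Λ' ηX ηX1 ηY ηY1 ξX ξX1 ξY ξY1) (hψ : ∀ x, ψX x = x + ξX x)
    (hR : ∀ x, |x| ≤ R → |ψX x| ≤ R) :
    PairRel R ψX ψX (pW (Dt ηX)) (fun x y => kw (cD ξX (Dt ηX)) (cD1 ξX ξX1 (Dt1 ηX ηX1)) x y -
      kw (Dt ηX) (Dt1 ηX ηX1) x y) :=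
  pair_rel K.pX_eq hR hR fun x y hx hy => by
    rw [hψ, hψ]
    exact K.wX x y hx hy

theorem KersC.relY (K : KersC R Λ0 Λ Λ' ηX ηX1 ηY ηY1 ξX ξX1 ξY ξY1) (hψ : ∀ x, ψY x = x + ξY x)
    (hR : ∀ x, |x| ≤ R → |ψY x| ≤ R) :
    PairRel R ψY ψY (pW (Dt ηY)) (fun x y => kw (cD ξY (Dt ηY)) (cD1 ξY ξY1 (Dt1 ηY ηY1)) x y -
      kw (Dt ηY) (Dt1 ηY ηY1) x y) :=
  pair_rel K.pY_eq hR hR fun x y hx hy => by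
    rw [hψ, hψ]
    exact K.wY x y hx hy

theorem KersC.relc (K : KersC R Λ0 Λ Λ' ηX ηX1 ηY ηY1 ξX ξX1 ξY ξY1) (hψX : ∀ x, ψX x = x + ξX x)
    (hψY : ∀ x, ψY x = x + ξY x) (hX : ∀ x, |x| ≤ R → |ψX x| ≤ R) (hY : ∀ x, |x| ≤ R → |ψY x| ≤ R) :
    PairRel R ψX ψY (pG (Dt ηX) (Dt ηY)) (fun x y => kg (cD ξX (Dt ηX)) (cD ξY (Dt ηY)) x y -
      kg (Dt ηX) (Dt ηY) x y) :=
  pair_rel K.pc_eq hX hY fun x y hx hy => by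
    rw [hψX, hψY]
    exact K.gc x y hx hy

theorem KersC.logX (K : KersC R Λ0 Λ Λ' ηX ηX1 ηY ηY1 ξX ξX1 ξY ξY1) (hψ : ∀ x, ψX x = x + ξX x)
    (hξ : ∀ x, HasDerivAt ξX (ξX1 x) x) {x y : ℝ} (hx : |x| ≤ R) (hy : |y| ≤ R) (hne : x ≠ y) :
    Uw (ψX x - ψX y) - kw (Dt ηX) (Dt1 ηX ηX1) (ψX x) (ψX y) =
      Uw (x - y) - kw (cD ξX (Dt ηX)) (cD1 ξX ξX1 (Dt1 ηX ηX1)) x y := by
  have h1 : ψX x - ψX y ≠ 0 := by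
    rw [hψ, hψ]
    exact sub_ne_zero.2 (ne_of_jac hξ K.jX hne)
  refine pair_log (f := NUMF.w) ?_ (w_pos h1) (w_pos (sub_ne_zero.2 hne))
  rw [hψ, hψ]
  exact K.wX x y hx hy

theorem KersC.logY (K : KersC R Λ0 Λ Λ' ηX ηX1 ηY ηY1 ξX ξX1 ξY ξY1) (hψ : ∀ x, ψY x = x + ξY x)
    (hξ : ∀ x, HasDerivAt ξY (ξY1 x) x) {x y : ℝ} (hx : |x| ≤ R) (hy : |y| ≤ R) (hne : x ≠ y) :
    Uw (ψY x - ψY y) - kw (Dt ηY) (Dt1 ηY ηY1) (ψY x) (ψY y) =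
      Uw (x - y) - kw (cD ξY (Dt ηY)) (cD1 ξY ξY1 (Dt1 ηY ηY1)) x y := by
  have h1 : ψY x - ψY y ≠ 0 := by
    rw [hψ, hψ]
    exact sub_ne_zero.2 (ne_of_jac hξ K.jY hne)
  refine pair_log (f := NUMF.w) ?_ (w_pos h1) (w_pos (sub_ne_zero.2 hne))
  rw [hψ, hψ]
  exact K.wY x y hx hy

theorem KersC.logc (K : KersC R Λ0 Λ Λ' ηX ηX1 ηY ηY1 ξX ξX1 ξY ξY1) (hψX : ∀ x, ψX x = x + ξX x)
    (hψY : ∀ x, ψY x = x + ξY x) {x y : ℝ} (hx : |x| ≤ R) (hy : |y| ≤ R) :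
    Ug (ψX x - ψY y) - kg (Dt ηX) (Dt ηY) (ψX x) (ψY y) =
      Ug (x - y) - kg (cD ξX (Dt ηX)) (cD ξY (Dt ηY)) x y := by
  refine pair_log (f := NUMF.g) ?_ (NUMF.g_pos _) (NUMF.g_pos _)
  rw [hψX, hψY]
  exact K.gc x y hx hy

/-- one body identity: `a = e^V` without Jacobian, `V = E + I` in the window; `d` = the derivative of the total displacement -/
theorem one_relC {R : ℝ} {ψ ψ' ξ1 a V E I dk : ℝ → ℝ} {d : ℝ → ℂ} (hn : ∀ x, 1 + d x ≠ 0) (hψ' : ∀ x, ψ' x = 1 + ξ1 x)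
    (hj : ∀ x, 0 < 1 + ξ1 x) (hR : ∀ x, |x| ≤ R → |ψ x| ≤ R)
    (hd : ∀ x, dk x = 2 * Real.log (1 + ξ1 x) +
      2 * (Real.log ‖1 + d (ψ x)‖ - Real.log ‖1 + d x‖))
    (ha : ∀ x, |x| ≤ R → a x = Real.exp (V x)) (hV : ∀ x, |x| ≤ R → V x = E x + I x)
    {x : ℝ} (hx : |x| ≤ R) :
    (‖1 + d (ψ x)‖ * a (ψ x)) * ψ' x =
      (‖1 + d x‖ * a x) * Real.exp (E (ψ x) - E x + (I (ψ x) - I x) + 1 / 2 * dk x) := by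
  have h1 : 0 < ‖1 + d (ψ x)‖ := norm_pos_iff.2 (hn _)
  have h2 : 0 < ‖1 + d x‖ := norm_pos_iff.2 (hn _)
  rw [ha _ (hR x hx), ha x hx, hψ' x, hV _ (hR x hx), hV x hx]
  have e1 : ‖1 + d (ψ x)‖ = Real.exp (Real.log ‖1 + d (ψ x)‖) := (Real.exp_log h1).symm
  have e2 : ‖1 + d x‖ = Real.exp (Real.log ‖1 + d x‖) := (Real.exp_log h2).symm
  have e3 : 1 + ξ1 x = Real.exp (Real.log (1 + ξ1 x)) := (Real.exp_log (hj x)).symm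
  rw [e1, e2, e3, hd x]
  simp only [← Real.exp_add]
  congr 1
  ring

/-- the one body identity of the species `X` -/
theorem KersC.oneX (K : KersC R Λ0 Λ Λ' ηX ηX1 ηY ηY1 ξX ξX1 ξY ξY1) (hψ : ∀ x, ψX x = x + ξX x)
    {ψX' a V E I : ℝ → ℝ} (hψ' : ∀ x, ψX' x = 1 + ξX1 x) (hR : ∀ x, |x| ≤ R → |ψX x| ≤ R)
    (ha : ∀ x, |x| ≤ R → a x = Real.exp (V x)) (hV : ∀ x, |x| ≤ R → V x = E x + I x)
    {x : ℝ} (hx : |x| ≤ R) :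
    (‖1 + Dt1 ηX ηX1 (ψX x)‖ * a (ψX x)) * ψX' x = (‖1 + Dt1 ηX ηX1 x‖ * a x) *
      Real.exp (E (ψX x) - E x + (I (ψX x) - I x) +
        1 / 2 * (kw (cD ξX (Dt ηX)) (cD1 ξX ξX1 (Dt1 ηX ηX1)) x x - kw (Dt ηX) (Dt1 ηX ηX1) x x)) :=
  one_relC (dk := fun x => kw (cD ξX (Dt ηX)) (cD1 ξX ξX1 (Dt1 ηX ηX1)) x x - kw (Dt ηX) (Dt1 ηX ηX1) x x)
    K.eX hψ' K.jX hR (fun x => by rw [hψ]; exact K.dX x) ha hV hx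

/-- the one body identity of the species `Y` -/
theorem KersC.oneY (K : KersC R Λ0 Λ Λ' ηX ηX1 ηY ηY1 ξX ξX1 ξY ξY1) (hψ : ∀ x, ψY x = x + ξY x)
    {ψY' a V E I : ℝ → ℝ} (hψ' : ∀ x, ψY' x = 1 + ξY1 x) (hR : ∀ x, |x| ≤ R → |ψY x| ≤ R)
    (ha : ∀ x, |x| ≤ R → a x = Real.exp (V x)) (hV : ∀ x, |x| ≤ R → V x = E x + I x)
    {x : ℝ} (hx : |x| ≤ R) :
    (‖1 + Dt1 ηY ηY1 (ψY x)‖ * a (ψY x)) * ψY' x = (‖1 + Dt1 ηY ηY1 x‖ * a x) *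
      Real.exp (E (ψY x) - E x + (I (ψY x) - I x) +
        1 / 2 * (kw (cD ξY (Dt ηY)) (cD1 ξY ξY1 (Dt1 ηY ηY1)) x x - kw (Dt ηY) (Dt1 ηY ηY1) x x)) :=
  one_relC (dk := fun x => kw (cD ξY (Dt ηY)) (cD1 ξY ξY1 (Dt1 ηY ηY1)) x x - kw (Dt ηY) (Dt1 ηY ηY1) x x)
    K.eY hψ' K.jY hR (fun x => by rw [hψ]; exact K.dY x) ha hV hx

end

end

end PLT
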