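import Pool.Agent.PLT.R2S
import Pool.Agent.PLT.FinPen

/-!
# The quadratic term of the static kernels against the penalty

`q0_pen`: for static kernels with `|k0 t t'| ≤ Cs exp (-(c0 (|t| + |t'|)))` the term `Q0` of `r2coreS` at the
cut off displacement of a grid mode is at most `Σ_j pw C (a + j h) x_j²`.
-/

set_option autoImplicit false

open MeasureTheory Set Filter Topology NUMF NUE NUKer NUR2

namespace PLT.FP

noncomputable section

variable {δ K : ℝ} {c : ℝ → ℝ}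

/-- localized bound of the form of a kernel -/
lemma TT_loc {R Cs c0 : ℝ} {k0 : ℝ → ℝ → ℝ} {F : ℝ → ℝ} (hF : Continuous F)
    (hk : ∀ t t', |k0 t t'| ≤ Cs * Real.exp (-(c0 * (|t| + |t'|)))) :
    |TT (mW R) k0 F F| ≤ Cs * (∫ t, |F t| * Real.exp (-(c0 * |t|)) ∂(mW R)) ^ 2 := by
  obtain ⟨E1, hE1⟩ : ∃ E1, E1 = ∫ t, |F t| * Real.exp (-(c0 * |t|)) ∂(mW R) := ⟨_, rfl⟩
  have hc : Continuous fun t => |F t| * Real.exp (-(c0 * |t|)) := by fun_prop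
  have hi : Integrable (fun t => |F t| * Real.exp (-(c0 * |t|))) (mW R) := by
    unfold mW
    exact (hc.continuousOn).integrableOn_compact isCompact_Icc
  have hex : ∀ t t' : ℝ, Real.exp (-(c0 * (|t| + |t'|))) = Real.exp (-(c0 * |t|)) * Real.exp (-(c0 * |t'|)) := by
    intro t t'
    rw [← Real.exp_add]
    congr 1
    ring
  have h1 : ∀ x, |∫ y, k0 x y * F y ∂(mW R)| ≤ Cs * Real.exp (-(c0 * |x|)) * E1 := by
    intro x
    rw [hE1, ← integral_const_mul]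
    refine (abs_integral_le_integral_abs).trans ?_
    refine integral_mono_of_nonneg (Eventually.of_forall fun y => abs_nonneg _) (hi.const_mul _)
      (Eventually.of_forall fun y => ?_)
    simp only [abs_mul]
    calc |k0 x y| * |F y| ≤ Cs * Real.exp (-(c0 * (|x| + |y|))) * |F y| :=
          mul_le_mul_of_nonneg_right (hk x y) (abs_nonneg _)
      _ = _ := by rw [hex]; ring
  unfold TT
  rw [← hE1]
  refine (abs_integral_le_integral_abs).trans ?_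
  have h2 : ∫ x, Cs * E1 * (|F x| * Real.exp (-(c0 * |x|))) ∂(mW R) = Cs * E1 ^ 2 := by
    rw [integral_const_mul, ← hE1]
    ring
  rw [← h2]
  refine integral_mono_of_nonneg (Eventually.of_forall fun y => abs_nonneg _) (hi.const_mul _)
    (Eventually.of_forall fun x => ?_)
  simp only [abs_mul]
  calc |F x| * |∫ y, k0 x y * F y ∂(mW R)| ≤ |F x| * (Cs * Real.exp (-(c0 * |x|)) * E1) :=
        mul_le_mul_of_nonneg_left (h1 x) (abs_nonneg _)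
    _ = _ := by ring

lemma exp_dec {c0 : ℝ} (hc0 : 0 < c0) (t : ℝ) :
    (1 + |t|) ^ 2 * Real.exp (-(c0 * |t|)) ≤ 24 * Real.exp c0 / c0 ^ 4 * (1 + t ^ 2)⁻¹ := by
  have h1 := Real.pow_div_factorial_le_exp (c0 * (1 + |t|)) (by positivity) 4
  have h2 : Real.exp (c0 * (1 + |t|)) * Real.exp (-(c0 * |t|)) = Real.exp c0 := by
    rw [← Real.exp_add]
    congr 1
    ring
  have h3 : (1 + |t|) ^ 4 * Real.exp (-(c0 * |t|)) ≤ 24 * Real.exp c0 / c0 ^ 4 := by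
    rw [le_div_iff₀ (by positivity), ← h2]
    have h4 : (c0 * (1 + |t|)) ^ 4 ≤ 24 * Real.exp (c0 * (1 + |t|)) := by
      rw [div_le_iff₀ (by positivity)] at h1
      simp only [Nat.factorial] at h1
      push_cast at h1
      linarith
    calc (1 + |t|) ^ 4 * Real.exp (-(c0 * |t|)) * c0 ^ 4 = (c0 * (1 + |t|)) ^ 4 * Real.exp (-(c0 * |t|)) := by ring
      _ ≤ 24 * Real.exp (c0 * (1 + |t|)) * Real.exp (-(c0 * |t|)) :=
          mul_le_mul_of_nonneg_right h4 (Real.exp_pos _).le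
      _ = _ := by ring
  rw [← div_eq_mul_inv, le_div_iff₀ (by positivity)]
  have h5 : 1 + t ^ 2 ≤ (1 + |t|) ^ 2 := by
    have := sq_abs t
    nlinarith [abs_nonneg t]
  calc (1 + |t|) ^ 2 * Real.exp (-(c0 * |t|)) * (1 + t ^ 2)
      ≤ (1 + |t|) ^ 2 * Real.exp (-(c0 * |t|)) * (1 + |t|) ^ 2 := mul_le_mul_of_nonneg_left h5 (by positivity)
    _ = (1 + |t|) ^ 4 * Real.exp (-(c0 * |t|)) := by ring
    _ ≤ _ := h3

/-- a decaying function at a distance -/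
lemma dec_shift {f : ℝ → ℝ} {A : ℝ} (hA : ∀ t, (1 + |t|) ^ 4 * |f t| ≤ A) (t b : ℝ) :
    |f (t - b)| ≤ A * (1 + |t|) ^ 2 * (1 + b ^ 2)⁻¹ := by
  have h1 := hA (t - b)
  rw [← div_eq_mul_inv, le_div_iff₀ (by positivity)]
  have h2 : (1:ℝ) ≤ (1 + |t - b|) ^ 2 := one_le_pow₀ (by linarith [abs_nonneg (t - b)])
  have h3 : 1 + b ^ 2 ≤ (1 + |t|) ^ 2 * (1 + |t - b|) ^ 2 := by
    have e1 : |b| ≤ |t| + |t - b| := by
      have := abs_sub t (t - b)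
      rwa [sub_sub_cancel] at this
    have e2 : 1 + |b| ≤ (1 + |t|) * (1 + |t - b|) := by
      nlinarith [abs_nonneg t, abs_nonneg (t - b), mul_nonneg (abs_nonneg t) (abs_nonneg (t - b))]
    have e3 := sq_abs b
    calc 1 + b ^ 2 ≤ (1 + |b|) ^ 2 := by nlinarith [abs_nonneg b]
      _ ≤ ((1 + |t|) * (1 + |t - b|)) ^ 2 := pow_le_pow_left₀ (by positivity) e2 2
      _ = _ := by ring
  calc |f (t - b)| * (1 + b ^ 2) ≤ |f (t - b)| * ((1 + |t|) ^ 2 * (1 + |t - b|) ^ 2) :=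
        mul_le_mul_of_nonneg_left h3 (abs_nonneg _)
    _ ≤ |f (t - b)| * ((1 + |t|) ^ 2 * (1 + |t - b|) ^ 2) * (1 + |t - b|) ^ 2 :=
        le_mul_of_one_le_right (by positivity) h2
    _ = (1 + |t|) ^ 2 * ((1 + |t - b|) ^ 4 * |f (t - b)|) := by ring
    _ ≤ (1 + |t|) ^ 2 * A := mul_le_mul_of_nonneg_left h1 (by positivity)
    _ = _ := by ring

/-- the weight of the localized norm of the displacement -/
lemma cut_loc (hP : Prof δ K c) (h : ℝ) {c0 : ℝ} (hc0 : 0 < c0) : ∃ B, 0 ≤ B ∧ ∀ {N : ℕ} (R R1 a : ℝ)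
    (x : Fin N → ℝ), ∫ t, |cutF' c h R1 a x t| * Real.exp (-(c0 * |t|)) ∂(mW R) ≤
      B * ∑ j : Fin N, |x j| * (1 + (a + (j : ℕ) * h) ^ 2)⁻¹ := by
  obtain ⟨C1, -, h1⟩ := decay 4 hP.pf_ev1
  obtain ⟨C2, -, h2⟩ := decay 4 hP.pf_ev
  obtain ⟨M, hM⟩ := BD_Hc 1
  have hM0 : 0 ≤ M := (hM 0).nonneg
  obtain ⟨q, hq⟩ : ∃ q, q = √h / (2 * Real.pi) := ⟨_, rfl⟩
  have hq0 : 0 ≤ q := by rw [hq]; positivity
  have hC1 : 0 ≤ C1 := le_trans (by positivity) (h1 0).2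
  have hC2 : 0 ≤ C2 := le_trans (by positivity) (h2 0).1
  obtain ⟨A1, hA1⟩ : ∃ A, ∀ t, (1 + |t|) ^ 4 * |psi c h t| ≤ A := by
    refine ⟨q * C1, fun t => ?_⟩
    unfold psi
    rw [abs_mul, abs_neg, ← hq, abs_of_nonneg hq0]
    have := mul_le_mul_of_nonneg_left (h1 t).2 hq0
    linarith
  obtain ⟨A2, hA2⟩ : ∃ A, ∀ t, (1 + |t|) ^ 4 * |psi1 c h t| ≤ A := by
    obtain ⟨r, hr⟩ : ∃ r : ℝ, ∀ t, psi1 c h t = r * ct (ev c) t := ⟨_, fun t => rfl⟩
    refine ⟨|r| * C2, fun t => ?_⟩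
    rw [hr, abs_mul]
    have := mul_le_mul_of_nonneg_left (h2 t).1 (abs_nonneg r)
    linarith
  have hA10 : 0 ≤ A1 := le_trans (by positivity) (hA1 0)
  have hA20 : 0 ≤ A2 := le_trans (by positivity) (hA2 0)
  obtain ⟨C3, hC3⟩ : ∃ C3, C3 = 24 * Real.exp c0 / c0 ^ 4 := ⟨_, rfl⟩
  have hC30 : 0 ≤ C3 := by rw [hC3]; positivity
  refine ⟨(M * A1 + A2) * C3 * Real.pi, by positivity, ?_⟩
  intro N R R1 a x
  obtain ⟨S, hS⟩ : ∃ S, S = ∑ j : Fin N, |x j| * (1 + (a + (j : ℕ) * h) ^ 2)⁻¹ := ⟨_, rfl⟩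
  have hS0 : 0 ≤ S := by rw [hS]; exact Finset.sum_nonneg fun j _ => by positivity
  rw [← hS]
  have hgr : ∀ {f : ℝ → ℝ} {A : ℝ}, (∀ t, (1 + |t|) ^ 4 * |f t| ≤ A) → ∀ t,
      |grid f a h x t| ≤ A * (1 + |t|) ^ 2 * S := by
    intro f A hA t
    unfold grid
    refine (Finset.abs_sum_le_sum_abs _ _).trans ?_
    rw [hS, Finset.mul_sum]
    refine Finset.sum_le_sum fun j _ => ?_
    rw [abs_mul]
    calc |x j| * |f (t - (a + (j : ℕ) * h))| ≤ |x j| * (A * (1 + |t|) ^ 2 * (1 + (a + (j : ℕ) * h) ^ 2)⁻¹) :=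
          mul_le_mul_of_nonneg_left (dec_shift hA t _) (abs_nonneg _)
      _ = _ := by ring
  have hpt : ∀ t, |cutF' c h R1 a x t| * Real.exp (-(c0 * |t|)) ≤
      (M * A1 + A2) * C3 * S * (1 + t ^ 2)⁻¹ := by
    intro t
    have e1 : |cutF' c h R1 a x t| ≤ (M * A1 + A2) * (1 + |t|) ^ 2 * S := by
      unfold cutF' cutD
      refine (abs_add_le _ _).trans ?_
      rw [abs_mul, abs_mul]
      have e2 : |deriv (Hc R1) t| ≤ M := (hM R1).deriv_le t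
      have e3 : |Hc R1 t| ≤ 1 := abs_le.2 ⟨by linarith [Hc_nonneg R1 t], Hc_le_one R1 t⟩
      have e4 := hgr hA1 t
      have e5 := hgr hA2 t
      have e6 := mul_le_mul e2 e4 (abs_nonneg _) hM0
      have e7 := mul_le_mul e3 e5 (abs_nonneg _) zero_le_one
      linarith
    have e2 := exp_dec hc0 t
    rw [← hC3] at e2
    calc |cutF' c h R1 a x t| * Real.exp (-(c0 * |t|))
        ≤ (M * A1 + A2) * (1 + |t|) ^ 2 * S * Real.exp (-(c0 * |t|)) :=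
          mul_le_mul_of_nonneg_right e1 (Real.exp_pos _).le
      _ = (M * A1 + A2) * S * ((1 + |t|) ^ 2 * Real.exp (-(c0 * |t|))) := by ring
      _ ≤ (M * A1 + A2) * S * (C3 * (1 + t ^ 2)⁻¹) := mul_le_mul_of_nonneg_left e2 (by positivity)
      _ = _ := by ring
  have hint : Integrable (fun t : ℝ => (M * A1 + A2) * C3 * S * (1 + t ^ 2)⁻¹) volume :=
    integrable_inv_one_add_sq.const_mul _
  calc ∫ t, |cutF' c h R1 a x t| * Real.exp (-(c0 * |t|)) ∂(mW R)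
      ≤ ∫ t, (M * A1 + A2) * C3 * S * (1 + t ^ 2)⁻¹ ∂(mW R) := by
        refine integral_mono_of_nonneg (Eventually.of_forall fun t => by positivity) ?_
          (Eventually.of_forall hpt)
        unfold mW
        exact hint.restrict
    _ ≤ ∫ t, (M * A1 + A2) * C3 * S * (1 + t ^ 2)⁻¹ := by
        unfold mW
        exact setIntegral_le_integral hint (Eventually.of_forall fun t => by positivity)
    _ = _ := by
        rw [integral_const_mul, integral_univ_inv_one_add_sq]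
        ring

/-- **the quadratic term of the static kernels is at most the penalty** -/
theorem q0_pen (hP : Prof δ K c) {h : ℝ} (hh : 0 < h) {Cs c0 : ℝ} (hCs : 0 ≤ Cs) (hc0 : 0 < c0) :
    ∃ C, 0 ≤ C ∧ ∀ {N : ℕ} (R R1 a : ℝ) (x : Fin N → ℝ) (k0X k0Y k0c : ℝ → ℝ → ℝ),
      (∀ t t', |k0X t t'| ≤ Cs * Real.exp (-(c0 * (|t| + |t'|)))) →
      (∀ t t', |k0Y t t'| ≤ Cs * Real.exp (-(c0 * (|t| + |t'|)))) →
      (∀ t t', |k0c t t'| ≤ Cs * Real.exp (-(c0 * (|t| + |t'|)))) →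
      |Q0 R (cutF' c h R1 a x) k0X k0Y k0c| ≤ ∑ j : Fin N, pw C (a + (j : ℕ) * h) * x j ^ 2 := by
  obtain ⟨B, hB, H⟩ := cut_loc hP h hc0
  obtain ⟨Sh, hSh⟩ : ∃ S, S = 2 * Real.pi * (1 + h ^ 2) / h := ⟨_, rfl⟩
  have hSh0 : 0 ≤ Sh := by rw [hSh]; positivity
  refine ⟨2 * Cs * B ^ 2 * Sh, by positivity, ?_⟩
  intro N R R1 a x k0X k0Y k0c hX hY hc
  obtain ⟨E1, hE1⟩ : ∃ E1, E1 = ∫ t, |cutF' c h R1 a x t| * Real.exp (-(c0 * |t|)) ∂(mW R) := ⟨_, rfl⟩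
  have hF : Continuous (cutF' c h R1 a x) := (Dn_cutF' hP a x).cont
  have bX := TT_loc (R := R) hF hX
  have bY := TT_loc (R := R) hF hY
  have bc := TT_loc (R := R) hF hc
  rw [← hE1] at bX bY bc
  have hE0 : 0 ≤ E1 := by rw [hE1]; exact integral_nonneg fun t => by positivity
  obtain ⟨S, hS⟩ : ∃ S, S = ∑ j : Fin N, |x j| * (1 + (a + (j : ℕ) * h) ^ 2)⁻¹ := ⟨_, rfl⟩
  have h1 : E1 ≤ B * S := by
    rw [hE1, hS]
    exact H R R1 a x
  have h2 : |Q0 R (cutF' c h R1 a x) k0X k0Y k0c| ≤ 2 * Cs * (B * S) ^ 2 := by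
    have e1 : E1 ^ 2 ≤ (B * S) ^ 2 := pow_le_pow_left₀ hE0 h1 2
    have e2 := mul_le_mul_of_nonneg_left e1 hCs
    unfold Q0
    obtain ⟨x1, x2⟩ := abs_le.1 bX
    obtain ⟨y1, y2⟩ := abs_le.1 bY
    obtain ⟨z1, z2⟩ := abs_le.1 bc
    rw [abs_le]
    constructor <;> linarith
  refine h2.trans ?_
  -- Cauchy-Schwarz
  have h3 : S ^ 2 ≤ (∑ j : Fin N, (1 + (a + (j : ℕ) * h) ^ 2)⁻¹) *
      ∑ j : Fin N, (1 + (a + (j : ℕ) * h) ^ 2)⁻¹ * x j ^ 2 := by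
    rw [hS]
    refine Finset.sum_sq_le_sum_mul_sum_of_sq_le_mul _ (fun j _ => by positivity) (fun j _ => by positivity)
      fun j _ => le_of_eq ?_
    rw [mul_pow, sq_abs]
    ring
  have h4 : ∑ j : Fin N, (1 + (a + (j : ℕ) * h) ^ 2)⁻¹ ≤ Sh := by
    have := pw_sum hh zero_le_one a N
    rw [one_mul, ← hSh] at this
    refine le_trans (le_of_eq ?_) this
    exact Finset.sum_congr rfl fun j _ => by unfold pw; rw [one_mul]
  have h5 : 0 ≤ ∑ j : Fin N, (1 + (a + (j : ℕ) * h) ^ 2)⁻¹ * x j ^ 2 :=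
    Finset.sum_nonneg fun j _ => by positivity
  calc 2 * Cs * (B * S) ^ 2 = 2 * Cs * B ^ 2 * S ^ 2 := by ring
    _ ≤ 2 * Cs * B ^ 2 * ((∑ j : Fin N, (1 + (a + (j : ℕ) * h) ^ 2)⁻¹) *
        ∑ j : Fin N, (1 + (a + (j : ℕ) * h) ^ 2)⁻¹ * x j ^ 2) := mul_le_mul_of_nonneg_left h3 (by positivity)
    _ ≤ 2 * Cs * B ^ 2 * (Sh * ∑ j : Fin N, (1 + (a + (j : ℕ) * h) ^ 2)⁻¹ * x j ^ 2) :=
        mul_le_mul_of_nonneg_left (mul_le_mul_of_nonneg_right h4 h5) (by positivity)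
    _ = _ := by
        rw [← mul_assoc, Finset.mul_sum]
        refine Finset.sum_congr rfl fun j _ => ?_
        unfold pw
        ring

end

end PLT.FP
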