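import Pool.Agent.PLT.H1cA
import Pool.Agent.PLT.KersC
import Pool.Agent.PLT.KsV

/-!
# The lower bound of the exponential moments of the field over a sea on a static curve, explicit form

`h1_coreS`: `h1_coreS_of` with all kernels (`exists_kersC`) and the decay of the static kernels (`ks_dec`).
-/

set_option autoImplicit false
set_option linter.unusedSectionVars false

open MeasureTheory Set Filter Topology

namespace PLT

open NUE NUOC NUDp NUKer NUR2 NUTr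

noncomputable section

variable {δ K : ℝ} {c : ℝ → ℝ}

/-- **explicit lower bound of the exponential moments** -/
theorem h1_coreS (B : SeaCB) (hP : Prof δ K c) {h : ℝ} (hh : 0 < h)
    (hK : K * h < Real.pi) (q : ℕ) :
    ∃ C cs : ℝ, 1 ≤ C ∧ 0 < cs ∧ ∀ [SeaC] [SeaCU B], ∀ {N p n : ℕ} (R R0 R1 a s0 lam l1 S : ℝ) (s : Bool → ℝ)
    (x : Fin N → ℝ)
    (ηX ηX1 ηY ηY1 aX aY EX EY : ℝ → ℝ), 0 < s0 → (∀ d, s0 ≤ s d) → 0 ≤ R0 → R0 < R1 → R1 + 1 < R →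
    (∀ j : Fin N, |a + (j : ℕ) * h| ≤ R0) → Cv.sz s0 R1 x ≤ cs →
    O 4 lam ηX → O 4 lam ηY → (∀ t, HasDerivAt ηX (ηX1 t) t) → (∀ t, HasDerivAt ηY (ηY1 t) t) →
    C * R ^ 20 * (lam + Cv.sz s0 R1 x) ≤ 1 → FDC c h R R1 a s l1 ηX ηX1 ηY ηY1 aX aY EX EY x →
    IsFiniteMeasure (mGC (p := p) (n := n) R ηX ηX1 ηY ηY1 aX aY) →
    Rig2 (mGC (p := p) (n := n) R ηX ηX1 ηY ηY1 aX aY) R (fun t => s true * Cv.P t)
      (fun t => s false * Cv.P t) S → 0 ≤ S → 0 ≤ l1 →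
    ENNReal.ofReal ((mGC (p := p) (n := n) R ηX ηX1 ηY ηY1 aX aY).real univ *
      Real.exp ((∑ i, ∑ j, x i * toep (fun θ => rs c (θ / h)) N i j * x j) / 2 -
        ∑ j : Fin N, FP.pw C (a + (j : ℕ) * h) * x j ^ 2 +
        elS c h R R1 a s EX EY (mGC (p := p) (n := n) R ηX ηX1 ηY ηY1 aX aY) x -
        Cv.er C R R0 R1 lam l1 S s0 q x)) ≤
    ∫⁻ y, ENNReal.ofReal (Real.exp (∑ i, grid (chi c h) a h x (y.1 i) -
      ∑ j, grid (chi c h) a h x (y.2 j))) ∂(mGC (p := p) (n := n) R ηX ηX1 ηY ηY1 aX aY) :=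
  h1_coreS_of B (exists_kersC B) (ks_dec B) hP hh hK q

end

end PLT
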