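import Pool.Agent.PLT.H1fG
import Pool.Agent.PLT.H1cA

/-!
# Sea on a curve: (H1) with a penalty, over the field data of the modes

Twin of `PLX/NUS4C/H1f`; inputs `KersSt B` (all kernels of the transports), `KsDec B` (decay of the static kernels).
-/

set_option autoImplicit false
set_option linter.unusedSectionVars false

open MeasureTheory Set Filter Topology

namespace PLT

open NUS4 (gN R1f Xf off)
open NUE NUOC NUDp NUKer NUR2 NUTr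
open _root_.PLT.FP (H1p pw)

noncomputable section

variable {δ K : ℝ} {c : ℝ → ℝ}

/-- **(H1) with a penalty**: the second alternative of `FP.fin2p`.  `X = (1 - 2 e) (3/8) log m`,
`R1 = (1 - e) (3/8) log m - 1`. -/
theorem h1_finalC_of (B : SeaCB) (HK : KersSt B) (HD : KsDec B) (hP : Prof δ K c) {h : ℝ} (hh : 0 < h)
    (hK : K * h < Real.pi) (k : ℕ) {κ e η : ℝ} (hκ : 0 < κ) (he : 0 < e) (he1 : e ≤ 1 / 4) (hη : 0 < η) :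
    ∃ (m0 : ℕ) (e' W0 : ℝ), 1 ≤ m0 ∧ 0 ≤ e' ∧ 0 ≤ W0 ∧ ∀ [SeaC] [SeaCU B],
    ∀ m : ℕ, m0 ≤ m → ∀ {p n : ℕ} (R lam l1 S : ℝ) (s : Bool → ℝ)
    (ηX ηX1 ηY ηY1 aX aY EX EY : ℝ → ℝ),
    (∀ d, (m : ℝ) / 2 ≤ s d) → 3 / 8 * Real.log m ≤ R → R ≤ Real.log m ^ k →
    O 4 lam ηX → O 4 lam ηY → (∀ t, HasDerivAt ηX (ηX1 t) t) → (∀ t, HasDerivAt ηY (ηY1 t) t) →
    lam ≤ (m : ℝ) ^ (-κ) → 0 ≤ l1 → l1 ≤ (m : ℝ) ^ (-κ) → 0 ≤ S → S ≤ Real.log m ^ k →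
    Measurable aX → Measurable aY →
    (∀ x : Fin (gN h (Xf e m)) → ℝ, ∑ i, x i ^ 2 ≤ (2 * ((gN h (Xf e m) : ℕ) : ℝ) + 4) / η →
      FDC c h R (R1f e m) (off h (Xf e m)) s l1 ηX ηX1 ηY ηY1 aX aY EX EY x) →
    IsFiniteMeasure (mGC (p := p) (n := n) R ηX ηX1 ηY ηY1 aX aY) →
    Rig2 (mGC (p := p) (n := n) R ηX ηX1 ηY ηY1 aX aY) R (fun t => s true * Cv.P t)
      (fun t => s false * Cv.P t) S →
    ∃ w : Fin (gN h (Xf e m)) → ℝ, (∀ i, 0 ≤ w i) ∧ ∑ i, w i ≤ W0 ∧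
    ∀ cc : Fin (gN h (Xf e m)) → ℝ, ∃ l : (Fin (gN h (Xf e m)) → ℝ) → ℝ, (∀ g, l (-g) = - l g) ∧
      H1p (p := p) (n := n) c h η (Xf e m) R e' w l cc (WtC ηX ηX1 ηY ηY1 aX aY) := by
  obtain ⟨C, cs, hC, hcs, H⟩ := h1_coreS_of B HK HD hP hh hK 2
  obtain ⟨m0, e', W0, hm0, he', hW0, HF⟩ := h1_finC B hP hh k hκ he he1 hη hC hcs
  refine ⟨m0, e', W0, hm0, he', hW0, ?_⟩
  intro _ _ m hm p n R lam l1 S s ηX ηX1 ηY ηY1 aX aY EX EY hs hRl hR oX oY dX dY hlam hl0 hl hS0 hS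
    maX maY hF hfin hrig
  refine HF m hm R lam l1 S ηX ηX1 ηY ηY1 aX aY
    (elS c h R (R1f e m) (off h (Xf e m)) s EX EY (mGC (p := p) (n := n) R ηX ηX1 ηY ηY1 aX aY))
    hRl hR oX oY dX dY hlam hl0 hl hS0 hS maX maY
    (fun g => elS_neg h R (R1f e m) (off h (Xf e m)) s EX EY _ g) hfin ?_
  intro x hx q1 q2 q3 q4 q5 q6 q7
  exact H R (Xf e m) (R1f e m) (off h (Xf e m)) ((m : ℝ) / 2) lam l1 S s x ηX ηX1 ηY ηY1 aX aY EX EY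
    q1 hs q2 q3 q4 q5 q6 oX oY dX dY q7 (hF x hx) hfin hrig hS0 hl0

end

end PLT
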