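import Pool.Agent.PLT.H1num
import Pool.Agent.PLT.FinPen
import Pool.Agent.PLT.SharpW
import Pool.Agent.NUS4.H1f

/-!
# Sea on a curve: from the explicit lower bound to (H1) with a penalty

Twin of `NUS4C/H1f` over `SeaC`.

* `h1_lintW`: from the window measure of any weight `W` to the integral over the window;
* **`h1_fin`**: the explicit lower bound (with the penalty `pw C`, the error `er`, any odd part) gives (H1) with a
  penalty, constants of `B` only; **`h1_finC`**: the same for the gas on the curves `Cv.Dt η`.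
-/

set_option autoImplicit false
set_option linter.unusedSectionVars false

open MeasureTheory Set Filter Topology
open scoped ENNReal

namespace PLT

open NUS4 (gN gM gp log_pow_small R1f Xf sum_abs_le off Fi sum_Fi chi_cont abs_grid_le)
open NUE NUOC NUKer NUR2 NUTr
open _root_.PLT.FP (H1p pw)

noncomputable section

variable {δ K : ℝ} {c : ℝ → ℝ} {p n : ℕ}

/-- the window measure of a weight -/
abbrev mW0 (R : ℝ) (W : Cfg p n → ℝ≥0∞) : Measure (Cfg p n) := (volume.restrict (Bx R)).withDensity W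

/-- **the form needed in the glue**, any weight -/
theorem h1_lintW {h X R E : ℝ} {W : Cfg p n → ℝ≥0∞} (hW : Measurable W) (hP : Prof δ K c)
    (g cc : Fin (gN h X) → ℝ) (hfin : IsFiniteMeasure (mW0 R W))
    (key : ENNReal.ofReal ((mW0 R W).real univ * Real.exp E) ≤
      ∫⁻ y, ENNReal.ofReal (Real.exp (∑ i, grid (chi c h) (off h X) h g (y.1 i) -
      ∑ j, grid (chi c h) (off h X) h g (y.2 j))) ∂(mW0 R W)) :
    (∫⁻ x in Bx R, W x) * ENNReal.ofReal (Real.exp (E - ∑ i, g i * cc i)) ≤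
    ∫⁻ x in Bx R, W x * ENNReal.ofReal (Real.exp (∑ i, g i * Fi c h X cc i x)) := by
  have hG : Measurable fun y : Cfg p n => ∑ i, grid (chi c h) (-(h * gM h X)) h g (y.1 i) -
      ∑ j, grid (chi c h) (-(h * gM h X)) h g (y.2 j) := by
    have c0 : Measurable (grid (chi c h) (-(h * gM h X)) h g) := by
      have := (chi_cont hP h).measurable
      unfold grid
      exact Finset.measurable_sum _ fun j _ => by fun_prop
    have h2 : ∀ a : Fin p, Measurable fun x : Cfg p n => x.1 a := fun a => by fun_prop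
    have h3 : ∀ a : Fin n, Measurable fun x : Cfg p n => x.2 a := fun a => by fun_prop
    exact (Finset.measurable_sum _ fun a _ => c0.comp (h2 a)).sub
      (Finset.measurable_sum _ fun a _ => c0.comp (h3 a))
  have e1 : ENNReal.ofReal ((mW0 R W).real univ * Real.exp E) =
      (∫⁻ x in Bx R, W x) * ENNReal.ofReal (Real.exp E) := by
    rw [ENNReal.ofReal_mul measureReal_nonneg]
    congr 1
    unfold Measure.real
    rw [ENNReal.ofReal_toReal (measure_ne_top _ _), withDensity_apply _ MeasurableSet.univ,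
      Measure.restrict_univ]
  have e2 : ∫⁻ x in Bx R, W x *
      ENNReal.ofReal (Real.exp (∑ i, g i * Fi c h X cc i x)) =
      (∫⁻ y, ENNReal.ofReal (Real.exp (∑ i, grid (chi c h) (-(h * gM h X)) h g (y.1 i) -
      ∑ j, grid (chi c h) (-(h * gM h X)) h g (y.2 j))) ∂(mW0 R W)) *
      ENNReal.ofReal (Real.exp (-∑ i, g i * cc i)) := by
    rw [lintegral_withDensity_eq_lintegral_mul _ hW (by fun_prop), ← lintegral_mul_const]
    · refine lintegral_congr fun x => ?_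
      simp only [Pi.mul_apply]
      rw [mul_assoc, ← ENNReal.ofReal_mul (Real.exp_pos _).le, ← Real.exp_add, sum_Fi]
      congr 3
    · exact hW.mul (by fun_prop)
  rw [e2]
  rw [e1] at key
  have e3 : ENNReal.ofReal (Real.exp (E - ∑ i, g i * cc i)) =
      ENNReal.ofReal (Real.exp E) * ENNReal.ofReal (Real.exp (-∑ i, g i * cc i)) := by
    rw [← ENNReal.ofReal_mul (Real.exp_pos _).le, ← Real.exp_add, sub_eq_add_neg]
  rw [e3, ← mul_assoc]
  exact mul_le_mul_left key _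

/-- **(H1) with a penalty** from the explicit lower bound -/
theorem h1_fin (B : SeaCB) (hP : Prof δ K c) {h : ℝ} (hh : 0 < h) (k : ℕ) {κ e η C cs : ℝ}
    (hκ : 0 < κ) (he : 0 < e) (he1 : e ≤ 1 / 4) (hη : 0 < η) (hC : 1 ≤ C) (hcs : 0 < cs) :
    ∃ (m0 : ℕ) (e' W0 : ℝ), 1 ≤ m0 ∧ 0 ≤ e' ∧ 0 ≤ W0 ∧ ∀ [SeaC] [SeaCU B],
    ∀ m : ℕ, m0 ≤ m → ∀ {p n : ℕ} (R lam l1 S : ℝ) (W : Cfg p n → ℝ≥0∞)
    (el : (Fin (gN h (Xf e m)) → ℝ) → ℝ),
    3 / 8 * Real.log m ≤ R → R ≤ Real.log m ^ k → 0 ≤ lam → lam ≤ (m : ℝ) ^ (-κ) → 0 ≤ l1 →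
    l1 ≤ (m : ℝ) ^ (-κ) → 0 ≤ S → S ≤ Real.log m ^ k → Measurable W → (∀ g, el (-g) = - el g) →
    IsFiniteMeasure (mW0 R W) →
    (∀ x : Fin (gN h (Xf e m)) → ℝ, ∑ i, x i ^ 2 ≤ (2 * ((gN h (Xf e m) : ℕ) : ℝ) + 4) / η →
      0 < (m : ℝ) / 2 → 0 ≤ Xf e m → Xf e m < R1f e m → R1f e m + 1 < R →
      (∀ j : Fin (gN h (Xf e m)), |off h (Xf e m) + (j : ℕ) * h| ≤ Xf e m) →
      Cv.sz ((m : ℝ) / 2) (R1f e m) x ≤ cs →
      C * R ^ 20 * (lam + Cv.sz ((m : ℝ) / 2) (R1f e m) x) ≤ 1 →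
      ENNReal.ofReal ((mW0 R W).real univ *
        Real.exp ((∑ i, ∑ j, x i * toep (fun θ => rs c (θ / h)) (gN h (Xf e m)) i j * x j) / 2 -
          ∑ j : Fin (gN h (Xf e m)), pw C (off h (Xf e m) + (j : ℕ) * h) * x j ^ 2 + el x -
          Cv.er C R (Xf e m) (R1f e m) lam l1 S ((m : ℝ) / 2) 2 x)) ≤
      ∫⁻ y, ENNReal.ofReal (Real.exp (∑ i, grid (chi c h) (off h (Xf e m)) h x (y.1 i) -
        ∑ j, grid (chi c h) (off h (Xf e m)) h x (y.2 j))) ∂(mW0 R W)) →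
    ∃ w : Fin (gN h (Xf e m)) → ℝ, (∀ i, 0 ≤ w i) ∧ ∑ i, w i ≤ W0 ∧
    ∀ cc : Fin (gN h (Xf e m)) → ℝ, ∃ l : (Fin (gN h (Xf e m)) → ℝ) → ℝ, (∀ g, l (-g) = - l g) ∧
      H1p c h η (Xf e m) R e' w l cc W := by
  obtain ⟨m0, e', hm0, he', HN⟩ := Cv.er_num B k hκ he he1 hh hη hC hcs
  refine ⟨m0, e', C * (2 * Real.pi * (1 + h ^ 2) / h), hm0, he', by positivity, ?_⟩
  intro _ _ m hm p n R lam l1 S W el hRl hR hlam0 hlam hl0 hl hS0 hS mW hel hfin hcore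
  have hmr : (1:ℝ) ≤ m := by exact_mod_cast hm0.trans hm
  have hL : 0 ≤ Real.log m := Real.log_nonneg hmr
  have hRR : 0 ≤ R := le_trans (by positivity) hRl
  have hC0 : 0 ≤ C := by linarith
  refine ⟨fun j => pw C (off h (Xf e m) + (j : ℕ) * h), fun i => FP.pw_nonneg hC0 _,
    FP.pw_sum hh hC0 _ _, fun cc => ?_⟩
  refine ⟨fun g => el g - ∑ i, g i * cc i, fun g => ?_, fun g hg => ?_⟩
  · simp only
    rw [hel]
    have e1 : ∑ i, (-g) i * cc i = -∑ i, g i * cc i := by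
      rw [← Finset.sum_neg_distrib]
      refine Finset.sum_congr rfl fun i _ => ?_
      rw [Pi.neg_apply]
      ring
    rw [e1]
    ring
  · obtain ⟨n1, n2, n3, n4, n5⟩ := HN m hm R ((m : ℝ) / 2) lam l1 S le_rfl hRR hR hlam0 hlam
      hl0 hl hS0 hS g hg
    have hs0 : 0 < (m : ℝ) / 2 := by linarith
    have hR1R : R1f e m + 1 < R := by
      have h1 : R1f e m + 1 = (1 - e) * (3 / 8 * Real.log m) := by unfold R1f; ring
      rw [h1]
      have h2 : Xf e m < R1f e m := n2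
      unfold Xf R1f at h2
      nlinarith
    have key := hcore g hg hs0 n1 n2 hR1R (fun j => abs_grid_le hh n1 j) n3 n4
    have k2 := h1_lintW mW hP g cc hfin key
    refine le_trans ?_ k2
    refine mul_le_mul_right (ENNReal.ofReal_le_ofReal (Real.exp_le_exp.2 ?_)) _
    simp only
    linarith

/-- **(H1) with a penalty** for the gas on the curves `Cv.Dt η` -/
theorem h1_finC (B : SeaCB) (hP : Prof δ K c) {h : ℝ} (hh : 0 < h) (k : ℕ) {κ e η C cs : ℝ}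
    (hκ : 0 < κ) (he : 0 < e) (he1 : e ≤ 1 / 4) (hη : 0 < η) (hC : 1 ≤ C) (hcs : 0 < cs) :
    ∃ (m0 : ℕ) (e' W0 : ℝ), 1 ≤ m0 ∧ 0 ≤ e' ∧ 0 ≤ W0 ∧ ∀ [SeaC] [SeaCU B],
    ∀ m : ℕ, m0 ≤ m → ∀ {p n : ℕ} (R lam l1 S : ℝ) (ηX ηX1 ηY ηY1 aX aY : ℝ → ℝ)
    (el : (Fin (gN h (Xf e m)) → ℝ) → ℝ),
    3 / 8 * Real.log m ≤ R → R ≤ Real.log m ^ k → O 4 lam ηX → O 4 lam ηY →
    (∀ t, HasDerivAt ηX (ηX1 t) t) → (∀ t, HasDerivAt ηY (ηY1 t) t) → lam ≤ (m : ℝ) ^ (-κ) →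
    0 ≤ l1 → l1 ≤ (m : ℝ) ^ (-κ) → 0 ≤ S → S ≤ Real.log m ^ k → Measurable aX → Measurable aY →
    (∀ g, el (-g) = - el g) → IsFiniteMeasure (mGC (p := p) (n := n) R ηX ηX1 ηY ηY1 aX aY) →
    (∀ x : Fin (gN h (Xf e m)) → ℝ, ∑ i, x i ^ 2 ≤ (2 * ((gN h (Xf e m) : ℕ) : ℝ) + 4) / η →
      0 < (m : ℝ) / 2 → 0 ≤ Xf e m → Xf e m < R1f e m → R1f e m + 1 < R →
      (∀ j : Fin (gN h (Xf e m)), |off h (Xf e m) + (j : ℕ) * h| ≤ Xf e m) →
      Cv.sz ((m : ℝ) / 2) (R1f e m) x ≤ cs →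
      C * R ^ 20 * (lam + Cv.sz ((m : ℝ) / 2) (R1f e m) x) ≤ 1 →
      ENNReal.ofReal ((mGC (p := p) (n := n) R ηX ηX1 ηY ηY1 aX aY).real univ *
        Real.exp ((∑ i, ∑ j, x i * toep (fun θ => rs c (θ / h)) (gN h (Xf e m)) i j * x j) / 2 -
          ∑ j : Fin (gN h (Xf e m)), pw C (off h (Xf e m) + (j : ℕ) * h) * x j ^ 2 + el x -
          Cv.er C R (Xf e m) (R1f e m) lam l1 S ((m : ℝ) / 2) 2 x)) ≤
      ∫⁻ y, ENNReal.ofReal (Real.exp (∑ i, grid (chi c h) (off h (Xf e m)) h x (y.1 i) -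
        ∑ j, grid (chi c h) (off h (Xf e m)) h x (y.2 j)))
          ∂(mGC (p := p) (n := n) R ηX ηX1 ηY ηY1 aX aY)) →
    ∃ w : Fin (gN h (Xf e m)) → ℝ, (∀ i, 0 ≤ w i) ∧ ∑ i, w i ≤ W0 ∧
    ∀ cc : Fin (gN h (Xf e m)) → ℝ, ∃ l : (Fin (gN h (Xf e m)) → ℝ) → ℝ, (∀ g, l (-g) = - l g) ∧
      H1p (p := p) (n := n) c h η (Xf e m) R e' w l cc (WtC ηX ηX1 ηY ηY1 aX aY) := by
  obtain ⟨m0, e', W0, hm0, he', hW0, H⟩ := h1_fin B hP hh k hκ he he1 hη hC hcs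
  refine ⟨m0, e', W0, hm0, he', hW0, ?_⟩
  intro _ _ m hm p n R lam l1 S ηX ηX1 ηY ηY1 aX aY el hRl hR oX oY dX dY hlam hl0 hl hS0 hS maX maY
    hel hfin hcore
  have mη : ∀ {u : ℝ → ℝ} {u1 : ℝ → ℝ}, O 4 lam u → (∀ t, HasDerivAt u (u1 t) t) → Measurable u1 := by
    intro u u1 h1 h2
    obtain ⟨-, u2, h3, h4⟩ := h1
    have e1 : u2 = u1 := funext fun t => (h3 t).unique (h2 t)
    rw [← e1]
    exact h4.cont.measurable
  have hW := WtC_meas (p := p) (n := n) oX.cont.measurable (mη oX dX) oY.cont.measurable (mη oY dY)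
    maX maY
  have e := mGC_eq (p := p) (n := n) R ηX ηX1 ηY ηY1 aX aY
  rw [e] at hfin hcore
  exact H m hm R lam l1 S _ el hRl hR oX.nonneg hlam hl0 hl hS0 hS hW hel hfin hcore

end

end PLT
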