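import Pool.Agent.PLT.H1fC
import Pool.Agent.PLT.H1gC

/-!
# Sea on a curve: (H1) with a penalty, the statement `H1FinSt`
-/

set_option autoImplicit false

namespace PLT

/-- **the statement of `PLT/H1gC`** -/
theorem h1FinSt_of (B : SeaCB) (HK : KersSt B) (HD : KsDec B) : H1FinSt B :=
  fun hP _ hh hK k _ _ _ hκ he he1 hη => h1_finalC_of B HK HD hP hh hK k hκ he he1 hη

end PLT
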