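import Pool.Agent.PLT.H1num

/-!
# Sea on a curve: the numbers of the field data

Twin of `NUS4C.H1g.fd_num` over `SeaC` (constants of `B : SeaCB` only), every power `R ^ q`.
-/

set_option autoImplicit false
set_option linter.unusedSectionVars false

open MeasureTheory Set Filter Topology

namespace PLT.Cv

open NUS4 (gN gM gp log_pow_small R1f Xf sum_abs_le)
open NUE NUOC NUKer NUR2 NUTr

noncomputable section

/-- **the numbers of the field data** -/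
lemma fd_num (B : SeaCB) (k q : ℕ) {κ e h η C cs : ℝ} (hκ : 0 < κ) (he : 0 < e) (he1 : e ≤ 1 / 4) (hh : 0 < h)
    (hη : 0 < η) (hC : 1 ≤ C) (hcs : 0 < cs) : ∃ m0 : ℕ, 1 ≤ m0 ∧ ∀ [SeaC] [SeaCU B], ∀ m : ℕ, m0 ≤ m →
    ∀ (R s S ε M A Ar : ℝ), (m : ℝ) / 2 ≤ s → 0 ≤ S → S ≤ 2 * (m : ℝ) ^ 2 → Real.log m ≤ R →
    R ≤ Real.log m ^ k → 0 ≤ ε →
    ε ≤ (m : ℝ) ^ (-κ) → 0 ≤ M → M ≤ Real.log m ^ k → 0 ≤ A → A ≤ Real.log m ^ k → 0 ≤ Ar →
    Ar ≤ Real.log m ^ k →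
    1 ≤ R ∧ 0 ≤ R1f e m ∧ ∃ l1 : ℝ, 0 ≤ l1 ∧ l1 ≤ (m : ℝ) ^ (-(min κ e / 2)) ∧
    ∀ x : Fin (gN h (Xf e m)) → ℝ, ∑ i, x i ^ 2 ≤ (2 * ((gN h (Xf e m) : ℕ) : ℝ) + 4) / η →
    0 ≤ sz s (R1f e m) x ∧ sz s (R1f e m) x ≤ cs ∧ C * R ^ q * (ε + sz s (R1f e m) x) ≤ 1 ∧
    C * (R ^ q * (M * (ε + sz s (R1f e m) x)) +
      R ^ q * ((A + S * Real.exp (-2 * R) + Ar) * sz s (R1f e m) x)) ≤ l1 := by
  obtain ⟨CA, hCA, HA⟩ := sum_abs_le hh hη
  obtain ⟨Cz, hCz, HZ⟩ := sz_le B (e := e) (by linarith)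
  obtain ⟨κ', hκ'⟩ : ∃ κ', κ' = min κ e := ⟨_, rfl⟩
  have hκ0 : 0 < κ' := by rw [hκ']; exact lt_min hκ he
  obtain ⟨B0, hB⟩ : ∃ B0, B0 = C + CA + Cz * CA + 1 := ⟨_, rfl⟩
  have hzz : 0 ≤ Cz * CA := mul_nonneg (by linarith) (by linarith)
  have hB1 : 1 ≤ B0 := by rw [hB]; linarith
  obtain ⟨m1, hm1⟩ := log_pow_small ((q + 4) * (k + 1)) (half_pos hκ0) (10 * B0 ^ (q + 4) * (1 + 1 / cs))
  obtain ⟨m2, hm2⟩ := (Real.tendsto_log_atTop.comp tendsto_natCast_atTop_atTop).eventually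
    (eventually_ge_atTop (16 / (3 * e) + 1)) |>.exists_forall_of_atTop
  refine ⟨max 1 (max m1 m2), le_max_left _ _, ?_⟩
  intro _ _ m hm R s S ε M A Ar hs hS0 hs2 hRl hR hε0 hε hM0 hM hA0 hA hAr0 hAr
  have hmm1 := hm1 m (le_trans (le_trans (le_max_left _ _) (le_max_right _ _)) hm)
  have hmm2 := hm2 m (le_trans (le_trans (le_max_right _ _) (le_max_right _ _)) hm)
  have hm0 : 1 ≤ m := le_trans (le_max_left _ _) hm
  have hmr : (1:ℝ) ≤ m := by exact_mod_cast hm0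
  have hmp : (0:ℝ) < m := by linarith
  simp only [Function.comp] at hmm2
  have hsR : S * Real.exp (-2 * R) ≤ 2 := by
    have h1 : Real.exp (-2 * R) ≤ ((m : ℝ) ^ 2)⁻¹ := by
      have h0 : ((m : ℝ) ^ 2)⁻¹ = Real.exp (-2 * Real.log m) := by
        rw [show -2 * Real.log m = -(Real.log m + Real.log m) by ring, Real.exp_neg, Real.exp_add,
          Real.exp_log hmp, pow_two]
      rw [h0]
      refine Real.exp_le_exp.2 ?_
      linarith
    calc S * Real.exp (-2 * R) ≤ 2 * (m : ℝ) ^ 2 * ((m : ℝ) ^ 2)⁻¹ := by gcongr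
      _ = 2 := by field_simp
  obtain ⟨L, hL⟩ : ∃ L, L = Real.log m := ⟨_, rfl⟩
  rw [← hL] at hmm1 hmm2 hRl hR hM hA hAr
  have hLe : 16 / (3 * e) ≤ L := by linarith
  have hLe' : 2 ≤ e * (3 / 8 * L) := by
    rw [div_le_iff₀ (by positivity)] at hLe
    linarith
  have hL1 : 1 ≤ L := by
    have : 0 ≤ 16 / (3 * e) := by positivity
    linarith
  have hX : Xf e m = (1 - 2 * e) * (3 / 8 * L) := by rw [hL]; rfl
  have hR1 : R1f e m = (1 - e) * (3 / 8 * L) - 1 := by rw [hL]; rfl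
  have hX0 : 0 ≤ Xf e m := by rw [hX]; exact mul_nonneg (by linarith) (by positivity)
  have heL0 : 0 ≤ e * L := mul_nonneg he.le (by linarith)
  have heL : e * L ≤ 1 / 4 * L := mul_le_mul_of_nonneg_right he1 (by linarith)
  have hXL : Xf e m ≤ L := by
    rw [hX]
    have h1 : (1 - 2 * e) * (3 / 8 * L) = 3 / 8 * L - 3 / 4 * (e * L) := by ring
    rw [h1]
    linarith
  have hR10 : 0 ≤ R1f e m := by
    rw [hR1]
    have h1 : (1 - e) * (3 / 8 * L) = 3 / 8 * L - 3 / 8 * (e * L) := by ring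
    have h2 : e * (3 / 8 * L) = 3 / 8 * (e * L) := by ring
    rw [h2] at hLe'
    rw [h1]
    linarith
  obtain ⟨v, hv⟩ : ∃ v, v = (m : ℝ) ^ (-κ') := ⟨_, rfl⟩
  obtain ⟨w, hw⟩ : ∃ w, w = (m : ℝ) ^ (-(κ' / 2)) := ⟨_, rfl⟩
  have hv0 : 0 < v := by rw [hv]; exact Real.rpow_pos_of_pos hmp _
  have hw0 : 0 < w := by rw [hw]; exact Real.rpow_pos_of_pos hmp _
  have hvw : v = w * w := by
    rw [hv, hw, ← Real.rpow_add hmp]
    congr 1
    ring
  have hw1 : w ≤ 1 := by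
    rw [hw]
    exact Real.rpow_le_one_of_one_le_of_nonpos hmr (by linarith)
  have hvκ : (m : ℝ) ^ (-κ) ≤ v := by
    rw [hv]
    exact Real.rpow_le_rpow_of_exponent_le hmr (by rw [hκ']; linarith [min_le_left κ e])
  have hve : (m : ℝ) ^ (-e) ≤ v := by
    rw [hv]
    exact Real.rpow_le_rpow_of_exponent_le hmr (by rw [hκ']; linarith [min_le_right κ e])
  rw [← hκ', ← hw]
  rw [← hw] at hmm1
  obtain ⟨Q, hQ⟩ : ∃ Q, Q = B0 * L ^ (k + 1) := ⟨_, rfl⟩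
  have hLk : 1 ≤ L ^ k := one_le_pow₀ hL1
  have hLk1 : 1 ≤ L ^ (k + 1) := one_le_pow₀ hL1
  have hLkk : L ^ k ≤ L ^ (k + 1) := pow_le_pow_right₀ hL1 (by omega)
  have hLL : L ≤ L ^ (k + 1) := by
    calc L = L ^ 1 := (pow_one L).symm
      _ ≤ _ := pow_le_pow_right₀ hL1 (by omega)
  have hQ1 : 1 ≤ Q := by rw [hQ]; exact one_le_mul_of_one_le_of_one_le hB1 hLk1
  have hQ0 : 0 ≤ Q := by linarith
  have hBQ : B0 ≤ Q := by rw [hQ]; exact le_mul_of_one_le_right (by linarith) hLk1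
  have hCQ : C ≤ Q := by
    refine le_trans ?_ hBQ
    rw [hB]
    linarith
  have hLQ : L ^ k ≤ Q := by
    rw [hQ]
    exact hLkk.trans (le_mul_of_one_le_left (by linarith) hB1)
  have hQ15 : 10 * Q ^ (q + 4) * w * (1 + 1 / cs) ≤ 1 := by
    refine le_trans (le_of_eq ?_) hmm1
    rw [hQ, mul_pow, ← pow_mul, mul_comm (k + 1) (q + 4)]
    ring
  have hQp : 0 ≤ 10 * Q ^ (q + 4) * w := by positivity
  have hcs' : 0 < 1 / cs := by positivity
  have hQle : 10 * Q ^ (q + 4) * w ≤ 1 := le_trans (le_mul_of_one_le_right hQp (by linarith)) hQ15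
  have hQcs : 10 * Q ^ (q + 4) * w ≤ cs := by
    have h1 : 10 * Q ^ (q + 4) * w * (1 / cs) ≤ 1 :=
      le_trans (mul_le_mul_of_nonneg_left (by linarith) hQp) hQ15
    rw [mul_one_div, div_le_one hcs] at h1
    exact h1
  have hp : ∀ i j : ℕ, i ≤ j → Q ^ i ≤ Q ^ j := fun i j hij => pow_le_pow_right₀ hQ1 hij
  have hR0 : 0 ≤ R := by linarith
  have hRQ : R ≤ Q := hR.trans hLQ
  have hMQ : M ≤ Q := hM.trans hLQ
  have hAQ : A ≤ Q := hA.trans hLQ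
  have hArQ : Ar ≤ Q := hAr.trans hLQ
  refine ⟨by linarith, hR10, w, hw0.le, le_refl _, fun x hx => ?_⟩
  have hSA := HA (Xf e m) L hX0 hXL hL1 x hx
  obtain ⟨SA, hAd⟩ : ∃ SA, SA = ∑ i, |x i| := ⟨_, rfl⟩
  rw [← hAd] at hSA
  have hSA0 : 0 ≤ SA := by rw [hAd]; exact Finset.sum_nonneg fun i _ => abs_nonneg _
  have hz := HZ m hm0 s SA hs hSA0
  obtain ⟨z, hzd⟩ : ∃ z, z = sz s (R1f e m) x := ⟨_, rfl⟩
  have hzA : z = SA / (s * P (R1f e m + 1)) := by rw [hzd, hAd]; rfl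
  have hs0 : 0 < s := by linarith
  have hz0 : 0 ≤ z := by
    rw [hzA]
    have := P_pos B (R1f e m + 1)
    positivity
  rw [← hzA] at hz
  have hzQ : z ≤ Q * v := by
    refine hz.trans ?_
    have h1 : Cz * CA ≤ B0 := by rw [hB]; linarith
    have h2 : Cz * SA ≤ Cz * (CA * L) := mul_le_mul_of_nonneg_left hSA (by linarith)
    have h3 : Cz * SA ≤ B0 * L ^ (k + 1) := by
      refine h2.trans ?_
      rw [← mul_assoc]
      exact mul_le_mul h1 hLL (by linarith) (by linarith)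
    rw [← hQ] at h3
    exact mul_le_mul h3 hve (Real.rpow_nonneg hmp.le _) (by linarith)
  have hεQ : ε ≤ Q * v := hε.trans (hvκ.trans (le_mul_of_one_le_left hv0.le hQ1))
  have hvw1 : v ≤ w := by rw [hvw]; exact mul_le_of_le_one_left hw0.le hw1
  rw [← hzd]
  have hQv0 : 0 ≤ Q * v := by positivity
  have a1 : C * R ^ q * (ε + z) ≤ Q * Q ^ q * (Q * v + Q * v) := by gcongr
  have a2 : Q * Q ^ q * (Q * v + Q * v) ≤ 10 * Q ^ (q + 4) * w := by
    have e1 : Q * Q ^ q * (Q * v + Q * v) = 2 * Q ^ (q + 2) * v := by ring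
    have h1 := hp (q + 2) (q + 4) (by omega)
    rw [e1]
    exact mul_le_mul (mul_le_mul (by norm_num) h1 (by positivity) (by norm_num)) hvw1 hv0.le
      (by positivity)
  refine ⟨hz0, ?_, (a1.trans a2).trans hQle, ?_⟩
  · refine le_trans ?_ hQcs
    refine hzQ.trans ?_
    have h1 : Q ≤ Q ^ (q + 4) := by
      calc Q = Q ^ 1 := (pow_one Q).symm
        _ ≤ _ := hp 1 (q + 4) (by omega)
    have h3 : Q * v ≤ Q ^ (q + 4) * w := mul_le_mul h1 hvw1 hv0.le (by positivity)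
    have h4 : 0 ≤ Q ^ (q + 4) * w := by positivity
    have h5 : 10 * Q ^ (q + 4) * w = 10 * (Q ^ (q + 4) * w) := by ring
    rw [h5]
    linarith
  · have h2 : A + S * Real.exp (-2 * R) + Ar ≤ 4 * Q := by linarith
    have h3 : 0 ≤ A + S * Real.exp (-2 * R) + Ar := by positivity
    have a3 : C * (R ^ q * (M * (ε + z)) + R ^ q * ((A + S * Real.exp (-2 * R) + Ar) * z)) ≤
        Q * (Q ^ q * (Q * (Q * v + Q * v)) + Q ^ q * (4 * Q * (Q * v))) := by gcongr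
    refine a3.trans ?_
    have e2 : Q * (Q ^ q * (Q * (Q * v + Q * v)) + Q ^ q * (4 * Q * (Q * v))) =
        6 * Q ^ (q + 3) * v := by ring
    rw [e2, hvw]
    have h4 := hp (q + 3) (q + 4) (by omega)
    have h6 : 6 * Q ^ (q + 3) * w ≤ 1 := by
      refine le_trans ?_ hQle
      calc 6 * Q ^ (q + 3) * w ≤ 6 * Q ^ (q + 4) * w := by gcongr
        _ ≤ 10 * Q ^ (q + 4) * w := by
          have : 0 ≤ Q ^ (q + 4) * w := by positivity
          linarith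
    calc 6 * Q ^ (q + 3) * (w * w) = 6 * Q ^ (q + 3) * w * w := by ring
      _ ≤ 1 * w := mul_le_mul_of_nonneg_right h6 hw0.le
      _ = w := one_mul w

end

end PLT.Cv
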