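import Pool.Agent.PLT.CurS
import Pool.Agent.PLT.Ag

/-!
# The potential of the cloud of one row, continued to `|y| < 5 l`

* `Hc t y = log 2 + ∫_0^∞ kf y t` (`NUMF.kf`, the integrand of `NUMF.H_fourier`); `Hc_eq : |y| < 4 l →
  Hc t y = NUMF.H t y`;
* **`line_pot`**: the cloud moved to the line `Im z = c`, `|c| < l`, `|y - c| < 4 l`, has the potential
  `Hc t y` at `t + i y`;
* **`conv_c`**: `Hc t (y + l) + Hc t (y - l) - Hc t y = NUMF.h t y`, `|y| < 4 l`;
* **`Hc_beyond`**: `Hc t (4 l + a) = Hc t (4 l - a) - 2 Ag a t`, `|a| < l`.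
-/

set_option autoImplicit false

noncomputable section

open MeasureTheory Set Filter Topology Complex

namespace PLT

open NUMF (l l_pos P Pc kf ck ck1 sk dom)

/-- the potential of the cloud of one row -/
def Hc (t y : ℝ) : ℝ := Real.log 2 + ∫ k in Ioi (0:ℝ), kf y t k

theorem Hc_eq {y : ℝ} (hy : |y| < 4 * l) (t : ℝ) : Hc t y = NUMF.H t y := ((NUMF.H_fourier hy t).2).symm

theorem kf_neg (y t k : ℝ) : kf (-y) t k = kf y t k := by
  unfold NUMF.kf
  rw [neg_mul, Real.cosh_neg]

theorem Hc_neg (t y : ℝ) : Hc t (-y) = Hc t y := by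
  unfold Hc
  simp only [kf_neg]

theorem Hc_abs (t y : ℝ) : Hc t |y| = Hc t y := by
  rcases abs_choice y with h | h
  · rw [h]
  · rw [h, Hc_neg]

/-! ### the density on a line -/

private theorem ck1_neg (k : ℝ) : ck1 (-k) = ck1 k := by
  unfold NUMF.ck1
  rw [mul_neg, Real.cosh_neg]

private theorem P_exp (k : ℝ) : ∫ s : ℝ, (P s : ℂ) * Complex.exp (I * k * s) =
    ((1 / (2 * ck1 k - 1) : ℝ) : ℂ) := by
  obtain ⟨i1, e1⟩ := NUMF.P_forward k
  obtain ⟨i2, e2⟩ := NUMF.P_sin k
  have h1 : ∀ s : ℝ, (P s : ℂ) * Complex.exp (I * k * s) =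
      ((P s * Real.cos (k * s) : ℝ) : ℂ) + ((P s * Real.sin (k * s) : ℝ) : ℂ) * I := by
    intro s
    have h2 : I * (k : ℂ) * s = ((k * s : ℝ) : ℂ) * I := by
      push_cast
      ring
    rw [h2, Complex.exp_mul_I, ← Complex.ofReal_cos, ← Complex.ofReal_sin]
    push_cast
    ring
  have j1 : Integrable fun s : ℝ => ((P s * Real.cos (k * s) : ℝ) : ℂ) := i1.ofReal
  have j2 : Integrable fun s : ℝ => ((P s * Real.sin (k * s) : ℝ) : ℂ) := i2.ofReal
  simp_rw [h1]
  rw [integral_add j1 (j2.mul_const I)]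
  rw [integral_mul_const, integral_complex_ofReal, integral_complex_ofReal, e1, e2]
  simp

/-- a line as a curve -/
theorem prf_const (c : ℝ) : Prf c c (fun _ => c) (fun _ => 0) where
  der := fun t => hasDerivAt_const t c
  cont := continuous_const
  bd := ⟨0, le_rfl, fun t => by simp⟩
  ge := fun _ => le_rfl
  le := fun _ => le_rfl

/-- the density of the quanta decays -/
theorem Pc_le {b : ℝ} (hb : b < l) : ∃ C : ℝ, 0 ≤ C ∧ ∀ z : ℂ, |z.im| ≤ b →
    ‖Pc z‖ ≤ C * Real.exp (-(8 / 3) * |z.re|) := by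
  by_cases hb0 : 0 ≤ b
  · obtain ⟨C, hC, h⟩ := NUMF.Pc_deriv_exp hb0 hb 0
    exact ⟨C, hC, fun z hz => by simpa using h z hz⟩
  · exact ⟨0, le_rfl, fun z hz => absurd ((abs_nonneg _).trans hz) hb0⟩

theorem Pc_exp {c : ℝ} (hc : |c| < l) (k : ℝ) :
    Integrable (fun s : ℝ => Pc (s + c * I) * Complex.exp (I * k * s)) ∧
    ∫ s : ℝ, Pc (s + c * I) * Complex.exp (I * k * s) =
      Complex.exp (k * c) * ((1 / (2 * ck1 k - 1) : ℝ) : ℂ) := by
  obtain ⟨C, hC, hP⟩ := Pc_le hc
  have hab := abs_nonneg c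
  have him : ∀ z ∈ stp (-|c|) |c|, |z.im| ≤ |c| := fun z hz => abs_le.2 hz
  obtain ⟨-, h2, h3⟩ := shift_curve (lo := 0) (hi := 0) (η := fun _ => 0) (η' := fun _ => 0)
    (a := -|c|) (b := |c|) (κ := 8 / 3) (C := C * Real.exp (|k| * |c|)) (c := c)
    (f := fun z => Pc z * Complex.exp (I * k * z)) (by norm_num) (by positivity) (prf_const 0)
    (by linarith) hab (neg_abs_le c) (le_abs_self c)
    (fun z hz => ((NUMF.Pc_diff (lt_of_le_of_lt (him z hz) hc)).mul (by fun_prop)).differentiableWithinAt)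
    (fun z hz => by
      rw [norm_mul, Complex.norm_exp]
      have e1 : (I * k * z).re = -(k * z.im) := by simp
      rw [e1]
      have h4 : -(k * z.im) ≤ |k| * |c| := by
        refine (neg_le_abs _).trans ?_
        rw [abs_mul]
        exact mul_le_mul_of_nonneg_left (him z hz) (abs_nonneg k)
      calc ‖Pc z‖ * Real.exp (-(k * z.im)) ≤ (C * Real.exp (-(8 / 3) * |z.re|)) *
            Real.exp (|k| * |c|) := mul_le_mul (hP z (him z hz)) (Real.exp_le_exp.2 h4)
            (Real.exp_pos _).le (by positivity)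
        _ = _ := by ring)
  have e2 : ∀ s : ℝ, Pc (s + c * I) * Complex.exp (I * k * s) =
      Complex.exp (k * c) * (Pc (s + c * I) * Complex.exp (I * k * (s + c * I))) := by
    intro s
    have h5 : I * (k : ℂ) * (s + c * I) = I * k * s + -(k * c) := by
      linear_combination (k : ℂ) * c * Complex.I_mul_I
    have h6 : Complex.exp ((k : ℂ) * c) * Complex.exp (-(k * c)) = 1 := by
      rw [← Complex.exp_add, add_neg_cancel, Complex.exp_zero]
    rw [h5, Complex.exp_add]
    linear_combination (-(Pc (s + c * I) * Complex.exp (I * k * s))) * h6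
  simp_rw [e2]
  refine ⟨h2.const_mul _, ?_⟩
  rw [integral_const_mul, ← h3, ← P_exp k]
  congr 1
  refine integral_congr_ae (Eventually.of_forall fun s => ?_)
  simp [cpt, cjc, NUMF.Pc_ofReal]

theorem Pc_one {c : ℝ} (hc : |c| < l) : Integrable (fun s : ℝ => Pc (s + c * I)) ∧
    ∫ s : ℝ, Pc (s + c * I) = 1 := by
  obtain ⟨h1, h2⟩ := Pc_exp hc 0
  have e : ∀ s : ℝ, Pc (s + c * I) * Complex.exp (I * (0:ℝ) * s) = Pc (s + c * I) := by
    intro s
    simp
  simp_rw [e] at h1 h2
  refine ⟨h1, ?_⟩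
  rw [h2]
  unfold NUMF.ck1
  simp
  norm_num

/-- `∫ Pc cosh` -/
theorem Pc_cosh {c : ℝ} (hc : |c| < l) (ζ : ℂ) (k : ℝ) :
    Integrable (fun s : ℝ => Pc (s + c * I) * Complex.cosh ((ζ - (s + c * I)) * I * k)) ∧
    ∫ s : ℝ, Pc (s + c * I) * Complex.cosh ((ζ - (s + c * I)) * I * k) =
      Complex.cosh (ζ * I * k) * ((1 / (2 * ck1 k - 1) : ℝ) : ℂ) := by
  obtain ⟨i1, e1⟩ := Pc_exp hc (-k)
  obtain ⟨i2, e2⟩ := Pc_exp hc k
  rw [ck1_neg] at e1
  have hf : ∀ s : ℝ, Pc (s + c * I) * Complex.cosh ((ζ - (s + c * I)) * I * k) =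
      Complex.exp (ζ * I * k + k * c) / 2 * (Pc (s + c * I) * Complex.exp (I * (-k : ℝ) * s)) +
      Complex.exp (-(ζ * I * k + k * c)) / 2 * (Pc (s + c * I) * Complex.exp (I * k * s)) := by
    intro s
    have h1 : (ζ - (s + c * I)) * I * k = ζ * I * k + k * c + I * (-k : ℝ) * s := by
      push_cast
      linear_combination (-(c : ℂ) * k) * Complex.I_mul_I
    have h2 : -((ζ - (s + c * I)) * I * k) = -(ζ * I * k + k * c) + I * k * s := by
      rw [h1]
      push_cast
      ring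
    rw [Complex.cosh, h2, h1, Complex.exp_add (ζ * I * k + k * c) (I * (-k : ℝ) * s),
      Complex.exp_add (-(ζ * I * k + k * c)) (I * k * s)]
    ring
  simp_rw [hf]
  refine ⟨(i1.const_mul _).add (i2.const_mul _), ?_⟩
  rw [integral_add (i1.const_mul _) (i2.const_mul _), integral_const_mul, integral_const_mul, e1, e2]
  have h3 : Complex.exp (ζ * I * k + k * c) * Complex.exp ((-k : ℝ) * c) = Complex.exp (ζ * I * k) := by
    rw [← Complex.exp_add]
    congr 1
    push_cast
    ring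
  have h4 : Complex.exp (-(ζ * I * k + k * c)) * Complex.exp (k * c) = Complex.exp (-(ζ * I * k)) := by
    rw [← Complex.exp_add]
    congr 1
    ring
  rw [Complex.cosh, ← h3, ← h4]
  ring

/-! ### the cloud on a line -/

private theorem log_eq {w : ℂ} (hw : |w.im| < 4 * l) :
    Lc w = (Real.log 2 : ℝ) - 2 * ∫ k in Ioi (0:ℝ), ck (w * I) k := by
  have hre : (w * I).re = -w.im := by simp
  rw [NUMF.neg_log_cos (by rw [hre, abs_neg, ← four_l]; exact hw), Complex.cos_mul_I]
  unfold Lc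
  ring

private theorem Pc_line_cont {c : ℝ} (hc : |c| < l) : Continuous fun s : ℝ => Pc (s + c * I) := by
  rw [continuous_iff_continuousAt]
  intro s
  have h1 : ContinuousAt (fun s : ℝ => (s : ℂ) + c * I) s := by fun_prop
  exact ContinuousAt.comp (f := fun s : ℝ => (s : ℂ) + c * I) (g := Pc)
    (NUMF.Pc_diff (by simpa using hc)).continuousAt h1

/-- **the cloud moved to the line `Im z = c`** -/
theorem line_pot {c t y : ℝ} (hc : |c| < l) (hy : |y - c| < 4 * l) : IntegrableOn (kf y t) (Ioi 0) ∧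
    (∫ s : ℝ, Pc (s + c * I) * Lc (t + y * I - (s + c * I))).re = Hc t y := by
  obtain ⟨C, hC, hP⟩ := Pc_le hc
  obtain ⟨ν, hν⟩ : ∃ ν : Measure ℝ, ν = volume.restrict (Ioi (0:ℝ)) := ⟨_, rfl⟩
  have hsf : SigmaFinite ν := by
    rw [hν]
    infer_instance
  have hpos : ∀ᵐ k ∂ν, 0 < k := by
    rw [hν]
    filter_upwards [ae_restrict_mem measurableSet_Ioi] with k hk
    exact hk
  have hy' : |y - c| < Real.pi / 2 := by
    rw [← four_l]
    exact hy
  have hre : ∀ s : ℝ, (((t : ℂ) + y * I - (s + c * I)) * I).re = -(y - c) := fun s => by simp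
  have him : ∀ s : ℝ, ((t : ℂ) + y * I - (s + c * I)).im = y - c := fun s => by simp
  have hnm : ∀ s : ℝ, ‖((t : ℂ) + y * I - (s + c * I)) * I‖ ^ 2 = (t - s) ^ 2 + (y - c) ^ 2 := by
    intro s
    have e : (t : ℂ) + y * I - (s + c * I) = ((t - s : ℝ) : ℂ) + ((y - c : ℝ) : ℂ) * I := by
      push_cast
      ring
    rw [norm_mul, norm_I, mul_one, e, ← Complex.normSq_eq_norm_sq, Complex.normSq_add_mul_I]
  have hPle : ∀ s : ℝ, ‖Pc (s + c * I)‖ ≤ C * Real.exp (-(8 / 3) * |s|) := by
    intro s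
    have := hP (s + c * I) (by simp)
    simpa using this
  have hg : Integrable fun s : ℝ => C * Real.exp (-(8 / 3) * |s|) * ((t - s) ^ 2 + (y - c) ^ 2) := by
    have h0 := (NUMF.int_exp_abs (b := 5 / 3) (by norm_num)).const_mul
      (C * (2 * t ^ 2 + 4 + (y - c) ^ 2))
    refine h0.mono' (Continuous.aestronglyMeasurable (by fun_prop)) (Eventually.of_forall fun s => ?_)
    rw [Real.norm_eq_abs, abs_of_nonneg (by positivity)]
    have h1 : s ^ 2 ≤ 2 * Real.exp |s| := by
      rw [← sq_abs]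
      have := Real.quadratic_le_exp_of_nonneg (abs_nonneg s)
      have := abs_nonneg s
      nlinarith
    have h2 : 1 ≤ Real.exp |s| := Real.one_le_exp (abs_nonneg s)
    have h3 : (t - s) ^ 2 + (y - c) ^ 2 ≤ (2 * t ^ 2 + 4 + (y - c) ^ 2) * Real.exp |s| := by
      nlinarith [sq_nonneg (t + s), sq_nonneg t, sq_nonneg (y - c)]
    have h4 : Real.exp (-(8 / 3) * |s|) * Real.exp |s| = Real.exp (-(5 / 3) * |s|) := by
      rw [← Real.exp_add]
      congr 1
      ring
    calc C * Real.exp (-(8 / 3) * |s|) * ((t - s) ^ 2 + (y - c) ^ 2) ≤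
          C * Real.exp (-(8 / 3) * |s|) * ((2 * t ^ 2 + 4 + (y - c) ^ 2) * Real.exp |s|) := by gcongr
      _ = C * (2 * t ^ 2 + 4 + (y - c) ^ 2) * (Real.exp (-(8 / 3) * |s|) * Real.exp |s|) := by ring
      _ = _ := by rw [h4]
  have hd : Integrable (dom |y - c|) ν := by
    rw [hν]
    exact NUMF.dom_integrable hy'
  have hprod : Integrable (fun p : ℝ × ℝ => Pc (p.1 + c * I) *
      ck (((t : ℂ) + y * I - (p.1 + c * I)) * I) p.2) (volume.prod ν) := by
    have h1 := hg.mul_prod hd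
    refine h1.mono' ?_ ?_
    · have h2 : Measurable fun p : ℝ × ℝ => sk p.2 := NUMF.sk_meas.comp measurable_snd
      have h3 : Measurable fun p : ℝ × ℝ => Pc (p.1 + c * I) :=
        (Pc_line_cont hc).measurable.comp measurable_fst
      refine (h3.mul ?_).aestronglyMeasurable
      unfold NUMF.ck
      refine Measurable.div ?_ ?_
      · have h4 : Continuous fun p : ℝ × ℝ =>
            Complex.cosh (((t : ℂ) + y * I - (p.1 + c * I)) * I * p.2) - 1 := by fun_prop
        exact h4.measurable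
      · exact Complex.measurable_ofReal.comp (measurable_snd.mul h2)
    · have h2 : ∀ᵐ p : ℝ × ℝ ∂(volume.prod ν), 0 < p.2 :=
        (Measure.quasiMeasurePreserving_snd (μ := (volume : Measure ℝ)) (ν := ν)).ae hpos
      filter_upwards [h2] with p hp
      rw [norm_mul]
      have h3 := NUMF.ck_le (z := ((t : ℂ) + y * I - (p.1 + c * I)) * I) (b := |y - c|)
        (by rw [hre, abs_neg]) hp
      rw [hnm] at h3
      have h5 := NUMF.dom_nonneg |y - c| hp
      calc ‖Pc (p.1 + c * I)‖ * ‖ck (((t : ℂ) + y * I - (p.1 + c * I)) * I) p.2‖ ≤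
            (C * Real.exp (-(8 / 3) * |p.1|)) * (((t - p.1) ^ 2 + (y - c) ^ 2) * dom |y - c| p.2) :=
            mul_le_mul (hPle p.1) h3 (norm_nonneg _) (by positivity)
        _ = _ := by ring
  have hswap := integral_integral_swap (f := fun (s k : ℝ) => Pc (s + c * I) *
    ck (((t : ℂ) + y * I - (s + c * I)) * I) k) (μ := volume) (ν := ν) hprod
  have hi2 := hprod.integral_prod_right
  have hi1 := hprod.integral_prod_left
  simp only at hi1 hi2
  obtain ⟨j1, f1⟩ := Pc_one hc
  have hin : ∀ k : ℝ, ∫ s : ℝ, Pc (s + c * I) * ck (((t : ℂ) + y * I - (s + c * I)) * I) k =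
      (Complex.cosh ((t + y * I) * I * k) * ((1 / (2 * ck1 k - 1) : ℝ) : ℂ) - 1) /
        ((k * sk k : ℝ) : ℂ) := by
    intro k
    obtain ⟨j2, f2⟩ := Pc_cosh hc (t + y * I) k
    have h1 : ∀ s : ℝ, Pc (s + c * I) * ck (((t : ℂ) + y * I - (s + c * I)) * I) k =
        (Pc (s + c * I) * Complex.cosh (((t : ℂ) + y * I - (s + c * I)) * I * k) - Pc (s + c * I)) /
          ((k * sk k : ℝ) : ℂ) := by
      intro s
      unfold NUMF.ck
      ring
    simp_rw [h1]
    rw [integral_div, integral_sub j2 j1, f1, f2]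
  have hkf : ∀ k : ℝ, -2 * ((Complex.cosh ((t + y * I) * I * k) * ((1 / (2 * ck1 k - 1) : ℝ) : ℂ) - 1) /
        ((k * sk k : ℝ) : ℂ)).re = kf y t k := by
    intro k
    rw [Complex.div_ofReal_re, Complex.sub_re, Complex.re_mul_ofReal, NUMF.re_cosh, Complex.one_re]
    have h1 : (((t : ℂ) + y * I) * I * k).re = -(y * k) := by simp
    have h2 : (((t : ℂ) + y * I) * I * k).im = t * k := by simp
    rw [h1, h2, Real.cosh_neg]
    unfold NUMF.kf
    ring
  simp_rw [hin] at hi2 hswap
  have hi3 := hi2.re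
  simp only [RCLike.re_to_complex] at hi3
  have hk1 : Integrable (kf y t) ν := by
    refine (hi3.const_mul (-2)).congr (Eventually.of_forall fun k => ?_)
    exact hkf k
  refine ⟨by rw [hν] at hk1; exact hk1, ?_⟩
  have hL : ∀ s : ℝ, Pc (s + c * I) * Lc (t + y * I - (s + c * I)) =
      Pc (s + c * I) * ((Real.log 2 : ℝ) : ℂ) -
        2 * ∫ k, Pc (s + c * I) * ck (((t : ℂ) + y * I - (s + c * I)) * I) k ∂ν := by
    intro s
    rw [log_eq (by rw [him]; exact hy), integral_const_mul, hν]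
    ring
  simp_rw [hL]
  rw [integral_sub (j1.mul_const _) (hi1.const_mul 2), integral_mul_const, integral_const_mul, f1, hswap]
  rw [Complex.sub_re, one_mul, Complex.ofReal_re]
  have h3 := integral_re hi2
  simp only [RCLike.re_to_complex] at h3
  have h4 : (2 * ∫ k, (Complex.cosh ((t + y * I) * I * k) * ((1 / (2 * ck1 k - 1) : ℝ) : ℂ) - 1) /
        ((k * sk k : ℝ) : ℂ) ∂ν).re = 2 * (∫ k, (Complex.cosh ((t + y * I) * I * k) *
          ((1 / (2 * ck1 k - 1) : ℝ) : ℂ) - 1) / ((k * sk k : ℝ) : ℂ) ∂ν).re := by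
    rw [Complex.mul_re]
    simp
  rw [h4, ← h3]
  unfold Hc
  have h5 : ∫ k in Ioi (0:ℝ), kf y t k = -2 * ∫ k, ((Complex.cosh ((t + y * I) * I * k) *
          ((1 / (2 * ck1 k - 1) : ℝ) : ℂ) - 1) / ((k * sk k : ℝ) : ℂ)).re ∂ν := by
    rw [← integral_const_mul, ← hν]
    exact integral_congr_ae (Eventually.of_forall fun k => (hkf k).symm)
  rw [h5]
  ring

theorem kf_int {y : ℝ} (hy : |y| < 5 * l) (t : ℝ) : IntegrableOn (kf y t) (Ioi 0) := by
  refine (line_pot (c := y / 5) (t := t) (y := y) ?_ ?_).1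
  · rw [abs_div, abs_of_pos (by norm_num : (0:ℝ) < 5)]
    linarith
  · rw [show y - y / 5 = 4 * (y / 5) by ring, abs_mul, abs_div, abs_of_pos (by norm_num : (0:ℝ) < 5),
      abs_of_pos (by norm_num : (0:ℝ) < 4)]
    linarith

/-! ### the rules -/

/-- **the rule of the continued potential** -/
theorem conv_c {y : ℝ} (hy : |y| < 4 * l) (t : ℝ) :
    Hc t (y + l) + Hc t (y - l) - Hc t y = NUMF.h t y := by
  have hl := l_pos
  have h0 := abs_lt.1 hy
  have i1 := kf_int (y := y + l) (by rw [abs_lt]; constructor <;> linarith) t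
  have i2 := kf_int (y := y - l) (by rw [abs_lt]; constructor <;> linarith) t
  have i3 := kf_int (y := y) (by linarith) t
  obtain ⟨i4, f4⟩ := NUMF.h_fourier (a := y) (by rw [← four_l]; exact hy) t
  have key : ∀ k ∈ Ioi (0:ℝ), kf (y + l) t k + kf (y - l) t k - kf y t k =
      2 * (1 - Real.cosh (y * k) * Real.cos (t * k)) / (k * sk k) := by
    intro k hk
    have hk' : (0:ℝ) < k := hk
    have hs := NUMF.sk_pos hk'
    have hd := NUMF.den_k k
    have a1 : Real.cosh ((y + l) * k) + Real.cosh ((y - l) * k) = 2 * ck1 k * Real.cosh (y * k) := by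
      unfold NUMF.ck1
      rw [add_mul, sub_mul, Real.cosh_add, Real.cosh_sub]
      ring
    unfold NUMF.kf
    have hs' := hs.ne'
    have hd' := hd.ne'
    have hk0 := hk'.ne'
    generalize Real.cosh ((y + l) * k) = E at *
    generalize Real.cosh ((y - l) * k) = B at *
    generalize Real.cosh (y * k) = A at *
    generalize Real.cos (t * k) = D at *
    generalize ck1 k = c1 at *
    have a2 : E = 2 * c1 * A - B := by linarith
    rw [a2]
    field_simp
    ring
  have b1 := integral_add i1 i2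
  have b2 := integral_sub (i1.add i2) i3
  simp only [Pi.add_apply] at b1 b2
  have b4 := setIntegral_congr_fun (μ := volume) measurableSet_Ioi key
  rw [b2, b1] at b4
  unfold Hc
  rw [f4]
  linarith

/-- **beyond the line `4 l`** -/
theorem Hc_beyond {a : ℝ} (ha : |a| < l) (t : ℝ) :
    Hc t (4 * l + a) = Hc t (4 * l - a) - 2 * Ag a t := by
  have hl := l_pos
  have h0 := abs_lt.1 ha
  have i1 := kf_int (y := 4 * l + a) (by rw [abs_lt]; constructor <;> linarith) t
  have i2 := kf_int (y := 4 * l - a) (by rw [abs_lt]; constructor <;> linarith) t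
  obtain ⟨i3, -⟩ := NUMF.AA_eq ha t
  have key : ∀ k ∈ Ioi (0:ℝ), kf (4 * l + a) t k - kf (4 * l - a) t k = -2 * NUMF.aa a t k := by
    intro k hk
    have hk' : (0:ℝ) < k := hk
    have hs := NUMF.sk_pos hk'
    have hd := NUMF.den_k k
    rw [NUMF.sk_four] at hs
    have hs' := hs.ne'
    have hd' := hd.ne'
    have hk0 := hk'.ne'
    unfold NUMF.kf NUMF.aa
    rw [show (4 * l + a) * k = 4 * (l * k) + a * k by ring,
      show (4 * l - a) * k = 4 * (l * k) - a * k by ring, Real.cosh_add, Real.cosh_sub, NUMF.sk_four]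
    generalize Real.cosh (4 * (l * k)) = E at *
    generalize Real.sinh (4 * (l * k)) = B at *
    generalize Real.cosh (a * k) = A at *
    generalize Real.sinh (a * k) = A' at *
    generalize Real.cos (t * k) = D at *
    generalize 2 * ck1 k - 1 = c1 at *
    field_simp
    ring
  have b1 := integral_sub i1 i2
  have b4 := setIntegral_congr_fun (μ := volume) measurableSet_Ioi key
  rw [b1, integral_const_mul] at b4
  rw [← Ag_eq_AA ha t]
  unfold Hc NUMF.AA
  linarith

end PLT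

end
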