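import Pool.Agent.PHK.ZFamR6
import Pool.Agent.PB.Num

/-!
# The family of the first Ward identity, any list of rows on the imaginary axis

As `PHK/ZFamA6`, `PHK/ZFamR6` for a list `x : Fin m → ℂ` of rows with `Re = 0`, the row `i0` moved
(`mvx x i0 η0 θ = x + (θ - η0) I e_{i0}`, complex `θ`), the second species with the `q` copies; the field
`X` and the velocities `v` of the extra points are variables.

* `ZXm`: the one body functions, `ZPm`: their product form, `cutM`: the cutoff of a kind;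
  **`ZXm_eq`**, **`diff_ZPm`**, **`ub_ZPm`**;
* `ZRm`, `ZdRm`, `ZpRm`: the family and its derivatives; **`exists_zfamC_P`**: `ZFam`, one constant for
  all lines;
* **`zcutC_eq0`**: `Zcut` is row factor × derivative of the cutoff × legs, for any derivative of the
  cutoff along the path of any flow.
-/

set_option autoImplicit false
set_option linter.unusedSectionVars false
set_option linter.unusedVariables false

noncomputable section

open Complex MeasureTheory Filter Topology Finset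

namespace PLT

open PLX (Fil)
open NUP1 NUP1.Bd NURow PB
open NUP1S hiding R0
open PBX (XX ph gP Lg Rws ph_gP gP_nil)
open PBFar (wE)
open PBForce (rowB RRB rwB krA r1A)
open PBI PBI.PLX
open PBQ1 (vv)
open PHK (KWo KW_win GAc GA omX phX gOA ph_gOA omA pP AmT FdS AmT_at gac_AmT ga_AmT diff_AmT
  norm_omX_le norm_omX_vac gO gOA_omA)
open PBZF (vx vx_at Lz KO KI K' KO_NP KO_NQ KO_NP' KO_NQ' KO_Lg KO_Lg' KO_row KO_compact KI_nhd KI_sub
  KI_ball lamK meas_KO meas_KI real_Th path_deriv path_leg all_ok all_KI re_sub_l dProd dInv dpsi dLg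
  d_vx ub_osm ub_osp ub_Lg rowOk_of)
open PBZF.PLX (KO6 KO6_sub KO6_compact KO6_S KO6_T Bx FdX Th SB SB_box rad rad_pos rad6 rad6_pos
  rad6_le SB6 SB6_sub SB6_rad gac_SB6 KI6_ball KI6_sub KI6_nhd meas_KO6 mem_SB6 mem_SB6' mem_SB60
  meas_AmT rte rte_word RRU_rwq phi_rwq dRRB ub_RRB ub_omX)
open Pool.Agent.PLX (XXU RRU TTU TTU_eq yqn yq rwq prod_rwq prod_ofFn_rwq cast_cond forall_rwq ub_RRU
  Rws_rwq)

variable {m : ℕ}

/-! ## the moved list -/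

/-- the row `i0` of the list `x` moved by `(θ - η0) I`, complex parameter -/
def mvx (x : Fin m → ℂ) (i0 : Fin m) (η0 : ℝ) (θ : ℂ) : Fin m → ℂ := fun i =>
  x i + (θ - η0) * vv i0 i

theorem mvx_self (x : Fin m → ℂ) (i0 : Fin m) (η0 : ℝ) : mvx x i0 η0 (η0 : ℂ) = x := by
  funext i
  unfold mvx
  rw [sub_self, zero_mul, add_zero]

theorem mvx_of_ne (x : Fin m → ℂ) {i0 i : Fin m} (h : i ≠ i0) (η0 : ℝ) (θ : ℂ) :
    mvx x i0 η0 θ i = x i := by
  unfold mvx vv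
  rw [if_neg h, mul_zero, add_zero]

theorem mvx_i0 (x : Fin m → ℂ) (i0 : Fin m) (η0 : ℝ) (θ : ℂ) :
    mvx x i0 η0 θ i0 = x i0 + (θ - η0) * I := by
  unfold mvx vv
  rw [if_pos rfl]

theorem mvx_re {x : Fin m → ℂ} (hx : ∀ i, (x i).re = 0) (i0 : Fin m) {η0 : ℝ} {θ : ℂ}
    (h : |(θ * I).re| ≤ l / 100) (i : Fin m) : |(mvx x i0 η0 θ i).re| ≤ l / 100 := by
  have hl := Bd.l_pos
  rcases eq_or_ne i i0 with rfl | hi
  · rw [mvx_i0, add_re, hx]
    have e : ((θ - η0) * I).re = (θ * I).re := by simp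
    rw [e, zero_add]
    exact h
  · rw [mvx_of_ne x hi, hx, abs_zero]
    positivity

theorem mvx_re0 {x : Fin m → ℂ} (hx : ∀ i, (x i).re = 0) (i0 : Fin m) (η0 η : ℝ) (i : Fin m) :
    (mvx x i0 η0 (η : ℂ) i).re = 0 := by
  rcases eq_or_ne i i0 with rfl | hi
  · rw [mvx_i0, add_re, hx]
    simp
  · rw [mvx_of_ne x hi, hx]

theorem d_mvx (x : Fin m → ℂ) (i0 : Fin m) (η0 : ℝ) (i : Fin m) (p : ℂ × ℂ) :
    DifferentiableAt ℂ (fun p : ℂ × ℂ => mvx x i0 η0 p.1 i) p := by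
  unfold mvx
  fun_prop

theorem Rws_mvx {x : Fin m → ℂ} (hx : ∀ i, (x i).re = 0) (i0 : Fin m) (η0 η : ℝ) :
    Rws (mvx x i0 η0 (η : ℂ)) := fun i => by
  rw [mvx_re0 hx, abs_zero]
  have := Bd.l_pos
  linarith

/-- a bound of the heights -/
def hgt (x : Fin m → ℂ) (η0 : ℝ) : ℝ := |η0| + 2 + ∑ i, |(x i).im|

theorem im_le_hgt (x : Fin m → ℂ) (η0 : ℝ) (i : Fin m) : |(x i).im| + 2 ≤ hgt x η0 := by
  unfold hgt
  have h1 := Finset.single_le_sum (f := fun i => |(x i).im|) (fun i _ => abs_nonneg _)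
    (Finset.mem_univ i)
  have h2 := abs_nonneg η0
  linarith

theorem le_hgt (x : Fin m → ℂ) (η0 : ℝ) : |η0| + 2 ≤ hgt x η0 := by
  unfold hgt
  have h1 : 0 ≤ ∑ i, |(x i).im| := Finset.sum_nonneg fun i _ => abs_nonneg _
  linarith

variable [Fil]

/-- the rows of a species as a list -/
def rl (w : Fin m → ℂ) (s : Bool) : List ℂ := List.ofFn (rwq w s)

theorem phi_rl (β : ℝ) (w : Fin m → ℂ) (ex : List ℂ) (s : Bool) (u : ℂ) :
    NUP1.phi β (rl w s ++ ex) u =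
      1 - (∏ i, psi β (u - w i)) ^ Fil.n s * (ex.map fun w => psi β (u - w)).prod := by
  unfold rl
  rw [phi_rwq, List.map_ofFn, List.prod_ofFn]
  rfl

theorem phi_rl0 (β : ℝ) (w : Fin m → ℂ) (s : Bool) (u : ℂ) :
    NUP1.phi β (rl w s) u = 1 - (∏ i, psi β (u - w i)) ^ Fil.n s := by
  have h := phi_rl β w [] s u
  rw [List.append_nil] at h
  rw [h]
  simp

/-! ## names -/

/-- the one body functions -/
def ZXm (c : Bool → ℂ) (b : ℝ) (x : Fin m → ℂ) (i0 : Fin m) (z0 : ℂ) (η0 : ℝ)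
    (v : Bool → Fin 2 → ℂ) (T1 : ℝ) (X : ℂ → ℂ) (θ : ℂ) (s : Bool) (k : Option O3) (u : ℂ) : ℂ :=
  XXU (c s) b (rwq (mvx x i0 η0 θ) s) (rwq (mvx x i0 η0 θ) (!s))
    (gP b [vx η0 (v s) θ 0, vx η0 (v s) θ 1]) (gOA (AmT T1 η0 X θ) [] (rwq (mvx x i0 η0 θ) s))
    (Lg z0 z0) (fun w => Lg z0 z0 w * Lg z0 z0 (w - l)) k u

/-- the cutoff of a kind -/
def cutM (A : ℂ → ℂ) (s : Bool) (b : ℝ) (w : Fin m → ℂ) (e : Fin 2 → ℂ) : Option O3 → ℂ → ℂ
  | some .S, u => phX A (rl w s) u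
  | some .T, u => NUP1.phi b (rl w s ++ [e 0, e 1]) u * NUP1.phi b (rl w s ++ [e 0, e 1]) (u - l) -
      phX A (rl w s) u
  | _, u => NUP1.phi b (rl w s ++ [e 0, e 1]) u

/-- the product form -/
def ZPm (c : Bool → ℂ) (b : ℝ) (x : Fin m → ℂ) (i0 : Fin m) (z0 : ℂ) (η0 : ℝ)
    (v : Bool → Fin 2 → ℂ) (T1 : ℝ) (X : ℂ → ℂ) (θ : ℂ) (s : Bool) (k : Option O3) (u : ℂ) : ℂ :=
  rowB (c s) (Fil.n s) (Fil.n (!s)) (mvx x i0 η0 θ) (ob4 k) u *
    cutM (AmT T1 η0 X θ) s b (mvx x i0 η0 θ) (vx η0 (v s) θ) k u * one (Lg z0 z0) (ob4 k) u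

variable {c : Bool → ℂ} {b : ℝ} {x : Fin m → ℂ} {i0 : Fin m} {z0 : ℂ} {η0 : ℝ}
  {v : Bool → Fin 2 → ℂ} {θ : ℂ} {T1 : ℝ} {X : ℂ → ℂ}

/-! ## equality -/

theorem ph_rl (b : ℝ) (w : Fin m → ℂ) (s : Bool) (e : Fin 2 → ℂ) (u : ℂ) :
    ph b (rwq w s) (gP b [e 0, e 1]) u = NUP1.phi b (rl w s ++ [e 0, e 1]) u := by
  rw [ph_gP]
  rfl

theorem ph_rlX (A : ℂ → ℂ) (w : Fin m → ℂ) (s : Bool) (u : ℂ) :
    ph (4 / 3) (rwq w s) (gOA A [] (rwq w s)) u = phX A (rl w s) u := by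
  rw [ph_gOA, List.append_nil]
  rfl

theorem rwqm_re (hx : ∀ i, (x i).re = 0) (h : |(θ * I).re| ≤ l / 100) (s : Bool)
    (i : Fin (cond s m (Fil.q * m))) : |(rwq (mvx x i0 η0 θ) s i).re| ≤ l / 100 :=
  forall_rwq (P := fun w : ℂ => |w.re| ≤ l / 100) (mvx_re hx i0 h) s i

/-- **the product form** -/
theorem ZXm_eq (hx : ∀ i, (x i).re = 0) (hb : 0 < b) (hb' : b ≤ 4 / 3)
    (hθ : |(θ * I).re| ≤ l / 100) (s : Bool) {k : Option O3} {u : ℂ} (hu : u.re ∈ KO6 k) :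
    ZXm c b x i0 z0 η0 v T1 X θ s k u = ZPm c b x i0 z0 η0 v T1 X θ s k u := by
  have hl := Bd.l_pos
  have e1 := ph_rl b (mvx x i0 η0 θ) s (vx η0 (v s) θ)
  have e2 := ph_rlX (AmT T1 η0 X θ) (mvx x i0 η0 θ) s
  have e3 := RRU_rwq (c s) (mvx x i0 η0 θ) s
  unfold ZXm ZPm
  rcases k with _ | (_ | _ | _)
  · show RRU (c s) (rwq (mvx x i0 η0 θ) s) (rwq (mvx x i0 η0 θ) (!s)) u *
      ph b (rwq (mvx x i0 η0 θ) s) _ u * Lg z0 z0 u = _
    rw [e1, e3]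
    rfl
  · show RRU (c s) (rwq (mvx x i0 η0 θ) s) (rwq (mvx x i0 η0 θ) (!s)) u *
      ph b (rwq (mvx x i0 η0 θ) s) _ u * Lg z0 z0 u = _
    rw [e1, e3]
    rfl
  · show RRU (c s) (rwq (mvx x i0 η0 θ) s) (rwq (mvx x i0 η0 θ) (!s)) u *
      RRU (c s) (rwq (mvx x i0 η0 θ) s) (rwq (mvx x i0 η0 θ) (!s)) (u - l) *
      ph (4 / 3) (rwq (mvx x i0 η0 θ) s) _ u * (Lg z0 z0 u * Lg z0 z0 (u - l)) = _
    rw [e2, e3, e3]
    rfl
  · show TTU (c s) b (4 / 3) (rwq (mvx x i0 η0 θ) s) (rwq (mvx x i0 η0 θ) (!s)) _ _ u *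
      (Lg z0 z0 u * Lg z0 z0 (u - l)) = _
    have hu' := KO6_sub hu
    have hre : ∀ i, -(l) < (u - rwq (mvx x i0 η0 θ) s i).re ∧
        (u - rwq (mvx x i0 η0 θ) s i).re < 0 := by
      intro i
      obtain ⟨h1, h2⟩ := hu'
      obtain ⟨h3, h4⟩ := abs_le.1 (rwqm_re (i0 := i0) (η0 := η0) hx hθ s i)
      rw [sub_re]
      constructor <;> linarith
    rw [TTU_eq (fun i => NQ_strip hb hb' (by linarith [(hre i).1]) (by linarith [(hre i).2]))
      (fun i => NQ_strip (by norm_num) le_rfl (by linarith [(hre i).1]) (by linarith [(hre i).2]))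
      (fun i hi => by
        exfalso
        obtain ⟨h3, h4⟩ := abs_le.1 (rwqm_re (i0 := i0) (η0 := η0) hx hθ s i)
        linarith)
      (fun i hi => by
        exfalso
        obtain ⟨h3, h4⟩ := abs_le.1 (rwqm_re (i0 := i0) (η0 := η0) hx hθ s i)
        linarith), e1, e1, e2, e3, e3]
    rfl

/-! ## joint analyticity -/

section diff

variable {E : Type*} [NormedAddCommGroup E] [NormedSpace ℂ E] {e0 : E}

theorem dphi_rl {β : ℝ} (s : Bool) {w : E → Fin m → ℂ} {u : E → ℂ}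
    (hw : ∀ i, DifferentiableAt ℂ (fun t => w t i) e0) (hu : DifferentiableAt ℂ u e0)
    (h : ∀ i, NQ β (u e0 - w e0 i).re) :
    DifferentiableAt ℂ (fun t => NUP1.phi β (rl (w t) s) (u t)) e0 := by
  simp_rw [phi_rl0]
  exact ((dProd fun i => dpsi (hu.sub (hw i)) (h i)).pow _).const_sub 1

theorem dphi_rlE {β : ℝ} (s : Bool) {w : E → Fin m → ℂ} {e : E → Fin 2 → ℂ} {u : E → ℂ}
    (hw : ∀ i, DifferentiableAt ℂ (fun t => w t i) e0)
    (he : ∀ i, DifferentiableAt ℂ (fun t => e t i) e0) (hu : DifferentiableAt ℂ u e0)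
    (h : ∀ i, NQ β (u e0 - w e0 i).re) (h3 : ∀ i, NQ β (u e0 - e e0 i).re) :
    DifferentiableAt ℂ (fun t => NUP1.phi β (rl (w t) s ++ [e t 0, e t 1]) (u t)) e0 := by
  simp_rw [phi_rl]
  simp only [List.map_cons, List.prod_cons, List.map_nil, List.prod_nil, mul_one]
  exact (((dProd fun i => dpsi (hu.sub (hw i)) (h i)).pow _).mul
    ((dpsi (hu.sub (he 0)) (h3 0)).mul (dpsi (hu.sub (he 1)) (h3 1)))).const_sub 1

end diff

/-- the cutoff of the strings -/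
theorem dphXm (hX : FdX X) (s : Bool) {u : ℂ} (hu : u.re ∈ KWo)
    (hd : DifferentiableAt ℂ (fun p : ℂ × ℂ => NUP1.phi (4 / 3) (rl (mvx x i0 η0 p.1) s) p.2)
      (θ, u)) :
    DifferentiableAt ℂ (fun p : ℂ × ℂ => phX (AmT T1 η0 X p.1) (rl (mvx x i0 η0 p.1) s) p.2)
      (θ, u) := by
  have hA := diff_AmT (T1 := T1) (η0 := η0) (θ := θ) (hX.fd.diff u hu)
  have hP : DifferentiableAt ℂ (fun p : ℂ × ℂ => pP (rl (mvx x i0 η0 p.1) s) p.2) (θ, u) := by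
    have e : (fun p : ℂ × ℂ => pP (rl (mvx x i0 η0 p.1) s) p.2) =
        fun p : ℂ × ℂ => 1 - NUP1.phi (4 / 3) (rl (mvx x i0 η0 p.1) s) p.2 := by
      funext p
      rw [PHK.phi_pP, sub_sub_cancel]
    rw [e]
    exact hd.const_sub 1
  unfold PHK.phX PHK.omX
  exact hd.mul ((hA.mul hP).neg.cexp)

/-- **joint analyticity** -/
theorem diff_ZPm (hx : ∀ i, (x i).re = 0) (hb : 0 < b) (hb' : b ≤ 4 / 3) (hz : Lz z0) (hX : FdX X)
    (hθ : Th η0 v θ) (s : Bool) {k : Option O3} {u : ℂ} (hu : u.re ∈ KO6 k) :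
    DifferentiableAt ℂ (fun p : ℂ × ℂ => ZPm c b x i0 z0 η0 v T1 X p.1 s k p.2) (θ, u) := by
  have hl := Bd.l_pos
  have h2 : DifferentiableAt ℂ (fun p : ℂ × ℂ => p.2) (θ, u) := differentiableAt_snd
  have h2' : DifferentiableAt ℂ (fun p : ℂ × ℂ => p.2 - (l : ℂ)) (θ, u) := h2.sub_const _
  have hu' := KO6_sub hu
  have hv : ∀ i, |(vx η0 (v s) θ i).re| ≤ l / 100 := by
    intro i
    fin_cases i
    · exact (hθ s).v0
    · exact (hθ s).v1
  have hre := mvx_re (η0 := η0) hx i0 hθ.x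
  set α := Fil.n s
  set γ := Fil.n (!s)
  have dR : DifferentiableAt ℂ (fun p : ℂ × ℂ => RRB (c s) α γ (mvx x i0 η0 p.1) p.2) (θ, u) :=
    dRRB (c s) α γ (fun i => d_mvx x i0 η0 i _) h2 (fun i => by
      rw [sub_re]
      exact KO_NP hu' (hre i))
  have dR' : ∀ k' : O3, k = some k' → k' ≠ .L →
      DifferentiableAt ℂ (fun p : ℂ × ℂ => RRB (c s) α γ (mvx x i0 η0 p.1) (p.2 - l)) (θ, u) := by
    intro k' hk hk'
    subst hk
    refine dRRB (c s) α γ (fun i => d_mvx x i0 η0 i _) h2' (fun i => ?_)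
    rw [sub_re, re_sub_l]
    exact KO_NP' hk' hu' (hre i)
  have dW : DifferentiableAt ℂ (fun p : ℂ × ℂ =>
      NUP1.phi b (rl (mvx x i0 η0 p.1) s ++ [vx η0 (v s) p.1 0, vx η0 (v s) p.1 1]) p.2)
      (θ, u) := by
    refine dphi_rlE s (w := fun p : ℂ × ℂ => mvx x i0 η0 p.1) (e := fun p : ℂ × ℂ => vx η0 (v s) p.1)
      (fun i => d_mvx x i0 η0 i _) (fun i => d_vx η0 (v s) i _) h2 (fun i => ?_) fun i => ?_
    · rw [sub_re]
      exact KO_NQ hb hb' hu' (hre i)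
    · rw [sub_re]
      exact KO_NQ hb hb' hu' (hv i)
  have dL : DifferentiableAt ℂ (fun p : ℂ × ℂ => Lg z0 z0 p.2) (θ, u) := dLg h2 (KO_Lg hz hu')
  have dL' : ∀ k' : O3, k = some k' → k' ≠ .L →
      DifferentiableAt ℂ (fun p : ℂ × ℂ => Lg z0 z0 (p.2 - l)) (θ, u) := by
    intro k' hk hk'
    subst hk
    refine dLg h2' ?_
    rw [re_sub_l]
    exact KO_Lg' hz hk' hu'
  have d4 : DifferentiableAt ℂ (fun p : ℂ × ℂ =>
      NUP1.phi (4 / 3) (rl (mvx x i0 η0 p.1) s) p.2) (θ, u) := by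
    refine dphi_rl s (w := fun p : ℂ × ℂ => mvx x i0 η0 p.1) (fun i => d_mvx x i0 η0 i _) h2
      fun i => ?_
    rw [sub_re]
    exact KO_NQ (by norm_num) le_rfl hu' (hre i)
  rcases k with _ | (_ | _ | _)
  · exact (dR.mul dW).mul dL
  · exact (dR.mul dW).mul dL
  · have d5 := dphXm (T1 := T1) hX s (KO6_S hu) d4
    exact ((dR.mul (dR' .S rfl (by decide))).mul d5).mul (dL.mul (dL' .S rfl (by decide)))
  · have d5 := dphXm (T1 := T1) hX s (KO6_T hu) d4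
    have dW' : DifferentiableAt ℂ (fun p : ℂ × ℂ =>
        NUP1.phi b (rl (mvx x i0 η0 p.1) s ++ [vx η0 (v s) p.1 0, vx η0 (v s) p.1 1]) (p.2 - l))
        (θ, u) := by
      refine dphi_rlE s (w := fun p : ℂ × ℂ => mvx x i0 η0 p.1)
        (e := fun p : ℂ × ℂ => vx η0 (v s) p.1) (u := fun p : ℂ × ℂ => p.2 - (l : ℂ))
        (fun i => d_mvx x i0 η0 i _) (fun i => d_vx η0 (v s) i _) h2' (fun i => ?_) fun i => ?_
      · rw [sub_re, re_sub_l]
        exact KO_NQ' hb hb' hu' (hre i)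
      · rw [sub_re, re_sub_l]
        exact KO_NQ' hb hb' hu' (hv i)
    exact ((dR.mul (dR' .T rfl (by decide))).mul ((dW.mul dW').sub d5)).mul
      (dL.mul (dL' .T rfl (by decide)))

/-! ## uniform bounds -/

section ub

variable {Θ : Type*} {S : Set Θ} {K : Set ℝ} {r ρ κ : ℝ}

/-- the product over the rows -/
theorem ub_prod {f : Fin m → Θ → ℂ → ℂ} (h1 : ∀ i, UB S K κ fun θ z => 1 - f i θ z)
    (h0 : ∀ i, UB S K 0 (f i)) (A : Finset (Fin m)) :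
    UB S K κ (fun θ z => 1 - ∏ i ∈ A, f i θ z) ∧ UB S K 0 fun θ z => ∏ i ∈ A, f i θ z := by
  classical
  induction A using Finset.induction_on with
  | empty =>
    refine ⟨⟨0, le_rfl, fun θ _ z _ => ?_⟩, ⟨1, zero_le_one, fun θ _ z _ => ?_⟩⟩
    · simp
    · simp
  | insert i A hi ih =>
    refine ⟨(ub_osm (h1 i) (h0 i) ih.1).congr fun θ _ z _ => ?_,
      (((h0 i).mul ih.2).rate (zero_add 0)).congr fun θ _ z _ => ?_⟩
    · rw [Finset.prod_insert hi]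
    · rw [Finset.prod_insert hi]

theorem ub_rl {β : ℝ} (hβ : 0 < β) (s : Bool) {w : Θ → Fin m → ℂ}
    (hw : ∀ i, InBox S r ρ fun θ => w θ i) (hK : IsCompact K) (h : NQr β r K) :
    UB S K (-(2 * β)) (fun θ z => NUP1.phi β (rl (w θ) s) z) ∧
      UB S K 0 fun θ z => (∏ i, psi β (z - w θ i)) ^ Fil.n s := by
  have a1 := ub_prod (f := fun i θ z => psi β (z - w θ i)) (fun i => ub_one_sub_psi hβ (hw i) hK h)
    (fun i => ub_psi hβ (hw i) hK h) Finset.univ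
  refine ⟨(ub_osp a1.1 a1.2 (Fil.n s)).congr fun θ _ z _ => ?_, (a1.2.pow (Fil.n s)).rate
    (mul_zero _)⟩
  rw [phi_rl0]

theorem ub_rlE {β : ℝ} (hβ : 0 < β) (s : Bool) {w : Θ → Fin m → ℂ} {e : Θ → Fin 2 → ℂ}
    (hw : ∀ i, InBox S r ρ fun θ => w θ i) (he : ∀ i, InBox S r ρ fun θ => e θ i)
    (hK : IsCompact K) (h : NQr β r K) :
    UB S K (-(2 * β)) fun θ z => NUP1.phi β (rl (w θ) s ++ [e θ 0, e θ 1]) z := by
  obtain ⟨a1, a2⟩ := ub_rl hβ s hw hK h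
  have a3 := ub_one_sub_psi hβ (he 0) hK h
  have b3 := ub_psi hβ (he 0) hK h
  have a4 := ub_one_sub_psi hβ (he 1) hK h
  have a1' : UB S K (-(2 * β)) fun θ z => 1 - (∏ i, psi β (z - w θ i)) ^ Fil.n s :=
    a1.congr fun θ _ z _ => (phi_rl0 β (w θ) s z).symm
  exact (ub_osm a1' a2 (ub_osm a3 b3 a4)).congr fun θ _ z _ => by
    rw [phi_rl]
    simp

end ub

/-- **uniform bounds of the product form** -/
theorem ub_ZPm (hx : ∀ i, (x i).re = 0) (i0 : Fin m) (hb : 0 < b) (hb' : b ≤ 4 / 3) (hz : Lz z0)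
    (hX : FdX X) (s : Bool) (k : Option O3) :
    UB (SB6 η0 v X) (KO6 k) (-(2 * b) + 2 * (Fil.xn m : ℝ) * sc (s, ob4 k))
      fun θ u => ZPm c b x i0 z0 η0 v T1 X θ s k u := by
  have hl := Bd.l_pos
  have hK := KO6_compact k
  have be : ∀ i, InBox (SB6 η0 v X) (l / 100) (hgt x η0) fun θ => vx η0 (v s) θ i := fun i θ hθ => by
    refine ⟨?_, ((SB_box (SB6_sub hθ)).2.2 s i).trans (le_hgt x η0)⟩
    fin_cases i
    · exact ((SB_box (SB6_sub hθ)).1 s).v0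
    · exact ((SB_box (SB6_sub hθ)).1 s).v1
  have br : ∀ i, InBox (SB6 η0 v X) (l / 100) (hgt x η0) fun θ => mvx x i0 η0 θ i := fun i θ hθ => by
    refine ⟨mvx_re hx i0 (SB_box (SB6_sub hθ)).1.x i, ?_⟩
    have h1 := im_le_hgt x η0 i
    show |(mvx x i0 η0 θ i).im| ≤ hgt x η0
    rcases eq_or_ne i i0 with rfl | hi
    · rw [mvx_i0, add_im]
      have h2 : ‖θ - η0‖ ≤ rad6 v X := by rwa [SB6, mem_closedBall_iff_norm] at hθ
      have h3 : |((θ - η0) * I).im| ≤ ‖θ - η0‖ := by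
        have := abs_im_le_norm ((θ - η0) * I)
        rwa [norm_mul, Complex.norm_I, mul_one] at this
      have h4 : rad6 v X ≤ 2 := by
        have h5 := rad6_le v X
        have h6 : rad v ≤ PBZF.rad (v true) := min_le_left _ _
        have h7 := (PBZF.rad_le (v true)).1
        have h8 := PBZF.l_lt_one
        linarith
      have := abs_add_le (x i).im (((θ - η0) * I).im)
      linarith
    · rw [mvx_of_ne x hi]
      linarith
  have nP : NPr (l / 100) (KO6 k) := fun d hd e he => KO_NP (KO6_sub hd) he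
  have nQ : ∀ β : ℝ, 0 < β → β ≤ 4 / 3 → NQr β (l / 100) (KO6 k) := fun β h1 h2 d hd e he =>
    KO_NQ h1 h2 (KO6_sub hd) he
  have uR := ub_RRB (c s) s br hK nP
  have uW := ub_rlE hb s br be hK (nQ b hb hb')
  have u4' := (ub_rl (β := 4 / 3) (by norm_num) s br hK (nQ (4 / 3) (by norm_num) le_rfl)).1
  have u4 : (∀ r ∈ KO6 k, r ∈ KWo) → UB (SB6 η0 v X) (KO6 k) (-(2 * (4 / 3))) fun θ u =>
      phX (AmT T1 η0 X θ) (rl (mvx x i0 η0 θ) s) u := by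
    intro hKW
    have h1 := ub_omX hKW (by positivity) (by positivity) (fun θ hθ => gac_SB6 hX T1 hθ) u4'
    exact ((u4'.mul h1).rate (add_zero _)).congr fun θ _ z _ => rfl
  have uL : UB (SB6 η0 v X) (KO6 k) 0 fun (_ : ℂ) z => Lg z0 z0 z :=
    ub_Lg hK fun d hd => KO_Lg hz (KO6_sub hd)
  have hK2 : IsCompact K' := isCompact_Icc
  have sub' : ∀ k' : O3, k' ≠ .L → ∀ r ∈ KO6 (some k'), r - l ∈ K' := by
    intro k' hk' r hr
    have hr := KO6_sub hr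
    cases k'
    · exact absurd rfl hk'
    all_goals
      obtain ⟨h1, h2⟩ := hr
      unfold PBZF.K'
      constructor <;> linarith
  have nP' : NPr (l / 100) K' := NPr_neg fun d hd => by
    obtain ⟨h1, h2⟩ := hd
    constructor <;> linarith
  have uR' := ub_RRB (c s) s br hK2 nP'
  have nQ' : NQr b (l / 100) K' := NQr_strip hb hb' fun d hd => by
    obtain ⟨h1, h2⟩ := hd
    constructor <;> linarith
  have uW' := ub_rlE hb s br be hK2 nQ'
  have uL' : UB (SB6 η0 v X) K' 0 fun (_ : ℂ) z => Lg z0 z0 z := ub_Lg hK2 fun d hd => by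
    obtain ⟨h1, h2⟩ := hd
    obtain ⟨z1, z2⟩ := hz
    have h8 : 8 * l = Real.pi := by unfold l; ring
    exact (Real.sin_pos_of_pos_of_lt_pi (by linarith) (by linarith)).ne'
  have scS : sc (s, .S) = 2 * sc (s, .A) := Pool.Agent.PLX.sc_S s
  have scL : sc (s, .L) = sc (s, .A) := by cases s <;> simp [sc, chg]
  rcases k with _ | (_ | _ | _)
  · exact (((uR.mul uW).mul uL).rate (by
      show _ = -(2 * b) + 2 * (Fil.xn m : ℝ) * sc (s, .A)
      ring)).congr fun θ _ z _ => rfl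
  · exact (((uR.mul uW).mul uL).rate (by
      show _ = -(2 * b) + 2 * (Fil.xn m : ℝ) * sc (s, .L)
      rw [scL]
      ring)).congr fun θ _ z _ => rfl
  · have h1 := uR.mul (uR'.shift_l (sub' .S (by decide)))
    have h2 := uL.mul (uL'.shift_l (sub' .S (by decide)))
    exact (((h1.mul (u4 fun r hr => KO6_S hr)).mul h2).mono_rate (by
      show _ ≤ -(2 * b) + 2 * (Fil.xn m : ℝ) * sc (s, .S)
      rw [scS]
      linarith)).congr fun θ _ z _ => rfl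
  · have h1 := uR.mul (uR'.shift_l (sub' .T (by decide)))
    have h2 := uL.mul (uL'.shift_l (sub' .T (by decide)))
    have h3 := uW.mul (uW'.shift_l (sub' .T (by decide)))
    have h4 := (h3.mono_rate (s' := -(2 * b)) (by linarith)).sub
      ((u4 fun r hr => KO6_T hr).mono_rate (s' := -(2 * b)) (by linarith))
    exact (((h1.mul h4).mul h2).rate (by
      show _ = -(2 * b) + 2 * (Fil.xn m : ℝ) * sc (s, .S)
      rw [scS]
      ring)).congr fun θ _ z _ => rfl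

/-! ## the family -/

/-- the family of the one body functions -/
def ZRm (c : Bool → ℂ) (b : ℝ) (x : Fin m → ℂ) (i0 : Fin m) (z0 : ℂ) (η0 : ℝ)
    (v : Bool → Fin 2 → ℂ) (T1 : ℝ) (X : ℂ → ℂ) (η : ℝ) : Stt :=
  fun s k u => ZXm c b x i0 z0 η0 v T1 X (η : ℂ) s k u

open scoped Classical in
/-- derivative in the height of the row -/
def ZdRm (c : Bool → ℂ) (b : ℝ) (x : Fin m → ℂ) (i0 : Fin m) (z0 : ℂ) (η0 : ℝ)
    (v : Bool → Fin 2 → ℂ) (T1 : ℝ) (X : ℂ → ℂ) (η : ℝ) : Stt :=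
  fun s k u => if η ∈ Metric.ball η0 (rad6 v X / 2) ∧ u.re ∈ KO6 k then
    deriv (fun θ : ℂ => ZPm c b x i0 z0 η0 v T1 X θ s k u) (η : ℂ) else 0

open scoped Classical in
/-- derivative in the position -/
def ZpRm (c : Bool → ℂ) (b : ℝ) (x : Fin m → ℂ) (i0 : Fin m) (z0 : ℂ) (η0 : ℝ)
    (v : Bool → Fin 2 → ℂ) (T1 : ℝ) (X : ℂ → ℂ) : Stt :=
  fun s k u => if u.re ∈ KI k then
    deriv (fun u : ℂ => ZPm c b x i0 z0 η0 v T1 X (η0 : ℂ) s k u) u else 0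

/-- **the family in terms of the class functions** -/
theorem ZRm_XXU (c : Bool → ℂ) (b : ℝ) (x : Fin m → ℂ) (i0 : Fin m) (z0 : ℂ) (η0 : ℝ)
    (v : Bool → Fin 2 → ℂ) (T1 : ℝ) (X : ℂ → ℂ) (η : ℝ) :
    ZRm c b x i0 z0 η0 v T1 X η = fun s => XXU (c s) b (rwq (mvx x i0 η0 (η : ℂ)) s)
      (rwq (mvx x i0 η0 (η : ℂ)) (!s)) (gP b [vx η0 (v s) (η : ℂ) 0, vx η0 (v s) (η : ℂ) 1])
      (gOA (AmT T1 η0 X (η : ℂ)) [] (rwq (mvx x i0 η0 (η : ℂ)) s)) (Lg z0 z0)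
      (fun w => Lg z0 z0 w * Lg z0 z0 (w - l)) := rfl

/-- **at the base parameter** -/
theorem ZRm_at (c : Bool → ℂ) (b : ℝ) (x : Fin m → ℂ) (i0 : Fin m) (z0 : ℂ) (η0 : ℝ)
    (v : Bool → Fin 2 → ℂ) (T1 : ℝ) (X : ℂ → ℂ) :
    ZRm c b x i0 z0 η0 v T1 X η0 = fun s => XXU (c s) b (rwq x s) (rwq x (!s)) (gP b [I, -I])
      (gO T1 [] (rwq x s)) (Lg z0 z0) (fun w => Lg z0 z0 w * Lg z0 z0 (w - l)) := by
  rw [ZRm_XXU, mvx_self]
  funext s
  have h0 : vx η0 (v s) (η0 : ℂ) 0 = I := by rw [vx_at]; rfl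
  have h1 : vx η0 (v s) (η0 : ℂ) 1 = -I := by rw [vx_at]; rfl
  rw [h0, h1, AmT_at, gOA_omA]

theorem ZRm_eq (hx : ∀ i, (x i).re = 0) (hb : 0 < b) (hb' : b ≤ 4 / 3) (η : ℝ) (s : Bool)
    {k : Option O3} {u : ℂ} (hu : u.re ∈ KO6 k) :
    ZRm c b x i0 z0 η0 v T1 X η s k u = ZPm c b x i0 z0 η0 v T1 X (η : ℂ) s k u :=
  ZXm_eq hx hb hb' (real_Th η) s hu

/-! ## the derivatives -/

/-- the section in `θ` -/
theorem diff_thm (hx : ∀ i, (x i).re = 0) (hb : 0 < b) (hb' : b ≤ 4 / 3) (hz : Lz z0) (hX : FdX X)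
    {θ : ℂ} (hθ : θ ∈ SB6 η0 v X) (s : Bool) {k : Option O3} {u : ℂ} (hu : u.re ∈ KO6 k) :
    DifferentiableAt ℂ (fun θ : ℂ => ZPm c b x i0 z0 η0 v T1 X θ s k u) θ := by
  have h := diff_ZPm (c := c) (i0 := i0) (T1 := T1) hx hb hb' hz hX (SB_box (SB6_sub hθ)).1 s hu
  exact DifferentiableAt.comp (f := fun θ : ℂ => (θ, u)) θ h (by fun_prop)

/-- the section in `u` -/
theorem diff_um (hx : ∀ i, (x i).re = 0) (hb : 0 < b) (hb' : b ≤ 4 / 3) (hz : Lz z0) (hX : FdX X)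
    {θ : ℂ} (hθ : θ ∈ SB6 η0 v X) (s : Bool) {k : Option O3} {u : ℂ} (hu : u.re ∈ KO6 k) :
    DifferentiableAt ℂ (fun u : ℂ => ZPm c b x i0 z0 η0 v T1 X θ s k u) u := by
  have h := diff_ZPm (c := c) (i0 := i0) (T1 := T1) hx hb hb' hz hX (SB_box (SB6_sub hθ)).1 s hu
  exact DifferentiableAt.comp (f := fun u : ℂ => (θ, u)) u h (by fun_prop)

theorem hasDeriv_etam (hx : ∀ i, (x i).re = 0) (hb : 0 < b) (hb' : b ≤ 4 / 3) (hz : Lz z0)
    (hX : FdX X) {η : ℝ} (h : η ∈ Metric.ball η0 (rad6 v X / 2)) (s : Bool) {k : Option O3} {u : ℂ}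
    (hu : u.re ∈ KO6 k) :
    HasDerivAt (fun η : ℝ => ZRm c b x i0 z0 η0 v T1 X η s k u)
      (ZdRm c b x i0 z0 η0 v T1 X η s k u) η := by
  have h1 := (diff_thm (c := c) (i0 := i0) (T1 := T1) hx hb hb' hz hX (mem_SB6' h) s
    hu).hasDerivAt.comp_ofReal
  have e : (fun η : ℝ => ZRm c b x i0 z0 η0 v T1 X η s k u) =
      fun η : ℝ => ZPm c b x i0 z0 η0 v T1 X (η : ℂ) s k u :=
    funext fun η => ZRm_eq hx hb hb' η s hu
  rw [e]
  unfold ZdRm
  rw [if_pos ⟨h, hu⟩]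
  exact h1

theorem hasDeriv_posm (hx : ∀ i, (x i).re = 0) (hb : 0 < b) (hb' : b ≤ 4 / 3) (hz : Lz z0)
    (hX : FdX X) (s : Bool) {k : Option O3} {u : ℂ} (hu : u.re ∈ KI k) :
    HasDerivAt (ZRm c b x i0 z0 η0 v T1 X η0 s k) (ZpRm c b x i0 z0 η0 v T1 X s k u) u := by
  have h1 := (diff_um (c := c) (i0 := i0) (T1 := T1) hx hb hb' hz hX
    (mem_SB60 (η0 := η0) (v := v)) s (KI6_sub hu)).hasDerivAt
  unfold ZpRm
  rw [if_pos hu]
  refine h1.congr_of_eventuallyEq ?_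
  filter_upwards [KI6_nhd hu] with w hw
  exact ZRm_eq hx hb hb' η0 s hw

/-! ## measurability -/

theorem meas_ZRm (hx : ∀ i, (x i).re = 0) (hX : FdX X) (η : ℝ) (s : Bool) (k : Option O3) :
    Measurable (ZRm c b x i0 z0 η0 v T1 X η s k) := by
  unfold ZRm ZXm
  exact Pool.Agent.PLX.measurable_XXU (PBX.measurable_gP _ _)
    (PHK.meas_gOA (meas_AmT hX.fd.meas T1 η0 _) (Rws_rwq (Rws_mvx hx i0 η0 η) s) (by simp))
    (PBX.Lg_meas _ _)
    ((PBX.Lg_meas _ _).mul ((PBX.Lg_meas _ _).comp (measurable_id.sub_const _))) k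

theorem meas_ZpRm (s : Bool) (k : Option O3) : Measurable (ZpRm c b x i0 z0 η0 v T1 X s k) := by
  unfold ZpRm
  exact Measurable.ite (meas_KI k) (measurable_deriv _) measurable_const

theorem meas_ZdRm (hx : ∀ i, (x i).re = 0) (hb : 0 < b) (hb' : b ≤ 4 / 3) (hz : Lz z0) (hX : FdX X)
    (η : ℝ) (s : Bool) (k : Option O3) : Measurable (ZdRm c b x i0 z0 η0 v T1 X η s k) := by
  classical
  by_cases h : η ∈ Metric.ball η0 (rad6 v X / 2)
  · set F : ℕ → ℂ → ℂ := fun j u => if u.re ∈ KO6 k then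
      ((j : ℝ) + 1 : ℝ) • (ZRm c b x i0 z0 η0 v T1 X (η + ((j : ℝ) + 1)⁻¹) s k u -
        ZRm c b x i0 z0 η0 v T1 X η s k u) else 0 with hF
    have hm : ∀ j, Measurable (F j) := fun j =>
      Measurable.ite (meas_KO6 k) ((((meas_ZRm hx hX (η + ((j : ℝ) + 1)⁻¹) s k).sub
        (meas_ZRm hx hX η s k)).const_smul ((j : ℝ) + 1 : ℝ))) measurable_const
    refine measurable_of_tendsto_metrizable hm ?_
    rw [tendsto_pi_nhds]
    intro u
    by_cases hu : u.re ∈ KO6 k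
    · have hd := hasDeriv_etam (c := c) (i0 := i0) (T1 := T1) hx hb hb' hz hX h s hu
      have h2 := hd.tendsto_slope_zero
      have h3 : Tendsto (fun j : ℕ => ((j : ℝ) + 1)⁻¹) atTop (𝓝[≠] 0) := by
        refine tendsto_nhdsWithin_iff.2 ⟨?_, Eventually.of_forall fun j => ?_⟩
        · have := tendsto_one_div_add_atTop_nhds_zero_nat (𝕜 := ℝ)
          simpa only [one_div] using this
        · have : (0 : ℝ) < (j : ℝ) + 1 := by positivity
          exact inv_ne_zero this.ne'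
      have h4 := h2.comp h3
      refine h4.congr fun j => ?_
      simp only [Function.comp_apply, hF, if_pos hu, inv_inv]
    · have e1 : ZdRm c b x i0 z0 η0 v T1 X η s k u = 0 := by
        unfold ZdRm
        rw [if_neg fun hc => hu hc.2]
      rw [e1]
      refine tendsto_const_nhds.congr fun j => ?_
      simp only [hF, if_neg hu]
  · have : ZdRm c b x i0 z0 η0 v T1 X η s k = fun _ => 0 := by
      funext u
      unfold ZdRm
      rw [if_neg fun hc => h hc.1]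
    rw [this]
    exact measurable_const

/-! ## bounds -/

/-- the rate of a kind, with the charge of the rows -/
def rtm (b : ℝ) (m : ℕ) (s : Bool) (k : Option O3) : ℝ :=
  -(2 * b) + 2 * (Fil.xn m : ℝ) * sc (s, ob4 k)

/-- one constant for all kinds and species -/
theorem exists_bdm (c : Bool → ℂ) (hx : ∀ i, (x i).re = 0) (i0 : Fin m) (η0 : ℝ)
    (v : Bool → Fin 2 → ℂ) (T1 : ℝ) (hX : FdX X) (hb : 0 < b) (hb' : b ≤ 4 / 3) (hz : Lz z0) :
    ∃ C : ℝ, 0 ≤ C ∧ ∀ θ ∈ SB6 η0 v X, ∀ (s : Bool) (k : Option O3) (u : ℂ), u.re ∈ KO6 k →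
    ‖ZPm c b x i0 z0 η0 v T1 X θ s k u‖ ≤ C * Real.exp (rtm b m s k * |u.im|) := by
  have h : ∀ p : Bool × Option O3, ∃ C : ℝ, 0 ≤ C ∧ ∀ θ ∈ SB6 η0 v X, ∀ u : ℂ, u.re ∈ KO6 p.2 →
      ‖ZPm c b x i0 z0 η0 v T1 X θ p.1 p.2 u‖ ≤ C * Real.exp (rtm b m p.1 p.2 * |u.im|) := fun p =>
    ub_ZPm (c := c) (T1 := T1) hx i0 hb hb' hz hX p.1 p.2
  choose C hC H using h
  refine ⟨∑ p, C p, Finset.sum_nonneg fun p _ => hC p, fun θ hθ s k u hu => ?_⟩
  exact (H (s, k) θ hθ u hu).trans (mul_le_mul_of_nonneg_right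
    (Finset.single_le_sum (f := C) (fun p _ => hC p) (Finset.mem_univ (s, k))) (Real.exp_pos _).le)

/-- bound of the product form -/
def BdPm (c : Bool → ℂ) (b : ℝ) (x : Fin m → ℂ) (i0 : Fin m) (z0 : ℂ) (η0 : ℝ)
    (v : Bool → Fin 2 → ℂ) (T1 : ℝ) (X : ℂ → ℂ) (C : ℝ) : Prop :=
  ∀ θ ∈ SB6 η0 v X, ∀ (s : Bool) (k : Option O3) (u : ℂ), u.re ∈ KO6 k →
    ‖ZPm c b x i0 z0 η0 v T1 X θ s k u‖ ≤ C * Real.exp (rtm b m s k * |u.im|)

theorem bd_ZRm (hx : ∀ i, (x i).re = 0) (hb : 0 < b) (hb' : b ≤ 4 / 3) {C : ℝ}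
    (h : BdPm c b x i0 z0 η0 v T1 X C) {η : ℝ} (hη : η ∈ Metric.ball η0 (rad6 v X / 2)) (s : Bool)
    {k : Option O3} {u : ℂ} (hu : u.re ∈ KO6 k) :
    ‖ZRm c b x i0 z0 η0 v T1 X η s k u‖ ≤ C * Real.exp (rtm b m s k * |u.im|) := by
  rw [ZRm_eq hx hb hb' η s hu]
  exact h _ (mem_SB6' hη) s k u hu

theorem bd_ZdRm (hx : ∀ i, (x i).re = 0) (hb : 0 < b) (hb' : b ≤ 4 / 3) (hz : Lz z0) (hX : FdX X)
    {C : ℝ} (h : BdPm c b x i0 z0 η0 v T1 X C) {η : ℝ} (hη : η ∈ Metric.ball η0 (rad6 v X / 2))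
    (s : Bool) {k : Option O3} {u : ℂ} (hu : u.re ∈ KO6 k) :
    ‖ZdRm c b x i0 z0 η0 v T1 X η s k u‖ ≤ 2 / rad6 v X * C * Real.exp (rtm b m s k * |u.im|) := by
  have hr := rad6_pos v X
  have hr2 : 0 < rad6 v X / 2 := by positivity
  unfold ZdRm
  rw [if_pos ⟨hη, hu⟩]
  have hin : ∀ θ ∈ Metric.closedBall (η : ℂ) (rad6 v X / 2), θ ∈ SB6 η0 v X := fun θ hθ =>
    mem_SB6 hη (by rwa [mem_closedBall_iff_norm] at hθ)
  have hd : DiffContOnCl ℂ (fun θ : ℂ => ZPm c b x i0 z0 η0 v T1 X θ s k u)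
      (Metric.ball (η : ℂ) (rad6 v X / 2)) := by
    refine DifferentiableOn.diffContOnCl ?_
    rw [closure_ball _ hr2.ne']
    exact fun θ hθ => (diff_thm hx hb hb' hz hX (hin θ hθ) s hu).differentiableWithinAt
  have := Complex.norm_deriv_le_of_forall_mem_sphere_norm_le hr2 hd
    (C := C * Real.exp (rtm b m s k * |u.im|)) fun θ hθ =>
      h θ (hin θ (Metric.sphere_subset_closedBall hθ)) s k u hu
  refine this.trans (le_of_eq ?_)
  field_simp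

theorem bd_ZpRm (hx : ∀ i, (x i).re = 0) (hb : 0 < b) (hb' : b ≤ 4 / 3) (hz : Lz z0) (hX : FdX X)
    {C : ℝ} (hC : 0 ≤ C) (h : BdPm c b x i0 z0 η0 v T1 X C) (s : Bool) {k : Option O3} {u : ℂ}
    (hu : u.re ∈ KI k) :
    ‖ZpRm c b x i0 z0 η0 v T1 X s k u‖ ≤
      80 / l * Real.exp (|rtm b m s k| * (l / 80)) * C * Real.exp (rtm b m s k * |u.im|) := by
  have hl := Bd.l_pos
  have hr2 : 0 < l / 80 := by positivity
  unfold ZpRm
  rw [if_pos hu]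
  have hin : ∀ w ∈ Metric.closedBall u (l / 80), w.re ∈ KO6 k := fun w hw => by
    rw [mem_closedBall_iff_norm] at hw
    refine KI6_ball hu ?_
    rw [← sub_re]
    exact (abs_re_le_norm _).trans hw
  have hd : DiffContOnCl ℂ (fun u : ℂ => ZPm c b x i0 z0 η0 v T1 X (η0 : ℂ) s k u)
      (Metric.ball u (l / 80)) := by
    refine DifferentiableOn.diffContOnCl ?_
    rw [closure_ball _ hr2.ne']
    exact fun w hw => (diff_um hx hb hb' hz hX (mem_SB60 (η0 := η0) (v := v)) s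
      (hin w hw)).differentiableWithinAt
  have := Complex.norm_deriv_le_of_forall_mem_sphere_norm_le hr2 hd
    (C := C * (Real.exp (|rtm b m s k| * (l / 80)) * Real.exp (rtm b m s k * |u.im|)))
    fun w hw => by
      refine (h η0 mem_SB60 s k w (hin w (Metric.sphere_subset_closedBall hw))).trans ?_
      refine mul_le_mul_of_nonneg_left ?_ hC
      rw [← Real.exp_add]
      refine Real.exp_le_exp.2 ?_
      have h1 : |w.im - u.im| ≤ l / 80 := by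
        rw [← sub_im]
        rw [mem_sphere_iff_norm] at hw
        exact (abs_im_le_norm _).trans hw.le
      have h2 : |(|w.im| - |u.im|)| ≤ l / 80 := (abs_abs_sub_abs_le_abs_sub _ _).trans h1
      have h3 : rtm b m s k * (|w.im| - |u.im|) ≤ |rtm b m s k| * (l / 80) :=
        (le_abs_self _).trans (by
          rw [abs_mul]
          exact mul_le_mul_of_nonneg_left h2 (abs_nonneg _))
      nlinarith
  refine this.trans (le_of_eq ?_)
  field_simp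

/-! ## `ZFam` -/

/-- the rate of a quantum of a word is the one of `ZBd` -/
theorem rtm_word {n n' : ℕ} (hn : n' = n + Fil.xn m) {p p' : ℕ} {k : Fin p → O3}
    {k' : Fin p' → O3} (h1 : ∑ i, c3 (k' i) ≤ n') (h2 : ∑ i, c3 (k i) ≤ n) (b t : ℝ)
    (i : (Fin (nA n k) ⊕ Fin p) ⊕ (Fin (nA n' k') ⊕ Fin p')) :
    rtm b m (cl n n' k k' i).1 (cl n n' k k' i).2 * t =
      -((2 * b + 2 * (∑ j, sc (PBI.co (cl n n' k k' j))) * sc (PBI.co (cl n n' k k' i))) * t) := by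
  rw [sum_sc_cl h1 h2]
  unfold rtm
  have e : PBI.co (cl n n' k k' i) = ((cl n n' k k' i).1, ob4 (cl n n' k k' i).2) := rfl
  have hQ : ((n' : ℕ) : ℝ) = n + (Fil.xn m : ℝ) := by rw [hn]; push_cast; ring
  rw [e, hQ]
  ring

/-- **`ZFam`**, the constant does not depend on the lines and the number of quanta -/
theorem exists_zfamC (c : Bool → ℂ) (hx : ∀ i, (x i).re = 0) (i0 : Fin m) (η0 : ℝ)
    (v : Bool → Fin 2 → ℂ) (T1 : ℝ) (hX : FdX X) (hb : 0 < b) (hb' : b ≤ 4 / 3) (hz : Lz z0) :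
    ∃ D : ℝ, 0 ≤ D ∧ ∀ (α : ℝ) (n n' : ℕ) (L : PBI.Lns),
    n' = n + Fil.xn m → 3 / 5 * l ≤ α → α < 7 / 10 * l → LnH L.X L.Y →
    ZFam α n n' L (2 * b) D (rad6 v X / 2) η0 (ZRm c b x i0 z0 η0 v T1 X)
      (ZdRm c b x i0 z0 η0 v T1 X) (ZpRm c b x i0 z0 η0 v T1 X) := by
  have hl := Bd.l_pos
  have hr := rad6_pos v X
  obtain ⟨C, hC, h⟩ := exists_bdm c hx i0 η0 v T1 hX hb hb' hz
  set K : ℝ := ∑ p : Bool × Option O3, Real.exp (|rtm b m p.1 p.2| * (l / 80)) with hK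
  have hK0 : 0 ≤ K := Finset.sum_nonneg fun p _ => (Real.exp_pos _).le
  have hKle : ∀ s k, Real.exp (|rtm b m s k| * (l / 80)) ≤ K := fun s k =>
    Finset.single_le_sum (f := fun p : Bool × Option O3 => Real.exp (|rtm b m p.1 p.2| * (l / 80)))
      (fun p _ => (Real.exp_pos _).le) (Finset.mem_univ (s, k))
  set D : ℝ := C + 2 / rad6 v X * C + 80 / l * K * C with hD
  have d1 : 0 ≤ 2 / rad6 v X * C := by positivity
  have d2 : 0 ≤ 80 / l * K * C := by positivity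
  refine ⟨D, by positivity, fun α n n' L hn hα hα' hL => ?_⟩
  have up : ∀ {x y : ℝ} {w : ℂ}, ‖w‖ ≤ x * Real.exp y → x ≤ D → ‖w‖ ≤ D * Real.exp y :=
    fun h1 h2 => h1.trans (mul_le_mul_of_nonneg_right h2 (Real.exp_pos _).le)
  have hK := fun {p p' : ℕ} (k : Fin p → O3) (k' : Fin p' → O3) =>
    all_KI hα (by linarith) hL n n' k k'
  refine
    { hκ := by positivity
      hr := by positivity
      hD := by positivity
      hok := all_ok hα hα' hL n n'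
      hm := fun η s k => meas_ZRm hx hX η s k
      hmd := fun η s k => meas_ZdRm hx hb hb' hz hX η s k
      hm' := fun s k => meas_ZpRm s k
      hZ := ?_
      hZd := ?_
      hZ' := ?_
      hd := ?_
      hd' := ?_ }
  · intro η hη p p' k k' h1 h2 i t
    have hi := KI6_sub (hK k k' i)
    rw [show L.all α n n' k k' i = (vl (L.all α n n' k k' i) t).re from (re_vl _ _).symm] at hi
    have := bd_ZRm (c := c) hx hb hb' h hη (cl n n' k k' i).1 hi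
    rw [im_vl, rtm_word hn h1 h2] at this
    exact up this (by linarith)
  · intro η hη p p' k k' h1 h2 i t
    have hi := KI6_sub (hK k k' i)
    rw [show L.all α n n' k k' i = (vl (L.all α n n' k k' i) t).re from (re_vl _ _).symm] at hi
    have := bd_ZdRm (c := c) hx hb hb' hz hX h hη (cl n n' k k' i).1 hi
    rw [im_vl, rtm_word hn h1 h2] at this
    exact up this (by linarith)
  · intro p p' k k' h1 h2 i t
    have hi := hK k k' i
    rw [show L.all α n n' k k' i = (vl (L.all α n n' k k' i) t).re from (re_vl _ _).symm] at hi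
    have := bd_ZpRm (c := c) hx hb hb' hz hX hC h (cl n n' k k' i).1 hi
    rw [im_vl, rtm_word hn h1 h2] at this
    refine up this ?_
    have h3 : 80 / l * Real.exp (|rtm b m (cl n n' k k' i).1 (cl n n' k k' i).2| * (l / 80)) * C ≤
        80 / l * K * C :=
      mul_le_mul_of_nonneg_right (mul_le_mul_of_nonneg_left (hKle _ _) (by positivity)) hC
    linarith
  · intro η hη p p' k k' h1 h2 i t
    have hi := KI6_sub (hK k k' i)
    rw [show L.all α n n' k k' i = (vl (L.all α n n' k k' i) t).re from (re_vl _ _).symm] at hi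
    exact hasDeriv_etam hx hb hb' hz hX hη (cl n n' k k' i).1 hi
  · intro p p' k k' h1 h2 i t
    have hi := hK k k' i
    rw [show L.all α n n' k k' i = (vl (L.all α n n' k k' i) t).re from (re_vl _ _).symm] at hi
    exact hasDeriv_posm hx hb hb' hz hX (cl n n' k k' i).1 hi

/-- **`ZFam` on the final lines**, one constant for all parameters `P` and all `n` -/
theorem exists_zfamC_P (c : Bool → ℂ) (hx : ∀ i, (x i).re = 0) (i0 : Fin m) (η0 : ℝ)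
    (v : Bool → Fin 2 → ℂ) (T1 : ℝ) (hX : FdX X) (hb : 0 < b) (hb' : b ≤ 4 / 3) (hz : Lz z0) :
    ∃ D : ℝ, 0 ≤ D ∧ ∀ P : NUO.Par, NUGC.PLX.ParC P → ∀ n n' : ℕ, n' = n + Fil.xn m →
    ZFam (3 / 5 * l) n n' ⟨NUP1S.lX P, NUP1S.lY P⟩ (2 * b) D (rad6 v X / 2) η0
      (ZRm c b x i0 z0 η0 v T1 X) (ZdRm c b x i0 z0 η0 v T1 X) (ZpRm c b x i0 z0 η0 v T1 X) := by
  have hl := Bd.l_pos
  obtain ⟨D, hD, h⟩ := exists_zfamC c hx i0 η0 v T1 hX hb hb' hz
  refine ⟨D, hD, fun P hP n n' hn => ?_⟩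
  exact h _ n n' _ hn le_rfl (by linarith) (LnH_P hP.goodP hP.j1 hP.j2 fun r => by
    have h1 := hP.e2 r
    have h2 := hP.d0 r
    linarith)

/-! ## row factor -/

theorem rowOk_m (hx : ∀ i, (x i).re = 0) {k : Option O3} {u : ℂ} (hu : u.re ∈ KO k) (i : Fin m) :
    PBForce.RowOk (u - x i) ∧ (ob4 k = .S → PBForce.RowOk (u - l - x i)) := by
  have hl := Bd.l_pos
  constructor
  · refine rowOk_of ?_
    rw [sub_re, hx]
    rcases KO_row hu (x := 0) (by rw [abs_zero]; positivity) with h | h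
    · exact Or.inl ⟨by linarith [h.1], h.2⟩
    · exact Or.inr ⟨h.1, by linarith [h.2]⟩
  · intro hk
    refine rowOk_of (Or.inl ?_)
    rw [sub_re, re_sub_l, hx]
    rcases k with _ | (_ | _ | _)
    · exact absurd hk (by decide)
    · exact absurd hk (by decide)
    all_goals
      obtain ⟨h1, h2⟩ := hu
      constructor <;> linarith

theorem diff_rowBm (c : ℂ) (α γ : ℕ) (hx : ∀ i, (x i).re = 0) (i0 : Fin m) (η0 : ℝ)
    {k : Option O3} {θ u : ℂ} (hθ : |(θ * I).re| ≤ l / 100) (hu : u.re ∈ KO k) :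
    DifferentiableAt ℂ (fun p : ℂ × ℂ => rowB c α γ (mvx x i0 η0 p.1) (ob4 k) p.2) (θ, u) := by
  have h2 : DifferentiableAt ℂ (fun p : ℂ × ℂ => p.2) (θ, u) := differentiableAt_snd
  have h2' : DifferentiableAt ℂ (fun p : ℂ × ℂ => p.2 - (l : ℂ)) (θ, u) := h2.sub_const _
  have dR : DifferentiableAt ℂ (fun p : ℂ × ℂ => RRB c α γ (mvx x i0 η0 p.1) p.2) (θ, u) :=
    dRRB c α γ (fun i => d_mvx x i0 η0 i _) h2 (fun i => by
      rw [sub_re]
      exact KO_NP hu (mvx_re hx i0 hθ i))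
  have dR' : ∀ k' : O3, k = some k' → k' ≠ .L →
      DifferentiableAt ℂ (fun p : ℂ × ℂ => RRB c α γ (mvx x i0 η0 p.1) (p.2 - l)) (θ, u) := by
    intro k' hk hk'
    subst hk
    refine dRRB c α γ (fun i => d_mvx x i0 η0 i _) h2' (fun i => ?_)
    rw [sub_re, re_sub_l]
    exact KO_NP' hk' hu (mvx_re hx i0 hθ i)
  rcases k with _ | (_ | _ | _)
  · exact dR
  · exact dR
  · exact dR.mul (dR' .S rfl (by decide))
  · exact dR.mul (dR' .T rfl (by decide))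

/-- the row factor along the path -/
theorem path_rowBm (c : ℂ) (α γ : ℕ) (hx : ∀ i, (x i).re = 0) (i0 : Fin m) (η0 : ℝ)
    {k : Option O3} {u : ℂ} (ξ : ℂ) (hu : u.re ∈ KO k) :
    HasDerivAt (fun τ : ℝ => rowB c α γ (mvx x i0 η0 ((η0 : ℂ) + τ)) (ob4 k) (u + I * ξ * τ))
      (rowB c α γ x (ob4 k) u * (r1A α γ (ob4 k) x i0 u + ξ * krA α γ (ob4 k) x u)) 0 := by
  have hd := diff_rowBm c α γ hx i0 η0 (real_Th η0) hu
  have hx0 := mvx_self x i0 η0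
  have hB := PBForce.hasDerivAt_rowB c α γ x (ob4 k)
    (fun i => (rowOk_m hx hu i).1) (fun hk i => (rowOk_m hx hu i).2 hk)
  have hA0 := PBForce.hasDerivAt_rowB_row c α γ x i0 (ob4 k)
    (rowOk_m hx hu i0).1 (fun hk => (rowOk_m hx hu i0).2 hk)
  have hA1 : HasDerivAt (fun θ : ℂ => rowB c α γ (mvx x i0 η0 θ) (ob4 k) u)
      (deriv (fun θ : ℂ => rowB c α γ (mvx x i0 η0 θ) (ob4 k) u) η0) η0 :=
    (DifferentiableAt.comp (f := fun θ : ℂ => (θ, u)) (η0 : ℂ) hd (by fun_prop)).hasDerivAt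
  have hup : ∀ η : ℝ, Function.update x i0 (x i0 + η * I) = mvx x i0 η0 ((η0 : ℂ) + η) := by
    intro η
    funext i
    rcases eq_or_ne i i0 with rfl | hi
    · rw [Function.update_self, mvx_i0]
      ring
    · rw [Function.update_of_ne hi, mvx_of_ne x hi]
  simp_rw [hup] at hA0
  have hA2 : HasDerivAt (fun η : ℝ => rowB c α γ (mvx x i0 η0 ((η0 : ℂ) + η)) (ob4 k) u)
      (deriv (fun θ : ℂ => rowB c α γ (mvx x i0 η0 θ) (ob4 k) u) η0) 0 := by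
    have e3 : HasDerivAt (fun τ : ℂ => (η0 : ℂ) + τ) (1 : ℂ) ((0 : ℝ) : ℂ) := by
      simpa using (hasDerivAt_id ((0 : ℝ) : ℂ)).const_add (η0 : ℂ)
    have hA1' : HasDerivAt (fun θ : ℂ => rowB c α γ (mvx x i0 η0 θ) (ob4 k) u)
        (deriv (fun θ : ℂ => rowB c α γ (mvx x i0 η0 θ) (ob4 k) u) η0)
        ((η0 : ℂ) + ((0 : ℝ) : ℂ)) := by
      rw [ofReal_zero, add_zero]
      exact hA1
    exact ((hA1'.comp ((0 : ℝ) : ℂ) e3).comp_ofReal).congr_deriv (mul_one _)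
  have hAeq := hA0.unique hA2
  rw [← hAeq] at hA1
  have hB' : HasDerivAt (fun u : ℂ => rowB c α γ (mvx x i0 η0 (η0 : ℂ)) (ob4 k) u)
      (rowB c α γ x (ob4 k) u * (-I * krA α γ (ob4 k) x u)) u := by
    rw [hx0]
    exact hB
  have := path_deriv (ξ := ξ) hd hA1 hB'
  refine this.congr_deriv ?_
  linear_combination (-ξ * rowB c α γ x (ob4 k) u * krA α γ (ob4 k) x u) * I_mul_I

/-! ## the cut term -/

/-- **what the first Ward identity leaves**: row factor × derivative of the cutoff × legs, for the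
derivative `Dc` of the cutoff along the path of the flow -/
theorem zcutC_eq0 (c : Bool → ℂ) (hx : ∀ i, (x i).re = 0) (hb : 0 < b) (hb' : b ≤ 4 / 3)
    (hz : Lz z0) (hX : FdX X) {Ξ κr r1 lam : PBI.Kd → ℂ → ℂ} (s : Bool) {k : Option O3} {u Dc : ℂ}
    (hu : u.re ∈ KI k)
    (hD : HasDerivAt (fun τ : ℝ => cutM (AmT T1 η0 X ((η0 : ℂ) + τ)) s b
      (mvx x i0 η0 ((η0 : ℂ) + τ)) (vx η0 (v s) ((η0 : ℂ) + τ)) k (u + I * Ξ (s, k) u * τ)) Dc 0)
    (hκ : κr (s, k) u = krA (Fil.b s) (Fil.b (!s)) (ob4 k) x u)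
    (hr : r1 (s, k) u = r1A (Fil.b s) (Fil.b (!s)) (ob4 k) x i0 u)
    (hlam : lam (s, k) u = lamK z0 k u) :
    Zcut (ZRm c b x i0 z0 η0 v T1 X η0) (ZdRm c b x i0 z0 η0 v T1 X η0)
      (ZpRm c b x i0 z0 η0 v T1 X) Ξ κr r1 lam s k u =
    rowB (c s) (Fil.n s) (Fil.n (!s)) x (ob4 k) u * Dc * one (Lg z0 z0) (ob4 k) u := by
  set ξ := Ξ (s, k) u with hξ
  have hr0 := rad6_pos v X
  have huO := KI6_sub hu
  have huO' := KI_sub hu
  have h0 : η0 ∈ Metric.ball η0 (rad6 v X / 2) := Metric.mem_ball_self (by positivity)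
  have hx0 := mvx_self x i0 η0
  -- the total derivative
  have hG := diff_ZPm (c := c) (i0 := i0) (T1 := T1) (θ := (η0 : ℂ)) hx hb hb' hz hX
    (SB_box (SB6_sub (mem_SB60 (η0 := η0) (v := v) (X := X)))).1 s huO
  have hA := (diff_thm (c := c) (i0 := i0) (T1 := T1) hx hb hb' hz hX
    (mem_SB60 (η0 := η0) (v := v)) s huO).hasDerivAt
  have hB := (diff_um (c := c) (i0 := i0) (T1 := T1) hx hb hb' hz hX
    (mem_SB60 (η0 := η0) (v := v)) s huO).hasDerivAt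
  have p0 := path_deriv (ξ := ξ) hG hA hB
  -- the product
  have p1 := path_rowBm (c s) (Fil.n s) (Fil.n (!s)) hx i0 η0 ξ huO'
  have p3 := path_leg hz ξ huO'
  have p4 := (p1.mul hD).mul p3
  have key := p0.unique p4
  have ez : ((η0 : ℂ) + ((0 : ℝ) : ℂ)) = η0 := by rw [ofReal_zero, add_zero]
  have eu : (u + I * ξ * ((0 : ℝ) : ℂ)) = u := by rw [ofReal_zero, mul_zero, add_zero]
  simp only [Pi.mul_apply, ez, eu, hx0] at key
  have n1 : ((Fil.b s : ℝ) : ℂ) = ((Fil.n s : ℕ) : ℂ) := by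
    rw [← Fil.cast_n, ofReal_natCast]
  have n2 : ((Fil.b (!s) : ℝ) : ℂ) = ((Fil.n (!s) : ℕ) : ℂ) := by
    rw [← Fil.cast_n, ofReal_natCast]
  unfold Zcut
  rw [hκ, hr, hlam, ← hξ, ZRm_eq hx hb hb' η0 s huO, n1, n2]
  have e1 : ZdRm c b x i0 z0 η0 v T1 X η0 s k u =
      deriv (fun θ : ℂ => ZPm c b x i0 z0 η0 v T1 X θ s k u) (η0 : ℂ) := by
    unfold ZdRm
    rw [if_pos ⟨h0, huO⟩]
  have e2 : ZpRm c b x i0 z0 η0 v T1 X s k u =
      deriv (fun u : ℂ => ZPm c b x i0 z0 η0 v T1 X (η0 : ℂ) s k u) u := by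
    unfold ZpRm
    rw [if_pos hu]
  rw [e1, e2, key]
  unfold ZPm
  rw [hx0]
  ring

/-- the inner strips contain the lines of all words -/
theorem zcutC_all {α : ℝ} (hα : 3 / 5 * l ≤ α) (hα' : α ≤ 9 / 10 * l) {L : PBI.Lns}
    (hL : LnH L.X L.Y) (n n' : ℕ) :
    AllW α n n' L fun c' x => ∀ i, ∀ t : ℝ, (NUP1.vl (x i) t).re ∈ KI (c' i).2 := by
  intro p p' k k' h1 h2 i t
  have hi := all_KI hα hα' hL n n' k k' i
  rwa [show L.all α n n' k k' i = (NUP1.vl (L.all α n n' k k' i) t).re from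
    (NUP1.re_vl _ _).symm] at hi

/-! ## the cutoff along the path -/

/-- the moved cutoff of the strings, from the derivative `Dr` of `phi_{4/3}` -/
def DSm (T1 : ℝ) (V : List ℂ) (Dr u : ℂ) : ℂ :=
  Dr * (PHK.om T1 (pP V) u * (1 + omA T1 u * NUP1.phi (4 / 3) V u))

/-- the derivative of the cutoff of a kind, from the derivatives `Dw`, `Dw'` of `phi_b` at `u`, `u - l`
and `Dr` of `phi_{4/3}` -/
def DcM (s : Bool) (b : ℝ) (x : Fin m → ℂ) (T1 : ℝ) (Dw Dw' Dr : ℂ) : Option O3 → ℂ → ℂ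
  | some .S, u => DSm T1 (rl x s) Dr u
  | some .T, u => Dw * NUP1.phi b (rl x s ++ [I, -I]) (u - l) +
      NUP1.phi b (rl x s ++ [I, -I]) u * Dw' - DSm T1 (rl x s) Dr u
  | _, _ => Dw

theorem path_phXm (hX : FdX X) (s : Bool) {u : ℂ} (hu : u.re ∈ KWo) {Dr : ℂ}
    (hR : HasDerivAt (fun τ : ℝ => NUP1.phi (4 / 3) (rl (mvx x i0 η0 ((η0 : ℂ) + τ)) s)
        (u + I * X (u + 2 * l) * τ)) Dr 0) :
    HasDerivAt (fun τ : ℝ => phX (AmT T1 η0 X ((η0 : ℂ) + τ)) (rl (mvx x i0 η0 ((η0 : ℂ) + τ)) s)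
        (u + I * X (u + 2 * l) * τ)) (DSm T1 (rl x s) Dr u) 0 := by
  have hA := PHK.path_AmT (T1 := T1) (η0 := η0) (hX.fd.diff u hu)
  obtain ⟨ξ, hξ⟩ : ∃ ξ, ξ = X (u + 2 * l) := ⟨_, rfl⟩
  rw [← hξ] at hA hR ⊢
  have hP : HasDerivAt (fun τ : ℝ => pP (rl (mvx x i0 η0 ((η0 : ℂ) + τ)) s) (u + I * ξ * τ))
      (-Dr) 0 := by
    have e : (fun τ : ℝ => pP (rl (mvx x i0 η0 ((η0 : ℂ) + τ)) s) (u + I * ξ * τ)) =
        fun τ : ℝ => 1 - NUP1.phi (4 / 3) (rl (mvx x i0 η0 ((η0 : ℂ) + τ)) s) (u + I * ξ * τ) := by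
      funext τ
      rw [PHK.phi_pP, sub_sub_cancel]
    rw [e]
    exact hR.const_sub 1
  have h := hR.mul ((hA.mul hP).neg.cexp)
  refine h.congr_deriv ?_
  have e0 : (η0 : ℂ) + ((0 : ℝ) : ℂ) = η0 := by rw [ofReal_zero, add_zero]
  have e1 : u + I * ξ * ((0 : ℝ) : ℂ) = u := by rw [ofReal_zero, mul_zero, add_zero]
  have hx0 := mvx_self x i0 η0
  simp only [Pi.mul_apply, Pi.neg_apply, e0, e1, AmT_at, hx0]
  unfold DSm PHK.om
  ring

/-- **the cutoff along the path** -/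
theorem path_cutM (hX : FdX X) (s : Bool) {k : Option O3} {u : ℂ} {ξ : ℂ}
    (hξ : k = some .S ∨ k = some .T → ξ = X (u + 2 * l)) (hu : u.re ∈ KI k) {Dw Dw' Dr : ℂ}
    (hW : HasDerivAt (fun τ : ℝ => NUP1.phi b (rl (mvx x i0 η0 ((η0 : ℂ) + τ)) s ++
      [vx η0 (v s) ((η0 : ℂ) + τ) 0, vx η0 (v s) ((η0 : ℂ) + τ) 1]) (u + I * ξ * τ)) Dw 0)
    (hW' : k = some .T → HasDerivAt (fun τ : ℝ => NUP1.phi b (rl (mvx x i0 η0 ((η0 : ℂ) + τ)) s ++
      [vx η0 (v s) ((η0 : ℂ) + τ) 0, vx η0 (v s) ((η0 : ℂ) + τ) 1]) (u + I * ξ * τ - l)) Dw' 0)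
    (hR : k = some .S ∨ k = some .T → HasDerivAt (fun τ : ℝ =>
      NUP1.phi (4 / 3) (rl (mvx x i0 η0 ((η0 : ℂ) + τ)) s) (u + I * ξ * τ)) Dr 0) :
    HasDerivAt (fun τ : ℝ => cutM (AmT T1 η0 X ((η0 : ℂ) + τ)) s b
      (mvx x i0 η0 ((η0 : ℂ) + τ)) (vx η0 (v s) ((η0 : ℂ) + τ)) k (u + I * ξ * τ))
      (DcM s b x T1 Dw Dw' Dr k u) 0 := by
  have e0 : (η0 : ℂ) + ((0 : ℝ) : ℂ) = η0 := by rw [ofReal_zero, add_zero]
  have e1 : u + I * ξ * ((0 : ℝ) : ℂ) = u := by rw [ofReal_zero, mul_zero, add_zero]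
  have hx0 := mvx_self x i0 η0
  have h0 : vx η0 (v s) (η0 : ℂ) 0 = I := by rw [vx_at]; rfl
  have h1 : vx η0 (v s) (η0 : ℂ) 1 = -I := by rw [vx_at]; rfl
  rcases k with _ | (_ | _ | _)
  · exact hW
  · exact hW
  · have e := hξ (Or.inl rfl)
    subst e
    exact path_phXm hX s (KO6_S (KI6_sub hu)) (hR (Or.inl rfl))
  · have e := hξ (Or.inr rfl)
    subst e
    have h2 := path_phXm (T1 := T1) hX s (KO6_T (KI6_sub hu)) (hR (Or.inr rfl))
    have h3 := (hW.mul (hW' rfl)).sub h2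
    refine h3.congr_deriv ?_
    simp only [e0, e1, hx0, h0, h1]
    rfl

/-- **the cut term** -/
theorem zcutC_eq (c : Bool → ℂ) (hx : ∀ i, (x i).re = 0) (hb : 0 < b) (hb' : b ≤ 4 / 3)
    (hz : Lz z0) (hX : FdX X) {Ξ κr r1 lam : PBI.Kd → ℂ → ℂ} (s : Bool) {k : Option O3} {u : ℂ}
    (hu : u.re ∈ KI k) (hΞ : k = some .S ∨ k = some .T → Ξ (s, k) u = X (u + 2 * l))
    {Dw Dw' Dr : ℂ}
    (hW : HasDerivAt (fun τ : ℝ => NUP1.phi b (rl (mvx x i0 η0 ((η0 : ℂ) + τ)) s ++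
      [vx η0 (v s) ((η0 : ℂ) + τ) 0, vx η0 (v s) ((η0 : ℂ) + τ) 1]) (u + I * Ξ (s, k) u * τ)) Dw 0)
    (hW' : k = some .T → HasDerivAt (fun τ : ℝ => NUP1.phi b (rl (mvx x i0 η0 ((η0 : ℂ) + τ)) s ++
      [vx η0 (v s) ((η0 : ℂ) + τ) 0, vx η0 (v s) ((η0 : ℂ) + τ) 1])
      (u + I * Ξ (s, k) u * τ - l)) Dw' 0)
    (hR : k = some .S ∨ k = some .T → HasDerivAt (fun τ : ℝ =>
      NUP1.phi (4 / 3) (rl (mvx x i0 η0 ((η0 : ℂ) + τ)) s) (u + I * Ξ (s, k) u * τ)) Dr 0)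
    (hκ : κr (s, k) u = krA (Fil.b s) (Fil.b (!s)) (ob4 k) x u)
    (hr : r1 (s, k) u = r1A (Fil.b s) (Fil.b (!s)) (ob4 k) x i0 u)
    (hlam : lam (s, k) u = lamK z0 k u) :
    Zcut (ZRm c b x i0 z0 η0 v T1 X η0) (ZdRm c b x i0 z0 η0 v T1 X η0)
      (ZpRm c b x i0 z0 η0 v T1 X) Ξ κr r1 lam s k u =
    rowB (c s) (Fil.n s) (Fil.n (!s)) x (ob4 k) u * DcM s b x T1 Dw Dw' Dr k u *
      one (Lg z0 z0) (ob4 k) u :=
  zcutC_eq0 c hx hb hb' hz hX s hu (path_cutM hX s hΞ hu hW hW' hR) hκ hr hlam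

/-- **the field of the rows on the axis is admissible** -/
theorem fdX_xiRm {m : ℕ} {x : Fin m → ℂ} (hx : PBForce.Rws0 x) (i0 : Fin m) :
    FdX (PBForce.xiR x i0) := by
  have hl := Bd.l_pos
  obtain ⟨C, hC, H⟩ := PBForce.xiR_le (b := 3 / 5 * l) (by positivity) (by linarith)
  have hre : ∀ w : ℂ, w.re ∈ KWo → |(w + 2 * l - l).re| ≤ 3 / 5 * l := by
    intro w hw
    obtain ⟨h1, h2⟩ := hw
    have e : (w + 2 * l - l).re = w.re + l := by
      simp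
      ring
    rw [e, abs_le]
    constructor <;> linarith
  refine ⟨C / m, PBC.meas_xiR x i0, by positivity, fun w hw => H m x i0 hx _ (hre w hw),
    fun w hw => PBForce.xiR_diff0 hx i0 ?_⟩
  exact (hre w hw).trans_lt (by linarith)

end PLT

end
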