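import Pool.Agent.PLT.I1FI
import Pool.Agent.PLT.ZFamC

/-!
# The first Ward identity of one moved row over the family of 89

* `mvR_mvx`, `mvR_update`: the moved list; `zRm_ev`: the family near the base parameter;
* `F0T_at`: the class functions at the base parameter do not depend on the field and the velocities;
* **`hD_Z`**: the first Ward identity at one index, inputs: the value of the total insertion and the cut
  term of the family `ZRm`, `ZdRm`, `ZpRm`.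
-/

set_option autoImplicit false
set_option linter.unusedSectionVars false

noncomputable section

open MeasureTheory Filter Topology Finset Complex
open scoped Classical

namespace PLT

open NUP1 hiding Kd
open NUP1S NUP1.Bd NURow PB PBI PBI.PLX PBForce PBQ1
open PBX (Lg gP GOk Rws)
open PBZF (Lz vx)
open PBZF.PLX (FdX Bx Bx_nonneg vx_ev ex_vx rad6)
open PHK (gOA AmT goN_gOA ga_AmT gO)
open Pool.Agent.PLX (yq rwq fQ GOn K2P Rws_rwq XXU)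
open PLX (Fil)

variable {m : ℕ}

/-- the two literals of the moved list -/
theorem mvR_mvx (x : Fin m → ℂ) (i0 : Fin m) (η0 η : ℝ) : mvR x i0 η0 η = mvx x i0 η0 (η : ℂ) := rfl

/-- the moved list, row `i0` on the axis -/
theorem mvR_update {x : Fin m → ℂ} {i0 : Fin m} {η0 : ℝ} (h : x i0 = I * η0) (η : ℝ) :
    mvR x i0 η0 η = Function.update x i0 (I * η) := by
  funext i
  rcases eq_or_ne i i0 with rfl | hi
  · rw [Function.update_self, mvR_mvx, mvx_i0, h]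
    ring
  · rw [Function.update_of_ne hi, mvR_mvx, mvx_of_ne x hi]

variable [Fil]

/-- near the base parameter the family is a family of class functions -/
theorem zRm_ev {x : Fin m → ℂ} (hx : ∀ i, (x i).re = 0) {i0 : Fin m} {b η0 : ℝ} {z0 : ℂ}
    {v : Bool → Fin 2 → ℂ} {T1 : ℝ} {X : ℂ → ℂ} (hb : 0 < b) (hb' : b ≤ 4 / 3) (hX : FdX X)
    (c : Bool → ℂ) : ∀ᶠ η : ℝ in 𝓝 η0, ∃ g g0 : Bool → ℂ → ℂ, (∀ s, GOk b (g s)) ∧
      (∀ s, GOn (K2P (-(29 / 20 * l))) (4 / 3) (g0 s)) ∧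
        ZRm c b x i0 z0 η0 v T1 X η = ZCm c b z0 (mvR x i0 η0 η) g g0 := by
  have hB := Bx_nonneg X
  have h1 : ∀ᶠ η : ℝ in 𝓝 η0, ‖((η : ℂ) - (η0 : ℂ))‖ * Bx X ≤ 1 / 132 := by
    have hc : Continuous fun η : ℝ => ‖((η : ℂ) - (η0 : ℂ))‖ * Bx X := by fun_prop
    have h0 : ‖((η0 : ℂ) - (η0 : ℂ))‖ * Bx X < 1 / 132 := by
      rw [sub_self, norm_zero, zero_mul]
      norm_num
    filter_upwards [hc.continuousAt.eventually_lt continuousAt_const h0] with η hη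
    exact hη.le
  filter_upwards [h1, vx_ev η0 v] with η h2 h3
  refine ⟨fun a => gP b [vx η0 (v a) (η : ℂ) 0, vx η0 (v a) (η : ℂ) 1],
    fun a => gOA (AmT T1 η0 X (η : ℂ)) [] (rwq (mvx x i0 η0 (η : ℂ)) a),
    fun a => GOk.gP hb hb' (ex_vx (h3 a)),
    fun a => goN_gOA (ga_AmT hX.fd h2) (Rws_rwq (Rws_mvx hx i0 η0 η) a) (by simp), ?_⟩
  rw [ZRm_XXU]
  rfl

/-- **the first Ward identity at one index**, over the family `ZRm` -/
theorem hD_Z {x : Fin m → ℂ} {i0 : Fin m} {η0 b : ℝ} {z0 : ℂ} {P : NUO.Par} {v : Bool → Fin 2 → ℂ}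
    {T1 : ℝ} (hP : NUGC.PLX.ParC P) (hP' : NURow.ParP P) (hb : 0 < b) (hb' : b ≤ 4 / 3) (hz : Lz z0)
    (hz0 : |z0.re| ≤ NUMF.l / 2) (hx : Rws0 x) {main : ℂ} {δa δc : ℝ}
    (ha : ‖(m : ℂ) * F0TI (ZRm (cRm m) b x i0 z0 η0 v T1 (xiR x i0) η0) P x i0 z0 - main‖ ≤ δa)
    (hc : ‖cutI (ZRm (cRm m) b x i0 z0 η0 v T1 (xiR x i0) η0)
      (ZdRm (cRm m) b x i0 z0 η0 v T1 (xiR x i0) η0) (ZpRm (cRm m) b x i0 z0 η0 v T1 (xiR x i0))
      P x i0 z0‖ ≤ δc) :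
    ∃ D' : ℂ, HasDerivAt (fun η : ℝ => fQ Fil.q (mvR x i0 η0 η) z0) D' η0 ∧
      ‖(m : ℂ) * D' - main‖ ≤ δa + m * δc := by
  have hX : FdX (xiR x i0) := fdX_xiRm hx i0
  obtain ⟨D, -, hZ⟩ := exists_zfamC_P (cRm m) hx.re i0 η0 v T1 hX hb hb' hz
  exact hD_I hP hP' hb hb' hz hz0 hx (zRm_ev hx.re hb hb' hX (cRm m))
    (fun n n' hn => hZ P hP n n' hn) ha hc

/-- **the same for the function of the height of the row** -/
theorem hD_U {x : Fin m → ℂ} {i0 : Fin m} {η0 b : ℝ} {z0 : ℂ} {P : NUO.Par} {v : Bool → Fin 2 → ℂ}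
    {T1 : ℝ} (hP : NUGC.PLX.ParC P) (hP' : NURow.ParP P) (hb : 0 < b) (hb' : b ≤ 4 / 3) (hz : Lz z0)
    (hz0 : |z0.re| ≤ NUMF.l / 2) (hx : Rws0 x) (hi : x i0 = I * η0) {main : ℂ} {δa δc : ℝ}
    (ha : ‖(m : ℂ) * F0TI (ZRm (cRm m) b x i0 z0 η0 v T1 (xiR x i0) η0) P x i0 z0 - main‖ ≤ δa)
    (hc : ‖cutI (ZRm (cRm m) b x i0 z0 η0 v T1 (xiR x i0) η0)
      (ZdRm (cRm m) b x i0 z0 η0 v T1 (xiR x i0) η0) (ZpRm (cRm m) b x i0 z0 η0 v T1 (xiR x i0))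
      P x i0 z0‖ ≤ δc) :
    ∃ D' : ℂ, HasDerivAt (fun η : ℝ => fQ Fil.q (Function.update x i0 (I * η)) z0) D' η0 ∧
      ‖(m : ℂ) * D' - main‖ ≤ δa + m * δc := by
  obtain ⟨D', h1, h2⟩ := hD_Z hP hP' hb hb' hz hz0 hx ha hc
  refine ⟨D', ?_, h2⟩
  have e : (fun η : ℝ => fQ Fil.q (Function.update x i0 (I * η)) z0) =
      fun η : ℝ => fQ Fil.q (mvR x i0 η0 η) z0 := by
    funext η
    rw [mvR_update hi]
  rw [e]
  exact h1

/-- the class functions at the base parameter -/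
theorem ZRm_ZCm (b : ℝ) (x : Fin m → ℂ) (i0 : Fin m) (z0 : ℂ) (η0 : ℝ) (v : Bool → Fin 2 → ℂ)
    (T1 : ℝ) (X : ℂ → ℂ) (c : Bool → ℂ) : ZRm c b x i0 z0 η0 v T1 X η0 =
    ZCm c b z0 x (fun _ => gP b [I, -I]) (fun s => gO T1 [] (rwq x s)) := by
  rw [ZRm_at]
  rfl

end PLT

end
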