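import Pool.Agent.PLT.MvR

/-!
# The first Ward identity of one moved row, content on the imaginary axis, at one index

Content `x : Fin m → ℂ` with `Rws0 x` (rows on the imaginary axis, heights `≤ 1`), every row `q`-fold in
the second group, moved row `i0`, legs at `z0`; any heights of the legs.

* `insI x i0 z0`: the total insertion; `F0TI Z P x i0 z0`: its value; `cutI`: the cut term;
* `ffamI`: the instance of `FFam`; `fx_DI`: the exact derivative;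
* **`hD_I`**: `‖m F0TI - main‖ ≤ δa`, `‖cutI‖ ≤ δc` give the derivative `D` of
  `η ↦ fQ q (mvR x i0 η0 η) z0` with `‖m D - main‖ ≤ δa + m δc`.
-/

set_option autoImplicit false
set_option linter.unusedSectionVars false

noncomputable section

open MeasureTheory Filter Topology Finset Complex
open scoped Classical

namespace PLT

open NUP1 hiding Kd
open NUP1S NUP1.Bd NURow PB PBI PBI.PLX PBForce PBQ1
open PBX (Rws)
open PBZF (Lz)
open PBRep.PLX (F0N6)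
open Pool.Agent.PB (Pf)
open Pool.Agent.PLX (yq rwq fQ GOn K2P)
open PLX (Fil)

variable {m : ℕ}

/-- rows on the axis are admissible -/
theorem rws_of0 {x : Fin m → ℂ} (hx : Rws0 x) : Rws x := fun i => by
  have hl := Bd.l_pos
  rw [hx.re i, abs_zero]
  linarith

variable [Fil]

/-- the total insertion -/
def insI (x : Fin m → ℂ) (i0 : Fin m) (z0 : ℂ) : Ins := fun ι _ c z =>
  nuQI (rhK2 x) (PBOb.aK (xiR x i0)) ι c z + nuI (rhK2 x) (glK z0 x i0) ι c z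

theorem insI_rowS (j : ℕ) (s t : ℝ) : insI (PBEI.rowS j s) 0 (I * t) = insT j s t := rfl

/-- its value, sum over the number of quanta, coefficients `Pf` -/
def F0TI (Z : Stt) (P : NUO.Par) (x : Fin m → ℂ) (i0 : Fin m) (z0 : ℂ) : ℂ :=
  F0N6 Z (fl P) (3 / 5 * NUP1.l) (2 * m) (fun _ => Pf z0 x (yq x)) (insI x i0 z0)

/-- the cut term of the first Ward identity -/
def cutI (Z Zd Zp : Stt) (P : NUO.Par) (x : Fin m → ℂ) (i0 : Fin m) (z0 : ℂ) : ℂ :=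
  Pf z0 x (yq x) * ∑ n ∈ range (2 * m + 1), F0D (3 / 5 * NUP1.l) n (n + Fil.xn m) (fl P) Z
    (Zcut Z Zd Zp (xiK x i0) (krK2 x) (r1K2 x i0) (lamK z0))

/-- **FFam at a content on the axis** -/
theorem ffamI {P : NUO.Par} (hP : NURow.ParP P) {x : Fin m → ℂ} (hx : Rws0 x) (i0 : Fin m) {z0 : ℂ}
    (hz : |z0.re| ≤ NUMF.l / 2) (n : ℕ) : ∃ B, FFam (3 / 5 * NUP1.l) n (n + Fil.xn m) (fl P) B
      (xiK x i0) (fun b w => deriv (xiR x i0) (fp b w)) (PBOb.aK (xiR x i0)) (rhK2 x) (krK2 x)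
      (r1K2 x i0) (lamK z0) :=
  ffam hP hx i0 hz n (n + Fil.xn m)

/-- **the exact derivative**, content on the axis -/
theorem fx_DI {x : Fin m → ℂ} {i0 : Fin m} {η0 b D rr : ℝ} {z0 : ℂ} {P : NUO.Par}
    (hP : NUGC.PLX.ParC P) (hP' : NURow.ParP P) (hb : 0 < b) (hb' : b ≤ 4 / 3) (hz : Lz z0)
    (hz0 : |z0.re| ≤ NUMF.l / 2) (hx : Rws0 x) {ZF Zd : ℝ → Stt} {Zp : Stt}
    (hev : ∀ᶠ η : ℝ in 𝓝 η0, ∃ g g0 : Bool → ℂ → ℂ, (∀ s, PBX.GOk b (g s)) ∧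
      (∀ s, GOn (K2P (-(29 / 20 * l))) (4 / 3) (g0 s)) ∧
        ZF η = ZCm (cRm m) b z0 (mvR x i0 η0 η) g g0)
    (hZ : ∀ n n' : ℕ, n' = n + Fil.xn m →
      PBI.PLX.ZFam (3 / 5 * l) n n' (fl P) (2 * b) D rr η0 ZF Zd Zp) :
    HasDerivAt (fun η : ℝ => fQ Fil.q (mvR x i0 η0 η) z0)
      (F0TI (ZF η0) P x i0 z0 + cutI (ZF η0) (Zd η0) Zp P x i0 z0) η0 := by
  have hl := Bd.l_pos
  have hll : NUMF.l = NUP1.l := rfl
  have h0 := abs_le.1 hz0
  have hm : 0 < m := i0.pos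
  exact fx_Dm (d := 0) hP hb hb' hz (rws_of0 hx) le_rfl (by linarith) (fun u h1 h2 =>
    rhoR_ne hm fun i => by
      rw [Complex.sub_re, Complex.sub_re, hx.re i, Complex.ofReal_re, sub_zero]
      have e : u.re - NUP1.l = 0 := by linarith
      rw [e, abs_zero]
      exact hl) (fun i => by
      rw [Complex.sub_re, hx.re i, sub_zero]
      constructor <;> linarith [h0.1, h0.2]) hev hZ (fun n _ => ffamI hP' hx i0 hz0 n)

/-- **the first Ward identity at one index** -/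
theorem hD_I {x : Fin m → ℂ} {i0 : Fin m} {η0 b D rr : ℝ} {z0 : ℂ} {P : NUO.Par}
    (hP : NUGC.PLX.ParC P) (hP' : NURow.ParP P) (hb : 0 < b) (hb' : b ≤ 4 / 3) (hz : Lz z0)
    (hz0 : |z0.re| ≤ NUMF.l / 2) (hx : Rws0 x) {ZF Zd : ℝ → Stt} {Zp : Stt}
    (hev : ∀ᶠ η : ℝ in 𝓝 η0, ∃ g g0 : Bool → ℂ → ℂ, (∀ s, PBX.GOk b (g s)) ∧
      (∀ s, GOn (K2P (-(29 / 20 * l))) (4 / 3) (g0 s)) ∧
        ZF η = ZCm (cRm m) b z0 (mvR x i0 η0 η) g g0)
    (hZ : ∀ n n' : ℕ, n' = n + Fil.xn m →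
      PBI.PLX.ZFam (3 / 5 * l) n n' (fl P) (2 * b) D rr η0 ZF Zd Zp) {main : ℂ} {δa δc : ℝ}
    (ha : ‖(m : ℂ) * F0TI (ZF η0) P x i0 z0 - main‖ ≤ δa)
    (hc : ‖cutI (ZF η0) (Zd η0) Zp P x i0 z0‖ ≤ δc) :
    ∃ D' : ℂ, HasDerivAt (fun η : ℝ => fQ Fil.q (mvR x i0 η0 η) z0) D' η0 ∧
      ‖(m : ℂ) * D' - main‖ ≤ δa + m * δc := by
  obtain ⟨D', h1, h2⟩ := hD_one (fx_DI hP hP' hb hb' hz hz0 hx hev hZ) ha hc
  refine ⟨D', h1, h2.trans (le_of_eq ?_)⟩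
  rw [Complex.norm_natCast]

end PLT

end
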