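import Pool.Agent.PLT.HQfI
import Pool.Agent.PLT.LevOne
import Pool.Agent.PLT.FibI
import Pool.Agent.PLT.MomI3

/-!
# The levels at one index, from ONE master bound

* `BC.strip`, `UBI.strip`: a larger strip of the test functions;
* **`fib1_I`**, `mom4_I`: the data of the levels from the master bound `UBI` (four statistics, constant 6 per object,
  strip `(-(ep/4), 9/1000 l)`) of the dislocated function of a content on the imaginary axis;
* **`levD_ub`**: `PBEM.LevD` at the index, one constant for all contents, curves and heights of the legs.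
-/

set_option autoImplicit false
set_option linter.unusedSectionVars false

noncomputable section

open Complex MeasureTheory Finset Filter Topology

open PLX (Fil)

namespace PLT

open NUO NUP1 NUCR NUP1S NUP1S.Ab NUP1S.AbC NUGC NUGC.PLX PBFunc PBFunc.PLX PBF PBF.PLX PBE PBE.PLX
open PBLX PBLX.PLX PBWP PBWP.PLX
open PBEI (y1 y26 h0T mfL Apl6 Ami6 Bch6)
open PBV (wm)
open PHK hiding cL
open PBForce (Rws0)
open PLT.MI PLT.FI

variable [Fil]

/-- a test function on a larger strip is one on the smaller strip -/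
theorem bc_strip {y₁ y₂ y₁' y₂' M : ℝ} {g : ℂ → ℂ} (h : PBU.PLX.BC y₁' y₂' M g) (h1 : y₁' ≤ y₁)
    (h2 : y₂ ≤ y₂') : PBU.PLX.BC y₁ y₂ M g := by
  have hsub : PBE.Sp y₁ y₂ ⊆ PBE.Sp y₁' y₂' := fun z hz => ⟨lt_of_le_of_lt h1 hz.1, lt_of_lt_of_le hz.2 h2⟩
  exact ⟨h.an.mono hsub, fun z hz => h.bd z (hsub hz)⟩

theorem UBI_strip {Z : Bool → Option O3 → ℂ → ℂ} {P : Par6} {c : ℂ} {N : ℕ} {η η' : Crs} {e1 : ℝ}
    {m p : ℕ} {K y₁ y₂ y₁' y₂' b : ℝ} {ρ : ℝ → ℂ} (h : UBI Z P c N η η' e1 m p K y₁ y₂ b ρ)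
    (h1 : y₁' ≤ y₁) (h2 : y₂ ≤ y₂') : UBI Z P c N η η' e1 m p K y₁' y₂' b ρ :=
  fun B hB w hw g g' hg => h B hB w hw g g' fun r O j =>
    ⟨bc_strip (hg r O j).1 h1 h2, bc_strip (hg r O j).2 h1 h2⟩

section

variable {ep : ℝ} (h0 : 0 < ep) (h1 : ep ≤ 1 / 100) {k m : ℕ} (hm : 0 < m) {x : Fin m → ℂ}
  (hx : Rws0 x) {t : ℝ} {η η' : Crs} (hC : CrsB ep η η') {e1 b : ℝ} {c : ℂ}

include h0 h1 hm hx hC

omit h0 h1 hm hx in
theorem crs_lt (h0 : 0 < ep) (r : ℕ) (O : Fin r → Xo) (t : ℝ) : |η r O t| < ep / 4 := by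
  have h2 := (hC.cur r O).h1 t
  have hl1 : NUP1.l < 1 := by
    unfold NUP1.l
    linarith [Real.pi_lt_d2]
  have h3 : ep * NUP1.l / 4 < ep / 4 := by nlinarith
  exact lt_of_le_of_lt h2 h3

/-- **the fibres of the levels** -/
theorem fib_ub {b1 : ℝ} (hb : ep * NUP1.l / 4 < b1) (hb1 : 2 * b1 ≤ NUP1.l)
    (hρ : PB.SeaF b1 (rhA x)) :
    FibN6 (2 * m) (fun _ => ZI k x (4 / 3 * (1 - ep)) (I * t)) (fun _ => par6) (fun _ => η)
      (fun _ => η') (ep / 4) 0 (ep * NUP1.l / 4) b1 (fun _ => 2 * (4 / 3 * (1 - ep)))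
      (fun _ u => PBLZ.PLX.LZX u (4 / 3 * (1 - ep)) x [I, -I] (I * t)) (fun _ => LPo6 par6)
      (rhA x) := by
  have hl := Bd.l_pos
  exact fibN6_I h0 h1 hC k hm hx.re (z := I * t) (by
    rw [show (I * (t : ℂ)).re = 0 by simp, abs_zero]
    positivity) le_rfl hb hb1 hρ (fun _ => by linarith) (fun _ => le_rfl)

omit hm hx h1 in
/-- the measurability of the fibres -/
theorem mc_ub (hx : Rws0 x) : MC6 (ZI k x (4 / 3 * (1 - ep)) (I * t)) par6 η η' :=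
  mc6_XXI hC x _ _ _ _ (meas_g0I k (Rws_re hx.re)) par6

end

/-- the exponent of the pins of the levels -/
def dpm (e1 : ℝ) (m : ℕ) : ℝ := (m : ℝ) ^ (-(3 / 8 * (189 / 100) * (1 - 4 * e1)))

theorem dpm_nonneg (e1 : ℝ) (m : ℕ) : 0 ≤ dpm e1 m := Real.rpow_nonneg (Nat.cast_nonneg _) _

theorem thM_eq (c0 : ℝ) (m : ℕ) : thM c0 m = max 1 c0⁻¹ * (m : ℝ) ^ (-(141 / 200 : ℝ)) := by
  show thX c0 (m : ℝ) (189 / 100 - 1 / 100) 0 = _
  unfold thX
  rw [abs_zero, mul_zero, Real.exp_zero, mul_one]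
  norm_num

/-- **the levels at one index**, from the master bound of the dislocated function -/
theorem levD_ub {ep : ℝ} (h0 : 0 < ep) (h1 : ep ≤ 1 / 100) : ∃ C : ℝ, 1 ≤ C ∧
    ∀ {k m : ℕ} (_ : 0 < m) {x : Fin m → ℂ} (_ : Rws0 x) (i0 : Fin m) (t : ℝ) {η η' : Crs}
      (_ : CrsB ep η η') {e1 b : ℝ} {c : ℂ} (_ : 0 ≤ b)
      (_ : UBI (ZI k x (4 / 3 * (1 - ep)) (I * t)) par6 c (2 * m) η η' e1 m 4 6 (-(ep / 4)) bb6' b
        fun u => rhA x u)
      (K' th dp' : ℝ) (_ : C * b ≤ K') (_ : C * (m : ℝ) ^ (-(141 / 200 : ℝ)) ≤ th)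
      (_ : C * (dpm e1 m * b) ≤ dp'),
      PBEM.LevD y1 y26 (19 / 10) (mN6 (2 * m))
        (wI (ZI k x (4 / 3 * (1 - ep)) (I * t)) par6 c (2 * m) η η')
        (Vp6 (fun u : ℝ => rhA x u) fun _ => η) (Vm6 (fun u : ℝ => rhA x u) fun _ => η)
        (SN6 (fun u : ℝ => rhA x u) par6 fun _ => η) K' th dp' (mfL t) PBEI.sg' wm (Apl6 x i0)
        (Ami6 x i0) Bch6 := by
  have hl := Bd.l_pos
  have hl2 : 3 / 8 < NUP1.l := by
    unfold NUP1.l
    linarith [Real.pi_gt_three]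
  have hl1 : NUP1.l < 1 := by
    unfold NUP1.l
    linarith [Real.pi_lt_d2]
  have hb6 : bb6 = 19 / 2000 * NUP1.l := rfl
  have hb6' : bb6' = 9 / 1000 * NUP1.l := rfl
  obtain ⟨c0, hc0, hc⟩ := PBE.seaL_rows (b := bb6) bb6_pos.le (by rw [hb6]; linarith)
  obtain ⟨Q1, hQ1, HP⟩ := hQ_plusI h0 h1 c0
  obtain ⟨Q2, hQ2, HM⟩ := hQ_minusI h0 h1 c0
  have hmax : 0 ≤ max Q1 Q2 := le_max_of_le_left hQ1
  obtain ⟨C, hCC, H⟩ := levD_one hmax
  have hm1 : (1 : ℝ) ≤ max 1 c0⁻¹ := le_max_left _ _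
  refine ⟨6 * C * max 1 c0⁻¹, by nlinarith, ?_⟩
  intro k m hm x hx i0 t η η' hcr e1 b c hb hU K' th dp' hK hth hdp
  obtain ⟨hsea, hF⟩ := hc m x hm hx
  have hMC : MC6 (ZI k x (4 / 3 * (1 - ep)) (I * t)) par6 η η' := mc_ub h0 hcr hx
  have hmb := hU.mbd (q := 189 / 100) hMC (by norm_num) le_rfl (by norm_num) (by norm_num) hm
  have hmb' := (UBI_strip (y₁' := -bb6') (y₂' := bb6') hU (by rw [hb6']; nlinarith) le_rfl).mbd
    (q := 189 / 100) hMC (by norm_num) le_rfl (by norm_num) (by norm_num) hm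
  have hρm : Measurable fun u : ℝ => rhA x u := by
    have hcn : Continuous fun u : ℝ => rhA x u := continuous_iff_continuousAt.2 fun u =>
      (hF.d _ (by simpa using bb6_pos)).continuousAt.comp Complex.continuous_ofReal.continuousAt
    exact hcn.measurable
  have hm4 : PBQM.PLX.Mom4 (mN6 (2 * m)) (wI (ZI k x (4 / 3 * (1 - ep)) (I * t)) par6 c (2 * m) η η')
      (VN6 (2 * m) (fun _ => η) (rhA x)) (-(ep / 4)) bb6' b :=
    mom4I hU hMC hcr.mc le_rfl (by norm_num) (by linarith) bb6'_pos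
      (fun r O t => by
        have h3 := abs_lt.1 (crs_lt hcr h0 r O t)
        refine ⟨h3.1, h3.2.trans_le ?_⟩
        rw [hb6']
        nlinarith) hρm
  have hm4' : PBQM.PLX.Mom4 (mN6 (2 * m)) (wI (ZI k x (4 / 3 * (1 - ep)) (I * t)) par6 c (2 * m) η η')
      (VN6 (2 * m) (fun _ => η) (rhA x)) (-(ep / 4)) bb6' (6 * b) := fun M g hM hg =>
    (hm4 M g hM hg).trans (ENNReal.ofReal_le_ofReal (mul_le_mul_of_nonneg_left (by linarith)
      (Finset.prod_nonneg fun j _ => hM j)))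
  have hFib := fib_ub h0 h1 hm hx (k := k) (t := t) hcr (b1 := bb6) (by rw [hb6]; nlinarith)
    (by rw [hb6]; linarith) hF
  have hbd : bb6' < bb6 := bb6'_lt
  have hF' : PB.SeaF bb6' (rhA x) := ⟨fun z hz => hF.d z (hz.trans hbd),
    fun z hz => hF.ne z (hz.trans hbd), by
    obtain ⟨A, κ, h3, h4, h5⟩ := hF.bd
    exact ⟨A, κ, h3, h4, fun z hz => h5 z (hz.trans hbd)⟩⟩
  have hFib' := fib_ub h0 h1 hm hx (k := k) (t := t) hcr (b1 := bb6') (by rw [hb6']; nlinarith)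
    (by rw [hb6']; linarith) hF'
  have hd0 : 0 ≤ 3 * (m : ℝ) ^ (-(3 / 8 * (189 / 100) * (1 - 4 * e1))) * b := by positivity
  have hdat : Fib1 (2 * m) x (4 / 3 * (1 - ep)) [I, -I] t
      (fun _ => ZI k x (4 / 3 * (1 - ep)) (I * t)) (fun _ => η) (fun _ => η') (fun _ => c) (ep / 4)
      (ep * NUP1.l / 4) (fun _ => 2 * (4 / 3 * (1 - ep))) c0 (m : ℝ) (6 * b)
      (3 * (m : ℝ) ^ (-(3 / 8 * (189 / 100) * (1 - 4 * e1))) * b) :=
    ⟨hx.re, hFib', hsea, by linarith, hd0, hmb'⟩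
  have hth0 : 0 ≤ thM c0 m := thX_nonneg hsea.Np
  have hb04 : ep * NUP1.l / 4 < ep / 4 := by nlinarith
  have hC0 : 0 ≤ C := by linarith
  refine H i0 hdat ?_ ?_ K' th dp' ?_ ?_ ?_
  · intro M β e hM hβ he
    have h3 := HP hFib hb04 (by linarith) hmb hm4' hm hx hsea t M β e hM hβ he
    exact h3.mono (mul_nonneg hQ1 (mul_nonneg hth0 hM))
      (mul_le_mul_of_nonneg_right (le_max_left _ _) (mul_nonneg hth0 hM)) le_rfl (by linarith)
  · intro M β e hM hβ he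
    have h3 := HM hFib hb04 (by linarith) hmb hm4' hm hx hsea t M β e hM hβ he
    exact h3.mono (mul_nonneg hQ2 (mul_nonneg hth0 hM))
      (mul_le_mul_of_nonneg_right (le_max_right _ _) (mul_nonneg hth0 hM)) le_rfl (by linarith)
  · refine le_trans ?_ hK
    have h3 : 6 * C * b ≤ 6 * C * b * max 1 c0⁻¹ :=
      le_mul_of_one_le_right (by positivity) hm1
    nlinarith
  · refine le_trans ?_ hth
    have e3 := thM_eq c0 m
    have h4 : 0 ≤ (m : ℝ) ^ (-(141 / 200 : ℝ)) := by positivity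
    show C * thM c0 m ≤ _
    rw [e3]
    have h5 : 0 ≤ C * (max 1 c0⁻¹ * (m : ℝ) ^ (-(141 / 200 : ℝ))) := by positivity
    nlinarith
  · refine le_trans ?_ hdp
    show C * (3 * dpm e1 m * b) ≤ _
    have h4 := dpm_nonneg e1 m
    have h5 : 0 ≤ C * (dpm e1 m * b) := by positivity
    have h6 : C * (dpm e1 m * b) ≤ C * (dpm e1 m * b) * max 1 c0⁻¹ := le_mul_of_one_le_right h5 hm1
    nlinarith

end PLT

end
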