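import Pool.Agent.PLT.IdxW
import Pool.Agent.PLT.MomI3
import Pool.Agent.PLT.LevHI

/-!
# The record of one index from the master bound

* `mo6_ub`: the moments `Mo6` from `UBI`;
* **`idxW_of_ubi`**: `IdxW` from ONE master bound (four statistics, constant 6 per object, strip
  `(-(ep/4), 9/1000 l)`) of the dislocated function of a content on the imaginary axis.
-/

set_option autoImplicit false
set_option linter.unusedSectionVars false

noncomputable section

open Complex MeasureTheory Finset Filter Topology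

open PLX (Fil)

namespace PLT.SW

open NUO NUP1 NUCR NUP1S NUP1S.Ab NUP1S.AbC NUGC NUGC.PLX PBFunc PBFunc.PLX PBF PBF.PLX PBE PBE.PLX
open PBWP.PLX PBLX.PLX
open PBEI (y1 y26 h0T mfL Apl6 Ami6 Bch6)
open PBU.PLX (MBd6 BC)
open PHK
open PBForce (Rws0)
open Pool.Agent.PLX (rwq yq)
open Pool.Agent.PB (Pf)
open PLT.MI PLT.FI

variable [Fil]

omit [Fil] in
theorem meas_pfI (k : Option O3) : Measurable (PBOb.pf k) := by
  unfold PBOb.pf
  fun_prop

omit [Fil] in
theorem meas_sgDI (s : Bool) (k : Option O3) : Measurable (PBF.PLX.sgD s k) := by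
  unfold PBF.PLX.sgD
  exact (PBOb.measurable_sgU.comp (meas_pfI k)).const_mul _

/-- the step is measurable -/
theorem meas_SNI {N : ℕ} {P : Par6} {η η' : ℕ → PBF.PLX.Crs}
    (hc : ∀ n ≤ N, PBF.PLX.MCr (η n) (η' n)) (ρ : ℝ → ℂ) : Measurable (SN6 ρ P η : CfN6 N → ℂ) := by
  have h1 := PBOb.PLX.meas_VO6 (N := N) (P := P) (g := fun b => PBF.PLX.sgD b.1 b.2) fun b =>
    meas_sgDI b.1 b.2
  have h2 := PBOb.PLX.meas_VQ6 (N := N) (η := η) (η' := η') hc (D := PBF.PLX.sgD) meas_sgDI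
  exact (h1.add h2).sub_const _

omit [Fil] in
theorem pins_mono {Ω : Type*} [MeasurableSpace Ω] {μ : Measure Ω} {y₁ y₂ a δ δ' : ℝ} {w : Ω → ℂ}
    {Vp Vm : (ℂ → ℂ) → Ω → ℂ} {S : Ω → ℂ} {pin : Ω → ℝ}
    (h : PBRep.Pins y₁ y₂ a μ w Vp Vm S pin δ) (hy1 : y₁ < 0) (hy2 : 0 < y₂) (hd : δ ≤ δ') :
    PBRep.Pins y₁ y₂ a μ w Vp Vm S pin δ' where
  δ0 := h.δ0.trans hd
  p0 := h.p0
  one := h.one.mono hd
  two := h.two.mono hd
  st := h.st.mono hd
  vp M g hg := (h.vp M g hg).mono (mul_le_mul_of_nonneg_left hd (hg.nonneg hy1 hy2))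
  vm M g hg := (h.vm M g hg).mono (mul_le_mul_of_nonneg_left hd (hg.nonneg hy1 hy2))

/-- **the moments** from the master bound at the index -/
theorem mo6_ub {Z : Bool → Option O3 → ℂ → ℂ} {c : ℂ} {N : ℕ} {η η' : Crs} {e1 b a K : ℝ} {m : ℕ}
    {ρ : ℝ → ℂ} (h : UBI Z par6 c N η η' e1 m 2 K (-(NUP1.l / 10)) (351 / 400 * NUP1.l) b ρ)
    (hK : 6 ≤ K) (hm : 0 < m) (hMC : MC6 Z par6 η η') (hmc : MCr η η') (hb : 0 ≤ b)
    (ha0 : 0 ≤ a) (ha : a ≤ 8 / 3) :
    PBRep.PLX.Mo6 a (wI Z par6 c N η η') ρ par6 (fun _ => η) (345600 * b) (dlI 720 e1 a b m) := by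
  have hl := Bd.l_pos
  obtain ⟨k1, k2, k3, k4⟩ := M2_allI h hK (by linarith) (by linarith) hb
  have k5 := pinsI h hK hm ha0 ha (by linarith) (by linarith) (by linarith) (by linarith) hb
  refine ⟨by positivity, (wN_meas6 (fun n _ => hMC)).aestronglyMeasurable, k5, k1,
    fun M g hg _ => ?_, fun M g hg _ => ?_, ?_, k4⟩
  · have hM := hg.nonneg (by linarith) (by linarith)
    exact k2 M g hM (PBU.PLX.BC.of_TC hg ha0 hM)
  · have hM := hg.nonneg (by linarith) (by linarith)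
    exact k3 M g hM (PBU.PLX.BC.of_TC hg ha0 hM)
  · exact (meas_SNI (η := fun _ => η) (η' := fun _ => η') (fun n _ => hmc) _).aestronglyMeasurable

/-- **the record of one index** from the master bound -/
theorem idxW_of_ubi {ep : ℝ} (h0 : 0 < ep) (h1 : ep ≤ 1 / 100) {k m : ℕ} (hm : 0 < m)
    {x : Fin m → ℂ} (hx : Rws0 x) {τ : ℝ} {η η' : Crs} (hC : CrsB ep η η') {e1 b : ℝ}
    (he1 : e1 ≤ 1 / 4) (hb : 0 ≤ b)
    (hU : UBI (ZI k x (4 / 3 * (1 - ep)) (I * τ)) par6 (Pf (I * τ) x (yq x)) (2 * m) η η' e1 m 4 6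
      (-(ep / 4)) bb6' b fun u => rhA x u) :
    IdxW ep k x τ η η' (345600 * b) (720 * (dpm e1 m * b)) := by
  have hl := Bd.l_pos
  have hl2 : 3 / 8 < NUP1.l := by
    unfold NUP1.l
    linarith [Real.pi_gt_three]
  have hl1 : NUP1.l < 1 := by
    unfold NUP1.l
    linarith [Real.pi_lt_d2]
  have hb6 : bb6 = 19 / 2000 * NUP1.l := rfl
  have hb6' : bb6' = 9 / 1000 * NUP1.l := rfl
  have hMC : MC6 (ZI k x (4 / 3 * (1 - ep)) (I * τ)) par6 η η' := mc_ub h0 hC hx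
  have hmb := hU.mbd (q := 189 / 100) hMC (by norm_num) le_rfl (by norm_num) (by norm_num) hm
  obtain ⟨c0, hc0, hc⟩ := PBE.seaL_rows (b := bb6) bb6_pos.le (by rw [hb6]; linarith)
  obtain ⟨hsea, hF⟩ := hc m x hm hx
  have hρm : Measurable fun u : ℝ => rhA x u := by
    have hcn : Continuous fun u : ℝ => rhA x u := continuous_iff_continuousAt.2 fun u =>
      (hF.d _ (by simpa using bb6_pos)).continuousAt.comp Complex.continuous_ofReal.continuousAt
    exact hcn.measurable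
  have hm4 : PBQM.PLX.Mom4 (mN6 (2 * m))
      (wI (ZI k x (4 / 3 * (1 - ep)) (I * τ)) par6 (Pf (I * τ) x (yq x)) (2 * m) η η')
      (VN6 (2 * m) (fun _ => η) (rhA x)) (-(ep / 4)) bb6' b :=
    mom4I hU hMC hC.mc le_rfl (by norm_num) (by linarith) bb6'_pos
      (fun r O t => by
        have h3 := abs_lt.1 (crs_lt hC h0 r O t)
        refine ⟨h3.1, h3.2.trans_le ?_⟩
        rw [hb6']
        nlinarith) hρm
  have hd := dpm_nonneg e1 m
  have hd0 : 0 ≤ dpm e1 m * b := mul_nonneg hd hb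
  have hUw : UBI (ZI k x (4 / 3 * (1 - ep)) (I * τ)) par6 (Pf (I * τ) x (yq x)) (2 * m) η η' e1 m 2 6
      (-(NUP1.l / 10)) (351 / 400 * NUP1.l) b fun u => rhA x u :=
    UBI_strip (hU.le (by norm_num)) (by linarith) (by rw [hb6']; linarith)
  have hmo := mo6_ub (a := 19 / 10) hUw le_rfl hm hMC hC.mc hb (by norm_num) (by norm_num)
  have hdl : dlI 720 e1 (19 / 10) b m ≤ 720 * (dpm e1 m * b) := by
    unfold dlI dpm
    rw [mul_assoc]
    refine mul_le_mul_of_nonneg_left (mul_le_mul_of_nonneg_right ?_ hb) (by norm_num)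
    refine Real.rpow_le_rpow_of_exponent_le (by exact_mod_cast hm) ?_
    nlinarith
  refine ⟨hC, by positivity, by positivity, ?_, ?_, ?_⟩
  · refine MBd6.mono hmb (by positivity) (by linarith) ?_
    show 3 * dpm e1 m * b ≤ _
    nlinarith
  · exact fun M g hM hg => (hm4 M g hM hg).trans (ENNReal.ofReal_le_ofReal
      (mul_le_mul_of_nonneg_left (by linarith) (Finset.prod_nonneg fun j _ => hM j)))
  · exact ⟨hmo.K0, hmo.wm, pins_mono hmo.pin (by linarith) (by linarith) hdl, hmo.one, hmo.vp, hmo.vm, hmo.sm, hmo.s⟩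

end PLT.SW

end
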