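import Pool.Agent.PLT.Impl

/-!
# Analytic implicit functions over a compact set

* `le_of_re_deriv`: `c |b - a| ≤ |f b - f a|` if `Re f' ≥ c` on a convex set;
* **`implicitC`**: if `Re ∂F/∂v > c > 0` on `K × closure D`, `K` compact, `D` convex open bounded, and `F (k, ·)` has a
  zero in `D` for every `k ∈ K`, then the zero is an analytic function on a neighbourhood of `K`.
-/

set_option autoImplicit false

noncomputable section

open Filter Topology Set
open scoped ContDiff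

namespace PLT

/-- growth of a function with `Re f' ≥ c` -/
theorem le_of_re_deriv {f : ℂ → ℂ} {D : Set ℂ} (hD : Convex ℝ D) {c : ℝ}
    (hf : ∀ z ∈ D, DifferentiableAt ℂ f z) (hc : ∀ z ∈ D, c ≤ (deriv f z).re) {a b : ℂ}
    (ha : a ∈ D) (hb : b ∈ D) : c * ‖b - a‖ ≤ ‖f b - f a‖ := by
  obtain ⟨w, hw⟩ : ∃ w, w = b - a := ⟨_, rfl⟩
  have hseg : ∀ t : ℝ, 0 ≤ t → t ≤ 1 → a + t * w ∈ D := by
    intro t h0 h1
    have := hD ha hb (by linarith : 0 ≤ 1 - t) h0 (by ring)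
    have e : a + t * w = (1 - t) • a + t • b := by
      rw [hw, Complex.real_smul, Complex.real_smul]
      push_cast
      ring
    rw [e]
    exact this
  obtain ⟨g, hg⟩ : ∃ g : ℝ → ℝ, g = fun t : ℝ => (f (a + (t : ℂ) * w) * (starRingEnd ℂ) w).re :=
    ⟨_, rfl⟩
  have hder : ∀ t : ℝ, 0 ≤ t → t ≤ 1 →
      HasDerivAt g ((deriv f (a + t * w)).re * ‖w‖ ^ 2) t := by
    intro t h0 h1
    have d1 := (hf _ (hseg t h0 h1)).hasDerivAt
    have d2 : HasDerivAt (fun t : ℝ => a + (t : ℂ) * w) w t := by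
      have := ((Complex.ofRealCLM.hasDerivAt (x := t)).mul_const w).const_add a
      simpa using this
    have d3 : HasDerivAt (fun t : ℝ => f (a + (t : ℂ) * w)) (deriv f (a + t * w) * w) t :=
      HasDerivAt.comp_of_eq t d1 d2 rfl
    have d4 := d3.mul_const ((starRingEnd ℂ) w)
    have d5 := (Complex.reCLM.hasFDerivAt.comp_hasDerivAt t d4)
    rw [hg]
    refine d5.congr_deriv ?_
    simp only [Complex.reCLM_apply]
    rw [mul_assoc, Complex.mul_conj, Complex.normSq_eq_norm_sq, Complex.re_mul_ofReal]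
  have hmono : c * ‖w‖ ^ 2 ≤ g 1 - g 0 := by
    have hcont : ContinuousOn g (Icc 0 1) := fun t ht =>
      (hder t ht.1 ht.2).continuousAt.continuousWithinAt
    have hdiff : DifferentiableOn ℝ g (interior (Icc 0 1)) := fun t ht =>
      (hder t (interior_subset ht).1 (interior_subset ht).2).differentiableAt.differentiableWithinAt
    have := (convex_Icc (0 : ℝ) 1).mul_sub_le_image_sub_of_le_deriv (C := c * ‖w‖ ^ 2) hcont hdiff
      (fun t ht => by
        have ht' := interior_subset ht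
        rw [(hder t ht'.1 ht'.2).deriv]
        exact mul_le_mul_of_nonneg_right (hc _ (hseg t ht'.1 ht'.2)) (by positivity))
      0 (by simp) 1 (by simp) zero_le_one
    simpa using this
  have hup : g 1 - g 0 ≤ ‖f b - f a‖ * ‖w‖ := by
    have e : g 1 - g 0 = ((f b - f a) * (starRingEnd ℂ) w).re := by
      rw [hg]
      simp only [Complex.ofReal_one, one_mul, Complex.ofReal_zero, zero_mul, add_zero]
      rw [show a + w = b by rw [hw]; ring, ← Complex.sub_re]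
      ring_nf
    rw [e]
    refine (Complex.re_le_norm _).trans ?_
    rw [norm_mul, RCLike.norm_conj]
  rw [← hw]
  rcases eq_or_lt_of_le (norm_nonneg w) with h | h
  · rw [← h, mul_zero]
    exact norm_nonneg _
  · have h1 : c * ‖w‖ ^ 2 ≤ ‖f b - f a‖ * ‖w‖ := hmono.trans hup
    have h2 : (c * ‖w‖) * ‖w‖ ≤ ‖f b - f a‖ * ‖w‖ := by
      calc (c * ‖w‖) * ‖w‖ = c * ‖w‖ ^ 2 := by ring
        _ ≤ _ := h1
    exact le_of_mul_le_mul_right h2 h

variable {E : Type*} [NormedAddCommGroup E] [NormedSpace ℂ E]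

/-- the derivative of the section -/
theorem hasDerivAt_section {F : E × ℂ → ℂ} {x : E} {v : ℂ} (hF : DifferentiableAt ℂ F (x, v)) :
    HasDerivAt (fun w => F (x, w)) (fderiv ℂ F (x, v) (0, 1)) v := by
  have h1 : HasFDerivAt (fun w : ℂ => ((x, w) : E × ℂ)) (ContinuousLinearMap.inr ℂ E ℂ) v := by
    simpa using (hasFDerivAt_prodMk_right x v)
  have h2 := (hF.hasFDerivAt.comp v h1).hasDerivAt
  refine h2.congr_deriv ?_
  simp

/-- **analytic implicit functions over a compact set** -/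
theorem implicitC [CompleteSpace E] {F : E × ℂ → ℂ} {K : Set E} {D : Set ℂ} {c : ℝ} (hK : IsCompact K)
    (hDo : IsOpen D) (hDc : Convex ℝ D) (hDk : IsCompact (closure D)) (hc : 0 < c)
    (hF : ∀ k ∈ K, ∀ v ∈ closure D, AnalyticAt ℂ F (k, v))
    (hd : ∀ k ∈ K, ∀ v ∈ closure D, c < (fderiv ℂ F (k, v) (0, 1)).re)
    (h0 : ∀ k ∈ K, ∃ v ∈ D, F (k, v) = 0) :
    ∃ U : Set E, IsOpen U ∧ K ⊆ U ∧ ∃ V : E → ℂ,
      (∀ x ∈ U, AnalyticAt ℂ V x ∧ V x ∈ D ∧ F (x, V x) = 0) ∧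
      ∀ x ∈ U, ∀ v ∈ D, c * ‖v - V x‖ ≤ ‖F (x, v)‖ := by
  obtain ⟨W, hW⟩ : ∃ W : Set (E × ℂ), W =
      {q | AnalyticAt ℂ F q ∧ c < (fderiv ℂ F q (0, 1)).re} := ⟨_, rfl⟩
  have hWo : IsOpen W := by
    rw [isOpen_iff_mem_nhds]
    intro q hq
    rw [hW] at hq
    obtain ⟨h1, h2⟩ := hq
    have e1 := h1.eventually_analyticAt
    have e2 : ContinuousAt (fun q => (fderiv ℂ F q (0, 1)).re) q := by
      have h3 : ContinuousAt (fderiv ℂ F) q := h1.fderiv.continuousAt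
      have h4 : ContinuousAt (fun q => fderiv ℂ F q (0, 1)) q := h3.clm_apply continuousAt_const
      exact Complex.continuous_re.continuousAt.comp h4
    have e3 := e2.eventually_const_lt h2
    filter_upwards [e1, e3] with p p1 p2
    rw [hW]
    exact ⟨p1, p2⟩
  obtain ⟨N, D', hN, -, hKN, hDD, hsub⟩ := generalized_tube_lemma hK hDk hWo (by
    rintro ⟨k, v⟩ ⟨hk, hv⟩
    rw [hW]
    exact ⟨hF k hk v hv, hd k hk v hv⟩)
  have hND : ∀ x ∈ N, ∀ v ∈ D, AnalyticAt ℂ F (x, v) ∧ c < (fderiv ℂ F (x, v) (0, 1)).re := by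
    intro x hx v hv
    have := hsub (mk_mem_prod hx (hDD (subset_closure hv)))
    rw [hW] at this
    exact this
  have hder : ∀ x ∈ N, ∀ v ∈ D, HasDerivAt (fun w => F (x, w)) (fderiv ℂ F (x, v) (0, 1)) v :=
    fun x hx v hv => hasDerivAt_section (hND x hx v hv).1.differentiableAt
  have hgr : ∀ x ∈ N, ∀ a ∈ D, ∀ b ∈ D, c * ‖b - a‖ ≤ ‖F (x, b) - F (x, a)‖ := by
    intro x hx a ha b hb
    refine le_of_re_deriv (f := fun w => F (x, w)) hDc (fun z hz => (hder x hx z hz).differentiableAt)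
      (fun z hz => ?_) ha hb
    rw [(hder x hx z hz).deriv]
    exact (hND x hx z hz).2.le
  obtain ⟨U, hU⟩ : ∃ U : Set E, U = {x | x ∈ N ∧ ∃ v ∈ D, F (x, v) = 0} := ⟨_, rfl⟩
  obtain ⟨V, hV⟩ : ∃ V : E → ℂ, ∀ x ∈ U, V x ∈ D ∧ F (x, V x) = 0 := by
    have : ∀ x : E, ∃ v : ℂ, x ∈ U → v ∈ D ∧ F (x, v) = 0 := by
      intro x
      by_cases hx : x ∈ U
      · have hx' := hx
        rw [hU] at hx'
        obtain ⟨-, v, hv, hv0⟩ := hx'
        exact ⟨v, fun _ => ⟨hv, hv0⟩⟩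
      · exact ⟨0, fun h => absurd h hx⟩
    choose V hV using this
    exact ⟨V, hV⟩
  have hUN : ∀ x ∈ U, x ∈ N := by
    intro x hx
    rw [hU] at hx
    exact hx.1
  have huniq : ∀ x ∈ U, ∀ v ∈ D, F (x, v) = 0 → v = V x := by
    intro x hx v hv hv0
    have h1 := hgr x (hUN x hx) (V x) (hV x hx).1 v hv
    rw [hv0, (hV x hx).2, sub_zero, norm_zero] at h1
    have h2 : ‖v - V x‖ ≤ 0 := by
      by_contra h
      have := mul_pos hc (not_le.1 h)
      linarith
    exact sub_eq_zero.1 (norm_le_zero_iff.1 h2)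
  have hloc : ∀ x ∈ U, (∀ᶠ y in 𝓝 x, y ∈ U) ∧ AnalyticAt ℂ V x := by
    intro x hx
    obtain ⟨hvD, hv0⟩ := hV x hx
    obtain ⟨hA, hd'⟩ := hND x (hUN x hx) (V x) hvD
    have hcd : ContDiffAt ℂ ω F (x, V x) := hA.contDiffAt
    have hne : fderiv ℂ F (x, V x) (0, 1) ≠ 0 := by
      intro h
      rw [h, Complex.zero_re] at hd'
      linarith
    have hinv : (fderiv ℂ F (x, V x) ∘L .inr ℂ E ℂ).IsInvertible := by
      refine ⟨ContinuousLinearEquiv.unitsEquivAut ℂ (Units.mk0 _ hne), ?_⟩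
      ext
      simp
    have hn : (ω : WithTop ℕ∞) ≠ 0 := by simp
    have c1 := hcd.contDiffAt_implicitFunction hn hinv
    have c2 := hcd.eventually_apply_implicitFunction hn hinv
    have c3 := hcd.implicitFunction_apply_self hn hinv
    obtain ⟨ψ, hψ⟩ : ∃ ψ : E → ℂ, ψ = hcd.implicitFunction hn hinv := ⟨_, rfl⟩
    rw [← hψ] at c1 c2 c3
    simp only at c1 c2 c3
    have c4 : ∀ᶠ y in 𝓝 x, ψ y ∈ D := by
      have := c1.continuousAt
      exact this.eventually (by rw [c3]; exact hDo.mem_nhds hvD)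
    have c5 : ∀ᶠ y in 𝓝 x, y ∈ N := hN.mem_nhds (hUN x hx)
    have c6 : ∀ᶠ y in 𝓝 x, y ∈ U := by
      filter_upwards [c2, c4, c5] with y d1 d2 d3
      rw [hU]
      exact ⟨d3, ψ y, d2, d1.trans hv0⟩
    refine ⟨c6, ?_⟩
    have c7 : ψ =ᶠ[𝓝 x] V := by
      filter_upwards [c2, c4, c6] with y d1 d2 d3
      exact huniq y d3 (ψ y) d2 (d1.trans hv0)
    exact (c1.analyticAt).congr c7
  refine ⟨U, ?_, ?_, V, ?_, ?_⟩
  · rw [isOpen_iff_mem_nhds]
    exact fun x hx => (hloc x hx).1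
  · intro k hk
    rw [hU]
    exact ⟨hKN hk, h0 k hk⟩
  · exact fun x hx => ⟨(hloc x hx).2, (hV x hx).1, (hV x hx).2⟩
  · intro x hx v hv
    have h1 := hgr x (hUN x hx) (V x) (hV x hx).1 v hv
    rwa [(hV x hx).2, sub_zero] at h1

end PLT

end
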