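import Pool.Agent.PLT.MInsC
import Pool.Agent.PHK.InsFF6

/-!
# Sea on a curve: linear statistics inside the functional

Twin of `PHK/InsFF6` for curves given by complex displacements.
* `CBdC`: the one body function is bounded at all constituents; `FAC_mul_lt`, `norm_FaC_tw_le`,
  `norm_stAC_le`;
* **`hasDerivAt_FFC`**: the derivative at `ε = 0` of `FFC (tw Z a ε) Ψ` is `FFC Z (Ψ * stAC a)`;
* `wCC_mul`, `FAC_tw_lt`.
-/

set_option autoImplicit false
set_option linter.unusedSectionVars false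

noncomputable section

open Complex MeasureTheory Finset
open scoped ENNReal

open PLX (Fil)

namespace PLT

open NUO NUP1 NUCR NUP1S NUP1S.Ab NUP1S.AbC NUGC NUGC.PLX PBFunc PBFunc.PLX PHK
open PBF.PLX (Ins MIn Zm)
open PBI (Stt tw)

/-! ### bounded statistics -/

/-- the one body function is bounded by `C` at all constituents of the configurations with at most
`N` objects -/
def CBdC (s : Stt) (P : Par6) (D : CrsC) (N : ℕ) (C : ℝ) : Prop :=
  ∀ r ≤ N, ∀ (O : Fin r → Xo) (a b : ℕ) (x : (Fin a → ℝ) × (Fin b → ℝ)),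
    ∀ c ∈ csAC P (D r O) O x, ‖s c.1.1.1 c.1.1.2 c.1.2‖ ≤ C

theorem CBdC.apz {s : Stt} {P : Par6} {D : CrsC} {N : ℕ} {C : ℝ} (h : CBdC s P D N C) {r : ℕ}
    (hr : r ≤ N) (O : Fin r → Xo) {a b : ℕ} (x : (Fin a → ℝ) × (Fin b → ℝ)) :
    ∀ z ∈ (csAC P (D r O) O x).map (apz s), ‖z.1‖ ≤ C := by
  intro z hz
  rw [List.mem_map] at hz
  obtain ⟨c, hc, rfl⟩ := hz
  exact h r hr O a b x c hc

variable [Fil]

section deriv

variable {Z s : Stt} {P : Par6} {n n' : ℕ} {D D1 : CrsC} {Ψ : Ins} {C : ℝ}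

/-- finiteness with a bounded factor -/
theorem FAC_mul_lt (hM : MCC Z P D D1) (hΨ : MIn Ψ) (hf : FAC Z P n n' D D1 Ψ < ∞) {Φ : Ins}
    (hΦ : MIn Φ) {K : ℝ} (hK : ∀ r ≤ 2 * (n + n'), ∀ (O : Fin r → Xo) (a b : ℕ), a ≤ n → b ≤ n' →
      ∀ (x : (Fin a → ℝ) × (Fin b → ℝ)), ‖Φ r O a b x‖ ≤ K) :
    FAC Z P n n' D D1 (fun r O a b x => Ψ r O a b x * Φ r O a b x) < ∞ := by
  have hm : MIn (fun r O a b x => Ψ r O a b x * Φ r O a b x) := fun r a b => (hΨ r a b).mul (hΦ r a b)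
  rw [FAC_eq hM hm]
  rw [FAC_eq hM hΨ] at hf
  refine lt_of_le_of_lt (b := ENNReal.ofReal K *
    ∫⁻ c, ‖wCC Z P n n' D D1 c‖ₑ * ‖ev6 Ψ c‖ₑ ∂(mC6 n n')) ?_ (ENNReal.mul_lt_top
      ENNReal.ofReal_lt_top hf)
  rw [← lintegral_const_mul' _ _ ENNReal.ofReal_ne_top]
  refine lintegral_mono fun c => ?_
  have h1 : ‖ev6 (n := n) (n' := n') (fun r O a b x => Ψ r O a b x * Φ r O a b x) c‖ₑ =
      ‖ev6 Ψ c‖ₑ * ‖ev6 Φ c‖ₑ := enorm_mul _ _
  have h2 : ‖ev6 Φ c‖ₑ ≤ ENNReal.ofReal K := by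
    rw [← ofReal_norm]
    refine ENNReal.ofReal_le_ofReal (hK _ ?_ _ _ _ ?_ ?_ _)
    · have := c.1.1.2
      omega
    · have := c.1.2.1.2
      omega
    · have := c.1.2.2.2
      omega
  rw [h1]
  calc ‖wCC Z P n n' D D1 c‖ₑ * (‖ev6 Ψ c‖ₑ * ‖ev6 Φ c‖ₑ)
      = ‖ev6 Φ c‖ₑ * (‖wCC Z P n n' D D1 c‖ₑ * ‖ev6 Ψ c‖ₑ) := by ring
    _ ≤ _ := mul_le_mul' h2 le_rfl

theorem tz_csAC_9 {r : ℕ} (hr : r ≤ 2 * (n + n')) (O : Fin r → Xo) {a b : ℕ} (ha : a ≤ n)
    (hb : b ≤ n') (D : Bool → ℝ → ℂ) (x : (Fin a → ℝ) × (Fin b → ℝ)) :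
    tz ((csAC P D O x).map (apz s)) ≤ 9 * (n + n') := by
  rw [tz_apz]
  have := tz_csAC_le P D O x
  omega

theorem norm_FaC_tw_le (hB : CBdC s P D (2 * (n + n')) C) {ε : ℂ} (hε : ‖ε‖ * C ≤ 1 / 2)
    {r : ℕ} (hr : r ≤ 2 * (n + n')) (O : Fin r → Xo) {a b : ℕ} (ha : a ≤ n) (hb : b ≤ n')
    (x : (Fin a → ℝ) × (Fin b → ℝ)) :
    ‖FaC (fun c k z => 1 + ε * s c k z) P D r O a b x‖ ≤ 2 ^ (9 * (n + n')) := by
  rw [FaC_tw]
  exact (norm_lz_le (hB.apz hr O x) hε).trans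
    (pow_le_pow_right₀ (by norm_num) (tz_csAC_9 hr O ha hb _ x))

theorem norm_stAC_le (hB : CBdC s P D (2 * (n + n')) C)
    {r : ℕ} (hr : r ≤ 2 * (n + n')) (O : Fin r → Xo) {a b : ℕ} (ha : a ≤ n) (hb : b ≤ n')
    (x : (Fin a → ℝ) × (Fin b → ℝ)) (hC : 0 ≤ C) :
    ‖stAC s P D r O a b x‖ ≤ (9 * (n + n') : ℕ) * C := by
  rw [stAC_wz]
  refine (norm_wz_le (hB.apz hr O x)).trans (mul_le_mul_of_nonneg_right ?_ hC)
  exact_mod_cast tz_csAC_9 hr O ha hb _ x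

/-- **the derivative at `ε = 0` is the insertion of the statistic** -/
theorem hasDerivAt_FFC (hZ : ∀ s k, Measurable (Z s k))
    (hc : MCrC D D1) (hΨ : MIn Ψ) (hf : FAC Z P n n' D D1 Ψ < ∞) (hs : ∀ c k, Measurable (s c k))
    (hC : 0 ≤ C) (hB : CBdC s P D (2 * (n + n')) C) :
    HasDerivAt (fun ε : ℂ => FFC (tw Z s ε) P n n' D D1 Ψ)
      (FFC Z P n n' D D1 fun r O a b x => Ψ r O a b x * stAC s P D r O a b x) 0 := by
  have hM : MCC Z P D D1 := MCC.of hZ hc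
  have hI := WI_ofC hM hΨ hf
  have key := hasDerivAt_Fz (μ := mC6 n n') (w := wCC Z P n n' D D1) (O := ev6 Ψ) hI
    (L := fun c => (csAC P (D c.1.1 c.2.1) c.2.1 c.2.2).map (apz s)) (N := 9 * (n + n'))
    (C := C) hC
    (fun c => by
      have h2 := c.1.1.2
      have h3 := c.1.2.1.2
      have h4 := c.1.2.2.2
      exact tz_csAC_9 (by omega) _ (by omega) (by omega) _ _)
    (fun c => by
      have h2 := c.1.1.2
      exact hB.apz (by omega) _ _)
    (fun ε => by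
      have h1 : MIn (FaC (fun c k z => 1 + ε * s c k z) P D) :=
        MIn.FaC (fun c k => ((hs c k).const_mul ε).const_add 1) hc
      refine (congrArg (fun f => AEStronglyMeasurable f (mC6 n n')) (funext fun c => ?_)).mpr
        (MIn.ev6 h1).aestronglyMeasurable
      exact (FaC_tw s ε P D c.2.1 c.2.2).symm)
    (by
      have h1 : MIn (stAC s P D) := MIn.stAC hs hc
      refine (congrArg (fun f => AEStronglyMeasurable f (mC6 n n')) (funext fun c => ?_)).mpr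
        (MIn.ev6 h1).aestronglyMeasurable
      exact (stAC_wz s P D c.2.1 c.2.2).symm)
  have hmS : MIn fun r O a b x => Ψ r O a b x * stAC s P D r O a b x := fun r a b =>
    (hΨ r a b).mul (MIn.stAC hs hc r a b)
  have hfS := FAC_mul_lt hM hΨ hf (MIn.stAC (P := P) hs hc)
    (fun r hr O a b ha hb x => norm_stAC_le hB hr O ha hb x hC)
  refine (key.congr_deriv ?_).congr_of_eventuallyEq ?_
  · rw [FFC_eq hM hmS hfS]
    unfold F
    refine integral_congr_ae (Filter.Eventually.of_forall fun c => ?_)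
    show wCC Z P n n' D D1 c * (ev6 Ψ c * wz ((csAC P (D c.1.1 c.2.1) c.2.1 c.2.2).map (apz s))) =
      wCC Z P n n' D D1 c * (Ψ _ _ _ _ _ * stAC s P D _ _ _ _ _)
    rw [stAC_wz]
    rfl
  · have hr : (0 : ℝ) < 1 / (2 * (C + 1)) := by positivity
    have hball : Metric.ball (0 : ℂ) (1 / (2 * (C + 1))) ∈ nhds (0 : ℂ) :=
      Metric.ball_mem_nhds _ hr
    filter_upwards [hball] with ε hε
    have hε' : ‖ε‖ * C ≤ 1 / 2 := by
      rw [Metric.mem_ball, dist_zero_right] at hε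
      have h1 : ‖ε‖ * C ≤ 1 / (2 * (C + 1)) * (C + 1) :=
        mul_le_mul hε.le (by linarith) hC hr.le
      have h2 : 1 / (2 * (C + 1)) * (C + 1) = 1 / 2 := by
        field_simp
      linarith
    have h1 : MIn (FaC (fun c k z => 1 + ε * s c k z) P D) :=
      MIn.FaC (fun c k => ((hs c k).const_mul ε).const_add 1) hc
    have hm : MIn fun r O a b x => Ψ r O a b x *
        FaC (fun c k z => 1 + ε * s c k z) P D r O a b x := fun r a b => (hΨ r a b).mul (h1 r a b)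
    have hf1 := FAC_mul_lt hM hΨ hf h1
      (fun r hr O a b ha hb x => norm_FaC_tw_le hB hε' hr O ha hb x)
    have e1 : FFC (tw Z s ε) P n n' D D1 Ψ = FFC Z P n n' D D1 fun r O a b x =>
        Ψ r O a b x * FaC (fun c k z => 1 + ε * s c k z) P D r O a b x := by
      have := FFC_mul Z (fun c k z => 1 + ε * s c k z) P n n' D D1 Ψ
      refine Eq.trans ?_ (this.trans ?_)
      · rfl
      · congr 1
        funext r O a b x
        ring
    rw [e1, FFC_eq hM hm hf1]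
    unfold F
    refine integral_congr_ae (Filter.Eventually.of_forall fun c => ?_)
    show wCC Z P n n' D D1 c * (Ψ _ _ _ _ _ * FaC (fun c k z => 1 + ε * s c k z) P D _ _ _ _ _) =
      wCC Z P n n' D D1 c * (ev6 Ψ c * lz ((csAC P (D c.1.1 c.2.1) c.2.1 c.2.2).map (apz s)) ε)
    rw [FaC_tw]
    rfl

end deriv

/-! ### the moduli with multiplicative insertions -/

theorem wCC_mul (Z g : Stt) (P : Par6) (n n' : ℕ) (D D1 : CrsC) (c : Cf6 n n') :
    wCC (Zm Z g) P n n' D D1 c = wCC Z P n n' D D1 c * ev6 (FaC g P D) c := by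
  unfold wCC wPC ev6
  split_ifs
  · rw [wK6_mul, gKC_mul]
    unfold FaC
    ring
  · rw [zero_mul]

theorem FAC_tw_lt {Z a : Stt} {P : Par6} {n n' : ℕ} {D D1 : CrsC} {C : ℝ}
    (hZ : ∀ s k, Measurable (Z s k))
    (hc : MCrC D D1) {Ψ : Ins} (hΨ : MIn Ψ) (hf : FAC Z P n n' D D1 Ψ < ∞)
    (ha : ∀ c k, Measurable (a c k)) (hB : CBdC a P D (2 * (n + n')) C) {ε : ℂ}
    (hε : ‖ε‖ * C ≤ 1 / 2) : FAC (tw Z a ε) P n n' D D1 Ψ < ∞ := by
  have hM : MCC Z P D D1 := MCC.of hZ hc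
  have hm1 : ∀ c k, Measurable fun z => 1 + ε * a c k z := fun c k =>
    ((ha c k).const_mul ε).const_add 1
  have hF : MIn (FaC (fun c k z => 1 + ε * a c k z) P D) := MIn.FaC hm1 hc
  have hf1 := FAC_mul_lt hM hΨ hf hF
    (fun r hr O m m' hm hm' x => norm_FaC_tw_le hB hε hr O hm hm' x)
  have e1 : FAC (tw Z a ε) P n n' D D1 Ψ = FAC Z P n n' D D1 fun r O a' b x =>
      Ψ r O a' b x * FaC (fun c k z => 1 + ε * a c k z) P D r O a' b x := by
    have := FAC_mul Z (fun c k z => 1 + ε * a c k z) P n n' D D1 Ψ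
    refine Eq.trans ?_ (this.trans ?_)
    · rfl
    · congr 1
      funext r O a' b x
      ring
  rw [e1]
  exact hf1

end PLT

end
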