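import Pool.Agent.PLT.InsP
import Pool.Agent.PLT.GInst
import Pool.Agent.PLT.DatC
import Pool.Agent.NUO.AsmAlg
import Pool.Agent.NUO.DispW

/-!
# The instance of a configuration on a static curve, the crude bound

* `htC O g`: heights of the objects and places; `win_htC`, `le_win`;
* `eR_le`: the energy of the differences of the densities; **`InstCC B Q`**: the data `DatCC` give `Gs.Inst` and the
  bound of the local energy; **`instCC`**: from `RemC`, `KdC`;
* **`crudeCC`**: `CrudeCC B Q` from the instance, the window bound `ShH0` and `StC (KC0 B)`.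
-/

set_option autoImplicit false
set_option linter.unusedSectionVars false
set_option linter.unusedVariables false

noncomputable section

open MeasureTheory Finset
open scoped ENNReal

namespace PLT.Cv

open NUDispW (win win_nonneg bmaj bmaj_nonneg)
open NUO (TW Tb)
open NUSea.PLX.H0 (Inp)
open NUH0 (plt plt_nonneg plt_le qc T0i T0i_ge shF shF_nonneg)
open NUKer (KC)

/-! ### heights -/

/-- heights of the objects and places of the extra densities -/
def htC {r G : ℕ} (O : Fin r → Oc) (g : Fin G → ℝ) : Fin (r + G) → ℝ :=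
  Fin.append (fun i => (O i).h) g

lemma bmaj_htC {r G : ℕ} (O : Fin r → Oc) (g : Fin G → ℝ) (c t : ℝ) :
    bmaj Finset.univ (htC O g) c t =
      bmaj Finset.univ (fun i => (O i).h) c t + bmaj Finset.univ g c t := by
  unfold bmaj htC
  rw [Fin.sum_univ_add]
  simp only [Fin.append_left, Fin.append_right]

lemma win_fin' {r : ℕ} (h : Fin r → ℝ) {W : Finset ℤ}
    (hW : (univ : Finset (Fin r)).image (fun i => ⌊h i⌋) ⊆ W) :
    win univ h = ∑ w ∈ W, (((univ : Finset (Fin r)).filter fun i => ⌊h i⌋ = w).card : ℝ) ^ 2 := by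
  unfold win
  refine Finset.sum_subset hW fun w _ hw => ?_
  have h1 : (univ : Finset (Fin r)).filter (fun i => ⌊h i⌋ = w) = ∅ := by
    refine Finset.filter_eq_empty_iff.2 fun i _ hi => hw ?_
    exact Finset.mem_image.2 ⟨i, Finset.mem_univ i, hi⟩
  rw [h1, Finset.card_empty]
  norm_num

/-- the windows of the objects and of the places -/
theorem win_htC {r G : ℕ} (O : Fin r → Oc) (g : Fin G → ℝ) :
    win univ (htC O g) ≤ 2 * win univ (fun i => (O i).h) + 2 * (G : ℝ) ^ 2 := by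
  classical
  obtain ⟨W, hW⟩ : ∃ W : Finset ℤ, W = (univ : Finset (Fin (r + G))).image (fun i => ⌊htC O g i⌋) :=
    ⟨_, rfl⟩
  have s1 : (univ : Finset (Fin r)).image (fun i => ⌊(O i).h⌋) ⊆ W := by
    intro w hw
    obtain ⟨i, -, hi⟩ := Finset.mem_image.1 hw
    rw [hW]
    refine Finset.mem_image.2 ⟨Fin.castAdd G i, Finset.mem_univ _, ?_⟩
    unfold htC
    rw [Fin.append_left]
    exact hi
  have s2 : (univ : Finset (Fin G)).image (fun i => ⌊g i⌋) ⊆ W := by
    intro w hw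
    obtain ⟨i, -, hi⟩ := Finset.mem_image.1 hw
    rw [hW]
    refine Finset.mem_image.2 ⟨Fin.natAdd r i, Finset.mem_univ _, ?_⟩
    unfold htC
    rw [Fin.append_right]
    exact hi
  have h0 := NUO.win_le_sq g
  rw [win_fin' (htC O g) (W := W) (by rw [hW]), win_fin' (fun i => (O i).h) s1]
  rw [win_fin' g s2] at h0
  have h1 : ∀ w, (((univ : Finset (Fin (r + G))).filter fun i => ⌊htC O g i⌋ = w).card : ℝ) =
      ((univ : Finset (Fin r)).filter fun i => ⌊(O i).h⌋ = w).card +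
      ((univ : Finset (Fin G)).filter fun i => ⌊g i⌋ = w).card := by
    intro w
    have e1 : ∀ (N : ℕ) (f : Fin N → ℝ), (((univ : Finset (Fin N)).filter fun i => ⌊f i⌋ = w).card : ℝ) =
        ∑ i, if ⌊f i⌋ = w then (1 : ℝ) else 0 := by
      intro N f
      rw [Finset.sum_boole]
    rw [e1, e1, e1, Fin.sum_univ_add]
    unfold htC
    simp only [Fin.append_left, Fin.append_right]
  calc ∑ w ∈ W, (((univ : Finset (Fin (r + G))).filter fun i => ⌊htC O g i⌋ = w).card : ℝ) ^ 2 ≤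
      ∑ w ∈ W, (2 * (((univ : Finset (Fin r)).filter fun i => ⌊(O i).h⌋ = w).card : ℝ) ^ 2 +
        2 * (((univ : Finset (Fin G)).filter fun i => ⌊g i⌋ = w).card : ℝ) ^ 2) := by
        refine Finset.sum_le_sum fun w _ => ?_
        rw [h1 w]
        clear * -
        nlinarith [sq_nonneg ((((univ : Finset (Fin r)).filter fun i => ⌊(O i).h⌋ = w).card : ℝ) -
          (((univ : Finset (Fin G)).filter fun i => ⌊g i⌋ = w).card : ℝ))]
    _ = 2 * (∑ w ∈ W, (((univ : Finset (Fin r)).filter fun i => ⌊(O i).h⌋ = w).card : ℝ) ^ 2) +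
        2 * (∑ w ∈ W, (((univ : Finset (Fin G)).filter fun i => ⌊g i⌋ = w).card : ℝ) ^ 2) := by
        rw [Finset.sum_add_distrib, Finset.mul_sum, Finset.mul_sum]
    _ ≤ _ := by linarith

/-- every object counts in the windows -/
theorem le_win {r : ℕ} (h : Fin r → ℝ) : (r : ℝ) ≤ win univ h := by
  classical
  rw [win_fin' h (W := (univ : Finset (Fin r)).image (fun i => ⌊h i⌋)) le_rfl]
  have h1 : (r : ℝ) = ∑ w ∈ (univ : Finset (Fin r)).image (fun i => ⌊h i⌋),
      (((univ : Finset (Fin r)).filter fun i => ⌊h i⌋ = w).card : ℝ) := by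
    have h2 := Finset.card_eq_sum_card_image (fun i : Fin r => ⌊h i⌋) univ
    rw [Finset.card_univ, Fintype.card_fin] at h2
    exact_mod_cast h2
  rw [h1]
  refine Finset.sum_le_sum fun w _ => ?_
  rcases Nat.eq_zero_or_pos ((univ : Finset (Fin r)).filter fun i => ⌊h i⌋ = w).card with h0 | h0
  · rw [h0]; norm_num
  · have h3 : (1 : ℝ) ≤ ((univ : Finset (Fin r)).filter fun i => ⌊h i⌋ = w).card := by exact_mod_cast h0
    nlinarith

/-! ### the energy of the differences -/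

lemma dn_sub {f f' : ℝ → ℝ} (hf : NUC43.Dn f) (hf' : NUC43.Dn f') : NUC43.Dn fun t => f t - f' t := by
  have h1 := NUC43.Dn.sum (Finset.univ : Finset (Fin 2)) (f := ![f, fun t => -1 * f' t]) (fun i => by
    fin_cases i
    · exact hf
    · exact hf'.smul (-1))
  have e : (fun t => ∑ i : Fin 2, (![f, fun t => -1 * f' t] : Fin 2 → ℝ → ℝ) i t) = fun t => f t - f' t := by
    funext t
    simp [Fin.sum_univ_two]
    ring
  rw [e] at h1
  exact h1

section

variable [SeaC] {lo hi kd A ε c : ℝ} {I : Inp} {r : ℕ} {O : Fin r → Oc}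

/-- the energy of the differences is the sum over pairs of objects -/
theorem eR_pairs (hO : ∀ i, (O i).Ok lo hi kd A ε c) : (datC I O).eR =
    ∑ i, ∑ j, ∑ a, ∫ t, ((O i).μ a t - (O i).r a t) *
      ∫ u, ((O j).μ a u - (O j).r a u) * NUMF.V (t - u) := by
  have hd : ∀ i a, NUC43.Dn fun t => (O i).μ a t - (O i).r a t := fun i a =>
    dn_sub ((hO i).dnμ a) ((hO i).dnr a)
  have e1 : ∀ a t, (datC I O).μ a t - (datC I O).r a t = ∑ i, ((O i).μ a t - (O i).r a t) := by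
    intro a t
    show (∑ i, (O i).μ a t) + I.ν a t - ((∑ i, (O i).r a t) + I.ν a t) = _
    rw [Finset.sum_sub_distrib]
    ring
  unfold Gs.Dat.eR
  have e2 : ∀ a, (∫ t, ((datC I O).μ a t - (datC I O).r a t) *
      ∫ u, ((datC I O).μ a u - (datC I O).r a u) * NUMF.V (t - u)) =
      ∑ i, ∑ j, ∫ t, ((O i).μ a t - (O i).r a t) * ∫ u, ((O j).μ a u - (O j).r a u) * NUMF.V (t - u) := by
    intro a
    have h1 := NUC43.bil_sum (W := NUMF.V) (Finset.univ : Finset (Fin r))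
      (p := fun i t => (O i).μ a t - (O i).r a t) (q := fun i t => (O i).μ a t - (O i).r a t)
      (fun k t => NUC43.V_in (hd k a) t) (fun i k => NUC43.V_out (hd i a) (hd k a))
    rw [← h1]
    refine integral_congr_ae (ae_of_all _ fun t => ?_)
    simp only
    rw [e1]
    congr 2
    funext u
    rw [e1]
  simp_rw [e2]
  rw [Finset.sum_comm]
  refine Finset.sum_congr rfl fun i _ => ?_
  rw [Finset.sum_comm]

/-- **the energy of the differences** -/
theorem eR_le (hc : 0 < c) (hO : ∀ i, (O i).Ok lo hi kd A ε c) (hε : 0 ≤ ε)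
    (hp : ∀ i j, Oc.Pr ε c (O i) (O j)) :
    (datC I O).eR ≤ ε * (Real.exp c * NUDispW.Sd c * win univ (fun i => (O i).h)) := by
  rw [eR_pairs hO]
  have h1 : ∑ i, ∑ j, ∑ a, ∫ t, ((O i).μ a t - (O i).r a t) *
      ∫ u, ((O j).μ a u - (O j).r a u) * NUMF.V (t - u) ≤
      ∑ i, ∑ j, ε * (Real.exp (-(c * |(O i).h|)) * Real.exp (-(c * |(O j).h|))) := by
    refine Finset.sum_le_sum fun i _ => Finset.sum_le_sum fun j _ => (le_abs_self _).trans ?_
    rw [← Real.exp_add, ← sub_eq_add_neg]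
    exact hp i j
  refine h1.trans ?_
  have h2 : ∑ i, ∑ j, ε * (Real.exp (-(c * |(O i).h|)) * Real.exp (-(c * |(O j).h|))) =
      ε * (∑ i, Real.exp (-(c * |(O i).h|))) ^ 2 := by
    rw [sq, Finset.sum_mul_sum, Finset.mul_sum]
    exact Finset.sum_congr rfl fun i _ => by rw [Finset.mul_sum]
  rw [h2]
  exact mul_le_mul_of_nonneg_left (Gs.bins hc Finset.univ fun i => (O i).h) hε

end

/-! ### the instance -/

/-- **the instance of a configuration** -/
def InstCC (B : SeaCB) (Q : Par7) : Prop :=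
  ∃ tc Kd KN : ℝ, 1 ≤ tc ∧ 0 ≤ Kd ∧ 1 ≤ KN ∧ ∀ (kb : ℝ), 1 ≤ kb → ∀ (G : ℕ) (ep : ℝ), 0 < ep →
    ep ≤ 1 / 100 → ∀ e1 : ℝ, 0 < e1 → e1 ≤ 1 / 100 → ∀ (εo : ℝ), 0 ≤ εo → ∀ (k : ℕ) (κ CB A : ℝ), 0 < κ →
    0 ≤ CB → 0 ≤ A → ∃ (A' : ℝ) (J : ℕ), 1 ≤ A' ∧ ∀ x : ℝ, 0 < x → ∃ ϑ N1 : ℝ, 0 < ϑ ∧ 0 ≤ N1 ∧ ∃ m0 : ℕ,
      ∀ [SeaC] [SeaCU B], ∀ m ≥ m0,
      ∀ (I : Inp) (r : ℕ) (O : Fin r → Oc) (g : Fin G → ℝ) (p n : ℕ)
        (aX aY cf B1 : ℝ → ℝ) (T1 D q S : ℝ),
      DatCC B Q A εo ep e1 κ CB ϑ kb k m I O g p n aX aY cf B1 T1 D q S →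
        Gs.Inst (datC I O) tc (KC0 B) p n kb A' κ Kd J m (htC O g) (TW ep e1 m)
          ((1 - e1) * Tb (Real.log m)) ∧
        ∀ T, 0 ≤ T → Gs.NT (datC I O) T + (datC I O).eR ≤
          N1 + (x + KN * (εo + εo ^ 2)) * win univ (fun i => (O i).h) + x * T

/-- sums of exponentials around places -/
lemma bmaj_le_card {ι : Type*} (s : Finset ι) (h : ι → ℝ) {c : ℝ} (hc : 0 ≤ c) (t : ℝ) :
    bmaj s h c t ≤ s.card := by
  unfold bmaj
  refine (Finset.sum_le_card_nsmul _ _ 1 fun i _ => ?_).trans (by simp)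
  rw [Real.exp_le_one_iff]
  have := mul_nonneg hc (abs_nonneg (t - h i))
  linarith


/-- **the instance from the remainder and the moving kernels** -/
theorem instCC (B : SeaCB) {Q : Par7} (hQ : Q.Ok) (hR : RemC B Q) (hK : KdC B Q) : InstCC B Q := by
  obtain ⟨tc, Kg, htc, hKg, Hgeo⟩ := exists_geoC B
  obtain ⟨KR, hKR, HR⟩ := hR
  obtain ⟨Kd, J0, hKd, HK⟩ := hK
  have hSd : 0 ≤ Real.exp Q.c * NUDispW.Sd Q.c := by
    have := Gs.bins hQ.c0 (Finset.univ : Finset (Fin 1)) fun _ => 0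
    have h1 := NUDispW.Sd_pos hQ.c0
    positivity
  refine ⟨tc, 2 * Kd, 1 + 2 * KR + Real.exp Q.c * NUDispW.Sd Q.c, htc, by linarith, by linarith, ?_⟩
  intro kb hkb G ep hep hep1 e1 he he1 εo hεo k κ CB A hκ hCB hA
  have hkd := hQ.kd0
  have hG0 : (0 : ℝ) ≤ G := Nat.cast_nonneg G
  obtain ⟨CB', hCB'⟩ : ∃ CB' : ℝ, CB' = CB * (G + 1) := ⟨_, rfl⟩
  have hCB'0 : 0 ≤ CB' := by rw [hCB']; positivity
  have hCBle : CB ≤ CB' := by
    rw [hCB']
    clear * - hCB hG0
    nlinarith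
  obtain ⟨A', hA'⟩ : ∃ A' : ℝ, A' = 1 + KR * (3 + CB' + εo + kb) + CB + 2 * (Q.kd + A) := ⟨_, rfl⟩
  have hKRp : 0 ≤ KR * (3 + CB' + εo + kb) := by positivity
  have hA'1 : 1 ≤ A' := by rw [hA']; linarith
  obtain ⟨J, hJ⟩ : ∃ J : ℕ, J = max J0 k := ⟨_, rfl⟩
  have hJ0 : J0 ≤ J := by rw [hJ]; exact le_max_left _ _
  have hJk : k ≤ J := by rw [hJ]; exact le_max_right _ _
  refine ⟨A', J, hA'1, ?_⟩
  intro x hx
  obtain ⟨y, hy⟩ : ∃ y : ℝ, y = x / (8 * KR) := ⟨_, rfl⟩
  have hy0 : 0 < y := by rw [hy]; positivity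
  have hyK : KR * y = x / 8 := by
    rw [hy]
    field_simp
  -- numbers
  obtain ⟨m1, hm1⟩ := NUS4.log_pow_small 0 hκ (Kg + KR + Kd)
  obtain ⟨m2, hm2⟩ := NUS4.log_pow_small k hκ 1
  obtain ⟨m3, hm3⟩ := NUS4.log_pow_small (2 * k + 1) (show 0 < 2 * κ by positivity) (2 / y + 2)
  obtain ⟨m4, hm4⟩ := NUS4.log_pow_small (2 * k) (show (0 : ℝ) < 1 by norm_num) (8 * kb / y + 4)
  obtain ⟨m5, hm5⟩ := NUO.log_large 1
  refine ⟨x / 80, 2 * KR * (2 + CB' ^ 2) + 10 * CB + x, by positivity, by positivity,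
    max (max (max m1 m2) (max m3 m4)) (max m5 3), ?_⟩
  intro _ _ m hm I r O g p n aX aY cf B1 T1 D q S hD
  have hM1 : m1 ≤ m := (le_max_left _ _).trans ((le_max_left _ _).trans ((le_max_left _ _).trans hm))
  have hM2 : m2 ≤ m := (le_max_right _ _).trans ((le_max_left _ _).trans ((le_max_left _ _).trans hm))
  have hM3 : m3 ≤ m := (le_max_left _ _).trans ((le_max_right _ _).trans ((le_max_left _ _).trans hm))
  have hM4 : m4 ≤ m := (le_max_right _ _).trans ((le_max_right _ _).trans ((le_max_left _ _).trans hm))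
  have hM5 : m5 ≤ m := (le_max_left _ _).trans ((le_max_right _ _).trans hm)
  have hm3' : 3 ≤ m := (le_max_right _ _).trans ((le_max_right _ _).trans hm)
  have hmr : (3:ℝ) ≤ m := by exact_mod_cast hm3'
  have hmp : (0:ℝ) < m := by linarith
  obtain ⟨L, hL⟩ : ∃ L, L = Real.log m := ⟨_, rfl⟩
  have hL1 : 1 ≤ L := by rw [hL]; exact hm5 m hM5
  have hL0 : 0 ≤ L := by linarith
  obtain ⟨z, hz⟩ : ∃ z, z = (m : ℝ) ^ (-κ) := ⟨_, rfl⟩
  have hz0 : 0 ≤ z := by rw [hz]; exact (Real.rpow_pos_of_pos hmp _).le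
  have hz2 : z ^ 2 = (m : ℝ) ^ (-(2 * κ)) := by
    rw [hz, ← Real.rpow_natCast, ← Real.rpow_mul hmp.le]
    congr 1
    push_cast
    ring
  have n1 : (Kg + KR + Kd) * z ≤ 1 := by
    have := hm1 m hM1
    rw [pow_zero, mul_one, ← hz] at this
    exact this
  have n2 : L ^ k * z ≤ 1 := by
    have := hm2 m hM2
    rw [one_mul, ← hz, ← hL] at this
    exact this
  have n3 : (2 / y + 2) * L ^ (2 * k + 1) * z ^ 2 ≤ 1 := by
    have := hm3 m hM3
    rw [← hz2, ← hL] at this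
    exact this
  have n4 : (8 * kb / y + 4) * L ^ (2 * k) * (m : ℝ)⁻¹ ≤ 1 := by
    have := hm4 m hM4
    rw [← hL, Real.rpow_neg_one] at this
    exact this
  obtain ⟨ε, M, e, hok, hε, hM⟩ := hD.ok
  rw [← hz] at hε
  rw [← hL] at hM
  have hεn : 0 ≤ ε := (hok.cur true).ε0
  have hMn : 0 ≤ M := (hok.cur true).M0 B (hok.s0 true)
  have hMe : M * ε ≤ 1 := by
    calc M * ε ≤ L ^ k * z := by gcongr
      _ ≤ 1 := n2
  have hr0 : (0:ℝ) ≤ r := Nat.cast_nonneg r
  have hw0 := win_nonneg (Finset.univ : Finset (Fin r)) (fun i => (O i).h)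
  have hεg : Kg * ε ≤ 1 := by
    calc Kg * ε ≤ (Kg + KR + Kd) * z := by
          have : Kg ≤ Kg + KR + Kd := by linarith
          gcongr
      _ ≤ 1 := n1
  have hεr : KR * ε ≤ 1 := by
    calc KR * ε ≤ (Kg + KR + Kd) * z := by
          have : KR ≤ Kg + KR + Kd := by linarith
          gcongr
      _ ≤ 1 := n1
  have hεk : Kd * ε ≤ 1 := by
    calc Kd * ε ≤ (Kg + KR + Kd) * z := by
          have : Kd ≤ Kg + KR + Kd := by linarith
          gcongr
      _ ≤ 1 := n1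
  have hν : ∀ a t, |I.ν a t| ≤ CB * (bmaj Finset.univ g (5 / 2) t + plt (TW ep e1 m) t) := hD.ν0
  have hνb : ∀ a t, |I.ν a t| ≤ CB' := by
    intro a t
    refine (hν a t).trans ?_
    rw [hCB']
    refine mul_le_mul_of_nonneg_left ?_ hCB
    have h1 := bmaj_le_card (Finset.univ : Finset (Fin G)) g (c := 5 / 2) (by norm_num) t
    rw [Finset.card_univ, Fintype.card_fin] at h1
    have h2 := plt_le (TW ep e1 m) t
    linarith
  have hσ : 0 < (m : ℝ) / 2 := by positivity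
  obtain hrem := HR hok hεr (CB := CB') hσ hD.s1 (fun t => (hD.h1 t).trans hCBle) hνb hD.obj
  have hMs : M / ((m : ℝ) / 2) ≤ 1 := by
    rw [div_le_one hσ]
    have h1 : L ^ k ≤ L ^ (2 * k) := pow_le_pow_right₀ hL1 (by omega)
    have h2 : 4 * L ^ (2 * k) * (m : ℝ)⁻¹ ≤ 1 := by
      refine le_trans ?_ n4
      have : 0 ≤ 8 * kb / y := by positivity
      gcongr
      linarith
    rw [← div_eq_mul_inv, div_le_one hmp] at h2
    linarith
  obtain ⟨k1, k2, k3⟩ := HK hok hεk hσ hD.s1 (O := O)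
  have hKR' : ∀ R : ℝ, 1 ≤ R → Kd * R ^ J0 * ε ≤ 2 * Kd * R ^ J * z := fun R hR => by
    have h1 : R ^ J0 ≤ R ^ J := pow_le_pow_right₀ hR hJ0
    have h2 : 0 ≤ R ^ J0 := by positivity
    calc Kd * R ^ J0 * ε ≤ 2 * Kd * R ^ J0 * z := by
          gcongr
          linarith
      _ ≤ _ := by gcongr
  have hgeo := Hgeo hok hεg (O := O) (fun i a => ((hD.obj i).ext a).mono (by linarith [hQ.w0]) (by linarith [hQ.w0]))
  have hφc : ∀ a, Continuous (phiC I O a) := fun a => (hrem a).1.continuous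
  have hφ1 : ∀ a t, |phiC I O a t| ≤ KR * (3 + CB' + εo + kb) * (r + 1) + CB := by
    intro a t
    refine ((hrem a).2.1 t).trans (add_le_add ?_ (hD.w0 a t))
    have h1 : 1 + CB' + M * ε + (1 + εo + M / ((m : ℝ) / 2)) * r ≤ (3 + CB' + εo + kb) * (r + 1) := by
      clear * - hCB'0 hr0 hεo hkb hMe hMs
      nlinarith [mul_nonneg hCB'0 hr0, mul_nonneg hεo hr0, mul_nonneg (by linarith : (0:ℝ) ≤ kb) hr0]
    calc KR * (1 + CB' + M * ε + (1 + εo + M / ((m : ℝ) / 2)) * r) ≤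
        KR * ((3 + CB' + εo + kb) * (r + 1)) := by gcongr
      _ = _ := by ring
  have hμ1 : ∀ (f : Oc → ℝ → ℝ), (∀ i t, |f (O i) t| ≤ (Q.kd + A * Real.exp (-(Q.c * |(O i).h|))) *
      Real.exp (-(5 / 2) * |t - (O i).h|)) → ∀ t, |∑ i, f (O i) t| ≤
        (Q.kd + A) * bmaj Finset.univ (fun i => (O i).h) (5 / 2) t := by
    intro f hf t
    unfold bmaj
    rw [Finset.mul_sum]
    refine (Finset.abs_sum_le_sum_abs _ _).trans (Finset.sum_le_sum fun i _ => (hf i t).trans ?_)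
    have h1 : Real.exp (-(Q.c * |(O i).h|)) ≤ 1 := Real.exp_le_one_iff.2 (by
      have := mul_nonneg hQ.c0.le (abs_nonneg (O i).h)
      linarith)
    have h2 : Q.kd + A * Real.exp (-(Q.c * |(O i).h|)) ≤ Q.kd + A := by
      clear * - h1 hA
      nlinarith
    have h3 : Real.exp (-(5 / 2) * |t - (O i).h|) = Real.exp (-(5 / 2 * |t - (O i).h|)) := by ring_nf
    rw [h3]
    gcongr
  have hsum : ∀ (f : Bool → Oc → ℝ → ℝ), (∀ a i t, |f a (O i) t| ≤
      (Q.kd + A * Real.exp (-(Q.c * |(O i).h|))) * Real.exp (-(5 / 2) * |t - (O i).h|)) → ∀ a t,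
      |(∑ i, f a (O i) t) + I.ν a t| ≤ A' * (bmaj Finset.univ (htC O g) (5 / 2) t + plt (TW ep e1 m) t) := by
    intro f hf a t
    have h1 := hμ1 (f a) (hf a) t
    have h2 := hν a t
    have b0 : 0 ≤ bmaj Finset.univ (fun i => (O i).h) (5 / 2) t := bmaj_nonneg _ _ _ _
    have b1 : 0 ≤ bmaj Finset.univ g (5 / 2) t := bmaj_nonneg _ _ _ _
    have hp0 := plt_nonneg (TW ep e1 m) t
    have a1 : Q.kd + A ≤ A' := by rw [hA']; linarith
    have a2 : CB ≤ A' := by rw [hA']; linarith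
    have h3 := mul_le_mul_of_nonneg_right a1 b0
    have h4 := mul_le_mul_of_nonneg_right a2 (add_nonneg b1 hp0)
    rw [bmaj_htC]
    refine (abs_add_le _ _).trans ?_
    linarith
  constructor
  · refine
      { pk := hD.pk
        nk := hD.nk
        sk := fun a => hD.s2 a
        geo := ⟨8, hgeo⟩
        st := ⟨inferInstance, inferInstance, rfl⟩
        fld := hD.fld
        reg := regC hok hD.obj hφc fun a => ⟨_, fun t => hφ1 a t⟩
        φd := fun a t => ((hrem a).1.differentiable (by norm_num) t).hasDerivAt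
        φc' := fun a => (hrem a).1.continuous_deriv le_rfl
        φq := fun a t => ?_
        μM := hsum (fun a X t => X.μ a t) (fun a i t => (hD.obj i).μb a t)
        rM := hsum (fun a X t => X.r a t) (fun a i t => (hD.obj i).rb a t)
        dM := fun a t => ?_
        kb := k1
        kp := fun a d t t' => (k2 a d t t').trans ?_
        kc := fun R hR hg a d => ?_ }
    · -- the size of the remainder
      have h1 := hφ1 a t
      show |phiC I O a t| ≤ qc A' (r + G) m ^ 2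
      unfold qc
      rw [← hL]
      push_cast
      have h7 : KR * (3 + CB' + εo + kb) * (r + 1) + CB ≤ A' * (r + G + 1 + L) := by
        have h8 : KR * (3 + CB' + εo + kb) * (r + 1) ≤ KR * (3 + CB' + εo + kb) * (r + G + 1 + L) := by
          gcongr
          linarith
        have h9 : CB ≤ CB * (r + G + 1 + L) := by
          have : 1 ≤ (r : ℝ) + G + 1 + L := by linarith
          clear * - this hCB
          nlinarith
        have h10 : (KR * (3 + CB' + εo + kb) + CB) * (r + G + 1 + L) ≤ A' * (r + G + 1 + L) :=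
          mul_le_mul_of_nonneg_right (by rw [hA']; linarith) (by linarith)
        linarith
      have h11 : 1 ≤ A' * (r + G + 1 + L) := by
        have : 1 ≤ (r : ℝ) + G + 1 + L := by linarith
        clear * - this hA'1
        nlinarith
      clear * - h1 h7 h11
      nlinarith
    · -- the difference of the densities
      show |(∑ i, (O i).μ a t) + I.ν a t - ((∑ i, (O i).r a t) + I.ν a t)| ≤ _
      have h1 := hμ1 (fun X t => X.μ a t) (fun i t => (hD.obj i).μb a t) t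
      have h2 := hμ1 (fun X t => X.r a t) (fun i t => (hD.obj i).rb a t) t
      have b0 : 0 ≤ bmaj Finset.univ (fun i => (O i).h) (5 / 2) t := bmaj_nonneg _ _ _ _
      have b1 : 0 ≤ bmaj Finset.univ g (5 / 2) t := bmaj_nonneg _ _ _ _
      have a1 : 2 * (Q.kd + A) ≤ A' := by rw [hA']; linarith
      have e1 : (∑ i, (O i).μ a t) + I.ν a t - ((∑ i, (O i).r a t) + I.ν a t) =
          (∑ i, (O i).μ a t) - ∑ i, (O i).r a t := by ring
      rw [e1, bmaj_htC]
      refine (abs_sub _ _).trans ?_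
      have h3 := mul_le_mul_of_nonneg_right a1 b0
      have h4 := mul_nonneg (by linarith : 0 ≤ A') b1
      linarith
    · rw [← hz, ← hL]
      have h1 : Kd * ε ≤ 2 * Kd * z := by
        gcongr
        linarith
      have h2 : Kd * (M / ((m : ℝ) / 2)) ≤ 2 * Kd * L ^ J / m := by
        have h3 : L ^ k ≤ L ^ J := pow_le_pow_right₀ hL1 hJk
        have h4 : Kd * (M / ((m : ℝ) / 2)) = 2 * Kd * M / m := by
          field_simp
        rw [h4]
        gcongr
        exact hM.trans h3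
      gcongr
    · rw [← hz] at hg ⊢
      exact (k3 R hR ((hKR' R hR).trans hg) a d).mono (hKR' R hR)
  · intro T hT
    have heR := eR_le (I := I) hQ.c0 hD.obj hεo hD.pr
    obtain ⟨b, hb⟩ : ∃ b, b = (1 - e1) * Tb (Real.log m) := ⟨_, rfl⟩
    rw [← hb] at hrem
    obtain ⟨W, hW⟩ : ∃ W, W = win univ (fun i => (O i).h) := ⟨_, rfl⟩
    have hrW : (r : ℝ) ≤ W := by rw [hW]; exact le_win _
    rw [← hW] at heR hrem hw0 ⊢
    have hb0 : 0 ≤ b := by rw [hb]; exact hok.b0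
    have hb1 : b ≤ L := by
      rw [hb, ← hL]
      unfold Tb
      clear * - hL0 he he1
      nlinarith
    have g1 : (M * ε) ^ 2 * (b + T + 1) ≤ 1 + y / 2 * T := by
      have h3 : (M * ε) ^ 2 ≤ (L ^ k * z) ^ 2 := by gcongr
      have h4 : (L ^ k * z) ^ 2 = L ^ (2 * k) * z ^ 2 := by ring
      have h5 : b + T + 1 ≤ 2 * L + T := by linarith
      have h6 : L ^ (2 * k) * z ^ 2 * (2 * L) ≤ 1 := by
        have h7 : L ^ (2 * k) * z ^ 2 * (2 * L) = 2 * L ^ (2 * k + 1) * z ^ 2 := by ring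
        rw [h7]
        refine le_trans ?_ n3
        have : 0 ≤ 2 / y := by positivity
        gcongr
        linarith
      have h8 : L ^ (2 * k) * z ^ 2 ≤ y / 2 := by
        have h9 : 2 / y * L ^ (2 * k) * z ^ 2 ≤ 1 := by
          refine le_trans ?_ n3
          have h10 : L ^ (2 * k) ≤ L ^ (2 * k + 1) := pow_le_pow_right₀ hL1 (by omega)
          have : 0 ≤ 2 / y := by positivity
          gcongr
          linarith
        have h11 : 2 / y * L ^ (2 * k) * z ^ 2 = (L ^ (2 * k) * z ^ 2) * (2 / y) := by ring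
        rw [h11] at h9
        have h12 := mul_le_mul_of_nonneg_right h9 (by positivity : 0 ≤ y / 2)
        have h13 : L ^ (2 * k) * z ^ 2 * (2 / y) * (y / 2) = L ^ (2 * k) * z ^ 2 := by field_simp
        rw [h13, one_mul] at h12
        exact h12
      have h14 : 0 ≤ b + T + 1 := by linarith
      calc (M * ε) ^ 2 * (b + T + 1) ≤ (L ^ (2 * k) * z ^ 2) * (2 * L + T) := by
            rw [← h4]
            gcongr
        _ = L ^ (2 * k) * z ^ 2 * (2 * L) + L ^ (2 * k) * z ^ 2 * T := by ring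
        _ ≤ 1 + y / 2 * T := add_le_add h6 (mul_le_mul_of_nonneg_right h8 hT)
    have g2 : (r * M / ((m : ℝ) / 2)) ^ 2 ≤ y / 2 * W := by
      have h1 : (r * M / ((m : ℝ) / 2)) ^ 2 = (4 * M ^ 2 * (r / m) * (m : ℝ)⁻¹) * r := by
        field_simp
        ring
      have h2 : (r : ℝ) / m ≤ kb := by
        rw [div_le_iff₀ hmp]
        exact hD.rk
      have h3 : 4 * M ^ 2 * (r / m) * (m : ℝ)⁻¹ ≤ y / 2 := by
        have h4 : M ^ 2 ≤ L ^ (2 * k) := by
          calc M ^ 2 ≤ (L ^ k) ^ 2 := by gcongr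
            _ = _ := by rw [← pow_mul, mul_comm k 2]
        have h5 : 8 * kb / y * L ^ (2 * k) * (m : ℝ)⁻¹ ≤ 1 := by
          refine le_trans ?_ n4
          gcongr
          linarith
        have h6 : 4 * M ^ 2 * (r / m) * (m : ℝ)⁻¹ ≤ 4 * L ^ (2 * k) * kb * (m : ℝ)⁻¹ := by gcongr
        have h7 := mul_le_mul_of_nonneg_right h5 (by positivity : 0 ≤ y / 2)
        have h8 : 8 * kb / y * L ^ (2 * k) * (m : ℝ)⁻¹ * (y / 2) = 4 * L ^ (2 * k) * kb * (m : ℝ)⁻¹ := by
          field_simp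
          ring
        rw [h8, one_mul] at h7
        exact h6.trans h7
      rw [h1]
      calc 4 * M ^ 2 * (r / m) * (m : ℝ)⁻¹ * r ≤ y / 2 * W := by gcongr
        _ = _ := rfl
    have g3 : ε ^ 2 ≤ y / 2 := by
      have h1 : ε ^ 2 ≤ z ^ 2 := by gcongr
      have h2 : 2 / y * z ^ 2 ≤ 1 := by
        refine le_trans ?_ n3
        have h3 : (1 : ℝ) ≤ L ^ (2 * k + 1) := one_le_pow₀ hL1
        have h4 : 0 ≤ 2 / y := by positivity
        have h5 : 2 / y ≤ (2 / y + 2) * L ^ (2 * k + 1) := by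
          clear * - h3 h4
          nlinarith
        gcongr
      have h6 := mul_le_mul_of_nonneg_right h2 (by positivity : 0 ≤ y / 2)
      have h7 : 2 / y * z ^ 2 * (y / 2) = z ^ 2 := by field_simp
      rw [h7, one_mul] at h6
      exact h1.trans h6
    have hN : ∀ a, Gs.Nl (datC I O) T a ≤ KR * (2 + CB' ^ 2 + y / 2 * T + y * W + εo ^ 2 * W) +
        5 * (CB + x / 80 * (T + 1)) := by
      intro a
      refine ((hrem a).2.2 T hT).trans (add_le_add (mul_le_mul_of_nonneg_left ?_ (by linarith)) ?_)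
      · have h1 : (ε ^ 2 + εo ^ 2) * W ≤ y / 2 * W + εo ^ 2 * W := by
          clear * - g3 hw0
          nlinarith
        linarith
      · exact mul_le_mul_of_nonneg_left (hD.w1 a T hT) (by norm_num)
    have h1 := hN true
    have h2 := hN false
    unfold Gs.NT
    have e1 : KR * (2 + CB' ^ 2 + y / 2 * T + y * W + εo ^ 2 * W) =
        KR * (2 + CB' ^ 2) + x / 16 * T + x / 8 * W + KR * (εo ^ 2 * W) := by
      linear_combination (T / 2 + W) * hyK
    rw [e1] at h1 h2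
    have e2 : εo * (Real.exp Q.c * NUDispW.Sd Q.c * W) = Real.exp Q.c * NUDispW.Sd Q.c * εo * W := by ring
    rw [e2] at heR
    have p1 : 0 ≤ Real.exp Q.c * NUDispW.Sd Q.c * εo ^ 2 * W := by positivity
    have p2 : 0 ≤ KR * εo * W := by positivity
    have p3 : 0 ≤ (εo + εo ^ 2) * W := by positivity
    have p4 : 0 ≤ x * W := by positivity
    have p5 : 0 ≤ x * T := by positivity
    have e3 : (x + (1 + 2 * KR + Real.exp Q.c * NUDispW.Sd Q.c) * (εo + εo ^ 2)) * W =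
        x * W + (εo + εo ^ 2) * W + 2 * (KR * εo * W) + 2 * (KR * (εo ^ 2 * W)) +
          Real.exp Q.c * NUDispW.Sd Q.c * εo * W + Real.exp Q.c * NUDispW.Sd Q.c * εo ^ 2 * W := by ring
    rw [e3]
    linarith

/-! ### the crude bound -/

/-- constant of the shells -/
def shK : ℝ := Real.exp (5 / 2) / (1 - Real.exp (-(1 / 20)))

theorem shK_pos : 0 < 1 - Real.exp (-(1 / 20 : ℝ)) := by
  have h : Real.exp (-(1 / 20 : ℝ)) < 1 := by
    rw [Real.exp_lt_one_iff]
    norm_num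
  linarith

theorem shK_nonneg : 0 ≤ shK := by
  have := shK_pos
  unfold shK
  positivity

/-- **the sum over the shells is bounded** -/
theorem shF_leK {ε' D q S T1 T0 : ℝ} (hε : ε' ≤ 1 / 200) (hD : 0 ≤ D) (hq : 49 / 20 ≤ q)
    (hS : D * Real.exp (-(q * T1)) ≤ S) (hT : T1 ≤ T0) :
    shF D q (7 / 3 + 2 * ε') T0 ≤ S * shK := by
  have h2 : D * Real.exp (-q * T0) ≤ S := by
    refine le_trans ?_ hS
    have h3 : Real.exp (-q * T0) ≤ Real.exp (-(q * T1)) := Real.exp_le_exp.2 (by (clear * - hT hq; nlinarith))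
    gcongr
  have h5 : Real.exp (-(q - (7 / 3 + 2 * ε'))) ≤ Real.exp (-(1 / 20)) :=
    Real.exp_le_exp.2 (by linarith)
  have h7 : Real.exp (7 / 3 + 2 * ε') ≤ Real.exp (5 / 2) := Real.exp_le_exp.2 (by linarith)
  have h8 := shK_pos
  have hS0 : 0 ≤ S := le_trans (by positivity) hS
  unfold shF shK
  rw [← mul_div_assoc]
  clear * - hS0 h2 h7 h8 h5
  gcongr

/-- the arithmetic of the exponents -/
theorem arithK {L T' ep e1 δ ε' x x2 C N1 kap W W' S Y R G M0 : ℝ} (hL : 0 ≤ L)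
    (hT' : T' = (1 + 2 * e1 + 2 * ep) * Tb L) (hep : 0 < ep) (hep1 : ep ≤ 1 / 100) (he : 0 < e1)
    (he1 : e1 ≤ 1 / 100) (hε'0 : 0 ≤ ε') (hε' : ε' ≤ δ / 4) (hx0 : 0 ≤ x) (hx : x ≤ δ / 4)
    (hx1 : x ≤ kap / 8) (hx2 : C * x2 ≤ kap / 4) (hW : 0 ≤ W) (hY : Y ≤ S)
    (hW' : W' ≤ 2 * W + 2 * G ^ 2) :
    M0 + ((7 / 3 + 2 * ε') * T' + 12 / 5 * Y + 6 * (R + G) + C * (1 + (N1 + x2 * W)) +
        x * (W' + 1 + L) + 1) ≤
      (C * (1 + N1) + x * (1 + 2 * G ^ 2) + 6 * G + 1) + L * (7 / 8 + 2 * (ep + e1) + δ / 2) +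
        (M0 + 6 * R + 12 / 5 * S + kap * W) := by
  have h1 : (7 / 3 + 2 * ε') * T' ≤ L * (7 / 8 + 2 * (ep + e1) + δ / 4) := by
    rw [hT']
    unfold Tb
    have h2 : (7 / 3 + 2 * ε') * (1 + 2 * e1 + 2 * ep) * (3 / 8) ≤ 7 / 8 + 2 * (ep + e1) + ε' := by
      clear * - hε'0 hep hep1 he he1
      nlinarith
    calc (7 / 3 + 2 * ε') * ((1 + 2 * e1 + 2 * ep) * (3 / 8 * L)) =
        ((7 / 3 + 2 * ε') * (1 + 2 * e1 + 2 * ep) * (3 / 8)) * L := by ring
      _ ≤ (7 / 8 + 2 * (ep + e1) + ε') * L := by (clear * - h2 hL; gcongr)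
      _ ≤ _ := by (clear * - hL hε'; nlinarith)
  have h3 : C * x2 * W ≤ kap / 4 * W := by gcongr
  have h4 : x * W ≤ kap / 8 * W := by gcongr
  have h4' : x * W' ≤ x * (2 * W + 2 * G ^ 2) := by gcongr
  have h5 : x * L ≤ δ / 4 * L := by gcongr
  have h6 : 0 ≤ kap / 2 * W := by
    have : 0 ≤ kap := by (clear * - hx0 hx1; linarith)
    positivity
  clear * - hY h1 h3 h4 h4' h5 h6
  nlinarith

/-- **the crude bound** -/
theorem crudeCC (B : SeaCB) {Q : Par7} (hI : InstCC B Q) {θ c : ℝ} (hc : 0 < c)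
    (hSh : ∀ ε' tc k : ℝ, 0 < ε' → Gs.ShH0 ε' θ c tc k) (hK : Gs.StC (KC0 B) θ c) : CrudeCC B Q := by
  obtain ⟨tc, Kd, KN, htc, hKd, hKN, hInst⟩ := hI
  refine ⟨6, 2, by norm_num, by norm_num, ?_⟩
  intro kb hkb G kap hkap ep hep hep1 e1 he he1 δ hδ
  obtain ⟨ε', hε'⟩ : ∃ ε' : ℝ, ε' = min (1 / 200) (δ / 4) := ⟨_, rfl⟩
  have hε'0 : 0 < ε' := by rw [hε']; exact lt_min (by norm_num) (by positivity)
  have hε'1 : ε' ≤ 1 / 200 := by rw [hε']; exact min_le_left _ _
  have hε'2 : ε' ≤ δ / 4 := by rw [hε']; exact min_le_right _ _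
  obtain ⟨C, hC, HC⟩ := Gs.crude (hSh ε' tc kb hε'0) hK hc (by linarith) hε'0 hε'1
  obtain ⟨x, hx⟩ : ∃ x : ℝ, x = min (kap / 8) (δ / 4) := ⟨_, rfl⟩
  have hx0 : 0 < x := by rw [hx]; exact lt_min (by positivity) (by positivity)
  have hx1 : x ≤ kap / 8 := by rw [hx]; exact min_le_left _ _
  have hx2 : x ≤ δ / 4 := by rw [hx]; exact min_le_right _ _
  obtain ⟨x2, hx2d⟩ : ∃ x2 : ℝ, x2 = min (ε' / (C + 1)) (kap / 8 / (C + 1)) := ⟨_, rfl⟩
  have hC1 : 0 < C + 1 := by linarith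
  have hx20 : 0 < x2 := by rw [hx2d]; exact lt_min (by positivity) (by positivity)
  have hx2a : C * x2 ≤ ε' := by
    have h1 : x2 ≤ ε' / (C + 1) := by rw [hx2d]; exact min_le_left _ _
    rw [le_div_iff₀ hC1] at h1
    clear * - hx20 h1
    nlinarith
  have hx2b : C * x2 ≤ kap / 8 := by
    have h1 : x2 ≤ kap / 8 / (C + 1) := by rw [hx2d]; exact min_le_right _ _
    rw [le_div_iff₀ hC1] at h1
    clear * - hx20 h1
    nlinarith
  have hKNp : 0 < KN := by linarith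
  obtain ⟨εo, hεd⟩ : ∃ εo : ℝ, εo = min 1 (kap / (16 * ((C + 1) * KN))) := ⟨_, rfl⟩
  have hεo : 0 < εo := by rw [hεd]; exact lt_min one_pos (by positivity)
  have hεo1 : εo ≤ 1 := by rw [hεd]; exact min_le_left _ _
  have hεo2 : C * (KN * (εo + εo ^ 2)) ≤ kap / 8 := by
    have h1 : εo ≤ kap / (16 * ((C + 1) * KN)) := by rw [hεd]; exact min_le_right _ _
    rw [le_div_iff₀ (by positivity)] at h1
    have h2 : εo ^ 2 ≤ εo := by
      clear * - hεo hεo1
      nlinarith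
    have h3 : C * (KN * (εo + εo ^ 2)) ≤ (C + 1) * (KN * (εo + εo)) := by
      have : 0 ≤ KN * (εo + εo ^ 2) := by positivity
      have h4 : KN * (εo + εo ^ 2) ≤ KN * (εo + εo) := by gcongr
      calc C * (KN * (εo + εo ^ 2)) ≤ (C + 1) * (KN * (εo + εo ^ 2)) := by
            gcongr
            linarith
        _ ≤ _ := by gcongr
    linarith
  refine ⟨εo, hεo, ?_⟩
  intro k κ CB hκ hCB A hA
  obtain ⟨A', J, hA', hInst⟩ := hInst kb hkb G ep hep hep1 e1 he he1 εo hεo.le k κ CB A hκ hCB hA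
  obtain ⟨m1, HM⟩ := HC Kd CB J hA' hκ hx0
  obtain ⟨ϑ, N1, hϑ, hN1, m2, hI2⟩ := hInst x2 hx20
  refine ⟨ϑ, Real.exp (C * (1 + N1) + x * (1 + 2 * (G : ℝ) ^ 2) + 6 * G + 1) * (1 + shK), hϑ, by
    have := shK_nonneg
    positivity, max (max m1 m2) 3, ?_⟩
  intro _ _ m hm I r O g p n aX aY cf B1 T1 D q S hD
  obtain ⟨i1, i2⟩ := hI2 m ((le_max_right _ _).trans ((le_max_left _ _).trans hm)) I r O g p n aX aY
    cf B1 T1 D q S hD
  have hm3 : 3 ≤ m := (le_max_right _ _).trans hm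
  have hmr : (3:ℝ) ≤ m := by exact_mod_cast hm3
  have hmp : (0:ℝ) < m := by linarith
  obtain ⟨L, hL⟩ : ∃ L, L = Real.log m := ⟨_, rfl⟩
  have hL0 : 0 ≤ L := by rw [hL]; exact Real.log_nonneg (by linarith)
  obtain ⟨T', hT'⟩ : ∃ T', T' = TW ep e1 m := ⟨_, rfl⟩
  have hTW : T' = (1 + 2 * e1 + 2 * ep) * Tb L := by rw [hT', hL]; rfl
  have hT1 : 3 / 8 * L ≤ T' := by
    rw [hTW]
    unfold Tb
    clear * - hep hL0 hep1 he
    nlinarith
  have hT2 : T' ≤ L := by
    rw [hTW]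
    unfold Tb
    clear * - hL0 hep hep1 he1
    nlinarith
  have hb0 : 0 ≤ (1 - e1) * Tb (Real.log m) := by
    rw [← hL]
    unfold Tb
    have : 0 ≤ 1 - e1 := by linarith
    clear * - this hL0
    positivity
  have hb1 : (1 - e1) * Tb (Real.log m) ≤ Real.log m := by
    rw [← hL]
    unfold Tb
    clear * - hL0 hep hep1 he
    nlinarith
  have hT1' : T' + excC T' O ≤ T1 := by
    have := hD.tw
    rwa [← hT'] at this
  obtain ⟨Y, hY⟩ : ∃ Y, Y = T1 - T' := ⟨_, rfl⟩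
  have hY0 : 0 ≤ Y := by
    have := excC_nonneg T' O
    clear * - hT1' hY this
    linarith
  obtain ⟨W, hWd⟩ : ∃ W, W = win univ (fun i => (O i).h) := ⟨_, rfl⟩
  have hw0 := win_nonneg (Finset.univ : Finset (Fin r)) (fun i => (O i).h)
  have hw1 := win_htC O g
  rw [← hWd] at i2 hw0 hw1
  have hq1 := hD.q1
  have key := HM m ((le_max_left _ _).trans ((le_max_left _ _).trans hm)) i1 hb0 hb1 hD.shl hD.c2
    (by linarith) (Y := Y) (by rw [← hT', ← hL]; exact hT1) (by rw [← hT', ← hL]; exact hT2)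
    hY0 (fun i => by
      rw [← hT']
      refine Fin.addCases (fun i => ?_) (fun j => ?_) i
      · unfold htC
        rw [Fin.append_left]
        have := excC_ge T' O i
        clear * - hT1' hY this
        linarith
      · unfold htC
        rw [Fin.append_right]
        have := hD.gs j
        clear * - hY this
        linarith) (N0 := N1 + (x2 + KN * (εo + εo ^ 2)) * W) (e1 := x2) hx2a
    (fun T hT => i2 T (by
      have h1 := T0i_ge (T' := TW ep e1 m) (Y := Y) (r := r + G) (m := m) hA'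
        (by rw [← hL]; exact hL0) hY0
      rw [← hT'] at h1 hT
      clear * - hL0 hT1 hY0 hT h1
      linarith))
  refine key.trans (ENNReal.ofReal_le_ofReal ?_)
  have hT0 : T1 ≤ T0i (TW ep e1 m) Y A' (r + G) m := by
    have h1 := T0i_ge (T' := TW ep e1 m) (Y := Y) (r := r + G) (m := m) hA'
      (by rw [← hL]; exact hL0) hY0
    rw [← hT'] at h1 ⊢
    clear * - hY h1
    linarith
  have hDS := hD.DS
  have hS0 : 0 ≤ S := le_trans (mul_nonneg hD.shl.D0 (Real.exp_pos _).le) hDS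
  have hsh := shF_leK (ε' := ε') hε'1 hD.shl.D0 hq1 hDS hT0
  have hsh0 := shF_nonneg (T0 := T0i (TW ep e1 m) Y A' (r + G) m) hD.shl.D0
    (show 7 / 3 + 2 * ε' < q by linarith)
  have hshC := shK_nonneg
  have hshf : 1 + shF D q (7 / 3 + 2 * ε') (T0i (TW ep e1 m) Y A' (r + G) m) ≤
      (1 + S) * (1 + shK) := by (clear * - hS0 hsh hshC; linarith)
  have hx2c : C * (x2 + KN * (εo + εo ^ 2)) ≤ kap / 4 := by
    rw [mul_add]
    clear * - hx2b hεo2
    linarith
  have har := arithK (M0 := (datC I O).Mp p n + (datC I O).En) (N1 := N1) (R := r) (G := G)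
    (x2 := x2 + KN * (εo + εo ^ 2)) (Y := Y) (S := Y) (W := W) (W' := win univ (htC O g))
    hL0 hTW hep hep1 he he1 hε'0.le hε'2 hx0.le hx2 hx1 hx2c hw0 le_rfl hw1
  have hexp : Real.exp ((datC I O).Mp p n + (datC I O).En +
      ((7 / 3 + 2 * ε') * TW ep e1 m + 12 / 5 * Y + 6 * (r + G : ℕ) +
        C * (1 + (N1 + (x2 + KN * (εo + εo ^ 2)) * W)) +
        x * (win univ (htC O g) + 1 + Real.log m) + 1)) ≤
      Real.exp (C * (1 + N1) + x * (1 + 2 * (G : ℝ) ^ 2) + 6 * G + 1) * ((m : ℝ) ^ (7 / 8 + 2 * (ep + e1) + δ) *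
        Real.exp (confCC ep e1 m I p n 6 kap O T1)) := by
    rw [Real.rpow_def_of_pos hmp, ← Real.exp_add, ← Real.exp_add]
    refine Real.exp_le_exp.2 ?_
    unfold confCC
    rw [← hT', ← hL, ← hWd]
    have h1 : L * (7 / 8 + 2 * (ep + e1) + δ / 2) ≤ L * (7 / 8 + 2 * (ep + e1) + δ) := by gcongr; linarith
    rw [← hY]
    push_cast
    clear * - har h1
    linarith
  calc (p.factorial : ℝ) * n.factorial * Real.exp ((datC I O).Mp p n + (datC I O).En +
      ((7 / 3 + 2 * ε') * TW ep e1 m + 12 / 5 * Y + 6 * (r + G : ℕ) +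
        C * (1 + (N1 + (x2 + KN * (εo + εo ^ 2)) * W)) +
        x * (win univ (htC O g) + 1 + Real.log m) + 1)) *
      (1 + shF D q (7 / 3 + 2 * ε') (T0i (TW ep e1 m) Y A' (r + G) m))
      ≤ (p.factorial : ℝ) * n.factorial * (Real.exp (C * (1 + N1) + x * (1 + 2 * (G : ℝ) ^ 2) + 6 * G + 1) *
        ((m : ℝ) ^ (7 / 8 + 2 * (ep + e1) + δ) *
        Real.exp (confCC ep e1 m I p n 6 kap O T1))) * ((1 + S) * (1 + shK)) := by
        (clear * - hexp hshf hsh0; gcongr)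
    _ = _ := by ring

end PLT.Cv

end
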