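import Pool.Agent.PLT.Real8

/-!
# The energy of the two line system in real space (helper38)

Objects with the constituents `C K`, densities `ρ a` of charge at the offsets `v a t ∈ [0, d]`, total charge zero.

* `RI x F`: `x` is the integral of `F` over the positive frequencies; `RI_Dr`, `RI_EL`, `RI_WK`: direct energies, objects
  against densities, densities;
* `EnR`: the energy with the singularity of the quanta moved by `δ`; `NumC`: its integrand; **`EnR_RI`**;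
  `EnR_lim`: `δ → 0`;
* **`int8_gen`**: `c0 W2 ≤ EnR .. 0`.
-/

set_option autoImplicit false

noncomputable section

open Finset MeasureTheory Set Filter
open scoped ComplexConjugate Topology

namespace PLT

open PHK NUP1 NUO NUDispO Pool.Agent.NUM3
open NUMF (sk sk_pos)

/-! ### numbers with an integral representation -/

/-- `x` is the integral of `F` over the positive frequencies -/
def RI (x : ℝ) (F : ℝ → ℝ) : Prop := IntegrableOn F (Ioi 0) ∧ x = ∫ k in Ioi (0:ℝ), F k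

theorem RI.add {x y : ℝ} {F G : ℝ → ℝ} (h : RI x F) (h' : RI y G) : RI (x + y) (fun k => F k + G k) :=
  ⟨h.1.add h'.1, by rw [h.2, h'.2]; exact (integral_add h.1 h'.1).symm⟩

theorem RI.smul {x : ℝ} {F : ℝ → ℝ} (c : ℝ) (h : RI x F) : RI (c * x) (fun k => c * F k) :=
  ⟨h.1.const_mul c, by rw [h.2, ← integral_const_mul]⟩

theorem RI.sum {ι : Type*} (s : Finset ι) {x : ι → ℝ} {F : ι → ℝ → ℝ} (h : ∀ i ∈ s, RI (x i) (F i)) :
    RI (∑ i ∈ s, x i) (fun k => ∑ i ∈ s, F i k) := by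
  refine ⟨integrable_finsetSum _ fun i hi => (h i hi).1, ?_⟩
  rw [integral_finsetSum _ fun i hi => (h i hi).1]
  exact Finset.sum_congr rfl fun i hi => (h i hi).2

theorem RI.congr {x : ℝ} {F G : ℝ → ℝ} (h : RI x F) (hF : ∀ k, 0 < k → G k = F k) : RI x G :=
  ⟨h.1.congr_fun (fun k hk => (hF k hk).symm) measurableSet_Ioi,
    h.2.trans (setIntegral_congr_fun measurableSet_Ioi fun k hk => (hF k hk).symm)⟩

/-! ### the three parts -/

variable {d : ℝ} {ρ v : Bool → ℝ → ℝ}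

/-- objects -/
abbrev Cn : Type := Kd6 → List ((Bool × Bool × ℝ) × ℤ)

theorem RI_Dr (n : ℕ) (C : Cn) {r : ℕ} (O : Fin r → Xo) :
    RI (∑ i, ∑ j, DrC n (sp (O i) == sp (O j)) (C (k6 (O i))) (C (k6 (O j))) (ht (O i) - ht (O j)))
      (fun k => ∑ i, ∑ j, (-(2 * sgn (sp (O i) == sp (O j)) * (qL (C (k6 (O i))) * qL (C (k6 (O j))))) / (k * sk k) -
        -(DC n (sp (O i) == sp (O j)) (C (k6 (O i))) (C (k6 (O j))) (l * k) / (k * sk k)) *
          Real.cos (k * (ht (O i) - ht (O j))))) :=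
  RI.sum _ fun _ _ => RI.sum _ fun _ _ => DrC_CF n _ _ _ _

theorem Dn.sh (h : Dn d ρ v) (a : Bool) (T : ℝ) : Integrable fun t => ρ a t * (1 + (t - T) ^ 2) := by
  have h1 : Integrable fun t => (2 * (1 + T ^ 2)) * (ρ a t * (1 + t ^ 2)) := (h.ri a).const_mul _
  refine h1.mono ?_ (Filter.Eventually.of_forall fun t => ?_)
  · exact ((h.rm a).mul (((measurable_id.sub_const T).pow_const 2).const_add 1)).aestronglyMeasurable
  · rw [norm_mul, norm_mul (2 * (1 + T ^ 2)), norm_mul (ρ a t), Real.norm_eq_abs (1 + (t - T) ^ 2),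
      Real.norm_eq_abs (1 + t ^ 2),
      Real.norm_eq_abs (2 * (1 + T ^ 2)), abs_of_nonneg (by positivity : (0:ℝ) ≤ 1 + (t - T) ^ 2),
      abs_of_nonneg (by positivity : (0:ℝ) ≤ 1 + t ^ 2), abs_of_nonneg (by positivity : (0:ℝ) ≤ 2 * (1 + T ^ 2))]
    have h2 : 1 + (t - T) ^ 2 ≤ (2 * (1 + T ^ 2)) * (1 + t ^ 2) := by
      nlinarith [sq_nonneg (t + T), sq_nonneg t, sq_nonneg T, mul_nonneg (sq_nonneg t) (sq_nonneg T)]
    calc ‖ρ a t‖ * (1 + (t - T) ^ 2) ≤ ‖ρ a t‖ * ((2 * (1 + T ^ 2)) * (1 + t ^ 2)) :=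
          mul_le_mul_of_nonneg_left h2 (norm_nonneg _)
      _ = _ := by ring

/-- **an object against the densities** -/
theorem RI_EL (h : Dn d ρ v) {ε : ℝ} (hε : 0 < ε) (hε4 : ε ≤ 4) {σ : Bool} {A : List ((Bool × Bool × ℝ) × ℤ)}
    (hR : Rm ε d σ A) (a : Bool) (T : ℝ) :
    RI (∫ t, ρ a t * EL σ A (cA8 (v a t)) (t - T))
      (fun k => (2 * sgn σ * qL A * (∫ t, ρ a t) -
        ∫ t, ρ a t * (DV σ A (cA8 (v a t)) (l * k) * Real.cos (k * (t - T)))) / (k * sk k)) := by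
  obtain ⟨B, hB⟩ := EL_UC hε hε4 hR
  have key := hB.fub (μ := (volume : Measure ℝ)) hε (w := ρ a) (v := v a) (τ := fun t => t - T) (h.sh a T)
    (h.rm a).aestronglyMeasurable (h.vm a) (measurable_id.sub_const T) (h.vr a)
  exact ⟨key.2.1, key.2.2⟩

theorem mem_diff' (h : Dn d ρ v) (a b : Bool) (p : ℝ × ℝ) : v b p.2 - v a p.1 ∈ {x : ℝ | |x| ≤ d} := by
  have h1 := h.vr a p.1
  have h2 := h.vr b p.2
  show |v b p.2 - v a p.1| ≤ d
  rw [abs_le]
  constructor <;> linarith [h1.1, h1.2, h2.1, h2.2]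

/-- **the densities** -/
theorem RI_WK (h : Dn d ρ v) (hd1 : d ≤ 1 / 2) {δ : ℝ} (h0 : 0 < δ) (h1 : δ ≤ 1) (a b : Bool) :
    RI (∫ p : ℝ × ℝ, ρ a p.1 * ρ b p.2 * WK δ (a == b) (v b p.2 - v a p.1) (p.1 - p.2))
      (fun k => (2 * sgn (a == b) * ((∫ t, ρ a t) * ∫ t, ρ b t) - Rf ρ v k a b (kq δ (l * k) (a == b))) /
        (k * sk k)) := by
  obtain ⟨B, hB⟩ := WK_UC hd1 h0 h1 (a == b)
  have key := hB.fub (μ := (volume : Measure (ℝ × ℝ))) (lt_min h0 (by norm_num))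
    (w := fun p => ρ a p.1 * ρ b p.2) (v := fun p => v b p.2 - v a p.1) (τ := fun p => p.1 - p.2)
    (h.pair a b) (h.pair0 a b).1 (((h.vm b).comp measurable_snd).sub ((h.vm a).comp measurable_fst))
    (measurable_fst.sub measurable_snd) (mem_diff' h a b)
  have e1 : ∫ p : ℝ × ℝ, ρ a p.1 * ρ b p.2 = (∫ t, ρ a t) * ∫ t, ρ b t := by
    rw [Measure.volume_eq_prod]
    exact integral_prod_mul (ρ a) (ρ b)
  have e2 : ∀ k : ℝ, ∫ p : ℝ × ℝ, ρ a p.1 * ρ b p.2 * (WS δ (a == b) (v b p.2 - v a p.1) (l * k) *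
      Real.cos (k * (p.1 - p.2))) = Rf ρ v k a b (kq δ (l * k) (a == b)) := by
    intro k
    unfold Rf
    refine integral_congr_ae (Filter.Eventually.of_forall fun p => ?_)
    simp only
    rw [WK_symb hd1 h0.le h1 (a == b) (h.vr a p.1) (h.vr b p.2)]
  obtain ⟨_, k2, k3⟩ := key
  simp only [e1, e2] at k2 k3
  exact ⟨k2, k3⟩

/-! ### the energy -/

/-- **the energy**, singularity of the quanta moved by `δ` -/
def EnR (n : ℕ) (C : Cn) (ρ v : Bool → ℝ → ℝ) {r : ℕ} (O : Fin r → Xo) (δ : ℝ) : ℝ :=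
  (∑ i, ∑ j, DrC n (sp (O i) == sp (O j)) (C (k6 (O i))) (C (k6 (O j))) (ht (O i) - ht (O j))) +
    -2 * (∑ i, ∑ a, ∫ t, ρ a t * EL (sp (O i) == a) (C (k6 (O i))) (cA8 (v a t)) (t - ht (O i))) +
    -1 * ∑ a, ∑ b, ∫ p : ℝ × ℝ, ρ a p.1 * ρ b p.2 * WK δ (a == b) (v b p.2 - v a p.1) (p.1 - p.2)

/-- its integrand, in units `1 / (k sinh)` -/
def NumC (n : ℕ) (C : Cn) (ρ v : Bool → ℝ → ℝ) {r : ℕ} (O : Fin r → Xo) (δ k : ℝ) : ℝ :=
  ∑ i, ∑ j, DC n (sp (O i) == sp (O j)) (C (k6 (O i))) (C (k6 (O j))) (l * k) *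
      Real.cos (k * (ht (O i) - ht (O j))) +
    2 * (∑ i, ∑ a, ∫ t, ρ a t * (DV (sp (O i) == a) (C (k6 (O i))) (cA8 (v a t)) (l * k) *
      Real.cos (k * (t - ht (O i))))) +
    ∑ a, ∑ b, Rf ρ v k a b (kq δ (l * k) (a == b))

theorem EnR_RI (h : Dn d ρ v) (hd1 : d ≤ 1 / 2) {ε : ℝ} (hε : 0 < ε) (hε4 : ε ≤ 4) {C : Cn}
    (hR : ∀ σ K, Rm ε d σ (C K)) (n : ℕ) {r : ℕ} (O : Fin r → Xo)
    (hN : ∑ i, sg6 (sp (O i)) * qL (C (k6 (O i))) + ∑ a, sg6 a * ∫ t, ρ a t = 0) {δ : ℝ} (h0 : 0 < δ) (h1 : δ ≤ 1) :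
    RI (EnR n C ρ v O δ) (fun k => NumC n C ρ v O δ k / (k * sk k)) := by
  have p1 := RI_Dr n C O
  have p2 := RI.smul (-2) (RI.sum univ fun i _ => RI.sum univ fun a _ =>
    RI_EL h hε hε4 (hR (sp (O i) == a) (k6 (O i))) a (ht (O i)))
  have p3 := RI.smul (-1) (RI.sum univ fun a _ => RI.sum univ fun b _ => RI_WK h hd1 h0 h1 a b)
  refine ((p1.add p2).add p3).congr fun k hk => ?_
  set D : ℝ := k * sk k with hD
  set X : ℝ := ∑ i, sg6 (sp (O i)) * qL (C (k6 (O i))) with hX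
  set Y : ℝ := ∑ a, sg6 a * ∫ t, ρ a t with hY
  have s1 : ∑ i, ∑ j, 2 * sgn (sp (O i) == sp (O j)) * (qL (C (k6 (O i))) * qL (C (k6 (O j)))) = 2 * (X * X) := by
    rw [hX, Finset.sum_mul_sum, Finset.mul_sum]
    refine Finset.sum_congr rfl fun i _ => ?_
    rw [Finset.mul_sum]
    refine Finset.sum_congr rfl fun j _ => ?_
    rw [sgn_same]
    ring
  have s2 : ∑ i, ∑ a, 2 * sgn (sp (O i) == a) * qL (C (k6 (O i))) * (∫ t, ρ a t) = 2 * (X * Y) := by
    rw [hX, hY, Finset.sum_mul_sum, Finset.mul_sum]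
    refine Finset.sum_congr rfl fun i _ => ?_
    rw [Finset.mul_sum]
    refine Finset.sum_congr rfl fun j _ => ?_
    rw [sgn_same]
    ring
  have s3 : ∑ a : Bool, ∑ b : Bool, 2 * sgn (a == b) * ((∫ t, ρ a t) * ∫ t, ρ b t) = 2 * (Y * Y) := by
    rw [hY, Finset.sum_mul_sum, Finset.mul_sum]
    refine Finset.sum_congr rfl fun i _ => ?_
    rw [Finset.mul_sum]
    refine Finset.sum_congr rfl fun j _ => ?_
    rw [sgn_same]
    ring
  have t1 : ∑ i, ∑ j, (-(2 * sgn (sp (O i) == sp (O j)) * (qL (C (k6 (O i))) * qL (C (k6 (O j))))) / D -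
        -(DC n (sp (O i) == sp (O j)) (C (k6 (O i))) (C (k6 (O j))) (l * k) / D) *
          Real.cos (k * (ht (O i) - ht (O j)))) =
      (∑ i, ∑ j, DC n (sp (O i) == sp (O j)) (C (k6 (O i))) (C (k6 (O j))) (l * k) *
        Real.cos (k * (ht (O i) - ht (O j))) - 2 * (X * X)) / D := by
    rw [← s1, ← Finset.sum_sub_distrib, Finset.sum_div]
    refine Finset.sum_congr rfl fun i _ => ?_
    rw [← Finset.sum_sub_distrib, Finset.sum_div]
    refine Finset.sum_congr rfl fun j _ => ?_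
    ring
  have t2 : ∑ i, ∑ a, (2 * sgn (sp (O i) == a) * qL (C (k6 (O i))) * (∫ t, ρ a t) -
        ∫ t, ρ a t * (DV (sp (O i) == a) (C (k6 (O i))) (cA8 (v a t)) (l * k) *
          Real.cos (k * (t - ht (O i))))) / D =
      (2 * (X * Y) - ∑ i, ∑ a, ∫ t, ρ a t * (DV (sp (O i) == a) (C (k6 (O i))) (cA8 (v a t)) (l * k) *
          Real.cos (k * (t - ht (O i))))) / D := by
    rw [← s2, ← Finset.sum_sub_distrib, Finset.sum_div]
    refine Finset.sum_congr rfl fun i _ => ?_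
    rw [← Finset.sum_sub_distrib, Finset.sum_div]
  have t3 : ∑ a : Bool, ∑ b : Bool, (2 * sgn (a == b) * ((∫ t, ρ a t) * ∫ t, ρ b t) -
        Rf ρ v k a b (kq δ (l * k) (a == b))) / D =
      (2 * (Y * Y) - ∑ a : Bool, ∑ b : Bool, Rf ρ v k a b (kq δ (l * k) (a == b))) / D := by
    rw [← s3, ← Finset.sum_sub_distrib, Finset.sum_div]
    refine Finset.sum_congr rfl fun i _ => ?_
    rw [← Finset.sum_sub_distrib, Finset.sum_div]
  rw [t1, t2, t3]
  unfold NumC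
  have hXY : 2 * (X * X) + 2 * (2 * (X * Y)) + 2 * (Y * Y) = 0 := by
    have : X + Y = 0 := hN
    have e : Y = -X := by linarith
    rw [e]
    ring
  linear_combination (1 / D) * hXY

/-! ### the singularity goes back -/

theorem meas_sn {α : Type*} [MeasurableSpace α] {f g : α → ℝ} (hf : Measurable f) (hg : Measurable g) :
    Measurable fun q => sn (f q) (g q) := by
  have e : (fun q => sn (f q) (g q)) = fun q => Real.log (Real.sin (f q * l) ^ 2 + Real.sinh (g q) ^ 2) / 2 := by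
    funext q
    exact sn_eq (f q) (g q)
  rw [e]
  exact (Real.measurable_log.comp (((Real.measurable_sin.comp (hf.mul_const l)).pow_const 2).add
    ((Real.measurable_sinh.comp hg).pow_const 2))).div_const 2

theorem meas_WK {α : Type*} [MeasurableSpace α] {f g : α → ℝ} (hf : Measurable f) (hg : Measurable g) (δ : ℝ)
    (s : Bool) : Measurable fun q => WK δ s (f q) (g q) := by
  have hs : ∀ c : ℝ, Measurable fun q => sn (f q + c) (g q) := fun c => meas_sn (hf.add_const c) hg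
  have ha : Measurable fun q => sn (|f q| + δ) (g q) := meas_sn ((measurable_norm.comp hf).add_const δ) hg
  cases s
  · simp only [WK, Lc, Bool.false_eq_true, if_false, List.map_cons, List.map_nil, List.sum_cons, List.sum_nil,
      add_zero]
    exact ((hs _).const_mul _).add (((hs _).const_mul _).add ((hs _).const_mul _))
  · simp only [WK, Lr, if_true, List.map_cons, List.map_nil, List.sum_cons, List.sum_nil, add_zero]
    exact (ha.const_mul _).add (((hs _).const_mul _).add (((hs _).const_mul _).add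
      (((hs _).const_mul _).add ((hs _).const_mul _))))

theorem abs_WK_le (δ : ℝ) (s : Bool) (x : ℝ) {t : ℝ} (ht : t ≠ 0) : |WK δ s x t| ≤ 6 * lb t := by
  have hs : ∀ y : ℝ, -lb t ≤ sn y t ∧ sn y t ≤ lb t := fun y => abs_le.1 (abs_sn_le y ht)
  cases s
  · simp only [WK, Lc, Bool.false_eq_true, if_false, List.map_cons, List.map_nil, List.sum_cons, List.sum_nil,
      add_zero]
    push_cast
    rw [abs_le]
    constructor <;> linarith [(hs (x + 4)).1, (hs (x + 3)).1, (hs (x + -3)).1, (hs (x + 4)).2, (hs (x + 3)).2,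
      (hs (x + -3)).2]
  · simp only [WK, Lr, if_true, List.map_cons, List.map_nil, List.sum_cons, List.sum_nil, add_zero]
    push_cast
    rw [abs_le]
    constructor <;> linarith [(hs (|x| + δ)).1, (hs (|x| + δ)).2, (hs (x + 2)).1, (hs (x + -2)).1, (hs (x + 1)).1,
      (hs (x + -1)).1, (hs (x + 2)).2, (hs (x + -2)).2, (hs (x + 1)).2, (hs (x + -1)).2]

theorem sn_lim (x : ℝ) {t : ℝ} (ht : t ≠ 0) : Tendsto (fun n => sn (x + dl n) t) atTop (𝓝 (sn x t)) := by
  have h1 : ContinuousAt (fun y : ℝ => sn y t) x := by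
    have e : (fun y : ℝ => sn y t) = fun y => Real.log (Real.sin (y * l) ^ 2 + Real.sinh t ^ 2) / 2 := by
      funext y
      exact sn_eq y t
    rw [e]
    have hpos : Real.sin (x * l) ^ 2 + Real.sinh t ^ 2 ≠ 0 := by
      have : Real.sinh t ≠ 0 := fun h => ht (Real.sinh_eq_zero.1 h)
      positivity
    have hc : Continuous fun y : ℝ => Real.sin (y * l) ^ 2 + Real.sinh t ^ 2 := by fun_prop
    exact (hc.continuousAt.log hpos).div_const 2
  have h2 : Tendsto (fun n => x + dl n) atTop (𝓝 x) := by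
    have := (tendsto_const_nhds (x := x)).add dl_lim
    rwa [add_zero] at this
  exact h1.tendsto.comp h2

theorem WK_lim (s : Bool) (x : ℝ) {t : ℝ} (ht : t ≠ 0) :
    Tendsto (fun n => WK (dl n) s x t) atTop (𝓝 (WK 0 s x t)) := by
  cases s
  · exact tendsto_const_nhds
  · have h1 := sn_lim |x| ht
    simp only [WK, if_true, add_zero]
    exact (h1.const_mul 2).add tendsto_const_nhds

theorem pair_lim (h : Dn d ρ v) (hL : Lg ρ) (a b : Bool) :
    Tendsto (fun n => ∫ p : ℝ × ℝ, ρ a p.1 * ρ b p.2 * WK (dl n) (a == b) (v b p.2 - v a p.1) (p.1 - p.2)) atTop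
      (𝓝 (∫ p : ℝ × ℝ, ρ a p.1 * ρ b p.2 * WK 0 (a == b) (v b p.2 - v a p.1) (p.1 - p.2))) := by
  by_cases hab : a = b
  · subst hab
    refine tendsto_integral_of_dominated_convergence
      (fun p => 6 * ‖ρ a p.1 * ρ a p.2 * lb (p.1 - p.2)‖) (fun n => ?_) ((hL a).norm.const_mul 6) (fun n => ?_) ?_
    · exact ((((h.rm a).comp measurable_fst).mul ((h.rm a).comp measurable_snd)).mul
        (meas_WK (((h.vm a).comp measurable_snd).sub ((h.vm a).comp measurable_fst))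
          (measurable_fst.sub measurable_snd) _ _)).aestronglyMeasurable
    · filter_upwards [ae_ne] with p hp
      rw [norm_mul, norm_mul (ρ a p.1 * ρ a p.2)]
      have h1 := abs_WK_le (dl n) (a == a) (v a p.2 - v a p.1) hp
      have h2 : lb (p.1 - p.2) ≤ ‖lb (p.1 - p.2)‖ := le_abs_self _
      rw [Real.norm_eq_abs (WK _ _ _ _)]
      calc _ ≤ ‖ρ a p.1 * ρ a p.2‖ * (6 * ‖lb (p.1 - p.2)‖) :=
            mul_le_mul_of_nonneg_left (h1.trans (by linarith)) (norm_nonneg _)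
        _ = _ := by ring
    · filter_upwards [ae_ne] with p hp
      exact (WK_lim _ _ hp).const_mul _
  · have e : (a == b) = false := by simpa using hab
    rw [e]
    exact tendsto_const_nhds

/-- **limit of the energies** -/
theorem EnR_lim (h : Dn d ρ v) (hL : Lg ρ) (n : ℕ) (C : Cn) {r : ℕ} (O : Fin r → Xo) :
    Tendsto (fun m => EnR n C ρ v O (dl m)) atTop (𝓝 (EnR n C ρ v O 0)) := by
  unfold EnR
  refine tendsto_const_nhds.add (Tendsto.const_mul _ ?_)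
  exact tendsto_finsetSum _ fun a _ => tendsto_finsetSum _ fun b _ => pair_lim h hL a b

/-! ### the bound -/

/-- **the energy of objects and densities**, general constituents -/
theorem int8_gen (h : Dn d ρ v) (hd : 0 < d) (hd1 : d ≤ 1 / 2) (hL : Lg ρ) {ε : ℝ} (hε : 0 < ε) (hε4 : ε ≤ 4) {C : Cn}
    (hR : ∀ σ K, Rm ε d σ (C K)) {n : ℕ} {F : ℝ → F8} (hF : ∀ z, 0 < z → (F z).Nn)
    (ha : ∀ z, 0 < z → ∀ σ K b, (F z).a σ K b = DV σ (C K) (cA8 (ln8 d b)) z)
    (hu : ∀ z, 0 < z → ∀ σ b b', (F z).u σ b b' = DV σ (cA8 (ln8 d b)) (cA8 (ln8 d b')) z)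
    (hD : ∀ z, 0 < z → ∀ σ K K', (F z).D σ K K' = DC n σ (C K) (C K') z)
    {κ : Bool → Kd6 → Kd6 → ℝ → ℝ} {c0 : ℝ}
    (hN : ∀ k, 0 < k → ∀ σ K K', (F (l * k)).N σ K K' = k * sk k * κ σ K K' k)
    (hκ : ∀ σ K K', IntegrableOn (κ σ K K') (Ioi 0))
    (hκ0 : ∀ σ K K' x, 0 ≤ ∫ k in Ioi (0:ℝ), κ σ K K' k * Real.cos (k * x))
    (hκ1 : ∀ σ K K' x, |x| ≤ 1 → c0 ≤ ∫ k in Ioi (0:ℝ), κ σ K K' k * Real.cos (k * x))
    {r : ℕ} (O : Fin r → Xo)
    (hn : ∑ i, sg6 (sp (O i)) * qL (C (k6 (O i))) + ∑ a, sg6 a * ∫ t, ρ a t = 0) :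
    c0 * W2 univ (fun i => ⌊ht (O i)⌋) ≤ EnR n C ρ v O 0 := by
  have hi : ∀ i j, IntegrableOn (fun k => κ (sp (O i) == sp (O j)) (k6 (O i)) (k6 (O j)) k *
      Real.cos (k * (ht (O i) - ht (O j)))) (Ioi 0) := fun i j => int_cos (hκ _ _ _) _
  have e3 : c0 * W2 univ (fun i => ⌊ht (O i)⌋) ≤
      ∑ i, ∑ j, ∫ k in Ioi (0:ℝ), κ (sp (O i) == sp (O j)) (k6 (O i)) (k6 (O j)) k *
        Real.cos (k * (ht (O i) - ht (O j))) := by
    unfold W2
    rw [Finset.mul_sum]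
    refine Finset.sum_le_sum fun i _ => ?_
    rw [Finset.mul_sum]
    refine Finset.sum_le_sum fun j _ => ?_
    split_ifs with hij
    · rw [mul_one]
      exact hκ1 _ _ _ _ (Int.abs_sub_lt_one_of_floor_eq_floor hij).le
    · rw [mul_zero]
      exact hκ0 _ _ _ _
  have e4 : ∑ i, ∑ j, ∫ k in Ioi (0:ℝ), κ (sp (O i) == sp (O j)) (k6 (O i)) (k6 (O j)) k *
        Real.cos (k * (ht (O i) - ht (O j))) =
      ∫ k in Ioi (0:ℝ), ∑ i, ∑ j, κ (sp (O i) == sp (O j)) (k6 (O i)) (k6 (O j)) k *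
        Real.cos (k * (ht (O i) - ht (O j))) := by
    rw [integral_finsetSum _ fun i _ => integrable_finsetSum _ fun j _ => hi i j]
    refine Finset.sum_congr rfl fun i _ => ?_
    rw [integral_finsetSum _ fun j _ => hi i j]
  have i4 : IntegrableOn (fun k => ∑ i, ∑ j, κ (sp (O i) == sp (O j)) (k6 (O i)) (k6 (O j)) k *
        Real.cos (k * (ht (O i) - ht (O j)))) (Ioi 0) :=
    integrable_finsetSum _ fun i _ => integrable_finsetSum _ fun j _ => hi i j
  have hd1' : d ≤ 1 := by linarith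
  have step : ∀ m : ℕ, c0 * W2 univ (fun i => ⌊ht (O i)⌋) ≤
      EnR n C ρ v O (dl m) + ∫ k in Ioi (0:ℝ), er8 ρ v d (dl m) k := by
    intro m
    obtain ⟨iE, eE⟩ := EnR_RI h hd1 hε hε4 hR n O hn (dl_pos m) (dl_le m)
    have iR := er8_int h hd hd1' hL (dl_pos m).le (dl_le m)
    refine e3.trans ?_
    rw [e4, eE, ← integral_add iE iR]
    refine setIntegral_mono_on i4 (iE.add iR) measurableSet_Ioi fun k hk => ?_
    have hk0 : (0:ℝ) < k := hk
    have hs : 0 < k * sk k := mul_pos hk0 (sk_pos hk0)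
    have hz : 0 < l * k := mul_pos l_pos8 hk0
    have hf := frq8 (hF (l * k) hz) (C := C) hz hd hd1' (fun σ K => (hR σ K).nwl hε.le) (ha _ hz) (hu _ hz) h O k
      (dl_le m)
    have e5 : ∑ i, ∑ j, (F (l * k)).N (sp (O i) == sp (O j)) (k6 (O i)) (k6 (O j)) *
        Real.cos (k * (ht (O i) - ht (O j))) =
        (k * sk k) * ∑ i, ∑ j, κ (sp (O i) == sp (O j)) (k6 (O i)) (k6 (O j)) k *
          Real.cos (k * (ht (O i) - ht (O j))) := by
      rw [Finset.mul_sum]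
      refine Finset.sum_congr rfl fun i _ => ?_
      rw [Finset.mul_sum]
      refine Finset.sum_congr rfl fun j _ => ?_
      rw [hN k hk0]
      ring
    have e6 : ∑ i, ∑ j, (F (l * k)).D (sp (O i) == sp (O j)) (k6 (O i)) (k6 (O j)) *
        Real.cos (k * (ht (O i) - ht (O j))) =
        ∑ i, ∑ j, DC n (sp (O i) == sp (O j)) (C (k6 (O i))) (C (k6 (O j))) (l * k) *
          Real.cos (k * (ht (O i) - ht (O j))) :=
      Finset.sum_congr rfl fun i _ => Finset.sum_congr rfl fun j _ => by rw [hD _ hz]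
    rw [e5, e6] at hf
    unfold er8
    rw [← add_div, le_div_iff₀ hs, mul_comm]
    exact hf
  have hlim : Tendsto (fun m => EnR n C ρ v O (dl m) + ∫ k in Ioi (0:ℝ), er8 ρ v d (dl m) k) atTop
      (𝓝 (EnR n C ρ v O 0 + 0)) := (EnR_lim h hL n C O).add (er8_lim h hd hd1' hL)
  rw [add_zero] at hlim
  exact ge_of_tendsto' hlim step

end PLT

end
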