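import Pool.Agent.PLT.Err8
import Pool.Agent.NUC43.Cfg

/-!
# The logarithmic condition for exponentially decaying densities (helper38)

* `int_lb`: `lb s exp (- 3 / 2 |s|)` is integrable; **`pair_lb`**: `f t g u lb (t - u)` is integrable for good densities
  (`NUC43.Dn`); `Lg_of`, `Dn_of`.
-/

set_option autoImplicit false

noncomputable section

open MeasureTheory Set

namespace PLT

theorem int_abs {f : ℝ → ℝ} (hi : IntegrableOn f (Ioi 0)) : Integrable fun x => f |x| := by
  have hf : IntegrableOn (fun x => f |x|) (Ioi 0) :=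
    hi.congr_fun (fun x hx => by
      have h0 : (0:ℝ) < x := hx
      show f x = f |x|
      rw [abs_of_pos h0]) measurableSet_Ioi
  have int_Iic : IntegrableOn (fun x ↦ f |x|) (Iic 0) := by
    rw [← Measure.map_neg_eq_self (volume : Measure ℝ)]
    let m : MeasurableEmbedding fun x : ℝ => -x := (Homeomorph.neg ℝ).measurableEmbedding
    rw [m.integrableOn_map_iff]
    simp_rw [Function.comp_def, abs_neg, neg_preimage, neg_Iic, neg_zero]
    exact Iff.mpr integrableOn_Ici_iff_integrableOn_Ioi hf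
  have h := int_Iic.union hf
  rwa [Iic_union_Ioi, integrableOn_univ] at h

theorem lb_nonneg (t : ℝ) : 0 ≤ lb t := add_nonneg (abs_nonneg _) (abs_nonneg _)

theorem lb_le {s : ℝ} (hs : s ≠ 0) : lb s ≤ 2 * |s| ^ (-(1 / 2) : ℝ) + 2 * |s| := by
  have hs0 : 0 < |s| := abs_pos.2 hs
  have h1 : |s| ≤ |Real.sinh s| := by
    rw [Real.abs_sinh]
    exact Real.self_le_sinh_iff.2 hs0.le
  have h2 : |Real.sinh s| ≤ Real.exp |s| := by
    rw [Real.abs_sinh, Real.sinh_eq]
    linarith [Real.exp_pos |s|, Real.exp_pos (-|s|)]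
  have h3 : 0 < |Real.sinh s| := hs0.trans_le h1
  have h4 : Real.log |Real.sinh s| ≤ |s| := by
    rw [Real.log_le_iff_le_exp h3]
    exact h2
  have h5 : -(2 * |s| ^ (-(1 / 2) : ℝ)) ≤ Real.log |Real.sinh s| := by
    have h6 : Real.log |s| ≤ Real.log |Real.sinh s| := Real.log_le_log hs0 h1
    have h7 : Real.log |s|⁻¹ ≤ |s|⁻¹ ^ (1 / 2 : ℝ) / (1 / 2) :=
      Real.log_le_rpow_div (inv_pos.2 hs0).le (by norm_num)
    rw [Real.log_inv, Real.inv_rpow hs0.le, ← Real.rpow_neg hs0.le] at h7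
    linarith
  unfold lb
  have h8 : 0 ≤ |s| ^ (-(1 / 2) : ℝ) := Real.rpow_nonneg hs0.le _
  have h9 : |Real.log (|Real.sinh s|)| ≤ 2 * |s| ^ (-(1 / 2) : ℝ) + |s| := by
    rw [abs_le]
    constructor <;> linarith
  linarith

theorem meas_lb : Measurable lb := by
  unfold lb
  exact (measurable_norm.comp (Real.measurable_log.comp (measurable_norm.comp Real.measurable_sinh))).add
    measurable_norm

theorem int_lb : Integrable fun s => lb s * Real.exp (-(3 / 2) * |s|) := by
  have h1 : IntegrableOn (fun x : ℝ => (2 * x ^ (-(1 / 2) : ℝ) + 2 * x) * Real.exp (-(3 / 2) * x)) (Ioi 0) := by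
    have a1 := integrableOn_rpow_mul_exp_neg_mul_rpow (p := 1) (s := -(1 / 2)) (b := 3 / 2) (by norm_num) (by norm_num)
      (by norm_num)
    have a2 := integrableOn_rpow_mul_exp_neg_mul_rpow (p := 1) (s := 1) (b := 3 / 2) (by norm_num) (by norm_num)
      (by norm_num)
    have a3 : IntegrableOn (fun x : ℝ => 2 * (x ^ (-(1 / 2) : ℝ) * Real.exp (-(3 / 2) * x ^ (1:ℝ))) +
        2 * (x ^ (1:ℝ) * Real.exp (-(3 / 2) * x ^ (1:ℝ)))) (Ioi 0) := (a1.const_mul 2).add (a2.const_mul 2)
    refine a3.congr_fun (fun x _ => ?_) measurableSet_Ioi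
    simp only [Real.rpow_one]
    ring
  have h2 := int_abs h1
  refine h2.mono' ((meas_lb.mul (Real.measurable_exp.comp (measurable_norm.const_mul _))).aestronglyMeasurable) ?_
  have h3 : ∀ᵐ s : ℝ, s ≠ 0 := by
    rw [ae_iff]
    simp
  filter_upwards [h3] with s hs
  rw [norm_mul, Real.norm_eq_abs, Real.norm_eq_abs, abs_of_nonneg (lb_nonneg s), abs_of_pos (Real.exp_pos _)]
  exact mul_le_mul_of_nonneg_right (lb_le hs) (Real.exp_pos _).le

/-- **the logarithmic condition** -/
theorem pair_lb {f g : ℝ → ℝ} (hf : NUC43.Dn f) (hg : NUC43.Dn g) :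
    Integrable fun p : ℝ × ℝ => f p.1 * g p.2 * lb (p.1 - p.2) := by
  obtain ⟨M, hM, bf⟩ := hf.bd
  obtain ⟨N, hN, bg⟩ := hg.bd
  have h1 : Integrable fun p : ℝ × ℝ => (M * N * Real.exp (-1 * |p.1|)) *
      (lb p.2 * Real.exp (-(3 / 2) * |p.2|)) := by
    have := (((NUMF.int_exp_abs (b := 1) (by norm_num)).const_mul (M * N))).mul_prod int_lb
    exact this
  have mp : MeasurePreserving (fun p : ℝ × ℝ => (p.1, p.1 - p.2)) := by
    have m1 := measurePreserving_prod_add (volume : Measure ℝ) (volume : Measure ℝ)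
    have m2 := (MeasurePreserving.id (volume : Measure ℝ)).prod (Measure.measurePreserving_neg (volume : Measure ℝ))
    have m3 := m1.comp m2
    have e : ((fun z : ℝ × ℝ => (z.1, z.1 + z.2)) ∘ Prod.map id Neg.neg) = fun p : ℝ × ℝ => (p.1, p.1 - p.2) := by
      funext p
      simp [Prod.map, sub_eq_add_neg]
    rw [e] at m3
    exact m3
  have h2 := (mp.integrable_comp h1.aestronglyMeasurable).2 h1
  refine h2.mono' ?_ (Filter.Eventually.of_forall fun p => ?_)
  · exact (((hf.cont.measurable.comp measurable_fst).mul (hg.cont.measurable.comp measurable_snd)).mul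
      (meas_lb.comp (measurable_fst.sub measurable_snd))).aestronglyMeasurable
  · simp only [Function.comp]
    rw [norm_mul, norm_mul, Real.norm_eq_abs, Real.norm_eq_abs, Real.norm_eq_abs, abs_of_nonneg (lb_nonneg _)]
    have h3 : |f p.1| * |g p.2| ≤ M * N * Real.exp (-1 * |p.1|) * Real.exp (-(3 / 2) * |p.1 - p.2|) := by
      calc |f p.1| * |g p.2| ≤ (M * Real.exp (-(5 / 2) * |p.1|)) * (N * Real.exp (-(5 / 2) * |p.2|)) :=
            mul_le_mul (bf _) (bg _) (abs_nonneg _) (by positivity)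
        _ = M * N * Real.exp (-(5 / 2) * |p.1| + -(5 / 2) * |p.2|) := by rw [Real.exp_add]; ring
        _ ≤ M * N * Real.exp (-1 * |p.1| + -(3 / 2) * |p.1 - p.2|) := by
            refine mul_le_mul_of_nonneg_left (Real.exp_le_exp.2 ?_) (by positivity)
            have := abs_sub p.1 p.2
            linarith [abs_nonneg p.2]
        _ = _ := by rw [Real.exp_add]; ring
    calc |f p.1| * |g p.2| * lb (p.1 - p.2) ≤
          (M * N * Real.exp (-1 * |p.1|) * Real.exp (-(3 / 2) * |p.1 - p.2|)) * lb (p.1 - p.2) :=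
          mul_le_mul_of_nonneg_right h3 (lb_nonneg _)
      _ = _ := by ring

theorem Lg_of {ρ : Bool → ℝ → ℝ} (h : ∀ a, NUC43.Dn (ρ a)) : Lg ρ := fun a => pair_lb (h a) (h a)

theorem Dn_of {ρ v : Bool → ℝ → ℝ} {d : ℝ} (h : ∀ a, NUC43.Dn (ρ a)) (hv : ∀ a, Measurable (v a))
    (hv2 : ∀ a t, v a t ∈ Icc (0:ℝ) d) : Dn d ρ v := by
  refine ⟨fun a => (h a).cont.measurable, fun a => ?_, hv, hv2⟩
  obtain ⟨M, hM, bf⟩ := (h a).bd
  refine ((NUMF.int_exp_abs (b := 3 / 2) (by norm_num)).const_mul (2 * M)).mono' ?_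
    (Filter.Eventually.of_forall fun t => ?_)
  · exact ((h a).cont.mul (by fun_prop)).aestronglyMeasurable
  · rw [norm_mul, Real.norm_eq_abs, Real.norm_eq_abs, abs_of_nonneg (by positivity : (0:ℝ) ≤ 1 + t ^ 2)]
    have h1 := Real.quadratic_le_exp_of_nonneg (abs_nonneg t)
    rw [sq_abs] at h1
    have h2 : 1 + t ^ 2 ≤ 2 * Real.exp |t| := by linarith [abs_nonneg t]
    calc |ρ a t| * (1 + t ^ 2) ≤ (M * Real.exp (-(5 / 2) * |t|)) * (2 * Real.exp |t|) :=
          mul_le_mul (bf t) h2 (by positivity) (by positivity)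
      _ = 2 * M * Real.exp (-(5 / 2) * |t| + |t|) := by rw [Real.exp_add]; ring
      _ = _ := by congr 2; ring

end PLT

end
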