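import Pool.Agent.PLT.Link8

/-!
# The kernels of a table of the two line system (helper38)

For a table `t : Tb8` (kernels `gk (x / 4) (y / 4)` in units `1 / 512`, contacts `kpZ`, widths `epZ`):

* `OkT t`: nonnegative coefficients, intervals in `(0, 4]`, one positive coefficient in every entry;
* `T8_ok`: the entries are `ok` (cores of scale `2 ^ 12`); `F8q_N`: `F8q.N` in terms of the kernels `kN t σ K K'`;
* **`cert8`**: the kernels `kN` are integrable, their cosine integrals are nonnegative, at least `c0 > 0` for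
  distances `≤ 1`.
-/

set_option autoImplicit false

noncomputable section

open MeasureTheory Set

namespace PLT

open PHK NUP1 NUO NUDispO Pool.Agent.NUM3
open NUMF (sk sk_pos)
open NUPosK

/-- conditions on a table -/
structure OkT (t : Tb8) : Prop where
  rg : ∀ σ K K', ∀ p ∈ t σ K K', 0 ≤ p.1 ∧ 0 < p.2.1 ∧ p.2.1 < p.2.2 ∧ p.2.2 ≤ 16
  pos : ∀ σ K K', ∃ p ∈ t σ K K', 0 < p.1

theorem OkT.rgT {t : Tb8} (h : OkT t) : RgT t := by
  intro σ K K' p hp
  obtain ⟨h1, h2, h3, h4⟩ := h.rg σ K K' p hp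
  exact ⟨⟨h2.le, by omega⟩, by omega, by omega⟩

/-- **the entries are admissible** -/
theorem T8_ok {t : Tb8} (h : OkT t) (σ : Bool) (K K' : Kd6) : (T8 t σ K K').ok 12 := by
  have h1 : (0 : ℝ) ≤ kpZ σ K K' := by exact_mod_cast kpZ_nonneg σ K K'
  refine ⟨h1, Or.inr ?_, ?_, ?_⟩
  · cases σ <;> simp only [T8, epZ] <;> norm_num
  · intro p hp
    simp only [T8, List.mem_map] at hp
    obtain ⟨a, ha, rfl⟩ := hp
    obtain ⟨h2, h3, h4, h5⟩ := h.rg σ K K' a ha
    have e2 : (0 : ℝ) ≤ a.1 := by exact_mod_cast h2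
    have e3 : (0 : ℝ) < a.2.1 := by exact_mod_cast h3
    have e4 : (a.2.1 : ℝ) < a.2.2 := by exact_mod_cast h4
    have e5 : (a.2.2 : ℝ) ≤ 16 := by exact_mod_cast h5
    refine ⟨by positivity, by positivity, by linarith, ?_⟩
    show (a.2.2 : ℝ) / 4 ≤ 4
    linarith
  · obtain ⟨a, ha, h2⟩ := h.pos σ K K'
    refine ⟨_, List.mem_map.2 ⟨a, ha, rfl⟩, ?_⟩
    have e2 : (0 : ℝ) < a.1 := by exact_mod_cast h2
    show (0 : ℝ) < (a.1 : ℝ) / 512
    positivity

/-- the kernels of the table -/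
def kN (t : Tb8) (σ : Bool) (K K' : Kd6) (k : ℝ) : ℝ := (T8 t σ K K').ker 12 k

/-- the kernels of the table in the two line system -/
theorem F8q_N (q : Pt) (t : Tb8) (σ : Bool) (K K' : Kd6) {k : ℝ} (hk : 0 < k) :
    (F8q q t 12 (l * k)).N σ K K' = k * sk k * kN t σ K K' k := by
  have hs : 0 < k * sk k := mul_pos hk (sk_pos hk)
  unfold kN
  rw [ker_eq 12 _ hk, mul_div_cancel₀ _ hs.ne']
  rfl

theorem kN_eq (t : Tb8) (σ : Bool) (K K' : Kd6) {k : ℝ} (hk : 0 < k) :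
    kN t σ K K' k = nE 12 (T8 t σ K K') (l * k) / (k * sk k) := ker_eq 12 _ hk

/-- **positivity of the kernels** -/
theorem cert8 {t : Tb8} (h : OkT t) : ∃ c0 : ℝ, 0 < c0 ∧ (∀ σ K K', IntegrableOn (kN t σ K K') (Ioi 0)) ∧
    (∀ σ K K' x, 0 ≤ ∫ k in Ioi (0:ℝ), kN t σ K K' k * Real.cos (k * x)) ∧
    ∀ σ K K' x, |x| ≤ 1 → c0 ≤ ∫ k in Ioi (0:ℝ), kN t σ K K' k * Real.cos (k * x) := by
  have hp : ∀ σ K K', PK (kN t σ K K') := fun σ K K' => NE.pk (T8_ok h σ K K')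
  choose c hc H using fun p : Bool × Kd6 × Kd6 => NE.low (T8_ok h p.1 p.2.1 p.2.2)
  obtain ⟨p0, _, hp0⟩ := Finset.exists_min_image Finset.univ c ⟨(true, .L, .L), Finset.mem_univ _⟩
  exact ⟨c p0, hc p0, fun σ K K' => (hp σ K K').1, fun σ K K' x => (hp σ K K').2 x,
    fun σ K K' x hx => (hp0 (σ, K, K') (Finset.mem_univ _)).trans (H (σ, K, K') x hx)⟩

end PLT

end
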