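import Pool.Agent.PLT.Int8
import Pool.Agent.PLT.LogI
import Pool.Agent.PLT.NTab8
import Pool.Agent.NUKer.Pair
import Pool.Agent.PHK.Pot
import Pool.Agent.PHK.Knd
import Pool.Agent.PHK.Stab

/-!
# The energy bound at a point, in terms of pair weights (helper38)

* `rmz`: room to the strip, a condition on integers; `Rm_of`;
* `EL_pot`: `EL` is the logarithm of `potN6`; `WK_K`: `WK` is the logarithm of `wcx`, `gcx`;
* `HQ q t`: the certificate at the point `q` with the table `t`; `EQ8`: energy of densities on a curve in the field of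
  objects;
* **`intQ`**: `EQ8 ≤ 1 / 2 ∑ Dr6 - c W2`; **`intQ_pairs`**.
-/

set_option autoImplicit false

noncomputable section

open Finset MeasureTheory Set Filter
open scoped ComplexConjugate Topology

namespace PLT

open PHK NUP1 NUO NUDispO Pool.Agent.NUM3
open NUMF (sk sk_pos)

/-! ### shift of the positions -/

theorem DC_shift (n : ℕ) (σ : Bool) (A B : List ((Bool × Bool × ℝ) × ℤ)) (u z : ℝ) :
    DC n σ (shA u A) (shA u B) z = DC n σ A B z := by
  unfold DC shA
  rw [List.map_map]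
  congr 1
  refine List.map_congr_left fun a _ => ?_
  simp only [Function.comp, List.map_map]
  congr 1
  refine List.map_congr_left fun b _ => ?_
  simp only [Function.comp, LL6]
  rw [add_sub_add_right_eq_sub]

theorem DrC_shift (n : ℕ) (σ : Bool) (A B : List ((Bool × Bool × ℝ) × ℤ)) (u t : ℝ) :
    DrC n σ (shA u A) (shA u B) t = DrC n σ A B t := by
  unfold DrC shA
  rw [List.map_map]
  congr 2
  refine List.map_congr_left fun a _ => ?_
  simp only [Function.comp, List.map_map]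
  congr 1
  refine List.map_congr_left fun b _ => ?_
  simp only [Function.comp, LL6]
  rw [add_sub_add_right_eq_sub]

theorem EL_shift (σ : Bool) (A : List ((Bool × Bool × ℝ) × ℤ)) (u v t : ℝ) :
    EL σ (shA u A) (cA8 v) t = EL σ A (cA8 (u + v)) t := by
  unfold EL shA cA8
  rw [List.map_map]
  congr 1
  refine List.map_congr_left fun a _ => ?_
  simp only [Function.comp, List.map_cons, List.map_nil, List.sum_cons, List.sum_nil, add_zero, LL6]
  congr 2
  refine List.map_congr_left fun p _ => ?_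
  congr 2
  ring

theorem qL_shift (A : List ((Bool × Bool × ℝ) × ℤ)) (u : ℝ) : qL (shA u A) = qL A := by
  unfold qL shA
  rw [List.map_map]
  rfl

theorem qL_cd6 (P : Par6) (K : Kd6) : qL (cd6 P K) = kq6 K := by
  cases K <;> simp [qL, cd6, cg8, kq6, sgn]

/-! ### room -/

/-- room to the strip, lattice -/
def rmz (q : Pt) (σ : Bool) (o : Kd8) : Prop :=
  ∀ a ∈ cz8 q o, ∀ p ∈ Ls (σ == (a.1.1 == true)) a.1.2.1 false,
    1 ≤ (a.1.2.2 - q.m + q.m * p.1 + q.a0) % (8 * q.m) ∧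
    (a.1.2.2 - q.m + q.m * p.1 + q.a0) % (8 * q.m) + (q.a - q.a0) ≤ 8 * q.m - 1

instance (q : Pt) (σ : Bool) (o : Kd8) : Decidable (rmz q σ o) := by
  unfold rmz
  infer_instance

theorem Rm_of {q : Pt} (hq : 0 < q.k) {σ : Bool} {K : Kd6} (h : rmz q σ (some (some K))) :
    Rm (1 / q.m) q.d σ (shA (q.of 0) (cd8 q.par q.rT K)) := by
  have hm : 0 < q.m := by unfold Pt.m; omega
  have hm' : (0 : ℝ) < q.m := by exact_mod_cast hm
  have hA : cd8 q.par q.rT K = (cz8 q (some (some K))).map (rz8 q) := cR8_cz q hq (some (some K))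
  rw [hA, Pt.d_eq]
  intro b hb p hp
  unfold shA at hb
  rw [List.map_map] at hb
  obtain ⟨a, ha, rfl⟩ := List.mem_map.1 hb
  obtain ⟨h1, h2⟩ := h a ha p hp
  have e : (((a.1.2.2 - q.m + q.m * p.1 + q.a0 : ℤ) : ℝ)) / q.m =
      (rz8 q a).1.2.2 + q.of 0 - 1 + p.1 := by
    unfold rz8 Pt.of
    rw [if_pos rfl]
    push_cast
    field_simp
    ring
  show 1 / (q.m : ℝ) ≤ m8 ((rz8 q a).1.2.2 + q.of 0 - 1 + p.1) ∧
    m8 ((rz8 q a).1.2.2 + q.of 0 - 1 + p.1) + ((q.a - q.a0 : ℤ) : ℝ) / q.m ≤ 8 - 1 / q.m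
  rw [← e, m8_lat hm]
  constructor
  · refine div_le_div_of_nonneg_right ?_ hm'.le
    exact_mod_cast h1
  · rw [← add_div, div_le_iff₀ hm', sub_mul, div_mul_cancel₀ _ hm'.ne']
    exact_mod_cast h2

/-! ### logarithms of the pair weights -/

theorem sn_neg (x t : ℝ) : sn (-x) t = sn x t := by rw [← sn_abs, abs_neg, sn_abs]

theorem sn_add8 (x t : ℝ) : sn (x + 8) t = sn x t := by
  have e : (x + 8) * l = x * l + Real.pi := by unfold NUP1.l; ring
  rw [sn_eq, sn_eq, e, Real.sin_add_pi, neg_sq]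

theorem SLs_symm (σ : Bool) (a b : (Bool × Bool × ℝ) × ℤ) (t : ℝ) :
    ((LL6 σ a b).map fun p => (p.2 : ℝ) * sn (a.1.2.2 - b.1.2.2 + p.1) t).sum =
      ((LL6 σ b a).map fun p => (p.2 : ℝ) * sn (b.1.2.2 - a.1.2.2 + p.1) t).sum := by
  obtain ⟨⟨f, s, x⟩, c⟩ := a
  obtain ⟨⟨f', s', y⟩, c'⟩ := b
  have H : ∀ u : ℝ, sn (y - x + u) t = sn (x - y + -u) t := by
    intro u
    rw [← sn_neg]
    congr 1
    ring
  unfold LL6
  simp only
  rw [show (f' == f) = (f == f') from Bool.beq_comm]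
  generalize (σ == (f == f')) = e
  have h4 : sn (x - y + -4) t = sn (x - y + 4) t := by
    rw [← sn_add8]
    congr 1
    ring
  cases e <;> cases s <;> cases s' <;> simp only [Ls, NUDispO.Lp, Lc, if_true, if_false, Bool.false_eq_true,
    List.map_cons, List.map_nil, List.sum_cons, List.sum_nil, H] <;> push_cast <;> norm_num <;> (try rw [h4]) <;>
    ring

theorem log_PZ_sn (L : List (ℤ × ℤ)) {x t : ℝ} (hx : ∀ p ∈ L, p.2 ≠ 0)
    (h : PZ L (((x * l : ℝ) : ℂ) + t * Complex.I) ≠ 0) :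
    Real.log (PZ L (((x * l : ℝ) : ℂ) + t * Complex.I)) = (L.map fun p => (p.2 : ℝ) * sn (x + p.1) t).sum := by
  induction L with
  | nil => simp [PZ_nil]
  | cons p L ih =>
    rw [PZ_cons] at h ⊢
    have h1 := left_ne_zero_of_mul h
    have h2 := right_ne_zero_of_mul h
    have e : ((x * l : ℝ) : ℂ) + t * Complex.I + p.1 * l = (((x + p.1) * l : ℝ) : ℂ) + t * Complex.I := by
      push_cast; ring
    rw [Real.log_mul h1 h2, ih (fun q hq => hx q (by simp [hq])) h2, Real.log_zpow, e, List.map_cons,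
      List.sum_cons]
    rfl

/-- **an object against a quantum** -/
theorem EL_pot (P : Par6) {r : ℕ} (O : Fin r → Xo) (i : Fin r) (s : Bool) {w t : ℝ}
    (h : potN6 P O i s (vl ((1 - w) * l) t) ≠ 0) :
    Real.log (potN6 P O i s (vl ((1 - w) * l) t)) =
      EL (sp (O i) == s) (cd6 P (k6 (O i))) (cA8 w) (t - ht (O i)) := by
  have e0 : (((s, false, vl ((1 - w) * l) t), 1) : Part6) = pt6 s t ((true, false, 1 - w), 1) := by
    unfold pt6
    simp
  unfold potN6 ppN6 cons6 at h ⊢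
  rw [e0, parts6_cd] at h ⊢
  simp only [List.map_cons, List.map_nil, List.prod_cons, List.prod_nil, mul_one, List.map_map] at h ⊢
  rw [log_prod_map _ _ (fun b => ((1 * b.2 : ℤ) : ℝ) *
    ((LL6 (s == sp (O i)) ((true, false, 1 - w), 1) b).map fun p =>
      (p.2 : ℝ) * sn ((1 - w) - b.1.2.2 + p.1) (t - ht (O i))).sum) h]
  · unfold EL cA8
    congr 1
    refine List.map_congr_left fun b _ => ?_
    simp only [List.map_cons, List.map_nil, List.sum_cons, List.sum_nil, add_zero]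
    have hs := SLs_symm (s == sp (O i)) ((true, false, 1 - w), 1) b (t - ht (O i))
    simp only at hs
    rw [hs, show (sp (O i) == s) = (s == sp (O i)) from Bool.beq_comm, one_mul, mul_one]
  · intro b hb hne
    have hpp := norm_pp6_pt6 (a := ((true, false, 1 - w), 1)) one_ne_zero (mul_ne6 b hb) hne
    show Real.log ‖pp6 (pt6 s t ((true, false, 1 - w), 1)) (pt6 (sp (O i)) (ht (O i)) b)‖ = _
    rw [hpp.2, Real.log_zpow, log_PZ_sn (LL6 (s == sp (O i)) ((true, false, 1 - w), 1) b) (Ls_ne _ _ _) hpp.1]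

/-! ### two quanta -/

/-- logarithm of the pair function of two quanta -/
def lnK (s : Bool) (z : ℂ) : ℝ := if s then Real.log ‖NUKer.wcx z‖ else Real.log ‖NUKer.gcx z‖

theorem sin_ne {x t : ℝ} (ht : t ≠ 0) : ‖Complex.sin (((x * l : ℝ) : ℂ) + t * Complex.I)‖ ≠ 0 := by
  intro h
  have h1 := norm_sq_sn x t
  rw [h] at h1
  have h2 : Real.sinh t ≠ 0 := fun h => ht (Real.sinh_eq_zero.1 h)
  have : 0 < Real.sinh t ^ 2 := by positivity
  nlinarith [sq_nonneg (Real.sin (x * l))]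

theorem sin_sin (ζ : ℂ) (c : ℂ) : Complex.sin (ζ + c) * Complex.sin (ζ - c) =
    (Complex.cos (2 * c) - Complex.cos (2 * ζ)) / 2 := by
  rw [Complex.cos_two_mul, Complex.cos_two_mul, Complex.sin_add, Complex.sin_sub]
  have h1 := Complex.sin_sq_add_cos_sq ζ
  have h2 := Complex.sin_sq_add_cos_sq c
  linear_combination (Complex.cos c ^ 2) * h1 - (Complex.cos ζ ^ 2) * h2

/-- product of two symmetric sines -/
theorem sn_pair {x t : ℝ} (ht : t ≠ 0) (j : ℤ) :
    sn (x + j) t + sn (x + -j) t = Real.log ‖(Complex.cos (2 * (j * l)) -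
      Complex.cos (2 * (((x * l : ℝ) : ℂ) + t * Complex.I))) / 2‖ ∧
    (Complex.cos (2 * (j * l)) - Complex.cos (2 * (((x * l : ℝ) : ℂ) + t * Complex.I))) / 2 ≠ 0 := by
  have e1 : (((x + j) * l : ℝ) : ℂ) + t * Complex.I = (((x * l : ℝ) : ℂ) + t * Complex.I) + j * l := by
    push_cast; ring
  have e2 : (((x + -j) * l : ℝ) : ℂ) + t * Complex.I = (((x * l : ℝ) : ℂ) + t * Complex.I) - j * l := by
    push_cast; ring
  have h1 := sin_ne (x := x + j) ht
  have h2 := sin_ne (x := x + -j) ht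
  have h3 := sin_sin (((x * l : ℝ) : ℂ) + t * Complex.I) (j * l)
  rw [← h3]
  constructor
  · unfold sn
    rw [← Real.log_mul h1 h2, ← norm_mul, e1, e2]
  · rw [← e1, ← e2]
    exact mul_ne_zero (norm_ne_zero_iff.1 h1) (norm_ne_zero_iff.1 h2)

/-- **two quanta** -/
theorem WK_K (s : Bool) (x : ℝ) {t : ℝ} (ht : t ≠ 0) :
    WK 0 s x t = lnK s ((t : ℂ) + ((-(x * l) : ℝ) : ℂ) * Complex.I) := by
  set z : ℂ := (t : ℂ) + ((-(x * l) : ℝ) : ℂ) * Complex.I with hz
  have ez : ((x * l : ℝ) : ℂ) + t * Complex.I = z * Complex.I := by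
    rw [hz]
    push_cast
    linear_combination (x * l : ℂ) * Complex.I_mul_I
  have c2 : Complex.cos (2 * (((x * l : ℝ) : ℂ) + t * Complex.I)) = Complex.cosh (2 * z) := by
    rw [ez, ← mul_assoc, Complex.cos_mul_I]
  have hl : (l : ℂ) = Real.pi / 8 := by unfold NUP1.l; push_cast; ring
  cases s
  · obtain ⟨p1, p2⟩ := sn_pair (x := x) ht 3
    have e3 : Complex.cos (2 * ((3 : ℤ) * l)) = -((NUMF.r : ℝ) : ℂ) := by
      have : (2 * (((3 : ℤ) : ℂ) * l)) = ((Real.pi - Real.pi / 4 : ℝ) : ℂ) := by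
        rw [hl]; push_cast; ring
      rw [this, ← Complex.ofReal_cos, Real.cos_pi_sub, Real.cos_pi_div_four]
      unfold NUMF.r
      push_cast
      ring
    rw [e3, c2] at p1 p2
    have e4 : sn (x + 4) t = Real.log ‖Complex.cosh z‖ := by
      unfold sn
      have : (((x + 4) * l : ℝ) : ℂ) + t * Complex.I = z * Complex.I + Real.pi / 2 := by
        rw [← ez]
        push_cast
        rw [hl]
        ring
      rw [this, Complex.sin_add_pi_div_two, Complex.cos_mul_I]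
    have h4 : ‖Complex.cosh z‖ ≠ 0 := by
      have := sin_ne (x := x + 4) ht
      have e : (((x + 4) * l : ℝ) : ℂ) + t * Complex.I = z * Complex.I + Real.pi / 2 := by
        rw [← ez]
        push_cast
        rw [hl]
        ring
      rwa [e, Complex.sin_add_pi_div_two, Complex.cos_mul_I] at this
    have e5 : (-((NUMF.r : ℝ) : ℂ) - Complex.cosh (2 * z)) / 2 = -(Complex.cosh (2 * z) + NUMF.r) / 2 := by ring
    rw [e5] at p1 p2
    have h5 : ‖Complex.cosh (2 * z) + NUMF.r‖ ≠ 0 := by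
      intro h
      rw [norm_eq_zero] at h
      rw [h] at p2
      simp at p2
    have e6 : Real.log ‖-(Complex.cosh (2 * z) + NUMF.r) / 2‖ =
        Real.log ‖Complex.cosh (2 * z) + NUMF.r‖ - Real.log 2 := by
      rw [norm_div, norm_neg, Complex.norm_ofNat, Real.log_div h5 (by norm_num)]
    rw [e6] at p1
    have e7 : lnK false z = Real.log 4 + 2 * Real.log ‖Complex.cosh z‖ -
        2 * Real.log ‖Complex.cosh (2 * z) + NUMF.r‖ := by
      unfold lnK NUKer.gcx
      simp only [Bool.false_eq_true, if_false]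
      rw [norm_div, norm_mul, norm_pow, norm_pow, Complex.norm_ofNat, Real.log_div, Real.log_mul, Real.log_pow,
        Real.log_pow]
      · push_cast
        ring
      · norm_num
      · exact pow_ne_zero 2 h4
      · exact mul_ne_zero (by norm_num) (pow_ne_zero 2 h4)
      · exact pow_ne_zero 2 h5
    have e8 : Real.log 4 = 2 * Real.log 2 := by
      rw [show (4:ℝ) = 2 ^ 2 by norm_num, Real.log_pow]
      push_cast
      ring
    rw [e7, e8]
    simp only [WK, Lc, Bool.false_eq_true, if_false, List.map_cons, List.map_nil, List.sum_cons, List.sum_nil,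
      add_zero]
    push_cast at p1 ⊢
    rw [e4]
    linarith
  · obtain ⟨p1, p2⟩ := sn_pair (x := x) ht 2
    obtain ⟨q1, q2⟩ := sn_pair (x := x) ht 1
    have e3 : Complex.cos (2 * ((2 : ℤ) * l)) = 0 := by
      have : (2 * (((2 : ℤ) : ℂ) * l)) = ((Real.pi / 2 : ℝ) : ℂ) := by
        rw [hl]; push_cast; ring
      rw [this, ← Complex.ofReal_cos, Real.cos_pi_div_two, Complex.ofReal_zero]
    have e3' : Complex.cos (2 * ((1 : ℤ) * l)) = ((NUMF.r : ℝ) : ℂ) := by
      have : (2 * (((1 : ℤ) : ℂ) * l)) = ((Real.pi / 4 : ℝ) : ℂ) := by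
        rw [hl]; push_cast; ring
      rw [this, ← Complex.ofReal_cos, Real.cos_pi_div_four]
      unfold NUMF.r
      push_cast
      ring
    rw [e3, c2] at p1 p2
    rw [e3', c2] at q1 q2
    have e5 : (0 - Complex.cosh (2 * z)) / 2 = -Complex.cosh (2 * z) / 2 := by ring
    have e5' : (((NUMF.r : ℝ) : ℂ) - Complex.cosh (2 * z)) / 2 = -(Complex.cosh (2 * z) - NUMF.r) / 2 := by ring
    rw [e5] at p1 p2
    rw [e5'] at q1 q2
    have h5 : ‖Complex.cosh (2 * z)‖ ≠ 0 := by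
      intro h
      rw [norm_eq_zero] at h
      rw [h] at p2
      simp at p2
    have h5' : ‖Complex.cosh (2 * z) - NUMF.r‖ ≠ 0 := by
      intro h
      rw [norm_eq_zero] at h
      rw [h] at q2
      simp at q2
    have e6 : Real.log ‖-Complex.cosh (2 * z) / 2‖ = Real.log ‖Complex.cosh (2 * z)‖ - Real.log 2 := by
      rw [norm_div, norm_neg, Complex.norm_ofNat, Real.log_div h5 (by norm_num)]
    have e6' : Real.log ‖-(Complex.cosh (2 * z) - NUMF.r) / 2‖ =
        Real.log ‖Complex.cosh (2 * z) - NUMF.r‖ - Real.log 2 := by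
      rw [norm_div, norm_neg, Complex.norm_ofNat, Real.log_div h5' (by norm_num)]
    rw [e6] at p1
    rw [e6'] at q1
    have h0 : ‖Complex.sinh z‖ ≠ 0 := by
      have := sin_ne (x := x) ht
      rw [ez, Complex.sin_mul_I, norm_mul, Complex.norm_I, mul_one] at this
      exact this
    have e0 : sn |x| t = Real.log ‖Complex.sinh z‖ := by
      rw [sn_abs]
      unfold sn
      rw [ez, Complex.sin_mul_I, norm_mul, Complex.norm_I, mul_one]
    have e7 : lnK true z = 2 * Real.log ‖Complex.sinh z‖ + Real.log ‖Complex.cosh (2 * z)‖ -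
        Real.log ‖Complex.cosh (2 * z) - NUMF.r‖ := by
      unfold lnK NUKer.wcx
      simp only [if_true]
      rw [norm_div, norm_mul, norm_pow, Real.log_div, Real.log_mul, Real.log_pow]
      · push_cast
        ring
      · exact pow_ne_zero 2 h0
      · exact h5
      · exact mul_ne_zero (pow_ne_zero 2 h0) h5
      · exact h5'
    rw [e7]
    simp only [WK, Lr, if_true, List.map_cons, List.map_nil, List.sum_cons, List.sum_nil, add_zero]
    push_cast at p1 q1 ⊢
    rw [e0]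
    linarith

/-! ### the certificate -/

/-- the certificate at the point `q` with the table `t` -/
structure HQ (q : Pt) (t : Tb8) : Prop where
  k0 : 0 < q.k
  a0 : q.a0 < q.a
  d1 : q.d ≤ 1 / 2
  rT : q.rT = 3 / 2
  room : ∀ σ K, rmz q σ (some (some K))
  ok : OkT t
  nn : ∀ (n : ℕ) {z : ℝ}, 0 < z → (F8q q t n z).Nn

theorem HQ.m0 {q : Pt} {t : Tb8} (h : HQ q t) : (0:ℝ) < q.m := by
  have : 0 < q.m := by
    have := h.k0
    unfold Pt.m
    omega
  exact_mod_cast this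

theorem HQ.d0 {q : Pt} {t : Tb8} (h : HQ q t) : 0 < q.d := by
  rw [Pt.d_eq]
  refine div_pos ?_ h.m0
  have h1 := h.a0
  have : 0 < q.a - q.a0 := by omega
  exact_mod_cast this

theorem HQ.cd {q : Pt} {t : Tb8} (h : HQ q t) (K : Kd6) : cd8 q.par q.rT K = cd6 q.par K := by
  rw [h.rT, cd8_cd6]

/-- the constituents seen from the line `q.of 0` -/
def CQ (q : Pt) : Cn := fun K => shA (q.of 0) (cd6 q.par K)

theorem HQ.rm {q : Pt} {t : Tb8} (h : HQ q t) (σ : Bool) (K : Kd6) : Rm (1 / q.m) q.d σ (CQ q K) := by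
  have := Rm_of h.k0 (h.room σ K)
  rwa [h.cd] at this

/-- **the energy bound at the point `q`**, offsets from the line `q.of 0` -/
theorem HQ.int {q : Pt} {t : Tb8} (h : HQ q t) : ∃ c0 : ℝ, 0 < c0 ∧ ∀ (ρ v : Bool → ℝ → ℝ), Dn q.d ρ v → Lg ρ →
    ∀ (r : ℕ) (O : Fin r → Xo), ∑ i, sg6 (sp (O i)) * kq6 (k6 (O i)) + ∑ a, sg6 a * ∫ t, ρ a t = 0 →
    c0 * W2 univ (fun i => ⌊ht (O i)⌋) ≤ EnR 12 (CQ q) ρ v O 0 := by
  obtain ⟨c0, h0, h1, h2, h3⟩ := cert8 h.ok
  have hm := h.m0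
  have hm4 : (4:ℝ) ≤ q.m := by
    have : 4 ≤ q.m := by
      have := h.k0
      unfold Pt.m
      omega
    exact_mod_cast this
  refine ⟨c0, h0, fun ρ v hD hL r O hn => ?_⟩
  refine int8_gen hD h.d0 h.d1 hL (ε := 1 / q.m) (by positivity) ?_ (C := CQ q) h.rm (F := fun z => F8q q t 12 z)
    (fun z hz => h.nn 12 hz) ?_ ?_ ?_ (κ := kN t) (fun k hk σ K K' => F8q_N q t σ K K' hk) h1 h2 h3 O ?_
  · rw [div_le_iff₀ hm]
    linarith
  · intro z _ σ K b
    show DV σ (cd8 q.par q.rT K) (cA8 (q.of b)) z = DV σ (shA (q.of 0) (cd6 q.par K)) (cA8 (ln8 q.d b)) z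
    rw [h.cd, ← DV_shift]
    congr 2
    unfold ln8
    fin_cases b
    · simp
    · simp [Pt.d]
  · intro z _ σ b b'
    show DV σ (cA8 (q.of b)) (cA8 (q.of b')) z = _
    have e : ∀ b : Fin 2, q.of b = q.of 0 + ln8 q.d b := by
      intro b
      unfold ln8
      fin_cases b
      · simp
      · simp [Pt.d]
    rw [e b, e b', DV_AA_from]
  · intro z _ σ K K'
    show DC 12 σ (cd8 q.par q.rT K) (cd8 q.par q.rT K') z = _
    rw [h.cd, h.cd]
    exact (DC_shift 12 σ _ _ _ z).symm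
  · simp only [CQ, qL_shift, qL_cd6]
    exact hn

/-! ### in terms of pair weights -/

theorem EL_int {d : ℝ} {ρ v : Bool → ℝ → ℝ} (h : Dn d ρ v) {ε : ℝ} (hε : 0 < ε) (hε4 : ε ≤ 4) {σ : Bool}
    {A : List ((Bool × Bool × ℝ) × ℤ)} (hR : Rm ε d σ A) (a : Bool) (T : ℝ) :
    Integrable fun t => ρ a t * EL σ A (cA8 (v a t)) (t - T) := by
  obtain ⟨B, hB⟩ := EL_UC hε hε4 hR
  exact (hB.fub (μ := (volume : Measure ℝ)) hε (w := ρ a) (v := v a) (τ := fun t => t - T) (h.sh a T)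
    (h.rm a).aestronglyMeasurable (h.vm a) (measurable_id.sub_const T) (h.vr a)).1

/-- energy of the densities `μ` on the curve `t + eta t i` in the field `f` -/
def EQ8 (eta : ℝ → ℝ) (f μ : Bool → ℝ → ℝ) : ℝ :=
  (∑ a, ∫ t, μ a t * f a t) + 1 / 2 * ∑ a, ∑ b, ∫ p : ℝ × ℝ, μ a p.1 * μ b p.2 *
    lnK (a == b) (((p.1 - p.2 : ℝ) : ℂ) + ((eta p.1 - eta p.2 : ℝ) : ℂ) * Complex.I)

/-- **the energy bound in terms of pair weights** -/
theorem intQ {q : Pt} {t : Tb8} (h : HQ q t) : ∃ c0 : ℝ, 0 < c0 ∧ ∀ (eta : ℝ → ℝ), Measurable eta →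
    (∀ x, q.of 0 * l ≤ eta x ∧ eta x ≤ q.of 1 * l) → ∀ (r : ℕ) (O : Fin r → Xo) (f : Bool → ℝ → ℝ),
    (∀ a x, ∏ i, potN6 q.par O i a (vl (l - eta x) x) = Real.exp (f a x)) →
    ∀ μ : Bool → ℝ → ℝ, (∀ a, NUC43.Dn (μ a)) →
    (∫ x, μ true x) - (∫ x, μ false x) = -∑ i, sg6 (sp (O i)) * kq6 (k6 (O i)) →
    EQ8 eta f μ ≤ 1 / 2 * (∑ i, ∑ j, Dr6 12 q.par (sp (O i) == sp (O j)) (k6 (O i)) (k6 (O j))
      (ht (O i) - ht (O j))) - c0 / 2 * W2 univ (fun i => ⌊ht (O i)⌋) := by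
  obtain ⟨c0, h0, H⟩ := h.int
  refine ⟨c0, h0, fun eta hm he r O f hf μ hμ hn => ?_⟩
  have hl := l_pos8
  set v : Bool → ℝ → ℝ := fun _ x => eta x / l - q.of 0 with hv
  have hv1 : ∀ a x, v a x ∈ Icc (0:ℝ) q.d := by
    intro a x
    obtain ⟨h1, h2⟩ := he x
    have e1 : q.of 0 ≤ eta x / l := by rwa [le_div_iff₀ hl]
    have e2 : eta x / l ≤ q.of 1 := by rwa [div_le_iff₀ hl]
    simp only [hv]
    unfold Pt.d
    exact ⟨by linarith, by linarith⟩
  have hD : Dn q.d μ v := Dn_of hμ (fun a => (hm.div_const l).sub_const _) hv1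
  have hL : Lg μ := Lg_of hμ
  have hm0 := h.m0
  have hm4 : (4:ℝ) ≤ q.m := by
    have : 4 ≤ q.m := by
      have := h.k0
      unfold Pt.m
      omega
    exact_mod_cast this
  have hε : (0:ℝ) < 1 / q.m := by positivity
  have hε4 : 1 / (q.m : ℝ) ≤ 4 := by
    rw [div_le_iff₀ hm0]
    linarith
  have key := H μ v hD hL r O (by
    simp only [Fintype.sum_bool, sg6, if_true, Bool.false_eq_true, if_false] at hn ⊢
    linarith)
  unfold EnR at key
  -- objects
  have e1 : ∀ i j, DrC 12 (sp (O i) == sp (O j)) (CQ q (k6 (O i))) (CQ q (k6 (O j))) (ht (O i) - ht (O j)) =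
      Dr6 12 q.par (sp (O i) == sp (O j)) (k6 (O i)) (k6 (O j)) (ht (O i) - ht (O j)) := fun i j => DrC_shift _ _ _ _ _ _
  -- objects against densities
  have e2 : ∀ a x, f a x = ∑ i, EL (sp (O i) == a) (CQ q (k6 (O i))) (cA8 (v a x)) (x - ht (O i)) := by
    intro a x
    have h1 := hf a x
    have h2 : ∏ i, potN6 q.par O i a (vl (l - eta x) x) ≠ 0 := by
      rw [h1]
      exact (Real.exp_pos _).ne'
    have h3 : ∀ i ∈ (univ : Finset (Fin r)), potN6 q.par O i a (vl (l - eta x) x) ≠ 0 :=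
      Finset.prod_ne_zero_iff.1 h2
    have h4 : f a x = Real.log (∏ i, potN6 q.par O i a (vl (l - eta x) x)) := by rw [h1, Real.log_exp]
    rw [h4, Real.log_prod h3]
    refine Finset.sum_congr rfl fun i hi => ?_
    have e3 : l - eta x = (1 - eta x / l) * l := by field_simp
    have h5 := h3 i hi
    rw [e3] at h5 ⊢
    rw [EL_pot q.par O i a h5]
    show _ = EL _ (shA (q.of 0) (cd6 q.par (k6 (O i)))) (cA8 (eta x / l - q.of 0)) _
    rw [EL_shift, add_sub_cancel]
  have e4 : ∑ i, ∑ a, ∫ x, μ a x * EL (sp (O i) == a) (CQ q (k6 (O i))) (cA8 (v a x)) (x - ht (O i)) =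
      ∑ a, ∫ x, μ a x * f a x := by
    rw [Finset.sum_comm]
    refine Finset.sum_congr rfl fun a _ => ?_
    rw [← integral_finsetSum _ fun i _ => EL_int hD hε hε4 (h.rm (sp (O i) == a) (k6 (O i))) a (ht (O i))]
    refine integral_congr_ae (Filter.Eventually.of_forall fun x => ?_)
    simp only
    rw [e2, Finset.mul_sum]
  -- densities
  have e5 : ∀ a b : Bool, ∫ p : ℝ × ℝ, μ a p.1 * μ b p.2 * WK 0 (a == b) (v b p.2 - v a p.1) (p.1 - p.2) =
      ∫ p : ℝ × ℝ, μ a p.1 * μ b p.2 *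
        lnK (a == b) (((p.1 - p.2 : ℝ) : ℂ) + ((eta p.1 - eta p.2 : ℝ) : ℂ) * Complex.I) := by
    intro a b
    refine integral_congr_ae ?_
    filter_upwards [ae_ne] with p hp
    rw [WK_K _ _ hp]
    congr 4
    simp only [hv]
    have : (eta p.1 - eta p.2 : ℝ) = -((eta p.2 / l - q.of 0 - (eta p.1 / l - q.of 0)) * l) := by
      field_simp
      ring
    rw [← this]
  simp only [e1, e4, e5] at key
  unfold EQ8
  linarith

/-! ### with the pairs of objects -/

/-- **product form** -/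
theorem prod_of_le {P : Par6} (h : Ok6 P) (h' : Nd6 P) (n : ℕ) : ∃ C : ℝ, ∀ {c0 : ℝ}, 0 ≤ c0 →
    ∀ {r : ℕ} (O : Fin r → Xo) (W : Finset ℤ) (E : ℝ),
    E ≤ 1 / 2 * (∑ i, ∑ j, Dr6 n P (sp (O i) == sp (O j)) (k6 (O i)) (k6 (O j)) (ht (O i) - ht (O j))) -
      c0 / 2 * W2 univ (fun i => ⌊ht (O i)⌋) →
    (∏ i, ∏ j, if i < j then pairN6 P O i j else 1) * Real.exp E ≤
      Real.exp (C * r) * Real.exp (-(c0 / 2 * ∑ w ∈ W, (cnt (fun i => ht (O i)) w : ℝ) ^ 2)) := by
  set B : ℝ := ∑ κ : Kd6, |Dr6 n P true κ κ 0| with hB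
  refine ⟨1 / 2 * B, fun {c0} hc0 r O W E hE => ?_⟩
  have hR0 : 0 ≤ Real.exp (1 / 2 * B * r) *
      Real.exp (-(c0 / 2 * ∑ w ∈ W, (cnt (fun i => ht (O i)) w : ℝ) ^ 2)) := by positivity
  by_cases hz : ∃ i j, i < j ∧ pairN6 P O i j = 0
  · obtain ⟨i, j, hij, h0⟩ := hz
    have : (∏ i, ∏ j, if i < j then pairN6 P O i j else 1) = 0 := by
      apply prod_eq_zero (mem_univ i)
      apply prod_eq_zero (mem_univ j)
      rw [if_pos hij, h0]
    rw [this, zero_mul]
    exact hR0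
  push Not at hz
  have hpos : ∀ i j, i ≠ j → 0 < pairN6 P O i j := by
    intro i j hij
    rcases lt_or_gt_of_ne hij with h1 | h1
    · exact lt_of_le_of_ne (pairN6_nonneg _ _ _ _) (Ne.symm (hz i j h1))
    · rw [pairN6_symm']
      exact lt_of_le_of_ne (pairN6_nonneg _ _ _ _) (Ne.symm (hz j i h1))
  set D : Fin r → Fin r → ℝ := fun i j =>
    Dr6 n P (sp (O i) == sp (O j)) (k6 (O i)) (k6 (O j)) (ht (O i) - ht (O j)) with hD
  have hself : ∀ i, D i i ≤ B := by
    intro i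
    simp only [hD, beq_self_eq_true, sub_self]
    exact (le_abs_self _).trans (Finset.single_le_sum (f := fun κ => |Dr6 n P true κ κ 0|)
      (fun _ _ => abs_nonneg _) (mem_univ (k6 (O i))))
  have hoff : ∑ i, ∑ j ∈ univ.erase i, D i j ≤
      -2 * (∑ i, ∑ j, if i < j then Real.log (pairN6 P O i j) else 0) := by
    calc ∑ i, ∑ j ∈ univ.erase i, D i j ≤ ∑ i, ∑ j ∈ univ.erase i, (-Real.log (pairN6 P O i j)) :=
          sum_le_sum fun i _ => sum_le_sum fun j hj =>
            pair6_ge' h h' n O i j (hpos i j (ne_of_mem_erase hj).symm)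
      _ = _ := by
          rw [NUStabP.sum_pairs _ fun i j => by rw [pairN6_symm']]
          have : (∑ i, ∑ j, if i < j then -Real.log (pairN6 P O i j) else 0) =
              -(∑ i, ∑ j, if i < j then Real.log (pairN6 P O i j) else 0) := by
            rw [← sum_neg_distrib]
            refine sum_congr rfl fun i _ => ?_
            rw [← sum_neg_distrib]
            refine sum_congr rfl fun j _ => ?_
            split_ifs <;> simp
          rw [this]
          ring
  have hsplit : ∑ i, ∑ j, D i j = ∑ i, D i i + ∑ i, ∑ j ∈ univ.erase i, D i j := NUStabP.sum_diag D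
  have hs : ∑ i, D i i ≤ B * r := by
    calc ∑ i, D i i ≤ ∑ _i : Fin r, B := sum_le_sum fun i _ => hself i
      _ = B * r := by rw [sum_const, card_univ, Fintype.card_fin, nsmul_eq_mul, mul_comm]
  have hwin : ∑ w ∈ W, (cnt (fun i => ht (O i)) w : ℝ) ^ 2 ≤ W2 univ (fun i => ⌊ht (O i)⌋) := by
    refine (NUEnW.sum_cnt_sq_le (fun i => ht (O i)) W).trans (le_of_eq ?_)
    rw [W2_eq]
    rfl
  have hlog : (∑ i, ∑ j, if i < j then Real.log (pairN6 P O i j) else 0) + E ≤
      1 / 2 * B * r + -(c0 / 2 * ∑ w ∈ W, (cnt (fun i => ht (O i)) w : ℝ) ^ 2) := by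
    have h1 : c0 * ∑ w ∈ W, (cnt (fun i => ht (O i)) w : ℝ) ^ 2 ≤
        c0 * W2 univ (fun i => ⌊ht (O i)⌋) := mul_le_mul_of_nonneg_left hwin hc0
    have hE' : E ≤ 1 / 2 * (∑ i, ∑ j, D i j) - c0 / 2 * W2 univ (fun i => ⌊ht (O i)⌋) := hE
    rw [hsplit] at hE'
    linarith
  have hL : (∏ i, ∏ j, if i < j then pairN6 P O i j else 1) =
      Real.exp (∑ i, ∑ j, if i < j then Real.log (pairN6 P O i j) else 0) := by
    rw [Real.exp_sum]
    refine prod_congr rfl fun i _ => ?_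
    rw [Real.exp_sum]
    refine prod_congr rfl fun j _ => ?_
    split_ifs with h1
    · rw [Real.exp_log (hpos i j h1.ne)]
    · simp
  rw [hL, ← Real.exp_add, ← Real.exp_add]
  exact Real.exp_le_exp.2 hlog

end PLT

end
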