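import Pool.Agent.PLT.KC2

/-!
# Functions of two variables with bounded derivatives

* `Bd k M F`: `F : ℝ × ℝ → ℂ` has `k` derivatives bounded by `M`; sum, product, `exists_comp` (analytic function
  of a function with values in a compact set);
* `B1 k M f`: the same for one variable; `B1.fst`, `B1.snd`, `B1.diff`: `f t`, `f t'`, `f (t - t')`;
* **`B1.qd`**: the difference quotient `∫₀¹ f (t' + s (t - t')) ds`;
* **`exists_KC2`**: `Bd 6 M F → KC R (K R^6 M)`.
-/

set_option autoImplicit false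

noncomputable section

open Complex Finset Filter MeasureTheory
open scoped Topology ContDiff Nat

namespace PLT.KB

open NUKer

/-- `k` derivatives bounded by `M` -/
structure Bd (k : ℕ) (M : ℝ) (F : ℝ × ℝ → ℂ) : Prop where
  cd : ContDiff ℝ k F
  bd : ∀ n ≤ k, ∀ p, ‖iteratedFDeriv ℝ n F p‖ ≤ M

section

variable {k : ℕ} {M M' : ℝ} {F G : ℝ × ℝ → ℂ}

theorem Bd.nonneg (h : Bd k M F) : 0 ≤ M := (norm_nonneg _).trans (h.bd 0 (Nat.zero_le _) 0)

theorem Bd.le (h : Bd k M F) (p : ℝ × ℝ) : ‖F p‖ ≤ M := by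
  have := h.bd 0 (Nat.zero_le _) p
  rwa [norm_iteratedFDeriv_zero] at this

theorem Bd.mono (h : Bd k M F) (hM : M ≤ M') : Bd k M' F :=
  ⟨h.cd, fun n hn p => (h.bd n hn p).trans hM⟩

theorem Bd.add (h : Bd k M F) (h' : Bd k M' G) : Bd k (M + M') (fun p => F p + G p) := by
  refine ⟨h.cd.add h'.cd, fun n hn p => ?_⟩
  have hn' : (n : WithTop ℕ∞) ≤ k := by exact_mod_cast hn
  have e : iteratedFDeriv ℝ n (fun p => F p + G p) p =
      iteratedFDeriv ℝ n F p + iteratedFDeriv ℝ n G p :=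
    iteratedFDeriv_add_apply (h.cd.of_le hn').contDiffAt (h'.cd.of_le hn').contDiffAt
  rw [e]
  exact (norm_add_le _ _).trans (add_le_add (h.bd n hn p) (h'.bd n hn p))

theorem Bd.mul (h : Bd k M F) (h' : Bd k M' G) : Bd k (2 ^ k * M * M') (fun p => F p * G p) := by
  refine ⟨h.cd.mul h'.cd, fun n hn p => ?_⟩
  have hn' : (n : WithTop ℕ∞) ≤ k := by exact_mod_cast hn
  have hM := h.nonneg
  have hM' := h'.nonneg
  refine (norm_iteratedFDeriv_mul_le h.cd h'.cd p hn').trans ?_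
  calc ∑ i ∈ range (n + 1), (n.choose i : ℝ) * ‖iteratedFDeriv ℝ i F p‖ *
        ‖iteratedFDeriv ℝ (n - i) G p‖ ≤ ∑ i ∈ range (n + 1), (n.choose i : ℝ) * M * M' := by
        refine sum_le_sum fun i hi => ?_
        have hi' : i ≤ n := Nat.lt_succ_iff.1 (mem_range.1 hi)
        have h1 := h.bd i (hi'.trans hn) p
        have h2 := h'.bd (n - i) ((Nat.sub_le _ _).trans hn) p
        gcongr
    _ = 2 ^ n * M * M' := by
        rw [← sum_mul, ← sum_mul]
        congr 2
        exact_mod_cast Nat.sum_range_choose n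
    _ ≤ _ := by
        have : (2 : ℝ) ^ n ≤ 2 ^ k := pow_le_pow_right₀ (by norm_num) hn
        gcongr

theorem Bd.const (k : ℕ) (c : ℂ) : Bd k ‖c‖ (fun _ => c) := by
  refine ⟨contDiff_const, fun n _ p => ?_⟩
  rcases Nat.eq_zero_or_pos n with rfl | hn
  · rw [norm_iteratedFDeriv_zero]
  · rw [iteratedFDeriv_const_of_ne hn.ne']
    simp

theorem Bd.smul (h : Bd k M F) (c : ℂ) : Bd k (2 ^ k * ‖c‖ * M) (fun p => c * F p) :=
  (Bd.const k c).mul h

theorem Bd.congr (h : Bd k M F) (e : ∀ p, F p = G p) : Bd k M G := by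
  have : F = G := funext e
  rwa [← this]

/-- a complex linear map of the values -/
theorem Bd.clm (h : Bd k M F) {E : Type*} [NormedAddCommGroup E] [NormedSpace ℝ E] (L : ℂ →L[ℝ] E)
    (n : ℕ) (hn : n ≤ k) (p : ℝ × ℝ) : ‖iteratedFDeriv ℝ n (fun p => L (F p)) p‖ ≤ ‖L‖ * M := by
  have hn' : (n : WithTop ℕ∞) ≤ k := by exact_mod_cast hn
  have := L.norm_iteratedFDeriv_comp_left h.cd.contDiffAt (x := p) hn'
  exact this.trans (mul_le_mul_of_nonneg_left (h.bd n hn p) (norm_nonneg _))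

/-- **an analytic function of a function with values in a compact set** -/
theorem exists_comp {g : ℂ → ℂ} {U : Set ℂ} (hU : IsOpen U) (hg : DifferentiableOn ℂ g U)
    {K : Set ℂ} (hK : IsCompact K) (hKU : K ⊆ U) (k : ℕ) (M : ℝ) :
    ∃ C : ℝ, 0 ≤ C ∧ ∀ F : ℝ × ℝ → ℂ, Bd k M F → (∀ p, F p ∈ K) → Bd k C (fun p => g (F p)) := by
  have hgd : ContDiffOn ℝ k g U := (hg.contDiffOn (n := k) hU).restrict_scalars ℝ
  have hc : ∀ i : ℕ, ∃ C : ℝ, 0 ≤ C ∧ (i ≤ k → ∀ z ∈ K, ‖iteratedFDerivWithin ℝ i g U z‖ ≤ C) := by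
    intro i
    by_cases hi : i ≤ k
    · have h1 : ContinuousOn (iteratedFDerivWithin ℝ i g U) K :=
        (hgd.continuousOn_iteratedFDerivWithin (by exact_mod_cast hi) hU.uniqueDiffOn).mono hKU
      obtain ⟨C, hC⟩ := hK.exists_bound_of_continuousOn h1
      exact ⟨max C 0, le_max_right _ _, fun _ z hz => (hC z hz).trans (le_max_left _ _)⟩
    · exact ⟨0, le_rfl, fun h => absurd h hi⟩
  choose Ci hC0 hCi using hc
  obtain ⟨C0, hC0d⟩ : ∃ C0 : ℝ, C0 = ∑ i ∈ range (k + 1), Ci i := ⟨_, rfl⟩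
  have hCs : 0 ≤ C0 := by
    rw [hC0d]
    exact sum_nonneg fun i _ => hC0 i
  refine ⟨k ! * C0 * (max 1 M) ^ k, by positivity, fun F hF hFK => ?_⟩
  refine ⟨hgd.comp_contDiff hF.cd fun p => hKU (hFK p), fun n hn p => ?_⟩
  have hn' : (n : WithTop ℕ∞) ≤ k := by exact_mod_cast hn
  have h1 : (1 : ℝ) ≤ max 1 M := le_max_left _ _
  have key := norm_iteratedFDeriv_comp_le' (g := g) (f := F) (t := U) (C := C0) (D := max 1 M)
    (by
      rintro _ ⟨q, rfl⟩
      exact hKU (hFK q)) hU.uniqueDiffOn hgd hF.cd hn' p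
    (fun i hi => ((hCi i) (hi.trans hn) _ (hFK p)).trans (by
      rw [hC0d]
      exact single_le_sum (f := Ci) (fun i _ => hC0 i) (mem_range.2 (by omega))))
    (fun i hi1 hi => (hF.bd i (hi.trans hn) p).trans ((le_max_right _ _).trans (by
      calc max 1 M = (max 1 M) ^ 1 := (pow_one _).symm
        _ ≤ _ := pow_le_pow_right₀ h1 hi1)))
  refine key.trans ?_
  have h2 : (n ! : ℝ) ≤ k ! := by exact_mod_cast Nat.factorial_le hn
  have h3 : (max 1 M) ^ n ≤ (max 1 M) ^ k := pow_le_pow_right₀ h1 hn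
  gcongr

/-- an entire function of a bounded function -/
theorem exists_entire {g : ℂ → ℂ} (hg : Differentiable ℂ g) (k : ℕ) (M : ℝ) :
    ∃ C : ℝ, 0 ≤ C ∧ ∀ F : ℝ × ℝ → ℂ, Bd k M F → Bd k C (fun p => g (F p)) := by
  obtain ⟨C, hC, H⟩ := exists_comp isOpen_univ hg.differentiableOn
    (isCompact_closedBall (0 : ℂ) M) (Set.subset_univ _) k M
  exact ⟨C, hC, fun F hF => H F hF fun p => by
    rw [Metric.mem_closedBall, dist_zero_right]
    exact hF.le p⟩

/-- the logarithm and the inverse near `1` -/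
theorem exists_log_inv (k : ℕ) (M : ℝ) : ∃ C : ℝ, 0 ≤ C ∧ ∀ F : ℝ × ℝ → ℂ, Bd k M F →
    (∀ p, ‖F p‖ ≤ 1 / 2) → Bd k C (fun p => Complex.log (1 + F p)) ∧
      Bd k C (fun p => (1 + F p)⁻¹) := by
  have hsub : Metric.closedBall (0 : ℂ) (1 / 2) ⊆ Metric.ball 0 (3 / 4) :=
    Metric.closedBall_subset_ball (by norm_num)
  have hre : ∀ z ∈ Metric.ball (0 : ℂ) (3 / 4), 0 < (1 + z).re := by
    intro z hz
    rw [Metric.mem_ball, dist_zero_right] at hz
    have h1 := (abs_le.1 (Complex.abs_re_le_norm z)).1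
    rw [Complex.add_re, Complex.one_re]
    linarith
  obtain ⟨C1, hC1, H1⟩ := exists_comp (g := fun z => Complex.log (1 + z)) Metric.isOpen_ball
    (fun z hz => ((differentiableAt_id.const_add 1).clog
      (Or.inl (hre z hz))).differentiableWithinAt)
    (isCompact_closedBall (0 : ℂ) (1 / 2)) hsub k M
  obtain ⟨C2, hC2, H2⟩ := exists_comp (g := fun z => (1 + z)⁻¹) Metric.isOpen_ball
    (fun z hz => ((differentiableAt_id.const_add 1).inv (fun h0 => by
      have := hre z hz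
      rw [h0] at this
      simp at this)).differentiableWithinAt)
    (isCompact_closedBall (0 : ℂ) (1 / 2)) hsub k M
  refine ⟨C1 + C2, by positivity, fun F hF hb => ?_⟩
  have hm : ∀ p, F p ∈ Metric.closedBall (0 : ℂ) (1 / 2) := fun p => by
    rw [Metric.mem_closedBall, dist_zero_right]
    exact hb p
  exact ⟨(H1 F hF hm).mono (by linarith), (H2 F hF hm).mono (by linarith)⟩

end

/-! ### one variable -/

/-- `k` derivatives bounded by `M`, one variable -/
structure B1 (k : ℕ) (M : ℝ) (f : ℝ → ℂ) : Prop where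
  cd : ContDiff ℝ k f
  bd : ∀ n ≤ k, ∀ x, ‖iteratedDeriv n f x‖ ≤ M

section

variable {k : ℕ} {M : ℝ} {f : ℝ → ℂ}

theorem B1.nonneg (h : B1 k M f) : 0 ≤ M := (norm_nonneg _).trans (h.bd 0 (Nat.zero_le _) 0)

theorem B1.le (h : B1 k M f) (x : ℝ) : ‖f x‖ ≤ M := by
  have := h.bd 0 (Nat.zero_le _) x
  rwa [iteratedDeriv_zero] at this

theorem B1.mono {M' : ℝ} (h : B1 k M f) (hM : M ≤ M') : B1 k M' f :=
  ⟨h.cd, fun n hn p => (h.bd n hn p).trans hM⟩

theorem B1.lin (h : B1 k M f) (L : ℝ × ℝ →L[ℝ] ℝ) (hL : ‖L‖ ≤ 2) :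
    Bd k (2 ^ k * M) (fun p => f (L p)) := by
  have hM := h.nonneg
  refine ⟨h.cd.comp L.contDiff, fun n hn p => ?_⟩
  have hn' : (n : WithTop ℕ∞) ≤ k := by exact_mod_cast hn
  have e := L.iteratedFDeriv_comp_right (f := f) h.cd p hn'
  have e' : iteratedFDeriv ℝ n (fun p => f (L p)) p = iteratedFDeriv ℝ n (f ∘ L) p := rfl
  rw [e', e]
  refine (ContinuousMultilinearMap.norm_compContinuousLinearMap_le _ _).trans ?_
  rw [prod_const, card_univ, Fintype.card_fin, norm_iteratedFDeriv_eq_norm_iteratedDeriv]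
  have h1 := h.bd n hn (L p)
  have h2 : ‖L‖ ^ n ≤ 2 ^ k := by
    calc ‖L‖ ^ n ≤ 2 ^ n := pow_le_pow_left₀ (norm_nonneg _) hL n
      _ ≤ 2 ^ k := pow_le_pow_right₀ (by norm_num) hn
  rw [mul_comm]
  exact mul_le_mul h2 h1 (norm_nonneg _) (by positivity)

theorem norm_fst_le : ‖ContinuousLinearMap.fst ℝ ℝ ℝ‖ ≤ 1 := ContinuousLinearMap.norm_fst_le ℝ ℝ ℝ

theorem norm_snd_le : ‖ContinuousLinearMap.snd ℝ ℝ ℝ‖ ≤ 1 := ContinuousLinearMap.norm_snd_le ℝ ℝ ℝ

theorem B1.fst (h : B1 k M f) : Bd k (2 ^ k * M) (fun p => f p.1) :=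
  h.lin (ContinuousLinearMap.fst ℝ ℝ ℝ) (norm_fst_le.trans (by norm_num))

theorem B1.snd (h : B1 k M f) : Bd k (2 ^ k * M) (fun p => f p.2) :=
  h.lin (ContinuousLinearMap.snd ℝ ℝ ℝ) (norm_snd_le.trans (by norm_num))

theorem B1.diff (h : B1 k M f) : Bd k (2 ^ k * M) (fun p => f (p.1 - p.2)) :=
  h.lin (ContinuousLinearMap.fst ℝ ℝ ℝ - ContinuousLinearMap.snd ℝ ℝ ℝ)
    ((norm_sub_le _ _).trans (by linarith [norm_fst_le, norm_snd_le]))

theorem B1.deriv (h : B1 (k + 1) M f) : B1 k M (deriv f) := by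
  refine ⟨?_, fun n hn x => ?_⟩
  · have : ContDiff ℝ ((k : WithTop ℕ∞) + 1) f := by exact_mod_cast h.cd
    exact (contDiff_succ_iff_deriv.1 this).2.2
  · rw [← iteratedDeriv_succ']
    exact h.bd (n + 1) (by omega) x

/-- weighted averages over the segment -/
def Qab (a b : ℕ) (f : ℝ → ℂ) (p : ℝ × ℝ) : ℂ :=
  ∫ s in (0 : ℝ)..1, ((s ^ a * (1 - s) ^ b : ℝ) : ℂ) * f (p.2 + s * (p.1 - p.2))

theorem Qab_cont (a b : ℕ) {f : ℝ → ℂ} (hf : Continuous f) : Continuous (Qab a b f) := by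
  refine intervalIntegral.continuous_parametric_intervalIntegral_of_continuous' ?_ _ _
  exact (Complex.continuous_ofReal.comp (by fun_prop)).mul (hf.comp (by fun_prop))

theorem Qab_wt {s : ℝ} (h0 : 0 ≤ s) (h1 : s ≤ 1) (a b : ℕ) : ‖((s ^ a * (1 - s) ^ b : ℝ) : ℂ)‖ ≤ 1 := by
  rw [Complex.norm_real, Real.norm_of_nonneg (by
    have : 0 ≤ 1 - s := by linarith
    positivity)]
  exact mul_le_one₀ (pow_le_one₀ h0 h1) (pow_nonneg (by linarith) _)
    (pow_le_one₀ (by linarith) (by linarith))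

theorem Qab_le (a b : ℕ) {f : ℝ → ℂ} {M : ℝ} (hM : ∀ x, ‖f x‖ ≤ M) (p : ℝ × ℝ) :
    ‖Qab a b f p‖ ≤ M := by
  unfold Qab
  have := intervalIntegral.norm_integral_le_of_norm_le_const (a := (0 : ℝ)) (b := 1)
    (f := fun s => ((s ^ a * (1 - s) ^ b : ℝ) : ℂ) * f (p.2 + s * (p.1 - p.2))) (C := M)
    (fun s hs => by
      rw [Set.uIoc_of_le zero_le_one] at hs
      rw [norm_mul]
      have h1 := Qab_wt hs.1.le hs.2 a b
      have h2 := hM (p.2 + s * (p.1 - p.2))
      have h3 := norm_nonneg (f (p.2 + s * (p.1 - p.2)))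
      nlinarith [norm_nonneg (((s ^ a * (1 - s) ^ b : ℝ) : ℂ))])
  simpa using this

/-- `c ↦ c ⊗ fst` -/
def L1 : ℂ →L[ℝ] (ℝ × ℝ →L[ℝ] ℂ) :=
  ContinuousLinearMap.smulRightL ℝ (ℝ × ℝ) ℂ (ContinuousLinearMap.fst ℝ ℝ ℝ)

/-- `c ↦ c ⊗ snd` -/
def L2 : ℂ →L[ℝ] (ℝ × ℝ →L[ℝ] ℂ) :=
  ContinuousLinearMap.smulRightL ℝ (ℝ × ℝ) ℂ (ContinuousLinearMap.snd ℝ ℝ ℝ)

theorem L1_apply (c : ℂ) : L1 c = (ContinuousLinearMap.fst ℝ ℝ ℝ).smulRight c := rfl

theorem L2_apply (c : ℂ) : L2 c = (ContinuousLinearMap.snd ℝ ℝ ℝ).smulRight c := rfl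

theorem L1_norm : ‖L1‖ ≤ 1 := by
  refine ContinuousLinearMap.opNorm_le_bound _ zero_le_one fun c => ?_
  rw [L1_apply, ContinuousLinearMap.norm_smulRight_apply]
  exact mul_le_mul_of_nonneg_right norm_fst_le (norm_nonneg _)

theorem L2_norm : ‖L2‖ ≤ 1 := by
  refine ContinuousLinearMap.opNorm_le_bound _ zero_le_one fun c => ?_
  rw [L2_apply, ContinuousLinearMap.norm_smulRight_apply]
  exact mul_le_mul_of_nonneg_right norm_snd_le (norm_nonneg _)

/-- the derivative of the averages -/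
theorem Qab_hasFDeriv (a b : ℕ) {f f1 : ℝ → ℂ} (hf : ∀ x, HasDerivAt f (f1 x) x)
    (hc : Continuous f1) {M : ℝ} (hM : ∀ x, ‖f1 x‖ ≤ M) (p : ℝ × ℝ) :
    HasFDerivAt (Qab a b f) (L1 (Qab (a + 1) b f1 p) + L2 (Qab a (b + 1) f1 p)) p := by
  have cf : Continuous f := continuous_iff_continuousAt.2 fun x => (hf x).continuousAt
  have hM0 : 0 ≤ M := (norm_nonneg _).trans (hM 0)
  obtain ⟨w, hw⟩ : ∃ w : ℝ → ℂ, w = fun s => ((s ^ a * (1 - s) ^ b : ℝ) : ℂ) := ⟨_, rfl⟩
  have cw : Continuous w := by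
    rw [hw]
    fun_prop
  obtain ⟨G, hG⟩ : ∃ G : ℝ × ℝ → ℝ → (ℝ × ℝ →L[ℝ] ℂ), G = fun (p : ℝ × ℝ) (s : ℝ) =>
    L1 ((s : ℂ) * (w s * f1 (p.2 + s * (p.1 - p.2)))) +
      L2 (((1 - s : ℝ) : ℂ) * (w s * f1 (p.2 + s * (p.1 - p.2)))) := ⟨_, rfl⟩
  have cG : ∀ p, Continuous (G p) := by
    intro p
    rw [hG]
    have h1 : Continuous fun s : ℝ => f1 (p.2 + s * (p.1 - p.2)) := hc.comp (by fun_prop)
    exact (L1.continuous.comp (by fun_prop)).add (L2.continuous.comp (by fun_prop))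
  have key := (intervalIntegral.hasFDerivAt_integral_of_dominated_of_fderiv_le (𝕜 := ℝ)
    (μ := volume) (F := fun p s => w s * f (p.2 + s * (p.1 - p.2))) (F' := G)
    (bound := fun _ => 2 * M) (x₀ := p) (s := Set.univ) (a := 0) (b := 1) univ_mem ?_ ?_ ?_ ?_ ?_ ?_)
  · have e1 : ∫ s in (0 : ℝ)..1, G p s = L1 (Qab (a + 1) b f1 p) + L2 (Qab a (b + 1) f1 p) := by
      have h1 : Continuous fun s : ℝ => f1 (p.2 + s * (p.1 - p.2)) := hc.comp (by fun_prop)
      have i1 : Continuous fun s : ℝ => (s : ℂ) * (w s * f1 (p.2 + s * (p.1 - p.2))) := by fun_prop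
      have i2 : Continuous fun s : ℝ =>
        (((1 - s : ℝ) : ℂ)) * (w s * f1 (p.2 + s * (p.1 - p.2))) := by fun_prop
      have j1 : IntervalIntegrable (fun s : ℝ =>
          L1 ((s : ℂ) * (w s * f1 (p.2 + s * (p.1 - p.2))))) volume 0 1 :=
        (L1.continuous.comp i1).intervalIntegrable _ _
      have j2 : IntervalIntegrable (fun s : ℝ =>
          L2 (((1 - s : ℝ) : ℂ) * (w s * f1 (p.2 + s * (p.1 - p.2))))) volume 0 1 :=
        (L2.continuous.comp i2).intervalIntegrable _ _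
      rw [hG]
      simp only
      rw [intervalIntegral.integral_add j1 j2, L1.intervalIntegral_comp_comm (i1.intervalIntegrable _ _),
        L2.intervalIntegral_comp_comm (i2.intervalIntegrable _ _)]
      congr 2
      · unfold Qab
        refine intervalIntegral.integral_congr fun s _ => ?_
        simp only [hw]
        push_cast
        ring
      · unfold Qab
        refine intervalIntegral.integral_congr fun s _ => ?_
        simp only [hw]
        push_cast
        ring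
    rw [← e1]
    have e2 : Qab a b f = fun p => ∫ s in (0 : ℝ)..1, w s * f (p.2 + s * (p.1 - p.2)) := by
      funext p
      rw [hw]
      rfl
    rw [e2]
    exact key
  · exact Eventually.of_forall fun p => (cw.mul (cf.comp (by fun_prop))).aestronglyMeasurable
  · exact (cw.mul (cf.comp (by fun_prop))).intervalIntegrable _ _
  · exact (cG p).aestronglyMeasurable
  · refine Eventually.of_forall fun s hs q _ => ?_
    rw [Set.uIoc_of_le zero_le_one] at hs
    have h1 : ‖w s‖ ≤ 1 := by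
      rw [hw]
      exact Qab_wt hs.1.le hs.2 a b
    have h2 := hM (q.2 + s * (q.1 - q.2))
    have h3 : ‖w s * f1 (q.2 + s * (q.1 - q.2))‖ ≤ M := by
      rw [norm_mul]
      have := norm_nonneg (f1 (q.2 + s * (q.1 - q.2)))
      nlinarith [norm_nonneg (w s)]
    have h4 : ‖(s : ℂ) * (w s * f1 (q.2 + s * (q.1 - q.2)))‖ ≤ M := by
      rw [norm_mul, Complex.norm_real, Real.norm_of_nonneg hs.1.le]
      have := norm_nonneg (w s * f1 (q.2 + s * (q.1 - q.2)))
      nlinarith [hs.1, hs.2]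
    have h5 : ‖((1 - s : ℝ) : ℂ) * (w s * f1 (q.2 + s * (q.1 - q.2)))‖ ≤ M := by
      rw [norm_mul, Complex.norm_real, Real.norm_of_nonneg (by linarith [hs.2])]
      have := norm_nonneg (w s * f1 (q.2 + s * (q.1 - q.2)))
      nlinarith [hs.1, hs.2]
    rw [hG]
    refine (norm_add_le _ _).trans ?_
    have h6 := (L1.le_opNorm ((s : ℂ) * (w s * f1 (q.2 + s * (q.1 - q.2))))).trans
      (mul_le_mul L1_norm h4 (norm_nonneg _) zero_le_one)
    have h7 := (L2.le_opNorm (((1 - s : ℝ) : ℂ) * (w s * f1 (q.2 + s * (q.1 - q.2))))).trans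
      (mul_le_mul L2_norm h5 (norm_nonneg _) zero_le_one)
    linarith
  · exact continuous_const.intervalIntegrable _ _
  · refine Eventually.of_forall fun s _ q _ => ?_
    have hl : HasFDerivAt (fun q : ℝ × ℝ => q.2 + s * (q.1 - q.2))
        (ContinuousLinearMap.snd ℝ ℝ ℝ + s • (ContinuousLinearMap.fst ℝ ℝ ℝ -
          ContinuousLinearMap.snd ℝ ℝ ℝ)) q :=
      hasFDerivAt_snd.add ((hasFDerivAt_fst.sub hasFDerivAt_snd).const_mul s)
    have h2 := ((hf (q.2 + s * (q.1 - q.2))).hasFDerivAt.comp q hl).const_mul (w s)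
    refine h2.congr_fderiv ?_
    rw [hG]
    refine ContinuousLinearMap.ext fun v => ?_
    simp only [L1_apply, L2_apply, _root_.add_apply, ContinuousLinearMap.smulRight_apply,
      ContinuousLinearMap.coe_fst', ContinuousLinearMap.coe_snd', _root_.smul_apply,
      ContinuousLinearMap.comp_apply, _root_.sub_apply, Complex.real_smul, smul_eq_mul,
      ContinuousLinearMap.toSpanSingleton_apply]
    push_cast
    ring

/-- **averages of a function with bounded derivatives** -/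
theorem Qab_bd (k : ℕ) : ∀ (a b : ℕ) (f : ℝ → ℂ) (M : ℝ), B1 k M f → Bd k (2 ^ k * M) (Qab a b f) := by
  induction k with
  | zero =>
    intro a b f M h
    refine ⟨?_, fun n hn p => ?_⟩
    · rw [Nat.cast_zero, contDiff_zero]
      exact Qab_cont a b (h.cd.continuous)
    · obtain rfl : n = 0 := by omega
      rw [norm_iteratedFDeriv_zero, pow_zero, one_mul]
      exact Qab_le a b h.le p
  | succ k ih =>
    intro a b f M h
    have hM := h.nonneg
    have h' := h.deriv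
    have hd : ∀ x, HasDerivAt f (_root_.deriv f x) x := fun x =>
      (h.cd.differentiable (by simp) x).hasDerivAt
    have hF := Qab_hasFDeriv a b hd h'.cd.continuous h'.le
    have q1 := ih (a + 1) b (_root_.deriv f) M h'
    have q2 := ih a (b + 1) (_root_.deriv f) M h'
    have e : fderiv ℝ (Qab a b f) = fun p => L1 (Qab (a + 1) b (_root_.deriv f) p) +
        L2 (Qab a (b + 1) (_root_.deriv f) p) := funext fun p => (hF p).fderiv
    have cd1 : ContDiff ℝ k fun p => L1 (Qab (a + 1) b (_root_.deriv f) p) :=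
      L1.contDiff.comp q1.cd
    have cd2 : ContDiff ℝ k fun p => L2 (Qab a (b + 1) (_root_.deriv f) p) :=
      L2.contDiff.comp q2.cd
    refine ⟨?_, fun n hn p => ?_⟩
    · have h3 : ContDiff ℝ ((k : WithTop ℕ∞) + 1) (Qab a b f) := by
        rw [contDiff_succ_iff_fderiv]
        refine ⟨fun p => (hF p).differentiableAt, fun h => absurd h (by simp), ?_⟩
        rw [e]
        exact cd1.add cd2
      exact_mod_cast h3
    · rcases n with _ | n
      · rw [norm_iteratedFDeriv_zero]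
        have h4 := Qab_le a b h.le p
        have h5 : M ≤ 2 ^ (k + 1) * M := le_mul_of_one_le_left hM (one_le_pow₀ (by norm_num))
        linarith
      · have hn' : n ≤ k := by omega
        rw [← norm_iteratedFDeriv_fderiv, e]
        have hnk : (n : WithTop ℕ∞) ≤ k := by exact_mod_cast hn'
        have e2 : iteratedFDeriv ℝ n (fun p => L1 (Qab (a + 1) b (_root_.deriv f) p) +
            L2 (Qab a (b + 1) (_root_.deriv f) p)) p =
            iteratedFDeriv ℝ n (fun p => L1 (Qab (a + 1) b (_root_.deriv f) p)) p +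
            iteratedFDeriv ℝ n (fun p => L2 (Qab a (b + 1) (_root_.deriv f) p)) p :=
          iteratedFDeriv_add_apply (cd1.of_le hnk).contDiffAt (cd2.of_le hnk).contDiffAt
        rw [e2]
        refine (norm_add_le _ _).trans ?_
        have h4 := q1.clm L1 n hn' p
        have h5 := q2.clm L2 n hn' p
        have h6 : ‖L1‖ * (2 ^ k * M) ≤ 1 * (2 ^ k * M) :=
          mul_le_mul_of_nonneg_right L1_norm (by positivity)
        have h7 : ‖L2‖ * (2 ^ k * M) ≤ 1 * (2 ^ k * M) :=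
          mul_le_mul_of_nonneg_right L2_norm (by positivity)
        rw [pow_succ]
        linarith

/-- **the difference quotient** -/
theorem B1.qd (h : B1 k M f) : Bd k (2 ^ k * M) (fun p => NUKer.qd f p.1 p.2) := by
  refine (Qab_bd k 0 0 f M h).congr fun p => ?_
  unfold Qab NUKer.qd
  refine intervalIntegral.integral_congr fun s _ => ?_
  simp

end

/-! ### to the class `KC` -/

/-- the derivative in the first variable -/
def dl1 (F : ℝ × ℝ → ℂ) (p : ℝ × ℝ) : ℂ := fderiv ℝ F p (1, 0)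

/-- the derivative in the second variable -/
def dl2 (F : ℝ × ℝ → ℂ) (p : ℝ × ℝ) : ℂ := fderiv ℝ F p (0, 1)

section

variable {k : ℕ} {M : ℝ} {F : ℝ × ℝ → ℂ}

theorem Bd.dl (h : Bd (k + 1) M F) {v : ℝ × ℝ} (hv : ‖v‖ ≤ 1) : Bd k M (fun p => fderiv ℝ F p v) := by
  have hM := h.nonneg
  have h1 : ContDiff ℝ ((k : WithTop ℕ∞) + 1) F := by exact_mod_cast h.cd
  have h2 := (contDiff_succ_iff_fderiv.1 h1).2.2
  refine ⟨h2.clm_apply contDiff_const, fun n hn p => ?_⟩
  have hn' : (n : WithTop ℕ∞) ≤ k := by exact_mod_cast hn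
  refine (norm_iteratedFDeriv_clm_apply_const h2.contDiffAt hn').trans ?_
  rw [norm_iteratedFDeriv_fderiv]
  have h3 := h.bd (n + 1) (by omega) p
  have h4 := norm_nonneg (iteratedFDeriv ℝ (n + 1) F p)
  nlinarith [norm_nonneg v]

theorem Bd.dl1 (h : Bd (k + 1) M F) : Bd k M (dl1 F) := h.dl (by simp [Prod.norm_def])

theorem Bd.dl2 (h : Bd (k + 1) M F) : Bd k M (dl2 F) := h.dl (by simp [Prod.norm_def])

theorem hasDeriv_dl1 (h : Differentiable ℝ F) (x y : ℝ) :
    HasDerivAt (fun x => F (x, y)) (KB.dl1 F (x, y)) x := by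
  have h1 := (h (x, y)).hasFDerivAt
  have h2 : HasDerivAt (fun x : ℝ => (x, y)) ((1, 0) : ℝ × ℝ) x :=
    (hasDerivAt_id x).prodMk (hasDerivAt_const x y)
  exact h1.comp_hasDerivAt x h2

theorem hasDeriv_dl2 (h : Differentiable ℝ F) (x y : ℝ) :
    HasDerivAt (fun y => F (x, y)) (KB.dl2 F (x, y)) y := by
  have h1 := (h (x, y)).hasFDerivAt
  have h2 : HasDerivAt (fun y : ℝ => (x, y)) ((0, 1) : ℝ × ℝ) y :=
    (hasDerivAt_const y x).prodMk (hasDerivAt_id y)
  exact h1.comp_hasDerivAt y h2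

theorem Bd.iter2 (j : ℕ) : ∀ {k : ℕ} {F : ℝ × ℝ → ℂ}, Bd (k + j) M F → Bd k M (KB.dl2^[j] F) := by
  induction j with
  | zero => exact fun h => h
  | succ j ih =>
    intro k F h
    rw [Function.iterate_succ_apply']
    exact (ih (k := k + 1) (by rwa [show k + 1 + j = k + (j + 1) by omega])).dl2

theorem Bd.iter1 (i : ℕ) : ∀ {k : ℕ} {F : ℝ × ℝ → ℂ}, Bd (k + i) M F → Bd k M (KB.dl1^[i] F) := by
  induction i with
  | zero => exact fun h => h
  | succ i ih =>
    intro k F h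
    rw [Function.iterate_succ_apply']
    exact (ih (k := k + 1) (by rwa [show k + 1 + i = k + (i + 1) by omega])).dl1

end

/-- **six bounded derivatives suffice** -/
theorem exists_KC2 : ∃ K : ℝ, 0 < K ∧ ∀ R : ℝ, 1 ≤ R → ∀ (M : ℝ) (F : ℝ × ℝ → ℂ), Bd 6 M F →
    KC R (K * R ^ 6 * M) (fun t t' => F (t, t')) := by
  obtain ⟨K, hK, H⟩ := exists_KC33
  refine ⟨K, hK, fun R hR M F h => ?_⟩
  have hall : ∀ i j, i ≤ 3 → j ≤ 3 → Bd (6 - j - i) M (dl1^[i] (dl2^[j] F)) := by
    intro i j hi hj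
    have h1 : Bd (6 - j) M (dl2^[j] F) := Bd.iter2 j (by
      rw [Nat.sub_add_cancel (by omega)]
      exact h)
    exact Bd.iter1 i (by
      rw [Nat.sub_add_cancel (by omega)]
      exact h1)
  refine H R hR M (fun i j x y => (dl1^[i] (dl2^[j] F)) (x, y)) ⟨fun i j hi hj x y => ?_,
    fun j hj x y => ?_, fun i j hi hj => ?_, fun i j hi hj x y => (hall i j hi hj).le _⟩
  · rw [Function.iterate_succ_apply']
    have h1 := hall i j hi.le hj
    exact hasDeriv_dl1 (h1.cd.differentiable (by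
      have : 1 ≤ 6 - j - i := by omega
      have h0 : (6 - j - i : ℕ) ≠ 0 := by omega
      exact_mod_cast h0)) x y
  · show HasDerivAt (fun y => (dl2^[j] F) (x, y)) ((dl2^[j + 1] F) (x, y)) y
    rw [Function.iterate_succ_apply']
    have h1 := hall 0 j (by norm_num) hj.le
    exact hasDeriv_dl2 (h1.cd.differentiable (by
      have h0 : (6 - j - 0 : ℕ) ≠ 0 := by omega
      exact_mod_cast h0)) x y
  · have h1 := (hall i j hi hj).cd.continuous
    exact h1

end PLT.KB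

end
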