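import Pool.Agent.NUKer.Pair

/-!
# Kernels with bounded mixed derivatives are in the class `KC`

* `four_data`: coefficients and Fourier series of a function with three derivatives, zero at the ends;
* `C33 M f`: `f i j = ∂₁^i ∂₂^j` exist for `i, j ≤ 3`, continuous and bounded by `M`;
* **`exists_KC33`**: then `f 0 0` is in `KC R (K R^6 M)`;
* `Bd k M F`: `F : ℝ × ℝ → ℂ` has `k` derivatives bounded by `M`; **`exists_KC2`**: `Bd 6 M F → KC R (K R^6 M)`.
-/

set_option autoImplicit false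

noncomputable section

open Complex Finset Filter MeasureTheory
open scoped Topology

namespace PLT.KB

open NUKer

/-- coefficients and Fourier series -/
theorem four_data {L : ℝ} (hL : 0 < L) {g g1 g2 g3 : ℝ → ℂ}
    (h1 : ∀ x, HasDerivAt g (g1 x) x) (h2 : ∀ x, HasDerivAt g1 (g2 x) x)
    (h3 : ∀ x, HasDerivAt g2 (g3 x) x) (hg3 : Continuous g3)
    (z1 : g (-L) = 0) (z2 : g L = 0) (z3 : g1 (-L) = 0) (z4 : g1 L = 0) (z5 : g2 (-L) = 0)
    (z6 : g2 L = 0) {M0 M3 : ℝ} (hM0 : ∀ x, -L ≤ x → x ≤ L → ‖g x‖ ≤ M0)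
    (hM3 : ∀ x, -L ≤ x → x ≤ L → ‖g3 x‖ ≤ M3) (hab : -L < L) :
    (∀ n : ℤ, ‖fourierCoeffOn hab g n‖ ≤ if n = 0 then M0 else
      (L / (Real.pi * |(n : ℝ)|)) ^ 3 * M3) ∧
    ∀ t : ℝ, |t| < L → HasSum (fun n : ℤ => fourierCoeffOn hab g n *
      cexp ((((Real.pi * n / L) * t : ℝ) : ℂ) * I)) (g t) := by
  have hg : Continuous g := continuous_iff_continuousAt.2 fun x => (h1 x).continuousAt
  have hg1 : Continuous g1 := continuous_iff_continuousAt.2 fun x => (h2 x).continuousAt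
  have hg2 : Continuous g2 := continuous_iff_continuousAt.2 fun x => (h3 x).continuousAt
  have hM3' : 0 ≤ M3 := (norm_nonneg _).trans (hM3 0 (by linarith) hL.le)
  have hF : Fact (0 < 2 * L) := ⟨by linarith⟩
  obtain ⟨F, hFdef⟩ : ∃ F : AddCircle (2 * L) → ℂ, F = AddCircle.liftIco (2 * L) (-L) g := ⟨_, rfl⟩
  have hFc : Continuous F := by
    rw [hFdef]
    apply AddCircle.liftIco_continuous
    · rw [z1, show -L + 2 * L = L by ring, z2]
    · exact hg.continuousOn
  have hcoef : ∀ n : ℤ, fourierCoeff F n = fourierCoeffOn hab g n := by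
    intro n
    have := fourierCoeff_liftIco_eq (T := 2 * L) (a := -L) g n
    rw [hFdef, this]
    congr 1
    ring
  have hb : ∀ n : ℤ, n ≠ 0 → ‖fourierCoeffOn hab g n‖ ≤ (L / (Real.pi * |(n : ℝ)|)) ^ 3 * M3 := by
    intro n hn
    rw [coeff_step hL (fun x _ _ => h1 x) hg1 z1 z2 hn hab,
      coeff_step hL (fun x _ _ => h2 x) hg2 z3 z4 hn hab,
      coeff_step hL (fun x _ _ => h3 x) hg3 z5 z6 hn hab]
    have h4 := norm_fourierCoeffOn_le hab hM3 n
    calc L / (Real.pi * |(n : ℝ)|) * (L / (Real.pi * |(n : ℝ)|) * (L / (Real.pi * |(n : ℝ)|) *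
        ‖fourierCoeffOn hab g3 n‖)) = (L / (Real.pi * |(n : ℝ)|)) ^ 3 *
        ‖fourierCoeffOn hab g3 n‖ := by ring
      _ ≤ _ := by gcongr
  have hall : ∀ n : ℤ, ‖fourierCoeffOn hab g n‖ ≤ if n = 0 then M0 else
      (L / (Real.pi * |(n : ℝ)|)) ^ 3 * M3 := by
    intro n
    split_ifs with hn
    · exact norm_fourierCoeffOn_le hab hM0 n
    · exact hb n hn
  refine ⟨hall, fun t ht => ?_⟩
  have hs : Summable fun n : ℤ => ‖fourierCoeff F n‖ := by
    refine Summable.of_nonneg_of_le (fun n => norm_nonneg _) (fun n => ?_)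
      ((summable_of_ne_finset_zero (f := fun n : ℤ => if n = 0 then |M0| else 0) (s := {0})
        fun n hn => by rw [if_neg (by simpa using hn)]).add
        (summable_Kz.mul_left (L ^ 3 * M3)))
    rw [hcoef]
    by_cases hn : n = 0
    · subst hn
      have := hall 0
      simp only [if_true] at this
      simp only [if_true, Int.cast_zero]
      have h5 := le_abs_self M0
      simp only [ne_eq, OfNat.ofNat_ne_zero, not_false_eq_true, zero_pow, div_zero, mul_zero,
        add_zero]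
      linarith
    · rw [if_neg hn, zero_add]
      refine (hb n hn).trans ?_
      have hn1 : (1 : ℝ) ≤ |(n : ℝ)| := by
        rw [← Int.cast_abs]
        exact_mod_cast Int.one_le_abs hn
      have hpi := Real.pi_gt_three
      rw [← sq_abs (n : ℝ)]
      obtain ⟨N, hN⟩ : ∃ N : ℝ, N = |(n : ℝ)| := ⟨_, rfl⟩
      rw [← hN] at hn1 ⊢
      have hN0 : 0 < N := by linarith
      have h6 : (L / (Real.pi * N)) ^ 3 = L ^ 3 * (1 / N ^ 2) * (1 / (Real.pi ^ 3 * N)) := by
        field_simp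
      have h7 : 1 / (Real.pi ^ 3 * N) ≤ 1 := by
        rw [div_le_one (by positivity)]
        have : 1 ≤ Real.pi ^ 3 := one_le_pow₀ (by linarith)
        nlinarith
      rw [h6]
      calc L ^ 3 * (1 / N ^ 2) * (1 / (Real.pi ^ 3 * N)) * M3 ≤
            L ^ 3 * (1 / N ^ 2) * 1 * M3 := by gcongr
        _ = _ := by ring
  have htL := abs_lt.1 ht
  have h6 : HasSum (fun i => fourierCoeff F i • fourier i (t : AddCircle (2 * L)))
      (F (t : AddCircle (2 * L))) :=
    has_pointwise_sum_fourier_series_of_summable (f := ⟨F, hFc⟩) (Summable.of_norm hs)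
      (t : AddCircle (2 * L))
  have h7 : F (t : AddCircle (2 * L)) = g t := by
    rw [hFdef, AddCircle.liftIco_coe_apply]
    constructor <;> linarith
  rw [h7] at h6
  have e : (fun n : ℤ => fourierCoeffOn hab g n *
      cexp ((((Real.pi * n / L) * t : ℝ) : ℂ) * I)) =
      fun i => fourierCoeff F i • fourier i (t : AddCircle (2 * L)) := by
    funext n
    rw [fourier_coe_apply, smul_eq_mul, hcoef]
    congr 2
    push_cast
    field_simp
  rw [e]
  exact h6

/-- closure under uniform approximation -/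
theorem KC_lim {R Λ : ℝ} {κ : ℝ → ℝ → ℂ} (h : ∀ ε : ℝ, 0 < ε → ∃ κ' : ℝ → ℝ → ℂ, KC R Λ κ' ∧
    ∀ t t', |t| ≤ R → |t'| ≤ R → ‖κ t t' - κ' t t'‖ ≤ ε) : KC R Λ κ := by
  intro ε hε
  obtain ⟨κ', hk, h2⟩ := h (ε / 2) (by positivity)
  obtain ⟨ι, hι, c, a, b, h3, h4⟩ := hk (ε / 2) (by positivity)
  refine ⟨ι, hι, c, a, b, h3, fun t t' ht ht' => ?_⟩
  have e1 : κ t t' - ∑ i, c i * cexp (((a i * t + b i * t' : ℝ) : ℂ) * I) =
      (κ t t' - κ' t t') +
      (κ' t t' - ∑ i, c i * cexp (((a i * t + b i * t' : ℝ) : ℂ) * I)) := by ring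
  rw [e1]
  refine (norm_add_le _ _).trans ?_
  linarith [h2 t t' ht ht', h4 t t' ht ht']

/-- **mixed derivatives** `f i j = ∂₁^i ∂₂^j`, `i, j ≤ 3` -/
structure C33 (M : ℝ) (f : ℕ → ℕ → ℝ → ℝ → ℂ) : Prop where
  d1 : ∀ i j, i < 3 → j ≤ 3 → ∀ x y, HasDerivAt (fun x => f i j x y) (f (i + 1) j x y) x
  d2 : ∀ j, j < 3 → ∀ x y, HasDerivAt (fun y => f 0 j x y) (f 0 (j + 1) x y) y
  c : ∀ i j, i ≤ 3 → j ≤ 3 → Continuous fun p : ℝ × ℝ => f i j p.1 p.2
  bd : ∀ i j, i ≤ 3 → j ≤ 3 → ∀ x y, ‖f i j x y‖ ≤ M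

theorem cut_d0 (R x : ℝ) : HasDerivAt (fun x : ℝ => ((b0 (x / R) : ℝ) : ℂ))
    (((b1 (x / R) / R : ℝ) : ℂ)) x := by
  have h := ((b0_deriv (x / R)).comp x ((hasDerivAt_id x).div_const R)).ofReal_comp
  refine h.congr_deriv ?_
  rw [mul_one_div]

theorem cut_d1 {R : ℝ} (hR : 1 ≤ R) (x : ℝ) : HasDerivAt (fun x : ℝ => ((b1 (x / R) / R : ℝ) : ℂ))
    (((b2 (x / R) / R ^ 2 : ℝ) : ℂ)) x := by
  have hR0 : R ≠ 0 := by linarith
  have h := (((b1_deriv (x / R)).comp x ((hasDerivAt_id x).div_const R)).div_const R).ofReal_comp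
  refine h.congr_deriv ?_
  congr 1
  field_simp

theorem cut_d2 {R : ℝ} (hR : 1 ≤ R) (x : ℝ) : HasDerivAt (fun x : ℝ => ((b2 (x / R) / R ^ 2 : ℝ) : ℂ))
    (((b3 (x / R) / R ^ 3 : ℝ) : ℂ)) x := by
  have hR0 : R ≠ 0 := by linarith
  have h := (((b2_deriv (x / R)).comp x ((hasDerivAt_id x).div_const R)).div_const
    (R ^ 2)).ofReal_comp
  refine h.congr_deriv ?_
  congr 1
  field_simp

/-- the coefficient as a function of the other variable -/
theorem coef_deriv {a b : ℝ} (hab : a < b) {β : ℝ → ℂ} (hβ : Continuous β) {g g' : ℝ → ℝ → ℂ}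
    (hg : Continuous fun p : ℝ × ℝ => g p.1 p.2) (hg' : Continuous fun p : ℝ × ℝ => g' p.1 p.2)
    (hd : ∀ x y, HasDerivAt (fun y => g x y) (g' x y) y) {M : ℝ} (hM : ∀ x y, ‖g' x y‖ ≤ M)
    (n : ℤ) (y : ℝ) : HasDerivAt (fun y => fourierCoeffOn hab (fun x => β x * g x y) n)
      (fourierCoeffOn hab (fun x => β x * g' x y) n) y := by
  have : Fact (0 < b - a) := ⟨by linarith⟩
  simp only [fourierCoeffOn_eq_integral]
  have cF : Continuous fun x : ℝ => (fourier (-n) (x : AddCircle (b - a)) : ℂ) :=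
    (fourier (-n)).continuous.comp (AddCircle.continuous_mk' (b - a))
  have key : HasDerivAt (fun y => ∫ x in a..b, (fourier (-n) (x : AddCircle (b - a)) : ℂ) •
      (β x * g x y)) (∫ x in a..b, (fourier (-n) (x : AddCircle (b - a)) : ℂ) • (β x * g' x y)) y := by
    have cg : ∀ y, Continuous fun x => g x y := fun y =>
      hg.comp (continuous_id.prodMk continuous_const)
    have cg' : ∀ y, Continuous fun x => g' x y := fun y =>
      hg'.comp (continuous_id.prodMk continuous_const)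
    refine (intervalIntegral.hasDerivAt_integral_of_dominated_loc_of_deriv_le (μ := volume)
      (F := fun y x => (fourier (-n) (x : AddCircle (b - a)) : ℂ) • (β x * g x y))
      (F' := fun y x => (fourier (-n) (x : AddCircle (b - a)) : ℂ) • (β x * g' x y))
      (bound := fun x => ‖β x‖ * M) (x₀ := y) (s := Set.univ) univ_mem ?_ ?_ ?_ ?_ ?_ ?_).2
    · exact Eventually.of_forall fun y =>
        (cF.smul (hβ.mul (cg y))).aestronglyMeasurable
    · exact (cF.smul (hβ.mul (cg y))).intervalIntegrable _ _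
    · exact (cF.smul (hβ.mul (cg' y))).aestronglyMeasurable
    · refine Eventually.of_forall fun x _ y _ => ?_
      rw [norm_smul, norm_mul]
      have h2 : ‖(fourier (-n) (x : AddCircle (b - a)) : ℂ)‖ = 1 := by
        rw [fourier_apply]
        exact Circle.norm_coe _
      rw [h2, one_mul]
      exact mul_le_mul_of_nonneg_left (hM x y) (norm_nonneg _)
    · exact (hβ.norm.mul continuous_const).intervalIntegrable _ _
    · exact Eventually.of_forall fun x _ y _ =>
        ((hd x y).const_mul (β x)).const_mul (fourier (-n) (x : AddCircle (b - a)) : ℂ)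
  exact key.const_smul _

theorem coef_cont {a b : ℝ} (hab : a < b) {β : ℝ → ℂ} (hβ : Continuous β) {g : ℝ → ℝ → ℂ}
    (hg : Continuous fun p : ℝ × ℝ => g p.1 p.2) (n : ℤ) :
    Continuous fun y => fourierCoeffOn hab (fun x => β x * g x y) n := by
  have : Fact (0 < b - a) := ⟨by linarith⟩
  simp only [fourierCoeffOn_eq_integral]
  have cF : Continuous fun x : ℝ => (fourier (-n) (x : AddCircle (b - a)) : ℂ) :=
    (fourier (-n)).continuous.comp (AddCircle.continuous_mk' (b - a))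
  refine Continuous.const_smul ?_ _
  refine intervalIntegral.continuous_parametric_intervalIntegral_of_continuous' ?_ _ _
  exact (cF.comp continuous_snd).smul ((hβ.comp continuous_snd).mul
    (hg.comp (continuous_snd.prodMk continuous_fst)))

/-- **bounded mixed derivatives suffice** -/
theorem exists_KC33 : ∃ K : ℝ, 0 < K ∧ ∀ R : ℝ, 1 ≤ R → ∀ (M : ℝ) (f : ℕ → ℕ → ℝ → ℝ → ℂ),
    C33 M f → KC R (K * R ^ 6 * M) (f 0 0) := by
  obtain ⟨C, hC, c0, c1, c2, c3⟩ := exists_bb
  obtain ⟨K1, hK1, H1⟩ := exists_KC1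
  have hKz : 0 ≤ Kz := tsum_nonneg fun n => by positivity
  refine ⟨K1 * C * (1 + 96 * Kz), by positivity, fun R hR M f hf => ?_⟩
  have hR0 : 0 < R := by linarith
  have hM : 0 ≤ M := (norm_nonneg _).trans (hf.bd 0 0 (by norm_num) (by norm_num) 0 0)
  have hL : (0 : ℝ) < 2 * R := by linarith
  have hab : -(2 * R) < 2 * R := by linarith
  obtain ⟨β, hβ⟩ : ∃ β : ℝ → ℂ, β = fun x : ℝ => ((b0 (x / R) : ℝ) : ℂ) := ⟨_, rfl⟩
  have cb0 := b0_smooth.continuous
  have cb1 := b1_smooth.continuous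
  have cb2 := b2_smooth.continuous
  have cb3 := b3_cont
  have cβ : Continuous β := by
    rw [hβ]
    fun_prop
  obtain ⟨co, hco⟩ : ∃ co : ℤ → ℕ → ℝ → ℂ, co = fun n j y =>
    fourierCoeffOn hab (fun x => β x * f 0 j x y) n := ⟨_, rfl⟩
  obtain ⟨Bn, hBn⟩ : ∃ Bn : ℤ → ℝ, Bn = fun n : ℤ => if n = 0 then C * M else
    (2 * R / (Real.pi * |(n : ℝ)|)) ^ 3 * (8 * (C * M)) := ⟨_, rfl⟩
  -- the data for every `j`, `y`
  have data : ∀ j, j ≤ 3 → ∀ y : ℝ, (∀ n, ‖co n j y‖ ≤ Bn n) ∧ ∀ t : ℝ, |t| < 2 * R →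
      HasSum (fun n : ℤ => co n j y * cexp ((((Real.pi * n / (2 * R)) * t : ℝ) : ℂ) * I))
        (β t * f 0 j t y) := by
    intro j hj y
    have e1 := fun x => (cut_d0 R x).mul (hf.d1 0 j (by norm_num) hj x y)
    have e2 := fun x => ((cut_d1 hR x).mul (hf.d1 0 j (by norm_num) hj x y)).add
      ((cut_d0 R x).mul (hf.d1 1 j (by norm_num) hj x y))
    have e3 := fun x => (((cut_d2 hR x).mul (hf.d1 0 j (by norm_num) hj x y)).add
      ((cut_d1 hR x).mul (hf.d1 1 j (by norm_num) hj x y))).add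
      (((cut_d1 hR x).mul (hf.d1 1 j (by norm_num) hj x y)).add
      ((cut_d0 R x).mul (hf.d1 2 j (by norm_num) hj x y)))
    simp only [zero_add, one_add_one_eq_two, show (2 : ℕ) + 1 = 3 from rfl] at e1 e2 e3
    have cf : ∀ i, i ≤ 3 → Continuous fun x => f i j x y := fun i hi =>
      (hf.c i j hi hj).comp (continuous_id.prodMk continuous_const)
    have cf0 := cf 0 (by norm_num)
    have cf1 := cf 1 (by norm_num)
    have cf2 := cf 2 (by norm_num)
    have cf3 := cf 3 (by norm_num)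
    have zer : ∀ x : ℝ, |x| = 2 * R → 3 / 2 < |x / R| := by
      intro x hx
      rw [abs_div, hx, abs_of_pos hR0, mul_div_assoc, div_self hR0.ne']
      norm_num
    have za : |(-(2 * R))| = 2 * R := by rw [abs_neg, abs_of_pos (by linarith)]
    have zb : |2 * R| = 2 * R := abs_of_pos (by linarith)
    have a0 := zer _ za
    have b0' := zer _ zb
    have nm : ∀ (k : ℕ) (y : ℝ) (z : ℂ), |y| ≤ C → ‖z‖ ≤ M → ‖((y / R ^ k : ℝ) : ℂ) * z‖ ≤ C * M := by
      intro k y z hy hz
      rw [norm_mul, Complex.norm_real, Real.norm_eq_abs]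
      refine mul_le_mul ?_ hz (norm_nonneg _) (by linarith)
      rw [abs_div, abs_of_pos (by positivity : 0 < R ^ k)]
      exact (div_le_self (abs_nonneg _) (one_le_pow₀ hR)).trans hy
    obtain ⟨D1, D2⟩ := four_data hL (g := fun x => ((b0 (x / R) : ℝ) : ℂ) * f 0 j x y) e1 e2 e3
      (by fun_prop)
      (by simp only [b0_zero a0.le, ofReal_zero, zero_mul])
      (by simp only [b0_zero b0'.le, ofReal_zero, zero_mul])
      (by simp only [b0_zero a0.le, b1_zero a0, ofReal_zero, zero_mul, zero_div, add_zero])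
      (by simp only [b0_zero b0'.le, b1_zero b0', ofReal_zero, zero_mul, zero_div, add_zero])
      (by simp only [b0_zero a0.le, b1_zero a0, b2_zero a0, ofReal_zero, zero_mul, zero_div,
        add_zero])
      (by simp only [b0_zero b0'.le, b1_zero b0', b2_zero b0', ofReal_zero, zero_mul, zero_div,
        add_zero])
      (M0 := C * M) (M3 := 8 * (C * M))
      (fun x _ _ => by
        have := nm 0 _ _ (c0 (x / R)) (hf.bd 0 j (by norm_num) hj x y)
        rwa [pow_zero, div_one] at this)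
      (fun x _ _ => by
        have k1 := nm 3 _ _ (c3 (x / R)) (hf.bd 0 j (by norm_num) hj x y)
        have k2 := nm 2 _ _ (c2 (x / R)) (hf.bd 1 j (by norm_num) hj x y)
        have k3 := nm 1 _ _ (c1 (x / R)) (hf.bd 2 j (by norm_num) hj x y)
        have k4 := nm 0 _ _ (c0 (x / R)) (hf.bd 3 j (by norm_num) hj x y)
        rw [pow_one] at k3
        rw [pow_zero, div_one] at k4
        refine (norm_add_le _ _).trans ?_
        refine (add_le_add (norm_add_le _ _) (norm_add_le _ _)).trans ?_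
        refine (add_le_add (add_le_add (norm_add_le _ _) (norm_add_le _ _))
          (add_le_add (norm_add_le _ _) (norm_add_le _ _))).trans ?_
        linarith) hab
    rw [hco, hBn, hβ]
    exact ⟨D1, D2⟩
  -- the coefficients in the class
  have hcl : ∀ n, KC1 R (K1 * R ^ 3 * Bn n) (co n 0) := by
    intro n
    have dd : ∀ j, j < 3 → ∀ y, HasDerivAt (co n j) (co n (j + 1) y) y := by
      intro j hj y
      rw [hco]
      exact coef_deriv hab cβ (hf.c 0 j (by norm_num) hj.le) (hf.c 0 (j + 1) (by norm_num) hj)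
        (hf.d2 j hj) (hf.bd 0 (j + 1) (by norm_num) hj) n y
    refine H1 R hR (co n 0) (co n 1) (co n 2) (co n 3) (dd 0 (by norm_num)) (dd 1 (by norm_num))
      (dd 2 (by norm_num)) ?_ (Bn n) (fun y _ => (data 0 (by norm_num) y).1 n)
      (fun y _ => (data 1 (by norm_num) y).1 n) (fun y _ => (data 2 (by norm_num) y).1 n)
      fun y _ => (data 3 (by norm_num) y).1 n
    rw [hco]
    exact coef_cont hab cβ (hf.c 0 3 (by norm_num) le_rfl) n
  have hBn0 : ∀ n, 0 ≤ Bn n := fun n => (norm_nonneg _).trans ((data 0 (by norm_num) 0).1 n)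
  obtain ⟨ee, hee⟩ : ∃ ee : ℤ → ℝ → ℝ → ℂ, ee = fun n t t' =>
    co n 0 t' * cexp ((((Real.pi * n / (2 * R)) * t : ℝ) : ℂ) * I) := ⟨_, rfl⟩
  obtain ⟨W, hW⟩ : ∃ W : ℤ → ℝ, W = fun n : ℤ => K1 * R ^ 3 * Bn n * (1 + |Real.pi * n / (2 * R)|) :=
    ⟨_, rfl⟩
  have hek : ∀ n, KC R (W n) (ee n) := by
    intro n
    have h1 := (hcl n).right.mul (KC.exp (R := R) (Real.pi * n / (2 * R)) 0)
    rw [hW, hee]
    refine (h1.mono (le_of_eq ?_)).congr fun t t' _ _ => ?_
    · rw [abs_zero, add_zero]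
    · rw [zero_mul, add_zero]
  have hpi := Real.pi_gt_three
  have hWle : ∀ n : ℤ, W n ≤ (if n = 0 then K1 * C * M * R ^ 6 else 0) +
      (K1 * C * M * R ^ 6 * 96) * (1 / (n : ℝ) ^ 2) := by
    intro n
    have hR36 : R ^ 3 ≤ R ^ 6 := pow_le_pow_right₀ hR (by norm_num)
    rw [hW, hBn]
    by_cases hn : n = 0
    · subst hn
      simp only [if_true, Int.cast_zero, mul_zero, zero_div, abs_zero, add_zero, mul_one, ne_eq,
        OfNat.ofNat_ne_zero, not_false_eq_true, zero_pow, div_zero]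
      have h0 : 0 ≤ K1 * (C * M) := by positivity
      nlinarith
    · simp only [if_neg hn, zero_add]
      have hn1 : (1 : ℝ) ≤ |(n : ℝ)| := by
        rw [← Int.cast_abs]
        exact_mod_cast Int.one_le_abs hn
      have e1 : |Real.pi * n / (2 * R)| = Real.pi * |(n : ℝ)| / (2 * R) := by
        rw [abs_div, abs_mul, abs_of_pos Real.pi_pos, abs_of_pos hL]
      rw [e1, ← sq_abs (n : ℝ)]
      obtain ⟨N, hN⟩ : ∃ N : ℝ, N = |(n : ℝ)| := ⟨_, rfl⟩
      rw [← hN] at hn1 ⊢
      have hN0 : 0 < N := by linarith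
      have q1 : 1 / (Real.pi ^ 3 * N) ≤ 1 := by
        rw [div_le_one (by positivity)]
        have : 1 ≤ Real.pi ^ 3 := one_le_pow₀ (by linarith)
        nlinarith
      have q2 : 1 / Real.pi ^ 2 ≤ 1 := by
        rw [div_le_one (by positivity)]
        exact one_le_pow₀ (by linarith)
      have hR23 : R ^ 2 ≤ R ^ 3 := pow_le_pow_right₀ hR (by norm_num)
      calc K1 * R ^ 3 * ((2 * R / (Real.pi * N)) ^ 3 * (8 * (C * M))) *
            (1 + Real.pi * N / (2 * R)) =
            K1 * R ^ 3 * (8 * (C * M)) * ((2 * R) ^ 3 * (1 / (Real.pi ^ 3 * N)) +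
              (2 * R) ^ 2 * (1 / Real.pi ^ 2)) * (1 / N ^ 2) := by
            field_simp
        _ ≤ K1 * R ^ 3 * (8 * (C * M)) * ((2 * R) ^ 3 * 1 + (2 * R) ^ 2 * 1) * (1 / N ^ 2) := by
            gcongr
        _ = K1 * R ^ 3 * (8 * (C * M)) * (8 * R ^ 3 + 4 * R ^ 2) * (1 / N ^ 2) := by ring
        _ ≤ K1 * R ^ 3 * (8 * (C * M)) * (8 * R ^ 3 + 4 * R ^ 3) * (1 / N ^ 2) := by gcongr
        _ = _ := by ring
  have hsum2 : Summable fun n : ℤ => (if n = 0 then K1 * C * M * R ^ 6 else 0) +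
      (K1 * C * M * R ^ 6 * 96) * (1 / (n : ℝ) ^ 2) := by
    refine Summable.add ?_ (summable_Kz.mul_left _)
    exact summable_of_ne_finset_zero (s := {0}) fun n hn => by
      rw [if_neg (by simpa using hn)]
  have hW0 : ∀ n, 0 ≤ W n := fun n => (hek n).nonneg
  have hsumW : Summable W := Summable.of_nonneg_of_le hW0 hWle hsum2
  have htot : ∑' n, W n ≤ K1 * C * (1 + 96 * Kz) * R ^ 6 * M := by
    refine (hsumW.tsum_le_tsum hWle hsum2).trans (le_of_eq ?_)
    rw [Summable.tsum_add _ (summable_Kz.mul_left _), tsum_ite_eq, tsum_mul_left]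
    · change _ + _ * Kz = _
      ring
    · exact summable_of_ne_finset_zero (s := {0}) fun n hn => by
        rw [if_neg (by simpa using hn)]
  have hBW : ∀ n, Bn n * (K1 * R ^ 3) ≤ W n := by
    intro n
    rw [hW]
    have h1 := abs_nonneg (Real.pi * n / (2 * R))
    have h2 : 0 ≤ K1 * R ^ 3 * Bn n := mul_nonneg (by positivity) (hBn0 n)
    nlinarith
  have hKR : 0 < K1 * R ^ 3 := by positivity
  have hsumB : Summable Bn := by
    refine Summable.of_nonneg_of_le hBn0 (fun n => ?_) (hsumW.mul_right (K1 * R ^ 3)⁻¹)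
    rw [← div_eq_mul_inv, le_div_iff₀ hKR]
    exact hBW n
  refine KC_lim fun ε hε => ?_
  obtain ⟨S, hS⟩ : ∃ S : Finset ℤ, ∑' n : ↥((S : Set ℤ)ᶜ), Bn n < ε := by
    have h5 := (tendsto_tsum_compl_atTop_zero Bn).eventually_lt_const hε
    obtain ⟨S, hS⟩ := h5.exists
    exact ⟨S, hS⟩
  refine ⟨fun t t' => ∑ n ∈ S, ee n t t', (KC.sum S fun n _ => hek n).mono ?_, fun t t' ht ht' => ?_⟩
  · exact (hsumW.sum_le_tsum S fun n _ => hW0 n).trans htot
  · obtain ⟨d1, d2⟩ := data 0 (by norm_num) t'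
    have h6 := d2 t (by linarith [ht])
    have hβ1 : β t = 1 := by
      rw [hβ]
      simp only
      rw [b0_one, ofReal_one]
      rw [abs_div, abs_of_pos hR0, div_le_one hR0]
      exact ht
    rw [hβ1, one_mul] at h6
    have h9 : f 0 0 t t' - ∑ n ∈ S, ee n t t' = ∑' n : ↥((S : Set ℤ)ᶜ), ee n t t' := by
      rw [hee]
      rw [← h6.tsum_eq, ← h6.summable.sum_add_tsum_compl (s := S), add_sub_cancel_left]
    rw [h9]
    have h10 : Summable fun n : ↥((S : Set ℤ)ᶜ) => Bn (n : ℤ) := hsumB.subtype _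
    refine (tsum_of_norm_bounded h10.hasSum fun n => ?_).trans hS.le
    rw [hee]
    simp only
    rw [norm_mul, norm_e, mul_one]
    exact d1 n

end PLT.KB

end
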