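import Pool.Agent.PLT.KBd

/-!
# Bounded derivatives of the functions of the kernels

* `AlgD c f`: the algebra of `fC c`, `fS c`, `tanh`, closed under derivation; `AlgD.seq`, **`AlgD.B1`**;
* `hh x = Σ 2^-(j+1) tanh (x / 2^(j+1))`: **`xcoth_hh : x coth x = 1 + x hh x`**, **`hh_B1`**;
* `shc_diff`: `sinh w / w` is entire.
-/

set_option autoImplicit false

noncomputable section

open Complex Finset Filter MeasureTheory
open scoped Topology ContDiff Nat

namespace PLT.KB

open NUKer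

/-! ### sequences of derivatives -/

/-- a sequence of derivatives with bounds -/
theorem B1_of_seq {k : ℕ} {M : ℝ} {f : ℕ → ℝ → ℂ} (hd : ∀ n x, HasDerivAt (f n) (f (n + 1) x) x)
    (hb : ∀ n ≤ k, ∀ x, ‖f n x‖ ≤ M) : B1 k M (f 0) := by
  have e : ∀ n, iteratedDeriv n (f 0) = f n := by
    intro n
    induction n with
    | zero => exact iteratedDeriv_zero
    | succ n ih =>
      rw [iteratedDeriv_succ, ih]
      exact funext fun x => (hd n x).deriv
  refine ⟨?_, fun n hn x => by rw [e]; exact hb n hn x⟩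
  refine contDiff_of_differentiable_iteratedDeriv fun n _ => ?_
  rw [e]
  exact fun x => (hd n x).differentiableAt

/-- the algebra of `fC c`, `fS c`, `tanh` -/
inductive AlgD (c : ℝ) : (ℝ → ℝ) → Prop
  | const (a : ℝ) : AlgD c (fun _ => a)
  | C : AlgD c (fC c)
  | S : AlgD c (fS c)
  | T : AlgD c Real.tanh
  | add {f g : ℝ → ℝ} : AlgD c f → AlgD c g → AlgD c (fun x => f x + g x)
  | mul {f g : ℝ → ℝ} : AlgD c f → AlgD c g → AlgD c (fun x => f x * g x)

section

variable {c : ℝ} (hc : c < 1)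

include hc

theorem AlgD.der {f : ℝ → ℝ} (h : AlgD c f) : ∃ f' : ℝ → ℝ, AlgD c f' ∧
    ∀ x, HasDerivAt f (f' x) x := by
  induction h with
  | const a => exact ⟨fun _ => 0, .const 0, fun x => hasDerivAt_const x a⟩
  | C =>
    refine ⟨_, ((AlgD.const 2).mul .S).add (((AlgD.const (-2)).mul .S).mul .C), fun x => ?_⟩
    refine (fC_deriv hc x).congr_deriv ?_
    ring
  | S =>
    refine ⟨_, ((AlgD.const 2).mul .C).add (((AlgD.const (-2)).mul .S).mul .S), fun x => ?_⟩
    refine (fS_deriv hc x).congr_deriv ?_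
    ring
  | T =>
    refine ⟨_, (AlgD.const 1).add (((AlgD.const (-1)).mul .T).mul .T), fun x => ?_⟩
    refine (tanh_deriv x).congr_deriv ?_
    ring
  | add _ _ h1 h2 =>
    obtain ⟨f', a1, d1⟩ := h1
    obtain ⟨g', a2, d2⟩ := h2
    exact ⟨_, a1.add a2, fun x => (d1 x).add (d2 x)⟩
  | mul k1 k2 h1 h2 =>
    obtain ⟨f', a1, d1⟩ := h1
    obtain ⟨g', a2, d2⟩ := h2
    exact ⟨_, (a1.mul k2).add (k1.mul a2), fun x => (d1 x).mul (d2 x)⟩

theorem AlgD.bdd {f : ℝ → ℝ} (h : AlgD c f) : ∃ B : ℝ, 0 ≤ B ∧ ∀ x, |f x| ≤ B := by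
  induction h with
  | const a => exact ⟨|a|, abs_nonneg _, fun _ => le_rfl⟩
  | C => exact ⟨Bc c, by linarith [one_le_Bc hc], fC_abs hc⟩
  | S => exact ⟨Bc c, by linarith [one_le_Bc hc], fS_abs hc⟩
  | T => exact ⟨1, zero_le_one, tanh_abs_le⟩
  | add _ _ h1 h2 =>
    obtain ⟨B, hB, b1⟩ := h1
    obtain ⟨B', hB', b2⟩ := h2
    exact ⟨B + B', by positivity, fun x => (abs_add_le _ _).trans (add_le_add (b1 x) (b2 x))⟩
  | mul _ _ h1 h2 =>
    obtain ⟨B, hB, b1⟩ := h1
    obtain ⟨B', hB', b2⟩ := h2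
    refine ⟨B * B', by positivity, fun x => ?_⟩
    rw [abs_mul]
    exact mul_le_mul (b1 x) (b2 x) (abs_nonneg _) hB

/-- the sequence of derivatives -/
theorem AlgD.seq {f : ℝ → ℝ} (h : AlgD c f) : ∃ s : ℕ → ℝ → ℝ, s 0 = f ∧
    (∀ n x, HasDerivAt (s n) (s (n + 1) x) x) ∧ ∀ n, ∃ B : ℝ, 0 ≤ B ∧ ∀ x, |s n x| ≤ B := by
  obtain ⟨D, hD⟩ : ∃ D : {f : ℝ → ℝ // AlgD c f} → {f : ℝ → ℝ // AlgD c f},
      ∀ f, ∀ x, HasDerivAt f.1 ((D f).1 x) x := by
    choose D h1 h2 using fun f : {f : ℝ → ℝ // AlgD c f} => f.2.der hc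
    exact ⟨fun f => ⟨D f, h1 f⟩, h2⟩
  refine ⟨fun n => (D^[n] ⟨f, h⟩).1, rfl, fun n x => ?_, fun n => (D^[n] ⟨f, h⟩).2.bdd hc⟩
  simp only
  rw [Function.iterate_succ_apply']
  exact hD _ x

/-- **bounded derivatives** -/
theorem AlgD.B1 {f : ℝ → ℝ} (h : AlgD c f) (k : ℕ) : ∃ M : ℝ, 0 ≤ M ∧
    KB.B1 k M (fun x => (f x : ℂ)) := by
  obtain ⟨s, s0, sd, sb⟩ := h.seq hc
  choose B hB0 hB using sb
  refine ⟨∑ i ∈ range (k + 1), B i, sum_nonneg fun i _ => hB0 i, ?_⟩
  have := B1_of_seq (k := k) (M := ∑ i ∈ range (k + 1), B i) (f := fun n x => (s n x : ℂ))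
    (fun n x => (sd n x).ofReal_comp) fun n hn x => by
      rw [Complex.norm_real, Real.norm_eq_abs]
      exact (hB n x).trans (single_le_sum (f := B) (fun i _ => hB0 i) (mem_range.2 (by omega)))
  simp only [s0] at this
  exact this

end

/-! ### `x coth x` -/

/-- `(x coth x - 1) / x` -/
def hh (x : ℝ) : ℝ := ∑' j : ℕ, (1 / 2 : ℝ) ^ (j + 1) * Real.tanh (x / 2 ^ (j + 1))

theorem xcoth_hh (x : ℝ) : xcoth x = 1 + x * hh x := by
  unfold xcoth hh
  rw [← tsum_mul_left]
  congr 1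
  refine tsum_congr fun j => ?_
  unfold fh
  rw [one_div, inv_pow]
  ring

theorem hh_B1 (k : ℕ) : ∃ M : ℝ, 0 ≤ M ∧ B1 k M (fun x => (hh x : ℂ)) := by
  obtain ⟨s, s0, sd, sb⟩ := (AlgD.T (c := 0)).seq (by norm_num)
  choose B hB0 hB using sb
  obtain ⟨q, hq⟩ : ∃ q : ℕ → ℝ, q = fun j => (1 / 2 : ℝ) ^ (j + 1) := ⟨_, rfl⟩
  have q0 : ∀ j, 0 ≤ q j := fun j => by rw [hq]; positivity
  have q1 : ∀ j, q j ≤ 1 := fun j => by
    rw [hq]
    exact pow_le_one₀ (by norm_num) (by norm_num)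
  have hqs : HasSum q 1 := by
    rw [hq]
    have := hasSum_geometric_two.mul_left (1 / 2 : ℝ)
    have e : (fun j : ℕ => (1 / 2 : ℝ) ^ (j + 1)) = fun j : ℕ => 1 / 2 * (1 / 2 : ℝ) ^ j := by
      funext j
      rw [pow_succ]
      ring
    rw [e]
    simpa using this
  obtain ⟨g, hg⟩ : ∃ g : ℕ → ℕ → ℝ → ℝ, g = fun n j x => q j ^ (n + 1) * s n (q j * x) := ⟨_, rfl⟩
  have gb : ∀ n j x, |g n j x| ≤ q j * B n := by
    intro n j x
    rw [hg]
    simp only
    rw [abs_mul, abs_of_nonneg (pow_nonneg (q0 j) _)]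
    refine mul_le_mul ?_ (hB n _) (abs_nonneg _) (q0 j)
    calc q j ^ (n + 1) ≤ q j ^ 1 := pow_le_pow_of_le_one (q0 j) (q1 j) (by omega)
      _ = q j := pow_one _
  have gs : ∀ n, Summable fun j => q j * B n := fun n => hqs.summable.mul_right _
  have gd : ∀ n j x, HasDerivAt (g n j) (g (n + 1) j x) x := by
    intro n j x
    rw [hg]
    have h1 : HasDerivAt (fun x => q j * x) (q j) x := by
      simpa using (hasDerivAt_id x).const_mul (q j)
    have h2 := ((sd n (q j * x)).comp x h1).const_mul (q j ^ (n + 1))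
    refine h2.congr_deriv ?_
    ring
  obtain ⟨G, hG⟩ : ∃ G : ℕ → ℝ → ℝ, G = fun n x => ∑' j, g n j x := ⟨_, rfl⟩
  have Gd : ∀ n x, HasDerivAt (G n) (G (n + 1) x) x := by
    intro n x
    rw [hG]
    exact hasDerivAt_tsum (gs (n + 1)) (fun j y => gd n j y)
      (fun j y => by rw [Real.norm_eq_abs]; exact gb (n + 1) j y)
      (Summable.of_norm_bounded (gs n) fun j => by rw [Real.norm_eq_abs]; exact gb n j 0) x
  have Gb : ∀ n x, |G n x| ≤ B n := by
    intro n x
    rw [hG]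
    have h1 := tsum_of_norm_bounded (hqs.mul_right (B n)) (f := fun j => g n j x) fun j => by
      rw [Real.norm_eq_abs]
      exact gb n j x
    rw [one_mul, Real.norm_eq_abs] at h1
    exact h1
  have e0 : G 0 = hh := by
    funext x
    rw [hG, hg]
    unfold hh
    refine tsum_congr fun j => ?_
    simp only [s0, hq, zero_add, pow_one]
    congr 2
    rw [one_div, inv_pow]
    ring
  refine ⟨∑ i ∈ range (k + 1), B i, sum_nonneg fun i _ => hB0 i, ?_⟩
  have := B1_of_seq (k := k) (M := ∑ i ∈ range (k + 1), B i) (f := fun n x => (G n x : ℂ))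
    (fun n x => (Gd n x).ofReal_comp) fun n hn x => by
      rw [Complex.norm_real, Real.norm_eq_abs]
      exact (Gb n x).trans (single_le_sum (f := B) (fun i _ => hB0 i) (mem_range.2 (by omega)))
  simp only [e0] at this
  exact this

/-- `sinh w / w` is entire -/
theorem shc_diff : Differentiable ℂ shc := by
  have h1 : Differentiable ℂ (dslope Complex.sinh 0) := by
    have := (Complex.differentiableOn_dslope (s := Set.univ) (c := 0) (f := Complex.sinh)
      univ_mem).2 Complex.differentiable_sinh.differentiableOn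
    exact differentiableOn_univ.1 this
  have h2 : shc = dslope Complex.sinh 0 := by
    funext w
    rcases eq_or_ne w 0 with rfl | hw
    · rw [dslope_same, Complex.deriv_sinh, Complex.cosh_zero]
      unfold shc
      rw [tsum_eq_single 0]
      · simp
      · intro n hn
        rw [zero_pow two_ne_zero, zero_pow hn, mul_zero]
    · rw [dslope_of_ne _ hw, slope_def_field, Complex.sinh_zero, sub_zero, sub_zero]
      have := mul_shc w
      field_simp
      linear_combination this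
  rw [h2]
  exact h1

end PLT.KB

end
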