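import Pool.Agent.PLT.KerF1
import Pool.Agent.NUAct.CK
import Pool.Agent.NUAct.PhiQ2
import Pool.Agent.NUP.MF.Const
import Pool.Agent.NU42.Split

/-!
# THETA, row B: the static curve, relative changes and second derivatives (helper69)

`Bent η η1`: slope `≤ 1 / 4`, oscillation `≤ 3 / 125`; `Di η t = η t I`. `Bent.small`: all relative changes are
`≤ 1 / 2`. `hasDerivAt_Usd`, `hasDerivAt_Uxd`: second derivatives; `Usd_dec`, `Uxd_dec`: decay.
-/

set_option autoImplicit false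

open MeasureTheory Set Filter Topology Complex

namespace PLT.KF

open NUMF NUKer NUAct NU42

noncomputable section

/-- a bent curve -/
structure Bent (η η1 : ℝ → ℝ) : Prop where
  d : ∀ t, HasDerivAt η (η1 t) t
  c : Continuous η1
  osc : ∀ t s, |η t - η s| ≤ 3 / 125
  sl : ∀ t, |η1 t| ≤ 1 / 4

/-- its displacement -/
def Di (η : ℝ → ℝ) (t : ℝ) : ℂ := η t * I

variable {η η1 : ℝ → ℝ}

lemma Bent.lip (h : Bent η η1) (t s : ℝ) : |η t - η s| ≤ |t - s| / 4 := by
  have h1 := Convex.norm_image_sub_le_of_norm_hasDerivWithin_le (f := η) (f' := η1) (C := 1 / 4) (s := Set.univ)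
    (x := s) (y := t) (fun x _ => (h.d x).hasDerivWithinAt) (fun x _ => h.sl x) convex_univ trivial trivial
  rw [Real.norm_eq_abs, Real.norm_eq_abs] at h1
  linarith

lemma Bent.Dd (h : Bent η η1) (t : ℝ) : HasDerivAt (Di η) (Di η1 t) t :=
  (h.d t).ofReal_comp.mul_const I

lemma Bent.Dc (h : Bent η η1) : Continuous (Di η1) := by
  unfold Di
  exact (Complex.continuous_ofReal.comp h.c).mul continuous_const

lemma Di_z (η : ℝ → ℝ) (t s : ℝ) : ((t : ℂ) + Di η t) - (s + Di η s) = ((t - s : ℝ) : ℂ) + ((η t - η s : ℝ) : ℂ) * I := by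
  unfold Di
  push_cast
  ring

lemma C_diff' {x δ : ℝ} (hδ : |δ| ≤ 3 / 125) :
    ‖Complex.cosh (2 * ((x : ℂ) + δ * I)) - (Real.cosh (2 * x) : ℂ)‖ ≤ 9 / 125 * (Real.cosh (2 * x) - r) := by
  rcases le_total 0 x with h | h
  · exact (C_diff h hδ).1
  · have h1 := (C_diff (x := -x) (δ := -δ) (by linarith) (by rwa [abs_neg])).1
    have e1 : Complex.cosh (2 * (((-x : ℝ) : ℂ) + ((-δ : ℝ) : ℂ) * I)) = Complex.cosh (2 * ((x : ℂ) + δ * I)) := by
      rw [← Complex.cosh_neg]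
      congr 1
      push_cast
      ring
    rw [e1, show 2 * -x = -(2 * x) by ring, Real.cosh_neg] at h1
    exact h1

lemma Bent.Yc (h : Bent η η1) {c : ℝ} (hc : c ≤ r) (t s : ℝ) : ‖NUKer.Yc c (Di η) (Di η) t s‖ ≤ 9 / 125 := by
  have hr := r_hi
  have hc1 : c < 1 := by linarith
  have hX := Real.one_le_cosh (2 * (t - s))
  have h1 := den_mul hc1 (Di η) (Di η) t s
  have h2 := C_diff' (x := t - s) (h.osc t s)
  rw [Di_z] at h1
  obtain ⟨X, hXd⟩ : ∃ X, X = Real.cosh (2 * (t - s)) := ⟨_, rfl⟩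
  rw [← hXd] at h1 h2 hX
  have hd : 0 < X - c := by linarith
  have e : Complex.cosh (2 * (((t - s : ℝ) : ℂ) + ((η t - η s : ℝ) : ℂ) * I)) - (X : ℂ) =
      ((X - c : ℝ) : ℂ) * NUKer.Yc c (Di η) (Di η) t s := by
    push_cast at h1 ⊢
    linear_combination h1
  rw [e, norm_mul, Complex.norm_real, Real.norm_of_nonneg hd.le] at h2
  have h3 : (X - c) * ‖NUKer.Yc c (Di η) (Di η) t s‖ ≤ (X - c) * (9 / 125) := by
    have : X - r ≤ X - c := by linarith
    nlinarith
  exact le_of_mul_le_mul_left h3 hd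

lemma coth_le {x : ℝ} (hx : 0 < x) : Real.cosh x ≤ (1 + 1 / x) * Real.sinh x := by
  have h1 : Real.cosh x - Real.sinh x = Real.exp (-x) := by rw [Real.cosh_eq, Real.sinh_eq]; ring
  have h2 : x ≤ Real.sinh x := Real.self_le_sinh_iff.2 hx.le
  have h3 : Real.exp (-x) ≤ 1 := Real.exp_le_one_iff.2 (by linarith)
  have h4 : 1 ≤ 1 / x * Real.sinh x := by
    rw [one_div_mul_eq_div, one_le_div hx]
    exact h2
  linarith

lemma Bent.Y0 (h : Bent η η1) (t s : ℝ) : ‖NUKer.Y0 (Di η) (Di η1) t s‖ ≤ 3 / 10 := by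
  rcases eq_or_ne t s with rfl | hne
  · rw [Y0_diag]
    unfold Di
    rw [norm_mul, Complex.norm_I, mul_one, Complex.norm_real, Real.norm_eq_abs]
    linarith [h.sl t]
  · have h1 := sinh_mul h.Dd h.Dc t s
    rw [Di_z] at h1
    obtain ⟨x, hx⟩ : ∃ x, x = t - s := ⟨_, rfl⟩
    obtain ⟨δ, hδ⟩ : ∃ δ, δ = η t - η s := ⟨_, rfl⟩
    have ho : |δ| ≤ 3 / 125 := hδ ▸ h.osc t s
    have hl : |δ| ≤ |x| / 4 := by rw [hδ, hx]; exact h.lip t s
    rw [← hx, ← hδ] at h1
    have hx0 : x ≠ 0 := by rw [hx]; exact sub_ne_zero.2 hne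
    have hs0 : Real.sinh x ≠ 0 := by rwa [Ne, Real.sinh_eq_zero]
    have hs : 0 < |Real.sinh x| := abs_pos.2 hs0
    have e : ((Real.sinh x : ℝ) : ℂ) * NUKer.Y0 (Di η) (Di η1) t s =
        ((-(Real.sinh x * (1 - Real.cos δ)) : ℝ) : ℂ) + ((Real.cosh x * Real.sin δ : ℝ) : ℂ) * I := by
      have e2 : Complex.sinh ((x : ℂ) + δ * I) = ((Real.sinh x * Real.cos δ : ℝ) : ℂ) +
          ((Real.cosh x * Real.sin δ : ℝ) : ℂ) * I := by
        rw [Complex.sinh_add, Complex.cosh_mul_I, Complex.sinh_mul_I, ← Complex.ofReal_cosh,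
          ← Complex.ofReal_sinh, ← Complex.ofReal_cos, ← Complex.ofReal_sin]
        push_cast
        ring
      rw [e2] at h1
      push_cast at h1 ⊢
      linear_combination -h1
    have h2 : |Real.sinh x| * ‖NUKer.Y0 (Di η) (Di η1) t s‖ ≤ |Real.sinh x| * (δ ^ 2 / 2) + Real.cosh x * |δ| := by
      rw [← Real.norm_eq_abs (Real.sinh x), ← Complex.norm_real, ← norm_mul, e]
      refine (norm_add_le _ _).trans (add_le_add ?_ ?_)
      · rw [Complex.norm_real, Complex.norm_real, Real.norm_eq_abs, abs_neg, abs_mul, Real.norm_eq_abs,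
          abs_of_nonneg (by linarith [Real.cos_le_one δ] : 0 ≤ 1 - Real.cos δ)]
        refine mul_le_mul_of_nonneg_left ?_ (abs_nonneg _)
        have := Real.one_sub_sq_div_two_le_cos (x := δ)
        linarith
      · rw [norm_mul, Complex.norm_I, mul_one, Complex.norm_real, Real.norm_eq_abs, abs_mul,
          abs_of_pos (Real.cosh_pos x)]
        exact mul_le_mul_of_nonneg_left Real.abs_sin_le_abs (Real.cosh_pos x).le
    have h3 : Real.cosh x ≤ (1 + 1 / |x|) * |Real.sinh x| := by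
      have := coth_le (abs_pos.2 hx0)
      rwa [Real.cosh_abs, ← Real.abs_sinh] at this
    have hx1 : 0 < |x| := abs_pos.2 hx0
    have h4 : (1 + 1 / |x|) * |δ| ≤ 3 / 125 + 1 / 4 := by
      have : 1 / |x| * |δ| ≤ 1 / |x| * (|x| / 4) := by gcongr
      have e5 : 1 / |x| * (|x| / 4) = 1 / 4 := by field_simp
      nlinarith
    have h5 : Real.cosh x * |δ| ≤ |Real.sinh x| * (3 / 125 + 1 / 4) := by
      calc Real.cosh x * |δ| ≤ ((1 + 1 / |x|) * |Real.sinh x|) * |δ| := by gcongr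
        _ = |Real.sinh x| * ((1 + 1 / |x|) * |δ|) := by ring
        _ ≤ _ := by gcongr
    have h6 : δ ^ 2 ≤ (3 / 125) ^ 2 := by
      rw [← sq_abs]
      exact pow_le_pow_left₀ (abs_nonneg _) ho 2
    have h7 : |Real.sinh x| * ‖NUKer.Y0 (Di η) (Di η1) t s‖ ≤ |Real.sinh x| * (3 / 10) := by
      nlinarith
    exact le_of_mul_le_mul_left h7 hs

theorem Bent.small (h : Bent η η1) : Small (Di η) (Di η1) (Di η) (Di η1) := by
  have hr := r_lo
  have hs : ∀ R, Sm R (Di η) (Di η1) := fun R => ⟨h.Dd, h.Dc, fun t t' _ _ => (h.Y0 t t').trans (by norm_num),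
    fun t t' _ _ => (h.Yc (by linarith) t t').trans (by norm_num), fun t t' _ _ => (h.Yc le_rfl t t').trans (by norm_num)⟩
  have hj : ∀ t, 1 + Di η1 t ≠ 0 := by
    intro t h0
    have := congrArg Complex.re h0
    simp [Di] at this
  exact ⟨hs, hs, fun R => ⟨fun t t' _ _ => (h.Yc (by linarith) t t').trans (by norm_num),
    fun t t' _ _ => (h.Yc (by linarith) t t').trans (by norm_num)⟩, hj, hj⟩

/-! ### second derivatives -/

lemma hasDerivAt_tanh {w : ℂ} (hw : Complex.cosh w ≠ 0) :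
    HasDerivAt (fun z => Complex.sinh z / Complex.cosh z) (1 / Complex.cosh w ^ 2) w := by
  have h := (Complex.hasDerivAt_sinh w).div (Complex.hasDerivAt_cosh w) hw
  refine h.congr_deriv ?_
  have h1 := Complex.cosh_sq_sub_sinh_sq w
  congr 1
  linear_combination h1

lemma hasDerivAt_coth {w : ℂ} (hw : Complex.sinh w ≠ 0) :
    HasDerivAt (fun z => Complex.cosh z / Complex.sinh z) (-(1 / Complex.sinh w ^ 2)) w := by
  have h := (Complex.hasDerivAt_cosh w).div (Complex.hasDerivAt_sinh w) hw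
  refine h.congr_deriv ?_
  have h1 := Complex.cosh_sq_sub_sinh_sq w
  rw [← neg_div]
  congr 1
  linear_combination -h1

lemma cosh_nez {w : ℂ} (hw : |w.im| < Real.pi / 2) : Complex.cosh w ≠ 0 := Complex.slitPlane_ne_zero (cosh_slit hw)

lemma Ty_dd {y : ℝ} {z : ℂ} (h : |z.im| + |y| < Real.pi / 2) :
    Complex.cosh (2 * z) + Real.cos (2 * y) ≠ 0 ∧
    HasDerivAt (Ty y) (4 * (1 + Real.cos (2 * y) * Complex.cosh (2 * z)) / (Complex.cosh (2 * z) +
      Real.cos (2 * y)) ^ 2) z := by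
  have n1 := cosh_nez (im_add_lt h)
  have n2 := cosh_nez (im_sub_lt h)
  have d1 := (hasDerivAt_tanh n1).comp z ((hasDerivAt_id z).add_const ((y:ℂ) * I))
  have d2 := (hasDerivAt_tanh n2).comp z ((hasDerivAt_id z).sub_const ((y:ℂ) * I))
  have d := d1.add d2
  have e1 : 2 * Complex.cosh (z + y * I) * Complex.cosh (z - y * I) = Complex.cosh (2 * z) + Real.cos (2 * y) := by
    rw [Complex.cosh_add, Complex.cosh_sub, Complex.cosh_mul_I, Complex.sinh_mul_I, Complex.ofReal_cos,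
      Complex.ofReal_mul, Complex.ofReal_ofNat, Complex.cos_two_mul, Complex.cosh_two_mul]
    have h1 := Complex.cosh_sq_sub_sinh_sq z
    have h2 := Complex.sin_sq_add_cos_sq (y : ℂ)
    linear_combination (-(2 * Complex.sinh z ^ 2 * Complex.sin (y:ℂ) ^ 2)) * Complex.I_sq +
      (Complex.sinh z ^ 2 * 2) * h2 + (2 * Complex.cos (y:ℂ) ^ 2 - 1) * h1
  have e2 : Complex.cosh (z + y * I) ^ 2 + Complex.cosh (z - y * I) ^ 2 = 1 + Real.cos (2 * y) *
      Complex.cosh (2 * z) := by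
    rw [Complex.cosh_add, Complex.cosh_sub, Complex.cosh_mul_I, Complex.sinh_mul_I, Complex.ofReal_cos,
      Complex.ofReal_mul, Complex.ofReal_ofNat, Complex.cos_two_mul, Complex.cosh_two_mul]
    have h1 := Complex.cosh_sq_sub_sinh_sq z
    have h2 := Complex.sin_sq_add_cos_sq (y : ℂ)
    linear_combination (2 * Complex.sinh z ^ 2 * Complex.sin (y:ℂ) ^ 2) * Complex.I_sq -
      (2 * Complex.sinh z ^ 2) * h2 + h1
  have hne : Complex.cosh (2 * z) + Real.cos (2 * y) ≠ 0 := by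
    rw [← e1]
    exact mul_ne_zero (mul_ne_zero two_ne_zero n1) n2
  refine ⟨hne, ?_⟩
  have hT : (fun z => Complex.sinh (z + y * I) / Complex.cosh (z + y * I) +
      Complex.sinh (z - y * I) / Complex.cosh (z - y * I)) = Ty y := rfl
  simp only [mul_one] at d
  refine HasDerivAt.congr_deriv (f := Ty y) d ?_
  rw [← e2, ← e1]
  field_simp
  ring

lemma cosh_two_one (z : ℂ) : Complex.cosh (2 * z) - 1 = 2 * Complex.sinh z ^ 2 := by
  rw [Complex.cosh_two_mul]
  have := Complex.cosh_sq_sub_sinh_sq z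
  linear_combination this

theorem hasDerivAt_Usd {z : ℂ} (h0 : 0 < z.re) (h : |z.im| < l) :
    HasDerivAt Usd (4 / (Complex.cosh (2 * z) - 1) + Fo (Complex.cosh (2 * z))) z := by
  have hl := l_pos
  have h8 := l8
  obtain ⟨c0, c1, c2, c3⟩ := cos_vals
  obtain ⟨n3, d3⟩ := Ty_dd (a3 h)
  obtain ⟨n2, d2⟩ := Ty_dd (a2 h)
  have hs : Complex.sinh z ≠ 0 := Complex.slitPlane_ne_zero (sinh_slit h0 (by linarith))
  have ds := (hasDerivAt_coth hs).const_mul 2
  rw [c3] at n3 d3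
  rw [c2] at n2 d2
  have hr2 : (r : ℂ) ^ 2 = 1 / 2 := by
    rw [← Complex.ofReal_pow, r_sq]
    push_cast
    ring
  refine ((d3.sub d2).sub ds).congr_deriv ?_
  rw [cosh_two_one]
  unfold Fo
  push_cast at n3 n2 ⊢
  rw [add_zero] at n2
  have n3' : Complex.cosh (2 * z) - r ≠ 0 := by rwa [sub_eq_add_neg]
  have e3 : 4 * (1 + -(r : ℂ) * Complex.cosh (2 * z)) / (Complex.cosh (2 * z) + -(r : ℂ)) ^ 2 =
      -4 * r / (Complex.cosh (2 * z) - r) + 2 / (Complex.cosh (2 * z) - r) ^ 2 := by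
    rw [← sub_eq_add_neg (Complex.cosh (2 * z)), div_add_div _ _ n3' (pow_ne_zero 2 n3'),
      div_eq_div_iff (pow_ne_zero 2 n3') (mul_ne_zero n3' (pow_ne_zero 2 n3'))]
    linear_combination (-4 * (Complex.cosh (2 * z) - r) ^ 3) * hr2
  have e2 : 4 * (1 + 0 * Complex.cosh (2 * z)) / (Complex.cosh (2 * z) + 0) ^ 2 = 4 / Complex.cosh (2 * z) ^ 2 := by
    rw [zero_mul, add_zero, add_zero, mul_one]
  rw [e3, e2]
  have e4 : 4 / (2 * Complex.sinh z ^ 2) = 2 / Complex.sinh z ^ 2 := by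
    rw [show (4 : ℂ) = 2 * 2 by norm_num, mul_div_mul_left _ _ two_ne_zero]
  rw [e4]
  ring

theorem hasDerivAt_Uxd {z : ℂ} (h : |z.im| < l) : HasDerivAt Uxd (Fx (Complex.cosh (2 * z))) z := by
  obtain ⟨c0, c1, c2, c3⟩ := cos_vals
  obtain ⟨n1, d1⟩ := Ty_dd (a1 h)
  obtain ⟨n0, d0⟩ := Ty_dd (a0 h)
  rw [c1] at n1 d1
  rw [c0] at n0 d0
  have hr2 : (r : ℂ) ^ 2 = 1 / 2 := by
    rw [← Complex.ofReal_pow, r_sq]
    push_cast
    ring
  refine ((d1.const_mul 2).sub d0).congr_deriv ?_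
  unfold Fx
  push_cast at n0 ⊢
  have e1 : 2 * (4 * (1 + (r : ℂ) * Complex.cosh (2 * z)) / (Complex.cosh (2 * z) + r) ^ 2) =
      8 * r / (Complex.cosh (2 * z) + r) + 4 / (Complex.cosh (2 * z) + r) ^ 2 := by
    rw [mul_div_assoc', div_add_div _ _ n1 (pow_ne_zero 2 n1),
      div_eq_div_iff (pow_ne_zero 2 n1) (mul_ne_zero n1 (pow_ne_zero 2 n1))]
    linear_combination (-8 * (Complex.cosh (2 * z) + r) ^ 3) * hr2
  have e0 : 4 * (1 + 1 * Complex.cosh (2 * z)) / (Complex.cosh (2 * z) + 1) ^ 2 = 4 / (Complex.cosh (2 * z) + 1) := by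
    rw [div_eq_div_iff (pow_ne_zero 2 n0) n0]
    ring
  rw [e1, e0]

/-! ### decay of the first derivatives -/

lemma norm_cosh_ge (w : ℂ) : Real.sinh w.re ≤ ‖Complex.cosh w‖ := by
  have e : Complex.cosh w = (Complex.exp w + Complex.exp (-w)) / 2 := rfl
  have h1 := norm_sub_norm_le (Complex.exp w) (-Complex.exp (-w))
  rw [norm_neg, sub_neg_eq_add, Complex.norm_exp, Complex.norm_exp, Complex.neg_re] at h1
  rw [e, norm_div, Complex.norm_ofNat, Real.sinh_eq]
  linarith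

lemma norm_sinh_ge' (w : ℂ) : Real.sinh w.re ≤ ‖Complex.sinh w‖ := by
  have e : Complex.sinh w = (Complex.exp w - Complex.exp (-w)) / 2 := rfl
  have h1 := norm_sub_norm_le (Complex.exp w) (Complex.exp (-w))
  rw [Complex.norm_exp, Complex.norm_exp, Complex.neg_re] at h1
  rw [e, norm_div, Complex.norm_ofNat, Real.sinh_eq]
  linarith

/-- the decay -/
def dk (x : ℝ) : ℝ := Real.exp (-x) / Real.sinh x

lemma tanh_one {w : ℂ} (h : 0 < w.re) : ‖Complex.sinh w / Complex.cosh w - 1‖ ≤ dk w.re := by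
  have hs : 0 < Real.sinh w.re := Real.sinh_pos_iff.2 h
  have hc := norm_cosh_ge w
  have hc0 : Complex.cosh w ≠ 0 := norm_pos_iff.1 (by linarith)
  have e : Complex.sinh w / Complex.cosh w - 1 = -Complex.exp (-w) / Complex.cosh w := by
    rw [div_sub_one hc0]
    congr 1
    rw [show Complex.exp (-w) = Complex.cosh w - Complex.sinh w by rw [Complex.cosh_sub_sinh]]
    ring
  rw [e, norm_div, norm_neg, Complex.norm_exp, Complex.neg_re]
  unfold dk
  gcongr

lemma coth_one {w : ℂ} (h : 0 < w.re) : ‖Complex.cosh w / Complex.sinh w - 1‖ ≤ dk w.re := by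
  have hs : 0 < Real.sinh w.re := Real.sinh_pos_iff.2 h
  have hc := norm_sinh_ge' w
  have hc0 : Complex.sinh w ≠ 0 := norm_pos_iff.1 (by linarith)
  have e : Complex.cosh w / Complex.sinh w - 1 = Complex.exp (-w) / Complex.sinh w := by
    rw [div_sub_one hc0, Complex.cosh_sub_sinh]
  rw [e, norm_div, Complex.norm_exp, Complex.neg_re]
  unfold dk
  gcongr

lemma Ty_two {y : ℝ} {z : ℂ} (h : 0 < z.re) : ‖Ty y z - 2‖ ≤ 2 * dk z.re := by
  have h1 := tanh_one (w := z + y * I) (by simpa using h)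
  have h2 := tanh_one (w := z - y * I) (by simpa using h)
  have e1 : (z + y * I).re = z.re := by simp
  have e2 : (z - y * I).re = z.re := by simp
  rw [e1] at h1
  rw [e2] at h2
  have e : Ty y z - 2 = (Complex.sinh (z + y * I) / Complex.cosh (z + y * I) - 1) +
      (Complex.sinh (z - y * I) / Complex.cosh (z - y * I) - 1) := by
    unfold Ty
    ring
  rw [e]
  exact (norm_add_le _ _).trans (by linarith)

theorem Usd_dec {z : ℂ} (h : 0 < z.re) : ‖Usd z + 2‖ ≤ 6 * dk z.re := by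
  have h3 := Ty_two (y := 3 * l) h
  have h2 := Ty_two (y := 2 * l) h
  have h1 := coth_one h
  have e : Usd z + 2 = (Ty (3 * l) z - 2) - (Ty (2 * l) z - 2) - 2 * (Complex.cosh z / Complex.sinh z - 1) := by
    unfold Usd
    ring
  rw [e]
  refine (norm_sub_le _ _).trans ?_
  have h4 := norm_sub_le (Ty (3 * l) z - 2) (Ty (2 * l) z - 2)
  rw [norm_mul, Complex.norm_ofNat]
  linarith

theorem Uxd_dec {z : ℂ} (h : 0 < z.re) : ‖Uxd z - 2‖ ≤ 6 * dk z.re := by
  have h1 := Ty_two (y := l) h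
  have h0 := Ty_two (y := 0) h
  have e : Uxd z - 2 = 2 * (Ty l z - 2) - (Ty 0 z - 2) := by
    unfold Uxd
    ring
  rw [e]
  refine (norm_sub_le _ _).trans ?_
  rw [norm_mul, Complex.norm_ofNat]
  linarith

lemma dk_anti {x y : ℝ} (hx : 0 < x) (hxy : x ≤ y) : dk y ≤ dk x := by
  unfold dk
  have h1 : 0 < Real.sinh x := Real.sinh_pos_iff.2 hx
  have h2 : Real.sinh x ≤ Real.sinh y := Real.sinh_le_sinh.2 hxy
  have h3 : Real.exp (-y) ≤ Real.exp (-x) := Real.exp_le_exp.2 (by linarith)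
  have := Real.exp_pos (-y)
  gcongr

lemma dk_pos {x : ℝ} (hx : 0 < x) : 0 < dk x := by
  unfold dk
  have h1 : 0 < Real.sinh x := Real.sinh_pos_iff.2 hx
  positivity

lemma dk_le {x : ℝ} (hx : 1 ≤ x) : dk x ≤ 4 * Real.exp (-(2 * x)) := by
  have h1 : 0 < Real.sinh x := Real.sinh_pos_iff.2 (by linarith)
  unfold dk
  rw [div_le_iff₀ h1]
  have e : Real.exp (-(2 * x)) = Real.exp (-x) * Real.exp (-x) := by rw [← Real.exp_add]; ring_nf
  have h2 : Real.exp (-x) * Real.exp x = 1 := by rw [← Real.exp_add]; simp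
  have h3 : Real.exp (-x) ≤ 1 / 2 := by
    have h5 : Real.exp (-x) ≤ Real.exp (-1) := Real.exp_le_exp.2 (by linarith)
    have h6 := Real.exp_neg_one_lt_d9
    linarith
  have h4 := Real.exp_pos (-x)
  rw [e, Real.sinh_eq]
  have : 4 * (Real.exp (-x) * Real.exp (-x)) * ((Real.exp x - Real.exp (-x)) / 2) =
      2 * Real.exp (-x) * (Real.exp (-x) * Real.exp x) - 2 * Real.exp (-x) * (Real.exp (-x) * Real.exp (-x)) := by ring
  rw [this, h2]
  have h7 : Real.exp (-x) * Real.exp (-x) ≤ 1 / 4 := by nlinarith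
  nlinarith

end

end PLT.KF
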