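import Pool.Agent.NUKer.LogC

/-!
# Static kernel functions (helper78, helper2)

For a displacement `D` which is not small (a bent curve `t + D t`): `xcs` = `(t - t') coth (z t - z t')`, `CCs c`, `SSs c` =
`cosh 2z / (cosh 2z - c)`, `sinh 2z / (cosh 2z - c)` at `z t - z t'`; **`StK R Λ D D1`** : all of them, and the complex kernels `Lw`,
`Lg`, are of the class `KC R Λ`.
-/

set_option autoImplicit false

open MeasureTheory Set Filter Topology Complex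

namespace PLT

open NUKer

noncomputable section

/-- `(t - t') coth (z t - z t')` -/
def xcs (D D1 : ℝ → ℂ) (t t' : ℝ) : ℂ :=
  ((xcoth (t - t') : ℂ) * Complex.cosh (D t - D t') + ((t - t' : ℝ) : ℂ) * Complex.sinh (D t - D t')) * (1 + Y0 D D1 t t')⁻¹

/-- `cosh 2z / (cosh 2z - c)` -/
def CCs (c : ℝ) (D : ℝ → ℂ) (t t' : ℝ) : ℂ :=
  ((fC c (t - t') : ℂ) * Complex.cosh (2 * (D t - D t')) + (fS c (t - t') : ℂ) * Complex.sinh (2 * (D t - D t'))) *
    (1 + Yc c D D t t')⁻¹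

/-- `sinh 2z / (cosh 2z - c)` -/
def SSs (c : ℝ) (D : ℝ → ℂ) (t t' : ℝ) : ℂ :=
  ((fS c (t - t') : ℂ) * Complex.cosh (2 * (D t - D t')) + (fC c (t - t') : ℂ) * Complex.sinh (2 * (D t - D t'))) *
    (1 + Yc c D D t t')⁻¹

/-- the four numbers of the pair functions -/
def cNum (c : ℝ) : Prop := c = 0 ∨ c = NUMF.r ∨ c = -1 ∨ c = -NUMF.r

lemma cNum.lt {c : ℝ} (h : cNum c) : c < 1 := by
  rcases h with rfl | rfl | rfl | rfl
  · norm_num
  · exact r_lt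
  · norm_num
  · linarith [r_pos]

/-- **the static kernel functions are of the class `KC R Λ`** -/
structure StK (R Λ : ℝ) (D D1 : ℝ → ℂ) : Prop where
  hD : ∀ x, HasDerivAt D (D1 x) x
  hc : Continuous D1
  y0 : ∀ t t', |t| ≤ R → |t'| ≤ R → ‖Y0 D D1 t t'‖ ≤ 2 / 5
  yc : ∀ c : ℝ, cNum c → ∀ t t', |t| ≤ R → |t'| ≤ R → ‖Yc c D D t t'‖ ≤ 2 / 5
  x : KC R Λ (xcs D D1)
  C : ∀ c : ℝ, cNum c → KC R Λ (CCs c D)
  S : ∀ c : ℝ, cNum c → KC R Λ (SSs c D)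
  lw : KC R Λ (Lw D D1)
  lg : KC R Λ (Lg D D)

variable {R Λ : ℝ} {D D1 : ℝ → ℂ}

lemma StK.sm (h : StK R Λ D D1) : Sm R D D1 where
  hD := h.hD
  hc := h.hc
  y0 t t' a b := (h.y0 t t' a b).trans (by norm_num)
  yz t t' a b := (h.yc 0 (Or.inl rfl) t t' a b).trans (by norm_num)
  yr t t' a b := (h.yc _ (Or.inr (Or.inl rfl)) t t' a b).trans (by norm_num)

lemma StK.sm2 (h : StK R Λ D D1) : Sm2 R D D where
  y1 t t' a b := (h.yc _ (Or.inr (Or.inr (Or.inl rfl))) t t' a b).trans (by norm_num)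
  y2 t t' a b := (h.yc _ (Or.inr (Or.inr (Or.inr rfl))) t t' a b).trans (by norm_num)

lemma StK.w (h : StK R Λ D D1) : KC R Λ (fun t t' => ((kw D D1 t t' : ℝ) : ℂ)) :=
  h.lw.re.congr fun t t' _ _ => by rw [Lw_re]

lemma StK.g (h : StK R Λ D D1) : KC R Λ (fun t t' => ((kg D D t t' : ℝ) : ℂ)) :=
  h.lg.re.congr fun t t' _ _ => by rw [Lg_re]

end

end PLT
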