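import Pool.Agent.PLT.KFun
import Pool.Agent.PLT.KerSt
import Pool.Agent.PLT.KerF2
import Pool.Agent.NUKer.LogC

/-!
# The static kernels of a bent curve are in the class `KC`

* `Cu7 M η η1`: `Bent` (69) and seven derivatives bounded by `M`;
* `exists_Y0`, `exists_Yc`: the relative changes, their logarithms and inverses have six bounded derivatives;
* **`exists_stk_of M`**: `StK R (K R^17) (iD η) (iD η1)`, uniformly in the curve.
-/

set_option autoImplicit false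
set_option linter.unusedSectionVars false

noncomputable section

open Complex Finset Filter MeasureTheory
open scoped Topology ContDiff

namespace PLT.KB

open NUKer

theorem B1.of_le {k j : ℕ} {M : ℝ} {f : ℝ → ℂ} (h : B1 k M f) (hj : j ≤ k) : B1 j M f :=
  ⟨h.cd.of_le (by exact_mod_cast hj), fun n hn x => h.bd n (hn.trans hj) x⟩

theorem B1.smul {k : ℕ} {M : ℝ} {f : ℝ → ℂ} (h : B1 k M f) (c : ℂ) :
    B1 k (‖c‖ * M) (fun x => c * f x) := by
  refine ⟨contDiff_const.mul h.cd, fun n hn x => ?_⟩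
  rw [iteratedDeriv_const_mul_field, norm_mul]
  exact mul_le_mul_of_nonneg_left (h.bd n hn x) (norm_nonneg _)

/-- **a static curve with seven bounded derivatives** -/
structure Cu7 (M : ℝ) (η η1 : ℝ → ℝ) : Prop where
  bent : PLT.KF.Bent η η1
  b : B1 7 M (fun t => (η t : ℂ))

section

variable {M : ℝ} {η η1 : ℝ → ℝ}

theorem Cu7.iD (h : Cu7 M η η1) : B1 6 M (NUKer.iD η) := by
  have h1 := (h.b.of_le (by norm_num : 6 ≤ 7)).smul I
  rw [Complex.norm_I, one_mul] at h1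
  have e : (fun x => I * (η x : ℂ)) = NUKer.iD η := by
    funext x
    unfold NUKer.iD
    ring
  rwa [e] at h1

theorem Cu7.iD1 (h : Cu7 M η η1) : B1 6 M (NUKer.iD η1) := by
  have h1 := h.b.deriv.smul I
  rw [Complex.norm_I, one_mul] at h1
  have e : (fun x => I * deriv (fun t => (η t : ℂ)) x) = NUKer.iD η1 := by
    funext x
    rw [((h.bent.d x).ofReal_comp).deriv]
    unfold NUKer.iD
    ring
  rwa [e] at h1

theorem Cu7.dl (h : Cu7 M η η1) : Bd 6 (128 * M) (fun p => NUKer.iD η p.1 - NUKer.iD η p.2) := by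
  have h1 := h.iD.fst
  have h2 := (h.iD.smul (-1)).snd
  refine ((h1.add h2).mono ?_).congr fun p => ?_
  · rw [norm_neg, norm_one]
    linarith
  · ring

theorem Cu7.hd (h : Cu7 M η η1) (x : ℝ) : HasDerivAt (NUKer.iD η) (NUKer.iD η1 x) x :=
  (h.bent.d x).ofReal_comp.mul_const I

theorem Cu7.hc (h : Cu7 M η η1) : Continuous (NUKer.iD η1) := h.iD1.cd.continuous

end

/-- **the relative change of `sinh`** -/
theorem exists_Y0 (M : ℝ) : ∃ C : ℝ, 0 ≤ C ∧ ∀ η η1 : ℝ → ℝ, Cu7 M η η1 →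
    Bd 6 C (fun p => Complex.log (1 + Y0 (iD η) (iD η1) p.1 p.2)) ∧
    Bd 6 C (fun p => (1 + Y0 (iD η) (iD η1) p.1 p.2)⁻¹) ∧
    Bd 6 C (fun p => Complex.cosh (iD η p.1 - iD η p.2)) ∧
    Bd 6 C (fun p => Complex.sinh (iD η p.1 - iD η p.2)) := by
  obtain ⟨C1, hC1, H1⟩ := exists_entire Complex.differentiable_cosh 6 (128 * M)
  obtain ⟨C2, hC2, H2⟩ := exists_entire Complex.differentiable_sinh 6 (128 * M)
  obtain ⟨C3, hC3, H3⟩ := exists_entire shc_diff 6 (128 * M)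
  obtain ⟨Mh, hMh, hb⟩ := hh_B1 6
  obtain ⟨Q, hQ⟩ : ∃ Q : ℝ, Q = C1 + ‖(-1 : ℂ)‖ +
    2 ^ 6 * (2 ^ 6 * M + 2 ^ 6 * (2 ^ 6 * Mh) * (128 * M)) * C3 := ⟨_, rfl⟩
  obtain ⟨C4, hC4, H4⟩ := exists_log_inv 6 Q
  refine ⟨C1 + C2 + C4, by positivity, fun η η1 h => ?_⟩
  have d := h.dl
  have k1 := H1 _ d
  have k2 := H2 _ d
  have k3 := H3 _ d
  have kq := h.iD1.qd
  have kh := hb.diff
  have kY : Bd 6 Q (fun p => Y0 (iD η) (iD η1) p.1 p.2) := by
    rw [hQ]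
    refine ((k1.add (Bd.const 6 (-1))).add ((kq.add (kh.mul d)).mul k3)).congr fun p => ?_
    have e := sub_eq_qd h.hd h.hc p.1 p.2
    unfold Y0
    rw [xcoth_hh, e]
    push_cast
    ring
  have hs : ∀ p : ℝ × ℝ, ‖Y0 (iD η) (iD η1) p.1 p.2‖ ≤ 1 / 2 := fun p =>
    (h.bent.Y0 p.1 p.2).trans (by norm_num)
  obtain ⟨l1, l2⟩ := H4 _ kY hs
  exact ⟨l1.mono (by linarith), l2.mono (by linarith), k1.mono (by linarith),
    k2.mono (by linarith)⟩

/-- **the relative change of `cosh 2z - c`** -/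
theorem exists_Yc (M : ℝ) {c : ℝ} (hc : c ≤ NUMF.r) : ∃ C : ℝ, 0 ≤ C ∧ ∀ η η1 : ℝ → ℝ,
    Cu7 M η η1 → Bd 6 C (fun p => Complex.log (1 + Yc c (iD η) (iD η) p.1 p.2)) ∧
    Bd 6 C (fun p => CCs c (iD η) p.1 p.2) ∧ Bd 6 C (fun p => SSs c (iD η) p.1 p.2) := by
  have hc1 : c < 1 := lt_of_le_of_lt hc r_lt
  have h2d : Differentiable ℂ fun z : ℂ => 2 * z := differentiable_id.const_mul 2
  obtain ⟨C1, hC1, H1⟩ := exists_entire (Complex.differentiable_cosh.comp h2d) 6 (128 * M)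
  obtain ⟨C2, hC2, H2⟩ := exists_entire (Complex.differentiable_sinh.comp h2d) 6 (128 * M)
  obtain ⟨MC, hMC, hbC⟩ := (AlgD.C (c := c)).B1 hc1 6
  obtain ⟨MS, hMS, hbS⟩ := (AlgD.S (c := c)).B1 hc1 6
  obtain ⟨Q, hQ⟩ : ∃ Q : ℝ, Q = 2 ^ 6 * (C1 + ‖(-1 : ℂ)‖) * (2 ^ 6 * MC) +
    2 ^ 6 * C2 * (2 ^ 6 * MS) := ⟨_, rfl⟩
  obtain ⟨C4, hC4, H4⟩ := exists_log_inv 6 Q
  obtain ⟨A1, hA1⟩ : ∃ A : ℝ, A = 2 ^ 6 * (2 ^ 6 * (2 ^ 6 * MC) * C1 + 2 ^ 6 * (2 ^ 6 * MS) * C2) *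
    C4 := ⟨_, rfl⟩
  obtain ⟨A2, hA2⟩ : ∃ A : ℝ, A = 2 ^ 6 * (2 ^ 6 * (2 ^ 6 * MS) * C1 + 2 ^ 6 * (2 ^ 6 * MC) * C2) *
    C4 := ⟨_, rfl⟩
  have hA10 : 0 ≤ A1 := by rw [hA1]; positivity
  have hA20 : 0 ≤ A2 := by rw [hA2]; positivity
  refine ⟨C4 + A1 + A2, by positivity, fun η η1 h => ?_⟩
  have d := h.dl
  have k1 : Bd 6 C1 (fun p => Complex.cosh (2 * (iD η p.1 - iD η p.2))) := H1 _ d
  have k2 : Bd 6 C2 (fun p => Complex.sinh (2 * (iD η p.1 - iD η p.2))) := H2 _ d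
  have kC := hbC.diff
  have kS := hbS.diff
  have kY : Bd 6 Q (fun p => Yc c (iD η) (iD η) p.1 p.2) := by
    rw [hQ]
    exact (((k1.add (Bd.const 6 (-1))).mul kC).add (k2.mul kS)).congr fun p => rfl
  have hs : ∀ p : ℝ × ℝ, ‖Yc c (iD η) (iD η) p.1 p.2‖ ≤ 1 / 2 := fun p =>
    (h.bent.Yc hc p.1 p.2).trans (by norm_num)
  obtain ⟨l1, l2⟩ := H4 _ kY hs
  refine ⟨l1.mono (by linarith), ?_, ?_⟩
  · have := (((kC.mul k1).add (kS.mul k2)).mul l2).congr (G := fun p => CCs c (iD η) p.1 p.2)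
      fun p => rfl
    exact this.mono (by rw [← hA1]; linarith)
  · have := (((kS.mul k1).add (kC.mul k2)).mul l2).congr (G := fun p => SSs c (iD η) p.1 p.2)
      fun p => rfl
    exact this.mono (by rw [← hA2]; linarith)

/-- the difference of the heights -/
theorem exists_sub : ∃ K : ℝ, 0 < K ∧ ∀ R : ℝ, 1 ≤ R →
    KC R (K * R ^ 4) (fun t t' => ((t - t' : ℝ) : ℂ)) := by
  obtain ⟨K, hK, H⟩ := exists_KC1
  refine ⟨4 * K, by positivity, fun R hR => ?_⟩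
  have h1 : KC1 R (K * R ^ 3 * (2 * R)) (fun t : ℝ => (t : ℂ)) := by
    refine H R hR (fun t => (t : ℂ)) (fun _ => 1) (fun _ => 0) (fun _ => 0)
      (fun x => Complex.ofRealCLM.hasDerivAt) (fun x => hasDerivAt_const x 1)
      (fun x => hasDerivAt_const x 0) continuous_const (2 * R) ?_ ?_ ?_ ?_
    · intro x hx
      rw [Complex.norm_real, Real.norm_eq_abs]
      exact hx
    · intro x _
      rw [norm_one]
      linarith
    · intro x _
      rw [norm_zero]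
      linarith
    · intro x _
      rw [norm_zero]
      linarith
  refine ((h1.left.sub h1.right).mono (le_of_eq (by ring))).congr fun t t' _ _ => ?_
  push_cast
  rfl

/-- **the static kernels of a bent curve** -/
theorem exists_stk_of (M : ℝ) : ∃ K : ℝ, 1 ≤ K ∧ ∀ η η1 : ℝ → ℝ, Cu7 M η η1 → ∀ R : ℝ, 1 ≤ R →
    StK R (K * R ^ 17) (iD η) (iD η1) := by
  obtain ⟨K, hK, HK⟩ := exists_KC2
  obtain ⟨Kx, hKx, HKx⟩ := exists_xcoth
  obtain ⟨Ks, hKs, HKs⟩ := exists_sub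
  obtain ⟨C0, hC0, H0⟩ := exists_Y0 M
  have hr := r_lt
  have hrp := r_pos
  obtain ⟨Cz, hCz, Hz⟩ := exists_Yc M (c := 0) hrp.le
  obtain ⟨Cr, hCr, Hr⟩ := exists_Yc M (c := NUMF.r) le_rfl
  obtain ⟨C1, hC1, H1⟩ := exists_Yc M (c := -1) (by linarith)
  obtain ⟨C2, hC2, H2⟩ := exists_Yc M (c := -NUMF.r) (by linarith)
  obtain ⟨X, hX⟩ : ∃ X : ℝ, X = (Kx * (K * C0) + Ks * (K * C0)) * (K * C0) := ⟨_, rfl⟩
  have hX0 : 0 ≤ X := by rw [hX]; positivity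
  have q0 : 0 ≤ K * C0 := by positivity
  have qz : 0 ≤ K * Cz := by positivity
  have qr : 0 ≤ K * Cr := by positivity
  have q1 : 0 ≤ K * C1 := by positivity
  have q2 : 0 ≤ K * C2 := by positivity
  refine ⟨1 + X + 2 * (K * C0) + 2 * (K * Cz) + 2 * (K * Cr) + 2 * (K * C1) + 2 * (K * C2),
    by linarith, fun η η1 h R hR => ?_⟩
  obtain ⟨T, hT⟩ : ∃ T : ℝ, T = 1 + X + 2 * (K * C0) + 2 * (K * Cz) + 2 * (K * Cr) +
    2 * (K * C1) + 2 * (K * C2) := ⟨_, rfl⟩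
  rw [← hT]
  have hR6 : R ^ 6 ≤ R ^ 17 := pow_le_pow_right₀ hR (by norm_num)
  have hR16 : R ^ 16 ≤ R ^ 17 := pow_le_pow_right₀ hR (by norm_num)
  have hRp : 0 < R ^ 6 := by positivity
  have hRp16 : 0 < R ^ 16 := by positivity
  obtain ⟨a1, a2, a3, a4⟩ := H0 η η1 h
  obtain ⟨z1, z2, z3⟩ := Hz η η1 h
  obtain ⟨r1, r2, r3⟩ := Hr η η1 h
  obtain ⟨m1, m2, m3⟩ := H1 η η1 h
  obtain ⟨n1, n2, n3⟩ := H2 η η1 h
  -- from `Bd` to `KC`
  have cv : ∀ {C : ℝ} {F : ℝ × ℝ → ℂ}, Bd 6 C F → 2 * (K * C) ≤ T →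
      KC R (T * R ^ 17) (fun t t' => F (t, t')) := by
    intro C F hF hle
    have hC := hF.nonneg
    refine (HK R hR C F hF).mono ?_
    have h0 : 0 ≤ K * C := by positivity
    calc K * R ^ 6 * C = (K * C) * R ^ 6 := by ring
      _ ≤ T * R ^ 17 := mul_le_mul (by linarith) hR6 hRp.le (by linarith)
  have kL0 := HK R hR C0 _ a1
  have kLz := HK R hR Cz _ z1
  have kLr := HK R hR Cr _ r1
  have kL1 := HK R hR C1 _ m1
  have kL2 := HK R hR C2 _ n1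
  have kw' : KC R (T * R ^ 17) (Lw (iD η) (iD η1)) := by
    refine ((((kL0.smul 2).add kLz).sub kLr).mono ?_).congr fun t t' _ _ => rfl
    rw [show ‖(2 : ℂ)‖ = 2 by simp]
    calc 2 * (K * R ^ 6 * C0) + K * R ^ 6 * Cz + K * R ^ 6 * Cr =
        (2 * (K * C0) + K * Cz + K * Cr) * R ^ 6 := by ring
      _ ≤ T * R ^ 17 := mul_le_mul (by linarith) hR6 hRp.le (by linarith)
  have kg' : KC R (T * R ^ 17) (Lg (iD η) (iD η)) := by
    refine ((kL1.sub (kL2.smul 2)).mono ?_).congr fun t t' _ _ => rfl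
    rw [show ‖(2 : ℂ)‖ = 2 by simp]
    calc K * R ^ 6 * C1 + 2 * (K * R ^ 6 * C2) = (K * C1 + 2 * (K * C2)) * R ^ 6 := by ring
      _ ≤ T * R ^ 17 := mul_le_mul (by linarith) hR6 hRp.le (by linarith)
  refine { hD := h.hd, hc := h.hc, y0 := ?_, yc := ?_, x := ?_, C := ?_, S := ?_, lw := kw', lg := kg' }
  · exact fun t t' _ _ => (h.bent.Y0 t t').trans (by norm_num)
  · rintro c hc t t' _ _
    refine (h.bent.Yc ?_ t t').trans (by norm_num)
    rcases hc with rfl | rfl | rfl | rfl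
    · exact hrp.le
    · exact le_rfl
    · linarith
    · linarith
  · have k1 := (HKx R hR).mul (HK R hR C0 _ a3)
    have k2 := (HKs R hR).mul (HK R hR C0 _ a4)
    have k3 := (k1.add k2).mul (HK R hR C0 _ a2)
    refine (k3.mono ?_).congr fun t t' _ _ => rfl
    calc (Kx * R ^ 4 * (K * R ^ 6 * C0) + Ks * R ^ 4 * (K * R ^ 6 * C0)) * (K * R ^ 6 * C0) =
        X * R ^ 16 := by rw [hX]; ring
      _ ≤ T * R ^ 17 := mul_le_mul (by linarith) hR16 hRp16.le (by linarith)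
  · rintro c (rfl | rfl | rfl | rfl)
    · exact cv z2 (by linarith)
    · exact cv r2 (by linarith)
    · exact cv m2 (by linarith)
    · exact cv n2 (by linarith)
  · rintro c (rfl | rfl | rfl | rfl)
    · exact cv z3 (by linarith)
    · exact cv r3 (by linarith)
    · exact cv m3 (by linarith)
    · exact cv n3 (by linarith)

end PLT.KB

end
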