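import Pool.Agent.PLT.DatC

/-!
# The moving kernels vanish far away

`kw_congr`, `kg_congr`: the kernels see the displacement at the two points only; **`datC_kb`**.
-/

set_option autoImplicit false
set_option linter.unusedSectionVars false
set_option linter.unusedVariables false

open MeasureTheory Set Filter Topology Complex

namespace PLT.Cv

open NUMF (l l_pos w g V)
open NUKer
open NU42
open NUSea.PLX.H0 (Inp Vn)

noncomputable section

lemma Yc_congr {c : ℝ} {D D' E E' : ℝ → ℂ} {t t' : ℝ} (h1 : D t = E t) (h2 : D' t' = E' t') :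
    Yc c D D' t t' = Yc c E E' t t' := by
  unfold Yc
  rw [h1, h2]

lemma kg_congr {D D' E E' : ℝ → ℂ} {t t' : ℝ} (h1 : D t = E t) (h2 : D' t' = E' t') :
    kg D D' t t' = kg E E' t t' := by
  unfold kg kc
  rw [Yc_congr h1 h2, Yc_congr h1 h2]

lemma kw_congr {D D1 E E1 : ℝ → ℂ} {t t' : ℝ} (h1 : D t = E t) (h2 : D t' = E t')
    (hq : NUKer.qd D1 t t' = NUKer.qd E1 t t') : kw D D1 t t' = kw E E1 t t' := by
  unfold kw kc k0 Y0
  rw [Yc_congr h1 h2, Yc_congr h1 h2, h1, h2, hq]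

lemma qd_diag (D1 : ℝ → ℂ) (t : ℝ) : NUKer.qd D1 t t = D1 t := by
  unfold NUKer.qd
  simp

lemma qd_congr {D D1 E E1 : ℝ → ℂ} (hD : ∀ x, HasDerivAt D (D1 x) x) (hc : Continuous D1)
    (hE : ∀ x, HasDerivAt E (E1 x) x) (hc' : Continuous E1) {t t' : ℝ} (h1 : D t = E t) (h2 : D t' = E t')
    (h3 : D1 t = E1 t) : NUKer.qd D1 t t' = NUKer.qd E1 t t' := by
  rcases eq_or_ne t t' with rfl | hne
  · rw [qd_diag, qd_diag, h3]
  · have e1 := sub_eq_qd hD hc t t'
    have e2 := sub_eq_qd hE hc' t t'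
    rw [h1, h2, e2] at e1
    have hn : ((t - t' : ℝ) : ℂ) ≠ 0 := by
      rw [Ne, Complex.ofReal_eq_zero]
      exact sub_ne_zero.2 hne
    exact (mul_left_cancel₀ hn e1).symm

/-- **the moving kernels vanish far away** -/
theorem datC_kb {B : SeaCB} [SeaC] [SeaCU B] {lo hi Cp ε M b : ℝ} {e : ℝ → ℝ} {I : Inp} {r : ℕ}
    {O : Fin r → Oc} (h : IOkC B lo hi Cp ε M b e I) (hc : ∀ a, Continuous (Dt1 (I.η a) (I.η1 a)))
    (a d : Bool) {t t' : ℝ} (ht : b < |t|) (ht' : b < |t'|) : (datC I O).kd a d t t' = 0 := by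
  have z0 : ∀ (a : Bool) (t : ℝ), b < |t| → I.η a t = 0 := fun a t ht => by
    have h1 := (h.cur a).abs_le t
    rw [(h.cur a).supp t ht] at h1
    exact abs_nonpos_iff.1 h1
  have z1 : ∀ (a : Bool) (t : ℝ), b < |t| → I.η1 a t = 0 := fun a t ht => by
    have h1 := (h.cur a).abs_le1 (h.der a) t
    rw [(h.cur a).supp t ht] at h1
    exact abs_nonpos_iff.1 h1
  have y0 : ∀ (a : Bool) (t : ℝ), b < |t| → Dt (I.η a) t = iD eta t := fun a t ht => by
    unfold Dt gD iD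
    rw [z0 a t ht]
    simp
  have y1 : ∀ (a : Bool) (t : ℝ), b < |t| → Dt1 (I.η a) (I.η1 a) t = iD (deriv eta) t := fun a t ht => by
    unfold Dt1 gD1 iD
    rw [z0 a t ht, z1 a t ht]
    simp
  have e3 : (datC I O).kd a d t t' = (datC I O).κ a d t t' - ksC a d t t' := rfl
  rw [e3, sub_eq_zero]
  unfold Gs.Dat.κ ksC
  split_ifs with hab
  · exact kw_congr (y0 a t ht) (y0 a t' ht') (qd_congr (hasDerivAt_Dt (h.der a)) (hc a) hasDerivAt_iDeta
      cont_iDeta' (y0 a t ht) (y0 a t' ht') (y1 a t ht))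
  · exact kg_congr (y0 a t ht) (y0 d t' ht')

end

end PLT.Cv
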