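import Pool.Agent.PLT.KdC
import Pool.Agent.PLT.KerB

/-!
# THETA, row B: the moving kernels on a bent curve, pointwise (helper69)

On a bent curve the displacement `gD η = i η ga'` has the real part `-η eta'`, so the moving kernels do not decay: own `→ 2 Re`,
cross `→ -2 Re`. **`exists_kdP`**: `|kd a d t t'| ≤ K ε exp (-|t - t'|) + K (M / σ) (exp (-|t|) + exp (-|t'|))`,
`σ ≤ s a` a lower bound of the row numbers.
-/

set_option autoImplicit false
set_option linter.unusedSectionVars false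
set_option linter.unusedVariables false

open MeasureTheory Set Filter Topology Complex

namespace PLT.Cv

open NUMF (l l_pos)
open NUKer
open NUAct
open NU42
open NUSea.PLX.H0 (Inp)
open PLT.KF (dk dk_le dk_pos dk_anti Usd_dec Uxd_dec)

noncomputable section

/-- increments of a potential with its linear part taken off, general -/
private lemma incr2 {f f' : ℂ → ℂ} {c : ℝ} (hf : ∀ w : ℂ, 0 < w.re → |w.im| ≤ l / 2 → HasDerivAt f (f' w) w)
    (hb : ∀ w : ℂ, 0 < w.re → ‖f' w + (c : ℂ)‖ ≤ 6 * dk w.re) {x : ℝ} (hx : 0 < x) {w w' : ℂ}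
    (h1 : x ≤ w.re) (h1' : x ≤ w'.re) (h2 : |w.im| ≤ l / 2) (h2' : |w'.im| ≤ l / 2) :
    |(f w).re - (f w').re| ≤ |c| * |(w' - w).re| + 6 * dk x * ‖w' - w‖ := by
  have h3 := Convex.norm_image_sub_le_of_norm_hasDerivWithin_le (f := fun w => f w + (c : ℂ) * w)
    (f' := fun w => f' w + (c : ℂ)) (C := 6 * dk x) (s := {w : ℂ | x ≤ w.re ∧ |w.im| ≤ l / 2}) (x := w) (y := w')
    (fun w hw => ((hf w (lt_of_lt_of_le hx hw.1) hw.2).add
      (by simpa using (hasDerivAt_id w).const_mul (c : ℂ))).hasDerivWithinAt)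
    (fun w hw => (hb w (lt_of_lt_of_le hx hw.1)).trans (by
      have := dk_anti hx hw.1
      linarith))
    (NUAct.convex_HSt' (l / 2) x) ⟨h1, h2⟩ ⟨h1', h2'⟩
  have h4 := (Complex.abs_re_le_norm _).trans h3
  have e : (f w' + (c : ℂ) * w' - (f w + (c : ℂ) * w)).re = ((f w').re - (f w).re) + c * (w' - w).re := by
    simp only [Complex.sub_re, Complex.add_re, Complex.mul_re, Complex.ofReal_re, Complex.ofReal_im, zero_mul,
      sub_zero]
    ring
  rw [e] at h4
  have h5 : (f w).re - (f w').re = c * (w' - w).re - (((f w').re - (f w).re) + c * (w' - w).re) := by ring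
  rw [h5]
  refine (abs_sub _ _).trans ?_
  rw [abs_mul]
  linarith

private lemma e2_le : Real.exp 2 ≤ 8 := by
  have h := Real.exp_one_lt_d9
  have e : Real.exp 2 = Real.exp 1 ^ 2 := by
    rw [← Real.exp_nat_mul]
    norm_num
  rw [e]
  have h0 := Real.exp_pos 1
  nlinarith

private lemma e_ge {x : ℝ} (h : x ≤ 2) : 1 ≤ 8 * Real.exp (-x) := by
  have h1 : Real.exp (-2) ≤ Real.exp (-x) := Real.exp_le_exp.2 (by linarith)
  have h2 : Real.exp 2 * Real.exp (-2) = 1 := by
    rw [← Real.exp_add]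
    norm_num
  have h3 := Real.exp_pos (-2)
  nlinarith [e2_le]

private lemma dk_small {y : ℝ} (hy : 0 < y) : dk y ≤ 1 / y := by
  unfold PLT.KF.dk
  have h1 : y ≤ Real.sinh y := Real.self_le_sinh_iff.2 hy.le
  have h2 : Real.exp (-y) ≤ 1 := Real.exp_le_one_iff.2 (by linarith)
  exact div_le_div₀ zero_le_one h2 hy h1

private lemma dk_far {x κ d : ℝ} (hx : 2 ≤ x) (hd : d ≤ 2 * κ) (hd0 : 0 ≤ d) : 6 * dk (x / 2) * d ≤ 100 * κ * Real.exp (-x) := by
  have h1 := dk_le (x := x / 2) (by linarith)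
  rw [show -(2 * (x / 2)) = -x by ring] at h1
  have h2 := dk_pos (x := x / 2) (by linarith)
  have h3 := Real.exp_pos (-x)
  have hκ : 0 ≤ κ := by linarith
  calc 6 * dk (x / 2) * d ≤ 6 * (4 * Real.exp (-x)) * (2 * κ) := by gcongr
    _ = 48 * (κ * Real.exp (-x)) := by ring
    _ ≤ 100 * (κ * Real.exp (-x)) := by
        have : 0 ≤ κ * Real.exp (-x) := by positivity
        linarith
    _ = _ := by ring

private lemma dk_all {x κ d : ℝ} (hx : 0 < x) (hd : d ≤ 2 * κ) (hd' : d ≤ κ * x) (hd0 : 0 ≤ d) :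
    6 * dk (x / 2) * d ≤ 100 * κ * Real.exp (-x) := by
  rcases le_total 2 x with h | h
  · exact dk_far h hd hd0
  · have h1 := dk_small (y := x / 2) (by linarith)
    have h2 := dk_pos (x := x / 2) (by linarith)
    have hκ : 0 ≤ κ := by linarith
    have h3 := e_ge h
    calc 6 * dk (x / 2) * d ≤ 6 * (1 / (x / 2)) * (κ * x) := by gcongr
      _ = 12 * κ := by
          field_simp
          ring
      _ ≤ 12 * κ * (8 * Real.exp (-x)) := le_mul_of_one_le_right (by positivity) h3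
      _ = 96 * (κ * Real.exp (-x)) := by ring
      _ ≤ 100 * (κ * Real.exp (-x)) := by
          have := mul_nonneg hκ (Real.exp_pos (-x)).le
          linarith
      _ = _ := by ring

private lemma re_gD' [SeaC] (η : ℝ → ℝ) (t : ℝ) : (gD η t).re = -(η t * deriv eta t) := by
  unfold gD ga' iD
  simp

/-- the real part of a displacement -/
lemma re_gD_le {B : SeaCB} [SeaC] [SeaCU B] {s σ ε M b : ℝ} {e η : ℝ → ℝ} (hσ : 0 < σ) (hs : σ ≤ s)
    (h : Cur s ε M b e η) (t : ℝ) : |(gD η t).re| ≤ B.Ce 1 / B.c0 * (M / σ) * Real.exp (-|t|) := by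
  have hc0 := B.c0p
  have h1 := h.abs_le t
  have h2 : |deriv eta t| ≤ B.Ce 1 * Real.exp (-(32 / 3) * |t|) := by
    have := SeaCU.cur (B := B) 1 t le_rfl
    rwa [iteratedDeriv_one] at this
  have h3 := SeaCU.low (B := B) t
  have h4 := h.mass t
  have e0 := h.nonneg t
  have hC := B.Ce0 1
  have hP : B.c0 * Real.exp (-(8 / 3) * |t|) ≤ P t := h3
  have h5 : σ * (B.c0 * Real.exp (-(8 / 3) * |t|)) * e t ≤ M := by
    refine le_trans ?_ h4
    have h6 : 0 ≤ B.c0 * Real.exp (-(8 / 3) * |t|) := by positivity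
    have h7 : σ * (B.c0 * Real.exp (-(8 / 3) * |t|)) ≤ s * P t := mul_le_mul hs hP h6 (hσ.le.trans hs)
    exact mul_le_mul_of_nonneg_right h7 e0
  have h8 : e t ≤ M / (σ * B.c0) * Real.exp (8 / 3 * |t|) := by
    have e1 : Real.exp (-(8 / 3) * |t|) * Real.exp (8 / 3 * |t|) = 1 := by
      rw [← Real.exp_add]
      simp
    have h9 := mul_le_mul_of_nonneg_right h5 (Real.exp_pos (8 / 3 * |t|)).le
    have e2 : σ * (B.c0 * Real.exp (-(8 / 3) * |t|)) * e t * Real.exp (8 / 3 * |t|) = σ * B.c0 * e t := by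
      rw [show σ * (B.c0 * Real.exp (-(8 / 3) * |t|)) * e t * Real.exp (8 / 3 * |t|) =
        σ * B.c0 * e t * (Real.exp (-(8 / 3) * |t|) * Real.exp (8 / 3 * |t|)) by ring, e1, mul_one]
    rw [e2] at h9
    rw [div_mul_eq_mul_div, le_div_iff₀ (by positivity)]
    linarith
  have hM : 0 ≤ M := le_trans (by positivity) h5
  rw [re_gD', abs_neg, abs_mul]
  calc |η t| * |deriv eta t| ≤ (M / (σ * B.c0) * Real.exp (8 / 3 * |t|)) * (B.Ce 1 * Real.exp (-(32 / 3) * |t|)) :=
        mul_le_mul (h1.trans h8) h2 (abs_nonneg _) (by positivity)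
    _ = B.Ce 1 / B.c0 * (M / σ) * (Real.exp (8 / 3 * |t|) * Real.exp (-(32 / 3) * |t|)) := by
        field_simp
    _ ≤ B.Ce 1 / B.c0 * (M / σ) * Real.exp (-|t|) := by
        refine mul_le_mul_of_nonneg_left ?_ (by positivity)
        rw [← Real.exp_add]
        refine Real.exp_le_exp.2 ?_
        have := abs_nonneg t
        linarith

section

variable [SeaC] {I : Inp} {r : ℕ} {O : Fin r → Oc}

private lemma im0 (t s : ℝ) : |(ga t - ga s).im| ≤ 3 / 50 * l := by
  have e : (ga t - ga s).im = eta t - eta s := by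
    unfold ga
    simp
  rw [e]
  exact eta_osc' t s

private lemma re0 (t s : ℝ) : (ga t - ga s).re = t - s := by
  unfold ga
  simp

private lemma zI_sub (a d : Bool) (t s : ℝ) :
    zI I a t - zI I d s - (ga t - ga s) = gD (I.η a) t - gD (I.η d) s := by
  rw [zI_eq, zI_eq]
  ring

private lemma l_num2 : 3 / 50 * l + 1 / 1000 ≤ l / 2 := by
  have h := NUAct.l8
  have := Real.pi_gt_three
  linarith

private lemma im1 (h3 : ∀ a t, ‖gD (I.η a) t‖ ≤ 1 / 10000) (a d : Bool) (t s : ℝ) :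
    |(zI I a t - zI I d s).im| ≤ l / 2 := by
  have h1 := im0 t s
  have h2 := congrArg Complex.im (zI_sub (I := I) a d t s)
  rw [Complex.sub_im] at h2
  have h4 := (Complex.abs_im_le_norm (gD (I.η a) t - gD (I.η d) s)).trans ((norm_sub_le _ _).trans
    (add_le_add (h3 a t) (h3 d s)))
  have h5 : |(zI I a t - zI I d s).im| ≤ |(ga t - ga s).im| + |(gD (I.η a) t - gD (I.η d) s).im| := by
    rw [← h2]
    have := abs_add_le (ga t - ga s).im ((zI I a t - zI I d s).im - (ga t - ga s).im)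
    rwa [add_sub_cancel] at this
  linarith [l_num2]

/-- one pair, `s < t`: the potential `f`, slope `-c` at infinity -/
private lemma pair {f f' : ℂ → ℂ} {c : ℝ} (hf : ∀ w : ℂ, 0 < w.re → |w.im| ≤ l / 2 → HasDerivAt f (f' w) w)
    (hb : ∀ w : ℂ, 0 < w.re → ‖f' w + (c : ℂ)‖ ≤ 6 * dk w.re) (hc : |c| = 2)
    (h3 : ∀ a t, ‖gD (I.η a) t‖ ≤ 1 / 10000) (a d : Bool) {t s : ℝ} (hx : s < t) {κ A : ℝ}
    (hg : ‖gD (I.η a) t - gD (I.η d) s‖ ≤ (t - s) / 2)
    (hk : 6 * dk ((t - s) / 2) * ‖gD (I.η a) t - gD (I.η d) s‖ ≤ κ)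
    (h1 : |(gD (I.η a) t).re| ≤ A * Real.exp (-|t|)) (h2 : |(gD (I.η d) s).re| ≤ A * Real.exp (-|s|)) :
    |(f (ga t - ga s)).re - (f (zI I a t - zI I d s)).re| ≤ κ + 2 * A * (Real.exp (-|t|) + Real.exp (-|s|)) := by
  have e := zI_sub (I := I) a d t s
  have hr : t - s - (t - s) / 2 ≤ (zI I a t - zI I d s).re := by
    have g1 := congrArg Complex.re e
    rw [Complex.sub_re, re0] at g1
    have g2 := (abs_le.1 ((Complex.abs_re_le_norm _).trans hg)).1
    linarith
  have h5 := incr2 hf hb (x := (t - s) / 2) (by linarith) (w := ga t - ga s) (w' := zI I a t - zI I d s)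
    (by rw [re0]; linarith) (by linarith) ((im0 t s).trans (by linarith [l_num2])) (im1 h3 a d t s)
  rw [e, hc] at h5
  have h6 : |(gD (I.η a) t - gD (I.η d) s).re| ≤ A * Real.exp (-|t|) + A * Real.exp (-|s|) := by
    rw [Complex.sub_re]
    exact (abs_sub _ _).trans (add_le_add h1 h2)
  linarith

private lemma kd_symm (hs : Small (Dt (I.η true)) (Dt1 (I.η true) (I.η1 true)) (Dt (I.η false))
    (Dt1 (I.η false) (I.η1 false))) (a b : Bool) (t t' : ℝ) :
    (datC I O).kd a b t t' = (datC I O).kd b a t' t := by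
  have e : ∀ a b t t', (datC I O).kd a b t t' = (datC I O).κ a b t t' - ksC a b t t' := fun _ _ _ _ => rfl
  rw [e, e, kappa_symm hs a b t t', ks_symm a b t t']

end

/-- **the moving kernels, pointwise** -/
theorem exists_kdP (B : SeaCB) : ∃ K : ℝ, 1 ≤ K ∧ ∀ [SeaC] [SeaCU B], ∀ {lo hi Cp ε M b : ℝ} {e : ℝ → ℝ} {I : Inp},
    IOkC B lo hi Cp ε M b e I → K * ε ≤ 1 → ∀ {σ : ℝ}, 0 < σ → (∀ a, σ ≤ I.s a) → ∀ {r : ℕ} {O : Fin r → Oc}
    (a d : Bool) (t t' : ℝ), |(datC I O).kd a d t t'| ≤ K * ε * Real.exp (-|t - t'|) +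
      K * (M / σ) * (Real.exp (-|t|) + Real.exp (-|t'|)) := by
  obtain ⟨K1, hK1, H1⟩ := exists_Dt B
  obtain ⟨C, hC, H2⟩ := Cur_disp B
  obtain ⟨K0, hK0, H0⟩ := Ux_incr
  obtain ⟨A, hA⟩ : ∃ A : ℝ, A = B.Ce 1 / B.c0 := ⟨_, rfl⟩
  have hA0 : 0 ≤ A := by
    rw [hA]
    have := B.Ce0 1
    have := B.c0p
    positivity
  obtain ⟨K, hK⟩ : ∃ K : ℝ, K = K1 + 100 * C + 16 * K0 * C + 2 * A := ⟨_, rfl⟩
  have h16 : 0 ≤ 16 * K0 * C := by positivity
  refine ⟨K, by rw [hK]; linarith, @fun _ hS lo hi Cp ε M b e I h hε σ hσ hs r O => ?_⟩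
  have hc0 := (h.cur true).ε0
  have f1 : K1 * ε ≤ 1 := le_trans (mul_le_mul_of_nonneg_right (by rw [hK]; linarith) hc0) hε
  have f2 : 100 * C * ε ≤ 1 := le_trans (mul_le_mul_of_nonneg_right (by rw [hK]; linarith) hc0) hε
  have hCε : 0 ≤ C * ε := by positivity
  have hM : 0 ≤ M := (mul_nonneg (mul_nonneg (h.s0 true) (P_pos (B := B) 0).le) ((h.cur true).nonneg 0)).trans
    ((h.cur true).mass 0)
  have a1 := fun a => (H1 (h.s0 a) f1 (h.cur a) (h.der a)).1
  have a2 := fun a => (H1 (h.s0 a) f1 (h.cur a) (h.der a)).2.1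
  have a3 := fun a => (H1 (h.s0 a) f1 (h.cur a) (h.der a)).2.2
  have hsm := small_tot a1 a2 a3 h.der
  have g0 : ∀ a t, ‖gD (I.η a) t‖ ≤ C * ε := fun a t => by
    obtain ⟨δ2, D, -⟩ := H2 (h.s0 a) (h.cur a) (h.der a)
    exact D.e0 t
  have g1 : ∀ a t s, ‖gD (I.η a) t - gD (I.η a) s‖ ≤ C * ε * |t - s| := fun a t s => by
    obtain ⟨δ2, D, -⟩ := H2 (h.s0 a) (h.cur a) (h.der a)
    have h5 := Convex.norm_image_sub_le_of_norm_hasDerivWithin_le (f := gD (I.η a)) (f' := gD1 (I.η a) (I.η1 a))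
      (C := C * ε) (s := univ) (x := s) (y := t) (fun y _ => (D.d0 y).hasDerivWithinAt) (fun y _ => D.e1 y)
      convex_univ trivial trivial
    rwa [Real.norm_eq_abs] at h5
  have gr : ∀ a t, |(gD (I.η a) t).re| ≤ A * (M / σ) * Real.exp (-|t|) := fun a t => by
    rw [hA]
    exact re_gD_le hσ (hs a) (h.cur a) t
  have g2 : ∀ a d t s, ‖gD (I.η a) t - gD (I.η d) s‖ ≤ 2 * (C * ε) := fun a d t s =>
    (norm_sub_le _ _).trans (by linarith [g0 a t, g0 d s])
  have hl := l_pos
  have hMσ : 0 ≤ M / σ := by positivity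
  -- the final form
  have fin : ∀ {x y t s : ℝ}, x ≤ (100 * C + 16 * K0 * C) * ε * Real.exp (-y) +
      2 * (A * (M / σ)) * (Real.exp (-|t|) + Real.exp (-|s|)) →
      x ≤ K * ε * Real.exp (-y) + K * (M / σ) * (Real.exp (-|t|) + Real.exp (-|s|)) := by
    intro x y t s hx
    refine hx.trans (add_le_add ?_ ?_)
    · refine mul_le_mul_of_nonneg_right (mul_le_mul_of_nonneg_right ?_ hc0) (Real.exp_pos _).le
      rw [hK]
      linarith
    · refine mul_le_mul_of_nonneg_right ?_ (by positivity)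
      rw [show 2 * (A * (M / σ)) = 2 * A * (M / σ) by ring]
      refine mul_le_mul_of_nonneg_right ?_ hMσ
      rw [hK]
      linarith
  -- own kernels
  have own : ∀ a t s, s < t → |(datC I O).kd a a t s| ≤ K * ε * Real.exp (-|t - s|) +
      K * (M / σ) * (Real.exp (-|t|) + Real.exp (-|s|)) := by
    intro a t s hts
    have hx : 0 < t - s := sub_pos.2 hts
    have e0 : (datC I O).kd a a t s = (Us (ga t - ga s)).re - (Us (zI I a t - zI I a s)).re := by
      rw [← kap_eq hsm a3 a a hts.ne']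
      have e1 : (gasI I O).κ a a t s = (gasI I O).K0 a a t s - ((gasI I O).K a a t s).re := rfl
      have e2 : (gasI I O).K0 a a t s = (Up Us ga t s).re := by
        change (if a = a then (Up Us ga t s).re else (Ux (ga t - ga s)).re) = _
        rw [if_pos rfl]
      have e3 : (gasI I O).K a a t s = Up Us (zI I a) t s := by
        change (if a = a then Up Us (zt (gD (I.η a))) t s else Ux (zt (gD (I.η a)) t - zt (gD (I.η a)) s)) = _
        rw [if_pos rfl]
        rfl
      rw [e1, e2, e3, Up_of_lt hts, Up_of_lt hts]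
    rw [e0]
    have hgl := g1 a t s
    rw [abs_of_pos hx] at hgl
    have h5 := pair (f := Us) (f' := Usd) (c := 2) (I := I) (fun w h0 h1 => hasDerivAt_Us h0 (by linarith))
      (fun w h0 => by simpa using Usd_dec h0) (by norm_num) a3 a a hts
      (κ := 100 * (C * ε) * Real.exp (-(t - s))) (A := A * (M / σ)) (hgl.trans (by nlinarith))
      (dk_all hx (g2 a a t s) hgl (norm_nonneg _)) (gr a t) (gr a s)
    rw [abs_of_pos hx]
    refine fin (h5.trans (add_le_add ?_ le_rfl))
    have := Real.exp_pos (-(t - s))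
    have h6 : 0 ≤ 16 * K0 * C * ε * Real.exp (-(t - s)) := by positivity
    linarith
  -- cross kernels
  have crs : ∀ a d t s, a ≠ d → s < t → |(datC I O).kd a d t s| ≤ K * ε * Real.exp (-|t - s|) +
      K * (M / σ) * (Real.exp (-|t|) + Real.exp (-|s|)) := by
    intro a d t s had hts
    have hx : 0 < t - s := sub_pos.2 hts
    have e0 : (datC I O).kd a d t s = (Ux (ga t - ga s)).re - (Ux (zI I a t - zI I d s)).re := by
      rw [← kap_eq hsm a3 a d hts.ne']
      have e1 : (gasI I O).κ a d t s = (gasI I O).K0 a d t s - ((gasI I O).K a d t s).re := rfl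
      have e2 : (gasI I O).K0 a d t s = (Ux (ga t - ga s)).re := by
        change (if a = d then (Up Us ga t s).re else (Ux (ga t - ga s)).re) = _
        rw [if_neg had]
      have e3 : (gasI I O).K a d t s = Ux (zI I a t - zI I d s) := by
        change (if a = d then Up Us (zt (gD (I.η a))) t s else Ux (zt (gD (I.η a)) t - zt (gD (I.η d)) s)) = _
        rw [if_neg had]
        rfl
      rw [e1, e2, e3]
    rw [e0]
    have hg2 := g2 a d t s
    have hep := Real.exp_pos (-(t - s))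
    have hfe : 0 ≤ A * (M / σ) := by positivity
    rcases le_total 2 (t - s) with hx2 | hx2
    · have h5 := pair (f := Ux) (f' := Uxd) (c := -2) (I := I) (fun w h0 h1 => hasDerivAt_Ux (by linarith))
        (fun w h0 => by
          have := Uxd_dec h0
          push_cast
          rwa [← sub_eq_add_neg]) (by norm_num) a3 a d hts
        (κ := 100 * (C * ε) * Real.exp (-(t - s))) (A := A * (M / σ)) (hg2.trans (by linarith))
        (dk_far hx2 hg2 (norm_nonneg _)) (gr a t) (gr d s)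
      rw [abs_of_pos hx]
      refine fin (h5.trans (add_le_add ?_ le_rfl))
      have h6 : 0 ≤ 16 * K0 * C * ε * Real.exp (-(t - s)) := by positivity
      linarith
    · have h5 := H0 (ga t - ga s) (zI I a t - zI I d s) ((im0 t s).trans (by linarith [l_num2])) (im1 a3 a d t s)
      rw [norm_sub_rev (ga t - ga s), zI_sub] at h5
      have h6 := (Complex.abs_re_le_norm _).trans h5
      rw [Complex.sub_re] at h6
      rw [abs_of_pos hx]
      have h7 := e_ge hx2
      have h8 : |(Ux (ga t - ga s)).re - (Ux (zI I a t - zI I d s)).re| ≤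
          16 * K0 * C * ε * Real.exp (-(t - s)) := by
        calc _ ≤ K0 * ‖gD (I.η a) t - gD (I.η d) s‖ := h6
          _ ≤ K0 * (2 * (C * ε)) := by gcongr
          _ ≤ K0 * (2 * (C * ε)) * (8 * Real.exp (-(t - s))) := le_mul_of_one_le_right (by positivity) h7
          _ = _ := by ring
      refine fin (h8.trans ?_)
      have h9 : 0 ≤ 100 * C * ε * Real.exp (-(t - s)) := by positivity
      have h10 : 0 ≤ 2 * (A * (M / σ)) * (Real.exp (-|t|) + Real.exp (-|s|)) := by positivity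
      linarith
  have lt : ∀ a d t s, s < t → |(datC I O).kd a d t s| ≤ K * ε * Real.exp (-|t - s|) +
      K * (M / σ) * (Real.exp (-|t|) + Real.exp (-|s|)) := by
    intro a d t s hts
    rcases eq_or_ne a d with rfl | had
    · exact own a t s hts
    · exact crs a d t s had hts
  intro a d t t'
  rcases lt_trichotomy t' t with h1 | rfl | h1
  · exact lt a d t t' h1
  · -- the diagonal
    have hc1 := (bk_tot (O := O) a1 a2 a3 h.der a d).cont
    have hc2 := (bk_ks a d).cont
    have hc : Continuous fun p : ℝ × ℝ => (datC I O).kd a d p.1 p.2 := hc1.sub hc2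
    have hs' : Tendsto (fun n : ℕ => t' - 1 / ((n : ℝ) + 1)) atTop (𝓝 t') := by
      have := (tendsto_one_div_add_atTop_nhds_zero_nat (𝕜 := ℝ)).const_sub t'
      rwa [sub_zero] at this
    have hL : Tendsto (fun n : ℕ => |(datC I O).kd a d t' (t' - 1 / ((n : ℝ) + 1))|) atTop
        (𝓝 |(datC I O).kd a d t' t'|) := by
      have h5 : Continuous fun s : ℝ => |(datC I O).kd a d t' s| :=
        (hc.comp (f := fun s : ℝ => (t', s)) (by fun_prop)).abs
      exact (h5.tendsto t').comp hs'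
    have hR : Tendsto (fun n : ℕ => K * ε * Real.exp (-|t' - (t' - 1 / ((n : ℝ) + 1))|) +
        K * (M / σ) * (Real.exp (-|t'|) + Real.exp (-|t' - 1 / ((n : ℝ) + 1)|))) atTop
        (𝓝 (K * ε * Real.exp (-|t' - t'|) + K * (M / σ) * (Real.exp (-|t'|) + Real.exp (-|t'|)))) := by
      have h5 : Continuous fun s : ℝ => K * ε * Real.exp (-|t' - s|) +
        K * (M / σ) * (Real.exp (-|t'|) + Real.exp (-|s|)) := by fun_prop
      exact (h5.tendsto t').comp hs'
    refine le_of_tendsto_of_tendsto hL hR (Eventually.of_forall fun n => ?_)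
    have : (0 : ℝ) < 1 / ((n : ℝ) + 1) := by positivity
    exact lt a d t' _ (by linarith)
  · rw [kd_symm hsm, abs_sub_comm t t', add_comm (Real.exp (-|t|))]
    exact lt d a t' t h1

end

end PLT.Cv
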