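import Pool.Agent.PLT.KerF2

/-!
# THETA, row B: the double difference (helper69)

`V_iter`: `V (u - v)` as double integral of its second derivative. `Dd k kt D θ`: a symmetric kernel whose mixed
derivative `D` is at most `θ V''`; **`Dd.form`**: `|⟨ν, k ν⟩| ≤ θ ⟨ν, V ν⟩` for bounded integrable `ν`.
-/

set_option autoImplicit false

open MeasureTheory Set Filter Topology Complex

namespace PLT.KF

open NUMF NUKer NUAct NU42

noncomputable section

/-! ### `V` -/

/-- derivative of `V` -/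
def Vd (x : ℝ) : ℝ := (Usd x + Uxd x).re

lemma V_re {x : ℝ} (hx : 0 < x) : V x = (Us x + Ux x).re := by
  rw [V_eq hx.ne', Us_ofReal hx, Ux_ofReal, Complex.add_re, Complex.ofReal_re, Complex.ofReal_re]
  ring

lemma im_real (x : ℝ) : |((x : ℝ) : ℂ).im| < l := by
  rw [Complex.ofReal_im, abs_zero]
  exact l_pos

lemma hasDerivAt_V {x : ℝ} (hx : 0 < x) : HasDerivAt V (Vd x) x := by
  have h1 := ((hasDerivAt_Us (z := x) (by simpa using hx) (im_real x)).add (hasDerivAt_Ux (z := x) (im_real x))).comp_ofReal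
  have h2 : HasDerivAt (fun x : ℝ => (Us x + Ux x).re) (Vd x) x :=
    Complex.reCLM.hasFDerivAt.comp_hasDerivAt x h1
  refine h2.congr_of_eventuallyEq ?_
  filter_upwards [lt_mem_nhds hx] with y hy using V_re hy

lemma hasDerivAt_Vd {x : ℝ} (hx : 0 < x) : HasDerivAt Vd (PV (Real.cosh (2 * x))) x := by
  have h1 := ((hasDerivAt_Usd (z := x) (by simpa using hx) (im_real x)).add (hasDerivAt_Uxd (z := x) (im_real x))).comp_ofReal
  have h2 : HasDerivAt Vd (4 / (Complex.cosh (2 * (x : ℂ)) - 1) + Fo (Complex.cosh (2 * (x : ℂ))) +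
      Fx (Complex.cosh (2 * (x : ℂ)))).re x :=
    Complex.reCLM.hasFDerivAt.comp_hasDerivAt x h1
  refine h2.congr_deriv ?_
  have e : Complex.cosh (2 * (x : ℂ)) = ((Real.cosh (2 * x) : ℝ) : ℂ) := by push_cast; rfl
  rw [e, Fo_ofReal, Fx_ofReal]
  unfold PV
  rw [← Complex.ofReal_re (4 / (Real.cosh (2 * x) - 1) + FoR (Real.cosh (2 * x)) + FxR (Real.cosh (2 * x)))]
  push_cast
  rfl

lemma X_gt {x : ℝ} (hx : 0 < x) : 1 < Real.cosh (2 * x) := Real.one_lt_cosh.2 (by positivity)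

lemma dk_tend (a : ℝ) : Tendsto (fun x : ℝ => dk (x + a)) atTop (𝓝 0) := by
  have h : Tendsto (fun x : ℝ => 4 * Real.exp (-(2 * (x + a)))) atTop (𝓝 0) := by
    have h1 : Tendsto (fun x : ℝ => 2 * (x + a)) atTop atTop :=
      (tendsto_atTop_add_const_right _ a tendsto_id).const_mul_atTop two_pos
    have h2 := (Real.tendsto_exp_neg_atTop_nhds_zero.comp h1).const_mul 4
    rw [mul_zero] at h2
    exact h2
  refine squeeze_zero' ?_ ?_ h
  · filter_upwards [eventually_ge_atTop (1 - a)] with x hx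
    exact (dk_pos (by linarith)).le
  · filter_upwards [eventually_ge_atTop (1 - a)] with x hx
    exact dk_le (by linarith)

lemma Vd_abs {x : ℝ} (hx : 0 < x) : |Vd x| ≤ 12 * dk x := by
  have h1 := Usd_dec (z := x) (by simpa using hx)
  have h2 := Uxd_dec (z := x) (by simpa using hx)
  rw [Complex.ofReal_re] at h1 h2
  have e : Vd x = ((Usd x + 2) + (Uxd x - 2)).re := by
    unfold Vd
    congr 1
    ring
  rw [e]
  refine (Complex.abs_re_le_norm _).trans ((norm_add_le _ _).trans ?_)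
  linarith

lemma Vd_tend (a : ℝ) : Tendsto (fun x : ℝ => Vd (a + x)) atTop (𝓝 0) := by
  have h := (dk_tend a).const_mul 12
  rw [mul_zero] at h
  refine squeeze_zero_norm' ?_ h
  filter_upwards [eventually_gt_atTop (-a)] with x hx
  rw [Real.norm_eq_abs, add_comm]
  exact Vd_abs (by linarith)

lemma V_tend (a : ℝ) : Tendsto (fun x : ℝ => V (x + a)) atTop (𝓝 0) := by
  have h : Tendsto (fun x : ℝ => 6 * Real.exp (-(2 * (x + a)))) atTop (𝓝 0) := by
    have h1 : Tendsto (fun x : ℝ => 2 * (x + a)) atTop atTop :=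
      (tendsto_atTop_add_const_right _ a tendsto_id).const_mul_atTop two_pos
    have h2 := (Real.tendsto_exp_neg_atTop_nhds_zero.comp h1).const_mul 6
    rw [mul_zero] at h2
    exact h2
  refine squeeze_zero_norm' ?_ h
  filter_upwards [eventually_ge_atTop (1 - a)] with x hx
  have h1 : 1 ≤ |x + a| := (by linarith : 1 ≤ x + a).trans (le_abs_self _)
  have h2 := V_dec h1
  rw [abs_of_nonneg (by linarith : 0 ≤ x + a)] at h2
  rw [Real.norm_eq_abs]
  refine h2.trans (le_of_eq ?_)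
  ring_nf

/-- the second derivative of `V` at `σ + t` -/
def Pv (p : ℝ × ℝ) : ℝ := if 0 < p.1 + p.2 then PV (Real.cosh (2 * (p.1 + p.2))) else 0

lemma PV_meas : Measurable PV := by
  unfold PV FoR FxR
  fun_prop

lemma Pv_meas : Measurable Pv := by
  unfold Pv
  refine Measurable.ite (measurableSet_lt measurable_const (measurable_fst.add measurable_snd)) ?_ measurable_const
  exact PV_meas.comp (Real.continuous_cosh.measurable.comp ((measurable_fst.add measurable_snd).const_mul 2))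

lemma Pv_nonneg (p : ℝ × ℝ) : 0 ≤ Pv p := by
  unfold Pv
  split_ifs with h
  · exact (PV_pos (X_gt h)).le
  · exact le_rfl

/-- the double integral of the second derivative -/
lemma V_iter {u v : ℝ} (h : v < u) : IntegrableOn Pv (Ioi (-v) ×ˢ Ioi u) ∧
    ∫ p in Ioi (-v) ×ˢ Ioi u, Pv p = V (u - v) := by
  -- inner integral
  have inn : ∀ σ ∈ Ioi (-v), IntegrableOn (fun t => Pv (σ, t)) (Ioi u) ∧ ∫ t in Ioi u, Pv (σ, t) = -Vd (σ + u) := by
    intro σ hσ
    have hσ' : -v < σ := hσ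
    have d : ∀ t ∈ Ici u, HasDerivAt (fun t => Vd (σ + t)) (Pv (σ, t)) t := by
      intro t ht
      have h1 : 0 < σ + t := by
        have : u ≤ t := ht
        linarith
      have h2 := (hasDerivAt_Vd h1).comp_const_add σ t
      unfold Pv
      rw [if_pos h1]
      exact h2
    have p : ∀ t ∈ Ioi u, 0 ≤ Pv (σ, t) := fun t _ => Pv_nonneg _
    have i := integrableOn_Ioi_deriv_of_nonneg' d p (Vd_tend σ)
    refine ⟨i, ?_⟩
    rw [integral_Ioi_of_hasDerivAt_of_nonneg' d p (Vd_tend σ), zero_sub]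
  have d2 : ∀ σ ∈ Ici (-v), HasDerivAt (fun σ => -V (σ + u)) (-Vd (σ + u)) σ := by
    intro σ hσ
    have h1 : 0 < σ + u := by
      have : -v ≤ σ := hσ
      linarith
    exact ((hasDerivAt_V h1).comp_add_const σ u).neg
  have p2 : ∀ σ ∈ Ioi (-v), 0 ≤ -Vd (σ + u) := by
    intro σ hσ
    rw [← (inn σ hσ).2]
    exact setIntegral_nonneg measurableSet_Ioi fun t _ => Pv_nonneg _
  have t2 : Tendsto (fun σ => -V (σ + u)) atTop (𝓝 0) := by
    have := (V_tend u).neg
    rwa [neg_zero] at this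
  have i2 := integrableOn_Ioi_deriv_of_nonneg' d2 p2 t2
  have v2 := integral_Ioi_of_hasDerivAt_of_nonneg' d2 p2 t2
  have e2 : -V (-v + u) = -V (u - v) := by rw [neg_add_eq_sub]
  rw [e2, zero_sub, neg_neg] at v2
  have hr : (volume : Measure (ℝ × ℝ)).restrict (Ioi (-v) ×ˢ Ioi u) =
      ((volume : Measure ℝ).restrict (Ioi (-v))).prod ((volume : Measure ℝ).restrict (Ioi u)) := by
    rw [Measure.prod_restrict]
    rfl
  have hI : Integrable Pv (((volume : Measure ℝ).restrict (Ioi (-v))).prod ((volume : Measure ℝ).restrict (Ioi u))) := by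
    rw [integrable_prod_iff Pv_meas.aestronglyMeasurable]
    refine ⟨(ae_restrict_iff' measurableSet_Ioi).2 (Eventually.of_forall fun σ hσ => (inn σ hσ).1), ?_⟩
    refine Integrable.congr i2 ?_
    refine (ae_restrict_iff' measurableSet_Ioi).2 (Eventually.of_forall fun σ hσ => ?_)
    simp only
    rw [← (inn σ hσ).2]
    refine integral_congr_ae (Eventually.of_forall fun t => ?_)
    simp only [Real.norm_eq_abs, abs_of_nonneg (Pv_nonneg _)]
  constructor
  · unfold IntegrableOn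
    rw [hr]
    exact hI
  · rw [hr, integral_prod _ hI, ← v2]
    exact setIntegral_congr_fun measurableSet_Ioi fun σ hσ => (inn σ hσ).2

/-! ### the indicator of the points between -/

/-- `u` between `-σ` and `t` -/
def gi (u : ℝ) (p : ℝ × ℝ) : ℝ := if -p.1 < u ∧ u < p.2 then 1 else 0

lemma gi_mul {u v : ℝ} (h : v < u) (Q : ℝ × ℝ → ℝ) (p : ℝ × ℝ) :
    gi u p * gi v p * Q p = (Ioi (-v) ×ˢ Ioi u).indicator Q p := by
  unfold gi
  by_cases hp : p ∈ Ioi (-v) ×ˢ Ioi u
  · rw [indicator_of_mem hp]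
    have h1 : -v < p.1 := hp.1
    have h2 : u < p.2 := hp.2
    rw [if_pos ⟨by linarith, h2⟩, if_pos ⟨by linarith, by linarith⟩]
    ring
  · rw [indicator_of_notMem hp]
    by_cases h1 : -p.1 < u ∧ u < p.2
    · by_cases h2 : -p.1 < v ∧ v < p.2
      · exfalso
        apply hp
        exact ⟨by show -v < p.1; linarith [h2.1], h1.2⟩
      · rw [if_neg h2]
        ring
    · rw [if_neg h1]
      ring

lemma ae_ne : ∀ᵐ z : ℝ × ℝ, z.1 ≠ z.2 := by
  have h : (volume : Measure (ℝ × ℝ)) {z : ℝ × ℝ | z.1 = z.2} = 0 := by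
    have hm : MeasurableSet {z : ℝ × ℝ | z.1 = z.2} := measurableSet_eq_fun measurable_fst measurable_snd
    rw [Measure.volume_eq_prod, Measure.measure_prod_null hm]
    refine Eventually.of_forall fun x => ?_
    have : Prod.mk x ⁻¹' {z : ℝ × ℝ | z.1 = z.2} = {x} := by
      ext y
      simp [eq_comm]
    simp only [this]
    simp
  rw [ae_iff]
  simpa using h

/-- bounded, integrable, measurable -/
structure Nc (ν : ℝ → ℝ) : Prop where
  m : Measurable ν
  i : Integrable ν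
  b : ∃ B, ∀ t, |ν t| ≤ B

lemma V_measurable : Measurable V := by
  have : V = fun x => V x := rfl
  rw [this]
  simp only [V_cosh]
  fun_prop

lemma nV_int {ν ν' : ℝ → ℝ} (h : Nc ν) (h' : Nc ν') :
    Integrable fun z : ℝ × ℝ => ν z.1 * ν' z.2 * V (z.1 - z.2) := by
  obtain ⟨B, hB⟩ := h.b
  have h1 : Integrable (fun z : ℝ × ℝ => ν' z.2 * V (z.1 - z.2)) :=
    h'.i.convolution_integrand (ContinuousLinearMap.mul ℝ ℝ) V_integral.1
  have h2 : Integrable (fun z : ℝ × ℝ => ν z.1 * (ν' z.2 * V (z.1 - z.2))) :=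
    h1.bdd_mul (c := B) (h.m.comp measurable_fst).aestronglyMeasurable
      (Eventually.of_forall fun z => by rw [Real.norm_eq_abs]; exact hB _)
  exact h2.congr (Eventually.of_forall fun z => by ring)

/-- the function of four variables -/
def Gf (ν ν' : ℝ → ℝ) (Q : ℝ × ℝ → ℝ) (y : (ℝ × ℝ) × (ℝ × ℝ)) : ℝ :=
  ν y.1.1 * ν' y.1.2 * (gi y.1.1 y.2 * gi y.1.2 y.2 * Q y.2)

lemma gi_meas : Measurable fun y : ℝ × (ℝ × ℝ) => gi y.1 y.2 := by
  unfold gi
  refine Measurable.ite ?_ measurable_const measurable_const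
  exact (measurableSet_lt (measurable_snd.fst.neg) measurable_fst).inter
    (measurableSet_lt measurable_fst measurable_snd.snd)

lemma Gf_meas {ν ν' : ℝ → ℝ} {Q : ℝ × ℝ → ℝ} (h : Measurable ν) (h' : Measurable ν') (hQ : Measurable Q) :
    Measurable (Gf ν ν' Q) := by
  unfold Gf
  have g1 : Measurable fun y : (ℝ × ℝ) × (ℝ × ℝ) => gi y.1.1 y.2 :=
    gi_meas.comp (measurable_fst.fst.prodMk measurable_snd)
  have g2 : Measurable fun y : (ℝ × ℝ) × (ℝ × ℝ) => gi y.1.2 y.2 :=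
    gi_meas.comp (measurable_fst.snd.prodMk measurable_snd)
  exact ((h.comp measurable_fst.fst).mul (h'.comp measurable_fst.snd)).mul
    ((g1.mul g2).mul (hQ.comp measurable_snd))

/-- the second derivative between two different points -/
lemma giP {u v : ℝ} (h : u ≠ v) : Integrable (fun p => gi u p * gi v p * Pv p) ∧
    ∫ p, gi u p * gi v p * Pv p = V (u - v) := by
  have main : ∀ u v : ℝ, v < u → Integrable (fun p => gi u p * gi v p * Pv p) ∧
      ∫ p, gi u p * gi v p * Pv p = V (u - v) := by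
    intro u v h
    obtain ⟨h1, h2⟩ := V_iter h
    have hm : MeasurableSet (Ioi (-v) ×ˢ Ioi u : Set (ℝ × ℝ)) := measurableSet_Ioi.prod measurableSet_Ioi
    simp only [gi_mul h]
    exact ⟨(integrable_indicator_iff hm).2 h1, by rw [integral_indicator hm, h2]⟩
  rcases lt_or_gt_of_ne h with h1 | h1
  · have h2 := main v u h1
    have e : ∀ p, gi u p * gi v p * Pv p = gi v p * gi u p * Pv p := fun p => by ring
    simp only [e]
    rw [← V_even, neg_sub]
    exact h2
  · exact main u v h1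

lemma gi_nonneg (u : ℝ) (p : ℝ × ℝ) : 0 ≤ gi u p := by
  unfold gi
  split_ifs <;> norm_num

lemma GfP_int {ν ν' : ℝ → ℝ} (h : Nc ν) (h' : Nc ν') : Integrable (Gf ν ν' Pv) := by
  have hm := Gf_meas h.m h'.m Pv_meas
  rw [Measure.volume_eq_prod, integrable_prod_iff hm.aestronglyMeasurable]
  constructor
  · filter_upwards [ae_ne] with z hz
    exact (giP hz).1.const_mul (ν z.1 * ν' z.2)
  · refine (nV_int h h').abs.congr ?_
    filter_upwards [ae_ne] with z hz
    have e : ∀ p, ‖Gf ν ν' Pv (z, p)‖ = |ν z.1 * ν' z.2| * (gi z.1 p * gi z.2 p * Pv p) := by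
      intro p
      unfold Gf
      rw [Real.norm_eq_abs, abs_mul, abs_of_nonneg (a := gi z.1 p * gi z.2 p * Pv p)
        (mul_nonneg (mul_nonneg (gi_nonneg _ _) (gi_nonneg _ _)) (Pv_nonneg _))]
    simp only [e]
    rw [integral_const_mul, (giP hz).2, abs_mul, ← (giP hz).2, abs_of_nonneg (a := ∫ p, _)]
    exact integral_nonneg fun p => mul_nonneg (mul_nonneg (gi_nonneg _ _) (gi_nonneg _ _)) (Pv_nonneg _)

/-- the charge between `-σ` and `t` -/
def Nb (ν : ℝ → ℝ) (p : ℝ × ℝ) : ℝ := ∫ u, ν u * gi u p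

/-- Fubini -/
lemma Gf_int {ν ν' : ℝ → ℝ} (h : Nc ν) (h' : Nc ν') {Q : ℝ × ℝ → ℝ} (hQ : Measurable Q) {θ : ℝ}
    (hb : ∀ p, 0 < p.1 + p.2 → |Q p| ≤ θ * Pv p) : Integrable (Gf ν ν' Q) := by
  refine Integrable.mono' (g := fun y => |θ| * ‖Gf ν ν' Pv y‖) ((GfP_int h h').norm.const_mul _)
    (Gf_meas h.m h'.m hQ).aestronglyMeasurable (Eventually.of_forall fun y => ?_)
  unfold Gf
  by_cases hp : 0 < y.2.1 + y.2.2
  · have h1 := hb y.2 hp
    rw [Real.norm_eq_abs, Real.norm_eq_abs, abs_mul, abs_mul (ν y.1.1 * ν' y.1.2), abs_mul (gi y.1.1 y.2 * gi y.1.2 y.2),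
      abs_mul (gi y.1.1 y.2 * gi y.1.2 y.2), abs_of_nonneg (Pv_nonneg y.2)]
    have h2 : θ * Pv y.2 ≤ |θ| * Pv y.2 := mul_le_mul_of_nonneg_right (le_abs_self _) (Pv_nonneg _)
    calc |ν y.1.1 * ν' y.1.2| * (|gi y.1.1 y.2 * gi y.1.2 y.2| * |Q y.2|) ≤
        |ν y.1.1 * ν' y.1.2| * (|gi y.1.1 y.2 * gi y.1.2 y.2| * (|θ| * Pv y.2)) := by
          have := h1.trans h2
          gcongr
      _ = _ := by ring
  · have h0 : gi y.1.1 y.2 = 0 := by
      unfold gi
      rw [if_neg]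
      rintro ⟨a, b⟩
      linarith
    rw [h0]
    simp

lemma Gf_swap {ν ν' : ℝ → ℝ} (h : Nc ν) (h' : Nc ν') {Q : ℝ × ℝ → ℝ} (hQ : Measurable Q) {θ : ℝ}
    (hb : ∀ p, 0 < p.1 + p.2 → |Q p| ≤ θ * Pv p) :
    ∫ z : ℝ × ℝ, ν z.1 * ν' z.2 * ∫ p, gi z.1 p * gi z.2 p * Q p = ∫ p, Q p * (Nb ν p * Nb ν' p) := by
  have hI := Gf_int h h' hQ hb
  have h1 := integral_integral_swap (μ := (volume : Measure (ℝ × ℝ))) (ν := (volume : Measure (ℝ × ℝ)))
    (f := fun z p => Gf ν ν' Q (z, p)) hI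
  have h2 : ∀ z : ℝ × ℝ, ∫ p, Gf ν ν' Q (z, p) = ν z.1 * ν' z.2 * ∫ p, gi z.1 p * gi z.2 p * Q p := by
    intro z
    exact integral_const_mul (ν z.1 * ν' z.2) _
  have h3 : ∀ p : ℝ × ℝ, ∫ z : ℝ × ℝ, Gf ν ν' Q (z, p) = Q p * (Nb ν p * Nb ν' p) := by
    intro p
    have e : ∀ z : ℝ × ℝ, Gf ν ν' Q (z, p) = Q p * ((ν z.1 * gi z.1 p) * (ν' z.2 * gi z.2 p)) := by
      intro z
      unfold Gf
      simp only
      ring
    simp only [e]
    rw [integral_const_mul, Measure.volume_eq_prod,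
      integral_prod_mul (fun u => ν u * gi u p) (fun u => ν' u * gi u p)]
    rfl
  simp only [h2, h3] at h1
  exact h1

/-- **a symmetric kernel with mixed derivative `D` at most `θ V''`** -/
structure Dd (k kt D : ℝ → ℝ → ℝ) (θ : ℝ) : Prop where
  sy : ∀ t s, k t s = k s t
  Dm : Measurable fun p : ℝ × ℝ => D p.1 p.2
  Db : ∀ t s, s < t → |D t s| ≤ θ * PV (Real.cosh (2 * (t - s)))
  d1 : ∀ t s, s < t → HasDerivAt (fun t => k t s) (kt t s) t
  d2 : ∀ t s, s < t → HasDerivAt (fun s => kt t s) (D t s) s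
  lt : ∀ t, Tendsto (fun s => kt t s) atBot (𝓝 0)
  lk : ∀ s, Tendsto (fun t => k t s) atTop (𝓝 0)

variable {k kt D : ℝ → ℝ → ℝ} {θ : ℝ}

/-- the mixed derivative in the coordinates `(σ, t)` -/
def Qd (D : ℝ → ℝ → ℝ) (p : ℝ × ℝ) : ℝ := -D p.2 (-p.1)

lemma Dd.Qm (h : Dd k kt D θ) : Measurable (Qd D) :=
  (h.Dm.comp (measurable_snd.prodMk measurable_fst.neg)).neg

lemma Dd.Qb (h : Dd k kt D θ) (p : ℝ × ℝ) (hp : 0 < p.1 + p.2) : |Qd D p| ≤ θ * Pv p := by
  have h1 := h.Db p.2 (-p.1) (by linarith)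
  unfold Qd Pv
  rw [abs_neg, if_pos hp, show p.1 + p.2 = p.2 - -p.1 by ring]
  exact h1

/-- the kernel as a double integral -/
lemma Dd.iter (h : Dd k kt D θ) {u v : ℝ} (huv : v < u) : ∫ p in Ioi (-v) ×ˢ Ioi u, Qd D p = k u v := by
  have hP := (V_iter huv).1
  have hI : IntegrableOn (Qd D) (Ioi (-v) ×ˢ Ioi u) := by
    refine Integrable.mono' (hP.const_mul θ) h.Qm.aestronglyMeasurable ?_
    refine (ae_restrict_iff' (measurableSet_Ioi.prod measurableSet_Ioi)).2 (Eventually.of_forall fun p hp => ?_)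
    rw [Real.norm_eq_abs]
    refine h.Qb p ?_
    have h1 : -v < p.1 := hp.1
    have h2 : u < p.2 := hp.2
    linarith
  have hr : (volume : Measure (ℝ × ℝ)).restrict (Ioi (-v) ×ˢ Ioi u) =
      ((volume : Measure ℝ).restrict (Ioi (-v))).prod ((volume : Measure ℝ).restrict (Ioi u)) := by
    rw [Measure.prod_restrict]
    rfl
  have hI2 : Integrable (Qd D) (((volume : Measure ℝ).restrict (Ioi (-v))).prod ((volume : Measure ℝ).restrict (Ioi u))) := by
    rw [← hr]
    exact hI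
  have hae := ((integrable_prod_iff' h.Qm.aestronglyMeasurable).1 hI2).1
  rw [ae_restrict_iff' measurableSet_Ioi] at hae
  rw [hr, integral_prod_symm _ hI2]
  -- inner integral
  have inn : ∀ᵐ t, t ∈ Ioi u → ∫ σ in Ioi (-v), Qd D (σ, t) = -kt t v := by
    filter_upwards [hae] with t ht htu
    have htu' : u < t := htu
    have d : ∀ σ ∈ Ici (-v), HasDerivAt (fun σ => kt t (-σ)) (Qd D (σ, t)) σ := by
      intro σ hσ
      have h1 : -v ≤ σ := hσ
      have h2 := (h.d2 t (-σ) (by linarith)).comp σ (hasDerivAt_neg σ)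
      exact h2.congr_deriv (by unfold Qd; ring)
    have l : Tendsto (fun σ => kt t (-σ)) atTop (𝓝 0) := (h.lt t).comp tendsto_neg_atTop_atBot
    rw [integral_Ioi_of_hasDerivAt_of_tendsto' d (ht htu) l, neg_neg, zero_sub]
  have e1 : ∫ t in Ioi u, ∫ σ in Ioi (-v), Qd D (σ, t) = ∫ t in Ioi u, -kt t v := by
    refine setIntegral_congr_ae measurableSet_Ioi ?_
    exact inn
  have i2 : IntegrableOn (fun t => -kt t v) (Ioi u) := by
    have h3 := hI2.integral_prod_right
    refine h3.congr ?_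
    rw [EventuallyEq, ae_restrict_iff' measurableSet_Ioi]
    exact inn
  rw [e1, integral_neg]
  have i3 : IntegrableOn (fun t => kt t v) (Ioi u) := by
    have := i2.neg
    simpa using this
  have d3 : ∀ t ∈ Ici u, HasDerivAt (fun t => k t v) (kt t v) t := by
    intro t ht
    have : u ≤ t := ht
    exact h.d1 t v (by linarith)
  rw [integral_Ioi_of_hasDerivAt_of_tendsto' d3 i3 (h.lk v), zero_sub, neg_neg]

lemma Dd.gi (h : Dd k kt D θ) {u v : ℝ} (huv : u ≠ v) : ∫ p, gi u p * gi v p * Qd D p = k u v := by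
  have main : ∀ u v : ℝ, v < u → ∫ p, KF.gi u p * KF.gi v p * Qd D p = k u v := by
    intro u v huv
    simp only [gi_mul huv]
    rw [integral_indicator (measurableSet_Ioi.prod measurableSet_Ioi), h.iter huv]
  rcases lt_or_gt_of_ne huv with h1 | h1
  · have e : ∀ p, KF.gi u p * KF.gi v p * Qd D p = KF.gi v p * KF.gi u p * Qd D p := fun p => by ring
    simp only [e]
    rw [main v u h1, h.sy]
  · exact main u v h1

/-- the form -/
def BF (k : ℝ → ℝ → ℝ) (ν ν' : ℝ → ℝ) : ℝ := ∫ t, ν t * ∫ s, ν' s * k t s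

/-- the energy -/
def VF (ν ν' : ℝ → ℝ) : ℝ := ∫ t, ν t * ∫ s, ν' s * V (t - s)

lemma Dd.k_int (h : Dd k kt D θ) {ν ν' : ℝ → ℝ} (hν : Nc ν) (hν' : Nc ν') :
    Integrable (fun z : ℝ × ℝ => ν z.1 * ν' z.2 * k z.1 z.2) ∧
      ∫ z : ℝ × ℝ, ν z.1 * ν' z.2 * k z.1 z.2 = ∫ p, Qd D p * (Nb ν p * Nb ν' p) := by
  have hI := Gf_int hν hν' h.Qm h.Qb
  have e : (fun z : ℝ × ℝ => ∫ p, Gf ν ν' (Qd D) (z, p)) =ᵐ[volume] fun z : ℝ × ℝ => ν z.1 * ν' z.2 * k z.1 z.2 := by
    filter_upwards [ae_ne] with z hz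
    rw [← h.gi hz]
    exact integral_const_mul (ν z.1 * ν' z.2) _
  refine ⟨hI.integral_prod_left.congr e, ?_⟩
  rw [← Gf_swap hν hν' h.Qm h.Qb]
  refine integral_congr_ae ?_
  filter_upwards [ae_ne] with z hz
  rw [h.gi hz]

lemma BF_eq (k : ℝ → ℝ → ℝ) {ν ν' : ℝ → ℝ} (h : Integrable (fun z : ℝ × ℝ => ν z.1 * ν' z.2 * k z.1 z.2)) :
    BF k ν ν' = ∫ z : ℝ × ℝ, ν z.1 * ν' z.2 * k z.1 z.2 := by
  rw [Measure.volume_eq_prod, integral_prod _ h]
  unfold BF
  refine integral_congr_ae (Eventually.of_forall fun t => ?_)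
  simp only
  rw [← integral_const_mul]
  refine integral_congr_ae (Eventually.of_forall fun s => ?_)
  simp only
  ring

theorem VF_eq {ν ν' : ℝ → ℝ} (hν : Nc ν) (hν' : Nc ν') : VF ν ν' = ∫ p, Pv p * (Nb ν p * Nb ν' p) := by
  have h1 := BF_eq (fun t s => V (t - s)) (nV_int hν hν')
  have h2 := Gf_swap hν hν' Pv_meas (θ := 1) (fun p _ => by rw [one_mul, abs_of_nonneg (Pv_nonneg _)])
  rw [← h2]
  unfold VF
  unfold BF at h1
  rw [h1]
  refine integral_congr_ae ?_
  filter_upwards [ae_ne] with z hz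
  rw [(giP hz).2]

lemma PN_int {ν ν' : ℝ → ℝ} (hν : Nc ν) (hν' : Nc ν') {Q : ℝ × ℝ → ℝ} (hQ : Measurable Q) {θ : ℝ}
    (hb : ∀ p, 0 < p.1 + p.2 → |Q p| ≤ θ * Pv p) : Integrable fun p => Q p * (Nb ν p * Nb ν' p) := by
  have hI := (Gf_int hν hν' hQ hb).integral_prod_right
  refine hI.congr (Eventually.of_forall fun p => ?_)
  have e : ∀ z : ℝ × ℝ, Gf ν ν' Q (z, p) = Q p * ((ν z.1 * gi z.1 p) * (ν' z.2 * gi z.2 p)) := by
    intro z
    unfold Gf
    simp only
    ring
  simp only [e]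
  rw [integral_const_mul, Measure.volume_eq_prod,
    integral_prod_mul (fun u => ν u * gi u p) (fun u => ν' u * gi u p)]
  rfl

theorem VF_nonneg {ν : ℝ → ℝ} (hν : Nc ν) : 0 ≤ VF ν ν := by
  rw [VF_eq hν hν]
  exact integral_nonneg fun p => mul_nonneg (Pv_nonneg _) (mul_self_nonneg _)

/-- **the form of a kernel against the energy** -/
theorem Dd.form (h : Dd k kt D θ) {ν : ℝ → ℝ} (hν : Nc ν) : |BF k ν ν| ≤ θ * VF ν ν := by
  obtain ⟨i1, e1⟩ := h.k_int hν hν
  rw [BF_eq k i1, e1, VF_eq hν hν, ← integral_const_mul]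
  refine (abs_integral_le_integral_abs).trans ?_
  refine integral_mono (PN_int hν hν h.Qm h.Qb).abs ?_ fun p => ?_
  · exact (PN_int hν hν Pv_meas (θ := 1) (fun p _ => by rw [one_mul, abs_of_nonneg (Pv_nonneg _)])).const_mul _
  · simp only
    rw [abs_mul, abs_mul_self]
    by_cases hp : 0 < p.1 + p.2
    · rw [← mul_assoc θ]
      exact mul_le_mul_of_nonneg_right (h.Qb p hp) (mul_self_nonneg _)
    · have h0 : Nb ν p = 0 := by
        unfold Nb
        have : ∀ u, ν u * KF.gi u p = 0 := by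
          intro u
          unfold KF.gi
          rw [if_neg]
          · ring
          · rintro ⟨a, b⟩
            linarith
        simp only [this, integral_zero]
      rw [h0]
      simp

end

end PLT.KF
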