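import Pool.Agent.NUKer.LogC

/-!
# THETA, row B: second derivatives of the pair potentials, numbers (helper69)

`C = cosh 2z`, `X = cosh 2x`. `Fo C`, `Fx C`: smooth parts of the second derivatives of `- log w`, `- log g`;
`PV X`: second derivative of `V`; `PV_ge`. `sf a b = (1 + a I) (1 + b I)`. **`pw_bd`**: own + cross change of the second
derivatives along a curve with slopes `≤ 1 / 4`, oscillation `≤ 3 / 125`, against `3 / 4 PV`.
-/

set_option autoImplicit false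

open Complex

namespace PLT.KF

open NUMF

noncomputable section

lemma r_sq : r ^ 2 = 1 / 2 := by
  unfold r
  rw [div_pow, Real.sq_sqrt (by norm_num)]
  norm_num

lemma r_lo : (7 : ℝ) / 10 < r := by
  have h := r_sq
  have h0 := r_pos
  nlinarith

lemma r_hi : r < 1768 / 2500 := by
  have h := r_sq
  have h0 := r_pos
  nlinarith

/-- smooth part of the second derivative of `- log w` -/
def Fo (C : ℂ) : ℂ := -4 * r / (C - r) + 2 / (C - r) ^ 2 - 4 / C ^ 2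

/-- second derivative of `- log g` -/
def Fx (C : ℂ) : ℂ := 8 * r / (C + r) + 4 / (C + r) ^ 2 - 4 / (C + 1)

/-- the same on the reals -/
def FoR (X : ℝ) : ℝ := -4 * r / (X - r) + 2 / (X - r) ^ 2 - 4 / X ^ 2

/-- the same on the reals -/
def FxR (X : ℝ) : ℝ := 8 * r / (X + r) + 4 / (X + r) ^ 2 - 4 / (X + 1)

/-- second derivative of `V` -/
def PV (X : ℝ) : ℝ := 4 / (X - 1) + FoR X + FxR X

lemma Fo_ofReal (X : ℝ) : Fo X = (FoR X : ℂ) := by
  unfold Fo FoR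
  push_cast
  ring

lemma Fx_ofReal (X : ℝ) : Fx X = (FxR X : ℂ) := by
  unfold Fx FxR
  push_cast
  ring

lemma FxR_eq {X : ℝ} (hX : 1 < X) :
    FxR X = ((8 * r - 4) * X ^ 2 + 8 * X + 6) / ((X + r) ^ 2 * (X + 1)) := by
  have h1 := r_lo
  have h2 := r_sq
  have h3 : 0 < X + r := by linarith
  have h4 : 0 < X + 1 := by linarith
  unfold FxR
  rw [div_add_div _ _ h3.ne' (by positivity), div_sub_div _ _ (by positivity) h4.ne',
    div_eq_div_iff (by positivity) (by positivity)]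
  have e2 : r ^ 2 = 1 / 2 := h2
  have e3 : r ^ 3 = r / 2 := by rw [pow_succ, h2]; ring
  have e4 : r ^ 4 = 1 / 4 := by rw [show r ^ 4 = (r ^ 2) ^ 2 by ring, h2]; norm_num
  have e5 : r ^ 5 = r / 4 := by rw [show r ^ 5 = (r ^ 2) ^ 2 * r by ring, h2]; ring
  ring_nf
  rw [e5, e4, e3, e2]
  ring

lemma FxR_nonneg {X : ℝ} (hX : 1 < X) : 0 ≤ FxR X := by
  have h1 := r_lo
  have h3 : 0 < X + r := by linarith
  have h4 : 0 < X + 1 := by linarith
  rw [FxR_eq hX]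
  have : 0 ≤ (8 * r - 4) * X ^ 2 := mul_nonneg (by linarith) (by positivity)
  positivity

lemma FxR_le {X : ℝ} (hX : 1 < X) : FxR X ≤ 1 / 2 * (4 / (X - 1)) := by
  have h1 := r_lo
  have h2 := r_sq
  have h5 := r_hi
  have h3 : 0 < X + r := by linarith
  have h4 : 0 < X + 1 := by linarith
  have h6 : 0 < X - 1 := by linarith
  rw [FxR_eq hX, mul_div_assoc', div_le_div_iff₀ (by positivity) h6]
  obtain ⟨y, rfl⟩ : ∃ y, X = 1 + y := ⟨X - 1, by ring⟩
  have hy : 0 < y := by linarith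
  have e : 1 / 2 * 4 * ((1 + y + r) ^ 2 * (1 + y + 1)) - ((8 * r - 4) * (1 + y) ^ 2 + 8 * (1 + y) + 6) *
      (1 + y - 1) = 2 * (2 + y) * ((1 + y) ^ 2 + 2 * r * (1 + y) + r ^ 2) -
        y * ((8 * r - 4) * (1 + y) ^ 2 + 8 * (1 + y) + 6) := by ring
  rw [h2] at e
  have h7 : 0 ≤ (1768 / 2500 - r) * y ^ 3 := mul_nonneg (by linarith) (by positivity)
  have h8 : 0 ≤ (1768 / 2500 - r) * y ^ 2 := mul_nonneg (by linarith) (by positivity)
  have h9 : 0 ≤ (r - 7 / 10) * y := mul_nonneg (by linarith) (by positivity)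
  have h10 : 0 ≤ (1768 / 2500 - r) * y := mul_nonneg (by linarith) (by positivity)
  nlinarith [sq_nonneg (y - 1), mul_pos hy hy, mul_pos (mul_pos hy hy) hy]

lemma FoR_eq {X : ℝ} (hX : 1 < X) : FoR X = 4 * (1 - r * X) / (X - r) ^ 2 - 4 / X ^ 2 := by
  have h5 := r_hi
  have h3 : 0 < X - r := by linarith
  have h2 := r_sq
  unfold FoR
  congr 1
  rw [div_add_div _ _ h3.ne' (by positivity), div_eq_div_iff (by positivity) (by positivity)]
  have e2 : r ^ 2 = 1 / 2 := h2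
  have e3 : r ^ 3 = r / 2 := by rw [pow_succ, h2]; ring
  have e4 : r ^ 4 = 1 / 4 := by rw [show r ^ 4 = (r ^ 2) ^ 2 by ring, h2]; norm_num
  have e5 : r ^ 5 = r / 4 := by rw [show r ^ 5 = (r ^ 2) ^ 2 * r by ring, h2]; ring
  ring_nf
  simp only [e5, e4, e3, e2]
  ring

lemma FoR_abs {X : ℝ} (hX : 1 < X) : |FoR X| ≤ 4 / (X - 1) := by
  have h1 := r_lo
  have h2 := r_sq
  have h5 := r_hi
  have h3 : 0 < X - r := by linarith
  have h6 : 0 < X - 1 := by linarith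
  have h7 : 0 < X := by linarith
  rw [FoR_eq hX, abs_le]
  constructor
  · -- - s ≤
    have k1 : 4 * (1 - r * X) / (X - r) ^ 2 = -(4 * r / (X - r)) + 2 / (X - r) ^ 2 := by
      rw [← neg_div, div_add_div _ _ h3.ne' (by positivity), div_eq_div_iff (by positivity) (by positivity)]
      have e2 : r ^ 2 = 1 / 2 := h2
      have e3 : r ^ 3 = r / 2 := by rw [pow_succ, h2]; ring
      have e4 : r ^ 4 = 1 / 4 := by rw [show r ^ 4 = (r ^ 2) ^ 2 by ring, h2]; norm_num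
      have e5 : r ^ 5 = r / 4 := by rw [show r ^ 5 = (r ^ 2) ^ 2 * r by ring, h2]; ring
      ring_nf
      simp only [e5, e4, e3, e2]
      ring
    rw [k1]
    have k2 : 4 * r / (X - r) ≤ 4 * r / (X - 1) :=
      div_le_div_of_nonneg_left (by positivity) h6 (by linarith)
    have k3 : 2 / X ^ 2 ≤ 2 / (X - r) ^ 2 :=
      div_le_div_of_nonneg_left (by positivity) (by positivity) (by nlinarith)
    have k4 : 2 / X ^ 2 ≤ 4 * (1 - r) / (X - 1) := by
      rw [div_le_div_iff₀ (by positivity) h6]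
      nlinarith [sq_nonneg (X - 1), sq_nonneg X]
    have k5 : 4 / (X - 1) = 4 * r / (X - 1) + 4 * (1 - r) / (X - 1) := by
      rw [← add_div]
      congr 1
      ring
    have k6 : 4 / X ^ 2 = 2 / X ^ 2 + 2 / X ^ 2 := by
      rw [← add_div]
      norm_num
    rw [k5, k6]
    linarith
  · have k1 : 4 * (1 - r * X) / (X - r) ^ 2 ≤ 4 / (X - 1) := by
      rw [div_le_div_iff₀ (by positivity) h6]
      nlinarith [sq_nonneg (X - 1), sq_nonneg X]
    have k2 : 0 < 4 / X ^ 2 := by positivity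
    linarith

lemma PV_ge1 {X : ℝ} (hX : 1 < X) (h : X ≤ 8 / 7) : 4 / (X - 1) ≤ PV X := by
  have h1 := r_lo
  have h2 := r_sq
  have h5 := r_hi
  have h3 : 0 < X - r := by linarith
  have h7 : 0 < X := by linarith
  have k1 := FxR_nonneg hX
  have k2 : 0 ≤ FoR X := by
    rw [FoR_eq hX, sub_nonneg, div_le_div_iff₀ (by positivity) (by positivity)]
    nlinarith [mul_nonneg (by linarith : 0 ≤ X - 1) (by linarith : 0 ≤ 8 / 7 - X),
      mul_pos h3 h3]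
  unfold PV
  linarith

lemma PV_ge {X : ℝ} (hX : 1 < X) : 7 / 10 * (4 / (X - 1)) ≤ PV X := by
  have h1 := r_lo
  have h2 := r_sq
  have h5 := r_hi
  have h3 : 0 < X - r := by linarith
  have h3' : 0 < X + r := by linarith
  have h6 : 0 < X - 1 := by linarith
  have h6' : 0 < X + 1 := by linarith
  have h7 : 0 < X := by linarith
  have hw : 0 < X ^ 2 - 1 / 2 := by nlinarith
  have hu : 0 < X ^ 2 - 1 := by nlinarith
  have hab : (X - r) * (X + r) = X ^ 2 - 1 / 2 := by linear_combination -h2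
  have k1 : -4 * r / (X - r) + 8 * r / (X + r) = (4 * r * X - 6) / (X ^ 2 - 1 / 2) := by
    rw [div_add_div _ _ h3.ne' h3'.ne', hab]
    congr 1
    linear_combination -12 * h2
  have k2 : 2 / (X - r) ^ 2 + 4 / (X + r) ^ 2 = (6 * X ^ 2 - 4 * r * X + 3) / (X ^ 2 - 1 / 2) ^ 2 := by
    rw [div_add_div _ _ (by positivity) (by positivity), ← mul_pow, hab]
    congr 1
    linear_combination 6 * h2
  have k3 : 4 / (X - 1) - 4 / (X + 1) = 8 / (X ^ 2 - 1) := by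
    rw [div_sub_div _ _ h6.ne' h6'.ne', div_eq_div_iff (by positivity) hu.ne']
    ring
  have e : PV X - 7 / 10 * (4 / (X - 1)) = (6 / 5 * X ^ 2 * (X ^ 2 - 1 / 2) ^ 2 + 4 * (X ^ 2 - 1 / 2) ^ 2 +
      (4 * r - 14 / 5) * X * X ^ 2 * (X ^ 2 - 1 / 2) ^ 2 - 6 * r * X * X ^ 2 * (X ^ 2 - 1 / 2) +
      2 * r * X * X ^ 2 + 6 * X ^ 2 * (X ^ 2 - 1 / 2) - 3 * X ^ 2) /
      ((X ^ 2 - 1) * X ^ 2 * (X ^ 2 - 1 / 2) ^ 2) := by
    have e1 : PV X = 8 / (X ^ 2 - 1) - 4 / X ^ 2 + (4 * r * X - 6) / (X ^ 2 - 1 / 2) +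
        (6 * X ^ 2 - 4 * r * X + 3) / (X ^ 2 - 1 / 2) ^ 2 := by
      rw [← k1, ← k2, ← k3]
      unfold PV FoR FxR
      ring
    have e2 : 7 / 10 * (4 / (X - 1)) = 14 / 5 * (X + 1) / (X ^ 2 - 1) := by
      rw [mul_div_assoc', div_eq_div_iff h6.ne' hu.ne']
      ring
    rw [e1, e2]
    have key : ∀ v w : ℝ, v ≠ 0 → w ≠ 0 → (8 / v - 4 / X ^ 2 + (4 * r * X - 6) / w +
        (6 * X ^ 2 - 4 * r * X + 3) / w ^ 2 - 14 / 5 * (X + 1) / v) * (v * X ^ 2 * w ^ 2) =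
        8 * X ^ 2 * w ^ 2 - 4 * v * w ^ 2 + (4 * r * X - 6) * v * X ^ 2 * w +
        (6 * X ^ 2 - 4 * r * X + 3) * v * X ^ 2 - 14 / 5 * (X + 1) * X ^ 2 * w ^ 2 := by
      intro v w hv hw'
      have hX0 := h7.ne'
      field_simp
    rw [eq_div_iff (by positivity), key _ _ hu.ne' hw.ne']
    ring
  have hN : 0 ≤ 6 / 5 * X ^ 2 * (X ^ 2 - 1 / 2) ^ 2 + 4 * (X ^ 2 - 1 / 2) ^ 2 +
      (4 * r - 14 / 5) * X * X ^ 2 * (X ^ 2 - 1 / 2) ^ 2 - 6 * r * X * X ^ 2 * (X ^ 2 - 1 / 2) +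
      2 * r * X * X ^ 2 + 6 * X ^ 2 * (X ^ 2 - 1 / 2) - 3 * X ^ 2 := by
    have a1 : 0 ≤ (4 * r - 14 / 5) * X * X ^ 2 * (X ^ 2 - 1 / 2) ^ 2 := by
      have : 0 ≤ 4 * r - 14 / 5 := by linarith
      positivity
    have a2 : 0 ≤ (1768 / 2500 - r) * (X * X ^ 2 * (6 * (X ^ 2 - 1 / 2) - 2)) := by
      have b1 : 0 ≤ 1768 / 2500 - r := by linarith
      have b2 : 0 ≤ 6 * (X ^ 2 - 1 / 2) - 2 := by nlinarith
      positivity
    have a3 : 0 ≤ 6 / 5 * X ^ 2 * (X ^ 2 - 1 / 2) ^ 2 + 4 * (X ^ 2 - 1 / 2) ^ 2 -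
        1768 / 2500 * (X * X ^ 2 * (6 * (X ^ 2 - 1 / 2) - 2)) + 6 * X ^ 2 * (X ^ 2 - 1 / 2) - 3 * X ^ 2 := by
      obtain ⟨y, rfl⟩ : ∃ y, X = 1 + y := ⟨X - 1, by ring⟩
      have hy : 0 < y := by linarith
      ring_nf
      positivity
    nlinarith
  have h9 : 0 ≤ PV X - 7 / 10 * (4 / (X - 1)) := by
    rw [e]
    positivity
  linarith

/-- difference of reciprocals -/
lemma inv_diff {A : ℂ} {m ρ : ℝ} (hm : 0 < m) (hρ : ρ < 1) (h : ‖A - m‖ ≤ ρ * m) :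
    ‖A⁻¹ - (m : ℂ)⁻¹‖ ≤ ρ / (1 - ρ) / m ∧
      ‖(A ^ 2)⁻¹ - ((m : ℂ) ^ 2)⁻¹‖ ≤ ρ / (1 - ρ) * (1 / (1 - ρ) + 1) / m ^ 2 := by
  have hmn : ‖(m : ℂ)‖ = m := by rw [Complex.norm_real, Real.norm_of_nonneg hm.le]
  have hρ1 : 0 < 1 - ρ := by linarith
  have hρ0 : 0 ≤ ρ := by
    have := (norm_nonneg _).trans h
    nlinarith
  have hA : (1 - ρ) * m ≤ ‖A‖ := by
    have h1 := norm_sub_norm_le (m : ℂ) (m - A)
    rw [hmn, sub_sub_cancel, norm_sub_rev] at h1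
    nlinarith
  have hA0 : 0 < ‖A‖ := lt_of_lt_of_le (by positivity) hA
  have hAn : A ≠ 0 := norm_pos_iff.1 hA0
  have hm0 : (m : ℂ) ≠ 0 := by exact_mod_cast hm.ne'
  have e1 : A⁻¹ - (m : ℂ)⁻¹ = (m - A) * (A⁻¹ * (m : ℂ)⁻¹) := by
    field_simp
  have hAi : ‖A⁻¹‖ ≤ 1 / (1 - ρ) / m := by
    rw [norm_inv, div_div, one_div]
    exact inv_anti₀ (by positivity) hA
  have hmi : ‖(m : ℂ)⁻¹‖ = 1 / m := by rw [norm_inv, hmn, one_div]
  have k1 : ‖A⁻¹ - (m : ℂ)⁻¹‖ ≤ ρ / (1 - ρ) / m := by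
    rw [e1, norm_mul, norm_mul, hmi, norm_sub_rev]
    calc ‖A - m‖ * (‖A⁻¹‖ * (1 / m)) ≤ (ρ * m) * (1 / (1 - ρ) / m * (1 / m)) := by gcongr
      _ = _ := by field_simp
  refine ⟨k1, ?_⟩
  have e2 : (A ^ 2)⁻¹ - ((m : ℂ) ^ 2)⁻¹ = (A⁻¹ - (m : ℂ)⁻¹) * (A⁻¹ + (m : ℂ)⁻¹) := by
    rw [← inv_pow, ← inv_pow]
    ring
  have k2 : ‖A⁻¹ + (m : ℂ)⁻¹‖ ≤ (1 / (1 - ρ) + 1) / m := by
    refine (norm_add_le _ _).trans ?_
    rw [hmi, add_div]
    exact add_le_add hAi le_rfl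
  rw [e2, norm_mul]
  calc ‖A⁻¹ - (m : ℂ)⁻¹‖ * ‖A⁻¹ + (m : ℂ)⁻¹‖ ≤ (ρ / (1 - ρ) / m) * ((1 / (1 - ρ) + 1) / m) := by
        have : 0 ≤ ρ / (1 - ρ) / m := by positivity
        gcongr
    _ = _ := by field_simp

lemma Fo_diff {X : ℝ} {C : ℂ} (hX : 1 < X) (h1 : ‖C - X‖ ≤ 9 / 125 * (X - r)) (h2 : ‖C - X‖ ≤ 1 / 20 * X) :
    ‖Fo C - (FoR X : ℂ)‖ ≤ 4 / 25 * (4 / (X - 1)) := by
  have hr1 := r_lo
  have hr2 := r_sq
  have hr5 := r_hi
  have h3 : 0 < X - r := by linarith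
  have h6 : 0 < X - 1 := by linarith
  have h7 : 0 < X := by linarith
  have a := inv_diff (A := C - r) h3 (ρ := 9 / 125) (by norm_num) (by
    push_cast
    rw [sub_sub_sub_cancel_right]
    exact h1)
  have b := inv_diff (A := C) h7 (ρ := 1 / 20) (by norm_num) h2
  obtain ⟨a1, a2⟩ := a
  obtain ⟨-, b2⟩ := b
  have e : Fo C - (FoR X : ℂ) = -(4 * r) * ((C - r)⁻¹ - ((X - r : ℝ) : ℂ)⁻¹) +
      2 * (((C - r) ^ 2)⁻¹ - (((X - r : ℝ) : ℂ) ^ 2)⁻¹) - 4 * ((C ^ 2)⁻¹ - ((X : ℂ) ^ 2)⁻¹) := by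
    rw [← Fo_ofReal]
    unfold Fo
    push_cast
    simp only [div_eq_mul_inv]
    ring
  have hr : ‖-(4 * (r : ℂ))‖ = 4 * r := by
    rw [norm_neg, norm_mul, Complex.norm_real, Real.norm_of_nonneg r_pos.le]
    simp
  have k : ‖Fo C - (FoR X : ℂ)‖ ≤ 4 * r * (9 / 116 / (X - r)) + 2 * (1613 / 10000 / (X - r) ^ 2) +
      4 * (39 / 361 / X ^ 2) := by
    rw [e]
    refine (norm_sub_le _ _).trans (add_le_add ((norm_add_le _ _).trans (add_le_add ?_ ?_)) ?_)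
    · rw [norm_mul, hr]
      refine mul_le_mul_of_nonneg_left (a1.trans (le_of_eq ?_)) (by linarith)
      norm_num
    · rw [norm_mul]
      simp only [Complex.norm_ofNat]
      refine mul_le_mul_of_nonneg_left (a2.trans ?_) (by norm_num)
      exact div_le_div_of_nonneg_right (by norm_num) (by positivity)
    · rw [norm_mul]
      simp only [Complex.norm_ofNat]
      refine mul_le_mul_of_nonneg_left (b2.trans (le_of_eq ?_)) (by norm_num)
      norm_num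
  refine k.trans ?_
  have c1 : 9 / 116 / (X - r) ≤ 9 / 116 / (X - 1) :=
    div_le_div_of_nonneg_left (by norm_num) h6 (by linarith)
  have c2 : 1613 / 10000 / (X - r) ^ 2 ≤ 1613 / 10000 / (4 * (732 / 2500)) / (X - 1) := by
    rw [div_div _ (4 * (732 / 2500)) (X - 1)]
    refine div_le_div_of_nonneg_left (by norm_num) (by positivity) ?_
    nlinarith [sq_nonneg (X - 1 - (1 - r))]
  have c3 : 39 / 361 / X ^ 2 ≤ 39 / 361 / 4 / (X - 1) := by
    rw [div_div _ 4 (X - 1)]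
    refine div_le_div_of_nonneg_left (by norm_num) (by positivity) ?_
    nlinarith [sq_nonneg (X - 2)]
  have c4 : 4 * r * (9 / 116 / (X - r)) ≤ 4 * (1768 / 2500) * (9 / 116 / (X - 1)) := by
    have : 0 ≤ 9 / 116 / (X - r) := by positivity
    have hr0 := r_pos
    gcongr
  have c5 : 4 * (1768 / 2500) * (9 / 116 / (X - 1)) + 2 * (1613 / 10000 / (4 * (732 / 2500)) / (X - 1)) +
      4 * (39 / 361 / 4 / (X - 1)) ≤ 4 / 25 * (4 / (X - 1)) := by
    have e9 : 4 * (1768 / 2500) * (9 / 116 / (X - 1)) + 2 * (1613 / 10000 / (4 * (732 / 2500)) / (X - 1)) +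
      4 * (39 / 361 / 4 / (X - 1)) = (4 * (1768 / 2500) * (9 / 116) + 2 * (1613 / 10000 / (4 * (732 / 2500))) +
      4 * (39 / 361 / 4)) / (X - 1) := by ring
    have e10 : 4 / 25 * (4 / (X - 1)) = 16 / 25 / (X - 1) := by ring
    rw [e9, e10]
    exact div_le_div_of_nonneg_right (by norm_num) h6.le
  linarith

lemma Fx_diff {X : ℝ} {C : ℂ} (hX : 1 < X) (h2 : ‖C - X‖ ≤ 1 / 20 * X) :
    ‖Fx C - (FxR X : ℂ)‖ ≤ 3 / 20 * (4 / (X - 1)) := by
  have hr1 := r_lo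
  have hr2 := r_sq
  have hr5 := r_hi
  have h3 : 0 < X + r := by linarith
  have h4 : 0 < X + 1 := by linarith
  have h6 : 0 < X - 1 := by linarith
  have a := inv_diff (A := C + r) h3 (ρ := 1 / 20) (by norm_num) (by
    push_cast
    rw [add_sub_add_right_eq_sub]
    exact h2.trans (by linarith))
  have b := inv_diff (A := C + 1) h4 (ρ := 1 / 20) (by norm_num) (by
    push_cast
    rw [add_sub_add_right_eq_sub]
    exact h2.trans (by linarith))
  obtain ⟨a1, a2⟩ := a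
  obtain ⟨b1, -⟩ := b
  have e : Fx C - (FxR X : ℂ) = (8 * r) * ((C + r)⁻¹ - ((X + r : ℝ) : ℂ)⁻¹) +
      4 * (((C + r) ^ 2)⁻¹ - (((X + r : ℝ) : ℂ) ^ 2)⁻¹) - 4 * ((C + 1)⁻¹ - ((X + 1 : ℝ) : ℂ)⁻¹) := by
    rw [← Fx_ofReal]
    unfold Fx
    push_cast
    simp only [div_eq_mul_inv]
    ring
  have hr : ‖(8 * (r : ℂ))‖ = 8 * r := by
    rw [norm_mul, Complex.norm_real, Real.norm_of_nonneg r_pos.le]
    simp
  have k : ‖Fx C - (FxR X : ℂ)‖ ≤ 8 * r * (1 / 19 / (X + r)) + 4 * (39 / 361 / (X + r) ^ 2) +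
      4 * (1 / 19 / (X + 1)) := by
    rw [e]
    refine (norm_sub_le _ _).trans (add_le_add ((norm_add_le _ _).trans (add_le_add ?_ ?_)) ?_)
    · rw [norm_mul, hr]
      refine mul_le_mul_of_nonneg_left (a1.trans (le_of_eq ?_)) (by linarith)
      norm_num
    · rw [norm_mul]
      simp only [Complex.norm_ofNat]
      refine mul_le_mul_of_nonneg_left (a2.trans (le_of_eq ?_)) (by norm_num)
      norm_num
    · rw [norm_mul]
      simp only [Complex.norm_ofNat]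
      refine mul_le_mul_of_nonneg_left (b1.trans (le_of_eq ?_)) (by norm_num)
      norm_num
  refine k.trans ?_
  have c1 : 1 / 19 / (X + r) ≤ 1 / 19 / (X - 1) :=
    div_le_div_of_nonneg_left (by norm_num) h6 (by linarith)
  have c2 : 39 / 361 / (X + r) ^ 2 ≤ 39 / 361 / (68 / 10) / (X - 1) := by
    rw [div_div _ (68 / 10 : ℝ) (X - 1)]
    refine div_le_div_of_nonneg_left (by norm_num) (by positivity) ?_
    nlinarith [sq_nonneg (X - 1 - (1 + r))]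
  have c3 : 1 / 19 / (X + 1) ≤ 1 / 19 / (X - 1) :=
    div_le_div_of_nonneg_left (by norm_num) h6 (by linarith)
  have c4 : 8 * r * (1 / 19 / (X + r)) ≤ 8 * (1768 / 2500) * (1 / 19 / (X - 1)) := by
    have : 0 ≤ 1 / 19 / (X + r) := by positivity
    have hr0 := r_pos
    gcongr
  have c5 : 8 * (1768 / 2500) * (1 / 19 / (X - 1)) + 4 * (39 / 361 / (68 / 10) / (X - 1)) +
      4 * (1 / 19 / (X - 1)) ≤ 3 / 20 * (4 / (X - 1)) := by
    have e9 : 8 * (1768 / 2500) * (1 / 19 / (X - 1)) + 4 * (39 / 361 / (68 / 10) / (X - 1)) +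
      4 * (1 / 19 / (X - 1)) = (8 * (1768 / 2500) * (1 / 19) + 4 * (39 / 361 / (68 / 10)) +
      4 * (1 / 19)) / (X - 1) := by ring
    have e10 : 3 / 20 * (4 / (X - 1)) = 12 / 20 / (X - 1) := by ring
    rw [e9, e10]
    exact div_le_div_of_nonneg_right (by norm_num) h6.le
  linarith

/-- the change of `cosh 2z` -/
lemma C_diff {x δ : ℝ} (hx : 0 ≤ x) (hδ : |δ| ≤ 3 / 125) :
    ‖Complex.cosh (2 * ((x : ℂ) + δ * I)) - (Real.cosh (2 * x) : ℂ)‖ ≤ 9 / 125 * (Real.cosh (2 * x) - r) ∧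
      ‖Complex.cosh (2 * ((x : ℂ) + δ * I)) - (Real.cosh (2 * x) : ℂ)‖ ≤ 1 / 20 * Real.cosh (2 * x) := by
  have hr1 := r_lo
  have hr2 := r_sq
  have hr5 := r_hi
  have hX := Real.one_le_cosh (2 * x)
  have hS : 0 ≤ Real.sinh (2 * x) := Real.sinh_nonneg_iff.2 (by linarith)
  have hsq := Real.cosh_sq (2 * x)
  obtain ⟨X, hXd⟩ : ∃ X, X = Real.cosh (2 * x) := ⟨_, rfl⟩
  obtain ⟨S, hSd⟩ : ∃ S, S = Real.sinh (2 * x) := ⟨_, rfl⟩
  have e : Complex.cosh (2 * ((x : ℂ) + δ * I)) - (Real.cosh (2 * x) : ℂ) =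
      -((X * (1 - Real.cos (2 * δ)) : ℝ) : ℂ) + ((S * Real.sin (2 * δ) : ℝ) : ℂ) * I := by
    have e1 : (2 * ((x : ℂ) + δ * I)) = ((2 * x : ℝ) : ℂ) + ((2 * δ : ℝ) : ℂ) * I := by push_cast; ring
    rw [e1, Complex.cosh_add, Complex.cosh_mul_I, Complex.sinh_mul_I, ← Complex.ofReal_cosh,
      ← Complex.ofReal_sinh, ← Complex.ofReal_cos, ← Complex.ofReal_sin, hXd, hSd]
    push_cast
    ring
  rw [e, ← hXd]
  rw [← hXd, ← hSd] at hsq
  rw [← hXd] at hX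
  rw [← hSd] at hS
  have hn : ‖-((X * (1 - Real.cos (2 * δ)) : ℝ) : ℂ) + ((S * Real.sin (2 * δ) : ℝ) : ℂ) * I‖ ≤
      X * (2 * δ ^ 2) + S * (2 * |δ|) := by
    refine (norm_add_le _ _).trans (add_le_add ?_ ?_)
    · rw [norm_neg, Complex.norm_real, Real.norm_eq_abs, abs_of_nonneg (mul_nonneg (by linarith)
        (by linarith [Real.cos_le_one (2 * δ)]))]
      refine mul_le_mul_of_nonneg_left ?_ (by linarith)
      have := Real.one_sub_sq_div_two_le_cos (x := 2 * δ)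
      linarith
    · rw [norm_mul, Complex.norm_I, mul_one, Complex.norm_real, Real.norm_eq_abs, abs_mul, abs_of_nonneg hS]
      refine mul_le_mul_of_nonneg_left ?_ hS
      have := Real.abs_sin_le_abs (x := 2 * δ)
      rwa [abs_mul, abs_two] at this
  have hδ2 : δ ^ 2 ≤ (3 / 125) ^ 2 := by
    rw [← sq_abs]
    exact pow_le_pow_left₀ (abs_nonneg _) hδ 2
  have hδ0 := abs_nonneg δ
  have s1 : S ≤ X := by nlinarith
  have s2 : S ≤ 2 * r * (X - r) := by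
    have h3 : 0 < X - r := by linarith
    have h4 : 0 ≤ 2 * r * (X - r) := by
      have := r_pos
      positivity
    refine abs_le_of_sq_le_sq' ?_ h4 |>.2
    have h5 : (2 * r * (X - r)) ^ 2 = 2 * (X - r) ^ 2 := by
      rw [show (2 * r * (X - r)) ^ 2 = 4 * r ^ 2 * (X - r) ^ 2 by ring, hr2]
      ring
    rw [h5]
    nlinarith [sq_nonneg (X - 2 * r)]
  constructor
  · refine hn.trans ?_
    have k1 : X * (2 * δ ^ 2) ≤ X * (2 * (3 / 125) ^ 2) := by gcongr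
    have k2 : S * (2 * |δ|) ≤ (2 * r * (X - r)) * (2 * (3 / 125)) := by
      have h3 : 0 < X - r := by linarith
      have := r_pos
      gcongr
    have k3 : X * (1 - r) ≤ X - r := by nlinarith
    have k4 : X * (732 / 2500) ≤ X - r := by nlinarith
    have k5 : 0 < X - r := by linarith
    have k6 : (2 * r * (X - r)) * (2 * (3 / 125)) ≤ 2 * (1768 / 2500) * (X - r) * (2 * (3 / 125)) := by
      have := r_pos
      gcongr
    nlinarith
  · refine hn.trans ?_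
    have k1 : X * (2 * δ ^ 2) ≤ X * (2 * (3 / 125) ^ 2) := by gcongr
    have k2 : S * (2 * |δ|) ≤ X * (2 * (3 / 125)) := by gcongr
    nlinarith

/-- real parts of differences of reciprocals -/
lemma inv_diff_re {A : ℂ} {m ρ σ : ℝ} (hm : 0 < m) (hρ : ρ < 1) (h : ‖A - m‖ ≤ ρ * m)
    (h' : |(A - m).re| ≤ σ * m) :
    |(A⁻¹ - (m : ℂ)⁻¹).re| ≤ (σ + ρ ^ 2 / (1 - ρ)) / m ∧
      |((A ^ 2)⁻¹ - ((m : ℂ) ^ 2)⁻¹).re| ≤ ((ρ / (1 - ρ)) ^ 2 + 2 * (σ + ρ ^ 2 / (1 - ρ))) / m ^ 2 := by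
  have hmn : ‖(m : ℂ)‖ = m := by rw [Complex.norm_real, Real.norm_of_nonneg hm.le]
  have hρ1 : 0 < 1 - ρ := by linarith
  have hρ0 : 0 ≤ ρ := by
    have := (norm_nonneg _).trans h
    nlinarith
  have hA : (1 - ρ) * m ≤ ‖A‖ := by
    have h1 := norm_sub_norm_le (m : ℂ) (m - A)
    rw [hmn, sub_sub_cancel, norm_sub_rev] at h1
    nlinarith
  have hA0 : 0 < ‖A‖ := lt_of_lt_of_le (by positivity) hA
  have hAn : A ≠ 0 := norm_pos_iff.1 hA0
  have hm0 : (m : ℂ) ≠ 0 := by exact_mod_cast hm.ne'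
  have hAi : ‖A⁻¹‖ ≤ 1 / (1 - ρ) / m := by
    rw [norm_inv, div_div, one_div]
    exact inv_anti₀ (by positivity) hA
  have e1 : A⁻¹ - (m : ℂ)⁻¹ = ((-(m ^ 2)⁻¹ : ℝ) : ℂ) * (A - m) + (A - m) ^ 2 * A⁻¹ * (((m ^ 2)⁻¹ : ℝ) : ℂ) := by
    push_cast
    field_simp
    ring
  have k1 : |(A⁻¹ - (m : ℂ)⁻¹).re| ≤ (σ + ρ ^ 2 / (1 - ρ)) / m := by
    rw [e1, Complex.add_re, Complex.re_ofReal_mul]
    refine (abs_add_le _ _).trans ?_
    have b1 : |-(m ^ 2)⁻¹ * (A - m).re| ≤ σ / m := by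
      rw [abs_mul, abs_neg, abs_of_pos (by positivity : 0 < (m ^ 2)⁻¹)]
      calc (m ^ 2)⁻¹ * |(A - m).re| ≤ (m ^ 2)⁻¹ * (σ * m) := by gcongr
        _ = _ := by field_simp
    have b2 : |((A - m) ^ 2 * A⁻¹ * (((m ^ 2)⁻¹ : ℝ) : ℂ)).re| ≤ ρ ^ 2 / (1 - ρ) / m := by
      refine (Complex.abs_re_le_norm _).trans ?_
      rw [norm_mul, norm_mul, norm_pow, Complex.norm_real, Real.norm_of_nonneg (by positivity : 0 ≤ (m ^ 2)⁻¹)]
      calc ‖A - m‖ ^ 2 * ‖A⁻¹‖ * (m ^ 2)⁻¹ ≤ (ρ * m) ^ 2 * (1 / (1 - ρ) / m) * (m ^ 2)⁻¹ := by gcongr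
        _ = _ := by field_simp
    rw [add_div]
    exact add_le_add b1 b2
  refine ⟨k1, ?_⟩
  have k2 := (inv_diff hm hρ h).1
  have e2 : (A ^ 2)⁻¹ - ((m : ℂ) ^ 2)⁻¹ = (A⁻¹ - (m : ℂ)⁻¹) ^ 2 + ((2 * m⁻¹ : ℝ) : ℂ) * (A⁻¹ - (m : ℂ)⁻¹) := by
    push_cast
    rw [← inv_pow, ← inv_pow]
    ring
  rw [e2, Complex.add_re, Complex.re_ofReal_mul]
  refine (abs_add_le _ _).trans ?_
  have b1 : |((A⁻¹ - (m : ℂ)⁻¹) ^ 2).re| ≤ (ρ / (1 - ρ)) ^ 2 / m ^ 2 := by
    refine (Complex.abs_re_le_norm _).trans ?_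
    rw [norm_pow, ← div_pow]
    exact pow_le_pow_left₀ (norm_nonneg _) k2 2
  have b2 : |2 * m⁻¹ * (A⁻¹ - (m : ℂ)⁻¹).re| ≤ 2 * (σ + ρ ^ 2 / (1 - ρ)) / m ^ 2 := by
    rw [abs_mul, abs_of_pos (by positivity : 0 < 2 * m⁻¹)]
    calc 2 * m⁻¹ * |(A⁻¹ - (m : ℂ)⁻¹).re| ≤ 2 * m⁻¹ * ((σ + ρ ^ 2 / (1 - ρ)) / m) := by gcongr
      _ = _ := by field_simp
  rw [add_div]
  exact add_le_add b1 b2

lemma Fo_diff_re {X : ℝ} {C : ℂ} (hX : 1 < X) (h1 : ‖C - X‖ ≤ 9 / 125 * (X - r)) (h2 : ‖C - X‖ ≤ 1 / 20 * X)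
    (h3 : |(C - X).re| ≤ 12 / 10000 * X) :
    |(Fo C - (FoR X : ℂ)).re| ≤ 21 / 1000 * (4 / (X - 1)) := by
  have hr1 := r_lo
  have hr2 := r_sq
  have hr5 := r_hi
  have h3' : 0 < X - r := by linarith
  have h6 : 0 < X - 1 := by linarith
  have h7 : 0 < X := by linarith
  have hXr : X ≤ 3425 / 1000 * (X - r) := by nlinarith
  have a := inv_diff_re (A := C - r) h3' (ρ := 9 / 125) (σ := 411 / 100000) (by norm_num) (by
    push_cast
    rw [sub_sub_sub_cancel_right]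
    exact h1) (by
    push_cast
    rw [sub_sub_sub_cancel_right]
    refine h3.trans ?_
    linarith)
  have b := inv_diff_re (A := C) h7 (ρ := 1 / 20) (by norm_num) h2 h3
  obtain ⟨a1, a2⟩ := a
  obtain ⟨-, b2⟩ := b
  have e : Fo C - (FoR X : ℂ) = ((-(4 * r) : ℝ) : ℂ) * ((C - r)⁻¹ - ((X - r : ℝ) : ℂ)⁻¹) +
      ((2 : ℝ) : ℂ) * (((C - r) ^ 2)⁻¹ - (((X - r : ℝ) : ℂ) ^ 2)⁻¹) - ((4 : ℝ) : ℂ) * ((C ^ 2)⁻¹ - ((X : ℂ) ^ 2)⁻¹) := by
    rw [← Fo_ofReal]
    unfold Fo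
    push_cast
    simp only [div_eq_mul_inv]
    ring
  have k : |(Fo C - (FoR X : ℂ)).re| ≤ 4 * r * (97 / 10000 / (X - r)) + 2 * (255 / 10000 / (X - r) ^ 2) +
      4 * (105 / 10000 / X ^ 2) := by
    rw [e, Complex.sub_re, Complex.add_re, Complex.re_ofReal_mul, Complex.re_ofReal_mul, Complex.re_ofReal_mul]
    refine (abs_sub _ _).trans (add_le_add ((abs_add_le _ _).trans (add_le_add ?_ ?_)) ?_)
    · rw [abs_mul, abs_neg, abs_of_pos (by linarith : 0 < 4 * r)]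
      refine mul_le_mul_of_nonneg_left (a1.trans ?_) (by linarith)
      exact div_le_div_of_nonneg_right (by norm_num) h3'.le
    · rw [abs_mul, abs_two]
      refine mul_le_mul_of_nonneg_left (a2.trans ?_) (by norm_num)
      exact div_le_div_of_nonneg_right (by norm_num) (by positivity)
    · rw [abs_mul, abs_of_pos (by norm_num : (0 : ℝ) < 4)]
      refine mul_le_mul_of_nonneg_left (b2.trans ?_) (by norm_num)
      exact div_le_div_of_nonneg_right (by norm_num) (by positivity)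
  refine k.trans ?_
  have c1 : 97 / 10000 / (X - r) ≤ 97 / 10000 / (X - 1) :=
    div_le_div_of_nonneg_left (by norm_num) h6 (by linarith)
  have c2 : 255 / 10000 / (X - r) ^ 2 ≤ 255 / 10000 / (4 * (732 / 2500)) / (X - 1) := by
    rw [div_div _ (4 * (732 / 2500)) (X - 1)]
    refine div_le_div_of_nonneg_left (by norm_num) (by positivity) ?_
    nlinarith [sq_nonneg (X - 1 - (1 - r))]
  have c3 : 105 / 10000 / X ^ 2 ≤ 105 / 10000 / 4 / (X - 1) := by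
    rw [div_div _ 4 (X - 1)]
    refine div_le_div_of_nonneg_left (by norm_num) (by positivity) ?_
    nlinarith [sq_nonneg (X - 2)]
  have c4 : 4 * r * (97 / 10000 / (X - r)) ≤ 4 * (1768 / 2500) * (97 / 10000 / (X - 1)) := by
    have : 0 ≤ 97 / 10000 / (X - r) := by positivity
    have hr0 := r_pos
    gcongr
  have c5 : 4 * (1768 / 2500) * (97 / 10000 / (X - 1)) + 2 * (255 / 10000 / (4 * (732 / 2500)) / (X - 1)) +
      4 * (105 / 10000 / 4 / (X - 1)) ≤ 21 / 1000 * (4 / (X - 1)) := by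
    have e9 : 4 * (1768 / 2500) * (97 / 10000 / (X - 1)) + 2 * (255 / 10000 / (4 * (732 / 2500)) / (X - 1)) +
      4 * (105 / 10000 / 4 / (X - 1)) = (4 * (1768 / 2500) * (97 / 10000) + 2 * (255 / 10000 / (4 * (732 / 2500))) +
      4 * (105 / 10000 / 4)) / (X - 1) := by ring
    have e10 : 21 / 1000 * (4 / (X - 1)) = 84 / 1000 / (X - 1) := by ring
    rw [e9, e10]
    exact div_le_div_of_nonneg_right (by norm_num) h6.le
  linarith

lemma Fx_diff_re {X : ℝ} {C : ℂ} (hX : 1 < X) (h2 : ‖C - X‖ ≤ 1 / 20 * X)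
    (h3 : |(C - X).re| ≤ 12 / 10000 * X) :
    |(Fx C - (FxR X : ℂ)).re| ≤ 11 / 1000 * (4 / (X - 1)) := by
  have hr1 := r_lo
  have hr2 := r_sq
  have hr5 := r_hi
  have h3' : 0 < X + r := by linarith
  have h4 : 0 < X + 1 := by linarith
  have h6 : 0 < X - 1 := by linarith
  have a := inv_diff_re (A := C + r) h3' (ρ := 1 / 20) (σ := 12 / 10000) (by norm_num) (by
    push_cast
    rw [add_sub_add_right_eq_sub]
    exact h2.trans (by linarith)) (by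
    push_cast
    rw [add_sub_add_right_eq_sub]
    exact h3.trans (by linarith))
  have b := inv_diff_re (A := C + 1) h4 (ρ := 1 / 20) (σ := 12 / 10000) (by norm_num) (by
    push_cast
    rw [add_sub_add_right_eq_sub]
    exact h2.trans (by linarith)) (by
    push_cast
    rw [add_sub_add_right_eq_sub]
    exact h3.trans (by linarith))
  obtain ⟨a1, a2⟩ := a
  obtain ⟨b1, -⟩ := b
  have e : Fx C - (FxR X : ℂ) = ((8 * r : ℝ) : ℂ) * ((C + r)⁻¹ - ((X + r : ℝ) : ℂ)⁻¹) +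
      ((4 : ℝ) : ℂ) * (((C + r) ^ 2)⁻¹ - (((X + r : ℝ) : ℂ) ^ 2)⁻¹) - ((4 : ℝ) : ℂ) * ((C + 1)⁻¹ - ((X + 1 : ℝ) : ℂ)⁻¹) := by
    rw [← Fx_ofReal]
    unfold Fx
    push_cast
    simp only [div_eq_mul_inv]
    ring
  have k : |(Fx C - (FxR X : ℂ)).re| ≤ 8 * r * (39 / 10000 / (X + r)) + 4 * (105 / 10000 / (X + r) ^ 2) +
      4 * (39 / 10000 / (X + 1)) := by
    rw [e, Complex.sub_re, Complex.add_re, Complex.re_ofReal_mul, Complex.re_ofReal_mul, Complex.re_ofReal_mul]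
    refine (abs_sub _ _).trans (add_le_add ((abs_add_le _ _).trans (add_le_add ?_ ?_)) ?_)
    · rw [abs_mul, abs_of_pos (by linarith : 0 < 8 * r)]
      refine mul_le_mul_of_nonneg_left (a1.trans ?_) (by linarith)
      exact div_le_div_of_nonneg_right (by norm_num) h3'.le
    · rw [abs_mul, abs_of_pos (by norm_num : (0 : ℝ) < 4)]
      refine mul_le_mul_of_nonneg_left (a2.trans ?_) (by norm_num)
      exact div_le_div_of_nonneg_right (by norm_num) (by positivity)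
    · rw [abs_mul, abs_of_pos (by norm_num : (0 : ℝ) < 4)]
      refine mul_le_mul_of_nonneg_left (b1.trans ?_) (by norm_num)
      exact div_le_div_of_nonneg_right (by norm_num) (by positivity)
  refine k.trans ?_
  have c1 : 39 / 10000 / (X + r) ≤ 39 / 10000 / (X - 1) :=
    div_le_div_of_nonneg_left (by norm_num) h6 (by linarith)
  have c2 : 105 / 10000 / (X + r) ^ 2 ≤ 105 / 10000 / (68 / 10) / (X - 1) := by
    rw [div_div _ (68 / 10 : ℝ) (X - 1)]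
    refine div_le_div_of_nonneg_left (by norm_num) (by positivity) ?_
    nlinarith [sq_nonneg (X - 1 - (1 + r))]
  have c3 : 39 / 10000 / (X + 1) ≤ 39 / 10000 / (X - 1) :=
    div_le_div_of_nonneg_left (by norm_num) h6 (by linarith)
  have c4 : 8 * r * (39 / 10000 / (X + r)) ≤ 8 * (1768 / 2500) * (39 / 10000 / (X - 1)) := by
    have : 0 ≤ 39 / 10000 / (X + r) := by positivity
    have hr0 := r_pos
    gcongr
  have c5 : 8 * (1768 / 2500) * (39 / 10000 / (X - 1)) + 4 * (105 / 10000 / (68 / 10) / (X - 1)) +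
      4 * (39 / 10000 / (X - 1)) ≤ 11 / 1000 * (4 / (X - 1)) := by
    have e9 : 8 * (1768 / 2500) * (39 / 10000 / (X - 1)) + 4 * (105 / 10000 / (68 / 10) / (X - 1)) +
      4 * (39 / 10000 / (X - 1)) = (8 * (1768 / 2500) * (39 / 10000) + 4 * (105 / 10000 / (68 / 10)) +
      4 * (39 / 10000)) / (X - 1) := by ring
    have e10 : 11 / 1000 * (4 / (X - 1)) = 44 / 1000 / (X - 1) := by ring
    rw [e9, e10]
    exact div_le_div_of_nonneg_right (by norm_num) h6.le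
  linarith

/-- the change of `cosh 2z`, real part -/
lemma C_diff_re {x δ : ℝ} (hδ : |δ| ≤ 3 / 125) :
    |(Complex.cosh (2 * ((x : ℂ) + δ * I)) - (Real.cosh (2 * x) : ℂ)).re| ≤ 12 / 10000 * Real.cosh (2 * x) := by
  have e : (Complex.cosh (2 * ((x : ℂ) + δ * I)) - (Real.cosh (2 * x) : ℂ)).re =
      -(Real.cosh (2 * x) * (1 - Real.cos (2 * δ))) := by
    have e1 : (2 * ((x : ℂ) + δ * I)) = ((2 * x : ℝ) : ℂ) + ((2 * δ : ℝ) : ℂ) * I := by push_cast; ring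
    rw [e1, Complex.cosh_add, Complex.cosh_mul_I, Complex.sinh_mul_I, ← Complex.ofReal_cosh,
      ← Complex.ofReal_sinh, ← Complex.ofReal_cos, ← Complex.ofReal_sin, Complex.sub_re, Complex.add_re,
      Complex.re_ofReal_mul, Complex.re_ofReal_mul, Complex.ofReal_re, Complex.ofReal_re]
    have : (((Real.sin (2 * δ) : ℝ) : ℂ) * I).re = 0 := by
      rw [Complex.re_ofReal_mul, Complex.I_re, mul_zero]
    rw [this]
    ring
  have hX := Real.one_le_cosh (2 * x)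
  have h1 := Real.cos_le_one (2 * δ)
  have h2 := Real.one_sub_sq_div_two_le_cos (x := 2 * δ)
  have hδ2 : δ ^ 2 ≤ (3 / 125) ^ 2 := by
    rw [← sq_abs]
    exact pow_le_pow_left₀ (abs_nonneg _) hδ 2
  rw [e, abs_neg, abs_of_nonneg (mul_nonneg (by linarith) (by linarith)), mul_comm]
  refine mul_le_mul_of_nonneg_right ?_ (by linarith)
  norm_num at hδ2
  nlinarith

/-- the real factor of the singular part -/
def NT (a b T : ℝ) : ℝ := (1 - a * b) * (1 - T ^ 2) + 2 * T * (a + b)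

lemma S_real {a b T c : ℝ} (ha : |a| ≤ 1 / 4) (hb : |b| ≤ 1 / 4) (hc : 999 / 1000 ≤ c) (hc1 : c ≤ 1)
    (hT : |T| ≤ 13 / 50) :
    |NT a b T / ((1 + T ^ 2) ^ 2 * c) - 1| ≤ 4616 / 10000 ∧
      (|T| ≤ 1 / 10 → |NT a b T / ((1 + T ^ 2) ^ 2 * c) - 1| ≤ 1 / 5) := by
  have h1 : |a * b| ≤ 1 / 16 := by
    rw [abs_mul]
    nlinarith [abs_nonneg a, abs_nonneg b]
  have h2 : |2 * T * (a + b)| ≤ |T| := by
    rw [abs_mul, abs_mul, abs_two]
    have h3 := abs_add_le a b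
    nlinarith [abs_nonneg T]
  have h4 := abs_le.1 h1
  have h5 := abs_le.1 h2
  have h6 : T ^ 2 = |T| ^ 2 := (sq_abs T).symm
  obtain ⟨τ, hτ⟩ : ∃ τ, τ = |T| := ⟨_, rfl⟩
  have hτ0 : 0 ≤ τ := hτ ▸ abs_nonneg T
  rw [← hτ] at h6 hT h5 ⊢
  have hT1 : T ^ 2 ≤ 1 := by rw [h6]; nlinarith
  have n1 : 15 / 16 * (1 - τ ^ 2) - τ ≤ NT a b T := by
    unfold NT
    rw [h6] at hT1 ⊢
    nlinarith
  have n2 : NT a b T ≤ 17 / 16 + τ := by
    unfold NT
    rw [h6] at hT1 ⊢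
    nlinarith [sq_nonneg τ]
  rw [h6]
  have hd : 0 < (1 + τ ^ 2) ^ 2 * c := by
    have : 0 < c := by linarith
    positivity
  have hd1 : (1 + τ ^ 2) ^ 2 * c ≤ (1 + τ ^ 2) ^ 2 := mul_le_of_le_one_right (by positivity) hc1
  have hd2 : 999 / 1000 ≤ (1 + τ ^ 2) ^ 2 * c := by
    have : 1 ≤ (1 + τ ^ 2) ^ 2 := one_le_pow₀ (by nlinarith)
    nlinarith
  constructor
  · rw [abs_le]
    constructor
    · have : 5384 / 10000 ≤ NT a b T / ((1 + τ ^ 2) ^ 2 * c) := by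
        rw [le_div_iff₀ hd]
        have k1 : τ ^ 2 ≤ (13 / 50) ^ 2 := pow_le_pow_left₀ hτ0 hT 2
        have k2 : (1 + τ ^ 2) ^ 2 ≤ (1 + (13 / 50) ^ 2) ^ 2 := pow_le_pow_left₀ (by positivity) (by linarith) 2
        have k3 : 5384 / 10000 * ((1 + τ ^ 2) ^ 2 * c) ≤ 5384 / 10000 * (1 + (13 / 50) ^ 2) ^ 2 := by linarith
        refine k3.trans (le_trans ?_ n1)
        norm_num at k1 ⊢
        linarith
      linarith
    · have : NT a b T / ((1 + τ ^ 2) ^ 2 * c) ≤ 14616 / 10000 := by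
        rw [div_le_iff₀ hd]
        nlinarith
      linarith
  · intro hT'
    rw [abs_le]
    constructor
    · have : 4 / 5 ≤ NT a b T / ((1 + τ ^ 2) ^ 2 * c) := by
        rw [le_div_iff₀ hd]
        have k1 : τ ^ 2 ≤ 1 / 10 * τ := by nlinarith
        have k2 : τ ^ 4 ≤ (1 / 10) ^ 3 * τ := by
          have : τ ^ 3 ≤ (1 / 10) ^ 3 := pow_le_pow_left₀ hτ0 hT' 3
          calc τ ^ 4 = τ ^ 3 * τ := by ring
            _ ≤ _ := by gcongr
        nlinarith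
      linarith
    · have : NT a b T / ((1 + τ ^ 2) ^ 2 * c) ≤ 6 / 5 := by
        rw [div_le_iff₀ hd]
        nlinarith
      linarith

/-- the slopes -/
def sf (a b : ℝ) : ℂ := (1 + a * I) * (1 + b * I)

lemma sf_re (a b : ℝ) : (sf a b).re = 1 - a * b := by
  simp [sf]

lemma sf_im (a b : ℝ) : (sf a b).im = a + b := by
  simp [sf, add_comm]

lemma sf_norm {a b : ℝ} (ha : |a| ≤ 1 / 4) (hb : |b| ≤ 1 / 4) : ‖sf a b‖ ≤ 17 / 16 := by
  have h : ∀ u : ℝ, |u| ≤ 1 / 4 → ‖(1 : ℂ) + u * I‖ ^ 2 ≤ 17 / 16 := by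
    intro u hu
    rw [← Complex.normSq_eq_norm_sq, Complex.normSq_apply]
    simp only [add_re, one_re, mul_re, ofReal_re, I_re, mul_zero, ofReal_im, I_im, mul_one, sub_self, add_zero,
      add_im, one_im, mul_im, zero_add]
    have := abs_le.1 hu
    nlinarith
  have h1 := h a ha
  have h2 := h b hb
  unfold sf
  rw [norm_mul]
  nlinarith [sq_nonneg (‖(1 : ℂ) + a * I‖ - ‖(1 : ℂ) + b * I‖)]

lemma S_cx {x δ a b : ℝ} (hx : 0 < x) (hc : 0 < Real.cos δ) :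
    (4 / (Complex.cosh (2 * ((x : ℂ) + δ * I)) - 1) * sf a b).re = 4 / (Real.cosh (2 * x) - 1) *
      (NT a b (Real.cosh x * Real.sin δ / (Real.sinh x * Real.cos δ)) /
        ((1 + (Real.cosh x * Real.sin δ / (Real.sinh x * Real.cos δ)) ^ 2) ^ 2 * Real.cos δ ^ 2)) := by
  have hs : 0 < Real.sinh x := Real.sinh_pos_iff.2 hx
  obtain ⟨T, hT⟩ : ∃ T, T = Real.cosh x * Real.sin δ / (Real.sinh x * Real.cos δ) := ⟨_, rfl⟩
  rw [← hT]
  have hT' : T * (Real.sinh x * Real.cos δ) = Real.cosh x * Real.sin δ := by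
    rw [hT]
    field_simp
  have e1 : Complex.sinh ((x : ℂ) + δ * I) = ((Real.sinh x * Real.cos δ : ℝ) : ℂ) * (1 + T * I) := by
    rw [Complex.sinh_add, Complex.cosh_mul_I, Complex.sinh_mul_I, ← Complex.ofReal_cosh, ← Complex.ofReal_sinh,
      ← Complex.ofReal_cos, ← Complex.ofReal_sin]
    have : ((T : ℂ)) * (Real.sinh x * Real.cos δ) = Real.cosh x * Real.sin δ := by exact_mod_cast hT'
    push_cast at this ⊢
    linear_combination -I * this
  have e2 : Complex.cosh (2 * ((x : ℂ) + δ * I)) - 1 = 2 * Complex.sinh ((x : ℂ) + δ * I) ^ 2 := by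
    rw [Complex.cosh_two_mul]
    have := Complex.cosh_sq_sub_sinh_sq ((x : ℂ) + δ * I)
    linear_combination this
  have e3 : Real.cosh (2 * x) - 1 = 2 * Real.sinh x ^ 2 := by
    rw [Real.cosh_two_mul]
    have := Real.cosh_sq_sub_sinh_sq x
    linear_combination this
  have hTn : (1 : ℂ) + T * I ≠ 0 := by
    intro h
    have := congrArg Complex.re h
    simp at this
  have hTn' : (1 : ℂ) - T * I ≠ 0 := by
    intro h
    have := congrArg Complex.re h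
    simp at this
  have hs' : ((Real.sinh x : ℝ) : ℂ) ≠ 0 := by exact_mod_cast hs.ne'
  have hc' : ((Real.cos δ : ℝ) : ℂ) ≠ 0 := by exact_mod_cast hc.ne'
  have hTT : ((1 + T ^ 2 : ℝ) : ℂ) = (1 + T * I) * (1 - T * I) := by
    push_cast
    linear_combination (T : ℂ) ^ 2 * Complex.I_sq
  have hTT0 : ((1 + T ^ 2 : ℝ) : ℂ) ≠ 0 := by
    have : (0 : ℝ) < 1 + T ^ 2 := by positivity
    exact_mod_cast this.ne'
  have e4 : 4 / (Complex.cosh (2 * ((x : ℂ) + δ * I)) - 1) * sf a b =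
      ((4 / (Real.cosh (2 * x) - 1) / ((1 + T ^ 2) ^ 2 * Real.cos δ ^ 2) : ℝ) : ℂ) *
        (sf a b * (1 - T * I) ^ 2) := by
    have k1 : ((4 / (Real.cosh (2 * x) - 1) / ((1 + T ^ 2) ^ 2 * Real.cos δ ^ 2) : ℝ) : ℂ) =
        4 / (2 * ((Real.sinh x : ℝ) : ℂ) ^ 2) / (((1 + T * I) * (1 - T * I)) ^ 2 * ((Real.cos δ : ℝ) : ℂ) ^ 2) := by
      rw [e3, ← hTT]
      push_cast
      ring
    rw [k1, e2, e1, Complex.ofReal_mul]
    field_simp
  rw [e4, Complex.re_ofReal_mul]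
  have e5 : (sf a b * (1 - T * I) ^ 2).re = NT a b T := by
    have : (1 - (T : ℂ) * I) ^ 2 = ((1 - T ^ 2 : ℝ) : ℂ) + ((-(2 * T) : ℝ) : ℂ) * I := by
      push_cast
      linear_combination (T : ℂ) ^ 2 * Complex.I_sq
    rw [this, Complex.mul_re, sf_re, sf_im]
    simp only [add_re, ofReal_re, mul_re, I_re, mul_zero, ofReal_im, I_im, mul_one, sub_self, add_zero, add_im,
      mul_im, zero_add]
    unfold NT
    ring
  rw [e5]
  ring

/-- **the pointwise bound** -/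
theorem pw_bd {x δ a b : ℝ} (hx : 0 < x) (hδ : |δ| ≤ 3 / 125) (hδx : |δ| ≤ x / 4) (ha : |a| ≤ 1 / 4)
    (hb : |b| ≤ 1 / 4) :
    |((4 / (Complex.cosh (2 * ((x : ℂ) + δ * I)) - 1) + Fo (Complex.cosh (2 * ((x : ℂ) + δ * I)))) * sf a b).re -
        (4 / (Real.cosh (2 * x) - 1) + FoR (Real.cosh (2 * x)))| +
      |(Fx (Complex.cosh (2 * ((x : ℂ) + δ * I))) * sf a b).re - FxR (Real.cosh (2 * x))| ≤
        3 / 4 * PV (Real.cosh (2 * x)) := by
  have hX : 1 < Real.cosh (2 * x) := Real.one_lt_cosh.2 (by positivity)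
  obtain ⟨c1, c2⟩ := C_diff hx.le hδ
  have c3 := C_diff_re (x := x) hδ
  obtain ⟨X, hXd⟩ : ∃ X, X = Real.cosh (2 * x) := ⟨_, rfl⟩
  obtain ⟨C, hCd⟩ : ∃ C, C = Complex.cosh (2 * ((x : ℂ) + δ * I)) := ⟨_, rfl⟩
  have hδ0 := abs_nonneg δ
  have hδ2 : δ ^ 2 ≤ (3 / 125) ^ 2 := by
    rw [← sq_abs]
    exact pow_le_pow_left₀ (abs_nonneg _) hδ 2
  have hcos : 9997 / 10000 ≤ Real.cos δ := by
    have := Real.one_sub_sq_div_two_le_cos (x := δ)
    nlinarith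
  have hcos0 : 0 < Real.cos δ := by linarith
  have hcos1 := Real.cos_le_one δ
  have hS := S_cx (a := a) (b := b) hx hcos0
  obtain ⟨T, hT⟩ : ∃ T, T = Real.cosh x * Real.sin δ / (Real.sinh x * Real.cos δ) := ⟨_, rfl⟩
  rw [← hT] at hS
  rw [← hCd, ← hXd] at c1 c2 c3 hS ⊢
  rw [← hXd] at hX
  have h6 : 0 < X - 1 := by linarith
  have hs0 : 0 < 4 / (X - 1) := by positivity
  -- smooth parts
  have d1 := Fo_diff hX c1 c2
  have d2 := Fx_diff hX c2
  have d3 := Fo_diff_re hX c1 c2 c3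
  have d4 := Fx_diff_re hX c2 c3
  have g1 := FoR_abs hX
  have g2 := FxR_le hX
  have g3 := FxR_nonneg hX
  have hab : |a * b| ≤ 1 / 16 := by
    rw [abs_mul]
    nlinarith [abs_nonneg a, abs_nonneg b]
  have hab2 : |a + b| ≤ 1 / 2 := (abs_add_le a b).trans (by linarith)
  have sm : ∀ (F : ℂ) (G : ℝ), |(F * sf a b).re - G| ≤ 17 / 16 * |(F - (G : ℂ)).re| + 1 / 2 * ‖F - (G : ℂ)‖ +
      1 / 16 * |G| := by
    intro F G
    have e : (F * sf a b).re - G = (1 - a * b) * (F - (G : ℂ)).re - (a + b) * (F - (G : ℂ)).im - a * b * G := by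
      rw [Complex.mul_re, sf_re, sf_im, Complex.sub_re, Complex.sub_im, Complex.ofReal_re, Complex.ofReal_im]
      ring
    rw [e]
    have h1 : |1 - a * b| ≤ 17 / 16 := by
      have := abs_le.1 hab
      rw [abs_le]
      constructor <;> linarith
    refine (abs_sub _ _).trans (add_le_add ((abs_sub _ _).trans (add_le_add ?_ ?_)) ?_)
    · rw [abs_mul]
      gcongr
    · rw [abs_mul]
      have h2 := Complex.abs_im_le_norm (F - (G : ℂ))
      gcongr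
    · rw [abs_mul]
      gcongr
  have s1 := sm (Fo C) (FoR X)
  have s2 := sm (Fx C) (FxR X)
  rw [abs_of_nonneg g3] at s2
  -- singular part
  have hsx : 0 < Real.sinh x := Real.sinh_pos_iff.2 hx
  have hxs : x ≤ Real.sinh x := Real.self_le_sinh_iff.2 hx.le
  have hc99 : 999 / 1000 ≤ Real.cos δ ^ 2 := by nlinarith
  have hc1 : Real.cos δ ^ 2 ≤ 1 := by nlinarith
  have hsin : |Real.sin δ| ≤ |δ| := Real.abs_sin_le_abs
  have hTabs : |T| = Real.cosh x * |Real.sin δ| / (Real.sinh x * Real.cos δ) := by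
    rw [hT, abs_div, abs_mul, abs_of_pos (Real.cosh_pos x), abs_of_pos (by positivity : 0 <
      Real.sinh x * Real.cos δ)]
  have sing : ∀ τ : ℝ, |NT a b T / ((1 + T ^ 2) ^ 2 * Real.cos δ ^ 2) - 1| ≤ τ →
      |(4 / (C - 1) * sf a b).re - 4 / (X - 1)| ≤ τ * (4 / (X - 1)) := by
    intro τ hτ
    rw [hS]
    have e : 4 / (X - 1) * (NT a b T / ((1 + T ^ 2) ^ 2 * Real.cos δ ^ 2)) - 4 / (X - 1) =
        (NT a b T / ((1 + T ^ 2) ^ 2 * Real.cos δ ^ 2) - 1) * (4 / (X - 1)) := by ring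
    rw [e, abs_mul, abs_of_pos hs0]
    gcongr
  have tot : ∀ τ : ℝ, |NT a b T / ((1 + T ^ 2) ^ 2 * Real.cos δ ^ 2) - 1| ≤ τ →
      |((4 / (C - 1) + Fo C) * sf a b).re - (4 / (X - 1) + FoR X)| + |(Fx C * sf a b).re - FxR X| ≤
        (τ + 2828 / 10000) * (4 / (X - 1)) := by
    intro τ hτ
    have h1 := sing τ hτ
    have e : ((4 / (C - 1) + Fo C) * sf a b).re - (4 / (X - 1) + FoR X) =
        ((4 / (C - 1) * sf a b).re - 4 / (X - 1)) + ((Fo C * sf a b).re - FoR X) := by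
      rw [add_mul, Complex.add_re]
      ring
    have h2 := abs_add_le ((4 / (C - 1) * sf a b).re - 4 / (X - 1)) ((Fo C * sf a b).re - FoR X)
    rw [e]
    nlinarith
  rcases le_total x (1 / 4) with h4 | h4
  · have hch : Real.cosh x ≤ 32 / 31 := by
      refine (Real.cosh_le_exp_half_sq x).trans ?_
      have h5 : x ^ 2 / 2 ≤ 1 / 32 := by nlinarith
      refine (Real.exp_le_exp.2 h5).trans ?_
      have h6 := Real.add_one_le_exp (-(1 / 32 : ℝ))
      rw [Real.exp_neg] at h6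
      have h7 := Real.exp_pos (1 / 32 : ℝ)
      have h8 : (31 / 32 : ℝ) ≤ (Real.exp (1 / 32))⁻¹ := by linarith
      rw [le_inv_comm₀ (by norm_num) h7] at h8
      norm_num at h8 ⊢
      exact h8
    have hX8 : X ≤ 8 / 7 := by
      rw [hXd]
      refine (Real.cosh_le_exp_half_sq (2 * x)).trans ?_
      have h5 : (2 * x) ^ 2 / 2 ≤ 1 / 8 := by nlinarith
      refine (Real.exp_le_exp.2 h5).trans ?_
      have h6 := Real.add_one_le_exp (-(1 / 8 : ℝ))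
      rw [Real.exp_neg] at h6
      have h7 := Real.exp_pos (1 / 8 : ℝ)
      have h8 : (7 / 8 : ℝ) ≤ (Real.exp (1 / 8))⁻¹ := by linarith
      rw [le_inv_comm₀ (by norm_num) h7] at h8
      norm_num at h8 ⊢
      exact h8
    have hTb : |T| ≤ 13 / 50 := by
      rw [hTabs, div_le_iff₀ (by positivity)]
      have k1 : Real.cosh x * |Real.sin δ| ≤ 32 / 31 * (x / 4) :=
        mul_le_mul hch (hsin.trans hδx) (abs_nonneg _) (by norm_num)
      have k2 : x * (9997 / 10000) ≤ Real.sinh x * Real.cos δ := mul_le_mul hxs hcos (by norm_num) hsx.le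
      linarith
    have h1 := tot _ (S_real ha hb hc99 hc1 hTb).1
    have h2 := PV_ge1 hX hX8
    have h3 : (4616 / 10000 + 2828 / 10000) * (4 / (X - 1)) ≤ 3 / 4 * (4 / (X - 1)) := by
      gcongr
      norm_num
    linarith
  · have hTb : |T| ≤ 1 / 10 := by
      rw [hTabs, div_le_iff₀ (by positivity)]
      have k0 : Real.cosh x ≤ 4124 / 1000 * Real.sinh x := by
        refine abs_le_of_sq_le_sq' ?_ (by positivity) |>.2
        rw [Real.cosh_sq]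
        nlinarith
      have k1 : Real.cosh x * |Real.sin δ| ≤ (4124 / 1000 * Real.sinh x) * (3 / 125) :=
        mul_le_mul k0 (hsin.trans hδ) (abs_nonneg _) (by positivity)
      have k2 : Real.sinh x * (9997 / 10000) ≤ Real.sinh x * Real.cos δ :=
        mul_le_mul_of_nonneg_left hcos hsx.le
      linarith
    have h1 := tot _ ((S_real ha hb hc99 hc1 (hTb.trans (by norm_num))).2 hTb)
    have h2 := PV_ge hX
    have h3 : (1 / 5 + 2828 / 10000) * (4 / (X - 1)) ≤ 3 / 4 * (7 / 10 * (4 / (X - 1))) := by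
      have e : 3 / 4 * (7 / 10 * (4 / (X - 1))) = 525 / 1000 * (4 / (X - 1)) := by ring
      rw [e]
      gcongr
      norm_num
    linarith

lemma PV_pos {X : ℝ} (hX : 1 < X) : 0 < PV X := by
  have h := PV_ge hX
  have : 0 < 4 / (X - 1) := by
    have : 0 < X - 1 := by linarith
    positivity
  linarith

end

end PLT.KF
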