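import Pool.Agent.NUAct.PhiQ

/-!
# THETA, row B: pair kernels on a static curve (helper69)

`Uc_incr_w`, `Ud_incr_w`: increments of the pair potential and of its derivative around a point `w` of the half strip.
`SCg e e1`: a static curve `gcG e t = t + e t * I`, `e` with a decaying slope. `ker_static`: the pair kernel of the static curve against
the convolution kernel. `ker_disp`: the pair kernel of a displaced curve against the one of the static curve.
-/

set_option autoImplicit false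

open MeasureTheory Set Filter Topology Complex

namespace PLT

open NUMF NUAct

noncomputable section

lemma l_num : (1 : ℝ) / 20 < l / 4 ∧ l / 4 + 1 / 20 + l / 9 ≤ l / 2 ∧ l < 2 / 5 ∧ 9 / l ≤ 24 := by
  have h1 := Real.pi_gt_d2
  have h2 := Real.pi_lt_d2
  have h3 : l = Real.pi / 8 := rfl
  refine ⟨by rw [h3]; linarith, by rw [h3]; linarith, by rw [h3]; linarith, ?_⟩
  rw [div_le_iff₀ l_pos, h3]
  linarith

/-- the half strip of `Uc` -/
def Hs : Set ℂ := {z : ℂ | 0 < z.re ∧ |z.im| < l}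

lemma Hs_open : IsOpen Hs :=
  (isOpen_lt continuous_const Complex.continuous_re).inter
    (isOpen_lt (continuous_abs.comp Complex.continuous_im) continuous_const)

lemma Uc_diffOn : DifferentiableOn ℂ Uc Hs := fun _ hz =>
  (hasDerivAt_Uc hz.1 hz.2).differentiableAt.differentiableWithinAt

lemma Ud_diffOn : DifferentiableOn ℂ Ud Hs := by
  refine (Uc_diffOn.deriv Hs_open).congr fun z hz => ?_
  exact (hasDerivAt_Uc hz.1 hz.2).deriv.symm

lemma Ud_diffAt {z : ℂ} (h0 : 0 < z.re) (h : |z.im| < l) : DifferentiableAt ℂ Ud z :=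
  Ud_diffOn.differentiableAt (Hs_open.mem_nhds ⟨h0, h⟩)

/-- increments of `Uc` around a point of the strip -/
theorem Uc_incr_w : ∃ K : ℝ, 0 < K ∧ ∀ w Δ : ℂ, 0 < w.re → |w.im| ≤ l / 4 → ‖Δ‖ ≤ w.re / 2 → ‖Δ‖ ≤ 1 / 20 →
    ‖Uc (w + Δ) - Uc w‖ ≤ K * (1 + 1 / w.re) * Real.exp (-w.re) * ‖Δ‖ ∧
    ‖Ud (w + Δ)‖ ≤ K * (1 + 1 / w.re) * Real.exp (-w.re) := by
  obtain ⟨K, hK, H⟩ := Ud_dec
  have hl := l_pos
  have hn := l_num
  refine ⟨2 * K, by positivity, fun w Δ hx hw h1 h2 => ?_⟩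
  obtain ⟨x, hxd⟩ : ∃ x, x = w.re := ⟨_, rfl⟩
  rw [← hxd] at hx h1 ⊢
  have hbd : ∀ v : ℂ, x / 2 ≤ v.re → |v.im| ≤ l / 2 →
      ‖Ud v‖ ≤ 2 * K * (1 + 1 / x) * Real.exp (-x) := by
    intro v hv hv'
    have hv0 : 0 < v.re := by linarith
    have h3 := H v hv0 hv'
    have h4 : 1 / v.re ≤ 2 / x := by
      rw [div_le_div_iff₀ hv0 hx]
      linarith
    have h5 : Real.exp (-2 * v.re) ≤ Real.exp (-x) := Real.exp_le_exp.2 (by linarith)
    have hxx : 0 < 1 / x := by positivity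
    calc ‖Ud v‖ ≤ K * (1 + 1 / v.re) * Real.exp (-2 * v.re) := h3
      _ ≤ K * (1 + 2 / x) * Real.exp (-x) := by gcongr
      _ ≤ K * (2 * (1 + 1 / x)) * Real.exp (-x) := by
          have : 1 + 2 / x ≤ 2 * (1 + 1 / x) := by
            have : 2 / x = 2 * (1 / x) := by ring
            linarith
          gcongr
      _ = _ := by ring
  have hre : ∀ v : ℂ, ‖v‖ ≤ ‖Δ‖ → x / 2 ≤ (w + v).re ∧ |(w + v).im| ≤ l / 2 := by
    intro v hv
    have a1 := Complex.abs_re_le_norm v
    have a2 := Complex.abs_im_le_norm v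
    have a3 := neg_abs_le v.re
    constructor
    · rw [Complex.add_re, ← hxd]
      linarith
    · rw [Complex.add_im]
      refine (abs_add_le _ _).trans ?_
      linarith
  constructor
  · have h := Convex.norm_image_sub_le_of_norm_hasDerivWithin_le (f := Uc) (f' := Ud)
      (C := 2 * K * (1 + 1 / x) * Real.exp (-x)) (s := {v : ℂ | x / 2 ≤ v.re ∧ |v.im| ≤ l / 2})
      (x := w) (y := w + Δ)
      (fun v hv => (hasDerivAt_Uc (by linarith [hv.1]) (lt_of_le_of_lt hv.2 (by linarith))).hasDerivWithinAt)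
      (fun v hv => hbd v hv.1 hv.2)
      (convex_HSt' (l / 2) (x / 2))
      (by
        have := hre 0 (by simp)
        simpa using this)
      (hre Δ le_rfl)
    rwa [add_sub_cancel_left] at h
  · exact hbd _ (hre Δ le_rfl).1 (hre Δ le_rfl).2

/-- the derivative of `Ud` -/
lemma Udd_dec : ∃ K : ℝ, 0 < K ∧ ∀ (x : ℝ) (v : ℂ), 0 < x → x / 2 ≤ v.re → |v.im| ≤ l / 4 + 1 / 20 →
    ‖deriv Ud v‖ ≤ K * (1 + 1 / x) ^ 2 * Real.exp (-x) := by
  obtain ⟨K, hK, H⟩ := Ud_dec
  have hl := l_pos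
  have hn := l_num
  refine ⟨192 * K, by positivity, fun x v hx hv hv' => ?_⟩
  obtain ⟨ρ, hρ⟩ : ∃ ρ, ρ = 1 / (4 / x + 9 / l) := ⟨_, rfl⟩
  have hx4 : 0 < 4 / x := by positivity
  have hl9 : 0 < 9 / l := by positivity
  have hρ0 : 0 < ρ := by rw [hρ]; positivity
  have hρx : ρ ≤ x / 4 := by
    rw [hρ, div_le_iff₀ (by positivity)]
    have : x / 4 * (4 / x + 9 / l) = 1 + x / 4 * (9 / l) := by
      field_simp
    rw [this]
    have : 0 ≤ x / 4 * (9 / l) := by positivity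
    linarith
  have hρl : ρ ≤ l / 9 := by
    rw [hρ, div_le_iff₀ (by positivity)]
    have : l / 9 * (4 / x + 9 / l) = l / 9 * (4 / x) + 1 := by
      field_simp
    rw [this]
    have : 0 ≤ l / 9 * (4 / x) := by positivity
    linarith
  have hin : ∀ z : ℂ, ‖z - v‖ ≤ ρ → x / 4 ≤ z.re ∧ x - 2 * ρ ≤ 2 * z.re ∧ |z.im| ≤ l / 2 := by
    intro z hz
    have a1 := (Complex.abs_re_le_norm (z - v)).trans hz
    have a2 := (Complex.abs_im_le_norm (z - v)).trans hz
    rw [Complex.sub_re, abs_le] at a1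
    rw [Complex.sub_im, abs_le] at a2
    rw [abs_le] at hv'
    refine ⟨by linarith, by linarith, ?_⟩
    rw [abs_le]
    constructor <;> linarith [hn.2.1]
  have hsub : Metric.closedBall v ρ ⊆ Hs := by
    intro z hz
    rw [Metric.mem_closedBall, dist_eq_norm] at hz
    obtain ⟨b1, -, b3⟩ := hin z hz
    exact ⟨by linarith, lt_of_le_of_lt b3 (by linarith)⟩
  have hd : DiffContOnCl ℂ Ud (Metric.ball v ρ) :=
    (Ud_diffOn.mono hsub).diffContOnCl_ball Subset.rfl
  have hC : ∀ z ∈ Metric.sphere v ρ, ‖Ud z‖ ≤ 8 * K * (1 + 1 / x) * Real.exp (-x) := by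
    intro z hz
    rw [mem_sphere_iff_norm] at hz
    obtain ⟨b1, b2, b3⟩ := hin z hz.le
    have hz0 : 0 < z.re := by linarith
    have h3 := H z hz0 b3
    have h4 : 1 / z.re ≤ 4 / x := by
      rw [div_le_div_iff₀ hz0 hx]
      linarith
    have h5 : Real.exp (-2 * z.re) ≤ 2 * Real.exp (-x) := by
      have e1 : Real.exp (-2 * z.re) ≤ Real.exp (2 / 15 * 1 + -x) := Real.exp_le_exp.2 (by linarith)
      have e2 : Real.exp (2 / 15 * 1) ≤ 2 := by
        have := Real.exp_one_lt_d9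
        have h6 : Real.exp (2 / 15 * 1) ≤ Real.exp (1 / 2) := Real.exp_le_exp.2 (by norm_num)
        have h7 : Real.exp (1 / 2) ^ 2 = Real.exp 1 := by
          rw [← Real.exp_nat_mul]
          norm_num
        have h8 := Real.exp_pos (1 / 2)
        nlinarith
      rw [Real.exp_add] at e1
      have := Real.exp_pos (-x)
      nlinarith
    have hxx : 0 < 1 / x := by positivity
    calc ‖Ud z‖ ≤ K * (1 + 1 / z.re) * Real.exp (-2 * z.re) := h3
      _ ≤ K * (1 + 4 / x) * (2 * Real.exp (-x)) := by gcongr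
      _ ≤ K * (4 * (1 + 1 / x)) * (2 * Real.exp (-x)) := by
          have : 1 + 4 / x ≤ 4 * (1 + 1 / x) := by
            have : 4 / x = 4 * (1 / x) := by ring
            linarith
          gcongr
      _ = _ := by ring
  have h := Complex.norm_deriv_le_of_forall_mem_sphere_norm_le hρ0 hd hC
  refine h.trans ?_
  have e : 8 * K * (1 + 1 / x) * Real.exp (-x) / ρ = 8 * K * (1 + 1 / x) * Real.exp (-x) * (4 / x + 9 / l) := by
    rw [hρ, div_div_eq_mul_div, div_one]
  rw [e]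
  have h6 : 4 / x + 9 / l ≤ 24 * (1 + 1 / x) := by
    have e1 : 4 / x = 4 * (1 / x) := by ring
    have e2 : 0 < 1 / x := by positivity
    rw [e1]
    linarith [hn.2.2.2]
  have hE := Real.exp_pos (-x)
  have hxx : 0 < 1 / x := by positivity
  calc 8 * K * (1 + 1 / x) * Real.exp (-x) * (4 / x + 9 / l) ≤
      8 * K * (1 + 1 / x) * Real.exp (-x) * (24 * (1 + 1 / x)) := by gcongr
    _ = _ := by ring

/-- increments of `Ud` around a point of the strip -/
theorem Ud_incr_w : ∃ K : ℝ, 0 < K ∧ ∀ w Δ : ℂ, 0 < w.re → |w.im| ≤ l / 4 → ‖Δ‖ ≤ w.re / 2 → ‖Δ‖ ≤ 1 / 20 →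
    ‖Ud (w + Δ) - Ud w‖ ≤ K * (1 + 1 / w.re) ^ 2 * Real.exp (-w.re) * ‖Δ‖ := by
  obtain ⟨K, hK, H⟩ := Udd_dec
  have hl := l_pos
  have hn := l_num
  refine ⟨K, hK, fun w Δ hx hw h1 h2 => ?_⟩
  obtain ⟨x, hxd⟩ : ∃ x, x = w.re := ⟨_, rfl⟩
  rw [← hxd] at hx h1 ⊢
  have hre : ∀ v : ℂ, ‖v‖ ≤ ‖Δ‖ → x / 2 ≤ (w + v).re ∧ |(w + v).im| ≤ l / 4 + 1 / 20 := by
    intro v hv
    have a1 := Complex.abs_re_le_norm v
    have a2 := Complex.abs_im_le_norm v
    have a3 := neg_abs_le v.re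
    constructor
    · rw [Complex.add_re, ← hxd]
      linarith
    · rw [Complex.add_im]
      refine (abs_add_le _ _).trans ?_
      linarith
  have h := Convex.norm_image_sub_le_of_norm_hasDerivWithin_le (f := Ud) (f' := deriv Ud)
    (C := K * (1 + 1 / x) ^ 2 * Real.exp (-x)) (s := {v : ℂ | x / 2 ≤ v.re ∧ |v.im| ≤ l / 4 + 1 / 20})
    (x := w) (y := w + Δ)
    (fun v hv => (Ud_diffAt (by linarith [hv.1])
      (lt_of_le_of_lt hv.2 (by linarith))).hasDerivAt.hasDerivWithinAt)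
    (fun v hv => H x v hx hv.1 hv.2)
    (convex_HSt' (l / 4 + 1 / 20) (x / 2))
    (by
      have := hre 0 (by simp)
      simpa using this)
    (hre Δ le_rfl)
  rwa [add_sub_cancel_left] at h

/-! ### the static curve -/

/-- the static curve with the heights `e` -/
def gcG (e : ℝ → ℝ) (t : ℝ) : ℂ := (t : ℂ) + (e t : ℂ) * I

/-- heights `e` with slopes `e1` and bound `C` -/
structure SCg (C : ℝ) (e e1 : ℝ → ℝ) : Prop where
  C0 : 0 ≤ C
  der : ∀ t, HasDerivAt e (e1 t) t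
  le : ∀ t, |e t| ≤ l / 8
  sl : ∀ t, |e1 t| ≤ 1 / 4
  dec1 : ∀ t, |e1 t| ≤ C * Real.exp (-|t|)

variable {C : ℝ} {e e1 : ℝ → ℝ}

lemma gcG_sub (e : ℝ → ℝ) (t y : ℝ) : gcG e t - gcG e y = ((t - y : ℝ) : ℂ) + ((e t - e y : ℝ) : ℂ) * I := by
  unfold gcG
  push_cast
  ring

lemma gcG_sub_re (e : ℝ → ℝ) (t y : ℝ) : (gcG e t - gcG e y).re = t - y := by
  rw [gcG_sub]
  simp

lemma gcG_sub_im (e : ℝ → ℝ) (t y : ℝ) : (gcG e t - gcG e y).im = e t - e y := by
  rw [gcG_sub]
  simp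

/-- increments from a bound of the slope -/
lemma incr_of {f f1 : ℝ → ℝ} (hd : ∀ t, HasDerivAt f (f1 t) t) {B y t : ℝ} (hyt : y ≤ t)
    (hB : ∀ u, y ≤ u → u ≤ t → |f1 u| ≤ B) : |f t - f y| ≤ B * (t - y) := by
  have h := Convex.norm_image_sub_le_of_norm_hasDerivWithin_le (f := f) (f' := f1) (C := B)
    (s := Icc y t) (x := y) (y := t) (fun u _ => (hd u).hasDerivWithinAt)
    (fun u hu => by
      rw [Real.norm_eq_abs]
      exact hB u hu.1 hu.2)
    (convex_Icc y t) ⟨le_rfl, hyt⟩ ⟨hyt, le_rfl⟩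
  rw [Real.norm_eq_abs, Real.norm_eq_abs, abs_of_nonneg (by linarith : 0 ≤ t - y)] at h
  exact h

lemma SCg.lip (h : SCg C e e1) {t y : ℝ} (hyt : y ≤ t) : |e t - e y| ≤ 1 / 4 * (t - y) :=
  incr_of h.der hyt fun u _ _ => h.sl u

lemma SCg.lip_abs (h : SCg C e e1) (t y : ℝ) : |e t - e y| ≤ 1 / 4 * |t - y| := by
  rcases le_total y t with h1 | h1
  · rw [abs_of_nonneg (by linarith : 0 ≤ t - y)]
    exact h.lip h1
  · rw [abs_sub_comm, abs_sub_comm t y, abs_of_nonneg (by linarith : 0 ≤ y - t)]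
    exact h.lip h1

lemma SCg.osc (h : SCg C e e1) (t y : ℝ) : |e t - e y| ≤ l / 4 := by
  have h1 := h.le t
  have h2 := h.le y
  have h3 := abs_sub (e t) (e y)
  linarith

/-- increments to the right of `0` -/
lemma SCg.incr_r (h : SCg C e e1) {t y : ℝ} (hy : 0 ≤ y) (hyt : y ≤ t) :
    |e t - e y| ≤ C * Real.exp (-|y|) := by
  have hC := h.C0
  have hd : ∀ u : ℝ, HasDerivAt (fun u : ℝ => -(C * Real.exp (-u))) (C * Real.exp (-u)) u := by
    intro u
    have h0 : HasDerivAt (fun u : ℝ => -u) (-1) u := hasDerivAt_neg u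
    have h1 : HasDerivAt (fun u : ℝ => -(C * Real.exp (-u))) (-(C * (Real.exp (-u) * -1))) u :=
      ((h0.exp).const_mul C).neg
    refine h1.congr_deriv ?_
    ring
  have key : ∀ f f1 : ℝ → ℝ, (∀ u, HasDerivAt f (f1 u) u) → (∀ u, |f1 u| ≤ C * Real.exp (-|u|)) →
      f t - f y ≤ C * Real.exp (-|y|) := by
    intro f f1 hf hf1
    have hm : MonotoneOn (fun u : ℝ => -(C * Real.exp (-u)) - f u) (Icc y t) := by
      refine monotoneOn_of_deriv_nonneg (convex_Icc _ _)
        (fun u _ => ((hd u).sub (hf u)).continuousAt.continuousWithinAt)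
        (fun u _ => ((hd u).sub (hf u)).differentiableAt.differentiableWithinAt) fun u hu => ?_
      rw [interior_Icc] at hu
      have hs : HasDerivAt (fun u : ℝ => -(C * Real.exp (-u)) - f u) (C * Real.exp (-u) - f1 u) u :=
        (hd u).sub (hf u)
      rw [hs.deriv]
      have h2 := (le_abs_self _).trans (hf1 u)
      rw [abs_of_nonneg (by linarith [hu.1] : 0 ≤ u)] at h2
      linarith
    have h3 := hm ⟨le_rfl, hyt⟩ ⟨hyt, le_rfl⟩ hyt
    simp only at h3
    rw [abs_of_nonneg hy]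
    have h4 : 0 ≤ C * Real.exp (-t) := by positivity
    linarith
  rw [abs_le]
  constructor
  · have := key (fun u => -e u) (fun u => -e1 u) (fun u => (h.der u).neg)
      (fun u => by rw [abs_neg]; exact h.dec1 u)
    linarith
  · exact key e e1 h.der h.dec1

/-- increments to the left of `0` -/
lemma SCg.incr_l (h : SCg C e e1) {t y : ℝ} (ht : t ≤ 0) (hyt : y ≤ t) :
    |e t - e y| ≤ C * Real.exp (-|t|) := by
  have h' : SCg C (fun u => e (-u)) (fun u => -e1 (-u)) := by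
    refine ⟨h.C0, fun u => ?_, fun u => h.le _, fun u => ?_, fun u => ?_⟩
    · have h1 := (h.der (-u)).comp u (hasDerivAt_neg u)
      refine h1.congr_deriv ?_
      ring
    · rw [abs_neg]
      exact h.sl _
    · rw [abs_neg]
      have := h.dec1 (-u)
      rwa [abs_neg] at this
  have h2 := h'.incr_r (t := -y) (y := -t) (by linarith) (by linarith)
  simp only [neg_neg, abs_neg] at h2
  rwa [abs_sub_comm] at h2

/-- an exponential weight between two points -/
lemma exp_between {t y u : ℝ} (h1 : y ≤ u) (h2 : u ≤ t) :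
    Real.exp (-|u|) * Real.exp (-(t - y)) ≤
      Real.exp (-((t - y) / 2)) * (Real.exp (-(|t| / 2)) + Real.exp (-(|y| / 2))) := by
  have key : |t| ≤ |u| + (t - y) := by
    have := abs_sub_abs_le_abs_sub t u
    rw [abs_of_nonneg (by linarith : 0 ≤ t - u)] at this
    linarith
  have h3 : Real.exp (-|u|) * Real.exp (-(t - y)) ≤ Real.exp (-((t - y) / 2)) * Real.exp (-(|t| / 2)) := by
    rw [← Real.exp_add, ← Real.exp_add]
    refine Real.exp_le_exp.2 ?_
    have := abs_nonneg u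
    linarith
  have h4 := Real.exp_pos (-((t - y) / 2))
  have h5 := Real.exp_pos (-(|y| / 2))
  nlinarith [mul_pos h4 h5]

/-- the increments of the heights with the weight of the kernel -/
lemma SCg.wt (h : SCg C e e1) {t y : ℝ} (hyt : y < t) :
    (1 + 1 / (t - y)) * Real.exp (-(t - y)) * |e t - e y| ≤
      4 * C * (Real.exp (-((t - y) / 2)) * (Real.exp (-(|t| / 2)) + Real.exp (-(|y| / 2)))) := by
  have hx : 0 < t - y := by linarith
  have hE := Real.exp_pos (-(t - y))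
  obtain ⟨W, hW⟩ : ∃ W, W = Real.exp (-((t - y) / 2)) * (Real.exp (-(|t| / 2)) + Real.exp (-(|y| / 2))) := ⟨_, rfl⟩
  rw [← hW]
  have hC := h.C0
  have b : ∀ u, y ≤ u → u ≤ t → Real.exp (-|u|) * Real.exp (-(t - y)) ≤ W := fun u h1 h2 => by
    rw [hW]
    exact exp_between h1 h2
  have hW0 : 0 < W := lt_of_lt_of_le (by positivity) (b t hyt.le le_rfl)
  -- the part without the singularity
  have p1 : Real.exp (-(t - y)) * |e t - e y| ≤ 2 * C * W := by
    have key : ∀ u K : ℝ, y ≤ u → u ≤ t → 0 ≤ K → K ≤ 2 → |e t - e y| ≤ K * (C * Real.exp (-|u|)) →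
        Real.exp (-(t - y)) * |e t - e y| ≤ 2 * C * W := by
      intro u K h1 h2 hK0 hK h3
      have h4 := b u h1 h2
      calc Real.exp (-(t - y)) * |e t - e y| ≤ Real.exp (-(t - y)) * (K * (C * Real.exp (-|u|))) :=
            mul_le_mul_of_nonneg_left h3 hE.le
        _ = K * C * (Real.exp (-|u|) * Real.exp (-(t - y))) := by ring
        _ ≤ 2 * C * W := by gcongr
    rcases le_total 0 y with hy | hy
    · refine key y 1 le_rfl hyt.le one_pos.le (by norm_num) ?_
      rw [one_mul]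
      exact h.incr_r hy hyt.le
    · rcases le_total t 0 with ht | ht
      · refine key t 1 hyt.le le_rfl one_pos.le (by norm_num) ?_
        rw [one_mul]
        exact h.incr_l ht hyt.le
      · refine key 0 2 hy ht (by norm_num) le_rfl ?_
        have h1 := h.incr_r le_rfl ht
        have h2 := h.incr_l le_rfl hy
        have h3 := abs_sub_le (e t) (e 0) (e y)
        linarith
  -- the difference quotient
  have p2 : Real.exp (-(t - y)) * (1 / (t - y) * |e t - e y|) ≤ C * W := by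
    have h3 : |e t - e y| ≤ C * (W / Real.exp (-(t - y))) * (t - y) := by
      refine incr_of h.der hyt.le fun u h1 h2 => ?_
      have h4 := h.dec1 u
      have h5 := b u h1 h2
      refine h4.trans (mul_le_mul_of_nonneg_left ?_ hC)
      rw [le_div_iff₀ hE]
      exact h5
    have h4 : 1 / (t - y) * |e t - e y| ≤ C * (W / Real.exp (-(t - y))) := by
      rw [one_div, inv_mul_le_iff₀ hx]
      linarith
    calc Real.exp (-(t - y)) * (1 / (t - y) * |e t - e y|) ≤
          Real.exp (-(t - y)) * (C * (W / Real.exp (-(t - y)))) := mul_le_mul_of_nonneg_left h4 hE.le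
      _ = C * W := by
          field_simp
  have e0 : (1 + 1 / (t - y)) * Real.exp (-(t - y)) * |e t - e y| =
      Real.exp (-(t - y)) * |e t - e y| + Real.exp (-(t - y)) * (1 / (t - y) * |e t - e y|) := by ring
  rw [e0]
  have : 0 ≤ C * W := by positivity
  linarith

/-- **the pair kernel of the static curve against the convolution kernel** -/
theorem ker_static : ∃ K : ℝ, 0 < K ∧ ∀ {C : ℝ} {e e1 : ℝ → ℝ}, SCg C e e1 → ∀ t y : ℝ, t ≠ y →
    ‖Up Uc (gcG e) t y - (V (t - y) : ℂ)‖ ≤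
      K * C * (Real.exp (-(|t - y| / 2)) * (Real.exp (-(|t| / 2)) + Real.exp (-(|y| / 2)))) := by
  obtain ⟨K, hK, H⟩ := Uc_incr
  refine ⟨4 * K, by positivity, fun {C e e1} h t y hne => ?_⟩
  have hl := l_num
  have key : ∀ t y, y < t → ‖Uc (gcG e t - gcG e y) - (V (t - y) : ℂ)‖ ≤
      4 * K * C * (Real.exp (-((t - y) / 2)) * (Real.exp (-(|t| / 2)) + Real.exp (-(|y| / 2)))) := by
    intro t y hty
    have hx : 0 < t - y := by linarith
    have hn : ‖((e t - e y : ℝ) : ℂ) * I‖ = |e t - e y| := by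
      rw [norm_mul, Complex.norm_I, mul_one, Complex.norm_real, Real.norm_eq_abs]
    have h1 := (H (t - y) (((e t - e y : ℝ) : ℂ) * I) hx (by
      rw [hn]
      linarith [h.lip hty.le]) (by
      rw [hn]
      linarith [h.osc t y])).1
    rw [Uc_ofReal hx, ← gcG_sub, hn] at h1
    refine h1.trans ?_
    have h2 := h.wt hty
    calc K * (1 + 1 / (t - y)) * Real.exp (-(t - y)) * |e t - e y| =
          K * ((1 + 1 / (t - y)) * Real.exp (-(t - y)) * |e t - e y|) := by ring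
      _ ≤ K * (4 * C * (Real.exp (-((t - y) / 2)) * (Real.exp (-(|t| / 2)) + Real.exp (-(|y| / 2))))) :=
          mul_le_mul_of_nonneg_left h2 hK.le
      _ = _ := by ring
  rcases lt_or_gt_of_ne hne with h1 | h1
  · rw [Up_of_le h1.le, abs_of_neg (by linarith : t - y < 0), neg_sub]
    have e2 : V (t - y) = V (y - t) := by rw [← V_even, neg_sub]
    rw [e2, add_comm (Real.exp (-(|t| / 2)))]
    exact key y t h1
  · rw [Up_of_lt h1, abs_of_pos (by linarith : 0 < t - y)]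
    exact key t y h1

/-- the displacement of a curve -/
structure SD (ε : ℝ) (δ δ1 : ℝ → ℂ) : Prop where
  lip : ∀ t y, ‖δ t - δ y‖ ≤ ε * |t - y|
  lip1 : ∀ t y, ‖δ1 t - δ1 y‖ ≤ ε * |t - y|
  le : ∀ t, ‖δ t‖ ≤ ε
  le1 : ∀ t, ‖δ1 t‖ ≤ ε

/-- derivative kernel of the displaced curve, only the slope of the displacement -/
def Qd (ζ δ1 : ℝ → ℂ) (t y : ℝ) : ℂ :=
  if y < t then Ud (ζ t - ζ y) * (δ1 t - δ1 y) else Ud (ζ y - ζ t) * (δ1 y - δ1 t)

/-- **the pair kernel of the displaced curve against the one of the static curve** -/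
theorem ker_disp : ∃ K : ℝ, 1 ≤ K ∧ ∀ {C : ℝ} {e e1 : ℝ → ℝ} {ε : ℝ} {δ δ1 : ℝ → ℂ}, SCg C e e1 → SD ε δ δ1 →
    0 ≤ ε → ε ≤ 1 / 40 → ∀ t y : ℝ, t ≠ y →
    ‖Up Uc (fun u => gcG e u + δ u) t y - Up Uc (gcG e) t y‖ ≤ K * ε * Real.exp (-|t - y|) ∧
    ‖Qd (fun u => gcG e u + δ u) δ1 t y‖ ≤ K * ε * Real.exp (-|t - y|) := by
  obtain ⟨K, hK, H⟩ := Uc_incr_w
  refine ⟨1 + 3 * K, by linarith, fun {C e e1 ε δ δ1} h D hε0 hε t y hne => ?_⟩
  have hl := l_num
  have key : ∀ t y, y < t →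
      ‖Uc ((gcG e t + δ t) - (gcG e y + δ y)) - Uc (gcG e t - gcG e y)‖ ≤ 3 * K * ε * Real.exp (-(t - y)) ∧
      ‖Ud ((gcG e t + δ t) - (gcG e y + δ y)) * (δ1 t - δ1 y)‖ ≤ 3 * K * ε * Real.exp (-(t - y)) := by
    intro t y hty
    have hx : 0 < t - y := by linarith
    have d0 := D.lip t y
    have d1 := D.lip1 t y
    have b0 : ‖δ t - δ y‖ ≤ 2 * ε := (norm_sub_le _ _).trans (by linarith [D.le t, D.le y])
    have b1 : ‖δ1 t - δ1 y‖ ≤ 2 * ε := (norm_sub_le _ _).trans (by linarith [D.le1 t, D.le1 y])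
    rw [abs_of_pos hx] at d0 d1
    have er : (gcG e t - gcG e y).re = t - y := gcG_sub_re e t y
    have ei : |(gcG e t - gcG e y).im| ≤ l / 4 := by
      rw [gcG_sub_im]
      exact h.osc t y
    have e2 : (gcG e t + δ t) - (gcG e y + δ y) = (gcG e t - gcG e y) + (δ t - δ y) := by ring
    rw [e2]
    have h1 := H (gcG e t - gcG e y) (δ t - δ y) (by rw [er]; exact hx) ei (by
      rw [er]
      nlinarith) (by linarith)
    rw [er] at h1
    have hE := Real.exp_pos (-(t - y))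
    have c0 : (1 + 1 / (t - y)) * ‖δ t - δ y‖ ≤ 3 * ε := by
      have : 1 / (t - y) * ‖δ t - δ y‖ ≤ ε := by
        rw [one_div, inv_mul_le_iff₀ hx]
        linarith
      linarith
    have c1 : (1 + 1 / (t - y)) * ‖δ1 t - δ1 y‖ ≤ 3 * ε := by
      have : 1 / (t - y) * ‖δ1 t - δ1 y‖ ≤ ε := by
        rw [one_div, inv_mul_le_iff₀ hx]
        linarith
      linarith
    constructor
    · calc _ ≤ K * (1 + 1 / (t - y)) * Real.exp (-(t - y)) * ‖δ t - δ y‖ := h1.1
        _ = K * Real.exp (-(t - y)) * ((1 + 1 / (t - y)) * ‖δ t - δ y‖) := by ring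
        _ ≤ K * Real.exp (-(t - y)) * (3 * ε) := by gcongr
        _ = _ := by ring
    · rw [norm_mul]
      calc _ ≤ K * (1 + 1 / (t - y)) * Real.exp (-(t - y)) * ‖δ1 t - δ1 y‖ := by
            gcongr
            exact h1.2
        _ = K * Real.exp (-(t - y)) * ((1 + 1 / (t - y)) * ‖δ1 t - δ1 y‖) := by ring
        _ ≤ K * Real.exp (-(t - y)) * (3 * ε) := by gcongr
        _ = _ := by ring
  have hmono : ∀ x : ℝ, 3 * K * ε * Real.exp (-x) ≤ (1 + 3 * K) * ε * Real.exp (-x) := by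
    intro x
    have := Real.exp_pos (-x)
    gcongr
    linarith
  rcases lt_or_gt_of_ne hne with h | h
  · have h1 := key y t h
    rw [Up_of_le h.le, Up_of_le h.le, abs_of_neg (by linarith : t - y < 0), neg_sub]
    have e1 : Qd (fun u => gcG e u + δ u) δ1 t y =
        Ud ((gcG e y + δ y) - (gcG e t + δ t)) * (δ1 y - δ1 t) := if_neg (not_lt.2 h.le)
    rw [e1]
    exact ⟨h1.1.trans (hmono _), h1.2.trans (hmono _)⟩
  · have h1 := key t y h
    rw [Up_of_lt h, Up_of_lt h, abs_of_pos (by linarith : 0 < t - y)]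
    have e1 : Qd (fun u => gcG e u + δ u) δ1 t y =
        Ud ((gcG e t + δ t) - (gcG e y + δ y)) * (δ1 t - δ1 y) := if_pos h
    rw [e1]
    exact ⟨h1.1.trans (hmono _), h1.2.trans (hmono _)⟩

end

end PLT
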