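import Mathlib

/-!
# Functions with uniformly bounded derivatives (helper69)

`UB n S W f`: the functions `f i` have `n` derivatives on the sets `S i`, all `≤ C W i t` with one constant `C` for
all `i`. Closed under sums, products, inverses, entire functions, `log (1 + ·)`; `UB.union`, `UB.congr` (open sets),
`UB.tower`: explicit derivatives.
-/

set_option autoImplicit false

open Set Filter Topology Complex

namespace PLT.UBc

noncomputable section

variable {ι : Type*}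

/-- `n` derivatives on the sets `S i` against the weights `W i` -/
def UB : ℕ → (ι → Set ℝ) → (ι → ℝ → ℝ) → (ι → ℝ → ℂ) → Prop
  | 0, S, W, f => ∃ C : ℝ, 0 ≤ C ∧ ∀ i, ∀ t ∈ S i, ‖f i t‖ ≤ C * W i t
  | n + 1, S, W, f => (∃ C : ℝ, 0 ≤ C ∧ ∀ i, ∀ t ∈ S i, ‖f i t‖ ≤ C * W i t) ∧
      ∃ f' : ι → ℝ → ℂ, (∀ i, ∀ t ∈ S i, HasDerivAt (f i) (f' i t) t) ∧ UB n S W f'

variable {S S' : ι → Set ℝ} {W W' : ι → ℝ → ℝ} {f g : ι → ℝ → ℂ} {n : ℕ}

lemma UB.bd (h : UB n S W f) : ∃ C : ℝ, 0 ≤ C ∧ ∀ i, ∀ t ∈ S i, ‖f i t‖ ≤ C * W i t := by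
  cases n with
  | zero => exact h
  | succ n => exact h.1

lemma UB.step (h : UB (n + 1) S W f) : UB n S W f := by
  induction n generalizing f with
  | zero => exact h.1
  | succ n ih =>
    obtain ⟨h1, f', h2, h3⟩ := h
    exact ⟨h1, f', h2, ih h3⟩

lemma UB.le {m : ℕ} (h : UB n S W f) (hm : m ≤ n) : UB m S W f := by
  induction n with
  | zero =>
    obtain rfl : m = 0 := by omega
    exact h
  | succ n ih =>
    rcases Nat.lt_or_ge m (n + 1) with h1 | h1
    · exact ih h.step (by omega)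
    · obtain rfl : m = n + 1 := by omega
      exact h

/-- bound plus derivative -/
lemma UB.mk (h : ∃ C : ℝ, 0 ≤ C ∧ ∀ i, ∀ t ∈ S i, ‖f i t‖ ≤ C * W i t) {f' : ι → ℝ → ℂ}
    (hd : ∀ i, ∀ t ∈ S i, HasDerivAt (f i) (f' i t) t) (h' : UB n S W f') : UB (n + 1) S W f :=
  ⟨h, f', hd, h'⟩

lemma UB.subset (h : UB n S W f) (hs : ∀ i, S' i ⊆ S i) : UB n S' W f := by
  induction n generalizing f with
  | zero =>
    obtain ⟨C, hC, h⟩ := h
    exact ⟨C, hC, fun i t ht => h i t (hs i ht)⟩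
  | succ n ih =>
    obtain ⟨⟨C, hC, h1⟩, f', h2, h3⟩ := h
    exact ⟨⟨C, hC, fun i t ht => h1 i t (hs i ht)⟩, f', fun i t ht => h2 i t (hs i ht), ih h3⟩

/-- a larger weight -/
lemma UB.weight (h : UB n S W f) {K : ℝ} (hK : 0 ≤ K) (hw : ∀ i, ∀ t ∈ S i, W i t ≤ K * W' i t) : UB n S W' f := by
  induction n generalizing f with
  | zero =>
    obtain ⟨C, hC, h⟩ := h
    exact ⟨C * K, by positivity, fun i t ht => (h i t ht).trans (by
      rw [mul_assoc]
      exact mul_le_mul_of_nonneg_left (hw i t ht) hC)⟩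
  | succ n ih =>
    obtain ⟨⟨C, hC, h1⟩, f', h2, h3⟩ := h
    exact ⟨⟨C * K, by positivity, fun i t ht => (h1 i t ht).trans (by
      rw [mul_assoc]
      exact mul_le_mul_of_nonneg_left (hw i t ht) hC)⟩, f', h2, ih h3⟩

/-- other index -/
lemma UB.index {ι' : Type*} (h : UB n S W f) (φ : ι' → ι) :
    UB n (fun i => S (φ i)) (fun i => W (φ i)) (fun i => f (φ i)) := by
  induction n generalizing f with
  | zero =>
    obtain ⟨C, hC, h⟩ := h
    exact ⟨C, hC, fun i t ht => h (φ i) t ht⟩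
  | succ n ih =>
    obtain ⟨⟨C, hC, h1⟩, f', h2, h3⟩ := h
    exact ⟨⟨C, hC, fun i t ht => h1 (φ i) t ht⟩, fun i => f' (φ i), fun i t ht => h2 (φ i) t ht, ih h3⟩

/-- translations and reflections -/
lemma UB.shift (h : UB n S W f) (σ : ι → ℝ) (τ : ι → ℝ) (hσ : ∀ i, |σ i| ≤ 1) :
    UB n (fun i => {t | σ i * t + τ i ∈ S i}) (fun i t => W i (σ i * t + τ i)) (fun i t => f i (σ i * t + τ i)) := by
  induction n generalizing f with
  | zero =>
    obtain ⟨C, hC, h⟩ := h
    exact ⟨C, hC, fun i t ht => h i _ ht⟩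
  | succ n ih =>
    obtain ⟨⟨C, hC, h1⟩, f', h2, h3⟩ := h
    refine ⟨⟨C, hC, fun i t ht => h1 i _ ht⟩, fun i t => (σ i : ℂ) * f' i (σ i * t + τ i), fun i t ht => ?_, ?_⟩
    · have hl : HasDerivAt (fun t : ℝ => σ i * t + τ i) (σ i) t := by
        simpa using ((hasDerivAt_id t).const_mul (σ i)).add_const (τ i)
      have := (h2 i _ ht).scomp t hl
      exact this
    · have key : ∀ (m : ℕ) (k : ι → ℝ → ℂ) (S : ι → Set ℝ) (W : ι → ℝ → ℝ), UB m S W k →
          UB m S W (fun i t => (σ i : ℂ) * k i t) := by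
        intro m
        induction m with
        | zero =>
          rintro k S W ⟨C, hC, hk⟩
          refine ⟨C, hC, fun i t ht => ?_⟩
          rw [norm_mul, Complex.norm_real, Real.norm_eq_abs]
          have := hk i t ht
          have h0 := norm_nonneg (k i t)
          nlinarith [hσ i, abs_nonneg (σ i)]
        | succ m ihm =>
          rintro k S W ⟨⟨C, hC, hk⟩, k', hk1, hk2⟩
          refine ⟨⟨C, hC, fun i t ht => ?_⟩, fun i t => (σ i : ℂ) * k' i t,
            fun i t ht => (hk1 i t ht).const_mul _, ihm _ _ _ hk2⟩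
          rw [norm_mul, Complex.norm_real, Real.norm_eq_abs]
          have := hk i t ht
          have h0 := norm_nonneg (k i t)
          nlinarith [hσ i, abs_nonneg (σ i)]
      exact key _ _ _ _ (ih h3)

lemma UB.add (h : UB n S W f) (h' : UB n S W g) : UB n S W (fun i t => f i t + g i t) := by
  induction n generalizing f g with
  | zero =>
    obtain ⟨C, hC, h⟩ := h
    obtain ⟨C', hC', h'⟩ := h'
    exact ⟨C + C', by positivity, fun i t ht => (norm_add_le _ _).trans (by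
      rw [add_mul]
      exact add_le_add (h i t ht) (h' i t ht))⟩
  | succ n ih =>
    obtain ⟨⟨C, hC, h1⟩, f', h2, h3⟩ := h
    obtain ⟨⟨C', hC', h1'⟩, g', h2', h3'⟩ := h'
    exact ⟨⟨C + C', by positivity, fun i t ht => (norm_add_le _ _).trans (by
      rw [add_mul]
      exact add_le_add (h1 i t ht) (h1' i t ht))⟩, fun i t => f' i t + g' i t,
      fun i t ht => (h2 i t ht).add (h2' i t ht), ih h3 h3'⟩

/-- multiples by bounded numbers which may depend on the index -/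
lemma UB.smul (h : UB n S W f) {c : ι → ℂ} {K : ℝ} (hc : ∀ i, ‖c i‖ ≤ K) : UB n S W (fun i t => c i * f i t) := by
  have hb : ∀ {f : ι → ℝ → ℂ}, (∃ C : ℝ, 0 ≤ C ∧ ∀ i, ∀ t ∈ S i, ‖f i t‖ ≤ C * W i t) →
      ∃ C : ℝ, 0 ≤ C ∧ ∀ i, ∀ t ∈ S i, ‖c i * f i t‖ ≤ C * W i t := by
    rintro f ⟨C, hC, h⟩
    refine ⟨|K| * C, by positivity, fun i t ht => ?_⟩
    rw [norm_mul, mul_assoc]
    exact mul_le_mul ((hc i).trans (le_abs_self _)) (h i t ht) (norm_nonneg _) (abs_nonneg _)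
  induction n generalizing f with
  | zero => exact hb h
  | succ n ih =>
    obtain ⟨h1, f', h2, h3⟩ := h
    exact ⟨hb h1, fun i t => c i * f' i t, fun i t ht => (h2 i t ht).const_mul _, ih h3⟩

lemma UB.const_mul (h : UB n S W f) (c : ℂ) : UB n S W (fun i t => c * f i t) :=
  h.smul (c := fun _ => c) (K := ‖c‖) fun _ => le_rfl

lemma UB.neg (h : UB n S W f) : UB n S W (fun i t => -f i t) := by
  have := h.const_mul (-1)
  simpa using this

lemma UB.sub (h : UB n S W f) (h' : UB n S W g) : UB n S W (fun i t => f i t - g i t) := by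
  have := h.add h'.neg
  simpa [sub_eq_add_neg] using this

/-- products -/
lemma UB.mul (h : UB n S W f) (h' : UB n S W' g) :
    UB n S (fun i t => W i t * W' i t) (fun i t => f i t * g i t) := by
  have hb : ∀ {f g : ι → ℝ → ℂ}, (∃ C : ℝ, 0 ≤ C ∧ ∀ i, ∀ t ∈ S i, ‖f i t‖ ≤ C * W i t) →
      (∃ C : ℝ, 0 ≤ C ∧ ∀ i, ∀ t ∈ S i, ‖g i t‖ ≤ C * W' i t) →
      ∃ C : ℝ, 0 ≤ C ∧ ∀ i, ∀ t ∈ S i, ‖f i t * g i t‖ ≤ C * (W i t * W' i t) := by
    rintro f g ⟨C, hC, h⟩ ⟨C', hC', h'⟩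
    refine ⟨C * C', by positivity, fun i t ht => ?_⟩
    rw [norm_mul]
    have h1 := h i t ht
    have h2 := h' i t ht
    calc ‖f i t‖ * ‖g i t‖ ≤ (C * W i t) * (C' * W' i t) :=
          mul_le_mul h1 h2 (norm_nonneg _) ((norm_nonneg _).trans h1)
      _ = _ := by ring
  induction n generalizing f g with
  | zero => exact hb h h'
  | succ n ih =>
    have k1 := h.step
    have k2 := h'.step
    obtain ⟨h1, f', h2, h3⟩ := h
    obtain ⟨h1', g', h2', h3'⟩ := h'
    exact ⟨hb h1 h1', fun i t => f' i t * g i t + f i t * g' i t, fun i t ht => (h2 i t ht).mul (h2' i t ht),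
      (ih h3 k2).add (ih k1 h3')⟩

/-- product with a bounded function -/
lemma UB.mul1 (h : UB n S W f) (h' : UB n S (fun _ _ => 1) g) : UB n S W (fun i t => f i t * g i t) :=
  (h.mul h').weight (K := 1) zero_le_one fun i t _ => by simp

lemma UB.mul1' (h : UB n S (fun _ _ => 1) f) (h' : UB n S W g) : UB n S W (fun i t => f i t * g i t) :=
  (h.mul h').weight (K := 1) zero_le_one fun i t _ => by simp

/-- constants -/
lemma UB.const {c : ι → ℂ} {K : ℝ} (hc : ∀ i, ‖c i‖ ≤ K) : UB n S (fun _ _ => 1) (fun i _ => c i) := by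
  have h0 : ∀ m, UB m S (fun _ _ => 1) (fun (_ : ι) (_ : ℝ) => (0 : ℂ)) := by
    intro m
    induction m with
    | zero => exact ⟨0, le_rfl, fun i t _ => by simp⟩
    | succ m ih => exact ⟨⟨0, le_rfl, fun i t _ => by simp⟩, fun _ _ => 0, fun i t _ => hasDerivAt_const t 0, ih⟩
  have hb : ∃ C : ℝ, 0 ≤ C ∧ ∀ i, ∀ t ∈ S i, ‖c i‖ ≤ C * 1 :=
    ⟨|K|, abs_nonneg _, fun i t _ => by rw [mul_one]; exact (hc i).trans (le_abs_self _)⟩
  cases n with
  | zero => exact hb
  | succ n => exact ⟨hb, fun _ _ => 0, fun i t _ => hasDerivAt_const t (c i), h0 n⟩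

lemma UB.cst (c : ℂ) : UB n S (fun _ _ => 1) (fun _ _ => c) := UB.const (c := fun _ => c) (K := ‖c‖) fun _ => le_rfl

/-- equal functions on open sets -/
lemma UB.congr (h : UB n S W f) (hS : ∀ i, IsOpen (S i)) (hfg : ∀ i, ∀ t ∈ S i, f i t = g i t) : UB n S W g := by
  have hb : (∃ C : ℝ, 0 ≤ C ∧ ∀ i, ∀ t ∈ S i, ‖f i t‖ ≤ C * W i t) →
      ∃ C : ℝ, 0 ≤ C ∧ ∀ i, ∀ t ∈ S i, ‖g i t‖ ≤ C * W i t := by
    rintro ⟨C, hC, h⟩
    exact ⟨C, hC, fun i t ht => by rw [← hfg i t ht]; exact h i t ht⟩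
  cases n with
  | zero => exact hb h
  | succ n =>
    obtain ⟨h1, f', h2, h3⟩ := h
    refine ⟨hb h1, f', fun i t ht => (h2 i t ht).congr_of_eventuallyEq ?_, h3⟩
    filter_upwards [(hS i).mem_nhds ht] with y hy using (hfg i y hy).symm

/-- two open sets -/
lemma UB.union (h : UB n S W f) (h' : UB n S' W f) (hS : ∀ i, IsOpen (S i)) (hS' : ∀ i, IsOpen (S' i))
    (hW : ∀ i t, 0 ≤ W i t) : UB n (fun i => S i ∪ S' i) W f := by
  have hb : ∀ {f : ι → ℝ → ℂ}, (∃ C : ℝ, 0 ≤ C ∧ ∀ i, ∀ t ∈ S i, ‖f i t‖ ≤ C * W i t) →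
      (∃ C : ℝ, 0 ≤ C ∧ ∀ i, ∀ t ∈ S' i, ‖f i t‖ ≤ C * W i t) →
      ∃ C : ℝ, 0 ≤ C ∧ ∀ i, ∀ t ∈ S i ∪ S' i, ‖f i t‖ ≤ C * W i t := by
    rintro f ⟨C, hC, h⟩ ⟨C', hC', h'⟩
    refine ⟨C + C', by positivity, fun i t ht => ?_⟩
    have h0 := hW i t
    rcases ht with ht | ht
    · have h1 := h i t ht
      nlinarith
    · have h1 := h' i t ht
      nlinarith
  induction n generalizing f with
  | zero => exact hb h h'
  | succ n ih =>
    obtain ⟨h1, f1, h2, h3⟩ := h
    obtain ⟨h1', f2, h2', h3'⟩ := h'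
    classical
    have k1 : ∀ i, ∀ t ∈ S i, f1 i t = (fun i t => if t ∈ S i then f1 i t else f2 i t) i t := by
      intro i t ht
      simp only
      rw [if_pos ht]
    have k2 : ∀ i, ∀ t ∈ S' i, f2 i t = (fun i t => if t ∈ S i then f1 i t else f2 i t) i t := by
      intro i t ht
      simp only
      split_ifs with h
      · exact (h2' i t ht).unique (h2 i t h)
      · rfl
    refine ⟨hb h1 h1', fun i t => if t ∈ S i then f1 i t else f2 i t, fun i t ht => ?_,
      ih (h3.congr hS k1) (h3'.congr hS' k2)⟩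
    simp only
    split_ifs with h
    · exact h2 i t h
    · exact h2' i t (ht.resolve_left h)

/-- inverses -/
lemma UB.inv (h : UB n S (fun _ _ => 1) f) {δ : ℝ} (hδ : 0 < δ) (hf : ∀ i, ∀ t ∈ S i, δ ≤ ‖f i t‖) :
    UB n S (fun _ _ => 1) (fun i t => (f i t)⁻¹) := by
  have hb : ∃ C : ℝ, 0 ≤ C ∧ ∀ i, ∀ t ∈ S i, ‖(f i t)⁻¹‖ ≤ C * 1 := by
    refine ⟨1 / δ, by positivity, fun i t ht => ?_⟩
    rw [norm_inv, mul_one, one_div]
    exact inv_anti₀ hδ (hf i t ht)
  induction n with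
  | zero => exact hb
  | succ n ih =>
    have k := ih h.step
    obtain ⟨h1, f', h2, h3⟩ := h
    refine ⟨hb, fun i t => -(f' i t * ((f i t)⁻¹ * (f i t)⁻¹)), fun i t ht => ?_, (h3.mul1 (k.mul1 k)).neg⟩
    have hne : f i t ≠ 0 := norm_pos_iff.1 (hδ.trans_le (hf i t ht))
    refine (h2 i t ht).inv hne |>.congr_deriv ?_
    field_simp

lemma UB.cont_bd {F : ℂ → ℂ} (hF : Continuous F) (h : UB n S (fun _ _ => 1) f) :
    ∃ C : ℝ, 0 ≤ C ∧ ∀ i, ∀ t ∈ S i, ‖F (f i t)‖ ≤ C * 1 := by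
  obtain ⟨C, hC, h1⟩ := h.bd
  obtain ⟨M, hM⟩ := (isCompact_closedBall (0 : ℂ) C).exists_bound_of_continuousOn (f := F) hF.continuousOn
  refine ⟨|M|, abs_nonneg _, fun i t ht => ?_⟩
  rw [mul_one]
  refine (hM _ ?_).trans (le_abs_self _)
  rw [mem_closedBall_zero_iff]
  have := h1 i t ht
  rwa [mul_one] at this

/-- entire functions -/
lemma UB.entire {F : ℂ → ℂ} (hF : Differentiable ℂ F) (h : UB n S (fun _ _ => 1) f) :
    UB n S (fun _ _ => 1) (fun i t => F (f i t)) := by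
  induction n generalizing F with
  | zero => exact h.cont_bd hF.continuous
  | succ n ih =>
    have hF' : Differentiable ℂ (deriv F) := fun z => (hF.contDiff (n := 2)).differentiable_deriv_two z
    have k := ih hF' h.step
    have hb := h.cont_bd hF.continuous
    obtain ⟨h1, f', h2, h3⟩ := h
    refine ⟨hb, fun i t => deriv F (f i t) * f' i t, fun i t ht => ?_, k.mul1 h3⟩
    exact (hF (f i t)).hasDerivAt.comp t (h2 i t ht)

/-- entire functions which vanish at `0` -/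
lemma UB.entire0 {F : ℂ → ℂ} (hF : Differentiable ℂ F) (h0 : F 0 = 0) (h : UB n S W f) {K : ℝ} (hK : 0 ≤ K)
    (hw : ∀ i, ∀ t ∈ S i, W i t ≤ K) : UB n S W (fun i t => F (f i t)) := by
  have h1 : UB n S (fun _ _ => 1) f := h.weight hK fun i t ht => by rw [mul_one]; exact hw i t ht
  have hG : Differentiable ℂ (dslope F 0) := by
    rw [← differentiableOn_univ, Complex.differentiableOn_dslope univ_mem]
    exact hF.differentiableOn
  have h2 := h.mul1 (h1.entire hG)
  have e : (fun i t => f i t * dslope F 0 (f i t)) = fun i t => F (f i t) := by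
    funext i t
    have := sub_smul_dslope F 0 (f i t)
    rw [h0, sub_zero, sub_zero, smul_eq_mul] at this
    exact this
  rw [e] at h2
  exact h2

/-- `log (1 + ·)` -/
lemma UB.log1 (h : UB n S W f) {K : ℝ} (hK : 0 ≤ K) (hw : ∀ i, ∀ t ∈ S i, W i t ≤ K)
    (hf : ∀ i, ∀ t ∈ S i, ‖f i t‖ ≤ 1 / 2) : UB n S W (fun i t => Complex.log (1 + f i t)) := by
  have hb : ∃ C : ℝ, 0 ≤ C ∧ ∀ i, ∀ t ∈ S i, ‖Complex.log (1 + f i t)‖ ≤ C * W i t := by
    obtain ⟨C, hC, h1⟩ := h.bd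
    refine ⟨3 / 2 * C, by positivity, fun i t ht => ?_⟩
    have h2 := Complex.norm_log_one_add_half_le_self (hf i t ht)
    have h3 := h1 i t ht
    linarith
  cases n with
  | zero => exact hb
  | succ n =>
    have h1 : UB (n + 1) S (fun _ _ => 1) f := h.weight hK fun i t ht => by rw [mul_one]; exact hw i t ht
    have hi : UB n S (fun _ _ => 1) (fun i t => (1 + f i t)⁻¹) := by
      refine UB.inv (δ := 1 / 2) ((UB.cst 1).add h1.step) (by norm_num) fun i t ht => ?_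
      have h2 := norm_sub_norm_le (1 : ℂ) (-f i t)
      rw [norm_neg, norm_one, sub_neg_eq_add] at h2
      have := hf i t ht
      linarith
    obtain ⟨-, f', h2, h3⟩ := h
    refine ⟨hb, fun i t => f' i t * (1 + f i t)⁻¹, fun i t ht => ?_, h3.mul1 hi⟩
    have hs : 1 + f i t ∈ slitPlane := by
      left
      have h4 := Complex.abs_re_le_norm (f i t)
      have h5 := abs_le.1 (h4.trans (hf i t ht))
      rw [Complex.add_re, Complex.one_re]
      linarith
    have h6 := ((h2 i t ht).const_add 1).clog_real hs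
    refine h6.congr_deriv ?_
    rw [div_eq_mul_inv]

/-- smooth functions on a bounded interval -/
lemma UB.smooth {F : ℝ → ℂ} {b : ℝ} (hF : ContDiff ℝ n F) :
    UB n (fun _ : ι => {t | |t| < b}) (fun _ _ => 1) (fun _ => F) := by
  have hb : ∀ {F : ℝ → ℂ}, Continuous F → ∃ C : ℝ, 0 ≤ C ∧ ∀ _ : ι, ∀ t ∈ {t : ℝ | |t| < b}, ‖F t‖ ≤ C * 1 := by
    intro F hF
    obtain ⟨M, hM⟩ := (isCompact_closedBall (0 : ℝ) b).exists_bound_of_continuousOn (f := F) hF.continuousOn
    refine ⟨|M|, abs_nonneg _, fun _ t ht => ?_⟩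
    rw [mul_one]
    refine (hM _ ?_).trans (le_abs_self _)
    rw [mem_closedBall_zero_iff, Real.norm_eq_abs]
    exact le_of_lt ht
  induction n generalizing F with
  | zero => exact hb hF.continuous
  | succ n ih =>
    have h1 : ContDiff ℝ (n + 1) F := by exact_mod_cast hF
    refine ⟨hb hF.continuous, fun _ => deriv F, fun _ t _ => ?_, ih ?_⟩
    · exact (h1.differentiable (by simp) t).hasDerivAt
    · exact (contDiff_succ_iff_deriv.1 h1).2.2

/-- exponentials on half lines -/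
lemma UB.exp (a : ι → ℝ) {K : ℝ} (ha : ∀ i, |a i| ≤ K) (τ : ι → ℝ) :
    UB n S (fun i t => Real.exp (a i * (t - τ i))) (fun i t => ((Real.exp (a i * (t - τ i)) : ℝ) : ℂ)) := by
  have hb : ∃ C : ℝ, 0 ≤ C ∧ ∀ i, ∀ t ∈ S i, ‖((Real.exp (a i * (t - τ i)) : ℝ) : ℂ)‖ ≤ C * Real.exp (a i * (t - τ i)) :=
    ⟨1, zero_le_one, fun i t _ => by
      rw [Complex.norm_real, Real.norm_of_nonneg (Real.exp_pos _).le, one_mul]⟩
  induction n with
  | zero => exact hb
  | succ n ih =>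
    refine ⟨hb, fun i t => (a i : ℂ) * ((Real.exp (a i * (t - τ i)) : ℝ) : ℂ), fun i t _ => ?_,
      ih.smul (c := fun i => (a i : ℂ)) (K := K) fun i => by rw [Complex.norm_real]; exact ha i⟩
    have h1 : HasDerivAt (fun t : ℝ => a i * (t - τ i)) (a i) t := by
      simpa using ((hasDerivAt_id t).sub_const (τ i)).const_mul (a i)
    have h2 := h1.exp.ofReal_comp
    refine h2.congr_deriv ?_
    push_cast
    ring

/-- explicit derivatives -/
lemma UB.tower (h : UB n S W f) : ∃ (A : ℕ → ι → ℝ → ℂ) (C : ℝ), 0 ≤ C ∧ A 0 = f ∧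
    (∀ m, m < n → ∀ i, ∀ t ∈ S i, HasDerivAt (A m i) (A (m + 1) i t) t) ∧
    ∀ m, m ≤ n → ∀ i, ∀ t ∈ S i, ‖A m i t‖ ≤ C * |W i t| := by
  induction n generalizing f with
  | zero =>
    obtain ⟨C, hC, h⟩ := h
    refine ⟨fun _ => f, C, hC, rfl, fun m hm => absurd hm (by omega), fun m _ i t ht => (h i t ht).trans ?_⟩
    exact mul_le_mul_of_nonneg_left (le_abs_self _) hC
  | succ n ih =>
    obtain ⟨⟨C, hC, h1⟩, f', h2, h3⟩ := h
    obtain ⟨A, C', hC', a0, a1, a2⟩ := ih h3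
    refine ⟨fun m => if m = 0 then f else A (m - 1), C + C', by positivity, by simp, fun m hm i t ht => ?_,
      fun m hm i t ht => ?_⟩
    · rcases Nat.eq_zero_or_pos m with rfl | hm0
      · simp only [if_true, if_neg (Nat.succ_ne_zero 0), Nat.add_sub_cancel]
        rw [a0]
        exact h2 i t ht
      · obtain ⟨k, rfl⟩ : ∃ k, m = k + 1 := ⟨m - 1, by omega⟩
        simp only [if_neg (Nat.succ_ne_zero _), Nat.add_sub_cancel]
        exact a1 k (by omega) i t ht
    · have hw := abs_nonneg (W i t)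
      rcases Nat.eq_zero_or_pos m with rfl | hm0
      · simp only [if_true]
        have h4 := h1 i t ht
        have h5 := mul_le_mul_of_nonneg_left (le_abs_self (W i t)) hC
        nlinarith
      · obtain ⟨k, rfl⟩ : ∃ k, m = k + 1 := ⟨m - 1, by omega⟩
        simp only [if_neg (Nat.succ_ne_zero _), Nat.add_sub_cancel]
        have h4 := a2 k (by omega) i t ht
        nlinarith

/-- from explicit derivatives -/
lemma UB.of_tower (A : ℕ → ι → ℝ → ℂ) (hd : ∀ m, m < n → ∀ i, ∀ t ∈ S i, HasDerivAt (A m i) (A (m + 1) i t) t)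
    (hb : ∀ m, m ≤ n → ∃ C : ℝ, 0 ≤ C ∧ ∀ i, ∀ t ∈ S i, ‖A m i t‖ ≤ C * W i t) : UB n S W (A 0) := by
  induction n generalizing A with
  | zero => exact hb 0 le_rfl
  | succ n ih =>
    refine ⟨hb 0 (by omega), A 1, hd 0 (by omega), ?_⟩
    exact ih (fun m => A (m + 1)) (fun m hm => hd (m + 1) (by omega)) fun m hm => hb (m + 1) (by omega)

end

end PLT.UBc
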