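import Pool.Agent.PLT.KerB
import Pool.Agent.PLT.UBc

/-!
# THETA, row B: all derivatives of the kernels of the static curve (helper69)

`Crv Ce e`: curve `e 0` with derivatives `e n`, `|e (n + 1)| ≤ Ce n exp (-|t|)`. `Wk t s = min (exp (-2|t - s|))
(exp (-(|t| + |s|) / 2))`. **`ko_ub`, `kx_ub`**: all `t`-derivatives of the kernels are `≤ C Wk`.
-/

set_option autoImplicit false

open MeasureTheory Set Filter Topology Complex

namespace PLT.KF

open NUMF NUKer NUAct NU42 UBc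

noncomputable section

/-! ### additions to the calculus -/

section

variable {ι : Type*} {S : ι → Set ℝ} {W : ι → ℝ → ℝ} {f : ι → ℝ → ℂ} {n : ℕ}

/-- real parts -/
lemma UB_re (h : UB n S W f) : UB n S W (fun i t => (((f i t).re : ℝ) : ℂ)) := by
  have hb : ∀ {f : ι → ℝ → ℂ}, (∃ C : ℝ, 0 ≤ C ∧ ∀ i, ∀ t ∈ S i, ‖f i t‖ ≤ C * W i t) →
      ∃ C : ℝ, 0 ≤ C ∧ ∀ i, ∀ t ∈ S i, ‖(((f i t).re : ℝ) : ℂ)‖ ≤ C * W i t := by
    rintro f ⟨C, hC, h⟩
    refine ⟨C, hC, fun i t ht => ?_⟩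
    rw [Complex.norm_real, Real.norm_eq_abs]
    exact (Complex.abs_re_le_norm _).trans (h i t ht)
  induction n generalizing f with
  | zero => exact hb h
  | succ n ih =>
    obtain ⟨h1, f', h2, h3⟩ := h
    exact ⟨hb h1, fun i t => (((f' i t).re : ℝ) : ℂ), fun i t ht => (re_deriv (h2 i t ht)).ofReal_comp, ih h3⟩

/-- functions of `t - s` -/
lemma UB_smooth {β : Type*} {F : ℝ → ℂ} {b : ℝ} (hF : ContDiff ℝ n F) :
    UB n (fun p : β × ℝ => {t | |t - p.2| < b}) (fun _ _ => 1) (fun p t => F (t - p.2)) := by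
  have h := (UB.smooth (ι := β × ℝ) (b := b) hF).shift (fun _ => 1) (fun p => -p.2) (fun _ => by simp)
  simp only [one_mul, ← sub_eq_add_neg] at h
  exact h

end

/-! ### the class of curves -/

/-- a curve with its derivatives -/
structure Crv (Ce : ℕ → ℝ) (e : ℕ → ℝ → ℝ) : Prop where
  d : ∀ n t, HasDerivAt (e n) (e (n + 1) t) t
  b : ∀ n t, |e (n + 1) t| ≤ Ce n * Real.exp (-|t|)
  osc : ∀ t s, |e 0 t - e 0 s| ≤ 3 / 125
  sl : ∀ t, |e 1 t| ≤ 1 / 4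

variable {Ce : ℕ → ℝ} {e : ℕ → ℝ → ℝ}

lemma Crv.c (h : Crv Ce e) (n : ℕ) : Continuous (e n) :=
  continuous_iff_continuousAt.2 fun t => (h.d n t).continuousAt

lemma Crv.bent (h : Crv Ce e) : Bent (e 0) (e 1) := ⟨h.d 0, h.c 1, h.osc, h.sl⟩

lemma Crv.Ce0 (h : Crv Ce e) (n : ℕ) : 0 ≤ Ce n := by
  have := (abs_nonneg _).trans (h.b n 0)
  simpa using this

lemma Crv.b1 (h : Crv Ce e) (n : ℕ) (t : ℝ) : |e (n + 1) t| ≤ Ce n := by
  refine (h.b n t).trans (mul_le_of_le_one_right (h.Ce0 n) (Real.exp_le_one_iff.2 ?_))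
  have := abs_nonneg t
  linarith

/-- curves of a class and second variable -/
abbrev Ix (Ce : ℕ → ℝ) : Type := {e : ℕ → ℝ → ℝ // Crv Ce e} × ℝ

/-- increments of the curve -/
lemma Crv.inc (h : Crv Ce e) (t s : ℝ) : |e 0 t - e 0 s| ≤ Ce 0 * |t - s| * Real.exp (|t - s| - |t|) := by
  have h1 := Convex.norm_image_sub_le_of_norm_hasDerivWithin_le (f := e 0) (f' := e 1)
    (C := Ce 0 * Real.exp (|t - s| - |t|)) (s := uIcc s t)
    (x := s) (y := t) (fun x _ => (h.d 0 x).hasDerivWithinAt) (fun x hx => by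
      rw [Real.norm_eq_abs]
      refine (h.b 0 x).trans (mul_le_mul_of_nonneg_left (Real.exp_le_exp.2 ?_) (h.Ce0 0))
      have h2 : |t - x| ≤ |t - s| := by
        rw [abs_sub_comm t x, abs_sub_comm t s]
        rw [mem_uIcc] at hx
        rcases hx with hx | hx
        · rw [abs_of_nonpos (by linarith), abs_of_nonpos (by linarith)]
          linarith
        · rw [abs_of_nonneg (by linarith), abs_of_nonneg (by linarith)]
          linarith
      have h3 := abs_sub_abs_le_abs_sub t x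
      linarith) (convex_uIcc s t) left_mem_uIcc right_mem_uIcc
  rw [Real.norm_eq_abs, Real.norm_eq_abs] at h1
  refine h1.trans (le_of_eq ?_)
  ring

/-- the increment of the curve with a weight -/
lemma ub_y {S : Ix Ce → Set ℝ} {W : Ix Ce → ℝ → ℝ} {K : ℝ} (hK : 0 ≤ K)
    (h1 : ∀ p, ∀ t ∈ S p, Real.exp (-|t|) ≤ K * W p t)
    (h2 : ∀ p, ∀ t ∈ S p, |p.1.1 0 t - p.1.1 0 p.2| ≤ K * W p t) (n : ℕ) :
    UB n S W (fun (p : Ix Ce) t => ((p.1.1 0 t - p.1.1 0 p.2 : ℝ) : ℂ)) := by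
  refine UB.of_tower (fun m (p : Ix Ce) t => if m = 0 then ((p.1.1 0 t - p.1.1 0 p.2 : ℝ) : ℂ) else (p.1.1 m t : ℂ))
    (fun m _ p t _ => ?_) (fun m _ => ?_)
  · rcases Nat.eq_zero_or_pos m with rfl | hm
    · simp only [if_true, if_neg (Nat.succ_ne_zero _), zero_add]
      exact ((p.1.2.d 0 t).sub_const _).ofReal_comp
    · simp only [if_neg (by omega : ¬ m = 0), if_neg (Nat.succ_ne_zero _)]
      exact (p.1.2.d m t).ofReal_comp
  · rcases Nat.eq_zero_or_pos m with rfl | hm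
    · refine ⟨K, hK, fun p t ht => ?_⟩
      simp only [if_true]
      rw [Complex.norm_real]
      exact h2 p t ht
    · obtain ⟨k, rfl⟩ : ∃ k, m = k + 1 := ⟨m - 1, by omega⟩
      refine ⟨|Ce k| * K, by positivity, fun p t ht => ?_⟩
      simp only [if_neg (Nat.succ_ne_zero _)]
      rw [Complex.norm_real, Real.norm_eq_abs, mul_assoc]
      refine (p.1.2.b k t).trans (mul_le_mul (le_abs_self _) (h1 p t ht) (Real.exp_pos _).le (abs_nonneg _))

/-! ### the quotient -/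

/-- derivatives of the quotient -/
def qn (e : ℕ → ℝ → ℝ) (s : ℝ) (m : ℕ) (t : ℝ) : ℂ := ∫ θ in (0 : ℝ)..1, (θ : ℂ) ^ m * Di (e (m + 1)) (s + θ * (t - s))

lemma qn_zero (e : ℕ → ℝ → ℝ) (s t : ℝ) : qn e s 0 t = qd (Di (e 1)) t s := by
  unfold qn qd
  simp

lemma Di_norm (η : ℝ → ℝ) (t : ℝ) : ‖Di η t‖ = |η t| := by
  unfold Di
  rw [norm_mul, Complex.norm_I, mul_one, Complex.norm_real, Real.norm_eq_abs]

lemma Crv.Dic (h : Crv Ce e) (n : ℕ) : Continuous (Di (e n)) := by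
  unfold Di
  exact (Complex.continuous_ofReal.comp (h.c n)).mul continuous_const

lemma Crv.qn_deriv (h : Crv Ce e) (s : ℝ) (m : ℕ) (t : ℝ) : HasDerivAt (qn e s m) (qn e s (m + 1) t) t := by
  have hc : ∀ k j (t : ℝ), Continuous fun θ : ℝ => (θ : ℂ) ^ k * Di (e j) (s + θ * (t - s)) := by
    intro k j t
    exact (Complex.continuous_ofReal.pow k).mul ((h.Dic j).comp (by fun_prop))
  have key := intervalIntegral.hasDerivAt_integral_of_dominated_loc_of_deriv_le (μ := volume) (𝕜 := ℝ)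
    (F := fun t θ => (θ : ℂ) ^ m * Di (e (m + 1)) (s + θ * (t - s)))
    (F' := fun t θ => (θ : ℂ) ^ (m + 1) * Di (e (m + 1 + 1)) (s + θ * (t - s)))
    (x₀ := t) (s := univ) (a := 0) (b := 1) (bound := fun _ => Ce (m + 1)) univ_mem
    (Eventually.of_forall fun t => (hc m (m + 1) t).aestronglyMeasurable)
    ((hc m (m + 1) t).intervalIntegrable _ _)
    (hc (m + 1) (m + 1 + 1) t).aestronglyMeasurable
    (Eventually.of_forall fun θ hθ t _ => by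
      rw [norm_mul, norm_pow, Complex.norm_real, Di_norm, uIoc_of_le zero_le_one] at *
      have h1 : ‖θ‖ ^ (m + 1) ≤ 1 := by
        refine pow_le_one₀ (norm_nonneg _) ?_
        rw [Real.norm_eq_abs, abs_of_pos hθ.1]
        exact hθ.2
      have h2 := h.b1 (m + 1) (s + θ * (t - s))
      have h3 := abs_nonneg (e (m + 1 + 1) (s + θ * (t - s)))
      nlinarith [norm_nonneg θ])
    (intervalIntegrable_const)
    (Eventually.of_forall fun θ _ t _ => by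
      have h1 : HasDerivAt (fun t : ℝ => s + θ * (t - s)) θ t := by
        simpa using (((hasDerivAt_id t).sub_const s).const_mul θ).const_add s
      have h2 : HasDerivAt (Di (e (m + 1))) (Di (e (m + 1 + 1)) (s + θ * (t - s))) (s + θ * (t - s)) :=
        (h.d (m + 1) _).ofReal_comp.mul_const I
      have h3 := (h2.scomp t h1).const_mul ((θ : ℂ) ^ m)
      refine h3.congr_deriv ?_
      rw [real_smul]
      ring)
  exact key.2

lemma Crv.qn_bd (h : Crv Ce e) {s t : ℝ} (hts : |t - s| < 2) (m : ℕ) :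
    ‖qn e s m t‖ ≤ Ce m * Real.exp 2 * Real.exp (-|t|) := by
  unfold qn
  have h1 : ∀ θ ∈ Set.uIoc (0 : ℝ) 1, ‖(θ : ℂ) ^ m * Di (e (m + 1)) (s + θ * (t - s))‖ ≤ Ce m * Real.exp 2 * Real.exp (-|t|) := by
    intro θ hθ
    rw [uIoc_of_le zero_le_one] at hθ
    rw [norm_mul, norm_pow, Complex.norm_real, Di_norm]
    have h1 : ‖θ‖ ^ m ≤ 1 := by
      refine pow_le_one₀ (norm_nonneg _) ?_
      rw [Real.norm_eq_abs, abs_of_pos hθ.1]
      exact hθ.2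
    have h2 := h.b m (s + θ * (t - s))
    have h3 : Real.exp (-|s + θ * (t - s)|) ≤ Real.exp 2 * Real.exp (-|t|) := by
      rw [← Real.exp_add]
      refine Real.exp_le_exp.2 ?_
      have h4 := abs_sub_abs_le_abs_sub t (s + θ * (t - s))
      have h5 : t - (s + θ * (t - s)) = (1 - θ) * (t - s) := by ring
      rw [h5, abs_mul, abs_of_nonneg (by linarith [hθ.2] : 0 ≤ 1 - θ)] at h4
      have h6 := abs_nonneg (t - s)
      nlinarith [hθ.1]
    have h4 := h.Ce0 m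
    calc ‖θ‖ ^ m * |e (m + 1) (s + θ * (t - s))| ≤ 1 * (Ce m * (Real.exp 2 * Real.exp (-|t|))) := by
          refine mul_le_mul h1 (h2.trans (mul_le_mul_of_nonneg_left h3 h4)) (abs_nonneg _) zero_le_one
      _ = _ := by ring
  have h2 := intervalIntegral.norm_integral_le_of_norm_le_const h1
  simpa using h2

lemma ub_q (n : ℕ) : UB n (fun p : Ix Ce => {t | |t - p.2| < 2}) (fun _ t => Real.exp (-|t|))
    (fun (p : Ix Ce) t => qd (Di (p.1.1 1)) t p.2) := by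
  have h := UB.of_tower (n := n) (S := fun p : Ix Ce => {t | |t - p.2| < 2}) (W := fun _ t => Real.exp (-|t|))
    (fun m p t => qn p.1.1 p.2 m t) (fun m _ p t _ => p.1.2.qn_deriv p.2 m t)
    (fun m _ => ⟨|Ce m| * Real.exp 2, by positivity, fun p t ht => (p.1.2.qn_bd ht m).trans (by
      have := le_abs_self (Ce m)
      gcongr)⟩)
  simpa only [qn_zero] using h

/-! ### near the diagonal -/

/-- near the diagonal -/
def S0 (Ce : ℕ → ℝ) (p : Ix Ce) : Set ℝ := {t | |t - p.2| < 2}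

/-- the weight near the diagonal -/
def W0 (Ce : ℕ → ℝ) (_ : Ix Ce) (t : ℝ) : ℝ := Real.exp (-|t|)

lemma W0_le (p : Ix Ce) (t : ℝ) : W0 Ce p t ≤ 1 := Real.exp_le_one_iff.2 (by
  have := abs_nonneg t
  linarith)

/-- the increment of the displacement -/
def dD (p : Ix Ce) (t : ℝ) : ℂ := Di (p.1.1 0) t - Di (p.1.1 0) p.2

lemma dD_eq (p : Ix Ce) (t : ℝ) : dD p t = ((p.1.1 0 t - p.1.1 0 p.2 : ℝ) : ℂ) * I := by
  unfold dD Di
  push_cast
  ring

lemma ub_dD (n : ℕ) : UB n (S0 Ce) (W0 Ce) dD := by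
  have h := ub_y (Ce := Ce) (S := S0 Ce) (W := W0 Ce) (K := 1 + |Ce 0| * 2 * Real.exp 2) (by positivity)
    (fun p t _ => by
      unfold W0
      have := Real.exp_pos (-|t|)
      have h2 : 0 ≤ |Ce 0| * 2 * Real.exp 2 := by positivity
      nlinarith)
    (fun p t ht => by
      have h1 := p.1.2.inc t p.2
      have h2 : |t - p.2| < 2 := ht
      have h3 : Real.exp (|t - p.2| - |t|) ≤ Real.exp 2 * Real.exp (-|t|) := by
        rw [← Real.exp_add]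
        exact Real.exp_le_exp.2 (by linarith)
      refine h1.trans ?_
      unfold W0
      calc Ce 0 * |t - p.2| * Real.exp (|t - p.2| - |t|) ≤ |Ce 0| * 2 * (Real.exp 2 * Real.exp (-|t|)) := by
            have := le_abs_self (Ce 0)
            gcongr
        _ ≤ _ := by
            have := Real.exp_pos (-|t|)
            nlinarith) n
  have h2 := h.mul1 (UB.cst I)
  have e1 : (fun (p : Ix Ce) (t : ℝ) => ((p.1.1 0 t - p.1.1 0 p.2 : ℝ) : ℂ) * I) = dD := by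
    funext p t
    rw [dD_eq]
  rw [e1] at h2
  exact h2

lemma shc_zero : NUKer.shc 0 = 1 := by
  unfold NUKer.shc
  rw [tsum_eq_single 0]
  · simp
  · intro n hn
    rw [zero_pow two_ne_zero, zero_pow hn, mul_zero]

lemma shc_eq : NUKer.shc = dslope Complex.sinh 0 := by
  funext w
  rcases eq_or_ne w 0 with rfl | hw
  · rw [shc_zero, dslope_same]
    have := (Complex.hasDerivAt_sinh 0).deriv
    rw [this, Complex.cosh_zero]
  · rw [dslope_of_ne _ hw, slope_def_field, Complex.sinh_zero, sub_zero, sub_zero, ← mul_shc w]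
    field_simp

lemma shc_diff : Differentiable ℂ NUKer.shc := by
  rw [shc_eq, ← differentiableOn_univ, Complex.differentiableOn_dslope univ_mem]
  exact Complex.differentiable_sinh.differentiableOn

lemma contDiff_re {F : ℂ → ℂ} (hF : Differentiable ℂ F) (n : ℕ) : ContDiff ℝ n fun x : ℝ => F x := by
  have h1 : ContDiff ℝ n F := (hF.contDiff (n := n)).restrict_scalars ℝ
  exact h1.comp Complex.ofRealCLM.contDiff

lemma xcoth_eq' (x : ℝ) : ((xcoth x : ℝ) : ℂ) = Complex.cosh x * (NUKer.shc x)⁻¹ ∧ NUKer.shc (x : ℂ) ≠ 0 := by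
  rcases eq_or_ne x 0 with rfl | hx
  · rw [xcoth_zero]
    push_cast
    rw [shc_zero, Complex.cosh_zero]
    simp
  · have h1 := xcoth_mul_sinh x
    have h2 : ((xcoth x : ℝ) : ℂ) * Complex.sinh x = x * Complex.cosh x := by
      rw [← Complex.ofReal_sinh, ← Complex.ofReal_cosh]
      exact_mod_cast h1
    have h3 := mul_shc (x : ℂ)
    have hs : Complex.sinh (x : ℂ) ≠ 0 := by
      rw [← Complex.ofReal_sinh]
      exact_mod_cast Real.sinh_ne_zero.2 hx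
    have hx' : (x : ℂ) ≠ 0 := by exact_mod_cast hx
    have h4 : NUKer.shc (x : ℂ) ≠ 0 := by
      intro h0
      rw [h0, mul_zero] at h3
      exact hs h3.symm
    refine ⟨?_, h4⟩
    rw [← h3] at h2
    have h5 : ((xcoth x : ℝ) : ℂ) * NUKer.shc x = Complex.cosh x := by
      apply mul_left_cancel₀ hx'
      linear_combination h2
    rw [← h5]
    field_simp

lemma xcoth_smooth (n : ℕ) : ContDiff ℝ n fun x : ℝ => ((xcoth x : ℝ) : ℂ) := by
  have e : (fun x : ℝ => ((xcoth x : ℝ) : ℂ)) = fun x : ℝ => Complex.cosh x * (NUKer.shc x)⁻¹ := by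
    funext x
    exact (xcoth_eq' x).1
  rw [e]
  exact (contDiff_re Complex.differentiable_cosh n).mul
    ((contDiff_re shc_diff n).inv fun x => (xcoth_eq' x).2)

lemma den_smooth {c : ℝ} (hc : c < 1) (n : ℕ) : ContDiff ℝ n fun x : ℝ => fE c x := by
  unfold fE
  refine contDiff_const.div (by fun_prop) fun x => ?_
  have := den_ge (c := c) x
  linarith

lemma fC_smooth {c : ℝ} (hc : c < 1) (n : ℕ) : ContDiff ℝ n fun x : ℝ => ((fC c x : ℝ) : ℂ) := by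
  unfold fC
  exact Complex.ofRealCLM.contDiff.comp ((by fun_prop : ContDiff ℝ n fun x : ℝ => Real.cosh (2 * x)).mul (den_smooth hc n))

lemma fS_smooth {c : ℝ} (hc : c < 1) (n : ℕ) : ContDiff ℝ n fun x : ℝ => ((fS c x : ℝ) : ℂ) := by
  unfold fS
  exact Complex.ofRealCLM.contDiff.comp ((by fun_prop : ContDiff ℝ n fun x : ℝ => Real.sinh (2 * x)).mul (den_smooth hc n))

lemma ub_Yc {c : ℝ} (hc : c < 1) (n : ℕ) :
    UB n (S0 Ce) (W0 Ce) (fun p t => Yc c (Di (p.1.1 0)) (Di (p.1.1 0)) t p.2) := by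
  have h1 : UB n (S0 Ce) (W0 Ce) (fun p t => Complex.cosh (2 * dD p t) - 1) :=
    (ub_dD n).entire0 (F := fun w => Complex.cosh (2 * w) - 1) (by fun_prop) (by simp) zero_le_one fun p t _ => W0_le p t
  have h2 : UB n (S0 Ce) (W0 Ce) (fun p t => Complex.sinh (2 * dD p t)) :=
    (ub_dD n).entire0 (F := fun w => Complex.sinh (2 * w)) (by fun_prop) (by simp) zero_le_one fun p t _ => W0_le p t
  have h3 := UB_smooth (β := {e : ℕ → ℝ → ℝ // Crv Ce e}) (b := 2) (fC_smooth hc n)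
  have h4 := UB_smooth (β := {e : ℕ → ℝ → ℝ // Crv Ce e}) (b := 2) (fS_smooth hc n)
  exact (h1.mul1 h3).add (h2.mul1 h4)

lemma ub_Y0 (n : ℕ) : UB n (S0 Ce) (W0 Ce) (fun p t => Y0 (Di (p.1.1 0)) (Di (p.1.1 1)) t p.2) := by
  have h1 : UB n (S0 Ce) (W0 Ce) (fun p t => Complex.cosh (dD p t) - 1) :=
    (ub_dD n).entire0 (F := fun w => Complex.cosh w - 1) (by fun_prop) (by simp) zero_le_one fun p t _ => W0_le p t
  have hd1 : UB n (S0 Ce) (fun _ _ => 1) dD := (ub_dD n).weight zero_le_one fun p t _ => by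
    rw [mul_one]
    exact W0_le p t
  have h2 := hd1.entire shc_diff
  have h3 := UB_smooth (β := {e : ℕ → ℝ → ℝ // Crv Ce e}) (b := 2) (xcoth_smooth n)
  have h4 : UB n (S0 Ce) (W0 Ce) (fun p t => qd (Di (p.1.1 1)) t p.2) := ub_q n
  have h5 := (h3.mul1' h4).mul1 h2
  exact h1.add h5

/-- own kernel -/
def kO (p : Ix Ce) (t : ℝ) : ℂ := ((ko (p.1.1 0) (p.1.1 1) t p.2 : ℝ) : ℂ)

/-- cross kernel -/
def kX (p : Ix Ce) (t : ℝ) : ℂ := ((kx (p.1.1 0) t p.2 : ℝ) : ℂ)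

lemma ub_kc {c : ℝ} (hc : c ≤ r) (n : ℕ) :
    UB n (S0 Ce) (W0 Ce) (fun p t => ((kc c (Di (p.1.1 0)) (Di (p.1.1 0)) t p.2 : ℝ) : ℂ)) := by
  have hr := r_hi
  refine UB_re ((ub_Yc (by linarith) n).log1 zero_le_one (fun p t _ => W0_le p t) fun p t _ => ?_)
  exact (p.1.2.bent.Yc hc t p.2).trans (by norm_num)

lemma ub_k0 (n : ℕ) :
    UB n (S0 Ce) (W0 Ce) (fun p t => ((k0 (Di (p.1.1 0)) (Di (p.1.1 1)) t p.2 : ℝ) : ℂ)) := by
  refine UB_re ((ub_Y0 n).log1 zero_le_one (fun p t _ => W0_le p t) fun p t _ => ?_)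
  exact (p.1.2.bent.Y0 t p.2).trans (by norm_num)

lemma kO_eq (p : Ix Ce) (t : ℝ) : kO p t = 2 * ((k0 (Di (p.1.1 0)) (Di (p.1.1 1)) t p.2 : ℝ) : ℂ) +
    ((kc 0 (Di (p.1.1 0)) (Di (p.1.1 0)) t p.2 : ℝ) : ℂ) - ((kc r (Di (p.1.1 0)) (Di (p.1.1 0)) t p.2 : ℝ) : ℂ) := by
  unfold kO ko kw
  push_cast
  ring

lemma kX_eq (p : Ix Ce) (t : ℝ) : kX p t = ((kc (-1) (Di (p.1.1 0)) (Di (p.1.1 0)) t p.2 : ℝ) : ℂ) -
    2 * ((kc (-r) (Di (p.1.1 0)) (Di (p.1.1 0)) t p.2 : ℝ) : ℂ) := by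
  unfold kX kx kg
  push_cast
  ring

lemma ub_kO0 (n : ℕ) : UB n (S0 Ce) (W0 Ce) kO := by
  have hr := r_lo
  have h := (((ub_k0 n).const_mul 2).add (ub_kc (Ce := Ce) (c := 0) (by linarith) n)).sub (ub_kc (c := r) le_rfl n)
  have e : (fun (p : Ix Ce) (t : ℝ) => 2 * ((k0 (Di (p.1.1 0)) (Di (p.1.1 1)) t p.2 : ℝ) : ℂ) +
    ((kc 0 (Di (p.1.1 0)) (Di (p.1.1 0)) t p.2 : ℝ) : ℂ) - ((kc r (Di (p.1.1 0)) (Di (p.1.1 0)) t p.2 : ℝ) : ℂ)) = kO := by
    funext p t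
    rw [kO_eq]
  rw [e] at h
  exact h

lemma ub_kX0 (n : ℕ) : UB n (S0 Ce) (W0 Ce) kX := by
  have hr := r_lo
  have h := (ub_kc (Ce := Ce) (c := -1) (by linarith) n).sub ((ub_kc (c := -r) (by linarith) n).const_mul 2)
  have e : (fun (p : Ix Ce) (t : ℝ) => ((kc (-1) (Di (p.1.1 0)) (Di (p.1.1 0)) t p.2 : ℝ) : ℂ) -
    2 * ((kc (-r) (Di (p.1.1 0)) (Di (p.1.1 0)) t p.2 : ℝ) : ℂ)) = kX := by
    funext p t
    rw [kX_eq]
  rw [e] at h
  exact h

/-! ### far from the diagonal -/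

section far

variable {η η1 : ℝ → ℝ}

/-- `exp (-2 σ (t - s))` -/
def p0 (σ t s : ℝ) : ℝ := Real.exp (-(2 * σ) * (t - s))

/-- the change of the exponential -/
def Uf (σ t s δ : ℝ) : ℂ := (p0 σ t s : ℂ) * (Complex.exp (-(2 * σ : ℝ) * I * (δ : ℂ)) - 1)

/-- relative change of `cosh 2z - c` up to a phase -/
def Zf (c σ t s δ : ℝ) : ℂ := Uf σ t s δ * (Uf σ t s δ + 2 * p0 σ t s - 2 * c) *
  (1 - 2 * c * p0 σ t s + (p0 σ t s : ℂ) ^ 2)⁻¹

/-- relative change of `sinh z` up to a phase -/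
def Z0f (σ t s δ : ℝ) : ℂ := -(Uf σ t s δ * (1 - (p0 σ t s : ℂ))⁻¹)

lemma p0_pos (σ t s : ℝ) : 0 < p0 σ t s := Real.exp_pos _

lemma p0_le {σ t s : ℝ} (h : 1 / 2 < σ * (t - s)) : p0 σ t s ≤ 37 / 100 := by
  unfold p0
  have h1 : Real.exp (-(2 * σ) * (t - s)) ≤ Real.exp (-1) := Real.exp_le_exp.2 (by linarith)
  have := Real.exp_neg_one_lt_d9
  linarith

lemma p0_lt {σ t s : ℝ} (h : 0 < σ * (t - s)) : p0 σ t s < 1 := by
  unfold p0
  rw [Real.exp_lt_one_iff]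
  linarith

lemma den_pos {c p : ℝ} (hc : c ≤ r) (hp : 0 < p) : 0 < 1 - 2 * c * p + p ^ 2 := by
  have h1 := r_sq
  have h2 := NUMF.r_pos
  have h3 : c * p ≤ r * p := mul_le_mul_of_nonneg_right hc hp.le
  nlinarith [sq_nonneg (p - r)]

lemma den_ge2 {c p : ℝ} (hc : c ≤ r) (hp : 0 < p) (hp1 : p ≤ 37 / 100) : 2 / 5 ≤ 1 - 2 * c * p + p ^ 2 := by
  have h2 := NUMF.r_pos
  have h1 := r_hi
  have h3 : c * p ≤ r * p := mul_le_mul_of_nonneg_right hc hp.le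
  nlinarith

lemma p0_add (σ t s δ : ℝ) : (p0 σ t s : ℂ) + Uf σ t s δ = Complex.exp (-(2 * σ : ℝ) * (((t - s : ℝ) : ℂ) + δ * I)) := by
  unfold Uf p0
  have e : (-(2 * σ : ℝ) * (((t - s : ℝ) : ℂ) + δ * I) : ℂ) = ((-(2 * σ) * (t - s) : ℝ) : ℂ) +
      (-(2 * σ : ℝ) * I * (δ : ℂ)) := by
    push_cast
    ring
  rw [e, Complex.exp_add, ← Complex.ofReal_exp]
  ring

lemma norm_Ef {σ t s δ : ℝ} :
    ‖Complex.exp ((2 * σ : ℝ) * (((t - s : ℝ) : ℂ) + δ * I))‖ * p0 σ t s = 1 := by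
  rw [Complex.norm_exp]
  have e : (((2 * σ : ℝ) : ℂ) * (((t - s : ℝ) : ℂ) + δ * I)).re = 2 * σ * (t - s) := by
    rw [Complex.re_ofReal_mul]
    simp
  rw [e]
  unfold p0
  rw [← Real.exp_add]
  ring_nf
  exact Real.exp_zero

lemma Bent.kc_far (h : Bent η η1) {c : ℝ} (hc : c ≤ r) {σ t s : ℝ} (hσ : σ = 1 ∨ σ = -1) (hx : 0 < σ * (t - s)) :
    kc c (Di η) (Di η) t s = (Complex.log (1 + Zf c σ t s (η t - η s))).re := by
  have hr := r_hi
  have hc1 : c < 1 := by linarith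
  rw [kc_eq, Complex.log_re]
  congr 1
  have h1 := den_mul hc1 (Di η) (Di η) t s
  rw [Di_z] at h1
  obtain ⟨δ, hδ⟩ : ∃ δ, δ = η t - η s := ⟨_, rfl⟩
  rw [← hδ] at h1 ⊢
  have hp := p0_pos σ t s
  have hp' := p0_add σ t s δ
  obtain ⟨p, hpd⟩ : ∃ p, p = Complex.exp (-(2 * σ : ℝ) * (((t - s : ℝ) : ℂ) + δ * I)) := ⟨_, rfl⟩
  obtain ⟨E, hE⟩ : ∃ E, E = Complex.exp ((2 * σ : ℝ) * (((t - s : ℝ) : ℂ) + δ * I)) := ⟨_, rfl⟩
  have hEn := norm_Ef (σ := σ) (t := t) (s := s) (δ := δ)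
  rw [← hE] at hEn
  rw [← hpd] at hp'
  have hEp : E * p = 1 := by
    rw [hE, hpd, ← Complex.exp_add, neg_mul, add_neg_cancel, Complex.exp_zero]
  have h2 : Complex.cosh (2 * (((t - s : ℝ) : ℂ) + δ * I)) = (E + p) / 2 := by
    rw [hE, hpd]
    rcases hσ with rfl | rfl
    · show (Complex.exp _ + Complex.exp _) / 2 = _
      congr 3 <;> push_cast <;> ring
    · show (Complex.exp _ + Complex.exp _) / 2 = _
      rw [add_comm]
      congr 3 <;> push_cast <;> ring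
  obtain ⟨P, hP⟩ : ∃ P, P = p0 σ t s := ⟨_, rfl⟩
  have h3 : Real.cosh (2 * (t - s)) = (P⁻¹ + P) / 2 := by
    rw [hP]
    unfold p0
    rw [← Real.exp_neg, Real.cosh_eq]
    rcases hσ with rfl | rfl
    · congr 3 <;> ring
    · rw [add_comm]
      congr 3 <;> ring
  rw [← hP] at hp hp' hEn
  have hden := den_pos hc hp
  have hP0 : (P : ℂ) ≠ 0 := by exact_mod_cast hp.ne'
  have h4 : E * (1 - 2 * c * p + p ^ 2) * P = ((1 - 2 * c * P + P ^ 2 : ℝ) : ℂ) * (1 + NUKer.Yc c (Di η) (Di η) t s) := by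
    rw [h2, h3] at h1
    push_cast at h1 ⊢
    have e1 : ((P : ℂ)⁻¹ + P) / 2 * P * 2 = 1 + P ^ 2 := by
      field_simp
    linear_combination (2 * (P : ℂ)) * h1 + (-2 * c * P + P * p) * hEp +
      (1 + NUKer.Yc c (Di η) (Di η) t s) * e1
  have h5 : ‖1 - 2 * (c : ℂ) * p + p ^ 2‖ = (1 - 2 * c * P + P ^ 2) * ‖1 + NUKer.Yc c (Di η) (Di η) t s‖ := by
    have := congrArg norm h4
    rw [norm_mul, norm_mul, norm_mul, Complex.norm_real, Complex.norm_real, Real.norm_of_nonneg hp.le,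
      Real.norm_of_nonneg hden.le] at this
    rw [← this]
    calc ‖1 - 2 * (c : ℂ) * p + p ^ 2‖ = (‖E‖ * P) * ‖1 - 2 * (c : ℂ) * p + p ^ 2‖ := by rw [hEn, one_mul]
      _ = _ := by ring
  have hd0 : ((1 - 2 * c * P + P ^ 2 : ℝ) : ℂ) ≠ 0 := by exact_mod_cast hden.ne'
  have h6 : 1 + Zf c σ t s δ = (1 - 2 * c * p + p ^ 2) / ((1 - 2 * c * P + P ^ 2 : ℝ) : ℂ) := by
    unfold Zf
    rw [← hP, eq_div_iff hd0]
    push_cast at hd0 ⊢
    have hU : Uf σ t s δ = p - P := by linear_combination hp'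
    rw [hU, add_mul, one_mul, mul_assoc _ (_)⁻¹ _, inv_mul_cancel₀ hd0, mul_one]
    ring
  rw [h6, norm_div, h5, Complex.norm_real, Real.norm_of_nonneg hden.le]
  field_simp

lemma Bent.k0_far (h : Bent η η1) {σ t s : ℝ} (hσ : σ = 1 ∨ σ = -1) (hx : 0 < σ * (t - s)) :
    k0 (Di η) (Di η1) t s = (Complex.log (1 + Z0f σ t s (η t - η s))).re := by
  rw [k0_eq, Complex.log_re]
  congr 1
  have h1 := sinh_mul h.Dd h.Dc t s
  rw [Di_z] at h1
  obtain ⟨δ, hδ⟩ : ∃ δ, δ = η t - η s := ⟨_, rfl⟩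
  rw [← hδ] at h1 ⊢
  have hp := p0_pos σ t s
  have hp1 := p0_lt hx
  have hp' := p0_add σ t s δ
  obtain ⟨z, hz⟩ : ∃ z : ℂ, z = ((t - s : ℝ) : ℂ) + δ * I := ⟨_, rfl⟩
  have hzr : z.re = t - s := by rw [hz]; simp
  rw [← hz] at h1 hp'
  obtain ⟨P, hP⟩ : ∃ P, P = p0 σ t s := ⟨_, rfl⟩
  rw [← hP] at hp hp1 hp'
  have h2 : ‖Complex.sinh z‖ = 1 / 2 * Real.exp (σ * (t - s)) * ‖1 - Complex.exp (-(2 * σ : ℝ) * z)‖ := by
    have e : Complex.sinh z = ((σ / 2 : ℝ) : ℂ) * (Complex.exp ((σ : ℂ) * z) * (1 - Complex.exp (-(2 * σ : ℝ) * z))) := by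
      have e2 : Complex.exp ((σ : ℂ) * z) * Complex.exp (-(2 * σ : ℝ) * z) = Complex.exp (-(σ : ℂ) * z) := by
        rw [← Complex.exp_add]
        congr 1
        push_cast
        ring
      rw [mul_sub, mul_one, e2]
      rcases hσ with rfl | rfl
      · show (Complex.exp z - Complex.exp (-z)) / 2 = _
        push_cast
        rw [one_mul, neg_one_mul]
        ring
      · show (Complex.exp z - Complex.exp (-z)) / 2 = _
        push_cast
        rw [neg_neg, one_mul, neg_one_mul]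
        ring
    rw [e, norm_mul, norm_mul, Complex.norm_real, Complex.norm_exp, Complex.re_ofReal_mul, hzr, Real.norm_eq_abs]
    have : |σ / 2| = 1 / 2 := by
      rcases hσ with rfl | rfl <;> norm_num [abs_div]
    rw [this]
    ring
  have h3 : |Real.sinh (t - s)| = 1 / 2 * Real.exp (σ * (t - s)) * (1 - P) := by
    have e1 : Real.exp (σ * (t - s)) * P = Real.exp (-(σ * (t - s))) := by
      rw [hP]
      unfold p0
      rw [← Real.exp_add]
      congr 1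
      ring
    have e2 : Real.sinh (σ * (t - s)) = 1 / 2 * Real.exp (σ * (t - s)) * (1 - P) := by
      rw [Real.sinh_eq, ← e1]
      ring
    rw [← e2]
    rcases hσ with rfl | rfl
    · rw [one_mul]
      exact abs_of_pos (Real.sinh_pos_iff.2 (by linarith))
    · rw [neg_one_mul, Real.sinh_neg]
      exact abs_of_neg (Real.sinh_neg_iff.2 (by linarith))
  have h4 := congrArg norm h1
  rw [norm_mul, Complex.norm_real, Real.norm_eq_abs, h2, h3] at h4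
  have hex := Real.exp_pos (σ * (t - s))
  have h5 : ‖1 - Complex.exp (-(2 * σ : ℝ) * z)‖ = (1 - P) * ‖1 + NUKer.Y0 (Di η) (Di η1) t s‖ := by
    have : (1 / 2 * Real.exp (σ * (t - s))) ≠ 0 := by positivity
    apply mul_left_cancel₀ this
    linarith
  have hd : 0 < 1 - P := by linarith
  have hd0 : (1 - (P : ℂ)) ≠ 0 := by
    have : ((1 - P : ℝ) : ℂ) ≠ 0 := by exact_mod_cast hd.ne'
    push_cast at this
    exact this
  have h6 : 1 + Z0f σ t s δ = (1 - Complex.exp (-(2 * σ : ℝ) * z)) / ((1 - P : ℝ) : ℂ) := by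
    unfold Z0f
    rw [← hP, ← hp']
    push_cast
    field_simp
    ring
  rw [h6, norm_div, h5, Complex.norm_real, Real.norm_of_nonneg hd.le]
  field_simp

end far

/-! ### far from the diagonal, all derivatives -/

/-- far from the diagonal, on one side -/
def S1 (Ce : ℕ → ℝ) (σ : ℝ) (p : Ix Ce) : Set ℝ := {t | 1 / 2 < σ * (t - p.2)}

/-- the weight of the curve -/
def Wy (Ce : ℕ → ℝ) (σ : ℝ) (p : Ix Ce) (t : ℝ) : ℝ :=
  min 1 (Real.exp (2 * σ * (t - p.2) - 1 / 2 * (|t| + |p.2|)))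

/-- **the weight** -/
def Wk (Ce : ℕ → ℝ) (p : Ix Ce) (t : ℝ) : ℝ :=
  min (Real.exp (-(2 * |t - p.2|))) (Real.exp (-(1 / 2 * (|t| + |p.2|))))

lemma S1_open (σ : ℝ) (p : Ix Ce) : IsOpen (S1 Ce σ p) :=
  isOpen_lt continuous_const (by fun_prop)

lemma S0_open (p : Ix Ce) : IsOpen (S0 Ce p) :=
  isOpen_lt (by fun_prop) continuous_const

lemma Wy_le (σ : ℝ) (p : Ix Ce) (t : ℝ) : Wy Ce σ p t ≤ 1 := min_le_left _ _

lemma Wk_nonneg (p : Ix Ce) (t : ℝ) : 0 ≤ Wk Ce p t := le_min (Real.exp_pos _).le (Real.exp_pos _).le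

lemma abs_x {σ x : ℝ} (hσ : σ = 1 ∨ σ = -1) (hx : 0 < σ * x) : |x| = σ * x := by
  rcases hσ with rfl | rfl
  · rw [one_mul] at hx ⊢
    exact abs_of_pos hx
  · rw [neg_one_mul] at hx ⊢
    exact abs_of_neg (by linarith)

lemma ub_yf {σ : ℝ} (hσ : σ = 1 ∨ σ = -1) (n : ℕ) :
    UB n (S1 Ce σ) (Wy Ce σ) (fun (p : Ix Ce) t => ((p.1.1 0 t - p.1.1 0 p.2 : ℝ) : ℂ)) := by
  refine ub_y (K := 1 + |Ce 0| * 2) (by positivity) (fun p t ht => ?_) (fun p t ht => ?_) n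
  · have ht' : 1 / 2 < σ * (t - p.2) := ht
    have hax := abs_x hσ (x := t - p.2) (by linarith)
    have h1 : Real.exp (-|t|) ≤ Wy Ce σ p t := by
      refine le_min (Real.exp_le_one_iff.2 (by have := abs_nonneg t; linarith)) (Real.exp_le_exp.2 ?_)
      have h2 := abs_sub_abs_le_abs_sub p.2 t
      rw [abs_sub_comm, hax] at h2
      linarith
    have h0 := (Real.exp_pos (-|t|)).le.trans h1
    have : 0 ≤ |Ce 0| * 2 := by positivity
    nlinarith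
  · have ht' : 1 / 2 < σ * (t - p.2) := ht
    have hax := abs_x hσ (x := t - p.2) (by linarith)
    obtain ⟨x, hx⟩ : ∃ x, x = σ * (t - p.2) := ⟨_, rfl⟩
    have h1 := p.1.2.inc t p.2
    have h1' := p.1.2.osc t p.2
    have h2 := abs_sub_abs_le_abs_sub p.2 t
    rw [abs_sub_comm, hax, ← hx] at h2
    rw [hax, ← hx] at h1
    rw [← hx] at ht'
    have hy0 := abs_nonneg (p.1.1 0 t - p.1.1 0 p.2)
    unfold Wy
    rw [show 2 * σ * (t - p.2) = 2 * x by rw [hx]; ring]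
    have h3 : x * Real.exp (x - |t|) ≤ 2 * Real.exp (2 * x - 1 / 2 * (|t| + |p.2|)) := by
      have h4 : x ≤ 2 * Real.exp (x / 2) := by
        have := Real.add_one_le_exp (x / 2)
        linarith
      have h5 : Real.exp (x / 2) * Real.exp (x - |t|) ≤ Real.exp (2 * x - 1 / 2 * (|t| + |p.2|)) := by
        rw [← Real.exp_add]
        exact Real.exp_le_exp.2 (by linarith)
      have h6 := Real.exp_pos (x - |t|)
      nlinarith
    have h4 : |p.1.1 0 t - p.1.1 0 p.2| ≤ |Ce 0| * 2 * Real.exp (2 * x - 1 / 2 * (|t| + |p.2|)) := by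
      refine h1.trans ?_
      calc Ce 0 * x * Real.exp (x - |t|) = Ce 0 * (x * Real.exp (x - |t|)) := by ring
        _ ≤ |Ce 0| * (2 * Real.exp (2 * x - 1 / 2 * (|t| + |p.2|))) := by
            have := le_abs_self (Ce 0)
            have h6 := Real.exp_pos (x - |t|)
            have h7 : 0 ≤ x * Real.exp (x - |t|) := by
              have : 0 < x := by linarith
              positivity
            exact mul_le_mul (le_abs_self _) h3 h7 (abs_nonneg _)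
        _ = _ := by ring
    have hE := Real.exp_pos (2 * x - 1 / 2 * (|t| + |p.2|))
    have hC : 0 ≤ |Ce 0| * 2 := by positivity
    rcases min_choice 1 (Real.exp (2 * x - 1 / 2 * (|t| + |p.2|))) with h | h
    · rw [h]
      linarith
    · rw [h]
      nlinarith

lemma ub_p0 {σ : ℝ} (hσ : σ = 1 ∨ σ = -1) (n : ℕ) :
    UB n (S1 Ce σ) (fun (p : Ix Ce) t => p0 σ t p.2) (fun (p : Ix Ce) t => ((p0 σ t p.2 : ℝ) : ℂ)) := by
  have h := UB.exp (S := S1 Ce σ) (n := n) (fun _ : Ix Ce => -(2 * σ)) (K := 2)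
    (fun _ => by rcases hσ with rfl | rfl <;> norm_num) (fun p => p.2)
  exact h

lemma ub_p01 {σ : ℝ} (hσ : σ = 1 ∨ σ = -1) (n : ℕ) :
    UB n (S1 Ce σ) (fun _ _ => 1) (fun (p : Ix Ce) t => ((p0 σ t p.2 : ℝ) : ℂ)) :=
  (ub_p0 hσ n).weight zero_le_one fun p t ht => by
    have ht' : 1 / 2 < σ * (t - p.2) := ht
    have := p0_le ht'
    linarith

lemma ub_Uf {σ : ℝ} (hσ : σ = 1 ∨ σ = -1) (n : ℕ) :
    UB n (S1 Ce σ) (Wk Ce) (fun (p : Ix Ce) t => Uf σ t p.2 (p.1.1 0 t - p.1.1 0 p.2)) := by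
  have h1 := (ub_yf (Ce := Ce) hσ n).entire0 (F := fun w => Complex.exp (-(2 * σ : ℝ) * I * w) - 1) (by fun_prop)
    (by simp) zero_le_one fun p t _ => Wy_le σ p t
  refine ((ub_p0 hσ n).mul h1).weight zero_le_one fun p t ht => ?_
  have ht' : 1 / 2 < σ * (t - p.2) := ht
  have hax := abs_x hσ (x := t - p.2) (by linarith)
  unfold Wk Wy p0
  rw [hax, one_mul, mul_min_of_nonneg _ _ (Real.exp_pos _).le, mul_one, ← Real.exp_add]
  refine le_of_eq ?_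
  congr 2 <;> ring

lemma norm_Uf {η η1 : ℝ → ℝ} (h : Bent η η1) {σ t s : ℝ} (hσ : σ = 1 ∨ σ = -1) (hx : 1 / 2 < σ * (t - s)) :
    ‖Uf σ t s (η t - η s)‖ ≤ 1 / 50 := by
  have h1 := p0_le hx
  have h0 := p0_pos σ t s
  have h2 := h.osc t s
  unfold Uf
  rw [norm_mul, Complex.norm_real, Real.norm_of_nonneg h0.le]
  have e : (-(2 * σ : ℝ) * I * ((η t - η s : ℝ) : ℂ) : ℂ) = I * ((-(2 * σ) * (η t - η s) : ℝ) : ℂ) := by
    push_cast
    ring
  rw [e]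
  have h3 := Real.norm_exp_I_mul_ofReal_sub_one_le (x := -(2 * σ) * (η t - η s))
  rw [Real.norm_eq_abs, abs_mul, abs_neg, abs_mul, abs_two] at h3
  have h4 : |σ| = 1 := by rcases hσ with rfl | rfl <;> norm_num
  rw [h4] at h3
  have h5 := norm_nonneg (Complex.exp (I * ((-(2 * σ) * (η t - η s) : ℝ) : ℂ)) - 1)
  nlinarith

lemma norm_Zf {η η1 : ℝ → ℝ} (h : Bent η η1) {c σ t s : ℝ} (hc : c ≤ r) (hc1 : -1 ≤ c) (hσ : σ = 1 ∨ σ = -1)
    (hx : 1 / 2 < σ * (t - s)) : ‖Zf c σ t s (η t - η s)‖ ≤ 1 / 2 := by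
  have hU := norm_Uf h hσ hx
  have h1 := p0_le hx
  have h0 := p0_pos σ t s
  have hr := r_hi
  have hd := den_ge2 hc h0 h1
  unfold Zf
  obtain ⟨U, hUd⟩ : ∃ U, U = Uf σ t s (η t - η s) := ⟨_, rfl⟩
  obtain ⟨P, hP⟩ : ∃ P, P = p0 σ t s := ⟨_, rfl⟩
  rw [← hUd] at hU ⊢
  rw [← hP] at h1 h0 hd ⊢
  have e : (1 - 2 * (c : ℂ) * P + (P : ℂ) ^ 2) = ((1 - 2 * c * P + P ^ 2 : ℝ) : ℂ) := by push_cast; ring
  rw [e, norm_mul, norm_mul, norm_inv, Complex.norm_real, Real.norm_of_nonneg (by linarith : 0 ≤ 1 - 2 * c * P + P ^ 2)]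
  have h2 : ‖U + 2 * (P : ℂ) - 2 * c‖ ≤ 3 := by
    refine (norm_sub_le _ _).trans ?_
    have h3 := norm_add_le U (2 * (P : ℂ))
    rw [norm_mul, Complex.norm_ofNat, Complex.norm_real, Real.norm_of_nonneg h0.le] at h3
    rw [norm_mul, Complex.norm_ofNat, Complex.norm_real, Real.norm_eq_abs]
    have h4 : |c| ≤ 1 := abs_le.2 ⟨hc1, by linarith⟩
    linarith
  have h3 : (1 - 2 * c * P + P ^ 2)⁻¹ ≤ 5 / 2 := by
    rw [inv_le_comm₀ (by linarith) (by norm_num)]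
    linarith
  have h4 : 0 ≤ (1 - 2 * c * P + P ^ 2)⁻¹ := by
    rw [inv_nonneg]
    linarith
  calc ‖U‖ * ‖U + 2 * (P : ℂ) - 2 * c‖ * (1 - 2 * c * P + P ^ 2)⁻¹ ≤ (1 / 50) * 3 * (5 / 2) := by gcongr
    _ ≤ _ := by norm_num

lemma norm_Z0f {η η1 : ℝ → ℝ} (h : Bent η η1) {σ t s : ℝ} (hσ : σ = 1 ∨ σ = -1)
    (hx : 1 / 2 < σ * (t - s)) : ‖Z0f σ t s (η t - η s)‖ ≤ 1 / 2 := by
  have hU := norm_Uf h hσ hx
  have h1 := p0_le hx
  have h0 := p0_pos σ t s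
  unfold Z0f
  obtain ⟨P, hP⟩ : ∃ P, P = p0 σ t s := ⟨_, rfl⟩
  rw [← hP] at h1 h0 ⊢
  have e : (1 - (P : ℂ)) = ((1 - P : ℝ) : ℂ) := by push_cast; ring
  rw [e, norm_neg, norm_mul, norm_inv, Complex.norm_real, Real.norm_of_nonneg (by linarith : 0 ≤ 1 - P)]
  have h3 : (1 - P)⁻¹ ≤ 2 := by
    rw [inv_le_comm₀ (by linarith) (by norm_num)]
    linarith
  have h4 : 0 ≤ (1 - P)⁻¹ := by
    rw [inv_nonneg]
    linarith
  calc ‖Uf σ t s (η t - η s)‖ * (1 - P)⁻¹ ≤ (1 / 50) * 2 := by gcongr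
    _ ≤ _ := by norm_num

lemma Wk_le (p : Ix Ce) (t : ℝ) : Wk Ce p t ≤ 1 := (min_le_left _ _).trans (Real.exp_le_one_iff.2 (by
  have := abs_nonneg (t - p.2)
  linarith))

lemma ub_kcf {c σ : ℝ} (hc : c ≤ r) (hc1 : -1 ≤ c) (hσ : σ = 1 ∨ σ = -1) (n : ℕ) :
    UB n (S1 Ce σ) (Wk Ce) (fun p t => ((kc c (Di (p.1.1 0)) (Di (p.1.1 0)) t p.2 : ℝ) : ℂ)) := by
  have hU := ub_Uf (Ce := Ce) hσ n
  have hU1 : UB n (S1 Ce σ) (fun _ _ => 1) (fun (p : Ix Ce) t => Uf σ t p.2 (p.1.1 0 t - p.1.1 0 p.2)) :=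
    hU.weight zero_le_one fun p t _ => by rw [mul_one]; exact Wk_le p t
  have hP := ub_p01 (Ce := Ce) hσ n
  have hden : UB n (S1 Ce σ) (fun _ _ => 1) (fun (p : Ix Ce) t => (1 - 2 * (c : ℂ) * (p0 σ t p.2 : ℂ) +
      (p0 σ t p.2 : ℂ) ^ 2)⁻¹) := by
    have h1 := ((UB.cst 1).sub (hP.const_mul (2 * (c : ℂ)))).add (hP.mul1 hP)
    have e : (fun (p : Ix Ce) t => 1 - 2 * (c : ℂ) * (p0 σ t p.2 : ℂ) + (p0 σ t p.2 : ℂ) * (p0 σ t p.2 : ℂ)) =
        fun (p : Ix Ce) t => 1 - 2 * (c : ℂ) * (p0 σ t p.2 : ℂ) + (p0 σ t p.2 : ℂ) ^ 2 := by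
      funext p t
      ring
    rw [e] at h1
    refine h1.inv (δ := 2 / 5) (by norm_num) fun p t ht => ?_
    have ht' : 1 / 2 < σ * (t - p.2) := ht
    have h2 := den_ge2 hc (p0_pos σ t p.2) (p0_le ht')
    have e2 : (1 - 2 * (c : ℂ) * (p0 σ t p.2 : ℂ) + (p0 σ t p.2 : ℂ) ^ 2) =
        ((1 - 2 * c * p0 σ t p.2 + p0 σ t p.2 ^ 2 : ℝ) : ℂ) := by push_cast; ring
    rw [e2, Complex.norm_real, Real.norm_of_nonneg (by linarith)]
    exact h2
  have hb : UB n (S1 Ce σ) (fun _ _ => 1) (fun (p : Ix Ce) t => Uf σ t p.2 (p.1.1 0 t - p.1.1 0 p.2) +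
      2 * (p0 σ t p.2 : ℂ) - 2 * (c : ℂ)) := (hU1.add (hP.const_mul 2)).sub (UB.cst (2 * (c : ℂ)))
  have hZ : UB n (S1 Ce σ) (Wk Ce) (fun (p : Ix Ce) t => Zf c σ t p.2 (p.1.1 0 t - p.1.1 0 p.2)) :=
    (hU.mul1 hb).mul1 hden
  have hL := UB_re (hZ.log1 zero_le_one (fun p t _ => Wk_le p t) fun p t ht => norm_Zf p.1.2.bent hc hc1 hσ ht)
  refine hL.congr (S1_open σ) fun p t ht => ?_
  have ht' : 1 / 2 < σ * (t - p.2) := ht
  rw [p.1.2.bent.kc_far hc hσ (by linarith)]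

lemma ub_k0f {σ : ℝ} (hσ : σ = 1 ∨ σ = -1) (n : ℕ) :
    UB n (S1 Ce σ) (Wk Ce) (fun p t => ((k0 (Di (p.1.1 0)) (Di (p.1.1 1)) t p.2 : ℝ) : ℂ)) := by
  have hU := ub_Uf (Ce := Ce) hσ n
  have hP := ub_p01 (Ce := Ce) hσ n
  have hden : UB n (S1 Ce σ) (fun _ _ => 1) (fun (p : Ix Ce) t => (1 - (p0 σ t p.2 : ℂ))⁻¹) := by
    refine ((UB.cst 1).sub hP).inv (δ := 1 / 2) (by norm_num) fun p t ht => ?_
    have ht' : 1 / 2 < σ * (t - p.2) := ht
    have h2 := p0_le ht'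
    have e2 : (1 - (p0 σ t p.2 : ℂ)) = ((1 - p0 σ t p.2 : ℝ) : ℂ) := by push_cast; ring
    rw [e2, Complex.norm_real, Real.norm_of_nonneg (by linarith)]
    linarith
  have hZ : UB n (S1 Ce σ) (Wk Ce) (fun (p : Ix Ce) t => Z0f σ t p.2 (p.1.1 0 t - p.1.1 0 p.2)) :=
    (hU.mul1 hden).neg
  have hL := UB_re (hZ.log1 zero_le_one (fun p t _ => Wk_le p t) fun p t ht => norm_Z0f p.1.2.bent hσ ht)
  refine hL.congr (S1_open σ) fun p t ht => ?_
  have ht' : 1 / 2 < σ * (t - p.2) := ht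
  rw [p.1.2.bent.k0_far hσ (by linarith)]

lemma ub_kO1 {σ : ℝ} (hσ : σ = 1 ∨ σ = -1) (n : ℕ) : UB n (S1 Ce σ) (Wk Ce) kO := by
  have hr := r_lo
  have h := (((ub_k0f hσ n).const_mul 2).add (ub_kcf (Ce := Ce) (c := 0) (by linarith) (by norm_num) hσ n)).sub
    (ub_kcf (c := r) le_rfl (by linarith) hσ n)
  have e : (fun (p : Ix Ce) (t : ℝ) => 2 * ((k0 (Di (p.1.1 0)) (Di (p.1.1 1)) t p.2 : ℝ) : ℂ) +
    ((kc 0 (Di (p.1.1 0)) (Di (p.1.1 0)) t p.2 : ℝ) : ℂ) - ((kc r (Di (p.1.1 0)) (Di (p.1.1 0)) t p.2 : ℝ) : ℂ)) = kO := by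
    funext p t
    rw [kO_eq]
  rw [e] at h
  exact h

lemma ub_kX1 {σ : ℝ} (hσ : σ = 1 ∨ σ = -1) (n : ℕ) : UB n (S1 Ce σ) (Wk Ce) kX := by
  have hr := r_lo
  have hr1 := r_hi
  have h := (ub_kcf (Ce := Ce) (c := -1) (by linarith) le_rfl hσ n).sub
    ((ub_kcf (c := -r) (by linarith) (by linarith) hσ n).const_mul 2)
  have e : (fun (p : Ix Ce) (t : ℝ) => ((kc (-1) (Di (p.1.1 0)) (Di (p.1.1 0)) t p.2 : ℝ) : ℂ) -
    2 * ((kc (-r) (Di (p.1.1 0)) (Di (p.1.1 0)) t p.2 : ℝ) : ℂ)) = kX := by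
    funext p t
    rw [kX_eq]
  rw [e] at h
  exact h

lemma W0_Wk (p : Ix Ce) {t : ℝ} (ht : t ∈ S0 Ce p) : W0 Ce p t ≤ Real.exp 4 * Wk Ce p t := by
  have ht' : |t - p.2| < 2 := ht
  unfold W0 Wk
  rw [mul_min_of_nonneg _ _ (Real.exp_pos _).le, ← Real.exp_add, ← Real.exp_add]
  have h2 := abs_sub_abs_le_abs_sub p.2 t
  rw [abs_sub_comm] at h2
  have h0 := abs_nonneg t
  refine le_min (Real.exp_le_exp.2 ?_) (Real.exp_le_exp.2 ?_) <;> linarith

lemma glue {f : Ix Ce → ℝ → ℂ} {n : ℕ} (h0 : UB n (S0 Ce) (W0 Ce) f) (h1 : UB n (S1 Ce 1) (Wk Ce) f)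
    (h2 : UB n (S1 Ce (-1)) (Wk Ce) f) : UB n (fun _ => univ) (Wk Ce) f := by
  have k0 : UB n (S0 Ce) (Wk Ce) f := h0.weight (Real.exp_pos 4).le fun p t ht => W0_Wk p ht
  have k1 := (k0.union h1 S0_open (S1_open 1) Wk_nonneg).union h2
    (fun p => (S0_open p).union (S1_open 1 p)) (S1_open (-1)) Wk_nonneg
  refine k1.subset fun p t _ => ?_
  by_cases h3 : |t - p.2| < 2
  · exact Or.inl (Or.inl h3)
  · rcases le_total 0 (t - p.2) with h4 | h4
    · rw [abs_of_nonneg h4] at h3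
      left
      right
      show 1 / 2 < 1 * (t - p.2)
      linarith
    · rw [abs_of_nonpos h4] at h3
      right
      show 1 / 2 < -1 * (t - p.2)
      linarith

/-- **all derivatives of the own kernel** -/
theorem ub_kO (Ce : ℕ → ℝ) (n : ℕ) : UB n (fun _ => univ) (Wk Ce) kO :=
  glue (ub_kO0 n) (ub_kO1 (Or.inl rfl) n) (ub_kO1 (Or.inr rfl) n)

/-- **all derivatives of the cross kernel** -/
theorem ub_kX (Ce : ℕ → ℝ) (n : ℕ) : UB n (fun _ => univ) (Wk Ce) kX :=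
  glue (ub_kX0 n) (ub_kX1 (Or.inl rfl) n) (ub_kX1 (Or.inr rfl) n)

end

end PLT.KF
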