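import Pool.Agent.PLT.KerR

/-!
# THETA, row B: real towers of the static kernels (helper69)

`exists_tow`: for all curves of a class real `t`-derivatives of `ko`, `kx`, jointly continuous, `≤ C` times both weights.
-/

set_option autoImplicit false

open MeasureTheory Set Filter Topology Complex

namespace PLT.KF

open NUMF NUKer NUAct NU42 UBc

noncomputable section

/-- a difference quotient against the derivative -/
lemma quot {f f1 f2 : ℝ → ℝ} (h1 : ∀ t, HasDerivAt f (f1 t) t) (h2 : ∀ t, HasDerivAt f1 (f2 t) t) {C : ℝ}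
    (hC : ∀ t, |f2 t| ≤ C) {h : ℝ} (hh : 0 < h) (t : ℝ) : |(f (t + h) - f t) / h - f1 t| ≤ C * h := by
  have hC0 : 0 ≤ C := (abs_nonneg _).trans (hC 0)
  have a : ∀ x ∈ Icc (0:ℝ) h, |f1 (t + x) - f1 t| ≤ C * h := by
    intro x hx
    have := Convex.norm_image_sub_le_of_norm_hasDerivWithin_le (f := f1) (f' := f2) (C := C) (s := univ)
      (x := t) (y := t + x) (fun y _ => (h2 y).hasDerivWithinAt) (fun y _ => hC y) convex_univ trivial trivial
    rw [Real.norm_eq_abs, Real.norm_eq_abs, add_sub_cancel_left, abs_of_nonneg hx.1] at this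
    exact this.trans (mul_le_mul_of_nonneg_left hx.2 hC0)
  have b := Convex.norm_image_sub_le_of_norm_hasDerivWithin_le (f := fun x => f (t + x) - x * f1 t)
    (f' := fun x => f1 (t + x) - f1 t) (C := C * h) (s := Icc 0 h) (x := 0) (y := h)
    (fun x _ => by
      have d1 : HasDerivAt (fun x => f (t + x)) (f1 (t + x)) x := (h1 (t + x)).comp_const_add t x
      have d2 : HasDerivAt (fun x : ℝ => x * f1 t) (f1 t) x := by simpa using (hasDerivAt_id x).mul_const (f1 t)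
      exact (d1.sub d2).hasDerivWithinAt)
    (fun x hx => a x hx) (convex_Icc 0 h) ⟨le_rfl, hh.le⟩ ⟨hh.le, le_rfl⟩
  simp only [add_zero, zero_mul, sub_zero] at b
  rw [Real.norm_eq_abs, Real.norm_eq_abs, abs_of_pos hh] at b
  have e : (f (t + h) - f t) / h - f1 t = (f (t + h) - h * f1 t - f t) / h := by
    field_simp
    ring
  rw [e, abs_div, abs_of_pos hh, div_le_iff₀ hh]
  exact b

/-- joint continuity of the derivatives -/
lemma tower_cont {A : ℕ → ℝ → ℝ → ℝ} {N : ℕ} {C : ℝ}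
    (hd : ∀ n, n < N → ∀ t s, HasDerivAt (fun t => A n t s) (A (n + 1) t s) t)
    (hb : ∀ n, n ≤ N → ∀ t s, |A n t s| ≤ C) (h0 : Continuous fun p : ℝ × ℝ => A 0 p.1 p.2) :
    ∀ n, n < N → Continuous fun p : ℝ × ℝ => A n p.1 p.2 := by
  intro n
  induction n with
  | zero => exact fun _ => h0
  | succ n ih =>
    intro hn
    have hc := ih (by omega)
    have hC0 : 0 ≤ C := (abs_nonneg _).trans (hb 0 (by omega) 0 0)
    have hu : TendstoUniformly (fun (k : ℕ) (p : ℝ × ℝ) => (A n (p.1 + 1 / ((k : ℝ) + 1)) p.2 - A n p.1 p.2) /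
        (1 / ((k : ℝ) + 1))) (fun p => A (n + 1) p.1 p.2) atTop := by
      rw [Metric.tendstoUniformly_iff]
      intro ε hε
      have ht : Tendsto (fun k : ℕ => C * (1 / ((k : ℝ) + 1))) atTop (𝓝 0) := by
        have := (tendsto_one_div_add_atTop_nhds_zero_nat (𝕜 := ℝ)).const_mul C
        rwa [mul_zero] at this
      filter_upwards [ht.eventually (gt_mem_nhds hε)] with k hk p
      rw [dist_comm, Real.dist_eq]
      refine lt_of_le_of_lt ?_ hk
      exact quot (f := fun t => A n t p.2) (f1 := fun t => A (n + 1) t p.2) (f2 := fun t => A (n + 2) t p.2)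
        (fun t => hd n (by omega) t p.2) (fun t => hd (n + 1) hn t p.2) (fun t => hb (n + 2) (by omega) t p.2)
        (by positivity) p.1
    refine hu.continuous (Frequently.of_forall fun k => ?_)
    have h1 : Continuous fun p : ℝ × ℝ => A n (p.1 + 1 / ((k : ℝ) + 1)) p.2 :=
      hc.comp ((continuous_fst.add continuous_const).prodMk continuous_snd)
    exact (h1.sub hc).div_const _

/-- Lipschitz in both variables -/
lemma joint {k : ℝ → ℝ → ℝ} {C : ℝ} (hs : ∀ t s, k t s = k s t) {k1 : ℝ → ℝ → ℝ}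
    (hd : ∀ t s, HasDerivAt (fun t => k t s) (k1 t s) t) (hb : ∀ t s, |k1 t s| ≤ C) :
    Continuous fun p : ℝ × ℝ => k p.1 p.2 := by
  have hC0 : 0 ≤ C := (abs_nonneg _).trans (hb 0 0)
  have a : ∀ t t' s, |k t s - k t' s| ≤ C * |t - t'| := by
    intro t t' s
    have := Convex.norm_image_sub_le_of_norm_hasDerivWithin_le (f := fun t => k t s) (f' := fun t => k1 t s) (C := C)
      (s := univ) (x := t') (y := t) (fun y _ => (hd y s).hasDerivWithinAt) (fun y _ => hb y s) convex_univ trivial trivial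
    rwa [Real.norm_eq_abs, Real.norm_eq_abs] at this
  rw [continuous_iff_continuousAt]
  intro p
  rw [ContinuousAt, tendsto_iff_dist_tendsto_zero]
  have hl : Tendsto (fun q : ℝ × ℝ => C * |q.1 - p.1| + C * |q.2 - p.2|) (𝓝 p) (𝓝 0) := by
    have hc : Continuous fun q : ℝ × ℝ => C * |q.1 - p.1| + C * |q.2 - p.2| := by fun_prop
    have := hc.tendsto p
    simpa using this
  refine squeeze_zero (fun _ => dist_nonneg) (fun q => ?_) hl
  rw [Real.dist_eq]
  have h1 := a q.1 p.1 q.2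
  have h2 := a q.2 p.2 p.1
  rw [hs q.2 p.1, hs p.2 p.1] at h2
  have h3 := abs_add_le (k q.1 q.2 - k p.1 q.2) (k p.1 q.2 - k p.1 p.2)
  rw [sub_add_sub_cancel] at h3
  linarith

/-- the weight -/
def wk (t s : ℝ) : ℝ := min (Real.exp (-(2 * |t - s|))) (Real.exp (-(1 / 2 * (|t| + |s|))))

lemma wk_le (t s : ℝ) : wk t s ≤ 1 := (min_le_left _ _).trans (Real.exp_le_one_iff.2 (by
  have := abs_nonneg (t - s)
  linarith))

lemma wk_nonneg (t s : ℝ) : 0 ≤ wk t s := le_min (Real.exp_pos _).le (Real.exp_pos _).le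

lemma wk1 (t s : ℝ) : wk t s ≤ Real.exp (-(2 * |t - s|)) := min_le_left _ _

lemma wk2 (t s : ℝ) : wk t s ≤ Real.exp (-(1 / 2 * (|t| + |s|))) := min_le_right _ _

/-- a symmetric kernel with `N` derivatives -/
structure Tw (N : ℕ) (C : ℝ) (k : ℝ → ℝ → ℝ) (A : ℕ → ℝ → ℝ → ℝ) : Prop where
  z : A 0 = k
  sy : ∀ t s, k t s = k s t
  d : ∀ n, n < N → ∀ t s, HasDerivAt (fun t => A n t s) (A (n + 1) t s) t
  b : ∀ n, n ≤ N → ∀ t s, |A n t s| ≤ C * wk t s
  c : ∀ n, n < N → Continuous fun p : ℝ × ℝ => A n p.1 p.2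

lemma tow_of {Ce : ℕ → ℝ} {f : Ix Ce → ℝ → ℂ} {k : (ℕ → ℝ → ℝ) → ℝ → ℝ → ℝ} (N : ℕ)
    (hf : UB (N + 1) (fun _ => univ) (Wk Ce) f) (hk : ∀ (p : Ix Ce) t, f p t = ((k p.1.1 t p.2 : ℝ) : ℂ))
    (hs : ∀ e, Crv Ce e → ∀ t s, k e t s = k e s t) :
    ∃ C : ℝ, 0 ≤ C ∧ ∀ e, Crv Ce e → ∃ A, Tw (N + 1) C (k e) A := by
  obtain ⟨A, C, hC, a0, a1, a2⟩ := hf.tower
  refine ⟨C, hC, fun e he => ?_⟩
  obtain ⟨B, hB⟩ : ∃ B : ℕ → ℝ → ℝ → ℝ, B = fun n t s => (A n (⟨e, he⟩, s) t).re := ⟨_, rfl⟩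
  have hz : B 0 = k e := by
    funext t s
    rw [hB]
    simp only
    rw [a0, hk, Complex.ofReal_re]
  have hd : ∀ n, n < N + 1 → ∀ t s, HasDerivAt (fun t => B n t s) (B (n + 1) t s) t := by
    intro n hn t s
    rw [hB]
    exact re_deriv (a1 n hn (⟨e, he⟩, s) t trivial)
  have hb : ∀ n, n ≤ N + 1 → ∀ t s, |B n t s| ≤ C * wk t s := by
    intro n hn t s
    have h1 := a2 n hn (⟨e, he⟩, s) t trivial
    rw [abs_of_nonneg (Wk_nonneg _ _)] at h1
    rw [hB]
    exact (Complex.abs_re_le_norm _).trans h1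
  have hb1 : ∀ n, n ≤ N + 1 → ∀ t s, |B n t s| ≤ C := fun n hn t s =>
    (hb n hn t s).trans (mul_le_of_le_one_right hC (wk_le t s))
  have h0 : Continuous fun p : ℝ × ℝ => B 0 p.1 p.2 := by
    rw [hz]
    exact joint (hs e he) (k1 := B 1) (C := C) (fun t s => by rw [← hz]; exact hd 0 (by omega) t s)
      (fun t s => hb1 1 (by omega) t s)
  exact ⟨B, hz, hs e he, hd, hb, tower_cont hd hb1 h0⟩

/-- **the towers of the own kernel** -/
theorem exists_towO (Ce : ℕ → ℝ) (N : ℕ) : ∃ C : ℝ, 0 ≤ C ∧ ∀ e, Crv Ce e → ∃ A, Tw (N + 1) C (ko (e 0) (e 1)) A :=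
  tow_of (k := fun e => ko (e 0) (e 1)) N (ub_kO Ce (N + 1)) (fun _ _ => rfl) fun _ he t s => he.bent.ko_symm t s

/-- **the towers of the cross kernel** -/
theorem exists_towX (Ce : ℕ → ℝ) (N : ℕ) : ∃ C : ℝ, 0 ≤ C ∧ ∀ e, Crv Ce e → ∃ A, Tw (N + 1) C (kx (e 0)) A :=
  tow_of (k := fun e => kx (e 0)) N (ub_kX Ce (N + 1)) (fun _ _ => rfl) fun e _ t s => kx_symm (e 0) t s

end

end PLT.KF
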