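import Pool.Agent.PLT.RefO

/-!
# Kernels with bounded pure derivatives (helper8, row B1d)

`KsD C c A`: `A 0` symmetric, jointly continuous, `A n` its derivatives in the first variable, `n ≤ 3`, all at most
`C exp (-2 |t - s|)` and `C exp (-c |t| - c |s|)`.
* **`KsD.kok`**: then `KOk` (joint continuity of the derivatives from the bounds of the next ones);
* **`KsD.ref_w2`**: the kernels on densities at height `h`: `W2 (M exp (-(c / 4) |h|))` in the frame of `h`.
-/

set_option autoImplicit false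

open MeasureTheory Set Filter Topology

namespace PLT.Tri

noncomputable section

variable {C K c h : ℝ} {A : ℕ → Bool → Bool → ℝ → ℝ → ℝ} {ν : Bool → ℝ → ℝ}

/-- kernels with bounded pure derivatives -/
structure KsD (C c : ℝ) (A : ℕ → Bool → Bool → ℝ → ℝ → ℝ) : Prop where
  d : ∀ n < 3, ∀ a b t s, HasDerivAt (fun x => A n a b x s) (A (n + 1) a b t s) t
  jc : ∀ a b, Continuous fun p : ℝ × ℝ => A 0 a b p.1 p.2
  b : ∀ n ≤ 3, ∀ a b t s, |A n a b t s| ≤ C * Real.exp (-(2 * |t - s|))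
  bc : ∀ n ≤ 3, ∀ a b t s, |A n a b t s| ≤ C * Real.exp (-(c * |t|) - c * |s|)
  sy : ∀ a b t s, A 0 a b t s = A 0 b a s t

/-- joint continuity of a derivative -/
theorem joint_cont {f f1 f2 : ℝ → ℝ → ℝ} (hc : Continuous fun p : ℝ × ℝ => f p.1 p.2)
    (h1 : ∀ t s, HasDerivAt (fun x => f x s) (f1 t s) t) (h2 : ∀ t s, HasDerivAt (fun x => f1 x s) (f2 t s) t)
    (hb : ∀ t s, |f2 t s| ≤ C) : Continuous fun p : ℝ × ℝ => f1 p.1 p.2 := by
  have hC : 0 ≤ C := (abs_nonneg _).trans (hb 0 0)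
  obtain ⟨F, hF⟩ : ∃ F : ℕ → ℝ × ℝ → ℝ,
      F = fun (n : ℕ) (p : ℝ × ℝ) => ((n : ℝ) + 1) * (f (p.1 + 1 / ((n : ℝ) + 1)) p.2 - f p.1 p.2) := ⟨_, rfl⟩
  have hFc : ∀ n, Continuous (F n) := by
    intro n
    rw [hF]
    have := hc.comp (by fun_prop : Continuous fun p : ℝ × ℝ => ((p.1 + 1 / ((n : ℝ) + 1), p.2) : ℝ × ℝ))
    exact continuous_const.mul (this.sub hc)
  have key : ∀ n : ℕ, ∀ p : ℝ × ℝ, |f1 p.1 p.2 - F n p| ≤ C * (1 / ((n : ℝ) + 1)) := by
    intro n p
    have hn : (0 : ℝ) < 1 / ((n : ℝ) + 1) := by positivity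
    obtain ⟨t, s⟩ := p
    have hlt : t < t + 1 / ((n : ℝ) + 1) := by linarith
    obtain ⟨ξ, hξ, e1⟩ := exists_hasDerivAt_eq_slope (fun x => f x s) (fun x => f1 x s) hlt
      (fun x _ => (h1 x s).continuousAt.continuousWithinAt) (fun x _ => h1 x s)
    obtain ⟨η, hη, e2⟩ := exists_hasDerivAt_eq_slope (fun x => f1 x s) (fun x => f2 x s) hξ.1
      (fun x _ => (h2 x s).continuousAt.continuousWithinAt) (fun x _ => h2 x s)
    have e3 : F n (t, s) = f1 ξ s := by
      rw [hF]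
      simp only at e1 ⊢
      rw [e1, add_sub_cancel_left]
      field_simp
    have hpos : 0 < ξ - t := by linarith [hξ.1]
    have e4 : f1 t s - f1 ξ s = -(f2 η s * (ξ - t)) := by
      rw [e2]
      field_simp
      ring
    rw [e3]
    simp only
    rw [e4, abs_neg, abs_mul, abs_of_pos hpos]
    have h3 : ξ - t ≤ 1 / ((n : ℝ) + 1) := by linarith [hξ.2]
    exact mul_le_mul (hb η s) h3 hpos.le hC
  have hu : TendstoUniformly F (fun p : ℝ × ℝ => f1 p.1 p.2) atTop := by
    rw [Metric.tendstoUniformly_iff]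
    intro ε hε
    have h3 : Tendsto (fun n : ℕ => C * (1 / ((n : ℝ) + 1))) atTop (𝓝 (C * 0)) :=
      tendsto_one_div_add_atTop_nhds_zero_nat.const_mul C
    rw [mul_zero] at h3
    filter_upwards [h3.eventually_lt_const hε] with n hn p
    rw [Real.dist_eq]
    exact (key n p).trans_lt hn
  exact hu.continuous (Frequently.of_forall hFc)

lemma exp_le_w {x y z : ℝ} (hx : z ≤ C * Real.exp (-x)) (hy : z ≤ C * Real.exp (-y)) (hC : 0 ≤ C) :
    z ≤ C * Real.exp (-(3 / 4 * x) - 1 / 4 * y) := by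
  rcases le_total x y with h | h
  · exact hy.trans (mul_le_mul_of_nonneg_left (Real.exp_le_exp.2 (by linarith)) hC)
  · exact hx.trans (mul_le_mul_of_nonneg_left (Real.exp_le_exp.2 (by linarith)) hC)

namespace KsD

lemma C0 (H : KsD C c A) : 0 ≤ C := by
  have := (abs_nonneg _).trans (H.b 0 (by norm_num) true true 0 0)
  simpa using this

lemma b32 (H : KsD C c A) {n : ℕ} (hn : n ≤ 3) (a b : Bool) (t s : ℝ) :
    |A n a b t s| ≤ C * Real.exp (-(3 / 2) * |t - s|) :=
  (H.b n hn a b t s).trans (mul_le_mul_of_nonneg_left (Real.exp_le_exp.2 (by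
    have := abs_nonneg (t - s)
    linarith)) H.C0)

lemma bC (H : KsD C c A) {n : ℕ} (hn : n ≤ 3) (a b : Bool) (t s : ℝ) : |A n a b t s| ≤ C :=
  (H.b n hn a b t s).trans (mul_le_of_le_one_right H.C0 (Real.exp_le_one_iff.2 (by
    have := abs_nonneg (t - s)
    linarith)))

/-- **the class of the solver** -/
theorem kok (H : KsD C c A) : KOk C (A 0) (A 1) (A 2) := by
  have c1 : ∀ a b, Continuous fun p : ℝ × ℝ => A 1 a b p.1 p.2 := fun a b =>
    joint_cont (H.jc a b) (fun t s => H.d 0 (by norm_num) a b t s) (fun t s => H.d 1 (by norm_num) a b t s)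
      (fun t s => H.bC (by norm_num) a b t s)
  have c2 : ∀ a b, Continuous fun p : ℝ × ℝ => A 2 a b p.1 p.2 := fun a b =>
    joint_cont (c1 a b) (fun t s => H.d 1 (by norm_num) a b t s) (fun t s => H.d 2 (by norm_num) a b t s)
      (fun t s => H.bC (by norm_num) a b t s)
  exact ⟨fun a b t s => H.d 0 (by norm_num) a b t s, fun a b t s => H.d 1 (by norm_num) a b t s, H.jc, c1, c2,
    fun a b t s => H.b32 (by norm_num) a b t s, fun a b t s => H.b32 (by norm_num) a b t s,
    fun a b t s => H.b32 (by norm_num) a b t s, H.sy⟩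

/-- both decays -/
lemma b2 (H : KsD C c A) {n : ℕ} (hn : n ≤ 3) (a b : Bool) (t s : ℝ) (hc : 0 ≤ c) :
    |A n a b t s| ≤ C * Real.exp (-(3 / 2 * |t - s|) - c / 4 * |s|) := by
  have h1 := exp_le_w (x := 2 * |t - s|) (y := c * |t| + c * |s|) (H.b n hn a b t s)
    ((H.bc n hn a b t s).trans (le_of_eq (by congr 2; ring))) H.C0
  refine h1.trans (mul_le_mul_of_nonneg_left (Real.exp_le_exp.2 ?_) H.C0)
  have := mul_nonneg hc (abs_nonneg t)
  nlinarith

/-- the potential of one species -/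
lemma pot1 (H : KsD C c A) {n : ℕ} (hn : n ≤ 3) (hc : 0 ≤ c) (hc2 : c ≤ 2) {μ : ℝ → ℝ}
    (hb : ∀ t, |μ t| ≤ K * Real.exp (-(5 / 2) * |t - h|)) (a b : Bool) (t : ℝ) :
    |∫ s, A n a b t s * μ s| ≤ 4 * (C * K) * Real.exp (-(c / 4 * |h|)) * Real.exp (-|t - h|) := by
  have hC := H.C0
  have hK : 0 ≤ K := by
    have := (abs_nonneg _).trans (hb h)
    simpa using this
  have hi : Integrable fun s : ℝ => C * K * Real.exp (-(c / 4 * |h|)) * Real.exp (-|t - h|) *
      Real.exp (-(1 / 2) * |t - s|) := by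
    have := (NUMF.int_exp_abs (b := 1 / 2) (by norm_num)).comp_sub_left t
    exact this.const_mul _
  have hp : ∀ s, ‖A n a b t s * μ s‖ ≤ C * K * Real.exp (-(c / 4 * |h|)) * Real.exp (-|t - h|) *
      Real.exp (-(1 / 2) * |t - s|) := by
    intro s
    rw [norm_mul, Real.norm_eq_abs, Real.norm_eq_abs]
    refine (mul_le_mul (H.b2 hn a b t s hc) (hb s) (abs_nonneg _) (by positivity)).trans ?_
    rw [show C * Real.exp (-(3 / 2 * |t - s|) - c / 4 * |s|) * (K * Real.exp (-(5 / 2) * |s - h|)) =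
      C * K * (Real.exp (-(3 / 2 * |t - s|) - c / 4 * |s|) * Real.exp (-(5 / 2) * |s - h|)) by ring,
      show C * K * Real.exp (-(c / 4 * |h|)) * Real.exp (-|t - h|) * Real.exp (-(1 / 2) * |t - s|) =
        C * K * (Real.exp (-(c / 4 * |h|)) * Real.exp (-|t - h|) * Real.exp (-(1 / 2) * |t - s|)) by ring,
      ← Real.exp_add, ← Real.exp_add, ← Real.exp_add]
    refine mul_le_mul_of_nonneg_left (Real.exp_le_exp.2 ?_) (by positivity)
    have t1 : |h| ≤ |s| + |s - h| := by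
      have := abs_add_le s (h - s)
      rw [add_sub_cancel, abs_sub_comm h s] at this
      exact this
    have t2 : |t - h| ≤ |t - s| + |s - h| := by
      have := abs_add_le (t - s) (s - h)
      rwa [sub_add_sub_cancel] at this
    have n1 := abs_nonneg (s - h)
    have t3 : c / 4 * |h| ≤ c / 4 * |s| + 1 / 2 * |s - h| := by
      have h4 : c / 4 * |h| ≤ c / 4 * (|s| + |s - h|) := mul_le_mul_of_nonneg_left t1 (by positivity)
      have h5 : c / 4 * |s - h| ≤ 1 / 2 * |s - h| := mul_le_mul_of_nonneg_right (by linarith) n1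
      linarith
    linarith
  have h4 : ∫ s : ℝ, Real.exp (-(1 / 2) * |t - s|) = 4 := by
    have e0 : ∫ s : ℝ, Real.exp (-(1 / 2) * |t - s|) = ∫ s : ℝ, Real.exp (-(1 / 2) * |s|) :=
      integral_sub_left_eq_self (fun s => Real.exp (-(1 / 2) * |s|)) volume t
    have e1 : ∫ s : ℝ, Real.exp (-(1 / 2) * |s|) = 2 * ∫ s in Ioi (0 : ℝ), Real.exp (-(1 / 2) * s) :=
      integral_comp_abs (f := fun s => Real.exp (-(1 / 2) * s))
    rw [e0, e1, integral_exp_mul_Ioi (by norm_num) 0]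
    norm_num
  have h5 := norm_integral_le_of_norm_le hi (ae_of_all _ hp)
  rw [integral_const_mul, h4, Real.norm_eq_abs] at h5
  linarith

/-- **the kernels on densities at height `h`** -/
theorem ref_w2 (H : KsD C c A) (hc : 0 ≤ c) (hc2 : c ≤ 2) (hν : ∀ a, Continuous (ν a))
    (hb : ∀ a t, |ν a t| ≤ K * Real.exp (-(5 / 2) * |t - h|)) (a : Bool) :
    W2 (8 * (C * K) * Real.exp (-(c / 4 * |h|))) (fun s => kop (A 0) ν a (s + h)) (fun s => kop (A 1) ν a (s + h))
      (fun s => kop (A 2) ν a (s + h)) := by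
  have hnd : ∀ a, Nd (K * Real.exp |h|) (ν a) := fun a => nd_of_dec (hν a) (hb a)
  have hw := kop_w2 H.kok hnd a
  have bd : ∀ n ≤ 2, ∀ s : ℝ, |kop (A n) ν a (s + h)| ≤
      8 * (C * K) * Real.exp (-(c / 4 * |h|)) * Real.exp (-|s|) := by
    intro n hn s
    have h1 := H.pot1 (n := n) (by omega) hc hc2 (hb true) a true (s + h)
    have h2 := H.pot1 (n := n) (by omega) hc hc2 (hb false) a false (s + h)
    rw [add_sub_cancel_right] at h1 h2
    unfold kop
    refine (abs_add_le _ _).trans ((add_le_add h1 h2).trans (le_of_eq ?_))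
    ring
  have hd : ∀ {f f' : ℝ → ℝ}, (∀ t, HasDerivAt f (f' t) t) → ∀ s, HasDerivAt (fun s => f (s + h)) (f' (s + h)) s := by
    intro f f' hf s
    have h1 : HasDerivAt (fun x : ℝ => x + h) 1 s := (hasDerivAt_id s).add_const h
    have h2 := (hf (s + h)).comp s h1
    rw [mul_one] at h2
    exact h2
  exact ⟨hd hw.d1, hd hw.d2, hw.c2.comp (by fun_prop), bd 0 (by norm_num), bd 1 (by norm_num), bd 2 le_rfl⟩

end KsD

end

end PLT.Tri
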