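import Pool.Agent.PLT.KerT
import Pool.Agent.PLT.KokC
import Pool.Agent.PLT.KokA
import Pool.Agent.PLT.DatOc

/-!
# The static kernels of the class `SeaC` as `KsD` and (O1) (helper9)

* **`PLT.Cv.exists_ksD B`**: one constant, every sea: `A` with `A 0 = ksC` and `Tri.KsD C (1 / 2) A`;
* **`PLT.Cv.o1C B`**: `Tri.O1 (3 / 4) ksC`.
-/

set_option autoImplicit false

open MeasureTheory Set Filter Topology Complex

namespace PLT.Cv

open PLT.KF

noncomputable section

/-- the static kernels are the four kernels of the curve -/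
theorem ksC_eq_k4 [SeaC] : ksC = k4 eta (deriv eta) := rfl

/-- **the static kernels of all seas, with derivatives** -/
theorem exists_ksD (B : SeaCB) : ∃ C : ℝ, ∀ [SeaC] [SeaCU B],
    ∃ A : ℕ → Bool → Bool → ℝ → ℝ → ℝ, A 0 = ksC ∧ Tri.KsD C (1 / 2) A := by
  obtain ⟨C, hC, h⟩ := exists_towC B 3
  refine ⟨C, fun {_} {_} => ?_⟩
  obtain ⟨⟨Ao, ho⟩, ⟨Ax, hx⟩⟩ := h
  obtain ⟨A, hA⟩ : ∃ A : ℕ → Bool → Bool → ℝ → ℝ → ℝ, A = fun n a b => if a = b then Ao n else Ax n := ⟨_, rfl⟩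
  have e : ∀ (P : (ℝ → ℝ → ℝ) → Prop) (n : ℕ) (a b : Bool), P (Ao n) → P (Ax n) → P (A n a b) := by
    intro P n a b h1 h2
    rw [hA]
    simp only
    split_ifs
    · exact h1
    · exact h2
  refine ⟨A, ?_, ⟨fun n hn a b t s => ?_, fun a b => ?_, fun n hn a b t s => ?_, fun n hn a b t s => ?_,
    fun a b t s => ?_⟩⟩
  · rw [ksC_eq_k4, hA]
    funext a b
    simp only [k4]
    rw [ho.z, hx.z]
  · rw [hA]
    simp only
    split_ifs
    · exact ho.d n (by omega) t s
    · exact hx.d n (by omega) t s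
  · exact e (fun k => Continuous fun p : ℝ × ℝ => k p.1 p.2) 0 a b (ho.c 0 (by norm_num)) (hx.c 0 (by norm_num))
  · refine e (fun k => |k t s| ≤ C * Real.exp (-(2 * |t - s|))) n a b ?_ ?_
    · exact (ho.b n (by omega) t s).trans (mul_le_mul_of_nonneg_left (wk1 t s) hC)
    · exact (hx.b n (by omega) t s).trans (mul_le_mul_of_nonneg_left (wk1 t s) hC)
  · have e2 : Real.exp (-(1 / 2 * |t|) - 1 / 2 * |s|) = Real.exp (-(1 / 2 * (|t| + |s|))) := by
      congr 1
      ring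
    rw [e2]
    refine e (fun k => |k t s| ≤ C * Real.exp (-(1 / 2 * (|t| + |s|)))) n a b ?_ ?_
    · exact (ho.b n (by omega) t s).trans (mul_le_mul_of_nonneg_left (wk2 t s) hC)
    · exact (hx.b n (by omega) t s).trans (mul_le_mul_of_nonneg_left (wk2 t s) hC)
  · rw [hA]
    simp only [eq_comm (a := b) (b := a)]
    split_ifs
    · rw [ho.z]
      exact ho.sy t s
    · rw [hx.z]
      exact hx.sy t s

/-- **(O1)** for every sea -/
theorem o1C (B : SeaCB) : ∀ [SeaC] [SeaCU B], Tri.O1 (3 / 4) ksC := by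
  intro _ _
  rw [ksC_eq_k4]
  exact (bentC B).triO1

end

end PLT.Cv
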