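import Pool.Agent.PLT.LetOw
import Pool.Agent.PLT.CntX
import Pool.Agent.PLT.HCb
import Pool.Agent.PHK.GainA
import Pool.Agent.PHK.GL6

/-!
# The own factors of the letters over a content at complex places, with their sea term

* `okA A B L`: no pole of the list `L` at the places of `[A / 8, B / 8]`; `rf_okA`: a factor off the
  content;
* `cwX_bd`: the cloud of one row is `- rs log cosh`;
* `gC c a t u τ`: the gain of a letter over the content;
* `OwnD`: the data (rows = content and further rows, ends off the content);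
* **`ownC6`**: own factor times the sea term at most `C A⁴ e^{-|τ|} cut exp (-gC)`;
* **`ownC6P`**: with the linear term `pl6`, absorbed by the price of the own rows (gain `gC'`);
* **`ownC6D`**: class D1.
-/

set_option autoImplicit false
set_option linter.unusedSectionVars false
set_option linter.unusedVariables false
set_option linter.unusedSimpArgs false

noncomputable section

open Set

namespace PLT

open NURow (HT)
open PHK PBR.PLX
open NUP1 (l)
open NUGC (cut)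
open Pool.Agent.PLX (RU)

/-! ### factors off the content -/

/-- no pole of the list at the places of `[A / 8, B / 8]` -/
def okA (A B : ℤ) (L : List (ℤ × ℤ)) : Bool :=
  L.all fun je => decide (0 ≤ je.2) || (decide (1 ≤ A + 8 * je.1) && decide (B + 8 * je.1 ≤ 63)) ||
    (decide (B + 8 * je.1 ≤ -1) && decide (-63 ≤ A + 8 * je.1))

/-- the window of a row -/
def wAO : HT → ℤ × ℤ
  | .W => (6, 18)
  | .F => (-26, -14)
  | .P => (-26, -14)
  | .H => (1, 13)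

/-- the window of an end -/
def wEO : HT → ℤ × ℤ
  | .W => (6, 12)
  | .F => (-26, -20)
  | .P => (-26, -20)
  | .H => (1, 7)

private theorem okA_Lo (t : HT) (u : Ch6) : okA (wAO t).1 (wAO t).2 (Lo t u) = true := by
  obtain ⟨u1, u2⟩ := u
  cases t <;> cases u1 <;> cases u2 <;> decide

private theorem okA_Lx (t : HT) (u : Ch6) : okA (wAO t).1 (wAO t).2 (Lx t u) = true := by
  obtain ⟨u1, u2⟩ := u
  cases t <;> cases u1 <;> cases u2 <;> decide

private theorem okA_Lp (t : HT) (u : Ch6) : okA (wEO t).1 (wEO t).2 (Lp t u) = true := by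
  obtain ⟨u1, u2⟩ := u
  cases t <;> cases u1 <;> cases u2 <;> decide

private theorem okA_Lq (t : HT) (u : Ch6) : okA (wEO t).1 (wEO t).2 (Lq t u) = true := by
  obtain ⟨u1, u2⟩ := u
  cases t <;> cases u1 <;> cases u2 <;> decide

private theorem rn_L (t : HT) (u : Ch6) : rn (Lo t u) ≤ 20 ∧ rn (Lx t u) ≤ 20 ∧ rn (Lp t u) ≤ 20 ∧
    rn (Lq t u) ≤ 20 := by
  obtain ⟨u1, u2⟩ := u
  cases t <;> cases u1 <;> cases u2 <;> decide

private theorem rs_L {t : HT} {u : Ch6} (hu : okC6 t u) : rs (Lx t u) = -rs (Lo t u) ∧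
    rs (Lp t u) + rs (Lq t u) = -1 := by
  obtain ⟨u1, u2⟩ := u
  cases t <;> cases u1 <;> cases u2 <;> revert hu <;> decide

private theorem okA_win {A B : ℤ} {L : List (ℤ × ℤ)} (h : okA A B L = true) {v : ℝ}
    (h1 : (A : ℝ) / 8 ≤ v) (h2 : v ≤ (B : ℝ) / 8) : ∀ je ∈ L, je.2 < 0 →
    1 / 8 ≤ |v + je.1| ∧ |v + je.1| ≤ 8 - 1 / 8 := by
  intro je hje hn
  have h3 := List.all_eq_true.1 h je hje
  simp only [Bool.or_eq_true, Bool.and_eq_true, decide_eq_true_eq] at h3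
  rcases h3 with (h3 | ⟨h3, h4⟩) | ⟨h3, h4⟩
  · omega
  · have a1 : (1 : ℝ) ≤ A + 8 * je.1 := by exact_mod_cast h3
    have a2 : (B : ℝ) + 8 * je.1 ≤ 63 := by exact_mod_cast h4
    constructor
    · rw [le_abs]; left; linarith
    · rw [abs_le]; constructor <;> linarith
  · have a1 : (B : ℝ) + 8 * je.1 ≤ -1 := by exact_mod_cast h3
    have a2 : (-63 : ℝ) ≤ A + 8 * je.1 := by exact_mod_cast h4
    constructor
    · rw [le_abs]; right; linarith
    · rw [abs_le]; constructor <;> linarith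

/-- the hyperbolic cosine at a shifted height -/
private theorem cosh_zp {τ y h0 : ℝ} (hy : |y| ≤ h0) (e : ℤ) :
    Real.cosh (τ - y) ^ e ≤ Real.exp (h0 * (e.natAbs : ℝ)) * Real.cosh τ ^ e := by
  have hl := abs_le.1 (log_cosh_lip (τ - y) τ)
  rw [show τ - y - τ = -y by ring, abs_neg] at hl
  have c1 := Real.cosh_pos (τ - y)
  have c2 := Real.cosh_pos τ
  have k : ∀ c : ℝ, 0 < c → c ^ e = Real.exp (e * Real.log c) := by
    intro c hc
    rw [← Real.rpow_intCast, Real.rpow_def_of_pos hc, mul_comm]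
  rw [k _ c1, k _ c2, ← Real.exp_add]
  refine Real.exp_le_exp.2 ?_
  have e1 : ((e.natAbs : ℕ) : ℝ) = |(e : ℝ)| := by
    rw [← Int.cast_abs, Int.abs_eq_natAbs]
    simp
  rw [e1]
  have h1 : (e : ℝ) * (Real.log (Real.cosh (τ - y)) - Real.log (Real.cosh τ)) ≤ |(e : ℝ)| * h0 := by
    refine (le_abs_self _).trans ?_
    rw [abs_mul]
    refine mul_le_mul_of_nonneg_left ?_ (abs_nonneg _)
    rw [abs_le]
    constructor <;> linarith
  linarith

/-- the constant of a factor off the content -/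
def cRO (h0 : ℝ) : ℝ := ((sd (1 / 8))⁻¹) ^ 20 * Real.exp (20 * h0)

theorem one_le_cRO {h0 : ℝ} (hh : 0 ≤ h0) : 1 ≤ cRO h0 := by
  have hs := sd_pos (d := 1 / 8) (by norm_num) (by norm_num)
  have hs1 : 1 ≤ (sd (1 / 8))⁻¹ := (one_le_inv₀ hs).2 (Real.sin_le_one _)
  have h1 : 1 ≤ Real.exp (20 * h0) := Real.one_le_exp (by positivity)
  have h2 := one_le_pow₀ hs1 (n := 20)
  unfold cRO
  nlinarith

private theorem rs_le_rn (L : List (ℤ × ℤ)) : (rs L).natAbs ≤ rn L := by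
  induction L with
  | nil => simp [rs, rn]
  | cons a L ih =>
    rw [rs_cons, rn_cons]
    have := Int.natAbs_add_le a.2 (rs L)
    omega

/-- **a factor off the content** -/
theorem rf_okA {A B : ℤ} {L : List (ℤ × ℤ)} (h : okA A B L = true) (hn : rn L ≤ 20) {r τ h0 : ℝ}
    {x : ℂ} (hh : 0 ≤ h0) (h1 : (A : ℝ) / 8 * l ≤ r - x.re) (h2 : r - x.re ≤ (B : ℝ) / 8 * l)
    (h3 : |x.im| ≤ h0) : rf L (NUP1.vl r τ - x) ≤ cRO h0 * Real.cosh τ ^ rs L := by
  have hl := NUP1.l_pos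
  have hre : (NUP1.vl r τ - x).re = r - x.re := by simp [NUP1.vl]
  have him : (NUP1.vl r τ - x).im = τ - x.im := by simp [NUP1.vl]
  have w := okA_win h (v := (r - x.re) / l) (by rw [le_div_iff₀ hl]; exact h1)
    (by rw [div_le_iff₀ hl]; exact h2)
  have b := rf_bd (d := 1 / 8) (by norm_num) (by norm_num) (L := L) (z := NUP1.vl r τ - x)
    fun je hje hneg => by
      obtain ⟨a1, a2⟩ := w je hje hneg
      have e : (NUP1.vl r τ - x).re + je.1 * l = ((r - x.re) / l + je.1) * l := by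
        rw [hre]
        field_simp
      rw [e, abs_mul, abs_of_pos hl]
      exact ⟨mul_le_mul_of_nonneg_right a1 hl.le, by
        rw [← sub_mul]
        exact mul_le_mul_of_nonneg_right a2 hl.le⟩
  rw [him] at b
  have hs := sd_pos (d := 1 / 8) (by norm_num) (by norm_num)
  have hs1 : 1 ≤ (sd (1 / 8))⁻¹ := (one_le_inv₀ hs).2 (Real.sin_le_one _)
  have c1 := cosh_zp (τ := τ) h3 (rs L)
  have c2 := Real.cosh_pos τ
  have n1 : (((rs L).natAbs : ℕ) : ℝ) ≤ 20 := by exact_mod_cast (rs_le_rn L).trans hn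
  have e2 : Real.exp (h0 * ((rs L).natAbs : ℝ)) ≤ Real.exp (20 * h0) :=
    Real.exp_le_exp.2 (by nlinarith)
  unfold cRO
  calc _ ≤ ((sd (1 / 8))⁻¹) ^ rn L * Real.cosh (τ - x.im) ^ rs L := b
    _ ≤ ((sd (1 / 8))⁻¹) ^ 20 * (Real.exp (20 * h0) * Real.cosh τ ^ rs L) := by
        refine mul_le_mul (pow_le_pow_right₀ hs1 hn) (c1.trans ?_)
          (zpow_nonneg (Real.cosh_pos _).le _) (by positivity)
        exact mul_le_mul_of_nonneg_right e2 (zpow_nonneg c2.le _)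
    _ = _ := by ring

/-! ### the cloud of a row -/

/-- sum of the coefficients of a word -/
def cS (L : List (ℤ × ℝ)) : ℝ := (L.map fun kc => kc.2).sum

/-- sum of the moduli of the coefficients of a word -/
def cN (L : List (ℤ × ℝ)) : ℝ := (L.map fun kc => |kc.2|).sum

private theorem cN_nonneg (L : List (ℤ × ℝ)) : 0 ≤ cN L := List.sum_nonneg fun b hb => by
  obtain ⟨y, -, rfl⟩ := List.mem_map.1 hb
  exact abs_nonneg _

private theorem cS_le (L : List (ℤ × ℝ)) : |cS L| ≤ cN L := by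
  induction L with
  | nil => simp [cS, cN]
  | cons a L ih =>
    unfold cS cN at ih ⊢
    rw [List.map_cons, List.sum_cons, List.map_cons, List.sum_cons]
    exact (abs_add_le _ _).trans (by linarith)

private theorem cS_wl (t : HT) {u : Ch6} (hu : okC6 t u) : cS (wl6 t u true) = -(rs (Lo t u) : ℝ) ∧
    cS (wl6 t u false) = -(rs (Lx t u) : ℝ) := by
  obtain ⟨u1, u2⟩ := u
  cases t <;> cases u1 <;> cases u2 <;> (try (revert hu; decide)) <;> (clear hu) <;>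
    constructor <;>
    norm_num [cS, rs, Lo, Lx, wl6, NUSp.wc, NUSp.wX, NUSp.wY, wcs, wcg, wXs, wYs, wXg, wYg]

private theorem cN_wl (t : HT) (u : Ch6) (o : Bool) : cN (wl6 t u o) ≤ 20 := by
  obtain ⟨u1, u2⟩ := u
  cases t <;> cases u1 <;> cases u2 <;> cases o <;>
    norm_num [cN, wl6, NUSp.wc, NUSp.wX, NUSp.wY, wcs, wcg, wXs, wYs, wXg, wYg]

private theorem hl_bd {C1 : ℝ} (hC : ∀ y t, |y| ≤ 19 / 4 * NUMF.l →
    |Hc t y - 2 * Real.log (Real.cosh t)| ≤ C1) {y : ℝ} (hy : |y| ≤ 19 / 4) (s : ℝ) :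
    |hl y s - Real.log (Real.cosh s)| ≤ C1 / 2 + 1 := by
  have hl0 := NUMF.l_pos
  have h := hC (y * NUMF.l) s (by
    rw [abs_mul, abs_of_pos hl0]
    exact mul_le_mul_of_nonneg_right hy hl0.le)
  have h2 : 0 < Real.log 2 := Real.log_pos (by norm_num)
  have h3 : Real.log 2 ≤ 1 := by
    have := Real.log_two_lt_d9
    linarith
  obtain ⟨a1, a2⟩ := abs_le.1 h
  unfold PLT.hl
  rw [abs_le]
  constructor <;> linarith

/-- the cloud of one row on a word -/
private theorem cwX_hc {C1 : ℝ} (hC : ∀ y t, |y| ≤ 19 / 4 * NUMF.l →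
    |Hc t y - 2 * Real.log (Real.cosh t)| ≤ C1) {k0 : ℤ} {v : ℝ} (h1 : -(19 / 4) ≤ v - k0 - 4)
    (h2 : v - k0 + 3 ≤ 19 / 4) (L : List (ℤ × ℝ)) (s : ℝ) :
    |cwX k0 L v s - cS L * Real.log (Real.cosh s)| ≤ cN L * (C1 / 2 + 1) := by
  induction L with
  | nil => simp [cS, cN]
  | cons a L ih =>
    have g0 : (k0 : ℝ) ≤ rdk k0 a.1 := by exact_mod_cast rdk_ge k0 a.1
    have g1 : ((rdk k0 a.1 : ℤ) : ℝ) ≤ k0 + 7 := by exact_mod_cast rdk_le k0 a.1
    have b := hl_bd hC (y := 3 - (rdk k0 a.1 : ℝ) + v) (by rw [abs_le]; constructor <;> linarith) s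
    have e1 : cS (a :: L) = a.2 + cS L := by simp [cS]
    have e2 : cN (a :: L) = |a.2| + cN L := by simp [cN]
    rw [cwX_cons, e1, e2]
    have e : a.2 * hl (3 - (rdk k0 a.1 : ℝ) + v) s + cwX k0 L v s -
        (a.2 + cS L) * Real.log (Real.cosh s) =
        a.2 * (hl (3 - (rdk k0 a.1 : ℝ) + v) s - Real.log (Real.cosh s)) +
          (cwX k0 L v s - cS L * Real.log (Real.cosh s)) := by ring
    rw [e]
    refine (abs_add_le _ _).trans ?_
    rw [abs_mul, add_mul]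
    exact add_le_add (mul_le_mul_of_nonneg_left b (abs_nonneg _)) ih

/-- the place of a row seen from the half quantum -/
private theorem vwin {t : HT} {y : ℝ} (h1 : -l ≤ y) (h2 : y ≤ l / 2) :
    ((wAO t).1 : ℝ) / 8 * l ≤ NUGC.PLX.htL t - y ∧ NUGC.PLX.htL t - y ≤ ((wAO t).2 : ℝ) / 8 * l := by
  have hl := NUP1.l_pos
  cases t <;> simp only [NUGC.PLX.htL, wAO] <;> push_cast <;> constructor <;> linarith

private theorem ewin {t : HT} {y : ℝ} (h1 : -(l / 4) ≤ y) (h2 : y ≤ l / 2) :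
    ((wEO t).1 : ℝ) / 8 * l ≤ NUGC.PLX.htL t - y ∧ NUGC.PLX.htL t - y ≤ ((wEO t).2 : ℝ) / 8 * l := by
  have hl := NUP1.l_pos
  cases t <;> simp only [NUGC.PLX.htL, wEO] <;> push_cast <;> constructor <;> linarith

private theorem vLW {t : HT} {y : ℝ} (h1 : -l ≤ y) (h2 : y ≤ l / 2) :
    LW t ((NUGC.PLX.htL t - y) / l) := by
  have hl := NUP1.l_pos
  obtain ⟨a1, a2⟩ := vwin (t := t) h1 h2
  have b1 : ((wAO t).1 : ℝ) / 8 ≤ (NUGC.PLX.htL t - y) / l := by rwa [le_div_iff₀ hl]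
  have b2 : (NUGC.PLX.htL t - y) / l ≤ ((wAO t).2 : ℝ) / 8 := by rwa [div_le_iff₀ hl]
  generalize (NUGC.PLX.htL t - y) / l = v at *
  cases t <;> simp only [LW, wAO] at * <;> push_cast at * <;> constructor <;> linarith

private theorem vk0 {t : HT} {y : ℝ} (h1 : -l ≤ y) (h2 : y ≤ l / 2) :
    -(19 / 4) ≤ (NUGC.PLX.htL t - y) / l - k0L t - 4 ∧ (NUGC.PLX.htL t - y) / l - k0L t + 3 ≤ 19 / 4 := by
  have hl := NUP1.l_pos
  obtain ⟨a1, a2⟩ := vwin (t := t) h1 h2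
  have b1 : ((wAO t).1 : ℝ) / 8 ≤ (NUGC.PLX.htL t - y) / l := by rwa [le_div_iff₀ hl]
  have b2 : (NUGC.PLX.htL t - y) / l ≤ ((wAO t).2 : ℝ) / 8 := by rwa [div_le_iff₀ hl]
  generalize (NUGC.PLX.htL t - y) / l = v at *
  cases t <;> simp only [k0L, wAO] at * <;> push_cast at * <;> constructor <;> linarith

/-- the cloud of one row of the content on the word `o` of a letter -/
def cwC (t : HT) (u : Ch6) (o : Bool) (τ : ℝ) (y : ℂ) : ℝ :=
  cwX (k0L t) (wl6 t u o) ((NUGC.PLX.htL t - y.re) / l) (τ - y.im)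

/-- **the cloud of one row is the growth** -/
theorem cwC_bd : ∃ C1 : ℝ, 0 ≤ C1 ∧ ∀ (t : HT) (u : Ch6) (o : Bool) (τ s0 : ℝ) (y : ℂ),
    -l ≤ y.re → y.re ≤ l / 2 → |y.im| ≤ s0 →
    |cwC t u o τ y - cS (wl6 t u o) * Real.log (Real.cosh τ)| ≤ 20 * (C1 + s0) := by
  have hl := NUMF.l_pos
  obtain ⟨C, hC, H⟩ := Hc_bd (b := 19 / 4 * NUMF.l) (by linarith)
  refine ⟨C / 2 + 1, by positivity, fun t u o τ s0 y h1 h2 h3 => ?_⟩
  obtain ⟨a1, a2⟩ := vk0 (t := t) h1 h2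
  have b := cwX_hc H a1 a2 (wl6 t u o) (τ - y.im)
  have hn := cN_wl t u o
  have hn0 := cN_nonneg (wl6 t u o)
  have hs := cS_le (wl6 t u o)
  have hs0 : 0 ≤ s0 := (abs_nonneg _).trans h3
  have hlip := log_cosh_lip (τ - y.im) τ
  rw [show τ - y.im - τ = -y.im by ring, abs_neg] at hlip
  have e : cwC t u o τ y - cS (wl6 t u o) * Real.log (Real.cosh τ) =
      (cwX (k0L t) (wl6 t u o) ((NUGC.PLX.htL t - y.re) / l) (τ - y.im) -
        cS (wl6 t u o) * Real.log (Real.cosh (τ - y.im))) +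
      cS (wl6 t u o) * (Real.log (Real.cosh (τ - y.im)) - Real.log (Real.cosh τ)) := by
    unfold cwC
    ring
  rw [e]
  refine (abs_add_le _ _).trans ?_
  rw [abs_mul]
  have k1 : cN (wl6 t u o) * (C / 2 + 1) ≤ 20 * (C / 2 + 1) :=
    mul_le_mul_of_nonneg_right hn (by positivity)
  have k2 : |cS (wl6 t u o)| * |Real.log (Real.cosh (τ - y.im)) - Real.log (Real.cosh τ)| ≤
      20 * s0 := mul_le_mul (hs.trans hn) (hlip.trans h3) (abs_nonneg _) (by norm_num)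
  linarith

/-! ### the sea term of a letter -/

section sea

variable {ι : Type*} [Fintype ι] {w : ι → ℝ} {x : ι → ℂ} {lo hi : ℝ} {η η' ρ : ℝ → ℝ}
  {K0 s0 : ℝ} {c : Bool → List ℂ} {k : Bool → ℕ}

/-- the cloud of the content and of the missing rows -/
def mfC (c : Bool → List ℂ) (k : Bool → ℕ) (t : HT) (u : Ch6) (a : Bool) (τ : ℝ) : ℝ :=
  (((c a).map fun y => cwC t u true τ y).sum + k a * (-(rs (Lo t u) : ℝ) * Real.log (Real.cosh τ))) +
    (((c (!a)).map fun y => cwC t u false τ y).sum +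
      k (!a) * (-(rs (Lx t u) : ℝ) * Real.log (Real.cosh τ)))

/-- **the sea term is the cloud of the content** -/
theorem MF6X_mfC : ∃ C1 : ℝ, 0 ≤ C1 ∧ ∀ {ι : Type} [Fintype ι] {w : ι → ℝ} {x : ι → ℂ}
    {lo hi : ℝ} {η η' ρ : ℝ → ℝ} {K0 s0 : ℝ} {c : Bool → List ℂ} {k : Bool → ℕ},
    CurX w x lo hi η η' ρ → -(1 / 4 * NUMF.l) < lo → hi < 1 / 4 * NUMF.l → ∑ i, w i = 1 →
    (∀ i, -l ≤ (x i).re) → (∀ i, (x i).re ≤ l / 2) → (∀ i, |(x i).im| ≤ s0) →
    (∀ a, CntX K0 w x (c a) (k a)) → ∀ (t : HT) (u : Ch6), okC6 t u → ∀ (a : Bool) (τ : ℝ),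
    |MF6X ρ η (nX c k) t u a (NUP1.vl (NUGC.PLX.htL t) τ) - mfC c k t u a τ| ≤
      2 * (Fintype.card ι * (K0 * (20 * (C1 + s0)))) := by
  obtain ⟨C1, hC1, H⟩ := cwC_bd
  refine ⟨C1, hC1, fun {ι} _ {w x lo hi η η' ρ K0 s0 c k} hc h1 h2 hw x1 x2 x3 hk t u hu a τ => ?_⟩
  have e := MF6X_eq hc h1 h2 (nX c k) t u a τ
  obtain ⟨q1, q2⟩ := cS_wl t hu
  have b1 := (hk a).alg hw (f := fun y => cwC t u true τ y)
    (L := -(rs (Lo t u) : ℝ) * Real.log (Real.cosh τ)) (C := 20 * (C1 + s0)) fun i => by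
      have := H t u true τ s0 (x i) (x1 i) (x2 i) (x3 i)
      rwa [q1] at this
  have b2 := (hk (!a)).alg hw (f := fun y => cwC t u false τ y)
    (L := -(rs (Lx t u) : ℝ) * Real.log (Real.cosh τ)) (C := 20 * (C1 + s0)) fun i => by
      have := H t u false τ s0 (x i) (x1 i) (x2 i) (x3 i)
      rwa [q2] at this
  have e2 : MF6X ρ η (nX c k) t u a (NUP1.vl (NUGC.PLX.htL t) τ) =
      (((c a).length : ℝ) + k a) * (∑ i, w i * cwC t u true τ (x i)) +
      (((c (!a)).length : ℝ) + k (!a)) * ∑ i, w i * cwC t u false τ (x i) := by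
    rw [e]
    rfl
  rw [e2]
  unfold mfC
  rw [show ∀ A B C D : ℝ, A + B - (C + D) = (A - C) + (B - D) from fun _ _ _ _ => by ring]
  exact (abs_add_le _ _).trans (by linarith)

end sea

/-! ### the rows of the content -/

private theorem prod_gexp {L : List ℂ} {f g h : ℂ → ℝ} (f0 : ∀ x, 0 ≤ f x)
    (H : ∀ x ∈ L, f x * Real.exp (g x) ≤ Real.exp (-h x)) :
    (L.map f).prod * Real.exp ((L.map g).sum) ≤ Real.exp (-(L.map h).sum) := by
  induction L with
  | nil => simp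
  | cons a L ih =>
    have i := ih fun y hy => H y (by simp [hy])
    have j := H a (by simp)
    rw [List.map_cons, List.prod_cons, List.map_cons, List.sum_cons, List.map_cons, List.sum_cons,
      Real.exp_add, neg_add, Real.exp_add]
    calc f a * (L.map f).prod * (Real.exp (g a) * Real.exp ((L.map g).sum)) =
        (f a * Real.exp (g a)) * ((L.map f).prod * Real.exp ((L.map g).sum)) := by ring
      _ ≤ Real.exp (-h a) * Real.exp (-(L.map h).sum) := by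
          refine mul_le_mul j i (mul_nonneg (List.prod_nonneg fun b hb => ?_) (Real.exp_pos _).le)
            (Real.exp_pos _).le
          obtain ⟨y, -, rfl⟩ := List.mem_map.1 hb
          exact f0 y

/-- the gain of a row of the own species -/
def gOC (t : HT) (u : Ch6) (τ : ℝ) (y : ℂ) : ℝ := gnO t u ((NUGC.PLX.htL t - y.re) / l) (τ - y.im)

/-- the gain of a row of the other species -/
def gXC (t : HT) (u : Ch6) (τ : ℝ) (y : ℂ) : ℝ := gnX t u ((NUGC.PLX.htL t - y.re) / l) (τ - y.im)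

private theorem content_O {t : HT} {u : Ch6} (hu : okC6 t u) (τ : ℝ) {L : List ℂ}
    (h : ∀ y ∈ L, -l ≤ y.re ∧ y.re ≤ l / 2) :
    (L.map fun y => rf (Lo t u) (NUP1.vl (NUGC.PLX.htL t) τ - y)).prod *
      Real.exp ((L.map fun y => cwC t u true τ y).sum) ≤
      Real.exp (-(L.map fun y => gOC t u τ y).sum) := by
  refine prod_gexp (fun y => rf_nonneg _ _) fun y hy => ?_
  have hre : (NUP1.vl (NUGC.PLX.htL t) τ - y).re = NUGC.PLX.htL t - y.re := by simp [NUP1.vl]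
  have him : (NUP1.vl (NUGC.PLX.htL t) τ - y).im = τ - y.im := by simp [NUP1.vl]
  have b := row_O hu (z := NUP1.vl (NUGC.PLX.htL t) τ - y)
    (by rw [hre]; exact vLW (h y hy).1 (h y hy).2)
  rwa [hre, him] at b

private theorem content_X {t : HT} {u : Ch6} (hu : okC6 t u) (τ : ℝ) {L : List ℂ}
    (h : ∀ y ∈ L, -l ≤ y.re ∧ y.re ≤ l / 2) :
    (L.map fun y => rf (Lx t u) (NUP1.vl (NUGC.PLX.htL t) τ - y)).prod *
      Real.exp ((L.map fun y => cwC t u false τ y).sum) ≤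
      Real.exp (-(L.map fun y => gXC t u τ y).sum) := by
  refine prod_gexp (fun y => rf_nonneg _ _) fun y hy => ?_
  have hre : (NUP1.vl (NUGC.PLX.htL t) τ - y).re = NUGC.PLX.htL t - y.re := by simp [NUP1.vl]
  have him : (NUP1.vl (NUGC.PLX.htL t) τ - y).im = τ - y.im := by simp [NUP1.vl]
  have b := row_X hu (z := NUP1.vl (NUGC.PLX.htL t) τ - y)
    (by rw [hre]; exact vLW (h y hy).1 (h y hy).2)
  rwa [hre, him] at b

private theorem exp_k {τ : ℝ} (n : ℕ) (r : ℤ) :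
    Real.exp (n * ((r : ℝ) * Real.log (Real.cosh τ))) = (Real.cosh τ ^ r) ^ n := by
  rw [Real.exp_nat_mul, mul_comm (r : ℝ), ← Real.rpow_def_of_pos (Real.cosh_pos τ),
    Real.rpow_intCast]

/-- rows of one species: window of the content, window and number of the further rows -/
structure RwL (n0 : ℕ) (h0 : ℝ) (miss k : ℕ) (X c ex : List ℂ) : Prop where
  perm : X.Perm (c ++ ex)
  len : ex.length + miss = k
  num : ex.length ≤ n0
  co : ∀ y ∈ c, -l ≤ y.re ∧ y.re ≤ l / 2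
  ew : ∀ y ∈ ex, -l ≤ y.re ∧ y.re ≤ l / 2
  im : ∀ y ∈ ex, |y.im| ≤ h0

/-- the window of an end -/
structure EndL (h0 : ℝ) (e : ℂ) : Prop where
  lo : -(l / 4) ≤ e.re
  up : e.re ≤ l / 2
  im : |e.im| ≤ h0

private theorem rows_split {n0 : ℕ} {h0 : ℝ} {miss k : ℕ} {X c ex : List ℂ}
    (h : RwL n0 h0 miss k X c ex) (hh : 0 ≤ h0) {t : HT} {L : List (ℤ × ℤ)}
    (hL : okA (wAO t).1 (wAO t).2 L = true) (hn : rn L ≤ 20) (τ : ℝ) :
    (X.map fun y => rf L (NUP1.vl (NUGC.PLX.htL t) τ - y)).prod ≤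
      (c.map fun y => rf L (NUP1.vl (NUGC.PLX.htL t) τ - y)).prod *
        (cRO h0 ^ n0 * (Real.cosh τ ^ rs L) ^ ex.length) := by
  have hR := one_le_cRO hh
  have hc := Real.cosh_pos τ
  have hz : 0 ≤ Real.cosh τ ^ rs L := (zpow_pos hc _).le
  rw [(h.perm.map fun y => rf L (NUP1.vl (NUGC.PLX.htL t) τ - y)).prod_eq, List.map_append,
    List.prod_append]
  refine mul_le_mul_of_nonneg_left ?_ (List.prod_nonneg fun b hb => by
    obtain ⟨y, -, rfl⟩ := List.mem_map.1 hb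
    exact rf_nonneg _ _)
  refine (prod_cmp (by linarith) hz (fun y => rf_nonneg _ _) fun y hy => ?_).trans
    (mul_le_mul_of_nonneg_right (pow_le_pow_right₀ hR h.num) (pow_nonneg hz _))
  obtain ⟨a1, a2⟩ := vwin (t := t) (h.ew y hy).1 (h.ew y hy).2
  exact rf_okA hL hn hh a1 a2 (h.im y hy)

/-- **one species**: own factor times the cloud of the content -/
theorem own_oneC {m M : ℕ} {K : PBQ.PLX.KD} {D : RU m M} (hK : IsR K D) (hc : ‖D.c‖ ≤ 2)
    (hc' : ‖D.c'‖ ≤ 2) {n0 : ℕ} {h0 : ℝ} (hh : 0 ≤ h0) {miss k1 k2 : ℕ} {c1 c2 ex1 ex2 : List ℂ}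
    (r1 : RwL n0 h0 miss k1 (List.ofFn D.x) c1 ex1) (r2 : RwL n0 h0 miss k2 (List.ofFn D.y) c2 ex2)
    (hp : EndL h0 D.p) (hq : EndL h0 D.q) {t : HT} {u : Ch6} (hu : okC6 t u) (τ : ℝ) :
    own6 K true t u (NUP1.vl (NUGC.PLX.htL t) τ) * Real.exp
      (((c1.map fun y => cwC t u true τ y).sum +
        k1 * (-(rs (Lo t u) : ℝ) * Real.log (Real.cosh τ))) +
      ((c2.map fun y => cwC t u false τ y).sum +
        k2 * (-(rs (Lx t u) : ℝ) * Real.log (Real.cosh τ)))) ≤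
      cOw6 * (cRO h0 ^ 2 * (cRO h0 ^ n0) ^ 2) * (Real.cosh τ)⁻¹ *
        Ph6 D t u (NUP1.vl (NUGC.PLX.htL t) τ) *
        Real.exp (-((c1.map fun y => gOC t u τ y).sum + (c2.map fun y => gXC t u τ y).sum)) := by
  obtain ⟨w, hw⟩ : ∃ w, w = NUP1.vl (NUGC.PLX.htL t) τ := ⟨_, rfl⟩
  have hR := one_le_cRO hh
  have hch := Real.cosh_pos τ
  obtain ⟨n1, n2, n3, n4⟩ := rn_L t u
  obtain ⟨e1, e2⟩ := rs_L hu
  have b0 := own6_leR hK hc hc' hu w
  have s1 := rows_split r1 hh (okA_Lo t u) n1 τ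
  have s2 := rows_split r2 hh (okA_Lx t u) n2 τ
  have q1 := content_O hu τ r1.co
  have q2 := content_X hu τ r2.co
  obtain ⟨a1, a2⟩ := ewin (t := t) hp.lo hp.up
  obtain ⟨a3, a4⟩ := ewin (t := t) hq.lo hq.up
  have f1 := rf_okA (okA_Lp t u) n3 (r := NUGC.PLX.htL t) (τ := τ) (x := D.p) hh a1 a2 hp.im
  have f2 := rf_okA (okA_Lq t u) n4 (r := NUGC.PLX.htL t) (τ := τ) (x := D.q) hh a3 a4 hq.im
  rw [← hw] at s1 s2 q1 q2 f1 f2 ⊢
  have g0 : dPR D (Lp t u) (Lq t u) (Lo t u) (Lx t u) w = rf (Lp t u) (w - D.p) *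
      rf (Lq t u) (w - D.q) * ((List.ofFn D.x).map fun y => rf (Lo t u) (w - y)).prod *
      ((List.ofFn D.y).map fun y => rf (Lx t u) (w - y)).prod := by
    unfold dPR PR
    rw [List.map_ofFn, List.map_ofFn, List.prod_ofFn, List.prod_ofFn]
    rfl
  -- names
  obtain ⟨ro, hro⟩ : ∃ ro, ro = rs (Lo t u) := ⟨_, rfl⟩
  rw [← hro] at s1 e1 ⊢
  rw [e1] at s2 ⊢
  obtain ⟨B, hB⟩ : ∃ B : ℝ, B = Real.cosh τ ^ ro := ⟨_, rfl⟩
  obtain ⟨B', hB'⟩ : ∃ B' : ℝ, B' = Real.cosh τ ^ (-ro) := ⟨_, rfl⟩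
  have hBB : B * B' = 1 := by
    rw [hB, hB', ← zpow_add₀ hch.ne', add_neg_cancel, zpow_zero]
  have B0 : 0 < B := by rw [hB]; exact zpow_pos hch _
  have B0' : 0 < B' := by rw [hB']; exact zpow_pos hch _
  have hpq : Real.cosh τ ^ rs (Lp t u) * Real.cosh τ ^ rs (Lq t u) = (Real.cosh τ)⁻¹ := by
    rw [← zpow_add₀ hch.ne', e2, zpow_neg_one]
  have x1 : Real.exp (k1 * (-(ro : ℝ) * Real.log (Real.cosh τ))) = B' ^ k1 := by
    have := exp_k (τ := τ) k1 (-ro)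
    rw [hB', ← this]
    push_cast
    rfl
  have x2 : Real.exp (k2 * (-((-ro : ℤ) : ℝ) * Real.log (Real.cosh τ))) = B ^ k2 := by
    have := exp_k (τ := τ) k2 ro
    rw [hB, ← this]
    push_cast
    rw [neg_neg]
  rw [← hB] at s1
  rw [← hB'] at s2
  have pw : B ^ ex1.length * B' ^ ex2.length * (B' ^ k1 * B ^ k2) = 1 := by
    rw [← r1.len, ← r2.len, pow_add, pow_add]
    calc B ^ ex1.length * B' ^ ex2.length * (B' ^ ex1.length * B' ^ miss * (B ^ ex2.length * B ^ miss)) =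
        (B * B') ^ ex1.length * (B * B') ^ ex2.length * (B * B') ^ miss := by
          rw [mul_pow, mul_pow, mul_pow]
          ring
      _ = 1 := by rw [hBB, one_pow, one_pow, one_pow]; norm_num
  rw [Real.exp_add, Real.exp_add, Real.exp_add, x1, x2, neg_add, Real.exp_add]
  -- generalize
  have P1n : 0 ≤ (c1.map fun y => rf (Lo t u) (w - y)).prod := List.prod_nonneg fun b hb => by
    obtain ⟨y, -, rfl⟩ := List.mem_map.1 hb
    exact rf_nonneg _ _
  have P2n : 0 ≤ (c2.map fun y => rf (Lx t u) (w - y)).prod := List.prod_nonneg fun b hb => by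
    obtain ⟨y, -, rfl⟩ := List.mem_map.1 hb
    exact rf_nonneg _ _
  have Q1n : 0 ≤ ((List.ofFn D.x).map fun y => rf (Lo t u) (w - y)).prod :=
    List.prod_nonneg fun b hb => by
      obtain ⟨y, -, rfl⟩ := List.mem_map.1 hb
      exact rf_nonneg _ _
  have Q2n : 0 ≤ ((List.ofFn D.y).map fun y => rf (Lx t u) (w - y)).prod :=
    List.prod_nonneg fun b hb => by
      obtain ⟨y, -, rfl⟩ := List.mem_map.1 hb
      exact rf_nonneg _ _
  have F1n := rf_nonneg (Lp t u) (w - D.p)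
  have F2n := rf_nonneg (Lq t u) (w - D.q)
  have Pn := Ph6_nonneg D t u w
  have z1 : 0 ≤ Real.cosh τ ^ rs (Lp t u) := (zpow_pos hch _).le
  have z2 : 0 ≤ Real.cosh τ ^ rs (Lq t u) := (zpow_pos hch _).le
  have cO := cOw6_pos
  rw [g0] at b0
  generalize (c1.map fun y => rf (Lo t u) (w - y)).prod = P1 at *
  generalize (c2.map fun y => rf (Lx t u) (w - y)).prod = P2 at *
  generalize ((List.ofFn D.x).map fun y => rf (Lo t u) (w - y)).prod = Q1 at *
  generalize ((List.ofFn D.y).map fun y => rf (Lx t u) (w - y)).prod = Q2 at *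
  generalize rf (Lp t u) (w - D.p) = F1 at *
  generalize rf (Lq t u) (w - D.q) = F2 at *
  generalize Ph6 D t u w = Ph at *
  generalize Real.cosh τ ^ rs (Lp t u) = Z1 at *
  generalize Real.cosh τ ^ rs (Lq t u) = Z2 at *
  have E1 := Real.exp_pos ((c1.map fun y => cwC t u true τ y).sum)
  have E2 := Real.exp_pos ((c2.map fun y => cwC t u false τ y).sum)
  have G1 := Real.exp_pos (-(c1.map fun y => gOC t u τ y).sum)
  have G2 := Real.exp_pos (-(c2.map fun y => gXC t u τ y).sum)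
  generalize Real.exp ((c1.map fun y => cwC t u true τ y).sum) = V1 at *
  generalize Real.exp ((c2.map fun y => cwC t u false τ y).sum) = V2 at *
  generalize Real.exp (-(c1.map fun y => gOC t u τ y).sum) = U1 at *
  generalize Real.exp (-(c2.map fun y => gXC t u τ y).sum) = U2 at *
  generalize hRn : cRO h0 ^ n0 = Rn at *
  have hRn0 : 0 < Rn := by rw [← hRn]; positivity
  generalize cRO h0 = R at *
  have hR0 : 0 < R := by linarith
  calc own6 K true t u w * (V1 * B' ^ k1 * (V2 * B ^ k2)) ≤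
      (cOw6 * (F1 * F2 * Q1 * Q2) * Ph) * (V1 * B' ^ k1 * (V2 * B ^ k2)) :=
        mul_le_mul_of_nonneg_right b0 (by positivity)
    _ ≤ (cOw6 * ((R * Z1) * (R * Z2) * (P1 * (Rn * B ^ ex1.length)) *
        (P2 * (Rn * B' ^ ex2.length))) * Ph) * (V1 * B' ^ k1 * (V2 * B ^ k2)) := by gcongr
    _ = cOw6 * (R ^ 2 * Rn ^ 2) * (Z1 * Z2) * Ph * ((P1 * V1) * (P2 * V2)) *
        (B ^ ex1.length * B' ^ ex2.length * (B' ^ k1 * B ^ k2)) := by ring
    _ = cOw6 * (R ^ 2 * Rn ^ 2) * (Real.cosh τ)⁻¹ * Ph * ((P1 * V1) * (P2 * V2)) := by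
        rw [pw, hpq, mul_one]
    _ ≤ cOw6 * (R ^ 2 * Rn ^ 2) * (Real.cosh τ)⁻¹ * Ph * (U1 * U2) := by
        refine mul_le_mul_of_nonneg_left ?_ (by positivity)
        exact mul_le_mul q1 q2 (by positivity) G1.le
    _ = _ := by ring

/-! ### the cutoffs -/

private theorem cutM {L ep τ : ℝ} {q : ℝ} (hq : q ≠ 1) : cut L ep q τ = cut L ep (-1) τ := by
  unfold NUGC.cut
  rw [if_neg hq, if_neg (by norm_num)]

private theorem cut_one' (L ep τ : ℝ) : cut L ep 1 τ = 1 := if_pos rfl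

private theorem cutP {L ep q τ : ℝ} : 0 < cut L ep q τ := by
  unfold NUGC.cut
  split_ifs
  · exact one_pos
  · exact lt_min one_pos (Real.exp_pos _)

/-- **the cutoffs of a letter** -/
theorem Ph6_le {m M : ℕ} {D : RU m M} {k : ℕ} {ep A : ℝ} (hA : 1 ≤ A)
    (hX : CutX6 D.x k ep A D.β D.g D.g0) (hY : CutX6 D.y k ep A D.β D.g' D.g0') {t : HT} {u : Ch6}
    (hu : okC6 t u) (τ : ℝ) : Ph6 D t u (NUP1.vl (NUGC.PLX.htL t) τ) ≤
      A ^ 4 * cut (Real.log k) ep (qh6 t u) τ := by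
  have hA0 : 0 < A := by linarith
  have a1 : A ≤ A ^ 4 := le_self_pow₀ hA (by norm_num)
  have a2 : A ^ 2 ≤ A ^ 4 := pow_le_pow_right₀ hA (by norm_num)
  have a3 : A ^ 3 ≤ A ^ 4 := pow_le_pow_right₀ hA (by norm_num)
  have a0 : 1 ≤ A ^ 4 := one_le_pow₀ hA
  obtain ⟨κ, hκ⟩ : ∃ κ, κ = cut (Real.log k) ep (-1) τ := ⟨_, rfl⟩
  have k0 : 0 < κ := by rw [hκ]; exact cutP
  have k1 : κ ≤ 1 := by rw [hκ]; exact NUGC.cut_le_one _ _ _ _
  have kk : κ ^ 2 ≤ κ := by nlinarith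
  have eP : NUP1.vl (NUGC.PLX.htL .P) τ + 3 * (l : ℂ) = NUP1.vl (1 / 4 * l) τ := by
    simp only [NUGC.PLX.htL, NUP1.vl]
    push_cast
    ring
  have eH : NUP1.vl (NUGC.PLX.htL .H) τ - 2 * (l : ℂ) = NUP1.vl (-(11 / 8) * l) τ := by
    simp only [NUGC.PLX.htL, NUP1.vl]
    push_cast
    ring
  have eH2 : NUP1.vl (NUGC.PLX.htL .H) τ = NUP1.vl (5 / 8 * l) τ := rfl
  have xh := hX.h τ
  have yq := hY.q τ
  have yl := hY.hl τ
  have ys := hY.s2 τ
  rw [← hκ] at yq yl ys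
  have p1 := norm_nonneg (PBX.ph D.β D.x D.g (NUP1.vl (5 / 8 * l) τ))
  have p2 := norm_nonneg (PBX.ph (4 / 3) D.y D.g0' (NUP1.vl (-(11 / 8) * l) τ))
  have p3 := inv_nonneg.2 (norm_nonneg (PBX.ph D.β D.y D.g' (NUP1.vl (5 / 8 * l) τ)))
  obtain ⟨u1, u2⟩ := u
  cases t
  · show (1 : ℝ) ≤ A ^ 4 * cut (Real.log k) ep (NUSp.qc .w) τ
    rw [show NUSp.qc .w = 1 from rfl, cut_one', mul_one]
    exact a0
  · show (1 : ℝ) ≤ A ^ 4 * cut (Real.log k) ep (NUSp.qc .w) τ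
    rw [show NUSp.qc .w = 1 from rfl, cut_one', mul_one]
    exact a0
  · cases u2
    · show ‖PBX.ph D.β D.y D.g' (NUP1.vl (NUGC.PLX.htL .P) τ + 3 * (l : ℂ))‖ ≤
        A ^ 4 * cut (Real.log k) ep (NUSp.qc .p) τ
      rw [eP, show NUSp.qc .p = -1 from rfl, ← hκ]
      exact yq.trans (mul_le_mul_of_nonneg_right a1 k0.le)
    · show (1 : ℝ) ≤ A ^ 4 * cut (Real.log k) ep (NUSp.qc .w) τ
      rw [show NUSp.qc .w = 1 from rfl, cut_one', mul_one]
      exact a0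
  · unfold Ph6
    simp only
    rw [eH, eH2]
    cases u1 <;> cases u2
    · rw [show qh6 .H (false, false) = -3 from rfl, cutM (by norm_num), ← hκ]
      simp only [Bool.false_eq_true, if_false, mul_one]
      calc _ ≤ A * κ ^ 2 := ys
        _ ≤ A ^ 4 * κ := by gcongr
    · rw [show qh6 .H (false, true) = -1 from rfl, ← hκ]
      simp only [Bool.false_eq_true, if_false, if_true, mul_one]
      calc _ ≤ (A * κ ^ 2) * (A * κ⁻¹) := mul_le_mul ys yl p3 (by positivity)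
        _ = A ^ 2 * κ := by field_simp
        _ ≤ A ^ 4 * κ := mul_le_mul_of_nonneg_right a2 k0.le
    · rw [show qh6 .H (true, false) = -1 from rfl, ← hκ]
      simp only [Bool.false_eq_true, if_false, if_true, mul_one]
      calc _ ≤ (A * κ ^ 2) * A := mul_le_mul ys xh p1 (by positivity)
        _ = A ^ 2 * κ ^ 2 := by ring
        _ ≤ A ^ 4 * κ := by gcongr
    · rw [show qh6 .H (true, true) = 1 from rfl, cut_one', mul_one]
      simp only [if_true]
      calc _ ≤ (A * κ ^ 2) * A * (A * κ⁻¹) :=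
            mul_le_mul (mul_le_mul ys xh p1 (by positivity)) yl p3 (by positivity)
        _ = A ^ 3 * κ := by field_simp
        _ ≤ A ^ 4 * 1 := by gcongr
        _ = _ := mul_one _

/-! ### the gains -/

/-- **the gain of a letter** of species `a` over the content -/
def gC (c : Bool → List ℂ) (a : Bool) (t : HT) (u : Ch6) (τ : ℝ) : ℝ :=
  match t with
  | .W => 0
  | .F => prX c (!a) (3 / 4) τ
  | .P => if u.2 = true then prX c (!a) (3 / 4) τ else 0
  | .H => (if u.1 = true then 0 else prX c a (3 / 8) τ) +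
      (if u.2 = true then prX c (!a) (3 / 8) τ else 0)

private theorem sum0 (L : List ℂ) : (L.map fun _ => (0 : ℝ)).sum = 0 := by
  induction L with
  | nil => rfl
  | cons a L ih => rw [List.map_cons, List.sum_cons, ih, add_zero]

theorem gC_eq (c : Bool → List ℂ) (a : Bool) {t : HT} {u : Ch6} (τ : ℝ) :
    ((c a).map fun y => gOC t u τ y).sum + ((c (!a)).map fun y => gXC t u τ y).sum =
      gC c a t u τ := by
  have hl := NUP1.l_pos
  have hll : NUMF.l = l := rfl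
  obtain ⟨u1, u2⟩ := u
  have eF : ∀ y : ℂ, -((NUGC.PLX.htL .F - y.re) / l + 2) * l = 3 / 4 * NUMF.l + y.re := by
    intro y
    rw [hll]
    simp only [NUGC.PLX.htL]
    field_simp
    ring
  have eH : ∀ y : ℂ, (1 - (NUGC.PLX.htL .H - y.re) / l) * l = 3 / 8 * NUMF.l + y.re := by
    intro y
    rw [hll]
    simp only [NUGC.PLX.htL]
    field_simp
    ring
  cases t
  · show ((c a).map fun _ => (0 : ℝ)).sum + ((c (!a)).map fun _ => (0 : ℝ)).sum = 0
    rw [sum0, sum0, add_zero]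
  · show ((c a).map fun _ => (0 : ℝ)).sum + ((c (!a)).map fun y =>
      Ag (-((NUGC.PLX.htL .F - y.re) / l + 2) * l) (τ - y.im)).sum = prX c (!a) (3 / 4) τ
    simp only [eF]
    rw [sum0, zero_add]
    rfl
  · cases u2
    · show ((c a).map fun _ => (0 : ℝ)).sum + ((c (!a)).map fun y => gXC .P (u1, false) τ y).sum = 0
      have : ∀ y, gXC .P (u1, false) τ y = 0 := fun y => rfl
      simp only [this]
      rw [sum0, sum0, add_zero]
    · show ((c a).map fun _ => (0 : ℝ)).sum + ((c (!a)).map fun y =>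
        Ag (-((NUGC.PLX.htL .F - y.re) / l + 2) * l) (τ - y.im)).sum = prX c (!a) (3 / 4) τ
      simp only [eF]
      rw [sum0, zero_add]
      rfl
  · have e1 : ((c a).map fun y => gOC .H (u1, u2) τ y).sum =
        if u1 = true then 0 else prX c a (3 / 8) τ := by
      cases u1
      · show ((c a).map fun y => Ag ((1 - (NUGC.PLX.htL .H - y.re) / l) * l) (τ - y.im)).sum =
          prX c a (3 / 8) τ
        simp only [eH]
        rfl
      · exact sum0 _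
    have e2 : ((c (!a)).map fun y => gXC .H (u1, u2) τ y).sum =
        if u2 = true then prX c (!a) (3 / 8) τ else 0 := by
      cases u2
      · exact sum0 _
      · show ((c (!a)).map fun y => Ag ((1 - (NUGC.PLX.htL .H - y.re) / l) * l) (τ - y.im)).sum =
          prX c (!a) (3 / 8) τ
        simp only [eH]
        rfl
    rw [e1, e2]
    rfl

/-! ### the own factors with the sea term -/

private theorem inv_cosh (τ : ℝ) : (Real.cosh τ)⁻¹ ≤ 2 * Real.exp (-|τ|) := by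
  have h1 : Real.exp |τ| ≤ 2 * Real.cosh τ := by
    rw [← Real.cosh_abs τ, Real.cosh_eq]
    have := Real.exp_pos (-|τ|)
    linarith
  have hc := Real.cosh_pos τ
  rw [Real.exp_neg, inv_le_iff_one_le_mul₀ hc]
  have he := Real.exp_pos |τ|
  rw [show 2 * (Real.exp |τ|)⁻¹ * Real.cosh τ = (2 * Real.cosh τ) / Real.exp |τ| by
    rw [div_eq_mul_inv]; ring, le_div_iff₀ he, one_mul]
  exact h1

/-- the data of the own factors of a content: places `x` with weights `w`, the lists `c`, the missing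
rows `k`, the further rows `ex`, the record `D` -/
structure OwnD {ι : Type} [Fintype ι] (K0 s0 h0 : ℝ) (n0 miss : ℕ) (w : ι → ℝ) (x : ι → ℂ)
    (c : Bool → List ℂ) (k : Bool → ℕ) (ex : Bool → List ℂ) {m M : ℕ} (D : RU m M) : Prop where
  mass : ∑ i, w i = 1
  lo : ∀ i, -l ≤ (x i).re
  up : ∀ i, (x i).re ≤ l / 2
  im : ∀ i, |(x i).im| ≤ s0
  cnt : ∀ a, CntX K0 w x (c a) (k a)
  hh : 0 ≤ h0
  rX : RwL n0 h0 miss (k true) (List.ofFn D.x) (c true) (ex true)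
  rY : RwL n0 h0 miss (k false) (List.ofFn D.y) (c false) (ex false)
  ep : EndL h0 D.p
  eq : EndL h0 D.q
  c1 : ‖D.c‖ ≤ 2
  c2 : ‖D.c'‖ ≤ 2

/-- the window of the rows from `RwX` -/
theorem rwL_of {n0 : ℕ} {h0 de : ℝ} {miss : ℕ} {c : Bool → List ℂ} {k : Bool → ℕ}
    {ex W : Bool → List ℂ} (h : RwX n0 h0 de miss c k ex W) {ι : Type*} [Fintype ι] {K0 : ℝ}
    {w : ι → ℝ} {x : ι → ℂ} (lo : ∀ i, -l ≤ (x i).re) (up : ∀ i, (x i).re ≤ l / 2)
    (hc : ∀ a, CntX K0 w x (c a) (k a)) (s : Bool) : RwL n0 h0 miss (k s) (W s) (c s) (ex s) where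
  perm := h.perm s
  len := h.len s
  num := h.exn s
  co := fun y hy => by
    obtain ⟨i, rfl⟩ := (hc s).mem y hy
    exact ⟨lo i, up i⟩
  ew := fun y hy => by
    obtain ⟨a1, a2⟩ := h.re s y hy
    have hl := NUP1.l_pos
    have hdl : 0 < de * l := mul_pos h.de0 hl
    constructor <;> linarith
  im := h.im s

/-- **own factor times sea term**, any curve, one constant -/
theorem ownC6 (M0 : ℝ) {s0 h0 : ℝ} (n0 : ℕ) (hs : 0 ≤ s0) (hh : 0 ≤ h0) :
    ∃ C : ℝ, 0 < C ∧ ∀ {ι : Type} [Fintype ι] {K0 : ℝ}, (Fintype.card ι : ℝ) * K0 ≤ M0 →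
    ∀ {miss : ℕ} {w : ι → ℝ} {x : ι → ℂ} {c : Bool → List ℂ}
    {k : Bool → ℕ} {ex : Bool → List ℂ} {m M : ℕ} {D : RU m M}, OwnD K0 s0 h0 n0 miss w x c k ex D →
    ∀ {lo hi : ℝ} {η η' ρ : ℝ → ℝ}, CurX w x lo hi η η' ρ → -(1 / 4 * NUMF.l) < lo →
    hi < 1 / 4 * NUMF.l → ∀ {K : PBQ.PLX.KD}, IsR K D → ∀ {κ : ℕ} {ep A : ℝ}, 1 ≤ A →
    CutX6 D.x κ ep A D.β D.g D.g0 → CutX6 D.y κ ep A D.β D.g' D.g0' →
    ∀ (a : Bool) (t : HT) (u : Ch6), okC6 t u → ∀ τ : ℝ,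
      own6 K a t u (NUP1.vl (NUGC.PLX.htL t) τ) *
        Real.exp (MF6X ρ η (nX c k) t u a (NUP1.vl (NUGC.PLX.htL t) τ)) ≤
      C * A ^ 4 * Real.exp (-|τ|) * cut (Real.log κ) ep (qh6 t u) τ *
        Real.exp (-gC c a t u τ) := by
  obtain ⟨C1, hC1, H⟩ := MF6X_mfC
  obtain ⟨E, hE⟩ : ∃ E, E = Real.exp (2 * (M0 * (20 * (C1 + s0)))) := ⟨_, rfl⟩
  have hE0 : 0 < E := by rw [hE]; exact Real.exp_pos _
  obtain ⟨Q, hQ⟩ : ∃ Q, Q = cOw6 * (cRO h0 ^ 2 * (cRO h0 ^ n0) ^ 2) := ⟨_, rfl⟩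
  have hQ0 : 0 < Q := by
    have := one_le_cRO hh
    have := cOw6_pos
    rw [hQ]
    positivity
  refine ⟨Q * 2 * E, by positivity, fun {ι} _ {K0} hM0 {miss w x c k ex m M D} hD {lo hi η η' ρ} hc h1
    h2 {K} hK {κ ep A} hA hX hY a t u hu τ => ?_⟩
  have hmf := (abs_le.1 (H hc h1 h2 hD.mass hD.lo hD.up hD.im hD.cnt t u hu a τ)).2
  have hmm : 2 * (Fintype.card ι * (K0 * (20 * (C1 + s0)))) ≤ 2 * (M0 * (20 * (C1 + s0))) := by
    have := mul_le_mul_of_nonneg_right hM0 (by positivity : 0 ≤ 20 * (C1 + s0))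
    linarith
  have hexp : Real.exp (MF6X ρ η (nX c k) t u a (NUP1.vl (NUGC.PLX.htL t) τ)) ≤
      Real.exp (mfC c k t u a τ) * E := by
    rw [hE, ← Real.exp_add]
    exact Real.exp_le_exp.2 (by linarith)
  have hic := inv_cosh τ
  have hic0 : 0 < (Real.cosh τ)⁻¹ := inv_pos.2 (Real.cosh_pos τ)
  have hA4 : 0 < A ^ 4 := by positivity
  have key : ∀ P : ℝ, 0 ≤ P → P ≤ A ^ 4 * cut (Real.log κ) ep (qh6 t u) τ → ∀ X : ℝ, 0 ≤ X →
      X * Real.exp (mfC c k t u a τ) ≤ Q * (Real.cosh τ)⁻¹ * P * Real.exp (-gC c a t u τ) →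
      X * Real.exp (MF6X ρ η (nX c k) t u a (NUP1.vl (NUGC.PLX.htL t) τ)) ≤
        Q * 2 * E * A ^ 4 * Real.exp (-|τ|) * cut (Real.log κ) ep (qh6 t u) τ *
        Real.exp (-gC c a t u τ) := by
    intro P hP0 hP X hX0 hX
    have hg := Real.exp_pos (-gC c a t u τ)
    calc X * Real.exp (MF6X ρ η (nX c k) t u a (NUP1.vl (NUGC.PLX.htL t) τ)) ≤
        X * (Real.exp (mfC c k t u a τ) * E) := mul_le_mul_of_nonneg_left hexp hX0
      _ = (X * Real.exp (mfC c k t u a τ)) * E := by ring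
      _ ≤ (Q * (Real.cosh τ)⁻¹ * P * Real.exp (-gC c a t u τ)) * E :=
          mul_le_mul_of_nonneg_right hX hE0.le
      _ ≤ (Q * (2 * Real.exp (-|τ|)) * (A ^ 4 * cut (Real.log κ) ep (qh6 t u) τ) *
          Real.exp (-gC c a t u τ)) * E := by gcongr
      _ = _ := by ring
  cases a
  · have b := own_oneC hK.sw hD.c2 hD.c1 hh hD.rY hD.rX hD.eq hD.ep hu τ
    rw [← own6_swK, ← hQ] at b
    refine key _ (Ph6_nonneg D.sw t u _) (Ph6_le (D := D.sw) hA hY hX hu τ) _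
      (own6_nonneg K false t u _) ?_
    rw [← gC_eq]
    exact b
  · have b := own_oneC hK hD.c1 hD.c2 hh hD.rX hD.rY hD.ep hD.eq hu τ
    rw [← hQ] at b
    refine key _ (Ph6_nonneg D t u _) (Ph6_le hA hX hY hu τ) _ (own6_nonneg K true t u _) ?_
    rw [← gC_eq]
    exact b

/-! ### the linear term -/

/-- **a rate absorbs the linear term** -/
theorem rate_absorb {c : ℝ} (hc : 0 < c) : ∃ C : ℝ, 1 ≤ C ∧ ∀ (k : ℕ) (τ : ℝ),
    Real.exp (-(c * (k * Real.exp (-(8 / 3 * |τ|))))) *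
      Real.exp (16 / 3 * max (NUO.Tb (Real.log k) - |τ|) 0) ≤ C := by
  refine ⟨1 + 4 / c ^ 2, by have : 0 < 4 / c ^ 2 := by positivity
                            linarith, fun k τ => ?_⟩
  have hk : (0 : ℝ) ≤ k := Nat.cast_nonneg k
  have hC4 : 0 < 4 / c ^ 2 := by positivity
  have hy0 : 0 ≤ (k : ℝ) * Real.exp (-(8 / 3 * |τ|)) := by positivity
  rcases le_total (NUO.Tb (Real.log k) - |τ|) 0 with h | h
  · rw [max_eq_right h, mul_zero, Real.exp_zero, mul_one]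
    have : Real.exp (-(c * (k * Real.exp (-(8 / 3 * |τ|))))) ≤ 1 := by
      rw [Real.exp_le_one_iff]
      have := mul_nonneg hc.le hy0
      linarith
    linarith
  · rw [max_eq_left h]
    rcases Nat.eq_zero_or_pos k with h0k | hpos
    · subst h0k
      have e : NUO.Tb (Real.log ((0 : ℕ) : ℝ)) = 0 := by simp [NUO.Tb]
      rw [e] at h ⊢
      have : |τ| = 0 := le_antisymm (by linarith) (abs_nonneg τ)
      rw [this]
      simp
      exact hC4.le
    · have hk1 : (0 : ℝ) < k := by exact_mod_cast hpos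
      obtain ⟨y, hy⟩ : ∃ y : ℝ, y = k * Real.exp (-(8 / 3 * |τ|)) := ⟨_, rfl⟩
      have e1 : Real.exp (16 / 3 * (NUO.Tb (Real.log k) - |τ|)) = y ^ 2 := by
        rw [hy, mul_pow]
        have : (k : ℝ) = Real.exp (Real.log k) := (Real.exp_log hk1).symm
        conv_rhs => rw [this]
        rw [← Real.exp_nat_mul, ← Real.exp_nat_mul, ← Real.exp_add]
        congr 1
        unfold NUO.Tb
        push_cast
        ring
      rw [e1, ← hy]
      calc Real.exp (-(c * y)) * y ^ 2 = y ^ 2 * Real.exp (-(c * y)) := by ring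
        _ ≤ 4 / c ^ 2 := sq_mul_exp_neg_le hc (by rw [hy]; exact hy0)
        _ ≤ _ := by linarith

/-- the gain left after the linear term of `hs'` -/
def gC' (c : Bool → List ℂ) (a : Bool) (t : HT) (u : Ch6) (τ : ℝ) : ℝ :=
  if t = .H ∧ u = (false, true) then prX c (!a) (3 / 8) τ else gC c a t u τ

/-- **the own factors with the whole exponent** `MF6X + pl6`: the price of the own rows at `3/8` absorbs
the linear term -/
theorem ownC6P (M0 : ℝ) {s0 h0 : ℝ} (n0 : ℕ) (hs : 0 ≤ s0) (hh : 0 ≤ h0) {κ0 : ℝ}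
    (hκ0 : 0 < κ0) :
    ∃ C : ℝ, 0 < C ∧ ∀ {ι : Type} [Fintype ι] {K0 : ℝ}, (Fintype.card ι : ℝ) * K0 ≤ M0 →
    ∀ {miss : ℕ} {w : ι → ℝ} {x : ι → ℂ} {c : Bool → List ℂ}
    {k : Bool → ℕ} {ex : Bool → List ℂ} {m M : ℕ} {D : RU m M}, OwnD K0 s0 h0 n0 miss w x c k ex D →
    ∀ {lo hi : ℝ} {η η' ρ : ℝ → ℝ}, CurX w x lo hi η η' ρ → -(1 / 4 * NUMF.l) < lo →
    hi < 1 / 4 * NUMF.l → ∀ {K : PBQ.PLX.KD}, IsR K D → ∀ {κ : ℕ} {ep A : ℝ}, 1 ≤ A →
    CutX6 D.x κ ep A D.β D.g D.g0 → CutX6 D.y κ ep A D.β D.g' D.g0' →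
    (∀ a τ, κ0 * (κ * Real.exp (-(8 / 3 * |τ|))) ≤ prX c a (3 / 8) τ) →
    ∀ (a : Bool) (t : HT) (u : Ch6), okC6 t u → ∀ τ : ℝ,
      own6 K a t u (NUP1.vl (NUGC.PLX.htL t) τ) *
        Real.exp (MF6X ρ η (nX c k) t u a (NUP1.vl (NUGC.PLX.htL t) τ) + pl6 κ t u τ) ≤
      C * A ^ 4 * Real.exp (-|τ|) * cut (Real.log κ) ep (qh6 t u) τ *
        Real.exp (-gC' c a t u τ) := by
  obtain ⟨C, hC, H⟩ := ownC6 M0 n0 hs hh
  obtain ⟨C2, hC2, H2⟩ := rate_absorb hκ0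
  refine ⟨C * C2, by positivity, fun {ι} _ {K0} hM0 {miss w x c k ex m M D} hD {lo hi η η' ρ} hc h1 h2
    {K} hK {κ ep A} hA hX hY hr a t u hu τ => ?_⟩
  have b := H hM0 hD hc h1 h2 hK hA hX hY a t u hu τ
  have hcut : 0 < cut (Real.log κ) ep (qh6 t u) τ := cutP
  have hA4 : 0 < A ^ 4 := by positivity
  have he := Real.exp_pos (-|τ|)
  rw [Real.exp_add, ← mul_assoc]
  refine (mul_le_mul_of_nonneg_right b (Real.exp_pos _).le).trans ?_
  by_cases ht : t = .H ∧ u = (false, true)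
  · obtain ⟨rfl, rfl⟩ := ht
    have e1 : gC c a .H (false, true) τ = prX c a (3 / 8) τ + prX c (!a) (3 / 8) τ := rfl
    have e2 : gC' c a .H (false, true) τ = prX c (!a) (3 / 8) τ := rfl
    have e3 : pl6 κ .H (false, true) τ = 16 / 3 * max (NUO.Tb (Real.log κ) - |τ|) 0 := rfl
    rw [e1, e2, e3, neg_add, Real.exp_add]
    have h3 : Real.exp (-prX c a (3 / 8) τ) * Real.exp (16 / 3 * max (NUO.Tb (Real.log κ) - |τ|) 0) ≤
        C2 := (mul_le_mul_of_nonneg_right (Real.exp_le_exp.2 (neg_le_neg (hr a τ)))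
          (Real.exp_pos _).le).trans (H2 κ τ)
    have hg := Real.exp_pos (-prX c (!a) (3 / 8) τ)
    calc _ = (C * A ^ 4 * Real.exp (-|τ|) * cut (Real.log κ) ep (qh6 .H (false, true)) τ *
          Real.exp (-prX c (!a) (3 / 8) τ)) * (Real.exp (-prX c a (3 / 8) τ) *
          Real.exp (16 / 3 * max (NUO.Tb (Real.log κ) - |τ|) 0)) := by ring
      _ ≤ (C * A ^ 4 * Real.exp (-|τ|) * cut (Real.log κ) ep (qh6 .H (false, true)) τ *
          Real.exp (-prX c (!a) (3 / 8) τ)) * C2 :=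
          mul_le_mul_of_nonneg_left h3 (by positivity)
      _ = _ := by ring
  · have e2 : gC' c a t u τ = gC c a t u τ := if_neg ht
    have e3 : pl6 κ t u τ = 0 := if_neg ht
    rw [e2, e3, Real.exp_zero, mul_one]
    have hg := Real.exp_pos (-gC c a t u τ)
    calc _ = (C * A ^ 4 * Real.exp (-|τ|) * cut (Real.log κ) ep (qh6 t u) τ *
          Real.exp (-gC c a t u τ)) * 1 := by ring
      _ ≤ (C * A ^ 4 * Real.exp (-|τ|) * cut (Real.log κ) ep (qh6 t u) τ *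
          Real.exp (-gC c a t u τ)) * C2 := mul_le_mul_of_nonneg_left hC2 (by positivity)
      _ = _ := by ring

/-! ### class D1 -/

/-- the sea term of class D1 over a sea on a curve, half quantum of species `a` at `W` -/
def MFdX (ρ η : ℝ → ℝ) (s : ℝ) (W : ℂ) : ℝ :=
  s * ∫ y, ρ y * lw (NUSp.wX .d) W (NUP1.vl (NUMF.l - η y) y)

private theorem cwD_bd : ∃ C1 : ℝ, 0 ≤ C1 ∧ ∀ (τ : ℝ) (y : ℂ), -l ≤ y.re → y.re ≤ l / 2 →
    |cwX (-3) (NUSp.wX .d) ((NUGC.PLX.htL .F - y.re) / l) (τ - y.im)| ≤ C1 := by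
  have hl := NUMF.l_pos
  obtain ⟨C, hC, H⟩ := Hc_bd (b := 19 / 4 * NUMF.l) (by linarith)
  refine ⟨4 * (C / 2 + 1), by positivity, fun τ y h1 h2 => ?_⟩
  obtain ⟨a1, a2⟩ := vk0 (t := .F) h1 h2
  have b := cwX_hc H (k0 := -3) a1 a2 (NUSp.wX .d) (τ - y.im)
  have e1 : cS (NUSp.wX .d) = 0 := by norm_num [cS, NUSp.wX]
  have e2 : cN (NUSp.wX .d) = 4 := by norm_num [cN, NUSp.wX]
  rw [e1, e2, zero_mul, sub_zero] at b
  exact b

/-- **class D1 with its sea term** -/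
theorem ownC6D (M0 : ℝ) {s0 h0 : ℝ} (n0 : ℕ) (hh : 0 ≤ h0) :
    ∃ C : ℝ, 0 < C ∧ ∀ {ι : Type} [Fintype ι] {K0 : ℝ}, (Fintype.card ι : ℝ) * K0 ≤ M0 →
    ∀ {miss : ℕ} {w : ι → ℝ} {x : ι → ℂ} {c : Bool → List ℂ}
    {k : Bool → ℕ} {ex : Bool → List ℂ} {m M : ℕ} {D : RU m M}, OwnD K0 s0 h0 n0 miss w x c k ex D →
    ∀ {lo hi : ℝ} {η η' ρ : ℝ → ℝ}, CurX w x lo hi η η' ρ → -(1 / 4 * NUMF.l) < lo →
    hi < 1 / 4 * NUMF.l → ∀ (o : Bool) (τ : ℝ),
      ‖(if o = true then D.XD else D.XD') (NUP1.vl (NUGC.PLX.htL .F) τ)‖ *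
        Real.exp (MFdX ρ η (nX c k (!o)) (NUP1.vl (NUGC.PLX.htL .F) τ)) ≤
      C * Real.exp (-(2 * |τ|)) := by
  obtain ⟨C1, hC1, H⟩ := cwD_bd
  obtain ⟨E, hE⟩ : ∃ E, E = Real.exp (M0 * C1) := ⟨_, rfl⟩
  have hE0 : 0 < E := by rw [hE]; exact Real.exp_pos _
  obtain ⟨Q, hQ⟩ : ∃ Q, Q = cRO h0 ^ 2 * cRO h0 ^ n0 := ⟨_, rfl⟩
  have hR := one_le_cRO hh
  have hQ0 : 0 < Q := by rw [hQ]; positivity
  refine ⟨Q * 4 * E, by positivity, fun {ι} _ {K0} hM0 {miss w x c k ex m M D} hD {lo hi η η' ρ} hc h1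
    h2 o τ => ?_⟩
  have hmm : Fintype.card ι * (K0 * C1) ≤ M0 * C1 := by
    have := mul_le_mul_of_nonneg_right hM0 hC1
    linarith
  have hl := NUP1.l_pos
  have hch := Real.cosh_pos τ
  -- the sea
  have hre : (NUP1.vl (NUGC.PLX.htL .F) τ).re = NUGC.PLX.htL .F := by simp [NUP1.vl]
  have him : (NUP1.vl (NUGC.PLX.htL .F) τ).im = τ := by simp [NUP1.vl]
  obtain ⟨w1, w2⟩ := htL_win h1 h2 .F
  have hi1 := (int_lwX hc (k0 := -3) (W := NUP1.vl (NUGC.PLX.htL .F) τ) (by rw [hre]; exact w1)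
    (by rw [hre]; exact w2) (NUSp.wX .d)).2
  rw [hre, him] at hi1
  have hsea : ∀ s : Bool, Real.exp (MFdX ρ η (nX c k s) (NUP1.vl (NUGC.PLX.htL .F) τ)) ≤
      Real.exp (((c s).map fun y => cwX (-3) (NUSp.wX .d) ((NUGC.PLX.htL .F - y.re) / l)
        (τ - y.im)).sum) * E := by
    intro s
    have b := (hD.cnt s).alg hD.mass
      (f := fun y => cwX (-3) (NUSp.wX .d) ((NUGC.PLX.htL .F - y.re) / l) (τ - y.im)) (L := 0)
      (C := C1) fun i => by rw [sub_zero]; exact H τ (x i) (hD.lo i) (hD.up i)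
    rw [mul_zero, add_zero] at b
    have e : MFdX ρ η (nX c k s) (NUP1.vl (NUGC.PLX.htL .F) τ) = (((c s).length : ℝ) + k s) *
        ∑ i, w i * cwX (-3) (NUSp.wX .d) ((NUGC.PLX.htL .F - (x i).re) / l) (τ - (x i).im) := by
      unfold MFdX
      rw [hi1]
      rfl
    rw [e, hE, ← Real.exp_add]
    exact Real.exp_le_exp.2 (by linarith [(abs_le.1 b).2])
  -- one species
  have key : ∀ {n : ℕ} (y : Fin n → ℂ) (p q : ℂ) (s : Bool), EndL h0 p → EndL h0 q →
      RwL n0 h0 miss (k s) (List.ofFn y) (c s) (ex s) →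
      ‖NUP1.N.XD p q y (NUP1.vl (NUGC.PLX.htL .F) τ)‖ *
        Real.exp (MFdX ρ η (nX c k s) (NUP1.vl (NUGC.PLX.htL .F) τ)) ≤
        Q * 4 * E * Real.exp (-(2 * |τ|)) := by
    intro n y p q s hp hq hr
    obtain ⟨a1, a2⟩ := ewin (t := .F) hp.lo hp.up
    obtain ⟨a3, a4⟩ := ewin (t := .F) hq.lo hq.up
    have f1 := rf_okA (A := -26) (B := -20) (L := [(1, -1)]) (by decide) (by decide)
      (r := NUGC.PLX.htL .F) (τ := τ) (x := p) hh (by exact_mod_cast a1) (by exact_mod_cast a2) hp.im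
    have f2 := rf_okA (A := -26) (B := -20) (L := [(0, -1)]) (by decide) (by decide)
      (r := NUGC.PLX.htL .F) (τ := τ) (x := q) hh (by exact_mod_cast a3) (by exact_mod_cast a4) hq.im
    have s1 := rows_split hr hh (t := .F) (L := [(-2, 1), (0, -1)]) (by decide) (by decide) τ
    have e0 : rs [(-2, 1), (0, -1)] = 0 := by decide
    have e1 : rs [(1, -1)] = -1 := by decide
    have e2 : rs [(0, -1)] = -1 := by decide
    rw [e0, zpow_zero, one_pow, mul_one] at s1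
    rw [e1, zpow_neg_one] at f1
    rw [e2, zpow_neg_one] at f2
    have q1 : ((c s).map fun y => rf [(-2, 1), (0, -1)] (NUP1.vl (NUGC.PLX.htL .F) τ - y)).prod *
        Real.exp (((c s).map fun y => cwX (-3) (NUSp.wX .d) ((NUGC.PLX.htL .F - y.re) / l)
          (τ - y.im)).sum) ≤ Real.exp (-((c s).map fun _ => (0 : ℝ)).sum) := by
      refine prod_gexp (fun y => rf_nonneg _ _) fun y hy => ?_
      have hre' : (NUP1.vl (NUGC.PLX.htL .F) τ - y).re = NUGC.PLX.htL .F - y.re := by simp [NUP1.vl]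
      have him' : (NUP1.vl (NUGC.PLX.htL .F) τ - y).im = τ - y.im := by simp [NUP1.vl]
      obtain ⟨v1, v2⟩ : LW .F ((NUGC.PLX.htL .F - y.re) / l) := vLW (hr.co y hy).1 (hr.co y hy).2
      have b := row_D (z := NUP1.vl (NUGC.PLX.htL .F) τ - y) (by rw [hre']; linarith)
        (by rw [hre']; linarith)
      rw [hre', him'] at b
      rwa [neg_zero, Real.exp_zero]
    rw [sum0, neg_zero, Real.exp_zero] at q1
    have g0 : ‖NUP1.N.XD p q y (NUP1.vl (NUGC.PLX.htL .F) τ)‖ = Real.sin (2 * l) ^ 2 *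
        (rf [(1, -1)] (NUP1.vl (NUGC.PLX.htL .F) τ - p) *
          rf [(0, -1)] (NUP1.vl (NUGC.PLX.htL .F) τ - q) *
          ((List.ofFn y).map fun y => rf [(-2, 1), (0, -1)]
            (NUP1.vl (NUGC.PLX.htL .F) τ - y)).prod) := by
      rw [norm_XD_PR, List.map_ofFn, List.prod_ofFn]
      rfl
    have hs0 : 0 < Real.sin (2 * l) := NUPn.sin2l_pos
    have hs1 := Real.sin_le_one (2 * l)
    have hs2 : Real.sin (2 * l) ^ 2 ≤ 1 := pow_le_one₀ hs0.le hs1
    have hic := inv_cosh τ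
    have hic0 : 0 < (Real.cosh τ)⁻¹ := inv_pos.2 hch
    have hsq : (Real.cosh τ)⁻¹ * (Real.cosh τ)⁻¹ ≤ 4 * Real.exp (-(2 * |τ|)) := by
      calc _ ≤ (2 * Real.exp (-|τ|)) * (2 * Real.exp (-|τ|)) :=
            mul_le_mul hic hic hic0.le (by positivity)
        _ = 4 * (Real.exp (-|τ|) * Real.exp (-|τ|)) := by ring
        _ = _ := by
            rw [← Real.exp_add]
            congr 2
            ring
    have hse := hsea s
    rw [g0]
    have F1n := rf_nonneg [(1, -1)] (NUP1.vl (NUGC.PLX.htL .F) τ - p)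
    have F2n := rf_nonneg [(0, -1)] (NUP1.vl (NUGC.PLX.htL .F) τ - q)
    have P1n : 0 ≤ ((c s).map fun y => rf [(-2, 1), (0, -1)]
        (NUP1.vl (NUGC.PLX.htL .F) τ - y)).prod := List.prod_nonneg fun b hb => by
      obtain ⟨y, -, rfl⟩ := List.mem_map.1 hb
      exact rf_nonneg _ _
    have Q1n : 0 ≤ ((List.ofFn y).map fun y => rf [(-2, 1), (0, -1)]
        (NUP1.vl (NUGC.PLX.htL .F) τ - y)).prod := List.prod_nonneg fun b hb => by
      obtain ⟨y, -, rfl⟩ := List.mem_map.1 hb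
      exact rf_nonneg _ _
    have Vn := Real.exp_pos (((c s).map fun y => cwX (-3) (NUSp.wX .d)
      ((NUGC.PLX.htL .F - y.re) / l) (τ - y.im)).sum)
    have Mn := Real.exp_pos (MFdX ρ η (nX c k s) (NUP1.vl (NUGC.PLX.htL .F) τ))
    generalize rf [(1, -1)] (NUP1.vl (NUGC.PLX.htL .F) τ - p) = F1 at *
    generalize rf [(0, -1)] (NUP1.vl (NUGC.PLX.htL .F) τ - q) = F2 at *
    generalize ((c s).map fun y => rf [(-2, 1), (0, -1)]
        (NUP1.vl (NUGC.PLX.htL .F) τ - y)).prod = P1 at *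
    generalize ((List.ofFn y).map fun y => rf [(-2, 1), (0, -1)]
        (NUP1.vl (NUGC.PLX.htL .F) τ - y)).prod = Q1 at *
    generalize Real.exp (((c s).map fun y => cwX (-3) (NUSp.wX .d)
      ((NUGC.PLX.htL .F - y.re) / l) (τ - y.im)).sum) = V at *
    generalize Real.exp (MFdX ρ η (nX c k s) (NUP1.vl (NUGC.PLX.htL .F) τ)) = MM at *
    generalize hI : (Real.cosh τ)⁻¹ = I1 at *
    rw [hQ]
    generalize cRO h0 = R at *
    have hR0 : 0 < R := by linarith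
    calc Real.sin (2 * l) ^ 2 * (F1 * F2 * Q1) * MM ≤
        1 * ((R * I1) * (R * I1) * (P1 * R ^ n0)) * (V * E) := by gcongr
      _ = R ^ 2 * R ^ n0 * (I1 * I1) * (P1 * V) * E := by ring
      _ ≤ R ^ 2 * R ^ n0 * (4 * Real.exp (-(2 * |τ|))) * 1 * E := by gcongr
      _ = _ := by ring
  cases o
  · exact key D.x D.q D.p true hD.eq hD.ep hD.rX
  · exact key D.y D.p D.q false hD.ep hD.eq hD.rY

end PLT

end
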