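import Pool.Agent.PLT.LetR
import Pool.Agent.PLT.FinG
import Pool.Agent.PLX.PB.OwnLe0

/-!
# The own factor of a letter for a record `RU`

* `PR p q x y L1 L2 L3 L4 w`: products of powers of sines: end `p`, end `q`, rows `x`, rows `y`;
* `Ph6 D t u w`: the cutoffs of the letter;
* **`own6_le`**: the own factor of a letter of species X is at most
  `cOw6 PR (Lp t u) (Lq t u) (Lo t u) (Lx t u) Ph6`; species Y: `own6_sw`;
* `IsR K D`: the kernels of the data, a captured quantum by `KP` or by the regular form `KR`;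
  **`own6_leR`**: `own6_le` for them; `swK K`: the species exchanged;
* `CutX6`: bounds of the cutoffs of one species (rows `x`) at the places of the half quanta.
-/

set_option autoImplicit false
set_option linter.unusedSectionVars false
set_option linter.unusedVariables false
set_option linter.unusedSimpArgs false

noncomputable section

open Set

namespace PLT

open NURow (HT)
open PHK PBR.PLX
open NUP1 (l)
open PB0.PLX (KRU cH)
open Pool.Agent.PLX (RU RRU XXU)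

/-! ### products of powers of sines -/

/-- the list shifted by `k` -/
def shL (k : ℤ) (L : List (ℤ × ℤ)) : List (ℤ × ℤ) := L.map fun je => (je.1 + k, je.2)

/-- the list of the inverse -/
def ngL (L : List (ℤ × ℤ)) : List (ℤ × ℤ) := L.map fun je => (je.1, -je.2)

theorem rf_shL (k : ℤ) (L : List (ℤ × ℤ)) (z : ℂ) : rf (shL k L) z = rf L (z + k * l) := by
  induction L with
  | nil => rfl
  | cons a L ih =>
    rw [show shL k (a :: L) = (a.1 + k, a.2) :: shL k L from rfl, rf_cons, rf_cons, ih]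
    simp only
    rw [show z + ((a.1 + k : ℤ) : ℂ) * l = z + k * l + a.1 * l by push_cast; ring]

theorem rf_ngL (L : List (ℤ × ℤ)) (z : ℂ) : rf (ngL L) z = (rf L z)⁻¹ := by
  induction L with
  | nil => simp [rf, ngL]
  | cons a L ih =>
    rw [show ngL (a :: L) = (a.1, -a.2) :: ngL L from rfl, rf_cons, rf_cons, ih, mul_inv, zpow_neg]

section PR

variable {m M : ℕ} {p q : ℂ} {x : Fin m → ℂ} {y : Fin M → ℂ} {w : ℂ}

/-- products of powers of sines: ends and rows -/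
def PR {m M : ℕ} (p q : ℂ) (x : Fin m → ℂ) (y : Fin M → ℂ) (L1 L2 L3 L4 : List (ℤ × ℤ)) (w : ℂ) : ℝ :=
  rf L1 (w - p) * rf L2 (w - q) * (∏ i, rf L3 (w - x i)) * ∏ j, rf L4 (w - y j)

theorem PR_nonneg (L1 L2 L3 L4 : List (ℤ × ℤ)) : 0 ≤ PR p q x y L1 L2 L3 L4 w :=
  mul_nonneg (mul_nonneg (mul_nonneg (rf_nonneg _ _) (rf_nonneg _ _))
    (Finset.prod_nonneg fun _ _ => rf_nonneg _ _)) (Finset.prod_nonneg fun _ _ => rf_nonneg _ _)

theorem PR_mul (L1 L2 L3 L4 R1 R2 R3 R4 : List (ℤ × ℤ)) :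
    PR p q x y L1 L2 L3 L4 w * PR p q x y R1 R2 R3 R4 w =
      PR p q x y (L1 ++ R1) (L2 ++ R2) (L3 ++ R3) (L4 ++ R4) w := by
  unfold PR
  simp only [rf_append, Finset.prod_mul_distrib]
  ring

theorem PR_inv (L1 L2 L3 L4 : List (ℤ × ℤ)) :
    (PR p q x y L1 L2 L3 L4 w)⁻¹ = PR p q x y (ngL L1) (ngL L2) (ngL L3) (ngL L4) w := by
  unfold PR
  simp only [rf_ngL, Finset.prod_inv_distrib, mul_inv]

theorem PR_shL (k : ℤ) (L1 L2 L3 L4 : List (ℤ × ℤ)) :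
    PR p q x y (shL k L1) (shL k L2) (shL k L3) (shL k L4) w =
      PR p q x y L1 L2 L3 L4 (w + k * l) := by
  have e : ∀ c : ℂ, w - c + k * l = w + k * l - c := fun c => by ring
  unfold PR
  simp only [rf_shL, e]

/-- the species exchanged -/
theorem PR_sw (L1 L2 L3 L4 : List (ℤ × ℤ)) :
    PR q p y x L2 L1 L4 L3 w = PR p q x y L1 L2 L3 L4 w := by
  unfold PR
  ring

/-- the prefactor of a half quantum -/
theorem norm_pr1_PR : ‖NUP1.N.pr1 p q x y w‖ =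
    Real.sin (2 * l) * PR p q x y [(0, -1), (-2, -1)] [(3, 1)] [(0, -1)] [(3, 1)] w := by
  have e : ∀ c : ℂ, w - c - 2 * (l : ℂ) = w - c + ((-2 : ℤ) : ℂ) * l := fun c => by
    push_cast
    ring
  have e3 : ∀ c : ℂ, w - c + 3 * (l : ℂ) = w - c + ((3 : ℤ) : ℂ) * l := fun c => by
    push_cast
    ring
  have e0 : ∀ c : ℂ, w - c + ((0 : ℤ) : ℂ) * l = w - c := fun c => by
    push_cast
    ring
  have hs : ‖Complex.sin (2 * (l : ℂ))‖ = Real.sin (2 * l) := NUPn.norm_sin2l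
  unfold NUP1.N.pr1 NUP1.N.prc NUP1.N.rA NUP1.N.rB NUP1.Leg.kap PR
  simp only [norm_mul, norm_div, norm_inv, norm_prod, norm_one, rf_cons, rf_nil, e, e3, e0, hs, zpow_one,
    mul_one, zpow_neg_one, one_div, div_eq_mul_inv, mul_inv]
  ring_nf

/-- rows and ends of a quantum -/
theorem norm_RR_PR (c : ℂ) : ‖RRU c x y w‖ * ‖NUP1.Leg.thE p p q q w‖ =
    ‖c‖ * PR p q x y [(3, 1), (-2, -1)] [(3, 1), (-2, -1)] [(0, -1), (-2, -1)] [(3, 2)] w := by
  have e : ∀ c : ℂ, w - c - 2 * (l : ℂ) = w - c + ((-2 : ℤ) : ℂ) * l := fun c => by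
    push_cast
    ring
  have e3 : ∀ c : ℂ, w - c + 3 * (l : ℂ) = w - c + ((3 : ℤ) : ℂ) * l := fun c => by
    push_cast
    ring
  have e0 : ∀ c : ℂ, w - c + ((0 : ℤ) : ℂ) * l = w - c := fun c => by
    push_cast
    ring
  have e2 : ∀ c : ℂ, ‖Complex.sin (c - w + 2 * (l : ℂ))‖ =
      ‖Complex.sin (w - c + ((-2 : ℤ) : ℂ) * l)‖ := fun c => by
    rw [← norm_neg, ← Complex.sin_neg]
    congr 2
    push_cast
    ring
  unfold RRU NUP1.Leg.thE PR
  simp only [norm_mul, norm_div, norm_inv, norm_prod, norm_pow, norm_one, rf_cons, rf_nil, e, e2, e3, e0,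
    one_mul, Finset.prod_const_one,
    zpow_one, mul_one, zpow_neg_one, one_div, div_eq_mul_inv, mul_inv, Finset.prod_mul_distrib,
    show ∀ a : ℝ, a ^ (2 : ℤ) = a ^ 2 from fun a => zpow_ofNat a 2]
  ring

end PR

/-! ### the one body functions -/

section data

variable {m M : ℕ} (D : RU m M)

/-- the products over the rows and ends of the data -/
def dPR (L1 L2 L3 L4 : List (ℤ × ℤ)) (w : ℂ) : ℝ := PR D.p D.q D.x D.y L1 L2 L3 L4 w

theorem dPR_nonneg (L1 L2 L3 L4 : List (ℤ × ℤ)) (w : ℂ) : 0 ≤ dPR D L1 L2 L3 L4 w :=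
  PR_nonneg _ _ _ _

theorem dPR_mul (L1 L2 L3 L4 R1 R2 R3 R4 : List (ℤ × ℤ)) (w : ℂ) :
    dPR D L1 L2 L3 L4 w * dPR D R1 R2 R3 R4 w =
      dPR D (L1 ++ R1) (L2 ++ R2) (L3 ++ R3) (L4 ++ R4) w := PR_mul _ _ _ _ _ _ _ _

theorem norm_KF (w : ℂ) : ‖D.KF w‖ =
    Real.sin (2 * l) * dPR D [(0, -1), (-2, -1)] [(3, 1)] [(0, -1)] [(3, 1)] w := norm_pr1_PR

theorem norm_Xn (w : ℂ) : ‖D.X none w‖ =
    ‖D.c‖ * dPR D [(3, 1), (-2, -1)] [(3, 1), (-2, -1)] [(0, -1), (-2, -1)] [(3, 2)] w *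
      ‖PBX.ph D.β D.x D.g w‖ := by
  show ‖RRU D.c D.x D.y w * PBX.ph D.β D.x D.g w * NUP1.Leg.thE D.p D.p D.q D.q w‖ = _
  rw [norm_mul, norm_mul, mul_right_comm, norm_RR_PR]
  rfl

/-- a quantum of species Y -/
theorem norm_Yn (w : ℂ) : ‖D.Y none w‖ =
    ‖D.c'‖ * dPR D [(3, 1), (-2, -1)] [(3, 1), (-2, -1)] [(3, 2)] [(0, -1), (-2, -1)] w *
      ‖PBX.ph D.β D.y D.g' w‖ := by
  show ‖RRU D.c' D.y D.x w * PBX.ph D.β D.y D.g' w * NUP1.Leg.thE D.q D.q D.p D.p w‖ = _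
  rw [norm_mul, norm_mul, mul_right_comm, norm_RR_PR, PR_sw]
  rfl

/-- the quantum captured by a half quantum of species X -/
theorem norm_Yn3 (w : ℂ) : ‖D.Y none (w + 3 * l)‖ =
    ‖D.c'‖ * dPR D [(6, 1), (1, -1)] [(6, 1), (1, -1)] [(6, 2)] [(3, -1), (1, -1)] w *
      ‖PBX.ph D.β D.y D.g' (w + 3 * l)‖ := by
  have h := PR_shL (p := D.p) (q := D.q) (x := D.x) (y := D.y) (w := w) 3 [(3, 1), (-2, -1)]
    [(3, 1), (-2, -1)] [(3, 2)] [(0, -1), (-2, -1)]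
  rw [norm_Yn]
  congr 2
  unfold dPR
  rw [show w + 3 * (l : ℂ) = w + ((3 : ℤ) : ℂ) * l by push_cast; ring, ← h]
  simp [shL]

/-- the string hosted by a half quantum of species X -/
theorem norm_YS (w : ℂ) : ‖D.Y (some .S) (w - 2 * l)‖ =
    ‖D.c'‖ ^ 2 * dPR D [(1, 1), (-4, -1), (0, 1), (-5, -1)] [(1, 1), (-4, -1), (0, 1), (-5, -1)]
      [(1, 2), (0, 2)] [(-2, -1), (-4, -1), (-3, -1), (-5, -1)] w *
      ‖PBX.ph (4 / 3) D.y D.g0' (w - 2 * l)‖ := by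
  have h1 := PR_shL (p := D.p) (q := D.q) (x := D.x) (y := D.y) (w := w) (-2) [(3, 1), (-2, -1)]
    [(3, 1), (-2, -1)] [(3, 2)] [(0, -1), (-2, -1)]
  have h2 := PR_shL (p := D.p) (q := D.q) (x := D.x) (y := D.y) (w := w) (-3) [(3, 1), (-2, -1)]
    [(3, 1), (-2, -1)] [(3, 2)] [(0, -1), (-2, -1)]
  have k1 := norm_RR_PR (p := D.q) (q := D.p) (x := D.y) (y := D.x) (w := w - 2 * l) D.c'
  have k2 := norm_RR_PR (p := D.q) (q := D.p) (x := D.y) (y := D.x) (w := w - 2 * l - l) D.c'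
  rw [PR_sw, show w - 2 * (l : ℂ) = w + ((-2 : ℤ) : ℂ) * l by push_cast; ring, ← h1] at k1
  rw [PR_sw, show w - 2 * (l : ℂ) - l = w + ((-3 : ℤ) : ℂ) * l by push_cast; ring, ← h2] at k2
  have e1 : w - 2 * (l : ℂ) = w + ((-2 : ℤ) : ℂ) * l := by push_cast; ring
  have e2 : w + ((-2 : ℤ) : ℂ) * l - l = w + ((-3 : ℤ) : ℂ) * l := by push_cast; ring
  show ‖RRU D.c' D.y D.x (w - 2 * l) * RRU D.c' D.y D.x (w - 2 * l - l) *
    PBX.ph (4 / 3) D.y D.g0' (w - 2 * l) * (NUP1.Leg.thE D.q D.q D.p D.p (w - 2 * l) *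
      NUP1.Leg.thE D.q D.q D.p D.p (w - 2 * l - l))‖ = _
  rw [e1, e2]
  simp only [norm_mul]
  have e := PR_mul (p := D.p) (q := D.q) (x := D.x) (y := D.y) (w := w)
    (shL (-2) [(3, 1), (-2, -1)]) (shL (-2) [(3, 1), (-2, -1)]) (shL (-2) [(3, 2)])
    (shL (-2) [(0, -1), (-2, -1)]) (shL (-3) [(3, 1), (-2, -1)]) (shL (-3) [(3, 1), (-2, -1)])
    (shL (-3) [(3, 2)]) (shL (-3) [(0, -1), (-2, -1)])
  calc _ = (‖RRU D.c' D.y D.x (w + ((-2 : ℤ) : ℂ) * l)‖ *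
        ‖NUP1.Leg.thE D.q D.q D.p D.p (w + ((-2 : ℤ) : ℂ) * l)‖) *
        (‖RRU D.c' D.y D.x (w + ((-3 : ℤ) : ℂ) * l)‖ *
        ‖NUP1.Leg.thE D.q D.q D.p D.p (w + ((-3 : ℤ) : ℂ) * l)‖) *
        ‖PBX.ph (4 / 3) D.y D.g0' (w + ((-2 : ℤ) : ℂ) * l)‖ := by ring
    _ = ‖D.c'‖ ^ 2 * (PR D.p D.q D.x D.y (shL (-2) [(3, 1), (-2, -1)])
        (shL (-2) [(3, 1), (-2, -1)]) (shL (-2) [(3, 2)]) (shL (-2) [(0, -1), (-2, -1)]) w *
        PR D.p D.q D.x D.y (shL (-3) [(3, 1), (-2, -1)])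
        (shL (-3) [(3, 1), (-2, -1)]) (shL (-3) [(3, 2)]) (shL (-3) [(0, -1), (-2, -1)]) w) *
        ‖PBX.ph (4 / 3) D.y D.g0' (w + ((-2 : ℤ) : ℂ) * l)‖ := by
        rw [k1, k2]
        ring
    _ = _ := by
        rw [e]
        rfl

/-! ### the letter -/

/-- the cutoffs of a letter of species X -/
def Ph6 (t : HT) (u : Ch6) (w : ℂ) : ℝ :=
  match t with
  | .W => 1
  | .F => 1
  | .P => if u.2 = true then 1 else ‖PBX.ph D.β D.y D.g' (w + 3 * l)‖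
  | .H => ‖PBX.ph (4 / 3) D.y D.g0' (w - 2 * l)‖ *
      (if u.1 = true then ‖PBX.ph D.β D.x D.g w‖ else 1) *
      (if u.2 = true then ‖PBX.ph D.β D.y D.g' w‖⁻¹ else 1)

theorem Ph6_nonneg (t : HT) (u : Ch6) (w : ℂ) : 0 ≤ Ph6 D t u w := by
  unfold Ph6
  cases t
  · exact zero_le_one
  · exact zero_le_one
  · simp only
    split_ifs <;> positivity
  · simp only
    split_ifs <;> positivity

/-- the constant of the own factor -/
def cOw6 : ℝ := 100 * (1 + cH) * (1 + ‖NUGC.PLX.hR1 0‖) * (1 + cHo)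

theorem cOw6_pos : 0 < cOw6 := by
  have h1 : 0 ≤ cH := norm_nonneg _
  have h2 := norm_nonneg (NUGC.PLX.hR1 0)
  have h3 := cHo_pos
  unfold cOw6
  positivity

private theorem own6_H (t : HT) (u : Ch6) (w : ℂ) : own6 (KRU D) true .H u w =
    cH * (‖D.Y (some .S) (w - 2 * l)‖ * ‖D.KF w‖) *
      (if u.1 = true then ‖D.X none w‖ * ‖NUGC.PLX.hR1 0‖ else 1) *
      (3 * (if u.2 = true then cHo * ‖D.Y none w‖⁻¹ else 1)) := by
  have e0 : ‖NUGC.PLX.ownK D.KF D.KP D.Y .H w‖ =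
      cH * (‖D.Y (some .S) (w - 2 * l)‖ * ‖D.KF w‖) := by
    show ‖-(2 * Real.pi * NURow.rD (2 * NUP1.l) * NUP1.Bd.wt .S *
      D.Y (some .S) (w - 2 * NUP1.l)) * D.KF w‖ = _
    rw [norm_mul, norm_neg, norm_mul]
    unfold cH
    ring
  have e1 : own6 (KRU D) true .H u w = ‖NUGC.PLX.ownK D.KF D.KP D.Y .H w‖ *
      (if u.1 = true then ‖D.X none w * NUGC.PLX.hR1 0‖ else 1) *
      (3 * (if u.2 = true then cHo * ‖D.Y none w‖⁻¹ else 1)) := rfl
  rw [e1, e0, norm_mul]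

private theorem rf_cancel (j : ℤ) (L : List (ℤ × ℤ)) (z : ℂ) :
    rf ((j, 1) :: (j, -1) :: L) z ≤ rf L z := by
  rw [rf_cons, rf_cons, ← mul_assoc, zpow_one, zpow_neg_one]
  refine mul_le_of_le_one_left (rf_nonneg L z) ?_
  exact mul_inv_le_one

private theorem dPR_cancel (j : ℤ) (L1 L2 L3 L4 : List (ℤ × ℤ)) (w : ℂ) :
    dPR D L1 L2 L3 ((j, 1) :: (j, -1) :: L4) w ≤ dPR D L1 L2 L3 L4 w := by
  unfold dPR PR
  refine mul_le_mul_of_nonneg_left (Finset.prod_le_prod (fun _ _ => rf_nonneg _ _)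
    fun i _ => rf_cancel j L4 _) ?_
  exact mul_nonneg (mul_nonneg (rf_nonneg _ _) (rf_nonneg _ _))
    (Finset.prod_nonneg fun _ _ => rf_nonneg _ _)

/-- **the own factor of a letter of species X** -/
theorem own6_le (hc : ‖D.c‖ ≤ 2) (hc' : ‖D.c'‖ ≤ 2) {t : HT} {u : Ch6} (hu : okC6 t u) (w : ℂ) :
    own6 (KRU D) true t u w ≤
      cOw6 * dPR D (Lp t u) (Lq t u) (Lo t u) (Lx t u) w * Ph6 D t u w := by
  have s2 : 0 < Real.sin (2 * l) := NUPn.sin2l_pos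
  have s1 : 0 < Real.sin l := NUPn.sin1l_pos
  have s2' := Real.sin_le_one (2 * l)
  have s1' := Real.sin_le_one l
  have n1 : ‖Complex.sin (l : ℂ)‖ = Real.sin l := NUPn.norm_sin1l
  have n2 : ‖Complex.sin (2 * (l : ℂ))‖ = Real.sin (2 * l) := NUPn.norm_sin2l
  have g1 : 0 ≤ cH := norm_nonneg _
  have g2 := norm_nonneg (NUGC.PLX.hR1 0)
  have g3 := cHo_pos
  have c0 := norm_nonneg D.c
  have c0' := norm_nonneg D.c'
  have b1 : 1 ≤ (1 + cH) * (1 + ‖NUGC.PLX.hR1 0‖) := by nlinarith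
  have big : 100 * (1 + cHo) ≤ cOw6 := by
    unfold cOw6
    nlinarith [mul_le_mul_of_nonneg_right b1 (by positivity : 0 ≤ 100 * (1 + cHo))]
  have hKF := norm_KF D w
  obtain ⟨u1, u2⟩ := u
  cases t
  · have e1 : u1 = false := by
      by_contra h
      have := hu.1 (by simpa using h)
      simp at this
    have e2 : u2 = false := by
      by_contra h
      have := hu.2 (by simpa using h)
      simp at this
    subst e1 e2
    have e : own6 (KRU D) true .W (false, false) w = ‖D.KF w‖ * 1 * (1 * 1) := rfl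
    have e3 : dPR D (Lp .W (false, false)) (Lq .W (false, false)) (Lo .W (false, false))
      (Lx .W (false, false)) w = dPR D [(0, -1), (-2, -1)] [(3, 1)] [(0, -1)] [(3, 1)] w := rfl
    have e4 : Ph6 D .W (false, false) w = 1 := rfl
    rw [e, e3, e4, hKF, mul_one, mul_one, mul_one, mul_one]
    exact mul_le_mul_of_nonneg_right (by linarith) (dPR_nonneg D _ _ _ _ w)
  · have e1 : u1 = false := by
      by_contra h
      have := hu.1 (by simpa using h)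
      simp at this
    have e2 : u2 = false := by
      by_contra h
      have := hu.2 (by simpa using h)
      simp at this
    subst e1 e2
    have e : own6 (KRU D) true .F (false, false) w = ‖D.KF w‖ * 1 * (1 * 1) := rfl
    have e3 : dPR D (Lp .F (false, false)) (Lq .F (false, false)) (Lo .F (false, false))
      (Lx .F (false, false)) w = dPR D [(0, -1), (-2, -1)] [(3, 1)] [(0, -1)] [(3, 1)] w := rfl
    have e4 : Ph6 D .F (false, false) w = 1 := rfl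
    rw [e, e3, e4, hKF, mul_one, mul_one, mul_one, mul_one]
    exact mul_le_mul_of_nonneg_right (by linarith) (dPR_nonneg D _ _ _ _ w)
  · have e1 : u1 = false := by
      by_contra h
      have := hu.1 (by simpa using h)
      simp at this
    subst e1
    have eP : ‖D.KP w‖ = Real.sin l / Real.sin (2 * l) * (‖D.KF w‖ * ‖D.Y none (w + 3 * l)‖) := by
      show ‖Complex.sin l / Complex.sin (2 * l) * (D.KF w * D.Y none (w + 3 * l))‖ = _
      rw [norm_mul, norm_div, norm_mul, n1, n2]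
    cases u2
    · have e : own6 (KRU D) true .P (false, false) w = ‖D.KP w‖ * 1 * (1 * 1) := rfl
      have e4 : Ph6 D .P (false, false) w = ‖PBX.ph D.β D.y D.g' (w + 3 * l)‖ := rfl
      have e5 := dPR_mul D [(0, -1), (-2, -1)] [(3, 1)] [(0, -1)] [(3, 1)]
        [(6, 1), (1, -1)] [(6, 1), (1, -1)] [(6, 2)] [(3, -1), (1, -1)] w
      have e6 : dPR D [(0, -1), (-2, -1)] [(3, 1)] [(0, -1)] [(3, 1)] w * dPR D
          [(6, 1), (1, -1)] [(6, 1), (1, -1)] [(6, 2)] [(3, -1), (1, -1)] w ≤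
          dPR D (Lp .P (false, false)) (Lq .P (false, false)) (Lo .P (false, false))
            (Lx .P (false, false)) w := by
        rw [e5]
        exact dPR_cancel D 3 _ _ _ [(1, -1)] w
      have p0 := norm_nonneg (PBX.ph D.β D.y D.g' (w + 3 * l))
      have q0 := dPR_nonneg D (Lp .P (false, false)) (Lq .P (false, false)) (Lo .P (false, false))
            (Lx .P (false, false)) w
      rw [e, e4, eP, hKF, norm_Yn3, mul_one, mul_one, mul_one]
      calc _ = Real.sin l * ‖D.c'‖ * (dPR D [(0, -1), (-2, -1)] [(3, 1)] [(0, -1)] [(3, 1)] w *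
            dPR D [(6, 1), (1, -1)] [(6, 1), (1, -1)] [(6, 2)] [(3, -1), (1, -1)] w) *
            ‖PBX.ph D.β D.y D.g' (w + 3 * l)‖ := by field_simp
        _ ≤ 2 * dPR D (Lp .P (false, false)) (Lq .P (false, false)) (Lo .P (false, false))
            (Lx .P (false, false)) w * ‖PBX.ph D.β D.y D.g' (w + 3 * l)‖ := by
            refine mul_le_mul_of_nonneg_right (mul_le_mul ?_ e6 ?_ two_pos.le) p0
            · nlinarith
            · exact mul_nonneg (dPR_nonneg D _ _ _ _ w) (dPR_nonneg D _ _ _ _ w)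
        _ ≤ _ := mul_le_mul_of_nonneg_right (mul_le_mul_of_nonneg_right (by linarith) q0) p0
    · have e : own6 (KRU D) true .P (false, true) w = ‖D.KP w‖ * 1 *
          (1 * (cHo * ‖D.Y none (w + 3 * l)‖⁻¹)) := rfl
      have e4 : Ph6 D .P (false, true) w = 1 := rfl
      have e3 : dPR D (Lp .P (false, true)) (Lq .P (false, true)) (Lo .P (false, true))
        (Lx .P (false, true)) w = dPR D [(0, -1), (-2, -1)] [(3, 1)] [(0, -1)] [(3, 1)] w := rfl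
      rw [e, e3, e4, eP, hKF, mul_one, mul_one, one_mul]
      have q0 := dPR_nonneg D [(0, -1), (-2, -1)] [(3, 1)] [(0, -1)] [(3, 1)] w
      have h1 : ‖D.Y none (w + 3 * l)‖ * ‖D.Y none (w + 3 * l)‖⁻¹ ≤ 1 := mul_inv_le_one
      have h2 : 0 ≤ ‖D.Y none (w + 3 * l)‖ * ‖D.Y none (w + 3 * l)‖⁻¹ := by positivity
      calc _ = Real.sin l * cHo * (‖D.Y none (w + 3 * l)‖ * ‖D.Y none (w + 3 * l)‖⁻¹) *
            dPR D [(0, -1), (-2, -1)] [(3, 1)] [(0, -1)] [(3, 1)] w := by field_simp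
        _ ≤ cOw6 * dPR D [(0, -1), (-2, -1)] [(3, 1)] [(0, -1)] [(3, 1)] w := by
            refine mul_le_mul_of_nonneg_right ?_ q0
            calc _ ≤ 1 * cHo * 1 := by gcongr
              _ ≤ _ := by linarith
  · have eC : ‖D.c'‖ ^ 2 * ‖D.c'‖⁻¹ ≤ 2 := by
      rcases eq_or_ne ‖D.c'‖ 0 with h0 | h0
      · rw [h0]
        norm_num
      · rw [pow_two, mul_assoc, mul_inv_cancel₀ h0, mul_one]
        exact hc'
    have eC2 : ‖D.c'‖ ^ 2 ≤ 4 := by nlinarith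
    have pS := norm_nonneg (PBX.ph (4 / 3) D.y D.g0' (w - 2 * l))
    have pX := norm_nonneg (PBX.ph D.β D.x D.g w)
    have pY := inv_nonneg.2 (norm_nonneg (PBX.ph D.β D.y D.g' w))
    rw [own6_H D .H, hKF, norm_YS]
    have a1 := dPR_mul D [(0, -1), (-2, -1)] [(3, 1)] [(0, -1)] [(3, 1)]
      [(1, 1), (-4, -1), (0, 1), (-5, -1)] [(1, 1), (-4, -1), (0, 1), (-5, -1)] [(1, 2), (0, 2)]
      [(-2, -1), (-4, -1), (-3, -1), (-5, -1)] w
    have hcase : ∀ (k : ℝ) (E : ℝ), 0 ≤ E → k ≤ cOw6 → k * E ≤ cOw6 * E := fun k E hE hk =>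
      mul_le_mul_of_nonneg_right hk hE
    have hb : ∀ κ : ℝ, 0 ≤ κ → κ ≤ 100 → κ * (cH * (1 + ‖NUGC.PLX.hR1 0‖) * (1 + cHo)) ≤ cOw6 := by
      intro κ k0 k1
      unfold cOw6
      have t1 : 0 ≤ cH * (1 + ‖NUGC.PLX.hR1 0‖) * (1 + cHo) := by positivity
      have t2 : cH * (1 + ‖NUGC.PLX.hR1 0‖) * (1 + cHo) ≤
          (1 + cH) * (1 + ‖NUGC.PLX.hR1 0‖) * (1 + cHo) := by gcongr; linarith
      calc _ ≤ 100 * ((1 + cH) * (1 + ‖NUGC.PLX.hR1 0‖) * (1 + cHo)) := by gcongr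
        _ = _ := by ring
    cases u1 <;> cases u2
    · have e4 : Ph6 D .H (false, false) w = ‖PBX.ph (4 / 3) D.y D.g0' (w - 2 * l)‖ * 1 * 1 := rfl
      have e3 : dPR D (Lp .H (false, false)) (Lq .H (false, false)) (Lo .H (false, false))
        (Lx .H (false, false)) w = _ := a1.symm
      rw [e4, e3]
      have q1 := dPR_nonneg D [(0, -1), (-2, -1)] [(3, 1)] [(0, -1)] [(3, 1)] w
      have q2 := dPR_nonneg D [(1, 1), (-4, -1), (0, 1), (-5, -1)]
        [(1, 1), (-4, -1), (0, 1), (-5, -1)] [(1, 2), (0, 2)]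
        [(-2, -1), (-4, -1), (-3, -1), (-5, -1)] w
      set Q1 := dPR D [(0, -1), (-2, -1)] [(3, 1)] [(0, -1)] [(3, 1)] w
      set Q2 := dPR D [(1, 1), (-4, -1), (0, 1), (-5, -1)]
        [(1, 1), (-4, -1), (0, 1), (-5, -1)] [(1, 2), (0, 2)]
        [(-2, -1), (-4, -1), (-3, -1), (-5, -1)] w
      simp only [Bool.false_eq_true, if_false]
      calc _ = (cH * ‖D.c'‖ ^ 2 * Real.sin (2 * l) * 3) *
            (Q1 * Q2 * ‖PBX.ph (4 / 3) D.y D.g0' (w - 2 * l)‖) := by ring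
        _ ≤ cOw6 * (Q1 * Q2 * ‖PBX.ph (4 / 3) D.y D.g0' (w - 2 * l)‖) := by
            refine mul_le_mul_of_nonneg_right ?_ (by positivity)
            calc cH * ‖D.c'‖ ^ 2 * Real.sin (2 * l) * 3 ≤ cH * 4 * 1 * 3 := by gcongr
              _ ≤ 12 * (cH * (1 + ‖NUGC.PLX.hR1 0‖) * (1 + cHo)) := by
                  have : 1 ≤ (1 + ‖NUGC.PLX.hR1 0‖) * (1 + cHo) := by nlinarith
                  nlinarith
              _ ≤ _ := hb 12 (by norm_num) (by norm_num)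
        _ = _ := by ring
    · -- hole of the other species
      have hY := norm_Yn D w
      have iY := PR_inv (p := D.p) (q := D.q) (x := D.x) (y := D.y) (w := w) [(3, 1), (-2, -1)]
        [(3, 1), (-2, -1)] [(3, 2)] [(0, -1), (-2, -1)]
      have a2 := dPR_mul D ([(0, -1), (-2, -1)] ++ [(1, 1), (-4, -1), (0, 1), (-5, -1)])
        ([(3, 1)] ++ [(1, 1), (-4, -1), (0, 1), (-5, -1)]) ([(0, -1)] ++ [(1, 2), (0, 2)])
        ([(3, 1)] ++ [(-2, -1), (-4, -1), (-3, -1), (-5, -1)])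
        [(3, -1), (-2, 1)] [(3, -1), (-2, 1)] [(3, -2)] [(0, 1), (-2, 1)] w
      rw [← a1] at a2
      have e4 : Ph6 D .H (false, true) w = ‖PBX.ph (4 / 3) D.y D.g0' (w - 2 * l)‖ * 1 *
        ‖PBX.ph D.β D.y D.g' w‖⁻¹ := rfl
      have e3 : dPR D (Lp .H (false, true)) (Lq .H (false, true)) (Lo .H (false, true))
        (Lx .H (false, true)) w = _ := a2.symm
      have e5 : (dPR D [(3, 1), (-2, -1)] [(3, 1), (-2, -1)] [(3, 2)] [(0, -1), (-2, -1)] w)⁻¹ =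
        dPR D [(3, -1), (-2, 1)] [(3, -1), (-2, 1)] [(3, -2)] [(0, 1), (-2, 1)] w := iY
      rw [e4, e3, hY, mul_inv, mul_inv, e5]
      have q1 := dPR_nonneg D [(0, -1), (-2, -1)] [(3, 1)] [(0, -1)] [(3, 1)] w
      have q2 := dPR_nonneg D [(1, 1), (-4, -1), (0, 1), (-5, -1)]
        [(1, 1), (-4, -1), (0, 1), (-5, -1)] [(1, 2), (0, 2)]
        [(-2, -1), (-4, -1), (-3, -1), (-5, -1)] w
      have q3 := dPR_nonneg D [(3, -1), (-2, 1)] [(3, -1), (-2, 1)] [(3, -2)] [(0, 1), (-2, 1)] w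
      set Q1 := dPR D [(0, -1), (-2, -1)] [(3, 1)] [(0, -1)] [(3, 1)] w
      set Q2 := dPR D [(1, 1), (-4, -1), (0, 1), (-5, -1)]
        [(1, 1), (-4, -1), (0, 1), (-5, -1)] [(1, 2), (0, 2)]
        [(-2, -1), (-4, -1), (-3, -1), (-5, -1)] w
      set Q3 := dPR D [(3, -1), (-2, 1)] [(3, -1), (-2, 1)] [(3, -2)] [(0, 1), (-2, 1)] w
      simp only [Bool.false_eq_true, if_false, if_true]
      calc _ = (cH * (‖D.c'‖ ^ 2 * ‖D.c'‖⁻¹) * Real.sin (2 * l) * 3 * cHo) *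
            (Q1 * Q2 * Q3 * ‖PBX.ph (4 / 3) D.y D.g0' (w - 2 * l)‖ *
              ‖PBX.ph D.β D.y D.g' w‖⁻¹) := by ring
        _ ≤ cOw6 * (Q1 * Q2 * Q3 * ‖PBX.ph (4 / 3) D.y D.g0' (w - 2 * l)‖ *
              ‖PBX.ph D.β D.y D.g' w‖⁻¹) := by
            refine mul_le_mul_of_nonneg_right ?_ (by positivity)
            calc cH * (‖D.c'‖ ^ 2 * ‖D.c'‖⁻¹) * Real.sin (2 * l) * 3 * cHo ≤
                cH * 2 * 1 * 3 * cHo := by gcongr
              _ ≤ 6 * (cH * (1 + ‖NUGC.PLX.hR1 0‖) * (1 + cHo)) := by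
                  have : cHo ≤ (1 + ‖NUGC.PLX.hR1 0‖) * (1 + cHo) := by nlinarith
                  nlinarith
              _ ≤ _ := hb 6 (by norm_num) (by norm_num)
        _ = _ := by ring
    · -- own quantum
      have hX := norm_Xn D w
      have a2 := dPR_mul D ([(0, -1), (-2, -1)] ++ [(1, 1), (-4, -1), (0, 1), (-5, -1)])
        ([(3, 1)] ++ [(1, 1), (-4, -1), (0, 1), (-5, -1)]) ([(0, -1)] ++ [(1, 2), (0, 2)])
        ([(3, 1)] ++ [(-2, -1), (-4, -1), (-3, -1), (-5, -1)])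
        [(3, 1), (-2, -1)] [(3, 1), (-2, -1)] [(0, -1), (-2, -1)] [(3, 2)] w
      rw [← a1] at a2
      have e4 : Ph6 D .H (true, false) w = ‖PBX.ph (4 / 3) D.y D.g0' (w - 2 * l)‖ *
        ‖PBX.ph D.β D.x D.g w‖ * 1 := rfl
      have e3 : dPR D (Lp .H (true, false)) (Lq .H (true, false)) (Lo .H (true, false))
        (Lx .H (true, false)) w = _ := a2.symm
      rw [e4, e3, hX]
      have q1 := dPR_nonneg D [(0, -1), (-2, -1)] [(3, 1)] [(0, -1)] [(3, 1)] w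
      have q2 := dPR_nonneg D [(1, 1), (-4, -1), (0, 1), (-5, -1)]
        [(1, 1), (-4, -1), (0, 1), (-5, -1)] [(1, 2), (0, 2)]
        [(-2, -1), (-4, -1), (-3, -1), (-5, -1)] w
      have q3 := dPR_nonneg D [(3, 1), (-2, -1)] [(3, 1), (-2, -1)] [(0, -1), (-2, -1)] [(3, 2)] w
      set Q1 := dPR D [(0, -1), (-2, -1)] [(3, 1)] [(0, -1)] [(3, 1)] w
      set Q2 := dPR D [(1, 1), (-4, -1), (0, 1), (-5, -1)]
        [(1, 1), (-4, -1), (0, 1), (-5, -1)] [(1, 2), (0, 2)]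
        [(-2, -1), (-4, -1), (-3, -1), (-5, -1)] w
      set Q3 := dPR D [(3, 1), (-2, -1)] [(3, 1), (-2, -1)] [(0, -1), (-2, -1)] [(3, 2)] w
      simp only [Bool.false_eq_true, if_false, if_true]
      calc _ = (cH * ‖D.c'‖ ^ 2 * Real.sin (2 * l) * ‖D.c‖ * ‖NUGC.PLX.hR1 0‖ * 3) *
            (Q1 * Q2 * Q3 * ‖PBX.ph (4 / 3) D.y D.g0' (w - 2 * l)‖ *
              ‖PBX.ph D.β D.x D.g w‖) := by ring
        _ ≤ cOw6 * (Q1 * Q2 * Q3 * ‖PBX.ph (4 / 3) D.y D.g0' (w - 2 * l)‖ *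
              ‖PBX.ph D.β D.x D.g w‖) := by
            refine mul_le_mul_of_nonneg_right ?_ (by positivity)
            calc cH * ‖D.c'‖ ^ 2 * Real.sin (2 * l) * ‖D.c‖ * ‖NUGC.PLX.hR1 0‖ * 3 ≤
                cH * 4 * 1 * 2 * ‖NUGC.PLX.hR1 0‖ * 3 := by gcongr
              _ ≤ 24 * (cH * (1 + ‖NUGC.PLX.hR1 0‖) * (1 + cHo)) := by
                  have : ‖NUGC.PLX.hR1 0‖ ≤ (1 + ‖NUGC.PLX.hR1 0‖) * (1 + cHo) := by nlinarith
                  nlinarith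
              _ ≤ _ := hb 24 (by norm_num) (by norm_num)
        _ = _ := by ring
    · -- both
      have hX := norm_Xn D w
      have hY := norm_Yn D w
      have iY := PR_inv (p := D.p) (q := D.q) (x := D.x) (y := D.y) (w := w) [(3, 1), (-2, -1)]
        [(3, 1), (-2, -1)] [(3, 2)] [(0, -1), (-2, -1)]
      have a2 := dPR_mul D ([(0, -1), (-2, -1)] ++ [(1, 1), (-4, -1), (0, 1), (-5, -1)])
        ([(3, 1)] ++ [(1, 1), (-4, -1), (0, 1), (-5, -1)]) ([(0, -1)] ++ [(1, 2), (0, 2)])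
        ([(3, 1)] ++ [(-2, -1), (-4, -1), (-3, -1), (-5, -1)])
        ([(3, 1), (-2, -1)] ++ [(3, -1), (-2, 1)]) ([(3, 1), (-2, -1)] ++ [(3, -1), (-2, 1)])
        ([(0, -1), (-2, -1)] ++ [(3, -2)]) ([(3, 2)] ++ [(0, 1), (-2, 1)]) w
      have a3 := dPR_mul D [(3, 1), (-2, -1)] [(3, 1), (-2, -1)] [(0, -1), (-2, -1)] [(3, 2)]
        [(3, -1), (-2, 1)] [(3, -1), (-2, 1)] [(3, -2)] [(0, 1), (-2, 1)] w
      rw [← a1, ← a3] at a2
      have e4 : Ph6 D .H (true, true) w = ‖PBX.ph (4 / 3) D.y D.g0' (w - 2 * l)‖ *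
        ‖PBX.ph D.β D.x D.g w‖ * ‖PBX.ph D.β D.y D.g' w‖⁻¹ := rfl
      have e3 : dPR D (Lp .H (true, true)) (Lq .H (true, true)) (Lo .H (true, true))
        (Lx .H (true, true)) w = _ := a2.symm
      have e5 : (dPR D [(3, 1), (-2, -1)] [(3, 1), (-2, -1)] [(3, 2)] [(0, -1), (-2, -1)] w)⁻¹ =
        dPR D [(3, -1), (-2, 1)] [(3, -1), (-2, 1)] [(3, -2)] [(0, 1), (-2, 1)] w := iY
      rw [e4, e3, hX, hY, mul_inv, mul_inv, e5]
      have q1 := dPR_nonneg D [(0, -1), (-2, -1)] [(3, 1)] [(0, -1)] [(3, 1)] w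
      have q2 := dPR_nonneg D [(1, 1), (-4, -1), (0, 1), (-5, -1)]
        [(1, 1), (-4, -1), (0, 1), (-5, -1)] [(1, 2), (0, 2)]
        [(-2, -1), (-4, -1), (-3, -1), (-5, -1)] w
      have q3 := dPR_nonneg D [(3, 1), (-2, -1)] [(3, 1), (-2, -1)] [(0, -1), (-2, -1)] [(3, 2)] w
      have q4 := dPR_nonneg D [(3, -1), (-2, 1)] [(3, -1), (-2, 1)] [(3, -2)] [(0, 1), (-2, 1)] w
      set Q1 := dPR D [(0, -1), (-2, -1)] [(3, 1)] [(0, -1)] [(3, 1)] w
      set Q2 := dPR D [(1, 1), (-4, -1), (0, 1), (-5, -1)]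
        [(1, 1), (-4, -1), (0, 1), (-5, -1)] [(1, 2), (0, 2)]
        [(-2, -1), (-4, -1), (-3, -1), (-5, -1)] w
      set Q3 := dPR D [(3, 1), (-2, -1)] [(3, 1), (-2, -1)] [(0, -1), (-2, -1)] [(3, 2)] w
      set Q4 := dPR D [(3, -1), (-2, 1)] [(3, -1), (-2, 1)] [(3, -2)] [(0, 1), (-2, 1)] w
      simp only [if_true]
      calc _ = (cH * (‖D.c'‖ ^ 2 * ‖D.c'‖⁻¹) * Real.sin (2 * l) * ‖D.c‖ * ‖NUGC.PLX.hR1 0‖ * 3 *
            cHo) * (Q1 * Q2 * (Q3 * Q4) * ‖PBX.ph (4 / 3) D.y D.g0' (w - 2 * l)‖ *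
              ‖PBX.ph D.β D.x D.g w‖ * ‖PBX.ph D.β D.y D.g' w‖⁻¹) := by ring
        _ ≤ cOw6 * (Q1 * Q2 * (Q3 * Q4) * ‖PBX.ph (4 / 3) D.y D.g0' (w - 2 * l)‖ *
              ‖PBX.ph D.β D.x D.g w‖ * ‖PBX.ph D.β D.y D.g' w‖⁻¹) := by
            refine mul_le_mul_of_nonneg_right ?_ (by positivity)
            calc cH * (‖D.c'‖ ^ 2 * ‖D.c'‖⁻¹) * Real.sin (2 * l) * ‖D.c‖ * ‖NUGC.PLX.hR1 0‖ * 3 *
                cHo ≤ cH * 2 * 1 * 2 * ‖NUGC.PLX.hR1 0‖ * 3 * cHo := by gcongr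
              _ = 12 * (cH * ‖NUGC.PLX.hR1 0‖ * cHo) := by ring
              _ ≤ 12 * (cH * (1 + ‖NUGC.PLX.hR1 0‖) * (1 + cHo)) := by
                  gcongr <;> linarith
              _ ≤ _ := hb 12 (by norm_num) (by norm_num)
        _ = _ := by ring

/-- the letters of species Y are those of species X of the data with the species exchanged -/
theorem own6_sw (t : HT) (u : Ch6) (w : ℂ) :
    own6 (KRU D) false t u w = own6 (KRU D.sw) true t u w := rfl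

/-! ### class D1 -/

/-- the kernel of class D1 -/
theorem norm_XD_PR {p q w : ℂ} {y : Fin M → ℂ} : ‖NUP1.N.XD p q y w‖ =
    Real.sin (2 * l) ^ 2 * (rf [(1, -1)] (w - p) * rf [(0, -1)] (w - q) *
      ∏ j, rf [(-2, 1), (0, -1)] (w - y j)) := by
  have e : ∀ c : ℂ, w - c - 2 * (l : ℂ) = w - c + ((-2 : ℤ) : ℂ) * l := fun c => by
    push_cast
    ring
  have e1 : ∀ c : ℂ, w - c + (l : ℂ) = w - c + ((1 : ℤ) : ℂ) * l := fun c => by
    push_cast
    ring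
  have e0 : ∀ c : ℂ, w - c + ((0 : ℤ) : ℂ) * l = w - c := fun c => by
    push_cast
    ring
  have hs : ‖Complex.sin (2 * (l : ℂ))‖ = Real.sin (2 * l) := NUPn.norm_sin2l
  unfold NUP1.N.XD
  simp only [norm_mul, norm_div, norm_neg, norm_inv, norm_pow, norm_prod, norm_one, rf_cons, rf_nil,
    e, e1, e0, hs, zpow_one, mul_one, zpow_neg_one, one_div, div_eq_mul_inv, mul_inv]
  ring

/-! ### the regular form of the kernels -/

private theorem norm_prc_PR {p q w : ℂ} {x : Fin m → ℂ} {y : Fin M → ℂ} :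
    ‖NUP1.N.prc p q x w‖ =
      Real.sin (2 * l) * PR p q x y [(0, -1), (-2, -1)] [(3, 1)] [(0, -1)] [] w := by
  have e : ∀ c : ℂ, w - c - 2 * (l : ℂ) = w - c + ((-2 : ℤ) : ℂ) * l := fun c => by
    push_cast
    ring
  have e3 : ∀ c : ℂ, w - c + 3 * (l : ℂ) = w - c + ((3 : ℤ) : ℂ) * l := fun c => by
    push_cast
    ring
  have e0 : ∀ c : ℂ, w - c + ((0 : ℤ) : ℂ) * l = w - c := fun c => by
    push_cast
    ring
  have hs : ‖Complex.sin (2 * (l : ℂ))‖ = Real.sin (2 * l) := NUPn.norm_sin2l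
  unfold NUP1.N.prc NUP1.N.rA NUP1.Leg.kap PR
  simp only [norm_mul, norm_div, norm_inv, norm_prod, norm_one, rf_cons, rf_nil, e, e3, e0, hs,
    zpow_one, mul_one, zpow_neg_one, one_div, div_eq_mul_inv, mul_inv, Finset.prod_const_one]
  ring_nf

private theorem norm_hE_PR {p q u : ℂ} {x : Fin m → ℂ} {y : Fin M → ℂ} (c : ℂ) :
    ‖NUP1.Leg.hE c p p q q x y u‖ =
      ‖c‖ * PR p q x y [(3, 1), (-2, -1)] [(3, 1), (-2, -1)] [(-2, -1)] [(3, 2)] u := by
  have e : ∀ c : ℂ, u - c - 2 * (l : ℂ) = u - c + ((-2 : ℤ) : ℂ) * l := fun c => by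
    push_cast
    ring
  have e3 : ∀ c : ℂ, u - c + 3 * (l : ℂ) = u - c + ((3 : ℤ) : ℂ) * l := fun c => by
    push_cast
    ring
  have e2 : ∀ c : ℂ, ‖Complex.sin (c - u + 2 * (l : ℂ))‖ =
      ‖Complex.sin (u - c + ((-2 : ℤ) : ℂ) * l)‖ := fun c => by
    rw [← norm_neg, ← Complex.sin_neg]
    congr 2
    push_cast
    ring
  unfold NUP1.Leg.hE NUP1.Leg.hr NUP1.Leg.thE PR
  simp only [norm_mul, norm_div, norm_inv, norm_prod, norm_pow, norm_one, rf_cons, rf_nil, e, e2, e3,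
    one_mul, Finset.prod_const_one,
    zpow_one, mul_one, zpow_neg_one, one_div, div_eq_mul_inv, mul_inv, Finset.prod_mul_distrib,
    show ∀ a : ℝ, a ^ (2 : ℤ) = a ^ 2 from fun a => zpow_ofNat a 2]
  ring

/-- the prefactor of a half quantum with a captured quantum, regular form -/
theorem norm_KR (w : ℂ) : ‖D.KR w‖ = Real.sin l * ‖D.c'‖ *
    dPR D ([(0, -1), (-2, -1)] ++ [(6, 1), (1, -1)]) ([(3, 1)] ++ [(6, 1), (1, -1)])
      ([(0, -1)] ++ [(6, 2)]) [(1, -1)] w * ‖PBX.ph D.β D.y D.g' (w + 3 * l)‖ := by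
  have s2 : 0 < Real.sin (2 * l) := NUPn.sin2l_pos
  have n1 : ‖Complex.sin (l : ℂ)‖ = Real.sin l := NUPn.norm_sin1l
  have n2 : ‖Complex.sin (2 * (l : ℂ))‖ = Real.sin (2 * l) := NUPn.norm_sin2l
  have k1 := norm_prc_PR (p := D.p) (q := D.q) (w := w) (x := D.x) (y := D.y)
  have k2 := norm_hE_PR (p := D.q) (q := D.p) (u := w + 3 * l) (x := D.y) (y := D.x) D.c'
  have h := PR_shL (p := D.p) (q := D.q) (x := D.x) (y := D.y) (w := w) 3 [(3, 1), (-2, -1)]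
    [(3, 1), (-2, -1)] [(3, 2)] [(-2, -1)]
  rw [PR_sw, show w + 3 * (l : ℂ) = w + ((3 : ℤ) : ℂ) * l by push_cast; ring, ← h] at k2
  have e := PR_mul (p := D.p) (q := D.q) (x := D.x) (y := D.y) (w := w) [(0, -1), (-2, -1)] [(3, 1)]
    [(0, -1)] [] (shL 3 [(3, 1), (-2, -1)]) (shL 3 [(3, 1), (-2, -1)]) (shL 3 [(3, 2)])
    (shL 3 [(-2, -1)])
  show ‖Complex.sin l / Complex.sin (2 * l) * (NUP1.N.prc D.p D.q D.x w *
    (NUP1.Leg.hE D.c' D.q D.q D.p D.p D.y D.x (w + 3 * l) *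
      PBX.ph D.β D.y D.g' (w + 3 * l)))‖ = _
  rw [show w + 3 * (l : ℂ) = w + ((3 : ℤ) : ℂ) * l by push_cast; ring]
  rw [norm_mul, norm_div, norm_mul, norm_mul, n1, n2, k1, k2]
  calc _ = Real.sin l * ‖D.c'‖ * (PR D.p D.q D.x D.y [(0, -1), (-2, -1)] [(3, 1)]
        [(0, -1)] [] w * PR D.p D.q D.x D.y (shL 3 [(3, 1), (-2, -1)]) (shL 3 [(3, 1), (-2, -1)])
        (shL 3 [(3, 2)]) (shL 3 [(-2, -1)]) w) *
        ‖PBX.ph D.β D.y D.g' (w + ((3 : ℤ) : ℂ) * l)‖ := by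
        generalize PR D.p D.q D.x D.y [(0, -1), (-2, -1)] [(3, 1)] [(0, -1)] [] w = A
        generalize PR D.p D.q D.x D.y (shL 3 [(3, 1), (-2, -1)]) (shL 3 [(3, 1), (-2, -1)])
          (shL 3 [(3, 2)]) (shL 3 [(-2, -1)]) w = B
        field_simp
    _ = _ := by
        rw [e]
        rfl

/-- the regular form against the hole at the captured quantum -/
theorem norm_KR_inv (w : ℂ) : ‖D.KR w‖ * ‖D.Y none (w + 3 * l)‖⁻¹ ≤
    dPR D [(0, -1), (-2, -1)] [(3, 1)] [(0, -1)] [(3, 1)] w := by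
  have s1' := Real.sin_le_one l
  have s1 : 0 < Real.sin l := NUPn.sin1l_pos
  have q0 := dPR_nonneg D [(0, -1), (-2, -1)] [(3, 1)] [(0, -1)] [(3, 1)] w
  rcases eq_or_ne ‖D.Y none (w + 3 * l)‖ 0 with h0 | h0
  · rw [h0, inv_zero, mul_zero]
    exact q0
  · have hy : ∀ j, Complex.sin (w - D.y j + ((3 : ℤ) : ℂ) * l) ≠ 0 := by
      intro j hj
      apply h0
      rw [norm_Yn3]
      have : ∏ j, rf [(3, -1), (1, -1)] (w - D.y j) = 0 := by
        refine Finset.prod_eq_zero (Finset.mem_univ j) ?_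
        rw [rf_cons]
        simp only
        rw [hj, norm_zero]
        simp
      unfold dPR PR
      rw [this]
      ring
    have e : dPR D [(0, -1), (-2, -1)] [(3, 1)] [(0, -1)] [(3, 1)] w *
        dPR D [(6, 1), (1, -1)] [(6, 1), (1, -1)] [(6, 2)] [(3, -1), (1, -1)] w =
        dPR D ([(0, -1), (-2, -1)] ++ [(6, 1), (1, -1)]) ([(3, 1)] ++ [(6, 1), (1, -1)])
          ([(0, -1)] ++ [(6, 2)]) [(1, -1)] w := by
      rw [dPR_mul]
      unfold dPR PR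
      congr 1
      refine Finset.prod_congr rfl fun j _ => ?_
      have hn := norm_pos_iff.2 (hy j)
      rw [List.singleton_append, rf_cons, rf_cons, zpow_one, zpow_neg_one, ← mul_assoc,
        mul_inv_cancel₀ hn.ne', one_mul]
    have hY := norm_Yn3 D w
    rw [← div_eq_mul_inv, div_le_iff₀ (lt_of_le_of_ne (norm_nonneg _) h0.symm), norm_KR, hY, ← e]
    have p0 := norm_nonneg (PBX.ph D.β D.y D.g' (w + 3 * l))
    have q1 := dPR_nonneg D [(6, 1), (1, -1)] [(6, 1), (1, -1)] [(6, 2)] [(3, -1), (1, -1)] w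
    have c0 := norm_nonneg D.c'
    calc _ = Real.sin l * (dPR D [(0, -1), (-2, -1)] [(3, 1)] [(0, -1)] [(3, 1)] w * (‖D.c'‖ *
          dPR D [(6, 1), (1, -1)] [(6, 1), (1, -1)] [(6, 2)] [(3, -1), (1, -1)] w *
          ‖PBX.ph D.β D.y D.g' (w + 3 * l)‖)) := by ring
      _ ≤ 1 * (dPR D [(0, -1), (-2, -1)] [(3, 1)] [(0, -1)] [(3, 1)] w * (‖D.c'‖ *
          dPR D [(6, 1), (1, -1)] [(6, 1), (1, -1)] [(6, 2)] [(3, -1), (1, -1)] w *
          ‖PBX.ph D.β D.y D.g' (w + 3 * l)‖)) := mul_le_mul_of_nonneg_right s1' (by positivity)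
      _ = _ := one_mul _

end data

/-- the kernels of the data, a captured quantum by `KP` or by the regular form -/
structure IsR {m M : ℕ} (K : PBQ.PLX.KD) (D : RU m M) : Prop where
  z1 : K.Z true = D.X
  z2 : K.Z false = D.Y
  f1 : K.kF = D.KF
  f2 : K.kF' = D.KF'
  p1 : K.kP = D.KP ∨ K.kP = D.KR
  p2 : K.kP' = D.KP' ∨ K.kP' = D.KR'

/-- the species exchanged -/
def swK (K : PBQ.PLX.KD) : PBQ.PLX.KD := ⟨fun a => K.Z (!a), K.kF', K.kP', K.kF, K.kP⟩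

theorem own6_swK (K : PBQ.PLX.KD) (t : HT) (u : Ch6) (w : ℂ) :
    own6 K false t u w = own6 (swK K) true t u w := by
  unfold own6
  congr 1

theorem IsR.sw {m M : ℕ} {K : PBQ.PLX.KD} {D : RU m M} (h : IsR K D) : IsR (swK K) D.sw :=
  ⟨h.z2, h.z1, h.f2, h.f1, h.p2, h.p1⟩

theorem isR_KRU {m M : ℕ} (D : RU m M) : IsR (KRU D) D := ⟨rfl, rfl, rfl, rfl, Or.inl rfl, Or.inl rfl⟩

/-- **the own factor of a letter of species X**, a captured quantum by `KP` or by the regular form -/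
theorem own6_leR {m M : ℕ} {K : PBQ.PLX.KD} {D : RU m M} (h : IsR K D) (hc : ‖D.c‖ ≤ 2)
    (hc' : ‖D.c'‖ ≤ 2) {t : HT} {u : Ch6} (hu : okC6 t u) (w : ℂ) :
    own6 K true t u w ≤
      cOw6 * dPR D (Lp t u) (Lq t u) (Lo t u) (Lx t u) w * Ph6 D t u w := by
  have hq : t ≠ .P ∨ K.kP = D.KP → own6 K true t u w = own6 (KRU D) true t u w := by
    intro hP
    have e1 : ownH6 K true t u w = ownH6 (KRU D) true t u w := by
      unfold ownH6
      rw [show K.Z (!true) = (KRU D).Z (!true) from h.z2]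
    have e2 : K.ownQ true w = (KRU D).ownQ true w := by
      unfold PBQ.PLX.KD.ownQ
      rw [show K.Z true = (KRU D).Z true from h.z1]
    have e3 : K.ownZ true t w = (KRU D).ownZ true t w := by
      unfold PBQ.PLX.KD.ownZ
      rw [show K.Z false = (KRU D).Z false from h.z2, show K.kF = (KRU D).kF from h.f1]
      rw [if_pos rfl, if_pos rfl]
      rcases hP with hP | hP
      · cases t
        · rfl
        · rfl
        · exact absurd rfl hP
        · rfl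
      · rw [show K.kP = (KRU D).kP from hP]
    unfold own6 PBQ.PLX.KD.own
    rw [e1, e2, e3]
  rcases h.p1 with hp | hp
  · rw [hq (Or.inr hp)]
    exact own6_le D hc hc' hu w
  by_cases ht : t = .P
  swap
  · rw [hq (Or.inl ht)]
    exact own6_le D hc hc' hu w
  subst ht
  have s1 : 0 < Real.sin l := NUPn.sin1l_pos
  have s1' := Real.sin_le_one l
  have g1 : 0 ≤ cH := norm_nonneg _
  have g2 := norm_nonneg (NUGC.PLX.hR1 0)
  have g3 := cHo_pos
  have c0' := norm_nonneg D.c'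
  have b1 : 1 ≤ (1 + cH) * (1 + ‖NUGC.PLX.hR1 0‖) := by nlinarith
  have big : 100 * (1 + cHo) ≤ cOw6 := by
    unfold cOw6
    nlinarith [mul_le_mul_of_nonneg_right b1 (by positivity : 0 ≤ 100 * (1 + cHo))]
  obtain ⟨u1, u2⟩ := u
  have e1 : u1 = false := by
    by_contra h'
    have := hu.1 (by simpa using h')
    simp at this
  subst e1
  have eo : ‖K.ownZ true .P w‖ = ‖D.KR w‖ := by
    show ‖NUGC.PLX.ownK K.kF K.kP (K.Z false) .P w‖ = _
    rw [hp]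
    rfl
  cases u2
  · have e : own6 K true .P (false, false) w = ‖K.ownZ true .P w‖ * 1 * (1 * 1) := rfl
    have e4 : Ph6 D .P (false, false) w = ‖PBX.ph D.β D.y D.g' (w + 3 * l)‖ := rfl
    have e3 : dPR D (Lp .P (false, false)) (Lq .P (false, false)) (Lo .P (false, false))
      (Lx .P (false, false)) w = dPR D ([(0, -1), (-2, -1)] ++ [(6, 1), (1, -1)])
        ([(3, 1)] ++ [(6, 1), (1, -1)]) ([(0, -1)] ++ [(6, 2)]) [(1, -1)] w := rfl
    rw [e, e3, e4, eo, norm_KR, mul_one, mul_one, mul_one]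
    refine mul_le_mul_of_nonneg_right (mul_le_mul_of_nonneg_right ?_ (dPR_nonneg D _ _ _ _ w))
      (norm_nonneg _)
    nlinarith
  · have e : own6 K true .P (false, true) w = ‖K.ownZ true .P w‖ * 1 *
        (1 * (cHo * ‖K.Z false none (w + 3 * l)‖⁻¹)) := rfl
    have e4 : Ph6 D .P (false, true) w = 1 := rfl
    have e3 : dPR D (Lp .P (false, true)) (Lq .P (false, true)) (Lo .P (false, true))
      (Lx .P (false, true)) w = dPR D [(0, -1), (-2, -1)] [(3, 1)] [(0, -1)] [(3, 1)] w := rfl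
    rw [e, e3, e4, eo, h.z2, mul_one, mul_one, one_mul]
    have h1 := norm_KR_inv D w
    have q0 := dPR_nonneg D [(0, -1), (-2, -1)] [(3, 1)] [(0, -1)] [(3, 1)] w
    calc _ = cHo * (‖D.KR w‖ * ‖D.Y none (w + 3 * l)‖⁻¹) := by ring
      _ ≤ cHo * dPR D [(0, -1), (-2, -1)] [(3, 1)] [(0, -1)] [(3, 1)] w :=
          mul_le_mul_of_nonneg_left h1 g3.le
      _ ≤ _ := mul_le_mul_of_nonneg_right (by linarith) q0

/-! ### the cutoffs at the half quanta -/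

/-- **bounds of the cutoffs of one species** (rows `x`) at the places of the half quanta -/
structure CutX6 {m : ℕ} (x : Fin m → ℂ) (k : ℕ) (ep A β : ℝ) (g g0 : ℂ → ℂ) : Prop where
  q : ∀ τ : ℝ, ‖PBX.ph β x g (NUP1.vl (1 / 4 * l) τ)‖ ≤ A * NUGC.cut (Real.log k) ep (-1) τ
  h : ∀ τ : ℝ, ‖PBX.ph β x g (NUP1.vl (5 / 8 * l) τ)‖ ≤ A
  hl : ∀ τ : ℝ, ‖PBX.ph β x g (NUP1.vl (5 / 8 * l) τ)‖⁻¹ ≤ A * (NUGC.cut (Real.log k) ep (-1) τ)⁻¹
  s2 : ∀ τ : ℝ, ‖PBX.ph (4 / 3) x g0 (NUP1.vl (-(11 / 8) * l) τ)‖ ≤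
    A * NUGC.cut (Real.log k) ep (-1) τ ^ 2

end PLT

end
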