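import Pool.Agent.PLT.LetMC
import Pool.Agent.PLT.RowX
import Pool.Agent.PHK.LetO

/-!
# The own factors of the letters: one row and its cloud

* `rf L z`: a product of powers of sines; `rs L`: the sum of the exponents; `lsF L v t`: the logarithm;
  `rf_le_exp`; **`rf_bd`**: `rf L z ≤ C cosh ^ rs L` away from the poles;
* `Lo`, `Lx`, `Lp`, `Lq`: the factors of a letter: a row of the own species, of the other species, the
  end of the own species, of the other species;
* `gnO`, `gnX`: the gains; **`row_O`, `row_X`**: row factor times cloud of one row at most `exp (-gain)`;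
  `row_D`: class D1;
* **`own6_le`**: the own factor of a letter for every record `RU`.
-/

set_option autoImplicit false
set_option linter.unusedSectionVars false
set_option linter.unusedVariables false
set_option linter.unusedSimpArgs false

noncomputable section

open Set

namespace PLT

open NUMF (l_pos zj)
open NUHM (ls ls_per ls_neg)
open NURow (HT)
open PHK PBR.PLX
open NUP1 (l vl)

/-! ### products of powers of sines -/

/-- a product of powers of sines -/
def rf (L : List (ℤ × ℤ)) (z : ℂ) : ℝ := (L.map fun je => ‖Complex.sin (z + je.1 * l)‖ ^ je.2).prod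

/-- the sum of the exponents -/
def rs (L : List (ℤ × ℤ)) : ℤ := (L.map fun je => je.2).sum

/-- the number of sines -/
def rn (L : List (ℤ × ℤ)) : ℕ := (L.map fun je => je.2.natAbs).sum

/-- the logarithm -/
def lsF (L : List (ℤ × ℤ)) (v t : ℝ) : ℝ := (L.map fun je => (je.2 : ℝ) * ls (v + je.1) t).sum

theorem rf_nil (z : ℂ) : rf [] z = 1 := rfl

theorem rf_cons (a : ℤ × ℤ) (L : List (ℤ × ℤ)) (z : ℂ) :
    rf (a :: L) z = ‖Complex.sin (z + a.1 * l)‖ ^ a.2 * rf L z := by simp [rf]

theorem rf_append (L L' : List (ℤ × ℤ)) (z : ℂ) : rf (L ++ L') z = rf L z * rf L' z := by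
  simp [rf]

theorem rf_nonneg (L : List (ℤ × ℤ)) (z : ℂ) : 0 ≤ rf L z := by
  refine List.prod_nonneg fun b hb => ?_
  obtain ⟨y, -, rfl⟩ := List.mem_map.1 hb
  exact zpow_nonneg (norm_nonneg _) _

theorem lsF_nil (v t : ℝ) : lsF [] v t = 0 := rfl

theorem lsF_cons (a : ℤ × ℤ) (L : List (ℤ × ℤ)) (v t : ℝ) :
    lsF (a :: L) v t = (a.2 : ℝ) * ls (v + a.1) t + lsF L v t := by simp [lsF]

theorem rs_nil : rs [] = 0 := rfl

theorem rs_cons (a : ℤ × ℤ) (L : List (ℤ × ℤ)) : rs (a :: L) = a.2 + rs L := by simp [rs]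

theorem rn_cons (a : ℤ × ℤ) (L : List (ℤ × ℤ)) : rn (a :: L) = a.2.natAbs + rn L := by simp [rn]

private theorem sin_zj (z : ℂ) (j : ℤ) : z + j * l = zj (z.re / l + j) z.im := by
  have hl := NUP1.l_pos
  unfold NUMF.zj
  rw [show (NUMF.l : ℝ) = l from rfl]
  apply Complex.ext
  · simp
    field_simp
  · simp

/-- one power -/
private theorem one_le_exp (z : ℂ) (j e : ℤ) :
    ‖Complex.sin (z + j * l)‖ ^ e ≤ Real.exp (e * ls (z.re / l + j) z.im) := by
  rw [sin_zj]
  by_cases h : Complex.sin (zj (z.re / l + j) z.im) = 0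
  · rw [h, norm_zero]
    rcases eq_or_ne e 0 with rfl | he
    · simp
    · rw [zero_zpow e he]
      exact (Real.exp_pos _).le
  · have h1 := NUHM.ls_eq h
    have h2 : ‖Complex.sin (zj (z.re / l + j) z.im)‖ = Real.exp (ls (z.re / l + j) z.im) := by
      rw [← h1, Real.exp_log (norm_pos_iff.2 h)]
    rw [h2, ← Real.rpow_intCast, ← Real.exp_mul, mul_comm]

/-- **the logarithm from above**: true at every point -/
theorem rf_le_exp (L : List (ℤ × ℤ)) (z : ℂ) : rf L z ≤ Real.exp (lsF L (z.re / l) z.im) := by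
  induction L with
  | nil => simp [rf, lsF]
  | cons a L ih =>
    rw [rf_cons, lsF_cons, Real.exp_add]
    exact mul_le_mul (one_le_exp z a.1 a.2) ih (rf_nonneg L z) (Real.exp_pos _).le

private theorem im_add (z : ℂ) (j : ℤ) : (z + j * l).im = z.im := by simp

private theorem re_add (z : ℂ) (j : ℤ) : (z + j * l).re = z.re + j * l := by simp

/-- **away from the poles** -/
theorem rf_bd {d : ℝ} (h : 0 < d) (h4 : d ≤ 4) {L : List (ℤ × ℤ)} {z : ℂ}
    (hz : ∀ je ∈ L, je.2 < 0 → d * l ≤ |z.re + je.1 * l| ∧ |z.re + je.1 * l| ≤ 8 * l - d * l) :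
    rf L z ≤ ((sd d)⁻¹) ^ rn L * Real.cosh z.im ^ rs L := by
  have hs := sd_pos h (by linarith)
  have hs1 : 1 ≤ (sd d)⁻¹ := (one_le_inv₀ hs).2 (Real.sin_le_one _)
  have hc := Real.cosh_pos z.im
  induction L with
  | nil => simp [rf, rs, rn]
  | cons a L ih =>
    obtain ⟨j, e⟩ := a
    have i := ih fun je hje => hz je (by simp [hje])
    rw [rf_cons, rn_cons, rs_cons, pow_add, zpow_add₀ hc.ne']
    have key : ‖Complex.sin (z + j * l)‖ ^ e ≤ ((sd d)⁻¹) ^ e.natAbs * Real.cosh z.im ^ e := by
      have hup : ‖Complex.sin (z + j * l)‖ ≤ Real.cosh z.im := by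
        have := PBO.PLX.sin_up (z + j * l)
        rwa [im_add] at this
      rcases le_or_gt 0 e with he | he
      · obtain ⟨n, rfl⟩ := Int.eq_ofNat_of_zero_le he
        simp only [Int.ofNat_eq_natCast, Int.natAbs_natCast, zpow_natCast]
        have h1 : ‖Complex.sin (z + j * l)‖ ^ n ≤ Real.cosh z.im ^ n :=
          pow_le_pow_left₀ (norm_nonneg _) hup n
        have h2 : 1 ≤ ((sd d)⁻¹) ^ n := one_le_pow₀ hs1
        have h3 : 0 ≤ Real.cosh z.im ^ n := by positivity
        nlinarith
      · obtain ⟨a1, a2⟩ := hz (j, e) (by simp) he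
        have h1 := sin_sd (z := z + j * l) h h4 (by rw [re_add]; exact a1) (by rw [re_add]; exact a2)
        rw [im_add] at h1
        obtain ⟨n, hn⟩ : ∃ n : ℕ, e = -(n : ℤ) := ⟨e.natAbs, by omega⟩
        rw [hn]
        simp only [Int.natAbs_neg, Int.natAbs_natCast, zpow_neg, zpow_natCast]
        rw [← inv_pow, ← inv_pow, ← mul_pow, ← mul_inv]
        exact pow_le_pow_left₀ (by positivity) (inv_anti₀ (by positivity) h1) n
    calc _ ≤ (((sd d)⁻¹) ^ e.natAbs * Real.cosh z.im ^ e) * (((sd d)⁻¹) ^ rn L * Real.cosh z.im ^ rs L) :=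
          mul_le_mul key i (rf_nonneg L z) (by positivity)
      _ = _ := by ring

/-! ### the lists of the letters -/

/-- a row of the own species -/
def Lo : HT → Ch6 → List (ℤ × ℤ)
  | .W, _ => [(0, -1)]
  | .F, _ => [(0, -1)]
  | .P, u => if u.2 = true then [(0, -1)] else [(0, -1), (6, 2)]
  | .H, u => [(0, -1), (1, 2), (0, 2)] ++ ((if u.1 = true then [(0, -1), (-2, -1)] else []) ++
      if u.2 = true then [(3, -2)] else [])

/-- a row of the other species -/
def Lx : HT → Ch6 → List (ℤ × ℤ)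
  | .W, _ => [(3, 1)]
  | .F, _ => [(3, 1)]
  | .P, u => if u.2 = true then [(3, 1)] else [(1, -1)]
  | .H, u => [(3, 1), (-2, -1), (-4, -1), (-3, -1), (-5, -1)] ++
      ((if u.1 = true then [(3, 2)] else []) ++ if u.2 = true then [(0, 1), (-2, 1)] else [])

/-- the common part of the ends -/
def Le : HT → Ch6 → List (ℤ × ℤ)
  | .W, _ => []
  | .F, _ => []
  | .P, u => if u.2 = true then [] else [(6, 1), (1, -1)]
  | .H, u => [(1, 1), (-4, -1), (0, 1), (-5, -1)] ++
      ((if u.1 = true then [(3, 1), (-2, -1)] else []) ++ if u.2 = true then [(3, -1), (-2, 1)] else [])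

/-- the end of the own species -/
def Lp (t : HT) (u : Ch6) : List (ℤ × ℤ) := [(0, -1), (-2, -1)] ++ Le t u

/-- the end of the other species -/
def Lq (t : HT) (u : Ch6) : List (ℤ × ℤ) := [(3, 1)] ++ Le t u

/-- gain of a row of the own species -/
def gnO (t : HT) (u : Ch6) (v s : ℝ) : ℝ :=
  match t with
  | .H => if u.1 = true then 0 else Ag ((1 - v) * l) s
  | _ => 0

/-- gain of a row of the other species -/
def gnX (t : HT) (u : Ch6) (v s : ℝ) : ℝ :=
  match t with
  | .W => 0
  | .F => Ag (-(v + 2) * l) s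
  | .P => if u.2 = true then Ag (-(v + 2) * l) s else 0
  | .H => if u.2 = true then Ag ((1 - v) * l) s else 0

/-- the window of a half quantum against a row -/
def LW (t : HT) (v : ℝ) : Prop :=
  match t with
  | .W => 0 < v ∧ v < 5
  | .F => -4 < v ∧ v < -1
  | .P => -4 < v ∧ v < -1
  | .H => 0 < v ∧ v < 2

/-! ### one row -/

private theorem ll : (NUMF.l : ℝ) = l := rfl

/-- **a row of the own species with its cloud** -/
theorem row_O {t : HT} {u : Ch6} (hu : okC6 t u) {z : ℂ} (hz : LW t (z.re / l)) :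
    rf (Lo t u) z * Real.exp (cwX (k0L t) (wl6 t u true) (z.re / l) z.im) ≤
      Real.exp (-gnO t u (z.re / l) z.im) := by
  refine (mul_le_mul_of_nonneg_right (rf_le_exp _ z) (Real.exp_pos _).le).trans ?_
  rw [← Real.exp_add]
  refine le_of_eq ?_
  congr 1
  generalize z.re / l = v at *
  generalize z.im = s at *
  obtain ⟨u1, u2⟩ := u
  cases t
  · obtain ⟨h1, h2⟩ := hz
    have e := cw_Wo h1 (by linarith) s
    simp only [Lo, lsF_cons, lsF_nil, wl6, k0L, gnO, NUSp.wc, if_true]
    rw [e]
    push_cast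
    rw [show v + 0 = v by ring]
    ring
  · obtain ⟨h1, h2⟩ := hz
    have e := cw_Fo (v := v) (by linarith) (by linarith) s
    simp only [Lo, lsF_cons, lsF_nil, wl6, k0L, gnO, NUSp.wc, if_true]
    rw [e]
    push_cast
    rw [show v + 0 = v by ring]
    ring
  · obtain ⟨h1, h2⟩ := hz
    cases u2
    · have e := cw_Po (v := v) (by linarith) (by linarith) s
      simp only [Lo, lsF_cons, lsF_nil, wl6, k0L, gnO, NUSp.wc, if_true, Bool.false_eq_true, if_false]
      rw [e]
      push_cast
      rw [show v + 0 = v by ring]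
      ring
    · have e := cw_Fo (v := v) (by linarith) (by linarith) s
      simp only [Lo, lsF_cons, lsF_nil, wl6, k0L, gnO, NUSp.wc, if_true]
      rw [e]
      push_cast
      rw [show v + 0 = v by ring]
      ring
  · obtain ⟨h1, h2⟩ := hz
    have p0 : v + ((0 : ℤ) : ℝ) = v := by push_cast; ring
    have p1 : v + ((1 : ℤ) : ℝ) = v + 1 := by push_cast; ring
    have p2 : v + ((-2 : ℤ) : ℝ) = v - 2 := by push_cast; ring
    have p3 : v + ((3 : ℤ) : ℝ) = v + 3 := by push_cast; ring
    cases u1 <;> cases u2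
    · simp only [Lo, List.cons_append, List.nil_append, List.append_nil, lsF_cons, lsF_nil, wl6, k0L,
        gnO, NUSp.wc, wcs, wcg, if_true, Bool.false_eq_true, if_false, p0, p1, p2, p3]
      rw [cw_Hso h1 h2 s, ll]
      push_cast
      ring
    · simp only [Lo, List.cons_append, List.nil_append, List.append_nil, lsF_cons, lsF_nil, wl6, k0L,
        gnO, NUSp.wc, wcs, wcg, if_true, Bool.false_eq_true, if_false, p0, p1, p2, p3]
      rw [cw_Hto h1 h2 s, ll]
      push_cast
      ring
    · simp only [Lo, List.cons_append, List.nil_append, List.append_nil, lsF_cons, lsF_nil, wl6, k0L,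
        gnO, NUSp.wc, wcs, wcg, if_true, Bool.false_eq_true, if_false, p0, p1, p2, p3]
      rw [cw_Hpo h1 h2 s]
      push_cast
      ring
    · simp only [Lo, List.cons_append, List.nil_append, List.append_nil, lsF_cons, lsF_nil, wl6, k0L,
        gnO, NUSp.wc, wcs, wcg, if_true, Bool.false_eq_true, if_false, p0, p1, p2, p3]
      rw [cw_Hgo h1 h2 s]
      push_cast
      ring

/-- the row of `F` against the cloud: also at the zero of the row factor -/
private theorem row_F {z : ℂ} (h1 : -4 < z.re / l) (h2 : z.re / l < -1) :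
    rf [(3, 1)] z * Real.exp (cwX (-3) (NUSp.wY .w) (z.re / l) z.im) ≤
      Real.exp (-Ag (-(z.re / l + 2) * l) z.im) := by
  by_cases hv : z.re / l ≠ -3 ∨ z.im ≠ 0
  · refine (mul_le_mul_of_nonneg_right (rf_le_exp _ z) (Real.exp_pos _).le).trans ?_
    rw [← Real.exp_add]
    refine le_of_eq ?_
    congr 1
    rw [cw_Fx h1 h2 hv, ll]
    simp only [lsF_cons, lsF_nil]
    push_cast
    ring
  · push Not at hv
    have hl := NUP1.l_pos
    have h0 : rf [(3, 1)] z = 0 := by
      have e : z + ((3 : ℤ) : ℂ) * l = 0 := by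
        apply Complex.ext
        · rw [re_add, Complex.zero_re]
          have h3 := hv.1
          rw [div_eq_iff hl.ne'] at h3
          rw [h3]
          push_cast
          ring
        · rw [im_add, hv.2, Complex.zero_im]
      rw [rf_cons, rf_nil]
      simp only
      rw [e, Complex.sin_zero, norm_zero]
      simp
    rw [h0, zero_mul]
    exact (Real.exp_pos _).le

/-- **a row of the other species with its cloud** -/
theorem row_X {t : HT} {u : Ch6} (hu : okC6 t u) {z : ℂ} (hz : LW t (z.re / l)) :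
    rf (Lx t u) z * Real.exp (cwX (k0L t) (wl6 t u false) (z.re / l) z.im) ≤
      Real.exp (-gnX t u (z.re / l) z.im) := by
  by_cases hF : t = .F
  · subst hF
    obtain ⟨h1, h2⟩ := hz
    simpa [Lx, wl6, k0L, gnX, NUSp.wc] using row_F h1 h2
  by_cases hP : t = .P ∧ u.2 = true
  · obtain ⟨rfl, hP⟩ := hP
    obtain ⟨h1, h2⟩ := hz
    simpa [Lx, wl6, k0L, gnX, NUSp.wc, hP] using row_F h1 h2
  refine (mul_le_mul_of_nonneg_right (rf_le_exp _ z) (Real.exp_pos _).le).trans ?_
  rw [← Real.exp_add]
  refine le_of_eq ?_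
  congr 1
  generalize z.re / l = v at *
  generalize z.im = s at *
  obtain ⟨u1, u2⟩ := u
  cases t
  · obtain ⟨h1, h2⟩ := hz
    have e := cw_Wx (v := v) (by linarith) h2 s
    simp only [Lx, lsF_cons, lsF_nil, wl6, k0L, gnX, NUSp.wc, Bool.false_eq_true, if_false]
    rw [e]
    push_cast
    ring
  · exact absurd rfl hF
  · obtain ⟨h1, h2⟩ := hz
    cases u2
    · have e := cw_Px (v := v) (by linarith) (by linarith) s
      simp only [Lx, lsF_cons, lsF_nil, wl6, k0L, gnX, NUSp.wc, Bool.false_eq_true, if_false]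
      rw [e]
      push_cast
      ring
    · exact absurd ⟨rfl, rfl⟩ hP
  · obtain ⟨h1, h2⟩ := hz
    have p0 : v + ((0 : ℤ) : ℝ) = v := by push_cast; ring
    have p2 : v + ((-2 : ℤ) : ℝ) = v - 2 := by push_cast; ring
    have p3 : v + ((-3 : ℤ) : ℝ) = v - 3 := by push_cast; ring
    have p4 : v + ((-4 : ℤ) : ℝ) = v - 4 := by push_cast; ring
    have p5 : v + ((-5 : ℤ) : ℝ) = v - 5 := by push_cast; ring
    have q3 : v + ((3 : ℤ) : ℝ) = v + 3 := by push_cast; ring
    have e5 : ls (v - 5) s = ls (v + 3) s := by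
      rw [← ls_per (v - 5)]
      congr 1
      ring
    cases u1 <;> cases u2
    · simp only [Lx, List.cons_append, List.nil_append, List.append_nil, lsF_cons, lsF_nil, wl6, k0L,
        gnX, NUSp.wc, wcs, wcg, if_true, Bool.false_eq_true, if_false, p0, p2, p3, p4, p5, q3, e5]
      rw [cw_Hsx h1 h2 s]
      push_cast
      ring
    · simp only [Lx, List.cons_append, List.nil_append, List.append_nil, lsF_cons, lsF_nil, wl6, k0L,
        gnX, NUSp.wc, wcs, wcg, if_true, Bool.false_eq_true, if_false, p0, p2, p3, p4, p5, q3, e5]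
      rw [cw_Htx h1 h2 s, ll]
      push_cast
      ring
    · simp only [Lx, List.cons_append, List.nil_append, List.append_nil, lsF_cons, lsF_nil, wl6, k0L,
        gnX, NUSp.wc, wcs, wcg, if_true, Bool.false_eq_true, if_false, p0, p2, p3, p4, p5, q3, e5]
      rw [cw_Hpx h1 h2 s]
      push_cast
      ring
    · simp only [Lx, List.cons_append, List.nil_append, List.append_nil, lsF_cons, lsF_nil, wl6, k0L,
        gnX, NUSp.wc, wcs, wcg, if_true, Bool.false_eq_true, if_false, p0, p2, p3, p4, p5, q3, e5]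
      rw [cw_Hgx h1 h2 s, ll]
      push_cast
      ring

/-- **class D1**: a row of the species of the word -/
theorem row_D {z : ℂ} (h1 : -6 < z.re / l) (h2 : z.re / l < 0) :
    rf [(-2, 1), (0, -1)] z * Real.exp (cwX (-3) (NUSp.wX .d) (z.re / l) z.im) ≤ 1 := by
  refine (mul_le_mul_of_nonneg_right (rf_le_exp _ z) (Real.exp_pos _).le).trans ?_
  rw [← Real.exp_add, Real.exp_le_one_iff, cw_Do h1 h2]
  simp only [lsF_cons, lsF_nil]
  rw [show z.re / l + ((-2 : ℤ) : ℝ) = z.re / l - 2 by push_cast; ring,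
    show z.re / l + ((0 : ℤ) : ℝ) = z.re / l by push_cast; ring]
  push_cast
  linarith

end PLT

end
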