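import Pool.Agent.PLT.LevOne
import Pool.Agent.PLT.HQfI

/-!
# The data of level two at ONE index, from the moments

`levD_one` (`PLT/LevOne`) with the two bounds of the remainder put in (`hQ_plusI`, `hQ_minusI` of `PLT/HQfI`): rows
`x : Fin m → ℂ`, `m > 0`, on the imaginary axis, cutoff words `± i`, legs at `I t` with any real `t`.

* `fib6_mono`, `mbd6_box`, `mom4_box`: a narrower strip of the sea, a larger box;
* `InI`: the data of one index: fibres at `bb6`, lower bound of the density, moments at `(-(ep / 4), bb6')`;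
  `InI.one`: it contains `Fib1`;
* **`wplX_I`**, **`wmiX_I`**, **`levX_I`**: `PBE.WPl`, `PBE.WMi`, `PBEM.LevD`, one constant `C ≥ 1` for all data,
  free of `t`.
-/

set_option autoImplicit false
set_option linter.unusedSectionVars false

noncomputable section

open Complex MeasureTheory Finset Filter Topology

open PLX (Fil)

namespace PLT

open NUO NUP1 NUCR NUP1S NUP1S.Ab NUP1S.AbC NUGC NUGC.PLX PBFunc PBFunc.PLX PBF PBF.PLX PBE PBE.PLX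
open PBWP.PLX PBLX.PLX
open PBEI (y1 y26 h0T mfL Apl6 Ami6 Bch6)
open PBV (wm)
open Pool.Agent.PB (mV CV CmV CsV CssV)
open PBU.PLX (MBd6)
open PHK
open PBForce (Rws0)

/-- a bounded analytic function on a larger box -/
theorem bc_box {y₁ y₂ y₁' y₂' M : ℝ} {g : ℂ → ℂ} (h1 : y₁' ≤ y₁) (h2 : y₂ ≤ y₂')
    (h : PBU.PLX.BC y₁' y₂' M g) : PBU.PLX.BC y₁ y₂ M g :=
  ⟨h.an.mono fun _ hz => ⟨lt_of_le_of_lt h1 hz.1, lt_of_lt_of_le hz.2 h2⟩,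
    fun z hz => h.bd z ⟨lt_of_le_of_lt h1 hz.1, lt_of_lt_of_le hz.2 h2⟩⟩

variable [Fil]

section mono

variable {N : ℕ} {Z : ℕ → Bool → Option O3 → ℂ → ℂ} {P : ℕ → Par6} {η η' : ℕ → Crs} {c : ℕ → ℂ}

/-- a narrower strip of the sea -/
theorem fib6_mono {δ y0 b0 b1 b1' : ℝ} {κ : ℕ → ℝ} {LZ : ℕ → Bool → ℂ → ℂ}
    {LP : ℕ → (r : ℕ) → (Fin r → Xo) → Bool → ℂ → ℂ} {ρ : ℂ → ℂ}
    (h : FibN6 N Z P η η' δ y0 b0 b1 κ LZ LP ρ) (hp : 0 < b1') (h0 : b0 < b1') (h1 : b1' ≤ b1) :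
    FibN6 N Z P η η' δ y0 b0 b1' κ LZ LP ρ where
  hQ := h.hQ
  hS := h.hS
  crv := h.crv
  hL := h.hL
  hs := h.hs
  b1p := hp
  b01 := h0
  b1l := by linarith [h.b1l]
  sea := {
    d := fun z hz => h.sea.d z (hz.trans_le h1)
    ne := fun z hz => h.sea.ne z (hz.trans_le h1)
    bd := by
      obtain ⟨A, c, hA, hc, H⟩ := h.sea.bd
      exact ⟨A, c, hA, hc, fun z hz => H z (hz.trans_le h1)⟩ }
  mc := h.mc
  mZ := h.mZ
  mP := h.mP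

/-- moments on a larger box -/
theorem mbd6_box {ρ : ℂ → ℂ} {y₁ y₂ y₁' y₂' K q dp : ℝ} (h : MBd6 N Z P η η' c ρ y₁ y₂ K q dp)
    (h1 : y₁' ≤ y₁) (h2 : y₂ ≤ y₂') : MBd6 N Z P η η' c ρ y₁' y₂' K q dp where
  one := h.one
  vy M g hM hg hm := h.vy M g hM (fun r O s => bc_box h1 h2 (hg r O s)) hm
  pin := h.pin
  pinv M g hM hg hm := h.pinv M g hM (fun r O s => bc_box h1 h2 (hg r O s)) hm

end mono

/-- **the data of one index**: fibres, lower bound of the density, moments on the box `(-(ep / 4), bb6')` -/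
structure InI (ep : ℝ) (N : ℕ) {m : ℕ} (x : Fin m → ℂ) (t : ℝ)
    (Z : ℕ → Bool → Option O3 → ℂ → ℂ) (η η' : ℕ → Crs) (c : ℕ → ℂ) (δ b0 : ℝ) (κf : ℕ → ℝ)
    (c0 K dp : ℝ) : Prop where
  ep0 : 0 < ep
  ep1 : ep ≤ 1 / 100
  hb0 : b0 < ep / 4
  hm : 0 < m
  hx : Rws0 x
  fib : FibN6 N Z (fun _ => par6) η η' δ 0 b0 bb6 κf
    (fun _ u => PBLZ.PLX.LZX u (4 / 3 * (1 - ep)) x [I, -I] (I * t)) (fun _ => LPo6 par6) (rhA x)
  sea : SeaL bb6 c0 (m : ℝ) (rhA x)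
  K0 : 0 ≤ K
  d0 : 0 ≤ dp
  mb : MBd6 N Z (fun _ => par6) η η' c (rhA x) (-(ep / 4)) bb6' K (189 / 100) dp
  m4 : PBQM.PLX.Mom4 (mN6 N) (wN6 Z (fun _ => par6) N η η' c) (VN6 N η (rhA x)) (-(ep / 4)) bb6' K

section one

variable {ep : ℝ} {N m : ℕ} {x : Fin m → ℂ} {t : ℝ}
  {Z : ℕ → Bool → Option O3 → ℂ → ℂ} {η η' : ℕ → Crs} {c : ℕ → ℂ} {δ b0 : ℝ} {κf : ℕ → ℝ}
  {c0 K dp : ℝ}

theorem ep_bb6' {ep : ℝ} (hep1 : ep ≤ 1 / 100) : ep / 4 < bb6' := by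
  have hl3 : 3 / 8 < NUP1.l := by
    unfold NUP1.l
    linarith [Real.pi_gt_three]
  unfold bb6'
  linarith

theorem InI.one (h : InI ep N x t Z η η' c δ b0 κf c0 K dp) :
    Fib1 N x (4 / 3 * (1 - ep)) [I, -I] t Z η η' c δ b0 κf c0 (m : ℝ) K dp where
  hx := h.hx.re
  fib := fib6_mono h.fib bb6'_pos (h.hb0.trans (ep_bb6' h.ep1)) bb6'_lt.le
  sea := h.sea
  K0 := h.K0
  d0 := h.d0
  mb := mbd6_box h.mb (by linarith [ep_bb6' h.ep1]) le_rfl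

theorem InI.bas (h : InI ep N x t Z η η' c δ b0 κf c0 K dp) : Bas6 N Z par6 η η' b0 bb6' := h.one.bas

end one

/-- **level two at one index, plus channel** -/
theorem wplX_I {ep : ℝ} (hep0 : 0 < ep) (hep1 : ep ≤ 1 / 100) (c0 : ℝ) : ∃ C : ℝ, 1 ≤ C ∧
    ∀ {N m : ℕ} {x : Fin m → ℂ} {t : ℝ} {Z : ℕ → Bool → Option O3 → ℂ → ℂ} {η η' : ℕ → Crs}
      {c : ℕ → ℂ} {δ b0 : ℝ} {κf : ℕ → ℝ} {K dp : ℝ}
      (_ : InI ep N x t Z η η' c δ b0 κf c0 K dp)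
      (K' th dp' : ℝ) (_ : C * K ≤ K') (_ : C * thM c0 m ≤ th) (_ : C * dp ≤ dp'),
      ∀ M g, TC y1 y26 (19 / 10) M g → mass g = 0 →
        ∃ (D : (ℂ → ℂ) → CfN6 N → ℂ) (Q P : CfN6 N → ℂ),
          WPl y1 y26 (19 / 10) (mN6 N) (wN6 Z (fun _ => par6) N η η' c) K' th dp' M
            (fun h => evN6 fun n => Vy 0 (η n) (rhA x) fun _ => h) g (mV (mfL t) g) (CV g) D Q P := by
  obtain ⟨CQ, hCQ, HQ⟩ := hQ_plusI hep0 hep1 c0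
  obtain ⟨C, hC, H⟩ := wpl_one hCQ
  refine ⟨C, hC, ?_⟩
  intro N m x t Z η η' c δ b0 κf K dp h K' th dp' hK' hth hdp
  exact H h.one (fun M β' e hM hβ he => HQ h.fib h.hb0 h.K0 h.mb h.m4 h.hm h.hx h.sea t M β' e hM hβ he)
    K' th dp' hK' hth hdp

/-- **level two at one index, minus channel** -/
theorem wmiX_I {ep : ℝ} (hep0 : 0 < ep) (hep1 : ep ≤ 1 / 100) (c0 : ℝ) : ∃ C : ℝ, 1 ≤ C ∧
    ∀ {N m : ℕ} {x : Fin m → ℂ} {t : ℝ} {Z : ℕ → Bool → Option O3 → ℂ → ℂ} {η η' : ℕ → Crs}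
      {c : ℕ → ℂ} {δ b0 : ℝ} {κf : ℕ → ℝ} {K dp : ℝ}
      (_ : InI ep N x t Z η η' c δ b0 κf c0 K dp)
      (K' th dp' : ℝ) (_ : C * K ≤ K') (_ : C * thM c0 m ≤ th) (_ : C * dp ≤ dp'),
      (∀ M g, TC y1 y26 (19 / 10) M g →
        ∃ (D : (ℂ → ℂ) → CfN6 N → ℂ) (Ds Q P : CfN6 N → ℂ),
        WMi y1 y26 (19 / 10) (mN6 N) (wN6 Z (fun _ => par6) N η η' c) K' th dp' M
          (Vm6 (fun u : ℝ => rhA x u) η) (SN6 (fun u : ℝ => rhA x u) par6 η)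
          (Vm6 (fun u : ℝ => rhA x u) η g) (CmV g) (CsV PBEI.sg' g) D Ds Q P) ∧
      ∃ (C' : (ℂ → ℂ) → ℂ) (D : (ℂ → ℂ) → CfN6 N → ℂ) (Ds Q P : CfN6 N → ℂ),
        WMi y1 y26 (19 / 10) (mN6 N) (wN6 Z (fun _ => par6) N η η' c) K' th dp' 1
          (Vm6 (fun u : ℝ => rhA x u) η) (SN6 (fun u : ℝ => rhA x u) par6 η)
          (SN6 (fun u : ℝ => rhA x u) par6 η) C' (CssV PBEI.sg') D Ds Q P := by
  obtain ⟨CQ, hCQ, HQ⟩ := hQ_minusI hep0 hep1 c0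
  obtain ⟨C, hC, H⟩ := wmi_one hCQ
  refine ⟨C, hC, ?_⟩
  intro N m x t Z η η' c δ b0 κf K dp h K' th dp' hK' hth hdp
  exact H h.one (fun M β' e hM hβ he => HQ h.fib h.hb0 h.K0 h.mb h.m4 h.hm h.hx h.sea t M β' e hM hβ he)
    K' th dp' hK' hth hdp

/-- **the data of level two at one index**, any rows on the axis, legs at any height -/
theorem levX_I {ep : ℝ} (hep0 : 0 < ep) (hep1 : ep ≤ 1 / 100) (c0 : ℝ) : ∃ C : ℝ, 1 ≤ C ∧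
    ∀ {N m : ℕ} {x : Fin m → ℂ} {t : ℝ} {Z : ℕ → Bool → Option O3 → ℂ → ℂ} {η η' : ℕ → Crs}
      {c : ℕ → ℂ} {δ b0 : ℝ} {κf : ℕ → ℝ} {K dp : ℝ} (i0 : Fin m)
      (_ : InI ep N x t Z η η' c δ b0 κf c0 K dp)
      (K' th dp' : ℝ) (_ : C * K ≤ K') (_ : C * thM c0 m ≤ th) (_ : C * dp ≤ dp'),
      PBEM.LevD y1 y26 (19 / 10) (mN6 N) (wN6 Z (fun _ => par6) N η η' c)
        (Vp6 (fun u : ℝ => rhA x u) η) (Vm6 (fun u : ℝ => rhA x u) η)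
        (SN6 (fun u : ℝ => rhA x u) par6 η) K' th dp' (mfL t) PBEI.sg' wm (Apl6 x i0) (Ami6 x i0)
        Bch6 := by
  obtain ⟨CQ, hCQ, HQ⟩ := hQ_plusI hep0 hep1 c0
  obtain ⟨CQ', hCQ', HQ'⟩ := hQ_minusI hep0 hep1 c0
  obtain ⟨C, hC, H⟩ := levD_one (CQ := max CQ CQ') (hCQ.trans (le_max_left _ _))
  refine ⟨C, hC, ?_⟩
  intro N m x t Z η η' c δ b0 κf K dp i0 h K' th dp' hK' hth hdp
  have hth0 : 0 ≤ thM c0 m := thX_nonneg h.sea.Np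
  refine H i0 h.one (fun M β' e hM hβ he => ?_) (fun M β' e hM hβ he => ?_) K' th dp' hK' hth hdp
  · exact M2.mono (HQ h.fib h.hb0 h.K0 h.mb h.m4 h.hm h.hx h.sea t M β' e hM hβ he)
      (mul_nonneg hCQ (mul_nonneg hth0 hM))
      (mul_le_mul_of_nonneg_right (le_max_left _ _) (mul_nonneg hth0 hM)) le_rfl h.K0
  · exact M2.mono (HQ' h.fib h.hb0 h.K0 h.mb h.m4 h.hm h.hx h.sea t M β' e hM hβ he)
      (mul_nonneg hCQ' (mul_nonneg hth0 hM))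
      (mul_le_mul_of_nonneg_right (le_max_right _ _) (mul_nonneg hth0 hM)) le_rfl h.K0

end PLT

end
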