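import Pool.Agent.PLT.LgTPP
import Pool.Agent.PLT.ClsC
import Pool.Agent.PLT.ClsFFC
import Pool.Agent.PLT.FFCof
import Pool.Agent.PLT.LgDecP
import Pool.Agent.PHK.LgFin

/-!
# The class formula by choices on complex curves, general parameters

The text of `PHK/LgFin` for every `P` with `LnP P` and the functional `FFC` on any curves of the objects.

* `psV6_leP`: the insertion is at most `2 ^ (number of the holes)`;
* `TVu_okP`, `int_TVP`: the choices one by one;
* **`FFC_TVu`**: one choice as a functional on curves;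
* **`clsVC_of`**: `ClsVC` from the sum over the numbers of objects of the integrals of `TV6`.
-/

set_option autoImplicit false
set_option linter.unusedSectionVars false
set_option linter.unusedVariables false

noncomputable section

open Complex MeasureTheory Finset
open scoped ENNReal Nat

open PLX (Fil)

namespace PLT.Lg

open NUO NUP1 NUP1S NUP1S.Ab NUP1S.AbC NUP1S.Mg NURow NUCR NUP1.Leg NUGC.PLX PBR.PLX
open NUP1.Bd (wt qg Ob)
open PBF.PLX (Crs Ins)
open PHK

variable {P : Par6} {t t' : HT} {w w' : ℂ} {u : Ch6 × Ch6} {N N' : ℕ} {ι : Type*} [Fintype ι]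

/-! ### the insertion -/

/-- the place of a hole of a letter -/
theorem hx6_stripP [LnP P] {t : HT} {v : Ch6} (h : okC6 t v) (h2 : v.2 = true) {w : ℂ}
    (hw : w.re = htL t) : |(hx6 t w).re - (1 - P.e) * NUMF.l| ≤ 2 / 3 * NUMF.l := by
  have hl := NUMF.l_pos
  have hll : NUP1.l = NUMF.l := rfl
  have e1 : 13 / 32 * NUMF.l < P.e * NUMF.l := mul_lt_mul_of_pos_right (LnP.e1 (P := P)) hl
  have e2 : P.e * NUMF.l ≤ 49 / 100 * NUMF.l :=
    mul_le_mul_of_nonneg_right (lnE6_good (LnP.good (P := P))).e1 hl.le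
  cases t
  · exact absurd (h.2 h2) (by simp)
  · exact absurd (h.2 h2) (by simp)
  · have e : (hx6 .P w).re = 1 / 4 * NUMF.l := by
      unfold hx6
      simp only [if_true, add_re, mul_re, ofReal_re, ofReal_im]
      rw [hw]
      show -(11 / 4) * NUP1.l + _ = _
      rw [hll]
      norm_num
      ring
    rw [e, abs_le]
    constructor <;> linarith
  · have e : (hx6 .H w).re = 5 / 8 * NUMF.l := by
      unfold hx6
      rw [if_neg (by simp), hw]
      rfl
    rw [e, abs_le]
    constructor <;> linarith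

/-- **the insertion of a choice is bounded** -/
theorem psV6_leP [LnP P] (h : okC6 t u.1) (h' : okC6 t' u.2) (hw : w.re = htL t)
    (hw' : w'.re = htL t') (O : ι → Xo) :
    ‖psV6 P t t' w w' u O‖ ≤ 2 ^ (u.1.2.toNat + u.2.2.toNat) := by
  have hl := NUMF.l_pos
  have e1 : 13 / 32 * NUMF.l < P.e * NUMF.l := mul_lt_mul_of_pos_right (LnP.e1 (P := P)) hl
  have e2 : P.e * NUMF.l ≤ 49 / 100 * NUMF.l :=
    mul_le_mul_of_nonneg_right (lnE6_good (LnP.good (P := P))).e1 hl.le
  have key : ∀ (t : HT) (v : Ch6) (w : ℂ), w.re = htL t → (decide (t = .H) && !v.1) = true →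
      |w.re - (1 - P.e) * NUMF.l| ≤ 2 / 3 * NUMF.l := by
    intro t v w hw hH
    have ht : t = .H := by simpa using (Bool.and_eq_true_iff.1 hH).1
    subst ht
    have e : w.re = 5 / 8 * NUMF.l := hw
    rw [e, abs_le]
    constructor <;> linarith
  unfold psV6
  rw [norm_mul, norm_mul, norm_mul]
  have a1 := ps1_le (P := P) O true (decide (t = .H) && !u.1.1) u.2.2.toNat (key t u.1 w hw)
  have a2 := ps1_le (P := P) O false (decide (t' = .H) && !u.2.1) u.1.2.toNat (key t' u.2 w' hw')
  have b1 : ‖(if u.1.2 = true then gHI P O false (hx6 t w) else 1)‖ ≤ 2 ^ u.1.2.toNat := by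
    by_cases hc : u.1.2 = true
    · rw [if_pos hc, hc]
      simpa using gHI_le_two O false (hx6_stripP h hc hw)
    · rw [if_neg hc, norm_one]
      exact one_le_pow₀ (by norm_num)
  have b2 : ‖(if u.2.2 = true then gHI P O true (hx6 t' w') else 1)‖ ≤ 2 ^ u.2.2.toNat := by
    by_cases hc : u.2.2 = true
    · rw [if_pos hc, hc]
      simpa using gHI_le_two O true (hx6_stripP h' hc hw')
    · rw [if_neg hc, norm_one]
      exact one_le_pow₀ (by norm_num)
  rw [pow_add]
  have h12 := mul_le_mul (mul_le_mul a1 a2 (norm_nonneg _) zero_le_one)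
    (mul_le_mul b1 b2 (norm_nonneg _) (by positivity)) (by positivity) (by norm_num)
  rw [one_mul, one_mul] at h12
  exact h12

/-! ### one choice -/

theorem TVu_okP [LnP P] {Y : Bool → Option O3 → ℂ → ℂ} (h : okC6 t u.1) (h' : okC6 t' u.2)
    (hw : w.re = htL t) (hw' : w'.re = htL t') (hN : u.1.1.toNat ≤ N) (hN' : u.2.1.toNat ≤ N')
    (hI : IntV Y P u N N') : TOk (TVu Y P t t' w w' u N N') (2 * (N + N')) N N' where
  equiv e O := by
    unfold TVu
    rw [fI_equiv, psV6_equiv]
  xo O := by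
    unfold TVu
    rw [fI_xo, psV6_xo]
  zero {ι} _ O hc := by
    unfold TVu
    by_contra hne
    exact absurd (fI_psV_ne hN hN' hne).2.2 (not_le.2 hc)
  int {ι} _ K := by
    unfold TVu
    refine (hI K).mul_bdd (c := 2 ^ (u.1.2.toNat + u.2.2.toNat)) ?_ ?_
    · exact (measurable_psV6 K fun i => measurable_pi_apply i).aestronglyMeasurable
    · exact Filter.Eventually.of_forall fun τ => psV6_leP h h' hw hw' _
  chg {ι} _ O hne := by
    have h1 := fI_psV_ne hN hN' hne
    exact ⟨h1.1, h1.2.1⟩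

/-- the functional without an insertion vanishes -/
theorem FFC_zero_ins (Z : Bool → Option O3 → ℂ → ℂ) (P : Par6) (n n' : ℕ) (D D1 : CrsC) :
    FFC Z P n n' D D1 (fun _ _ _ _ _ => 0) = 0 := by
  have h := FFC_cmul (Z := Z) (P := P) (n := n) (n' := n') (D := D) (D1 := D1) 0
    fun _ _ _ _ _ => 0
  simpa using h

/-- **one choice as a functional on curves** -/
theorem FFC_TVu {Y : Bool → Option O3 → ℂ → ℂ} {lo hi κ : ℝ} {Q : ℤ} (hQ : QOkC Y lo hi κ Q)
    (hP : StC lo hi P) {D D1 : CrsC} (hD : ∀ (r : ℕ) (O : Fin r → Xo), CurC lo hi (D r O) (D1 r O))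
    (hN : u.1.1.toNat ≤ N) (hN' : u.2.1.toNat ≤ N')
    (hn : ((N + u.2.2.toNat - u.1.1.toNat : ℕ) : ℤ) - ((N' + u.1.2.toNat - u.2.1.toNat : ℕ) : ℤ) = Q)
    (c : ℂ) :
    FFC Y P (N + u.2.2.toNat - u.1.1.toNat) (N' + u.1.2.toNat - u.2.1.toNat) D D1
        (fun _ O _ _ _ => c * psV6 P t t' w w' u O) =
      ∑ r ∈ range (2 * (N + N') + 1), ((r ! : ℕ) : ℂ)⁻¹ *
        (c * ∫ O : Fin r → Xo, TVu Y P t t' w w' u N N' (Fin r) O ∂(Measure.pi fun _ => nu)) := by
  rw [FFC_ins hQ hP (fun r _ => Filter.Eventually.of_forall fun O => hD r O) hn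
    fun r O => c * psV6 P t t' w w' u O]
  have e2 : ∀ (r : ℕ) (O : Fin r → Xo), fI Y P NUP1.l (N + u.2.2.toNat - u.1.1.toNat)
      (N' + u.1.2.toNat - u.2.1.toNat) O * (c * psV6 P t t' w w' u O) =
      c * TVu Y P t t' w w' u N N' (Fin r) O := by
    intro r O
    unfold TVu
    ring
  simp only [e2, integral_const_mul]
  refine sum_range_two (fun r hr => ?_) fun r hr => ?_
  · have e0 : ∀ O : Fin r → Xo, TVu Y P t t' w w' u N N' (Fin r) O = 0 := by
      intro O
      unfold TVu
      rw [fI_zero _ _ _ O (by rwa [Fintype.card_fin]), zero_mul]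
    simp only [e0, integral_zero, mul_zero]
  · have e0 : ∀ O : Fin r → Xo, TVu Y P t t' w w' u N N' (Fin r) O = 0 := by
      intro O
      unfold TVu
      by_contra hc
      have h2 := (fI_psV_ne hN hN' hc).2.2
      rw [Fintype.card_fin] at h2
      omega
    simp only [e0, integral_zero, mul_zero]

/-! ### the choices -/

section all
variable {X : Bool → Option O3 → ℂ → ℂ}

/-- **the choices one by one** -/
theorem int_TVP [LnP P] (hw : w.re = htL t) (hw' : w'.re = htL t')
    (hI : ∀ u, OkV t t' N N' u → IntV (YV6 X t t' w w' u) P u N N') (r : ℕ) :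
    ∫ O : Fin r → Xo, TV6 X P t t' w w' N N' (Fin r) O ∂(Measure.pi fun _ => nu) =
      ∑ u : Ch6 × Ch6, if OkV t t' N N' u then cV6 X t t' w w' u *
        ∫ O : Fin r → Xo, TVu (YV6 X t t' w w' u) P t t' w w' u N N' (Fin r) O
          ∂(Measure.pi fun _ => nu) else 0 := by
  have hT : ∀ u, OkV t t' N N' u →
      TOk (TVu (YV6 X t t' w w' u) P t t' w w' u N N') (2 * (N + N')) N N' := fun u hu =>
    TVu_okP hu.1.1 hu.1.2 hw hw' hu.2.1 hu.2.2 (hI u hu)
  have hint : ∀ u, OkV t t' N N' u → Integrable (fun O : Fin r → Xo =>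
      TVu (YV6 X t t' w w' u) P t t' w w' u N N' (Fin r) O) (Measure.pi fun _ => nu) :=
    fun u hu => (hT u hu).integrable r
  have e1 : ∀ O : Fin r → Xo, TV6 X P t t' w w' N N' (Fin r) O =
      ∑ u : Ch6 × Ch6, if OkV t t' N N' u then cV6 X t t' w w' u *
        TVu (YV6 X t t' w w' u) P t t' w w' u N N' (Fin r) O else 0 := fun O => by
    unfold TV6 TVu OkV
    rfl
  simp only [e1]
  rw [integral_finsetSum]
  · refine Finset.sum_congr rfl fun u _ => ?_
    split_ifs with hu
    · rw [integral_const_mul]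
    · rw [integral_zero]
  · intro u _
    split_ifs with hu
    · exact (hint u hu).const_mul _
    · exact integrable_zero _ _ _

/-- **`ClsVC` from the sum over the numbers of objects of the integrals of `TV6`** -/
theorem clsVC_of [LnP P] {ob : (Bool → ℂ → ℝ) → OB} {lo hi κ : ℝ} {e : ℕ} {E0 : Set ℝ}
    (hB : BsC X ob P lo hi κ e E0) (hhi : hi ≤ 1 / 4) (hS : StC lo hi P) (hw : w.re = htL t)
    (hw' : w'.re = htL t') {cw : Ch6 × Ch6 → ℝ} (hcw0 : ∀ u, 0 ≤ cw u)
    (hcw : ∀ u : Ch6 × Ch6, okC6 t u.1 → okC6 t' u.2 →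
      ‖cV6 X t t' w w' u‖ * 2 ^ (u.1.2.toNat + u.2.2.toNat) ≤ cw u)
    (hI : ∀ (n : ℕ) (u : Ch6 × Ch6), OkV t t' (n + aXt e t t') (n + aYt e t t') u →
      IntV (YV6 X t t' w w' u) P u (n + aXt e t t') (n + aYt e t t')) {Zn : ℕ → ℂ}
    (hZ : ∀ n, Zn n = ∑ r ∈ range (2 * ((n + aXt e t t') + (n + aYt e t t')) + 1),
      ((r ! : ℕ) : ℂ)⁻¹ * ∫ O : Fin r → Xo,
        TV6 X P t t' w w' (n + aXt e t t') (n + aYt e t t') (Fin r) O
          ∂(Measure.pi fun _ => nu)) : ClsVC X P lo hi e t t' w w' cw Zn := by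
  intro η η' hη n
  refine ⟨fun u r O _ _ _ => if OkV t t' (n + aXt e t t') (n + aYt e t t') u then
    cV6 X t t' w w' u * psV6 P t t' w w' u O else 0, fun u r O a a' z => ?_, ?_⟩
  · show ‖(if OkV t t' (n + aXt e t t') (n + aYt e t t') u then
      cV6 X t t' w w' u * psV6 P t t' w w' u O else 0)‖ ≤ cw u
    split_ifs with hu
    · rw [norm_mul]
      exact (mul_le_mul_of_nonneg_left (psV6_leP hu.1.1 hu.1.2 hw hw' O) (norm_nonneg _)).trans
        (hcw u hu.1.1 hu.1.2)
    · rw [norm_zero]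
      exact hcw0 u
  · rw [hZ n]
    have e1 : ∀ u : Ch6 × Ch6, (if u.1.1.toNat ≤ n + aXv e t t' u ∧ u.2.1.toNat ≤ n + aYv e t t' u then
        FFC (YV6 X t t' w w' u) P (n + aXv e t t' u - u.1.1.toNat) (n + aYv e t t' u - u.2.1.toNat)
          (η u) (η' u) (fun r O _ _ _ => if OkV t t' (n + aXt e t t') (n + aYt e t t') u then
            cV6 X t t' w w' u * psV6 P t t' w w' u O else 0) else 0) =
        ∑ r ∈ range (2 * ((n + aXt e t t') + (n + aYt e t t')) + 1), ((r ! : ℕ) : ℂ)⁻¹ *
          (if OkV t t' (n + aXt e t t') (n + aYt e t t') u then cV6 X t t' w w' u *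
            ∫ O : Fin r → Xo, TVu (YV6 X t t' w w' u) P t t' w w' u (n + aXt e t t')
              (n + aYt e t t') (Fin r) O ∂(Measure.pi fun _ => nu) else 0) := by
      intro u
      by_cases hu : OkV t t' (n + aXt e t t') (n + aYt e t t') u
      · have c1 : u.1.1.toNat ≤ n + aXv e t t' u := by
          have := hu.2.1
          unfold PBR.PLX.aXv
          omega
        have c2 : u.2.1.toNat ≤ n + aYv e t t' u := by
          have := hu.2.2
          unfold PBR.PLX.aYv
          omega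
        rw [if_pos ⟨c1, c2⟩]
        simp only [if_pos hu]
        have hO := cls_oneVC hhi hB hu.1.1 hu.1.2 hw hw'
        have hQ := QOkC.of_oneC hO
        have h1 := hu.2.1
        have h2 := hu.2.2
        have key := FFC_TVu (P := P) (t := t) (t' := t') (w := w) (w' := w') (u := u)
          (N := n + aXt e t t') (N' := n + aYt e t t') hQ hS
          (D := η u) (D1 := η' u) (fun r O => hη u r O) h1 h2 (by omega)
          (cV6 X t t' w w' u)
        rw [← key]
        unfold PBR.PLX.aXv PBR.PLX.aYv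
        rw [← Nat.add_assoc, ← Nat.add_assoc]
      · simp only [if_neg hu, mul_zero, Finset.sum_const_zero]
        split_ifs
        · exact FFC_zero_ins _ _ _ _ _ _
        · rfl
    rw [Finset.sum_congr rfl fun u _ => e1 u, Finset.sum_comm]
    refine Finset.sum_congr rfl fun r _ => ?_
    rw [int_TVP hw hw' (hI n) r, Finset.mul_sum]

end all

end PLT.Lg

end
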