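import Pool.Agent.PLT.LgAllP
import Pool.Agent.PLT.LgFinP

/-!
# The class formulas of all pairs of letters on curves, any point `P`

* **`cls_genC`**, **`cls_aeC`**: `ClsVC` of the state sum of the class `t, t'` for generic heights, for almost all
  heights; no hypothesis on words.
-/

set_option autoImplicit false
set_option linter.unusedSectionVars false
set_option linter.unusedVariables false

noncomputable section

open Complex MeasureTheory Finset
open scoped ENNReal Nat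

namespace PLT.Lg

open NUO NUP1 NUP1S NUP1S.Mg NURow NUCR NUP1.Leg NUGC.PLX PBR.PLX
open NUP1.Bd (wt qg Ob)
open PHK PLT
open Pool.Agent.PLX (ln6)

section cls

variable {X : Bool → Option O3 → ℂ → ℂ} {P : Par6} [hP : LnP P] {a b κ κ' κ₁ lo hi : ℝ} {e : ℕ}
  {t t' : HT} {w w' : ℂ} {ob : (Bool → ℂ → ℝ) → OB} {E0 : Set ℝ}

/-- **the class formula on curves at generic half quanta** -/
theorem cls_genC (hB : LgBP X P a b κ κ' e) (hW : WnG P a b) (ha : a ≤ 51 / 100 * l)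
    (hκ : κ' + 1 / 2 < 6) (hBs : BsC X ob P lo hi κ₁ e E0) (hhi : hi ≤ 1 / 4) (hS : StC lo hi P)
    (hg : GnX X t t' w w') (hw : w.re = htL t) (hw' : w'.re = htL t') {cw : Ch6 × Ch6 → ℝ}
    (hcw0 : ∀ u, 0 ≤ cw u) (hcw : ∀ u : Ch6 × Ch6, okC6 t u.1 → okC6 t' u.2 →
      ‖cV6 X t t' w w' u‖ * 2 ^ (u.1.2.toNat + u.2.2.toNat) ≤ cw u) :
    ClsVC X P lo hi e t t' w w' cw fun n => NURow.ZobjQ (Zc6 X t t' w w' true)
      (Zc6 X t t' w w' false) (51 / 100 * l) (n + aXt e t t') (n + aYt e t t')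
      (fun _ _ k _ i => ln6 P (k i)) (fun _ _ _ k' i => ln6 P (k' i)) := by
  refine clsVC_of hBs hhi hS hw hw' hcw0 hcw (fun n u hu => int_YVP hB hw hw' ?_ hu) fun n => ?_
  · push_cast
    ring
  · exact zobj_TVP hB hW ha hκ hg hw hw' (by push_cast; ring)

/-- **the class formula on curves for almost all heights** -/
theorem cls_aeC (hB : LgBP X P a b κ κ' e) (hW : WnG P a b) (ha : a ≤ 51 / 100 * l)
    (hκ : κ' + 1 / 2 < 6) (hBs : BsC X ob P lo hi κ₁ e E0) (hhi : hi ≤ 1 / 4) (hS : StC lo hi P)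
    (t t' : HT) {cw : ℝ × ℝ → Ch6 × Ch6 → ℝ} (hcw0 : ∀ y u, 0 ≤ cw y u)
    (hcw : ∀ (y : ℝ × ℝ) (u : Ch6 × Ch6), okC6 t u.1 → okC6 t' u.2 →
      ‖cV6 X t t' (vl (htL t) y.1) (vl (htL t') y.2) u‖ * 2 ^ (u.1.2.toNat + u.2.2.toNat) ≤ cw y u) :
    ∀ᵐ y : ℝ × ℝ, ClsVC X P lo hi e t t' (vl (htL t) y.1) (vl (htL t') y.2) (cw y)
      fun n => NURow.ZobjQ (Zc6 X t t' (vl (htL t) y.1) (vl (htL t') y.2) true)
      (Zc6 X t t' (vl (htL t) y.1) (vl (htL t') y.2) false) (51 / 100 * l) (n + aXt e t t')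
      (n + aYt e t t') (fun _ _ k _ i => ln6 P (k i)) (fun _ _ _ k' i => ln6 P (k' i)) := by
  filter_upwards [gnX_aeP hB hW.a4 hW.b5 t t'] with y hy
  exact cls_genC hB hW ha hκ hBs hhi hS hy (by simp [vl]) (by simp [vl]) (hcw0 y) (hcw y)

end cls

end PLT.Lg

end
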