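import Pool.Agent.PLT.LgDecP
import Pool.Agent.PHK.LgPol

/-!
# The poles of the classes of two letters for any `P`

The text of the last part of `PHK/LgPol` over `LgBP X P a b₂ κ κ' e`: `X_pbP`, `hp6_pbP`, `ms_hp6P`,
**`polZ_ZcP : PolZ (Zc6 X t t' w w') κ Q (av6 t t') (po6 t t' w w') (hp6 X t t' w w')`**.
-/

set_option autoImplicit false
set_option linter.unusedSectionVars false

noncomputable section

open Complex MeasureTheory Finset
open scoped ENNReal

open PLX (Fil)

namespace PHK

open NUO NUP1 NUP1S NUP1S.Mg NURow NUCR NUP1.Leg NUGC.PLX PBR.PLX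
open NUP1.Bd (wt qg Ob)
open Pool.Agent.PLX (InvZ6)

open Pol

section cls

variable {X : Bool → Option O3 → ℂ → ℂ} {P : Par6} {a b₂ κ κ' : ℝ} {e : ℕ} {t t' : HT} {w w' : ℂ}

theorem X_pbP (hB : LgBP X P a b₂ κ κ' e) (s : Bool) :
    PB (-(κ + 2 * (-(e : ℝ)) * sc (s, Ob.A))) (Set.Icc (51 / 100 * l) l) (X s none) := by
  refine ⟨?_, fun z hz => hB.an s z hz.1 hz.2⟩
  obtain ⟨D, hD⟩ := hB.dec.A s
  refine ⟨|D|, abs_nonneg _, fun z hz => (hD z hz).trans ?_⟩
  rw [neg_mul]
  exact mul_le_mul_of_nonneg_right (le_abs_self D) (Real.exp_pos _).le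

theorem hp6_pbP (hB : LgBP X P a b₂ κ κ' e) (hw : w.re = htL t) (hw' : w'.re = htL t') (s : Bool) :
    PB (1 - (κ + 2 * (((aXt e t t' : ℤ) - aYt e t t' : ℤ) : ℝ) * sc (s, Ob.A)))
      (Set.Icc (51 / 100 * l) l) (hp6 X t t' w w' s) := by
  rw [rate_charge]
  rcases s with _ | _
  · refine (((X_pbP hB false).mul ((ownP_pb hw' (po6 t t' w w' false)).mul (othP_pb hw))).rate
      ?_).congr' fun u => (hp6_false u).symm
    norm_num [NUP1S.sc, NUP1.Bd.chg]
    ring
  · refine (((X_pbP hB true).mul ((ownP_pb hw (po6 t t' w w' true)).mul (othP_pb hw'))).rate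
      ?_).congr' fun u => (hp6_true u).symm
    norm_num [NUP1S.sc, NUP1.Bd.chg]
    ring

theorem ms_hp6P (hB : LgBP X P a b₂ κ κ' e) (s : Bool) : Measurable (hp6 X t t' w w' s) := by
  have hZ := fun s => ms_ZcP (t := t) (t' := t') (w := w) (w' := w') hB s none
  have hs : Measurable fun u : ℂ => sin (u - po6 t t' w w' s) := by fun_prop
  have h1 := ms_pL
  have m1 : Measurable fun u : ℂ => vF6 t' (false, false) false none (w' - u) :=
    ((lt6_v (okC6_ff t')).ms false none).comp (measurable_const.sub measurable_id)
  have m2 : Measurable fun u : ℂ => vF6 t (false, false) false none (w - u) :=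
    ((lt6_v (okC6_ff t)).ms false none).comp (measurable_const.sub measurable_id)
  have m3 : Measurable fun u : ℂ => pL (w - u) := h1.comp (measurable_const.sub measurable_id)
  have m4 : Measurable fun u : ℂ => pL (w' - u) := h1.comp (measurable_const.sub measurable_id)
  rcases s with _ | _
  · by_cases h : t' = .H
    · have e1 : hp6 X t t' w w' false = fun u => -(X false none u * pL (w' - u) *
          vF6 t (false, false) false none (w - u)) := by
        funext u
        unfold hp6
        rw [if_neg (by simp), if_pos h]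
      rw [e1]
      exact (((hB.ms false none).mul m4).mul m2).neg
    · have e1 : hp6 X t t' w w' false = fun u => Zc6 X t t' w w' false none u *
          sin (u - po6 t t' w w' false) := by
        funext u
        unfold hp6
        rw [if_neg (by simp), if_neg h]
      rw [e1]
      exact (hZ false).mul hs
  · by_cases h : t = .H
    · have e1 : hp6 X t t' w w' true = fun u => -(X true none u * pL (w - u) *
          vF6 t' (false, false) false none (w' - u)) := by
        funext u
        unfold hp6
        rw [if_pos rfl, if_pos h]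
      rw [e1]
      exact (((hB.ms true none).mul m3).mul m1).neg
    · have e1 : hp6 X t t' w w' true = fun u => Zc6 X t t' w w' true none u *
          sin (u - po6 t t' w w' true) := by
        funext u
        unfold hp6
        rw [if_pos rfl, if_neg h]
      rw [e1]
      exact (hZ true).mul hs

/-- **the poles of the class**, any types, letters at different heights -/
theorem polZ_ZcP (hB : LgBP X P a b₂ κ κ' e) (hw : w.re = htL t) (hw' : w'.re = htL t')
    (him : w.im ≠ w'.im) :
    PolZ (Zc6 X t t' w w') κ (((aXt e t t' : ℤ) - aYt e t t' : ℤ) : ℝ) (av6 t t')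
      (po6 t t' w w') (hp6 X t t' w w') := by
  constructor
  · exact po6_re hw hw'
  · rw [po6_im_true, po6_im_false]
    exact him
  · intro s u h0 h1
    exact (hp6_pbP hB hw hw' s).2 u ⟨h0, h1⟩
  · intro s u h0 h1 hu
    have hre := po6_re (t := t) (t' := t') (w := w) (w' := w') hw hw' s
    rcases s with _ | _
    · have key := ownP_eq (T := t') (p := w') (π := po6 t t' w w' false) hw' hre (fun h => by
        unfold po6
        rw [if_neg (by simp), if_pos h]) h0 h1 hu
      rw [Zc6_false, key, hp6_false]
      ring
    · have key := ownP_eq (T := t) (p := w) (π := po6 t t' w w' true) hw hre (fun h => by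
        unfold po6
        rw [if_pos rfl, if_pos h]) h0 h1 hu
      rw [Zc6_true, key, hp6_true]
      ring
  · intro s hs
    unfold hp6
    unfold av6 at hs
    rcases s with _ | _
    · rw [if_neg (by simp)] at hs
      rw [if_neg (by simp), if_neg (by simpa using hs), sub_self, Complex.sin_zero, mul_zero]
    · rw [if_pos rfl] at hs
      rw [if_pos rfl, if_neg (by simpa using hs), sub_self, Complex.sin_zero, mul_zero]
  · exact fun s => ms_hp6P hB s
  · exact fun s => (hp6_pbP hB hw hw' s).1

end cls

end PHK

end
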