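import Pool.Agent.PHK.LgBd
import Pool.Agent.PHK.LgLet

/-!
# The regular inverses of the letters on the closed window

`x = w - z`, `w` = half quantum on its line `htL t`, `z` = quantum with `0 ≤ Re z ≤ l`.
* **`eL_diffP`**: `eL t i c` is analytic for `htL t - l ≤ Re x ≤ htL t`;
* **`eL_bdP`**: it is bounded there, rate `1/4 - (htQ t + 2 i) sc`.
-/

set_option autoImplicit false
set_option linter.unusedSectionVars false

noncomputable section

open Complex

namespace PLT.Lg

open NUO NUP1 NUP1S NUP1.Leg NURow NUGC.PLX PBR.PLX PHK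
open NUP1.Bd (qg)

/-! ### analyticity -/

/-- **`eL` is analytic on the closed window** -/
theorem eL_diffP {t : HT} {i c : Bool} {x : ℂ} (h : i = true → t = .H)
    (h1 : htL t - l ≤ x.re) (h2 : x.re ≤ htL t) : DifferentiableAt ℂ (eL t i c) x := by
  have hl : 0 < l := Bd.l_pos
  have e1 : (x + (l : ℂ)).re = x.re + l := by simp
  have e2 : (x + 2 * (l : ℂ)).re = x.re + 2 * l := by simp
  have e3 : (x + 3 * (l : ℂ)).re = x.re + 3 * l := by simp
  have m2 : (x - 2 * (l : ℂ)).re = x.re - 2 * l := by simp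
  rcases t with _ | _ | _ | _
  · simp only [htL] at h1 h2
    cases c
    · show DifferentiableAt ℂ (fun x => sin (3 * l - x) * sin (3 * l + x) / cos x) x
      refine DifferentiableAt.div (by fun_prop) (by fun_prop) (cos_neL ?_ ?_) <;> linarith
    · show DifferentiableAt ℂ (fun x => sin (x + l) / (sin x * sin (x + 2 * l))) x
      refine DifferentiableAt.div (by fun_prop) (by fun_prop)
        (mul_ne_zero (sin_neL ?_ ?_) (sin_neL ?_ ?_)) <;> (try rw [e2]) <;> linarith
  · simp only [htL] at h1 h2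
    cases c
    · show DifferentiableAt ℂ (fun x => sin (3 * l - x) * sin (3 * l + x) / cos x) x
      refine DifferentiableAt.div (by fun_prop) (by fun_prop) (cos_neL ?_ ?_) <;> linarith
    · show DifferentiableAt ℂ (fun x => sin (x + l) / (sin x * sin (x + 2 * l))) x
      refine DifferentiableAt.div (by fun_prop) (by fun_prop)
        (mul_ne_zero (sin_neL' ?_ ?_) (sin_neL' ?_ ?_)) <;> (try rw [e2]) <;> linarith
  · simp only [htL] at h1 h2
    cases c
    · show DifferentiableAt ℂ (fun x => sin (x + 2 * l) / (Pool.Agent.PHD.sc (x + 3 * l) *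
        sin (x + l))) x
      refine DifferentiableAt.div (by fun_prop)
        (DifferentiableAt.mul (sc_at _ (by fun_prop)) (by fun_prop))
        (mul_ne_zero (sc_neL ?_ ?_) (sin_neL' ?_ ?_)) <;> (try rw [e3]) <;> (try rw [e1]) <;> linarith
    · show DifferentiableAt ℂ (fun x => sin (x + l) * sin x * sin (x + 6 * l) ^ 2 /
        (sin (x + 2 * l) * cos (x + 3 * l) ^ 2)) x
      refine DifferentiableAt.div (by fun_prop) (by fun_prop)
        (mul_ne_zero (sin_neL' ?_ ?_) (pow_ne_zero 2 (cos_neL ?_ ?_))) <;> (try rw [e2]) <;>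
        (try rw [e3]) <;> linarith
  · simp only [htL] at h1 h2
    have hs : DifferentiableAt ℂ Pool.Agent.PHD.sc x := Pool.Agent.PHD.sc_diff x
    have n0 : Pool.Agent.PHD.sc x ≠ 0 := sc_neL (by linarith) (by linarith)
    have n1 : cos x ≠ 0 := cos_neL (by linarith) (by linarith)
    have n2 : sin (x - 2 * (l : ℂ)) ≠ 0 := sin_neL' (by rw [m2]; linarith) (by rw [m2]; linarith)
    have n3 : sin (x + 2 * (l : ℂ)) ≠ 0 := sin_neL (by rw [e2]; linarith) (by rw [e2]; linarith)
    have d1 : DifferentiableAt ℂ (fun x : ℂ => cos x) x := by fun_prop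
    have d2 : DifferentiableAt ℂ (fun x : ℂ => sin (x - 2 * l)) x := by fun_prop
    have d3 : DifferentiableAt ℂ (fun x : ℂ => sin (x + 2 * l) ^ 2) x := by fun_prop
    cases c
    · cases i
      · have hd : DifferentiableAt ℂ (fun x => Pool.Agent.PHD.sc x * cos x * sin (x - 2 * l)) x :=
          (hs.mul d1).mul d2
        exact ((differentiableAt_const (1 : ℂ)).div hd (mul_ne_zero (mul_ne_zero n0 n1) n2)).neg
      · have hd : DifferentiableAt ℂ
            (fun x => Pool.Agent.PHD.sc x * cos x ^ 3 * sin (x - 2 * l)) x :=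
          (hs.mul (d1.pow 3)).mul d2
        have hn : DifferentiableAt ℂ (fun x : ℂ => sin (x + 3 * l) ^ 2 * sin (x - 3 * l) ^ 2) x := by
          fun_prop
        exact (hn.div hd (mul_ne_zero (mul_ne_zero n0 (pow_ne_zero 3 n1)) n2)).neg
    · cases i
      · have hn : DifferentiableAt ℂ (fun x : ℂ => sin (x + l) * sin x * sin (x - 5 * l) ^ 2) x := by
          fun_prop
        have hd : DifferentiableAt ℂ (fun x : ℂ => sin (x + 2 * l)) x := by fun_prop
        exact hn.div hd n3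
      · have hn : DifferentiableAt ℂ
            (fun x : ℂ => sin (x + l) ^ 2 * sin (x - l) * sin (x - 5 * l) ^ 2) x := by fun_prop
        have hd : DifferentiableAt ℂ
            (fun x => Pool.Agent.PHD.sc x * sin (x + 2 * l) ^ 2 * sin (x - 2 * l)) x :=
          (hs.mul d3).mul d2
        exact hn.div hd (mul_ne_zero (mul_ne_zero n0 (pow_ne_zero 2 n3)) n2)

/-! ### bounds -/

private theorem cgB {K : Set ℝ} {s s' : ℝ} {g g' : ℂ → ℂ} (h : NUP1S.Bdd K s g) (hs : s ≤ s')
    (e : ∀ z, g z = g' z) : NUP1S.Bdd K s' g' := by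
  rw [← funext e]
  exact h.mono_rate hs

private theorem bs (K : Set ℝ) (a : ℝ) : NUP1S.Bdd K 1 fun z => sin (z + (a * l : ℝ)) :=
  bdd_sin K _

private theorem bi {K : Set ℝ} (hK : IsCompact K) (a : ℝ)
    (h : ∀ d ∈ K, Real.sin (d + a * l) ≠ 0) :
    NUP1S.Bdd K (-1) fun z => 1 / sin (z + (a * l : ℝ)) :=
  bdd_inv_sin hK _ h

private theorem cos4 (z : ℂ) : cos z = sin (z + 4 * l) := by
  rw [add_comm z (4 * (l : ℂ)), sin_4l]

section fns
variable {K : Set ℝ} (hK : IsCompact K)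
include hK

private theorem f1 (h0 : ∀ d ∈ K, Real.sin (d + 0 * l) ≠ 0)
    (h2 : ∀ d ∈ K, Real.sin (d + 2 * l) ≠ 0) :
    NUP1S.Bdd K (-1) fun x => sin (x + l) / (sin x * sin (x + 2 * l)) := by
  refine cgB ((bs K 1).mul ((bi hK 0 h0).mul (bi hK 2 h2))) (by norm_num) fun z => ?_
  push_cast
  rw [zero_mul, add_zero, one_mul]
  ring

private theorem f2 (h4 : ∀ d ∈ K, Real.sin (d + 4 * l) ≠ 0) :
    NUP1S.Bdd K 1 fun x => sin (3 * l - x) * sin (3 * l + x) / cos x := by
  refine cgB (((NUP1S.Bdd.const K (-1)).mul ((bs K 3).mul (bs K (-3)))).mul (bi hK 4 h4))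
    (by norm_num) fun z => ?_
  push_cast
  rw [cos4, show 3 * (l : ℂ) - z = -(z + -3 * l) by ring, Complex.sin_neg,
    show 3 * (l : ℂ) + z = z + 3 * l by ring]
  ring

private theorem f3 (h2 : ∀ d ∈ K, Real.sin (d + 2 * l) ≠ 0)
    (h7 : ∀ d ∈ K, Real.sin (d + 7 * l) ≠ 0) :
    NUP1S.Bdd K 1 fun x => sin (x + l) * sin x * sin (x + 6 * l) ^ 2 /
      (sin (x + 2 * l) * cos (x + 3 * l) ^ 2) := by
  refine cgB ((((bs K 1).mul (bs K 0)).mul ((bs K 6).mul (bs K 6))).mul
    ((bi hK 2 h2).mul ((bi hK 7 h7).mul (bi hK 7 h7)))) (by norm_num) fun z => ?_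
  push_cast
  rw [cos4, show z + 3 * (l : ℂ) + 4 * l = z + 7 * l by ring, zero_mul, add_zero, one_mul]
  ring

private theorem f4 (h2 : ∀ d ∈ K, Real.sin (d + 2 * l) ≠ 0) :
    NUP1S.Bdd K 3 fun x => sin (x + l) * sin x * sin (x - 5 * l) ^ 2 / sin (x + 2 * l) := by
  refine cgB ((((bs K 1).mul (bs K 0)).mul ((bs K (-5)).mul (bs K (-5)))).mul
    (bi hK 2 h2)) (by norm_num) fun z => ?_
  push_cast
  rw [show z + -5 * (l : ℂ) = z - 5 * l by ring, zero_mul, add_zero, one_mul]
  ring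

private theorem f5 (h2 : ∀ d ∈ K, Real.sin (d + 2 * l) ≠ 0)
    (h2' : ∀ d ∈ K, Real.sin (d + -2 * l) ≠ 0) (h0 : ∀ d ∈ K, |d + 0 * l| ≤ l) :
    NUP1S.Bdd K (5 / 4) fun x => sin (x + l) ^ 2 * sin (x - l) * sin (x - 5 * l) ^ 2 /
      (Pool.Agent.PHD.sc x * sin (x + 2 * l) ^ 2 * sin (x - 2 * l)) := by
  refine cgB (((((bs K 1).mul (bs K 1)).mul (bs K (-1))).mul ((bs K (-5)).mul (bs K (-5)))).mul
    (((bdd_inv_sc 0 h0).mul ((bi hK 2 h2).mul (bi hK 2 h2))).mul (bi hK (-2) h2')))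
    (by norm_num) fun z => ?_
  push_cast
  rw [show z + -5 * (l : ℂ) = z - 5 * l by ring, show z + -2 * (l : ℂ) = z - 2 * l by ring,
    show z + -1 * (l : ℂ) = z - l by ring, zero_mul, add_zero, one_mul]
  ring

private theorem f6 (h1 : ∀ d ∈ K, Real.sin (d + 1 * l) ≠ 0) (h3 : ∀ d ∈ K, |d + 3 * l| ≤ l) :
    NUP1S.Bdd K (-3 / 4) fun x => sin (x + 2 * l) /
      (Pool.Agent.PHD.sc (x + 3 * l) * sin (x + l)) := by
  refine cgB ((bs K 2).mul ((bdd_inv_sc 3 h3).mul (bi hK 1 h1))) (by norm_num) fun z => ?_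
  push_cast
  rw [one_mul]
  ring

private theorem f7 (h4 : ∀ d ∈ K, Real.sin (d + 4 * l) ≠ 0)
    (h2' : ∀ d ∈ K, Real.sin (d + -2 * l) ≠ 0) (h0 : ∀ d ∈ K, |d + 0 * l| ≤ l) :
    NUP1S.Bdd K (-11 / 4) fun x => -(1 / (Pool.Agent.PHD.sc x * cos x * sin (x - 2 * l))) := by
  refine cgB ((NUP1S.Bdd.const K (-1)).mul (((bdd_inv_sc 0 h0).mul (bi hK 4 h4)).mul
    (bi hK (-2) h2'))) (by norm_num) fun z => ?_
  push_cast
  rw [cos4, show z + -2 * (l : ℂ) = z - 2 * l by ring, zero_mul, add_zero]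
  ring

private theorem f8 (h4 : ∀ d ∈ K, Real.sin (d + 4 * l) ≠ 0)
    (h2' : ∀ d ∈ K, Real.sin (d + -2 * l) ≠ 0) (h0 : ∀ d ∈ K, |d + 0 * l| ≤ l) :
    NUP1S.Bdd K (-3 / 4) fun x => -(sin (x + 3 * l) ^ 2 * sin (x - 3 * l) ^ 2 /
      (Pool.Agent.PHD.sc x * cos x ^ 3 * sin (x - 2 * l))) := by
  refine cgB ((NUP1S.Bdd.const K (-1)).mul ((((bs K 3).mul (bs K 3)).mul
    ((bs K (-3)).mul (bs K (-3)))).mul (((bdd_inv_sc 0 h0).mul
    ((bi hK 4 h4).mul ((bi hK 4 h4).mul (bi hK 4 h4)))).mul (bi hK (-2) h2'))))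
    (by norm_num) fun z => ?_
  push_cast
  rw [cos4, show z + -2 * (l : ℂ) = z - 2 * l by ring, show z + -3 * (l : ℂ) = z - 3 * l by ring,
    zero_mul, add_zero]
  ring

end fns

/-- **bounds of the regular inverse of a letter on the closed window** -/
theorem eL_bdP {t : HT} {i : Bool} (h : i = true → t = .H) (c : Bool) :
    NUP1S.Bdd (Set.Icc (htL t - l) (htL t))
      (1 / 4 - (htQ t + 2 * i.toNat) * NUP1S.sc (c, NUP1.Bd.Ob.A)) (eL t i c) := by
  have hl := Bd.l_pos
  have hi : t ≠ .H → i = false := fun ht => by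
    cases i
    · rfl
    · exact absurd (h rfl) ht
  rcases t with _ | _ | _ | _
  · obtain rfl := hi (by decide)
    rcases c with _ | _
    · refine cgB (f2 isCompact_Icc fun d hd => ?_) (by norm_num [htQ, NUP1S.sc, NUP1.Bd.chg]) fun z => rfl
      obtain ⟨a, b⟩ := hd
      simp only [htL] at a b
      exact sin_ne_pos (by linarith) (by linarith)
    · refine cgB (f1 isCompact_Icc (fun d hd => ?_) fun d hd => ?_)
        (by norm_num [htQ, NUP1S.sc, NUP1.Bd.chg]) fun z => rfl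
      all_goals
        obtain ⟨a, b⟩ := hd
        simp only [htL] at a b
        exact sin_ne_pos (by linarith) (by linarith)
  · obtain rfl := hi (by decide)
    rcases c with _ | _
    · refine cgB (f2 isCompact_Icc fun d hd => ?_) (by norm_num [htQ, NUP1S.sc, NUP1.Bd.chg]) fun z => rfl
      obtain ⟨a, b⟩ := hd
      simp only [htL] at a b
      exact sin_ne_pos (by linarith) (by linarith)
    · refine cgB (f1 isCompact_Icc (fun d hd => ?_) fun d hd => ?_)
        (by norm_num [htQ, NUP1S.sc, NUP1.Bd.chg]) fun z => rfl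
      all_goals
        obtain ⟨a, b⟩ := hd
        simp only [htL] at a b
        exact sin_ne_neg (by linarith) (by linarith)
  · obtain rfl := hi (by decide)
    rcases c with _ | _
    · refine cgB (f6 isCompact_Icc (fun d hd => ?_) fun d hd => ?_)
        (by norm_num [htQ, NUP1S.sc, NUP1.Bd.chg]) fun z => rfl
      · obtain ⟨a, b⟩ := hd
        simp only [htL] at a b
        exact sin_ne_neg (by linarith) (by linarith)
      · obtain ⟨a, b⟩ := hd
        simp only [htL] at a b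
        exact abs_le.2 ⟨by linarith, by linarith⟩
    · refine cgB (f3 isCompact_Icc (fun d hd => ?_) fun d hd => ?_)
        (by norm_num [htQ, NUP1S.sc, NUP1.Bd.chg]) fun z => rfl
      · obtain ⟨a, b⟩ := hd
        simp only [htL] at a b
        exact sin_ne_neg (by linarith) (by linarith)
      · obtain ⟨a, b⟩ := hd
        simp only [htL] at a b
        exact sin_ne_pos (by linarith) (by linarith)
  · have g0 : ∀ d ∈ Set.Icc (htL .H - l) (htL .H), |d + 0 * l| ≤ l := by
      rintro d ⟨a, b⟩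
      simp only [htL] at a b
      exact abs_le.2 ⟨by linarith, by linarith⟩
    have g2 : ∀ d ∈ Set.Icc (htL .H - l) (htL .H), Real.sin (d + 2 * l) ≠ 0 := by
      rintro d ⟨a, b⟩
      simp only [htL] at a b
      exact sin_ne_pos (by linarith) (by linarith)
    have g2' : ∀ d ∈ Set.Icc (htL .H - l) (htL .H), Real.sin (d + -2 * l) ≠ 0 := by
      rintro d ⟨a, b⟩
      simp only [htL] at a b
      exact sin_ne_neg (by linarith) (by linarith)
    have g4 : ∀ d ∈ Set.Icc (htL .H - l) (htL .H), Real.sin (d + 4 * l) ≠ 0 := by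
      rintro d ⟨a, b⟩
      simp only [htL] at a b
      exact sin_ne_pos (by linarith) (by linarith)
    rcases i with _ | _ <;> rcases c with _ | _
    · exact cgB (f7 isCompact_Icc g4 g2' g0) (by norm_num [htQ, NUP1S.sc, NUP1.Bd.chg]) fun z => rfl
    · exact cgB (f4 isCompact_Icc g2) (by norm_num [htQ, NUP1S.sc, NUP1.Bd.chg]) fun z => rfl
    · exact cgB (f8 isCompact_Icc g4 g2' g0) (by norm_num [htQ, NUP1S.sc, NUP1.Bd.chg]) fun z => rfl
    · exact cgB (f5 isCompact_Icc g2 g2' g0) (by norm_num [htQ, NUP1S.sc, NUP1.Bd.chg]) fun z => rfl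

end PLT.Lg

end
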