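import Pool.Agent.PLT.LgPDef
import Pool.Agent.PLT.LgDecP
import Pool.Agent.PLT.LgBdP
import Pool.Agent.PHK.LgZer

/-!
# The zeros of the filled classes of two letters, general parameters, any window

`PHK/LgZer` for every `P` with `LnP P` and every window `WnG P a b`; base `LgBP`.
* **`stZ6_LgP`**: the places of the zeros;
* `Ei6_bdP`: the bound of the inverse;
* **`zerG_Lg`**: `ZerG (ZFl (Zc6 X t t' w w') (po6 t t' w w') i) P a b bZ (κ' + 1 / 2) ..`;
  **`zerG_fil`** (`bZ = 39/64 l`, any types), **`zerG_reg`** (`bZ = b`, `t, t' ≠ H`, no filling).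
-/

set_option autoImplicit false
set_option linter.unusedSectionVars false

noncomputable section

open Complex MeasureTheory Finset
open scoped ENNReal

open PLX (Fil)

namespace PLT.Lg

open NUO NUP1 NUP1S NUP1S.Mg NURow NUCR NUP1.Leg NUGC.PLX PBR.PLX
open NUP1.Bd (wt qg Ob)
open PHK PHK.LgZ

variable {X : Bool → Option O3 → ℂ → ℂ} {P : Par6} {a b κ κ' : ℝ} {e : ℕ} {t t' : HT} {w w' : ℂ}
  {i : Bool × Bool}

/-- **the zeros are between the lines of the holes, off the line of the points `b`** -/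
theorem stZ6_LgP [hP : LnP P] (h : OkI (av6 t t') i) (hw : w.re = htL t) (hw' : w'.re = htL t') :
    StZ6 P (ze6 t t' w w' i) := by
  have hl := NUP1.l_pos
  have a1 := hP.j1
  have a2 := hP.j2
  have a3 := hP.e1
  have a4 := hP.good.e45
  have b1 : (1 - P.j2) * l < 1 / 4 * l := mul_lt_mul_of_pos_right (by linarith) hl
  have b2 : 5 / 8 * l < (1 - P.j1) * l := mul_lt_mul_of_pos_right (by linarith) hl
  have b3 : (1 - P.e) * l < 5 / 8 * l := mul_lt_mul_of_pos_right (by linarith) hl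
  have b4 : 1 / 4 * l < (1 - P.e) * l := mul_lt_mul_of_pos_right (by linarith) hl
  refine ⟨fun s j => ?_, fun s j => ?_⟩
  · show _ < (zB6 t t' w w' s j.1).re ∧ (zB6 t t' w w' s j.1).re < _
    rcases zB6_re h hw hw' s j.1 j.2 with h | h
    · rw [h]
      constructor <;> linarith
    · rw [h]
      constructor <;> linarith
  · show (zB6 t t' w w' s j.1).re ≠ _
    rcases zB6_re h hw hw' s j.1 j.2 with h | h
    · rw [h]
      exact ne_of_lt b4
    · rw [h]
      exact ne_of_gt b3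

theorem gx_lineP [LnP P] {t : HT} {w u : ℂ} (hw : w.re = htL t)
    (h1 : u.re = (1 - P.j2) * l ∨ u.re = (1 - P.j1) * l) : Gx (w - u) := by
  refine gx_of_nm ?_
  rw [sub_re, hw]
  refine nm6_lnS (P := P) (htL_psS t) ?_
  unfold lnS
  rcases h1 with h1 | h1
  · rw [h1]
    simp
  · rw [h1]
    simp

/-- the rate of the filled class -/
theorem rate_fillP (e : ℕ) (t t' : HT) (i : Bool × Bool) (c : ℝ) :
    (κ' + 2 * (-(e : ℝ)) * c) + ((1 / 4 - (htQ t + 2 * i.1.toNat) * c) +
      (1 / 4 - (htQ t' + 2 * i.2.toNat) * -c)) =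
      (κ' + 1 / 2) + 2 * ((((aXt e t t' : ℤ) - aYt e t t' : ℤ) : ℝ) - i.1.toNat + i.2.toNat) * c := by
  rw [← htQ_charge]
  ring

/-- **the bound of the inverse** -/
theorem Ei6_bdP [hP : LnP P] (hB : LgBP X P a b κ κ' e) (h : OkI (av6 t t') i)
    (hw : w.re = htL t) (hw' : w'.re = htL t') (s : Bool) :
    Bdd (Set.Icc ((1 - P.j2) * l) ((1 - P.j1) * l))
      ((κ' + 1 / 2) + 2 * ((((aXt e t t' : ℤ) - aYt e t t' : ℤ) : ℝ) - i.1.toNat + i.2.toNat) *
        sc (s, Ob.A)) (Ei6 X t t' w w' i s) := by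
  have hl := NUP1.l_pos
  have g1 := hP.good.j1
  have g2 := hP.good.j2
  have c1 : 0 ≤ (1 - P.j2) * l := mul_nonneg (by linarith) hl.le
  have c2 : (1 - P.j1) * l ≤ l := by nlinarith
  have a0 := hB.ibd s
  have a1 : Bdd (Set.Icc ((1 - P.j2) * l) ((1 - P.j1) * l))
      (1 / 4 - (htQ t + 2 * i.1.toNat) * sc (s, Ob.A)) fun u => eL t i.1 s (w - u) :=
    bdd_one6 (eL_bdP (okI_fst h) s) w fun x hx => by
      rw [hw]
      exact ⟨by linarith [hx.2], by linarith [hx.1]⟩
  have a2 : Bdd (Set.Icc ((1 - P.j2) * l) ((1 - P.j1) * l))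
      (1 / 4 - (htQ t' + 2 * i.2.toNat) * sc (!s, Ob.A)) fun u => eL t' i.2 (!s) (w' - u) :=
    bdd_one6 (eL_bdP (okI_snd h) (!s)) w' fun x hx => by
      rw [hw']
      exact ⟨by linarith [hx.2], by linarith [hx.1]⟩
  have e1 : sc (!s, Ob.A) = -sc (s, Ob.A) := by
    cases s <;> simp [sc]
  rw [e1] at a2
  exact (a0.mul (a1.mul a2)).rate (rate_fillP e t t' i _)

/-- **the zeros of the filled classes of two letters** -/
theorem zerG_Lg [hP : LnP P] (hB : LgBP X P a b κ κ' e) (hW : WnG P a b)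
    (h : OkI (av6 t t') i) (hw : w.re = htL t) (hw' : w'.re = htL t')
    (him : w.im ≠ w'.im) {bZ : ℝ} (hb1 : bZ ≤ l) (hb2 : t = .H ∨ t' = .H → bZ ≤ 39 / 64 * l)
    (hb3 : ∀ s (u : ℂ), 51 / 100 * l ≤ u.re → u.re < bZ → X s none u ≠ 0)
    (hx : t = .P → X false none (hx6 t w) ≠ 0) (hx' : t' = .P → X true none (hx6 t' w') ≠ 0) :
    ZerG (ZFl (Zc6 X t t' w w') (po6 t t' w w') i) P a b bZ (κ' + 1 / 2)
      ((((aXt e t t' : ℤ) - aYt e t t' : ℤ) : ℝ) - i.1.toNat + i.2.toNat) (ze6 t t' w w' i)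
      (rh6 X t t' w w' i) (Ei6 X t t' w w' i) := by
  have hl := NUP1.l_pos
  have hst := stZ6_LgP (P := P) (w := w) (w' := w') h hw hw'
  have b5 : 5 / 8 * l < b := by
    have := hP.j1
    have := hW.b1
    nlinarith
  refine ⟨fun s => ze6_inj him s, hst.st, fun s u hu1 hu2 => ?_, hst.off, fun s u hu1 hu2 => ?_,
    fun s u hu => ?_, fun s => Ei6_bdP hB h hw hw' s, fun s j => ?_⟩
  · have c1 : 0 ≤ u.re := (hW.a0.trans hu1).le
    have c2 : u.re ≤ l := hu2.le.trans hW.b3
    have a1 : DifferentiableAt ℂ (eL t i.1 s) (w - u) := eL_diffP (okI_fst h)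
      (by rw [sub_re, hw]; linarith) (by rw [sub_re, hw]; linarith)
    have a2 : DifferentiableAt ℂ (eL t' i.2 (!s)) (w' - u) := eL_diffP (okI_snd h)
      (by rw [sub_re, hw']; linarith) (by rw [sub_re, hw']; linarith)
    have b1 : DifferentiableAt ℂ (fun u => eL t i.1 s (w - u)) u :=
      DifferentiableAt.comp u a1 ((differentiableAt_const w).sub differentiableAt_id)
    have b2 : DifferentiableAt ℂ (fun u => eL t' i.2 (!s) (w' - u)) u :=
      DifferentiableAt.comp u a2 ((differentiableAt_const w').sub differentiableAt_id)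
    exact (hB.ian s u hu1 hu2).mul (b1.mul b2)
  · exact Ei6_mul h (hb3 s u hu1 hu2)
      (gx_strip hw hu1 (hu2.le.trans hb1) fun ht => lt_of_lt_of_le hu2 (hb2 (Or.inl ht)))
      (gx_strip hw' hu1 (hu2.le.trans hb1) fun ht => lt_of_lt_of_le hu2 (hb2 (Or.inr ht)))
  · by_cases hX : X s none u = 0
    · right
      constructor
      · rw [ZFl_Zc6 h, hX, zero_mul]
      · unfold Ei6
        rw [hX, inv_zero, zero_mul]
    · exact Or.inl (Ei6_mul h hX (gx_lineP hw hu) (gx_lineP hw' hu))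
  · refine Ei6_rho h him j ?_
    rcases zB6_re h hw hw' s j.1 j.2 with h5 | h5
    · -- the zero of a letter of type P
      have h1 := okI_fst h
      have h2 := okI_snd h
      obtain ⟨c, hc⟩ := j
      cases s <;> cases c
      · have hz : hz6 t = true := hc
        rcases hx6_re hz hw with ⟨rfl, -⟩ | ⟨rfl, h6⟩
        · exact hx rfl
        · have h7 : (hx6 .H w).re = 1 / 4 * l := h5
          rw [h7] at h6
          linarith
      · have hz : i.2 = true := hc
        have h7 : w'.re = 1 / 4 * l := h5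
        rw [hw', h2 hz] at h7
        have h8 : 5 / 8 * l = 1 / 4 * l := h7
        linarith
      · have hz : hz6 t' = true := hc
        rcases hx6_re hz hw' with ⟨rfl, -⟩ | ⟨rfl, h6⟩
        · exact hx' rfl
        · have h7 : (hx6 .H w').re = 1 / 4 * l := h5
          rw [h7] at h6
          linarith
      · have hz : i.1 = true := hc
        have h7 : w.re = 1 / 4 * l := h5
        rw [hw, h1 hz] at h7
        have h8 : 5 / 8 * l = 1 / 4 * l := h7
        linarith
    · refine hB.ne s _ ?_ ?_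
      · show _ ≤ (zB6 t t' w w' s j.1).re
        rw [h5]
        linarith
      · show (zB6 t t' w w' s j.1).re < _
        rw [h5]
        exact b5

/-- **the filled classes**, the strip of `WordGP`, any types -/
theorem zerG_fil [hP : LnP P] (hB : LgBP X P a b κ κ' e) (hW : WnG P a b)
    (hg : GnX X t t' w w') (hw : w.re = htL t) (hw' : w'.re = htL t') {i : Bool × Bool}
    (hi : OkI (av6 t t') i) :
    ZerG (ZFl (Zc6 X t t' w w') (po6 t t' w w') i) P a b (39 / 64 * l) (κ' + 1 / 2)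
      ((((aXt e t t' : ℤ) - aYt e t t' : ℤ) : ℝ) - i.1.toNat + i.2.toNat) (ze6 t t' w w' i)
      (rh6 X t t' w w' i) (Ei6 X t t' w w' i) := by
  have hl := NUP1.l_pos
  have b5 : 39 / 64 * l < b := by
    have := hP.j1
    have := hW.b1
    nlinarith
  exact zerG_Lg hB hW hi hw hw' hg.im (by linarith) (fun _ => le_rfl)
    (fun s u h1 h2 => hB.ne s u h1 (h2.trans b5)) (fun h => hg.x0 (by rw [h]; decide))
    (fun h => hg.x1 (by rw [h]; decide))

/-- **the class without filling**, the strip of `WordGZ`, `t, t' ≠ H` -/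
theorem zerG_reg [LnP P] (hB : LgBP X P a b κ κ' e) (hW : WnG P a b)
    (hg : GnX X t t' w w') (hw : w.re = htL t) (hw' : w'.re = htL t') (ht : t ≠ .H)
    (ht' : t' ≠ .H) :
    ZerG (Zc6 X t t' w w') P a b b (κ' + 1 / 2)
      (((aXt e t t' : ℤ) - aYt e t t' : ℤ) : ℝ) (ze6 t t' w w' (false, false))
      (rh6 X t t' w w' (false, false)) (Ei6 X t t' w w' (false, false)) := by
  have key := zerG_Lg (i := (false, false)) hB hW ⟨by simp, by simp⟩ hw hw' hg.im (bZ := b)
    hW.b3 (fun h => by rcases h with h | h <;> contradiction)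
    (fun s u h1 h2 => hB.ne s u h1 h2) (fun h => hg.x0 (by rw [h]; decide))
    (fun h => hg.x1 (by rw [h]; decide))
  have e1 : ZFl (Zc6 X t t' w w') (po6 t t' w w') (false, false) = Zc6 X t t' w w' := by
    funext s k u
    simp [ZFl]
  have e2 : (((aXt e t t' : ℤ) - aYt e t t' : ℤ) : ℝ) - (false, false).1.toNat +
      (false, false).2.toNat = (((aXt e t t' : ℤ) - aYt e t t' : ℤ) : ℝ) := by
    simp
  rw [e1, e2] at key
  exact key

end PLT.Lg

end
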