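import Pool.Agent.PHK.WordPc
import Pool.Agent.PHK.WordThZ

/-!
# The word identities with free windows of the inverse

* `WinP P a₀ b₂` : the windows; `ZerW` : zeros and inverse on the strip `(a₀, b₂)`; `ZerZ.toW`;
* **`wordZ_win`** : classes with zeros; **`wordP_win`** : classes with poles.
-/

set_option autoImplicit false
set_option linter.unusedSectionVars false
set_option linter.unusedVariables false

noncomputable section

open Complex MeasureTheory NUP1 Set Filter Topology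
open scoped ENNReal Nat

namespace PLT

open PHK NUO NUP1S NUP1S.Mg NUP1S.Ab NUP1S.AbG NURow
open NUP1.Bd (wt Ob qg sin_pos_of)
open Pool.Agent.PHK (lM lG lK)
open Pool.Agent.PHD (db)
open Pool.Agent.PLX (DecZ6 HI6)

/-- **the windows**: the strip `(a₀, b₂)` of the inverse contains the hole lines -/
structure WinP (P : Par6) (a₀ b₂ : ℝ) : Prop where
  a0 : 0 < a₀
  a1 : a₀ < (1 - P.j2) * l
  a2 : a₀ ≤ 51 / 100 * l
  b1 : (1 - P.j1) * l < b₂
  b2 : b₂ ≤ (3 - P.jL) * l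
  b3 : b₂ ≤ l

/-- **the zeros of a class in the strip of the holes**, inverse on `(a₀, b₂)` -/
structure ZerW (Z : Bool → Option O3 → ℂ → ℂ) (P : Par6) (a₀ b₂ bZ κ' q0 : ℝ) {ν : Bool → Type}
    [∀ s, Fintype (ν s)] [∀ s, LinearOrder (ν s)] (ζ ρ : ∀ s, ν s → ℂ) (Ei : Bool → ℂ → ℂ) :
    Prop where
  inj : ∀ s, Function.Injective (ζ s)
  st : ∀ s j, (1 - P.j2) * l < (ζ s j).re ∧ (ζ s j).re < (1 - P.j1) * l
  an : ∀ s (u : ℂ), a₀ < u.re → u.re < b₂ → DifferentiableAt ℂ (Ei s) u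
  off : ∀ s j, (ζ s j).re ≠ (1 - P.e) * l
  eq : ∀ s (u : ℂ), 51 / 100 * l ≤ u.re → u.re < bZ → Z s none u * Ei s u = ∏ j, (u - ζ s j)
  eqh : ∀ s (u : ℂ), u.re = (1 - P.j2) * l ∨ u.re = (1 - P.j1) * l →
    Z s none u * Ei s u = ∏ j, (u - ζ s j) ∨ (Z s none u = 0 ∧ Ei s u = 0)
  bd : ∀ s, Bdd (Set.Icc ((1 - P.j2) * l) ((1 - P.j1) * l)) (κ' + 2 * q0 * sc (s, Ob.A)) (Ei s)
  rho : ∀ s j, Ei s (ζ s j) * ρ s j = ∏ j' ∈ Finset.univ.erase j, (ζ s j - ζ s j')

/-- the windows of `HI6` -/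
theorem winP_HI6 {P : Par6} (hP : GoodP6 P) (hI : HI6 P) :
    WinP P (1 / 9 * l) (min (63 / 64 * l) ((3 - P.jL) * l)) := by
  have hl : 0 < l := Bd.l_pos
  have h1 := hP.j1
  have h2 := hP.j1e
  have h3 := hP.ej2
  have h4 := hP.j2
  have h5 := hP.Lj
  have i1 := hI.j1
  have i2 := hI.j2
  have p1 : (1 - P.j1) * l < 63 / 64 * l := by nlinarith
  have p3 : (1 - P.j1) * l < (3 - P.jL) * l := by nlinarith
  have p4 : 1 / 9 * l < (1 - P.j2) * l := by nlinarith
  exact ⟨by linarith, p4, by linarith, lt_min p1 p3, min_le_right _ _,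
    (min_le_left _ _).trans (by linarith)⟩

theorem _root_.PHK.ZerZ.toW {Z : Bool → Option O3 → ℂ → ℂ} {P : Par6} {bZ κ' q0 : ℝ}
    {ν : Bool → Type} [∀ s, Fintype (ν s)] [∀ s, LinearOrder (ν s)] {ζ ρ : ∀ s, ν s → ℂ}
    {Ei : Bool → ℂ → ℂ} (hI : HI6 P) (h : ZerZ Z P bZ κ' q0 ζ ρ Ei) :
    ZerW Z P (1 / 9 * l) (min (63 / 64 * l) ((3 - P.jL) * l)) bZ κ' q0 ζ ρ Ei where
  inj := h.inj
  st := h.st
  an := fun s u h1 h2 => h.an s u h1 (h2.trans_le (min_le_left _ _))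
  off := h.off
  eq := h.eq
  eqh := h.eqh
  bd := fun s => by
    have hl : 0 < l := Bd.l_pos
    have i1 := hI.j1
    have i2 := hI.j2
    refine HF.Bdd.mono' (h.bd s) (Icc_subset_Icc ?_ ?_) <;> nlinarith
  rho := h.rho

theorem ZerW.mono {Z : Bool → Option O3 → ℂ → ℂ} {P : Par6} {a₀ b₂ bZ bZ' κ' q0 : ℝ}
    {ν : Bool → Type} [∀ s, Fintype (ν s)] [∀ s, LinearOrder (ν s)] {ζ ρ : ∀ s, ν s → ℂ}
    {Ei : Bool → ℂ → ℂ} (h : ZerW Z P a₀ b₂ bZ κ' q0 ζ ρ Ei) (hb : bZ' ≤ bZ) :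
    ZerW Z P a₀ b₂ bZ' κ' q0 ζ ρ Ei :=
  ⟨h.inj, h.st, h.an, h.off, fun s u h1 h2 => h.eq s u h1 (h2.trans_le hb), h.eqh, h.bd, h.rho⟩

section zer

variable {Z : Bool → Option O3 → ℂ → ℂ} {P : Par6} {κ κ' a₀ b₂ bZ : ℝ} {Q : ℤ} {ν : Bool → Type}
  [∀ s, Fintype (ν s)] [∀ s, LinearOrder (ν s)] {ζ ρ : ∀ s, ν s → ℂ} {Ei : Bool → ℂ → ℂ}
  {n n' : ℕ}

theorem clG_win {q0 : ℝ} (hH : WinP P a₀ b₂) (hm : ∀ s, Measurable (Z s none))
    (hA : ∀ s, DecOn (κ + 2 * q0 * sc (s, Ob.A)) (Set.Icc (51 / 100 * l) l) (Z s none))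
    (hd : ∀ (s : Bool) (u : ℂ), 51 / 100 * l ≤ u.re → u.re ≤ l → DifferentiableAt ℂ (Z s none) u)
    (hZ : ZerW Z P a₀ b₂ b₂ κ' q0 ζ ρ Ei) : ClG Z P a₀ b₂ κ κ' q0 ζ ρ Ei := by
  have hl : 0 < l := Bd.l_pos
  refine ⟨hH.a0, hH.a1, hH.a2, hH.b1, hH.b2, hH.b3, fun s => ?_, hZ.rho, hd, hA⟩
  refine ⟨hZ.inj s, hZ.st s, ?_, ?_, ?_, hZ.eqh s, hZ.bd s, hm s, ?_⟩
  · exact fun u hu => (hd s u hu.1.le hu.2.le).differentiableWithinAt
  · exact fun u hu => (hZ.an s u hu.1 hu.2).differentiableWithinAt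
  · exact fun u hu hu' => hZ.eq s u hu.1.le hu'.2
  · obtain ⟨D, hd⟩ := hA s
    refine ⟨D, fun u hu => hd u ?_⟩
    rw [Set.mem_singleton_iff.1 hu]
    exact ⟨by linarith, le_rfl⟩

/-- **the word identities of the classes with zeros**, any windows -/
theorem wordZ_win (hP : GoodP6 P) (hH : WinP P a₀ b₂) (hκ : 0 < κ) (hκ' : κ' < 6)
    (hm : ∀ s k, Measurable (Z s k)) (hD : DecZ6 Z P (51 / 100 * l) κ Q)
    (hd : ∀ (s : Bool) (u : ℂ), 51 / 100 * l ≤ u.re → u.re ≤ l → DifferentiableAt ℂ (Z s none) u)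
    (hZ : ZerW Z P a₀ b₂ b₂ κ' Q ζ ρ Ei) (hn : (n : ℤ) = n' + Q) (p p' : ℕ) (k : Fin p → O3)
    (k' : Fin p' → O3) (hc : ∑ i, c3 (k i) ≤ n) (hc' : ∑ i, c3 (k' i) ≤ n') :
    ∀ᵐ t : Fin p ⊕ Fin p' → ℝ ∂(Measure.pi fun _ => volume),
      WordIdZ Z P ζ ρ (lnK P) (51 / 100 * l) n n' (2 * (n + n')) k k' t := by
  have hl : 0 < l := Bd.l_pos
  have e1 := hP.e13
  have e2 := hP.j1e
  have e3 := hP.ej2
  have e4 := hP.j1
  have e5 := hP.e45
  have w1 := hH.b1
  have eQ : (n : ℝ) - n' = Q := by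
    have : (n : ℝ) = n' + Q := by exact_mod_cast hn
    linarith
  have hζ : StZ6 P ζ := ⟨hZ.st, hZ.off⟩
  have hA : ∀ s, DecOn (κ + 2 * (Q : ℝ) * sc (s, Ob.A)) {(1 - P.e) * l, l} (Z s none) := by
    intro s
    obtain ⟨D, hd⟩ := hD.A s
    refine ⟨D, fun u hu => hd u ?_⟩
    rcases hu with hu | hu
    · rw [hu]
      constructor <;> nlinarith
    · rw [Set.mem_singleton_iff.1 hu]
      exact ⟨by linarith, le_rfl⟩
  have hQ : DecQL6 Z P κ κ' ((n : ℝ) - n') := by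
    rw [eQ]
    refine decQL6_line (Ei := Ei) hκ hκ' hζ hA hD.L hD.T hD.S (fun s u hu => hZ.eq s u ?_ ?_) hZ.eqh
      fun s => HF.Bdd.mono' (hZ.bd s) ?_
    · rw [hu]
      nlinarith
    · rw [hu]
      refine lt_trans ?_ w1
      nlinarith
    · intro v hv
      rcases hv with hv | hv | hv
      · rw [hv]
        constructor <;> nlinarith
      · rw [hv]
        constructor <;> nlinarith
      · rw [Set.mem_singleton_iff.1 hv]
        constructor <;> nlinarith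
  exact wordZ_cl hP (clG_win hH (fun s => hm s none) hD.A hd hZ) hκ hκ'
    (fun A A' _ _ K => int_fIZEl hP hm hζ hQ A A' K) hn hc hc'

end zer

section geo

variable {P : Par6} {a₀ b₂ : ℝ}

theorem geoPW (hG : GoodP6 P) (hH : WinP P a₀ b₂) (he : (1 - P.e) * l < 19 / 32 * l) :
    Geo6 (lnH P) a₀ (51 / 100 * l) (xG P) (yP P) (39 / 64 * l) b₂ l := by
  have hl := Bd.l_pos
  refine geoG hG hH.a0 hH.a1 hH.a2 (yP_gt hG he) (min_le_right _ _) ?_ (by linarith) hH.b1 hH.b3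
  exact lt_of_le_of_lt (min_le_left _ _) (by linarith)

end geo

section pole

variable {Z : Bool → Option O3 → ℂ → ℂ} {κ κ' a₀ b₂ : ℝ} {Q : ℤ} {a : Bool → Bool} {π : Bool → ℂ}
  {h : Bool → ℂ → ℂ}
variable {P : Par6} {p p' : ℕ} {k : Fin p → O3} {k' : Fin p' → O3} {t : Fin p ⊕ Fin p' → ℝ}

/-- **the exact identity of a word of a class with poles** -/
theorem exactP_win {n n' : ℕ} {νX νY : Bool × Bool → Type} [∀ i, LinearOrder (νX i)]
    [∀ i, Fintype (νX i)] [∀ i, LinearOrder (νY i)] [∀ i, Fintype (νY i)]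
    {d : ∀ i, νX i → ℂ} {d' : ∀ i, νY i → ℂ} {Ex Ey : Bool × Bool → ℂ → ℂ}
    {κU κU' : Bool × Bool → ℝ} (hG : GoodP6 P) (hH : WinP P a₀ b₂)
    (he : (1 - P.e) * l < 19 / 32 * l) (hκ : 0 < κ) (hpol : PolZ Z κ Q a π h)
    (hdec : ∀ s, DecOn (κ + 2 * (Q : ℝ) * sc (s, Ob.A))
      (Icc (51 / 100 * l) (39 / 64 * l) ∪ Icc (41 / 64 * l) l) (Z s none))
    (ht : Function.Injective t) (hc : ∑ i, c3 (k i) ≤ n) (hc' : ∑ i, c3 (k' i) ≤ n')
    (hn : (n : ℤ) = n' + Q)
    (SX : ∀ i, OkI a i → Sp6 (lnH P) a₀ (51 / 100 * l) (xG P) (yP P) (39 / 64 * l) b₂ l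
      (κU i) (κU' i) ((Q : ℝ) - i.1.toNat + i.2.toNat - PHK.cW k k') true (bY P k k' t) (d i)
      (fW (ZFl Z π i) P k k' t true)
      (HF.FH (ZFl Z π i true none) (zX P k k' t) (zY P k k' t) (KW P k k' t true)) (Ex i))
    (SY : ∀ i, OkI a i → Sp6 (lnH P) a₀ (51 / 100 * l) (xG P) (yP P) (39 / 64 * l) b₂ l
      (κU i) (κU' i) ((Q : ℝ) - i.1.toNat + i.2.toNat - PHK.cW k k') false (bX P k k' t) (d' i)
      (fW (ZFl Z π i) P k k' t false)
      (HF.FH (ZFl Z π i false none) (zY P k k' t) (zX P k k' t) (KW P k k' t false)) (Ey i))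
    (hκU : ∀ i, 0 < κU i) (hκU' : ∀ i, κU' i < 6) :
    gas (nA n k) (nA n' k') (51 / 100 * l) (fW Z P k k' t true) (fW Z P k k' t false) =
      ∑ i : Bool × Bool, if OkI a i ∧ uB i.1 ≤ nA n k ∧ uB i.2 ≤ nA n' k' then
        cPl π h i * GP P k k' t π i *
          exR (lnH P) l (fW (ZFl Z π i) P k k' t) (bY P k k' t) (d i) (bX P k k' t) (d' i)
            (HF.FH (ZFl Z π i true none) (zX P k k' t) (zY P k k' t) (KW P k k' t true)) (Ex i)
            (HF.FH (ZFl Z π i false none) (zY P k k' t) (zX P k k' t) (KW P k k' t false)) (Ey i)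
            (nA n k - uB i.1) (nA n' k' - uB i.2) else 0 := by
  classical
  have hl := Bd.l_pos
  have M := geoPW hG hH he
  have m3 := M.h3
  have m6 := M.h6
  have m7 := M.h7
  have hyG := yP_gt hG he
  have hxG := xG_hi hG
  set W : Bool → ℂ → ℂ := fW Z P k k' t with hW
  set pl := plS (o3 k k') (zW P k k' t) (fun i => kkW k k' i = .S) with hpl0
  set g := gr (o3 k k') (zW P k k' t) (fun i => kkW k k' i = .S) (hL π h) with hg0
  have hQ : ((((nA n k : ℕ) : ℤ) * sg true + ((nA n' k' : ℕ) : ℤ) * sg false : ℤ) : ℝ) +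
      ∑ b, sc (o3 k k' b) = Q := by
    have h1 := neutral_Q (k := k) (k' := k') hc hc' (q0 := Q) (by omega)
    have e1 : (sg true : ℤ) = 1 := rfl
    have e2 : (sg false : ℤ) = -1 := rfl
    rw [e1, e2, ← h1]
    push_cast
    ring
  have rL : Reg pl κ (51 / 100 * l) (39 / 64 * l)
      ((nA n k : ℕ) * sg true + (nA n' k' : ℕ) * sg false) g := regL hG ht hpol hdec hQ
  have hHR := hrS (k := k) (k' := k') (t := t) hG ht (x := 51 / 100 * l) (y := 39 / 64 * l) le_rfl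
    (by linarith)
  have hpl : ∀ s, ∀ p ∈ pl s, xG P < p.re ∧ p.re < yP P := by
    intro s p hp
    rw [hpl0, mem_plS] at hp
    obtain ⟨i, ⟨hi, _⟩, rfl⟩ := hp
    have e : (zW P k k' t i + 2 * (l : ℂ)).re = (1 - P.e) * l := by
      rw [add_re, zW_re, hi, lnK_S]
      simp
      ring
    rw [e]
    exact ⟨hxG, hyG⟩
  have wt : ∀ s (u : ℂ), 51 / 100 * l ≤ u.re → u.re ≤ 39 / 64 * l → W s u = Wt pl g s u := by
    intro s u h1 h2
    rw [hg0, hpl0, hHR.Wt_gr s h1 h2, hW]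
    unfold fW fld zW
    rw [hL_eq hpol s h1 h2]
  have G0 : Geo pl κ (51 / 100 * l) (39 / 64 * l) :=
    { kpos := hκ
      ab := by linarith
      wd := by linarith
      pin := fun s p hp => ⟨by linarith [(hpl s p hp).1], by linarith [(hpl s p hp).2]⟩ }
  rw [gas_move G0 le_rfl m6.le (by linarith) (fun s p hp => Or.inr (hpl s p hp).1) _ _ rL
    (fun s u hu => wt s u (by linarith) (by linarith))
    (fun s u hu => wt s u (by linarith) (by linarith))]
  -- the values on the rectangle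
  have hsw : ∀ (u : ℂ) (i : Fin p ⊕ Fin p'), kkW k k' i = .S → xG P ≤ u.re → u.re ≤ yP P →
      HF.Sw (u - zW P k k' t i) := fun u i hi h1 h2 =>
    hHR.sw hi (by linarith) (by linarith)
  have hbt : ∀ (s : Bool) (i : Fin p ⊕ Fin p'), kkW k k' i = .S → (o3 k k' i).1 ≠ s →
      zW P k k' t i + 2 * l ∈ pl s := fun s i hi hs => by
    rw [hpl0, mem_plS]
    exact ⟨i, ⟨hi, hs⟩, rfl⟩
  have hF : ∀ z : ℂ, xG P ≤ z.re → z.re ≤ yP P → Wt pl g true z =
      HF.FH (Z true none) (zX P k k' t) (zY P k k' t) (KW P k k' t true) z /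
        ∏ i, (z - db (bY P k k' t) i) := by
    intro z h1 h2
    refine Wt_FH (zt := zY P k k' t) (fun i => ?_) (fun i => hsw z _ ?_ h1 h2) fun _ => ?_
    · exact hbt true (Sum.inr i.1) i.2 fun h0 => Bool.false_ne_true h0
    · exact i.2
    · rw [← wt true z (by linarith) (by linarith), hW, fW_true]
  have hF' : ∀ z : ℂ, xG P ≤ z.re → z.re ≤ yP P → Wt pl g false z =
      HF.FH (Z false none) (zY P k k' t) (zX P k k' t) (KW P k k' t false) z /
        ∏ i, (z - db (bX P k k' t) i) := by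
    intro z h1 h2
    refine Wt_FH (zt := zX P k k' t) (fun i => ?_) (fun i => hsw z _ ?_ h1 h2) fun _ => ?_
    · exact hbt false (Sum.inl i.1) i.2 fun h0 => Bool.false_ne_true h0.symm
    · exact i.2
    · rw [← wt false z (by linarith) (by linarith), hW, fW_false]
  -- the step over the poles
  have cF : ContinuousOn (HF.FH (Z true none) (zX P k k' t) (zY P k k' t) (KW P k k' t true))
      (OS (51 / 100 * l) (39 / 64 * l)) := by
    have h1 := (SX (false, false) OkI_none).fan.continuousOn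
    rw [FH_ZFl] at h1
    simpa only [fB_none, mul_one] using h1
  have cF' : ContinuousOn (HF.FH (Z false none) (zY P k k' t) (zX P k k' t) (KW P k k' t false))
      (OS (51 / 100 * l) (39 / 64 * l)) := by
    have h1 := (SY (false, false) OkI_none).fan.continuousOn
    rw [FH_ZFl] at h1
    simpa only [fB_none, mul_one] using h1
  have rR : Reg (pW2 π) κ (39 / 64 * l) l ((nA n k : ℕ) * sg true + (nA n' k' : ℕ) * sg false)
      (gB P k k' t π h) := regB hG he hpol hQ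
  have hin : ∀ (R : ℝ) (i : Fin p ⊕ Fin p'), kkW k k' i = .S → |(bW P k k' t i).im| < R →
      bW P k k' t i ∈ Pool.Agent.PHK.rI (xG P) (yP P) R := by
    intro R i hi hR
    have e : (bW P k k' t i).re = (1 - P.e) * l := by
      unfold bW
      rw [add_re, zW_re, hi, lnK_S]
      simp
      ring
    exact ⟨by rw [e]; exact hxG, by rw [e]; exact hyG, hR⟩
  have hP : ∃ R₀ : ℝ, ∀ R, R₀ ≤ R → ∀ j ≤ nA n k, ∀ j' ≤ nA n' k',
      GPk (xG P) (yP P) R (39 / 64 * l) (bY P k k' t) (bX P k k' t) W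
        (HF.FH (Z true none) (zX P k k' t) (zY P k k' t) (KW P k k' t true))
        (HF.FH (Z false none) (zY P k k' t) (zX P k k' t) (KW P k k' t false))
        (nA n k - j) (nA n' k' - j') j j' =
      ∑ α : {i : Bool × Bool // OkI a i}, if uB α.1.1 ≤ nA n k - j ∧ uB α.1.2 ≤ nA n' k' - j' then
        (cPl π h α.1 * GP P k k' t π α.1) *
          GPk (xG P) (yP P) R l (bY P k k' t) (bX P k k' t) (fW (ZFl Z π α.1) P k k' t)
            (HF.FH (ZFl Z π α.1 true none) (zX P k k' t) (zY P k k' t) (KW P k k' t true))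
            (HF.FH (ZFl Z π α.1 false none) (zY P k k' t) (zX P k k' t) (KW P k k' t false))
            (nA n k - j - uB α.1.1) (nA n' k' - j' - uB α.1.2) j j' else 0 := by
    obtain ⟨R1, r1⟩ := exists_R (bY P k k' t)
    obtain ⟨R2, r2⟩ := exists_R (bX P k k' t)
    refine ⟨max 1 (max R1 R2), fun R hR j hj j' hj' => ?_⟩
    have hR0 : 0 < R := lt_of_lt_of_le zero_lt_one ((le_max_left _ _).trans hR)
    have m0 : max R1 R2 ≤ R := (le_max_right _ _).trans hR
    have m1 : R1 ≤ R := (le_max_left _ _).trans m0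
    have m2 : R2 ≤ R := (le_max_right _ _).trans m0
    have key := GPk_pole2 (x := xG P) (y := yP P) (R := R) (b := bY P k k' t) (b' := bX P k k' t)
      (W := W) (F := HF.FH (Z true none) (zX P k k' t) (zY P k k' t) (KW P k k' t true))
      (F' := HF.FH (Z false none) (zY P k k' t) (zX P k k' t) (KW P k k' t false))
      (n := nA n k - j) (n' := nA n' k' - j') (k := j) (k' := j')
      (a₁ := 51 / 100 * l) (b₁ := 39 / 64 * l) (y1 := 39 / 64 * l) (yl := l)
      (Q := (nA n k : ℕ) * sg true + (nA n' k' : ℕ) * sg false) m6 m3 m7 (by linarith) m7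
      (by linarith) hR0 (fun i => hin R (Sum.inr i.1) i.2 ((r1 i).trans_le m1))
      (fun i => hin R (Sum.inl i.1) i.2 ((r2 i).trans_le m2)) cF cF' hκ (w := π)
      (fun s => by rw [hpol.re s]; linarith) (fun s => by rw [hpol.re s]; linarith)
      (by rw [Nat.sub_add_cancel hj, Nat.sub_add_cancel hj']) rR gB_zero
      (fun s u hu => wt_pole hpol s (by rcases hu with hu | hu <;> rw [hu] <;> linarith)
        (by rcases hu with hu | hu <;> rw [hu] <;> linarith) (fun h0 => by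
          have := hpol.re s
          rw [← h0] at this
          rcases hu with hu | hu <;> rw [hu] at this <;> linarith))
    rw [key, sum_OkI fun i => if uB i.1 ≤ nA n k - j ∧ uB i.2 ≤ nA n' k' - j' then
        (cPl π h i * GP P k k' t π i) *
          GPk (xG P) (yP P) R l (bY P k k' t) (bX P k k' t) (fW (ZFl Z π i) P k k' t)
            (HF.FH (ZFl Z π i true none) (zX P k k' t) (zY P k k' t) (KW P k k' t true))
            (HF.FH (ZFl Z π i false none) (zY P k k' t) (zX P k k' t) (KW P k k' t false))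
            (nA n k - j - uB i.1) (nA n' k' - j' - uB i.2) j j' else 0]
    refine Finset.sum_congr rfl fun i _ => ?_
    by_cases hi : OkI a i
    · rw [if_pos hi, fW_ZFl, FH_ZFl, FH_ZFl,
        cB_cPl (h := h) (deriv_gB (k := k) (k' := k') (t := t) hG he hpol) i]
    · rw [if_neg hi, cB_zero hG he hpol hi]
      simp
  have ex := exact_U_of (U := {i : Bool × Bool // OkI a i}) (νX := fun α => νX α.1)
    (νY := fun α => νY α.1) (dX := fun α => d α.1) (dY := fun α => d' α.1)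
    (Wf := fun α => fW (ZFl Z π α.1) P k k' t)
    (Fx := fun α => HF.FH (ZFl Z π α.1 true none) (zX P k k' t) (zY P k k' t) (KW P k k' t true))
    (Ex := fun α => Ex α.1)
    (Fy := fun α => HF.FH (ZFl Z π α.1 false none) (zY P k k' t) (zX P k k' t) (KW P k k' t false))
    (Ey := fun α => Ey α.1) (κU := fun α => κU α.1) (κU' := fun α => κU' α.1)
    (qU := fun α => (Q : ℝ) - α.1.1.toNat + α.1.2.toNat - PHK.cW k k')
    (uX := fun α => uB α.1.1) (uY := fun α => uB α.1.2)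
    (c := fun α => cPl π h α.1 * GP P k k' t π α.1) M (fun α => SX α.1 α.2) (fun α => SY α.1 α.2)
    (fun α => hκU α.1) (fun α => hκU' α.1) (a := nA n k) (a' := nA n' k')
    (fun α h1 h2 => by
      have hu : ∀ b : Bool, uB b = b.toNat := fun b => by cases b <;> rfl
      have e1 : (nA n k : ℝ) = n - ∑ i, (c3 (k i) : ℝ) := by
        unfold nA
        push_cast [hc]
        ring
      have e2 : (nA n' k' : ℝ) = n' - ∑ i, (c3 (k' i) : ℝ) := by
        unfold nA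
        push_cast [hc']
        ring
      have e3 : (n : ℝ) = n' + Q := by exact_mod_cast hn
      simp only [hu] at h1 h2 ⊢
      rw [Nat.cast_sub h1, Nat.cast_sub h2, e1, e2]
      unfold PHK.cW
      linarith)
    (W := W) (pl := pl) hpl (g := g) hκ (y1 := 39 / 64 * l) m7.le (by linarith)
    (rL.mono_a m6.le) (fun s u hu => wt s u (by linarith) (by linarith))
    (fun s u hu => wt s u (by linarith) (by linarith)) hF hF' hP
  rw [ex, sum_OkI fun i => if uB i.1 ≤ nA n k ∧ uB i.2 ≤ nA n' k' then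
      (cPl π h i * GP P k k' t π i) *
        exR (lnH P) l (fW (ZFl Z π i) P k k' t) (bY P k k' t) (d i) (bX P k k' t) (d' i)
          (HF.FH (ZFl Z π i true none) (zX P k k' t) (zY P k k' t) (KW P k k' t true)) (Ex i)
          (HF.FH (ZFl Z π i false none) (zY P k k' t) (zX P k k' t) (KW P k k' t false)) (Ey i)
          (nA n k - uB i.1) (nA n' k' - uB i.2) else 0]
  refine Finset.sum_congr rfl fun i _ => ?_
  by_cases hi : OkI a i
  · rw [if_pos hi]
    simp only [hi, true_and]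
  · rw [if_neg hi, if_neg fun hh => hi hh.1]

/-- **decay of the filled classes on the lines** -/
theorem decQ_ZFlW {ν : Bool → Type} [∀ s, Fintype (ν s)] [∀ s, LinearOrder (ν s)]
    {ζ ρ : ∀ s, ν s → ℂ} {Ei : Bool → ℂ → ℂ} (hG : GoodP6 P) (hH : WinP P a₀ b₂)
    (he : (1 - P.e) * l < 19 / 32 * l) (hκ : 0 < κ) (hκ' : κ' < 6) (hpol : PolZ Z κ Q a π h)
    (hA : ∀ s, DecOn (κ + 2 * (Q : ℝ) * sc (s, Ob.A)) (Set.Icc (51 / 100 * l) (39 / 64 * l) ∪
      Set.Icc (41 / 64 * l) l) (Z s none))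
    (hLd : ∀ s, DecOn (κ + 2 * (Q : ℝ) * sc (s, Ob.L)) {(1 - P.jL) * l} (Z s (some .L)))
    (hT : ∀ s, DecOn (κ + 2 * (Q : ℝ) * sc (s, Ob.S)) {-(l / 2)} (Z s (some .T)))
    (hS : ∀ s (M : ℕ), DecOn (M : ℝ) {-((1 + P.e) * l)} (Z s (some .S)))
    (i : Bool × Bool)
    (hz : ZerW (ZFl Z π i) P a₀ b₂ (39 / 64 * l) κ' ((Q : ℝ) - i.1.toNat + i.2.toNat) ζ ρ Ei) :
    DecQL6 (ZFl Z π i) P κ κ' ((Q : ℝ) - i.1.toNat + i.2.toNat) := by
  have hl := Bd.l_pos
  have k1 := hG.e45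
  have k4 := hG.j1e
  have k5 := hG.ej2
  refine decQL6_line hκ hκ' (ζ := ζ) ⟨hz.st, hz.off⟩ (Ei := Ei) (fun s => ?_) (fun s => ?_)
    (fun s => ?_) (fun s M => ?_) (fun s u hu => ?_) hz.eqh (fun s => ?_)
  · rw [ZFl_XP]
    have hk : IsCompact ({(1 - P.e) * l, l} : Set ℝ) := (Set.toFinite _).isCompact
    refine DecOn.mulB ((hA s).mono ?_) (bdd_XP hpol.re i hk fun s0 d hd => ?_) ?_
    · rintro x (hx | hx)
      · rw [hx]
        exact Or.inl ⟨by nlinarith, by linarith⟩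
      · rw [Set.mem_singleton_iff.1 hx]
        exact Or.inr ⟨by linarith, le_rfl⟩
    · rcases hd with hd | hd
      · rw [hd]
        exact ok_AA (by linarith) (by nlinarith) s0 s
      · rw [Set.mem_singleton_iff.1 hd]
        exact ok_AA (by linarith) (by linarith) s0 s
    · show κ + 2 * ((Q : ℝ) - i.1.toNat + i.2.toNat) * sc (s, Ob.A) ≤ _
      have : sc (s, ob4 none) = sc (s, Ob.A) := rfl
      rw [this]
      linarith
  · rw [ZFl_XP]
    refine DecOn.mulB (hLd s) (bdd_XP hpol.re i isCompact_singleton fun s0 d hd =>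
      ok_fill hG he s0 s .L d hd) ?_
    have : sc (s, ob4 (some .L)) = sc (s, Ob.L) := rfl
    rw [this]
    linarith
  · rw [ZFl_XP]
    refine DecOn.mulB (hT s) (bdd_XP hpol.re i isCompact_singleton fun s0 d hd =>
      ok_fill hG he s0 s .T d hd) ?_
    have : sc (s, ob4 (some .T)) = sc (s, Ob.S) := rfl
    rw [this]
    linarith
  · rw [ZFl_XP]
    obtain ⟨M', hM'⟩ := exists_nat_ge ((M : ℝ) + 2 * ((i.1.toNat : ℝ) - i.2.toNat) * sc (s, Ob.S))
    refine DecOn.mulB (hS s M') (bdd_XP hpol.re i isCompact_singleton fun s0 d hd =>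
      ok_fill hG he s0 s .S d hd) ?_
    have : sc (s, ob4 (some .S)) = sc (s, Ob.S) := rfl
    rw [this]
    linarith
  · exact hz.eq s u (by rw [hu]; nlinarith) (by rw [hu]; linarith)
  · refine HF.Bdd.mono' (hz.bd s) ?_
    rintro x (hx | hx | hx)
    · rw [hx]
      constructor <;> nlinarith
    · rw [hx]
      constructor <;> nlinarith
    · rw [Set.mem_singleton_iff.1 hx]
      constructor <;> nlinarith

/-- **the filled classes**, one species -/
theorem hcl_ZFlW {ν : Bool → Type} [∀ s, Fintype (ν s)] [∀ s, LinearOrder (ν s)]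
    {ζ ρ : ∀ s, ν s → ℂ} {Ei : Bool → ℂ → ℂ} (hG : GoodP6 P) (hH : WinP P a₀ b₂)
    (hm : ∀ s k, Measurable (Z s k)) (hpol : PolZ Z κ Q a π h)
    (hA : ∀ s, DecOn (κ + 2 * (Q : ℝ) * sc (s, Ob.A)) (Set.Icc (51 / 100 * l) (39 / 64 * l) ∪
      Set.Icc (41 / 64 * l) l) (Z s none))
    (i : Bool × Bool)
    (hz : ZerW (ZFl Z π i) P a₀ b₂ (39 / 64 * l) κ' ((Q : ℝ) - i.1.toNat + i.2.toNat) ζ ρ Ei) (s : Bool) :
    HCl (ZFl Z π i) P a₀ (51 / 100 * l) (39 / 64 * l) b₂ κ κ'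
      ((Q : ℝ) - i.1.toNat + i.2.toNat) s (ζ s) (Ei s) where
  inj := hz.inj s
  st := hz.st s
  gan := by
    intro u hu
    refine DifferentiableAt.differentiableWithinAt ?_
    have hl := Bd.l_pos
    rw [ZFl_XP]
    exact (diff_none hpol s hu.1 hu.2).mul (diff_XP hpol.re i s (by linarith [hu.1])
      (by linarith [hu.2]))
  ean := by
    intro u hu
    exact (hz.an s u hu.1 hu.2).differentiableWithinAt
  ge := fun u hu _ => hz.eq s u hu.1.le hu.2
  gl := hz.eqh s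
  eb := hz.bd s
  gm := ms_ZFl hm i s none
  gb := by
    have hl := Bd.l_pos
    rw [ZFl_XP]
    refine DecOn.mulB ((hA s).mono ?_) (bdd_XP hpol.re i isCompact_singleton fun s0 d hd => ?_) ?_
    · intro x hx
      rw [Set.mem_singleton_iff.1 hx]
      exact Or.inr ⟨by linarith, le_rfl⟩
    · rw [Set.mem_singleton_iff.1 hd]
      exact ok_AA (by linarith) (by linarith) s0 s
    · have : sc (s, ob4 none) = sc (s, Ob.A) := rfl
      rw [this]
      linarith

/-- **the word identities of the classes with poles**, any windows -/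
theorem wordP_win {n n' : ℕ} {ν : Bool × Bool → Bool → Type} [∀ i s, Fintype (ν i s)]
    [∀ i s, LinearOrder (ν i s)] {ζ ρ : ∀ i s, ν i s → ℂ} {Ei : Bool × Bool → Bool → ℂ → ℂ}
    (hG : GoodP6 P) (hH : WinP P a₀ b₂) (he : (1 - P.e) * l < 19 / 32 * l) (hκ : 0 < κ)
    (hκ' : κ' < 6) (hm : ∀ s k, Measurable (Z s k))
    (hA : ∀ s, DecOn (κ + 2 * (Q : ℝ) * sc (s, Ob.A)) (Set.Icc (51 / 100 * l) (39 / 64 * l) ∪
      Set.Icc (41 / 64 * l) l) (Z s none))
    (hLd : ∀ s, DecOn (κ + 2 * (Q : ℝ) * sc (s, Ob.L)) {(1 - P.jL) * l} (Z s (some .L)))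
    (hT : ∀ s, DecOn (κ + 2 * (Q : ℝ) * sc (s, Ob.S)) {-(l / 2)} (Z s (some .T)))
    (hS : ∀ s (M : ℕ), DecOn (M : ℝ) {-((1 + P.e) * l)} (Z s (some .S)))
    (hpol : PolZ Z κ Q a π h)
    (hzer : ∀ i, OkI a i → ZerW (ZFl Z π i) P a₀ b₂ (39 / 64 * l) κ'
      ((Q : ℝ) - i.1.toNat + i.2.toNat) (ζ i) (ρ i) (Ei i))
    (hn : (n : ℤ) = n' + Q) (p p' : ℕ) (k : Fin p → O3) (k' : Fin p' → O3)
    (hc : ∑ i, c3 (k i) ≤ n) (hc' : ∑ i, c3 (k' i) ≤ n') :
    ∀ᵐ t : Fin p ⊕ Fin p' → ℝ ∂(Measure.pi fun _ => volume),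
      WordIdT Z (TP Z P a π h ζ ρ n n') (lnK P) (51 / 100 * l) n n' (2 * (n + n')) k k' t := by
  have hl := Bd.l_pos
  have M := geoPW hG hH he
  have hyG := yP_gt hG he
  have hxG := xG_hi hG
  have h2 : ∀ᵐ t : Fin p ⊕ Fin p' → ℝ ∂(Measure.pi fun _ => volume), ∀ i : Bool × Bool,
      OkI a i → i.1.toNat ≤ n → i.2.toNat ≤ n' →
        IntW (ZFl Z π i) P (ζ i) (n - i.1.toNat) (n' - i.2.toNat) k k' t := by
    rw [ae_all_iff]
    intro i
    by_cases hi : OkI a i ∧ i.1.toNat ≤ n ∧ i.2.toNat ≤ n'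
    · obtain ⟨i0, i1, i2⟩ := hi
      have hz := hzer i i0
      have hd := decQ_ZFlW hG hH he hκ hκ' hpol hA hLd hT hS i hz
      have e : (Q : ℝ) - i.1.toNat + i.2.toNat = ((n - i.1.toNat : ℕ) : ℝ) - (n' - i.2.toNat : ℕ) := by
        have e3 : (n : ℝ) = n' + Q := by exact_mod_cast hn
        rw [Nat.cast_sub i1, Nat.cast_sub i2, e3]
        ring
      rw [e] at hd
      have := intW_ae (Z := ZFl Z π i) (P := P) (ζ := ζ i) (n := n - i.1.toNat)
        (n' := n' - i.2.toNat) (fun A A' ι _ K => int_fIZEl hG (ms_ZFl hm i) ⟨hz.st, hz.off⟩ hd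
          A A' K) k k'
      filter_upwards [this] with t ht _ _ _
      exact ht
    · refine Filter.Eventually.of_forall fun t i0 i1 i2 => absurd ⟨i0, i1, i2⟩ hi
  have h3 : ∀ᵐ t : Fin p ⊕ Fin p' → ℝ ∂(Measure.pi fun _ => volume), ∀ (i : Bool × Bool) (s : Bool)
      (x : Fin p ⊕ Fin p') (j : ν i s), bW P k k' t x ≠ ζ i s j := by
    rw [ae_all_iff]
    intro i
    rw [ae_all_iff]
    intro s
    exact ae_bW_ne (ζ i s)
  filter_upwards [ae_inj, h2, h3] with t ht hI hz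
  have hb2 : b₂ ≤ (3 - P.jL) * l := hH.b2
  have SX : ∀ i, OkI a i → Sp6 (lnH P) a₀ (51 / 100 * l) (xG P) (yP P) (39 / 64 * l)
      b₂ l κ ((κ' + 6) / 2) ((Q : ℝ) - i.1.toNat + i.2.toNat - PHK.cW k k') true (bY P k k' t)
      (HF.dH (zX P k k' t) (ζ i true)) (fW (ZFl Z π i) P k k' t true)
      (HF.FH (ZFl Z π i true none) (zX P k k' t) (zY P k k' t) (KW P k k' t true))
      (HF.EH (Ei i true) (zX P k k' t) (zY P k k' t) (KW P k k' t true)) := fun i hi =>
    sp6_true hG M hH.a0.le hxG hyG (by linarith) hb2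
      (hcl_ZFlW hG hH hm hpol hA i (hzer i hi) true) (by linarith) ht (hz i true)
  have SY : ∀ i, OkI a i → Sp6 (lnH P) a₀ (51 / 100 * l) (xG P) (yP P) (39 / 64 * l)
      b₂ l κ ((κ' + 6) / 2) ((Q : ℝ) - i.1.toNat + i.2.toNat - PHK.cW k k') false (bX P k k' t)
      (HF.dH (zY P k k' t) (ζ i false)) (fW (ZFl Z π i) P k k' t false)
      (HF.FH (ZFl Z π i false none) (zY P k k' t) (zX P k k' t) (KW P k k' t false))
      (HF.EH (Ei i false) (zY P k k' t) (zX P k k' t) (KW P k k' t false)) := fun i hi =>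
    sp6_false hG M hH.a0.le hxG hyG (by linarith) hb2
      (hcl_ZFlW hG hH hm hpol hA i (hzer i hi) false) (by linarith) ht (hz i false)
  have hex := exactP_win (n := n) (n' := n') (d := fun i => HF.dH (zX P k k' t) (ζ i true))
    (d' := fun i => HF.dH (zY P k k' t) (ζ i false)) (κU := fun _ => κ)
    (κU' := fun _ => (κ' + 6) / 2) hG hH he hκ hpol hA ht hc hc' hn SX SY (fun _ => hκ)
    (fun _ => by linarith)
  have hs : ∀ {p : ℕ} (k : Fin p → O3), (strS k).card ≤ ∑ i, c3 (k i) := by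
    intro p k
    calc (strS k).card = ∑ i ∈ strS k, 1 := by simp
      _ ≤ ∑ i ∈ strS k, c3 (k i) := Finset.sum_le_sum fun i _ => c3_pos (k i)
      _ ≤ _ := Finset.sum_le_sum_of_subset (Finset.subset_univ _)
  have he5 : (51 / 100 : ℝ) * l ≤ (1 - P.e) * l := by
    have := hG.e45
    nlinarith
  have he6 : (1 - P.e) * l < 39 / 64 * l := by linarith
  refine wordIdP_of hc hc' (by have := hs k; omega) (by have := hs k'; omega) hI
    (xl := lnH P) (b := bY P k k' t) (b' := bX P k k' t)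
    (d := fun i => HF.dH (zX P k k' t) (ζ i true)) (d' := fun i => HF.dH (zY P k k' t) (ζ i false))
    (F := fun i => HF.FH (ZFl Z π i true none) (zX P k k' t) (zY P k k' t) (KW P k k' t true))
    (E := fun i => HF.EH (Ei i true) (zX P k k' t) (zY P k k' t) (KW P k k' t true))
    (F' := fun i => HF.FH (ZFl Z π i false none) (zY P k k' t) (zX P k k' t) (KW P k k' t false))
    (E' := fun i => HF.EH (Ei i false) (zY P k k' t) (zX P k k' t) (KW P k k' t false))
    (fun i hi => ?_) hex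
  have hzi := hzer i hi
  exact wordW_of (ZFl Z π i) P k k' t (ζ i) (ρ i) (fun _ => rfl) (fun _ => rfl) (fun _ => rfl)
    (fun _ => rfl) (SX i hi) (SY i hi) (rb_true _ P k k' t ht) (rb_false _ P k k' t ht)
    (rd_true _ P k k' t (ζ i) (ρ i) hG ht
      (fun u hu => hzi.eq true u (by rw [hu]; exact he5) (by rw [hu]; exact he6))
      (hzi.rho true) (hzi.st true) (hz i true))
    (rd_false _ P k k' t (ζ i) (ρ i) hG ht
      (fun u hu => hzi.eq false u (by rw [hu]; exact he5) (by rw [hu]; exact he6))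
      (hzi.rho false) (hzi.st false) (hz i false))

end pole

end PLT

end
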