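import Pool.Agent.PLT.LgPDef
import Pool.Agent.PLT.WordWin

/-!
# The word identities, any window

* **`wordGZ : WordGZ`**, **`wordGP : WordGP`**.
-/

set_option autoImplicit false
set_option linter.unusedSectionVars false

noncomputable section

open Complex MeasureTheory Finset
open scoped ENNReal

namespace PLT.Lg

open NUO NUP1 NUP1S NUP1S.Mg NURow
open PHK

theorem WnG.toW {P : Par6} {a b : ℝ} (h : WnG P a b) (ha : a ≤ 51 / 100 * l) : WinP P a b :=
  ⟨h.a0, h.a1, ha, h.b1, h.b2, h.b3⟩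

theorem ZerG.toW {Z : Bool → Option O3 → ℂ → ℂ} {P : Par6} {a b bZ κ' q0 : ℝ} {ν : Bool → Type}
    [∀ s, Fintype (ν s)] [∀ s, LinearOrder (ν s)] {ζ ρ : ∀ s, ν s → ℂ} {Ei : Bool → ℂ → ℂ}
    (h : ZerG Z P a b bZ κ' q0 ζ ρ Ei) : ZerW Z P a b bZ κ' q0 ζ ρ Ei :=
  ⟨h.inj, h.st, h.an, h.off, h.eq, h.eqh, h.bd, h.rho⟩

/-- **the word identities of the classes with zeros**, any window -/
theorem wordGZ : WordGZ := by
  intro Z P a b κ κ' Q n n' ν _ _ ζ ρ Ei hP hW ha hκ hκ' hm hD hd hZ hn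
  exact wordZ_win hP (hW.toW ha) hκ hκ' hm hD hd hZ.toW hn

/-- **the word identities of the classes with poles**, any window -/
theorem wordGP : WordGP := by
  intro Z P a b κ κ' Q n n' av π h ν _ _ ζ ρ Ei hP hW ha he hκ hκ' hm hA hL hT hS hpol hz hn
  exact wordP_win hP (hW.toW ha) he hκ hκ' hm hA hL hT hS hpol (fun i hi => (hz i hi).toW) hn

end PLT.Lg

end
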