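import Pool.Agent.PLT.LgTPP
import Pool.Agent.PLT.LgZerP
import Pool.Agent.PLT.LgPolP
import Pool.Agent.PLT.LgDecP
import Pool.Agent.PLT.WordGZ

/-!
# The state sum of all pairs of letters, any point `P`

* `offL6_lnP`, `gen6_ofP`, **`int_YVP`**, `int_FlP`, `strip6_ofG`;
* **`zobj_TVP`**: the state sum of the class `t, t'` is the sum of the integrals of `TV6`, generic half
  quanta, any window of the inverses, no hypothesis on words;
* **`zobj_TVP_ae`**: for almost all heights.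
-/

set_option autoImplicit false
set_option linter.unusedSectionVars false
set_option linter.unusedVariables false

noncomputable section

open Complex MeasureTheory Finset
open scoped ENNReal Nat

namespace PLT.Lg

open NUO NUP1 NUP1S NUP1S.Mg NURow NUCR NUP1.Leg NUGC.PLX PBR.PLX
open NUP1.Bd (wt qg Ob)
open PHK
open Pool.Agent.PLX (ln6)

/-- no line of `P` differs by a multiple of `l` from a letter -/
theorem offL6_lnP {P : Par6} [LnP P] (t : HT) : OffL6 P (htL t) :=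
  offL6_of fun _ hx => nm6_lnS (htL_psS t) hx

section cls

variable {X : Bool → Option O3 → ℂ → ℂ} {P : Par6} [hP : LnP P] {a b κ κ' : ℝ} {e : ℕ} {t t' : HT}
  {w w' : ℂ}

theorem WnG.b5 (hW : WnG P a b) : 5 / 8 * l < b := by
  have hl := NUP1.l_pos
  have h1 := hP.j1
  have h2 := hW.b1
  nlinarith

theorem WnG.a4 (hW : WnG P a b) : a < 1 / 4 * l := by
  have hl := NUP1.l_pos
  have h1 := hP.j2
  have h2 := hW.a1
  nlinarith

/-- generic positions -/
theorem gen6_ofP (hB : LgBP X P a b κ κ' e) (hW : WnG P a b) (hg : GnX X t t' w w')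
    (hw : w.re = htL t) (hw' : w'.re = htL t') : Gen6 X t t' w w' := by
  have hl := l_pos
  have b5 := hW.b5
  have him : ∀ a b : ℂ, a.im ≠ b.im → Gx (a - b) := fun a b h => Or.inl (by
    rw [sub_im]
    exact sub_ne_zero.2 h)
  refine ⟨pL0_ne, fun h => hB.ne true w ?_ ?_, fun h => hB.ne false w' ?_ ?_,
    fun _ => him _ _ hg.im, fun _ _ => him _ _ ?_, fun _ _ => him _ _ ?_⟩
  · rw [hw, h]
    show 51 / 100 * l ≤ 5 / 8 * l
    linarith
  · rw [hw, h]
    exact b5
  · rw [hw', h]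
    show 51 / 100 * l ≤ 5 / 8 * l
    linarith
  · rw [hw', h]
    exact b5
  · rw [hx6_im]
    exact hg.im
  · rw [hx6_im]
    exact hg.im.symm

/-- **the terms of the choices are integrable** -/
theorem int_YVP (hB : LgBP X P a b κ κ' e) (hw : w.re = htL t) (hw' : w'.re = htL t') {N N' : ℕ}
    (hN : (N : ℤ) = N' + ((aXt e t t' : ℤ) - aYt e t t')) {u : Ch6 × Ch6} (hu : OkV t t' N N' u) :
    IntV (YV6 X t t' w w' u) P u N N' := by
  intro ι _ K
  refine integrable_fIL hP.good (ms_YVP hB hu.1.1 hu.1.2) (κ := κ) (κ' := κ') ?_ K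
  have h := decL6_LgP (lnE6_good hP.good) hB (offL6_lnP t) (offL6_lnP t') hu.1.1 hu.1.2 hw hw'
  have h1 := hu.2.1
  have h2 := hu.2.2
  have e1 : (((aXt e t t' : ℕ) : ℝ) + (u.2.2.toNat : ℝ) - (u.1.1.toNat : ℝ)) -
        (((aYt e t t' : ℕ) : ℝ) + (u.1.2.toNat : ℝ) - (u.2.1.toNat : ℝ)) =
      ((N + u.2.2.toNat - u.1.1.toNat : ℕ) : ℝ) - ((N' + u.1.2.toNat - u.2.1.toNat : ℕ) : ℝ) := by
    rw [Nat.cast_sub (by omega), Nat.cast_sub (by omega)]
    have hN' : (N : ℝ) = N' + ((aXt e t t' : ℝ) - aYt e t t') := by exact_mod_cast hN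
    push_cast
    linarith
  rw [← e1]
  exact h

/-- **the terms of the filled classes are integrable** -/
theorem int_FlP (hB : LgBP X P a b κ κ' e) (hw : w.re = htL t) (hw' : w'.re = htL t') {N N' : ℕ}
    (hN : (N : ℤ) = N' + ((aXt e t t' : ℤ) - aYt e t t')) {i : Bool × Bool} (hi : OkI (av6 t t') i)
    (hi1 : i.1.toNat ≤ N) (hi2 : i.2.toNat ≤ N') (E : Finset (nu6 t t' i true))
    (E' : Finset (nu6 t t' i false)) {ι : Type} [Fintype ι] (K : ι → Bool × Kd6) :
    Integrable (fun τ : ι → ℝ =>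
      fI (ZE (ZFl (Zc6 X t t' w w') (po6 t t' w w') i) (ze6 t t' w w' i) E E') P l
        (N - i.1.toNat + E.card) (N' - i.2.toNat + E'.card) fun j => xo (K j) (τ j))
      (Measure.pi fun _ => volume) := by
  obtain ⟨f, hf, rfl⟩ := exists_eB E
  obtain ⟨f', hf', rfl⟩ := exists_eB E'
  simp only [fI_congrZ (eqL_zeYVP hw hw' hi hf hf'), card_eB hf, card_eB hf']
  obtain ⟨i1, i2⟩ := i
  obtain ⟨f1, f2⟩ := f
  obtain ⟨g1, g2⟩ := f'
  have a1 : i1 = true → t = .H := fun h => by simpa [av6] using hi.1 h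
  have a2 : i2 = true → t' = .H := fun h => by simpa [av6] using hi.2 h
  have b1 : (f1 = true → hz6 t' = true) ∧ (f2 = true → i1 = true) := by
    simpa [OkB, ac6] using hf
  have b2 : (g1 = true → hz6 t = true) ∧ (g2 = true → i2 = true) := by
    simpa [OkB, ac6] using hf'
  simp only at hi1 hi2
  have hu : OkV t t' N N' ((i1 && !f2, g1), (i2 && !g2, f1)) := by
    refine ⟨⟨⟨fun h => a1 ?_, fun h => ?_⟩, ⟨fun h => a2 ?_, fun h => ?_⟩⟩, ?_, ?_⟩
    · exact (Bool.and_eq_true _ _ ▸ h).1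
    · simpa [hz6] using b2.1 h
    · exact (Bool.and_eq_true _ _ ▸ h).1
    · simpa [hz6] using b1.1 h
    · cases i1 <;> cases f2 <;> simp at hi1 ⊢ <;> omega
    · cases i2 <;> cases g2 <;> simp at hi2 ⊢ <;> omega
  have h := int_YVP hB hw hw' hN hu K
  simp only at h ⊢
  have e1 : N - i1.toNat + (f1.toNat + f2.toNat) = N + f1.toNat - (i1 && !f2).toNat := by
    have := b1.2
    cases i1 <;> cases f2 <;> simp at this hi1 ⊢ <;> omega
  have e2 : N' - i2.toNat + (g1.toNat + g2.toNat) = N' + g1.toNat - (i2 && !g2).toNat := by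
    have := b2.2
    cases i2 <;> cases g2 <;> simp at this hi2 ⊢ <;> omega
  rw [e1, e2]
  exact h

/-! ### the state sum -/

theorem strip6_ofG {bZ κ' q0 : ℝ} {Z : Bool → Option O3 → ℂ → ℂ} {ν : Bool → Type}
    [∀ s, Fintype (ν s)] [∀ s, LinearOrder (ν s)] {ζ ρ : ∀ s, ν s → ℂ} {Ei : Bool → ℂ → ℂ}
    (h : ZerG Z P a b bZ κ' q0 ζ ρ Ei) : ZStrip P ζ := by
  intro s j
  have hl := l_pos
  have h1 := h.st s j
  have g1 := hP.good.e45
  have g2 := hP.good.j2
  have g5 := hP.good.j1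
  have a1 := hP.e1
  show |(ζ s j).re - (1 - P.e) * l| ≤ 2 / 3 * l
  refine abs_le.2 ⟨?_, ?_⟩ <;> nlinarith [h1.1, h1.2]

/-- **the state sum of the class `t, t'` at generic half quanta** -/
theorem zobj_TVP (hB : LgBP X P a b κ κ' e) (hW : WnG P a b) (ha : a ≤ 51 / 100 * l)
    (hκ : κ' + 1 / 2 < 6) (hg : GnX X t t' w w') (hw : w.re = htL t) (hw' : w'.re = htL t')
    {N N' : ℕ} (hN : (N : ℤ) = N' + ((aXt e t t' : ℤ) - aYt e t t')) :
    NURow.ZobjQ (Zc6 X t t' w w' true) (Zc6 X t t' w w' false) (51 / 100 * l) N N'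
      (fun _ _ k _ i => ln6 P (k i)) (fun _ _ _ k' i => ln6 P (k' i)) =
      ∑ r ∈ range (2 * (N + N') + 1), ((r ! : ℕ) : ℂ)⁻¹ *
        ∫ O : Fin r → Xo, TV6 X P t t' w w' N N' (Fin r) O ∂(Measure.pi fun _ => nu) := by
  have hG := gen6_ofP hB hW hg hw hw'
  have ho := fun t : HT => offL6_lnP (P := P) t
  have key : ∀ T : Trm, TOk T (2 * (N + N')) N N' →
      (∀ (p p' : ℕ) (k : Fin p → O3) (k' : Fin p' → O3), ∑ i, c3 (k i) ≤ N →
      ∑ i, c3 (k' i) ≤ N' → ∀ᵐ τ : Fin p ⊕ Fin p' → ℝ ∂(Measure.pi fun _ => volume),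
        WordIdT (Zc6 X t t' w w') T (lnK P) (51 / 100 * l) N N' (2 * (N + N')) k k' τ) →
      (∀ (r : ℕ) (O : Fin r → Xo), T (Fin r) O = TV6 X P t t' w w' N N' (Fin r) O) →
      NURow.ZobjQ (Zc6 X t t' w w' true) (Zc6 X t t' w w' false) (51 / 100 * l) N N'
      (fun _ _ k _ i => ln6 P (k i)) (fun _ _ _ k' i => ln6 P (k' i)) =
      ∑ r ∈ range (2 * (N + N') + 1), ((r ! : ℕ) : ℂ)⁻¹ *
        ∫ O : Fin r → Xo, TV6 X P t t' w w' N N' (Fin r) O ∂(Measure.pi fun _ => nu) := by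
    intro T hT hW hTV
    have h := ZobjQ_of_wordT hT le_rfl (by omega) hW
    rw [← lnK_ln6]
    refine h.trans (Finset.sum_congr rfl fun r _ => ?_)
    simp only [hTV r]
  by_cases ht : t = .H ∨ t' = .H
  · refine key (TP (Zc6 X t t' w w') P (av6 t t') (po6 t t' w w') (hp6 X t t' w w')
      (ze6 t t' w w') (rh6 X t t' w w') N N') ?_ ?_ fun r O => TP_TVP hG hw hw' N N' O
    · exact TP_ok (fun i hi => strip6_ofG (zerG_fil hB hW hg hw hw' hi))
        fun i E E' _ _ K hi h1 h2 => int_FlP hB hw hw' hN hi h1 h2 E E' K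
    · exact wordGP (Zc6 X t t' w w') P a b κ (κ' + 1 / 2) ((aXt e t t' : ℤ) - aYt e t t') N N'
        (av6 t t') (po6 t t' w w') (hp6 X t t' w w') (fun i s => nu6 t t' i s) (ze6 t t' w w')
        (rh6 X t t' w w') (fun i => Ei6 X t t' w w' i) hP.good hW ha (by
          have hl := l_pos
          have := hP.e1
          nlinarith) hB.k0 hκ (ms_ZcP hB) (decA_ZcP hB hw hw') (decL_ZcP hB (ho t) (ho t') hw hw')
        (decT_ZcP hB (ho t) (ho t') hw hw') (decS_ZcP hB (ho t) (ho t') hw hw')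
        (polZ_ZcP hB hw hw' hg.im) (fun i hi => zerG_fil hB hW hg hw hw' hi) hN
  · push Not at ht
    have ha' : ∀ s, av6 t t' s = false := by
      intro s
      cases s
      · simp [av6, ht.2]
      · simp [av6, ht.1]
    have hreg := zerG_reg hB hW hg hw hw' ht.1 ht.2
    refine key (PHK.TZ (Zc6 X t t' w w') P (ze6 t t' w w' (false, false))
      (rh6 X t t' w w' (false, false)) N N') ?_ ?_ fun r O => ?_
    · refine TZ_ok (strip6_ofG hreg) fun E E' _ _ K => ?_
      have h := int_FlP hB hw hw' hN (i := (false, false)) ⟨by simp, by simp⟩ (by simp) (by simp) E E' K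
      have e2 : ZFl (Zc6 X t t' w w') (po6 t t' w w') (false, false) = Zc6 X t t' w w' := by
        funext s k z
        unfold ZFl
        simp
      rw [e2] at h
      exact h
    · exact wordGZ (Zc6 X t t' w w') P a b κ (κ' + 1 / 2) ((aXt e t t' : ℤ) - aYt e t t') N N'
        (fun s => nu6 t t' (false, false) s) (ze6 t t' w w' (false, false))
        (rh6 X t t' w w' (false, false)) (Ei6 X t t' w w' (false, false)) hP.good hW ha
        hB.k0 hκ (ms_ZcP hB) (decZ6_ZcP hB (ho t) (ho t') ht.1 ht.2 hw hw')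
        (diff_ZcP hB ht.1 ht.2 hw hw') hreg hN
    · exact TZ_TVP hG ht.1 ht.2 hw hw' N N' O

/-- **the state sum of the class `t, t'` for almost all heights** -/
theorem zobj_TVP_ae (hB : LgBP X P a b κ κ' e) (hW : WnG P a b) (ha : a ≤ 51 / 100 * l)
    (hκ : κ' + 1 / 2 < 6) (t t' : HT) : ∀ᵐ y : ℝ × ℝ, ∀ N N' : ℕ,
    (N : ℤ) = N' + ((aXt e t t' : ℤ) - aYt e t t') →
    NURow.ZobjQ (Zc6 X t t' (vl (htL t) y.1) (vl (htL t') y.2) true)
      (Zc6 X t t' (vl (htL t) y.1) (vl (htL t') y.2) false) (51 / 100 * l) N N'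
      (fun _ _ k _ i => ln6 P (k i)) (fun _ _ _ k' i => ln6 P (k' i)) =
      ∑ r ∈ range (2 * (N + N') + 1), ((r ! : ℕ) : ℂ)⁻¹ *
        ∫ O : Fin r → Xo, TV6 X P t t' (vl (htL t) y.1) (vl (htL t') y.2) N N' (Fin r) O
          ∂(Measure.pi fun _ => nu) := by
  filter_upwards [gnX_aeP hB hW.a4 hW.b5 t t'] with y hy N N' hN
  exact zobj_TVP hB hW ha hκ hy (by simp [vl]) (by simp [vl]) hN

end cls

end PLT.Lg

end
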