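import Pool.Agent.PLT.LgPDef

/-!
# The term of a class with poles and zeros by choices, general parameters

* `eqL_zeYVP`, **`TP_TVP`**, **`TZ_TVP`** (`t, t' ≠ H`).
-/

set_option autoImplicit false
set_option linter.unusedSectionVars false
set_option linter.unusedVariables false
set_option linter.unusedSimpArgs false

noncomputable section

open Complex MeasureTheory Finset
open scoped ENNReal

open PLX (Fil)

namespace PLT.Lg

open NUO NUP1 NUP1S NUP1S.Mg NURow NUCR NUP1.Leg NUGC.PLX PBR.PLX
open NUP1.Bd (wt qg Ob)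
open PHK

variable {X : Bool → Option O3 → ℂ → ℂ} {t t' : HT} {w w' : ℂ} {P : Par6} [hP : LnP P]

/-- the places of the half quanta are generic on the lines -/
theorem Gn_lineP {a x : ℝ} (ha : a ∈ psS) (hx : x ∈ lnS P) {v z : ℂ} (hv : v.re = a)
    (hz : z.re = x) : Gn (v - z) := by
  intro k hk
  rw [sub_re, hv, hz] at hk
  exact nm6_lnS ha hx k hk

/-- **the filled class with holes on the lines is the class of the choices** -/
theorem eqL_zeYVP {i e e' : Bool × Bool} (hw : w.re = htL t) (hw' : w'.re = htL t')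
    (hi : OkI (av6 t t') i) (he : OkB (ac6 t t' i true) e) (he' : OkB (ac6 t t' i false) e') :
    EqL6 P (ZE (ZFl (Zc6 X t t' w w') (po6 t t' w w') i) (ze6 t t' w w' i) (eB _ e) (eB _ e'))
      (YV6 X t t' w w' ((i.1 && !e.2, e'.1), (i.2 && !e'.2, e.1))) := by
  have key : ∀ {x : ℝ}, x ∈ lnS P → ∀ (s : Bool) (k : Option O3)
      {z : ℂ}, z.re = x →
      ZE (ZFl (Zc6 X t t' w w') (po6 t t' w w') i) (ze6 t t' w w' i) (eB _ e) (eB _ e') s k z =
        YV6 X t t' w w' ((i.1 && !e.2, e'.1), (i.2 && !e'.2, e.1)) s k z := by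
    intro x hx s k z hz
    exact zeYV hi he he' s k (Gn_lineP (htL_psS t) hx hw hz) (Gn_lineP (htL_psS t') hx hw' hz)
  constructor
  · intro s z hz
    refine key (x := z.re) ?_ s none rfl
    unfold lnS
    rcases hz with h | h | h | h <;> rw [h] <;> simp
  · intro s z hz
    refine key (x := z.re) ?_ s _ rfl
    unfold lnS
    rw [hz]
    simp
  · intro s z hz
    refine key (x := z.re) ?_ s _ rfl
    unfold lnS
    rw [hz]
    simp
  · intro s z hz
    refine key (x := z.re) ?_ s _ rfl
    unfold lnS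
    rw [hz]
    simp

/-! ### the term by choices -/

/-- one summand: quanta `i`, holes `e`, `e'` -/
def GtP (P : Par6) (X : Bool → Option O3 → ℂ → ℂ) (t t' : HT) (w w' : ℂ) (n n' : ℕ) {ι : Type} [Fintype ι]
    (O : ι → Xo) (i e e' : Bool × Bool) : ℂ :=
  if (OkI (av6 t t') i ∧ i.1.toNat ≤ n ∧ i.2.toNat ≤ n') ∧ (e.1 = true → hz6 t' = true) ∧
      (e'.1 = true → hz6 t = true) then
    cPl (po6 t t' w w') (hp6 X t t' w w') i * (Kx X t t' w w' i e e' *
      (fI (YV6 X t t' w w' ((i.1 && !e.2, e'.1), (i.2 && !e'.2, e.1))) P l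
        (n - i.1.toNat + (e.1.toNat + e.2.toNat)) (n' - i.2.toNat + (e'.1.toNat + e'.2.toNat)) O *
        px P t t' w w' e e' O)) else 0

theorem TP_GtP (hw : w.re = htL t) (hw' : w'.re = htL t') (n n' : ℕ) {ι : Type} [Fintype ι]
    (O : ι → Xo) :
    TP (Zc6 X t t' w w') P (av6 t t') (po6 t t' w w') (hp6 X t t' w w') (ze6 t t' w w')
      (rh6 X t t' w w') n n' ι O =
      ∑ i : Bool × Bool, ∑ e : Bool × Bool, ∑ e' : Bool × Bool,
        if (e.2 = true → i.1 = true) ∧ (e'.2 = true → i.2 = true) then GtP P X t t' w w' n n' O i e e'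
        else 0 := by
  unfold TP
  refine sum_congr rfl fun i _ => ?_
  by_cases hi : OkI (av6 t t') i ∧ i.1.toNat ≤ n ∧ i.2.toNat ≤ n'
  · rw [if_pos hi]
    unfold PHK.TZ
    rw [sum_eB, Finset.mul_sum]
    refine sum_congr rfl fun e _ => ?_
    by_cases he : OkB (ac6 t t' i true) e
    · rw [if_pos he, sum_eB, Finset.mul_sum]
      refine sum_congr rfl fun e' _ => ?_
      have he1 : (e.1 = true → hz6 t' = true) ∧ (e.2 = true → i.1 = true) := by
        simpa [OkB, ac6] using he
      by_cases he' : OkB (ac6 t t' i false) e'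
      · have he1' : (e'.1 = true → hz6 t = true) ∧ (e'.2 = true → i.2 = true) := by
          simpa [OkB, ac6] using he'
        rw [if_pos he', if_pos ⟨he1.2, he1'.2⟩]
        unfold GtP
        rw [if_pos ⟨hi, he1.1, he1'.1⟩, kaE_eB he he', psE_eB he he', card_eB he, card_eB he',
          fI_congrZ (eqL_zeYVP hw hw' hi.1 he he')]
      · rw [if_neg he', mul_zero]
        by_cases h2 : (e.2 = true → i.1 = true) ∧ (e'.2 = true → i.2 = true)
        · rw [if_pos h2]
          unfold GtP
          rw [if_neg]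
          rintro ⟨-, -, h3⟩
          refine he' ?_
          have : (e'.1 = true → hz6 t = true) ∧ (e'.2 = true → i.2 = true) := ⟨h3, h2.2⟩
          simpa [OkB, ac6] using this
        · rw [if_neg h2]
    · rw [if_neg he, mul_zero]
      symm
      refine sum_eq_zero fun e' _ => ?_
      by_cases h2 : (e.2 = true → i.1 = true) ∧ (e'.2 = true → i.2 = true)
      · rw [if_pos h2]
        unfold GtP
        rw [if_neg]
        rintro ⟨-, h3, -⟩
        refine he ?_
        have : (e.1 = true → hz6 t' = true) ∧ (e.2 = true → i.1 = true) := ⟨h3, h2.1⟩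
        simpa [OkB, ac6] using this
      · rw [if_neg h2]
  · rw [if_neg hi]
    symm
    refine sum_eq_zero fun e _ => sum_eq_zero fun e' _ => ?_
    split_ifs
    · unfold GtP
      rw [if_neg fun h => hi h.1]
    · rfl

/-- **one summand by choices** -/
theorem Gt_paP (hg : Gen6 X t t' w w') (n n' : ℕ) {ι : Type} [Fintype ι] (O : ι → Xo)
    (u : Ch6 × Ch6) (a b : Bool) :
    (if u.1.1 = true ∧ a = true then 0 else if u.2.1 = true ∧ b = true then 0 else
      GtP P X t t' w w' n n' O (u.1.1 || a, u.2.1 || b) (u.2.2, a) (u.1.2, b)) =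
    if (okC6 t u.1 ∧ okC6 t' u.2) ∧ u.1.1.toNat ≤ n ∧ u.2.1.toNat ≤ n' then
      cV6 X t t' w w' u * (fI (YV6 X t t' w w' u) P l (n + u.2.2.toNat - u.1.1.toNat)
        (n' + u.1.2.toNat - u.2.1.toNat) O *
        (pa1 P O true (decide (t = .H) && !u.1.1) u.2.2.toNat w a *
          pa1 P O false (decide (t' = .H) && !u.2.1) u.1.2.toNat w' b *
          ((if u.1.2 = true then gHI P O false (hx6 t w) else 1) *
            (if u.2.2 = true then gHI P O true (hx6 t' w') else 1)))) else 0 := by
  obtain ⟨⟨v, f⟩, ⟨v', e⟩⟩ := u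
  simp only
  set R : ℂ := (if f = true then gHI P O false (hx6 t w) else 1) *
    (if e = true then gHI P O true (hx6 t' w') else 1) with hR
  set F : ℂ := fI (YV6 X t t' w w' ((v, f), (v', e))) P l (n + e.toNat - v.toNat)
    (n' + f.toNat - v'.toNat) O with hF
  by_cases hva : v = true ∧ a = true
  · rw [if_pos hva]
    obtain ⟨rfl, rfl⟩ := hva
    simp [pa1]
  rw [if_neg hva]
  by_cases hvb : v' = true ∧ b = true
  · rw [if_pos hvb]
    obtain ⟨rfl, rfl⟩ := hvb
    simp [pa1]
  rw [if_neg hvb]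
  by_cases hD : (e = true → hz6 t' = true) ∧ (f = true → hz6 t = true)
  swap
  · unfold GtP
    rw [if_neg fun h => hD h.2, if_neg]
    rintro ⟨⟨h1, h2⟩, -⟩
    refine hD ⟨fun h => ?_, fun h => ?_⟩
    · simpa [hz6] using h2.2 h
    · simpa [hz6] using h1.2 h
  have key1 := pa_key (Z := X) (P := P) (n := n) (n' := n') O true (tt := t) (v := v) (a := a)
    (e := e) (x := w) hva (F := F) (by
      intro ha hn h
      simp only [if_true] at hn
      have hv : v = false := by
        cases v
        · rfl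
        · exact absurd ⟨rfl, ha⟩ hva
      refine fI_van true (m := e.toNat) ?_ h
      simp only [if_true]
      omega)
  have key2 := pa_key (Z := X) (P := P) (n := n) (n' := n') O false (tt := t') (v := v') (a := b)
    (e := f) (x := w') hvb (F := F) (by
      intro ha hn h
      simp only [Bool.false_eq_true, if_false] at hn
      have hv : v' = false := by
        cases v'
        · rfl
        · exact absurd ⟨rfl, ha⟩ hvb
      refine fI_van false (m := f.toNat) ?_ h
      simp only [Bool.false_eq_true, if_false]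
      omega)
  simp only [if_true] at key1
  simp only [Bool.false_eq_true, if_false] at key2
  set A1 : ℂ := sg1 a * ((if (∑ i, hl6 true (O i)) + (e.toNat + a.toNat) ≤ ∑ i, sat6 true (O i)
    then 1 else 0) * (if a = true then gHI P O true w else 1)) with hA1
  set A2 : ℂ := sg1 b * ((if (∑ i, hl6 false (O i)) + (f.toNat + b.toNat) ≤ ∑ i, sat6 false (O i)
    then 1 else 0) * (if b = true then gHI P O false w' else 1)) with hA2
  set B1 := pa1 P O true (decide (t = .H) && !v) e.toNat w a with hB1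
  set B2 := pa1 P O false (decide (t' = .H) && !v') f.toNat w' b with hB2
  have hL : GtP P X t t' w w' n n' O (v || a, v' || b) (e, a) (f, b) =
      if (((v || a) = true → t = .H) ∧ (v || a).toNat ≤ n) ∧
        (((v' || b) = true → t' = .H) ∧ (v' || b).toNat ≤ n') then
        cV6 X t t' w w' ((v, f), (v', e)) * R * (F * A1 * A2) else 0 := by
    unfold GtP
    by_cases hc : (((v || a) = true → t = .H) ∧ (v || a).toNat ≤ n) ∧
        (((v' || b) = true → t' = .H) ∧ (v' || b).toNat ≤ n')
    · have hc0 : (OkI (av6 t t') (v || a, v' || b) ∧ (v || a, v' || b).1.toNat ≤ n ∧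
          (v || a, v' || b).2.toNat ≤ n') ∧ ((e, a).1 = true → hz6 t' = true) ∧
          ((f, b).1 = true → hz6 t = true) := by
        refine ⟨⟨⟨fun h => ?_, fun h => ?_⟩, hc.1.2, hc.2.2⟩, hD.1, hD.2⟩
        · simpa [av6] using hc.1.1 h
        · simpa [av6] using hc.2.1 h
      rw [if_pos hc0, if_pos hc, ← mul_assoc, cK_all hg (fun h => hc.1.1 (by simp [h]))
        (fun h => hc.2.1 (by simp [h])) (fun h => ⟨hc.1.1 (by simp [h]), by
          cases v
          · rfl
          · exact absurd ⟨rfl, h⟩ hva⟩) (fun h => ⟨hc.2.1 (by simp [h]), by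
          cases v'
          · rfl
          · exact absurd ⟨rfl, h⟩ hvb⟩) hD.1 hD.2]
      have e1 : ((v || a) && !a) = v := by
        cases v <;> cases a <;> simp at hva ⊢
      have e2 : ((v' || b) && !b) = v' := by
        cases v' <;> cases b <;> simp at hvb ⊢
      have e3 : n - (v || a).toNat + (e.toNat + a.toNat) = n + e.toNat - v.toNat := by
        have := hc.1.2
        cases v <;> cases a <;> simp at hva this ⊢ <;> omega
      have e4 : n' - (v' || b).toNat + (f.toNat + b.toNat) = n' + f.toNat - v'.toNat := by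
        have := hc.2.2
        cases v' <;> cases b <;> simp at hvb this ⊢ <;> omega
      simp only [e1, e2, e3, e4]
      rw [← hF]
      unfold px
      simp only
      rw [hA1, hA2, hR]
      ring
    · rw [if_neg hc, if_neg]
      rintro ⟨⟨h1, h2, h3⟩, -⟩
      refine hc ⟨⟨fun h => ?_, h2⟩, fun h => ?_, h3⟩
      · simpa [av6] using h1.1 h
      · simpa [av6] using h1.2 h
  rw [hL]
  have hRc : ((okC6 t (v, f) ∧ okC6 t' (v', e)) ∧ v.toNat ≤ n ∧ v'.toNat ≤ n') ↔
      ((v = true → t = .H) ∧ v.toNat ≤ n) ∧ ((v' = true → t' = .H) ∧ v'.toNat ≤ n') := by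
    have h1 : f = true → t = .P ∨ t = .H := fun h => by simpa [hz6] using hD.2 h
    have h2 : e = true → t' = .P ∨ t' = .H := fun h => by simpa [hz6] using hD.1 h
    constructor
    · rintro ⟨⟨⟨a1, _⟩, a2, _⟩, a3, a4⟩
      exact ⟨⟨a1, a3⟩, a2, a4⟩
    · rintro ⟨⟨a1, a3⟩, a2, a4⟩
      exact ⟨⟨⟨a1, h1⟩, a2, h2⟩, a3, a4⟩
  simp only [hRc]
  generalize cV6 X t t' w w' ((v, f), (v', e)) = c
  exact fac_aux c R F A1 A2 B1 B2 key1 key2

/-- **the term of the class `t, t'` is the sum over the choices** -/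
theorem TP_TVP (hg : Gen6 X t t' w w') (hw : w.re = htL t) (hw' : w'.re = htL t') (n n' : ℕ)
    {ι : Type} [Fintype ι] (O : ι → Xo) :
    TP (Zc6 X t t' w w') P (av6 t t') (po6 t t' w w') (hp6 X t t' w w') (ze6 t t' w w')
      (rh6 X t t' w w') n n' ι O = TV6 X P t t' w w' n n' ι O := by
  rw [TP_GtP hw hw', sum_re]
  unfold TV6
  refine sum_congr rfl fun u _ => ?_
  simp only [Gt_paP hg]
  by_cases hc : (okC6 t u.1 ∧ okC6 t' u.2) ∧ u.1.1.toNat ≤ n ∧ u.2.1.toNat ≤ n'
  · simp only [if_pos hc]
    unfold psV6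
    rw [ps1_pa, ps1_pa]
    simp only [Fintype.sum_bool]
    ring
  · simp only [if_neg hc]
    simp

/-- **without poles** -/
theorem TZ_TVP (hg : Gen6 X t t' w w') (ht : t ≠ .H) (ht' : t' ≠ .H) (hw : w.re = htL t)
    (hw' : w'.re = htL t') (n n' : ℕ) {ι : Type} [Fintype ι] (O : ι → Xo) :
    PHK.TZ (Zc6 X t t' w w') P (ze6 t t' w w' (false, false)) (rh6 X t t' w w' (false, false)) n n' ι O =
      TV6 X P t t' w w' n n' ι O := by
  have ha : ∀ s, av6 t t' s = false := by
    intro s
    cases s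
    · simp [av6, ht']
    · simp [av6, ht]
  rw [← TP_TVP hg hw hw' n n' O, TP_reg ha]

end PLT.Lg

end
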