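import Pool.Agent.PLT.LinAS
import Pool.Agent.PLT.LetOC

/-!
# The sea term of a group as words on the static curve

* `MFg`: the words of a class on a curve; **`seaGC_MF`**: `seaGC s g = MFg P η s g.σ g.c g.w`;
* **`seaGC_d`**: class D1, `seaGC s ⟨.d, rt, σ, τ⟩ = MFdX P η (s σ) (vl (htL .F) τ)`.
-/

set_option autoImplicit false
set_option linter.unusedSectionVars false
set_option linter.unusedVariables false

noncomputable section

open Complex MeasureTheory Set Filter Topology

namespace PLT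

open NUMF (l l_pos)
open NUSp (wd Cl)
open PHK
open NUSea.PLX.H0 (Gd)
open Cv (ga)

/-- the sea term of the words of a class: half quantum of species `σ` at `w` over a sea on a curve, `s a`
roots of species `a` -/
def MFg (ρ η : ℝ → ℝ) (s : Bool → ℝ) (σ : Bool) (c : Cl) (w : ℂ) : ℝ :=
  s σ * (∫ x, ρ x * lw (NUSp.wX c) w (NUP1.vl (l - η x) x)) +
    s (!σ) * ∫ x, ρ x * lw (NUSp.wY c) w (NUP1.vl (l - η x) x)

/-- the group of `g` on the static curve -/
theorem gp_ga [SeaC] (g : Gd) (a : Bool) (x : ℝ) :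
    (NUSp.gp a g.G (ga x)).re = lw (NUSp.wc g.c (decide (a = g.σ))) g.w (NUP1.vl (l - Cv.eta x) x) := by
  have h : g.G = NUSp.grp g.c g.σ g.w := rfl
  rw [h, NUSp.gp_grp, wd_ga]

section

variable (B : SeaCB) [SeaC] [SeaCU B]

include B

/-- **the sea term of a group is that of its words** -/
theorem seaGC_MF (s : Bool → ℝ) (g : Gd) : seaGC s g = MFg Cv.P Cv.eta s g.σ g.c g.w := by
  have i2 : ∀ a, Integrable fun x => Cv.P x * (NUSp.gp a g.G (ga x)).re := fun a =>
    (gpC_int B g a 1).congr (ae_of_all _ fun x => by simp only; ring)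
  have e2 : seaGC s g = ∑ a, s a * ∫ x, Cv.P x * (NUSp.gp a g.G (ga x)).re := by
    rw [Fintype.sum_bool, ← integral_const_mul, ← integral_const_mul,
      ← integral_add ((i2 true).const_mul _) ((i2 false).const_mul _)]
    unfold seaGC
    refine integral_congr_ae (ae_of_all _ fun x => ?_)
    simp only
    ring
  have e3 : MFg Cv.P Cv.eta s g.σ g.c g.w =
      ∑ a, s a * ∫ x, Cv.P x * lw (NUSp.wc g.c (decide (a = g.σ))) g.w
        (NUP1.vl (l - Cv.eta x) x) := by
    unfold MFg NUSp.wc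
    rw [Fintype.sum_bool]
    cases g.σ
    · simp only [decide_true, Bool.not_false, Bool.true_eq_false, decide_false, if_true,
        Bool.false_eq_true, if_false]
      ring
    · simp only [decide_true, Bool.not_true, Bool.false_eq_true, decide_false, if_true, if_false]
  rw [e2, e3]
  refine Finset.sum_congr rfl fun a _ => ?_
  congr 1
  refine integral_congr_ae (ae_of_all _ fun x => ?_)
  simp only
  rw [gp_ga]

/-- **class D1** -/
theorem seaGC_d (s : Bool → ℝ) (rt σ : Bool) (τ : ℝ) :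
    seaGC s ⟨.d, rt, σ, τ⟩ = MFdX Cv.P Cv.eta (s σ) (NUP1.vl (NUGC.PLX.htL .F) τ) := by
  rw [seaGC_MF B]
  have h1 : (Gd.w ⟨.d, rt, σ, τ⟩) = NUP1.vl (NUGC.PLX.htL .F) τ := by
    have e : NUSp.psG .d rt * NUP1.l = NUGC.PLX.htL .F := by
      show -(11 / 4) * NUP1.l = _
      unfold NUGC.PLX.htL
      rfl
    show NUP1.vl (NUSp.psG .d rt * NUP1.l) τ = _
    rw [e]
  unfold MFg MFdX
  rw [h1]
  have h2 : NUSp.wY .d = [] := rfl
  have h3 : ∀ x : ℝ, Cv.P x * lw [] (NUP1.vl (NUGC.PLX.htL .F) τ) (NUP1.vl (l - Cv.eta x) x) = 0 := by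
    intro x
    have : lw [] (NUP1.vl (NUGC.PLX.htL .F) τ) (NUP1.vl (l - Cv.eta x) x) = 0 := by
      simp [lw]
    rw [this, mul_zero]
  simp only [h2, h3, integral_zero, mul_zero, add_zero]

end

end PLT

end
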