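import Pool.Agent.PLT.Gas2
import Pool.Agent.NUO.DispW

/-!
# The current against external potentials, static curve (row B1b)

`h = s P η` the current, `Ψ` a neutral potential in the strip: `Ψ = a ± i φ + O(κ e^{-2 |Re z - τ|})`
(`SAsy lo hi κ 0 a φ τ Ψ`).  Then `- Re ∫ B Ψ(ζ) = - 2 φ h(τ) + O(κ sup |h'| + (|a| + |φ| + κ) (b + 1) M ε)`.
`exists_linSC`: each species on its own contour, the currents nearly equal, potentials `F a` with
`F true + F false = ∑ d, Ψ d`.
-/

set_option autoImplicit false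
set_option linter.unusedSectionVars false
set_option linter.unusedVariables false

open MeasureTheory Set Filter Topology Complex

namespace PLT.Cv

open NUMF (l l_pos)
open NUKer (iD)
open NUSea.PLX (Com)

noncomputable section

/-- real integral of `e^{-2|t - τ|}` -/
lemma int_e2L (τ : ℝ) : Integrable (fun t : ℝ => Real.exp (-2 * |t - τ|)) ∧
    ∫ t : ℝ, Real.exp (-2 * |t - τ|) = 1 := by
  have h := NUDispW.int_exp_abs (c := 2) (by norm_num) τ
  have e : (fun t : ℝ => Real.exp (-2 * |t - τ|)) = fun x => Real.exp (-(2 * |x - τ|)) := by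
    funext t; ring_nf
  rw [e]
  exact ⟨h.1, h.2.trans (by norm_num)⟩

/-- the sign of `x - τ` -/
def sgL (τ x : ℝ) : ℝ := if τ ≤ x then 1 else -1

lemma sgL_abs (τ x : ℝ) : |sgL τ x| = 1 := by
  unfold sgL
  split_ifs <;> simp

lemma sgL_meas (τ : ℝ) : Measurable (sgL τ) :=
  Measurable.ite measurableSet_Ici measurable_const measurable_const

/-- the sign at nearby points -/
lemma sgL_near {τ x y ε : ℝ} (h : |x - y| ≤ ε) :
    |sgL τ x - sgL τ y| ≤ (Icc (τ - ε) (τ + ε)).indicator (fun _ => (2:ℝ)) y := by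
  rw [abs_le] at h
  by_cases hy : y ∈ Icc (τ - ε) (τ + ε)
  · rw [indicator_of_mem hy]
    have h1 := abs_sub (sgL τ x) (sgL τ y)
    rw [sgL_abs, sgL_abs] at h1
    linarith
  · rw [indicator_of_notMem hy]
    have h2 : y < τ - ε ∨ τ + ε < y := by
      by_contra hh
      push Not at hh
      exact hy ⟨hh.1, hh.2⟩
    have h3 : sgL τ x = sgL τ y := by
      unfold sgL
      rcases h2 with h2 | h2
      · rw [if_neg (by linarith), if_neg (by linarith)]
      · rw [if_pos (by linarith), if_pos (by linarith)]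
    rw [h3]
    simp

/-- a current against a jump -/
lemma jumpL {h h' : ℝ → ℝ} {b τ : ℝ} (hd : ∀ t, HasDerivAt h (h' t) t) (hc : Continuous h')
    (h0 : ∀ t, b < |t| → h t = 0) (hb : 0 ≤ b) :
    ∫ t, h' t * sgL τ t = -2 * h τ := by
  obtain ⟨R, hR⟩ : ∃ R : ℝ, R = b + 1 + |τ| := ⟨_, rfl⟩
  have hτ := abs_nonneg τ
  have hτ1 := neg_abs_le τ
  have hτ2 := le_abs_self τ
  have hsup : ∀ t, b < |t| → h' t = 0 := by
    intro t ht
    have hev : h =ᶠ[𝓝 t] fun _ => 0 := by
      filter_upwards [(continuous_abs.tendsto t).eventually (lt_mem_nhds ht)] with u hu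
      exact h0 u hu
    have h1 := (hd t).congr_of_eventuallyEq hev.symm
    exact (hd t).unique ((hasDerivAt_const t (0:ℝ)).congr_of_eventuallyEq hev)
  have hRp : b < |R| := by rw [abs_of_pos (by linarith)]; linarith
  have hRm : b < |-R| := by rw [abs_neg]; exact hRp
  have e0 : ∫ t, h' t * sgL τ t = ∫ t in (-R)..R, h' t * sgL τ t := by
    rw [intervalIntegral.integral_of_le (by linarith), ← integral_Icc_eq_integral_Ioc]
    refine (setIntegral_eq_integral_of_forall_compl_eq_zero fun t ht => ?_).symm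
    have : b < |t| := by
      by_contra hh
      exact ht (abs_le.1 ((not_lt.1 hh).trans (by linarith)))
    rw [hsup t this, zero_mul]
  have hm := sgL_meas τ
  have hii : ∀ x y : ℝ, IntervalIntegrable (fun t => h' t * sgL τ t) volume x y := by
    intro x y
    have h1 := hc.intervalIntegrable (μ := volume) x y
    have : IntervalIntegrable (fun t => sgL τ t * h' t) volume x y := by
      rw [intervalIntegrable_iff] at h1 ⊢
      exact Integrable.bdd_mul (c := 1) h1 hm.aestronglyMeasurable (Eventually.of_forall fun t => by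
        rw [Real.norm_eq_abs, sgL_abs])
    refine this.congr fun t _ => ?_
    exact mul_comm _ _
  rw [e0, ← intervalIntegral.integral_add_adjacent_intervals (hii (-R) τ) (hii τ R)]
  have e1 : ∫ t in (-R)..τ, h' t * sgL τ t = -(h τ - h (-R)) := by
    rw [← intervalIntegral.integral_eq_sub_of_hasDerivAt (fun t _ => hd t)
      (hc.intervalIntegrable _ _), ← intervalIntegral.integral_neg]
    refine intervalIntegral.integral_congr_ae ?_
    have hne : ∀ᵐ t : ℝ, t ≠ τ := by
      have : volume ({τ} : Set ℝ) = 0 := by simp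
      exact compl_mem_ae_iff.2 this
    filter_upwards [hne] with t ht ht2
    rw [uIoc_of_le (by linarith)] at ht2
    unfold sgL
    rw [if_neg (not_le.2 (lt_of_le_of_ne ht2.2 ht))]
    ring
  have e2 : ∫ t in τ..R, h' t * sgL τ t = h R - h τ := by
    rw [← intervalIntegral.integral_eq_sub_of_hasDerivAt (fun t _ => hd t)
      (hc.intervalIntegrable _ _)]
    refine intervalIntegral.integral_congr fun t ht => ?_
    rw [uIcc_of_le (by linarith)] at ht
    unfold sgL
    rw [if_pos ht.1, mul_one]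
  rw [e1, e2, h0 R hRp, h0 (-R) hRm]
  ring

/-- a neutral potential in the strip -/
lemma sasy_le {lo hi κ a φ τ : ℝ} {Ψ : ℂ → ℂ} (h : SAsy lo hi κ 0 a φ τ Ψ) {z : ℂ} (h1 : lo ≤ z.im)
    (h2 : z.im ≤ hi) :
    |(Ψ z).im - φ * sgL τ z.re| ≤ κ * Real.exp (-2 * |z.re - τ|) ∧ ‖Ψ z‖ ≤ |a| + |φ| + κ ∧ 0 ≤ κ := by
  have hk : 0 ≤ κ := by
    by_contra hh
    have g1 := h.ar ((τ : ℂ) + z.im * I) (by simpa using h1) (by simpa using h2) (by simp)
    have g2 := norm_nonneg (Ψ ((τ : ℂ) + z.im * I) - ((0:ℝ) * (((τ : ℂ) + z.im * I) - τ) + a + φ * I))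
    have g3 : κ * Real.exp (-2 * |((τ : ℂ) + z.im * I).re - τ|) < 0 :=
      mul_neg_of_neg_of_pos (not_le.1 hh) (Real.exp_pos _)
    linarith
  have hexp : Real.exp (-2 * |z.re - τ|) ≤ 1 := by
    rw [Real.exp_le_one_iff]
    have := abs_nonneg (z.re - τ)
    linarith
  have h4 : κ * Real.exp (-2 * |z.re - τ|) ≤ κ := mul_le_of_le_one_right hk hexp
  rcases le_or_gt τ z.re with hτ | hτ
  · have g1 := h.ar z h1 h2 hτ
    have e1 : ((0:ℝ) : ℂ) * (z - τ) + a + φ * I = a + φ * I := by simp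
    rw [e1] at g1
    refine ⟨?_, ?_, hk⟩
    · rw [sgL, if_pos hτ, mul_one]
      refine le_trans ?_ g1
      have e : (Ψ z - (a + φ * I)).im = (Ψ z).im - φ := by simp
      rw [← e]
      exact Complex.abs_im_le_norm _
    · have g2 : ‖(a : ℂ) + φ * I‖ ≤ |a| + |φ| := by
        refine (norm_add_le _ _).trans (le_of_eq ?_)
        rw [norm_mul, Complex.norm_I, mul_one, Complex.norm_real, Complex.norm_real,
          Real.norm_eq_abs, Real.norm_eq_abs]
      have g3 : ‖Ψ z‖ ≤ ‖Ψ z - (a + φ * I)‖ + ‖(a : ℂ) + φ * I‖ := by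
        have := norm_add_le (Ψ z - (a + φ * I)) ((a : ℂ) + φ * I)
        rwa [sub_add_cancel] at this
      linarith
  · have g1 := h.al z h1 h2 hτ.le
    have e1 : -((0:ℝ) : ℂ) * (z - τ) + a - φ * I = a - φ * I := by simp
    rw [e1] at g1
    refine ⟨?_, ?_, hk⟩
    · rw [sgL, if_neg (not_le.2 hτ)]
      refine le_trans ?_ g1
      have e : (Ψ z - (a - φ * I)).im = (Ψ z).im - φ * -1 := by simp
      rw [← e]
      exact Complex.abs_im_le_norm _
    · have g2 : ‖(a : ℂ) - φ * I‖ ≤ |a| + |φ| := by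
        refine (norm_sub_le _ _).trans (le_of_eq ?_)
        rw [norm_mul, Complex.norm_I, mul_one, Complex.norm_real, Complex.norm_real,
          Real.norm_eq_abs, Real.norm_eq_abs]
      have g3 : ‖Ψ z‖ ≤ ‖Ψ z - (a - φ * I)‖ + ‖(a : ℂ) - φ * I‖ := by
        have := norm_add_le (Ψ z - (a - φ * I)) ((a : ℂ) - φ * I)
        rwa [sub_add_cancel] at this
      linarith

/-- functions of compact support -/
lemma int_suppL {b : ℝ} {f : ℝ → ℂ} (hf : Continuous f) (h0 : ∀ t, b < |t| → f t = 0) : Integrable f := by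
  refine hf.integrable_of_hasCompactSupport ?_
  refine HasCompactSupport.of_support_subset_isCompact (isCompact_Icc (a := -b) (b := b)) ?_
  intro t ht
  by_contra hh
  exact ht (h0 t (by
    by_contra h2
    exact hh (abs_le.1 (not_lt.1 h2))))

lemma int_suppL_le {b : ℝ} (hb : 0 ≤ b) {f : ℝ → ℂ} {c : ℝ} (h0 : ∀ t, b < |t| → f t = 0)
    (hc : ∀ t, |t| ≤ b → ‖f t‖ ≤ c) : ‖∫ t, f t‖ ≤ c * (2 * b) := by
  have e3 : ∫ t, f t = ∫ t in Icc (-b) b, f t := by
    refine (setIntegral_eq_integral_of_forall_compl_eq_zero fun t ht => ?_).symm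
    refine h0 t ?_
    by_contra hh
    exact ht (abs_le.1 (not_lt.1 hh))
  rw [e3]
  have h5 := norm_setIntegral_le_of_norm_le_const (μ := volume) (s := Icc (-b) b)
    (f := f) (C := c) (by simp) (fun t ht => hc t (abs_le.2 ht))
  refine h5.trans (le_of_eq ?_)
  rw [Measure.real, Real.volume_Icc, ENNReal.toReal_ofReal (by linarith)]
  ring

section

variable [SeaC] {s ε M b : ℝ} {e η η1 : ℝ → ℝ}

lemma lc_le (h : Cur s ε M b e η) (t : ℝ) : |η t| ≤ e t := by
  have := h.oc.le t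
  rwa [iD, norm_mul, Complex.norm_I, mul_one, Complex.norm_real, Real.norm_eq_abs] at this

lemma lc_out (h : Cur s ε M b e η) {t : ℝ} (ht : b < |t|) : η t = 0 := by
  have := lc_le h t
  rw [h.supp t ht] at this
  exact abs_nonpos_iff.1 this

private lemma gD_im (η : ℝ → ℝ) (t : ℝ) : (gD η t).im = η t := by simp [gD, iD]

private lemma gD_re (η : ℝ → ℝ) (t : ℝ) : (gD η t).re = -(η t * deriv eta t) := by simp [gD, iD]

private lemma zt_gD_im (η : ℝ → ℝ) (t : ℝ) : (zt (gD η) t).im = eta t + η t := by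
  rw [zt, Complex.add_im, ga_im, gD_im]

private lemma zt_gD_re (η : ℝ → ℝ) (t : ℝ) : (zt (gD η) t).re = t - η t * deriv eta t := by
  rw [zt, Complex.add_re, ga_re, gD_re]
  ring

lemma ga'_le2 (t : ℝ) : ‖ga' t‖ ≤ 2 := by
  have h1 := Complex.norm_le_abs_re_add_abs_im (ga' t)
  rw [ga'_re, ga'_im, abs_one] at h1
  have h2 := eta'_le t
  linarith

lemma norm_gD_le (η : ℝ → ℝ) (t : ℝ) : ‖gD η t‖ ≤ 2 * |η t| := by
  rw [gD, iD, norm_mul, norm_mul, Complex.norm_I, mul_one, Complex.norm_real, Real.norm_eq_abs]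
  have h1 := ga'_le2 t
  have h2 := abs_nonneg (η t)
  nlinarith

lemma zt_gD_near {ε : ℝ} (h : ∀ t, |η t| ≤ ε) (t : ℝ) : |(zt (gD η) t).re - t| ≤ ε := by
  rw [zt_gD_re]
  have e1 : t - η t * deriv eta t - t = -(η t * deriv eta t) := by ring
  rw [e1, abs_neg, abs_mul]
  have h1 := eta'_le t
  have h2 := h t
  have h3 := abs_nonneg (η t)
  have h4 := abs_nonneg (deriv eta t)
  nlinarith

lemma zt_gD_strip (B : SeaCB) [SeaCU B] {lo hi ε : ℝ} (h : ∀ t, |η t| ≤ ε) (h1 : lo + ε ≤ -B.d)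
    (h2 : B.top + ε ≤ hi) (t : ℝ) : lo ≤ (zt (gD η) t).im ∧ (zt (gD η) t).im ≤ hi := by
  rw [zt_gD_im]
  have a1 := eta_lo B t
  have a2 := eta_top B t
  have a3 := abs_le.1 (h t)
  constructor <;> linarith [a3.1, a3.2]

lemma gD_cont (h1 : ∀ t, HasDerivAt η (η1 t) t) : Continuous (gD η) :=
  continuous_iff_continuousAt.2 fun t => (hasDerivAt_gD h1 t).continuousAt

lemma zt_gD_cont (h1 : ∀ t, HasDerivAt η (η1 t) t) : Continuous (zt (gD η)) :=
  continuous_ga.add (gD_cont h1)

end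

/-- **the current against a neutral potential** -/
theorem exists_linC (B : SeaCB) : ∃ C : ℝ, 1 ≤ C ∧ ∀ [SeaC] [SeaCU B], ∀ {s ε M b : ℝ} {e η η1 : ℝ → ℝ},
    0 ≤ s → C * ε ≤ 1 → Cur s ε M b e η → (∀ t, HasDerivAt η (η1 t) t) → 0 ≤ b →
    ∀ {lo hi κ a φ τ A : ℝ} {Ψ : ℂ → ℂ}, lo + ε ≤ -B.d → B.top + ε ≤ hi → SAsy lo hi κ 0 a φ τ Ψ →
      (∀ z : ℂ, lo ≤ z.im → z.im ≤ hi → DifferentiableAt ℂ Ψ z) → (∀ t, |hd s η η1 t| ≤ A) →
      Integrable (fun t => Bf s (gD η) (gD1 η η1) t * Ψ (zt (gD η) t)) ∧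
      |-(∫ t, Bf s (gD η) (gD1 η η1) t * Ψ (zt (gD η) t)).re + 2 * φ * (s * P τ * η τ)| ≤
        C * (κ * A) + C * (|a| + |φ| + κ) * (b + 1) * (M * ε) := by
  obtain ⟨C0, hC0, H0⟩ := exists_BB B
  have hE1 : (1:ℝ) ≤ Real.exp 2 := Real.one_le_exp (by norm_num)
  refine ⟨6 * C0 + Real.exp 2, by linarith, @fun _ hS s ε M b e η η1 hs hε hcur h1 hb lo hi κ a φ τ A Ψ
    hlo hhi hΨ hdiff hA => ?_⟩
  have hε0 := hcur.ε0
  have hε1 : ε ≤ 1 := by nlinarith
  have hBB := H0 hs (by nlinarith) hcur h1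
  have hη : ∀ t, |η t| ≤ ε := fun t => (lc_le hcur t).trans (hcur.le t)
  have hz := zt_gD_strip B hη hlo hhi
  have hzc := zt_gD_cont h1
  have hΨc : Continuous fun t => Ψ (zt (gD η) t) :=
    continuous_iff_continuousAt.2 fun t =>
      (hdiff _ (hz t).1 (hz t).2).continuousAt.comp hzc.continuousAt
  obtain ⟨N, hN⟩ : ∃ N : ℝ, N = |a| + |φ| + κ := ⟨_, rfl⟩
  have hΨb : ∀ t, ‖Ψ (zt (gD η) t)‖ ≤ N := fun t => by
    rw [hN]; exact (sasy_le hΨ (hz t).1 (hz t).2).2.1
  have hk : 0 ≤ κ := (sasy_le hΨ (hz 0).1 (hz 0).2).2.2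
  have hN0 : 0 ≤ N := (norm_nonneg _).trans (hΨb 0)
  have hφN : |φ| ≤ N := by rw [hN]; linarith [abs_nonneg a]
  have hM0 := hcur.M0 B hs
  have hMε : 0 ≤ M * ε := mul_nonneg hM0 hε0
  have i0 : Integrable (fun t => Bf s (gD η) (gD1 η η1) t * Ψ (zt (gD η) t)) :=
    int_suppL (hBB.cont.mul hΨc) fun t ht => by rw [hBB.supp t ht, zero_mul]
  have i1 : Integrable (fun t => ((hd s η η1 t : ℂ) * I) * Ψ (zt (gD η) t)) :=
    int_suppL (((Complex.continuous_ofReal.comp hBB.hc).mul continuous_const).mul hΨc) fun t ht => by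
      rw [hBB.hsupp t ht]; simp
  have i2 : Integrable (fun t => Br s (gD η) (gD1 η η1) t * Ψ (zt (gD η) t)) :=
    int_suppL (hBB.rc.mul hΨc) fun t ht => by rw [hBB.rsupp t ht, zero_mul]
  refine ⟨i0, ?_⟩
  have e1 : ∫ t, Bf s (gD η) (gD1 η η1) t * Ψ (zt (gD η) t) =
      (∫ t, ((hd s η η1 t : ℂ) * I) * Ψ (zt (gD η) t)) +
        ∫ t, Br s (gD η) (gD1 η η1) t * Ψ (zt (gD η) t) := by
    rw [← integral_add i1 i2]
    congr 1
    funext t
    rw [B_eq B]
    ring
  have e2 : (∫ t, ((hd s η η1 t : ℂ) * I) * Ψ (zt (gD η) t)).re =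
      -∫ t, hd s η η1 t * (Ψ (zt (gD η) t)).im := by
    have := integral_re i1
    simp only [RCLike.re_to_complex] at this
    rw [← this, ← integral_neg]
    congr 1
    funext t
    have : ((hd s η η1 t : ℂ) * I) * Ψ (zt (gD η) t) = (hd s η η1 t : ℂ) * (I * Ψ (zt (gD η) t)) := by
      ring
    rw [this, Complex.re_ofReal_mul, Complex.I_mul_re]
    ring
  -- the rest
  have b2 : |(∫ t, Br s (gD η) (gD1 η η1) t * Ψ (zt (gD η) t)).re| ≤ 2 * C0 * N * b * (M * ε) := by
    refine (Complex.abs_re_le_norm _).trans ((int_suppL_le hb (c := C0 * (M * ε) * N)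
      (fun t ht => by rw [hBB.rsupp t ht, zero_mul]) (fun t _ => ?_)).trans (le_of_eq (by ring)))
    rw [norm_mul]
    exact mul_le_mul (hBB.rle t) (hΨb t) (norm_nonneg _) (by positivity)
  -- the main part
  have hh : ∀ t, b < |t| → s * P t * η t = 0 := fun t ht => by
    rw [lc_out hcur ht, mul_zero]
  have hj := jumpL (τ := τ) (hasDerivAt_hd B s h1) hBB.hc hh hb
  have hA0 : 0 ≤ A := (abs_nonneg _).trans (hA 0)
  obtain ⟨ie, ee⟩ := int_e2L τ
  have hm := sgL_meas τ
  have ih : Integrable (hd s η η1) := by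
    have := (int_suppL (b := b) (f := fun t => (hd s η η1 t : ℂ)) (Complex.continuous_ofReal.comp hBB.hc)
      fun t ht => by rw [hBB.hsupp t ht]; simp).re
    simpa using this
  have ij : Integrable fun t => hd s η η1 t * sgL τ t := by
    have := ih.bdd_mul (c := 1) hm.aestronglyMeasurable (Eventually.of_forall fun t => by
        rw [Real.norm_eq_abs, sgL_abs])
    exact this.congr (Eventually.of_forall fun t => mul_comm _ _)
  have ii : Integrable fun t => hd s η η1 t * (Ψ (zt (gD η) t)).im := by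
    have := ih.bdd_mul (c := N) (Complex.continuous_im.comp hΨc).aestronglyMeasurable
      (Eventually.of_forall fun t => (Complex.abs_im_le_norm _).trans (hΨb t))
    exact this.congr (Eventually.of_forall fun t => mul_comm _ _)
  have e4 : (∫ t, hd s η η1 t * (Ψ (zt (gD η) t)).im) + 2 * φ * (s * P τ * η τ) =
      ∫ t, hd s η η1 t * ((Ψ (zt (gD η) t)).im - φ * sgL τ t) := by
    have e5 : ∀ t, hd s η η1 t * ((Ψ (zt (gD η) t)).im - φ * sgL τ t) =
        hd s η η1 t * (Ψ (zt (gD η) t)).im - φ * (hd s η η1 t * sgL τ t) := by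
      intro t; ring
    simp_rw [e5]
    rw [integral_sub ii (ij.const_mul φ), integral_const_mul, hj]
    ring
  obtain ⟨S, hS1⟩ : ∃ S : Set ℝ, S = Icc (τ - ε) (τ + ε) := ⟨_, rfl⟩
  have hSm : MeasurableSet S := by rw [hS1]; exact measurableSet_Icc
  have hSv : volume S = ENNReal.ofReal (2 * ε) := by
    rw [hS1, Real.volume_Icc]
    congr 1
    ring
  have iS : Integrable (S.indicator fun _ => (2:ℝ)) := by
    rw [integrable_indicator_iff hSm]
    refine integrableOn_const ?_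
    rw [hSv]
    exact ENNReal.ofReal_ne_top
  have eS : ∫ t, S.indicator (fun _ => (2:ℝ)) t = 4 * ε := by
    rw [integral_indicator hSm, setIntegral_const, Measure.real, hSv,
      ENNReal.toReal_ofReal (by linarith), smul_eq_mul]
    ring
  have b1 : |(∫ t, hd s η η1 t * (Ψ (zt (gD η) t)).im) + 2 * φ * (s * P τ * η τ)| ≤
      Real.exp 2 * (κ * A) + 4 * C0 * N * (M * ε) := by
    rw [e4, ← Real.norm_eq_abs]
    have : Real.exp 2 * (κ * A) + C0 * M * |φ| * (4 * ε) =
        ∫ t : ℝ, (A * (κ * Real.exp 2) * Real.exp (-2 * |t - τ|) +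
          C0 * M * |φ| * S.indicator (fun _ => (2:ℝ)) t) := by
      rw [integral_add (ie.const_mul _) (iS.const_mul _), integral_const_mul, integral_const_mul, ee, eS]
      ring
    have h9 : Real.exp 2 * (κ * A) + C0 * M * |φ| * (4 * ε) ≤
        Real.exp 2 * (κ * A) + 4 * C0 * N * (M * ε) := by
      have : C0 * M * |φ| * (4 * ε) ≤ C0 * M * N * (4 * ε) := by gcongr
      linarith
    refine le_trans ?_ h9
    rw [this]
    refine norm_integral_le_of_norm_le ((ie.const_mul _).add (iS.const_mul _))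
      (Eventually.of_forall fun t => ?_)
    have k1 := (sasy_le hΨ (hz t).1 (hz t).2).1
    have k2 := zt_gD_near hη t
    have k3 : Real.exp (-2 * |(zt (gD η) t).re - τ|) ≤ Real.exp 2 * Real.exp (-2 * |t - τ|) := by
      rw [← Real.exp_add]
      refine Real.exp_le_exp.2 ?_
      have := abs_sub_abs_le_abs_sub (t - τ) ((zt (gD η) t).re - τ)
      have e7 : t - τ - ((zt (gD η) t).re - τ) = -((zt (gD η) t).re - t) := by ring
      rw [e7, abs_neg] at this
      linarith
    have k4 := sgL_near (τ := τ) k2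
    rw [← hS1] at k4
    have e6 : hd s η η1 t * ((Ψ (zt (gD η) t)).im - φ * sgL τ t) =
        hd s η η1 t * ((Ψ (zt (gD η) t)).im - φ * sgL τ (zt (gD η) t).re) +
        hd s η η1 t * (φ * (sgL τ (zt (gD η) t).re - sgL τ t)) := by ring
    rw [e6]
    refine (norm_add_le _ _).trans (add_le_add ?_ ?_)
    · rw [norm_mul, Real.norm_eq_abs, Real.norm_eq_abs]
      calc |hd s η η1 t| * |(Ψ (zt (gD η) t)).im - φ * sgL τ (zt (gD η) t).re| ≤
          A * (κ * (Real.exp 2 * Real.exp (-2 * |t - τ|))) :=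
            mul_le_mul (hA t) (k1.trans (mul_le_mul_of_nonneg_left k3 hk)) (abs_nonneg _) hA0
        _ = _ := by ring
    · rw [norm_mul, norm_mul, Real.norm_eq_abs, Real.norm_eq_abs, Real.norm_eq_abs]
      calc |hd s η η1 t| * (|φ| * |sgL τ (zt (gD η) t).re - sgL τ t|) ≤
          (C0 * M) * (|φ| * S.indicator (fun _ => (2:ℝ)) t) :=
            mul_le_mul (hBB.hle t) (mul_le_mul_of_nonneg_left k4 (abs_nonneg _)) (by positivity)
              (by positivity)
        _ = _ := by ring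
  have hfin : Real.exp 2 * (κ * A) + 4 * C0 * N * (M * ε) + 2 * C0 * N * b * (M * ε) ≤
      (6 * C0 + Real.exp 2) * (κ * A) + (6 * C0 + Real.exp 2) * N * (b + 1) * (M * ε) := by
    have q0 : 0 ≤ κ * A := by positivity
    have q1 : 0 ≤ N * (M * ε) := by positivity
    have q2 : 0 ≤ N * b * (M * ε) := by positivity
    nlinarith [mul_nonneg (by linarith : (0:ℝ) ≤ C0) q0, mul_nonneg (by linarith : (0:ℝ) ≤ C0) q1,
      mul_nonneg (by linarith : (0:ℝ) ≤ C0) q2, mul_nonneg (by linarith : (0:ℝ) ≤ Real.exp 2) q1,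
      mul_nonneg (by linarith : (0:ℝ) ≤ Real.exp 2) q2]
  rw [e1, Complex.add_re, e2, ← hN]
  refine le_trans ?_ hfin
  rw [abs_le] at b1 b2 ⊢
  constructor <;> linarith [b1.1, b1.2, b2.1, b2.2]

/-- **the current against a finite family of neutral potentials** -/
theorem exists_linC_sum (B : SeaCB) : ∃ C : ℝ, 1 ≤ C ∧ ∀ [SeaC] [SeaCU B], ∀ {s ε M b : ℝ}
    {e η η1 : ℝ → ℝ},
    0 ≤ s → C * ε ≤ 1 → Cur s ε M b e η → (∀ t, HasDerivAt η (η1 t) t) → 0 ≤ b →
    ∀ {δ : Type*} [Fintype δ] {lo hi A : ℝ} {κ a φ τ : δ → ℝ} {Ψ : δ → ℂ → ℂ},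
      lo + ε ≤ -B.d → B.top + ε ≤ hi →
      (∀ d, SAsy lo hi (κ d) 0 (a d) (φ d) (τ d) (Ψ d)) →
      (∀ d (z : ℂ), lo ≤ z.im → z.im ≤ hi → DifferentiableAt ℂ (Ψ d) z) → (∀ t, |hd s η η1 t| ≤ A) →
      |-(∫ t, Bf s (gD η) (gD1 η η1) t * ∑ d, Ψ d (zt (gD η) t)).re +
          2 * ∑ d, φ d * (s * P (τ d) * η (τ d))| ≤
        C * ((∑ d, κ d) * A) + C * (∑ d, (|a d| + |φ d| + κ d)) * (b + 1) * (M * ε) := by
  obtain ⟨C, hC, H⟩ := exists_linC B
  refine ⟨C, hC, @fun _ hS s ε M b e η η1 hs hε hcur h1 hb δ _ lo hi A κ a φ τ Ψ hlo hhi hΨ hdiff hA => ?_⟩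
  have h := fun d => H hs hε hcur h1 hb hlo hhi (hΨ d) (hdiff d) hA
  have e1 : ∫ t, Bf s (gD η) (gD1 η η1) t * ∑ d, Ψ d (zt (gD η) t) =
      ∑ d, ∫ t, Bf s (gD η) (gD1 η η1) t * Ψ d (zt (gD η) t) := by
    simp_rw [Finset.mul_sum]
    exact integral_finsetSum _ fun d _ => (h d).1
  have e2 : -(∫ t, Bf s (gD η) (gD1 η η1) t * ∑ d, Ψ d (zt (gD η) t)).re +
      2 * ∑ d, φ d * (s * P (τ d) * η (τ d)) =
      ∑ d, (-(∫ t, Bf s (gD η) (gD1 η η1) t * Ψ d (zt (gD η) t)).re +
        2 * φ d * (s * P (τ d) * η (τ d))) := by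
    rw [e1, Complex.re_sum, Finset.sum_add_distrib, Finset.sum_neg_distrib, Finset.mul_sum]
    congr 1
    exact Finset.sum_congr rfl fun d _ => by ring
  rw [e2]
  refine (Finset.abs_sum_le_sum_abs _ _).trans ((Finset.sum_le_sum fun d _ => (h d).2).trans
    (le_of_eq ?_))
  rw [Finset.sum_add_distrib, ← Finset.mul_sum, ← Finset.sum_mul, ← Finset.sum_mul, ← Finset.sum_mul,
    ← Finset.mul_sum]

/-! ### each species its contour -/

/-- the transported density has total mass zero -/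
theorem Bf_int (B : SeaCB) : ∃ C : ℝ, 1 ≤ C ∧ ∀ [SeaC] [SeaCU B], ∀ {s ε M b : ℝ} {e η η1 : ℝ → ℝ},
    0 ≤ s → C * ε ≤ 1 → Cur s ε M b e η → (∀ t, HasDerivAt η (η1 t) t) →
    ∫ t, Bf s (gD η) (gD1 η η1) t = 0 := by
  obtain ⟨C1, h1, H1⟩ := Cur_disp B
  obtain ⟨C2, h2, H2⟩ := Disp_path B
  have hh := B.r0
  have hl := l_pos
  refine ⟨1 + C1 / B.r, by
    have : 0 ≤ C1 / B.r := by positivity
    linarith, @fun _ hS s ε M b e η η1 hs hε hcur hd => ?_⟩
  have hε0 := hcur.ε0
  obtain ⟨η2, hD, -⟩ := H1 hs hcur hd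
  have hq : C1 * ε ≤ B.r := by
    have h3 : C1 / B.r * ε ≤ 1 := by nlinarith
    have h4 : C1 / B.r * ε * B.r = C1 * ε := by field_simp
    nlinarith
  have hp := (H2 hD hq).1
  have he : SExt (-B.h) (l / 4) (fun _ : ℂ => (1:ℂ)) :=
    SExt_of_lin (K := 1) (fun z _ _ => differentiableAt_const _) (fun z _ _ => by
      rw [norm_one, one_mul]
      have := abs_nonneg z.re
      linarith)
  have S : Str B (-B.h) (l / 4) := ⟨le_rfl, neg_le_neg B.dh', B.top_l4, le_rfl⟩
  obtain ⟨i1, e1⟩ := cv_gen B s S hp he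
  simp only [mul_one] at i1 e1
  have i2 : Integrable fun t : ℝ => ((s * P t : ℝ) : ℂ) := ((P_int B).const_mul s).ofReal
  have e2 : ∀ t, Bf s (gD η) (gD1 η η1) t =
      (s : ℂ) * (Pc (zt (gD η) t) * zd (gD1 η η1) t) - ((s * P t : ℝ) : ℂ) := fun t => rfl
  simp_rw [e2]
  rw [integral_sub i1 i2, e1, sub_self]

/-- Lipschitz bound inside the strip from a growth bound -/
theorem lip_stripS {F : ℂ → ℂ} {lo hi G r : ℝ} (hr : 0 < r) (hr1 : r ≤ 1)
    (hF : ∀ z : ℂ, lo ≤ z.im → z.im ≤ hi → DifferentiableAt ℂ F z)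
    (hG : ∀ z w : ℂ, lo ≤ z.im → z.im ≤ hi → lo ≤ w.im → w.im ≤ hi → ‖F z - F w‖ ≤ G * (1 + ‖z - w‖))
    {z w : ℂ} (hz : lo + r ≤ z.im) (hz' : z.im ≤ hi - r) (hw : lo + r ≤ w.im) (hw' : w.im ≤ hi - r) :
    ‖F z - F w‖ ≤ 4 * G / r * ‖z - w‖ := by
  have hG0 : 0 ≤ G := by
    have h0 := (norm_nonneg _).trans (hG z z (by linarith) (by linarith) (by linarith) (by linarith))
    simpa using h0
  have hd : ∀ z : ℂ, lo + r ≤ z.im → z.im ≤ hi - r → ‖deriv F z‖ ≤ 4 * G / r := by
    intro z hz hz'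
    have him : ∀ w ∈ Metric.closedBall z (r / 2), lo ≤ w.im ∧ w.im ≤ hi := by
      intro w hw
      rw [Metric.mem_closedBall, dist_eq_norm] at hw
      have h1 := abs_le.1 ((Complex.abs_im_le_norm (w - z)).trans hw)
      rw [Complex.sub_im] at h1
      constructor <;> linarith [h1.1, h1.2]
    have h1 : DiffContOnCl ℂ (fun w => F w - F z) (Metric.ball z (r / 2)) := by
      refine DifferentiableOn.diffContOnCl fun w hw => ?_
      rw [closure_ball z (by positivity)] at hw
      exact ((hF w (him w hw).1 (him w hw).2).sub_const _).differentiableWithinAt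
    have h2 := Complex.norm_deriv_le_of_forall_mem_sphere_norm_le (c := z) (R := r / 2)
      (C := 2 * G) (by positivity) h1 (fun w hw => by
        have hw' : ‖w - z‖ = r / 2 := by rwa [mem_sphere_iff_norm] at hw
        have hw2 := him w (Metric.sphere_subset_closedBall hw)
        refine (hG w z hw2.1 hw2.2 (by linarith) (by linarith)).trans ?_
        rw [hw']
        nlinarith)
    have h3 : deriv (fun w => F w - F z) z = deriv F z := by
      rw [deriv_sub_const]
    rw [h3] at h2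
    refine h2.trans (le_of_eq ?_)
    field_simp
    ring
  have hcv : Convex ℝ {z : ℂ | lo + r ≤ z.im ∧ z.im ≤ hi - r} := by
    have e : {z : ℂ | lo + r ≤ z.im ∧ z.im ≤ hi - r} = Complex.imLm ⁻¹' (Icc (lo + r) (hi - r)) := by
      ext z
      simp
    rw [e]
    exact (convex_Icc _ _).linear_preimage _
  exact hcv.norm_image_sub_le_of_norm_deriv_le (f := F)
    (fun x hx => hF x (by linarith [hx.1]) (by linarith [hx.2]))
    (fun x hx => hd x hx.1 hx.2) ⟨hw, hw'⟩ ⟨hz, hz'⟩

/-- **external potentials against the densities of the two species**, each species on its own contour, the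
currents nearly equal -/
theorem exists_linSC (B : SeaCB) : ∃ C : ℝ, 1 ≤ C ∧ ∀ [SeaC] [SeaCU B], ∀ {s : Bool → ℝ} {ε M b : ℝ}
    {e : ℝ → ℝ} {η η1 : Bool → ℝ → ℝ}, (∀ a, 0 ≤ s a) → C * ε ≤ 1 → (∀ a, Cur (s a) ε M b e (η a)) →
    (∀ a t, HasDerivAt (η a) (η1 a t) t) → Com M s e η η1 → 0 ≤ b →
    ∀ {δ : Type*} [Fintype δ] {lo hi A G r : ℝ} {κ a φ τ : δ → ℝ} {Ψ : δ → ℂ → ℂ} {F : Bool → ℂ → ℂ},
      0 < r → r ≤ 1 → lo + C * ε + r ≤ -B.d → B.top + C * ε + r ≤ hi →
      (∀ d, SAsy lo hi (κ d) 0 (a d) (φ d) (τ d) (Ψ d)) →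
      (∀ d (z : ℂ), lo ≤ z.im → z.im ≤ hi → DifferentiableAt ℂ (Ψ d) z) →
      (∀ x (z : ℂ), lo ≤ z.im → z.im ≤ hi → DifferentiableAt ℂ (F x) z) →
      (∀ x (z w : ℂ), lo ≤ z.im → z.im ≤ hi → lo ≤ w.im → w.im ≤ hi →
        ‖F x z - F x w‖ ≤ G * (1 + ‖z - w‖)) →
      (∀ z : ℂ, lo ≤ z.im → z.im ≤ hi → F true z + F false z = ∑ d, Ψ d z) →
      (∀ t, |hd (s true) (η true) (η1 true) t| ≤ A) →
      (∀ x, Integrable fun t => Bf (s x) (gD (η x)) (gD1 (η x) (η1 x)) t * F x (zt (gD (η x)) t)) ∧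
      |-(∑ x, ∫ t, Bf (s x) (gD (η x)) (gD1 (η x) (η1 x)) t * F x (zt (gD (η x)) t)).re +
          2 * ∑ d, φ d * (s true * P (τ d) * η true (τ d))| ≤
        C * ((∑ d, κ d) * A) + C * (∑ d, (|a d| + |φ d| + κ d)) * (b + 1) * (M * ε) +
          C * (b + 1) ^ 2 * (G / r) * (M * ε) := by
  obtain ⟨C1, hC1, H1⟩ := exists_linC_sum B
  obtain ⟨C2, hC2, H2⟩ := exists_BB B
  obtain ⟨C3, hC3, H3⟩ := exists_com B
  obtain ⟨C4, hC4, H4⟩ := Bf_int B
  obtain ⟨CP, hCP, HP⟩ := P_le B
  refine ⟨C1 + C4 + 6 * (C3 * CP + 2 * C2) + 32 * C2, by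
    have : 0 < C3 * CP := by positivity
    linarith, @fun _ hS s ε M b e η η1 hs hε hcur h1 hcom hb δ _ lo hi A G r κ a φ τ Ψ F hr hr1 hlo hhi
      hΨ hΨd hF hG hsum hA => ?_⟩
  obtain ⟨C, hC⟩ : ∃ C : ℝ, C = C1 + C4 + 6 * (C3 * CP + 2 * C2) + 32 * C2 := ⟨_, rfl⟩
  rw [← hC] at hε hlo hhi ⊢
  have hε0 : 0 ≤ ε := (hcur true).ε0
  have hCPp : 0 < C3 * CP := by positivity
  have g1' : C1 * ε ≤ 1 := (mul_le_mul_of_nonneg_right (by linarith) hε0).trans hε
  have g2' : C2 * ε ≤ 1 := (mul_le_mul_of_nonneg_right (by linarith) hε0).trans hε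
  have g4' : C4 * ε ≤ 1 := (mul_le_mul_of_nonneg_right (by linarith) hε0).trans hε
  have hεC : ε ≤ C * ε := le_mul_of_one_le_left hε0 (by linarith)
  have hε1 : ε ≤ 1 := hεC.trans hε
  have hBB := fun x => H2 (hs x) g2' (hcur x) (h1 x)
  have hM0 : 0 ≤ M := (hcur true).M0 B (hs true)
  have hMε : 0 ≤ M * ε := mul_nonneg hM0 hε0
  have hl := l_pos
  have hBd := B.d0
  have hBt := B.top0
  have hG0 : 0 ≤ G := by
    have h0 := (norm_nonneg _).trans (hG true 0 0 (by simp; linarith) (by simp; linarith)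
      (by simp; linarith) (by simp; linarith))
    simpa using h0
  have hη : ∀ x t, |η x t| ≤ ε := fun x t => (lc_le (hcur x) t).trans ((hcur x).le t)
  have hzr : ∀ x t, lo + r ≤ (zt (gD (η x)) t).im ∧ (zt (gD (η x)) t).im ≤ hi - r := fun x t =>
    zt_gD_strip B (hη x) (by linarith) (by linarith) t
  have hz : ∀ x t, lo ≤ (zt (gD (η x)) t).im ∧ (zt (gD (η x)) t).im ≤ hi := fun x t =>
    ⟨by linarith [(hzr x t).1], by linarith [(hzr x t).2]⟩
  have hζc : ∀ x, Continuous (zt (gD (η x))) := fun x => zt_gD_cont (h1 x)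
  have hFc : ∀ x y, Continuous fun t => F x (zt (gD (η y)) t) := fun x y =>
    continuous_iff_continuousAt.2 fun t =>
      (hF x _ (hz y t).1 (hz y t).2).continuousAt.comp (hζc y).continuousAt
  have iB : ∀ x, Integrable (Bf (s x) (gD (η x)) (gD1 (η x) (η1 x))) := fun x =>
    int_suppL (hBB x).cont (hBB x).supp
  have i0 : ∀ x y z, Integrable fun t => Bf (s y) (gD (η y)) (gD1 (η y) (η1 y)) t *
      F x (zt (gD (η z)) t) :=
    fun x y z => int_suppL ((hBB y).cont.mul (hFc x z)) fun t ht => by rw [(hBB y).supp t ht, zero_mul]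
  refine ⟨fun x => i0 x x x, ?_⟩
  have m1 := H1 (hs true) g1' (hcur true) (h1 true) hb (lo := lo) (hi := hi) (by linarith)
    (by linarith) hΨ hΨd hA
  have e1 : (∫ t, Bf (s true) (gD (η true)) (gD1 (η true) (η1 true)) t *
      ∑ d, Ψ d (zt (gD (η true)) t)) =
      (∫ t, Bf (s true) (gD (η true)) (gD1 (η true) (η1 true)) t * F true (zt (gD (η true)) t)) +
      ∫ t, Bf (s true) (gD (η true)) (gD1 (η true) (η1 true)) t * F false (zt (gD (η true)) t) := by
    rw [← integral_add (i0 true true true) (i0 false true true)]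
    congr 1
    funext t
    rw [← hsum _ (hz true t).1 (hz true t).2]
    ring
  -- the difference
  obtain ⟨c0, hc0⟩ : ∃ c0 : ℂ, c0 = F false 0 := ⟨_, rfl⟩
  have e2 : (∫ t, Bf (s false) (gD (η false)) (gD1 (η false) (η1 false)) t *
        F false (zt (gD (η false)) t)) -
      (∫ t, Bf (s true) (gD (η true)) (gD1 (η true) (η1 true)) t * F false (zt (gD (η true)) t)) =
      (∫ t, (Bf (s false) (gD (η false)) (gD1 (η false) (η1 false)) t -
        Bf (s true) (gD (η true)) (gD1 (η true) (η1 true)) t) *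
        (F false (zt (gD (η false)) t) - c0)) +
      ∫ t, Bf (s true) (gD (η true)) (gD1 (η true) (η1 true)) t *
        (F false (zt (gD (η false)) t) - F false (zt (gD (η true)) t)) := by
    have j1 : Integrable fun t => (Bf (s false) (gD (η false)) (gD1 (η false) (η1 false)) t -
        Bf (s true) (gD (η true)) (gD1 (η true) (η1 true)) t) *
          (F false (zt (gD (η false)) t) - c0) := by
      have := ((i0 false false false).sub (i0 false true false)).sub
        (((iB false).sub (iB true)).mul_const c0)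
      refine this.congr (Eventually.of_forall fun t => ?_)
      simp only [Pi.sub_apply]
      ring
    have j2 : Integrable fun t => Bf (s true) (gD (η true)) (gD1 (η true) (η1 true)) t *
        (F false (zt (gD (η false)) t) - F false (zt (gD (η true)) t)) := by
      refine ((i0 false true false).sub (i0 false true true)).congr (Eventually.of_forall fun t => ?_)
      simp only [Pi.sub_apply]
      ring
    have z0 := H4 (hs false) g4' (hcur false) (h1 false)
    have z1 := H4 (hs true) g4' (hcur true) (h1 true)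
    have e3 : (∫ t, (Bf (s false) (gD (η false)) (gD1 (η false) (η1 false)) t -
        Bf (s true) (gD (η true)) (gD1 (η true) (η1 true)) t) * c0) = 0 := by
      rw [integral_mul_const, integral_sub (iB false) (iB true), z0, z1, sub_self, zero_mul]
    have jz : Integrable fun t => (Bf (s false) (gD (η false)) (gD1 (η false) (η1 false)) t -
        Bf (s true) (gD (η true)) (gD1 (η true) (η1 true)) t) * c0 :=
      ((iB false).sub (iB true)).mul_const c0
    have j12 : Integrable fun t => (Bf (s false) (gD (η false)) (gD1 (η false) (η1 false)) t -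
        Bf (s true) (gD (η true)) (gD1 (η true) (η1 true)) t) *
          (F false (zt (gD (η false)) t) - c0) +
        Bf (s true) (gD (η true)) (gD1 (η true) (η1 true)) t *
          (F false (zt (gD (η false)) t) - F false (zt (gD (η true)) t)) := j1.add j2
    have e4 : ∀ t, Bf (s false) (gD (η false)) (gD1 (η false) (η1 false)) t *
          F false (zt (gD (η false)) t) -
        Bf (s true) (gD (η true)) (gD1 (η true) (η1 true)) t * F false (zt (gD (η true)) t) =
        ((Bf (s false) (gD (η false)) (gD1 (η false) (η1 false)) t -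
          Bf (s true) (gD (η true)) (gD1 (η true) (η1 true)) t) *
          (F false (zt (gD (η false)) t) - c0) +
        Bf (s true) (gD (η true)) (gD1 (η true) (η1 true)) t *
          (F false (zt (gD (η false)) t) - F false (zt (gD (η true)) t))) +
        (Bf (s false) (gD (η false)) (gD1 (η false) (η1 false)) t -
          Bf (s true) (gD (η true)) (gD1 (η true) (η1 true)) t) * c0 := by
      intro t
      ring
    rw [← integral_sub (i0 false false false) (i0 false true true),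
      integral_congr_ae (Eventually.of_forall e4), integral_add j12 jz, integral_add j1 j2, e3,
      add_zero]
  -- sizes
  have hP1 : ∀ t, P t ≤ CP := by
    intro t
    refine (HP t).trans ?_
    have : Real.exp (-(8 / 3) * |t|) ≤ 1 := by
      rw [Real.exp_le_one_iff]
      have := abs_nonneg t
      linarith
    nlinarith
  have d1 : ∀ t, ‖Bf (s false) (gD (η false)) (gD1 (η false) (η1 false)) t -
      Bf (s true) (gD (η true)) (gD1 (η true) (η1 true)) t‖ ≤ (C3 * CP + 2 * C2) * (M * ε) := by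
    intro t
    rw [B_eq B, B_eq B]
    have e3 : ((hd (s false) (η false) (η1 false) t : ℂ) * I +
          Br (s false) (gD (η false)) (gD1 (η false) (η1 false)) t) -
        ((hd (s true) (η true) (η1 true) t : ℂ) * I +
          Br (s true) (gD (η true)) (gD1 (η true) (η1 true)) t) =
        ((hd (s false) (η false) (η1 false) t - hd (s true) (η true) (η1 true) t : ℝ) : ℂ) * I +
        (Br (s false) (gD (η false)) (gD1 (η false) (η1 false)) t -
          Br (s true) (gD (η true)) (gD1 (η true) (η1 true)) t) := by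
      push_cast
      ring
    rw [e3]
    refine (norm_add_le _ _).trans ?_
    rw [norm_mul, Complex.norm_I, mul_one, Complex.norm_real, Real.norm_eq_abs]
    have g1 := (H3 hcom false t).2
    have g2 := (hBB false).rle t
    have g3 := (hBB true).rle t
    have g4 := norm_sub_le (Br (s false) (gD (η false)) (gD1 (η false) (η1 false)) t)
      (Br (s true) (gD (η true)) (gD1 (η true) (η1 true)) t)
    have g5 : C3 * (M * (P t * e t)) ≤ C3 * CP * (M * ε) := by
      have a1 : P t * e t ≤ CP * ε :=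
        mul_le_mul (hP1 t) ((hcur true).le t) ((hcur true).nonneg t) hCP.le
      calc C3 * (M * (P t * e t)) ≤ C3 * (M * (CP * ε)) := by gcongr
        _ = _ := by ring
    linarith
  have hl1 : 3 / 50 * l ≤ 1 := by
    unfold NUMF.l
    have := Real.pi_le_four
    linarith
  have d2 : ∀ t, |t| ≤ b → ‖F false (zt (gD (η false)) t) - c0‖ ≤ G * (b + 3 + 1) := by
    intro t ht
    rw [hc0]
    refine (hG false _ _ (hz false t).1 (hz false t).2 (by simp; linarith) (by simp; linarith)).trans ?_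
    refine mul_le_mul_of_nonneg_left ?_ hG0
    rw [sub_zero]
    have g1 := norm_add_le (ga t) (gD (η false) t)
    have g2 := norm_gD_le (η false) t
    have g3 := hη false t
    have g4 : ‖ga t‖ ≤ |t| + 1 := by
      have := Complex.norm_le_abs_re_add_abs_im (ga t)
      rw [ga_re, ga_im] at this
      linarith [eta_abs1 t]
    have g5 : zt (gD (η false)) t = ga t + gD (η false) t := rfl
    rw [g5]
    linarith
  have d3 : ∀ t, ‖F false (zt (gD (η false)) t) - F false (zt (gD (η true)) t)‖ ≤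
      4 * G / r * (4 * ε) := by
    intro t
    refine (lip_stripS hr hr1 (hF false) (hG false) (hzr false t).1 (hzr false t).2 (hzr true t).1
      (hzr true t).2).trans ?_
    have g0 : 0 ≤ 4 * G / r := by positivity
    refine mul_le_mul_of_nonneg_left ?_ g0
    have g1 : zt (gD (η false)) t - zt (gD (η true)) t = gD (η false) t - gD (η true) t := by
      unfold zt
      ring
    rw [g1]
    refine (norm_sub_le _ _).trans ?_
    have g3 := hη false t
    have g4 := hη true t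
    linarith [norm_gD_le (η false) t, norm_gD_le (η true) t]
  have b1 := int_suppL_le hb (f := fun t => (Bf (s false) (gD (η false)) (gD1 (η false) (η1 false)) t -
      Bf (s true) (gD (η true)) (gD1 (η true) (η1 true)) t) * (F false (zt (gD (η false)) t) - c0))
    (c := (C3 * CP + 2 * C2) * (M * ε) * (G * (b + 3 + 1)))
    (fun t ht => by simp only [(hBB false).supp t ht, (hBB true).supp t ht, sub_zero, zero_mul])
    (fun t ht => by
      rw [norm_mul]
      exact mul_le_mul (d1 t) (d2 t ht) (norm_nonneg _) (by positivity))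
  have b2 := int_suppL_le hb (f := fun t => Bf (s true) (gD (η true)) (gD1 (η true) (η1 true)) t *
        (F false (zt (gD (η false)) t) - F false (zt (gD (η true)) t)))
    (c := C2 * M * (4 * G / r * (4 * ε)))
    (fun t ht => by simp only [(hBB true).supp t ht, zero_mul])
    (fun t ht => by
      rw [norm_mul]
      exact mul_le_mul ((hBB true).le t) (d3 t) (norm_nonneg _) (by positivity))
  -- conclusion
  obtain ⟨X, hX⟩ : ∃ X : ℂ, X = (∫ t, Bf (s false) (gD (η false)) (gD1 (η false) (η1 false)) t *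
      F false (zt (gD (η false)) t)) - (∫ t, Bf (s true) (gD (η true)) (gD1 (η true) (η1 true)) t *
      F false (zt (gD (η true)) t)) := ⟨_, rfl⟩
  have b3 : ‖X‖ ≤ (6 * (C3 * CP + 2 * C2) + 32 * C2) * (b + 1) ^ 2 * (G / r) * (M * ε) := by
    rw [hX, e2]
    refine (norm_add_le _ _).trans ((add_le_add b1 b2).trans ?_)
    have g1 : G ≤ G / r := by
      rw [le_div_iff₀ hr]
      nlinarith
    have g2 : 0 ≤ G / r := by positivity
    have g3 : 0 ≤ C3 * CP + 2 * C2 := by positivity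
    have k1 : (C3 * CP + 2 * C2) * (M * ε) * (G * (b + 3 + 1)) * (2 * b) ≤
        6 * (C3 * CP + 2 * C2) * (b + 1) ^ 2 * (G / r) * (M * ε) := by
      have q1 : (b + 3 + 1) * (2 * b) ≤ 6 * (b + 1) ^ 2 := by nlinarith [sq_nonneg (b - 1)]
      calc (C3 * CP + 2 * C2) * (M * ε) * (G * (b + 3 + 1)) * (2 * b) =
          (C3 * CP + 2 * C2) * (M * ε) * (G * ((b + 3 + 1) * (2 * b))) := by ring
        _ ≤ (C3 * CP + 2 * C2) * (M * ε) * (G / r * (6 * (b + 1) ^ 2)) := by gcongr
        _ = _ := by ring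
    have k2 : C2 * M * (4 * G / r * (4 * ε)) * (2 * b) ≤
        32 * C2 * (b + 1) ^ 2 * (G / r) * (M * ε) := by
      have q1 : b ≤ (b + 1) ^ 2 := by nlinarith
      calc C2 * M * (4 * G / r * (4 * ε)) * (2 * b) = 32 * C2 * b * (G / r) * (M * ε) := by ring
        _ ≤ 32 * C2 * (b + 1) ^ 2 * (G / r) * (M * ε) := by gcongr
    linarith
  have b4 : |X.re| ≤ (6 * (C3 * CP + 2 * C2) + 32 * C2) * (b + 1) ^ 2 * (G / r) * (M * ε) :=
    (Complex.abs_re_le_norm _).trans b3
  rw [e1] at m1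
  have e5 : (∑ x, ∫ t, Bf (s x) (gD (η x)) (gD1 (η x) (η1 x)) t * F x (zt (gD (η x)) t)) =
      ((∫ t, Bf (s true) (gD (η true)) (gD1 (η true) (η1 true)) t * F true (zt (gD (η true)) t)) +
      ∫ t, Bf (s true) (gD (η true)) (gD1 (η true) (η1 true)) t * F false (zt (gD (η true)) t)) +
        X := by
    rw [Fintype.sum_bool, hX]
    ring
  rw [e5, Complex.add_re]
  obtain ⟨Y, hY⟩ : ∃ Y : ℝ, Y = ((∫ t, Bf (s true) (gD (η true)) (gD1 (η true) (η1 true)) t *
      F true (zt (gD (η true)) t)) + ∫ t, Bf (s true) (gD (η true)) (gD1 (η true) (η1 true)) t *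
      F false (zt (gD (η true)) t)).re := ⟨_, rfl⟩
  rw [← hY] at m1 ⊢
  obtain ⟨N, hN⟩ : ∃ N : ℝ, N = ∑ d, (|a d| + |φ d| + κ d) := ⟨_, rfl⟩
  rw [← hN] at m1 ⊢
  have hk0 : ∀ d, 0 ≤ κ d := fun d => (sasy_le (hΨ d) (z := 0) (by simp; linarith)
    (by simp; linarith)).2.2
  have hN0 : 0 ≤ N := by
    rw [hN]
    exact Finset.sum_nonneg fun d _ => by
      have := hk0 d
      positivity
  have hKA : 0 ≤ (∑ d, κ d) * A :=
    mul_nonneg (Finset.sum_nonneg fun d _ => hk0 d) ((abs_nonneg _).trans (hA 0))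
  have k3 : C1 * N * (b + 1) * (M * ε) ≤ C * N * (b + 1) * (M * ε) := by
    have : C1 ≤ C := by linarith
    gcongr
  have k4 : (6 * (C3 * CP + 2 * C2) + 32 * C2) * (b + 1) ^ 2 * (G / r) * (M * ε) ≤
      C * (b + 1) ^ 2 * (G / r) * (M * ε) := by
    have : 6 * (C3 * CP + 2 * C2) + 32 * C2 ≤ C := by linarith
    gcongr
  have k5 : C1 * ((∑ d, κ d) * A) ≤ C * ((∑ d, κ d) * A) :=
    mul_le_mul_of_nonneg_right (by linarith) hKA
  rw [abs_le] at m1 b4 ⊢
  constructor <;> linarith [m1.1, m1.2, b4.1, b4.2]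

end

end PLT.Cv
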