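import Pool.Agent.PLT.SeaO
import Pool.Agent.PLX.NUSea.H0.LinC
import Pool.Agent.NUSea.Inst

/-!
# The linear term of a potential on the displaced static curve

Curve `zt (gD η) t = ga t + I η ga'` (`Cur s ε M b e η`), current `h = s P η`.

* `cur_path`: it is a path of the strip `- B.h ≤ Im z ≤ 7 l / 100`;
* **`exists_linL`**: for `Ψ = a ± i φ + O(κ e^{-2|Re z - τ|})` in `|Im z| < 9 l / 100`:
  `s ∫ P Re Ψ(ζ) = s ∫ P Re Ψ(ga t) - 2 φ h(τ) + O((|φ| + κ) sup |h'|) + O((|a| + |φ| + κ) b M ε)`.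
-/

set_option autoImplicit false
set_option linter.unusedSectionVars false
set_option linter.unusedVariables false

open MeasureTheory Set Filter Topology Complex
open scoped ContDiff

namespace PLT.Cv

open NUMF (l l_pos)
open NUSp (Asy)
open NUKer (iD)

noncomputable section

attribute [local instance] NUSea.seaP in
private theorem jumpL {h h' : ℝ → ℝ} {b τ : ℝ} (hd : ∀ t, HasDerivAt h (h' t) t)
    (hc : Continuous h') (h0 : ∀ t, b < |t| → h t = 0) (hb : 0 ≤ b) :
    ∫ t, h' t * (if τ ≤ t then (1:ℝ) else -1) = -2 * h τ :=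
  NUSea.PLX.H0.jump hd hc h0 hb

attribute [local instance] NUSea.seaP in
private theorem asyL {B κ a φ τ : ℝ} {Ψ : ℂ → ℂ} (h : Asy B κ 0 a φ τ Ψ) {z : ℂ}
    (hz : |z.im| < B) :
    |(Ψ z).im - φ * (if τ ≤ z.re then (1:ℝ) else -1)| ≤ κ * Real.exp (-2 * |z.re - τ|) ∧
    ‖Ψ z‖ ≤ |a| + |φ| + κ :=
  NUSea.PLX.H0.asy_le h hz

private theorem e2L (τ : ℝ) : Integrable (fun t : ℝ => Real.exp (-2 * |t - τ|)) ∧
    ∫ t : ℝ, Real.exp (-2 * |t - τ|) = 1 := by
  have h := NUDispW.int_exp_abs (c := 2) (by norm_num) τ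
  have e : (fun t : ℝ => Real.exp (-2 * |t - τ|)) = fun x => Real.exp (-(2 * |x - τ|)) := by
    funext t; ring_nf
  rw [e]
  exact ⟨h.1, h.2.trans (by norm_num)⟩

private theorem signL {κ φ τ t r y : ℝ} (hk : 0 ≤ κ) (hr : |r - t| ≤ 1)
    (q1 : |y - φ * (if τ ≤ r then (1:ℝ) else -1)| ≤ κ * Real.exp (-2 * |r - τ|)) :
    |y - φ * (if τ ≤ t then (1:ℝ) else -1)| ≤ 20 * (|φ| + κ) * Real.exp (-2 * |t - τ|) := by
  have hφ := abs_nonneg φ
  have t1 : |t - τ| ≤ |r - τ| + 1 := by
    have := abs_sub_le t r τ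
    rw [abs_sub_comm t r] at this
    linarith
  have h9 : Real.exp 2 ≤ 9 := by
    have h2 := Real.exp_one_lt_d9
    have h3 : Real.exp 2 = Real.exp 1 * Real.exp 1 := by rw [← Real.exp_add]; norm_num
    have h4 := Real.exp_pos 1
    rw [h3]
    nlinarith
  have he : Real.exp (-2 * |r - τ|) ≤ 9 * Real.exp (-2 * |t - τ|) := by
    calc Real.exp (-2 * |r - τ|) ≤ Real.exp (2 + -2 * |t - τ|) :=
          Real.exp_le_exp.2 (by linarith)
      _ = Real.exp 2 * Real.exp (-2 * |t - τ|) := Real.exp_add _ _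
      _ ≤ _ := mul_le_mul_of_nonneg_right h9 (Real.exp_pos _).le
  have hE := Real.exp_pos (-2 * |t - τ|)
  have h8 := mul_le_mul_of_nonneg_left he hk
  have h10 := mul_nonneg hφ hE.le
  have h11 := mul_nonneg hk hE.le
  rcases le_or_gt |t - τ| 1 with h3 | h3
  · have h4 : |y - φ * (if τ ≤ t then (1:ℝ) else -1)| ≤
        κ * Real.exp (-2 * |r - τ|) + 2 * |φ| := by
      have h5 : y - φ * (if τ ≤ t then (1:ℝ) else -1) =
          (y - φ * (if τ ≤ r then (1:ℝ) else -1)) +
            φ * ((if τ ≤ r then (1:ℝ) else -1) - (if τ ≤ t then (1:ℝ) else -1)) := by ring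
      rw [h5]
      refine (abs_add_le _ _).trans (add_le_add q1 ?_)
      rw [abs_mul, mul_comm]
      refine mul_le_mul_of_nonneg_right ?_ hφ
      split_ifs <;> norm_num
    have h6 : (1 : ℝ) / 9 ≤ Real.exp (-2 * |t - τ|) := by
      have h7 : Real.exp (-2) ≤ Real.exp (-2 * |t - τ|) := Real.exp_le_exp.2 (by linarith)
      refine le_trans ?_ h7
      rw [Real.exp_neg, ← one_div]
      exact one_div_le_one_div_of_le (Real.exp_pos _) h9
    have h7 : 2 * |φ| ≤ 18 * |φ| * Real.exp (-2 * |t - τ|) := by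
      have := mul_le_mul_of_nonneg_left h6 hφ
      linarith
    linarith
  · have h4 : (if τ ≤ r then (1:ℝ) else -1) = (if τ ≤ t then (1:ℝ) else -1) := by
      have h5 := abs_le.1 hr
      rcases le_or_gt τ t with h6 | h6
      · rw [abs_of_nonneg (by linarith)] at h3
        rw [if_pos h6, if_pos (by linarith)]
      · rw [abs_of_neg (by linarith)] at h3
        rw [if_neg (not_le.2 h6), if_neg (not_le.2 (by linarith))]
    rw [h4] at q1
    linarith

section

variable [SeaC] {s ε M b : ℝ} {e η η1 : ℝ → ℝ}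

private lemma curL_le (h : Cur s ε M b e η) (t : ℝ) : |η t| ≤ e t := by
  have := h.oc.le t
  rwa [iD, norm_mul, Complex.norm_I, mul_one, Complex.norm_real, Real.norm_eq_abs] at this

private lemma curL_out (h : Cur s ε M b e η) {t : ℝ} (ht : b < |t|) : η t = 0 := by
  have := curL_le h t
  rw [h.supp t ht] at this
  exact abs_nonpos_iff.1 this

private lemma gD_re (η : ℝ → ℝ) (t : ℝ) : (gD η t).re = -(η t * deriv eta t) := by
  unfold gD iD
  rw [mul_assoc, Complex.re_ofReal_mul, Complex.I_mul_re, ga'_im]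
  ring

private lemma gD_im (η : ℝ → ℝ) (t : ℝ) : (gD η t).im = η t := by
  unfold gD iD
  rw [mul_assoc, Complex.im_ofReal_mul, Complex.I_mul_im, ga'_re, mul_one]

private lemma zt_gD_im (η : ℝ → ℝ) (t : ℝ) : (zt (gD η) t).im = eta t + η t := by
  unfold zt
  rw [Complex.add_im, ga_im, gD_im]

private lemma zt_gD_re (η : ℝ → ℝ) (t : ℝ) : (zt (gD η) t).re = t - η t * deriv eta t := by
  unfold zt
  rw [Complex.add_re, ga_re, gD_re]
  ring

end

/-- the displaced curve is a path of a strip below `7 l / 100` -/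
theorem cur_path (B : SeaCB) : ∃ C : ℝ, 1 ≤ C ∧ ∀ [SeaC] [SeaCU B], ∀ {s ε M b : ℝ}
    {e η η1 : ℝ → ℝ}, 0 ≤ s → C * ε ≤ 1 → Cur s ε M b e η → (∀ t, HasDerivAt η (η1 t) t) →
    SPath (-B.h) (7 / 100 * l) (1 / 2) C (zt (gD η)) (zd (gD1 η η1)) ∧
    SPath (-B.h) (7 / 100 * l) 1 C ga ga' ∧ (∀ t, |η t| ≤ l / 100) ∧
    ∀ t, |(zt (gD η) t).re - t| ≤ 1 := by
  obtain ⟨C1, hC1, H1⟩ := Cur_disp B
  obtain ⟨C2, hC2, H2⟩ := Disp_path B
  obtain ⟨C3, hC3, H3⟩ := ga_path B
  have hl := l_pos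
  have hh := B.r0
  refine ⟨C2 + C3 + C1 / B.r + 100 / l + C1, by
    have : 0 ≤ C1 / B.r + 100 / l := by positivity
    linarith, @fun _ hS s ε M b e η η1 hs hε hc h1 => ?_⟩
  obtain ⟨δ2, hD, -⟩ := H1 hs hc h1
  have hε0 := hc.ε0
  have q1 : 0 ≤ C2 * ε := by positivity
  have q2 : 0 ≤ C3 * ε := by positivity
  have q3 : 0 ≤ C1 / B.r * ε := by positivity
  have q4 : 0 ≤ 100 / l * ε := by positivity
  have q5 : 0 ≤ C1 * ε := by positivity
  have k1 : C1 * ε ≤ B.r := by
    have h3 : C1 / B.r * ε ≤ 1 := by nlinarith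
    have h4 : C1 / B.r * ε * B.r = C1 * ε := by field_simp
    nlinarith
  have k2 : ε ≤ l / 100 := by
    have h3 : 100 / l * ε ≤ 1 := by nlinarith
    have h4 : 100 / l * ε * l = 100 * ε := by field_simp
    nlinarith
  have k3 : C1 * ε ≤ 1 := by nlinarith
  have hη : ∀ t, |η t| ≤ l / 100 := fun t => ((curL_le hc t).trans (hc.le t)).trans k2
  have hP := (H2 hD k1).1
  have hG := @H3 _ hS
  have hC2' : C2 ≤ C2 + C3 + C1 / B.r + 100 / l + C1 := by
    have : 0 ≤ C1 / B.r + 100 / l := by positivity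
    linarith
  have hC3' : C3 ≤ C2 + C3 + C1 / B.r + 100 / l + C1 := by
    have : 0 ≤ C1 / B.r + 100 / l := by positivity
    linarith
  refine ⟨{ hP with
      im_le := fun t => ?_
      dle := fun t => (hP.dle t).trans hC2'
      near := fun t => (hP.near t).trans hC2' }, { hG with
      im_ge := fun t => ?_
      im_le := fun t => ?_
      dle := fun t => (hG.dle t).trans hC3'
      near := fun t => (hG.near t).trans hC3' }, hη, fun t => ?_⟩
  · rw [zt_gD_im]
    have := (abs_le.1 (hη t)).2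
    linarith [eta_le t]
  · rw [ga_im]
    exact eta_h B t
  · rw [ga_im]
    linarith [eta_le t]
  · have e0 := hD.e0 t
    have e1 : (zt (gD η) t).re - t = (gD η t).re := by
      unfold zt
      rw [Complex.add_re, ga_re]
      ring
    rw [e1]
    exact (Complex.abs_re_le_norm _).trans (e0.trans k3)

/-- **the linear term of a potential on the displaced static curve** -/
theorem exists_linL (B : SeaCB) : ∃ C : ℝ, 1 ≤ C ∧ ∀ [SeaC] [SeaCU B], ∀ {s ε M b : ℝ}
    {e η η1 : ℝ → ℝ}, 0 ≤ s → C * ε ≤ 1 → Cur s ε M b e η → (∀ t, HasDerivAt η (η1 t) t) →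
    0 ≤ b → ∀ {κ a φ τ A : ℝ} {Ψ : ℂ → ℂ}, Asy (9 / 100 * l) κ 0 a φ τ Ψ →
      (∀ z : ℂ, |z.im| < 9 / 100 * l → DifferentiableAt ℂ Ψ z) → (∀ t, |hd s η η1 t| ≤ A) →
      Integrable (fun t => s * P t * (Ψ (zt (gD η) t)).re) ∧
      Integrable (fun t : ℝ => s * P t * (Ψ (ga t)).re) ∧
      |(∫ t, s * P t * (Ψ (zt (gD η) t)).re) - (∫ t : ℝ, s * P t * (Ψ (ga t)).re) +
          2 * φ * (s * P τ * η τ)| ≤
        C * ((|φ| + κ) * A) + C * (|a| + |φ| + κ) * b * (M * ε) := by
  obtain ⟨C0, hC0, H0⟩ := exists_BB B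
  obtain ⟨C1, hC1, H1⟩ := cur_path B
  refine ⟨2 * C0 + C1 + 20, by linarith, @fun _ hS s ε M b e η η1 hs hε hcur h1 hb κ a φ τ A Ψ
    hΨ hdiff hA => ?_⟩
  have hl := l_pos
  have hh := B.h0
  have hh1 := B.h1
  have hε0 := hcur.ε0
  have hεa : C0 * ε ≤ 1 := by nlinarith
  have hεb : C1 * ε ≤ 1 := by nlinarith
  have hBB := H0 hs hεa hcur h1
  obtain ⟨hP, hG, hη, hre⟩ := H1 hs hεb hcur h1
  obtain ⟨N, hN⟩ : ∃ N : ℝ, N = |a| + |φ| + κ := ⟨_, rfl⟩
  have hNb : ∀ z : ℂ, |z.im| < 9 / 100 * l → ‖Ψ z‖ ≤ N := fun z hz => by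
    rw [hN]; exact (asyL hΨ hz).2
  have hzim : ∀ z : ℂ, -B.h ≤ z.im → z.im ≤ 7 / 100 * l → |z.im| < 9 / 100 * l := fun z h2 h3 => by
    rw [abs_lt]; constructor <;> linarith
  have hz : ∀ t, |(zt (gD η) t).im| < 9 / 100 * l := fun t => hzim _ (hP.im_ge t) (hP.im_le t)
  have hg : ∀ t, |(ga t).im| < 9 / 100 * l := fun t => hzim _ (hG.im_ge t) (hG.im_le t)
  have hN0 : 0 ≤ N := (norm_nonneg _).trans (hNb 0 (by simp; positivity))
  have hk : 0 ≤ κ := by
    have h2 := (asyL hΨ (z := (τ : ℂ)) (by simp; positivity)).1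
    have h3 := (abs_nonneg _).trans h2
    rw [Complex.ofReal_re, sub_self, abs_zero, mul_zero, Real.exp_zero, mul_one] at h3
    exact h3
  have hM0 := hcur.M0 B hs
  have hMε : 0 ≤ M * ε := mul_nonneg hM0 hε0
  have hΨc : Continuous fun t => Ψ (zt (gD η) t) :=
    continuous_iff_continuousAt.2 fun t =>
      (hdiff _ (hz t)).continuousAt.comp (f := zt (gD η)) hP.continuous.continuousAt
  -- the contour
  have hdec : SDec (-B.h) (7 / 100 * l) (B.Cb 0 * N) (8 / 3) fun z => Pc z * Ψ z := by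
    refine ⟨fun z h2 h3 => ?_, fun z h2 h3 => ?_⟩
    · exact (Pc_diff B (by linarith) (by linarith)).mul (hdiff z (hzim z h2 h3))
    · have h4 := SeaCU.bd (B := B) 0 z h2 (by linarith)
      rw [iteratedDeriv_zero] at h4
      rw [norm_mul]
      have h5 := mul_le_mul h4 (hNb z (hzim z h2 h3)) (norm_nonneg _) (by
        have := B.Cb0 0
        positivity)
      refine h5.trans (le_of_eq ?_)
      ring
  obtain ⟨p1, -, -⟩ := hP.shift (by norm_num) hdec
  obtain ⟨p2, -, -⟩ := hG.shift (by norm_num) hdec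
  have p3 := hP.shift2 hG (by norm_num) hdec
  -- compact supports
  have hcs : ∀ {f : ℝ → ℂ}, Continuous f → (∀ t, b < |t| → f t = 0) → Integrable f := by
    intro f hf h0
    refine hf.integrable_of_hasCompactSupport ?_
    refine HasCompactSupport.of_support_subset_isCompact (isCompact_Icc (a := -b) (b := b)) ?_
    intro t ht
    by_contra hh
    exact ht (h0 t (by
      by_contra h2
      exact hh (abs_le.1 (not_lt.1 h2))))
  have i0 : Integrable (fun t => Bf s (gD η) (gD1 η η1) t * Ψ (zt (gD η) t)) :=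
    hcs (hBB.cont.mul hΨc) fun t ht => by rw [hBB.supp t ht, zero_mul]
  have i1 : Integrable (fun t => ((hd s η η1 t : ℂ) * I) * Ψ (zt (gD η) t)) :=
    hcs (((Complex.continuous_ofReal.comp hBB.hc).mul continuous_const).mul hΨc) fun t ht => by
      rw [hBB.hsupp t ht]; simp
  have i2 : Integrable (fun t => Br s (gD η) (gD1 η η1) t * Ψ (zt (gD η) t)) :=
    hcs (hBB.rc.mul hΨc) fun t ht => by rw [hBB.rsupp t ht, zero_mul]
  -- the identity
  have e1 : ∀ t, ((s * P t : ℝ) : ℂ) * Ψ (zt (gD η) t) =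
      (s : ℂ) * (Pc (zt (gD η) t) * Ψ (zt (gD η) t) * zd (gD1 η η1) t) -
        Bf s (gD η) (gD1 η η1) t * Ψ (zt (gD η) t) := by
    intro t
    unfold Bf
    ring
  have e2 : ∀ t : ℝ, ((s * P t : ℝ) : ℂ) * Ψ (ga t) =
      (s : ℂ) * (Pc (ga t) * Ψ (ga t) * ga' t) := by
    intro t
    rw [Complex.ofReal_mul, ← Pc_ga]
    ring
  have j1 : Integrable fun t => ((s * P t : ℝ) : ℂ) * Ψ (zt (gD η) t) := by
    simp_rw [e1]
    exact (p1.const_mul _).sub i0
  have j2 : Integrable fun t : ℝ => ((s * P t : ℝ) : ℂ) * Ψ (ga t) := by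
    simp_rw [e2]
    exact p2.const_mul _
  have e3 : (∫ t, ((s * P t : ℝ) : ℂ) * Ψ (zt (gD η) t)) =
      (∫ t : ℝ, ((s * P t : ℝ) : ℂ) * Ψ (ga t)) -
        ∫ t, Bf s (gD η) (gD1 η η1) t * Ψ (zt (gD η) t) := by
    simp_rw [e1, e2]
    rw [integral_sub (p1.const_mul _) i0, integral_const_mul, integral_const_mul, p3]
  have k1 : Integrable fun t => s * P t * (Ψ (zt (gD η) t)).re := by
    refine j1.re.congr (Eventually.of_forall fun t => ?_)
    simp only [RCLike.re_to_complex]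
    rw [Complex.re_ofReal_mul]
  have k2 : Integrable fun t : ℝ => s * P t * (Ψ (ga t)).re := by
    refine j2.re.congr (Eventually.of_forall fun t => ?_)
    simp only [RCLike.re_to_complex]
    rw [Complex.re_ofReal_mul]
  refine ⟨k1, k2, ?_⟩
  have r1 : (∫ t, ((s * P t : ℝ) : ℂ) * Ψ (zt (gD η) t)).re =
      ∫ t, s * P t * (Ψ (zt (gD η) t)).re := by
    have := integral_re j1
    simp only [RCLike.re_to_complex] at this
    rw [← this]
    refine integral_congr_ae (Eventually.of_forall fun t => ?_)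
    simp only
    rw [Complex.re_ofReal_mul]
  have r2 : (∫ t : ℝ, ((s * P t : ℝ) : ℂ) * Ψ (ga t)).re =
      ∫ t : ℝ, s * P t * (Ψ (ga t)).re := by
    have := integral_re j2
    simp only [RCLike.re_to_complex] at this
    rw [← this]
    refine integral_congr_ae (Eventually.of_forall fun t => ?_)
    simp only
    rw [Complex.re_ofReal_mul]
  have e4 := congrArg Complex.re e3
  rw [Complex.sub_re, r1, r2] at e4
  -- the transported density
  have e5 : ∫ t, Bf s (gD η) (gD1 η η1) t * Ψ (zt (gD η) t) =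
      (∫ t, ((hd s η η1 t : ℂ) * I) * Ψ (zt (gD η) t)) +
        ∫ t, Br s (gD η) (gD1 η η1) t * Ψ (zt (gD η) t) := by
    rw [← integral_add i1 i2]
    congr 1
    funext t
    rw [B_eq B]
    ring
  have e6 : (∫ t, ((hd s η η1 t : ℂ) * I) * Ψ (zt (gD η) t)).re =
      -∫ t, hd s η η1 t * (Ψ (zt (gD η) t)).im := by
    have := integral_re i1
    simp only [RCLike.re_to_complex] at this
    rw [← this, ← integral_neg]
    congr 1
    funext t
    have : ((hd s η η1 t : ℂ) * I) * Ψ (zt (gD η) t) =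
        (hd s η η1 t : ℂ) * (I * Ψ (zt (gD η) t)) := by
      ring
    rw [this, Complex.re_ofReal_mul, Complex.I_mul_re]
    ring
  have hΨb : ∀ t, ‖Ψ (zt (gD η) t)‖ ≤ N := fun t => hNb _ (hz t)
  -- the rest
  have b2 : |(∫ t, Br s (gD η) (gD1 η η1) t * Ψ (zt (gD η) t)).re| ≤
      2 * C0 * N * b * (M * ε) := by
    refine (Complex.abs_re_le_norm _).trans ?_
    have e3 : ∫ t, Br s (gD η) (gD1 η η1) t * Ψ (zt (gD η) t) =
        ∫ t in Icc (-b) b, Br s (gD η) (gD1 η η1) t * Ψ (zt (gD η) t) := by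
      refine (setIntegral_eq_integral_of_forall_compl_eq_zero fun t ht => ?_).symm
      have : b < |t| := by
        by_contra hh
        exact ht (abs_le.1 (not_lt.1 hh))
      rw [hBB.rsupp t this, zero_mul]
    rw [e3]
    have h5 := norm_setIntegral_le_of_norm_le_const (μ := volume) (s := Icc (-b) b)
      (f := fun t => Br s (gD η) (gD1 η η1) t * Ψ (zt (gD η) t)) (C := C0 * (M * ε) * N)
      (by simp) (fun t _ => by
        rw [norm_mul]
        exact mul_le_mul (hBB.rle t) (hΨb t) (norm_nonneg _) (by positivity))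
    refine h5.trans (le_of_eq ?_)
    rw [Measure.real, Real.volume_Icc, ENNReal.toReal_ofReal (by linarith)]
    ring
  -- the main part
  have hh0 : ∀ t, b < |t| → s * P t * η t = 0 := fun t ht => by
    rw [curL_out hcur ht, mul_zero]
  have hj := jumpL (τ := τ) (hasDerivAt_hd B s h1) hBB.hc hh0 hb
  have hA0 : 0 ≤ A := (abs_nonneg _).trans (hA 0)
  obtain ⟨ie, ee⟩ := e2L τ
  have hm : Measurable fun t : ℝ => if τ ≤ t then (1:ℝ) else -1 :=
    Measurable.ite measurableSet_Ici measurable_const measurable_const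
  have ih : Integrable (hd s η η1) := by
    refine hBB.hc.integrable_of_hasCompactSupport ?_
    refine HasCompactSupport.of_support_subset_isCompact (isCompact_Icc (a := -b) (b := b)) ?_
    intro t ht
    by_contra hh2
    exact ht (hBB.hsupp t (by
      by_contra h2
      exact hh2 (abs_le.1 (not_lt.1 h2))))
  have ij : Integrable fun t => hd s η η1 t * (if τ ≤ t then (1:ℝ) else -1) := by
    have := ih.bdd_mul (c := 1) hm.aestronglyMeasurable (Eventually.of_forall fun t => by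
        split_ifs <;> simp)
    exact this.congr (Eventually.of_forall fun t => mul_comm _ _)
  have ii : Integrable fun t => hd s η η1 t * (Ψ (zt (gD η) t)).im := by
    have := ih.bdd_mul (c := N) (Complex.continuous_im.comp hΨc).aestronglyMeasurable
      (Eventually.of_forall fun t => (Complex.abs_im_le_norm _).trans (hΨb t))
    exact this.congr (Eventually.of_forall fun t => mul_comm _ _)
  have e7 : (∫ t, hd s η η1 t * (Ψ (zt (gD η) t)).im) + 2 * φ * (s * P τ * η τ) =
      ∫ t, hd s η η1 t * ((Ψ (zt (gD η) t)).im - φ * (if τ ≤ t then (1:ℝ) else -1)) := by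
    have e5 : ∀ t, hd s η η1 t * ((Ψ (zt (gD η) t)).im - φ * (if τ ≤ t then (1:ℝ) else -1)) =
        hd s η η1 t * (Ψ (zt (gD η) t)).im -
          φ * (hd s η η1 t * (if τ ≤ t then (1:ℝ) else -1)) := by
      intro t; ring
    simp_rw [e5]
    rw [integral_sub ii (ij.const_mul φ), integral_const_mul, hj]
    ring
  -- the sign is the same except near `τ`
  have hsg : ∀ t, |(Ψ (zt (gD η) t)).im - φ * (if τ ≤ t then (1:ℝ) else -1)| ≤
      20 * (|φ| + κ) * Real.exp (-2 * |t - τ|) := by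
    exact fun t => signL hk (hre t) (asyL hΨ (hz t)).1
  have b1 : |(∫ t, hd s η η1 t * (Ψ (zt (gD η) t)).im) + 2 * φ * (s * P τ * η τ)| ≤
      20 * ((|φ| + κ) * A) := by
    rw [e7, ← Real.norm_eq_abs]
    have e8 : 20 * ((|φ| + κ) * A) =
        ∫ t : ℝ, A * (20 * (|φ| + κ) * Real.exp (-2 * |t - τ|)) := by
      rw [integral_const_mul, integral_const_mul, ee]
      ring
    rw [e8]
    refine norm_integral_le_of_norm_le ((ie.const_mul _).const_mul A)
      (Eventually.of_forall fun t => ?_)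
    rw [norm_mul, Real.norm_eq_abs, Real.norm_eq_abs]
    exact mul_le_mul (hA t) (hsg t) (abs_nonneg _) hA0
  have e9 := congrArg Complex.re e5
  rw [Complex.add_re, e6] at e9
  rw [e4, e9, ← hN]
  have hφ := abs_nonneg φ
  have u1 : 20 * ((|φ| + κ) * A) ≤ (2 * C0 + C1 + 20) * ((|φ| + κ) * A) := by
    refine mul_le_mul_of_nonneg_right (by linarith) (by positivity)
  have u2 : 2 * C0 * N * b * (M * ε) ≤ (2 * C0 + C1 + 20) * N * b * (M * ε) := by
    have : 2 * C0 ≤ 2 * C0 + C1 + 20 := by linarith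
    gcongr
  rw [abs_le] at b1 b2 ⊢
  constructor <;> linarith [b1.1, b1.2, b2.1, b2.2]

end

end PLT.Cv
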