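import Pool.Agent.PLT.BList8

/-!
# The two line system from the integer lists (helper64)

* `F8q q t n z`: the entries at the point `q` with the table `t`, cores of scale `2 ^ n`, `z = l k`: `DC` (`DrM6`), `nE`, and
  `DV` against quanta at the offsets `Pt.of q`;
* **`F8q_nn`**: nonnegative forms of `PL8` (cores subtracted) give `(F8q q t n z).Nn`; `F8q_nn_B`: the same from the
  forms of `BL8`; `Reg8 q t s lo hi`: the form of `BL8` for `lo ≤ y ≤ hi`, **`F8q_of`**.
* `DV_symm_A`: symmetry; `cosh_m8_neg`.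
-/

set_option autoImplicit false

namespace PLT

open Finset PHK NUP1 NUO NUDispO Pool.Agent.NUM3

/-! ### symmetry -/

lemma m8_cases (y : ℝ) : m8 (-y) = 8 - m8 y ∨ (m8 (-y) = 0 ∧ m8 y = 0) := by
  by_cases h : Int.fract (y / 8) = 0
  · right
    have h2 : Int.fract (-(y / 8)) = 0 := by rw [Int.fract_neg_eq_zero]; exact h
    unfold m8
    rw [neg_div, h2, h]
    simp
  · left
    unfold m8
    rw [neg_div, Int.fract_neg h]
    ring

theorem cosh_m8_neg (y z : ℝ) : Real.cosh ((4 - m8 (-y)) * z) = Real.cosh ((4 - m8 y) * z) := by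
  rcases m8_cases y with h | ⟨h1, h2⟩
  · rw [h, ← Real.cosh_neg]
    congr 1
    ring
  · rw [h1, h2]

lemma m8_add8 (y : ℝ) : m8 (y + 8) = m8 y := by
  unfold m8
  rw [add_div, show (8 : ℝ) / 8 = ((1 : ℤ) : ℝ) by norm_num, Int.fract_add_intCast]

/-- the sines of two constituents -/
noncomputable def SL (σ : Bool) (a b : (Bool × Bool × ℝ) × ℤ) (z : ℝ) : ℝ :=
  ((LL6 σ a b).map fun p => (p.2 : ℝ) * Real.cosh ((4 - m8 (a.1.2.2 - b.1.2.2 + p.1)) * z)).sum

theorem SL_symm (σ : Bool) (a b : (Bool × Bool × ℝ) × ℤ) (z : ℝ) : SL σ a b z = SL σ b a z := by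
  obtain ⟨⟨f, s, x⟩, c⟩ := a
  obtain ⟨⟨f', s', y⟩, c'⟩ := b
  have H : ∀ u : ℝ, Real.cosh ((4 - m8 (y - x + u)) * z) = Real.cosh ((4 - m8 (x - y + -u)) * z) := by
    intro u
    rw [← cosh_m8_neg]
    congr 3
    ring
  unfold SL LL6
  simp only
  rw [show (f' == f) = (f == f') from Bool.beq_comm]
  generalize (σ == (f == f')) = e
  have h4 : m8 (x - y + -4) = m8 (x - y + 4) := by
    rw [← m8_add8]
    congr 1
    ring
  cases e <;> cases s <;> cases s' <;> simp only [Ls, Lp, Lc, if_true, if_false, Bool.false_eq_true, List.map_cons,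
    List.map_nil, List.sum_cons, List.sum_nil, H] <;> push_cast <;> norm_num <;> (try rw [h4]) <;> ring

theorem DV_eq (σ : Bool) (A B : List ((Bool × Bool × ℝ) × ℤ)) (z : ℝ) : DV σ A B z =
    (A.map fun a => (B.map fun b => ((a.2 * b.2 : ℤ) : ℝ) * SL σ a b z).sum).sum := rfl

theorem DV_symm_A (σ : Bool) (A : List ((Bool × Bool × ℝ) × ℤ)) (v z : ℝ) :
    DV σ (cA8 v) A z = DV σ A (cA8 v) z := by
  rw [DV_eq, DV_eq]
  unfold cA8
  simp only [List.map_cons, List.map_nil, List.sum_cons, List.sum_nil, add_zero]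
  congr 1
  refine List.map_congr_left fun b _ => ?_
  rw [SL_symm]
  push_cast
  ring

/-! ### the system -/

/-- offsets of the two lines of the quanta -/
noncomputable def Pt.of (q : Pt) (b : Fin 2) : ℝ := if b = 0 then q.a0 / q.m else q.a / q.m

/-- **the entries of the two line system** -/
noncomputable def F8q (q : Pt) (t : Tb8) (n : ℕ) (z : ℝ) : F8 where
  D σ K K' := DC n σ (cd8 q.par q.rT K) (cd8 q.par q.rT K') z
  N σ K K' := nE n (T8 t σ K K') z
  a σ K b := DV σ (cd8 q.par q.rT K) (cA8 (q.of b)) z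
  u σ b b' := DV σ (cA8 (q.of b)) (cA8 (q.of b')) z

/-- the coefficient of the cores -/
noncomputable def co8 (q : Pt) (z : ℝ) : ℝ :=
  (1 - Real.exp (-(z / 1024))) * 512 * (1 - Real.exp (-(z / q.m)) ^ (8 * q.m).toNat)

theorem core_cf8 (q : Pt) (hq : 0 < q.k) (z : ℝ) :
    1024 * Real.exp (-(4 * z)) * ((1 - Real.exp (-(z / 1024))) * Real.sinh (4 * z)) = co8 q z := by
  have hm : 0 < q.m := by unfold Pt.m; omega
  have hm' : (q.m : ℝ) ≠ 0 := by exact_mod_cast hm.ne'
  have h1 : Real.exp (-(z / q.m)) ^ (8 * q.m).toNat = Real.exp (-(4 * z)) * Real.exp (-(4 * z)) := by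
    rw [← Real.exp_nat_mul, ← Real.exp_add]
    congr 1
    have : (((8 * q.m).toNat : ℕ) : ℝ) = 8 * q.m := by
      have h : (((8 * q.m).toNat : ℕ) : ℤ) = 8 * q.m := Int.toNat_of_nonneg (by omega)
      exact_mod_cast h
    rw [this]
    field_simp
    ring
  have h2 : Real.exp (-(4 * z)) * Real.exp (4 * z) = 1 := by
    rw [← Real.exp_add]
    simp
  unfold co8
  rw [h1, Real.sinh_eq]
  linear_combination (512 * (1 - Real.exp (-(z / 1024)))) * h2

/-- **nonnegative forms of the plain matrices** -/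
theorem F8q_nn {q : Pt} (hq : 0 < q.k)
    (hc : ∀ σ K K', ct8 q.m (dL8 q σ (some (some K)) (some (some K'))) = kpZ σ K K')
    {t : Tb8} (ht : RgT t) (n : ℕ) (z : ℝ)
    (h : ∀ (s : Bool) (v : Fin 8 → ℝ),
      0 ≤ ∑ i, ∑ j, (ev (PL8 q t s i j) (Real.exp (-(z / q.m))) - co8 q z * kap8 i j) * v i * v j) :
    (F8q q t n z).Nn := by
  have hs : ∀ s : Bool, ((sg8 s : ℤ) : ℝ) = sgn s := fun s => by cases s <;> simp [sg8, sgn]
  have ho : ∀ b : Fin 2, (ix8 (.inr b)) = io8 (if b = 0 then none else some none) := fun b => by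
    fin_cases b <;> rfl
  have hK : ∀ K : Kd6, (ix8 (.inl K)) = io8 (some (some K)) := fun K => by cases K <;> rfl
  have hr : ∀ b : Fin 2, cR8 q.par q.rT (q.a0 / q.m) (q.a / q.m) (if b = 0 then none else some none) = cA8 (q.of b) := fun b => by
    fin_cases b <;> simp [cR8, Pt.of]
  refine F8.nn_of (F := F8q q t n z) (b := fun s i j => ev (PL8 q t s i j) (Real.exp (-(z / q.m))))
    (c := 1024 * Real.exp (-(4 * z))) (w := Real.cosh (4 * z) - Real.cosh ((4 - 1 / 1024) * z))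
    (t := (1 - Real.exp (-(z / 1024))) * Real.sinh (4 * z)) (by positivity) ?_ ?_ ?_ ?_ ?_ ?_
  · have h := core_tau (1 / 1024) z
    have e : (1 / 1024 : ℝ) * z = z / 1024 := by ring
    rwa [e] at h
  · intro s v
    rw [core_cf8 q hq]
    exact h s v
  · intro s K K'
    simp only [hK]
    rw [PL8_kind q hq hc ht n, hs]
    simp only [F8q]
  · intro s K β
    simp only [hK, ho]
    rw [PL8_quad q hq t s (some (some K)) _ (by fin_cases β <;> rfl), hr]
    show _ * DS8 s (cd8 q.par q.rT K) _ z = _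
    unfold DS8
    rw [hs]
    simp only [F8q]
  · intro s K β
    simp only [hK, ho]
    rw [PL8_quad q hq t s _ (some (some K)) (by fin_cases β <;> rfl), hr]
    show _ * DS8 s _ (cd8 q.par q.rT K) z = _
    unfold DS8
    rw [hs, DV_symm_A, DV_symm_A]
    simp only [F8q]
  · intro s β β'
    simp only [ho]
    rw [PL8_quad q hq t s _ _ (by fin_cases β <;> fin_cases β' <;> rfl), hr, hr]
    unfold DS8
    rw [hs]
    simp only [F8q]

/-- the form of `BL8` for `lo ≤ y ≤ hi`, `y = exp (-z / m)` -/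
def Reg8 (q : Pt) (t : Tb8) (s : Bool) (lo hi : ℝ) : Prop :=
  ∀ z : ℝ, 0 < z → lo ≤ Real.exp (-(z / q.m)) → Real.exp (-(z / q.m)) ≤ hi → ∀ v : Fin 8 → ℝ,
    0 ≤ ∑ i, ∑ j, (ev (BL8 q t s i j) (Real.exp (-(z / q.m))) - co8 q z * kap8 i j) * v i * v j

/-- the plain form for `lo ≤ y ≤ hi` -/
def RegP8 (q : Pt) (t : Tb8) (s : Bool) (lo hi : ℝ) : Prop :=
  ∀ z : ℝ, 0 < z → lo ≤ Real.exp (-(z / q.m)) → Real.exp (-(z / q.m)) ≤ hi → ∀ v : Fin 8 → ℝ,
    0 ≤ ∑ i, ∑ j, (ev (PL8 q t s i j) (Real.exp (-(z / q.m))) - co8 q z * kap8 i j) * v i * v j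

theorem Reg8.plain {q : Pt} {t : Tb8} {s : Bool} {lo hi : ℝ} (h : Reg8 q t s lo hi) : RegP8 q t s lo hi := by
  intro z hz h1 h2 v
  rw [form_BL8]
  exact h z hz h1 h2 _

theorem RegP8.glue {q : Pt} {t : Tb8} {s : Bool} {lo mi hi : ℝ} (h : RegP8 q t s lo mi)
    (h' : RegP8 q t s mi hi) : RegP8 q t s lo hi := by
  intro z hz h1 h2 v
  rcases le_total (Real.exp (-(z / q.m))) mi with h3 | h3
  · exact h z hz h1 h3 v
  · exact h' z hz h3 h2 v

/-- **the system from the two channels** -/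
theorem F8q_of {q : Pt} (hq : 0 < q.k)
    (hc : ∀ σ K K', ct8 q.m (dL8 q σ (some (some K)) (some (some K'))) = kpZ σ K K')
    {t : Tb8} (ht : RgT t) (h0 : RegP8 q t true 0 1) (h1 : RegP8 q t false 0 1) (n : ℕ) {z : ℝ}
    (hz : 0 < z) : (F8q q t n z).Nn := by
  have hm : 0 < q.m := by unfold Pt.m; omega
  have hm' : (0 : ℝ) < q.m := by exact_mod_cast hm
  refine F8q_nn hq hc ht n z fun s v => ?_
  have ha : (0 : ℝ) ≤ Real.exp (-(z / q.m)) := (Real.exp_pos _).le
  have hb : Real.exp (-(z / q.m)) ≤ 1 := Real.exp_le_one_iff.2 (by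
    have := div_pos hz hm'
    linarith)
  cases s
  · exact h1 z hz ha hb v
  · exact h0 z hz ha hb v

end PLT
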