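import Pool.Agent.PLT.GasPotC
import Pool.Agent.PHK.LogP
import Pool.Agent.PHK.LogZ
import Pool.Agent.PHK.LPoM6

/-!
# Log derivatives in the unsymmetric strip of the offsets `v .. w`

* `LogDC Z P v w LZ LP`: `PHK.LogD6` on `KsC v w`; `LogDC.of_six`, `LogDC.sub`;
* `DsA P v w c`: the strip of the offsets `v .. w` is at distance `c l` from the zeros and the poles of
  the factors of the objects (`dsA_of`, `DsA.of_six`, `DsA.sub`, `DsA.stC`);
* `dst_consC`, `hasDerivAt_potOC`, `LPoC_le` (the closed form `LPo6` is the landed one), `potOC_ne`;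
* **`logD_ofC`**, **`LogDC_XX`**: `LogDC` from the one body functions of the quanta.
-/

set_option autoImplicit false
set_option linter.unusedSectionVars false

noncomputable section

open Complex MeasureTheory Finset

namespace PLT

open NUO NUP1 NUP1.Bd NUP1S NUP1S.Ab NUGC NUGC.PLX PHK
open PBForce (keX keY kO Gen)
open PBF.PLX (Dst lpp kSp obP hasDerivAt_pp lpp_le measurable_lpp)

/-- log derivatives of the one body functions, bounded in the strip of the offsets `v .. w` -/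
structure LogDC (Z : Bool → Option O3 → ℂ → ℂ) (P : Par6) (v w : ℝ) (LZ : Bool → ℂ → ℂ)
    (LP : (r : ℕ) → (Fin r → Xo) → Bool → ℂ → ℂ) : Prop where
  dZ : ∀ s (z : ℂ), z.re ∈ KsC v w → HasDerivAt (Z s none) (LZ s z * Z s none z) z
  mZ : ∀ s, Measurable (LZ s)
  bZ : ∃ B, ∀ s (z : ℂ), z.re ∈ KsC v w → ‖LZ s z‖ ≤ B
  dP : ∀ r (O : Fin r → Xo) s (z : ℂ), z.re ∈ KsC v w →
    HasDerivAt (potO6 P O s) (LP r O s z * potO6 P O s z) z
  mP : ∀ r (O : Fin r → Xo) s, Measurable (LP r O s)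
  bP : ∀ r (O : Fin r → Xo), ∃ B, ∀ s (z : ℂ), z.re ∈ KsC v w → ‖LP r O s z‖ ≤ B

theorem KsC_six (δ : ℝ) : KsC (-δ) δ = Ks6 δ := by
  have e : (1 - -δ) * NUP1.l = (1 + δ) * NUP1.l := by ring
  unfold KsC Ks6
  rw [e]

theorem LogDC.of_six {Z : Bool → Option O3 → ℂ → ℂ} {P : Par6} {δ : ℝ} {LZ : Bool → ℂ → ℂ}
    {LP : (r : ℕ) → (Fin r → Xo) → Bool → ℂ → ℂ} (h : LogD6 Z P δ LZ LP) :
    LogDC Z P (-δ) δ LZ LP := by
  obtain ⟨a1, a2, a3, a4, a5, a6⟩ := h
  rw [← KsC_six] at a1 a3 a4 a6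
  exact ⟨a1, a2, a3, a4, a5, a6⟩

theorem KsC_mono {v w v' w' : ℝ} (h1 : v ≤ v') (h2 : w' ≤ w) : KsC v' w' ⊆ KsC v w := by
  have hl := Bd.l_pos
  exact Set.Icc_subset_Icc (by nlinarith) (by nlinarith)

theorem LogDC.sub {Z : Bool → Option O3 → ℂ → ℂ} {P : Par6} {v w v' w' : ℝ} {LZ : Bool → ℂ → ℂ}
    {LP : (r : ℕ) → (Fin r → Xo) → Bool → ℂ → ℂ} (h : LogDC Z P v w LZ LP) (h1 : v ≤ v')
    (h2 : w' ≤ w) : LogDC Z P v' w' LZ LP where
  dZ s z hz := h.dZ s z (KsC_mono h1 h2 hz)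
  mZ := h.mZ
  bZ := by
    obtain ⟨B, hB⟩ := h.bZ
    exact ⟨B, fun s z hz => hB s z (KsC_mono h1 h2 hz)⟩
  dP r O s z hz := h.dP r O s z (KsC_mono h1 h2 hz)
  mP := h.mP
  bP r O := by
    obtain ⟨B, hB⟩ := h.bP r O
    exact ⟨B, fun s z hz => hB s z (KsC_mono h1 h2 hz)⟩

/-- the strip of the offsets `v .. w` is at distance `c l` from the zeros and the poles of the factors
of the objects -/
structure DsA (P : Par6) (v w c : ℝ) : Prop where
  v0 : v ≤ 0
  w0 : 0 ≤ w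
  c0 : 0 < c
  hT : w + c ≤ 1 / 2
  hT' : c - v ≤ 1 / 2
  hL : w + c ≤ P.jL - 2
  hL' : P.jL - v + c ≤ 3
  h1 : w + c ≤ P.j1
  h1e : P.j1 ≤ P.e
  he : P.e - v + c ≤ 1
  he2 : P.e ≤ P.j2
  h2 : P.j2 - v + c ≤ 1

theorem DsA.c1 {P : Par6} {v w c : ℝ} (hd : DsA P v w c) : c * NUP1.l ≤ 1 := by
  have hl := Bd.l_pos
  have h1 := hd.hT
  have h2 := hd.w0
  have h3 := PBC.PLX.l_small
  nlinarith

/-- from the conditions on the parameters -/
theorem dsA_of {P : Par6} (hP : GoodP6 P) (hj : 1 / 2 ≤ P.j2) {v w c : ℝ} (v0 : v ≤ 0) (w0 : 0 ≤ w) (c0 : 0 < c)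
    (hL : w + c ≤ P.jL - 2) (h1 : w + c ≤ P.j1) (h2 : P.j2 - v + c ≤ 1) : DsA P v w c := by
  have a1 := hP.j1
  have a2 := hP.j1e
  have a3 := hP.ej2
  have a4 := hP.j2
  have a5 := hP.L2
  have a6 := hP.Lj
  have a7 := hP.e13
  have a8 := hP.e45
  exact ⟨v0, w0, c0, by linarith, by linarith, hL, by linarith, h1, a2.le, by linarith, a3.le, h2⟩

theorem DsA.of_six {P : Par6} {h c : ℝ} (hd : DsC P h c) : DsA P (-h) h c := by
  obtain ⟨h0, c0, hT, hL, hL', h1, h1e, he, he2, h2⟩ := hd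
  exact ⟨by linarith, h0, c0, hT, by linarith, hL, by linarith, h1, h1e, by linarith, he2,
    by linarith⟩

theorem DsA.sub {P : Par6} {v w v' w' c c' : ℝ} (hd : DsA P v w c) (h1 : v ≤ v') (h2 : v' ≤ 0)
    (h3 : 0 ≤ w') (h4 : w' ≤ w) (h5 : 0 < c') (h6 : c' ≤ c) : DsA P v' w' c' := by
  obtain ⟨a1, a2, a3, a4, a5, a6, a7, a8, a9, a10, a11, a12⟩ := hd
  exact ⟨h2, h3, h5, by linarith, by linarith, by linarith, by linarith, by linarith, a9,
    by linarith, a11, by linarith⟩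

theorem DsA.stC {P : Par6} {v w c : ℝ} (hd : DsA P v w c) : StC v w P := by
  obtain ⟨a1, a2, a3, a4, a5, a6, a7, a8, a9, a10, a11, a12⟩ := hd
  exact ⟨a1, a2, by linarith, by linarith, by linarith, by linarith, by linarith, by linarith,
    by linarith, by linarith, by linarith, by linarith⟩

theorem dst_consC {P : Par6} {v w c : ℝ} (hd : DsA P v w c) {r : ℕ} (O : Fin r → Xo) (i : Fin r)
    {z : ℂ} (hz : z.re ∈ KsC v w) : ∀ b ∈ cons6 P O i, Dst (c * NUP1.l) (b.1.2.2 - z).re := by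
  have hl := Bd.l_pos
  obtain ⟨v0, w0, c0, hT, hT', hL, hL', h1, h1e, he, he2, h2⟩ := hd
  obtain ⟨z1, z2⟩ := hz
  obtain ⟨θ, hθ⟩ : ∃ θ : ℝ, z.re = (1 + θ) * l := ⟨z.re / l - 1, by field_simp; ring⟩
  have t1 : -w ≤ θ := by
    rw [hθ] at z1
    have := le_of_mul_le_mul_right z1 hl
    linarith
  have t2 : θ ≤ -v := by
    rw [hθ] at z2
    have := le_of_mul_le_mul_right z2 hl
    linarith
  have key : ∀ (n : ℤ) (x : ℝ), (n : ℝ) + c ≤ x → x ≤ (n : ℝ) + 1 - c → Dst (c * NUP1.l) (x * l) := by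
    intro n x a1 a2
    refine ⟨n, ?_, ?_⟩
    · nlinarith
    · nlinarith
  have eL : ∀ j t : ℝ, (posL j t - z).re = (-(j + θ)) * l := by
    intro j t
    rw [sub_re, hθ]
    unfold posL vl
    simp
    ring
  have eT : ∀ t : ℝ, (posT t - z).re = (-(3 / 2 + θ)) * l := by
    intro t
    rw [sub_re, hθ]
    unfold posT vl
    simp
    ring
  have eS : ∀ e t : ℝ, (posS e t - z).re = (-(2 + e + θ)) * l := by
    intro e t
    rw [sub_re, hθ]
    unfold posS vl
    simp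
    ring
  have eB : ∀ e t : ℝ, (posB e t - z).re = (-(e + θ)) * l := by
    intro e t
    have := eS e t
    unfold posB
    rw [show posS e t + 2 * (l : ℂ) - z = posS e t - z + ((2 * l : ℝ) : ℂ) by push_cast; ring, add_re, ofReal_re,
      this]
    ring
  have dS : ∀ t : ℝ, Dst (c * NUP1.l) (posS P.e t - z).re := by
    intro t
    rw [eS]
    refine key (-3) _ ?_ ?_ <;> push_cast <;> linarith
  have dB : ∀ t : ℝ, Dst (c * NUP1.l) (posB P.e t - z).re := by
    intro t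
    rw [eB]
    refine key (-1) _ ?_ ?_ <;> push_cast <;> linarith
  intro b hb
  unfold cons6 parts6 at hb
  rcases hk : k6 (O i) with _ | _ | _ | _ | _ | _ <;> rw [hk] at hb <;>
    simp only [List.mem_cons, List.not_mem_nil, or_false] at hb
  · subst hb
    show Dst _ (posL P.jL (ht (O i)) - z).re
    rw [eL]
    refine key (-3) _ ?_ ?_ <;> push_cast <;> linarith
  · subst hb
    show Dst _ (posT (ht (O i)) - z).re
    rw [eT]
    refine key (-2) _ ?_ ?_ <;> push_cast <;> linarith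
  · rcases hb with hb | hb <;> subst hb
    · exact dS _
    · exact dB _
  · rcases hb with hb | hb | hb <;> subst hb
    · exact dS _
    · exact dB _
    · exact dB _
  · subst hb
    show Dst _ (posL P.j1 (ht (O i)) - z).re
    rw [eL]
    refine key (-1) _ ?_ ?_ <;> push_cast <;> linarith
  · subst hb
    show Dst _ (posL P.j2 (ht (O i)) - z).re
    rw [eL]
    refine key (-1) _ ?_ ?_ <;> push_cast <;> linarith

/-! ### the log derivative of the factor of the objects -/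

theorem hasDerivAt_potOC {P : Par6} {v w c : ℝ} (hd : DsA P v w c) {r : ℕ} (O : Fin r → Xo)
    (s : Bool) {z : ℂ} (hz : z.re ∈ KsC v w) :
    HasDerivAt (potO6 P O s) (LPo6 P r O s z * potO6 P O s z) z := by
  have hl := Bd.l_pos
  have hi : ∀ i ∈ Finset.univ, HasDerivAt (fun z => ppC6 [((s, false, z), 1)] (cons6 P O i))
      (((cons6 P O i).map fun b => (b.2 : ℂ) * lpp s b.1 z).sum * ppC6 [((s, false, z), 1)] (cons6 P O i)) z :=
    fun i _ => hasDerivAt_list6 s _ fun b hb =>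
      (dst_consC hd O i hz b hb).gen (mul_pos hd.c0 hl) hd.c1
  have hd' := HasDerivAt.fun_finsetProd hi
  refine hd'.congr_deriv ?_
  unfold LPo6 potO6 potC6
  rw [Finset.sum_mul]
  refine Finset.sum_congr rfl fun i hi' => ?_
  rw [smul_eq_mul, ← Finset.mul_prod_erase Finset.univ _ hi']
  unfold cons6
  ring

/-- the factor of the objects does not vanish in the strip -/
theorem potOC_ne {P : Par6} {v w c : ℝ} (hd : DsA P v w c) {r : ℕ} (O : Fin r → Xo) (s : Bool)
    {z : ℂ} (hz : z.re ∈ KsC v w) : potO6 P O s z ≠ 0 := by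
  have hl := Bd.l_pos
  have key : ∀ A : List Part6, (∀ b ∈ A, Gen (b.1.2.2 - z)) → ppC6 [((s, false, z), 1)] A ≠ 0 := by
    intro A
    induction A with
    | nil =>
      intro _
      rw [ppC6_nil_right]
      exact one_ne_zero
    | cons a A ih =>
      intro h
      have e : ppC6 [((s, false, z), 1)] (a :: A) =
          pp6 ((s, false, z), 1) a * ppC6 [((s, false, z), 1)] A := by
        rw [ppC6_single, ppC6_single, List.map_cons, List.prod_cons]
      rw [e]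
      refine mul_ne_zero ?_ (ih fun b hb => h b (by simp [hb]))
      show pp (s, false, z) a.1 ^ (1 * a.2) ≠ 0
      exact zpow_ne_zero _ (pp_ne_gen s a.1 (h a (by simp)))
  unfold potO6 potC6
  exact Finset.prod_ne_zero_iff.2 fun i _ => key _ fun b hb =>
    (dst_consC hd O i hz b hb).gen (mul_pos hd.c0 hl) hd.c1

theorem cLPC_nonneg {P : Par6} {v w c : ℝ} (hd : DsA P v w c) : 0 ≤ cLP6 c := by
  have hl := Bd.l_pos
  have hc := hd.c0
  have hs : 0 < Real.sin (c * NUP1.l) := Real.sin_pos_of_pos_of_lt_pi (by positivity) (by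
    have := Real.pi_gt_three
    have := hd.c1
    linarith)
  unfold cLP6
  positivity

/-- **uniform bound** -/
theorem LPoC_le {P : Par6} {v w c : ℝ} (hd : DsA P v w c) {r : ℕ} (O : Fin r → Xo) (s : Bool) {z : ℂ}
    (hz : z.re ∈ KsC v w) : ‖LPo6 P r O s z‖ ≤ 4 * cLP6 c * r := by
  have hl := Bd.l_pos
  have hc0 := cLPC_nonneg hd
  have hL : ∀ A : List Part6, (∀ b ∈ A, Dst (c * NUP1.l) (b.1.2.2 - z).re) →
      ‖(A.map fun b => (b.2 : ℂ) * lpp s b.1 z).sum‖ ≤ (A.map fun b => |(b.2 : ℝ)|).sum * cLP6 c := by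
    intro A
    induction A with
    | nil => intro _; simp
    | cons a A ih =>
      intro h
      rw [List.map_cons, List.sum_cons, List.map_cons, List.sum_cons]
      have h1 := lpp_le (mul_pos hd.c0 hl) hd.c1 s a.1 (h a (by simp))
      have h2 := ih fun b hb => h b (by simp [hb])
      have h3 : ‖(a.2 : ℂ) * lpp s a.1 z‖ ≤ |(a.2 : ℝ)| * cLP6 c := by
        rw [norm_mul, Complex.norm_intCast]
        exact mul_le_mul_of_nonneg_left h1 (abs_nonneg _)
      calc _ ≤ |(a.2 : ℝ)| * cLP6 c + (A.map fun b => |(b.2 : ℝ)|).sum * cLP6 c :=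
            (norm_add_le _ _).trans (add_le_add h3 h2)
        _ = _ := by ring
  unfold LPo6
  calc _ ≤ ∑ _i : Fin r, 4 * cLP6 c := norm_sum_le_of_le _ fun i _ => by
        refine (hL _ (dst_consC hd O i hz)).trans ?_
        exact mul_le_mul_of_nonneg_right (mult6_le P (O i)) hc0
    _ = _ := by
        rw [Finset.sum_const, Finset.card_univ, Fintype.card_fin, nsmul_eq_mul]
        ring

/-- **`LogDC` with the closed form of the objects**, from the one body functions of the quanta -/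
theorem logD_ofC {Z : Bool → Option O3 → ℂ → ℂ} {P : Par6} {v w c : ℝ} (hd : DsA P v w c)
    {LZ : Bool → ℂ → ℂ}
    (dZ : ∀ s (z : ℂ), z.re ∈ KsC v w → HasDerivAt (Z s none) (LZ s z * Z s none z) z)
    (mZ : ∀ s, Measurable (LZ s)) (bZ : ∃ B, ∀ s (z : ℂ), z.re ∈ KsC v w → ‖LZ s z‖ ≤ B) :
    LogDC Z P v w LZ (LPo6 P) where
  dZ := dZ
  mZ := mZ
  bZ := bZ
  dP _ O s _ hz := hasDerivAt_potOC hd O s hz
  mP r O s := measurable_LPo6 P r O s
  bP r O := ⟨4 * cLP6 c * r, fun s _ hz => LPoC_le hd O s hz⟩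

section XX

open PLX (Fil)
open NUP1 (psi phi Adm kap cl)
open NUO (Ks Xo)
open Pool.Agent.PLX (rwq XXU)
open PBLZ.PLX (LZX LZOk LZX_meas LZX_bd hasDerivAt_XX)

variable [Fil] {m : ℕ} {β s δ r : ℝ} {x : Fin m → ℂ} {W : List ℂ} {p : ℂ}

/-- the strip of the offsets `v .. w` is in the landed strip `Ks δ` (offsets `-δ .. 1 / 20`) -/
theorem KsC_Ks {v w δ : ℝ} (h1 : -δ ≤ v) (h2 : w ≤ 1 / 20) : KsC v w ⊆ Ks δ := by
  have hl := NUP1.Bd.l_pos
  unfold KsC NUO.Ks
  exact Set.Icc_subset_Icc (by nlinarith) (by nlinarith)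

/-- **log derivatives of the one body functions, landed window of the rows** (offsets up to
`1 / 20`) -/
theorem LogDC_XX (h : LZOk β s δ r x W p) (c : Bool → ℂ) (g0 s2 : Bool → ℂ → ℂ) {P : Par6}
    {v w c' : ℝ} (hv : -δ ≤ v) (hw : w ≤ 1 / 20) (hd : DsA P v w c') :
    LogDC (fun a => XXU (c a) β (rwq x a) (rwq x (!a)) (PBX.gP β W) (g0 a) (PBX.Lg p p)
      (s2 a)) P v w (fun a => LZX a β x W p) (LPo6 P) :=
  logD_ofC hd (fun a z hz => hasDerivAt_XX h a (c a) (g0 a) (s2 a) (KsC_Ks hv hw hz))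
    (fun a => LZX_meas a β x W p) (by
      obtain ⟨B, hB⟩ := LZX_bd h
      exact ⟨B, fun a z hz => hB a z (KsC_Ks hv hw hz)⟩)

end XX

end PLT

end
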