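import Pool.Agent.PLT.CstC
import Pool.Agent.PLT.ClsMeasC
import Pool.Agent.PHK.MIns6

/-!
# Sea on a curve: measurability of the weights and of the insertions

Twin of `PHK/MIns6` and `PHK/ConfM` for curves given by complex displacements.
* **`MCC.of`**: measurable one body functions and curves give `MCC`;
* `MIn.ob6`, `MIn.stO` (no `Fil`): the factor, the statistic of the objects (landed `obF6`, `obT6`);
* `measurable_qsC`; **`MIn.quFC`, `MIn.stQC`, `MIn.FaC`, `MIn.stAC`**.
-/

set_option autoImplicit false
set_option linter.unusedSectionVars false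

noncomputable section

open Complex MeasureTheory Finset
open scoped ENNReal
open PLX (Fil)

namespace PLT

open NUO NUP1 NUP1S NUP1S.Ab NUP1S.AbC NUGC NUGC.PLX NUCR PHK
open PBF.PLX (Ins Crs MCr MIn stQ quF)

/-- **measurability data** from measurable one body functions and curves -/
theorem MCC.of {Z : Bool → Option O3 → ℂ → ℂ} {P : Par6} {D D1 : CrsC}
    (hZ : ∀ s k, Measurable (Z s k)) (hc : MCrC D D1) : MCC Z P D D1 :=
  ⟨fun _ => measurable_wK6 hZ P, fun r a b => measurable_gKC hZ P (hc.m r) (hc.m' r) a b⟩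

variable {Z : Bool → Option O3 → ℂ → ℂ} (hZ : ∀ s k, Measurable (Z s k)) {D D1 : CrsC}

include hZ

/-! ### the objects -/

/-- the factor of the objects -/
theorem MIn.ob6 {P : Par6} : MIn fun _ O _ _ _ => ∏ i, obF6 Z P (O i) := fun _ _ _ =>
  (Finset.measurable_fun_prod _ fun i _ => (measurable_obF6 hZ P).comp
    (measurable_pi_apply i)).comp measurable_fst

/-- the statistic of the objects -/
theorem MIn.stO {P : Par6} : MIn fun _ O _ _ _ => PHK.stO6 Z P O := fun _ _ _ =>
  (Finset.measurable_fun_sum _ fun i _ => (measurable_obT6 hZ P).comp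
    (measurable_pi_apply i)).comp measurable_fst

/-! ### the quanta -/

theorem measurable_qsC {r : ℕ} {c : Bool} {D : (Fin r → Xo) → Bool → ℝ → ℂ}
    (hD : Measurable fun p : (Fin r → Xo) × ℝ => D p.1 c p.2) :
    Measurable fun p : (Fin r → Xo) × ℝ => Z c none (ptC (D p.1) c p.2) :=
  (hZ c none).comp (measurable_ptC hD)

omit hZ in
theorem meas_selA (r a b : ℕ) (i : Fin a) :
    Measurable fun p : (Fin r → Xo) × ((Fin a → ℝ) × (Fin b → ℝ)) => (p.1, p.2.1 i) :=
  measurable_fst.prodMk ((measurable_pi_apply i).comp (measurable_fst.comp measurable_snd))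

omit hZ in
theorem meas_selB (r a b : ℕ) (i : Fin b) :
    Measurable fun p : (Fin r → Xo) × ((Fin a → ℝ) × (Fin b → ℝ)) => (p.1, p.2.2 i) :=
  measurable_fst.prodMk ((measurable_pi_apply i).comp (measurable_snd.comp measurable_snd))

/-- **the statistic of the quanta** -/
theorem MIn.stQC (hc : MCrC D D1) : MIn fun r O a b x => PLT.stQC Z (D r O) a b x := by
  intro r a b
  have h2 : Measurable fun p : (Fin r → Xo) × ((Fin a → ℝ) × (Fin b → ℝ)) =>
      ∑ i, Z true none (ptC (D r p.1) true (p.2.1 i)) := by
    refine Finset.measurable_fun_sum _ fun i _ => ?_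
    refine (congrArg Measurable (funext fun p => ?_)).mpr
      ((measurable_qsC (c := true) hZ (hc.m r true)).comp (meas_selA r a b i))
    rfl
  have h3 : Measurable fun p : (Fin r → Xo) × ((Fin a → ℝ) × (Fin b → ℝ)) =>
      ∑ i, Z false none (ptC (D r p.1) false (p.2.2 i)) := by
    refine Finset.measurable_fun_sum _ fun i _ => ?_
    refine (congrArg Measurable (funext fun p => ?_)).mpr
      ((measurable_qsC (c := false) hZ (hc.m r false)).comp (meas_selB r a b i))
    rfl
  exact h2.add h3

/-- **the total statistic** -/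
theorem MIn.stAC {P : Par6} (hc : MCrC D D1) : MIn (PLT.stAC Z P D) := fun r a b =>
  (MIn.stO hZ (P := P) r a b).add (MIn.stQC hZ hc r a b)

/-- the factor of the quanta -/
theorem MIn.quFC (hc : MCrC D D1) : MIn fun r O _ _ x => PLT.quFC Z (D r O) x := by
  intro r a b
  have h2 : Measurable fun p : (Fin r → Xo) × ((Fin a → ℝ) × (Fin b → ℝ)) =>
      ∏ i, Z true none (ptC (D r p.1) true (p.2.1 i)) := by
    refine Finset.measurable_fun_prod _ fun i _ => ?_
    refine (congrArg Measurable (funext fun p => ?_)).mpr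
      ((measurable_qsC (c := true) hZ (hc.m r true)).comp (meas_selA r a b i))
    rfl
  have h3 : Measurable fun p : (Fin r → Xo) × ((Fin a → ℝ) × (Fin b → ℝ)) =>
      ∏ i, Z false none (ptC (D r p.1) false (p.2.2 i)) := by
    refine Finset.measurable_fun_prod _ fun i _ => ?_
    refine (congrArg Measurable (funext fun p => ?_)).mpr
      ((measurable_qsC (c := false) hZ (hc.m r false)).comp (meas_selB r a b i))
    rfl
  exact h2.mul h3

/-- **the multiplicative insertion** -/
theorem MIn.FaC {P : Par6} (hc : MCrC D D1) : MIn (PLT.FaC Z P D) := fun r a b =>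
  (MIn.ob6 hZ (P := P) r a b).mul (MIn.quFC hZ hc r a b)

end PLT

end
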