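import Mathlib.Algebra.BigOperators.Group.List.Basic
import Mathlib.Algebra.Order.BigOperators.Group.List
import Mathlib.Data.List.Count
import Mathlib.Data.Real.Basic
import Mathlib.Tactic

/-!
# The list algebra of the clouds (row O1 of THETA, literal of helper56)

The rows of one species: the list `c` of places, every place is one of `x i` (`i : Fin n`), and `k` further rows without a place;
the sea has `N = c.length + k` rows in the proportions `w i`, `|N w i - #(x i in c)| ≤ K0`. A function `f` of the place with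
`|f (x i) - L| ≤ C` (`L = ± 2 log cosh t`): `(c.map f).sum + k L` is `N Σ w i f (x i)` up to `n K0 C`.
-/

set_option autoImplicit false

namespace PLT

namespace MfA

open scoped BigOperators Classical

/-- the sum over the list by places -/
theorem sum_places {n : ℕ} {x : Fin n → ℝ} (hx : Function.Injective x) (f : ℝ → ℝ) :
    ∀ c : List ℝ, (∀ y ∈ c, ∃ i, y = x i) → (c.map f).sum = ∑ i, (c.count (x i) : ℝ) * f (x i) := by
  intro c
  induction c with
  | nil => simp
  | cons y c ih =>
    intro h
    obtain ⟨i0, hi0⟩ := h y List.mem_cons_self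
    have h1 := ih fun z hz => h z (List.mem_cons_of_mem _ hz)
    rw [List.map_cons, List.sum_cons, h1]
    have e : ∀ i, ((List.count (x i) (y :: c) : ℕ) : ℝ) * f (x i) =
        (if i = i0 then f (x i) else 0) + (c.count (x i) : ℝ) * f (x i) := by
      intro i
      rw [List.count_cons]
      by_cases hi : i = i0
      · subst hi
        rw [hi0]
        simp
        ring
      · have : ¬ y = x i := by
          rw [hi0]
          exact fun h => hi (hx h).symm
        simp [this, hi]
    rw [Finset.sum_congr rfl fun i _ => e i, Finset.sum_add_distrib, Finset.sum_ite_eq' Finset.univ i0]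
    simp [hi0]

/-- the number of the rows by places -/
theorem len_places {n : ℕ} {x : Fin n → ℝ} (hx : Function.Injective x) {c : List ℝ}
    (h : ∀ y ∈ c, ∃ i, y = x i) : (c.length : ℝ) = ∑ i, (c.count (x i) : ℝ) := by
  have h1 := sum_places hx (fun _ => 1) c h
  simpa using h1

/-- **the list algebra** -/
theorem list_alg {n : ℕ} {x w : Fin n → ℝ} {c : List ℝ} {k : ℕ} {K0 C L : ℝ} {f : ℝ → ℝ}
    (hx : Function.Injective x) (hw : ∑ i, w i = 1) (hc : ∀ y ∈ c, ∃ i, y = x i)
    (hK : ∀ i, |((c.length : ℝ) + k) * w i - c.count (x i)| ≤ K0) (hf : ∀ i, |f (x i) - L| ≤ C) :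
    |(c.map f).sum + k * L - ((c.length : ℝ) + k) * ∑ i, w i * f (x i)| ≤ n * (K0 * C) := by
  have h1 := sum_places hx f c hc
  have h2 := len_places hx hc
  have e : (c.map f).sum + k * L - ((c.length : ℝ) + k) * ∑ i, w i * f (x i) =
      ∑ i, ((c.count (x i) : ℝ) - ((c.length : ℝ) + k) * w i) * (f (x i) - L) := by
    have a1 : ∀ i, ((c.count (x i) : ℝ) - ((c.length : ℝ) + k) * w i) * (f (x i) - L) =
        (c.count (x i) : ℝ) * f (x i) - ((c.length : ℝ) + k) * (w i * f (x i)) -
          ((c.count (x i) : ℝ) * L - ((c.length : ℝ) + k) * L * w i) := fun i => by ring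
    rw [Finset.sum_congr rfl fun i _ => a1 i, Finset.sum_sub_distrib, Finset.sum_sub_distrib, Finset.sum_sub_distrib,
      ← Finset.mul_sum, ← Finset.sum_mul, ← Finset.mul_sum, hw, ← h2, ← h1]
    ring
  rw [e]
  refine (Finset.abs_sum_le_sum_abs _ _).trans ?_
  have : ∀ i ∈ (Finset.univ : Finset (Fin n)),
      |((c.count (x i) : ℝ) - ((c.length : ℝ) + k) * w i) * (f (x i) - L)| ≤ K0 * C := by
    intro i _
    rw [abs_mul, abs_sub_comm ((c.count (x i) : ℝ))]
    exact mul_le_mul (hK i) (hf i) (abs_nonneg _) ((abs_nonneg _).trans (hK i))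
  refine (Finset.sum_le_sum this).trans ?_
  rw [Finset.sum_const, Finset.card_univ, Fintype.card_fin, nsmul_eq_mul]

/-- the two inequalities -/
theorem list_alg_le {n : ℕ} {x w : Fin n → ℝ} {c : List ℝ} {k : ℕ} {K0 C L : ℝ} {f : ℝ → ℝ}
    (hx : Function.Injective x) (hw : ∑ i, w i = 1) (hc : ∀ y ∈ c, ∃ i, y = x i)
    (hK : ∀ i, |((c.length : ℝ) + k) * w i - c.count (x i)| ≤ K0) (hf : ∀ i, |f (x i) - L| ≤ C) :
    (c.map f).sum + k * L ≤ ((c.length : ℝ) + k) * ∑ i, w i * f (x i) + n * (K0 * C) ∧
      ((c.length : ℝ) + k) * ∑ i, w i * f (x i) ≤ (c.map f).sum + k * L + n * (K0 * C) := by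
  have h := abs_le.1 (list_alg (k := k) hx hw hc hK hf)
  constructor <;> linarith [h.1, h.2]

/-- two places -/
theorem two_places {x0 x1 w0 w1 : ℝ} {c : List ℝ} {k : ℕ} {K0 C L : ℝ} {f : ℝ → ℝ} (hne : x0 ≠ x1) (hw : w0 + w1 = 1)
    (hc : ∀ y ∈ c, y = x0 ∨ y = x1) (hK0 : |((c.length : ℝ) + k) * w0 - c.count x0| ≤ K0)
    (hK1 : |((c.length : ℝ) + k) * w1 - c.count x1| ≤ K0) (hf0 : |f x0 - L| ≤ C) (hf1 : |f x1 - L| ≤ C) :
    |(c.map f).sum + k * L - ((c.length : ℝ) + k) * (w0 * f x0 + w1 * f x1)| ≤ 2 * (K0 * C) := by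
  have hx : Function.Injective ![x0, x1] := by
    intro i j hij
    fin_cases i <;> fin_cases j <;> simp_all
  have h := list_alg (x := ![x0, x1]) (w := ![w0, w1]) (c := c) (k := k) (K0 := K0) (C := C) (L := L) (f := f) hx
    (by simpa using hw) (fun y hy => by
      rcases hc y hy with h | h
      · exact ⟨0, by simpa using h⟩
      · exact ⟨1, by simpa using h⟩)
    (fun i => by fin_cases i <;> simpa) (fun i => by fin_cases i <;> simpa)
  simpa using h

/-- further rows: `m` values near `L` -/
theorem further {α : Type*} {g : α → ℝ} {C L : ℝ} : ∀ e : List α, (∀ y ∈ e, |g y - L| ≤ C) →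
    |(e.map g).sum - e.length * L| ≤ e.length * C := by
  intro e
  induction e with
  | nil => simp
  | cons y e ih =>
    intro h
    have h1 := ih fun z hz => h z (List.mem_cons_of_mem _ hz)
    have h2 := h y List.mem_cons_self
    rw [List.map_cons, List.sum_cons, List.length_cons]
    push_cast
    rw [abs_le] at h1 h2 ⊢
    constructor <;> nlinarith [h1.1, h1.2, h2.1, h2.2]

end MfA

end PLT
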