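import Pool.Agent.PLT.RowT
import Pool.Agent.PLT.Price

/-!
# The row factors at the places of a direction in exponential form

`V = (j + x) l`: offset of the row at the place `x` seen from the line of offset `j`.

* `rwO_le_exp`, `rwO_inv_exp`, `rwX_le_exp`, `rwX_inv_exp`: one row, at every point;
* `lgR c a j t`: the sum of the logarithms of the rows of the content `c`;
* **`rwK_le_exp`**, **`rwK_inv_exp`**: the comparison function `rwK`; **`rwK_zero`**: it vanishes at a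
  pole.
-/

set_option autoImplicit false

noncomputable section

open Complex

namespace PLT

open NUP1 NUGC.PLX PBO.PLX

private theorem l8 : 8 * NUMF.l = Real.pi := by
  have := PBO.PLX.pi_eq
  have h : NUP1.l = NUMF.l := rfl
  rw [h] at this
  linarith

/-- the two sines of an own row -/
private theorem sin_A (V t : ℝ) : 2 * ‖sin (((NUMF.l - V : ℝ) : ℂ) + t * I)‖ ^ 2 =
    Real.cosh (2 * t) + Real.cos (2 * (V - 5 * NUMF.l)) := by
  have h := NUMF.norm_sin_sq (NUMF.l - V) t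
  have e : Real.cos (2 * (V - 5 * NUMF.l)) = -Real.cos (2 * (NUMF.l - V)) := by
    rw [← Real.cos_neg (2 * (NUMF.l - V)), ← Real.cos_sub_pi]
    congr 1
    have := l8
    linarith
  rw [h, e]
  ring

private theorem sin_B (V t : ℝ) : 2 * ‖sin (((-NUMF.l - V : ℝ) : ℂ) + t * I)‖ ^ 2 =
    Real.cosh (2 * t) + Real.cos (2 * (V - 3 * NUMF.l)) := by
  have h := NUMF.norm_sin_sq (-NUMF.l - V) t
  have e : Real.cos (2 * (V - 3 * NUMF.l)) = -Real.cos (2 * (-NUMF.l - V)) := by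
    rw [← Real.cos_neg (2 * (-NUMF.l - V)), ← Real.cos_sub_pi]
    congr 1
    have := l8
    linarith
  rw [h, e]
  ring

private theorem sin_X (V t : ℝ) : 2 * ‖sin (((4 * NUMF.l - V : ℝ) : ℂ) + t * I)‖ ^ 2 =
    Real.cosh (2 * t) + Real.cos (2 * V) := by
  have h := NUMF.norm_sin_sq (4 * NUMF.l - V) t
  have e : Real.cos (2 * (4 * NUMF.l - V)) = -Real.cos (2 * V) := by
    rw [← Real.cos_pi_sub]
    congr 1
    have := l8
    linarith
  rw [h, e]
  ring

private theorem u_x (j x t : ℝ) : vl ((1 - j) * l) t - ((x * l : ℝ) : ℂ) =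
    ((NUMF.l - (j + x) * NUMF.l : ℝ) : ℂ) + t * I := by
  unfold vl
  rw [show (NUP1.l : ℝ) = NUMF.l from rfl]
  push_cast
  ring

private theorem u_x2 (j x t : ℝ) : vl ((1 - j) * l) t - ((x * l : ℝ) : ℂ) - 2 * l =
    ((-NUMF.l - (j + x) * NUMF.l : ℝ) : ℂ) + t * I := by
  rw [u_x]
  rw [show (NUP1.l : ℝ) = NUMF.l from rfl]
  push_cast
  ring

private theorem u_x3 (j x t : ℝ) : vl ((1 - j) * l) t - ((x * l : ℝ) : ℂ) + 3 * l =
    ((4 * NUMF.l - (j + x) * NUMF.l : ℝ) : ℂ) + t * I := by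
  rw [u_x]
  rw [show (NUP1.l : ℝ) = NUMF.l from rfl]
  push_cast
  ring

/-- the own row as norms of two sines -/
theorem rwO_vl (j x t : ℝ) : rwO ((x * l : ℝ) : ℂ) (vl ((1 - j) * l) t) =
    (‖sin (((NUMF.l - (j + x) * NUMF.l : ℝ) : ℂ) + t * I)‖ *
      ‖sin (((-NUMF.l - (j + x) * NUMF.l : ℝ) : ℂ) + t * I)‖)⁻¹ := by
  unfold rwO
  rw [u_x2, u_x]

theorem rwX_vl (j x t : ℝ) : rwX ((x * l : ℝ) : ℂ) (vl ((1 - j) * l) t) =
    ‖sin (((4 * NUMF.l - (j + x) * NUMF.l : ℝ) : ℂ) + t * I)‖ ^ 2 := by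
  unfold rwX
  rw [u_x3]

/-- away from the poles -/
private theorem rO_log {V t : ℝ} (hA : ‖sin (((NUMF.l - V : ℝ) : ℂ) + t * I)‖ ≠ 0)
    (hB : ‖sin (((-NUMF.l - V : ℝ) : ℂ) + t * I)‖ ≠ 0) :
    rO V t = -Real.log (‖sin (((NUMF.l - V : ℝ) : ℂ) + t * I)‖ *
      ‖sin (((-NUMF.l - V : ℝ) : ℂ) + t * I)‖) := by
  unfold rO NUMF.h
  rw [← sin_A, ← sin_B, Real.log_mul (by norm_num) (pow_ne_zero _ hB),
    Real.log_mul (by norm_num) (pow_ne_zero _ hA), Real.log_pow, Real.log_pow, Real.log_mul hA hB]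
  push_cast
  ring

private theorem rX_log {V t : ℝ} (hA : ‖sin (((4 * NUMF.l - V : ℝ) : ℂ) + t * I)‖ ≠ 0) :
    rX V t = Real.log (‖sin (((4 * NUMF.l - V : ℝ) : ℂ) + t * I)‖ ^ 2) := by
  unfold rX NUMF.h
  rw [← sin_X, Real.log_mul (by norm_num) (pow_ne_zero _ hA)]
  ring

/-- **own row from above** -/
theorem rwO_le_exp (j x t : ℝ) : rwO ((x * l : ℝ) : ℂ) (vl ((1 - j) * l) t) ≤
    Real.exp (rO ((j + x) * NUMF.l) t) := by
  rw [rwO_vl]
  rcases eq_or_ne ‖sin (((NUMF.l - (j + x) * NUMF.l : ℝ) : ℂ) + t * I)‖ 0 with hA | hA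
  · rw [hA, zero_mul, inv_zero]
    exact (Real.exp_pos _).le
  rcases eq_or_ne ‖sin (((-NUMF.l - (j + x) * NUMF.l : ℝ) : ℂ) + t * I)‖ 0 with hB | hB
  · rw [hB, mul_zero, inv_zero]
    exact (Real.exp_pos _).le
  rw [rO_log hA hB, Real.exp_neg, Real.exp_log]
  exact mul_pos (lt_of_le_of_ne (norm_nonneg _) hA.symm) (lt_of_le_of_ne (norm_nonneg _) hB.symm)

/-- **inverse of the own row from above** -/
theorem rwO_inv_exp (j x t : ℝ) : (rwO ((x * l : ℝ) : ℂ) (vl ((1 - j) * l) t))⁻¹ ≤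
    Real.exp (-rO ((j + x) * NUMF.l) t) := by
  rw [rwO_vl, inv_inv]
  rcases eq_or_ne ‖sin (((NUMF.l - (j + x) * NUMF.l : ℝ) : ℂ) + t * I)‖ 0 with hA | hA
  · rw [hA, zero_mul]
    exact (Real.exp_pos _).le
  rcases eq_or_ne ‖sin (((-NUMF.l - (j + x) * NUMF.l : ℝ) : ℂ) + t * I)‖ 0 with hB | hB
  · rw [hB, mul_zero]
    exact (Real.exp_pos _).le
  rw [rO_log hA hB, neg_neg, Real.exp_log]
  exact mul_pos (lt_of_le_of_ne (norm_nonneg _) hA.symm) (lt_of_le_of_ne (norm_nonneg _) hB.symm)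

/-- **cross row from above** -/
theorem rwX_le_exp (j x t : ℝ) : rwX ((x * l : ℝ) : ℂ) (vl ((1 - j) * l) t) ≤
    Real.exp (rX ((j + x) * NUMF.l) t) := by
  rw [rwX_vl]
  rcases eq_or_ne ‖sin (((4 * NUMF.l - (j + x) * NUMF.l : ℝ) : ℂ) + t * I)‖ 0 with hA | hA
  · rw [hA, zero_pow (by norm_num)]
    exact (Real.exp_pos _).le
  rw [rX_log hA, Real.exp_log]
  positivity

/-- **inverse of the cross row from above** -/
theorem rwX_inv_exp (j x t : ℝ) : (rwX ((x * l : ℝ) : ℂ) (vl ((1 - j) * l) t))⁻¹ ≤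
    Real.exp (-rX ((j + x) * NUMF.l) t) := by
  rw [rwX_vl]
  rcases eq_or_ne ‖sin (((4 * NUMF.l - (j + x) * NUMF.l : ℝ) : ℂ) + t * I)‖ 0 with hA | hA
  · rw [hA, zero_pow (by norm_num), inv_zero]
    exact (Real.exp_pos _).le
  rw [rX_log hA, Real.exp_neg, Real.exp_log]
  positivity

/-- at the pole the own row is zero (Lean value) -/
theorem rwO_pole {j x : ℝ} (h : j + x = 1) : rwO ((x * l : ℝ) : ℂ) (vl ((1 - j) * l) 0) = 0 := by
  rw [rwO_vl, h, one_mul, sub_self]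
  simp

/-! ### the content -/

/-- the sum of the logarithms of the rows of a content -/
def lgR (c : Bool → List ℝ) (a : Bool) (j t : ℝ) : ℝ :=
  ((c a).map fun x => rO ((j + x) * NUMF.l) t).sum +
    ((c (!a)).map fun x => rX ((j + x) * NUMF.l) t).sum

private theorem prod_le_exp {L : List ℝ} {f g : ℝ → ℝ} (h0 : ∀ x, 0 ≤ f x)
    (h : ∀ x, f x ≤ Real.exp (g x)) : (L.map f).prod ≤ Real.exp (L.map g).sum := by
  induction L with
  | nil => simp
  | cons x L ih =>
    rw [List.map_cons, List.prod_cons, List.map_cons, List.sum_cons, Real.exp_add]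
    exact mul_le_mul (h x) ih (List.prod_nonneg fun b hb => by
      obtain ⟨y, -, rfl⟩ := List.mem_map.1 hb
      exact h0 y) (Real.exp_pos _).le

private theorem rwC_eq (c : Bool → List ℝ) (a : Bool) (u : ℂ) : rwC c a u =
    ((c a).map fun x => rwO ((x * l : ℝ) : ℂ) u).prod *
      ((c (!a)).map fun x => rwX ((x * l : ℝ) : ℂ) u).prod := by
  unfold rwC rwL plc
  rw [List.map_map, List.map_map]
  rfl

/-- the content from above -/
theorem rwC_le_exp (c : Bool → List ℝ) (a : Bool) (j t : ℝ) :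
    rwC c a (vl ((1 - j) * l) t) ≤ Real.exp (lgR c a j t) := by
  rw [rwC_eq]
  unfold lgR
  rw [Real.exp_add]
  exact mul_le_mul (prod_le_exp (fun x => rwO_nonneg _ _) fun x => rwO_le_exp j x t)
    (prod_le_exp (fun x => rwX_nonneg _ _) fun x => rwX_le_exp j x t)
    (List.prod_nonneg fun b hb => by
      obtain ⟨y, -, rfl⟩ := List.mem_map.1 hb
      exact rwX_nonneg _ _) (Real.exp_pos _).le

private theorem inv_prod {L : List ℝ} {f : ℝ → ℝ} : (L.map f).prod⁻¹ = (L.map fun x => (f x)⁻¹).prod := by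
  induction L with
  | nil => simp
  | cons x L ih => rw [List.map_cons, List.prod_cons, mul_inv, ih, List.map_cons, List.prod_cons]

private theorem neg_sum (L : List ℝ) (f : ℝ → ℝ) : -(L.map f).sum = (L.map fun x => -f x).sum := by
  induction L with
  | nil => simp
  | cons x L ih => rw [List.map_cons, List.sum_cons, neg_add, ih, List.map_cons, List.sum_cons]

/-- the inverse of the content from above -/
theorem rwC_inv_exp (c : Bool → List ℝ) (a : Bool) (j t : ℝ) :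
    (rwC c a (vl ((1 - j) * l) t))⁻¹ ≤ Real.exp (-lgR c a j t) := by
  rw [rwC_eq, mul_inv, inv_prod, inv_prod]
  unfold lgR
  rw [neg_add, Real.exp_add, neg_sum, neg_sum]
  exact mul_le_mul (prod_le_exp (fun x => inv_nonneg.2 (rwO_nonneg _ _)) fun x => rwO_inv_exp j x t)
    (prod_le_exp (fun x => inv_nonneg.2 (rwX_nonneg _ _)) fun x => rwX_inv_exp j x t)
    (List.prod_nonneg fun b hb => by
      obtain ⟨y, -, rfl⟩ := List.mem_map.1 hb
      exact inv_nonneg.2 (rwX_nonneg _ _)) (Real.exp_pos _).le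

/-- the factors of the missing rows -/
private theorem mis_exp (p q : ℕ) (t : ℝ) : ((Real.cosh t ^ 2)⁻¹) ^ p * (Real.cosh t ^ 2) ^ q =
    Real.exp (-(p * (2 * Real.log (Real.cosh t))) + q * (2 * Real.log (Real.cosh t))) := by
  have hc := Real.cosh_pos t
  rw [Real.exp_add, Real.exp_neg]
  have h1 : ∀ n : ℕ, Real.exp (n * (2 * Real.log (Real.cosh t))) = (Real.cosh t ^ 2) ^ n := by
    intro n
    rw [Real.exp_nat_mul, show 2 * Real.log (Real.cosh t) = Real.log (Real.cosh t ^ 2) by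
      rw [Real.log_pow]; push_cast; ring, Real.exp_log (by positivity)]
  rw [h1, h1, inv_pow]

private theorem vlim (x t : ℝ) : (vl x t).im = t := by
  unfold vl
  simp

/-- **the comparison function from above** -/
theorem rwK_le_exp (c : Bool → List ℝ) (k : Bool → ℕ) (a : Bool) (j t : ℝ) :
    rwK c k a (vl ((1 - j) * l) t) ≤ Real.exp (lgR c a j t - k a * (2 * Real.log (Real.cosh t)) +
      k (!a) * (2 * Real.log (Real.cosh t))) := by
  unfold rwK
  rw [vlim, mis_exp]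
  refine (mul_le_mul_of_nonneg_right (rwC_le_exp c a j t) (Real.exp_pos _).le).trans (le_of_eq ?_)
  rw [← Real.exp_add]
  congr 1
  ring

/-- **the inverse of the comparison function from above** -/
theorem rwK_inv_exp (c : Bool → List ℝ) (k : Bool → ℕ) (a : Bool) (j t : ℝ) :
    (rwK c k a (vl ((1 - j) * l) t))⁻¹ ≤ Real.exp (-(lgR c a j t - k a * (2 * Real.log (Real.cosh t)) +
      k (!a) * (2 * Real.log (Real.cosh t)))) := by
  unfold rwK
  rw [vlim, mis_exp, mul_inv, ← Real.exp_neg]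
  refine (mul_le_mul_of_nonneg_right (rwC_inv_exp c a j t) (Real.exp_pos _).le).trans (le_of_eq ?_)
  rw [← Real.exp_add]
  congr 1
  ring

/-- the comparison function vanishes at a pole (Lean value) -/
theorem rwK_zero {c : Bool → List ℝ} {k : Bool → ℕ} {a : Bool} {j : ℝ}
    (h : ∃ x ∈ c a, j + x = 1) : rwK c k a (vl ((1 - j) * l) 0) = 0 := by
  obtain ⟨x, hx, hj⟩ := h
  have h1 : ((c a).map fun x => rwO ((x * l : ℝ) : ℂ) (vl ((1 - j) * l) 0)).prod = 0 :=
    List.prod_eq_zero (List.mem_map.2 ⟨x, hx, rwO_pole hj⟩)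
  unfold rwK
  rw [rwC_eq, h1, zero_mul, zero_mul]

end PLT

end
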