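import Pool.Agent.PLT.RowT

/-!
# Rows at the places of a direction, explicit further rows

* `rwE c k ex a u`: the row factor `rwK` of the content times `1 + 1 / |sin (u - x)|` for the further
  rows `x` of the own species (a further row may be on the line of `T`);
* `RwE n0 h0 de miss c k ex W`: `W s` is the content `c s` with the further rows `ex s`;
* **`up_E`**: rows from above on all upper lines; **`inv_E`**: inverse of the rows on the lines of the
  holes; `rwK_le_rwE`; **`rwE_le`**: `rwE ≤ C rwK` away from the further rows.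
-/

set_option autoImplicit false
set_option linter.unusedSectionVars false
set_option linter.unusedVariables false

noncomputable section

open Complex

namespace PLT

open NUP1 NUGC.PLX PBO.PLX

/-! ### one row -/

/-- the pole of one row -/
def plE (x u : ℂ) : ℝ := 1 + ‖sin (u - x)‖⁻¹

theorem one_le_plE (x u : ℂ) : 1 ≤ plE x u := by
  unfold plE
  have := inv_nonneg.2 (norm_nonneg (sin (u - x)))
  linarith

theorem plE_pos (x u : ℂ) : 0 < plE x u := lt_of_lt_of_le one_pos (one_le_plE x u)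

theorem cosh_le_sin (w : ℂ) : Real.cosh w.im ≤ 1 + ‖sin w‖ := by
  have h := NUMF.norm_sin_sq w.re w.im
  have e : (w.re : ℂ) + w.im * I = w := re_add_im w
  rw [e] at h
  have h2 : Real.cos (2 * w.re) ≤ 1 := Real.cos_le_one _
  have h3 := Real.cosh_two_mul w.im
  have h4 := Real.cosh_sq w.im
  have hc := Real.cosh_pos w.im
  have hn := norm_nonneg (sin w)
  have h5 : Real.cosh w.im ^ 2 ≤ 1 + ‖sin w‖ ^ 2 := by rw [h]; linarith
  nlinarith

theorem cosh_sin_inv (w : ℂ) : Real.cosh w.im * ‖sin w‖⁻¹ ≤ 1 + ‖sin w‖⁻¹ := by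
  rcases eq_or_lt_of_le (norm_nonneg (sin w)) with h | h
  · rw [← h, inv_zero, mul_zero]
    norm_num
  · have h1 := cosh_le_sin w
    rw [← div_eq_mul_inv, div_le_iff₀ h, add_mul, one_mul, inv_mul_cancel₀ h.ne']
    linarith

/-- **own part from above**, the row may be near the line -/
theorem rwO_le_e {h0 d : ℝ} {x u : ℂ} (h : 0 < d) (h4 : d ≤ 4) (hx : |x.im| ≤ h0)
    (a3 : d * l ≤ |u.re - x.re - 2 * l|) (a4 : |u.re - x.re - 2 * l| ≤ 8 * l - d * l) :
    rwO x u ≤ cD h0 d * (Real.cosh u.im ^ 2)⁻¹ * plE x u := by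
  have hs := sd_pos h (by linarith)
  have hs1 : sd d ≤ 1 := Real.sin_le_one _
  have e2 : (u - x - 2 * l).re = u.re - x.re - 2 * l := by simp
  have i1 : (u - x - 2 * l).im = (u - x).im := by simp
  have b2 := sin_sd (z := u - x - 2 * l) h h4 (by rw [e2]; exact a3) (by rw [e2]; exact a4)
  rw [i1] at b2
  have b1 := cosh_sin_inv (u - x)
  have hc := Real.cosh_pos (u - x).im
  have hc0 := Real.cosh_pos u.im
  have hE := Real.exp_pos (2 * h0)
  have h3 : Real.cosh u.im ^ 2 ≤ Real.exp (2 * h0) * Real.cosh (u - x).im ^ 2 := by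
    have := cosh_sq_sub (u := u) (x := 0) (x' := x) (h0 := h0)
      (by rw [zero_im, zero_sub, abs_neg]; exact hx)
    rwa [sub_zero] at this
  have h6 : (Real.cosh (u - x).im ^ 2)⁻¹ ≤ Real.exp (2 * h0) * (Real.cosh u.im ^ 2)⁻¹ := by
    rw [← div_eq_mul_inv, le_div_iff₀ (by positivity), inv_mul_eq_div, div_le_iff₀ (by positivity)]
    exact h3
  have c1 : ‖sin (u - x)‖⁻¹ ≤ (Real.cosh (u - x).im)⁻¹ * plE x u := by
    unfold plE
    rw [inv_mul_eq_div, le_div_iff₀ hc, mul_comm]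
    exact b1
  have c2 : ‖sin (u - x - 2 * l)‖⁻¹ ≤ (sd d)⁻¹ * (Real.cosh (u - x).im)⁻¹ := by
    rw [← mul_inv]
    exact inv_anti₀ (by positivity) b2
  have c3 : (sd d)⁻¹ ≤ (sd d ^ 2)⁻¹ := inv_anti₀ (by positivity) (by nlinarith)
  have hp := (plE_pos x u).le
  unfold rwO cD
  rw [mul_inv]
  calc ‖sin (u - x)‖⁻¹ * ‖sin (u - x - 2 * l)‖⁻¹ ≤
      ((Real.cosh (u - x).im)⁻¹ * plE x u) * ((sd d)⁻¹ * (Real.cosh (u - x).im)⁻¹) :=
        mul_le_mul c1 c2 (inv_nonneg.2 (norm_nonneg _)) (mul_nonneg (inv_pos.2 hc).le hp)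
    _ = (sd d)⁻¹ * (Real.cosh (u - x).im ^ 2)⁻¹ * plE x u := by
        rw [sq, mul_inv]
        ring
    _ ≤ (sd d ^ 2)⁻¹ * (Real.exp (2 * h0) * (Real.cosh u.im ^ 2)⁻¹) * plE x u := by gcongr
    _ = _ := by ring

/-- **inverse of the own part from above**, with the zero at the row -/
theorem rwO_inv_e {h0 : ℝ} {x u : ℂ} (hx : |x.im| ≤ h0) :
    (rwO x u)⁻¹ ≤ 2 * Real.exp (2 * h0) * Real.cosh u.im ^ 2 * (plE x u)⁻¹ := by
  unfold rwO
  rw [inv_inv]
  have i1 : (u - x - 2 * l).im = (u - x).im := by simp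
  have b1 := sin_up (u - x)
  have b2 := sin_up (u - x - 2 * l)
  rw [i1] at b2
  have hc := Real.cosh_pos (u - x).im
  have h1 : 1 ≤ Real.cosh (u - x).im := Real.one_le_cosh _
  have h3 : Real.cosh (u - x).im ^ 2 ≤ Real.exp (2 * h0) * Real.cosh u.im ^ 2 := by
    have := cosh_sq_sub (u := u) (x := x) (x' := 0) (h0 := h0) (by rw [zero_im, sub_zero]; exact hx)
    rwa [sub_zero] at this
  have hp := plE_pos x u
  have b3 : ‖sin (u - x)‖ ≤ 2 * Real.cosh (u - x).im * (plE x u)⁻¹ := by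
    rw [← div_eq_mul_inv, le_div_iff₀ hp]
    unfold plE
    rcases eq_or_lt_of_le (norm_nonneg (sin (u - x))) with h | h
    · rw [← h, zero_mul]
      positivity
    · rw [mul_add, mul_one, mul_inv_cancel₀ h.ne']
      linarith
  have hp' := (inv_pos.2 hp).le
  calc ‖sin (u - x)‖ * ‖sin (u - x - 2 * l)‖ ≤
      (2 * Real.cosh (u - x).im * (plE x u)⁻¹) * Real.cosh (u - x).im :=
        mul_le_mul b3 b2 (norm_nonneg _) (by positivity)
    _ = 2 * Real.cosh (u - x).im ^ 2 * (plE x u)⁻¹ := by ring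
    _ ≤ 2 * (Real.exp (2 * h0) * Real.cosh u.im ^ 2) * (plE x u)⁻¹ := by gcongr
    _ = _ := by ring

/-! ### lists -/

/-- the poles of the further rows -/
def plL (X : List ℂ) (u : ℂ) : ℝ := (X.map fun x => plE x u).prod

theorem one_le_plL (X : List ℂ) (u : ℂ) : 1 ≤ plL X u := by
  unfold plL
  induction X with
  | nil => simp
  | cons x X ih =>
    rw [List.map_cons, List.prod_cons]
    have := one_le_plE x u
    nlinarith

theorem plL_pos (X : List ℂ) (u : ℂ) : 0 < plL X u := lt_of_lt_of_le one_pos (one_le_plL X u)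

/-- a product over a list against a power of one value and a product -/
theorem prod_cmp2 {X : List ℂ} {f g : ℂ → ℝ} {c b : ℝ} (hc : 0 ≤ c) (hb : 0 ≤ b)
    (h0 : ∀ x, 0 ≤ f x) (hg : ∀ x, 0 ≤ g x) (h : ∀ x ∈ X, f x ≤ c * b * g x) :
    (X.map f).prod ≤ c ^ X.length * b ^ X.length * (X.map g).prod := by
  induction X with
  | nil => simp
  | cons x X ih =>
    have i1 := ih fun y hy => h y (by simp [hy])
    have a1 := h x (by simp)
    rw [List.map_cons, List.prod_cons, List.length_cons, pow_succ, pow_succ, List.map_cons,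
      List.prod_cons]
    have p : 0 ≤ (X.map f).prod := List.prod_nonneg fun b hb => by
      obtain ⟨y, -, rfl⟩ := List.mem_map.1 hb
      exact h0 y
    calc f x * (X.map f).prod ≤ (c * b * g x) * (c ^ X.length * b ^ X.length * (X.map g).prod) :=
          mul_le_mul a1 i1 p (mul_nonneg (mul_nonneg hc hb) (hg x))
      _ = _ := by ring

/-- **row factor of the content and of the further rows** -/
def rwE (c : Bool → List ℝ) (k : Bool → ℕ) (ex : Bool → List ℂ) (a : Bool) (u : ℂ) : ℝ :=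
  rwK c k a u * ((ex a).map fun x => 1 + ‖sin (u - x)‖⁻¹).prod

theorem rwE_eq (c : Bool → List ℝ) (k : Bool → ℕ) (ex : Bool → List ℂ) (a : Bool) (u : ℂ) :
    rwE c k ex a u = rwK c k a u * plL (ex a) u := rfl

theorem rwE_nonneg (c : Bool → List ℝ) (k : Bool → ℕ) (ex : Bool → List ℂ) (a : Bool) (u : ℂ) :
    0 ≤ rwE c k ex a u := mul_nonneg (rwK_nonneg c k a u) (plL_pos (ex a) u).le

theorem rwK_le_rwE (c : Bool → List ℝ) (k : Bool → ℕ) (ex : Bool → List ℂ) (a : Bool) (u : ℂ) :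
    rwK c k a u ≤ rwE c k ex a u :=
  le_mul_of_one_le_right (rwK_nonneg c k a u) (one_le_plL (ex a) u)

/-- **rows: the content `c` and the further rows `ex`**, `k` rows of the sea are not in `c` -/
structure RwE (n0 : ℕ) (h0 de : ℝ) (miss : ℕ) (c : Bool → List ℝ) (k : Bool → ℕ)
    (ex W : Bool → List ℂ) : Prop where
  hh : 0 ≤ h0
  de0 : 0 < de
  de1 : de ≤ 1 / 50
  kn : ∀ s, k s ≤ n0
  perm : ∀ s, (W s).Perm (plc (c s) ++ ex s)
  len : ∀ s, (ex s).length + miss = k s
  re : ∀ s, ∀ x ∈ ex s, -((1 - de) * l) ≤ x.re ∧ x.re ≤ (1 / 2 - de) * l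
  im : ∀ s, ∀ x ∈ ex s, |x.im| ≤ h0

/-- constant of the rows -/
def cRE (n0 : ℕ) (h0 de : ℝ) : ℝ := cD h0 de ^ n0 * (2 * Real.exp (2 * h0)) ^ n0

theorem cRE_pos {n0 : ℕ} {h0 de : ℝ} (hh : 0 ≤ h0) (h : 0 < de) (h1 : de ≤ 1 / 50) :
    0 < cRE n0 h0 de :=
  mul_pos (pow_pos (lt_of_lt_of_le one_pos (one_le_cD hh h (by linarith))) _)
    (pow_pos (by have := Real.exp_pos (2 * h0); positivity) _)

private theorem pow_join {b B : ℝ} (hbB : b * B = 1) (m p q : ℕ) :
    b ^ p * B ^ q = b ^ (p + m) * B ^ (q + m) := by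
  rw [pow_add, pow_add]
  have : b ^ m * B ^ m = 1 := by rw [← mul_pow, hbB, one_pow]
  calc b ^ p * B ^ q = b ^ p * B ^ q * (b ^ m * B ^ m) := by rw [this, mul_one]
    _ = _ := by ring

section main
variable {n0 : ℕ} {h0 de : ℝ} {miss : ℕ} {c : Bool → List ℝ} {k : Bool → ℕ} {ex W : Bool → List ℂ}
  {u : ℂ}

theorem RwE.exn (h : RwE n0 h0 de miss c k ex W) (s : Bool) : (ex s).length ≤ n0 := by
  have := h.len s
  have := h.kn s
  omega

/-- **rows from above** on all upper lines -/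
theorem up_E (h : RwE n0 h0 de miss c k ex W) (s : Bool) (hu1 : -(5 / 2 * l) ≤ u.re)
    (hu2 : u.re ≤ l) : rwL W s u ≤ cRE n0 h0 de * rwE c k ex s u := by
  have hl := l_pos
  have hh := h.hh
  have d0 := h.de0
  have d1 := h.de1
  have hc := Real.cosh_pos u.im
  have hdl : 0 < de * l := by positivity
  have hdl1 : de * l ≤ 1 / 50 * l := mul_le_mul_of_nonneg_right d1 hl.le
  have hcD := one_le_cD hh d0 (by linarith : de < 8)
  have hE : 1 ≤ Real.exp (2 * h0) := Real.one_le_exp (by positivity)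
  have q1 : ((ex s).map fun x => rwO x u).prod ≤
      cD h0 de ^ (ex s).length * ((Real.cosh u.im ^ 2)⁻¹) ^ (ex s).length * plL (ex s) u := by
    refine prod_cmp2 (by linarith) (by positivity) (fun x => rwO_nonneg x u)
      (fun x => (plE_pos x u).le) fun x hx => ?_
    obtain ⟨x1, x2⟩ := h.re s x hx
    have y1 : -(l - de * l) ≤ x.re := by linarith
    have y2 : x.re ≤ 1 / 2 * l - de * l := by linarith
    refine rwO_le_e d0 (by linarith) (h.im s x hx) ?_ ?_
    · rw [le_abs]; right; linarith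
    · rw [abs_le]; constructor <;> linarith
  have q2 : ((ex (!s)).map fun x => rwX x u).prod ≤
      Real.exp (2 * h0) ^ (ex (!s)).length * (Real.cosh u.im ^ 2) ^ (ex (!s)).length :=
    prod_cmp (by linarith) (by positivity) (fun x => rwX_nonneg x u) fun x hx =>
      rwX_le_d (h.im (!s) x hx)
  have p2 : 0 ≤ ((ex (!s)).map fun x => rwX x u).prod := List.prod_nonneg fun b hb => by
    obtain ⟨y, -, rfl⟩ := List.mem_map.1 hb
    exact rwX_nonneg y u
  have hbB : (Real.cosh u.im ^ 2)⁻¹ * Real.cosh u.im ^ 2 = 1 := inv_mul_cancel₀ (by positivity)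
  have ej := pow_join hbB miss (ex s).length (ex (!s)).length
  rw [h.len s, h.len (!s)] at ej
  rw [rwL_split h.perm s u, rwE_eq]
  unfold rwK cRE
  rw [← ej]
  have hC := rwC_nonneg c s u
  have hP := (plL_pos (ex s) u).le
  have l1 := h.exn s
  have l2 := h.exn (!s)
  have e2' : Real.exp (2 * h0) ^ (ex (!s)).length ≤ (2 * Real.exp (2 * h0)) ^ n0 :=
    (pow_le_pow_left₀ (by positivity) (by linarith) _).trans
      (pow_le_pow_right₀ (by linarith) l2)
  calc rwC c s u * (((ex s).map fun x => rwO x u).prod * ((ex (!s)).map fun x => rwX x u).prod) ≤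
      rwC c s u * ((cD h0 de ^ (ex s).length * ((Real.cosh u.im ^ 2)⁻¹) ^ (ex s).length *
        plL (ex s) u) * (Real.exp (2 * h0) ^ (ex (!s)).length *
          (Real.cosh u.im ^ 2) ^ (ex (!s)).length)) :=
        mul_le_mul_of_nonneg_left (mul_le_mul q1 q2 p2 (by positivity)) hC
    _ ≤ rwC c s u * ((cD h0 de ^ n0 * ((Real.cosh u.im ^ 2)⁻¹) ^ (ex s).length * plL (ex s) u) *
        ((2 * Real.exp (2 * h0)) ^ n0 * (Real.cosh u.im ^ 2) ^ (ex (!s)).length)) := by
        have e1 := pow_le_pow_right₀ hcD l1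
        gcongr
    _ = _ := by ring

/-- **the inverse of the rows** on the lines of the holes -/
theorem inv_E (h : RwE n0 h0 de miss c k ex W) (s : Bool) (hu1 : 0 ≤ u.re) (hu2 : u.re ≤ l) :
    (rwL W s u)⁻¹ ≤ cRE n0 h0 de * (rwE c k ex s u)⁻¹ := by
  have hl := l_pos
  have hh := h.hh
  have d0 := h.de0
  have d1 := h.de1
  have hc := Real.cosh_pos u.im
  have hdl : 0 < de * l := by positivity
  have hdl1 : de * l ≤ 1 / 50 * l := mul_le_mul_of_nonneg_right d1 hl.le
  have hcD := one_le_cD hh d0 (by linarith : de < 8)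
  have hE : 1 ≤ Real.exp (2 * h0) := Real.one_le_exp (by positivity)
  have q1 : ((ex s).map fun x => (rwO x u)⁻¹).prod ≤
      (2 * Real.exp (2 * h0)) ^ (ex s).length * (Real.cosh u.im ^ 2) ^ (ex s).length *
        ((ex s).map fun x => (plE x u)⁻¹).prod :=
    prod_cmp2 (by linarith) (by positivity) (fun x => inv_nonneg.2 (rwO_nonneg x u))
      (fun x => (inv_pos.2 (plE_pos x u)).le) fun x hx => rwO_inv_e (h.im s x hx)
  have q2 : ((ex (!s)).map fun x => (rwX x u)⁻¹).prod ≤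
      cD h0 de ^ (ex (!s)).length * ((Real.cosh u.im ^ 2)⁻¹) ^ (ex (!s)).length := by
    refine prod_cmp (by linarith) (by positivity) (fun x => inv_nonneg.2 (rwX_nonneg x u))
      fun x hx => ?_
    obtain ⟨x1, x2⟩ := h.re (!s) x hx
    have y1 : -(l - de * l) ≤ x.re := by linarith
    have y2 : x.re ≤ 1 / 2 * l - de * l := by linarith
    refine rwX_inv_d d0 (by linarith) (h.im (!s) x hx) ?_ ?_
    · rw [le_abs]; left; linarith
    · rw [abs_le]; constructor <;> linarith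
  have p2 : 0 ≤ ((ex (!s)).map fun x => (rwX x u)⁻¹).prod := List.prod_nonneg fun b hb => by
    obtain ⟨y, -, rfl⟩ := List.mem_map.1 hb
    exact inv_nonneg.2 (rwX_nonneg y u)
  have hbB : Real.cosh u.im ^ 2 * (Real.cosh u.im ^ 2)⁻¹ = 1 := mul_inv_cancel₀ (by positivity)
  have ej := pow_join hbB miss (ex s).length (ex (!s)).length
  rw [h.len s, h.len (!s)] at ej
  rw [rwL_split h.perm s u, mul_inv, mul_inv, inv_prod_map, inv_prod_map]
  have eP : ((ex s).map fun x => (plE x u)⁻¹).prod = (plL (ex s) u)⁻¹ := (inv_prod_map _ _).symm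
  rw [eP] at q1
  have eK : (rwE c k ex s u)⁻¹ = (rwC c s u)⁻¹ * ((Real.cosh u.im ^ 2) ^ k s *
      ((Real.cosh u.im ^ 2)⁻¹) ^ k (!s)) * (plL (ex s) u)⁻¹ := by
    rw [rwE_eq]
    unfold rwK
    rw [mul_inv, mul_inv, mul_inv, ← inv_pow, inv_inv, ← inv_pow]
  rw [eK, ← ej]
  unfold cRE
  have hC := inv_nonneg.2 (rwC_nonneg c s u)
  have hP := (inv_pos.2 (plL_pos (ex s) u)).le
  have l1 := h.exn s
  have l2 := h.exn (!s)
  calc (rwC c s u)⁻¹ * (((ex s).map fun x => (rwO x u)⁻¹).prod *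
        ((ex (!s)).map fun x => (rwX x u)⁻¹).prod) ≤
      (rwC c s u)⁻¹ * (((2 * Real.exp (2 * h0)) ^ (ex s).length *
        (Real.cosh u.im ^ 2) ^ (ex s).length * (plL (ex s) u)⁻¹) *
        (cD h0 de ^ (ex (!s)).length * ((Real.cosh u.im ^ 2)⁻¹) ^ (ex (!s)).length)) :=
        mul_le_mul_of_nonneg_left (mul_le_mul q1 q2 p2 (by positivity)) hC
    _ ≤ (rwC c s u)⁻¹ * (((2 * Real.exp (2 * h0)) ^ n0 * (Real.cosh u.im ^ 2) ^ (ex s).length *
        (plL (ex s) u)⁻¹) * (cD h0 de ^ n0 * ((Real.cosh u.im ^ 2)⁻¹) ^ (ex (!s)).length)) := by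
        have e1 := pow_le_pow_right₀ hcD l2
        have e2 : (2 * Real.exp (2 * h0)) ^ (ex s).length ≤ (2 * Real.exp (2 * h0)) ^ n0 :=
          pow_le_pow_right₀ (by linarith) l1
        gcongr
    _ = _ := by ring

/-- **away from the further rows** -/
theorem rwE_le (h : RwE n0 h0 de miss c k ex W) (s : Bool)
    (hu : (-(5 / 2 * l) ≤ u.re ∧ u.re ≤ -(101 / 100 * l)) ∨ (13 / 25 * l ≤ u.re ∧ u.re ≤ l)) :
    rwE c k ex s u ≤ (2 * (sd de)⁻¹) ^ n0 * rwK c k s u := by
  have hl := l_pos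
  have hh := h.hh
  have d0 := h.de0
  have d1 := h.de1
  have hs := sd_pos d0 (by linarith)
  have hs1 : 1 ≤ (sd de)⁻¹ := (one_le_inv₀ hs).2 (Real.sin_le_one _)
  have hdl : 0 < de * l := by positivity
  have hdl1 : de * l ≤ 1 / 50 * l := mul_le_mul_of_nonneg_right d1 hl.le
  have q1 : plL (ex s) u ≤ (2 * (sd de)⁻¹) ^ (ex s).length * 1 ^ (ex s).length := by
    refine prod_cmp (by linarith) zero_le_one (fun x => (plE_pos x u).le) fun x hx => ?_
    obtain ⟨x1, x2⟩ := h.re s x hx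
    have y1 : -(l - de * l) ≤ x.re := by linarith
    have y2 : x.re ≤ 1 / 2 * l - de * l := by linarith
    have a1 : de * l ≤ |u.re - x.re| := by
      rcases hu with ⟨u1, u2⟩ | ⟨u1, u2⟩
      · rw [le_abs]; right; linarith
      · rw [le_abs]; left; linarith
    have a2 : |u.re - x.re| ≤ 8 * l - de * l := by
      rcases hu with ⟨u1, u2⟩ | ⟨u1, u2⟩
      · rw [abs_le]; constructor <;> linarith
      · rw [abs_le]; constructor <;> linarith
    have e1 : (u - x).re = u.re - x.re := sub_re _ _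
    have b1 := sin_sd (z := u - x) d0 (by linarith) (by rw [e1]; exact a1) (by rw [e1]; exact a2)
    have hc : 1 ≤ Real.cosh (u - x).im := Real.one_le_cosh _
    have b2 : sd de ≤ ‖sin (u - x)‖ := le_trans (le_mul_of_one_le_right hs.le hc) b1
    have b3 : ‖sin (u - x)‖⁻¹ ≤ (sd de)⁻¹ := inv_anti₀ hs b2
    unfold plE
    linarith
  rw [one_pow, mul_one] at q1
  rw [rwE_eq, mul_comm]
  refine mul_le_mul_of_nonneg_right (q1.trans ?_) (rwK_nonneg c k s u)
  exact pow_le_pow_right₀ (by linarith) (h.exn s)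

end main

end PLT

end
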