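import Pool.Agent.PLT.Cnt
import Pool.Agent.PLT.MfR
import Pool.Agent.PLT.MfoC
import Pool.Agent.PLT.PriceB
import Pool.Agent.PLT.RowE
import Pool.Agent.PLT.ObR
import Pool.Agent.PLT.BrT
import Pool.Agent.PLT.PolA

/-!
# Rows and clouds at the offsets of the six kinds, for a content and its sea

* `nC c k a`: the number of rows of the sea;
* `rwK_up`, `rwK_inv`: rows times cloud, from the identities of the single rows;
* **`mf_of`**: `Mf P C (rwE c k ex) (Cv.clo (nC c k)) (prC c) (pTE c ex)` for every content `c` with `k`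
  missing rows and the further rows `ex`, with one constant.
-/

set_option autoImplicit false

noncomputable section

open Complex

namespace PLT

open NUP1 NUGC.PLX PBO.PLX PHK

/-- the number of rows of the sea -/
def nC (c : Bool → List ℝ) (k : Bool → ℕ) (a : Bool) : ℝ := ((c a).length : ℝ) + k a

/-- the growth at the line of `T` -/
def pTE (c : Bool → List ℝ) (ex : Bool → List ℂ) (a : Bool) (t : ℝ) : ℝ := SAt (c a) t + SAe (ex a) t

/-- `2 log cosh t` -/
def lc2 (t : ℝ) : ℝ := 2 * Real.log (Real.cosh t)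

section core

variable {ι : Type*} [Fintype ι] [SeaC] {de hi K0 : ℝ} {w p : ι → ℝ} {c : Bool → List ℝ}
  {k : Bool → ℕ}

/-- the cloud of the sea over the rows of the content -/
theorem clo_core (hS : SeaOf de hi w p) (hc : ∀ a, Cnt K0 w p (c a) (k a)) {co cx : ℝ → ℝ}
    {j t C : ℝ} (e1 : Cv.clP j t = ∑ i, w i * co ((j + p i) * NUMF.l))
    (e2 : Cv.clX j t = ∑ i, w i * cx ((j + p i) * NUMF.l))
    (b1 : ∀ i, |co ((j + p i) * NUMF.l) - lc2 t| ≤ C)
    (b2 : ∀ i, |cx ((j + p i) * NUMF.l) + lc2 t| ≤ C) (a : Bool) :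
    |Cv.clo (nC c k) a j t - ((((c a).map fun x => co ((j + x) * NUMF.l)).sum + k a * lc2 t) +
      (((c (!a)).map fun x => cx ((j + x) * NUMF.l)).sum + k (!a) * (-lc2 t)))| ≤
      2 * (Fintype.card ι * (K0 * C)) := by
  have h1 := (hc a).alg hS.mass (f := fun x => co ((j + x) * NUMF.l)) b1
  have h2 := (hc (!a)).alg hS.mass (f := fun x => cx ((j + x) * NUMF.l)) (L := -lc2 t) (C := C)
    (fun i => by rw [sub_neg_eq_add]; exact b2 i)
  have e : Cv.clo (nC c k) a j t - ((((c a).map fun x => co ((j + x) * NUMF.l)).sum + k a * lc2 t) +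
      (((c (!a)).map fun x => cx ((j + x) * NUMF.l)).sum + k (!a) * (-lc2 t))) =
      ((((c a).length : ℝ) + k a) * ∑ i, w i * co ((j + p i) * NUMF.l) -
        (((c a).map fun x => co ((j + x) * NUMF.l)).sum + k a * lc2 t)) +
      ((((c (!a)).length : ℝ) + k (!a)) * ∑ i, w i * cx ((j + p i) * NUMF.l) -
        (((c (!a)).map fun x => cx ((j + x) * NUMF.l)).sum + k (!a) * (-lc2 t))) := by
    unfold Cv.clo nC
    rw [e1, e2]
    ring
  rw [e]
  exact (abs_add_le _ _).trans (by linarith)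

omit [SeaC] [Fintype ι] in
/-- sum over a list of a sum of two functions -/
theorem sum_add_map (L : List ℝ) (f g : ℝ → ℝ) :
    (L.map f).sum + (L.map g).sum = (L.map fun x => f x + g x).sum := by
  induction L with
  | nil => simp
  | cons x L ih =>
    rw [List.map_cons, List.map_cons, List.map_cons, List.sum_cons, List.sum_cons, List.sum_cons, ← ih]
    ring

/-- the exponent: rows and clouds -/
theorem exp_core (hS : SeaOf de hi w p) (hc : ∀ a, Cnt K0 w p (c a) (k a)) {co cx A B : ℝ → ℝ}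
    {j t C : ℝ} (e1 : Cv.clP j t = ∑ i, w i * co ((j + p i) * NUMF.l))
    (e2 : Cv.clX j t = ∑ i, w i * cx ((j + p i) * NUMF.l))
    (b1 : ∀ i, |co ((j + p i) * NUMF.l) - lc2 t| ≤ C)
    (b2 : ∀ i, |cx ((j + p i) * NUMF.l) + lc2 t| ≤ C) (a : Bool)
    (hA : ∀ x ∈ c a, rO ((j + x) * NUMF.l) t + co ((j + x) * NUMF.l) = A x)
    (hB : ∀ x ∈ c (!a), rX ((j + x) * NUMF.l) t + cx ((j + x) * NUMF.l) = B x) :
    |(lgR c a j t - k a * (2 * Real.log (Real.cosh t)) + k (!a) * (2 * Real.log (Real.cosh t))) +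
      Cv.clo (nC c k) a j t - (((c a).map A).sum + ((c (!a)).map B).sum)| ≤
      2 * (Fintype.card ι * (K0 * C)) := by
  have h := clo_core hS hc e1 e2 b1 b2 a
  have s1 : ((c a).map fun x => rO ((j + x) * NUMF.l) t).sum +
      ((c a).map fun x => co ((j + x) * NUMF.l)).sum = ((c a).map A).sum := by
    rw [sum_add_map]
    exact congrArg List.sum (List.map_congr_left hA)
  have s2 : ((c (!a)).map fun x => rX ((j + x) * NUMF.l) t).sum +
      ((c (!a)).map fun x => cx ((j + x) * NUMF.l)).sum = ((c (!a)).map B).sum := by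
    rw [sum_add_map]
    exact congrArg List.sum (List.map_congr_left hB)
  rw [← s1, ← s2]
  refine le_trans (le_of_eq ?_) h
  congr 1
  unfold lgR lc2
  ring

/-- **rows times cloud from above** -/
theorem rwK_up (hS : SeaOf de hi w p) (hc : ∀ a, Cnt K0 w p (c a) (k a)) {co cx A B : ℝ → ℝ}
    {j t C : ℝ} (e1 : Cv.clP j t = ∑ i, w i * co ((j + p i) * NUMF.l))
    (e2 : Cv.clX j t = ∑ i, w i * cx ((j + p i) * NUMF.l))
    (b1 : ∀ i, |co ((j + p i) * NUMF.l) - lc2 t| ≤ C)
    (b2 : ∀ i, |cx ((j + p i) * NUMF.l) + lc2 t| ≤ C) (a : Bool)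
    (hA : ∀ x ∈ c a, (j + x ≠ 1 ∨ t ≠ 0) → rO ((j + x) * NUMF.l) t + co ((j + x) * NUMF.l) = A x)
    (hB : ∀ x ∈ c (!a), rX ((j + x) * NUMF.l) t + cx ((j + x) * NUMF.l) = B x) :
    rwK c k a (vl ((1 - j) * l) t) * Real.exp (Cv.clo (nC c k) a j t) ≤
      Real.exp (2 * (Fintype.card ι * (K0 * C))) *
        Real.exp (((c a).map A).sum + ((c (!a)).map B).sum) := by
  by_cases hz : t = 0 ∧ ∃ x ∈ c a, j + x = 1
  · obtain ⟨ht, hx⟩ := hz
    rw [ht, rwK_zero hx, zero_mul]
    positivity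
  · have hA' : ∀ x ∈ c a, rO ((j + x) * NUMF.l) t + co ((j + x) * NUMF.l) = A x := fun x hx => by
      refine hA x hx ?_
      by_contra hn
      push Not at hn
      exact hz ⟨hn.2, x, hx, hn.1⟩
    have h := exp_core hS hc e1 e2 b1 b2 a hA' hB
    refine (mul_le_mul_of_nonneg_right (rwK_le_exp c k a j t) (Real.exp_pos _).le).trans ?_
    rw [← Real.exp_add, ← Real.exp_add]
    refine Real.exp_le_exp.2 ?_
    have := (abs_le.1 h).2
    linarith

/-- **the inverse of rows times cloud from above** -/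
theorem rwK_inv (hS : SeaOf de hi w p) (hc : ∀ a, Cnt K0 w p (c a) (k a)) {co cx A B : ℝ → ℝ}
    {j t C : ℝ} (e1 : Cv.clP j t = ∑ i, w i * co ((j + p i) * NUMF.l))
    (e2 : Cv.clX j t = ∑ i, w i * cx ((j + p i) * NUMF.l))
    (b1 : ∀ i, |co ((j + p i) * NUMF.l) - lc2 t| ≤ C)
    (b2 : ∀ i, |cx ((j + p i) * NUMF.l) + lc2 t| ≤ C) (a : Bool)
    (hA : ∀ x ∈ c a, (j + x ≠ 1 ∨ t ≠ 0) → rO ((j + x) * NUMF.l) t + co ((j + x) * NUMF.l) = A x)
    (hB : ∀ x ∈ c (!a), rX ((j + x) * NUMF.l) t + cx ((j + x) * NUMF.l) = B x) :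
    (rwK c k a (vl ((1 - j) * l) t))⁻¹ * Real.exp (-Cv.clo (nC c k) a j t) ≤
      Real.exp (2 * (Fintype.card ι * (K0 * C))) *
        Real.exp (-(((c a).map A).sum + ((c (!a)).map B).sum)) := by
  by_cases hz : t = 0 ∧ ∃ x ∈ c a, j + x = 1
  · obtain ⟨ht, hx⟩ := hz
    rw [ht, rwK_zero hx, inv_zero, zero_mul]
    positivity
  · have hA' : ∀ x ∈ c a, rO ((j + x) * NUMF.l) t + co ((j + x) * NUMF.l) = A x := fun x hx => by
      refine hA x hx ?_
      by_contra hn
      push Not at hn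
      exact hz ⟨hn.2, x, hx, hn.1⟩
    have h := exp_core hS hc e1 e2 b1 b2 a hA' hB
    refine (mul_le_mul_of_nonneg_right (rwK_inv_exp c k a j t) (Real.exp_pos _).le).trans ?_
    rw [← Real.exp_add, ← Real.exp_add]
    refine Real.exp_le_exp.2 ?_
    have := (abs_le.1 h).1
    linarith

end core

/-! ### the windows -/

section win

variable {ι : Type*} [Fintype ι] [SeaC] {de hi : ℝ} {w p : ι → ℝ}

omit [SeaC] [Fintype ι] in
private theorem vj (j x : ℝ) : (j + x) * NUMF.l = j * NUMF.l + x * NUMF.l := by ring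

/-- own cloud, first window -/
theorem win1 (hS : SeaOf de hi w p) {j : ℝ} (h1 : hi < j) (h2 : j < 1) (t : ℝ) :
    Cv.clP j t = ∑ i, w i * (fun V => co1 V t) ((j + p i) * NUMF.l) := by
  have hl := NUMF.l_pos
  have h := (clP_1 hS.cur (j := j) (by nlinarith) (by nlinarith) t).2
  refine Eq.trans h (Finset.sum_congr rfl fun i _ => ?_)
  simp only
  rw [vj]

theorem win2 (hS : SeaOf de hi w p) {j : ℝ} (h1 : 1 + hi < j) (h2 : j < 2) (t : ℝ) :
    Cv.clP j t = ∑ i, w i * (fun V => co2 V t) ((j + p i) * NUMF.l) := by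
  have hl := NUMF.l_pos
  have h := (clP_2 hS.cur (j := j) (by nlinarith) (by nlinarith) t).2
  refine Eq.trans h (Finset.sum_congr rfl fun i _ => ?_)
  simp only
  rw [vj]

theorem win3 (hS : SeaOf de hi w p) {j : ℝ} (h1 : 2 + hi < j) (h2 : j < 4) (t : ℝ) :
    Cv.clP j t = ∑ i, w i * (fun V => co3 V t) ((j + p i) * NUMF.l) := by
  have hl := NUMF.l_pos
  have h := (clP_3 hS.cur (j := j) (by nlinarith) (by nlinarith) t).2
  refine Eq.trans h (Finset.sum_congr rfl fun i _ => ?_)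
  simp only
  rw [vj]

theorem winX1 (hS : SeaOf de hi w p) {j : ℝ} (h1 : hi - 3 < j) (h2 : j < 3) (t : ℝ) :
    Cv.clX j t = ∑ i, w i * (fun V => cx1 V t) ((j + p i) * NUMF.l) := by
  have hl := NUMF.l_pos
  have h := (clX_1 hS.cur (j := j) (by nlinarith) (by nlinarith) t).2
  refine Eq.trans h (Finset.sum_congr rfl fun i _ => ?_)
  simp only
  rw [vj]

theorem winX2 (hS : SeaOf de hi w p) {j : ℝ} (h1 : 3 + hi < j) (h2 : j < 4) (t : ℝ) :
    Cv.clX j t = ∑ i, w i * (fun V => cx2 V t) ((j + p i) * NUMF.l) := by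
  have hl := NUMF.l_pos
  have h := (clX_2 hS.cur (j := j) (by nlinarith) (by nlinarith) t).2
  refine Eq.trans h (Finset.sum_congr rfl fun i _ => ?_)
  simp only
  rw [vj]

end win

/-! ### the pole factors on the line of `T` -/

theorem plE_T {de : ℝ} {x : ℂ} (h0 : 0 ≤ de) (h1 : -((1 - de) * l) ≤ x.re)
    (h2 : x.re ≤ (1 / 2 - de) * l) (t : ℝ) :
    1 + ‖sin (vl ((1 - 3 / 2) * l) t - x)‖⁻¹ ≤ 100 * Real.exp (Ag (l / 2 - x.re) (t - x.im)) := by
  have hl := l_pos
  have hdl : 0 ≤ de * l := by positivity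
  have h3 := pole_le (V := l / 2 - x.re) (t := -(t - x.im)) (by linarith) (by
    change l / 2 - x.re ≤ 3 / 2 * l
    linarith)
  rw [Ag_neg_t] at h3
  have e : vl ((1 - 3 / 2) * l) t - x =
      -(((NUMF.l - (l / 2 - x.re) : ℝ) : ℂ) + ((-(t - x.im) : ℝ) : ℂ) * I) := by
    unfold vl
    apply Complex.ext
    · simp
      change (1 - 3 / 2) * l - x.re = _
      rw [show (NUMF.l : ℝ) = l from rfl]
      ring
    · simp
  rw [e, sin_neg, norm_neg]
  exact h3

theorem plL_T {de : ℝ} (h0 : 0 ≤ de) {L : List ℂ}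
    (h : ∀ x ∈ L, -((1 - de) * l) ≤ x.re ∧ x.re ≤ (1 / 2 - de) * l) (t : ℝ) :
    (L.map fun x => 1 + ‖sin (vl ((1 - 3 / 2) * l) t - x)‖⁻¹).prod ≤
      100 ^ L.length * Real.exp (SAe L t) := by
  induction L with
  | nil => simp [SAe]
  | cons x L ih =>
    have i1 := ih fun y hy => h y (List.mem_cons_of_mem _ hy)
    obtain ⟨x1, x2⟩ := h x List.mem_cons_self
    have i2 := plE_T h0 x1 x2 t
    have e : SAe (x :: L) t = Ag (l / 2 - x.re) (t - x.im) + SAe L t := by
      unfold SAe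
      rw [List.map_cons, List.sum_cons]
    rw [List.map_cons, List.prod_cons, List.length_cons, pow_succ, e, Real.exp_add]
    have p0 : 0 ≤ (L.map fun x => 1 + ‖sin (vl ((1 - 3 / 2) * l) t - x)‖⁻¹).prod :=
      List.prod_nonneg fun b hb => by
        obtain ⟨y, -, rfl⟩ := List.mem_map.1 hb
        positivity
    calc _ ≤ (100 * Real.exp (Ag (l / 2 - x.re) (t - x.im))) * (100 ^ L.length *
          Real.exp (SAe L t)) := mul_le_mul i2 i1 p0 (by positivity)
      _ = _ := by ring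

/-! ### the theorem -/

private theorem sum_zero (L : List ℝ) : (L.map fun _ => (0 : ℝ)).sum = 0 := by
  induction L with
  | nil => simp
  | cons x L ih => rw [List.map_cons, List.sum_cons, ih, zero_add]

private theorem sum_smul (L : List ℝ) (a : ℝ) (f : ℝ → ℝ) :
    (L.map fun x => a * f x).sum = a * (L.map f).sum := by
  induction L with
  | nil => simp
  | cons x L ih => rw [List.map_cons, List.sum_cons, ih, List.map_cons, List.sum_cons]; ring

private theorem inv_rwE_le (c : Bool → List ℝ) (k : Bool → ℕ) (ex : Bool → List ℂ) (a : Bool)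
    (u : ℂ) : (rwE c k ex a u)⁻¹ ≤ (rwK c k a u)⁻¹ := by
  rcases (rwK_nonneg c k a u).eq_or_lt with h | h
  · have : rwE c k ex a u = 0 := by
      unfold rwE
      rw [← h, zero_mul]
    rw [this, ← h]
  · exact inv_anti₀ h (rwK_le_rwE c k ex a u)

/-- **rows and clouds at the offsets of the six kinds**, one constant -/
theorem mf_of (ι : Type*) [Fintype ι] {P : Par6} (hP : LnT P) {de hi : ℝ} (K0 h0 : ℝ) (hde : 0 < de)
    (hde1 : de ≤ 1 / 50) (hj : hi < P.j1) (hL : 2 + hi < P.jL) (n0 : ℕ) :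
    ∃ C : ℝ, 0 < C ∧ ∀ [SeaC], ∀ {w p : ι → ℝ}, SeaOf de hi w p → ∀ {c : Bool → List ℝ}
      {k : Bool → ℕ} {ex W : Bool → List ℂ} {miss : ℕ}, (∀ a, Cnt K0 w p (c a) (k a)) →
      RwE n0 h0 de miss c k ex W →
      Mf P C (rwE c k ex) (Cv.clo (nC c k)) (prC c) (pTE c ex) := by
  have hl := NUMF.l_pos
  have hdl : 0 < de * NUMF.l := by positivity
  obtain ⟨C1, hC1, B1⟩ := co1_bd hdl
  obtain ⟨C2, hC2, B2⟩ := co2_bd hdl
  obtain ⟨C3, hC3, B3⟩ := co3_bd hdl
  obtain ⟨C4, hC4, B4⟩ := cx1_bd hdl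
  obtain ⟨C5, hC5, B5⟩ := cx2_bd hdl
  obtain ⟨K, hK⟩ : ∃ K, K = C1 + C2 + C3 + C4 + C5 := ⟨_, rfl⟩
  obtain ⟨E0, hE0⟩ : ∃ E0, E0 = Real.exp (2 * (Fintype.card ι * (K0 * K))) := ⟨_, rfl⟩
  obtain ⟨G, hG⟩ : ∃ G, G = (2 * (sd de)⁻¹) ^ n0 := ⟨_, rfl⟩
  have hE0' : 0 < E0 := by rw [hE0]; exact Real.exp_pos _
  have hsd := sd_pos hde (by linarith)
  have hG1 : 0 < G := by rw [hG]; positivity
  have p1 := hP.j1
  have p2 := hP.j1e
  have p3 := hP.ej2
  have p4 := hP.j2
  have p5 := hP.L2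
  have p6 := hP.Lj
  have p7 := hP.e13
  have p8 := hP.e48
  refine ⟨G * E0 + 100 ^ n0 * E0 + E0, by positivity, ?_⟩
  intro _ w p hS c k ex W miss hc hR
  have hlo := hS.lo
  have hup := hS.up
  have bL : ∀ (q : ℝ) (hq : q ∈ c true ∨ q ∈ c false), -(1 - de) ≤ q ∧ q ≤ 1 / 2 - de := by
    intro q hq
    rcases hq with hq | hq
    · obtain ⟨i, rfl⟩ := (hc true).mem q hq
      exact ⟨hlo i, hup i⟩
    · obtain ⟨i, rfl⟩ := (hc false).mem q hq
      exact ⟨hlo i, hup i⟩
  have bc : ∀ (a : Bool), ∀ q ∈ c a, -(1 - de) ≤ q ∧ q ≤ 1 / 2 - de := by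
    intro a q hq
    cases a
    · exact bL q (Or.inr hq)
    · exact bL q (Or.inl hq)
  have g1 : G * E0 ≤ G * E0 + 100 ^ n0 * E0 + E0 := by
    have : 0 ≤ 100 ^ n0 * E0 + E0 := by positivity
    linarith
  have g2 : 100 ^ n0 * E0 ≤ G * E0 + 100 ^ n0 * E0 + E0 := by
    have : 0 ≤ G * E0 + E0 := by positivity
    linarith
  have g3 : E0 ≤ G * E0 + 100 ^ n0 * E0 + E0 := by
    have : 0 ≤ G * E0 + 100 ^ n0 * E0 := by positivity
    linarith
  -- windows of the potentials
  have w1 : ∀ j : ℝ, hi < j → j < 1 → ∀ q : ℝ, -(1 - de) ≤ q → q ≤ 1 / 2 - de → ∀ t : ℝ,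
      |co1 ((j + q) * NUMF.l) t - lc2 t| ≤ K := fun j j1 j2 q q1 q2 t => by
    have hhi : 0 ≤ hi := by
      have := hS.cur.prf.lohi
      nlinarith
    have := B1 ((j + q) * NUMF.l) t (by nlinarith) (by nlinarith)
    unfold lc2
    linarith
  have wx : ∀ j : ℝ, hi < j → j < 3 → ∀ q : ℝ, -(1 - de) ≤ q → q ≤ 1 / 2 - de → ∀ t : ℝ,
      |cx1 ((j + q) * NUMF.l) t + lc2 t| ≤ K := fun j j1 j2 q q1 q2 t => by
    have hhi : 0 ≤ hi := by
      have := hS.cur.prf.lohi
      nlinarith
    have := B4 ((j + q) * NUMF.l) t (by rw [abs_le]; constructor <;> nlinarith)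
    unfold lc2
    linarith
  have w3 : ∀ j : ℝ, 2 ≤ j → j < 7 / 2 → ∀ q : ℝ, -(1 - de) ≤ q → q ≤ 1 / 2 - de → ∀ t : ℝ,
      |co3 ((j + q) * NUMF.l) t - lc2 t| ≤ K := fun j j1 j2 q q1 q2 t => by
    have := B3 ((j + q) * NUMF.l) t (by nlinarith) (by nlinarith)
    unfold lc2
    linarith
  have hhi0 : 0 ≤ hi := by
    have := hS.cur.prf.lohi
    nlinarith
  -- single rows
  have o1 : ∀ j : ℝ, hi < j → j < 1 → ∀ (a : Bool) (t : ℝ), ∀ x ∈ c a, (j + x ≠ 1 ∨ t ≠ 0) →
      rO ((j + x) * NUMF.l) t + co1 ((j + x) * NUMF.l) t = Ag ((j + x) * NUMF.l) t := by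
    intro j j1 j2 a t x hx hne
    obtain ⟨x1, x2⟩ := bc a x hx
    refine own1 (by nlinarith) (by nlinarith) (hne.imp (fun h h' => h ?_) id)
    have : (j + x - 1) * NUMF.l = 0 := by linarith
    rcases mul_eq_zero.1 this with h | h
    · linarith
    · exact absurd h hl.ne'
  have x1 : ∀ j : ℝ, hi < j → j < 3 → ∀ (a : Bool) (t : ℝ), ∀ x ∈ c a,
      rX ((j + x) * NUMF.l) t + cx1 ((j + x) * NUMF.l) t = 0 := by
    intro j j1 j2 a t x hx
    obtain ⟨x1, x2⟩ := bc a x hx
    exact crs1 (by rw [abs_lt]; constructor <;> nlinarith) t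
  have o3 : ∀ j : ℝ, 2 ≤ j → j < 7 / 2 → ∀ (a : Bool) (t : ℝ), ∀ x ∈ c a,
      rO ((j + x) * NUMF.l) t + co3 ((j + x) * NUMF.l) t = 0 := by
    intro j j1 j2 a t x hx
    obtain ⟨x1, x2⟩ := bc a x hx
    exact own3 (by nlinarith) (by nlinarith) t
  constructor
  · -- sat
    intro a t
    have h := rwK_up hS hc (co := fun V => co1 V t) (cx := fun V => cx1 V t)
      (A := fun x => Ag ((P.e + x) * NUMF.l) t) (B := fun _ => 0) (j := P.e) (t := t) (C := K)
      (win1 hS (by linarith) (by linarith) t) (winX1 hS (by linarith) (by linarith) t)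
      (fun i => w1 _ (by linarith) (by linarith) _ (hlo i) (hup i) t)
      (fun i => wx _ (by linarith) (by linarith) _ (hlo i) (hup i) t) a
      (o1 _ (by linarith) (by linarith) a t) (x1 _ (by linarith) (by linarith) (!a) t)
    rw [sum_zero, add_zero, ← hE0] at h
    have h2 := rwE_le hR a (u := vl ((1 - P.e) * l) t) (Or.inr (by
      unfold vl
      simp only [add_re, ofReal_re, mul_re, I_re, mul_zero, ofReal_im, I_im, mul_one, sub_self,
        add_zero]
      constructor <;> nlinarith [l_pos]))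
    rw [← hG] at h2
    calc rwE c k ex a (vl ((1 - P.e) * l) t) * Real.exp (Cv.clo (nC c k) a P.e t) ≤
        (G * rwK c k a (vl ((1 - P.e) * l) t)) * Real.exp (Cv.clo (nC c k) a P.e t) :=
          mul_le_mul_of_nonneg_right h2 (Real.exp_pos _).le
      _ = G * (rwK c k a (vl ((1 - P.e) * l) t) * Real.exp (Cv.clo (nC c k) a P.e t)) := by ring
      _ ≤ G * (E0 * Real.exp (prC c a P.e t)) := mul_le_mul_of_nonneg_left h hG1.le
      _ = G * E0 * Real.exp (prC c a P.e t) := by ring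
      _ ≤ _ := mul_le_mul_of_nonneg_right g1 (Real.exp_pos _).le
  · -- hol
    intro j hjm a t
    have hj12 : hi < j ∧ j < 1 := by
      unfold loL at hjm
      simp only [List.mem_cons, List.not_mem_nil, or_false] at hjm
      rcases hjm with rfl | rfl | rfl <;> constructor <;> linarith
    have h := rwK_inv hS hc (co := fun V => co1 V t) (cx := fun V => cx1 V t)
      (A := fun x => Ag ((j + x) * NUMF.l) t) (B := fun _ => 0) (j := j) (t := t) (C := K)
      (win1 hS hj12.1 hj12.2 t) (winX1 hS (by linarith) (by linarith) t)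
      (fun i => w1 _ hj12.1 hj12.2 _ (hlo i) (hup i) t)
      (fun i => wx _ hj12.1 (by linarith) _ (hlo i) (hup i) t) a
      (o1 _ hj12.1 hj12.2 a t) (x1 _ hj12.1 (by linarith) (!a) t)
    rw [sum_zero, add_zero, ← hE0] at h
    refine (mul_le_mul_of_nonneg_right (inv_rwE_le c k ex a _) (Real.exp_pos _).le).trans ?_
    exact h.trans (mul_le_mul_of_nonneg_right g3 (Real.exp_pos _).le)
  · -- ntr
    intro j hjm a t
    have hj12 : 2 + hi < j ∧ j < 3 ∧ 201 / 100 ≤ j := by
      simp only [List.mem_cons, List.not_mem_nil, or_false] at hjm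
      rcases hjm with rfl | rfl | rfl <;> refine ⟨?_, ?_, ?_⟩ <;> linarith
    have h := rwK_up hS hc (co := fun V => co3 V t) (cx := fun V => cx1 V t)
      (A := fun _ => 0) (B := fun _ => 0) (j := j) (t := t) (C := K)
      (win3 hS hj12.1 (by linarith) t) (winX1 hS (by linarith) (by linarith) t)
      (fun i => w3 _ (by linarith) (by linarith) _ (hlo i) (hup i) t)
      (fun i => wx _ (by linarith) (by linarith) _ (hlo i) (hup i) t) a
      (fun x hx _ => o3 _ (by linarith) (by linarith) a t x hx)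
      (x1 _ (by linarith) (by linarith) (!a) t)
    rw [sum_zero, sum_zero, add_zero, ← hE0, Real.exp_zero, mul_one] at h
    have h2 := rwE_le hR a (u := vl ((1 - j) * l) t) (Or.inl (by
      unfold vl
      simp only [add_re, ofReal_re, mul_re, I_re, mul_zero, ofReal_im, I_im, mul_one, sub_self,
        add_zero]
      constructor <;> nlinarith [l_pos]))
    rw [← hG] at h2
    calc rwE c k ex a (vl ((1 - j) * l) t) * Real.exp (Cv.clo (nC c k) a j t) ≤
        (G * rwK c k a (vl ((1 - j) * l) t)) * Real.exp (Cv.clo (nC c k) a j t) :=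
          mul_le_mul_of_nonneg_right h2 (Real.exp_pos _).le
      _ = G * (rwK c k a (vl ((1 - j) * l) t) * Real.exp (Cv.clo (nC c k) a j t)) := by ring
      _ ≤ G * E0 := mul_le_mul_of_nonneg_left h hG1.le
      _ ≤ _ := g1
  · -- top
    intro a t
    have h := rwK_up hS hc (co := fun V => co2 V t) (cx := fun V => cx1 V t)
      (A := fun x => Ag ((1 / 2 - x) * NUMF.l) t) (B := fun _ => 0) (j := 3 / 2) (t := t) (C := K)
      (win2 hS (by linarith) (by linarith) t) (winX1 hS (by linarith) (by linarith) t)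
      (fun i => by
        have := B2 ((3 / 2 + p i) * NUMF.l) t (by nlinarith [hlo i]) (by nlinarith [hup i])
        unfold lc2
        linarith)
      (fun i => wx _ (by linarith) (by linarith) _ (hlo i) (hup i) t) a
      (fun x hx hne => by
        obtain ⟨x1, x2⟩ := bc a x hx
        have hV : (3 / 2 + x) * NUMF.l ≠ NUMF.l ∨ t ≠ 0 := hne.imp (fun h h' => h (by
          have : (3 / 2 + x - 1) * NUMF.l = 0 := by linarith
          rcases mul_eq_zero.1 this with h | h
          · linarith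
          · exact absurd h hl.ne')) id
        rw [own2 (by nlinarith) (by nlinarith) hV]
        congr 1
        ring)
      (x1 _ (by linarith) (by linarith) (!a) t)
    rw [sum_zero, add_zero, ← hE0] at h
    have h2 := plL_T hde.le (hR.re a) t
    have hlen : (ex a).length ≤ n0 := by
      have := hR.len a
      have := hR.kn a
      omega
    have h3 : (100 : ℝ) ^ (ex a).length ≤ 100 ^ n0 := pow_le_pow_right₀ (by norm_num) hlen
    have eT : pTE c ex a t = ((c a).map fun x => Ag ((1 / 2 - x) * NUMF.l) t).sum + SAe (ex a) t := rfl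
    rw [eT, Real.exp_add]
    have hKn := rwK_nonneg c k a (vl ((1 - 3 / 2) * l) t)
    calc rwE c k ex a (vl ((1 - 3 / 2) * l) t) * Real.exp (Cv.clo (nC c k) a (3 / 2) t) =
        (rwK c k a (vl ((1 - 3 / 2) * l) t) * Real.exp (Cv.clo (nC c k) a (3 / 2) t)) *
          ((ex a).map fun x => 1 + ‖sin (vl ((1 - 3 / 2) * l) t - x)‖⁻¹).prod := by
          unfold rwE
          ring
      _ ≤ (E0 * Real.exp (((c a).map fun x => Ag ((1 / 2 - x) * NUMF.l) t).sum)) *
          (100 ^ n0 * Real.exp (SAe (ex a) t)) := by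
          refine mul_le_mul h (h2.trans (mul_le_mul_of_nonneg_right h3 (Real.exp_pos _).le)) ?_
            (by positivity)
          exact List.prod_nonneg fun b hb => by
            obtain ⟨y, -, rfl⟩ := List.mem_map.1 hb
            positivity
      _ = 100 ^ n0 * E0 * (Real.exp (((c a).map fun x => Ag ((1 / 2 - x) * NUMF.l) t).sum) *
          Real.exp (SAe (ex a) t)) := by ring
      _ ≤ _ := mul_le_mul_of_nonneg_right g2 (by positivity)
  · -- high
    intro a t
    have h := rwK_up hS hc (co := fun V => co3 V t) (cx := fun V => cx2 V t)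
      (A := fun _ => 0) (B := fun x => -2 * Ag ((P.e + x) * NUMF.l) t) (j := 3 + P.e) (t := t) (C := K)
      (win3 hS (by linarith) (by linarith) t) (winX2 hS (by linarith) (by linarith) t)
      (fun i => w3 _ (by linarith) (by linarith) _ (hlo i) (hup i) t)
      (fun i => by
        have := B5 ((3 + P.e + p i) * NUMF.l) t (by nlinarith [hlo i]) (by nlinarith [hup i])
        unfold lc2
        linarith) a
      (fun x hx _ => o3 _ (by linarith) (by linarith) a t x hx)
      (fun x hx => by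
        obtain ⟨x1, x2⟩ := bc (!a) x hx
        rw [crs2 (by nlinarith) (by nlinarith) (Or.inl (by
          intro h
          have : (3 + P.e + x - 4) * NUMF.l = 0 := by linarith
          rcases mul_eq_zero.1 this with h | h
          · linarith
          · exact absurd h hl.ne'))]
        rw [show (3 + P.e + x) * NUMF.l - 3 * NUMF.l = (P.e + x) * NUMF.l by ring])
    rw [sum_zero, zero_add, ← hE0, sum_smul] at h
    have h2 := rwE_le hR a (u := vl ((1 - (3 + P.e)) * l) t) (Or.inl (by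
      unfold vl
      simp only [add_re, ofReal_re, mul_re, I_re, mul_zero, ofReal_im, I_im, mul_one, sub_self,
        add_zero]
      constructor <;> nlinarith [l_pos]))
    rw [← hG] at h2
    have e9 : -2 * ((c (!a)).map fun x => Ag ((P.e + x) * NUMF.l) t).sum = -(2 * prC c (!a) P.e t) := by
      unfold prC
      ring
    rw [e9] at h
    calc rwE c k ex a (vl ((1 - (3 + P.e)) * l) t) * Real.exp (Cv.clo (nC c k) a (3 + P.e) t) ≤
        (G * rwK c k a (vl ((1 - (3 + P.e)) * l) t)) * Real.exp (Cv.clo (nC c k) a (3 + P.e) t) :=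
          mul_le_mul_of_nonneg_right h2 (Real.exp_pos _).le
      _ = G * (rwK c k a (vl ((1 - (3 + P.e)) * l) t) * Real.exp (Cv.clo (nC c k) a (3 + P.e) t)) := by
          ring
      _ ≤ G * (E0 * Real.exp (-(2 * prC c (!a) P.e t))) := mul_le_mul_of_nonneg_left h hG1.le
      _ = G * E0 * Real.exp (-(2 * prC c (!a) P.e t)) := by ring
      _ ≤ _ := mul_le_mul_of_nonneg_right g1 (Real.exp_pos _).le

end PLT

end
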