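import Pool.Agent.PLT.FDefC
import Pool.Agent.PLT.UPropsC
import Pool.Agent.PHK.UBN6

/-!
# Moments at ONE index, any straight curve, any density

The consequences of the master bound (`PHK/UProps6`, `PHK/UBN6`) for one functional: class functions `Z`, parameters
`P`, normaliser `c`, largest number of quanta `N`, curves `η, η'` (real displacements of the straight line), density
`ρ` of the rows: nothing is tied to the sea `P`, to `etaC` or to a family.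

* `FSI Z P c N η η' φ`: the functional with moduli;
* **`UBI Z P c N η η' e1 m p K y₁ y₂ b ρ`**: the master bound at the index: at most `p` statistics, constant `K` per
  object, bound `b`; `UBI.of_UBC`: from `UBC` of a family whose curve is straight (`F.D = dF η`);
* `wI Z P c N η η'`: the weight on the configuration space; `lint_wI`, `WI_wI`;
* `UBI.fs`, `UBI.fs2`, **`UBI.l1`**, **`UBI.m2`**, **`UBI.mbd`** (the interface `MBd6`).
-/

set_option autoImplicit false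
set_option linter.unusedSectionVars false
set_option linter.unusedVariables false

noncomputable section

open Complex MeasureTheory Finset
open scoped ENNReal
open PLX (Fil)

namespace PLT.MI

open NUO NUP1 NUP1S NUP1S.Ab NUP1S.AbC NUGC NUGC.PLX PBF PBF.PLX PBP PBP.PLX PBFunc PBFunc.PLX
open PBU.PLX
open PHK

variable [Fil]

/-! ### small lemmas -/

theorem FE_const_mulI {Z : Bool → Option O3 → ℂ → ℂ} {P : Par6} {n n' : ℕ} {η η' : Crs}
    {c : ℝ≥0∞} (hc : c ≠ ∞) (φ : InsE) :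
    FE6 Z P n n' η η' (fun r O a b x => c * φ r O a b x) = c * FE6 Z P n n' η η' φ := by
  unfold FE6
  rw [Finset.mul_sum]
  refine Finset.sum_congr rfl fun r _ => ?_
  have e : ∀ O : Fin r → Xo, trE6 Z P n n' η η' (fun r O a b x => c * φ r O a b x) r O =
      c * trE6 Z P n n' η η' φ r O := by
    intro O
    unfold trE6
    split_ifs
    · have e1 : ∀ x, ‖gK (gF6 Z P O) (η r O) (η' r O) (nA6 n O true) (nA6 n' O false) x‖ₑ *
          (c * φ r O (nA6 n O true) (nA6 n' O false) x) =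
          c * (‖gK (gF6 Z P O) (η r O) (η' r O) (nA6 n O true) (nA6 n' O false) x‖ₑ *
            φ r O (nA6 n O true) (nA6 n' O false) x) := fun x => by ring
      simp only [e1]
      rw [lintegral_const_mul' _ _ hc]
      ring
    · rw [mul_zero]
  simp only [e]
  rw [lintegral_const_mul' _ _ hc]
  ring

theorem zero_BCI (y₁ y₂ : ℝ) : BC y₁ y₂ 1 fun _ => 0 :=
  ⟨differentiableOn_const 0, fun _ _ => by simp⟩

/-- more factors make the product larger -/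
theorem prod_nuE_leI {q s : ℕ} (ρ : ℝ → ℂ) (η : ℝ → ℝ) (A A' : Fin q → ℂ → ℂ)
    (B B' : Fin s → ℂ → ℂ) {a b : ℕ} (x : (Fin a → ℝ) × (Fin b → ℝ)) :
    (∏ j, nuE ρ η (A j) (A' j) x) * (∏ j, nuE ρ η (B j) (B' j) x) =
      ∏ j, nuE ρ η (Fin.append A B j) (Fin.append A' B' j) x := by
  rw [Fin.prod_univ_add]
  simp only [Fin.append_left, Fin.append_right]

theorem one_le_nuEI (ρ : ℝ → ℂ) (η : ℝ → ℝ) (g g' : ℂ → ℂ) {a b : ℕ}
    (x : (Fin a → ℝ) × (Fin b → ℝ)) : 1 ≤ nuE ρ η g g' x := by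
  unfold nuE
  rw [add_assoc]
  exact le_self_add

theorem one_le_prod_nuEI {q : ℕ} (ρ : ℝ → ℂ) (η : ℝ → ℝ) (A A' : Fin q → ℂ → ℂ) {a b : ℕ}
    (x : (Fin a → ℝ) × (Fin b → ℝ)) : 1 ≤ ∏ j, nuE ρ η (A j) (A' j) x :=
  Finset.one_le_prod' fun _ _ => one_le_nuEI _ _ _ _ _

theorem BC_appendI {y₁ y₂ : ℝ} {q s : ℕ} {A : Fin q → ℂ → ℂ} {B : Fin s → ℂ → ℂ}
    (hA : ∀ j, BC y₁ y₂ 1 (A j)) (hB : ∀ j, BC y₁ y₂ 1 (B j)) (j : Fin (q + s)) :
    BC y₁ y₂ 1 (Fin.append A B j) := by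
  refine Fin.addCases (fun i => ?_) (fun i => ?_) j
  · rw [Fin.append_left]
    exact hA i
  · rw [Fin.append_right]
    exact hB i

/-- the test functions divided by their sizes -/
def nrmI {q : ℕ} (M : Fin q → ℝ) (g : Fin q → Bool → ℂ → ℂ) (s : Bool) (j : Fin q) (z : ℂ) : ℂ :=
  ((M j : ℂ)⁻¹) * g j s z

/-! ### linear statistics on any curve -/

section stat

variable (η : Crs)

/-- **the linear statistic is the sum of the statistics of the two species** -/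
theorem Vy_eqI (ρ : ℂ → ℂ) (g : Bool → ℂ → ℂ) (r : ℕ) (O : Fin r → Xo) (a b : ℕ)
    (x : (Fin a → ℝ) × (Fin b → ℝ)) :
    Vy 0 η ρ g r O a b x = nu1 (fun t => ρ t) (η r O) true (g true) x +
      nu1 (fun t => ρ t) (η r O) false (g false) x := by
  unfold Vy PB.NX.nuL nu1
  rw [Fintype.sum_sum_type, Fintype.sum_bool]
  simp only [if_true, if_false, Bool.false_eq_true]
  have e1 : ∀ k : Fin a ⊕ Fin b, zqy 0 η r O x k =
      PBU.PLX.hq (Fil.cv (spQ a b k) (η r O)) (Sum.elim x.1 x.2 k) := by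
    intro k
    unfold zqy zy zc PBU.PLX.hq
    simp
  simp only [e1, Sum.elim_inl, Sum.elim_inr]
  have e2 : ∀ s, ∫ u : ℝ, PB.rS2 ρ s u * g s (PB.eR u) = Fil.b s * ∫ u : ℝ, ρ u * g s u := by
    intro s
    rw [← integral_const_mul]
    refine integral_congr_ae (Filter.Eventually.of_forall fun u => ?_)
    simp only [PB.rS2, PB.eR]
    ring
  rw [e2, e2]
  have e3 : ∀ k : Fin a, spQ a b (Sum.inl k) = true := fun _ => rfl
  have e4 : ∀ k : Fin b, spQ a b (Sum.inr k) = false := fun _ => rfl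
  simp only [e3, e4]
  ring

theorem enorm_Vy_leI (ρ : ℂ → ℂ) (g : Bool → ℂ → ℂ) (r : ℕ) (O : Fin r → Xo) (a b : ℕ)
    (x : (Fin a → ℝ) × (Fin b → ℝ)) :
    ‖Vy 0 η ρ g r O a b x‖ₑ ≤
      ‖nu1 (fun t => ρ t) (η r O) true (g true) x‖ₑ +
        ‖nu1 (fun t => ρ t) (η r O) false (g false) x‖ₑ := by
  rw [Vy_eqI]
  exact enorm_add_le _ _

/-- the statistic of a test function of size `M`, against the normalised one -/
theorem enorm_Vy_nuEI {M : ℝ} (hM : 0 < M) (ρ : ℂ → ℂ) (g : Bool → ℂ → ℂ) (r : ℕ)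
    (O : Fin r → Xo) (a b : ℕ) (x : (Fin a → ℝ) × (Fin b → ℝ)) :
    ‖Vy 0 η ρ g r O a b x‖ₑ ≤ ENNReal.ofReal M *
      nuE (fun t => ρ t) (η r O) (fun z => ((M : ℂ)⁻¹) * g true z)
        (fun z => ((M : ℂ)⁻¹) * g false z) x := by
  have hMc : ((M : ℝ) : ℂ) ≠ 0 := by exact_mod_cast hM.ne'
  have e : ∀ (s : Bool) (f : ℂ → ℂ), nu1 (fun t => ρ t) (η r O) s f x =
      (M : ℂ) * nu1 (fun t => ρ t) (η r O) s (fun z => ((M : ℂ)⁻¹) * f z) x := by
    intro s f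
    rw [nu1_smul, ← mul_assoc, mul_inv_cancel₀ hMc, one_mul]
  have hn : ‖((M : ℝ) : ℂ)‖ₑ = ENNReal.ofReal M := by
    rw [← ofReal_norm, Complex.norm_real, Real.norm_of_nonneg hM.le]
  refine (enorm_Vy_leI η ρ g r O a b x).trans ?_
  rw [e true, e false, enorm_mul, enorm_mul, hn, ← mul_add]
  refine mul_le_mul' le_rfl ?_
  unfold nuE
  rw [add_assoc]
  exact le_add_self

/-- the same for the statistic of `WardFF` -/
theorem Vst_eqI (ρ : ℂ → ℂ) (g : Bool → ℂ → ℂ) (r : ℕ) (O : Fin r → Xo) (a b : ℕ)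
    (x : (Fin a → ℝ) × (Fin b → ℝ)) :
    Vst η ρ g r O a b x = Vy 0 η ρ g r O a b x := by
  unfold Vst Vy
  congr 1
  funext k
  unfold zq zqy zy
  simp

theorem prod_Vy_leI {q : ℕ} {M : Fin q → ℝ} (hM : ∀ j, 0 < M j) (ρ : ℂ → ℂ)
    (g : Fin q → Bool → ℂ → ℂ) (r : ℕ) (O : Fin r → Xo) (a b : ℕ)
    (x : (Fin a → ℝ) × (Fin b → ℝ)) :
    ∏ j, ‖Vy 0 η ρ (g j) r O a b x‖ₑ ≤ ENNReal.ofReal (∏ j, M j) *
      ∏ j, nuE (fun t => ρ t) (η r O) (nrmI M g true j) (nrmI M g false j) x := by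
  rw [ENNReal.ofReal_prod_of_nonneg fun j _ => (hM j).le, ← Finset.prod_mul_distrib]
  exact Finset.prod_le_prod' fun j _ => enorm_Vy_nuEI η (hM j) ρ (g j) r O a b x

end stat

/-! ### the functional with moduli -/

section func

variable (Z : Bool → Option O3 → ℂ → ℂ) (P : Par6) (c : ℂ) (N : ℕ) (η η' : Crs)

/-- **the functional with moduli at one index**, summed over the number of quanta -/
def FSI (φ : InsE) : ℝ≥0∞ :=
  ∑ n ∈ range (N + 1), ‖c‖ₑ * FE6 Z P n (n + dN N) η η' φ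

variable {Z P c N η η'}

theorem FSI_mono {φ ψ : InsE} (h : ∀ r O a b x, φ r O a b x ≤ ψ r O a b x) :
    FSI Z P c N η η' φ ≤ FSI Z P c N η η' ψ :=
  Finset.sum_le_sum fun n _ => mul_le_mul' le_rfl (FE_mono6 h)

theorem FSI_const_mul {a : ℝ≥0∞} (ha : a ≠ ∞) (φ : InsE) :
    FSI Z P c N η η' (fun r O a' b x => a * φ r O a' b x) = a * FSI Z P c N η η' φ := by
  unfold FSI
  rw [Finset.mul_sum]
  refine Finset.sum_congr rfl fun n _ => ?_
  rw [FE_const_mulI ha]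
  ring

variable (Z P c N η η')

/-- **the master bound at one index**: at most `p` statistics, constant `K` per object, bound `b`, density `ρ` -/
def UBI (e1 : ℝ) (m p : ℕ) (K y₁ y₂ b : ℝ) (ρ : ℝ → ℂ) : Prop :=
  ∀ B : ℝ, 0 ≤ B → ∀ w : (r : ℕ) → (Fin r → Xo) → ℝ, OWC e1 K B m w →
    ∀ g g' : (r : ℕ) → (Fin r → Xo) → Fin p → ℂ → ℂ,
      (∀ r O j, BC y₁ y₂ 1 (g r O j) ∧ BC y₁ y₂ 1 (g' r O j)) →
      FSI Z P c N η η' (fun r O _ _ x => ENNReal.ofReal (w r O) *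
          ∏ j, nuE ρ (η r O) (g r O j) (g' r O j) x) ≤ ENNReal.ofReal (B * b)

/-- **the weight of the functional on the configuration space** -/
abbrev wI : CfN6 N → ℂ :=
  wN6 (fun _ => Z) (fun _ => P) N (fun _ => η) (fun _ => η') (fun _ => c)

variable {Z P c N η η'}

/-- a functional with a larger bound -/
theorem UBI.mono {e1 : ℝ} {m p : ℕ} {K y₁ y₂ b b' : ℝ} {ρ : ℝ → ℂ}
    (h : UBI Z P c N η η' e1 m p K y₁ y₂ b ρ) (hb : b ≤ b') :
    UBI Z P c N η η' e1 m p K y₁ y₂ b' ρ := fun B hB w hw g g' hg =>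
  (h B hB w hw g g' hg).trans (ENNReal.ofReal_le_ofReal (mul_le_mul_of_nonneg_left hb hB))

/-- the sum of the moduli is the functional `FSI` -/
theorem FAN_wI (Ψ : ℕ → Ins) :
    FAN6 (fun _ => Z) (fun _ => P) N (fun _ => η) (fun _ => η') (fun _ => c) Ψ =
    ∑ n ∈ range (N + 1), ‖c‖ₑ * FE6 Z P n (n + dN N) η η' fun r O a b x => ‖Ψ n r O a b x‖ₑ := by
  unfold FAN6
  refine Finset.sum_congr rfl fun n _ => ?_
  rw [← FA_eq_FE6]

/-- **the integral on the configuration space** -/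
theorem lint_wI (h : MC6 Z P η η') {Ψ : ℕ → Ins}
    (hΨ : ∀ n ≤ N, MIn (Ψ n)) {φ : InsE}
    (hφ : ∀ n ≤ N, ∀ r O a b x, ‖Ψ n r O a b x‖ₑ ≤ φ r O a b x) :
    ∫⁻ x, ‖wI Z P c N η η' x‖ₑ * ‖evN6 Ψ x‖ₑ ∂(mN6 N) ≤ FSI Z P c N η η' φ := by
  rw [← FAN6_eq (fun n _ => h) hΨ, FAN_wI]
  unfold FSI
  refine Finset.sum_le_sum fun n hn => ?_
  exact mul_le_mul' le_rfl (FE_mono6 fun r O a b x =>
    hφ n (by have := Finset.mem_range.1 hn; omega) r O a b x)

/-- integrability -/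
theorem WI_wI (h : MC6 Z P η η') {Ψ : ℕ → Ins}
    (hΨ : ∀ n ≤ N, MIn (Ψ n)) {φ : InsE}
    (hφ : ∀ n ≤ N, ∀ r O a b x, ‖Ψ n r O a b x‖ₑ ≤ φ r O a b x)
    (hf : FSI Z P c N η η' φ < ⊤) :
    WI (mN6 N) (wI Z P c N η η') (evN6 Ψ) := by
  refine WIN_of6 (fun n _ => h) hΨ ?_
  rw [FAN6_eq (fun n _ => h) hΨ]
  exact (lint_wI h hΨ hφ).trans_lt hf

end func

/-! ### the moments -/

section mom

variable {Z : Bool → Option O3 → ℂ → ℂ} {P : Par6} {c : ℂ} {N : ℕ} {η η' : Crs}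
variable {e1 K y₁ y₂ b : ℝ} {m p : ℕ} {ρ : ℂ → ℂ}

/-- **products of at most `p` statistics** -/
theorem UBI.fs (h : UBI Z P c N η η' e1 m p K y₁ y₂ b fun t => ρ t) {q : ℕ} (hq : q ≤ p)
    {M : Fin q → ℝ} (hM : ∀ j, 0 < M j) {g : (r : ℕ) → (Fin r → Xo) → Fin q → Bool → ℂ → ℂ}
    (hg : ∀ r O j s, BC y₁ y₂ (M j) (g r O j s)) {B : ℝ} (hB : 0 ≤ B)
    {w : (r : ℕ) → (Fin r → Xo) → ℝ} (hw : OWC e1 K B m w) :
    FSI Z P c N η η' (fun r O a b x => ENNReal.ofReal (w r O) *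
        ∏ j, ‖Vy 0 η ρ (g r O j) r O a b x‖ₑ) ≤
      ENNReal.ofReal (B * (∏ j, M j) * b) := by
  obtain ⟨s, rfl⟩ := Nat.exists_eq_add_of_le hq
  have hn : ∀ r O s' j, BC y₁ y₂ 1 (nrmI M (g r O) s' j) := fun r O s' j =>
    (hg r O j s').normed (hM j)
  have key := h B hB w hw
    (fun r O => Fin.append (nrmI M (g r O) true) (fun (_ : Fin s) _ => 0))
    (fun r O => Fin.append (nrmI M (g r O) false) (fun (_ : Fin s) _ => 0))
    (fun r O j => ⟨BC_appendI (hn r O true) (fun _ => zero_BCI _ _) j,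
      BC_appendI (hn r O false) (fun _ => zero_BCI _ _) j⟩)
  have hP : 0 ≤ ∏ j, M j := Finset.prod_nonneg fun j _ => (hM j).le
  refine (FSI_mono fun r O a b x => ?_).trans
    ((FSI_const_mul (a := ENNReal.ofReal (∏ j, M j)) ENNReal.ofReal_ne_top _).le.trans
      ((mul_le_mul' le_rfl key).trans ?_))
  · rw [← prod_nuE_leI]
    calc _ ≤ ENNReal.ofReal (w r O) * (ENNReal.ofReal (∏ j, M j) *
          ∏ j, nuE (fun t => ρ t) (η r O) (nrmI M (g r O) true j)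
            (nrmI M (g r O) false j) x) := mul_le_mul' le_rfl (prod_Vy_leI η hM ρ (g r O) r O a b x)
      _ = ENNReal.ofReal (∏ j, M j) * (ENNReal.ofReal (w r O) *
          ((∏ j, nuE (fun t => ρ t) (η r O) (nrmI M (g r O) true j)
            (nrmI M (g r O) false j) x) * 1)) := by ring
      _ ≤ _ := mul_le_mul' le_rfl (mul_le_mul' le_rfl (mul_le_mul' le_rfl
          (one_le_prod_nuEI _ _ _ _ x)))
  · rw [← ENNReal.ofReal_mul hP]
    exact ENNReal.ofReal_le_ofReal (le_of_eq (by ring))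

/-- **squares of products of at most `p / 2` statistics** -/
theorem UBI.fs2 (h : UBI Z P c N η η' e1 m p K y₁ y₂ b fun t => ρ t) {q : ℕ} (hq : 2 * q ≤ p)
    {M : Fin q → ℝ} (hM : ∀ j, 0 < M j) {g : (r : ℕ) → (Fin r → Xo) → Fin q → Bool → ℂ → ℂ}
    (hg : ∀ r O j s, BC y₁ y₂ (M j) (g r O j s)) {B : ℝ} (hB : 0 ≤ B)
    {w : (r : ℕ) → (Fin r → Xo) → ℝ} (hw : OWC e1 K (B ^ 2) m fun r O => w r O ^ 2) :
    FSI Z P c N η η' (fun r O a b x => ENNReal.ofReal (w r O ^ 2) *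
        (∏ j, ‖Vy 0 η ρ (g r O j) r O a b x‖ₑ) ^ 2) ≤
      ENNReal.ofReal ((B * ∏ j, M j) ^ 2 * b) := by
  obtain ⟨s, rfl⟩ : ∃ s, p = q + (q + s) := ⟨p - 2 * q, by omega⟩
  have hn : ∀ r O s' j, BC y₁ y₂ 1 (nrmI M (g r O) s' j) := fun r O s' j =>
    (hg r O j s').normed (hM j)
  have key := h (B ^ 2) (by positivity) _ hw
    (fun r O => Fin.append (nrmI M (g r O) true)
      (Fin.append (nrmI M (g r O) true) (fun (_ : Fin s) _ => 0)))
    (fun r O => Fin.append (nrmI M (g r O) false)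
      (Fin.append (nrmI M (g r O) false) (fun (_ : Fin s) _ => 0)))
    (fun r O j => ⟨BC_appendI (hn r O true) (BC_appendI (hn r O true) fun _ => zero_BCI _ _) j,
      BC_appendI (hn r O false) (BC_appendI (hn r O false) fun _ => zero_BCI _ _) j⟩)
  have hP : 0 ≤ ∏ j, M j := Finset.prod_nonneg fun j _ => (hM j).le
  refine (FSI_mono fun r O a b x => ?_).trans
    ((FSI_const_mul (a := ENNReal.ofReal ((∏ j, M j) ^ 2)) ENNReal.ofReal_ne_top _).le.trans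
      ((mul_le_mul' le_rfl key).trans ?_))
  · rw [← prod_nuE_leI, ← prod_nuE_leI]
    obtain ⟨V, hV⟩ : ∃ V, V = ∏ j, nuE (fun t => ρ t) (η r O) (nrmI M (g r O) true j)
      (nrmI M (g r O) false j) x := ⟨_, rfl⟩
    have h3 := prod_Vy_leI η hM ρ (g r O) r O a b x
    rw [← hV] at h3 ⊢
    calc _ ≤ ENNReal.ofReal (w r O ^ 2) * (ENNReal.ofReal (∏ j, M j) * V) ^ 2 :=
          mul_le_mul' le_rfl (pow_le_pow_left' h3 2)
      _ = ENNReal.ofReal ((∏ j, M j) ^ 2) * (ENNReal.ofReal (w r O ^ 2) * (V * (V * 1))) := by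
          rw [ENNReal.ofReal_pow hP]
          ring
      _ ≤ _ := mul_le_mul' le_rfl (mul_le_mul' le_rfl (mul_le_mul' le_rfl (mul_le_mul' le_rfl
          (one_le_prod_nuEI _ _ _ _ x))))
  · rw [← ENNReal.ofReal_mul (by positivity)]
    exact ENNReal.ofReal_le_ofReal (le_of_eq (by ring))

/-- **first moments** of everything that is at most `w(O) ∏_j ‖Vy (g_j)‖` -/
theorem UBI.l1 (h : UBI Z P c N η η' e1 m p K y₁ y₂ b fun t => ρ t) (hMC : MC6 Z P η η') {q : ℕ}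
    (hq : q ≤ p) {M : Fin q → ℝ} (hM : ∀ j, 0 < M j)
    {g : (r : ℕ) → (Fin r → Xo) → Fin q → Bool → ℂ → ℂ}
    (hg : ∀ r O j s, BC y₁ y₂ (M j) (g r O j s)) {B : ℝ} (hB : 0 ≤ B)
    {w : (r : ℕ) → (Fin r → Xo) → ℝ} (hw : OWC e1 K B m w)
    {Ψ : ℕ → Ins} (hΨ : ∀ n ≤ N, MIn (Ψ n)) (hle : ∀ n ≤ N, ∀ r O a b x,
      ‖Ψ n r O a b x‖ ≤ w r O * ∏ j, ‖Vy 0 η ρ (g r O j) r O a b x‖) :
    L1 (mN6 N) (wI Z P c N η η') (evN6 Ψ) (B * (∏ j, M j) * b) := by
  have key := h.fs hq hM hg hB hw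
  refine le_trans (le_of_eq ?_) ((lint_wI hMC hΨ fun n hn r O a b x => ?_).trans key)
  · refine lintegral_congr fun x => ?_
    rw [ENNReal.ofReal_mul (norm_nonneg _), ofReal_norm, ofReal_norm]
  · rw [← ofReal_norm]
    refine (ENNReal.ofReal_le_ofReal (hle n hn r O a b x)).trans (le_of_eq ?_)
    rw [ENNReal.ofReal_mul' (Finset.prod_nonneg fun j _ => norm_nonneg _),
      ENNReal.ofReal_prod_of_nonneg fun j _ => norm_nonneg _]
    simp only [ofReal_norm]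

/-- **second moments** of everything that is at most `w(O) ∏_j ‖Vy (g_j)‖` -/
theorem UBI.m2 (h : UBI Z P c N η η' e1 m p K y₁ y₂ b fun t => ρ t) (hMC : MC6 Z P η η') {q : ℕ}
    (hq : 2 * q ≤ p) {M : Fin q → ℝ} (hM : ∀ j, 0 < M j)
    {g : (r : ℕ) → (Fin r → Xo) → Fin q → Bool → ℂ → ℂ}
    (hg : ∀ r O j s, BC y₁ y₂ (M j) (g r O j s)) {B : ℝ} (hB : 0 ≤ B)
    {w : (r : ℕ) → (Fin r → Xo) → ℝ} (hw : OWC e1 K (B ^ 2) m fun r O => w r O ^ 2)
    {Ψ : ℕ → Ins} (hΨ : ∀ n ≤ N, MIn (Ψ n)) (hle : ∀ n ≤ N, ∀ r O a b x,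
      ‖Ψ n r O a b x‖ ≤ w r O * ∏ j, ‖Vy 0 η ρ (g r O j) r O a b x‖) :
    M2 (mN6 N) (wI Z P c N η η') b (evN6 Ψ) (B * ∏ j, M j) := by
  have key := h.fs2 hq hM hg hB hw
  have hΨ2 : ∀ n ≤ N, MIn fun r O a b x => Ψ n r O a b x * Ψ n r O a b x := fun n hn =>
    (hΨ n hn).mul' (hΨ n hn)
  refine le_trans (le_of_eq ?_) ((lint_wI (Ψ := fun n r O a b x => Ψ n r O a b x * Ψ n r O a b x)
    hMC hΨ2 fun n hn r O a b x => ?_).trans key)
  · refine lintegral_congr fun x => ?_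
    rw [ENNReal.ofReal_mul (norm_nonneg _), ofReal_norm]
    congr 1
    show _ = ‖evN6 Ψ x * evN6 Ψ x‖ₑ
    rw [enorm_mul, ← ofReal_norm, ← ENNReal.ofReal_mul (norm_nonneg _), ← pow_two]
  · have h3 : ‖Ψ n r O a b x‖ₑ ^ 2 ≤ ENNReal.ofReal (w r O ^ 2) *
        (∏ j, ‖Vy 0 η ρ (g r O j) r O a b x‖ₑ) ^ 2 := by
      have h4 := hle n hn r O a b x
      have h5 : 0 ≤ ∏ j, ‖Vy 0 η ρ (g r O j) r O a b x‖ :=
        Finset.prod_nonneg fun j _ => norm_nonneg _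
      have h6 : ∏ j, ‖Vy 0 η ρ (g r O j) r O a b x‖ₑ =
          ENNReal.ofReal (∏ j, ‖Vy 0 η ρ (g r O j) r O a b x‖) := by
        rw [ENNReal.ofReal_prod_of_nonneg fun j _ => norm_nonneg _]
        simp only [ofReal_norm]
      rw [h6, ← ENNReal.ofReal_pow h5, ← ENNReal.ofReal_mul (by positivity), ← mul_pow,
        ← ofReal_norm, ← ENNReal.ofReal_pow (norm_nonneg _)]
      exact ENNReal.ofReal_le_ofReal (pow_le_pow_left₀ (norm_nonneg _) h4 2)
    rw [enorm_mul, ← pow_two]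
    exact h3

/-- the weight `r + 1` -/
theorem OWC.succ_sqrt {K : ℝ} (hK : 6 ≤ K) (e1 : ℝ) (m : ℕ) :
    OWC e1 K (Real.sqrt 6 ^ 2) m fun r _ => ((r : ℝ) + 1) ^ 2 := by
  rw [Real.sq_sqrt (by norm_num)]
  have h := OWC.pow (e1 := e1) 2 m
  have h6 : (3 * (2 : ℕ).factorial : ℝ) = 6 := by norm_num [Nat.factorial]
  rw [h6] at h
  exact h.mono (by norm_num) (by linarith) (by norm_num) le_rfl

/-- the weight of a pinned object -/
theorem OWC.pin_rpow {K : ℝ} (hK : 6 ≤ K) {q : ℝ} (hq0 : 0 ≤ q) (hq : q ≤ 8 / 3) (e1 : ℝ) (a : ℕ)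
    {m : ℕ} (hm : 0 < m) :
    OWC e1 K (3 * a.factorial * (m : ℝ) ^ (-(3 / 8 * q * (1 - 4 * e1)))) m
      fun r O => ((r : ℝ) + 1) ^ a * ∑ j, Real.exp (-(q * |ht (O j)|)) := by
  have hm0 : (0 : ℝ) < m := by exact_mod_cast hm
  have h3 := OWC.pin (e1 := e1) hq0 hq a m
  rw [pinB_rpow q e1 hm0] at h3
  exact h3.mono (K' := K) (by norm_num) hK (by positivity) le_rfl

/-- **the interface of the Ward identities** -/
theorem UBI.mbd (h : UBI Z P c N η η' e1 m p K y₁ y₂ b fun t => ρ t) (hMC : MC6 Z P η η')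
    (hp : 2 ≤ p) (hK : 6 ≤ K) {q : ℝ} (hq0 : 0 ≤ q) (hq : q ≤ 8 / 3) (hm : 0 < m) :
    MBd6 N (fun _ => Z) (fun _ => P) (fun _ => η) (fun _ => η') (fun _ => c) ρ y₁ y₂ (6 * b) q
      (3 * (m : ℝ) ^ (-(3 / 8 * q * (1 - 4 * e1))) * b) := by
  have hm0 : (0 : ℝ) < m := by exact_mod_cast hm
  have hs : Real.sqrt 6 ^ 2 = 6 := Real.sq_sqrt (by norm_num)
  have hw := OWC.succ_sqrt hK e1 m
  have hw2 : OWC e1 K (3 * (m : ℝ) ^ (-(3 / 8 * q * (1 - 4 * e1)))) m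
      fun r O => ((r : ℝ) + 1) * ∑ j, Real.exp (-(q * |ht (O j)|)) := by
    have h3 := OWC.pin_rpow hK hq0 hq e1 1 hm
    have h4 : (3 * (Nat.factorial 1 : ℝ) * (m : ℝ) ^ (-(3 / 8 * q * (1 - 4 * e1)))) =
        3 * (m : ℝ) ^ (-(3 / 8 * q * (1 - 4 * e1))) := by norm_num
    rw [h4] at h3
    intro r O
    have h6 := h3 r O
    simpa using h6
  have e0 : ∀ {f : Fin 0 → ℝ}, ∏ j, f j = 1 := fun {f} => by simp
  constructor
  · have h3 := h.m2 hMC (q := 0) (by omega) (M := fun _ => 1) (fun _ => one_pos)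
      (g := fun _ _ j => j.elim0) (fun _ _ j => j.elim0) (Real.sqrt_nonneg 6)
      (w := fun r _ => (r : ℝ) + 1) hw (Ψ := fun _ => cnI) (fun _ _ => MIn.cnI) (fun n _ r O a b x => by
        show ‖(r : ℂ) + 1‖ ≤ _
        rw [norm_cn]
        simp)
    rw [e0] at h3
    have h4 := M2.rescale h3
    rwa [hs] at h4
  · intro M g hM hg hmeas
    refine M2.of_pos fun M' hM' => ?_
    have hM0 : 0 < M' := hM.trans_lt hM'
    have h3 := h.m2 hMC (q := 1) (by omega) (M := fun _ => M') (fun _ => hM0)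
      (g := fun r O _ s => g r O s) (fun r O _ s => (hg r O s).mono hM'.le) (Real.sqrt_nonneg 6)
      (w := fun r _ => (r : ℝ) + 1) hw
      (Ψ := fun n r O a b x => ((r : ℂ) + 1) * Vy 0 η ρ (g r O) r O a b x)
      (fun n hn => MIn.mul' MIn.cnI (hmeas n hn)) (fun n _ r O a b x => by
        rw [norm_mul, norm_cn]
        simp)
    have h4 := M2.rescale (by simpa using h3)
    rwa [hs] at h4
  · have h3 := h.l1 hMC (q := 0) (by omega) (M := fun _ => 1) (fun _ => one_pos)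
      (g := fun _ _ j => j.elim0) (fun _ _ j => j.elim0) (by positivity) hw2
      (Ψ := fun _ r O a b x => ((r : ℂ) + 1) * pinI q r O a b x)
      (fun _ _ => MIn.mul' MIn.cnI (MIn.pinI q)) (fun n _ r O a b x => by
        rw [norm_mul, norm_cn, norm_pinI]
        simp)
    rw [e0, mul_one] at h3
    exact h3
  · intro M g hM hg hmeas
    refine L1.of_pos fun M' hM' => ?_
    have hM0 : 0 < M' := hM.trans_lt hM'
    have h3 := h.l1 hMC (q := 1) (by omega) (M := fun _ => M') (fun _ => hM0)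
      (g := fun r O _ s => g r O s) (fun r O _ s => (hg r O s).mono hM'.le) (by positivity) hw2
      (Ψ := fun n r O a b x =>
        (((r : ℂ) + 1) * pinI q r O a b x) * Vy 0 η ρ (g r O) r O a b x)
      (fun n hn => MIn.mul' (MIn.mul' MIn.cnI (MIn.pinI q)) (hmeas n hn)) (fun n _ r O a b x => by
        rw [norm_mul, norm_mul, norm_cn, norm_pinI]
        simp)
    refine h3.mono (le_of_eq ?_)
    simp only [Finset.univ_unique, Finset.prod_singleton]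
    ring

end mom

/-! ### from a family on straight curves -/

section fam

variable {ι : Type} {F : FamC ι} {P : Par6} {ep e1 J K ε : ℝ} {p : ℕ}

theorem ptZ_dF (η : ℝ → ℝ) (s : Bool) (t : ℝ) : ptZ (dF η) s t = PBU.PLX.hq (Fil.cv s η) t := by
  have h1 := ptC_ptZ (dF η) s t
  rw [ptC_dF] at h1
  have h2 : NUO.pA (Fil.cv s η) t = NUP1.l + I * PBU.PLX.hq (Fil.cv s η) t := by
    unfold NUO.pA vl PBU.PLX.hq dA
    push_cast
    linear_combination (-(Fil.cv s η t : ℂ)) * I_sq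
  rw [h2] at h1
  have h3 := add_left_cancel h1
  exact (mul_left_cancel₀ I_ne_zero h3).symm

theorem nu1C_dF (ρ : ℝ → ℂ) (η : ℝ → ℝ) (s : Bool) (g : ℂ → ℂ) {a b : ℕ}
    (x : (Fin a → ℝ) × (Fin b → ℝ)) : nu1C ρ (dF η) s g x = nu1 ρ η s g x := by
  unfold nu1C nu1
  cases s <;> simp only [if_true, if_false, Bool.false_eq_true, ptZ_dF]

theorem nuEC_dF (ρ : ℝ → ℂ) (η : ℝ → ℝ) (g g' : ℂ → ℂ) {a b : ℕ}
    (x : (Fin a → ℝ) × (Fin b → ℝ)) : nuEC ρ (dF η) g g' x = nuE ρ η g g' x := by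
  unfold nuEC nuE
  rw [nu1C_dF, nu1C_dF]

/-- **the master bound at one index from the bound of a family**, straight curves -/
theorem UBI.of_UBC (h : UBC F P ep e1 J p K ε) (C0 : ℝ) {y₁ y₂ : ℝ} (h1 : y₁ < F.lo) (h2 : F.hi < y₂) :
    ∃ m0 : ℕ, ∀ m ≥ m0, ∀ i : ι, F.ok m i → ∀ η η' : ℝ → ℝ, F.D e1 J m i = dF η →
      F.D1 e1 J m i = dF η' → ∀ ρ : ℝ → ℂ, DNC C0 m (F.dc m i) ρ →
      UBI (F.Z ep m i) P (F.Pf m i) (F.top m) (fun _ _ => η) (fun _ _ => η') e1 m p K y₁ y₂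
        ((m : ℝ) ^ ε * F.bd m i) ρ := by
  obtain ⟨m0, h0⟩ := h C0 y₁ y₂ h1 h2
  refine ⟨m0, fun m hm i hi η η' hD hD1 ρ hρ B hB w hw g g' hg => ?_⟩
  have key := h0 m hm i hi ρ hρ B hB w hw g g' hg
  rw [hD] at key
  have e0 : FSC F P ep e1 J m i (fun _ => 1) (fun r O _ _ x => ENNReal.ofReal (w r O) *
      ∏ j, nuEC ρ (dF η) (g r O j) (g' r O j) x) =
      FSI (F.Z ep m i) P (F.Pf m i) (F.top m) (fun _ _ => η) (fun _ _ => η')
        (fun r O _ _ x => ENNReal.ofReal (w r O) * ∏ j, nuE ρ η (g r O j) (g' r O j) x) := by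
    unfold FSC FSI
    refine Finset.sum_congr rfl fun n _ => ?_
    rw [one_mul]
    have e1' : F.cr e1 J m i = fun _ _ => dF η := by
      funext r O
      exact hD
    have e2' : F.cr' e1 J m i = fun _ _ => dF η' := by
      funext r O
      exact hD1
    rw [e1', e2', FEC_dF]
    simp only [nuEC_dF]
  rw [e0] at key
  refine key.trans (ENNReal.ofReal_le_ofReal (le_of_eq ?_))
  ring

end fam

end PLT.MI

end
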