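import Pool.Agent.PLT.MomI2
import Pool.Agent.PHK.RepI6
import Pool.Agent.PHK.I1G6

/-!
# The moments `Mo6` of the first Ward identity at ONE index

* **`mo6I`**: `PBRep.PLX.Mo6` from `UBI` (two statistics, constant 6, strip `(-(l/10), 351/400 l)`), any straight
  curve, any density.
-/

set_option autoImplicit false
set_option linter.unusedSectionVars false
set_option linter.unusedVariables false

noncomputable section

open Complex MeasureTheory Finset
open scoped ENNReal
open PLX (Fil)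

namespace PLT.MI

open NUO NUP1 NUP1S NUP1S.Ab NUP1S.AbC NUGC NUGC.PLX PBF PBF.PLX PBP PBP.PLX PBU PBU.PLX PBFunc PBFunc.PLX
open PBRep PBRep.PLX
open PHK

variable [Fil] {Z : Bool → Option O3 → ℂ → ℂ} {c : ℂ} {N : ℕ} {η η' : PBF.PLX.Crs}
variable {e1 K b : ℝ} {m : ℕ} {ρ : ℝ → ℂ}

/-- **the moments of the first Ward identity** -/
theorem mo6I (h : UBI Z par6 c N η η' e1 m 2 K (-(NUMF.l / 10)) (351 / 400 * NUMF.l) b ρ)
    (hMC : MC6 Z par6 η η') (hcr : PBF.PLX.MCr η η') (hK : 6 ≤ K) (hm : 0 < m) {a : ℝ}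
    (ha0 : 0 ≤ a) (ha : a ≤ 8 / 3) (hb : 0 ≤ b) :
    Mo6 a (wI Z par6 c N η η') ρ par6 (fun _ => η) (345600 * b) (dlI 720 e1 a b m) := by
  have hl := NUP1.l_pos
  have hlN : NUP1.l = NUMF.l := rfl
  obtain ⟨k1, k2, k3, k4⟩ := M2_allI h hK (by linarith) (by linarith) hb
  have k5 := pinsI h hK hm ha0 ha (by linarith) (by linarith) (by linarith) (by linarith) hb
  have hw : Measurable (wI Z par6 c N η η') := wN_meas6 fun _ _ => hMC
  refine ⟨by positivity, hw.aestronglyMeasurable, k5, k1, fun M h hh _ => ?_, fun M h hh _ => ?_, ?_,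
    k4⟩
  · have hM := hh.nonneg (by linarith) (by linarith)
    exact k2 M h hM (PBU.PLX.BC.of_TC hh ha0 hM)
  · have hM := hh.nonneg (by linarith) (by linarith)
    exact k3 M h hM (PBU.PLX.BC.of_TC hh ha0 hM)
  · exact (PBI.PLX.meas_SN6 (η' := fun _ => η') (fun n _ => hcr) _).aestronglyMeasurable

end PLT.MI

end
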