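import Pool.Agent.PLT.EvoX

/-!
# Monotonicity of the inputs of the glue (helper11)

`UBD.mono`, `WIM.mono`: a smaller disc, a lower window, a smaller rate; `common`: one radius `≤ 1 / 100` for both.
-/

set_option autoImplicit false

noncomputable section

open Complex Filter Topology Set Metric

namespace PLT.FS

open NUP1 (l lpos)

theorem UBD.mono {q a0 b0 : ℕ} {d1 d : ℝ} (h : UBD q a0 b0 d1) (hd : d ≤ d1) : UBD q a0 b0 d := by
  intro ε hε
  filter_upwards [h ε hε] with k hk D hD z h1 h2 h3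
  exact hk D (hD.trans hd) z h1 h2 h3

theorem WIM.mono {q a0 b0 : ℕ} {c e0 d1 c' e d : ℝ} (h : WIM q a0 b0 c e0 d1) (hc : c' ≤ c) (he : e ≤ e0) (hd : d ≤ d1) :
    WIM q a0 b0 c' e d := by
  obtain ⟨C, hC⟩ := h
  refine ⟨|C|, ?_⟩
  filter_upwards [hC, eventually_ge_atTop 1] with k hk hk1 s hs τ hτ b hb
  have hk0 : (1 : ℝ) ≤ k := by exact_mod_cast hk1
  have hlk : 0 ≤ Real.log k := Real.log_nonneg hk0
  refine (hk s (hs.trans hd) τ (hτ.trans (mul_le_mul_of_nonneg_right he hlk)) b hb).trans ?_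
  have h1 : (k : ℝ) ^ (-c) ≤ (k : ℝ) ^ (-c') := Real.rpow_le_rpow_of_exponent_le hk0 (by linarith)
  have h2 : (0 : ℝ) ≤ (k : ℝ) ^ (-c) := Real.rpow_nonneg (by linarith) _
  have h3 : Real.exp (C * |τ|) ≤ Real.exp (|C| * |τ|) :=
    Real.exp_le_exp.2 (mul_le_mul_of_nonneg_right (le_abs_self C) (abs_nonneg τ))
  have h4 : C * (k : ℝ) ^ (-c) ≤ |C| * (k : ℝ) ^ (-c') :=
    (mul_le_mul_of_nonneg_right (le_abs_self C) h2).trans (mul_le_mul_of_nonneg_left h1 (abs_nonneg C))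
  exact mul_le_mul h4 h3 (Real.exp_pos _).le (mul_nonneg (abs_nonneg C) (Real.rpow_nonneg (by linarith) _))

/-- **one radius for both inputs** -/
theorem common {q a0 b0 : ℕ} {c e0 d1 d2 : ℝ} (hd1 : 0 < d1) (hd2 : 0 < d2) (hU : UBD q a0 b0 d1)
    (hW : WIM q a0 b0 c e0 d2) : ∃ d : ℝ, 0 < d ∧ d ≤ 1 / 100 ∧ UBD q a0 b0 d ∧ WIM q a0 b0 c e0 d := by
  refine ⟨min (min d1 d2) (1 / 100), lt_min (lt_min hd1 hd2) (by norm_num), min_le_right _ _, hU.mono ?_, hW.mono le_rfl le_rfl ?_⟩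
  · exact (min_le_left _ _).trans (min_le_left _ _)
  · exact (min_le_left _ _).trans (min_le_right _ _)

end PLT.FS

end
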