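import Pool.Agent.PHK.ZRow6

/-!
# The first Ward identity of the dislocated function, any list of rows

`PHK/ZRow6` for the functions `fQ q (mu η) z` of a family of lists `mu η : Fin m → ℂ` of rows of the
central strip (`Rws`), not only for `(i η, 0, .., 0)`.

* `ZCm c b z0 x g g0`: the class functions of the rows `x`, legs at `z0`;
* `F0_DZm`: the functional `F0 .. [1]` of the straight lines is the state sum `SQt`;
* **`fQ_F0`**: `fQ q x z = Pf * ∑ n, F0 (class functions) n (n + xn m) [1]`;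
* **`fQ_I1`**: the first Ward identity of `η ↦ fQ q (mu η) z` for any family `ZF η` of such class
  functions.
-/

set_option autoImplicit false
set_option linter.unusedSectionVars false

noncomputable section

open Complex MeasureTheory Filter Topology Finset

open PLX (Fil)

namespace PLT

open NUP1 NUP1S NUP1.Bd NURow PB
open PBX (XX ph gP Lg Rws)
open PBI PBI.PLX
open PBZF (Lz)
open PBZF.PLX (decZ_XXUn specP_P1 gon_P1)
open Pool.Agent.PB (Pf xr)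
open Pool.Agent.PLX (XXU DZU yq rwq SQt fQ GOn K1P K2P SpecP LnR lnR_P1 DZU_clsP bdd_GXUP famXU)

variable {P : NUO.Par} {b : ℝ} {m : ℕ} {z0 : ℂ} {η0 : ℝ}

variable [Fil]

/-- the class functions of the rows `x`, legs at `z0`, corrections `g`, `g0` of the cutoffs -/
def ZCm (c : Bool → ℂ) (b : ℝ) (z0 : ℂ) (x : Fin m → ℂ) (g g0 : Bool → ℂ → ℂ) : Stt := fun s =>
  XXU (c s) b (rwq x s) (rwq x (!s)) (g s) (g0 s) (Lg z0 z0) (fun w => Lg z0 z0 w * Lg z0 z0 (w - l))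

/-- the constants of `m` rows -/
def cRm (m : ℕ) : Bool → ℂ := fun s => Leg.cc (cond s m (Fil.q * m))

/-- **the functional of the straight lines is the state sum** -/
theorem F0_DZm (hP : NUGC.PLX.ParC P) (hb : 0 < b) (hb' : b ≤ 4 / 3) (hz : Lz z0) {x : Fin m → ℂ}
    (hx : Rws x) {g g0 : Bool → ℂ → ℂ} (hg : ∀ s, PBX.GOk b (g s))
    (hg0 : ∀ s, GOn (K2P (-(29 / 20 * l))) (4 / 3) (g0 s)) (n : ℕ) :
    F0 (3 / 5 * l) n (n + Fil.xn m) (fl P) (ZCm (cRm m) b z0 x g g0) (fun _ _ _ _ => 1) =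
      SQt Fil.q z0 x n := by
  have hl := Bd.l_pos
  obtain ⟨z1, z2⟩ := hz
  have hy : ∀ s, Rws (rwq x s) := fun s => Pool.Agent.PLX.Rws_rwq hx s
  have L : LnH (lX P) (lY P) := LnH_P hP.goodP hP.j1 hP.j2 fun r => by
    have h3 := hP.e2 r
    have h4 := hP.d0 r
    linarith
  have hxn : (((n + Fil.xn m : ℕ) : ℝ)) + ((m : ℕ) : ℝ) =
      (n : ℝ) + ((Fil.q * m : ℕ) : ℝ) + 0 := by
    rw [← Fil.add_xn]
    push_cast
    ring
  have s1 : Pool.Agent.PLX.SpU 0 (Lg z0 z0) :=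
    Pool.Agent.PLX.SpU.of_SpA (PBX.Lg_SpA (by linarith) (by linarith))
  have sw : Pool.Agent.PLX.SpW6 0 (Lg z0 z0) := Pool.Agent.PLX.SpW6.leg z1 (by linarith)
  have sp : ∀ s : Bool, SpecP (3 / 5 * l) (-(69 / 50 * l)) s 0 (Lg z0 z0)
      (fun w => Lg z0 z0 w * Lg z0 z0 (w - l)) := fun s => specP_P1 (by
    have h := Pool.Agent.PLX.SpW6.specP (a := s) (q := 0) (s := Lg z0 z0) (by simpa using sw)
    simpa using h)
  have hX : ∀ p p' k k' i, lX P p p' k k' i ∈ Set.Icc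
      (lo4 (3 / 5 * l) (-(17 / 10 * l)) (-(69 / 50 * l)) (-(7 / 10 * l)) (some (k i)))
      (lo4 (3 / 5 * l) (-(101 / 100 * l)) (-(7 / 10 * l)) (-(l / 2)) (some (k i))) := by
    intro p p' k k' i
    have h := L.hX p p' k k' i
    cases hk : k i <;> rw [hk] at h <;> exact ⟨le_trans (by simp only [lo4]; linarith) h.1,
      h.2.trans (by simp only [lo4]; linarith)⟩
  have hY : ∀ p p' k k' i, lY P p p' k k' i ∈ Set.Icc
      (lo4 (3 / 5 * l) (-(17 / 10 * l)) (-(69 / 50 * l)) (-(7 / 10 * l)) (some (k' i)))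
      (lo4 (3 / 5 * l) (-(101 / 100 * l)) (-(7 / 10 * l)) (-(l / 2)) (some (k' i))) := by
    intro p p' k k' i
    have h := L.hY p p' k k' i
    cases hk : k' i <;> rw [hk] at h <;> exact ⟨le_trans (by simp only [lo4]; linarith) h.1,
      h.2.trans (by simp only [lo4]; linarith)⟩
  have e := DZU_clsP (c := Leg.cc m) (c' := Leg.cc (Fil.q * m))
    (s := Lg z0 z0) (t := Lg z0 z0) (q := 0) hb hb' hx (Pool.Agent.PLX.Rws_yq hx) lnR_P1
    (g := g true) (g' := g false) (g0 := g0 true) (g0' := g0 false)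
    (s2 := fun w => Lg z0 z0 w * Lg z0 z0 (w - l))
    (t2 := fun w => Lg z0 z0 w * Lg z0 z0 (w - l)) (hg true) (hg false) (gon_P1 (hg0 true))
    (gon_P1 (hg0 false)) s1 (by simpa using s1) (by simpa using sp true) (by simpa using sp false)
    hxn (lX P) (lY P) hX hY
  have e0 : SQt Fil.q z0 x n = DZU (Leg.cc m) (Leg.cc (Fil.q * m))
      (Lg z0 z0) (Lg z0 z0) x (yq x) n (n + Fil.xn m) := rfl
  rw [e0, e]
  refine F0_ZobjQ (Q := -(Fil.xn m : ℤ)) hP.goodQ (by linarith) (by linarith : (0 : ℝ) < 2 * b)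
    (fun s k => ?_) ?_ (by push_cast; ring)
  · exact Pool.Agent.PLX.measurable_XXU (hg s).meas (hg0 s).meas (PBX.Lg_meas z0 z0)
      ((PBX.Lg_meas z0 z0).mul ((PBX.Lg_meas z0 z0).comp (measurable_id.sub_const _))) k
  · have h := decZ_XXUn (P := P) (N := fun s => cond s m (Fil.q * m))
      (ro := rwq x) hP (c := cRm m) (Q' := 0) hb hb' hy (g := g) (g0 := g0)
      (s1 := fun _ => Lg z0 z0) (s2 := fun _ w => Lg z0 z0 w * Lg z0 z0 (w - l)) hg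
      (fun s => gon_P1 (hg0 s)) sp (PBX.PLX.cast_xnQ m 0)
    have e1 : ((-(Fil.xn m : ℤ) : ℤ) : ℝ) = 0 - (Fil.xn m : ℝ) := by
      push_cast
      ring
    rw [e1]
    exact h

/-- **the function is the functional of the straight lines** -/
theorem fQ_F0 (hP : NUGC.PLX.ParC P) (hb : 0 < b) (hb' : b ≤ 4 / 3) (hz : Lz z0) {x : Fin m → ℂ}
    (hx : Rws x) {g g0 : Bool → ℂ → ℂ} (hg : ∀ s, PBX.GOk b (g s))
    (hg0 : ∀ s, GOn (K2P (-(29 / 20 * l))) (4 / 3) (g0 s)) :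
    fQ Fil.q x z0 = Pf z0 x (yq x) *
      ∑ n ∈ range (2 * m + 1),
        F0 (3 / 5 * l) n (n + Fil.xn m) (fl P) (ZCm (cRm m) b z0 x g g0)
          (fun _ _ _ _ => 1) := by
  have hl := Bd.l_pos
  have hz' := hz
  obtain ⟨z1, z2⟩ := hz'
  have h := Pool.Agent.PLX.fQ_eq (q := Fil.q) Fil.one_le_q (mu := x)
    (Pool.Agent.PB.Rws.rwo hx) (z := z0) ⟨by linarith, by linarith⟩
  refine h.trans ?_
  unfold Pool.Agent.PLX.SQ
  congr 1
  refine Finset.sum_congr rfl fun n _ => ?_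
  rw [F0_DZm hP hb hb' hz hx hg hg0 n]

/-- **The first Ward identity of the function of a family of lists of rows**, any family `ZF` of class
functions. -/
theorem fQ_I1 (hP : NUGC.PLX.ParC P) (hb : 0 < b) (hb' : b ≤ 4 / 3) (hz : Lz z0) {D rr : ℝ}
    {mu : ℝ → Fin m → ℂ} (hmu : ∀ᶠ η : ℝ in 𝓝 η0, Rws (mu η)) {ZF Zd : ℝ → Stt} {Zp : Stt}
    (hev : ∀ᶠ η : ℝ in 𝓝 η0, ∃ g g0 : Bool → ℂ → ℂ, (∀ s, PBX.GOk b (g s)) ∧
      (∀ s, GOn (K2P (-(29 / 20 * l))) (4 / 3) (g0 s)) ∧ ZF η = ZCm (cRm m) b z0 (mu η) g g0)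
    (hZ : ∀ n n' : ℕ, n' = n + Fil.xn m → PBI.PLX.ZFam (3 / 5 * l) n n' (fl P) (2 * b) D rr η0 ZF Zd Zp)
    {Ξ Ξ' : PBI.Kd → ℂ → ℂ} {A : PBI.Kd → PBI.Kd → ℂ → ℂ → ℂ} {ρ : PBI.Kd → ℝ → ℂ} {κr r1 lam : PBI.Kd → ℂ → ℂ}
    (hF : ∀ n ∈ range (2 * m + 1), ∃ B,
      FFam (3 / 5 * l) n (n + Fil.xn m) (fl P) B Ξ Ξ' A ρ κr r1 lam) {Pf' : ℂ}
    (hPf : HasDerivAt (fun η : ℝ => Pf z0 (mu η) (yq (mu η))) Pf' η0)
    (hN : Pf' + Pf z0 (mu η0) (yq (mu η0)) * (C0 ρ r1 + C1 ρ Ξ lam) = 0) :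
    HasDerivAt (fun η : ℝ => fQ Fil.q (mu η) z0)
      (Pf z0 (mu η0) (yq (mu η0)) * ∑ n ∈ range (2 * m + 1),
        (F0 (3 / 5 * l) n (n + Fil.xn m) (fl P) (ZF η0) (nuW ρ A Ξ lam) +
          F0D (3 / 5 * l) n (n + Fil.xn m) (fl P) (ZF η0)
            (Zcut (ZF η0) (Zd η0) Zp Ξ κr r1 lam))) η0 := by
  obtain ⟨B, hF⟩ := PBZF.PLX.FFam.unif hF
  have key := PBI.PLX.I1A (S := range (2 * m + 1)) (u := fun n => n)
    (v := fun n => n + Fil.xn m)
    (Pf := fun η : ℝ => Pf z0 (mu η) (yq (mu η)))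
    (fun n _ => hZ n _ rfl) hF hPf hN
  refine key.congr_of_eventuallyEq ?_
  filter_upwards [hev, hmu] with η hη hx
  obtain ⟨g, g0, hg, hg0, e⟩ := hη
  rw [e]
  exact fQ_F0 hP hb hb' hz hx hg hg0

end PLT

end
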