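import Pool.Agent.PLT.NumT
import Pool.Agent.PLT.HC
import Pool.Agent.PLT.ZRowC
import Pool.Agent.PHK.RepT6
import Pool.Agent.PLX.PB.I1F0

/-!
# One moved row of a list, exact field, real reference line

* `mvR x i0 η0 η`: the list `x`, the row `i0` moved by `(η - η0) I`; `mvR_deriv`, `mvR_rws`;
* `C0T_line`, `C1T_line`: the constants of `PLT/NumT` over the straight curve are `C02`, `C1v2`;
* **`num_line`**: the derivative of the prefactor is `-(Pf (C02 + C1v2))`;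
* **`fx_Dm`**: the exact derivative of `η ↦ fQ q (mvR x i0 η0 η) z`.
-/

set_option autoImplicit false
set_option linter.unusedSectionVars false

noncomputable section

open MeasureTheory Filter Topology Finset
open scoped Classical

namespace PLT

open NUP1 NUP1S NUP1.Bd NURow PB PBI PBI.PLX PBForce PBQ1
open PLT.NT
open PBX (Rws)
open PBZF (Lz)
open PBRep.PLX (F0N6)
open Pool.Agent.PB (Pf)
open Pool.Agent.PLX (yq rwq fQ GOn K2P)
open PLX (Fil)

variable {m : ℕ}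

/-- the row `i0` of the list `x` moved by `(η - η0) I` -/
def mvR (x : Fin m → ℂ) (i0 : Fin m) (η0 η : ℝ) : Fin m → ℂ := fun i =>
  x i + ((η : ℂ) - η0) * vv i0 i

@[simp] theorem mvR_self (x : Fin m → ℂ) (i0 : Fin m) (η0 : ℝ) : mvR x i0 η0 η0 = x := by
  funext i
  unfold mvR
  simp

theorem mvR_deriv (x : Fin m → ℂ) (i0 : Fin m) (η0 : ℝ) (i : Fin m) :
    HasDerivAt (fun η => mvR x i0 η0 η i) (vv i0 i) η0 := by
  have h1 : HasDerivAt (fun η : ℝ => (η : ℂ) - η0) 1 η0 :=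
    (Complex.ofRealCLM.hasDerivAt (x := η0)).sub_const _
  have h2 := (h1.mul_const (vv i0 i)).const_add (x i)
  rw [one_mul] at h2
  exact h2

theorem mvR_re (x : Fin m → ℂ) (i0 : Fin m) (η0 η : ℝ) (i : Fin m) :
    (mvR x i0 η0 η i).re = (x i).re := by
  unfold mvR vv
  split_ifs
  · simp
  · simp

theorem mvR_rws {x : Fin m → ℂ} (hx : Rws x) (i0 : Fin m) (η0 η : ℝ) : Rws (mvR x i0 η0 η) :=
  fun i => by
    rw [mvR_re]
    exact hx i

variable [Fil]

private theorem ec_zero (t : ℝ) : ec (fun _ => 0) t = vl l t := by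
  unfold ec cpt vl
  simp
  ring

private theorem rhT_zero (x : Fin m → ℂ) (b : PBQ1.K4) (s : ℝ) :
    rhT x (fun _ => 0) (fun _ => 0) b s = rhK2 x b s := by
  obtain ⟨σ, k⟩ := b
  cases k with
  | none =>
    rw [rhT_none, rhK2_none, ec_zero]
    unfold cjc
    simp
  | some k => rw [rhT_some, rhK2_some]

theorem C0T_line (x : Fin m → ℂ) (i0 : Fin m) : C0T x i0 (fun _ => 0) (fun _ => 0) = C02 x i0 := by
  unfold C0T C02
  simp only [rhT_zero, ec_zero]

theorem C1T_line (z : ℂ) (x : Fin m → ℂ) (i0 : Fin m) :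
    C1T z x (xiR x i0) (fun _ => 0) (fun _ => 0) = C1v2 z x i0 := by
  unfold C1T C1v2
  simp only [rhT_zero, ec_zero]
  rfl

/-- the prefactor over the straight line, rows of a strip in which the density has no zero -/
theorem num_line {x : Fin m → ℂ} {i0 : Fin m} {d : ℝ} (hd : 0 ≤ d) {y : ℝ → Fin m → ℂ} {t : ℝ} {z : ℂ}
    (hyx : y t = x) (hy : ∀ i, HasDerivAt (fun η => y η i) (vv i0 i) t)
    (hne : ∀ u : ℂ, l ≤ u.re → u.re ≤ l + d → rhoR x u ≠ 0)
    (hx : ∀ i, d - l < (x i).re ∧ (x i).re < l) (hz : RowZ z x) (h2 : -l < z.re)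
    (h3 : z.re < 4 * l) :
    HasDerivAt (fun η => Pf z (y η) (yq (y η))) (-(Pf z x (yq x) * (C02 x i0 + C1v2 z x i0))) t := by
  have h := NumT0 (x := x) (i0 := i0) (ξ := xiR x i0) (d := d) (lo := 0) (hi := 0)
    (η := fun _ => 0) (η' := fun _ => 0) hyx hy (fun u a1 a2 => by
      unfold xiR
      have := hne u (by linarith) a2
      field_simp) (prf_const 0) (fun i => ⟨(hx i).1, by linarith [(hx i).2]⟩) (by linarith) hz
    (by linarith) (by linarith)
  rw [C0T_line, C1T_line] at h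
  exact h

/-- **the exact derivative**, any list of rows, exact field -/
theorem fx_Dm {x : Fin m → ℂ} {i0 : Fin m} {η0 b D rr d : ℝ} {z0 : ℂ} {P : NUO.Par}
    (hP : NUGC.PLX.ParC P) (hb : 0 < b) (hb' : b ≤ 4 / 3) (hz : Lz z0) (hx : Rws x) (hd : 0 ≤ d)
    (hd' : d < l / 2) (hne : ∀ u : ℂ, l ≤ u.re → u.re ≤ l + d → rhoR x u ≠ 0)
    (hzx : ∀ i, -l < (z0 - x i).re ∧ (z0 - x i).re < 4 * l) {ZF Zd : ℝ → Stt} {Zp : Stt}
    (hev : ∀ᶠ η : ℝ in 𝓝 η0, ∃ g g0 : Bool → ℂ → ℂ, (∀ s, PBX.GOk b (g s)) ∧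
      (∀ s, GOn (K2P (-(29 / 20 * l))) (4 / 3) (g0 s)) ∧
        ZF η = ZCm (cRm m) b z0 (mvR x i0 η0 η) g g0)
    (hZ : ∀ n n' : ℕ, n' = n + Fil.xn m → PBI.PLX.ZFam (3 / 5 * l) n n' (fl P) (2 * b) D rr η0 ZF Zd Zp)
    (hF : ∀ n ∈ range (2 * m + 1), ∃ B, FFam (3 / 5 * l) n (n + Fil.xn m) (fl P) B
      (xiK x i0) (fun b w => deriv (xiR x i0) (fp b w))
      (PBOb.aK (xiR x i0)) (rhK2 x) (krK2 x) (r1K2 x i0) (lamK z0)) :
    HasDerivAt (fun η : ℝ => fQ Fil.q (mvR x i0 η0 η) z0)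
      (F0N6 (ZF η0) (fl P) (3 / 5 * l) (2 * m)
          (fun _ => Pf z0 x (yq x))
          (fun ι _ c z => nuQI (rhK2 x) (PBOb.aK (xiR x i0)) ι c z + nuI (rhK2 x) (glK z0 x i0) ι c z) +
        Pf z0 x (yq x) * ∑ n ∈ range (2 * m + 1),
          F0D (3 / 5 * l) n (n + Fil.xn m) (fl P) (ZF η0)
            (Zcut (ZF η0) (Zd η0) Zp (xiK x i0) (krK2 x) (r1K2 x i0) (lamK z0))) η0 := by
  have hl := Bd.l_pos
  have hz' := hz
  obtain ⟨z1, z2⟩ := hz'
  have hnum := num_line (x := x) (i0 := i0) (d := d) hd (y := fun η => mvR x i0 η0 η) (t := η0)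
    (z := z0) (mvR_self x i0 η0) (mvR_deriv x i0 η0) hne (fun i => by
      have h1 := abs_le.1 (hx i)
      constructor <;> linarith [h1.1, h1.2])
    { two := fun i j => by
        have h1 := abs_le.1 (hx i)
        have h2 := abs_le.1 (hx j)
        rw [Complex.sub_re, abs_lt]
        constructor <;> linarith [h1.1, h1.2, h2.1, h2.2]
      lo := fun i => (hzx i).1
      hi := fun i => (hzx i).2 } (by linarith) (by linarith)
  have hN : -(Pf z0 x (yq x) * (C02 x i0 + C1v2 z0 x i0)) +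
      Pf z0 (mvR x i0 η0 η0) (yq (mvR x i0 η0 η0)) *
        (PBI.C0 (rhK2 x) (r1K2 x i0) + C1 (rhK2 x) (xiK x i0) (lamK z0)) = 0 := by
    have e1 : PBI.C0 (rhK2 x) (r1K2 x i0) = C02 x i0 := rfl
    have e2 : C1 (rhK2 x) (xiK x i0) (lamK z0) = C1v2 z0 x i0 := rfl
    rw [e1, e2, mvR_self]
    ring
  have key := fQ_I1 (mu := fun η => mvR x i0 η0 η) hP hb hb' hz
    (Eventually.of_forall fun η => mvR_rws hx i0 η0 η) hev hZ hF hnum hN
  refine key.congr_deriv ?_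
  rw [mvR_self, Finset.sum_add_distrib, mul_add]
  congr 1
  unfold PBRep.PLX.F0N6
  rw [Finset.mul_sum, PBF.PLX.dN_two]
  rfl

end PLT

end
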