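import Pool.Agent.PLX.I1Q2
import Pool.Agent.PLT.CurS
import Pool.Agent.PB.FieldR

/-!
# The first Ward identity in normal form over a static curve, any field

Twin of `PLX/I1Q2.normal_form2`.  Rows `x : Fin m → ℂ` (places and heights), field `ξ` of the moved
row with `ρ ξ = pc (row i0) (1 - ε)`.  The sea lives on the curve `ec η t = l - η t + t I`.

* `normI1d` : the identity without any hypothesis on the convective term;
* `ec`, `shift_ec` : the curve and the shift to a vertical line;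
* `RowT hi d x` : every row is regular on `l - hi ≤ Re u ≤ l + d`;
* `pair_zero` : the constant term vanishes pair by pair (oddness of the row forces);
* `HeadT`, **`conv_T`** : the convective term for every point to the left of `Re u = l + d`;
* `KerT`; **`normal_formT`**, `normal_formT0` (`ε = 0`).
-/

set_option autoImplicit false
set_option linter.unusedSectionVars false

noncomputable section

open MeasureTheory Set Filter Topology Finset
open scoped Classical

namespace PLT.NT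

open NUP1 NUP1S NUP1.Bd NURow PB PBI PBForce PBQ1 Pool.Agent.PB
open PLX (Fil)

/-! ### the identity without hypothesis on the convective term -/

section abs

variable {ι S X : Type*} [Fintype ι] [Fintype S]

/-- **the pointwise identity**, the convective term of the sea is kept -/
theorem normI1d {r : ι → ι → Prop} (hr : Tourn r) (e : ℝ → X) (sp : ι → S) {ρ : S → ℝ → ℂ}
    {ξ dξ κr r1 : S → X → ℂ} {lam : ι → X → ℂ} {a : S → S → X → X → ℂ}
    (has : ∀ b c s t, a b c s t = a c b t s)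
    (hI1 : ∀ b, Integrable fun s => ρ b s * (ξ b (e s) * κr b (e s)))
    (hI1' : ∀ b, Integrable fun s => ρ b s * r1 b (e s))
    (hI2 : ∀ b, Integrable fun s => ρ b s * NX.smr e ρ a b (e s)) (z : ι → X) :
    (∑ k, (r1 (sp k) (z k) + (dξ (sp k) (z k) + ξ (sp k) (z k) *
      (κr (sp k) (z k) + lam k (z k))))) +
      ∑ p ∈ prs r, a (sp p.1) (sp p.2) (z p.1) (z p.2) =
    ∑ b, (∫ s, ρ b s * r1 b (e s)) + ∑ k, NX.Cv e ρ ξ κr r1 a (sp k) (z k) + NX.nuQ e sp ρ a z +
      ∑ k, ξ (sp k) (z k) * lam k (z k) +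
      ∑ k, (dξ (sp k) (z k) - (1 / 2) * a (sp k) (sp k) (z k) (z k)) +
      (1 / 2) * (∑ b, (∫ s, ρ b s * (ξ b (e s) * κr b (e s))) - ∑ b, (∫ s, ρ b s * r1 b (e s)) -
        ∑ b, ∫ s, ρ b s * NX.Cv e ρ ξ κr r1 a b (e s)) := by
  have h1 := sum_pairs hr (fun i j => a (sp i) (sp j) (z i) (z j)) fun i j => has _ _ _ _
  have h2 : ∑ b, (∫ s, ρ b s * NX.Cv e ρ ξ κr r1 a b (e s)) =
      ∑ b, (∫ s, ρ b s * (ξ b (e s) * κr b (e s))) + NX.dbl e ρ a +
        ∑ b, (∫ s, ρ b s * r1 b (e s)) := by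
    unfold NX.dbl
    rw [← Finset.sum_add_distrib, ← Finset.sum_add_distrib]
    refine Finset.sum_congr rfl fun b _ => ?_
    have i2 : Integrable fun s => ρ b s * (ξ b (e s) * κr b (e s)) + ρ b s * NX.smr e ρ a b (e s) :=
      (hI1 b).add (hI2 b)
    rw [← integral_add (hI1 b) (hI2 b), ← integral_add i2 (hI1' b)]
    refine integral_congr_ae (Filter.Eventually.of_forall fun s => ?_)
    simp only [NX.Cv]
    ring
  have h4 : ∑ k, (r1 (sp k) (z k) + (dξ (sp k) (z k) + ξ (sp k) (z k) *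
      (κr (sp k) (z k) + lam k (z k)))) =
      ∑ k, NX.Cv e ρ ξ κr r1 a (sp k) (z k) - ∑ k, NX.smr e ρ a (sp k) (z k) +
        ∑ k, dξ (sp k) (z k) + ∑ k, ξ (sp k) (z k) * lam k (z k) := by
    rw [← Finset.sum_sub_distrib, ← Finset.sum_add_distrib, ← Finset.sum_add_distrib]
    exact Finset.sum_congr rfl fun k _ => by simp only [NX.Cv]; ring
  rw [Finset.sum_sub_distrib, ← Finset.mul_sum, h4, h2]
  unfold NX.nuQ
  rw [h1]
  ring

end abs

/-! ### the curve in file coordinates -/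

/-- a point of the sea: `l - η t + t I` -/
def ec (η : ℝ → ℝ) (t : ℝ) : ℂ := l + Complex.I * cpt η t

@[simp] lemma ec_re (η : ℝ → ℝ) (t : ℝ) : (ec η t).re = l - η t := by
  unfold ec
  rw [Complex.add_re, Complex.mul_re, Complex.I_re, Complex.I_im, cpt_im, Complex.ofReal_re]
  ring

@[simp] lemma ec_im (η : ℝ → ℝ) (t : ℝ) : (ec η t).im = t := by
  unfold ec
  rw [Complex.add_im, Complex.mul_im, Complex.I_re, Complex.I_im, cpt_re, Complex.ofReal_im]
  ring

variable {η η' : ℝ → ℝ} {lo hi : ℝ}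

/-- **shift of the sea curve to a vertical line** -/
theorem shift_ec {p q c κ C : ℝ} {G : ℂ → ℂ} (hκ : 0 < κ) (hC : 0 ≤ C) (hη : Prf lo hi η η')
    (hp : p ≤ l - hi) (hq : l - lo ≤ q) (hc1 : p ≤ c) (hc2 : c ≤ q)
    (hG : ∀ u : ℂ, p ≤ u.re → u.re ≤ q → DifferentiableAt ℂ G u)
    (hb : ∀ u : ℂ, p ≤ u.re → u.re ≤ q → ‖G u‖ ≤ C * Real.exp (-κ * |u.im|)) :
    Integrable (fun t => G (ec η t) * cjc η' t) ∧
    Integrable (fun t : ℝ => G (c + t * Complex.I)) ∧
      ∫ t, G (ec η t) * cjc η' t = ∫ t : ℝ, G (c + t * Complex.I) := by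
  have hre : ∀ z : ℂ, ((l : ℂ) + Complex.I * z).re = l - z.im := fun z => by
    rw [Complex.add_re, Complex.mul_re, Complex.I_re, Complex.I_im, Complex.ofReal_re]
    ring
  have him : ∀ z : ℂ, ((l : ℂ) + Complex.I * z).im = z.re := fun z => by
    rw [Complex.add_im, Complex.mul_im, Complex.I_re, Complex.I_im, Complex.ofReal_im]
    ring
  have h := shift_curve (a := l - q) (b := l - p) (κ := κ) (C := C) (c := l - c)
    (f := fun z => G (l + Complex.I * z)) hκ hC hη (by linarith) (by linarith) (by linarith)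
    (by linarith) (fun z hz => by
      have h1 := hG (l + Complex.I * z) (by rw [hre]; linarith [hz.2]) (by rw [hre]; linarith [hz.1])
      have h2 : DifferentiableAt ℂ (fun z : ℂ => (l : ℂ) + Complex.I * z) z :=
        (differentiableAt_id.const_mul _).const_add _
      exact (DifferentiableAt.comp z h1 h2).differentiableWithinAt) (fun z hz => by
      have h1 := hb (l + Complex.I * z) (by rw [hre]; linarith [hz.2]) (by rw [hre]; linarith [hz.1])
      rwa [him] at h1)
  have e1 : ∀ t : ℝ, (l : ℂ) + Complex.I * ((t : ℂ) + ((l - c : ℝ) : ℂ) * Complex.I) =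
      c + t * Complex.I := fun t => by
    push_cast
    linear_combination ((l : ℂ) - c) * Complex.I_mul_I
  simp only [e1] at h
  exact h

/-! ### regular rows -/

variable {m : ℕ}

/-- every row is regular for `l - hi ≤ Re u ≤ l + d` -/
def RowT (hi d : ℝ) (x : Fin m → ℂ) : Prop := ∀ i, d - l < (x i).re ∧ (x i).re < l - hi

/-- one row: its density decays in the strip -/
theorem pc_dec {p q : ℝ} {x : ℂ} (h1 : q - 2 * l < x.re) (h2 : x.re < p) (hpq : p ≤ q) :
    ∃ C : ℝ, 0 ≤ C ∧ ∀ u : ℂ, p ≤ u.re → u.re ≤ q →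
      ‖pc (u - l - x)‖ ≤ C * Real.exp (-(8 / 3) * |u.im|) := by
  have hb : max |p - l - x.re| |q - l - x.re| < l := by
    refine max_lt ?_ ?_ <;> rw [abs_lt] <;> constructor <;> linarith
  set b := max |p - l - x.re| |q - l - x.re| with hbd
  have hb0 : 0 ≤ b := (abs_nonneg _).trans (le_max_left _ _)
  have hb' : b < NUMF.l := hb
  have hD := (strip_low hb0 hb (w := 0) (by simpa using hb0)).1
  set D := 2 * Real.cos (8 / 3 * b) - 1 with hDd
  refine ⟨16 / (√3 * Real.pi) / D ^ 2 * (2 * Real.exp (8 / 3 * |x.im|)), by positivity,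
    fun u h3 h4 => ?_⟩
  have hre : (u - l - x).re = u.re - l - x.re := by simp
  have hw : |(u - l - x).re| ≤ b := by
    rw [hre, abs_le]
    have k1 := le_max_left |p - l - x.re| |q - l - x.re|
    have k2 := le_max_right |p - l - x.re| |q - l - x.re|
    have k3 := neg_abs_le (p - l - x.re)
    have k4 := le_abs_self (q - l - x.re)
    rw [← hbd] at k1 k2
    constructor <;> linarith
  have e0 : (u - l - x).im = u.im - x.im := by simp
  have h5 := pc_le hb0 hb' hw
  rw [← hDd, e0] at h5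
  refine h5.trans ?_
  rw [div_eq_mul_inv, mul_assoc (16 / (√3 * Real.pi) / D ^ 2)]
  refine mul_le_mul_of_nonneg_left ?_ (by positivity)
  have h6 := PBForce.exp_le_cosh (8 / 3 * (u.im - x.im))
  have h7 : 8 / 3 * |u.im| - 8 / 3 * |x.im| ≤ |8 / 3 * (u.im - x.im)| := by
    rw [abs_mul, abs_of_pos (by norm_num : (0:ℝ) < 8 / 3)]
    have := abs_sub_abs_le_abs_sub u.im x.im
    linarith
  have h8 : Real.exp (8 / 3 * |u.im| - 8 / 3 * |x.im|) / 2 ≤
      Real.cosh (8 / 3 * (u.im - x.im)) :=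
    le_trans (by have := Real.exp_le_exp.2 h7; linarith) h6
  rw [inv_le_comm₀ (Real.cosh_pos _) (by positivity)]
  refine le_trans (le_of_eq ?_) h8
  rw [mul_inv, mul_inv, ← Real.exp_neg, ← Real.exp_neg, Real.exp_sub,
    show -(-(8 / 3) * |u.im|) = 8 / 3 * |u.im| by ring, Real.exp_neg]
  field_simp

/-- one row: its density is analytic in the strip -/
theorem pc_an {x u : ℂ} (h1 : u.re - 2 * l < x.re) (h2 : x.re < u.re) :
    DifferentiableAt ℂ (fun u : ℂ => pc (u - l - x)) u := by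
  have hre : (u - l - x).re = u.re - l - x.re := by simp
  have h3 : |(u - l - x).re| < NUMF.l := by
    show |(u - l - x).re| < l
    rw [hre, abs_lt]
    constructor <;> linarith
  have h4 : DifferentiableAt ℂ (fun u : ℂ => u - l - x) u :=
    ((differentiableAt_id).sub_const _).sub_const _
  exact DifferentiableAt.comp (g := pc) u (pc_diff h3) h4

/-! ### the row forces -/

lemma cot_eq_tan (w : ℂ) : Complex.cot w = -Complex.tan (w + 4 * l) := by
  have h : (4 * l : ℂ) = Real.pi / 2 := l4c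
  rw [h, Complex.tan_eq_sin_div_cos, Complex.cot_eq_cos_div_sin, Complex.sin_add_pi_div_two,
    Complex.cos_add_pi_div_two, div_neg, neg_neg]

/-- the tangent is bounded in a strip around its regular lines -/
lemma tan_bd {p q : ℝ} (hp : -(4 * l) < p) (hq : q < 4 * l) (hpq : p ≤ q) :
    ∃ C : ℝ, 0 ≤ C ∧ ∀ w : ℂ, p ≤ w.re → w.re ≤ q → ‖Complex.tan w‖ ≤ C := by
  have hl := NUMF.l_pos
  have e4 : 4 * l = Real.pi / 2 := by unfold l; ring
  set c := min (Real.cos p) (Real.cos q) with hc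
  have hc0 : 0 < c := lt_min
    (Real.cos_pos_of_mem_Ioo ⟨by rw [← e4]; exact hp, by rw [← e4]; linarith⟩)
    (Real.cos_pos_of_mem_Ioo ⟨by rw [← e4]; linarith, by rw [← e4]; exact hq⟩)
  refine ⟨1 / c, by positivity, fun w h1 h2 => ?_⟩
  have h3 : c ≤ Real.cos w.re := by
    rcases le_total 0 w.re with h | h
    · refine (min_le_right _ _).trans (Real.cos_le_cos_of_nonneg_of_le_pi h ?_ h2)
      have := Real.pi_pos
      linarith
    · refine (min_le_left _ _).trans ?_
      rw [← Real.cos_neg p, ← Real.cos_neg w.re]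
      refine Real.cos_le_cos_of_nonneg_of_le_pi (by linarith) ?_ (by linarith)
      have := Real.pi_pos
      linarith
  have h4 : 0 < Real.cos w.re := lt_of_lt_of_le hc0 h3
  refine (tan_le h4.ne').trans ?_
  rw [abs_of_pos h4]
  exact one_div_le_one_div_of_le hc0 h3

lemma rowS_tan (w : ℂ) : rowS w = Complex.I * (Complex.tan (w - 3 * l) + Complex.tan (w + 3 * l)) := by
  change Complex.I * (-Complex.cot (w + l) - Complex.cot (w - l)) = _
  have h1 : Complex.cot (w + l) = -Complex.tan (w - 3 * l) := by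
    rw [cot_eq_tan, show w + l + 4 * (l : ℂ) = (w - 3 * l) + Real.pi by
      have h : (8 * l : ℂ) = Real.pi := by unfold l; push_cast; ring
      linear_combination h, Complex.tan_add_pi]
  have h2 : Complex.cot (w - l) = -Complex.tan (w + 3 * l) := by
    rw [cot_eq_tan]
    congr 2
    ring
  rw [h1, h2]
  ring

lemma rowS_odd (w : ℂ) : rowS (-w) = -rowS w := by
  rw [rowS_tan, rowS_tan]
  have h1 : -w - 3 * (l : ℂ) = -(w + 3 * l) := by ring
  have h2 : -w + 3 * (l : ℂ) = -(w - 3 * l) := by ring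
  rw [h1, h2, Complex.tan_neg, Complex.tan_neg]
  ring

lemma rowX_odd (w : ℂ) : rowX (-w) = -rowX w := by
  unfold rowX
  rw [Complex.tan_neg]
  ring

/-- a row force: odd, analytic and bounded in every strip `|Re w| ≤ b < l` -/
structure Fod (k : ℂ → ℂ) : Prop where
  odd : ∀ w, k (-w) = -k w
  dif : ∀ w : ℂ, |w.re| < l → DifferentiableAt ℂ k w
  bd : ∀ b : ℝ, 0 ≤ b → b < l → ∃ C : ℝ, 0 ≤ C ∧ ∀ w : ℂ, |w.re| ≤ b → ‖k w‖ ≤ C

lemma tan_dif {w : ℂ} (h : Real.cos w.re ≠ 0) : DifferentiableAt ℂ Complex.tan w := by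
  refine (Complex.hasDerivAt_tan fun h0 => h ?_).differentiableAt
  have h1 := congrArg Complex.re h0
  rw [cos_re', Complex.zero_re] at h1
  exact (mul_eq_zero.1 h1).resolve_right (Real.cosh_pos _).ne'

lemma cos_re_pos {w : ℂ} (h1 : -(4 * l) < w.re) (h2 : w.re < 4 * l) : Real.cos w.re ≠ 0 := by
  have e4 : 4 * l = Real.pi / 2 := by unfold l; ring
  exact (Real.cos_pos_of_mem_Ioo ⟨by rw [← e4]; exact h1, by rw [← e4]; exact h2⟩).ne'

theorem fod_rowS : Fod rowS where
  odd := rowS_odd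
  dif w hw := by
    have hl := NUMF.l_pos
    obtain ⟨h1, h2⟩ := abs_lt.1 hw
    have r1 : (w - 3 * l : ℂ).re = w.re - 3 * l := by simp
    have r2 : (w + 3 * l : ℂ).re = w.re + 3 * l := by simp
    have d1 : DifferentiableAt ℂ (fun w : ℂ => Complex.tan (w - 3 * l)) w :=
      (tan_dif (cos_re_pos (by rw [r1]; linarith) (by rw [r1]; linarith))).comp w
        (differentiableAt_id.sub_const _)
    have d2 : DifferentiableAt ℂ (fun w : ℂ => Complex.tan (w + 3 * l)) w :=
      (tan_dif (cos_re_pos (by rw [r2]; linarith) (by rw [r2]; linarith))).comp w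
        (differentiableAt_id.add_const _)
    have e : rowS = fun w => Complex.I * (Complex.tan (w - 3 * l) + Complex.tan (w + 3 * l)) :=
      funext rowS_tan
    rw [e]
    exact (d1.add d2).const_mul _
  bd b hb0 hb := by
    have hl := NUMF.l_pos
    have e : l = NUMF.l := rfl
    obtain ⟨C1, h10, h1⟩ := tan_bd (p := -b - 3 * l) (q := b - 3 * l) (by linarith) (by linarith)
      (by linarith)
    obtain ⟨C2, h20, h2⟩ := tan_bd (p := -b + 3 * l) (q := b + 3 * l) (by linarith) (by linarith)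
      (by linarith)
    refine ⟨C1 + C2, by positivity, fun w hw => ?_⟩
    obtain ⟨k1, k2⟩ := abs_le.1 hw
    have r1 : (w - 3 * l : ℂ).re = w.re - 3 * l := by simp
    have r2 : (w + 3 * l : ℂ).re = w.re + 3 * l := by simp
    rw [rowS_tan, norm_mul, Complex.norm_I, one_mul]
    exact (norm_add_le _ _).trans (add_le_add (h1 _ (by rw [r1]; linarith) (by rw [r1]; linarith))
      (h2 _ (by rw [r2]; linarith) (by rw [r2]; linarith)))

theorem fod_rowX : Fod rowX where
  odd := rowX_odd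
  dif w hw := by
    have hl := NUMF.l_pos
    have e : l = NUMF.l := rfl
    obtain ⟨h1, h2⟩ := abs_lt.1 hw
    have d := (tan_dif (cos_re_pos (w := w) (by linarith) (by linarith)))
    exact (d.const_mul (-2)).const_mul _
  bd b hb0 hb := by
    have hl := NUMF.l_pos
    have e : l = NUMF.l := rfl
    obtain ⟨C1, h10, h1⟩ := tan_bd (p := -b) (q := b) (by linarith) (by linarith) (by linarith)
    refine ⟨2 * C1, by positivity, fun w hw => ?_⟩
    obtain ⟨k1, k2⟩ := abs_le.1 hw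
    unfold rowX
    rw [norm_mul, Complex.norm_I, one_mul, norm_mul, norm_neg, Complex.norm_ofNat]
    have := h1 w k1 k2
    linarith

theorem Fod.comb {k k' : ℂ → ℂ} (h : Fod k) (h' : Fod k') (α γ : ℂ) :
    Fod fun w => α * k w + γ * k' w where
  odd w := by
    rw [h.odd, h'.odd]
    ring
  dif w hw := ((h.dif w hw).const_mul _).add ((h'.dif w hw).const_mul _)
  bd b hb0 hb := by
    obtain ⟨C1, h10, h1⟩ := h.bd b hb0 hb
    obtain ⟨C2, h20, h2⟩ := h'.bd b hb0 hb
    refine ⟨‖α‖ * C1 + ‖γ‖ * C2, by positivity, fun w hw => ?_⟩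
    refine (norm_add_le _ _).trans ?_
    rw [norm_mul, norm_mul]
    have a1 := h1 w hw
    have a2 := h2 w hw
    gcongr

/-- the product of the density of one row and the force of another one, on the curve -/
theorem row_pair {k : ℂ → ℂ} (hk : Fod k) (hη : Prf lo hi η η') {x y : ℂ}
    (hx : -lo - l < x.re ∧ x.re < l - hi) (hy : -lo - l < y.re ∧ y.re < l - hi) :
    Integrable (fun t => pc (ec η t - l - x) * k (ec η t - l - y) * cjc η' t) ∧
    Integrable (fun t : ℝ => pc (((l + (x.re + y.re) / 2 : ℝ) : ℂ) + t * Complex.I - l - x) *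
      k (((l + (x.re + y.re) / 2 : ℝ) : ℂ) + t * Complex.I - l - y)) ∧
    ∫ t, pc (ec η t - l - x) * k (ec η t - l - y) * cjc η' t =
      ∫ t : ℝ, pc (((l + (x.re + y.re) / 2 : ℝ) : ℂ) + t * Complex.I - l - x) *
        k (((l + (x.re + y.re) / 2 : ℝ) : ℂ) + t * Complex.I - l - y) := by
  have hl := NUMF.l_pos
  have el : l = NUMF.l := rfl
  have hlh := hη.lohi
  obtain ⟨x1, x2⟩ := hx
  obtain ⟨y1, y2⟩ := hy
  set c : ℝ := l + (x.re + y.re) / 2 with hc
  set p : ℝ := min (l - hi) c with hp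
  set q : ℝ := max (l - lo) c with hq
  have hp1 : p ≤ l - hi := min_le_left _ _
  have hp2 : p ≤ c := min_le_right _ _
  have hq1 : l - lo ≤ q := le_max_left _ _
  have hq2 : c ≤ q := le_max_right _ _
  have hpx : x.re < p := lt_min x2 (by rw [hc]; linarith)
  have hpy : y.re < p := lt_min y2 (by rw [hc]; linarith)
  have hqx : q - 2 * l < x.re := by
    have : q < x.re + 2 * l := max_lt (by linarith) (by rw [hc]; linarith)
    linarith
  have hqy : q - 2 * l < y.re := by
    have : q < y.re + 2 * l := max_lt (by linarith) (by rw [hc]; linarith)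
    linarith
  obtain ⟨C, hC0, hC⟩ := pc_dec hqx hpx (by linarith)
  have hb : max |p - l - y.re| |q - l - y.re| < l := by
    refine max_lt ?_ ?_ <;> rw [abs_lt] <;> constructor <;> linarith
  have hb0 : 0 ≤ max |p - l - y.re| |q - l - y.re| := (abs_nonneg _).trans (le_max_left _ _)
  obtain ⟨K, hK0, hK⟩ := hk.bd _ hb0 hb
  have hre : ∀ u : ℂ, (u - l - y).re = u.re - l - y.re := fun u => by simp
  have hyb : ∀ u : ℂ, p ≤ u.re → u.re ≤ q →
      |(u - l - y).re| ≤ max |p - l - y.re| |q - l - y.re| := by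
    intro u h3 h4
    rw [hre, abs_le]
    have k1 := le_max_left |p - l - y.re| |q - l - y.re|
    have k2 := le_max_right |p - l - y.re| |q - l - y.re|
    have k3 := neg_abs_le (p - l - y.re)
    have k4 := le_abs_self (q - l - y.re)
    constructor <;> linarith
  exact shift_ec (G := fun u => pc (u - l - x) * k (u - l - y)) (κ := 8 / 3) (C := C * K)
    (by norm_num) (by positivity) hη hp1 hq1 hp2 hq2
    (fun u h3 h4 => by
      have d1 := pc_an (x := x) (u := u) (by linarith) (by linarith)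
      have d2 : DifferentiableAt ℂ (fun u : ℂ => u - l - y) u :=
        ((differentiableAt_id).sub_const _).sub_const _
      exact d1.mul ((hk.dif (u - l - y) (lt_of_le_of_lt (hyb u h3 h4) hb)).comp u d2))
    (fun u h3 h4 => by
      rw [norm_mul]
      have a1 := hC u h3 h4
      have a2 := hK _ (hyb u h3 h4)
      calc ‖pc (u - l - x)‖ * ‖k (u - l - y)‖ ≤ (C * Real.exp (-(8 / 3) * |u.im|)) * K :=
            mul_le_mul a1 a2 (norm_nonneg _) (by positivity)
        _ = _ := by ring)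

/-- **the constant term vanishes pair by pair** -/
theorem pair_zero {k : ℂ → ℂ} (hk : Fod k) (hη : Prf lo hi η η') {x y : ℂ}
    (hx : -lo - l < x.re ∧ x.re < l - hi) (hy : -lo - l < y.re ∧ y.re < l - hi) :
    (∫ t, pc (ec η t - l - x) * k (ec η t - l - y) * cjc η' t) +
      ∫ t, pc (ec η t - l - y) * k (ec η t - l - x) * cjc η' t = 0 := by
  rw [(row_pair hk hη hx hy).2.2, (row_pair hk hη hy hx).2.2]
  have e : ∫ t : ℝ, pc (((l + (x.re + y.re) / 2 : ℝ) : ℂ) + t * Complex.I - l - x) *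
      k (((l + (x.re + y.re) / 2 : ℝ) : ℂ) + t * Complex.I - l - y) =
      ∫ t : ℝ, pc (((l + (x.re + y.re) / 2 : ℝ) : ℂ) + ((x.im + y.im - t : ℝ) : ℂ) * Complex.I -
        l - x) * k (((l + (x.re + y.re) / 2 : ℝ) : ℂ) + ((x.im + y.im - t : ℝ) : ℂ) * Complex.I -
        l - y) :=
    (integral_sub_left_eq_self (fun t : ℝ =>
      pc (((l + (x.re + y.re) / 2 : ℝ) : ℂ) + t * Complex.I - l - x) *
      k (((l + (x.re + y.re) / 2 : ℝ) : ℂ) + t * Complex.I - l - y)) volume (x.im + y.im)).symm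
  have e2 : ∀ t : ℝ, pc (((l + (x.re + y.re) / 2 : ℝ) : ℂ) +
        ((x.im + y.im - t : ℝ) : ℂ) * Complex.I - l - x) *
      k (((l + (x.re + y.re) / 2 : ℝ) : ℂ) + ((x.im + y.im - t : ℝ) : ℂ) * Complex.I - l - y) =
      -(pc (((l + (y.re + x.re) / 2 : ℝ) : ℂ) + t * Complex.I - l - y) *
        k (((l + (y.re + x.re) / 2 : ℝ) : ℂ) + t * Complex.I - l - x)) := by
    intro t
    have hx' : x = (x.re : ℂ) + x.im * Complex.I := (Complex.re_add_im x).symm
    have hy' : y = (y.re : ℂ) + y.im * Complex.I := (Complex.re_add_im y).symm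
    have k1 : ((l + (x.re + y.re) / 2 : ℝ) : ℂ) + ((x.im + y.im - t : ℝ) : ℂ) * Complex.I - l - x =
        -(((l + (y.re + x.re) / 2 : ℝ) : ℂ) + t * Complex.I - l - y) := by
      push_cast
      linear_combination (-1 : ℂ) * hx' - hy'
    have k2 : ((l + (x.re + y.re) / 2 : ℝ) : ℂ) + ((x.im + y.im - t : ℝ) : ℂ) * Complex.I - l - y =
        -(((l + (y.re + x.re) / 2 : ℝ) : ℂ) + t * Complex.I - l - x) := by
      push_cast
      linear_combination (-1 : ℂ) * hx' - hy'
    rw [k1, k2, pc_neg, hk.odd]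
    ring
  rw [e, integral_congr_ae (Eventually.of_forall e2), integral_neg, neg_add_cancel]

/-! ### density of the rows in the strip -/

section strip

variable {d : ℝ} {x : Fin m → ℂ}

lemma rho_an {p q : ℝ} (hx : ∀ i, q - 2 * l < (x i).re ∧ (x i).re < p) {u : ℂ} (h1 : p ≤ u.re)
    (h2 : u.re ≤ q) : DifferentiableAt ℂ (rhoR x) u := by
  unfold rhoR
  exact DifferentiableAt.fun_sum fun i _ => pc_an (by linarith [(hx i).1]) (by linarith [(hx i).2])

lemma rho_dec {p q : ℝ} (hpq : p ≤ q) (hx : ∀ i, q - 2 * l < (x i).re ∧ (x i).re < p) :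
    ∃ C : ℝ, 0 ≤ C ∧ ∀ u : ℂ, p ≤ u.re → u.re ≤ q →
      ‖rhoR x u‖ ≤ C * Real.exp (-(8 / 3) * |u.im|) := by
  choose C hC0 hC using fun i => pc_dec (p := p) (q := q) (x := x i) (hx i).1 (hx i).2 hpq
  refine ⟨∑ i, C i, Finset.sum_nonneg fun i _ => hC0 i, fun u h1 h2 => ?_⟩
  unfold rhoR
  refine (norm_sum_le _ _).trans ?_
  rw [Finset.sum_mul]
  exact Finset.sum_le_sum fun i _ => hC i u h1 h2

lemma RowT.pq (hx : RowT hi d x) (i : Fin m) :
    l + d - 2 * l < (x i).re ∧ (x i).re < l - hi := by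
  obtain ⟨h1, h2⟩ := hx i
  exact ⟨by linarith, h2⟩

lemma RowT.cur (hx : RowT hi d x) (hd : -d ≤ lo) (i : Fin m) :
    -lo - l < (x i).re ∧ (x i).re < l - hi := by
  obtain ⟨h1, h2⟩ := hx i
  exact ⟨by linarith, h2⟩

end strip

/-! ### the convective term -/

/-- head to the left of the line `Re u = l + d`; `f` : the point where the field is read -/
def HeadT (d : ℝ) (k : Ob) (w f cs cg : ℂ) : Prop := HeadC k (w - d) (f - d) cs cg

lemma HeadT.ob {d : ℝ} {k : Ob} {w f cs cg : ℂ} (h : HeadT d k w f cs cg) :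
    f = w ∨ f = w + 2 * l := by
  unfold HeadT at h
  generalize hw : w - (d : ℂ) = w' at h
  generalize hf : f - (d : ℂ) = f' at h
  have ew : w = w' + d := by rw [← hw]; ring
  have ef : f = f' + d := by rw [← hf]; ring
  cases h with
  | A a b => left; rw [ew, ef]
  | L a b => right; rw [ew, ef]; ring
  | T a b => right; rw [ew, ef]; ring
  | S a b => right; rw [ew, ef]; ring

/-- the error of the field against the kernel `K` over the line `Re u = l + d` -/
def jT (x : Fin m → ℂ) (i0 : Fin m) (ε : ℂ → ℂ) (d : ℝ) (K : ℂ → ℂ) : ℂ :=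
  ∫ s : ℝ, ε (l + d + s * Complex.I) * pc (l + d + s * Complex.I - l - x i0) *
    K (l + d + s * Complex.I)

/-- one kernel: the convective integral over the line -/
lemma conv_intT {d : ℝ} {K : ℝ → ℂ} {x : Fin m → ℂ} (i0 : Fin m) {ξ ε : ℂ → ℂ} (ξf : ℂ) {B : ℝ}
    (hK : ∀ i, Integrable fun s : ℝ => pc (x i - d - s * Complex.I) * K s)
    (hr : ∀ s : ℝ, rhoR x (l + d + s * Complex.I) * ξ (l + d + s * Complex.I) =
      pc (l + d + s * Complex.I - l - x i0) * (1 - ε (l + d + s * Complex.I)))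
    (hm : Measurable fun s : ℝ => ε (l + d + s * Complex.I))
    (hB : ∀ s : ℝ, ‖ε (l + d + s * Complex.I)‖ ≤ B) :
    Integrable (fun s : ℝ => rhoR x (l + d + s * Complex.I) *
      ((ξf - ξ (l + d + s * Complex.I)) * K s)) ∧
    ∫ s : ℝ, rhoR x (l + d + s * Complex.I) * ((ξf - ξ (l + d + s * Complex.I)) * K s) =
      ξf * (∑ i, ∫ s : ℝ, pc (x i - d - s * Complex.I) * K s) -
        (∫ s : ℝ, pc (x i0 - d - s * Complex.I) * K s) +
        ∫ s : ℝ, ε (l + d + s * Complex.I) * pc (l + d + s * Complex.I - l - x i0) * K s := by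
  have ev : ∀ (i : Fin m) (s : ℝ), pc (l + d + s * Complex.I - l - x i) =
      pc (x i - d - s * Complex.I) := fun i s => by
    rw [← pc_neg]
    congr 1
    ring
  have er : ∀ s : ℝ, rhoR x (l + d + s * Complex.I) = ∑ i, pc (x i - d - s * Complex.I) :=
    fun s => Finset.sum_congr rfl fun i _ => ev i s
  have e : ∀ s : ℝ, rhoR x (l + d + s * Complex.I) * ((ξf - ξ (l + d + s * Complex.I)) * K s) =
      ξf * (∑ i, pc (x i - d - s * Complex.I) * K s) - pc (x i0 - d - s * Complex.I) * K s +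
        ε (l + d + s * Complex.I) * (pc (x i0 - d - s * Complex.I) * K s) := by
    intro s
    have h1 := hr s
    rw [ev] at h1
    rw [← Finset.sum_mul, ← er]
    linear_combination (-K s) * h1
  have i1 : Integrable fun s : ℝ => ∑ i, pc (x i - d - s * Complex.I) * K s :=
    integrable_finsetSum _ fun i _ => hK i
  have i2 : Integrable fun s : ℝ => ε (l + d + s * Complex.I) *
      (pc (x i0 - d - s * Complex.I) * K s) :=
    (hK i0).bdd_mul (c := B) hm.aestronglyMeasurable (Eventually.of_forall hB)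
  simp_rw [e]
  have i3 := (i1.const_mul ξf).sub (hK i0)
  refine ⟨i3.add i2, ?_⟩
  have e3 := integral_add i3 i2
  simp only [Pi.sub_apply] at e3
  rw [e3, integral_sub (i1.const_mul ξf) (hK i0), integral_const_mul,
    integral_finsetSum _ fun i _ => hK i]
  congr 1
  refine integral_congr_ae (Eventually.of_forall fun s => ?_)
  simp only []
  rw [ev]
  ring

/-- **the convective term for every head to the left of the line `Re u = l + d`** -/
theorem conv_T (α γ : ℂ) (b : Bool) {k : Ob} {w f cs cg : ℂ} {hi d : ℝ} {x : Fin m → ℂ} (i0 : Fin m)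
    (h : HeadT d k w f cs cg) (hx : RowT hi d x) (hhi : 0 ≤ hi) (hd : 0 ≤ d)
    (h1 : ∀ i, w ≠ x i) (h2 : ∀ i, w + 2 * l ≠ x i) {ξ ε : ℂ → ℂ} {B : ℝ}
    (hf : rhoR x f * ξ f = pc (f - l - x i0) * (1 - ε f))
    (hr : ∀ s : ℝ, rhoR x (l + d + s * Complex.I) * ξ (l + d + s * Complex.I) =
      pc (l + d + s * Complex.I - l - x i0) * (1 - ε (l + d + s * Complex.I)))
    (hm : Measurable fun s : ℝ => ε (l + d + s * Complex.I))
    (hB : ∀ s : ℝ, ‖ε (l + d + s * Complex.I)‖ ≤ B) :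
    Integrable (fun s : ℝ => rhoR x (l + d + s * Complex.I) * ((ξ f - ξ (l + d + s * Complex.I)) *
      (Complex.I * lz (b, k) (b, .A) (w - (l + d + s * Complex.I))))) ∧
    Integrable (fun s : ℝ => rhoR x (l + d + s * Complex.I) * ((ξ f - ξ (l + d + s * Complex.I)) *
      (Complex.I * lz (b, k) (!b, .A) (w - (l + d + s * Complex.I))))) ∧
    ξ f * krA α γ k x w +
      (α * (∫ s : ℝ, rhoR x (l + d + s * Complex.I) * ((ξ f - ξ (l + d + s * Complex.I)) *
        (Complex.I * lz (b, k) (b, .A) (w - (l + d + s * Complex.I))))) +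
      γ * ∫ s : ℝ, rhoR x (l + d + s * Complex.I) * ((ξ f - ξ (l + d + s * Complex.I)) *
        (Complex.I * lz (b, k) (!b, .A) (w - (l + d + s * Complex.I))))) +
      r1A α γ k x i0 w =
    -((α * cs + γ * cg) * (pc (f - l - x i0) * ε f)) +
      (α * jT x i0 ε d (fun u => Complex.I * lz (b, k) (b, .A) (w - u)) +
      γ * jT x i0 ε d (fun u => Complex.I * lz (b, k) (!b, .A) (w - u))) := by
  have h' : HeadC k (w - d) (f - d) cs cg := h
  obtain ⟨o1, o2⟩ := h'.ok.off
  have hx' : ∀ i, |(x i - d).re| < l := fun i => by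
    obtain ⟨a1, a2⟩ := hx i
    have e : (x i - d : ℂ).re = (x i).re - d := by simp
    rw [e, abs_lt]
    constructor <;> linarith
  have hi' := fun i => int_mfO k o1 o2 (hx' i)
  obtain ⟨c1, d1⟩ := conv_intT (K := fun s : ℝ => kO keX k (w - d - l - s * Complex.I)) i0 (ξ f)
    (fun i => (hi' i).1) hr hm hB
  obtain ⟨c2, d2⟩ := conv_intT (K := fun s : ℝ => kO keY k (w - d - l - s * Complex.I)) i0 (ξ f)
    (fun i => (hi' i).2.1) hr hm hB
  have eK : ∀ᵐ s : ℝ, Complex.I * lz (b, k) (b, .A) (w - (l + d + s * Complex.I)) =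
        kO keX k (w - d - l - s * Complex.I) ∧
      Complex.I * lz (b, k) (!b, .A) (w - (l + d + s * Complex.I)) =
        kO keY k (w - d - l - s * Complex.I) := by
    filter_upwards [lz_ae b k (w - d)] with s hs
    have e : w - (l + d + s * Complex.I) = w - d - (l + s * Complex.I) := by ring
    rw [e]
    exact hs
  have e1 : (fun s : ℝ => rhoR x (l + d + s * Complex.I) * ((ξ f - ξ (l + d + s * Complex.I)) *
      (Complex.I * lz (b, k) (b, .A) (w - (l + d + s * Complex.I))))) =ᵐ[volume]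
      fun s : ℝ => rhoR x (l + d + s * Complex.I) * ((ξ f - ξ (l + d + s * Complex.I)) *
      kO keX k (w - d - l - s * Complex.I)) := by
    filter_upwards [eK] with s hs
    rw [hs.1]
  have e2 : (fun s : ℝ => rhoR x (l + d + s * Complex.I) * ((ξ f - ξ (l + d + s * Complex.I)) *
      (Complex.I * lz (b, k) (!b, .A) (w - (l + d + s * Complex.I))))) =ᵐ[volume]
      fun s : ℝ => rhoR x (l + d + s * Complex.I) * ((ξ f - ξ (l + d + s * Complex.I)) *
      kO keY k (w - d - l - s * Complex.I)) := by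
    filter_upwards [eK] with s hs
    rw [hs.2]
  have e3 : jT x i0 ε d (fun u => Complex.I * lz (b, k) (b, .A) (w - u)) =
      ∫ s : ℝ, ε (l + d + s * Complex.I) * pc (l + d + s * Complex.I - l - x i0) *
        kO keX k (w - d - l - s * Complex.I) := by
    unfold jT
    refine integral_congr_ae ?_
    filter_upwards [eK] with s hs
    rw [hs.1]
  have e4 : jT x i0 ε d (fun u => Complex.I * lz (b, k) (!b, .A) (w - u)) =
      ∫ s : ℝ, ε (l + d + s * Complex.I) * pc (l + d + s * Complex.I - l - x i0) *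
        kO keY k (w - d - l - s * Complex.I) := by
    unfold jT
    refine integral_congr_ae ?_
    filter_upwards [eK] with s hs
    rw [hs.2]
  refine ⟨c1.congr e1.symm, c2.congr e2.symm, ?_⟩
  rw [integral_congr_ae e1, integral_congr_ae e2, d1, d2, e3, e4]
  -- the mean forces
  have hS : ∀ i, kO rowS k (w - l - x i) + (∫ s : ℝ, pc (x i - d - s * Complex.I) *
      kO keX k (w - d - l - s * Complex.I)) = cs * pc (f - l - x i) := by
    intro i
    have a := mfS_head h' (hx' i) (fun e => h1 i (by linear_combination e))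
      (fun e => h2 i (by linear_combination e))
    unfold mfS at a
    rw [show w - (d : ℂ) - l - (x i - d) = w - l - x i by ring,
      show f - (d : ℂ) - l - (x i - d) = f - l - x i by ring] at a
    exact a
  have hG : ∀ i, kO rowX k (w - l - x i) + (∫ s : ℝ, pc (x i - d - s * Complex.I) *
      kO keY k (w - d - l - s * Complex.I)) = cg * pc (f - l - x i) := by
    intro i
    have a := mfG_head h' (hx' i) (fun e => h2 i (by linear_combination e))
    unfold mfG at a
    rw [show w - (d : ℂ) - l - (x i - d) = w - l - x i by ring,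
      show f - (d : ℂ) - l - (x i - d) = f - l - x i by ring] at a
    exact a
  have sS : ∑ i, kO rowS k (w - l - x i) + (∑ i, ∫ s : ℝ, pc (x i - d - s * Complex.I) *
      kO keX k (w - d - l - s * Complex.I)) = cs * rhoR x f := by
    unfold rhoR
    rw [← Finset.sum_add_distrib, Finset.mul_sum]
    exact Finset.sum_congr rfl fun i _ => hS i
  have sG : ∑ i, kO rowX k (w - l - x i) + (∑ i, ∫ s : ℝ, pc (x i - d - s * Complex.I) *
      kO keY k (w - d - l - s * Complex.I)) = cg * rhoR x f := by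
    unfold rhoR
    rw [← Finset.sum_add_distrib, Finset.mul_sum]
    exact Finset.sum_congr rfl fun i _ => hG i
  unfold krA r1A
  rw [Finset.sum_add_distrib, ← Finset.mul_sum, ← Finset.mul_sum]
  linear_combination (α * ξ f) * sS + (γ * ξ f) * sG - α * hS i0 - γ * hG i0 +
    (α * cs + γ * cg) * hf

/-! ### kinds -/

/-- the field of the kinds, read at `fp b w` -/
def xiF (ξ : ℂ → ℂ) (b : K4) (w : ℂ) : ℂ := ξ (fp b w)

/-- the field of the moved row and its error `ε`, on the strip of the sea -/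
structure FldT (x : Fin m → ℂ) (i0 : Fin m) (ξ ε : ℂ → ℂ) (hi d B : ℝ) : Prop where
  rel : ∀ u : ℂ, l - hi ≤ u.re → u.re ≤ l + d →
    rhoR x u * ξ u = pc (u - l - x i0) * (1 - ε u)
  dif : ∀ u : ℂ, l - hi ≤ u.re → u.re ≤ l + d → DifferentiableAt ℂ ε u
  bd : ∀ u : ℂ, l - hi ≤ u.re → u.re ≤ l + d → ‖ε u‖ ≤ B

/-- what is used of the kernel, on the domain `D` -/
structure KerT (ξ : ℂ → ℂ) (η : ℝ → ℝ) (hi d : ℝ) (D : K4 → Set ℂ) (dxi : K4 → ℂ → ℂ)
    (a : K4 → K4 → ℂ → ℂ → ℂ) : Prop where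
  eqL : ∀ (b : K4) (s : Bool) (z : ℂ), z ∈ D b → ∀ t : ℝ, z.im ≠ t →
    a b (s, none) z (l + d + t * Complex.I) = (ξ (fp b z) - ξ (l + d + t * Complex.I)) *
      (Complex.I * lz (co b) (s, .A) (z - (l + d + t * Complex.I)))
  symm : ∀ b c z z', z ∈ D b → z' ∈ D c → a b c z z' = a c b z' z
  diag : ∀ b z, z ∈ D b → a b b z z = 2 * dxi b z
  cur : ∀ s t, ec η t ∈ D (s, none)
  dif : ∀ (b : K4) (s : Bool) (z : ℂ), z ∈ D b → ∀ u : ℂ, l - hi ≤ u.re → u.re ≤ l + d →
    DifferentiableAt ℂ (a b (s, none) z) u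
  bd : ∃ C : ℝ, 0 ≤ C ∧ ∀ (b : K4) (s : Bool) (z : ℂ), z ∈ D b → ∀ u : ℂ,
    l - hi ≤ u.re → u.re ≤ l + d → ‖a b (s, none) z u‖ ≤ C
  meas : ∀ b c, Measurable fun p : ℂ × ℂ => a b c p.1 p.2

section fil

variable [Fil]

/-- density of the kinds over the curve: only the quanta have a sea -/
def rhT (x : Fin m → ℂ) (η η' : ℝ → ℝ) (b : K4) (s : ℝ) : ℂ :=
  (Fil.b b.1 : ℂ) * b.2.elim (rhoR x (ec η s) * cjc η' s) fun _ => 0

/-- the convective term: the error of the field at the head and on the sea -/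
def dfT (x : Fin m → ℂ) (i0 : Fin m) (ε : ℂ → ℂ) (d : ℝ) (cs cg : ℂ) (b : K4) (z : ℂ) : ℂ :=
  -(((Fil.b b.1 : ℂ) * cs + (Fil.b (!b.1) : ℂ) * cg) * (pc (fp b z - l - x i0) * ε (fp b z))) +
    ((Fil.b b.1 : ℂ) * jT x i0 ε d (fun u => Complex.I * lz (co b) (b.1, .A) (z - u)) +
    (Fil.b (!b.1) : ℂ) * jT x i0 ε d (fun u => Complex.I * lz (co b) (!b.1, .A) (z - u)))

lemma rhT_none (x : Fin m → ℂ) (s : Bool) (t : ℝ) :
    rhT x η η' (s, none) t = (Fil.b s : ℂ) * (rhoR x (ec η t) * cjc η' t) := rfl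

lemma rhT_some (x : Fin m → ℂ) (s : Bool) (k : O3) (t : ℝ) : rhT x η η' (s, some k) t = 0 := by
  show (Fil.b s : ℂ) * 0 = 0
  rw [mul_zero]

variable {x : Fin m → ℂ} {i0 : Fin m} {D : K4 → Set ℂ} {dxi : K4 → ℂ → ℂ}
    {a : K4 → K4 → ℂ → ℂ → ℂ} {ξ ε : ℂ → ℂ} {d B : ℝ}

lemma rhT_mem (H : KerT ξ η hi d D dxi a) (b : K4) (u : ℝ) (h : rhT x η η' b u ≠ 0) :
    ec η u ∈ D b := by
  obtain ⟨s, k⟩ := b
  cases k with
  | none => exact H.cur s u
  | some k => exact absurd (rhT_some x s k u) h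

lemma line_re' (d t : ℝ) : ((l : ℂ) + d + t * Complex.I).re = l + d := by simp

/-- the smeared kernel: the sea is moved to the line `Re u = l + d` -/
theorem smr_T (H : KerT ξ η hi d D dxi a) (hη : Prf lo hi η η') (hx : RowT hi d x) (hlo : -d ≤ lo)
    (hd : 0 ≤ d) (hhi : 0 ≤ hi) {b : K4} {z : ℂ} (hz : z ∈ D b) :
    (∀ c, Integrable fun u : ℝ => a b c z (ec η u) * rhT x η η' c u) ∧
    NX.smr (ec η) (rhT x η η') a b z =
      (Fil.b b.1 : ℂ) * (∫ s : ℝ, rhoR x (l + d + s * Complex.I) *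
        ((ξ (fp b z) - ξ (l + d + s * Complex.I)) *
          (Complex.I * lz (co b) (b.1, .A) (z - (l + d + s * Complex.I))))) +
      (Fil.b (!b.1) : ℂ) * ∫ s : ℝ, rhoR x (l + d + s * Complex.I) *
        ((ξ (fp b z) - ξ (l + d + s * Complex.I)) *
          (Complex.I * lz (co b) (!b.1, .A) (z - (l + d + s * Complex.I)))) := by
  obtain ⟨C, hC0, hC⟩ := H.bd
  obtain ⟨R, hR0, hR⟩ := rho_dec (p := l - hi) (q := l + d) (by linarith) fun i => hx.pq i
  have key : ∀ s : Bool,
      Integrable (fun t => a b (s, none) z (ec η t) * rhoR x (ec η t) * cjc η' t) ∧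
      ∫ t, a b (s, none) z (ec η t) * rhoR x (ec η t) * cjc η' t =
        ∫ t : ℝ, rhoR x (l + d + t * Complex.I) * ((ξ (fp b z) - ξ (l + d + t * Complex.I)) *
          (Complex.I * lz (co b) (s, .A) (z - (l + d + t * Complex.I)))) := by
    intro s
    have h := shift_ec (G := fun u => a b (s, none) z u * rhoR x u) (κ := 8 / 3) (C := C * R)
      (p := l - hi) (q := l + d) (c := l + d) (by norm_num) (by positivity) hη le_rfl
      (by linarith) (by linarith) le_rfl
      (fun u h3 h4 => (H.dif b s z hz u h3 h4).mul (rho_an (fun i => hx.pq i) h3 h4))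
      (fun u h3 h4 => by
        rw [norm_mul]
        have a1 := hC b s z hz u h3 h4
        have a2 := hR u h3 h4
        calc ‖a b (s, none) z u‖ * ‖rhoR x u‖ ≤ C * (R * Real.exp (-(8 / 3) * |u.im|)) :=
              mul_le_mul a1 a2 (norm_nonneg _) hC0
          _ = _ := by ring)
    refine ⟨h.1, h.2.2.trans ?_⟩
    refine integral_congr_ae ?_
    filter_upwards [ln_ne z.im] with t ht
    have e : (((l + d : ℝ) : ℂ) + t * Complex.I) = (l : ℂ) + d + t * Complex.I := by push_cast; ring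
    rw [e, H.eqL b s z hz t (Ne.symm ht)]
    ring
  have hs : ∀ s : Bool, (fun u : ℝ => a b (s, none) z (ec η u) * rhT x η η' (s, none) u) =
      fun u : ℝ => (Fil.b s : ℂ) * (a b (s, none) z (ec η u) * rhoR x (ec η u) * cjc η' u) := by
    intro s
    funext u
    rw [rhT_none]
    ring
  constructor
  · rintro ⟨s, k⟩
    cases k with
    | none =>
      rw [hs s]
      exact (key s).1.const_mul _
    | some k => simp [rhT_some]
  · unfold NX.smr
    rw [sum_K4 (f := fun c : K4 => ∫ u : ℝ, a b c z (ec η u) * rhT x η η' c u)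
      (fun s k => by simp [rhT_some]) b.1, hs b.1, hs (!b.1), integral_const_mul,
      integral_const_mul, (key b.1).2, (key (!b.1)).2]

lemma FldT.meas (F : FldT x i0 ξ ε hi d B) (hd : 0 ≤ d) (hhi : 0 ≤ hi) :
    Measurable fun s : ℝ => ε (l + d + s * Complex.I) := by
  have h1 : Continuous fun s : ℝ => ε (l + d + s * Complex.I) := by
    refine continuous_iff_continuousAt.2 fun s => ?_
    have h2 := (F.dif (l + d + s * Complex.I) (by rw [line_re']; linarith)
      (by rw [line_re'])).continuousAt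
    have h3 : ContinuousAt (fun s : ℝ => (l : ℂ) + d + s * Complex.I) s := by fun_prop
    exact ContinuousAt.comp (g := ε) h2 h3
  exact h1.measurable

lemma ec_strip (hη : Prf lo hi η η') (hlo : -d ≤ lo) (t : ℝ) :
    l - hi ≤ (ec η t).re ∧ (ec η t).re ≤ l + d := by
  rw [ec_re]
  have h1 := hη.ge t
  have h2 := hη.le t
  constructor <;> linarith

/-- **the convective term of the kinds** -/
theorem Cv_T (H : KerT ξ η hi d D dxi a) (F : FldT x i0 ξ ε hi d B) (hη : Prf lo hi η η')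
    (hx : RowT hi d x) (hlo : -d ≤ lo) (hd : 0 ≤ d) (hhi : 0 ≤ hi) {b : K4} {z cs cg : ℂ}
    (hz : z ∈ D b) (hh : HeadT d (ob4 b.2) z (fp b z) cs cg) (h1 : ∀ i, z ≠ x i)
    (h2 : ∀ i, z + 2 * l ≠ x i)
    (hf : rhoR x (fp b z) * ξ (fp b z) = pc (fp b z - l - x i0) * (1 - ε (fp b z))) :
    NX.Cv (ec η) (rhT x η η') (xiF ξ) (krK2 x) (r1K2 x i0) a b z = dfT x i0 ε d cs cg b z := by
  have hc := (conv_T (Fil.b b.1 : ℂ) (Fil.b (!b.1) : ℂ) b.1 i0 hh hx hhi hd h1 h2 hf
    (fun s => F.rel _ (by rw [line_re']; linarith) (by rw [line_re']))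
    (F.meas hd hhi) (B := B)
    (fun s => F.bd _ (by rw [line_re']; linarith) (by rw [line_re']))).2.2
  unfold NX.Cv
  rw [(smr_T H hη hx hlo hd hhi hz).2]
  exact hc

/-- a point of the sea is a head -/
lemma head_cur (hη : Prf lo hi η η') (hlo : -d < lo) (hhi : hi + d < l) (s : Bool) (t : ℝ) :
    HeadT d (ob4 ((s, none) : K4).2) (ec η t) (fp ((s, none) : K4) (ec η t))
      (-(2 * Real.pi * Complex.I)) 0 := by
  have e : (ec η t - d : ℂ).re = l - η t - d := by simp
  have h1 := hη.ge t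
  have h2 := hη.le t
  exact HeadC.A (w := ec η t - d) (by rw [e]; linarith) (by rw [e]; linarith)

/-- the convective term on the sea -/
theorem Cv_cur (H : KerT ξ η hi d D dxi a) (F : FldT x i0 ξ ε hi d B) (hη : Prf lo hi η η')
    (hx : RowT hi d x) (hlo : -d < lo) (hd : 0 ≤ d) (hhi : 0 ≤ hi) (hs : hi + d < l) (s : Bool)
    (t : ℝ) : NX.Cv (ec η) (rhT x η η') (xiF ξ) (krK2 x) (r1K2 x i0) a (s, none) (ec η t) =
      dfT x i0 ε d (-(2 * Real.pi * Complex.I)) 0 (s, none) (ec η t) := by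
  obtain ⟨a1, a2⟩ := ec_strip hη hlo.le t
  refine Cv_T H F hη hx hlo.le hd hhi (H.cur s t) (head_cur hη hlo hs s t) (fun i e => ?_)
    (fun i e => ?_) (F.rel _ a1 a2)
  · have := (hx i).2
    rw [← e] at this
    linarith
  · have h3 := (hx i).2
    rw [← e] at h3
    have h4 : (ec η t + 2 * l : ℂ).re = (ec η t).re + 2 * l := by simp
    have := NUMF.l_pos
    have e' : l = NUMF.l := rfl
    rw [h4] at h3
    linarith

/-! ### the means -/

/-- the row force on a quantum of species `σ` -/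
def kk (σ : Bool) (w : ℂ) : ℂ := (Fil.b σ : ℂ) * rowS w + (Fil.b (!σ) : ℂ) * rowX w

lemma fod_kk (σ : Bool) : Fod (kk σ) := fod_rowS.comb fod_rowX _ _

lemma krK2_kk (x : Fin m → ℂ) (σ : Bool) (w : ℂ) :
    krK2 x (σ, none) w = ∑ i, kk σ (w - l - x i) := rfl

lemma r1K2_kk (x : Fin m → ℂ) (i0 : Fin m) (σ : Bool) (w : ℂ) :
    r1K2 x i0 (σ, none) w = -kk σ (w - l - x i0) := rfl

/-- the error of the field against the row force on the sea -/
def epT (x : Fin m → ℂ) (i0 : Fin m) (ε : ℂ → ℂ) (η η' : ℝ → ℝ) (σ : Bool) : ℂ :=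
  ∫ t, ε (ec η t) * (pc (ec η t - l - x i0) * krK2 x (σ, none) (ec η t) * cjc η' t)

/-- **the constant error** -/
def kapT (x : Fin m → ℂ) (i0 : Fin m) (ε : ℂ → ℂ) (η η' : ℝ → ℝ) (d : ℝ) : ℂ :=
  -(1 / 2) * (∑ σ : Bool, (Fil.b σ : ℂ) * epT x i0 ε η η' σ +
    ∑ σ : Bool, ∫ s, rhT x η η' (σ, none) s *
      dfT x i0 ε d (-(2 * Real.pi * Complex.I)) 0 (σ, none) (ec η s))

/-- the constant of the identity -/
def C0T (x : Fin m → ℂ) (i0 : Fin m) (η η' : ℝ → ℝ) : ℂ :=
  ∑ b : K4, (∫ s, rhT x η η' b s * r1K2 x i0 b (ec η s))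

lemma ec_cont (hη : Prf lo hi η η') : Continuous (ec η) := by
  unfold ec
  exact continuous_const.add (continuous_const.mul hη.cpt)

lemma ep_cont (F : FldT x i0 ξ ε hi d B) (hη : Prf lo hi η η') (hlo : -d ≤ lo) :
    Continuous fun t => ε (ec η t) := by
  refine continuous_iff_continuousAt.2 fun t => ?_
  obtain ⟨a1, a2⟩ := ec_strip hη hlo t
  exact ContinuousAt.comp (g := ε) (F.dif _ a1 a2).continuousAt (ec_cont hη).continuousAt

/-- the row force against the moved row, on the sea -/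
lemma kr_int (hη : Prf lo hi η η') (hx : RowT hi d x) (hlo : -d ≤ lo) (i0 : Fin m) (σ : Bool) :
    Integrable (fun t => pc (ec η t - l - x i0) * krK2 x (σ, none) (ec η t) * cjc η' t) ∧
    ∫ t, pc (ec η t - l - x i0) * krK2 x (σ, none) (ec η t) * cjc η' t =
      ∑ i, ∫ t, pc (ec η t - l - x i0) * kk σ (ec η t - l - x i) * cjc η' t := by
  have hi' := fun i => (row_pair (fod_kk σ) hη (hx.cur hlo i0) (hx.cur hlo i)).1
  have e : (fun t => pc (ec η t - l - x i0) * krK2 x (σ, none) (ec η t) * cjc η' t) =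
      fun t => ∑ i, pc (ec η t - l - x i0) * kk σ (ec η t - l - x i) * cjc η' t := by
    funext t
    rw [krK2_kk, Finset.mul_sum, Finset.sum_mul]
  rw [e]
  exact ⟨integrable_finsetSum _ fun i _ => hi' i, integral_finsetSum _ fun i _ => hi' i⟩

/-- the force of the moved row against the density, on the sea -/
lemma r1_int (hη : Prf lo hi η η') (hx : RowT hi d x) (hlo : -d ≤ lo) (i0 : Fin m) (σ : Bool) :
    Integrable (fun t => rhoR x (ec η t) * r1K2 x i0 (σ, none) (ec η t) * cjc η' t) ∧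
    ∫ t, rhoR x (ec η t) * r1K2 x i0 (σ, none) (ec η t) * cjc η' t =
      -∑ i, ∫ t, pc (ec η t - l - x i) * kk σ (ec η t - l - x i0) * cjc η' t := by
  have hi' := fun i => (row_pair (fod_kk σ) hη (hx.cur hlo i) (hx.cur hlo i0)).1
  have e : (fun t => rhoR x (ec η t) * r1K2 x i0 (σ, none) (ec η t) * cjc η' t) =
      fun t => -∑ i, pc (ec η t - l - x i) * kk σ (ec η t - l - x i0) * cjc η' t := by
    funext t
    rw [r1K2_kk]
    unfold rhoR
    rw [Finset.sum_mul, Finset.sum_mul, ← Finset.sum_neg_distrib]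
    exact Finset.sum_congr rfl fun i _ => by ring
  rw [e]
  refine ⟨(integrable_finsetSum _ fun i _ => hi' i).neg, ?_⟩
  rw [integral_neg, integral_finsetSum _ fun i _ => hi' i]

/-- the mean of `ξ` times the row force -/
lemma mean_T (F : FldT x i0 ξ ε hi d B) (hη : Prf lo hi η η') (hx : RowT hi d x) (hlo : -d ≤ lo)
    (σ : Bool) :
    Integrable (fun s => rhT x η η' (σ, none) s *
      (xiF ξ (σ, none) (ec η s) * krK2 x (σ, none) (ec η s))) ∧
    ∫ s, rhT x η η' (σ, none) s * (xiF ξ (σ, none) (ec η s) * krK2 x (σ, none) (ec η s)) =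
      (Fil.b σ : ℂ) * ((∑ i, ∫ t, pc (ec η t - l - x i0) * kk σ (ec η t - l - x i) * cjc η' t) -
        epT x i0 ε η η' σ) := by
  obtain ⟨j1, j2⟩ := kr_int hη hx hlo i0 σ
  have j3 : Integrable fun t => ε (ec η t) *
      (pc (ec η t - l - x i0) * krK2 x (σ, none) (ec η t) * cjc η' t) :=
    j1.bdd_mul (c := B) (ep_cont F hη hlo).aestronglyMeasurable
      (Eventually.of_forall fun t => by
        obtain ⟨a1, a2⟩ := ec_strip hη hlo t
        exact F.bd _ a1 a2)
  have e : (fun s => rhT x η η' (σ, none) s *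
      (xiF ξ (σ, none) (ec η s) * krK2 x (σ, none) (ec η s))) =
      fun t => (Fil.b σ : ℂ) * (pc (ec η t - l - x i0) * krK2 x (σ, none) (ec η t) * cjc η' t -
        ε (ec η t) * (pc (ec η t - l - x i0) * krK2 x (σ, none) (ec η t) * cjc η' t)) := by
    funext t
    obtain ⟨a1, a2⟩ := ec_strip hη hlo t
    have h := F.rel _ a1 a2
    rw [rhT_none]
    show (Fil.b σ : ℂ) * (rhoR x (ec η t) * cjc η' t) * (ξ (ec η t) * _) = _
    linear_combination ((Fil.b σ : ℂ) * cjc η' t * krK2 x (σ, none) (ec η t)) * h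
  rw [e]
  refine ⟨(j1.sub j3).const_mul _, ?_⟩
  rw [integral_const_mul, integral_sub j1 j3, j2]
  rfl

lemma mean1_T (hη : Prf lo hi η η') (hx : RowT hi d x) (hlo : -d ≤ lo) (i0 : Fin m) (σ : Bool) :
    Integrable (fun s => rhT x η η' (σ, none) s * r1K2 x i0 (σ, none) (ec η s)) ∧
    ∫ s, rhT x η η' (σ, none) s * r1K2 x i0 (σ, none) (ec η s) =
      -((Fil.b σ : ℂ) * ∑ i, ∫ t, pc (ec η t - l - x i) * kk σ (ec η t - l - x i0) * cjc η' t) := by
  obtain ⟨j1, j2⟩ := r1_int hη hx hlo i0 σ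
  have e : (fun s => rhT x η η' (σ, none) s * r1K2 x i0 (σ, none) (ec η s)) =
      fun t => (Fil.b σ : ℂ) * (rhoR x (ec η t) * r1K2 x i0 (σ, none) (ec η t) * cjc η' t) := by
    funext t
    rw [rhT_none]
    ring
  rw [e]
  refine ⟨j1.const_mul _, ?_⟩
  rw [integral_const_mul, j2]
  ring

theorem hI1T (F : FldT x i0 ξ ε hi d B) (hη : Prf lo hi η η') (hx : RowT hi d x) (hlo : -d ≤ lo)
    (b : K4) : Integrable fun s => rhT x η η' b s * (xiF ξ b (ec η s) * krK2 x b (ec η s)) := by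
  obtain ⟨σ, k⟩ := b
  cases k with
  | some k => simp [rhT_some]
  | none => exact (mean_T F hη hx hlo σ).1

theorem hI1T' (hη : Prf lo hi η η') (hx : RowT hi d x) (hlo : -d ≤ lo) (i0 : Fin m) (b : K4) :
    Integrable fun s => rhT x η η' b s * r1K2 x i0 b (ec η s) := by
  obtain ⟨σ, k⟩ := b
  cases k with
  | some k => simp [rhT_some]
  | none => exact (mean1_T hη hx hlo i0 σ).1

/-- the density over the curve is integrable -/
lemma rhT_int (hη : Prf lo hi η η') (hx : RowT hi d x) (hlo : -d ≤ lo) (hd : 0 ≤ d) (hhi : 0 ≤ hi)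
    (b : K4) : Integrable (rhT x η η' b) := by
  obtain ⟨R, hR0, hR⟩ := rho_dec (p := l - hi) (q := l + d) (by linarith) fun i => hx.pq i
  obtain ⟨σ, k⟩ := b
  cases k with
  | some k =>
    have : rhT x η η' (σ, some k) = fun _ => 0 := funext fun t => rhT_some x σ k t
    rw [this]
    exact integrable_zero _ _ _
  | none =>
    have h := (shift_ec (G := rhoR x) (κ := 8 / 3) (C := R) (p := l - hi) (q := l + d) (c := l + d)
      (by norm_num) hR0 hη le_rfl (by linarith) (by linarith) le_rfl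
      (fun u h3 h4 => rho_an (fun i => hx.pq i) h3 h4) hR).1
    exact h.const_mul _

theorem hI2T (H : KerT ξ η hi d D dxi a) (hη : Prf lo hi η η') (hx : RowT hi d x) (hlo : -d ≤ lo)
    (hd : 0 ≤ d) (hhi : 0 ≤ hi) (b : K4) :
    Integrable fun s => rhT x η η' b s * NX.smr (ec η) (rhT x η η') a b (ec η s) := by
  obtain ⟨C, hC0, hC⟩ := H.bd
  obtain ⟨σ, k⟩ := b
  cases k with
  | some k => simp [rhT_some]
  | none =>
    have hρ := fun c => rhT_int hη hx hlo hd hhi c
    have hec := ec_cont hη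
    -- the smeared kernel on the sea: measurable and bounded
    have hm : AEStronglyMeasurable (fun s => NX.smr (ec η) (rhT x η η') a (σ, none) (ec η s))
        volume := by
      unfold NX.smr
      refine Finset.aestronglyMeasurable_fun_sum _ fun c _ => ?_
      have h1 : AEStronglyMeasurable (fun p : ℝ × ℝ => a (σ, none) c (ec η p.1) (ec η p.2) *
          rhT x η η' c p.2) (volume.prod volume) := by
        refine AEStronglyMeasurable.mul ?_ ((hρ c).1.comp_quasiMeasurePreserving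
          Measure.quasiMeasurePreserving_snd)
        have h2 : Measurable fun p : ℝ × ℝ => (ec η p.1, ec η p.2) :=
          (hec.measurable.comp measurable_fst).prodMk (hec.measurable.comp measurable_snd)
        exact ((H.meas (σ, none) c).comp h2).aestronglyMeasurable
      exact h1.integral_prod_right'
    have hb : ∀ s, ‖NX.smr (ec η) (rhT x η η') a (σ, none) (ec η s)‖ ≤
        ∑ c : K4, C * ∫ u, ‖rhT x η η' c u‖ := by
      intro s
      unfold NX.smr
      refine (norm_sum_le _ _).trans (Finset.sum_le_sum fun c _ => ?_)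
      rw [← integral_const_mul]
      refine norm_integral_le_of_norm_le ((hρ c).norm.const_mul C) (Eventually.of_forall fun u => ?_)
      rw [norm_mul]
      obtain ⟨s', k'⟩ := c
      cases k' with
      | none =>
        obtain ⟨a1, a2⟩ := ec_strip hη hlo u
        exact mul_le_mul_of_nonneg_right (hC _ s' _ (H.cur σ s) _ a1 a2) (norm_nonneg _)
      | some k' =>
        rw [rhT_some]
        simp
    exact (hρ (σ, none)).mul_bdd (c := ∑ c : K4, C * ∫ u, ‖rhT x η η' c u‖) hm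
      (Eventually.of_forall hb)

/-! ### the normal form -/

/-- the constant: means of `ξ` times row force against means of the moved row -/
theorem const_T (F : FldT x i0 ξ ε hi d B) (hη : Prf lo hi η η') (hx : RowT hi d x)
    (hlo : -d ≤ lo) :
    ∑ b, (∫ s, rhT x η η' b s * (xiF ξ b (ec η s) * krK2 x b (ec η s))) -
      ∑ b, (∫ s, rhT x η η' b s * r1K2 x i0 b (ec η s)) =
      -∑ σ : Bool, (Fil.b σ : ℂ) * epT x i0 ε η η' σ := by
  have key : ∀ σ : Bool, (∫ s, rhT x η η' (σ, none) s *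
      (xiF ξ (σ, none) (ec η s) * krK2 x (σ, none) (ec η s))) -
      (∫ s, rhT x η η' (σ, none) s * r1K2 x i0 (σ, none) (ec η s)) =
      -((Fil.b σ : ℂ) * epT x i0 ε η η' σ) := by
    intro σ
    rw [(mean_T F hη hx hlo σ).2, (mean1_T hη hx hlo i0 σ).2]
    have h0 : (∑ i, ∫ t, pc (ec η t - l - x i0) * kk σ (ec η t - l - x i) * cjc η' t) +
        ∑ i, ∫ t, pc (ec η t - l - x i) * kk σ (ec η t - l - x i0) * cjc η' t = 0 := by
      rw [← Finset.sum_add_distrib]
      exact Finset.sum_eq_zero fun i _ => pair_zero (fod_kk σ) hη (hx.cur hlo i0) (hx.cur hlo i)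
    linear_combination (Fil.b σ : ℂ) * h0
  have g1 : ∑ b : K4, (∫ s, rhT x η η' b s * (xiF ξ b (ec η s) * krK2 x b (ec η s))) =
      (∫ s, rhT x η η' (true, none) s *
        (xiF ξ (true, none) (ec η s) * krK2 x (true, none) (ec η s))) +
      ∫ s, rhT x η η' (false, none) s *
        (xiF ξ (false, none) (ec η s) * krK2 x (false, none) (ec η s)) :=
    sum_K4 (f := fun b : K4 => ∫ s, rhT x η η' b s * (xiF ξ b (ec η s) * krK2 x b (ec η s)))
      (fun s k => by simp [rhT_some]) true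
  have g2 : ∑ b : K4, (∫ s, rhT x η η' b s * r1K2 x i0 b (ec η s)) =
      (∫ s, rhT x η η' (true, none) s * r1K2 x i0 (true, none) (ec η s)) +
      ∫ s, rhT x η η' (false, none) s * r1K2 x i0 (false, none) (ec η s) :=
    sum_K4 (f := fun b : K4 => ∫ s, rhT x η η' b s * r1K2 x i0 b (ec η s))
      (fun s k => by simp [rhT_some]) true
  rw [g1, g2, Fintype.sum_bool]
  linear_combination key true + key false

/-- **the first Ward identity over a static curve, any field, pointwise, for all kinds** -/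
theorem normal_formT {ι : Type*} [Fintype ι] {r : ι → ι → Prop} (hr : Tourn r)
    (H : KerT ξ η hi d D dxi a) (F : FldT x i0 ξ ε hi d B) (hη : Prf lo hi η η')
    (hx : RowT hi d x) (hlo : -d < lo) (hd : 0 ≤ d) (hhi : 0 ≤ hi) (hs : hi + d < l)
    (sp : ι → K4) {z : ι → ℂ} (hz : ∀ i, z i ∈ D (sp i)) {cs cg : ι → ℂ}
    (hh : ∀ k, HeadT d (ob4 (sp k).2) (z k) (fp (sp k) (z k)) (cs k) (cg k))
    (h1 : ∀ k i, z k ≠ x i) (h2 : ∀ k i, z k + 2 * l ≠ x i)
    (hf : ∀ k, rhoR x (fp (sp k) (z k)) * ξ (fp (sp k) (z k)) =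
      pc (fp (sp k) (z k) - l - x i0) * (1 - ε (fp (sp k) (z k)))) (lam : ι → ℂ) :
    (∑ k, (r1K2 x i0 (sp k) (z k) + (dxi (sp k) (z k) + xiF ξ (sp k) (z k) *
      (krK2 x (sp k) (z k) + lam k)))) + ∑ p ∈ prs r, a (sp p.1) (sp p.2) (z p.1) (z p.2) =
    C0T x i0 η η' + NX.nuQ (ec η) sp (rhT x η η') a z + ∑ k, xiF ξ (sp k) (z k) * lam k +
      (∑ k, dfT x i0 ε d (cs k) (cg k) (sp k) (z k) + kapT x i0 ε η η' d) := by
  have he := rhT_mem (η' := η') (x := x) H
  have hsy : ∀ b c s t, NX.cD D a b c s t = NX.cD D a c b t s := by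
    intro b c s t
    unfold NX.cD
    by_cases h : s ∈ D b ∧ t ∈ D c
    · rw [if_pos h, if_pos h.symm, H.symm b c s t h.1 h.2]
    · rw [if_neg h, if_neg (fun h' => h h'.symm)]
  have cvD : ∀ b w, w ∈ D b → NX.Cv (ec η) (rhT x η η') (xiF ξ) (krK2 x) (r1K2 x i0) (NX.cD D a) b w =
      NX.Cv (ec η) (rhT x η η') (xiF ξ) (krK2 x) (r1K2 x i0) a b w := by
    intro b w hw
    unfold NX.Cv
    rw [NX.smr_cD he a hw]
  have key := normI1d hr (ec η) sp (ρ := rhT x η η') (ξ := xiF ξ) (dξ := dxi) (κr := krK2 x)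
    (r1 := r1K2 x i0) (lam := fun k _ => lam k) (a := NX.cD D a) hsy (hI1T F hη hx hlo.le)
    (hI1T' hη hx hlo.le i0)
    (fun b => by simp only [NX.mul_smr_cD he]; exact hI2T H hη hx hlo.le hd hhi b) z
  rw [NX.nuQ_cD he a hz, const_T F hη hx hlo.le] at key
  have p1 : ∑ p ∈ prs r, NX.cD D a (sp p.1) (sp p.2) (z p.1) (z p.2) =
      ∑ p ∈ prs r, a (sp p.1) (sp p.2) (z p.1) (z p.2) := by
    refine Finset.sum_congr rfl fun p _ => ?_
    unfold NX.cD
    rw [if_pos ⟨hz _, hz _⟩]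
  have p2 : ∑ k, NX.Cv (ec η) (rhT x η η') (xiF ξ) (krK2 x) (r1K2 x i0) (NX.cD D a) (sp k) (z k) =
      ∑ k, dfT x i0 ε d (cs k) (cg k) (sp k) (z k) := by
    refine Finset.sum_congr rfl fun k _ => ?_
    rw [cvD _ _ (hz k)]
    exact Cv_T H F hη hx hlo.le hd hhi (hz k) (hh k) (h1 k) (h2 k) (hf k)
  have p3 : ∑ k, (dxi (sp k) (z k) - (1 / 2) * NX.cD D a (sp k) (sp k) (z k) (z k)) = 0 := by
    refine Finset.sum_eq_zero fun k _ => ?_
    unfold NX.cD
    rw [if_pos ⟨hz k, hz k⟩, H.diag _ _ (hz k)]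
    ring
  have p4 : ∑ b : K4, (∫ s, rhT x η η' b s *
      NX.Cv (ec η) (rhT x η η') (xiF ξ) (krK2 x) (r1K2 x i0) (NX.cD D a) b (ec η s)) =
      ∑ σ : Bool, ∫ s, rhT x η η' (σ, none) s *
        dfT x i0 ε d (-(2 * Real.pi * Complex.I)) 0 (σ, none) (ec η s) := by
    rw [sum_K4 (f := fun b : K4 => ∫ s, rhT x η η' b s *
      NX.Cv (ec η) (rhT x η η') (xiF ξ) (krK2 x) (r1K2 x i0) (NX.cD D a) b (ec η s))
      (fun s k => by simp [rhT_some]) true, Fintype.sum_bool]
    have e : ∀ σ : Bool, ∫ s, rhT x η η' (σ, none) s *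
        NX.Cv (ec η) (rhT x η η') (xiF ξ) (krK2 x) (r1K2 x i0) (NX.cD D a) (σ, none) (ec η s) =
        ∫ s, rhT x η η' (σ, none) s *
        dfT x i0 ε d (-(2 * Real.pi * Complex.I)) 0 (σ, none) (ec η s) := by
      intro σ
      refine integral_congr_ae (Eventually.of_forall fun s => ?_)
      simp only []
      rw [cvD _ _ (H.cur σ s), Cv_cur H F hη hx hlo hd hhi hs σ s]
    rw [e, e]
    rfl
  have hc : ∑ b : K4, (∫ s, rhT x η η' b s * r1K2 x i0 b (ec η s)) = C0T x i0 η η' := rfl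
  rw [p1, p2, p3, p4, hc] at key
  rw [key]
  unfold kapT
  ring

/-! ### the exact field -/

lemma jT_zero (x : Fin m → ℂ) (i0 : Fin m) (d : ℝ) (K : ℂ → ℂ) :
    jT x i0 (fun _ => 0) d K = 0 := by
  unfold jT
  simp

lemma dfT_zero (x : Fin m → ℂ) (i0 : Fin m) (d : ℝ) (cs cg : ℂ) (b : K4) (z : ℂ) :
    dfT x i0 (fun _ => 0) d cs cg b z = 0 := by
  unfold dfT
  rw [jT_zero, jT_zero]
  ring

lemma kapT_zero (x : Fin m → ℂ) (i0 : Fin m) (η η' : ℝ → ℝ) (d : ℝ) :
    kapT x i0 (fun _ => 0) η η' d = 0 := by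
  unfold kapT epT
  simp only [dfT_zero, mul_zero, zero_mul, integral_zero, Finset.sum_const_zero, add_zero]

/-- **the exact field** `ρ ξ = pc (row i0)`: no error -/
theorem normal_formT0 {ι : Type*} [Fintype ι] {r : ι → ι → Prop} (hr : Tourn r)
    (H : KerT ξ η hi d D dxi a)
    (F : ∀ u : ℂ, l - hi ≤ u.re → u.re ≤ l + d → rhoR x u * ξ u = pc (u - l - x i0))
    (hη : Prf lo hi η η') (hx : RowT hi d x) (hlo : -d < lo) (hd : 0 ≤ d) (hhi : 0 ≤ hi)
    (hs : hi + d < l) (sp : ι → K4) {z : ι → ℂ} (hz : ∀ i, z i ∈ D (sp i)) {cs cg : ι → ℂ}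
    (hh : ∀ k, HeadT d (ob4 (sp k).2) (z k) (fp (sp k) (z k)) (cs k) (cg k))
    (h1 : ∀ k i, z k ≠ x i) (h2 : ∀ k i, z k + 2 * l ≠ x i)
    (hf : ∀ k, rhoR x (fp (sp k) (z k)) * ξ (fp (sp k) (z k)) = pc (fp (sp k) (z k) - l - x i0))
    (lam : ι → ℂ) :
    (∑ k, (r1K2 x i0 (sp k) (z k) + (dxi (sp k) (z k) + xiF ξ (sp k) (z k) *
      (krK2 x (sp k) (z k) + lam k)))) + ∑ p ∈ prs r, a (sp p.1) (sp p.2) (z p.1) (z p.2) =
    C0T x i0 η η' + NX.nuQ (ec η) sp (rhT x η η') a z + ∑ k, xiF ξ (sp k) (z k) * lam k := by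
  have F' : FldT x i0 ξ (fun _ => 0) hi d 0 :=
    ⟨fun u a1 a2 => by rw [F u a1 a2]; ring, fun u _ _ => differentiableAt_const _,
      fun u _ _ => by simp⟩
  have h := normal_formT hr H F' hη hx hlo hd hhi hs sp hz hh h1 h2
    (fun k => by rw [hf k]; ring) lam
  rw [h, kapT_zero, Finset.sum_eq_zero fun k _ => dfT_zero x i0 d (cs k) (cg k) (sp k) (z k)]
  ring

end fil

end PLT.NT

end
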