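import Pool.Agent.PLT.NrmT
import Pool.Agent.PLX.NrmN
import Pool.Agent.PB.SBC
import Pool.Agent.PB.SB3

/-!
# THETA, row T: the normaliser in every direction

* `nrmN_GV : nrmN N = GV N ^ 2`;
* `GV_lim`: `GV V ^ 2 / V ^ (5 / 24) → LT > 0`, `V → ∞` real;
* **`nrm_dir`**: `‖gas (Lam R)‖ ^ 2 / V ^ (5 / 24) → LT` uniformly over all lists of rows with `RC C V R`: the same
  constant in every direction;
* **`nrmG_dir`**: the same for `nrmG z X`.
-/

set_option autoImplicit false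

noncomputable section

open Complex Filter Topology Finset

namespace PLT.Nr

open DUA DRX
open Pool.Agent.PLX (nrmN BN bulkR bulkR_pos)
open Pool.Agent.NUBD (BD)

theorem bulkG_axis (N : ℕ) : bulkG (List.replicate N 0) = ((bulkR N : ℝ) : ℂ) := by
  unfold bulkG bulkR
  have h1 : PP (fun v w => ku (v - w) ^ 2) (List.replicate N 0) =
      PP (fun v w => ku (v - w)) (List.replicate N 0) ^ 2 := by
    rw [sq, PP_mul]
    exact PP_congr fun v _ w _ => sq _
  rw [h1, PP_replicate (ku 0) _ N (by simp), ku_zero, List.length_replicate]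
  push_cast
  ring

/-- **the normaliser of the axis is the square of the functional** -/
theorem nrmN_GV (N : ℕ) : nrmN N = GV N ^ 2 := by
  have h := BD_sq_gas (fun _ : Unit => (0 : ℂ)) (List.replicate N ()) (fun k _ => by
    simp
    positivity)
  have e : (List.replicate N ()).map (fun _ : Unit => vz (0 : ℂ)) = List.replicate N 0 := by
    rw [List.map_replicate]
    unfold vz
    simp
  rw [e, gas_axis, bulkG_axis, List.length_replicate] at h
  have h2 := congrArg norm h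
  rw [norm_mul, norm_mul, norm_pow, norm_pow, norm_pow, Complex.norm_real, Complex.norm_real,
    Real.norm_of_nonneg (bulkR_pos N).le, Real.norm_of_nonneg (zero_le_one.trans (GV_one (Nat.cast_nonneg N)))] at h2
  have h3 : ‖(2 : ℂ)‖ = 2 := by norm_num
  rw [h3] at h2
  unfold nrmN BN
  rw [h2, mul_div_cancel_left₀ _ (bulkR_pos N).ne']

/-- the limit at the even integers -/
theorem GV_even : ∃ L : ℝ, 0 < L ∧
    Tendsto (fun k : ℕ => GV ((2 * k : ℕ) : ℝ) ^ 2 / ((2 * k : ℕ) : ℝ) ^ (5 / 24 : ℝ)) atTop (𝓝 L) := by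
  obtain ⟨L, C, hL, -, h⟩ := SB.nrm_sharp SB.quot_main
  refine ⟨L / 2 ^ (5 / 24 : ℝ), by positivity, ?_⟩
  have h3 := (tendsto_rpow_neg_atTop (show (0 : ℝ) < 1 / 2 by norm_num)).comp
    (tendsto_natCast_atTop_atTop (R := ℝ))
  have h2 : Tendsto (fun k : ℕ => C * (k : ℝ) ^ (-(1 / 2) : ℝ)) atTop (𝓝 0) := by
    simpa using h3.const_mul C
  have h4 : Tendsto (fun k : ℕ => PBM.nrm k / (k : ℝ) ^ (5 / 24 : ℝ)) atTop (𝓝 L) := by
    have h5 : Tendsto (fun k : ℕ => PBM.nrm k / (k : ℝ) ^ (5 / 24 : ℝ) - L) atTop (𝓝 0) := by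
      refine squeeze_zero_norm' ?_ h2
      filter_upwards [eventually_ge_atTop 1] with k hk
      rw [Real.norm_eq_abs]
      exact h k hk
    simpa using h5.add_const L
  refine (h4.div_const (2 ^ (5 / 24 : ℝ))).congr fun k => ?_
  rw [← Pool.Agent.PLX.nrmN_two, nrmN_GV]
  have e : ((2 * k : ℕ) : ℝ) ^ (5 / 24 : ℝ) = 2 ^ (5 / 24 : ℝ) * (k : ℝ) ^ (5 / 24 : ℝ) := by
    push_cast
    exact Real.mul_rpow (by norm_num) (Nat.cast_nonneg k)
  rw [e, div_div, mul_comm ((k : ℝ) ^ (5 / 24 : ℝ))]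

/-- **the functional of the axis at real `V`** -/
theorem GV_lim : ∃ L : ℝ, 0 < L ∧ Tendsto (fun V : ℝ => GV V ^ 2 / V ^ (5 / 24 : ℝ)) atTop (𝓝 L) := by
  obtain ⟨L, hL, h⟩ := GV_even
  refine ⟨L, hL, ?_⟩
  -- the even integers around V
  have hf : Tendsto (fun V : ℝ => ⌊V / 2⌋₊) atTop atTop :=
    tendsto_nat_floor_atTop.comp (tendsto_id.atTop_div_const (by norm_num))
  have h1 := h.comp hf
  have h2 := h.comp ((tendsto_add_atTop_nat 1).comp hf)
  have hr1 : Tendsto (fun V : ℝ => (((2 * ⌊V / 2⌋₊ : ℕ) : ℝ) / V) ^ (5 / 24 : ℝ)) atTop (𝓝 1) := by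
    have h3 : Tendsto (fun V : ℝ => ((2 * ⌊V / 2⌋₊ : ℕ) : ℝ) / V) atTop (𝓝 1) := by
      have h4 := (tendsto_nat_floor_div_atTop (R := ℝ)).comp (tendsto_id.atTop_div_const (show (0 : ℝ) < 2 by norm_num))
      refine h4.congr' ?_
      filter_upwards [eventually_gt_atTop 0] with V hV
      simp only [Function.comp_apply, id_eq]
      push_cast
      field_simp
    have := h3.rpow_const (p := 5 / 24) (Or.inl one_ne_zero)
    simpa using this
  have hr2 : Tendsto (fun V : ℝ => (((2 * (⌊V / 2⌋₊ + 1) : ℕ) : ℝ) / V) ^ (5 / 24 : ℝ)) atTop (𝓝 1) := by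
    have h3 : Tendsto (fun V : ℝ => ((2 * (⌊V / 2⌋₊ + 1) : ℕ) : ℝ) / V) atTop (𝓝 (1 + 0)) := by
      have h4 := (tendsto_nat_floor_div_atTop (R := ℝ)).comp (tendsto_id.atTop_div_const (show (0 : ℝ) < 2 by norm_num))
      have h5 : Tendsto (fun V : ℝ => 2 * V⁻¹) atTop (𝓝 (2 * 0)) := tendsto_inv_atTop_zero.const_mul 2
      rw [mul_zero] at h5
      refine (h4.add h5).congr' ?_
      filter_upwards [eventually_gt_atTop 0] with V hV
      simp only [Function.comp_apply, id_eq]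
      push_cast
      field_simp
    rw [add_zero] at h3
    have := h3.rpow_const (p := 5 / 24) (Or.inl one_ne_zero)
    simpa using this
  have l1 := h1.mul hr1
  have l2 := h2.mul hr2
  rw [mul_one] at l1 l2
  refine tendsto_of_tendsto_of_tendsto_of_le_of_le' l1 l2 ?_ ?_
  · filter_upwards [eventually_ge_atTop 4] with V hV
    have hV0 : (0 : ℝ) < V := by linarith
    have hfl : (1 : ℝ) ≤ ⌊V / 2⌋₊ := by
      exact_mod_cast Nat.le_floor (show ((1 : ℕ) : ℝ) ≤ V / 2 by push_cast; linarith)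
    have hk : (0 : ℝ) < ((2 * ⌊V / 2⌋₊ : ℕ) : ℝ) := by push_cast; linarith
    have hle : ((2 * ⌊V / 2⌋₊ : ℕ) : ℝ) ≤ V := by
      push_cast
      have := Nat.floor_le (show 0 ≤ V / 2 by positivity)
      linarith
    simp only [Function.comp_apply]
    rw [Real.div_rpow hk.le hV0.le]
    have p1 : 0 < ((2 * ⌊V / 2⌋₊ : ℕ) : ℝ) ^ (5 / 24 : ℝ) := by positivity
    have p2 : 0 < V ^ (5 / 24 : ℝ) := by positivity
    rw [div_mul_div_cancel₀ p1.ne']
    refine div_le_div_of_nonneg_right ?_ p2.le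
    exact pow_le_pow_left₀ (zero_le_one.trans (GV_one hk.le)) (GV_mono hk.le hle) 2
  · filter_upwards [eventually_ge_atTop 4] with V hV
    have hV0 : (0 : ℝ) < V := by linarith
    have hk : (0 : ℝ) < ((2 * (⌊V / 2⌋₊ + 1) : ℕ) : ℝ) := by push_cast; positivity
    have hle : V ≤ ((2 * (⌊V / 2⌋₊ + 1) : ℕ) : ℝ) := by
      push_cast
      have := Nat.lt_floor_add_one (V / 2)
      linarith
    simp only [Function.comp_apply]
    rw [Real.div_rpow hk.le hV0.le]
    have p1 : 0 < ((2 * (⌊V / 2⌋₊ + 1) : ℕ) : ℝ) ^ (5 / 24 : ℝ) := by positivity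
    have p2 : 0 < V ^ (5 / 24 : ℝ) := by positivity
    rw [div_mul_div_cancel₀ p1.ne']
    refine div_le_div_of_nonneg_right ?_ p2.le
    exact pow_le_pow_left₀ (zero_le_one.trans (GV_one hV0.le)) (GV_mono hV0.le hle) 2

/-- ratio of the functional at two contents with bounded difference -/
theorem GV_ratio (η : ℝ) : Tendsto (fun V : ℝ => GV (V + η) / GV V) atTop (𝓝 1) := by
  obtain ⟨L, hL, h⟩ := GV_lim
  have hs : Tendsto (fun V : ℝ => V + η) atTop atTop := tendsto_atTop_add_const_right _ _ tendsto_id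
  have h1 := (h.comp hs).div h hL.ne'
  rw [div_self hL.ne'] at h1
  have hr : Tendsto (fun V : ℝ => ((V + η) / V) ^ (5 / 24 : ℝ)) atTop (𝓝 1) := by
    have h3 : Tendsto (fun V : ℝ => (V + η) / V) atTop (𝓝 (1 + η * 0)) := by
      refine ((tendsto_inv_atTop_zero (𝕜 := ℝ)).const_mul η |>.const_add 1).congr' ?_
      filter_upwards [eventually_gt_atTop 0] with V hV
      field_simp
    rw [mul_zero, add_zero] at h3
    have := h3.rpow_const (p := 5 / 24) (Or.inl one_ne_zero)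
    simpa using this
  have h2 := h1.mul hr
  rw [one_mul] at h2
  have h3 : Tendsto (fun V : ℝ => (GV (V + η) / GV V) ^ 2) atTop (𝓝 1) := by
    refine h2.congr' ?_
    filter_upwards [eventually_gt_atTop (max 0 (-η))] with V hV
    have hV0 : 0 < V := lt_of_le_of_lt (le_max_left _ _) hV
    have hV1 : 0 < V + η := by
      have := lt_of_le_of_lt (le_max_right 0 (-η)) hV
      linarith
    simp only [Function.comp_apply, Pi.div_apply]
    rw [Real.div_rpow hV1.le hV0.le, div_pow]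
    have p1 : 0 < (V + η) ^ (5 / 24 : ℝ) := by positivity
    have p2 : 0 < V ^ (5 / 24 : ℝ) := by positivity
    have p3 : 0 < GV V := lt_of_lt_of_le one_pos (GV_one hV0.le)
    field_simp
  have h4 := h3.sqrt
  rw [Real.sqrt_one] at h4
  refine h4.congr' ?_
  filter_upwards [eventually_gt_atTop (max 0 (-η))] with V hV
  have hV0 : 0 < V := lt_of_le_of_lt (le_max_left _ _) hV
  have hV1 : 0 < V + η := by
    have := lt_of_le_of_lt (le_max_right 0 (-η)) hV
    linarith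
  rw [Real.sqrt_sq (div_nonneg (zero_le_one.trans (GV_one hV1.le)) (zero_le_one.trans (GV_one hV0.le)))]

/-- the error of the bulk -/
theorem er_lim (η : ℝ) : Tendsto (fun V : ℝ => 4 * Real.exp (8 * (V + η) ^ (1 / 4 : ℝ) - Real.sqrt V / 84)) atTop (𝓝 0) := by
  have h0 : Tendsto (fun V : ℝ => 8 * (V + η) ^ (1 / 4 : ℝ) - Real.sqrt V / 84) atTop atBot := by
    have h1 : Tendsto (fun V : ℝ => V ^ (1 / 4 : ℝ)) atTop atTop := tendsto_rpow_atTop (by norm_num)
    -- x ^ (1/4) (16 - x ^ (1/4) / 84)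
    have h2 : Tendsto (fun V : ℝ => V ^ (1 / 4 : ℝ) * (V ^ (1 / 4 : ℝ) / 84 - 16)) atTop atTop := by
      refine h1.atTop_mul_atTop₀ ?_
      exact tendsto_atTop_add_const_right _ (-16) (h1.atTop_div_const (by norm_num))
    refine tendsto_atBot_mono' _ ?_ (tendsto_neg_atTop_atBot.comp h2)
    filter_upwards [eventually_ge_atTop (max 1 |η|)] with V hV
    have hV1 : 1 ≤ V := (le_max_left _ _).trans hV
    have hη : |η| ≤ V := (le_max_right _ _).trans hV
    have hV0 : (0 : ℝ) ≤ V := by linarith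
    have a1 := abs_le.1 hη
    have e1 : Real.sqrt V = V ^ (1 / 4 : ℝ) * V ^ (1 / 4 : ℝ) := by
      rw [← Real.rpow_add (by linarith), Real.sqrt_eq_rpow]
      norm_num
    have e2 : (V + η) ^ (1 / 4 : ℝ) ≤ 2 * V ^ (1 / 4 : ℝ) := by
      calc (V + η) ^ (1 / 4 : ℝ) ≤ (16 * V) ^ (1 / 4 : ℝ) :=
            Real.rpow_le_rpow (by linarith) (by linarith) (by norm_num)
        _ = 2 * V ^ (1 / 4 : ℝ) := by
            rw [Real.mul_rpow (by norm_num) hV0, show (16 : ℝ) = 2 ^ (4 : ℝ) by norm_num, ← Real.rpow_mul (by norm_num)]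
            norm_num
    simp only [Function.comp_apply]
    rw [e1]
    linarith
  have := (Real.tendsto_exp_atBot.comp h0).const_mul 4
  simpa using this

/-- **the normaliser in every direction** -/
theorem nrm_dir : ∃ L : ℝ, 0 < L ∧ Tendsto (fun N : ℕ => nrmN N / (N : ℝ) ^ (5 / 24 : ℝ)) atTop (𝓝 L) ∧
    ∀ C : ℝ, ∀ ε : ℝ, 0 < ε → ∃ V0 : ℝ, ∀ V : ℝ, V0 ≤ V → ∀ R : List ℂ, RC C V R →
      |‖gas (fun x => Lam R (x : ℂ))‖ ^ 2 / V ^ (5 / 24 : ℝ) - L| ≤ ε := by
  obtain ⟨L, hL, h⟩ := GV_lim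
  refine ⟨L, hL, ?_, fun C ε hε => ?_⟩
  · simp only [nrmN_GV]
    exact h.comp tendsto_natCast_atTop_atTop
  obtain ⟨η, V1, hη, hV1, hR⟩ := gas_RC (C := max C 1) (le_max_right _ _)
  -- x = gas / GV -> 1
  have hx : Tendsto (fun V : ℝ => GV (V + η) / GV V - 1 + 4 * Real.exp (8 * (V + η) ^ (1 / 4 : ℝ) - Real.sqrt V / 84))
      atTop (𝓝 0) := by
    have := ((GV_ratio η).sub_const 1).add (er_lim η)
    simpa using this
  have hy : Tendsto (fun V : ℝ => 3 * (L + 1) *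
      (GV (V + η) / GV V - 1 + 4 * Real.exp (8 * (V + η) ^ (1 / 4 : ℝ) - Real.sqrt V / 84)) +
      |GV V ^ 2 / V ^ (5 / 24 : ℝ) - L|) atTop (𝓝 0) := by
    have h2 : Tendsto (fun V : ℝ => |GV V ^ 2 / V ^ (5 / 24 : ℝ) - L|) atTop (𝓝 0) := by
      have := (h.sub_const L).abs
      simpa using this
    have := (hx.const_mul (3 * (L + 1))).add h2
    simpa using this
  have hev : ∀ᶠ V : ℝ in atTop, ∀ R : List ℂ, RC C V R →
      |‖gas (fun x => Lam R (x : ℂ))‖ ^ 2 / V ^ (5 / 24 : ℝ) - L| ≤ ε := by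
    filter_upwards [hy.eventually (gt_mem_nhds hε), hx.eventually (gt_mem_nhds (show (0 : ℝ) < 1 by norm_num)),
      h.eventually (gt_mem_nhds (show L < L + 1 by linarith)), eventually_ge_atTop V1] with V q1 q2 q3 q4 R hRC
    have hVp : (0 : ℝ) < V := by linarith
    have hRC' : RC (max C 1) V R := ⟨hRC.im, hRC.re, hRC.len.trans (mul_le_mul_of_nonneg_right (le_max_left _ _) hVp.le),
      hRC.p.trans (le_max_left _ _), hRC.m.trans (le_max_left _ _)⟩
    have h1 := hR V q4 R hRC'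
    have hG := GV_one hVp.le
    have hG0 : 0 < GV V := by linarith
    obtain ⟨g, hg⟩ : ∃ g, g = ‖gas (fun x : ℝ => Lam R (x : ℂ))‖ := ⟨_, rfl⟩
    obtain ⟨e, he⟩ : ∃ e, e = GV (V + η) / GV V - 1 +
        4 * Real.exp (8 * (V + η) ^ (1 / 4 : ℝ) - Real.sqrt V / 84) := ⟨_, rfl⟩
    rw [← he] at q1 q2
    have hge : |g - GV V| ≤ e * GV V := by
      have h2 : |g - GV V| ≤ ‖gas (fun x : ℝ => Lam R (x : ℂ)) - (GV V : ℂ)‖ := by
        have h3 := abs_norm_sub_norm_le (gas fun x : ℝ => Lam R (x : ℂ)) ((GV V : ℝ) : ℂ)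
        rw [Complex.norm_real, Real.norm_of_nonneg hG0.le, ← hg] at h3
        exact h3
      refine h2.trans (h1.trans ?_)
      rw [he, add_mul, sub_mul, div_mul_cancel₀ _ hG0.ne', one_mul]
      have h4 := Real.exp_pos (8 * (V + η) ^ (1 / 4 : ℝ) - Real.sqrt V / 84)
      nlinarith
    have he0 : 0 ≤ e := by
      have := (abs_nonneg _).trans hge
      exact nonneg_of_mul_nonneg_left this hG0
    rw [← hg]
    have p2 : 0 < V ^ (5 / 24 : ℝ) := by positivity
    have h5 : |g ^ 2 - GV V ^ 2| ≤ 3 * e * GV V ^ 2 := by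
      have e3 : g ^ 2 - GV V ^ 2 = (g - GV V) * ((g - GV V) + 2 * GV V) := by ring
      rw [e3, abs_mul]
      have h6 : |(g - GV V) + 2 * GV V| ≤ 3 * GV V := by
        refine (abs_add_le _ _).trans ?_
        rw [abs_of_pos (by linarith : 0 < 2 * GV V)]
        nlinarith
      calc |g - GV V| * |(g - GV V) + 2 * GV V| ≤ (e * GV V) * (3 * GV V) :=
            mul_le_mul hge h6 (abs_nonneg _) (mul_nonneg he0 hG0.le)
        _ = _ := by ring
    have h7 : |g ^ 2 / V ^ (5 / 24 : ℝ) - GV V ^ 2 / V ^ (5 / 24 : ℝ)| ≤ 3 * (L + 1) * e := by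
      rw [← sub_div, abs_div, abs_of_pos p2, div_le_iff₀ p2]
      refine h5.trans ?_
      have h8 : GV V ^ 2 ≤ (L + 1) * V ^ (5 / 24 : ℝ) := by
        rw [div_lt_iff₀ p2] at q3
        exact q3.le
      calc 3 * e * GV V ^ 2 ≤ 3 * e * ((L + 1) * V ^ (5 / 24 : ℝ)) :=
            mul_le_mul_of_nonneg_left h8 (by positivity)
        _ = _ := by ring
    calc |g ^ 2 / V ^ (5 / 24 : ℝ) - L| ≤ |g ^ 2 / V ^ (5 / 24 : ℝ) - GV V ^ 2 / V ^ (5 / 24 : ℝ)| +
          |GV V ^ 2 / V ^ (5 / 24 : ℝ) - L| := abs_sub_le _ _ _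
      _ ≤ ε := by linarith
  obtain ⟨V0, hV0⟩ := hev.exists_forall_of_atTop
  exact ⟨V0, hV0⟩

/-- **the normaliser of a list of rows in any direction** -/
theorem nrmG_dir : ∃ L : ℝ, 0 < L ∧ Tendsto (fun N : ℕ => nrmN N / (N : ℝ) ^ (5 / 24 : ℝ)) atTop (𝓝 L) ∧
    ∀ C : ℝ, ∀ ε : ℝ, 0 < ε → ∃ V0 : ℝ, ∀ V : ℝ, V0 ≤ V → ∀ {ι : Type} (z : ι → ℂ) (X : List ι),
      RC C V (X.map fun k => vz (z k)) → |nrmG z X / V ^ (5 / 24 : ℝ) - L| ≤ ε := by
  obtain ⟨L, hL, h1, h2⟩ := nrm_dir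
  refine ⟨L, hL, h1, fun C ε hε => ?_⟩
  obtain ⟨V0, hV0⟩ := h2 C ε hε
  refine ⟨V0, fun V hV ι z X hR => ?_⟩
  rw [nrmG_gas z X fun k hk => ?_]
  · exact hV0 V hV _ hR
  · have := hR.im _ (List.mem_map_of_mem (f := fun k => vz (z k)) hk)
    rw [vz_im, show -(8 / 3 : ℝ) * (z k).re = -(8 / 3 * (z k).re) by ring, abs_neg] at this
    linarith [Real.pi_pos]

end PLT.Nr

end
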