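import Pool.Agent.PLX.Num2
import Pool.Agent.PLT.NormT

/-!
# The constants of the first Ward identity, rows at places, sea on a static curve

Twin of `PLX/Num2` for rows `x : Fin m → ℂ` with different real parts and the sea over the curve
`ec η`.

* `Vk k val`, **`line_val`**, **`curve_val`** : the density of one row against the force of another
  one is a function of the difference of the rows, for differences `|Re| < 2 l`;
* **`C0T_eq`** : `C0T = - (1 + q ^ 2) gS + 2 q gX`;
* `C1T`, **`C1T_eq`** : the constant of the leg;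
* `hasDerivAt_FpT`, `LD_groupT`, `LD_PfT`, **`LD_PfqT`**, **`NumT`** : the derivative of the
  prefactor in the height of a row.
-/

set_option autoImplicit false
set_option linter.unusedSectionVars false

noncomputable section

open MeasureTheory Set Filter Topology Finset
open scoped Classical

namespace PLT.NT

open NUP1 NUP1S NUP1.Bd NURow PB PBI PBForce PBQ1 Pool.Agent.PB
open PLX (Fil)

/-! ### values of the pair integrals -/

/-- a row force with the value of its pair integral -/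
structure Vk (k val : ℂ → ℂ) : Prop where
  fod : Fod k
  ax : ∀ v : ℂ, |v.re| < l → ∫ s : ℝ, NUMF.Pc s * k (Complex.I * s - v) = val v
  an : ∀ v : ℂ, |v.re| < 2 * l → DifferentiableAt ℂ val v

/-- value of the own energy -/
def vS (v : ℂ) : ℂ := Complex.I * (lFp v - 2 * lrh v)

/-- value of the cross energy -/
def vX (v : ℂ) : ℂ := -(Complex.I * (2 * lrh v))

lemma flip_int {f : ℂ → ℂ} {c : ℂ}
    (h : Integrable fun s : ℝ => NUMF.Pc s * f (c - s * Complex.I)) :
    Integrable (fun s : ℝ => NUMF.Pc s * f (c + s * Complex.I)) ∧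
    ∫ s : ℝ, NUMF.Pc s * f (c + s * Complex.I) = ∫ s : ℝ, NUMF.Pc s * f (c - s * Complex.I) := by
  have e : ∀ s : ℝ, NUMF.Pc s * f (c + s * Complex.I) =
      (fun s : ℝ => NUMF.Pc s * f (c - s * Complex.I)) (-s) := by
    intro s
    simp only []
    rw [Pc_even]
    congr 2
    push_cast
    ring
  simp only [e]
  exact ⟨h.comp_neg, integral_neg_eq_self
    (fun s : ℝ => NUMF.Pc s * f (c - s * Complex.I)) volume⟩

lemma lrh_an {v : ℂ} (h : |v.re| < 5 * l) : DifferentiableAt ℂ lrh v := by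
  have hl := NUMF.l_pos
  have el : l = NUMF.l := rfl
  have ho : IsOpen {w : ℂ | |w.re| < 8 * l} :=
    isOpen_lt (continuous_abs.comp Complex.continuous_re) continuous_const
  have h8 : v ∈ {w : ℂ | |w.re| < 8 * l} := by
    show |v.re| < 8 * l
    linarith
  have hd : DifferentiableOn ℂ PBR.rh {w : ℂ | |w.re| < 8 * l} := fun w hw =>
    (PBR.differentiableAt_rh (w := w) hw).differentiableWithinAt
  have h1 : DifferentiableAt ℂ (deriv PBR.rh) v := (hd.deriv ho).differentiableAt (ho.mem_nhds h8)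
  have h2 : DifferentiableAt ℂ PBR.rh v := hd.differentiableAt (ho.mem_nhds h8)
  exact h1.div h2 (PBR.rh_ne_zero (w := v) h)

lemma lFp_an {v : ℂ} (h : |v.re| < 2 * l) : DifferentiableAt ℂ lFp v := by
  have hl := NUMF.l_pos
  have el : l = NUMF.l := rfl
  obtain ⟨h1, h2⟩ := abs_lt.1 h
  have r1 : (v + 2 * (NUMF.l : ℂ)).re = v.re + 2 * l := by simp [el]
  have r2 : (v + 3 * (NUMF.l : ℂ)).re = v.re + 3 * l := by simp [el]
  have r3 : (3 * (NUMF.l : ℂ) - v).re = 3 * l - v.re := by simp [el]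
  have r4 : (2 * (NUMF.l : ℂ) - v).re = 2 * l - v.re := by simp [el]
  have d1 : DifferentiableAt ℂ (fun v : ℂ => ct (v + 2 * NUMF.l)) v :=
    (differentiableAt_ct (z := v + 2 * NUMF.l) (by rw [r1]; linarith) (by rw [r1]; linarith)).comp v
      (differentiableAt_id.add_const _)
  have d2 : DifferentiableAt ℂ (fun v : ℂ => ct (v + 3 * NUMF.l)) v :=
    (differentiableAt_ct (z := v + 3 * NUMF.l) (by rw [r2]; linarith) (by rw [r2]; linarith)).comp v
      (differentiableAt_id.add_const _)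
  have d3 : DifferentiableAt ℂ (fun v : ℂ => ct (3 * NUMF.l - v)) v :=
    (differentiableAt_ct (z := 3 * NUMF.l - v) (by rw [r3]; linarith) (by rw [r3]; linarith)).comp v
      (differentiableAt_id.const_sub _)
  have d4 : DifferentiableAt ℂ (fun v : ℂ => ct (2 * NUMF.l - v)) v :=
    (differentiableAt_ct (z := 2 * NUMF.l - v) (by rw [r4]; linarith) (by rw [r4]; linarith)).comp v
      (differentiableAt_id.const_sub _)
  exact ((d1.add d2).sub d3).sub d4

lemma ax_S {v : ℂ} (h : |v.re| < l) :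
    ∫ s : ℝ, NUMF.Pc s * rowS (Complex.I * s - v) = vS v := by
  have hl := NUMF.l_pos
  have el : l = NUMF.l := rfl
  obtain ⟨h1, h2⟩ := abs_lt.1 h
  have rn : (-v).re = -v.re := by simp
  obtain ⟨p1, -, -⟩ := T_sum (w := -v) (by rw [rn]; linarith) (by rw [rn]; linarith)
  obtain ⟨q1, -, -⟩ := T_sum (w := v) (by linarith) (by linarith)
  obtain ⟨f1, f2⟩ := flip_int (f := ct) (c := -v + NUMF.l) p1
  have t1 := T1_eq (w := -v) (by rw [rn]; linarith) (by rw [rn]; linarith)
  have t2 := T1_eq (w := v) (by linarith) (by linarith)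
  unfold T1 at t1 t2
  rw [t1] at f2
  have e : ∀ s : ℝ, NUMF.Pc s * rowS (Complex.I * s - v) =
      -Complex.I * (NUMF.Pc s * ct (-v + NUMF.l + s * Complex.I)) +
        Complex.I * (NUMF.Pc s * ct (v + NUMF.l - s * Complex.I)) := by
    intro s
    rw [rowS_ctN]
    have e1 : (NUMF.l : ℂ) + (Complex.I * s - v) = -v + NUMF.l + s * Complex.I := by ring
    have e2 : (NUMF.l : ℂ) - (Complex.I * s - v) = v + NUMF.l - s * Complex.I := by ring
    rw [e1, e2]
    ring
  simp only [e]
  rw [integral_add (f1.const_mul _) (q1.const_mul _), integral_const_mul, integral_const_mul, f2, t2]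
  unfold vS
  rw [lFp_lLp, lrh_odd]
  ring

lemma ax_X {v : ℂ} (h : |v.re| < l) :
    ∫ s : ℝ, NUMF.Pc s * rowX (Complex.I * s - v) = vX v := by
  have hl := NUMF.l_pos
  have el : l = NUMF.l := rfl
  obtain ⟨h1, h2⟩ := abs_lt.1 h
  have rn : (-v).re = -v.re := by simp
  obtain ⟨-, p1, -⟩ := T_sum (w := -v) (by rw [rn]; linarith) (by rw [rn]; linarith)
  obtain ⟨f1, f2⟩ := flip_int (f := ct) (c := -v + 4 * NUMF.l) p1
  have t1 := T4_eq (w := -v) (by rw [rn]; linarith) (by rw [rn]; linarith)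
  unfold T4 at t1
  rw [t1] at f2
  have e : ∀ s : ℝ, NUMF.Pc s * rowX (Complex.I * s - v) =
      2 * Complex.I * (NUMF.Pc s * ct (-v + 4 * NUMF.l + s * Complex.I)) := by
    intro s
    rw [rowX_ctN]
    have e1 : 4 * (NUMF.l : ℂ) + (Complex.I * s - v) = -v + 4 * NUMF.l + s * Complex.I := by ring
    rw [e1]
    ring
  simp only [e]
  rw [integral_const_mul, f2]
  unfold vX
  rw [lrh_odd]
  ring

theorem vk_S : Vk rowS vS where
  fod := fod_rowS
  ax _ h := ax_S h
  an v h := by
    have hl := NUMF.l_pos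
    have el : l = NUMF.l := rfl
    exact ((lFp_an h).sub ((lrh_an (v := v) (by linarith)).const_mul 2)).const_mul _

theorem vk_X : Vk rowX vX where
  fod := fod_rowX
  ax _ h := ax_X h
  an v h := by
    have hl := NUMF.l_pos
    have el : l = NUMF.l := rfl
    exact (((lrh_an (v := v) (by linarith)).const_mul 2).const_mul _).neg

lemma bdd_ax {k : ℂ → ℂ} (hk : Fod k) {v : ℂ} (h : |v.re| < l) :
    Integrable fun s : ℝ => NUMF.Pc s * k (Complex.I * s - v) := by
  obtain ⟨C, hC0, hC⟩ := hk.bd _ (abs_nonneg v.re) h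
  have hre : ∀ s : ℝ, (Complex.I * s - v).re = -v.re := fun s => by simp
  have hc : Continuous fun s : ℝ => k (Complex.I * s - v) := by
    refine continuous_iff_continuousAt.2 fun s => ?_
    have h1 := (hk.dif (Complex.I * s - v) (by rw [hre, abs_neg]; exact h)).continuousAt
    have h3 : ContinuousAt (fun s : ℝ => Complex.I * s - v) s := by fun_prop
    exact ContinuousAt.comp (g := k) h1 h3
  exact int_Pc0.mul_bdd (c := C) hc.aestronglyMeasurable (Eventually.of_forall fun s =>
    hC _ (by rw [hre, abs_neg]))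

theorem Vk.comb {k k' val val' : ℂ → ℂ} (h : Vk k val) (h' : Vk k' val') (α γ : ℂ) :
    Vk (fun w => α * k w + γ * k' w) fun v => α * val v + γ * val' v where
  fod := h.fod.comb h'.fod α γ
  ax v hv := by
    rw [← h.ax v hv, ← h'.ax v hv, ← integral_const_mul, ← integral_const_mul,
      ← integral_add ((bdd_ax h.fod hv).const_mul _) ((bdd_ax h'.fod hv).const_mul _)]
    refine integral_congr_ae (Eventually.of_forall fun s => ?_)
    simp only []
    ring
  an v hv := ((h.an v hv).const_mul _).add ((h'.an v hv).const_mul _)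

/-- **the pair integral over a line between the rows** -/
theorem line_val {k val : ℂ → ℂ} (h : Vk k val) {c : ℝ} {x y : ℂ} (hx : |x.re - c| < l)
    (hy : |y.re - c| < l) :
    ∫ t : ℝ, pc (((l + c : ℝ) : ℂ) + t * Complex.I - l - x) *
      k (((l + c : ℝ) : ℂ) + t * Complex.I - l - y) = val (y - x) := by
  have hl := NUMF.l_pos
  have el : l = NUMF.l := rfl
  -- the kernel
  obtain ⟨C, hC0, hC⟩ := h.fod.bd _ (abs_nonneg (y.re - c)) hy
  have hre : ∀ s : ℝ, ((c : ℂ) + s * Complex.I - y).re = c - y.re := fun s => by simp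
  have hK : Continuous fun s : ℝ => k ((c : ℂ) + s * Complex.I - y) := by
    refine continuous_iff_continuousAt.2 fun s => ?_
    have h1 := (h.fod.dif ((c : ℂ) + s * Complex.I - y)
      (by rw [hre, abs_sub_comm]; exact hy)).continuousAt
    have h3 : ContinuousAt (fun s : ℝ => (c : ℂ) + s * Complex.I - y) s := by fun_prop
    exact ContinuousAt.comp (g := k) h1 h3
  have hKi : Integrable fun s : ℝ => (NUMF.P s : ℂ) * k ((c : ℂ) + s * Complex.I - y) := by
    have h1 : Integrable fun s : ℝ => (NUMF.P s : ℂ) := by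
      refine int_Pc0.congr (Eventually.of_forall fun s => ?_)
      exact NUMF.Pc_ofReal s
    exact h1.mul_bdd (c := C) hK.aestronglyMeasurable (Eventually.of_forall fun s =>
      hC _ (by rw [hre, abs_sub_comm]))
  have hB : ∀ w : ℂ, |w.re| < l → DifferentiableAt ℂ
      (fun w : ℂ => ∫ s : ℝ, pc (w - s * Complex.I) * k ((c : ℂ) + s * Complex.I - y)) w :=
    fun w hw => (conv_diff hKi hw).1
  have hR : ∀ w : ℂ, |w.re| < l → w ≠ x - c + 1 → DifferentiableAt ℂ
      (fun w : ℂ => val (y - (w + c))) w := by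
    intro w hw _
    have e : (y - (w + c)).re = (y.re - c) - w.re := by
      simp
      ring
    have h1 := h.an (y - (w + c)) (by
      rw [e]
      have := abs_sub (y.re - c) w.re
      linarith)
    exact h1.comp w ((differentiableAt_id.add_const _).const_sub _)
  have hax : ∀ t : ℝ, (fun w : ℂ => ∫ s : ℝ, pc (w - s * Complex.I) *
      k ((c : ℂ) + s * Complex.I - y)) (t * Complex.I) =
      (fun w : ℂ => val (y - (w + c))) (t * Complex.I) := by
    intro t
    simp only []
    have er : (y - ((t : ℂ) * Complex.I + c)).re = y.re - c := by simp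
    rw [← h.ax (y - (t * Complex.I + c)) (by rw [er]; exact hy)]
    rw [← integral_sub_right_eq_self (fun s : ℝ => NUMF.Pc s *
      k (Complex.I * s - (y - (t * Complex.I + c)))) t]
    refine integral_congr_ae (Eventually.of_forall fun s => ?_)
    simp only []
    congr 1
    · rw [← pc_neg, ← pc_Im (z := ((s - t : ℝ) : ℂ)) (by simp [hl])]
      congr 1
      push_cast
      ring
    · congr 1
      push_cast
      ring
  have key := ext_id (x0 := x - c + 1) hB hR hax (x - c) (by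
    have : (x - c : ℂ).re = x.re - c := by simp
    rw [this]
    exact hx) (fun h0 => by
      have h1 := congrArg Complex.re h0
      simp at h1)
  simp only [sub_add_cancel] at key
  rw [← key]
  refine integral_congr_ae (Eventually.of_forall fun s => ?_)
  simp only []
  congr 1
  · rw [← pc_neg]
    congr 1
    push_cast
    ring
  · congr 1
    push_cast
    ring

variable {η η' : ℝ → ℝ} {lo hi : ℝ}

/-- **the pair integral over the curve** -/
theorem curve_val {k val : ℂ → ℂ} (h : Vk k val) (hη : Prf lo hi η η') {x y : ℂ}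
    (hx : -lo - l < x.re ∧ x.re < l - hi) (hy : -lo - l < y.re ∧ y.re < l - hi) :
    ∫ t, pc (ec η t - l - x) * k (ec η t - l - y) * cjc η' t = val (y - x) := by
  have hlh := hη.lohi
  rw [(row_pair h.fod hη hx hy).2.2]
  have h1 : |x.re - y.re| < 2 * l := by
    rw [abs_lt]
    constructor <;> linarith [hx.1, hx.2, hy.1, hy.2]
  obtain ⟨h2, h3⟩ := abs_lt.1 h1
  exact line_val h (c := (x.re + y.re) / 2) (by rw [abs_lt]; constructor <;> linarith)
    (by rw [abs_lt]; constructor <;> linarith)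

section fil

variable [Fil] {m : ℕ} {x : Fin m → ℂ} {i0 : Fin m} {D : K4 → Set ℂ} {dxi : K4 → ℂ → ℂ}
    {a : K4 → K4 → ℂ → ℂ → ℂ} {ξ ε : ℂ → ℂ} {d B : ℝ}

/-! ### the constant of the rows -/

lemma vk_kk (σ : Bool) : Vk (kk σ) fun v => (Fil.b σ : ℂ) * vS v + (Fil.b (!σ) : ℂ) * vX v :=
  vk_S.comb vk_X _ _

/-- **the constant of the rows** -/
theorem C0T_eq (hη : Prf lo hi η η') (hx : RowT hi d x) (hlo : -d ≤ lo) (i0 : Fin m) :
    C0T x i0 η η' = -((1 + (Fil.q : ℂ) ^ 2) * gS x i0) + 2 * (Fil.q : ℂ) * gX x i0 := by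
  have g : C0T x i0 η η' =
      (∫ s, rhT x η η' (true, none) s * r1K2 x i0 (true, none) (ec η s)) +
      ∫ s, rhT x η η' (false, none) s * r1K2 x i0 (false, none) (ec η s) :=
    sum_K4 (f := fun b : K4 => ∫ s, rhT x η η' b s * r1K2 x i0 b (ec η s))
      (fun s k => by simp [rhT_some]) true
  have hv : ∀ σ : Bool, ∑ i, ∫ t, pc (ec η t - l - x i) * kk σ (ec η t - l - x i0) * cjc η' t =
      (Fil.b σ : ℂ) * gS x i0 - (Fil.b (!σ) : ℂ) * gX x i0 := by
    intro σ
    have h1 : ∀ i, ∫ t, pc (ec η t - l - x i) * kk σ (ec η t - l - x i0) * cjc η' t =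
        (Fil.b σ : ℂ) * vS (x i0 - x i) + (Fil.b (!σ) : ℂ) * vX (x i0 - x i) := fun i =>
      curve_val (vk_kk σ) hη (hx.cur hlo i) (hx.cur hlo i0)
    have h2 : ∑ i, vS (x i0 - x i) = gS x i0 := by
      unfold gS vS
      rw [Finset.mul_sum]
    have h3 : ∑ i, vX (x i0 - x i) = -gX x i0 := by
      unfold gX vX
      rw [Finset.sum_neg_distrib, Finset.mul_sum]
    simp only [h1, Finset.sum_add_distrib, ← Finset.mul_sum]
    rw [h2, h3]
    ring
  rw [g, (mean1_T hη hx hlo i0 true).2, (mean1_T hη hx hlo i0 false).2, hv, hv]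
  simp only [Bool.not_true, Bool.not_false, Fil.b_true, Fil.b_false]
  push_cast
  ring

/-! ### the constant of the leg -/

/-- the constant of the leg -/
def C1T (z : ℂ) (x : Fin m → ℂ) (ξ : ℂ → ℂ) (η η' : ℝ → ℝ) : ℂ :=
  ∑ b : K4, ∫ s, rhT x η η' b s * (xiF ξ b (ec η s) * lamK z b (ec η s))

/-- the error of the field against the leg -/
def E1T (z : ℂ) (x : Fin m → ℂ) (i0 : Fin m) (ε : ℂ → ℂ) (η η' : ℝ → ℝ) : ℂ :=
  ∫ t, ε (ec η t) * (pc (ec η t - l - x i0) * lamL z (ec η t) * cjc η' t)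

/-- the density of the moved row against the leg, over the curve -/
theorem leg_pair (hη : Prf lo hi η η') {z y : ℂ} (hy : -lo - l < y.re ∧ y.re < l - hi)
    (h0 : -l < (z - y).re) (h1 : (z - y).re < 4 * l) (h2 : -l - lo < z.re) (h3 : z.re < 4 * l - hi) :
    Integrable (fun t => pc (ec η t - l - y) * lamL z (ec η t) * cjc η' t) ∧
    ∫ t, pc (ec η t - l - y) * lamL z (ec η t) * cjc η' t = Complex.I * dTT (z - y) := by
  have hl := NUMF.l_pos
  have el : l = NUMF.l := rfl
  have hlh := hη.lohi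
  obtain ⟨y1, y2⟩ := hy
  have ezy : (z - y).re = z.re - y.re := by simp
  rw [ezy] at h0 h1
  set c : ℝ := l + y.re with hc
  set p : ℝ := min (l - hi) c with hp
  set q : ℝ := max (l - lo) c with hq
  have hp1 : p ≤ l - hi := min_le_left _ _
  have hp2 : p ≤ c := min_le_right _ _
  have hq1 : l - lo ≤ q := le_max_left _ _
  have hq2 : c ≤ q := le_max_right _ _
  have hpy : y.re < p := lt_min y2 (by rw [hc]; linarith)
  have hqy : q - 2 * l < y.re := by
    have : q < y.re + 2 * l := max_lt (by linarith) (by rw [hc]; linarith)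
    linarith
  have hqz : q < z.re + 2 * l := max_lt (by linarith) (by rw [hc]; linarith)
  have hpz : z.re + 2 * l < p + 5 * l := by
    have : z.re - 3 * l < p := lt_min (by linarith) (by rw [hc]; linarith)
    linarith
  obtain ⟨C, hC0, hC⟩ := pc_dec hqy hpy (by linarith)
  obtain ⟨K, hK0, hK⟩ := fSd_bound (a := z.re + 2 * l - q) (b := z.re + 2 * l - p) (by linarith)
    (by linarith)
  have hre : ∀ u : ℂ, (z + 2 * (NUMF.l : ℂ) - u).re = z.re + 2 * l - u.re := fun u => by simp [el]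
  have hm : ∀ u : ℂ, p ≤ u.re → u.re ≤ q → DifferentiableAt ℂ (lamL z) u := by
    intro u a1 a2
    have r1 : (z + 2 * (NUMF.l : ℂ) - u + 3 * (NUMF.l : ℂ)).re = z.re + 5 * l - u.re := by
      simp [el]
      ring
    have d1 : DifferentiableAt ℂ (fun u : ℂ => ct (z + 2 * NUMF.l - u)) u :=
      (differentiableAt_ct (z := z + 2 * NUMF.l - u) (by rw [hre]; linarith)
        (by rw [hre]; linarith)).comp u (differentiableAt_id.const_sub _)
    have d2 : DifferentiableAt ℂ (fun u : ℂ => ct (z + 2 * NUMF.l - u + 3 * NUMF.l)) u :=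
      (differentiableAt_ct (z := z + 2 * NUMF.l - u + 3 * NUMF.l) (by rw [r1]; linarith)
        (by rw [r1]; linarith)).comp u ((differentiableAt_id.const_sub _).add_const _)
    exact (d1.sub d2).const_mul _
  obtain ⟨i1, i2, i3⟩ := shift_ec (G := fun u => pc (u - l - y) * lamL z u) (κ := 8 / 3)
    (C := C * K) (p := p) (q := q) (c := c) (by norm_num) (by positivity) hη hp1 hq1 hp2 hq2
    (fun u a1 a2 => (pc_an (x := y) (u := u) (by linarith) (by linarith)).mul (hm u a1 a2))
    (fun u a1 a2 => by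
      rw [norm_mul]
      have b1 := hC u a1 a2
      have b2 : ‖lamL z u‖ ≤ K := by
        unfold lamL
        rw [norm_mul, Complex.norm_I, one_mul]
        exact hK _ (by rw [hre]; linarith) (by rw [hre]; linarith)
      calc ‖pc (u - l - y)‖ * ‖lamL z u‖ ≤ (C * Real.exp (-(8 / 3) * |u.im|)) * K :=
            mul_le_mul b1 b2 (norm_nonneg _) (by positivity)
        _ = _ := by ring)
  refine ⟨i1, i3.trans ?_⟩
  have e : ∀ t : ℝ, pc ((c : ℂ) + t * Complex.I - l - y) * lamL z ((c : ℂ) + t * Complex.I) =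
      (fun s : ℝ => Complex.I * (NUMF.Pc s * fSd (z - y + NUMF.l - s * Complex.I))) (t - y.im) := by
    intro t
    simp only []
    have hy' : y = (y.re : ℂ) + y.im * Complex.I := (Complex.re_add_im y).symm
    have e1 : (c : ℂ) + t * Complex.I - l - y = Complex.I * ((t - y.im : ℝ) : ℂ) := by
      rw [hc]
      push_cast
      linear_combination -hy'
    have e2 : z + 2 * (NUMF.l : ℂ) - ((c : ℂ) + t * Complex.I) =
        z - y + NUMF.l - ((t - y.im : ℝ) : ℂ) * Complex.I := by
      rw [hc, el]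
      push_cast
      linear_combination hy'
    unfold lamL
    rw [e1, pc_Im (by simp [hl]), e2]
    ring
  simp only [e]
  rw [integral_sub_right_eq_self
    (fun s : ℝ => Complex.I * (NUMF.Pc s * fSd (z - y + NUMF.l - s * Complex.I))) y.im,
    integral_const_mul]
  rfl

/-- **the constant of the leg** -/
theorem C1T_eq (F : FldT x i0 ξ ε hi d B) (hη : Prf lo hi η η') (hx : RowT hi d x) (hlo : -d ≤ lo)
    {z : ℂ} (h0 : -l < (z - x i0).re) (h1 : (z - x i0).re < 4 * l) (h2 : -l - lo < z.re)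
    (h3 : z.re < 4 * l - hi) :
    (∀ b : K4, Integrable fun s => rhT x η η' b s * (xiF ξ b (ec η s) * lamK z b (ec η s))) ∧
    C1T z x ξ η η' = (1 + (Fil.q : ℂ)) * (Complex.I * dTT (z - x i0) - E1T z x i0 ε η η') := by
  obtain ⟨j1, j2⟩ := leg_pair hη (hx.cur hlo i0) h0 h1 h2 h3
  have j3 : Integrable fun t => ε (ec η t) *
      (pc (ec η t - l - x i0) * lamL z (ec η t) * cjc η' t) :=
    j1.bdd_mul (c := B) (ep_cont F hη hlo).aestronglyMeasurable
      (Eventually.of_forall fun t => by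
        obtain ⟨a1, a2⟩ := ec_strip hη hlo t
        exact F.bd _ a1 a2)
  have e : ∀ σ : Bool, (fun s => rhT x η η' (σ, none) s *
      (xiF ξ (σ, none) (ec η s) * lamK z (σ, none) (ec η s))) =
      fun t => (Fil.b σ : ℂ) * (pc (ec η t - l - x i0) * lamL z (ec η t) * cjc η' t -
        ε (ec η t) * (pc (ec η t - l - x i0) * lamL z (ec η t) * cjc η' t)) := by
    intro σ
    funext t
    obtain ⟨a1, a2⟩ := ec_strip hη hlo t
    have h := F.rel _ a1 a2
    rw [rhT_none]
    show (Fil.b σ : ℂ) * (rhoR x (ec η t) * cjc η' t) * (ξ (ec η t) * lamL z (ec η t)) = _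
    linear_combination ((Fil.b σ : ℂ) * cjc η' t * lamL z (ec η t)) * h
  have v : ∀ σ : Bool, Integrable (fun s => rhT x η η' (σ, none) s *
      (xiF ξ (σ, none) (ec η s) * lamK z (σ, none) (ec η s))) ∧
      ∫ s, rhT x η η' (σ, none) s * (xiF ξ (σ, none) (ec η s) * lamK z (σ, none) (ec η s)) =
        (Fil.b σ : ℂ) * (Complex.I * dTT (z - x i0) - E1T z x i0 ε η η') := by
    intro σ
    rw [e σ]
    refine ⟨(j1.sub j3).const_mul _, ?_⟩
    rw [integral_const_mul, integral_sub j1 j3, j2]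
    rfl
  constructor
  · rintro ⟨σ, k⟩
    cases k with
    | none => exact (v σ).1
    | some k => simp [rhT_some]
  · have g : C1T z x ξ η η' =
        (∫ s, rhT x η η' (true, none) s *
          (xiF ξ (true, none) (ec η s) * lamK z (true, none) (ec η s))) +
        ∫ s, rhT x η η' (false, none) s *
          (xiF ξ (false, none) (ec η s) * lamK z (false, none) (ec η s)) :=
      sum_K4 (f := fun b : K4 => ∫ s, rhT x η η' b s * (xiF ξ b (ec η s) * lamK z b (ec η s)))
        (fun s k => by simp [rhT_some]) true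
    rw [g, (v true).2, (v false).2, Fil.b_true, Fil.b_false]
    push_cast
    ring

end fil

/-! ### the prefactor -/

variable {m : ℕ}

lemma hasDerivAt_FpT {v : ℂ} (h : |v.re| < 2 * l) : HasDerivAt Fp (Fp v * lFp v) v := by
  have hl := NUMF.l_pos
  have el : l = NUMF.l := rfl
  obtain ⟨h1, h2⟩ := abs_lt.1 h
  have r1 : (v + 2 * (NUMF.l : ℂ)).re = v.re + 2 * l := by simp [el]
  have r2 : (v + 3 * (NUMF.l : ℂ)).re = v.re + 3 * l := by simp [el]
  have r3 : (3 * (NUMF.l : ℂ) - v).re = 3 * l - v.re := by simp [el]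
  have r4 : (2 * (NUMF.l : ℂ) - v).re = 2 * l - v.re := by simp [el]
  have m2 : Complex.sin (v + 2 * NUMF.l) ≠ 0 :=
    sin_neS (by rw [r1]; linarith) (by rw [r1]; linarith)
  have m3 : Complex.sin (v + 3 * NUMF.l) ≠ 0 :=
    sin_neS (by rw [r2]; linarith) (by rw [r2]; linarith)
  have n2 : Complex.sin (3 * NUMF.l - v) ≠ 0 :=
    sin_neS (by rw [r3]; linarith) (by rw [r3]; linarith)
  have n3 : Complex.sin (2 * NUMF.l - v) ≠ 0 :=
    sin_neS (by rw [r4]; linarith) (by rw [r4]; linarith)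
  have p2 : HasDerivAt (fun v : ℂ => Complex.sin (v + 2 * NUMF.l)) (Complex.cos (v + 2 * NUMF.l)) v := by
    have := ((hasDerivAt_id v).add_const (2 * (NUMF.l : ℂ))).csin
    rwa [mul_one] at this
  have p3 : HasDerivAt (fun v : ℂ => Complex.sin (v + 3 * NUMF.l)) (Complex.cos (v + 3 * NUMF.l)) v := by
    have := ((hasDerivAt_id v).add_const (3 * (NUMF.l : ℂ))).csin
    rwa [mul_one] at this
  have q2 : HasDerivAt (fun v : ℂ => Complex.sin (3 * NUMF.l - v)) (-Complex.cos (3 * NUMF.l - v)) v := by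
    have := ((hasDerivAt_id v).const_sub (3 * (NUMF.l : ℂ))).csin
    rwa [mul_neg_one] at this
  have q3 : HasDerivAt (fun v : ℂ => Complex.sin (2 * NUMF.l - v)) (-Complex.cos (2 * NUMF.l - v)) v := by
    have := ((hasDerivAt_id v).const_sub (2 * (NUMF.l : ℂ))).csin
    rwa [mul_neg_one] at this
  refine ((p2.mul p3).mul (q2.mul q3)).congr_deriv ?_
  unfold lFp Fp ct
  show (Complex.cos (v + 2 * NUMF.l) * Complex.sin (v + 3 * NUMF.l) +
      Complex.sin (v + 2 * NUMF.l) * Complex.cos (v + 3 * NUMF.l)) *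
    (Complex.sin (3 * NUMF.l - v) * Complex.sin (2 * NUMF.l - v)) +
    Complex.sin (v + 2 * NUMF.l) * Complex.sin (v + 3 * NUMF.l) * _ =
    Complex.sin (v + 2 * NUMF.l) * Complex.sin (v + 3 * NUMF.l) *
      (Complex.sin (3 * NUMF.l - v) * Complex.sin (2 * NUMF.l - v)) * _
  clear p2 p3 q2 q3
  generalize Complex.cos (v + 2 * NUMF.l) = c2
  generalize Complex.cos (v + 3 * NUMF.l) = c3
  generalize Complex.sin (v + 2 * NUMF.l) = s2 at *
  generalize Complex.sin (v + 3 * NUMF.l) = s3 at *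
  generalize Complex.cos (3 * NUMF.l - v) = c4
  generalize Complex.cos (2 * NUMF.l - v) = c5
  generalize Complex.sin (3 * NUMF.l - v) = s4 at *
  generalize Complex.sin (2 * NUMF.l - v) = s5 at *
  field_simp
  ring

/-- the rows are less than `2 l` apart and `z` is regular -/
structure RowZ (z : ℂ) (x : Fin m → ℂ) : Prop where
  two : ∀ i j, |(x i - x j).re| < 2 * l
  lo : ∀ i, -l < (z - x i).re
  hi : ∀ i, (z - x i).re < 4 * l

/-- one group -/
lemma LD_groupT {y : ℝ → Fin m → ℂ} {t : ℝ} {z : ℂ} {u : Fin m → ℂ}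
    (hy : ∀ i, HasDerivAt (fun η => y η i) (u i) t) (hx : RowZ z (y t)) :
    LD (fun η => Nu z (y η) / D1 z (y η)) (eS z (y t) u) t ∧ D1 z (y t) ≠ 0 := by
  have hl := NUMF.l_pos
  have el : l = NUMF.l := rfl
  have hz5 : ∀ i, |(z - y t i).re| < 5 * l := fun i => by
    have := hx.lo i
    have := hx.hi i
    rw [abs_lt]
    constructor <;> linarith
  have h5 : ∀ i j, |(y t i - y t j).re| < 5 * l := fun i j => by
    have := hx.two i j
    linarith
  have nu : LD (fun η => Nu z (y η)) ((0 + -∑ i, u i * lLp (z - y t i)) +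
      ∑ a, u a * ∑ b, lFp (y t a - y t b)) t := by
    have a1 := LD.ones2 (F := fun v : ℂ => Complex.sin (v + 2 * NUMF.l) * Complex.sin (v + 3 * NUMF.l))
      (g := lLp) z hy fun i => hasDerivAt_Lpf (hx.lo i) (hx.hi i)
    have a2 := LD.pairs2 (F := Fp) (g := lFp) hy lFp_odd fun i j => hasDerivAt_FpT (hx.two i j)
    have a3 := ((LD.const ((Complex.sin (NUMF.l : ℂ)) ^ m) t).mul a1).mul a2
    have e : (fun η => Nu z (y η)) = fun η => (Complex.sin (NUMF.l : ℂ)) ^ m *
        (∏ i, (Complex.sin (z - y η i + 2 * NUMF.l) * Complex.sin (z - y η i + 3 * NUMF.l))) *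
        NUP1.Grand.P fun i j => Fp (y η i - y η j) := by
      funext η
      unfold Nu Pool.Agent.PB.Lp
      rw [Finset.prod_mul_distrib, Finset.prod_const, Finset.card_univ, Fintype.card_fin]
      rfl
    rw [e]
    exact a3
  have d1 : LD (fun η => D1 z (y η)) ((∑ a, u a * ∑ b, 2 * lrh (y t a - y t b)) +
      -∑ i, u i * (2 * lrh (z - y t i))) t := by
    have a1 := LD.ones2 (F := fun v => PBR.rh v ^ 2) (g := fun v => 2 * lrh v) z hy
      fun i => hasDerivAt_rh2 (hz5 i)
    have a2 := LD.pairs2 (F := fun v => PBR.rh v ^ 2) (g := fun v => 2 * lrh v) hy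
      (fun w => by rw [lrh_odd]; ring) fun i j => hasDerivAt_rh2 (h5 i j)
    exact a2.mul a1
  have nD1 : D1 z (y t) ≠ 0 := by
    unfold D1 NUP1.Grand.P
    refine mul_ne_zero (Finset.prod_ne_zero_iff.2 fun a _ => Finset.prod_ne_zero_iff.2
      fun b _ => ?_) (Finset.prod_ne_zero_iff.2 fun a _ => pow_ne_zero _
        (PBR.rh_ne_zero (hz5 a)))
    split_ifs
    · exact pow_ne_zero _ (PBR.rh_ne_zero (h5 a b))
    · exact one_ne_zero
  refine ⟨?_, nD1⟩
  have key := nu.div d1 nD1
  have ez : ∀ i, dTT (z - y t i) = lLp (z - y t i) - 2 * lrh (z - y t i) := fun i => by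
    rw [dTT_eq (hx.lo i) (hx.hi i)]
    rfl
  have e : (0 + -∑ i, u i * lLp (z - y t i)) + (∑ a, u a * ∑ b, lFp (y t a - y t b)) -
      ((∑ a, u a * ∑ b, 2 * lrh (y t a - y t b)) + -∑ i, u i * (2 * lrh (z - y t i))) =
      eS z (y t) u := by
    unfold eS
    simp only [ez, Finset.sum_sub_distrib, mul_sub]
    ring
  rw [e] at key
  exact key

/-- **the derivative of the prefactor**, arbitrary lists and velocities -/
theorem LD_PfT {M : ℕ} {x : ℝ → Fin m → ℂ} {y : ℝ → Fin M → ℂ} {t : ℝ} {z : ℂ} {u : Fin m → ℂ}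
    {v : Fin M → ℂ} (hx : ∀ i, HasDerivAt (fun η => x η i) (u i) t)
    (hy : ∀ j, HasDerivAt (fun η => y η j) (v j) t) (rx : RowZ z (x t)) (ry : RowZ z (y t))
    (rxy : ∀ i j, |(x t i - y t j).re| < 5 * l) :
    LD (fun η => Pf z (x η) (y η)) (eS z (x t) u + eS z (y t) v - eX (x t) u (y t) v) t := by
  obtain ⟨a1, -⟩ := LD_groupT hx rx
  obtain ⟨b1, -⟩ := LD_groupT hy ry
  have d2 : LD (fun η => D2 (x η) (y η)) (eX (x t) u (y t) v) t :=
    LD.cross2 (F := fun v => PBR.rh v ^ 2) (g := fun v => 2 * lrh v) hx hy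
      fun i j => hasDerivAt_rh2 (rxy i j)
  have nD2 : D2 (x t) (y t) ≠ 0 := by
    unfold D2
    exact Finset.prod_ne_zero_iff.2 fun a _ => Finset.prod_ne_zero_iff.2 fun b _ =>
      pow_ne_zero _ (PBR.rh_ne_zero (rxy a b))
  have key := (((LD.const ((3 / 2 : ℂ) ^ (m + M + 1) * Complex.sin (NUMF.l : ℂ) / PBR.rh 0) t).mul
    a1).mul b1).div d2 nD2
  have e : (fun η => Pf z (x η) (y η)) = fun η =>
      (3 / 2 : ℂ) ^ (m + M + 1) * Complex.sin (NUMF.l : ℂ) / PBR.rh 0 * (Nu z (x η) / D1 z (x η)) *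
        (Nu z (y η) / D1 z (y η)) / D2 (x η) (y η) := by
    funext η
    change (3 / 2 : ℂ) ^ (m + M + 1) * Complex.sin (NUMF.l : ℂ) * (Nu z (x η) * Nu z (y η)) /
      (D1 z (x η) * D1 z (y η) * D2 (x η) (y η) * PBR.rh 0) = _
    simp only [div_eq_mul_inv, mul_inv]
    ring
  rw [e]
  have e2 : 0 + eS z (x t) u + eS z (y t) v - eX (x t) u (y t) v =
      eS z (x t) u + eS z (y t) v - eX (x t) u (y t) v := by ring
  rw [← e2]
  exact key

section fil2

variable [Fil]

open Pool.Agent.PLX (yq)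

/-- **the derivative of the prefactor in the height of a row**, both groups -/
theorem LD_PfqT {y : ℝ → Fin m → ℂ} {t : ℝ} {z : ℂ} (i0 : Fin m)
    (hy : ∀ i, HasDerivAt (fun η => y η i) (vv i0 i) t) (hx : RowZ z (y t)) :
    LD (fun η => Pf z (y η) (yq (y η)))
      ((1 + (Fil.q : ℂ) ^ 2) * gS (y t) i0 - 2 * (Fil.q : ℂ) * gX (y t) i0 -
        (1 + (Fil.q : ℂ)) * (Complex.I * dTT (z - y t i0))) t := by
  have hl := NUMF.l_pos
  have el : l = NUMF.l := rfl
  have h := LD_PfT (x := y) (y := fun η => yq (y η)) (u := vv i0) (v := yq (vv i0)) (z := z) hy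
    (fun j => hy _) hx ⟨fun i j => hx.two _ _, fun j => hx.lo _, fun j => hx.hi _⟩
    (fun i j => by
      have h1 : |(y t i - yq (y t) j).re| < 2 * l := hx.two _ _
      linarith)
  rw [eS_vv, eS_yq, eX_yq] at h
  have e : gS (y t) i0 - Complex.I * dTT (z - y t i0) +
      (Fil.q : ℂ) * ((Fil.q : ℂ) * gS (y t) i0 - Complex.I * dTT (z - y t i0)) -
      (Fil.q : ℂ) * (2 * gX (y t) i0) =
      (1 + (Fil.q : ℂ) ^ 2) * gS (y t) i0 - 2 * (Fil.q : ℂ) * gX (y t) i0 -
        (1 + (Fil.q : ℂ)) * (Complex.I * dTT (z - y t i0)) := by ring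
  rw [e] at h
  exact h

/-- **(Num), rows at places**: the derivative of the prefactor in the height of a row -/
theorem NumT {x : Fin m → ℂ} {i0 : Fin m} {ξ ε : ℂ → ℂ} {d B lo hi : ℝ} {η η' : ℝ → ℝ}
    {y : ℝ → Fin m → ℂ} {t : ℝ} {z : ℂ} (hyx : y t = x)
    (hy : ∀ i, HasDerivAt (fun η => y η i) (vv i0 i) t) (F : FldT x i0 ξ ε hi d B)
    (hη : Prf lo hi η η') (hx : RowT hi d x) (hlo : -d ≤ lo) (hz : RowZ z x)
    (h2 : -l - lo < z.re) (h3 : z.re < 4 * l - hi) :
    HasDerivAt (fun η => Pf z (y η) (yq (y η)))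
      (-(Pf z x (yq x) * (C0T x i0 η η' + C1T z x ξ η η' +
        (1 + (Fil.q : ℂ)) * E1T z x i0 ε η η'))) t := by
  have h := LD_PfqT (z := z) i0 hy (by rw [hyx]; exact hz)
  rw [hyx] at h
  unfold LD at h
  refine h.congr_deriv ?_
  simp only []
  rw [hyx, C0T_eq hη hx hlo i0, (C1T_eq F hη hx hlo (hz.lo i0) (hz.hi i0) h2 h3).2]
  ring

/-- the exact field -/
theorem NumT0 {x : Fin m → ℂ} {i0 : Fin m} {ξ : ℂ → ℂ} {d lo hi : ℝ} {η η' : ℝ → ℝ}
    {y : ℝ → Fin m → ℂ} {t : ℝ} {z : ℂ} (hyx : y t = x)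
    (hy : ∀ i, HasDerivAt (fun η => y η i) (vv i0 i) t)
    (F : ∀ u : ℂ, l - hi ≤ u.re → u.re ≤ l + d → rhoR x u * ξ u = pc (u - l - x i0))
    (hη : Prf lo hi η η') (hx : RowT hi d x) (hlo : -d ≤ lo) (hz : RowZ z x)
    (h2 : -l - lo < z.re) (h3 : z.re < 4 * l - hi) :
    HasDerivAt (fun η => Pf z (y η) (yq (y η)))
      (-(Pf z x (yq x) * (C0T x i0 η η' + C1T z x ξ η η'))) t := by
  have F' : FldT x i0 ξ (fun _ => 0) hi d 0 :=
    ⟨fun u a1 a2 => by rw [F u a1 a2]; ring, fun u _ _ => differentiableAt_const _,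
      fun u _ _ => by simp⟩
  have h := NumT (η := η) (η' := η') hyx hy F' hη hx hlo hz h2 h3
  have e : E1T z x i0 (fun _ => 0) η η' = 0 := by
    unfold E1T
    simp
  rw [e, mul_zero, add_zero] at h
  exact h

end fil2

end PLT.NT

end
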