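import Pool.Agent.PLT.FDefC
import Pool.Agent.PHK.Ob1Fac

/-!
# Sea on a curve: spectators as factors of the one body factors of the quanta

`qAC_mul`, `qAC_mul_fun` (objects: `PHK/Ob1Fac`).
-/

set_option autoImplicit false

noncomputable section

open Finset

namespace PLT

open NUO NUP1 NUGC NUGC.PLX PHK

/-- the quanta on the curve -/
theorem qAC_mul (B : OB) (h : Bool → ℂ → ℝ) (P : Par6) (D : Bool → ℝ → ℂ) {r : ℕ}
    (O : Fin r → Xo) (a : Bool) (t : ℝ) :
    qAC (B.mul h) P D O a t = qAC B P D O a t * h a (ptC D a t) := by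
  unfold qAC OB.mul
  ring

theorem qAC_mul_fun (B : OB) (h : Bool → ℂ → ℝ) (P : Par6) (D : Bool → ℝ → ℂ) {r : ℕ}
    (O : Fin r → Xo) (a : Bool) :
    qAC (B.mul h) P D O a = fun t => qAC B P D O a t * h a (ptC D a t) :=
  funext fun t => qAC_mul B h P D O a t

/-- weight of the configuration and gas with one more spectator -/
theorem FncC_mul (B : OB) (h : Bool → ℂ → ℝ) (P : Par6) (D D1 : Bool → ℝ → ℂ) (nX nY : ℕ) {r : ℕ}
    (O : Fin r → Xo) (hc : chgO6 O true ≤ nX ∧ chgO6 O false ≤ nY ∧ cnt6 O) :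
    FncC (B.mul h) P D D1 nX nY O =
      ENNReal.ofReal (objWc6 B P O * ∏ i, facL6 h (cons6 P O i)) *
        Z1C (B.mul h) P D D1 O (nA6 nX O true) (nA6 nY O false) := by
  unfold FncC
  rw [if_pos hc, objWc6_mul]

end PLT

end
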