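import Pool.Agent.PLT.ObR
import Pool.Agent.PLT.BrT
import Pool.Agent.PLT.PolA
import Pool.Agent.PLT.MfI
import Pool.Agent.PHK.OneD
import Pool.Agent.PHK.Ob6R

/-!
# One body data at the places of a direction: the instance

The data `obU6 c0 β xr W1 F0 g` with the cutoff `F0 a = phO T1 (ofFn (xr a) ++ W2 a)` of the strings;
the rows `xr a` are the places `c a` (real, units `l`) and the further rows `ex a` (complex).

* `InC`: hypotheses on rows, points and the further factor; `InC.obE`: the data as `ObE`;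
* **`InC.obC`**: `ObC` with a constant `cIC` which depends only on the numbers of `InC`;
* `InC.pTu`: the growth at the line of `T` far from the rows;
* `InC.obCX`: rows `(x | x^q)`.
-/

set_option autoImplicit false

noncomputable section

open Complex MeasureTheory Set

namespace PLT

open NUP1 NUGC.PLX PBO.PLX PHK
open NUO (cut posT posS)

/-- hypotheses on the rows `xr` (places `c`, further rows `ex`), the further points `W1`, `W2` of the
cutoffs and the further factor `g` -/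
structure InC (n0 n1 miss : ℕ) (h0 de G d1 cP : ℝ) (P : Par6) (c : Bool → List ℝ) (k : Bool → ℕ)
    (ex : Bool → List ℂ) (m : ℕ) (β : ℝ) {M : Bool → ℕ} (xr : ∀ a, Fin (M a) → ℂ)
    (W1 W2 : Bool → List ℂ) (g : Bool → ℂ → ℝ) : Prop where
  β0 : 0 < β
  β1 : β ≤ 4 / 3
  rows : RwE n0 h0 de miss c k ex fun a => List.ofFn (xr a)
  pl : ∀ a, ∀ x ∈ c a, -(1 - de) ≤ x ∧ x ≤ 1 / 2 - de
  num : ∀ a, (M a : ℝ) ≤ d1 * m
  w1 : ∀ a, (W1 a).length ≤ n1 ∧ Wdw h0 de (W1 a)
  w2 : ∀ a, (W2 a).length ≤ n1 ∧ Wdw h0 de (W2 a)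
  prU : ∀ j ∈ [P.jL, P.e], ∀ (a : Bool) (s : ℝ), 0 ≤ ((c a).map fun x => Ag ((j + x) * l) s).sum
  prL : ∀ j ∈ loL P, ∀ (a : Bool) (s : ℝ), cP * (m * Real.exp (-(8 / 3 * |s|))) ≤
    ((c a).map fun x => Ag ((j + x) * l) s).sum
  hA : ∀ (a : Bool) (t : ℝ), SAt (c a) t ≤ ((c a).map fun x => Ag ((3 / 2 + x) * l) t).sum
  gp : ∀ a u, 0 ≤ g a u
  gu : ∀ j ∈ upL P, ∀ (a : Bool) (t : ℝ), g a (vl ((1 - j) * l) t) ≤ G
  gl : ∀ j ∈ loL P, ∀ (a : Bool) (t : ℝ), (g a (vl ((1 - j) * l) t))⁻¹ ≤ G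

/-! ### lists -/

theorem Wdw.append {h0 de : ℝ} {X Y : List ℂ} (h : Wdw h0 de X) (h' : Wdw h0 de Y) :
    Wdw h0 de (X ++ Y) := fun x hx => by
  rcases List.mem_append.1 hx with hx | hx
  · exact h x hx
  · exact h' x hx

theorem Wdw.rwS {h0 de : ℝ} (hd : 0 < de) {X : List ℂ} (h : Wdw h0 de X) : RwS h0 X := fun x hx => by
  have hl := l_pos
  have hdl : 0 < de * l := by positivity
  obtain ⟨a, b, d⟩ := h x hx
  exact ⟨by linarith, by linarith, d⟩

theorem plc_rwS {h0 de : ℝ} (hh : 0 ≤ h0) (hd : 0 < de) {c : List ℝ}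
    (h : ∀ x ∈ c, -(1 - de) ≤ x ∧ x ≤ 1 / 2 - de) : RwS h0 (plc c) := fun x hx => by
  have hl := l_pos
  unfold plc at hx
  obtain ⟨y, hy, rfl⟩ := List.mem_map.1 hx
  obtain ⟨y1, y2⟩ := h y hy
  rw [ofReal_re, ofReal_im, abs_zero]
  exact ⟨by nlinarith, by nlinarith, hh⟩

theorem RwS.append {h0 : ℝ} {X Y : List ℂ} (h : RwS h0 X) (h' : RwS h0 Y) : RwS h0 (X ++ Y) :=
  fun x hx => by
    rcases List.mem_append.1 hx with hx | hx
    · exact h x hx
    · exact h' x hx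

/-- the level function of the places at far heights -/
theorem SAt_far {t : ℝ} (ht : 1 ≤ |t|) (c : List ℝ) :
    SAt c t ≤ 8 * c.length * Real.exp (-(8 / 3) * |t|) := by
  unfold SAt
  induction c with
  | nil => simp
  | cons x c ih =>
    have h := Ag_far_le ht ((1 / 2 - x) * l)
    rw [List.map_cons, List.sum_cons, List.length_cons]
    push_cast
    linarith

/-- the level function of the further rows at far heights -/
theorem SAe_far {h0 : ℝ} {t : ℝ} (ht : h0 + 1 ≤ |t|) {e : List ℂ} (he : ∀ x ∈ e, |x.im| ≤ h0) :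
    SAe e t ≤ 8 * Real.exp (8 / 3 * h0) * e.length * Real.exp (-(8 / 3) * |t|) := by
  unfold SAe
  induction e with
  | nil => simp
  | cons x e ih =>
    have i := ih fun y hy => he y (by simp [hy])
    have hx := he x (by simp)
    have h1 : |t| - h0 ≤ |t - x.im| := by
      have := abs_sub_abs_le_abs_sub t x.im
      linarith
    have h2 := Ag_far_le (t := t - x.im) (by linarith) (l / 2 - x.re)
    have h3 : Real.exp (-(8 / 3) * |t - x.im|) ≤
        Real.exp (8 / 3 * h0) * Real.exp (-(8 / 3) * |t|) := by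
      rw [← Real.exp_add]
      exact Real.exp_le_exp.2 (by linarith)
    rw [List.map_cons, List.sum_cons, List.length_cons]
    push_cast
    nlinarith

/-! ### the instance -/

section
variable {n0 n1 miss : ℕ} {h0 de G c0 d1 cP : ℝ} {P : Par6} {c : Bool → List ℝ} {k : Bool → ℕ}
  {ex : Bool → List ℂ} {m : ℕ} {β : ℝ} {M : Bool → ℕ} {xr : ∀ a, Fin (M a) → ℂ}
  {W1 W2 : Bool → List ℂ} {g : Bool → ℂ → ℝ}

/-- the list of points of a cutoff -/
theorem InC.perm (h : InC n0 n1 miss h0 de G d1 cP P c k ex m β xr W1 W2 g) (V : Bool → List ℂ)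
    (a : Bool) : (List.ofFn (xr a) ++ V a).Perm (plc (c a) ++ (ex a ++ V a)) := by
  rw [← List.append_assoc]
  exact (h.rows.perm a).append_right (V a)

theorem InC.exW (h : InC n0 n1 miss h0 de G d1 cP P c k ex m β xr W1 W2 g) (a : Bool) :
    Wdw h0 de (ex a) := fun x hx =>
  ⟨(h.rows.re a x hx).1, (h.rows.re a x hx).2, h.rows.im a x hx⟩

theorem InC.rwS (h : InC n0 n1 miss h0 de G d1 cP P c k ex m β xr W1 W2 g) {V : Bool → List ℂ}
    (hV : ∀ a, (V a).length ≤ n1 ∧ Wdw h0 de (V a)) (a : Bool) :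
    RwS h0 (List.ofFn (xr a) ++ V a) :=
  ((plc_rwS h.rows.hh h.rows.de0 (h.pl a)).append
    ((h.exW a).append (hV a).2 |>.rwS h.rows.de0)).perm (h.perm V a).symm

theorem InC.len (h : InC n0 n1 miss h0 de G d1 cP P c k ex m β xr W1 W2 g) (hm : 1 ≤ m)
    {V : Bool → List ℂ} (hV : ∀ a, (V a).length ≤ n1 ∧ Wdw h0 de (V a)) (a : Bool) :
    ((List.ofFn (xr a) ++ V a).length : ℝ) ≤ (d1 + n1) * m := by
  have h3 : ((V a).length : ℝ) ≤ n1 := by exact_mod_cast (hV a).1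
  have h5 := h.num a
  have h6 : (n1 : ℝ) ≤ n1 * m := le_mul_of_one_le_right (Nat.cast_nonneg _) (by exact_mod_cast hm)
  rw [List.length_append, List.length_ofFn]
  push_cast
  linarith

/-- the number of rows -/
theorem InC.numR (h : InC n0 n1 miss h0 de G d1 cP P c k ex m β xr W1 W2 g) (a : Bool) :
    ((c a).length : ℝ) + (ex a).length ≤ d1 * m := by
  have h1 := (h.rows.perm a).length_eq
  rw [List.length_ofFn, List.length_append] at h1
  unfold plc at h1
  rw [List.length_map] at h1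
  have h2 := h.num a
  rw [h1] at h2
  push_cast at h2
  exact h2

/-- the data of the instance -/
theorem InC.obE (h : InC n0 n1 miss h0 de G d1 cP P c k ex m β xr W1 W2 g) (hc : 0 < c0)
    (hd : 1 ≤ d1) (hG : 0 ≤ G) (hcP : 0 < cP) (hm : 1 ≤ m)
    (hm2 : cK (1 / 40) h0 * (n0 + n1 : ℕ) ≤ cP / 2 * m) (F0 : Bool → ℂ → ℂ) :
    ObE (n0 + n1) miss h0 de G c0 (d1 + n1) cP P c c k ex m β (obU6 c0 β xr W1 F0 g)
      (fun a => List.ofFn (xr a)) (fun a => List.ofFn (xr a) ++ W1 a) g where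
  cc := hc
  one_le := by
    have : (0 : ℝ) ≤ n1 := Nat.cast_nonneg n1
    linarith
  G0 := hG
  cP0 := hcP
  m0 := hm
  mL := hm2
  β0 := h.β0
  β1 := h.β1
  rows := ⟨h.rows.hh, h.rows.de0, h.rows.de1, fun s => (h.rows.kn s).trans (by omega),
    h.rows.perm, h.rows.len, h.rows.re, h.rows.im⟩
  pts a := ⟨h.pl a, ex a ++ W1 a, h.perm W1 a, by
    have h1 := h.rows.exn a
    have h2 := (h.w1 a).1
    rw [List.length_append]
    omega, (h.exW a).append (h.w1 a).2⟩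
  lenV a := h.len hm h.w1 a
  prU := h.prU
  prL := h.prL
  R a u := by
    rw [obU6_R, rwU_list]
  φ _ := rfl
  gp := h.gp
  gu := h.gu
  gl := h.gl

/-- **the growth of the rows at the line of `T`, far from the rows** -/
theorem InC.pTu (h : InC n0 n1 miss h0 de G d1 cP P c k ex m β xr W1 W2 g) (a : Bool) {t : ℝ}
    (ht : h0 + 1 ≤ |t|) :
    pTE c ex a t ≤ 8 * Real.exp (8 / 3 * h0) * d1 * (m * Real.exp (-(8 / 3) * |t|)) := by
  have hh := h.rows.hh
  have a1 := SAt_far (t := t) (by linarith) (c a)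
  have a2 := SAe_far ht (e := ex a) (h.rows.im a)
  have a3 := h.numR a
  have hE : 1 ≤ Real.exp (8 / 3 * h0) := Real.one_le_exp (by positivity)
  have hX := (Real.exp_pos (-(8 / 3) * |t|)).le
  have n1 : (0 : ℝ) ≤ (c a).length := Nat.cast_nonneg _
  unfold pTE
  calc SAt (c a) t + SAe (ex a) t ≤ 8 * (c a).length * Real.exp (-(8 / 3) * |t|) +
        8 * Real.exp (8 / 3 * h0) * (ex a).length * Real.exp (-(8 / 3) * |t|) := add_le_add a1 a2
    _ ≤ 8 * Real.exp (8 / 3 * h0) * (c a).length * Real.exp (-(8 / 3) * |t|) +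
        8 * Real.exp (8 / 3 * h0) * (ex a).length * Real.exp (-(8 / 3) * |t|) := by
        have : 8 * ((c a).length : ℝ) ≤ 8 * Real.exp (8 / 3 * h0) * (c a).length := by nlinarith
        gcongr
    _ = 8 * Real.exp (8 / 3 * h0) * Real.exp (-(8 / 3) * |t|) *
        ((c a).length + (ex a).length) := by ring
    _ ≤ 8 * Real.exp (8 / 3 * h0) * Real.exp (-(8 / 3) * |t|) * (d1 * m) := by gcongr
    _ = _ := by ring

/-- the constant of the instance -/
def cIC (n0 n1 : ℕ) (h0 de G c0 d1 cP : ℝ) : ℝ :=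
  cOE (n0 + n1) h0 de G c0 (d1 + n1) cP + (4 + 4 * Real.exp 2) * Real.exp (3 * n0) +
    (2 + Real.exp 3) * cB h0 (d1 + n1) + 8 * Real.exp (8 / 3 * h0) * d1

/-- **the one body data at the places of a direction, the instance** -/
theorem InC.obC (h : InC n0 n1 miss h0 de G d1 cP P c k ex m β xr W1 W2 g) (hP : LnT P)
    (he : P.e ≤ 15 / 32) (hc : 0 < c0) (hd : 1 ≤ d1) (hG : 0 ≤ G) (hcP : 0 < cP) (hm : 1 ≤ m)
    (hm2 : cK (1 / 40) h0 * (n0 + n1 : ℕ) ≤ cP / 2 * m)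
    (hm3 : Real.exp (8 / 3 * (h0 + 1)) ≤ m) {T1 : ℝ}
    (hT : 3 / 8 * Real.log m + tauT h0 (d1 + n1) ≤ T1) :
    ObC P (cIC n0 n1 h0 de G c0 d1 cP) (rwE c k ex) (pTE c ex) m β T1
      (obU6 c0 β xr W1 (fun a => phO T1 (List.ofFn (xr a) ++ W2 a)) g) := by
  have hl := l_pos
  have hO := h.obE hc hd hG hcP hm hm2 fun a => phO T1 (List.ofFn (xr a) ++ W2 a)
  have hh := h.rows.hh
  have hn1 : (0 : ℝ) ≤ n1 := Nat.cast_nonneg n1
  have hd0 : 0 ≤ d1 + n1 := by linarith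
  have hcB := cB_ge hh hd0
  have e2 := Real.exp_pos 2
  have e3 := Real.exp_pos 3
  have p1 : 0 ≤ cOE (n0 + n1) h0 de G c0 (d1 + n1) cP := by
    refine le_trans ?_ (cOE_ge hO).2.2.2
    positivity
  have p2 : 0 ≤ (4 + 4 * Real.exp 2) * Real.exp (3 * n0) := by positivity
  have p3 : 0 ≤ (2 + Real.exp 3) * cB h0 (d1 + n1) := by positivity
  have p4 : 0 ≤ 8 * Real.exp (8 / 3 * h0) * d1 := by positivity
  refine hO.obC hP (by unfold cIC; linarith) (fun a t _ ht => ?_) (fun a t => ?_) (fun a t => ?_)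
    fun a t => ?_
  · -- the height
    have h1 : Real.exp (8 / 3 * (h0 + 1)) * Real.exp (-(8 / 3) * |t|) ≤ 1 := by
      refine le_trans ?_ ht
      refine mul_le_mul hm3 (Real.exp_le_exp.2 ?_) (Real.exp_pos _).le (Nat.cast_nonneg m)
      have h2 := abs_nonneg t
      have h3 := h.β1
      nlinarith
    rw [← Real.exp_add, Real.exp_le_one_iff] at h1
    refine (h.pTu a (by linarith)).trans (mul_le_mul_of_nonneg_right ?_ (by positivity))
    unfold cIC
    linarith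
  · have a1 := br_bulkC (e := ex a) h.β0 h.β1 hh (h.rwS h.w1 a) (h.rwS h.w2 a) (h.perm W1 a)
      (h.perm W2 a) (fun x hx => ⟨by linarith [(h.pl a x hx).1, h.rows.de0],
        by linarith [(h.pl a x hx).2, h.rows.de0]⟩) (h.hA a t) hd0 hm (h.len hm h.w2 a) hT
    refine a1.trans ?_
    have h4 : Real.exp (3 * (ex a).length) ≤ Real.exp (3 * n0) := by
      refine Real.exp_le_exp.2 ?_
      have : ((ex a).length : ℝ) ≤ n0 := by exact_mod_cast h.rows.exn a
      linarith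
    refine mul_le_mul_of_nonneg_right ?_ (Real.exp_pos _).le
    refine (mul_le_mul_of_nonneg_left h4 (by positivity)).trans ?_
    unfold cIC
    linarith
  · refine (br_cut h.β0 h.β1 hh (h.rwS h.w1 a) (h.rwS h.w2 a) hd0 hm (h.len hm h.w1 a)
      (h.len hm h.w2 a) hT t).trans ?_
    refine mul_le_mul_of_nonneg_right ?_ (NUO.cut_nonneg _ _ _)
    unfold cIC
    linarith
  · refine (phi0_om hh (h.rwS h.w2 a) hd0 hm (h.len hm h.w2 a) hT (by linarith [hP.e13]) he
      t).trans ?_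
    rw [mul_assoc (Real.exp 3 * cB h0 (d1 + n1))]
    refine mul_le_mul_of_nonneg_right ?_ (mul_nonneg (NUO.cut_nonneg _ _ _) (Real.exp_pos _).le)
    unfold cIC
    have : 0 ≤ 2 * cB h0 (d1 + n1) := by linarith
    linarith

end

/-- **rows `(x | x^q)`** -/
theorem InC.obCX [PLX.Fil] {n0 n1 miss : ℕ} {h0 de G c0 d1 cP : ℝ} {P : Par6} {c : Bool → List ℝ}
    {k : Bool → ℕ} {ex : Bool → List ℂ} {m k' : ℕ} {β : ℝ} {x : Fin k' → ℂ}
    {W1 W2 : Bool → List ℂ} {g : Bool → ℂ → ℝ}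
    (h : InC n0 n1 miss h0 de G d1 cP P c k ex m β (Pool.Agent.PLX.rwq x) W1 W2 g) (hP : LnT P)
    (he : P.e ≤ 15 / 32) (hc : 0 < c0) (hd : 1 ≤ d1) (hG : 0 ≤ G) (hcP : 0 < cP) (hm : 1 ≤ m)
    (hm2 : cK (1 / 40) h0 * (n0 + n1 : ℕ) ≤ cP / 2 * m)
    (hm3 : Real.exp (8 / 3 * (h0 + 1)) ≤ m) {T1 : ℝ}
    (hT : 3 / 8 * Real.log m + tauT h0 (d1 + n1) ≤ T1) :
    ObC P (cIC n0 n1 h0 de G c0 d1 cP) (rwE c k ex) (pTE c ex) m β T1
      (obX6 c0 β x W1 (fun a => phO T1 (List.ofFn (Pool.Agent.PLX.rwq x a) ++ W2 a)) g) := by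
  rw [← obU6_rwq]
  exact h.obC hP he hc hd hG hcP hm hm2 hm3 hT

end PLT

end
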