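import Pool.Agent.PLT.Gas2
import Pool.Agent.NUO.Blocks
import Pool.Agent.NUSp.Pot

/-!
# The potentials of the quanta of an object in an asymmetric strip (pure)

`OffS δ lo hi j`: the offsets `j - v`, `lo ≤ v l ≤ hi`, have distance `≥ δ` from the integers.
* **`OffS.red_le`**, `OffS.im_le`: no wrap of the blocks in the strip;
* `gq x j τ a`: the potential of a quantum of species `x`, offset `j`, height `τ` on the species `a`;
  `gqS_diff`, **`gqS_re`**, `gqS_lip`, `gqS_bd`, `gqS_ext`;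
* **`gsum_r`**, `gsum_l`: the sum over the two species tends to `± π wnu j` on the two sides;
  **`gsum_asy`** (`SAsy`).

The constants `GS δ`, `AS δ`, `KS δ` depend on `δ` only.
-/

set_option autoImplicit false
set_option linter.unusedSectionVars false

open MeasureTheory Set Filter Topology Complex

namespace PLT.Cv

open NUMF (l l_pos lq lqg ro)
open NUO (Off red av co cx ct yv fq fg dq dg)

noncomputable section

/-- the offsets of a strip have distance `≥ δ` from the integers -/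
def OffS (δ lo hi j : ℝ) : Prop := ∀ v : ℝ, lo ≤ v * l → v * l ≤ hi → Off δ (j - v)

variable {δ lo hi j τ : ℝ} {x a : Bool} {z w : ℂ}

theorem OffS.off (h : OffS δ lo hi j) (h1 : lo ≤ 0) (h2 : 0 ≤ hi) : Off δ j := by
  have := h 0 (by simpa using h1) (by simpa using h2)
  simpa using this

theorem OffS.mono {lo' hi' : ℝ} (h : OffS δ lo hi j) (h1 : lo ≤ lo') (h2 : hi' ≤ hi) :
    OffS δ lo' hi' j := fun v a b => h v (h1.trans a) (b.trans h2)

theorem OffS.weak {δ' : ℝ} (h : OffS δ lo hi j) (h1 : δ' ≤ δ) : OffS δ' lo hi j :=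
  fun v a b n => h1.trans (h v a b n)

/-- **no wrap** -/
theorem OffS.red_le (h : OffS δ lo hi j) (hδ : 0 < δ) (h1 : lo ≤ 0) (h2 : 0 ≤ hi) {v : ℝ}
    (hv1 : lo ≤ v * l) (hv2 : v * l ≤ hi) (m : ℤ) : |v + red (m - j)| ≤ 4 - δ := by
  have hl := l_pos
  set n : ℤ := round (((m : ℝ) - j) / 8) with hn
  have e : red (m - j) = m - j - 8 * (n : ℝ) := rfl
  have hr := NUO.red_le (h.off h1 h2) m
  set r := red (m - j) with hr0
  obtain ⟨r1, r2⟩ := abs_le.1 hr
  rw [abs_le]
  constructor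
  · by_contra hc
    rw [not_le] at hc
    set v' := max v (-4 - r) with hv'
    have a1 : v ≤ v' := le_max_left _ _
    have a2 : -4 - r ≤ v' := le_max_right _ _
    have a3 : v' ≤ 0 := max_le (by linarith) (by linarith)
    have a4 : r + v' + 4 < δ := by
      rcases max_choice v (-4 - r) with h3 | h3 <;> rw [← hv'] at h3 <;> rw [h3] <;> linarith
    have b1 : lo ≤ v' * l := hv1.trans (mul_le_mul_of_nonneg_right a1 hl.le)
    have b2 : v' * l ≤ hi := (mul_nonpos_of_nonpos_of_nonneg a3 hl.le).trans h2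
    have b3 := h v' b1 b2 (m - 8 * n + 4)
    have e2 : j - v' - ((m - 8 * n + 4 : ℤ) : ℝ) = -(r + v' + 4) := by
      rw [e]
      push_cast
      ring
    rw [e2, abs_neg, abs_of_nonneg (by linarith)] at b3
    linarith
  · by_contra hc
    rw [not_le] at hc
    set v' := min v (4 - r) with hv'
    have a1 : v' ≤ v := min_le_left _ _
    have a2 : v' ≤ 4 - r := min_le_right _ _
    have a3 : 0 ≤ v' := le_min (by linarith) (by linarith)
    have a4 : 4 - r - v' < δ := by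
      rcases min_choice v (4 - r) with h3 | h3 <;> rw [← hv'] at h3 <;> rw [h3] <;> linarith
    have b1 : lo ≤ v' * l := h1.trans (mul_nonneg a3 hl.le)
    have b2 : v' * l ≤ hi := (mul_le_mul_of_nonneg_right a1 hl.le).trans hv2
    have b3 := h v' b1 b2 (m - 8 * n - 4)
    have e2 : j - v' - ((m - 8 * n - 4 : ℤ) : ℝ) = 4 - r - v' := by
      rw [e]
      push_cast
      ring
    rw [e2, abs_of_nonneg (by linarith)] at b3
    linarith

/-- **no wrap**: the blocks in the strip -/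
theorem OffS.im_le (h : OffS δ lo hi j) (hδ : 0 < δ) (h1 : lo ≤ 0) (h2 : 0 ≤ hi)
    (hz1 : lo ≤ z.im) (hz2 : z.im ≤ hi) (i : Fin 8) :
    |(z - τ + yv j i * I).im| ≤ Real.pi / 2 - δ * l := by
  have hl := l_pos
  have e0 : z.im / l * l = z.im := div_mul_cancel₀ _ hl.ne'
  have h3 := h.red_le hδ h1 h2 (v := z.im / l) (by rw [e0]; exact hz1) (by rw [e0]; exact hz2) (av i)
  have e1 : (z - τ + yv j i * I).im = (z.im / l + red (av i - j)) * l := by
    rw [NUO.im_shift, add_mul, e0]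
    simp only [Complex.sub_im, Complex.ofReal_im, sub_zero]
    rfl
  rw [e1, abs_mul, abs_of_pos hl, ← NUO.four_l, ← sub_mul]
  exact mul_le_mul_of_nonneg_right h3 hl.le

theorem OffS.im_lt (h : OffS δ lo hi j) (hδ : 0 < δ) (h1 : lo ≤ 0) (h2 : 0 ≤ hi)
    (hz1 : lo ≤ z.im) (hz2 : z.im ≤ hi) (i : Fin 8) :
    |(z - τ + yv j i * I).im| < Real.pi / 2 :=
  (h.im_le hδ h1 h2 hz1 hz2 i).trans_lt (by have := mul_pos hδ l_pos; linarith)

/-! ### one block -/

lemma F_block' (hw : ∀ i, |(w + yv j i * I).im| < Real.pi / 2) (i : Fin 8) :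
    (NUMF.F (w + yv j i * I)).re = NUMF.h w.re (w.im + (av i - j) * l) := by
  rw [NUMF.F_re (hw i), NUO.im_shift, NUO.re_shift]
  unfold yv
  rw [NUO.h_red]

theorem fq_re' (hw : ∀ i, |(w + yv j i * I).im| < Real.pi / 2) :
    (fq j w).re = lq (j - w.im / l) w.re := by
  have hl := l_pos
  unfold fq
  rw [Complex.sub_re, Complex.re_sum, Complex.ofReal_re]
  simp_rw [Complex.re_ofReal_mul, F_block' hw]
  rw [NUO.sum8]
  simp only [co, av, Matrix.cons_val]
  have e : ∀ a : ℝ, w.im + (a - j) * l = (a - (j - w.im / l)) * l := by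
    intro a
    field_simp
    ring
  have e2 : NUMF.h w.re (w.im + ((-2 : ℝ) - j) * l) = NUMF.h w.re ((2 + (j - w.im / l)) * l) := by
    rw [e, ← NUMF.h_neg_right]
    congr 1
    ring
  push_cast
  rw [e2]
  simp_rw [e]
  unfold lq ro
  ring

theorem fg_re' (hw : ∀ i, |(w + yv j i * I).im| < Real.pi / 2) :
    (fg j w).re = lqg (j - w.im / l) w.re := by
  have hl := l_pos
  unfold fg
  rw [Complex.add_re, Complex.re_sum, Complex.ofReal_re]
  simp_rw [Complex.re_ofReal_mul, F_block' hw]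
  rw [NUO.sum8]
  simp only [cx, av, Matrix.cons_val]
  have e0 : NUMF.h w.re (w.im + ((0 : ℝ) - j) * l) = NUMF.h w.re ((j - w.im / l) * l) := by
    rw [← NUMF.h_neg_right]
    congr 1
    field_simp
    ring
  have e1 : NUMF.h w.re (w.im + ((1 : ℝ) - j) * l) = NUMF.h w.re ((j - w.im / l) * l - l) := by
    rw [← NUMF.h_neg_right]
    congr 1
    field_simp
    ring
  have e2 : NUMF.h w.re (w.im + ((-1 : ℝ) - j) * l) = NUMF.h w.re ((j - w.im / l) * l + l) := by
    rw [← NUMF.h_neg_right]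
    congr 1
    field_simp
    ring
  push_cast
  rw [e0, e1, e2]
  unfold lqg
  ring

lemma hasDerivAt_block' (hw : ∀ i, |(w + yv j i * I).im| < Real.pi / 2) (i : Fin 8) :
    HasDerivAt (fun z => NUMF.F (z + yv j i * I)) (2 * Complex.tanh (w + yv j i * I)) w := by
  have h1 := NUO.hasDerivAt_F (hw i)
  have h2 : HasDerivAt (fun z : ℂ => z + yv j i * I) 1 w := (hasDerivAt_id w).add_const _
  have h3 := h1.comp w h2
  rw [mul_one] at h3
  exact h3

theorem hasDerivAt_fq' (hw : ∀ i, |(w + yv j i * I).im| < Real.pi / 2) :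
    HasDerivAt (fq j) (dq j w) w := by
  have h1 : HasDerivAt (fun z => ∑ i, (co i : ℂ) * NUMF.F (z + yv j i * I)) (dq j w) w :=
    HasDerivAt.fun_sum fun i _ => (hasDerivAt_block' hw i).const_mul _
  exact h1.sub_const _

theorem hasDerivAt_fg' (hw : ∀ i, |(w + yv j i * I).im| < Real.pi / 2) :
    HasDerivAt (fg j) (dg j w) w := by
  have h1 : HasDerivAt (fun z => ∑ i, (cx i : ℂ) * NUMF.F (z + yv j i * I)) (dg j w) w :=
    HasDerivAt.fun_sum fun i _ => (hasDerivAt_block' hw i).const_mul _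
  exact h1.add_const _

lemma sum_abs_co : ∑ i, |co i| = 3 := by
  rw [NUO.sum8]
  simp only [co, Matrix.cons_val]
  norm_num [abs_div]

lemma sum_abs_cx : ∑ i, |cx i| = 3 := by
  rw [NUO.sum8]
  simp only [cx, Matrix.cons_val]
  norm_num [abs_div]

/-! ### bounds -/

/-- Lipschitz constant -/
def GS (δ : ℝ) : ℝ := 6 * (1 + 2 / Real.sin (δ * l))

/-- growth constant -/
def AS (δ : ℝ) : ℝ := 25 + 18 / Real.sin (δ * l)

/-- constant of the asymptotics -/
def KS (δ : ℝ) : ℝ := 36 / Real.sin (δ * l)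

lemma sin_dl_pos (hδ : 0 < δ) (hδ1 : δ ≤ 1) : 0 < Real.sin (δ * l) := by
  have hl := l_pos
  refine Real.sin_pos_of_pos_of_lt_pi (mul_pos hδ hl) ?_
  have h1 : δ * l ≤ 1 * l := mul_le_mul_of_nonneg_right hδ1 hl.le
  have h2 : 4 * l = Real.pi / 2 := NUO.four_l
  have := Real.pi_pos
  linarith

lemma GS_pos (hδ : 0 < δ) (hδ1 : δ ≤ 1) : 0 < GS δ := by
  have := sin_dl_pos hδ hδ1
  unfold GS
  positivity

lemma AS_pos (hδ : 0 < δ) (hδ1 : δ ≤ 1) : 0 < AS δ := by
  have := sin_dl_pos hδ hδ1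
  unfold AS
  positivity

lemma KS_pos (hδ : 0 < δ) (hδ1 : δ ≤ 1) : 0 < KS δ := by
  have := sin_dl_pos hδ hδ1
  unfold KS
  positivity

lemma cos_b (δ : ℝ) : Real.cos (Real.pi / 2 - δ * l) = Real.sin (δ * l) := Real.cos_pi_div_two_sub _

lemma b_lt (hδ : 0 < δ) : Real.pi / 2 - δ * l < Real.pi / 2 := by
  have := mul_pos hδ l_pos
  linarith

lemma exp_le1 (t : ℝ) : Real.exp (-2 * |t|) ≤ 1 := Real.exp_le_one_iff.2 (by
  have := abs_nonneg t
  linarith)

lemma norm_tanh_le (hδ : 0 < δ) (hδ1 : δ ≤ 1) (hw : |w.im| ≤ Real.pi / 2 - δ * l) :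
    ‖Complex.tanh w‖ ≤ 1 + 2 / Real.sin (δ * l) := by
  have hs := sin_dl_pos hδ hδ1
  have hE := exp_le1 w.re
  have key : ∀ σ : ℂ, ‖σ‖ = 1 → ‖Complex.tanh w - σ‖ ≤ 2 / Real.sin (δ * l) * Real.exp (-2 * |w.re|) →
      ‖Complex.tanh w‖ ≤ 1 + 2 / Real.sin (δ * l) := by
    intro σ h1 h2
    have h3 := norm_add_le (Complex.tanh w - σ) σ
    rw [sub_add_cancel, h1] at h3
    have h4 : 2 / Real.sin (δ * l) * Real.exp (-2 * |w.re|) ≤ 2 / Real.sin (δ * l) * 1 :=
      mul_le_mul_of_nonneg_left hE (by positivity)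
    linarith
  rcases le_total 0 w.re with h0 | h0
  · have := NUO.tanh_sub_one (b_lt hδ) hw h0
    rw [cos_b] at this
    exact key 1 (by simp) this
  · have := NUO.tanh_add_one (b_lt hδ) hw h0
    rw [cos_b] at this
    exact key (-1) (by simp) (by rwa [sub_neg_eq_add])

lemma norm_F_le (hδ : 0 < δ) (hδ1 : δ ≤ 1) (hw : |w.im| ≤ Real.pi / 2 - δ * l) :
    ‖NUMF.F w‖ ≤ 2 * |w.re| + 25 / 4 + 6 / Real.sin (δ * l) := by
  have hl := l_pos
  have hs := sin_dl_pos hδ hδ1
  have hE := exp_le1 w.re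
  have hpi := Real.pi_le_four
  have hpi2 := Real.pi_lt_d2
  have l2 : 0 < Real.log 2 := Real.log_pos (by norm_num)
  have l2' : Real.log 2 ≤ 7 / 10 := by
    have := Real.log_two_lt_d9
    linarith
  have hn : ‖w‖ ≤ |w.re| + |w.im| := Complex.norm_le_abs_re_add_abs_im w
  have him : |w.im| ≤ Real.pi / 2 := hw.trans (b_lt hδ).le
  have hlog : ‖Complex.log (Complex.cosh w)‖ ≤ ‖w‖ + Real.log 2 + 3 / Real.sin (δ * l) := by
    have h4 : 3 / Real.sin (δ * l) * Real.exp (-2 * |w.re|) ≤ 3 / Real.sin (δ * l) * 1 :=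
      mul_le_mul_of_nonneg_left hE (by positivity)
    have hc : ‖((Real.log 2 : ℝ) : ℂ)‖ = Real.log 2 := by
      rw [Complex.norm_real, Real.norm_of_nonneg l2.le]
    rcases le_total 0 w.re with h0 | h0
    · have h1 := NUSp.log_cosh_r (b_lt hδ) hw h0
      rw [cos_b] at h1
      have h2 := norm_add_le (Complex.log (Complex.cosh w) - (w - Real.log 2)) (w - Real.log 2)
      rw [sub_add_cancel] at h2
      have h3 := norm_sub_le w ((Real.log 2 : ℝ) : ℂ)
      rw [hc] at h3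
      linarith
    · have h1 := NUSp.log_cosh_l (b_lt hδ) hw h0
      rw [cos_b] at h1
      have h2 := norm_add_le (Complex.log (Complex.cosh w) - (-w - Real.log 2)) (-w - Real.log 2)
      rw [sub_add_cancel] at h2
      have h3 := norm_sub_le (-w) ((Real.log 2 : ℝ) : ℂ)
      rw [hc, norm_neg] at h3
      linarith
  unfold NUMF.F
  have h5 := norm_add_le (2 * Complex.log (Complex.cosh w)) ((Real.log 2 : ℝ) : ℂ)
  rw [norm_mul, Complex.norm_real, Real.norm_of_nonneg l2.le, Complex.norm_ofNat] at h5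
  have h6 : 2 * (3 / Real.sin (δ * l)) = 6 / Real.sin (δ * l) := by ring
  nlinarith

/-! ### the potential of a quantum -/

/-- **the potential** of a quantum of species `x`, offset `j`, height `τ` on the species `a` -/
def gq (x : Bool) (j τ : ℝ) (a : Bool) (z : ℂ) : ℂ :=
  (if a = x then NUO.fq j else NUO.fg j) (z - τ)

/-- its derivative -/
def gq1 (x : Bool) (j τ : ℝ) (a : Bool) (z : ℂ) : ℂ :=
  (if a = x then NUO.dq j else NUO.dg j) (z - τ)

section strip
variable (h : OffS δ lo hi j) (hδ : 0 < δ) (h1 : lo ≤ 0) (h2 : 0 ≤ hi)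
include h hδ h1 h2

theorem gqS_hasDeriv (hz1 : lo ≤ z.im) (hz2 : z.im ≤ hi) :
    HasDerivAt (gq x j τ a) (gq1 x j τ a z) z := by
  have hw := fun i => h.im_lt (τ := τ) hδ h1 h2 hz1 hz2 i
  have hs : HasDerivAt (fun z : ℂ => z - τ) 1 z := (hasDerivAt_id z).sub_const _
  unfold gq gq1
  by_cases ha : a = x
  · simp only [if_pos ha]
    have h3 := (hasDerivAt_fq' hw).comp z hs
    rw [mul_one] at h3
    exact h3
  · simp only [if_neg ha]
    have h3 := (hasDerivAt_fg' hw).comp z hs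
    rw [mul_one] at h3
    exact h3

theorem gqS_diff (hz1 : lo ≤ z.im) (hz2 : z.im ≤ hi) : DifferentiableAt ℂ (gq x j τ a) z :=
  (gqS_hasDeriv h hδ h1 h2 hz1 hz2).differentiableAt

/-- **the real part** -/
theorem gqS_re (hz1 : lo ≤ z.im) (hz2 : z.im ≤ hi) : (gq x j τ a z).re =
    if a = x then lq (j - z.im / l) (τ - z.re) else lqg (j - z.im / l) (τ - z.re) := by
  have hw := fun i => h.im_lt (τ := τ) hδ h1 h2 hz1 hz2 i
  have e1 : (z - τ).im = z.im := by simp
  have e2 : (z - τ).re = z.re - τ := by simp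
  have e3 : z.re - τ = -(τ - z.re) := by ring
  unfold gq
  by_cases ha : a = x
  · simp only [if_pos ha]
    rw [fq_re' hw, e1, e2, e3]
    unfold lq ro
    simp only [NUMF.h_neg_left]
  · simp only [if_neg ha]
    rw [fg_re' hw, e1, e2, e3]
    unfold lqg
    simp only [NUMF.h_neg_left]

theorem gqS_d1 (hδ1 : δ ≤ 1) (hz1 : lo ≤ z.im) (hz2 : z.im ≤ hi) :
    ‖gq1 x j τ a z‖ ≤ GS δ := by
  have hw := fun i => h.im_le (τ := τ) hδ h1 h2 hz1 hz2 i
  have key : ∀ c : Fin 8 → ℝ, ∑ i, |c i| = 3 →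
      ‖∑ i, (c i : ℂ) * (2 * Complex.tanh (z - τ + yv j i * I))‖ ≤ GS δ := by
    intro c hc
    calc ‖∑ i, (c i : ℂ) * (2 * Complex.tanh (z - τ + yv j i * I))‖
        ≤ ∑ i, |c i| * (2 * (1 + 2 / Real.sin (δ * l))) := by
          refine (norm_sum_le _ _).trans (Finset.sum_le_sum fun i _ => ?_)
          rw [norm_mul, norm_mul, Complex.norm_real, Complex.norm_ofNat, Real.norm_eq_abs]
          exact mul_le_mul_of_nonneg_left (mul_le_mul_of_nonneg_left
            (norm_tanh_le hδ hδ1 (hw i)) (by norm_num)) (abs_nonneg _)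
      _ = GS δ := by
          rw [← Finset.sum_mul, hc]
          unfold GS
          ring
  unfold gq1
  by_cases ha : a = x
  · simp only [if_pos ha]
    exact key _ sum_abs_co
  · simp only [if_neg ha]
    exact key _ sum_abs_cx

/-- the potential is Lipschitz -/
theorem gqS_lip' (hδ1 : δ ≤ 1) (hz1 : lo ≤ z.im) (hz2 : z.im ≤ hi) (hw1 : lo ≤ w.im)
    (hw2 : w.im ≤ hi) : ‖gq x j τ a z - gq x j τ a w‖ ≤ GS δ * ‖z - w‖ := by
  have hc : Convex ℝ {u : ℂ | lo ≤ u.im ∧ u.im ≤ hi} := by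
    have e : {u : ℂ | lo ≤ u.im ∧ u.im ≤ hi} = Complex.imLm ⁻¹' Icc lo hi := rfl
    rw [e]
    exact (convex_Icc lo hi).linear_preimage _
  exact hc.norm_image_sub_le_of_norm_hasDerivWithin_le (f := gq x j τ a) (f' := gq1 x j τ a)
    (fun u hu => (gqS_hasDeriv h hδ h1 h2 hu.1 hu.2).hasDerivWithinAt)
    (fun u hu => gqS_d1 h hδ h1 h2 hδ1 hu.1 hu.2) ⟨hw1, hw2⟩ ⟨hz1, hz2⟩

theorem gqS_lip (hδ1 : δ ≤ 1) (hz1 : lo ≤ z.im) (hz2 : z.im ≤ hi) (hw1 : lo ≤ w.im)
    (hw2 : w.im ≤ hi) : ‖gq x j τ a z - gq x j τ a w‖ ≤ GS δ * (1 + ‖z - w‖) :=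
  (gqS_lip' h hδ h1 h2 hδ1 hz1 hz2 hw1 hw2).trans
    (mul_le_mul_of_nonneg_left (by linarith) (GS_pos hδ hδ1).le)

/-- **growth** -/
theorem gqS_bd (hδ1 : δ ≤ 1) (hz1 : lo ≤ z.im) (hz2 : z.im ≤ hi) :
    ‖gq x j τ a z‖ ≤ AS δ * (1 + |z.re - τ|) := by
  have hs := sin_dl_pos hδ hδ1
  have hw := fun i => h.im_le (τ := τ) hδ h1 h2 hz1 hz2 i
  have l2 : 0 < Real.log 2 := Real.log_pos (by norm_num)
  have l2' : Real.log 2 ≤ 7 / 10 := by
    have := Real.log_two_lt_d9
    linarith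
  have hre : ∀ i, (z - τ + yv j i * I).re = z.re - τ := fun i => by
    rw [NUO.re_shift]
    simp
  have key : ∀ c : Fin 8 → ℝ, ∑ i, |c i| = 3 →
      ‖∑ i, (c i : ℂ) * NUMF.F (z - τ + yv j i * I)‖ ≤
        3 * (2 * |z.re - τ| + 25 / 4 + 6 / Real.sin (δ * l)) := by
    intro c hc
    calc ‖∑ i, (c i : ℂ) * NUMF.F (z - τ + yv j i * I)‖
        ≤ ∑ i, |c i| * (2 * |z.re - τ| + 25 / 4 + 6 / Real.sin (δ * l)) := by
          refine (norm_sum_le _ _).trans (Finset.sum_le_sum fun i _ => ?_)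
          rw [norm_mul, Complex.norm_real, Real.norm_eq_abs]
          have := norm_F_le hδ hδ1 (hw i)
          rw [hre] at this
          exact mul_le_mul_of_nonneg_left this (abs_nonneg _)
      _ = _ := by
          rw [← Finset.sum_mul, hc]
  have hfin : 3 * (2 * |z.re - τ| + 25 / 4 + 6 / Real.sin (δ * l)) + Real.log 2 ≤
      AS δ * (1 + |z.re - τ|) := by
    unfold AS
    have h3 := abs_nonneg (z.re - τ)
    have h4 : 0 ≤ 18 / Real.sin (δ * l) * |z.re - τ| := by positivity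
    have h5 : 3 * (6 / Real.sin (δ * l)) = 18 / Real.sin (δ * l) := by ring
    nlinarith
  unfold gq
  by_cases ha : a = x
  · simp only [if_pos ha]
    unfold fq
    refine (norm_sub_le _ _).trans ?_
    rw [Complex.norm_real, Real.norm_of_nonneg l2.le]
    exact (add_le_add_left (key _ sum_abs_co) _).trans hfin
  · simp only [if_neg ha]
    unfold fg
    refine (norm_add_le _ _).trans ?_
    rw [Complex.norm_real, Real.norm_of_nonneg l2.le]
    exact (add_le_add_left (key _ sum_abs_cx) _).trans hfin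

/-- **the potential is admissible** -/
theorem gqS_ext (hδ1 : δ ≤ 1) : SExt lo hi (gq x j τ a) := by
  have hA := AS_pos hδ hδ1
  refine SExt_of_lin (K := AS δ * (1 + |τ|)) (fun z a b => gqS_diff h hδ h1 h2 a b) fun z a b => ?_
  refine (gqS_bd h hδ h1 h2 hδ1 a b).trans ?_
  rw [mul_assoc]
  refine mul_le_mul_of_nonneg_left ?_ hA.le
  have h3 := abs_sub z.re τ
  have h4 := abs_nonneg z.re
  have h5 := abs_nonneg τ
  nlinarith

end strip

/-! ### the sum over the species -/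

theorem sum_F_eq (j : ℝ) (w : ℂ) :
    fq j w + fg j w = ∑ i, (ct i : ℂ) * NUMF.F (w + yv j i * I) := by
  unfold fq fg ct
  rw [show ∀ A B : ℂ, A - (Real.log 2 : ℂ) + (B + (Real.log 2 : ℂ)) = A + B from fun A B => by ring,
    ← Finset.sum_add_distrib]
  refine Finset.sum_congr rfl fun i _ => ?_
  push_cast
  ring

lemma sum_ct_yv (j : ℝ) : ∑ i, ct i * yv j i = Real.pi / 2 * NUO.wnu j := by
  have e : 4 * l = Real.pi / 2 := NUO.four_l
  unfold NUO.wnu yv
  rw [← e]
  have : ∀ i, ct i * (red (av i - j) * l) = l * (ct i * red (av i - j)) := fun i => by ring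
  simp only [this]
  rw [← Finset.mul_sum]
  ring

section asy
variable (h : OffS δ lo hi j) (hδ : 0 < δ) (hδ1 : δ ≤ 1) (h1 : lo ≤ 0) (h2 : 0 ≤ hi)
include h hδ hδ1 h1 h2

/-- **right side** -/
theorem gsum_r (hz1 : lo ≤ z.im) (hz2 : z.im ≤ hi) (hr : τ ≤ z.re) :
    ‖(fq j (z - τ) + fg j (z - τ)) - ((Real.pi * NUO.wnu j : ℝ) : ℂ) * I‖ ≤
      KS δ * Real.exp (-2 * |z.re - τ|) := by
  have hw := fun i => h.im_le (τ := τ) hδ h1 h2 hz1 hz2 i
  have hre : ∀ i, (z - τ + yv j i * I).re = z.re - τ := fun i => by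
    rw [NUO.re_shift]
    simp
  have hs0 : (∑ i, (ct i : ℂ)) = 0 := by
    rw [← Complex.ofReal_sum, NUO.sum_ct, Complex.ofReal_zero]
  have hs1 : (∑ i, (ct i : ℂ) * (yv j i : ℂ)) = ((Real.pi / 2 * NUO.wnu j : ℝ) : ℂ) := by
    rw [← sum_ct_yv, Complex.ofReal_sum]
    refine Finset.sum_congr rfl fun i _ => ?_
    push_cast
    rfl
  have e : (fq j (z - τ) + fg j (z - τ)) - ((Real.pi * NUO.wnu j : ℝ) : ℂ) * I =
      ∑ i, (ct i : ℂ) * (2 * (Complex.log (Complex.cosh (z - τ + yv j i * I)) -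
        ((z - τ + yv j i * I) - Real.log 2))) := by
    rw [sum_F_eq]
    have e1 : ∀ i, (ct i : ℂ) * NUMF.F (z - τ + yv j i * I) =
        (ct i : ℂ) * (2 * (Complex.log (Complex.cosh (z - τ + yv j i * I)) -
          ((z - τ + yv j i * I) - Real.log 2))) + (ct i : ℂ) * (2 * (z - τ) - Real.log 2) +
          ((ct i : ℂ) * (yv j i : ℂ)) * (2 * I) := by
      intro i
      unfold NUMF.F
      ring
    simp only [e1]
    rw [Finset.sum_add_distrib, Finset.sum_add_distrib, ← Finset.sum_mul, ← Finset.sum_mul, hs0, hs1]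
    push_cast
    ring
  rw [e]
  calc ‖∑ i, (ct i : ℂ) * (2 * (Complex.log (Complex.cosh (z - τ + yv j i * I)) -
        ((z - τ + yv j i * I) - Real.log 2)))‖
      ≤ ∑ i, |ct i| * (2 * (3 / Real.sin (δ * l) * Real.exp (-2 * |z.re - τ|))) := by
        refine (norm_sum_le _ _).trans (Finset.sum_le_sum fun i _ => ?_)
        rw [norm_mul, norm_mul, Complex.norm_real, Complex.norm_ofNat, Real.norm_eq_abs]
        have h3 := NUSp.log_cosh_r (b_lt hδ) (hw i) (by rw [hre]; linarith)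
        rw [cos_b, hre] at h3
        exact mul_le_mul_of_nonneg_left (mul_le_mul_of_nonneg_left h3 (by norm_num)) (abs_nonneg _)
    _ = _ := by
        rw [← Finset.sum_mul, NUO.sum_abs_ct]
        unfold KS
        ring

/-- **left side** -/
theorem gsum_l (hz1 : lo ≤ z.im) (hz2 : z.im ≤ hi) (hr : z.re ≤ τ) :
    ‖(fq j (z - τ) + fg j (z - τ)) + ((Real.pi * NUO.wnu j : ℝ) : ℂ) * I‖ ≤
      KS δ * Real.exp (-2 * |z.re - τ|) := by
  have hw := fun i => h.im_le (τ := τ) hδ h1 h2 hz1 hz2 i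
  have hre : ∀ i, (z - τ + yv j i * I).re = z.re - τ := fun i => by
    rw [NUO.re_shift]
    simp
  have hs0 : (∑ i, (ct i : ℂ)) = 0 := by
    rw [← Complex.ofReal_sum, NUO.sum_ct, Complex.ofReal_zero]
  have hs1 : (∑ i, (ct i : ℂ) * (yv j i : ℂ)) = ((Real.pi / 2 * NUO.wnu j : ℝ) : ℂ) := by
    rw [← sum_ct_yv, Complex.ofReal_sum]
    refine Finset.sum_congr rfl fun i _ => ?_
    push_cast
    rfl
  have e : (fq j (z - τ) + fg j (z - τ)) + ((Real.pi * NUO.wnu j : ℝ) : ℂ) * I =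
      ∑ i, (ct i : ℂ) * (2 * (Complex.log (Complex.cosh (z - τ + yv j i * I)) -
        (-(z - τ + yv j i * I) - Real.log 2))) := by
    rw [sum_F_eq]
    have e1 : ∀ i, (ct i : ℂ) * NUMF.F (z - τ + yv j i * I) =
        (ct i : ℂ) * (2 * (Complex.log (Complex.cosh (z - τ + yv j i * I)) -
          (-(z - τ + yv j i * I) - Real.log 2))) + (ct i : ℂ) * (-(2 * (z - τ)) - Real.log 2) -
          ((ct i : ℂ) * (yv j i : ℂ)) * (2 * I) := by
      intro i
      unfold NUMF.F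
      ring
    simp only [e1]
    rw [Finset.sum_sub_distrib, Finset.sum_add_distrib, ← Finset.sum_mul, ← Finset.sum_mul, hs0, hs1]
    push_cast
    ring
  rw [e]
  calc ‖∑ i, (ct i : ℂ) * (2 * (Complex.log (Complex.cosh (z - τ + yv j i * I)) -
        (-(z - τ + yv j i * I) - Real.log 2)))‖
      ≤ ∑ i, |ct i| * (2 * (3 / Real.sin (δ * l) * Real.exp (-2 * |z.re - τ|))) := by
        refine (norm_sum_le _ _).trans (Finset.sum_le_sum fun i _ => ?_)
        rw [norm_mul, norm_mul, Complex.norm_real, Complex.norm_ofNat, Real.norm_eq_abs]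
        have h3 := NUSp.log_cosh_l (b_lt hδ) (hw i) (by rw [hre]; linarith)
        rw [cos_b, hre] at h3
        exact mul_le_mul_of_nonneg_left (mul_le_mul_of_nonneg_left h3 (by norm_num)) (abs_nonneg _)
    _ = _ := by
        rw [← Finset.sum_mul, NUO.sum_abs_ct]
        unfold KS
        ring

/-- **the asymptotics of the sum over the species** -/
theorem gsum_asy : SAsy lo hi (KS δ) 0 0 (Real.pi * NUO.wnu j) τ
    (fun z => fq j (z - τ) + fg j (z - τ)) := by
  refine ⟨fun z a b hr => ?_, fun z a b hr => ?_⟩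
  · have e := gsum_r h hδ hδ1 h1 h2 a b hr
    have e2 : fq j (z - τ) + fg j (z - τ) - (((0 : ℝ) : ℂ) * (z - τ) + ((0 : ℝ) : ℂ) +
        ((Real.pi * NUO.wnu j : ℝ) : ℂ) * I) =
        (fq j (z - τ) + fg j (z - τ)) - ((Real.pi * NUO.wnu j : ℝ) : ℂ) * I := by
      push_cast; ring
    rw [e2]
    exact e
  · have e := gsum_l h hδ hδ1 h1 h2 a b hr
    have e2 : fq j (z - τ) + fg j (z - τ) - (-((0 : ℝ) : ℂ) * (z - τ) + ((0 : ℝ) : ℂ) -
        ((Real.pi * NUO.wnu j : ℝ) : ℂ) * I) =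
        (fq j (z - τ) + fg j (z - τ)) + ((Real.pi * NUO.wnu j : ℝ) : ℂ) * I := by
      push_cast; ring
    rw [e2]
    exact e

end asy

end

end PLT.Cv
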