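import Pool.Agent.PLT.RowX
import Pool.Agent.PLT.ObR

/-!
# One body data over a content at complex places: rows, holes, cutoff

Twin of `ObR` for `c : Bool → List ℂ` (file units); a row `x` is seen at the offset `j l + x.re` and the
height `t - x.im`.

* `prod_psi_X`: the product of `psi` over complex places;
* `PtX n0 h0 de cv V`: the cutoff points `V` are the places `cv` and at most `n0` further points;
* **`ObX`**: one body data with the rows `W` (`RwX`), the cutoff points `V` and a further factor `g`,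
  two sided on the lines; the prices of the cutoff points at the heights `3 β / 4 (t - x.im)`;
* **`ObX.upX`, `loX`, `puX`, `plX6`**: the fields `up`, `lo`, `pu`, `pl` of `ObC` with
  `rw = rwEX c k ex`; **`ObX.obC`**: `ObC` from these, the bracket of `T` and the cutoff of the strings.
-/

set_option autoImplicit false
set_option linter.unusedSectionVars false
set_option linter.unusedVariables false

noncomputable section

open Complex MeasureTheory Set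

namespace PLT

open NUP1 NUGC.PLX PBO.PLX PHK
open NUO (cut posT posS)

private theorem vlr (x t : ℝ) : (vl x t).re = x := by
  unfold vl
  simp

private theorem vli (x t : ℝ) : (vl x t).im = t := by
  unfold vl
  simp

/-! ### the cutoff -/

/-- **a list of complex rows** -/
theorem prod_psi_X {β : ℝ} (hβ0 : 0 < β) (hβ1 : β ≤ 4 / 3) (v t : ℝ) (X : List ℂ)
    (hX : ∀ x ∈ X, -l < v + x.re ∧ v + x.re < 4 * l) :
    ‖(X.map fun x => psi β (vl (l - v) t - x)).prod‖ ≤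
      Real.exp (-(X.map fun x => Ag (v + x.re) (3 * β / 4 * (t - x.im))).sum) := by
  induction X with
  | nil => simp
  | cons x X ih =>
    have i := ih fun y hy => hX y (by simp [hy])
    obtain ⟨a, b⟩ := hX x (by simp)
    have e : vl (l - v) t - x = vl (l - (v + x.re)) (t - x.im) := by
      unfold vl
      apply Complex.ext <;> simp
      ring
    have a1 := psi_le_Ag hβ0 hβ1 a b (t - x.im)
    rw [← e] at a1
    rw [List.map_cons, List.prod_cons, List.map_cons, List.sum_cons, norm_mul,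
      neg_add, Real.exp_add]
    exact mul_le_mul a1 i (norm_nonneg _) (Real.exp_pos _).le

/-- **cutoff points: the places `cv` and at most `n0` further points** -/
structure PtX (n0 : ℕ) (h0 de : ℝ) (cv : List ℂ) (V : List ℂ) : Prop where
  pl : Wdw h0 de cv
  ex : ∃ ex : List ℂ, V.Perm (cv ++ ex) ∧ ex.length ≤ n0 ∧ Wdw h0 de ex

section cutoff
variable {n0 m : ℕ} {h0 de β : ℝ} {cv : List ℂ} {V : List ℂ}

/-- the offsets of the places -/
theorem wdw_off (h : 0 < de) (h1 : de ≤ 1 / 50) {cv : List ℂ} (hw : Wdw h0 de cv) {j : ℝ}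
    (j0 : 1 / 38 < j) (j3 : j ≤ 5 / 2) : ∀ x ∈ cv, -l < j * l + x.re ∧ j * l + x.re < 4 * l := by
  intro x hx
  have hl := l_pos
  obtain ⟨x1, x2, x4⟩ := hw x hx
  have hdl : 0 < de * l := by positivity
  have hj : 1 / 38 * l < j * l := mul_lt_mul_of_pos_right j0 hl
  have hj3 : j * l ≤ 5 / 2 * l := mul_le_mul_of_nonneg_right j3 hl.le
  constructor <;> linarith

/-- **the cutoff from above** on a line where the sum of the level functions is not negative -/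
theorem phi_up_X (hβ0 : 0 < β) (hβ1 : β ≤ 4 / 3) (hh : 0 ≤ h0) (hd : 0 < de) (hd1 : de ≤ 1 / 50)
    (h : PtX n0 h0 de cv V) (hm : 1 ≤ m) {d1 : ℝ} (hd10 : 0 ≤ d1)
    (hlen : ((V.length : ℕ) : ℝ) ≤ d1 * m) {j : ℝ}
    (j0 : 1 / 38 < j) (j3 : j ≤ 5 / 2)
    (t : ℝ) (hS : 0 ≤ (cv.map fun x => Ag (j * l + x.re) (3 * β / 4 * (t - x.im))).sum) :
    ‖phi β V (vl ((1 - j) * l) t)‖ ≤ cPU n0 h0 d1 * cut m β t := by
  have hl := l_pos
  obtain ⟨ex, hp, hn, hw⟩ := h.ex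
  have hK := cK_ge (δ := 1 / 40) (h0 := h0) (by norm_num) (by norm_num) hh
  have r1 := wdw_rwD (t := t) hd hd1 hw j0 j3
  have r2 := wdw_rwD (t := t) hd hd1 h.pl j0 j3
  have hR : RwD (1 / 40) h0 (vl ((1 - j) * l) t) V := rwD_perm hp (rwD_append r2 r1)
  have b1 : ‖(cv.map fun x => psi β (vl ((1 - j) * l) t - x)).prod‖ ≤ 1 := by
    have h3 := prod_psi_X hβ0 hβ1 (j * l) t cv (wdw_off hd hd1 h.pl j0 j3)
    rw [vl_off] at h3
    refine h3.trans ?_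
    rw [Real.exp_le_one_iff, neg_nonpos]
    exact hS
  have b2 := prod_le (u := vl ((1 - j) * l) t) hβ0 hβ1 (by norm_num) (by norm_num) hh r1
  have b3 : ‖(V.map fun x => psi β (vl ((1 - j) * l) t - x)).prod‖ ≤
      Real.exp (cK (1 / 40) h0 * n0) := by
    rw [(hp.map fun x => psi β (vl ((1 - j) * l) t - x)).prod_eq, List.map_append,
      List.prod_append, norm_mul]
    have hE : Real.exp (-(2 * β) * |(vl ((1 - j) * l) t).im|) ≤ 1 := by
      rw [Real.exp_le_one_iff]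
      have := mul_nonneg (mul_nonneg two_pos.le hβ0.le) (abs_nonneg (vl ((1 - j) * l) t).im)
      linarith
    have hE0 := Real.exp_pos (-(2 * β) * |(vl ((1 - j) * l) t).im|)
    have hn' : (ex.length : ℝ) ≤ n0 := by exact_mod_cast hn
    have b4 : Real.exp (cK (1 / 40) h0 * ex.length * Real.exp (-(2 * β) * |(vl ((1 - j) * l) t).im|)) ≤
        Real.exp (cK (1 / 40) h0 * n0) := by
      refine Real.exp_le_exp.2 ?_
      calc cK (1 / 40) h0 * ex.length * Real.exp (-(2 * β) * |(vl ((1 - j) * l) t).im|) ≤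
          cK (1 / 40) h0 * n0 * 1 := by gcongr
        _ = _ := mul_one _
    calc _ ≤ 1 * Real.exp (cK (1 / 40) h0 * n0) :=
          mul_le_mul b1 (b2.trans b4) (norm_nonneg _) zero_le_one
      _ = _ := one_mul _
  have h9 := (phi_up hβ0 hβ1 (by norm_num) (by norm_num) hh hR hm hd10
    (mul_nonneg (by linarith) (Nat.cast_nonneg n0)) hlen b3).2
  rw [vli] at h9
  exact h9

/-- the product over the places from above, with a rate -/
theorem prod_rate_X (hβ0 : 0 < β) (hβ1 : β ≤ 4 / 3) (hd : 0 < de) (hd1 : de ≤ 1 / 50)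
    (hw : Wdw h0 de cv) {cP : ℝ} {j : ℝ} (j0 : 1 / 38 < j) (j3 : j ≤ 5 / 2) (t : ℝ)
    (hS : cP * (m * Real.exp (-(2 * β) * |t|)) ≤
      (cv.map fun x => Ag (j * l + x.re) (3 * β / 4 * (t - x.im))).sum) :
    ‖(cv.map fun x => psi β (vl ((1 - j) * l) t - x)).prod‖ ≤
      Real.exp (-(cP * (m * Real.exp (-(2 * β) * |(vl ((1 - j) * l) t).im|)))) := by
  have h3 := prod_psi_X hβ0 hβ1 (j * l) t cv (wdw_off hd hd1 hw j0 j3)
  rw [vl_off] at h3
  refine h3.trans (Real.exp_le_exp.2 (neg_le_neg ?_))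
  rw [vli]
  exact hS

/-- **the cutoff from below** on a line of the holes -/
theorem phi_lo_X (hβ0 : 0 < β) (hβ1 : β ≤ 4 / 3) (hh : 0 ≤ h0) (hd : 0 < de) (hd1 : de ≤ 1 / 50)
    (h : PtX n0 h0 de cv V) {cP : ℝ} (hc : 0 < cP) (hm1 : 1 ≤ m)
    (hm : cK (1 / 40) h0 * n0 ≤ cP / 2 * m) {j : ℝ} (j0 : 1 / 38 < j) (j3 : j ≤ 5 / 2) (t : ℝ)
    (hS : cP * (m * Real.exp (-(2 * β) * |t|)) ≤
      (cv.map fun x => Ag (j * l + x.re) (3 * β / 4 * (t - x.im))).sum) :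
    ‖phi β V (vl ((1 - j) * l) t)‖⁻¹ ≤ 2 * (min 1 (cP / 2))⁻¹ * (cut m β t)⁻¹ := by
  have hl := l_pos
  obtain ⟨ex, hp, hn, hw⟩ := h.ex
  have r1 := wdw_rwD (t := t) hd hd1 hw j0 j3
  have h3 := phi_low hβ0 hβ1 (by norm_num : (0 : ℝ) < 1 / 40) (by norm_num) hh hp r1 hc.le
    (prod_rate_X hβ0 hβ1 hd hd1 h.pl j0 j3 t hS) hn hm
  rw [vli] at h3
  have h0 : 0 < min 1 (cP / 2) := lt_min one_pos (by positivity)
  have h4 := PHK.cut_pos (m := m) hm1 β t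
  have h5 : 0 < min 1 (cP / 2) / 2 * cut m β t := by positivity
  refine (inv_anti₀ h5 h3).trans (le_of_eq ?_)
  rw [mul_inv, inv_div]
  ring

/-- **no zero of the cutoff** on a line of the holes -/
theorem phi_ne_X (hβ0 : 0 < β) (hβ1 : β ≤ 4 / 3) (hh : 0 ≤ h0) (hd : 0 < de) (hd1 : de ≤ 1 / 50)
    (h : PtX n0 h0 de cv V) {cP : ℝ} (hc : 0 < cP) (hm1 : 1 ≤ m)
    (hm : cK (1 / 40) h0 * n0 ≤ cP / 2 * m) {j : ℝ} (j0 : 1 / 38 < j) (j3 : j ≤ 5 / 2) (t : ℝ)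
    (hS : cP * (m * Real.exp (-(2 * β) * |t|)) ≤
      (cv.map fun x => Ag (j * l + x.re) (3 * β / 4 * (t - x.im))).sum) :
    phi β V (vl ((1 - j) * l) t) ≠ 0 := by
  obtain ⟨ex, hp, hn, hw⟩ := h.ex
  exact phi_ne hβ0 hβ1 (by norm_num : (0 : ℝ) < 1 / 40) (by norm_num) hh hp
    (wdw_rwD (t := t) hd hd1 hw j0 j3) hc hm1 (prod_rate_X hβ0 hβ1 hd hd1 h.pl j0 j3 t hS) hn hm

end cutoff

/-! ### the one body data -/

/-- one body data with the rows `W`, the cutoff points `V`, a further factor `g`; `c` the common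
content, `k` the rows of the sea which are not in it, `cv` the places of the cutoff points -/
structure ObX (n0 miss : ℕ) (h0 de G c0 d1 cP : ℝ) (P : Par6) (c cv : Bool → List ℂ)
    (k : Bool → ℕ) (ex : Bool → List ℂ) (m : ℕ) (β : ℝ) (B : OB) (W V : Bool → List ℂ) (g : Bool → ℂ → ℝ) : Prop where
  cc : 0 < c0
  one_le : 1 ≤ d1
  G0 : 0 ≤ G
  cP0 : 0 < cP
  m0 : 1 ≤ m
  mL : cK (1 / 40) h0 * n0 ≤ cP / 2 * m
  β0 : 0 < β
  β1 : β ≤ 4 / 3
  rows : RwX n0 h0 de miss c k ex W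
  pts : ∀ a, PtX n0 h0 de (cv a) (V a)
  lenV : ∀ a, ((V a).length : ℝ) ≤ d1 * m
  prU : ∀ j ∈ [P.jL, P.e], ∀ (a : Bool) (t : ℝ),
    0 ≤ ((cv a).map fun x => Ag (j * l + x.re) (3 * β / 4 * (t - x.im))).sum
  prL : ∀ j ∈ loL P, ∀ (a : Bool) (t : ℝ), cP * (m * Real.exp (-(2 * β) * |t|)) ≤
    ((cv a).map fun x => Ag (j * l + x.re) (3 * β / 4 * (t - x.im))).sum
  R : ∀ a u, B.R a u = c0 * rwL W a u * g a u
  φ : ∀ a, B.φ a = phi β (V a)
  gp : ∀ a u, 0 ≤ g a u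
  gu : ∀ j ∈ upL P, ∀ (a : Bool) (t : ℝ), g a (vl ((1 - j) * l) t) ≤ G
  gl : ∀ j ∈ loL P, ∀ (a : Bool) (t : ℝ), (g a (vl ((1 - j) * l) t))⁻¹ ≤ G

section data
variable {n0 miss : ℕ} {h0 de G c0 d1 cP : ℝ} {P : Par6} {c cv : Bool → List ℂ} {k : Bool → ℕ}
  {ex : Bool → List ℂ} {m : ℕ} {β : ℝ} {B : OB} {W V : Bool → List ℂ} {g : Bool → ℂ → ℝ}

theorem cOX_ge (h : ObX n0 miss h0 de G c0 d1 cP P c cv k ex m β B W V g) :
    c0 * cRE n0 h0 de * G ≤ cOE n0 h0 de G c0 d1 cP ∧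
    c0⁻¹ * cRE n0 h0 de * G ≤ cOE n0 h0 de G c0 d1 cP ∧
    cPU n0 h0 d1 ≤ cOE n0 h0 de G c0 d1 cP ∧
    2 * (min 1 (cP / 2))⁻¹ ≤ cOE n0 h0 de G c0 d1 cP := by
  have hT := cRE_pos (n0 := n0) h.rows.hh h.rows.de0 h.rows.de1
  have a1 : 0 ≤ c0 * cRE n0 h0 de * G := mul_nonneg (mul_pos h.cc hT).le h.G0
  have a2 : 0 ≤ c0⁻¹ * cRE n0 h0 de * G := mul_nonneg (mul_pos (inv_pos.2 h.cc) hT).le h.G0
  have a3 : 0 ≤ cPU n0 h0 d1 := cPU_nonneg h.rows.hh (by linarith [h.one_le])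
  have a4 : 0 ≤ 2 * (min 1 (cP / 2))⁻¹ := by
    have := h.cP0
    positivity
  have e : cOE n0 h0 de G c0 d1 cP = c0 * cRE n0 h0 de * G + c0⁻¹ * cRE n0 h0 de * G +
      cPU n0 h0 d1 + 2 * (min 1 (cP / 2))⁻¹ := by
    unfold cOE
    ring
  rw [e]
  refine ⟨?_, ?_, ?_, ?_⟩ <;> linarith

theorem ObX.nn (h : ObX n0 miss h0 de G c0 d1 cP P c cv k ex m β B W V g) : B.Nn := fun a u => by
  rw [h.R]
  exact mul_nonneg (mul_nonneg h.cc.le (rwL_nonneg W a u)) (h.gp a u)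

/-- **field `up`** -/
theorem ObX.upX (h : ObX n0 miss h0 de G c0 d1 cP P c cv k ex m β B W V g) (hP : LnT P) {j : ℝ}
    (hj : j ∈ upL P) (a : Bool) (t : ℝ) :
    B.R a (vl ((1 - j) * l) t) ≤ cOE n0 h0 de G c0 d1 cP * rwEX c k ex a (vl ((1 - j) * l) t) := by
  have h1 := up_X h.rows a (up_re_T hP hj t).1 (up_re_T hP hj t).2
  have h2 := h.gu j hj a t
  have h3 := rwEX_nonneg c k ex a (vl ((1 - j) * l) t)
  have h4 := (cOX_ge h).1
  have h5 := rwL_nonneg W a (vl ((1 - j) * l) t)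
  have h6 := h.gp a (vl ((1 - j) * l) t)
  have hc := h.cc
  have hT := cRE_pos (n0 := n0) h.rows.hh h.rows.de0 h.rows.de1
  have hG := h.G0
  rw [h.R]
  calc c0 * rwL W a (vl ((1 - j) * l) t) * g a (vl ((1 - j) * l) t) ≤
      c0 * (cRE n0 h0 de * rwEX c k ex a (vl ((1 - j) * l) t)) * G := by gcongr
    _ = c0 * cRE n0 h0 de * G * rwEX c k ex a (vl ((1 - j) * l) t) := by ring
    _ ≤ _ := mul_le_mul_of_nonneg_right h4 h3

/-- **field `lo`** -/
theorem ObX.loX (h : ObX n0 miss h0 de G c0 d1 cP P c cv k ex m β B W V g) (hP : LnT P)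
    {j : ℝ} (hj : j ∈ loL P) (a : Bool) (t : ℝ) :
    (B.R a (vl ((1 - j) * l) t))⁻¹ ≤
      cOE n0 h0 de G c0 d1 cP * (rwEX c k ex a (vl ((1 - j) * l) t))⁻¹ := by
  obtain ⟨r1, r2⟩ := lo_re_T hP hj t
  have h1 := inv_X h.rows a r1 r2
  have h2 := h.gl j hj a t
  have h3 := inv_nonneg.2 (rwEX_nonneg c k ex a (vl ((1 - j) * l) t))
  have h4 := (cOX_ge h).2.1
  have h5 := inv_nonneg.2 (rwL_nonneg W a (vl ((1 - j) * l) t))
  have h6 := inv_nonneg.2 (h.gp a (vl ((1 - j) * l) t))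
  have hc := inv_pos.2 h.cc
  have hT := cRE_pos (n0 := n0) h.rows.hh h.rows.de0 h.rows.de1
  have hG := h.G0
  rw [h.R, mul_inv, mul_inv]
  calc c0⁻¹ * (rwL W a (vl ((1 - j) * l) t))⁻¹ * (g a (vl ((1 - j) * l) t))⁻¹ ≤
      c0⁻¹ * (cRE n0 h0 de * (rwEX c k ex a (vl ((1 - j) * l) t))⁻¹) * G := by gcongr
    _ = c0⁻¹ * cRE n0 h0 de * G * (rwEX c k ex a (vl ((1 - j) * l) t))⁻¹ := by ring
    _ ≤ _ := mul_le_mul_of_nonneg_right h4 h3

/-- **field `pu`** -/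
theorem ObX.puX (h : ObX n0 miss h0 de G c0 d1 cP P c cv k ex m β B W V g) (hP : LnT P) {j : ℝ}
    (hj : j ∈ [P.jL, P.e]) (a : Bool) (t : ℝ) :
    ‖B.φ a (vl ((1 - j) * l) t)‖ ≤ cOE n0 h0 de G c0 d1 cP * cut m β t := by
  have h1 := hP.e48
  have h2 := hP.e13
  have h3 := hP.L2
  have h4 := hP.Lj
  have h5 := hP.j1e
  have hlen := h.lenV a
  rw [h.φ]
  refine le_trans ?_ (mul_le_mul_of_nonneg_right (cOX_ge h).2.2.1 (NUO.cut_nonneg _ _ _))
  have key : ∀ i : ℝ, 1 / 38 < i → i ≤ 5 / 2 →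
      0 ≤ ((cv a).map fun x => Ag (i * l + x.re) (3 * β / 4 * (t - x.im))).sum →
      ‖phi β (V a) (vl ((1 - i) * l) t)‖ ≤ cPU n0 h0 d1 * cut m β t := fun i i1 i2 hS =>
    phi_up_X h.β0 h.β1 h.rows.hh h.rows.de0 h.rows.de1 (h.pts a) h.m0 (by linarith [h.one_le])
      hlen i1 i2 t hS
  have hS := h.prU j hj a t
  simp only [List.mem_cons, List.not_mem_nil, or_false] at hj
  rcases hj with rfl | rfl
  · exact key _ (by linarith) (by linarith) hS
  · exact key _ (by linarith) (by linarith) hS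

/-- **field `pl`** -/
theorem ObX.plX6 (h : ObX n0 miss h0 de G c0 d1 cP P c cv k ex m β B W V g) (hP : LnT P) {j : ℝ}
    (hj : j ∈ loL P) (a : Bool) (t : ℝ) :
    ‖B.φ a (vl ((1 - j) * l) t)‖⁻¹ ≤ cOE n0 h0 de G c0 d1 cP * (cut m β t)⁻¹ := by
  obtain ⟨i1, i2⟩ := lo_j_T hP hj
  have h1 := phi_lo_X h.β0 h.β1 h.rows.hh h.rows.de0 h.rows.de1 (h.pts a) h.cP0 h.m0 h.mL i1 i2 t
    (h.prL j hj a t)
  have hc := PHK.cut_pos (m := m) h.m0 β t
  rw [h.φ]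
  exact h1.trans (mul_le_mul_of_nonneg_right (cOX_ge h).2.2.2 (inv_pos.2 hc).le)

/-- **`ObC` from the rows and the three statements on the strings** -/
theorem ObX.obC (h : ObX n0 miss h0 de G c0 d1 cP P c cv k ex m β B W V g) (hP : LnT P)
    {C T1 : ℝ} (hC : cOE n0 h0 de G c0 d1 cP ≤ C) {pT : Bool → ℝ → ℝ}
    (pTu : ∀ (a : Bool) (t : ℝ), 1 ≤ |t| → m * Real.exp (-(2 * β) * |t|) ≤ 1 →
      pT a t ≤ C * (m * Real.exp (-(8 / 3) * |t|)))
    (br1 : ∀ (a : Bool) (t : ℝ), ‖B.φ a (posT t) * B.φ a (posT t - l) - B.φ0 a (posT t)‖ ≤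
      C * Real.exp (-pT a t))
    (br2 : ∀ (a : Bool) (t : ℝ), ‖B.φ a (posT t) * B.φ a (posT t - l) - B.φ0 a (posT t)‖ ≤
      C * cut m β t)
    (p0 : ∀ (a : Bool) (t : ℝ), ‖B.φ0 a (posS P.e t)‖ ≤
      C * (cut m (4 / 3) t * Real.exp (-(Real.exp (11 / 2 * (|t| - T1)) / 5)))) :
    ObC P C (rwEX c k ex) pT m β T1 B where
  m1 := h.m0
  nn := h.nn
  pTu := pTu
  up j hj a t := (h.upX hP hj a t).trans (mul_le_mul_of_nonneg_right hC (rwEX_nonneg _ _ _ _ _))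
  lo j hj a t := (h.loX hP hj a t).trans
    (mul_le_mul_of_nonneg_right hC (inv_nonneg.2 (rwEX_nonneg _ _ _ _ _)))
  pu j hj a t := (h.puX hP hj a t).trans (mul_le_mul_of_nonneg_right hC (NUO.cut_nonneg _ _ _))
  pl j hj a t := (h.plX6 hP hj a t).trans
    (mul_le_mul_of_nonneg_right hC (inv_nonneg.2 (NUO.cut_nonneg _ _ _)))
  br1 := br1
  br2 := br2
  p0 := p0

end data

end PLT

end
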