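import Pool.Agent.PLT.TriA

/-!
# Exact densities of two lists of charges, with uniform constants (helper8, row B1d)

For lists `O`, `X` (coefficient, offset) with all offsets in `[-(4 - κ), 4 - κ]`, `∑ c = q` over `O`, `-q` over `X`:
**`list_chg : Chg (-κ) q (hs O - q log 2) (hs X + q log 2) ..`** and the constants of the symbols depend only on
`∑ |c|`: `GrC C (-κ) F` (symbols with the constant `C`), `inv_u` (decay of the inverse transform).
-/

set_option autoImplicit false

open MeasureTheory Set Filter Topology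

namespace PLT.Tri

noncomputable section

open NUMF (l l_pos g h V Lh Uh ck1 sk sk_pos)
open NUC43

variable {α β κ C D q : ℝ} {F G : ℂ → ℂ}

/-! ### symbols with a constant -/

/-- symbols of growth `α` with the constant `C` -/
structure GrC (C α : ℝ) (F : ℂ → ℂ) : Prop where
  diff : ∀ z : ℂ, |z.im| ≤ 5 / 2 → DifferentiableAt ℂ F z
  bd : ∀ z : ℂ, |z.im| ≤ 5 / 2 → ‖F z‖ ≤ C * Real.exp (α * (l * |z.re|))
  even : ∀ z, F (-z) = F z
  real : ∀ x : ℝ, (F x).im = 0

lemma GrC.gr (h : GrC C α F) : Gr α F := ⟨h.diff, ⟨C, h.bd⟩, h.even, h.real⟩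

lemma GrC.C0 (h : GrC C α F) : 0 ≤ C := by
  have := h.bd 0 (by rw [Complex.zero_im, abs_zero]; norm_num)
  simp at this
  exact (norm_nonneg _).trans this

lemma GrC.of (h : Gr α F) : ∃ C, 0 ≤ C ∧ GrC C α F := by
  obtain ⟨C, hC, H⟩ := h.bd'
  exact ⟨C, hC, h.diff, H, h.even, h.real⟩

lemma GrC.mono (h : GrC C α F) (hab : α ≤ β) (hC : C ≤ D) : GrC D β F := by
  refine ⟨h.diff, fun z hz => (h.bd z hz).trans ?_, h.even, h.real⟩
  have hl := l_pos
  have h0 := h.C0
  have h1 : 0 ≤ l * |z.re| := mul_nonneg hl.le (abs_nonneg _)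
  exact mul_le_mul hC (Real.exp_le_exp.2 (mul_le_mul_of_nonneg_right hab h1)) (Real.exp_pos _).le (h0.trans hC)

lemma GrC.add (hF : GrC C α F) (hG : GrC D α G) : GrC (C + D) α (fun z => F z + G z) :=
  ⟨fun z hz => (hF.diff z hz).add (hG.diff z hz), fun z hz => by
    rw [add_mul]
    exact (norm_add_le _ _).trans (add_le_add (hF.bd z hz) (hG.bd z hz)), fun z => by
    simp only [hF.even, hG.even], fun x => by rw [Complex.add_im, hF.real, hG.real, add_zero]⟩

lemma GrC.smul (hF : GrC C α F) (c : ℝ) : GrC (|c| * C) α (fun z => (c : ℂ) * F z) :=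
  ⟨fun z hz => (hF.diff z hz).const_mul _, fun z hz => by
    rw [norm_mul, Complex.norm_real, Real.norm_eq_abs, mul_assoc]
    exact mul_le_mul_of_nonneg_left (hF.bd z hz) (abs_nonneg _), fun z => by simp only [hF.even],
    fun x => by rw [Complex.im_ofReal_mul, hF.real, mul_zero]⟩

lemma GrC.congr (h : GrC C α F) (hFG : ∀ z, G z = F z) : GrC C α G := by
  have : G = F := funext hFG
  rw [this]
  exact h

lemma GrC.neg (hF : GrC C α F) : GrC C α (fun z => -F z) := by
  have h := hF.smul (-1)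
  rw [abs_neg, abs_one, one_mul] at h
  exact h.congr fun z => by push_cast; ring

lemma GrC.sub (hF : GrC C α F) (hG : GrC D α G) : GrC (C + D) α (fun z => F z - G z) :=
  (hF.add hG.neg).congr fun z => by ring

lemma GrC.mul {γ : ℝ} (hF : GrC C α F) (hG : GrC D β G) (h : α + β = γ) : GrC (C * D) γ (fun z => F z * G z) := by
  subst h
  refine ⟨fun z hz => (hF.diff z hz).mul (hG.diff z hz), fun z hz => ?_, fun z => ?_, fun x => ?_⟩
  · rw [norm_mul, add_mul, Real.exp_add]
    have h1 := hF.C0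
    calc ‖F z‖ * ‖G z‖ ≤ (C * Real.exp (α * (l * |z.re|))) * (D * Real.exp (β * (l * |z.re|))) :=
          mul_le_mul (hF.bd z hz) (hG.bd z hz) (norm_nonneg _) (by positivity)
      _ = _ := by ring
  · simp only [hF.even, hG.even]
  · rw [Complex.mul_im, hF.real, hG.real, mul_zero, zero_mul, add_zero]

/-- `∫ exp (-κ l |s|)` -/
def Jk (κ : ℝ) : ℝ := ∫ s : ℝ, Real.exp (-(κ * l) * |s|)

lemma Jk0 (κ : ℝ) : 0 ≤ Jk κ := integral_nonneg fun _ => (Real.exp_pos _).le

/-- **uniform decay of the inverse transform** -/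
theorem inv_u (h : GrC C (-κ) F) (hk : 0 < κ) (t : ℝ) : |inv F t| ≤ C * Jk κ * Real.exp (-(5 / 2) * |t|) := by
  have hpi := Real.pi_pos
  have hl := l_pos
  have hC0 := h.C0
  have hC := h.bd
  have hα : -κ < 0 := by linarith
  obtain ⟨k, hkd⟩ : ∃ k, k = κ * l := ⟨_, rfl⟩
  have hk0 : 0 < k := by rw [hkd]; positivity
  have hint := NUMF.int_exp_abs hk0
  have hJ0 := Jk0 κ
  have hJ : (∫ s : ℝ, Real.exp (-k * |s|)) = Jk κ := by rw [hkd]; rfl
  have key : ∀ t : ℝ, 0 ≤ t → |inv F t| ≤ C * Jk κ * Real.exp (-(5 / 2) * t) := by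
    intro t ht
    obtain ⟨Φ, hΦ⟩ : ∃ Φ : ℂ → ℂ, Φ = fun z => F z * Complex.exp (Complex.I * t * z) := ⟨_, rfl⟩
    have hn : ∀ z : ℂ, ‖Complex.exp (Complex.I * t * z)‖ = Real.exp (-(t * z.im)) :=
      fun z => NUMF.norm_exp_ik t z
    have hd : ∀ z : ℂ, |z.im| ≤ 5 / 2 → DifferentiableAt ℂ Φ z := fun z hz => by
      rw [hΦ]
      exact (h.diff z hz).mul (by fun_prop)
    have hbz : ∀ z : ℂ, |z.im| ≤ 5 / 2 → ‖Φ z‖ ≤ C * Real.exp (-k * |z.re|) * Real.exp (-(t * z.im)) := by
      intro z hz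
      rw [hΦ]
      simp only
      rw [norm_mul, hn]
      have := hC z hz
      have e : -κ * (l * |z.re|) = -k * |z.re| := by rw [hkd]; ring
      rw [e] at this
      gcongr
    obtain ⟨i0, i1, e⟩ := NUMF.hshift (Φ := Φ) (θ := 5 / 2) (C := C) (κ := k) (by norm_num) hk0
      (fun z hz => (hd z (abs_le.2 ⟨by linarith [hz.1], hz.2⟩)).continuousAt.continuousWithinAt)
      (fun z h1 h2 => hd z (abs_le.2 ⟨by linarith, by linarith⟩))
      (fun z h1 h2 _ => by
        refine (hbz z (abs_le.2 ⟨by linarith, h2⟩)).trans ?_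
        have h3 : Real.exp (-(t * z.im)) ≤ 1 := Real.exp_le_one_iff.2 (by
          have := mul_nonneg ht h1
          linarith)
        have h4 : 0 ≤ C * Real.exp (-k * |z.re|) := by positivity
        nlinarith)
    have h5 := h.gr.inv_eq hα t
    have h6 : ‖∫ s : ℝ, Φ (s + ((5 / 2 : ℝ) : ℂ) * Complex.I)‖ ≤ C * Jk κ * Real.exp (-(5 / 2) * t) := by
      refine (norm_integral_le_integral_norm _).trans ?_
      have h7 : ∀ s : ℝ, ‖Φ (s + ((5 / 2 : ℝ) : ℂ) * Complex.I)‖ ≤
          C * Real.exp (-(5 / 2) * t) * Real.exp (-k * |s|) := by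
        intro s
        have e1 : ((s : ℂ) + ((5 / 2 : ℝ) : ℂ) * Complex.I).im = 5 / 2 := by simp
        have e2 : ((s : ℂ) + ((5 / 2 : ℝ) : ℂ) * Complex.I).re = s := by simp
        have := hbz (s + ((5 / 2 : ℝ) : ℂ) * Complex.I) (by rw [e1]; norm_num)
        rw [e1, e2] at this
        refine this.trans (le_of_eq ?_)
        rw [show -(t * (5 / 2)) = -(5 / 2) * t by ring]
        ring
      refine (integral_mono i1.norm (hint.const_mul _) h7).trans (le_of_eq ?_)
      rw [integral_const_mul, hJ]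
      ring
    have h8 : |2 * Real.pi * inv F t| ≤ C * Jk κ * Real.exp (-(5 / 2) * t) := by
      rw [h5]
      refine (Complex.abs_re_le_norm _).trans ?_
      have e9 : (∫ s : ℝ, F s * Complex.exp (Complex.I * t * s)) = ∫ s : ℝ, Φ s := by rw [hΦ]
      rw [e9, e]
      exact h6
    rw [abs_mul, abs_of_pos (by positivity : 0 < 2 * Real.pi)] at h8
    have h9 := abs_nonneg (inv F t)
    have h10 : 1 ≤ 2 * Real.pi := by linarith [Real.pi_gt_three]
    nlinarith
  rcases abs_cases t with ⟨h1, h2⟩ | ⟨h1, h2⟩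
  · rw [h1]
    exact key t h2
  · rw [h1, ← inv_neg']
    exact key (-t) (by linarith)

/-! ### `(cosh (a l z) - 1) / (cosh (l z) - 1)` -/

/-- `sinh (a l z / 2) / sinh (l z / 2)` -/
def dz0 (a : ℝ) (z : ℂ) : ℂ := a * (shc ((a / 2 * l : ℝ) * z) * (shc ((1 / 2 * l : ℝ) * z))⁻¹)

/-- `(cosh (a l z) - 1) / (cosh (l z) - 1)` -/
def dz (a : ℝ) (z : ℂ) : ℂ := dz0 a z * dz0 a z

lemma shc_half_ne {z : ℂ} (hz : |z.im| ≤ 5 / 2) : 2 / Real.pi ≤ ‖shc ((1 / 2 * l : ℝ) * z)‖ := by
  have hl := l_pos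
  have hpi := Real.pi_pos
  refine shc_ge ?_
  rw [im_al, abs_mul, abs_of_pos (by positivity : (0 : ℝ) < 1 / 2 * l)]
  have h1 : 1 / 2 * l * |z.im| ≤ 1 / 2 * l * (5 / 2) := by gcongr
  refine h1.trans ?_
  unfold NUMF.l
  linarith

lemma dz0_bd {a : ℝ} (ha : |a| ≤ 4) {z : ℂ} (hz : |z.im| ≤ 5 / 2) :
    ‖dz0 a z‖ ≤ 16 * Real.exp ((|a| - 1) * (l * |z.re| / 2)) := by
  have hl := l_pos
  have hpi := Real.pi_pos
  have hpi4 := Real.pi_lt_four
  have h0 := shc_half_ne hz
  obtain ⟨x, hx⟩ : ∃ x, x = l * |z.re| / 2 := ⟨_, rfl⟩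
  have hx0 : 0 ≤ x := by rw [hx]; positivity
  have ha0 := abs_nonneg a
  rw [← hx]
  have hr1 : |((((1 / 2 * l : ℝ)) : ℂ) * z).re| = x := by
    rw [re_al, abs_mul, abs_of_pos (by positivity : (0 : ℝ) < 1 / 2 * l), hx]
    ring
  have hr2 : |((((a / 2 * l : ℝ)) : ℂ) * z).re| = |a| * x := by
    rw [re_al, abs_mul, abs_mul, abs_div, abs_two, abs_of_pos hl, hx]
    ring
  rcases le_or_gt (1 / 4) x with h4 | h4
  · -- far
    have hzne : z ≠ 0 := by
      intro hz0
      rw [hx, hz0] at h4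
      simp at h4
      linarith
    have hw : (((1 / 2 * l : ℝ)) : ℂ) * z ≠ 0 := mul_ne_zero (by
      have : (1 / 2 * l : ℝ) ≠ 0 := by positivity
      exact_mod_cast this) hzne
    have e1 : dz0 a z = Complex.sinh (((a / 2 * l : ℝ) : ℂ) * z) / Complex.sinh (((1 / 2 * l : ℝ) : ℂ) * z) := by
      unfold dz0
      rcases eq_or_ne a 0 with rfl | ha
      · simp
      · have hwa : (((a / 2 * l : ℝ)) : ℂ) * z ≠ 0 := mul_ne_zero (by
          have : (a / 2 * l : ℝ) ≠ 0 := by positivity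
          exact_mod_cast this) hzne
        rw [shc_of_ne hw, shc_of_ne hwa]
        have hac : (a : ℂ) ≠ 0 := by exact_mod_cast ha
        have hlc : (l : ℂ) ≠ 0 := by exact_mod_cast hl.ne'
        push_cast
        field_simp
    have h5 : Real.exp x / 8 ≤ ‖Complex.sinh ((((1 / 2 * l : ℝ)) : ℂ) * z)‖ := by
      refine le_trans ?_ (sinh_abs_le_norm _)
      rw [hr1, Real.sinh_eq]
      have h6 : Real.exp (-x) ≤ 3 / 4 * Real.exp x := by
        have h7 : Real.exp (-x) * Real.exp (-x) ≤ 3 / 4 := by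
          rw [← Real.exp_add]
          have h8 : Real.exp (-x + -x) ≤ Real.exp (-(1 / 2)) := Real.exp_le_exp.2 (by linarith)
          have h9 : Real.exp (-(1 / 2)) ≤ 3 / 4 := by
            rw [Real.exp_neg, inv_le_comm₀ (Real.exp_pos _) (by norm_num)]
            have := Real.add_one_le_exp (1 / 2 : ℝ)
            linarith
          linarith
        have h10 : Real.exp (-x) = Real.exp (-x) * Real.exp (-x) * Real.exp x := by
          rw [mul_assoc, ← Real.exp_add (-x) x, neg_add_cancel, Real.exp_zero, mul_one]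
        rw [h10]
        exact mul_le_mul_of_nonneg_right h7 (Real.exp_pos _).le
      linarith
    have h6 : ‖Complex.sinh ((((a / 2 * l : ℝ)) : ℂ) * z)‖ ≤ Real.exp (|a| * x) := by
      have := norm_sinh_le_exp ((((a / 2 * l : ℝ)) : ℂ) * z)
      rwa [hr2] at this
    rw [e1, norm_div, div_le_iff₀ (lt_of_lt_of_le (by positivity) h5)]
    have h7 : Real.exp (|a| * x) ≤ 16 * Real.exp ((|a| - 1) * x) * (Real.exp x / 8) := by
      have e : Real.exp (|a| * x) = Real.exp ((|a| - 1) * x) * Real.exp x := by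
        rw [← Real.exp_add]
        congr 1
        ring
      rw [e]
      have := mul_pos (Real.exp_pos ((|a| - 1) * x)) (Real.exp_pos x)
      linarith
    calc _ ≤ Real.exp (|a| * x) := h6
      _ ≤ 16 * Real.exp ((|a| - 1) * x) * (Real.exp x / 8) := h7
      _ ≤ _ := mul_le_mul_of_nonneg_left h5 (by positivity)
  · -- near
    unfold dz0
    rw [norm_mul, norm_mul, Complex.norm_real, Real.norm_eq_abs, norm_inv]
    have h5 : ‖shc ((((a / 2 * l : ℝ)) : ℂ) * z)‖ ≤ Real.cosh 1 := by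
      refine (shc_le _).trans ?_
      rw [Real.cosh_le_cosh, hr2, abs_one]
      nlinarith
    have h6 : (‖shc ((((1 / 2 * l : ℝ)) : ℂ) * z)‖)⁻¹ ≤ Real.pi / 2 := by
      rw [inv_le_comm₀ (lt_of_lt_of_le (by positivity) h0) (by positivity), inv_div]
      exact h0
    have h7 : Real.cosh 1 ≤ 31 / 20 := by
      rw [Real.cosh_eq]
      have h8 := Real.exp_one_lt_d9
      have h9 := Real.exp_neg_one_lt_d9
      linarith
    have h8 : 3 / 4 ≤ Real.exp ((|a| - 1) * x) := by
      have h9 : -(1 / 4 : ℝ) ≤ (|a| - 1) * x := by nlinarith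
      have h10 := Real.add_one_le_exp (-(1 / 4) : ℝ)
      have h11 := Real.exp_le_exp.2 h9
      linarith
    have hs0 : 0 ≤ ‖shc ((((1 / 2 * l : ℝ)) : ℂ) * z)‖⁻¹ := by positivity
    calc |a| * (‖shc ((((a / 2 * l : ℝ)) : ℂ) * z)‖ * (‖shc ((((1 / 2 * l : ℝ)) : ℂ) * z)‖)⁻¹) ≤
          4 * ((31 / 20) * (Real.pi / 2)) := by
          refine mul_le_mul ha (mul_le_mul (h5.trans h7) h6 hs0 (by norm_num)) (by positivity) (by norm_num)
      _ ≤ 16 * (3 / 4) := by
        have := Real.pi_lt_d2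
        linarith
      _ ≤ _ := by linarith

lemma dz0_neg (a : ℝ) (z : ℂ) : dz0 a (-z) = dz0 a z := by
  unfold dz0
  rw [mul_neg, mul_neg, shc_neg, shc_neg]

lemma dz0_im (a x : ℝ) : (dz0 a x).im = 0 := by
  unfold dz0
  rw [← Complex.ofReal_mul, ← Complex.ofReal_mul, Complex.im_ofReal_mul, Complex.mul_im, Complex.inv_im,
    shc_real, shc_real]
  simp

lemma dz_grc {a : ℝ} (ha : |a| ≤ 4) : GrC 256 (|a| - 1) (dz a) := by
  have hpi := Real.pi_pos
  have hd : ∀ z : ℂ, |z.im| ≤ 5 / 2 → DifferentiableAt ℂ (dz0 a) z := by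
    intro z hz
    have h0 := shc_half_ne hz
    have hne : shc ((1 / 2 * l : ℝ) * z) ≠ 0 := norm_pos_iff.1 (lt_of_lt_of_le (by positivity) h0)
    unfold dz0
    have h1 : DifferentiableAt ℂ (fun z : ℂ => shc ((a / 2 * l : ℝ) * z)) z :=
      (shc_diff _).comp z (by fun_prop)
    have h2 : DifferentiableAt ℂ (fun z : ℂ => shc ((1 / 2 * l : ℝ) * z)) z :=
      (shc_diff _).comp z (by fun_prop)
    exact (h1.mul (h2.inv hne)).const_mul _
  refine ⟨fun z hz => (hd z hz).mul (hd z hz), fun z hz => ?_, fun z => ?_, fun x => ?_⟩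
  · unfold dz
    rw [norm_mul]
    have h1 := dz0_bd ha hz
    calc ‖dz0 a z‖ * ‖dz0 a z‖ ≤ (16 * Real.exp ((|a| - 1) * (l * |z.re| / 2))) *
          (16 * Real.exp ((|a| - 1) * (l * |z.re| / 2))) :=
          mul_le_mul h1 h1 (norm_nonneg _) (by positivity)
      _ = 256 * (Real.exp ((|a| - 1) * (l * |z.re| / 2)) * Real.exp ((|a| - 1) * (l * |z.re| / 2))) := by ring
      _ = _ := by
        rw [← Real.exp_add]
        congr 2
        ring
  · unfold dz
    rw [dz0_neg]
  · unfold dz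
    rw [Complex.mul_im, dz0_im]
    ring

lemma dz_real (a : ℝ) {k : ℝ} (hk : 0 < k) : (dz a k).re * (Real.cosh (1 * l * k) - 1) =
    Real.cosh (a * l * k) - 1 := by
  have hl := l_pos
  have hs : 0 < Real.sinh (1 / 2 * l * k) := Real.sinh_pos_iff.2 (by positivity)
  have e1 : dz0 a k = ((Real.sinh (a / 2 * l * k) / Real.sinh (1 / 2 * l * k) : ℝ) : ℂ) := by
    unfold dz0
    rw [← Complex.ofReal_mul, ← Complex.ofReal_mul]
    have hw : ((1 / 2 * l * k : ℝ) : ℂ) ≠ 0 := by
      have : (1 / 2 * l * k : ℝ) ≠ 0 := by positivity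
      exact_mod_cast this
    rcases eq_or_ne a 0 with rfl | ha
    · simp
    · have hwa : ((a / 2 * l * k : ℝ) : ℂ) ≠ 0 := by
        have : (a / 2 * l * k : ℝ) ≠ 0 := by positivity
        exact_mod_cast this
      rw [shc_of_ne hw, shc_of_ne hwa, ← Complex.ofReal_sinh, ← Complex.ofReal_sinh, ← Complex.ofReal_div,
        ← Complex.ofReal_div, ← Complex.ofReal_inv, ← Complex.ofReal_mul, ← Complex.ofReal_mul]
      congr 1
      field_simp
  unfold dz
  rw [e1, ← Complex.ofReal_mul, Complex.ofReal_re]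
  have e2 : Real.cosh (1 * l * k) - 1 = 2 * Real.sinh (1 / 2 * l * k) ^ 2 := by
    rw [show 1 * l * k = 2 * (1 / 2 * l * k) by ring, Real.cosh_two_mul, Real.cosh_sq]
    ring
  have e3 : Real.cosh (a * l * k) - 1 = 2 * Real.sinh (a / 2 * l * k) ^ 2 := by
    rw [show a * l * k = 2 * (a / 2 * l * k) by ring, Real.cosh_two_mul, Real.cosh_sq]
    ring
  rw [e2, e3]
  field_simp

/-! ### lists -/

/-- `∑ c cosh (a l z)` -/
def Nl (L : List (ℝ × ℝ)) (z : ℂ) : ℂ := (L.map fun p => (p.1 : ℂ) * cc p.2 z).sum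

/-- `∑ c (cosh (a l z) - 1) / (cosh (l z) - 1)` -/
def Dl (L : List (ℝ × ℝ)) (z : ℂ) : ℂ := (L.map fun p => (p.1 : ℂ) * dz p.2 z).sum

/-- `∑ |c|` -/
def ca (L : List (ℝ × ℝ)) : ℝ := (L.map fun p => |p.1|).sum

lemma Nl_grc {L : List (ℝ × ℝ)} (hL : ∀ p ∈ L, |p.2| ≤ β) : GrC (ca L) β (Nl L) := by
  induction L with
  | nil =>
    unfold Nl ca
    simp only [List.map_nil, List.sum_nil]
    exact ⟨fun z _ => by fun_prop, fun z _ => by simp, fun z => rfl, fun x => by simp⟩
  | cons p L ih =>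
    have h1 := ih fun q hq => hL q (List.mem_cons_of_mem _ hq)
    have h2 : GrC 1 β (cc p.2) := by
      have h3 : GrC 1 |p.2| (cc p.2) := by
        refine ⟨(gr_cc p.2).diff, fun z _ => ?_, (gr_cc p.2).even, (gr_cc p.2).real⟩
        unfold cc
        refine (NUMF.norm_cosh_le _).trans ((cosh_le_exp_abs _).trans (le_of_eq ?_))
        rw [re_al, one_mul, abs_mul, abs_mul, abs_of_pos l_pos, mul_assoc]
      exact h3.mono (hL p List.mem_cons_self) le_rfl
    have h4 := (h2.smul p.1).add h1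
    unfold Nl ca at h4 ⊢
    simp only [List.map_cons, List.sum_cons]
    rw [mul_one] at h4
    exact h4

lemma Dl_grc {L : List (ℝ × ℝ)} (hL : ∀ p ∈ L, |p.2| ≤ β) (hβ : β ≤ 4) : GrC (256 * ca L) (β - 1) (Dl L) := by
  induction L with
  | nil =>
    unfold Dl ca
    simp only [List.map_nil, List.sum_nil]
    exact ⟨fun z _ => by fun_prop, fun z _ => by simp, fun z => rfl, fun x => by simp⟩
  | cons p L ih =>
    have h1 := ih fun q hq => hL q (List.mem_cons_of_mem _ hq)
    have hp := hL p List.mem_cons_self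
    have h2 : GrC 256 (β - 1) (dz p.2) := (dz_grc (hp.trans hβ)).mono (by linarith) le_rfl
    have h4 := (h2.smul p.1).add h1
    unfold Dl ca at h4 ⊢
    simp only [List.map_cons, List.sum_cons]
    rw [mul_add, mul_comm 256 |p.1|]
    exact h4

lemma Nl_real (L : List (ℝ × ℝ)) (k : ℝ) : Nl L k = ((cs L k : ℝ) : ℂ) := by
  unfold Nl cs
  induction L with
  | nil => simp
  | cons p L ih =>
    simp only [List.map_cons, List.sum_cons]
    rw [ih, cc_real]
    push_cast
    ring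

lemma Dl_real (L : List (ℝ × ℝ)) {k : ℝ} (hk : 0 < k) :
    (Dl L k).re * (Real.cosh (1 * l * k) - 1) = cs L k - cz L := by
  unfold Dl cs cz
  induction L with
  | nil => simp
  | cons p L ih =>
    simp only [List.map_cons, List.sum_cons]
    rw [Complex.add_re, add_mul, ih, Complex.re_ofReal_mul, mul_assoc, dz_real p.2 hk]
    ring

/-- symbol of the sum channel -/
def FL (O X : List (ℝ × ℝ)) (z : ℂ) : ℂ := -(Dl (O ++ X) z * (NUC43.im z * (ip z * ip z)))

/-- symbol of the difference channel -/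
def GmL (O X : List (ℝ × ℝ)) (z : ℂ) : ℂ :=
  -((Nl O z - Nl X z) * ((NUC43.im z * (NUC43.im z * NUC43.im z)) * ih z))

lemma ca_append (L L' : List (ℝ × ℝ)) : ca (L ++ L') = ca L + ca L' := by
  unfold ca; rw [List.map_append, List.sum_append]

lemma ca0 (L : List (ℝ × ℝ)) : 0 ≤ ca L := by
  unfold ca
  exact List.sum_nonneg fun x hx => by
    obtain ⟨p, _, rfl⟩ := List.mem_map.1 hx
    exact abs_nonneg _

/-- **the symbols of two lists, with uniform constants** -/
theorem list_sym : ∃ C0 : ℝ, 0 ≤ C0 ∧ ∀ {κ : ℝ}, 0 ≤ κ → ∀ {O X : List (ℝ × ℝ)}, (∀ p ∈ O, |p.2| ≤ 4 - κ) →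
    (∀ p ∈ X, |p.2| ≤ 4 - κ) → GrC (C0 * (ca O + ca X)) (-κ) (FL O X) ∧ GrC (C0 * (ca O + ca X)) (-κ) (GmL O X) := by
  obtain ⟨A, hA, gA⟩ := GrC.of gr_imip2
  obtain ⟨B, hB, gB⟩ := GrC.of gr_im3ih
  refine ⟨256 * A + B, by positivity, fun {κ} hκ {O X} hO hX => ⟨?_, ?_⟩⟩
  · have h1 : GrC (256 * ca (O ++ X)) (4 - κ - 1) (Dl (O ++ X)) := Dl_grc (fun p hp => by
      rcases List.mem_append.1 hp with h | h
      · exact hO p h
      · exact hX p h) (by linarith)
    have h2 := (h1.mul gA (γ := -κ) (by ring)).neg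
    rw [ca_append] at h2
    refine h2.mono le_rfl ?_
    have := ca0 O
    have := ca0 X
    nlinarith [mul_nonneg hB (add_nonneg (ca0 O) (ca0 X))]
  · have h1 := (Nl_grc hO).sub (Nl_grc hX)
    have h2 := (h1.mul gB (γ := -κ) (by ring)).neg
    refine h2.mono le_rfl ?_
    have := mul_nonneg hA (add_nonneg (ca0 O) (ca0 X))
    nlinarith

/-! ### the charge data -/

lemma U_val (k : ℝ) : Uh k = 2 * Real.pi * ((Real.cosh (1 * l * k) - 1) *
    ((2 * Real.cosh (1 * l * k) - 1) * (2 * Real.cosh (1 * l * k) + 1) ^ 2) / (k * sk k)) := by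
  unfold Uh ck1
  rw [one_mul]
  ring

lemma Um_val (k : ℝ) : Uh k + 2 * Lh k = 2 * Real.pi * ((2 * Real.cosh (1 * l * k) - 1) ^ 3 *
    (Real.cosh (1 * l * k) + 1) / (k * sk k)) := by
  unfold Uh Lh ck1
  rw [one_mul]
  ring

/-- **charge data of two lists** -/
theorem list_chg (hκ : 0 < κ) {O X : List (ℝ × ℝ)} (hO : ∀ p ∈ O, |p.2| ≤ 4 - κ)
    (hX : ∀ p ∈ X, |p.2| ≤ 4 - κ) (zO : cz O = q) (zX : cz X = -q) (hκ3 : κ ≤ 3) :
    Chg (-κ) q (fun t => hs O t - q * Real.log 2) (fun t => hs X t + q * Real.log 2)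
      (fun k => 2 * Real.pi * (cs O k / (k * sk k))) (fun k => 2 * Real.pi * (cs X k / (k * sk k)))
      (FL O X) (GmL O X) := by
  obtain ⟨C0, hC0, HS⟩ := list_sym
  obtain ⟨gF, gG⟩ := HS hκ.le hO hX
  have hone : |(1 : ℝ)| < 4 := by norm_num
  have n1 : ∀ p ∈ O ++ [(-2 * q, 1), (q, 0)], |p.2| < 4 := by
    intro p hp
    rcases List.mem_append.1 hp with h | h
    · have := hO p h
      linarith
    · simp only [List.mem_cons, List.not_mem_nil, or_false] at h
      rcases h with h | h <;> subst h <;> norm_num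
  have n2 : ∀ p ∈ X ++ [(2 * q, 1), (-q, 0)], |p.2| < 4 := by
    intro p hp
    rcases List.mem_append.1 hp with h | h
    · have := hX p h
      linarith
    · simp only [List.mem_cons, List.not_mem_nil, or_false] at h
      rcases h with h | h <;> subst h <;> norm_num
  have z1 : cz (O ++ [(-2 * q, 1), (q, 0)]) = 0 := by
    rw [cz_append, zO]
    unfold cz
    simp
    ring
  have z2 : cz (X ++ [(2 * q, 1), (-q, 0)]) = 0 := by
    rw [cz_append, zX]
    unfold cz
    simp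
    ring
  obtain ⟨i1, r1⟩ := hs_neutral n1 z1
  obtain ⟨i2, r2⟩ := hs_neutral n2 z2
  have c1 : ∀ k, 2 * Real.pi * (cs (O ++ [(-2 * q, 1), (q, 0)]) k / (k * sk k)) =
      2 * Real.pi * (cs O k / (k * sk k)) - q * Lh k := by
    intro k
    rw [cs_append, add_div, mul_add, cs_q]
    ring
  have c2 : ∀ k, 2 * Real.pi * (cs (X ++ [(2 * q, 1), (-q, 0)]) k / (k * sk k)) =
      2 * Real.pi * (cs X k / (k * sk k)) - -q * Lh k := by
    intro k
    have := cs_q (-q) k
    rw [cs_append, add_div, mul_add, show (2 * q) = -2 * -q by ring, this]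
    ring
  simp_rw [c1] at i1 r1
  simp_rw [c2] at i2 r2
  have hh : ∀ (t a b : ℝ), hs [(a, 1), (b, 0)] t = a * h t (1 * l) + b * h t (0 * l) := by
    intro t a b
    unfold hs
    simp
  refine ⟨by linarith, gF.gr, gG.gr, ?_, i1, i2, fun t => ?_, fun t => ?_, fun k hk => ?_, fun k hk => ?_⟩
  · -- charge
    have e0 : GmL O X 0 = ((-((cz O - cz X) * (1 / 2)) : ℝ) : ℂ) := by
      unfold GmL
      have a1 := Nl_real O 0
      have a2 := Nl_real X 0
      have a3 := im_real 0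
      have a4 := ih_real 0
      rw [Complex.ofReal_zero] at a1 a2 a3 a4
      rw [a1, a2, a3, a4]
      have b1 : ∀ L : List (ℝ × ℝ), cs L 0 = cz L := by
        intro L
        unfold cs cz
        simp
      rw [b1, b1]
      simp only [mul_zero, Real.cosh_zero]
      push_cast
      ring
    rw [e0, Complex.ofReal_re, zO, zX]
    ring
  · have := r1 t
    rw [← this, log_g_hs, hs_append, hh, hh]
    ring
  · have := r2 t
    rw [← this, log_g_hs, hs_append, hh, hh]
    ring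
  · -- sum channel
    have hc : 1 < Real.cosh (1 * l * k) := Real.one_lt_cosh.2 (by have := l_pos; positivity)
    have hks := NUMF.ksk_pos hk.ne'
    have e1 : (FL O X k).re = -((Dl (O ++ X) k).re * (1 / (2 * Real.cosh (1 * l * k) - 1) *
        (1 / (2 * Real.cosh (1 * l * k) + 1) * (1 / (2 * Real.cosh (1 * l * k) + 1))))) := by
      unfold FL
      rw [im_real, ip_real, ← Complex.ofReal_mul, ← Complex.ofReal_mul, Complex.neg_re, Complex.re_mul_ofReal]
    have e2 := Dl_real (O ++ X) hk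
    rw [cz_append, zO, zX, cs_append, add_neg_cancel, sub_zero] at e2
    rw [e1, U_val]
    have h1 : (2 * Real.cosh (1 * l * k) - 1) ≠ 0 := by linarith
    have h2 : (2 * Real.cosh (1 * l * k) + 1) ≠ 0 := by linarith
    have h3 : k * sk k ≠ 0 := hks.ne'
    have e3 : 2 * Real.pi * ((Real.cosh (1 * l * k) - 1) *
        ((2 * Real.cosh (1 * l * k) - 1) * (2 * Real.cosh (1 * l * k) + 1) ^ 2) / (k * sk k)) *
        -((Dl (O ++ X) k).re * (1 / (2 * Real.cosh (1 * l * k) - 1) *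
        (1 / (2 * Real.cosh (1 * l * k) + 1) * (1 / (2 * Real.cosh (1 * l * k) + 1))))) =
        -(2 * Real.pi * (((Dl (O ++ X) k).re * (Real.cosh (1 * l * k) - 1)) / (k * sk k))) := by
      generalize Real.cosh (1 * l * k) = x at h1 h2
      generalize k * sk k = y at h3
      field_simp
    rw [e3, e2]
    ring
  · -- difference channel
    have hc : 1 < Real.cosh (1 * l * k) := Real.one_lt_cosh.2 (by have := l_pos; positivity)
    have hks := NUMF.ksk_pos hk.ne'
    have e1 : (GmL O X k).re = -((cs O k - cs X k) * ((1 / (2 * Real.cosh (1 * l * k) - 1) *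
        (1 / (2 * Real.cosh (1 * l * k) - 1) * (1 / (2 * Real.cosh (1 * l * k) - 1)))) *
        (1 / (Real.cosh (1 * l * k) + 1)))) := by
      unfold GmL
      rw [im_real, ih_real, Nl_real, Nl_real, ← Complex.ofReal_mul, ← Complex.ofReal_mul, ← Complex.ofReal_mul,
        ← Complex.ofReal_sub, ← Complex.ofReal_mul, ← Complex.ofReal_neg, Complex.ofReal_re]
    rw [e1, Um_val]
    have h1 : (2 * Real.cosh (1 * l * k) - 1) ≠ 0 := by linarith
    have h2 : (Real.cosh (1 * l * k) + 1) ≠ 0 := by linarith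
    have h3 : k * sk k ≠ 0 := hks.ne'
    generalize Real.cosh (1 * l * k) = x at h1 h2
    generalize k * sk k = y at h3
    field_simp

end

end PLT.Tri
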