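import Pool.Agent.PLT.ObC
import Pool.Agent.PHK.OneAct6

/-!
# One body factors over any sea and the activity `act6`

Twins of `PHK/OneAct6` with the price of a hole as a datum: `κ * (m P t) ≤ v j` on the lines of the
holes, currents `2 π h ≤ κ / 2 * (m P t) + Kh`, constants of `act6`: `c = 7 / 10 * (κ / 2)`, `c2 = 1 / 5`,
growth `6`.

* `kbC_act`: a weight with `KBC` times `exp (- 2 π wind6 h + exc + K0)` is at most `act6`;
* **`one_actC`**: `Mf`, `ObC`: `ob6 B P x * exp (clK cl P x - 2 π wind6 h + exc + K0)` is at most `act6`.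
-/

set_option autoImplicit false

noncomputable section

open Complex MeasureTheory Set

namespace PLT

open NUP1 NUO NUGC.PLX PHK
open NUGC (flat_actG)

theorem hwC_le {m : ℕ} (hm : 1 ≤ m) {β κ v t : ℝ} (hβ : β ≤ 4 / 3) (hv : κ * (m * NUMF.P t) ≤ v) :
    hwC v m β t ≤
      Real.exp (-(κ * (m * NUMF.P t))) * Real.exp (8 / 3 * dT (Tb (Real.log m)) t) := by
  unfold hwC
  exact mul_le_mul (Real.exp_le_exp.2 (by linarith)) (cut_inv6 hm hβ t)
    (inv_nonneg.2 (cut_nonneg _ _ _)) (Real.exp_pos _).le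

/-- a hole: weight `W ≤ B0 hwC`, any exponent `v ≤ κ / 2 * (m P t) + Kh` -/
theorem hole_actC {B0 Kh K0 C κ : ℝ} (hκ : 0 ≤ κ) (hB0 : 0 ≤ B0) (hC : B0 * Real.exp (Kh + K0) ≤ C)
    {m : ℕ} (hm : 3 ≤ m) {β T' t W v p : ℝ} (hβ : β ≤ 4 / 3) (hp : κ * (m * NUMF.P t) ≤ p)
    (hT : Tb (Real.log m) ≤ T') (hv : v ≤ κ / 2 * (m * NUMF.P t) + Kh)
    (hW : W ≤ B0 * hwC p m β t) (k r : ℕ) :
    W * Real.exp (v + exc T' t + K0) ≤ C * ((r : ℝ) + Real.log m) ^ k *
      sup6 (7 / 10 * (κ / 2)) (Real.log m) t * Real.exp (31 / 6 * dT (Tb (Real.log m)) t) := by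
  have hL := log_ge_one hm
  have hm1 : 1 ≤ m := by omega
  have hd : 0 ≤ dT (Tb (Real.log m)) t := le_max_right _ _
  have q1 := hwC_le hm1 hβ hp
  have q2 := supp6 hm1 (κ := κ / 2) (by linarith) t
  have q3 := exc_le6 (t := t) hT
  have hs := sup6_pos (7 / 10 * (κ / 2)) (Real.log m) t
  have hrL : (1 : ℝ) ≤ (r : ℝ) + Real.log m := by
    have : (0 : ℝ) ≤ r := Nat.cast_nonneg r
    linarith
  have hk : (1 : ℝ) ≤ ((r : ℝ) + Real.log m) ^ k := one_le_pow₀ hrL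
  set X := m * NUMF.P t with hX
  set d := dT (Tb (Real.log m)) t with hdd
  have e1 : Real.exp (-(κ * X)) * Real.exp (8 / 3 * d) * Real.exp (v + exc T' t + K0) ≤
      Real.exp (Kh + K0) * (Real.exp (-(κ / 2 * X)) * Real.exp (31 / 6 * d)) := by
    rw [← Real.exp_add, ← Real.exp_add, ← Real.exp_add, ← Real.exp_add]
    refine Real.exp_le_exp.2 ?_
    linarith
  have hC0 : 0 ≤ C := le_trans (by positivity) hC
  calc W * Real.exp (v + exc T' t + K0)
      ≤ (B0 * (Real.exp (-(κ * X)) * Real.exp (8 / 3 * d))) *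
        Real.exp (v + exc T' t + K0) :=
        mul_le_mul_of_nonneg_right (hW.trans (mul_le_mul_of_nonneg_left q1 hB0)) (Real.exp_pos _).le
    _ = B0 * (Real.exp (-(κ * X)) * Real.exp (8 / 3 * d) *
        Real.exp (v + exc T' t + K0)) := by ring
    _ ≤ B0 * (Real.exp (Kh + K0) * (Real.exp (-(κ / 2 * X)) * Real.exp (31 / 6 * d))) :=
        mul_le_mul_of_nonneg_left e1 hB0
    _ = B0 * Real.exp (Kh + K0) * (Real.exp (-(κ / 2 * X)) * Real.exp (31 / 6 * d)) := by ring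
    _ ≤ C * (sup6 (7 / 10 * (κ / 2)) (Real.log m) t * Real.exp (31 / 6 * d)) := by gcongr
    _ = C * 1 * sup6 (7 / 10 * (κ / 2)) (Real.log m) t * Real.exp (31 / 6 * d) := by ring
    _ ≤ _ := by gcongr

/-- **from the bounds by kinds to the activity** -/
theorem kbC_act (K0 Kh τ : ℝ) {κ B0 : ℝ} (hκ : 0 < κ) (hB0 : 0 < B0) : ∃ C : ℝ, 0 < C ∧
    ∀ (k m : ℕ), 3 ≤ m →
    ∀ ep : ℝ, 0 < ep → ep ≤ 1 / 100 → ∀ e1 J T' : ℝ, Tb (Real.log m) / (1 - ep) ≤ T' →
    ∀ (r : ℕ) (q : Kd6) (t : ℝ) (P : Par6) (p : ℝ → ℝ), (∀ j ∈ loL P, κ * (m * NUMF.P t) ≤ p j) →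
      ∀ W h : ℝ, 0 ≤ h → (|t| ≤ (1 - 3 * e1) * Tb (Real.log m) → J ≤ h) →
      2 * Real.pi * h ≤ κ / 2 * (m * NUMF.P t) + Kh →
      KBC B0 P p m (4 / 3 * (1 - ep)) (Tb (Real.log m) + τ) W q t →
        W * Real.exp (-(2 * Real.pi * wind6 q * h) + exc T' t + K0) ≤
          act6 C (7 / 10 * (κ / 2)) (1 / 5) 6 τ k (Real.log m) ep e1 J r q t := by
  have hpi := Real.pi_pos
  obtain ⟨C, hCd⟩ : ∃ C : ℝ, C = B0 * Real.exp (1 / 5) * Real.exp (|Kh| + K0) := ⟨_, rfl⟩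
  have hC0 : 0 < C := by rw [hCd]; positivity
  have hE5 : (1 : ℝ) ≤ Real.exp (1 / 5) := Real.one_le_exp (by norm_num)
  have hEK : Real.exp K0 ≤ Real.exp (|Kh| + K0) :=
    Real.exp_le_exp.2 (by linarith [abs_nonneg Kh])
  have hEh : Real.exp (Kh + K0) ≤ Real.exp (|Kh| + K0) :=
    Real.exp_le_exp.2 (by linarith [le_abs_self Kh])
  -- the constants
  have c1 : B0 * Real.exp K0 ≤ C := by
    rw [hCd]
    calc B0 * Real.exp K0 = B0 * 1 * Real.exp K0 := by ring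
      _ ≤ _ := by gcongr
  have c2 : B0 * Real.exp (1 / 5) * Real.exp K0 ≤ C := by
    rw [hCd]
    gcongr
  have c3 : B0 * Real.exp (Kh + K0) ≤ C := by
    rw [hCd]
    calc B0 * Real.exp (Kh + K0) = B0 * 1 * Real.exp (Kh + K0) := by ring
      _ ≤ _ := by gcongr
  have c4 : B0 * Real.exp (1 / 5) * Real.exp (Kh + K0) ≤ C := by
    rw [hCd]
    gcongr
  refine ⟨C, hC0, fun k m hm ep hep hep1 e1 J T' hT' r q t P p hpp W h hh hhJ hhP hW => ?_⟩
  have pe := hpp P.e (by simp [loL])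
  have p1 := hpp P.j1 (by simp [loL])
  have p2 := hpp P.j2 (by simp [loL])
  have hL := log_ge_one hm
  have hm1 : 1 ≤ m := by omega
  have hTT : Tb (Real.log m) ≤ T' := by
    refine le_trans ?_ hT'
    have : 0 < Tb (Real.log m) := by
      unfold Tb
      linarith
    rw [le_div_iff₀ (by linarith)]
    nlinarith
  have hβ1 : 4 / 3 * (1 - ep) ≤ 4 / 3 := by linarith
  have hd : 0 ≤ dT (Tb (Real.log m)) t := le_max_right _ _
  have hs := sup6_pos (7 / 10 * (κ / 2)) (Real.log m) t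
  have hrL : (0 : ℝ) ≤ (r : ℝ) + Real.log m := by
    have : (0 : ℝ) ≤ r := Nat.cast_nonneg r
    linarith
  -- the cutoff of the strings
  have hS : Real.exp (-(Real.exp (11 / 2 * (|t| - (Tb (Real.log m) + τ))) / 5)) ≤
      Real.exp (1 / 5) * Real.exp (-(1 / 5 * Real.exp (2 * (|t| - Tb (Real.log m) - τ)))) := by
    have := rateS6 (c := 1 / 5) (ρ := 11 / 2) (by norm_num) (by norm_num)
      (|t| - (Tb (Real.log m) + τ))
    rw [show |t| - Tb (Real.log m) - τ = |t| - (Tb (Real.log m) + τ) by ring]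
    rwa [show Real.exp (11 / 2 * (|t| - (Tb (Real.log m) + τ))) / 5 =
      1 / 5 * Real.exp (11 / 2 * (|t| - (Tb (Real.log m) + τ))) by ring]
  set G := Real.exp (-(1 / 5 * Real.exp (2 * (|t| - Tb (Real.log m) - τ)))) with hG
  have hG0 : 0 < G := Real.exp_pos _
  set d := dT (Tb (Real.log m)) t with hdd
  have hX : Real.exp (6 * d - 1 / 5 * Real.exp (2 * (|t| - Tb (Real.log m) - τ))) =
      Real.exp (6 * d) * G := by
    rw [hG, sub_eq_add_neg, Real.exp_add]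
  cases q with
  | L =>
    have hW' : W ≤ B0 * cut m (4 / 3 * (1 - ep)) t := hW
    have h4 := flat_actG (C := C) (K0 := K0) (c := 7 / 10 * (κ / 2)) (r := r) hB0.le c1 hm1
      (w := 1) hep1 hh hhJ le_rfl hT' hW' k
    simp only [wind6, act6]
    rwa [zero_sub] at h4
  | T =>
    have hW' : W ≤ B0 * cut m (4 / 3 * (1 - ep)) t := hW
    have h4 := flat_actG (C := C) (K0 := K0) (c := 7 / 10 * (κ / 2)) (r := r) hB0.le c1 hm1
      (w := 1) hep1 hh hhJ le_rfl hT' hW' k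
    simp only [wind6, act6]
    rwa [zero_sub] at h4
  | E =>
    have hW' : W ≤ B0 * cS6 m (Tb (Real.log m) + τ) t := hW
    have h2 : cut m (4 / 3) t ≤ cut m (4 / 3 * (1 - ep)) t := cut_anti m hβ1 _
    have h3 := cut_nonneg m (4 / 3 * (1 - ep)) t
    have h4 := flat_actG (C := C) (K0 := K0) (c := 7 / 10 * (κ / 2)) (r := r)
      (W := B0 * Real.exp (1 / 5) * cut m (4 / 3 * (1 - ep)) t) (by positivity) c2 hm1
      (w := 2) hep1 hh hhJ (by norm_num) hT' le_rfl k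
    rw [zero_sub] at h4
    simp only [wind6, act6]
    rw [hX]
    have hA := act_nonneg (C := C) (C' := 1) (c := 7 / 10 * (κ / 2)) (b := 1 / 10) (k := k)
      (L := Real.log m) (ep := ep) (e1 := e1) (J := J) (r := r) (t := t) hC0.le zero_le_one
      (by linarith)
    have hx := Real.exp_pos (-(2 * Real.pi * 2 * h) + exc T' t + K0)
    have hE6 : (1 : ℝ) ≤ Real.exp (6 * d) := Real.one_le_exp (by positivity)
    have hWW : W ≤ B0 * Real.exp (1 / 5) * cut m (4 / 3 * (1 - ep)) t * G := by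
      refine hW'.trans ?_
      unfold cS6
      calc B0 * (cut m (4 / 3) t * Real.exp (-(Real.exp (11 / 2 *
            (|t| - (Tb (Real.log m) + τ))) / 5)))
          ≤ B0 * (cut m (4 / 3 * (1 - ep)) t * (Real.exp (1 / 5) * G)) := by gcongr
        _ = _ := by ring
    calc W * Real.exp (-(2 * Real.pi * 2 * h) + exc T' t + K0)
        ≤ B0 * Real.exp (1 / 5) * cut m (4 / 3 * (1 - ep)) t * G *
          Real.exp (-(2 * Real.pi * 2 * h) + exc T' t + K0) :=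
          mul_le_mul_of_nonneg_right hWW hx.le
      _ = (B0 * Real.exp (1 / 5) * cut m (4 / 3 * (1 - ep)) t *
          Real.exp (-(2 * Real.pi * 2 * h) + exc T' t + K0)) * G := by ring
      _ ≤ act C 1 (7 / 10 * (κ / 2)) (1 / 10) k (Real.log m) ep e1 J r t * (1 * G) := by
          rw [one_mul]
          exact mul_le_mul_of_nonneg_right h4 hG0.le
      _ ≤ _ := by gcongr
  | F =>
    have hW' : W ≤ B0 * (cS6 m (Tb (Real.log m) + τ) t * hwC (p P.e) m (4 / 3 * (1 - ep)) t) := hW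
    have hh6 := hwC_nonneg (p P.e) m (4 / 3 * (1 - ep)) t
    have h3 := cut_le_one m (4 / 3) t
    have h30 := cut_nonneg m (4 / 3) t
    have hWW : W ≤ B0 * Real.exp (1 / 5) * G * hwC (p P.e) m (4 / 3 * (1 - ep)) t := by
      refine hW'.trans ?_
      unfold cS6
      calc B0 * (cut m (4 / 3) t * Real.exp (-(Real.exp (11 / 2 *
            (|t| - (Tb (Real.log m) + τ))) / 5)) * hwC (p P.e) m (4 / 3 * (1 - ep)) t)
          ≤ B0 * (1 * (Real.exp (1 / 5) * G) * hwC (p P.e) m (4 / 3 * (1 - ep)) t) := by gcongr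
        _ = _ := by ring
    have h5 := hole_actC (B0 := B0 * Real.exp (1 / 5)) (Kh := Kh) (K0 := K0) (C := C) (κ := κ) hκ.le
      (by positivity) c4 hm hβ1 pe hTT (t := t)
      (v := -(2 * Real.pi * 1 * h)) (by
        have : 0 ≤ 2 * Real.pi * h := by positivity
        linarith) le_rfl k r
    simp only [wind6, act6]
    rw [hX]
    have hx := Real.exp_pos (-(2 * Real.pi * 1 * h) + exc T' t + K0)
    have h6 : Real.exp (31 / 6 * d) ≤ Real.exp (6 * d) := Real.exp_le_exp.2 (by linarith)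
    calc W * Real.exp (-(2 * Real.pi * 1 * h) + exc T' t + K0)
        ≤ B0 * Real.exp (1 / 5) * G * hwC (p P.e) m (4 / 3 * (1 - ep)) t *
          Real.exp (-(2 * Real.pi * 1 * h) + exc T' t + K0) :=
          mul_le_mul_of_nonneg_right hWW hx.le
      _ = (B0 * Real.exp (1 / 5) * hwC (p P.e) m (4 / 3 * (1 - ep)) t *
          Real.exp (-(2 * Real.pi * 1 * h) + exc T' t + K0)) * G := by ring
      _ ≤ (C * ((r : ℝ) + Real.log m) ^ k * sup6 (7 / 10 * (κ / 2)) (Real.log m) t *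
          Real.exp (31 / 6 * d)) * G := mul_le_mul_of_nonneg_right h5 hG0.le
      _ ≤ (C * ((r : ℝ) + Real.log m) ^ k * sup6 (7 / 10 * (κ / 2)) (Real.log m) t *
          Real.exp (6 * d)) * G := by gcongr
      _ = _ := by ring
  | H1 =>
    have hW' : W ≤ B0 * hwC (p P.j1) m (4 / 3 * (1 - ep)) t := hW
    have h5 := hole_actC (Kh := Kh) (K0 := K0) (C := C) hκ.le hB0.le c3 hm hβ1 p1 hTT (t := t)
      (v := -(2 * Real.pi * (-1) * h)) (by linarith) hW' k r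
    simp only [wind6, act6]
    refine h5.trans ?_
    have h6 : Real.exp (31 / 6 * d) ≤ Real.exp (11 / 2 * d) := Real.exp_le_exp.2 (by linarith)
    gcongr
  | H2 =>
    have hW' : W ≤ B0 * hwC (p P.j2) m (4 / 3 * (1 - ep)) t := hW
    have h5 := hole_actC (Kh := Kh) (K0 := K0) (C := C) hκ.le hB0.le c3 hm hβ1 p2 hTT (t := t)
      (v := -(2 * Real.pi * (-1) * h)) (by linarith) hW' k r
    simp only [wind6, act6]
    refine h5.trans ?_
    have h6 : Real.exp (31 / 6 * d) ≤ Real.exp (11 / 2 * d) := Real.exp_le_exp.2 (by linarith)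
    gcongr

/-! ### the data -/

/-- **the one body factor of an object, its clouds and the current** -/
theorem one_actC {C κ : ℝ} (hC : 0 < C) (hκ : 0 < κ) (K0 Kh τ : ℝ) : ∃ A : ℝ, 0 < A ∧
    ∀ (k m : ℕ), 3 ≤ m →
    ∀ ep : ℝ, 0 < ep → ep ≤ 1 / 100 → ∀ e1 J T' : ℝ, Tb (Real.log m) / (1 - ep) ≤ T' →
    ∀ (P : Par6) (rw : Bool → ℂ → ℝ) (cl pr : Bool → ℝ → ℝ → ℝ) (pT : Bool → ℝ → ℝ),
      Mf P C rw cl pr pT → (∀ a, ∀ j ∈ loL P, ∀ t, κ * (m * NUMF.P t) ≤ pr a j t) → ∀ B : OB,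
      ObC P C rw pT m (4 / 3 * (1 - ep)) (Tb (Real.log m) + τ) B → ∀ h : ℝ → ℝ, (∀ t, 0 ≤ h t) →
      (∀ t, |t| ≤ (1 - 3 * e1) * Tb (Real.log m) → J ≤ h t) →
      (∀ t, 2 * Real.pi * h t ≤ κ / 2 * (m * NUMF.P t) + Kh) → ∀ (r : ℕ) (x : Xo),
        ob6 B P x * Real.exp (clK cl P x -
            2 * Real.pi * wind6 (k6 x) * h (ht x) + exc T' (ht x) + K0) ≤
          act6 A (7 / 10 * (κ / 2)) (1 / 5) 6 τ k (Real.log m) ep e1 J r (k6 x) (ht x) := by
  obtain ⟨A, hA, H⟩ := kbC_act K0 Kh τ hκ (cKBC_pos hC)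
  refine ⟨A, hA, fun k m hm ep hep hep1 e1 J T' hT' P rw cl pr pT hM hpr B hB h h0 hJ hh r x => ?_⟩
  have h1 := wC_KB hC (by linarith) hM hB x
  have h2 := H k m hm ep hep hep1 e1 J T' hT' r (k6 x) (ht x) P (fun j => pr (sp x) j (ht x))
    (fun j hj => hpr (sp x) j hj (ht x)) _ _ (h0 _) (hJ _) (hh _) h1
  refine le_trans (le_of_eq ?_) h2
  rw [mul_assoc (ob6 B P x), ← Real.exp_add]
  congr 2
  ring

/-! ### a power of `m` at bounded heights -/

/-- a power of `m` against the price of a hole at a bounded height -/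
theorem pow_price {κ : ℝ} (hκ : 0 < κ) (A : ℕ) (t0 : ℝ) : ∃ C : ℝ, 0 < C ∧ ∀ (m : ℕ) (t : ℝ),
    |t| ≤ t0 → (m : ℝ) ^ A * Real.exp (-(κ * (m * NUMF.P t))) ≤ C := by
  obtain ⟨c, hc⟩ : ∃ c, c = κ * (7 / 10 * Real.exp (-(8 / 3) * t0)) := ⟨_, rfl⟩
  have hc0 : 0 < c := by rw [hc]; positivity
  refine ⟨(A.factorial : ℝ) / c ^ A, by positivity, fun m t ht => ?_⟩
  have h1 := seven_tenths_le_P t
  have h2 : Real.exp (-(8 / 3) * t0) ≤ Real.exp (-(8 / 3) * |t|) := Real.exp_le_exp.2 (by linarith)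
  have hm : (0 : ℝ) ≤ m := Nat.cast_nonneg m
  have h3 : c * m ≤ κ * (m * NUMF.P t) := by
    rw [hc]
    calc κ * (7 / 10 * Real.exp (-(8 / 3) * t0)) * m = κ * (m * (7 / 10 * Real.exp (-(8 / 3) * t0))) := by
          ring
      _ ≤ κ * (m * (7 / 10 * Real.exp (-(8 / 3) * |t|))) := by gcongr
      _ ≤ _ := by gcongr
  have h4 : (c * m) ^ A / (A.factorial : ℝ) ≤ Real.exp (c * m) :=
    Real.pow_div_factorial_le_exp (c * m) (by positivity) A
  have h5 : Real.exp (-(κ * (m * NUMF.P t))) ≤ (Real.exp (c * m))⁻¹ := by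
    rw [← Real.exp_neg]
    exact Real.exp_le_exp.2 (by linarith)
  have hE := Real.exp_pos (c * m)
  have hf : (0 : ℝ) < A.factorial := by exact_mod_cast A.factorial_pos
  rw [div_le_iff₀ hf, mul_pow] at h4
  calc (m : ℝ) ^ A * Real.exp (-(κ * (m * NUMF.P t))) ≤ (m : ℝ) ^ A * (Real.exp (c * m))⁻¹ := by gcongr
    _ ≤ (A.factorial : ℝ) / c ^ A := by
        rw [← div_eq_mul_inv, div_le_div_iff₀ hE (by positivity)]
        linarith

/-- **a hole at a bounded height has room for a power of `m`**: half of the price is enough -/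
theorem KBC.spare {κ : ℝ} (hκ : 0 < κ) (A : ℕ) (t0 : ℝ) : ∃ C : ℝ, 0 < C ∧
    ∀ (B0 : ℝ), 0 ≤ B0 → ∀ (P : Par6) (p : ℝ → ℝ) (m : ℕ) (β T1 W : ℝ) (q : Kd6) (t : ℝ), |t| ≤ t0 →
      0 ≤ W → (q = .F ∨ q = .H1 ∨ q = .H2) → KBC B0 P p m β T1 W q t →
        KBC (B0 * C) P (fun j => p j - κ * (m * NUMF.P t)) m β T1 (W * (m : ℝ) ^ A) q t := by
  obtain ⟨C, hC, H⟩ := pow_price hκ A t0
  refine ⟨C, hC, fun B0 hB P p m β T1 W q t ht hW0 hq hk => ?_⟩
  have h1 := H m t ht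
  have hm : (0 : ℝ) ≤ (m : ℝ) ^ A := by positivity
  have key : ∀ v, hwC v m β t * (m : ℝ) ^ A ≤ C * hwC (v - κ * (m * NUMF.P t)) m β t := fun v => by
    unfold hwC
    have hc := inv_nonneg.2 (cut_nonneg m β t)
    have e : Real.exp (-v) = Real.exp (-(v - κ * (m * NUMF.P t))) *
        Real.exp (-(κ * (m * NUMF.P t))) := by
      rw [← Real.exp_add]
      congr 1
      ring
    rw [e]
    calc _ = ((m : ℝ) ^ A * Real.exp (-(κ * (m * NUMF.P t)))) *
          (Real.exp (-(v - κ * (m * NUMF.P t))) * (cut m β t)⁻¹) := by ring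
      _ ≤ C * (Real.exp (-(v - κ * (m * NUMF.P t))) * (cut m β t)⁻¹) :=
          mul_le_mul_of_nonneg_right h1 (mul_nonneg (Real.exp_pos _).le hc)
  rcases hq with rfl | rfl | rfl
  · have h2 : W ≤ B0 * (cS6 m T1 t * hwC (p P.e) m β t) := hk
    show W * (m : ℝ) ^ A ≤ B0 * C * (cS6 m T1 t * hwC (p P.e - κ * (m * NUMF.P t)) m β t)
    have hS := cS6_nonneg m T1 t
    calc W * (m : ℝ) ^ A ≤ (B0 * (cS6 m T1 t * hwC (p P.e) m β t)) * (m : ℝ) ^ A :=
          mul_le_mul_of_nonneg_right h2 hm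
      _ = B0 * cS6 m T1 t * (hwC (p P.e) m β t * (m : ℝ) ^ A) := by ring
      _ ≤ B0 * cS6 m T1 t * (C * hwC (p P.e - κ * (m * NUMF.P t)) m β t) :=
          mul_le_mul_of_nonneg_left (key _) (by positivity)
      _ = _ := by ring
  · have h2 : W ≤ B0 * hwC (p P.j1) m β t := hk
    show W * (m : ℝ) ^ A ≤ B0 * C * hwC (p P.j1 - κ * (m * NUMF.P t)) m β t
    calc W * (m : ℝ) ^ A ≤ (B0 * hwC (p P.j1) m β t) * (m : ℝ) ^ A :=
          mul_le_mul_of_nonneg_right h2 hm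
      _ = B0 * (hwC (p P.j1) m β t * (m : ℝ) ^ A) := by ring
      _ ≤ B0 * (C * hwC (p P.j1 - κ * (m * NUMF.P t)) m β t) :=
          mul_le_mul_of_nonneg_left (key _) hB
      _ = _ := by ring
  · have h2 : W ≤ B0 * hwC (p P.j2) m β t := hk
    show W * (m : ℝ) ^ A ≤ B0 * C * hwC (p P.j2 - κ * (m * NUMF.P t)) m β t
    calc W * (m : ℝ) ^ A ≤ (B0 * hwC (p P.j2) m β t) * (m : ℝ) ^ A :=
          mul_le_mul_of_nonneg_right h2 hm
      _ = B0 * (hwC (p P.j2) m β t * (m : ℝ) ^ A) := by ring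
      _ ≤ B0 * (C * hwC (p P.j2 - κ * (m * NUMF.P t)) m β t) :=
          mul_le_mul_of_nonneg_left (key _) hB
      _ = _ := by ring

end PLT

end
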