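import Pool.Agent.PLT.Rate
import Pool.Agent.PLT.Cnt

/-!
# The rate of the price of a hole for a content near the proportions of the sea

* `Ag_nonneg3`: `0 ≤ Ag V t` for `0 ≤ V ≤ 3 l` (poles included); `Ag_bd`: `|Ag V t| ≤ C / ch t` for
  `|V| ≤ (1 - de) l`;
* **`rateK`**: the price of a content `c` with `k` missing rows at all offsets `j1 ≤ j < 1`, all heights,
  one constant for all seas; `rateK_P`, `rateK_exp`;
* `prU_of`: the price is nonnegative at offsets `j` with `0 ≤ j + x ≤ 3`.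
-/

set_option autoImplicit false

noncomputable section

open Set

namespace PLT

open NUMF

/-! ### one row -/

private theorem log_mono {c s s' : ℝ} (h : s ≤ s') (h1 : -c < s) (h2 : s' < c) :
    Real.log (c + s) - Real.log (c - s) ≤ Real.log (c + s') - Real.log (c - s') := by
  have a1 := Real.log_le_log (x := c + s) (y := c + s') (by linarith) (by linarith)
  have a2 := Real.log_le_log (x := c - s') (y := c - s) (by linarith) (by linarith)
  linarith

/-- **the level function of a row is nonnegative on `[0, 3 l]`** -/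
theorem Ag_nonneg3 {V : ℝ} (h0 : 0 ≤ V) (h3 : V ≤ 3 * l) (t : ℝ) : 0 ≤ Ag V t := by
  have hl : 0 < l := l_pos
  have hpl : l = Real.pi / 8 := rfl
  have hpi := Real.pi_pos
  have hc := one_le_ch t
  rcases lt_or_ge V (2 * l) with h | h
  · exact Ag_nonneg h0 h t
  -- `V ∈ [2 l, 3 l]`
  obtain ⟨β, hβ⟩ : ∃ β, β = 8 / 3 * V := ⟨_, rfl⟩
  have b1 : 2 * Real.pi / 3 ≤ β := by rw [hβ]; rw [hpl] at h; linarith
  have b2 : β ≤ Real.pi := by rw [hβ]; rw [hpl] at h3; linarith
  unfold Ag La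
  rw [← hβ]
  have s1 : Real.sin (β - Real.pi / 6) ≤ 1 := Real.sin_le_one _
  have s2 : Real.sin (β + Real.pi / 6) ≤ 1 / 2 := by
    have e : Real.sin (β + Real.pi / 6) = Real.sin (Real.pi - (β + Real.pi / 6)) :=
      (Real.sin_pi_sub _).symm
    rw [e, ← Real.sin_pi_div_six]
    exact Real.sin_le_sin_of_le_of_le_pi_div_two (by linarith) (by linarith) (by linarith)
  have s3 : -(1 / 2) ≤ Real.sin (β + Real.pi / 6) := by
    have e : Real.sin (β + Real.pi / 6) = Real.sin (Real.pi - (β + Real.pi / 6)) :=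
      (Real.sin_pi_sub _).symm
    rw [e, ← Real.sin_pi_div_six, ← Real.sin_neg]
    exact Real.sin_le_sin_of_le_of_le_pi_div_two (by linarith) (by linarith) (by linarith)
  have s4 : 1 / 2 ≤ Real.sin (β - Real.pi / 6) := by
    have e : Real.sin (β - Real.pi / 6) = Real.sin (Real.pi - (β - Real.pi / 6)) :=
      (Real.sin_pi_sub _).symm
    rw [e, ← Real.sin_pi_div_six]
    exact Real.sin_le_sin_of_le_of_le_pi_div_two (by linarith) (by linarith) (by linarith)
  have s5 : 0 ≤ Real.sin (β - Real.pi / 6) + Real.sin (β + Real.pi / 6) := by linarith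
  rcases eq_or_lt_of_le (s1.trans hc) with he | hlt
  · -- the pole: `ch t = 1`, `sin = 1`
    have hc1 : ch t = 1 := le_antisymm (by rw [← he]; exact s1) hc
    have hs1 : Real.sin (β - Real.pi / 6) = 1 := by rw [he, hc1]
    have hβ2 : β = 2 * Real.pi / 3 := by
      by_contra hne
      have hgt : 2 * Real.pi / 3 < β := lt_of_le_of_ne b1 (Ne.symm hne)
      have h5 : Real.sin (β - Real.pi / 6) < 1 := by
        rw [← Real.cos_sub_pi_div_two, ← Real.cos_zero]
        exact Real.cos_lt_cos_of_nonneg_of_le_pi le_rfl (by linarith) (by linarith)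
      linarith
    have hs2 : Real.sin (β + Real.pi / 6) = 1 / 2 := by
      rw [hβ2, show 2 * Real.pi / 3 + Real.pi / 6 = Real.pi - Real.pi / 6 by ring,
        Real.sin_pi_sub, Real.sin_pi_div_six]
    rw [hs1, hs2, hc1, sub_self, Real.log_zero]
    have a1 : 0 ≤ Real.log (1 + 1 : ℝ) := Real.log_nonneg (by norm_num)
    have a2 : Real.log (1 - 1 / 2 : ℝ) ≤ Real.log (1 + 1 / 2 : ℝ) :=
      Real.log_le_log (by norm_num) (by norm_num)
    exact add_nonneg (div_nonneg (by rw [sub_zero]; exact a1) two_pos.le)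
      (div_nonneg (sub_nonneg.2 a2) two_pos.le)
  · have a := log_mono (c := ch t) (s := -Real.sin (β + Real.pi / 6))
      (s' := Real.sin (β - Real.pi / 6)) (by linarith) (by linarith) hlt
    rw [← sub_eq_add_neg, sub_neg_eq_add] at a
    linarith

private theorem La_bd {β c s0 : ℝ} (hc : 1 ≤ c) (h1 : s0 < 1) (hs : Real.sin β ≤ s0)
    (hs' : -s0 ≤ Real.sin β) : La β c ≤ 1 / (1 - s0) / c := by
  have h0 : 0 ≤ s0 := by linarith
  have a1 : 0 < c + Real.sin β := by linarith
  have a2 : 0 < c - Real.sin β := by linarith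
  have h2 := Real.log_le_sub_one_of_pos (x := (c + Real.sin β) / (c - Real.sin β)) (by positivity)
  rw [Real.log_div a1.ne' a2.ne'] at h2
  have h3 : (c + Real.sin β) / (c - Real.sin β) - 1 ≤ 2 * (1 / (1 - s0) / c) := by
    have e : 2 * (1 / (1 - s0) / c) = 2 / ((1 - s0) * c) := by
      field_simp
    rw [e, div_sub_one a2.ne', div_le_div_iff₀ a2 (mul_pos (by linarith) (by linarith))]
    rcases le_total (Real.sin β) 0 with hn | hn
    · have h5 : 0 < (1 - s0) * c := mul_pos (by linarith) (by linarith)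
      nlinarith
    · have h5 : (1 - s0) * c ≤ c - Real.sin β := by nlinarith
      have h6 : Real.sin β * ((1 - s0) * c) ≤ Real.sin β * (c - Real.sin β) :=
        mul_le_mul_of_nonneg_left h5 hn
      nlinarith
  unfold La
  linarith

private theorem Ag_up {de V : ℝ} (h0 : 0 < de) (h1 : de ≤ 1) (hV : |V| ≤ (1 - de) * l) (t : ℝ) :
    Ag V t ≤ 2 / (1 - Real.cos (Real.pi / 3 * de)) / ch t := by
  have hl : 0 < l := l_pos
  have hpl : l = Real.pi / 8 := rfl
  have hpi := Real.pi_pos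
  have hc := one_le_ch t
  have hs0 : Real.cos (Real.pi / 3 * de) < 1 := by
    rw [← Real.cos_zero]
    exact Real.cos_lt_cos_of_nonneg_of_le_pi le_rfl (by nlinarith) (by positivity)
  obtain ⟨v1, v2⟩ := abs_le.1 hV
  have key : ∀ β, |β| ≤ Real.pi / 2 - Real.pi / 3 * de →
      Real.sin β ≤ Real.cos (Real.pi / 3 * de) := by
    intro β hβ
    obtain ⟨c1, c2⟩ := abs_le.1 hβ
    rw [← Real.sin_pi_div_two_sub]
    exact Real.sin_le_sin_of_le_of_le_pi_div_two (by nlinarith) (by nlinarith) c2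
  have key' : ∀ β, |β| ≤ Real.pi / 2 - Real.pi / 3 * de →
      La β (ch t) ≤ 1 / (1 - Real.cos (Real.pi / 3 * de)) / ch t := by
    intro β hβ
    refine La_bd hc hs0 (key β hβ) ?_
    have := key (-β) (by rwa [abs_neg])
    rw [Real.sin_neg] at this
    linarith
  have e1 := key' (8 / 3 * V - Real.pi / 6) (by
    rw [hpl] at v1 v2
    rw [abs_le]
    constructor <;> nlinarith)
  have e2 := key' (8 / 3 * V + Real.pi / 6) (by
    rw [hpl] at v1 v2
    rw [abs_le]
    constructor <;> nlinarith)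
  unfold Ag
  have e3 : 2 / (1 - Real.cos (Real.pi / 3 * de)) / ch t =
      1 / (1 - Real.cos (Real.pi / 3 * de)) / ch t +
        1 / (1 - Real.cos (Real.pi / 3 * de)) / ch t := by ring
  rw [e3]
  exact add_le_add e1 e2

/-- **the level function of a row away from its poles** -/
theorem Ag_bd {de V : ℝ} (h0 : 0 < de) (h1 : de ≤ 1) (hV : |V| ≤ (1 - de) * l) (t : ℝ) :
    |Ag V t| ≤ 2 / (1 - Real.cos (Real.pi / 3 * de)) / ch t := by
  rw [abs_le]
  have e1 := Ag_up h0 h1 hV t
  have e2 := Ag_up h0 h1 (V := -V) (by rwa [abs_neg]) t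
  rw [Ag_neg_v] at e2
  constructor <;> linarith

/-! ### contents -/

variable {ι : Type*} [Fintype ι]

/-- the price in terms of the numbers of rows, `N` = size of the content -/
private theorem comb {A w : ι → ℝ} {n : ι → ℕ} {N K0 wm D S : ℝ} (hK : 0 ≤ K0) (hwm : 0 < wm)
    (hw : ∀ i, wm ≤ w i) (hw1 : ∀ i, w i ≤ 1) (hn : ∀ i, |N * w i - n i| ≤ K0)
    (hD : 0 ≤ D) (hA : ∀ i, -D ≤ A i) (hS : S ≤ ∑ i, w i * A i) (hN : 2 * (K0 / wm) ≤ N)
    (hS0 : 0 ≤ S) : N / 2 * S - Fintype.card ι * ((K0 / wm + K0) * D) ≤ ∑ i, (n i : ℝ) * A i := by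
  have hE : 0 ≤ K0 / wm := by positivity
  have h1 : ∀ i, (N - K0 / wm) * (w i * A i) - (K0 / wm + K0) * D ≤ (n i : ℝ) * A i := by
    intro i
    obtain ⟨a1, a2⟩ := abs_le.1 (hn i)
    have h2 : K0 ≤ K0 / wm * w i := by
      have h3 : K0 = K0 / wm * wm := by field_simp
      calc K0 = K0 / wm * wm := h3
        _ ≤ _ := mul_le_mul_of_nonneg_left (hw i) hE
    have h4 : K0 / wm * w i ≤ K0 / wm := mul_le_of_le_one_right hE (hw1 i)
    have hD' : 0 ≤ (K0 / wm + K0) * D := by positivity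
    rcases le_total 0 (A i) with h | h
    · have h5 : (N - K0 / wm) * w i ≤ n i := by linarith
      have h6 := mul_le_mul_of_nonneg_right h5 h
      linarith
    · have h5 : (n i : ℝ) ≤ N * w i + K0 := by linarith
      have h6 := mul_le_mul_of_nonpos_right h5 h
      have h7 : (K0 / wm * w i + K0) * (-A i) ≤ (K0 / wm + K0) * D :=
        mul_le_mul (by linarith) (by linarith [hA i]) (by linarith) (by linarith)
      nlinarith
  have h2 := Finset.sum_le_sum fun i (_ : i ∈ Finset.univ) => h1 i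
  rw [Finset.sum_sub_distrib, ← Finset.mul_sum, Finset.sum_const, Finset.card_univ,
    nsmul_eq_mul] at h2
  have h3 : N / 2 * S ≤ (N - K0 / wm) * ∑ i, w i * A i := by
    have h4 : N / 2 ≤ N - K0 / wm := by linarith
    exact mul_le_mul h4 hS hS0 (by linarith)
  linarith

/-- **the rate of the price**: one constant for all seas and contents -/
theorem rateK {de hi j1 K0 wm : ℝ} (hde : 0 < de) (hde1 : de ≤ 1) (hj : hi < j1) (hj0 : 0 ≤ j1)
    (hwm : 0 < wm) (hK : 0 ≤ K0) : ∃ κ : ℝ, 0 < κ ∧ ∃ N0 : ℕ, ∀ [SeaC] (w p : ι → ℝ),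
      SeaOf de hi w p → (∀ i, wm ≤ w i) → (∀ i i', p i - p i' ≤ 1) →
      (∑ i, w i ≤ 2 * ∑ i, if 0 ≤ p i then w i else 0) →
      ∀ (c : List ℝ) (k : ℕ), Cnt K0 w p c k → N0 ≤ c.length + k →
      ∀ j, j1 ≤ j → j < 1 → ∀ t : ℝ, κ * (((c.length : ℝ) + k) / ch t) ≤
        (c.map fun x => Ag ((j + x) * l) t).sum := by
  have hl : 0 < l := l_pos
  obtain ⟨c1, hc1⟩ : ∃ c1, c1 = min (2 * ((j1 - hi) * l)) (3 / 8 * l) := ⟨_, rfl⟩
  have hc1p : 0 < c1 := by
    rw [hc1]
    exact lt_min (by nlinarith) (by linarith)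
  have hs0 : Real.cos (Real.pi / 3 * de) < 1 := by
    rw [← Real.cos_zero]
    exact Real.cos_lt_cos_of_nonneg_of_le_pi le_rfl (by nlinarith [Real.pi_pos])
      (by have := Real.pi_pos; positivity)
  obtain ⟨C0, hC0⟩ : ∃ C0, C0 = 2 / (1 - Real.cos (Real.pi / 3 * de)) := ⟨_, rfl⟩
  have hC0p : 0 < C0 := by
    rw [hC0]
    exact div_pos two_pos (by linarith)
  obtain ⟨N1, hN1⟩ := exists_nat_ge (2 * (K0 / wm) +
    4 * (Fintype.card ι * ((K0 / wm + K0) * C0)) / c1)
  refine ⟨c1 / 4, by positivity, N1, fun w p h hw hp hh c k hc hN j h1 h2 t => ?_⟩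
  obtain ⟨n, e1, e2⟩ := hc.ex
  have hch := ch_pos t
  have hmass := h.mass
  have hw0 : ∀ i, 0 ≤ w i := h.nn
  have hw1 : ∀ i, w i ≤ 1 := fun i => by
    rw [← hmass]
    exact Finset.single_le_sum (fun i _ => hw0 i) (Finset.mem_univ i)
  rw [e1 fun x => Ag ((j + x) * l) t]
  -- the weighted sum
  have hS : c1 / ch t ≤ ∑ i, w i * Ag ((j + p i) * l) t := by
    have hv : Cv.eta t ∈ Dm fun i => p i * l := fun i => by
      have a1 := h.cur.x1 i
      have a2 := h.cur.x2 i
      have a3 := h.cur.prf.ge t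
      have a4 := h.cur.prf.le t
      show |Cv.eta t + p i * l| < l
      rw [abs_lt]
      constructor <;> linarith
    have hlev : SC w (fun i => p i * l) (Cv.eta t) t = 0 := h.lev t
    have a4 := h.cur.prf.le t
    have a5 : hi * l ≤ j * l := mul_le_mul_of_nonneg_right (by linarith) hl.le
    have g := SC_ge (m := w) (x := fun i => p i * l) (v := Cv.eta t) (j := j * l) (t := t) hw0
      (fun i i' => by
        have := mul_le_mul_of_nonneg_right (hp i i') hl.le
        show p i * l - p i' * l ≤ l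
        linarith)
      (fun i => by
        have a := h.up i
        have b : p i * l ≤ (1 / 2) * l := mul_le_mul_of_nonneg_right (by linarith) hl.le
        show p i * l ≤ l / 2
        linarith)
      (by
        refine hh.trans (le_of_eq ?_)
        congr 1
        refine Finset.sum_congr rfl fun i _ => ?_
        have : 0 ≤ p i * l ↔ 0 ≤ p i := mul_nonneg_iff_of_pos_right hl
        simp only [this])
      hv hlev.ge (by linarith) (by nlinarith)
    rw [hmass, one_mul] at g
    have e3 : SC w (fun i => p i * l) (j * l) t = ∑ i, w i * Ag ((j + p i) * l) t := by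
      unfold SC
      refine Finset.sum_congr rfl fun i _ => ?_
      rw [add_mul]
    rw [e3] at g
    refine le_trans (div_le_div_of_nonneg_right ?_ hch.le) g
    rw [hc1]
    refine min_le_min ?_ le_rfl
    have : j1 * l ≤ j * l := mul_le_mul_of_nonneg_right h1 hl.le
    linarith
  have hA : ∀ i, -(C0 / ch t) ≤ Ag ((j + p i) * l) t := by
    intro i
    have a1 := h.lo i
    have a2 := h.up i
    rcases le_total 0 (j + p i) with hp0 | hp0
    · have : 0 ≤ Ag ((j + p i) * l) t := Ag_nonneg (by positivity) (by nlinarith) t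
      have : 0 ≤ C0 / ch t := by positivity
      linarith
    · have h5 := Ag_bd hde hde1 (V := (j + p i) * l) (by
        rw [abs_of_nonpos (mul_nonpos_of_nonpos_of_nonneg hp0 hl.le)]
        nlinarith) t
      rw [← hC0] at h5
      exact (abs_le.1 h5).1
  have hNr : (N1 : ℝ) ≤ (c.length : ℝ) + k := by exact_mod_cast hN
  have hX : 0 ≤ 4 * (Fintype.card ι * ((K0 / wm + K0) * C0)) / c1 := by positivity
  have hKw : 0 ≤ K0 / wm := by positivity
  have main := comb (A := fun i => Ag ((j + p i) * l) t) (S := c1 / ch t) hK hwm hw hw1 e2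
    (by positivity : 0 ≤ C0 / ch t) hA hS (by linarith) (by positivity)
  refine le_trans ?_ main
  have h6 : 4 * (Fintype.card ι * ((K0 / wm + K0) * C0)) ≤ ((c.length : ℝ) + k) * c1 := by
    have h7 : 4 * (Fintype.card ι * ((K0 / wm + K0) * C0)) / c1 ≤ (c.length : ℝ) + k := by linarith
    rwa [div_le_iff₀ hc1p] at h7
  have e4 : c1 / 4 * (((c.length : ℝ) + k) / ch t) = ((c.length + k) * c1 / 4) / ch t := by ring
  have e5 : ((c.length : ℝ) + k) / 2 * (c1 / ch t) -
      Fintype.card ι * ((K0 / wm + K0) * (C0 / ch t)) =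
      ((c.length + k) * c1 / 2 - Fintype.card ι * ((K0 / wm + K0) * C0)) / ch t := by ring
  rw [e4, e5]
  refine div_le_div_of_nonneg_right ?_ hch.le
  linarith

/-- `rateK` with the density of a row -/
theorem rateK_P {de hi j1 K0 wm : ℝ} (hde : 0 < de) (hde1 : de ≤ 1) (hj : hi < j1) (hj0 : 0 ≤ j1)
    (hwm : 0 < wm) (hK : 0 ≤ K0) : ∃ κ : ℝ, 0 < κ ∧ ∃ N0 : ℕ, ∀ [SeaC] (w p : ι → ℝ),
      SeaOf de hi w p → (∀ i, wm ≤ w i) → (∀ i i', p i - p i' ≤ 1) →
      (∑ i, w i ≤ 2 * ∑ i, if 0 ≤ p i then w i else 0) →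
      ∀ (c : List ℝ) (k : ℕ), Cnt K0 w p c k → N0 ≤ c.length + k →
      ∀ j, j1 ≤ j → j < 1 → ∀ t : ℝ,
        κ * (((c.length : ℝ) + k) * NUMF.P t) ≤ (c.map fun x => Ag ((j + x) * l) t).sum ∧
        κ * (((c.length : ℝ) + k) * Real.exp (-(8 / 3 * |t|))) ≤
          (c.map fun x => Ag ((j + x) * l) t).sum := by
  obtain ⟨κ, hκ, N0, H⟩ := rateK (ι := ι) hde hde1 hj hj0 hwm hK
  refine ⟨κ, hκ, N0, fun w p h hw hp hh c k hc hN j h1 h2 t => ?_⟩
  have h3 := H w p h hw hp hh c k hc hN j h1 h2 t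
  have hN' : 0 ≤ (c.length : ℝ) + k := by positivity
  constructor
  · refine le_trans (mul_le_mul_of_nonneg_left ?_ hκ.le) h3
    have := mul_le_mul_of_nonneg_left (P_le_ch t) hN'
    rwa [mul_one_div] at this
  · refine le_trans (mul_le_mul_of_nonneg_left ?_ hκ.le) h3
    have := mul_le_mul_of_nonneg_left (exp_le_ch t) hN'
    rw [mul_one_div, show -(8 / 3) * |t| = -(8 / 3 * |t|) by ring] at this
    exact this

/-- **the price is nonnegative** at the offsets `j` with `0 ≤ j + x ≤ 3` -/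
theorem prU_of {c : List ℝ} {j : ℝ} (h : ∀ x ∈ c, 0 ≤ j + x ∧ j + x ≤ 3) (t : ℝ) :
    0 ≤ (c.map fun x => Ag ((j + x) * l) t).sum := by
  have hl : 0 < l := l_pos
  refine List.sum_nonneg fun y hy => ?_
  obtain ⟨x, hx, rfl⟩ := List.mem_map.1 hy
  obtain ⟨a1, a2⟩ := h x hx
  exact Ag_nonneg3 (by positivity) (mul_le_mul_of_nonneg_right a2 hl.le) t

end PLT

end
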