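import Pool.Agent.PLT.OneAC
import Pool.Agent.PHK.OneT6
import Pool.Agent.PHK.UseW

/-!
# One body factors over any sea: the gain of the tent, the perturbed data

Twins of `PHK/OneT6`, `PHK/OneKB6` over the literals of `PLT/ObC`.

* `WKBC B0 P pr E m β T1 B`: the bounds by kinds of all objects, price `pr a j t` of a hole, exponent
  `E x` of the clouds at an object (`E = clK cl P`); `wkbC_of`: from `Mf`, `ObC`; `KBC.le`,
  `KBC.price`, `WKBC.exp_le`: smaller weight, smaller price, smaller exponent;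
* `kbC_actT`: `kbC_act` with the gain `exp (-g)` of the tent;
* **`one_hCCT`**, `one_hCC`: the one body factor of every object against `act6 * exp (-gT)` (`act6`),
  current `hC`, constants of `act6`: `c = 7 / 10 * (κ / 2)`, `c2 = 1 / 5`, growth `6`;
* `KBC_obE6`, **`wkbC_obE6`**: the bounds by kinds of the perturbed data `obE6 B r M`.
-/

set_option autoImplicit false

noncomputable section

open Complex MeasureTheory Set

namespace PLT

open PHK NUP1 NUO NUGC.PLX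
open PBP.PLX (gT gT_nonneg cur_gT_le exists_M0)

/-! ### the bounds by kinds: monotony -/

theorem hwC_anti {A A' : ℝ} (h : A ≤ A') (m : ℕ) (β t : ℝ) : hwC A' m β t ≤ hwC A m β t :=
  mul_le_mul_of_nonneg_right (Real.exp_le_exp.2 (by linarith)) (inv_nonneg.2 (cut_nonneg _ _ _))

/-- rows at `0` -/
theorem kb6_iff {C : ℝ} {P : Par6} {N : Bool → ℕ} {m : ℕ} {β T1 W : ℝ} {a : Bool} {k : Kd6} {t : ℝ} :
    KB6 C P N m β T1 W a k t ↔ KBC C P (fun j => N a * NUMF.Ag j t) m β T1 W k t := by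
  cases k <;> exact Iff.rfl

/-- smaller weight -/
theorem KBC.le {C : ℝ} {P : Par6} {v : ℝ → ℝ} {m : ℕ} {β T1 W W' : ℝ} (h : W' ≤ W)
    {k : Kd6} {t : ℝ} (hk : KBC C P v m β T1 W k t) : KBC C P v m β T1 W' k t := by
  cases k <;> exact h.trans hk

/-- smaller price -/
theorem KBC.price {C : ℝ} (hC : 0 ≤ C) {P : Par6} {v v' : ℝ → ℝ} {m : ℕ} {β T1 W : ℝ}
    {k : Kd6} {t : ℝ} (h : ∀ j ∈ loL P, v' j ≤ v j)
    (hk : KBC C P v m β T1 W k t) : KBC C P v' m β T1 W k t := by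
  have h2 := cS6_nonneg m T1 t
  cases k
  · exact hk
  · exact hk
  · exact hk
  · exact hk.trans (mul_le_mul_of_nonneg_left (mul_le_mul_of_nonneg_left
      (hwC_anti (h _ (by simp [loL])) _ _ _) h2) hC)
  · exact hk.trans (mul_le_mul_of_nonneg_left (hwC_anti (h _ (by simp [loL])) _ _ _) hC)
  · exact hk.trans (mul_le_mul_of_nonneg_left (hwC_anti (h _ (by simp [loL])) _ _ _) hC)

/-- **the perturbed data**: from the bounds of `B` and of the additional weight of `T` -/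
theorem KBC_obE6 {P : Par6} {B : OB} (hB : B.Nn) {r : Bool → ℂ → ℝ} {δ : ℝ} (hr : RE6 r δ)
    (hδ : 0 ≤ δ) (hδ1 : δ ≤ 1 / 2) {M : Bool → ℝ → ℝ} (hM : ∀ a t, 0 ≤ M a t) (he : 0 ≤ P.e) (x : Xo)
    {p : ℝ → ℝ} {m : ℕ} {β T1 C0 C1 v : ℝ} (hC1 : 0 ≤ C1) (hv : 0 ≤ v)
    (h0 : KBC C0 P p m β T1 (ob6 B P x * v) (k6 x) (ht x))
    (h1 : k6 x = .T → wT6 B M x * v ≤ C1 * cut m β (ht x)) :
    KBC (16 * (C0 + C1)) P p m β T1 (ob6 (obE6 B r M) P x * v) (k6 x) (ht x) := by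
  have key := ob6_obE6_le hB hr hδ hδ1 hM he x
  have key2 : ob6 (obE6 B r M) P x * v ≤ 16 * ((ob6 B P x + wT6 B M x) * v) := by
    calc _ ≤ (16 * (ob6 B P x + wT6 B M x)) * v := mul_le_mul_of_nonneg_right key hv
      _ = _ := by ring
  have c1 := cut_nonneg m β (ht x)
  have c2 := cS6_nonneg m T1 (ht x)
  rcases hk : k6 x with _ | _ | _ | _ | _ | _ <;> rw [hk] at h0
  · have ew : wT6 B M x = 0 := by unfold wT6; rw [hk]
    rw [ew, add_zero] at key2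
    refine key2.trans ?_
    have h0' : ob6 B P x * v ≤ C0 * cut m β (ht x) := h0
    nlinarith [mul_nonneg hC1 c1]
  · have h1' := h1 hk
    refine key2.trans ?_
    have h0' : ob6 B P x * v ≤ C0 * cut m β (ht x) := h0
    nlinarith
  · have ew : wT6 B M x = 0 := by unfold wT6; rw [hk]
    rw [ew, add_zero] at key2
    refine key2.trans ?_
    have h0' : ob6 B P x * v ≤ C0 * cS6 m T1 (ht x) := h0
    nlinarith [mul_nonneg hC1 c2]
  · have ew : wT6 B M x = 0 := by unfold wT6; rw [hk]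
    rw [ew, add_zero] at key2
    refine key2.trans ?_
    have c3 := mul_nonneg c2 (hwC_nonneg (p P.e) m β (ht x))
    have h0' : ob6 B P x * v ≤ C0 * (cS6 m T1 (ht x) * hwC (p P.e) m β (ht x)) := h0
    nlinarith [mul_nonneg hC1 c3]
  · have ew : wT6 B M x = 0 := by unfold wT6; rw [hk]
    rw [ew, add_zero] at key2
    refine key2.trans ?_
    have c3 := hwC_nonneg (p P.j1) m β (ht x)
    have h0' : ob6 B P x * v ≤ C0 * hwC (p P.j1) m β (ht x) := h0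
    nlinarith [mul_nonneg hC1 c3]
  · have ew : wT6 B M x = 0 := by unfold wT6; rw [hk]
    rw [ew, add_zero] at key2
    refine key2.trans ?_
    have c3 := hwC_nonneg (p P.j2) m β (ht x)
    have h0' : ob6 B P x * v ≤ C0 * hwC (p P.j2) m β (ht x) := h0
    nlinarith [mul_nonneg hC1 c3]

/-- **from the bounds by kinds to the activity, the gain `g` of the tent kept** -/
theorem kbC_actT (K0 Kh τ : ℝ) {κ : ℝ} (hκ : 0 < κ) {B0 : ℝ} (hB0 : 0 < B0) : ∃ C : ℝ, 0 < C ∧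
    ∀ (k m : ℕ), 3 ≤ m →
    ∀ ep : ℝ, 0 < ep → ep ≤ 1 / 100 → ∀ e1 J T' : ℝ, Tb (Real.log m) / (1 - ep) ≤ T' →
    ∀ (r : ℕ) (q : Kd6) (t : ℝ) (P : Par6) (p : ℝ → ℝ), (∀ j ∈ loL P, κ * (m * NUMF.P t) ≤ p j) →
      ∀ W h g : ℝ, 0 ≤ W → 0 ≤ g → g / (2 * Real.pi) ≤ h →
      (|t| ≤ (1 - 3 * e1) * Tb (Real.log m) → J + g / (2 * Real.pi) ≤ h) →
      2 * Real.pi * h + g ≤ κ / 2 * (m * NUMF.P t) + Kh →
      KBC B0 P p m (4 / 3 * (1 - ep)) (Tb (Real.log m) + τ) W q t →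
        W * Real.exp (-(2 * Real.pi * wind6 q * h) + exc T' t + K0) ≤
          act6 C (7 / 10 * (κ / 2)) (1 / 5) 6 τ k (Real.log m) ep e1 J r q t * Real.exp (-g) := by
  have hpi := Real.pi_pos
  obtain ⟨C, hC, H⟩ := kbC_act K0 Kh τ hκ hB0
  refine ⟨C, hC, fun k m hm ep hep hep1 e1 J T' hT' r q t P p hA W h g hW0 hg hgh hhJ hhP
    hW => ?_⟩
  have hgc : 2 * Real.pi * (g / (2 * Real.pi)) = g := by field_simp
  obtain ⟨g', hg'⟩ : ∃ g', g' = g / (2 * Real.pi) := ⟨_, rfl⟩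
  rw [← hg'] at hgh hhJ hgc
  have hg0 : 0 ≤ g' := by rw [hg']; positivity
  -- the two currents
  have k1 := H k m hm ep hep hep1 e1 J T' hT' r q t P p hA W (h - g') (by linarith)
    (fun ht => by linarith [hhJ ht]) (by linarith) hW
  have k2 := H k m hm ep hep hep1 e1 J T' hT' r q t P p hA W (h + g') (by linarith)
    (fun ht => by linarith [hhJ ht]) (by linarith) hW
  have fin : ∀ v : ℝ, -(2 * Real.pi * wind6 q * h) ≤ v + -g →
      W * Real.exp (v + exc T' t + K0) ≤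
        act6 C (7 / 10 * (κ / 2)) (1 / 5) 6 τ k (Real.log m) ep e1 J r q t →
      W * Real.exp (-(2 * Real.pi * wind6 q * h) + exc T' t + K0) ≤
        act6 C (7 / 10 * (κ / 2)) (1 / 5) 6 τ k (Real.log m) ep e1 J r q t * Real.exp (-g) := by
    intro v hv hk
    calc W * Real.exp (-(2 * Real.pi * wind6 q * h) + exc T' t + K0)
        ≤ W * Real.exp ((v + exc T' t + K0) + -g) :=
          mul_le_mul_of_nonneg_left (Real.exp_le_exp.2 (by linarith)) hW0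
      _ = W * Real.exp (v + exc T' t + K0) * Real.exp (-g) := by rw [Real.exp_add]; ring
      _ ≤ _ := mul_le_mul_of_nonneg_right hk (Real.exp_pos _).le
  cases q with
  | L => exact fin _ (by simp only [wind6]; linarith) k1
  | T => exact fin _ (by simp only [wind6]; linarith) k1
  | E => exact fin _ (by simp only [wind6]; linarith) k1
  | F => exact fin _ (by simp only [wind6]; linarith) k1
  | H1 => exact fin _ (by simp only [wind6]; linarith) k2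
  | H2 => exact fin _ (by simp only [wind6]; linarith) k2

/-! ### all objects -/

/-- **bounds by kinds of the weights of the objects**, `E x` the exponent of the clouds at `x`,
`pr a j t` the price of a hole -/
def WKBC (B0 : ℝ) (P : Par6) (pr : Bool → ℝ → ℝ → ℝ) (E : Xo → ℝ) (m : ℕ) (β T1 : ℝ) (B : OB) : Prop :=
  ∀ x : Xo, KBC B0 P (fun j => pr (sp x) j (ht x)) m β T1 (ob6 B P x * Real.exp (E x)) (k6 x)
    (ht x)

theorem WKBC.mono {B0 B1 : ℝ} (h : B0 ≤ B1) {P : Par6} {pr : Bool → ℝ → ℝ → ℝ} {E : Xo → ℝ} {m : ℕ}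
    {β T1 : ℝ} {B : OB} (hB : WKBC B0 P pr E m β T1 B) : WKBC B1 P pr E m β T1 B :=
  fun x => (hB x).mono h

/-- a smaller exponent, up to a constant -/
theorem WKBC.exp_le {B0 K : ℝ} {P : Par6} {pr : Bool → ℝ → ℝ → ℝ} {E E' : Xo → ℝ} {m : ℕ}
    {β T1 : ℝ} {B : OB} (hn : B.Nn) (h : ∀ x, E' x ≤ E x + K)
    (hB : WKBC B0 P pr E m β T1 B) : WKBC (B0 * Real.exp K) P pr E' m β T1 B := by
  intro x
  have h0 := ob6_nonneg hn P x
  have h1 : ob6 B P x * Real.exp (E' x) ≤ Real.exp K * (ob6 B P x * Real.exp (E x)) := by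
    calc ob6 B P x * Real.exp (E' x) ≤ ob6 B P x * Real.exp (E x + K) :=
          mul_le_mul_of_nonneg_left (Real.exp_le_exp.2 (h x)) h0
      _ = _ := by rw [Real.exp_add]; ring
  have hK := Real.exp_pos K
  have key := hB x
  rcases hk : k6 x with _ | _ | _ | _ | _ | _ <;> rw [hk] at key <;> refine h1.trans ?_ <;>
    · have := mul_le_mul_of_nonneg_left key hK.le
      refine this.trans (le_of_eq ?_)
      ring

/-- **the one body factor of every object, current `hC`, the gain of the tent kept** -/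
theorem one_hCCT (K0 τ : ℝ) {κ : ℝ} (hκ : 0 < κ) {B0 : ℝ} (hB0 : 0 < B0) : ∃ Ac : ℝ, 0 < Ac ∧
    ∀ e1 : ℝ, 0 < e1 → e1 ≤ 1 / 100 → ∀ J : ℝ, 0 ≤ J → ∃ m1 : ℕ, 3 ≤ m1 ∧ ∀ m : ℕ, m1 ≤ m →
    ∀ k : ℕ, ∀ ep : ℝ, 0 < ep → ep ≤ 1 / 100 → ∀ T' : ℝ, Tb (Real.log m) / (1 - ep) ≤ T' →
    ∀ (P : Par6) (pr : Bool → ℝ → ℝ → ℝ) (E : Xo → ℝ),
      (∀ j ∈ loL P, ∀ a t, κ * (m * NUMF.P t) ≤ pr a j t) → ∀ B : OB, B.Nn →
      WKBC B0 P pr E m (4 / 3 * (1 - ep)) (Tb (Real.log m) + τ) B → ∀ (r : ℕ) (x : Xo),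
        ob6 B P x * Real.exp (E x -
            2 * Real.pi * wind6 (k6 x) * hC e1 J m (ht x) + exc T' (ht x) + K0) ≤
          act6 Ac (7 / 10 * (κ / 2)) (1 / 5) 6 τ k (Real.log m) ep e1 J r (k6 x) (ht x) *
            Real.exp (-gT e1 (Real.log m) (ht x)) := by
  have hpi := Real.pi_pos
  obtain ⟨Ac, hAc, H⟩ := kbC_actT K0 0 τ hκ hB0
  refine ⟨Ac, hAc, fun e1 he he1 J hJ => ?_⟩
  obtain ⟨m2, hm2⟩ := curK (κ := κ / 2) (by linarith) he he1 hJ
  obtain ⟨m3, hm3⟩ := exists_M0 he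
  refine ⟨max (max m2 m3) 3, le_max_right _ _, fun m hm k ep hep hep1 T' hT' P pr E hA B hBn hB r x =>
    ?_⟩
  simp only [max_le_iff] at hm
  obtain ⟨⟨g2, g3⟩, g1⟩ := hm
  obtain ⟨a1, a2⟩ := hC_gain6 (J := J) he he1 hJ (hm3 m g3).1
  have a3 := hm2 m g2 (ht x)
  have b1 := a1 (ht x)
  have hg := gT_nonneg e1 (Real.log m) (ht x)
  have b2 : gT e1 (Real.log m) (ht x) ≤ 2 * Real.pi * hC e1 J m (ht x) := by
    rw [div_le_iff₀ (by positivity)] at b1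
    linarith
  have hW0 : 0 ≤ ob6 B P x * Real.exp (E x) :=
    mul_nonneg (ob6_nonneg hBn P x) (Real.exp_pos _).le
  have key := H k m g1 ep hep hep1 e1 J T' hT' r (k6 x) (ht x) P (fun j => pr (sp x) j (ht x))
    (fun j hj => hA j hj _ _) _
    (hC e1 J m (ht x)) (gT e1 (Real.log m) (ht x)) hW0 hg b1 (a2 (ht x)) (by linarith) (hB x)
  refine le_trans (le_of_eq ?_) key
  rw [mul_assoc (ob6 B P x), ← Real.exp_add]
  congr 2
  ring

/-- the same without the gain -/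
theorem one_hCC (K0 τ : ℝ) {κ : ℝ} (hκ : 0 < κ) {B0 : ℝ} (hB0 : 0 < B0) : ∃ Ac : ℝ, 0 < Ac ∧
    ∀ e1 : ℝ, 0 < e1 → e1 ≤ 1 / 100 → ∀ J : ℝ, 0 ≤ J → ∃ m1 : ℕ, 3 ≤ m1 ∧ ∀ m : ℕ, m1 ≤ m →
    ∀ k : ℕ, ∀ ep : ℝ, 0 < ep → ep ≤ 1 / 100 → ∀ T' : ℝ, Tb (Real.log m) / (1 - ep) ≤ T' →
    ∀ (P : Par6) (pr : Bool → ℝ → ℝ → ℝ) (E : Xo → ℝ),
      (∀ j ∈ loL P, ∀ a t, κ * (m * NUMF.P t) ≤ pr a j t) → ∀ B : OB, B.Nn →
      WKBC B0 P pr E m (4 / 3 * (1 - ep)) (Tb (Real.log m) + τ) B → ∀ (r : ℕ) (x : Xo),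
        ob6 B P x * Real.exp (E x -
            2 * Real.pi * wind6 (k6 x) * hC e1 J m (ht x) + exc T' (ht x) + K0) ≤
          act6 Ac (7 / 10 * (κ / 2)) (1 / 5) 6 τ k (Real.log m) ep e1 J r (k6 x) (ht x) := by
  obtain ⟨Ac, hAc, H⟩ := one_hCCT K0 τ hκ hB0
  refine ⟨Ac, hAc, fun e1 he he1 J hJ => ?_⟩
  obtain ⟨m1, hm1, H⟩ := H e1 he he1 J hJ
  refine ⟨m1, hm1, fun m hm k ep hep hep1 T' hT' P pr E hA B hBn hB r x =>
    (H m hm k ep hep hep1 T' hT' P pr E hA B hBn hB r x).trans ?_⟩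
  have hL := log_ge_one (hm1.trans hm)
  have h0 := act6_nonneg (c := 7 / 10 * (κ / 2)) (c2 := 1 / 5) (aS := 6) (τ := τ) (k := k) (ep := ep)
    (e1 := e1) (J := J) (r := r) hAc.le (by linarith : 0 ≤ Real.log m) (k6 x) (ht x)
  exact mul_le_of_le_one_right h0 (Real.exp_le_one_iff.2 (by
    have := gT_nonneg e1 (Real.log m) (ht x)
    linarith))

/-! ### from the data -/

section

variable {P : Par6} {C : ℝ} {rw : Bool → ℂ → ℝ} {cl pr : Bool → ℝ → ℝ → ℝ} {pT : Bool → ℝ → ℝ}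
  {m : ℕ} {β T1 : ℝ} {B : OB}

/-- **from the data** -/
theorem wkbC_of (hC : 0 < C) (hβ : β ≤ 4 / 3) (hM : Mf P C rw cl pr pT) (h : ObC P C rw pT m β T1 B) :
    WKBC (cKBC C) P pr (clK cl P) m β T1 B := fun x => wC_KB hC hβ hM h x

/-- the two row factors of `T` and their clouds -/
theorem ObC.rowT (h : ObC P C rw pT m β T1 B) (hM : Mf P C rw cl pr pT) (hC : 0 ≤ C) {x : Xo}
    (hx : k6 x = .T) :
    B.R (sp x) (posT (ht x)) * B.R (sp x) (posT (ht x) - l) * Real.exp (clK cl P x) ≤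
      C ^ 4 * Real.exp (pT (sp x) (ht x)) := by
  unfold clK
  rw [hx]
  simp only
  rw [Real.exp_add]
  have r1 := h.R_exp hC (j := 3 / 2) (by simp [upL]) (sp x) (ht x) (hM.top _ _)
  have r2 := h.R_exp hC (j := 5 / 2) (by simp [upL]) (sp x) (ht x) (hM.ntr (5 / 2) (by simp) _ _)
  rw [← NUO.posT_eq] at r1
  rw [← posTl_vl] at r2
  have n2 := h.nn (sp x) (posT (ht x) - l)
  calc _ = (B.R (sp x) (posT (ht x)) * Real.exp (cl (sp x) (3 / 2) (ht x))) *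
        (B.R (sp x) (posT (ht x) - l) * Real.exp (cl (sp x) (5 / 2) (ht x))) := by
        ring
    _ ≤ (C * (C * Real.exp (pT (sp x) (ht x)))) * (C * C) := by
        refine mul_le_mul r1 r2 (mul_nonneg n2 (Real.exp_pos _).le) ?_
        positivity
    _ = _ := by ring

/-- the additional weight of `T` with its mean field -/
theorem ObC.wT_le (h : ObC P C rw pT m β T1 B) (hM : Mf P C rw cl pr pT) (hC : 0 ≤ C)
    {M : Bool → ℝ → ℝ} (hM0 : ∀ a t, 0 ≤ M a t) {CM : ℝ}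
    (hMb : ∀ a t, Real.exp (pT a t) * M a t ≤ CM * cut m β t) {x : Xo} (hx : k6 x = .T) :
    wT6 B M x * Real.exp (clK cl P x) ≤ NUO.aS * C ^ 4 * CM * cut m β (ht x) := by
  have haS := NUO.aS_pos
  have h1 := h.rowT hM hC hx
  have h2 := hMb (sp x) (ht x)
  have h3 := hM0 (sp x) (ht x)
  unfold wT6
  rw [hx]
  simp only
  calc _ = NUO.aS * (B.R (sp x) (posT (ht x)) * B.R (sp x) (posT (ht x) - l) *
        Real.exp (clK cl P x)) * M (sp x) (ht x) := by ring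
    _ ≤ NUO.aS * (C ^ 4 * Real.exp (pT (sp x) (ht x))) * M (sp x) (ht x) := by
        gcongr
    _ = NUO.aS * C ^ 4 * (Real.exp (pT (sp x) (ht x)) * M (sp x) (ht x)) := by
        ring
    _ ≤ NUO.aS * C ^ 4 * (CM * cut m β (ht x)) := by gcongr
    _ = _ := by ring

/-- **the bounds by kinds of the perturbed data** -/
theorem wkbC_obE6 (h : ObC P C rw pT m β T1 B) (hM : Mf P C rw cl pr pT) (hC : 0 ≤ C) (he : 0 ≤ P.e)
    {B0 : ℝ} (hW : WKBC B0 P pr (clK cl P) m β T1 B) {r : Bool → ℂ → ℝ} {δ : ℝ} (hr : RE6 r δ)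
    (hδ : 0 ≤ δ) (hδ1 : δ ≤ 1 / 2) {M : Bool → ℝ → ℝ} (hM0 : ∀ a t, 0 ≤ M a t) {CM : ℝ}
    (hCM : 0 ≤ CM) (hMb : ∀ a t, Real.exp (pT a t) * M a t ≤ CM * cut m β t) :
    WKBC (16 * (B0 + NUO.aS * C ^ 4 * CM)) P pr (clK cl P) m β T1 (obE6 B r M) := by
  have haS := NUO.aS_pos
  intro x
  exact KBC_obE6 h.nn hr hδ hδ1 hM0 he x (by positivity) (Real.exp_pos _).le (hW x)
    fun hx => h.wT_le hM hC hM0 hMb hx

end

end PLT

end
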