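import Pool.Agent.PLT.UWI
import Pool.Agent.PLT.H1R
import Pool.Agent.PLT.H1Sum

/-!
# The base of one body data of the regular function over geometries `GX` (helper85)

Rows `x` on the imaginary axis, ends `0`, any sea.

* `rq6_RI`: data `RQ6` of `RI ep x`; `F0U_RI`: its cutoff of the strings is `F0X`;
* **`ob_RI`**: one body data of the regular function is that of `GX`;
* **`bs_RI`**: the base `BsC` in the strip `-(ep / 4) .. ep / 4`; **`bs_GI`**: the field `bs` of `OwnI` for every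
  family of geometries `GX` over admissible heights.
-/

set_option autoImplicit false
set_option linter.unusedSectionVars false
set_option linter.unusedVariables false

noncomputable section

open Complex MeasureTheory Finset Filter
open scoped ENNReal
open PLX (Fil Ends)

namespace PLT.St

open NUO NUP1 NUP1S NUP1S.Ab NUCR NUGC NUGC.PLX PHK
open PBX (Rws)
open PBForce (Rws0)
open PBR.PLX (RB6 RQ6 F0U obRU6)
open PBO.PLX (beC_bd6)
open PBU.PLX (T1L)
open _root_.Pool.Agent.PLX (yq rwq RU)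

variable [Fil] {m : ℕ}

/-- the data of the regular function -/
theorem rq6_RI {x : Fin m → ℂ} (hx : Rws0 x) {ep : ℝ} (h0 : 0 < ep) (h2 : ep ≤ 1 / 100) :
    RQ6 (RI ep x) (fun _ => [I, -I]) (2 * Real.cos l) := by
  obtain ⟨b1, b2, b3⟩ := beC_bd6 h0 h2
  have hw := rws_of hx
  have hy : Rws (yq x) := _root_.Pool.Agent.PLX.Rws_rwq hw false
  exact ⟨⟨b3, b2, hw, hy, re_zero_le, re_zero_le, rfl, rfl, (gF_RI hw true).gn.meas,
    (gF_RI hw false).gn.meas, PBX.norm_cc m, PBX.norm_cc _, fun _ w hw => re_II w hw⟩, rfl⟩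

/-- the cutoff of the strings -/
theorem F0U_RI (ep : ℝ) (x : Fin m → ℂ) : F0U (RI ep x) = F0X m x := by
  funext a
  cases a
  · exact ph_gO_fun _ _ _
  · exact ph_gO_fun _ _ _

variable [Ends]

/-- **one body data of the regular function** -/
theorem ob_RI (P : Par6) (en : EnC) (S : ℕ → SeaC) (x : (m : ℕ) → Fin m → ℂ) {m : ℕ} (hx : Rws0 (x m))
    {ep : ℝ} (h0 : 0 < ep) (h2 : ep ≤ 1 / 100) (g : Bool → ℂ → ℝ) :
    obRU6 (RI ep (x m)) (fun _ => [I, -I]) (2 * Real.cos l) g =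
      ((GX P en S x fun _ => 0).B m (NUGC.PLX.beC ep)).mul g :=
  ob_GX P en S x (fun _ => 0) (rq6_RI hx h0 h2) rfl rfl rfl (F0U_RI ep (x m)) g

/-- **the base** -/
theorem bs_RI (P : Par6) (en : EnC) (S : ℕ → SeaC) (x : (m : ℕ) → Fin m → ℂ) {m : ℕ} (hx : Rws0 (x m))
    {ep : ℝ} (h0 : 0 < ep) (h2 : ep ≤ 1 / 100) :
    BsC (NURow.XB (RI ep (x m)).X (RI ep (x m)).Y) (fun g => ((GX P en S x fun _ => 0).B m (NUGC.PLX.beC ep)).mul g)
      par6 (-(0 + ep / 4)) (0 + ep / 4) (2 * NUGC.PLX.beC ep) (Fil.xn m)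
      (⋃ a, Set.range fun i => (PBR.PLX.xrU (RI ep (x m)) a i).im) := by
  refine (PLTX.bsC_RB (P := par6) (lo := -(0 + ep / 4)) (hi := 0 + ep / 4) (Fil.add_xn m).symm
    (rq6_RI hx h0 h2).toRB6 (by linarith) (by linarith)).congr (fun _ _ _ => rfl)
    fun g => ob_RI P en S x hx h0 h2 g

/-- **the base over admissible heights**, the field `bs` of `OwnI` -/
theorem bs_GI (P : Par6) (en : EnC) (S : {h : ℕ → ℝ // HtS h} → ℕ → SeaC) :
    ∀ ep : ℝ, 0 < ep → ep ≤ 1 / 100 → ∃ m0 : ℕ, ∀ m ≥ m0, ∀ h : {h : ℕ → ℝ // HtS h},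
    ∃ (kp : ℝ) (er : ℕ) (E0 : Set ℝ), BsC (NURow.XB (RI ep (xI m h.1)).X (RI ep (xI m h.1)).Y)
      (fun g => ((GX P en (S h) (fun m => xI m h.1) fun _ => 0).B m (NUGC.PLX.beC ep)).mul g) par6
      (-(0 + ep / 4)) (0 + ep / 4) kp er E0 :=
  fun ep h0 h2 => ⟨0, fun m _ h => ⟨_, _, _, bs_RI P en (S h) (fun m => xI m h.1) (rws0_xI h.2 m) h0 h2⟩⟩

end PLT.St

end
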