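import Pool.Agent.PLT.OwnBs
import Pool.Agent.PLT.H1EMX

/-!
# The size of the prefactor over geometries `GX` over straight seas (helper85)

* **`pre_GI`**: the field `pre` of `OwnI` for geometries `GX` over the straight seas of the rows (`StrS`).
-/

set_option autoImplicit false
set_option linter.unusedSectionVars false
set_option linter.unusedVariables false

noncomputable section

open Complex

namespace PLT.St

open PHK (Par6)
open PLX (Fil)

attribute [local instance] _root_.PLX.ends0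

variable [Fil]

/-- **the size of the prefactor over admissible heights**, the field `pre` of `OwnI` -/
theorem pre_GI (P : Par6) (en : EnC) (S : {h : ℕ → ℝ // HtS h} → ℕ → SeaC)
    (hS : ∃ m0 : ℕ, ∀ m ≥ m0, ∀ h : {h : ℕ → ℝ // HtS h}, H1.StrS (S h m) m h.1) :
    ∃ C : ℝ, 0 ≤ C ∧ ∃ m0 : ℕ, ∀ m ≥ m0, ∀ h : {h : ℕ → ℝ // HtS h}, ‖nrI (xI m h.1)‖ *
      Real.exp ((GX P en (S h) (fun m => xI m h.1) fun _ => 0).EM m) ≤ C := by
  obtain ⟨m0, hS⟩ := hS
  refine ⟨Real.exp (Real.log (9 / 4 * ‖sin (NUP1.l : ℂ)‖ / ‖PBR.rh 0‖ ^ 2)), (Real.exp_pos _).le,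
    max m0 1, fun m hm h => ?_⟩
  have hm0 : m0 ≤ m := by omega
  have hm1 : 0 < m := by omega
  have key : (GX P en (S h) (fun m => xI m h.1) fun _ => 0).EM m = -Real.log ‖nrI (xI m h.1)‖ +
      Real.log (9 / 4 * ‖sin (NUP1.l : ℂ)‖ / ‖PBR.rh 0‖ ^ 2) :=
    @H1.EMX_I m h.1 (S h m) _ (hS m hm0 h) hm1
  rw [key, Real.exp_add, Real.exp_neg]
  rcases eq_or_lt_of_le (norm_nonneg (nrI (xI m h.1))) with h0 | h0
  · rw [← h0, zero_mul]
    exact (Real.exp_pos _).le
  · rw [Real.exp_log h0, ← mul_assoc, mul_inv_cancel₀ h0.ne', one_mul]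

end PLT.St

end
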