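import Pool.Agent.PLT.LinAD
import Pool.Agent.PLT.OneCntX
import Pool.Agent.PLT.GX
import Pool.Agent.PLT.OthYS

/-!
# The own factors of the letters over a content on its sea, gains dropped

* `OwnC`: the record of the regular function against a content: lists of rows, ends, constants, cutoffs;
* **`ownCX`**: own factor times `exp (MEC (mNC (sN m)) (MFX m))` at most `C A⁴ e^{-|τ|} cut`, class D1;
* `OwnF`: the data of a family; **`own_fam`**: the two inputs of `clOkY_of` for a family, any index type.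
-/

set_option autoImplicit false
set_option linter.unusedSectionVars false
set_option linter.unusedVariables false

noncomputable section

open Complex MeasureTheory Set
open PLX (Fil Ends)

namespace PLT

open NURow (HT)
open PHK PBR.PLX
open NUP1 (l)
open NUGC (cut)
open PotH.PLX (sN)
open Pool.Agent.PLX (RU)
open PBQ.PLX (KD OwnDLe)

section one

variable [Fil] [Ends]

/-- the record `D` of a regular function of size `m` against the lists of rows `W`: ends in the window, constants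
`≤ 2`, cutoffs -/
structure OwnC (h0 ep A : ℝ) (m : ℕ) (W : Bool → List ℂ) {m' M' : ℕ} (D : RU m' M') (K : KD) : Prop where
  wx : List.ofFn D.x = W true
  wy : List.ofFn D.y = W false
  e1 : EndL h0 D.p
  e2 : EndL h0 D.q
  c1 : ‖D.c‖ ≤ 2
  c2 : ‖D.c'‖ ≤ 2
  isR : IsR K D
  A1 : 1 ≤ A
  cx : CutX6 D.x m ep A D.β D.g D.g0
  cy : CutX6 D.y m ep A D.β D.g' D.g0'

/-- **own factors and class D1 over a content on its sea**, constants before sea and content -/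
theorem ownCX (ι : Type) [Fintype ι] (B : SeaCB) {de s0 lo hi wm K0 h0 : ℝ} (n0 : ℕ)
    (hde : 0 ≤ de) (hdl : 0 < de + lo) (hde1 : de ≤ 1 / 50) (hs0 : 0 ≤ s0) (hs1 : s0 ≤ 1 / 10)
    (hlo0 : lo ≤ 0) (hlo : -(1 / 100) ≤ lo) (hj : hi < 1 / 4) (hwm : 0 < wm) (hK0 : 0 ≤ K0)
    (hh0 : 0 ≤ h0) : ∃ C : ℝ, 0 < C ∧ ∃ m0 : ℕ, ∀ [SeaC] [SeaCU B] {w : ι → ℝ} {x : ι → ℂ}
      {c : Bool → List ℂ} {k : Bool → ℕ} {ex W : Bool → List ℂ} {miss m : ℕ}, m0 ≤ m →
      CntDX de s0 lo hi wm K0 h0 n0 w x c k ex W miss m → (∀ a, sN m a = nX c k a) →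
      ∀ {ep A : ℝ} {m' M' : ℕ} {D : RU m' M'} {K : KD}, OwnC h0 ep A m W D K →
      (∀ (a : Bool) (t : HT) (u : Ch6), okC6 t u → ∀ τ : ℝ,
        own6 K a t u (NUP1.vl (NUGC.PLX.htL t) τ) *
          Real.exp (MEC (fun m => mNC (sN m) m) (fun m => MFX m) m a t u τ) ≤
          C * A ^ 4 * Real.exp (-|τ|) * cut (Real.log m) ep (qh6 t u) τ) ∧
      OwnDLe (PB0.PLX.kDRU D) (fun m => MFX m) m C := by
  have hl := NUP1.l_pos
  have hll : NUMF.l = l := rfl
  obtain ⟨κ, hκ, N0, HR⟩ := rateX_P (ι := ι) (de := de) (s0 := s0) (lo := lo) (hi := hi) (j1 := 3 / 8)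
    (K0 := K0) (wm := wm) hde hdl (by linarith) hlo0 (by linarith) hs0 hs1 (by linarith) hwm hK0
  obtain ⟨C1, hC1, H1⟩ := ownC6P (Fintype.card ι * K0) (s0 := s0) (h0 := h0) n0 hs0 hh0
    (κ0 := κ / 2) (by positivity)
  obtain ⟨C2, hC2, H2⟩ := ownC6D (Fintype.card ι * K0) (s0 := s0) (h0 := h0) n0 hh0
  refine ⟨C1 + C2, by positivity, 2 * N0, @fun _ _ w x c k ex W miss m hm h hs ep A m' M' D K hD => ?_⟩
  have hso := h.so
  have hc := hso.cur
  have w1 : -(1 / 4 * NUMF.l) < lo * NUMF.l := by rw [hll]; nlinarith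
  have w2 : hi * NUMF.l < 1 / 4 * NUMF.l := by rw [hll]; nlinarith
  have xlo : ∀ i, -l ≤ (x i).re := fun i => by
    have h1 := hso.lo i
    rw [hll] at h1
    nlinarith
  have xup : ∀ i, (x i).re ≤ l / 2 := fun i => by
    have h1 := hso.up i
    rw [hll] at h1
    nlinarith
  have hO : OwnD K0 s0 h0 n0 miss w x c k ex D := {
    mass := hso.mass
    lo := xlo
    up := xup
    im := hso.im
    cnt := h.cn
    hh := hh0
    rX := by
      have := rwL_of h.rw xlo xup h.cn true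
      rwa [← hD.wx] at this
    rY := by
      have := rwL_of h.rw xlo xup h.cn false
      rwa [← hD.wy] at this
    ep := hD.e1
    eq := hD.e2
    c1 := hD.c1
    c2 := hD.c2 }
  have hrate : ∀ (a : Bool) (j : ℝ), 3 / 8 ≤ j → j < 1 → ∀ τ : ℝ,
      κ / 2 * (m * Real.exp (-(8 / 3 * |τ|))) ≤ prX c a j τ := by
    intro a j h1 h2 τ
    have hge := h.ge a
    unfold nX at hge
    have hN : N0 ≤ (c a).length + k a := by
      have h2 : ((2 * N0 : ℕ) : ℝ) ≤ m := by exact_mod_cast hm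
      push_cast at h2
      have h3 : ((N0 : ℕ) : ℝ) ≤ (((c a).length + k a : ℕ) : ℝ) := by
        push_cast
        linarith
      exact_mod_cast h3
    have h4 := (HR w x hso h.wm h.sp h.hf (c a) (k a) (h.cn a) hN j h1 h2 τ).2
    refine le_trans ?_ h4
    have hE := Real.exp_pos (-(8 / 3 * |τ|))
    calc κ / 2 * (m * Real.exp (-(8 / 3 * |τ|))) = κ * (m / 2 * Real.exp (-(8 / 3 * |τ|))) := by ring
      _ ≤ κ * ((((c a).length : ℝ) + k a) * Real.exp (-(8 / 3 * |τ|))) := by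
          refine mul_le_mul_of_nonneg_left (mul_le_mul_of_nonneg_right ?_ hE.le) hκ.le
          linarith
  have hpr : ∀ (a : Bool) (j : ℝ), 3 / 8 ≤ j → j < 1 → ∀ τ : ℝ, 0 ≤ prX c a j τ := fun a j h1 h2 τ =>
    le_trans (by positivity) (hrate a j h1 h2 τ)
  have g34 : ∀ a τ, 0 ≤ prX c a (3 / 4) τ := fun a τ => hpr a _ (by norm_num) (by norm_num) τ
  have g38 : ∀ a τ, 0 ≤ prX c a (3 / 8) τ := fun a τ => hpr a _ (by norm_num) (by norm_num) τ
  have hgC : ∀ a t u τ, 0 ≤ gC c a t u τ := by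
    intro a t u τ
    have q1 := g34 (!a) τ
    have q2 := g38 (!a) τ
    have q3 := g38 a τ
    unfold gC
    cases t
    · exact le_rfl
    · exact q1
    · simp only []
      split_ifs
      · exact q1
      · exact le_rfl
    · simp only []
      split_ifs <;> linarith
  have hgC' : ∀ a t u τ, 0 ≤ gC' c a t u τ := by
    intro a t u τ
    unfold gC'
    split_ifs
    · exact g38 (!a) τ
    · exact hgC a t u τ
  have hnX : sN m = nX c k := funext hs
  have hA4 : (1 : ℝ) ≤ A ^ 4 := one_le_pow₀ hD.A1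
  refine ⟨fun a t u hu τ => ?_, fun o τ => ?_⟩
  · have e1 : MEC (fun m => mNC (sN m) m) (fun m => MFX m) m a t u τ =
        MF6X Cv.P Cv.eta (nX c k) t u a (NUP1.vl (NUGC.PLX.htL t) τ) + pl6 m t u τ := by
      rw [← hnX, ← mNC_sea B]
      rfl
    rw [e1]
    have key := H1 le_rfl hO hc w1 w2 hD.isR hD.A1 hD.cx hD.cy
      (fun a τ => hrate a (3 / 8) le_rfl (by norm_num) τ) a t u hu τ
    refine key.trans ?_
    have c0 := NUGC.cut_nonneg (Real.log m) ep (qh6 t u) τ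
    have he := Real.exp_pos (-|τ|)
    have hg : Real.exp (-gC' c a t u τ) ≤ 1 := Real.exp_le_one_iff.2 (by linarith [hgC' a t u τ])
    have b0 : 0 ≤ C1 * A ^ 4 * Real.exp (-|τ|) * cut (Real.log m) ep (qh6 t u) τ := by positivity
    calc C1 * A ^ 4 * Real.exp (-|τ|) * cut (Real.log m) ep (qh6 t u) τ * Real.exp (-gC' c a t u τ) ≤
          C1 * A ^ 4 * Real.exp (-|τ|) * cut (Real.log m) ep (qh6 t u) τ * 1 :=
          mul_le_mul_of_nonneg_left hg b0
      _ = C1 * (A ^ 4 * Real.exp (-|τ|) * cut (Real.log m) ep (qh6 t u) τ) := by ring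
      _ ≤ (C1 + C2) * (A ^ 4 * Real.exp (-|τ|) * cut (Real.log m) ep (qh6 t u) τ) :=
          mul_le_mul_of_nonneg_right (by linarith) (by positivity)
      _ = _ := by ring
  · have key := H2 le_rfl hO hc w1 w2 o τ
    have e0 : (-(11 / 4) * NUP1.l : ℝ) = NUGC.PLX.htL .F := rfl
    have e1 : MFX m (!o) .d (NUP1.vl (-(11 / 4) * NUP1.l) τ) =
        MFdX Cv.P Cv.eta (nX c k (!o)) (NUP1.vl (NUGC.PLX.htL .F) τ) := by
      rw [← hnX, ← seaGC_d B (sN m) false (!o) τ]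
      rfl
    show ‖PB0.PLX.kDRU D o (NUP1.vl (-(11 / 4) * NUP1.l) τ)‖ *
      Real.exp (MFX m (!o) .d (NUP1.vl (-(11 / 4) * NUP1.l) τ)) ≤ (C1 + C2) * Real.exp (-2 * |τ|)
    rw [e1, e0]
    have e2 : -2 * |τ| = -(2 * |τ|) := by ring
    rw [e2]
    exact key.trans (mul_le_mul_of_nonneg_right (by linarith) (Real.exp_pos _).le)

end one

/-! ### families -/

section fam

variable [Fil] [Ends]

/-- the data of a family of contents (sizes `m ≥ m0`, all indices) on its seas, cutoff constants for each `ep` -/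
def OwnF {σ : Type*} (ι : Type) [Fintype ι] (B : SeaCB) (de s0 lo hi wm K0 h0 : ℝ) (n0 : ℕ)
    (S : σ → ℕ → SeaC) (K : σ → ℝ → ℕ → KD) (kD : σ → ℝ → ℕ → Bool → ℂ → ℂ) : Prop :=
  ∀ ep : ℝ, 0 < ep → ep ≤ 1 / 100 → ∃ A : ℝ, ∃ m0 : ℕ, ∀ m ≥ m0, ∀ i : σ,
    @SeaCU B (S i m) ∧ ∃ (w : ι → ℝ) (x : ι → ℂ) (c : Bool → List ℂ) (k : Bool → ℕ)
      (ex W : Bool → List ℂ) (miss m' M' : ℕ) (D : RU m' M'),
      @CntDX ι _ (S i m) de s0 lo hi wm K0 h0 n0 w x c k ex W miss m ∧ (∀ a, sN m a = nX c k a) ∧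
      OwnC h0 ep A m W D (K i ep m) ∧ kD i ep m = PB0.PLX.kDRU D

/-- **own factors of a family and class D1**, literal of `clOkY_of` -/
theorem own_fam {σ : Type*} (ι : Type) [Fintype ι] (B : SeaCB) {de s0 lo hi wm K0 h0 : ℝ} (n0 : ℕ)
    (hde : 0 ≤ de) (hdl : 0 < de + lo) (hde1 : de ≤ 1 / 50) (hs0 : 0 ≤ s0) (hs1 : s0 ≤ 1 / 10)
    (hlo0 : lo ≤ 0) (hlo : -(1 / 100) ≤ lo) (hj : hi < 1 / 4) (hwm : 0 < wm) (hK0 : 0 ≤ K0)
    (hh0 : 0 ≤ h0) {S : σ → ℕ → SeaC} {K : σ → ℝ → ℕ → KD} {kD : σ → ℝ → ℕ → Bool → ℂ → ℂ}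
    (h : OwnF ι B de s0 lo hi wm K0 h0 n0 S K kD) :
    (∀ ep : ℝ, 0 < ep → ep ≤ 1 / 100 → ∃ C : ℝ, 0 ≤ C ∧ ∃ m0 : ℕ, ∀ m ≥ m0,
      ∀ (i : σ) (a : Bool) (t : HT) (u : Ch6), okC6 t u → ∀ τ : ℝ,
        own6 (K i ep m) a t u (NUP1.vl (NUGC.PLX.htL t) τ) *
          Real.exp (MEC (fun m => @mNC (S i m) (sN m) m) (fun m => @MFX _ _ (S i m) m) m a t u τ) ≤
          C * 1 * Real.exp (-|τ|) * cut (Real.log m) ep (qh6 t u) τ) ∧
    ∀ ep : ℝ, 0 < ep → ep ≤ 1 / 100 → ∃ C : ℝ, 0 ≤ C ∧ ∃ m0 : ℕ, ∀ m ≥ m0,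
      ∀ i : σ, OwnDLe (kD i ep m) (fun m => @MFX _ _ (S i m) m) m C := by
  obtain ⟨C, hC, n1, H⟩ := ownCX ι B (s0 := s0) (lo := lo) (hi := hi) (wm := wm) (K0 := K0) (h0 := h0)
    n0 hde hdl hde1 hs0 hs1 hlo0 hlo hj hwm hK0 hh0
  constructor
  · intro ep hep hep1
    obtain ⟨A, m0, hm⟩ := h ep hep hep1
    refine ⟨C * A ^ 4, by positivity, max n1 m0, fun m hm' i => ?_⟩
    obtain ⟨hSU, w, x, c, k, ex, W, miss, m', M', D, hc, hs, hD, -⟩ :=
      hm m ((le_max_right _ _).trans hm') i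
    intro a t u hu τ
    have key := (@H (S i m) hSU w x c k ex W miss m ((le_max_left _ _).trans hm') hc hs ep A m' M' D _
      hD).1 a t u hu τ
    rw [mul_one]
    exact key
  · intro ep hep hep1
    obtain ⟨A, m0, hm⟩ := h ep hep hep1
    refine ⟨C, hC.le, max n1 m0, fun m hm' i => ?_⟩
    obtain ⟨hSU, w, x, c, k, ex, W, miss, m', M', D, hc, hs, hD, hk⟩ :=
      hm m ((le_max_right _ _).trans hm') i
    have key := (@H (S i m) hSU w x c k ex W miss m ((le_max_left _ _).trans hm') hc hs ep A m' M' D _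
      hD).2
    rw [hk]
    exact key

end fam

end PLT

end
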