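import Pool.Agent.PLT.Level

/-!
# The balanced pair of rows: closed form of the density

Rows at the places `- y l` (weight `wA y = sin (π (1 - y) / 3)`) and `(1 - y) l` (weight
`wB y = sin (π y / 3)`), `mP y`, `xP y`; `mu y = π (y - 1 / 2)`.

* **`PC_pair`**: `PC (mP y) (xP y) z = 4 / π cosh (16 z / 3 - i mu) / cosh (8 z - i mu)`;
* `mem_Dm`: `Dm (xP y) = (- (1 - y) l, y l)`; `den_pos`;
* **`PC_pair_re`**, **`PC_pair_im`**: real and imaginary part at the offset `v`, height `t`;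
* `SC_pair`: the level function.
-/

set_option autoImplicit false

noncomputable section

open MeasureTheory Set Filter Topology

namespace PLT

open NUMF

/-- weight of the row at `- y l` -/
def wA (y : ℝ) : ℝ := Real.sin (Real.pi * (1 - y) / 3)

/-- weight of the row at `(1 - y) l` -/
def wB (y : ℝ) : ℝ := Real.sin (Real.pi * y / 3)

/-- weights of the balanced pair -/
def mP (y : ℝ) : Fin 2 → ℝ := ![wA y, wB y]

/-- places of the balanced pair -/
def xP (y : ℝ) : Fin 2 → ℝ := ![-(y * l), (1 - y) * l]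

/-- the phase -/
def mu (y : ℝ) : ℝ := Real.pi * (y - 1 / 2)

theorem SC_pair (y v t : ℝ) : SC (mP y) (xP y) v t =
    wA y * Ag (v - y * l) t + wB y * Ag (v + (1 - y) * l) t := by
  unfold SC mP xP
  rw [Fin.sum_univ_two]
  simp only [Matrix.cons_val_zero, Matrix.cons_val_one]
  rw [← sub_eq_add_neg]

theorem PC_pair_sum (y : ℝ) (z : ℂ) : PC (mP y) (xP y) z =
    wA y * Pc (z - y * l * Complex.I) + wB y * Pc (z + (1 - y) * l * Complex.I) := by
  unfold PC mP xP
  rw [Fin.sum_univ_two]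
  simp only [Matrix.cons_val_zero, Matrix.cons_val_one]
  push_cast
  rw [neg_mul, ← sub_eq_add_neg]

theorem wA_eq (y : ℝ) : wA y = Real.cos (mu y / 3) / 2 - √3 / 2 * Real.sin (mu y / 3) := by
  unfold wA mu
  rw [show Real.pi * (1 - y) / 3 = Real.pi / 6 - Real.pi * (y - 1 / 2) / 3 by ring, Real.sin_sub,
    Real.sin_pi_div_six, Real.cos_pi_div_six]
  ring

theorem wB_eq (y : ℝ) : wB y = Real.cos (mu y / 3) / 2 + √3 / 2 * Real.sin (mu y / 3) := by
  unfold wB mu
  rw [show Real.pi * y / 3 = Real.pi / 6 + Real.pi * (y - 1 / 2) / 3 by ring, Real.sin_add,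
    Real.sin_pi_div_six, Real.cos_pi_div_six]
  ring

/-- **closed form of the density of the balanced pair** -/
theorem PC_pair {y : ℝ} {z : ℂ} (h : Complex.cosh (8 * z - mu y * Complex.I) ≠ 0) :
    PC (mP y) (xP y) z = 4 / Real.pi * (Complex.cosh (16 / 3 * z - mu y * Complex.I) /
      Complex.cosh (8 * z - mu y * Complex.I)) := by
  obtain ⟨ζ, hζ⟩ : ∃ ζ : ℂ, ζ = 8 / 3 * z - (mu y / 3 : ℝ) * Complex.I := ⟨_, rfl⟩
  obtain ⟨c, hc⟩ : ∃ c, c = Complex.cosh ζ := ⟨_, rfl⟩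
  obtain ⟨s, hs⟩ : ∃ s, s = Complex.sinh ζ := ⟨_, rfl⟩
  obtain ⟨q, hq⟩ : ∃ q : ℂ, q = ((√3 : ℝ) : ℂ) := ⟨_, rfl⟩
  obtain ⟨cd, hcd⟩ : ∃ cd : ℂ, cd = ((Real.cos (mu y / 3) : ℝ) : ℂ) := ⟨_, rfl⟩
  obtain ⟨sd, hsd⟩ : ∃ sd : ℂ, sd = ((Real.sin (mu y / 3) : ℝ) : ℂ) := ⟨_, rfl⟩
  have hq2 : q ^ 2 = 3 := by
    rw [hq]
    have : (√3 : ℝ) ^ 2 = 3 := Real.sq_sqrt (by norm_num)
    exact_mod_cast this
  have hq0 : q ≠ 0 := by
    intro h
    rw [h] at hq2
    norm_num at hq2
  have hCS : c ^ 2 - s ^ 2 = 1 := by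
    rw [hc, hs]
    exact Complex.cosh_sq_sub_sinh_sq _
  have hI := Complex.I_sq
  have hpi : (Real.pi : ℂ) = 8 * (l : ℂ) := by
    have : Real.pi = 8 * l := by unfold l; ring
    rw [this]
    push_cast
    rfl
  have hp : (Real.pi : ℂ) ≠ 0 := by exact_mod_cast Real.pi_ne_zero
  have c6 : Complex.cosh (Real.pi / 6 * Complex.I) = q / 2 := by
    rw [Complex.cosh_mul_I]
    have : Complex.cos (Real.pi / 6) = ((Real.cos (Real.pi / 6) : ℝ) : ℂ) := by push_cast; rfl
    rw [this, Real.cos_pi_div_six, hq]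
    push_cast
    rfl
  have s6 : Complex.sinh (Real.pi / 6 * Complex.I) = Complex.I / 2 := by
    rw [Complex.sinh_mul_I]
    have : Complex.sin (Real.pi / 6) = ((Real.sin (Real.pi / 6) : ℝ) : ℂ) := by push_cast; rfl
    rw [this, Real.sin_pi_div_six]
    push_cast
    ring
  have hmu : (mu y : ℂ) = 8 * l * (y - 1 / 2) := by
    unfold mu
    push_cast
    rw [hpi]
  have a1 : 8 / 3 * (z - y * l * Complex.I) = ζ - Real.pi / 6 * Complex.I := by
    rw [hζ, hpi]
    push_cast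
    rw [hmu]
    ring
  have a2 : 8 / 3 * (z + (1 - y) * l * Complex.I) = ζ + Real.pi / 6 * Complex.I := by
    rw [hζ, hpi]
    push_cast
    rw [hmu]
    ring
  have k1 : Complex.cosh (8 / 3 * (z - y * l * Complex.I)) = (q * c - Complex.I * s) / 2 := by
    rw [a1, Complex.cosh_sub, c6, s6, hc, hs]
    ring
  have k2 : Complex.cosh (8 / 3 * (z + (1 - y) * l * Complex.I)) = (q * c + Complex.I * s) / 2 := by
    rw [a2, Complex.cosh_add, c6, s6, hc, hs]
    ring
  have k3 : Complex.cosh (8 * z - mu y * Complex.I) = c * (c ^ 2 + 3 * s ^ 2) := by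
    rw [show 8 * z - mu y * Complex.I = 3 * ζ by
      rw [hζ]
      push_cast
      ring, Complex.cosh_three_mul, ← hc]
    linear_combination (3 * c) * hCS
  have k4 : Complex.cosh (16 / 3 * z - mu y * Complex.I) =
      cd * (c ^ 2 + s ^ 2) - Complex.I * sd * (2 * c * s) := by
    rw [show 16 / 3 * z - mu y * Complex.I = 2 * ζ - (mu y / 3 : ℝ) * Complex.I by
      rw [hζ]
      push_cast
      ring, Complex.cosh_sub, Complex.cosh_two_mul, Complex.sinh_two_mul, Complex.cosh_mul_I,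
      Complex.sinh_mul_I, ← Complex.ofReal_cos, ← Complex.ofReal_sin, ← hc, ← hs, ← hcd, ← hsd]
    ring
  rw [k3] at h ⊢
  rw [k4, PC_pair_sum]
  have hc0 : c ≠ 0 := left_ne_zero_of_mul h
  have hcs : c ^ 2 + 3 * s ^ 2 ≠ 0 := right_ne_zero_of_mul h
  obtain ⟨u, hu⟩ : ∃ u, u = c - q * Complex.I * s := ⟨_, rfl⟩
  obtain ⟨u', hu'⟩ : ∃ u', u' = c + q * Complex.I * s := ⟨_, rfl⟩
  have huu : u * u' = c ^ 2 + 3 * s ^ 2 := by
    rw [hu, hu']
    linear_combination (-(q ^ 2 * s ^ 2)) * hI + s ^ 2 * hq2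
  have hu0 : u ≠ 0 := by
    intro h0
    rw [h0, zero_mul] at huu
    exact hcs huu.symm
  have hu0' : u' ≠ 0 := by
    intro h0
    rw [h0, mul_zero] at huu
    exact hcs huu.symm
  have g1 : (2 * ((q * c - Complex.I * s) / 2) - 1) * (2 * ((q * c - Complex.I * s) / 2) + 1) =
      2 * c * u := by
    rw [hu]
    linear_combination c ^ 2 * hq2 + s ^ 2 * hI + hCS
  have g2 : (2 * ((q * c + Complex.I * s) / 2) - 1) * (2 * ((q * c + Complex.I * s) / 2) + 1) =
      2 * c * u' := by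
    rw [hu']
    linear_combination c ^ 2 * hq2 + s ^ 2 * hI + hCS
  have f1 : Pc (z - y * l * Complex.I) = 4 / (q * Real.pi) * ((q * c - Complex.I * s) / (c * u)) := by
    unfold Pc
    rw [k1]
    have n1 : 2 * ((q * c - Complex.I * s) / 2) - 1 ≠ 0 := by
      intro h0
      rw [h0, zero_mul] at g1
      exact (mul_ne_zero (mul_ne_zero two_ne_zero hc0) hu0) g1.symm
    have n2 : 2 * ((q * c - Complex.I * s) / 2) + 1 ≠ 0 := by
      intro h0
      rw [h0, mul_zero] at g1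
      exact (mul_ne_zero (mul_ne_zero two_ne_zero hc0) hu0) g1.symm
    rw [div_add_div _ _ n1 n2, g1]
    push_cast
    rw [← hq]
    field_simp
    ring
  have f2 : Pc (z + (1 - y) * l * Complex.I) =
      4 / (q * Real.pi) * ((q * c + Complex.I * s) / (c * u')) := by
    unfold Pc
    rw [k2]
    have n1 : 2 * ((q * c + Complex.I * s) / 2) - 1 ≠ 0 := by
      intro h0
      rw [h0, zero_mul] at g2
      exact (mul_ne_zero (mul_ne_zero two_ne_zero hc0) hu0') g2.symm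
    have n2 : 2 * ((q * c + Complex.I * s) / 2) + 1 ≠ 0 := by
      intro h0
      rw [h0, mul_zero] at g2
      exact (mul_ne_zero (mul_ne_zero two_ne_zero hc0) hu0') g2.symm
    rw [div_add_div _ _ n1 n2, g2]
    push_cast
    rw [← hq]
    field_simp
    ring
  have wa : ((wA y : ℝ) : ℂ) = cd / 2 - q / 2 * sd := by
    rw [wA_eq, hcd, hsd, hq]
    push_cast
    rfl
  have wb : ((wB y : ℝ) : ℂ) = cd / 2 + q / 2 * sd := by
    rw [wB_eq, hcd, hsd, hq]
    push_cast
    rfl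
  rw [f1, f2, wa, wb, ← huu]
  have key : (cd / 2 - q / 2 * sd) * ((q * c - Complex.I * s) * u') +
      (cd / 2 + q / 2 * sd) * ((q * c + Complex.I * s) * u) =
      q * (cd * (c ^ 2 + s ^ 2) - Complex.I * sd * (2 * c * s)) := by
    rw [hu, hu']
    linear_combination (-(cd * q * s ^ 2)) * hI - (q * sd * Complex.I * c * s) * hq2
  rw [show (cd / 2 - q / 2 * sd) * (4 / (q * Real.pi) * ((q * c - Complex.I * s) / (c * u))) +
    (cd / 2 + q / 2 * sd) * (4 / (q * Real.pi) * ((q * c + Complex.I * s) / (c * u'))) =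
    4 / (q * Real.pi) * (((cd / 2 - q / 2 * sd) * ((q * c - Complex.I * s) * u') +
      (cd / 2 + q / 2 * sd) * ((q * c + Complex.I * s) * u)) / (c * (u * u'))) by
      field_simp, key]
  field_simp

/-! ### real and imaginary part -/

/-- quotient of two hyperbolic cosines -/
theorem cosh_div {A B C D : ℝ} (h : Real.cosh (2 * C) + Real.cos (2 * D) ≠ 0) :
    Complex.cosh ((C : ℂ) + D * Complex.I) ≠ 0 ∧
    Complex.cosh ((A : ℂ) + B * Complex.I) / Complex.cosh ((C : ℂ) + D * Complex.I) =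
      (((Real.cosh (A + C) * Real.cos (B - D) + Real.cosh (A - C) * Real.cos (B + D)) /
        (Real.cosh (2 * C) + Real.cos (2 * D)) : ℝ) : ℂ) +
      (((Real.sinh (A + C) * Real.sin (B - D) + Real.sinh (A - C) * Real.sin (B + D)) /
        (Real.cosh (2 * C) + Real.cos (2 * D)) : ℝ) : ℂ) * Complex.I := by
  have eX : ∀ a b : ℝ, Complex.cosh ((a : ℂ) + b * Complex.I) =
      ((Real.cosh a * Real.cos b : ℝ) : ℂ) + ((Real.sinh a * Real.sin b : ℝ) : ℂ) * Complex.I := by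
    intro a b
    rw [Complex.cosh_add, Complex.cosh_mul_I, Complex.sinh_mul_I]
    push_cast
    ring
  obtain ⟨d, hd⟩ : ∃ d, d = Real.cosh (2 * C) + Real.cos (2 * D) := ⟨_, rfl⟩
  have hd2 : (Real.cosh C * Real.cos D) ^ 2 + (Real.sinh C * Real.sin D) ^ 2 = d / 2 := by
    have h1 := Real.cosh_sq C
    have h2 := Real.sin_sq_add_cos_sq D
    rw [hd, Real.cosh_two_mul, Real.cos_two_mul]
    have h3 : Real.sinh C ^ 2 = Real.cosh C ^ 2 - 1 := by linarith
    have h4 : Real.sin D ^ 2 = 1 - Real.cos D ^ 2 := by linarith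
    rw [mul_pow, mul_pow, h3, h4]
    ring
  rw [← hd] at h ⊢
  have hY : (((Real.cosh C * Real.cos D : ℝ) : ℂ) + ((Real.sinh C * Real.sin D : ℝ) : ℂ) * Complex.I) *
      (((Real.cosh C * Real.cos D : ℝ) : ℂ) - ((Real.sinh C * Real.sin D : ℝ) : ℂ) * Complex.I) =
      ((d / 2 : ℝ) : ℂ) := by
    rw [← hd2]
    push_cast
    linear_combination (-((Complex.sinh C : ℂ) * Complex.sin D) ^ 2) * Complex.I_sq
  have hd0 : ((d / 2 : ℝ) : ℂ) ≠ 0 := by
    have : d / 2 ≠ 0 := div_ne_zero h two_ne_zero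
    exact_mod_cast this
  have hY0 : (((Real.cosh C * Real.cos D : ℝ) : ℂ) +
      ((Real.sinh C * Real.sin D : ℝ) : ℂ) * Complex.I) ≠ 0 := by
    intro h0
    rw [h0, zero_mul] at hY
    exact hd0 hY.symm
  rw [eX, eX]
  refine ⟨hY0, ?_⟩
  rw [div_eq_iff hY0, Real.cosh_add, Real.cosh_sub, Real.cos_add, Real.cos_sub, Real.sinh_add,
    Real.sinh_sub, Real.sin_add, Real.sin_sub]
  have hdc : (d : ℂ) ≠ 0 := by exact_mod_cast h
  have hI := Complex.I_sq
  have hY2 : (Complex.cosh C * Complex.cos D) ^ 2 + (Complex.sinh C * Complex.sin D) ^ 2 =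
      (d : ℂ) / 2 := by
    have : (((Real.cosh C * Real.cos D) ^ 2 + (Real.sinh C * Real.sin D) ^ 2 : ℝ) : ℂ) =
      ((d / 2 : ℝ) : ℂ) := by rw [hd2]
    push_cast at this
    exact this
  push_cast
  field_simp
  linear_combination (-2 * (Complex.cosh A * Complex.cos B + Complex.sinh A * Complex.sin B *
    Complex.I)) * hY2 + (2 * Complex.cosh A * Complex.cos B * Complex.sinh C ^ 2 *
    Complex.sin D ^ 2 - 2 * Complex.sinh A * Complex.sin B * Complex.cosh C * Complex.sinh C *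
    Complex.cos D * Complex.sin D) * hI

/-- the denominator -/
def dn (y v t : ℝ) : ℝ := Real.cosh (6 * (8 / 3 * t)) + Real.cos (6 * (8 / 3 * v) - 2 * mu y)

theorem PC_pair_parts {y v t : ℝ} (h : dn y v t ≠ 0) :
    PC (mP y) (xP y) ((t : ℂ) + v * Complex.I) =
      ((4 / Real.pi * ((Real.cosh (5 * (8 / 3 * t)) * Real.cos (8 / 3 * v) +
        Real.cosh (8 / 3 * t) * Real.cos (5 * (8 / 3 * v) - 2 * mu y)) / dn y v t) : ℝ) : ℂ) +
      ((-(4 / Real.pi * ((Real.sinh (5 * (8 / 3 * t)) * Real.sin (8 / 3 * v) +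
        Real.sinh (8 / 3 * t) * Real.sin (5 * (8 / 3 * v) - 2 * mu y)) / dn y v t)) : ℝ) : ℂ) *
        Complex.I := by
  have e1 : 8 * ((t : ℂ) + v * Complex.I) - mu y * Complex.I =
      ((8 * t : ℝ) : ℂ) + ((8 * v - mu y : ℝ) : ℂ) * Complex.I := by
    push_cast
    ring
  have e2 : 16 / 3 * ((t : ℂ) + v * Complex.I) - mu y * Complex.I =
      ((16 / 3 * t : ℝ) : ℂ) + ((16 / 3 * v - mu y : ℝ) : ℂ) * Complex.I := by
    push_cast
    ring
  have hd : dn y v t = Real.cosh (2 * (8 * t)) + Real.cos (2 * (8 * v - mu y)) := by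
    unfold dn
    congr 2 <;> ring
  have h' := h
  rw [hd] at h'
  obtain ⟨n0, key⟩ := cosh_div (A := 16 / 3 * t) (B := 16 / 3 * v - mu y) h'
  rw [← hd] at key
  rw [PC_pair (by rw [e1]; exact n0), e1, e2, key]
  rw [show 16 / 3 * t + 8 * t = 5 * (8 / 3 * t) by ring,
    show 16 / 3 * t - 8 * t = -(8 / 3 * t) by ring,
    show 16 / 3 * v - mu y - (8 * v - mu y) = -(8 / 3 * v) by ring,
    show 16 / 3 * v - mu y + (8 * v - mu y) = 5 * (8 / 3 * v) - 2 * mu y by ring, Real.cos_neg,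
    Real.sin_neg, Real.cosh_neg, Real.sinh_neg]
  push_cast
  ring

/-- **real part of the density of the pair** -/
theorem PC_pair_re {y v t : ℝ} (h : dn y v t ≠ 0) :
    (PC (mP y) (xP y) ((t : ℂ) + v * Complex.I)).re =
      4 / Real.pi * ((Real.cosh (5 * (8 / 3 * t)) * Real.cos (8 / 3 * v) +
        Real.cosh (8 / 3 * t) * Real.cos (5 * (8 / 3 * v) - 2 * mu y)) / dn y v t) := by
  rw [PC_pair_parts h]
  simp only [Complex.add_re, Complex.ofReal_re, Complex.mul_re, Complex.I_re, mul_zero,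
    Complex.ofReal_im, Complex.I_im, mul_one, sub_self, add_zero]

/-- **imaginary part of the density of the pair** -/
theorem PC_pair_im {y v t : ℝ} (h : dn y v t ≠ 0) :
    (PC (mP y) (xP y) ((t : ℂ) + v * Complex.I)).im =
      -(4 / Real.pi * ((Real.sinh (5 * (8 / 3 * t)) * Real.sin (8 / 3 * v) +
        Real.sinh (8 / 3 * t) * Real.sin (5 * (8 / 3 * v) - 2 * mu y)) / dn y v t)) := by
  rw [PC_pair_parts h]
  simp only [Complex.add_im, Complex.ofReal_re, Complex.mul_im, Complex.I_re, mul_zero,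
    Complex.ofReal_im, Complex.I_im, mul_one, zero_add, add_zero]

/-- the offsets between the poles -/
theorem mem_Dm {y v : ℝ} : v ∈ Dm (xP y) ↔ -((1 - y) * l) < v ∧ v < y * l := by
  have hl : 0 < l := by unfold l; positivity
  have e : v ∈ Dm (xP y) ↔ |v + -(y * l)| < l ∧ |v + (1 - y) * l| < l := by
    show (∀ i, |v + xP y i| < l) ↔ _
    rw [Fin.forall_fin_two]
    rfl
  rw [e, abs_lt, abs_lt]
  constructor
  · rintro ⟨⟨h1, h2⟩, h3, h4⟩
    constructor <;> nlinarith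
  · rintro ⟨h1, h2⟩
    refine ⟨⟨?_, ?_⟩, ?_, ?_⟩ <;> nlinarith

/-- the denominator is positive between the poles -/
theorem dn_pos {y v : ℝ} (h1 : -((1 - y) * l) < v) (h2 : v < y * l) (t : ℝ) : 0 < dn y v t := by
  have hpi : Real.pi = 8 * l := by unfold l; ring
  have hl : 0 < l := by unfold l; positivity
  have hc : 1 ≤ Real.cosh (6 * (8 / 3 * t)) := Real.one_le_cosh _
  have h3 : -Real.pi < 6 * (8 / 3 * v) - 2 * mu y := by
    unfold mu
    rw [hpi]
    nlinarith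
  have h4 : 6 * (8 / 3 * v) - 2 * mu y < Real.pi := by
    unfold mu
    rw [hpi]
    nlinarith
  have h5 : -1 < Real.cos (6 * (8 / 3 * v) - 2 * mu y) := by
    rw [← Real.cos_pi, ← Real.cos_abs (6 * (8 / 3 * v) - 2 * mu y)]
    exact Real.cos_lt_cos_of_nonneg_of_le_pi (abs_nonneg _) le_rfl (abs_lt.2 ⟨h3, h4⟩)
  unfold dn
  linarith

end PLT

end
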