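import Pool.Agent.PLT.Psi
import Pool.Agent.NUO.OneW

/-!
# The cutoff of a list of rows at any places: from above and from below

A row at `x ∈ ℂ`, a quantum at `u`: `RwD δ h0 u X`: `(-3 + δ) l ≤ re (u - x) ≤ (2 - δ) l` (offset plus
place in `[-1 + δ, 4 - δ]`), `|im x| ≤ h0`, for all `x ∈ X`. `E = exp (-2 β |im u|)`.

* `norm_exp_sub_one`: `‖exp L - 1‖ ≤ ‖L‖ max 1 ‖exp L‖`;
* `prod_le`: `‖∏ psi‖ ≤ exp (K E |X|)`;
* **`phi_up`**: if `‖∏ psi‖ ≤ exp B` then `‖phi β X u‖ ≤ C cut m β (im u)`;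
* **`phi_low`**: if `‖∏ psi‖ ≤ exp (-(c m E))` for the bulk and `m ≥ m0` then
  `c' cut m β (im u) ≤ ‖phi β X u‖`: no zero of the cutoff on the lines of the holes;
* `prod_bulk`: `‖∏ psi‖ ≤ exp (-(∑ A (j + x) (3 β / 4 t)))`, `A` the level function.
-/

set_option autoImplicit false

noncomputable section

open Complex

namespace PLT

open NUP1
open NUO (cut)

/-! ### exponential -/

theorem norm_exp_sub_one (L : ℂ) : ‖Complex.exp L - 1‖ ≤ ‖L‖ * max 1 ‖Complex.exp L‖ := by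
  have hd : ∀ s ∈ Set.Icc (0 : ℝ) 1, HasDerivWithinAt (fun s : ℝ => Complex.exp (s * L))
      (Complex.exp (s * L) * L) (Set.Icc 0 1) s := by
    intro s _
    have h1 : HasDerivAt (fun s : ℝ => (s : ℂ) * L) L s := by
      have := (Complex.ofRealCLM.hasDerivAt (x := s)).mul_const L
      simpa using this
    exact h1.cexp.hasDerivWithinAt
  have hb : ∀ s ∈ Set.Icc (0 : ℝ) 1, ‖Complex.exp (s * L) * L‖ ≤ ‖L‖ * max 1 ‖Complex.exp L‖ := by
    intro s hs
    rw [norm_mul, mul_comm]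
    refine mul_le_mul_of_nonneg_left ?_ (norm_nonneg _)
    rw [Complex.norm_exp, Complex.norm_exp, show ((s : ℂ) * L).re = s * L.re by simp]
    rcases le_total 0 L.re with h | h
    · refine le_trans ?_ (le_max_right _ _)
      exact Real.exp_le_exp.2 (mul_le_of_le_one_left h hs.2)
    · refine le_trans ?_ (le_max_left _ _)
      exact Real.exp_le_one_iff.2 (mul_nonpos_of_nonneg_of_nonpos hs.1 h)
  have h := (convex_Icc (0 : ℝ) 1).norm_image_sub_le_of_norm_hasDerivWithin_le hd hb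
    (Set.left_mem_Icc.2 zero_le_one) (Set.right_mem_Icc.2 zero_le_one)
  simpa using h

/-! ### one row -/

/-- the constant of one row -/
def cK (δ h0 : ℝ) : ℝ := 4 / kd δ * Real.exp (8 / 3 * h0)

theorem cK_ge {δ h0 : ℝ} (h1 : 0 < δ) (h2 : δ ≤ 1) (h3 : 0 ≤ h0) : 4 ≤ cK δ h0 := by
  unfold cK
  have a1 := kd_pos h1 (by linarith)
  have a2 := kd_le h1.le h2
  have a3 : 4 ≤ 4 / kd δ := by
    rw [le_div_iff₀ a1]; linarith
  have a4 : 1 ≤ Real.exp (8 / 3 * h0) := Real.one_le_exp (by positivity)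
  nlinarith

section row
variable {β δ h0 : ℝ} {u x : ℂ}

theorem psi_row (hβ0 : 0 < β) (hβ1 : β ≤ 4 / 3) (hd0 : 0 < δ) (hd1 : δ ≤ 1) (hh : 0 ≤ h0)
    (h1 : (-3 + δ) * l ≤ (u - x).re) (h2 : (u - x).re ≤ (2 - δ) * l) (hi : |x.im| ≤ h0) :
    ‖psi β (u - x)‖ ≤ Real.exp (cK δ h0 * Real.exp (-(2 * β) * |u.im|)) ∧
    ‖1 - psi β (u - x)‖ ≤ cK δ h0 * Real.exp (-(2 * β) * |u.im|) := by
  have hl := l_pos
  have e : u - x = vl ((1 - (1 - (u - x).re / l)) * l) (u - x).im := by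
    unfold vl
    apply Complex.ext
    · simp only [add_re, ofReal_re, mul_re, ofReal_im, I_re, I_im, mul_zero, zero_mul, sub_self,
        add_zero]
      field_simp
      ring
    · simp
  have k1 : -1 + δ ≤ 1 - (u - x).re / l := by
    have : (u - x).re / l ≤ 2 - δ := by rw [div_le_iff₀ hl]; exact h2
    linarith
  have k2 : 1 - (u - x).re / l ≤ 4 - δ := by
    have : -3 + δ ≤ (u - x).re / l := by rw [le_div_iff₀ hl]; exact h1
    linarith
  have w1 := psi_wide (t := (u - x).im) hβ0 hβ1 hd0 hd1 k1 k2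
  have w2 := one_sub_psi_wide (t := (u - x).im) hβ0 hβ1 hd0 hd1 k1 k2
  rw [← e] at w1 w2
  have hE : Real.exp (-(2 * β) * |(u - x).im|) ≤
      Real.exp (8 / 3 * h0) * Real.exp (-(2 * β) * |u.im|) := by
    rw [← Real.exp_add]
    refine Real.exp_le_exp.2 ?_
    have h3 : |u.im| - |x.im| ≤ |(u - x).im| := by rw [sub_im]; exact abs_sub_abs_le_abs_sub _ _
    have h5 : 2 * β * (|u.im| - |(u - x).im|) ≤ 2 * β * h0 :=
      mul_le_mul_of_nonneg_left (by linarith) (by linarith)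
    have h6 : 2 * β * h0 ≤ 8 / 3 * h0 := mul_le_mul_of_nonneg_right (by linarith) hh
    linarith
  have hk := kd_pos hd0 (by linarith)
  have h3 : 4 / kd δ * Real.exp (-(2 * β) * |(u - x).im|) ≤
      cK δ h0 * Real.exp (-(2 * β) * |u.im|) := by
    unfold cK
    rw [mul_assoc]
    exact mul_le_mul_of_nonneg_left hE (by positivity)
  exact ⟨w1.trans (Real.exp_le_exp.2 h3), w2.trans h3⟩

end row

/-! ### lists -/

/-- rows `X` seen from the quantum `u`: real parts and heights -/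
def RwD (δ h0 : ℝ) (u : ℂ) (X : List ℂ) : Prop :=
  ∀ x ∈ X, (-3 + δ) * l ≤ (u - x).re ∧ (u - x).re ≤ (2 - δ) * l ∧ |x.im| ≤ h0

theorem RwD.cons {δ h0 : ℝ} {u x : ℂ} {X : List ℂ} (h : RwD δ h0 u (x :: X)) : RwD δ h0 u X :=
  fun y hy => h y (by simp [hy])

theorem RwD.left {δ h0 : ℝ} {u : ℂ} {X Y : List ℂ} (h : RwD δ h0 u (X ++ Y)) : RwD δ h0 u X :=
  fun y hy => h y (by simp [hy])

theorem RwD.right {δ h0 : ℝ} {u : ℂ} {X Y : List ℂ} (h : RwD δ h0 u (X ++ Y)) : RwD δ h0 u Y :=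
  fun y hy => h y (by simp [hy])

section lists
variable {β δ h0 : ℝ} {u : ℂ}

theorem prod_le (hβ0 : 0 < β) (hβ1 : β ≤ 4 / 3) (hd0 : 0 < δ) (hd1 : δ ≤ 1) (hh : 0 ≤ h0)
    {X : List ℂ} (h : RwD δ h0 u X) : ‖(X.map fun x => psi β (u - x)).prod‖ ≤
      Real.exp (cK δ h0 * X.length * Real.exp (-(2 * β) * |u.im|)) := by
  induction X with
  | nil => simp
  | cons x X ih =>
    have i := ih h.cons
    obtain ⟨a, b, c⟩ := h x (by simp)
    have a1 := (psi_row hβ0 hβ1 hd0 hd1 hh a b c).1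
    rw [List.map_cons, List.prod_cons, List.length_cons, norm_mul]
    refine (mul_le_mul a1 i (norm_nonneg _) (Real.exp_pos _).le).trans (le_of_eq ?_)
    rw [← Real.exp_add]
    congr 1
    push_cast
    ring

/-- the product as an exponential where every factor is close to `1` -/
theorem prod_exp (hβ0 : 0 < β) (hβ1 : β ≤ 4 / 3) (hd0 : 0 < δ) (hd1 : δ ≤ 1) (hh : 0 ≤ h0)
    {X : List ℂ} (h : RwD δ h0 u X) (hs : cK δ h0 * Real.exp (-(2 * β) * |u.im|) ≤ 1 / 2) :
    ∃ L : ℂ, (X.map fun x => psi β (u - x)).prod = Complex.exp L ∧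
      ‖L‖ ≤ 3 / 2 * (cK δ h0 * Real.exp (-(2 * β) * |u.im|)) * X.length := by
  induction X with
  | nil => exact ⟨0, by simp, by simp⟩
  | cons x X ih =>
    obtain ⟨L, e1, e2⟩ := ih h.cons
    obtain ⟨a, b, c⟩ := h x (by simp)
    have a1 := (psi_row hβ0 hβ1 hd0 hd1 hh a b c).2
    have a2 : ‖psi β (u - x) - 1‖ ≤ 1 / 2 := by
      rw [norm_sub_rev]
      exact a1.trans hs
    have a3 := Complex.norm_log_one_add_half_le_self a2
    have a4 : psi β (u - x) ≠ 0 := by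
      intro h0
      rw [h0, zero_sub, norm_neg, norm_one] at a2
      norm_num at a2
    refine ⟨Complex.log (psi β (u - x)) + L, ?_, ?_⟩
    · rw [List.map_cons, List.prod_cons, e1, Complex.exp_add, Complex.exp_log a4]
    · rw [add_sub_cancel] at a3
      refine (norm_add_le _ _).trans ((add_le_add a3 e2).trans ?_)
      rw [norm_sub_rev, List.length_cons]
      push_cast
      linarith

/-- constant of `phi_up` -/
def cU (δ h0 Cl B : ℝ) : ℝ := (3 / 2 * cK δ h0 * Cl + 2 * cK δ h0 + 1) * (1 + Real.exp B)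

/-- **the cutoff from above** -/
theorem phi_up (hβ0 : 0 < β) (hβ1 : β ≤ 4 / 3) (hd0 : 0 < δ) (hd1 : δ ≤ 1) (hh : 0 ≤ h0)
    {X : List ℂ} (h : RwD δ h0 u X) {Cl B : ℝ} {m : ℕ} (hm : 1 ≤ m) (hC : 0 ≤ Cl) (hB : 0 ≤ B)
    (hlen : (X.length : ℝ) ≤ Cl * m) (hp : ‖(X.map fun x => psi β (u - x)).prod‖ ≤ Real.exp B) :
    ‖phi β X u‖ ≤ 1 + Real.exp B ∧ ‖phi β X u‖ ≤ cU δ h0 Cl B * cut m β u.im := by
  have hK := cK_ge hd0 hd1 hh
  have hE := Real.exp_pos (-(2 * β) * |u.im|)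
  have hEB := Real.one_le_exp hB
  have hm' : (1 : ℝ) ≤ m := by exact_mod_cast hm
  have t1 : ‖phi β X u‖ ≤ 1 + Real.exp B := by
    unfold phi
    refine (norm_sub_le _ _).trans ?_
    rw [norm_one]
    linarith
  refine ⟨t1, ?_⟩
  have c1 : 1 * (1 + Real.exp B) ≤ cU δ h0 Cl B := by
    unfold cU
    refine mul_le_mul_of_nonneg_right ?_ (by linarith)
    have : 0 ≤ 3 / 2 * cK δ h0 * Cl := by positivity
    linarith
  have c2 : 2 * cK δ h0 * (1 + Real.exp B) ≤ cU δ h0 Cl B := by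
    unfold cU
    refine mul_le_mul_of_nonneg_right ?_ (by linarith)
    have : 0 ≤ 3 / 2 * cK δ h0 * Cl := by positivity
    linarith
  have c3 : 3 / 2 * cK δ h0 * Cl * (1 + Real.exp B) ≤ cU δ h0 Cl B := by
    unfold cU
    refine mul_le_mul_of_nonneg_right ?_ (by linarith)
    linarith
  unfold cut
  rcases le_total 1 (m * Real.exp (-(2 * β) * |u.im|)) with h5 | h5
  · rw [min_eq_left h5, mul_one]
    linarith
  · rw [min_eq_right h5]
    rcases le_total (cK δ h0 * Real.exp (-(2 * β) * |u.im|)) (1 / 2) with h6 | h6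
    · obtain ⟨L, e1, e2⟩ := prod_exp hβ0 hβ1 hd0 hd1 hh h h6
      have a1 : ‖phi β X u‖ ≤ ‖L‖ * max 1 ‖Complex.exp L‖ := by
        unfold phi
        rw [e1, norm_sub_rev]
        exact norm_exp_sub_one L
      rw [e1] at hp
      have a2 : max 1 ‖Complex.exp L‖ ≤ 1 + Real.exp B := max_le (by linarith) (by linarith)
      have a3 : ‖L‖ ≤ 3 / 2 * cK δ h0 * Cl * (m * Real.exp (-(2 * β) * |u.im|)) := by
        refine e2.trans ?_
        calc 3 / 2 * (cK δ h0 * Real.exp (-(2 * β) * |u.im|)) * X.length ≤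
            3 / 2 * (cK δ h0 * Real.exp (-(2 * β) * |u.im|)) * (Cl * m) := by gcongr
          _ = _ := by ring
      calc ‖phi β X u‖ ≤ ‖L‖ * max 1 ‖Complex.exp L‖ := a1
        _ ≤ 3 / 2 * cK δ h0 * Cl * (m * Real.exp (-(2 * β) * |u.im|)) * (1 + Real.exp B) := by
            refine mul_le_mul a3 a2 (le_trans zero_le_one (le_max_left _ _)) (by positivity)
        _ = 3 / 2 * cK δ h0 * Cl * (1 + Real.exp B) * (m * Real.exp (-(2 * β) * |u.im|)) := by ring
        _ ≤ _ := mul_le_mul_of_nonneg_right c3 (by positivity)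
    · have a1 : 1 ≤ 2 * cK δ h0 * (m * Real.exp (-(2 * β) * |u.im|)) := by
        have : cK δ h0 * Real.exp (-(2 * β) * |u.im|) * 1 ≤
            cK δ h0 * Real.exp (-(2 * β) * |u.im|) * m :=
          mul_le_mul_of_nonneg_left hm' (by positivity)
        linarith
      calc ‖phi β X u‖ ≤ (1 + Real.exp B) * 1 := by linarith
        _ ≤ (1 + Real.exp B) * (2 * cK δ h0 * (m * Real.exp (-(2 * β) * |u.im|))) :=
            mul_le_mul_of_nonneg_left a1 (by linarith)
        _ = 2 * cK δ h0 * (1 + Real.exp B) * (m * Real.exp (-(2 * β) * |u.im|)) := by ring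
        _ ≤ _ := mul_le_mul_of_nonneg_right c2 (by positivity)

theorem one_sub_exp_neg_ge {x : ℝ} (h : 0 ≤ x) : min 1 x / 2 ≤ 1 - Real.exp (-x) := by
  rcases le_total 1 x with h1 | h1
  · rw [min_eq_left h1]
    have a : Real.exp (-x) ≤ Real.exp (-1) := Real.exp_le_exp.2 (by linarith)
    have b : Real.exp (-1) ≤ 1 / 2 := by
      rw [Real.exp_neg, one_div, inv_le_inv₀ (Real.exp_pos 1) two_pos]
      linarith [Real.add_one_le_exp (1 : ℝ)]
    linarith
  · rw [min_eq_right h1]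
    have a : 1 + x ≤ Real.exp x := by linarith [Real.add_one_le_exp x]
    have b : Real.exp (-x) ≤ (1 + x)⁻¹ := by
      rw [Real.exp_neg]
      exact inv_anti₀ (by linarith) a
    have c : (1 + x)⁻¹ ≤ 1 - x / 2 := by
      rw [inv_le_iff_one_le_mul₀ (by linarith)]
      nlinarith
    linarith

/-- the product of the bulk and of the extra rows -/
theorem prod_low (hβ0 : 0 < β) (hβ1 : β ≤ 4 / 3) (hd0 : 0 < δ) (hd1 : δ ≤ 1) (hh : 0 ≤ h0)
    {bulk ex : List ℂ} (h : RwD δ h0 u ex) {c : ℝ} {m n0 : ℕ}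
    (hb : ‖(bulk.map fun x => psi β (u - x)).prod‖ ≤
      Real.exp (-(c * (m * Real.exp (-(2 * β) * |u.im|)))))
    (hn : ex.length ≤ n0) (hm : cK δ h0 * n0 ≤ c / 2 * m) :
    ‖((bulk ++ ex).map fun x => psi β (u - x)).prod‖ ≤
      Real.exp (-(c / 2 * (m * Real.exp (-(2 * β) * |u.im|)))) := by
  have hK := cK_ge hd0 hd1 hh
  have hE := Real.exp_pos (-(2 * β) * |u.im|)
  have a1 := prod_le hβ0 hβ1 hd0 hd1 hh h
  have hn' : (ex.length : ℝ) ≤ n0 := by exact_mod_cast hn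
  rw [List.map_append, List.prod_append, norm_mul]
  refine (mul_le_mul hb a1 (norm_nonneg _) (Real.exp_pos _).le).trans ?_
  rw [← Real.exp_add]
  refine Real.exp_le_exp.2 ?_
  have a2 : cK δ h0 * ex.length * Real.exp (-(2 * β) * |u.im|) ≤
      c / 2 * m * Real.exp (-(2 * β) * |u.im|) :=
    mul_le_mul_of_nonneg_right ((mul_le_mul_of_nonneg_left hn' (by linarith)).trans hm) hE.le
  linarith

/-- **the cutoff from below: no zero on the lines of the holes** -/
theorem phi_low (hβ0 : 0 < β) (hβ1 : β ≤ 4 / 3) (hd0 : 0 < δ) (hd1 : δ ≤ 1) (hh : 0 ≤ h0)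
    {W bulk ex : List ℂ} (hW : W.Perm (bulk ++ ex)) (h : RwD δ h0 u ex) {c : ℝ} (hc : 0 ≤ c)
    {m n0 : ℕ}
    (hb : ‖(bulk.map fun x => psi β (u - x)).prod‖ ≤
      Real.exp (-(c * (m * Real.exp (-(2 * β) * |u.im|)))))
    (hn : ex.length ≤ n0) (hm : cK δ h0 * n0 ≤ c / 2 * m) :
    min 1 (c / 2) / 2 * cut m β u.im ≤ ‖phi β W u‖ := by
  have hE := Real.exp_pos (-(2 * β) * |u.im|)
  have a1 := prod_low hβ0 hβ1 hd0 hd1 hh h hb hn hm
  have e : phi β W u = 1 - ((bulk ++ ex).map fun x => psi β (u - x)).prod := by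
    unfold phi
    rw [(hW.map fun x => psi β (u - x)).prod_eq]
  have a2 : 1 - ‖((bulk ++ ex).map fun x => psi β (u - x)).prod‖ ≤ ‖phi β W u‖ := by
    rw [e]
    refine le_trans (le_of_eq ?_) (norm_sub_norm_le _ _)
    rw [norm_one]
  refine le_trans ?_ a2
  have a3 := one_sub_exp_neg_ge (x := c / 2 * (m * Real.exp (-(2 * β) * |u.im|))) (by positivity)
  refine le_trans ?_ (a3.trans (by linarith))
  unfold cut
  rw [div_mul_eq_mul_div]
  refine div_le_div_of_nonneg_right ?_ two_pos.le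
  have x1 : 0 ≤ min 1 (c / 2) := le_min zero_le_one (by positivity)
  refine le_min ?_ ?_
  · calc min 1 (c / 2) * min 1 (m * Real.exp (-(2 * β) * |u.im|)) ≤ 1 * 1 :=
          mul_le_mul (min_le_left _ _) (min_le_left _ _) (le_min zero_le_one (by positivity))
            zero_le_one
      _ = 1 := one_mul 1
  · exact mul_le_mul (min_le_right _ _) (min_le_right _ _) (le_min zero_le_one (by positivity))
      (by positivity)

/-- no zero of the cutoff -/
theorem phi_ne (hβ0 : 0 < β) (hβ1 : β ≤ 4 / 3) (hd0 : 0 < δ) (hd1 : δ ≤ 1) (hh : 0 ≤ h0)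
    {W bulk ex : List ℂ} (hW : W.Perm (bulk ++ ex)) (h : RwD δ h0 u ex) {c : ℝ} (hc : 0 < c)
    {m n0 : ℕ} (hm1 : 1 ≤ m)
    (hb : ‖(bulk.map fun x => psi β (u - x)).prod‖ ≤
      Real.exp (-(c * (m * Real.exp (-(2 * β) * |u.im|)))))
    (hn : ex.length ≤ n0) (hm : cK δ h0 * n0 ≤ c / 2 * m) : phi β W u ≠ 0 := by
  have hE := Real.exp_pos (-(2 * β) * |u.im|)
  have h1 := phi_low hβ0 hβ1 hd0 hd1 hh hW h hc.le hb hn hm
  have hm' : (0 : ℝ) < m := by exact_mod_cast hm1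
  have h2 : 0 < min 1 (c / 2) / 2 * cut m β u.im := by
    unfold cut
    have a : 0 < min 1 (c / 2) := lt_min one_pos (by positivity)
    have b : 0 < min 1 (m * Real.exp (-(2 * β) * |u.im|)) := lt_min one_pos (by positivity)
    positivity
  intro h3
  rw [h3, norm_zero] at h1
  linarith

/-! ### the bulk -/

/-- **the product of `psi` over real places `x`, quantum at offset `j`**: `A d s` any function with
`Qps d s ≤ exp (-2 A d s)` -/
theorem prod_bulk {A : ℝ → ℝ → ℝ} (hA : ∀ d s : ℝ, -1 < d → d < 4 → Qps d s ≤ Real.exp (-(2 * A d s)))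
    (hβ0 : 0 < β) (hβ1 : β ≤ 4 / 3) (j t : ℝ) (X : List ℝ)
    (hX : ∀ x ∈ X, -1 < j + x ∧ j + x < 4) :
    ‖(X.map fun x => psi β (vl ((1 - j) * l) t - (x * l : ℝ))).prod‖ ≤
      Real.exp (-(X.map fun x => A (j + x) (3 * β / 4 * t)).sum) := by
  induction X with
  | nil => simp
  | cons x X ih =>
    have i := ih fun y hy => hX y (by simp [hy])
    obtain ⟨a, b⟩ := hX x (by simp)
    have e : vl ((1 - j) * l) t - (x * l : ℝ) = vl ((1 - (j + x)) * l) t := by
      unfold vl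
      push_cast
      ring
    have a1 : ‖psi β (vl ((1 - j) * l) t - (x * l : ℝ))‖ ≤
        Real.exp (-A (j + x) (3 * β / 4 * t)) := by
      rw [e]
      refine (sq_le_sq₀ (norm_nonneg _) (Real.exp_pos _).le).1 ?_
      refine (psi_le hβ0 hβ1 a b t).trans ((hA _ _ a b).trans (le_of_eq ?_))
      rw [← Real.exp_nat_mul]
      congr 1
      push_cast
      ring
    rw [List.map_cons, List.prod_cons, List.map_cons, List.sum_cons, norm_mul, neg_add,
      Real.exp_add]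
    exact mul_le_mul a1 i (norm_nonneg _) (Real.exp_pos _).le

end lists

end PLT
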