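import Pool.Agent.PLT.PhiQ

/-!
# The cross potential of a displaced sea around a static curve

`DJ s b η z = ∫ (Ux (z - ga y) - Ux (z - zt (gD η) y)) s P(y) dy` is the potential of the transported density
(`J_eq`).  **`DJ_diff`**: if `|s' η' - s η| ≤ κ`, the real part of `DJ s' η' - DJ s η` is at most
`K (M ε + κ) (Wb b (Re z) + 1)` (the dipoles `∫ h eta'` of the two currents differ), its derivative at most
`K (M ε + κ) Wb b (Re z)`.
-/

set_option autoImplicit false
set_option linter.unusedSectionVars false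
set_option linter.unusedVariables false

open MeasureTheory Set Filter Topology Complex
open scoped ContDiff

namespace PLT.Cv

open NUMF (l l_pos V)
open NUAct (Us Ux Uxd Uxd2 Uc Up gr Kern hasDerivAt_Ux hasDerivAt_Uxd Uxd23_dec Uxd_bound Ux_gr Ux_ofReal
  seg_taylor convex_vert Wt Wb Wt_nonneg Wt_int Wb_nonneg)
open NUKer (iD)

noncomputable section

/-! ### the cross kernel -/

/-- increments of the cross potential and of its derivative -/
theorem Ux_inc_w : ∃ K : ℝ, 0 < K ∧ ∀ w w' : ℂ, ‖w' - w‖ ≤ 1 → |w.im| ≤ l / 2 → |w'.im| ≤ l / 2 →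
    ‖Ux w' - Ux w - Uxd w * (w' - w)‖ ≤ K * Real.exp (-2 * |w.re|) * ‖w' - w‖ ^ 2 ∧
    ‖Uxd w' - Uxd w - Uxd2 w * (w' - w)‖ ≤ K * Real.exp (-2 * |w.re|) * ‖w' - w‖ ^ 2 := by
  have hl := l_pos
  obtain ⟨K, hK, H⟩ := Uxd23_dec
  refine ⟨K * Real.exp 2, by positivity, fun w w' hd hw hw' => ?_⟩
  obtain ⟨S, hS⟩ : ∃ S : Set ℂ, S = {z : ℂ | z.re ∈ Icc (w.re - 1) (w.re + 1)} ∩
    {z : ℂ | z.im ∈ Icc (-(l / 2)) (l / 2)} := ⟨_, rfl⟩
  have hconv : Convex ℝ S := by
    rw [hS]
    exact ((convex_Icc (w.re - 1) (w.re + 1)).linear_preimage Complex.reLm).inter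
      ((convex_Icc (-(l / 2)) (l / 2)).linear_preimage Complex.imLm)
  have him : ∀ z ∈ S, |z.im| ≤ l / 2 := by
    intro z hz
    rw [hS] at hz
    exact abs_le.2 hz.2
  have hin : ∀ z ∈ S, |z.im| < l := fun z hz => lt_of_le_of_lt (him z hz) (by linarith)
  have hb : ∀ z ∈ S, Real.exp (-2 * |z.re|) ≤ Real.exp 2 * Real.exp (-2 * |w.re|) := by
    intro z hz
    rw [hS] at hz
    have h1 : w.re - 1 ≤ z.re ∧ z.re ≤ w.re + 1 := hz.1
    rw [← Real.exp_add]
    refine Real.exp_le_exp.2 ?_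
    have h2 : |w.re| ≤ |z.re| + 1 := by
      have h3 : |w.re - z.re| ≤ 1 := by
        rw [abs_le]
        constructor <;> linarith [h1.1, h1.2]
      have h4 := abs_add_le (w.re - z.re) z.re
      rw [sub_add_cancel] at h4
      linarith
    linarith
  have hw0 : w ∈ S := by
    rw [hS]
    exact ⟨⟨by linarith, by linarith⟩, abs_le.1 hw⟩
  have hw1 : w' ∈ S := by
    rw [hS]
    have h1 := (Complex.abs_re_le_norm (w' - w)).trans hd
    rw [Complex.sub_re, abs_le] at h1
    exact ⟨⟨by linarith [h1.1], by linarith [h1.2]⟩, abs_le.1 hw'⟩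
  constructor
  · exact seg_taylor hconv (fun z hz => hasDerivAt_Ux (hin z hz)) (fun z hz => hasDerivAt_Uxd (hin z hz))
      (fun z hz => by
        refine ((H z (him z hz)).1).trans ?_
        rw [mul_assoc]
        exact mul_le_mul_of_nonneg_left (hb z hz) hK.le) hw0 hw1
  · exact seg_taylor hconv (fun z hz => hasDerivAt_Uxd (hin z hz)) (fun z hz => NUAct.hasDerivAt_Uxd2 (hin z hz))
      (fun z hz => by
        refine ((H z (him z hz)).2).trans ?_
        rw [mul_assoc]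
        exact mul_le_mul_of_nonneg_left (hb z hz) hK.le) hw0 hw1

lemma Uxd_real' (x : ℝ) : (Uxd (x : ℂ)).im = 0 := by
  have h1 : HasDerivAt (fun t : ℝ => Ux (t : ℂ)) (Uxd x) x :=
    (hasDerivAt_Ux (z := x) (by simpa using l_pos)).comp_ofReal
  have h2 : HasDerivAt (fun t : ℝ => (Ux (t : ℂ)).im) (Uxd x).im x :=
    Complex.imCLM.hasFDerivAt.comp_hasDerivAt x h1
  have h3 : (fun t : ℝ => (Ux (t : ℂ)).im) = fun _ => 0 := by
    funext t
    rw [Ux_ofReal, Complex.ofReal_im]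
  rw [h3] at h2
  exact h2.unique (hasDerivAt_const x 0)

lemma Uxd_im' {K : ℝ} (HK : ∀ w : ℂ, |w.im| ≤ l / 2 → ‖Uxd2 w‖ ≤ K * Real.exp (-2 * |w.re|)) {w : ℂ}
    (hw : |w.im| ≤ l / 2) : |(Uxd w).im| ≤ K * Real.exp (-2 * |w.re|) * |w.im| := by
  have hl := l_pos
  have h1 := (convex_vert w.re (l / 2)).norm_image_sub_le_of_norm_hasDerivWithin_le (f := Uxd)
    (f' := Uxd2) (C := K * Real.exp (-2 * |w.re|))
    (fun z hz => (hasDerivAt_Uxd (lt_of_le_of_lt hz.2 (by linarith))).hasDerivWithinAt)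
    (fun z hz => by
      have := HK z hz.2
      rwa [hz.1] at this) (x := (w.re : ℂ)) (y := w)
    ⟨Complex.ofReal_re _, by rw [Complex.ofReal_im, abs_zero]; positivity⟩ ⟨rfl, hw⟩
  have h2 : (Uxd w).im = (Uxd w - Uxd (w.re : ℂ)).im := by
    rw [Complex.sub_im, Uxd_real', sub_zero]
  have h3 : ‖w - (w.re : ℂ)‖ = |w.im| := by
    have e : w - (w.re : ℂ) = (w.im : ℂ) * I := by
      apply Complex.ext <;> simp
    rw [e, norm_mul, Complex.norm_I, mul_one, Complex.norm_real, Real.norm_eq_abs]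
  rw [h2, ← h3]
  exact (Complex.abs_im_le_norm _).trans h1

/-! ### the cross potential -/

section

variable [SeaC]

/-- potential of the displacement -/
def DJ (s b : ℝ) (η : ℝ → ℝ) (z : ℂ) : ℂ :=
  ∫ y in Icc (-b) b, ((s * P y : ℝ) : ℂ) * (Ux (z - ga y) - Ux (z - zt (gD η) y))

/-- its derivative -/
def DJ1 (s b : ℝ) (η : ℝ → ℝ) (z : ℂ) : ℂ :=
  ∫ y in Icc (-b) b, ((s * P y : ℝ) : ℂ) * (Uxd (z - ga y) - Uxd (z - zt (gD η) y))

lemma ga'_norm (t : ℝ) : ‖ga' t‖ ≤ 5 / 4 := by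
  unfold ga'
  refine (norm_add_le _ _).trans ?_
  rw [norm_one, norm_mul, Complex.norm_I, mul_one, Complex.norm_real, Real.norm_eq_abs]
  linarith [eta'_le t]

lemma gD_norm (η : ℝ → ℝ) (t : ℝ) : ‖gD η t‖ ≤ 5 / 4 * |η t| := by
  unfold gD iD
  rw [norm_mul, norm_mul, Complex.norm_I, mul_one, Complex.norm_real, Real.norm_eq_abs, mul_comm]
  exact mul_le_mul_of_nonneg_right (ga'_norm t) (abs_nonneg _)

lemma zt_zero {η : ℝ → ℝ} {y : ℝ} (h : η y = 0) : zt (gD η) y = ga y := by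
  unfold zt gD iD
  rw [h]
  simp

lemma gD_contc {η : ℝ → ℝ} (hη : Continuous η) : Continuous (gD η) := by
  unfold gD iD
  exact ((Complex.continuous_ofReal.comp hη).mul continuous_const).mul continuous_ga'

lemma zt_cont {η : ℝ → ℝ} (hη : Continuous η) : Continuous (zt (gD η)) :=
  continuous_ga.add (gD_contc hη)

lemma ga_im_le (t : ℝ) : |(ga t).im| ≤ l / 7 := by
  rw [ga_im]
  have h1 := eta_nn t
  have h2 := eta_le t
  have h3 := l_pos
  rw [abs_le]
  constructor <;> linarith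

end

lemma Ux_cont' {z : ℂ} {ζ : ℝ → ℂ} (hζ : Continuous ζ) (h : ∀ y, |(z - ζ y).im| < l) :
    Continuous fun y => Ux (z - ζ y) := by
  have hc : ContinuousOn Ux {w : ℂ | |w.im| < l} := fun w hw =>
    (hasDerivAt_Ux hw).continuousAt.continuousWithinAt
  exact hc.comp_continuous (continuous_const.sub hζ) h

lemma Uxd_cont' {z : ℂ} {ζ : ℝ → ℂ} (hζ : Continuous ζ) (h : ∀ y, |(z - ζ y).im| < l) :
    Continuous fun y => Uxd (z - ζ y) := by
  have hc : ContinuousOn Uxd {w : ℂ | |w.im| < l} := fun w hw =>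
    (hasDerivAt_Uxd hw).continuousAt.continuousWithinAt
  exact hc.comp_continuous (continuous_const.sub hζ) h

section

variable (B : SeaCB) [SeaC] [SeaCU B]

include B

/-- the cross kernel as an external potential -/
lemma Ux_ext {z : ℂ} (h1 : -B.h ≤ z.im) (h2 : z.im ≤ l / 4) : SExt (-B.h) (l / 4) fun w => Ux (z - w) := by
  have hl := l_pos
  have hh := B.h1
  obtain ⟨K, hK0, hK⟩ := Ux_gr
  have him : ∀ w : ℂ, -B.h ≤ w.im → w.im ≤ l / 4 → |(z - w).im| ≤ l / 2 := by
    intro w a b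
    rw [Complex.sub_im, abs_le]
    constructor <;> linarith
  refine SExt_of_lin (K := K * (1 + |z.re|)) (fun w a b => ?_) fun w a b => ?_
  · exact ((hasDerivAt_Ux (lt_of_le_of_lt (him w a b) (by linarith))).differentiableAt).comp w
      ((differentiableAt_const z).sub differentiableAt_id)
  · refine (hK _ (him w a b)).trans ?_
    rw [mul_assoc]
    refine mul_le_mul_of_nonneg_left ?_ hK0
    have h3 : |(z - w).re| ≤ |z.re| + |w.re| := by
      rw [Complex.sub_re]
      exact abs_sub _ _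
    nlinarith [abs_nonneg z.re, abs_nonneg w.re, mul_nonneg (abs_nonneg z.re) (abs_nonneg w.re)]

/-- **the cross potential of the transported density** -/
theorem J_eq {s b c C : ℝ} {η η1 : ℝ → ℝ}
    (P' : SPath (-B.h) (l / 4) c C (zt (gD η)) (zd (gD1 η η1)))
    (hout : ∀ y, b < |y| → η y = 0) {z : ℂ} (h1 : -B.h ≤ z.im) (h2 : z.im ≤ l / 4) :
    ∫ y, Ux (z - zt (gD η) y) * Bf s (gD η) (gD1 η η1) y = DJ s b η z := by
  have hl := l_pos
  have hh := B.h0
  have S : Str B (-B.h) (l / 4) := ⟨le_rfl, neg_le_neg B.dh', B.top_l4, le_rfl⟩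
  obtain ⟨C0, G⟩ := ga_spath B S
  have hF := Ux_ext B h1 h2
  obtain ⟨i1, e1⟩ := fe_x B P' h1 h2
  obtain ⟨i2, e2⟩ := fe_x B G h1 h2
  have i3 := int_rFh B s P' hF
  have i4 := int_rF B s S hF
  have a1 : ∫ y, Ux (z - zt (gD η) y) * Bf s (gD η) (gD1 η η1) y =
      s * (∫ y, Ux (z - zt (gD η) y) * (Pc (zt (gD η) y) * zd (gD1 η η1) y)) -
        ∫ y, ((s * P y : ℝ) : ℂ) * Ux (z - zt (gD η) y) := by
    rw [← integral_const_mul, ← integral_sub (i1.const_mul _) i3]
    refine integral_congr_ae (Eventually.of_forall fun y => ?_)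
    simp only
    unfold Bf
    ring
  have a2 : ∫ y : ℝ, ((s * P y : ℝ) : ℂ) * Ux (z - ga y) = s * vx z := by
    rw [← e2, ← integral_const_mul]
    refine integral_congr_ae (Eventually.of_forall fun y => ?_)
    simp only
    rw [Pc_ga]
    push_cast
    ring
  rw [a1, e1, ← a2, ← integral_sub i4 i3]
  unfold DJ
  rw [← setIntegral_eq_integral_of_forall_compl_eq_zero (s := Icc (-b) b)]
  · refine integral_congr_ae (Eventually.of_forall fun y => ?_)
    simp only
    ring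
  · intro y hy
    have h1 : b < |y| := by
      by_contra h
      exact hy (abs_le.1 (not_lt.1 h))
    rw [zt_zero (hout y h1), sub_self]

section

variable {s b : ℝ} {η : ℝ → ℝ}

/-- differentiation under the integral -/
theorem hasDerivAt_DJ (hη : Continuous η) (hle : ∀ y, |(zt (gD η) y).im| ≤ l / 7) {z : ℂ}
    (hz : |z.im| ≤ l / 6) : HasDerivAt (DJ s b η) (DJ1 s b η z) z := by
  have hl := l_pos
  obtain ⟨K, hK, HK⟩ := Uxd_bound
  obtain ⟨C, hC0, hC⟩ := rho_bd B s
  have cζ := zt_cont hη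
  have hball : ∀ x ∈ Metric.ball z (l / 12), |x.im| ≤ l / 4 := by
    intro x hx
    rw [Metric.mem_ball, dist_eq_norm] at hx
    have h1 := Complex.abs_im_le_norm (x - z)
    rw [Complex.sub_im] at h1
    have h2 : |x.im| ≤ |x.im - z.im| + |z.im| := by
      have := abs_add_le (x.im - z.im) z.im
      rwa [sub_add_cancel] at this
    linarith
  have im0 : ∀ x ∈ Metric.ball z (l / 12), ∀ y : ℝ, |(x - ga y).im| ≤ l / 2 := fun x hx y => by
    rw [Complex.sub_im]
    exact (abs_sub _ _).trans (by linarith [hball x hx, ga_im_le y])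
  have im1 : ∀ x ∈ Metric.ball z (l / 12), ∀ y : ℝ, |(x - zt (gD η) y).im| ≤ l / 2 := fun x hx y => by
    rw [Complex.sub_im]
    exact (abs_sub _ _).trans (by linarith [hball x hx, hle y])
  have hzb : z ∈ Metric.ball z (l / 12) := Metric.mem_ball_self (by positivity)
  have c0 : ∀ x ∈ Metric.ball z (l / 12), Continuous fun y : ℝ =>
      ((s * P y : ℝ) : ℂ) * (Ux (x - ga y) - Ux (x - zt (gD η) y)) := fun x hx =>
    (rho_cont B s).mul ((Ux_cont' continuous_ga fun y =>
      lt_of_le_of_lt (im0 x hx y) (by linarith)).sub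
      (Ux_cont' cζ fun y => lt_of_le_of_lt (im1 x hx y) (by linarith)))
  have c1 : Continuous fun y : ℝ =>
      ((s * P y : ℝ) : ℂ) * (Uxd (z - ga y) - Uxd (z - zt (gD η) y)) :=
    (rho_cont B s).mul ((Uxd_cont' continuous_ga fun y =>
      lt_of_le_of_lt (im0 z hzb y) (by linarith)).sub
      (Uxd_cont' cζ fun y => lt_of_le_of_lt (im1 z hzb y) (by linarith)))
  have key := hasDerivAt_integral_of_dominated_loc_of_deriv_le (μ := volume.restrict (Icc (-b) b))
    (𝕜 := ℂ) (s := Metric.ball z (l / 12))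
    (F := fun x y => ((s * P y : ℝ) : ℂ) * (Ux (x - ga y) - Ux (x - zt (gD η) y)))
    (F' := fun x y => ((s * P y : ℝ) : ℂ) * (Uxd (x - ga y) - Uxd (x - zt (gD η) y))) (x₀ := z)
    (bound := fun _ => C * (2 * K))
    (Metric.ball_mem_nhds z (by positivity)) ?_ ?_ ?_ ?_ ?_ ?_
  · exact key.2
  · filter_upwards [Metric.ball_mem_nhds z (by positivity : 0 < l / 12)] with x hx
    exact (c0 x hx).aestronglyMeasurable
  · exact (c0 z hzb).continuousOn.integrableOn_compact isCompact_Icc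
  · exact c1.aestronglyMeasurable
  · refine Eventually.of_forall fun y x hx => ?_
    rw [norm_mul]
    have h1 : ‖((s * P y : ℝ) : ℂ)‖ ≤ C := by
      refine (hC y).trans (mul_le_of_le_one_right hC0 ?_)
      rw [Real.exp_le_one_iff]
      have := abs_nonneg y
      linarith
    refine mul_le_mul h1 ((norm_sub_le _ _).trans ?_) (norm_nonneg _) hC0
    have h2 := HK _ (im0 x hx y)
    have h3 := HK _ (im1 x hx y)
    linarith
  · exact continuous_const.continuousOn.integrableOn_compact isCompact_Icc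
  · refine Eventually.of_forall fun y x hx => ?_
    have d1 := (hasDerivAt_Ux (lt_of_le_of_lt (im0 x hx y) (by linarith))).comp_sub_const x (ga y)
    have d2 := (hasDerivAt_Ux (lt_of_le_of_lt (im1 x hx y) (by linarith))).comp_sub_const x
      (zt (gD η) y)
    exact (d1.sub d2).const_mul _

/-- the derivative is continuous along a path -/
theorem continuous_DJ1 (hη : Continuous η) (hle : ∀ y, |(zt (gD η) y).im| ≤ l / 7) {ζ : ℝ → ℂ}
    (hζ : Continuous ζ) (hζl : ∀ t, |(ζ t).im| ≤ l / 7) : Continuous fun t => DJ1 s b η (ζ t) := by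
  have hl := l_pos
  have cζ := zt_cont hη
  have hc : ContinuousOn Uxd {w : ℂ | |w.im| < l} := fun w hw =>
    (hasDerivAt_Uxd hw).continuousAt.continuousWithinAt
  unfold DJ1
  refine continuous_parametric_integral_of_continuous (μ := volume)
    (f := fun t y => ((s * P y : ℝ) : ℂ) * (Uxd (ζ t - ga y) - Uxd (ζ t - zt (gD η) y))) ?_
    (s := Icc (-b) b) isCompact_Icc
  have h1 : Continuous fun p : ℝ × ℝ => Uxd (ζ p.1 - ga p.2) :=
    hc.comp_continuous ((hζ.comp continuous_fst).sub (continuous_ga.comp continuous_snd))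
      fun p => by
        show |(ζ p.1 - ga p.2).im| < l
        rw [Complex.sub_im]
        exact lt_of_le_of_lt (abs_sub _ _) (by linarith [hζl p.1, ga_im_le p.2])
  have h2 : Continuous fun p : ℝ × ℝ => Uxd (ζ p.1 - zt (gD η) p.2) :=
    hc.comp_continuous ((hζ.comp continuous_fst).sub (cζ.comp continuous_snd)) fun p => by
      show |(ζ p.1 - zt (gD η) p.2).im| < l
      rw [Complex.sub_im]
      exact lt_of_le_of_lt (abs_sub _ _) (by linarith [hζl p.1, hle p.2])
  have h3 : Continuous fun p : ℝ × ℝ => ((s * P p.2 : ℝ) : ℂ) := (rho_cont B s).comp continuous_snd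
  exact h3.mul (h1.sub h2)

end

end

/-- **two seas with almost the same current** -/
theorem DJ_diff (B : SeaCB) : ∃ K : ℝ, 1 ≤ K ∧ ∀ [SeaC] [SeaCU B], ∀ {s s' ε M κ b : ℝ} {η η' : ℝ → ℝ},
    0 ≤ s → 0 ≤ s' → 0 ≤ M → 0 ≤ ε → ε ≤ 1 / 2 → 0 ≤ κ → Continuous η → Continuous η' →
    (∀ y, |(zt (gD η) y).im| ≤ l / 7) → (∀ y, |(zt (gD η') y).im| ≤ l / 7) →
    (∀ y, |η y| ≤ ε) → (∀ y, |η' y| ≤ ε) → (∀ y, s * P y * |η y| ≤ M) → (∀ y, s' * P y * |η' y| ≤ M) →
    (∀ y, |s' * η' y - s * η y| ≤ κ) → ∀ (z : ℂ) (t : ℝ), |z.im| ≤ l / 7 → |z.re - t| ≤ 1 / 2 →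
    |(DJ s' b η' z - DJ s b η z).re| ≤ K * (M * ε + κ) * (Wb b t + 1) ∧
    ‖DJ1 s' b η' z - DJ1 s b η z‖ ≤ K * (M * ε + κ) * Wb b t := by
  have hl := l_pos
  obtain ⟨K, hK, HK⟩ := Ux_inc_w
  obtain ⟨K2, hK2, HK2⟩ := Uxd23_dec
  obtain ⟨K3, hK3, HK3⟩ := Uxd_bound
  obtain ⟨C, hC0, hC⟩ := P_le B
  obtain ⟨C1, hC1, HC1⟩ := eta_dec B
  refine ⟨3 * (1 + 4 * K + 2 * C * K2 + 2 * C * K3 * C1), by
    have : 0 ≤ 4 * K + 2 * C * K2 + 2 * C * K3 * C1 := by positivity
    linarith, ?_⟩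
  intro _ _ s s' ε M κ b η η' hs hs' hM hε0 hε hκ cη cη' hi hi' hη hη' hm hm' hcom z t hz hzt
  have hPC : ∀ y, P y ≤ C := fun y => (hC y).trans (mul_le_of_le_one_right hC0.le (by
    rw [Real.exp_le_one_iff]
    have := abs_nonneg y
    linarith))
  have im0 : ∀ y : ℝ, |(z - ga y).im| ≤ l / 2 := fun y => by
    rw [Complex.sub_im]
    exact (abs_sub _ _).trans (by linarith [ga_im_le y])
  have im1 : ∀ {h : ℝ → ℝ}, (∀ y, |(zt (gD h) y).im| ≤ l / 7) → ∀ y : ℝ, |(z - zt (gD h) y).im| ≤ l / 2 :=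
    fun {h} hh y => by
      rw [Complex.sub_im]
      exact (abs_sub _ _).trans (by linarith [hh y])
  have hdiff : ∀ (h : ℝ → ℝ) (y : ℝ), (z - zt (gD h) y) - (z - ga y) = -((h y : ℂ) * I * ga' y) := by
    intro h y
    unfold zt gD iD
    ring
  have hnd : ∀ (h : ℝ → ℝ) (y : ℝ), ‖-((h y : ℂ) * I * ga' y)‖ ≤ 5 / 4 * |h y| := by
    intro h y
    rw [norm_neg]
    exact gD_norm h y
  have hEW : ∀ y : ℝ, Real.exp (-2 * |z.re - y|) ≤ 3 * Wt (t - y) := by
    intro y
    unfold Wt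
    have h3 : Real.exp (-2 * |z.re - y|) ≤ Real.exp 1 * Real.exp (-|t - y|) := by
      rw [← Real.exp_add]
      refine Real.exp_le_exp.2 ?_
      have h4 : |t - y| ≤ |z.re - t| + |z.re - y| := by
        have h5 := abs_sub (z.re - y) (z.re - t)
        have e : z.re - y - (z.re - t) = t - y := by ring
        rw [e] at h5
        linarith
      linarith [abs_nonneg (t - y)]
    have h6 : Real.exp 1 * Real.exp (-|t - y|) ≤ 3 * Real.exp (-|t - y|) :=
      mul_le_mul_of_nonneg_right (by linarith [Real.exp_one_lt_d9]) (Real.exp_pos _).le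
    have := abs_nonneg (V (t - y))
    linarith
  have hre' : ∀ y : ℝ, (z - ga y).re = z.re - y := fun y => by simp
  -- general estimate
  have main : ∀ (U U1 : ℂ → ℂ), (∀ w w' : ℂ, ‖w' - w‖ ≤ 1 → |w.im| ≤ l / 2 → |w'.im| ≤ l / 2 →
        ‖U w' - U w - U1 w * (w' - w)‖ ≤ K * Real.exp (-2 * |w.re|) * ‖w' - w‖ ^ 2) → ∀ y : ℝ,
      ‖(((s' * P y : ℝ) : ℂ) * (U (z - ga y) - U (z - zt (gD η') y)) -
        ((s * P y : ℝ) : ℂ) * (U (z - ga y) - U (z - zt (gD η) y))) -
        ((P y * (s' * η' y - s * η y) : ℝ) : ℂ) * (I * (ga' y * U1 (z - ga y)))‖ ≤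
        4 * K * (M * ε) * Real.exp (-2 * |z.re - y|) := by
    intro U U1 hU y
    have hp := (P_pos B y).le
    obtain ⟨r, hr⟩ : ∃ r, r = U (z - zt (gD η) y) - U (z - ga y) -
      U1 (z - ga y) * ((z - zt (gD η) y) - (z - ga y)) := ⟨_, rfl⟩
    obtain ⟨r', hr'⟩ : ∃ r', r' = U (z - zt (gD η') y) - U (z - ga y) -
      U1 (z - ga y) * ((z - zt (gD η') y) - (z - ga y)) := ⟨_, rfl⟩
    have nn : ∀ {h : ℝ → ℝ}, (∀ y, |h y| ≤ ε) → ‖(z - zt (gD h) y) - (z - ga y)‖ ≤ 1 := by
      intro h hh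
      rw [hdiff]
      have h1 := hnd h y
      have h2 := hh y
      linarith
    have b1 := hU (z - ga y) (z - zt (gD η) y) (nn hη) (im0 y) (im1 hi y)
    have b2 := hU (z - ga y) (z - zt (gD η') y) (nn hη') (im0 y) (im1 hi' y)
    rw [← hr] at b1
    rw [← hr'] at b2
    rw [hdiff] at hr hr' b1 b2
    have e1 : (((s' * P y : ℝ) : ℂ) * (U (z - ga y) - U (z - zt (gD η') y)) -
        ((s * P y : ℝ) : ℂ) * (U (z - ga y) - U (z - zt (gD η) y))) -
        ((P y * (s' * η' y - s * η y) : ℝ) : ℂ) * (I * (ga' y * U1 (z - ga y))) =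
        ((s * P y : ℝ) : ℂ) * r - ((s' * P y : ℝ) : ℂ) * r' := by
      rw [hr, hr']
      push_cast
      ring
    rw [e1]
    rw [hre'] at b1 b2
    have hE0 := Real.exp_pos (-2 * |z.re - y|)
    have part : ∀ (σ : ℝ) (h : ℝ → ℝ) (ρ : ℂ), 0 ≤ σ → |h y| ≤ ε → σ * P y * |h y| ≤ M →
        ‖ρ‖ ≤ K * Real.exp (-2 * |z.re - y|) * ‖-((h y : ℂ) * I * ga' y)‖ ^ 2 →
        ‖((σ * P y : ℝ) : ℂ) * ρ‖ ≤ 2 * K * (M * ε) * Real.exp (-2 * |z.re - y|) := by
      intro σ h ρ hσ h4 h5 h6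
      rw [norm_mul, Complex.norm_real, Real.norm_eq_abs, abs_of_nonneg (mul_nonneg hσ hp)]
      have h7 : 0 ≤ σ * P y := mul_nonneg hσ hp
      have h8 : ‖-((h y : ℂ) * I * ga' y)‖ ^ 2 ≤ 2 * |h y| ^ 2 := by
        have h9 := hnd h y
        have h10 := norm_nonneg (-((h y : ℂ) * I * ga' y))
        nlinarith [abs_nonneg (h y)]
      calc σ * P y * ‖ρ‖ ≤ σ * P y * (K * Real.exp (-2 * |z.re - y|) * (2 * |h y| ^ 2)) := by
            refine mul_le_mul_of_nonneg_left (h6.trans ?_) h7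
            gcongr
        _ = 2 * K * Real.exp (-2 * |z.re - y|) * ((σ * P y * |h y|) * |h y|) := by ring
        _ ≤ 2 * K * Real.exp (-2 * |z.re - y|) * (M * ε) := by gcongr
        _ = _ := by ring
    have p1 := part s η r hs (hη y) (hm y) b1
    have p2 := part s' η' r' hs' (hη' y) (hm' y) b2
    refine (norm_sub_le _ _).trans ((add_le_add p1 p2).trans (le_of_eq ?_))
    ring
  have hMε : 0 ≤ M * ε := mul_nonneg hM hε0
  have hpd : ∀ y, |P y * (s' * η' y - s * η y)| ≤ C * κ := by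
    intro y
    rw [abs_mul, abs_of_pos (P_pos B y)]
    exact mul_le_mul (hPC y) (hcom y) (abs_nonneg _) hC0.le
  have hzi : |z.im| ≤ 1 := hz.trans (by
    have := l_num.2.2.1
    linarith)
  constructor
  · have j : ∀ {σ : ℝ} {h : ℝ → ℝ}, Continuous h → (∀ y, |(zt (gD h) y).im| ≤ l / 7) →
        IntegrableOn (fun y : ℝ =>
        ((σ * P y : ℝ) : ℂ) * (Ux (z - ga y) - Ux (z - zt (gD h) y))) (Icc (-b) b) := by
      intro σ h ch hh
      exact ((rho_cont B σ).mul ((Ux_cont' continuous_ga fun y =>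
        lt_of_le_of_lt (im0 y) (by linarith)).sub (Ux_cont' (zt_cont ch) fun y =>
        lt_of_le_of_lt (im1 hh y) (by linarith)))).continuousOn.integrableOn_compact isCompact_Icc
    unfold DJ
    rw [← integral_sub (j cη' hi') (j cη hi)]
    have e3 : (∫ y in Icc (-b) b, (((s' * P y : ℝ) : ℂ) * (Ux (z - ga y) - Ux (z - zt (gD η') y)) -
        ((s * P y : ℝ) : ℂ) * (Ux (z - ga y) - Ux (z - zt (gD η) y)))).re =
        ∫ y in Icc (-b) b, (((s' * P y : ℝ) : ℂ) * (Ux (z - ga y) - Ux (z - zt (gD η') y)) -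
        ((s * P y : ℝ) : ℂ) * (Ux (z - ga y) - Ux (z - zt (gD η) y))).re :=
      (Complex.reCLM.integral_comp_comm ((j cη' hi').sub (j cη hi))).symm
    rw [e3, ← Real.norm_eq_abs]
    have ie : Integrable fun y : ℝ => Real.exp (-|y|) := by
      have := NUAct.int_exp_abs' (κ := 1) one_pos
      simpa using this
    have ie2 : ∫ y in Icc (-b) b, Real.exp (-|y|) ≤ 2 := by
      refine (setIntegral_le_integral ie (Eventually.of_forall fun y => (Real.exp_pos _).le)).trans ?_
      have h := integral_comp_abs (f := fun x => Real.exp (-x))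
      rw [h, integral_exp_neg_Ioi_zero, mul_one]
    have hb := norm_integral_le_of_norm_le (μ := volume.restrict (Icc (-b) b))
      (f := fun y => (((s' * P y : ℝ) : ℂ) * (Ux (z - ga y) - Ux (z - zt (gD η') y)) -
        ((s * P y : ℝ) : ℂ) * (Ux (z - ga y) - Ux (z - zt (gD η) y))).re)
      ((((Wt_int.comp_sub_left t).integrableOn (s := Icc (-b) b)).const_mul
        (3 * (4 * K * (M * ε) + C * K2 * κ))).add (ie.integrableOn.const_mul (C * K3 * C1 * κ)))
      (Eventually.of_forall fun y => ?_)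
    · refine hb.trans ?_
      simp only [Pi.add_apply]
      rw [integral_add (((Wt_int.comp_sub_left t).integrableOn).const_mul _)
        (ie.integrableOn.const_mul _), integral_const_mul, integral_const_mul]
      have e5 : ∫ y in Icc (-b) b, Wt (t - y) = Wb b t := rfl
      rw [e5]
      have hW := Wb_nonneg b t
      have p1 : 0 ≤ C * K2 * κ := by positivity
      have p2 : 0 ≤ C * K3 * C1 * κ := by positivity
      have p3 : 0 ≤ K * (M * ε) := by positivity
      have p4 : 0 ≤ C * K2 * (M * ε) := by positivity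
      have p5 : 0 ≤ C * K3 * C1 * (M * ε) := by positivity
      have p6 : 0 ≤ K * κ := by positivity
      have t1 : 3 * (4 * K * (M * ε) + C * K2 * κ) ≤
          3 * (1 + 4 * K + 2 * C * K2 + 2 * C * K3 * C1) * (M * ε + κ) := by nlinarith
      have t2 : C * K3 * C1 * κ * 2 ≤
          3 * (1 + 4 * K + 2 * C * K2 + 2 * C * K3 * C1) * (M * ε + κ) := by nlinarith
      calc 3 * (4 * K * (M * ε) + C * K2 * κ) * Wb b t + C * K3 * C1 * κ * ∫ y in Icc (-b) b, Real.exp (-|y|) ≤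
            3 * (4 * K * (M * ε) + C * K2 * κ) * Wb b t + C * K3 * C1 * κ * 2 := by gcongr
        _ ≤ 3 * (1 + 4 * K + 2 * C * K2 + 2 * C * K3 * C1) * (M * ε + κ) * Wb b t +
            3 * (1 + 4 * K + 2 * C * K2 + 2 * C * K3 * C1) * (M * ε + κ) :=
            add_le_add (mul_le_mul_of_nonneg_right t1 hW) t2
        _ = _ := by ring
    · have h1 := main Ux Uxd (fun w w' h1 h2 h3 => (HK w w' h1 h2 h3).1) y
      have h2 := Uxd_im' (fun w hw => (HK2 w hw).1) (im0 y)
      rw [hre'] at h2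
      have h3 := (Complex.abs_re_le_norm _).trans h1
      rw [Complex.sub_re] at h3
      have h6 : |(z - ga y).im| ≤ 1 := (im0 y).trans (by
        have := l_num.2.2.1
        linarith)
      have hE0 := Real.exp_pos (-2 * |z.re - y|)
      obtain ⟨u, hu⟩ : ∃ u, u = Uxd (z - ga y) := ⟨_, rfl⟩
      have hu3 : |u.re| ≤ K3 := by
        rw [hu]
        exact (Complex.abs_re_le_norm _).trans (HK3 _ (im0 y))
      rw [← hu] at h2 h3
      have h4 : |(((P y * (s' * η' y - s * η y) : ℝ) : ℂ) * (I * (ga' y * u))).re| ≤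
          (C * κ) * (K2 * Real.exp (-2 * |z.re - y|) + K3 * C1 * Real.exp (-|y|)) := by
        rw [Complex.re_ofReal_mul, Complex.I_mul_re, abs_mul, abs_neg]
        refine mul_le_mul (hpd y) ?_ (abs_nonneg _) (by positivity)
        have e7 : (ga' y * u).im = u.im + deriv eta y * u.re := by
          unfold ga'
          simp only [Complex.mul_im, Complex.add_re, Complex.add_im, Complex.one_re, Complex.one_im,
            Complex.mul_re, Complex.ofReal_re, Complex.ofReal_im, Complex.I_re, Complex.I_im]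
          ring
        rw [e7]
        refine (abs_add_le _ _).trans (add_le_add ?_ ?_)
        · refine h2.trans (mul_le_of_le_one_right (by positivity) h6)
        · rw [abs_mul]
          calc |deriv eta y| * |u.re| ≤ (C1 * Real.exp (-|y|)) * K3 :=
                mul_le_mul (HC1 y).1 hu3 (abs_nonneg _) (by positivity)
            _ = _ := by ring
      obtain ⟨X, hX⟩ : ∃ X, X = (((s' * P y : ℝ) : ℂ) * (Ux (z - ga y) - Ux (z - zt (gD η') y)) -
        ((s * P y : ℝ) : ℂ) * (Ux (z - ga y) - Ux (z - zt (gD η) y))).re := ⟨_, rfl⟩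
      obtain ⟨Y, hY⟩ : ∃ Y, Y = (((P y * (s' * η' y - s * η y) : ℝ) : ℂ) * (I * (ga' y * u))).re :=
        ⟨_, rfl⟩
      rw [← hX, ← hY] at h3
      rw [← hY] at h4
      rw [← hX, Real.norm_eq_abs]
      have h5 : |X| ≤ |X - Y| + |Y| := by
        have := abs_add_le (X - Y) Y
        rwa [sub_add_cancel] at this
      have hE := hEW y
      have p1 : 0 ≤ 4 * K * (M * ε) + C * K2 * κ := by positivity
      calc |X| ≤ 4 * K * (M * ε) * Real.exp (-2 * |z.re - y|) +
            (C * κ) * (K2 * Real.exp (-2 * |z.re - y|) + K3 * C1 * Real.exp (-|y|)) :=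
            h5.trans (add_le_add h3 h4)
        _ = (4 * K * (M * ε) + C * K2 * κ) * Real.exp (-2 * |z.re - y|) +
            C * K3 * C1 * κ * Real.exp (-|y|) := by ring
        _ ≤ (4 * K * (M * ε) + C * K2 * κ) * (3 * Wt (t - y)) + C * K3 * C1 * κ * Real.exp (-|y|) := by
            gcongr
        _ = _ := by
            simp only [Pi.add_apply]
            ring
  · have j : ∀ {σ : ℝ} {h : ℝ → ℝ}, Continuous h → (∀ y, |(zt (gD h) y).im| ≤ l / 7) →
        IntegrableOn (fun y : ℝ =>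
        ((σ * P y : ℝ) : ℂ) * (Uxd (z - ga y) - Uxd (z - zt (gD h) y))) (Icc (-b) b) := by
      intro σ h ch hh
      exact ((rho_cont B σ).mul ((Uxd_cont' continuous_ga fun y =>
        lt_of_le_of_lt (im0 y) (by linarith)).sub (Uxd_cont' (zt_cont ch) fun y =>
        lt_of_le_of_lt (im1 hh y) (by linarith)))).continuousOn.integrableOn_compact isCompact_Icc
    unfold DJ1
    rw [← integral_sub (j cη' hi') (j cη hi)]
    refine (norm_integral_le_of_norm_le (((Wt_int.comp_sub_left t).integrableOn).const_mul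
      (3 * (1 + 4 * K + 2 * C * K2 + 2 * C * K3 * C1) * (M * ε + κ))) (Eventually.of_forall fun y => ?_)).trans
      (le_of_eq ?_)
    · have h1 := main Uxd Uxd2 (fun w w' h1 h2 h3 => (HK w w' h1 h2 h3).2) y
      have h2 := (HK2 _ (im0 y)).1
      rw [hre'] at h2
      have h4 : ‖((P y * (s' * η' y - s * η y) : ℝ) : ℂ) * (I * (ga' y * Uxd2 (z - ga y)))‖ ≤
          (C * κ) * (5 / 4 * (K2 * Real.exp (-2 * |z.re - y|))) := by
        rw [norm_mul, norm_mul, norm_mul, Complex.norm_I, one_mul, Complex.norm_real, Real.norm_eq_abs]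
        exact mul_le_mul (hpd y) (mul_le_mul (ga'_norm y) h2 (norm_nonneg _) (by norm_num))
          (by positivity) (by positivity)
      obtain ⟨X, hX⟩ : ∃ X, X = ((s' * P y : ℝ) : ℂ) * (Uxd (z - ga y) - Uxd (z - zt (gD η') y)) -
        ((s * P y : ℝ) : ℂ) * (Uxd (z - ga y) - Uxd (z - zt (gD η) y)) := ⟨_, rfl⟩
      obtain ⟨Y, hY⟩ : ∃ Y, Y = ((P y * (s' * η' y - s * η y) : ℝ) : ℂ) * (I * (ga' y * Uxd2 (z - ga y))) :=
        ⟨_, rfl⟩
      rw [← hX, ← hY] at h1
      rw [← hY] at h4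
      rw [← hX]
      have h5 : ‖X‖ ≤ ‖X - Y‖ + ‖Y‖ := by
        have := norm_add_le (X - Y) Y
        rwa [sub_add_cancel] at this
      have hW := Wt_nonneg (t - y)
      have hE := hEW y
      have hE0 := Real.exp_pos (-2 * |z.re - y|)
      have p1 : 0 ≤ 4 * K * (M * ε) + 2 * C * K2 * κ := by positivity
      have p2 : 0 ≤ C * K3 * C1 * κ := by positivity
      have p3 : 0 ≤ C * K2 * κ := by positivity
      have p4 : 0 ≤ C * K2 * (M * ε) := by positivity
      have p5 : 0 ≤ C * K3 * C1 * (M * ε) := by positivity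
      have p6 : 0 ≤ K * κ := by positivity
      calc ‖X‖ ≤ 4 * K * (M * ε) * Real.exp (-2 * |z.re - y|) +
            (C * κ) * (5 / 4 * (K2 * Real.exp (-2 * |z.re - y|))) := h5.trans (add_le_add h1 h4)
        _ = (4 * K * (M * ε) + 5 / 4 * (C * K2 * κ)) * Real.exp (-2 * |z.re - y|) := by ring
        _ ≤ (4 * K * (M * ε) + 2 * C * K2 * κ) * Real.exp (-2 * |z.re - y|) := by
            refine mul_le_mul_of_nonneg_right ?_ hE0.le
            linarith
        _ ≤ (4 * K * (M * ε) + 2 * C * K2 * κ) * (3 * Wt (t - y)) := by gcongr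
        _ = 3 * (4 * K * (M * ε) + 2 * C * K2 * κ) * Wt (t - y) := by ring
        _ ≤ 3 * (1 + 4 * K + 2 * C * K2 + 2 * C * K3 * C1) * (M * ε + κ) * Wt (t - y) := by
            refine mul_le_mul_of_nonneg_right ?_ hW
            nlinarith
    · rw [integral_const_mul]
      rfl

end

end PLT.Cv
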