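import Pool.Agent.PLT.KerG
import Pool.Agent.PLT.SeaO
import Pool.Agent.PLX.Ux2

/-!
# The pair kernels of the static curve and of a displaced curve

* `Ud_reg`: `Ud w + 2 / w` near `0`: bounded, its imaginary part is `O(|Im w|)`;
* `K1 t y`: the derivative in `t` of `Up Uc ga t y`; **`ker_im`**: the imaginary parts of `Up Uc ga t y` and of
  `K1 t y` are `O(e^{-|t-y|} (e^{-|t|} + e^{-|y|}))`;
* **`ker_im_lip`**: increments of `Im Up Uc ga t y` for points on the same side of `y`;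
* `QZ δ δ1 t y`: the derivative of `Up Uc (zt δ) t (t + u)` in `t`; **`exists_kerC`**: displaced against static.
-/

set_option autoImplicit false
set_option linter.unusedSectionVars false
set_option linter.unusedVariables false

open MeasureTheory Set Filter Topology Complex
open scoped ContDiff

namespace PLT.Cv

open NUMF (l l_pos V)
open NUAct (Us Ux Uc Ud Up Ty Ty2 hasDerivAt_Uc hasDerivAt_Ty Uc_ofReal Uc_incr Ud_dec Up_of_lt Up_of_le V_even
  a0 a1 a2 a3 l8 sinh_slit)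

noncomputable section

/-! ### the regular part of `Ud` near `0` -/

/-- `Ud` is real on the half line -/
lemma Ud_real {x : ℝ} (hx : 0 < x) : (Ud (x : ℂ)).im = 0 := by
  have h1 : HasDerivAt (fun t : ℝ => Uc (t : ℂ)) (Ud x) x :=
    (hasDerivAt_Uc (z := x) (by simpa using hx) (by simpa using l_pos)).comp_ofReal
  have h2 : HasDerivAt (fun t : ℝ => (Uc (t : ℂ)).im) (Ud x).im x :=
    Complex.imCLM.hasFDerivAt.comp_hasDerivAt x h1
  have h3 : HasDerivAt (fun t : ℝ => (Uc (t : ℂ)).im) 0 x := by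
    refine (hasDerivAt_const x (0:ℝ)).congr_of_eventuallyEq ?_
    filter_upwards [lt_mem_nhds hx] with t ht
    rw [Uc_ofReal ht, Complex.ofReal_im]
  exact h2.unique h3

/-- `sinh w / w` -/
def Sh : ℂ → ℂ := dslope Complex.sinh 0

lemma Sh_diff : Differentiable ℂ Sh := by
  have h : DifferentiableOn ℂ Sh univ :=
    (Complex.differentiableOn_dslope (univ_mem : univ ∈ 𝓝 (0:ℂ))).2
      Complex.differentiable_sinh.differentiableOn
  exact differentiableOn_univ.1 h

lemma Sh_eq {w : ℂ} (h : w ≠ 0) : Sh w = Complex.sinh w / w := by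
  unfold Sh
  rw [dslope_of_ne _ h, slope_def_field, Complex.sinh_zero, sub_zero, sub_zero]

lemma Sh_ne {w : ℂ} (hw : |w.im| < Real.pi / 2) : Sh w ≠ 0 := by
  by_cases h : w = 0
  · rw [h]
    unfold Sh
    rw [dslope_same, Complex.deriv_sinh, Complex.cosh_zero]
    exact one_ne_zero
  · rw [Sh_eq h]
    refine div_ne_zero ?_ h
    rcases lt_trichotomy w.re 0 with h1 | h1 | h1
    · have h2 := sinh_slit (w := -w) (by simpa using h1) (by simpa using hw)
      rw [Complex.sinh_neg] at h2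
      have := Complex.slitPlane_ne_zero h2
      simpa using this
    · have h2 : w = (w.im : ℂ) * I := by
        apply Complex.ext <;> simp [h1]
      have h3 : w.im ≠ 0 := fun h4 => h (by rw [h2, h4]; simp)
      rw [h2, Complex.sinh_mul_I]
      refine mul_ne_zero ?_ Complex.I_ne_zero
      rw [← Complex.ofReal_sin]
      have h4 : Real.sin w.im ≠ 0 := by
        rcases lt_or_gt_of_ne h3 with h5 | h5
        · have := Real.sin_neg_of_neg_of_neg_pi_lt h5 (by
            rw [abs_lt] at hw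
            linarith [hw.1, Real.pi_pos])
          exact this.ne
        · have := Real.sin_pos_of_pos_of_lt_pi h5 (by
            rw [abs_lt] at hw
            linarith [hw.2, Real.pi_pos])
          exact this.ne'
      exact_mod_cast h4
    · exact Complex.slitPlane_ne_zero (sinh_slit h1 hw)

/-- the regular part of `Ud` -/
def Ur (w : ℂ) : ℂ := Ty (3 * l) w - Ty (2 * l) w + 2 * Ty l w - Ty 0 w - 2 * (deriv Sh w / Sh w)

lemma Ur_eq {w : ℂ} (h0 : 0 < w.re) (h : |w.im| < Real.pi / 2) : Ud w + 2 / w = Ur w := by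
  have hw : w ≠ 0 := by
    intro h1
    rw [h1] at h0
    simp at h0
  have hs := Complex.slitPlane_ne_zero (sinh_slit h0 h)
  have h1 : HasDerivAt Sh ((Complex.cosh w * w - Complex.sinh w * 1) / w ^ 2) w := by
    have h2 := (Complex.hasDerivAt_sinh w).div (hasDerivAt_id w) hw
    refine h2.congr_of_eventuallyEq ?_
    filter_upwards [isOpen_ne.mem_nhds hw] with z hz
    rw [Sh_eq hz]
    rfl
  unfold Ur Ud
  rw [h1.deriv, Sh_eq hw]
  field_simp
  ring

lemma Ur_diff : DifferentiableOn ℂ Ur {w : ℂ | |w.im| < l} := by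
  intro w hw
  have hw' : |w.im| < l := hw
  have hl := l_pos
  have h8 := l8
  have hd : DifferentiableAt ℂ (deriv Sh) w :=
    ((Sh_diff.contDiff (n := 2)).differentiable_deriv_two w)
  have d := ((((hasDerivAt_Ty (a3 hw')).differentiableAt.sub (hasDerivAt_Ty (a2 hw')).differentiableAt).add
    ((hasDerivAt_Ty (a1 hw')).differentiableAt.const_mul 2)).sub (hasDerivAt_Ty (a0 hw')).differentiableAt).sub
    ((hd.div (Sh_diff w) (Sh_ne (lt_trans hw' (by linarith)))).const_mul 2)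
  exact d.differentiableWithinAt

/-- **the regular part of `Ud`** -/
theorem Ud_reg : ∃ K : ℝ, 0 < K ∧ ∀ w : ℂ, 0 < w.re → w.re ≤ 2 → |w.im| ≤ l / 4 →
    ‖Ud w + 2 / w‖ ≤ K ∧ |(Ud w + 2 / w).im| ≤ K * |w.im| := by
  have hl := l_pos
  have h8 := l8
  have ho : IsOpen {w : ℂ | |w.im| < l} := isOpen_lt (Complex.continuous_im.abs) continuous_const
  obtain ⟨Rc, hRc⟩ : ∃ Rc : Set ℂ, Rc = {w : ℂ | 0 ≤ w.re ∧ w.re ≤ 2 ∧ |w.im| ≤ l / 4} := ⟨_, rfl⟩
  have hcomp : IsCompact Rc := by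
    have h1 : Rc = (Icc (0:ℝ) 2) ×ℂ (Icc (-(l / 4)) (l / 4)) := by
      rw [hRc]
      ext w
      simp only [mem_ofPred_eq, Complex.mem_reProdIm, mem_Icc, abs_le]
      tauto
    rw [h1]
    exact isCompact_Icc.reProdIm isCompact_Icc
  have hsub : Rc ⊆ {w : ℂ | |w.im| < l} := by
    intro w hw
    rw [hRc] at hw
    exact lt_of_le_of_lt hw.2.2 (by linarith)
  have hconv : Convex ℝ Rc := by
    have h1 : Rc = {w : ℂ | w.re ∈ Icc (0:ℝ) 2} ∩ {w : ℂ | w.im ∈ Icc (-(l / 4)) (l / 4)} := by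
      rw [hRc]
      ext w
      simp only [mem_ofPred_eq, mem_inter_iff, mem_Icc, abs_le]
      tauto
    rw [h1]
    exact ((convex_Icc (0:ℝ) 2).linear_preimage Complex.reLm).inter
      ((convex_Icc (-(l / 4)) (l / 4)).linear_preimage Complex.imLm)
  obtain ⟨K0, hK0⟩ := hcomp.exists_bound_of_continuousOn (Ur_diff.continuousOn.mono hsub)
  obtain ⟨K1, hK1⟩ := hcomp.exists_bound_of_continuousOn ((Ur_diff.deriv ho).continuousOn.mono hsub)
  refine ⟨1 + |K0| + |K1|, by positivity, fun w h1 h2 h3 => ?_⟩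
  have hw : w ∈ Rc := by
    rw [hRc]
    exact ⟨h1.le, h2, h3⟩
  have hwr : (w.re : ℂ) ∈ Rc := by
    rw [hRc]
    refine ⟨by simpa using h1.le, by simpa using h2, ?_⟩
    rw [Complex.ofReal_im, abs_zero]
    positivity
  have e1 := Ur_eq h1 (lt_of_le_of_lt h3 (by linarith))
  have e2 := Ur_eq (w := (w.re : ℂ)) (by simpa using h1) (by simpa using (by linarith : 0 < Real.pi / 2))
  have r : (Ur (w.re : ℂ)).im = 0 := by
    rw [← e2, Complex.add_im, Ud_real h1]
    have : (2 / ((w.re : ℝ) : ℂ)) = ((2 / w.re : ℝ) : ℂ) := by push_cast; rfl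
    rw [this, Complex.ofReal_im, zero_add]
  have k0 := le_abs_self K0
  have k1 := le_abs_self K1
  have k0' := abs_nonneg K0
  have k1' := abs_nonneg K1
  constructor
  · rw [e1]
    linarith [hK0 w hw]
  · rw [e1]
    have h4 := hconv.norm_image_sub_le_of_norm_hasDerivWithin_le (f := Ur) (f' := deriv Ur) (C := |K1|)
      (fun z hz => ((Ur_diff.differentiableAt (ho.mem_nhds (hsub hz))).hasDerivAt).hasDerivWithinAt)
      (fun z hz => (hK1 z hz).trans k1) hwr hw
    have h5 : ‖w - (w.re : ℂ)‖ = |w.im| := by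
      have e : w - (w.re : ℂ) = (w.im : ℂ) * I := by
        apply Complex.ext <;> simp
      rw [e, norm_mul, Complex.norm_I, mul_one, Complex.norm_real, Real.norm_eq_abs]
    rw [h5] at h4
    have h6 : (Ur w).im = (Ur w - Ur (w.re : ℂ)).im := by rw [Complex.sub_im, r, sub_zero]
    rw [h6]
    refine (Complex.abs_im_le_norm _).trans (h4.trans ?_)
    exact mul_le_mul_of_nonneg_right (by linarith) (abs_nonneg _)


/-! ### increments on the static curve -/

section

variable [SeaC]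

lemma ga_sub (t y : ℝ) : ga t - ga y = ((t - y : ℝ) : ℂ) + ((eta t - eta y : ℝ) : ℂ) * I := by
  unfold ga
  push_cast
  ring

lemma ga_sub_re (t y : ℝ) : (ga t - ga y).re = t - y := by simp

lemma ga_sub_im (t y : ℝ) : (ga t - ga y).im = eta t - eta y := by simp

lemma eta_osc (t y : ℝ) : |eta t - eta y| ≤ l / 8 := by
  have h1 := eta_nn t
  have h2 := eta_nn y
  have h3 := eta_le t
  have h4 := eta_le y
  have h5 := l_pos
  rw [abs_le]
  constructor <;> linarith

lemma eta_lip (t y : ℝ) : |eta t - eta y| ≤ 1 / 4 * |t - y| := by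
  have h := Convex.norm_image_sub_le_of_norm_hasDerivWithin_le (f := eta) (f' := deriv eta) (C := 1 / 4)
    (s := univ) (x := y) (y := t) (fun u _ => (hasDerivAt_eta u).hasDerivWithinAt)
    (fun u _ => by
      rw [Real.norm_eq_abs]
      exact eta'_le u) convex_univ (mem_univ _) (mem_univ _)
  rwa [Real.norm_eq_abs, Real.norm_eq_abs] at h

/-- slopes -/
lemma ga'_sub (t y : ℝ) : ga' t - ga' y = ((deriv eta t - deriv eta y : ℝ) : ℂ) * I := by
  unfold ga'
  push_cast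
  ring

lemma norm_ga'_sub (t y : ℝ) : ‖ga' t - ga' y‖ ≤ 1 / 2 := by
  rw [ga'_sub, norm_mul, Complex.norm_I, mul_one, Complex.norm_real, Real.norm_eq_abs]
  have h1 := abs_le.1 (eta'_le t)
  have h2 := abs_le.1 (eta'_le y)
  rw [abs_le]
  constructor <;> linarith [h1.1, h1.2, h2.1, h2.2]

/-- points between `t` and `y` -/
lemma exp_near {t y u : ℝ} (h : |u - t| ≤ 2) : Real.exp (-|u|) ≤ Real.exp 2 * Real.exp (-|t|) := by
  rw [← Real.exp_add]
  refine Real.exp_le_exp.2 ?_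
  have h1 : |t| ≤ |u| + |u - t| := by
    have h2 := abs_sub u (u - t)
    have e : u - (u - t) = t := by ring
    rwa [e] at h2
  linarith

end

lemma exp32_le' (t : ℝ) : Real.exp (-(32 / 3) * |t|) ≤ Real.exp (-|t|) :=
  Real.exp_le_exp.2 (by have := abs_nonneg t; linarith)

/-- the first two derivatives of the curve, weight `e^{-|t|}` -/
theorem eta_dec (B : SeaCB) : ∃ C : ℝ, 1 ≤ C ∧ ∀ [SeaC] [SeaCU B], ∀ t : ℝ,
    |deriv eta t| ≤ C * Real.exp (-|t|) ∧ |iteratedDeriv 2 eta t| ≤ C * Real.exp (-|t|) := by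
  obtain ⟨C1, h1, H1⟩ := eta'_exp B
  obtain ⟨C2, h2, H2⟩ := eta_exp B 2
  refine ⟨1 + C1 + C2, by linarith, @fun _ _ t => ?_⟩
  have e := exp32_le' t
  have e0 := Real.exp_pos (-(32 / 3) * |t|)
  have e1 := Real.exp_pos (-|t|)
  have key : ∀ {C x : ℝ}, 0 ≤ C → C ≤ 1 + C1 + C2 → x ≤ C * Real.exp (-(32 / 3) * |t|) →
      x ≤ (1 + C1 + C2) * Real.exp (-|t|) := by
    intro C x hC hC' hx
    exact hx.trans (mul_le_mul hC' e e0.le (hC.trans hC'))
  exact ⟨key h1 (by linarith) (H1 t), key h2 (by linarith) (H2 t)⟩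

section

variable [SeaC]

lemma hasDerivAt_eta' (t : ℝ) : HasDerivAt (deriv eta) (iteratedDeriv 2 eta t) t := by
  have h2 := (eta_smooth'.differentiable (by simp) t).hasDerivAt
  rwa [iteratedDeriv_succ, iteratedDeriv_one]

/-- increments of a function on the segment between `t` and `y` -/
lemma seg_incr {f f' : ℝ → ℝ} (hf : ∀ u, HasDerivAt f (f' u) u) {A t y : ℝ}
    (hA : ∀ u, |u - t| ≤ |t - y| → |f' u| ≤ A) : |f t - f y| ≤ A * |t - y| := by
  have h := Convex.norm_image_sub_le_of_norm_hasDerivWithin_le (f := f) (f' := f') (C := A)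
    (s := Metric.closedBall t |t - y|) (x := y) (y := t) (fun u _ => (hf u).hasDerivWithinAt)
    (fun u hu => by
      rw [Metric.mem_closedBall, Real.dist_eq] at hu
      rw [Real.norm_eq_abs]
      exact hA u hu) (convex_closedBall _ _)
    (by
      rw [Metric.mem_closedBall, Real.dist_eq, abs_sub_comm])
    (Metric.mem_closedBall_self (abs_nonneg _))
  rwa [Real.norm_eq_abs, Real.norm_eq_abs] at h

/-- first order Taylor formula of the curve -/
lemma eta_tay {A t y : ℝ} (hA : ∀ u, |u - t| ≤ |t - y| → |iteratedDeriv 2 eta u| ≤ A) :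
    |eta t - eta y - deriv eta t * (t - y)| ≤ A * |t - y| * |t - y| := by
  have h1 : ∀ u, HasDerivAt (fun u => eta u - deriv eta t * u) (deriv eta u - deriv eta t) u := fun u => by
    have := (hasDerivAt_eta u).sub ((hasDerivAt_id u).const_mul (deriv eta t))
    rwa [mul_one] at this
  have h2 := seg_incr (t := t) (y := y) h1 (A := A * |t - y|) (fun u hu => by
    have h3 := seg_incr (f := deriv eta) (f' := iteratedDeriv 2 eta) (t := t) (y := u) (A := A)
      hasDerivAt_eta' (fun v hv => hA v (by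
        rw [abs_sub_comm t u] at hv
        exact hv.trans hu))
    rw [abs_sub_comm] at h3
    refine h3.trans ?_
    have hA0 : 0 ≤ A := (abs_nonneg _).trans (hA t (by simp))
    rw [abs_sub_comm t u]
    exact mul_le_mul_of_nonneg_left hu hA0)
  have e : eta t - deriv eta t * t - (eta y - deriv eta t * y) = eta t - eta y - deriv eta t * (t - y) := by ring
  rwa [e] at h2

/-! ### the derivative of the kernel of the static curve -/

/-- the derivative in `t` of `Up Uc ga t y` -/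
def K1 (t y : ℝ) : ℂ := if y < t then Ud (ga t - ga y) * ga' t else -(Ud (ga y - ga t) * ga' t)

lemma hasDerivAt_K0 {t y : ℝ} (hne : t ≠ y) : HasDerivAt (fun t => Up Uc ga t y) (K1 t y) t := by
  have hl := l_pos
  rcases lt_or_gt_of_ne hne with h | h
  · have e1 : K1 t y = -(Ud (ga y - ga t) * ga' t) := if_neg (not_lt.2 h.le)
    have d : HasDerivAt (fun t => Uc (ga y - ga t)) (Ud (ga y - ga t) * (-ga' t)) t := by
      have h1 := (hasDerivAt_Uc (z := ga y - ga t) (by rw [ga_sub_re]; linarith) (by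
        rw [ga_sub_im]
        exact lt_of_le_of_lt (eta_osc y t) (by linarith))).scomp t ((hasDerivAt_ga t).const_sub (ga y))
      rw [smul_eq_mul, mul_comm] at h1
      exact h1
    rw [e1]
    refine (d.congr_deriv (by ring)).congr_of_eventuallyEq ?_
    filter_upwards [gt_mem_nhds h] with u hu
    exact Up_of_le (le_of_lt hu)
  · have e1 : K1 t y = Ud (ga t - ga y) * ga' t := if_pos h
    have d : HasDerivAt (fun t => Uc (ga t - ga y)) (Ud (ga t - ga y) * ga' t) t := by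
      have h1 := (hasDerivAt_Uc (z := ga t - ga y) (by rw [ga_sub_re]; linarith) (by
        rw [ga_sub_im]
        exact lt_of_le_of_lt (eta_osc t y) (by linarith))).scomp t ((hasDerivAt_ga t).sub_const (ga y))
      rw [smul_eq_mul, mul_comm] at h1
      exact h1
    rw [e1]
    refine d.congr_of_eventuallyEq ?_
    filter_upwards [lt_mem_nhds h] with u hu
    exact Up_of_lt hu

end

/-- the pole of the derivative is real up to the curvature -/
lemma pole_im (B : SeaCB) [SeaC] [SeaCU B] {A t y : ℝ} (hne : t ≠ y)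
    (hA : ∀ u, |u - t| ≤ |t - y| → |iteratedDeriv 2 eta u| ≤ A) :
    |(2 / (ga t - ga y) * ga' t).im| ≤ 2 * A := by
  have hx : t - y ≠ 0 := sub_ne_zero.2 hne
  have hA0 : 0 ≤ A := (abs_nonneg _).trans (hA t (by simp))
  have ht := eta_tay hA
  obtain ⟨x, hxd⟩ : ∃ x, x = t - y := ⟨_, rfl⟩
  obtain ⟨Δ, hΔ⟩ : ∃ Δ, Δ = eta t - eta y := ⟨_, rfl⟩
  obtain ⟨m, hm⟩ : ∃ m, m = deriv eta t := ⟨_, rfl⟩
  rw [← hxd] at hx
  rw [← hxd, ← hΔ, ← hm] at ht
  have e1 : (2 / (ga t - ga y) * ga' t).im = 2 * (x * m - Δ) / (x ^ 2 + Δ ^ 2) := by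
    rw [ga_sub, ← hxd, ← hΔ]
    unfold ga'
    rw [← hm, div_mul_eq_mul_div, Complex.div_im]
    simp only [Complex.mul_im, Complex.add_im, Complex.add_re, Complex.mul_re, Complex.ofReal_re,
      Complex.ofReal_im, Complex.I_re, Complex.I_im, Complex.re_ofNat, Complex.im_ofNat, Complex.one_re,
      Complex.one_im, Complex.normSq_apply, mul_zero, mul_one, zero_mul, sub_zero, add_zero, zero_add,
      sub_self]
    have : x * x + Δ * Δ ≠ 0 := by
      have := mul_self_pos.2 hx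
      nlinarith [mul_self_nonneg Δ]
    field_simp
  have hp : 0 < x ^ 2 + Δ ^ 2 := by positivity
  rw [e1, abs_div, abs_of_pos hp, div_le_iff₀ hp, abs_mul, abs_two]
  have h2 : |x * m - Δ| ≤ A * x ^ 2 := by
    rw [abs_sub_comm, mul_comm x m]
    refine ht.trans (le_of_eq ?_)
    rw [mul_assoc, abs_mul_abs_self, pow_two]
  nlinarith [mul_nonneg hA0 (sq_nonneg Δ)]


/-! ### the imaginary parts -/

/-- the weight of the imaginary parts -/
def E2 (t y : ℝ) : ℝ := Real.exp (-(|t - y| / 4)) * Real.exp (-(|t| / 2))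

lemma E2_pos (t y : ℝ) : 0 < E2 t y := by
  unfold E2
  positivity

/-- near points -/
lemma E2_near {t y : ℝ} (h : |t - y| ≤ 2) : Real.exp (-|t|) ≤ 3 * E2 t y := by
  unfold E2
  have h1 : Real.exp (-(1 / 2)) ≤ Real.exp (-(|t - y| / 4)) := Real.exp_le_exp.2 (by linarith)
  have h2 : Real.exp (-|t|) ≤ Real.exp (-(|t| / 2)) := Real.exp_le_exp.2 (by
    have := abs_nonneg t
    linarith)
  have h3 : 1 / 3 ≤ Real.exp (-(1 / 2)) := by
    rw [Real.exp_neg, ← one_div]
    refine one_div_le_one_div_of_le (Real.exp_pos _) ?_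
    have h4 : Real.exp (1 / 2) ≤ Real.exp 1 := Real.exp_le_exp.2 (by norm_num)
    linarith [Real.exp_one_lt_d9]
  have h5 := Real.exp_pos (-(|t| / 2))
  nlinarith

lemma exp_near1 {t y : ℝ} (h : |t - y| ≤ 2) : (1:ℝ) ≤ Real.exp 2 * Real.exp (-|t - y|) := by
  rw [← Real.exp_add]
  exact Real.one_le_exp (by linarith)

/-- the oscillation of the curve with the weight of the kernel -/
theorem osc_wt (B : SeaCB) : ∃ C : ℝ, 1 ≤ C ∧ ∀ [SeaC] [SeaCU B], ∀ t y : ℝ,
    Real.exp (-|t - y|) * |eta t - eta y| ≤ C * E2 t y := by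
  obtain ⟨C, hC, H⟩ := eta_dec B
  have hl := l_num.2.2.1
  refine ⟨1 + 4 * C, by linarith, @fun _ _ t y => ?_⟩
  have hE := E2_pos t y
  have hx := abs_nonneg (t - y)
  have ht := abs_nonneg t
  rcases le_total |t| |t - y| with h | h
  · have h1 : Real.exp (-|t - y|) ≤ E2 t y := by
      unfold E2
      rw [← Real.exp_add]
      exact Real.exp_le_exp.2 (by linarith)
    have h2 : |eta t - eta y| ≤ 1 := (eta_osc t y).trans (by linarith)
    calc _ ≤ E2 t y * 1 := mul_le_mul h1 h2 (abs_nonneg _) hE.le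
      _ ≤ _ := by nlinarith
  · have h1 : |eta t - eta y| ≤ C * Real.exp (-(|t| - |t - y|)) * |t - y| := by
      refine seg_incr hasDerivAt_eta fun u hu => ((H u).1).trans ?_
      have h3 : |t| ≤ |u| + |u - t| := by
        have h2 := abs_sub u (u - t)
        have e : u - (u - t) = t := by ring
        rwa [e] at h2
      have h4 : Real.exp (-|u|) ≤ Real.exp (-(|t| - |t - y|)) := Real.exp_le_exp.2 (by linarith)
      gcongr
    have h5 : |t - y| ≤ 4 * Real.exp (|t - y| / 4) := by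
      have := Real.add_one_le_exp (|t - y| / 4)
      linarith
    have h6 : Real.exp (-|t - y|) * Real.exp (-(|t| - |t - y|)) * Real.exp (|t - y| / 4) ≤ E2 t y := by
      unfold E2
      rw [← Real.exp_add, ← Real.exp_add, ← Real.exp_add]
      exact Real.exp_le_exp.2 (by linarith)
    calc Real.exp (-|t - y|) * |eta t - eta y| ≤
          Real.exp (-|t - y|) * (C * Real.exp (-(|t| - |t - y|)) * (4 * Real.exp (|t - y| / 4))) := by
          refine mul_le_mul_of_nonneg_left (h1.trans ?_) (Real.exp_pos _).le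
          gcongr
      _ = 4 * C * (Real.exp (-|t - y|) * Real.exp (-(|t| - |t - y|)) * Real.exp (|t - y| / 4)) := by ring
      _ ≤ 4 * C * E2 t y := by gcongr
      _ ≤ _ := by nlinarith

/-- bounds of the derivatives of the curve near `t` -/
lemma near_bd {C : ℝ} (hC : 0 ≤ C) {f : ℝ → ℝ} (H : ∀ t, |f t| ≤ C * Real.exp (-|t|)) {t y : ℝ} (h : |t - y| ≤ 2) :
    ∀ u, |u - t| ≤ |t - y| → |f u| ≤ C * Real.exp 2 * Real.exp (-|t|) := fun u hu => by
  have h1 : Real.exp (-|u|) ≤ Real.exp 2 * Real.exp (-|t|) := by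
    rw [← Real.exp_add]
    refine Real.exp_le_exp.2 ?_
    have h1 : |t| ≤ |u| + |u - t| := by
      have h2 := abs_sub u (u - t)
      have e : u - (u - t) = t := by ring
      rwa [e] at h2
    linarith
  calc |f u| ≤ C * Real.exp (-|u|) := H u
    _ ≤ C * (Real.exp 2 * Real.exp (-|t|)) := by gcongr
    _ = _ := by ring

/-- the argument of the kernel -/
lemma sgn_cases {t y : ℝ} (hne : t ≠ y) : ∃ σ : ℝ, |σ| = 1 ∧ σ * (t - y) = |t - y| ∧
    ∀ [SeaC], Up Uc ga t y = Uc (σ * (ga t - ga y)) ∧ K1 t y = σ * (Ud (σ * (ga t - ga y)) * ga' t) := by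
  rcases lt_or_gt_of_ne hne with h | h
  · refine ⟨-1, by simp, by rw [abs_of_neg (by linarith : t - y < 0)]; ring, @fun _ => ⟨?_, ?_⟩⟩
    · rw [Up_of_le h.le]
      congr 1
      push_cast
      ring
    · unfold K1
      rw [if_neg (not_lt.2 h.le)]
      push_cast
      rw [neg_one_mul, neg_one_mul, neg_sub]
  · refine ⟨1, by simp, by rw [abs_of_pos (by linarith : 0 < t - y)]; ring, @fun _ => ⟨?_, ?_⟩⟩
    · rw [Up_of_lt h]
      congr 1
      push_cast
      ring
    · unfold K1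
      rw [if_pos h]
      push_cast
      rw [one_mul, one_mul]

/-- the imaginary part of the kernel -/
lemma im0_raw : ∃ K : ℝ, 0 < K ∧ ∀ [SeaC], ∀ t y : ℝ, t ≠ y →
    |(Up Uc ga t y).im| ≤ K * (1 + 1 / |t - y|) * Real.exp (-|t - y|) * |eta t - eta y| := by
  obtain ⟨Kc, hKc, HU⟩ := Uc_incr
  have hl := l_num
  refine ⟨Kc, hKc, @fun _ t y hne => ?_⟩
  obtain ⟨σ, hσ, hσx, hs⟩ := sgn_cases hne
  rw [(@hs _).1]
  have hx : 0 < |t - y| := abs_pos.2 (sub_ne_zero.2 hne)
  have e1 : (σ : ℂ) * (ga t - ga y) = ((|t - y| : ℝ) : ℂ) + ((σ * (eta t - eta y) : ℝ) : ℂ) * I := by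
    rw [ga_sub, ← hσx]
    push_cast
    ring
  have hn : ‖((σ * (eta t - eta y) : ℝ) : ℂ) * I‖ = |eta t - eta y| := by
    rw [norm_mul, Complex.norm_I, mul_one, Complex.norm_real, Real.norm_eq_abs, abs_mul, hσ, one_mul]
  have h1 := (HU |t - y| (((σ * (eta t - eta y) : ℝ) : ℂ) * I) hx (by
    rw [hn]
    have := eta_lip t y
    linarith) (by
    rw [hn]
    have := eta_osc t y
    linarith)).1
  rw [hn, Uc_ofReal hx] at h1
  have h2 : (Uc ((σ : ℂ) * (ga t - ga y))).im =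
      (Uc (((|t - y| : ℝ) : ℂ) + ((σ * (eta t - eta y) : ℝ) : ℂ) * I) - (V |t - y| : ℂ)).im := by
    rw [e1, Complex.sub_im, Complex.ofReal_im, sub_zero]
  rw [h2]
  exact (Complex.abs_im_le_norm _).trans h1

/-- the imaginary part of the derivative of the kernel -/
lemma im1_raw : ∃ K : ℝ, 0 < K ∧ ∀ [SeaC], ∀ t y : ℝ, t ≠ y →
    |(K1 t y).im| ≤ K * (1 + 1 / |t - y|) ^ 2 * Real.exp (-|t - y|) * (|eta t - eta y| + |deriv eta t|) := by
  obtain ⟨Kd, hKd, HD⟩ := Uc_incr_w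
  obtain ⟨Ke, hKe, HE⟩ := Ud_incr_w
  have hl := l_num
  have hl0 := l_pos
  refine ⟨Ke + Kd, by positivity, @fun _ t y hne => ?_⟩
  obtain ⟨σ, hσ, hσx, hs⟩ := sgn_cases hne
  rw [(@hs _).2]
  have hx : 0 < |t - y| := abs_pos.2 (sub_ne_zero.2 hne)
  have e1 : (σ : ℂ) * (ga t - ga y) = ((|t - y| : ℝ) : ℂ) + ((σ * (eta t - eta y) : ℝ) : ℂ) * I := by
    rw [ga_sub, ← hσx]
    push_cast
    ring
  have hn : ‖((σ * (eta t - eta y) : ℝ) : ℂ) * I‖ = |eta t - eta y| := by
    rw [norm_mul, Complex.norm_I, mul_one, Complex.norm_real, Real.norm_eq_abs, abs_mul, hσ, one_mul]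
  obtain ⟨x, hxd⟩ : ∃ x, x = |t - y| := ⟨_, rfl⟩
  obtain ⟨Δ, hΔ⟩ : ∃ Δ, Δ = |eta t - eta y| := ⟨_, rfl⟩
  have hΔ0 : 0 ≤ Δ := by rw [hΔ]; exact abs_nonneg _
  have q1 : Δ ≤ x / 2 := by
    rw [hΔ, hxd]
    have := eta_lip t y
    linarith
  have q2 : Δ ≤ 1 / 20 := by
    rw [hΔ]
    have := eta_osc t y
    linarith
  have hre : (((|t - y| : ℝ) : ℂ)).re = |t - y| := Complex.ofReal_re _
  have him : |(((|t - y| : ℝ) : ℂ)).im| ≤ l / 4 := by
    rw [Complex.ofReal_im, abs_zero]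
    positivity
  have h1 := HE ((|t - y| : ℝ) : ℂ) (((σ * (eta t - eta y) : ℝ) : ℂ) * I) (by rw [hre]; exact hx) him
    (by rw [hn, hre, ← hΔ, ← hxd]; exact q1) (by rw [hn, ← hΔ]; exact q2)
  have h2 := (HD ((|t - y| : ℝ) : ℂ) (((σ * (eta t - eta y) : ℝ) : ℂ) * I) (by rw [hre]; exact hx) him
    (by rw [hn, hre, ← hΔ, ← hxd]; exact q1) (by rw [hn, ← hΔ]; exact q2)).2
  rw [hre, hn, ← hΔ, ← hxd] at h1
  rw [hre, ← hxd] at h2
  rw [← hxd] at e1 hx
  have h3 : |(Ud ((σ : ℂ) * (ga t - ga y))).im| ≤ Ke * (1 + 1 / x) ^ 2 * Real.exp (-x) * Δ := by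
    have e2 : (Ud ((σ : ℂ) * (ga t - ga y))).im =
        (Ud ((x : ℂ) + ((σ * (eta t - eta y) : ℝ) : ℂ) * I) - Ud (x : ℂ)).im := by
      rw [e1, Complex.sub_im, Ud_real hx, sub_zero]
    rw [e2]
    exact (Complex.abs_im_le_norm _).trans h1
  rw [← e1] at h2
  obtain ⟨u, hu⟩ : ∃ u, u = Ud ((σ : ℂ) * (ga t - ga y)) := ⟨_, rfl⟩
  rw [← hu] at h2 h3
  have e3 : ((σ : ℂ) * (u * ga' t)).im = σ * (u.im + deriv eta t * u.re) := by
    unfold ga'
    simp only [Complex.mul_im, Complex.mul_re, Complex.ofReal_re, Complex.ofReal_im, Complex.add_re,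
      Complex.add_im, Complex.one_re, Complex.one_im, Complex.I_re, Complex.I_im]
    ring
  rw [← hu, e3, abs_mul, hσ, one_mul, ← hΔ, ← hxd]
  refine (abs_add_le _ _).trans ?_
  rw [abs_mul]
  have h4 : |u.re| ≤ Kd * (1 + 1 / x) * Real.exp (-x) := (Complex.abs_re_le_norm _).trans h2
  obtain ⟨z, hz⟩ : ∃ z, z = 1 + 1 / x := ⟨_, rfl⟩
  have hz1 : 1 ≤ z := by
    rw [hz]
    have : 0 < 1 / x := by positivity
    linarith
  rw [← hz] at h3 h4 ⊢
  have hE := Real.exp_pos (-x)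
  have hd := abs_nonneg (deriv eta t)
  have h5 : |deriv eta t| * |u.re| ≤ |deriv eta t| * (Kd * z ^ 2 * Real.exp (-x)) := by
    refine mul_le_mul_of_nonneg_left (h4.trans ?_) hd
    have : z ≤ z ^ 2 := by nlinarith
    gcongr
  have p1 : 0 ≤ Kd * z ^ 2 * Real.exp (-x) * Δ := by positivity
  have p2 : 0 ≤ Ke * z ^ 2 * Real.exp (-x) * |deriv eta t| := by positivity
  calc |u.im| + |deriv eta t| * |u.re| ≤ Ke * z ^ 2 * Real.exp (-x) * Δ +
        |deriv eta t| * (Kd * z ^ 2 * Real.exp (-x)) := add_le_add h3 h5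
    _ ≤ (Ke + Kd) * z ^ 2 * Real.exp (-x) * (Δ + |deriv eta t|) := by nlinarith

/-- the imaginary part of the derivative of the kernel near the diagonal -/
lemma im1_near : ∃ K : ℝ, 1 ≤ K ∧ ∀ (B : SeaCB) [SeaC] [SeaCU B], ∀ {A t y : ℝ}, t ≠ y → |t - y| ≤ 2 →
    (∀ u, |u - t| ≤ |t - y| → |iteratedDeriv 2 eta u| ≤ A) →
    |(K1 t y).im| ≤ K * (A + |eta t - eta y| + |deriv eta t|) := by
  obtain ⟨Kr, hKr, HR⟩ := Ud_reg
  have hl := l_num
  have hl0 := l_pos
  refine ⟨2 + Kr, by linarith, @fun B _ _ A t y hne h2 hA => ?_⟩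
  obtain ⟨σ, hσ, hσx, hs⟩ := sgn_cases hne
  rw [(@hs _).2]
  have hx : 0 < |t - y| := abs_pos.2 (sub_ne_zero.2 hne)
  have hA0 : 0 ≤ A := (abs_nonneg _).trans (hA t (by simp))
  have hp := pole_im B hne hA
  have e1 : (σ : ℂ) * (ga t - ga y) = ((|t - y| : ℝ) : ℂ) + ((σ * (eta t - eta y) : ℝ) : ℂ) * I := by
    rw [ga_sub, ← hσx]
    push_cast
    ring
  have hre : ((σ : ℂ) * (ga t - ga y)).re = |t - y| := by
    rw [e1]
    simp
  have him : ((σ : ℂ) * (ga t - ga y)).im = σ * (eta t - eta y) := by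
    rw [e1]
    simp
  have hai : |((σ : ℂ) * (ga t - ga y)).im| = |eta t - eta y| := by rw [him, abs_mul, hσ, one_mul]
  obtain ⟨r1, r2⟩ := HR ((σ : ℂ) * (ga t - ga y)) (by rw [hre]; exact hx) (by rw [hre]; exact h2)
    (by rw [hai]; exact (eta_osc t y).trans (by linarith))
  rw [hai] at r2
  have hσ2 : (σ : ℂ) * σ = 1 := by
    have h3 : σ * σ = 1 := by rw [← abs_mul_abs_self, hσ, one_mul]
    exact_mod_cast h3
  have hσ0 : (σ : ℂ) ≠ 0 := fun h => by rw [h, zero_mul] at hσ2; exact zero_ne_one hσ2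
  have hw0 : ga t - ga y ≠ 0 := fun h => by
    have := congrArg Complex.re h
    rw [ga_sub_re, Complex.zero_re] at this
    exact sub_ne_zero.2 hne this
  obtain ⟨g, hg⟩ : ∃ g, g = Ud ((σ : ℂ) * (ga t - ga y)) + 2 / ((σ : ℂ) * (ga t - ga y)) := ⟨_, rfl⟩
  rw [← hg] at r1 r2
  have e2 : (σ : ℂ) * (Ud ((σ : ℂ) * (ga t - ga y)) * ga' t) =
      (σ : ℂ) * (g * ga' t) - 2 / (ga t - ga y) * ga' t := by
    rw [hg]
    field_simp
    ring
  have e3 : ((σ : ℂ) * (g * ga' t)).im = σ * (g.im + deriv eta t * g.re) := by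
    unfold ga'
    simp only [Complex.mul_im, Complex.mul_re, Complex.ofReal_re, Complex.ofReal_im, Complex.add_re,
      Complex.add_im, Complex.one_re, Complex.one_im, Complex.I_re, Complex.I_im]
    ring
  rw [e2, Complex.sub_im, e3]
  refine (abs_sub _ _).trans ?_
  rw [abs_mul, hσ, one_mul]
  have h4 := abs_add_le g.im (deriv eta t * g.re)
  rw [abs_mul] at h4
  have h5 : |deriv eta t| * |g.re| ≤ |deriv eta t| * Kr :=
    mul_le_mul_of_nonneg_left ((Complex.abs_re_le_norm _).trans r1) (abs_nonneg _)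
  have h6 := abs_nonneg (deriv eta t)
  have h7 := abs_nonneg (eta t - eta y)
  nlinarith [mul_nonneg hKr.le hA0, mul_nonneg hKr.le h7, mul_nonneg hKr.le h6]

/-- **the imaginary parts of the kernel of the static curve and of its derivative** -/
theorem ker_im (B : SeaCB) : ∃ K : ℝ, 1 ≤ K ∧ ∀ [SeaC] [SeaCU B], ∀ t y : ℝ, t ≠ y →
    (|(Up Uc ga t y).im| ≤ K * Real.exp (-|t - y|) ∧ |(Up Uc ga t y).im| ≤ K * E2 t y) ∧
    (|(K1 t y).im| ≤ K * Real.exp (-|t - y|) ∧ |(K1 t y).im| ≤ K * E2 t y) := by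
  obtain ⟨C, hC, H⟩ := eta_dec B
  obtain ⟨Co, hCo, Ho⟩ := osc_wt B
  obtain ⟨Kc, hKc, HU⟩ := im0_raw
  obtain ⟨Kn, hKn, HN⟩ := im1_near
  obtain ⟨Ke, hKe, HE⟩ := im1_raw
  have hl := l_num
  have hl0 := l_pos
  obtain ⟨X, hX⟩ : ∃ X, X = C * Real.exp 2 := ⟨_, rfl⟩
  have he2 := Real.exp_pos 2
  have hX0 : 0 < X := by rw [hX]; positivity
  have hX1 : C ≤ X := by
    rw [hX]
    have := Real.one_le_exp (by norm_num : (0:ℝ) ≤ 2)
    nlinarith
  -- the two bounds from a near bound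
  have near : ∀ {z Q t y : ℝ}, 0 ≤ Q → |t - y| ≤ 2 → z ≤ Q * Real.exp (-|t|) →
      z ≤ Q * Real.exp 2 * Real.exp (-|t - y|) ∧ z ≤ 3 * Q * E2 t y := by
    intro z Q t y hQ h hz
    have h1 := exp_near1 h
    have h2 := E2_near h
    have h3 : Real.exp (-|t|) ≤ 1 := Real.exp_le_one_iff.2 (by have := abs_nonneg t; linarith)
    constructor
    · calc z ≤ Q * Real.exp (-|t|) := hz
        _ ≤ Q * (Real.exp 2 * Real.exp (-|t - y|)) := mul_le_mul_of_nonneg_left (h3.trans h1) hQ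
        _ = _ := by ring
    · calc z ≤ Q * Real.exp (-|t|) := hz
        _ ≤ Q * (3 * E2 t y) := mul_le_mul_of_nonneg_left h2 hQ
        _ = _ := by ring
  refine ⟨1 + (2 * Kc + 2 * Kc * Co + 2 * Kc * X * Real.exp 2 + 6 * Kc * X) +
    (8 * Ke + 4 * Ke * Co + 4 * Ke * C + 4 * Kn * X * Real.exp 2 + 12 * Kn * X), ?_,
    @fun _ _ t y hne => ?_⟩
  · have : 0 ≤ (2 * Kc + 2 * Kc * Co + 2 * Kc * X * Real.exp 2 + 6 * Kc * X) +
      (8 * Ke + 4 * Ke * Co + 4 * Ke * C + 4 * Kn * X * Real.exp 2 + 12 * Kn * X) := by positivity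
    linarith
  have hx : 0 < |t - y| := abs_pos.2 (sub_ne_zero.2 hne)
  obtain ⟨x, hxd⟩ : ∃ x, x = |t - y| := ⟨_, rfl⟩
  have k0 := HU t y hne
  have k1 := HE t y hne
  have ho := Ho t y
  have hd := (H t).1
  have hE2 := E2_pos t y
  have hdiff := abs_nonneg (eta t - eta y)
  have hd0 := abs_nonneg (deriv eta t)
  obtain ⟨Δ, hΔ⟩ : ∃ Δ, Δ = |eta t - eta y| := ⟨_, rfl⟩
  have hΔ1 : Δ ≤ 1 := by
    rw [hΔ]
    have := eta_osc t y
    linarith
  rw [← hΔ, ← hxd] at k0 k1
  rw [← hΔ, ← hxd] at ho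
  rw [← hΔ] at hdiff
  rw [← hxd] at hx
  have hEx := Real.exp_pos (-x)
  have hEt := Real.exp_pos (-|t|)
  have hEx1 : Real.exp (-x) ≤ 1 := Real.exp_le_one_iff.2 (by linarith)
  rcases le_total x 1 with h1 | h1
  · have hx2 : |t - y| ≤ 2 := by rw [← hxd]; linarith
    have g1 := near_bd (by linarith : 0 ≤ C) (fun t => (H t).1) hx2
    have g2 := near_bd (by linarith : 0 ≤ C) (fun t => (H t).2) hx2
    rw [← hX] at g1 g2
    have g3 := seg_incr hasDerivAt_eta g1
    rw [← hΔ, ← hxd] at g3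
    have XE : 0 < X * Real.exp (-|t|) := by positivity
    have m1 : |(Up Uc ga t y).im| ≤ 2 * Kc * X * Real.exp (-|t|) := by
      have h3 : (1 + 1 / x) * Δ ≤ 2 * (X * Real.exp (-|t|)) := by
        have h4 : 1 / x * Δ ≤ X * Real.exp (-|t|) := by
          rw [one_div, inv_mul_le_iff₀ hx]
          linarith
        have h5 : Δ ≤ X * Real.exp (-|t|) := g3.trans (mul_le_of_le_one_right XE.le h1)
        nlinarith
      calc _ ≤ Kc * (1 + 1 / x) * Real.exp (-x) * Δ := k0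
        _ = Kc * Real.exp (-x) * ((1 + 1 / x) * Δ) := by ring
        _ ≤ Kc * 1 * (2 * (X * Real.exp (-|t|))) := by gcongr
        _ = _ := by ring
    have m2 : |(K1 t y).im| ≤ 4 * Kn * X * Real.exp (-|t|) := by
      have h3 := HN B hne hx2 g2
      rw [← hΔ] at h3
      have h5 : Δ ≤ X * Real.exp (-|t|) := g3.trans (mul_le_of_le_one_right XE.le h1)
      have h6 : |deriv eta t| ≤ X * Real.exp (-|t|) := hd.trans (mul_le_mul_of_nonneg_right hX1 hEt.le)
      calc _ ≤ Kn * (X * Real.exp (-|t|) + Δ + |deriv eta t|) := h3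
        _ ≤ Kn * (X * Real.exp (-|t|) + X * Real.exp (-|t|) + X * Real.exp (-|t|)) := by gcongr
        _ ≤ _ := by nlinarith [mul_pos (by linarith : 0 < Kn) XE]
    obtain ⟨n1, n2⟩ := near (by positivity) hx2 m1
    obtain ⟨n3, n4⟩ := near (by positivity) hx2 m2
    have hEy := Real.exp_pos (-|t - y|)
    refine ⟨⟨n1.trans (mul_le_mul_of_nonneg_right ?_ hEy.le), n2.trans
      (mul_le_mul_of_nonneg_right ?_ hE2.le)⟩, n3.trans (mul_le_mul_of_nonneg_right ?_ hEy.le),
      n4.trans (mul_le_mul_of_nonneg_right ?_ hE2.le)⟩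
    · have : 0 ≤ 2 * Kc + 2 * Kc * Co + 6 * Kc * X +
        (8 * Ke + 4 * Ke * Co + 4 * Ke * C + 4 * Kn * X * Real.exp 2 + 12 * Kn * X) := by positivity
      linarith
    · have : 0 ≤ 2 * Kc + 2 * Kc * Co + 2 * Kc * X * Real.exp 2 +
        (8 * Ke + 4 * Ke * Co + 4 * Ke * C + 4 * Kn * X * Real.exp 2 + 12 * Kn * X) := by positivity
      linarith
    · have : 0 ≤ (2 * Kc + 2 * Kc * Co + 2 * Kc * X * Real.exp 2 + 6 * Kc * X) +
        (8 * Ke + 4 * Ke * Co + 4 * Ke * C + 12 * Kn * X) := by positivity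
      linarith
    · have : 0 ≤ (2 * Kc + 2 * Kc * Co + 2 * Kc * X * Real.exp 2 + 6 * Kc * X) +
        (8 * Ke + 4 * Ke * Co + 4 * Ke * C + 4 * Kn * X * Real.exp 2) := by positivity
      linarith
  · have hz : 1 + 1 / x ≤ 2 := by
      have : 1 / x ≤ 1 := by
        rw [div_le_one hx]
        exact h1
      linarith
    have hz0 : 0 < 1 + 1 / x := by positivity
    have hz2 : (1 + 1 / x) ^ 2 ≤ 4 := by nlinarith
    have hEd : Real.exp (-x) * |deriv eta t| ≤ C * E2 t y := by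
      have h3 : Real.exp (-x) * Real.exp (-|t|) ≤ E2 t y := by
        unfold E2
        rw [← hxd]
        refine mul_le_mul (Real.exp_le_exp.2 (by linarith)) (Real.exp_le_exp.2 (by
          have := abs_nonneg t
          linarith)) hEt.le (Real.exp_pos _).le
      calc _ ≤ Real.exp (-x) * (C * Real.exp (-|t|)) := by gcongr
        _ = C * (Real.exp (-x) * Real.exp (-|t|)) := by ring
        _ ≤ _ := by gcongr
    have hd1 : |deriv eta t| ≤ 1 := (eta'_le t).trans (by norm_num)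
    have m1 : |(Up Uc ga t y).im| ≤ 2 * Kc * (Real.exp (-x) * Δ) := by
      calc _ ≤ Kc * (1 + 1 / x) * Real.exp (-x) * Δ := k0
        _ ≤ Kc * 2 * Real.exp (-x) * Δ := by gcongr
        _ = _ := by ring
    have m2 : |(K1 t y).im| ≤ 4 * Ke * (Real.exp (-x) * (Δ + |deriv eta t|)) := by
      calc _ ≤ Ke * (1 + 1 / x) ^ 2 * Real.exp (-x) * (Δ + |deriv eta t|) := k1
        _ ≤ Ke * 4 * Real.exp (-x) * (Δ + |deriv eta t|) := by gcongr
        _ = _ := by ring
    rw [← hxd]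
    have ED : Real.exp (-x) * Δ ≤ Real.exp (-x) := mul_le_of_le_one_right hEx.le hΔ1
    have Ed : Real.exp (-x) * |deriv eta t| ≤ Real.exp (-x) := mul_le_of_le_one_right hEx.le hd1
    refine ⟨⟨m1.trans ?_, m1.trans ?_⟩, m2.trans ?_, m2.trans ?_⟩
    · calc 2 * Kc * (Real.exp (-x) * Δ) ≤ 2 * Kc * Real.exp (-x) := by gcongr
        _ ≤ _ := by
          refine mul_le_mul_of_nonneg_right ?_ hEx.le
          have : 0 ≤ 2 * Kc * Co + 2 * Kc * X * Real.exp 2 + 6 * Kc * X +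
            (8 * Ke + 4 * Ke * Co + 4 * Ke * C + 4 * Kn * X * Real.exp 2 + 12 * Kn * X) := by positivity
          linarith
    · calc 2 * Kc * (Real.exp (-x) * Δ) ≤ 2 * Kc * (Co * E2 t y) := by gcongr
        _ = 2 * Kc * Co * E2 t y := by ring
        _ ≤ _ := by
          refine mul_le_mul_of_nonneg_right ?_ hE2.le
          have : 0 ≤ 2 * Kc + 2 * Kc * X * Real.exp 2 + 6 * Kc * X +
            (8 * Ke + 4 * Ke * Co + 4 * Ke * C + 4 * Kn * X * Real.exp 2 + 12 * Kn * X) := by positivity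
          linarith
    · calc 4 * Ke * (Real.exp (-x) * (Δ + |deriv eta t|)) =
            4 * Ke * (Real.exp (-x) * Δ + Real.exp (-x) * |deriv eta t|) := by ring
        _ ≤ 4 * Ke * (Real.exp (-x) + Real.exp (-x)) := by gcongr
        _ = 8 * Ke * Real.exp (-x) := by ring
        _ ≤ _ := by
          refine mul_le_mul_of_nonneg_right ?_ hEx.le
          have : 0 ≤ (2 * Kc + 2 * Kc * Co + 2 * Kc * X * Real.exp 2 + 6 * Kc * X) +
            (4 * Ke * Co + 4 * Ke * C + 4 * Kn * X * Real.exp 2 + 12 * Kn * X) := by positivity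
          linarith
    · calc 4 * Ke * (Real.exp (-x) * (Δ + |deriv eta t|)) =
            4 * Ke * (Real.exp (-x) * Δ + Real.exp (-x) * |deriv eta t|) := by ring
        _ ≤ 4 * Ke * (Co * E2 t y + C * E2 t y) := by gcongr
        _ = (4 * Ke * Co + 4 * Ke * C) * E2 t y := by ring
        _ ≤ _ := by
          refine mul_le_mul_of_nonneg_right ?_ hE2.le
          have : 0 ≤ (2 * Kc + 2 * Kc * Co + 2 * Kc * X * Real.exp 2 + 6 * Kc * X) +
            (8 * Ke + 4 * Kn * X * Real.exp 2 + 12 * Kn * X) := by positivity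
          linarith

/-! ### increments of the imaginary part -/

/-- the regular part of the kernel has a small imaginary part -/
lemma reg_im : ∃ K : ℝ, 0 < K ∧ ∀ w : ℂ, 0 < w.re → w.re ≤ 2 → |w.im| ≤ l / 4 →
    |(Uc w + 2 * Complex.log w).im| ≤ K * |w.im| := by
  obtain ⟨Kr, hKr, HR⟩ := Ud_reg
  have hl := l_pos
  refine ⟨Kr, hKr, fun w h1 h2 h3 => ?_⟩
  have hin : ∀ z ∈ {z : ℂ | z.re = w.re ∧ |z.im| ≤ l / 4}, HasDerivAt (fun z => Uc z + 2 * Complex.log z)
      (Ud z + 2 / z) z := by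
    intro z hz
    have hz0 : 0 < z.re := by rw [hz.1]; exact h1
    have d1 := hasDerivAt_Uc hz0 (lt_of_le_of_lt hz.2 (by linarith))
    have d2 := (Complex.hasDerivAt_log (Or.inl hz0)).const_mul 2
    refine (d1.add d2).congr_deriv ?_
    rw [div_eq_mul_inv]
  have h4 := (NUAct.convex_vert w.re (l / 4)).norm_image_sub_le_of_norm_hasDerivWithin_le
    (f := fun z => Uc z + 2 * Complex.log z) (f' := fun z => Ud z + 2 / z) (C := Kr)
    (fun z hz => (hin z hz).hasDerivWithinAt)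
    (fun z hz => (HR z (by rw [hz.1]; exact h1) (by rw [hz.1]; exact h2) hz.2).1)
    (x := (w.re : ℂ)) (y := w) ⟨Complex.ofReal_re _, by rw [Complex.ofReal_im, abs_zero]; positivity⟩ ⟨rfl, h3⟩
  have h5 : ‖w - (w.re : ℂ)‖ = |w.im| := by
    have e : w - (w.re : ℂ) = (w.im : ℂ) * I := by
      apply Complex.ext <;> simp
    rw [e, norm_mul, Complex.norm_I, mul_one, Complex.norm_real, Real.norm_eq_abs]
  rw [h5] at h4
  have h6 : (Uc (w.re : ℂ) + 2 * Complex.log (w.re : ℂ)).im = 0 := by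
    rw [Uc_ofReal h1, ← Complex.ofReal_log h1.le]
    simp
  have h7 : (Uc w + 2 * Complex.log w).im =
      ((Uc w + 2 * Complex.log w) - (Uc (w.re : ℂ) + 2 * Complex.log (w.re : ℂ))).im := by
    rw [Complex.sub_im (Uc w + 2 * Complex.log w), h6, sub_zero]
  rw [h7]
  exact (Complex.abs_im_le_norm _).trans h4

/-- the logarithm on the half plane `Re ≥ 1` -/
lemma log_lip {z z' : ℂ} (h : 1 ≤ z.re) (h' : 1 ≤ z'.re) : ‖Complex.log z - Complex.log z'‖ ≤ ‖z - z'‖ := by
  have hc : Convex ℝ {z : ℂ | 1 ≤ z.re} := convex_halfSpace_ge Complex.reLm.isLinear 1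
  have h1 := hc.norm_image_sub_le_of_norm_hasDerivWithin_le (f := Complex.log) (f' := fun z => z⁻¹)
    (C := 1) (fun z hz => (Complex.hasDerivAt_log (Or.inl (lt_of_lt_of_le one_pos hz))).hasDerivWithinAt)
    (fun z hz => by
      rw [norm_inv]
      have hz' : (1:ℝ) ≤ z.re := hz
      exact inv_le_one_of_one_le₀ (hz'.trans ((le_abs_self _).trans (Complex.abs_re_le_norm z)))) h' h
  rwa [one_mul] at h1

/-- the value of the imaginary part at the diagonal -/
lemma diag_im : ∃ K : ℝ, 1 ≤ K ∧ ∀ (B : SeaCB) [SeaC] [SeaCU B], ∀ {A1 A2 t y : ℝ}, t ≠ y → |t - y| ≤ 2 →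
    (∀ u, |u - y| ≤ |y - t| → |deriv eta u| ≤ A1) →
    (∀ u, |u - y| ≤ |y - t| → |iteratedDeriv 2 eta u| ≤ A2) →
    |(Up Uc ga t y).im + 2 * (Complex.log (1 + (deriv eta y : ℝ) * I)).im| ≤ K * (A1 + A2) * |t - y| := by
  obtain ⟨Kr, hKr, HR⟩ := reg_im
  have hl := l_num
  have hl0 := l_pos
  refine ⟨2 + Kr, by linarith, @fun B _ _ A1 A2 t y hne h2 hA1 hA2 => ?_⟩
  obtain ⟨σ, hσ, hσx, hs⟩ := sgn_cases hne
  rw [(@hs _).1]
  have hx : 0 < |t - y| := abs_pos.2 (sub_ne_zero.2 hne)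
  have hty : t - y ≠ 0 := sub_ne_zero.2 hne
  have hA10 : 0 ≤ A1 := (abs_nonneg _).trans (hA1 y (by simp))
  have hA20 : 0 ≤ A2 := (abs_nonneg _).trans (hA2 y (by simp))
  have g1 := seg_incr hasDerivAt_eta hA1
  have g2 := eta_tay hA2
  rw [abs_sub_comm, abs_sub_comm y t] at g1
  obtain ⟨q, hq⟩ : ∃ q, q = (eta t - eta y) / (t - y) := ⟨_, rfl⟩
  have e0 : eta t - eta y = q * (t - y) := by rw [hq]; field_simp
  have e1 : (σ : ℂ) * (ga t - ga y) = ((|t - y| : ℝ) : ℂ) * (1 + (q : ℝ) * I) := by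
    rw [ga_sub, ← hσx, e0]
    push_cast
    ring
  have hz : 1 ≤ (1 + (q : ℝ) * I : ℂ).re := by simp
  have hz0 : (1 + (q : ℝ) * I : ℂ) ≠ 0 := fun h => by
    rw [h] at hz
    simp at hz
    linarith
  have hre : ((σ : ℂ) * (ga t - ga y)).re = |t - y| := by
    rw [e1]
    simp
  have hai : |((σ : ℂ) * (ga t - ga y)).im| = |eta t - eta y| := by
    have : ((σ : ℂ) * (ga t - ga y)).im = σ * (eta t - eta y) := by
      rw [Complex.im_ofReal_mul, ga_sub_im]
    rw [this, abs_mul, hσ, one_mul]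
  have r := HR ((σ : ℂ) * (ga t - ga y)) (by rw [hre]; exact hx) (by rw [hre]; exact h2)
    (by rw [hai]; exact (eta_osc t y).trans (by linarith))
  rw [hai] at r
  have e2 : Complex.log ((σ : ℂ) * (ga t - ga y)) = (Real.log |t - y| : ℂ) + Complex.log (1 + (q : ℝ) * I) := by
    rw [e1, Complex.log_ofReal_mul hx hz0]
  have hz' : 1 ≤ (1 + (deriv eta y : ℝ) * I : ℂ).re := by simp
  have r2 := (Complex.abs_im_le_norm _).trans (log_lip hz' hz)
  have e3 : ‖(1 + (deriv eta y : ℝ) * I : ℂ) - (1 + (q : ℝ) * I)‖ = |deriv eta y - q| := by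
    have : (1 + (deriv eta y : ℝ) * I : ℂ) - (1 + (q : ℝ) * I) = ((deriv eta y - q : ℝ) : ℂ) * I := by
      push_cast
      ring
    rw [this, norm_mul, Complex.norm_I, mul_one, Complex.norm_real, Real.norm_eq_abs]
  rw [e3, Complex.sub_im] at r2
  have r3 : |deriv eta y - q| ≤ A2 * |t - y| := by
    have e4 : eta y - eta t - deriv eta y * (y - t) = (deriv eta y - q) * (t - y) := by
      linear_combination (-1 : ℝ) * e0
    rw [e4, abs_mul, abs_sub_comm y t] at g2
    exact le_of_mul_le_mul_right g2 hx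
  obtain ⟨U, hU⟩ : ∃ U, U = Uc ((σ : ℂ) * (ga t - ga y)) := ⟨_, rfl⟩
  obtain ⟨L, hL⟩ : ∃ L, L = Complex.log (1 + (q : ℝ) * I) := ⟨_, rfl⟩
  obtain ⟨L', hL'⟩ : ∃ L', L' = Complex.log (1 + (deriv eta y : ℝ) * I) := ⟨_, rfl⟩
  rw [e2, ← hU, ← hL] at r
  rw [← hL, ← hL'] at r2
  rw [← hU, ← hL']
  have e5 : (U + 2 * ((Real.log |t - y| : ℂ) + L)).im = U.im + 2 * L.im := by
    simp
  rw [e5] at r
  have e6 : U.im + 2 * L'.im = (U.im + 2 * L.im) + 2 * (L'.im - L.im) := by ring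
  rw [e6]
  refine (abs_add_le _ _).trans ?_
  rw [abs_mul, abs_two]
  have p1 : 0 ≤ A1 * |t - y| := by positivity
  have p2 : 0 ≤ A2 * |t - y| := by positivity
  have r4 : Kr * |eta t - eta y| ≤ Kr * (A1 * |t - y|) := mul_le_mul_of_nonneg_left g1 hKr.le
  nlinarith [mul_nonneg hKr.le p1, mul_nonneg hKr.le p2]

/-- **increments of the imaginary part of the kernel of the static curve** -/
theorem ker_im_lip (B : SeaCB) : ∃ K : ℝ, 1 ≤ K ∧ ∀ [SeaC] [SeaCU B], ∀ t t' y : ℝ, t ≠ y → t' ≠ y →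
    |t' - t| ≤ 1 / 2 →
    |(Up Uc ga t' y).im - (Up Uc ga t y).im| ≤ K * |t' - t| * Real.exp (-|t - y|) ∧
    |(Up Uc ga t' y).im - (Up Uc ga t y).im| ≤ K * |t' - t| * E2 t y := by
  obtain ⟨C, hC, H⟩ := eta_dec B
  obtain ⟨K, hK, HK⟩ := ker_im B
  obtain ⟨Kd, hKd, HD⟩ := diag_im
  obtain ⟨X, hX⟩ : ∃ X, X = C * Real.exp 2 := ⟨_, rfl⟩
  have he2 := Real.exp_pos 2
  have he1 := Real.exp_pos 1
  have hX0 : 0 < X := by rw [hX]; positivity
  refine ⟨1 + K * Real.exp 1 + 2 * Kd * X * Real.exp 2 * Real.exp 2 + 6 * Kd * X * Real.exp 2, by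
    have : 0 ≤ K * Real.exp 1 + 2 * Kd * X * Real.exp 2 * Real.exp 2 + 6 * Kd * X * Real.exp 2 := by positivity
    linarith, @fun _ _ t t' y hne hne' h => ?_⟩
  have hE2 := E2_pos t y
  have hEy := Real.exp_pos (-|t - y|)
  have hd := abs_nonneg (t' - t)
  by_cases hs : (t < y ↔ t' < y)
  · -- the same side
    have hu : ∀ u ∈ Set.uIcc t t', u ≠ y ∧ |u - t| ≤ 1 / 2 := by
      intro u hu
      rw [Set.mem_uIcc] at hu
      constructor
      · rintro rfl
        rcases lt_or_gt_of_ne hne with h1 | h1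
        · have h2 := hs.1 h1
          rcases hu with hu | hu <;> linarith [hu.1, hu.2]
        · have h2 : ¬ t' < u := fun h3 => absurd (hs.2 h3) (not_lt.2 h1.le)
          have h3 : u < t' := lt_of_le_of_ne (not_lt.1 h2) (Ne.symm hne')
          rcases hu with hu | hu <;> linarith [hu.1, hu.2]
      · rw [abs_le] at h ⊢
        rcases hu with hu | hu <;> constructor <;> linarith [hu.1, hu.2, h.1, h.2]
    have b1 : ∀ u ∈ Set.uIcc t t', |(K1 u y).im| ≤ K * Real.exp 1 * Real.exp (-|t - y|) ∧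
        |(K1 u y).im| ≤ K * Real.exp 1 * E2 t y := by
      intro u hu'
      obtain ⟨h1, h2⟩ := hu u hu'
      obtain ⟨-, h3, h4⟩ := HK u y h1
      have q1 : |t - y| ≤ |u - y| + |u - t| := by
        have := abs_sub (u - y) (u - t)
        have e : u - y - (u - t) = t - y := by ring
        rwa [e] at this
      have q2 : |t| ≤ |u| + |u - t| := by
        have := abs_sub u (u - t)
        have e : u - (u - t) = t := by ring
        rwa [e] at this
      constructor
      · refine h3.trans ?_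
        rw [mul_assoc]
        refine mul_le_mul_of_nonneg_left ?_ (by linarith)
        rw [← Real.exp_add]
        exact Real.exp_le_exp.2 (by linarith)
      · refine h4.trans ?_
        rw [mul_assoc]
        refine mul_le_mul_of_nonneg_left ?_ (by linarith)
        unfold E2
        rw [← Real.exp_add, ← Real.exp_add, ← Real.exp_add]
        exact Real.exp_le_exp.2 (by linarith)
    have mv : ∀ A : ℝ, (∀ u ∈ Set.uIcc t t', |(K1 u y).im| ≤ A) →
        |(Up Uc ga t' y).im - (Up Uc ga t y).im| ≤ A * |t' - t| := by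
      intro A hA
      have := (convex_uIcc t t').norm_image_sub_le_of_norm_hasDerivWithin_le
        (f := fun t => (Up Uc ga t y).im) (f' := fun t => (K1 t y).im) (C := A)
        (fun u hu' => (Complex.imCLM.hasFDerivAt.comp_hasDerivAt u
          (hasDerivAt_K0 (hu u hu').1)).hasDerivWithinAt)
        (fun u hu' => by
          rw [Real.norm_eq_abs]
          exact hA u hu') Set.left_mem_uIcc Set.right_mem_uIcc
      rwa [Real.norm_eq_abs, Real.norm_eq_abs] at this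
    have m1 := mv _ fun u hu' => (b1 u hu').1
    have m2 := mv _ fun u hu' => (b1 u hu').2
    have p : 0 ≤ 2 * Kd * X * Real.exp 2 * Real.exp 2 + 6 * Kd * X * Real.exp 2 := by positivity
    constructor
    · refine m1.trans ?_
      have q : 0 ≤ |t' - t| * Real.exp (-|t - y|) := by positivity
      nlinarith [mul_nonneg p q]
    · refine m2.trans ?_
      have q : 0 ≤ |t' - t| * E2 t y := by positivity
      nlinarith [mul_nonneg p q]
  · -- opposite sides
    have hsum : |t - y| + |t' - y| = |t' - t| := by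
      rcases lt_or_gt_of_ne hne with h1 | h1
      · have h2 : ¬ t' < y := fun h3 => hs ⟨fun _ => h3, fun _ => h1⟩
        have h3 : y < t' := lt_of_le_of_ne (not_lt.1 h2) (Ne.symm hne')
        rw [abs_of_neg (by linarith : t - y < 0), abs_of_pos (by linarith : 0 < t' - y),
          abs_of_pos (by linarith : 0 < t' - t)]
        ring
      · have h2 : t' < y := by
          by_contra h3
          exact hs ⟨fun h4 => absurd h4 (not_lt.2 h1.le), fun h4 => absurd h4 h3⟩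
        rw [abs_of_pos (by linarith : 0 < t - y), abs_of_neg (by linarith : t' - y < 0),
          abs_of_neg (by linarith : t' - t < 0)]
        ring
    have n1 : |t - y| ≤ 2 := by
      have := abs_nonneg (t' - y)
      linarith
    have n2 : |t' - y| ≤ 2 := by
      have := abs_nonneg (t - y)
      linarith
    have c1 : ∀ {u : ℝ}, |u - y| ≤ 2 → (∀ v, |v - y| ≤ |y - u| → |deriv eta v| ≤ X * Real.exp (-|y|)) ∧
        (∀ v, |v - y| ≤ |y - u| → |iteratedDeriv 2 eta v| ≤ X * Real.exp (-|y|)) := by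
      intro u hu
      rw [abs_sub_comm] at hu
      rw [hX]
      exact ⟨near_bd (by linarith : 0 ≤ C) (fun t => (H t).1) hu,
        near_bd (by linarith : 0 ≤ C) (fun t => (H t).2) hu⟩
    have d1 := HD B hne n1 (c1 n1).1 (c1 n1).2
    have d2 := HD B hne' n2 (c1 n2).1 (c1 n2).2
    have hy : Real.exp (-|y|) ≤ Real.exp 2 * Real.exp (-|t|) := by
      rw [← Real.exp_add]
      refine Real.exp_le_exp.2 ?_
      have h1 : |t| ≤ |y| + |t - y| := by
        have := abs_add_le y (t - y)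
        rwa [add_sub_cancel] at this
      linarith
    have m : |(Up Uc ga t' y).im - (Up Uc ga t y).im| ≤ 2 * Kd * X * Real.exp 2 * |t' - t| * Real.exp (-|t|) := by
      obtain ⟨p, hp⟩ : ∃ p, p = (Up Uc ga t y).im := ⟨_, rfl⟩
      obtain ⟨p', hp'⟩ : ∃ p', p' = (Up Uc ga t' y).im := ⟨_, rfl⟩
      obtain ⟨L, hL⟩ : ∃ L, L = (Complex.log (1 + (deriv eta y : ℝ) * I)).im := ⟨_, rfl⟩
      rw [← hp, ← hL] at d1
      rw [← hp', ← hL] at d2
      rw [← hp, ← hp']
      have e1 : p' - p = (p' + 2 * L) - (p + 2 * L) := by ring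
      rw [e1]
      refine (abs_sub _ _).trans ((add_le_add d2 d1).trans ?_)
      have e2 : Kd * (X * Real.exp (-|y|) + X * Real.exp (-|y|)) * |t' - y| +
          Kd * (X * Real.exp (-|y|) + X * Real.exp (-|y|)) * |t - y| =
          2 * Kd * X * |t' - t| * Real.exp (-|y|) := by
        rw [← hsum]
        ring
      rw [e2]
      calc 2 * Kd * X * |t' - t| * Real.exp (-|y|) ≤
            2 * Kd * X * |t' - t| * (Real.exp 2 * Real.exp (-|t|)) := by gcongr
        _ = _ := by ring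
    have k1 := exp_near1 n1
    have k2 := E2_near n1
    have k3 : Real.exp (-|t|) ≤ 1 := Real.exp_le_one_iff.2 (by have := abs_nonneg t; linarith)
    constructor
    · calc _ ≤ 2 * Kd * X * Real.exp 2 * |t' - t| * Real.exp (-|t|) := m
        _ ≤ 2 * Kd * X * Real.exp 2 * |t' - t| * (Real.exp 2 * Real.exp (-|t - y|)) := by
            refine mul_le_mul_of_nonneg_left (k3.trans k1) (by positivity)
        _ = (2 * Kd * X * Real.exp 2 * Real.exp 2) * (|t' - t| * Real.exp (-|t - y|)) := by ring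
        _ ≤ (1 + K * Real.exp 1 + 2 * Kd * X * Real.exp 2 * Real.exp 2 + 6 * Kd * X * Real.exp 2) *
            (|t' - t| * Real.exp (-|t - y|)) := by
            refine mul_le_mul_of_nonneg_right ?_ (by positivity)
            have : 0 ≤ K * Real.exp 1 + 6 * Kd * X * Real.exp 2 := by positivity
            linarith
        _ = _ := by ring
    · calc _ ≤ 2 * Kd * X * Real.exp 2 * |t' - t| * Real.exp (-|t|) := m
        _ ≤ 2 * Kd * X * Real.exp 2 * |t' - t| * (3 * E2 t y) := by gcongr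
        _ = (6 * Kd * X * Real.exp 2) * (|t' - t| * E2 t y) := by ring
        _ ≤ (1 + K * Real.exp 1 + 2 * Kd * X * Real.exp 2 * Real.exp 2 + 6 * Kd * X * Real.exp 2) *
            (|t' - t| * E2 t y) := by
            refine mul_le_mul_of_nonneg_right ?_ (by positivity)
            have : 0 ≤ K * Real.exp 1 + 2 * Kd * X * Real.exp 2 * Real.exp 2 := by positivity
            linarith
        _ = _ := by ring

/-! ### displaced curves -/

/-- the derivative of `Up Uc (zt δ) t (t + u)` in `t` -/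
def QZ [SeaC] (δ δ1 : ℝ → ℂ) (t y : ℝ) : ℂ :=
  if y < t then Ud (zt δ t - zt δ y) * (zd δ1 t - zd δ1 y) else Ud (zt δ y - zt δ t) * (zd δ1 y - zd δ1 t)

/-- a weight with `1 / x` -/
lemma inv_wt {x a c : ℝ} (hx : 0 < x) (h1 : a ≤ c * x) (h2 : a ≤ c) : (1 + 1 / x) * a ≤ 2 * c := by
  have : 1 / x * a ≤ c := by
    rw [one_div, inv_mul_le_iff₀ hx]
    linarith
  linarith

/-- **the pair kernels of the displaced curve** -/
theorem exists_kerC (B : SeaCB) : ∃ K : ℝ, 1 ≤ K ∧ ∀ [SeaC] [SeaCU B], ∀ {s ε M R : ℝ}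
    {δ δ1 δ2 : ℝ → ℂ}, Disp s ε M R δ δ1 δ2 → ε ≤ B.r → ∀ t y, t ≠ y →
    ‖Up Uc (zt δ) t y - Up Uc ga t y‖ ≤ K * ε * Real.exp (-|t - y|) ∧
    ‖QZ δ δ1 t y - QZ (fun _ => 0) (fun _ => 0) t y‖ ≤ K * ε * Real.exp (-|t - y|) ∧
    ‖QZ δ δ1 t y‖ ≤ K * Real.exp (-|t - y|) ∧
    ‖Up Uc ga t y - (V (t - y) : ℂ)‖ ≤ K * Real.exp (-|t - y|) := by
  obtain ⟨Kc, hKc, HU⟩ := Uc_incr
  obtain ⟨Kd, hKd, HD⟩ := Uc_incr_w
  obtain ⟨Ke, hKe, HE⟩ := Ud_incr_w
  obtain ⟨G, hG, HG⟩ := ga2_bd B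
  have hl := l_num
  have hl0 := l_pos
  have hh := h_small B
  have hh1 := B.h1
  have hrh := B.rh
  refine ⟨1 + 4 * Kd + (8 * Ke * G + 4 * Kd) + 2 * Kd * (G + 1) + Kc, by
    have : 0 ≤ 4 * Kd + (8 * Ke * G + 4 * Kd) + 2 * Kd * (G + 1) + Kc := by positivity
    linarith, @fun _ _ s ε M R δ δ1 δ2 D hε t y hne => ?_⟩
  have hε0 := D.ε0
  have hε1 : ε ≤ 1 / 100 := by linarith
  -- one side
  have key : ∀ t y, y < t →
      ‖Uc (zt δ t - zt δ y) - Uc (ga t - ga y)‖ ≤ 4 * Kd * ε * Real.exp (-(t - y)) ∧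
      ‖Ud (zt δ t - zt δ y) * (zd δ1 t - zd δ1 y) - Ud (ga t - ga y) * (ga' t - ga' y)‖ ≤
        (8 * Ke * G + 4 * Kd) * ε * Real.exp (-(t - y)) ∧
      ‖Ud (zt δ t - zt δ y) * (zd δ1 t - zd δ1 y)‖ ≤ 2 * Kd * (G + 1) * Real.exp (-(t - y)) ∧
      ‖Uc (ga t - ga y) - (V (t - y) : ℂ)‖ ≤ Kc * Real.exp (-(t - y)) := by
    intro t y hty
    have hx : 0 < t - y := by linarith
    obtain ⟨x, hxd⟩ : ∃ x, x = t - y := ⟨_, rfl⟩
    have habs : |t - y| = x := by rw [abs_of_pos hx, hxd]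
    have er : (ga t - ga y).re = x := by rw [ga_sub_re, hxd]
    have ei : |(ga t - ga y).im| ≤ l / 4 := by
      rw [ga_sub_im]
      exact (eta_osc t y).trans (by linarith)
    have d0 : ‖δ t - δ y‖ ≤ ε * x := by rw [← habs]; exact D.diff t y
    have d1 : ‖δ1 t - δ1 y‖ ≤ ε * x := by rw [← habs]; exact D.diff1 t y
    have b0 : ‖δ t - δ y‖ ≤ 2 * ε := (norm_sub_le _ _).trans (by linarith [D.e0 t, D.e0 y])
    have b1 : ‖δ1 t - δ1 y‖ ≤ 2 * ε := (norm_sub_le _ _).trans (by linarith [D.e1 t, D.e1 y])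
    have g0 : ‖ga' t - ga' y‖ ≤ G * x := by
      have h := Convex.norm_image_sub_le_of_norm_hasDerivWithin_le (f := ga') (f' := ga2) (C := G)
        (s := univ) (x := y) (y := t) (fun u _ => (hasDerivAt_ga' u).hasDerivWithinAt)
        (fun u _ => HG u) convex_univ (mem_univ _) (mem_univ _)
      rwa [Real.norm_eq_abs, habs] at h
    have g1 := norm_ga'_sub t y
    have e1 : zt δ t - zt δ y = (ga t - ga y) + (δ t - δ y) := by
      unfold zt
      ring
    have e2 : zd δ1 t - zd δ1 y = (ga' t - ga' y) + (δ1 t - δ1 y) := by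
      unfold zd
      ring
    have lipe := eta_lip t y
    rw [habs] at lipe
    have oe := eta_osc t y
    rw [← hxd] at hx
    obtain ⟨w, hw⟩ : ∃ w, w = ga t - ga y := ⟨_, rfl⟩
    obtain ⟨d, hd⟩ : ∃ d, d = δ t - δ y := ⟨_, rfl⟩
    obtain ⟨d', hd'⟩ : ∃ d', d' = δ1 t - δ1 y := ⟨_, rfl⟩
    obtain ⟨g, hg⟩ : ∃ g, g = ga' t - ga' y := ⟨_, rfl⟩
    rw [← hw, ← hd] at e1
    rw [← hg, ← hd'] at e2
    rw [← hw] at er ei
    rw [← hd] at d0 b0
    rw [← hd'] at d1 b1
    rw [← hg] at g0 g1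
    obtain ⟨h1, h2⟩ := HD w d (by rw [er]; exact hx) ei (by
      rw [er]
      nlinarith) (by linarith)
    have h3 := HE w d (by rw [er]; exact hx) ei (by
      rw [er]
      nlinarith) (by linarith)
    rw [er] at h1 h2 h3
    have hE := Real.exp_pos (-x)
    have hix : 0 < 1 / x := by positivity
    have n0 := norm_nonneg d
    have n1 := norm_nonneg d'
    have n2 := norm_nonneg g
    have w0 : (1 + 1 / x) * ‖d‖ ≤ 2 * (2 * ε) := inv_wt hx (by nlinarith) b0
    have w1 : (1 + 1 / x) * ‖d'‖ ≤ 2 * (2 * ε) := inv_wt hx (by nlinarith) b1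
    have w2 : (1 + 1 / x) * ‖g‖ ≤ 2 * G := inv_wt hx g0 (by linarith)
    have w3 : (1 + 1 / x) * ‖g + d'‖ ≤ 2 * (G + 1) := by
      refine inv_wt hx ((norm_add_le _ _).trans ?_) ((norm_add_le _ _).trans ?_)
      · nlinarith
      · linarith
    rw [e1, e2, ← hw, ← hg, ← hxd]
    refine ⟨?_, ?_, ?_, ?_⟩
    · calc _ ≤ Kd * (1 + 1 / x) * Real.exp (-x) * ‖d‖ := h1
        _ = Kd * Real.exp (-x) * ((1 + 1 / x) * ‖d‖) := by ring
        _ ≤ Kd * Real.exp (-x) * (2 * (2 * ε)) := by gcongr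
        _ = _ := by ring
    · have e3 : Ud (w + d) * (g + d') - Ud w * g = (Ud (w + d) - Ud w) * g + Ud (w + d) * d' := by ring
      rw [e3]
      refine (norm_add_le _ _).trans ?_
      rw [norm_mul, norm_mul]
      calc _ ≤ (Ke * (1 + 1 / x) ^ 2 * Real.exp (-x) * ‖d‖) * ‖g‖ +
            (Kd * (1 + 1 / x) * Real.exp (-x)) * ‖d'‖ := by gcongr
        _ = Ke * Real.exp (-x) * (((1 + 1 / x) * ‖d‖) * ((1 + 1 / x) * ‖g‖)) +
            Kd * Real.exp (-x) * ((1 + 1 / x) * ‖d'‖) := by ring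
        _ ≤ Ke * Real.exp (-x) * ((2 * (2 * ε)) * (2 * G)) + Kd * Real.exp (-x) * (2 * (2 * ε)) := by
            gcongr
        _ = _ := by ring
    · rw [norm_mul]
      calc _ ≤ (Kd * (1 + 1 / x) * Real.exp (-x)) * ‖g + d'‖ := by gcongr
        _ = Kd * Real.exp (-x) * ((1 + 1 / x) * ‖g + d'‖) := by ring
        _ ≤ Kd * Real.exp (-x) * (2 * (G + 1)) := by gcongr
        _ = _ := by ring
    · have hn : ‖((eta t - eta y : ℝ) : ℂ) * I‖ = |eta t - eta y| := by
        rw [norm_mul, Complex.norm_I, mul_one, Complex.norm_real, Real.norm_eq_abs]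
      have h4 := (HU x (((eta t - eta y : ℝ) : ℂ) * I) hx (by
        rw [hn]
        linarith) (by
        rw [hn]
        linarith)).1
      rw [Uc_ofReal hx, hn] at h4
      have e3 : w = (x : ℂ) + ((eta t - eta y : ℝ) : ℂ) * I := by rw [hw, ga_sub, hxd]
      rw [← e3] at h4
      have w4 : (1 + 1 / x) * |eta t - eta y| ≤ 2 * (1 / 4) := inv_wt hx lipe (by linarith)
      calc _ ≤ Kc * (1 + 1 / x) * Real.exp (-x) * |eta t - eta y| := h4
        _ = Kc * Real.exp (-x) * ((1 + 1 / x) * |eta t - eta y|) := by ring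
        _ ≤ Kc * Real.exp (-x) * (2 * (1 / 4)) := by gcongr
        _ ≤ _ := by nlinarith [mul_pos hKc hE]
  obtain ⟨KK, hKK⟩ : ∃ KK, KK = 1 + 4 * Kd + (8 * Ke * G + 4 * Kd) + 2 * Kd * (G + 1) + Kc := ⟨_, rfl⟩
  rw [← hKK]
  have q1 : 4 * Kd ≤ KK := by
    have : 0 ≤ (8 * Ke * G + 4 * Kd) + 2 * Kd * (G + 1) + Kc := by positivity
    linarith
  have q2 : 8 * Ke * G + 4 * Kd ≤ KK := by
    have : 0 ≤ 4 * Kd + 2 * Kd * (G + 1) + Kc := by positivity
    linarith
  have q3 : 2 * Kd * (G + 1) ≤ KK := by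
    have : 0 ≤ 4 * Kd + (8 * Ke * G + 4 * Kd) + Kc := by positivity
    linarith
  have q4 : Kc ≤ KK := by
    have : 0 ≤ 4 * Kd + (8 * Ke * G + 4 * Kd) + 2 * Kd * (G + 1) := by positivity
    linarith
  have zt0 : ∀ u, zt (fun _ => (0:ℂ)) u = ga u := fun u => by unfold zt; ring
  have zd0 : ∀ u, zd (fun _ => (0:ℂ)) u = ga' u := fun u => by unfold zd; ring
  have mono : ∀ {a x z : ℝ}, a ≤ KK → z ≤ a * ε * Real.exp (-x) → z ≤ KK * ε * Real.exp (-x) := by
    intro a x z ha hz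
    refine hz.trans ?_
    have := Real.exp_pos (-x)
    gcongr
  have mono' : ∀ {a x z : ℝ}, a ≤ KK → z ≤ a * Real.exp (-x) → z ≤ KK * Real.exp (-x) := by
    intro a x z ha hz
    refine hz.trans ?_
    have := Real.exp_pos (-x)
    gcongr
  rcases lt_or_gt_of_ne hne with h | h
  · obtain ⟨h1, h2, h3, h4⟩ := key y t h
    have ea : |t - y| = y - t := by rw [abs_of_neg (by linarith : t - y < 0)]; ring
    have e1 : QZ δ δ1 t y = Ud (zt δ y - zt δ t) * (zd δ1 y - zd δ1 t) := if_neg (not_lt.2 h.le)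
    have e2 : QZ (fun _ => 0) (fun _ => 0) t y = Ud (ga y - ga t) * (ga' y - ga' t) := by
      unfold QZ
      rw [if_neg (not_lt.2 h.le), zt0, zt0, zd0, zd0]
    have e3 : V (t - y) = V (y - t) := by rw [← V_even, neg_sub]
    rw [Up_of_le h.le, Up_of_le h.le, e1, e2, e3, ea]
    exact ⟨mono q1 h1, mono q2 h2, mono' q3 h3, mono' q4 h4⟩
  · obtain ⟨h1, h2, h3, h4⟩ := key t y h
    have ea : |t - y| = t - y := abs_of_pos (by linarith : 0 < t - y)
    have e1 : QZ δ δ1 t y = Ud (zt δ t - zt δ y) * (zd δ1 t - zd δ1 y) := if_pos h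
    have e2 : QZ (fun _ => 0) (fun _ => 0) t y = Ud (ga t - ga y) * (ga' t - ga' y) := by
      unfold QZ
      rw [if_pos h, zt0, zt0, zd0, zd0]
    rw [Up_of_lt h, Up_of_lt h, e1, e2, ea]
    exact ⟨mono q1 h1, mono q2 h2, mono' q3 h3, mono' q4 h4⟩

end

end PLT.Cv
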