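import Pool.Agent.PLT.PhiK
import Pool.Agent.PLT.GasTwo
import Pool.Agent.NUAct.PhiQ2
import Pool.Agent.NUAct.PhiQ3

/-!
# The potential of a density on a displaced curve

`∫ Up Uc (zt δ) t y f y` for `f` of class `C¹` with compact support: **`hasDerivAt_KF`**, **`continuous_KF1`**
(the derivative falls on `y = t + u`).
-/

set_option autoImplicit false
set_option linter.unusedSectionVars false
set_option linter.unusedVariables false

open MeasureTheory Set Filter Topology Complex
open scoped ContDiff

namespace PLT.Cv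

open NUMF (l l_pos V)
open NUAct (Us Ux Uc Ud Up gr Kern hasDerivAt_Uc Uc_kern Uc_meas Ud_meas Up_meas Up_of_lt Up_of_le ae_ne'
  continuousAt_Ud)

noncomputable section

section

variable (B : SeaCB) [SeaC] [SeaCU B] {s ε M R : ℝ} {δ δ1 δ2 : ℝ → ℂ}

include B

lemma Up_Uc_bd (D : Disp s ε M R δ δ1 δ2) (hε : ε ≤ B.r) :
    ∃ K : ℝ, 0 ≤ K ∧ ∀ t y, t ≠ y → ‖Up Uc (zt δ) t y‖ ≤ K * gr |t - y| := by
  obtain ⟨C, hC, H⟩ := Disp_path B
  obtain ⟨P1, -⟩ := H D hε
  obtain ⟨K, hK⟩ := Uc_kern
  have hl := l_pos
  have h1 := B.h1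
  have h0 := B.h0
  exact P1.Up_bd (d := l / 2) (by linarith) hK

lemma QZ_meas (D : Disp s ε M R δ δ1 δ2) : Measurable fun p : ℝ × ℝ => QZ δ δ1 p.1 p.2 := by
  have h1 := D.cont_zd.measurable
  have h2 := D.cont_zt.measurable
  have h3 := Ud_meas
  unfold QZ
  refine Measurable.ite (measurableSet_lt measurable_snd measurable_fst) ?_ ?_ <;> fun_prop

/-- domination of the integrand of the derivative -/
lemma KF_dom (D : Disp s ε M R δ δ1 δ2) (hε : ε ≤ B.r) {f f1 : ℝ → ℂ} (cf : Continuous f)
    (cf1 : Continuous f1) (z0 : ∀ y, R ≤ |y| → f y = 0 ∧ f1 y = 0) (t0 : ℝ) :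
    ∃ bd : ℝ → ℝ, Integrable bd ∧ ∀ t u, |t - t0| < 1 → u ≠ 0 →
      ‖QZ δ δ1 t (t + u) * f (t + u) + Up Uc (zt δ) t (t + u) * f1 (t + u)‖ ≤ bd u ∧
      ‖Up Uc (zt δ) t (t + u) * f (t + u)‖ ≤ bd u := by
  obtain ⟨K, hK, HK⟩ := exists_kerC B
  obtain ⟨K1, hK1, HU⟩ := Up_Uc_bd B D hε
  have bdd : ∀ {g : ℝ → ℂ}, Continuous g → (∀ y, R ≤ |y| → g y = 0) → ∃ C : ℝ, 0 ≤ C ∧ ∀ y, ‖g y‖ ≤ C := by
    intro g cg hg
    obtain ⟨C, hC⟩ := (isCompact_Icc (a := -R) (b := R)).exists_bound_of_continuousOn cg.continuousOn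
    refine ⟨max C 0, le_max_right _ _, fun y => ?_⟩
    by_cases hy : y ∈ Icc (-R) R
    · exact (hC y hy).trans (le_max_left _ _)
    · rw [hg y (by
        by_contra h
        exact hy (abs_le.1 (not_le.1 h).le)), norm_zero]
      exact le_max_right _ _
  obtain ⟨CB, hCB0, hCB⟩ := bdd cf fun y hy => (z0 y hy).1
  obtain ⟨CB1, hCB10, hCB1⟩ := bdd cf1 fun y hy => (z0 y hy).2
  obtain ⟨ρ, hρ⟩ : ∃ ρ, ρ = |R| + |t0| + 1 := ⟨_, rfl⟩
  obtain ⟨A, hA⟩ : ∃ A, A = K * CB + K1 * CB1 + K1 * CB := ⟨_, rfl⟩
  have hA0 : 0 ≤ A := by rw [hA]; positivity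
  have hgr1 : ∀ u : ℝ, 1 ≤ gr |u| := fun u => by
    unfold gr
    have := abs_nonneg u
    have := abs_nonneg (Real.log |u|)
    linarith
  have bi : Integrable (indicator (Icc (-ρ) ρ) fun u => A * gr |u|) := by
    rw [integrable_indicator_iff measurableSet_Icc]
    exact (NUR2.gr_li.integrableOn_isCompact isCompact_Icc).const_mul A
  have out : ∀ t u, |t - t0| < 1 → u ∉ Icc (-ρ) ρ → R ≤ |t + u| := by
    intro t u ht hu
    have h1 : ρ < |u| := by
      by_contra h
      exact hu (abs_le.1 (not_lt.1 h))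
    have h2 : |u| ≤ |t + u| + |t| := by
      have := abs_sub (t + u) t
      rwa [add_sub_cancel_left] at this
    have h3 : |t| ≤ |t - t0| + |t0| := by
      have := abs_add_le (t - t0) t0
      rwa [sub_add_cancel] at this
    have h4 := le_abs_self R
    rw [hρ] at h1
    linarith
  refine ⟨_, bi, fun t u ht hu => ?_⟩
  by_cases hm : u ∈ Icc (-ρ) ρ
  · rw [indicator_of_mem hm]
    have hne : t ≠ t + u := by
      intro h
      exact hu (by linarith)
    have e3 : t - (t + u) = -u := by ring
    have h1 := (HK D hε t (t + u) hne).2.2.1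
    have h2 := HU t (t + u) hne
    rw [e3, abs_neg] at h1 h2
    have h3 : Real.exp (-|u|) ≤ 1 := Real.exp_le_one_iff.2 (by simp)
    have h4 : ‖QZ δ δ1 t (t + u)‖ ≤ K := h1.trans (mul_le_of_le_one_right (by linarith) h3)
    have g1 := hgr1 u
    have p0 : 0 ≤ K * CB := by positivity
    have p1 : 0 ≤ K1 * CB1 := by positivity
    have p2 : 0 ≤ K1 * CB := by positivity
    constructor
    · refine (norm_add_le _ _).trans ?_
      rw [norm_mul, norm_mul]
      calc _ ≤ K * CB + (K1 * gr |u|) * CB1 := by
            refine add_le_add (mul_le_mul h4 (hCB _) (norm_nonneg _) (by positivity)) ?_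
            exact mul_le_mul h2 (hCB1 _) (norm_nonneg _) ((norm_nonneg _).trans h2)
        _ ≤ (K * CB) * gr |u| + (K1 * CB1) * gr |u| + (K1 * CB) * gr |u| := by
            have q1 : K * CB ≤ (K * CB) * gr |u| := le_mul_of_one_le_right p0 g1
            have q2 : 0 ≤ (K1 * CB) * gr |u| := by positivity
            linarith
        _ = _ := by rw [hA]; ring
    · rw [norm_mul]
      calc _ ≤ (K1 * gr |u|) * CB := mul_le_mul h2 (hCB _) (norm_nonneg _) ((norm_nonneg _).trans h2)
        _ ≤ (K * CB) * gr |u| + (K1 * CB1) * gr |u| + (K1 * CB) * gr |u| := by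
            have q1 : 0 ≤ (K * CB) * gr |u| := by positivity
            have q2 : 0 ≤ (K1 * CB1) * gr |u| := by positivity
            linarith
        _ = _ := by rw [hA]; ring
  · rw [indicator_of_notMem hm]
    have h1 := z0 (t + u) (out t u ht hm)
    rw [h1.1, h1.2]
    simp

/-- **the derivative of the potential of a density** -/
theorem hasDerivAt_KF (D : Disp s ε M R δ δ1 δ2) (hε : ε ≤ B.r) {f f1 : ℝ → ℂ}
    (hf : ∀ t, HasDerivAt f (f1 t) t) (cf1 : Continuous f1) (z0 : ∀ y, R ≤ |y| → f y = 0 ∧ f1 y = 0)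
    (t0 : ℝ) : HasDerivAt (fun t => ∫ y, Up Uc (zt δ) t y * f y)
      (∫ y, (QZ δ δ1 t0 y * f y + Up Uc (zt δ) t0 y * f1 y)) t0 := by
  have cf : Continuous f := continuous_iff_continuousAt.2 fun t => (hf t).continuousAt
  obtain ⟨C, hC, H⟩ := Disp_path B
  obtain ⟨-, hP⟩ := H D hε
  have hl := l_pos
  have mU : Measurable fun p : ℝ × ℝ => Up Uc (zt δ) p.1 p.2 := Up_meas Uc_meas hP.continuous
  have mQ := QZ_meas B D
  have mB := cf.measurable
  have mB1 := cf1.measurable
  have mU1 : ∀ t, Measurable fun u : ℝ => Up Uc (zt δ) t (t + u) := fun t =>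
    mU.comp (measurable_const.prodMk (measurable_const.add measurable_id))
  have mQ1 : ∀ t, Measurable fun u : ℝ => QZ δ δ1 t (t + u) := fun t =>
    mQ.comp (measurable_const.prodMk (measurable_const.add measurable_id))
  have e1 : (fun t => ∫ y, Up Uc (zt δ) t y * f y) =
      fun t => ∫ u, Up Uc (zt δ) t (t + u) * f (t + u) := by
    funext t
    exact (integral_add_left_eq_self (fun y => Up Uc (zt δ) t y * f y) t).symm
  have e2 : (∫ y, (QZ δ δ1 t0 y * f y + Up Uc (zt δ) t0 y * f1 y)) =
      ∫ u, (QZ δ δ1 t0 (t0 + u) * f (t0 + u) + Up Uc (zt δ) t0 (t0 + u) * f1 (t0 + u)) :=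
    (integral_add_left_eq_self (fun y => QZ δ δ1 t0 y * f y + Up Uc (zt δ) t0 y * f1 y) t0).symm
  rw [e1, e2]
  obtain ⟨bd, bi, hbd⟩ := KF_dom B D hε cf cf1 z0 t0
  have hball : ∀ t ∈ Metric.ball t0 1, |t - t0| < 1 := fun t ht => by
    simpa [Real.dist_eq] using ht
  have key := hasDerivAt_integral_of_dominated_loc_of_deriv_le (μ := volume) (𝕜 := ℝ)
    (s := Metric.ball t0 1)
    (F := fun t u => Up Uc (zt δ) t (t + u) * f (t + u))
    (F' := fun t u => QZ δ δ1 t (t + u) * f (t + u) + Up Uc (zt δ) t (t + u) * f1 (t + u)) (x₀ := t0)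
    (bound := bd)
    (Metric.ball_mem_nhds t0 one_pos) ?_ ?_ ?_ ?_ bi ?_
  · exact key.2
  · refine Eventually.of_forall fun t => ?_
    exact ((mU1 t).mul (mB.comp (measurable_const.add measurable_id))).aestronglyMeasurable
  · refine bi.mono' ((mU1 t0).mul (mB.comp (measurable_const.add
      measurable_id))).aestronglyMeasurable ?_
    filter_upwards [ae_ne' 0] with u hu
    exact (hbd t0 u (by simp) hu).2
  · exact (((mQ1 t0).mul (mB.comp (measurable_const.add measurable_id))).add
      ((mU1 t0).mul (mB1.comp (measurable_const.add measurable_id)))).aestronglyMeasurable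
  · filter_upwards [ae_ne' 0] with u hu t ht
    exact (hbd t u (hball t ht) hu).1
  · filter_upwards [ae_ne' 0] with u hu t _
    have d1 : HasDerivAt (fun t => f (t + u)) (f1 (t + u)) t := (hf (t + u)).comp_add_const t u
    have d2 : HasDerivAt (fun t => zt δ (t + u)) (zd δ1 (t + u)) t :=
      (hP.der (t + u)).comp_add_const t u
    have d3 := hP.der t
    rcases lt_or_gt_of_ne hu with h | h
    · have f1' : (fun t => Up Uc (zt δ) t (t + u)) = fun t => Uc (zt δ t - zt δ (t + u)) := by
        funext t
        exact Up_of_lt (by linarith)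
      have hre := hP.mono (t + u) t (by linarith)
      have hre' : 0 < (zt δ t - zt δ (t + u)).re := by
        have : (0:ℝ) < 1 / 2 * (t - (t + u)) := by
          have : 0 < t - (t + u) := by linarith
          positivity
        linarith
      have him : |(zt δ t - zt δ (t + u)).im| < l := by
        rw [Complex.sub_im]
        have a1 := hP.im_le t
        have a2 := hP.im_le (t + u)
        exact (abs_sub _ _).trans_lt (by linarith)
      have d4 := (hasDerivAt_Uc hre' him).scomp t (d3.sub d2)
      have d5 : HasDerivAt (fun t => Up Uc (zt δ) t (t + u)) (QZ δ δ1 t (t + u)) t := by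
        rw [f1']
        refine d4.congr_deriv ?_
        have e3 : QZ δ δ1 t (t + u) = Ud (zt δ t - zt δ (t + u)) * (zd δ1 t - zd δ1 (t + u)) :=
          if_pos (by linarith)
        rw [e3, smul_eq_mul]
        ring
      exact d5.mul d1
    · have f1' : (fun t => Up Uc (zt δ) t (t + u)) = fun t => Uc (zt δ (t + u) - zt δ t) := by
        funext t
        exact Up_of_le (by linarith)
      have hre := hP.mono t (t + u) (by linarith)
      have hre' : 0 < (zt δ (t + u) - zt δ t).re := by
        have : (0:ℝ) < 1 / 2 * ((t + u) - t) := by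
          have : 0 < (t + u) - t := by linarith
          positivity
        linarith
      have him : |(zt δ (t + u) - zt δ t).im| < l := by
        rw [Complex.sub_im]
        have a1 := hP.im_le t
        have a2 := hP.im_le (t + u)
        exact (abs_sub _ _).trans_lt (by linarith)
      have d4 := (hasDerivAt_Uc hre' him).scomp t (d2.sub d3)
      have d5 : HasDerivAt (fun t => Up Uc (zt δ) t (t + u)) (QZ δ δ1 t (t + u)) t := by
        rw [f1']
        refine d4.congr_deriv ?_
        have e3 : QZ δ δ1 t (t + u) = Ud (zt δ (t + u) - zt δ t) * (zd δ1 (t + u) - zd δ1 t) :=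
          if_neg (not_lt.2 (by linarith))
        rw [e3, smul_eq_mul]
        ring
      exact d5.mul d1

/-- **the derivative of the potential of a density is continuous** -/
theorem continuous_KF1 (D : Disp s ε M R δ δ1 δ2) (hε : ε ≤ B.r) {f f1 : ℝ → ℂ}
    (hf : ∀ t, HasDerivAt f (f1 t) t) (cf1 : Continuous f1) (z0 : ∀ y, R ≤ |y| → f y = 0 ∧ f1 y = 0) :
    Continuous fun t => ∫ y, (QZ δ δ1 t y * f y + Up Uc (zt δ) t y * f1 y) := by
  have cf : Continuous f := continuous_iff_continuousAt.2 fun t => (hf t).continuousAt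
  obtain ⟨C, hC, H⟩ := Disp_path B
  obtain ⟨-, hP⟩ := H D hε
  have hl := l_pos
  have mU : Measurable fun p : ℝ × ℝ => Up Uc (zt δ) p.1 p.2 := Up_meas Uc_meas hP.continuous
  have mQ := QZ_meas B D
  have mB := cf.measurable
  have mB1 := cf1.measurable
  have mU1 : ∀ t, Measurable fun u : ℝ => Up Uc (zt δ) t (t + u) := fun t =>
    mU.comp (measurable_const.prodMk (measurable_const.add measurable_id))
  have mQ1 : ∀ t, Measurable fun u : ℝ => QZ δ δ1 t (t + u) := fun t =>
    mQ.comp (measurable_const.prodMk (measurable_const.add measurable_id))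
  have e2 : (fun t => ∫ y, (QZ δ δ1 t y * f y + Up Uc (zt δ) t y * f1 y)) =
      fun t => ∫ u, (QZ δ δ1 t (t + u) * f (t + u) + Up Uc (zt δ) t (t + u) * f1 (t + u)) := by
    funext t
    exact (integral_add_left_eq_self (fun y => QZ δ δ1 t y * f y + Up Uc (zt δ) t y * f1 y) t).symm
  rw [e2]
  refine continuous_iff_continuousAt.2 fun t0 => ?_
  obtain ⟨bd, bi, hbd⟩ := KF_dom B D hε cf cf1 z0 t0
  have hball : Metric.ball t0 1 ∈ 𝓝 t0 := Metric.ball_mem_nhds t0 one_pos
  refine continuousAt_of_dominated (bound := bd) (Eventually.of_forall fun t => ?_) ?_ bi ?_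
  · exact (((mQ1 t).mul (mB.comp (measurable_const.add measurable_id))).add
      ((mU1 t).mul (mB1.comp (measurable_const.add measurable_id)))).aestronglyMeasurable
  · filter_upwards [hball] with t ht
    filter_upwards [ae_ne' 0] with u hu
    exact (hbd t u (by simpa [Real.dist_eq] using ht) hu).1
  · filter_upwards [ae_ne' 0] with u hu
    have d1 : Continuous fun t => f (t + u) := cf.comp (continuous_id.add continuous_const)
    have d1' : Continuous fun t => f1 (t + u) := cf1.comp (continuous_id.add continuous_const)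
    have cz : Continuous (zt δ) := hP.continuous
    have d2 : Continuous fun t => zt δ (t + u) := cz.comp (continuous_id.add continuous_const)
    have e1 : Continuous (zd δ1) := D.cont_zd
    have e2 : Continuous fun t => zd δ1 (t + u) := e1.comp (continuous_id.add continuous_const)
    rcases lt_or_gt_of_ne hu with h | h
    · have f1' : (fun t => Up Uc (zt δ) t (t + u)) = fun t => Uc (zt δ t - zt δ (t + u)) := by
        funext t
        exact Up_of_lt (by linarith)
      have f2 : (fun t => QZ δ δ1 t (t + u)) =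
          fun t => Ud (zt δ t - zt δ (t + u)) * (zd δ1 t - zd δ1 (t + u)) := by
        funext t
        exact if_pos (by linarith)
      have hre := hP.mono (t0 + u) t0 (by linarith)
      have hre' : 0 < (zt δ t0 - zt δ (t0 + u)).re := by
        have : (0:ℝ) < 1 / 2 * (t0 - (t0 + u)) := by
          have : 0 < t0 - (t0 + u) := by linarith
          positivity
        linarith
      have him : |(zt δ t0 - zt δ (t0 + u)).im| < l := by
        rw [Complex.sub_im]
        have a1 := hP.im_le t0
        have a2 := hP.im_le (t0 + u)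
        exact (abs_sub _ _).trans_lt (by linarith)
      have g1 : ContinuousAt (fun t => Up Uc (zt δ) t (t + u)) t0 := by
        rw [f1']
        exact (hasDerivAt_Uc hre' him).continuousAt.comp_of_eq (f := fun t =>
          zt δ t - zt δ (t + u)) (cz.sub d2).continuousAt rfl
      have g2 : ContinuousAt (fun t => QZ δ δ1 t (t + u)) t0 := by
        rw [f2]
        exact ((continuousAt_Ud hre' him).comp_of_eq (f := fun t =>
          zt δ t - zt δ (t + u)) (cz.sub d2).continuousAt rfl).mul (e1.sub e2).continuousAt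
      exact (g2.mul d1.continuousAt).add (g1.mul d1'.continuousAt)
    · have f1' : (fun t => Up Uc (zt δ) t (t + u)) = fun t => Uc (zt δ (t + u) - zt δ t) := by
        funext t
        exact Up_of_le (by linarith)
      have f2 : (fun t => QZ δ δ1 t (t + u)) =
          fun t => Ud (zt δ (t + u) - zt δ t) * (zd δ1 (t + u) - zd δ1 t) := by
        funext t
        exact if_neg (not_lt.2 (by linarith))
      have hre := hP.mono t0 (t0 + u) (by linarith)
      have hre' : 0 < (zt δ (t0 + u) - zt δ t0).re := by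
        have : (0:ℝ) < 1 / 2 * ((t0 + u) - t0) := by
          have : 0 < (t0 + u) - t0 := by linarith
          positivity
        linarith
      have him : |(zt δ (t0 + u) - zt δ t0).im| < l := by
        rw [Complex.sub_im]
        have a1 := hP.im_le t0
        have a2 := hP.im_le (t0 + u)
        exact (abs_sub _ _).trans_lt (by linarith)
      have g1 : ContinuousAt (fun t => Up Uc (zt δ) t (t + u)) t0 := by
        rw [f1']
        exact (hasDerivAt_Uc hre' him).continuousAt.comp_of_eq (f := fun t =>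
          zt δ (t + u) - zt δ t) (d2.sub cz).continuousAt rfl
      have g2 : ContinuousAt (fun t => QZ δ δ1 t (t + u)) t0 := by
        rw [f2]
        exact ((continuousAt_Ud hre' him).comp_of_eq (f := fun t =>
          zt δ (t + u) - zt δ t) (d2.sub cz).continuousAt rfl).mul (e2.sub e1).continuousAt
      exact (g2.mul d1.continuousAt).add (g1.mul d1'.continuousAt)

end

end

end PLT.Cv
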