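import Pool.Agent.PLT.ClsShB
import Pool.Agent.PLT.EndT
import Pool.Agent.THJ.PhysF
import Pool.Agent.PHK.Mst6

/-!
# The regular function at `D = l` is the physical function of the words of the direction

* `wJ`, `wI` : the words of the content `RB`; **`wds_fB`**;
* **`phys_YB`** : the modulus of the sum of `YB` at `D = l` is the normaliser times the two-point function.
-/

set_option autoImplicit false
set_option linter.unusedSectionVars false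
set_option linter.unusedVariables false

noncomputable section

open Complex MeasureTheory Filter Topology
open PLX (Fil)

namespace PLT.BY

open NUP1 NUP1S NURow
open Pa
open Pool.Agent.PLX
open Pool.Agent.THJ (Stair WL WF SL nrmS RUL bl physF count_yq)
open PLTX (InV NF)

variable {a0 b0 : ℕ} {ep : ℝ}

/-- the rows in front of the cut -/
def wJ (a0 b0 k : ℕ) : List Bool := List.ofFn (fB a0 b0 (k * (a0 + b0)))

/-- the rows behind the cut -/
def wI (q a0 b0 k : ℕ) : List Bool := List.ofFn (yqn q (fB a0 b0 (k * (a0 + b0))))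

theorem wJ_eq (h1 : 1 ≤ a0) (k : ℕ) :
    wJ a0 b0 k = List.replicate (k * a0) true ++ List.replicate (k * b0) false := by
  unfold wJ
  apply List.ext_getElem
  · simp
    ring
  · intro i h2 h3
    rw [List.getElem_ofFn]
    have e1 : ∀ j : Fin (k * (a0 + b0)), fB a0 b0 (k * (a0 + b0)) j = decide ((j : ℕ) < k * a0) := fun j => by
      unfold fB
      rw [cA_mul h1]
    rw [e1]
    rcases lt_or_ge i (k * a0) with h | h
    · rw [List.getElem_append_left (by simpa using h), List.getElem_replicate]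
      simpa using h
    · rw [List.getElem_append_right (by simpa using h), List.getElem_replicate]
      simpa using h

/-- **the words of the content** -/
theorem wds_fB (h1 : 1 ≤ a0) (q : ℕ) : FS.Wds q a0 b0 (wJ a0 b0) (wI q a0 b0) := by
  have e1 : ∀ k, (wJ a0 b0 k).count true = k * a0 := fun k => by
    rw [wJ_eq h1]
    simp [List.count_replicate]
  have e2 : ∀ k, (wJ a0 b0 k).count false = k * b0 := fun k => by
    rw [wJ_eq h1]
    simp [List.count_replicate]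
  exact ⟨e1, e2, fun k => by rw [wI, count_yq, ← wJ, e1], fun k => by rw [wI, count_yq, ← wJ, e2]⟩

theorem inV_Th : InV parTh := by
  constructor <;> norm_num [parTh]

variable [Fil]

/-! ## the record at the physical places -/

/-- the record at the physical places -/
def RPh (a0 b0 : ℕ) (ep : ℝ) (m : ℕ) : RU m (Fil.q * m) :=
  rP (NUP1.Leg.cc m) (NUP1.Leg.cc (Fil.q * m)) (NUGC.PLX.beC ep) (fB a0 b0 m) (yq (fB a0 b0 m)) [I, -I] [I, -I] [] []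
    (PBU.PLX.T1L m) (PBU.PLX.T1L m) (-(l / 2 : ℝ)) ((l / 2 : ℝ) : ℂ)

variable {m : ℕ}

theorem RPh_x : (RPh a0 b0 ep m).x = pk (fB a0 b0 m) (-(l / 2 : ℝ)) ((l / 2 : ℝ) : ℂ) := rfl

theorem RPh_y : (RPh a0 b0 ep m).y = pk (yq (fB a0 b0 m)) (-(l / 2 : ℝ)) ((l / 2 : ℝ) : ℂ) := rfl

theorem RPh_p : (RPh a0 b0 ep m).p = ((l / 2 : ℝ) : ℂ) := rfl

theorem RPh_q : (RPh a0 b0 ep m).q = ((l / 2 : ℝ) : ℂ) := rfl

theorem RPh_β : (RPh a0 b0 ep m).β = NUGC.PLX.beC ep := rfl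

theorem RPh_c : (RPh a0 b0 ep m).c = NUP1.Leg.cc m := rfl

theorem RPh_c' : (RPh a0 b0 ep m).c' = NUP1.Leg.cc (Fil.q * m) := rfl

theorem RPh_ok (hb : 1 < NUGC.PLX.beC ep) (hb' : NUGC.PLX.beC ep ≤ 4 / 3) : (RPh a0 b0 ep m).Ok6 := by
  have hl := NUP1.l_pos
  have hL : CutL (NUGC.PLX.beC ep) [I, -I] [I, -I] [] [] := by
    refine ⟨hb, hb', ?_, ?_, by simp, by simp⟩ <;>
    · intro w hw
      simp only [List.mem_cons, List.not_mem_nil, or_false] at hw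
      rcases hw with rfl | rfl
      · rw [I_re, abs_zero]
        linarith
      · rw [neg_re, I_re, neg_zero, abs_zero]
        linarith
  unfold RPh
  refine rP_ok hL ?_ ?_ ?_ ?_
  · rw [neg_re, ofReal_re, abs_neg, abs_of_pos (by linarith)]
  · rw [ofReal_re, abs_of_pos (by linarith)]
  · rw [neg_re, ofReal_re]
    intro h
    linarith
  · rw [ofReal_re]
    intro h
    linarith

theorem bl_pk (f : Fin m → Bool) : bl f (-(l / 2)) = pk f (-(l / 2 : ℝ)) ((l / 2 : ℝ) : ℂ) := by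
  funext i
  unfold bl pk
  split_ifs <;> push_cast <;> ring

theorem RPh_RUL : RUL (-(l / 2)) (fB a0 b0 m) Fil.q (RPh a0 b0 ep m) := by
  refine ⟨?_, ?_, ?_, ?_⟩
  · rw [RPh_x, bl_pk]
  · rw [RPh_y, bl_pk]
    rfl
  · rw [RPh_p, neg_neg]
  · rw [RPh_q, neg_neg]

theorem preB_l (hok : okB a0 b0 m) : preB a0 b0 m ((l : ℝ) : ℂ) =
    preY (RPh a0 b0 ep m).x (RPh a0 b0 ep m).y (RPh a0 b0 ep m).p (RPh a0 b0 ep m).q := by
  unfold preB
  have e0 : eB a0 b0 m ((l : ℝ) : ℂ) = qz a0 b0 ((l : ℝ) : ℂ) := if_pos hok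
  have eu : -pz a0 b0 ((l : ℝ) : ℂ) + (((l / 2 : ℝ) : ℂ) - qz a0 b0 ((l : ℝ) : ℂ)) = -((l / 2 : ℝ) : ℂ) := by
    unfold qz
    push_cast
    ring
  have ev : qz a0 b0 ((l : ℝ) : ℂ) + (((l / 2 : ℝ) : ℂ) - qz a0 b0 ((l : ℝ) : ℂ)) = ((l / 2 : ℝ) : ℂ) := by ring
  rw [← preY_tr _ _ _ _ (((l / 2 : ℝ) : ℂ) - qz a0 b0 ((l : ℝ) : ℂ)), e0, yB_pk hok, xB_pk hok, pk_add, pk_add,
    eu, ev, RPh_x, RPh_y, RPh_p, RPh_q]

/-- one class sum at the physical places -/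
theorem fin_RPh (h1 : 1 ≤ a0) (h2 : a0 ≤ b0) (hok : okB a0 b0 m) (hb : 1 < NUGC.PLX.beC ep)
    (hb' : NUGC.PLX.beC ep ≤ 4 / 3) {P0 : NUO.Par} (hP0 : ParP P0) (L0 : LnH (lX P0) (lY P0)) (n : ℕ)
    (h : n + Fil.q * m = n + (Fil.q * m - m) + m) :
    (RB a0 b0 ep m ((l : ℝ) : ℂ)).fin parTh n (n + (Fil.q * m - m)) =
      (RPh a0 b0 ep m).fin parTh n (n + (Fil.q * m - m)) :=
  RB_lat h1 h2 hok hb hb' h hP0 L0 (RPh_ok hb hb') (by rw [RPh_β]; exact hb) RPh_c RPh_c' RPh_x RPh_y RPh_p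
    RPh_q inV_Th inV_Th

theorem YB_l (n : ℕ) : YB a0 b0 ep m ((l : ℝ) : ℂ) n =
    preB a0 b0 m ((l : ℝ) : ℂ) * (RB a0 b0 ep m ((l : ℝ) : ℂ)).fin parTh n (n + (Fil.q * m - m)) := by
  have hxn : Fil.xn m = Fil.q * m - m := by
    have := Fil.add_xn m
    omega
  unfold YB
  rw [hxn]

/-- the sum over the quanta -/
theorem sum_YB (h1 : 1 ≤ a0) (h2 : a0 ≤ b0) (hok : okB a0 b0 m) (hb : 1 < NUGC.PLX.beC ep) (hb' : NUGC.PLX.beC ep ≤ 4 / 3) :
    ∑ n ∈ Finset.range (2 * m + 1), YB a0 b0 ep m ((l : ℝ) : ℂ) n =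
      preY (RPh a0 b0 ep m).x (RPh a0 b0 ep m).y (RPh a0 b0 ep m).p (RPh a0 b0 ep m).q *
        ∑ n ∈ Finset.range (2 * m + 1), (RPh a0 b0 ep m).fin parTh n (n + (Fil.q * m - m)) := by
  obtain ⟨P0, hP0, L0⟩ := PBR.PLX.exists_par
  have hqm : m ≤ Fil.q * m := Nat.le_mul_of_pos_left _ Fil.one_le_q
  have e1 : ∀ n ∈ Finset.range (2 * m + 1), YB a0 b0 ep m ((l : ℝ) : ℂ) n = preB a0 b0 m ((l : ℝ) : ℂ) *
      (RPh a0 b0 ep m).fin parTh n (n + (Fil.q * m - m)) := fun n _ => by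
    rw [YB_l, fin_RPh h1 h2 hok hb hb' hP0 L0 n (by omega)]
  rw [Finset.sum_congr rfl e1, ← Finset.mul_sum, preB_l (ep := ep) hok]

/-- the physical function at a multiple of `a0 + b0` -/
theorem phys_m (h1 : 1 ≤ a0) (h2 : a0 ≤ b0) (hb : 1 < NUGC.PLX.beC ep) (hb' : NUGC.PLX.beC ep ≤ 4 / 3) : ∃ k0 : ℕ,
    ∀ m : ℕ, k0 ≤ m → okB a0 b0 m → ‖∑ n ∈ Finset.range (2 * m + 1), YB a0 b0 ep m ((l : ℝ) : ℂ) n‖ =
      nrmS (Pool.Agent.THJ.SL (fB a0 b0 m) Fil.q) (m + Fil.q * m + 2) * WF (fB a0 b0 m) Fil.q := by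
  obtain ⟨k0, H⟩ := physF
  obtain ⟨P0, hP0, L0⟩ := PBR.PLX.exists_par
  refine ⟨k0, fun m hm hok => ?_⟩
  rw [sum_YB h1 h2 hok hb hb']
  exact H m Fil.q (fB a0 b0 m) hm Fil.one_le_q (-(l / 2)) parTh P0 hP0 L0 (lnP_inV inV_Th) (RPh a0 b0 ep m)
    (RPh_ok hb hb') (by rw [RPh_β]; exact hb) RPh_c RPh_c' RPh_RUL

theorem nrm_WL (f : Fin m → Bool) (q : ℕ) :
    nrmS (Stair.ofL (FS.rwL (List.ofFn f) (List.ofFn (yqn q f)))) ((List.ofFn (yqn q f)).length + (List.ofFn f).length + 2) *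
      WL false (List.ofFn f) (List.ofFn (yqn q f)) =
      nrmS (Pool.Agent.THJ.SL f q) (m + q * m + 2) * WF f q := by
  rw [List.length_ofFn, List.length_ofFn, add_comm (q * m) m]
  rfl

/-- **the physical function of the content** -/
theorem phys_YB (h1 : 1 ≤ a0) (h2 : a0 ≤ b0) (hb : 1 < NUGC.PLX.beC ep) (hb' : NUGC.PLX.beC ep ≤ 4 / 3) :
    ∀ᶠ k : ℕ in atTop, ‖∑ n ∈ Finset.range (2 * (k * (a0 + b0)) + 1), YB a0 b0 ep (k * (a0 + b0)) ((l : ℝ) : ℂ) n‖ =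
      nrmS (Stair.ofL (FS.rwL (wJ a0 b0 k) (wI Fil.q a0 b0 k)))
        ((wI Fil.q a0 b0 k).length + (wJ a0 b0 k).length + 2) * WL false (wJ a0 b0 k) (wI Fil.q a0 b0 k) := by
  obtain ⟨k0, H⟩ := phys_m h1 h2 hb hb'
  filter_upwards [eventually_ge_atTop k0] with k hk
  have hmk : k0 ≤ k * (a0 + b0) := by nlinarith
  rw [H _ hmk (okB_mul a0 b0 k)]
  exact (nrm_WL (fB a0 b0 (k * (a0 + b0))) Fil.q).symm

end PLT.BY

end
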