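import Pool.Agent.PLX.Ns
import Pool.Agent.PLX.NUSea.H0.PinF
import Pool.Agent.PLX.NUGC.ShlF

/-!
# Pinned groups on a complex path

Twin of the last parts of `NUSp/Pin` and of `PLX/NUSea/H0/PinF` for a path `ζ` near the real axis:

* **`Pth b T K ζ ζ'`**: `|Im ζ| < b`, `|Re ζ - t| ≤ 1/2`, `Re ζ = t` for `T - 1 ≤ |t|`, `|ζ'| ≤ 1 + K`;
* `rem`, `rem1`, `remG`, `remG1`: the remainders (as in `NUSp`); `hasDerivAt_rem`, `continuous_rem1`,
  `rem_le`, `rem1_le`, `re_up`, `gp_in`, `gp_up`;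
* `BF`, `BF1`, `fam_in`, `fam_up`, `hasDerivAt_BF`, `cont_BF1`, **`exists_BF`**, **`dom_fam`**.
-/

set_option autoImplicit false
set_option linter.unusedSectionVars false
set_option linter.unusedVariables false

open Complex Set Filter Topology MeasureTheory

namespace PLT.Sp

open NUO (Away PotB)
open NUSp (Cl Grp grp gp gp1 gq gn gph th DD pin exc sg st st1 Asy rc rc1 pinw kk kr kr1 kfar kk_nonneg rc_nonneg
  exc_nonneg pin_of_le exc_of_le abs_pin_le sg_mul_le sg_abs pin_eq_sg abs_sub_sg st_one st_zero st_le_one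
  st_nonneg st1_left st1_right st1_zero st1_le stD stD_one hasDerivAt_st contDiff_st continuous_st1 unit_le in_le
  cmp_re cmp_re_all re_far cmp_d cmp_d_all asy_grp asy_grp_pin potB_grp potB_grp_pin pinw_of_le abs_gq_le rc_le
  kfar_nonneg continuous_f continuous_f1)

noncomputable section

/-! ### the path -/

/-- a path near the real axis, on it (up to the imaginary part) beyond `T - 1` -/
structure Pth (b T K : ℝ) (ζ ζ' : ℝ → ℂ) : Prop where
  hd : ∀ t, HasDerivAt ζ (ζ' t) t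
  hc : Continuous ζ'
  im : ∀ t, |(ζ t).im| < b
  re : ∀ t, |(ζ t).re - t| ≤ 1 / 2
  ou : ∀ t, T - 1 ≤ |t| → (ζ t).re = t
  bd : ∀ t, ‖ζ' t‖ ≤ 1 + K

variable {T τ t b K κ c a φ : ℝ} {f f1 g g1 : ℂ → ℂ} {ζ ζ' : ℝ → ℂ}

lemma Pth.cont (h : Pth b T K ζ ζ') : Continuous ζ :=
  continuous_iff_continuousAt.2 fun t => (h.hd t).continuousAt

lemma Pth.K0 (h : Pth b T K ζ ζ') : -1 ≤ K := by
  have h1 := (norm_nonneg (ζ' 0)).trans (h.bd 0)
  linarith

lemma Pth.mono {T' : ℝ} (h : Pth b T K ζ ζ') (hT : T ≤ T') : Pth b T' K ζ ζ' :=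
  { h with ou := fun t ht => h.ou t (by linarith) }

/-- beyond `T` the real part is the parameter -/
lemma Pth.out (h : Pth b T K ζ ζ') (ht : T ≤ |t|) : (ζ t).re = t := h.ou t (by linarith)

/-- inside the window -/
lemma Pth.inn (h : Pth b T K ζ ζ') (τ : ℝ) (ht : sg τ * t ≤ T) : sg τ * (ζ t).re ≤ T := by
  rcases le_or_gt (T - 1) |t| with h1 | h1
  · rwa [h.ou t h1]
  · have h2 := sg_mul_le τ (ζ t).re
    have h3 := abs_sub_abs_le_abs_sub (ζ t).re t
    have h4 := h.re t
    linarith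

/-- distances -/
lemma Pth.exp_le (h : Pth b T K ζ ζ') (x t : ℝ) :
    Real.exp (-2 * |(ζ t).re - x|) ≤ Real.exp 1 * Real.exp (-2 * |t - x|) := by
  rw [← Real.exp_add]
  refine Real.exp_le_exp.2 ?_
  have h1 := abs_sub_le t (ζ t).re x
  have h2 := h.re t
  rw [abs_sub_comm] at h2
  linarith

lemma in_le' {c : ℝ} (hk : 0 ≤ κ) (h : Pth b T K ζ ζ') (x t : ℝ) :
    2 * κ * Real.exp (-2 * |(ζ t).re - x|) ≤ rc κ c * Real.exp (-2 * |t - x|) := by
  have h1 := h.exp_le x t
  have h2 : Real.exp 1 ≤ Real.exp 2 := Real.exp_le_exp.2 (by norm_num)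
  have h3 := Real.exp_pos (-2 * |t - x|)
  have h4 := abs_nonneg c
  unfold rc
  calc 2 * κ * Real.exp (-2 * |(ζ t).re - x|) ≤ 2 * κ * (Real.exp 1 * Real.exp (-2 * |t - x|)) := by
        gcongr
    _ ≤ (2 * |c| + 2 * κ) * (Real.exp 2 * Real.exp (-2 * |t - x|)) := by
        gcongr
        linarith
    _ = _ := by ring

/-! ### the remainder on a path -/

/-- the remainder: true potential minus the pinned one minus the constant, cut off beyond `T + 1` -/
def rem (T τ c : ℝ) (f g : ℂ → ℂ) (ζ : ℝ → ℂ) (t : ℝ) : ℝ :=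
  st (sg τ * t - T) * ((f (ζ t)).re - (g (ζ t)).re - c * exc T τ)

/-- its derivative -/
def rem1 (T τ c : ℝ) (f f1 g g1 : ℂ → ℂ) (ζ ζ' : ℝ → ℂ) (t : ℝ) : ℝ :=
  st1 (sg τ * t - T) * sg τ * ((f (ζ t)).re - (g (ζ t)).re - c * exc T τ) +
    st (sg τ * t - T) * ((f1 (ζ t) * ζ' t).re - (g1 (ζ t) * ζ' t).re)

/-- inside the remainder is the exact difference -/
theorem rem_in (ht : |t| ≤ T) :
    rem T τ c f g ζ t = (f (ζ t)).re - (g (ζ t)).re - c * exc T τ := by
  unfold rem
  rw [st_one (by have := sg_mul_le τ t; linarith), one_mul]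

lemma hasDerivAt_curve (hf : PotB b κ c τ f f1) (h : Pth b T K ζ ζ') (t : ℝ) :
    HasDerivAt (fun t : ℝ => (f (ζ t)).re) (f1 (ζ t) * ζ' t).re t := by
  have h1 := hf.hd (ζ t) (h.im t)
  exact Complex.reCLM.hasFDerivAt.comp_hasDerivAt t (h1.comp t (h.hd t))

theorem hasDerivAt_rem (hf : PotB b κ c τ f f1) {τ' : ℝ} (hg : PotB b κ c τ' g g1)
    (h : Pth b T K ζ ζ') (t : ℝ) :
    HasDerivAt (rem T τ c f g ζ) (rem1 T τ c f f1 g g1 ζ ζ' t) t := by
  have h1 := hasDerivAt_curve hf h t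
  have h2 := hasDerivAt_curve hg h t
  have h3 : HasDerivAt (fun t : ℝ => st (sg τ * t - T)) (st1 (sg τ * t - T) * sg τ) t := by
    have h4 : HasDerivAt (fun t : ℝ => sg τ * t - T) (sg τ) t := by
      simpa using ((hasDerivAt_id t).const_mul (sg τ)).sub_const T
    exact (hasDerivAt_st _).comp t h4
  exact h3.mul ((h1.sub h2).sub_const _)

theorem continuous_rem1 (hf : PotB b κ c τ f f1) {τ' : ℝ} (hg : PotB b κ c τ' g g1)
    (h : Pth b T K ζ ζ') : Continuous (rem1 T τ c f f1 g g1 ζ ζ') := by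
  have hz := h.cont
  have hin : ∀ t : ℝ, ζ t ∈ {z : ℂ | |z.im| < b} := h.im
  have c1 := (continuous_f hf).comp_continuous hz hin
  have c2 := (continuous_f hg).comp_continuous hz hin
  have c3 := (continuous_f1 hf).comp_continuous hz hin
  have c4 := (continuous_f1 hg).comp_continuous hz hin
  have c6 : Continuous fun t : ℝ => sg τ * t - T := (continuous_const.mul continuous_id).sub continuous_const
  unfold rem1
  refine Continuous.add (Continuous.mul ((continuous_st1.comp c6).mul continuous_const) ?_)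
    (Continuous.mul (contDiff_st.continuous.comp c6) ?_)
  · exact ((Complex.continuous_re.comp c1).sub (Complex.continuous_re.comp c2)).sub continuous_const
  · exact (Complex.continuous_re.comp (c3.mul h.hc)).sub (Complex.continuous_re.comp (c4.mul h.hc))

/-- **the remainder is exponentially small** -/
theorem rem_le (hb : 0 < b) (hf : Asy b κ c a φ τ f) (hg : Asy b κ c a φ (pin T τ) g) (hT : 0 ≤ T)
    (h : T ≤ |τ|) (hζ : Pth b T K ζ ζ') (t : ℝ) :
    |rem T τ c f g ζ t| ≤ rc κ c * Real.exp (-2 * |t - pin T τ|) := by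
  have hk := hf.κ0 hb
  have hz := hζ.im t
  unfold rem
  rcases le_total (sg τ * t) T with h1 | h1
  · rw [st_one (by linarith), one_mul]
    have h2 := cmp_re hb hf hg hT h hz (hζ.inn τ h1)
    exact h2.trans (in_le' hk hζ _ _)
  · rcases le_total (sg τ * t) (T + 1) with h2 | h2
    · have h3 := cmp_re_all hb hf hg hT hz
      have e : |t| = |sg τ * t| := by rw [abs_mul, sg_abs, one_mul]
      have h11 : T ≤ |t| := by
        rw [e]
        exact h1.trans (le_abs_self _)
      rw [hζ.out h11] at h3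
      have h4 : |t| - T ≤ 1 := by
        rw [e, abs_of_nonneg (by linarith)]
        linarith
      have h5 : min (max (|t| - T) 0) (exc T τ) ≤ 1 := (min_le_left _ _).trans (max_le h4 zero_le_one)
      rw [abs_mul, abs_of_nonneg (st_nonneg _)]
      have h6 := st_le_one (sg τ * t - T)
      have h7 := st_nonneg (sg τ * t - T)
      have h8 := unit_le (c := c) hk hT h h1 h2
      have h9 := abs_nonneg c
      have h10 : 2 * |c| * min (max (|t| - T) 0) (exc T τ) ≤ 2 * |c| * 1 := by gcongr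
      calc _ ≤ 1 * |(f (ζ t)).re - (g (ζ t)).re - c * exc T τ| := by
            gcongr
        _ ≤ _ := by linarith
    · rw [st_zero (by linarith), zero_mul, abs_zero]
      exact mul_nonneg (rc_nonneg hk) (Real.exp_pos _).le

/-- **its derivative is exponentially small** -/
theorem rem1_le (hf' : Asy b κ c a φ τ f) (hg' : Asy b κ c a φ (pin T τ) g)
    (hf : PotB b κ c τ f f1) (hg : PotB b κ c (pin T τ) g g1) (hT : 0 ≤ T)
    (h : T ≤ |τ|) (hζ : Pth b T K ζ ζ') (hK0 : 0 ≤ K) (t : ℝ) :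
    |rem1 T τ c f f1 g g1 ζ ζ' t| ≤ rc1 κ c K * Real.exp (-2 * |t - pin T τ|) := by
  have hk := hf.κ0
  have hb := hf.b0
  have hD := stD_one
  have hz := hζ.im t
  have hR := rc_nonneg (c := c) hk
  have hE := Real.exp_pos (-2 * |t - pin T τ|)
  -- the second term
  have e2 : (f1 (ζ t) * ζ' t).re - (g1 (ζ t) * ζ' t).re =
      ((f1 (ζ t) - g1 (ζ t)) * ζ' t).re := by
    rw [sub_mul, Complex.sub_re]
  have hs2 : |(f1 (ζ t) * ζ' t).re - (g1 (ζ t) * ζ' t).re| ≤
      ‖f1 (ζ t) - g1 (ζ t)‖ * (1 + K) := by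
    rw [e2]
    refine (Complex.abs_re_le_norm _).trans ?_
    rw [norm_mul]
    exact mul_le_mul_of_nonneg_left (hζ.bd t) (norm_nonneg _)
  unfold rem1
  rcases le_total (sg τ * t) T with h1 | h1
  · have hst1 : st1 (sg τ * t - T) = 0 := by
      rcases lt_or_eq_of_le h1 with h2 | h2
      · exact st1_left (by linarith)
      · rw [h2, sub_self]; exact st1_zero
    rw [hst1, zero_mul, zero_mul, zero_add, st_one (by linarith), one_mul]
    have h2 := cmp_d hf hg hT h hz (hζ.inn τ h1)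
    have h3 := in_le' (c := c) hk hζ (pin T τ) t
    have h4 : ‖f1 (ζ t) - g1 (ζ t)‖ * (1 + K) ≤
        (rc κ c * Real.exp (-2 * |t - pin T τ|)) * (1 + K) := by
      refine mul_le_mul_of_nonneg_right (h2.trans h3) (by linarith)
    unfold rc1
    have h5 : 0 ≤ rc κ c * Real.exp (-2 * |t - pin T τ|) := by positivity
    nlinarith
  · rcases le_total (sg τ * t) (T + 1) with h2 | h2
    · have h3 := cmp_re_all hb hf' hg' hT hz
      have e : |t| = |sg τ * t| := by rw [abs_mul, sg_abs, one_mul]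
      have h11 : T ≤ |t| := by
        rw [e]
        exact h1.trans (le_abs_self _)
      rw [hζ.out h11] at h3
      have h4 : |t| - T ≤ 1 := by
        rw [e, abs_of_nonneg (by linarith)]
        linarith
      have h5 : min (max (|t| - T) 0) (exc T τ) ≤ 1 := (min_le_left _ _).trans (max_le h4 zero_le_one)
      have h9 := abs_nonneg c
      have h10 : 2 * |c| * min (max (|t| - T) 0) (exc T τ) ≤ 2 * |c| * 1 := by gcongr
      have h8 := unit_le (c := c) hk hT h h1 h2
      have q1 : |(f (ζ t)).re - (g (ζ t)).re - c * exc T τ| ≤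
          rc κ c * Real.exp (-2 * |t - pin T τ|) := by linarith
      have q2 : ‖f1 (ζ t) - g1 (ζ t)‖ ≤
          rc κ c * Real.exp (-2 * |t - pin T τ|) := (cmp_d_all hf hg hz).trans h8
      have q3 := st1_le (sg τ * t - T)
      have q4 := st_le_one (sg τ * t - T)
      have q5 := st_nonneg (sg τ * t - T)
      refine (abs_add_le _ _).trans ?_
      rw [abs_mul, abs_mul, sg_abs, mul_one, abs_mul, abs_of_nonneg q5]
      have q6 : |st1 (sg τ * t - T)| *
          |(f (ζ t)).re - (g (ζ t)).re - c * exc T τ| ≤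
          stD * (rc κ c * Real.exp (-2 * |t - pin T τ|)) := by gcongr
      have q7 : st (sg τ * t - T) * |(f1 (ζ t) * ζ' t).re -
          (g1 (ζ t) * ζ' t).re| ≤
          1 * ((rc κ c * Real.exp (-2 * |t - pin T τ|)) * (1 + K)) := by
        refine mul_le_mul q4 (hs2.trans ?_) (abs_nonneg _) zero_le_one
        exact mul_le_mul_of_nonneg_right q2 (by linarith)
      unfold rc1
      linarith
    · have hst1 : st1 (sg τ * t - T) = 0 := by
        rcases lt_or_eq_of_le h2 with h3 | h3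
        · exact st1_right (by linarith)
        · -- the step is constant on the right
          have h4 : ∀ᶠ u in 𝓝[>] (1:ℝ), st1 u = 0 := by
            filter_upwards [self_mem_nhdsWithin] with u hu
            exact st1_right hu
          have h5 : Tendsto st1 (𝓝[>] (1:ℝ)) (𝓝 (st1 1)) :=
            continuous_st1.continuousAt.tendsto.mono_left nhdsWithin_le_nhds
          have h6 : Tendsto st1 (𝓝[>] (1:ℝ)) (𝓝 0) := by
            refine Tendsto.congr' ?_ tendsto_const_nhds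
            filter_upwards [h4] with u hu
            exact hu.symm
          have h7 := tendsto_nhds_unique h5 h6
          rw [← h3, add_sub_cancel_left]
          exact h7
      rw [hst1, st_zero (by linarith)]
      simp only [zero_mul, add_zero, abs_zero]
      unfold rc1
      have : 0 ≤ stD + 1 + K := by linarith
      positivity

/-- **upper bound on the path**: true potential ≤ pinned one + constant + remainder + attraction -/
theorem re_up (hb : 0 < b) (hf : Asy b κ c a φ τ f) (hg : Asy b κ c a φ (pin T τ) g) (hT : 0 ≤ T)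
    (h : T ≤ |τ|) (hζ : Pth b T K ζ ζ') (t : ℝ) :
    (f (ζ t)).re ≤ (g (ζ t)).re + c * exc T τ + rem T τ c f g ζ t +
      2 * max (-c) 0 * min (max (|t| - T) 0) (exc T τ) + (if |t| ≤ T then 0 else 2 * κ + rc κ c) := by
  have hk := hf.κ0 hb
  have hz := hζ.im t
  have hm : 0 ≤ min (max (|t| - T) 0) (exc T τ) := le_min (le_max_right _ _) (exc_nonneg _ _)
  have hc : 0 ≤ max (-c) 0 := le_max_right _ _
  split_ifs with ht
  · rw [rem_in ht]
    have := mul_nonneg (mul_nonneg zero_le_two hc) hm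
    linarith
  · have h1 := re_far hb hf hg hT hz
    rw [hζ.out (not_le.1 ht).le] at h1
    have h2 := rem_le hb hf hg hT h hζ t
    have h3 := (abs_le.1 h2).1
    have h4 : rc κ c * Real.exp (-2 * |t - pin T τ|) ≤ rc κ c * 1 := by
      refine mul_le_mul_of_nonneg_left ?_ (rc_nonneg hk)
      exact Real.exp_le_one_iff.2 (by have := abs_nonneg (t - pin T τ); linarith)
    linarith

/-! ### the groups -/

variable {w : ℂ} {δ : ℝ}

/-- remainder of a pinned group -/
def remG (T : ℝ) (c : Cl) (s σ : Bool) (w : ℂ) (ζ : ℝ → ℂ) (t : ℝ) : ℝ :=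
  rem T w.im (gq s (grp c σ w)) (gp s (grp c σ w)) (gp s (grp c σ (pinw T w))) ζ t

/-- its derivative -/
def remG1 (T : ℝ) (c : Cl) (s σ : Bool) (w : ℂ) (ζ ζ' : ℝ → ℂ) (t : ℝ) : ℝ :=
  rem1 T w.im (gq s (grp c σ w)) (gp s (grp c σ w)) (gp1 s (grp c σ w))
    (gp s (grp c σ (pinw T w))) (gp1 s (grp c σ (pinw T w))) ζ ζ' t

/-- a half quantum inside the window has no remainder -/
theorem remG_zero (h : |w.im| ≤ T) (c : Cl) (s σ : Bool) (ζ : ℝ → ℂ) (t : ℝ) :
    remG T c s σ w ζ t = 0 := by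
  unfold remG rem
  rw [pinw_of_le h, exc_of_le h]
  simp

theorem remG1_zero (h : |w.im| ≤ T) (c : Cl) (s σ : Bool) (ζ ζ' : ℝ → ℂ) (t : ℝ) :
    remG1 T c s σ w ζ ζ' t = 0 := by
  unfold remG1 rem1
  rw [pinw_of_le h, exc_of_le h]
  simp

theorem hasDerivAt_remG (hb0 : 0 < b) (hb : b < δ * NUMF.l) (h : Away δ w) (c : Cl) (s σ : Bool)
    (hζ : Pth b T K ζ ζ') (t : ℝ) :
    HasDerivAt (remG T c s σ w ζ) (remG1 T c s σ w ζ ζ' t) t :=
  hasDerivAt_rem (potB_grp hb0 hb h c s σ) (potB_grp_pin hb0 hb h T c s σ) hζ t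

theorem continuous_remG1 (hb0 : 0 < b) (hb : b < δ * NUMF.l) (h : Away δ w) (c : Cl)
    (s σ : Bool) (hζ : Pth b T K ζ ζ') : Continuous (remG1 T c s σ w ζ ζ') :=
  continuous_rem1 (potB_grp hb0 hb h c s σ) (potB_grp_pin hb0 hb h T c s σ) hζ

/-- **the remainder of the group** -/
theorem remG_le (hb0 : 0 < b) (hb : b < δ * NUMF.l) (hδ : δ ≤ 1) (h : Away δ w) (hT : 0 ≤ T) (c : Cl)
    (s σ : Bool) (hζ : Pth b T K ζ ζ') (t : ℝ) :
    |remG T c s σ w ζ t| ≤ kr δ b * Real.exp (-2 * |t - pin T w.im|) := by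
  have hE := Real.exp_pos (-2 * |t - pin T w.im|)
  have hR := rc_nonneg (c := 3) (kk_nonneg δ b)
  rcases le_total |w.im| T with h1 | h1
  · rw [remG_zero h1, abs_zero]
    unfold kr
    positivity
  · refine (rem_le hb0 (asy_grp hb0 hb hδ h c s σ) (asy_grp_pin hb0 hb hδ h T c s σ) hT h1 hζ t).trans ?_
    exact mul_le_mul_of_nonneg_right (rc_le (abs_gq_le c s σ w)) hE.le

/-- **its derivative** -/
theorem remG1_le (hb0 : 0 < b) (hb : b < δ * NUMF.l) (hδ : δ ≤ 1) (h : Away δ w) (hT : 0 ≤ T) (c : Cl)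
    (s σ : Bool) (hζ : Pth b T K ζ ζ') (hK0 : 0 ≤ K) (t : ℝ) :
    |remG1 T c s σ w ζ ζ' t| ≤ kr1 δ b K * Real.exp (-2 * |t - pin T w.im|) := by
  have hE := Real.exp_pos (-2 * |t - pin T w.im|)
  have hR := rc_nonneg (c := 3) (kk_nonneg δ b)
  have hD := stD_one
  rcases le_total |w.im| T with h1 | h1
  · rw [remG1_zero h1, abs_zero]
    unfold kr1 rc1
    positivity
  · refine (rem1_le (asy_grp hb0 hb hδ h c s σ) (asy_grp_pin hb0 hb hδ h T c s σ)
      (potB_grp hb0 hb h c s σ) (potB_grp_pin hb0 hb h T c s σ) hT h1 hζ hK0 t).trans ?_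
    refine mul_le_mul_of_nonneg_right ?_ hE.le
    unfold kr1 rc1
    exact mul_le_mul_of_nonneg_left (rc_le (abs_gq_le c s σ w)) (by linarith)

/-- **inside the window**: true potential = pinned one + constant + remainder -/
theorem gp_in (ht : |t| ≤ T) (c : Cl) (s σ : Bool) (w : ℂ) (ζ : ℝ → ℂ) :
    (gp s (grp c σ w) (ζ t)).re =
      (gp s (grp c σ (pinw T w)) (ζ t)).re + gq s (grp c σ w) * exc T w.im +
        remG T c s σ w ζ t := by
  unfold remG
  rw [rem_in ht]
  ring

/-- **everywhere**: true potential ≤ pinned one + constant + remainder + attraction -/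
theorem gp_up (hb0 : 0 < b) (hb : b < δ * NUMF.l) (hδ : δ ≤ 1) (h : Away δ w) (hT : 0 ≤ T) (c : Cl)
    (s σ : Bool) (hζ : Pth b T K ζ ζ') (t : ℝ) :
    (gp s (grp c σ w) (ζ t)).re ≤
      (gp s (grp c σ (pinw T w)) (ζ t)).re + gq s (grp c σ w) * exc T w.im +
        remG T c s σ w ζ t + 2 * max (-gq s (grp c σ w)) 0 * min (max (|t| - T) 0) (exc T w.im) +
        (if |t| ≤ T then 0 else kfar δ b) := by
  have hm : 0 ≤ min (max (|t| - T) 0) (exc T w.im) := le_min (le_max_right _ _) (exc_nonneg _ _)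
  have hc : 0 ≤ max (-gq s (grp c σ w)) 0 := le_max_right _ _
  have hf := kfar_nonneg δ b
  rcases le_total |w.im| T with h1 | h1
  · rw [remG_zero h1, pinw_of_le h1, exc_of_le h1]
    have h2 : 0 ≤ (if |t| ≤ T then (0:ℝ) else kfar δ b) := by split_ifs <;> linarith
    have h3 : 0 ≤ 2 * max (-gq s (grp c σ w)) 0 * min (max (|t| - T) 0) (0:ℝ) := by
      have : 0 ≤ min (max (|t| - T) 0) (0:ℝ) := le_min (le_max_right _ _) le_rfl
      positivity
    linarith
  · have h2 := re_up hb0 (asy_grp hb0 hb hδ h c s σ) (asy_grp_pin hb0 hb hδ h T c s σ) hT h1 hζ t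
    refine h2.trans ?_
    have h3 : (if |t| ≤ T then (0:ℝ) else 2 * kk δ b + rc (kk δ b) (gq s (grp c σ w))) ≤
        (if |t| ≤ T then 0 else kfar δ b) := by
      split_ifs
      · exact le_rfl
      · unfold kfar
        have := rc_le (κ := kk δ b) (abs_gq_le c s σ w)
        linarith
    unfold remG
    linarith

/-! ### the families -/

open NUSea.PLX.H0 (Gd cstF DD_sum l5 hfar)
open NUGC.PLX (FamOk gP CcF)

variable {n : ℕ}

/-- the remainders of a family -/
def BF (T : ℝ) (g : Fin n → Gd) (ζ : ℝ → ℂ) (a : Bool) (t : ℝ) : ℝ :=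
  ∑ i, remG T (g i).c a (g i).σ (g i).w ζ t

/-- their derivative -/
def BF1 (T : ℝ) (g : Fin n → Gd) (ζ ζ' : ℝ → ℂ) (a : Bool) (t : ℝ) : ℝ :=
  ∑ i, remG1 T (g i).c a (g i).σ (g i).w ζ ζ' t

variable (g : Fin n → Gd)

/-- **inside the window**: exact -/
theorem fam_in (p q : ℂ) (a : Bool) {t : ℝ} (ht : |t| ≤ T) (ζ : ℝ → ℂ) :
    (DD p q (List.ofFn fun i => (g i).G) a (ζ t)).re =
      (DD p q (List.ofFn fun i => ((g i).pin T).G) a (ζ t)).re + cstF T g a +
        BF T g ζ a t := by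
  rw [DD_sum, DD_sum (fun i => (g i).pin T)]
  unfold cstF BF
  rw [add_assoc, add_assoc, ← Finset.sum_add_distrib, ← Finset.sum_add_distrib]
  congr 1
  refine Finset.sum_congr rfl fun i _ => ?_
  have h := gp_in ht (g i).c a (g i).σ (g i).w ζ
  rw [Gd.im] at h
  rw [Gd.pin_G, ← add_assoc]
  exact h

/-- **everywhere**: at most one attraction on each species -/
theorem fam_up (p q : ℂ) (hT : 0 ≤ T)
    (hc : ∀ i, (g i).c = .w ∨ (g i).c = .d ∨ |(g i).τ| ≤ T)
    (hσ : ∀ i j, i ≠ j → (g i).σ ≠ (g j).σ) {x : ℝ} (hx0 : 0 ≤ x) (hx : ∀ i, NUSp.exc T (g i).τ ≤ x)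
    (a : Bool) (hζ : Pth (NUMF.l / 5) T K ζ ζ') (t : ℝ) :
    (DD p q (List.ofFn fun i => (g i).G) a (ζ t)).re ≤
      (DD p q (List.ofFn fun i => ((g i).pin T).G) a (ζ t)).re + cstF T g a +
        BF T g ζ a t + 2 * min (max (|t| - T) 0) x +
        (if |t| ≤ T then 0 else n * kfar (1 / 4) (NUMF.l / 5)) := by
  have hl := NUMF.l_pos
  have key : ∀ i, (gp a (g i).G (ζ t)).re ≤
      (gp a ((g i).pin T).G (ζ t)).re + gq a (g i).G * NUSp.exc T (g i).τ +
        remG T (g i).c a (g i).σ (g i).w ζ t +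
        (if a = (g i).σ then 0 else 2 * min (max (|t| - T) 0) x) +
        (if |t| ≤ T then 0 else kfar (1 / 4) (NUMF.l / 5)) := by
    intro i
    have h := gp_up (w := (g i).w) (by positivity) l5 (by norm_num)
      (g i).away hT (g i).c a (g i).σ hζ t
    rw [Gd.im] at h
    rw [Gd.pin_G]
    refine h.trans ?_
    refine add_le_add (add_le_add le_rfl ?_) le_rfl
    have hm : 0 ≤ min (max (|t| - T) 0) (NUSp.exc T (g i).τ) :=
      le_min (le_max_right _ _) (NUSp.exc_nonneg _ _)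
    have hm2 : min (max (|t| - T) 0) (NUSp.exc T (g i).τ) ≤ min (max (|t| - T) 0) x :=
      min_le_min le_rfl (hx i)
    have e : gq a (grp (g i).c (g i).σ (g i).w) = if a = (g i).σ then NUSp.qc (g i).c
        else -NUSp.qc (g i).c := NUSp.gq_grp _ _ _ _
    rcases hc i with h1 | h1 | h1
    · rw [e, h1]
      by_cases ha : a = (g i).σ
      · rw [if_pos ha, if_pos ha]
        have : max (-NUSp.qc .w) 0 = 0 := max_eq_right (by norm_num [NUSp.qc])
        rw [this]
        simp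
      · rw [if_neg ha, if_neg ha]
        have : max (- -NUSp.qc .w) 0 = 1 := by norm_num [NUSp.qc]
        rw [this]
        linarith
    · rw [e, h1]
      have : max (-(if a = (g i).σ then NUSp.qc .d else -NUSp.qc .d)) 0 = 0 := by
        split_ifs <;> simp [NUSp.qc]
      rw [this]
      split_ifs
      · simp
      · have : 0 ≤ min (max (|t| - T) 0) x := hm.trans hm2
        linarith
    · rw [exc_of_le h1]
      have h3 : min (max (|t| - T) 0) (0:ℝ) = 0 := min_eq_right (le_max_right _ _)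
      rw [h3, mul_zero]
      split_ifs
      · exact le_rfl
      · have : 0 ≤ min (max (|t| - T) 0) x := hm.trans hm2
        linarith
  have hs : ∑ i, (if a = (g i).σ then (0:ℝ) else 2 * min (max (|t| - T) 0) x) ≤
      2 * min (max (|t| - T) 0) x := by
    have hm : 0 ≤ 2 * min (max (|t| - T) 0) x :=
      mul_nonneg zero_le_two (le_min (le_max_right _ _) hx0)
    by_cases h0 : ∃ i, a ≠ (g i).σ
    · obtain ⟨i0, hi0⟩ := h0
      rw [Finset.sum_eq_single i0]
      · rw [if_neg hi0]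
      · intro i _ hi
        rw [if_pos]
        by_contra h1
        refine hσ i i0 hi ?_
        revert h1 hi0
        cases a <;> cases (g i).σ <;> cases (g i0).σ <;> simp
      · intro h1
        exact absurd (Finset.mem_univ i0) h1
    · push Not at h0
      rw [Finset.sum_eq_zero fun i _ => if_pos (h0 i)]
      exact hm
  rw [DD_sum, DD_sum (fun i => (g i).pin T)]
  unfold cstF BF
  have hsum := Finset.sum_le_sum fun i (_ : i ∈ Finset.univ) => key i
  rw [Finset.sum_add_distrib, Finset.sum_add_distrib, Finset.sum_add_distrib,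
    Finset.sum_add_distrib] at hsum
  have e9 : ∑ _i : Fin n, (if |t| ≤ T then (0:ℝ) else kfar (1 / 4) (NUMF.l / 5)) =
      if |t| ≤ T then 0 else n * kfar (1 / 4) (NUMF.l / 5) := by
    rw [Finset.sum_const, Finset.card_univ, Fintype.card_fin, nsmul_eq_mul]
    split_ifs <;> simp
  rw [e9] at hsum
  linarith

/-! ### the remainders -/

theorem hasDerivAt_BF (a : Bool) (hζ : Pth (NUMF.l / 5) T K ζ ζ') (t : ℝ) :
    HasDerivAt (BF T g ζ a) (BF1 T g ζ ζ' a t) t := by
  have hl := NUMF.l_pos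
  exact HasDerivAt.fun_sum fun i _ => hasDerivAt_remG (by positivity) l5 (g i).away (g i).c a
    (g i).σ hζ t

theorem cont_BF (a : Bool) (hζ : Pth (NUMF.l / 5) T K ζ ζ') : Continuous (BF T g ζ a) :=
  continuous_iff_continuousAt.2 fun t => (hasDerivAt_BF g a hζ t).continuousAt

theorem cont_BF1 (a : Bool) (hζ : Pth (NUMF.l / 5) T K ζ ζ') : Continuous (BF1 T g ζ ζ' a) := by
  have hl := NUMF.l_pos
  exact continuous_finsetSum _ fun i _ => continuous_remG1 (by positivity) l5 (g i).away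
    (g i).c a (g i).σ hζ

/-- **size and energy of the remainders**, `Kc` depends on the slope of the path -/
theorem exists_BF {K : ℝ} (hK0 : 0 ≤ K) : ∃ Kc : ℝ, 1 ≤ Kc ∧ ∀ (n : ℕ) (g : Fin n → Gd) (T : ℝ)
    (ζ ζ' : ℝ → ℂ), 0 ≤ T → Pth (NUMF.l / 5) T K ζ ζ' →
    (∀ (a : Bool) (t : ℝ), HasDerivAt (BF T g ζ a) (BF1 T g ζ ζ' a t) t) ∧
    (∀ a, Continuous (BF1 T g ζ ζ' a)) ∧
    (∀ (a : Bool) (t : ℝ), |BF T g ζ a t| ≤
      Kc * ∑ i, Real.exp (-2 * |t - NUSp.pin T (g i).τ|)) ∧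
    (∀ (a : Bool) (t : ℝ), |BF1 T g ζ ζ' a t| ≤
      Kc * ∑ i, Real.exp (-2 * |t - NUSp.pin T (g i).τ|)) ∧
    (∀ (a : Bool) (t : ℝ), |BF T g ζ a t| ≤ Kc * n) ∧
    ∀ (a : Bool) (y : ℝ), 0 ≤ y →
      ∫ t in (-y)..y, (BF T g ζ a t ^ 2 + BF1 T g ζ ζ' a t ^ 2) ≤ (Kc * n) ^ 2 := by
  have hl := NUMF.l_pos
  have k1 : 0 ≤ kr (1 / 4) (NUMF.l / 5) := rc_nonneg (kk_nonneg _ _)
  have k2 : 0 ≤ kr1 (1 / 4) (NUMF.l / 5) K := by
    unfold kr1 rc1
    have := stD_one
    have := rc_nonneg (c := 3) (kk_nonneg (1 / 4) (NUMF.l / 5))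
    positivity
  refine ⟨1 + 2 * kr (1 / 4) (NUMF.l / 5) + 2 * kr1 (1 / 4) (NUMF.l / 5) K, by linarith, ?_⟩
  intro n g T ζ ζ' hT hζ
  obtain ⟨Kc, hK⟩ : ∃ Kc : ℝ, Kc = 1 + 2 * kr (1 / 4) (NUMF.l / 5) + 2 * kr1 (1 / 4) (NUMF.l / 5) K :=
    ⟨_, rfl⟩
  rw [← hK]
  have hK1 : 2 * kr (1 / 4) (NUMF.l / 5) ≤ Kc := by rw [hK]; linarith
  have hK2 : 2 * kr1 (1 / 4) (NUMF.l / 5) K ≤ Kc := by rw [hK]; linarith
  have hK0' : 0 ≤ Kc := by linarith
  have b1 : ∀ (i : Fin n) (a : Bool) (t : ℝ), |remG T (g i).c a (g i).σ (g i).w ζ t| ≤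
      Kc / 2 * Real.exp (-2 * |t - NUSp.pin T (g i).τ|) := by
    intro i a t
    have h := remG_le (w := (g i).w) (by positivity) l5 (by norm_num)
      (g i).away hT (g i).c a (g i).σ hζ t
    rw [Gd.im] at h
    exact h.trans (mul_le_mul_of_nonneg_right (by linarith) (Real.exp_pos _).le)
  have b2 : ∀ (i : Fin n) (a : Bool) (t : ℝ), |remG1 T (g i).c a (g i).σ (g i).w ζ ζ' t| ≤
      Kc / 2 * Real.exp (-2 * |t - NUSp.pin T (g i).τ|) := by
    intro i a t
    have h := remG1_le (w := (g i).w) (by positivity) l5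
      (by norm_num) (g i).away hT (g i).c a (g i).σ hζ hK0 t
    rw [Gd.im] at h
    exact h.trans (mul_le_mul_of_nonneg_right (by linarith) (Real.exp_pos _).le)
  have hdr : ∀ (i : Fin n) (a : Bool), Continuous fun t => remG T (g i).c a (g i).σ (g i).w ζ t :=
    fun i a => continuous_iff_continuousAt.2 fun t => (hasDerivAt_remG (by positivity) l5
      (g i).away (g i).c a (g i).σ hζ t).continuousAt
  have hcr : ∀ (i : Fin n) (a : Bool), Continuous fun t =>
      remG1 T (g i).c a (g i).σ (g i).w ζ ζ' t := fun i a =>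
    continuous_remG1 (by positivity) l5 (g i).away (g i).c a (g i).σ hζ
  have s1 : ∀ (a : Bool) (t : ℝ), |BF T g ζ a t| ≤
      Kc / 2 * ∑ i, Real.exp (-2 * |t - NUSp.pin T (g i).τ|) := fun a t => by
    rw [Finset.mul_sum]
    exact (Finset.abs_sum_le_sum_abs _ _).trans (Finset.sum_le_sum fun i _ => b1 i a t)
  have s2 : ∀ (a : Bool) (t : ℝ), |BF1 T g ζ ζ' a t| ≤
      Kc / 2 * ∑ i, Real.exp (-2 * |t - NUSp.pin T (g i).τ|) := fun a t => by
    rw [Finset.mul_sum]
    exact (Finset.abs_sum_le_sum_abs _ _).trans (Finset.sum_le_sum fun i _ => b2 i a t)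
  have hE : ∀ t, 0 ≤ ∑ i, Real.exp (-2 * |t - NUSp.pin T (g i).τ|) := fun t =>
    Finset.sum_nonneg fun _ _ => (Real.exp_pos _).le
  refine ⟨fun a t => hasDerivAt_BF g a hζ t, fun a => cont_BF1 g a hζ,
    fun a t => (s1 a t).trans (mul_le_mul_of_nonneg_right (by linarith) (hE t)),
    fun a t => (s2 a t).trans (mul_le_mul_of_nonneg_right (by linarith) (hE t)),
    fun a t => (s1 a t).trans ?_, fun a y hy => ?_⟩
  · have h1 : ∑ i, Real.exp (-2 * |t - NUSp.pin T (g i).τ|) ≤ n := by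
      refine (Finset.sum_le_card_nsmul _ _ 1 fun i _ => ?_).trans (by simp)
      rw [Real.exp_le_one_iff]
      have := abs_nonneg (t - NUSp.pin T (g i).τ)
      linarith
    have := hE t
    nlinarith
  · have hle : -y ≤ y := by linarith
    have pt : ∀ t, BF T g ζ a t ^ 2 + BF1 T g ζ ζ' a t ^ 2 ≤
        n * ∑ i, (remG T (g i).c a (g i).σ (g i).w ζ t ^ 2 +
          remG1 T (g i).c a (g i).σ (g i).w ζ ζ' t ^ 2) := by
      intro t
      have c1 := sq_sum_le_card_mul_sum_sq (s := (Finset.univ : Finset (Fin n)))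
        (f := fun i => remG T (g i).c a (g i).σ (g i).w ζ t)
      have c2 := sq_sum_le_card_mul_sum_sq (s := (Finset.univ : Finset (Fin n)))
        (f := fun i => remG1 T (g i).c a (g i).σ (g i).w ζ ζ' t)
      rw [Finset.card_univ, Fintype.card_fin] at c1 c2
      rw [Finset.sum_add_distrib, mul_add]
      exact add_le_add c1 c2
    have j1 : Continuous (BF T g ζ a) := continuous_finsetSum _ fun i _ => hdr i a
    have j2 : Continuous (BF1 T g ζ ζ' a) := continuous_finsetSum _ fun i _ => hcr i a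
    have j3 : ∀ i : Fin n, IntervalIntegrable (fun t => remG T (g i).c a (g i).σ (g i).w ζ t ^ 2 +
        remG1 T (g i).c a (g i).σ (g i).w ζ ζ' t ^ 2) volume (-y) y := fun i =>
      (((hdr i a).pow 2).add ((hcr i a).pow 2)).intervalIntegrable _ _
    refine (intervalIntegral.integral_mono_on hle
      (((j1.pow 2).add (j2.pow 2)).intervalIntegrable _ _)
      ((Continuous.intervalIntegrable (by
        exact continuous_const.mul (continuous_finsetSum _ fun i _ =>
          ((hdr i a).pow 2).add ((hcr i a).pow 2))) _ _)) fun t _ => pt t).trans ?_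
    rw [intervalIntegral.integral_const_mul, intervalIntegral.integral_finsetSum fun i _ => j3 i]
    have h4 : ∀ i : Fin n, ∫ t in (-y)..y, (remG T (g i).c a (g i).σ (g i).w ζ t ^ 2 +
        remG1 T (g i).c a (g i).σ (g i).w ζ ζ' t ^ 2) ≤ Kc ^ 2 := by
      intro i
      have i1 : IntervalIntegrable (fun t => remG T (g i).c a (g i).σ (g i).w ζ t ^ 2) volume (-y) y :=
        ((hdr i a).pow 2).intervalIntegrable _ _
      have i2 : IntervalIntegrable (fun t => remG1 T (g i).c a (g i).σ (g i).w ζ ζ' t ^ 2) volume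
        (-y) y := ((hcr i a).pow 2).intervalIntegrable _ _
      rw [intervalIntegral.integral_add i1 i2]
      have e1 := NUSea.PLX.H0.en_prof (hdr i a) hy (b1 i a)
      have e2 := NUSea.PLX.H0.en_prof (hcr i a) hy (b2 i a)
      nlinarith [sq_nonneg Kc]
    have h5 := Finset.sum_le_card_nsmul Finset.univ _ _ fun i _ => h4 i
    rw [Finset.card_univ, Fintype.card_fin, nsmul_eq_mul] at h5
    have hn : (0:ℝ) ≤ n := Nat.cast_nonneg n
    calc _ ≤ (n:ℝ) * (n * Kc ^ 2) := mul_le_mul_of_nonneg_left h5 hn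
      _ = _ := by ring

/-- **pointwise domination of the true factors** -/
theorem dom_fam {g : Fin n → Gd} {T1 x : ℝ} (hF : FamOk T1 x g) (hT : 0 ≤ T1) (p q : ℂ) (a : Bool)
    (hζ : Pth (NUMF.l / 5) T1 K ζ ζ') (t : ℝ) :
    Real.exp (DD p q (List.ofFn fun i => (g i).G) a (ζ t)).re ≤
      Real.exp (cstF T1 g a) * (Real.exp ((DD p q (List.ofFn fun i => (gP T1 g i).G) a
        (ζ t)).re + BF T1 g ζ a t) * hfar (CcF n) T1 x t) := by
  have h := fam_up g p q hT hF.cl hF.sp hF.x0 hF.ex a hζ t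
  have hg : (fun i => (gP T1 g i).G) = fun i => ((g i).pin T1).G := rfl
  rw [hg]
  by_cases ht : |t| ≤ T1
  · rw [if_pos ht, max_eq_right (by linarith), min_eq_left hF.x0] at h
    unfold hfar
    rw [if_pos ht, mul_one, ← Real.exp_add]
    exact Real.exp_le_exp.2 (by linarith)
  · rw [if_neg ht, max_eq_left (by linarith)] at h
    unfold hfar
    rw [if_neg ht, CcF, ← Real.exp_add, ← Real.exp_add, ← Real.exp_add]
    exact Real.exp_le_exp.2 (by linarith)

end

end PLT.Sp
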