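import Mathlib

/-!
# The density of a mixture of rows at complex heights: its zeros

`hh w = cos w / (4 cos w ^ 2 - 1)` (`w = π (a + x + i t) / 3`: offset `a`, row at `x`, height `t`).  For
nonnegative weights `p i` and real shifts `c i`:
* `re_pos`: the real part is positive if all `|Re z + c i| < π / 3`;
* `im_pos`, `im_neg`: the imaginary part has the sign of `Im z` if all `Re z + c i` are in `[0, π)`;
* `hh_mono`: the real function is strictly increasing between its poles in `[0, π)`.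

`pm p q r α z = p hh z + q hh (z - α) + r hh (z + π / 3 - α)`: rows at `0`, `- y0`, `y1 = 1 - y0`.
-/

set_option autoImplicit false

noncomputable section

open Complex Set Filter Topology

namespace PLT.PZ

/-- the density of one row -/
def hh (w : ℂ) : ℂ := cos w / (4 * cos w ^ 2 - 1)

theorem hh_neg (w : ℂ) : hh (-w) = hh w := by
  unfold hh
  rw [Complex.cos_neg]

/-- decomposition -/
theorem hh_eq {w : ℂ} (h1 : 2 * cos w - 1 ≠ 0) (h2 : 2 * cos w + 1 ≠ 0) :
    hh w = (1 / 4) * ((2 * cos w - 1)⁻¹ + (2 * cos w + 1)⁻¹) := by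
  unfold hh
  have h3 : 4 * cos w ^ 2 - 1 = (2 * cos w - 1) * (2 * cos w + 1) := by ring
  rw [h3, inv_add_inv h1 h2]
  ring

theorem cos_re (w : ℂ) : (cos w).re = Real.cos w.re * Real.cosh w.im := by
  rw [Complex.cos_eq w]
  simp [Complex.cos_ofReal_re, Complex.cosh_ofReal_re, Complex.sin_ofReal_im,
    Complex.sinh_ofReal_im, Complex.cos_ofReal_im, Complex.cosh_ofReal_im]

theorem cos_im (w : ℂ) : (cos w).im = -(Real.sin w.re * Real.sinh w.im) := by
  rw [Complex.cos_eq w]
  simp [Complex.cos_ofReal_re, Complex.cosh_ofReal_re, Complex.sin_ofReal_im,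
    Complex.sinh_ofReal_im, Complex.cos_ofReal_im, Complex.cosh_ofReal_im, Complex.sin_ofReal_re,
    Complex.sinh_ofReal_re]

/-- real part of the inverse -/
theorem inv_re' (z : ℂ) : (z⁻¹).re = z.re / normSq z := Complex.inv_re z

theorem inv_im' (z : ℂ) : (z⁻¹).im = -z.im / normSq z := Complex.inv_im z

/-- the real part in the strip `|Re w| < π / 3` -/
theorem hh_re_pos {w : ℂ} (h : |w.re| < Real.pi / 3) : 0 < (hh w).re := by
  have hc : 1 / 2 < Real.cos w.re := by
    rw [← Real.cos_pi_div_three, ← Real.cos_abs w.re]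
    refine Real.cos_lt_cos_of_nonneg_of_le_pi_div_two (abs_nonneg _) ?_ h
    linarith [Real.pi_pos]
  have hC : 1 ≤ Real.cosh w.im := Real.one_le_cosh _
  have h1 : 1 / 2 < (cos w).re := by
    rw [cos_re]
    nlinarith
  have r1 : 0 < (2 * cos w - 1).re := by
    simp
    linarith
  have r2 : 0 < (2 * cos w + 1).re := by
    simp
    linarith
  have n1 : 2 * cos w - 1 ≠ 0 := fun e => by rw [e] at r1; simp at r1
  have n2 : 2 * cos w + 1 ≠ 0 := fun e => by rw [e] at r2; simp at r2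
  rw [hh_eq n1 n2]
  have e : ((1 / 4 : ℂ) * ((2 * cos w - 1)⁻¹ + (2 * cos w + 1)⁻¹)).re =
      1 / 4 * ((2 * cos w - 1).re / normSq (2 * cos w - 1) +
        (2 * cos w + 1).re / normSq (2 * cos w + 1)) := by
    rw [← inv_re', ← inv_re', ← add_re]
    have : (1 / 4 : ℂ) = ((1 / 4 : ℝ) : ℂ) := by push_cast; rfl
    rw [this, re_ofReal_mul]
  rw [e]
  have s1 := normSq_pos.2 n1
  have s2 := normSq_pos.2 n2
  positivity

/-- no pole off the axis -/
theorem ne_of_im {w : ℂ} (h1 : 0 < Real.sin w.re) (h2 : w.im ≠ 0) (e : ℂ) (he : e.im = 0) :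
    2 * cos w + e ≠ 0 := by
  intro h
  have h3 := congrArg Complex.im h
  have h4 : (2 * cos w + e).im = 2 * (cos w).im := by
    simp [he]
  rw [h4, cos_im, Complex.zero_im] at h3
  have h5 : Real.sinh w.im ≠ 0 := fun h6 => h2 (Real.sinh_eq_zero.1 h6)
  have h6 := mul_ne_zero h1.ne' h5
  apply h6
  linarith

/-- the imaginary part for `0 < Re w < π` off the axis -/
theorem hh_im_eq {w : ℂ} (h1 : 0 < Real.sin w.re) (h2 : w.im ≠ 0) :
    ∃ K : ℝ, 0 < K ∧ (hh w).im = K * (Real.sin w.re * Real.sinh w.im) := by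
  have n1 : 2 * cos w - 1 ≠ 0 := by
    have := ne_of_im h1 h2 (-1) (by simp)
    rwa [← sub_eq_add_neg] at this
  have n2 : 2 * cos w + 1 ≠ 0 := ne_of_im h1 h2 1 (by simp)
  have s1 := normSq_pos.2 n1
  have s2 := normSq_pos.2 n2
  refine ⟨1 / 2 * ((normSq (2 * cos w - 1))⁻¹ + (normSq (2 * cos w + 1))⁻¹), by positivity, ?_⟩
  rw [hh_eq n1 n2]
  have e : ((1 / 4 : ℂ) * ((2 * cos w - 1)⁻¹ + (2 * cos w + 1)⁻¹)).im =
      1 / 4 * (-(2 * cos w - 1).im / normSq (2 * cos w - 1) +
        -(2 * cos w + 1).im / normSq (2 * cos w + 1)) := by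
    rw [← inv_im', ← inv_im', ← add_im]
    have : (1 / 4 : ℂ) = ((1 / 4 : ℝ) : ℂ) := by push_cast; rfl
    rw [this, im_ofReal_mul]
  rw [e]
  have e1 : (2 * cos w - 1).im = -(2 * (Real.sin w.re * Real.sinh w.im)) := by
    have : (2 * cos w - 1).im = 2 * (cos w).im := by simp
    rw [this, cos_im]
    ring
  have e2 : (2 * cos w + 1).im = -(2 * (Real.sin w.re * Real.sinh w.im)) := by
    have : (2 * cos w + 1).im = 2 * (cos w).im := by simp
    rw [this, cos_im]
    ring
  rw [e1, e2]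
  field_simp
  ring

/-- at `Re w = 0` the function is real -/
theorem hh_im_zero {w : ℂ} (h : w.re = 0) : (hh w).im = 0 := by
  have h1 : cos w = ((Real.cosh w.im : ℝ) : ℂ) := by
    apply Complex.ext
    · rw [cos_re, h]; simp
    · rw [cos_im, h]; simp
  unfold hh
  rw [h1]
  have : ((Real.cosh w.im : ℝ) : ℂ) / (4 * ((Real.cosh w.im : ℝ) : ℂ) ^ 2 - 1) =
      ((Real.cosh w.im / (4 * Real.cosh w.im ^ 2 - 1) : ℝ) : ℂ) := by push_cast; rfl
  rw [this, ofReal_im]

/-- sign of the imaginary part in the upper half plane -/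
theorem hh_im_nonneg {w : ℂ} (h0 : 0 ≤ w.re) (h1 : w.re < Real.pi) (h2 : 0 < w.im) :
    0 ≤ (hh w).im := by
  rcases h0.eq_or_lt with h | h
  · rw [hh_im_zero h.symm]
  · have hs := Real.sin_pos_of_pos_of_lt_pi h h1
    obtain ⟨K, hK, e⟩ := hh_im_eq hs h2.ne'
    rw [e]
    have := Real.sinh_pos_iff.2 h2
    positivity

theorem hh_im_pos {w : ℂ} (h0 : 0 < w.re) (h1 : w.re < Real.pi) (h2 : 0 < w.im) :
    0 < (hh w).im := by
  have hs := Real.sin_pos_of_pos_of_lt_pi h0 h1
  obtain ⟨K, hK, e⟩ := hh_im_eq hs h2.ne'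
  rw [e]
  have := Real.sinh_pos_iff.2 h2
  positivity

theorem hh_conj (w : ℂ) : hh ((starRingEnd ℂ) w) = (starRingEnd ℂ) (hh w) := by
  unfold hh
  rw [Complex.cos_conj, map_div₀, map_sub, map_mul, map_pow, map_one, map_ofNat]

/-! ### the real axis -/

/-- the density of one row on the axis -/
def hr (u : ℝ) : ℝ := Real.cos u / (4 * Real.cos u ^ 2 - 1)

theorem hh_ofReal (u : ℝ) : hh (u : ℂ) = (hr u : ℂ) := by
  unfold hh hr
  push_cast
  rfl

theorem hr_deriv {u : ℝ} (h : 4 * Real.cos u ^ 2 - 1 ≠ 0) :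
    HasDerivAt hr (Real.sin u * (4 * Real.cos u ^ 2 + 1) / (4 * Real.cos u ^ 2 - 1) ^ 2) u := by
  have h1 := (Real.hasDerivAt_cos u).div
    (((Real.hasDerivAt_cos u).pow 2).const_mul 4 |>.sub_const 1) h
  refine h1.congr_deriv ?_
  simp only [Nat.cast_ofNat, Nat.add_one_sub_one, pow_one, Pi.pow_apply]
  congr 1
  ring

theorem hr_deriv_pos {u : ℝ} (h0 : 0 < u) (h1 : u < Real.pi) (h : 4 * Real.cos u ^ 2 - 1 ≠ 0) :
    0 < Real.sin u * (4 * Real.cos u ^ 2 + 1) / (4 * Real.cos u ^ 2 - 1) ^ 2 := by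
  have hs := Real.sin_pos_of_pos_of_lt_pi h0 h1
  have := sq_pos_of_ne_zero h
  positivity

theorem cos_gt_half {u : ℝ} (h : |u| < Real.pi / 3) : 1 / 2 < Real.cos u := by
  rw [← Real.cos_pi_div_three, ← Real.cos_abs u]
  refine Real.cos_lt_cos_of_nonneg_of_le_pi_div_two (abs_nonneg _) ?_ h
  linarith [Real.pi_pos]

theorem den_pos {u : ℝ} (h : |u| < Real.pi / 3) : 0 < 4 * Real.cos u ^ 2 - 1 := by
  have := cos_gt_half h
  nlinarith

theorem den_neg {u : ℝ} (h1 : Real.pi / 3 < u) (h2 : u < 2 * Real.pi / 3) :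
    4 * Real.cos u ^ 2 - 1 < 0 := by
  have hp := Real.pi_pos
  have a1 : Real.cos u < 1 / 2 := by
    rw [← Real.cos_pi_div_three]
    exact Real.cos_lt_cos_of_nonneg_of_le_pi (by linarith) (by linarith) h1
  have a2 : -(1 / 2) < Real.cos u := by
    have e : -(1 / 2 : ℝ) = Real.cos (2 * Real.pi / 3) := by
      rw [show 2 * Real.pi / 3 = Real.pi - Real.pi / 3 by ring, Real.cos_pi_sub,
        Real.cos_pi_div_three]
    rw [e]
    exact Real.cos_lt_cos_of_nonneg_of_le_pi (by linarith) (by linarith) h2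
  nlinarith

/-! ### the mixture -/

/-- the density of a mixture: `p` rows at `0`, `q` rows at `- y0`, `r` rows at `y1 = 1 - y0`,
`α = π y0 / 3` -/
def pm (p q r α : ℝ) (z : ℂ) : ℂ :=
  p * hh z + q * hh (z - α) + r * hh (z + ((Real.pi / 3 - α : ℝ) : ℂ))

variable {p q r α : ℝ}

theorem pm_conj (p q r α : ℝ) (z : ℂ) : pm p q r α ((starRingEnd ℂ) z) =
    (starRingEnd ℂ) (pm p q r α z) := by
  unfold pm
  rw [map_add, map_add, map_mul, map_mul, map_mul, conj_ofReal, conj_ofReal, conj_ofReal,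
    ← hh_conj, ← hh_conj, ← hh_conj, map_sub, map_add, conj_ofReal, conj_ofReal]

theorem re_lin (p q r : ℝ) (a b c : ℂ) : ((p : ℂ) * a + q * b + r * c).re =
    p * a.re + q * b.re + r * c.re := by
  rw [add_re, add_re, re_ofReal_mul, re_ofReal_mul, re_ofReal_mul]

theorem im_lin (p q r : ℝ) (a b c : ℂ) : ((p : ℂ) * a + q * b + r * c).im =
    p * a.im + q * b.im + r * c.im := by
  rw [add_im, add_im, im_ofReal_mul, im_ofReal_mul, im_ofReal_mul]

/-- **all rows at distance less than `1`: the real part is positive at all heights** -/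
theorem pm_re_pos (hp : 0 ≤ p) (hq : 0 ≤ q) (hr : 0 ≤ r) (hs : 0 < p + q + r) (h0 : 0 ≤ α)
    (hα : α < Real.pi / 3) {z : ℂ} (h1 : -(Real.pi / 3 - α) < z.re) (h2 : z.re < α) :
    0 < (pm p q r α z).re := by
  have hpi := Real.pi_pos
  unfold pm
  rw [re_lin]
  have a1 : 0 < (hh z).re := hh_re_pos (abs_lt.2 ⟨by linarith, by linarith⟩)
  have a2 : 0 < (hh (z - α)).re := by
    refine hh_re_pos (abs_lt.2 ⟨?_, ?_⟩) <;> simp only [sub_re, ofReal_re] <;> linarith
  have a3 : 0 < (hh (z + ((Real.pi / 3 - α : ℝ) : ℂ))).re := by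
    refine hh_re_pos (abs_lt.2 ⟨?_, ?_⟩) <;> simp only [add_re, ofReal_re] <;> linarith
  have b1 := mul_nonneg hp a1.le
  have b2 := mul_nonneg hq a2.le
  have b3 := mul_nonneg hr a3.le
  rcases hp.eq_or_lt with e | e
  · rcases hq.eq_or_lt with e' | e'
    · have : 0 < r := by linarith
      have := mul_pos this a3
      linarith
    · have := mul_pos e' a2
      linarith
  · have := mul_pos e a1
    linarith

/-- **right of the place `y0`, above the axis: the imaginary part is positive** -/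
theorem pm_im_pos (hp : 0 ≤ p) (hq : 0 ≤ q) (hr : 0 ≤ r) (hs : 0 < p + r) (h0 : 0 < α)
    (hα : α ≤ Real.pi / 3) {z : ℂ} (h1 : α ≤ z.re) (h2 : z.re < 2 * Real.pi / 3 + α)
    (h3 : 0 < z.im) : 0 < (pm p q r α z).im := by
  have hpi := Real.pi_pos
  unfold pm
  rw [im_lin]
  have a1 : 0 < (hh z).im ∨ Real.pi ≤ z.re := by
    rcases lt_or_ge z.re Real.pi with h | h
    · exact Or.inl (hh_im_pos (h0.trans_le h1) h h3)
    · exact Or.inr h
  have a1' : 0 < (hh z).im := by
    rcases a1 with h | h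
    · exact h
    · exfalso
      linarith
  have a2 : 0 ≤ (hh (z - α)).im := by
    refine hh_im_nonneg ?_ ?_ ?_ <;> simp only [sub_re, sub_im, ofReal_re, ofReal_im] <;> linarith
  have a3 : 0 < (hh (z + ((Real.pi / 3 - α : ℝ) : ℂ))).im := by
    refine hh_im_pos ?_ ?_ ?_ <;> simp only [add_re, add_im, ofReal_re, ofReal_im] <;> linarith
  have b1 := mul_nonneg hp a1'.le
  have b2 := mul_nonneg hq a2
  have b3 := mul_nonneg hr a3.le
  rcases hp.eq_or_lt with e | e
  · have : 0 < r := by linarith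
    have := mul_pos this a3
    linarith
  · have := mul_pos e a1'
    linarith

/-- no zero off the axis -/
theorem pm_ne_off (hp : 0 ≤ p) (hq : 0 ≤ q) (hr : 0 ≤ r) (hs : 0 < p + r) (h0 : 0 < α)
    (hα : α ≤ Real.pi / 3) {z : ℂ} (h1 : α ≤ z.re) (h2 : z.re < 2 * Real.pi / 3 + α)
    (h3 : z.im ≠ 0) : pm p q r α z ≠ 0 := by
  rcases lt_or_gt_of_ne h3 with h | h
  · intro e
    have h4 := pm_im_pos (z := (starRingEnd ℂ) z) hp hq hr hs h0 hα (by simpa using h1)
      (by simpa using h2) (by simpa using h)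
    rw [pm_conj, e] at h4
    simp at h4
  · intro e
    have h4 := pm_im_pos hp hq hr hs h0 hα h1 h2 h
    rw [e] at h4
    simp at h4

/-- the density on the axis -/
def pr (p q r α u : ℝ) : ℝ := p * hr u + q * hr (u - α) + r * hr (u + (Real.pi / 3 - α))

theorem pm_ofReal (p q r α u : ℝ) : pm p q r α (u : ℂ) = (pr p q r α u : ℂ) := by
  unfold pm pr
  rw [hh_ofReal, ← ofReal_sub, hh_ofReal, ← ofReal_add, hh_ofReal]
  push_cast
  rfl

/-- derivative on the axis, positive -/
theorem pr_deriv (hp : 0 ≤ p) (hq : 0 ≤ q) (hr0 : 0 ≤ r) (hs : 0 < p + q + r) (h0 : 0 < α)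
    {u : ℝ} (h1 : α < u) (h2 : u < Real.pi / 3) :
    ∃ D : ℝ, 0 < D ∧ HasDerivAt (pr p q r α) D u := by
  have hpi := Real.pi_pos
  have d1 : 4 * Real.cos u ^ 2 - 1 ≠ 0 := (den_pos (abs_lt.2 ⟨by linarith, h2⟩)).ne'
  have d2 : 4 * Real.cos (u - α) ^ 2 - 1 ≠ 0 :=
    (den_pos (abs_lt.2 ⟨by linarith, by linarith⟩)).ne'
  have d3 : 4 * Real.cos (u + (Real.pi / 3 - α)) ^ 2 - 1 ≠ 0 :=
    (den_neg (by linarith) (by linarith)).ne
  have e1 := hr_deriv d1
  have e2 := (hr_deriv d2).comp_sub_const u α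
  have e3 := (hr_deriv d3).comp_add_const u (Real.pi / 3 - α)
  have p1 := hr_deriv_pos (h0.trans h1) (by linarith) d1
  have p2 := hr_deriv_pos (u := u - α) (by linarith) (by linarith) d2
  have p3 := hr_deriv_pos (u := u + (Real.pi / 3 - α)) (by linarith) (by linarith) d3
  refine ⟨_, ?_, ((e1.const_mul p).add (e2.const_mul q)).add (e3.const_mul r)⟩
  have b1 := mul_nonneg hp p1.le
  have b2 := mul_nonneg hq p2.le
  have b3 := mul_nonneg hr0 p3.le
  rcases hp.eq_or_lt with e | e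
  · rcases hq.eq_or_lt with e' | e'
    · have : 0 < r := by linarith
      have := mul_pos this p3
      linarith
    · have := mul_pos e' p2
      linarith
  · have := mul_pos e p1
    linarith

/-- strictly increasing on the axis between the places `y0` and `1` -/
theorem pr_mono (hp : 0 ≤ p) (hq : 0 ≤ q) (hr0 : 0 ≤ r) (hs : 0 < p + q + r) (h0 : 0 < α) :
    StrictMonoOn (pr p q r α) (Ioo α (Real.pi / 3)) := by
  refine strictMonoOn_of_deriv_pos (convex_Ioo _ _) (fun u hu => ?_) fun u hu => ?_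
  · obtain ⟨D, _, h⟩ := pr_deriv hp hq hr0 hs h0 hu.1 hu.2
    exact h.continuousAt.continuousWithinAt
  · rw [interior_Ioo] at hu
    obtain ⟨D, hD, h⟩ := pr_deriv hp hq hr0 hs h0 hu.1 hu.2
    rw [h.deriv]
    exact hD

/-- **existence of the zero** for `p, r > 0` -/
theorem exists_zero (hp : 0 < p) (hr0 : 0 < r) (h0 : 0 < α) (hα : α < Real.pi / 3) (q : ℝ) :
    ∃ v ∈ Ioo α (Real.pi / 3), pr p q r α v = 0 := by
  have hpi := Real.pi_pos
  set β := Real.pi / 3 - α with hβ
  set F : ℝ → ℝ := fun u => p * Real.cos u * (4 * Real.cos (u + β) ^ 2 - 1) +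
    q * hr (u - α) * (4 * Real.cos u ^ 2 - 1) * (4 * Real.cos (u + β) ^ 2 - 1) +
    r * Real.cos (u + β) * (4 * Real.cos u ^ 2 - 1) with hF
  have hc : ContinuousOn F (Icc α (Real.pi / 3)) := by
    have h1 : ContinuousOn (fun u => hr (u - α)) (Icc α (Real.pi / 3)) := by
      intro u hu
      have d : 4 * Real.cos (u - α) ^ 2 - 1 ≠ 0 :=
        (den_pos (abs_lt.2 ⟨by linarith [hu.1], by linarith [hu.2]⟩)).ne'
      exact ((hr_deriv d).comp_sub_const u α).continuousAt.continuousWithinAt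
    rw [hF]
    fun_prop
  have ha : 4 * Real.cos α ^ 2 - 1 > 0 := den_pos (abs_lt.2 ⟨by linarith, hα⟩)
  have hA : F α > 0 := by
    simp only [hF]
    rw [show α + β = Real.pi / 3 by rw [hβ]; ring, Real.cos_pi_div_three]
    have : 0 < r * (1 / 2) * (4 * Real.cos α ^ 2 - 1) := by positivity
    linarith
  have hB : F (Real.pi / 3) < 0 := by
    simp only [hF]
    rw [Real.cos_pi_div_three]
    have h1 : 4 * Real.cos (Real.pi / 3 + β) ^ 2 - 1 < 0 := den_neg (by linarith) (by linarith)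
    have h2 : p * (1 / 2) * (4 * Real.cos (Real.pi / 3 + β) ^ 2 - 1) < 0 :=
      mul_neg_of_pos_of_neg (by positivity) h1
    linarith
  obtain ⟨v, hv, hv0⟩ := intermediate_value_Icc' hα.le hc ⟨hB.le, hA.le⟩
  have v1 : α < v := lt_of_le_of_ne hv.1 fun e => by
    rw [← e] at hv0
    linarith
  have v2 : v < Real.pi / 3 := lt_of_le_of_ne hv.2 fun e => by
    rw [e] at hv0
    linarith
  refine ⟨v, ⟨v1, v2⟩, ?_⟩
  have d1 : 4 * Real.cos v ^ 2 - 1 ≠ 0 := (den_pos (abs_lt.2 ⟨by linarith, v2⟩)).ne'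
  have d3 : 4 * Real.cos (v + β) ^ 2 - 1 ≠ 0 := (den_neg (by linarith) (by linarith)).ne
  have e : F v = pr p q r α v * ((4 * Real.cos v ^ 2 - 1) * (4 * Real.cos (v + β) ^ 2 - 1)) := by
    simp only [hF]
    unfold pr
    rw [← hβ]
    have e1 : hr v * (4 * Real.cos v ^ 2 - 1) = Real.cos v := div_mul_cancel₀ _ d1
    have e3 : hr (v + β) * (4 * Real.cos (v + β) ^ 2 - 1) = Real.cos (v + β) :=
      div_mul_cancel₀ _ d3
    linear_combination (-(p * (4 * Real.cos (v + β) ^ 2 - 1))) * e1 +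
      (-(r * (4 * Real.cos v ^ 2 - 1))) * e3
  rw [e] at hv0
  rcases mul_eq_zero.1 hv0 with h | h
  · exact h
  · exact absurd h (mul_ne_zero d1 d3)

/-- **The zero of the density of a mixture** (`p` rows at `0`, `q` at `- y0`, `r` at `y1 = 1 - y0`,
`α = π y0 / 3`), strip of the offsets `(- y1, 1)`: one zero, on the axis between `y0` and `1`. -/
theorem pm_zero (hp : 0 < p) (hq : 0 ≤ q) (hr0 : 0 < r) (h0 : 0 < α) (hα : α < Real.pi / 3) :
    ∃ v : ℝ, α < v ∧ v < Real.pi / 3 ∧ (∃ D : ℝ, 0 < D ∧ HasDerivAt (pr p q r α) D v) ∧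
      ∀ z : ℂ, -(Real.pi / 3 - α) < z.re → z.re < Real.pi / 3 → z ≠ α →
        (pm p q r α z = 0 ↔ z = v) := by
  have hpi := Real.pi_pos
  obtain ⟨v, hv, e⟩ := exists_zero hp hr0 h0 hα q
  refine ⟨v, hv.1, hv.2, pr_deriv hp.le hq hr0.le (by linarith) h0 hv.1 hv.2,
    fun z h1 h2 h3 => ⟨fun h => ?_, fun h => ?_⟩⟩
  · rcases lt_or_ge z.re α with h4 | h4
    · have := pm_re_pos hp.le hq hr0.le (by linarith) h0.le hα h1 h4
      rw [h] at this
      simp at this
    · by_cases h5 : z.im = 0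
      · have e1 : z = (z.re : ℂ) := Complex.ext (by simp) (by simp [h5])
        have h6 : α < z.re := lt_of_le_of_ne h4 fun e' => h3 (by rw [e1, ← e'])
        rw [e1, pm_ofReal] at h
        have h7 : pr p q r α z.re = 0 := by exact_mod_cast h
        have h8 := (pr_mono hp.le hq hr0.le (by linarith) h0).injOn ⟨h6, h2⟩ hv (h7.trans e.symm)
        rw [e1, h8]
      · exact absurd h (pm_ne_off hp.le hq hr0.le (by linarith) h0 hα.le h4 (by linarith) h5)
  · rw [h, pm_ofReal, e]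
    simp

/-- the same for `p = 0` if the value at the offset `1` is positive -/
theorem exists_zero0 (hr0 : 0 < r) (h0 : 0 < α) (hα : α < Real.pi / 3) (q : ℝ)
    (hS : 0 < pr 0 q r α (Real.pi / 3)) : ∃ v ∈ Ioo α (Real.pi / 3), pr 0 q r α v = 0 := by
  have hpi := Real.pi_pos
  set β := Real.pi / 3 - α with hβ
  set F : ℝ → ℝ := fun u => q * hr (u - α) * (4 * Real.cos (u + β) ^ 2 - 1) +
    r * Real.cos (u + β) with hF
  have e : ∀ v, 4 * Real.cos (v + β) ^ 2 - 1 ≠ 0 →
      F v = pr 0 q r α v * (4 * Real.cos (v + β) ^ 2 - 1) := by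
    intro v d3
    simp only [hF]
    unfold pr
    rw [← hβ]
    have e3 : hr (v + β) * (4 * Real.cos (v + β) ^ 2 - 1) = Real.cos (v + β) :=
      div_mul_cancel₀ _ d3
    linear_combination (-r) * e3
  have hc : ContinuousOn F (Icc α (Real.pi / 3)) := by
    have h1 : ContinuousOn (fun u => hr (u - α)) (Icc α (Real.pi / 3)) := by
      intro u hu
      have d : 4 * Real.cos (u - α) ^ 2 - 1 ≠ 0 :=
        (den_pos (abs_lt.2 ⟨by linarith [hu.1], by linarith [hu.2]⟩)).ne'
      exact ((hr_deriv d).comp_sub_const u α).continuousAt.continuousWithinAt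
    rw [hF]
    fun_prop
  have hA : F α > 0 := by
    simp only [hF]
    rw [show α + β = Real.pi / 3 by rw [hβ]; ring, Real.cos_pi_div_three]
    norm_num
    exact hr0
  have hB : F (Real.pi / 3) < 0 := by
    have h1 : 4 * Real.cos (Real.pi / 3 + β) ^ 2 - 1 < 0 := den_neg (by linarith) (by linarith)
    rw [e _ h1.ne]
    exact mul_neg_of_pos_of_neg hS h1
  obtain ⟨v, hv, hv0⟩ := intermediate_value_Icc' hα.le hc ⟨hB.le, hA.le⟩
  have v1 : α < v := lt_of_le_of_ne hv.1 fun e => by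
    rw [← e] at hv0
    linarith
  have v2 : v < Real.pi / 3 := lt_of_le_of_ne hv.2 fun e => by
    rw [e] at hv0
    linarith
  refine ⟨v, ⟨v1, v2⟩, ?_⟩
  have d3 : 4 * Real.cos (v + β) ^ 2 - 1 ≠ 0 := (den_neg (by linarith) (by linarith)).ne
  rw [e _ d3] at hv0
  rcases mul_eq_zero.1 hv0 with h | h
  · exact h
  · exact absurd h d3

/-- `p = 0`, value at the offset `1` not positive: no zero in the strip -/
theorem pm_ne0 (hq : 0 ≤ q) (hr0 : 0 < r) (h0 : 0 < α) (hα : α < Real.pi / 3)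
    (hS : pr 0 q r α (Real.pi / 3) ≤ 0) {z : ℂ} (h1 : -(Real.pi / 3 - α) < z.re)
    (h2 : z.re < Real.pi / 3) (h3 : z ≠ α) : pm 0 q r α z ≠ 0 := by
  have hpi := Real.pi_pos
  intro h
  rcases lt_or_ge z.re α with h4 | h4
  · have := pm_re_pos le_rfl hq hr0.le (by linarith) h0.le hα h1 h4
    rw [h] at this
    simp at this
  · by_cases h5 : z.im = 0
    · have e1 : z = (z.re : ℂ) := Complex.ext (by simp) (by simp [h5])
      have h6 : α < z.re := lt_of_le_of_ne h4 fun e' => h3 (by rw [e1, ← e'])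
      rw [e1, pm_ofReal] at h
      have h7 : pr 0 q r α z.re = 0 := by exact_mod_cast h
      -- strictly increasing up to the offset `1`
      have hmono : StrictMonoOn (pr 0 q r α) (Ioc α (Real.pi / 3)) := by
        have hd : ∀ u ∈ Ioc α (Real.pi / 3), ∃ D : ℝ, 0 < D ∧ HasDerivAt (pr 0 q r α) D u := by
          intro u hu
          have d2 : 4 * Real.cos (u - α) ^ 2 - 1 ≠ 0 :=
            (den_pos (abs_lt.2 ⟨by linarith [hu.1], by linarith [hu.2]⟩)).ne'
          have d3 : 4 * Real.cos (u + (Real.pi / 3 - α)) ^ 2 - 1 ≠ 0 :=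
            (den_neg (by linarith [hu.1]) (by linarith [hu.2])).ne
          have e2 := (hr_deriv d2).comp_sub_const u α
          have e3 := (hr_deriv d3).comp_add_const u (Real.pi / 3 - α)
          have p2 := hr_deriv_pos (u := u - α) (by linarith [hu.1]) (by linarith [hu.2]) d2
          have p3 := hr_deriv_pos (u := u + (Real.pi / 3 - α)) (by linarith [hu.1])
            (by linarith [hu.2]) d3
          refine ⟨_, ?_, ((e2.const_mul q).add (e3.const_mul r)).congr_of_eventuallyEq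
            (Eventually.of_forall fun x => ?_)⟩
          · have b2 := mul_nonneg hq p2.le
            have := mul_pos hr0 p3
            linarith
          · simp [pr]
        refine strictMonoOn_of_deriv_pos (convex_Ioc _ _) (fun u hu => ?_) fun u hu => ?_
        · obtain ⟨D, _, h⟩ := hd u hu
          exact h.continuousAt.continuousWithinAt
        · rw [interior_Ioc] at hu
          obtain ⟨D, hD, h⟩ := hd u ⟨hu.1, hu.2.le⟩
          rw [h.deriv]
          exact hD
      have h8 := hmono ⟨h6, h2.le⟩ ⟨hα, le_rfl⟩ h2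
      linarith
    · exact pm_ne_off le_rfl hq hr0.le (by linarith) h0 hα.le h4 (by linarith) h5 h

end PLT.PZ

end
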