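import Pool.Agent.DRX.GasA

/-!
# THETA, row T: the gas functional is a power series with nonnegative coefficients in `1 - Λ`

* `rho_nn`: the correlation functions `rho m θ` are real and nonnegative;
* `Fa a`: fields `a = 1 - Λ ≥ 0`; `Gp a = gas (1 - a)`, real;
* `gas_near`: `‖gas L - Gp a‖ ≤ Gp (a + d) - Gp a` if `‖(1 - L) - a‖ ≤ d`;
* `Gp_mono`, `Gp_one`, `Gp_scale`.
-/

set_option autoImplicit false

noncomputable section

open Complex MeasureTheory Filter Topology Finset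

namespace PLT.Nr

open DUA DRX

/-! ### positivity of the grid gas -/

/-- the partition function of real activities -/
def ZR (G : Finset ℝ) (r : ℝ → ℝ) : ℝ := ∑ T ∈ G.powerset, (∏ i ∈ T, r i) * pV V T

theorem Z_real (G : Finset ℝ) (r : ℝ → ℝ) : Z V G (fun b => (r b : ℂ)) = (ZR G r : ℂ) := by
  unfold Z ZR
  push_cast
  rfl

theorem kap_real (n : ℕ) (x : ℝ) : kap n * (x : ℂ) = ((-(z0 * (1 / n)) * x : ℝ) : ℂ) := by
  unfold kap
  push_cast
  ring

theorem ZR_cont (G : Finset ℝ) (f : ℝ → ℝ) : Continuous fun s : ℝ => ZR G (fun b => s * f b) := by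
  unfold ZR
  refine continuous_finsetSum _ fun T _ => ?_
  refine Continuous.mul ?_ continuous_const
  exact continuous_finsetProd _ fun i _ => continuous_id.mul continuous_const

theorem ZR_zero (G : Finset ℝ) (f : ℝ → ℝ) : ZR G (fun b => 0 * f b) = 1 := by
  unfold ZR
  rw [Finset.sum_eq_single ∅]
  · simp
  · intro T _ hT
    obtain ⟨i, hi⟩ := Finset.nonempty_of_ne_empty hT
    rw [Finset.prod_eq_zero hi (by simp), zero_mul]
  · intro h
    simp at h

theorem Z_ne' {n : ℕ} (hn : 20 ≤ n) {g : ℝ → ℂ} (hg : ∀ x, ‖g x‖ ≤ ‖kap n‖) : Z V (Gd n) g ≠ 0 := by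
  refine Z_ne V_even V_zero V_nonneg V_le_one (ξ := 7 / 2) (ρ := 9 / 10) (by norm_num) (by norm_num)
    (by norm_num) (Gd n) (fun a => ?_) fun a _ => ?_
  · refine le_trans (Real.exp_le_exp.2 ?_) (ks_cond hn a)
    refine mul_le_mul_of_nonneg_left (Finset.sum_le_sum fun s _ => ?_) (by norm_num)
    exact mul_le_mul_of_nonneg_right (hg s) (by linarith [V_le_one (a - s)])
  · have h0 := hg a
    rw [norm_kap] at h0
    have hn' : (20 : ℝ) ≤ n := by exact_mod_cast hn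
    have h1 : 1 / (n : ℝ) ≤ 1 := by rw [div_le_one (by linarith)]; linarith
    have h2 := z0_le
    have h3 := z0_pos
    have h4 : z0 * (1 / (n : ℝ)) ≤ z0 * 1 := mul_le_mul_of_nonneg_left h1 h3.le
    linarith

theorem Z_pos {n : ℕ} (hn : 20 ≤ n) {f : ℝ → ℝ} (h0 : ∀ x, 0 ≤ f x) (h1 : ∀ x, f x ≤ 1) :
    0 < ZR (Gd n) (fun b => -(z0 * (1 / n)) * f b) := by
  obtain ⟨F, hF⟩ : ∃ F : ℝ → ℝ, F = fun s : ℝ => ZR (Gd n) (fun b => s * (-(z0 * (1 / n)) * f b)) := ⟨_, rfl⟩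
  have hc : Continuous F := by rw [hF]; exact ZR_cont _ _
  have hF0 : F 0 = 1 := by rw [hF]; exact ZR_zero _ _
  have hF1 : F 1 = ZR (Gd n) (fun b => -(z0 * (1 / n)) * f b) := by
    rw [hF]
    simp only [one_mul]
  rw [← hF1]
  by_contra hcon
  push Not at hcon
  have hz := z0_pos
  obtain ⟨s, hs, hs0⟩ := intermediate_value_Icc' (zero_le_one (α := ℝ)) hc.continuousOn
    (show (0 : ℝ) ∈ Set.Icc (F 1) (F 0) from ⟨hcon, by rw [hF0]; exact zero_le_one⟩)
  have hne := Z_ne' hn (g := fun b => ((s * (-(z0 * (1 / n)) * f b) : ℝ) : ℂ)) (fun x => by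
    rw [norm_kap, Complex.norm_real, norm_mul, norm_mul, Real.norm_of_nonneg hs.1, norm_neg,
      Real.norm_of_nonneg (by positivity : 0 ≤ z0 * (1 / (n : ℝ))), Real.norm_of_nonneg (h0 x)]
    have h2 : 0 ≤ z0 * (1 / (n : ℝ)) := by positivity
    calc s * (z0 * (1 / (n : ℝ)) * f x) ≤ 1 * (z0 * (1 / (n : ℝ)) * 1) :=
          mul_le_mul hs.2 (mul_le_mul_of_nonneg_left (h1 x) h2) (mul_nonneg h2 (h0 x)) zero_le_one
      _ = _ := by ring)
  rw [Z_real] at hne
  apply hne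
  have : ZR (Gd n) (fun b => s * (-(z0 * (1 / n)) * f b)) = 0 := by
    have h3 := hs0
    rw [hF] at h3
    exact h3
  rw [this, Complex.ofReal_zero]

/-- real and nonnegative -/
def Nn (z : ℂ) : Prop := 0 ≤ z.re ∧ z.im = 0

theorem Nn_closed : IsClosed {z : ℂ | Nn z} := by
  have : {z : ℂ | Nn z} = {z : ℂ | 0 ≤ z.re} ∩ {z : ℂ | z.im = 0} := rfl
  rw [this]
  exact (isClosed_le continuous_const Complex.continuous_re).inter
    (isClosed_eq Complex.continuous_im continuous_const)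

theorem rr_Nn {n : ℕ} (hn : 20 ≤ n) (T : Finset ℝ) : Nn (rr V (Gd n) (fun _ => kap n) T) := by
  unfold rr
  have e1 : (fun b : ℝ => kap n * ((VT V T b : ℝ) : ℂ)) = fun b => ((-(z0 * (1 / n)) * VT V T b : ℝ) : ℂ) := by
    funext b
    exact kap_real n _
  have e2 : (fun _ : ℝ => kap n) = fun b : ℝ => ((-(z0 * (1 / n)) * (fun _ : ℝ => (1 : ℝ)) b : ℝ) : ℂ) := by
    funext b
    rw [← kap_real]
    simp
  rw [e1, Z_real, e2, Z_real, ← Complex.ofReal_mul, ← Complex.ofReal_div]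
  refine ⟨?_, Complex.ofReal_im _⟩
  rw [Complex.ofReal_re]
  refine div_nonneg (mul_nonneg (pV_nonneg V_nonneg T) (Z_pos hn (fun x => VT_nonneg V_nonneg T x)
    fun x => VT_le V_nonneg V_le_one T x).le) (Z_pos hn (fun _ => zero_le_one) fun _ => le_rfl).le

/-- **the correlation functions are nonnegative** -/
theorem rho_nn (m : ℕ) (θ : Fin m → ℝ) : Nn (rho m θ) := by
  refine Nn_closed.mem_of_tendsto (R20_lim kerH pfrS m θ (fun _ => θ) tendsto_const_nhds)
    (Eventually.of_forall fun n => ?_)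
  show Nn (R20 m n θ)
  unfold R20
  split_ifs with hn
  · by_cases hl : (List.ofFn θ).Nodup
    · rw [RR_eq n hl]
      exact rr_Nn hn _
    · rw [RR_zero n hl]
      exact ⟨le_rfl, rfl⟩
  · exact ⟨le_rfl, rfl⟩

/-- the correlation functions as real numbers -/
def rhr (m : ℕ) (θ : Fin m → ℝ) : ℝ := (rho m θ).re

theorem rho_eq (m : ℕ) (θ : Fin m → ℝ) : rho m θ = (rhr m θ : ℂ) := by
  unfold rhr
  refine Complex.ext ?_ ?_
  · rw [Complex.ofReal_re]
  · rw [Complex.ofReal_im]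
    exact (rho_nn m θ).2

theorem rhr_nonneg (m : ℕ) (θ : Fin m → ℝ) : 0 ≤ rhr m θ := (rho_nn m θ).1

theorem rhr_le (m : ℕ) (θ : Fin m → ℝ) : rhr m θ ≤ (7 / 2) ^ m := by
  have h := rho_bd m θ
  rwa [rho_eq, Complex.norm_real, Real.norm_of_nonneg (rhr_nonneg m θ)] at h

theorem rhr_cont (m : ℕ) : Continuous (rhr m) := Complex.continuous_re.comp (rho_co m)

/-! ### products -/

/-- difference of two products -/
theorem prod_near {ι : Type*} (s : Finset ι) {u : ι → ℂ} {a d : ι → ℝ} (ha : ∀ i ∈ s, 0 ≤ a i)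
    (h : ∀ i ∈ s, ‖u i - a i‖ ≤ d i) :
    ‖∏ i ∈ s, u i - ((∏ i ∈ s, a i : ℝ) : ℂ)‖ ≤ ∏ i ∈ s, (a i + d i) - ∏ i ∈ s, a i := by
  classical
  induction s using Finset.induction_on with
  | empty => simp
  | insert i s hi ih =>
    have ih' := ih (fun j hj => ha j (Finset.mem_insert_of_mem hj)) fun j hj => h j (Finset.mem_insert_of_mem hj)
    have hai := ha i (Finset.mem_insert_self i s)
    have hui := h i (Finset.mem_insert_self i s)
    have hd0 : 0 ≤ d i := (norm_nonneg _).trans hui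
    rw [Finset.prod_insert hi, Finset.prod_insert hi, Finset.prod_insert hi]
    have hP : 0 ≤ ∏ j ∈ s, a j := Finset.prod_nonneg fun j hj => ha j (Finset.mem_insert_of_mem hj)
    have hnu : ‖u i‖ ≤ a i + d i := by
      calc ‖u i‖ = ‖(u i - a i) + a i‖ := by congr 1; ring
        _ ≤ ‖u i - a i‖ + ‖(a i : ℂ)‖ := norm_add_le _ _
        _ ≤ d i + a i := by
            rw [Complex.norm_real, Real.norm_of_nonneg hai]
            linarith
        _ = _ := by ring
    have e : u i * ∏ j ∈ s, u j - ((a i * ∏ j ∈ s, a j : ℝ) : ℂ) =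
        u i * (∏ j ∈ s, u j - ((∏ j ∈ s, a j : ℝ) : ℂ)) + (u i - a i) * ((∏ j ∈ s, a j : ℝ) : ℂ) := by
      push_cast
      ring
    rw [e]
    refine (norm_add_le _ _).trans ?_
    rw [norm_mul, norm_mul, Complex.norm_real, Real.norm_of_nonneg hP]
    calc ‖u i‖ * ‖∏ j ∈ s, u j - ((∏ j ∈ s, a j : ℝ) : ℂ)‖ + ‖u i - a i‖ * ∏ j ∈ s, a j
        ≤ (a i + d i) * (∏ j ∈ s, (a j + d j) - ∏ j ∈ s, a j) + d i * ∏ j ∈ s, a j :=
          add_le_add (mul_le_mul hnu ih' (norm_nonneg _) (by linarith)) (mul_le_mul_of_nonneg_right hui hP)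
      _ = _ := by ring

/-! ### nonnegative fields -/

/-- the fields `1 - Λ` -/
structure Fa (a : ℝ → ℝ) : Prop where
  c : Continuous a
  nn : ∀ x, 0 ≤ a x
  b : ∃ A : ℝ, ∀ x, a x ≤ A * Real.exp (-|x|)

theorem Fa.add {a b : ℝ → ℝ} (ha : Fa a) (hb : Fa b) : Fa fun x => a x + b x := by
  obtain ⟨A, hA⟩ := ha.b
  obtain ⟨B, hB⟩ := hb.b
  exact ⟨ha.c.add hb.c, fun x => add_nonneg (ha.nn x) (hb.nn x), A + B, fun x => by
    rw [add_mul]; exact add_le_add (hA x) (hB x)⟩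

theorem Fa.smul {a : ℝ → ℝ} (ha : Fa a) {c : ℝ} (hc : 0 ≤ c) : Fa fun x => c * a x := by
  obtain ⟨A, hA⟩ := ha.b
  exact ⟨continuous_const.mul ha.c, fun x => mul_nonneg hc (ha.nn x), c * A, fun x => by
    rw [mul_assoc]; exact mul_le_mul_of_nonneg_left (hA x) hc⟩

theorem Fa.Kc {a : ℝ → ℝ} (ha : Fa a) : ∃ A : ℝ, (fun x => 1 - (a x : ℂ)) ∈ DRX.Kc A := by
  obtain ⟨A, hA⟩ := ha.b
  refine ⟨A, continuous_const.sub (Complex.continuous_ofReal.comp ha.c), fun x => ?_⟩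
  have e : (1 : ℂ) - (a x : ℂ) - 1 = -((a x : ℝ) : ℂ) := by ring
  rw [e, norm_neg, Complex.norm_real, Real.norm_of_nonneg (ha.nn x)]
  exact hA x

/-- the terms of the functional -/
def gR (a : ℝ → ℝ) (m : ℕ) : ℝ := 1 / (m.factorial : ℝ) * ∫ θ : Fin m → ℝ, (∏ i, z0 * a (θ i)) * rhr m θ

/-- **the functional** -/
def Gp (a : ℝ → ℝ) : ℝ := ∑' m, gR a m

theorem gg_fa (a : ℝ → ℝ) (x : ℝ) : gg (fun x => 1 - (a x : ℂ)) x = ((z0 * a x : ℝ) : ℂ) := by
  unfold gg
  push_cast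
  ring

theorem gterm_fa (a : ℝ → ℝ) (m : ℕ) : gterm (fun x => 1 - (a x : ℂ)) m = (gR a m : ℂ) := by
  rw [gterm_eq]
  unfold gR
  rw [Complex.ofReal_mul, ← integral_complex_ofReal]
  push_cast
  congr 1
  refine integral_congr_ae (Eventually.of_forall fun θ => ?_)
  simp only
  rw [rho_eq]
  congr 1
  refine Finset.prod_congr rfl fun i _ => ?_
  rw [gg_fa]
  push_cast
  rfl

theorem Fa.int {a : ℝ → ℝ} (ha : Fa a) (m : ℕ) : Integrable fun θ : Fin m → ℝ => (∏ i, z0 * a (θ i)) * rhr m θ := by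
  obtain ⟨A, hA⟩ := ha.Kc
  have h1 : Integrable fun θ : Fin m → ℝ => (∏ i, gg (fun x => 1 - (a x : ℂ)) (θ i)) * rho m θ := by
    refine ((GM_int A m).mul_const ((7 / 2) ^ m)).mono' (((prod_cont hA m).mul (rho_co m)).aestronglyMeasurable)
      (Eventually.of_forall fun θ => integrand_le hA m θ)
  have h2 := h1.re
  refine h2.congr (Eventually.of_forall fun θ => ?_)
  show RCLike.re ((∏ i, gg (fun x => 1 - (a x : ℂ)) (θ i)) * rho m θ) = _
  rw [rho_eq]
  have e : (∏ i, gg (fun x => 1 - (a x : ℂ)) (θ i)) = ((∏ i, z0 * a (θ i) : ℝ) : ℂ) := by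
    rw [Complex.ofReal_prod]
    exact Finset.prod_congr rfl fun i _ => gg_fa a _
  rw [e, ← Complex.ofReal_mul]
  exact Complex.ofReal_re _

theorem Fa.sum {a : ℝ → ℝ} (ha : Fa a) : Summable (gR a) := by
  obtain ⟨A, hA⟩ := ha.Kc
  have h1 : Summable (gterm fun x => 1 - (a x : ℂ)) := (gb_sum A).of_norm_bounded fun m => gterm_le hA m
  exact Complex.summable_ofReal.1 (h1.congr fun m => gterm_fa a m)

theorem gas_Gp {a : ℝ → ℝ} : gas (fun x => 1 - (a x : ℂ)) = (Gp a : ℂ) := by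
  unfold gas Gp
  rw [Complex.ofReal_tsum]
  exact tsum_congr fun m => gterm_fa a m

/-- monotone terms -/
theorem gR_mono {a b : ℝ → ℝ} (ha : Fa a) (hb : Fa b) (h : ∀ x, a x ≤ b x) (m : ℕ) : gR a m ≤ gR b m := by
  unfold gR
  refine mul_le_mul_of_nonneg_left (integral_mono (ha.int m) (hb.int m) fun θ => ?_) (by positivity)
  refine mul_le_mul_of_nonneg_right (Finset.prod_le_prod (fun i _ => mul_nonneg z0_pos.le (ha.nn _))
    fun i _ => mul_le_mul_of_nonneg_left (h _) z0_pos.le) (rhr_nonneg m θ)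

/-- **monotone** -/
theorem Gp_mono {a b : ℝ → ℝ} (ha : Fa a) (hb : Fa b) (h : ∀ x, a x ≤ b x) : Gp a ≤ Gp b :=
  ha.sum.tsum_le_tsum (gR_mono ha hb h) hb.sum

theorem gR_nonneg {a : ℝ → ℝ} (ha : Fa a) (m : ℕ) : 0 ≤ gR a m := by
  unfold gR
  refine mul_nonneg (by positivity) (integral_nonneg fun θ => mul_nonneg
    (Finset.prod_nonneg fun i _ => mul_nonneg z0_pos.le (ha.nn _)) (rhr_nonneg m θ))

theorem rhr_zero (θ : Fin 0 → ℝ) : rhr 0 θ = 1 := by
  unfold rhr rho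
  simp [prs, pf]

theorem gR_zero (a : ℝ → ℝ) : gR a 0 = 1 := by
  unfold gR
  have e : (fun θ : Fin 0 → ℝ => (∏ i, z0 * a (θ i)) * rhr 0 θ) = fun _ => (1 : ℝ) := by
    funext θ
    rw [rhr_zero]
    simp
  rw [e, integral_const, Measure.real, MeasureTheory.Measure.volume_pi_eq_dirac (fun i : Fin 0 => (0 : ℝ))]
  simp

theorem Gp_one {a : ℝ → ℝ} (ha : Fa a) : 1 ≤ Gp a := by
  have h := ha.sum.sum_le_tsum {0} fun m _ => gR_nonneg ha m
  rw [Finset.sum_singleton, gR_zero] at h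
  exact h

/-- **the comparison** -/
theorem gas_near {A : ℝ} {L : ℝ → ℂ} (hL : L ∈ DRX.Kc A) {a d : ℝ → ℝ} (ha : Fa a) (hd : Fa d)
    (h : ∀ x, ‖(1 - L x) - a x‖ ≤ d x) : ‖gas L - Gp a‖ ≤ Gp (fun x => a x + d x) - Gp a := by
  have hs : Fa fun x => a x + d x := ha.add hd
  have hLs : Summable (gterm L) := (gb_sum A).of_norm_bounded fun m => gterm_le hL m
  have hint : ∀ m, Integrable fun θ : Fin m → ℝ => (∏ i, gg L (θ i)) * rho m θ := fun m =>
    ((GM_int A m).mul_const ((7 / 2) ^ m)).mono' (((prod_cont hL m).mul (rho_co m)).aestronglyMeasurable)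
      (Eventually.of_forall fun θ => integrand_le hL m θ)
  have key : ∀ m, ‖gterm L m - gR a m‖ ≤ gR (fun x => a x + d x) m - gR a m := by
    intro m
    have e1 : gterm L m - (gR a m : ℂ) = (1 / (m.factorial : ℂ)) *
        ∫ θ : Fin m → ℝ, ((∏ i, gg L (θ i)) * rho m θ - (∏ i, gg (fun x => 1 - (a x : ℂ)) (θ i)) * rho m θ) := by
      obtain ⟨B, hB⟩ := ha.Kc
      rw [← gterm_fa, gterm_eq, gterm_eq, integral_sub (hint m), mul_sub]
      exact ((GM_int B m).mul_const ((7 / 2) ^ m)).mono' (((prod_cont hB m).mul (rho_co m)).aestronglyMeasurable)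
        (Eventually.of_forall fun θ => integrand_le hB m θ)
    have e2 : gR (fun x => a x + d x) m - gR a m = 1 / (m.factorial : ℝ) *
        ∫ θ : Fin m → ℝ, ((∏ i, z0 * (a (θ i) + d (θ i))) * rhr m θ - (∏ i, z0 * a (θ i)) * rhr m θ) := by
      unfold gR
      rw [integral_sub (hs.int m) (ha.int m), mul_sub]
    rw [e1, e2, norm_mul, norm_div, norm_one, Complex.norm_natCast]
    refine mul_le_mul_of_nonneg_left ?_ (by positivity)
    refine norm_integral_le_of_norm_le ((hs.int m).sub (ha.int m)) (Eventually.of_forall fun θ => ?_)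
    have e3 : (∏ i, gg (fun x => 1 - (a x : ℂ)) (θ i)) = ((∏ i, z0 * a (θ i) : ℝ) : ℂ) := by
      rw [Complex.ofReal_prod]
      exact Finset.prod_congr rfl fun i _ => gg_fa a _
    rw [← sub_mul, ← sub_mul, norm_mul, rho_eq, Complex.norm_real, Real.norm_of_nonneg (rhr_nonneg m θ), e3]
    refine mul_le_mul_of_nonneg_right ?_ (rhr_nonneg m θ)
    have h3 := prod_near (Finset.univ : Finset (Fin m)) (u := fun i => gg L (θ i)) (a := fun i => z0 * a (θ i))
      (d := fun i => z0 * d (θ i)) (fun i _ => mul_nonneg z0_pos.le (ha.nn _)) (fun i _ => by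
        have e4 : gg L (θ i) - ((z0 * a (θ i) : ℝ) : ℂ) = (z0 : ℂ) * ((1 - L (θ i)) - a (θ i)) := by
          unfold gg
          push_cast
          ring
        rw [e4, norm_mul, Complex.norm_real, Real.norm_of_nonneg z0_pos.le]
        exact mul_le_mul_of_nonneg_left (h _) z0_pos.le)
    refine h3.trans (le_of_eq ?_)
    congr 1
    exact Finset.prod_congr rfl fun i _ => by ring
  have e5 : gas L - Gp a = ∑' m, (gterm L m - gR a m) := by
    unfold gas Gp
    rw [Complex.ofReal_tsum, hLs.tsum_sub (Complex.summable_ofReal.2 ha.sum)]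
  have e6 : Gp (fun x => a x + d x) - Gp a = ∑' m, (gR (fun x => a x + d x) m - gR a m) := by
    unfold Gp
    rw [hs.sum.tsum_sub ha.sum]
  rw [e5, e6]
  exact tsum_of_norm_bounded (hs.sum.sub ha.sum).hasSum key

theorem pow_one_add {e : ℝ} (h0 : 0 ≤ e) (h1 : e ≤ 1) (m : ℕ) : (1 + e) ^ m ≤ 1 + e * (2 ^ m - 1) := by
  induction m with
  | zero => simp
  | succ m ih =>
    have h2 : (1 : ℝ) ≤ 2 ^ m := one_le_pow₀ (by norm_num)
    calc (1 + e) ^ (m + 1) = (1 + e) ^ m * (1 + e) := pow_succ _ _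
      _ ≤ (1 + e * (2 ^ m - 1)) * (1 + e) := mul_le_mul_of_nonneg_right ih (by linarith)
      _ ≤ 1 + e * (2 ^ (m + 1) - 1) := by
          rw [pow_succ]
          nlinarith [mul_nonneg h0 (sub_nonneg.2 h2)]

/-- the terms are bounded by the integral of the field -/
theorem gR_le {a : ℝ → ℝ} (ha : Fa a) {M : ℝ} (hM : ∫ x, a x ≤ M) (m : ℕ) :
    gR a m ≤ (z0 * (7 / 2) * M) ^ m / m.factorial := by
  have hai : Integrable a := by
    obtain ⟨A, hA⟩ := ha.b
    refine (int_e.const_mul A).mono' ha.c.aestronglyMeasurable (Eventually.of_forall fun x => ?_)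
    rw [Real.norm_of_nonneg (ha.nn x)]
    exact hA x
  have hI0 : 0 ≤ ∫ x, a x := integral_nonneg ha.nn
  have h1 : ∫ θ : Fin m → ℝ, (∏ i, z0 * a (θ i)) * rhr m θ ≤ (z0 * (7 / 2) * ∫ x, a x) ^ m := by
    have h2 : Integrable fun θ : Fin m → ℝ => ∏ i, z0 * a (θ i) :=
      Integrable.fintype_prod (f := fun _ x => z0 * a x) fun _ => hai.const_mul _
    have h3 : ∫ θ : Fin m → ℝ, ∏ i, z0 * a (θ i) = (z0 * ∫ x, a x) ^ m := by
      rw [integral_fintype_prod_volume_eq_pow (fun x : ℝ => z0 * a x), Fintype.card_fin, integral_const_mul]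
    calc ∫ θ : Fin m → ℝ, (∏ i, z0 * a (θ i)) * rhr m θ
        ≤ ∫ θ : Fin m → ℝ, (∏ i, z0 * a (θ i)) * (7 / 2) ^ m := by
          refine integral_mono (ha.int m) (h2.mul_const _) fun θ => ?_
          exact mul_le_mul_of_nonneg_left (rhr_le m θ)
            (Finset.prod_nonneg fun i _ => mul_nonneg z0_pos.le (ha.nn _))
      _ = (z0 * (7 / 2) * ∫ x, a x) ^ m := by
          rw [integral_mul_const, h3, ← mul_pow]
          congr 1
          ring
  unfold gR
  rw [one_div, inv_mul_eq_div]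
  refine div_le_div_of_nonneg_right (h1.trans ?_) (by positivity)
  have hz := z0_pos
  exact pow_le_pow_left₀ (by positivity) (mul_le_mul_of_nonneg_left hM (by positivity)) m

/-- **a small dilation of the field** -/
theorem Gp_scale {a : ℝ → ℝ} (ha : Fa a) {M e : ℝ} (hM : ∫ x, a x ≤ M) (h0 : 0 ≤ e) (h1 : e ≤ 1) :
    Gp (fun x => (1 + e) * a x) ≤ Gp a + e * Real.exp (2 * (z0 * (7 / 2) * M)) := by
  have hs : Fa fun x => (1 + e) * a x := ha.smul (by linarith)
  have e1 : ∀ m, gR (fun x => (1 + e) * a x) m = (1 + e) ^ m * gR a m := by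
    intro m
    unfold gR
    have : (fun θ : Fin m → ℝ => (∏ i, z0 * ((1 + e) * a (θ i))) * rhr m θ) =
        fun θ => (1 + e) ^ m * ((∏ i, z0 * a (θ i)) * rhr m θ) := by
      funext θ
      have e2 : ∏ i, z0 * ((1 + e) * a (θ i)) = ∏ i : Fin m, (1 + e) * (z0 * a (θ i)) :=
        Finset.prod_congr rfl fun i _ => by ring
      rw [e2, Finset.prod_mul_distrib, Finset.prod_const, Finset.card_univ, Fintype.card_fin]
      ring
    rw [this, integral_const_mul]
    ring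
  have hx : Summable fun m : ℕ => e * ((2 * (z0 * (7 / 2) * M)) ^ m / m.factorial) :=
    (Real.summable_pow_div_factorial _).mul_left e
  have key : ∀ m, gR (fun x => (1 + e) * a x) m ≤ gR a m + e * ((2 * (z0 * (7 / 2) * M)) ^ m / m.factorial) := by
    intro m
    rw [e1]
    have h2 := pow_one_add h0 h1 m
    have h3 := gR_nonneg ha m
    have h4 := gR_le ha hM m
    have h5 : (1 : ℝ) ≤ 2 ^ m := one_le_pow₀ (by norm_num)
    calc (1 + e) ^ m * gR a m ≤ (1 + e * (2 ^ m - 1)) * gR a m := mul_le_mul_of_nonneg_right h2 h3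
      _ ≤ gR a m + e * (2 ^ m * gR a m) := by nlinarith [mul_nonneg h0 h3]
      _ ≤ gR a m + e * (2 ^ m * ((z0 * (7 / 2) * M) ^ m / m.factorial)) := by
          refine add_le_add le_rfl (mul_le_mul_of_nonneg_left (mul_le_mul_of_nonneg_left h4 (by linarith)) h0)
      _ = _ := by rw [mul_pow 2]; ring
  have h6 := hs.sum.tsum_le_tsum key (ha.sum.add hx)
  rw [(ha.sum).tsum_add hx, tsum_mul_left] at h6
  refine h6.trans (le_of_eq ?_)
  unfold Gp
  congr 2
  rw [Real.exp_eq_exp_ℝ, NormedSpace.exp_eq_tsum_div]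

end PLT.Nr

end
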