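import Pool.Agent.NUP1.Cutoff

/-!
# The cutoff at rows of a direction: modulus of `psi` at any offset

`z = (1 - d) l + i t` (`d` = offset of the quantum + place of the row), `rho = 3 β / 4`:

* `psi_sq`: `‖psi β z‖ ^ 2` = product over the two angles `2 β re z`, `2 β (re z + l)` of
  `(cosh T - cos a) / (cosh T + cos a)`, `T = 2 β im z`;
* `Qps d s`: the same at `β = 4 / 3` at the height `s`; **`psi_le`: `‖psi β z‖ ^ 2 ≤ Qps d (rho t)`** for
  `-1 < d < 4`, `0 < β ≤ 4 / 3`: the exponent `β < 4 / 3` only helps;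
* `psi_wide`, `one_sub_psi_wide`: the two bounds for `-1 + δ ≤ d ≤ 4 - δ`.
-/

set_option autoImplicit false

noncomputable section

open Complex

namespace PLT

open NUP1

/-! ### the modulus -/

theorem cos_re_im (A T : ℝ) : Complex.cos ((A : ℂ) + T * I) =
    ((Real.cos A * Real.cosh T : ℝ) : ℂ) - ((Real.sin A * Real.sinh T : ℝ) : ℂ) * I := by
  rw [Complex.cos_add_mul_I]
  push_cast
  ring

/-- `|cos (A + i T) - cos g| ^ 2` -/
theorem normSq_cos_sub (A T g : ℝ) :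
    Complex.normSq (Complex.cos ((A : ℂ) + T * I) - (Real.cos g : ℝ)) =
      (Real.cosh T - Real.cos (A + g)) * (Real.cosh T - Real.cos (A - g)) := by
  rw [cos_re_im, show ((Real.cos A * Real.cosh T : ℝ) : ℂ) - ((Real.sin A * Real.sinh T : ℝ) : ℂ) * I -
    (Real.cos g : ℝ) = ((Real.cos A * Real.cosh T - Real.cos g : ℝ) : ℂ) +
      ((-(Real.sin A * Real.sinh T) : ℝ) : ℂ) * I by push_cast; ring, Complex.normSq_add_mul_I,
    Real.cos_add, Real.cos_sub]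
  have h1 := Real.sin_sq_add_cos_sq A
  have h2 := Real.sin_sq_add_cos_sq g
  have h3 := Real.cosh_sq T
  have e1 : Real.sin A ^ 2 = 1 - Real.cos A ^ 2 := by linarith
  have e2 : Real.sin g ^ 2 = 1 - Real.cos g ^ 2 := by linarith
  have e3 : Real.sinh T ^ 2 = Real.cosh T ^ 2 - 1 := by linarith
  have : (Real.cos A * Real.cosh T - Real.cos g) ^ 2 + (-(Real.sin A * Real.sinh T)) ^ 2 =
      (Real.cos A * Real.cosh T - Real.cos g) ^ 2 + Real.sin A ^ 2 * Real.sinh T ^ 2 := by ring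
  rw [this, e1, e3]
  have : (Real.cosh T - (Real.cos A * Real.cos g - Real.sin A * Real.sin g)) *
      (Real.cosh T - (Real.cos A * Real.cos g + Real.sin A * Real.sin g)) =
      (Real.cosh T - Real.cos A * Real.cos g) ^ 2 - Real.sin A ^ 2 * Real.sin g ^ 2 := by ring
  rw [this, e1, e2]
  ring

/-- `|cos (A + i T) + cos g| ^ 2` -/
theorem normSq_cos_add (A T g : ℝ) :
    Complex.normSq (Complex.cos ((A : ℂ) + T * I) + (Real.cos g : ℝ)) =
      (Real.cosh T + Real.cos (A + g)) * (Real.cosh T + Real.cos (A - g)) := by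
  have h := normSq_cos_sub A T (g + Real.pi)
  rw [Real.cos_add_pi, ← add_assoc, Real.cos_add_pi, show A - (g + Real.pi) = A - g - Real.pi by ring,
    Real.cos_sub_pi, sub_neg_eq_add, sub_neg_eq_add] at h
  rw [← h]
  congr 1
  push_cast
  ring

theorem arg_eq (β : ℝ) (z : ℂ) : 2 * (β : ℂ) * z + β * l =
    (((2 * β * z.re + β * l : ℝ)) : ℂ) + ((2 * β * z.im : ℝ) : ℂ) * I := by
  apply Complex.ext <;> simp

/-- one factor of `‖psi‖ ^ 2` -/
def fq (h c : ℝ) : ℝ := (h - c) / (h + c)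

theorem fq_anti {h c c' : ℝ} (h0 : 0 < h + c) (hc : c ≤ c') (hh : 0 < h) : fq h c' ≤ fq h c := by
  unfold fq
  rw [div_le_div_iff₀ (by linarith) h0]
  nlinarith

theorem fq_nonneg {h c : ℝ} (h0 : c ≤ h) (h1 : 0 < h + c) : 0 ≤ fq h c :=
  div_nonneg (by linarith) h1.le

/-- **the modulus of `psi`** -/
theorem psi_sq (β : ℝ) (z : ℂ) : ‖psi β z‖ ^ 2 =
    fq (Real.cosh (2 * β * z.im)) (Real.cos (2 * β * (z.re + l))) *
      fq (Real.cosh (2 * β * z.im)) (Real.cos (2 * β * z.re)) := by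
  unfold psi fq
  rw [norm_div, div_pow, ← Complex.normSq_eq_norm_sq, ← Complex.normSq_eq_norm_sq, arg_eq,
    show Complex.cos ((β : ℂ) * l) = ((Real.cos (β * l) : ℝ) : ℂ) by push_cast; rfl,
    normSq_cos_sub, normSq_cos_add, show 2 * β * z.re + β * l + β * l = 2 * β * (z.re + l) by ring,
    show 2 * β * z.re + β * l - β * l = 2 * β * z.re by ring, div_mul_div_comm]

/-- `‖psi‖ ^ 2` at `β = 4 / 3`, offset `d`, height `s` -/
def Qps (d s : ℝ) : ℝ := fq (Real.cosh (8 / 3 * s)) (Real.cos (Real.pi / 3 * (2 - d))) *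
  fq (Real.cosh (8 / 3 * s)) (Real.cos (Real.pi / 3 * (1 - d)))

theorem neg_one_lt_cos {x : ℝ} (h : |x| < Real.pi) : -1 < Real.cos x := by
  rw [← Real.cos_abs x, ← Real.cos_pi]
  exact Real.cos_lt_cos_of_nonneg_of_le_pi (abs_nonneg _) le_rfl h

theorem cos_mul_ge {r x : ℝ} (h0 : 0 ≤ r) (h1 : r ≤ 1) (h : |x| ≤ Real.pi) :
    Real.cos x ≤ Real.cos (r * x) := by
  rw [← Real.cos_abs x, ← Real.cos_abs (r * x), abs_mul, abs_of_nonneg h0]
  refine Real.cos_le_cos_of_nonneg_of_le_pi (by positivity) h ?_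
  exact mul_le_of_le_one_left (abs_nonneg _) h1

theorem abs_th {d : ℝ} (h1 : -1 ≤ d) (h2 : d ≤ 4) :
    |Real.pi / 3 * (2 - d)| ≤ Real.pi ∧ |Real.pi / 3 * (1 - d)| ≤ Real.pi := by
  have hp := Real.pi_pos
  constructor <;> rw [abs_le] <;> constructor <;> nlinarith

theorem abs_th_lt {d : ℝ} (h1 : -1 < d) (h2 : d < 4) :
    |Real.pi / 3 * (2 - d)| < Real.pi ∧ |Real.pi / 3 * (1 - d)| < Real.pi := by
  have hp := Real.pi_pos
  constructor <;> rw [abs_lt] <;> constructor <;> nlinarith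

theorem vl_re (x t : ℝ) : (vl x t).re = x := by simp [vl]

theorem vl_im (x t : ℝ) : (vl x t).im = t := by simp [vl]

/-- **the exponent `β < 4 / 3` only helps** -/
theorem psi_le {β d : ℝ} (hβ0 : 0 < β) (hβ1 : β ≤ 4 / 3) (h1 : -1 < d) (h2 : d < 4) (t : ℝ) :
    ‖psi β (vl ((1 - d) * l) t)‖ ^ 2 ≤ Qps d (3 * β / 4 * t) := by
  have hp := Real.pi_pos
  obtain ⟨a1, a2⟩ := abs_th_lt h1 h2
  have r0 : 0 ≤ 3 * β / 4 := by positivity
  have r1 : 3 * β / 4 ≤ 1 := by linarith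
  have c1 := cos_mul_ge r0 r1 a1.le
  have c2 := cos_mul_ge r0 r1 a2.le
  have n1 := neg_one_lt_cos a1
  have n2 := neg_one_lt_cos a2
  have hT := Real.one_le_cosh (2 * β * t)
  rw [psi_sq, vl_re, vl_im]
  unfold Qps
  rw [show 8 / 3 * (3 * β / 4 * t) = 2 * β * t by ring,
    show 2 * β * ((1 - d) * l + l) = 3 * β / 4 * (Real.pi / 3 * (2 - d)) by unfold l; ring,
    show 2 * β * ((1 - d) * l) = 3 * β / 4 * (Real.pi / 3 * (1 - d)) by unfold l; ring]
  refine mul_le_mul (fq_anti (by linarith) c1 (by linarith)) (fq_anti (by linarith) c2 (by linarith))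
    (fq_nonneg (by linarith [Real.cos_le_one (3 * β / 4 * (Real.pi / 3 * (1 - d)))]) (by linarith))
    (fq_nonneg (by linarith [Real.cos_le_one (Real.pi / 3 * (2 - d))]) (by linarith))

/-! ### wide bounds -/

/-- `1 - cos (π δ / 3)` -/
def kd (δ : ℝ) : ℝ := 1 - Real.cos (Real.pi * δ / 3)

theorem kd_pos {δ : ℝ} (h0 : 0 < δ) (h1 : δ ≤ 3) : 0 < kd δ := by
  unfold kd
  have hp := Real.pi_pos
  have := Real.cos_lt_cos_of_nonneg_of_le_pi (x := 0) (y := Real.pi * δ / 3) le_rfl (by nlinarith)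
    (by positivity)
  rw [Real.cos_zero] at this
  linarith

theorem kd_le {δ : ℝ} (h0 : 0 ≤ δ) (h1 : δ ≤ 1) : kd δ ≤ 1 := by
  unfold kd
  have hp := Real.pi_pos
  have := Real.cos_nonneg_of_neg_pi_div_two_le_of_le (x := Real.pi * δ / 3) (by nlinarith) (by nlinarith)
  linarith

theorem cos_ge_kd {δ x r : ℝ} (h0 : 0 ≤ δ) (hr0 : 0 ≤ r) (hr1 : r ≤ 1)
    (h : |x| ≤ Real.pi - Real.pi * δ / 3) : -(1 - kd δ) ≤ Real.cos (r * x) := by
  have hp := Real.pi_pos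
  have hd : 0 ≤ Real.pi * δ / 3 := by positivity
  refine le_trans ?_ (cos_mul_ge hr0 hr1 (by linarith))
  unfold kd
  rw [← Real.cos_abs x, sub_sub_cancel, ← Real.cos_pi_sub]
  exact Real.cos_le_cos_of_nonneg_of_le_pi (abs_nonneg _) (by linarith) h

theorem abs_th_de {d δ : ℝ} (h1 : -1 + δ ≤ d) (h2 : d ≤ 4 - δ) :
    |Real.pi / 3 * (2 - d)| ≤ Real.pi - Real.pi * δ / 3 ∧
    |Real.pi / 3 * (1 - d)| ≤ Real.pi - Real.pi * δ / 3 := by
  have hp := Real.pi_pos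
  constructor <;> rw [abs_le] <;> constructor <;> nlinarith

theorem fq_le_exp {h c κ : ℝ} (h1 : 1 ≤ h) (hκ0 : 0 < κ) (hκ1 : κ ≤ 1)
    (hck : -(1 - κ) ≤ c) : κ * h ≤ h + c ∧ fq h c ≤ Real.exp (2 / (κ * h)) := by
  have a1 : κ * h ≤ h + c := by nlinarith
  have a0 : 0 < κ * h := by positivity
  refine ⟨a1, ?_⟩
  have a2 : 0 < h + c := by linarith
  have a3 : fq h c ≤ 1 + 2 / (κ * h) := by
    unfold fq
    rw [show (h - c) / (h + c) = 1 + (-(2 * c)) / (h + c) by field_simp; ring]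
    have : -(2 * c) / (h + c) ≤ 2 / (κ * h) := by
      refine (div_le_div_of_nonneg_right (by linarith : -(2 * c) ≤ 2) a2.le).trans ?_
      exact div_le_div_of_nonneg_left (by norm_num) a0 a1
    linarith
  exact a3.trans (by linarith [Real.add_one_le_exp (2 / (κ * h))])

theorem inv_cosh_le (x : ℝ) : (Real.cosh x)⁻¹ ≤ 2 * Real.exp (-|x|) := by
  have h := cosh_ge x
  have hp := Real.cosh_pos x
  rw [Real.exp_neg, inv_le_comm₀ hp (by positivity), mul_inv, inv_inv]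
  linarith

section wide
variable {β d δ t : ℝ}

/-- **`psi` from above, `-1 + δ ≤ d ≤ 4 - δ`** -/
theorem psi_wide (hβ0 : 0 < β) (hβ1 : β ≤ 4 / 3) (hd0 : 0 < δ) (hd1 : δ ≤ 1) (h1 : -1 + δ ≤ d)
    (h2 : d ≤ 4 - δ) : ‖psi β (vl ((1 - d) * l) t)‖ ≤
      Real.exp (4 / kd δ * Real.exp (-(2 * β) * |t|)) := by
  have hp := Real.pi_pos
  obtain ⟨a1, a2⟩ := abs_th_de h1 h2
  have hk := kd_pos hd0 (by linarith)
  have hk1 := kd_le hd0.le hd1
  have r0 : 0 ≤ 3 * β / 4 := by positivity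
  have r1 : 3 * β / 4 ≤ 1 := by linarith
  have c1 := cos_ge_kd hd0.le r0 r1 a1
  have c2 := cos_ge_kd hd0.le r0 r1 a2
  have hT := Real.one_le_cosh (2 * β * t)
  have hi := inv_cosh_le (2 * β * t)
  rw [abs_mul, abs_of_pos (by linarith : 0 < 2 * β), ← neg_mul] at hi
  obtain ⟨b1, b2⟩ := fq_le_exp hT hk hk1 c1
  obtain ⟨b3, b4⟩ := fq_le_exp hT hk hk1 c2
  have e := psi_sq β (vl ((1 - d) * l) t)
  rw [vl_re, vl_im, show 2 * β * ((1 - d) * l + l) = 3 * β / 4 * (Real.pi / 3 * (2 - d)) by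
    unfold l; ring, show 2 * β * ((1 - d) * l) = 3 * β / 4 * (Real.pi / 3 * (1 - d)) by
    unfold l; ring] at e
  have h3 : ‖psi β (vl ((1 - d) * l) t)‖ ^ 2 ≤ Real.exp (2 / (kd δ * Real.cosh (2 * β * t))) ^ 2 := by
    rw [e, sq (Real.exp _)]
    refine mul_le_mul b2 b4 (div_nonneg ?_ (le_trans (by positivity) b3)) (Real.exp_pos _).le
    linarith [Real.cos_le_one (3 * β / 4 * (Real.pi / 3 * (1 - d)))]
  have h4 := (sq_le_sq₀ (norm_nonneg _) (Real.exp_pos _).le).1 h3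
  refine h4.trans (Real.exp_le_exp.2 ?_)
  rw [show 2 / (kd δ * Real.cosh (2 * β * t)) = 2 / kd δ * (Real.cosh (2 * β * t))⁻¹ by
    field_simp]
  calc 2 / kd δ * (Real.cosh (2 * β * t))⁻¹ ≤ 2 / kd δ * (2 * Real.exp (-(2 * β) * |t|)) := by gcongr
    _ = _ := by ring

/-- **`1 - psi` from above, `-1 + δ ≤ d ≤ 4 - δ`** -/
theorem one_sub_psi_wide (hβ0 : 0 < β) (hβ1 : β ≤ 4 / 3) (hd0 : 0 < δ) (hd1 : δ ≤ 1) (h1 : -1 + δ ≤ d)
    (h2 : d ≤ 4 - δ) : ‖1 - psi β (vl ((1 - d) * l) t)‖ ≤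
      4 / kd δ * Real.exp (-(2 * β) * |t|) := by
  have hp := Real.pi_pos
  obtain ⟨a1, a2⟩ := abs_th_de h1 h2
  have hk := kd_pos hd0 (by linarith)
  have hk1 := kd_le hd0.le hd1
  have r0 : 0 ≤ 3 * β / 4 := by positivity
  have r1 : 3 * β / 4 ≤ 1 := by linarith
  have c1 := cos_ge_kd hd0.le r0 r1 a1
  have c2 := cos_ge_kd hd0.le r0 r1 a2
  have hT := Real.one_le_cosh (2 * β * t)
  have hi := inv_cosh_le (2 * β * t)
  rw [abs_mul, abs_of_pos (by linarith : 0 < 2 * β), ← neg_mul] at hi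
  obtain ⟨b1, -⟩ := fq_le_exp hT hk hk1 c1
  obtain ⟨b3, -⟩ := fq_le_exp hT hk hk1 c2
  obtain ⟨D, hD⟩ : ∃ D, D = Complex.cos (2 * (β : ℂ) * vl ((1 - d) * l) t + β * l) +
    ((Real.cos (β * l) : ℝ) : ℂ) := ⟨_, rfl⟩
  have e0 : ‖D‖ ^ 2 = (Real.cosh (2 * β * t) + Real.cos (3 * β / 4 * (Real.pi / 3 * (2 - d)))) *
      (Real.cosh (2 * β * t) + Real.cos (3 * β / 4 * (Real.pi / 3 * (1 - d)))) := by
    rw [hD, ← Complex.normSq_eq_norm_sq, arg_eq, normSq_cos_add, vl_re, vl_im,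
      show 2 * β * ((1 - d) * l) + β * l + β * l = 3 * β / 4 * (Real.pi / 3 * (2 - d)) by
        unfold l; ring, show 2 * β * ((1 - d) * l) + β * l - β * l =
        3 * β / 4 * (Real.pi / 3 * (1 - d)) by unfold l; ring]
  have hkc : 0 < kd δ * Real.cosh (2 * β * t) := by positivity
  have e1 : kd δ * Real.cosh (2 * β * t) ≤ ‖D‖ := by
    refine (sq_le_sq₀ hkc.le (norm_nonneg _)).1 ?_
    rw [e0, sq]
    exact mul_le_mul b1 b3 hkc.le (by linarith)
  have hD0 : D ≠ 0 := norm_pos_iff.1 (lt_of_lt_of_le hkc e1)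
  have e2 : 1 - psi β (vl ((1 - d) * l) t) = 2 * ((Real.cos (β * l) : ℝ) : ℂ) / D := by
    unfold psi
    rw [show Complex.cos ((β : ℂ) * l) = ((Real.cos (β * l) : ℝ) : ℂ) by push_cast; rfl, ← hD,
      eq_div_iff hD0, sub_mul, div_mul_cancel₀ _ hD0, hD]
    ring
  have e3 : ‖(2 : ℂ) * ((Real.cos (β * l) : ℝ) : ℂ)‖ ≤ 2 := by
    rw [norm_mul, Complex.norm_real, Complex.norm_two, Real.norm_eq_abs]
    linarith [Real.abs_cos_le_one (β * l)]
  rw [e2, norm_div]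
  calc ‖(2 : ℂ) * ((Real.cos (β * l) : ℝ) : ℂ)‖ / ‖D‖ ≤ 2 / (kd δ * Real.cosh (2 * β * t)) := by
        gcongr
    _ = 2 / kd δ * (Real.cosh (2 * β * t))⁻¹ := by field_simp
    _ ≤ 2 / kd δ * (2 * Real.exp (-(2 * β) * |t|)) := by gcongr
    _ = _ := by ring

end wide

end PLT
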