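import Pool.Agent.PLT.ZKT

/-!
# Rows without a condition on their distance: points `PtG`

`PtG w` : `-l < Re w`, `Re w ≤ 101 / 200 l`; `RwG x` : all rows of the group are such points (complex rows, the
distance of two rows may be larger than `l`).

* `bdd_psi1`, `bdd_gPG`, `diffAt_gPG` : the cutoffs; `bdd_phG`, `diffAt_phG`; `gonG`;
* `bdd_RRG`, `diffAt_RRG` : the row factor; `NQ_G`, `NP_G1`, `NP_G2`, `NP_G3`.
-/

set_option autoImplicit false
set_option linter.unusedSectionVars false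
set_option linter.unusedVariables false

noncomputable section

open Complex MeasureTheory Filter Topology

namespace PLTX

open NUP1 NUP1S NUP1.Bd NURow
open NUP1.N (Z3 Gr0)
open NUP1.Leg (hr)
open PBX (Rws ph GOk gP measurable_ph im_le bdd_glueR Bdd_of_Gr)
open Pool.Agent.PLX

variable {m M : ℕ}

/-- the admissible points -/
def PtG (w : ℂ) : Prop := -l < w.re ∧ w.re ≤ 101 / 200 * l

/-- rows -/
def RwG (x : Fin m → ℂ) : Prop := ∀ i, PtG (x i)

theorem PtG.of_cen {c0 : ℝ} (h0 : 0 ≤ c0) (h1 : c0 < l / 2) {w : ℂ} (h : |w.re + c0| ≤ l / 2) : PtG w := by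
  have hl := Bd.l_pos
  obtain ⟨a, b⟩ := abs_le.1 h
  constructor <;> linarith

theorem RwT.toG {c0 : ℝ} (h0 : 0 ≤ c0) (h1 : c0 < l / 2) {x : Fin m → ℂ} (h : RwT c0 x) : RwG x := fun i =>
  PtG.of_cen h0 h1 (h i)

/-! ### the cutoffs -/

theorem bdd_psi1 {β : ℝ} (hβ : 0 < β) {K : Set ℝ} (hK : IsCompact K) {w : ℂ} (h : ∀ d ∈ K, NQ β (d - w.re)) :
    Bdd K (-(2 * β)) (fun z => 1 - psi β (z - w)) := by
  have h1 := (ub_one_sub_psi (Θ := Unit) (S := Set.univ) (r := 0) (ρ := |w.im|) (w := fun _ => w - w.re) hβ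
    (fun _ _ => ⟨by simp, by simp⟩) (isCompact_cen (c0 := -w.re) hK) (by
      rintro _ ⟨d, hd, rfl⟩ e he
      have : e = 0 := abs_eq_zero.1 (le_antisymm he (abs_nonneg e))
      rw [this, sub_zero]
      have := h d hd
      rwa [sub_eq_add_neg] at this)).bdd (Set.mem_univ ())
  have h2 := Bdd_cen (c0 := -w.re) h1
  refine NURow.Bdd.cg h2 fun z _ => ?_
  congr 2
  push_cast
  ring

theorem bdd_psi0 {β : ℝ} (hβ : 0 < β) {K : Set ℝ} (hK : IsCompact K) {w : ℂ} (h : ∀ d ∈ K, NQ β (d - w.re)) :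
    Bdd K 0 (fun z => psi β (z - w)) := by
  have h1 := (Bdd.const K 1).sub ((bdd_psi1 hβ hK h).mono_rate (s' := 0) (by linarith))
  exact NURow.Bdd.cg h1 fun z _ => by ring

theorem bdd_gPG {β : ℝ} (hβ : 0 < β) {K : Set ℝ} (hK : IsCompact K) {W : List ℂ}
    (h : ∀ w ∈ W, ∀ d ∈ K, NQ β (d - w.re)) :
    Bdd K (-(2 * β)) (fun z => 1 - gP β W z) ∧ Bdd K 0 (gP β W) := by
  induction W with
  | nil =>
    refine ⟨⟨0, le_rfl, fun z _ => by simp [PBX.gP_nil]⟩, ⟨1, zero_le_one, fun z _ => by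
      simp [PBX.gP_nil]⟩⟩
  | cons w W ih =>
    obtain ⟨h1, h2⟩ := ih fun v hv => h v (by simp [hv])
    have h3 := bdd_psi1 hβ hK (h w (by simp))
    have h4 := bdd_psi0 hβ hK (h w (by simp))
    constructor
    · refine NURow.Bdd.cg (PBX.Bdd.addB h3 ((h4.mul h1).rate (by ring))) fun z _ => ?_
      rw [PBX.gP_cons]
      ring
    · refine NURow.Bdd.cg ((h4.mul h2).rate (by ring)) fun z _ => ?_
      rw [PBX.gP_cons]

theorem diffAt_gPG {β : ℝ} {W : List ℂ} {z : ℂ} (h : ∀ w ∈ W, NQ β (z - w).re) :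
    DifferentiableAt ℂ (gP β W) z := by
  induction W with
  | nil => exact differentiableAt_const (1 : ℂ)
  | cons w W ih =>
    have e : gP β (w :: W) = fun u => psi β (u - w) * gP β W u := by
      funext u
      exact PBX.gP_cons β w W u
    rw [e]
    exact ((diff_psi' (h w (by simp))).comp z (differentiableAt_id.sub_const _)).mul
      (ih fun v hv => h v (by simp [hv]))

theorem prod_gP (β : ℝ) (x : Fin m → ℂ) (z : ℂ) : (∏ i, psi β (z - x i)) = gP β (List.ofFn x) z := by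
  unfold PBX.gP
  rw [List.map_ofFn, List.prod_ofFn]
  rfl

section cut

variable {β : ℝ} {x : Fin m → ℂ}

/-- the range of the differences -/
theorem G_range {w : ℂ} (hw : PtG w) {d : ℝ} (hd : d ∈ KT) :
    -(59 / 20 * l) - 1 / 200 * l ≤ d - w.re ∧ d - w.re < 2 * l := by
  have hl := Bd.l_pos
  obtain ⟨a, b⟩ := hw
  obtain ⟨d1, d2⟩ := hd
  constructor <;> linarith

theorem NQ_pt (hβ : 0 < β) (hβ' : β ≤ 4 / 3) {w : ℂ} (hw : PtG w) {d : ℝ} (hd : d ∈ KT) : NQ β (d - w.re) := by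
  have hl := Bd.l_pos
  obtain ⟨a, b⟩ := G_range hw hd
  exact NQ_strip hβ hβ' (by linarith) (by linarith)

theorem NQ_G (hβ : 0 < β) (hβ' : β ≤ 4 / 3) (hx : RwG x) {z : ℂ} (hz : z.re ∈ KT) (i : Fin m) :
    NQ β (z - x i).re := by
  rw [sub_re]
  exact NQ_pt hβ hβ' (hx i) hz

theorem bdd_phG {K : Set ℝ} {g : ℂ → ℂ} (hβ : 0 < β) (hβ' : β ≤ 4 / 3) (hx : RwG x) (hK : ∀ t ∈ K, t ∈ KT)
    (hg : GOn K β g) : Bdd K (-(2 * β)) (ph β x g) := by
  obtain ⟨h1, h3⟩ := bdd_gPG (W := List.ofFn x) hβ isCompact_KT (fun w hw d hd => by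
    obtain ⟨i, rfl⟩ := (List.mem_ofFn).1 hw
    exact NQ_pt hβ hβ' (hx i) hd)
  have h1 := Bdd.mono_set h1 hK
  have h2 := ((Bdd.mono_set h3 hK).mul hg.bd).rate (s' := -(2 * β)) (by ring)
  refine NURow.Bdd.cg (PBX.Bdd.addB h1 h2) fun z _ => ?_
  unfold PBX.ph
  rw [prod_gP]
  ring

theorem diffAt_phG {K : Set ℝ} {g : ℂ → ℂ} (hβ : 0 < β) (hβ' : β ≤ 4 / 3) (hx : RwG x)
    (hK : ∀ t ∈ K, t ∈ KT) (hg : GOn K β g) {z : ℂ} (hz : z.re ∈ K) :
    DifferentiableAt ℂ (ph β x g) z := by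
  have d1 := DifferentiableAt.fun_finsetProd (𝕜 := ℂ) (u := Finset.univ)
    (f := fun (i : Fin m) s => psi β (s - x i)) (x := z) (fun i _ =>
      (diff_psi' (NQ_G hβ hβ' hx (hK _ hz) i)).comp z (differentiableAt_id.sub_const _))
  exact (d1.mul (hg.diff z hz)).const_sub 1

/-- **the cutoffs of lists of points** -/
theorem gonG (hβ : 0 < β) (hβ' : β ≤ 4 / 3) {W : List ℂ} (hW : ∀ w ∈ W, PtG w) : GOn KT β (gP β W) :=
  ⟨PBX.measurable_gP β W, (bdd_gPG hβ isCompact_KT fun w hw d hd => NQ_pt hβ hβ' (hW w hw) hd).1,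
    fun z hz => diffAt_gPG fun w hw => by
      rw [sub_re]
      exact NQ_pt hβ hβ' (hW w hw) hz⟩

end cut

/-! ### the row factor -/

section row

variable {c : ℂ} {x : Fin m → ℂ} {y : Fin M → ℂ}

theorem diffAt_RRG (c : ℂ) {z : ℂ} (h : ∀ i, NP (z.re - (x i).re)) : DifferentiableAt ℂ (RRU c x y) z := by
  have hN : ∀ i, NP (z - x i).re := fun i => by
    rw [sub_re]
    exact h i
  unfold RRU
  have d1 := DifferentiableAt.fun_finsetProd (𝕜 := ℂ) (u := Finset.univ)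
    (f := fun (i : Fin m) s => 1 / sin (s - x i)) (x := z) (fun i _ => by
      have h0 : sin (z - x i) ≠ 0 := Bd.sin_ne_zero_of_re (hN i).1
      fun_prop (disch := exact h0))
  have d2 := DifferentiableAt.fun_finsetProd (𝕜 := ℂ) (u := Finset.univ)
    (f := fun (i : Fin m) s => 1 / sin (s - x i - 2 * l)) (x := z) (fun i _ => by
      have h0 : sin (z - x i - 2 * l) ≠ 0 := Bd.sin_ne_zero_of_re (by
        have := (hN i).2
        simpa using this)
      fun_prop (disch := exact h0))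
  have d3 := DifferentiableAt.fun_finsetProd (𝕜 := ℂ) (u := Finset.univ)
    (f := fun (i : Fin M) s => sin (s - y i + 3 * l) ^ 2) (x := z) (fun i _ => by fun_prop)
  exact (((differentiableAt_const c).mul d1).mul d2).mul d3

theorem bdd_RRG (c : ℂ) {K : Set ℝ} (hK : IsCompact K) {a b : ℝ} (hs : ∀ r ∈ K, a ≤ r ∧ r ≤ b)
    (h : ∀ d ∈ K, ∀ i, NP (d - (x i).re)) : Bdd K (2 * ((M : ℝ) - m)) (RRU c x y) :=
  Bdd_of_Gr hK hs (Gr_RRU c _ _ x y) fun z hz => (diffAt_RRG c fun i => h _ hz i).continuousAt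

theorem NP_G1 (hx : RwG x) {d : ℝ} (hd : d ∈ K1T) (i : Fin m) : NP (d - (x i).re) := by
  have hl := Bd.l_pos
  obtain ⟨a, b⟩ := hx i
  rcases hd with ⟨h1, h2⟩ | ⟨h1, h2⟩
  · exact NP_pos (by linarith) (by linarith)
  · exact NP_neg (by linarith) (by linarith)

theorem NP_GS (hx : RwG x) {d : ℝ} (hd : d ∈ Set.Icc (-(29 / 20 * l)) (-(101 / 100 * l))) (i : Fin m) :
    NP (d - (x i).re) := by
  have hl := Bd.l_pos
  obtain ⟨a, b⟩ := hx i
  obtain ⟨h1, h2⟩ := hd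
  exact NP_neg (by linarith) (by linarith)

theorem NP_G2 (hx : RwG x) {d : ℝ} (hd : d ∈ (fun d => d + -l) '' K2T) (i : Fin m) : NP (d - (x i).re) := by
  have hl := Bd.l_pos
  obtain ⟨a, b⟩ := hx i
  obtain ⟨d, ⟨h1, h2⟩, rfl⟩ := hd
  exact NP_neg (by dsimp only; linarith) (by dsimp only; linarith)

theorem RRG_shift_bdd (c : ℂ) (hx : RwG x) : Bdd K2T (2 * ((M : ℝ) - m)) fun w => RRU c x y (w - l) := by
  have hl := Bd.l_pos
  refine bdd_shift_l (bdd_RRG c (isCompact_K2T.image (by fun_prop)) (a := -(3 * l)) (b := 0) ?_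
    fun d hd i => NP_G2 hx hd i)
  rintro _ ⟨d, ⟨h1, h2⟩, rfl⟩
  constructor <;> dsimp only <;> linarith

theorem RRG_shift_diff (c : ℂ) (hx : RwG x) {w : ℂ} (hw : w.re ∈ K2T) :
    DifferentiableAt ℂ (fun w => RRU c x y (w - l)) w := by
  refine (diffAt_RRG (y := y) c (z := w - l) fun i => NP_G2 hx ?_ i).comp w
    (differentiableAt_id.sub_const _)
  refine ⟨w.re, hw, ?_⟩
  simp [sub_eq_add_neg]

end row

end PLTX

end
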