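import Pool.Agent.PLT.WardFFC
import Pool.Agent.PLT.ClsMeasC
import Pool.Agent.PLX.PB.WardCf

/-!
# Sea on a curve: the second Ward identity for the functional `FFC`

Fields, sea and test functions are given in the shifted complex height `w = z - i y₀`, `z` the complex
height (`u = l + i z`); the sea is integrated over the real line of the shifted frame. The curves of both
species satisfy `|Im D - y₀| ≤ b₀ < b₁`, `2 b₁ ≤ l` (`InSC`).

* `zyC`, `zqyC`, `XCyC`, `X1CyC`, `InSC`; `funDyC_of`, `fldDyC_of`, `aF_aCyC`;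
* `VyC`, `QyC`, `SyC` (force: landed `lamY`); `WSyC_eq`; `InsDC.vy`; **`ward_VyC`**; `DX_vyC`, `SyC_eq`;
* measurability: `meas_zyC`, `meas_zqyC`, `MIn.syC`, `MIn.vyC`, `MIn.qyC`, `MIn.dxC`, `meas_lamYC`,
  `meas_fldC`, `meas_dvyC`.
-/

set_option autoImplicit false
set_option linter.unusedSectionVars false

noncomputable section

open Complex MeasureTheory Finset
open scoped ENNReal

open PLX (Fil)

namespace PLT

open NUO NUP1 NUCR NUP1S NUP1S.Ab NUP1S.AbC NUGC NUGC.PLX PHK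
open PBF.PLX (Ins DIns Flds FldD DX LT spQ spl Sm dSm lamY MIn meas_an meas_der meas_aC meas_smr
  meas_kp2 tourn_er)

/-! ### shifted heights -/

/-- shifted complex height of the curve -/
def zyC (y0 : ℝ) (D : Bool → ℝ → ℂ) (s : Bool) (t : ℝ) : ℂ := ptZ D s t - I * y0

theorem zyC_im (y0 : ℝ) (D : Bool → ℝ → ℂ) (s : Bool) (t : ℝ) : (zyC y0 D s t).im = (D s t).im - y0 := by
  unfold zyC
  rw [Complex.sub_im, ptZ_im]
  simp

theorem ptC_zyC (y0 : ℝ) (D : Bool → ℝ → ℂ) (s : Bool) (t : ℝ) :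
    ptC D s t = NUP1.l + I * (zyC y0 D s t + I * y0) := by
  rw [ptC_ptZ]
  unfold zyC
  ring

/-- shifted complex heights of the quanta -/
def zqyC (y0 : ℝ) (D : CrsC) (r : ℕ) (O : Fin r → Xo) {a b : ℕ}
    (x : (Fin a → ℝ) × (Fin b → ℝ)) (k : Fin a ⊕ Fin b) : ℂ :=
  zyC y0 (D r O) (spQ a b k) (Sum.elim x.1 x.2 k)

/-- a function of the shifted height on the curves -/
def XCyC (y0 : ℝ) (D : CrsC) (X : Bool → ℂ → ℂ) : Flds := fun r O s t => X s (zyC y0 (D r O) s t)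

/-- its derivative along the curves -/
def X1CyC (y0 : ℝ) (D D1 : CrsC) (X : Bool → ℂ → ℂ) : Flds := fun r O s t =>
  (1 + D1 r O s t) * deriv (X s) (zyC y0 (D r O) s t)

/-- the curves of both species are in the strip `|Im w| ≤ b₀` -/
def InSC (y0 b0 : ℝ) (D : CrsC) : Prop :=
  ∀ r (O : Fin r → Xo) (s : Bool) t, |(D r O s t).im - y0| ≤ b0

theorem InSC.mono {y0 b0 b0' : ℝ} {D : CrsC} (h : InSC y0 b0 D) (hb : b0 ≤ b0') : InSC y0 b0' D :=
  fun r O s t => (h r O s t).trans hb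

section strip

variable {lo hi y0 b0 b1 : ℝ} {D D1 : CrsC} {X : Bool → ℂ → ℂ}

theorem hasDerivAt_zyC {D D1 : Bool → ℝ → ℂ} (h : ∀ s t, HasDerivAt (D s) (D1 s t) t) (s : Bool)
    (t : ℝ) : HasDerivAt (zyC y0 D s) (1 + D1 s t) t := by
  unfold zyC ptZ
  exact ((Complex.ofRealCLM.hasDerivAt (x := t)).add (h s t)).sub_const _

theorem zyC_strip (hs : InSC y0 b0 D) (r : ℕ) (O : Fin r → Xo) (s : Bool) (t : ℝ) :
    |(zyC y0 (D r O) s t).im| ≤ b0 := by
  rw [zyC_im]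
  exact hs r O s t

theorem XCyC_d (hc : ∀ r O, CurWC lo hi (D r O) (D1 r O)) (hs : InSC y0 b0 D) (hb : b0 < b1)
    (hX : PB.FldF b1 X) (r : ℕ) (O : Fin r → Xo) (s : Bool) (t : ℝ) :
    HasDerivAt (XCyC y0 D X r O s) (X1CyC y0 D D1 X r O s t) t := by
  have hz : |(zyC y0 (D r O) s t).im| < b1 := (zyC_strip hs r O s t).trans_lt hb
  exact (hX.d s _ hz).hasDerivAt.scomp t (hasDerivAt_zyC (hc r O).c.hd s t)

theorem cont_derivCyC (hc : ∀ r O, CurWC lo hi (D r O) (D1 r O)) (hs : InSC y0 b0 D) (hb : b0 < b1)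
    (hX : PB.FldF b1 X) (r : ℕ) (O : Fin r → Xo) (s : Bool) :
    Continuous fun t => deriv (X s) (zyC y0 (D r O) s t) := by
  have ho : IsOpen {w : ℂ | |w.im| < b1} := Pool.Agent.PB.strip_open b1
  have h1 : DifferentiableOn ℂ (X s) {w : ℂ | |w.im| < b1} :=
    fun z hz => (hX.d s z hz).differentiableWithinAt
  have h2 := (h1.deriv ho).continuousOn
  refine h2.comp_continuous (continuous_iff_continuousAt.2 fun t =>
    (hasDerivAt_zyC (hc r O).c.hd s t).continuousAt) fun t => ?_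
  exact (zyC_strip hs r O s t).trans_lt hb

theorem deriv_bdyC (hb : b0 < b1) (hX : PB.FldF b1 X) :
    ∃ B : ℝ, 0 ≤ B ∧ ∀ s (z : ℂ), |z.im| ≤ b0 → ‖X s z‖ ≤ B ∧ ‖deriv (X s) z‖ ≤ B := by
  obtain ⟨B, hB, h1⟩ := hX.bd
  refine ⟨max B (B * Real.exp (0 * ((b1 - b0) / 2)) / ((b1 - b0) / 2)),
    le_max_of_le_left hB, fun s z hz => ⟨(h1 s z (hz.trans_lt hb)).trans (le_max_left _ _), ?_⟩⟩
  have h2 := PB.strip_deriv (f := X s) hb le_rfl hB (fun z hz => hX.d s z hz)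
    (fun z hz => by rw [zero_mul, neg_zero, Real.exp_zero, mul_one]; exact h1 s z hz) hz
  rw [zero_mul (|z.re|), neg_zero, Real.exp_zero, mul_one] at h2
  exact h2.trans (le_max_right _ _)

theorem funDyC_of (hc : ∀ r O, CurWC lo hi (D r O) (D1 r O)) (hs : InSC y0 b0 D) (hb : b0 < b1)
    (hX : PB.FldF b1 X) : FunDC D1 (XCyC y0 D X) (XCyC y0 D fun s => deriv (X s)) where
  d := XCyC_d hc hs hb hX
  md r O s := (cont_derivCyC hc hs hb hX r O s).measurable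
  bd r O := by
    obtain ⟨B, -, h⟩ := deriv_bdyC hb hX
    exact ⟨B, fun s t => h s _ (zyC_strip hs r O s t)⟩

theorem fldDyC_of (hc : ∀ r O, CurWC lo hi (D r O) (D1 r O)) (hs : InSC y0 b0 D) (hb : b0 < b1)
    (hX : PB.FldF b1 X) : FldD (XCyC y0 D X) (X1CyC y0 D D1 X) where
  d := XCyC_d hc hs hb hX
  c r O s := (continuous_const.add ((hc r O).c.hc s)).mul (cont_derivCyC hc hs hb hX r O s)
  bd r O := by
    obtain ⟨B, hB, h⟩ := deriv_bdyC hb hX
    obtain ⟨B', hB'0, hB'⟩ := (hc r O).c.hb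
    refine ⟨B + (1 + B') * B, fun s t => ⟨?_, ?_⟩⟩
    · refine ((h s _ (zyC_strip hs r O s t)).1).trans ?_
      have : 0 ≤ (1 + B') * B := by positivity
      linarith
    · unfold X1CyC
      rw [norm_mul]
      have h1 : ‖1 + D1 r O s t‖ ≤ 1 + B' := by
        refine (norm_add_le _ _).trans ?_
        rw [norm_one]
        linarith [(hB' s t).2]
      have h2 := (h s _ (zyC_strip hs r O s t)).2
      have h3 := mul_le_mul h1 h2 (norm_nonneg _) (by linarith : (0 : ℝ) ≤ 1 + B')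
      linarith

/-- the kernel on the curve is the kernel at complex points -/
theorem aF_aCyC (hc : ∀ r O, CurWC lo hi (D r O) (D1 r O)) (hs : InSC y0 b0 D) (hb : b0 < b1)
    (hb' : 2 * b1 ≤ NUP1.l) (hX : PB.FldF b1 X) (r : ℕ) (O : Fin r → Xo) (b c : Bool)
    (s u : ℝ) :
    PLC.aF2 (D r O) (D1 r O) (XCyC y0 D X r O) (X1CyC y0 D D1 X r O) b c s u =
      PB.aC X b c (zyC y0 (D r O) b s) (zyC y0 (D r O) c u) := by
  by_cases hbc : b = c
  · subst hbc
    by_cases hsu : s = u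
    · subst hsu
      rw [PLC.aF2_diag, PB.aC_diag]
      unfold X1CyC
      have := (hc r O).mono.ne b s
      field_simp
    · have hne : zyC y0 (D r O) b s ≠ zyC y0 (D r O) b u := by
        intro h
        exact (hc r O).mono.inj (hc r O).c.hd b hsu (sub_left_injective h)
      have him : |(zyC y0 (D r O) b s - zyC y0 (D r O) b u).im| < NUP1.l := by
        rw [Complex.sub_im]
        have h1 := zyC_strip hs r O b s
        have h2 := zyC_strip hs r O b u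
        have h3 := abs_sub (zyC y0 (D r O) b s).im (zyC y0 (D r O) b u).im
        linarith
      rw [PB.aC_ne X b b him hne]
      unfold PLC.aF2 PB.kb
      rw [if_pos rfl, if_pos rfl, PBK.qw_eq ((hc r O).c.hd b) ((hc r O).c.hc b)
        (XCyC_d hc hs hb hX r O b) ((fldDyC_of hc hs hb hX).c r O b) hsu]
      have e : ((s : ℂ) + D r O b s) - (u + D r O b u) =
          zyC y0 (D r O) b s - zyC y0 (D r O) b u := by
        unfold zyC ptZ
        ring
      rw [e]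
      rfl
  · rw [PB.aC_off X hbc]
    unfold PLC.aF2
    rw [if_neg hbc, PBK.qg_eq]
    have e : ((s : ℂ) + D r O b s) - (u + D r O c u) =
        zyC y0 (D r O) b s - zyC y0 (D r O) c u := by
      unfold zyC ptZ
      ring
    rw [e]
    rfl

end strip

/-! ### statistics -/

section stat

variable [Fil]

/-- the linear statistic of a test function of the shifted height, the sea on the line -/
def VyC (y0 : ℝ) (D : CrsC) (ρ : ℂ → ℂ) (g : Bool → ℂ → ℂ) : Ins := fun r O a b x =>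
  PB.NX.nuL PB.eR (spQ a b) (PB.rS2 ρ) g (zqyC y0 D r O x)

/-- the quadratic statistic of a field -/
def QyC (y0 : ℝ) (D : CrsC) (ρ : ℂ → ℂ) (X : Bool → ℂ → ℂ) : Ins := fun r O a b x =>
  PB.NX.nuQ PB.eR (spQ a b) (PB.rS2 ρ) (PB.aC X) (zqyC y0 D r O x)

/-- sum over the quanta of a function of the objects and of the shifted height -/
def SyC (y0 : ℝ) (D : CrsC) (f : (r : ℕ) → (Fin r → Xo) → Bool → ℂ → ℂ) : Ins :=
  fun r O a b x => ∑ k, f r O (spQ a b k) (zqyC y0 D r O x k)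

/-- **the algebra of the Ward identity** -/
theorem WSyC_eq {lo hi y0 b0 b1 : ℝ} {D D1 : CrsC} (hc : ∀ r O, CurWC lo hi (D r O) (D1 r O))
    (hs : InSC y0 b0 D) (hb0 : 0 < b1) (hb : b0 < b1) (hb' : 2 * b1 ≤ NUP1.l) {ρ : ℂ → ℂ}
    (hρ : PB.SeaF b1 ρ) {X : Bool → ℂ → ℂ} (hX : PB.FldF b1 X)
    (L : (r : ℕ) → (Fin r → Xo) → Bool → ℂ → ℂ) (r : ℕ) (O : Fin r → Xo) (a b : ℕ)
    (x : (Fin a → ℝ) × (Fin b → ℝ)) :
    WSC D D1 (XCyC y0 D X) (X1CyC y0 D D1 X) L r O a b x =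
      -VyC y0 D ρ (PB.rsp (PB.mulF2 ρ X)) r O a b x + QyC y0 D ρ X r O a b x +
      SyC y0 D (fun r O s z => X s z * lamY y0 ρ L r O s z) r O a b x := by
  classical
  have key := PB.alg_h2 (tourn_er (Fin a ⊕ Fin b)) hρ hX hb0 hb' (spQ a b)
    (lam := lamY y0 ρ L r O) (zqyC y0 D r O x)
    (fun k => (zyC_strip hs r O _ _).trans_lt hb)
  unfold VyC QyC SyC
  rw [← key]
  show wdSC (D r O) (D1 r O) (XCyC y0 D X r O) (X1CyC y0 D D1 X r O) (L r O) a b x = _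
  unfold wdSC
  congr 1
  · refine Finset.sum_congr rfl fun k _ => ?_
    unfold X1CyC XCyC PBF.PLX.lamY zqyC
    rw [ptC_zyC y0]
    have := (hc r O).mono.ne (spQ a b k) (Sum.elim x.1 x.2 k)
    field_simp
    ring
  · refine Finset.sum_congr rfl fun p _ => ?_
    exact aF_aCyC hc hs hb hb' hX r O _ _ _ _

/-- the statistic of a test function is a differentiable insertion -/
theorem InsDC.vy {lo hi y0 b0 b1 : ℝ} {D D1 : CrsC} (hc : ∀ r O, CurWC lo hi (D r O) (D1 r O))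
    (hs : InSC y0 b0 D) (hb : b0 < b1) (ρ : ℂ → ℂ) {g : Bool → ℂ → ℂ} (hg : PB.FldF b1 g) :
    InsDC D1 (VyC y0 D ρ g) (dSm (XCyC y0 D fun s => deriv (g s))) := by
  have h1 := (InsDC.sm (funDyC_of hc hs hb hg)).add
    (InsDC.obj D1 fun _ _ => -∑ s, ∫ u, PB.rS2 ρ s u * g s (PB.eR u))
  have e1 : (fun (r : ℕ) (O : Fin r → Xo) (a b : ℕ) (x : (Fin a → ℝ) × (Fin b → ℝ)) =>
      Sm (XCyC y0 D g) r O a b x + -∑ s, ∫ u, PB.rS2 ρ s u * g s (PB.eR u)) = VyC y0 D ρ g := by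
    funext r O a b x
    unfold VyC PB.NX.nuL PBF.PLX.Sm XCyC zqyC
    rw [sub_eq_add_neg]
  have e2 : (fun (r : ℕ) (O : Fin r → Xo) (a b : ℕ) (k : Fin a ⊕ Fin b)
      (x : (Fin a → ℝ) × (Fin b → ℝ)) => dSm (XCyC y0 D fun s => deriv (g s)) r O a b k x + 0) =
      dSm (XCyC y0 D fun s => deriv (g s)) := by
    funext r O a b k x
    rw [add_zero]
  rw [e1, e2] at h1
  exact h1

variable {Z : Bool → Option O3 → ℂ → ℂ} {P : Par6} {n n' : ℕ} {D D1 : CrsC}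

/-- **the second Ward identity for the functional, general insertion, the sea on the line
`Im z = y₀`** -/
theorem ward_VyC {lo hi κ y0 b0 b1 : ℝ} {Q : ℤ} (hQ : QOkC Z lo hi κ Q) (hS : StC lo hi P)
    (hc : ∀ r O, CurWC lo hi (D r O) (D1 r O)) (hn : (n : ℤ) - n' = Q) {LZ : Bool → ℂ → ℂ}
    {LP : (r : ℕ) → (Fin r → Xo) → Bool → ℂ → ℂ} (hL : LogDC Z P lo hi LZ LP)
    (hs : InSC y0 b0 D) (hb0 : 0 < b1) (hb : b0 < b1) (hb' : 2 * b1 ≤ NUP1.l) {ρ : ℂ → ℂ}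
    (hρ : PB.SeaF b1 ρ) {X : Bool → ℂ → ℂ} (hX : PB.FldF b1 X) {Ψ : Ins} {dΨ : DIns}
    (hΨ : InsDC D1 Ψ dΨ) :
    FFC Z P n n' D D1 (fun r O a b x =>
      (-VyC y0 D ρ (PB.rsp (PB.mulF2 ρ X)) r O a b x + QyC y0 D ρ X r O a b x +
        SyC y0 D (fun r O s z => X s z * lamY y0 ρ (LT LZ LP) r O s z) r O a b x) *
        Ψ r O a b x + DX (XCyC y0 D X) dΨ r O a b x) = 0 := by
  rw [← ward_FFC hQ hS hc hn hL (fldDyC_of hc hs hb hX) hΨ]
  congr 1
  funext r O a b x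
  unfold WdC
  rw [WSyC_eq hc hs hb0 hb hb' hρ hX]

/-- the derivative of the statistic of `h` along the field is the sum of `X h'` -/
theorem DX_vyC (y0 : ℝ) (D : CrsC) (X h : Bool → ℂ → ℂ) (r : ℕ) (O : Fin r → Xo) (a b : ℕ)
    (x : (Fin a → ℝ) × (Fin b → ℝ)) :
    DX (XCyC y0 D X) (dSm (XCyC y0 D fun s => deriv (h s))) r O a b x =
      SyC y0 D (fun _ _ s z => X s z * deriv (h s) z) r O a b x := rfl

/-- a sum over the quanta is the mass plus the statistic -/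
theorem SyC_eq (y0 : ℝ) (D : CrsC) (ρ : ℂ → ℂ) (f : Bool → ℂ → ℂ) (r : ℕ) (O : Fin r → Xo)
    (a b : ℕ) (x : (Fin a → ℝ) × (Fin b → ℝ)) :
    SyC y0 D (fun _ _ => f) r O a b x =
      (∑ s, ∫ u : ℝ, (Fil.b s : ℂ) * ρ u * f s u) + VyC y0 D ρ f r O a b x := by
  unfold VyC PB.NX.nuL SyC PB.rS2 PB.eR
  ring

/-! ### the landed curves -/

theorem zqyC_six (y0 : ℝ) (η : PBF.PLX.Crs) (r : ℕ) (O : Fin r → Xo) {a b : ℕ}
    (x : (Fin a → ℝ) × (Fin b → ℝ)) :
    zqyC y0 (fun r O => dF (η r O)) r O x = PBF.PLX.zqy y0 η r O x := rfl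

theorem VyC_six (y0 : ℝ) (η : PBF.PLX.Crs) (ρ : ℂ → ℂ) (g : Bool → ℂ → ℂ) :
    VyC y0 (fun r O => dF (η r O)) ρ g = PBF.PLX.Vy y0 η ρ g := rfl

end stat

/-! ### measurability -/

section meas

variable {y0 b0 b1 : ℝ} {D D1 : CrsC}

theorem meas_zyC (hm : MCrC D D1) (y0 : ℝ) (r : ℕ) (s : Bool) :
    Measurable fun p : (Fin r → Xo) × ℝ => zyC y0 (D r p.1) s p.2 := by
  unfold zyC ptZ
  exact ((Complex.measurable_ofReal.comp measurable_snd).add (hm.m r s)).sub measurable_const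

theorem meas_zqyC (hm : MCrC D D1) (y0 : ℝ) (r : ℕ) {a b : ℕ} (k : Fin a ⊕ Fin b) :
    Measurable fun p : (Fin r → Xo) × ((Fin a → ℝ) × (Fin b → ℝ)) => zqyC y0 D r p.1 p.2 k :=
  (meas_zyC hm y0 r (spQ a b k)).comp
    (measurable_fst.prodMk ((meas_elimC k).comp measurable_snd))

theorem meas_fldC {X : Bool → ℂ → ℂ} (hm : MCrC D D1) (hs : InSC y0 b0 D) (hb : b0 < b1)
    (hX : ∀ s (z : ℂ), |z.im| < b1 → DifferentiableAt ℂ (X s) z) (r : ℕ) (s : Bool) :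
    Measurable fun p : (Fin r → Xo) × ℝ => X s (zyC y0 (D r p.1) s p.2) :=
  meas_an (hX s) (meas_zyC hm y0 r s) fun p => (zyC_strip hs r p.1 _ _).trans_lt hb

/-- the derivatives of the statistic of a test function are measurable -/
theorem meas_dvyC (hm : MCrC D D1) (hs : InSC y0 b0 D) (hb : b0 < b1)
    {g : Bool → ℂ → ℂ} (hg : ∀ s (z : ℂ), |z.im| < b1 → DifferentiableAt ℂ (g s) z) (r a b : ℕ)
    (k : Fin a ⊕ Fin b) : Measurable
      fun p : (Fin r → Xo) × ((Fin a → ℝ) × (Fin b → ℝ)) =>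
        dSm (XCyC y0 D fun s => deriv (g s)) r p.1 a b k p.2 :=
  meas_der (hg _) (meas_zqyC hm y0 r k) fun p => (zyC_strip hs r p.1 _ _).trans_lt hb

/-- sums over the quanta -/
theorem _root_.PBF.PLX.MIn.syC {f : (r : ℕ) → (Fin r → Xo) → Bool → ℂ → ℂ}
    (hf : ∀ r s, Measurable fun p : (Fin r → Xo) × ℝ => f r p.1 s (zyC y0 (D r p.1) s p.2)) :
    MIn (SyC y0 D f) := by
  intro r a b
  unfold SyC
  refine Finset.measurable_fun_sum _ fun k _ => ?_
  exact (hf r (spQ a b k)).comp (measurable_fst.prodMk ((meas_elimC k).comp measurable_snd))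

/-- the derivative along a field -/
theorem _root_.PBF.PLX.MIn.dxC {X : Bool → ℂ → ℂ} {dΨ : DIns} (hm : MCrC D D1) (hs : InSC y0 b0 D)
    (hb : b0 < b1) (hX : PB.FldF b1 X)
    (hd : ∀ r a b (k : Fin a ⊕ Fin b), Measurable
      fun p : (Fin r → Xo) × ((Fin a → ℝ) × (Fin b → ℝ)) => dΨ r p.1 a b k p.2) :
    MIn (DX (XCyC y0 D X) dΨ) := by
  intro r a b
  unfold PBF.PLX.DX
  refine Finset.measurable_fun_sum _ fun k _ => Measurable.mul ?_ (hd r a b k)
  exact meas_an (hX.d _) (meas_zqyC hm y0 r k) fun p => (zyC_strip hs r p.1 _ _).trans_lt hb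

variable [Fil]

/-- the linear statistic -/
theorem _root_.PBF.PLX.MIn.vyC (hm : MCrC D D1) (hs : InSC y0 b0 D) (hb : b0 < b1) (ρ : ℂ → ℂ)
    {g : Bool → ℂ → ℂ} (hg : ∀ s (z : ℂ), |z.im| < b1 → DifferentiableAt ℂ (g s) z) :
    MIn (VyC y0 D ρ g) := by
  intro r a b
  unfold VyC PB.NX.nuL
  refine Measurable.sub (Finset.measurable_fun_sum _ fun k _ => ?_) measurable_const
  exact meas_an (hg _) (meas_zqyC hm y0 r k) fun p => (zyC_strip hs r p.1 _ _).trans_lt hb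

/-- the quadratic statistic -/
theorem _root_.PBF.PLX.MIn.qyC (hm : MCrC D D1) (hs : InSC y0 b0 D) (h0 : 0 < b1) (hb : b0 < b1)
    {ρ : ℂ → ℂ} (hρ : PB.SeaF b1 ρ) {X : Bool → ℂ → ℂ} (hX : PB.FldF b1 X) :
    MIn (QyC y0 D ρ X) := by
  intro r a b
  have hz := fun k : Fin a ⊕ Fin b => meas_zqyC hm y0 r k
  have hz' := fun (k : Fin a ⊕ Fin b) (p : (Fin r → Xo) × ((Fin a → ℝ) × (Fin b → ℝ))) =>
    (zyC_strip hs r p.1 (spQ a b k) (Sum.elim p.2.1 p.2.2 k)).trans_lt hb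
  unfold QyC PB.NX.nuQ
  refine ((measurable_const.mul (Finset.measurable_fun_sum _ fun i _ =>
    Finset.measurable_fun_sum _ fun j _ => ?_)).sub
    (Finset.measurable_fun_sum _ fun i _ => ?_)).add measurable_const
  · exact meas_aC hX _ _ (hz i) (hz j) (hz' i) (hz' j)
  · exact meas_smr hX h0 hρ _ (hz i) (hz' i)

/-- the force -/
theorem meas_lamYC {LZ : Bool → ℂ → ℂ} {LP : (r : ℕ) → (Fin r → Xo) → Bool → ℂ → ℂ} {ρ : ℂ → ℂ}
    (hm : MCrC D D1) (hs : InSC y0 b0 D) (hb : b0 < b1) (hρ : PB.SeaF b1 ρ)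
    (mZ : ∀ s, Measurable (LZ s))
    (mP : ∀ r s, Measurable fun p : (Fin r → Xo) × ℂ => LP r p.1 s p.2) (r : ℕ) (s : Bool) :
    Measurable fun p : (Fin r → Xo) × ℝ =>
      lamY y0 ρ (LT LZ LP) r p.1 s (zyC y0 (D r p.1) s p.2) := by
  unfold PBF.PLX.lamY PBF.PLX.LT
  have hz := meas_zyC hm y0 r s
  have hp : Measurable fun p : (Fin r → Xo) × ℝ =>
      ((NUP1.l : ℂ) + I * (zyC y0 (D r p.1) s p.2 + I * y0)) :=
    measurable_const.add (measurable_const.mul (hz.add measurable_const))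
  refine (measurable_const.mul (((mZ s).comp hp).add
    ((mP r s).comp (measurable_fst.prodMk hp)))).sub ?_
  exact meas_kp2 hρ.d hz (fun p => (zyC_strip hs r p.1 _ _).trans_lt hb) s

end meas

end PLT

end
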