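import Pool.Agent.PLX.R2.R2core

/-!
# R2 over a static kernel

`PLX/R2/R2core` for pair potentials `U (x - y) - k x y` whose kernels `k`, `k'` are close to one fixed
kernel `k0` of order one: only the differences `k - k0`, `k' - k0` are small.  The terms of `k0` which are
quadratic in the field are in `Q0`, the terms which are linear in the field are in the odd part `ellS`.
-/

set_option autoImplicit false

open MeasureTheory Set Filter Topology NUKer NUTr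

namespace NUR2

variable {p n : ℕ} {R Λ0 Λ l1 l2 S N1 : ℝ} {ρ σ F' ψX ψX' ψY ψY' Us Uc aX aY EX EY χ : ℝ → ℝ}
  {qX qY qc kX kX' kY kY' kc kc' k0X k0Y k0c : ℝ → ℝ → ℝ}

/-- one pair of species over the static kernel `k0` -/
structure PkS (R Λ0 Λ : ℝ) (ψ φ U : ℝ → ℝ) (q k k' k0 : ℝ → ℝ → ℝ) : Prop where
  pk : Pk R Λ0 ψ φ U q k k'
  c0 : Continuous fun z : ℝ × ℝ => k0 z.1 z.2
  sk : KC R Λ (fun t t' => ((k t t' - k0 t t' : ℝ) : ℂ))
  sk' : KC R Λ (fun t t' => ((k' t t' - k0 t t' : ℝ) : ℂ))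

/-- all hypotheses -/
structure Hyp2S (p n : ℕ) (R Λ0 Λ l1 l2 S : ℝ) (ρ σ F' ψX ψX' ψY ψY' Us Uc aX aY EX EY χ : ℝ → ℝ)
    (qX qY qc kX kX' kY kY' kc kc' k0X k0Y k0c : ℝ → ℝ → ℝ) : Prop where
  T : Tr2 R ρ σ F' ψX ψX' ψY ψY'
  PX : PkS R Λ0 Λ ψX ψX Us qX kX kX' k0X
  PY : PkS R Λ0 Λ ψY ψY Us qY kY kY' k0Y
  Pc : PkS R Λ0 Λ ψX ψY Uc qc kc kc' k0c
  sX : ∀ x y, |x| ≤ R → |y| ≤ R → kX x y = kX y x
  sX' : ∀ x y, |x| ≤ R → |y| ≤ R → kX' x y = kX' y x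
  sY : ∀ x y, |x| ≤ R → |y| ≤ R → kY x y = kY y x
  sY' : ∀ x y, |x| ≤ R → |y| ≤ R → kY' x y = kY' y x
  OX : OB R l1 ψX ψX' aX EX (IX2 R ρ σ Us Uc kX kc) kX kX'
  OY : OB R l1 ψY ψY' aY EY (IY2 R ρ σ Us Uc kY kc) kY kY'
  cχ : Continuous χ
  χX : KC R l2 (fun x _ => ((χ (ψX x) - χ x : ℝ) : ℂ))
  χY : KC R l2 (fun x _ => ((χ (ψY x) - χ x : ℝ) : ℂ))
  fin : IsFiniteMeasure (mu (p := p) (n := n) R qX qY qc aX aY)
  rig : Rig2 (mu (p := p) (n := n) R qX qY qc aX aY) R ρ σ S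

/-- linear functional, species `X` -/
noncomputable def LfX (R : ℝ) (Us Uc F' χ : ℝ → ℝ) (k0X k0c : ℝ → ℝ → ℝ) (x : ℝ) : ℝ :=
  Lf R Us Uc F' χ x - (∫ y, k0X x y * F' y ∂(mW R)) + ∫ y, k0c x y * F' y ∂(mW R)

/-- linear functional, species `Y` -/
noncomputable def LfY (R : ℝ) (Us Uc F' χ : ℝ → ℝ) (k0Y k0c : ℝ → ℝ → ℝ) (y : ℝ) : ℝ :=
  Lf R Us Uc F' χ y - (∫ z, k0Y y z * F' z ∂(mW R)) + ∫ x, k0c x y * F' x ∂(mW R)

/-- the quadratic term of the static kernels -/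
noncomputable def Q0 (R : ℝ) (F' : ℝ → ℝ) (k0X k0Y k0c : ℝ → ℝ → ℝ) : ℝ :=
  1 / 2 * TT (mW R) k0X F' F' + 1 / 2 * TT (mW R) k0Y F' F' - TT (mW R) k0c F' F'

/-- the odd part -/
noncomputable def ellS (μ : Measure (Cfg p n)) (R : ℝ) (ρ σ F' Us Uc EX EY χ : ℝ → ℝ)
    (k0X k0Y k0c : ℝ → ℝ → ℝ) : ℝ :=
  ((∫ y, F' y * EY y ∂(mW R)) - ∫ y, F' y * EX y ∂(mW R)) +
    ((∫ x, nu R ρ x.1 (LfX R Us Uc F' χ k0X k0c) ∂μ) - ∫ x, nu R σ x.2 (LfY R Us Uc F' χ k0Y k0c) ∂μ) /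
      μ.real univ +
    ((∫ y, χ y * ρ y ∂(mW R)) - ∫ y, χ y * σ y ∂(mW R))

/-- clamping of the kernels `k`, `k'` -/
lemma PkS.clk {ψ φ U : ℝ → ℝ} {q k k' k0 : ℝ → ℝ → ℝ} (hR : 0 ≤ R) (P : PkS R Λ0 Λ ψ φ U q k k' k0)
    (hψ : ∀ x, |ψ x| ≤ R ↔ |x| ≤ R) (hφ : ∀ x, |φ x| ≤ R ↔ |x| ≤ R) :
    PkS R Λ0 Λ ψ φ U q (NUR2.clk R k) (NUR2.clk R k') k0 where
  pk := P.pk.clk hR hψ hφ
  c0 := P.c0
  sk := P.sk.congr fun t t' ht ht' => by rw [clk_eq ht ht']
  sk' := P.sk'.congr fun t t' ht ht' => by rw [clk_eq ht ht']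

set_option maxHeartbeats 2000000 in
theorem r2core0_S (H : Hyp2S p n R Λ0 Λ l1 l2 S ρ σ F' ψX ψX' ψY ψY' Us Uc aX aY EX EY χ qX qY qc kX kX' kY kY'
      kc kc' k0X k0Y k0c)
    (cX : Continuous fun z : ℝ × ℝ => kX z.1 z.2) (cX' : Continuous fun z : ℝ × ℝ => kX' z.1 z.2)
    (cY : Continuous fun z : ℝ × ℝ => kY z.1 z.2) (cY' : Continuous fun z : ℝ × ℝ => kY' z.1 z.2)
    (cc : Continuous fun z : ℝ × ℝ => kc z.1 z.2) (cc' : Continuous fun z : ℝ × ℝ => kc' z.1 z.2)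
    (sX : ∀ x y, kX x y = kX y x) (sX' : ∀ x y, kX' x y = kX' y x)
    (sY : ∀ x y, kY x y = kY y x) (sY' : ∀ x y, kY' x y = kY' y x) :
    ENNReal.ofReal ((mu (p := p) (n := n) R qX qY qc aX aY).real univ *
      Real.exp ((-2 * (∫ y, F' y * χ y ∂(mW R)) - TT (mW R) (fun x y => Us (x - y) - Uc (x - y)) F' F') +
        Q0 R F' k0X k0Y k0c +
        ellS (mu (p := p) (n := n) R qX qY qc aX aY) R ρ σ F' Us Uc EX EY χ k0X k0Y k0c -
        err Λ l1 l2 S (∫ y, |F' y| ∂(mW R)))) ≤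
    ∫⁻ x, ENNReal.ofReal (Real.exp (∑ i, χ (x.1 i) - ∑ j, χ (x.2 j)))
      ∂(mu (p := p) (n := n) R qX qY qc aX aY) := by
  obtain ⟨T, ⟨PX, c0X, sk1, sk1'⟩, ⟨PY, c0Y, sk2, sk2'⟩, ⟨Pc, c0c, sk3, sk3'⟩, -, -, -, -, OX, OY, cχ,
    hχX, hχY, hfin, rig⟩ := H
  have hR := T.R0.le
  have cρ := T.cρ
  have cσ := T.cσ
  set μ : Measure (Cfg p n) := mu (p := p) (n := n) R qX qY qc aX aY with hμ
  set N : ℝ := ∫ y, |F' y| ∂(mW R) with hN
  have cψX : Continuous ψX := continuous_iff_continuousAt.2 fun x => (T.dX.der x).continuousAt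
  have cψY : Continuous ψY := continuous_iff_continuousAt.2 fun x => (T.dY.der x).continuousAt
  -- kernels
  set κX : ℝ → ℝ → ℝ := fun x y => kX' x y - kX x y with hκX
  set κY : ℝ → ℝ → ℝ := fun x y => kY' x y - kY x y with hκY
  set κc : ℝ → ℝ → ℝ := fun x y => kc' x y - kc x y with hκc
  have cκX : Continuous fun z : ℝ × ℝ => κX z.1 z.2 := cX'.sub cX
  have cκY : Continuous fun z : ℝ × ℝ => κY z.1 z.2 := cY'.sub cY
  have cκc : Continuous fun z : ℝ × ℝ => κc z.1 z.2 := cc'.sub cc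
  have sκX : ∀ x y, κX x y = κX y x := fun x y => by simp only [hκX]; rw [sX, sX']
  have sκY : ∀ x y, κY x y = κY y x := fun x y => by simp only [hκY]; rw [sY, sY']
  have KκX : KC R (2 * Λ) (fun t t' => (κX t t' : ℂ)) :=
    ((sk1'.sub sk1).mono (le_of_eq (by ring))).congr fun t t' _ _ => by simp only [hκX]; push_cast; ring
  have KκY : KC R (2 * Λ) (fun t t' => (κY t t' : ℂ)) :=
    ((sk2'.sub sk2).mono (le_of_eq (by ring))).congr fun t t' _ _ => by simp only [hκY]; push_cast; ring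
  have Kκc : KC R (2 * Λ) (fun t t' => (κc t t' : ℂ)) :=
    ((sk3'.sub sk3).mono (le_of_eq (by ring))).congr fun t t' _ _ => by simp only [hκc]; push_cast; ring
  -- one body functions
  set v1 := vX2 R ρ σ F' ψX Us Uc EX kX kX' kc kc' with hv1
  set v2 := vY2 R ρ σ F' ψY Us Uc EY kY kY' kc kc' with hv2
  have cUs := conv_cont PX.li T.cF T.sF
  have cUc := conv_cont Pc.li T.cF T.sF
  have cEψX : Continuous fun y => EX (ψX y) := OX.cE.comp cψX
  have cEψY : Continuous fun y => EY (ψY y) := OY.cE.comp cψY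
  have cχX : Continuous fun y => χ (ψX y) := cχ.comp cψX
  have cχY : Continuous fun y => χ (ψY y) := cχ.comp cψY
  have cgX := cont_mW (F' := F') hR cX' T.cF
  have cgY := cont_mW (F' := F') hR cY' T.cF
  have cgc := cont_mW (F' := F') hR cc' T.cF
  have cgc' := cont_mW' (F' := F') hR cc' T.cF
  have c1' : Continuous fun z : ℝ × ℝ => (fun x y => kX' x y - k0X x y) z.1 z.2 := cX'.sub c0X
  have c2' : Continuous fun z : ℝ × ℝ => (fun x y => kY' x y - k0Y x y) z.1 z.2 := cY'.sub c0Y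
  have c3' : Continuous fun z : ℝ × ℝ => (fun x y => kc' x y - k0c x y) z.1 z.2 := cc'.sub c0c
  have dgX := cont_mW (κ := fun x y => kX' x y - k0X x y) (F' := F') hR c1' T.cF
  have dgY := cont_mW (κ := fun x y => kY' x y - k0Y x y) (F' := F') hR c2' T.cF
  have dgc := cont_mW (κ := fun x y => kc' x y - k0c x y) (F' := F') hR c3' T.cF
  have dgc' := cont_mW' (κ := fun x y => kc' x y - k0c x y) (F' := F') hR c3' T.cF
  have sgX := cont_mW (F' := F') hR c0X T.cF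
  have sgY := cont_mW (F' := F') hR c0Y T.cF
  have sgc := cont_mW (F' := F') hR c0c T.cF
  have sgc' := cont_mW' (F' := F') hR c0c T.cF
  have cv1 : Continuous v1 := by
    rw [hv1]
    exact (((((cEψX.sub OX.cE).add (cUs.sub cUc)).sub cgX).add cgc).sub (cont_conv cκX cρ)).sub
      (cont_conv cκc cσ)
  have cv2 : Continuous v2 := by
    rw [hv2]
    exact (((((cEψY.sub OY.cE).sub (cUs.sub cUc)).add cgY).sub cgc').sub (cont_conv cκY cσ)).sub
      (cont_conv' cκc cρ)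
  have oX : OneRel R ψX ψX' aX v1 κX := by
    intro x hx
    rw [OX.rel x hx, hv1, vX_eq2 T PX Pc cX cX' cc cc' hx]
  have oY : OneRel R ψY ψY' aY v2 κY := by
    intro x hx
    rw [OY.rel x hx, hv2, vY_eq2 T PY Pc cY cY' cc cc' hx]
  -- the transported integral
  set G : Cfg p n → ℝ := fun x => ∑ i, χ (x.1 i) - ∑ j, χ (x.2 j) with hG
  have cTh : Continuous fun x : Cfg p n => Th v1 v2 κX κY κc x := by
    unfold Th Th1
    refine Continuous.add (Continuous.add (Continuous.add ?_ (continuous_const.mul ?_))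
      (Continuous.add ?_ (continuous_const.mul ?_))) ?_
    · exact continuous_finsetSum _ fun i _ => cv1.comp (by fun_prop)
    · exact continuous_finsetSum _ fun i _ => continuous_finsetSum _ fun j _ =>
        cκX.comp (by fun_prop : Continuous fun x : Cfg p n => (x.1 i, x.1 j))
    · exact continuous_finsetSum _ fun i _ => cv2.comp (by fun_prop)
    · exact continuous_finsetSum _ fun i _ => continuous_finsetSum _ fun j _ =>
        cκY.comp (by fun_prop : Continuous fun x : Cfg p n => (x.2 i, x.2 j))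
    · exact continuous_finsetSum _ fun i _ => continuous_finsetSum _ fun j _ =>
        cκc.comp (by fun_prop : Continuous fun x : Cfg p n => (x.1 i, x.2 j))
  have cG : Continuous G := by
    rw [hG]
    fun_prop
  have cmv : Continuous fun x : Cfg p n => mv ψX ψY x := by
    unfold mv
    fun_prop
  have htr := transport_mu (p := p) (n := n) (κX := κX) (κY := κY) (κc := κc) (G := G) T.dX T.dY T.mX T.mY T.bX T.bY PX.rel PY.rel Pc.rel
    (fun x y _ _ => sκX x y) (fun x y _ _ => sκY x y) oX oY PX.q0 PY.q0 Pc.q0 OX.a0 OY.a0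
    PX.qm PY.qm Pc.qm OX.am OY.am cG.measurable cTh.measurable
  refine le_trans ?_ (le_of_eq htr.symm)
  -- decomposition
  set f1 := LX2 R ρ σ v1 κX κc with hf1
  set f2 := LX2 R σ ρ v2 κY (fun y x => κc x y) with hf2
  have cf1 : Continuous f1 := by
    rw [hf1]
    exact (cv1.add (cont_conv cκX cρ)).add (cont_conv cκc cσ)
  have cf2 : Continuous f2 := by
    rw [hf2]
    exact (cv2.add (cont_conv cκY cσ)).add (cont_conv' cκc cρ)
  set LX := LfX R Us Uc F' χ k0X k0c with hLX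
  set LY := LfY R Us Uc F' χ k0Y k0c with hLY
  have cL : Continuous (Lf R Us Uc F' χ) := cχ.add (cUs.sub cUc)
  have cLX : Continuous LX := (cL.sub sgX).add sgc
  have cLY : Continuous LY := (cL.sub sgY).add sgc'
  set r1 : ℝ → ℝ := fun x => (EX (ψX x) - EX x) + (χ (ψX x) - χ x) -
    (∫ y, (kX' x y - k0X x y) * F' y ∂(mW R)) + (∫ y, (kc' x y - k0c x y) * F' y ∂(mW R)) with hr1
  set r2 : ℝ → ℝ := fun y => (EY (ψY y) - EY y) - (χ (ψY y) - χ y) +
    (∫ z, (kY' y z - k0Y y z) * F' z ∂(mW R)) - (∫ x, (kc' x y - k0c x y) * F' x ∂(mW R)) with hr2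
  have cr1 : Continuous r1 := (((cEψX.sub OX.cE).add (cχX.sub cχ)).sub dgX).add dgc
  have cr2 : Continuous r2 := (((cEψY.sub OY.cE).sub (cχY.sub cχ)).add dgY).sub dgc'
  have es : ∀ {κ κ' : ℝ → ℝ → ℝ}, (Continuous fun z : ℝ × ℝ => κ z.1 z.2) →
      (Continuous fun z : ℝ × ℝ => κ' z.1 z.2) → ∀ x, (∫ y, (κ x y - κ' x y) * F' y ∂(mW R)) =
        (∫ y, κ x y * F' y ∂(mW R)) - ∫ y, κ' x y * F' y ∂(mW R) := by
    intro κ κ' h1 h2 x
    rw [← integral_sub ((ker_cont h1).int1 T.bF x) ((ker_cont h2).int1 T.bF x)]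
    exact integral_congr_ae (Eventually.of_forall fun y => by simp only; ring)
  have es' : ∀ {κ κ' : ℝ → ℝ → ℝ}, (Continuous fun z : ℝ × ℝ => κ z.1 z.2) →
      (Continuous fun z : ℝ × ℝ => κ' z.1 z.2) → ∀ y, (∫ x, (κ x y - κ' x y) * F' x ∂(mW R)) =
        (∫ x, κ x y * F' x ∂(mW R)) - ∫ x, κ' x y * F' x ∂(mW R) := by
    intro κ κ' h1 h2 x
    rw [← integral_sub ((ker_cont h1).symm.int1 T.bF x) ((ker_cont h2).symm.int1 T.bF x)]
    exact integral_congr_ae (Eventually.of_forall fun y => by simp only; ring)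
  have d1 : ∀ x, f1 x + χ (ψX x) = LX x + r1 x := by
    intro x
    rw [hf1, hv1, hκX, hκc, LX_eq2]
    simp only [hLX, LfX, Lf, hr1]
    rw [es cX' c0X, es cc' c0c]
    ring
  have d2 : ∀ x, f2 x - χ (ψY x) = r2 x - LY x := by
    intro x
    rw [hf2, hv2, hκY, hκc, LY_eq2]
    simp only [hLY, LfY, Lf, hr2]
    rw [es cY' c0Y, es' cc' c0c]
    ring
  set S0 : ℝ := ((∫ y in (-R)..R, f1 y * ρ y) + (∫ y in (-R)..R, f2 y * σ y) -
      1 / 2 * (∫ y in (-R)..R, (∫ x in (-R)..R, κX x y * ρ x) * ρ y) -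
      1 / 2 * (∫ y in (-R)..R, (∫ x in (-R)..R, κY x y * σ x) * σ y) -
      ∫ x in (-R)..R, (∫ y in (-R)..R, κc x y * σ y) * ρ x) +
      ((∫ y in (-R)..R, χ (ψX y) * ρ y) - ∫ y in (-R)..R, χ (ψY y) * σ y) with hS0
  have hdec : ∀ x : Cfg p n, Th v1 v2 κX κY κc x + G (mv ψX ψY x) =
      ((nu R ρ x.1 LX - nu R σ x.2 LY) + (nu R ρ x.1 r1 + nu R σ x.2 r2)) +
      (1 / 2 * nu2 R ρ ρ x.1 x.1 κX + 1 / 2 * nu2 R σ σ x.2 x.2 κY + nu2 R ρ σ x.1 x.2 κc) + S0 := by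
    intro x
    have e1 := Th_split2 (p := p) (n := n) (R := R) cρ cσ cv1 cv2 cκX cκY cκc sκX sκY x
    rw [← hf1, ← hf2] at e1
    have e2 : G (mv ψX ψY x) = (nu R ρ x.1 (fun t => χ (ψX t)) + ∫ y in (-R)..R, χ (ψX y) * ρ y) -
        (nu R σ x.2 (fun t => χ (ψY t)) + ∫ y in (-R)..R, χ (ψY y) * σ y) := by
      simp only [hG, mv, nu]
      ring
    have e3 : nu R ρ x.1 f1 + nu R ρ x.1 (fun t => χ (ψX t)) = nu R ρ x.1 LX + nu R ρ x.1 r1 := by
      rw [← nu_add cρ cf1 cχX, ← nu_add cρ cLX cr1]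
      congr 1
      funext t
      exact d1 t
    have e4 : nu R σ x.2 f2 - nu R σ x.2 (fun t => χ (ψY t)) = nu R σ x.2 r2 - nu R σ x.2 LY := by
      rw [← nu_sub cσ cf2 cχY, ← nu_sub cσ cr2 cLY]
      congr 1
      funext t
      exact d2 t
    rw [e1, e2, hS0]
    linarith
  simp only [hdec]
  -- integrals
  have : IsFiniteMeasure μ := hfin
  set Z : ℝ := μ.real univ with hZ
  have hZ0 : 0 ≤ Z := measureReal_nonneg
  have i1 : Integrable (fun x : Cfg p n => nu R ρ x.1 LX) μ := int_mu (nu_contX cLX)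
  have i2 : Integrable (fun x : Cfg p n => nu R σ x.2 LY) μ := int_mu (nu_contY cLY)
  have i3 : Integrable (fun x : Cfg p n => nu R ρ x.1 r1) μ := int_mu (nu_contX cr1)
  have i4 : Integrable (fun x : Cfg p n => nu R σ x.2 r2) μ := int_mu (nu_contY cr2)
  have i5 : Integrable (fun x : Cfg p n => nu2 R ρ ρ x.1 x.1 κX) μ := int_mu (nu2_contXX cρ cκX)
  have i6 : Integrable (fun x : Cfg p n => nu2 R σ σ x.2 x.2 κY) μ := int_mu (nu2_contYY cσ cκY)
  have i7 : Integrable (fun x : Cfg p n => nu2 R ρ σ x.1 x.2 κc) μ := int_mu (nu2_contXY2 cρ cσ cκc)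
  have iT : Integrable (fun x : Cfg p n => ((nu R ρ x.1 LX - nu R σ x.2 LY) + (nu R ρ x.1 r1 + nu R σ x.2 r2)) +
      (1 / 2 * nu2 R ρ ρ x.1 x.1 κX + 1 / 2 * nu2 R σ σ x.2 x.2 κY + nu2 R ρ σ x.1 x.2 κc) + S0) μ :=
    (((i1.sub i2).add (i3.add i4)).add (((i5.const_mul _).add (i6.const_mul _)).add i7)).add
      (integrable_const _)
  have hint : ∫ x : Cfg p n, ((nu R ρ x.1 LX - nu R σ x.2 LY) + (nu R ρ x.1 r1 + nu R σ x.2 r2)) +
      (1 / 2 * nu2 R ρ ρ x.1 x.1 κX + 1 / 2 * nu2 R σ σ x.2 x.2 κY + nu2 R ρ σ x.1 x.2 κc) + S0 ∂μ =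
      ((∫ x, nu R ρ x.1 LX ∂μ) - ∫ x, nu R σ x.2 LY ∂μ) +
      ((∫ x, nu R ρ x.1 r1 ∂μ) + ∫ x, nu R σ x.2 r2 ∂μ) +
      (1 / 2 * (∫ x, nu2 R ρ ρ x.1 x.1 κX ∂μ) + 1 / 2 * (∫ x, nu2 R σ σ x.2 x.2 κY ∂μ) +
        ∫ x, nu2 R ρ σ x.1 x.2 κc ∂μ) + S0 * Z := by
    have a1 := integral_add (((i1.sub i2).add (i3.add i4)).add (((i5.const_mul (1/2)).add (i6.const_mul (1/2))).add i7))
      (integrable_const (μ := μ) S0)
    have a2 := integral_add ((i1.sub i2).add (i3.add i4)) (((i5.const_mul (1/2)).add (i6.const_mul (1/2))).add i7)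
    have a3 := integral_add (i1.sub i2) (i3.add i4)
    have a4 := integral_sub i1 i2
    have a5 := integral_add i3 i4
    have a6 := integral_add ((i5.const_mul (1/2)).add (i6.const_mul (1/2))) i7
    have a7 := integral_add (i5.const_mul (1/2)) (i6.const_mul (1/2))
    simp only [Pi.add_apply, Pi.sub_apply] at a1 a2 a3 a4 a5 a6 a7
    rw [a1, a2, a3, a4, a5, a6, a7, integral_const_mul, integral_const_mul, integral_const, smul_eq_mul,
      mul_comm S0]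
  -- the value of `S0`
  have hS := S0_eq2 (EX := EX) (EY := EY) (χ := χ) T PX PY Pc cX cX' cY cY' cc cc' sX sX' sY sY' OX.cE OY.cE cχ
  rw [← hv1, ← hv2] at hS
  have hS' : S0 = _ := hS
  -- bounds
  have hΛ := sk1.nonneg
  have hN0 : 0 ≤ N := integral_nonneg fun y => abs_nonneg _
  have kgX := kc_int (κ := fun x y => kX' x y - k0X x y) hR c1' sk1' T.cF
  have kgY := kc_int (κ := fun x y => kY' x y - k0Y x y) hR c2' sk2' T.cF
  have kgc := kc_int (κ := fun x y => kc' x y - k0c x y) hR c3' sk3' T.cF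
  have kgc' : KC R (Λ * N) (fun y _ => ((∫ x, (kc' x y - k0c x y) * F' x ∂(mW R) : ℝ) : ℂ)) := by
    have c3 : Continuous fun z : ℝ × ℝ => (fun y x => kc' x y - k0c x y) z.1 z.2 := c3'.comp continuous_swap
    have h3 : KC R Λ (fun t t' => (((fun y x => kc' x y - k0c x y) t t' : ℝ) : ℂ)) := by
      intro ε hε
      obtain ⟨ι, hι, c, a, b, h1, h2⟩ := sk3' ε hε
      refine ⟨ι, hι, c, b, a, ?_, fun t t' ht ht' => ?_⟩
      · refine le_trans (le_of_eq (Finset.sum_congr rfl fun i _ => ?_)) h1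
        ring
      · have := h2 t' t ht' ht
        refine le_trans (le_of_eq ?_) this
        congr 2
        refine Finset.sum_congr rfl fun i _ => ?_
        rw [add_comm (b i * t)]
    exact kc_int (κ := fun y x => kc' x y - k0c x y) hR c3 h3 T.cF
  have kr1 : KC R (l1 + l2 + 2 * Λ * N) (fun t _ => (r1 t : ℂ)) := by
    refine (((OX.small.add hχX).sub kgX).add kgc |>.mono (le_of_eq ?_)).congr fun t t' _ _ => ?_
    · rw [← hN]
      ring
    · simp only [hr1]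
      push_cast
      ring
  have kr2 : KC R (l1 + l2 + 2 * Λ * N) (fun t _ => (r2 t : ℂ)) := by
    refine (((OY.small.sub hχY).add kgY).sub kgc' |>.mono (le_of_eq ?_)).congr fun t t' _ _ => ?_
    · rw [← hN]
      ring
    · simp only [hr2]
      push_cast
      ring
  have b1 := (abs_le.1 (rig.X r1 _ cr1 kr1)).1
  have b2 := (abs_le.1 (rig.Y r2 _ cr2 kr2)).1
  have b3 := (abs_le.1 (rig.XX κX _ cκX KκX)).1
  have b4 := (abs_le.1 (rig.YY κY _ cκY KκY)).1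
  have b5 := (abs_le.1 (rig.XY κc _ cκc Kκc)).1
  rw [← hZ] at b1 b2 b3 b4 b5
  have q1 := (abs_le.1 (int_small hR OX.small T.cF)).2
  have q2 := (abs_le.1 (int_small hR OY.small T.cF)).1
  have q3 := (abs_le.1 (int_small hR hχX T.cF)).2
  have q4 := (abs_le.1 (int_small hR hχY T.cF)).2
  have q5 := (abs_le.1 (TT_small (κ := fun x y => kX' x y - k0X x y) hR c1' sk1' T.cF)).1
  have q6 := (abs_le.1 (TT_small (κ := fun x y => kY' x y - k0Y x y) hR c2' sk2' T.cF)).1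
  have q7 := (abs_le.1 (TT_small (κ := fun x y => kc' x y - k0c x y) hR c3' sk3' T.cF)).2
  rw [(ker_cont cX').TT_sub (ker_cont c0X) T.bF T.bF] at q5
  rw [(ker_cont cY').TT_sub (ker_cont c0Y) T.bF T.bF] at q6
  rw [(ker_cont cc').TT_sub (ker_cont c0c) T.bF T.bF] at q7
  rw [← hN] at q1 q2 q3 q4 q5 q6 q7
  refine jensen_lower iT ?_
  rw [hint, ← hZ]
  -- final inequality
  set A1 : ℝ := ∫ x, nu R ρ x.1 LX ∂μ with hA1
  set A2 : ℝ := ∫ x, nu R σ x.2 LY ∂μ with hA2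
  set M0 : ℝ := -2 * (∫ y, F' y * χ y ∂(mW R)) - TT (mW R) (fun x y => Us (x - y) - Uc (x - y)) F' F' with hM0
  set O1 : ℝ := (∫ y, F' y * EY y ∂(mW R)) - ∫ y, F' y * EX y ∂(mW R) with hO1
  set O2 : ℝ := (∫ y, χ y * ρ y ∂(mW R)) - ∫ y, χ y * σ y ∂(mW R) with hO2
  have hell : ellS μ R ρ σ F' Us Uc EX EY χ k0X k0Y k0c = O1 + (A1 - A2) / Z + O2 := rfl
  set QQ : ℝ := Q0 R F' k0X k0Y k0c with hQQ
  have hQ : QQ = 1 / 2 * TT (mW R) k0X F' F' + 1 / 2 * TT (mW R) k0Y F' F' - TT (mW R) k0c F' F' := rfl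
  have hS0' : M0 + QQ + O1 + O2 - (2 * (l1 + l2) * N + 2 * Λ * N ^ 2) ≤ S0 := by
    rw [hS', hQ]
    linarith
  have hellZ : (M0 + QQ + ellS μ R ρ σ F' Us Uc EX EY χ k0X k0Y k0c - err Λ l1 l2 S N) * Z ≤
      (M0 + QQ + O1 + O2 - err Λ l1 l2 S N) * Z + (A1 - A2) := by
    rw [hell]
    rcases eq_or_lt_of_le hZ0 with h0 | h0
    · -- the measure vanishes
      have hμ0 : μ = 0 := by
        rw [← Measure.measure_univ_eq_zero]
        have : μ.real univ = 0 := by rw [← hZ]; exact h0.symm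
        rw [measureReal_def, ENNReal.toReal_eq_zero_iff] at this
        rcases this with h | h
        · exact h
        · exact absurd h (measure_ne_top μ _)
      have e1 : A1 = 0 := by rw [hA1, hμ0]; simp
      have e2 : A2 = 0 := by rw [hA2, hμ0]; simp
      rw [e1, e2, ← h0]
      simp
    · have : (A1 - A2) / Z * Z = A1 - A2 := div_mul_cancel₀ _ h0.ne'
      nlinarith
  refine hellZ.trans ?_
  have hm := mul_le_mul_of_nonneg_right hS0' hZ0
  unfold err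
  nlinarith [hm]

/-- **R2 over a static kernel** -/
theorem r2coreS (H : Hyp2S p n R Λ0 Λ l1 l2 S ρ σ F' ψX ψX' ψY ψY' Us Uc aX aY EX EY χ qX qY qc kX kX' kY kY'
      kc kc' k0X k0Y k0c) :
    ENNReal.ofReal ((mu (p := p) (n := n) R qX qY qc aX aY).real univ *
      Real.exp ((-2 * (∫ y, F' y * χ y ∂(mW R)) - TT (mW R) (fun x y => Us (x - y) - Uc (x - y)) F' F') +
        Q0 R F' k0X k0Y k0c +
        ellS (mu (p := p) (n := n) R qX qY qc aX aY) R ρ σ F' Us Uc EX EY χ k0X k0Y k0c -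
        err Λ l1 l2 S (∫ y, |F' y| ∂(mW R)))) ≤
    ∫⁻ x, ENNReal.ofReal (Real.exp (∑ i, χ (x.1 i) - ∑ j, χ (x.2 j)))
      ∂(mu (p := p) (n := n) R qX qY qc aX aY) := by
  have hR := H.T.R0.le
  have HX := H.PX.pk.kc.clamp hR
  have HX' := H.PX.pk.kc'.clamp hR
  have HY := H.PY.pk.kc.clamp hR
  have HY' := H.PY.pk.kc'.clamp hR
  have Hc := H.Pc.pk.kc.clamp hR
  have Hc' := H.Pc.pk.kc'.clamp hR
  have H' : Hyp2S p n R Λ0 Λ l1 l2 S ρ σ F' ψX ψX' ψY ψY' Us Uc aX aY EX EY χ qX qY qc (clk R kX) (clk R kX')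
      (clk R kY) (clk R kY') (clk R kc) (clk R kc') k0X k0Y k0c := by
    refine ⟨H.T, H.PX.clk hR H.T.bX H.T.bX, H.PY.clk hR H.T.bY H.T.bY, H.Pc.clk hR H.T.bX H.T.bY,
      fun x y _ _ => clk_symm hR H.sX x y, fun x y _ _ => clk_symm hR H.sX' x y,
      fun x y _ _ => clk_symm hR H.sY x y, fun x y _ _ => clk_symm hR H.sY' x y, ?_, ?_, H.cχ, H.χX, H.χY,
      H.fin, H.rig⟩
    · refine ⟨H.OX.a0, H.OX.am, H.OX.cE, fun x hx => ?_, H.OX.small⟩
      rw [IX2_clk hx, IX2_clk ((H.T.bX x).2 hx), clk_eq hx hx, clk_eq hx hx]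
      exact H.OX.rel x hx
    · refine ⟨H.OY.a0, H.OY.am, H.OY.cE, fun x hx => ?_, H.OY.small⟩
      rw [IY2_clk hx, IY2_clk ((H.T.bY x).2 hx), clk_eq hx hx, clk_eq hx hx]
      exact H.OY.rel x hx
  exact r2core0_S H' HX.1 HX'.1 HY.1 HY'.1 Hc.1 Hc'.1 (clk_symm hR H.sX) (clk_symm hR H.sX')
    (clk_symm hR H.sY) (clk_symm hR H.sY')

lemma LfX_neg (R : ℝ) (Us Uc F' χ : ℝ → ℝ) (k0X k0c : ℝ → ℝ → ℝ) :
    LfX R Us Uc (fun x => - F' x) (fun x => - χ x) k0X k0c = fun x => - LfX R Us Uc F' χ k0X k0c x := by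
  funext x
  unfold LfX
  rw [Lf_neg]
  simp only [mul_neg, integral_neg]
  ring

lemma LfY_neg (R : ℝ) (Us Uc F' χ : ℝ → ℝ) (k0Y k0c : ℝ → ℝ → ℝ) :
    LfY R Us Uc (fun x => - F' x) (fun x => - χ x) k0Y k0c = fun x => - LfY R Us Uc F' χ k0Y k0c x := by
  funext x
  unfold LfY
  rw [Lf_neg]
  simp only [mul_neg, integral_neg]
  ring

/-- the odd part is odd in the field -/
theorem ellS_neg (μ : Measure (Cfg p n)) (R : ℝ) (ρ σ F' Us Uc EX EY χ : ℝ → ℝ) (k0X k0Y k0c : ℝ → ℝ → ℝ) :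
    ellS μ R ρ σ (fun x => - F' x) Us Uc EX EY (fun x => - χ x) k0X k0Y k0c =
      - ellS μ R ρ σ F' Us Uc EX EY χ k0X k0Y k0c := by
  unfold ellS
  rw [LfX_neg, LfY_neg]
  simp only [neg_mul, integral_neg, nu_neg]
  ring

/-- the static quadratic term is even -/
theorem Q0_neg (R : ℝ) (F' : ℝ → ℝ) (k0X k0Y k0c : ℝ → ℝ → ℝ) :
    Q0 R (fun x => - F' x) k0X k0Y k0c = Q0 R F' k0X k0Y k0c := by
  unfold Q0
  rw [TT_neg_neg, TT_neg_neg, TT_neg_neg]

end NUR2
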