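import Pool.Agent.PLX.TRMF2
import Pool.Agent.PLT.RRat

/-!
# Row R of the directions: the mean field of half quanta, legs and ends over rows at complex places

* `GXe p q z w w' s`: logarithm of (minus) the ratio regular / dislocated of the species X at `l + i s`, ends at `p`,
  `q`, legs at `z`, half quanta `w`, `w'` (own, other species); `GXe_shift`: vertical translation;
* **`GXe_mean`**: `exp (∫ Pc (s + i x) GXe p q z w w' s) = EXe p q z w w' x` (`PLT/RRat`), `|x| < l`;
* **`mean_rows`**: densities `c a * ∑ i, Pc (s + i x i)`, logarithms `D true = GXe p q z w w'`,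
  `D false = GXe p q z w' w`.
-/

set_option autoImplicit false

noncomputable section

open MeasureTheory Filter Topology Set Complex

namespace PLT.RT

open NUMF (Pc l)
open Pool.Agent.PB (fS exp_LS)
open Pool.Agent.PLX (LC LD GX c_flat d_flat)

open PBX (eT leg_eT)

/-- the logarithm of minus the ratio, species X with the half quanta `w`, `w'` (own, other), ends at `p`, `q`, legs at
`z` -/
def GXe (p q z w w' : ℂ) (s : ℝ) : ℂ :=
  -(fS (p + l - s * I) + fS (q + l - s * I)) + fS (z + l - s * I) + (LC (w - l - s * I) + LD (w' - l - s * I))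

theorem GXe_zero (z w w' : ℂ) (s : ℝ) : GXe 0 0 z w w' s = GX z w w' s := by
  unfold GXe GX
  rw [zero_add]
  ring

/-- **vertical translation** -/
theorem GXe_shift (d : ℝ) (z w w' : ℂ) (s : ℝ) :
    GXe (I * d) (I * d) z w w' s = GX (z - I * d) (w - I * d) (w' - I * d) (s - d) := by
  unfold GXe GX
  push_cast
  rw [show (l : ℂ) - ((s : ℂ) - d) * I = I * d + l - s * I by ring,
    show z - I * d + (l : ℂ) - ((s : ℂ) - d) * I = z + l - s * I by ring,
    show w - I * d - (l : ℂ) - ((s : ℂ) - d) * I = w - l - s * I by ring,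
    show w' - I * d - (l : ℂ) - ((s : ℂ) - d) * I = w' - l - s * I by ring]
  ring

/-- **the mean of the species X over a row at the real place `x`** -/
theorem GXe_mean {p q z w w' : ℂ} {x : ℝ} (hx : |x| < l) (hp0 : -l < p.re) (hp1 : p.re < 4 * l)
    (hq0 : -l < q.re) (hq1 : q.re < 4 * l)
    (hz0 : -l < z.re) (hz1 : z.re < 4 * l) (hw0 : l < w.re) (hw1 : w.re < 7 * l)
    (hw0' : -2 * l < w'.re) (hw1' : w'.re < 4 * l) :
    Integrable (fun s : ℝ => Pc (s + x * I) * GXe p q z w w' s) ∧
    exp (∫ s : ℝ, Pc (s + x * I) * GXe p q z w w' s) = EXe p q z w w' x := by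
  have hl := NUMF.l_pos
  obtain ⟨x1, x2⟩ := abs_lt.1 hx
  have hleg : ∀ {v : ℂ}, -l < v.re → v.re < 4 * l →
      Integrable (fun s : ℝ => Pc (s + x * I) * fS (v + l - s * I)) ∧
        exp (∫ s : ℝ, Pc (s + x * I) * fS (v + l - s * I)) = eT (v - x) := fun h0 h1 => leg_eT hx h0 h1
  obtain ⟨a1, a2⟩ := hleg hp0 hp1
  obtain ⟨a3, a4⟩ := hleg hq0 hq1
  obtain ⟨b1, b2⟩ := hleg hz0 hz1
  obtain ⟨c1, c2⟩ := c_flat hx hw0 hw1
  obtain ⟨d1, d2⟩ := d_flat hx hw0' hw1'
  have e0 : (fun s : ℝ => Pc (s + x * I) * GXe p q z w w' s) = fun s : ℝ =>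
      (-(Pc (s + x * I) * fS (p + l - s * I) + Pc (s + x * I) * fS (q + l - s * I)) +
        Pc (s + x * I) * fS (z + l - s * I)) +
        (Pc (s + x * I) * LC (w - l - s * I) + Pc (s + x * I) * LD (w' - l - s * I)) := by
    funext s
    unfold GXe
    ring
  have i0 := a1.add a3
  have i1 := i0.neg.add b1
  have i2 := c1.add d1
  rw [e0]
  refine ⟨i1.add i2, ?_⟩
  have s0 := integral_add a1 a3
  have s1 := integral_add i1 i2
  have s2 := integral_add i0.neg b1
  have s3 := integral_add c1 d1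
  have s4 := integral_neg (μ := volume) (f := fun s : ℝ => Pc (s + x * I) * fS (p + l - s * I) +
    Pc (s + x * I) * fS (q + l - s * I))
  simp only [Pi.add_apply, Pi.neg_apply] at s0 s1 s2 s3 s4
  have r1 : (w - (x : ℂ)).re = w.re - x := by simp
  have r2 : (w' + 3 * (l : ℂ) - (x : ℂ)).re = w'.re + 3 * l - x := by simp
  rw [s1, s2, s3, s4, s0, exp_add, exp_add, exp_add, exp_neg, exp_add, a2, a4, c2, d2, b2, exp_neg,
    exp_LS (by rw [r1]; linarith) (by rw [r1]; linarith),
    exp_LS (by rw [r2]; linarith) (by rw [r2]; linarith)]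
  unfold EXe
  rw [show w' - (x : ℂ) + 3 * (NUP1.l : ℂ) = w' + 3 * (l : ℂ) - x by
    rw [show NUP1.l = l from rfl]; ring]
  ring

/-- translation along the line -/
theorem GXe_add (p q z w w' : ℂ) (d s : ℝ) : GXe p q z w w' (s + d) =
    GXe (p - d * I) (q - d * I) (z - d * I) (w - d * I) (w' - d * I) s := by
  unfold GXe
  push_cast
  rw [show p - (d : ℂ) * I + l - s * I = p + l - (s + d) * I by ring,
    show q - (d : ℂ) * I + l - s * I = q + l - (s + d) * I by ring,
    show z - (d : ℂ) * I + l - s * I = z + l - (s + d) * I by ring,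
    show w - (d : ℂ) * I - l - s * I = w - l - (s + d) * I by ring,
    show w' - (d : ℂ) * I - l - s * I = w' - l - (s + d) * I by ring]

/-- the closed form depends on the differences only -/
theorem EXe_sub (p q z w w' x d : ℂ) : EXe (p - d) (q - d) (z - d) (w - d) (w' - d) x =
    EXe p q z w w' (x + d) := by
  unfold EXe
  rw [show p - d - x = p - (x + d) by ring, show q - d - x = q - (x + d) by ring,
    show z - d - x = z - (x + d) by ring, show w - d - x = w - (x + d) by ring,
    show w' - d - x = w' - (x + d) by ring]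

/-- **the mean of the species X over a row at the complex place `x`** -/
theorem GXe_meanC {p q z w w' x : ℂ} (hx : |x.re| < l) (hp0 : -l < p.re) (hp1 : p.re < 4 * l)
    (hq0 : -l < q.re) (hq1 : q.re < 4 * l)
    (hz0 : -l < z.re) (hz1 : z.re < 4 * l) (hw0 : l < w.re) (hw1 : w.re < 7 * l)
    (hw0' : -2 * l < w'.re) (hw1' : w'.re < 4 * l) :
    Integrable (fun s : ℝ => Pc (s + I * x) * GXe p q z w w' s) ∧
    exp (∫ s : ℝ, Pc (s + I * x) * GXe p q z w w' s) = EXe p q z w w' x := by
  have hr : ∀ v : ℂ, (v - (x.im : ℂ) * I).re = v.re := fun v => by simp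
  obtain ⟨h1, h2⟩ := GXe_mean (p := p - x.im * I) (q := q - x.im * I) (z := z - x.im * I) (w := w - x.im * I)
    (w' := w' - x.im * I) hx (by rwa [hr]) (by rwa [hr]) (by rwa [hr]) (by rwa [hr]) (by rwa [hr])
    (by rwa [hr]) (by rwa [hr]) (by rwa [hr]) (by rwa [hr]) (by rwa [hr])
  have e : (fun s : ℝ => Pc (s + x.re * I) *
      GXe (p - x.im * I) (q - x.im * I) (z - x.im * I) (w - x.im * I) (w' - x.im * I) s) =
      fun s : ℝ => (fun u : ℝ => Pc (u + I * x) * GXe p q z w w' u) (s + x.im) := by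
    funext s
    simp only
    rw [← GXe_add]
    congr 2
    apply Complex.ext <;> simp
  rw [e] at h1 h2
  refine ⟨?_, ?_⟩
  · have h3 := h1.comp_add_right (-x.im)
    simpa only [neg_add_cancel_right] using h3
  · rw [integral_add_right_eq_self (fun u : ℝ => Pc (u + I * x) * GXe p q z w w' u) x.im, EXe_sub] at h2
    rw [h2]
    congr 1
    exact Complex.re_add_im x

/-- **the means of the two species over rows at complex places**, densities `c a * ∑ i, Pc (s + i x i)` -/
theorem mean_rows {p q z w w' : ℂ} {m : ℕ} {x : Fin m → ℂ} (hx : ∀ i, |(x i).re| < l)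
    (hp0 : -l < p.re) (hp1 : p.re < 4 * l) (hq0 : -l < q.re) (hq1 : q.re < 4 * l)
    (hz0 : -l < z.re) (hz1 : z.re < 4 * l) (hw0 : l < w.re)
    (hw1 : w.re < 4 * l) (hw0' : l < w'.re) (hw1' : w'.re < 4 * l) {D : Bool → ℂ → ℂ}
    (h1 : ∀ s : ℝ, D true (l + I * s) = GXe p q z w w' s) (h2 : ∀ s : ℝ, D false (l + I * s) = GXe p q z w' w s)
    (c : Bool → ℕ) :
    exp (-∑ a, ∫ s : ℝ, (c a : ℂ) * (∑ i, Pc (s + I * x i)) * D a (l + I * s)) =
      (∏ i, (EXe p q z w w' (x i))⁻¹) ^ c true * (∏ i, (EXe p q z w' w (x i))⁻¹) ^ c false := by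
  have hl := NUMF.l_pos
  have g1 : ∀ i, _ := fun i => GXe_meanC (hx i) hp0 hp1 hq0 hq1 hz0 hz1 hw0 (by linarith) (by linarith) hw1'
  have g2 : ∀ i, _ := fun i => GXe_meanC (hx i) hp0 hp1 hq0 hq1 hz0 hz1 hw0' (by linarith) (by linarith) hw1
  have k1 : ∫ s : ℝ, (c true : ℂ) * (∑ i, Pc (s + I * x i)) * D true (l + I * s) =
      c true * ∑ i, ∫ s : ℝ, Pc (s + I * x i) * GXe p q z w w' s := by
    rw [← integral_finsetSum _ fun i _ => (g1 i).1, ← integral_const_mul]
    refine integral_congr_ae (Eventually.of_forall fun s => ?_)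
    simp only [h1]
    rw [mul_assoc, Finset.sum_mul]
  have k2 : ∫ s : ℝ, (c false : ℂ) * (∑ i, Pc (s + I * x i)) * D false (l + I * s) =
      c false * ∑ i, ∫ s : ℝ, Pc (s + I * x i) * GXe p q z w' w s := by
    rw [← integral_finsetSum _ fun i _ => (g2 i).1, ← integral_const_mul]
    refine integral_congr_ae (Eventually.of_forall fun s => ?_)
    simp only [h2]
    rw [mul_assoc, Finset.sum_mul]
  rw [Fintype.sum_bool, k1, k2, neg_add, exp_add, exp_neg, exp_neg, exp_nat_mul, exp_nat_mul, exp_sum,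
    exp_sum, Finset.prod_congr rfl fun i _ => (g1 i).2, Finset.prod_congr rfl fun i _ => (g2 i).2,
    Finset.prod_inv_distrib, Finset.prod_inv_distrib, inv_pow, inv_pow]

end PLT.RT

end
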