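import Pool.Agent.PLT.Err8

/-!
# The real space kernels of the two line system (helper38)

* `EL σ A B t`: logarithm of the pair weight of two lists of constituents (no sine vanishes);
* `Rm ε d σ A`: room between the constituents `A` and quanta at offsets in `[0, d]`; `EL_UC`: uniform cosine form;
* `WK δ s x t`: logarithm of the pair weight of two quanta, offset difference `x`, singularity moved by `δ`;
  `WK_UC`, `WK_symb`;
* `DrC`: direct energies of the objects; `DrC_CF`; `qL`: charges.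
-/

set_option autoImplicit false

noncomputable section

open MeasureTheory Set Filter
open scoped ComplexConjugate Topology

namespace PLT

open PHK NUP1 NUO NUDispO Pool.Agent.NUM3
open NUMF (sk sk_pos)

/-! ### existence of the constants -/

/-- uniform cosine form, the constant not specified -/
def UCe (f : ℝ → ℝ → ℝ) (N : ℝ) (m : ℝ → ℝ → ℝ) (S : Set ℝ) (ε : ℝ) : Prop := ∃ B, UC f N m S ε B

theorem UCe.congr {f f' : ℝ → ℝ → ℝ} {N N' : ℝ} {m m' : ℝ → ℝ → ℝ} {S : Set ℝ} {ε : ℝ} (h : UCe f N m S ε)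
    (hf : ∀ v ∈ S, ∀ t, f' v t = f v t) (hN : N' = N) (hm : ∀ v k, m' v k = m v k) : UCe f' N' m' S ε := by
  obtain ⟨B, h⟩ := h
  exact ⟨B, h.congr hf hN hm⟩

theorem UCe.add {f f' : ℝ → ℝ → ℝ} {N N' : ℝ} {m m' : ℝ → ℝ → ℝ} {S : Set ℝ} {ε : ℝ} (h : UCe f N m S ε)
    (h' : UCe f' N' m' S ε) : UCe (fun v t => f v t + f' v t) (N + N') (fun v k => m v k + m' v k) S ε := by
  obtain ⟨B, h⟩ := h
  obtain ⟨B', h'⟩ := h'
  exact ⟨B + B', h.add h'⟩

theorem UCe.smul {f : ℝ → ℝ → ℝ} {N : ℝ} {m : ℝ → ℝ → ℝ} {S : Set ℝ} {ε : ℝ} (c : ℝ) (h : UCe f N m S ε) :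
    UCe (fun v t => c * f v t) (c * N) (fun v k => c * m v k) S ε := by
  obtain ⟨B, h⟩ := h
  exact ⟨_, h.smul c⟩

theorem UCe.list {γ : Type*} (L : List γ) {f : γ → ℝ → ℝ → ℝ} {N : γ → ℝ} {m : γ → ℝ → ℝ → ℝ} {S : Set ℝ} {ε : ℝ}
    (h : ∀ a ∈ L, UCe (f a) (N a) (m a) S ε) :
    UCe (fun v t => (L.map fun a => f a v t).sum) (L.map N).sum (fun v k => (L.map fun a => m a v k).sum) S ε := by
  induction L with
  | nil => exact ⟨0, by simpa using UC.zero⟩
  | cons a L ih =>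
    refine ((h a List.mem_cons_self).add (ih fun b hb => h b (List.mem_cons_of_mem _ hb))).congr
      (fun v _ t => ?_) ?_ fun v k => ?_
    · simp
    · simp
    · simp

theorem UCe.mono {f : ℝ → ℝ → ℝ} {N : ℝ} {m : ℝ → ℝ → ℝ} {S : Set ℝ} {ε ε' : ℝ} (h : UCe f N m S ε)
    (hε : ε' ≤ ε) : UCe f N m S ε' := by
  obtain ⟨B, h⟩ := h
  refine ⟨|B|, h.cf, fun v hv k hk t => (h.bd v hv k hk t).trans ?_, h.mm⟩
  have h1 : Real.exp (-(ε * (l * k))) ≤ Real.exp (-(ε' * (l * k))) := by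
    refine Real.exp_le_exp.2 (neg_le_neg ?_)
    exact mul_le_mul_of_nonneg_right hε (mul_pos l_pos8 hk).le
  have h2 : 0 ≤ 1 + t ^ 2 := by positivity
  exact mul_le_mul_of_nonneg_right (mul_le_mul (le_abs_self B) h1 (Real.exp_pos _).le (abs_nonneg B)) h2

/-! ### logarithms of pair weights -/

/-- logarithm of the pair weight of two lists of constituents -/
def EL (σ : Bool) (A B : List ((Bool × Bool × ℝ) × ℤ)) (t : ℝ) : ℝ :=
  (A.map fun a => (B.map fun b => ((a.2 * b.2 : ℤ) : ℝ) *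
    ((LL6 σ a b).map fun p => (p.2 : ℝ) * sn (a.1.2.2 - b.1.2.2 + p.1) t).sum).sum).sum

/-- charge of a constituent -/
def cg8 (a : (Bool × Bool × ℝ) × ℤ) : ℝ := (a.2 : ℝ) * (sgn a.1.1 * if a.1.2.1 then 2 else 1)

/-- charge of a list of constituents -/
def qL (A : List ((Bool × Bool × ℝ) × ℤ)) : ℝ := (A.map cg8).sum

theorem LL6_sum (σ : Bool) (a b : (Bool × Bool × ℝ) × ℤ) :
    ((a.2 * b.2 : ℤ) : ℝ) * ((LL6 σ a b).map fun p => (p.2 : ℝ)).sum = 2 * sgn σ * (cg8 a * cg8 b) := by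
  obtain ⟨⟨f, s, x⟩, c⟩ := a
  obtain ⟨⟨f', s', y⟩, c'⟩ := b
  unfold LL6 cg8
  cases σ <;> cases f <;> cases f' <;> cases s <;> cases s' <;>
    simp [Ls, NUDispO.Lp, Lc, sgn] <;> ring

/-- room between the constituents `A` and quanta at offsets in `[0, d]` -/
def Rm (ε d : ℝ) (σ : Bool) (A : List ((Bool × Bool × ℝ) × ℤ)) : Prop :=
  ∀ a ∈ A, ∀ p ∈ Ls (σ == (a.1.1 == true)) a.1.2.1 false, ε ≤ m8 (a.1.2.2 - 1 + p.1) ∧
    m8 (a.1.2.2 - 1 + p.1) + d ≤ 8 - ε

theorem Rm.nwl {ε d : ℝ} {σ : Bool} {A : List ((Bool × Bool × ℝ) × ℤ)} (h : Rm ε d σ A) (hε : 0 ≤ ε) :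
    NWl d σ A := by
  intro a ha p hp
  have := (h a ha p hp).2
  unfold NW
  linarith

/-- **an object against a quantum**, uniform in the offset -/
theorem EL_UC {ε d : ℝ} (hε : 0 < ε) (hε4 : ε ≤ 4) {σ : Bool} {A : List ((Bool × Bool × ℝ) × ℤ)}
    (h : Rm ε d σ A) : UCe (fun v t => EL σ A (cA8 v) t) (2 * sgn σ * qL A)
      (fun v k => DV σ A (cA8 v) (l * k)) (Icc 0 d) ε := by
  have key := UCe.list A (f := fun a v t => ((a.2 * 1 : ℤ) : ℝ) *
      ((Ls (σ == (a.1.1 == true)) a.1.2.1 false).map fun p => (p.2 : ℝ) * sn ((a.1.2.2 - 1 + p.1) + v) t).sum)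
      (N := fun a => ((a.2 * 1 : ℤ) : ℝ) *
        ((Ls (σ == (a.1.1 == true)) a.1.2.1 false).map fun p => (p.2 : ℝ) * 1).sum)
      (m := fun a v k => ((a.2 * 1 : ℤ) : ℝ) * ((Ls (σ == (a.1.1 == true)) a.1.2.1 false).map fun p =>
        (p.2 : ℝ) * Real.cosh ((4 - m8 ((a.1.2.2 - 1 + p.1) + v)) * (l * k))).sum)
      (S := Icc 0 d) (ε := ε) fun a ha => by
    refine UCe.smul _ (UCe.list _ fun p hp => UCe.smul _ ⟨B0, ?_⟩)
    obtain ⟨h1, h2⟩ := h a ha p hp
    refine sn_UC (g := fun v => (a.1.2.2 - 1 + p.1) + v) (measurable_id.const_add _) hε hε4 fun v hv => ?_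
    have h3 : m8 ((a.1.2.2 - 1 + p.1) + v) = m8 (a.1.2.2 - 1 + p.1) + v := m8_add hv.1 (by linarith [hv.2])
    show |4 - m8 ((a.1.2.2 - 1 + p.1) + v)| ≤ 4 - ε
    rw [h3, abs_le]
    constructor <;> linarith [hv.1, hv.2]
  refine key.congr (fun v _ t => ?_) ?_ fun v k => ?_
  · unfold EL cA8
    congr 1
    refine List.map_congr_left fun a _ => ?_
    simp only [List.map_cons, List.map_nil, List.sum_cons, List.sum_nil, add_zero]
    congr 1
    unfold LL6
    congr 1
    refine List.map_congr_left fun p _ => ?_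
    congr 2
    ring
  · unfold qL
    rw [← List.sum_map_mul_left]
    congr 1
    refine List.map_congr_left fun a _ => ?_
    have h1 := LL6_sum σ a ((true, false, 1), 1)
    have h2 : cg8 ((true, false, (1 : ℝ)), (1 : ℤ)) = 1 := by simp [cg8, sgn]
    rw [h2, mul_one] at h1
    unfold LL6 at h1
    simp only [mul_one] at h1 ⊢
    exact h1.symm
  · rw [DV_eq]
    unfold cA8
    congr 1
    refine List.map_congr_left fun a _ => ?_
    simp only [List.map_cons, List.map_nil, List.sum_cons, List.sum_nil, add_zero]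
    rw [SL_A]

/-! ### two quanta -/

/-- the regular sines of two quanta of the same species -/
def Lr : List (ℤ × ℤ) := [(2, 1), (-2, 1), (1, -1), (-1, -1)]

/-- logarithm of the pair weight of two quanta -/
def WK (δ : ℝ) (s : Bool) (x t : ℝ) : ℝ :=
  if s then 2 * sn (|x| + δ) t + (Lr.map fun p => (p.2 : ℝ) * sn (x + p.1) t).sum
  else ((Lc false false).map fun p => (p.2 : ℝ) * sn (x + p.1) t).sum

/-- its symbol -/
def WS (δ : ℝ) (s : Bool) (x z : ℝ) : ℝ :=
  if s then 2 * Real.cosh ((4 - m8 (|x| + δ)) * z) +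
    (Lr.map fun p => (p.2 : ℝ) * Real.cosh ((4 - m8 (x + p.1)) * z)).sum
  else ((Lc false false).map fun p => (p.2 : ℝ) * Real.cosh ((4 - m8 (x + p.1)) * z)).sum

theorem m8_pm {x : ℝ} {d : ℝ} (hd1 : d ≤ 1 / 2) (hx : |x| ≤ d) {j : ℤ} (hj : j ≠ 0) (hj4 : |j| ≤ 4) :
    |4 - m8 (x + j)| ≤ 4 - 1 / 2 := by
  have h1 := (abs_le.1 hx).1
  have h2 := (abs_le.1 hx).2
  have h3 := (abs_le.1 hj4).1
  have h4 := (abs_le.1 hj4).2
  rcases lt_or_gt_of_ne hj with h | h
  · have e : m8 (x + j) = x + j + 8 := by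
      have : m8 (x + j) = m8 (x + j + 8) := (m8_add8 _).symm
      rw [this]
      have a1 : (j : ℝ) ≤ -1 := by exact_mod_cast Int.le_sub_one_of_lt h
      have a2 : (-4 : ℝ) ≤ j := by exact_mod_cast h3
      exact m8_small (by linarith) (by linarith)
    have a1 : (j : ℝ) ≤ -1 := by exact_mod_cast Int.le_sub_one_of_lt h
    have a2 : (-4 : ℝ) ≤ j := by exact_mod_cast h3
    rw [e, abs_le]
    constructor <;> linarith
  · have a1 : (1 : ℝ) ≤ j := by exact_mod_cast h
    have a2 : (j : ℝ) ≤ 4 := by exact_mod_cast h4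
    rw [m8_small (by linarith) (by linarith), abs_le]
    constructor <;> linarith

theorem sn_int {d : ℝ} (hd1 : d ≤ 1 / 2) {j : ℤ} (hj : j ≠ 0) (hj4 : |j| ≤ 4) :
    UCe (fun x t => sn (x + j) t) 1 (fun x k => Real.cosh ((4 - m8 (x + j)) * (l * k))) {x : ℝ | |x| ≤ d} (1 / 2) :=
  ⟨B0, sn_UC (g := fun x => x + j) (measurable_id.add_const _) (by norm_num) (by norm_num)
    fun x hx => m8_pm hd1 hx hj hj4⟩

/-- **two quanta**, uniform in the offset difference -/
theorem WK_UC {d : ℝ} (hd1 : d ≤ 1 / 2) {δ : ℝ} (h0 : 0 < δ) (h1 : δ ≤ 1) (s : Bool) :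
    UCe (WK δ s) (2 * sgn s) (fun x k => WS δ s x (l * k)) {x : ℝ | |x| ≤ d} (min δ (1 / 2)) := by
  cases s
  · have key := UCe.list (Lc false false) (f := fun p x t => (p.2 : ℝ) * sn (x + p.1) t)
      (N := fun p => (p.2 : ℝ) * 1) (m := fun p x k => (p.2 : ℝ) * Real.cosh ((4 - m8 (x + p.1)) * (l * k)))
      (S := {x : ℝ | |x| ≤ d}) (ε := min δ (1 / 2)) fun p hp => by
        refine UCe.smul _ ((sn_int hd1 ?_ ?_).mono (min_le_right _ _))
        · simp only [Lc, List.mem_cons, List.not_mem_nil, or_false] at hp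
          rcases hp with rfl | rfl | rfl <;> norm_num
        · simp only [Lc, List.mem_cons, List.not_mem_nil, or_false] at hp
          rcases hp with rfl | rfl | rfl <;> norm_num
    refine key.congr (fun x _ t => ?_) ?_ fun x k => ?_
    · simp [WK]
    · simp [Lc, sgn]
    · simp [WS]
  · have key1 : UCe (fun x t => sn (|x| + δ) t) 1 (fun x k => Real.cosh ((4 - m8 (|x| + δ)) * (l * k)))
        {x : ℝ | |x| ≤ d} (min δ (1 / 2)) := by
      have h : UCe (fun x t => sn (|x| + δ) t) 1 (fun x k => Real.cosh ((4 - m8 (|x| + δ)) * (l * k)))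
        {x : ℝ | |x| ≤ d} δ := ⟨B0, UC_own (by linarith) h0 h1⟩
      exact h.mono (min_le_left _ _)
    have key2 := UCe.list Lr (f := fun p x t => (p.2 : ℝ) * sn (x + p.1) t)
      (N := fun p => (p.2 : ℝ) * 1) (m := fun p x k => (p.2 : ℝ) * Real.cosh ((4 - m8 (x + p.1)) * (l * k)))
      (S := {x : ℝ | |x| ≤ d}) (ε := min δ (1 / 2)) fun p hp => by
        refine UCe.smul _ ((sn_int hd1 ?_ ?_).mono (min_le_right _ _))
        · simp only [Lr, List.mem_cons, List.not_mem_nil, or_false] at hp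
          rcases hp with rfl | rfl | rfl | rfl <;> norm_num
        · simp only [Lr, List.mem_cons, List.not_mem_nil, or_false] at hp
          rcases hp with rfl | rfl | rfl | rfl <;> norm_num
    refine ((key1.smul 2).add key2).congr (fun x _ t => ?_) ?_ fun x k => ?_
    · simp [WK]
    · simp [Lr, sgn]
    · simp [WS]

/-- **the symbol of two quanta** is the kernel `kq` of `frq8` -/
theorem WK_symb {d : ℝ} (hd1 : d ≤ 1 / 2) {δ : ℝ} (h0 : 0 ≤ δ) (h1 : δ ≤ 1) (s : Bool) {x y : ℝ}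
    (hx : x ∈ Icc (0:ℝ) d) (hy : y ∈ Icc (0:ℝ) d) (z : ℝ) : WS δ s (y - x) z = kq δ z s x y := by
  have hxy : |y - x| ≤ d := by
    rw [abs_le]
    constructor <;> linarith [hx.1, hx.2, hy.1, hy.2]
  cases s
  · unfold WS kq
    simp only [Bool.false_eq_true, if_false]
    rw [DV_AA]
    rfl
  · unfold WS kq mo
    simp only [if_true]
    rw [DV_AA]
    have e1 : m8 (|y - x| + δ) = |y - x| + δ := m8_small (by positivity) (by linarith)
    have e2 : Real.cosh ((4 - m8 (y - x)) * z) = Real.cosh (z * (4 - |x - y|)) := by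
      rw [abs_sub_comm x y]
      rcases le_total 0 (y - x) with h | h
      · rw [abs_of_nonneg h] at hxy ⊢
        rw [m8_small h (by linarith), mul_comm]
      · rw [← cosh_m8_neg]
        rw [abs_of_nonpos h] at hxy ⊢
        rw [m8_small (by linarith) (by linarith), mul_comm]
    simp only [Ls, NUDispO.Lp, Lr, show (true == true) = true from rfl, if_true, List.map_cons,
      List.map_nil, List.sum_cons, List.sum_nil]
    push_cast
    rw [add_zero (y - x), e1, e2, abs_sub_comm x y]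
    rw [show (4 - (|y - x| + δ)) * z = z * (4 - δ - |y - x|) by ring]
    ring

/-! ### objects -/

/-- direct energy of two objects with constituents `A`, `B`, cores of scale `2 ^ n` removed -/
def DrC (n : ℕ) (σ : Bool) (A B : List ((Bool × Bool × ℝ) × ℤ)) (t : ℝ) : ℝ :=
  -(A.map fun a => (B.map fun b => ((a.2 * b.2 : ℤ) : ℝ) * Lam n (LL6 σ a b) (a.1.2.2 - b.1.2.2) t).sum).sum

theorem DrC_cd6 (n : ℕ) (P : Par6) (σ : Bool) (K K' : Kd6) (t : ℝ) :
    DrC n σ (cd6 P K) (cd6 P K') t = Dr6 n P σ K K' t := rfl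

theorem DrC_CF (n : ℕ) (σ : Bool) (A B : List ((Bool × Bool × ℝ) × ℤ)) :
    CF (fun t => DrC n σ A B t) (-(2 * sgn σ * (qL A * qL B)))
      (fun k => -(DC n σ A B (l * k) / (k * sk k))) := by
  have h := (CF.list A (f := fun a t => (B.map fun b =>
      ((a.2 * b.2 : ℤ) : ℝ) * Lam n (LL6 σ a b) (a.1.2.2 - b.1.2.2) t).sum)
      (N := fun a => (B.map fun b => ((a.2 * b.2 : ℤ) : ℝ) * ((Na (LL6 σ a b) : ℤ) : ℝ)).sum)
      (m := fun a k => (B.map fun b =>
      ((a.2 * b.2 : ℤ) : ℝ) * (La6 n (LL6 σ a b) (a.1.2.2 - b.1.2.2) (l * k) / (k * sk k))).sum)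
      fun a _ => CF.list B fun b _ => (Lam_CF6 n _ _).smul _).neg
  refine h.congr (fun t => rfl) ?_ fun k _ => ?_
  · congr 1
    unfold qL
    rw [mul_comm (A.map cg8).sum, ← List.sum_map_mul_left, ← List.sum_map_mul_left]
    congr 1
    refine List.map_congr_left fun a _ => ?_
    rw [mul_comm (B.map cg8).sum, ← List.sum_map_mul_left, ← List.sum_map_mul_left]
    congr 1
    refine List.map_congr_left fun b _ => ?_
    rw [← LL6_sum]
    congr 1
    unfold Na
    rw [sum_cast]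
  · unfold DC
    congr 1
    rw [div_eq_mul_inv, ← List.sum_map_mul_right]
    congr 1
    refine List.map_congr_left fun a _ => ?_
    rw [← List.sum_map_mul_right]
    congr 1
    refine List.map_congr_left fun b _ => ?_
    ring

end PLT

end
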