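import Pool.Agent.PLT.TriS

/-!
# Trial densities of the objects (helper8, row B1d)

Class of kernels: `KOk Ck ks k1 k2` (smooth, symmetric, `exp (-(3/2) |t - s|)`), `O1 th ks` (form bound, `th < 1`).
Data of an object at height `h`: `f` with `W2 (M exp (-a |h|))` in the frame of the object (`t = s + h`).

**`exists_trial`**: for every `ε > 0` there is `A` such that every family of objects over every kernel of the class
has densities `q` (for the kernels), `p` (for `V`) and a remainder `φ` with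
`f - sg (log g * (p X - p Y)) + ks q = V p + φ` (`Trl`), `|q|, |p| ≤ A exp (-c |h|) exp (-(5/2) |t - h|)`, neutral, `φ` at most
`ε exp (-c |t| - c |h|)` in `C¹`, and the pair energies of `p - q` (for `V` and for `ks`) at most
`ε exp (-c |h i| - c |h j|)`.
-/

set_option autoImplicit false

open MeasureTheory Set Filter Topology

namespace PLT.Tri

noncomputable section

open NUMF (l l_pos V Lh Uh)
open NUC43
open NUC37 (cv)

variable {C M M' δ th A β ε c a : ℝ} {ks k1 k2 : Bool → Bool → ℝ → ℝ → ℝ} {ν ν' : Bool → ℝ → ℝ}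

/-! ### symmetry of the own form -/

lemma V_symm {n n' : ℝ → ℝ} (hn : Nd M n) (hn' : Nd M' n') :
    ∫ t, n t * ∫ u, n' u * V (t - u) = ∫ t, n' t * ∫ u, n u * V (t - u) := by
  have h0 : Integrable (fun p : ℝ × ℝ => n' p.2 * V (p.1 - p.2)) ((volume : Measure ℝ).prod volume) := by
    have := hn'.int.convolution_integrand (ContinuousLinearMap.mul ℝ ℝ) V_integrable (μ := volume) (ν := volume)
    exact this.congr (ae_of_all _ fun p => by simp)
  have hI : Integrable (fun p : ℝ × ℝ => n p.1 * (n' p.2 * V (p.1 - p.2)))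
      ((volume : Measure ℝ).prod volume) :=
    h0.bdd_mul (c := M) (f := fun p : ℝ × ℝ => n p.1) (hn.cont.comp continuous_fst).aestronglyMeasurable
      (ae_of_all _ fun p => hn.le _)
  have e1 : ∀ t, n t * ∫ u, n' u * V (t - u) = ∫ u, n t * (n' u * V (t - u)) := fun t => by
    rw [integral_const_mul]
  simp_rw [e1]
  rw [integral_integral_swap hI]
  congr 1
  funext u
  rw [← integral_const_mul]
  congr 1
  funext t
  rw [show t - u = -(u - t) by ring, V_even]
  ring

lemma EV_symm (hν : ∀ a, Nd M (ν a)) (hν' : ∀ a, Nd M' (ν' a)) : EV ν ν' = EV ν' ν := by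
  unfold EV prs
  rw [V_symm (hν true) (hν' true), V_symm (hν false) (hν' false)]

/-- pair bounds from `O1` -/
theorem pair_bd (hth : 0 < th) (h : KOk C ks k1 k2) (hO : O1 th ks) (hν : ∀ a, Nd M (ν a)) (hν' : ∀ a, Nd M' (ν' a))
    (h0 : (∫ t, (ν true t - ν false t)) = 0) (h0' : (∫ t, (ν' true t - ν' false t)) = 0) :
    |EV ν ν'| ≤ (EV ν ν + EV ν' ν') / 2 ∧ |prs ν (kop ks ν')| ≤ th * ((EV ν ν + EV ν' ν') / 2) := by
  have op := hO _ _ (nd_comb hν hν' 1) (neu_comb hν hν' 1 h0 h0')
  have om := hO _ _ (nd_comb hν hν' (-1)) (neu_comb hν hν' (-1) h0 h0')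
  rw [KF_expand h hν hν' 1, EV_expand hν hν' 1, EV_symm hν' hν] at op
  rw [KF_expand h hν hν' (-1), EV_expand hν hν' (-1), EV_symm hν' hν] at om
  have p1 := (abs_nonneg _).trans op
  have p2 := (abs_nonneg _).trans om
  have q1 := nonneg_of_mul_nonneg_right p1 hth
  have q2 := nonneg_of_mul_nonneg_right p2 hth
  refine ⟨abs_le.2 ⟨by linarith, by linarith⟩, ?_⟩
  have a1 := abs_le.1 op
  have a2 := abs_le.1 om
  exact abs_le.2 ⟨by nlinarith [a1.1, a1.2, a2.1, a2.2], by nlinarith [a1.1, a1.2, a2.1, a2.2]⟩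

/-! ### translations -/

/-- kernels in the frame of height `h` -/
def ksh (h : ℝ) (ks : Bool → Bool → ℝ → ℝ → ℝ) (a b : Bool) (t s : ℝ) : ℝ := ks a b (t + h) (s + h)

lemma ksh_ok (hk : KOk C ks k1 k2) (h : ℝ) : KOk C (ksh h ks) (ksh h k1) (ksh h k2) := by
  have hc : ∀ {k : Bool → Bool → ℝ → ℝ → ℝ}, (∀ a b, Continuous fun p : ℝ × ℝ => k a b p.1 p.2) → ∀ a b,
      Continuous fun p : ℝ × ℝ => ksh h k a b p.1 p.2 := by
    intro k hk a b
    exact (hk a b).comp (by fun_prop : Continuous fun p : ℝ × ℝ => ((p.1 + h, p.2 + h) : ℝ × ℝ))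
  have hb : ∀ {k : Bool → Bool → ℝ → ℝ → ℝ}, (∀ a b t s, |k a b t s| ≤ C * Real.exp (-(3 / 2) * |t - s|)) →
      ∀ a b t s, |ksh h k a b t s| ≤ C * Real.exp (-(3 / 2) * |t - s|) := by
    intro k hk a b t s
    have := hk a b (t + h) (s + h)
    rwa [add_sub_add_right_eq_sub] at this
  have hd : ∀ {k k' : Bool → Bool → ℝ → ℝ → ℝ}, (∀ a b t s, HasDerivAt (fun x => k a b x s) (k' a b t s) t) →
      ∀ a b t s, HasDerivAt (fun x => ksh h k a b x s) (ksh h k' a b t s) t := by
    intro k k' hk a b t s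
    have h1 : HasDerivAt (fun x : ℝ => x + h) 1 t := (hasDerivAt_id t).add_const h
    have h2 := (hk a b (t + h) (s + h)).comp t h1
    rw [mul_one] at h2
    exact h2
  exact ⟨hd hk.d1, hd hk.d2, hc hk.c0, hc hk.c1, hc hk.c2, hb hk.b0, hb hk.b1, hb hk.b2,
    fun a b t s => hk.sy a b _ _⟩

lemma lgp_sh (τ : ℝ → ℝ) (h t : ℝ) : lgp (fun u => τ (u - h)) t = lgp τ (t - h) := by
  unfold lgp
  rw [← integral_sub_right_eq_self (fun s => τ s * Real.log (NUMF.g (t - h - s))) h]
  congr 1
  funext s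
  rw [show t - h - (s - h) = t - s by ring]

lemma V_sh (n : ℝ → ℝ) (h t : ℝ) : ∫ u, n (u - h) * V (t - u) = ∫ u, n u * V (t - h - u) := by
  rw [← integral_sub_right_eq_self (fun s => n s * V (t - h - s)) h]
  congr 1
  funext s
  rw [show t - h - (s - h) = t - s by ring]

lemma kop_sh (ks : Bool → Bool → ℝ → ℝ → ℝ) (ν : Bool → ℝ → ℝ) (h : ℝ) (a : Bool) (t : ℝ) :
    kop ks (fun b u => ν b (u - h)) a t = kop (ksh h ks) ν a (t - h) := by
  have e : ∀ b, ∫ s, ks a b t s * ν b (s - h) = ∫ s, ksh h ks a b (t - h) s * ν b s := by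
    intro b
    rw [← integral_sub_right_eq_self (fun s => ksh h ks a b (t - h) s * ν b s) h]
    congr 1
    funext s
    unfold ksh
    rw [show t - h + h = t by ring, show s - h + h = s by ring]
  unfold kop
  rw [e, e]

lemma prs_sh (ν f : Bool → ℝ → ℝ) (h : ℝ) : prs (fun b u => ν b (u - h)) (fun b u => f b (u - h)) = prs ν f := by
  unfold prs
  rw [integral_sub_right_eq_self (fun t => ν true t * f true t) h,
    integral_sub_right_eq_self (fun t => ν false t * f false t) h]

lemma EV_sh (ν ν' : Bool → ℝ → ℝ) (h : ℝ) :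
    EV (fun b u => ν b (u - h)) (fun b u => ν' b (u - h)) = EV ν ν' := by
  unfold EV
  rw [← prs_sh ν _ h]
  congr 1
  funext b t
  exact V_sh (ν' b) h t

lemma nd_sh {n : ℝ → ℝ} (hn : Nd M n) (h : ℝ) : Nd (M * Real.exp |h|) (fun t => n (t - h)) :=
  ⟨hn.cont.comp (by fun_prop), fun t => (hn.bd (t - h)).trans (by
    rw [mul_assoc, ← Real.exp_add]
    refine mul_le_mul_of_nonneg_left (Real.exp_le_exp.2 ?_) hn.M0
    have : |t| ≤ |t - h| + |h| := by
      have := abs_add_le (t - h) h
      rwa [sub_add_cancel] at this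
    linarith)⟩

lemma nd_sh' {n : ℝ → ℝ} (hn : Nd M n) (h : ℝ) : Nd (M * Real.exp |h|) (fun t => n (t + h)) := by
  have := nd_sh hn (-h)
  rw [abs_neg] at this
  simp only [sub_neg_eq_add] at this
  exact this

lemma neu_sh (ν : Bool → ℝ → ℝ) (h : ℝ) :
    (∫ t, (ν true (t - h) - ν false (t - h))) = ∫ t, (ν true t - ν false t) :=
  integral_sub_right_eq_self (fun t => ν true t - ν false t) h

lemma ksh_o1 (hO : O1 th ks) (h : ℝ) : O1 th (ksh h ks) := by
  intro M ν hν h0
  have h1 := hO _ _ (fun a => nd_sh (hν a) h) (by rw [neu_sh]; exact h0)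
  rw [EV_sh] at h1
  have e : prs (fun a u => ν a (u - h)) (kop ks fun a u => ν a (u - h)) = prs ν (kop (ksh h ks) ν) := by
    rw [← prs_sh ν _ h]
    congr 1
    funext b t
    exact kop_sh ks ν h b t
  rwa [e] at h1

/-- the field equation in the frame of height `h` -/
lemma feq_sh {f q p φ : Bool → ℝ → ℝ} {h : ℝ} (hf : FEq (ksh h ks) (fun a s => f a (s + h)) q p φ) :
    FEq ks f (fun a t => q a (t - h)) (fun a t => p a (t - h)) (fun a t => φ a (t - h)) := by
  intro a t
  have h1 := hf a (t - h)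
  simp only [sub_add_cancel] at h1
  rw [lgp_sh (fun u => p true u - p false u) h t, kop_sh, V_sh, h1]

/-! ### the trial densities -/

/-- **trial densities of one object** -/
structure Trl (ks : Bool → Bool → ℝ → ℝ → ℝ) (f : Bool → ℝ → ℝ) (h c A ε : ℝ) (q p φ φ1 : Bool → ℝ → ℝ) : Prop where
  qc : ∀ a, Continuous (q a)
  pc : ∀ a, Continuous (p a)
  qb : ∀ a t, |q a t| ≤ A * Real.exp (-(c * |h|)) * Real.exp (-(5 / 2) * |t - h|)
  pb : ∀ a t, |p a t| ≤ A * Real.exp (-(c * |h|)) * Real.exp (-(5 / 2) * |t - h|)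
  q0 : (∫ t, (q true t - q false t)) = 0
  p0 : (∫ t, (p true t - p false t)) = 0
  d : ∀ a t, HasDerivAt (φ a) (φ1 a t) t
  c1 : ∀ a, Continuous (φ1 a)
  b0 : ∀ a t, |φ a t| ≤ ε * Real.exp (-(c * |t|) - c * |h|)
  b1 : ∀ a t, |φ1 a t| ≤ ε * Real.exp (-(c * |t|) - c * |h|)
  eq : ∀ a t, f a t - sg a * lgp (fun u => p true u - p false u) t + kop ks q a t =
    (∫ u, p a u * V (t - u)) + φ a t

/-- **trial densities** -/
theorem exists_trial {Ck : ℝ} (hth : 0 < th) (hth1 : th < 1) (hCk : 0 ≤ Ck) (hM : 0 ≤ M) (hc : 0 < c) (hc2 : c ≤ 1 / 2)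
    (hca : 2 * c < a) (hε : 0 < ε) : ∃ A : ℝ, 0 ≤ A ∧ ∀ (ks k1 k2 : Bool → Bool → ℝ → ℝ → ℝ), KOk Ck ks k1 k2 →
      O1 th ks → ∀ {ι : Type} (h : ι → ℝ) (f f1 f2 : ι → Bool → ℝ → ℝ),
      (∀ i b, W2 (M * Real.exp (-(a * |h i|))) (fun s => f i b (s + h i)) (fun s => f1 i b (s + h i))
        (fun s => f2 i b (s + h i))) → ∃ q p φ φ1 : ι → Bool → ℝ → ℝ,
      (∀ i, Trl ks (f i) (h i) c A ε (q i) (p i) (φ i) (φ1 i)) ∧
      ∀ i j, |EV (fun b t => p i b t - q i b t) (fun b t => p j b t - q j b t)| ≤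
          ε * Real.exp (-(c * |h i|) - c * |h j|) ∧
        |prs (fun b t => p i b t - q i b t) (kop ks fun b t => p j b t - q j b t)| ≤
          ε * Real.exp (-(c * |h i|) - c * |h j|) := by
  obtain ⟨H, hH0, hH⟩ : ∃ H : ℝ, 0 < H ∧ M * Real.exp (-((a - 2 * c) * H)) ≤ ε := by
    have h1 : Tendsto (fun H : ℝ => M * Real.exp (-((a - 2 * c) * H))) atTop (𝓝 (M * 0)) := by
      refine Tendsto.const_mul _ (Real.tendsto_exp_atBot.comp ?_)
      exact tendsto_neg_atTop_atBot.comp (tendsto_id.const_mul_atTop (by linarith))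
    rw [mul_zero] at h1
    obtain ⟨H, h2, h3⟩ := ((h1.eventually_lt_const hε).and (eventually_gt_atTop 0)).exists
    exact ⟨H, h3, h2.le⟩
  obtain ⟨e, he⟩ : ∃ e, e = ε * Real.exp (-(2 * c * H)) := ⟨_, rfl⟩
  have he0 : 0 < e := by rw [he]; positivity
  obtain ⟨A, L, δ, hA, hL, hδ, hδ1, HS⟩ := solve (M := M) hth hth1 hCk hM e he0
  refine ⟨2 * A * Real.exp (c * H), by positivity, fun ks k1 k2 hk hO ι h f f1 f2 hf => ?_⟩
  obtain ⟨K1, hK1, H1⟩ := Ad_nd hδ
  have hE : ∀ x : ℝ, x ≤ 2 * H → e ≤ ε * Real.exp (-(c * x)) := by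
    intro x hx2
    rw [he]
    refine mul_le_mul_of_nonneg_left (Real.exp_le_exp.2 ?_) hε.le
    nlinarith
  have htri : ∀ t h : ℝ, |t| ≤ |t - h| + |h| := fun t h => by
    have := abs_add_le (t - h) h
    rwa [sub_add_cancel] at this
  -- one object
  have key : ∀ i, ∃ q p φ φ1 : Bool → ℝ → ℝ, Trl ks (f i) (h i) c (2 * A * Real.exp (c * H)) ε q p φ φ1 ∧
      ∃ g : Bool → ℝ → ℝ, (∀ b, Nd A (g b)) ∧ (∀ b t, p b t - q b t = Ad δ g b (t - h i)) ∧
        (∀ s, 0 < s → Qs s g g ≤ e) ∧ (H < |h i| → ∀ b t, g b t = 0) := by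
    intro i
    rcases le_or_gt |h i| H with hi | hi
    · have hfi : ∀ b, W2 M (fun s => f i b (s + h i)) (fun s => f1 i b (s + h i)) (fun s => f2 i b (s + h i)) :=
        fun b => (hf i b).mono (mul_le_of_le_one_right hM (Real.exp_le_one_iff.2 (by
          have := abs_nonneg (h i)
          nlinarith)))
      obtain ⟨q, g, φ, φ1, hq, hq0, hg, hgs, hgq, hgA, hφ, hfe, hQ⟩ := HS (ksh (h i) ks) (ksh (h i) k1) (ksh (h i) k2)
        (fun b s => f i b (s + h i)) (fun b s => f1 i b (s + h i)) (fun b s => f2 i b (s + h i))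
        (ksh_ok hk (h i)) (ksh_o1 hO (h i)) hfi
      have hsh : ∀ x : ℝ, 0 ≤ x → A * x ≤ A * Real.exp (c * H) * Real.exp (-(c * |h i|)) * x := by
        intro x hx
        have h1 : 1 ≤ Real.exp (c * H) * Real.exp (-(c * |h i|)) := by
          rw [← Real.exp_add]
          exact Real.one_le_exp (by nlinarith)
        have h2 : 0 ≤ A * x := by positivity
        calc A * x = A * x * 1 := by ring
          _ ≤ A * x * (Real.exp (c * H) * Real.exp (-(c * |h i|))) := mul_le_mul_of_nonneg_left h1 h2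
          _ = _ := by ring
      have hφb : ∀ t, e * Real.exp (-(1 / 2) * |t - h i|) ≤ ε * Real.exp (-(c * |t|) - c * |h i|) := by
        intro t
        have h1 := hE (2 * |h i|) (by linarith)
        have h2 : Real.exp (-(1 / 2) * |t - h i|) ≤ Real.exp (-(c * |t|) + c * |h i|) := Real.exp_le_exp.2 (by
          have h3 := abs_nonneg (t - h i)
          have h4 := htri t (h i)
          nlinarith)
        calc _ ≤ (ε * Real.exp (-(c * (2 * |h i|)))) * Real.exp (-(c * |t|) + c * |h i|) :=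
              mul_le_mul h1 h2 (Real.exp_pos _).le (by positivity)
          _ = _ := by
            rw [mul_assoc, ← Real.exp_add]
            congr 2
            ring
      have hder : ∀ {u u1 : ℝ → ℝ}, (∀ t, HasDerivAt u (u1 t) t) → ∀ t,
          HasDerivAt (fun t => u (t - h i)) (u1 (t - h i)) t := by
        intro u u1 hu t
        have h1 : HasDerivAt (fun x : ℝ => x - h i) 1 t := (hasDerivAt_id t).sub_const (h i)
        have h2 := (hu (t - h i)).comp t h1
        rw [mul_one] at h2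
        exact h2
      have hcs : Continuous fun t : ℝ => t - h i := by fun_prop
      refine ⟨fun b t => q b (t - h i), fun b t => q b (t - h i) + Ad δ g b (t - h i), fun b t => φ b (t - h i),
        fun b t => φ1 b (t - h i), ⟨fun b => (hq b).cont.comp hcs,
        fun b => ((hq b).cont.add (hgA b).cont).comp hcs,
        fun b t => ?_, fun b t => ?_, ?_, ?_, fun b => hder (hφ b).d, fun b => (hφ b).c.comp hcs,
        fun b t => ((hφ b).b0 _).trans (hφb t), fun b t => ((hφ b).b1 _).trans (hφb t), feq_sh hfe⟩, g, hg,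
        fun b t => by ring, hQ, fun hc => absurd hc (not_lt.2 hi)⟩
      · have h1 := (hq b).bd (t - h i)
        have h2 := hsh (Real.exp (-(5 / 2) * |t - h i|)) (Real.exp_pos _).le
        have h3 : 0 ≤ A * Real.exp (c * H) * Real.exp (-(c * |h i|)) * Real.exp (-(5 / 2) * |t - h i|) := by
          positivity
        linarith
      · have h1 := ((hq b).add (hgA b)).bd (t - h i)
        have h2 := hsh (Real.exp (-(5 / 2) * |t - h i|)) (Real.exp_pos _).le
        linarith
      · rw [neu_sh]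
        exact hq0
      · rw [neu_sh fun b t => q b t + Ad δ g b t]
        have e1 : ∀ t, (q true t + Ad δ g true t) - (q false t + Ad δ g false t) =
            (q true t - q false t) + (Ad δ g true t - Ad δ g false t) := fun t => by ring
        simp_rw [e1]
        have i1 : Integrable fun t => q true t - q false t := (hq true).int.sub (hq false).int
        have i2 : Integrable fun t => Ad δ g true t - Ad δ g false t := (hgA true).int.sub (hgA false).int
        rw [integral_add i1 i2, hq0, Ad_zero hδ hg, add_zero]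
    · have hfb : ∀ t, M * Real.exp (-(a * |h i|)) * Real.exp (-|t - h i|) ≤
          ε * Real.exp (-(c * |t|) - c * |h i|) := by
        intro t
        have h1 : M * Real.exp (-(a * |h i|)) ≤ ε * Real.exp (-(2 * c * |h i|)) := by
          have h2 : M * Real.exp (-(a * |h i|)) =
              M * Real.exp (-((a - 2 * c) * |h i|)) * Real.exp (-(2 * c * |h i|)) := by
            rw [mul_assoc, ← Real.exp_add]
            congr 2
            ring
          rw [h2]
          refine mul_le_mul_of_nonneg_right (le_trans ?_ hH) (Real.exp_pos _).le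
          refine mul_le_mul_of_nonneg_left (Real.exp_le_exp.2 ?_) hM
          nlinarith
        have h2 : Real.exp (-|t - h i|) ≤ Real.exp (-(c * |t|) + c * |h i|) := Real.exp_le_exp.2 (by
          have h3 := abs_nonneg (t - h i)
          have h4 := htri t (h i)
          nlinarith)
        calc _ ≤ (ε * Real.exp (-(2 * c * |h i|))) * Real.exp (-(c * |t|) + c * |h i|) :=
              mul_le_mul h1 h2 (Real.exp_pos _).le (by positivity)
          _ = _ := by
            rw [mul_assoc, ← Real.exp_add]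
            congr 2
            ring
      have hA0 : ∀ x : ℝ, |(0 : ℝ)| ≤ 2 * A * Real.exp (c * H) * Real.exp (-(c * |h i|)) * Real.exp x := fun x => by
        rw [abs_zero]
        positivity
      have hAd0 : ∀ b t, Ad δ (fun _ _ => 0) b t = 0 := by
        intro b t
        unfold Ad cv
        simp
      have hl0 : ∀ t, lgp (fun _ : ℝ => (0 : ℝ) - 0) t = 0 := by
        intro t
        unfold lgp
        simp
      have hder : ∀ {u u1 : ℝ → ℝ}, (∀ t, HasDerivAt (fun s => u (s + h i)) (u1 (t + h i)) t) → ∀ t,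
          HasDerivAt u (u1 t) t := by
        intro u u1 hu t
        have h1 : HasDerivAt (fun x : ℝ => x - h i) 1 t := (hasDerivAt_id t).sub_const (h i)
        have h2 := (hu (t - h i)).comp t h1
        rw [mul_one, sub_add_cancel] at h2
        have e : ((fun s => u (s + h i)) ∘ fun x => x - h i) = u := by
          funext x
          simp
        rwa [e] at h2
      have hbb : ∀ {u : ℝ → ℝ}, (∀ t, |u (t + h i)| ≤ M * Real.exp (-(a * |h i|)) * Real.exp (-|t|)) → ∀ t,
          |u t| ≤ ε * Real.exp (-(c * |t|) - c * |h i|) := by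
        intro u hu t
        have h1 := hu (t - h i)
        rw [sub_add_cancel] at h1
        exact h1.trans (hfb t)
      have hcc : Continuous fun t : ℝ => t - h i := by fun_prop
      refine ⟨fun _ _ => 0, fun _ _ => 0, f i, f1 i, ⟨fun _ => continuous_const, fun _ => continuous_const,
        fun b t => hA0 _, fun b t => hA0 _, by simp, by simp, fun b => hder (hf i b).d1,
        fun b => ?_, fun b => hbb (hf i b).b0, fun b => hbb (hf i b).b1, fun b t => ?_⟩, fun _ _ => 0,
        fun b => ⟨continuous_const, fun t => by rw [abs_zero]; positivity⟩, fun b t => by rw [hAd0]; ring,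
        fun s hs => ?_, fun _ _ _ => rfl⟩
      · have h1 := (hf i b).nd1.cont.comp hcc
        have e1 : ((fun s => f1 i b (s + h i)) ∘ fun t => t - h i) = f1 i b := by
          funext x
          simp
        rwa [e1] at h1
      · rw [hl0]
        unfold kop
        simp
      · have h0 : Qs s (fun (_ : Bool) (_ : ℝ) => (0 : ℝ)) (fun _ _ => 0) = 0 := by
          unfold Qs Qi PP MM ct st
          simp
        rw [h0]
        exact he0.le
  choose q p φ φ1 hT g hg hpq hQ hfar using key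
  refine ⟨q, p, φ, φ1, hT, fun i j => ?_⟩
  have ei : ∀ i, (fun b t => p i b t - q i b t) = fun b t => Ad δ (g i) b (t - h i) := fun i => by
    funext b t
    exact hpq i b t
  rw [ei i, ei j]
  have hνi := fun b => nd_sh (H1 (hg i) b) (h i)
  have hνj := fun b => nd_sh (H1 (hg j) b) (h j)
  have z0 : ∀ b t, Ad δ (fun _ _ => 0) b t = 0 := by
    intro b t
    unfold Ad cv
    simp
  have hrhs : 0 ≤ ε * Real.exp (-(c * |h i|) - c * |h j|) := by positivity
  have hz : ∀ i, H < |h i| → (fun b t => Ad δ (g i) b (t - h i)) = fun _ _ => 0 := by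
    intro i hi
    have e1 : g i = fun _ _ => 0 := by
      funext b t
      exact hfar i hi b t
    rw [e1]
    funext b t
    exact z0 b _
  by_cases hi : H < |h i|
  · rw [hz i hi]
    have e3 : EV (fun _ _ => 0) (fun b t => Ad δ (g j) b (t - h j)) = 0 := by
      unfold EV prs
      simp
    have e4 : prs (fun _ _ => 0) (kop ks (fun b t => Ad δ (g j) b (t - h j))) = 0 := by
      unfold prs
      simp
    rw [e3, e4, abs_zero]
    exact ⟨hrhs, hrhs⟩
  by_cases hj : H < |h j|
  · rw [hz j hj]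
    have e3 : EV (fun b t => Ad δ (g i) b (t - h i)) (fun _ _ => 0) = 0 := by
      unfold EV prs
      simp
    have e4 : prs (fun b t => Ad δ (g i) b (t - h i)) (kop ks (fun _ _ => 0)) = 0 := by
      unfold prs kop
      simp
    rw [e3, e4, abs_zero]
    exact ⟨hrhs, hrhs⟩
  push Not at hi hj
  obtain ⟨b1, b2⟩ := pair_bd hth hk hO hνi hνj (by rw [neu_sh (Ad δ (g i))]; exact Ad_zero hδ (hg i))
    (by rw [neu_sh (Ad δ (g j))]; exact Ad_zero hδ (hg j))
  rw [EV_sh (Ad δ (g i)) (Ad δ (g i)), EV_sh (Ad δ (g j)) (Ad δ (g j))] at b1 b2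
  have g1 := (EV_Ad_le hδ (hg i)).trans (hQ i (2 * δ ^ 2) (by positivity))
  have g2 := (EV_Ad_le hδ (hg j)).trans (hQ j (2 * δ ^ 2) (by positivity))
  have g3 : (EV (Ad δ (g i)) (Ad δ (g i)) + EV (Ad δ (g j)) (Ad δ (g j))) / 2 ≤ e := by linarith
  have g4 : 0 ≤ (EV (Ad δ (g i)) (Ad δ (g i)) + EV (Ad δ (g j)) (Ad δ (g j))) / 2 := (abs_nonneg _).trans b1
  have g5 : e ≤ ε * Real.exp (-(c * |h i|) - c * |h j|) := by
    have := hE (|h i| + |h j|) (by linarith)
    refine this.trans (le_of_eq ?_)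
    congr 2
    ring
  exact ⟨b1.trans (g3.trans g5), b2.trans ((mul_le_of_le_one_left g4 hth1.le).trans (g3.trans g5))⟩

end

end PLT.Tri
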