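import Pool.Agent.PLT.OffQ
import Pool.Agent.PLT.TriT

/-!
# Reference densities (helper8, row B1d)

`Rf K q h F μ`: densities `μ` (continuous, at most `K exp (-(5/2) |t - h|)`, charge `-q`) with
`F a - sg a * (log g * (μ true - μ false)) = V * μ a`.  Closed under translations, sums, multiples; **`list_rf`**: two lists of
charges, offsets at distance `≥ κ` from `± 4`.
-/

set_option autoImplicit false

open MeasureTheory Set Filter Topology

namespace PLT.Tri

noncomputable section

open NUMF (l l_pos V)
open NUC43

variable {K K' q q' h κ C α : ℝ} {F G μ ν : Bool → ℝ → ℝ}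

/-- **reference densities** -/
structure Rf (K q h : ℝ) (F μ : Bool → ℝ → ℝ) : Prop where
  c : ∀ a, Continuous (μ a)
  b : ∀ a t, |μ a t| ≤ K * Real.exp (-(5 / 2) * |t - h|)
  n : (∫ t, (μ true t - μ false t)) = -q
  e : ∀ a t, F a t - sg a * lgp (fun u => μ true u - μ false u) t = ∫ u, μ a u * V (t - u)

lemma Rf.K0 (H : Rf K q h F μ) : 0 ≤ K := by
  have := (abs_nonneg _).trans (H.b true h)
  simpa using this

/-- decay -/
lemma nd_of_dec {n : ℝ → ℝ} (hc : Continuous n) (hb : ∀ t, |n t| ≤ K * Real.exp (-(5 / 2) * |t - h|)) :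
    Nd (K * Real.exp |h|) n := by
  have hK : 0 ≤ K := by
    have := (abs_nonneg _).trans (hb h)
    simpa using this
  refine ⟨hc, fun t => (hb t).trans ?_⟩
  rw [mul_assoc, ← Real.exp_add]
  refine mul_le_mul_of_nonneg_left (Real.exp_le_exp.2 ?_) hK
  have h1 : |t| ≤ |t - h| + |h| := by
    have := abs_add_le (t - h) h
    rwa [sub_add_cancel] at this
  have := abs_nonneg (t - h)
  linarith

lemma Rf.nd (H : Rf K q h F μ) (a : Bool) : Nd (K * Real.exp |h|) (μ a) := nd_of_dec (H.c a) (H.b a)

lemma Rf.mono (H : Rf K q h F μ) (hK : K ≤ K') : Rf K' q h F μ :=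
  ⟨H.c, fun a t => (H.b a t).trans (mul_le_mul_of_nonneg_right hK (Real.exp_pos _).le), H.n, H.e⟩

lemma Rf.congr (H : Rf K q h F μ) (hq : q = q') (hF : ∀ a t, G a t = F a t) : Rf K q' h G μ :=
  ⟨H.c, H.b, by rw [← hq]; exact H.n, fun a t => by rw [hF]; exact H.e a t⟩

lemma V_in {n : ℝ → ℝ} {M : ℝ} (hn : Nd M n) (t : ℝ) : Integrable fun u => n u * V (t - u) := by
  have h1 : Integrable fun u => V (t - u) := NUC43.V_integrable.comp_sub_left t
  have h2 := h1.bdd_mul (c := M) hn.cont.aestronglyMeasurable (ae_of_all _ fun u => hn.le u)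
  exact h2

lemma Rf.add (H : Rf K q h F μ) (H' : Rf K' q' h G ν) :
    Rf (K + K') (q + q') h (fun a t => F a t + G a t) (fun a t => μ a t + ν a t) := by
  refine ⟨fun a => (H.c a).add (H'.c a), fun a t => ?_, ?_, fun a t => ?_⟩
  · rw [add_mul]
    exact (abs_add_le _ _).trans (add_le_add (H.b a t) (H'.b a t))
  · have e1 : ∀ t, μ true t + ν true t - (μ false t + ν false t) = (μ true t - μ false t) + (ν true t - ν false t) :=
      fun t => by ring
    simp_rw [e1]
    have i1 : Integrable fun t => μ true t - μ false t := (H.nd true).int.sub (H.nd false).int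
    have i2 : Integrable fun t => ν true t - ν false t := (H'.nd true).int.sub (H'.nd false).int
    rw [integral_add i1 i2, H.n, H'.n]
    ring
  · have e1 : (fun u => μ true u + ν true u - (μ false u + ν false u)) =
        fun u => (μ true u - μ false u) + (ν true u - ν false u) := by funext u; ring
    have e2 : (fun u => (μ a u + ν a u) * V (t - u)) = fun u => μ a u * V (t - u) + ν a u * V (t - u) := by
      funext u; ring
    rw [e1, e2, lgp_add ((H.nd true).sub (H.nd false)) ((H'.nd true).sub (H'.nd false)) t,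
      integral_add (V_in (H.nd a) t) (V_in (H'.nd a) t), ← H.e a t, ← H'.e a t]
    ring

lemma Rf.smul (H : Rf K q h F μ) (m : ℝ) :
    Rf (|m| * K) (m * q) h (fun a t => m * F a t) (fun a t => m * μ a t) := by
  refine ⟨fun a => (H.c a).const_mul m, fun a t => ?_, ?_, fun a t => ?_⟩
  · rw [abs_mul, mul_assoc]
    exact mul_le_mul_of_nonneg_left (H.b a t) (abs_nonneg m)
  · simp_rw [← mul_sub]
    rw [integral_const_mul, H.n]
    ring
  · have e1 : lgp (fun u => m * μ true u - m * μ false u) t = m * lgp (fun u => μ true u - μ false u) t := by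
      unfold lgp
      rw [← integral_const_mul]
      congr 1
      funext s
      ring
    have e2 : (fun u => m * μ a u * V (t - u)) = fun u => m * (μ a u * V (t - u)) := by
      funext u; ring
    rw [e1, e2, integral_const_mul, ← H.e a t]
    ring

lemma Rf.zero (h : ℝ) : Rf 0 0 h (fun _ _ => 0) (fun _ _ => 0) := by
  refine ⟨fun a => continuous_const, fun a t => by simp, by simp, fun a t => ?_⟩
  unfold lgp
  simp

/-- translation -/
lemma Rf.shift (H : Rf K q 0 F μ) (h : ℝ) : Rf K q h (fun a t => F a (t - h)) (fun a t => μ a (t - h)) := by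
  refine ⟨fun a => (H.c a).comp (by fun_prop), fun a t => ?_, ?_, fun a t => ?_⟩
  · have := H.b a (t - h)
    rwa [sub_zero] at this
  · rw [neu_sh, H.n]
  · rw [lgp_sh (fun u => μ true u - μ false u) h t, V_sh, H.e a (t - h)]

/-- **sums over a list** -/
lemma Rf.list {ι : Type*} (L : List ι) (m Q : ι → ℝ) (Fi : ι → Bool → ℝ → ℝ)
    (H : ∀ p ∈ L, ∃ μ, Rf K (Q p) h (Fi p) μ) :
    ∃ μ, Rf ((L.map fun p => |m p| * K).sum) ((L.map fun p => m p * Q p).sum) h
      (fun a t => (L.map fun p => m p * Fi p a t).sum) μ := by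
  induction L with
  | nil => exact ⟨_, by simpa using Rf.zero h⟩
  | cons p L ih =>
    obtain ⟨μ1, h1⟩ := H p List.mem_cons_self
    obtain ⟨μ2, h2⟩ := ih fun r hr => H r (List.mem_cons_of_mem _ hr)
    refine ⟨fun a t => m p * μ1 a t + μ2 a t, ?_⟩
    simp only [List.map_cons, List.sum_cons]
    exact (h1.smul (m p)).add h2

/-! ### two lists of charges -/

lemma V_refl (n : ℝ → ℝ) (t : ℝ) : ∫ u, n u * V (t - u) = ∫ s, V s * n (t - s) := by
  rw [← integral_sub_left_eq_self (fun u => n u * V (t - u)) volume t]
  congr 1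
  funext s
  rw [sub_sub_cancel, mul_comm]

/-- **densities of a charge object** -/
theorem chg_rf {a b A B : ℝ → ℝ} {F G : ℂ → ℂ} (H : Chg (-κ) q a b A B F G) (hF : GrC C (-κ) F)
    (hG : GrC C (-κ) G) (hκ : 0 < κ) (x : Bool) :
    Rf (C * Jk κ) (sg x * q) 0 (fun s t => if s = x then a t else b t) (fun s => if s = x then dO F G else dX F G) := by
  have g1 : GrC C (-κ) fun z => ((1 / 2 : ℝ) : ℂ) * (F z + G z) := by
    have := (hF.add hG).smul (1 / 2)
    rw [abs_of_pos (by norm_num : (0 : ℝ) < 1 / 2), ← two_mul, ← mul_assoc] at this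
    norm_num at this
    refine this.congr fun z => ?_
    push_cast
    ring
  have g2 : GrC C (-κ) fun z => ((1 / 2 : ℝ) : ℂ) * (F z - G z) := by
    have := (hF.sub hG).smul (1 / 2)
    rw [abs_of_pos (by norm_num : (0 : ℝ) < 1 / 2), ← two_mul, ← mul_assoc] at this
    norm_num at this
    refine this.congr fun z => ?_
    push_cast
    ring
  have bO : ∀ t, |dO F G t| ≤ C * Jk κ * Real.exp (-(5 / 2) * |t - 0|) := fun t => by
    rw [sub_zero]
    exact inv_u g1 hκ t
  have bX : ∀ t, |dX F G t| ≤ C * Jk κ * Real.exp (-(5 / 2) * |t - 0|) := fun t => by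
    rw [sub_zero]
    exact inv_u g2 hκ t
  have hO := H.own
  have hX := H.oth
  have hs := H.split
  have hT := H.intT
  cases x
  · -- species false
    have eT : (fun u => (if true = false then dO F G else dX F G) u - (if false = false then dO F G else dX F G) u) =
        fun u => -dT G u := by
      funext u
      have := hs u
      simp only [Bool.true_eq_false, if_false, if_true]
      linarith
    have eL : ∀ t, lgp (fun u => -dT G u) t = -lgp (dT G) t := by
      intro t
      unfold lgp
      rw [← integral_neg]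
      congr 1
      funext s
      ring
    refine ⟨fun s => ?_, fun s t => ?_, ?_, fun s t => ?_⟩
    · cases s
      · simpa using H.contO
      · simpa using H.contX
    · cases s
      · simpa using bO t
      · simpa using bX t
    · rw [eT, integral_neg, hT]
      unfold sg
      simp
    · rw [eT, eL, V_refl]
      cases s
      · have := hO t
        simp only [if_true, sg]
        rw [← this]
        simp
      · have := hX t
        simp only [Bool.true_eq_false, if_false, sg]
        rw [← this]
        simp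
  · have eT : (fun u => (if true = true then dO F G else dX F G) u - (if false = true then dO F G else dX F G) u) =
        fun u => dT G u := by
      funext u
      have := hs u
      simp only [Bool.false_eq_true, if_false, if_true]
      linarith
    refine ⟨fun s => ?_, fun s t => ?_, ?_, fun s t => ?_⟩
    · cases s
      · simpa using H.contX
      · simpa using H.contO
    · cases s
      · simpa using bX t
      · simpa using bO t
    · rw [eT]
      unfold sg
      simp only [if_true, one_mul]
      exact hT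
    · rw [eT, V_refl]
      cases s
      · have := hX t
        simp only [Bool.false_eq_true, if_false, sg]
        rw [← this]
        simp
      · have := hO t
        simp only [if_true, sg]
        rw [← this]
        simp

/-- **two lists** -/
theorem list_rf : ∃ C0 : ℝ, 0 ≤ C0 ∧ ∀ {κ : ℝ}, 0 < κ → κ ≤ 3 → ∀ {O X : List (ℝ × ℝ)}, (∀ p ∈ O, |p.2| ≤ 4 - κ) →
    (∀ p ∈ X, |p.2| ≤ 4 - κ) → ∀ {q : ℝ}, cz O = q → cz X = -q → ∀ x : Bool,
    ∃ μ, Rf (C0 * (ca O + ca X) * Jk κ) (sg x * q) 0
      (fun s t => if s = x then hs O t - q * Real.log 2 else hs X t + q * Real.log 2) μ := by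
  obtain ⟨C0, hC0, H⟩ := list_sym
  refine ⟨C0, hC0, fun {κ} hκ hκ3 {O X} hO hX {q} zO zX x => ?_⟩
  obtain ⟨gF, gG⟩ := H hκ.le hO hX
  exact ⟨_, chg_rf (list_chg hκ hO hX zO zX hκ3) gF gG hκ x⟩

end

end PLT.Tri
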