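import Pool.Agent.PLT.RefO
import Pool.Agent.PLT.PotS
import Pool.Agent.PHK.Knd

/-!
# Reference densities and asymptotics of the objects of the six kinds (helper8, row B1d)

In a strip `lo ≤ Im z ≤ hi` with `PGC δ lo hi P`:
* **`gq_rf`**, **`refO`**: on every line `Im z = v l` of the strip the potential of a quantum, of an object `fO6 P x` has exact
  densities, at most `K0 exp (-(5/2) |t - ht x|)` with `K0 = K0 δ`, charge `-sg (sp x) kq6 (k6 x)`;
* `gq_asy`, **`asyO`**: the asymptotics of each species (`SAsy`).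
-/

set_option autoImplicit false

open MeasureTheory Set Filter Topology

namespace PLT.Tri

noncomputable section

open NUMF (l l_pos V)
open NUC43
open NUO (Xo ht sp red av co cx yv fq fg)
open PHK (Par6 Kd6 k6 kq6 fO6 offK6)
open PLT.Cv (OffS PGC gq qsp SAsy KS)

variable {δ lo hi j τ v : ℝ}

/-- the list of the blocks of a quantum on the line `Im z = v l` -/
def lO (c : Fin 8 → ℝ) (v j : ℝ) : List (ℝ × ℝ) := List.ofFn fun i : Fin 8 => (c i, v + red (av i - j))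

lemma hs_lO (c : Fin 8 → ℝ) (v j t : ℝ) :
    hs (lO c v j) t = ∑ i, c i * NUMF.h t ((v + red (av i - j)) * l) := by
  unfold hs lO
  rw [List.map_ofFn, List.sum_ofFn]
  rfl

lemma cz_lO (c : Fin 8 → ℝ) (v j : ℝ) : cz (lO c v j) = ∑ i, c i := by
  unfold cz lO
  rw [List.map_ofFn, List.sum_ofFn]
  rfl

lemma ca_lO (c : Fin 8 → ℝ) (v j : ℝ) : ca (lO c v j) = ∑ i, |c i| := by
  unfold ca lO
  rw [List.map_ofFn, List.sum_ofFn]
  rfl

lemma sum_co : ∑ i, co i = 1 := by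
  rw [NUO.sum8]
  simp only [co, Matrix.cons_val]
  norm_num

lemma sum_cx : ∑ i, cx i = -1 := by
  rw [NUO.sum8]
  simp only [cx, Matrix.cons_val]
  norm_num

lemma lO_le (h : OffS δ lo hi j) (hδ : 0 < δ) (h1 : lo ≤ 0) (h2 : 0 ≤ hi) (v1 : lo ≤ v * l) (v2 : v * l ≤ hi)
    (c : Fin 8 → ℝ) : ∀ p ∈ lO c v j, |p.2| ≤ 4 - δ := by
  intro p hp
  unfold lO at hp
  obtain ⟨i, rfl⟩ := List.mem_ofFn.1 hp
  exact h.red_le hδ h1 h2 v1 v2 (av i)

/-- the potential on a line -/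
lemma gq_hs (h : OffS δ lo hi j) (hδ : 0 < δ) (h1 : lo ≤ 0) (h2 : 0 ≤ hi) (v1 : lo ≤ v * l) (v2 : v * l ≤ hi)
    (x a : Bool) (t : ℝ) : (gq x j τ a ((t : ℂ) + ((v * l : ℝ) : ℂ) * Complex.I)).re =
      if a = x then hs (lO co v j) (t - τ) - 1 * Real.log 2 else hs (lO cx v j) (t - τ) + 1 * Real.log 2 := by
  have zi : ((t : ℂ) + ((v * l : ℝ) : ℂ) * Complex.I).im = v * l := by simp
  have hw : ∀ i, |((t : ℂ) + ((v * l : ℝ) : ℂ) * Complex.I - τ + yv j i * Complex.I).im| < Real.pi / 2 :=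
    fun i => h.im_lt hδ h1 h2 (by rw [zi]; exact v1) (by rw [zi]; exact v2) i
  have hF : ∀ i, (NUMF.F ((t : ℂ) + ((v * l : ℝ) : ℂ) * Complex.I - τ + yv j i * Complex.I)).re =
      NUMF.h (t - τ) ((v + red (av i - j)) * l) := by
    intro i
    rw [NUMF.F_re (hw i)]
    congr 1
    · simp
    · unfold yv
      simp
      ring
  unfold gq
  by_cases hax : a = x
  · rw [if_pos hax, if_pos hax, hs_lO]
    unfold fq
    rw [Complex.sub_re, Complex.re_sum, Complex.ofReal_re, one_mul]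
    simp_rw [Complex.re_ofReal_mul, hF]
  · rw [if_neg hax, if_neg hax, hs_lO]
    unfold fg
    rw [Complex.add_re, Complex.re_sum, Complex.ofReal_re, one_mul]
    simp_rw [Complex.re_ofReal_mul, hF]

/-- **reference densities of a quantum** -/
theorem gq_rf : ∃ C0 : ℝ, 0 ≤ C0 ∧ ∀ {δ lo hi j τ v : ℝ}, OffS δ lo hi j → 0 < δ → δ ≤ 1 → lo ≤ 0 → 0 ≤ hi →
    lo ≤ v * l → v * l ≤ hi → ∀ x : Bool, ∃ μ, Rf (C0 * Jk δ) (sg x) τ
      (fun a t => (gq x j τ a ((t : ℂ) + ((v * l : ℝ) : ℂ) * Complex.I)).re) μ := by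
  obtain ⟨C0, hC0, H⟩ := list_rf
  refine ⟨C0 * 6, by positivity, fun {δ lo hi j τ v} h hδ hδ1 h1 h2 v1 v2 x => ?_⟩
  obtain ⟨μ, hμ⟩ := H hδ (by linarith) (O := lO co v j) (X := lO cx v j) (lO_le h hδ h1 h2 v1 v2 co)
    (lO_le h hδ h1 h2 v1 v2 cx) (q := 1) (by rw [cz_lO, sum_co]) (by rw [cz_lO, sum_cx]) x
  rw [ca_lO, ca_lO, PLT.Cv.sum_abs_co, PLT.Cv.sum_abs_cx] at hμ
  norm_num at hμ
  refine ⟨_, (hμ.shift τ).congr rfl fun a t => ?_⟩
  rw [gq_hs h hδ h1 h2 v1 v2, one_mul]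

/-- the charge of an object -/
lemma sum_q6 (P : Par6) (x : Xo) :
    ((offK6 P (k6 x)).map fun p => ((p.2.2 : ℤ) : ℝ) * sg (qsp p.1 (sp x))).sum = sg (sp x) * kq6 (k6 x) := by
  cases k6 x <;> cases sp x <;> simp [offK6, kq6, sg, qsp] <;> norm_num

/-- **reference densities of an object** -/
theorem refO : ∃ C0 : ℝ, 0 ≤ C0 ∧ ∀ {δ lo hi : ℝ} {P : Par6}, PGC δ lo hi P → ∀ {v : ℝ}, lo ≤ v * l → v * l ≤ hi →
    ∀ x : Xo, ∃ μ, Rf (C0 * Jk δ) (sg (sp x) * kq6 (k6 x)) (ht x)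
      (fun a t => (fO6 P x a ((t : ℂ) + ((v * l : ℝ) : ℂ) * Complex.I)).re) μ := by
  obtain ⟨C0, hC0, H⟩ := gq_rf
  refine ⟨5 * C0, by positivity, fun {δ lo hi P} hP {v} v1 v2 x => ?_⟩
  have hJ := Jk0 δ
  obtain ⟨μ, hμ⟩ := Rf.list (h := ht x) (K := C0 * Jk δ) (offK6 P (k6 x)) (fun p => ((p.2.2 : ℤ) : ℝ))
    (fun p => sg (qsp p.1 (sp x)))
    (fun p a t => (gq (qsp p.1 (sp x)) p.2.1 (ht x) a ((t : ℂ) + ((v * l : ℝ) : ℂ) * Complex.I)).re)
    (fun p hp => H (hP.off _ p hp) hP.δ0 hP.δ1 hP.lo0 hP.hi0 v1 v2 _)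
  refine ⟨μ, (hμ.mono ?_).congr (sum_q6 P x) fun a t => ?_⟩
  · have := PLT.Cv.sum_abs_offK6 P (k6 x) (C := C0 * Jk δ) (by positivity)
    linarith
  · rw [PLT.Cv.fO6_gq]
    generalize offK6 P (k6 x) = L
    induction L with
    | nil => simp
    | cons p L ih =>
      simp only [List.map_cons, List.sum_cons]
      rw [Complex.add_re, ih]
      simp

/-! ### asymptotics -/

/-- asymptotics of a sum of blocks -/
lemma blk_asy (h : OffS δ lo hi j) (hδ : 0 < δ) (hδ1 : δ ≤ 1) (h1 : lo ≤ 0) (h2 : 0 ≤ hi) (c : Fin 8 → ℝ)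
    (hc : ∑ i, |c i| = 3) (k τ : ℝ) :
    SAsy lo hi (KS δ) (2 * ∑ i, c i) (-(∑ i, c i) * Real.log 2 + k) (2 * ∑ i, c i * yv j i) τ
      (fun z => ∑ i, (c i : ℂ) * NUMF.F (z - τ + yv j i * Complex.I) + k) := by
  have hs := PLT.Cv.sin_dl_pos hδ hδ1
  have hs0 : (∑ i, (c i : ℂ)) = ((∑ i, c i : ℝ) : ℂ) := by push_cast; rfl
  have hs1 : (∑ i, (c i : ℂ) * (yv j i : ℂ)) = ((∑ i, c i * yv j i : ℝ) : ℂ) := by push_cast; rfl
  refine ⟨fun z a b hr => ?_, fun z a b hr => ?_⟩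
  · have hw := fun i => h.im_le (τ := τ) hδ h1 h2 a b i
    have hre : ∀ i, (z - τ + yv j i * Complex.I).re = z.re - τ := fun i => by
      rw [NUO.re_shift]
      simp
    have e : (∑ i, (c i : ℂ) * NUMF.F (z - τ + yv j i * Complex.I) + k) -
        (((2 * ∑ i, c i : ℝ) : ℂ) * (z - τ) + ((-(∑ i, c i) * Real.log 2 + k : ℝ) : ℂ) +
        ((2 * ∑ i, c i * yv j i : ℝ) : ℂ) * Complex.I) =
        ∑ i, (c i : ℂ) * (2 * (Complex.log (Complex.cosh (z - τ + yv j i * Complex.I)) -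
          ((z - τ + yv j i * Complex.I) - Real.log 2))) := by
      have e1 : ∀ i, (c i : ℂ) * NUMF.F (z - τ + yv j i * Complex.I) =
          (c i : ℂ) * (2 * (Complex.log (Complex.cosh (z - τ + yv j i * Complex.I)) -
            ((z - τ + yv j i * Complex.I) - Real.log 2))) + (c i : ℂ) * (2 * (z - τ) - Real.log 2) +
            ((c i : ℂ) * (yv j i : ℂ)) * (2 * Complex.I) := by
        intro i
        unfold NUMF.F
        ring
      simp only [e1]
      rw [Finset.sum_add_distrib, Finset.sum_add_distrib, ← Finset.sum_mul, ← Finset.sum_mul, hs0, hs1]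
      push_cast
      ring
    rw [e]
    calc ‖∑ i, (c i : ℂ) * (2 * (Complex.log (Complex.cosh (z - τ + yv j i * Complex.I)) -
          ((z - τ + yv j i * Complex.I) - Real.log 2)))‖
        ≤ ∑ i, |c i| * (2 * (3 / Real.sin (δ * l) * Real.exp (-2 * |z.re - τ|))) := by
          refine (norm_sum_le _ _).trans (Finset.sum_le_sum fun i _ => ?_)
          rw [norm_mul, norm_mul, Complex.norm_real, Complex.norm_ofNat, Real.norm_eq_abs]
          have h3 := NUSp.log_cosh_r (PLT.Cv.b_lt hδ) (hw i) (by rw [hre]; linarith)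
          rw [PLT.Cv.cos_b, hre] at h3
          exact mul_le_mul_of_nonneg_left (mul_le_mul_of_nonneg_left h3 (by norm_num)) (abs_nonneg _)
      _ = 18 / Real.sin (δ * l) * Real.exp (-2 * |z.re - τ|) := by
          rw [← Finset.sum_mul, hc]
          ring
      _ ≤ _ := by
          refine mul_le_mul_of_nonneg_right ?_ (Real.exp_pos _).le
          unfold KS
          gcongr
          norm_num
  · have hw := fun i => h.im_le (τ := τ) hδ h1 h2 a b i
    have hre : ∀ i, (z - τ + yv j i * Complex.I).re = z.re - τ := fun i => by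
      rw [NUO.re_shift]
      simp
    have e : (∑ i, (c i : ℂ) * NUMF.F (z - τ + yv j i * Complex.I) + k) -
        (-((2 * ∑ i, c i : ℝ) : ℂ) * (z - τ) + ((-(∑ i, c i) * Real.log 2 + k : ℝ) : ℂ) -
        ((2 * ∑ i, c i * yv j i : ℝ) : ℂ) * Complex.I) =
        ∑ i, (c i : ℂ) * (2 * (Complex.log (Complex.cosh (z - τ + yv j i * Complex.I)) -
          (-(z - τ + yv j i * Complex.I) - Real.log 2))) := by
      have e1 : ∀ i, (c i : ℂ) * NUMF.F (z - τ + yv j i * Complex.I) =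
          (c i : ℂ) * (2 * (Complex.log (Complex.cosh (z - τ + yv j i * Complex.I)) -
            (-(z - τ + yv j i * Complex.I) - Real.log 2))) + (c i : ℂ) * (-(2 * (z - τ)) - Real.log 2) -
            ((c i : ℂ) * (yv j i : ℂ)) * (2 * Complex.I) := by
        intro i
        unfold NUMF.F
        ring
      simp only [e1]
      rw [Finset.sum_sub_distrib, Finset.sum_add_distrib, ← Finset.sum_mul, ← Finset.sum_mul, hs0, hs1]
      push_cast
      ring
    rw [e]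
    calc ‖∑ i, (c i : ℂ) * (2 * (Complex.log (Complex.cosh (z - τ + yv j i * Complex.I)) -
          (-(z - τ + yv j i * Complex.I) - Real.log 2)))‖
        ≤ ∑ i, |c i| * (2 * (3 / Real.sin (δ * l) * Real.exp (-2 * |z.re - τ|))) := by
          refine (norm_sum_le _ _).trans (Finset.sum_le_sum fun i _ => ?_)
          rw [norm_mul, norm_mul, Complex.norm_real, Complex.norm_ofNat, Real.norm_eq_abs]
          have h3 := NUSp.log_cosh_l (PLT.Cv.b_lt hδ) (hw i) (by rw [hre]; linarith)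
          rw [PLT.Cv.cos_b, hre] at h3
          exact mul_le_mul_of_nonneg_left (mul_le_mul_of_nonneg_left h3 (by norm_num)) (abs_nonneg _)
      _ = 18 / Real.sin (δ * l) * Real.exp (-2 * |z.re - τ|) := by
          rw [← Finset.sum_mul, hc]
          ring
      _ ≤ _ := by
          refine mul_le_mul_of_nonneg_right ?_ (Real.exp_pos _).le
          unfold KS
          gcongr
          norm_num

/-- **asymptotics of a quantum** -/
theorem gq_asy (h : OffS δ lo hi j) (hδ : 0 < δ) (hδ1 : δ ≤ 1) (h1 : lo ≤ 0) (h2 : 0 ≤ hi) (x a : Bool) (τ : ℝ) :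
    ∃ c₀ a₀ f₀ : ℝ, |c₀| ≤ 2 ∧ SAsy lo hi (KS δ) c₀ a₀ f₀ τ (gq x j τ a) := by
  by_cases hax : a = x
  · have h3 := blk_asy h hδ hδ1 h1 h2 co PLT.Cv.sum_abs_co (-Real.log 2) τ
    have e : gq x j τ a = fun z => ∑ i, (co i : ℂ) * NUMF.F (z - τ + yv j i * Complex.I) + ((-Real.log 2 : ℝ) : ℂ) := by
      funext z
      unfold gq fq
      rw [if_pos hax]
      push_cast
      ring
    refine ⟨_, _, _, ?_, by rw [e]; exact h3⟩
    rw [sum_co]
    norm_num
  · have h3 := blk_asy h hδ hδ1 h1 h2 cx PLT.Cv.sum_abs_cx (Real.log 2) τ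
    have e : gq x j τ a = fun z => ∑ i, (cx i : ℂ) * NUMF.F (z - τ + yv j i * Complex.I) + ((Real.log 2 : ℝ) : ℂ) := by
      funext z
      unfold gq fg
      rw [if_neg hax]
    refine ⟨_, _, _, ?_, by rw [e]; exact h3⟩
    rw [sum_cx]
    norm_num

/-- **asymptotics of an object** -/
theorem asyO {P : Par6} (hP : PGC δ lo hi P) (x : Xo) (a : Bool) :
    ∃ c₀ a₀ f₀ : ℝ, |c₀| ≤ 10 ∧ SAsy lo hi (5 * KS δ) c₀ a₀ f₀ (ht x) (fO6 P x a) := by
  have hK := (PLT.Cv.KS_pos hP.δ0 hP.δ1).le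
  have key : ∀ L : List (Bool × ℝ × ℤ), (∀ p ∈ L, OffS δ lo hi p.2.1) →
      ∃ c₀ a₀ f₀ : ℝ, |c₀| ≤ (L.map fun p => |(p.2.2 : ℝ)| * 2).sum ∧
        SAsy lo hi ((L.map fun p => |(p.2.2 : ℝ)| * KS δ).sum) c₀ a₀ f₀ (ht x)
          (fun z => (L.map fun p => ((p.2.2 : ℝ) : ℂ) * gq (qsp p.1 (sp x)) p.2.1 (ht x) a z).sum) := by
    intro L
    induction L with
    | nil =>
      intro _
      refine ⟨0, 0, 0, by simp, ?_, ?_⟩ <;> intro z _ _ _ <;> simp
    | cons p L ih =>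
      intro hL
      obtain ⟨c1, a1, f1, b1, s1⟩ := ih fun r hr => hL r (List.mem_cons_of_mem _ hr)
      obtain ⟨c2, a2, f2, b2, s2⟩ := gq_asy (hL p List.mem_cons_self) hP.δ0 hP.δ1 hP.lo0 hP.hi0
        (qsp p.1 (sp x)) a (ht x)
      refine ⟨(p.2.2 : ℝ) * c2 + c1, (p.2.2 : ℝ) * a2 + a1, (p.2.2 : ℝ) * f2 + f1, ?_, ?_⟩
      · simp only [List.map_cons, List.sum_cons]
        refine (abs_add_le _ _).trans (add_le_add ?_ b1)
        rw [abs_mul]
        exact mul_le_mul_of_nonneg_left b2 (abs_nonneg _)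
      · simp only [List.map_cons, List.sum_cons]
        exact (s2.smul _).add s1
  obtain ⟨c0, a0, f0, b0, s0⟩ := key (offK6 P (k6 x)) (hP.off (k6 x))
  have h5 := PLT.Cv.sum_abs_offK6 P (k6 x) (C := 2) (by norm_num)
  have h6 := PLT.Cv.sum_abs_offK6 P (k6 x) hK
  refine ⟨c0, a0, f0, by linarith, ?_⟩
  have e : fO6 P x a = fun z => ((offK6 P (k6 x)).map fun p =>
      ((p.2.2 : ℝ) : ℂ) * gq (qsp p.1 (sp x)) p.2.1 (ht x) a z).sum := by
    funext z
    exact PLT.Cv.fO6_gq P x a z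
  rw [e]
  exact s0.mono h6

end

end PLT.Tri
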