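import Pool.Agent.PLT.Chain
import Pool.Agent.PLT.PathZ
import Pool.Agent.PLT.PathD
import Pool.Agent.PLX.PB.ZLegP
import Pool.Agent.PB.EInst

/-!
# The straight content: `a` rows at `i u`, `b` rows at `i v`

* `hh a b u v` : the heights, `cnt_hh : cnt a b (I u) (I v) i = I * hh i`; `sum_hh` : sums over the rows;
* **`rws_cnt`** : `Rws0 (cnt a b (I u) (I v))` for `|u|, |v| ≤ 1`; `rws_cons` (moved row first);
* **`rhS_hh`** : the density `a P (t - u) + b P (t - v)`; `Pm` : the mean density, mass one, positive, bounds,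
  **`Pm_lip`** : `|Pm - P| ≤ C max(|u|, |v|) P`;
* **`rP_cnt`, `rM_cnt`** : the plateaus `(a + b) e^{± w v} / ∑` of a row at `i v`;
* on the slit `D = i s` (`u = - ps`, `v = qs`, 17's `PathZ`): `rowsD`, `rowsD0` (frame of the cut rows),
  `sum_exp_slit` : `∑ e^{± w h} = Vs`; **`rP_slit`, `rM_slit`**; `abs_ps_le`, `ps_scale`, `Vs_scale`.
-/

set_option autoImplicit false
set_option linter.unusedSectionVars false

noncomputable section

open Complex

namespace PLT.RowD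

open NUMF (l P P_pos P_cont integral_P)
open PBForce (Rws0 xiP xiM)
open PBLg.PLX (rhS)
open PLT.FS (cnt cnt_left cnt_right cnt_cases)

variable {a b : ℕ} {u v : ℝ}

/-- the heights -/
def hh (a b : ℕ) (u v : ℝ) : Fin (a + b) → ℝ := Fin.append (fun _ => u) (fun _ => v)

@[simp] theorem hh_left (a b : ℕ) (u v : ℝ) (i : Fin a) : hh a b u v (Fin.castAdd b i) = u := by
  simp [hh]

@[simp] theorem hh_right (a b : ℕ) (u v : ℝ) (i : Fin b) : hh a b u v (Fin.natAdd a i) = v := by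
  simp [hh]

theorem cnt_hh (a b : ℕ) (u v : ℝ) (i : Fin (a + b)) :
    cnt a b (I * (u : ℂ)) (I * (v : ℂ)) i = I * (hh a b u v i : ℂ) := by
  refine Fin.addCases (fun i => ?_) (fun i => ?_) i
  · rw [cnt_left, hh_left]
  · rw [cnt_right, hh_right]

/-- sums over the rows -/
theorem sum_hh {E : Type*} [AddCommMonoid E] [Module ℝ E] (a b : ℕ) (u v : ℝ) (f : ℝ → E) :
    ∑ i, f (hh a b u v i) = (a : ℝ) • f u + (b : ℝ) • f v := by
  rw [Fin.sum_univ_add]
  simp only [hh_left, hh_right, Finset.sum_const, Finset.card_univ, Fintype.card_fin]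
  rw [Nat.cast_smul_eq_nsmul, Nat.cast_smul_eq_nsmul]

theorem sum_hh_real (a b : ℕ) (u v : ℝ) (f : ℝ → ℝ) : ∑ i, f (hh a b u v i) = a * f u + b * f v := by
  rw [sum_hh, smul_eq_mul, smul_eq_mul]

/-- **rows on the imaginary axis** -/
theorem rws_cnt (a b : ℕ) {u v : ℝ} (hu : |u| ≤ 1) (hv : |v| ≤ 1) :
    Rws0 (cnt a b (I * (u : ℂ)) (I * (v : ℂ))) := by
  constructor
  · intro i
    exact cnt_cases (p := fun z => z.re = 0) (by simp) (by simp) i
  · intro i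
    exact cnt_cases (p := fun z => |z.im| ≤ 1) (by simpa using hu) (by simpa using hv) i

/-- **moved row first** -/
theorem rws_cons (a b : ℕ) {u v s : ℝ} (hu : |u| ≤ 1) (hv : |v| ≤ 1) (hs : |s| ≤ 1) :
    Rws0 (Fin.cons (I * (s : ℂ)) (cnt a b (I * (u : ℂ)) (I * (v : ℂ))) : Fin (a + b + 1) → ℂ) := by
  have h := rws_cnt a b hu hv
  constructor
  · intro i
    refine Fin.cases ?_ (fun i => ?_) i
    · simp
    · rw [Fin.cons_succ]
      exact h.re i
  · intro i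
    refine Fin.cases ?_ (fun i => ?_) i
    · simpa using hs
    · rw [Fin.cons_succ]
      exact h.im i

/-- **the density** -/
theorem rhS_hh (a b : ℕ) (u v t : ℝ) : rhS (hh a b u v) t = ((a * P (t - u) + b * P (t - v) : ℝ) : ℂ) := by
  unfold PBLg.PLX.rhS
  rw [← sum_hh_real a b u v fun h => P (t - h)]
  push_cast
  rfl

/-! ### the mean density -/

/-- the mean density of the rows -/
def Pm (a b : ℕ) (u v t : ℝ) : ℝ := (a * P (t - u) + b * P (t - v)) / (a + b)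

theorem rhS_Pm (hab : 0 < a + b) (u v t : ℝ) : rhS (hh a b u v) t = (((a + b : ℝ) * Pm a b u v t : ℝ) : ℂ) := by
  have h : (0 : ℝ) < a + b := by exact_mod_cast hab
  rw [rhS_hh]
  congr 1
  unfold Pm
  field_simp

theorem Pm_pos (hab : 0 < a + b) (u v t : ℝ) : 0 < Pm a b u v t := by
  have h : (0 : ℝ) < a + b := by exact_mod_cast hab
  unfold Pm
  refine div_pos ?_ h
  have h1 := P_pos (t - u)
  have h2 := P_pos (t - v)
  have ha : (0 : ℝ) ≤ a := Nat.cast_nonneg _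
  have hb : (0 : ℝ) ≤ b := Nat.cast_nonneg _
  rcases Nat.eq_zero_or_pos a with h0 | h0
  · subst h0
    rw [Nat.cast_zero, zero_add] at h
    rw [Nat.cast_zero, zero_mul, zero_add]
    positivity
  · have : (0 : ℝ) < a := by exact_mod_cast h0
    have h3 : 0 < a * P (t - u) := by positivity
    have h4 : 0 ≤ b * P (t - v) := by positivity
    linarith

theorem Pm_cont (a b : ℕ) (u v : ℝ) : Continuous (Pm a b u v) := by
  unfold Pm
  have h1 : Continuous fun t : ℝ => P (t - u) := P_cont.comp (by fun_prop)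
  have h2 : Continuous fun t : ℝ => P (t - v) := P_cont.comp (by fun_prop)
  fun_prop

theorem Pm_mass (hab : 0 < a + b) (u v : ℝ) : MeasureTheory.Integrable (Pm a b u v) ∧ ∫ t, Pm a b u v t = 1 := by
  have h : (0 : ℝ) < a + b := by exact_mod_cast hab
  have i1 : MeasureTheory.Integrable fun t : ℝ => P (t - u) := NUMF.P_integrable.comp_sub_right u
  have i2 : MeasureTheory.Integrable fun t : ℝ => P (t - v) := NUMF.P_integrable.comp_sub_right v
  have i3 : MeasureTheory.Integrable fun t : ℝ => a * P (t - u) + b * P (t - v) :=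
    (i1.const_mul _).add (i2.const_mul _)
  refine ⟨i3.div_const _, ?_⟩
  unfold Pm
  rw [MeasureTheory.integral_div, MeasureTheory.integral_add (i1.const_mul _) (i2.const_mul _),
    MeasureTheory.integral_const_mul, MeasureTheory.integral_const_mul,
    MeasureTheory.integral_sub_right_eq_self (fun t => P t), MeasureTheory.integral_sub_right_eq_self (fun t => P t),
    integral_P]
  field_simp

/-- the shifted cosh -/
theorem ch_sub (t h : ℝ) : |NUMF.ch (t - h) - NUMF.ch t| ≤ (Real.exp (8 / 3 * |h|) - 1) * NUMF.ch t := by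
  unfold NUMF.ch
  have e : 8 / 3 * (t - h) = 8 / 3 * t - 8 / 3 * h := by ring
  rw [e, Real.cosh_sub]
  have h1 : |Real.sinh (8 / 3 * t)| ≤ Real.cosh (8 / 3 * t) := by
    rw [← Real.cosh_abs (8 / 3 * t)]
    rw [Real.abs_sinh]
    exact (Real.sinh_lt_cosh _).le
  have h2 : Real.cosh (8 / 3 * h) - 1 + |Real.sinh (8 / 3 * h)| = Real.exp (8 / 3 * |h|) - 1 := by
    rw [Real.abs_sinh, ← Real.cosh_abs (8 / 3 * h), abs_mul, abs_of_pos (by norm_num : (0 : ℝ) < 8 / 3)]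
    have := Real.cosh_add_sinh (8 / 3 * |h|)
    linarith
  have h3 := Real.one_le_cosh (8 / 3 * h)
  have h4 := Real.cosh_pos (8 / 3 * t)
  have e2 : Real.cosh (8 / 3 * t) * Real.cosh (8 / 3 * h) - Real.sinh (8 / 3 * t) * Real.sinh (8 / 3 * h) -
      Real.cosh (8 / 3 * t) = Real.cosh (8 / 3 * t) * (Real.cosh (8 / 3 * h) - 1) -
        Real.sinh (8 / 3 * t) * Real.sinh (8 / 3 * h) := by ring
  rw [e2]
  refine (abs_sub _ _).trans ?_
  rw [abs_mul, abs_mul, abs_of_pos h4, abs_of_nonneg (by linarith), ← h2]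
  have h5 : |Real.sinh (8 / 3 * t)| * |Real.sinh (8 / 3 * h)| ≤
      Real.cosh (8 / 3 * t) * |Real.sinh (8 / 3 * h)| := by gcongr
  linarith

/-- the density is Lipschitz relative to itself -/
theorem P_lip : ∃ C : ℝ, 0 < C ∧ ∀ t h : ℝ, |h| ≤ 1 → |P (t - h) - P t| ≤ C * |h| * P t := by
  -- the function `F c = c / (4 c ^ 2 - 1)`
  obtain ⟨K, hK⟩ : ∃ K, K = Real.exp (8 / 3) := ⟨_, rfl⟩
  have hK1 : 1 ≤ K := by rw [hK]; exact Real.one_le_exp (by norm_num)
  refine ⟨8 * K ^ 3, by positivity, fun t h hh => ?_⟩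
  have h0 := abs_nonneg h
  have hE : Real.exp (8 / 3 * |h|) - 1 ≤ K * (8 / 3 * |h|) := by
    have h1 : Real.exp (8 / 3 * |h|) - 1 ≤ 8 / 3 * |h| * Real.exp (8 / 3 * |h|) := by
      have := Real.add_one_le_exp (-(8 / 3 * |h|))
      have h2 : Real.exp (8 / 3 * |h|) * Real.exp (-(8 / 3 * |h|)) = 1 := by
        rw [← Real.exp_add, add_neg_cancel, Real.exp_zero]
      have h3 := Real.exp_pos (8 / 3 * |h|)
      nlinarith
    have h2 : Real.exp (8 / 3 * |h|) ≤ K := by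
      rw [hK]
      exact Real.exp_le_exp.2 (by linarith)
    calc Real.exp (8 / 3 * |h|) - 1 ≤ 8 / 3 * |h| * Real.exp (8 / 3 * |h|) := h1
      _ ≤ 8 / 3 * |h| * K := by gcongr
      _ = _ := by ring
  have hc := ch_sub t h
  have h1 := NUMF.one_le_ch t
  have h1' := NUMF.one_le_ch (t - h)
  -- upper bound of `ch (t - h)` and lower bound
  have hup : NUMF.ch t ≤ K * NUMF.ch (t - h) := by
    have hc' := ch_sub (t - h) (-h)
    rw [sub_neg_eq_add, sub_add_cancel, abs_neg] at hc'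
    have h2 := (abs_le.1 hc').2
    have h3 : Real.exp (8 / 3 * |h|) ≤ K := by
      rw [hK]
      exact Real.exp_le_exp.2 (by linarith)
    have : Real.exp (8 / 3 * |h|) * NUMF.ch (t - h) ≤ K * NUMF.ch (t - h) := by gcongr
    linarith
  obtain ⟨c, hcd⟩ : ∃ c, c = NUMF.ch t := ⟨_, rfl⟩
  obtain ⟨d, hdd⟩ : ∃ d, d = NUMF.ch (t - h) := ⟨_, rfl⟩
  unfold NUMF.P
  rw [← hcd] at h1
  rw [← hdd] at h1'
  rw [← hcd, ← hdd] at hup hc
  rw [← hcd, ← hdd]
  obtain ⟨A, hA⟩ : ∃ A, A = 16 / (√3 * Real.pi) := ⟨_, rfl⟩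
  have hAp : 0 < A := by
    rw [hA]
    have := Real.pi_pos
    positivity
  rw [← hA]
  have p1 : 0 < 4 * c ^ 2 - 1 := by nlinarith
  have p2 : 0 < 4 * d ^ 2 - 1 := by nlinarith
  have n1 := p1.ne'
  have n2 := p2.ne'
  have hc0 : 0 < c := by linarith
  have hd0 : 0 < d := by linarith
  have e : A * (d / (4 * d ^ 2 - 1)) - A * (c / (4 * c ^ 2 - 1)) =
      A * ((c - d) * (4 * c * d + 1) / ((4 * d ^ 2 - 1) * (4 * c ^ 2 - 1))) := by
    rw [← mul_sub, div_sub_div _ _ n2 n1]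
    congr 2
    ring
  rw [e, abs_mul, abs_of_pos hAp, abs_div, abs_mul, abs_of_pos (by positivity : 0 < (4 * d ^ 2 - 1) * (4 * c ^ 2 - 1)),
    abs_of_pos (by positivity : 0 < 4 * c * d + 1)]
  have hcd2 : |c - d| ≤ K * (8 / 3 * |h|) * c := by
    rw [abs_sub_comm]
    exact hc.trans (by gcongr)
  have q1 : (4 * c * d + 1) / (4 * d ^ 2 - 1) ≤ 3 * K := by
    rw [div_le_iff₀ p2]
    have i1 : 4 * c * d ≤ 4 * (K * d) * d := by gcongr
    have i2 : 3 ≤ 4 * d ^ 2 - 1 := by nlinarith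
    nlinarith
  calc A * (|c - d| * (4 * c * d + 1) / ((4 * d ^ 2 - 1) * (4 * c ^ 2 - 1))) =
      A * (|c - d| / (4 * c ^ 2 - 1) * ((4 * c * d + 1) / (4 * d ^ 2 - 1))) := by
        rw [div_mul_div_comm, mul_comm (4 * c ^ 2 - 1)]
    _ ≤ A * (K * (8 / 3 * |h|) * c / (4 * c ^ 2 - 1) * (3 * K)) := by gcongr
    _ = 8 * K ^ 2 * |h| * (A * (c / (4 * c ^ 2 - 1))) := by
        field_simp
    _ ≤ 8 * K ^ 3 * |h| * (A * (c / (4 * c ^ 2 - 1))) := by
        have : K ^ 2 ≤ K ^ 3 := pow_le_pow_right₀ hK1 (by norm_num)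
        gcongr

/-- **the mean density against the density of rows at `0`** -/
theorem Pm_lip : ∃ C : ℝ, 0 < C ∧ ∀ (a b : ℕ) (u v h t : ℝ), 0 < a + b → |u| ≤ h → |v| ≤ h → h ≤ 1 →
    |Pm a b u v t - P t| ≤ C * h * P t := by
  obtain ⟨C, hC, hl⟩ := P_lip
  refine ⟨C, hC, fun a b u v h t hab hu hv h1 => ?_⟩
  have hn : (0 : ℝ) < a + b := by exact_mod_cast hab
  have hP := P_pos t
  have g1 : |P (t - u) - P t| ≤ C * h * P t := (hl t u (hu.trans h1)).trans (by gcongr)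
  have g2 : |P (t - v) - P t| ≤ C * h * P t := (hl t v (hv.trans h1)).trans (by gcongr)
  have e : Pm a b u v t - P t = (a * (P (t - u) - P t) + b * (P (t - v) - P t)) / (a + b) := by
    unfold Pm
    field_simp
    ring
  rw [e, abs_div, abs_of_pos hn, div_le_iff₀ hn]
  have ha : (0 : ℝ) ≤ a := Nat.cast_nonneg a
  have hb : (0 : ℝ) ≤ b := Nat.cast_nonneg b
  refine (abs_add_le _ _).trans ?_
  rw [abs_mul, abs_mul, abs_of_nonneg ha, abs_of_nonneg hb]
  have g3 : (a : ℝ) * |P (t - u) - P t| ≤ a * (C * h * P t) := by gcongr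
  have g4 : (b : ℝ) * |P (t - v) - P t| ≤ b * (C * h * P t) := by gcongr
  linarith

/-! ### the plateaus -/

theorem im_cnt (a b : ℕ) (u v : ℝ) (i : Fin (a + b)) :
    (cnt a b (I * (u : ℂ)) (I * (v : ℂ)) i).im = hh a b u v i := by
  rw [cnt_hh]
  simp

theorem xiP_cnt (a b : ℕ) (u v : ℝ) (i0 : Fin (a + b)) : xiP (cnt a b (I * (u : ℂ)) (I * (v : ℂ))) i0 =
    Real.exp (8 / 3 * hh a b u v i0) / (a * Real.exp (8 / 3 * u) + b * Real.exp (8 / 3 * v)) := by
  unfold PBForce.xiP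
  simp only [im_cnt]
  rw [sum_hh_real a b u v fun h => Real.exp (8 / 3 * h)]

theorem xiM_cnt (a b : ℕ) (u v : ℝ) (i0 : Fin (a + b)) : xiM (cnt a b (I * (u : ℂ)) (I * (v : ℂ))) i0 =
    Real.exp (-(8 / 3 * hh a b u v i0)) / (a * Real.exp (-(8 / 3 * u)) + b * Real.exp (-(8 / 3 * v))) := by
  unfold PBForce.xiM
  simp only [im_cnt]
  rw [sum_hh_real a b u v fun h => Real.exp (-(8 / 3 * h))]

/-- **the plateaus of a row at `i v`** -/
theorem rP_cnt (a b : ℕ) (u v : ℝ) (i : Fin b) :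
    PBEI.rP (cnt a b (I * (u : ℂ)) (I * (v : ℂ))) (Fin.natAdd a i) =
      (((a + b) * Real.exp (8 / 3 * v) / (a * Real.exp (8 / 3 * u) + b * Real.exp (8 / 3 * v)) : ℝ) : ℂ) := by
  unfold PBEI.rP
  rw [xiP_cnt, hh_right]
  congr 1
  push_cast
  ring

theorem rM_cnt (a b : ℕ) (u v : ℝ) (i : Fin b) :
    PBEI.rM (cnt a b (I * (u : ℂ)) (I * (v : ℂ))) (Fin.natAdd a i) =
      (((a + b) * Real.exp (-(8 / 3 * v)) / (a * Real.exp (-(8 / 3 * u)) + b * Real.exp (-(8 / 3 * v))) : ℝ) : ℂ) := by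
  unfold PBEI.rM
  rw [xiM_cnt, hh_right]
  congr 1
  push_cast
  ring

/-- a row first: sums -/
theorem sum_cons (a b : ℕ) (u v s : ℝ) (f : ℝ → ℝ) :
    ∑ i, f ((Fin.cons (I * (s : ℂ)) (cnt a b (I * (u : ℂ)) (I * (v : ℂ))) : Fin (a + b + 1) → ℂ) i).im =
      f s + (a * f u + b * f v) := by
  rw [Fin.sum_univ_succ, Fin.cons_zero]
  simp only [Fin.cons_succ, im_cnt]
  rw [sum_hh_real a b u v f]
  simp

/-- the plateaus of the first row -/
theorem rP_cons (a b : ℕ) (u v s : ℝ) :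
    PBEI.rP (Fin.cons (I * (s : ℂ)) (cnt a b (I * (u : ℂ)) (I * (v : ℂ))) : Fin (a + b + 1) → ℂ) 0 =
      (((a + b + 1) * Real.exp (8 / 3 * s) /
        (Real.exp (8 / 3 * s) + (a * Real.exp (8 / 3 * u) + b * Real.exp (8 / 3 * v))) : ℝ) : ℂ) := by
  unfold PBEI.rP PBForce.xiP
  rw [sum_cons a b u v s fun h => Real.exp (8 / 3 * h), Fin.cons_zero]
  congr 1
  push_cast
  simp
  ring

theorem rM_cons (a b : ℕ) (u v s : ℝ) :
    PBEI.rM (Fin.cons (I * (s : ℂ)) (cnt a b (I * (u : ℂ)) (I * (v : ℂ))) : Fin (a + b + 1) → ℂ) 0 =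
      (((a + b + 1) * Real.exp (-(8 / 3 * s)) /
        (Real.exp (-(8 / 3 * s)) + (a * Real.exp (-(8 / 3 * u)) + b * Real.exp (-(8 / 3 * v)))) : ℝ) : ℂ) := by
  unfold PBEI.rM PBForce.xiM
  rw [sum_cons a b u v s fun h => Real.exp (-(8 / 3 * h)), Fin.cons_zero]
  congr 1
  push_cast
  simp
  ring

/-! ### the slit -/

open PLT.Pa (ps qs Vs)

theorem ps_psi (A B s : ℝ) : ps A B s = PaD.psi A B s := rfl

/-- the places on the slit are small -/
theorem abs_ps_le {A B : ℝ} (hA : 0 < A) (hB : 0 < B) (s : ℝ) : |ps A B s| ≤ |s| ∧ |qs A B s| ≤ |s| :=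
  PaD.abs_psi_le hA hB s

theorem ps_scale {A B k : ℝ} (hA : 0 < A) (hB : 0 < B) (hk : 0 < k) (s : ℝ) : ps (k * A) (k * B) s = ps A B s := by
  unfold PLT.Pa.ps
  have e : ∀ x : ℝ, k * A + k * B * Real.exp x = k * (A + B * Real.exp x) := fun x => by ring
  rw [e, e, Real.log_mul hk.ne' (by positivity), Real.log_mul hk.ne' (by positivity)]
  ring

theorem qs_scale {A B k : ℝ} (hA : 0 < A) (hB : 0 < B) (hk : 0 < k) (s : ℝ) : qs (k * A) (k * B) s = qs A B s := by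
  unfold PLT.Pa.qs
  rw [ps_scale hA hB hk]

theorem Vs_scale {A B k : ℝ} (hk : 0 < k) (s : ℝ) : Vs (k * A) (k * B) s = k * Vs A B s := by
  unfold PLT.Pa.Vs
  have e : (k * A) ^ 2 + (k * B) ^ 2 + 2 * (k * A) * (k * B) * Real.cosh (8 / 3 * s) =
      k ^ 2 * (A ^ 2 + B ^ 2 + 2 * A * B * Real.cosh (8 / 3 * s)) := by ring
  rw [e, Real.sqrt_mul (by positivity), Real.sqrt_sq hk.le]

/-- **the norm is the sum of the exponentials** -/
theorem sum_exp_slit {A B : ℝ} (hA : 0 < A) (hB : 0 < B) (s : ℝ) :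
    A * Real.exp (8 / 3 * -ps A B s) + B * Real.exp (8 / 3 * qs A B s) = Vs A B s ∧
      A * Real.exp (-(8 / 3 * -ps A B s)) + B * Real.exp (-(8 / 3 * qs A B s)) = Vs A B s := by
  have hb := PaD.balance_imag hA hB s
  obtain ⟨V, hV, -, hV2⟩ := PaD.VVc_imag hA hB s
  have hp : ps A B s = PaD.psi A B s := rfl
  have hq : qs A B s = s - PaD.psi A B s := rfl
  -- the real number `Vs`
  have h1 : 0 < A + B * Real.exp (-(8 / 3 * s)) := by positivity
  have h2 : 0 < A + B * Real.exp (8 / 3 * s) := by positivity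
  have hVs : Vs A B s = V := by
    have e1 : (Vs A B s : ℂ) = Pa.Vz A B (I * s) := (Pa.Vz_slit hA hB s).symm
    have e2 : Pa.Vz A B (I * s) = PaD.VVc A B (s * I) := by
      rw [mul_comm]
      rfl
    rw [e2, hV] at e1
    exact_mod_cast e1
  rw [hVs, hV2, hp, hq]
  rw [Real.cosh_eq, Real.cosh_eq]
  rw [Real.sinh_eq, Real.sinh_eq] at hb
  rw [show 8 / 3 * -PaD.psi A B s = -(8 / 3 * PaD.psi A B s) by ring, neg_neg]
  constructor
  · linarith
  · linarith

/-- **the rows on the slit**, `a` rows at `- i ps`, `b` rows at `i qs` -/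
def rowsD (a b : ℕ) (s : ℝ) : Fin (a + b) → ℂ :=
  cnt a b (I * ((-ps a b s : ℝ) : ℂ)) (I * (qs a b s : ℂ))

/-- frame of the cut rows: `a` rows at `- i s`, `b` rows at `0` -/
def rowsD0 (a b : ℕ) (s : ℝ) : Fin (a + b) → ℂ := cnt a b (I * ((-s : ℝ) : ℂ)) (I * ((0 : ℝ) : ℂ))

theorem rowsD_eq (hA : 0 < a) (hB : 0 < b) (s : ℝ) :
    rowsD a b s = cnt a b (-(Pa.pz a b (I * s))) (Pa.qz a b (I * s)) := by
  have h1 : (0 : ℝ) < a := by exact_mod_cast hA
  have h2 : (0 : ℝ) < b := by exact_mod_cast hB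
  unfold rowsD
  have e1 := Pa.pz_slit h1 h2 s
  have e2 := Pa.qz_slit h1 h2 s
  rw [e1, e2]
  congr 1
  push_cast
  ring

theorem rws_rowsD (hA : 0 < a) (hB : 0 < b) {s : ℝ} (hs : |s| ≤ 1) : Rws0 (rowsD a b s) := by
  have h1 : (0 : ℝ) < a := by exact_mod_cast hA
  have h2 : (0 : ℝ) < b := by exact_mod_cast hB
  obtain ⟨g1, g2⟩ := abs_ps_le h1 h2 s
  exact rws_cnt a b (by rw [abs_neg]; exact g1.trans hs) (g2.trans hs)

theorem rws_rowsD0 (a b : ℕ) {s : ℝ} (hs : |s| ≤ 1) : Rws0 (rowsD0 a b s) :=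
  rws_cnt a b (by rw [abs_neg]; exact hs) (by rw [abs_zero]; exact zero_le_one)

/-- **the plateaus on the slit** -/
theorem rP_slit (hA : 0 < a) (hB : 0 < b) (s : ℝ) (i : Fin b) :
    PBEI.rP (rowsD a b s) (Fin.natAdd a i) = (((a + b) * Real.exp (8 / 3 * qs a b s) / Vs a b s : ℝ) : ℂ) ∧
      PBEI.rM (rowsD a b s) (Fin.natAdd a i) = (((a + b) * Real.exp (-(8 / 3 * qs a b s)) / Vs a b s : ℝ) : ℂ) := by
  have h1 : (0 : ℝ) < a := by exact_mod_cast hA
  have h2 : (0 : ℝ) < b := by exact_mod_cast hB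
  obtain ⟨e1, e2⟩ := sum_exp_slit h1 h2 s
  unfold rowsD
  rw [rP_cnt, rM_cnt, e1, e2]
  exact ⟨rfl, rfl⟩

end PLT.RowD

end
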