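import Pool.Agent.PLX.PhiLow

/-!
# Rows at the places of a direction: comparison of a list of rows with a content

Places are in units `l`.  The content `c s : List ℝ` of species `s` is the part of the list `W s` which
sits exactly at the places of the direction; `k s` rows of the sea are not in it.

* `rwC c s u`: the row factor of the content; `rwK c k s u`: the same with the `k` missing rows replaced
  by factors without poles and zeros;
* `RwT n0 h0 de miss c k W`: `W s` is `c s` with at most `n0` further rows, at a distance from the lines;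
* **`up_T`**: rows from above on the lines of the strings, of `L`, of `T` and of the points `b`;
  **`inv_T`**: inverse of the rows on the lines of the holes.
-/

set_option autoImplicit false
set_option linter.unusedSectionVars false
set_option linter.unusedVariables false

noncomputable section

open Complex

namespace PLT

open NUP1 NUGC.PLX PBO.PLX

/-! ### one row with a margin `d` -/

/-- `sin (d l)` -/
def sd (d : ℝ) : ℝ := Real.sin (d * l)

theorem sd_pos {d : ℝ} (h : 0 < d) (h8 : d < 8) : 0 < sd d := by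
  have hl := l_pos
  have hpi := PBO.PLX.pi_eq
  exact Real.sin_pos_of_pos_of_lt_pi (by positivity) (by nlinarith)

theorem abs_sin_sd {d x : ℝ} (h : 0 < d) (h4 : d ≤ 4) (h1 : d * l ≤ |x|) (h2 : |x| ≤ 8 * l - d * l) :
    sd d ≤ |Real.sin x| := by
  have hl := l_pos
  have hpi := PBO.PLX.pi_eq
  have hd : 0 < d * l := by positivity
  have e : |Real.sin x| = Real.sin |x| := by
    rw [Real.abs_sin_eq_sin_abs_of_abs_le_pi]
    linarith
  rw [e]
  unfold sd
  rcases le_total |x| (4 * l) with h' | h'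
  · exact Real.sin_le_sin_of_le_of_le_pi_div_two (by linarith) (by linarith) h1
  · rw [← Real.sin_pi_sub |x|]
    have : d * l ≤ 4 * l := by nlinarith
    exact Real.sin_le_sin_of_le_of_le_pi_div_two (by linarith) (by linarith) (by linarith)

theorem sin_sd {d : ℝ} {z : ℂ} (h : 0 < d) (h4 : d ≤ 4) (h1 : d * l ≤ |z.re|)
    (h2 : |z.re| ≤ 8 * l - d * l) : sd d * Real.cosh z.im ≤ ‖sin z‖ := by
  refine le_trans ?_ (Bd.le_norm_sin z)
  exact mul_le_mul_of_nonneg_right (abs_sin_sd h h4 h1 h2) (Real.cosh_pos _).le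

/-- constant of one row -/
def cD (h0 d : ℝ) : ℝ := (sd d ^ 2)⁻¹ * Real.exp (2 * h0)

theorem one_le_cD {h0 d : ℝ} (hh : 0 ≤ h0) (h : 0 < d) (h8 : d < 8) : 1 ≤ cD h0 d := by
  have h1 := sd_pos h h8
  have h2 : sd d ≤ 1 := Real.sin_le_one _
  have h3 : 1 ≤ (sd d ^ 2)⁻¹ := (one_le_inv₀ (by positivity)).2 (by nlinarith)
  have h4 : 1 ≤ Real.exp (2 * h0) := Real.one_le_exp (by positivity)
  unfold cD
  nlinarith

/-- **own part from above** -/
theorem rwO_le_d {h0 d : ℝ} {x u : ℂ} (h : 0 < d) (h4 : d ≤ 4) (hx : |x.im| ≤ h0)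
    (a1 : d * l ≤ |u.re - x.re|) (a2 : |u.re - x.re| ≤ 8 * l - d * l)
    (a3 : d * l ≤ |u.re - x.re - 2 * l|) (a4 : |u.re - x.re - 2 * l| ≤ 8 * l - d * l) :
    rwO x u ≤ cD h0 d * (Real.cosh u.im ^ 2)⁻¹ := by
  have hs := sd_pos h (by linarith)
  have e1 : (u - x).re = u.re - x.re := sub_re _ _
  have e2 : (u - x - 2 * l).re = u.re - x.re - 2 * l := by simp
  have i1 : (u - x - 2 * l).im = (u - x).im := by simp
  have b1 := sin_sd (z := u - x) h h4 (by rw [e1]; exact a1) (by rw [e1]; exact a2)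
  have b2 := sin_sd (z := u - x - 2 * l) h h4 (by rw [e2]; exact a3) (by rw [e2]; exact a4)
  rw [i1] at b2
  have hc := Real.cosh_pos (u - x).im
  have hc0 := Real.cosh_pos u.im
  have hE := Real.exp_pos (2 * h0)
  have h3 : Real.cosh u.im ^ 2 ≤ Real.exp (2 * h0) * Real.cosh (u - x).im ^ 2 := by
    have := cosh_sq_sub (u := u) (x := 0) (x' := x) (h0 := h0)
      (by rw [zero_im, zero_sub, abs_neg]; exact hx)
    rwa [sub_zero] at this
  unfold rwO cD
  have h5 : sd d ^ 2 * (Real.cosh u.im ^ 2 * (Real.exp (2 * h0))⁻¹) ≤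
      ‖sin (u - x)‖ * ‖sin (u - x - 2 * l)‖ := by
    have h6 : Real.cosh u.im ^ 2 * (Real.exp (2 * h0))⁻¹ ≤ Real.cosh (u - x).im ^ 2 := by
      rw [← div_eq_mul_inv, div_le_iff₀ hE]
      linarith
    calc sd d ^ 2 * (Real.cosh u.im ^ 2 * (Real.exp (2 * h0))⁻¹) ≤
        sd d ^ 2 * Real.cosh (u - x).im ^ 2 := mul_le_mul_of_nonneg_left h6 (by positivity)
      _ = (sd d * Real.cosh (u - x).im) * (sd d * Real.cosh (u - x).im) := by ring
      _ ≤ _ := mul_le_mul b1 b2 (by positivity) (norm_nonneg _)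
  refine (inv_anti₀ (by positivity) h5).trans (le_of_eq ?_)
  rw [mul_inv, mul_inv, inv_inv]
  ring

/-- **inverse of the own part from above** -/
theorem rwO_inv_d {h0 : ℝ} {x u : ℂ} (hx : |x.im| ≤ h0) :
    (rwO x u)⁻¹ ≤ Real.exp (2 * h0) * Real.cosh u.im ^ 2 := by
  unfold rwO
  rw [inv_inv]
  have i1 : (u - x - 2 * l).im = (u - x).im := by simp
  have b1 := sin_up (u - x)
  have b2 := sin_up (u - x - 2 * l)
  rw [i1] at b2
  have h3 : Real.cosh (u - x).im ^ 2 ≤ Real.exp (2 * h0) * Real.cosh u.im ^ 2 := by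
    have := cosh_sq_sub (u := u) (x := x) (x' := 0) (h0 := h0) (by rw [zero_im, sub_zero]; exact hx)
    rwa [sub_zero] at this
  refine le_trans ?_ h3
  rw [sq]
  exact mul_le_mul b1 b2 (norm_nonneg _) (Real.cosh_pos _).le

/-- **cross part from above** -/
theorem rwX_le_d {h0 : ℝ} {x u : ℂ} (hx : |x.im| ≤ h0) :
    rwX x u ≤ Real.exp (2 * h0) * Real.cosh u.im ^ 2 := by
  refine (rwX_le x u).trans ?_
  have := cosh_sq_sub (u := u) (x := x) (x' := 0) (h0 := h0) (by rw [zero_im, sub_zero]; exact hx)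
  rwa [sub_zero] at this

/-- **inverse of the cross part from above** -/
theorem rwX_inv_d {h0 d : ℝ} {x u : ℂ} (h : 0 < d) (h4 : d ≤ 4) (hx : |x.im| ≤ h0)
    (a1 : d * l ≤ |u.re - x.re + 3 * l|) (a2 : |u.re - x.re + 3 * l| ≤ 8 * l - d * l) :
    (rwX x u)⁻¹ ≤ cD h0 d * (Real.cosh u.im ^ 2)⁻¹ := by
  have hs := sd_pos h (by linarith)
  have e1 : (u - x + 3 * l).re = u.re - x.re + 3 * l := by simp
  have i1 : (u - x + 3 * l).im = (u - x).im := by simp
  have b1 := sin_sd (z := u - x + 3 * l) h h4 (by rw [e1]; exact a1) (by rw [e1]; exact a2)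
  rw [i1] at b1
  have hc := Real.cosh_pos (u - x).im
  have hc0 := Real.cosh_pos u.im
  have hE := Real.exp_pos (2 * h0)
  have h3 : Real.cosh u.im ^ 2 ≤ Real.exp (2 * h0) * Real.cosh (u - x).im ^ 2 := by
    have := cosh_sq_sub (u := u) (x := 0) (x' := x) (h0 := h0)
      (by rw [zero_im, zero_sub, abs_neg]; exact hx)
    rwa [sub_zero] at this
  unfold rwX cD
  have h5 : sd d ^ 2 * (Real.cosh u.im ^ 2 * (Real.exp (2 * h0))⁻¹) ≤ ‖sin (u - x + 3 * l)‖ ^ 2 := by
    have h6 : Real.cosh u.im ^ 2 * (Real.exp (2 * h0))⁻¹ ≤ Real.cosh (u - x).im ^ 2 := by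
      rw [← div_eq_mul_inv, div_le_iff₀ hE]
      linarith
    calc sd d ^ 2 * (Real.cosh u.im ^ 2 * (Real.exp (2 * h0))⁻¹) ≤
        sd d ^ 2 * Real.cosh (u - x).im ^ 2 := mul_le_mul_of_nonneg_left h6 (by positivity)
      _ = (sd d * Real.cosh (u - x).im) ^ 2 := by ring
      _ ≤ _ := pow_le_pow_left₀ (by positivity) b1 2
  refine (inv_anti₀ (by positivity) h5).trans (le_of_eq ?_)
  rw [mul_inv, mul_inv, inv_inv]
  ring

/-! ### lists -/

/-- a product over a list against the power of one comparison value -/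
theorem prod_cmp {X : List ℂ} {f : ℂ → ℝ} {c b : ℝ} (hc : 0 ≤ c) (hb : 0 ≤ b) (h0 : ∀ x, 0 ≤ f x)
    (h : ∀ x ∈ X, f x ≤ c * b) : (X.map f).prod ≤ c ^ X.length * b ^ X.length := by
  induction X with
  | nil => simp
  | cons x X ih =>
    have i1 := ih fun y hy => h y (by simp [hy])
    have a1 := h x (by simp)
    rw [List.map_cons, List.prod_cons, List.length_cons, pow_succ, pow_succ]
    have p : 0 ≤ (X.map f).prod := List.prod_nonneg fun b hb => by
      obtain ⟨y, -, rfl⟩ := List.mem_map.1 hb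
      exact h0 y
    calc f x * (X.map f).prod ≤ (c * b) * (c ^ X.length * b ^ X.length) :=
          mul_le_mul a1 i1 p (mul_nonneg hc hb)
      _ = _ := by ring

/-- the places as complex numbers -/
def plc (c : List ℝ) : List ℂ := c.map fun x => ((x * l : ℝ) : ℂ)

/-- **row factor of a content** -/
def rwC (c : Bool → List ℝ) (s : Bool) (u : ℂ) : ℝ := rwL (fun s => plc (c s)) s u

theorem rwC_nonneg (c : Bool → List ℝ) (s : Bool) (u : ℂ) : 0 ≤ rwC c s u := rwL_nonneg _ _ _

/-- **row factor of a content with `k s` missing rows of species `s`** -/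
def rwK (c : Bool → List ℝ) (k : Bool → ℕ) (s : Bool) (u : ℂ) : ℝ :=
  rwC c s u * (((Real.cosh u.im ^ 2)⁻¹) ^ k s * (Real.cosh u.im ^ 2) ^ k (!s))

theorem rwK_nonneg (c : Bool → List ℝ) (k : Bool → ℕ) (s : Bool) (u : ℂ) : 0 ≤ rwK c k s u :=
  mul_nonneg (rwC_nonneg c s u) (mul_nonneg (pow_nonneg (inv_nonneg.2 (sq_nonneg _)) _)
    (pow_nonneg (sq_nonneg _) _))

/-- **rows: the content `c`, `k` rows of the sea are not in it, at most `n0` further rows** -/
structure RwT (n0 : ℕ) (h0 de : ℝ) (miss : ℕ) (c : Bool → List ℝ) (k : Bool → ℕ)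
    (W : Bool → List ℂ) : Prop where
  hh : 0 ≤ h0
  de0 : 0 < de
  de1 : de ≤ 1 / 50
  kn : ∀ s, k s ≤ n0
  ex : ∀ s, ∃ ex : List ℂ, (W s).Perm (plc (c s) ++ ex) ∧ ex.length + miss = k s ∧
    ∀ x ∈ ex, -((1 - de) * l) ≤ x.re ∧ x.re ≤ (1 / 2 - de) * l ∧ de * l ≤ |x.re + l / 2| ∧ |x.im| ≤ h0

/-- constant of the rows -/
def cT (n0 : ℕ) (h0 de : ℝ) : ℝ := cD h0 de ^ n0 * Real.exp (2 * h0) ^ n0

theorem cT_pos {n0 : ℕ} {h0 de : ℝ} (hh : 0 ≤ h0) (h : 0 < de) (h1 : de ≤ 1 / 50) :
    0 < cT n0 h0 de :=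
  mul_pos (pow_pos (lt_of_lt_of_le one_pos (one_le_cD hh h (by linarith))) _)
    (pow_pos (Real.exp_pos _) _)

/-- the split of the row factor -/
theorem rwL_split {c : Bool → List ℝ} {W : Bool → List ℂ} {ex : Bool → List ℂ}
    (h : ∀ s, (W s).Perm (plc (c s) ++ ex s)) (s : Bool) (u : ℂ) :
    rwL W s u = rwC c s u * (((ex s).map fun x => rwO x u).prod *
      ((ex (!s)).map fun x => rwX x u).prod) := by
  unfold rwC rwL
  rw [((h s).map fun x => rwO x u).prod_eq, ((h (!s)).map fun x => rwX x u).prod_eq,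
    List.map_append, List.map_append, List.prod_append, List.prod_append]
  ring

private theorem pow_join {b B : ℝ} (hbB : b * B = 1) (m p q : ℕ) :
    b ^ p * B ^ q = b ^ (p + m) * B ^ (q + m) := by
  rw [pow_add, pow_add]
  have : b ^ m * B ^ m = 1 := by rw [← mul_pow, hbB, one_pow]
  calc b ^ p * B ^ q = b ^ p * B ^ q * (b ^ m * B ^ m) := by rw [this, mul_one]
    _ = _ := by ring

section main
variable {n0 : ℕ} {h0 de : ℝ} {miss : ℕ} {c : Bool → List ℝ} {k : Bool → ℕ} {W : Bool → List ℂ}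
  {u : ℂ}

/-- **rows from above** on the lines of the strings and of `L` (`re u ≤ -(101/100) l`), of `T`
(`re u = -l/2`) and of the points `b` (`13/25 l ≤ re u ≤ l`) -/
theorem up_T (h : RwT n0 h0 de miss c k W) (s : Bool)
    (hu : (-(5 / 2 * l) ≤ u.re ∧ u.re ≤ -(101 / 100 * l)) ∨ u.re = -(l / 2) ∨
      (13 / 25 * l ≤ u.re ∧ u.re ≤ l)) :
    rwL W s u ≤ cT n0 h0 de * rwK c k s u := by
  have hl := l_pos
  have hh := h.hh
  have d0 := h.de0
  have d1 := h.de1
  choose ex hp hlen hex using h.ex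
  have hc := Real.cosh_pos u.im
  have hdl : 0 < de * l := by positivity
  have hdl1 : de * l ≤ 1 / 50 * l := mul_le_mul_of_nonneg_right d1 hl.le
  have hcD := one_le_cD hh d0 (by linarith : de < 8)
  have hE : 1 ≤ Real.exp (2 * h0) := Real.one_le_exp (by positivity)
  have q1 : ((ex s).map fun x => rwO x u).prod ≤
      cD h0 de ^ (ex s).length * ((Real.cosh u.im ^ 2)⁻¹) ^ (ex s).length := by
    refine prod_cmp (by linarith) (by positivity) (fun x => rwO_nonneg x u) fun x hx => ?_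
    obtain ⟨x1, x2, x3, x4⟩ := hex s x hx
    have y1 : -(l - de * l) ≤ x.re := by linarith
    have y2 : x.re ≤ 1 / 2 * l - de * l := by linarith
    rcases hu with ⟨u1, u2⟩ | u1 | ⟨u1, u2⟩
    · refine rwO_le_d d0 (by linarith) x4 ?_ ?_ ?_ ?_
      · rw [le_abs]; right; linarith
      · rw [abs_le]; constructor <;> linarith
      · rw [le_abs]; right; linarith
      · rw [abs_le]; constructor <;> linarith
    · refine rwO_le_d d0 (by linarith) x4 ?_ ?_ ?_ ?_
      · rw [u1]
        have e : -(l / 2) - x.re = -(x.re + l / 2) := by ring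
        rw [e, abs_neg]
        exact x3
      · rw [abs_le]; constructor <;> linarith
      · rw [le_abs]; right; linarith
      · rw [abs_le]; constructor <;> linarith
    · refine rwO_le_d d0 (by linarith) x4 ?_ ?_ ?_ ?_
      · rw [le_abs]; left; linarith
      · rw [abs_le]; constructor <;> linarith
      · rw [le_abs]; right; linarith
      · rw [abs_le]; constructor <;> linarith
  have q2 : ((ex (!s)).map fun x => rwX x u).prod ≤
      Real.exp (2 * h0) ^ (ex (!s)).length * (Real.cosh u.im ^ 2) ^ (ex (!s)).length :=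
    prod_cmp (by linarith) (by positivity) (fun x => rwX_nonneg x u) fun x hx =>
      rwX_le_d (hex (!s) x hx).2.2.2
  have l1 : (ex s).length ≤ n0 := by have := hlen s; have := h.kn s; omega
  have l2 : (ex (!s)).length ≤ n0 := by have := hlen (!s); have := h.kn (!s); omega
  have p2 : 0 ≤ ((ex (!s)).map fun x => rwX x u).prod := List.prod_nonneg fun b hb => by
    obtain ⟨y, -, rfl⟩ := List.mem_map.1 hb
    exact rwX_nonneg y u
  have hbB : (Real.cosh u.im ^ 2)⁻¹ * Real.cosh u.im ^ 2 = 1 := inv_mul_cancel₀ (by positivity)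
  have ej := pow_join hbB miss (ex s).length (ex (!s)).length
  rw [hlen s, hlen (!s)] at ej
  rw [rwL_split hp s u]
  unfold rwK cT
  rw [← ej]
  have hC := rwC_nonneg c s u
  calc rwC c s u * (((ex s).map fun x => rwO x u).prod * ((ex (!s)).map fun x => rwX x u).prod) ≤
      rwC c s u * ((cD h0 de ^ (ex s).length * ((Real.cosh u.im ^ 2)⁻¹) ^ (ex s).length) *
        (Real.exp (2 * h0) ^ (ex (!s)).length * (Real.cosh u.im ^ 2) ^ (ex (!s)).length)) :=
        mul_le_mul_of_nonneg_left (mul_le_mul q1 q2 p2 (by positivity)) hC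
    _ ≤ rwC c s u * ((cD h0 de ^ n0 * ((Real.cosh u.im ^ 2)⁻¹) ^ (ex s).length) *
        (Real.exp (2 * h0) ^ n0 * (Real.cosh u.im ^ 2) ^ (ex (!s)).length)) := by
        have e1 := pow_le_pow_right₀ hcD l1
        have e2 := pow_le_pow_right₀ hE l2
        gcongr
    _ = _ := by ring

/-- **the inverse of the rows** on the lines of the holes -/
theorem inv_T (h : RwT n0 h0 de miss c k W) (s : Bool) (hu1 : 0 ≤ u.re) (hu2 : u.re ≤ l) :
    (rwL W s u)⁻¹ ≤ cT n0 h0 de * (rwK c k s u)⁻¹ := by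
  have hl := l_pos
  have hh := h.hh
  have d0 := h.de0
  have d1 := h.de1
  choose ex hp hlen hex using h.ex
  have hc := Real.cosh_pos u.im
  have hdl : 0 < de * l := by positivity
  have hdl1 : de * l ≤ 1 / 50 * l := mul_le_mul_of_nonneg_right d1 hl.le
  have hcD := one_le_cD hh d0 (by linarith : de < 8)
  have hE : 1 ≤ Real.exp (2 * h0) := Real.one_le_exp (by positivity)
  have q1 : ((ex s).map fun x => (rwO x u)⁻¹).prod ≤
      Real.exp (2 * h0) ^ (ex s).length * (Real.cosh u.im ^ 2) ^ (ex s).length :=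
    prod_cmp (by linarith) (by positivity) (fun x => inv_nonneg.2 (rwO_nonneg x u)) fun x hx =>
      rwO_inv_d (hex s x hx).2.2.2
  have q2 : ((ex (!s)).map fun x => (rwX x u)⁻¹).prod ≤
      cD h0 de ^ (ex (!s)).length * ((Real.cosh u.im ^ 2)⁻¹) ^ (ex (!s)).length := by
    refine prod_cmp (by linarith) (by positivity) (fun x => inv_nonneg.2 (rwX_nonneg x u))
      fun x hx => ?_
    obtain ⟨x1, x2, x3, x4⟩ := hex (!s) x hx
    have y1 : -(l - de * l) ≤ x.re := by linarith
    have y2 : x.re ≤ 1 / 2 * l - de * l := by linarith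
    refine rwX_inv_d d0 (by linarith) x4 ?_ ?_
    · rw [le_abs]; left; linarith
    · rw [abs_le]; constructor <;> linarith
  have l1 : (ex s).length ≤ n0 := by have := hlen s; have := h.kn s; omega
  have l2 : (ex (!s)).length ≤ n0 := by have := hlen (!s); have := h.kn (!s); omega
  have p2 : 0 ≤ ((ex (!s)).map fun x => (rwX x u)⁻¹).prod := List.prod_nonneg fun b hb => by
    obtain ⟨y, -, rfl⟩ := List.mem_map.1 hb
    exact inv_nonneg.2 (rwX_nonneg y u)
  have hbB : Real.cosh u.im ^ 2 * (Real.cosh u.im ^ 2)⁻¹ = 1 := mul_inv_cancel₀ (by positivity)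
  have ej := pow_join hbB miss (ex s).length (ex (!s)).length
  rw [hlen s, hlen (!s)] at ej
  rw [rwL_split hp s u, mul_inv, mul_inv, inv_prod_map, inv_prod_map]
  have eK : (rwK c k s u)⁻¹ = (rwC c s u)⁻¹ * ((Real.cosh u.im ^ 2) ^ k s *
      ((Real.cosh u.im ^ 2)⁻¹) ^ k (!s)) := by
    unfold rwK
    rw [mul_inv, mul_inv, ← inv_pow, inv_inv, ← inv_pow]
  rw [eK, ← ej]
  unfold cT
  have hC := inv_nonneg.2 (rwC_nonneg c s u)
  calc (rwC c s u)⁻¹ * (((ex s).map fun x => (rwO x u)⁻¹).prod *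
        ((ex (!s)).map fun x => (rwX x u)⁻¹).prod) ≤
      (rwC c s u)⁻¹ * ((Real.exp (2 * h0) ^ (ex s).length * (Real.cosh u.im ^ 2) ^ (ex s).length) *
        (cD h0 de ^ (ex (!s)).length * ((Real.cosh u.im ^ 2)⁻¹) ^ (ex (!s)).length)) :=
        mul_le_mul_of_nonneg_left (mul_le_mul q1 q2 p2 (by positivity)) hC
    _ ≤ (rwC c s u)⁻¹ * ((Real.exp (2 * h0) ^ n0 * (Real.cosh u.im ^ 2) ^ (ex s).length) *
        (cD h0 de ^ n0 * ((Real.cosh u.im ^ 2)⁻¹) ^ (ex (!s)).length)) := by
        have e1 := pow_le_pow_right₀ hcD l2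
        have e2 := pow_le_pow_right₀ hE l1
        gcongr
    _ = _ := by ring

end main

end PLT

end
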