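import Pool.Agent.PLT.S4MrgC
import Pool.Agent.PLT.ConfHC
import Pool.Agent.PLT.EnT

/-!
# The gas of a configuration over a sea on a static curve: the two bounds from the data (helper38)

* `ConfHSt`: the conclusion of `exists_confHC`; `maxC3`, `maxC4`: three values of the number of groups;
* **`crudeC_of6`**, **`sharpMC_of6`**: `CrudeC` and `SharpMC` from the data of every configuration and the bounds of the
  gas integral.
-/

set_option autoImplicit false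
set_option linter.unusedSectionVars false
set_option linter.unusedVariables false

noncomputable section

open MeasureTheory Finset Filter Topology
open scoped ENNReal
open PLX (Fil Ends)

namespace PLT

open PHK hiding mfo6
open NUGC.PLX (OB gP SC)
open NUO (Xo ht Tb TW excS)
open NUSea.PLX.H0 (Gd Inp)
open NUR2 (Cfg)
open PotH.PLX (T1H RgH6 sN cfH)

variable [Fil] [Ends]

/-! ### three values of the number of groups -/

omit [Fil] [Ends] in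
/-- three values of the number of groups, with a slope -/
lemma maxC3 {F : ℕ → ℝ → ℝ → ℕ → Prop}
    (hF : ∀ G d d' C C' m m', F G d C m → d' ≤ d → C ≤ C' → m ≤ m' → F G d' C' m')
    (h : ∀ G ≤ 2, ∃ d C : ℝ, 0 < d ∧ 0 ≤ C ∧ ∃ m, F G d C m) :
    ∃ d C : ℝ, 0 < d ∧ 0 ≤ C ∧ ∃ m, ∀ G ≤ 2, F G d C m := by
  obtain ⟨d0, C0, a0, b0, m0, h0⟩ := h 0 (by norm_num)
  obtain ⟨d1, C1, a1, b1, m1, h1⟩ := h 1 (by norm_num)
  obtain ⟨d2, C2, a2, b2, m2, h2⟩ := h 2 (by norm_num)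
  refine ⟨min d0 (min d1 d2), C0 + C1 + C2, lt_min a0 (lt_min a1 a2), by positivity,
    max m0 (max m1 m2), ?_⟩
  intro G hG
  interval_cases G
  · exact hF _ _ _ _ _ _ _ h0 (min_le_left _ _) (by linarith) (le_max_left _ _)
  · exact hF _ _ _ _ _ _ _ h1 ((min_le_right _ _).trans (min_le_left _ _)) (by linarith)
      ((le_max_left _ _).trans (le_max_right _ _))
  · exact hF _ _ _ _ _ _ _ h2 ((min_le_right _ _).trans (min_le_right _ _)) (by linarith)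
      ((le_max_right _ _).trans (le_max_right _ _))

omit [Fil] [Ends] in
/-- three values of the number of groups, with a slope and a constant of the statistics -/
lemma maxC4 {F : ℕ → ℝ → ℝ → ℝ → ℕ → Prop}
    (hF : ∀ G d d' C C' c c' m m', F G d C c m → d' ≤ d → C ≤ C' → c ≤ c' → m ≤ m' →
      F G d' C' c' m')
    (h : ∀ G ≤ 2, ∃ d C c : ℝ, 0 < d ∧ 0 ≤ C ∧ 1 ≤ c ∧ ∃ m, F G d C c m) :
    ∃ d C c : ℝ, 0 < d ∧ 0 ≤ C ∧ 1 ≤ c ∧ ∃ m, ∀ G ≤ 2, F G d C c m := by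
  obtain ⟨d0, C0, c0, a0, b0, e0, m0, h0⟩ := h 0 (by norm_num)
  obtain ⟨d1, C1, c1, a1, b1, e1, m1, h1⟩ := h 1 (by norm_num)
  obtain ⟨d2, C2, c2, a2, b2, e2, m2, h2⟩ := h 2 (by norm_num)
  refine ⟨min d0 (min d1 d2), C0 + C1 + C2, c0 + c1 + c2, lt_min a0 (lt_min a1 a2), by positivity,
    by linarith, max m0 (max m1 m2), ?_⟩
  intro G hG
  interval_cases G
  · exact hF _ _ _ _ _ _ _ _ _ h0 (min_le_left _ _) (by linarith) (by linarith) (le_max_left _ _)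
  · exact hF _ _ _ _ _ _ _ _ _ h1 ((min_le_right _ _).trans (min_le_left _ _)) (by linarith)
      (by linarith) ((le_max_left _ _).trans (le_max_right _ _))
  · exact hF _ _ _ _ _ _ _ _ _ h2 ((min_le_right _ _).trans (min_le_right _ _)) (by linarith)
      (by linarith) ((le_max_right _ _).trans (le_max_right _ _))

/-- the constant of the numbers is at least one -/
private lemma one_le_64qoC : (1 : ℝ) ≤ 64 * ((Fil.qo : ℕ) : ℝ) := by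
  have h : (1 : ℕ) ≤ Fil.qo := by
    have := Fil.one_le_q
    unfold Fil.qo
    omega
  have : (1 : ℝ) ≤ (Fil.qo : ℝ) := by exact_mod_cast h
  linarith

omit [Fil] [Ends] in
private lemma abs_pinC {T : ℝ} (hT : 0 ≤ T) (τ : ℝ) : |NUSp.pin T τ| ≤ |τ| := by
  rcases le_total |τ| T with h | h
  · rw [NUSp.pin_of_le h]
  · exact (NUSp.abs_pin_le hT τ).trans h

omit [Fil] [Ends] in
private lemma T1H_nn {ep e1 : ℝ} (h0 : 0 < ep) (h1 : 0 < e1) {m : ℕ} (hm : 1 ≤ m) {r : ℕ} (O : Fin r → Xo)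
    {E : ℝ} (hE : 0 ≤ E) : 0 ≤ T1H ep e1 m O E := by
  have h2 : 0 ≤ Real.log (m : ℝ) := Real.log_nonneg (by exact_mod_cast hm)
  have h3 : 0 ≤ TW ep e1 m := by
    unfold TW Tb
    positivity
  have h4 := le_max_right (excS (TW ep e1 m) O) E
  unfold T1H
  linarith

/-- the right side is monotone in the constant and in the power -/
lemma rhsC_mono [SeaC] {m n : ℕ} (hm : 1 ≤ m) {g : Fin n → Gd} {E x C C' a a' z z' : ℝ} (hC : 0 ≤ C)
    (hCC : C ≤ C') (ha : a ≤ a') (hz : z ≤ z') :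
    ENNReal.ofReal (prefC m g E x C * (m : ℝ) ^ a * Real.exp z) ≤
      ENNReal.ofReal (prefC m g E x C' * (m : ℝ) ^ a' * Real.exp z') := by
  have h1 : (1 : ℝ) ≤ (m : ℝ) := by exact_mod_cast hm
  refine ENNReal.ofReal_le_ofReal ?_
  refine mul_le_mul (mul_le_mul (prefC_mono hCC) (Real.rpow_le_rpow_of_exponent_le h1 ha)
    (Real.rpow_nonneg (by linarith) _) (prefC_nonneg (hC.trans hCC))) (Real.exp_le_exp.2 hz)
    (Real.exp_pos _).le (mul_nonneg (prefC_nonneg (hC.trans hCC)) (Real.rpow_nonneg (by linarith) _))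

/-- statistics admissible for a large constant are admissible for a smaller one -/
theorem StatMC.weak [SeaC] {Cg Cg' : ℝ} {m p q : ℕ} {A D : ℝ} {Ψ : Cfg p q → ℝ≥0∞} (hL : 1 ≤ Real.log m)
    (h1 : 1 ≤ Cg) (h : Cg ≤ Cg') (hS : StatMC Cg' m p q A D Ψ) : StatMC Cg m p q A D Ψ := by
  refine { meas := hS.meas, A0 := hS.A0, D0 := hS.D0, poly := hS.poly, gas := fun g U hg => ?_ }
  refine hS.gas g U (hg.weak ?_ ?_ ?_ le_rfl)
  · have : 0 < Cg' := by linarith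
    positivity
  · have : 0 < Cg := by linarith
    have hL0 : 0 < Real.log m := by linarith
    gcongr
  · gcongr

/-- **data and reduction of every configuration** (the conclusion of `exists_confHC`) -/
def ConfHSt (SB : SeaCB) (Q : Cv.Par7) (P : Par6) (en : EnC) (lg hg : ℝ) : Prop :=
  ∀ B0 N0 : ℝ, 0 ≤ B0 → 0 ≤ N0 →
    ∃ KR : ℝ, 0 ≤ KR ∧ ∀ G : ℕ, G ≤ 2 → ∀ kap : ℝ, 0 < kap → ∀ ep : ℝ, 0 < ep → ep ≤ 1 / 100 →
    ∀ e1 : ℝ, 0 < e1 → e1 ≤ 1 / 100 → ∀ Cc C0 : ℝ, 1 ≤ Cc → 1 ≤ C0 →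
    ∃ (k : ℕ) (κ CB : ℝ), 0 < κ ∧ 0 ≤ CB ∧ ∀ εo : ℝ, 0 < εo → ∃ A : ℝ, 0 ≤ A ∧
    ∀ ϑ : ℝ, 0 < ϑ → ∃ d CR : ℝ, 0 < d ∧ d ≤ 1 ∧ 0 ≤ CR ∧ ∃ m0 : ℕ, ∀ [S : SeaC] [SeaCU SB],
    ∀ m : ℕ, m0 ≤ m →
    ∀ (η η1 cr Bc Bc' : ℝ → ℝ) (H H' : Bool → ℝ → ℝ) (B : OB) (g : Fin G → Gd),
    EnvC ep e1 Cc C0 B0 N0 d m η η1 cr Bc Bc' H H' B g →
    ∀ (aX aY : ℕ) (ν : ℝ) (N : ℕ) (b' : ℝ) (r : ℕ) (O : Fin r → Xo) (E x : ℝ), |b'| ≤ d →
      RgH6 ep e1 m g aX aY ν N O E x →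
      ∃ (I : Inp) (O' : Fin r → Cv.Oc) (B1 : ℝ → ℝ) (D : ℝ),
        ConfOkC SB Q P (en S) A εo ep e1 κ CB ϑ lg hg kap KR CR k m η η1 cr B H g aX aY ν N b' O E x I
          O' B1 D

/-! ### the two bounds -/

/-- **the crude bound from the data** -/
theorem crudeC_of6 {SB : SeaCB} {Q : Cv.Par7} {P : Par6} {en : EnC} {lg hg : ℝ}
    (hF : ConfHSt SB Q P en lg hg) (hG : Cv.CrudeCC SB Q) : CrudeC SB P en := by
  intro B0 N0 hB0 hN0
  obtain ⟨KG, Ca, hKG, hCa, hG⟩ := hG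
  obtain ⟨KR, hKR, hC⟩ := hF B0 N0 hB0 hN0
  refine ⟨KG + KR, Ca, by positivity, hCa, ?_⟩
  intro kap hkap ep hep hep1 e1 he he1 Cc C0 hCc hC0 δ hδ
  have key := maxC3 (F := fun G d C M0 => 0 ≤ C ∧ 1 ≤ M0 ∧ ∀ [S : SeaC] [SeaCU SB], ∀ m : ℕ, M0 ≤ m →
    ∀ (η η1 cr Bc Bc' : ℝ → ℝ) (H H' : Bool → ℝ → ℝ) (B : OB) (g : Fin G → Gd),
    EnvC ep e1 Cc C0 B0 N0 d m η η1 cr Bc Bc' H H' B g →
    ∀ (aX aY : ℕ) (ν : ℝ) (N : ℕ) (b' : ℝ) (r : ℕ) (O : Fin r → Xo) (E x : ℝ), |b'| ≤ d →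
      RgH6 ep e1 m g aX aY ν N O E x →
      lhsC B P m η η1 aX aY ν N b' O (fun _ => 1) ≤
        ENNReal.ofReal (prefC m g E x C * (m : ℝ) ^ (7 / 8 + Ca * (ep + e1) + δ) *
          Real.exp (confEC P (en S) m η (TW ep e1 m) (KG + KR) kap O - 1 / 10 * excS (TW ep e1 m) O +
            linC η η1 m g (T1H ep e1 m O E) H +
            enHC P m g O (T1H ep e1 m O E) (nA6 (N + aX) O true) (nA6 (N + aY) O false)))) ?_ ?_
  · obtain ⟨d, C, hd, hC, M0, H⟩ := key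
    exact ⟨d, C, hd, hC, M0, fun m hm n η η1 cr Bc Bc' Hp Hp' B g hE aX aY ν N b' r O E x hb' hR =>
      (H n hR.n2).2.2 m hm η η1 cr Bc Bc' Hp Hp' B g hE aX aY ν N b' r O E x hb' hR⟩
  · rintro G d d' C C' m m' ⟨hC0', h1m, h⟩ hd hC hm
    refine ⟨hC0'.trans hC, h1m.trans hm, ?_⟩
    intro S hS M hM η η1 cr Bc Bc' Hp Hp' B g hE aX aY ν N b' r O E x hb' hR
    exact (h M (hm.trans hM) η η1 cr Bc Bc' Hp Hp' B g (hE.mono hd) aX aY ν N b' r O E x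
      (hb'.trans hd) hR).trans (rhsC_mono (h1m.trans (hm.trans hM)) hC0' hC le_rfl le_rfl)
  · intro G hG2
    obtain ⟨εo, hεo, hG⟩ := hG (64 * (Fil.qo : ℕ)) one_le_64qoC G (kap / 2) (by positivity)
      ep hep hep1 e1 he he1 δ hδ
    obtain ⟨k, κ, CB, hκ, hCB, hC⟩ := hC G hG2 kap hkap ep hep hep1 e1 he he1 Cc C0 hCc hC0
    obtain ⟨A, hA, hC⟩ := hC εo hεo
    obtain ⟨ϑ, Cst, hϑ, hCst, m1, hG⟩ := hG k κ CB hκ hCB A hA
    obtain ⟨d, CR, hd, hd1, hCR, m2, hC⟩ := hC ϑ hϑ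
    refine ⟨d, (Cst + 1) * CR, hd, by positivity, max (max m1 m2) 1, by positivity,
      le_max_right _ _, ?_⟩
    intro S hS m hm η η1 cr Bc Bc' Hp Hp' B g hE aX aY ν N b' r O E x hb' hR
    have hm1 : m1 ≤ m := ((le_max_left _ _).trans (le_max_left _ _)).trans hm
    have hm2 : m2 ≤ m := ((le_max_right _ _).trans (le_max_left _ _)).trans hm
    obtain ⟨I, O', B1, D, hc⟩ := hC m hm2 η η1 cr Bc Bc' Hp Hp' B g hE aX aY ν N b' r O E x hb' hR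
    have h1 := hG m hm1 _ r O' _ _ _ _ _ _ _ _ _ _ _ hc.dat
    have h2 := hc.red KG Cst _ hCst (fun _ => 1) 1 (by
      simp only [mul_one]
      exact h1)
    rw [mul_one] at h2
    exact h2

/-- **the sharp bound with a statistic, from the data** -/
theorem sharpMC_of6 {SB : SeaCB} {Q : Cv.Par7} {P : Par6} {en : EnC} {lg hg : ℝ}
    (hF : ConfHSt SB Q P en lg hg) (hG : Cv.GasSharpCC SB Q lg hg) : SharpMC SB P en := by
  intro B0 N0 hB0 hN0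
  obtain ⟨KG, Ca, hKG, hCa, hG⟩ := hG
  obtain ⟨KR, hKR, hC⟩ := hF B0 N0 hB0 hN0
  refine ⟨KG + KR, Ca, by positivity, hCa, ?_⟩
  intro kap hkap ep hep hep1 e1 he he1 Cc C0 hCc hC0 δ hδ
  have key := maxC4 (F := fun G d C Cg M0 => 0 ≤ C ∧ 1 ≤ Cg ∧ 1 ≤ Real.log M0 ∧
    ∀ [S : SeaC] [SeaCU SB], ∀ m : ℕ, M0 ≤ m →
    ∀ (η η1 cr Bc Bc' : ℝ → ℝ) (H H' : Bool → ℝ → ℝ) (B : OB) (g : Fin G → Gd),
    EnvC ep e1 Cc C0 B0 N0 d m η η1 cr Bc Bc' H H' B g →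
    ∀ (aX aY : ℕ) (ν : ℝ) (N : ℕ) (b' : ℝ) (r : ℕ) (O : Fin r → Xo) (E x : ℝ), |b'| ≤ d →
      RgH6 ep e1 m g aX aY ν N O E x →
      (∀ i, |(g i).τ| ≤ Real.log m ^ 2) → (r : ℝ) + 2 ≤ Real.log m →
      (∀ i, |ht (O i)| ≤ Real.log m ^ 2) →
      ∀ (Ψ : Cfg (nA6 (N + aX) O true) (nA6 (N + aY) O false) → ℝ≥0∞) (A D : ℝ),
      StatMC Cg m (nA6 (N + aX) O true) (nA6 (N + aY) O false) A D Ψ →
      lhsC B P m η η1 aX aY ν N b' O Ψ ≤
        ENNReal.ofReal (prefC m g E x C * (m : ℝ) ^ (3 / 8 + Ca * (ep + e1) + δ) *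
          Real.exp (confEC P (en S) m η (TW ep e1 m) (KG + KR) kap O + linC η η1 m g (T1H ep e1 m O E) H +
            enHC P m g O (T1H ep e1 m O E) (nA6 (N + aX) O true) (nA6 (N + aY) O false))) *
          ENNReal.ofReal D) ?_ ?_
  · obtain ⟨d, C, Cg, hd, hC, hCg, M0, H⟩ := key
    exact ⟨d, C, Cg, hd, hC, hCg, M0, fun m hm n η η1 cr Bc Bc' Hp Hp' B g hE aX aY ν N b' r O E x
      hb' hR hn hrL hht =>
      (H n hR.n2).2.2.2 m hm η η1 cr Bc Bc' Hp Hp' B g hE aX aY ν N b' r O E x hb' hR hn hrL hht⟩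
  · rintro G d d' C C' Cg Cg' m m' ⟨hC0', hCg1, h1m, h⟩ hd hC hCg hm
    have hm0 : (1 : ℕ) ≤ m := by
      rcases Nat.eq_zero_or_pos m with h0 | h0
      · rw [h0] at h1m
        norm_num at h1m
      · exact h0
    have hlog : Real.log m ≤ Real.log m' :=
      Real.log_le_log (by exact_mod_cast hm0) (by exact_mod_cast hm)
    refine ⟨hC0'.trans hC, hCg1.trans hCg, h1m.trans hlog, ?_⟩
    intro S hSU M hM η η1 cr Bc Bc' Hp Hp' B g hE aX aY ν N b' r O E x hb' hR hn hrL hht Ψ A D hS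
    have hlog' : 1 ≤ Real.log M := (h1m.trans hlog).trans
      (Real.log_le_log (by exact_mod_cast hm0.trans hm) (by exact_mod_cast hM))
    exact (h M (hm.trans hM) η η1 cr Bc Bc' Hp Hp' B g (hE.mono hd) aX aY ν N b' r O E x
      (hb'.trans hd) hR hn hrL hht Ψ A D (hS.weak hlog' hCg1 hCg)).trans
        (mul_le_mul_left (rhsC_mono (hm0.trans (hm.trans hM)) hC0' hC le_rfl le_rfl) _)
  · intro G hG2
    obtain ⟨εo, hεo, hG⟩ := hG (64 * (Fil.qo : ℕ)) one_le_64qoC G (kap / 2) (by positivity)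
      ep hep hep1 e1 he he1 δ hδ
    obtain ⟨k, κ, CB, hκ, hCB, hC⟩ := hC G hG2 kap hkap ep hep hep1 e1 he he1 Cc C0 hCc hC0
    obtain ⟨A1, hA1, hC⟩ := hC εo hεo
    obtain ⟨ϑ, Cst, Cg, hϑ, hCst, hCg, m1, hG⟩ := hG k κ CB hκ hCB A1 hA1
    obtain ⟨d, CR, hd, hd1, hCR, m2, hC⟩ := hC ϑ hϑ
    obtain ⟨m5, hm5⟩ := NUO.log_large 1
    refine ⟨d, (Cst + 1) * CR, Cg, hd, by positivity, hCg, max (max m1 m2) (max m5 1),
      by positivity, hCg, hm5 _ ((le_max_left _ _).trans (le_max_right _ _)), ?_⟩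
    intro S hSU m hm η η1 cr Bc Bc' Hp Hp' B g hE aX aY ν N b' r O E x hb' hR hn hrL hht Ψ A D hS
    have hm1 : m1 ≤ m := ((le_max_left _ _).trans (le_max_left _ _)).trans hm
    have hm2 : m2 ≤ m := ((le_max_right _ _).trans (le_max_left _ _)).trans hm
    have hm3 : m5 ≤ m := ((le_max_left _ _).trans (le_max_right _ _)).trans hm
    have hL1 : 1 ≤ Real.log m := hm5 m hm3
    have h1m : 1 ≤ m := ((le_max_right m5 1).trans (le_max_right (max m1 m2) _)).trans hm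
    obtain ⟨I, O', B1, D', hc⟩ := hC m hm2 η η1 cr Bc Bc' Hp Hp' B g hE aX aY ν N b' r O E x hb' hR
    have hG2' : (G : ℝ) ≤ 2 := by exact_mod_cast hG2
    have hrG : (r : ℝ) + G ≤ Real.log m := by linarith
    have hgp : ∀ j, |(gP (T1H ep e1 m O E) g j).τ| ≤ Real.log m ^ 2 := by
      intro j
      show |NUSp.pin (T1H ep e1 m O E) (g j).τ| ≤ _
      exact (abs_pinC (T1H_nn hep he h1m O hR.E0) _).trans (hn j)
    have h1 := hG m hm1 _ r O' _ _ _ _ _ _ _ _ _ _ _ hc.dat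
      (hc.gd hn hrG hht) hrG (fun i => by rw [hc.hh]; exact hht i) hgp hc.dD
    have hρ : (Cv.datC I O').ρ = rhoMC m := by
      funext a t
      show I.s a * Cv.P t = _
      rw [hc.sI]
      rfl
    rw [hρ] at h1
    have h2 := hc.red KG Cst _ hCst Ψ (ENNReal.ofReal D) (by
      have h3 := hS.gas _ _ h1
      rw [mul_comm (ENNReal.ofReal D)] at h3
      exact h3)
    have hexc := NUO.excS_nonneg (TW ep e1 m) O
    exact h2.trans (mul_le_mul_left (rhsC_mono h1m (by positivity) le_rfl le_rfl (by linarith)) _)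

/-- **`S4MC` from the data** -/
theorem s4MC_of6 {SB : SeaCB} {Q : Cv.Par7} {P : Par6} {en : EnC} {lg hg : ℝ}
    (hF : ConfHSt SB Q P en lg hg) (hC : Cv.CrudeCC SB Q) (hS : Cv.GasSharpCC SB Q lg hg) :
    S4MC SB P en := s4MC_of (crudeC_of6 hF hC) (sharpMC_of6 hF hS)

/-! ### the inputs -/

/-- `ConfHSt` from the inputs of `exists_confHC` -/
theorem confHSt_of {SB : SeaCB} {Q : Cv.Par7} {P : Par6} {δ lg hg top : ℝ} (hδ : 0 < δ) (hδ1 : δ ≤ 1)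
    (hlg : -(NUMF.l / 10) ≤ lg) (hhg : hg ≤ NUMF.l / 10) (hQl : lg ≤ Q.lo) (hQh : Q.hi ≤ hg)
    (hE : ∀ [SeaC] [SeaCU SB], ∀ t, lg ≤ Cv.eta t) (hT : ∀ [SeaC] [SeaCU SB], ∀ t, Cv.eta t ≤ top)
    (htop : top < hg) (hP : Cv.PGC δ lg hg P) (hD : DatGHC SB Q P) (hOb : ObjsC SB Q P)
    (hEn : EnHCSt SB Q P) {en : EnC}
    (hen : ∀ [S : SeaC] [SeaCU SB], ∀ (r : ℕ) (O : Fin r → Xo) (μ : Bool → ℝ → ℝ), ChO O μ →
      Gs.EQ Cv.ksC (Cv.fOC P O) μ ≤ en S r O) : ConfHSt SB Q P en lg hg :=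
  fun _ _ h1 h2 => exists_confHC hδ hδ1 hlg hhg hQl hQh hE hT htop hP hD hOb hEn hen h1 h2

omit [Fil] [Ends] in
/-- `enT` bounds the energies, seas in the window of the point -/
theorem hen_enT {q : Pt} {tb : Tb8} {δ : ℝ} (hq : HT q tb δ) {SB : SeaCB}
    (hW : ∀ [S : SeaC] [SeaCU SB], WinQ q S) :
    ∀ [S : SeaC] [SeaCU SB], ∀ (r : ℕ) (O : Fin r → Xo) (μ : Bool → ℝ → ℝ), ChO O μ →
      Gs.EQ Cv.ksC (Cv.fOC q.par O) μ ≤ enT q.par S r O :=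
  fun _ _ _ hμ => le_enT hq hW hμ

/-- **`S4MC` at a point with a certificate** -/
theorem s4MC_enT {q : Pt} {tb : Tb8} {δq : ℝ} (hq : HT q tb δq) {SB : SeaCB} {Q : Cv.Par7} {δ lg hg top : ℝ}
    (hδ : 0 < δ) (hδ1 : δ ≤ 1) (hlg : -(NUMF.l / 10) ≤ lg) (hhg : hg ≤ NUMF.l / 10) (hQl : lg ≤ Q.lo)
    (hQh : Q.hi ≤ hg) (hE : ∀ [SeaC] [SeaCU SB], ∀ t, lg ≤ Cv.eta t)
    (hT : ∀ [SeaC] [SeaCU SB], ∀ t, Cv.eta t ≤ top) (htop : top < hg) (hP : Cv.PGC δ lg hg q.par)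
    (hD : DatGHC SB Q q.par) (hOb : ObjsC SB Q q.par) (hEn : EnHCSt SB Q q.par)
    (hW : ∀ [S : SeaC] [SeaCU SB], WinQ q S) (hC : Cv.CrudeCC SB Q) (hS : Cv.GasSharpCC SB Q lg hg) :
    S4MC SB q.par (enT q.par) :=
  s4MC_of6 (confHSt_of hδ hδ1 hlg hhg hQl hQh hE hT htop hP hD hOb hEn (hen_enT (SB := SB) hq hW)) hC hS

end PLT

end
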