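import Pool.Agent.PLT.TopDef
import Pool.Agent.PLT.GasIC
import Pool.Agent.PotH.MergeS

/-!
# The gas of a configuration over a sea on a static curve: the two bounds together

* `CrudeC SB P en`, `SharpMC SB P en`: the crude bound, the sharp bound with a statistic (as `CrudeH6`, `SharpM6`),
  any sea of the class `SB`;
* **`s4MC_of`**: `S4MC` from them; **`s4C_of`**: `S4C` from `S4MC` (statistic `1`).
-/

set_option autoImplicit false
set_option linter.unusedSectionVars false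
set_option linter.unusedVariables false

noncomputable section

open MeasureTheory Finset Filter Topology
open scoped ENNReal
open PLX (Fil Ends)

namespace PLT

open PHK hiding mfo6
open NUGC.PLX (OB gP)
open NUO (Xo ht Tb TW excS)
open NUSea.PLX.H0 (Gd)
open NUR2 (Cfg)
open PotH.PLX (T1H RgH6)

variable [Fil] [Ends]

/-- **the crude bound**: every number of objects, every height of objects and groups, every tilt -/
def CrudeC (SB : SeaCB) (P : Par6) (en : EnC) : Prop :=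
  ∀ B0 N0 : ℝ, 0 ≤ B0 → 0 ≤ N0 → ∃ K Ca : ℝ, 0 ≤ K ∧ 0 ≤ Ca ∧ ∀ kap : ℝ, 0 < kap →
    ∀ ep : ℝ, 0 < ep → ep ≤ 1 / 100 → ∀ e1 : ℝ, 0 < e1 → e1 ≤ 1 / 100 →
    ∀ Cc C0 : ℝ, 1 ≤ Cc → 1 ≤ C0 → ∀ δ : ℝ, 0 < δ →
    ∃ d Cst : ℝ, 0 < d ∧ 0 ≤ Cst ∧ ∃ m0 : ℕ, ∀ [S : SeaC] [SeaCU SB], ∀ m : ℕ, m0 ≤ m →
    ∀ (n : ℕ) (η η1 cr Bc Bc' : ℝ → ℝ) (H H' : Bool → ℝ → ℝ) (B : OB) (g : Fin n → Gd),
    EnvC ep e1 Cc C0 B0 N0 d m η η1 cr Bc Bc' H H' B g →
    ∀ (aX aY : ℕ) (ν : ℝ) (N : ℕ) (b' : ℝ) (r : ℕ) (O : Fin r → Xo) (E x : ℝ), |b'| ≤ d →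
      RgH6 ep e1 m g aX aY ν N O E x →
      lhsC B P m η η1 aX aY ν N b' O (fun _ => 1) ≤
        ENNReal.ofReal (prefC m g E x Cst * (m : ℝ) ^ (7 / 8 + Ca * (ep + e1) + δ) *
          Real.exp (confEC P (en S) m η (TW ep e1 m) K kap O - 1 / 10 * excS (TW ep e1 m) O +
            linC η η1 m g (T1H ep e1 m O E) H +
            enHC P m g O (T1H ep e1 m O E) (nA6 (N + aX) O true) (nA6 (N + aY) O false)))

/-- **the sharp bound with a statistic**: groups and objects at heights at most `(log m)^2`, at most `log m - 2`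
objects, `N` near `ν` -/
def SharpMC (SB : SeaCB) (P : Par6) (en : EnC) : Prop :=
  ∀ B0 N0 : ℝ, 0 ≤ B0 → 0 ≤ N0 → ∃ K Ca : ℝ, 0 ≤ K ∧ 0 ≤ Ca ∧ ∀ kap : ℝ, 0 < kap →
    ∀ ep : ℝ, 0 < ep → ep ≤ 1 / 100 → ∀ e1 : ℝ, 0 < e1 → e1 ≤ 1 / 100 →
    ∀ Cc C0 : ℝ, 1 ≤ Cc → 1 ≤ C0 → ∀ δ : ℝ, 0 < δ →
    ∃ d Cst Cg : ℝ, 0 < d ∧ 0 ≤ Cst ∧ 1 ≤ Cg ∧ ∃ m0 : ℕ, ∀ [S : SeaC] [SeaCU SB], ∀ m : ℕ, m0 ≤ m →
    ∀ (n : ℕ) (η η1 cr Bc Bc' : ℝ → ℝ) (H H' : Bool → ℝ → ℝ) (B : OB) (g : Fin n → Gd),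
    EnvC ep e1 Cc C0 B0 N0 d m η η1 cr Bc Bc' H H' B g →
    ∀ (aX aY : ℕ) (ν : ℝ) (N : ℕ) (b' : ℝ) (r : ℕ) (O : Fin r → Xo) (E x : ℝ), |b'| ≤ d →
      RgH6 ep e1 m g aX aY ν N O E x →
      (∀ i, |(g i).τ| ≤ Real.log m ^ 2) → (r : ℝ) + 2 ≤ Real.log m →
      (∀ i, |ht (O i)| ≤ Real.log m ^ 2) →
      ∀ (Ψ : Cfg (nA6 (N + aX) O true) (nA6 (N + aY) O false) → ℝ≥0∞) (A D : ℝ),
      StatMC Cg m (nA6 (N + aX) O true) (nA6 (N + aY) O false) A D Ψ →
      lhsC B P m η η1 aX aY ν N b' O Ψ ≤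
        ENNReal.ofReal (prefC m g E x Cst * (m : ℝ) ^ (3 / 8 + Ca * (ep + e1) + δ) *
          Real.exp (confEC P (en S) m η (TW ep e1 m) K kap O + linC η η1 m g (T1H ep e1 m O E) H +
            enHC P m g O (T1H ep e1 m O E) (nA6 (N + aX) O true) (nA6 (N + aY) O false))) *
          ENNReal.ofReal D

private theorem gasIC_le_const (B : OB) (P : Par6) (D D1 : Bool → ℝ → ℂ) {r : ℕ} (O : Fin r → Xo) (p q : ℕ)
    {Ψ : (Fin p → ℝ) × (Fin q → ℝ) → ℝ≥0∞} {c : ℝ≥0∞} (hc : c ≠ ⊤) (h : ∀ x, Ψ x ≤ c) :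
    gasIC B P D D1 O p q Ψ ≤ c * gasIC B P D D1 O p q fun _ => 1 := by
  refine (gasIC_mono B P D D1 O p q h).trans (le_of_eq ?_)
  rw [← gasIC_const B P D D1 O p q hc]
  simp only [mul_one]

/-- **`S4MC` from the crude bound and the sharp bound with a statistic** -/
theorem s4MC_of {SB : SeaCB} {P : Par6} {en : EnC} (hC : CrudeC SB P en) (hS : SharpMC SB P en) :
    S4MC SB P en := by
  intro B0 N0 hB0 hN0
  obtain ⟨K1, Ca1, hK1, hCa1, hC⟩ := hC B0 N0 hB0 hN0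
  obtain ⟨K2, Ca2, hK2, hCa2, hS⟩ := hS B0 N0 hB0 hN0
  refine ⟨max K1 K2 + 1 / 2, max Ca1 Ca2, by have := hK1.trans (le_max_left K1 K2); linarith,
    hCa1.trans (le_max_left _ _), ?_⟩
  intro A0 hA0 kap hkap ep hep hep' e1 he1 he1' Cc C0 hCc hC0 δ hδ
  obtain ⟨d1, Cst1, hd1, hCst1, m1, hC⟩ := hC kap hkap ep hep hep' e1 he1 he1' Cc C0 hCc hC0 δ hδ
  obtain ⟨d2, Cst2, Cg, hd2, hCst2, hCg, m2, hS⟩ :=
    hS kap hkap ep hep hep' e1 he1 he1' Cc C0 hCc hC0 δ hδ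
  set d : ℝ := min (d1 / 2) d2 with hd
  have hd0 : 0 < d := lt_min (by positivity) hd2
  have hdd1 : d ≤ d1 / 2 := min_le_left _ _
  have hdd2 : d ≤ d2 := min_le_right _ _
  obtain ⟨m3, hm3⟩ := NUO.log_large (max (10 * (A0 + 1) + 20) ((A0 + 1) / d))
  have hCm0 : 0 ≤ max Cst1 Cst2 := hCst1.trans (le_max_left _ _)
  refine ⟨d, max Cst1 Cst2 * Real.exp (2 * A0 + 1), Cg, hd0, by positivity, hCg,
    max (max m1 m2) (max m3 3), ?_⟩
  intro S _ m hm n η η1 cr Bc Bc' Hp Hp' B g hEnv aX aY ν N b' r O E x hb' hR Ψ w D hw hD hpoly hstat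
  have hm1 : m1 ≤ m := ((le_max_left _ _).trans (le_max_left _ _)).trans hm
  have hm2 : m2 ≤ m := ((le_max_right _ _).trans (le_max_left _ _)).trans hm
  have hm3' : m3 ≤ m := ((le_max_left _ _).trans (le_max_right _ _)).trans hm
  have hm4 : 3 ≤ m := ((le_max_right _ _).trans (le_max_right _ _)).trans hm
  obtain ⟨L, hL⟩ : ∃ L, L = Real.log m := ⟨_, rfl⟩
  have hL30 : 10 * (A0 + 1) + 20 ≤ L := by rw [hL]; exact (le_max_left _ _).trans (hm3 m hm3')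
  have hLd : A0 + 1 ≤ d * L := by
    have h := (le_max_right _ _).trans (hm3 m hm3')
    rw [div_le_iff₀ hd0, ← hL] at h
    linarith
  have hmR : (1 : ℝ) ≤ m := by
    have : 1 ≤ m := by omega
    exact_mod_cast this
  have hmpos : (0 : ℝ) < m := by linarith
  obtain ⟨Xc, hXc⟩ : ∃ X, X = confEC P (en S) m η (TW ep e1 m) (max K1 K2) kap O := ⟨_, rfl⟩
  obtain ⟨G, hG⟩ : ∃ G, G = linC η η1 m g (T1H ep e1 m O E) Hp +
    enHC P m g O (T1H ep e1 m O E) (nA6 (N + aX) O true) (nA6 (N + aY) O false) := ⟨_, rfl⟩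
  obtain ⟨p, hp⟩ : ∃ p, p = 3 / 8 + max Ca1 Ca2 * (ep + e1) + δ := ⟨_, rfl⟩
  have hmp : (0 : ℝ) ≤ (m : ℝ) ^ p := Real.rpow_nonneg hmpos.le _
  have hpre0 : 0 ≤ prefC m g E x (max Cst1 Cst2) := prefC_nonneg hCm0
  obtain ⟨F, hF⟩ : ∃ F : ℝ, F = if ∀ i, |(g i).τ| ≤ Real.log m ^ 2 then 1 else
    Real.exp ((A0 + 1 / 2) * Real.log m) := ⟨_, rfl⟩
  have hF1 : 1 ≤ F := by
    rw [hF]
    split_ifs
    · exact le_rfl
    · rw [Real.one_le_exp_iff, ← hL]
      have : 0 ≤ L := by linarith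
      positivity
  have hTWL : TW ep e1 m ≤ L := by
    unfold TW Tb
    rw [← hL]
    have : (1 + 2 * e1 + 2 * ep) ≤ 2 := by linarith
    nlinarith
  have hsh2 : (m : ℝ) ^ (3 / 8 + Ca2 * (ep + e1) + δ) ≤ (m : ℝ) ^ p := by
    refine Real.rpow_le_rpow_of_exponent_le hmR ?_
    have : Ca2 * (ep + e1) ≤ max Ca1 Ca2 * (ep + e1) :=
      mul_le_mul_of_nonneg_right (le_max_right _ _) (by linarith)
    rw [hp]
    linarith
  have hcr2 : (m : ℝ) ^ (7 / 8 + Ca1 * (ep + e1) + δ) ≤ (m : ℝ) ^ p * Real.exp (1 / 2 * L) := by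
    have h2 : Real.exp (1 / 2 * L) = (m : ℝ) ^ (1 / 2 : ℝ) := by
      rw [Real.rpow_def_of_pos hmpos, ← hL, mul_comm]
    rw [h2, ← Real.rpow_add hmpos]
    refine Real.rpow_le_rpow_of_exponent_le hmR ?_
    have : Ca1 * (ep + e1) ≤ max Ca1 Ca2 * (ep + e1) :=
      mul_le_mul_of_nonneg_right (le_max_left _ _) (by linarith)
    rw [hp]
    linarith
  have hB0' : 0 ≤ w * (prefC m g E x (max Cst1 Cst2) * (m : ℝ) ^ p) :=
    mul_nonneg hw (mul_nonneg hpre0 hmp)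
  have hmerge := PBZ.merge_stat (L := L) (d := d) (A := A0) (D := D)
    (B := w * (prefC m g E x (max Cst1 Cst2) * (m : ℝ) ^ p)) (X := Xc + G)
    (exc := excS (TW ep e1 m) O)
    (y := ν - N) (b' := b') (r := r) (near := ∀ i, |(g i).τ| ≤ Real.log m ^ 2)
    (hts := ∀ i, |ht (O i)| ≤ Real.log m ^ 2)
    (Z := ENNReal.ofReal w * gasIC B P (dsp η) (dsp1 η η1) O (nA6 (N + aX) O true)
      (nA6 (N + aY) O false) fun _ => 1)
    (Zs := gasIC B P (dsp η) (dsp1 η η1) O (nA6 (N + aX) O true) (nA6 (N + aY) O false) Ψ)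
    (F := F) hA0 hL30 hd0 hLd hD hB0'
    (NUO.excS_nonneg _ _) hb' hF1 (fun hn => by
      rw [hF, if_neg hn, ← hL])
    (by
      refine (gasIC_le_const B P _ _ O _ _ ENNReal.ofReal_ne_top hpoly).trans (le_of_eq ?_)
      rw [ENNReal.ofReal_mul hw, ← hL]
      ring)
    (fun b'' hb'' => by
      have h := hC m hm1 n η η1 cr Bc Bc' Hp Hp' B g (hEnv.mono (by linarith)) aX aY ν N b'' r O E x
        (by linarith) hR
      have h0 : ENNReal.ofReal (Real.exp (b'' * (ν - N))) * (ENNReal.ofReal w *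
          gasIC B P (dsp η) (dsp1 η η1) O (nA6 (N + aX) O true) (nA6 (N + aY) O false) fun _ => 1) =
          ENNReal.ofReal w * lhsC B P m η η1 aX aY ν N b'' O (fun _ => 1) := by
        unfold lhsC
        ring
      rw [h0]
      refine (mul_le_mul_right h _).trans ?_
      rw [← ENNReal.ofReal_mul hw]
      refine ENNReal.ofReal_le_ofReal ?_
      have h3 : confEC P (en S) m η (TW ep e1 m) K1 kap O ≤ Xc := by
        rw [hXc]
        exact confEC_mono (le_max_left _ _) O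
      rw [mul_assoc w]
      refine mul_le_mul_of_nonneg_left ?_ hw
      calc prefC m g E x Cst1 * (m : ℝ) ^ (7 / 8 + Ca1 * (ep + e1) + δ) *
            Real.exp (confEC P (en S) m η (TW ep e1 m) K1 kap O - 1 / 10 * excS (TW ep e1 m) O +
              linC η η1 m g (T1H ep e1 m O E) Hp +
              enHC P m g O (T1H ep e1 m O E) (nA6 (N + aX) O true) (nA6 (N + aY) O false))
          ≤ prefC m g E x (max Cst1 Cst2) * ((m : ℝ) ^ p * Real.exp (1 / 2 * L)) *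
            Real.exp (Xc + G - 1 / 10 * excS (TW ep e1 m) O) := by
            refine mul_le_mul (mul_le_mul (prefC_mono (le_max_left _ _)) hcr2
              (Real.rpow_nonneg hmpos.le _) hpre0)
              (Real.exp_le_exp.2 (by rw [hG]; linarith)) (Real.exp_pos _).le ?_
            exact mul_nonneg hpre0 (mul_nonneg hmp (Real.exp_pos _).le)
        _ = prefC m g E x (max Cst1 Cst2) * (m : ℝ) ^ p *
            Real.exp (1 / 2 * L + (Xc + G) - 1 / 10 * excS (TW ep e1 m) O) := by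
            rw [show 1 / 2 * L + (Xc + G) - 1 / 10 * excS (TW ep e1 m) O = 1 / 2 * L +
              (Xc + G - 1 / 10 * excS (TW ep e1 m) O) by ring, Real.exp_add (1 / 2 * L)]
            ring)
    (fun hn hrL hy hh => by
      obtain ⟨A, hst⟩ := hstat hn (by rw [← hL]; exact hy) (by rw [← hL]; exact hrL) hh
      have h := hS m hm2 n η η1 cr Bc Bc' Hp Hp' B g (hEnv.mono hdd2) aX aY ν N b' r O E x
        (by linarith) hR hn (by rw [← hL]; exact hrL) hh Ψ A (w * D) hst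
      refine h.trans ?_
      have hwD : 0 ≤ w * D := mul_nonneg hw (by linarith)
      rw [← ENNReal.ofReal_mul' hwD]
      refine ENNReal.ofReal_le_ofReal ?_
      have h3 : confEC P (en S) m η (TW ep e1 m) K2 kap O ≤ Xc := by
        rw [hXc]
        exact confEC_mono (le_max_right _ _) O
      have h4 : prefC m g E x Cst2 * (m : ℝ) ^ (3 / 8 + Ca2 * (ep + e1) + δ) *
          Real.exp (confEC P (en S) m η (TW ep e1 m) K2 kap O + linC η η1 m g (T1H ep e1 m O E) Hp +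
            enHC P m g O (T1H ep e1 m O E) (nA6 (N + aX) O true) (nA6 (N + aY) O false)) ≤
          prefC m g E x (max Cst1 Cst2) * (m : ℝ) ^ p * Real.exp (Xc + G) :=
        mul_le_mul (mul_le_mul (prefC_mono (le_max_right _ _)) hsh2
          (Real.rpow_nonneg hmpos.le _) hpre0)
          (Real.exp_le_exp.2 (by rw [hG]; linarith)) (Real.exp_pos _).le (mul_nonneg hpre0 hmp)
      refine (mul_le_mul_of_nonneg_right h4 hwD).trans (le_of_eq ?_)
      ring)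
    (fun hh => by
      push Not at hh
      obtain ⟨i, hi⟩ := hh
      have h1 := NUO.excS_ge (TW ep e1 m) O i
      rw [← hL] at hi
      linarith)
  unfold lhsC
  refine hmerge.trans (ENNReal.ofReal_le_ofReal (le_of_eq ?_))
  rw [show max K1 K2 + 1 / 2 + A0 = max K1 K2 + (A0 + 1 / 2) by ring, confEC_add, ← hXc, ← hF, ← hp,
    prefC_mul]
  rw [show Xc + (A0 + 1 / 2) * (r : ℝ) + linC η η1 m g (T1H ep e1 m O E) Hp +
    enHC P m g O (T1H ep e1 m O E) (nA6 (N + aX) O true) (nA6 (N + aY) O false) =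
    Xc + G + (A0 + 1 / 2) * (r : ℝ) by rw [hG]; ring]
  ring


/-- **`S4C` from `S4MC`** -/
theorem s4C_of {SB : SeaCB} {P : Par6} {en : EnC} (h : S4MC SB P en) : S4C SB P en := by
  intro B0 N0 hB0 hN0
  obtain ⟨K, Ca, hK, hCa, h⟩ := h B0 N0 hB0 hN0
  refine ⟨K, Ca, hK, hCa, ?_⟩
  intro kap hkap ep hep hep' e1 he1 he1' Cc C0 hCc hC0 δ hδ
  obtain ⟨d, Cst, Cg, hd, hCst, hCg, m0, h⟩ := h 0 le_rfl kap hkap ep hep hep' e1 he1 he1' Cc C0 hCc hC0 δ hδ
  obtain ⟨m1, hm1⟩ := NUO.log_large 1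
  refine ⟨d, Cst * 2, hd, by positivity, max m0 m1, ?_⟩
  intro S _ m hm n η η1 cr Bc Bc' Hp Hp' B g hEnv aX aY ν N b' r O E x hb' hR
  have hL : 1 ≤ Real.log m := hm1 m ((le_max_right _ _).trans hm)
  have key := h m ((le_max_left _ _).trans hm) n η η1 cr Bc Bc' Hp Hp' B g hEnv aX aY ν N b' r O E x hb' hR
    (fun _ => 1) 1 2 zero_le_one (by norm_num) (fun _ => by
      rw [zero_mul, Real.exp_zero, mul_one, ENNReal.ofReal_one])
    (fun _ _ _ _ => ⟨1, by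
      rw [one_mul]
      exact PBZ.PLX.StatOK.one (by positivity)⟩)
  refine key.trans (ENNReal.ofReal_le_ofReal (le_of_eq ?_))
  rw [prefC_mul, show (0 + 1 / 2 : ℝ) * Real.log m = Real.log m / 2 by ring, add_zero]
  ring

end PLT

end
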