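import Pool.Agent.PLT.SW
import Pool.Agent.PLT.UPropsC
import Pool.Agent.PHK.TRsB6
import Pool.Agent.PHK.TRsD3
import Pool.Agent.PHK.ConfM

/-!
# (S-TR): the two ends of the `s`-path, any rows, any curves

* `PI_of`: integrability at the left end from a finite mass `FSC` of a family whose curve is `dF η`;
* `pathD`: data of the path for the half quanta `wt`;
* **`nF_sum`**: the normalised functional as the sum over the numbers of quanta; **`nF_zero`**: `= fQ q x z` at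
  `s = 0` (class formula `FFth`); **`nF_one`**: the class W W of the regular function at `s = 1`.
-/

set_option autoImplicit false
set_option linter.unusedSectionVars false
set_option linter.unusedVariables false

noncomputable section

open Complex MeasureTheory Set Filter Topology
open scoped ENNReal
open PLX (Fil)

namespace PLT.SW

open NUP1S (O3)
open NUO (Xo)
open NUCR (CurB)
open PBFunc (WI F)
open PHK (FF6 FFN6 FAN6 wN6 mN6 evN6 CfN6 Par6 GoodP6 MC6 ZQ6 Nq par6)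
open PBF.PLX (expZ expN nF6 PathD6 Crs dN MCr)
open PBR.PLX (RZW)
open Pool.Agent.PB (Pf)
open Pool.Agent.PLX (RU rwq yq fQ FFth PhI6 GF6 HI6)
open PBX (Rws)
open PBT3 (wt zt zz)
open PBTs.PLX (DT)

variable [Fil]

/-! ### integrability at the left end -/

/-- **integrability at the left end** from a finite mass -/
theorem PI_of {ι : Type} {F : FamC ι} {P : Par6} {ep e1 J : ℝ} {m : ℕ} {i : ι} {η η' : ℝ → ℝ}
    (hD : F.D e1 J m i = dF η) (hD1 : F.D1 e1 J m i = dF η')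
    (hZ : ∀ s k, Measurable (F.Z ep m i s k)) (hc : MCr (fun _ _ => η) (fun _ _ => η'))
    (h : FSC F P ep e1 J m i (fun _ => 1) (fun _ _ _ _ _ => 1) < ∞) :
    WI (mN6 (F.top m)) (wN6 (fun _ => F.Z ep m i) (fun _ => P) (F.top m) (fun _ _ _ => η)
      (fun _ _ _ => η') (fun _ => F.Pf m i)) (fun _ => 1) := by
  have hMC : ∀ n ≤ F.top m, MC6 (F.Z ep m i) P (fun _ _ => η) (fun _ _ => η') :=
    fun n _ => MC6.of hZ hc
  have hΨ : ∀ j ≤ F.top m, PBF.PLX.MIn ((fun _ _ _ _ _ _ => (1 : ℂ) : ℕ → PBF.PLX.Ins) j) :=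
    fun j _ r a b => measurable_const
  refine PHK.WIN_of6 (Ψ := fun _ _ _ _ _ _ => (1 : ℂ)) hMC hΨ ?_
  refine lt_of_le_of_lt (le_of_eq ?_) h
  unfold FAN6 FSC
  refine Finset.sum_congr rfl fun n _ => ?_
  have e1' : F.cr e1 J m i = fun _ _ => dF η := by
    funext r O
    exact hD
  have e2' : F.cr' e1 J m i = fun _ _ => dF η' := by
    funext r O
    exact hD1
  rw [e1', e2', one_mul]
  congr 1
  rw [← FAC_dF]
  unfold FAC FEC
  refine Finset.sum_congr rfl fun r _ => ?_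
  congr 1
  refine lintegral_congr fun O => ?_
  unfold trAC trEC
  simp only [enorm_one]

/-! ### the data of the path -/

/-- **the data of the path** at the half quanta `wt` -/
theorem pathD : ∃ C : ℝ, 0 ≤ C ∧ ∀ (P : Par6), GoodP6 P → ∀ (τ : ℝ × ℝ) (Z : Bool → Option O3 → ℂ → ℂ),
    (∀ s k, Measurable (Z s k)) → ∀ (η η' : ℝ → ℝ), MCr (fun _ _ => η) (fun _ _ => η') →
    (∀ t, |η t| ≤ NUP1.l / 5) → ∀ N : ℕ,
    PathD6 (fun _ => Z) (fun _ => DT (wt τ.1) (wt τ.2)) (fun _ => P) N (fun _ _ _ => η)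
      (fun _ _ _ => η') (C * (1 + max |τ.1| |τ.2|)) := by
  obtain ⟨C, hC, H⟩ := PBTs.PLX.DT_PathD6
  refine ⟨C, hC, fun P hP τ Z hZ η η' hc hb N => ?_⟩
  refine H (wt τ.1) (wt τ.2) _ (PBT3.wt_re _) (PBT3.wt_re _) ?_ ?_ _ _ _ _ _ (fun n _ => hZ)
    (fun n _ => hP) (fun n _ => hc) fun n _ r O => hb
  · rw [PBT3.wt_im]
    exact le_max_left _ _
  · rw [PBT3.wt_im]
    exact le_max_right _ _

/-! ### the ends -/

section ends

variable {P : Par6} {Z D : Bool → Option O3 → ℂ → ℂ} {N : ℕ} {η η' : Crs} {Pz κ : ℂ} {B : ℝ}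

/-- the functional on the path as the sum over the numbers of quanta -/
theorem nF_sum (h : PathD6 (fun _ => Z) (fun _ => D) (fun _ => P) N (fun _ => η) (fun _ => η') B)
    (hI : WI (mN6 N) (wN6 (fun _ => Z) (fun _ => P) N (fun _ => η) (fun _ => η') (fun _ => Pz))
      (fun _ => 1)) (s : ℝ) :
    nF6 (fun _ => Z) (fun _ => D) (fun _ => P) N (fun _ => η) (fun _ => η') (fun _ => Pz) 1 κ s =
      Complex.exp (-(s * κ)) * (Pz * ∑ n ∈ Finset.range (N + 1),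
        FF6 (expZ Z D s) P n (n + dN N) η η' (fun _ _ _ _ _ => 1)) := by
  have hm := PathD6.mc h (s : ℂ)
  have hW := PathD6.wi h hI (s : ℂ)
  have hΨ : ∀ n ≤ N, PBF.PLX.MIn ((fun _ _ _ _ _ _ => (1 : ℂ) : ℕ → PBF.PLX.Ins) n) :=
    fun n _ r a b => measurable_const
  have h4 : (evN6 (fun _ _ _ _ _ _ => (1 : ℂ)) : CfN6 N → ℂ) = fun _ => 1 := rfl
  have hf : FAN6 (expN (fun _ => Z) (fun _ => D) s) (fun _ => P) N (fun _ => η) (fun _ => η')
      (fun _ => Pz) (fun _ _ _ _ _ _ => 1) < ⊤ := by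
    rw [PHK.FAN6_eq hm hΨ, h4]
    have h2 := hW.2
    unfold HasFiniteIntegral at h2
    simpa only [enorm_mul] using h2
  have h3 := PHK.FFN6_eq hm hΨ hf
  rw [h4] at h3
  unfold nF6
  rw [one_mul, ← h3]
  unfold FFN6
  rw [← Finset.mul_sum]
  rfl

/-- **left end**: the dislocated function of the rows `x` -/
theorem nF_zero (hFF : FFth) {m : ℕ} {x : Fin m → ℂ} {ex : Bool → List ℂ} {g0 : Bool → ℂ → ℂ} {β ep : ℝ}
    {z : ℂ} (hP : GoodP6 P) (hIP : HI6 P) (hep0 : 0 < ep) (hep : ep ≤ 1 / 100) (hβ : 0 < β)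
    (hβ' : β ≤ 4 / 3) (hx : Rws x) (hex : ∀ a, ∀ w ∈ ex a, |w.re| ≤ NUP1.l / 2)
    (hg0 : ∀ a, GF6 (rwq x a) (g0 a)) (hφ : PhI6 (N := Nq m) β (rwq x) ex)
    (h1 : -(9 / 10 * NUP1.l) ≤ z.re) (h2 : z.re ≤ 31 / 10 * NUP1.l)
    (hη : ∀ (r : ℕ) (O : Fin r → Xo), CurB ep (η r O) (η' r O))
    (h : PathD6 (fun _ => ZQ6 (fun a => NUP1.Leg.cc (Nq m a)) g0 β x ex z) (fun _ => D) (fun _ => P)
      (2 * m) (fun _ => η) (fun _ => η') B)
    (hI : WI (mN6 (2 * m)) (wN6 (fun _ => ZQ6 (fun a => NUP1.Leg.cc (Nq m a)) g0 β x ex z) (fun _ => P)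
      (2 * m) (fun _ => η) (fun _ => η') (fun _ => Pf z x (yq x))) (fun _ => 1)) :
    nF6 (fun _ => ZQ6 (fun a => NUP1.Leg.cc (Nq m a)) g0 β x ex z) (fun _ => D) (fun _ => P) (2 * m)
      (fun _ => η) (fun _ => η') (fun _ => Pf z x (yq x)) 1 κ 0 = fQ Fil.q x z := by
  rw [nF_sum h hI 0, ofReal_zero, PBF.PLX.expZ_zero, zero_mul, neg_zero, Complex.exp_zero, one_mul,
    PBF.PLX.dN_two]
  exact (PHK.fN_FF6 hFF hP hIP hep0 hep hβ hβ' hx hex hg0 hφ h1 h2 (η := fun _ => η) (η' := fun _ => η')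
    fun n _ r _ => Filter.Eventually.of_forall fun O => hη r O).symm

/-- **right end**: the class W W of the regular function -/
theorem nF_one {m M e : ℕ} {R : RU m M} (hp : R.p = 0) (hq : R.q = 0) {τ : ℝ × ℝ}
    (hZ : Z = ZLD R (zt τ)) (hP : GoodP6 P) (he : dN N = e) (hη : ∀ (r : ℕ) (O : Fin r → Xo) t, |η r O t| ≤ NUP1.l / 5)
    (h : PathD6 (fun _ => Z) (fun _ => DT (wt τ.1) (wt τ.2)) (fun _ => P) N (fun _ => η) (fun _ => η') B)
    (hI : WI (mN6 N) (wN6 (fun _ => Z) (fun _ => P) N (fun _ => η) (fun _ => η') (fun _ => Pz))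
      (fun _ => 1)) :
    nF6 (fun _ => Z) (fun _ => DT (wt τ.1) (wt τ.2)) (fun _ => P) N (fun _ => η) (fun _ => η')
      (fun _ => Pz) 1 κ 1 = Complex.exp (-κ) * (Pz * ((-1) ^ e * ∑ n ∈ Finset.range (N + 1),
        FF6 (RZW R (wt τ.1) (wt τ.2)) P n (n + e) η η' (fun _ _ _ _ _ => 1))) := by
  subst hZ he
  rw [nF_sum h hI 1, ofReal_one, one_mul]
  have h3 := sum_RZW (D := R) (PBT3.wt_re τ.1) (PBT3.wt_re τ.2) hP hp hq (dN N) N (fun _ => η) (fun _ => η')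
    (fun n _ r O t => hη r O t) (fun _ _ _ _ _ _ => (1 : ℂ))
  rw [h3, ← mul_assoc ((-1 : ℂ) ^ _), ← mul_pow, neg_one_mul, neg_neg, one_pow, one_mul]
  rfl

end ends

end PLT.SW

end
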