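import Pool.Agent.PLT.Sfin
import Pool.Agent.PLT.LinC
import Pool.Agent.PLT.ObS
import Pool.Agent.PLT.MfoC

/-!
# The constant of the action on the static curve, constituents with coefficients

Twin of `PHK/SEval6`: `F_a = ∑ k c * gq (sp c) (j c) (τ c) a + Ψ_a` in the strip `lo ≤ Im z ≤ hi`, `k c` real,
offsets `OffS δ lo hi (j c)`.  `part_lineC`: the potentials on the static curve; `part_pathC`: on the displaced
curves; **`main6C`**.
-/

set_option autoImplicit false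
set_option linter.unusedSectionVars false

open MeasureTheory Set Filter Topology Complex

namespace PLT.Cv

open NUMF (l l_pos V w g lq lqg)
open NUAct (Gas)
open NUSea.PLX (Com)

noncomputable section

/-- integrability on the path -/
lemma int_BF (B : SeaCB) [SeaC] [SeaCU B] {s lo hi c C : ℝ} {F : ℂ → ℂ} {η η1 : ℝ → ℝ} (S : Str B lo hi)
    (P1 : SPath lo hi c C (zt (gD η)) (zd (gD1 η η1))) (hF : SExt lo hi F) :
    Integrable fun t => Bf s (gD η) (gD1 η η1) t * F (zt (gD η) t) := by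
  obtain ⟨i1, -⟩ := cv_gen B s S P1 hF
  refine (i1.sub (int_rFh B s P1 hF)).congr (Eventually.of_forall fun t => ?_)
  simp only [Pi.sub_apply]
  unfold Bf
  ring

/-- the cloud of a constituent -/
lemma gq_lineC (B : SeaCB) [SeaC] [SeaCU B] {lo hi δ j : ℝ} (S : Str B lo hi) (hδ : 0 < δ)
    (hj : OffS δ lo hi j) (x a : Bool) (τ s : ℝ)
    (hi' : Integrable fun t : ℝ => ((s * P t : ℝ) : ℂ) * gq x j τ a (ga t)) :
    (∫ t : ℝ, ((s * P t : ℝ) : ℂ) * gq x j τ a (ga t)).re = s * if a = x then clP j τ else clX j τ := by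
  have hl := l_pos
  have e1 : (∫ t : ℝ, ((s * P t : ℝ) : ℂ) * gq x j τ a (ga t)).re =
      ∫ t : ℝ, (((s * P t : ℝ) : ℂ) * gq x j τ a (ga t)).re :=
    (Complex.reCLM.integral_comp_comm hi').symm
  have key : ∀ t, (gq x j τ a (ga t)).re =
      if a = x then lq (j - eta t / l) (τ - t) else lqg (j - eta t / l) (τ - t) := by
    intro t
    have G := (ga_spath B S)
    obtain ⟨C0, G⟩ := G
    have h := gqS_re (x := x) (τ := τ) (a := a) hj hδ (by have := S.h2; have := B.d0; linarith) (by have := S.h3; have := B.top0; linarith)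
      (G.im_ge t) (G.im_le t)
    rw [h, ga_im, ga_re]
  rw [e1]
  simp_rw [Complex.re_ofReal_mul, key]
  by_cases h : a = x
  · simp only [if_pos h]
    unfold clP
    rw [← integral_const_mul]
    exact integral_congr_ae (Eventually.of_forall fun t => by simp only; ring)
  · simp only [if_neg h]
    unfold clX
    rw [← integral_const_mul]
    exact integral_congr_ae (Eventually.of_forall fun t => by simp only; ring)

lemma clo_sumC [SeaC] (s : Bool → ℝ) (x : Bool) (j τ : ℝ) :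
    (∑ a, s a * if a = x then clP j τ else clX j τ) = clo s x j τ := by
  unfold clo
  cases x <;> simp [Fintype.sum_bool] <;> ring

section

variable {ι : Type} [Fintype ι] {k : ι → ℝ} {sp : ι → Bool} {j τ : ι → ℝ} {Fe Ψ : Bool → ℂ → ℂ} {δ lo hi : ℝ}
  {s : Bool → ℝ}

/-- **the potentials on the static curve** -/
theorem part_lineC (B : SeaCB) [SeaC] [SeaCU B] (S : Str B lo hi) (hδ : 0 < δ) (hδ1 : δ ≤ 1)
    (hj : ∀ c, OffS δ lo hi (j c)) (hF : ∀ a, SExt lo hi (Fe a))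
    (hsum : ∀ (a : Bool) (z : ℂ), lo ≤ z.im → z.im ≤ hi → Fe a z =
      ∑ c, (k c : ℂ) * gq (sp c) (j c) (τ c) a z + Ψ a z) :
    (∑ a, ∫ t : ℝ, ((s a * P t : ℝ) : ℂ) * Fe a (ga t)).re =
      (∑ c, k c * clo s (sp c) (j c) (τ c)) +
        ∫ t : ℝ, P t * (s true * (Ψ true (ga t)).re + s false * (Ψ false (ga t)).re) := by
  have hl := l_pos
  have hh0 : lo ≤ 0 := by have := S.h2; have := B.d0; linarith
  have hh1 : 0 ≤ hi := by have := S.h3; have := B.top0; linarith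
  obtain ⟨C0, G⟩ := ga_spath B S
  have i1 : ∀ a, Integrable fun t : ℝ => ((s a * P t : ℝ) : ℂ) * Fe a (ga t) := fun a =>
    int_rF B (s a) S (hF a)
  have i0 : ∀ a c, Integrable fun t : ℝ => ((s a * P t : ℝ) : ℂ) * gq (sp c) (j c) (τ c) a (ga t) :=
    fun a c => int_rF B (s a) S (gqS_ext (hj c) hδ hh0 hh1 hδ1)
  have i2 : ∀ a c, Integrable fun t : ℝ => (k c : ℂ) * (((s a * P t : ℝ) : ℂ) *
      gq (sp c) (j c) (τ c) a (ga t)) := fun a c => (i0 a c).const_mul _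
  have i3 : ∀ a, Integrable fun t : ℝ => ∑ c, (k c : ℂ) * (((s a * P t : ℝ) : ℂ) *
      gq (sp c) (j c) (τ c) a (ga t)) := fun a => integrable_finsetSum _ fun c _ => i2 a c
  have e1 : ∀ a (t : ℝ), ((s a * P t : ℝ) : ℂ) * Fe a (ga t) =
      (∑ c, (k c : ℂ) * (((s a * P t : ℝ) : ℂ) * gq (sp c) (j c) (τ c) a (ga t))) +
        ((s a * P t : ℝ) : ℂ) * Ψ a (ga t) := by
    intro a t
    rw [hsum a _ (G.im_ge t) (G.im_le t), mul_add, Finset.mul_sum]
    congr 1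
    exact Finset.sum_congr rfl fun c _ => by ring
  have i4 : ∀ a, Integrable fun t : ℝ => ((s a * P t : ℝ) : ℂ) * Ψ a (ga t) := by
    intro a
    refine ((i1 a).sub (i3 a)).congr (Eventually.of_forall fun t => ?_)
    simp only [Pi.sub_apply]
    rw [e1]
    ring
  have e2 : ∀ a, (∫ t : ℝ, ((s a * P t : ℝ) : ℂ) * Fe a (ga t)).re =
      (∑ c, k c * (s a * if a = sp c then clP (j c) (τ c) else clX (j c) (τ c))) +
        ∫ t : ℝ, s a * P t * (Ψ a (ga t)).re := by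
    intro a
    have h1 : (∫ t : ℝ, ((s a * P t : ℝ) : ℂ) * Fe a (ga t)) =
        (∑ c, ∫ t : ℝ, (k c : ℂ) * (((s a * P t : ℝ) : ℂ) * gq (sp c) (j c) (τ c) a (ga t))) +
          ∫ t : ℝ, ((s a * P t : ℝ) : ℂ) * Ψ a (ga t) := by
      rw [← integral_finsetSum _ fun c _ => i2 a c, ← integral_add (i3 a) (i4 a)]
      exact integral_congr_ae (Eventually.of_forall (e1 a))
    rw [h1, Complex.add_re, Complex.re_sum]
    congr 1
    · refine Finset.sum_congr rfl fun c _ => ?_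
      rw [integral_const_mul, Complex.re_ofReal_mul, gq_lineC B S hδ (hj c) (sp c) a (τ c) (s a) (i0 a c)]
    · have h2 : (∫ t : ℝ, ((s a * P t : ℝ) : ℂ) * Ψ a (ga t)).re =
          ∫ t : ℝ, (((s a * P t : ℝ) : ℂ) * Ψ a (ga t)).re :=
        (Complex.reCLM.integral_comp_comm (i4 a)).symm
      rw [h2]
      simp_rw [Complex.re_ofReal_mul]
  have i5 : ∀ a, Integrable fun t : ℝ => s a * P t * (Ψ a (ga t)).re := by
    intro a
    refine (i4 a).re.congr (Eventually.of_forall fun t => ?_)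
    simp only [RCLike.re_to_complex, Complex.re_ofReal_mul]
  have e3 : (∫ t : ℝ, P t * (s true * (Ψ true (ga t)).re + s false * (Ψ false (ga t)).re)) =
      ∑ a, ∫ t : ℝ, s a * P t * (Ψ a (ga t)).re := by
    rw [Fintype.sum_bool, ← integral_add (i5 true) (i5 false)]
    exact integral_congr_ae (Eventually.of_forall fun t => by simp only; ring)
  rw [Complex.re_sum]
  simp_rw [e2]
  rw [Finset.sum_add_distrib, Finset.sum_comm, e3]
  congr 1
  refine Finset.sum_congr rfl fun c _ => ?_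
  rw [← Finset.mul_sum, clo_sumC s (sp c) (j c) (τ c)]

/-- **the potentials on the paths** -/
theorem part_pathC (B : SeaCB) [SeaC] [SeaCU B] {c' C : ℝ} {η η1 : Bool → ℝ → ℝ} (S : Str B lo hi) (hδ : 0 < δ)
    (hδ1 : δ ≤ 1) (hj : ∀ c, OffS δ lo hi (j c))
    (P1 : ∀ a, SPath lo hi c' C (zt (gD (η a))) (zd (gD1 (η a) (η1 a)))) (hF : ∀ a, SExt lo hi (Fe a))
    (hsum : ∀ (a : Bool) (z : ℂ), lo ≤ z.im → z.im ≤ hi → Fe a z =
      ∑ c, (k c : ℂ) * gq (sp c) (j c) (τ c) a z + Ψ a z) :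
    (∑ a, ∫ t, Bf (s a) (gD (η a)) (gD1 (η a) (η1 a)) t * Fe a (zt (gD (η a)) t)).re =
      (∑ c, k c * (∑ a, (∫ t, Bf (s a) (gD (η a)) (gD1 (η a) (η1 a)) t *
        gq (sp c) (j c) (τ c) a (zt (gD (η a)) t))).re) +
      ∑ a, (∫ t, Bf (s a) (gD (η a)) (gD1 (η a) (η1 a)) t * Ψ a (zt (gD (η a)) t)).re := by
  have hl := l_pos
  have hh0 : lo ≤ 0 := by have := S.h2; have := B.d0; linarith
  have hh1 : 0 ≤ hi := by have := S.h3; have := B.top0; linarith
  have i1 : ∀ a, Integrable fun t : ℝ => Bf (s a) (gD (η a)) (gD1 (η a) (η1 a)) t *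
      Fe a (zt (gD (η a)) t) := fun a => int_BF B S (P1 a) (hF a)
  have i0 : ∀ a c, Integrable fun t : ℝ => Bf (s a) (gD (η a)) (gD1 (η a) (η1 a)) t *
      gq (sp c) (j c) (τ c) a (zt (gD (η a)) t) :=
    fun a c => int_BF B S (P1 a) (gqS_ext (hj c) hδ hh0 hh1 hδ1)
  have i2 : ∀ a c, Integrable fun t : ℝ => (k c : ℂ) * (Bf (s a) (gD (η a)) (gD1 (η a) (η1 a)) t *
      gq (sp c) (j c) (τ c) a (zt (gD (η a)) t)) := fun a c => (i0 a c).const_mul _
  have i3 : ∀ a, Integrable fun t : ℝ => ∑ c, (k c : ℂ) * (Bf (s a) (gD (η a)) (gD1 (η a) (η1 a)) t *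
      gq (sp c) (j c) (τ c) a (zt (gD (η a)) t)) :=
    fun a => integrable_finsetSum _ fun c _ => i2 a c
  have e1 : ∀ a (t : ℝ), Bf (s a) (gD (η a)) (gD1 (η a) (η1 a)) t * Fe a (zt (gD (η a)) t) =
      (∑ c, (k c : ℂ) * (Bf (s a) (gD (η a)) (gD1 (η a) (η1 a)) t *
        gq (sp c) (j c) (τ c) a (zt (gD (η a)) t))) +
        Bf (s a) (gD (η a)) (gD1 (η a) (η1 a)) t * Ψ a (zt (gD (η a)) t) := by
    intro a t
    rw [hsum a _ ((P1 a).im_ge t) ((P1 a).im_le t), mul_add, Finset.mul_sum]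
    congr 1
    exact Finset.sum_congr rfl fun c _ => by ring
  have i4 : ∀ a, Integrable fun t : ℝ => Bf (s a) (gD (η a)) (gD1 (η a) (η1 a)) t *
      Ψ a (zt (gD (η a)) t) := by
    intro a
    refine ((i1 a).sub (i3 a)).congr (Eventually.of_forall fun t => ?_)
    simp only [Pi.sub_apply]
    rw [e1]
    ring
  have e2 : ∀ a, (∫ t, Bf (s a) (gD (η a)) (gD1 (η a) (η1 a)) t * Fe a (zt (gD (η a)) t)).re =
      (∑ c, k c * (∫ t, Bf (s a) (gD (η a)) (gD1 (η a) (η1 a)) t *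
        gq (sp c) (j c) (τ c) a (zt (gD (η a)) t)).re) +
      (∫ t, Bf (s a) (gD (η a)) (gD1 (η a) (η1 a)) t * Ψ a (zt (gD (η a)) t)).re := by
    intro a
    have h1 : (∫ t, Bf (s a) (gD (η a)) (gD1 (η a) (η1 a)) t * Fe a (zt (gD (η a)) t)) =
        (∑ c, ∫ t, (k c : ℂ) * (Bf (s a) (gD (η a)) (gD1 (η a) (η1 a)) t *
          gq (sp c) (j c) (τ c) a (zt (gD (η a)) t))) +
          ∫ t, Bf (s a) (gD (η a)) (gD1 (η a) (η1 a)) t * Ψ a (zt (gD (η a)) t) := by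
      rw [← integral_finsetSum _ fun c _ => i2 a c, ← integral_add (i3 a) (i4 a)]
      exact integral_congr_ae (Eventually.of_forall (e1 a))
    rw [h1, Complex.add_re, Complex.re_sum]
    congr 1
    refine Finset.sum_congr rfl fun c _ => ?_
    rw [integral_const_mul, Complex.re_ofReal_mul]
  rw [Complex.re_sum]
  simp_rw [e2]
  rw [Finset.sum_add_distrib, Finset.sum_comm]
  congr 1
  refine Finset.sum_congr rfl fun c _ => ?_
  rw [Complex.re_sum, Finset.mul_sum]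

end

/-- derivative of a Lipschitz function -/
lemma deriv_le_lip {f f' : ℝ → ℝ} {K : ℝ} (hd : ∀ t, HasDerivAt f (f' t) t) (hK : 0 ≤ K)
    (hL : ∀ t t', |f t - f t'| ≤ K * |t - t'|) (t : ℝ) : |f' t| ≤ K := by
  have h := (hd t).le_of_lip' hK (Eventually.of_forall fun x => by
    rw [Real.norm_eq_abs, Real.norm_eq_abs]
    exact hL x t)
  rwa [Real.norm_eq_abs] at h

/-- **one constituent on the two paths** -/
theorem exists_oneC (B : SeaCB) {δ r : ℝ} (hδ : 0 < δ) (hδ1 : δ ≤ 1) (hr : 0 < r) (hr1 : r ≤ 1) :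
    ∃ C : ℝ, 1 ≤ C ∧ ∀ [SeaC] [SeaCU B], ∀ {lo hi : ℝ}, Str B lo hi →
    ∀ {s : Bool → ℝ} {ε M b K R : ℝ} {e : ℝ → ℝ} {η η1 : Bool → ℝ → ℝ} (x : Bool) (j τ t0 : ℝ),
      (∀ a, 0 ≤ s a) → (∀ a, Cur (s a) ε M b e (η a)) → (∀ a t, HasDerivAt (η a) (η1 a t) t) →
      Com M s e η η1 → 0 ≤ b → C * ε ≤ 1 → lo + C * ε + r ≤ -B.d → B.top + C * ε + r ≤ hi → 0 ≤ K →
      (∀ t t', |s true * P t * η true t - s true * P t' * η true t'| ≤ K * |t - t'|) →
      OffS δ lo hi j → |τ - t0| ≤ R →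
      |-(∑ a, ∫ t, Bf (s a) (gD (η a)) (gD1 (η a) (η1 a)) t * gq x j τ a (zt (gD (η a)) t)).re +
        2 * Real.pi * (NUO.wnu j * (s true * P t0 * η true t0))| ≤
        C * (1 + |NUO.wnu j|) * ((b + 1) ^ 2 * (M * ε) + K * (1 + R)) := by
  obtain ⟨C, hC, H⟩ := exists_linSC B
  have hK' := KS_pos hδ hδ1
  have hG' := GS_pos hδ hδ1
  have hpi := Real.pi_pos
  have hCp : 0 < C := by linarith
  refine ⟨C + C * KS δ + C * (Real.pi + KS δ) + C * (GS δ / r) + 2 * Real.pi, by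
    have : 0 ≤ C * KS δ + C * (Real.pi + KS δ) + C * (GS δ / r) + 2 * Real.pi := by positivity
    linarith, @fun _ hS lo hi St s ε M b K R e η η1 x j τ t0 hs hc hη hcom hb hε hlo hhi hK hL hj hR => ?_⟩
  have hl := l_pos
  have hh0 : lo ≤ 0 := by have := St.h2; have := B.d0; linarith
  have hh1 : 0 ≤ hi := by have := St.h3; have := B.top0; linarith
  have hε0 := (hc true).ε0
  have hM := (hc true).M0 B (hs true)
  have hMε := mul_nonneg hM hε0
  have hR0 : 0 ≤ R := (abs_nonneg _).trans hR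
  have q1 : 0 ≤ C * KS δ + C * (Real.pi + KS δ) + C * (GS δ / r) + 2 * Real.pi := by positivity
  have q2 : C * ε ≤ (C + C * KS δ + C * (Real.pi + KS δ) + C * (GS δ / r) + 2 * Real.pi) * ε :=
    mul_le_mul_of_nonneg_right (by linarith) hε0
  have hA : ∀ t, |hd (s true) (η true) (η1 true) t| ≤ K :=
    deriv_le_lip (fun t => hasDerivAt_hd B (s true) (hη true) t) hK hL
  have h1 := (@H _ hS s ε M b e η η1 hs (by linarith) hc hη hcom hb Unit _ lo hi K (GS δ) r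
    (fun _ => KS δ) (fun _ => 0) (fun _ => Real.pi * NUO.wnu j) (fun _ => τ)
    (fun _ z => NUO.fq j (z - τ) + NUO.fg j (z - τ)) (fun a => gq x j τ a) hr hr1 (by linarith) (by linarith)
    (fun _ => gsum_asy hj hδ hδ1 hh0 hh1)
    (fun _ z h1 h2 => by
      have d1 := gqS_diff (x := true) (τ := τ) (a := true) hj hδ hh0 hh1 h1 h2
      have d2 := gqS_diff (x := true) (τ := τ) (a := false) hj hδ hh0 hh1 h1 h2
      have e1 : (fun z : ℂ => NUO.fq j (z - τ) + NUO.fg j (z - τ)) = fun z => gq true j τ true z +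
          gq true j τ false z := by
        funext z
        unfold gq
        simp
      rw [e1]
      exact d1.add d2)
    (fun a z h1 h2 => gqS_diff hj hδ hh0 hh1 h1 h2)
    (fun a z w h1 h2 h3 h4 => gqS_lip hj hδ hh0 hh1 hδ1 h1 h2 h3 h4)
    (fun z h1 h2 => by
      unfold gq
      cases x <;> simp [add_comm]) hA).2
  simp only [Finset.univ_unique, Finset.sum_singleton] at h1
  have h2 := hL τ t0
  have h3 : |s true * P τ * η true τ - s true * P t0 * η true t0| ≤ K * R :=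
    h2.trans (mul_le_mul_of_nonneg_left hR hK)
  obtain ⟨W, hW⟩ : ∃ W : ℝ, W = NUO.wnu j := ⟨_, rfl⟩
  rw [← hW] at h1 ⊢
  have hWn := abs_nonneg W
  obtain ⟨X, hX⟩ : ∃ X : ℝ, X = (∑ a, ∫ t, Bf (s a) (gD (η a)) (gD1 (η a) (η1 a)) t *
      gq x j τ a (zt (gD (η a)) t)).re := ⟨_, rfl⟩
  rw [← hX] at h1 ⊢
  have e1 : -X + 2 * Real.pi * (W * (s true * P t0 * η true t0)) =
      (-X + 2 * (Real.pi * W * (s true * P τ * η true τ))) -
        2 * Real.pi * (W * (s true * P τ * η true τ - s true * P t0 * η true t0)) := by ring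
  rw [e1]
  refine (abs_sub _ _).trans ?_
  have e2 : |2 * Real.pi * (W * (s true * P τ * η true τ - s true * P t0 * η true t0))| ≤
      2 * Real.pi * (|W| * (K * R)) := by
    rw [abs_mul, abs_of_pos (by positivity : 0 < 2 * Real.pi), abs_mul]
    gcongr
  rw [abs_zero, zero_add, abs_mul, abs_of_pos hpi] at h1
  have n1 : (1:ℝ) ≤ (b + 1) ^ 2 := one_le_pow₀ (by linarith)
  have n2 : b + 1 ≤ (b + 1) ^ 2 := by nlinarith
  obtain ⟨E, hE⟩ : ∃ E : ℝ, E = (b + 1) ^ 2 * (M * ε) := ⟨_, rfl⟩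
  have hE0 : 0 ≤ E := by rw [hE]; positivity
  have hKR : 0 ≤ K * (1 + R) := by positivity
  have t1 : C * (KS δ * K) ≤ C * KS δ * (1 + |W|) * (E + K * (1 + R)) := by
    have a1 : K ≤ E + K * (1 + R) := by nlinarith
    calc C * (KS δ * K) = C * KS δ * 1 * K := by ring
      _ ≤ C * KS δ * (1 + |W|) * (E + K * (1 + R)) := by gcongr; linarith
  have t2 : C * (Real.pi * |W| + KS δ) * (b + 1) * (M * ε) ≤
      C * (Real.pi + KS δ) * (1 + |W|) * (E + K * (1 + R)) := by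
    have a1 : (b + 1) * (M * ε) ≤ E + K * (1 + R) := by
      have : (b + 1) * (M * ε) ≤ E := by
        rw [hE]
        exact mul_le_mul_of_nonneg_right n2 hMε
      linarith
    have a2 : Real.pi * |W| + KS δ ≤ (Real.pi + KS δ) * (1 + |W|) := by nlinarith [mul_nonneg hK'.le hWn]
    calc C * (Real.pi * |W| + KS δ) * (b + 1) * (M * ε) =
          C * (Real.pi * |W| + KS δ) * ((b + 1) * (M * ε)) := by ring
      _ ≤ C * ((Real.pi + KS δ) * (1 + |W|)) * (E + K * (1 + R)) := by gcongr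
      _ = _ := by ring
  have t3 : C * (b + 1) ^ 2 * (GS δ / r) * (M * ε) ≤ C * (GS δ / r) * (1 + |W|) * (E + K * (1 + R)) := by
    have a1 : E ≤ E + K * (1 + R) := by linarith
    calc C * (b + 1) ^ 2 * (GS δ / r) * (M * ε) = C * (GS δ / r) * 1 * E := by rw [hE]; ring
      _ ≤ C * (GS δ / r) * (1 + |W|) * (E + K * (1 + R)) := by gcongr; linarith
  have t4 : 2 * Real.pi * (|W| * (K * R)) ≤ 2 * Real.pi * (1 + |W|) * (E + K * (1 + R)) := by
    have a1 : K * R ≤ E + K * (1 + R) := by nlinarith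
    calc 2 * Real.pi * (|W| * (K * R)) = 2 * Real.pi * |W| * (K * R) := by ring
      _ ≤ 2 * Real.pi * (1 + |W|) * (E + K * (1 + R)) := by gcongr; linarith
  have t5 : 0 ≤ C * (1 + |W|) * (E + K * (1 + R)) := by positivity
  rw [← hE]
  calc _ ≤ (C * (KS δ * K) + C * (Real.pi * |W| + KS δ) * (b + 1) * (M * ε) +
        C * (b + 1) ^ 2 * (GS δ / r) * (M * ε)) + 2 * Real.pi * (|W| * (K * R)) := add_le_add h1 e2
    _ ≤ (C * KS δ * (1 + |W|) * (E + K * (1 + R)) + C * (Real.pi + KS δ) * (1 + |W|) * (E + K * (1 + R)) +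
        C * (GS δ / r) * (1 + |W|) * (E + K * (1 + R))) + 2 * Real.pi * (1 + |W|) * (E + K * (1 + R)) := by
        linarith
    _ ≤ C * (1 + |W|) * (E + K * (1 + R)) + ((C * KS δ * (1 + |W|) * (E + K * (1 + R)) +
        C * (Real.pi + KS δ) * (1 + |W|) * (E + K * (1 + R)) +
        C * (GS δ / r) * (1 + |W|) * (E + K * (1 + R))) + 2 * Real.pi * (1 + |W|) * (E + K * (1 + R))) := by
        linarith
    _ = _ := by ring

/-- **the constant of the action**, constituents with coefficients -/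
theorem main6C (B : SeaCB) {δ r : ℝ} (hδ : 0 < δ) (hδ1 : δ ≤ 1) (hr : 0 < r) (hr1 : r ≤ 1) : ∃ C : ℝ, 1 ≤ C ∧
    ∀ [SeaC] [SeaCU B], ∀ (lo hi : ℝ), Str B lo hi →
    ∀ (s : Bool → ℝ) (ε M b K R : ℝ) (e : ℝ → ℝ) (η η1 : Bool → ℝ → ℝ) (Fe Ψ : Bool → ℂ → ℂ)
      (ι : Type) [Fintype ι] (k : ι → ℝ) (sp : ι → Bool) (j τ t0 : ι → ℝ), (∀ a, 0 ≤ s a) →
      (∀ a, Cur (s a) ε M b e (η a)) → (∀ a t, HasDerivAt (η a) (η1 a t) t) → Com M s e η η1 →
      0 ≤ b → C * ε ≤ 1 → lo + C * ε + r ≤ -B.d → B.top + C * ε + r ≤ hi → 0 ≤ K →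
      (∀ t t', |s true * P t * η true t - s true * P t' * η true t'| ≤ K * |t - t'|) →
      (∀ a, SExt lo hi (Fe a)) → (∀ c, OffS δ lo hi (j c)) → (∀ c, |τ c - t0 c| ≤ R) →
      (∀ (a : Bool) (z : ℂ), lo ≤ z.im → z.im ≤ hi → Fe a z =
        ∑ c, (k c : ℂ) * gq (sp c) (j c) (τ c) a z + Ψ a z) →
      |(gas s η η1 Fe).S - ((∑ c, k c * clo s (sp c) (j c) (τ c)) +
        (∫ t : ℝ, P t * (s true * (Ψ true (ga t)).re + s false * (Ψ false (ga t)).re)) -
        2 * Real.pi * (∑ c, k c * (NUO.wnu (j c) * (s true * P (t0 c) * η true (t0 c)))) +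
        NUCR.bil (hd (s true) (η true) (η1 true)) (hd (s true) (η true) (η1 true)) -
        ∑ a, (∫ t, Bf (s a) (gD (η a)) (gD1 (η a) (η1 a)) t * Ψ a (zt (gD (η a)) t)).re)| ≤
        C * (∑ c, |k c| * (1 + |NUO.wnu (j c)|)) * ((b + 1) ^ 2 * (M * ε) + K * (1 + R)) +
          C * (b + 1) ^ 3 * (M ^ 2 * ε) + C * K ^ 2 := by
  obtain ⟨C1, hC1, H1⟩ := exists_S B
  obtain ⟨C2, hC2, H2⟩ := exists_oneC B hδ hδ1 hr hr1
  obtain ⟨C3, hC3, H3⟩ := Cur_path_w B
  refine ⟨C1 + C2 + C3, by linarith, ?_⟩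
  intro _ hS lo hi St s ε M b K R e η η1 Fe Ψ ι _ k sp j τ t0 hs hc hη hcom hb hε hlo hhi hK hKL hF hj hR hsum
  have hε0 := (hc true).ε0
  have hM := (hc true).M0 B (hs true)
  have hMε := mul_nonneg hM hε0
  have q1 : 0 ≤ C1 * ε := by positivity
  have q2 : 0 ≤ C2 * ε := by positivity
  have q3 : 0 ≤ C3 * ε := by positivity
  have e0 : (C1 + C2 + C3) * ε = C1 * ε + C2 * ε + C3 * ε := by ring
  rw [e0] at hε hlo hhi
  have hA : ∀ t, |hd (s true) (η true) (η1 true) t| ≤ K :=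
    deriv_le_lip (fun t => hasDerivAt_hd B (s true) (hη true) t) hK hKL
  have a1 := @H1 _ hS s ε M b K e η η1 hs hb (by linarith) hc hη hcom hA Fe
  have P1 : ∀ a, SPath lo hi (1 / 2) C3 (zt (gD (η a))) (zd (gD1 (η a) (η1 a))) := fun a =>
    @H3 _ hS (s a) ε M b lo hi e (η a) (η1 a) (hs a) (by linarith) (by linarith) (by linarith) (hc a) (hη a)
  rw [Complex.sub_re, part_lineC B St hδ hδ1 hj hF hsum, part_pathC B St hδ hδ1 hj P1 hF hsum] at a1
  have hsumc : |∑ c, (-(k c * (∑ a, (∫ t, Bf (s a) (gD (η a)) (gD1 (η a) (η1 a)) t *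
        gq (sp c) (j c) (τ c) a (zt (gD (η a)) t))).re) +
      2 * Real.pi * (k c * (NUO.wnu (j c) * (s true * P (t0 c) * η true (t0 c)))))| ≤
      C2 * (∑ c, |k c| * (1 + |NUO.wnu (j c)|)) * ((b + 1) ^ 2 * (M * ε) + K * (1 + R)) := by
    have e0 : C2 * (∑ c, |k c| * (1 + |NUO.wnu (j c)|)) * ((b + 1) ^ 2 * (M * ε) + K * (1 + R)) =
        ∑ c, |k c| * (C2 * (1 + |NUO.wnu (j c)|) * ((b + 1) ^ 2 * (M * ε) + K * (1 + R))) := by
      rw [Finset.mul_sum, Finset.sum_mul]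
      exact Finset.sum_congr rfl fun c _ => by ring
    rw [e0]
    refine (Finset.abs_sum_le_sum_abs _ _).trans (Finset.sum_le_sum fun c _ => ?_)
    have h := @H2 _ hS lo hi St s ε M b K R e η η1 (sp c) (j c) (τ c) (t0 c) hs hc hη hcom hb (by linarith)
      (by linarith) (by linarith) hK hKL (hj c) (hR c)
    rw [show -(k c * (∑ a, (∫ t, Bf (s a) (gD (η a)) (gD1 (η a) (η1 a)) t *
      gq (sp c) (j c) (τ c) a (zt (gD (η a)) t))).re) +
      2 * Real.pi * (k c * (NUO.wnu (j c) * (s true * P (t0 c) * η true (t0 c)))) =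
      k c * (-(∑ a, (∫ t, Bf (s a) (gD (η a)) (gD1 (η a) (η1 a)) t *
      gq (sp c) (j c) (τ c) a (zt (gD (η a)) t))).re +
      2 * Real.pi * (NUO.wnu (j c) * (s true * P (t0 c) * η true (t0 c)))) by ring, abs_mul]
    exact mul_le_mul_of_nonneg_left h (abs_nonneg _)
  rw [Finset.sum_add_distrib, Finset.sum_neg_distrib, ← Finset.mul_sum] at hsumc
  obtain ⟨N, hN⟩ : ∃ N : ℝ, N = ∑ c, |k c| * (1 + |NUO.wnu (j c)|) := ⟨_, rfl⟩
  rw [← hN] at hsumc ⊢
  have hN0 : 0 ≤ N := by rw [hN]; exact Finset.sum_nonneg fun c _ => by positivity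
  have hG : 0 ≤ N * ((b + 1) ^ 2 * (M * ε) + K * (1 + R)) := by
    rcases isEmpty_or_nonempty ι with hE | ⟨⟨c⟩⟩
    · have : N = 0 := by rw [hN, Finset.univ_eq_empty, Finset.sum_empty]
      rw [this, zero_mul]
    · have hR0 : 0 ≤ R := (abs_nonneg _).trans (hR c)
      positivity
  have g1 : C2 * N * ((b + 1) ^ 2 * (M * ε) + K * (1 + R)) ≤
      (C1 + C2 + C3) * N * ((b + 1) ^ 2 * (M * ε) + K * (1 + R)) := by
    rw [mul_assoc, mul_assoc]
    exact mul_le_mul_of_nonneg_right (by linarith) hG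
  have g2 : C1 * (b + 1) ^ 3 * (M ^ 2 * ε) ≤ (C1 + C2 + C3) * (b + 1) ^ 3 * (M ^ 2 * ε) := by
    have : 0 ≤ (b + 1) ^ 3 * (M ^ 2 * ε) := by positivity
    rw [mul_assoc, mul_assoc]
    exact mul_le_mul_of_nonneg_right (by linarith) this
  have g3 : C1 * K ^ 2 ≤ (C1 + C2 + C3) * K ^ 2 :=
    mul_le_mul_of_nonneg_right (by linarith) (by positivity)
  rw [abs_le] at hsumc a1 ⊢
  constructor <;> linarith [hsumc.1, hsumc.2, a1.1, a1.2]

end

end PLT.Cv
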