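import Pool.Agent.PLT.TRP
import Pool.Agent.PLT.RMF
import Pool.Agent.PLX.PB.TRsV
import Pool.Agent.PLX.PB.TRsDl
import Pool.Agent.PLT.RRat

/-!
# Row R of the directions: the exponential of the mean over the rows

* **`exp_kapR`**: rows at complex places `x`, `|Re x i| < l`, the copies `yq x` of the other species:
  `exp (- kap (Dv τ) (rowsD x))` is the product of the inverse factors `EXe` of all rows.
-/

set_option autoImplicit false
set_option linter.unusedSectionVars false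

noncomputable section

open Complex MeasureTheory Filter
open scoped BigOperators

namespace PLT.RT

open PLX (Fil)
open PLT (EXe)
open PBTV.PLX (Dv wa wb)
open PBT3 (zt wt)

/-- **the exponential of the mean over the rows** -/
theorem exp_kapR [Fil] {m : ℕ} {x : Fin m → ℂ} (hx : ∀ i, |(x i).re| < NUMF.l) (τ : ℝ × ℝ) :
    exp (-(PBF.PLX.kap (Dv τ) (rowsD x))) =
      (∏ i, (EXe 0 0 (zt τ) (wt τ.1) (wt τ.2) (x i))⁻¹) *
        ∏ j, (EXe 0 0 (zt τ) (wt τ.2) (wt τ.1) (_root_.Pool.Agent.PLX.yq x j))⁻¹ := by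
  have hl : 0 < NUMF.l := PBR.l_pos'
  have el : NUP1.l = NUMF.l := rfl
  have hG : PBT3.G5 (wa τ) (wb τ) := ⟨PBT3.wt_re _, PBT3.wt_re _⟩
  have hz := PBT3.zt_re τ
  have hw := PBT3.wt_re τ.1
  have hw' := PBT3.wt_re τ.2
  rw [el] at hz hw hw'
  have hD : ∀ (a : Bool) (s : ℝ), Dv τ a none (NUP1.l + I * s) = PBT3.Dl (wa τ) (wb τ) a s :=
    fun a s => PBTs.PLX.DT_Dl (wa τ) (wb τ) a s
  have h0 : -NUMF.l < (0 : ℂ).re := by rw [zero_re]; linarith
  have h1 : (0 : ℂ).re < 4 * NUMF.l := by rw [zero_re]; linarith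
  have key := mean_rows (p := 0) (q := 0) (z := zt τ) (w := wt τ.1) (w' := wt τ.2) hx h0 h1 h0 h1
    (D := fun a u => Dv τ a none u) (by linarith) (by linarith) (by linarith)
    (by linarith) (by linarith) (by linarith)
    (fun s => (hD true s).trans ((Pool.Agent.PLX.Dl_true_GX (wa τ) (wb τ) s).trans (GXe_zero _ _ _ s).symm))
    (fun s => (hD false s).trans ((Pool.Agent.PLX.Dl_false_GX (wa τ) (wb τ) s).trans (GXe_zero _ _ _ s).symm))
    Fil.n
  have e1 : ∏ j, (EXe 0 0 (zt τ) (wt τ.2) (wt τ.1) (_root_.Pool.Agent.PLX.yq x j))⁻¹ =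
      (∏ i, (EXe 0 0 (zt τ) (wt τ.2) (wt τ.1) (x i))⁻¹) ^ Fil.q :=
    _root_.Pool.Agent.PLX.prod_yqn Fil.q (fun v => (EXe 0 0 (zt τ) (wt τ.2) (wt τ.1) v)⁻¹) x
  rw [e1]
  rw [Fil.n_true, Fil.n_false, pow_one] at key
  rw [← key]
  congr 2
  unfold PBF.PLX.kap
  refine Finset.sum_congr rfl fun b _ => ?_
  refine integral_congr_ae (Eventually.of_forall fun t => ?_)
  show (Fil.b b : ℂ) * rowsD x t * _ = _
  rw [← Fil.cast_n]
  unfold rowsD
  push_cast
  rfl

end PLT.RT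

end
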