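import Pool.Agent.PLT.RV
import Pool.Agent.PLT.RPf
import Pool.Agent.PLT.SMF
import Pool.Agent.PLT.SEnd
import Pool.Agent.PLT.H1Phi

/-!
# (S-TR), rows on the imaginary axis: the top of the s-path (helper71)

* `rhoI_rowsD`, `kvI_exp`: exponential of the mean; `plc_I`, **`KKI_eq`**: `KKI = u0 (k1T RkI)`;
* `PII ep x η η' τ`: integrability at the left end; **`nFvI_zero`**, **`nFvI_one`**: the ends of the path;
* **`str_of`**: (S-TR) from the class `W W` on the window (H1), its mass (H2), the path (H3), integrability.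
-/

set_option autoImplicit false
set_option linter.unusedSectionVars false
set_option linter.unusedVariables false

noncomputable section

open Complex MeasureTheory Set Filter Topology
open PLX (Fil)

namespace PLT.St

open NUP1S (O3)
open NUO (Xo)
open NUCR (CurB)
open NUP1 (l)
open PBFunc (WI)
open PHK (FF6 wN6 mN6 par6 Nq ZQ6)
open PBF.PLX (expZ nF6 PathD6 Crs dN MCr)
open PBR.PLX (RZW)
open PBR (rh rh_ne_zero rh_neg)
open PBX (Rws eT Lt rh_zero_ne)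
open PBForce (Rws0)
open Pool.Agent.PB (Pf Rwo)
open Pool.Agent.PLX (RU rwq yq fQ FFth PhI6 GF6 HI6)
open PBT3 (wt zt gF k1T)
open PBTR (mT winW win ew)
open PBTRF (u0 u0_ne)
open PBTV.PLX (Dv wa wb)

variable [Fil] {m : ℕ}

omit [Fil] in
theorem rhoI_rowsD (x : Fin m → ℂ) : rhoI x = RT.rowsD x := rfl

/-- **the exponential of the mean** -/
theorem kvI_exp {x : Fin m → ℂ} (hx : Rws0 x) (τ : ℝ × ℝ) : Complex.exp (-κvI x τ) = EMI x τ :=
  RT.exp_kapR (fun i => by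
    have := NUP1.l_pos
    rw [hx.re i, abs_zero]
    exact this) τ

/-! ### the prefactors -/

theorem yq_re {x : Fin m → ℂ} (hx : Rws0 x) (j : Fin (Fil.q * m)) : (yq x j).re = 0 := hx.re _

omit [Fil] in
theorem sin_ne_I {z : ℂ} (h1 : 0 < z.re) (h2 : z.re < 8 * l) : Complex.sin z ≠ 0 := by
  have hp : (8 : ℝ) * l = Real.pi := by unfold NUP1.l; ring
  rw [hp] at h2
  intro h
  obtain ⟨k, hk⟩ := Complex.sin_eq_zero_iff.1 h
  have hr : z.re = k * Real.pi := by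
    rw [hk]
    simp
  rw [hr] at h1 h2
  have k1 : (0 : ℝ) < k := by
    by_contra hc
    rw [not_lt] at hc
    nlinarith [Real.pi_pos]
  have k2 : (k : ℝ) < 1 := by
    by_contra hc
    rw [not_lt] at hc
    nlinarith [Real.pi_pos]
  have k3 : (0 : ℤ) < k := by exact_mod_cast k1
  have k4 : k < (1 : ℤ) := by exact_mod_cast k2
  omega

omit [Fil] in
theorem eT_zt_ne {v : ℂ} (hv : v.re = 0) (τ : ℝ × ℝ) : eT (zt τ - v) ≠ 0 := by
  have hl := NUP1.l_pos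
  have hz : (zt τ - v).re = -(l / 4) := by
    rw [sub_re, hv, sub_zero]
    exact PBT3.zt_re τ
  have hr : rh (zt τ - v) ≠ 0 := rh_ne_zero (by
    rw [hz, abs_neg, abs_of_pos (by positivity)]
    linarith)
  unfold PBX.eT PBX.Lt
  have e2 : (2 * (l : ℂ)).re = 2 * l := by simp
  have e3 : (3 * (l : ℂ)).re = 3 * l := by simp
  refine div_ne_zero (mul_ne_zero ?_ ?_) (pow_ne_zero 2 hr)
  · refine sin_ne_I ?_ ?_
    · rw [add_re, hz, e2]
      linarith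
    · rw [add_re, hz, e2]
      linarith
  · refine sin_ne_I ?_ ?_
    · rw [add_re, hz, e3]
      linarith
    · rw [add_re, hz, e3]
      linarith

theorem plc_I {x : Fin m → ℂ} (hx : Rws0 x) (τ : ℝ × ℝ) : Plc x (yq x) 0 0 (zt τ) := by
  have hl := NUP1.l_pos
  have h0 : ∀ a b : ℂ, a.re = 0 → b.re = 0 → |(a - b).re| < 5 * l := by
    intro a b ha hb
    rw [sub_re, ha, hb, sub_zero, abs_zero]
    positivity
  exact {
    xx := fun i j => h0 _ _ (hx.re i) (hx.re j)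
    yy := fun i j => h0 _ _ (yq_re hx i) (yq_re hx j)
    xy := fun i j => h0 _ _ (hx.re i) (yq_re hx j)
    px := fun i => h0 _ _ rfl (hx.re i)
    qx := fun i => h0 _ _ rfl (hx.re i)
    py := fun j => h0 _ _ rfl (yq_re hx j)
    qy := fun j => h0 _ _ rfl (yq_re hx j)
    pq := h0 _ _ rfl rfl
    zx := fun i => eT_zt_ne (hx.re i) τ
    zy := fun j => eT_zt_ne (yq_re hx j) τ }

omit [Fil] in
theorem k1e_k1T (τ : ℝ × ℝ) : k1e 0 0 (wt τ.1) (wt τ.2) = k1T τ := by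
  unfold k1e PBT3.k1T
  simp only [sub_zero]

/-- **the integrand of the regular function** -/
theorem KKI_eq {x : Fin m → ℂ} (hx : Rws0 x) (ep : ℝ) (η η' : Crs) (τ : ℝ × ℝ) :
    KKI ep x η η' τ = u0 * (k1T τ * RkI ep x η η' τ) := by
  have h := ratio_e (w := wt τ.1) (w' := wt τ.2) (plc_I hx τ)
  rw [k1e_k1T, sub_zero] at h
  have h0 := rh_zero_ne
  have h2 : nrI x * kRI x τ = 3 / 2 / rh 0 * k1T τ * (PvI x τ * EMI x τ) := by
    unfold nrI kRI PvI EMI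
    rw [h, ← mul_assoc (Pf (zt τ) x (yq x))]
    have e : 3 / 2 * rh 0 / rh 0 ^ 2 = 3 / 2 / rh 0 := by
      field_simp
    rw [e]
  unfold KKI RkI u0
  linear_combination ((2 * Real.pi : ℂ)⁻¹ ^ 2 * SRI ep x η η' τ) * h2

/-! ### the ends of the path -/

/-- integrability at the left end -/
def PII (ep : ℝ) (x : Fin m → ℂ) (η η' : Crs) (τ : ℝ × ℝ) : Prop :=
  WI (mN6 (2 * m)) (wN6 (fun _ => ZvI ep x τ) (fun _ => par6) (2 * m) (fun _ => η) (fun _ => η')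
    (fun _ => PvI x τ)) (fun _ => 1)

theorem meas_ZvI (ep : ℝ) {x : Fin m → ℂ} (hx : Rws x) (τ : ℝ × ℝ) (a : Bool) (q : Option O3) :
    Measurable (ZvI ep x τ a q) :=
  Pool.Agent.PLX.measurable_XXU (PBX.measurable_gP _ _) (meas_gI hx a) (PBX.Lg_meas _ _)
    ((PBX.Lg_meas _ _).mul ((PBX.Lg_meas _ _).comp (measurable_id.sub_const _))) q

/-- data of the path -/
theorem pathI {ep : ℝ} {x : Fin m → ℂ} (hx : Rws x) {η η' : ℝ → ℝ} (hc : MCr (fun _ _ => η) (fun _ _ => η'))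
    (hb : ∀ t, |η t| ≤ l / 5) (τ : ℝ × ℝ) : ∃ B : ℝ,
    PathD6 (fun _ => ZvI ep x τ) (fun _ => Dv τ) (fun _ => par6) (2 * m) (fun _ _ _ => η)
      (fun _ _ _ => η') B := by
  obtain ⟨C, -, H⟩ := SW.pathD
  exact ⟨_, H par6 PHK.par6_good τ (ZvI ep x τ) (fun s k => meas_ZvI ep hx τ s k) η η' hc hb (2 * m)⟩

/-- **left end** -/
theorem nFvI_zero (hFF : FFth) {ep : ℝ} {x : Fin m → ℂ} (hx : Rws0 x) (hep0 : 0 < ep) (hep : ep ≤ 1 / 100)
    (hφ : PhI6 (N := Nq m) (4 / 3 * (1 - ep)) (rwq x) fun _ => [I, -I]) {η η' : ℝ → ℝ}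
    (hcur : CurB ep η η') (hc : MCr (fun _ _ => η) (fun _ _ => η')) {τ : ℝ × ℝ}
    (hI : PII ep x (fun _ _ => η) (fun _ _ => η') τ) :
    nFvI ep x (fun _ _ => η) (fun _ _ => η') τ 0 = fQ Fil.q x (zt τ) := by
  have hl := NUP1.l_pos
  have hz := PBT3.zt_re τ
  have hz' : (zt τ).re = -(l / 4) := hz
  obtain ⟨B, hB⟩ := pathI (ep := ep) (rws_of hx) hc (fun t => (hcur.h1 t).trans (by nlinarith)) τ
  exact SW.nF_zero hFF PHK.par6_good Pool.Agent.PLX.hI6_par6 hep0 hep (by nlinarith) (by nlinarith)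
    (rws_of hx) (fun _ => PHK.re_II)
    (fun a => Pool.Agent.PLX.gF6_gO _ (Pool.Agent.PLX.Rws_rwq (rws_of hx) a) (by simp)) hφ
    (by rw [hz']; linarith) (by rw [hz']; linarith) (fun _ _ => hcur) hB hI

/-- **right end** -/
theorem nFvI_one {ep : ℝ} {x : Fin m → ℂ} (hx : Rws0 x) (hep : ep ≤ 1 / 100) {η η' : ℝ → ℝ}
    (hcur : CurB ep η η') (hc : MCr (fun _ _ => η) (fun _ _ => η')) {τ : ℝ × ℝ}
    (hI : PII ep x (fun _ _ => η) (fun _ _ => η') τ) :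
    nFvI ep x (fun _ _ => η) (fun _ _ => η') τ 1 = RkI ep x (fun _ _ => η) (fun _ _ => η') τ := by
  have hl := NUP1.l_pos
  obtain ⟨B, hB⟩ := pathI (ep := ep) (rws_of hx) hc (fun t => (hcur.h1 t).trans (by nlinarith)) τ
  have h := SW.nF_one (R := RI ep x) (κ := κvI x τ) (Pz := PvI x τ) (e := Fil.xn m) rfl rfl
    (Z := ZvI ep x τ) (τ := τ) (by
      symm
      exact SW.ZLD_ZQ6 (fun a => NUP1.Leg.cc (Nq m a)) (gI x) (4 / 3 * (1 - ep)) x (fun _ => [I, -I]) 0 0 (zt τ))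
    PHK.par6_good (PBF.PLX.dN_two m) (fun r O t => (hcur.h1 t).trans (by nlinarith)) hB hI
  unfold nFvI
  refine h.trans ?_
  rw [kvI_exp hx]
  unfold RkI SRI FWI
  ring

/-! ### the transfer -/

theorem mcr_of {ep : ℝ} {η η' : ℝ → ℝ} (h : CurB ep η η') : MCr (fun _ _ => η) (fun _ _ => η') :=
  ⟨fun _ => (continuous_iff_continuousAt.2 fun t => (h.hd t).continuousAt).measurable.comp measurable_snd,
    fun _ => h.hc.measurable.comp measurable_snd⟩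

theorem meas_fz {x : Fin m → ℂ} (hx : Rws0 x) : Continuous fun τ : ℝ × ℝ => fQ Fil.q x (zt τ) := by
  have hl := NUP1.l_pos
  refine continuous_iff_continuousAt.2 fun τ => ?_
  have h := Pool.Agent.PLX.fQ_diff Fil.q (Pool.Agent.PB.Rws.rwo (rws_of hx))
  have hz : (zt τ).re = -(l / 4) := PBT3.zt_re τ
  have hm : zt τ ∈ {z : ℂ | |z.re| < 43 / 10 * l} := by
    show |(zt τ).re| < 43 / 10 * l
    rw [hz, abs_neg, abs_of_pos (by positivity)]
    linarith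
  have ho : IsOpen {z : ℂ | |z.re| < 43 / 10 * l} :=
    isOpen_lt (continuous_abs.comp continuous_re) continuous_const
  exact ContinuousAt.comp (g := fQ Fil.q x) (f := zt)
    (h.differentiableAt (ho.mem_nhds hm)).continuousAt PBT3.continuous_zt.continuousAt

omit [Fil] in
theorem winW_win (B : ℝ) (m : ℕ) : winW B m = win (B * Real.log m) := rfl

/-- **(S-TR)** -/
theorem str_of (hFF : FFth) (S : ℕ → (ℕ → ℝ) → SeaC) {ep e1 J c1 c2 : ℝ} (hep0 : 0 < ep)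
    (hep : ep ≤ 1 / 100) (hc1 : 0 < c1) (hc2 : 0 < c2)
    (hcur : ∀ᶠ m : ℕ in atTop, ∀ h, HtS h →
      CurB ep (@Cv.etaC (S m h) e1 J m m) (@Cv.etaC' (S m h) e1 J m m))
    (hI : ∀ᶠ m : ℕ in atTop, ∀ h τ, okI m (h, τ) →
      PII ep (xI m h) (crI S e1 J m h) (crI' S e1 J m h) τ)
    (H1 : ∀ᶠ m : ℕ in atTop, ∀ h, HtS h → ‖YI ep (xI m h) - (-1) ^ Fil.xn m *
      ∫ τ in winW (3 / 8) m, KKI ep (xI m h) (crI S e1 J m h) (crI' S e1 J m h) τ‖ ≤ (m : ℝ) ^ (-c1))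
    (Hm : ∀ᶠ m : ℕ in atTop, ∀ h, HtS h → AEStronglyMeasurable
      (KKI ep (xI m h) (crI S e1 J m h) (crI' S e1 J m h)) (volume.restrict (winW (3 / 8) m)))
    (H2 : ∀ᶠ m : ℕ in atTop, ∀ h, HtS h → ∀ τ ∈ winW (3 / 8) m,
      ‖KKI ep (xI m h) (crI S e1 J m h) (crI' S e1 J m h) τ‖ ≤ (m : ℝ) ^ (1 / 160 : ℝ) * Real.exp (-mT τ))
    (H3 : ∀ᶠ m : ℕ in atTop, ∀ h τ, okI m (h, τ) →
      ‖k1T τ‖ * ‖nFvI ep (xI m h) (crI S e1 J m h) (crI' S e1 J m h) τ 1 -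
        Complex.exp (gF τ) * nFvI ep (xI m h) (crI S e1 J m h) (crI' S e1 J m h) τ 0‖ ≤ (m : ℝ) ^ (-c2)) :
    ∃ c C : ℝ, 0 < c ∧ ∀ᶠ m : ℕ in atTop, ∀ h, HtS h → ‖YI ep (xI m h) - (-1) ^ Fil.xn m *
      (u0 * ∫ τ in winW (1 / 20) m, k1T τ * (Complex.exp (gF τ) * fQ Fil.q (xI m h) (zt τ)))‖ ≤
        C * (m : ℝ) ^ (-c) := by
  have hl := NUP1.l_pos
  obtain ⟨c, hc⟩ : ∃ c, c = min (min c1 (c2 / 2)) (1 / 40) := ⟨_, rfl⟩
  have hc0 : 0 < c := by rw [hc]; exact lt_min (lt_min hc1 (by linarith)) (by norm_num)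
  have q1 : c ≤ c1 := by rw [hc]; exact (min_le_left _ _).trans (min_le_left _ _)
  have q2 : c ≤ c2 / 2 := by rw [hc]; exact (min_le_left _ _).trans (min_le_right _ _)
  have q3 : c ≤ 1 / 40 := by rw [hc]; exact min_le_right _ _
  obtain ⟨C, hC, key⟩ := tr_valf (b := 2) (B := 1 / 20) (c := c) (c0 := c1) (c1 := c2) (e := 1 / 80)
    (d := c2 / 2) (by norm_num) (by norm_num) (by linarith) q1 (by linarith) (by linarith)
  obtain ⟨m1, hm1, hphi⟩ := PLT.H1.phI6_Rws0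
  have hb : 0 < ‖u0‖ := norm_pos_iff.2 u0_ne
  have habs : ∀ᶠ m : ℕ in atTop, ‖u0‖⁻¹ * (m : ℝ) ^ (1 / 160 : ℝ) ≤ (m : ℝ) ^ (1 / 80 : ℝ) := by
    have h3 : Tendsto (fun m : ℕ => (m : ℝ) ^ (1 / 160 : ℝ)) atTop atTop :=
      (tendsto_rpow_atTop (by norm_num)).comp tendsto_natCast_atTop_atTop
    filter_upwards [h3.eventually_ge_atTop ‖u0‖⁻¹, eventually_ge_atTop 1] with m g1 hm
    have hm0 : (0 : ℝ) < m := by exact_mod_cast hm
    have e1 : (m : ℝ) ^ (1 / 80 : ℝ) = (m : ℝ) ^ (1 / 160 : ℝ) * (m : ℝ) ^ (1 / 160 : ℝ) := by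
      rw [← Real.rpow_add hm0]
      norm_num
    rw [e1]
    exact mul_le_mul_of_nonneg_right g1 (Real.rpow_nonneg hm0.le _)
  refine ⟨c, C, hc0, ?_⟩
  filter_upwards [hcur, hI, H1, Hm, H2, H3, habs, eventually_ge_atTop m1, eventually_ge_atTop 1] with
    m g1 g2 g3 g4 g5 g6 g7 g8 g9 h hh
  have hx := rws0_xI hh m
  have hcB := g1 h hh
  have hmc := mcr_of hcB
  have hN : (1 : ℝ) ≤ m := by exact_mod_cast g9
  have hN0 : (0 : ℝ) < m := by linarith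
  have hL : 0 ≤ Real.log m := Real.log_nonneg hN
  have hφ := hphi m g8 (4 / 3 * (1 - ep)) (by nlinarith) (by nlinarith) (xI m h) hx
  obtain ⟨η, hη⟩ : ∃ η, η = crI S e1 J m h := ⟨_, rfl⟩
  obtain ⟨η', hη'⟩ : ∃ η', η' = crI' S e1 J m h := ⟨_, rfl⟩
  have hKK : ∀ τ, KKI ep (xI m h) η η' τ = u0 * (k1T τ * RkI ep (xI m h) η η' τ) := fun τ =>
    KKI_eq hx ep η η' τ
  have sgn : ((-1 : ℂ) ^ Fil.xn m) * (-1) ^ Fil.xn m = 1 := by
    rw [← mul_pow]
    norm_num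
  have nsg : ‖(-1 : ℂ) ^ Fil.xn m‖ = 1 := by
    rw [norm_pow, norm_neg, norm_one, one_pow]
  have hsub : win (1 / 20 * Real.log m) ⊆ winW (3 / 8) m := by
    intro τ hτ
    exact ⟨hτ.1.trans (by nlinarith), hτ.2.trans (by nlinarith)⟩
  have res := key (m : ℝ) hN (winW (3 / 8) m) ((-1) ^ Fil.xn m * YI ep (xI m h)) (RkI ep (xI m h) η η')
    (fun τ => fQ Fil.q (xI m h) (zt τ)) (PBTR.measurableSet_winW _ _) hsub ?_ ?_ ?_ ?_ ?_
  · have e : YI ep (xI m h) - (-1) ^ Fil.xn m *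
        (u0 * ∫ τ in winW (1 / 20) m, k1T τ * (Complex.exp (gF τ) * fQ Fil.q (xI m h) (zt τ))) =
        (-1) ^ Fil.xn m * ((-1) ^ Fil.xn m * YI ep (xI m h) -
          u0 * ∫ τ in win (1 / 20 * Real.log m), k1T τ * (Complex.exp (gF τ) * fQ Fil.q (xI m h) (zt τ))) := by
      rw [winW_win]
      linear_combination (-(YI ep (xI m h))) * sgn
    rw [e, norm_mul, nsg, one_mul]
    exact res
  · have e : (fun τ => k1T τ * RkI ep (xI m h) η η' τ) = fun τ => u0⁻¹ * KKI ep (xI m h) η η' τ := by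
      funext τ
      rw [hKK, ← mul_assoc, inv_mul_cancel₀ u0_ne, one_mul]
    rw [e, hη, hη']
    exact (g4 h hh).const_mul _
  · exact ((PBT3.continuous_k1T.mul (PBT3.continuous_exp_gF.mul (meas_fz hx))).aestronglyMeasurable)
  · have e2 : u0 * ∫ τ in winW (3 / 8) m, k1T τ * RkI ep (xI m h) η η' τ =
        ∫ τ in winW (3 / 8) m, KKI ep (xI m h) η η' τ := by
      simp only [hKK]
      rw [integral_const_mul]
    rw [e2]
    have e : (-1) ^ Fil.xn m * YI ep (xI m h) - ∫ τ in winW (3 / 8) m, KKI ep (xI m h) η η' τ =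
        (-1) ^ Fil.xn m * (YI ep (xI m h) - (-1) ^ Fil.xn m *
          ∫ τ in winW (3 / 8) m, KKI ep (xI m h) η η' τ) := by
      linear_combination (∫ τ in winW (3 / 8) m, KKI ep (xI m h) η η' τ) * sgn
    rw [e, norm_mul, nsg, one_mul, hη, hη']
    exact g3 h hh
  · intro τ hτ
    have h8 := g5 h hh τ hτ
    rw [← hη, ← hη', hKK, norm_mul] at h8
    have h9 : ‖k1T τ * RkI ep (xI m h) η η' τ‖ ≤ ‖u0‖⁻¹ * ((m : ℝ) ^ (1 / 160 : ℝ) * Real.exp (-(mT τ))) := by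
      rw [inv_mul_eq_div, le_div_iff₀ hb]
      linarith
    refine h9.trans ?_
    rw [← mul_assoc]
    refine mul_le_mul g7 ?_ (Real.exp_pos _).le (Real.rpow_nonneg hN0.le _)
    unfold PBTR.ew PBTR.mT
    apply Real.exp_le_exp.2
    have := abs_nonneg (τ.1 - τ.2)
    linarith
  · intro τ hτ
    have hok : okI m (h, τ) := ⟨hh, hτ.1, hτ.2⟩
    have h6 := g6 h τ hok
    have hII := g2 h τ hok
    have a1 : nFvI ep (xI m h) (crI S e1 J m h) (crI' S e1 J m h) τ 1 =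
        RkI ep (xI m h) (crI S e1 J m h) (crI' S e1 J m h) τ :=
      nFvI_one hx hep hcB hmc hII
    have a2 : nFvI ep (xI m h) (crI S e1 J m h) (crI' S e1 J m h) τ 0 = fQ Fil.q (xI m h) (zt τ) :=
      nFvI_zero hFF hx hep0 hep hφ hcB hmc hII
    rw [a1, a2] at h6
    rw [hη, hη']
    exact h6

end PLT.St

end
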