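import Pool.Agent.PLT.RPh

/-!
# (S-TR): the integration over the heights of the half quanta, the function inside the integral

* **`tr_fun`**: one value, no sequence: from the class decomposition on `V` (H1), the mass bound on `V` (H2) and the path
  on a small window (H3): `‖n - u0 ∫_{|τ₁|, |τ₂| ≤ B log N} k1T exp gF f‖ ≤ C N ^ (-c)`, `C` depends on the
  exponents only.
-/

set_option autoImplicit false
set_option linter.unusedVariables false

noncomputable section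

open Complex MeasureTheory Set Filter Topology

namespace PLT

open PBT3 (zt gF k1T)
open PBTR (ew ew_pos int_ew ew_out win measurableSet_win)
open PBTRF (u0)

/-- **(TR), one value, `f` inside the integral** -/
theorem tr_fun {b B c c0 c1 e d : ℝ} (hb : 0 < b) (hB : 0 ≤ B) (hd : 0 < d) (h0 : c ≤ c0)
    (h1 : c + d ≤ c1) (h3 : c + e ≤ b / 2 * B) :
    ∃ C : ℝ, 0 ≤ C ∧ ∀ N : ℝ, 1 ≤ N → ∀ (V : Set (ℝ × ℝ)) (n : ℂ) (R F : ℝ × ℝ → ℂ),
      MeasurableSet V → win (B * Real.log N) ⊆ V →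
      AEStronglyMeasurable (fun τ => k1T τ * R τ) (volume.restrict V) →
      AEStronglyMeasurable F (volume.restrict (win (B * Real.log N))) →
      ‖n - u0 * ∫ τ in V, k1T τ * R τ‖ ≤ N ^ (-c0) →
      (∀ τ ∈ V, ‖k1T τ * R τ‖ ≤ N ^ e * ew b τ) →
      (∀ τ ∈ win (B * Real.log N), ‖k1T τ‖ * ‖R τ - F τ‖ ≤ N ^ (-c1)) →
      ‖n - u0 * ∫ τ in win (B * Real.log N), k1T τ * F τ‖ ≤ C * N ^ (-c) := by
  set I1 : ℝ := ∫ τ, ew (b / 2) τ with hI1
  have i1 := int_ew (half_pos hb)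
  have hI10 : 0 ≤ I1 := integral_nonneg fun τ => (ew_pos _ _).le
  refine ⟨1 + ‖u0‖ * (I1 + (2 * B) ^ 2 * (2 / d) ^ 2), by positivity, ?_⟩
  intro N hN V n R F hV hwV hm hF H1 H2 H3
  have hN0 : 0 < N := by linarith
  have hl : 0 ≤ Real.log N := Real.log_nonneg hN
  set S := win (B * Real.log N) with hS
  have mS : MeasurableSet S := measurableSet_win _
  have hY : 0 ≤ B * Real.log N := mul_nonneg hB hl
  have vS : volume S ≤ ENNReal.ofReal ((2 * (B * Real.log N)) ^ 2) := win_vol hY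
  have vS' : volume S < ⊤ := vS.trans_lt ENNReal.ofReal_lt_top
  have np : ∀ a : ℝ, 0 ≤ N ^ a := fun a => Real.rpow_nonneg hN0.le a
  -- integrability on V
  have iV : IntegrableOn (fun τ => k1T τ * R τ) V := by
    refine Integrable.mono' (((int_ew hb).const_mul (N ^ e)).integrableOn (s := V)) hm ?_
    exact (ae_restrict_iff' hV).2 (Eventually.of_forall fun τ hτ => H2 τ hτ)
  have iS : IntegrableOn (fun τ => k1T τ * R τ) S := iV.mono_set hwV
  have hSD : ∀ τ ∈ S, ‖k1T τ * R τ - k1T τ * F τ‖ ≤ N ^ (-c1) := by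
    intro τ hτ
    rw [← mul_sub, norm_mul]
    exact H3 τ hτ
  have i0 : IntegrableOn (fun _ : ℝ × ℝ => N ^ (-c1)) S := integrableOn_const vS'.ne
  have mkF : AEStronglyMeasurable (fun τ => k1T τ * F τ) (volume.restrict S) :=
    PBT3.continuous_k1T.aestronglyMeasurable.mul hF
  have iD : IntegrableOn (fun τ => k1T τ * R τ - k1T τ * F τ) S := by
    refine Integrable.mono' i0 (iS.aestronglyMeasurable.sub mkF) ?_
    exact (ae_restrict_iff' mS).2 (Eventually.of_forall hSD)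
  have iF : IntegrableOn (fun τ => k1T τ * F τ) S := by
    refine (iS.sub iD).congr (Eventually.of_forall fun τ => ?_)
    simp only [Pi.sub_apply]
    ring
  -- (b) from V to the window
  have b1 : ‖(∫ τ in V, k1T τ * R τ) - ∫ τ in S, k1T τ * R τ‖ ≤ N ^ (-c) * I1 := by
    rw [← setIntegral_sdiff mS iV hwV]
    calc ‖∫ τ in V \ S, k1T τ * R τ‖ ≤ ∫ τ in V \ S, N ^ (-c) * ew (b / 2) τ := by
          refine norm_integral_le_of_norm_le (i1.const_mul _).integrableOn ?_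
          refine (ae_restrict_iff' (hV.diff mS)).2 (Eventually.of_forall fun τ hτ => ?_)
          exact (H2 τ hτ.1).trans (tail_ew hb hN h3 hτ.2)
      _ ≤ ∫ τ, N ^ (-c) * ew (b / 2) τ :=
          setIntegral_le_integral (i1.const_mul _) (Eventually.of_forall fun τ =>
            mul_nonneg (np _) (ew_pos _ _).le)
      _ = N ^ (-c) * I1 := integral_const_mul _ _
  -- (c) the path on the window
  have hlog : (2 * (B * Real.log N)) ^ 2 * N ^ (-c1) ≤ (2 * B) ^ 2 * (2 / d) ^ 2 * N ^ (-c) := by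
    have hd2 : 0 < d / 2 := by linarith
    have q1 : Real.log N ≤ N ^ (d / 2) / (d / 2) := Real.log_le_rpow_div hN0.le hd2
    have q2 : Real.log N ^ 2 ≤ (N ^ (d / 2) / (d / 2)) ^ 2 := pow_le_pow_left₀ hl q1 2
    have q3 : (N ^ (d / 2)) ^ 2 = N ^ d := by
      rw [← Real.rpow_natCast, ← Real.rpow_mul hN0.le]
      congr 1
      push_cast
      ring
    have q4 : N ^ d * N ^ (-c1) ≤ N ^ (-c) := by
      rw [← Real.rpow_add hN0]
      exact Real.rpow_le_rpow_of_exponent_le hN (by linarith)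
    have q5 : (N ^ (d / 2) / (d / 2)) ^ 2 = (2 / d) ^ 2 * N ^ d := by
      rw [div_pow, q3]
      field_simp
    calc (2 * (B * Real.log N)) ^ 2 * N ^ (-c1) = (2 * B) ^ 2 * (Real.log N ^ 2 * N ^ (-c1)) := by ring
      _ ≤ (2 * B) ^ 2 * ((2 / d) ^ 2 * N ^ d * N ^ (-c1)) := by
          refine mul_le_mul_of_nonneg_left ?_ (sq_nonneg _)
          refine mul_le_mul_of_nonneg_right ?_ (np _)
          rw [← q5]
          exact q2
      _ = (2 * B) ^ 2 * (2 / d) ^ 2 * (N ^ d * N ^ (-c1)) := by ring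
      _ ≤ _ := mul_le_mul_of_nonneg_left q4 (by positivity)
  have b2 : ‖(∫ τ in S, k1T τ * R τ) - ∫ τ in S, k1T τ * F τ‖ ≤
      (2 * B) ^ 2 * (2 / d) ^ 2 * N ^ (-c) := by
    rw [← integral_sub iS iF]
    refine (norm_integral_le_of_norm_le i0
      ((ae_restrict_iff' mS).2 (Eventually.of_forall hSD))).trans ?_
    rw [setIntegral_const, smul_eq_mul]
    have q6 : volume.real S ≤ (2 * (B * Real.log N)) ^ 2 := ENNReal.toReal_le_of_le_ofReal (sq_nonneg _) vS
    exact (mul_le_mul_of_nonneg_right q6 (np _)).trans hlog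
  have b0 : ‖n - u0 * ∫ τ in V, k1T τ * R τ‖ ≤ N ^ (-c) :=
    H1.trans (Real.rpow_le_rpow_of_exponent_le hN (by linarith))
  have e9 : n - u0 * (∫ τ in S, k1T τ * F τ) = (n - u0 * ∫ τ in V, k1T τ * R τ) +
      u0 * (((∫ τ in V, k1T τ * R τ) - ∫ τ in S, k1T τ * R τ) +
        ((∫ τ in S, k1T τ * R τ) - ∫ τ in S, k1T τ * F τ)) := by ring
  rw [e9]
  refine (norm_add_le _ _).trans ?_
  rw [norm_mul]
  have b5 : ‖u0‖ * ‖((∫ τ in V, k1T τ * R τ) - ∫ τ in S, k1T τ * R τ) +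
        ((∫ τ in S, k1T τ * R τ) - ∫ τ in S, k1T τ * F τ)‖ ≤
      ‖u0‖ * (N ^ (-c) * I1 + (2 * B) ^ 2 * (2 / d) ^ 2 * N ^ (-c)) :=
    mul_le_mul_of_nonneg_left ((norm_add_le _ _).trans (add_le_add b1 b2)) (norm_nonneg _)
  calc _ ≤ N ^ (-c) + ‖u0‖ * (N ^ (-c) * I1 + (2 * B) ^ 2 * (2 / d) ^ 2 * N ^ (-c)) := add_le_add b0 b5
    _ = _ := by ring

end PLT

end
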