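import Pool.Agent.PLT.SMst
import Pool.Agent.PLT.STRAll

/-!
# (S-TR), row SH1.Mst: the inputs of `str_all` for all small parameters (helper70)

Over `SeqI` (the state sum for every sequence of contents):

* **`h1S_of`**: `Sm3 (H1S S c1)`, `c1 < 7 / 16`; **`h2S_of`**: `Sm3 (H2S S)`; **`hmS_of`**: `Sm3 (HmS S)`;
* **`str_of_seq`**: `str_all` with these inputs.
-/

set_option autoImplicit false
set_option linter.unusedSectionVars false

noncomputable section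

open Complex MeasureTheory Set Filter Topology
open PLX (Fil)

namespace PLT.St

open NUCR (CurB)
open PHK (par6)
open Pool.Agent.PLX (fQ FFth)

variable [Fil] {S : ℕ → (ℕ → ℝ) → SeaC}

/-- the curve over the sea is admissible for all small parameters -/
theorem curI_of (hcur : ∀ ep e1 J : ℝ, 0 < ep → 0 < e1 → e1 ≤ 1 / 100 → 0 ≤ J → ∀ᶠ m : ℕ in atTop,
      ∀ h, HtS h → CurB ep (@Cv.etaC (S m h) e1 J m m) (@Cv.etaC' (S m h) e1 J m m)) :
    Sm3 fun ep e1 J => CurI S ep e1 J := by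
  refine (Sm3.le (a := 1 / 100) (by norm_num)).mono ?_
  rintro ep e1 J ⟨q1, q2, q3, q4, q5, q6⟩
  exact hcur ep e1 J q1 q3 q4 q5

/-- (H1) and (H2) -/
theorem h12S_of (hFF : FFth) (hS : ∀ h : ℕ → ℕ → ℝ, (∀ m, HtS (h m)) → SeqI h)
    (hcur : Sm3 fun ep e1 J => CurI S ep e1 J) {c1 : ℝ} (hc : c1 < 7 / 16) :
    Sm3 fun ep e1 J => H1S S c1 ep e1 J ∧ H2S S ep e1 J := by
  obtain ⟨a0, h0, h1, H⟩ := h12_I (S := S) hFF hS hc (b := 1 / 160) (by norm_num)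
  refine ((Sm3.le h0).and hcur).mono ?_
  rintro ep e1 J ⟨⟨q1, q2, q3, q4, q5, q6⟩, hc⟩
  exact H ep e1 J q1 q2 hc

/-- **(H1) for all small parameters** -/
theorem h1S_of (hFF : FFth) (hS : ∀ h : ℕ → ℕ → ℝ, (∀ m, HtS (h m)) → SeqI h)
    (hcur : Sm3 fun ep e1 J => CurI S ep e1 J) {c1 : ℝ} (hc : c1 < 7 / 16) : Sm3 (H1S S c1) :=
  (h12S_of hFF hS hcur hc).mono fun _ _ _ h => h.1

/-- **(H2) for all small parameters** -/
theorem h2S_of (hFF : FFth) (hS : ∀ h : ℕ → ℕ → ℝ, (∀ m, HtS (h m)) → SeqI h)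
    (hcur : Sm3 fun ep e1 J => CurI S ep e1 J) : Sm3 (H2S S) :=
  (h12S_of hFF hS hcur (c1 := 1 / 4) (by norm_num)).mono fun _ _ _ h => h.2

/-- **measurability for all small parameters** -/
theorem hmS_of (hFF : FFth) (hcur : Sm3 fun ep e1 J => CurI S ep e1 J) : Sm3 (HmS S) := by
  refine ((Sm3.le (a := 1 / 100) (by norm_num)).and hcur).mono ?_
  rintro ep e1 J ⟨⟨q1, q2, q3, q4, q5, q6⟩, hc⟩
  exact hm_I hFF q1 q2 hc

variable [PLX.Ends]

/-- **(S-TR) for all small `ep`** from the state sum of every sequence of contents and (H3) -/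
theorem str_of_seq (hFF : FFth) {SB : SeaCB} {c2 : ℝ} (hc2 : 0 < c2)
    (hw : ∀ m h, HtS h → @Cv.eta (S m h) = fun _ => 0)
    (hcur : ∀ ep e1 J : ℝ, 0 < ep → 0 < e1 → e1 ≤ 1 / 100 → 0 ≤ J → ∀ᶠ m : ℕ in atTop, ∀ h, HtS h →
      CurB ep (@Cv.etaC (S m h) e1 J m m) (@Cv.etaC' (S m h) e1 J m m))
    (hD : ∀ m h, HtS h → ∀ η : ℝ → ℝ, @dsp (S m h) _ η = dF η)
    (hD1 : ∀ m h, HtS h → ∀ η η1 : ℝ → ℝ, @dsp1 (S m h) _ η η1 = dF η1)
    (hL : UXC (famLI S) par6) (hS : ∀ h : ℕ → ℕ → ℝ, (∀ m, HtS (h m)) → SeqI h)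
    (h3 : Sm3 (H3S S c2)) : Sm3 fun ep _ _ => StrO ep :=
  str_all hFF (SB := SB) (c1 := 1 / 4) (by norm_num) hc2 hw hcur hD hD1 hL
    (h1S_of hFF hS (curI_of hcur) (by norm_num)) (hmS_of hFF (curI_of hcur)) (h2S_of hFF hS (curI_of hcur)) h3

end PLT.St

end
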