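import Pool.Agent.PLT.RV
import Pool.Agent.PLT.SMF
import Pool.Agent.PLT.TRG0

/-!
# (S-TR), rows STR.P, STR.MF: the sea and the mean field of the rows

* **`seaR_rhoI`**: `SeaR (-b) b c C m (rhoI x)`, uniform in `m` and `x`;
* `EMI_ne` (`exp (-κvI x τ) = EMI x τ` is `exp_κvI` of `PLT/SFin`).
-/

set_option autoImplicit false
set_option linter.unusedSectionVars false

noncomputable section

open Complex MeasureTheory
open PLX (Fil)

namespace PLT.St

open PBForce (Rws0)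

variable {m : ℕ}

theorem rhoI_rows (x : Fin m → ℂ) : rhoI x = RT.rowsD x := rfl

theorem axR_of {x : Fin m → ℂ} (h : Rws0 x) : RT.AxR x := fun i => ⟨h.re i, h.im i⟩

/-- **the sea of the rows**, uniform -/
theorem seaR_rhoI {b : ℝ} (h0 : 0 < b) (hb : b < NUMF.l) : ∃ c C : ℝ, 0 < c ∧ c ≤ 1 ∧ 0 ≤ C ∧
    ∀ (m : ℕ) (x : Fin m → ℂ), 0 < m → Rws0 x → RT.SeaR (-b) b c C m (rhoI x) := by
  obtain ⟨c, C, h1, h2, h3, H⟩ := RT.seaR_axis h0 hb
  exact ⟨c, C, h1, h2, h3, fun m x hm h => H m x hm (axR_of h)⟩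

theorem EMI_ne [Fil] {x : Fin m → ℂ} (h : Rws0 x) (τ : ℝ × ℝ) : EMI x τ ≠ 0 := by
  have e : Complex.exp (-κvI x τ) = EMI x τ := RT.exp_kapR (fun i => by
    rw [h.re i, abs_zero]
    exact NUP1.l_pos) τ
  rw [← e]
  exact Complex.exp_ne_zero _

end PLT.St

end
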