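import Pool.Agent.PLT.SFin

/-!
# (S-TR), rows on the imaginary axis: integrability at the left end (helper71)

* **`pii_of`**: `PII` eventually, for every index of the window, from the upper bound of the family `famVI S`.
-/

set_option autoImplicit false
set_option linter.unusedSectionVars false
set_option linter.unusedVariables false

noncomputable section

open Complex MeasureTheory Set Filter Topology
open PLX (Fil)

namespace PLT.St

open NUCR (CurB)
open PHK (par6)
open PBF.PLX (MCr)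
open PBForce (Rws0)

variable [Fil]

/-- **integrability at the left end**, every index of the window -/
theorem pii_of (S : ℕ → (ℕ → ℝ) → SeaC) {p : ℕ} {K ε ep e1 J : ℝ} (hK : 1 ≤ K)
    (hU : UBC (famVI S) par6 ep e1 J p K ε)
    (hd : ∀ m h, HtS h → Integrable fun t : ℝ => @Cv.Pc (S m h) t)
    (hcur : ∀ᶠ m : ℕ in atTop, ∀ h, HtS h →
      CurB ep (@Cv.etaC (S m h) e1 J m m) (@Cv.etaC' (S m h) e1 J m m))
    (hD : ∀ m h, HtS h → @dsp (S m h) _ (@Cv.etaC (S m h) e1 J m m) = dF (@Cv.etaC (S m h) e1 J m m))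
    (hD1 : ∀ m h, HtS h → @dsp1 (S m h) _ (@Cv.etaC (S m h) e1 J m m) (@Cv.etaC' (S m h) e1 J m m) =
      dF (@Cv.etaC' (S m h) e1 J m m)) :
    ∀ᶠ m : ℕ in atTop, ∀ h τ, okI m (h, τ) →
      PII ep (xI m h) (crI S e1 J m h) (crI' S e1 J m h) τ := by
  obtain ⟨m0, h0⟩ := hU.mass (fun m i hi => hd m i.1 hi.1) hK
  filter_upwards [hcur, eventually_ge_atTop m0] with m g1 hm h τ hok
  have hcB := g1 h hok.1
  exact SW.PI_of (F := famVI S) (m := m) (i := (h, τ)) (hD m h hok.1) (hD1 m h hok.1)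
    (fun s k => meas_ZvI ep (rws_of (rws0_xI hok.1 m)) τ s k) (mcr_of hcB)
    (lt_of_le_of_lt (h0 m hm (h, τ) hok) ENNReal.ofReal_lt_top)

end PLT.St

end
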