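import Pool.Agent.PHK.TRsW6
import Pool.Agent.PHK.FNeq6

/-!
# (S-TR): regular function = dislocated function times the exponential of the logarithms, any rows

Data `D : RU m M` with ends `0`, any rows, any cutoffs.

* `ZLD D z`: one body functions of the dislocated function, legs at `z`, with the rows, constants and cutoffs of `D`;
* **`RZW_eq`**: `RZW D w w' b k u = sgk k * ZLD D (zz w w') b k u * exp (DT w w' b k u)` in the windows `At6`;
* **`FF_RZW'`**, **`FF_RZW`**: `FF6 (RZW D w w') P n (n + e) = (-1) ^ e * FF6 (expZ (ZLD ..) (DT w w') 1) ..`.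
-/

set_option autoImplicit false
set_option linter.unusedSectionVars false
set_option linter.unusedVariables false

noncomputable section

open Complex MeasureTheory Finset
open scoped ENNReal
open PLX (Fil)

namespace PLT.SW

open NUO NUP1 NUCR NUP1S NUP1S.Ab NUP1S.AbC NUGC NUGC.PLX PHK
open NUP1 (l vl)
open NUP1.Leg (Ck Dk thE)
open NURow (CC DD)
open PBX (Lg thS ph)
open PBF.PLX (Ins Crs Zm quF expZ)
open PBT3 (zz)
open PBR.PLX (RZW)
open PBTs.PLX (DT sgk sgF At6 XXU_ratio6 obK6_congr FF_sgn6 FF_congrZ6 at_A6)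
open Pool.Agent.PLX (RU XXU)

variable {m M : ℕ}

/-- one body functions of the dislocated function with the rows, constants and cutoffs of `D`, legs at `z` -/
def ZLD (D : RU m M) (z : ℂ) : Bool → Option O3 → ℂ → ℂ
  | true => XXU D.c D.β D.x D.y D.g D.g0 (Lg z z) (fun u => Lg z z u * Lg z z (u - l))
  | false => XXU D.c' D.β D.y D.x D.g' D.g0' (Lg z z) (fun u => Lg z z u * Lg z z (u - l))

section

variable {w w' : ℂ} (hw : w.re = 5 / 4 * l) (hw' : w'.re = 5 / 4 * l)
include hw hw'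

/-- **regular = legs times the exponential of the logarithms** -/
theorem RZW_eq [Fil] {D : RU m M} (hp : D.p = 0) (hq : D.q = 0) (b : Bool) {k : Option O3} {u : ℂ}
    (hu : At6 k u) : RZW D w w' b k u = sgk k * ZLD D (zz w w') b k u * exp (DT w w' b k u) := by
  cases b
  · have h := XXU_ratio6 hw' hw D.c' D.β D.y D.x D.g' D.g0' hu
    rw [PBTD.zz_comm w' w] at h
    refine Eq.trans ?_ h
    have e0 : RZW D w w' false k u = D.Ys (fun u => Dk (w - u) * Ck (w' - u))
        (fun u => DD (w - u) * CC (w' - u)) k u :=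
      congrFun (congrFun (_root_.Pool.Agent.PLX.ryWW D w w').symm k) u
    rw [e0]
    unfold RU.Ys
    rw [hp, hq]
    have e1 : (fun u => thE 0 0 0 0 u * (Dk (w - u) * Ck (w' - u))) =
        fun u => thE 0 0 0 0 u * (Ck (w' - u) * Dk (w - u)) := by
      funext v
      ring
    have e2 : (fun u => thS 0 0 0 0 u * (DD (w - u) * CC (w' - u))) =
        fun u => thS 0 0 0 0 u * (CC (w' - u) * DD (w - u)) := by
      funext v
      ring
    rw [e1, e2]
  · have e0 : RZW D w w' true k u = D.Xs (fun u => Ck (w - u) * Dk (w' - u))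
        (fun u => CC (w - u) * DD (w' - u)) k u :=
      congrFun (congrFun (_root_.Pool.Agent.PLX.rxWW D w w').symm k) u
    rw [e0]
    unfold RU.Xs
    rw [hp, hq]
    exact XXU_ratio6 hw hw' D.c D.β D.x D.y D.g D.g0 hu

theorem RZW_pt [Fil] {D : RU m M} (hp : D.p = 0) (hq : D.q = 0) (b : Bool) {k : Option O3} {u : ℂ}
    (hu : At6 k u) :
    RZW D w w' b k u = Zm (expZ (ZLD D (zz w w')) (DT w w') 1) sgF b k u := by
  rw [RZW_eq hw hw' hp hq b hu]
  unfold PBF.PLX.Zm PBF.PLX.expZ sgF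
  rw [one_mul]
  ring

variable {P : Par6} (hP : GoodP6 P) {n n' : ℕ} {η η' : Crs}
include hP

theorem FF_RZW' [Fil] {D : RU m M} (hp : D.p = 0) (hq : D.q = 0)
    (hη : ∀ r ≤ 2 * (n + n'), ∀ᵐ O ∂(Measure.pi fun _ : Fin r => nu), ∀ t, |η r O t| ≤ NUP1.l / 5)
    (Ψ : Ins) : FF6 (RZW D w w') P n n' η η' Ψ =
      (-1) ^ (n + n') * FF6 (expZ (ZLD D (zz w w')) (DT w w') 1) P n n' η η' Ψ := by
  rw [← FF_sgn6]
  refine FF_congrZ6 Ψ (fun r hr => ?_) fun x =>
    obK6_congr hP (fun b _ _ hu => RZW_pt hw hw' hp hq b hu) x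
  filter_upwards [hη r hr] with O hO
  exact fun s t => RZW_pt hw hw' hp hq s (at_A6 (Fil.abs_cv_le_of (hO t)))

/-- **regular functional = functional of the family at `s = 1`**, numbers `n`, `n + e` -/
theorem FF_RZW [Fil] {D : RU m M} (hp : D.p = 0) (hq : D.q = 0) (e : ℕ)
    (hη : ∀ r ≤ 2 * (n + (n + e)), ∀ᵐ O ∂(Measure.pi fun _ : Fin r => nu),
      ∀ t, |η r O t| ≤ NUP1.l / 5)
    (Ψ : Ins) : FF6 (RZW D w w') P n (n + e) η η' Ψ =
      (-1) ^ e * FF6 (expZ (ZLD D (zz w w')) (DT w w') 1) P n (n + e) η η' Ψ := by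
  rw [FF_RZW' hw hw' hP hp hq hη Ψ, ← add_assoc, pow_add, Even.neg_one_pow ⟨n, rfl⟩, one_mul]

/-- the sum over the numbers of quanta -/
theorem sum_RZW [Fil] {D : RU m M} (hp : D.p = 0) (hq : D.q = 0) (e T : ℕ) (η η' : ℕ → Crs)
    (hη : ∀ n ≤ T, ∀ r, ∀ O : Fin r → Xo, ∀ t, |η n r O t| ≤ NUP1.l / 5) (Ψ : ℕ → Ins) :
    ∑ n ∈ Finset.range (T + 1), FF6 (RZW D w w') P n (n + e) (η n) (η' n) (Ψ n) =
      (-1) ^ e * ∑ n ∈ Finset.range (T + 1),
        FF6 (expZ (ZLD D (zz w w')) (DT w w') 1) P n (n + e) (η n) (η' n) (Ψ n) := by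
  rw [Finset.mul_sum]
  refine Finset.sum_congr rfl fun n hn => ?_
  have hn' : n ≤ T := by
    have := Finset.mem_range.1 hn
    omega
  exact FF_RZW hw hw' hP hp hq e (fun r _ => Filter.Eventually.of_forall fun O => hη n hn' r O) (Ψ n)

end

/-! ### rows `(x | yq x)` -/

section fil

variable [Fil]

open _root_.Pool.Agent.PLX (yq rwq)

/-- the class functions of the dislocated function -/
theorem ZLD_ZQ6 (c : Bool → ℂ) (g0 : Bool → ℂ → ℂ) (β : ℝ) (x : Fin m → ℂ) (ex : Bool → List ℂ) (p q z : ℂ) :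
    ZLD ⟨c true, c false, β, x, yq x, p, q, PBX.gP β (ex true), PBX.gP β (ex false), g0 true, g0 false⟩ z =
      ZQ6 c g0 β x ex z := by
  funext b
  cases b <;> rfl

end fil

end PLT.SW

end
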