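import Pool.Agent.PLT.RV
import Pool.Agent.PHK.TRsW6

/-!
# (S-TR), row STR.W: the class `W W` of the regular function at rows on the axis (helper25)

Twin of `PHK/TRsW6` over the record `RI ep x` (any rows `x`, ends `0`).

* **`RZW_I`**: `RZW (RI ep x) (wt τ.1) (wt τ.2) b k u = sgk k * ZvI ep x τ b k u * exp (Dv τ b k u)`;
* **`FF_WI`**: the functional of the regular function is `(-1) ^ Fil.xn m` times the functional of
  `expZ (ZvI ep x τ) (Dv τ) 1`; `FWI_eq`, `SRI_eq`: the class `W W` and its sum.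
-/

set_option autoImplicit false
set_option linter.unusedSectionVars false
set_option linter.unusedVariables false

noncomputable section

open Complex MeasureTheory Finset
open PLX (Fil)

namespace PLT.St

open NUO NUP1 NUCR NUP1S NUP1S.Ab NUP1S.AbC NUGC NUGC.PLX PHK
open PBF.PLX (Ins Crs Zm expZ)
open NUP1.Leg (Ck Dk thE)
open NURow (CC DD)
open PBTV.PLX (wa wb Dv)
open PBX (Lg thS ph)
open PBTs.PLX (DT XXU_ratio6 sgk At6 sgF obK6_congr FF_sgn6 FF_congrZ6 at_A6)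
open PBR.PLX (RZW)
open _root_.Pool.Agent.PLX (yq rwq RU XXU)

variable {m : ℕ} [Fil]

/-- the legs in terms of the half quanta -/
theorem ZvI_zz (ep : ℝ) (x : Fin m → ℂ) (τ : ℝ × ℝ) (a : Bool) : ZvI ep x τ a =
    XXU (NUP1.Leg.cc (Nq m a)) (4 / 3 * (1 - ep)) (rwq x a) (rwq x !a)
      (PBX.gP (4 / 3 * (1 - ep)) [I, -I]) (gI x a) (Lg (PBT3.zz (PBT3.wt τ.1) (PBT3.wt τ.2))
        (PBT3.zz (PBT3.wt τ.1) (PBT3.wt τ.2)))
      (fun u => Lg (PBT3.zz (PBT3.wt τ.1) (PBT3.wt τ.2)) (PBT3.zz (PBT3.wt τ.1) (PBT3.wt τ.2)) u *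
        Lg (PBT3.zz (PBT3.wt τ.1) (PBT3.wt τ.2)) (PBT3.zz (PBT3.wt τ.1) (PBT3.wt τ.2)) (u - NUP1.l)) :=
  rfl

theorem wt_re (t : ℝ) : (PBT3.wt t).re = 5 / 4 * NUP1.l := by
  unfold PBT3.wt
  simp

/-- **regular = legs times the exponential of the logarithms** -/
theorem RZW_I (ep : ℝ) (x : Fin m → ℂ) (τ : ℝ × ℝ) (b : Bool) {k : Option O3} {u : ℂ}
    (hu : At6 k u) :
    RZW (RI ep x) (PBT3.wt τ.1) (PBT3.wt τ.2) b k u = sgk k * ZvI ep x τ b k u * exp (Dv τ b k u) := by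
  have hw := wt_re τ.1
  have hw' := wt_re τ.2
  cases b
  · have h := XXU_ratio6 hw' hw (NUP1.Leg.cc (Fil.q * m)) (NUGC.PLX.beC ep) (yq x) x
      (PBX.gP (NUGC.PLX.beC ep) [I, -I]) (gI x false) hu
    have e1 : (fun u => Dk (PBT3.wt τ.1 - u) * Ck (PBT3.wt τ.2 - u)) =
        fun u => Ck (PBT3.wt τ.2 - u) * Dk (PBT3.wt τ.1 - u) := by
      funext v
      ring
    have e2 : (fun u => DD (PBT3.wt τ.1 - u) * CC (PBT3.wt τ.2 - u)) =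
        fun u => CC (PBT3.wt τ.2 - u) * DD (PBT3.wt τ.1 - u) := by
      funext v
      ring
    have e0 : RZW (RI ep x) (PBT3.wt τ.1) (PBT3.wt τ.2) false =
        (RI ep x).Ys (fun u => Dk (PBT3.wt τ.1 - u) * Ck (PBT3.wt τ.2 - u))
          (fun u => DD (PBT3.wt τ.1 - u) * CC (PBT3.wt τ.2 - u)) :=
      (_root_.Pool.Agent.PLX.ryWW (RI ep x) (PBT3.wt τ.1) (PBT3.wt τ.2)).symm
    rw [e0, e1, e2]
    refine Eq.trans ?_ (h.trans ?_)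
    · rfl
    · rw [ZvI_zz, PBTD.zz_comm (PBT3.wt τ.1) (PBT3.wt τ.2)]
      rfl
  · have e0 : RZW (RI ep x) (PBT3.wt τ.1) (PBT3.wt τ.2) true =
        (RI ep x).Xs (fun u => Ck (PBT3.wt τ.1 - u) * Dk (PBT3.wt τ.2 - u))
          (fun u => CC (PBT3.wt τ.1 - u) * DD (PBT3.wt τ.2 - u)) :=
      (_root_.Pool.Agent.PLX.rxWW (RI ep x) (PBT3.wt τ.1) (PBT3.wt τ.2)).symm
    rw [e0]
    exact XXU_ratio6 hw hw' (NUP1.Leg.cc m) (NUGC.PLX.beC ep) x (yq x)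
      (PBX.gP (NUGC.PLX.beC ep) [I, -I]) (gI x true) hu

theorem RZW_pt (ep : ℝ) (x : Fin m → ℂ) (τ : ℝ × ℝ) (b : Bool) {k : Option O3} {u : ℂ}
    (hu : At6 k u) :
    RZW (RI ep x) (PBT3.wt τ.1) (PBT3.wt τ.2) b k u =
      Zm (expZ (ZvI ep x τ) (Dv τ) 1) sgF b k u := by
  rw [RZW_I ep x τ b hu]
  unfold PBF.PLX.Zm PBF.PLX.expZ sgF
  rw [one_mul]
  ring

theorem RZW_obK (ep : ℝ) (x : Fin m → ℂ) (τ : ℝ × ℝ) {P : Par6} (hP : GoodP6 P) (X : Xo) :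
    obK6 (RZW (RI ep x) (PBT3.wt τ.1) (PBT3.wt τ.2)) P X =
      obK6 (Zm (expZ (ZvI ep x τ) (Dv τ) 1) sgF) P X :=
  obK6_congr hP (fun b _ _ hu => RZW_pt ep x τ b hu) X

/-- any numbers -/
theorem FF_WI' {P : Par6} (hP : GoodP6 P) {n n' : ℕ} {η η' : Crs} (ep : ℝ) (x : Fin m → ℂ) (τ : ℝ × ℝ)
    (hη : ∀ r ≤ 2 * (n + n'), ∀ᵐ O ∂(Measure.pi fun _ : Fin r => nu), ∀ t, |η r O t| ≤ NUP1.l / 5)
    (Ψ : Ins) : FF6 (RZW (RI ep x) (PBT3.wt τ.1) (PBT3.wt τ.2)) P n n' η η' Ψ =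
      (-1) ^ (n + n') * FF6 (expZ (ZvI ep x τ) (Dv τ) 1) P n n' η η' Ψ := by
  rw [← FF_sgn6]
  refine FF_congrZ6 Ψ (fun r hr => ?_) fun X => RZW_obK ep x τ hP X
  filter_upwards [hη r hr] with O hO
  exact fun s t => RZW_pt ep x τ s (at_A6 (Fil.abs_cv_le_of (hO t)))

/-- **regular functional = functional of the family at `s = 1`**, numbers `n`, `n + Fil.xn m` -/
theorem FF_WI {P : Par6} (hP : GoodP6 P) {n : ℕ} {η η' : Crs} (ep : ℝ) (x : Fin m → ℂ) (τ : ℝ × ℝ)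
    (hη : ∀ r ≤ 2 * (n + (n + Fil.xn m)), ∀ᵐ O ∂(Measure.pi fun _ : Fin r => nu),
      ∀ t, |η r O t| ≤ NUP1.l / 5)
    (Ψ : Ins) : FF6 (RZW (RI ep x) (PBT3.wt τ.1) (PBT3.wt τ.2)) P n (n + Fil.xn m) η η' Ψ =
      (-1) ^ Fil.xn m * FF6 (expZ (ZvI ep x τ) (Dv τ) 1) P n (n + Fil.xn m) η η' Ψ := by
  rw [FF_WI' hP ep x τ hη Ψ, ← add_assoc, pow_add, Even.neg_one_pow ⟨n, rfl⟩, one_mul]

/-- the class `W W` at one number of quanta -/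
theorem FWI_eq {n : ℕ} {η η' : Crs} (ep : ℝ) (x : Fin m → ℂ) (τ : ℝ × ℝ)
    (hη : ∀ r ≤ 2 * (n + (n + Fil.xn m)), ∀ᵐ O ∂(Measure.pi fun _ : Fin r => nu),
      ∀ t, |η r O t| ≤ NUP1.l / 5) :
    FWI ep x n η η' τ = (-1) ^ Fil.xn m *
      FF6 (expZ (ZvI ep x τ) (Dv τ) 1) par6 n (n + Fil.xn m) η η' (fun _ _ _ _ _ => 1) :=
  FF_WI par6_good ep x τ hη _

/-- **the class `W W`, summed over the numbers, with its sign** -/
theorem SRI_eq {η η' : Crs} (ep : ℝ) (x : Fin m → ℂ) (τ : ℝ × ℝ)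
    (hη : ∀ r ≤ 2 * (2 * m + (2 * m + Fil.xn m)), ∀ᵐ O ∂(Measure.pi fun _ : Fin r => nu),
      ∀ t, |η r O t| ≤ NUP1.l / 5) :
    SRI ep x η η' τ = ∑ n ∈ range (2 * m + 1),
      FF6 (expZ (ZvI ep x τ) (Dv τ) 1) par6 n (n + Fil.xn m) η η' (fun _ _ _ _ _ => 1) := by
  unfold SRI
  rw [Finset.mul_sum]
  refine Finset.sum_congr rfl fun n hn => ?_
  have hn' := Finset.mem_range.1 hn
  rw [FWI_eq ep x τ fun r hr => hη r (by omega), ← mul_assoc, ← pow_add, ← two_mul,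
    pow_mul, neg_one_sq, one_pow, one_mul]

end PLT.St

end
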