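import Pool.Agent.PLT.Scal

/-!
# Scaling of a curve with `t η'(t) ≥ - (l / 8 + l / 200)`

* **`scH`**: `η ((1 - ε) t) ≤ η t + ε l / 7` for `0 ≤ ε ≤ 1 / 8`.
-/

set_option autoImplicit false

noncomputable section

open MeasureTheory Set Filter Topology

namespace PLT

open NUMF

/-- `- log (1 - x) ≤ (1 + 1/16 + 1/56) x` on `[0, 1/8]` -/
theorem neg_log_le8 {x : ℝ} (h0 : 0 ≤ x) (h1 : x ≤ 1 / 8) :
    -Real.log (1 - x) ≤ (1 + 1 / 16 + 1 / 56) * x := by
  have h := Real.abs_log_sub_add_sum_range_le (x := x) (by rw [abs_of_nonneg h0]; linarith) 2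
  rw [abs_of_nonneg h0] at h
  have h2 := (abs_le.1 h).1
  simp only [Finset.sum_range_succ, Finset.sum_range_zero] at h2
  norm_num at h2
  have h3 : x ^ 3 / (1 - x) ≤ 1 / 56 * x := by
    rw [div_le_iff₀ (by linarith)]
    nlinarith [mul_nonneg h0 h0, mul_nonneg h0 (by linarith : (0 : ℝ) ≤ 1 / 8 - x),
      mul_nonneg (mul_nonneg h0 h0) (by linarith : (0 : ℝ) ≤ 1 / 8 - x)]
  have h4 : x ^ 2 / 2 ≤ 1 / 16 * x := by nlinarith
  linarith

/-- **scaling condition** of any curve -/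
theorem scH {η : ℝ → ℝ} (hd : Differentiable ℝ η)
    (hM : ∀ t, -(l / 8 + l / 200) ≤ t * deriv η t) {ε : ℝ} (h0 : 0 ≤ ε) (h1 : ε ≤ 1 / 8) (t : ℝ) :
    η ((1 - ε) * t) ≤ η t + ε * l / 7 := by
  have hl := l_pos'
  obtain ⟨M, hM0⟩ : ∃ M : ℝ, M = l / 8 + l / 200 := ⟨_, rfl⟩
  have hd' : ∀ x ∈ Icc (1 - ε) 1, HasDerivAt (fun x => η (x * t) + M * Real.log x)
      (deriv η (x * t) * t + M * x⁻¹) x := by
    intro x hx
    have hx0 : 0 < x := by linarith [hx.1]
    have g1 : HasDerivAt (fun x => η (x * t)) (deriv η (x * t) * (1 * t)) x :=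
      (hd (x * t)).hasDerivAt.comp x ((hasDerivAt_id x).mul_const t)
    rw [one_mul] at g1
    exact g1.add ((Real.hasDerivAt_log hx0.ne').const_mul M)
  have hm : MonotoneOn (fun x => η (x * t) + M * Real.log x) (Icc (1 - ε) 1) := by
    refine monotoneOn_of_deriv_nonneg (convex_Icc _ _)
      (fun x hx => (hd' x hx).continuousAt.continuousWithinAt)
      (fun x hx => ?_) fun x hx => ?_
    · rw [interior_Icc] at hx
      exact (hd' x ⟨hx.1.le, hx.2.le⟩).differentiableAt.differentiableWithinAt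
    · rw [interior_Icc] at hx
      rw [(hd' x ⟨hx.1.le, hx.2.le⟩).deriv]
      have hx0 : 0 < x := by linarith [hx.1]
      have h2 := hM (x * t)
      have e : deriv η (x * t) * t + M * x⁻¹ = (x * t * deriv η (x * t) + M) / x := by
        field_simp
      rw [e]
      exact div_nonneg (by linarith) hx0.le
  have h3 := hm ⟨le_rfl, by linarith⟩ ⟨by linarith, le_rfl⟩ (by linarith : 1 - ε ≤ 1)
  simp only [one_mul, Real.log_one, mul_zero, add_zero] at h3
  have h4 := neg_log_le8 h0 h1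
  have h5 : M * (-Real.log (1 - ε)) ≤ M * ((1 + 1 / 16 + 1 / 56) * ε) :=
    mul_le_mul_of_nonneg_left h4 (by rw [hM0]; linarith)
  rw [hM0] at h3 h5
  have h6 : 0 ≤ l * ε := mul_nonneg hl.le h0
  nlinarith

end PLT

end
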