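import Pool.Agent.PLT.SeaC
import Pool.Agent.NUAct.OCw

/-!
# Displacements of the static curve: Taylor bounds for the density

`Cv.zt δ t = ga t + δ t`, `Cv.zd δ1 t = ga' t + δ1 t`; `Cv.Disp s ε M R δ δ1 δ2`; balls of radius `B.r`.
* `Pn_bd`, `tay1`, `tay2`: derivatives of `Pc` near the curve; `Pr_OC`, `P_OC`, `inv_OC`;
* `Bf s δ δ1 = s (Pc (zt) zd - P)`, `af s δ δ1 = (s Pc(ga) δ)'`, `Br = Bf - af`; **`dens_bd`, `Br_OC`, `af_OC`**.
-/

set_option autoImplicit false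
set_option linter.unusedSectionVars false
set_option linter.unusedVariables false

open MeasureTheory Set Filter Topology Complex
open scoped ContDiff

namespace PLT.Cv

open NUMF (l l_pos)
open NUAct (OC OC_of_iter)

noncomputable section

/-! ### the curve -/

section

variable [SeaC]

/-- second derivative of the curve -/
def ga2 (t : ℝ) : ℂ := iteratedDeriv 2 eta t * I

lemma eta_smooth' : ContDiff ℝ ∞ (deriv eta) := by
  have h1 : ContDiff ℝ (∞ + 1) eta := eta_smooth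
  exact (contDiff_succ_iff_deriv.1 h1).2.2

lemma hasDerivAt_ga' (t : ℝ) : HasDerivAt ga' (ga2 t) t := by
  have h1 : HasDerivAt (deriv eta) (iteratedDeriv 2 eta t) t := by
    have h2 := (eta_smooth'.differentiable (by simp) t).hasDerivAt
    rwa [iteratedDeriv_succ, iteratedDeriv_one]
  exact (h1.ofReal_comp.mul_const I).const_add 1

lemma continuous_ga2 : Continuous ga2 := by
  unfold ga2
  have h1 : Continuous (iteratedDeriv 2 eta) := by
    rw [iteratedDeriv_succ, iteratedDeriv_one]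
    exact eta_smooth'.continuous_deriv (by simp)
  exact (Complex.continuous_ofReal.comp h1).mul continuous_const

end

lemma exp32_le (t : ℝ) : Real.exp (-(32 / 3) * |t|) ≤ 1 := by
  rw [Real.exp_le_one_iff]
  have := abs_nonneg t
  linarith

/-- the slope and its derivatives, weighted -/
theorem eta'_OC (B : SeaCB) (j : ℕ) : ∃ C : ℝ, 0 < C ∧ ∀ [SeaC] [SeaCU B],
    OC j (fun t => C * Real.exp (-(32 / 3) * |t|)) fun t => ((deriv eta t : ℝ) : ℂ) := by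
  refine ⟨1 + ∑ k ∈ Finset.range (j + 2), B.Ce k, ?_, @fun _ hS => ?_⟩
  · have := Finset.sum_nonneg fun k (_ : k ∈ Finset.range (j + 2)) => B.Ce0 k
    linarith
  refine OC_of_iter (eta_smooth'.of_le (by exact_mod_cast le_top)) fun k hk t => ?_
  rw [← iteratedDeriv_succ']
  refine (SeaCU.cur (B := B) (k + 1) t (by omega)).trans
    (mul_le_mul_of_nonneg_right ?_ (Real.exp_pos _).le)
  have h1 := Finset.single_le_sum (f := B.Ce) (fun i _ => B.Ce0 i)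
    (Finset.mem_range.2 (by omega : k + 1 < j + 2))
  linarith

theorem ga'_OC (B : SeaCB) (j : ℕ) : ∃ C : ℝ, 1 ≤ C ∧ ∀ [SeaC] [SeaCU B],
    OC j (fun _ => C) ga' := by
  obtain ⟨C, hC, H⟩ := eta'_OC B j
  refine ⟨1 + C, by linarith, @fun _ hS => ?_⟩
  have h1 := (OC.const j (e := fun _ => (1:ℝ)) (c := 1) (by simp)).add
    ((@H _ hS).smul I)
  refine (h1.mono fun t => ?_).congr fun t => ?_
  · rw [Complex.norm_I, one_mul]
    have := exp32_le t
    nlinarith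
  · unfold ga'
    ring

theorem ga2_bd (B : SeaCB) : ∃ C : ℝ, 1 ≤ C ∧ ∀ [SeaC] [SeaCU B], ∀ t, ‖ga2 t‖ ≤ C := by
  obtain ⟨C, hC, H⟩ := ga'_OC B 1
  refine ⟨C, hC, @fun _ hS t => ?_⟩
  obtain ⟨-, f', h1, h2⟩ := @H _ hS
  have e : f' t = ga2 t := (h1 t).unique (hasDerivAt_ga' t)
  rw [← e]
  exact h2.le t

/-! ### balls around the curve -/

lemma h_small (B : SeaCB) : B.h ≤ 1 / 20 := by
  have h1 := B.h1
  have : l / 40 ≤ 1 / 20 := by
    unfold NUMF.l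
    have := Real.pi_le_four
    linarith
  linarith

lemma r_small (B : SeaCB) : B.r ≤ 1 / 20 := B.rh.trans (h_small B)

lemma ball_strip (B : SeaCB) [SeaC] [SeaCU B] {t : ℝ} {w : ℂ} (hw : ‖w - ga t‖ ≤ B.r) :
    -B.h ≤ w.im ∧ w.im ≤ l / 7 := by
  have h1 := Complex.abs_im_le_norm (w - ga t)
  rw [Complex.sub_im, ga_im] at h1
  have h2 := abs_le.1 (h1.trans hw)
  have h3 := eta_lo B t
  have h4 := eta_le t
  have h5 := B.h1
  have h6 := l_pos
  have h7 := B.rd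
  have h8 := B.rh
  constructor <;> linarith [h2.1, h2.2]

lemma ball_strip' (B : SeaCB) [SeaC] [SeaCU B] {t : ℝ} {w : ℂ} (hw : ‖w - ga t‖ ≤ B.r) :
    -(2 * B.h) < w.im ∧ w.im < l / 2 := by
  have h1 := ball_strip B hw
  have h2 := B.h0
  have h3 := l_pos
  constructor <;> linarith [h1.1, h1.2]

lemma ball_strip4 (B : SeaCB) [SeaC] [SeaCU B] {t : ℝ} {w : ℂ} (hw : ‖w - ga t‖ ≤ B.r) :
    -B.h ≤ w.im ∧ w.im ≤ l / 4 := by
  have h1 := ball_strip B hw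
  have h3 := l_pos
  exact ⟨h1.1, h1.2.trans (by linarith)⟩

/-- all derivatives of the density are `O(P t)` near the curve -/
theorem Pn_bd (B : SeaCB) (n : ℕ) : ∃ C : ℝ, 0 < C ∧ ∀ [SeaC] [SeaCU B], ∀ (t : ℝ) (z : ℂ),
    ‖z‖ ≤ B.r → ‖iteratedDeriv n Pc (ga t + z)‖ ≤ C * P t := by
  obtain ⟨C, hC0, hC⟩ := Pc_deriv_P B n
  obtain ⟨C', hC'0, hC'⟩ := P_near B
  refine ⟨(C + 1) * C', by positivity, @fun _ hS t z hz => ?_⟩
  have h0 := ball_strip4 B (t := t) (w := ga t + z) (by rwa [add_sub_cancel_left])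
  have h2 := Complex.abs_re_le_norm z
  have h3 := r_small B
  have h4 := hC (ga t + z) h0.1 h0.2
  have h5 := hC' t (ga t + z).re (by
    have e : (ga t + z).re - t = z.re := by simp
    rw [e]; linarith)
  have hp := (P_pos B (ga t + z).re).le
  have hp' := (P_pos B t).le
  calc _ ≤ C * P (ga t + z).re := h4
    _ ≤ (C + 1) * (C' * P t) := by
        refine mul_le_mul (by linarith) h5 hp (by linarith)
    _ = _ := by ring

/-- first order -/
theorem tay1 (B : SeaCB) (n : ℕ) : ∃ C : ℝ, 0 < C ∧ ∀ [SeaC] [SeaCU B], ∀ (t : ℝ) (z : ℂ),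
    ‖z‖ ≤ B.r → ‖iteratedDeriv n Pc (ga t + z) - iteratedDeriv n Pc (ga t)‖ ≤ C * P t * ‖z‖ := by
  obtain ⟨C, hC0, hC⟩ := Pn_bd B (n + 1)
  refine ⟨C, hC0, @fun _ hS t z hz => ?_⟩
  have h1 := Convex.norm_image_sub_le_of_norm_hasDerivWithin_le (f := iteratedDeriv n Pc)
    (f' := iteratedDeriv (n + 1) Pc) (C := C * P t) (s := Metric.closedBall (ga t) B.r)
    (x := ga t) (y := ga t + z)
    (fun w hw => by
      have h2 := ball_strip' B (t := t) (w := w) (by simpa [dist_eq_norm] using hw)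
      exact (hasDerivAt_iter B n h2.1 h2.2).hasDerivWithinAt)
    (fun w hw => by
      have := hC t (w - ga t) (by simpa [dist_eq_norm] using hw)
      rwa [add_sub_cancel] at this)
    (convex_closedBall _ _) (by simpa using B.r0.le) (by simpa using hz)
  rwa [add_sub_cancel_left] at h1

/-- second order -/
theorem tay2 (B : SeaCB) (n : ℕ) : ∃ C : ℝ, 0 < C ∧ ∀ [SeaC] [SeaCU B], ∀ (t : ℝ) (z : ℂ),
    ‖z‖ ≤ B.r → ‖iteratedDeriv n Pc (ga t + z) - iteratedDeriv n Pc (ga t) -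
      iteratedDeriv (n + 1) Pc (ga t) * z‖ ≤ C * P t * ‖z‖ ^ 2 := by
  obtain ⟨C, hC0, hC⟩ := tay1 B (n + 1)
  refine ⟨C, hC0, @fun _ hS t z hz => ?_⟩
  have hp := (P_pos B t).le
  have h1 := Convex.norm_image_sub_le_of_norm_hasDerivWithin_le
    (f := fun w => iteratedDeriv n Pc w - iteratedDeriv (n + 1) Pc (ga t) * w)
    (f' := fun w => iteratedDeriv (n + 1) Pc w - iteratedDeriv (n + 1) Pc (ga t))
    (C := C * P t * ‖z‖) (s := Metric.closedBall (ga t) ‖z‖)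
    (x := ga t) (y := ga t + z)
    (fun w hw => by
      have hw' : ‖w - ga t‖ ≤ ‖z‖ := by simpa [dist_eq_norm] using hw
      have h0 := ball_strip' B (t := t) (w := w) (hw'.trans hz)
      have h2 := hasDerivAt_iter B n h0.1 h0.2
      have h3 := (hasDerivAt_id w).const_mul (iteratedDeriv (n + 1) Pc (ga t))
      rw [mul_one] at h3
      exact (h2.sub h3).hasDerivWithinAt)
    (fun w hw => by
      have hw' : ‖w - ga t‖ ≤ ‖z‖ := by simpa [dist_eq_norm] using hw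
      have := hC t (w - ga t) (hw'.trans hz)
      rw [add_sub_cancel] at this
      exact this.trans (mul_le_mul_of_nonneg_left hw' (by positivity)))
    (convex_closedBall _ _) (by simp) (by simp)
  have e : iteratedDeriv n Pc (ga t + z) - iteratedDeriv (n + 1) Pc (ga t) * (ga t + z) -
      (iteratedDeriv n Pc (ga t) - iteratedDeriv (n + 1) Pc (ga t) * ga t) =
      iteratedDeriv n Pc (ga t + z) - iteratedDeriv n Pc (ga t) -
        iteratedDeriv (n + 1) Pc (ga t) * z := by ring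
  rw [e, add_sub_cancel_left] at h1
  calc _ ≤ C * P t * ‖z‖ * ‖z‖ := h1
    _ = _ := by ring

/-! ### displacements -/

section

variable [SeaC]

/-- the displaced curve -/
def zt (δ : ℝ → ℂ) (t : ℝ) : ℂ := ga t + δ t

/-- its derivative -/
def zd (δ1 : ℝ → ℂ) (t : ℝ) : ℂ := ga' t + δ1 t

lemma zt_eq (δ : ℝ → ℂ) : zt δ = NUAct.zt fun t => eta t * I + δ t := by
  funext t
  unfold zt ga NUAct.zt
  ring

lemma zd_eq (δ1 : ℝ → ℂ) : zd δ1 = NUAct.zd fun t => deriv eta t * I + δ1 t := by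
  funext t
  unfold zd ga' NUAct.zd
  ring

/-- a displacement of the static curve -/
structure Disp (s ε M R : ℝ) (δ δ1 δ2 : ℝ → ℂ) : Prop where
  d0 : ∀ t, HasDerivAt δ (δ1 t) t
  d1 : ∀ t, HasDerivAt δ1 (δ2 t) t
  c2 : Continuous δ2
  e0 : ∀ t, ‖δ t‖ ≤ ε
  e1 : ∀ t, ‖δ1 t‖ ≤ ε
  e2 : ∀ t, ‖δ2 t‖ ≤ ε
  m0 : ∀ t, s * P t * ‖δ t‖ ≤ M
  m1 : ∀ t, s * P t * ‖δ1 t‖ ≤ M
  m2 : ∀ t, s * P t * ‖δ2 t‖ ≤ M
  supp : ∀ t, R ≤ |t| → δ t = 0 ∧ δ1 t = 0 ∧ δ2 t = 0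

variable {s ε M R : ℝ} {δ δ1 δ2 : ℝ → ℂ}

lemma Disp.c1 (D : Disp s ε M R δ δ1 δ2) : Continuous δ1 :=
  continuous_iff_continuousAt.2 fun t => (D.d1 t).continuousAt

lemma Disp.c0 (D : Disp s ε M R δ δ1 δ2) : Continuous δ :=
  continuous_iff_continuousAt.2 fun t => (D.d0 t).continuousAt

lemma Disp.ε0 (D : Disp s ε M R δ δ1 δ2) : 0 ≤ ε := (norm_nonneg _).trans (D.e0 0)

lemma Disp.diff (D : Disp s ε M R δ δ1 δ2) (t u : ℝ) : ‖δ t - δ u‖ ≤ ε * |t - u| := by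
  have h1 := Convex.norm_image_sub_le_of_norm_hasDerivWithin_le (f := δ) (f' := δ1) (C := ε)
    (s := univ) (x := u) (y := t) (fun x _ => (D.d0 x).hasDerivWithinAt) (fun x _ => D.e1 x)
    convex_univ (mem_univ _) (mem_univ _)
  rwa [Real.norm_eq_abs] at h1

lemma Disp.diff1 (D : Disp s ε M R δ δ1 δ2) (t u : ℝ) : ‖δ1 t - δ1 u‖ ≤ ε * |t - u| := by
  have h1 := Convex.norm_image_sub_le_of_norm_hasDerivWithin_le (f := δ1) (f' := δ2) (C := ε)
    (s := univ) (x := u) (y := t) (fun x _ => (D.d1 x).hasDerivWithinAt) (fun x _ => D.e2 x)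
    convex_univ (mem_univ _) (mem_univ _)
  rwa [Real.norm_eq_abs] at h1

lemma Disp.ball (D : Disp s ε M R δ δ1 δ2) {h : ℝ} (hε : ε ≤ h) (t : ℝ) :
    ‖zt δ t - ga t‖ ≤ h := by
  have e : zt δ t - ga t = δ t := by unfold zt; ring
  rw [e]
  exact (D.e0 t).trans hε

lemma Disp.der (D : Disp s ε M R δ δ1 δ2) (t : ℝ) : HasDerivAt (zt δ) (zd δ1 t) t :=
  (hasDerivAt_ga t).add (D.d0 t)

lemma Disp.der1 (D : Disp s ε M R δ δ1 δ2) (t : ℝ) : HasDerivAt (zd δ1) (ga2 t + δ2 t) t :=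
  (hasDerivAt_ga' t).add (D.d1 t)

lemma Disp.cont_zt (D : Disp s ε M R δ δ1 δ2) : Continuous (zt δ) :=
  continuous_ga.add D.c0

lemma Disp.cont_zd (D : Disp s ε M R δ δ1 δ2) : Continuous (zd δ1) :=
  continuous_ga'.add D.c1

lemma Disp.mono (D : Disp s ε M R δ δ1 δ2) (hε : ε ≤ 1 / 2) (u t : ℝ) (hut : u ≤ t) :
    1 / 2 * (t - u) ≤ (zt δ t - zt δ u).re := by
  have h1 := D.diff t u
  rw [abs_of_nonneg (by linarith)] at h1
  have h2 := Complex.abs_re_le_norm (δ t - δ u)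
  have h3 := neg_abs_le (δ t - δ u).re
  have e : (zt δ t - zt δ u).re = (t - u) + (δ t - δ u).re := by
    simp only [zt, Complex.sub_re, Complex.add_re, ga_re]
    ring
  rw [e]
  nlinarith

end

/-- the displaced curve is a path of the strip of the sea -/
theorem Disp_path (B : SeaCB) : ∃ C : ℝ, 1 ≤ C ∧ ∀ [SeaC] [SeaCU B], ∀ {s ε M R : ℝ}
    {δ δ1 δ2 : ℝ → ℂ}, Disp s ε M R δ δ1 δ2 → ε ≤ B.r →
    SPath (-B.h) (l / 4) (1 / 2) C (zt δ) (zd δ1) ∧ NUAct.Path (l / 7) (1 / 2) C (zt δ) (zd δ1) := by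
  obtain ⟨C, hC, H⟩ := ga'_bd B
  have hh := r_small B
  have hh1 := B.h1
  have hl := l_pos
  refine ⟨C + 1, by linarith, @fun _ hS s ε M R δ δ1 δ2 D hε => ?_⟩
  have him : ∀ t, -B.h ≤ (zt δ t).im ∧ (zt δ t).im ≤ l / 7 := fun t => ball_strip B (D.ball hε t)
  have hdle : ∀ t, ‖zd δ1 t‖ ≤ C + 1 := fun t => by
    unfold zd
    refine (norm_add_le _ _).trans ?_
    linarith [D.e1 t, H t]
  have hnear : ∀ t : ℝ, ‖zt δ t - t‖ ≤ C + 1 := fun t => by
    have e : zt δ t - t = eta t * I + δ t := by unfold zt ga; ring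
    rw [e]
    refine (norm_add_le _ _).trans ?_
    rw [norm_mul, Complex.norm_I, mul_one, Complex.norm_real, Real.norm_eq_abs]
    have h1 := eta_abs1 t
    linarith [D.e0 t]
  refine ⟨⟨D.der, D.cont_zd, fun t => (him t).1, fun t => (him t).2.trans (by linarith), hdle,
    by norm_num, by norm_num, D.mono (by linarith), hnear⟩, ⟨D.der, D.cont_zd, fun t => ?_, hdle,
    by norm_num, by norm_num, D.mono (by linarith), hnear⟩⟩
  rw [abs_le]
  constructor <;> linarith [(him t).1, (him t).2]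

/-! ### the change of the density -/

section

variable [SeaC]

/-- `s (Pc(ζ) ζ' - P)` -/
def Bf (s : ℝ) (δ δ1 : ℝ → ℂ) (t : ℝ) : ℂ := (s : ℂ) * (Pc (zt δ t) * zd δ1 t) - ((s * P t : ℝ) : ℂ)

/-- `(s Pc(ga) δ)'` -/
def af (s : ℝ) (δ δ1 : ℝ → ℂ) (t : ℝ) : ℂ :=
  (s : ℂ) * (iteratedDeriv 1 Pc (ga t) * ga' t * δ t + Pc (ga t) * δ1 t)

/-- derivative of `P` -/
def PD (t : ℝ) : ℂ := iteratedDeriv 1 Pc (ga t) * ga' t * ga' t + Pc (ga t) * ga2 t

/-- derivative of `Bf` -/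
def Bf1 (s : ℝ) (δ δ1 δ2 : ℝ → ℂ) (t : ℝ) : ℂ :=
  (s : ℂ) * (iteratedDeriv 1 Pc (zt δ t) * zd δ1 t * zd δ1 t + Pc (zt δ t) * (ga2 t + δ2 t)) -
    (s : ℂ) * PD t

/-- derivative of `af` -/
def af1 (s : ℝ) (δ δ1 δ2 : ℝ → ℂ) (t : ℝ) : ℂ :=
  (s : ℂ) * (((iteratedDeriv 2 Pc (ga t) * ga' t * ga' t + iteratedDeriv 1 Pc (ga t) * ga2 t) * δ t +
    iteratedDeriv 1 Pc (ga t) * ga' t * δ1 t) +
    (iteratedDeriv 1 Pc (ga t) * ga' t * δ1 t + Pc (ga t) * δ2 t))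

end

section

variable (B : SeaCB) [SeaC] [SeaCU B] {s ε M R : ℝ} {δ δ1 δ2 : ℝ → ℂ}

include B

lemma hasDerivAt_real (n : ℕ) (t : ℝ) : HasDerivAt (fun t : ℝ => iteratedDeriv n Pc (ga t))
    (iteratedDeriv (n + 1) Pc (ga t) * ga' t) t := by
  have h0 := ball_strip' B (t := t) (w := ga t) (by simpa using B.r0.le)
  have h1 := (hasDerivAt_iter B n h0.1 h0.2).scomp t (hasDerivAt_ga t)
  rw [smul_eq_mul, mul_comm] at h1
  exact h1

lemma hasDerivAt_Pt (t : ℝ) : HasDerivAt (fun t : ℝ => (P t : ℂ)) (PD t) t := by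
  have h1 := (hasDerivAt_real B 0 t).mul (hasDerivAt_ga' t)
  simp only [iteratedDeriv_zero, zero_add] at h1
  have e : (fun t : ℝ => (P t : ℂ)) = fun t : ℝ => Pc (ga t) * ga' t := by
    funext x
    exact (Pc_ga x).symm
  rw [e]
  exact h1

lemma hasDerivAt_Bf (D : Disp s ε M R δ δ1 δ2) (hε : ε ≤ B.r) (t : ℝ) :
    HasDerivAt (Bf s δ δ1) (Bf1 s δ δ1 δ2 t) t := by
  have h0 : HasDerivAt (fun t => Pc (zt δ t)) (iteratedDeriv 1 Pc (zt δ t) * zd δ1 t) t := by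
    have h0 := ball_strip' B (D.ball hε t)
    have h1 := hasDerivAt_iter B 0 h0.1 h0.2
    simp only [iteratedDeriv_zero, zero_add] at h1
    have h2 := h1.scomp t (D.der t)
    rw [smul_eq_mul, mul_comm] at h2
    exact h2
  have h4 := (h0.mul (D.der1 t)).const_mul (s : ℂ)
  have h5 : HasDerivAt (fun t : ℝ => ((s * P t : ℝ) : ℂ)) ((s : ℂ) * PD t) t := by
    have := (hasDerivAt_Pt B t).const_mul (s : ℂ)
    refine this.congr_of_eventuallyEq (Eventually.of_forall fun x => ?_)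
    push_cast
    ring
  exact h4.sub h5

lemma hasDerivAt_af (D : Disp s ε M R δ δ1 δ2) (t : ℝ) :
    HasDerivAt (af s δ δ1) (af1 s δ δ1 δ2 t) t := by
  have h1 := ((hasDerivAt_real B 1 t).mul (hasDerivAt_ga' t)).mul (D.d0 t)
  have h2 := (hasDerivAt_real B 0 t).mul (D.d1 t)
  simp only [iteratedDeriv_zero, zero_add] at h2
  exact (h1.add h2).const_mul (s : ℂ)

lemma cont_PcD (k : ℕ) {δ : ℝ → ℂ} (hδ : Continuous δ) (hs : ∀ t, ‖δ t‖ ≤ B.r) :
    Continuous fun t : ℝ => iteratedDeriv k Pc (zt δ t) := by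
  have hc : ContinuousOn (iteratedDeriv k Pc) {z : ℂ | -(2 * B.h) < z.im ∧ z.im < l / 2} :=
    fun z hz => (an_iter B k z hz.1 hz.2).continuousAt.continuousWithinAt
  refine hc.comp_continuous (continuous_ga.add hδ) fun t => ?_
  have h := ball_strip' B (t := t) (w := ga t + δ t) (by simpa using hs t)
  exact h

lemma hasDerivAt_PcD (k : ℕ) {δ δ1 : ℝ → ℂ} (hδ : ∀ t, HasDerivAt δ (δ1 t) t)
    (hs : ∀ t, ‖δ t‖ ≤ B.r) (t : ℝ) : HasDerivAt (fun t : ℝ => iteratedDeriv k Pc (zt δ t))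
      (iteratedDeriv (k + 1) Pc (zt δ t) * (ga' t + δ1 t)) t := by
  have h0 := ball_strip' B (t := t) (w := zt δ t) (by unfold zt; simpa using hs t)
  have h1 := hasDerivAt_iter B k h0.1 h0.2
  have h2 : HasDerivAt (zt δ) (ga' t + δ1 t) t := (hasDerivAt_ga t).add (hδ t)
  have h3 := h1.scomp t h2
  rw [smul_eq_mul, mul_comm] at h3
  exact h3

end

/-- **sizes** -/
theorem dens_bd (B : SeaCB) : ∃ C : ℝ, 0 < C ∧ ∀ [SeaC] [SeaCU B], ∀ (s ε M R : ℝ)
    (δ δ1 δ2 : ℝ → ℂ), 0 ≤ s → 0 ≤ M → Disp s ε M R δ δ1 δ2 → ε ≤ B.r → ∀ t,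
    ‖af s δ δ1 t‖ ≤ C * M ∧ ‖af1 s δ δ1 δ2 t‖ ≤ C * M ∧
    ‖Bf s δ δ1 t - af s δ δ1 t‖ ≤ C * M * ε ∧
    ‖Bf1 s δ δ1 δ2 t - af1 s δ δ1 δ2 t‖ ≤ C * M * ε ∧
    (R ≤ |t| → af s δ δ1 t = 0 ∧ af1 s δ δ1 δ2 t = 0 ∧ Bf s δ δ1 t = 0 ∧ Bf1 s δ δ1 δ2 t = 0) := by
  obtain ⟨C0, h0, H0⟩ := Pn_bd B 0
  obtain ⟨C1, h1, H1⟩ := Pn_bd B 1
  obtain ⟨C2, h2, H2⟩ := Pn_bd B 2
  obtain ⟨D0, k0, T0⟩ := tay1 B 0
  obtain ⟨D1, k1, T1⟩ := tay1 B 1
  obtain ⟨E0, q0, S0⟩ := tay2 B 0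
  obtain ⟨E1, q1, S1⟩ := tay2 B 1
  obtain ⟨G1, g1, HG1⟩ := ga'_bd B
  obtain ⟨G2, g2, HG2⟩ := ga2_bd B
  simp only [iteratedDeriv_zero, zero_add] at H0 T0 S0
  obtain ⟨G, hG⟩ : ∃ G, G = G1 + G2 := ⟨_, rfl⟩
  have hG1 : G1 ≤ G := by linarith
  have hG2 : G2 ≤ G := by linarith
  have hGo : 1 ≤ G := by linarith
  have hG0 : 0 < G := by linarith
  refine ⟨(1 + 4 * (C0 + C1 + C2) + 4 * (D0 + D1 + E0 + E1)) * G ^ 2, by positivity,
    @fun _ hS s ε M R δ δ1 δ2 hs hM D hε t => ?_⟩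
  have hp := (P_pos B t).le
  have hsp : 0 ≤ s * P t := mul_nonneg hs hp
  have hε0 := D.ε0
  have e0 := D.e0 t
  have e1 := D.e1 t
  have e2 := D.e2 t
  have m0 := D.m0 t
  have m1 := D.m1 t
  have m2 := D.m2 t
  have n0 := norm_nonneg (δ t)
  have n1 := norm_nonneg (δ1 t)
  have n2 := norm_nonneg (δ2 t)
  have z0 : ‖(0:ℂ)‖ ≤ B.r := by simpa using B.r0.le
  have b0 := H0 t 0 z0
  have b1 := H1 t 0 z0
  have b2 := H2 t 0 z0
  rw [add_zero] at b0 b1 b2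
  have w1 : ‖ga' t‖ ≤ G := (HG1 t).trans hG1
  have w2 : ‖ga2 t‖ ≤ G := (HG2 t).trans hG2
  have hns : ‖(s : ℂ)‖ = s := by rw [Complex.norm_real, Real.norm_eq_abs, abs_of_nonneg hs]
  -- products
  have g0 : ∀ C x : ℝ, 0 < C → s * P t * x ≤ M → s * (C * P t * x) ≤ C * M := fun C x hC hx => by
    calc s * (C * P t * x) = C * (s * P t * x) := by ring
      _ ≤ _ := by gcongr
  -- products of two displacements
  have w : ∀ C x y : ℝ, 0 < C → 0 ≤ x → 0 ≤ y → s * P t * x ≤ M → y ≤ ε →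
      s * (C * P t * x * y) ≤ C * M * ε := fun C x y hC hx hy hxM hyε => by
    calc s * (C * P t * x * y) = C * ((s * P t * x) * y) := by ring
      _ ≤ C * (M * ε) := by
          refine mul_le_mul_of_nonneg_left ?_ hC.le
          exact mul_le_mul hxM hyε hy hM
      _ = _ := by ring
  have hGG : G ≤ G ^ 2 := by nlinarith
  have hG2o : 1 ≤ G ^ 2 := by nlinarith
  have hMG : M ≤ M * G ^ 2 := le_mul_of_one_le_right hM hG2o
  have hMG' : M * G ≤ M * G ^ 2 := mul_le_mul_of_nonneg_left hGG hM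
  refine ⟨?_, ?_, ?_, ?_, ?_⟩
  · -- `af`
    unfold af
    rw [norm_mul, hns]
    have a1 : ‖iteratedDeriv 1 Pc (ga t) * ga' t * δ t + Pc (ga t) * δ1 t‖ ≤
        C1 * G * P t * ‖δ t‖ + C0 * P t * ‖δ1 t‖ := by
      refine (norm_add_le _ _).trans ?_
      rw [norm_mul, norm_mul, norm_mul]
      refine add_le_add (mul_le_mul_of_nonneg_right ?_ n0) (mul_le_mul_of_nonneg_right b0 n1)
      calc _ ≤ (C1 * P t) * G := mul_le_mul b1 w1 (norm_nonneg _) (by positivity)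
        _ = _ := by ring
    calc s * ‖iteratedDeriv 1 Pc (ga t) * ga' t * δ t + Pc (ga t) * δ1 t‖ ≤
          s * (C1 * G * P t * ‖δ t‖ + C0 * P t * ‖δ1 t‖) := by gcongr
      _ = s * (C1 * G * P t * ‖δ t‖) + s * (C0 * P t * ‖δ1 t‖) := by ring
      _ ≤ C1 * G * M + C0 * M := add_le_add (g0 _ _ (by positivity) m0) (g0 _ _ h0 m1)
      _ ≤ C1 * (M * G ^ 2) + C0 * (M * G ^ 2) := by
          have a2 : C1 * G * M = C1 * (M * G) := by ring
          rw [a2]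
          gcongr
      _ ≤ _ := by
          have : 0 ≤ (1 + 3 * (C0 + C1) + 4 * C2 + 4 * (D0 + D1 + E0 + E1)) * (M * G ^ 2) := by
            positivity
          nlinarith
  · unfold af1
    rw [norm_mul, hns]
    have a1 : ‖((iteratedDeriv 2 Pc (ga t) * ga' t * ga' t + iteratedDeriv 1 Pc (ga t) * ga2 t) * δ t +
        iteratedDeriv 1 Pc (ga t) * ga' t * δ1 t) +
        (iteratedDeriv 1 Pc (ga t) * ga' t * δ1 t + Pc (ga t) * δ2 t)‖ ≤
        ((C2 + C1) * G ^ 2 * P t * ‖δ t‖ + C1 * G * P t * ‖δ1 t‖) +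
          (C1 * G * P t * ‖δ1 t‖ + C0 * P t * ‖δ2 t‖) := by
      have a2 : ‖iteratedDeriv 1 Pc (ga t) * ga' t * δ1 t‖ ≤ C1 * G * P t * ‖δ1 t‖ := by
        rw [norm_mul, norm_mul]
        refine mul_le_mul_of_nonneg_right ?_ n1
        calc _ ≤ (C1 * P t) * G := mul_le_mul b1 w1 (norm_nonneg _) (by positivity)
          _ = _ := by ring
      have a3 : ‖(iteratedDeriv 2 Pc (ga t) * ga' t * ga' t + iteratedDeriv 1 Pc (ga t) * ga2 t) *
          δ t‖ ≤ (C2 + C1) * G ^ 2 * P t * ‖δ t‖ := by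
        rw [norm_mul]
        refine mul_le_mul_of_nonneg_right ?_ n0
        refine (norm_add_le _ _).trans ?_
        rw [norm_mul, norm_mul, norm_mul]
        calc _ ≤ (C2 * P t) * G * G + (C1 * P t) * G := by
              refine add_le_add (mul_le_mul (mul_le_mul b2 w1 (norm_nonneg _) (by positivity)) w1
                (norm_nonneg _) (by positivity)) (mul_le_mul b1 w2 (norm_nonneg _) (by positivity))
          _ ≤ (C2 * P t) * G * G + (C1 * P t) * G ^ 2 := by gcongr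
          _ = _ := by ring
      refine (norm_add_le _ _).trans (add_le_add ((norm_add_le _ _).trans (add_le_add a3 a2))
        ((norm_add_le _ _).trans (add_le_add a2 ?_)))
      rw [norm_mul]
      gcongr
    calc _ ≤ s * (((C2 + C1) * G ^ 2 * P t * ‖δ t‖ + C1 * G * P t * ‖δ1 t‖) +
          (C1 * G * P t * ‖δ1 t‖ + C0 * P t * ‖δ2 t‖)) := by gcongr
      _ = s * ((C2 + C1) * G ^ 2 * P t * ‖δ t‖) + s * (C1 * G * P t * ‖δ1 t‖) +
          s * (C1 * G * P t * ‖δ1 t‖) + s * (C0 * P t * ‖δ2 t‖) := by ring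
      _ ≤ (C2 + C1) * G ^ 2 * M + C1 * G * M + C1 * G * M + C0 * M := by
          have := g0 ((C2 + C1) * G ^ 2) _ (by positivity) m0
          have := g0 (C1 * G) _ (by positivity) m1
          have := g0 C0 _ h0 m2
          linarith
      _ ≤ (C2 + C1) * (M * G ^ 2) + C1 * (M * G ^ 2) + C1 * (M * G ^ 2) + C0 * (M * G ^ 2) := by
          have a2 : C1 * G * M = C1 * (M * G) := by ring
          have a3 : (C2 + C1) * G ^ 2 * M = (C2 + C1) * (M * G ^ 2) := by ring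
          rw [a2, a3]
          gcongr
      _ ≤ _ := by
          have : 0 ≤ (1 + 3 * (C0 + C2) + C1 + 4 * (D0 + D1 + E0 + E1)) * (M * G ^ 2) := by
            positivity
          nlinarith
  · -- `Bf - af`
    have a1 := S0 t (δ t) (e0.trans hε)
    have a2 := T0 t (δ t) (e0.trans hε)
    have e : Bf s δ δ1 t - af s δ δ1 t = (s : ℂ) * ((Pc (ga t + δ t) - Pc (ga t) -
        iteratedDeriv 1 Pc (ga t) * δ t) * ga' t + (Pc (ga t + δ t) - Pc (ga t)) * δ1 t) := by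
      unfold Bf af zt zd
      rw [Complex.ofReal_mul, ← Pc_ga]
      ring
    rw [e, norm_mul, hns]
    have a3 : ‖(Pc (ga t + δ t) - Pc (ga t) - iteratedDeriv 1 Pc (ga t) * δ t) * ga' t +
        (Pc (ga t + δ t) - Pc (ga t)) * δ1 t‖ ≤
        E0 * G * P t * ‖δ t‖ ^ 2 + D0 * P t * ‖δ t‖ * ‖δ1 t‖ := by
      refine (norm_add_le _ _).trans (add_le_add ?_ ?_)
      · rw [norm_mul]
        calc _ ≤ (E0 * P t * ‖δ t‖ ^ 2) * G := mul_le_mul a1 w1 (norm_nonneg _) (by positivity)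
          _ = _ := by ring
      · rw [norm_mul]
        gcongr
    calc _ ≤ s * (E0 * G * P t * ‖δ t‖ ^ 2 + D0 * P t * ‖δ t‖ * ‖δ1 t‖) := by gcongr
      _ = s * (E0 * G * P t * ‖δ t‖ * ‖δ t‖) + s * (D0 * P t * ‖δ t‖ * ‖δ1 t‖) := by ring
      _ ≤ E0 * G * M * ε + D0 * M * ε :=
          add_le_add (w (E0 * G) _ _ (by positivity) n0 n0 m0 e0) (w D0 _ _ k0 n0 n1 m0 e1)
      _ = E0 * ((M * G) * ε) + D0 * (M * ε) := by ring
      _ ≤ E0 * ((M * G ^ 2) * ε) + D0 * ((M * G ^ 2) * ε) := by gcongr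
      _ ≤ _ := by
          have : 0 ≤ (1 + 4 * (C0 + C1 + C2) + 4 * (D1 + E1) + 3 * (D0 + E0)) *
              ((M * G ^ 2) * ε) := by positivity
          nlinarith
  · have a1 := S1 t (δ t) (e0.trans hε)
    have a2 := T1 t (δ t) (e0.trans hε)
    have a3 := H1 t (δ t) (e0.trans hε)
    have a4 := T0 t (δ t) (e0.trans hε)
    have a0 := S0 t (δ t) (e0.trans hε)
    have e : Bf1 s δ δ1 δ2 t - af1 s δ δ1 δ2 t = (s : ℂ) *
        (((((iteratedDeriv 1 Pc (ga t + δ t) - iteratedDeriv 1 Pc (ga t) -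
        iteratedDeriv 2 Pc (ga t) * δ t) * ga' t * ga' t +
        2 * ((iteratedDeriv 1 Pc (ga t + δ t) - iteratedDeriv 1 Pc (ga t)) * ga' t * δ1 t)) +
        iteratedDeriv 1 Pc (ga t + δ t) * (δ1 t * δ1 t)) +
        (Pc (ga t + δ t) - Pc (ga t) - iteratedDeriv 1 Pc (ga t) * δ t) * ga2 t) +
        (Pc (ga t + δ t) - Pc (ga t)) * δ2 t) := by
      unfold Bf1 af1 PD zt zd
      ring
    rw [e, norm_mul, hns]
    have a5 : ‖((((iteratedDeriv 1 Pc (ga t + δ t) - iteratedDeriv 1 Pc (ga t) -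
        iteratedDeriv 2 Pc (ga t) * δ t) * ga' t * ga' t +
        2 * ((iteratedDeriv 1 Pc (ga t + δ t) - iteratedDeriv 1 Pc (ga t)) * ga' t * δ1 t)) +
        iteratedDeriv 1 Pc (ga t + δ t) * (δ1 t * δ1 t)) +
        (Pc (ga t + δ t) - Pc (ga t) - iteratedDeriv 1 Pc (ga t) * δ t) * ga2 t) +
        (Pc (ga t + δ t) - Pc (ga t)) * δ2 t‖ ≤
        E1 * G ^ 2 * P t * ‖δ t‖ ^ 2 + 2 * (D1 * G * P t * ‖δ t‖ * ‖δ1 t‖) +
          C1 * P t * (‖δ1 t‖ * ‖δ1 t‖) + E0 * G * P t * ‖δ t‖ ^ 2 + D0 * P t * ‖δ t‖ * ‖δ2 t‖ := by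
      refine (norm_add_le _ _).trans (add_le_add ((norm_add_le _ _).trans (add_le_add
        ((norm_add_le _ _).trans (add_le_add ((norm_add_le _ _).trans (add_le_add ?_ ?_)) ?_))
        ?_)) ?_)
      · rw [norm_mul, norm_mul]
        calc _ ≤ (E1 * P t * ‖δ t‖ ^ 2) * G * G :=
              mul_le_mul (mul_le_mul a1 w1 (norm_nonneg _) (by positivity)) w1 (norm_nonneg _)
                (by positivity)
          _ = _ := by ring
      · rw [norm_mul, Complex.norm_ofNat, norm_mul, norm_mul]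
        refine mul_le_mul_of_nonneg_left ?_ two_pos.le
        refine mul_le_mul_of_nonneg_right ?_ n1
        calc _ ≤ (D1 * P t * ‖δ t‖) * G := mul_le_mul a2 w1 (norm_nonneg _) (by positivity)
          _ = _ := by ring
      · rw [norm_mul, norm_mul]
        gcongr
      · rw [norm_mul]
        calc _ ≤ (E0 * P t * ‖δ t‖ ^ 2) * G := mul_le_mul a0 w2 (norm_nonneg _) (by positivity)
          _ = _ := by ring
      · rw [norm_mul]
        gcongr
    have hMe : 0 ≤ M * ε := mul_nonneg hM hε0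
    have hme : M * ε ≤ M * G ^ 2 * ε := mul_le_mul_of_nonneg_right hMG hε0
    have hme' : M * G * ε ≤ M * G ^ 2 * ε := mul_le_mul_of_nonneg_right hMG' hε0
    calc _ ≤ s * (E1 * G ^ 2 * P t * ‖δ t‖ ^ 2 + 2 * (D1 * G * P t * ‖δ t‖ * ‖δ1 t‖) +
          C1 * P t * (‖δ1 t‖ * ‖δ1 t‖) + E0 * G * P t * ‖δ t‖ ^ 2 +
          D0 * P t * ‖δ t‖ * ‖δ2 t‖) := by gcongr
      _ = s * (E1 * G ^ 2 * P t * ‖δ t‖ * ‖δ t‖) + 2 * (s * (D1 * G * P t * ‖δ t‖ * ‖δ1 t‖)) +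
          s * (C1 * P t * ‖δ1 t‖ * ‖δ1 t‖) + s * (E0 * G * P t * ‖δ t‖ * ‖δ t‖) +
          s * (D0 * P t * ‖δ t‖ * ‖δ2 t‖) := by ring
      _ ≤ E1 * G ^ 2 * M * ε + 2 * (D1 * G * M * ε) + C1 * M * ε + E0 * G * M * ε + D0 * M * ε := by
          have := w (E1 * G ^ 2) _ _ (by positivity) n0 n0 m0 e0
          have := w (D1 * G) _ _ (by positivity) n0 n1 m0 e1
          have := w C1 _ _ h1 n1 n1 m1 e1
          have := w (E0 * G) _ _ (by positivity) n0 n0 m0 e0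
          have := w D0 _ _ k0 n0 n2 m0 e2
          linarith
      _ = E1 * (M * G ^ 2 * ε) + 2 * (D1 * (M * G * ε)) + C1 * (M * ε) + E0 * (M * G * ε) +
          D0 * (M * ε) := by ring
      _ ≤ E1 * (M * G ^ 2 * ε) + 2 * (D1 * (M * G ^ 2 * ε)) + C1 * (M * G ^ 2 * ε) +
          E0 * (M * G ^ 2 * ε) + D0 * (M * G ^ 2 * ε) := by gcongr
      _ ≤ _ := by
          have : 0 ≤ (1 + 4 * (C0 + C2) + 3 * C1 + 2 * D1 + 3 * (D0 + E0 + E1)) *
              (M * G ^ 2 * ε) := by positivity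
          nlinarith
  · intro hR
    obtain ⟨f0, f1, f2⟩ := D.supp t hR
    unfold af af1 Bf Bf1 PD zt zd
    rw [f0, f1, f2]
    simp only [add_zero]
    refine ⟨by ring, by ring, ?_, by ring⟩
    rw [Pc_ga]
    push_cast
    ring

end

end PLT.Cv
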