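import Pool.Agent.PLT.SeaI2
import Pool.Agent.PLT.H1Own
import Pool.Agent.PLT.SH3

/-!
# The straight seas in the records of the blocks SH1 and STR

* `seaHt_I : H1.SeaHt seaI`: flat curve, `m Pc = rhoI (xI m h)`;
* `seaHD_I : St.SeaHD seaIB seaI`: the same with the bounds.
-/

set_option autoImplicit false
set_option linter.unusedSectionVars false

noncomputable section

namespace PLT

/-- **the straight seas** in the record of SH1 -/
theorem seaHt_I : H1.SeaHt seaI where
  eta m h _ _ t := by rw [seaI_eta]
  den m h hm _ t := (rhoI_seaI hm h t).symm

/-- **the straight seas** in the record of STR -/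
theorem seaHD_I : St.SeaHD seaIB seaI where
  sea m h _ hh := seaIU fun i _ => (hh i).trans (by norm_num)
  eta m h _ _ t := by rw [seaI_eta]
  den m h hm _ t := (rhoI_seaI hm h t).symm

end PLT

end
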