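import Pool.Agent.PLT.SeaY
import Pool.Agent.PLT.LevelH

/-!
# The sea of a content with heights on its level curve

A content with heights (`PLT/LevelH`): weights `m i ≥ 0`, offsets `x i`, heights `s i` (a row at the complex place
`x i + s i I`), here of total mass one and `|s i| ≤ 1`.
* `PlH h m x s`: places in `[-(l - 4 h), l / 2]`; `EtH d Ce m x s`: the level curve exists in `[-d, 7/120 l]`, has slope
  at most `1 / 4` and the bounds `Ce n exp (-(32/3)|t|)`, `n ≥ 1`, for its derivatives;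
* **`seaX : SeaC`**, density `rhoH m x s`, curve `etaH m x s`; **`seaXB h d Ce : SeaCB`**; **`seaXU : SeaCU (seaXB ..)`**:
  the numbers depend on `h`, `d` and `Ce` only.
-/

set_option autoImplicit false
set_option linter.unusedSectionVars false

open MeasureTheory Set Filter Topology Complex
open scoped ContDiff

namespace PLT

open NUMF (l l_pos)
open NUAct (ks kx ks_bd kx_bd ks_meas kx_cont)

noncomputable section

variable {ι : Type*} [Fintype ι] {h d : ℝ} {Ce : ℕ → ℝ} {m x s : ι → ℝ}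

/-- a content of mass one with places in `[-(l - 4 h), l / 2]`, heights at most one -/
structure PlH (h : ℝ) (m x s : ι → ℝ) : Prop where
  wt : Wt m
  sum : ∑ i, m i = 1
  lo : ∀ i, -(l - 4 * h) ≤ x i
  hi : ∀ i, x i ≤ l / 2
  ht : ∀ i, |s i| ≤ 1

/-- the level curve of a content with heights in its window, with bounds -/
structure EtH (d : ℝ) (Ce : ℕ → ℝ) (m x s : ι → ℝ) : Prop where
  lev : LevH m x s
  lo : ∀ t, -d ≤ etaH m x s t
  le7 : ∀ t, etaH m x s t ≤ 7 / 120 * l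
  sl : ∀ t, |etaH' m x s t| ≤ 1 / 4
  dec : ∀ n : ℕ, 1 ≤ n → ∀ t : ℝ,
    |iteratedDeriv n (etaH m x s) t| ≤ Ce n * Real.exp (-(32 / 3) * |t|)

lemma EtH.mem (hE : EtH d Ce m x s) (t : ℝ) : etaH m x s t ∈ Dm x := etaH_mem hE.lev t

/-! ### one row at a height -/

/-- the sum of a point and a place -/
lemma row_im (z : ℂ) (y c : ℝ) : (z + y * I - c).im = z.im + y := by simp

lemma row_re (z : ℂ) (y c : ℝ) : (z + y * I - c).re = z.re - c := by simp

/-- the loss of a height at most one -/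
lemma exp_row1 {c : ℝ} (hc : |c| ≤ 1) (r : ℝ) : Real.exp (-(8 / 3) * |r - c|) ≤
    Real.exp (8 / 3) * Real.exp (-(8 / 3) * |r|) := by
  rw [← Real.exp_add, Real.exp_le_exp]
  have h1 := abs_sub_abs_le_abs_sub r c
  linarith

lemma exp_row2 {c : ℝ} (hc : |c| ≤ 1) (r : ℝ) : Real.exp (-(8 / 3)) * Real.exp (-(8 / 3) * |r|) ≤
    Real.exp (-(8 / 3) * |r - c|) := by
  rw [← Real.exp_add, Real.exp_le_exp]
  have h1 : |r - c| ≤ |r| + |c| := abs_sub r c
  linarith

lemma lin_row {c : ℝ} (hc : |c| ≤ 1) (r : ℝ) : 1 + |r - c| ≤ 2 * (1 + |r|) := by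
  have h1 : |r - c| ≤ |r| + |c| := abs_sub r c
  have := abs_nonneg r
  linarith

lemma PlH.im_lt (hP : PlH h m x s) (h0 : 0 < h) {z : ℂ} (h1 : -(2 * h) < z.im)
    (h2 : z.im < l / 2) (i : ι) : |(z + x i * I - s i).im| < l := by
  have a1 := hP.lo i
  have a2 := hP.hi i
  rw [row_im, abs_lt]
  constructor <;> linarith

lemma PlH.im_le (hP : PlH h m x s) (h0 : 0 < h) (h1 : h ≤ l / 40) {z : ℂ} (h3 : -h ≤ z.im)
    (h4 : z.im ≤ l / 4) (i : ι) : |(z + x i * I - s i).im| ≤ l - h := by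
  have a1 := hP.lo i
  have a2 := hP.hi i
  have hl := l_pos
  rw [row_im, abs_le]
  constructor <;> linarith

lemma PCh_diff (hP : PlH h m x s) (h0 : 0 < h) {z : ℂ} (h1 : -(2 * h) < z.im)
    (h2 : z.im < l / 2) : DifferentiableAt ℂ (PCh m x s) z := by
  unfold PCh
  refine DifferentiableAt.fun_sum fun i _ => ?_
  exact ((NUMF.Pc_diff (hP.im_lt h0 h1 h2 i)).comp z
    ((differentiableAt_id.add_const _).sub_const _)).const_mul _

lemma iter_PCh (hP : PlH h m x s) (h0 : 0 < h) (n : ℕ) {z : ℂ} (h1 : -(2 * h) < z.im)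
    (h2 : z.im < l / 2) : iteratedDeriv n (PCh m x s) z =
      ∑ i, (m i : ℂ) * iteratedDeriv n NUMF.Pc (z + x i * I - s i) := by
  induction n generalizing z with
  | zero => simp only [iteratedDeriv_zero]; rfl
  | succ n ih =>
    have hm : {z : ℂ | -(2 * h) < z.im ∧ z.im < l / 2} ∈ 𝓝 z :=
      (Cv.strip_open _ _).mem_nhds ⟨h1, h2⟩
    have e1 : iteratedDeriv n (PCh m x s) =ᶠ[𝓝 z]
        fun z => ∑ i, (m i : ℂ) * iteratedDeriv n NUMF.Pc (z + x i * I - s i) := by
      filter_upwards [hm] with w hw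
      exact ih hw.1 hw.2
    rw [iteratedDeriv_succ, e1.deriv_eq]
    refine (HasDerivAt.fun_sum fun i _ => ?_).deriv
    have d1 := (NUAct.hasDerivAt_iter n (hP.im_lt h0 h1 h2 i)).comp z
      (((hasDerivAt_id z).add_const ((x i : ℂ) * I)).sub_const (s i : ℂ))
    rw [mul_one] at d1
    exact d1.const_mul _

lemma sum_norm_leH (hP : PlH h m x s) {F : ι → ℂ} {C : ℝ} (hF : ∀ i, ‖F i‖ ≤ C) :
    ‖∑ i, (m i : ℂ) * F i‖ ≤ C := by
  calc _ ≤ ∑ i, ‖(m i : ℂ) * F i‖ := norm_sum_le _ _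
    _ ≤ ∑ i, m i * C := by
        refine Finset.sum_le_sum fun i _ => ?_
        rw [norm_mul, Complex.norm_real, Real.norm_eq_abs, abs_of_nonneg (hP.wt.nn i)]
        exact mul_le_mul_of_nonneg_left (hF i) (hP.wt.nn i)
    _ = C := by rw [← Finset.sum_mul, hP.sum, one_mul]

/-- a field equation of the content from that of a row -/
lemma conv_Ch (hP : PlH h m x s) (h0 : 0 < h) {k : ℝ → ℂ} {K : ℝ} (hk : AEStronglyMeasurable k)
    (hkb : ∀ u : ℝ, u ≠ 0 → ‖k u‖ ≤ K * NUAct.gr |u|) {F : ℂ → ℂ}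
    (hF : ∀ z : ℂ, |z.im| < l → ∫ u : ℝ, NUMF.Pc (z - u) * k u = F z) {z : ℂ}
    (h1 : -(2 * h) < z.im) (h2 : z.im < l / 2) :
    ∫ u : ℝ, PCh m x s (z - u) * k u = ∑ i, (m i : ℂ) * F (z + x i * I - s i) := by
  have hi := fun i => hP.im_lt h0 h1 h2 i
  have e : (fun u : ℝ => PCh m x s (z - u) * k u) =
      fun u : ℝ => ∑ i, (m i : ℂ) * (NUMF.Pc (z + x i * I - s i - u) * k u) := by
    funext u
    unfold PCh
    rw [Finset.sum_mul]
    refine Finset.sum_congr rfl fun i _ => ?_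
    rw [show z - (u : ℂ) + x i * I - s i = z + x i * I - s i - u by ring]
    ring
  rw [e, integral_finsetSum _ fun i _ => (NUAct.J_int hk hkb (hi i)).const_mul _]
  refine Finset.sum_congr rfl fun i _ => ?_
  rw [integral_const_mul, hF _ (hi i)]

/-! ### the curve -/

lemma deriv_etaH (hP : PlH h m x s) (hE : EtH d Ce m x s) (t : ℝ) :
    deriv (etaH m x s) t = etaH' m x s t :=
  (hasDerivAt_etaH hP.wt hE.lev t).deriv

lemma rhoH_real (hP : PlH h m x s) (hE : EtH d Ce m x s) (t : ℝ) :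
    PCh m x s ((t : ℂ) + etaH m x s t * I) * (1 + deriv (etaH m x s) t * I) =
      (rhoH m x s t : ℂ) := by
  rw [deriv_etaH hP hE]
  exact rhoH_eq hP.wt hE.lev t

lemma rhoH_low (hP : PlH h m x s) (hE : EtH d Ce m x s) (t : ℝ) :
    cLo * Real.exp (-(8 / 3)) * Real.exp (-(8 / 3) * |t|) ≤ rhoH m x s t := by
  refine le_trans ?_ (re_le_rhoH hP.wt hE.lev t)
  rw [PCh_re]
  calc cLo * Real.exp (-(8 / 3)) * Real.exp (-(8 / 3) * |t|) =
        ∑ i, m i * (cLo * Real.exp (-(8 / 3)) * Real.exp (-(8 / 3) * |t|)) := by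
        rw [← Finset.sum_mul, hP.sum, one_mul]
    _ ≤ _ := Finset.sum_le_sum fun i _ => by
        refine mul_le_mul_of_nonneg_left ?_ (hP.wt.nn i)
        refine le_trans ?_ (Pc_re_low (hE.mem t i) (t - s i))
        rw [mul_assoc]
        exact mul_le_mul_of_nonneg_left (exp_row2 (hP.ht i) t) cLo_pos.le

/-- the level curve is a path -/
lemma etaH_path (hP : PlH h m x s) (hE : EtH d Ce m x s) (hd0 : 0 ≤ d) (hd1 : d ≤ l / 1000) :
    Cv.SPath (-d) (3 / 50 * l) 1 (1 + Ce 1)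
      (fun t => (t : ℂ) + etaH m x s t * I) (fun t => 1 + deriv (etaH m x s) t * I) := by
  have hl := l_pos
  have hd := fun t => hasDerivAt_etaH hP.wt hE.lev t
  have h1 : ∀ t, |deriv (etaH m x s) t| ≤ Ce 1 := fun t => by
    have h2 := hE.dec 1 le_rfl t
    rw [iteratedDeriv_one] at h2
    have h3 : Real.exp (-(32 / 3) * |t|) ≤ 1 := by
      rw [Real.exp_le_one_iff]
      have := abs_nonneg t
      linarith
    have h4 : 0 ≤ Ce 1 := by
      have h5 := (abs_nonneg _).trans h2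
      exact nonneg_of_mul_nonneg_left h5 (Real.exp_pos _)
    nlinarith
  have h0 : 0 ≤ Ce 1 := (abs_nonneg _).trans (h1 0)
  refine ⟨fun t => ?_, ?_, fun t => ?_, fun t => ?_, fun t => ?_, one_pos, le_rfl,
    fun s t hst => ?_, fun t => ?_⟩
  · have a1 : HasDerivAt (fun t : ℝ => (t : ℂ)) 1 t := Complex.ofRealCLM.hasDerivAt
    rw [deriv_etaH hP hE]
    exact a1.add ((hd t).ofReal_comp.mul_const I)
  · have e : deriv (etaH m x s) = etaH' m x s := funext fun t => deriv_etaH hP hE t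
    rw [e]
    exact continuous_const.add ((Complex.continuous_ofReal.comp
      (continuous_etaH' hP.wt hE.lev)).mul continuous_const)
  · simpa using hE.lo t
  · have := hE.le7 t
    simp only [add_im, ofReal_im, mul_im, ofReal_re, I_im, mul_one, I_re, mul_zero, add_zero,
      zero_add]
    linarith
  · refine (norm_add_le _ _).trans ?_
    rw [norm_one, norm_mul, Complex.norm_I, mul_one, Complex.norm_real, Real.norm_eq_abs]
    linarith [h1 t]
  · simp
  · rw [add_sub_cancel_left, norm_mul, Complex.norm_I, mul_one, Complex.norm_real,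
      Real.norm_eq_abs, abs_le]
    have a1 := hE.le7 t
    have a3 := hE.lo t
    have a2 : 3 / 50 * l ≤ 1 := by
      unfold NUMF.l
      have := Real.pi_le_four
      linarith
    constructor <;> linarith

lemma PCh_dec (hP : PlH h m x s) (h0 : 0 < h) (h1 : h ≤ l / 40) (hd : d ≤ h) {C : ℝ} (hC0 : 0 ≤ C)
    (hC : ∀ z : ℂ, |z.im| ≤ l - h → ‖iteratedDeriv 0 NUMF.Pc z‖ ≤
      C * Real.exp (-(8 / 3) * |z.re|)) :
    Cv.SDec (-d) (3 / 50 * l) (C * Real.exp (8 / 3)) (8 / 3) (PCh m x s) := by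
  have hl := l_pos
  refine ⟨fun z a1 a2 => PCh_diff hP h0 (by linarith) (by linarith), fun z a1 a2 => ?_⟩
  unfold PCh
  refine sum_norm_leH hP fun i => ?_
  have := hC _ (hP.im_le h0 h1 (z := z) (by linarith) (by linarith) i)
  rw [row_re, iteratedDeriv_zero] at this
  refine this.trans ?_
  rw [mul_assoc]
  exact mul_le_mul_of_nonneg_left (exp_row1 (hP.ht i) z.re) hC0

/-- **total mass one** -/
theorem rhoH_mass (hP : PlH h m x s) (hE : EtH d Ce m x s) (h0 : 0 < h) (h1 : h ≤ l / 40)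
    (hd0 : 0 ≤ d) (hd1 : d ≤ l / 1000) (hd : d ≤ h) : ∫ t, rhoH m x s t = 1 := by
  have hl := l_pos
  obtain ⟨C, hC, H⟩ := exists_Cb h h0 h1 0
  have hD := PCh_dec hP h0 h1 hd hC H
  have Q := Cv.hline (lo := -d) (hi := 3 / 50 * l) (y := 0) (by linarith) (by linarith)
  have e := (etaH_path hP hE hd0 hd1).shift2 Q (by norm_num) hD
  have e1 : ∫ t : ℝ, (rhoH m x s t : ℂ) = 1 := by
    have e2 : (fun t : ℝ => (rhoH m x s t : ℂ)) = fun t : ℝ =>
        PCh m x s ((t : ℂ) + etaH m x s t * I) * (1 + deriv (etaH m x s) t * I) :=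
      funext fun t => (rhoH_real hP hE t).symm
    rw [e2, e]
    simp only [mul_one]
    have hx : ∀ i, |x i| < l := fun i => by
      have a1 := hP.lo i
      have a2 := hP.hi i
      rw [abs_lt]
      constructor <;> linarith
    have e3 : (fun t : ℝ => PCh m x s ((t : ℂ) + (0 : ℝ) * I)) = fun t : ℝ =>
        ∑ i, (m i : ℂ) * NUMF.Pc (((t - s i : ℝ) : ℂ) + x i * I) := by
      funext t
      unfold PCh
      refine Finset.sum_congr rfl fun i _ => ?_
      rw [Complex.ofReal_zero, zero_mul, add_zero, Complex.ofReal_sub]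
      congr 2
      ring
    have hi : ∀ i, Integrable (fun t : ℝ => NUMF.Pc (((t - s i : ℝ) : ℂ) + x i * I)) := fun i =>
      (Pc_line (hx i)).1.comp_sub_right (s i)
    rw [e3, integral_finsetSum _ fun i _ => (hi i).const_mul _]
    have e4 : ∀ i, ∫ t : ℝ, (m i : ℂ) * NUMF.Pc (((t - s i : ℝ) : ℂ) + x i * I) = (m i : ℂ) :=
      fun i => by
        rw [integral_const_mul,
          integral_sub_right_eq_self (fun t : ℝ => NUMF.Pc ((t : ℂ) + x i * I)) (s i),
          (Pc_line (hx i)).2, mul_one]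
    simp only [e4]
    rw [← Complex.ofReal_sum, hP.sum, Complex.ofReal_one]
  rw [integral_complex_ofReal] at e1
  exact_mod_cast e1

/-! ### the instance -/

/-- numbers of a dip -/
structure DipH (h d : ℝ) : Prop where
  h0 : 0 < h
  h1 : h ≤ l / 40
  d0 : 0 ≤ d
  dh : 2 * d ≤ h
  dl : d ≤ l / 1000

/-- **the sea of a content with heights** -/
@[reducible] def seaX (hP : PlH h m x s) (hE : EtH d Ce m x s) (hd : DipH h d) : SeaC where
  dens := rhoH m x s
  densc := PCh m x s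
  fs z := ∑ i, (m i : ℂ) * NUAct.vs (z + x i * I - s i)
  fx z := ∑ i, (m i : ℂ) * NUAct.vx (z + x i * I - s i)
  eta := etaH m x s
  smooth := (contDiff_etaH hP.wt hE.lev).of_le (by simp)
  eta_nn := fun t => by linarith [hE.lo t, hd.dl]
  eta_le7 := hE.le7
  eta'_le := fun t => by rw [deriv_etaH hP hE]; exact hE.sl t
  real := rhoH_real hP hE
  mass := rhoH_mass hP hE hd.h0 hd.h1 hd.d0 hd.dl (by linarith [hd.dh, hd.d0])

/-- **the numbers of all contents with heights with the same `h`, `d` and `Ce`** -/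
def seaXB (h d : ℝ) (Ce : ℕ → ℝ) (hd : DipH h d) (hCe : ∀ n, 0 ≤ Ce n) : SeaCB where
  h := h
  d := d
  top := 7 / 120 * l
  Cb n := (exists_Cb h hd.h0 hd.h1 n).choose * Real.exp (8 / 3)
  Ce := Ce
  c0 := cLo * Real.exp (-(8 / 3))
  K := 2 * (exists_Kf h hd.h0 hd.h1).choose
  h0 := hd.h0
  h1 := hd.h1
  d0 := hd.d0
  dh := hd.dh
  dl := hd.dl
  top0 := by have := l_pos; positivity
  top1 := le_rfl
  Cb0 n := mul_nonneg (exists_Cb h hd.h0 hd.h1 n).choose_spec.1 (Real.exp_pos _).le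
  Ce0 := hCe
  c0p := mul_pos cLo_pos (Real.exp_pos _)
  K0 := by
    have := (exists_Kf h hd.h0 hd.h1).choose_spec.1
    positivity

/-- **all bounds** -/
theorem seaXU (hP : PlH h m x s) (hE : EtH d Ce m x s) (hd : DipH h d) (hCe : ∀ n, 0 ≤ Ce n) :
    @SeaCU (seaXB h d Ce hd hCe) (seaX hP hE hd) := by
  have hl := l_pos
  have h0 := hd.h0
  have h1 := hd.h1
  have hlin : ∀ (z : ℂ) (i : ι) (F : ℂ → ℂ), ‖F (z + x i * I - s i)‖ ≤
      (exists_Kf h hd.h0 hd.h1).choose * (1 + |(z + x i * I - s i).re|) →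
      ‖F (z + x i * I - s i)‖ ≤ 2 * (exists_Kf h hd.h0 hd.h1).choose * (1 + |z.re|) := by
    intro z i F hF
    rw [row_re] at hF
    have h2 := (exists_Kf h hd.h0 hd.h1).choose_spec.1
    have h3 := lin_row (hP.ht i) z.re
    calc _ ≤ _ := hF
      _ ≤ (exists_Kf h hd.h0 hd.h1).choose * (2 * (1 + |z.re|)) := mul_le_mul_of_nonneg_left h3 h2
      _ = _ := by ring
  refine @SeaCU.mk _ (seaX hP hE hd) (fun z a1 a2 => PCh_diff hP h0 a1 a2)
    (fun n z a1 a2 => ?_) (rhoH_low hP hE) hE.lo hE.le7 (fun n t hn => hE.dec n hn t)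
    (fun z a1 a2 => ?_)
    (fun z a1 a2 => ?_) (fun z a1 a2 => ?_) (fun z a1 a2 => ?_) (fun z a1 a2 => ?_)
    (fun z a1 a2 => ?_)
  · have a1' : -h ≤ z.im := a1
    show ‖iteratedDeriv n (PCh m x s) z‖ ≤
      (exists_Cb h hd.h0 hd.h1 n).choose * Real.exp (8 / 3) * _
    rw [iter_PCh hP h0 n (by linarith) (by linarith)]
    refine sum_norm_leH hP fun i => ?_
    have h2 := (exists_Cb h hd.h0 hd.h1 n).choose_spec.2 _ (hP.im_le h0 h1 a1' a2 i)
    rw [row_re] at h2
    refine h2.trans ?_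
    rw [mul_assoc]
    exact mul_le_mul_of_nonneg_left (exp_row1 (hP.ht i) z.re)
      (exists_Cb h hd.h0 hd.h1 n).choose_spec.1
  · refine DifferentiableAt.fun_sum fun i _ => ?_
    exact ((NUAct.diff_vs (hP.im_lt h0 a1 a2 i)).comp z
      ((differentiableAt_id.add_const _).sub_const _)).const_mul _
  · refine DifferentiableAt.fun_sum fun i _ => ?_
    exact ((NUAct.diff_vx (hP.im_lt h0 a1 a2 i)).comp z
      ((differentiableAt_id.add_const _).sub_const _)).const_mul _
  · refine sum_norm_leH hP fun i => hlin z i _ ?_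
    exact ((exists_Kf h hd.h0 hd.h1).choose_spec.2 _ (hP.im_le h0 h1 a1 a2 i)).1
  · refine sum_norm_leH hP fun i => hlin z i _ ?_
    exact ((exists_Kf h hd.h0 hd.h1).choose_spec.2 _ (hP.im_le h0 h1 a1 a2 i)).2
  · have a1' : -h ≤ z.im := a1
    obtain ⟨K, hK⟩ := ks_bd
    exact conv_Ch hP h0 ks_meas hK (fun w hw => NUAct.horiz_s hw) (by linarith) (by linarith)
  · have a1' : -h ≤ z.im := a1
    obtain ⟨K, hK⟩ := kx_bd
    exact conv_Ch hP h0 kx_cont.aestronglyMeasurable hK (fun w hw => NUAct.horiz_x hw)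
      (by linarith) (by linarith)

end

end PLT
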