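import Pool.Agent.PLT.H1Own
import Pool.Agent.PLT.SMst
import Pool.Agent.PLT.H1EMX
import Pool.Agent.PLT.H1Sum

/-!
# (H1) The state sum over one sequence of contents on the axis: assembly (helper39)

* `SumI S σ` : the state sum of the classes (`SumBd6`) over the straight seas `S m (σ m)`, exponent `EMX 0`;
* **`seqI_of`** : `StrS`, `SeaCU`, `CutI`, `SumI` for all sequences give `SeqI` for all sequences.
-/

set_option autoImplicit false
set_option linter.unusedSectionVars false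
set_option linter.unusedVariables false

noncomputable section

open Complex MeasureTheory Finset Filter
open PLX (Fil Ends)

namespace PLT.H1

open NURow (HT)
open NUGC.PLX (htL)
open PB0.PLX (KRU kDRU)
open PHK
open PBR.PLX
open NUP1 (l vl)
open PBR (rh)
open PLT.St
open PotH.PLX (sN)
open PBO.PLX (ClOk6 SumBd6 ltS)

attribute [local instance] _root_.PLX.ends0

variable [Fil]

/-- **the state sum of the classes** over the straight seas of the sequence `σ` -/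
def SumI (S : ℕ → (ℕ → ℝ) → SeaC) (σ : ℕ → ℕ → ℝ) : Prop :=
  SumBd6 (ltG (fun _ m t u τ => fTX m (σ m) t u τ) (fun m a t u τ => @mNC (S m (σ m)) (sN m) m a t u τ)
      fun m => MFS (S m (σ m)) (sN m)) (fun m => @EMX _ _ (S m (σ m)) 0 m) (fun m => MFS (S m (σ m)) (sN m))
    (fun ep m => KI ep (xI m (σ m))) (fun ep m => kDI ep (xI m (σ m)))
    (fun ep m t t' y u => cw6 (KI ep (xI m (σ m))) t t' (vl (htL t) y.1) (vl (htL t') y.2) u)

/-- the geometries of the sequence `σ` -/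
def Gσ (S : ℕ → (ℕ → ℝ) → SeaC) (en : EnC) (σ : ℕ → ℕ → ℝ) (m : ℕ) : GeoC :=
  GX par6 en (fun k => S k (σ m)) (fun k => xI k (σ m)) fun _ => 0

/-- the sea exponents of the letters -/
def mNσ (S : ℕ → (ℕ → ℝ) → SeaC) (σ : ℕ → ℕ → ℝ) (m : ℕ) : MNC :=
  fun k a t u τ => @mNC (S k (σ m)) (sN k) k a t u τ

/-- **the state sum from the class bounds** -/
theorem sumI_of (hWZ : WordThZ) (hFF : _root_.Pool.Agent.PLX.FFth) (en : EnC) {S : ℕ → (ℕ → ℝ) → SeaC}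
    (hE : ∀ m h, 0 < m → HtS h → ∀ t, @Cv.eta (S m h) t = 0) {σ : ℕ → ℕ → ℝ} (hσ : ∀ m, HtS (σ m))
    (H : ClsSq (Gσ S en σ) (mNσ S σ)) : SumI S σ := by
  obtain ⟨m1, -, hdat⟩ := dat_RI
  refine sumRF_cls (K := fun ep m => KI ep (xI m (σ m))) (kD := fun ep m => kDI ep (xI m (σ m)))
    (D := fun ep m => RI ep (xI m (σ m))) (ex := fun _ => [I, -I]) (c0 := 2 * Real.cos NUP1.l) H
    (realG_GX par6 en (fun i k => S k (σ i)) (fun i k => xI k (σ i)) (fun _ _ => 0) (fun m => m)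
      ⟨1, fun m hm => hE m (σ m) hm (hσ m)⟩) hWZ hFF
    (fun ep h0 h1 => ⟨m1, fun m hm => ⟨(hdat m hm _ (rws0_xI (hσ m) m) ep h0 h1).2.2, isKD_RI _ _⟩⟩)
    (fun ep h0 h1 => ⟨m1, fun m hm g => ?_⟩) fun _ m t u τ => fTX m (σ m) t u τ
  have h2 := (hdat m hm _ (rws0_xI (hσ m) m) ep h0 h1).2.2
  exact ob_GX par6 en (fun k => S k (σ m)) (fun k => xI k (σ m)) (fun _ => 0) (D := RI ep (xI m (σ m)))
    ⟨h2.rb, rfl⟩ rfl rfl rfl (funext fun a => by
      cases a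
      · exact ph_gO_fun _ _ _
      · exact ph_gO_fun _ _ _) g

/-- the exponent and the normaliser -/
theorem nrI_EMX {S : SeaC} {m : ℕ} {h : ℕ → ℝ} (hS : StrS S m h) (hm : 0 < m) :
    ‖nrI (xI m h)‖ * Real.exp (EMX 0 m) = 9 / 4 * ‖sin (NUP1.l : ℂ)‖ / ‖rh 0‖ ^ 2 := by
  have hl := NUMF.l_pos
  have h1 := EMX_I hS hm
  have hx : ∀ i, |(xI m h i).re| ≤ NUMF.l / 2 := by
    intro i
    have : (xI m h i).re = 0 := by simp [St.xI]
    rw [this, abs_zero]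
    positivity
  have h2 : nrI (xI m h) ≠ 0 := by
    rw [nrI_preU]
    exact (log_preU hx (fun j => hx (Fin.modNat j)) (by rw [zero_re, abs_zero]; positivity)
      (by rw [zero_re, abs_zero]; positivity)).1
  have h3 : 0 < ‖nrI (xI m h)‖ := norm_pos_iff.2 h2
  have h4 : 0 < 9 / 4 * ‖sin (NUP1.l : ℂ)‖ / ‖rh 0‖ ^ 2 := by
    have h5 : 0 < ‖rh 0‖ := norm_pos_iff.2 PBX.rh_zero_ne
    have h6 : sin (NUP1.l : ℂ) ≠ 0 := PBS.sin_ne_of_bd (by simp; exact hl) (by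
      simp
      have : NUP1.l = NUMF.l := rfl
      linarith)
    have h7 : 0 < ‖sin (NUP1.l : ℂ)‖ := norm_pos_iff.2 h6
    positivity
  rw [h1, Real.exp_add, Real.exp_neg, Real.exp_log h3, Real.exp_log h4]
  field_simp

/-- **the state sum over every sequence of contents** -/
theorem seqI_of {B : SeaCB} {S : ℕ → (ℕ → ℝ) → SeaC} (hB : ∀ m h, 0 < m → HtS h → @SeaCU B (S m h))
    (hT : ∀ m h, 0 < m → HtS h → StrS (S m h) m h) (hC : CutI)
    (hs : ∀ σ : ℕ → ℕ → ℝ, (∀ m, HtS (σ m)) → SumI S σ) :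
    ∀ σ : ℕ → ℕ → ℝ, (∀ m, HtS (σ m)) → SeqI σ := by
  intro σ hσ
  refine ⟨_, _, _, _, 9 / 4 * ‖sin (NUP1.l : ℂ)‖ / ‖rh 0‖ ^ 2, hs σ hσ, clOkIS hB (seaHt_of hT) hC hσ, eventually_atTop.2 ⟨1, fun m hm => ?_⟩⟩
  exact (nrI_EMX (hT m (σ m) hm (hσ m)) hm).le

end PLT.H1

end
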