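import Pool.Agent.PLT.Gas2
import Pool.Agent.PLT.PhiK
import Pool.Agent.NUCR.Bil
import Pool.Agent.PLX.Ux2
import Pool.Agent.NUAct.CK

/-!
# The constant of the action, static curve

* `stat_ker`, `disp_ker`: the pair kernel `Uc` on the static curve against `V (t - y)`, on the displaced curve
  against the static curve; `ker_all`.
* **`exists_KBsum`**: `∑ d, KB a d t = I ∫ Up Uc ga t y h'(y) dy + O((b + 1)^2 M ε)`.
* **`exists_S`**: `S = Re (∑ ∫ ρ F(ga) - ∑ ∫ B F(ζ)) + bil h' h' + O((b + 1)^3 M^2 ε + A^2)`, `|h'| ≤ A`.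
-/

set_option autoImplicit false
set_option linter.unusedSectionVars false
set_option linter.unusedVariables false

open MeasureTheory Set Filter Topology Complex

namespace PLT.Cv

open NUMF (l l_pos w g V)
open NUAct (Us Ux Uc ks kx gr Kern Up Gas Uxd Up_of_lt Up_of_le Up_meas Us_meas Ux_meas)
open NUKer (iD)
open NUSea.PLX (Com)

noncomputable section

/-! ### the kernels -/

/-- weight of the static pair kernel -/
def W4 (t y : ℝ) : ℝ := Real.exp (-(|t - y| / 4)) * (Real.exp (-(|t| / 2)) + Real.exp (-(|y| / 2)))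

lemma W4_symm (t y : ℝ) : W4 t y = W4 y t := by
  unfold W4
  rw [abs_sub_comm, add_comm (Real.exp (-(|t| / 2)))]

lemma W4_nonneg (t y : ℝ) : 0 ≤ W4 t y := by unfold W4; positivity

/-- the increments of the heights with the weight of the kernel -/
theorem wt_C (B : SeaCB) : ∃ C : ℝ, 1 ≤ C ∧ ∀ [SeaC] [SeaCU B], ∀ t y : ℝ, y < t →
    (1 + 1 / (t - y)) * Real.exp (-(t - y)) * |eta t - eta y| ≤ C * W4 t y := by
  obtain ⟨C1, h1, H1⟩ := osc_wt B
  obtain ⟨C2, h2, H2⟩ := eta_dec B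
  refine ⟨C1 + C2, by linarith, @fun _ hS t y hyt => ?_⟩
  have hx : 0 < t - y := by linarith
  have hE := Real.exp_pos (-(t - y))
  have hW := W4_nonneg t y
  have p1 : Real.exp (-(t - y)) * |eta t - eta y| ≤ C1 * W4 t y := by
    have h3 := @H1 _ hS t y
    rw [abs_of_pos hx] at h3
    refine h3.trans (mul_le_mul_of_nonneg_left ?_ (by linarith))
    unfold E2 W4
    have := Real.exp_pos (-(|y| / 2))
    have := Real.exp_pos (-(|t - y| / 4))
    nlinarith
  have bt : ∀ u, y ≤ u → u ≤ t → Real.exp (-|u|) * Real.exp (-(t - y)) ≤ W4 t y := fun u h1 h2 => by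
    refine (PLT.exp_between h1 h2).trans ?_
    unfold W4
    rw [abs_of_pos hx]
    refine mul_le_mul_of_nonneg_right (Real.exp_le_exp.2 (by linarith)) (by positivity)
  have p2 : Real.exp (-(t - y)) * (1 / (t - y) * |eta t - eta y|) ≤ C2 * W4 t y := by
    have h3 : |eta t - eta y| ≤ C2 * (W4 t y / Real.exp (-(t - y))) * (t - y) := by
      refine PLT.incr_of hasDerivAt_eta hyt.le fun u h1 h2 => ?_
      have h4 := (@H2 _ hS u).1
      have h5 := bt u h1 h2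
      refine h4.trans (mul_le_mul_of_nonneg_left ?_ (by linarith))
      rw [le_div_iff₀ hE]
      exact h5
    have h4 : 1 / (t - y) * |eta t - eta y| ≤ C2 * (W4 t y / Real.exp (-(t - y))) := by
      rw [one_div, inv_mul_le_iff₀ hx]
      linarith
    calc Real.exp (-(t - y)) * (1 / (t - y) * |eta t - eta y|) ≤
          Real.exp (-(t - y)) * (C2 * (W4 t y / Real.exp (-(t - y)))) := mul_le_mul_of_nonneg_left h4 hE.le
      _ = C2 * W4 t y := by
          field_simp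
  have e0 : (1 + 1 / (t - y)) * Real.exp (-(t - y)) * |eta t - eta y| =
      Real.exp (-(t - y)) * |eta t - eta y| + Real.exp (-(t - y)) * (1 / (t - y) * |eta t - eta y|) := by ring
  rw [e0]
  linarith

/-- **the pair kernel of the static curve** -/
theorem stat_ker (B : SeaCB) : ∃ K : ℝ, 1 ≤ K ∧ ∀ [SeaC] [SeaCU B], ∀ t y : ℝ, t ≠ y →
    ‖Up Uc ga t y - (V (t - y) : ℂ)‖ ≤ K * W4 t y := by
  obtain ⟨C, hC, HC⟩ := wt_C B
  obtain ⟨K, hK, H⟩ := NUAct.Uc_incr
  refine ⟨1 + K * C, by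
    have : 0 < K * C := by positivity
    linarith, @fun _ hS t y hne => ?_⟩
  have hl := PLT.l_num
  have key : ∀ t y, y < t → ‖Uc (ga t - ga y) - (V (t - y) : ℂ)‖ ≤ K * C * W4 t y := by
    intro t y hty
    have hx : 0 < t - y := by linarith
    have hn : ‖((eta t - eta y : ℝ) : ℂ) * I‖ = |eta t - eta y| := by
      rw [norm_mul, Complex.norm_I, mul_one, Complex.norm_real, Real.norm_eq_abs]
    have h1 := (H (t - y) (((eta t - eta y : ℝ) : ℂ) * I) hx (by
      rw [hn]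
      have := eta_lip t y
      rw [abs_of_pos hx] at this
      linarith) (by
      rw [hn]
      linarith [eta_osc t y, hl.2.2.1])).1
    rw [NUAct.Uc_ofReal hx, ← ga_sub, hn] at h1
    refine h1.trans ?_
    have h2 := @HC _ hS t y hty
    calc K * (1 + 1 / (t - y)) * Real.exp (-(t - y)) * |eta t - eta y| =
          K * ((1 + 1 / (t - y)) * Real.exp (-(t - y)) * |eta t - eta y|) := by ring
      _ ≤ K * (C * W4 t y) := mul_le_mul_of_nonneg_left h2 hK.le
      _ = _ := by ring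
  have hW := W4_nonneg t y
  have key2 : ‖Up Uc ga t y - (V (t - y) : ℂ)‖ ≤ K * C * W4 t y := by
    rcases lt_or_gt_of_ne hne with h1 | h1
    · rw [Up_of_le h1.le, W4_symm]
      have e2 : V (t - y) = V (y - t) := by rw [← NUCR.V_even, neg_sub]
      rw [e2]
      exact key y t h1
    · rw [Up_of_lt h1]
      exact key t y h1
  refine key2.trans (mul_le_mul_of_nonneg_right (by linarith) hW)

/-- **the pair kernel of the displaced curve** -/
theorem disp_ker (B : SeaCB) : ∃ K : ℝ, 1 ≤ K ∧ ∀ [SeaC] [SeaCU B], ∀ {s ε M b : ℝ} {e η η1 : ℝ → ℝ},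
    0 ≤ s → K * ε ≤ 1 → Cur s ε M b e η → (∀ t, HasDerivAt η (η1 t) t) → ∀ t y : ℝ, t ≠ y →
    ‖Up Uc (zt (gD η)) t y - Up Uc ga t y‖ ≤ K * ε * Real.exp (-|t - y|) := by
  obtain ⟨K, hK, HK⟩ := exists_kerC B
  obtain ⟨C1, hC1, H1⟩ := Cur_disp B
  have hh := B.r0
  refine ⟨C1 / B.r + K * C1, by
    have : 0 < C1 / B.r := by positivity
    nlinarith, @fun _ hS s ε M b e η η1 hs hε hc hη t y hne => ?_⟩
  have hε0 := hc.ε0
  obtain ⟨δ2, D, -⟩ := @H1 _ hS s ε M b e η η1 hs hc hη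
  have q1 : 0 ≤ K * C1 * ε := by positivity
  have q2 : 0 ≤ C1 / B.r * ε := by positivity
  have e1 : (C1 / B.r + K * C1) * ε = C1 / B.r * ε + K * C1 * ε := by ring
  rw [e1] at hε
  have a2 : C1 * ε ≤ B.r := by
    have a1 : C1 / B.r * ε ≤ 1 := by linarith
    rw [div_mul_eq_mul_div, div_le_iff₀ hh] at a1
    linarith
  have h1 := (@HK _ hS s (C1 * ε) (C1 * M) (b + 1) (gD η) (gD1 η η1) δ2 D a2 t y hne).1
  refine h1.trans (mul_le_mul_of_nonneg_right ?_ (Real.exp_pos _).le)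
  nlinarith

lemma exp_q_int (κ : ℝ) (hκ : 0 < κ) : Integrable fun u : ℝ => Real.exp (-(κ * |u|)) := by
  have h := NUAct.int_exp_abs' hκ
  refine h.congr (Eventually.of_forall fun u => ?_)
  simp only
  congr 1
  ring

lemma exp_fourth_int : Integrable fun u : ℝ => Real.exp (-(|u| / 4)) := by
  refine (exp_q_int (1 / 4) (by norm_num)).congr (Eventually.of_forall fun u => ?_)
  simp only
  congr 1
  ring

/-- majorant of the pair kernels -/
def mj (u : ℝ) : ℝ := |V u| + Real.exp (-(|u| / 4))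

lemma mj_int : Integrable mj := NUMF.V_integral.1.abs.add exp_fourth_int

lemma mj_nonneg (u : ℝ) : 0 ≤ mj u := by unfold mj; positivity

/-- its mass -/
def mj0 : ℝ := ∫ u, mj u

lemma mj0_nonneg : 0 ≤ mj0 := integral_nonneg mj_nonneg

lemma mj_sub (t : ℝ) : Integrable (fun y => mj (t - y)) ∧ ∫ y, mj (t - y) = mj0 :=
  ⟨mj_int.comp_sub_left t, integral_sub_left_eq_self mj volume t⟩

/-- bound of the pair kernel of the static curve -/
theorem stat_mj (B : SeaCB) : ∃ K : ℝ, 1 ≤ K ∧ ∀ [SeaC] [SeaCU B], ∀ t y : ℝ, t ≠ y →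
    ‖Up Uc ga t y‖ ≤ K * mj (t - y) := by
  obtain ⟨K1, hK1, H1⟩ := stat_ker B
  refine ⟨1 + 2 * K1, by linarith, @fun _ hS t y hne => ?_⟩
  have h1 := @H1 _ hS t y hne
  unfold W4 at h1
  have v0 : ‖((V (t - y) : ℝ) : ℂ)‖ = |V (t - y)| := by
    rw [Complex.norm_real, Real.norm_eq_abs]
  have v1 := abs_nonneg (V (t - y))
  have x0 := Real.exp_pos (-(|t - y| / 4))
  have x1 : Real.exp (-(|t| / 2)) + Real.exp (-(|y| / 2)) ≤ 2 := by
    have a1 : Real.exp (-(|t| / 2)) ≤ 1 := Real.exp_le_one_iff.2 (by linarith [abs_nonneg t])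
    have a2 : Real.exp (-(|y| / 2)) ≤ 1 := Real.exp_le_one_iff.2 (by linarith [abs_nonneg y])
    linarith
  have h3 : ‖Up Uc ga t y‖ ≤ ‖Up Uc ga t y - (V (t - y) : ℂ)‖ + ‖((V (t - y) : ℝ) : ℂ)‖ := by
    have := norm_add_le (Up Uc ga t y - (V (t - y) : ℂ)) (V (t - y) : ℂ)
    rwa [sub_add_cancel] at this
  have h4 : K1 * (Real.exp (-(|t - y| / 4)) * (Real.exp (-(|t| / 2)) + Real.exp (-(|y| / 2)))) ≤
      K1 * (Real.exp (-(|t - y| / 4)) * 2) := by gcongr
  unfold mj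
  have : 0 ≤ K1 * |V (t - y)| := by positivity
  rw [v0] at h3
  nlinarith

/-- all bounds of the pair kernels -/
theorem ker_all (B : SeaCB) : ∃ K : ℝ, 1 ≤ K ∧ ∀ [SeaC] [SeaCU B], ∀ {s ε M b : ℝ} {e η η1 : ℝ → ℝ},
    0 ≤ s → K * ε ≤ 1 → Cur s ε M b e η → (∀ t, HasDerivAt η (η1 t) t) → ∀ t y : ℝ, t ≠ y →
    ‖Up Uc ga t y‖ ≤ K * mj (t - y) ∧ ‖Up Uc (zt (gD η)) t y‖ ≤ K * mj (t - y) ∧
    ‖Up Uc (zt (gD η)) t y - Up Uc ga t y‖ ≤ K * ε * mj (t - y) := by
  obtain ⟨K1, hK1, H1⟩ := stat_mj B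
  obtain ⟨K2, hK2, H2⟩ := disp_ker B
  refine ⟨K1 + K2, by linarith, @fun _ hS s ε M b e η η1 hs hε hc hη t y hne => ?_⟩
  have hε0 := hc.ε0
  have q0 : 0 ≤ K1 * ε := by positivity
  have q2 : K2 * ε ≤ 1 := by nlinarith
  have g1 := @H1 _ hS t y hne
  have h2 := @H2 _ hS s ε M b e η η1 hs q2 hc hη t y hne
  have m0 := mj_nonneg (t - y)
  have g2 : ‖Up Uc (zt (gD η)) t y - Up Uc ga t y‖ ≤ K2 * ε * mj (t - y) := by
    refine h2.trans (mul_le_mul_of_nonneg_left ?_ (by positivity))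
    unfold mj
    have x2 : Real.exp (-|t - y|) ≤ Real.exp (-(|t - y| / 4)) :=
      Real.exp_le_exp.2 (by linarith [abs_nonneg (t - y)])
    have := abs_nonneg (V (t - y))
    linarith
  refine ⟨g1.trans (mul_le_mul_of_nonneg_right (by linarith) m0), ?_,
    g2.trans (mul_le_mul_of_nonneg_right (by nlinarith) m0)⟩
  have h3 : ‖Up Uc (zt (gD η)) t y‖ ≤ ‖Up Uc (zt (gD η)) t y - Up Uc ga t y‖ + ‖Up Uc ga t y‖ := by
    have := norm_add_le (Up Uc (zt (gD η)) t y - Up Uc ga t y) (Up Uc ga t y)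
    rwa [sub_add_cancel] at this
  have h4 : K2 * ε * mj (t - y) ≤ 1 * mj (t - y) := mul_le_mul_of_nonneg_right q2 m0
  nlinarith [mul_nonneg (by linarith : (0:ℝ) ≤ K2) m0]

lemma ae_neS (t : ℝ) : ∀ᵐ y : ℝ, t ≠ y := by
  have : {y : ℝ | ¬ t ≠ y} = {t} := by ext s; simp [eq_comm]
  rw [ae_iff, this]
  simp

/-- integrals of the pair kernels against bounded functions -/
lemma int_mj {k f : ℝ → ℂ} {K A t : ℝ} (hk : Measurable k) (hf : Measurable f) (hA : 0 ≤ A) (hK : 0 ≤ K)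
    (h1 : ∀ y, t ≠ y → ‖k y‖ ≤ K * mj (t - y)) (h2 : ∀ y, ‖f y‖ ≤ A) :
    Integrable (fun y => k y * f y) ∧ ‖∫ y, k y * f y‖ ≤ K * mj0 * A := by
  obtain ⟨i1, e1⟩ := mj_sub t
  have hb : ∀ᵐ y, ‖k y * f y‖ ≤ K * A * mj (t - y) := by
    filter_upwards [ae_neS t] with y hy
    rw [norm_mul]
    have h0 := mj_nonneg (t - y)
    calc ‖k y‖ * ‖f y‖ ≤ (K * mj (t - y)) * A := mul_le_mul (h1 y hy) (h2 y) (norm_nonneg _) (by positivity)
      _ = _ := by ring
  refine ⟨(i1.const_mul (K * A)).mono' (hk.mul hf).aestronglyMeasurable hb, ?_⟩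
  refine (norm_integral_le_of_norm_le (i1.const_mul (K * A)) hb).trans (le_of_eq ?_)
  rw [integral_const_mul, e1]
  ring

/-- integrals over the support -/
lemma int_supp {f : ℝ → ℂ} {A b : ℝ} (hb : 0 ≤ b) (h0 : ∀ y, b < |y| → f y = 0) (h1 : ∀ y, |y| ≤ b → ‖f y‖ ≤ A) :
    ‖∫ y, f y‖ ≤ A * (2 * b) := by
  have e3 : ∫ t, f t = ∫ t in Icc (-b) b, f t := by
    refine (setIntegral_eq_integral_of_forall_compl_eq_zero fun t ht => ?_).symm
    refine h0 t ?_
    by_contra hh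
    exact ht (abs_le.1 (not_lt.1 hh))
  rw [e3]
  have h5 := norm_setIntegral_le_of_norm_le_const (μ := volume) (s := Icc (-b) b)
    (f := f) (C := A) (by simp) (fun t ht => h1 t (abs_le.2 ht))
  refine h5.trans (le_of_eq ?_)
  rw [Measure.real, Real.volume_Icc, ENNReal.toReal_ofReal (by linarith)]
  ring

lemma int_of_supp {f : ℝ → ℂ} {b : ℝ} (hf : Continuous f) (h0 : ∀ y, b < |y| → f y = 0) : Integrable f := by
  refine hf.integrable_of_hasCompactSupport ?_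
  refine HasCompactSupport.of_support_subset_isCompact (isCompact_Icc (a := -b) (b := b)) ?_
  intro t ht
  by_contra hh
  exact ht (h0 t (by
    by_contra h2
    exact hh (abs_le.1 (not_lt.1 h2))))

/-- increments of the cross kernel -/
lemma Ux_incr : ∃ K : ℝ, 0 < K ∧ ∀ z w : ℂ, |z.im| ≤ l / 2 → |w.im| ≤ l / 2 → ‖Ux z - Ux w‖ ≤ K * ‖z - w‖ := by
  obtain ⟨K, hK, hU⟩ := NUAct.Uxd_bound
  have hl := l_pos
  refine ⟨K, hK, fun z z' h3 h4 => ?_⟩
  exact Convex.norm_image_sub_le_of_norm_hasDerivWithin_le (f := Ux) (f' := Uxd)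
    (C := K) (s := {w : ℂ | |w.im| ≤ l / 2}) (x := z') (y := z)
    (fun w hw => (NUAct.hasDerivAt_Ux (lt_of_le_of_lt hw (by linarith))).hasDerivWithinAt)
    (fun w hw => hU w hw) (by
      have e : {w : ℂ | |w.im| ≤ l / 2} = Complex.imLm ⁻¹' (Icc (-(l / 2)) (l / 2)) := by
        ext z
        simp [abs_le]
      rw [e]
      exact (convex_Icc _ _).linear_preimage _) h4 h3

/-! ### the densities -/

/-- the path in the strip of the sea -/
theorem path_B (B : SeaCB) : ∃ C : ℝ, 1 ≤ C ∧ ∀ [SeaC] [SeaCU B], ∀ {s ε M b : ℝ}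
    {e η η1 : ℝ → ℝ}, 0 ≤ s → C * ε ≤ 1 → Cur s ε M b e η → (∀ t, HasDerivAt η (η1 t) t) →
    SPath (-B.h) (l / 4) (1 / 2) C (zt (gD η)) (zd (gD1 η η1)) ∧ ∀ t, ‖gD η t‖ ≤ C * ε := by
  obtain ⟨C, hC, H⟩ := Cur_path_w B
  obtain ⟨C1, hC1, H1⟩ := Cur_disp B
  have hh := B.r0
  have hh1 := B.h1
  have hl := l_pos
  have hp : 0 < C / B.r := by positivity
  refine ⟨C + C / B.r + C1, by linarith, @fun _ hS s ε M b e η η1 hs hε hc hη => ?_⟩
  have hε0 := hc.ε0
  have q1 : 0 ≤ C * ε := by positivity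
  have q2 : 0 ≤ C / B.r * ε := by positivity
  have q3 : 0 ≤ C1 * ε := by positivity
  have e1 : (C + C / B.r + C1) * ε = C * ε + C / B.r * ε + C1 * ε := by ring
  rw [e1] at hε
  have a1 : C / B.r * ε ≤ 1 := by linarith
  have a2 : C * ε ≤ B.r := by
    rw [div_mul_eq_mul_div, div_le_iff₀ hh] at a1
    linarith
  have hrd := B.rd
  have hrh := B.rh
  have hBt := B.top1
  have P1 := @H _ hS s ε M b (-B.h) (l / 4) e η η1 hs (by linarith) (by linarith) (by linarith) hc hη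
  obtain ⟨δ2, D, -⟩ := @H1 _ hS s ε M b e η η1 hs hc hη
  refine ⟨{ P1 with dle := fun t => (P1.dle t).trans (by linarith), near := fun t => (P1.near t).trans (by linarith) },
    fun t => (D.e0 t).trans ?_⟩
  rw [e1]
  linarith

lemma SExt_one {lo hi : ℝ} : SExt lo hi (fun _ : ℂ => (1:ℂ)) :=
  SExt_of_lin (K := 1) (fun z _ _ => differentiableAt_const _) (fun z _ _ => by
    rw [norm_one, one_mul]
    have := abs_nonneg z.re
    linarith)

/-- the displaced density has no mass -/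
theorem Bf_mass (B : SeaCB) [SeaC] [SeaCU B] {s C : ℝ} {η η1 : ℝ → ℝ}
    (P1 : SPath (-B.h) (l / 4) (1 / 2) C (zt (gD η)) (zd (gD1 η η1))) :
    Integrable (Bf s (gD η) (gD1 η η1)) ∧ ∫ t, Bf s (gD η) (gD1 η η1) t = 0 := by
  have hl := l_pos
  have hh := B.h0
  have S : Str B (-B.h) (l / 4) := ⟨le_rfl, neg_le_neg B.dh', B.top_l4, le_rfl⟩
  obtain ⟨i1, e1⟩ := cv_gen B s S P1 SExt_one
  have i2 := int_rF B s S SExt_one
  simp only [mul_one] at i1 e1 i2
  have e2 : ∀ t, Bf s (gD η) (gD1 η η1) t =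
      (s : ℂ) * (Pc (zt (gD η) t) * zd (gD1 η η1) t) - ((s * P t : ℝ) : ℂ) := fun t => rfl
  refine ⟨(i1.sub i2).congr (Eventually.of_forall fun t => (e2 t).symm), ?_⟩
  simp_rw [e2]
  rw [integral_sub i1 i2, e1, sub_self]

/-! ### the potential of the current on the static curve -/

lemma Up_Uc (ζ : ℝ → ℂ) (t y : ℝ) : Up Uc ζ t y = Up Us ζ t y + Ux (ζ t - ζ y) := by
  rcases lt_or_ge y t with h | h
  · rw [Up_of_lt h, Up_of_lt h, NUAct.Uc_eq]
  · rw [Up_of_le h, Up_of_le h, NUAct.Uc_eq, ← NUAct.Ux_neg (ζ t - ζ y), neg_sub]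

lemma Up_Uc_meas {ζ : ℝ → ℂ} (hζ : Continuous ζ) (t : ℝ) : Measurable fun y => Up Uc ζ t y :=
  Measurable.of_uncurry_left (f := fun t y => Up Uc ζ t y) (Up_meas NUAct.Uc_meas hζ)

/-- **the potential of a density on the static curve** -/
theorem Phi_cv (B : SeaCB) : ∃ K : ℝ, 1 ≤ K ∧ ∀ [SeaC] [SeaCU B], ∀ {h : ℝ → ℝ} {A : ℝ}, Measurable h →
    (∀ t, |h t| ≤ A) → ∀ t, Integrable (fun y => Up Uc ga t y * (h y : ℂ)) ∧
    ‖∫ y, Up Uc ga t y * (h y : ℂ)‖ ≤ K * A ∧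
    ‖(∫ y, Up Uc ga t y * (h y : ℂ)) - (NUCR.cv h t : ℂ)‖ ≤ K * A * Real.exp (-(|t| / 4)) := by
  obtain ⟨K1, hK1, H1⟩ := stat_ker B
  obtain ⟨K2, hK2, H2⟩ := stat_mj B
  obtain ⟨I2, hI2⟩ : ∃ I2 : ℝ, I2 = ∫ u : ℝ, Real.exp (-(|u| / 4)) := ⟨_, rfl⟩
  have hi2 := exp_fourth_int
  have I2n : 0 ≤ I2 := by rw [hI2]; exact integral_nonneg fun _ => (Real.exp_pos _).le
  have m0 := mj0_nonneg
  refine ⟨1 + K2 * mj0 + K1 * (I2 + I2), by
    have : 0 ≤ K2 * mj0 := by positivity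
    have : 0 ≤ K1 * (I2 + I2) := by positivity
    linarith, @fun _ hS h A hm hA t => ?_⟩
  have hA0 : 0 ≤ A := (abs_nonneg _).trans (hA 0)
  have q1 : 0 ≤ K2 * mj0 := by positivity
  have q2 : 0 ≤ K1 * (I2 + I2) := by positivity
  obtain ⟨i1, b1⟩ := int_mj (k := fun y => Up Uc ga t y) (f := fun y => (h y : ℂ)) (K := K2) (A := A) (t := t)
    (Up_Uc_meas continuous_ga t) (Complex.measurable_ofReal.comp hm) hA0 (by linarith)
    (fun y hy => @H2 _ hS t y hy) (fun y => by rw [Complex.norm_real, Real.norm_eq_abs]; exact hA y)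
  refine ⟨i1, b1.trans (mul_le_mul_of_nonneg_right (by linarith) hA0), ?_⟩
  have i2 : Integrable fun y => V (t - y) * h y :=
    NUCR.cv_integrable hm.aestronglyMeasurable hA t
  have e1 : (∫ y, Up Uc ga t y * (h y : ℂ)) - (NUCR.cv h t : ℂ) =
      ∫ y, (Up Uc ga t y - (V (t - y) : ℂ)) * (h y : ℂ) := by
    have e2 : (NUCR.cv h t : ℂ) = ∫ y, ((V (t - y) * h y : ℝ) : ℂ) := by
      unfold NUCR.cv
      exact integral_complex_ofReal.symm
    have i2' : Integrable fun y => ((V (t - y) * h y : ℝ) : ℂ) := i2.ofReal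
    rw [e2, ← integral_sub i1 i2']
    refine integral_congr_ae (Eventually.of_forall fun y => ?_)
    simp only
    push_cast
    ring
  rw [e1]
  -- the majorant
  have i3 : Integrable fun y : ℝ => Real.exp (-(|t - y| / 4)) := exp_fourth_int.comp_sub_left t
  have e3 : ∫ y : ℝ, Real.exp (-(|t - y| / 4)) = I2 := by
    rw [hI2]
    exact integral_sub_left_eq_self (fun u : ℝ => Real.exp (-(|u| / 4))) volume t
  have i4 := (i3.add hi2).const_mul (K1 * A * Real.exp (-(|t| / 4)))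
  have hb : ∀ᵐ y, ‖(Up Uc ga t y - (V (t - y) : ℂ)) * (h y : ℂ)‖ ≤
      K1 * A * Real.exp (-(|t| / 4)) * (Real.exp (-(|t - y| / 4)) + Real.exp (-(|y| / 4))) := by
    filter_upwards [ae_neS t] with y hy
    rw [norm_mul, Complex.norm_real, Real.norm_eq_abs]
    have g1 := @H1 _ hS t y hy
    have g2 := hA y
    have tri : |t| ≤ |t - y| + |y| := by
      have := abs_add_le (t - y) y
      rwa [sub_add_cancel] at this
    have ht0 := abs_nonneg t
    have hy0 := abs_nonneg y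
    have hty := abs_nonneg (t - y)
    unfold W4 at g1
    have x1 : Real.exp (-(|t - y| / 4)) * Real.exp (-(|t| / 2)) ≤
        Real.exp (-(|t| / 4)) * Real.exp (-(|t - y| / 4)) := by
      rw [← Real.exp_add, ← Real.exp_add]
      exact Real.exp_le_exp.2 (by linarith)
    have x2 : Real.exp (-(|t - y| / 4)) * Real.exp (-(|y| / 2)) ≤
        Real.exp (-(|t| / 4)) * Real.exp (-(|y| / 4)) := by
      rw [← Real.exp_add, ← Real.exp_add]
      exact Real.exp_le_exp.2 (by linarith)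
    calc ‖Up Uc ga t y - (V (t - y) : ℂ)‖ * |h y| ≤
          (K1 * (Real.exp (-(|t - y| / 4)) * (Real.exp (-(|t| / 2)) + Real.exp (-(|y| / 2))))) * A :=
          mul_le_mul g1 g2 (abs_nonneg _) (by positivity)
      _ = K1 * A * (Real.exp (-(|t - y| / 4)) * Real.exp (-(|t| / 2)) +
          Real.exp (-(|t - y| / 4)) * Real.exp (-(|y| / 2))) := by ring
      _ ≤ K1 * A * (Real.exp (-(|t| / 4)) * Real.exp (-(|t - y| / 4)) +
          Real.exp (-(|t| / 4)) * Real.exp (-(|y| / 4))) :=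
          mul_le_mul_of_nonneg_left (add_le_add x1 x2) (by positivity)
      _ = _ := by ring
  refine (norm_integral_le_of_norm_le i4 hb).trans ?_
  simp only [Pi.add_apply]
  rw [integral_const_mul, integral_add i3 hi2, e3, ← hI2]
  have hx := Real.exp_pos (-(|t| / 4))
  calc K1 * A * Real.exp (-(|t| / 4)) * (I2 + I2) = (K1 * (I2 + I2)) * (A * Real.exp (-(|t| / 4))) := by ring
    _ ≤ (1 + K2 * mj0 + K1 * (I2 + I2)) * (A * Real.exp (-(|t| / 4))) :=
        mul_le_mul_of_nonneg_right (by linarith) (by positivity)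
    _ = _ := by ring

/-! ### the sum over the species -/

/-- exchange of the species in the cross potential -/
lemma cross_diff (B : SeaCB) [SeaC] [SeaCU B] {KU C1 D E b A : ℝ} (hKU : 0 ≤ KU)
    (HU : ∀ z w : ℂ, |z.im| ≤ l / 2 → |w.im| ≤ l / 2 → ‖Ux z - Ux w‖ ≤ KU * ‖z - w‖) {z : ℂ}
    (hz1 : -B.h ≤ z.im) (hz2 : z.im ≤ l / 4) {ζ ζ' ξ ξ' : ℝ → ℂ}
    (P1 : SPath (-B.h) (l / 4) (1 / 2) C1 ζ ζ') (P2 : SPath (-B.h) (l / 4) (1 / 2) C1 ξ ξ') {f g : ℝ → ℂ}
    (hf : Continuous f) (hg : Continuous g) (f0 : ∀ y, b < |y| → f y = 0) (g0 : ∀ y, b < |y| → g y = 0)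
    (fi : ∫ y, f y = 0) (gi : ∫ y, g y = 0) (hb : 0 ≤ b) (hA0 : 0 ≤ A) (hE0 : 0 ≤ E) (fA : ∀ y, ‖f y‖ ≤ A)
    (hfg : ∀ y, ‖f y - g y‖ ≤ D) (hζξ : ∀ y, ‖ζ y - ξ y‖ ≤ E) :
    ‖(∫ y, Ux (z - ζ y) * f y) - ∫ y, Ux (z - ξ y) * g y‖ ≤
      (KU * E * A + KU * (b + C1) * D) * (2 * b) := by
  have hl := l_pos
  have hh := B.h0
  have hh1 := B.h1
  have imd : ∀ {ζ ζ' : ℝ → ℂ}, SPath (-B.h) (l / 4) (1 / 2) C1 ζ ζ' → ∀ y, |(z - ζ y).im| ≤ l / 2 := by
    intro ζ ζ' P y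
    have a1 := P.im_ge y
    have a2 := P.im_le y
    rw [Complex.sub_im, abs_le]
    constructor <;> linarith
  have cU : ∀ {ζ ζ' : ℝ → ℂ}, SPath (-B.h) (l / 4) (1 / 2) C1 ζ ζ' → Continuous fun y => Ux (z - ζ y) := by
    intro ζ ζ' P
    have hc : ContinuousOn Ux {w : ℂ | |w.im| ≤ l / 2} := fun w hw =>
      (NUAct.hasDerivAt_Ux (lt_of_le_of_lt hw (by linarith))).continuousAt.continuousWithinAt
    exact hc.comp_continuous (continuous_const.sub P.continuous) fun y => imd P y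
  have i1 : Integrable fun y => Ux (z - ζ y) * f y :=
    int_of_supp ((cU P1).mul hf) fun y hy => by rw [f0 y hy, mul_zero]
  have i2 : Integrable fun y => Ux (z - ξ y) * g y :=
    int_of_supp ((cU P2).mul hg) fun y hy => by rw [g0 y hy, mul_zero]
  have if' : Integrable f := int_of_supp hf f0
  have ig' : Integrable g := int_of_supp hg g0
  have e1 : (∫ y, Ux (z - ζ y) * f y) - ∫ y, Ux (z - ξ y) * g y =
      ∫ y, ((Ux (z - ζ y) - Ux (z - ξ y)) * f y + (Ux (z - ξ y) - Ux z) * (f y - g y)) := by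
    have e2 : (∫ y, Ux (z - ζ y) * f y) - ∫ y, Ux (z - ξ y) * g y =
        ((∫ y, Ux (z - ζ y) * f y) - ∫ y, Ux (z - ξ y) * g y) -
          ((∫ y, Ux z * f y) - ∫ y, Ux z * g y) := by
      rw [integral_const_mul, integral_const_mul, fi, gi]
      ring
    have j1 : Integrable fun y => Ux (z - ζ y) * f y - Ux (z - ξ y) * g y := i1.sub i2
    have j2 : Integrable fun y => Ux z * f y - Ux z * g y := (if'.const_mul _).sub (ig'.const_mul _)
    rw [e2, ← integral_sub i1 i2, ← integral_sub (if'.const_mul _) (ig'.const_mul _), ← integral_sub j1 j2]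
    refine integral_congr_ae (Eventually.of_forall fun y => ?_)
    simp only
    ring
  rw [e1]
  refine int_supp hb (fun y hy => by rw [f0 y hy, g0 y hy]; simp) (fun y hy => ?_)
  have u1 : ‖Ux (z - ζ y) - Ux (z - ξ y)‖ ≤ KU * E := by
    refine (HU _ _ (imd P1 y) (imd P2 y)).trans (mul_le_mul_of_nonneg_left ?_ hKU)
    rw [show z - ζ y - (z - ξ y) = -(ζ y - ξ y) by ring, norm_neg]
    exact hζξ y
  have u2 : ‖Ux (z - ξ y) - Ux z‖ ≤ KU * (b + C1) := by
    refine (HU _ _ (imd P2 y) (by rw [abs_le]; constructor <;> linarith)).trans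
      (mul_le_mul_of_nonneg_left ?_ hKU)
    rw [show z - ξ y - z = -(ξ y) by ring, norm_neg]
    have h1 := P2.near y
    have h2 := norm_add_le (ξ y - y) (y : ℂ)
    rw [sub_add_cancel, Complex.norm_real, Real.norm_eq_abs] at h2
    linarith
  have hD0 : 0 ≤ D := (norm_nonneg _).trans (hfg y)
  have hC1 := P2.B0
  refine (norm_add_le _ _).trans (add_le_add ?_ ?_)
  · rw [norm_mul]
    exact mul_le_mul u1 (fA y) (norm_nonneg _) (by positivity)
  · rw [norm_mul]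
    exact mul_le_mul u2 (hfg y) (norm_nonneg _) (by positivity)

/-- the data of the displaced densities -/
structure DD [SeaC] (B : SeaCB) (C ε M b : ℝ) (s : Bool → ℝ) (η η1 : Bool → ℝ → ℝ) : Prop where
  path : ∀ a, SPath (-B.h) (l / 4) (1 / 2) C (zt (gD (η a))) (zd (gD1 (η a) (η1 a)))
  gle : ∀ a t, ‖gD (η a) t‖ ≤ C * ε
  bb : ∀ a, BB (s a) (C * (M * ε)) (C * M) b (η a) (η1 a)
  dif : ∀ a t, ‖Bf (s a) (gD (η a)) (gD1 (η a) (η1 a)) t - I * (hd (s true) (η true) (η1 true) t : ℂ)‖ ≤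
    C * (M * ε)
  ker : ∀ a t y, t ≠ y → ‖Up Uc (zt (gD (η a))) t y - Up Uc ga t y‖ ≤ C * ε * mj (t - y)
  kst : ∀ t y, t ≠ y → ‖Up Uc ga t y‖ ≤ C * mj (t - y)

theorem exists_DD (B : SeaCB) : ∃ C : ℝ, 1 ≤ C ∧ ∀ [SeaC] [SeaCU B], ∀ {s : Bool → ℝ} {ε M b : ℝ} {e : ℝ → ℝ}
    {η η1 : Bool → ℝ → ℝ}, (∀ a, 0 ≤ s a) → C * ε ≤ 1 → (∀ a, Cur (s a) ε M b e (η a)) →
    (∀ a t, HasDerivAt (η a) (η1 a t) t) → Com M s e η η1 → DD B C ε M b s η η1 := by
  obtain ⟨C1, hC1, H1⟩ := path_B B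
  obtain ⟨C2, hC2, H2⟩ := exists_BB B
  obtain ⟨C3, hC3, H3⟩ := exists_com B
  obtain ⟨C4, hC4, H4⟩ := P_le B
  obtain ⟨C5, hC5, H5⟩ := ker_all B
  refine ⟨C1 + C2 + C3 * C4 + C5, by
    have : 0 < C3 * C4 := by positivity
    linarith, @fun _ hS s ε M b e η η1 hs hε hc hη hcom => ?_⟩
  have hε0 := (hc true).ε0
  have hM := (hc true).M0 B (hs true)
  have hMε := mul_nonneg hM hε0
  have q0 : 0 < C3 * C4 := by positivity
  have q1 : 0 ≤ C1 * ε := by positivity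
  have q2 : 0 ≤ C2 * ε := by positivity
  have q3 : 0 ≤ C3 * C4 * ε := by positivity
  have q5 : 0 ≤ C5 * ε := by positivity
  have e1 : (C1 + C2 + C3 * C4 + C5) * ε = C1 * ε + C2 * ε + C3 * C4 * ε + C5 * ε := by ring
  rw [e1] at hε
  have p : ∀ a, _ := fun a => @H1 _ hS (s a) ε M b e (η a) (η1 a) (hs a) (by linarith) (hc a) (hη a)
  have bb : ∀ a, _ := fun a => @H2 _ hS (s a) ε M b e (η a) (η1 a) (hs a) (by linarith) (hc a) (hη a)
  have kk : ∀ a, _ := fun a => @H5 _ hS (s a) ε M b e (η a) (η1 a) (hs a) (by linarith) (hc a) (hη a)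
  obtain ⟨CC, hCC⟩ : ∃ CC, CC = C1 + C2 + C3 * C4 + C5 := ⟨_, rfl⟩
  rw [← hCC]
  have k1 : C1 ≤ CC := by linarith
  have k2 : C2 ≤ CC := by linarith
  have k5 : C5 ≤ CC := by linarith
  have k23 : C2 + C3 * C4 ≤ CC := by linarith
  refine ⟨fun a => ?_, fun a t => ((p a).2 t).trans (mul_le_mul_of_nonneg_right k1 hε0), fun a => ?_,
    fun a t => ?_, fun a t y hne => ?_, fun t y hne => ?_⟩
  · have P1 := (p a).1
    exact { P1 with dle := fun t => (P1.dle t).trans k1, near := fun t => (P1.near t).trans k1 }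
  · have b1 := bb a
    have m1 : C2 * M ≤ CC * M := mul_le_mul_of_nonneg_right k2 hM
    have m2 : C2 * (M * ε) ≤ CC * (M * ε) := mul_le_mul_of_nonneg_right k2 hMε
    exact { b1 with
      le := fun t => (b1.le t).trans m1
      re := b1.re.mono m2
      hle := fun t => (b1.hle t).trans m1
      rle := fun t => (b1.rle t).trans m2 }
  · rw [B_eq B]
    have g1 := (bb a).rle t
    have g2 := (@H3 _ hS M s e η η1 hcom a t).2
    have g3 : P t * e t ≤ C4 * ε := by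
      have h1 := @H4 _ hS t
      have h2 : Real.exp (-(8 / 3) * |t|) ≤ 1 := Real.exp_le_one_iff.2 (by
        have := abs_nonneg t
        linarith)
      have h3 : P t ≤ C4 := h1.trans (by nlinarith)
      exact mul_le_mul h3 ((hc true).le t) ((hc true).nonneg t) hC4.le
    have g4 : C3 * (M * (P t * e t)) ≤ C3 * C4 * (M * ε) := by
      calc C3 * (M * (P t * e t)) ≤ C3 * (M * (C4 * ε)) := by gcongr
        _ = _ := by ring
    have e2 : (hd (s a) (η a) (η1 a) t : ℂ) * I + Br (s a) (gD (η a)) (gD1 (η a) (η1 a)) t -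
        I * (hd (s true) (η true) (η1 true) t : ℂ) =
        I * ((hd (s a) (η a) (η1 a) t - hd (s true) (η true) (η1 true) t : ℝ) : ℂ) +
          Br (s a) (gD (η a)) (gD1 (η a) (η1 a)) t := by
      push_cast
      ring
    rw [e2]
    refine (norm_add_le _ _).trans ?_
    rw [norm_mul, Complex.norm_I, one_mul, Complex.norm_real, Real.norm_eq_abs]
    calc _ ≤ C3 * C4 * (M * ε) + C2 * (M * ε) := add_le_add (g2.trans g4) g1
      _ = (C2 + C3 * C4) * (M * ε) := by ring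
      _ ≤ _ := mul_le_mul_of_nonneg_right k23 hMε
  · refine ((kk a) t y hne).2.2.trans ?_
    have m0 := mj_nonneg (t - y)
    have : C5 * ε ≤ CC * ε := mul_le_mul_of_nonneg_right k5 hε0
    exact mul_le_mul_of_nonneg_right this m0
  · refine ((kk true) t y hne).1.trans ?_
    exact mul_le_mul_of_nonneg_right k5 (mj_nonneg (t - y))

/-- **the sum over the species of the potentials of the displacement** -/
theorem exists_KBsum (B : SeaCB) : ∃ K : ℝ, 1 ≤ K ∧ ∀ [SeaC] [SeaCU B], ∀ {s : Bool → ℝ} {ε M b : ℝ}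
    {e : ℝ → ℝ} {η η1 : Bool → ℝ → ℝ}, (∀ a, 0 ≤ s a) → 0 ≤ b → K * ε ≤ 1 →
    (∀ a, Cur (s a) ε M b e (η a)) → (∀ a t, HasDerivAt (η a) (η1 a t) t) → Com M s e η η1 →
    ∀ (Fe : Bool → ℂ → ℂ) (a : Bool) (t : ℝ),
    ‖(∑ d, (gas s η η1 Fe).KB a d t) -
      I * ∫ y, Up Uc ga t y * (hd (s true) (η true) (η1 true) y : ℂ)‖ ≤ K * (b + 1) ^ 2 * (M * ε) := by
  obtain ⟨C, hC, H⟩ := exists_DD B
  obtain ⟨KU, hKU, HU⟩ := Ux_incr
  have m0 := mj0_nonneg
  have hCp : 0 < C := by linarith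
  refine ⟨C + 2 * C ^ 2 * mj0 + 8 * KU * C ^ 2 + 4 * KU * C * (1 + C), by
    have : 0 ≤ 2 * C ^ 2 * mj0 + 8 * KU * C ^ 2 + 4 * KU * C * (1 + C) := by positivity
    linarith, @fun _ hS s ε M b e η η1 hs hb hε hc hη hcom Fe a t => ?_⟩
  have hε0 := (hc true).ε0
  have hM := (hc true).M0 B (hs true)
  have hMε := mul_nonneg hM hε0
  have q1 : 0 ≤ 2 * C ^ 2 * mj0 + 8 * KU * C ^ 2 + 4 * KU * C * (1 + C) := by positivity
  have hCε : C * ε ≤ 1 := by nlinarith [mul_nonneg q1 hε0]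
  have D := @H _ hS s ε M b e η η1 hs hCε hc hη hcom
  have hl := l_pos
  obtain ⟨Bd, hBd⟩ : ∃ Bd : Bool → ℝ → ℂ, Bd = fun a => Bf (s a) (gD (η a)) (gD1 (η a) (η1 a)) := ⟨_, rfl⟩
  obtain ⟨h, hh⟩ : ∃ h : ℝ → ℝ, h = hd (s true) (η true) (η1 true) := ⟨_, rfl⟩
  obtain ⟨ζ, hζ⟩ : ∃ ζ : Bool → ℝ → ℂ, ζ = fun a => zt (gD (η a)) := ⟨_, rfl⟩
  have P : ∀ a, SPath (-B.h) (l / 4) (1 / 2) C (ζ a) (zd (gD1 (η a) (η1 a))) := fun a => by
    rw [hζ]
    exact D.path a
  have Bc : ∀ a, Continuous (Bd a) := fun a => by rw [hBd]; exact (D.bb a).cont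
  have Bl : ∀ a y, ‖Bd a y‖ ≤ C * M := fun a y => by rw [hBd]; exact (D.bb a).le y
  have B0 : ∀ a y, b < |y| → Bd a y = 0 := fun a y hy => by rw [hBd]; exact (D.bb a).supp y hy
  have Bi : ∀ a, ∫ y, Bd a y = 0 := fun a => by rw [hBd]; exact (Bf_mass B (D.path a)).2
  have Bh : ∀ a y, ‖Bd a y - I * (h y : ℂ)‖ ≤ C * (M * ε) := fun a y => by
    rw [hBd, hh]
    exact D.dif a y
  have hm : Continuous h := by rw [hh]; exact (D.bb true).hc
  have hle : ∀ y, |h y| ≤ C * M := fun y => by rw [hh]; exact (D.bb true).hle y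
  -- cross differences
  have Bab : ∀ a d y, ‖Bd a y - Bd d y‖ ≤ 2 * C * (M * ε) := fun a d y => by
    have e1 : Bd a y - Bd d y = (Bd a y - I * (h y : ℂ)) - (Bd d y - I * (h y : ℂ)) := by ring
    rw [e1]
    refine (norm_sub_le _ _).trans ?_
    linarith [Bh a y, Bh d y]
  have ζab : ∀ a d y, ‖ζ a y - ζ d y‖ ≤ 2 * (C * ε) := fun a d y => by
    have e1 : ζ a y - ζ d y = gD (η a) y - gD (η d) y := by
      rw [hζ]
      unfold zt
      ring
    rw [e1]
    refine (norm_sub_le _ _).trans ?_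
    linarith [D.gle a y, D.gle d y]
  have X := cross_diff B hKU.le HU (z := ζ a t) ((P a).im_ge t) ((P a).im_le t) (P (!a)) (P a) (Bc (!a)) (Bc a)
    (B0 (!a)) (B0 a) (Bi (!a)) (Bi a) hb (by positivity : 0 ≤ C * M) (by positivity : 0 ≤ 2 * (C * ε)) (Bl (!a))
    (Bab (!a) a) (ζab (!a) a)
  -- the pair part
  have k1 := fun y (hy : t ≠ y) => D.ker a t y hy
  have k2 := fun y (hy : t ≠ y) => D.kst t y hy
  have mU : Measurable fun y => Up Uc ga t y := Up_Uc_meas continuous_ga t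
  have mU' : Measurable fun y => Up Uc (ζ a) t y := Up_Uc_meas (P a).continuous t
  obtain ⟨i1, b1⟩ := int_mj (k := fun y => Up Uc (ζ a) t y - Up Uc ga t y) (f := Bd a) (K := C * ε) (A := C * M)
    (t := t) (mU'.sub mU) (Bc a).measurable (by positivity) (by positivity) (by rw [hζ]; exact k1) (Bl a)
  obtain ⟨i2, b2⟩ := int_mj (k := fun y => Up Uc ga t y) (f := fun y => Bd a y - I * (h y : ℂ)) (K := C)
    (A := C * (M * ε)) (t := t) mU ((Bc a).sub (continuous_const.mul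
      (Complex.continuous_ofReal.comp hm))).measurable (by positivity) hCp.le k2 (Bh a)
  obtain ⟨i3, b3⟩ := int_mj (k := fun y => Up Uc ga t y) (f := fun y => (h y : ℂ)) (K := C)
    (A := C * M) (t := t) mU (Complex.continuous_ofReal.comp hm).measurable (by positivity) hCp.le k2
    (fun y => by rw [Complex.norm_real, Real.norm_eq_abs]; exact hle y)
  obtain ⟨i4, b4⟩ := int_mj (k := fun y => Up Uc ga t y) (f := Bd a) (K := C)
    (A := C * M) (t := t) mU (Bc a).measurable (by positivity) hCp.le k2 (Bl a)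
  have i5 : Integrable fun y => Up Uc (ζ a) t y * Bd a y := by
    refine (i1.add i4).congr (Eventually.of_forall fun y => ?_)
    simp only [Pi.add_apply]
    ring
  -- the cross potential of the own species
  have imd : ∀ y, |(ζ a t - ζ a y).im| ≤ l / 2 := by
    intro y
    have a1 := (P a).im_ge t
    have a2 := (P a).im_le t
    have a3 := (P a).im_ge y
    have a4 := (P a).im_le y
    have hh0 := B.h0
    have hh1 := B.h1
    rw [Complex.sub_im, abs_le]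
    constructor <;> linarith
  have cU : Continuous fun y => Ux (ζ a t - ζ a y) := by
    have hc' : ContinuousOn Ux {w : ℂ | |w.im| ≤ l / 2} := fun w hw =>
      (NUAct.hasDerivAt_Ux (lt_of_le_of_lt hw (by linarith))).continuousAt.continuousWithinAt
    exact hc'.comp_continuous (continuous_const.sub (P a).continuous) fun y => imd y
  have i6 : Integrable fun y => Ux (ζ a t - ζ a y) * Bd a y :=
    int_of_supp (cU.mul (Bc a)) fun y hy => by rw [B0 a y hy, mul_zero]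
  have i7 : Integrable fun y => Up Us (ζ a) t y * Bd a y := by
    refine (i5.sub i6).congr (Eventually.of_forall fun y => ?_)
    simp only [Pi.sub_apply]
    rw [Up_Uc]
    ring
  have e1 : (∑ d, (gas s η η1 Fe).KB a d t) - I * ∫ y, Up Uc ga t y * (h y : ℂ) =
      (∫ y, (Up Uc (ζ a) t y - Up Uc ga t y) * Bd a y) +
      (∫ y, Up Uc ga t y * (Bd a y - I * (h y : ℂ))) +
      ((∫ y, Ux (ζ a t - ζ (!a) y) * Bd (!a) y) - ∫ y, Ux (ζ a t - ζ a y) * Bd a y) := by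
    have g1 : (gas s η η1 Fe).KB a a t = ∫ y, Up Us (ζ a) t y * Bd a y := by
      rw [gas_KB, hζ, hBd]
      unfold Kf
      simp only [if_true]
    have g2 : (gas s η η1 Fe).KB a (!a) t = ∫ y, Ux (ζ a t - ζ (!a) y) * Bd (!a) y := by
      rw [gas_KB, hζ, hBd]
      unfold Kf
      cases a <;> simp
    have g3 : (∑ d, (gas s η η1 Fe).KB a d t) = (gas s η η1 Fe).KB a a t + (gas s η η1 Fe).KB a (!a) t := by
      rw [Fintype.sum_bool]
      cases a
      · rw [add_comm]; rfl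
      · rfl
    have g4 : (∫ y, Up Us (ζ a) t y * Bd a y) = (∫ y, Up Uc (ζ a) t y * Bd a y) -
        ∫ y, Ux (ζ a t - ζ a y) * Bd a y := by
      rw [← integral_sub i5 i6]
      refine integral_congr_ae (Eventually.of_forall fun y => ?_)
      simp only
      rw [Up_Uc]
      ring
    have g5 : (∫ y, (Up Uc (ζ a) t y - Up Uc ga t y) * Bd a y) = (∫ y, Up Uc (ζ a) t y * Bd a y) -
        ∫ y, Up Uc ga t y * Bd a y := by
      rw [← integral_sub i5 i4]
      refine integral_congr_ae (Eventually.of_forall fun y => ?_)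
      simp only
      ring
    have g6 : (∫ y, Up Uc ga t y * (Bd a y - I * (h y : ℂ))) = (∫ y, Up Uc ga t y * Bd a y) -
        I * ∫ y, Up Uc ga t y * (h y : ℂ) := by
      rw [← integral_const_mul, ← integral_sub i4 (i3.const_mul I)]
      refine integral_congr_ae (Eventually.of_forall fun y => ?_)
      simp only
      ring
    rw [g3, g1, g2, g4, g5, g6]
    ring
  rw [← hh, e1]
  refine (norm_add_le _ _).trans ((add_le_add ((norm_add_le _ _).trans (add_le_add b1 b2)) X).trans ?_)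
  have n1 : (1:ℝ) ≤ (b + 1) ^ 2 := one_le_pow₀ (by linarith)
  have n2 : b ≤ (b + 1) ^ 2 := by nlinarith
  have n3 : (b + C) * (2 * b) ≤ 2 * (1 + C) * (b + 1) ^ 2 := by
    have : 0 ≤ C * (b ^ 2 + b + 1) := by positivity
    nlinarith
  have n4 : 2 * b ≤ 2 * (b + 1) ^ 2 := by linarith
  have t1 : C * ε * mj0 * (C * M) + C * mj0 * (C * (M * ε)) ≤ 2 * C ^ 2 * mj0 * ((b + 1) ^ 2 * (M * ε)) := by
    have : C * ε * mj0 * (C * M) + C * mj0 * (C * (M * ε)) = 2 * C ^ 2 * mj0 * (1 * (M * ε)) := by ring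
    rw [this]
    gcongr
  have t2 : KU * (2 * (C * ε)) * (C * M) * (2 * b) ≤ 8 * KU * C ^ 2 * ((b + 1) ^ 2 * (M * ε)) := by
    have e3 : KU * (2 * (C * ε)) * (C * M) * (2 * b) = 2 * KU * C ^ 2 * ((2 * b) * (M * ε)) := by ring
    rw [e3]
    calc 2 * KU * C ^ 2 * ((2 * b) * (M * ε)) ≤ 2 * KU * C ^ 2 * ((2 * (b + 1) ^ 2) * (M * ε)) := by gcongr
      _ = 4 * KU * C ^ 2 * ((b + 1) ^ 2 * (M * ε)) := by ring
      _ ≤ _ := by
        have : 0 ≤ KU * C ^ 2 * ((b + 1) ^ 2 * (M * ε)) := by positivity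
        linarith
  have t3 : KU * (b + C) * (2 * C * (M * ε)) * (2 * b) ≤
      4 * KU * C * (1 + C) * ((b + 1) ^ 2 * (M * ε)) := by
    have e3 : KU * (b + C) * (2 * C * (M * ε)) * (2 * b) = 2 * KU * C * ((b + C) * (2 * b)) * (M * ε) := by ring
    rw [e3]
    calc 2 * KU * C * ((b + C) * (2 * b)) * (M * ε) ≤
          2 * KU * C * (2 * (1 + C) * (b + 1) ^ 2) * (M * ε) := by gcongr
      _ = _ := by ring
  have t4 : 0 ≤ C * ((b + 1) ^ 2 * (M * ε)) := by positivity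
  calc _ = (C * ε * mj0 * (C * M) + C * mj0 * (C * (M * ε))) + KU * (2 * (C * ε)) * (C * M) * (2 * b) +
        KU * (b + C) * (2 * C * (M * ε)) * (2 * b) := by ring
    _ ≤ 2 * C ^ 2 * mj0 * ((b + 1) ^ 2 * (M * ε)) + 8 * KU * C ^ 2 * ((b + 1) ^ 2 * (M * ε)) +
        4 * KU * C * (1 + C) * ((b + 1) ^ 2 * (M * ε)) := add_le_add (add_le_add t1 t2) t3
    _ ≤ C * ((b + 1) ^ 2 * (M * ε)) + (2 * C ^ 2 * mj0 * ((b + 1) ^ 2 * (M * ε)) +
        8 * KU * C ^ 2 * ((b + 1) ^ 2 * (M * ε)) + 4 * KU * C * (1 + C) * ((b + 1) ^ 2 * (M * ε))) := by linarith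
    _ = _ := by ring

/-! ### the constant of the action -/

/-- mass of the exponential -/
def I4 : ℝ := ∫ u : ℝ, Real.exp (-(|u| / 4))

lemma I4_nonneg : 0 ≤ I4 := integral_nonneg fun _ => (Real.exp_pos _).le

/-- integrals with a bound on the support and an exponential one -/
lemma int_supp2 {f : ℝ → ℂ} {X Y b : ℝ} (hb : 0 ≤ b) (hX : 0 ≤ X) (hY : 0 ≤ Y) (h0 : ∀ t, b < |t| → f t = 0)
    (h1 : ∀ t, |t| ≤ b → ‖f t‖ ≤ X + Y * Real.exp (-(|t| / 4))) : ‖∫ t, f t‖ ≤ X * (2 * b) + Y * I4 := by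
  have i1 : Integrable (indicator (Icc (-b) b) fun _ : ℝ => X) := by
    rw [integrable_indicator_iff measurableSet_Icc]
    exact integrableOn_const (by simp)
  have i2 := exp_fourth_int.const_mul Y
  have hbd : ∀ t, ‖f t‖ ≤ indicator (Icc (-b) b) (fun _ : ℝ => X) t + Y * Real.exp (-(|t| / 4)) := by
    intro t
    by_cases ht : |t| ≤ b
    · rw [indicator_of_mem (show t ∈ Icc (-b) b from abs_le.1 ht)]
      exact h1 t ht
    · rw [h0 t (not_le.1 ht), norm_zero]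
      have : 0 ≤ indicator (Icc (-b) b) (fun _ : ℝ => X) t := indicator_nonneg (fun _ _ => hX) t
      positivity
  refine (norm_integral_le_of_norm_le (i1.add i2) (Eventually.of_forall hbd)).trans (le_of_eq ?_)
  simp only [Pi.add_apply]
  rw [integral_add i1 i2, integral_indicator measurableSet_Icc, setIntegral_const, Measure.real,
    Real.volume_Icc, ENNReal.toReal_ofReal (by linarith), integral_const_mul, smul_eq_mul]
  unfold I4
  ring

/-- **the constant of the action** -/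
theorem exists_S (B : SeaCB) : ∃ K : ℝ, 1 ≤ K ∧ ∀ [SeaC] [SeaCU B], ∀ {s : Bool → ℝ} {ε M b A : ℝ}
    {e : ℝ → ℝ} {η η1 : Bool → ℝ → ℝ}, (∀ a, 0 ≤ s a) → 0 ≤ b → K * ε ≤ 1 →
    (∀ a, Cur (s a) ε M b e (η a)) → (∀ a t, HasDerivAt (η a) (η1 a t) t) → Com M s e η η1 →
    (∀ t, |hd (s true) (η true) (η1 true) t| ≤ A) → ∀ (Fe : Bool → ℂ → ℂ),
    |(gas s η η1 Fe).S - ((∑ a, (∫ t : ℝ, ((s a * P t : ℝ) : ℂ) * Fe a (ga t)) -
      ∑ a, (∫ t, Bf (s a) (gD (η a)) (gD1 (η a) (η1 a)) t * Fe a (zt (gD (η a)) t))).re +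
      NUCR.bil (hd (s true) (η true) (η1 true)) (hd (s true) (η true) (η1 true)))| ≤
      K * (b + 1) ^ 3 * (M ^ 2 * ε) + K * A ^ 2 := by
  obtain ⟨C, hC, H⟩ := exists_DD B
  obtain ⟨K1, hK1, H1⟩ := exists_KBsum B
  obtain ⟨K2, hK2, H2⟩ := Phi_cv B
  have hI := I4_nonneg
  have hCp : 0 < C := by linarith
  refine ⟨C + K1 + 2 * (C * K1 + C ^ 2 * K2) + K2 * I4, by
    have : 0 ≤ 2 * (C * K1 + C ^ 2 * K2) + K2 * I4 := by positivity
    linarith, @fun _ hS s ε M b A e η η1 hs hb hε hc hη hcom hA Fe => ?_⟩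
  have hl := l_pos
  have hh := B.h0
  have hh1 := B.h1
  have hε0 := (hc true).ε0
  have hM := (hc true).M0 B (hs true)
  have hMε := mul_nonneg hM hε0
  have q1 : 0 ≤ 2 * (C * K1 + C ^ 2 * K2) + K2 * I4 := by positivity
  have q2 := mul_nonneg q1 hε0
  have q3 : 0 ≤ C * ε := by positivity
  have q4 : 0 ≤ K1 * ε := by positivity
  have hε' : C * ε + K1 * ε + (2 * (C * K1 + C ^ 2 * K2) + K2 * I4) * ε ≤ 1 := by
    refine le_trans (le_of_eq ?_) hε
    ring
  have D := @H _ hS s ε M b e η η1 hs (by linarith) hc hη hcom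
  have KB := @H1 _ hS s ε M b e η η1 hs hb (by linarith) hc hη hcom Fe
  obtain ⟨h, hh'⟩ : ∃ h : ℝ → ℝ, h = hd (s true) (η true) (η1 true) := ⟨_, rfl⟩
  rw [← hh'] at KB hA ⊢
  have hcont : Continuous h := by rw [hh']; exact (D.bb true).hc
  have hsupp : ∀ t, b < |t| → h t = 0 := fun t ht => by rw [hh']; exact (D.bb true).hsupp t ht
  have hle : ∀ t, |h t| ≤ C * M := fun t => by rw [hh']; exact (D.bb true).hle t
  have hA0 : 0 ≤ A := (abs_nonneg _).trans (hA 0)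
  have F1 := fun t => (@H2 _ hS h (C * M) hcont.measurable hle t).2.1
  have F2 := fun t => (@H2 _ hS h A hcont.measurable hA t).2.2
  have S : Str B (-B.h) (l / 4) := ⟨le_rfl, neg_le_neg B.dh', B.top_l4, le_rfl⟩
  have p2 := two_p2 (Fe := Fe) B s S D.path
  obtain ⟨Φ, hΦ⟩ : ∃ Φ : ℝ → ℂ, Φ = fun t => ∫ y, Up Uc ga t y * (h y : ℂ) := ⟨_, rfl⟩
  have F1' : ∀ t, ‖Φ t‖ ≤ K2 * (C * M) := fun t => by rw [hΦ]; exact F1 t
  have F2' : ∀ t, ‖Φ t - (NUCR.cv h t : ℂ)‖ ≤ K2 * A * Real.exp (-(|t| / 4)) := fun t => by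
    rw [hΦ]
    exact F2 t
  have KB' : ∀ a t, ‖(∑ d, (gas s η η1 Fe).KB a d t) - I * Φ t‖ ≤ K1 * (b + 1) ^ 2 * (M * ε) := fun a t => by
    rw [hΦ]
    exact KB a t
  have i2 : ∀ a d, Integrable fun t => (gas s η η1 Fe).B a t * (gas s η η1 Fe).KB a d t := by
    intro a d
    refine (p2 a d).integral_prod_left.congr (Eventually.of_forall fun t => ?_)
    simp only [Gas.KB]
    rw [← integral_const_mul]
    refine integral_congr_ae (Eventually.of_forall fun t' => ?_)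
    simp only
    unfold gas
    ring
  have hint : Integrable h := by
    refine hcont.integrable_of_hasCompactSupport ?_
    refine HasCompactSupport.of_support_subset_isCompact (isCompact_Icc (a := -b) (b := b)) ?_
    intro t ht
    by_contra hh
    exact ht (hsupp t (by
      by_contra h2
      exact hh (abs_le.1 (not_lt.1 h2))))
  have i3 : Integrable fun t => h t * NUCR.cv h t := NUCR.acv_integrable hint hcont.aestronglyMeasurable hA
  have i3' : Integrable fun t => ((h t * NUCR.cv h t : ℝ) : ℂ) := i3.ofReal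
  have eb : ((NUCR.bil h h : ℝ) : ℂ) = ∫ t, ((h t * NUCR.cv h t : ℝ) : ℂ) := by
    unfold NUCR.bil
    exact integral_complex_ofReal.symm
  have key : ∀ a, ‖(∑ d, ∫ t, (gas s η η1 Fe).B a t * (gas s η η1 Fe).KB a d t) + (NUCR.bil h h : ℂ)‖ ≤
      (C + K1 + 2 * (C * K1 + C ^ 2 * K2) + K2 * I4) * (b + 1) ^ 3 * (M ^ 2 * ε) +
      (C + K1 + 2 * (C * K1 + C ^ 2 * K2) + K2 * I4) * A ^ 2 := by
    intro a
    have e1 : (∑ d, ∫ t, (gas s η η1 Fe).B a t * (gas s η η1 Fe).KB a d t) + (NUCR.bil h h : ℂ) =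
        ∫ t, ((gas s η η1 Fe).B a t * (∑ d, (gas s η η1 Fe).KB a d t) + ((h t * NUCR.cv h t : ℝ) : ℂ)) := by
      rw [← integral_finsetSum _ fun d _ => i2 a d, eb,
        ← integral_add (integrable_finsetSum _ fun d _ => i2 a d) i3']
      refine integral_congr_ae (Eventually.of_forall fun t => ?_)
      simp only
      rw [Finset.mul_sum]
    have bb := D.bb a
    have E := int_supp2 (f := fun t => (gas s η η1 Fe).B a t * (∑ d, (gas s η η1 Fe).KB a d t) +
      ((h t * NUCR.cv h t : ℝ) : ℂ)) (X := (C * K1 + C ^ 2 * K2) * (b + 1) ^ 2 * (M ^ 2 * ε)) (Y := K2 * A ^ 2)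
      hb (by positivity) (by positivity) (fun t ht => by
        rw [gas_B, bb.supp t ht, hsupp t ht]
        simp) (fun t ht => by
        obtain ⟨Q, hQ⟩ : ∃ Q : ℂ, Q = ∑ d, (gas s η η1 Fe).KB a d t := ⟨_, rfl⟩
        have g1 := KB' a t
        rw [← hQ] at g1
        rw [gas_B, ← hQ]
        obtain ⟨β, hβ⟩ : ∃ β : ℂ, β = Bf (s a) (gD (η a)) (gD1 (η a) (η1 a)) t := ⟨_, rfl⟩
        have g2 : ‖β‖ ≤ C * M := by rw [hβ]; exact bb.le t
        have g3 : ‖β - I * (h t : ℂ)‖ ≤ C * (M * ε) := by rw [hβ, hh']; exact D.dif a t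
        rw [← hβ]
        have e2 : β * Q + ((h t * NUCR.cv h t : ℝ) : ℂ) = β * (Q - I * Φ t) +
            (β - I * (h t : ℂ)) * (I * Φ t) - (h t : ℂ) * (Φ t - (NUCR.cv h t : ℂ)) := by
          push_cast
          linear_combination ((h t : ℂ) * Φ t) * Complex.I_sq
        rw [e2]
        refine (norm_sub_le _ _).trans (add_le_add ((norm_add_le _ _).trans ?_) ?_)
        · rw [norm_mul, norm_mul, norm_mul, Complex.norm_I, one_mul]
          have t1 := mul_le_mul g2 g1 (norm_nonneg _) (by positivity)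
          have t2 := mul_le_mul g3 (F1' t) (norm_nonneg _) (by positivity)
          have n1 : (1:ℝ) ≤ (b + 1) ^ 2 := one_le_pow₀ (by linarith)
          have e3 : C * (M * ε) * (K2 * (C * M)) = C ^ 2 * K2 * 1 * (M ^ 2 * ε) := by ring
          have e4 : C ^ 2 * K2 * 1 * (M ^ 2 * ε) ≤ C ^ 2 * K2 * (b + 1) ^ 2 * (M ^ 2 * ε) := by gcongr
          calc _ ≤ C * M * (K1 * (b + 1) ^ 2 * (M * ε)) + C * (M * ε) * (K2 * (C * M)) := add_le_add t1 t2
            _ ≤ C * K1 * (b + 1) ^ 2 * (M ^ 2 * ε) + C ^ 2 * K2 * (b + 1) ^ 2 * (M ^ 2 * ε) := by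
                rw [e3]
                refine add_le_add (le_of_eq (by ring)) e4
            _ = _ := by ring
        · rw [norm_mul, Complex.norm_real, Real.norm_eq_abs]
          calc |h t| * ‖Φ t - (NUCR.cv h t : ℂ)‖ ≤ A * (K2 * A * Real.exp (-(|t| / 4))) :=
                mul_le_mul (hA t) (F2' t) (norm_nonneg _) hA0
            _ = _ := by ring)
    rw [e1]
    refine E.trans (add_le_add ?_ ?_)
    · have n2 : 2 * b ≤ 2 * (b + 1) := by linarith
      calc (C * K1 + C ^ 2 * K2) * (b + 1) ^ 2 * (M ^ 2 * ε) * (2 * b) ≤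
            (C * K1 + C ^ 2 * K2) * (b + 1) ^ 2 * (M ^ 2 * ε) * (2 * (b + 1)) :=
            mul_le_mul_of_nonneg_left n2 (by positivity)
        _ = (2 * (C * K1 + C ^ 2 * K2)) * ((b + 1) ^ 3 * (M ^ 2 * ε)) := by ring
        _ ≤ (C + K1 + 2 * (C * K1 + C ^ 2 * K2) + K2 * I4) * ((b + 1) ^ 3 * (M ^ 2 * ε)) := by
            refine mul_le_mul_of_nonneg_right ?_ (by positivity)
            have : 0 ≤ K2 * I4 := by positivity
            linarith
        _ = _ := by ring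
    · calc K2 * A ^ 2 * I4 = K2 * I4 * A ^ 2 := by ring
        _ ≤ _ := by
            refine mul_le_mul_of_nonneg_right ?_ (by positivity)
            have : 0 ≤ 2 * (C * K1 + C ^ 2 * K2) := by positivity
            linarith
  obtain ⟨Kt, hKt⟩ : ∃ Kt, Kt = C + K1 + 2 * (C * K1 + C ^ 2 * K2) + K2 * I4 := ⟨_, rfl⟩
  rw [← hKt] at key ⊢
  have e1 : (gas s η η1 Fe).S = (∑ a, (∫ t : ℝ, ((s a * P t : ℝ) : ℂ) * Fe a (ga t)) -
      ∑ a, (∫ t, Bf (s a) (gD (η a)) (gD1 (η a) (η1 a)) t * Fe a (zt (gD (η a)) t)) -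
      (1 / 2) * ∑ a, ∑ d, (∫ t, (gas s η η1 Fe).B a t * (gas s η η1 Fe).KB a d t)).re := rfl
  have e3 : ((1 / 2 : ℂ) * ∑ a, ∑ d, (∫ t, (gas s η η1 Fe).B a t *
      (gas s η η1 Fe).KB a d t)).re = 1 / 2 * (∑ a, ∑ d, (∫ t, (gas s η η1 Fe).B a t *
      (gas s η η1 Fe).KB a d t)).re := by
    rw [show (1 / 2 : ℂ) = ((1 / 2 : ℝ) : ℂ) by push_cast; ring, Complex.re_ofReal_mul]
  rw [e1, Complex.sub_re, e3]
  have k1 := (Complex.abs_re_le_norm _).trans (key true)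
  have k2 := (Complex.abs_re_le_norm _).trans (key false)
  rw [Complex.add_re, Complex.ofReal_re] at k1 k2
  have e4 : (∑ a, ∑ d, (∫ t, (gas s η η1 Fe).B a t * (gas s η η1 Fe).KB a d t)).re =
      (∑ d, ∫ t, (gas s η η1 Fe).B true t * (gas s η η1 Fe).KB true d t).re +
      (∑ d, ∫ t, (gas s η η1 Fe).B false t * (gas s η η1 Fe).KB false d t).re := by
    rw [Fintype.sum_bool, Complex.add_re]
  rw [e4]
  rw [abs_le] at k1 k2 ⊢
  constructor <;> linarith [k1.1, k1.2, k2.1, k2.2]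

end

end PLT.Cv
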