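import Pool.Agent.PLT.SharpW
import Pool.Agent.PLT.FinPen

/-!
# The sharp bound of the positive gas on a static curve: `fin2p` with (H1) inserted

`H1Full B lo hi`: (H1) with the field data inserted (statement; `PLT/H1gC`); `h1_gdC`: (H1) for the data
`GDC`; **`sharp_of`**: the sharp bound `SharpSt B lo hi`.
-/

set_option autoImplicit false
set_option linter.unusedSectionVars false

open MeasureTheory Set Filter Topology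

namespace PLT

open NUS4 (gN gM gp R1f Xf Fi off gLa ccτ)
open NUE NUOC NUKer NUR2 NUTr NUDi
open scoped ENNReal

noncomputable section

/-- **(H1), full form** (statement): admissible curves, analytic potentials in the strip `lo < Im z < hi`,
rigidity of the window measure; the lower bound of the exponential moments of the field, with a
penalty `w` of bounded sum. -/
def H1Full (B : SeaCB) (lo hi : ℝ) : Prop :=
  ∀ {δ K : ℝ} {c : ℝ → ℝ}, Prof δ K c → ∀ {h : ℝ}, 0 < h → K * h < Real.pi → ∀ (k : ℕ) {κ e η : ℝ},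
    0 < κ → 0 < e → e ≤ 1 / 4 → 0 < η →
    ∃ (m0 : ℕ) (e' W0 : ℝ), 1 ≤ m0 ∧ 0 ≤ e' ∧ 0 ≤ W0 ∧ ∀ [SeaC] [SeaCU B],
    ∀ m : ℕ, m0 ≤ m → ∀ {p n : ℕ} (s : Bool → ℝ) (R ε M b A Ar S : ℝ)
    (eX eY ηX ηX1 ηY ηY1 ErX ErY aX aY : ℝ → ℝ) (FX FY : ℂ → ℂ),
    (∀ d, (m : ℝ) / 2 ≤ s d) → (∀ d, s d ≤ (m : ℝ) ^ 2) → Real.log m ≤ R → R ≤ Real.log m ^ k →
    R1f e m + 1 ≤ b → b + 3 ≤ R →
    Cv.Cur (s true) ε M b eX ηX → Cv.Cur (s false) ε M b eY ηY →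
    (∀ t, HasDerivAt ηX (ηX1 t) t) →
    (∀ t, HasDerivAt ηY (ηY1 t) t) → ε ≤ (m : ℝ) ^ (-κ) → M ≤ Real.log m ^ k → 0 ≤ A →
    A ≤ Real.log m ^ k → Ar ≤ Real.log m ^ k →
    (∀ z : ℂ, |z.re| ≤ b + 2 → lo < z.im → z.im < hi → DifferentiableAt ℂ FX z ∧ ‖FX z‖ ≤ A) →
    (∀ z : ℂ, |z.re| ≤ b + 2 → lo < z.im → z.im < hi → DifferentiableAt ℂ FY z ∧ ‖FY z‖ ≤ A) →
    NUR2.Ext 4 b Ar ErX → NUR2.Ext 4 b Ar ErY → (∀ x, 0 ≤ aX x) → (∀ x, 0 ≤ aY x) →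
    Measurable aX → Measurable aY →
    (∀ x, |x| ≤ b → aX x = Real.exp ((Cv.vb s true (Cv.zt (Cv.gD ηX) x)).re +
      (FX (Cv.zt (Cv.gD ηX) x)).re + ErX x)) →
    (∀ x, |x| ≤ b → aY x = Real.exp ((Cv.vb s false (Cv.zt (Cv.gD ηY) x)).re +
      (FY (Cv.zt (Cv.gD ηY) x)).re + ErY x)) → 0 ≤ S → S ≤ Real.log m ^ k →
    IsFiniteMeasure (mGC (p := p) (n := n) R ηX ηX1 ηY ηY1 aX aY) →
    NUDi.RigB2 (mGC (p := p) (n := n) R ηX ηX1 ηY ηY1 aX aY) R (fun t => s true * Cv.P t)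
      (fun t => s false * Cv.P t) S →
    ∃ w : Fin (gN h (Xf e m)) → ℝ, (∀ i, 0 ≤ w i) ∧ ∑ i, w i ≤ W0 ∧
      ∀ cc : Fin (gN h (Xf e m)) → ℝ, ∃ l : (Fin (gN h (Xf e m)) → ℝ) → ℝ, (∀ g, l (-g) = - l g) ∧
        FP.H1p c h η (Xf e m) R e' w l cc (WtC (p := p) (n := n) ηX ηX1 ηY ηY1 aX aY)

lemma cur_monoC [SeaC] {s ε M b ε' M' : ℝ} {e η : ℝ → ℝ} (h : Cv.Cur s ε M b e η) (h1 : ε ≤ ε')
    (h2 : M ≤ M') : Cv.Cur s ε' M' b e η :=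
  ⟨h.oc, fun t => (h.le t).trans h1, fun t => (h.mass t).trans h2, h.supp⟩

variable {δ K : ℝ} {c : ℝ → ℝ}

/-- **(H1) for the data `GDC`** -/
theorem h1_gdC {B : SeaCB} {lo hi : ℝ} (HH : H1Full B lo hi) (hP : Prof δ K c) {h : ℝ} (hh : 0 < h)
    (hK : K * h < Real.pi) (k : ℕ) {κ e η : ℝ}
    (hκ : 0 < κ) (he : 0 < e) (he1 : e ≤ 1 / 4) (hη : 0 < η) :
    ∃ (e' W0 : ℝ), 0 ≤ e' ∧ 0 ≤ W0 ∧ ∀ {C₄ : ℝ}, 0 ≤ C₄ → ∃ (m0 : ℕ), 3 ≤ m0 ∧ ∀ [SeaC] [SeaCU B],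
    ∀ m : ℕ, m0 ≤ m → ∀ {p n : ℕ} (s : Bool → ℝ) (R b : ℝ) (ηX ηX1 ηY ηY1 aX aY : ℝ → ℝ),
    GDC lo hi m k κ e s R b ηX ηX1 ηY ηY1 aX aY →
    IsFiniteMeasure (mWin R (WtC (p := p) (n := n) ηX ηX1 ηY ηY1 aX aY)) →
    RigB2 (mWin R (WtC (p := p) (n := n) ηX ηX1 ηY ηY1 aX aY)) R (fun t => s true * Cv.P t)
      (fun t => s false * Cv.P t) (C₄ * Real.log m ^ 8) →
    ∃ w : Fin (gN h (Xf e m)) → ℝ, (∀ i, 0 ≤ w i) ∧ ∑ i, w i ≤ W0 ∧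
      ∀ cc : Fin (gN h (Xf e m)) → ℝ, ∃ l : (Fin (gN h (Xf e m)) → ℝ) → ℝ, (∀ g, l (-g) = - l g) ∧
      FP.H1p c h η (Xf e m) R e' w l cc (WtC (p := p) (n := n) ηX ηX1 ηY ηY1 aX aY) := by
  obtain ⟨m1, e', W0, hm1, he', hW0, HF⟩ := HH hP hh hK (k + 9) hκ he he1 hη
  refine ⟨e', W0, he', hW0, ?_⟩
  intro C₄ hC4
  obtain ⟨m2, hm2⟩ := (Real.tendsto_log_atTop.comp tendsto_natCast_atTop_atTop).eventually
    (eventually_ge_atTop (2 + C₄)) |>.exists_forall_of_atTop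
  refine ⟨max 3 (max m1 m2), le_max_left _ _, ?_⟩
  intro _ _ m hm p n s R b ηX ηX1 ηY ηY1 aX aY D hfin hrig
  have hmm2 := hm2 m (le_trans (le_trans (le_max_right _ _) (le_max_right _ _)) hm)
  simp only [Function.comp] at hmm2
  obtain ⟨L, hL⟩ : ∃ L, L = Real.log m := ⟨_, rfl⟩
  rw [← hL] at hmm2
  have hL1 : 1 ≤ L := by linarith
  have hLk : L ^ k ≤ L ^ (k + 9) := pow_le_pow_right₀ hL1 (by omega)
  have hL3 : 2 * L ^ 2 ≤ L ^ (k + 9) := by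
    calc 2 * L ^ 2 ≤ L * L ^ 2 := by gcongr; linarith
      _ = L ^ 3 := by ring
      _ ≤ L ^ (k + 9) := pow_le_pow_right₀ hL1 (by omega)
  have hL9 : C₄ * L ^ 8 ≤ L ^ (k + 9) := by
    calc C₄ * L ^ 8 ≤ L * L ^ 8 := by gcongr; linarith
      _ = L ^ 9 := by ring
      _ ≤ L ^ (k + 9) := pow_le_pow_right₀ hL1 (by omega)
  obtain ⟨s1, s2, R1, R2, b1, b2, ⟨εX, MX, eX, cX, cX1, cX2⟩, ⟨εY, MY, eY, cY, cY1, cY2⟩, dX, dY, aX0,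
    aY0, aXm, aYm, ⟨AX, ArX, FX, ErX, hAX0, hAX, hArX, hFX, hEX, haX⟩,
    ⟨AY, ArY, FY, ErY, hAY0, hAY, hArY, hFY, hEY, haY⟩⟩ := D
  rw [← hL] at cX2 cY2 hAX hArX hAY hArY R2
  have cX' := cur_monoC cX (le_max_left εX εY) (le_max_left MX MY)
  have cY' := cur_monoC cY (le_max_right εX εY) (le_max_right MX MY)
  have hL' : Real.log m = L := hL.symm
  refine HF m (le_trans (le_trans (le_max_left _ _) (le_max_right _ _)) hm) (p := p) (n := n) s R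
    (max εX εY) (max MX MY) b (max AX AY) (max ArX ArY) (C₄ * Real.log m ^ 8) eX eY ηX ηX1 ηY ηY1
    ErX ErY aX aY FX FY s1 s2 R1 ?_ b1 b2 cX' cY' dX dY (max_le cX1 cY1) ?_ (le_max_of_le_left hAX0) ?_
    ?_ (fun z h1 h2 h3 => ⟨(hFX z h1 h2 h3).1, (hFX z h1 h2 h3).2.trans (le_max_left _ _)⟩)
    (fun z h1 h2 h3 => ⟨(hFY z h1 h2 h3).1, (hFY z h1 h2 h3).2.trans (le_max_right _ _)⟩)
    (hEX.mono (le_max_left _ _)) (hEY.mono (le_max_right _ _)) aX0 aY0 aXm aYm haX haY ?_ ?_ ?_ ?_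
  · rw [hL']
    exact R2.trans hL3
  · rw [hL']
    exact (max_le cX2 cY2).trans hLk
  · rw [hL']
    exact (max_le hAX hAY).trans hLk
  · rw [hL']
    exact (max_le hArX hArY).trans hLk
  · positivity
  · rw [hL']
    exact hL9
  · rw [mGC_eq]
    exact hfin
  · rw [mGC_eq]
    exact hrig

/-- **the sharp bound of the positive gas** on a static curve -/
theorem sharp_of {B : SeaCB} {lo hi : ℝ} (HH : H1Full B lo hi) : SharpSt B lo hi := by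
  intro ε hε hε1
  obtain ⟨δ, K, η, c, hδ, hK, hη, hc1, hc2, hc3, hc4, hc5, hc6, hc7, hc8, hc9⟩ := FP.fin2p hε hε1
  refine ⟨δ, K, c, hδ, hK, hc1, hc2, hc3, hc4, hc5, hc6, ?_⟩
  intro h hh hKh C₁ C₂ C₃ h1 h2 h3 k κ e hκ he he1
  have hP : Prof δ K c := ⟨hδ, hc1, hc3, hc4, hc5⟩
  obtain ⟨e', W0, he', hW0, HD⟩ := h1_gdC HH hP hh hKh k hκ he he1 hη
  obtain ⟨C₀, C₄, hC0, hC4, hC⟩ := hc9 h hh hKh h1 h2 h3 hW0
  obtain ⟨m0, hm0, HD⟩ := HD (C₄ := C₄) (by linarith)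
  have he'1 : 1 ≤ Real.exp e' := Real.one_le_exp he'
  refine ⟨C₀ * Real.exp e' + 1, m0, by nlinarith [Real.exp_pos e'], hm0, ?_⟩
  intro _ _ m hm p n s R b A a M τ ηX ηX1 ηY ηY1 aX aY D hM hM2 hA ha hup htail hsq
  have hWm : Measurable (WtC (p := p) (n := n) ηX ηX1 ηY ηY1 aX aY) := by
    obtain ⟨εX, MX, eX, cX, -⟩ := D.cX
    obtain ⟨εY, MY, eY, cY, -⟩ := D.cY
    have mη : ∀ {u : ℝ → ℝ} {u1 : ℝ → ℝ} {lam : ℝ}, O 4 lam u → (∀ t, HasDerivAt u (u1 t) t) →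
        Measurable u1 := by
      intro u u1 lam h1 h2
      obtain ⟨-, u2, h3, h4⟩ := h1
      have e1 : u2 = u1 := funext fun t => (h3 t).unique (h2 t)
      rw [← e1]
      exact h4.cont.measurable
    exact WtC_meas cX.O4.cont.measurable (mη cX.O4 D.dX) cY.O4.cont.measurable (mη cY.O4 D.dY) D.aXm D.aYm
  have hR0 : 0 ≤ R := by
    have h1 : (1:ℝ) ≤ m := by exact_mod_cast (by omega : 1 ≤ m)
    exact (Real.log_nonneg h1).trans D.R1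
  have hρ : ∀ d, Continuous fun t => s d * Cv.P t := fun d => continuous_const.mul (Cv.P_cont B)
  by_cases hr : IsFiniteMeasure (mWin R (WtC (p := p) (n := n) ηX ηX1 ηY ηY1 aX aY)) ∧
      RigB2 (mWin R (WtC (p := p) (n := n) ηX ηX1 ηY ηY1 aX aY)) R (fun t => s true * Cv.P t)
        (fun t => s false * Cv.P t) (C₄ * Real.log m ^ 8)
  · obtain ⟨w, hw0, hw1, HD⟩ := HD m hm (p := p) (n := n) s R b ηX ηX1 ηY ηY1 aX aY D hr.1 hr.2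
    obtain ⟨l, hl, hl2⟩ := HD (ccτ c h (Xf e m) τ)
    exact hC e he.le (by linarith) m (hm0.trans hm) _ R (Xf e m) A a e' M
      (fun t => s true * Cv.P t) (fun t => s false * Cv.P t) τ l w hw0 hw1
      rfl hWm hR0 D.R2 (hρ true) (hρ false) hM hM2 hl hA he' ha hup htail hsq fun _ _ => hl2
  · exact hC e he.le (by linarith) m (hm0.trans hm) _ R (Xf e m) A a e' M
      (fun t => s true * Cv.P t) (fun t => s false * Cv.P t) τ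
      (fun _ => 0) (fun _ => 0) (fun _ => le_rfl) (by simpa using hW0) rfl hWm hR0 D.R2 (hρ true) (hρ false) hM hM2
      (fun g => by simp) hA he' ha hup htail hsq
      fun q1 q2 => absurd ⟨q1, q2⟩ hr

end

end PLT
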