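import Pool.Agent.PLT.SharpW
import Pool.Agent.PLT.GH0fin

/-!
# The sharp bound for the data of `H0` on a static curve: `Gs.H0fin` and the sharp bound

`sharpDC`: twin of `NUS4C.PLX.sharpD`: the total weight is at most
`C p! n! exp (E1 + ..) (1 + shF) m ^ (- 1/2 + ε + e)`; cut radius `Rb`, window radius `Rw`.
-/

set_option autoImplicit false
set_option linter.unusedSectionVars false

open MeasureTheory Set Filter Topology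

namespace PLT

open NUS4 (gN gM gp R1f Xf gLa)
open NUH0 (Grid shF shF_nonneg)
open NUE NUOC NUKer NUR2 NUTr NUDi
open Gs (Dat ShH0 Shl W0 Ex1 tf Hyp1)
open scoped ENNReal

noncomputable section

/-- the curve of the data -/
structure CrvD [SeaC] (X : Dat) (ηX ηX1 ηY ηY1 : ℝ → ℝ) : Prop where
  P : X.P = Cv.P
  dX : X.D true = Cv.Dt ηX
  dX1 : X.D1 true = Cv.Dt1 ηX ηX1
  dY : X.D false = Cv.Dt ηY
  dY1 : X.D1 false = Cv.Dt1 ηY ηY1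

/-- **the sharp bound for the data of `H0`** on a static curve -/
theorem sharpDC {B : SeaCB} {lo hi : ℝ} (HS : SharpSt B lo hi) {ε ε' θ c tc k : ℝ} (hε : 0 < ε) (hε1 : ε ≤ 1)
    (hSh : ShH0 ε' θ c tc k) :
    ∃ C Kq Λ0 Nw : ℝ, 0 ≤ C ∧ 1 ≤ Kq ∧ 0 < Λ0 ∧ 1 ≤ Nw ∧ ∀ (N : ℕ) (Mf : ℝ), ∃ C1 T1 : ℝ, 0 ≤ C1 ∧
    ∀ {C₂ : ℝ}, 0 ≤ C₂ → ∀ (kk : ℕ) {κ e : ℝ}, 0 < κ → 0 < e → e ≤ 1 / 4 →
    ∃ (C' : ℝ) (m0 : ℕ), 1 ≤ C' ∧ 3 ≤ m0 ∧ ∀ [SeaC] [SeaCU B], ∀ m : ℕ, m0 ≤ m →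
    ∀ {X : Dat} {p n : ℕ} {T0 Rw Rb ε1 c1 m2 mb m3 Λ d0 β : ℝ}, T1 ≤ T0 → Λ ≤ Λ0 →
    Hyp1 X p n θ c tc k Kq Λ Mf N m T0 Rw Rb Nw ε1 c1 m2 mb m3 d0 β →
    ∀ {aX aY cf Bf ηX ηX1 ηY ηY1 : ℝ → ℝ} {D q b : ℝ}, Shl X aX aY cf Bf D q →
    (∀ t, Rb ≤ |t| → cf t * Real.exp β ≤ 1) →
    CrvD X ηX ηX1 ηY ηY1 →
    GDC lo hi m kk κ e X.s Rw b ηX ηX1 ηY ηY1 (fun t => aX t * cf t) (fun t => aY t * cf t) →
    m2 ^ 2 + (tc * k) ^ 2 ≤ C₂ * Real.log m ^ 6 →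
    ∀ {E1 g e1 : ℝ}, 0 ≤ g → g < q → 0 ≤ e1 → β ≤ e1 * Rb → e1 ≤ (q - g) / 2 →
    (∀ T, T0 ≤ T → Ex1 X p n ε' C C1 T Λ m3 ε1 ≤ E1 + g * (T - T0)) →
    Real.log m / 2 ≤ (q - g - e1) * (Rw - T0) →
    ∫⁻ x, ENNReal.ofReal (W0 X p n aX aY cf x) ≤ ENNReal.ofReal (C' * ((p.factorial : ℝ) * n.factorial *
      Real.exp (E1 + Kq * c1 * (Rb + Nw) * mb ^ 2 + e1 * T0 + 1) * (1 + shF D q g T0)) *
      (m : ℝ) ^ (-(1 / 2 : ℝ) + (ε + e))) := by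
  obtain ⟨C, Kq, Λ0, Nw, C₁, hC, hKq, hΛ0, hNw, hC₁, H0⟩ := Gs.H0fin hSh
  obtain ⟨δ, K, ch, hδ, hK, hc1, hc2, hc3, hc4, hc5, hc6, HS⟩ := HS hε hε1
  have hKp : 0 < K := hδ.trans hK
  obtain ⟨h, hh⟩ : ∃ h : ℝ, h = 3 / K := ⟨_, rfl⟩
  have hh0 : 0 < h := by rw [hh]; positivity
  have hKh : K * h < Real.pi := by
    rw [hh, mul_div_cancel₀ _ hKp.ne']
    exact Real.pi_gt_three
  refine ⟨C, Kq, Λ0, Nw, hC, hKq, hΛ0, hNw, fun N Mf => ?_⟩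
  obtain ⟨C1, T1, hC1, H0⟩ := H0 N Mf
  refine ⟨C1, T1, hC1, ?_⟩
  intro C₂ hC₂ kk κ e hκ he he1
  obtain ⟨C', m0, hC', hm0, HM⟩ := HS h hh0 hKh hC₁ hC₂ le_rfl kk hκ he he1
  refine ⟨C', m0, hC', hm0, ?_⟩
  intro _ _ m hm X p n T0 Rw Rb ε1 c1 m2 mb m3 Λ d0 β hT1 hΛ hH aX aY cf Bf ηX ηX1 ηY ηY1 D q b hS hcf hcr hG
    hm2 E1 g e1 hg0 hg he10 hβe he1q hEx htail
  obtain ⟨i1, i2, i3⟩ := H0 hT1 hΛ hH hS hcf hg0 hg he10 hβe he1q hEx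
  have hmp : (0:ℝ) < m := by
    have : 0 < m := by omega
    exact_mod_cast this
  have hgr : Grid ch K h :=
    ⟨hc1.continuous, hc3, hh0, hKh, fun k hk => hc5 k hk.le, fun k hk => hc6 k hk.ne'⟩
  obtain ⟨Y, hY⟩ : ∃ Y, Y = (p.factorial : ℝ) * n.factorial *
      Real.exp (E1 + Kq * c1 * (Rb + Nw) * mb ^ 2 + e1 * T0 + 1) * (1 + shF D q g T0) := ⟨_, rfl⟩
  have hsh := shF_nonneg (T0 := T0) hS.D0 hg
  have hY0 : 0 ≤ Y := by rw [hY]; positivity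
  have hc10 := hH.c0
  have hKq0 : 0 ≤ Kq := by linarith
  have hRN : 0 ≤ Rb + Nw := by
    have := hH.T0p
    have := hH.T0R
    have := hH.RR
    linarith
  have hT0p := hH.T0p
  have hmm : (m : ℝ) ^ (-(1 / 2 : ℝ)) * (m : ℝ) ^ (1 / 2 : ℝ) = 1 := by
    rw [← Real.rpow_add hmp]
    norm_num
  have hWt : ∀ x : Cfg p n, WtC ηX ηX1 ηY ηY1 (fun t => aX t * cf t) (fun t => aY t * cf t) x =
      ENNReal.ofReal (W0 X p n aX aY cf x) := by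
    intro x
    unfold W0
    rw [hcr.dX, hcr.dX1, hcr.dY, hcr.dY1]
  have hρ : ∀ a, X.ρ a = fun t => X.s a * Cv.P t := by
    intro a
    funext t
    unfold Dat.ρ
    rw [hcr.P]
  have key := HM m hm (p := p) (n := n) X.s Rw b (Y * (m : ℝ) ^ (-(1 / 2 : ℝ))) (1 / 2)
    (m2 ^ 2 + (tc * k) ^ 2) (tf X) ηX ηX1 ηY ηY1 (fun t => aX t * cf t) (fun t => aY t * cf t) hG (by positivity)
    hm2 (by positivity) le_rfl ?_ ?_ ?_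
  · simp only [hWt] at key
    refine key.trans (ENNReal.ofReal_le_ofReal (le_of_eq ?_))
    rw [← hY]
    have e1 : (m : ℝ) ^ (1 / 2 - 1 / 2 + (ε + e)) = (m : ℝ) ^ (ε + e) := by norm_num
    have e2 : (m : ℝ) ^ (-(1 / 2 : ℝ) + (ε + e)) = (m : ℝ) ^ (-(1 / 2 : ℝ)) * (m : ℝ) ^ (ε + e) :=
      Real.rpow_add hmp _ _
    rw [e1, e2]
    ring
  · simp only [hWt]
    refine (i1 hgr (gLa h (Xf e m)) (-(h * gM h (Xf e m)))).trans (ENNReal.ofReal_le_ofReal ?_)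
    rw [← hY, mul_assoc, hmm, mul_one]
  · simp only [hWt]
    refine (i2 Rw hH.T0R).trans (ENNReal.ofReal_le_ofReal ?_)
    have h1 : Real.exp (-(q - g - e1) * (Rw - T0)) ≤ (m : ℝ) ^ (-(1 / 2 : ℝ)) := by
      rw [Real.rpow_def_of_pos hmp]
      refine Real.exp_le_exp.2 ?_
      nlinarith
    rw [hY]
    calc (p.factorial : ℝ) * n.factorial * Real.exp (E1 + Kq * c1 * (Rb + Nw) * mb ^ 2 + e1 * T0 + 1) *
          (Real.exp (-(q - g - e1) * (Rw - T0)) * shF D q g T0)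
        ≤ (p.factorial : ℝ) * n.factorial * Real.exp (E1 + Kq * c1 * (Rb + Nw) * mb ^ 2 + e1 * T0 + 1) *
          ((m : ℝ) ^ (-(1 / 2 : ℝ)) * (1 + shF D q g T0)) := by
          gcongr
          linarith
      _ = _ := by ring
  · have h3 : SqW2 (p := p) (n := n) (fun x => ENNReal.ofReal (W0 X p n aX aY cf x)) Rw (X.ρ true)
        (X.ρ false)
        (ENNReal.ofReal ((p.factorial : ℝ) * n.factorial * Real.exp E1 * (1 + shF D q g T0)))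
        (1 / (8 * (C₁ * (Rw + 1)))) (m2 ^ 2 + (tc * k) ^ 2) := i3
    rw [hρ true, hρ false] at h3
    have h4 := h3.mono (g' := WtC (p := p) (n := n) ηX ηX1 ηY ηY1 (fun t => aX t * cf t)
      (fun t => aY t * cf t)) (fun x _ => le_of_eq (hWt x))
      (B' := ENNReal.ofReal (Y * (m : ℝ) ^ (-(1 / 2 : ℝ)) * (m : ℝ) ^ (1 / 2 : ℝ) * Real.exp 0))
      (ENNReal.ofReal_le_ofReal (by
        rw [mul_assoc Y, hmm, mul_one, Real.exp_zero, mul_one, hY]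
        have h5 : Real.exp E1 ≤ Real.exp (E1 + Kq * c1 * (Rb + Nw) * mb ^ 2 + e1 * T0 + 1) := by
          refine Real.exp_le_exp.2 ?_
          have : 0 ≤ Kq * c1 * (Rb + Nw) * mb ^ 2 := by positivity
          have : 0 ≤ e1 * T0 := by positivity
          linarith
        gcongr))
    exact h4.monoC le_rfl (by linarith)

end

end PLT
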