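import Pool.Agent.PLT.SharpDC
import Pool.Agent.NUS4.SharpI
import Pool.Agent.PLT.GInst

/-!
# The sharp bound of the gas of a configuration on a static curve

`sharpIC`: twin of `NUS4C.PLX.sharpI`: as `Gs.crude`, for at most `log m` objects at heights at most
`(log m)²` outside the window, with the factor `m ^ (- 1/2 + ε + e)`.
-/

set_option autoImplicit false
set_option linter.unusedSectionVars false

open MeasureTheory Set Filter Topology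

namespace PLT

open NUS4 (win_le_sq)
open Gs (Dat ShH0 StC Inst Shl W0 Ex1 Ex1_le M3 K3 K3_pos M3_sq NT)
open NUH0 (shF shF_nonneg T0i T0i_cost T0i_ge log_qc T0c qc)
open NUE NUOC NUKer NUR2 NUTr NUDi NUDispW NUEnW
open scoped ENNReal

noncomputable section

/-- **the sharp bound of the gas of a configuration** on a static curve -/
theorem sharpIC {B : SeaCB} {lo hi : ℝ} (HS : SharpSt B lo hi) {ε θ c tc k ε' : ℝ}
    {K : Set (Bool → Bool → ℝ → ℝ → ℝ)} (hε : 0 < ε) (hε1 : ε ≤ 1) (hSh : ShH0 ε' θ c tc k)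
    (hK : StC K θ c) (hc : 0 < c) (hk : 0 ≤ k) (hε' : 0 < ε') (hε'1 : ε' ≤ 1 / 200) :
    ∃ C : ℝ, 0 ≤ C ∧ ∀ {A κ : ℝ} (Kd Cf : ℝ) (J : ℕ), 1 ≤ A → 0 < κ → ∀ (kk : ℕ) {e x : ℝ}, 0 < e →
    e ≤ 1 / 4 → 0 < x → ∃ (C' : ℝ) (m0 : ℕ), 1 ≤ C' ∧ 3 ≤ m0 ∧ ∀ [SeaC] [SeaCU B], ∀ m ≥ m0,
    ∀ {X : Dat} {p n r : ℕ} {h : Fin r → ℝ} {T' b : ℝ} {η η1 : Bool → ℝ → ℝ},
    Inst X tc K p n k A κ Kd J m h T' b → CrvD X (η true) (η1 true) (η false) (η1 false) →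
    0 ≤ b → b ≤ Real.log m →
    ∀ {aX aY cf Bf : ℝ → ℝ} {D q : ℝ}, Shl X aX aY cf Bf D q →
    (∀ t, cf t ≤ Cf * m * Real.exp (-(|t| / 2))) → 7 / 3 + 2 * ε' + 1 / 10 ≤ q →
    GDC lo hi m kk κ e X.s (2 * Real.log m ^ 2) b (η true) (η1 true) (η false) (η1 false)
      (fun t => aX t * cf t) (fun t => aY t * cf t) →
    ∀ {Y : ℝ}, 3 / 8 * Real.log m ≤ T' → T' ≤ Real.log m → 0 ≤ Y → Y ≤ Real.log m ^ 2 →
    (∀ i, |h i| ≤ T' + Y) → (r : ℝ) ≤ Real.log m →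
    ∀ {N0 e1 : ℝ}, C * e1 ≤ ε' → (∀ T, T0i T' Y A r m ≤ T → NT X T + X.eR ≤ N0 + e1 * T) →
    ∫⁻ y, ENNReal.ofReal (W0 X p n aX aY cf y) ≤ ENNReal.ofReal (C' * ((p.factorial : ℝ) * n.factorial *
      Real.exp (X.Mp p n + X.En + ((7 / 3 + 2 * ε') * T' + 12 / 5 * Y + 6 * r + C * (1 + N0) +
        x * (win Finset.univ h + 1 + Real.log m) + 1)) *
        (1 + shF D q (7 / 3 + 2 * ε') (T0i T' Y A r m))) * (m : ℝ) ^ (-(1 / 2 : ℝ) + (ε + e))) := by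
  obtain ⟨C, Kq, Λ0, N, hC0, hKq, hΛ0, hN, HD⟩ := sharpDC HS hε hε1 hSh
  refine ⟨C, hC0, ?_⟩
  intro A κ Kd Cf J hA hκ kk e x he he1 hx
  have hK3 := K3_pos hc
  obtain ⟨Λ, hΛ⟩ : ∃ Λ : ℝ, Λ = min Λ0 (x / (4 * ((C + 1) * (A ^ 2 * K3 c)))) := ⟨_, rfl⟩
  have hAK : 0 < A ^ 2 * K3 c := by positivity
  have hΛp : 0 < Λ := by
    rw [hΛ]
    exact lt_min hΛ0 (by positivity)
  have hΛ1 : Λ ≤ Λ0 := by
    rw [hΛ]
    exact min_le_left _ _
  have hΛ2 : C * Λ * (A ^ 2 * K3 c) ≤ x / 4 := by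
    have h1 : Λ ≤ x / (4 * ((C + 1) * (A ^ 2 * K3 c))) := by
      rw [hΛ]
      exact min_le_right _ _
    rw [le_div_iff₀ (by positivity)] at h1
    nlinarith [mul_pos hΛp hAK]
  obtain ⟨Nf, Mf, hSt⟩ := hK Λ hΛp
  obtain ⟨C1, T1, hC10, HD⟩ := HD Nf Mf
  have hKc := (Kc_pos (by norm_num : (0 : ℝ) < 5 / 2)).le
  obtain ⟨C₂, hC₂⟩ : ∃ C₂ : ℝ, C₂ = 4 * (2 + N + N) * (A ^ 2 * Kc (5 / 2)) +
    8 * A ^ 2 * (2 + N + N) ^ 2 + (tc * k) ^ 2 := ⟨_, rfl⟩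
  have hC₂0 : 0 ≤ C₂ := by rw [hC₂]; positivity
  obtain ⟨C', m1, hC', hm1, HM⟩ := HD hC₂0 kk hκ he he1
  obtain ⟨m2, hm2, HH⟩ := Gs.hyp1 (θ := θ) (c := c) (tc := tc) (k := k) (A := A) (κ := κ) (Kd := Kd) hc hk hA hκ
    (x := x / 8) (Kq := Kq) (N := N) (cR := 2) (by positivity) (by linarith) hN J 2 Cf
  obtain ⟨m3, HT⟩ := T0i_cost (x := x / 4) (ε' := 2 * ε') (by positivity) A hA (by linarith)
  obtain ⟨m4, hm4⟩ := (Real.tendsto_log_atTop.comp tendsto_natCast_atTop_atTop).eventually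
    (eventually_ge_atTop (20 + |8 / 3 * T1| + 4 * C1 / x + 8 / x)) |>.exists_forall_of_atTop
  obtain ⟨m5, HQ⟩ := log_qc (x := 1) one_pos A hA
  refine ⟨C', max (max m1 m2) (max (max m3 m4) m5), hC', hm1.trans ((le_max_left _ _).trans
    (le_max_left _ _)), ?_⟩
  intro _ _ m hm X p n r h T' b η η1 hI hcrv hb0 hb aX aY cf Bf D q hS hcf hq hG Y hT1 hT2 hY hY2 hh hr N0 e1 he1'
    hNT
  have hmm1 : m1 ≤ m := ((le_max_left _ _).trans (le_max_left _ _)).trans hm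
  have hmm2 : m2 ≤ m := ((le_max_right _ _).trans (le_max_left _ _)).trans hm
  have hmm34 : max m3 m4 ≤ m := ((le_max_left _ _).trans (le_max_right _ _)).trans hm
  have hmm3 : m3 ≤ m := (le_max_left _ _).trans hmm34
  have hmm4 : m4 ≤ m := (le_max_right _ _).trans hmm34
  have hmm5 : m5 ≤ m := ((le_max_right _ _).trans (le_max_right _ _)).trans hm
  have hm3' : 3 ≤ m := hm1.trans hmm1
  have hmr : (3 : ℝ) ≤ m := by exact_mod_cast hm3'
  have hmp : (0:ℝ) < m := by (clear * - hmr; linarith)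
  have hL' := hm4 m hmm4
  simp only [Function.comp] at hL'
  have hC1x : 0 ≤ 4 * C1 / x := by positivity
  have h8x : 0 ≤ 8 / x := by positivity
  have hL : 20 ≤ Real.log m := by linarith [abs_nonneg (8 / 3 * T1)]
  have hLT : 8 / 3 * T1 ≤ Real.log m := by linarith [le_abs_self (8 / 3 * T1)]
  have hL8 : 1 ≤ x / 8 * Real.log m := by
    have h1 : 8 / x ≤ Real.log m := by linarith [abs_nonneg (8 / 3 * T1)]
    rw [div_le_iff₀ hx] at h1
    linarith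
  have hLC : C1 ≤ x / 4 * Real.log m := by
    have h1 : 4 * C1 / x ≤ Real.log m := by linarith [abs_nonneg (8 / 3 * T1)]
    rw [div_le_iff₀ hx] at h1
    linarith
  obtain ⟨L, hLd⟩ : ∃ L, L = Real.log m := ⟨_, rfl⟩
  have hq5 := HQ m hmm5 r
  rw [← hLd] at hL hb hT1 hT2 hY2 hr hq5 hLT hLC hL8
  have hr0 : (0:ℝ) ≤ r := Nat.cast_nonneg r
  have hLp : 0 ≤ Real.log m := by rw [← hLd]; (clear * - hL; linarith)
  have hL2 : 20 * L ≤ L ^ 2 := by (clear * - hL; nlinarith)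
  have hT0 : T0i T' Y A r m ≤ 3 / 2 * L ^ 2 := by
    unfold T0i T0c
    clear * - hr hY2 hT2 hL hq5 hL2
    nlinarith
  obtain ⟨Rb, ε1, c1, mm, mb, d0, β, eB, hRb, hn, hnb, hH, heB0, hβ, heB1, heB2, hcut⟩ := HH m hmm2 hI (hSt X.ks hI.st) hb0 (R1 := 2 * L ^ 2)
    (by rw [← hLd]; (clear * - hb hL hL2; nlinarith))
    (by rw [← hLd]) (Y := Y) (by rw [← hLd]; exact hT1) (by rw [← hLd]; exact hT2) hY hh
    (by (clear * - hT0 hL2 hL; nlinarith))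
  have hwin : win Finset.univ h ≤ L ^ 2 := by
    refine (win_le_sq h).trans ?_
    exact pow_le_pow_left₀ hr0 hr 2
  have hwin0 := win_nonneg (Finset.univ : Finset (Fin r)) h
  have hT0p := hH.T0p
  have hT0' : T' + Y ≤ T0i T' Y A r m := T0i_ge hA hLp hY
  have hm26 : mm ^ 2 + (tc * k) ^ 2 ≤ C₂ * Real.log m ^ 6 := by
    rw [← hLd, hC₂]
    have hL6 : 1 ≤ L ^ 6 := one_le_pow₀ (by (clear * - hL; linarith))
    have h46 : L ^ 4 ≤ L ^ 6 := pow_le_pow_right₀ (by (clear * - hL; linarith)) (by norm_num)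
    have h1 : 2 * L ^ 2 + N ≤ (2 + N + N) * L ^ 2 := by (clear * - hL hL2 hN; nlinarith)
    have h0 : 0 ≤ A ^ 2 * Kc (5 / 2) := by positivity
    have h2 : A ^ 2 * Kc (5 / 2) * win Finset.univ h ≤ A ^ 2 * Kc (5 / 2) * L ^ 2 := by
      (clear * - hwin hA hKc; gcongr)
    have h3 : 0 ≤ A ^ 2 * Kc (5 / 2) * win Finset.univ h := by (clear * - hA hKc hwin0; positivity)
    have h4 : 4 * (2 * L ^ 2 + N) * (A ^ 2 * Kc (5 / 2) * win Finset.univ h) ≤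
        4 * ((2 + N + N) * L ^ 2) * (A ^ 2 * Kc (5 / 2) * L ^ 2) := by
      (clear * - hA hKc hwin0 h1 h2 hN hL; gcongr)
    have h5 : 8 * A ^ 2 * (2 * L ^ 2 + N) ^ 2 ≤ 8 * A ^ 2 * ((2 + N + N) * L ^ 2) ^ 2 := by
      (clear * - hL hN h1 hA; gcongr)
    calc mm ^ 2 + (tc * k) ^ 2 ≤ 4 * (2 * L ^ 2 + N) * (A ^ 2 * Kc (5 / 2) * win Finset.univ h) +
          8 * A ^ 2 * (2 * L ^ 2 + N) ^ 2 + (tc * k) ^ 2 := by
          have := hn.mw
          clear * - this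
          linarith
      _ ≤ 4 * ((2 + N + N) * L ^ 2) * (A ^ 2 * Kc (5 / 2) * L ^ 2) +
          8 * A ^ 2 * ((2 + N + N) * L ^ 2) ^ 2 + (tc * k) ^ 2 * 1 := by (clear * - h4 h5; linarith)
      _ = (4 * (2 + N + N) * (A ^ 2 * Kc (5 / 2)) + 8 * A ^ 2 * (2 + N + N) ^ 2) * L ^ 4 + (tc * k) ^ 2 * 1 := by
          ring
      _ ≤ (4 * (2 + N + N) * (A ^ 2 * Kc (5 / 2)) + 8 * A ^ 2 * (2 + N + N) ^ 2) * L ^ 6 + (tc * k) ^ 2 * L ^ 6 := by
          clear * - hN hA hKc h46 hL6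
          gcongr
      _ = _ := by ring
  have hm3s := M3_sq (A := A) hc h
  have h3Λ : C * Λ * M3 c A h ^ 2 ≤ x / 4 * win Finset.univ h := by
    calc C * Λ * M3 c A h ^ 2 ≤ C * Λ * (A ^ 2 * K3 c * win Finset.univ h) := by gcongr
      _ = C * Λ * (A ^ 2 * K3 c) * win Finset.univ h := by ring
      _ ≤ x / 4 * win Finset.univ h := by gcongr
  obtain ⟨g, hg⟩ : ∃ g, g = 7 / 3 + 2 * ε' := ⟨_, rfl⟩
  have hg0 : 0 ≤ g := by rw [hg]; (clear * - hε'; linarith)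
  have hgq : g < q := by rw [hg]; (clear * - hq; linarith)
  have key := HM m hmm1 (T0 := T0i T' Y A r m) (by (clear * - hLT hT1 hT0' hY; linarith)) hΛ1 hH hS
    (hcut cf hcf) hcrv (b := b) (by rw [hLd]; exact hG) hm26 (g := g) (e1 := eB)
    (E1 := X.Mp p n + X.En + (7 / 3 + 2 * ε') * T0i T' Y A r m + (C * (1 + N0) + C1 +
      x / 4 * win Finset.univ h + 1)) hg0 hgq heB0 hβ (by rw [hg]; (clear * - hq heB1; linarith))
    (fun T hT => by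
      have h2 := hn.e1
      have h4 : C * (NT X T + X.eR) ≤ C * (N0 + e1 * T) := mul_le_mul_of_nonneg_left (hNT T hT) hC0
      have h5 : C * e1 * T ≤ ε' * T := mul_le_mul_of_nonneg_right he1' (hT0p.le.trans hT)
      have h6 : ε' * T0i T' Y A r m ≤ ε' * T := mul_le_mul_of_nonneg_left hT hε'.le
      rw [hg]
      unfold Ex1
      clear * - h2 h4 h5 h3Λ h6
      linarith)
    (by
      rw [← hLd]
      have h1 : 1 / 20 ≤ q - g - eB := by rw [hg]; (clear * - hq heB1; linarith)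
      have h2 : L ^ 2 / 2 ≤ 2 * L ^ 2 - T0i T' Y A r m := by (clear * - hT0; linarith)
      have h3 : 1 / 20 * (L ^ 2 / 2) ≤ (q - g - eB) * (2 * L ^ 2 - T0i T' Y A r m) :=
        mul_le_mul h1 h2 (by positivity) (by (clear * - h1; linarith))
      clear * - hL hL2 h3
      nlinarith)
  refine key.trans (ENNReal.ofReal_le_ofReal ?_)
  have h5 := HT m hmm3 r (T' := T') hY
  have hsh := shF_nonneg (T0 := T0i T' Y A r m) hS.D0 hgq
  have h3 := hnb.cm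
  have h6 : eB * T0i T' Y A r m ≤ x / 8 := by
    refine le_trans ?_ heB2
    refine mul_le_mul_of_nonneg_left ?_ heB0
    clear * - hT0 hL2 hL
    nlinarith
  have hexp : Real.exp (X.Mp p n + X.En + (7 / 3 + 2 * ε') * T0i T' Y A r m + (C * (1 + N0) + C1 +
      x / 4 * win Finset.univ h + 1) +
      Kq * c1 * (Rb + N) * mb ^ 2 + eB * T0i T' Y A r m + 1) ≤
      Real.exp (X.Mp p n + X.En + ((7 / 3 + 2 * ε') * T' + 12 / 5 * Y + 6 * r + C * (1 + N0) +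
        x * (win Finset.univ h + 1 + Real.log m) + 1)) := by
    refine Real.exp_le_exp.2 ?_
    rw [hLd] at hLC hL8
    have a1 := mul_nonneg hx.le hwin0
    have a2 := mul_nonneg hx.le hLp
    clear * - h5 h3 h6 a1 a2 hLC hL8 hx
    linarith
  have hmq : 0 ≤ (m : ℝ) ^ (-(1 / 2 : ℝ) + (ε + e)) := (Real.rpow_pos_of_pos hmp _).le
  rw [← hg] at hexp ⊢
  clear * - hexp hsh hC' hm3' hmq
  gcongr

end

end PLT
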