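import Mathlib

/-!
# The slope of the static curve: algebra

`x = 4 cos² P - 1`, `y = 4 cos² Q - 1`, `A = cot P`, `B = cot Q`, `μ = 4 ch² - 4`, `θ = tanh`.

* **`slope_alg`**: the inequality of the slope for a balanced content at offset 0;
* `cot_mul_ge`: `cot Q (4 cos² P - 1) ≥ 2 √3` for `P + Q ≤ π / 3`, `Q ≤ π / 6`;
* **`desc`**: one sign change (Descartes) of the time derivative of the level function.
-/

set_option autoImplicit false

noncomputable section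

namespace PLT.CA

/-- polynomial inequality -/
theorem poly1 {x y : ℝ} (hx : 0 ≤ x) (hxy : x ≤ y) (hy2 : 2 ≤ y) (hy3 : y ≤ 3) :
    3 * (625 / 576 * ((y - x) * (2 * (x + y) + x * y)) ^ 2) ≤
      y * (y + 6) * (18 * y + 3 * (x * y) + x * y ^ 2 + 3 / 2 * x ^ 2) := by
  have c0 : 44 ≤ 18 * (y + 6) - 12 * (625 / 576) * y ^ 2 := by nlinarith
  have c1 : -64 ≤ (y + 6) * (3 + y) - 12 * (625 / 576) * y ^ 2 := by nlinarith
  have c2 : 36 * y ≤ 3 / 2 * (y + 6) - 3 * (625 / 576) * y ^ 3 + 12 * (625 / 576) * y * (2 + y) := by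
    nlinarith [mul_nonneg (sub_nonneg.2 hy2) (sub_nonneg.2 hy3),
      mul_nonneg (mul_nonneg (sub_nonneg.2 hy2) (sub_nonneg.2 hy3)) (by linarith : 0 ≤ y)]
  have c3 : 0 ≤ 6 * (2 + y) * x ^ 3 * (y ^ 2 - (2 + y) * x / 2) := by
    have h1 : 0 ≤ y ^ 2 - (2 + y) * x / 2 := by nlinarith
    positivity
  have hq : 0 ≤ 44 - 64 * x + 36 * x ^ 2 := by nlinarith [sq_nonneg (x - 8 / 9)]
  have hy : 0 ≤ y ^ 2 := sq_nonneg y
  have e : y * (y + 6) * (18 * y + 3 * (x * y) + x * y ^ 2 + 3 / 2 * x ^ 2) -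
      3 * (625 / 576 * ((y - x) * (2 * (x + y) + x * y)) ^ 2) =
      y ^ 2 * (18 * (y + 6) - 12 * (625 / 576) * y ^ 2) +
        y ^ 2 * ((y + 6) * (3 + y) - 12 * (625 / 576) * y ^ 2) * x +
        y * (3 / 2 * (y + 6) - 3 * (625 / 576) * y ^ 3 + 12 * (625 / 576) * y * (2 + y)) * x ^ 2 +
        625 / 576 * (6 * (2 + y) * x ^ 3 * (y ^ 2 - (2 + y) * x / 2)) := by
    ring
  have k0 : y ^ 2 * 44 ≤ y ^ 2 * (18 * (y + 6) - 12 * (625 / 576) * y ^ 2) :=
    mul_le_mul_of_nonneg_left c0 hy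
  have k1 : y ^ 2 * (-64) * x ≤ y ^ 2 * ((y + 6) * (3 + y) - 12 * (625 / 576) * y ^ 2) * x :=
    mul_le_mul_of_nonneg_right (mul_le_mul_of_nonneg_left c1 hy) hx
  have k2 : y * (36 * y) * x ^ 2 ≤
      y * (3 / 2 * (y + 6) - 3 * (625 / 576) * y ^ 3 + 12 * (625 / 576) * y * (2 + y)) * x ^ 2 :=
    mul_le_mul_of_nonneg_right (mul_le_mul_of_nonneg_left c2 (by linarith)) (by positivity)
  have k3 : 0 ≤ y ^ 2 * (44 - 64 * x + 36 * x ^ 2) := mul_nonneg hy hq
  nlinarith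

/-- polynomial inequality -/
theorem poly2 {x y : ℝ} (hx : 0 ≤ x) (hxy : x ≤ y) (hy2 : 2 ≤ y) (hy3 : y ≤ 3) :
    625 / 576 * ((y - x) * (x + y - 1) * ((y - x) * (2 * (x + y) + x * y))) ≤
      2 * (3 + (x + y)) * (y * (y + 6)) := by
  have h0 : 0 ≤ y - x := by linarith
  have h1 : (y - x) * (2 * (x + y) + x * y) ≤ 2 * y ^ 2 + x * y ^ 2 - x ^ 2 * 4 := by
    have : x ^ 2 * 4 ≤ x ^ 2 * (2 + y) := mul_le_mul_of_nonneg_left (by linarith) (by positivity)
    nlinarith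
  have h2 : (y - x) * ((y - x) * (2 * (x + y) + x * y)) ≤ 16 / 5 * (y * (y + 6)) := by
    have h3 : (y - x) * ((y - x) * (2 * (x + y) + x * y)) ≤
        y * (2 * y ^ 2 + x * y ^ 2 - x ^ 2 * 4) := by
      have h4 : 0 ≤ (y - x) * (2 * (x + y) + x * y) := by positivity
      have h5 : (y - x) * ((y - x) * (2 * (x + y) + x * y)) ≤
          y * ((y - x) * (2 * (x + y) + x * y)) := mul_le_mul_of_nonneg_right (by linarith) h4
      exact h5.trans (mul_le_mul_of_nonneg_left h1 (by linarith))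
    have h6 : 2 * y ^ 2 + x * y ^ 2 - x ^ 2 * 4 ≤ 16 / 5 * (y + 6) := by
      nlinarith [sq_nonneg (x - y ^ 2 / 8), sq_nonneg y, mul_nonneg hx h0]
    have h7 := mul_le_mul_of_nonneg_left h6 (by linarith : 0 ≤ y)
    linarith
  have h8 : x + y - 1 ≤ 5 / 9 * (3 + (x + y)) := by linarith
  have h9 : 0 ≤ (y - x) * ((y - x) * (2 * (x + y) + x * y)) := by positivity
  have h10 : (x + y - 1) * ((y - x) * ((y - x) * (2 * (x + y) + x * y))) ≤
      5 / 9 * (3 + (x + y)) * ((y - x) * ((y - x) * (2 * (x + y) + x * y))) :=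
    mul_le_mul_of_nonneg_right h8 h9
  have h11 : 5 / 9 * (3 + (x + y)) * ((y - x) * ((y - x) * (2 * (x + y) + x * y))) ≤
      5 / 9 * (3 + (x + y)) * (16 / 5 * (y * (y + 6))) :=
    mul_le_mul_of_nonneg_left h2 (by positivity)
  have h12 : 0 ≤ (3 + (x + y)) * (y * (y + 6)) := by positivity
  nlinarith

/-- **the inequality of the slope** for a balanced content at offset 0 -/
theorem slope_alg {A B x y μ θ r : ℝ} (hr : 0 < r) (hr3 : r ^ 2 = 3) (hA : 1 ≤ A * r)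
    (hB : 2 * r ≤ B * x) (hx : 0 < x) (hxy : x ≤ y) (hy2 : 2 ≤ y) (hy3 : y ≤ 3) (hμ : 0 ≤ μ)
    (hθ : θ ^ 2 ≤ μ / 4) :
    25 / 6 * θ * ((y - x) * (2 * (x + y) + x * y + μ * (x + y - 1))) ≤
      A * (μ + x) * (μ ^ 2 + 3 * μ + μ * y + y ^ 2) +
        B * (μ + y) * (μ ^ 2 + 3 * μ + μ * x + x ^ 2) := by
  have hA0 : 0 < A := by
    by_contra h
    have := mul_nonpos_of_nonpos_of_nonneg (not_lt.1 h) hr.le
    linarith
  have hB0 : 0 < B := by
    by_contra h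
    have := mul_nonpos_of_nonpos_of_nonneg (not_lt.1 h) hx.le
    linarith
  have hy : 0 < y := by linarith
  obtain ⟨W, hW⟩ : ∃ W, W = x * y * (A * y + B * x) := ⟨_, rfl⟩
  obtain ⟨X, hX⟩ : ∃ X, X = (y - x) * (2 * (x + y) + x * y) := ⟨_, rfl⟩
  obtain ⟨M, hM⟩ : ∃ M, M = A * y ^ 2 + 3 * A * x + B * x ^ 2 + 3 * B * y + (A + B) * (x * y) :=
    ⟨_, rfl⟩
  have hW0 : 0 < W := by
    rw [hW]
    positivity
  have hX0 : 0 ≤ X := by
    rw [hX]
    have : 0 ≤ y - x := by linarith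
    positivity
  -- lower bounds
  have b1 : y + 6 ≤ r * (A * y + B * x) := by
    have h1 : y ≤ A * r * y := by nlinarith
    have h2 : 2 * r * r ≤ B * x * r := mul_le_mul_of_nonneg_right hB hr.le
    nlinarith
  have b2 : 18 * y + 3 * (x * y) + x * y ^ 2 + 3 / 2 * x ^ 2 ≤ r * (x * (M - W / 2)) := by
    have e : x * (M - W / 2) = A * (x * (y ^ 2 + 3 / 2 * x)) + B * x * (3 * y + 1 / 2 * (x * y)) +
        (A * (x * (3 / 2 * x + x * y - x * y ^ 2 / 2)) +
          B * x * (x ^ 2 + 1 / 2 * (x * y) - x ^ 2 * y / 2)) := by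
      rw [hM, hW]
      ring
    have h1 : 0 ≤ 3 / 2 * x + x * y - x * y ^ 2 / 2 := by
      have : 0 ≤ x * (3 / 2 + y - y ^ 2 / 2) := mul_nonneg hx.le (by nlinarith)
      nlinarith
    have h2 : 0 ≤ x ^ 2 + 1 / 2 * (x * y) - x ^ 2 * y / 2 := by
      have h3 : 0 ≤ x * (x + 1 / 2 * y - x * y / 2) := by
        refine mul_nonneg hx.le ?_
        nlinarith
      nlinarith
    have h3 : 0 ≤ A * (x * (3 / 2 * x + x * y - x * y ^ 2 / 2)) := by positivity
    have h4 : 0 ≤ B * x * (x ^ 2 + 1 / 2 * (x * y) - x ^ 2 * y / 2) := by positivity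
    have h5 : x * (y ^ 2 + 3 / 2 * x) ≤ A * r * (x * (y ^ 2 + 3 / 2 * x)) := by
      have : 0 ≤ x * (y ^ 2 + 3 / 2 * x) := by positivity
      nlinarith
    have h6 : 2 * r * r * (3 * y + 1 / 2 * (x * y)) ≤ B * x * r * (3 * y + 1 / 2 * (x * y)) :=
      mul_le_mul_of_nonneg_right (mul_le_mul_of_nonneg_right hB hr.le) (by positivity)
    rw [e]
    have h7 : 0 ≤ r * (A * (x * (3 / 2 * x + x * y - x * y ^ 2 / 2)) +
          B * x * (x ^ 2 + 1 / 2 * (x * y) - x ^ 2 * y / 2)) := by positivity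
    have h8 : 2 * r * r = 6 := by nlinarith
    rw [h8] at h6
    nlinarith
  -- first comparison
  have k1 : 625 / 576 * X ^ 2 ≤ W * (M - W / 2) := by
    have h1 := poly1 hx.le hxy hy2 hy3
    rw [← hX] at h1
    have h2 : (y + 6) * (18 * y + 3 * (x * y) + x * y ^ 2 + 3 / 2 * x ^ 2) ≤
        r * (A * y + B * x) * (r * (x * (M - W / 2))) :=
      mul_le_mul b1 b2 (by positivity) (by positivity)
    have h3 := mul_le_mul_of_nonneg_left h2 hy.le
    have h4 : y * (r * (A * y + B * x) * (r * (x * (M - W / 2)))) = 3 * (W * (M - W / 2)) := by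
      rw [← hr3, hW]
      ring
    nlinarith
  have k3 : 625 / 576 * ((y - x) * (x + y - 1) * X) ≤ W * ((A + B) * (3 + (x + y))) := by
    have h1 := poly2 hx.le hxy hy2 hy3
    rw [← hX] at h1
    have h2 : 2 * (y + 6) ≤ (B * x) * (A * y + B * x) := by
      have h3 : 2 * r * (A * y + B * x) ≤ B * x * (A * y + B * x) :=
        mul_le_mul_of_nonneg_right hB (by positivity)
      nlinarith
    have h5 : B * x * (A * y + B * x) * (y * (3 + (x + y))) ≤ W * ((A + B) * (3 + (x + y))) := by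
      rw [hW]
      have : 0 ≤ A * (x * y * (A * y + B * x) * (3 + (x + y))) := by positivity
      nlinarith
    have h6 : 2 * (y + 6) * (y * (3 + (x + y))) ≤ B * x * (A * y + B * x) * (y * (3 + (x + y))) :=
      mul_le_mul_of_nonneg_right h2 (by positivity)
    nlinarith
  have k2 : (y - x) * (x + y - 1) ≤ X / 2 := by
    rw [hX]
    have h0 : 0 ≤ y - x := by linarith
    have h1 : (x + y - 1) ≤ (2 * (x + y) + x * y) / 2 := by nlinarith
    nlinarith
  have hR : A * (μ + x) * (μ ^ 2 + 3 * μ + μ * y + y ^ 2) +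
      B * (μ + y) * (μ ^ 2 + 3 * μ + μ * x + x ^ 2) =
      W + μ * M + μ ^ 2 * ((A + B) * (3 + (x + y))) + (A + B) * μ ^ 3 := by
    rw [hW, hM]
    ring
  have hL : 25 / 6 * θ * ((y - x) * (2 * (x + y) + x * y + μ * (x + y - 1))) =
      25 / 6 * θ * (X + μ * ((y - x) * (x + y - 1))) := by
    rw [hX]
    ring
  rw [hR, hL]
  have hlast : 0 ≤ (A + B) * μ ^ 3 := by positivity
  rcases eq_or_lt_of_le hX0 with h0 | h0
  · have h1 : (y - x) * (x + y - 1) = 0 := by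
      have h2 : (y - x) * (x + y - 1) ≤ 0 := by
        rw [← h0] at k2
        linarith
      have h3 : 0 ≤ (y - x) * (x + y - 1) := mul_nonneg (by linarith) (by linarith)
      linarith
    rw [← h0, h1]
    have hM0 : 0 ≤ M := by
      rw [hM]
      positivity
    have : 0 ≤ μ * M := by positivity
    have : 0 ≤ μ ^ 2 * ((A + B) * (3 + (x + y))) := by positivity
    linarith
  · obtain ⟨D, hD⟩ : ∃ D, D = (y - x) * (x + y - 1) := ⟨_, rfl⟩
    have hD0 : 0 ≤ D := by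
      rw [hD]
      exact mul_nonneg (by linarith) (by linarith)
    rw [← hD] at k2 k3
    have hXW : 0 < X * W := mul_pos h0 hW0
    have am : 25 / 6 * θ * (X * W) ≤ 625 / 576 * (μ * X ^ 2) + W ^ 2 := by
      nlinarith [sq_nonneg (25 / 12 * θ * X - W), mul_nonneg (sub_nonneg.2 hθ) (sq_nonneg X)]
    have key : 25 / 6 * θ * (X + μ * D) * (X * W) ≤
        (W + μ * M + μ ^ 2 * ((A + B) * (3 + (x + y)))) * (X * W) := by
      have h1 : 25 / 6 * θ * (X * W) * (X + μ * D) ≤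
          (625 / 576 * (μ * X ^ 2) + W ^ 2) * (X + μ * D) :=
        mul_le_mul_of_nonneg_right am (by positivity)
      -- expand
      have t1 : μ * X * (625 / 576 * X ^ 2) ≤ μ * X * (W * (M - W / 2)) :=
        mul_le_mul_of_nonneg_left k1 (by positivity)
      have t2 : μ * W ^ 2 * D ≤ μ * W ^ 2 * (X / 2) := mul_le_mul_of_nonneg_left k2 (by positivity)
      have t3 : μ ^ 2 * X * (625 / 576 * (D * X)) ≤ μ ^ 2 * X * (W * ((A + B) * (3 + (x + y)))) :=
        mul_le_mul_of_nonneg_left k3 (by positivity)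
      nlinarith
    have := le_of_mul_le_mul_right key hXW
    rw [← hD]
    linarith

/-- `cot Q (4 cos² P - 1) ≥ 2 √3` -/
theorem cot_mul_ge {P Q : ℝ} (hP : 0 ≤ P) (hQ : 0 ≤ Q) (hQ6 : Q ≤ Real.pi / 6) (h : P + Q ≤ Real.pi / 3) :
    2 * √3 * Real.sin Q ≤ Real.cos Q * (4 * Real.cos P ^ 2 - 1) := by
  have hpi := Real.pi_pos
  have h1 : Real.cos (Real.pi / 3 - Q) ≤ Real.cos P :=
    Real.cos_le_cos_of_nonneg_of_le_pi hP (by linarith) (by linarith)
  have h2 : 0 ≤ Real.cos (Real.pi / 3 - Q) :=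
    Real.cos_nonneg_of_neg_pi_div_two_le_of_le (by linarith) (by linarith)
  have h3 : Real.cos (Real.pi / 3 - Q) = Real.cos Q / 2 + √3 / 2 * Real.sin Q := by
    rw [Real.cos_sub, Real.cos_pi_div_three, Real.sin_pi_div_three]
    ring
  have hs : 0 ≤ Real.sin Q := Real.sin_nonneg_of_nonneg_of_le_pi hQ (by linarith)
  have hc : 0 ≤ Real.cos Q := Real.cos_nonneg_of_neg_pi_div_two_le_of_le (by linarith) (by linarith)
  have h4 : √3 * Real.sin Q ≤ Real.cos Q := by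
    have h5 : 0 ≤ Real.sin (Real.pi / 6 - Q) :=
      Real.sin_nonneg_of_nonneg_of_le_pi (by linarith) (by linarith)
    rw [Real.sin_sub, Real.sin_pi_div_six, Real.cos_pi_div_six] at h5
    linarith
  have h6 := Real.sin_sq_add_cos_sq Q
  have hr : √3 ^ 2 = 3 := Real.sq_sqrt (by norm_num)
  have h7 : Real.cos (Real.pi / 3 - Q) ^ 2 ≤ Real.cos P ^ 2 := pow_le_pow_left₀ h2 h1 2
  rw [h3] at h7
  clear h3 h2 h1
  generalize Real.sin Q = s at *
  generalize Real.cos Q = c at *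
  have h8 : 4 * (c / 2 + √3 / 2 * s) ^ 2 - 1 = 2 * s * (s + √3 * c) := by
    nlinarith
  have h9 : c * (2 * s * (s + √3 * c)) ≤ c * (4 * Real.cos P ^ 2 - 1) :=
    mul_le_mul_of_nonneg_left (by linarith) hc
  refine le_trans ?_ h9
  have h10 : √3 ≤ c * (s + √3 * c) := by
    have : √3 * (s ^ 2 + c ^ 2) = √3 := by rw [h6, mul_one]
    nlinarith [mul_le_mul_of_nonneg_left h4 hs]
  nlinarith [mul_le_mul_of_nonneg_left h10 hs]

/-- the polynomial of the time derivative -/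
def Rm (A B y1 y2 m : ℝ) : ℝ := B * (m + y2) * (m ^ 2 + m * y1 + y1 ^ 2 - 3 * y1) -
  A * (m + y1) * (m ^ 2 + m * y2 + y2 ^ 2 - 3 * y2)

/-- **one sign change** -/
theorem desc {A B y1 y2 m m' : ℝ} (hAB : A ≤ B) (h1 : 0 ≤ y1) (h2 : 0 ≤ y2) (h3 : 3 ≤ y1 + y2)
    (hm : 0 < m) (hmm : m ≤ m') (h : 0 < Rm A B y1 y2 m) : 0 < Rm A B y1 y2 m' := by
  have e : ∀ m, Rm A B y1 y2 m = (B - A) * m ^ 3 + (B - A) * (y1 + y2) * m ^ 2 +
      (y1 + y2 - 3) * (B * y1 - A * y2) * m +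
      y1 * y2 * ((B * y1 - A * y2) - 3 * (B - A)) := by
    intro m
    unfold Rm
    ring
  rw [e] at h ⊢
  have hm' : 0 < m' := hm.trans_le hmm
  have a1 : 0 ≤ B - A := by linarith
  have a2 : 0 ≤ y1 + y2 := by linarith
  have a3 : 0 ≤ y1 + y2 - 3 := by linarith
  have p2 : m ^ 2 ≤ m' ^ 2 := pow_le_pow_left₀ hm.le hmm 2
  have p3 : m ^ 3 ≤ m' ^ 3 := pow_le_pow_left₀ hm.le hmm 3
  obtain ⟨u, hu⟩ : ∃ u, u = B * y1 - A * y2 := ⟨_, rfl⟩
  rw [← hu] at h ⊢
  rcases le_or_gt 0 u with hu0 | hu0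
  · have q1 := mul_le_mul_of_nonneg_left p3 a1
    have q2 := mul_le_mul_of_nonneg_left p2 (mul_nonneg a1 a2)
    have q3 := mul_le_mul_of_nonneg_left hmm (mul_nonneg a3 hu0)
    linarith
  · have hc : y1 * y2 * (u - 3 * (B - A)) ≤ 0 :=
      mul_nonpos_of_nonneg_of_nonpos (mul_nonneg h1 h2) (by linarith)
    obtain ⟨c, hc'⟩ : ∃ c, c = y1 * y2 * (u - 3 * (B - A)) := ⟨_, rfl⟩
    rw [← hc'] at h hc ⊢
    -- divide by m
    have k : 0 < (B - A) * m ^ 2 + (B - A) * (y1 + y2) * m + (y1 + y2 - 3) * u + c / m := by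
      have : ((B - A) * m ^ 2 + (B - A) * (y1 + y2) * m + (y1 + y2 - 3) * u + c / m) * m =
          (B - A) * m ^ 3 + (B - A) * (y1 + y2) * m ^ 2 + (y1 + y2 - 3) * u * m + c := by
        field_simp
      rw [← this] at h
      exact (mul_pos_iff_of_pos_right hm).1 h
    have q1 := mul_le_mul_of_nonneg_left p2 a1
    have q2 := mul_le_mul_of_nonneg_left hmm (mul_nonneg a1 a2)
    have q3 : c / m ≤ c / m' := by
      rw [div_le_div_iff₀ hm hm']
      nlinarith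
    have k' : 0 < (B - A) * m' ^ 2 + (B - A) * (y1 + y2) * m' + (y1 + y2 - 3) * u + c / m' := by
      linarith
    have e' : ((B - A) * m' ^ 2 + (B - A) * (y1 + y2) * m' + (y1 + y2 - 3) * u + c / m') * m' =
          (B - A) * m' ^ 3 + (B - A) * (y1 + y2) * m' ^ 2 + (y1 + y2 - 3) * u * m' + c := by
      field_simp
    rw [← e']
    exact mul_pos k' hm'

end PLT.CA

end
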