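import Pool.Agent.PLT.VInv

/-!
# Smooth bumps as potentials of densities with decay

* `sm d f = ∫ g1 y f (t - d y) dy`: the Gaussian average, `hasDerivAt_sm`, `iteratedDeriv_sm`, `sub_sm_le`;
* **`exists_app`**: for `β` smooth with compact support, every `N` and `ε > 0`: a continuous density `h` with
  `|h t| ≤ M exp (-(5/2)|t|)`, its potential `V * h` is smooth and
  `|∂^j (β - V * h) t| ≤ ε exp (-2|t|)` for `j ≤ N`.
-/

set_option autoImplicit false

open MeasureTheory Set Filter Topology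
open scoped ContDiff

namespace PLT.App

noncomputable section

open NUMF (V)

/-! ### the Gaussian average -/

/-- the Gaussian density -/
def g1 (y : ℝ) : ℝ := Real.exp (-(y ^ 2 / 2)) / √(2 * Real.pi)

/-- the Gaussian average of width `d` -/
def sm (d : ℝ) (f : ℝ → ℝ) (t : ℝ) : ℝ := ∫ y, g1 y * f (t - d * y)

lemma g1_nonneg (y : ℝ) : 0 ≤ g1 y := by
  unfold g1
  positivity

lemma g1_cont : Continuous g1 := by
  unfold g1
  fun_prop

lemma g1_int : Integrable g1 ∧ ∫ y, g1 y = 1 := by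
  have h1 : Integrable fun y : ℝ => Real.exp (-(1 / 2) * y ^ 2) := integrable_exp_neg_mul_sq (by norm_num)
  have h2 := integral_gaussian (1 / 2)
  have e : ∀ y : ℝ, g1 y = Real.exp (-(1 / 2) * y ^ 2) / √(2 * Real.pi) := fun y => by
    unfold g1
    congr 2
    ring
  have h3 : √(2 * Real.pi) ≠ 0 := by
    have := Real.pi_pos
    positivity
  constructor
  · exact (h1.div_const _).congr (ae_of_all _ fun y => (e y).symm)
  · rw [integral_congr_ae (ae_of_all _ e), integral_div, h2, show Real.pi / (1 / 2) = 2 * Real.pi by ring]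
    exact div_self h3

lemma g1_mom : Integrable fun y => g1 y * (|y| * Real.exp (2 * |y|)) := by
  have h1 : Integrable fun y : ℝ => Real.exp 9 * (Real.exp (-(1 / 4) * y ^ 2) / √(2 * Real.pi)) :=
    ((integrable_exp_neg_mul_sq (by norm_num : (0 : ℝ) < 1 / 4)).div_const _).const_mul _
  refine h1.mono' (Continuous.aestronglyMeasurable (by have := g1_cont; fun_prop))
    (ae_of_all _ fun y => ?_)
  have hy := abs_nonneg y
  rw [Real.norm_eq_abs, abs_of_nonneg (mul_nonneg (g1_nonneg y) (by positivity))]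
  have h2 : |y| * Real.exp (2 * |y|) ≤ Real.exp (3 * |y|) := by
    have h3 : |y| ≤ Real.exp |y| := by linarith [Real.add_one_le_exp |y|]
    calc |y| * Real.exp (2 * |y|) ≤ Real.exp |y| * Real.exp (2 * |y|) :=
          mul_le_mul_of_nonneg_right h3 (Real.exp_pos _).le
      _ = _ := by rw [← Real.exp_add]; congr 1; ring
  have h4 : Real.exp (-(y ^ 2 / 2)) * Real.exp (3 * |y|) ≤ Real.exp 9 * Real.exp (-(1 / 4) * y ^ 2) := by
    rw [← Real.exp_add, ← Real.exp_add]
    refine Real.exp_le_exp.2 ?_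
    have h5 : y ^ 2 = |y| ^ 2 := (sq_abs y).symm
    rw [h5]
    nlinarith [sq_nonneg (|y| - 6)]
  unfold g1
  calc Real.exp (-(y ^ 2 / 2)) / √(2 * Real.pi) * (|y| * Real.exp (2 * |y|)) ≤
        Real.exp (-(y ^ 2 / 2)) / √(2 * Real.pi) * Real.exp (3 * |y|) :=
        mul_le_mul_of_nonneg_left h2 (by positivity)
    _ = Real.exp (-(y ^ 2 / 2)) * Real.exp (3 * |y|) / √(2 * Real.pi) := by ring
    _ ≤ Real.exp 9 * Real.exp (-(1 / 4) * y ^ 2) / √(2 * Real.pi) :=
        div_le_div_of_nonneg_right h4 (Real.sqrt_nonneg _)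
    _ = _ := by ring

/-- the constant -/
def Jm : ℝ := ∫ y, g1 y * (|y| * Real.exp (2 * |y|))

lemma Jm_nonneg : 0 ≤ Jm := integral_nonneg fun y => mul_nonneg (g1_nonneg y) (by positivity)

section

variable {f f' : ℝ → ℝ} {C K d : ℝ}

lemma sm_int (hc : Continuous f) (h0 : ∀ t, |f t| ≤ C) (d t : ℝ) :
    Integrable fun y => g1 y * f (t - d * y) :=
  g1_int.1.mul_bdd (c := C) (Continuous.aestronglyMeasurable (by fun_prop)) (ae_of_all _ fun y => h0 _)

theorem hasDerivAt_sm (hd : ∀ t, HasDerivAt f (f' t) t) (hc : Continuous f') {C' : ℝ}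
    (h0 : ∀ t, |f t| ≤ C) (h1 : ∀ t, |f' t| ≤ C') (d t : ℝ) : HasDerivAt (sm d f) (sm d f' t) t := by
  have hcf : Continuous f := continuous_iff_continuousAt.2 fun t => (hd t).continuousAt
  have hg := g1_cont
  exact (hasDerivAt_integral_of_dominated_loc_of_deriv_le (F := fun t y => g1 y * f (t - d * y))
    (F' := fun t y => g1 y * f' (t - d * y)) (bound := fun y => g1 y * C') (x₀ := t)
    (s := Set.univ) univ_mem
    (Eventually.of_forall fun t => Continuous.aestronglyMeasurable (by fun_prop)) (sm_int hcf h0 d t)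
    (Continuous.aestronglyMeasurable (by fun_prop))
    (ae_of_all _ fun y x _ => by
      rw [norm_mul, Real.norm_eq_abs, Real.norm_eq_abs, abs_of_nonneg (g1_nonneg y)]
      exact mul_le_mul_of_nonneg_left (h1 _) (g1_nonneg y))
    (g1_int.1.mul_const _)
    (ae_of_all _ fun y x _ => by
      have h2 : HasDerivAt (fun x : ℝ => x - d * y) 1 x := (hasDerivAt_id x).sub_const _
      have h3 := (hd (x - d * y)).comp x h2
      rw [mul_one] at h3
      exact h3.const_mul _)).2

/-- **the error of the average** -/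
theorem sub_sm_le (hd : ∀ t, HasDerivAt f (f' t) t) (h0 : ∀ t, |f t| ≤ C)
    (h1 : ∀ t, |f' t| ≤ K * Real.exp (-2 * |t|)) (hd0 : 0 ≤ d) (hd1 : d ≤ 1) (t : ℝ) :
    |f t - sm d f t| ≤ d * (K * Jm) * Real.exp (-2 * |t|) := by
  have hcf : Continuous f := continuous_iff_continuousAt.2 fun t => (hd t).continuousAt
  have hK : 0 ≤ K := by
    have h2 := (abs_nonneg _).trans (h1 0)
    simpa using h2
  have mv : ∀ x, |f t - f (t - x)| ≤ K * Real.exp (-2 * |t|) * (|x| * Real.exp (2 * |x|)) := by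
    intro x
    have h2 : ‖f t - f (t - x)‖ ≤ K * Real.exp (-2 * |t| + 2 * |x|) * ‖t - (t - x)‖ := by
      refine Convex.norm_image_sub_le_of_norm_hasDerivWithin_le (f' := f') (s := uIcc (t - x) t)
        (fun u _ => (hd u).hasDerivWithinAt) (fun u hu => ?_) (convex_uIcc _ _) left_mem_uIcc right_mem_uIcc
      rw [Real.norm_eq_abs]
      refine (h1 u).trans (mul_le_mul_of_nonneg_left (Real.exp_le_exp.2 ?_) hK)
      have h3 : |t - u| ≤ |x| := by
        have := abs_sub_right_of_mem_uIcc hu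
        rwa [show t - (t - x) = x by ring] at this
      have h4 : |t| ≤ |t - u| + |u| := by
        have := abs_add_le (t - u) u
        rwa [sub_add_cancel] at this
      linarith
    rw [show t - (t - x) = x by ring, Real.norm_eq_abs, Real.norm_eq_abs, Real.exp_add] at h2
    refine h2.trans (le_of_eq (by ring))
  have e : f t - sm d f t = ∫ y, g1 y * (f t - f (t - d * y)) := by
    unfold sm
    have h2 : ∀ y, g1 y * (f t - f (t - d * y)) = g1 y * f t - g1 y * f (t - d * y) := fun y => by ring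
    rw [integral_congr_ae (ae_of_all _ h2), integral_sub (g1_int.1.mul_const _) (sm_int hcf h0 d t),
      integral_mul_const, g1_int.2, one_mul]
  rw [e]
  have h5 : ∀ y, |g1 y * (f t - f (t - d * y))| ≤
      d * K * Real.exp (-2 * |t|) * (g1 y * (|y| * Real.exp (2 * |y|))) := by
    intro y
    rw [abs_mul, abs_of_nonneg (g1_nonneg y)]
    have h6 := mv (d * y)
    rw [abs_mul, abs_of_nonneg hd0] at h6
    have hy := abs_nonneg y
    have h7 : Real.exp (2 * (d * |y|)) ≤ Real.exp (2 * |y|) := Real.exp_le_exp.2 (by nlinarith)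
    have h8 : d * |y| * Real.exp (2 * (d * |y|)) ≤ d * |y| * Real.exp (2 * |y|) :=
      mul_le_mul_of_nonneg_left h7 (by positivity)
    have h9 := h6.trans (mul_le_mul_of_nonneg_left h8 (show 0 ≤ K * Real.exp (-2 * |t|) by positivity))
    refine (mul_le_mul_of_nonneg_left h9 (g1_nonneg y)).trans (le_of_eq (by ring))
  have h10 := norm_integral_le_of_norm_le (f := fun y => g1 y * (f t - f (t - d * y)))
    (g1_mom.const_mul (d * K * Real.exp (-2 * |t|))) (ae_of_all _ h5)
  rw [integral_const_mul, Real.norm_eq_abs] at h10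
  refine h10.trans (le_of_eq ?_)
  unfold Jm
  ring

end

/-! ### smooth functions with compact support -/

section

variable {β : ℝ → ℝ}

lemma hcs_iter (hc : HasCompactSupport β) (j : ℕ) : HasCompactSupport (iteratedDeriv j β) := by
  induction j with
  | zero => rwa [iteratedDeriv_zero]
  | succ j ih =>
    rw [iteratedDeriv_succ]
    exact ih.deriv

lemma iter_bd (hβ : ContDiff ℝ ∞ β) (hc : HasCompactSupport β) (j : ℕ) :
    ∃ K : ℝ, 0 ≤ K ∧ ∀ t, |iteratedDeriv j β t| ≤ K * Real.exp (-2 * |t|) := by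
  have h1 : Continuous (iteratedDeriv j β) := hβ.continuous_iteratedDeriv j (by exact_mod_cast le_top)
  have h2 : HasCompactSupport fun t => iteratedDeriv j β t * Real.exp (2 * |t|) := (hcs_iter hc j).mul_right
  obtain ⟨K, hK⟩ := Continuous.bounded_above_of_compact_support (f := fun t => iteratedDeriv j β t *
    Real.exp (2 * |t|)) (by fun_prop) h2
  refine ⟨K, (norm_nonneg _).trans (hK 0), fun t => ?_⟩
  have h3 := hK t
  rw [norm_mul, Real.norm_eq_abs, Real.norm_eq_abs, abs_of_pos (Real.exp_pos _)] at h3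
  have h4 : Real.exp (2 * |t|) * Real.exp (-2 * |t|) = 1 := by
    rw [← Real.exp_add]
    simp
  have h5 := mul_le_mul_of_nonneg_right h3 (Real.exp_pos (-2 * |t|)).le
  rwa [mul_assoc, h4, mul_one] at h5

lemma iter_bd0 (hβ : ContDiff ℝ ∞ β) (hc : HasCompactSupport β) (j : ℕ) :
    ∃ K : ℝ, ∀ t, |iteratedDeriv j β t| ≤ K := by
  obtain ⟨K, hK, h⟩ := iter_bd hβ hc j
  refine ⟨K, fun t => (h t).trans ?_⟩
  have h1 : Real.exp (-2 * |t|) ≤ 1 := Real.exp_le_one_iff.2 (by have := abs_nonneg t; linarith)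
  nlinarith

lemma iter_der (hβ : ContDiff ℝ ∞ β) (j : ℕ) (t : ℝ) :
    HasDerivAt (iteratedDeriv j β) (iteratedDeriv (j + 1) β t) t := by
  have h1 := (hβ.differentiable_iteratedDeriv j (by exact_mod_cast ENat.coe_lt_top j)) t
  rw [iteratedDeriv_succ]
  exact h1.hasDerivAt

lemma iter_cont (hβ : ContDiff ℝ ∞ β) (j : ℕ) : Continuous (iteratedDeriv j β) :=
  hβ.continuous_iteratedDeriv j (by exact_mod_cast le_top)

/-- **the derivatives of the average** -/
theorem iteratedDeriv_sm (hβ : ContDiff ℝ ∞ β) (hc : HasCompactSupport β) (d : ℝ) (j : ℕ) :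
    iteratedDeriv j (sm d β) = sm d (iteratedDeriv j β) := by
  induction j with
  | zero => rw [iteratedDeriv_zero, iteratedDeriv_zero]
  | succ j ih =>
    rw [iteratedDeriv_succ, ih]
    funext t
    obtain ⟨K0, h0⟩ := iter_bd0 hβ hc j
    obtain ⟨K1, h1⟩ := iter_bd0 hβ hc (j + 1)
    exact (hasDerivAt_sm (iter_der hβ j) (iter_cont hβ (j + 1)) h0 h1 d t).deriv

theorem contDiff_sm (hβ : ContDiff ℝ ∞ β) (hc : HasCompactSupport β) (d : ℝ) : ContDiff ℝ ∞ (sm d β) := by
  refine contDiff_of_differentiable_iteratedDeriv fun j _ => ?_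
  rw [iteratedDeriv_sm hβ hc]
  intro t
  obtain ⟨K0, h0⟩ := iter_bd0 hβ hc j
  obtain ⟨K1, h1⟩ := iter_bd0 hβ hc (j + 1)
  exact (hasDerivAt_sm (iter_der hβ j) (iter_cont hβ (j + 1)) h0 h1 d t).differentiableAt

end

/-! ### the density -/

section

variable {β a : ℝ → ℝ} {M d : ℝ}

/-- the density -/
def hd (d : ℝ) (a β : ℝ → ℝ) (u : ℝ) : ℝ := 1 / (d * √(2 * Real.pi)) * NUC37.cv β a u

lemma hd_cont (hβ : Continuous β) (hc : HasCompactSupport β) (ha : Continuous a)
    (hb : ∀ t, |a t| ≤ M * Real.exp (-(5 / 2) * |t|)) : Continuous (hd d a β) := by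
  have hM : 0 ≤ M := by
    have h2 := (abs_nonneg _).trans (hb 0)
    simpa using h2
  have h1 : ∀ t, |a t| ≤ M := fun t => (hb t).trans (by
    have h1 : Real.exp (-(5 / 2) * |t|) ≤ 1 := Real.exp_le_one_iff.2 (by have := abs_nonneg t; linarith)
    nlinarith)
  exact (NUC37.cv_cont (hβ.integrable_of_hasCompactSupport hc) ha h1).const_mul _

lemma hd_decay (hβ : Continuous β) (hc : HasCompactSupport β)
    (hb : ∀ t, |a t| ≤ M * Real.exp (-(5 / 2) * |t|)) (hd0 : 0 < d) : ∃ M' : ℝ, ∀ t,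
      |hd d a β t| ≤ M' * Real.exp (-(5 / 2) * |t|) := by
  have hM : 0 ≤ M := by
    have h2 := (abs_nonneg _).trans (hb 0)
    simpa using h2
  have hi : Integrable fun s => |β s| * Real.exp (5 / 2 * |s|) := by
    refine Continuous.integrable_of_hasCompactSupport (by fun_prop) ?_
    exact HasCompactSupport.mul_right (hc.comp_left (g := fun x => |x|) abs_zero)
  have e : ∀ t, NUC37.cv β a t = ∫ s, β s * a (t - s) := fun t => by
    unfold NUC37.cv
    rw [← integral_sub_left_eq_self (fun s => β s * a (t - s)) volume t]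
    congr 1
    funext u
    rw [show t - (t - u) = u by ring]
  refine ⟨1 / (d * √(2 * Real.pi)) * (M * ∫ s, |β s| * Real.exp (5 / 2 * |s|)), fun t => ?_⟩
  unfold hd
  have hc0 : 0 ≤ 1 / (d * √(2 * Real.pi)) := by positivity
  rw [abs_mul, abs_of_nonneg hc0, e, mul_assoc]
  refine mul_le_mul_of_nonneg_left ?_ hc0
  have h3 : ∀ s, |β s * a (t - s)| ≤
      M * Real.exp (-(5 / 2) * |t|) * (|β s| * Real.exp (5 / 2 * |s|)) := by
    intro s
    rw [abs_mul]
    have h4 : Real.exp (-(5 / 2) * |t - s|) ≤ Real.exp (-(5 / 2) * |t|) * Real.exp (5 / 2 * |s|) := by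
      rw [← Real.exp_add]
      refine Real.exp_le_exp.2 ?_
      have h4 : |t| ≤ |t - s| + |s| := by
        have := abs_add_le (t - s) s
        rwa [sub_add_cancel] at this
      linarith
    have h5 := (hb (t - s)).trans (mul_le_mul_of_nonneg_left h4 hM)
    refine (mul_le_mul_of_nonneg_left h5 (abs_nonneg (β s))).trans (le_of_eq (by ring))
  have h6 := norm_integral_le_of_norm_le (f := fun s => β s * a (t - s))
    (hi.const_mul (M * Real.exp (-(5 / 2) * |t|))) (ae_of_all _ h3)
  rw [integral_const_mul, Real.norm_eq_abs] at h6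
  refine h6.trans (le_of_eq (by ring))

/-- **the potential of the density is the average** -/
theorem pot_hd (hβ : Continuous β) (hc : HasCompactSupport β) (ha : Continuous a)
    (hb : ∀ t, |a t| ≤ M * Real.exp (-(5 / 2) * |t|)) (hd0 : 0 < d)
    (hV : ∀ t, ∫ u, a u * V (t - u) = Real.exp (-(t ^ 2 / (2 * d ^ 2)))) (t : ℝ) :
    ∫ u, hd d a β u * V (t - u) = sm d β t := by
  have hM : 0 ≤ M := by
    have h2 := (abs_nonneg _).trans (hb 0)
    simpa using h2
  have h1 : ∀ t, |a t| ≤ M := fun t => (hb t).trans (by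
    have h1 : Real.exp (-(5 / 2) * |t|) ≤ 1 := Real.exp_le_one_iff.2 (by have := abs_nonneg t; linarith)
    nlinarith)
  have hpi := Real.pi_pos
  have hβi : Integrable β := hβ.integrable_of_hasCompactSupport hc
  have e : ∀ u, NUC37.cv β a u = ∫ s, β s * a (u - s) := fun u => by
    unfold NUC37.cv
    rw [← integral_sub_left_eq_self (fun s => β s * a (u - s)) volume u]
    congr 1
    funext v
    rw [show u - (u - v) = v by ring]
  -- Fubini
  have hj : Integrable (fun z : ℝ × ℝ => V (t - z.1) * β z.2 * a (z.1 - z.2)) (volume.prod volume) := by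
    have h2 : Integrable (fun z : ℝ × ℝ => V (t - z.1) * β z.2) (volume.prod volume) :=
      (NUC43.V_integrable.comp_sub_left t).mul_prod hβi
    exact h2.mul_bdd (c := M) (Continuous.aestronglyMeasurable (by fun_prop))
      (ae_of_all _ fun z => h1 _)
  have h3 := integral_integral_swap (f := fun u s => V (t - u) * β s * a (u - s)) hj
  have e1 : ∫ u, hd d a β u * V (t - u) =
      1 / (d * √(2 * Real.pi)) * ∫ u, ∫ s, V (t - u) * β s * a (u - s) := by
    rw [← integral_const_mul]
    congr 1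
    funext u
    unfold hd
    rw [e, show 1 / (d * √(2 * Real.pi)) * (∫ s, β s * a (u - s)) * V (t - u) =
      1 / (d * √(2 * Real.pi)) * (V (t - u) * ∫ s, β s * a (u - s)) by ring, ← integral_const_mul]
    congr 2
    funext s
    ring
  have e2 : ∀ s, ∫ u, V (t - u) * β s * a (u - s) = β s * Real.exp (-((t - s) ^ 2 / (2 * d ^ 2))) := by
    intro s
    rw [← hV (t - s), ← integral_const_mul,
      ← integral_sub_right_eq_self (fun u => β s * (a u * V (t - s - u))) s]
    congr 1
    funext u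
    rw [show t - s - (u - s) = t - u by ring]
    ring
  rw [e1, h3]
  simp_rw [e2]
  rw [← integral_sub_left_eq_self (fun s => β s * Real.exp (-((t - s) ^ 2 / (2 * d ^ 2)))) volume t]
  have h4 := Measure.integral_comp_mul_left
    (fun s => β (t - s) * Real.exp (-((t - (t - s)) ^ 2 / (2 * d ^ 2)))) d
  rw [smul_eq_mul, abs_of_pos (inv_pos.2 hd0)] at h4
  have e3 : ∫ s, β (t - s) * Real.exp (-((t - (t - s)) ^ 2 / (2 * d ^ 2))) =
      d * ∫ y, β (t - d * y) * Real.exp (-((t - (t - d * y)) ^ 2 / (2 * d ^ 2))) := by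
    rw [h4, ← mul_assoc, mul_inv_cancel₀ hd0.ne', one_mul]
  rw [e3]
  unfold sm
  rw [← integral_const_mul, ← integral_const_mul]
  congr 1
  funext y
  unfold g1
  have e4 : (t - (t - d * y)) ^ 2 / (2 * d ^ 2) = y ^ 2 / 2 := by
    field_simp
    ring
  have h5 : √(2 * Real.pi) ≠ 0 := by positivity
  rw [e4]
  field_simp

end

/-- **a smooth function with compact support is a potential up to a small error** -/
theorem exists_app {β : ℝ → ℝ} (hβ : ContDiff ℝ ∞ β) (hc : HasCompactSupport β) (N : ℕ) {ε : ℝ}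
    (hε : 0 < ε) : ∃ (h : ℝ → ℝ) (M : ℝ), Continuous h ∧ (∀ t, |h t| ≤ M * Real.exp (-(5 / 2) * |t|)) ∧
    ContDiff ℝ ∞ (fun t => ∫ u, h u * V (t - u)) ∧ ∀ j, j ≤ N → ∀ t,
      |iteratedDeriv j (fun t => β t - ∫ u, h u * V (t - u)) t| ≤ ε * Real.exp (-2 * |t|) := by
  choose K hK0 hK using fun j => iter_bd hβ hc j
  obtain ⟨S, hS⟩ : ∃ S : ℝ, S = ∑ j ∈ Finset.range (N + 1), K (j + 1) * Jm := ⟨_, rfl⟩
  have hJ := Jm_nonneg
  have hS0 : 0 ≤ S := by
    rw [hS]
    exact Finset.sum_nonneg fun j _ => mul_nonneg (hK0 _) hJ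
  obtain ⟨d, hd'⟩ : ∃ d : ℝ, d = min 1 (ε / (S + 1)) := ⟨_, rfl⟩
  have hd0 : 0 < d := by
    rw [hd']
    exact lt_min one_pos (by positivity)
  have hd1 : d ≤ 1 := by
    rw [hd']
    exact min_le_left _ _
  have hdS : d * S ≤ ε := by
    have h1 : d ≤ ε / (S + 1) := by
      rw [hd']
      exact min_le_right _ _
    rw [le_div_iff₀ (by positivity)] at h1
    nlinarith
  obtain ⟨a, M, ha, -, hb, hV⟩ := PLT.Tri.exists_vinv hd0
  obtain ⟨M', hM'⟩ := hd_decay (d := d) hβ.continuous hc hb hd0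
  have e : (fun t => ∫ u, hd d a β u * V (t - u)) = sm d β := funext fun t =>
    pot_hd hβ.continuous hc ha hb hd0 hV t
  refine ⟨hd d a β, M', hd_cont hβ.continuous hc ha hb, hM', ?_, fun j hj t => ?_⟩
  · rw [e]
    exact contDiff_sm hβ hc d
  · have e1 : (fun t => β t - ∫ u, hd d a β u * V (t - u)) = β - sm d β := by
      funext t
      exact congrArg (fun x => β t - x) (congrFun e t)
    rw [e1, iteratedDeriv_sub ((hβ.of_le (by exact_mod_cast le_top)).contDiffAt)
      (((contDiff_sm hβ hc d).of_le (by exact_mod_cast le_top)).contDiffAt), iteratedDeriv_sm hβ hc]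
    obtain ⟨K0, h0⟩ := iter_bd0 hβ hc j
    refine (sub_sm_le (iter_der hβ j) h0 (hK (j + 1)) hd0.le hd1 t).trans
      (mul_le_mul_of_nonneg_right ?_ (Real.exp_pos _).le)
    have h1 : K (j + 1) * Jm ≤ S := by
      rw [hS]
      exact Finset.single_le_sum (f := fun j => K (j + 1) * Jm) (fun i _ => mul_nonneg (hK0 _) hJ)
        (Finset.mem_range.2 (by omega))
    exact (mul_le_mul_of_nonneg_left h1 hd0.le).trans hdS

end

end PLT.App
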