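import Pool.Agent.PLT.StRegA

/-!
# The rest of the static kernels

* `core`: for `F` with seven pure derivatives and decay, `H` close to `F`: the difference of `F` and the mollified `H`
  is small together with six derivatives in the first variable;
* `mulT`: product of towers; **`rest_KC`**: the rest times `cosh (c/8 t) cosh (c/8 t')` is small in the class `KC`.
-/

set_option autoImplicit false

open MeasureTheory Set Filter Topology

namespace PLT.Rg

noncomputable section

open PLT.App (g1 g1_nonneg g1_cont g1_int g1_mom Jm Jm_nonneg sm hasDerivAt_sm sm_int)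
open NUKer (KC)

section

variable {c C : ℝ} {A : ℕ → ℝ → ℝ → ℝ}

/-- the derivatives are measurable in the second variable -/
lemma meas_snd (hA : ∀ n < 7, ∀ t s, HasDerivAt (fun t => A n t s) (A (n + 1) t s) t)
    (h0 : ∀ t, Measurable (A 0 t)) (n : ℕ) : n ≤ 7 → ∀ t, Measurable (A n t) := by
  induction n with
  | zero => exact fun _ t => h0 t
  | succ n ih =>
    intro hn t
    refine measurable_of_tendsto_metrizable (f := fun (k : ℕ) s =>
      (1 / ((k : ℝ) + 1))⁻¹ * (A n (t + 1 / ((k : ℝ) + 1)) s - A n t s))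
      (fun k => ((ih (by omega) _).sub (ih (by omega) _)).const_mul _) ?_
    rw [tendsto_pi_nhds]
    intro s
    have h1 := hasDerivAt_iff_tendsto_slope_zero.1 (hA n (by omega) t s)
    have h2 : Tendsto (fun k : ℕ => 1 / ((k : ℝ) + 1)) atTop (𝓝[≠] 0) :=
      tendsto_nhdsWithin_iff.2 ⟨tendsto_one_div_add_atTop_nhds_zero_nat, Eventually.of_forall fun k => by
        have : (0 : ℝ) < 1 / ((k : ℝ) + 1) := by positivity
        exact this.ne'⟩
    exact h1.comp h2

/-- averages in the second variable -/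
lemma tw_par (hc : 0 ≤ c) (hc1 : c ≤ 1) (hC : 0 ≤ C)
    (hA : ∀ n < 7, ∀ t s, HasDerivAt (fun t => A n t s) (A (n + 1) t s) t)
    (hAc : ∀ n ≤ 7, ∀ s, Continuous fun t => A n t s)
    (hAb : ∀ n ≤ 7, ∀ t s, |A n t s| ≤ C * Real.exp (-(c * |t|) - c * |s|))
    (hAm : ∀ n ≤ 7, ∀ t, Measurable (A n t)) {d : ℝ} (hd : 0 ≤ d) (hd1 : d ≤ 1) (t' : ℝ) :
    Tw (C * J1 * Real.exp (-(c * |t'|))) c (fun n s => sm d (A n s) t') := by
  have hg := g1_cont
  have hle : ∀ n, n ≤ 7 → ∀ t s, |A n t s| ≤ C := fun n hn t s => (hAb n hn t s).trans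
    (mul_le_of_le_one_right hC (Real.exp_le_one_iff.2 (by
      have := mul_nonneg hc (abs_nonneg t)
      have := mul_nonneg hc (abs_nonneg s)
      linarith)))
  have hm : ∀ n, n ≤ 7 → ∀ s, AEStronglyMeasurable (fun y => g1 y * A n s (t' - d * y)) volume := by
    intro n hn s
    have h1 : Measurable fun y : ℝ => t' - d * y := by fun_prop
    exact (hg.measurable.mul ((hAm n hn s).comp h1)).aestronglyMeasurable
  have hb : ∀ n, n ≤ 7 → ∀ s y, ‖g1 y * A n s (t' - d * y)‖ ≤ g1 y * C := by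
    intro n hn s y
    rw [norm_mul, Real.norm_eq_abs, Real.norm_eq_abs, abs_of_nonneg (g1_nonneg y)]
    exact mul_le_mul_of_nonneg_left (hle n hn _ _) (g1_nonneg y)
  refine ⟨fun n hn s => ?_, fun n hn => ?_, fun n hn s => ?_⟩
  · exact (hasDerivAt_integral_of_dominated_loc_of_deriv_le (F := fun s y => g1 y * A n s (t' - d * y))
      (F' := fun s y => g1 y * A (n + 1) s (t' - d * y)) (bound := fun y => g1 y * C) (x₀ := s)
      (s := Set.univ) univ_mem (Eventually.of_forall fun s => hm n (by omega) s)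
      ((g1_int.1.mul_const C).mono' (hm n (by omega) s) (ae_of_all _ fun y => hb n (by omega) s y))
      (hm (n + 1) (by omega) s) (ae_of_all _ fun y u _ => hb (n + 1) (by omega) u y)
      (g1_int.1.mul_const _) (ae_of_all _ fun y u _ => (hA n hn u _).const_mul _)).2
  · exact continuous_of_dominated (fun s => hm n hn s) (fun s => ae_of_all _ fun y => hb n hn s y)
      (g1_int.1.mul_const C) (ae_of_all _ fun y => (hAc n hn _).const_mul _)
  · have h1 := sm_le (f := A n s) (b := c) (d := d) (K := C * Real.exp (-(c * |s|))) hc hc1 hd hd1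
      (by positivity) (fun s' => by
        have h2 := hAb n hn s s'
        rw [show -(c * |s|) - c * |s'| = -(c * |s|) + -(c * |s'|) by ring, Real.exp_add] at h2
        linarith) t'
    refine h1.trans (le_of_eq (by ring))

end

lemma Tw.rate {K b b' : ℝ} {e : ℕ → ℝ → ℝ} (h : Tw K b e) (hb : b' ≤ b) : Tw K b' e :=
  ⟨h.d, h.c, fun n hn t => (h.b n hn t).trans (mul_le_mul_of_nonneg_left (Real.exp_le_exp.2 (by
    have := mul_le_mul_of_nonneg_right hb (abs_nonneg t)
    linarith)) h.K0)⟩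

lemma sm_sub {f g : ℝ → ℝ} (hf : Measurable f) (hg : Measurable g) {Kf Kg : ℝ} (h1 : ∀ t, |f t| ≤ Kf)
    (h2 : ∀ t, |g t| ≤ Kg) (d t : ℝ) : sm d (fun s => f s - g s) t = sm d f t - sm d g t := by
  have hy : Measurable fun y : ℝ => t - d * y := by fun_prop
  have i1 : Integrable fun y => g1 y * f (t - d * y) := g1_int.1.mul_bdd (c := Kf)
    (hf.comp hy).aestronglyMeasurable (ae_of_all _ fun y => h1 _)
  have i2 : Integrable fun y => g1 y * g (t - d * y) := g1_int.1.mul_bdd (c := Kg)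
    (hg.comp hy).aestronglyMeasurable (ae_of_all _ fun y => h2 _)
  unfold sm
  rw [← integral_sub i1 i2]
  congr 1
  funext y
  ring

lemma sm_meas {H : ℝ → ℝ → ℝ} (hH : Measurable fun p : ℝ × ℝ => H p.1 p.2) (d t' : ℝ) :
    Measurable fun s => sm d (H s) t' := by
  have h1 : Measurable fun p : ℝ × ℝ => g1 p.2 * H p.1 (t' - d * p.2) := by
    have h2 : Measurable fun p : ℝ × ℝ => (p.1, t' - d * p.2) := by fun_prop
    exact (g1_cont.measurable.comp measurable_snd).mul (hH.comp h2)
  exact (h1.stronglyMeasurable.integral_prod_right (f := fun s y => g1 y * H s (t' - d * y))).measurable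

/-- joint continuity from Lipschitz bounds -/
lemma cont2 {F : ℝ → ℝ → ℝ} {C : ℝ} (h1 : ∀ t t' s, |F t s - F t' s| ≤ C * |t - t'|)
    (h2 : ∀ t s s', |F t s - F t s'| ≤ C * |s - s'|) : Continuous fun p : ℝ × ℝ => F p.1 p.2 := by
  rw [continuous_iff_continuousAt]
  intro p
  rw [ContinuousAt, tendsto_iff_norm_sub_tendsto_zero]
  have h3 : Tendsto (fun z : ℝ × ℝ => C * |z.1 - p.1| + C * |z.2 - p.2|) (𝓝 p) (𝓝 0) := by
    have h4 : Continuous fun z : ℝ × ℝ => C * |z.1 - p.1| + C * |z.2 - p.2| := by fun_prop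
    have h5 := h4.tendsto p
    simpa using h5
  refine squeeze_zero (fun _ => norm_nonneg _) (fun z => ?_) h3
  rw [Real.norm_eq_abs]
  have h6 := abs_sub_le (F z.1 z.2) (F p.1 z.2) (F p.1 p.2)
  have h7 := h1 z.1 p.1 z.2
  have h8 := h2 p.1 z.2 p.2
  linarith

lemma lip_of {f f' : ℝ → ℝ} {C : ℝ} (h : ∀ t, HasDerivAt f (f' t) t) (h1 : ∀ t, |f' t| ≤ C) (t t' : ℝ) :
    |f t - f t'| ≤ C * |t - t'| :=
  Convex.norm_image_sub_le_of_norm_hasDerivWithin_le (f := f) (f' := f') (s := Set.univ)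
    (fun u _ => (h u).hasDerivWithinAt) (fun u _ => h1 u) convex_univ trivial trivial

/-- **the mollified and discretised kernel is close, with six derivatives** -/
theorem core {c : ℝ} (hc : 0 < c) (hc1 : c ≤ 1) {C η : ℝ} (hC : 0 ≤ C) (hη : 0 < η) :
    ∃ d ε0 : ℝ, 0 < d ∧ d ≤ 1 ∧ 0 < ε0 ∧ ∀ F H : ℝ → ℝ → ℝ, PD7 c C F → PD7 c C (fun t s => F s t) →
    Measurable (fun p : ℝ × ℝ => H p.1 p.2) →
    (∀ s s', |H s s' - F s s'| ≤ ε0 * Real.exp (-(c / 2 * |s|) - c / 2 * |s'|)) →
    ∃ e : ℕ → ℝ → ℝ → ℝ, (∀ t t', e 0 t t' = F t t' - ∫ s, gd d (t - s) * ∫ s', gd d (t' - s') * H s s') ∧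
      (∀ n < 7, ∀ t t', HasDerivAt (fun t => e n t t') (e (n + 1) t t') t) ∧
      (∀ n ≤ 7, ∀ t', Continuous fun t => e n t t') ∧
      ∀ n ≤ 6, ∀ t t', |e n t t'| ≤ η * Real.exp (-(c / 2 * |t|) - c / 2 * |t'|) := by
  have hJ := J1_nonneg
  have hJm := Jm_nonneg
  have hc2 : 0 ≤ c / 2 := by linarith
  have hc21 : c / 2 ≤ 1 := by linarith
  obtain ⟨δ, hδ, HI⟩ := interp (b := c / 2) (C := C + C * J1 * J1 + 1) hc2 hc21 (by positivity) 6 le_rfl η hη
  obtain ⟨S, hS⟩ : ∃ S : ℝ, S = C * Jm * (1 + J1) := ⟨_, rfl⟩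
  have hS0 : 0 ≤ S := by
    rw [hS]
    positivity
  obtain ⟨d, hd'⟩ : ∃ d : ℝ, d = min 1 (δ / 2 / (S + 1)) := ⟨_, rfl⟩
  have hd0 : 0 < d := by
    rw [hd']
    exact lt_min one_pos (by positivity)
  have hd1 : d ≤ 1 := by
    rw [hd']
    exact min_le_left _ _
  have hdS : d * S ≤ δ / 2 := by
    have h1 : d ≤ δ / 2 / (S + 1) := by
      rw [hd']
      exact min_le_right _ _
    rw [le_div_iff₀ (by positivity)] at h1
    nlinarith
  obtain ⟨Q, hQ, hq⟩ := q_le hd0
  obtain ⟨ε0, hε'⟩ : ∃ ε0 : ℝ, ε0 = min 1 (δ / 2) / (J1 * (2 * Q) + 1) := ⟨_, rfl⟩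
  have hmin : 0 < min 1 (δ / 2) := lt_min one_pos (by positivity)
  have hε0 : 0 < ε0 := by
    rw [hε']
    positivity
  have hεQ : ε0 * J1 * (2 * Q) ≤ min 1 (δ / 2) := by
    have h1 : ε0 * (J1 * (2 * Q) + 1) = min 1 (δ / 2) := by
      rw [hε']
      field_simp
    nlinarith
  refine ⟨d, ε0, hd0, hd1, hε0, fun F H hF hFt hH hHF => ?_⟩
  obtain ⟨A, a0, a1, a2, a3⟩ := hF.ex
  obtain ⟨B, b0, b1, b2, b3⟩ := hFt.ex
  -- bounds
  have hexp : ∀ x y : ℝ, Real.exp (-(c * |x|) - c * |y|) = Real.exp (-(c * |x|)) * Real.exp (-(c * |y|)) :=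
    fun x y => by rw [← Real.exp_add]; congr 1
  have hexp2 : ∀ x y : ℝ, Real.exp (-(c / 2 * |x|) - c / 2 * |y|) =
      Real.exp (-(c / 2 * |x|)) * Real.exp (-(c / 2 * |y|)) := fun x y => by rw [← Real.exp_add]; congr 1
  have he1 : ∀ x : ℝ, Real.exp (-(c * |x|)) ≤ Real.exp (-(c / 2 * |x|)) := fun x =>
    Real.exp_le_exp.2 (by have := mul_nonneg hc.le (abs_nonneg x); linarith)
  have he0 : ∀ x : ℝ, Real.exp (-(c * |x|)) ≤ 1 := fun x =>
    Real.exp_le_one_iff.2 (by have := mul_nonneg hc.le (abs_nonneg x); linarith)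
  have he20 : ∀ x : ℝ, Real.exp (-(c / 2 * |x|)) ≤ 1 := fun x =>
    Real.exp_le_one_iff.2 (by have := mul_nonneg hc2 (abs_nonneg x); linarith)
  have hA0 : ∀ t s, A 0 t s = F t s := fun t s => by rw [a0]
  have hB0 : ∀ t s, B 0 t s = F s t := fun t s => by rw [b0]
  have dF1 : ∀ t s, HasDerivAt (fun t => F t s) (A 1 t s) t := fun t s => by
    have := a1 0 (by norm_num) t s
    rw [a0] at this
    exact this
  have dF2 : ∀ t s, HasDerivAt (fun s => F t s) (B 1 s t) s := fun t s => by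
    have := b1 0 (by norm_num) s t
    rw [b0] at this
    exact this
  have bF : ∀ t s, |F t s| ≤ C * (Real.exp (-(c * |t|)) * Real.exp (-(c * |s|))) := fun t s => by
    have := a3 0 (by norm_num) t s
    rw [a0, hexp] at this
    exact this
  have bF1 : ∀ t s, |A 1 t s| ≤ C * (Real.exp (-(c * |t|)) * Real.exp (-(c * |s|))) := fun t s => by
    have := a3 1 (by norm_num) t s
    rwa [hexp] at this
  have bF2 : ∀ t s, |B 1 s t| ≤ C * (Real.exp (-(c * |s|)) * Real.exp (-(c * |t|))) := fun t s => by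
    have := b3 1 (by norm_num) s t
    rwa [hexp] at this
  have hle : ∀ x y : ℝ, C * (Real.exp (-(c * |x|)) * Real.exp (-(c * |y|))) ≤ C := fun x y => by
    have h1 : Real.exp (-(c * |x|)) * Real.exp (-(c * |y|)) ≤ 1 :=
      mul_le_one₀ (he0 x) (Real.exp_pos _).le (he0 y)
    exact mul_le_of_le_one_right hC h1
  have hFc : Continuous fun p : ℝ × ℝ => F p.1 p.2 :=
    cont2 (fun t t' s => lip_of (fun u => dF1 u s) (fun u => (bF1 u s).trans (hle _ _)) t t')
      (fun t s s' => lip_of (fun u => dF2 t u) (fun u => (bF2 t u).trans (hle _ _)) s s')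
  have hFm := hFc.measurable
  have hAm : ∀ n ≤ 7, ∀ t, Measurable (A n t) := fun n hn t => by
    refine meas_snd a1 (fun t => ?_) n hn t
    rw [a0]
    exact hFm.comp measurable_prodMk_left
  have hHm : ∀ s, Measurable (H s) := fun s => hH.comp measurable_prodMk_left
  have hHb : ∀ s s', |H s s'| ≤ C + ε0 := fun s s' => by
    have h1 := hHF s s'
    rw [hexp2] at h1
    have h2 : ε0 * (Real.exp (-(c / 2 * |s|)) * Real.exp (-(c / 2 * |s'|))) ≤ ε0 :=
      mul_le_of_le_one_right hε0.le (mul_le_one₀ (he20 s) (Real.exp_pos _).le (he20 s'))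
    have h3 := (bF s s').trans (hle s s')
    have h4 := abs_add_le (H s s' - F s s') (F s s')
    rw [sub_add_cancel] at h4
    linarith
  -- the discretisation
  obtain ⟨W, hW⟩ : ∃ W : ℝ → ℝ → ℝ, W = fun t' s => sm d (fun s' => H s s' - F s s') t' := ⟨_, rfl⟩
  have hWm : ∀ t', Measurable (W t') := fun t' => by
    rw [hW]
    exact sm_meas (H := fun s s' => H s s' - F s s') (hH.sub hFm) d t'
  have hWb : ∀ t' s, |W t' s| ≤ ε0 * J1 * Real.exp (-(c / 2 * |t'|)) * Real.exp (-(c / 2 * |s|)) := by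
    intro t' s
    rw [hW]
    have h1 := sm_le (f := fun s' => H s s' - F s s') (b := c / 2) (d := d)
      (K := ε0 * Real.exp (-(c / 2 * |s|))) hc2 hc21 hd0.le hd1 (by positivity) (fun s' => by
        have h2 := hHF s s'
        rw [hexp2] at h2
        linarith) t'
    refine h1.trans (le_of_eq (by ring))
  refine ⟨fun n t t' => A n t t' - sm d (fun s => sm d (A n s) t') t - ∫ s, q d n (t - s) * W t' s,
    fun t t' => ?_, ?_⟩
  · -- the value
    have e1 : ∫ s, q d 0 (t - s) * W t' s = sm d (W t') t := by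
      rw [← gd_sm hd0]
      congr 1
      funext s
      rw [q_zero]
    have e2 : W t' = fun s => sm d (H s) t' - sm d (F s) t' := by
      rw [hW]
      funext s
      exact sm_sub (hHm s) (hFm.comp measurable_prodMk_left) (hHb s) (fun s' => (bF s s').trans (hle _ _)) d t'
    have b1' : ∀ s, |sm d (H s) t'| ≤ (C + ε0) * J1 := fun s => by
      have := sm_le (f := H s) (b := 0) (d := d) (K := C + ε0) le_rfl zero_le_one hd0.le hd1
        (by positivity) (fun s' => by
          rw [zero_mul, neg_zero, Real.exp_zero, mul_one]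
          exact hHb s s') t'
      rwa [zero_mul, neg_zero, Real.exp_zero, mul_one] at this
    have b2' : ∀ s, |sm d (F s) t'| ≤ C * J1 := fun s => by
      have := sm_le (f := F s) (b := 0) (d := d) (K := C) le_rfl zero_le_one hd0.le hd1
        hC (fun s' => by
          rw [zero_mul, neg_zero, Real.exp_zero, mul_one]
          exact (bF s s').trans (hle _ _)) t'
      rwa [zero_mul, neg_zero, Real.exp_zero, mul_one] at this
    have e3 : sm d (W t') t = sm d (fun s => sm d (H s) t') t - sm d (fun s => sm d (F s) t') t := by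
      rw [e2]
      exact sm_sub (sm_meas hH d t') (sm_meas (H := F) hFm d t') b1' b2' d t
    have e4 : ∫ s, gd d (t - s) * ∫ s', gd d (t' - s') * H s s' = sm d (fun s => sm d (H s) t') t := by
      rw [← gd_sm hd0]
      congr 1
      funext s
      rw [gd_sm hd0]
    show A 0 t t' - sm d (fun s => sm d (A 0 s) t') t - ∫ s, q d 0 (t - s) * W t' s = _
    rw [e1, e3, e4, a0]
    ring
  · -- the towers
    have tw : ∀ t', Tw ((C + C * J1 * J1 + 1) * Real.exp (-(c / 2 * |t'|))) (c / 2)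
        (fun n t => A n t t' - sm d (fun s => sm d (A n s) t') t - ∫ s, q d n (t - s) * W t' s) := by
      intro t'
      have w0 : 0 ≤ Real.exp (-(c / 2 * |t'|)) := (Real.exp_pos _).le
      have t1 : Tw (C * Real.exp (-(c / 2 * |t'|))) (c / 2) (fun n t => A n t t') := by
        refine Tw.rate (b := c) ⟨fun n hn t => a1 n hn t t', fun n hn => a2 n hn t', fun n hn t => ?_⟩
          (by linarith)
        have h1 := a3 n hn t t'
        rw [hexp] at h1
        refine h1.trans ?_
        rw [mul_assoc]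
        refine mul_le_mul_of_nonneg_left ?_ hC
        rw [mul_comm]
        exact mul_le_mul_of_nonneg_right (he1 t') (Real.exp_pos _).le
      have t2 : Tw (C * J1 * J1 * Real.exp (-(c / 2 * |t'|))) (c / 2)
          (fun n => sm d (fun s => sm d (A n s) t')) := by
        have h1 := (tw_par hc.le hc1 hC a1 a2 a3 hAm hd0.le hd1 t').sm hc.le hc1 hd0.le hd1
        refine (h1.rate (b' := c / 2) (by linarith)).mono ?_
        have h2 := mul_le_mul_of_nonneg_left (he1 t') (show 0 ≤ C * J1 * J1 by positivity)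
        linarith
      have t3 := tw_ker hd0 hQ hq (hWm t') hc2 hc21 (K := ε0 * J1 * Real.exp (-(c / 2 * |t'|)))
        (by positivity) (hWb t')
      refine ((t1.sub t2).sub t3).mono ?_
      have h3 : ε0 * J1 * (2 * Q) ≤ 1 := hεQ.trans (min_le_left _ _)
      have h4 := mul_le_mul_of_nonneg_right h3 w0
      nlinarith
    refine ⟨fun n hn t t' => (tw t').d n hn t, fun n hn t' => (tw t').c n hn, fun n hn t t' => ?_⟩
    have h0 : ∀ t, |A 0 t t' - sm d (fun s => sm d (A 0 s) t') t - ∫ s, q d 0 (t - s) * W t' s| ≤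
        δ * Real.exp (-(c / 2 * |t'|)) * Real.exp (-(c / 2 * |t|)) := by
      intro t
      -- first variable
      have s1 : |F t t' - sm d (fun s => F s t') t| ≤
          d * (C * Real.exp (-(c * |t'|)) * Jm) * Real.exp (-(c * |t|)) :=
        sub_sm_le (f := fun s => F s t') (f' := fun s => A 1 s t') (b := c)
          (K := C * Real.exp (-(c * |t'|))) (fun s => dF1 s t') hc.le hc1 (by positivity) (fun s => by
            refine (bF s t').trans ?_
            have h1 := he0 s
            have h2 := Real.exp_pos (-(c * |t'|))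
            have h3 := mul_le_mul_of_nonneg_right h1 h2.le
            rw [one_mul] at h3
            exact mul_le_mul_of_nonneg_left h3 hC) (fun s => by
            refine (bF1 s t').trans (le_of_eq (by ring))) hd0.le hd1 t
      -- second variable
      have s2 : ∀ s, |F s t' - sm d (F s) t'| ≤
          d * C * Jm * Real.exp (-(c * |t'|)) * Real.exp (-(c * |s|)) := fun s => by
        have h1 := sub_sm_le (f := F s) (f' := fun s' => B 1 s' s) (b := c)
          (K := C * Real.exp (-(c * |s|))) (fun s' => dF2 s s') hc.le hc1 (by positivity) (fun s' => by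
            refine (bF s s').trans ?_
            have h1 := he0 s'
            have h2 := Real.exp_pos (-(c * |s|))
            have h3 := mul_le_mul_of_nonneg_left h1 h2.le
            rw [mul_one] at h3
            exact mul_le_mul_of_nonneg_left h3 hC) (fun s' => by
            refine (bF2 s s').trans (le_of_eq (by ring))) hd0.le hd1 t'
        exact h1.trans (le_of_eq (by ring))
      have s3 : |sm d (fun s => F s t' - sm d (F s) t') t| ≤
          d * C * Jm * Real.exp (-(c * |t'|)) * J1 * Real.exp (-(c * |t|)) :=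
        sm_le hc.le hc1 hd0.le hd1 (by positivity) s2 t
      have b2' : ∀ s, |sm d (F s) t'| ≤ C * J1 := fun s => by
        have := sm_le (f := F s) (b := 0) (d := d) (K := C) le_rfl zero_le_one hd0.le hd1
          hC (fun s' => by
            rw [zero_mul, neg_zero, Real.exp_zero, mul_one]
            exact (bF s s').trans (hle _ _)) t'
        rwa [zero_mul, neg_zero, Real.exp_zero, mul_one] at this
      have s4 : sm d (fun s => F s t' - sm d (F s) t') t =
          sm d (fun s => F s t') t - sm d (fun s => sm d (F s) t') t :=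
        sm_sub (hFm.comp measurable_prodMk_right) (sm_meas (H := F) hFm d t')
          (fun s => (bF s t').trans (hle _ _)) b2' d t
      have s5 := (tw_ker hd0 hQ hq (hWm t') hc2 hc21 (K := ε0 * J1 * Real.exp (-(c / 2 * |t'|)))
        (by positivity) (hWb t')).b 0 (by norm_num) t
      have s6 : |A 0 t t' - sm d (fun s => sm d (A 0 s) t') t| ≤
          d * S * (Real.exp (-(c * |t'|)) * Real.exp (-(c * |t|))) := by
        rw [a0]
        have h1 := abs_add_le (F t t' - sm d (fun s => F s t') t) (sm d (fun s => F s t' - sm d (F s) t') t)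
        have h2 : F t t' - sm d (fun s => F s t') t + sm d (fun s => F s t' - sm d (F s) t') t =
            F t t' - sm d (fun s => sm d (F s) t') t := by
          rw [s4]
          ring
        rw [h2] at h1
        have h3 : d * S * (Real.exp (-(c * |t'|)) * Real.exp (-(c * |t|))) =
            d * (C * Real.exp (-(c * |t'|)) * Jm) * Real.exp (-(c * |t|)) +
              d * C * Jm * Real.exp (-(c * |t'|)) * J1 * Real.exp (-(c * |t|)) := by
          rw [hS]
          ring
        rw [h3]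
        linarith
      have s7 : d * S * (Real.exp (-(c * |t'|)) * Real.exp (-(c * |t|))) ≤
          δ / 2 * (Real.exp (-(c / 2 * |t'|)) * Real.exp (-(c / 2 * |t|))) :=
        mul_le_mul hdS (mul_le_mul (he1 t') (he1 t) (Real.exp_pos _).le (Real.exp_pos _).le)
          (by positivity) (by positivity)
      have s8 : ε0 * J1 * Real.exp (-(c / 2 * |t'|)) * (2 * Q) * Real.exp (-(c / 2 * |t|)) ≤
          δ / 2 * (Real.exp (-(c / 2 * |t'|)) * Real.exp (-(c / 2 * |t|))) := by
        have h1 := mul_le_mul_of_nonneg_right (hεQ.trans (min_le_right _ _))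
          (show 0 ≤ Real.exp (-(c / 2 * |t'|)) * Real.exp (-(c / 2 * |t|)) by positivity)
        refine le_trans (le_of_eq ?_) h1
        ring
      have s9 := abs_sub (A 0 t t' - sm d (fun s => sm d (A 0 s) t') t) (∫ s, q d 0 (t - s) * W t' s)
      have s10 : δ * Real.exp (-(c / 2 * |t'|)) * Real.exp (-(c / 2 * |t|)) =
          δ / 2 * (Real.exp (-(c / 2 * |t'|)) * Real.exp (-(c / 2 * |t|))) +
            δ / 2 * (Real.exp (-(c / 2 * |t'|)) * Real.exp (-(c / 2 * |t|))) := by ring
      rw [s10]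
      linarith
    have h1 := HI _ _ (Real.exp_pos (-(c / 2 * |t'|))).le (tw t') h0 n hn t
    rw [hexp2]
    refine h1.trans (le_of_eq (by ring))

/-! ### products of towers -/

/-- the Leibniz sum -/
def mulT (f g : ℕ → ℝ → ℝ) (n : ℕ) (t : ℝ) : ℝ :=
  ∑ i ∈ Finset.range (n + 1), (n.choose i : ℝ) * (f i t * g (n - i) t)

lemma hasDerivAt_mulT {f g : ℕ → ℝ → ℝ} {N : ℕ} (hf : ∀ n, n < N → ∀ t, HasDerivAt (f n) (f (n + 1) t) t)
    (hg : ∀ n, n < N → ∀ t, HasDerivAt (g n) (g (n + 1) t) t) {n : ℕ} (hn : n < N) (t : ℝ) :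
    HasDerivAt (mulT f g n) (mulT f g (n + 1) t) t := by
  have h1 : HasDerivAt (mulT f g n) (∑ i ∈ Finset.range (n + 1), (n.choose i : ℝ) *
      (f (i + 1) t * g (n - i) t + f i t * g (n - i + 1) t)) t :=
    HasDerivAt.fun_sum fun i hi => by
      have hi' := Finset.mem_range.1 hi
      exact ((hf i (by omega) t).mul (hg (n - i) (by omega) t)).const_mul _
  have h2 : ∑ i ∈ Finset.range (n + 1), (n.choose i : ℝ) *
      (f (i + 1) t * g (n - i) t + f i t * g (n - i + 1) t) = mulT f g (n + 1) t := by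
    unfold mulT
    rw [Finset.sum_choose_succ_mul (fun i j => f i t * g j t) n, ← Finset.sum_add_distrib]
    refine Finset.sum_congr rfl fun i hi => ?_
    have hi' := Finset.mem_range.1 hi
    rw [show n + 1 - i = n - i + 1 by omega]
    ring
  rw [h2] at h1
  exact h1

lemma mulT_le {f g : ℕ → ℝ → ℝ} {Kf Kg t : ℝ} {n : ℕ} (hf : ∀ i, i ≤ n → |f i t| ≤ Kf)
    (hg : ∀ i, i ≤ n → |g i t| ≤ Kg) : |mulT f g n t| ≤ 2 ^ n * (Kf * Kg) := by
  unfold mulT
  have h0 : 0 ≤ Kf := (abs_nonneg _).trans (hf 0 (Nat.zero_le _))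
  refine (Finset.abs_sum_le_sum_abs _ _).trans ?_
  have h1 : ∀ i ∈ Finset.range (n + 1), |(n.choose i : ℝ) * (f i t * g (n - i) t)| ≤
      (n.choose i : ℝ) * (Kf * Kg) := by
    intro i hi
    have hi' := Finset.mem_range.1 hi
    rw [abs_mul, abs_mul, abs_of_nonneg (Nat.cast_nonneg _)]
    exact mul_le_mul_of_nonneg_left (mul_le_mul (hf i (by omega)) (hg _ (by omega)) (abs_nonneg _) h0)
      (Nat.cast_nonneg _)
  refine (Finset.sum_le_sum h1).trans (le_of_eq ?_)
  rw [← Finset.sum_mul]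
  congr 1
  exact_mod_cast Nat.sum_range_choose n

/-- the derivatives of `cosh (κ t)` -/
def ch (κ : ℝ) (n : ℕ) (t : ℝ) : ℝ := κ ^ n * (if Even n then Real.cosh (κ * t) else Real.sinh (κ * t))

lemma hasDerivAt_ch (κ : ℝ) (n : ℕ) (t : ℝ) : HasDerivAt (ch κ n) (ch κ (n + 1) t) t := by
  have h0 : HasDerivAt (fun t : ℝ => κ * t) κ t := by simpa using (hasDerivAt_id t).const_mul κ
  unfold ch
  by_cases h : Even n
  · have h1 : ¬ Even (n + 1) := by
      rw [Nat.even_add_one]
      exact not_not.2 h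
    simp only [h, h1, if_true, if_false]
    have h2 := ((Real.hasDerivAt_cosh (κ * t)).comp t h0).const_mul (κ ^ n)
    have e : κ ^ n * (Real.sinh (κ * t) * κ) = κ ^ (n + 1) * Real.sinh (κ * t) := by ring
    rw [e] at h2
    exact h2
  · have h1 : Even (n + 1) := by
      rw [Nat.even_add_one]
      exact h
    simp only [h, h1, if_true, if_false]
    have h2 := ((Real.hasDerivAt_sinh (κ * t)).comp t h0).const_mul (κ ^ n)
    have e : κ ^ n * (Real.cosh (κ * t) * κ) = κ ^ (n + 1) * Real.cosh (κ * t) := by ring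
    rw [e] at h2
    exact h2

lemma cosh_le (x : ℝ) : |Real.cosh x| ≤ Real.exp |x| := by
  rw [abs_of_pos (Real.cosh_pos x), ← Real.cosh_abs, Real.cosh_eq]
  have h1 : Real.exp (-|x|) ≤ Real.exp |x| := Real.exp_le_exp.2 (by have := abs_nonneg x; linarith)
  linarith

lemma sinh_le (x : ℝ) : |Real.sinh x| ≤ Real.exp |x| := by
  have h1 : |Real.sinh x| ≤ Real.cosh x := by
    rw [abs_le]
    have h2 := Real.cosh_sub_sinh x
    have h3 := Real.cosh_add_sinh x
    have h4 := Real.exp_pos x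
    have h5 := Real.exp_pos (-x)
    constructor <;> linarith
  exact h1.trans ((le_abs_self _).trans (cosh_le x))

lemma ch_le {κ : ℝ} (hκ : 0 ≤ κ) (hκ1 : κ ≤ 1) (n : ℕ) (t : ℝ) : |ch κ n t| ≤ Real.exp (κ * |t|) := by
  have h1 : |κ * t| = κ * |t| := by rw [abs_mul, abs_of_nonneg hκ]
  have h2 : |if Even n then Real.cosh (κ * t) else Real.sinh (κ * t)| ≤ Real.exp (κ * |t|) := by
    rw [← h1]
    split_ifs
    · exact cosh_le _
    · exact sinh_le _
  unfold ch
  rw [abs_mul, abs_of_nonneg (pow_nonneg hκ n)]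
  have h3 : κ ^ n ≤ 1 := pow_le_one₀ hκ hκ1
  calc κ ^ n * |if Even n then Real.cosh (κ * t) else Real.sinh (κ * t)| ≤ 1 * Real.exp (κ * |t|) :=
        mul_le_mul h3 h2 (abs_nonneg _) zero_le_one
    _ = _ := one_mul _

/-! ### the class `KC` -/

/-- one half of `T6` -/
lemma half {c η : ℝ} (hc : 0 < c) (hc1 : c ≤ 1) (hη : 0 ≤ η) {e : ℕ → ℝ → ℝ → ℝ}
    (h1 : ∀ n < 7, ∀ t t', HasDerivAt (fun t => e n t t') (e (n + 1) t t') t)
    (h3 : ∀ n ≤ 6, ∀ t t', |e n t t'| ≤ η * Real.exp (-(c / 2 * |t|) - c / 2 * |t'|)) :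
    ∃ A : ℕ → ℝ → ℝ → ℂ,
      (A 0 = fun t t' => ((Real.cosh (c / 8 * t) * Real.cosh (c / 8 * t') * e 0 t t' : ℝ) : ℂ)) ∧
      (∀ n, n < 6 → ∀ t s, HasDerivAt (fun t => A n t s) (A (n + 1) t s) t) ∧
      (∀ n, n ≤ 6 → ∀ s, Continuous fun t => A n t s) ∧
      ∀ n, n ≤ 6 → ∀ t s, ‖A n t s‖ ≤ 64 * η * (Real.exp (-(3 * c / 8) * |t|) * Real.exp (-(3 * c / 8) * |s|)) := by
  have hd : ∀ n, n < 7 → ∀ t s, HasDerivAt (fun t => ((mulT (ch (c / 8)) (fun n t => e n t s) n t *
      Real.cosh (c / 8 * s) : ℝ) : ℂ)) ((mulT (ch (c / 8)) (fun n t => e n t s) (n + 1) t *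
      Real.cosh (c / 8 * s) : ℝ) : ℂ) t := fun n hn t s =>
    ((hasDerivAt_mulT (N := 7) (fun n _ t => hasDerivAt_ch (c / 8) n t) (fun n hn t => h1 n hn t s) hn t).mul_const
      _).ofReal_comp
  refine ⟨fun n t s => ((mulT (ch (c / 8)) (fun n t => e n t s) n t * Real.cosh (c / 8 * s) : ℝ) : ℂ), ?_,
    fun n hn t s => hd n (by omega) t s, fun n hn s => continuous_iff_continuousAt.2 fun t =>
      (hd n (by omega) t s).continuousAt, fun n hn t s => ?_⟩
  · funext t t'
    congr 1
    unfold mulT ch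
    simp
    ring
  · rw [Complex.norm_real, Real.norm_eq_abs, abs_mul]
    have k1 := mulT_le (f := ch (c / 8)) (g := fun n t => e n t s) (t := t) (n := n)
      (Kf := Real.exp (c / 8 * |t|)) (Kg := η * Real.exp (-(c / 2 * |t|) - c / 2 * |s|))
      (fun i _ => ch_le (by positivity) (by linarith) i t) (fun i hi => h3 i (by omega) t s)
    have k2 : |Real.cosh (c / 8 * s)| ≤ Real.exp (c / 8 * |s|) := by
      have := cosh_le (c / 8 * s)
      rwa [abs_mul, abs_of_pos (show 0 < c / 8 by positivity)] at this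
    have k3 : (2 : ℝ) ^ n ≤ 64 := by
      calc (2 : ℝ) ^ n ≤ 2 ^ 6 := pow_le_pow_right₀ (by norm_num) hn
        _ = 64 := by norm_num
    have k4 : 0 ≤ Real.exp (c / 8 * |t|) * (η * Real.exp (-(c / 2 * |t|) - c / 2 * |s|)) := by positivity
    have k5 := k1.trans (mul_le_mul_of_nonneg_right k3 k4)
    refine (mul_le_mul k5 k2 (abs_nonneg _) (by positivity)).trans (le_of_eq ?_)
    have k6 : Real.exp (c / 8 * |t|) * Real.exp (-(c / 2 * |t|) - c / 2 * |s|) * Real.exp (c / 8 * |s|) =
        Real.exp (-(3 * c / 8) * |t|) * Real.exp (-(3 * c / 8) * |s|) := by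
      rw [← Real.exp_add, ← Real.exp_add, ← Real.exp_add]
      congr 1
      ring
    rw [← k6]
    ring

lemma PD7.mono {c C C' : ℝ} {F : ℝ → ℝ → ℝ} (h : PD7 c C F) (hC : C ≤ C') : PD7 c C' F := by
  obtain ⟨A, a0, a1, a2, a3⟩ := h.ex
  exact ⟨A, a0, a1, a2, fun n hn t s => (a3 n hn t s).trans (mul_le_mul_of_nonneg_right hC (Real.exp_pos _).le)⟩

lemma gd_int {d : ℝ} (hd : 0 < d) : Integrable (gd d) := by
  obtain ⟨Q, hQ, hq⟩ := q_le hd
  have h1 := (int_e two_pos 0).1.const_mul Q
  simp only [zero_sub, abs_neg] at h1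
  refine h1.mono' (Continuous.aestronglyMeasurable ?_) (ae_of_all _ fun x => ?_)
  · exact continuous_iff_continuousAt.2 fun x => (hasDerivAt_gd hd x).continuousAt
  · rw [← q_zero, Real.norm_eq_abs]
    exact hq 0 (by norm_num) x

/-- the order of the averages -/
lemma swap2 {d : ℝ} (hd : 0 < d) {H : ℝ → ℝ → ℝ} (hH : Measurable fun p : ℝ × ℝ => H p.1 p.2) {K : ℝ}
    (hb : ∀ s s', |H s s'| ≤ K) (t t' : ℝ) :
    ∫ s, gd d (t - s) * ∫ s', gd d (t' - s') * H s s' =
      ∫ s', gd d (t' - s') * ∫ s, gd d (t - s) * H s s' := by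
  have h1 : Integrable (fun z : ℝ × ℝ => gd d (t - z.1) * gd d (t' - z.2) * H z.1 z.2)
      (volume.prod volume) := by
    have h2 : Integrable (fun z : ℝ × ℝ => gd d (t - z.1) * gd d (t' - z.2)) (volume.prod volume) :=
      ((gd_int hd).comp_sub_left t).mul_prod ((gd_int hd).comp_sub_left t')
    exact h2.mul_bdd (c := K) hH.aestronglyMeasurable (ae_of_all _ fun z => hb _ _)
  have h3 := integral_integral_swap (f := fun s s' => gd d (t - s) * gd d (t' - s') * H s s') h1
  have e1 : ∀ s, gd d (t - s) * ∫ s', gd d (t' - s') * H s s' =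
      ∫ s', gd d (t - s) * gd d (t' - s') * H s s' := fun s => by
    rw [← integral_const_mul]
    congr 1
    funext s'
    ring
  have e2 : ∀ s', gd d (t' - s') * ∫ s, gd d (t - s) * H s s' =
      ∫ s, gd d (t - s) * gd d (t' - s') * H s s' := fun s' => by
    rw [← integral_const_mul]
    congr 1
    funext s
    ring
  simp_rw [e1, e2]
  exact h3

/-- **the rest is small in the class `KC`** -/
theorem rest_KC {c : ℝ} (hc : 0 < c) (hc1 : c ≤ 1) : ∀ C Λ : ℝ, 0 < Λ → ∃ d ε0 : ℝ, 0 < d ∧ d ≤ 1 ∧ 0 < ε0 ∧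
    ∀ F H : ℝ → ℝ → ℝ, PD7 c C F → PD7 c C (fun t s => F s t) → Measurable (fun p : ℝ × ℝ => H p.1 p.2) →
    (∀ s s', |H s s' - F s s'| ≤ ε0 * Real.exp (-(c / 2 * |s|) - c / 2 * |s'|)) →
    (∀ R, KC R Λ (fun t t' => ((Real.cosh (c / 8 * t) * Real.cosh (c / 8 * t') *
      (F t t' - ∫ s, gd d (t - s) * ∫ s', gd d (t' - s') * H s s') : ℝ) : ℂ))) ∧
    Continuous fun p : ℝ × ℝ => ∫ s, gd d (p.1 - s) * ∫ s', gd d (p.2 - s') * H s s' := by
  intro C Λ hΛ
  obtain ⟨K, hK, HK⟩ := PLT.F2.KC_dec (a := 3 * c / 8) (by positivity)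
  obtain ⟨η, hη'⟩ : ∃ η : ℝ, η = Λ / (64 * K) := ⟨_, rfl⟩
  have hη : 0 < η := by
    rw [hη']
    positivity
  obtain ⟨d, ε0, hd, hd1, hε, H0⟩ := core hc hc1 (abs_nonneg C) hη
  refine ⟨d, ε0, hd, hd1, hε, fun F H hF hFt hH hHF => ?_⟩
  have hF' := hF.mono (le_abs_self C)
  have hFt' := hFt.mono (le_abs_self C)
  obtain ⟨e, k1, k2, k3, k4⟩ := H0 F H hF' hFt' hH hHF
  have hHt : Measurable fun p : ℝ × ℝ => (fun s s' => H s' s) p.1 p.2 := by
    have h1 : Measurable fun p : ℝ × ℝ => (p.2, p.1) := by fun_prop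
    exact hH.comp h1
  obtain ⟨e', l1, l2, l3, l4⟩ := H0 (fun t s => F s t) (fun s s' => H s' s) hFt' hF' hHt (fun s s' => by
    have h1 := hHF s' s
    rwa [show -(c / 2 * |s'|) - c / 2 * |s| = -(c / 2 * |s|) - c / 2 * |s'| by ring] at h1)
  -- bound of `H`
  obtain ⟨A, a0, -, -, a3⟩ := hF'.ex
  have hHb : ∀ s s', |H s s'| ≤ |C| + ε0 := fun s s' => by
    have h1 := hHF s s'
    have h2 : Real.exp (-(c / 2 * |s|) - c / 2 * |s'|) ≤ 1 := Real.exp_le_one_iff.2 (by
      have := mul_nonneg hc.le (abs_nonneg s)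
      have := mul_nonneg hc.le (abs_nonneg s')
      linarith)
    have h3 := a3 0 (by norm_num) s s'
    rw [a0] at h3
    have h4 : Real.exp (-(c * |s|) - c * |s'|) ≤ 1 := Real.exp_le_one_iff.2 (by
      have := mul_nonneg hc.le (abs_nonneg s)
      have := mul_nonneg hc.le (abs_nonneg s')
      linarith)
    have h5 : |C| * Real.exp (-(c * |s|) - c * |s'|) ≤ |C| := mul_le_of_le_one_right (abs_nonneg C) h4
    have h6 : ε0 * Real.exp (-(c / 2 * |s|) - c / 2 * |s'|) ≤ ε0 := mul_le_of_le_one_right hε.le h2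
    have h7 := abs_add_le (H s s' - F s s') (F s s')
    rw [sub_add_cancel] at h7
    linarith
  -- symmetry
  have sym : ∀ t t', e' 0 t' t = e 0 t t' := fun t t' => by
    rw [k1, l1, swap2 hd hH hHb t t']
  obtain ⟨A1, p1, p2, p3, p4⟩ := half hc hc1 hη.le k2 k4
  obtain ⟨B1, r1, r2, r3, r4⟩ := half hc hc1 hη.le l2 l4
  have bnd : ∀ n ≤ 6, ∀ t t', |e n t t'| ≤ η := fun n hn t t' => (k4 n hn t t').trans
    (mul_le_of_le_one_right hη.le (Real.exp_le_one_iff.2 (by
      have := mul_nonneg hc.le (abs_nonneg t)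
      have := mul_nonneg hc.le (abs_nonneg t')
      linarith)))
  have bnd' : ∀ n ≤ 6, ∀ t t', |e' n t t'| ≤ η := fun n hn t t' => (l4 n hn t t').trans
    (mul_le_of_le_one_right hη.le (Real.exp_le_one_iff.2 (by
      have := mul_nonneg hc.le (abs_nonneg t)
      have := mul_nonneg hc.le (abs_nonneg t')
      linarith)))
  have hEc : Continuous fun p : ℝ × ℝ => e 0 p.1 p.2 := by
    refine cont2 (C := η) (fun t t' s => lip_of (fun u => k2 0 (by norm_num) u s)
      (fun u => bnd 1 (by norm_num) u s) t t') fun t s s' => ?_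
    rw [← sym, ← sym]
    exact lip_of (fun u => l2 0 (by norm_num) u t) (fun u => bnd' 1 (by norm_num) u t) s s'
  have hFc : Continuous fun p : ℝ × ℝ => F p.1 p.2 := by
    obtain ⟨A, a0, a1, a2, a3⟩ := hF'.ex
    obtain ⟨B, b0, b1, b2, b3⟩ := hFt'.ex
    have hle : ∀ x y : ℝ, |C| * Real.exp (-(c * |x|) - c * |y|) ≤ |C| := fun x y =>
      mul_le_of_le_one_right (abs_nonneg C) (Real.exp_le_one_iff.2 (by
        have := mul_nonneg hc.le (abs_nonneg x)
        have := mul_nonneg hc.le (abs_nonneg y)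
        linarith))
    refine cont2 (C := |C|) (fun t t' s => lip_of (f := fun u => F u s) (f' := fun u => A 1 u s) (fun u => ?_)
      (fun u => (a3 1 (by norm_num) u s).trans (hle _ _)) t t') (fun t s s' =>
      lip_of (f := fun u => F t u) (f' := fun u => B 1 u t) (fun u => ?_) (fun u => (b3 1 (by norm_num) u t).trans (hle _ _)) s s')
    · have := a1 0 (by norm_num) u s
      rwa [a0] at this
    · have := b1 0 (by norm_num) u t
      rwa [b0] at this
  refine ⟨fun R => ?_, ?_⟩
  · have hT : ∀ L, PLT.F2.T6 L (64 * η) (fun t => Real.exp (-(3 * c / 8) * |t|))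
        (fun t t' => ((Real.cosh (c / 8 * t) * Real.cosh (c / 8 * t') * e 0 t t' : ℝ) : ℂ)) A1
        (fun n t s => B1 n s t) := fun L =>
      { co := by
          have := hEc
          fun_prop
        a0 := p1
        b0 := by
          funext t s
          rw [r1]
          simp only
          rw [sym]
          congr 2
          ring
        ad := p2
        bd := fun n hn t s => r2 n hn s t
        ac := p3
        bc := fun n hn t => r3 n hn t
        ab := fun n hn t s _ _ => p4 n hn t s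
        bb := fun n hn t s _ _ => by
          have := r4 n hn s t
          rwa [mul_comm (Real.exp (-(3 * c / 8) * |s|))] at this }
    have h1 := HK _ _ _ _ hT R
    have h2 : K * (64 * η) = Λ := by
      rw [hη']
      field_simp
    rw [h2] at h1
    have h3 : (fun t t' => ((Real.cosh (c / 8 * t) * Real.cosh (c / 8 * t') *
      (F t t' - ∫ s, gd d (t - s) * ∫ s', gd d (t' - s') * H s s') : ℝ) : ℂ)) =
      fun t t' => ((Real.cosh (c / 8 * t) * Real.cosh (c / 8 * t') * e 0 t t' : ℝ) : ℂ) := by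
      funext t t'
      rw [k1]
    rw [h3]
    exact h1
  · have h3 : (fun p : ℝ × ℝ => ∫ s, gd d (p.1 - s) * ∫ s', gd d (p.2 - s') * H s s') =
        fun p => F p.1 p.2 - e 0 p.1 p.2 := by
      funext p
      rw [k1]
      ring
    rw [h3]
    exact hFc.sub hEc

end

end PLT.Rg
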