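import Mathlib

/-!
# THETA, row B: sampling of a smooth kernel with decay (helper80)

* `tn N δ i`: the tents of width `δ` with centres `sc N δ i = δ (i - N)`, `i < 2 N + 1`: a partition of unity on `|s| ≤ N δ`;
* `Hs N δ F = ∑ F (sc i) (sc j) tn i tn j`, **`Hs_sub`**: `|Hs F - F| ≤ (2 e² C δ + C exp (-(c/2) N δ)) exp (-(c/2)(|s| + |s'|))`.
-/

set_option autoImplicit false

open MeasureTheory Set Filter Topology

namespace PLT.StF

noncomputable section

/-! ### tents -/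

/-- restriction to `[0, 1]` -/
def cl (x : ℝ) : ℝ := max 0 (min 1 x)

lemma cl_cont : Continuous cl := by
  unfold cl
  fun_prop

lemma cl_one {x : ℝ} (h : 1 ≤ x) : cl x = 1 := by
  unfold cl
  rw [min_eq_left h, max_eq_right zero_le_one]

lemma cl_zero {x : ℝ} (h : x ≤ 0) : cl x = 0 := by
  unfold cl
  rw [min_eq_right (h.trans zero_le_one), max_eq_left h]

lemma cl_nonneg (x : ℝ) : 0 ≤ cl x := le_max_left _ _

lemma cl_le (x : ℝ) : cl x ≤ 1 := max_le zero_le_one (min_le_left _ _)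

lemma cl_mono {x y : ℝ} (h : x ≤ y) : cl x ≤ cl y := max_le_max le_rfl (min_le_min le_rfl h)

/-- the tent with centre `δ (i - N)` and width `δ` -/
def tn (N : ℕ) (δ : ℝ) (i : ℕ) (s : ℝ) : ℝ := cl (s / δ - i + N + 1) - cl (s / δ - (i + 1 : ℕ) + N + 1)

/-- the centre -/
def sc (N : ℕ) (δ : ℝ) (i : ℕ) : ℝ := δ * ((i : ℝ) - N)

variable {N : ℕ} {δ : ℝ} {i : ℕ} {s : ℝ}

lemma tn_cont (N : ℕ) (δ : ℝ) (i : ℕ) : Continuous (tn N δ i) := by
  unfold tn
  have := cl_cont
  fun_prop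

lemma tn_nonneg (N : ℕ) (δ : ℝ) (i : ℕ) (s : ℝ) : 0 ≤ tn N δ i s := by
  unfold tn
  have : cl (s / δ - (i + 1 : ℕ) + N + 1) ≤ cl (s / δ - i + N + 1) := cl_mono (by push_cast; linarith)
  linarith

lemma tn_le (N : ℕ) (δ : ℝ) (i : ℕ) (s : ℝ) : tn N δ i s ≤ 1 := by
  unfold tn
  linarith [cl_le (s / δ - i + N + 1), cl_nonneg (s / δ - (i + 1 : ℕ) + N + 1)]

lemma tn_abs (N : ℕ) (δ : ℝ) (i : ℕ) (s : ℝ) : |tn N δ i s| ≤ 1 := by
  rw [abs_of_nonneg (tn_nonneg _ _ _ _)]
  exact tn_le _ _ _ _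

lemma tn_supp (hδ : 0 < δ) (h : tn N δ i s ≠ 0) : |s - sc N δ i| ≤ δ := by
  by_contra hc
  apply h
  rw [not_le] at hc
  have e : s - sc N δ i = δ * (s / δ - i + N) := by
    unfold sc
    field_simp
    ring
  rw [e, abs_mul, abs_of_pos hδ] at hc
  have h1 : 1 < |s / δ - i + N| := by
    by_contra h2
    rw [not_lt] at h2
    have := mul_le_mul_of_nonneg_left h2 hδ.le
    linarith
  unfold tn
  push_cast
  rcases lt_abs.1 h1 with h2 | h2
  · rw [cl_one (by linarith), cl_one (by linarith), sub_self]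
  · rw [cl_zero (by linarith), cl_zero (by linarith), sub_self]

lemma tn_cs (hδ : 0 < δ) (N i : ℕ) : HasCompactSupport (tn N δ i) := by
  refine HasCompactSupport.intro (K := Icc (sc N δ i - δ) (sc N δ i + δ)) isCompact_Icc fun s hs => ?_
  by_contra h
  apply hs
  have := abs_le.1 (tn_supp hδ h)
  exact ⟨by linarith [this.1], by linarith [this.2]⟩

/-- the sum of the tents -/
def tsm (N : ℕ) (δ : ℝ) (s : ℝ) : ℝ := ∑ i : Fin (2 * N + 1), tn N δ i s

lemma tsm_eq (N : ℕ) (δ s : ℝ) : tsm N δ s = cl (s / δ + N + 1) - cl (s / δ - N) := by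
  have h1 : tsm N δ s = ∑ i ∈ Finset.range (2 * N + 1), tn N δ i s := by
    unfold tsm
    exact Fin.sum_univ_eq_sum_range (fun i => tn N δ i s) (2 * N + 1)
  have h2 := Finset.sum_range_sub' (fun i : ℕ => cl (s / δ - i + N + 1)) (2 * N + 1)
  rw [h1]
  unfold tn
  rw [h2]
  congr 2
  · push_cast
    ring
  · push_cast
    ring

lemma tsm_nonneg (N : ℕ) (δ s : ℝ) : 0 ≤ tsm N δ s := Finset.sum_nonneg fun i _ => tn_nonneg _ _ _ _

lemma tsm_le (N : ℕ) (δ s : ℝ) : tsm N δ s ≤ 1 := by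
  rw [tsm_eq]
  linarith [cl_le (s / δ + N + 1), cl_nonneg (s / δ - N)]

lemma tsm_one (hδ : 0 < δ) (h : |s| ≤ N * δ) : tsm N δ s = 1 := by
  rw [tsm_eq]
  have h1 := abs_le.1 h
  have h2 : -(N : ℝ) ≤ s / δ := by
    rw [le_div_iff₀ hδ]
    linarith [h1.1]
  have h3 : s / δ ≤ N := by
    rw [div_le_iff₀ hδ]
    linarith [h1.2]
  rw [cl_one (by linarith), cl_zero (by linarith), sub_zero]

/-! ### sampling -/

/-- the sampled kernel -/
def Hs (N : ℕ) (δ : ℝ) (F : ℝ → ℝ → ℝ) (s s' : ℝ) : ℝ :=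
  ∑ i : Fin (2 * N + 1), ∑ j : Fin (2 * N + 1), F (sc N δ i) (sc N δ j) * (tn N δ i s * tn N δ j s')

variable {F : ℝ → ℝ → ℝ} {c C : ℝ}

/-- decay of the values and of the first derivative in the first variable -/
structure Lp (c C : ℝ) (F : ℝ → ℝ → ℝ) : Prop where
  b0 : ∀ t s, |F t s| ≤ C * Real.exp (-(c * |t|) - c * |s|)
  b1 : ∃ F' : ℝ → ℝ → ℝ, (∀ t s, HasDerivAt (fun t => F t s) (F' t s) t) ∧
    ∀ t s, |F' t s| ≤ C * Real.exp (-(c * |t|) - c * |s|)

lemma Lp.C0 (h : Lp c C F) : 0 ≤ C := by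
  have := (abs_nonneg _).trans (h.b0 0 0)
  simpa using this

/-- Lipschitz with decay -/
lemma Lp.lip (h : Lp c C F) (hc : 0 ≤ c) (t t' s : ℝ) :
    |F t' s - F t s| ≤ C * (Real.exp (c * |t' - t|) * Real.exp (-(c * |t|) - c * |s|)) * |t' - t| := by
  obtain ⟨F', hd, hb⟩ := h.b1
  have hC := h.C0
  have hm := Convex.norm_image_sub_le_of_norm_hasDerivWithin_le (f := fun t => F t s) (f' := fun t => F' t s)
    (s := uIcc t t') (x := t) (y := t') (C := C * (Real.exp (c * |t' - t|) * Real.exp (-(c * |t|) - c * |s|)))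
    (fun x _ => (hd x s).hasDerivWithinAt) (fun x hx => ?_) (convex_uIcc t t') left_mem_uIcc right_mem_uIcc
  · rw [Real.norm_eq_abs, Real.norm_eq_abs] at hm
    exact hm
  · rw [Real.norm_eq_abs]
    refine (hb x s).trans (mul_le_mul_of_nonneg_left ?_ hC)
    rw [← Real.exp_add]
    refine Real.exp_le_exp.2 ?_
    have h1 : |x - t| ≤ |t' - t| := abs_sub_left_of_mem_uIcc hx
    have h2 : |t| ≤ |x| + |x - t| := by
      have := abs_sub_abs_le_abs_sub t x
      rw [abs_sub_comm] at this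
      linarith
    nlinarith

/-- joint continuity -/
lemma Lp.cont (h : Lp c C F) (h' : Lp c C fun t s => F s t) (hc : 0 ≤ c) : Continuous fun p : ℝ × ℝ => F p.1 p.2 := by
  have hC := h.C0
  have hb : ∀ t s : ℝ, Real.exp (-(c * |t|) - c * |s|) ≤ 1 := fun t s => Real.exp_le_one_iff.2 (by
    have := mul_nonneg hc (abs_nonneg t)
    have := mul_nonneg hc (abs_nonneg s)
    linarith)
  rw [continuous_iff_continuousAt]
  rintro ⟨t, s⟩
  rw [ContinuousAt, tendsto_iff_norm_sub_tendsto_zero]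
  have h0 : Tendsto (fun p : ℝ × ℝ => C * Real.exp (c * |p.2 - s|) * |p.2 - s| +
      C * Real.exp (c * |p.1 - t|) * |p.1 - t|) (𝓝 (t, s)) (𝓝 0) := by
    have hcont : Continuous (fun p : ℝ × ℝ => C * Real.exp (c * |p.2 - s|) * |p.2 - s| +
      C * Real.exp (c * |p.1 - t|) * |p.1 - t|) := by fun_prop
    have := hcont.tendsto (t, s)
    simpa using this
  refine squeeze_zero (fun _ => norm_nonneg _) (fun p => ?_) h0
  rw [Real.norm_eq_abs]
  have e : F p.1 p.2 - F t s = (F p.1 p.2 - F p.1 s) + (F p.1 s - F t s) := by ring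
  rw [e]
  refine (abs_add_le _ _).trans (add_le_add ?_ ?_)
  · refine (h'.lip hc s p.2 p.1).trans ?_
    refine mul_le_mul_of_nonneg_right ?_ (abs_nonneg _)
    refine mul_le_mul_of_nonneg_left ?_ hC
    exact mul_le_of_le_one_right (Real.exp_pos _).le (hb _ _)
  · refine (h.lip hc t p.1 s).trans ?_
    refine mul_le_mul_of_nonneg_right ?_ (abs_nonneg _)
    refine mul_le_mul_of_nonneg_left ?_ hC
    exact mul_le_of_le_one_right (Real.exp_pos _).le (hb _ _)

/-- two values at distance at most `δ` in each variable -/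
lemma Lp.two (h : Lp c C F) (h' : Lp c C fun t s => F s t) (hc : 0 ≤ c) (hc1 : c ≤ 1) (hδ : δ ≤ 1) {s s' r r' : ℝ}
    (h1 : |s - r| ≤ δ) (h2 : |s' - r'| ≤ δ) :
    |F r r' - F s s'| ≤ 2 * Real.exp 2 * C * δ * Real.exp (-(c * |s|) - c * |s'|) := by
  have hC := h.C0
  have hδ0 : 0 ≤ δ := (abs_nonneg _).trans h1
  have e : F r r' - F s s' = (F r r' - F s r') + (F s r' - F s s') := by ring
  have k1 : |F r r' - F s r'| ≤ Real.exp 2 * C * δ * Real.exp (-(c * |s|) - c * |s'|) := by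
    refine (h.lip hc s r r').trans ?_
    have a1 : |r - s| ≤ δ := by rwa [abs_sub_comm]
    have a2 : Real.exp (c * |r - s|) * Real.exp (-(c * |s|) - c * |r'|) ≤ Real.exp 2 * Real.exp (-(c * |s|) - c * |s'|) := by
      rw [← Real.exp_add, ← Real.exp_add]
      refine Real.exp_le_exp.2 ?_
      have a3 : |s'| ≤ |r'| + |s' - r'| := by
        have := abs_sub_abs_le_abs_sub s' r'
        linarith
      have a4 : c * |s'| ≤ c * (|r'| + |s' - r'|) := mul_le_mul_of_nonneg_left a3 hc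
      have a5 : c * |s' - r'| ≤ 1 := mul_le_one₀ hc1 (abs_nonneg _) (h2.trans hδ)
      have a6 : c * |r - s| ≤ 1 := mul_le_one₀ hc1 (abs_nonneg _) (a1.trans hδ)
      linarith
    calc C * (Real.exp (c * |r - s|) * Real.exp (-(c * |s|) - c * |r'|)) * |r - s| ≤
        C * (Real.exp 2 * Real.exp (-(c * |s|) - c * |s'|)) * δ := by gcongr
      _ = _ := by ring
  have k2 : |F s r' - F s s'| ≤ Real.exp 2 * C * δ * Real.exp (-(c * |s|) - c * |s'|) := by
    refine (h'.lip hc s' r' s).trans ?_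
    have a1 : |r' - s'| ≤ δ := by rwa [abs_sub_comm]
    have a2 : Real.exp (c * |r' - s'|) * Real.exp (-(c * |s'|) - c * |s|) ≤ Real.exp 2 * Real.exp (-(c * |s|) - c * |s'|) := by
      rw [← Real.exp_add, ← Real.exp_add]
      refine Real.exp_le_exp.2 ?_
      have a6 : c * |r' - s'| ≤ 1 := mul_le_one₀ hc1 (abs_nonneg _) (a1.trans hδ)
      linarith
    calc C * (Real.exp (c * |r' - s'|) * Real.exp (-(c * |s'|) - c * |s|)) * |r' - s'| ≤
        C * (Real.exp 2 * Real.exp (-(c * |s|) - c * |s'|)) * δ := by gcongr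
      _ = _ := by ring
  rw [e]
  refine (abs_add_le _ _).trans ((add_le_add k1 k2).trans (le_of_eq ?_))
  ring

/-- **the error of the sampling** -/
theorem Hs_sub (h : Lp c C F) (h' : Lp c C fun t s => F s t) (hc : 0 ≤ c) (hc1 : c ≤ 1) (hδ0 : 0 < δ) (hδ : δ ≤ 1)
    (N : ℕ) (s s' : ℝ) : |Hs N δ F s s' - F s s'| ≤
      (2 * Real.exp 2 * C * δ + C * Real.exp (-(c / 2 * (N * δ)))) * Real.exp (-(c / 2 * |s|) - c / 2 * |s'|) := by
  have hC := h.C0
  set E := Real.exp (-(c * |s|) - c * |s'|) with hE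
  have hE0 : 0 < E := Real.exp_pos _
  have hEh : E ≤ Real.exp (-(c / 2 * |s|) - c / 2 * |s'|) := Real.exp_le_exp.2 (by
    have := mul_nonneg hc (abs_nonneg s)
    have := mul_nonneg hc (abs_nonneg s')
    linarith)
  have e1 : ∑ i : Fin (2 * N + 1), ∑ j : Fin (2 * N + 1), tn N δ i s * tn N δ j s' = tsm N δ s * tsm N δ s' := by
    unfold tsm
    rw [Finset.sum_mul_sum]
  have e3 : ∀ x : ℝ, ∑ i : Fin (2 * N + 1), ∑ j : Fin (2 * N + 1), x * (tn N δ i s * tn N δ j s') =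
      x * (tsm N δ s * tsm N δ s') := by
    intro x
    rw [← e1, Finset.mul_sum]
    refine Finset.sum_congr rfl fun i _ => ?_
    rw [Finset.mul_sum]
  have e2 : Hs N δ F s s' - F s s' = (∑ i : Fin (2 * N + 1), ∑ j : Fin (2 * N + 1),
      (F (sc N δ i) (sc N δ j) - F s s') * (tn N δ i s * tn N δ j s')) - (1 - tsm N δ s * tsm N δ s') * F s s' := by
    unfold Hs
    simp only [sub_mul (F _ _) (F s s'), Finset.sum_sub_distrib]
    rw [e3]
    ring
  have k1 : |∑ i : Fin (2 * N + 1), ∑ j : Fin (2 * N + 1),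
      (F (sc N δ i) (sc N δ j) - F s s') * (tn N δ i s * tn N δ j s')| ≤ 2 * Real.exp 2 * C * δ * E := by
    have h1 : ∀ i j : Fin (2 * N + 1), |(F (sc N δ i) (sc N δ j) - F s s') * (tn N δ i s * tn N δ j s')| ≤
        (2 * Real.exp 2 * C * δ * E) * (tn N δ i s * tn N δ j s') := by
      intro i j
      rw [abs_mul, abs_of_nonneg (mul_nonneg (tn_nonneg N δ i s) (tn_nonneg N δ j s'))]
      by_cases hz : tn N δ i s * tn N δ j s' = 0
      · rw [hz, mul_zero, mul_zero]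
      · refine mul_le_mul_of_nonneg_right ?_ (mul_nonneg (tn_nonneg N δ i s) (tn_nonneg N δ j s'))
        exact h.two h' hc hc1 hδ (tn_supp hδ0 (left_ne_zero_of_mul hz)) (tn_supp hδ0 (right_ne_zero_of_mul hz))
    refine (Finset.abs_sum_le_sum_abs _ _).trans ?_
    refine (Finset.sum_le_sum fun i _ => (Finset.abs_sum_le_sum_abs _ _).trans
      (Finset.sum_le_sum fun j _ => h1 i j)).trans ?_
    rw [e3]
    have h2 : 0 ≤ 2 * Real.exp 2 * C * δ * E := by positivity
    refine mul_le_of_le_one_right h2 ?_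
    exact mul_le_one₀ (tsm_le _ _ _) (tsm_nonneg _ _ _) (tsm_le _ _ _)
  have k2 : |(1 - tsm N δ s * tsm N δ s') * F s s'| ≤
      C * Real.exp (-(c / 2 * (N * δ))) * Real.exp (-(c / 2 * |s|) - c / 2 * |s'|) := by
    have p1 : tsm N δ s * tsm N δ s' ≤ 1 := mul_le_one₀ (tsm_le _ _ _) (tsm_nonneg _ _ _) (tsm_le _ _ _)
    have p2 : 0 ≤ tsm N δ s * tsm N δ s' := mul_nonneg (tsm_nonneg _ _ _) (tsm_nonneg _ _ _)
    by_cases hin : |s| ≤ N * δ ∧ |s'| ≤ N * δ
    · rw [tsm_one hδ0 hin.1, tsm_one hδ0 hin.2, mul_one, sub_self, zero_mul, abs_zero]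
      positivity
    · rw [abs_mul, abs_of_nonneg (by linarith)]
      have q1 : (1 - tsm N δ s * tsm N δ s') * |F s s'| ≤ 1 * (C * E) :=
        mul_le_mul (by linarith) (h.b0 s s') (abs_nonneg _) zero_le_one
      refine q1.trans ?_
      rw [one_mul, mul_assoc]
      refine mul_le_mul_of_nonneg_left ?_ hC
      rw [hE, ← Real.exp_add]
      refine Real.exp_le_exp.2 ?_
      rw [not_and_or, not_le, not_le] at hin
      have m1 := mul_nonneg hc (abs_nonneg s)
      have m2 := mul_nonneg hc (abs_nonneg s')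
      rcases hin with h3 | h3
      · have := mul_le_mul_of_nonneg_left h3.le hc
        linarith
      · have := mul_le_mul_of_nonneg_left h3.le hc
        linarith
  rw [e2]
  refine (abs_sub _ _).trans ((add_le_add k1 k2).trans ?_)
  rw [add_mul]
  have h2 : 0 ≤ 2 * Real.exp 2 * C * δ := by positivity
  have := mul_le_mul_of_nonneg_left hEh h2
  linarith

/-- the error is as small as we like -/
lemma exists_Nδ (hc : 0 < c) (C : ℝ) (hC : 0 ≤ C) {ε : ℝ} (hε : 0 < ε) : ∃ (N : ℕ) (δ : ℝ), 0 < δ ∧ δ ≤ 1 ∧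
    2 * Real.exp 2 * C * δ + C * Real.exp (-(c / 2 * (N * δ))) ≤ ε := by
  have he := Real.exp_pos 2
  set δ := min 1 (ε / (2 * (2 * Real.exp 2 * C + 1))) with hδ
  have hd : 0 < δ := lt_min one_pos (by positivity)
  have h1 : 2 * Real.exp 2 * C * δ ≤ ε / 2 := by
    have h2 : δ ≤ ε / (2 * (2 * Real.exp 2 * C + 1)) := min_le_right _ _
    have h3 : 2 * Real.exp 2 * C * δ ≤ (2 * Real.exp 2 * C + 1) * δ := by nlinarith
    refine h3.trans ?_
    have h4 : (2 * Real.exp 2 * C + 1) * δ ≤ (2 * Real.exp 2 * C + 1) * (ε / (2 * (2 * Real.exp 2 * C + 1))) :=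
      mul_le_mul_of_nonneg_left h2 (by positivity)
    refine h4.trans (le_of_eq ?_)
    field_simp
  have h5 : Tendsto (fun N : ℕ => C * Real.exp (-(c / 2 * (N * δ)))) atTop (𝓝 (C * 0)) := by
    refine Tendsto.const_mul C ?_
    refine Real.tendsto_exp_neg_atTop_nhds_zero.comp ?_
    refine Tendsto.const_mul_atTop (by positivity) ?_
    exact Tendsto.atTop_mul_const hd tendsto_natCast_atTop_atTop
  rw [mul_zero] at h5
  obtain ⟨N, hN⟩ := ((tendsto_order.1 h5).2 (ε / 2) (by positivity)).exists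
  exact ⟨N, δ, hd, min_le_left _ _, by linarith⟩

end

end PLT.StF
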