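import Pool.Agent.PLT.StForm
import Pool.Agent.PLT.StTen
import Pool.Agent.PLT.StReg
import Pool.Agent.PLT.GDat

/-!
# THETA, row B: static kernels = finite rank with form at most `θ` + small rest (helper80)

`StCl c C θ0 k`: decay of the values and of the derivatives (`PD7`), symmetry, form at most `θ0` against the energy.
**`stC_of : θ0 < θ → (∀ k ∈ K, StCl c C θ0 k) → StC K θ (c / 8)`**: the kernel is averaged over a Gaussian and sampled
on the tents of `StTen`; the form of the sampled kernel is the form of the kernel on the averaged densities.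
-/

set_option autoImplicit false

open MeasureTheory Set Filter Topology

namespace PLT.StF

noncomputable section

open NUMF NUKer NUAct NU42 PLT.KF PLT.App PLT.Gs

variable {c C d θ0 δ : ℝ} {N : ℕ} {ν ν' u u' : ℝ → ℝ} {F : ℝ → ℝ → ℝ}

lemma gd_rg (d x : ℝ) : Rg.gd d x = gd d x := rfl

/-! ### the form of the sampled kernel -/

lemma tn_int (h : Nc u) (N : ℕ) (δ : ℝ) (i : ℕ) : Integrable fun s => tn N δ i s * u s :=
  h.i.bdd_mul (c := 1) (tn_cont N δ i).aestronglyMeasurable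
    (Eventually.of_forall fun s => by rw [Real.norm_eq_abs]; exact tn_abs _ _ _ _)

lemma int_sum2 {n m : ℕ} {f : Fin n → Fin m → ℝ → ℝ} (hf : ∀ i j, Integrable (f i j)) :
    ∫ s, ∑ i, ∑ j, f i j s = ∑ i, ∑ j, ∫ s, f i j s := by
  rw [integral_finset_sum _ fun i _ => integrable_finset_sum _ fun j _ => hf i j]
  exact Finset.sum_congr rfl fun i _ => integral_finset_sum _ fun j _ => hf i j

lemma BF_Hs (h : Nc u) (h' : Nc u') (N : ℕ) (δ : ℝ) (F : ℝ → ℝ → ℝ) : BF (Hs N δ F) u u' =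
    ∑ i : Fin (2 * N + 1), ∑ j : Fin (2 * N + 1), F (sc N δ i) (sc N δ j) *
      ((∫ s, tn N δ i s * u s) * ∫ s, tn N δ j s * u' s) := by
  have e1 : ∀ t, ∫ s, u' s * Hs N δ F t s = ∑ i : Fin (2 * N + 1), ∑ j : Fin (2 * N + 1),
      F (sc N δ i) (sc N δ j) * (tn N δ i t * ∫ s, tn N δ j s * u' s) := by
    intro t
    have e2 : ∀ s, u' s * Hs N δ F t s = ∑ i : Fin (2 * N + 1), ∑ j : Fin (2 * N + 1),
        (F (sc N δ i) (sc N δ j) * tn N δ i t) * (tn N δ j s * u' s) := by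
      intro s
      unfold Hs
      rw [Finset.mul_sum]
      refine Finset.sum_congr rfl fun i _ => ?_
      rw [Finset.mul_sum]
      refine Finset.sum_congr rfl fun j _ => ?_
      ring
    rw [integral_congr_ae (Eventually.of_forall e2), int_sum2 (f := fun i j s =>
      (F (sc N δ i) (sc N δ j) * tn N δ i t) * (tn N δ j s * u' s)) fun i j => (tn_int h' N δ j).const_mul _]
    refine Finset.sum_congr rfl fun i _ => Finset.sum_congr rfl fun j _ => ?_
    rw [integral_const_mul]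
    ring
  unfold BF
  have e3 : ∀ t, u t * ∫ s, u' s * Hs N δ F t s = ∑ i : Fin (2 * N + 1), ∑ j : Fin (2 * N + 1),
      (F (sc N δ i) (sc N δ j) * ∫ s, tn N δ j s * u' s) * (tn N δ i t * u t) := by
    intro t
    rw [e1, Finset.mul_sum]
    refine Finset.sum_congr rfl fun i _ => ?_
    rw [Finset.mul_sum]
    refine Finset.sum_congr rfl fun j _ => ?_
    ring
  rw [integral_congr_ae (Eventually.of_forall e3), int_sum2 (f := fun i j s =>
    (F (sc N δ i) (sc N δ j) * ∫ s, tn N δ j s * u' s) * (tn N δ i s * u s)) fun i j => (tn_int h N δ i).const_mul _]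
  refine Finset.sum_congr rfl fun i _ => Finset.sum_congr rfl fun j _ => ?_
  rw [integral_const_mul]
  ring

/-- total mass of the weight -/
def Jc (c : ℝ) : ℝ := ∫ s, Real.exp (-(c / 2 * |s|))

lemma Jc_int (hc : 0 < c) : Integrable fun s : ℝ => Real.exp (-(c / 2 * |s|)) := by
  refine (nc_exp (M := 1) (a := c / 2) (by fun_prop) (by positivity) fun s => ?_).i
  rw [abs_of_pos (Real.exp_pos _), one_mul, neg_mul]

lemma Jc_nonneg (c : ℝ) : 0 ≤ Jc c := integral_nonneg fun s => (Real.exp_pos _).le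

/-- the forms of two kernels -/
lemma BF_diff (hc : 0 < c) {k k' : ℝ → ℝ → ℝ} (hk : Measurable fun p : ℝ × ℝ => k p.1 p.2)
    (hk' : Measurable fun p : ℝ × ℝ => k' p.1 p.2) {K ε B B' : ℝ} (hb' : ∀ t s, |k' t s| ≤ K)
    (hε : 0 ≤ ε) (hd : ∀ s s', |k s s' - k' s s'| ≤ ε * Real.exp (-(c / 2 * |s|) - c / 2 * |s'|))
    (h : Nc u) (h' : Nc u') (hB : ∀ t, |u t| ≤ B) (hB' : ∀ t, |u' t| ≤ B') :
    BF k u u' ≤ BF k' u u' + ε * (B * B') * Jc c ^ 2 := by
  have hB0 : 0 ≤ B := (abs_nonneg _).trans (hB 0)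
  have hB0' : 0 ≤ B' := (abs_nonneg _).trans (hB' 0)
  have hw : ∀ s s' : ℝ, Real.exp (-(c / 2 * |s|) - c / 2 * |s'|) =
      Real.exp (-(c / 2 * |s|)) * Real.exp (-(c / 2 * |s'|)) := fun s s' => by
    rw [← Real.exp_add]
    congr 1
  have hle1 : ∀ s s' : ℝ, Real.exp (-(c / 2 * |s|) - c / 2 * |s'|) ≤ 1 := fun s s' => Real.exp_le_one_iff.2 (by
    have := abs_nonneg s
    have := abs_nonneg s'
    have := mul_nonneg hc.le (abs_nonneg s)
    have := mul_nonneg hc.le (abs_nonneg s')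
    linarith)
  have hb : ∀ t s, |k t s| ≤ K + ε := fun t s => by
    have e : k t s = k' t s + (k t s - k' t s) := by ring
    rw [e]
    exact (abs_add_le _ _).trans (add_le_add (hb' t s) ((hd t s).trans (mul_le_of_le_one_right hε (hle1 t s))))
  have i0 : Integrable fun z : ℝ × ℝ => u z.1 * u' z.2 := h.i.mul_prod h'.i
  have i1 : Integrable fun z : ℝ × ℝ => u z.1 * u' z.2 * k z.1 z.2 := by
    have := i0.bdd_mul (c := K + ε) hk.aestronglyMeasurable
      (Eventually.of_forall fun z => by rw [Real.norm_eq_abs]; exact hb z.1 z.2)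
    exact this.congr (Eventually.of_forall fun z => mul_comm _ _)
  have i2 : Integrable fun z : ℝ × ℝ => u z.1 * u' z.2 * k' z.1 z.2 := by
    have := i0.bdd_mul (c := K) hk'.aestronglyMeasurable
      (Eventually.of_forall fun z => by rw [Real.norm_eq_abs]; exact hb' z.1 z.2)
    exact this.congr (Eventually.of_forall fun z => mul_comm _ _)
  have i3 : Integrable fun z : ℝ × ℝ => ε * (B * B') * (Real.exp (-(c / 2 * |z.1|)) * Real.exp (-(c / 2 * |z.2|))) :=
    ((Jc_int hc).mul_prod (Jc_int hc)).const_mul _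
  have e3 : ∫ z : ℝ × ℝ, ε * (B * B') * (Real.exp (-(c / 2 * |z.1|)) * Real.exp (-(c / 2 * |z.2|))) =
      ε * (B * B') * Jc c ^ 2 := by
    rw [integral_const_mul, Measure.volume_eq_prod, integral_prod_mul (fun s : ℝ => Real.exp (-(c / 2 * |s|)))
      (fun s : ℝ => Real.exp (-(c / 2 * |s|)))]
    unfold Jc
    ring
  rw [BF_eq k i1, BF_eq k' i2, ← e3, ← integral_add i2 i3]
  refine integral_mono i1 (i2.add i3) fun z => ?_
  simp only [Pi.add_apply]
  have h1 : u z.1 * u' z.2 * k z.1 z.2 - u z.1 * u' z.2 * k' z.1 z.2 ≤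
      ε * (B * B') * (Real.exp (-(c / 2 * |z.1|)) * Real.exp (-(c / 2 * |z.2|))) := by
    rw [← mul_sub]
    refine (le_abs_self _).trans ?_
    rw [abs_mul, abs_mul, ← hw]
    calc |u z.1| * |u' z.2| * |k z.1 z.2 - k' z.1 z.2| ≤
        B * B' * (ε * Real.exp (-(c / 2 * |z.1|) - c / 2 * |z.2|)) := by
          have a1 := hB z.1
          have a2 := hB' z.2
          have a3 := hd z.1 z.2
          gcongr
      _ = _ := by ring
  linarith

/-! ### sums of densities -/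

lemma Nc.sum {n : ℕ} {f : Fin n → ℝ → ℝ} (hf : ∀ i, Nc (f i)) (b : Fin n → ℝ) : Nc fun t => ∑ i, b i * f i t := by
  choose B hB using fun i => (hf i).b
  refine ⟨Finset.measurable_sum _ fun i _ => (hf i).m.const_mul _, integrable_finset_sum _ fun i _ => (hf i).i.const_mul _,
    ∑ i, |b i| * B i, fun t => (Finset.abs_sum_le_sum_abs _ _).trans (Finset.sum_le_sum fun i _ => ?_)⟩
  rw [abs_mul]
  exact mul_le_mul_of_nonneg_left (hB i t) (abs_nonneg _)

lemma VF_sum {n : ℕ} {f : Fin n → ℝ → ℝ} (hf : ∀ i, Nc (f i)) (b : Fin n → ℝ) (h : Nc ν) :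
    VF ν (fun t => ∑ i, b i * f i t) = ∑ i, b i * VF ν (f i) := by
  rw [VF_prod h (Nc.sum hf b)]
  have e : ∀ z : ℝ × ℝ, ν z.1 * (∑ i, b i * f i z.2) * V (z.1 - z.2) =
      ∑ i, b i * (ν z.1 * f i z.2 * V (z.1 - z.2)) := by
    intro z
    rw [Finset.mul_sum, Finset.sum_mul]
    refine Finset.sum_congr rfl fun i _ => ?_
    ring
  rw [integral_congr_ae (Eventually.of_forall e), integral_finset_sum _ fun i _ => (nV_int h (hf i)).const_mul _]
  refine Finset.sum_congr rfl fun i _ => ?_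
  rw [integral_const_mul, VF_prod h (hf i)]

/-! ### densities of the tents -/

/-- data of the Gaussian: its density -/
structure Ga (d : ℝ) (a : ℝ → ℝ) (M : ℝ) : Prop where
  d0 : 0 < d
  ac : Continuous a
  ab : ∀ t, |a t| ≤ M * Real.exp (-(5 / 2) * |t|)
  aV : ∀ t, ∫ u, a u * V (t - u) = Real.exp (-(t ^ 2 / (2 * d ^ 2)))

variable {a : ℝ → ℝ} {M : ℝ}

lemma Ga.nc (g : Ga d a M) : Nc a := nc_exp g.ac (by norm_num : (0 : ℝ) < 5 / 2) g.ab

/-- the density of a tent -/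
def hh (d : ℝ) (a : ℝ → ℝ) (N : ℕ) (δ : ℝ) (i : ℕ) : ℝ → ℝ := App.hd d a (tn N δ i)

lemma Ga.hh_cont (g : Ga d a M) (hδ : 0 < δ) (N i : ℕ) : Continuous (hh d a N δ i) :=
  hd_cont (tn_cont N δ i) (tn_cs hδ N i) g.ac g.ab

lemma Ga.hh_dec (g : Ga d a M) (hδ : 0 < δ) (N i : ℕ) : ∃ M' : ℝ, ∀ t, |hh d a N δ i t| ≤ M' * Real.exp (-(5 / 2) * |t|) :=
  hd_decay (tn_cont N δ i) (tn_cs hδ N i) g.ab g.d0

lemma Ga.hh_nc (g : Ga d a M) (hδ : 0 < δ) (N i : ℕ) : Nc (hh d a N δ i) := by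
  obtain ⟨M', hM'⟩ := g.hh_dec hδ N i
  exact nc_exp (g.hh_cont hδ N i) (by norm_num : (0 : ℝ) < 5 / 2) hM'

lemma Ga.hh_pot (g : Ga d a M) (hδ : 0 < δ) (N i : ℕ) : Vf (hh d a N δ i) = sm d (tn N δ i) := by
  funext t
  exact pot_hd (tn_cont N δ i) (tn_cs hδ N i) g.ac g.ab g.d0 g.aV t

/-- the density of one index -/
def hp (d : ℝ) (a : ℝ → ℝ) (N : ℕ) (δ : ℝ) (p : Fin (2 * N + 1) × Bool) (e : Bool) : ℝ → ℝ :=
  if e = p.2 then hh d a N δ p.1 else fun _ => 0

/-- the Gram matrix over the index set -/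
def Gp (d : ℝ) (a : ℝ → ℝ) (N : ℕ) (δ : ℝ) (p q : Fin (2 * N + 1) × Bool) : ℝ :=
  ∑ e, ∫ t, hp d a N δ p e t * Vf (hp d a N δ q e) t

lemma Vf_zero : Vf (fun _ => 0) = fun _ => 0 := by
  funext t
  unfold Vf
  simp

lemma Gp_eq (p q : Fin (2 * N + 1) × Bool) : Gp d a N δ p q =
    if p.2 = q.2 then VF (hh d a N δ p.1) (hh d a N δ q.1) else 0 := by
  unfold Gp
  rw [Finset.sum_eq_single p.2]
  · unfold hp
    rw [if_pos rfl]
    by_cases h : p.2 = q.2
    · rw [if_pos h, if_pos h]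
      rfl
    · rw [if_neg h, if_neg h, Vf_zero]
      simp
  · intro e _ he
    unfold hp
    rw [if_neg he]
    simp
  · intro h
    exact absurd (Finset.mem_univ _) h

/-- the density of a combination -/
def nu (d : ℝ) (a : ℝ → ℝ) (N : ℕ) (δ : ℝ) (b : Fin (2 * N + 1) × Bool → ℝ) (e : Bool) (t : ℝ) : ℝ :=
  ∑ i : Fin (2 * N + 1), b (i, e) * hh d a N δ i t

lemma Ga.nu_nc (g : Ga d a M) (hδ : 0 < δ) (N : ℕ) (b : Fin (2 * N + 1) × Bool → ℝ) (e : Bool) :
    Nc (nu d a N δ b e) := Nc.sum (f := fun i : Fin (2 * N + 1) => hh d a N δ i) (fun i => g.hh_nc hδ N i) _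

lemma Ga.Gp_row (g : Ga d a M) (hδ : 0 < δ) (N : ℕ) (b : Fin (2 * N + 1) × Bool → ℝ) (p : Fin (2 * N + 1) × Bool) :
    ∑ q, Gp d a N δ p q * b q = VF (hh d a N δ p.1) (nu d a N δ b p.2) := by
  have h1 := VF_sum (f := fun i : Fin (2 * N + 1) => hh d a N δ i) (fun i => g.hh_nc hδ N i)
    (fun i => b (i, p.2)) (g.hh_nc hδ N p.1)
  have e0 : VF (hh d a N δ p.1) (nu d a N δ b p.2) = ∑ i : Fin (2 * N + 1), b (i, p.2) *
    VF (hh d a N δ p.1) (hh d a N δ i) := h1
  rw [e0, Fintype.sum_prod_type]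
  refine Finset.sum_congr rfl fun i _ => ?_
  rw [Finset.sum_eq_single p.2]
  · rw [Gp_eq, if_pos rfl, mul_comm]
  · intro e _ he
    rw [Gp_eq, if_neg fun h => he h.symm, zero_mul]
  · intro h
    exact absurd (Finset.mem_univ _) h

lemma Ga.Gp_row' (g : Ga d a M) (hδ : 0 < δ) (N : ℕ) (b : Fin (2 * N + 1) × Bool → ℝ) (p : Fin (2 * N + 1) × Bool) :
    ∑ q, Gp d a N δ p q * b q = ∫ s, tn N δ p.1 s * cg d (nu d a N δ b p.2) s := by
  have hn := g.nu_nc hδ N b p.2
  rw [g.Gp_row hδ, VF_symm (g.hh_nc hδ N p.1) hn, int_cg g.d0 hn (tn_cont N δ p.1).measurable (tn_abs N δ p.1)]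
  have e := g.hh_pot hδ N p.1
  rw [← e]
  rfl

lemma Ga.Gp_quad (g : Ga d a M) (hδ : 0 < δ) (N : ℕ) (b : Fin (2 * N + 1) × Bool → ℝ) :
    ∑ p, ∑ q, b p * Gp d a N δ p q * b q = ∑ e, VF (nu d a N δ b e) (nu d a N δ b e) := by
  have h1 : ∀ p, ∑ q, b p * Gp d a N δ p q * b q = b p * VF (hh d a N δ p.1) (nu d a N δ b p.2) := by
    intro p
    rw [← g.Gp_row hδ, Finset.mul_sum]
    refine Finset.sum_congr rfl fun q _ => ?_
    ring
  simp only [h1]
  rw [Fintype.sum_prod_type, Finset.sum_comm]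
  refine Finset.sum_congr rfl fun e _ => ?_
  have hn := g.nu_nc hδ N b e
  have h2 := VF_sum (f := fun i : Fin (2 * N + 1) => hh d a N δ i) (fun i => g.hh_nc hδ N i) (fun i => b (i, e)) hn
  have e0 : VF (nu d a N δ b e) (nu d a N δ b e) = ∑ i : Fin (2 * N + 1), b (i, e) *
    VF (nu d a N δ b e) (hh d a N δ i) := h2
  rw [e0]
  refine Finset.sum_congr rfl fun i _ => ?_
  rw [VF_symm hn (g.hh_nc hδ N i)]

/-! ### the class of kernels -/

/-- a symmetric pair of kernels with decay, of form at most `θ0` against the energy -/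
structure StCl (c C θ0 : ℝ) (k : Bool → Bool → ℝ → ℝ → ℝ) : Prop where
  l1 : ∀ a b, Rg.PD7 c C (k a b)
  l2 : ∀ a b, Rg.PD7 c C fun t s => k a b s t
  sy : ∀ a b t s, k a b t s = k b a s t
  fm : ∀ u : Bool → ℝ → ℝ, (∀ a, Nc (u a)) → ∑ a, ∑ b, BF (k a b) (u a) (u b) ≤ θ0 * ∑ a, VF (u a) (u a)

lemma lp_of (h : Rg.PD7 c C F) : Lp c C F := by
  obtain ⟨A, h0, hd, -, hb⟩ := h.ex
  refine ⟨fun t s => ?_, A 1, fun t s => ?_, fun t s => hb 1 (by norm_num) t s⟩
  · have := hb 0 (by norm_num) t s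
    rwa [h0] at this
  · have := hd 0 (by norm_num) t s
    rwa [h0] at this

variable {k : Bool → Bool → ℝ → ℝ → ℝ}

/-- **the form of the sampled kernel** -/
theorem Ga.op (g : Ga d a M) (hδ : 0 < δ) (hc : 0 < c) (h0 : 0 ≤ θ0) (h : StCl c C θ0 k) {ε : ℝ} (hε : 0 ≤ ε)
    (hH : ∀ e e' s s', |Hs N δ (k e e') s s' - k e e' s s'| ≤ ε * Real.exp (-(c / 2 * |s|) - c / 2 * |s'|))
    (b : Fin (2 * N + 1) × Bool → ℝ) :
    ∑ p : Fin (2 * N + 1) × Bool, ∑ q : Fin (2 * N + 1) × Bool, k p.2 q.2 (sc N δ p.1) (sc N δ q.1) *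
      (∑ r, Gp d a N δ p r * b r) * (∑ r, Gp d a N δ q r * b r) ≤
      (θ0 + ε * (2 * kd d ^ 2 * VF a a * Jc c ^ 2)) * ∑ p, ∑ q, b p * Gp d a N δ p q * b q := by
  set n := nu d a N δ b with hn
  have hnc : ∀ e, Nc (n e) := fun e => g.nu_nc hδ N b e
  set U : Bool → ℝ → ℝ := fun e => cg d (n e) with hU
  have hUc : ∀ e, Nc (U e) := fun e => cg_nc g.d0 (hnc e)
  have e1 : ∑ p : Fin (2 * N + 1) × Bool, ∑ q : Fin (2 * N + 1) × Bool, k p.2 q.2 (sc N δ p.1) (sc N δ q.1) *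
      (∑ r, Gp d a N δ p r * b r) * (∑ r, Gp d a N δ q r * b r) = ∑ e, ∑ e', BF (Hs N δ (k e e')) (U e) (U e') := by
    simp only [g.Gp_row' hδ, ← hn]
    simp only [Fintype.sum_prod_type]
    rw [Finset.sum_comm]
    refine Finset.sum_congr rfl fun e _ => ?_
    have e2 : ∀ i : Fin (2 * N + 1), ∑ j : Fin (2 * N + 1), ∑ e' : Bool, k e e' (sc N δ i) (sc N δ j) *
        (∫ s, tn N δ i s * cg d (n e) s) * (∫ s, tn N δ j s * cg d (n e') s) =
        ∑ e' : Bool, ∑ j : Fin (2 * N + 1), k e e' (sc N δ i) (sc N δ j) *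
        (∫ s, tn N δ i s * cg d (n e) s) * (∫ s, tn N δ j s * cg d (n e') s) := fun i => Finset.sum_comm
    simp only [e2]
    rw [Finset.sum_comm]
    refine Finset.sum_congr rfl fun e' _ => ?_
    rw [BF_Hs (hUc e) (hUc e')]
    refine Finset.sum_congr rfl fun i _ => Finset.sum_congr rfl fun j _ => ?_
    simp only [hU]
    ring
  set v : Bool → ℝ := fun e => √(VF (n e) (n e)) with hv
  have hv2 : ∀ e, v e ^ 2 = VF (n e) (n e) := fun e => Real.sq_sqrt (VF_nonneg (hnc e))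
  have hv0 : ∀ e, 0 ≤ v e := fun e => Real.sqrt_nonneg _
  set w := kd d * √(VF a a) with hw
  have hw0 : 0 ≤ w := mul_nonneg (kd_pos g.d0).le (Real.sqrt_nonneg _)
  have hw2 : w ^ 2 = kd d ^ 2 * VF a a := by
    rw [hw, mul_pow, Real.sq_sqrt (VF_nonneg g.nc)]
  have e3 : ∀ e e', BF (Hs N δ (k e e')) (U e) (U e') ≤ BF (k e e') (U e) (U e') +
      ε * ((w * v e) * (w * v e')) * Jc c ^ 2 := by
    intro e e'
    have hL := lp_of (h.l1 e e')
    have hL' := lp_of (h.l2 e e')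
    have kc := hL.cont hL' hc.le
    have hm : Measurable fun p : ℝ × ℝ => Hs N δ (k e e') p.1 p.2 := by
      unfold Hs
      refine Finset.measurable_sum _ fun i _ => Finset.measurable_sum _ fun j _ => ?_
      exact (((tn_cont N δ i).measurable.comp measurable_fst).mul
        ((tn_cont N δ j).measurable.comp measurable_snd)).const_mul _
    refine BF_diff hc hm kc.measurable (K := C) (fun t s => ?_) hε (hH e e') (hUc e) (hUc e') (fun t => ?_) fun t => ?_
    · refine (hL.b0 t s).trans (mul_le_of_le_one_right hL.C0 (Real.exp_le_one_iff.2 ?_))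
      have := mul_nonneg hc.le (abs_nonneg t)
      have := mul_nonneg hc.le (abs_nonneg s)
      linarith
    · refine (abs_cg_le g.d0 (hnc e) g.nc g.aV t).trans (le_of_eq ?_)
      rw [hw]
      ring
    · refine (abs_cg_le g.d0 (hnc e') g.nc g.aV t).trans (le_of_eq ?_)
      rw [hw]
      ring
  have e4 := h.fm U hUc
  have e5 : ∑ e, VF (U e) (U e) ≤ ∑ e, VF (n e) (n e) := Finset.sum_le_sum fun e _ => VF_cg_le g.d0 (hnc e)
  have e6 : ∑ e, ∑ e', ε * ((w * v e) * (w * v e')) * Jc c ^ 2 ≤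
      ε * (2 * kd d ^ 2 * VF a a * Jc c ^ 2) * ∑ e, VF (n e) (n e) := by
    have h1 : ∑ e, ∑ e', ε * ((w * v e) * (w * v e')) * Jc c ^ 2 =
        ε * w ^ 2 * Jc c ^ 2 * (v true + v false) ^ 2 := by
      simp only [Fintype.sum_bool]
      ring
    have h2 : (v true + v false) ^ 2 ≤ 2 * ∑ e, VF (n e) (n e) := by
      rw [Fintype.sum_bool, ← hv2, ← hv2]
      nlinarith [sq_nonneg (v true - v false)]
    have h3 : 0 ≤ ε * w ^ 2 * Jc c ^ 2 := by positivity
    rw [h1, hw2] at *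
    refine (mul_le_mul_of_nonneg_left h2 h3).trans (le_of_eq ?_)
    ring
  rw [e1, g.Gp_quad hδ, ← hn, add_mul]
  calc ∑ e, ∑ e', BF (Hs N δ (k e e')) (U e) (U e') ≤
      ∑ e, ∑ e', (BF (k e e') (U e) (U e') + ε * ((w * v e) * (w * v e')) * Jc c ^ 2) :=
        Finset.sum_le_sum fun e _ => Finset.sum_le_sum fun e' _ => e3 e e'
    _ = ∑ e, ∑ e', BF (k e e') (U e) (U e') + ∑ e, ∑ e', ε * ((w * v e) * (w * v e')) * Jc c ^ 2 := by
        simp only [Finset.sum_add_distrib]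
    _ ≤ θ0 * ∑ e, VF (U e) (U e) + ε * (2 * kd d ^ 2 * VF a a * Jc c ^ 2) * ∑ e, VF (n e) (n e) := add_le_add e4 e6
    _ ≤ _ := by
        have := mul_le_mul_of_nonneg_left e5 h0
        linarith

/-! ### the rest -/

lemma gd_nc (hd : 0 < d) (t : ℝ) : Nc fun s => gd d (t - s) := by
  refine ⟨((gd_cont d).comp (continuous_const.sub continuous_id)).measurable, (gd_int hd).1.comp_sub_left t, kd d,
    fun s => ?_⟩
  rw [abs_of_nonneg (gd_nonneg hd _)]
  exact gd_le hd _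

/-- the average of the sampled kernel -/
lemma av_Hs (hd : 0 < d) (N : ℕ) (δ : ℝ) (F : ℝ → ℝ → ℝ) (t t' : ℝ) :
    ∫ s, gd d (t - s) * ∫ s', gd d (t' - s') * Hs N δ F s s' =
    ∑ i : Fin (2 * N + 1), ∑ j : Fin (2 * N + 1), F (sc N δ i) (sc N δ j) * (sm d (tn N δ i) t * sm d (tn N δ j) t') := by
  have h := BF_Hs (gd_nc hd t) (gd_nc hd t') N δ F
  unfold BF at h
  rw [h]
  refine Finset.sum_congr rfl fun i _ => Finset.sum_congr rfl fun j _ => ?_
  rw [sm_eq hd, sm_eq hd]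
  congr 2
  · exact integral_congr_ae (Eventually.of_forall fun s => mul_comm _ _)
  · exact integral_congr_ae (Eventually.of_forall fun s => mul_comm _ _)

/-- the rest -/
def kt (c d : ℝ) (N : ℕ) (δ : ℝ) (k : Bool → Bool → ℝ → ℝ → ℝ) (e e' : Bool) (t t' : ℝ) : ℝ :=
  Real.cosh (c / 8 * t) * Real.cosh (c / 8 * t') *
    (k e e' t t' - ∫ s, gd d (t - s) * ∫ s', gd d (t' - s') * Hs N δ (k e e') s s')

lemma sm_cont (hd : 0 < d) (N : ℕ) (δ : ℝ) (i : ℕ) : Continuous (sm d (tn N δ i)) := by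
  unfold sm
  refine continuous_of_dominated (bound := g1) (fun t => ?_) (fun t => Eventually.of_forall fun y => ?_) g1_int.1
    (Eventually.of_forall fun y => ?_)
  · have h1 := g1_cont
    have h2 := tn_cont N δ i
    exact Continuous.aestronglyMeasurable (by fun_prop)
  · rw [norm_mul, Real.norm_eq_abs, Real.norm_eq_abs, abs_of_nonneg (g1_nonneg y)]
    exact mul_le_of_le_one_right (g1_nonneg y) (tn_abs _ _ _ _)
  · have h2 := tn_cont N δ i
    fun_prop

lemma Ga.sum_hp (g : Ga d a M) (hδ : 0 < δ) (N : ℕ) (f : Fin (2 * N + 1) × Bool → ℝ) (x : Bool) (t : ℝ) :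
    ∑ p, f p * Vf (hp d a N δ p x) t = ∑ i : Fin (2 * N + 1), f (i, x) * sm d (tn N δ i) t := by
  rw [Fintype.sum_prod_type]
  refine Finset.sum_congr rfl fun i _ => ?_
  rw [Finset.sum_eq_single x]
  · unfold hp
    rw [if_pos rfl, g.hh_pot hδ]
  · intro e _ he
    unfold hp
    rw [if_neg fun h => he h.symm, Vf_zero, mul_zero]
  · intro h
    exact absurd (Finset.mem_univ _) h

lemma kt_symm (hd : 0 < d) (h : StCl c C θ0 k) (N : ℕ) (δ : ℝ) (x y : Bool) (t t' : ℝ) :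
    kt c d N δ k x y t t' = kt c d N δ k y x t' t := by
  unfold kt
  rw [av_Hs hd, av_Hs hd, h.sy x y t t', mul_comm (Real.cosh (c / 8 * t)), Finset.sum_comm]
  congr 2
  refine Finset.sum_congr rfl fun i _ => Finset.sum_congr rfl fun j _ => ?_
  rw [h.sy x y]
  ring

lemma kt_cont (hd : 0 < d) (hc : 0 ≤ c) (h : StCl c C θ0 k) (N : ℕ) (δ : ℝ) (x y : Bool) :
    Continuous fun p : ℝ × ℝ => kt c d N δ k x y p.1 p.2 := by
  have h1 := (lp_of (h.l1 x y)).cont (lp_of (h.l2 x y)) hc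
  have h2 : Continuous fun p : ℝ × ℝ => Real.cosh (c / 8 * p.1) * Real.cosh (c / 8 * p.2) :=
    (Real.continuous_cosh.comp (continuous_const.mul continuous_fst)).mul
      (Real.continuous_cosh.comp (continuous_const.mul continuous_snd))
  unfold kt
  refine h2.mul (h1.sub ?_)
  simp only [av_Hs hd]
  refine continuous_finset_sum _ fun i _ => continuous_finset_sum _ fun j _ => ?_
  exact (((sm_cont hd N δ i).comp continuous_fst).mul ((sm_cont hd N δ j).comp continuous_snd)).const_smul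
    (k x y (sc N δ i) (sc N δ j))

/-- **finite rank and small rest** -/
theorem stC_of {K : Set (Bool → Bool → ℝ → ℝ → ℝ)} {θ : ℝ} (hc : 0 < c) (hc1 : c ≤ 1) (h0 : 0 ≤ θ0) (hθ : θ0 < θ)
    (hK : ∀ k ∈ K, StCl c C θ0 k) : StC K θ (c / 8) := by
  intro Λ hΛ
  obtain ⟨d, ε0, hd0, -, hε0, hR⟩ := Rg.rest_KC hc hc1 C Λ hΛ
  obtain ⟨a, M, ac, -, ab, aV⟩ := Tri.exists_vinv hd0
  have g : Ga d a M := ⟨hd0, ac, ab, aV⟩
  have hVa : 0 ≤ VF a a := VF_nonneg g.nc
  set Q := 2 * kd d ^ 2 * VF a a * Jc c ^ 2 with hQ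
  have hQ0 : 0 ≤ Q := by
    have := kd_pos hd0
    positivity
  set ε := min ε0 ((θ - θ0) / (Q + 1)) with hε
  have hε' : 0 < ε := lt_min hε0 (div_pos (by linarith) (by positivity))
  have hεQ : ε * Q ≤ θ - θ0 := by
    have h1 : ε ≤ (θ - θ0) / (Q + 1) := min_le_right _ _
    have h2 : ε * (Q + 1) ≤ θ - θ0 := (le_div_iff₀ (by positivity)).1 h1
    nlinarith
  obtain ⟨N, δ, hδ0, hδ1, hNδ⟩ := exists_Nδ hc |C| (abs_nonneg C) hε'
  -- the index set
  have card : Fintype.card (Fin (2 * N + 1) × Bool) = (2 * N + 1) * 2 := by simp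
  let e : Fin ((2 * N + 1) * 2) ≃ Fin (2 * N + 1) × Bool := (Fintype.equivFinOfCardEq card).symm
  choose Mh hMh using fun i : Fin (2 * N + 1) => g.hh_dec hδ0 N i
  refine ⟨(2 * N + 1) * 2, |C| + ∑ i, |Mh i|, fun k hk => ?_⟩
  have hk' := hK k hk
  have hS : 0 ≤ ∑ i, |Mh i| := Finset.sum_nonneg fun i _ => abs_nonneg _
  have hL : ∀ x y, Lp c C (k x y) := fun x y => lp_of (hk'.l1 x y)
  have hL' : ∀ x y, Lp c C fun t s => k x y s t := fun x y => lp_of (hk'.l2 x y)
  have hC : 0 ≤ C := (hL true true).C0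
  rw [abs_of_nonneg hC] at hNδ
  have hH : ∀ x y s s', |Hs N δ (k x y) s s' - k x y s s'| ≤ ε * Real.exp (-(c / 2 * |s|) - c / 2 * |s'|) := by
    intro x y s s'
    refine (Hs_sub (hL x y) (hL' x y) hc.le hc1 hδ0 hδ1 N s s').trans ?_
    exact mul_le_mul_of_nonneg_right hNδ (Real.exp_pos _).le
  refine ⟨fun i x => hp d a N δ (e i) x, fun i j => k (e i).2 (e j).2 (sc N δ (e i).1) (sc N δ (e j).1),
    kt c d N δ k, ?_⟩
  refine ⟨fun i x => ?_, fun i x t => ?_, fun i j => ?_, fun i j => hk'.sy _ _ _ _, fun b => ?_, fun x y t t' => ?_,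
    fun R x y => ?_, kt_symm hd0 hk' N δ, kt_cont hd0 hc.le hk' N δ⟩
  · unfold hp
    split_ifs
    · exact g.hh_cont hδ0 N _
    · exact continuous_const
  · have hM : |Mh (e i).1| ≤ |C| + ∑ i, |Mh i| := by
      have := Finset.single_le_sum (f := fun i => |Mh i|) (fun i _ => abs_nonneg _) (Finset.mem_univ (e i).1)
      linarith [abs_nonneg C]
    unfold hp
    split_ifs
    · refine (hMh (e i).1 t).trans ?_
      refine mul_le_mul ((le_abs_self _).trans hM) (Real.exp_le_exp.2 ?_) (Real.exp_pos _).le (by positivity)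
      linarith [abs_nonneg t]
    · rw [abs_zero]
      positivity
  · refine ((hL _ _).b0 _ _).trans ?_
    have h1 : Real.exp (-(c * |sc N δ (e i).1|) - c * |sc N δ (e j).1|) ≤ 1 := Real.exp_le_one_iff.2 (by
      have := mul_nonneg hc.le (abs_nonneg (sc N δ (e i).1))
      have := mul_nonneg hc.le (abs_nonneg (sc N δ (e j).1))
      linarith)
    refine (mul_le_of_le_one_right hC h1).trans ?_
    linarith [le_abs_self C]
  · -- the form
    set b' : Fin (2 * N + 1) × Bool → ℝ := fun p => b (e.symm p) with hb'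
    have bb : ∀ i, b i = b' (e i) := fun i => by rw [hb']; simp
    have eG : ∀ i j, Gm (fun i x => hp d a N δ (e i) x) i j = Gp d a N δ (e i) (e j) := fun i j => rfl
    have sr : ∀ i, ∑ r, Gm (fun i x => hp d a N δ (e i) x) i r * b r = ∑ q, Gp d a N δ (e i) q * b' q := by
      intro i
      simp only [eG, bb]
      exact Equiv.sum_comp e fun q => Gp d a N δ (e i) q * b' q
    have main := g.op (N := N) hδ0 hc h0 hk' hε'.le hH b'
    have s1 : ∑ i, ∑ j, k (e i).2 (e j).2 (sc N δ (e i).1) (sc N δ (e j).1) *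
        (∑ r, Gm (fun i x => hp d a N δ (e i) x) i r * b r) * (∑ r, Gm (fun i x => hp d a N δ (e i) x) j r * b r) =
        ∑ p : Fin (2 * N + 1) × Bool, ∑ q : Fin (2 * N + 1) × Bool, k p.2 q.2 (sc N δ p.1) (sc N δ q.1) *
        (∑ r, Gp d a N δ p r * b' r) * (∑ r, Gp d a N δ q r * b' r) := by
      simp only [sr]
      rw [← Equiv.sum_comp e]
      refine Finset.sum_congr rfl fun i _ => ?_
      exact Equiv.sum_comp e fun q => k (e i).2 q.2 (sc N δ (e i).1) (sc N δ q.1) *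
        (∑ r, Gp d a N δ (e i) r * b' r) * (∑ r, Gp d a N δ q r * b' r)
    have s2 : ∑ i, ∑ j, b i * Gm (fun i x => hp d a N δ (e i) x) i j * b j =
        ∑ p, ∑ q, b' p * Gp d a N δ p q * b' q := by
      simp only [eG, bb]
      rw [← Equiv.sum_comp e]
      refine Finset.sum_congr rfl fun i _ => ?_
      exact Equiv.sum_comp e fun q => b' (e i) * Gp d a N δ (e i) q * b' q
    rw [s1, s2]
    refine main.trans (mul_le_mul_of_nonneg_right ?_ ?_)
    · linarith
    · rw [g.Gp_quad hδ0]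
      exact Finset.sum_nonneg fun x _ => VF_nonneg (g.nu_nc hδ0 N b' x)
  · -- the identity
    have s1 : ∑ i, ∑ j, k (e i).2 (e j).2 (sc N δ (e i).1) (sc N δ (e j).1) *
        fi (fun i x => hp d a N δ (e i) x) i x t * fi (fun i x => hp d a N δ (e i) x) j y t' =
        ∑ i : Fin (2 * N + 1), ∑ j : Fin (2 * N + 1), k x y (sc N δ i) (sc N δ j) *
          (sm d (tn N δ i) t * sm d (tn N δ j) t') := by
      have h1 : ∀ i, ∑ j, k (e i).2 (e j).2 (sc N δ (e i).1) (sc N δ (e j).1) *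
          fi (fun i x => hp d a N δ (e i) x) i x t * fi (fun i x => hp d a N δ (e i) x) j y t' =
          (∑ j : Fin (2 * N + 1), k (e i).2 y (sc N δ (e i).1) (sc N δ j) * sm d (tn N δ j) t') *
            Vf (hp d a N δ (e i) x) t := by
        intro i
        rw [← g.sum_hp hδ0 N (fun q => k (e i).2 q.2 (sc N δ (e i).1) (sc N δ q.1)) y t', ← Equiv.sum_comp e,
          Finset.sum_mul]
        refine Finset.sum_congr rfl fun j _ => ?_
        unfold fi
        ring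
      simp only [h1]
      rw [Equiv.sum_comp e fun p => (∑ j : Fin (2 * N + 1), k p.2 y (sc N δ p.1) (sc N δ j) * sm d (tn N δ j) t') *
            Vf (hp d a N δ p x) t, g.sum_hp hδ0 N _ x t]
      refine Finset.sum_congr rfl fun i _ => ?_
      rw [Finset.sum_mul]
      refine Finset.sum_congr rfl fun j _ => ?_
      ring
    have hc1 := (Real.cosh_pos (c / 8 * t)).ne'
    have hc2 := (Real.cosh_pos (c / 8 * t')).ne'
    rw [s1, ← av_Hs hd0]
    unfold kt wc
    field_simp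
    ring
  · refine (hR (k x y) (Hs N δ (k x y)) (hk'.l1 x y) (hk'.l2 x y) ?_ fun s s' => ?_).1 R
    · unfold Hs
      refine Finset.measurable_sum _ fun i _ => Finset.measurable_sum _ fun j _ => ?_
      exact (((tn_cont N δ i).measurable.comp measurable_fst).mul
        ((tn_cont N δ j).measurable.comp measurable_snd)).const_mul _
    · exact (hH x y s s').trans (mul_le_mul_of_nonneg_right (min_le_left _ _) (Real.exp_pos _).le)

end

end PLT.StF
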