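import Pool.Agent.PLT.KerB
import Pool.Agent.PLT.StApp

/-!
# THETA, row B: the form of a Gaussian average (helper80)

* `gd d`: the normalized Gaussian, `sm_eq : sm d β t = ∫ s, gd d (t - s) * β s`;
* `cs_VF`: Cauchy-Schwarz for the energy; `cg d ν`: the average of a density, **`VF_cg_le : VF (cg ν) (cg ν) ≤ VF ν ν`**,
  **`abs_cg_le`**: `|cg ν s| ≤ κ √(VF a a) √(VF ν ν)` for the density `a` of the Gaussian;
* `int_cg : ∫ β * cg ν = ∫ ν * sm β`.
-/

set_option autoImplicit false

open MeasureTheory Set Filter Topology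

namespace PLT.StF

noncomputable section

open NUMF NUKer NUAct NU42 PLT.KF PLT.App

/-! ### the Gaussian -/

/-- the normalized Gaussian of width `d` -/
def gd (d x : ℝ) : ℝ := Real.exp (-(x ^ 2 / (2 * d ^ 2))) / (d * √(2 * Real.pi))

/-- the maximum of the Gaussian -/
def kd (d : ℝ) : ℝ := 1 / (d * √(2 * Real.pi))

variable {d : ℝ}

lemma s2_pos : 0 < √(2 * Real.pi) := Real.sqrt_pos.2 (by have := Real.pi_pos; positivity)

lemma kd_pos (hd : 0 < d) : 0 < kd d := by
  have := s2_pos
  unfold kd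
  positivity

lemma gd_eq_kd (d x : ℝ) : gd d x = kd d * Real.exp (-(x ^ 2 / (2 * d ^ 2))) := by
  unfold gd kd
  ring

lemma gd_nonneg (hd : 0 < d) (x : ℝ) : 0 ≤ gd d x := by
  rw [gd_eq_kd]
  exact mul_nonneg (kd_pos hd).le (Real.exp_pos _).le

lemma gd_le (hd : 0 < d) (x : ℝ) : gd d x ≤ kd d := by
  rw [gd_eq_kd]
  refine mul_le_of_le_one_right (kd_pos hd).le (Real.exp_le_one_iff.2 ?_)
  have : 0 ≤ x ^ 2 / (2 * d ^ 2) := by positivity
  linarith

lemma gd_cont (d : ℝ) : Continuous (gd d) := by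
  unfold gd
  fun_prop

lemma gd_even (d x : ℝ) : gd d (-x) = gd d x := by
  unfold gd
  rw [neg_sq]

lemma gd_g1 (hd : 0 < d) (x : ℝ) : gd d x = d⁻¹ * g1 (x / d) := by
  unfold gd g1
  have h1 := hd.ne'
  have h2 := s2_pos.ne'
  rw [show x ^ 2 / (2 * d ^ 2) = (x / d) ^ 2 / 2 by field_simp]
  field_simp

lemma gd_int (hd : 0 < d) : Integrable (gd d) ∧ ∫ x, gd d x = 1 := by
  have e : gd d = fun x => d⁻¹ * g1 (x / d) := funext (gd_g1 hd)
  constructor
  · rw [e]
    exact (g1_int.1.comp_div hd.ne').const_mul _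
  · rw [e]
    simp only
    rw [integral_const_mul, Measure.integral_comp_div, g1_int.2, smul_eq_mul, abs_of_pos hd, mul_one, inv_mul_cancel₀ hd.ne']

/-- the Gaussian average is the convolution -/
lemma sm_eq (hd : 0 < d) (β : ℝ → ℝ) (t : ℝ) : sm d β t = ∫ s, gd d (t - s) * β s := by
  have e1 : ∫ s, gd d (t - s) * β s = ∫ s, gd d s * β (t - s) := by
    rw [← integral_sub_left_eq_self (fun s => gd d s * β (t - s)) volume t]
    simp only [sub_sub_cancel]
  have e2 : ∀ s, gd d s * β (t - s) = d⁻¹ * ((fun y => g1 y * β (t - d * y)) (s / d)) := by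
    intro s
    simp only
    rw [gd_g1 hd, mul_div_cancel₀ _ hd.ne']
    ring
  have e3 := Measure.integral_comp_div (fun y => g1 y * β (t - d * y)) d
  rw [e1, integral_congr_ae (Eventually.of_forall e2), integral_const_mul, e3, smul_eq_mul, abs_of_pos hd, ← mul_assoc,
    inv_mul_cancel₀ hd.ne', one_mul]
  rfl

/-! ### the energy as a bilinear form -/

variable {ν ν' : ℝ → ℝ}

lemma VF_prod (h : Nc ν) (h' : Nc ν') : VF ν ν' = ∫ z : ℝ × ℝ, ν z.1 * ν' z.2 * V (z.1 - z.2) :=
  BF_eq (fun t s => V (t - s)) (nV_int h h')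

lemma VF_symm (h : Nc ν) (h' : Nc ν') : VF ν ν' = VF ν' ν := by
  rw [VF_prod h h', VF_prod h' h, Measure.volume_eq_prod, ← integral_prod_swap]
  refine integral_congr_ae (Eventually.of_forall fun z => ?_)
  simp only [Prod.fst_swap, Prod.snd_swap]
  rw [← neg_sub z.1 z.2, V_even]
  ring

lemma Nc.smul (h : Nc ν) (x : ℝ) : Nc fun t => x * ν t := by
  obtain ⟨B, hB⟩ := h.b
  refine ⟨h.m.const_mul x, h.i.const_mul x, |x| * B, fun t => ?_⟩
  rw [abs_mul]
  exact mul_le_mul_of_nonneg_left (hB t) (abs_nonneg _)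

lemma VF_lin (h : Nc ν) (h' : Nc ν') (x : ℝ) :
    VF (fun t => ν t + x * ν' t) (fun t => ν t + x * ν' t) = VF ν ν + 2 * x * VF ν ν' + x ^ 2 * VF ν' ν' := by
  have a1 := nV_int h h
  have a2 := (nV_int h h').const_mul x
  have a3 := (nV_int h' h).const_mul x
  have a4 := (nV_int h' h').const_mul (x ^ 2)
  have a12 := a1.add a2
  have a123 := a12.add a3
  have hx := KF.Nc.add h (Nc.smul h' x)
  have e : 2 * x * VF ν ν' = x * VF ν ν' + x * VF ν' ν := by
    rw [VF_symm h' h]
    ring
  rw [e, VF_prod hx hx, VF_prod h h, VF_prod h h', VF_prod h' h, VF_prod h' h', ← integral_const_mul x,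
    ← integral_const_mul x, ← integral_const_mul (x ^ 2), ← add_assoc, ← integral_add a1 a2]
  have e2 := integral_add a12 a3
  have e3 := integral_add a123 a4
  simp only [Pi.add_apply] at e2 e3
  rw [← e2, ← e3]
  refine integral_congr_ae (Eventually.of_forall fun z => ?_)
  simp only
  ring

/-- Cauchy-Schwarz -/
theorem cs_VF (h : Nc ν) (h' : Nc ν') : |VF ν ν'| ≤ √(VF ν ν) * √(VF ν' ν') := by
  have hd : discrim (VF ν' ν') (2 * VF ν ν') (VF ν ν) ≤ 0 := by
    refine discrim_le_zero fun x => ?_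
    have h1 := VF_nonneg (KF.Nc.add h (Nc.smul h' x))
    rw [VF_lin h h'] at h1
    linarith
  unfold discrim at hd
  rw [← Real.sqrt_mul (VF_nonneg h)]
  refine Real.abs_le_sqrt ?_
  linarith

/-- arithmetic mean -/
lemma am_VF (h : Nc ν) (h' : Nc ν') : 2 * VF ν ν' ≤ VF ν ν + VF ν' ν' := by
  have h1 := VF_nonneg (KF.Nc.add h (Nc.smul h' (-1)))
  rw [VF_lin h h'] at h1
  linarith

/-! ### translation -/

lemma Nc.shift (h : Nc ν) (s : ℝ) : Nc fun t => ν (t - s) := by
  obtain ⟨B, hB⟩ := h.b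
  exact ⟨h.m.comp (measurable_id.sub_const s), h.i.comp_sub_right s, B, fun t => hB _⟩

lemma VF_shift (ν ν' : ℝ → ℝ) (s : ℝ) : VF (fun t => ν (t - s)) (fun t => ν' (t - s)) = VF ν ν' := by
  unfold VF
  have e : ∀ t, ∫ u, ν' (u - s) * V (t - u) = ∫ u, ν' u * V ((t - s) - u) := by
    intro t
    rw [← integral_sub_right_eq_self (fun u => ν' u * V ((t - s) - u)) s]
    refine integral_congr_ae (Eventually.of_forall fun u => ?_)
    simp only
    rw [sub_sub_sub_cancel_right]
  simp only [e]
  exact integral_sub_right_eq_self (fun t => ν t * ∫ u, ν' u * V (t - u)) s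

/-! ### the average of a density -/

/-- the average of a density -/
def cg (d : ℝ) (ν : ℝ → ℝ) (t : ℝ) : ℝ := ∫ s, gd d (t - s) * ν s

lemma cg_eq (d : ℝ) (ν : ℝ → ℝ) (t : ℝ) : cg d ν t = ∫ s, gd d s * ν (t - s) := by
  unfold cg
  rw [← integral_sub_left_eq_self (fun s => gd d s * ν (t - s)) volume t]
  simp only [sub_sub_cancel]

lemma cg_prod (hd : 0 < d) (h : Nc ν) : Integrable fun z : ℝ × ℝ => gd d (z.1 - z.2) * ν z.2 := by
  have h1 : Integrable (fun z : ℝ × ℝ => ν z.2 * gd d (z.1 - z.2)) :=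
    h.i.convolution_integrand (ContinuousLinearMap.mul ℝ ℝ) (gd_int hd).1
  exact h1.congr (Eventually.of_forall fun z => mul_comm _ _)

lemma cg_nc (hd : 0 < d) (h : Nc ν) : Nc (cg d ν) := by
  refine ⟨?_, (cg_prod hd h).integral_prod_left, kd d * ∫ s, |ν s|, fun t => ?_⟩
  · have hm : Measurable (Function.uncurry fun t s => gd d (t - s) * ν s) :=
      ((gd_cont d).measurable.comp (measurable_fst.sub measurable_snd)).mul (h.m.comp measurable_snd)
    exact (hm.stronglyMeasurable.integral_prod_right').measurable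
  · rw [← integral_const_mul]
    unfold cg
    refine (abs_integral_le_integral_abs).trans (integral_mono_of_nonneg (Eventually.of_forall fun s => abs_nonneg _)
      (h.i.abs.const_mul _) (Eventually.of_forall fun s => ?_))
    simp only
    rw [abs_mul, abs_of_nonneg (gd_nonneg hd _)]
    exact mul_le_mul_of_nonneg_right (gd_le hd _) (abs_nonneg _)

/-- the field of a bounded density is bounded and measurable -/
lemma field_bd (h : Nc ν) : Measurable (fun t => ∫ u, ν u * V (t - u)) ∧ ∃ B, ∀ t, |∫ u, ν u * V (t - u)| ≤ B := by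
  obtain ⟨B, hB⟩ := h.b
  constructor
  · have hm : Measurable (Function.uncurry fun t u => ν u * V (t - u)) :=
      (h.m.comp measurable_snd).mul (V_measurable.comp (measurable_fst.sub measurable_snd))
    exact (hm.stronglyMeasurable.integral_prod_right').measurable
  · refine ⟨B * ∫ u, |V u|, fun t => ?_⟩
    have h2 : ∫ u, |V u| = ∫ u, |V (t - u)| := (integral_sub_left_eq_self (fun u => |V u|) volume t).symm
    rw [h2, ← integral_const_mul]
    refine (abs_integral_le_integral_abs).trans (integral_mono_of_nonneg (Eventually.of_forall fun s => abs_nonneg _)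
      ((V_integral.1.comp_sub_left t).abs.const_mul _) (Eventually.of_forall fun s => ?_))
    simp only
    rw [abs_mul]
    exact mul_le_mul_of_nonneg_right (hB s) (abs_nonneg _)

/-- the energy of an average against a density -/
lemma VF_cg (hd : 0 < d) (h : Nc ν) (h' : Nc ν') :
    (Integrable fun s => gd d s * VF (fun t => ν (t - s)) ν') ∧
      VF (cg d ν) ν' = ∫ s, gd d s * VF (fun t => ν (t - s)) ν' := by
  obtain ⟨wm, B, hB⟩ := field_bd h'
  set W : ℝ → ℝ := fun t => ∫ u, ν' u * V (t - u) with hW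
  have h1 : Integrable (fun z : ℝ × ℝ => gd d z.2 * ν (z.1 - z.2)) :=
    (gd_int hd).1.convolution_integrand (ContinuousLinearMap.mul ℝ ℝ) h.i
  have h2 : Integrable (fun z : ℝ × ℝ => W z.1 * (gd d z.2 * ν (z.1 - z.2))) :=
    h1.bdd_mul (c := B) (wm.comp measurable_fst).aestronglyMeasurable
      (Eventually.of_forall fun z => by rw [Real.norm_eq_abs]; exact hB _)
  have h3 := h2.integral_prod_right
  have e3 : ∀ s, ∫ t, W t * (gd d s * ν (t - s)) = gd d s * VF (fun t => ν (t - s)) ν' := by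
    intro s
    unfold VF
    rw [← integral_const_mul]
    refine integral_congr_ae (Eventually.of_forall fun t => ?_)
    simp only [hW]
    ring
  simp only [e3] at h3
  refine ⟨h3, ?_⟩
  have h4 := integral_integral_swap (μ := (volume : Measure ℝ)) (ν := (volume : Measure ℝ))
    (f := fun t s => W t * (gd d s * ν (t - s))) h2
  simp only [e3] at h4
  rw [← h4]
  unfold VF
  refine integral_congr_ae (Eventually.of_forall fun t => ?_)
  simp only
  rw [integral_const_mul, ← cg_eq, mul_comm]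

/-- **the energy of an average** -/
theorem VF_cg_le (hd : 0 < d) (h : Nc ν) : VF (cg d ν) (cg d ν) ≤ VF ν ν := by
  have hc := cg_nc hd h
  obtain ⟨i1, e1⟩ := VF_cg hd h hc
  have i2 : Integrable fun s => gd d s * ((VF ν ν + VF (cg d ν) (cg d ν)) / 2) := (gd_int hd).1.mul_const _
  have h2 : ∫ s, gd d s * VF (fun t => ν (t - s)) (cg d ν) ≤ ∫ s, gd d s * ((VF ν ν + VF (cg d ν) (cg d ν)) / 2) := by
    refine integral_mono i1 i2 fun s => ?_
    simp only
    refine mul_le_mul_of_nonneg_left ?_ (gd_nonneg hd _)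
    have h3 := am_VF (Nc.shift h s) hc
    rw [VF_shift] at h3
    linarith
  rw [← e1, integral_mul_const, (gd_int hd).2, one_mul] at h2
  linarith

/-- **the average is bounded by the energy** -/
theorem abs_cg_le (hd : 0 < d) (h : Nc ν) {a : ℝ → ℝ} (ha : Nc a)
    (hV : ∀ t, ∫ u, a u * V (t - u) = Real.exp (-(t ^ 2 / (2 * d ^ 2)))) (s : ℝ) :
    |cg d ν s| ≤ kd d * (√(VF ν ν) * √(VF a a)) := by
  have e : cg d ν s = kd d * VF ν (fun t => a (t - s)) := by
    unfold cg VF
    rw [← integral_const_mul]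
    refine integral_congr_ae (Eventually.of_forall fun t => ?_)
    simp only
    have e1 : ∫ u, a (u - s) * V (t - u) = ∫ u, a u * V ((t - s) - u) := by
      rw [← integral_sub_right_eq_self (fun u => a u * V ((t - s) - u)) s]
      refine integral_congr_ae (Eventually.of_forall fun u => ?_)
      simp only
      rw [sub_sub_sub_cancel_right]
    rw [e1, hV, ← neg_sub s t, gd_eq_kd]
    rw [neg_sq]
    ring
  rw [e, abs_mul, abs_of_pos (kd_pos hd)]
  refine mul_le_mul_of_nonneg_left ?_ (kd_pos hd).le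
  have h1 := cs_VF h (Nc.shift ha s)
  rwa [VF_shift] at h1

/-- moving the average to the other factor -/
lemma int_cg (hd : 0 < d) (h : Nc ν) {β : ℝ → ℝ} (hβ : Measurable β) {B : ℝ} (hB : ∀ t, |β t| ≤ B) :
    ∫ s, β s * cg d ν s = ∫ v, ν v * sm d β v := by
  have h2 : Integrable (fun z : ℝ × ℝ => β z.1 * (gd d (z.1 - z.2) * ν z.2)) :=
    (cg_prod hd h).bdd_mul (c := B) (hβ.comp measurable_fst).aestronglyMeasurable
      (Eventually.of_forall fun z => by rw [Real.norm_eq_abs]; exact hB _)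
  have h4 := integral_integral_swap (μ := (volume : Measure ℝ)) (ν := (volume : Measure ℝ))
    (f := fun s v => β s * (gd d (s - v) * ν v)) h2
  simp only [integral_const_mul] at h4
  have e : ∀ s, cg d ν s = ∫ v, gd d (s - v) * ν v := fun s => rfl
  simp only [e]
  rw [h4]
  refine integral_congr_ae (Eventually.of_forall fun v => ?_)
  simp only
  rw [sm_eq hd, ← integral_const_mul]
  refine integral_congr_ae (Eventually.of_forall fun s => ?_)
  simp only
  rw [← neg_sub v s, gd_even]
  ring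

end

end PLT.StF
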