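import Pool.Agent.PLT.ConfC
import Pool.Agent.PHK.StatN6

/-!
# Sea on a curve: the literal statistics on the configurations of all numbers of quanta

(C) twin of `PHK/StatN6`: curves given by complex displacements `D n : CrsC`, position of a quantum `ptC D s t`, height
`hgt (ptC D s t) = t + D s t`; the test functions and the density `ρ` of a ONE-fold row are given in the frame of the
height shifted by `y0` (`w = height - I y0`), the sea is integrated over the real line of this frame.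

* `hgt_ptC`; `stQC`, `stAC`: the additive statistics;
* `VQC`, `VAC`; **`VpC`, `VmC`, `SNC`**: plus channel, minus channel, step, centred (objects `VO6`, pins `pinN6` as landed);
* `VpC_eq`, `VmC_eq`; `VpC_lin`, `VmC_lin`: `VLin`; `mDC`, `VpC_mD`, `VmC_mD`, `SNC_mD`, `SNC_sgU`; `SNC_Vm`, `SNC_Vm0`;
* `VQC_dF`, `VpC_dF`, `VmC_dF`, `SNC_dF`: the curves of (P).
-/

set_option autoImplicit false
set_option linter.unusedSectionVars false

noncomputable section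

open Complex MeasureTheory Finset
open PLX (Fil)

namespace PLT

open NUO NUP1 NUP1S NUP1S.Ab NUP1S.AbC NUGC NUGC.PLX NUCR PHK
open PBI (Stt Kd)
open PBF.PLX (Ins Crs quF stQ hgt hgt_line eP eM qD sgD int_rho int_rho_lin mD mD_eq mD_qD mD_sgD sgU_hgt sgU_vl
  sgD_nn)

/-- the height of a position on the curve -/
theorem hgt_ptC (D : Bool → ℝ → ℂ) (s : Bool) (t : ℝ) : hgt (ptC D s t) = t + D s t := by
  unfold PBF.PLX.hgt ptC vl
  linear_combination (-(t : ℂ) - D s t) * I_mul_I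

/-- the real line of the shifted frame -/
theorem hgt_shift (y0 u : ℝ) : hgt (vl NUP1.l u - y0) = u + I * y0 := by
  unfold PBF.PLX.hgt vl
  linear_combination (-(u : ℂ)) * I_mul_I

/-! ### the additive statistics -/

/-- the statistic of the quanta on the curve -/
def stQC (Dt : Stt) (D : Bool → ℝ → ℂ) (a b : ℕ) (x : (Fin a → ℝ) × (Fin b → ℝ)) : ℂ :=
  ∑ i, Dt true none (ptC D true (x.1 i)) + ∑ j, Dt false none (ptC D false (x.2 j))

/-- **the total statistic** -/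
def stAC (Dt : Stt) (P : Par6) (D : CrsC) : Ins :=
  fun r O a b x => stO6 Dt P O + stQC Dt (D r O) a b x

theorem stQC_add (A B : Stt) (D : Bool → ℝ → ℂ) {a b : ℕ} (x : (Fin a → ℝ) × (Fin b → ℝ)) :
    stQC (fun s k z => A s k z + B s k z) D a b x = stQC A D a b x + stQC B D a b x := by
  unfold stQC
  simp only [Finset.sum_add_distrib]
  ring

theorem stQC_smul (c : ℂ) (A : Stt) (D : Bool → ℝ → ℂ) {a b : ℕ} (x : (Fin a → ℝ) × (Fin b → ℝ)) :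
    stQC (fun s k z => c * A s k z) D a b x = c * stQC A D a b x := by
  unfold stQC
  rw [← Finset.mul_sum, ← Finset.mul_sum, mul_add]

theorem stAC_add (A B : Stt) (P : Par6) (D : CrsC) {r : ℕ} (O : Fin r → Xo) {a b : ℕ}
    (x : (Fin a → ℝ) × (Fin b → ℝ)) :
    stAC (fun s k z => A s k z + B s k z) P D r O a b x = stAC A P D r O a b x + stAC B P D r O a b x := by
  unfold stAC
  rw [stO6_add, stQC_add]
  ring

theorem stAC_smul (c : ℂ) (A : Stt) (P : Par6) (D : CrsC) {r : ℕ} (O : Fin r → Xo) {a b : ℕ}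
    (x : (Fin a → ℝ) × (Fin b → ℝ)) :
    stAC (fun s k z => c * A s k z) P D r O a b x = c * stAC A P D r O a b x := by
  unfold stAC
  rw [stO6_smul, stQC_smul]
  ring

variable [Fil]

variable {N : ℕ}

/-! ### the statistics on the configurations -/

/-- statistic of the quanta on the curve -/
def VQC (Dt : Stt) (D : ℕ → CrsC) : CfN6 N → ℂ :=
  evN6 fun n r O a b x => stQC Dt (D n r O) a b x

/-- statistic of all constituents -/
def VAC (Dt : Stt) (P : Par6) (D : ℕ → CrsC) : CfN6 N → ℂ := evN6 fun n => stAC Dt P (D n)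

/-- **plus channel** -/
def VpC (y0 : ℝ) (ρ : ℝ → ℂ) (D : ℕ → CrsC) (g : ℂ → ℂ) : CfN6 N → ℂ := fun ω =>
  VQC (qD eP fun z => g (z - I * y0)) D ω - ((Fil.b true : ℂ) + Fil.b false) * ∫ u : ℝ, ρ u * g u

/-- **minus channel** -/
def VmC (y0 : ℝ) (ρ : ℝ → ℂ) (D : ℕ → CrsC) (g : ℂ → ℂ) : CfN6 N → ℂ := fun ω =>
  VQC (qD eM fun z => g (z - I * y0)) D ω - ((Fil.b true : ℂ) - Fil.b false) * ∫ u : ℝ, ρ u * g u

/-- **the step** -/
def SNC (y0 : ℝ) (ρ : ℝ → ℂ) (P : Par6) (D : ℕ → CrsC) : CfN6 N → ℂ := fun ω =>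
  VAC sgD P D ω - ((Fil.b true : ℂ) - Fil.b false) * ∫ u : ℝ, ρ u * PB.NX.sgC (u + I * y0)

theorem VAC_eq (Dt : Stt) (P : Par6) (D : ℕ → CrsC) (ω : CfN6 N) :
    VAC Dt P D ω = VO6 Dt P ω + VQC Dt D ω := rfl

/-- the statistics of the quanta on the curve -/
theorem VQC_eq (Dt : Stt) (D : ℕ → CrsC) (ω : CfN6 N) :
    VQC Dt D ω = ∑ i, Dt true none (ptC (D ω.1 ω.2.1.1 ω.2.2.1) true (ω.2.2.2.1 i)) +
      ∑ j, Dt false none (ptC (D ω.1 ω.2.1.1 ω.2.2.1) false (ω.2.2.2.2 j)) := rfl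

/-- the statistics of one function of the height -/
theorem VQC_qD (ε : Bool → ℂ) (g : ℂ → ℂ) (D : ℕ → CrsC) (ω : CfN6 N) :
    VQC (qD ε g) D ω = ε true * ∑ i, g (ω.2.2.2.1 i + D ω.1 ω.2.1.1 ω.2.2.1 true (ω.2.2.2.1 i)) +
      ε false * ∑ j, g (ω.2.2.2.2 j + D ω.1 ω.2.1.1 ω.2.2.1 false (ω.2.2.2.2 j)) := by
  rw [VQC_eq]
  simp only [qD, hgt_ptC, Finset.mul_sum]

theorem VpC_eq (y0 : ℝ) (ρ : ℝ → ℂ) (D : ℕ → CrsC) (g : ℂ → ℂ) (ω : CfN6 N) :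
    VpC y0 ρ D g ω = ∑ i, g (ω.2.2.2.1 i + D ω.1 ω.2.1.1 ω.2.2.1 true (ω.2.2.2.1 i) - I * y0) +
      ∑ j, g (ω.2.2.2.2 j + D ω.1 ω.2.1.1 ω.2.2.1 false (ω.2.2.2.2 j) - I * y0) -
      ((Fil.b true : ℂ) + Fil.b false) * ∫ u : ℝ, ρ u * g u := by
  unfold VpC
  rw [VQC_qD]
  simp only [eP, one_mul]

theorem VmC_eq (y0 : ℝ) (ρ : ℝ → ℂ) (D : ℕ → CrsC) (g : ℂ → ℂ) (ω : CfN6 N) :
    VmC y0 ρ D g ω = ∑ i, g (ω.2.2.2.1 i + D ω.1 ω.2.1.1 ω.2.2.1 true (ω.2.2.2.1 i) - I * y0) -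
      ∑ j, g (ω.2.2.2.2 j + D ω.1 ω.2.1.1 ω.2.2.1 false (ω.2.2.2.2 j) - I * y0) -
      ((Fil.b true : ℂ) - Fil.b false) * ∫ u : ℝ, ρ u * g u := by
  unfold VmC
  rw [VQC_qD]
  simp only [eM, if_true, Bool.false_eq_true, if_false, one_mul, neg_mul]
  ring

theorem VQC_qD_lin (ε : Bool → ℂ) (D : ℕ → CrsC) (g h : ℂ → ℂ) (c : ℂ) (ω : CfN6 N) :
    VQC (qD ε fun z => c * g z + h z) D ω = c * VQC (qD ε g) D ω + VQC (qD ε h) D ω := by
  simp only [VQC_qD, Finset.sum_add_distrib, ← Finset.mul_sum]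
  ring

theorem VpC_lin {y₁ y₂ a : ℝ} (y0 : ℝ) {ρ : ℝ → ℂ} (D : ℕ → CrsC) (ha : 0 < a) (h1 : y₁ < 0) (h2 : 0 < y₂)
    (hm : AEStronglyMeasurable ρ volume) {B : ℝ} (hB : ∀ u, ‖ρ u‖ ≤ B) :
    PBE.VLin y₁ y₂ a (VpC y0 ρ D : (ℂ → ℂ) → CfN6 N → ℂ) := by
  intro M M' g h c ω hg hh
  unfold VpC
  rw [VQC_qD_lin eP D (fun z => g (z - I * y0)) fun z => h (z - I * y0),
    int_rho_lin hg hh ha h1 h2 hm hB c]
  ring

theorem VmC_lin {y₁ y₂ a : ℝ} (y0 : ℝ) {ρ : ℝ → ℂ} (D : ℕ → CrsC) (ha : 0 < a) (h1 : y₁ < 0) (h2 : 0 < y₂)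
    (hm : AEStronglyMeasurable ρ volume) {B : ℝ} (hB : ∀ u, ‖ρ u‖ ≤ B) :
    PBE.VLin y₁ y₂ a (VmC y0 ρ D : (ℂ → ℂ) → CfN6 N → ℂ) := by
  intro M M' g h c ω hg hh
  unfold VmC
  rw [VQC_qD_lin eM D (fun z => g (z - I * y0)) fun z => h (z - I * y0),
    int_rho_lin hg hh ha h1 h2 hm hB c]
  ring

/-! ### the general form: one body data minus the mean -/

/-- the mean of one body data: the species `s` has the density `Fil.b s * ρ` on the real line of the shifted frame -/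
def mDC (y0 : ℝ) (ρ : ℝ → ℂ) (Dt : Stt) : ℂ :=
  ∑ s, (Fil.b s : ℂ) * ∫ u : ℝ, ρ u * Dt s none (vl NUP1.l u - y0)

theorem mDC_zero (ρ : ℝ → ℂ) (Dt : Stt) : mDC 0 ρ Dt = mD ρ Dt := by
  unfold mDC mD
  simp only [ofReal_zero, sub_zero]

theorem mDC_qD (y0 : ℝ) (ρ : ℝ → ℂ) (ε : Bool → ℂ) (g : ℂ → ℂ) :
    mDC y0 ρ (qD ε fun z => g (z - I * y0)) =
      ((Fil.b true : ℂ) * ε true + (Fil.b false : ℂ) * ε false) * ∫ u : ℝ, ρ u * g u := by
  have e : ∀ s : Bool, ∫ u : ℝ, ρ u * qD ε (fun z => g (z - I * y0)) s none (vl NUP1.l u - y0) =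
      ε s * ∫ u : ℝ, ρ u * g u := by
    intro s
    rw [← integral_const_mul]
    refine integral_congr_ae (Filter.Eventually.of_forall fun u => ?_)
    simp only [qD, hgt_shift, add_sub_cancel_right]
    ring
  unfold mDC
  rw [Fintype.sum_bool, e, e]
  ring

theorem mDC_sgD (y0 : ℝ) (ρ : ℝ → ℂ) :
    mDC y0 ρ sgD = ((Fil.b true : ℂ) - Fil.b false) * ∫ u : ℝ, ρ u * PB.NX.sgC (u + I * y0) := by
  have e : mDC y0 ρ sgD = mDC y0 ρ (qD eM fun z => (fun w => PB.NX.sgC (w + I * y0)) (z - I * y0)) := by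
    unfold mDC
    simp only [sgD_nn, qD, sub_add_cancel]
  rw [e, mDC_qD y0 ρ eM fun w => PB.NX.sgC (w + I * y0)]
  simp only [eM, if_true, Bool.false_eq_true, if_false]
  ring

theorem VpC_mD (y0 : ℝ) (ρ : ℝ → ℂ) (D : ℕ → CrsC) (g : ℂ → ℂ) (ω : CfN6 N) :
    VpC y0 ρ D g ω = VQC (qD eP fun z => g (z - I * y0)) D ω - mDC y0 ρ (qD eP fun z => g (z - I * y0)) := by
  unfold VpC
  rw [mDC_qD]
  simp only [eP, mul_one]

theorem VmC_mD (y0 : ℝ) (ρ : ℝ → ℂ) (D : ℕ → CrsC) (g : ℂ → ℂ) (ω : CfN6 N) :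
    VmC y0 ρ D g ω = VQC (qD eM fun z => g (z - I * y0)) D ω - mDC y0 ρ (qD eM fun z => g (z - I * y0)) := by
  unfold VmC
  rw [mDC_qD]
  simp only [eM, if_true, Bool.false_eq_true, if_false]
  ring

theorem SNC_mD (y0 : ℝ) (ρ : ℝ → ℂ) (P : Par6) (D : ℕ → CrsC) (ω : CfN6 N) :
    SNC y0 ρ P D ω = VAC sgD P D ω - mDC y0 ρ sgD := by
  unfold SNC
  rw [mDC_sgD]

theorem SNC_sgU (y0 : ℝ) (ρ : ℝ → ℂ) (P : Par6) (D : ℕ → CrsC) (ω : CfN6 N) :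
    SNC y0 ρ P D ω = VAC sgD P D ω -
      ((Fil.b true : ℂ) - Fil.b false) * ∫ u : ℝ, ρ u * PBOb.sgU (vl NUP1.l u - y0) := by
  unfold SNC
  simp only [sgU_hgt, hgt_shift]

/-- the statistics of the step of the quanta -/
theorem VQC_sgD (D : ℕ → CrsC) (ω : CfN6 N) : VQC sgD D ω = VQC (qD eM PB.NX.sgC) D ω := by
  simp only [VQC_eq, sgD_nn, qD]

/-- **the step is the minus channel of `sgC` and the statistic of the objects** -/
theorem SNC_Vm (y0 : ℝ) (ρ : ℝ → ℂ) (P : Par6) (D : ℕ → CrsC) (ω : CfN6 N) :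
    SNC y0 ρ P D ω = VmC y0 ρ D (fun z => PB.NX.sgC (z + I * y0)) ω + VO6 sgD P ω := by
  unfold SNC VmC
  rw [VAC_eq, VQC_sgD]
  simp only [sub_add_cancel]
  ring

theorem SNC_Vm0 (ρ : ℝ → ℂ) (P : Par6) (D : ℕ → CrsC) (ω : CfN6 N) :
    SNC 0 ρ P D ω = VmC 0 ρ D PB.NX.sgC ω + VO6 sgD P ω := by
  rw [SNC_Vm]
  simp only [ofReal_zero, mul_zero, add_zero]

/-! ### the curves of (P) -/

theorem VQC_dF (Dt : Stt) (η : ℕ → Crs) (ω : CfN6 N) :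
    VQC Dt (fun n r O => dF (η n r O)) ω = VQ6 Dt η ω := by
  rw [VQC_eq, VQ6_eq]
  simp only [ptC_dF]

theorem VpC_dF (ρ : ℝ → ℂ) (η : ℕ → Crs) (g : ℂ → ℂ) (ω : CfN6 N) :
    VpC 0 ρ (fun n r O => dF (η n r O)) g ω = Vp6 ρ η g ω := by
  unfold VpC Vp6
  rw [VQC_dF]
  simp only [ofReal_zero, mul_zero, sub_zero]

theorem VmC_dF (ρ : ℝ → ℂ) (η : ℕ → Crs) (g : ℂ → ℂ) (ω : CfN6 N) :
    VmC 0 ρ (fun n r O => dF (η n r O)) g ω = Vm6 ρ η g ω := by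
  unfold VmC Vm6
  rw [VQC_dF]
  simp only [ofReal_zero, mul_zero, sub_zero]

theorem SNC_dF (ρ : ℝ → ℂ) (P : Par6) (η : ℕ → Crs) (ω : CfN6 N) :
    SNC 0 ρ P (fun n r O => dF (η n r O)) ω = SN6 ρ P η ω := by
  rw [SNC_Vm0, SN6_Vm, VmC_dF]

end PLT

end
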