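import Pool.Agent.PLT.UXRC
import Pool.Agent.PLT.FamRI
import Pool.Agent.PLT.SFin
import Pool.Agent.PLT.FamWI
import Pool.Agent.PHK.TopR06
import Pool.Agent.PHK.TRsD4
import Pool.Agent.PLT.UXmapC
import Pool.Agent.PHK.SpPin

/-!
# (S-TR), rows on the imaginary axis, right end of the s-path: the bounds `UXC` of the family `famWI`

* `FE_RZW`: nonnegative insertions, the regular functional is the one of the family at `s = 1`, any data `RU`;
* `pf_I`: the normaliser `k1T exp (-κvI) PvI = u0⁻¹ (2π)⁻² nrI kRI`;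
* **`ux_famWI`**: `UXC (famRI S) par6 → UXC (famWI S) par6`, straight seas;
* `liftG`: geometries over admissible heights; `OwnI G`: base functions, size of `nrI exp EM`, own kernels;
* **`ux_famRI`**: `UXC (famRI S) par6` from `GOkF`, the gas `S4MC`, stability, one body bounds, `OwnI`.
-/

set_option autoImplicit false
set_option linter.unusedSectionVars false
set_option linter.unusedVariables false

noncomputable section

open Complex MeasureTheory Finset Filter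
open scoped ENNReal
open PLX (Fil)

namespace PLT.St

open NUP1S (O3)
open NUO (Xo)
open NUCR (CurB)
open NUP1 (l vl)
open NUP1.Leg (Dk)
open PHK (Par6 GoodP6 FF6 par6 par6_good obK6)
open PBF.PLX (expZ Crs dN Zm InsE FE6)
open PBR.PLX (RZW)
open PBTs.PLX (DT sgk sgF At6 norm_sgk6 norm_obK_sg6 obK6_congr at_A6 FE_congrN6)
open PBT3 (wt zt zz k1T)
open PBTRF (u0 u0_ne)
open PBForce (Rws0)
open Pool.Agent.PLX (RU rwq yq)
open PBR (rh)
open PBX (rh_zero_ne)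
open PLT.SW (ZLD RZW_pt)
open NURow (XB)

/-! ### the functionals with moduli -/

/-- **nonnegative insertions, regular function, any data** -/
theorem FE_RZW [Fil] {m M : ℕ} {D : RU m M} {w w' : ℂ} (hw : w.re = 5 / 4 * l)
    (hw' : w'.re = 5 / 4 * l) {P : Par6} (hP : GoodP6 P) {n n' : ℕ} {η η' : Crs} (hp : D.p = 0)
    (hq : D.q = 0) (hη : ∀ r ≤ 2 * (n + n'), ∀ᵐ O ∂(Measure.pi fun _ : Fin r => NUO.nu),
      ∀ t, |η r O t| ≤ l / 5) (φ : InsE) :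
    FE6 (RZW D w w') P n n' η η' φ = FE6 (expZ (ZLD D (zz w w')) (DT w w') 1) P n n' η η' φ := by
  refine FE_congrN6 φ (fun r hr => ?_) fun x => ?_
  · filter_upwards [hη r hr] with O hO
    intro s t
    rw [RZW_pt hw hw' hp hq s (at_A6 (Fil.abs_cv_le_of (hO t)))]
    unfold Zm sgF
    rw [norm_mul, norm_sgk6, mul_one]
  · rw [obK6_congr hP (fun b _ _ hu => RZW_pt hw hw' hp hq b hu) x, norm_obK_sg6]

/-- the class `W W` of the data is the regular one -/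
theorem ZW6_XB {m M : ℕ} (D : RU m M) (y : ℝ × ℝ) :
    PBI.PLX.ZW6 (XB D.X D.Y) y = RZW D (vl (5 / 4 * l) y.1) (vl (5 / 4 * l) y.2) := by
  funext a
  cases a <;> rfl

/-! ### the wide family -/

section fam

variable [Fil]

/-- the one body functions of the right end are those of the data `RI` -/
theorem ZvI_ZLD (ep : ℝ) {m : ℕ} (x : Fin m → ℂ) (τ : ℝ × ℝ) :
    ZLD (RI ep x) (zz (wt τ.1) (wt τ.2)) = ZvI ep x τ :=
  SW.ZLD_ZQ6 (fun a => NUP1.Leg.cc (PHK.Nq m a)) (gI x) (4 / 3 * (1 - ep)) x (fun _ => [I, -I]) 0 0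
    (zt τ)

/-- **the normaliser of the right end** -/
theorem pf_I {m : ℕ} {x : Fin m → ℂ} (hx : Rws0 x) (τ : ℝ × ℝ) :
    k1T τ * (Complex.exp (-κvI x τ) * PvI x τ) =
      u0⁻¹ * (nrI x * (2 * Real.pi : ℂ)⁻¹ ^ 2 * kRI x τ) := by
  have h := ratio_e (w := wt τ.1) (w' := wt τ.2) (plc_I hx τ)
  rw [k1e_k1T, sub_zero] at h
  have h0 := rh_zero_ne
  have h2 : nrI x * kRI x τ = 3 / 2 / rh 0 * k1T τ * (PvI x τ * EMI x τ) := by
    unfold nrI kRI PvI EMI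
    rw [h, ← mul_assoc (Pool.Agent.PB.Pf (zt τ) x (yq x))]
    have e : 3 / 2 * rh 0 / rh 0 ^ 2 = 3 / 2 / rh 0 := by
      field_simp
    rw [e]
  rw [kvI_exp hx]
  have h3 := u0_ne
  have h4 : nrI x * (2 * Real.pi : ℂ)⁻¹ ^ 2 * kRI x τ = u0 * (k1T τ * (EMI x τ * PvI x τ)) := by
    unfold u0
    linear_combination ((2 * Real.pi : ℂ)⁻¹ ^ 2) * h2
  rw [h4, ← mul_assoc u0⁻¹, inv_mul_cancel₀ h3, one_mul]

variable {SB : SeaCB} {S : ℕ → (ℕ → ℝ) → SeaC}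

/-- the functionals of the two families -/
theorem FEC_WI {ep e1 J : ℝ} {m : ℕ} {i : (ℕ → ℝ) × (ℝ × ℝ)}
    (h0 : ∀ t, @Cv.eta (S m i.1) t = 0) (hc : ∀ t, |@Cv.etaC (S m i.1) e1 J m m t| ≤ l / 5) (n n' : ℕ)
    (φ : InsE) :
    FEC ((famWI S).Z ep m i) par6 n n' ((famWI S).cr e1 J m i) ((famWI S).cr' e1 J m i) φ =
      FEC ((famRI S).Z ep m i) par6 n n' ((famRI S).cr e1 J m i) ((famRI S).cr' e1 J m i) φ := by
  have e1' : (famWI S).cr e1 J m i = fun _ _ => dF (@Cv.etaC (S m i.1) e1 J m m) := by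
    funext r O
    exact @SW.dsp_straight _ (S m i.1) h0 _
  have e2' : (famWI S).cr' e1 J m i = fun _ _ => dF (@Cv.etaC' (S m i.1) e1 J m m) := by
    funext r O
    exact @SW.dsp1_straight _ (S m i.1) h0 _ _
  have e3' : (famRI S).cr e1 J m i = (famWI S).cr e1 J m i := rfl
  have e4' : (famRI S).cr' e1 J m i = (famWI S).cr' e1 J m i := rfl
  rw [e3', e4', e1', e2']
  have k1 := FEC_dF ((famWI S).Z ep m i) par6 n n' (fun _ _ => @Cv.etaC (S m i.1) e1 J m m)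
    (fun _ _ => @Cv.etaC' (S m i.1) e1 J m m) φ
  have k2 := FEC_dF ((famRI S).Z ep m i) par6 n n' (fun _ _ => @Cv.etaC (S m i.1) e1 J m m)
    (fun _ _ => @Cv.etaC' (S m i.1) e1 J m m) φ
  have key := FE_RZW (D := RI ep (xI m i.1)) (PBT3.wt_re i.2.1) (PBT3.wt_re i.2.2) par6_good
    (n := n) (n' := n') (η := fun _ _ => @Cv.etaC (S m i.1) e1 J m m)
    (η' := fun _ _ => @Cv.etaC' (S m i.1) e1 J m m) rfl rfl
    (fun r _ => Eventually.of_forall fun O t => hc t) φ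
  rw [ZvI_ZLD] at key
  exact k1.trans (key.symm.trans k2.symm)

/-- **the right end of the path from the class `W W`** -/
theorem ux_famWI (hu : ∀ m h, HtS h → @SeaCU SB (S m h))
    (h0 : ∀ m h, HtS h → ∀ t, @Cv.eta (S m h) t = 0) (hX : UXC (famRI S) par6) :
    UXC (famWI S) par6 := by
  have hl := NUP1.l_pos
  intro p K ε hε
  obtain ⟨a0, ha0, H⟩ := hX p K (ε / 2) (by positivity)
  refine ⟨min a0 (3 / 100), lt_min ha0 (by norm_num), fun ep e1 J hep he1 hJ hsm => ?_⟩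
  have hexpJ := Real.exp_pos (-(2 * Real.pi * J))
  have hs2 := hsm.trans (min_le_right _ _)
  have b1 : ep ≤ 1 / 100 := by linarith
  have b2 : e1 ≤ 1 / 100 := by linarith
  have hR := H ep e1 J hep he1 hJ (hsm.trans (min_le_left _ _))
  obtain ⟨mc, -, hc⟩ := SW.curB_etaC he1 b2 hJ hep SB
  intro C0 y₁ y₂ hy1 hy2
  obtain ⟨m0, H⟩ := hR C0 y₁ y₂ hy1 hy2
  obtain ⟨m2, h2⟩ := const_le_rpowC ‖u0⁻¹‖ (ε := ε / 2) (by positivity)
  refine ⟨max (max m0 mc) (max m2 1), fun m hm i hi ρ hρ B hB w hw g g' hg => ?_⟩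
  have q0 : m0 ≤ m := by omega
  have q1 : mc ≤ m := by omega
  have q2 : m2 ≤ m := by omega
  have q3 : 1 ≤ m := by omega
  have hmp : (0 : ℝ) < m := by exact_mod_cast q3
  have hL : 0 ≤ Real.log m := Real.log_nonneg (by exact_mod_cast q3)
  have hok : (famRI S).ok m i := ⟨hi.1, hi.2.1.trans (by linarith), hi.2.2.trans (by linarith)⟩
  have hcur := @hc (S m i.1) (hu m i.1 hi.1) m q1
  have key := H m q0 i hok ρ hρ B hB w hw g g' hg
  have hD : (famRI S).D e1 J m i = (famWI S).D e1 J m i := rfl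
  rw [hD] at key
  rw [FSC_eq] at key ⊢
  have hPf : ‖(famWI S).Pf m i‖ₑ = ‖u0⁻¹‖ₑ * ‖(famRI S).Pf m i‖ₑ := by
    rw [← enorm_mul]
    congr 1
    exact pf_I (rws0_xI hi.1 m) i.2
  have hsum : ∑ n ∈ range ((famWI S).top m + 1), FEC ((famWI S).Z ep m i) par6 n
      (n + dN ((famWI S).top m)) ((famWI S).cr e1 J m i) ((famWI S).cr' e1 J m i)
      (fun r O _ _ x => ENNReal.ofReal (w r O) *
        ∏ j, nuEC ρ ((famWI S).D e1 J m i) (g r O j) (g' r O j) x) =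
      ∑ n ∈ range ((famRI S).top m + 1), FEC ((famRI S).Z ep m i) par6 n
      (n + dN ((famRI S).top m)) ((famRI S).cr e1 J m i) ((famRI S).cr' e1 J m i)
      (fun r O _ _ x => ENNReal.ofReal (w r O) *
        ∏ j, nuEC ρ ((famWI S).D e1 J m i) (g r O j) (g' r O j) x) :=
    Finset.sum_congr rfl fun n _ => FEC_WI (h0 m i.1 hi.1)
      (fun t => (hcur.h1 t).trans (by nlinarith)) n _ _
  rw [hsum, hPf, mul_assoc]
  refine (mul_le_mul' le_rfl key).trans ?_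
  rw [← ofReal_norm, ← ENNReal.ofReal_mul (norm_nonneg _)]
  refine ENNReal.ofReal_le_ofReal ?_
  have hbd : (famRI S).bd m i = (famWI S).bd m i := rfl
  have hb : 0 ≤ (famWI S).bd m i := (Real.exp_pos _).le
  rw [hbd]
  have hp : 0 ≤ (m : ℝ) ^ (ε / 2) := by positivity
  have e1' : (m : ℝ) ^ ε = (m : ℝ) ^ (ε / 2) * (m : ℝ) ^ (ε / 2) := by
    rw [← Real.rpow_add hmp]
    congr 1
    ring
  rw [e1']
  calc ‖u0⁻¹‖ * (B * (m : ℝ) ^ (ε / 2) * (famWI S).bd m i)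
      ≤ (m : ℝ) ^ (ε / 2) * (B * (m : ℝ) ^ (ε / 2) * (famWI S).bd m i) :=
        mul_le_mul_of_nonneg_right (h2 m q2) (by positivity)
    _ = _ := by ring

/-! ### the geometries -/

/-- zero heights -/
theorem htS_zero : HtS 0 := fun i => by
  simp

/-- geometries over admissible heights as geometries over all heights -/
def liftG (G : {h : ℕ → ℝ // HtS h} → GeoC) (h : ℕ → ℝ) : GeoC := by
  classical exact if hh : HtS h then G ⟨h, hh⟩ else G ⟨0, htS_zero⟩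

theorem liftG_of (G : {h : ℕ → ℝ // HtS h} → GeoC) {h : ℕ → ℝ} (hh : HtS h) :
    liftG G h = G ⟨h, hh⟩ := by
  unfold liftG
  exact dif_pos hh

theorem liftG_nn {G : {h : ℕ → ℝ // HtS h} → GeoC} (hG : ∀ m i β, ((G i).B m β).Nn) (m : ℕ)
    (h : ℕ → ℝ) (β : ℝ) : ((liftG G h).B m β).Nn := by
  unfold liftG
  split_ifs
  · exact hG _ _ _
  · exact hG _ _ _

theorem liftG_sel (G : {h : ℕ → ℝ // HtS h} → GeoC) (i : ℕ → ℕ → ℝ) (hi : ∀ m, HtS (i m)) :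
    GeoC.sel (liftG G) i = GeoC.sel G fun m => ⟨i m, hi m⟩ := by
  unfold GeoC.sel
  simp only [liftG_of G (hi _)]

theorem gOkF_lift [PLX.Ends] {P : Par6} {en : EnC} {G : {h : ℕ → ℝ // HtS h} → GeoC}
    (hG : GOkF SB P en (fun _ _ => True) (fun m h => S m h.1) G) :
    GOkF SB P en (fun _ h => HtS h) S (liftG G) := by
  refine ⟨?_, ?_, ?_, fun m h β => liftG_nn hG.nn m h β, ?_, ?_, ?_, ?_⟩
  · obtain ⟨m0, H⟩ := hG.sea
    exact ⟨m0, fun m hm h hh => H m hm ⟨h, hh⟩ trivial⟩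
  · obtain ⟨m0, H⟩ := hG.crv
    refine ⟨m0, fun m hm h hh e1 J => ?_⟩
    rw [liftG_of G hh]
    exact H m hm ⟨h, hh⟩ trivial e1 J
  · obtain ⟨m0, H⟩ := hG.en
    refine ⟨m0, fun m hm h hh r O => ?_⟩
    rw [liftG_of G hh]
    exact H m hm ⟨h, hh⟩ trivial r O
  · obtain ⟨B0, N0, hB, hN, H⟩ := hG.pot
    refine ⟨B0, N0, hB, hN, fun ep hep hep1 e1 he he1 J hJ => ?_⟩
    obtain ⟨CH, m0, H⟩ := H ep hep hep1 e1 he he1 J hJ
    refine ⟨CH, m0, fun m hm h hh => ?_⟩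
    rw [liftG_of G hh]
    exact H m hm ⟨h, hh⟩ trivial
  · intro ep hep hep1 e1 he he1 J hJ
    obtain ⟨C0, hC, m0, H⟩ := hG.cut ep hep hep1 e1 he he1 J hJ
    refine ⟨C0, hC, m0, fun m hm h hh => ?_⟩
    rw [liftG_of G hh]
    exact H m hm ⟨h, hh⟩ trivial
  · obtain ⟨K1, hK, H⟩ := hG.one
    refine ⟨K1, hK, fun ep hep hep1 e1 he he1 J hJ => ?_⟩
    obtain ⟨m0, H⟩ := H ep hep hep1 e1 he he1 J hJ
    refine ⟨m0, fun m hm h hh r O j => ?_⟩
    rw [liftG_of G hh]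
    exact H m hm ⟨h, hh⟩ trivial r O j
  · obtain ⟨C, hC, m0, H⟩ := hG.MF
    refine ⟨C, hC, m0, fun m hm h hh g => ?_⟩
    rw [liftG_of G hh]
    exact H m hm ⟨h, hh⟩ trivial g

/-! ### the class `W W` -/

attribute [local instance] _root_.PLX.ends0

/-- what the class `W W` wants of the geometry beside `GOkF` -/
structure OwnI (G : {h : ℕ → ℝ // HtS h} → GeoC) : Prop where
  /-- the base of one body data -/
  bs : ∀ ep : ℝ, 0 < ep → ep ≤ 1 / 100 → ∃ m0 : ℕ, ∀ m ≥ m0, ∀ h : {h : ℕ → ℝ // HtS h},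
    ∃ (kp : ℝ) (er : ℕ) (E0 : Set ℝ), BsC (XB (RI ep (xI m h.1)).X (RI ep (xI m h.1)).Y)
      (fun g => ((G h).B m (NUGC.PLX.beC ep)).mul g) par6 (-(0 + ep / 4)) (0 + ep / 4) kp er E0
  /-- the size of the prefactor -/
  pre : ∃ C : ℝ, 0 ≤ C ∧ ∃ m0 : ℕ, ∀ m ≥ m0, ∀ h : {h : ℕ → ℝ // HtS h},
    ‖nrI (xI m h.1)‖ * Real.exp ((G h).EM m) ≤ C
  /-- the own kernel of a bare half quantum of the first species -/
  own : ∃ C : ℝ, 0 ≤ C ∧ ∃ m0 : ℕ, ∀ m ≥ m0, ∀ h : {h : ℕ → ℝ // HtS h}, ∀ y : ℝ,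
    |y| ≤ 3 / 8 * Real.log m → ‖kfG 0 0 (xI m h.1) (yq (xI m h.1)) (wt y)‖ *
      Real.exp ((G h).MF m true .w (vl (NUGC.PLX.htL .W) y)) ≤ C * Real.exp (-|y|)
  /-- the own kernel of a bare half quantum of the second species -/
  own' : ∃ C : ℝ, 0 ≤ C ∧ ∃ m0 : ℕ, ∀ m ≥ m0, ∀ h : {h : ℕ → ℝ // HtS h}, ∀ y : ℝ,
    |y| ≤ 3 / 8 * Real.log m → ‖kfG 0 0 (yq (xI m h.1)) (xI m h.1) (wt y)‖ *
      Real.exp ((G h).MF m false .w (vl (NUGC.PLX.htL .W) y)) ≤ C * Real.exp (-|y|)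

/-- **the family of the class `W W` over the geometries** -/
theorem regI {G : {h : ℕ → ℝ // HtS h} → GeoC} (hO : OwnI G) :
    UR.RegF (famRI S) par6 (fun _ h => HtS h) S (liftG G)
      (fun ep m h => XB (RI ep (xI m h)).X (RI ep (xI m h)).Y) 0 0 where
  ok m i hi := hi
  top m := le_rfl
  xe m := PBF.PLX.dN_two m
  D e1 J m i _ := rfl
  D1 e1 J m i _ := rfl
  dc m i _ := rfl
  bs ep hep hep1 := by
    obtain ⟨m0, H⟩ := hO.bs ep hep hep1
    refine ⟨m0, fun m hm h hh => ?_⟩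
    rw [liftG_of G hh]
    exact H m hm ⟨h, hh⟩
  fe ep hep hep1 e1 he1 he11 J hJ := by
    refine ⟨0, fun m _ i hi n hn φ => le_of_eq ?_⟩
    have e : (famRI S).Z ep m i =
        PBI.PLX.ZW6 (XB (RI ep (xI m i.1)).X (RI ep (xI m i.1)).Y) i.2 := by
      rw [ZW6_XB]
      show RZW (RI ep (xI m i.1)) (wt i.2.1) (wt i.2.2) = _
      rw [PBI.PLX.wt_vl, PBI.PLX.wt_vl]
    rw [e]
  bd m i _ := le_rfl
  pf := by
    obtain ⟨C1, hC1, m1, H1⟩ := hO.pre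
    obtain ⟨C2, hC2, m2, H2⟩ := hO.own
    obtain ⟨C3, hC3, m3, H3⟩ := hO.own'
    obtain ⟨C4, hC4, H4⟩ := PBI.PLX.dk_le
    obtain ⟨b, hb⟩ : ∃ b : ℝ, b = ‖(2 * Real.pi : ℂ)⁻¹ ^ 2‖ := ⟨_, rfl⟩
    have hb0 : 0 ≤ b := by rw [hb]; exact norm_nonneg _
    refine ⟨b * C1 + C2 + C3 + C4, by positivity, max m1 (max m2 m3), fun m hm i hi => ?_⟩
    have q1 : m1 ≤ m := by omega
    have q2 : m2 ≤ m := by omega
    have q3 : m3 ≤ m := by omega
    obtain ⟨h, y⟩ := i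
    obtain ⟨hh, hy1, hy2⟩ := hi
    have k1 := H1 m q1 ⟨h, hh⟩
    have k2 := H2 m q2 ⟨h, hh⟩ y.1 hy1
    have k3 := H3 m q3 ⟨h, hh⟩ y.2 hy2
    have k4 := H4 y.1 y.2
    refine ⟨b * ‖nrI (xI m h)‖, ‖kfG 0 0 (xI m h) (yq (xI m h)) (wt y.1)‖,
      ‖kfG 0 0 (yq (xI m h)) (xI m h) (wt y.2)‖, ‖Dk (wt y.1 - wt y.2)‖, by positivity,
      norm_nonneg _, norm_nonneg _, norm_nonneg _, le_of_eq ?_, ?_, ?_, ?_, ?_⟩
    · show ‖nrI (xI m h) * (2 * Real.pi : ℂ)⁻¹ ^ 2 * (kfG 0 0 (xI m h) (yq (xI m h)) (wt y.1) *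
        kfG 0 0 (yq (xI m h)) (xI m h) (wt y.2) * Dk (wt y.1 - wt y.2))‖ = _
      rw [norm_mul, norm_mul, norm_mul, norm_mul, ← hb]
      ring
    · rw [liftG_of G hh]
      calc b * ‖nrI (xI m h)‖ * Real.exp ((G ⟨h, hh⟩).EM m)
          = b * (‖nrI (xI m h)‖ * Real.exp ((G ⟨h, hh⟩).EM m)) := by ring
        _ ≤ b * C1 := mul_le_mul_of_nonneg_left k1 hb0
        _ ≤ _ := by linarith
    · rw [liftG_of G hh]
      exact k2.trans (mul_le_mul_of_nonneg_right (by linarith [mul_nonneg hb0 hC1])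
        (Real.exp_pos _).le)
    · rw [liftG_of G hh]
      exact k3.trans (mul_le_mul_of_nonneg_right (by linarith [mul_nonneg hb0 hC1])
        (Real.exp_pos _).le)
    · rw [PBI.PLX.wt_vl, PBI.PLX.wt_vl]
      exact k4.trans (mul_le_mul_of_nonneg_right (by linarith [mul_nonneg hb0 hC1])
        (Real.exp_pos _).le)

/-- **U1, U3, U4 of the class `W W`, rows on the imaginary axis, wide window** -/
theorem ux_famRI {en : EnC} (h0 : ∀ m h, HtS h → ∀ t, @Cv.eta (S m h) t = 0)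
    {G : {h : ℕ → ℝ // HtS h} → GeoC} (hG : GOkF SB par6 en (fun _ _ => True) (fun m h => S m h.1) G)
    (h4 : S4MC SB par6 en) (hS : ∀ i, StabU par6 (GeoC.sel G i).en)
    (hone : ∀ i, OneRTC par6 (GeoC.sel G i)) (hO : OwnI G) : UXC (famRI S) par6 := by
  obtain ⟨C3, -, hspec⟩ := PHK.spec_pin6
  refine UR.uxR_of par6_good (fun m => ⟨0, htS_zero⟩) (by norm_num) (regI hO) (gOkF_lift hG) h4
    (fun m h hh => by
      let _ : SeaC := S m h
      exact ⟨le_rfl, le_rfl, fun t => (h0 m h hh t).ge, fun t => (h0 m h hh t).le⟩)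
    (specPinC_six hspec) ?_ ?_ ?_
  · intro i hi ep hep hep1 e1 he1 he11 J hJ
    obtain ⟨m1, -, hc⟩ := SW.curB_etaC he1 he11 hJ hep SB
    obtain ⟨m2, hcr⟩ := hG.crv
    obtain ⟨m3, hsea⟩ := hG.sea
    refine ⟨max m1 (max m2 m3), fun m hm => ?_⟩
    have q1 : m1 ≤ m := by omega
    have q2 : m2 ≤ m := by omega
    have q3 : m3 ≤ m := by omega
    have hcur := @hc (S m (i m)) (hsea m q3 ⟨i m, hi m⟩ trivial) m q1
    obtain ⟨eD, eD1⟩ := hcr m q2 ⟨i m, hi m⟩ trivial e1 J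
    rw [liftG_sel G i hi]
    show CurC (-(0 + ep / 4)) (0 + ep / 4) ((G ⟨i m, hi m⟩).D e1 J m) ((G ⟨i m, hi m⟩).D1 e1 J m)
    rw [eD, eD1, zero_add]
    show CurC (-(ep / 4)) (ep / 4) (@dsp (S m (i m)) _ (@Cv.etaC (S m (i m)) e1 J m m))
      (@dsp1 (S m (i m)) _ (@Cv.etaC (S m (i m)) e1 J m m) (@Cv.etaC' (S m (i m)) e1 J m m))
    rw [@SW.dsp_straight _ (S m (i m)) (h0 m (i m) (hi m)), @SW.dsp1_straight _ (S m (i m))
      (h0 m (i m) (hi m))]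
    exact curC_of hcur hep.le
  · intro i hi
    rw [liftG_sel G i hi]
    exact hS _
  · intro i hi
    rw [liftG_sel G i hi]
    exact hone _

end fam

end PLT.St

end
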