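import Pool.Agent.PLT.SMstS
import Pool.Agent.PLT.SH3
import Pool.Agent.PLT.SeaI3
import Pool.Agent.PLT.UWI

/-!
# (S-TR), rows on the imaginary axis: the seas of the contents (helper71)

* **`strO_I`**: `(S-TR)` for all small `ep` over `seaI`, from the bounds `UXC` of the legs (`famLI`) and of the regular
  function (`famRI`) at `par6` and the state sums `SeqI` of all sequences of heights.
-/

set_option autoImplicit false
set_option linter.unusedSectionVars false

noncomputable section

open Complex MeasureTheory Set Filter Topology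
open PLX (Fil)

namespace PLT.St

open PHK (par6)
open Pool.Agent.PLX (FFth)

variable [Fil] [PLX.Ends]

/-- **(S-TR) over the seas of the contents** -/
theorem strO_I (hFF : FFth) (hL : UXC (famLI seaI) par6) (hR : UXC (famRI seaI) par6)
    (hS : ∀ h : ℕ → ℕ → ℝ, (∀ m, HtS (h m)) → SeqI h) : Sm3 fun ep _ _ => StrO ep :=
  str_of_seq (S := seaI) hFF (SB := seaIB) (c2 := 1 / 2) (by norm_num) (fun m h _ => seaI_eta m h)
    (fun ep e1 J h1 h2 h3 h4 => seaI_cur ep e1 J h1 h2 h3 h4) (fun m h _ η => seaI_dsp m h η)
    (fun m h _ η η1 => seaI_dsp1 m h η η1) hL hS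
    (h3S_of seaHD_I (ux_famVI_L hL)
      (ux_famWI (SB := seaIB) (fun m h hh => seaIU fun i _ => (hh i).trans (by norm_num))
        (fun m h _ t => by rw [seaI_eta]) hR) (by norm_num))

end PLT.St

end
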