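import Pool.Agent.NUAct.Sing

/-!
# Deformation of the line in a strip `lo ≤ Im z ≤ hi`

Versions of `NUAct/{Half, Path, Sing}` for a strip which need not be symmetric: the integrand is used only
between the path and the horizontal line.

* `Cv.SPath lo hi c B ζ ζ'`: paths with `lo ≤ Im ζ ≤ hi`; `SPath.shift`: `∫ f(ζ) dζ` depends only on the strip;
* `Cv.sing_shift`: the same with a kernel which is singular on the diagonal.
-/

set_option autoImplicit false

open MeasureTheory Set Filter Topology Complex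

namespace PLT.Cv

open NUAct (Mj Mj_anti Mj_int Mj_zero Mj_top gr gr_nonneg gr_le Up Up_of_lt Up_of_le int_exp_abs' mp_sub)

/-- the half strip -/
def HSt (lo hi : ℝ) : Set ℂ := {z | 0 < z.re ∧ lo ≤ z.im ∧ z.im ≤ hi}

lemma convex_HSt (lo hi : ℝ) : Convex ℝ (HSt lo hi) := by
  have : HSt lo hi = Complex.reLm ⁻¹' (Ioi 0) ∩ Complex.imLm ⁻¹' (Icc lo hi) := by
    ext z
    simp [HSt]
  rw [this]
  exact ((convex_Ioi _).linear_preimage _).inter ((convex_Icc _ _).linear_preimage _)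

lemma convex_HSt' (lo hi a : ℝ) : Convex ℝ {z : ℂ | a ≤ z.re ∧ lo ≤ z.im ∧ z.im ≤ hi} := by
  have : {z : ℂ | a ≤ z.re ∧ lo ≤ z.im ∧ z.im ≤ hi} =
      Complex.reLm ⁻¹' (Ici a) ∩ Complex.imLm ⁻¹' (Icc lo hi) := by
    ext z
    simp
  rw [this]
  exact ((convex_Ici _).linear_preimage _).inter ((convex_Icc _ _).linear_preimage _)

/-- a path issued from `0` -/
structure HPath (lo hi B c : ℝ) (γ γ' : ℝ → ℂ) : Prop where
  der : ∀ u, HasDerivAt γ (γ' u) u
  cont : Continuous γ'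
  zero : γ 0 = 0
  im_le : ∀ u, lo ≤ (γ u).im ∧ (γ u).im ≤ hi
  dle : ∀ u, ‖γ' u‖ ≤ B
  c_pos : 0 < c
  c_le : c ≤ 1
  re_ge : ∀ u, 0 ≤ u → c * u ≤ (γ u).re
  near : ∀ u, ‖γ u - u‖ ≤ B

variable {lo hi B c : ℝ} {γ γ' : ℝ → ℂ}

lemma HPath.lin (P : HPath lo hi B c γ γ') {u : ℝ} (hu : 0 ≤ u) : ‖γ u - u‖ ≤ (B + 1) * u := by
  have h1 := Convex.norm_image_sub_le_of_norm_hasDerivWithin_le (f := γ) (f' := γ') (C := B)
    (s := univ) (x := 0) (y := u) (fun x _ => (P.der x).hasDerivWithinAt) (fun x _ => P.dle x)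
    convex_univ (mem_univ _) (mem_univ _)
  rw [P.zero, sub_zero, sub_zero, Real.norm_eq_abs, abs_of_nonneg hu] at h1
  have h2 := norm_sub_le (γ u) (u : ℂ)
  rw [Complex.norm_real, Real.norm_eq_abs, abs_of_nonneg hu] at h2
  linarith

lemma HPath.mem (P : HPath lo hi B c γ γ') {u : ℝ} (hu : 0 < u) : γ u ∈ HSt lo hi :=
  ⟨lt_of_lt_of_le (mul_pos P.c_pos hu) (P.re_ge u hu.le), P.im_le u⟩

theorem half_shift {φ : ℂ → ℂ} {M : ℝ → ℝ} (hlo : lo ≤ 0) (hhi : 0 ≤ hi)
    (hd : ∀ z, 0 < z.re → lo ≤ z.im ∧ z.im ≤ hi → DifferentiableAt ℂ φ z)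
    (hb : ∀ z, 0 < z.re → lo ≤ z.im ∧ z.im ≤ hi → ‖φ z‖ ≤ M z.re) (hMa : AntitoneOn M (Ioi 0))
    (hM : IntegrableOn M (Ioi 0))
    (hM0 : Tendsto (fun u => M u * u) (𝓝[>] 0) (𝓝 0)) (hM1 : Tendsto M atTop (𝓝 0))
    (P : HPath lo hi B c γ γ') :
    IntegrableOn (fun u : ℝ => φ (γ u) * γ' u) (Ioi 0) ∧
    IntegrableOn (fun u : ℝ => φ (u : ℂ)) (Ioi 0) ∧
    ∫ u in Ioi (0:ℝ), φ (γ u) * γ' u = ∫ u in Ioi (0:ℝ), φ (u : ℂ) := by
  have hB0 : 0 ≤ B := (norm_nonneg _).trans (P.dle 0)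
  have hdo : DifferentiableOn ℂ φ (HSt lo hi) := fun z hz => (hd z hz.1 hz.2).differentiableWithinAt
  have cφ : ContinuousOn φ (HSt lo hi) := hdo.continuousOn
  have hr : ∀ u : ℝ, 0 < u → (u : ℂ) ∈ HSt lo hi := fun u hu => ⟨by simpa using hu, by simpa using hlo, by simpa using hhi⟩
  have chp : Continuous γ := continuous_iff_continuousAt.2 fun t => (P.der t).continuousAt
  have hM' : ∀ u : ℝ, 0 < u → 0 ≤ M u := fun u hu =>
    (norm_nonneg _).trans (by simpa using hb (u : ℂ) (by simpa using hu) ⟨by simpa using hlo, by simpa using hhi⟩)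
  have hMc : IntegrableOn (fun u => M (c * u)) (Ioi 0) := by
    have := (integrableOn_Ioi_comp_mul_left_iff M 0 P.c_pos).2 (by rwa [mul_zero])
    exact this
  have c1 : ContinuousOn (fun u : ℝ => φ (γ u) * γ' u) (Ioi 0) := by
    refine ContinuousOn.mul (cφ.comp chp.continuousOn fun u hu => P.mem hu) P.cont.continuousOn
  have c2 : ContinuousOn (fun u : ℝ => φ (u : ℂ)) (Ioi 0) :=
    cφ.comp Complex.continuous_ofReal.continuousOn fun u hu => hr u hu
  have i1 : IntegrableOn (fun u : ℝ => φ (γ u) * γ' u) (Ioi 0) := by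
    refine Integrable.mono' (hMc.mul_const B) (c1.aestronglyMeasurable measurableSet_Ioi) ?_
    filter_upwards [ae_restrict_mem measurableSet_Ioi] with u hu
    rw [norm_mul]
    have hm := P.mem hu
    have e1 := hb (γ u) hm.1 hm.2
    have hcu : 0 < c * u := mul_pos P.c_pos hu
    have e2 : M (γ u).re ≤ M (c * u) := hMa hcu hm.1 (P.re_ge u (le_of_lt hu))
    exact mul_le_mul (e1.trans e2) (P.dle u) (norm_nonneg _) (hM' _ hcu)
  have i2 : IntegrableOn (fun u : ℝ => φ (u : ℂ)) (Ioi 0) := by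
    refine Integrable.mono' hM (c2.aestronglyMeasurable measurableSet_Ioi) ?_
    filter_upwards [ae_restrict_mem measurableSet_Ioi] with u hu
    have e1 := hb (u : ℂ) (by simpa using hu) ⟨by simpa using hlo, by simpa using hhi⟩
    simpa using e1
  refine ⟨i1, i2, ?_⟩
  obtain ⟨g, hg⟩ := (convex_HSt lo hi).exists_forall_hasDerivWithinAt hdo
  set G : ℝ → ℂ := fun u => g (γ u) - g (u : ℂ) with hG
  have hG0 : G 0 = 0 := by simp [hG, P.zero]
  have dG : ∀ u ∈ Ioi (0:ℝ), HasDerivAt G (φ (γ u) * γ' u - φ (u : ℂ)) u := by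
    intro u hu
    have h1 : HasDerivWithinAt (g ∘ γ) (γ' u • φ (γ u)) (Ioi 0) u :=
      (hg (γ u) (P.mem hu)).scomp u (P.der u).hasDerivWithinAt fun x hx => P.mem hx
    have h2 : HasDerivWithinAt (g ∘ fun u : ℝ => (u : ℂ)) ((1:ℂ) • φ (u : ℂ)) (Ioi 0) u := by
      have h3 : HasDerivAt (fun t : ℝ => (t : ℂ)) 1 u := Complex.ofRealCLM.hasDerivAt
      exact (hg (u : ℂ) (hr u hu)).scomp u h3.hasDerivWithinAt fun x hx => hr x hx
    have h4 := (h1.sub h2).hasDerivAt (Ioi_mem_nhds hu)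
    rw [smul_eq_mul, smul_eq_mul, one_mul, mul_comm] at h4
    exact h4
  have bG : ∀ u : ℝ, 0 < u → ‖G u‖ ≤ M (c * u) * ‖γ u - u‖ := by
    intro u hu
    have hcu : 0 < c * u := mul_pos P.c_pos hu
    have hcu' : c * u ≤ u := by nlinarith [P.c_le]
    set K : Set ℂ := {z | c * u ≤ z.re ∧ lo ≤ z.im ∧ z.im ≤ hi} with hK
    have hKs : K ⊆ HSt lo hi := fun z hz => ⟨lt_of_lt_of_le hcu hz.1, hz.2⟩
    have h1 := Convex.norm_image_sub_le_of_norm_hasDerivWithin_le (f := g) (f' := φ) (C := M (c * u))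
      (s := K) (x := (u : ℂ)) (y := γ u) (fun x hx => (hg x (hKs hx)).mono hKs)
      (fun x hx => by
        have e1 := hb x (hKs hx).1 (hKs hx).2
        exact e1.trans (hMa hcu (hKs hx).1 hx.1)) (convex_HSt' lo hi (c * u))
      ⟨by simpa using hcu', by simpa using hlo, by simpa using hhi⟩ ⟨P.re_ge u hu.le, P.im_le u⟩
    exact h1
  have t0 : ContinuousWithinAt G (Ici 0) 0 := by
    have h1 : Tendsto G (𝓝[>] 0) (𝓝 0) := by
      have h2 : Tendsto (fun u => (B + 1) / c * (M (c * u) * (c * u))) (𝓝[>] 0) (𝓝 0) := by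
        have h3 : Tendsto (fun u : ℝ => c * u) (𝓝[>] 0) (𝓝[>] 0) := by
          refine tendsto_nhdsWithin_iff.2 ⟨?_, ?_⟩
          · have : Tendsto (fun u : ℝ => c * u) (𝓝 0) (𝓝 (c * 0)) :=
              (continuous_const.mul continuous_id).tendsto 0
            rw [mul_zero] at this
            exact this.mono_left nhdsWithin_le_nhds
          · filter_upwards [self_mem_nhdsWithin] with u hu
            exact mul_pos P.c_pos hu
        simpa using (hM0.comp h3).const_mul ((B + 1) / c)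
      refine squeeze_zero_norm' ?_ h2
      filter_upwards [self_mem_nhdsWithin] with u hu
      have h3 := bG u hu
      have h4 := P.lin (le_of_lt hu)
      have hcu : 0 < c * u := mul_pos P.c_pos hu
      have hc := P.c_pos.ne'
      calc ‖G u‖ ≤ M (c * u) * ‖γ u - u‖ := h3
        _ ≤ M (c * u) * ((B + 1) * u) := mul_le_mul_of_nonneg_left h4 (hM' _ hcu)
        _ = _ := by field_simp
    have h5 : ContinuousWithinAt G (Ioi 0) 0 := by
      show Tendsto G (𝓝[>] 0) (𝓝 (G 0))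
      rw [hG0]
      exact h1
    exact continuousWithinAt_Ioi_iff_Ici.1 h5
  have t1 : Tendsto G atTop (𝓝 0) := by
    have h2 : Tendsto (fun u => M (c * u) * B) atTop (𝓝 0) := by
      have h3 : Tendsto (fun u : ℝ => c * u) atTop atTop := tendsto_id.const_mul_atTop P.c_pos
      simpa using (hM1.comp h3).mul_const B
    refine squeeze_zero_norm' ?_ h2
    filter_upwards [eventually_gt_atTop (0:ℝ)] with u hu
    exact (bG u hu).trans (mul_le_mul_of_nonneg_left (P.near u) (hM' _ (mul_pos P.c_pos hu)))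
  have key := integral_Ioi_of_hasDerivAt_of_tendsto t0 dG (i1.sub i2) t1
  rw [hG0, sub_zero, integral_sub i1 i2] at key
  exact sub_eq_zero.1 key


/-! ### paths -/

/-- admissible paths in the strip `lo ≤ Im z ≤ hi` -/
structure SPath (lo hi c B : ℝ) (ζ ζ' : ℝ → ℂ) : Prop where
  der : ∀ t, HasDerivAt ζ (ζ' t) t
  cont : Continuous ζ'
  im_ge : ∀ t, lo ≤ (ζ t).im
  im_le : ∀ t, (ζ t).im ≤ hi
  dle : ∀ t, ‖ζ' t‖ ≤ B
  c_pos : 0 < c
  c_le : c ≤ 1
  mono : ∀ s t, s ≤ t → c * (t - s) ≤ (ζ t - ζ s).re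
  near : ∀ t, ‖ζ t - t‖ ≤ B

/-- analytic with exponential decay in the strip -/
structure SDec (lo hi C κ : ℝ) (f : ℂ → ℂ) : Prop where
  diff : ∀ z : ℂ, lo ≤ z.im → z.im ≤ hi → DifferentiableAt ℂ f z
  bd : ∀ z : ℂ, lo ≤ z.im → z.im ≤ hi → ‖f z‖ ≤ C * Real.exp (-κ * |z.re|)

variable {C κ K : ℝ} {ζ ζ' : ℝ → ℂ} {f Φ : ℂ → ℂ}

lemma SPath.B0 (P : SPath lo hi c B ζ ζ') : 0 ≤ B := (norm_nonneg _).trans (P.dle 0)

lemma SPath.lo_hi (P : SPath lo hi c B ζ ζ') : lo ≤ hi := (P.im_ge 0).trans (P.im_le 0)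

lemma SPath.continuous (P : SPath lo hi c B ζ ζ') : Continuous ζ :=
  continuous_iff_continuousAt.2 fun t => (P.der t).continuousAt

lemma SPath.re_near (P : SPath lo hi c B ζ ζ') (t : ℝ) : |(ζ t).re - t| ≤ B := by
  have h1 := Complex.abs_re_le_norm (ζ t - t)
  simp only [Complex.sub_re, Complex.ofReal_re] at h1
  exact h1.trans (P.near t)

lemma SPath.re_ge (P : SPath lo hi c B ζ ζ') (t : ℝ) : |t| - B ≤ |(ζ t).re| := by
  have h1 := P.re_near t
  have h2 : |t| ≤ |(ζ t).re - t| + |(ζ t).re| := by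
    have := abs_add_le (t - (ζ t).re) (ζ t).re
    rw [abs_sub_comm t _] at this
    simpa using this
  linarith

lemma SPath.weaken (P : SPath lo hi c B ζ ζ') {lo' hi' : ℝ} (h1 : lo' ≤ lo) (h2 : hi ≤ hi') :
    SPath lo' hi' c B ζ ζ' :=
  { P with
    im_ge := fun t => h1.trans (P.im_ge t)
    im_le := fun t => (P.im_le t).trans h2 }

lemma SDec.C0 (h : SDec lo hi C κ f) (hl : lo ≤ hi) : 0 ≤ C := by
  have h1 := (norm_nonneg _).trans (h.bd ⟨0, lo⟩ le_rfl hl)
  simp at h1
  exact h1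

/-- the path moved down by `(lo + hi) / 2` -/
lemma SPath.cen (P : SPath lo hi c B ζ ζ') :
    NUAct.Path ((hi - lo) / 2) c (B + |(lo + hi) / 2|)
      (fun t => ζ t - (((lo + hi) / 2 : ℝ) : ℂ) * I) ζ' where
  der t := (P.der t).sub_const _
  cont := P.cont
  im_le t := by
    have h1 := P.im_ge t
    have h2 := P.im_le t
    simp only [Complex.sub_im, Complex.mul_im, Complex.ofReal_re, Complex.I_im, mul_one,
      Complex.ofReal_im, Complex.I_re, mul_zero, add_zero]
    rw [abs_le]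
    constructor <;> linarith
  dle t := (P.dle t).trans (by linarith [abs_nonneg ((lo + hi) / 2)])
  c_pos := P.c_pos
  c_le := P.c_le
  mono s t hst := by
    have := P.mono s t hst
    simpa using this
  near t := by
    rw [show ζ t - (((lo + hi) / 2 : ℝ) : ℂ) * I - t = (ζ t - t) - (((lo + hi) / 2 : ℝ) : ℂ) * I by ring]
    refine (norm_sub_le _ _).trans (add_le_add (P.near t) ?_)
    rw [norm_mul, Complex.norm_I, mul_one, Complex.norm_real, Real.norm_eq_abs]

lemma SDec.cen (h : SDec lo hi C κ f) :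
    NUAct.Dec ((hi - lo) / 2) C κ (fun z => f (z + (((lo + hi) / 2 : ℝ) : ℂ) * I)) := by
  have e1 : ∀ z : ℂ, |z.im| ≤ (hi - lo) / 2 →
      lo ≤ (z + (((lo + hi) / 2 : ℝ) : ℂ) * I).im ∧ (z + (((lo + hi) / 2 : ℝ) : ℂ) * I).im ≤ hi := by
    intro z hz
    rw [abs_le] at hz
    simp
    constructor <;> linarith
  have e2 : ∀ z : ℂ, (z + (((lo + hi) / 2 : ℝ) : ℂ) * I).re = z.re := by
    intro z
    simp
  refine ⟨fun z hz => ?_, fun z hz => ?_⟩
  · exact (h.diff _ (e1 z hz).1 (e1 z hz).2).comp z (differentiableAt_id.add_const _)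
  · have := h.bd _ (e1 z hz).1 (e1 z hz).2
    rwa [e2] at this

/-- `∫ f(ζ) dζ` in a strip -/
theorem SPath.shift (P : SPath lo hi c B ζ ζ') (hκ : 0 < κ) (h : SDec lo hi C κ f) :
    Integrable (fun t : ℝ => f (ζ t) * ζ' t) ∧
      Integrable (fun t : ℝ => f ((t : ℂ) + (((lo + hi) / 2 : ℝ) : ℂ) * I)) ∧
      ∫ t, f (ζ t) * ζ' t = ∫ t : ℝ, f ((t : ℂ) + (((lo + hi) / 2 : ℝ) : ℂ) * I) := by
  obtain ⟨i1, i2, e⟩ := NUAct.path_shift hκ h.cen P.cen
  simp only [sub_add_cancel] at i1 e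
  exact ⟨i1, i2, e⟩

/-- **two paths in the same strip** -/
theorem SPath.shift2 {c' B' : ℝ} {ξ ξ' : ℝ → ℂ} (P : SPath lo hi c B ζ ζ')
    (Q : SPath lo hi c' B' ξ ξ') (hκ : 0 < κ) (h : SDec lo hi C κ f) :
    ∫ t, f (ζ t) * ζ' t = ∫ t, f (ξ t) * ξ' t :=
  (P.shift hκ h).2.2.trans (Q.shift hκ h).2.2.symm

/-- horizontal lines -/
lemma hline {y : ℝ} (h1 : lo ≤ y) (h2 : y ≤ hi) :
    SPath lo hi 1 (1 + |y|) (fun t : ℝ => (t : ℂ) + y * I) (fun _ => 1) where
  der t := (Complex.ofRealCLM.hasDerivAt (x := t)).add_const _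
  cont := continuous_const
  im_ge t := by simpa using h1
  im_le t := by simpa using h2
  dle t := by rw [norm_one]; linarith [abs_nonneg y]
  c_pos := one_pos
  c_le := le_rfl
  mono s t _ := by simp
  near t := by
    rw [add_sub_cancel_left, norm_mul, Complex.norm_I, mul_one, Complex.norm_real,
      Real.norm_eq_abs]
    linarith

/-- the path seen from `ζ t`, to the right -/
lemma SPath.right (P : SPath lo hi c B ζ ζ') (t : ℝ) :
    HPath (lo - (ζ t).im) (hi - (ζ t).im) (2 * B) c (fun u => ζ (t + u) - ζ t)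
      (fun u => ζ' (t + u)) where
  der u := by
    have h1 := (P.der (t + u)).scomp u ((hasDerivAt_id u).const_add t)
    rw [one_smul] at h1
    exact h1.sub_const _
  cont := P.cont.comp (continuous_const.add continuous_id)
  zero := by simp
  im_le u := by
    rw [Complex.sub_im]
    have h1 := P.im_ge (t + u)
    have h2 := P.im_le (t + u)
    constructor <;> linarith
  dle u := (P.dle _).trans (by linarith [P.B0])
  c_pos := P.c_pos
  c_le := P.c_le
  re_ge u hu := by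
    have := P.mono t (t + u) (by linarith)
    simpa using this
  near u := by
    have e : ζ (t + u) - ζ t - u = (ζ (t + u) - ((t + u : ℝ) : ℂ)) - (ζ t - t) := by
      push_cast; ring
    rw [e]
    refine (norm_sub_le _ _).trans ?_
    linarith [P.near (t + u), P.near t]

/-- the path seen from `ζ t`, to the left -/
lemma SPath.left (P : SPath lo hi c B ζ ζ') (t : ℝ) :
    HPath ((ζ t).im - hi) ((ζ t).im - lo) (2 * B) c (fun u => ζ t - ζ (t - u))
      (fun u => ζ' (t - u)) where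
  der u := by
    have h1 := (P.der (t - u)).scomp u ((hasDerivAt_id u).const_sub t)
    have h2 := h1.const_sub (ζ t)
    simp only [neg_smul, one_smul, neg_neg] at h2
    exact h2
  cont := P.cont.comp (continuous_const.sub continuous_id)
  zero := by simp
  im_le u := by
    rw [Complex.sub_im]
    have h1 := P.im_ge (t - u)
    have h2 := P.im_le (t - u)
    constructor <;> linarith
  dle u := (P.dle _).trans (by linarith [P.B0])
  c_pos := P.c_pos
  c_le := P.c_le
  re_ge u hu := by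
    have := P.mono (t - u) t (by linarith)
    simpa using this
  near u := by
    have e : ζ t - ζ (t - u) - u = (ζ t - t) - (ζ (t - u) - ((t - u : ℝ) : ℂ)) := by
      push_cast; ring
    rw [e]
    refine (norm_sub_le _ _).trans ?_
    linarith [P.near (t - u), P.near t]

/-! ### singular kernels -/

lemma right_bound {d : ℝ} (hκ : 0 < κ) (hC : 0 ≤ C) (hΦ : NUAct.Kern d K Φ) {z0 z w : ℂ}
    (h1 : 0 < z.re) (h2 : |z.im| ≤ d) (hw : ‖f w‖ ≤ C * Real.exp (-κ * |w.re|))
    (hwr : z.re - |z0.re| ≤ |w.re|) :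
    ‖f w * Φ z‖ ≤ Mj (C * Real.exp (κ * |z0.re|) * K * (2 + 4 / κ)) (κ / 2) z.re := by
  rw [norm_mul]
  have a2 : Real.exp (-κ * |w.re|) ≤ Real.exp (κ * |z0.re|) * Real.exp (-κ * z.re) := by
    rw [← Real.exp_add]
    refine Real.exp_le_exp.2 ?_
    nlinarith
  have a3 := hΦ.bd z h1 h2
  have a4 := gr_le h1 hκ
  have hK := hΦ.K0
  have hg := gr_nonneg h1
  calc ‖f w‖ * ‖Φ z‖ ≤ (C * (Real.exp (κ * |z0.re|) * Real.exp (-κ * z.re))) * (K * gr z.re) := by
        refine mul_le_mul (hw.trans (mul_le_mul_of_nonneg_left a2 hC)) a3 (norm_nonneg _)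
          (by positivity)
    _ = (C * Real.exp (κ * |z0.re|) * K) * (gr z.re * Real.exp (-κ * z.re)) := by ring
    _ ≤ (C * Real.exp (κ * |z0.re|) * K) * Mj (2 + 4 / κ) (κ / 2) z.re := by gcongr
    _ = _ := by unfold Mj; ring

/-- **deformation with a singular kernel, in a strip** -/
theorem sing_shift {d : ℝ} (hκ : 0 < κ) (hf : SDec lo hi C κ f) (hd : hi - lo ≤ d)
    (hΦ : NUAct.Kern d K Φ) (P : SPath lo hi c B ζ ζ') (t : ℝ) :
    Integrable (fun t' => f (ζ t') * ζ' t' * Up Φ ζ t t') ∧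
    IntegrableOn (fun u : ℝ => f (ζ t + u) * Φ u) (Ioi 0) ∧
    IntegrableOn (fun u : ℝ => f (ζ t - u) * Φ u) (Ioi 0) ∧
    ∫ t', f (ζ t') * ζ' t' * Up Φ ζ t t' =
      (∫ u in Ioi (0:ℝ), f (ζ t + u) * Φ u) + ∫ u in Ioi (0:ℝ), f (ζ t - u) * Φ u := by
  have hC : 0 ≤ C := hf.C0 P.lo_hi
  obtain ⟨z0, hz0⟩ : ∃ z0, z0 = ζ t := ⟨_, rfl⟩
  have g1 : lo ≤ z0.im := hz0 ▸ P.im_ge t
  have g2 : z0.im ≤ hi := hz0 ▸ P.im_le t
  have PR := P.right t
  have PL := P.left t
  rw [← hz0] at PR PL ⊢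
  set C' := C * Real.exp (κ * |z0.re|) * K * (2 + 4 / κ) with hC'
  have hK := hΦ.K0
  have hC'0 : 0 ≤ C' := by positivity
  have hκ2 : 0 < κ / 2 := by positivity
  -- the right half
  have R := half_shift (φ := fun z => f (z0 + z) * Φ z) (M := Mj C' (κ / 2))
    (lo := lo - z0.im) (hi := hi - z0.im) (by linarith) (by linarith)
    (fun z h1 h2 => by
      refine DifferentiableAt.mul ?_ (hΦ.diff z h1 (abs_le.2 ⟨by linarith [h2.1], by linarith [h2.2]⟩))
      refine (hf.diff _ ?_ ?_).comp z ((differentiableAt_const _).add differentiableAt_id)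
      · rw [Complex.add_im]; linarith [h2.1]
      · rw [Complex.add_im]; linarith [h2.2])
    (fun z h1 h2 => by
      refine right_bound hκ hC hΦ h1 (abs_le.2 ⟨by linarith [h2.1], by linarith [h2.2]⟩)
        (hf.bd _ ?_ ?_) ?_
      · rw [Complex.add_im]; linarith [h2.1]
      · rw [Complex.add_im]; linarith [h2.2]
      · rw [Complex.add_re]
        have a1 : z.re ≤ |z.re| := le_abs_self _
        have a2 : |z.re| ≤ |z0.re + z.re| + |z0.re| := by
          have := abs_sub (z0.re + z.re) z0.re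
          simpa using this
        linarith)
    (Mj_anti hC'0 hκ2.le) (Mj_int hκ2) Mj_zero (Mj_top hκ2) PR
  have L := half_shift (φ := fun z => f (z0 - z) * Φ z) (M := Mj C' (κ / 2))
    (lo := z0.im - hi) (hi := z0.im - lo) (by linarith) (by linarith)
    (fun z h1 h2 => by
      refine DifferentiableAt.mul ?_ (hΦ.diff z h1 (abs_le.2 ⟨by linarith [h2.1], by linarith [h2.2]⟩))
      refine (hf.diff _ ?_ ?_).comp z ((differentiableAt_const _).sub differentiableAt_id)
      · rw [Complex.sub_im]; linarith [h2.2]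
      · rw [Complex.sub_im]; linarith [h2.1])
    (fun z h1 h2 => by
      refine right_bound hκ hC hΦ h1 (abs_le.2 ⟨by linarith [h2.1], by linarith [h2.2]⟩)
        (hf.bd _ ?_ ?_) ?_
      · rw [Complex.sub_im]; linarith [h2.2]
      · rw [Complex.sub_im]; linarith [h2.1]
      · rw [Complex.sub_re]
        have a1 : z.re ≤ |z.re| := le_abs_self _
        have a2 : |z.re| ≤ |z0.re - z.re| + |z0.re| := by
          have := abs_sub z0.re (z0.re - z.re)
          have e : z0.re - (z0.re - z.re) = z.re := by ring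
          rw [e] at this
          linarith
        linarith)
    (Mj_anti hC'0 hκ2.le) (Mj_int hκ2) Mj_zero (Mj_top hκ2) PL
  beta_reduce at R L
  obtain ⟨r1, r2, r3⟩ := R
  obtain ⟨l1, l2, l3⟩ := L
  -- the two halves of the integral
  set g : ℝ → ℂ := fun t' => f (ζ t') * ζ' t' * Up Φ ζ t t' with hg
  have er : ∀ u ∈ Ioi (0:ℝ), g (t + u) =
      f (z0 + (ζ (t + u) - z0)) * Φ (ζ (t + u) - z0) * ζ' (t + u) := by
    intro u hu
    have hu' : (0:ℝ) < u := hu
    rw [hg]
    simp only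
    rw [Up_of_le (by linarith), ← hz0]
    rw [show z0 + (ζ (t + u) - z0) = ζ (t + u) by ring]
    ring
  have el : ∀ u ∈ Ioi (0:ℝ), g (t - u) =
      f (z0 - (z0 - ζ (t - u))) * Φ (z0 - ζ (t - u)) * ζ' (t - u) := by
    intro u hu
    have hu' : (0:ℝ) < u := hu
    rw [hg]
    simp only
    rw [Up_of_lt (by linarith), ← hz0]
    rw [show z0 - (z0 - ζ (t - u)) = ζ (t - u) by ring]
    ring
  have ir : IntegrableOn (fun u => g (t + u)) (Ioi 0) :=
    r1.congr_fun (fun u hu => (er u hu).symm) measurableSet_Ioi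
  have il : IntegrableOn (fun u => g (t - u)) (Ioi 0) :=
    l1.congr_fun (fun u hu => (el u hu).symm) measurableSet_Ioi
  have ir' : IntegrableOn g (Ioi t) := by
    have e1 : MeasurePreserving (fun u : ℝ => t + u) := measurePreserving_add_left volume t
    have e2 : MeasurableEmbedding (fun u : ℝ => t + u) := (Homeomorph.addLeft t).measurableEmbedding
    have h1 := e1.integrableOn_comp_preimage e2 (f := g) (s := Ioi t)
    have h2 : (fun u : ℝ => t + u) ⁻¹' Ioi t = Ioi 0 := by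
      ext u
      simp
    rw [h2] at h1
    exact h1.1 ir
  have il' : IntegrableOn g (Iio t) := by
    have e1 : MeasurePreserving (fun u : ℝ => t - u) := mp_sub t
    have e2 : MeasurableEmbedding (fun u : ℝ => t - u) := (Homeomorph.subLeft t).measurableEmbedding
    have h1 := e1.integrableOn_comp_preimage e2 (f := g) (s := Iio t)
    have h2 : (fun u : ℝ => t - u) ⁻¹' Iio t = Ioi 0 := by
      ext u
      simp
    rw [h2] at h1
    exact h1.1 il
  have vr : ∫ t' in Ioi t, g t' = ∫ u in Ioi (0:ℝ), f (z0 + u) * Φ u := by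
    rw [← r3]
    have e1 : MeasurePreserving (fun u : ℝ => t + u) := measurePreserving_add_left volume t
    have e2 : MeasurableEmbedding (fun u : ℝ => t + u) := (Homeomorph.addLeft t).measurableEmbedding
    have h1 := e1.setIntegral_preimage_emb e2 g (Ioi t)
    have h2 : (fun u : ℝ => t + u) ⁻¹' Ioi t = Ioi 0 := by
      ext u
      simp
    rw [h2] at h1
    rw [← h1]
    exact setIntegral_congr_fun measurableSet_Ioi er
  have vl : ∫ t' in Iio t, g t' = ∫ u in Ioi (0:ℝ), f (z0 - u) * Φ u := by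
    rw [← l3]
    have e1 : MeasurePreserving (fun u : ℝ => t - u) := mp_sub t
    have e2 : MeasurableEmbedding (fun u : ℝ => t - u) := (Homeomorph.subLeft t).measurableEmbedding
    have h1 := e1.setIntegral_preimage_emb e2 g (Iio t)
    have h2 : (fun u : ℝ => t - u) ⁻¹' Iio t = Ioi 0 := by
      ext u
      simp
    rw [h2] at h1
    rw [← h1]
    exact setIntegral_congr_fun measurableSet_Ioi el
  have il'' : IntegrableOn g (Iic t) := by
    rw [integrableOn_Iic_iff_integrableOn_Iio]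
    exact il'
  have ig : Integrable g := by
    have := il''.union ir'
    rwa [Iic_union_Ioi, integrableOn_univ] at this
  refine ⟨ig, r2, l2, ?_⟩
  rw [← intervalIntegral.integral_Iic_add_Ioi il'' ir', integral_Iic_eq_integral_Iio, vl, vr, add_comm]

end PLT.Cv
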