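import Pool.Agent.PLT.CurD
import Pool.Agent.NUO.Conf
import Pool.Agent.NUO.ActInt
import Pool.Agent.NUCR.SumN

/-!
# Sea on a curve: the sum over the configurations and over the numbers of quanta, one class

Curves: complex displacements in the strip of the offsets `lo .. hi` (`CurC lo hi`), `lo ≤ 0 ≤ hi`.

* **`glue_genC`**: `R4genC` and `PerGC` with the prefactor `Q` give
  `∑ n ≤ N, ‖Z n‖ ≤ 4 (1 + 1 / d) Q exp (δ L)`; **`glue_classC`**;
* `perGC_marks`: the sum over a marked object.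
-/

set_option autoImplicit false

noncomputable section

open MeasureTheory Finset
open scoped ENNReal

namespace PLT

open NUO NUP1 NUCR NUGC.PLX PHK

/-- **the bound of one class**, general terms -/
theorem glue_genC {C c b c1 c' : ℝ} {k : ℕ} (hC : 0 < C) (hc : 0 < c) (hb : 0 < b) (hc1 : 0 < c1)
    (hc' : 0 ≤ c') {δ : ℝ} (hδ : 0 < δ) :
    ∃ a0 : ℝ, 0 < a0 ∧ ∀ C' : ℝ, 0 ≤ C' → ∃ L0 : ℝ, ∀ L ≥ L0, ∀ ep : ℝ, 0 ≤ ep → ep ≤ 1 / 4 →
      ∀ e1 : ℝ, 0 < e1 → e1 ≤ 1 / 4 → ∀ J : ℝ, 0 ≤ J →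
      Real.exp (-(2 * Real.pi * J)) + 3 * e1 + 3 * ep ≤ a0 →
      ∀ (lo hi ν d Q : ℝ) (N a : ℕ) (T : TermC) (Z : ℕ → ℂ), lo ≤ 0 → 0 ≤ hi → 0 < d → 0 ≤ Q →
      ((2 * (2 * N + a) + 1 : ℕ) : ℝ) ≤ Real.exp (2 * L) → R4genC lo hi a T Z →
      PerGC C C' c b k c1 c' L ep e1 J ν d N a lo hi T Q →
      ∑ n ∈ range (N + 1), ‖Z n‖ ≤ 4 * (1 + 1 / d) * (Q * Real.exp (δ * L)) := by
  obtain ⟨a0, ha0, h⟩ := conf_sum (C := C) (c := c) (b := b) (k := k) hC hc1 hc' hδ
  refine ⟨a0, ha0, fun C' hC' => ?_⟩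
  obtain ⟨D, L0, -, h⟩ := h C' hC' (actInt hC.le hC' hc hb k)
  refine ⟨L0, fun L hL ep hep hep' e1 he1 he1' J hJ hsm lo hi ν d Q N a T Z hlo hhi hd hQ hN hR
    hP => ?_⟩
  have hone : ∀ n ≤ N, ∀ b' : ℝ, b' = d ∨ b' = -d →
      Real.exp (b' * (ν - n)) * ‖Z n‖ ≤ Q * Real.exp (δ * L) := by
    intro n hn b' hb'
    have hP' := hP n hn b' hb'
    -- curves for all configurations
    choose! η η' hcur hbd using hP'
    set ηt : (r : ℕ) → (Fin r → Xo) → Bool → ℝ → ℂ := fun r O =>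
      if r ≤ 2 * (2 * n + a) then η r O else fun _ _ => 0 with hηt
    set ηt' : (r : ℕ) → (Fin r → Xo) → Bool → ℝ → ℂ := fun r O =>
      if r ≤ 2 * (2 * n + a) then η' r O else fun _ _ => 0 with hηt'
    have hc0 : ∀ (r : ℕ) (O : Fin r → Xo), CurC lo hi (ηt r O) (ηt' r O) := by
      intro r O
      simp only [hηt, hηt']
      split_ifs with hr
      · exact hcur r hr O
      · exact curC_zero hlo hhi
    have h1 := hR ηt ηt' hc0 n
    have key : ENNReal.ofReal (Real.exp (b' * (ν - n))) * ‖Z n‖ₑ ≤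
        ENNReal.ofReal (Q * Real.exp (δ * L)) := by
      calc ENNReal.ofReal (Real.exp (b' * (ν - n))) * ‖Z n‖ₑ
          ≤ ENNReal.ofReal (Real.exp (b' * (ν - n))) * ∑ r ∈ range (2 * (2 * n + a) + 1),
            ((r.factorial : ℝ≥0∞))⁻¹ * ∫⁻ O : Fin r → Xo,
              T n r O (ηt r O) (ηt' r O) ∂(Measure.pi fun _ => nu) :=
            mul_le_mul_right h1 _
        _ = ∑ r ∈ range (2 * (2 * n + a) + 1), ((r.factorial : ℕ) : ℝ≥0∞)⁻¹ *
            ∫⁻ O : Fin r → Xo, ENNReal.ofReal (Real.exp (b' * (ν - n))) *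
              T n r O (ηt r O) (ηt' r O) ∂(Measure.pi fun _ => nu) := by
            rw [Finset.mul_sum]
            refine Finset.sum_congr rfl fun r _ => ?_
            rw [lintegral_const_mul' _ _ ENNReal.ofReal_ne_top]
            ring
        _ ≤ ENNReal.ofReal (Q * Real.exp (δ * L)) := by
            refine h L hL ep hep hep' e1 he1 he1' J hJ hsm Q hQ (2 * (2 * n + a) + 1) ?_
              (fun r O => ENNReal.ofReal (Real.exp (b' * (ν - n))) *
                T n r O (ηt r O) (ηt' r O)) ?_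
            · refine le_trans ?_ hN
              exact_mod_cast (by omega : 2 * (2 * n + a) + 1 ≤ 2 * (2 * N + a) + 1)
            · intro r hr O
              have hr' : r ≤ 2 * (2 * n + a) := Nat.lt_succ_iff.1 hr
              have h2 := hbd r hr' O (WZ D L r)
              simp only [hηt, hηt', if_pos hr']
              refine h2.trans (ENNReal.ofReal_le_ofReal (le_of_eq ?_))
              have e1 : Q * (if (r : ℝ) ≤ L then 1 else Real.exp (c' * L)) =
                  if (r : ℝ) ≤ L then Q else Q * Real.exp (c' * L) := by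
                split_ifs
                · rw [mul_one]
                · rfl
              rw [e1]
              rfl
    rw [← ofReal_norm, ← ENNReal.ofReal_mul (Real.exp_pos _).le] at key
    exact (ENNReal.ofReal_le_ofReal_iff (by positivity)).1 key
  have h1 := NUCR.sum_n_le (b := 0) (d := d) (s := ν) (Q := Q * Real.exp (δ * L)) hd
    (by positivity) (fun n => ‖Z n‖) (N + 1)
    (fun n hn => by
      have := hone n (by omega) d (Or.inl rfl)
      simpa using this)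
    (fun n hn => by
      have := hone n (by omega) (-d) (Or.inr rfl)
      simpa using this)
  simpa using h1

/-- **the sum over the marks**: if every marked term satisfies the bound, the sum over the marks does,
with twice the activity -/
theorem perGC_marks {lo hi C C' c b : ℝ} {k : ℕ} {c1 c' L ep e1 J ν d : ℝ} {N a : ℕ} {Q : ℝ}
    (hC : 0 ≤ C) (hC' : 0 ≤ C') (hL : 0 ≤ L) (hQ : 0 ≤ Q)
    (T : (r : ℕ) → (Fin r → Xo) → Fin r → ℕ → (Bool → ℝ → ℂ) → (Bool → ℝ → ℂ) → ℝ≥0∞)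
    (h : ∀ n ≤ N, ∀ b' : ℝ, b' = d ∨ b' = -d → ∀ r ≤ 2 * (2 * n + a), ∀ O : Fin r → Xo,
      ∃ η η' : Bool → ℝ → ℂ, CurC lo hi η η' ∧ ∀ (i : Fin r) (W : Finset ℤ),
        ENNReal.ofReal (Real.exp (b' * (ν - n))) * T r O i n η η' ≤
          ENNReal.ofReal (Q * (if (r : ℝ) ≤ L then 1 else Real.exp (c' * L)) *
            (∏ i, act C C' c b k L ep e1 J r (ht (O i))) *
            Real.exp (-(c1 * ∑ w ∈ W, (cO O w : ℝ) ^ 2)))) :
    PerGC (2 * C) C' c b k c1 c' L ep e1 J ν d N a lo hi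
      (fun n r O η η' => ∑ i : Fin r, T r O i n η η') Q := by
  intro n hn b' hb' r hr O
  obtain ⟨η, η', hcur, h⟩ := h n hn b' hb' r hr O
  refine ⟨η, η', hcur, fun W => ?_⟩
  have hact0 : 0 ≤ ∏ i, act C C' c b k L ep e1 J r (ht (O i)) :=
    prod_nonneg fun i _ => act_nonneg hC hC' hL
  set IF : ℝ := if (r : ℝ) ≤ L then 1 else Real.exp (c' * L) with hIF
  have hIF0 : 0 ≤ IF := by
    rw [hIF]
    split_ifs
    · exact zero_le_one
    · exact (Real.exp_pos _).le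
  set A : ℝ := ∏ i, act C C' c b k L ep e1 J r (ht (O i)) with hA
  set E : ℝ := Real.exp (-(c1 * ∑ w ∈ W, (cO O w : ℝ) ^ 2)) with hE
  have hE0 : 0 ≤ E := (Real.exp_pos _).le
  have h2 : ∏ i, act (2 * C) C' c b k L ep e1 J r (ht (O i)) = 2 ^ r * A := by
    have e1 : ∀ i : Fin r, act (2 * C) C' c b k L ep e1 J r (ht (O i)) =
        2 * act C C' c b k L ep e1 J r (ht (O i)) := by
      intro i
      unfold act
      ring
    rw [prod_congr rfl fun i _ => e1 i, prod_mul_distrib, prod_const, card_univ, Fintype.card_fin]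
  rw [h2]
  calc ENNReal.ofReal (Real.exp (b' * (ν - n))) * ∑ i : Fin r, T r O i n η η'
      = ∑ i : Fin r, ENNReal.ofReal (Real.exp (b' * (ν - n))) * T r O i n η η' := by
        rw [Finset.mul_sum]
    _ ≤ ∑ _i : Fin r, ENNReal.ofReal (Q * IF * A * E) := sum_le_sum fun i _ => h i W
    _ = ENNReal.ofReal (r * (Q * IF * A * E)) := by
        rw [sum_const, card_univ, Fintype.card_fin, nsmul_eq_mul,
          ENNReal.ofReal_mul (Nat.cast_nonneg _), ENNReal.ofReal_natCast]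
    _ ≤ _ := by
        refine ENNReal.ofReal_le_ofReal ?_
        have h3 : (r : ℝ) ≤ 2 ^ r := by
          exact_mod_cast (Nat.lt_two_pow_self).le
        calc (r : ℝ) * (Q * IF * A * E) ≤ 2 ^ r * (Q * IF * A * E) :=
              mul_le_mul_of_nonneg_right h3 (by positivity)
          _ = Q * IF * (2 ^ r * A) * E := by ring

/-- **the bound of one class** -/
theorem glue_classC {C c b c1 c' : ℝ} {k : ℕ} (hC : 0 < C) (hc : 0 < c) (hb : 0 < b)
    (hc1 : 0 < c1) (hc' : 0 ≤ c') {δ : ℝ} (hδ : 0 < δ) :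
    ∃ a0 : ℝ, 0 < a0 ∧ ∀ C' : ℝ, 0 ≤ C' → ∃ L0 : ℝ, ∀ L ≥ L0, ∀ ep : ℝ, 0 ≤ ep → ep ≤ 1 / 4 →
      ∀ e1 : ℝ, 0 < e1 → e1 ≤ 1 / 4 → ∀ J : ℝ, 0 ≤ J →
      Real.exp (-(2 * Real.pi * J)) + 3 * e1 + 3 * ep ≤ a0 →
      ∀ (lo hi ν d Q : ℝ) (N aX aY : ℕ) (B : OB) (P : Par6) (Z : ℕ → ℂ), lo ≤ 0 → 0 ≤ hi →
      0 < d → 0 ≤ Q →
      ((2 * (2 * N + (aX + aY)) + 1 : ℕ) : ℝ) ≤ Real.exp (2 * L) → R4CofC lo hi B P aX aY Z →
      PerCofC C C' c b k c1 c' L ep e1 J ν d N lo hi B P aX aY Q →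
      ∑ n ∈ range (N + 1), ‖Z n‖ ≤ 4 * (1 + 1 / d) * (Q * Real.exp (δ * L)) := by
  obtain ⟨a0, ha0, h⟩ := glue_genC (k := k) hC hc hb hc1 hc' hδ
  refine ⟨a0, ha0, fun C' hC' => ?_⟩
  obtain ⟨L0, h⟩ := h C' hC'
  exact ⟨L0, fun L hL ep hep hep' e1 he1 he1' J hJ hsm lo hi ν d Q N aX aY B P Z hlo hhi hd hQ hN
    hR hP => h L hL ep hep hep' e1 he1 he1' J hJ hsm lo hi ν d Q N (aX + aY) _ Z hlo hhi hd hQ hN
      hR hP⟩

end PLT

end
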