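import Pool.Agent.PLT.CutSupL
import Pool.Agent.PLT.FamWI

/-!
# The supremum over the perturbations at every index of the block S-W

* **`SupW h0 e0`**: at every index (rows on the imaginary axis at heights at most `h0`, leg at the height `τ`,
  `|τ| ≤ e0 log m`) there are admissible curves for which the absolute functional of every perturbation of the one body
  data of the dislocated function is at most `m ^ δ exp (2 |τ|)`;
* **`supW_of`**: from the gas theorem, the environment, stability, the data of the one body functions and the value of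
  the family (`famLC xIx zIx S`).
-/

set_option autoImplicit false
set_option linter.unusedSectionVars false

noncomputable section

open Complex MeasureTheory Finset Filter Topology
open scoped ENNReal

open PLX (Fil Ends)

namespace PLT.SW

open NUO NUP1 NUCR NUP1S NUP1S.Ab NUP1S.AbC NUGC NUGC.PLX PBFunc PBFunc.PLX PBF PBF.PLX PBE PBE.PLX
open PHK
open PBU.PLX (T1L)
open PBLX.PLX (SmallP)
open PBForce (Rws0)
open Pool.Agent.PLX (rwq yq)
open Pool.Agent.PB (Pf)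
open PLT.MI PLT.FI

variable [Fil]

/-- **the supremum over the perturbations at every index** -/
def SupW (h0 e0 : ℝ) : Prop :=
  ∀ CM : ℝ, 0 ≤ CM → ∀ δ : ℝ, 0 < δ → ∃ a0 : ℝ, 0 < a0 ∧ ∀ ep e1 J : ℝ, SmallP a0 ep e1 J →
    ∀ᶠ m : ℕ in atTop, ∀ x : Fin m → ℂ, (∀ k, (x k).re = 0 ∧ |(x k).im| ≤ h0) →
      ∀ τ : ℝ, |τ| ≤ e0 * Real.log m → ∃ η η' : Crs, CrsB ep η η' ∧
        ∀ (Z : Bool → Option O3 → ℂ → ℂ) (r' : Bool → ℂ → ℝ) (δ₀ : ℝ) (M : Bool → ℝ → ℝ)
          (κ x0 : ℝ) (Qc : ℤ) (E : Set ℝ),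
        0 ≤ δ₀ → δ₀ ≤ 1 / (m : ℝ) → RE6 r' δ₀ → (∀ a t, 0 ≤ M a t) →
        (∀ a t, Real.exp (∑ j, NUMF.Ag (1 / 2) (t - (rwq x a j).im)) * M a t ≤
          CM * NUO.cut m (4 / 3 * (1 - ep)) t) →
        OneC6 Z (obE6 (obLC (T1L m) x (4 / 3 * (1 - ep)) (I * τ)) r' M) par6 ep κ x0 Qc E →
        ∑ n ∈ range (2 * m + 1), ‖Pf (I * τ) x (yq x)‖ₑ *
            FA6 Z par6 n (n + dN (2 * m)) η η' (fun _ _ _ _ _ => 1) ≤
          ENNReal.ofReal ((m : ℝ) ^ δ * Real.exp (2 * |τ|))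

omit [Fil] in
/-- the window of a straight curve -/
theorem winC_straight [X : SeaC] (h : ∀ t, Cv.eta t = 0) : WinC (-(0 * NUP1.l)) (0 * NUP1.l) := by
  constructor
  · simp
  · simp
  · intro t
    rw [h]
    simp
  · intro t
    rw [h]
    simp

/-- the content of the indices -/
theorem cntL_ix {SB : SeaCB} {S : ℕ → IxW → SeaC} {h0 e0 : ℝ} (hS : SeaIx SB S h0 e0) :
    CntL SB xIx zIx S (okIx h0 e0) 0 0 where
  lo1 := by norm_num
  hi1 := by norm_num
  row m i _ k := by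
    have hl := Bd.l_pos
    unfold xIx
    simp
    positivity
  z1 m i _ := by
    have hl := Bd.l_pos
    unfold zIx
    simp
    linarith
  z2 m i _ := by
    have hl := Bd.l_pos
    unfold zIx
    simp
    linarith
  sea := hS.sea
  win m i h := @winC_straight (S m i) (hS.eta m i h)

/-- **the supremum over the perturbations at every index** from the inputs of the family -/
theorem supW_of {SB : SeaCB} {S : ℕ → IxW → SeaC} {h0 e0 : ℝ} (hh : h0 ≤ 1) (hS : SeaIx SB S h0 e0)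
    [Ends] (he : Ends.e = 0) (ho : Ends.o = 0) (hP : GoodP6 par6) {en : EnC}
    {lin : ℝ → ℝ → ℕ → IxW → ℝ} {pT : ℕ → IxW → Bool → ℝ → ℝ} (hM : S4MC SB par6 en)
    (hE : EnvFC (famLC xIx zIx S (okIx h0 e0) (-(0 * NUP1.l)) (0 * NUP1.l)) S (BLC xIx zIx) lin)
    (hSt : StabF (famLC xIx zIx S (okIx h0 e0) (-(0 * NUP1.l)) (0 * NUP1.l)) par6 fun m i => en (S m i))
    (hD : DatF (famLC xIx zIx S (okIx h0 e0) (-(0 * NUP1.l)) (0 * NUP1.l)) par6 (BLC xIx zIx) S pT)
    (hpT : ∀ m i, okIx h0 e0 m i → ∀ a t,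
      pT m i a t ≤ ∑ j, NUMF.Ag (1 / 2) (t - (rwq (xIx m i) a j).im))
    (hV : ValF (famLC xIx zIx S (okIx h0 e0) (-(0 * NUP1.l)) (0 * NUP1.l)) lin) : SupW h0 e0 := by
  intro CM hCM δ hδ
  have hdc : ∀ m i, okIx h0 e0 m i → Integrable fun t : ℝ => @Cv.Pc (S m i) t := by
    intro m i hi
    have hR : Rws0 (xIx m i) := by
      constructor
      · intro k
        simp [xIx]
      · intro k
        have h := hi.2.1 k.1 k.2
        simpa [xIx] using h.trans hh
    have h := (rhA_int hi.1 hR).const_mul ((m : ℂ)⁻¹)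
    refine h.congr (Filter.Eventually.of_forall fun t => ?_)
    have hm : (m : ℂ) ≠ 0 := Nat.cast_ne_zero.2 hi.1.ne'
    show (m : ℂ)⁻¹ * rhA (xIx m i) t = _
    rw [← hS.den m i hi t, ← mul_assoc, inv_mul_cancel₀ hm, one_mul]
  obtain ⟨a0, ha0, H⟩ := cutSup_L he ho hP (cntL_ix hS) hM hE hSt hD hV hdc hCM hδ
  refine ⟨a0, ha0, fun ep e1 J hp => ?_⟩
  obtain ⟨m0, H⟩ := H ep hp.ep0 hp.ep1 e1 hp.e0 J hp.J0 hp.sm
  obtain ⟨m1, -, Hc⟩ := curB_etaC hp.e0 hp.e1' hp.J0 hp.ep0 SB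
  filter_upwards [eventually_ge_atTop m0, eventually_ge_atTop m1, eventually_ge_atTop 1]
    with m j1 j2 j3 x hx τ hτ
  have hm : 0 < m := j3
  have hok : okIx h0 e0 m (ixOf x τ) := okIx_of hm (fun k => (hx k).2) hτ
  have hxi : xIx m (ixOf x τ) = x := xIx_of (fun k => (hx k).1) τ
  have hcur := @Hc (S m (ixOf x τ)) (hS.sea m _ hok) m j2
  have hη0 := hS.eta m _ hok
  refine ⟨_, _, CrsB.of hcur, fun Z r' δ₀ M κ x0 Qc E g0 g1 hr hM0 hM1 hcl => ?_⟩
  have hz : zIx (ixOf x τ) = I * (τ : ℂ) := rfl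
  have key := H m j1 (ixOf x τ) hok (@Cv.etaC (S m (ixOf x τ)) e1 J m m)
    (@Cv.etaC' (S m (ixOf x τ)) e1 J m m) (@dsp_straight _ (S m (ixOf x τ)) hη0 _)
    (@dsp1_straight _ (S m (ixOf x τ)) hη0 _ _) Z r' δ₀ M κ x0 Qc E g0 g1 hr hM0
    (fun a t => by
      refine le_trans (mul_le_mul_of_nonneg_right (Real.exp_le_exp.2 (hpT m _ hok a t)) (hM0 a t)) ?_
      rw [hxi]
      exact hM1 a t)
    (by rw [hxi, hz]; exact hcl)
  rw [hxi, hz, ← dN_xe he ho m] at key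
  have e : |(I * (τ : ℂ)).im| = |τ| := by simp
  rw [e] at key
  exact key

end PLT.SW

end
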