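import Pool.Agent.PLT.Link8
import Pool.Agent.PLT.Green

/-!
# Exactness of the two lines (helper64)

* `NW d r`: no pole of `cosh ((4 - m8 (r + v)) z)` for `0 < v < d`; `cosh_nw`;
* **`DV_swept`**: objects against a quantum at offset `v ∈ [0, d]` = swept value on the lines `0` and `d`;
  **`DV_AA_false`**, **`DV_AA_true`**: two quanta at `v, w ∈ [0, d]`; the own one has the Green function `4 sinh (4 z) G`.
* `DV_swept_from`, `DV_AA_from`: the same with the lines at `u` and `u + d`; **`DV_swept_pt`**, **`DV_AAf_pt`**,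
  **`DV_AAt_pt`**: the lines `a0 / m`, `a / m` of a point of the lattice, condition `nwz` (decidable).
-/

set_option autoImplicit false

namespace PLT

open Finset Set PHK NUP1 NUO NUDispO Pool.Agent.NUM3

/-! ### exactness -/

/-- no pole of `cosh ((4 - m8 (r + v)) z)` for `0 < v < d` -/
def NW (d r : ℝ) : Prop := m8 r + d ≤ 8

lemma m8_add {r v : ℝ} (h0 : 0 ≤ v) (h : m8 r + v < 8) : m8 (r + v) = m8 r + v := by
  unfold m8 at h ⊢
  have h1 := Int.fract_nonneg (r / 8)
  have e : (r + v) / 8 = (Int.fract (r / 8) + v / 8) + (⌊r / 8⌋ : ℤ) := by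
    have := Int.floor_add_fract (r / 8)
    rw [add_div]
    linarith
  rw [e, Int.fract_add_intCast, Int.fract_eq_self.2]
  · ring
  · constructor
    · positivity
    · linarith

/-- a cosine without pole -/
theorem cosh_nw {d r v : ℝ} (h : NW d r) (h0 : 0 ≤ v) (h1 : v ≤ d) (z : ℝ) :
    Real.cosh ((4 - m8 (r + v)) * z) = Real.cosh (z * (4 - m8 r - v)) := by
  unfold NW at h
  rcases lt_or_eq_of_le (by linarith : m8 r + v ≤ 8) with h2 | h2
  · rw [m8_add h0 h2]
    congr 1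
    ring
  · have e : m8 (r + v) = 0 := by
      unfold m8 at h2 ⊢
      have e2 : (r + v) / 8 = ((⌊r / 8⌋ + 1 : ℤ) : ℝ) := by
        have := Int.floor_add_fract (r / 8)
        push_cast
        linarith
      rw [e2, Int.fract_intCast, mul_zero]
    rw [e, ← Real.cosh_neg]
    congr 1
    linear_combination z * h2

/-- the sines of a constituent against a quantum at offset `v` -/
lemma SL_A (σ : Bool) (a : (Bool × Bool × ℝ) × ℤ) (v z : ℝ) : SL σ a ((true, false, 1 - v), 1) z =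
    ((Ls (σ == (a.1.1 == true)) a.1.2.1 false).map fun p =>
      (p.2 : ℝ) * Real.cosh ((4 - m8 ((a.1.2.2 - 1 + p.1) + v)) * z)).sum := by
  unfold SL LL6
  congr 1
  refine List.map_congr_left fun p _ => ?_
  simp only
  congr 4
  ring

/-- **no pole in the strip**: constituents against a quantum at offsets in `[0, d]` -/
def NWl (d : ℝ) (σ : Bool) (A : List ((Bool × Bool × ℝ) × ℤ)) : Prop :=
  ∀ a ∈ A, ∀ p ∈ Ls (σ == (a.1.1 == true)) a.1.2.1 false, NW d (a.1.2.2 - 1 + p.1)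

/-- **objects against a quantum in the strip** -/
theorem DV_swept {z d : ℝ} (hz : 0 < z) (hd : 0 < d) {σ : Bool} {A : List ((Bool × Bool × ℝ) × ℤ)}
    (h : NWl d σ A) {v : ℝ} (hv : v ∈ Icc (0 : ℝ) d) : DV σ A (cA8 v) z =
      Bal.p0 z d v * DV σ A (cA8 0) z + Bal.p1 z d v * DV σ A (cA8 d) z := by
  have key : ∀ a ∈ A, SL σ a ((true, false, 1 - v), 1) z =
      Bal.p0 z d v * SL σ a ((true, false, 1 - 0), 1) z + Bal.p1 z d v * SL σ a ((true, false, 1 - d), 1) z := by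
    intro a ha
    rw [SL_A, SL_A, SL_A, ← List.sum_map_mul_left, ← List.sum_map_mul_left, ← List.sum_map_add]
    congr 1
    refine List.map_congr_left fun p hp => ?_
    have hw := h a ha p hp
    rw [cosh_nw hw hv.1 hv.2, cosh_nw hw le_rfl hd.le, cosh_nw hw hd.le le_rfl, Bal.bal_sub hz hd, sub_zero]
    ring
  rw [DV_eq, DV_eq, DV_eq]
  unfold cA8
  simp only [List.map_cons, List.map_nil, List.sum_cons, List.sum_nil, add_zero]
  rw [← List.sum_map_mul_left, ← List.sum_map_mul_left, ← List.sum_map_add]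
  congr 1
  refine List.map_congr_left fun a ha => ?_
  rw [key a ha]
  ring

/-- the pair of two quanta -/
lemma DV_AA (σ : Bool) (v w z : ℝ) : DV σ (cA8 v) (cA8 w) z =
    ((Ls (σ == true) false false).map fun p => (p.2 : ℝ) * Real.cosh ((4 - m8 (w - v + p.1)) * z)).sum := by
  unfold DV cA8 LL6
  simp only [List.map_cons, List.map_nil, List.sum_cons, List.sum_nil, add_zero, mul_one, Int.cast_one, one_mul,
    beq_self_eq_true]
  congr 1
  refine List.map_congr_left fun p _ => ?_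
  congr 4
  ring

/-- a cosine of two variables without pole -/
theorem cosh_nw2 {c d v w : ℝ} (hc : d ≤ c) (hc8 : c + d ≤ 8) (hv : v ∈ Icc (0 : ℝ) d)
    (hw : w ∈ Icc (0 : ℝ) d) {j : ℤ} (z : ℝ) :
    Real.cosh ((4 - m8 (w - v + (c + 8 * j))) * z) = Real.cosh (z * (4 - c + (v - w))) := by
  have e0 : w - v + (c + 8 * (j : ℝ)) = (c + w - v) + 8 * j := by ring
  have e1 : m8 (w - v + (c + 8 * (j : ℝ))) = m8 (c + w - v) := by
    rw [e0]
    unfold m8
    rw [add_div, mul_div_cancel_left₀ _ (by norm_num : (8 : ℝ) ≠ 0), Int.fract_add_intCast]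
  rw [e1]
  rcases lt_or_eq_of_le (by linarith [hv.1, hw.2] : c + w - v ≤ 8) with h2 | h2
  · have e2 : m8 (c + w - v) = c + w - v := by
      unfold m8
      rw [Int.fract_eq_self.2]
      · ring
      · constructor
        · have : 0 ≤ c + w - v := by linarith [hv.2, hw.1]
          positivity
        · linarith
    rw [e2]
    congr 1
    ring
  · have e2 : m8 (c + w - v) = 0 := by
      unfold m8
      rw [h2, show (8 : ℝ) / 8 = ((1 : ℤ) : ℝ) by norm_num, Int.fract_intCast, mul_zero]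
    rw [e2, ← Real.cosh_neg]
    congr 1
    linear_combination z * h2

/-- the swept value of a kernel of two offsets -/
noncomputable def sw2 (z d v w : ℝ) (f : ℝ → ℝ → ℝ) : ℝ :=
  Bal.p0 z d v * Bal.p0 z d w * f 0 0 + Bal.p0 z d v * Bal.p1 z d w * f 0 d +
    Bal.p1 z d v * Bal.p0 z d w * f d 0 + Bal.p1 z d v * Bal.p1 z d w * f d d

lemma sw2_nw {z d : ℝ} (hz : 0 < z) (hd : 0 < d) {c : ℝ} (hc : d ≤ c) (hc8 : c + d ≤ 8) {v w : ℝ}
    (hv : v ∈ Icc (0 : ℝ) d) (hw : w ∈ Icc (0 : ℝ) d) (j : ℤ) :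
    Real.cosh ((4 - m8 (w - v + (c + 8 * j))) * z) =
      sw2 z d v w fun v w => Real.cosh ((4 - m8 (w - v + (c + 8 * j))) * z) := by
  have h0 : (0 : ℝ) ∈ Icc (0 : ℝ) d := ⟨le_rfl, hd.le⟩
  have hd' : d ∈ Icc (0 : ℝ) d := ⟨hd.le, le_rfl⟩
  unfold sw2
  simp only
  rw [cosh_nw2 hc hc8 hv hw z, cosh_nw2 hc hc8 h0 h0 z, cosh_nw2 hc hc8 h0 hd' z, cosh_nw2 hc hc8 hd' h0 z,
    cosh_nw2 hc hc8 hd' hd' z, Bal.bal_two hz hd, sub_self, sub_self, add_zero, sub_zero]
  rw [show z * (4 - c + (0 - d)) = z * (4 - c - d) by ring]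
  ring

/-- **two quanta of different families** -/
theorem DV_AA_false {z d : ℝ} (hz : 0 < z) (hd : 0 < d) (hd1 : d ≤ 1) {v w : ℝ} (hv : v ∈ Icc (0 : ℝ) d)
    (hw : w ∈ Icc (0 : ℝ) d) : DV false (cA8 v) (cA8 w) z =
      sw2 z d v w fun v w => DV false (cA8 v) (cA8 w) z := by
  have e : ∀ v w : ℝ, DV false (cA8 v) (cA8 w) z = 2 * Real.cosh ((4 - m8 (w - v + (4 + 8 * ((0 : ℤ) : ℝ)))) * z) +
      -2 * Real.cosh ((4 - m8 (w - v + (3 + 8 * ((0 : ℤ) : ℝ)))) * z) +
      -2 * Real.cosh ((4 - m8 (w - v + (5 + 8 * ((-1 : ℤ) : ℝ)))) * z) := by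
    intro v w
    rw [DV_AA]
    simp only [Ls, Lc, show (false == true) = false from rfl, Bool.false_eq_true, if_false, List.map_cons,
      List.map_nil, List.sum_cons, List.sum_nil]
    push_cast
    norm_num
    ring
  rw [e, sw2_nw hz hd (by linarith : d ≤ 4) (by linarith) hv hw 0,
    sw2_nw hz hd (by linarith : d ≤ 3) (by linarith) hv hw 0,
    sw2_nw hz hd (by linarith : d ≤ 5) (by linarith) hv hw (-1)]
  simp only [e]
  unfold sw2
  ring

/-- **two quanta of the same family** -/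
theorem DV_AA_true {z d : ℝ} (hz : 0 < z) (hd : 0 < d) (hd1 : d ≤ 1) {v w : ℝ} (hv : v ∈ Icc (0 : ℝ) d)
    (hw : w ∈ Icc (0 : ℝ) d) : DV true (cA8 v) (cA8 w) z =
      (sw2 z d v w fun v w => DV true (cA8 v) (cA8 w) z) + 4 * Real.sinh (4 * z) * Bal.G z d v w := by
  have hab : ∀ u : ℝ, |u| ≤ d → Real.cosh ((4 - m8 u) * z) = Real.cosh (z * (4 - |u|)) := by
    intro u hu
    rcases le_total 0 u with h | h
    · rw [abs_of_nonneg h] at hu ⊢
      have e2 : m8 u = u := by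
        unfold m8
        rw [Int.fract_eq_self.2]
        · ring
        · constructor
          · positivity
          · linarith
      rw [e2, mul_comm]
    · rw [← cosh_m8_neg]
      rw [abs_of_nonpos h] at hu ⊢
      have e2 : m8 (-u) = -u := by
        unfold m8
        rw [Int.fract_eq_self.2]
        · ring
        · constructor
          · have : 0 ≤ -u := by linarith
            positivity
          · linarith
      rw [e2, mul_comm]
  have h0 : (0 : ℝ) ∈ Icc (0 : ℝ) d := ⟨le_rfl, hd.le⟩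
  have hd' : d ∈ Icc (0 : ℝ) d := ⟨hd.le, le_rfl⟩
  have e : ∀ v w : ℝ, v ∈ Icc (0 : ℝ) d → w ∈ Icc (0 : ℝ) d → DV true (cA8 v) (cA8 w) z =
      2 * Real.cosh (z * (4 - |w - v|)) +
      Real.cosh ((4 - m8 (w - v + (2 + 8 * ((0 : ℤ) : ℝ)))) * z) +
      Real.cosh ((4 - m8 (w - v + (6 + 8 * ((-1 : ℤ) : ℝ)))) * z) +
      -Real.cosh ((4 - m8 (w - v + (1 + 8 * ((0 : ℤ) : ℝ)))) * z) +
      -Real.cosh ((4 - m8 (w - v + (7 + 8 * ((-1 : ℤ) : ℝ)))) * z) := by
    intro v w hv hw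
    rw [DV_AA, ← hab (w - v) (by
      rw [abs_le]
      constructor <;> linarith [hv.1, hv.2, hw.1, hw.2])]
    simp only [Ls, Lp, show (true == true) = true from rfl, if_true, List.map_cons,
      List.map_nil, List.sum_cons, List.sum_nil]
    push_cast
    norm_num
    ring
  have hs4 : Real.sinh (z * 4) ≠ 0 := (Real.sinh_pos_iff.2 (by positivity)).ne'
  have hk : Real.cosh (z * (4 - |w - v|)) = 2 * Real.sinh (4 * z) * Bal.G z d v w +
      (Bal.p0 z d v * Bal.p0 z d w + Bal.p1 z d v * Bal.p1 z d w) * Real.cosh (z * 4) +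
      (Bal.p0 z d v * Bal.p1 z d w + Bal.p1 z d v * Bal.p0 z d w) * Real.cosh (z * (4 - d)) := by
    have h := Bal.ck_two hz hd (by norm_num : (0 : ℝ) < 4) v w
    unfold Bal.ck at h
    rw [abs_zero, abs_of_pos hd, sub_zero, abs_sub_comm v w] at h
    rw [mul_comm 4 z]
    field_simp at h
    linarith
  rw [e v w hv hw, hk, sw2_nw hz hd (by linarith : d ≤ 2) (by linarith) hv hw 0,
    sw2_nw hz hd (by linarith : d ≤ 6) (by linarith) hv hw (-1),
    sw2_nw hz hd hd1 (by linarith) hv hw 0,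
    sw2_nw hz hd (by linarith : d ≤ 7) (by linarith) hv hw (-1)]
  unfold sw2
  simp only
  rw [e 0 0 h0 h0, e 0 d h0 hd', e d 0 hd' h0, e d d hd' hd']
  have a1 : |(0 : ℝ) - 0| = 0 := by simp
  have a2 : |d - 0| = d := by rw [sub_zero, abs_of_pos hd]
  have a3 : |0 - d| = d := by rw [zero_sub, abs_neg, abs_of_pos hd]
  have a4 : |d - d| = 0 := by simp
  rw [a1, a2, a3, a4, sub_zero]
  ring

/-! ### lines at `u` and `u + d` -/

/-- shift of the positions -/
noncomputable def shA (u : ℝ) (A : List ((Bool × Bool × ℝ) × ℤ)) : List ((Bool × Bool × ℝ) × ℤ) :=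
  A.map fun a => ((a.1.1, a.1.2.1, a.1.2.2 + u), a.2)

lemma DV_shift (σ : Bool) (A : List ((Bool × Bool × ℝ) × ℤ)) (u v z : ℝ) :
    DV σ A (cA8 (u + v)) z = DV σ (shA u A) (cA8 v) z := by
  rw [DV_eq, DV_eq]
  unfold shA cA8
  rw [List.map_map]
  congr 1
  refine List.map_congr_left fun a _ => ?_
  simp only [Function.comp, List.map_cons, List.map_nil, List.sum_cons, List.sum_nil, add_zero]
  congr 1
  unfold SL LL6
  congr 1
  refine List.map_congr_left fun p _ => ?_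
  simp only
  congr 4
  ring

lemma DV_AA_from (σ : Bool) (u v w z : ℝ) : DV σ (cA8 (u + v)) (cA8 (u + w)) z = DV σ (cA8 v) (cA8 w) z := by
  rw [DV_AA, DV_AA]
  congr 1
  refine List.map_congr_left fun p _ => ?_
  congr 4
  ring

/-- **objects against a quantum between the lines `u` and `u + d`** -/
theorem DV_swept_from {z d u : ℝ} (hz : 0 < z) (hd : 0 < d) {σ : Bool} {A : List ((Bool × Bool × ℝ) × ℤ)}
    (h : NWl d σ (shA u A)) {v : ℝ} (hv : v ∈ Icc u (u + d)) : DV σ A (cA8 v) z =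
      Bal.p0 z d (v - u) * DV σ A (cA8 u) z + Bal.p1 z d (v - u) * DV σ A (cA8 (u + d)) z := by
  have h1 := DV_swept hz hd h (v := v - u) ⟨by linarith [hv.1], by linarith [hv.2]⟩
  rw [← DV_shift, ← DV_shift, ← DV_shift, add_sub_cancel, add_zero] at h1
  exact h1

/-! ### a point of the lattice -/

lemma NW_lat {m a j : ℤ} (hm : 0 < m) (h : j % (8 * m) + a ≤ 8 * m) : NW ((a : ℝ) / m) ((j : ℝ) / m) := by
  have hm' : (0 : ℝ) < m := by exact_mod_cast hm
  unfold NW
  rw [m8_lat hm, ← add_div, div_le_iff₀ hm']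
  exact_mod_cast h

/-- no pole of a kind against a quantum between the two lines, as a condition on integers -/
def nwz (q : Pt) (σ : Bool) (o : Kd8) : Prop :=
  ∀ a ∈ cz8 q o, ∀ p ∈ Ls (σ == (a.1.1 == true)) a.1.2.1 false,
    (a.1.2.2 - q.m + q.m * p.1 + q.a0) % (8 * q.m) + (q.a - q.a0) ≤ 8 * q.m

instance (q : Pt) (σ : Bool) (o : Kd8) : Decidable (nwz q σ o) := by
  unfold nwz
  infer_instance

/-- distance of the two lines -/
noncomputable def Pt.d (q : Pt) : ℝ := q.of 1 - q.of 0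

lemma Pt.d_eq (q : Pt) : q.d = ((q.a - q.a0 : ℤ) : ℝ) / q.m := by
  unfold Pt.d Pt.of
  simp
  ring

theorem NWl_of {q : Pt} (hq : 0 < q.k) {σ : Bool} {K : Kd6} (h : nwz q σ (some (some K))) :
    NWl q.d σ (shA (q.of 0) (cd8 q.par q.rT K)) := by
  have hm : 0 < q.m := by unfold Pt.m; omega
  have hm' : (q.m : ℝ) ≠ 0 := by exact_mod_cast hm.ne'
  have hA : cd8 q.par q.rT K = (cz8 q (some (some K))).map (rz8 q) := cR8_cz q hq (some (some K))
  rw [hA, Pt.d_eq]
  intro b hb p hp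
  unfold shA at hb
  rw [List.map_map] at hb
  obtain ⟨a, ha, rfl⟩ := List.mem_map.1 hb
  have h1 := NW_lat hm (h a ha p hp)
  have e : (((a.1.2.2 - q.m + q.m * p.1 + q.a0 : ℤ) : ℝ)) / q.m =
      (rz8 q a).1.2.2 + q.of 0 - 1 + p.1 := by
    unfold rz8 Pt.of
    rw [if_pos rfl]
    push_cast
    field_simp
    ring
  rw [e] at h1
  exact h1

/-- **objects against a quantum between the two lines** -/
theorem DV_swept_pt {q : Pt} (hq : 0 < q.k) (hd : q.a0 < q.a) {σ : Bool} {K : Kd6}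
    (h : nwz q σ (some (some K))) {z : ℝ} (hz : 0 < z) {v : ℝ} (hv : v ∈ Icc (q.of 0) (q.of 1)) :
    DV σ (cd8 q.par q.rT K) (cA8 v) z =
      Bal.p0 z q.d (v - q.of 0) * DV σ (cd8 q.par q.rT K) (cA8 (q.of 0)) z +
        Bal.p1 z q.d (v - q.of 0) * DV σ (cd8 q.par q.rT K) (cA8 (q.of 1)) z := by
  have hm : 0 < q.m := by unfold Pt.m; omega
  have hm' : (0 : ℝ) < q.m := by exact_mod_cast hm
  have hd' : 0 < q.d := by
    rw [Pt.d_eq]
    refine div_pos ?_ hm'
    have : 0 < q.a - q.a0 := by omega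
    exact_mod_cast this
  have e : q.of 0 + q.d = q.of 1 := by unfold Pt.d; ring
  have h1 := DV_swept_from (u := q.of 0) hz hd' (NWl_of hq h) (v := v) (by rw [e]; exact hv)
  rwa [e] at h1

/-- the swept value on the lines of the point -/
noncomputable def swq (q : Pt) (z v w : ℝ) (f : ℝ → ℝ → ℝ) : ℝ :=
  Bal.p0 z q.d (v - q.of 0) * Bal.p0 z q.d (w - q.of 0) * f (q.of 0) (q.of 0) +
    Bal.p0 z q.d (v - q.of 0) * Bal.p1 z q.d (w - q.of 0) * f (q.of 0) (q.of 1) +
    Bal.p1 z q.d (v - q.of 0) * Bal.p0 z q.d (w - q.of 0) * f (q.of 1) (q.of 0) +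
    Bal.p1 z q.d (v - q.of 0) * Bal.p1 z q.d (w - q.of 0) * f (q.of 1) (q.of 1)

lemma swq_eq (q : Pt) (σ : Bool) (z v w : ℝ) :
    (swq q z v w fun v w => DV σ (cA8 v) (cA8 w) z) =
      sw2 z q.d (v - q.of 0) (w - q.of 0) fun v w => DV σ (cA8 v) (cA8 w) z := by
  have e1 : q.of 1 = q.of 0 + q.d := by unfold Pt.d; ring
  have h00 := DV_AA_from σ (q.of 0) 0 0 z
  have h01 := DV_AA_from σ (q.of 0) 0 q.d z
  have h10 := DV_AA_from σ (q.of 0) q.d 0 z
  have h11 := DV_AA_from σ (q.of 0) q.d q.d z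
  rw [add_zero] at h00 h01 h10
  unfold swq sw2
  simp only
  rw [e1, h00, h01, h10, h11]

/-- **two quanta of different families between the two lines** -/
theorem DV_AAf_pt {q : Pt} (hd : 0 < q.d) (hd1 : q.d ≤ 1) {z : ℝ} (hz : 0 < z) {v w : ℝ}
    (hv : v ∈ Icc (q.of 0) (q.of 1)) (hw : w ∈ Icc (q.of 0) (q.of 1)) : DV false (cA8 v) (cA8 w) z =
      swq q z v w fun v w => DV false (cA8 v) (cA8 w) z := by
  rw [swq_eq]
  have h := DV_AA_false hz hd hd1 (v := v - q.of 0) (w := w - q.of 0)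
    ⟨by linarith [hv.1], by unfold Pt.d; linarith [hv.2]⟩ ⟨by linarith [hw.1], by unfold Pt.d; linarith [hw.2]⟩
  have e := DV_AA_from false (q.of 0) (v - q.of 0) (w - q.of 0) z
  rw [add_sub_cancel, add_sub_cancel] at e
  rw [e]
  exact h

/-- **two quanta of the same family between the two lines** -/
theorem DV_AAt_pt {q : Pt} (hd : 0 < q.d) (hd1 : q.d ≤ 1) {z : ℝ} (hz : 0 < z) {v w : ℝ}
    (hv : v ∈ Icc (q.of 0) (q.of 1)) (hw : w ∈ Icc (q.of 0) (q.of 1)) : DV true (cA8 v) (cA8 w) z =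
      (swq q z v w fun v w => DV true (cA8 v) (cA8 w) z) +
        4 * Real.sinh (4 * z) * Bal.G z q.d (v - q.of 0) (w - q.of 0) := by
  rw [swq_eq]
  have h := DV_AA_true hz hd hd1 (v := v - q.of 0) (w := w - q.of 0)
    ⟨by linarith [hv.1], by unfold Pt.d; linarith [hv.2]⟩ ⟨by linarith [hw.1], by unfold Pt.d; linarith [hw.2]⟩
  have e := DV_AA_from true (q.of 0) (v - q.of 0) (w - q.of 0) z
  rw [add_sub_cancel, add_sub_cancel] at e
  rw [e]
  exact h

end PLT
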