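import Pool.Agent.PLT.Rate
import Pool.Agent.PLT.BrT

/-!
# The two inequalities of the line `3 l / 2`

Content `a` rows at `-p l`, `b` rows at `q l`, `a ≤ b`, `0 ≤ p ≤ 1`, `0 ≤ q < 1 / 2`:
* `T_S`: `0 ≤ a Ag ((1/2 + p) l) + b Ag ((1/2 - q) l)`;
* **`T_A`**: `a Ag ((1/2 + p) l) + b Ag ((1/2 - q) l) ≤ a Ag ((3/2 - p) l) + b Ag ((3/2 + q) l)`, every
  height;
* `SAt_nonneg`, **`SAt_le`**: the same for the lists of `br_bulk`.
-/

set_option autoImplicit false

noncomputable section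

open Set

namespace PLT

open NUMF (l l_pos ch)

private theorem La_sin {β γ : ℝ} (h : Real.sin β = Real.sin γ) (c : ℝ) : La β c = La γ c := by
  unfold La
  rw [h]

private theorem sin_le {x y : ℝ} (hx : 0 ≤ x) (hxy : x ≤ y) (hy : y ≤ Real.pi / 2) :
    Real.sin x ≤ Real.sin y :=
  Real.sin_le_sin_of_le_of_le_pi_div_two (by linarith [Real.pi_pos]) hy hxy

private theorem La_mono {β γ c : ℝ} (h0 : 0 ≤ Real.sin β) (h : Real.sin β ≤ Real.sin γ)
    (h1 : Real.sin γ < c) : La β c ≤ La γ c := by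
  unfold La
  have a1 := Real.log_le_log (x := c + Real.sin β) (y := c + Real.sin γ) (by linarith) (by linarith)
  have a2 := Real.log_le_log (x := c - Real.sin γ) (y := c - Real.sin β) (by linarith) (by linarith)
  linarith

private theorem La_nonneg {β c : ℝ} (h0 : 0 ≤ Real.sin β) (h1 : Real.sin β < c) : 0 ≤ La β c := by
  unfold La
  have a2 := Real.log_le_log (x := c - Real.sin β) (y := c + Real.sin β) (by linarith) (by linarith)
  linarith

private theorem Ag_diff_p (p t : ℝ) : Ag ((3 / 2 - p) * l) t - Ag ((1 / 2 + p) * l) t =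
    La (Real.pi / 3 * (1 - p)) (ch t) - La (Real.pi / 3 * p) (ch t) := by
  have hpl : l = Real.pi / 8 := rfl
  unfold Ag
  have e1 := La_sin (β := 8 / 3 * ((3 / 2 - p) * l) - Real.pi / 6) (γ := Real.pi / 3 * (1 - p))
    (by congr 1; rw [hpl]; ring) (ch t)
  have e2 := La_sin (β := 8 / 3 * ((3 / 2 - p) * l) + Real.pi / 6) (γ := Real.pi / 3 * (1 + p))
    (by rw [← Real.sin_pi_sub]; congr 1; rw [hpl]; ring) (ch t)
  have e3 := La_sin (β := 8 / 3 * ((1 / 2 + p) * l) - Real.pi / 6) (γ := Real.pi / 3 * p)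
    (by congr 1; rw [hpl]; ring) (ch t)
  have e4 := La_sin (β := 8 / 3 * ((1 / 2 + p) * l) + Real.pi / 6) (γ := Real.pi / 3 * (1 + p))
    (by congr 1; rw [hpl]; ring) (ch t)
  rw [e1, e2, e3, e4]
  ring

private theorem Ag_diff_q (q t : ℝ) : Ag ((3 / 2 + q) * l) t - Ag ((1 / 2 - q) * l) t =
    La (Real.pi / 3 * (1 + q)) (ch t) + La (Real.pi / 3 * q) (ch t) := by
  have h := Ag_diff_p (-q) t
  rw [show (3 / 2 - -q) = 3 / 2 + q by ring, show (1 / 2 + -q) = 1 / 2 - q by ring,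
    show 1 - -q = 1 + q by ring, mul_neg, La_neg] at h
  linarith

/-- **the T line, upper product** -/
theorem T_A {a b p q : ℝ} (ha : 0 ≤ a) (hab : a ≤ b) (hp : 0 ≤ p) (hp1 : p ≤ 1) (hq : 0 ≤ q)
    (hq1 : q < 1 / 2) (t : ℝ) : a * Ag ((1 / 2 + p) * l) t + b * Ag ((1 / 2 - q) * l) t ≤
      a * Ag ((3 / 2 - p) * l) t + b * Ag ((3 / 2 + q) * l) t := by
  have hpi := Real.pi_pos
  have hc := NUMF.one_le_ch t
  have d1 := Ag_diff_p p t
  have d2 := Ag_diff_q q t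
  have n0 : ∀ x : ℝ, 0 ≤ x → x ≤ 1 → 0 ≤ Real.sin (Real.pi / 3 * x) := fun x h0 h1 =>
    Real.sin_nonneg_of_nonneg_of_le_pi (by positivity) (by nlinarith)
  have s1 : ∀ x : ℝ, 0 ≤ x → x < 3 / 2 → Real.sin (Real.pi / 3 * x) < 1 := by
    intro x h0 h1
    rw [← Real.sin_pi_div_two]
    exact Real.sin_lt_sin_of_lt_of_le_pi_div_two (by nlinarith) le_rfl (by nlinarith)
  have l1 : 0 ≤ La (Real.pi / 3 * (1 - p)) (ch t) :=
    La_nonneg (n0 _ (by linarith) (by linarith)) (by have := s1 (1 - p) (by linarith) (by linarith); linarith)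
  have l2 : 0 ≤ La (Real.pi / 3 * q) (ch t) :=
    La_nonneg (n0 _ hq (by linarith)) (by have := s1 q hq (by linarith); linarith)
  have l3 : 0 ≤ La (Real.pi / 3 * p) (ch t) :=
    La_nonneg (n0 _ hp (by linarith)) (by have := s1 p hp (by linarith); linarith)
  have l4 : La (Real.pi / 3 * p) (ch t) ≤ La (Real.pi / 3 * (1 + q)) (ch t) :=
    La_mono (n0 _ hp hp1) (sin_le (by positivity) (by nlinarith) (by nlinarith))
      (by have := s1 (1 + q) (by linarith) (by linarith); linarith)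
  have l5 : a * La (Real.pi / 3 * p) (ch t) ≤ b * La (Real.pi / 3 * (1 + q)) (ch t) :=
    mul_le_mul hab l4 l3 (ha.trans hab)
  have l6 := mul_nonneg ha l1
  have l7 := mul_nonneg (ha.trans hab) l2
  have e : a * Ag ((3 / 2 - p) * l) t + b * Ag ((3 / 2 + q) * l) t -
      (a * Ag ((1 / 2 + p) * l) t + b * Ag ((1 / 2 - q) * l) t) =
      a * (La (Real.pi / 3 * (1 - p)) (ch t) - La (Real.pi / 3 * p) (ch t)) +
      b * (La (Real.pi / 3 * (1 + q)) (ch t) + La (Real.pi / 3 * q) (ch t)) := by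
    rw [← d1, ← d2]
    ring
  nlinarith

/-- the T line, sign -/
theorem T_S {a b p q : ℝ} (ha : 0 ≤ a) (hb : 0 ≤ b) (hp : 0 ≤ p) (hp1 : p ≤ 1) (hq : 0 ≤ q)
    (hq1 : q < 1 / 2) (t : ℝ) : 0 ≤ a * Ag ((1 / 2 + p) * l) t + b * Ag ((1 / 2 - q) * l) t := by
  have hl := l_pos
  have h1 := Ag_nonneg (V := (1 / 2 + p) * l) (by nlinarith) (by nlinarith) t
  have h2 := Ag_nonneg (V := (1 / 2 - q) * l) (by nlinarith) (by nlinarith) t
  positivity

/-- the sum over the places, two kinds of rows -/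
theorem map_two (f : ℝ → ℝ) {c : List ℝ} {a b : ℕ} {p q : ℝ}
    (hc : c.Perm (List.replicate a (-p) ++ List.replicate b q)) :
    (c.map f).sum = a * f (-p) + b * f q := by
  rw [(hc.map f).sum_eq, List.map_append, List.sum_append, List.map_replicate, List.map_replicate,
    List.sum_replicate, List.sum_replicate]
  simp

/-- `hS` of `br_bulk` -/
theorem SAt_nonneg {c : List ℝ} {a b : ℕ} {p q : ℝ}
    (hc : c.Perm (List.replicate a (-p) ++ List.replicate b q)) (hp : 0 ≤ p) (hp1 : p ≤ 1) (hq : 0 ≤ q)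
    (hq1 : q < 1 / 2) (t : ℝ) : 0 ≤ SAt c t := by
  unfold SAt
  rw [map_two (fun x => Ag ((1 / 2 - x) * NUP1.l) t) hc, sub_neg_eq_add]
  exact T_S (Nat.cast_nonneg a) (Nat.cast_nonneg b) hp hp1 hq hq1 t

/-- **`hA` of `br_bulk`** -/
theorem SAt_le {c : List ℝ} {a b : ℕ} {p q : ℝ}
    (hc : c.Perm (List.replicate a (-p) ++ List.replicate b q)) (hab : a ≤ b) (hp : 0 ≤ p)
    (hp1 : p ≤ 1) (hq : 0 ≤ q) (hq1 : q < 1 / 2) (t : ℝ) :
    SAt c t ≤ (c.map fun x => Ag ((3 / 2 + x) * l) t).sum := by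
  unfold SAt
  rw [map_two (fun x => Ag ((1 / 2 - x) * NUP1.l) t) hc, map_two (fun x => Ag ((3 / 2 + x) * l) t) hc,
    sub_neg_eq_add, ← sub_eq_add_neg]
  exact T_A (Nat.cast_nonneg a) (by exact_mod_cast hab) hp hp1 hq hq1 t

end PLT

end
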