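import Pool.Agent.PLT.TBrA
import Pool.Agent.PLT.HCb

/-!
# The two inequalities of the line `3 l / 2`, rows of the two kinds at two heights

Content `a` rows at `-p l` and height `s0`, `b` rows at `q l` and height `s1`, `a ≤ b`:
* `T_SX`: `0 ≤ a Ag ((1/2 + p) l) (t - s0) + b Ag ((1/2 - q) l) (t - s1)`;
* **`T_AX`**: for every `de > 0` there is `h > 0` such that for `-h ≤ p ≤ 1 - de`, `-h ≤ q < 1/2`,
  `|s0 - s1| ≤ h` the sum of `T_SX` is at most `a Ag ((3/2 - p) l) (t - s0) + b Ag ((3/2 + q) l) (t - s1)`;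
* `SAe_nonneg`, **`SAe_leX`**: the same for the lists.
-/

set_option autoImplicit false

noncomputable section

open Set Filter Topology

namespace PLT

open NUMF (l l_pos ch)

private theorem La_sin {β γ : ℝ} (h : Real.sin β = Real.sin γ) (c : ℝ) : La β c = La γ c := by
  unfold La
  rw [h]

/-- the level function of a row is increasing in `sin / ch` -/
theorem La_le {β γ c c' : ℝ} (h : Real.sin β * c' ≤ Real.sin γ * c) (b0 : -c < Real.sin β)
    (b1 : Real.sin β < c) (g0 : -c' < Real.sin γ) (g1 : Real.sin γ < c') : La β c ≤ La γ c' := by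
  unfold La
  have h1 : Real.log ((c + Real.sin β) * (c' - Real.sin γ)) ≤
      Real.log ((c' + Real.sin γ) * (c - Real.sin β)) :=
    Real.log_le_log (mul_pos (by linarith) (by linarith)) (by nlinarith)
  rw [Real.log_mul (by linarith) (by linarith), Real.log_mul (by linarith) (by linarith)] at h1
  linarith

private theorem Ag_diff_p (p t : ℝ) : Ag ((3 / 2 - p) * l) t - Ag ((1 / 2 + p) * l) t =
    La (Real.pi / 3 * (1 - p)) (ch t) - La (Real.pi / 3 * p) (ch t) := by
  have hpl : l = Real.pi / 8 := rfl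
  unfold Ag
  have e1 := La_sin (β := 8 / 3 * ((3 / 2 - p) * l) - Real.pi / 6) (γ := Real.pi / 3 * (1 - p))
    (by congr 1; rw [hpl]; ring) (ch t)
  have e2 := La_sin (β := 8 / 3 * ((3 / 2 - p) * l) + Real.pi / 6) (γ := Real.pi / 3 * (1 + p))
    (by rw [← Real.sin_pi_sub]; congr 1; rw [hpl]; ring) (ch t)
  have e3 := La_sin (β := 8 / 3 * ((1 / 2 + p) * l) - Real.pi / 6) (γ := Real.pi / 3 * p)
    (by congr 1; rw [hpl]; ring) (ch t)
  have e4 := La_sin (β := 8 / 3 * ((1 / 2 + p) * l) + Real.pi / 6) (γ := Real.pi / 3 * (1 + p))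
    (by congr 1; rw [hpl]; ring) (ch t)
  rw [e1, e2, e3, e4]
  ring

private theorem Ag_diff_q (q t : ℝ) : Ag ((3 / 2 + q) * l) t - Ag ((1 / 2 - q) * l) t =
    La (Real.pi / 3 * (1 + q)) (ch t) + La (Real.pi / 3 * q) (ch t) := by
  have h := Ag_diff_p (-q) t
  rw [show (3 / 2 - -q) = 3 / 2 + q by ring, show (1 / 2 + -q) = 1 / 2 - q by ring,
    show 1 - -q = 1 + q by ring, mul_neg, La_neg] at h
  linarith

private theorem ch_le (t s0 s1 : ℝ) : ch (t - s0) ≤ Real.exp (8 / 3 * |s0 - s1|) * ch (t - s1) := by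
  unfold ch
  refine (cosh_le_mul (8 / 3 * (t - s0)) (8 / 3 * (t - s1))).trans (le_of_eq ?_)
  rw [show 8 / 3 * (t - s0) - 8 / 3 * (t - s1) = -(8 / 3 * (s0 - s1)) by ring, abs_neg, abs_mul,
    abs_of_pos (by norm_num : (0 : ℝ) < 8 / 3), mul_comm]

private theorem sin3 {x y : ℝ} (hx : -(3 / 2) ≤ x) (hxy : x ≤ y) (hy : y ≤ 3 / 2) :
    Real.sin (Real.pi / 3 * x) ≤ Real.sin (Real.pi / 3 * y) := by
  have hp := Real.pi_pos
  exact Real.sin_le_sin_of_le_of_le_pi_div_two (by nlinarith) (by nlinarith) (by nlinarith)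

private theorem sin3_lt {x y : ℝ} (hx : -(3 / 2) ≤ x) (hxy : x < y) (hy : y ≤ 3 / 2) :
    Real.sin (Real.pi / 3 * x) < Real.sin (Real.pi / 3 * y) := by
  have hp := Real.pi_pos
  exact Real.sin_lt_sin_of_lt_of_le_pi_div_two (by nlinarith) (by nlinarith) (by nlinarith)

private theorem sin3_bd {x : ℝ} (hx : -(3 / 2) < x) (hx1 : x < 3 / 2) :
    -1 < Real.sin (Real.pi / 3 * x) ∧ Real.sin (Real.pi / 3 * x) < 1 := by
  have h1 := sin3_lt le_rfl hx hx1.le
  have h2 := sin3_lt hx.le hx1 le_rfl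
  rw [show Real.pi / 3 * -(3 / 2) = -(Real.pi / 2) by ring, Real.sin_neg, Real.sin_pi_div_two] at h1
  rw [show Real.pi / 3 * (3 / 2) = Real.pi / 2 by ring, Real.sin_pi_div_two] at h2
  exact ⟨h1, h2⟩

/-- comparison of two rows at two heights -/
private theorem La3 {x y c c' : ℝ} (hc : 1 ≤ c) (hc' : 1 ≤ c') (hx : -(3 / 2) < x) (hx1 : x < 3 / 2)
    (hy : -(3 / 2) < y) (hy1 : y < 3 / 2)
    (h : Real.sin (Real.pi / 3 * x) * c' ≤ Real.sin (Real.pi / 3 * y) * c) :
    La (Real.pi / 3 * x) c ≤ La (Real.pi / 3 * y) c' := by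
  obtain ⟨a1, a2⟩ := sin3_bd hx hx1
  obtain ⟨b1, b2⟩ := sin3_bd hy hy1
  exact La_le h (by linarith) (by linarith) (by linarith) (by linarith)

private theorem La3_same {x y c : ℝ} (hc : 1 ≤ c) (hx : -(3 / 2) < x) (hxy : x ≤ y)
    (hy1 : y < 3 / 2) : La (Real.pi / 3 * x) c ≤ La (Real.pi / 3 * y) c :=
  La3 hc hc hx (by linarith) (by linarith) hy1
    (mul_le_mul_of_nonneg_right (sin3 hx.le hxy hy1.le) (by linarith))

/-- the size of the heights -/
private theorem exists_h {de : ℝ} (hd : 0 < de) (hd1 : de ≤ 1 / 2) : ∃ h : ℝ, 0 < h ∧ h ≤ 1 / 4 ∧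
    Real.sin (Real.pi / 3 * (1 - de)) * Real.exp (8 / 3 * h) ≤ Real.sin (Real.pi / 3 * (1 - h)) ∧
    Real.sin (Real.pi / 3 * h) * Real.exp (8 / 3 * h) ≤ Real.sin (Real.pi / 3 * de) := by
  have c1 : ∀ᶠ h : ℝ in 𝓝 0, Real.sin (Real.pi / 3 * (1 - de)) * Real.exp (8 / 3 * h) <
      Real.sin (Real.pi / 3 * (1 - h)) := by
    refine ContinuousAt.eventually_lt (by fun_prop) (by fun_prop) ?_
    rw [mul_zero, Real.exp_zero, mul_one]
    exact sin3_lt (by linarith) (by linarith) (by norm_num)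
  have c2 : ∀ᶠ h : ℝ in 𝓝 0, Real.sin (Real.pi / 3 * h) * Real.exp (8 / 3 * h) <
      Real.sin (Real.pi / 3 * de) := by
    refine ContinuousAt.eventually_lt (by fun_prop) (by fun_prop) ?_
    rw [mul_zero, mul_zero, Real.exp_zero, mul_one]
    have := sin3_lt (x := 0) (y := de) (by norm_num) hd (by linarith)
    rwa [mul_zero] at this
  obtain ⟨r, hr, h1⟩ := Metric.eventually_nhds_iff.1 (c1.and c2)
  have hm : 0 < min (r / 2) (1 / 4) := lt_min (by positivity) (by norm_num)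
  obtain ⟨k1, k2⟩ := h1 (y := min (r / 2) (1 / 4)) (by
    rw [Real.dist_eq, sub_zero, abs_of_pos hm]
    exact (min_le_left _ _).trans_lt (by linarith))
  exact ⟨_, hm, min_le_right _ _, k1.le, k2.le⟩

/-- **the T line, upper product, two heights** -/
theorem T_AX {de : ℝ} (hd : 0 < de) (hd1 : de ≤ 1 / 2) : ∃ h : ℝ, 0 < h ∧ h ≤ 1 / 4 ∧
    ∀ a b p q s0 s1 t : ℝ, 0 ≤ a → a ≤ b → -h ≤ p → p ≤ 1 - de → -h ≤ q → q < 1 / 2 →
    |s0 - s1| ≤ h → a * Ag ((1 / 2 + p) * l) (t - s0) + b * Ag ((1 / 2 - q) * l) (t - s1) ≤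
      a * Ag ((3 / 2 - p) * l) (t - s0) + b * Ag ((3 / 2 + q) * l) (t - s1) := by
  obtain ⟨h, h0, h4, H1, H2⟩ := exists_h hd hd1
  refine ⟨h, h0, h4, fun a b p q s0 s1 t ha hab hp hp1 hq hq1 hs => ?_⟩
  have hc0 := NUMF.one_le_ch (t - s0)
  have hc1 := NUMF.one_le_ch (t - s1)
  have d1 := Ag_diff_p p (t - s0)
  have d2 := Ag_diff_q q (t - s1)
  have hE : Real.exp (8 / 3 * |s0 - s1|) ≤ Real.exp (8 / 3 * h) := Real.exp_le_exp.2 (by linarith)
  have e01 : ch (t - s0) ≤ Real.exp (8 / 3 * h) * ch (t - s1) :=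
    (ch_le t s0 s1).trans (mul_le_mul_of_nonneg_right hE (by linarith))
  have e10 : ch (t - s1) ≤ Real.exp (8 / 3 * h) * ch (t - s0) := by
    have := ch_le t s1 s0
    rw [abs_sub_comm] at this
    exact this.trans (mul_le_mul_of_nonneg_right hE (by linarith))
  -- the rows of the second kind
  have q1 : La (Real.pi / 3 * (1 - h)) (ch (t - s1)) ≤ La (Real.pi / 3 * (1 + q)) (ch (t - s1)) :=
    La3_same hc1 (by linarith) (by linarith) (by linarith)
  have q2 : -La (Real.pi / 3 * h) (ch (t - s1)) ≤ La (Real.pi / 3 * q) (ch (t - s1)) := by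
    rw [← La_neg, ← mul_neg]
    exact La3_same hc1 (by linarith) hq (by linarith)
  have q3 : La (Real.pi / 3 * h) (ch (t - s1)) ≤ La (Real.pi / 3 * (1 - h)) (ch (t - s1)) :=
    La3_same hc1 (by linarith) (by linarith) (by linarith)
  -- the rows of the first kind
  have key : 0 ≤ La (Real.pi / 3 * (1 - p)) (ch (t - s0)) - La (Real.pi / 3 * p) (ch (t - s0)) +
      (La (Real.pi / 3 * (1 - h)) (ch (t - s1)) - La (Real.pi / 3 * h) (ch (t - s1))) := by
    rcases le_or_gt p (1 / 2) with hp2 | hp2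
    · have := La3_same (x := p) (y := 1 - p) hc0 (by linarith) (by linarith) (by linarith)
      linarith
    · have n1 : 0 ≤ Real.sin (Real.pi / 3 * p) := by
        have := sin3 (x := 0) (y := p) (by norm_num) (by linarith) (by linarith)
        rwa [mul_zero, Real.sin_zero] at this
      have n2 : 0 ≤ Real.sin (Real.pi / 3 * h) := by
        have := sin3 (x := 0) (y := h) (by norm_num) (by linarith) (by linarith)
        rwa [mul_zero, Real.sin_zero] at this
      have a1 := sin3 (x := p) (y := 1 - de) (by linarith) hp1 (by linarith)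
      have a2 := sin3 (x := de) (y := 1 - p) (by linarith) (by linarith) (by linarith)
      have k1 : La (Real.pi / 3 * p) (ch (t - s0)) ≤ La (Real.pi / 3 * (1 - h)) (ch (t - s1)) := by
        refine La3 hc0 hc1 (by linarith) (by linarith) (by linarith) (by linarith) ?_
        calc Real.sin (Real.pi / 3 * p) * ch (t - s1) ≤
            Real.sin (Real.pi / 3 * p) * (Real.exp (8 / 3 * h) * ch (t - s0)) :=
              mul_le_mul_of_nonneg_left e10 n1
          _ ≤ Real.sin (Real.pi / 3 * (1 - de)) * (Real.exp (8 / 3 * h) * ch (t - s0)) :=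
              mul_le_mul_of_nonneg_right a1 (by positivity)
          _ = Real.sin (Real.pi / 3 * (1 - de)) * Real.exp (8 / 3 * h) * ch (t - s0) := by ring
          _ ≤ _ := mul_le_mul_of_nonneg_right H1 (by linarith)
      have k2 : La (Real.pi / 3 * h) (ch (t - s1)) ≤ La (Real.pi / 3 * (1 - p)) (ch (t - s0)) := by
        refine La3 hc1 hc0 (by linarith) (by linarith) (by linarith) (by linarith) ?_
        calc Real.sin (Real.pi / 3 * h) * ch (t - s0) ≤
            Real.sin (Real.pi / 3 * h) * (Real.exp (8 / 3 * h) * ch (t - s1)) :=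
              mul_le_mul_of_nonneg_left e01 n2
          _ = Real.sin (Real.pi / 3 * h) * Real.exp (8 / 3 * h) * ch (t - s1) := by ring
          _ ≤ Real.sin (Real.pi / 3 * de) * ch (t - s1) := mul_le_mul_of_nonneg_right H2 (by linarith)
          _ ≤ _ := mul_le_mul_of_nonneg_right a2 (by linarith)
      linarith
  have hX : 0 ≤ La (Real.pi / 3 * (1 - h)) (ch (t - s1)) - La (Real.pi / 3 * h) (ch (t - s1)) := by
    linarith
  have m1 := mul_nonneg ha key
  have m2 := mul_le_mul_of_nonneg_right hab hX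
  have m3 := mul_le_mul_of_nonneg_left (add_le_add q1 q2) (ha.trans hab)
  have e : a * Ag ((3 / 2 - p) * l) (t - s0) + b * Ag ((3 / 2 + q) * l) (t - s1) -
      (a * Ag ((1 / 2 + p) * l) (t - s0) + b * Ag ((1 / 2 - q) * l) (t - s1)) =
      a * (La (Real.pi / 3 * (1 - p)) (ch (t - s0)) - La (Real.pi / 3 * p) (ch (t - s0))) +
      b * (La (Real.pi / 3 * (1 + q)) (ch (t - s1)) + La (Real.pi / 3 * q) (ch (t - s1))) := by
    rw [← d1, ← d2]
    ring
  rw [mul_add] at m1
  linarith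

/-- the T line, sign, two heights -/
theorem T_SX {a b p q s0 s1 : ℝ} (ha : 0 ≤ a) (hb : 0 ≤ b) (hp : -(1 / 2) ≤ p) (hp1 : p ≤ 1)
    (hq : -(1 / 2) ≤ q) (hq1 : q < 1 / 2) (t : ℝ) :
    0 ≤ a * Ag ((1 / 2 + p) * l) (t - s0) + b * Ag ((1 / 2 - q) * l) (t - s1) := by
  have hl := l_pos
  have h1 := Ag_nonneg (V := (1 / 2 + p) * l) (by nlinarith) (by nlinarith) (t - s0)
  have h2 := Ag_nonneg (V := (1 / 2 - q) * l) (by nlinarith) (by nlinarith) (t - s1)
  positivity

/-- the sum over the complex places, two kinds of rows -/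
theorem map_twoX (f : ℂ → ℝ) {c : List ℂ} {a b : ℕ} {x0 x1 : ℂ}
    (hc : c.Perm (List.replicate a x0 ++ List.replicate b x1)) :
    (c.map f).sum = a * f x0 + b * f x1 := by
  rw [(hc.map f).sum_eq, List.map_append, List.sum_append, List.map_replicate, List.map_replicate,
    List.sum_replicate, List.sum_replicate]
  simp

/-- the growth at the line of `T` is nonnegative, any list -/
theorem SAe_nonneg {c : List ℂ} (hc : ∀ x ∈ c, -(3 / 2 * l) < x.re ∧ x.re ≤ l / 2) (t : ℝ) :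
    0 ≤ SAe c t := by
  unfold SAe
  refine List.sum_nonneg fun y hy => ?_
  obtain ⟨x, hx, rfl⟩ := List.mem_map.1 hy
  obtain ⟨h1, h2⟩ := hc x hx
  have e : NUP1.l = l := rfl
  rw [e]
  exact Ag_nonneg (by linarith) (by linarith) _

/-- **`hA` for the lists**, places `x0` (left) and `x1` (right) -/
theorem SAe_leX {de : ℝ} (hd : 0 < de) (hd1 : de ≤ 1 / 2) : ∃ h : ℝ, 0 < h ∧ h ≤ 1 / 4 ∧
    ∀ {c : List ℂ} {a b : ℕ} {x0 x1 : ℂ}, c.Perm (List.replicate a x0 ++ List.replicate b x1) →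
    a ≤ b → -((1 - de) * l) ≤ x0.re → x0.re ≤ h * l → -(h * l) ≤ x1.re → x1.re < l / 2 →
    |x0.im - x1.im| ≤ h → ∀ t : ℝ, SAe c t ≤ (c.map fun x => Ag (3 / 2 * l + x.re) (t - x.im)).sum := by
  obtain ⟨h, h0, h4, H⟩ := T_AX hd hd1
  refine ⟨h, h0, h4, fun {c a b x0 x1} hc hab a1 a2 b1 b2 hs t => ?_⟩
  have hl := l_pos
  have el : NUP1.l = l := rfl
  unfold SAe
  rw [map_twoX (fun x => Ag (NUP1.l / 2 - x.re) (t - x.im)) hc,
    map_twoX (fun x => Ag (3 / 2 * l + x.re) (t - x.im)) hc, el]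
  have k := H a b (-(x0.re / l)) (x1.re / l) x0.im x1.im t (Nat.cast_nonneg a)
    (by exact_mod_cast hab) (by rw [neg_le_neg_iff, div_le_iff₀ hl]; exact a2)
    (by rw [neg_le, le_div_iff₀ hl]; linarith) (by rw [le_div_iff₀ hl]; linarith)
    (by rw [div_lt_iff₀ hl]; linarith) hs
  have hl' := hl.ne'
  rw [show (1 / 2 + -(x0.re / l)) * l = l / 2 - x0.re by field_simp; ring,
    show (1 / 2 - x1.re / l) * l = l / 2 - x1.re by field_simp,
    show (3 / 2 - -(x0.re / l)) * l = 3 / 2 * l + x0.re by field_simp; ring,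
    show (3 / 2 + x1.re / l) * l = 3 / 2 * l + x1.re by field_simp] at k
  exact k

end PLT

end
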