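import Pool.Agent.PLT.Tail8

/-!
# The tail with a variable threshold (helper64)

`chkE8 N R D P`: as `chkD8` for `y ≤ N / 16`, `R / 400 ≥ (N / 16) ^ (7 / 8)`; **`tailE8`**.
-/

set_option autoImplicit false

namespace PLT

open Finset PHK

/-- `16 ^ (D - 1) * ∑ |c| (N / 16) ^ (n - 1)` over `n ≥ 1` -/
def r09 (N D : ℕ) (p : SP) : ℕ :=
  (p.map fun a => if a.2 = 0 then 0 else a.1.natAbs * N ^ (a.2 - 1) * 16 ^ (D - a.2)).sum

/-- **the check** -/
def chkE8 (N R D : ℕ) (P : Fin 8 → Fin 8 → SP) : Bool :=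
  decide (∀ i j : Fin 8, P i j = P j i ∧ (P i j).all (fun a => decide (a.2 ≤ D)) = true ∧
      c08 (P i j) = e08 i j) &&
    decide (∀ i : Fin 8, R * ∑ j, (r09 N D (P i j) : ℤ) ≤ 400 * 16 ^ (D - 1) * d08 i)

/-- a polynomial against its constant coefficient -/
lemma ev_c09 {N D : ℕ} (p : SP) (hp : p.all (fun a => decide (a.2 ≤ D)) = true) {y : ℝ} (h0 : 0 ≤ y)
    (h1 : y ≤ N / 16) : |ev p y - c08 p| * 16 ^ (D - 1) ≤ y * r09 N D p := by
  induction p with
  | nil => simp [ev, c08, r09]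
  | cons a p ih =>
    rw [List.all_cons, Bool.and_eq_true, decide_eq_true_eq] at hp
    have ih := ih hp.2
    have e1 : ((c08 (a :: p) : ℤ) : ℝ) = (if a.2 = 0 then (a.1 : ℝ) else 0) + c08 p := by
      unfold c08
      rw [List.map_cons, List.sum_cons]
      push_cast
      split_ifs <;> rfl
    have e2 : ((r09 N D (a :: p) : ℕ) : ℝ) = (if a.2 = 0 then 0 else
        |(a.1 : ℝ)| * (N : ℝ) ^ (a.2 - 1) * 16 ^ (D - a.2)) + r09 N D p := by
      unfold r09
      rw [List.map_cons, List.sum_cons]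
      push_cast
      split_ifs
      · rfl
      · rw [Nat.cast_natAbs, Int.cast_abs]
    rw [ev_cons, e1, e2]
    by_cases h : a.2 = 0
    · rw [if_pos h, if_pos h, h, pow_zero, mul_one]
      have e3 : (a.1 : ℝ) + ev p y - (a.1 + c08 p) = ev p y - c08 p := by ring
      rw [e3, zero_add]
      exact ih
    · rw [if_neg h, if_neg h]
      obtain ⟨n, hn⟩ : ∃ n, a.2 = n + 1 := ⟨a.2 - 1, by omega⟩
      have hD : D - 1 = n + (D - a.2) := by omega
      have h2 : |(a.1 : ℝ) * y ^ a.2| * 16 ^ (D - 1) ≤ y * (|(a.1 : ℝ)| * (N : ℝ) ^ (a.2 - 1) * 16 ^ (D - a.2)) := by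
        have e4 : a.2 - 1 = n := by omega
        have e5 : y ^ a.2 = y ^ n * y := by rw [hn, pow_succ]
        rw [abs_mul, abs_of_nonneg (pow_nonneg h0 _), e4, e5, hD, pow_add]
        have h3 : y ^ n * 16 ^ n ≤ (N : ℝ) ^ n := by
          rw [← mul_pow]
          refine pow_le_pow_left₀ (by positivity) ?_ n
          linarith
        have h4 : 0 ≤ |(a.1 : ℝ)| * y * 16 ^ (D - a.2) := by positivity
        calc |(a.1 : ℝ)| * (y ^ n * y) * (16 ^ n * 16 ^ (D - a.2)) =
            (|(a.1 : ℝ)| * y * 16 ^ (D - a.2)) * (y ^ n * 16 ^ n) := by ring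
          _ ≤ (|(a.1 : ℝ)| * y * 16 ^ (D - a.2)) * (N : ℝ) ^ n := mul_le_mul_of_nonneg_left h3 h4
          _ = _ := by ring
      have e3 : (a.1 : ℝ) * y ^ a.2 + ev p y - (0 + c08 p) = (a.1 : ℝ) * y ^ a.2 + (ev p y - c08 p) := by ring
      rw [e3]
      have h5 := mul_le_mul_of_nonneg_right (abs_add_le ((a.1 : ℝ) * y ^ a.2) (ev p y - c08 p))
        (by positivity : (0 : ℝ) ≤ 16 ^ (D - 1))
      rw [add_mul] at h5
      rw [mul_add]
      linarith

/-- `y ≤ R / 400 * x` -/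
theorem tail_yxE {N R : ℕ} (hr : ((N : ℝ) / 16) ^ 7 ≤ ((R : ℝ) / 400) ^ 8) {m z : ℝ} (hm : 0 < m) (hm2 : m ≤ 128) (hz : 0 < z)
    (hy : Real.exp (-(z / m)) ≤ N / 16) : Real.exp (-(z / m)) ≤ R / 400 * Real.exp (-(z / 1024)) := by
  have hw8 : Real.exp (-(7 / 8 * (z / m))) ^ 8 ≤ ((R : ℝ) / 400) ^ 8 := by
    have e : Real.exp (-(7 / 8 * (z / m))) ^ 8 = Real.exp (-(z / m)) ^ 7 := by
      rw [← Real.exp_nat_mul, ← Real.exp_nat_mul]
      congr 1
      push_cast
      ring
    rw [e]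
    exact (pow_le_pow_left₀ (Real.exp_pos _).le hy 7).trans hr
  have hw1 : Real.exp (-(7 / 8 * (z / m))) ≤ R / 400 :=
    le_of_pow_le_pow_left₀ (by norm_num) (by positivity) hw8
  have h1 : Real.exp (-(z / m)) ≤ Real.exp (-(7 / 8 * (z / m))) * Real.exp (-(z / 1024)) := by
    rw [← Real.exp_add, Real.exp_le_exp]
    have h2 : z / 1024 ≤ 1 / 8 * (z / m) := by
      rw [div_mul_div_comm, one_mul]
      refine div_le_div_of_nonneg_left hz.le (by positivity) ?_
      linarith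
    linarith
  exact h1.trans (mul_le_mul_of_nonneg_right hw1 (Real.exp_pos _).le)

/-- **the tail** -/
theorem tailE8 {N R : ℕ} (hN : N ≤ 16) (hr : ((N : ℝ) / 16) ^ 7 ≤ ((R : ℝ) / 400) ^ 8) {q : Pt} (hq : 0 < q.k) (hq2 : q.k ≤ 32) {t : Tb8} {s : Bool}
    (hc : chkE8 N R (8 * q.m).toNat (PL8 q t s) = true) : RegP8 q t s 0 (N / 16) := by
  intro z hz _ hy v
  have hm : 0 < q.m := by unfold Pt.m; omega
  have hm128 : q.m ≤ 128 := by unfold Pt.m; omega
  have hm' : (0 : ℝ) < q.m := by exact_mod_cast hm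
  have hm'' : (q.m : ℝ) ≤ 128 := by exact_mod_cast hm128
  obtain ⟨D, hD⟩ : ∃ D, D = (8 * q.m).toNat := ⟨_, rfl⟩
  rw [← hD] at hc
  set y := Real.exp (-(z / q.m)) with hyd
  set x := Real.exp (-(z / 1024)) with hx
  have hy0 : 0 < y := Real.exp_pos _
  have hx0 : 0 < x := Real.exp_pos _
  have hx1 : x ≤ 1 := Real.exp_le_one_iff.2 (by linarith)
  have hyx : y ≤ (R : ℝ) / 400 * x := tail_yxE hr hm' hm'' hz hy
  unfold chkE8 at hc
  rw [Bool.and_eq_true, decide_eq_true_eq, decide_eq_true_eq] at hc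
  obtain ⟨hc1, hc2⟩ := hc
  -- replace the coefficient of the cores by its upper bound
  have hk := kap8_nonneg v
  have hN' : (N : ℝ) ≤ 16 := by exact_mod_cast hN
  have hp : y ^ (8 * q.m).toNat ≤ 1 := pow_le_one₀ hy0.le (by linarith)
  have hp0 : 0 ≤ y ^ (8 * q.m).toNat := by positivity
  have hco : co8 q z ≤ 512 * (1 - x) := by
    unfold co8
    have h1 : 0 ≤ 1 - x := by linarith
    nlinarith [mul_nonneg h1 hp0]
  set M : Fin 8 → Fin 8 → ℝ := fun i j => ev (PL8 q t s i j) y - 512 * (1 - x) * kap8 i j with hMd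
  have hred : ∑ i, ∑ j, (ev (PL8 q t s i j) y - co8 q z * kap8 i j) * v i * v j =
      ∑ i, ∑ j, M i j * v i * v j + (512 * (1 - x) - co8 q z) * ∑ i, ∑ j, kap8 i j * v i * v j := by
    rw [Finset.mul_sum, ← Finset.sum_add_distrib]
    refine Finset.sum_congr rfl fun i _ => ?_
    rw [Finset.mul_sum, ← Finset.sum_add_distrib]
    refine Finset.sum_congr rfl fun j _ => ?_
    rw [hMd]
    ring
  rw [hred]
  refine add_nonneg (dom_nonneg M ?_ ?_ v) (mul_nonneg (by linarith) hk)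
  · intro i j
    simp only [hMd]
    rw [(hc1 i j).1, kap8_kt8, kap8_kt8, kt8_symm]
  · intro i
    have hP : (0 : ℝ) < 16 ^ (D - 1) := by positivity
    -- entries
    have hent : ∀ j, |ev (PL8 q t s i j) y - (e08 i j : ℤ)| * 16 ^ (D - 1) ≤ y * r09 N D (PL8 q t s i j) := by
      intro j
      have h1 := ev_c09 (PL8 q t s i j) (hc1 i j).2.1 hy0.le hy
      rwa [(hc1 i j).2.2] at h1
    have hrow : (R : ℝ) * ∑ j, (r09 N D (PL8 q t s i j) : ℝ) ≤ 400 * 16 ^ (D - 1) * (d08 i : ℤ) := by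
      exact_mod_cast hc2 i
    -- off diagonal entries
    have hoff : ∀ j, (if i = j then 0 else |M i j|) * 16 ^ (D - 1) ≤
        (if i = j then 0 else 512 * (kt8 i j : ℝ) * x * 16 ^ (D - 1)) +
          (if i = j then 0 else (R : ℝ) / 400 * x * r09 N D (PL8 q t s i j)) := by
      intro j
      by_cases hij : i = j
      · rw [if_pos hij, if_pos hij, if_pos hij]
        simp
      · rw [if_neg hij, if_neg hij, if_neg hij]
        have h1 := hent j
        have h2 : M i j = (ev (PL8 q t s i j) y - (e08 i j : ℤ)) + 512 * (kt8 i j : ℝ) * x := by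
          simp only [hMd]
          rw [kap8_kt8]
          unfold e08
          rw [if_neg hij]
          push_cast
          ring
        have hk0 : (0 : ℝ) ≤ kt8 i j := by exact_mod_cast kt8_nonneg i j
        have h3 : |M i j| ≤ |ev (PL8 q t s i j) y - (e08 i j : ℤ)| + 512 * (kt8 i j : ℝ) * x := by
          rw [h2]
          refine (abs_add_le _ _).trans (le_of_eq ?_)
          rw [abs_of_nonneg (by positivity : 0 ≤ 512 * (kt8 i j : ℝ) * x)]
        have h4 : y * r09 N D (PL8 q t s i j) ≤ (R : ℝ) / 400 * x * r09 N D (PL8 q t s i j) :=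
          mul_le_mul_of_nonneg_right hyx (Nat.cast_nonneg _)
        nlinarith [mul_le_mul_of_nonneg_right h3 hP.le]
    have hsum : (∑ j, if i = j then 0 else |M i j|) * 16 ^ (D - 1) ≤
        (∑ j, if i = j then 0 else 512 * (kt8 i j : ℝ)) * x * 16 ^ (D - 1) +
          (R : ℝ) / 400 * x * ∑ j, (if i = j then 0 else (r09 N D (PL8 q t s i j) : ℝ)) := by
      rw [Finset.sum_mul, Finset.sum_mul, Finset.sum_mul, Finset.mul_sum, ← Finset.sum_add_distrib]
      refine Finset.sum_le_sum fun j _ => (hoff j).trans (le_of_eq ?_)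
      split_ifs <;> ring
    -- the diagonal entry
    have hdiag : (1024 * x - (R : ℝ) / 400 * x * (r09 N D (PL8 q t s i i) : ℝ) / 16 ^ (D - 1)) ≤ M i i := by
      have h1 := hent i
      have he : ((e08 i i : ℤ) : ℝ) = 1024 := by unfold e08; rw [if_pos rfl]; norm_num
      rw [he] at h1
      have h2 : |ev (PL8 q t s i i) y - 1024| ≤ (R : ℝ) / 400 * x * (r09 N D (PL8 q t s i i) : ℝ) / 16 ^ (D - 1) := by
        rw [le_div_iff₀ hP]
        exact h1.trans (mul_le_mul_of_nonneg_right hyx (Nat.cast_nonneg _))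
      have h3 := (abs_le.1 h2).1
      have hkk : (kap8 i i : ℝ) ≤ 2 := by
        rw [kap8_kt8]
        have := kt8_diag i
        exact_mod_cast this
      simp only [hMd]
      have hx' : 0 ≤ 1 - x := by linarith
      nlinarith [mul_le_mul_of_nonneg_left hkk (by positivity : 0 ≤ 512 * (1 - x))]
    have hd : ((d08 i : ℤ) : ℝ) = 1024 - ∑ j, if i = j then 0 else 512 * (kt8 i j : ℝ) := by
      unfold d08
      push_cast
      congr 1
    have hR : ∑ j, (r09 N D (PL8 q t s i j) : ℝ) =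
        (∑ j, if i = j then 0 else (r09 N D (PL8 q t s i j) : ℝ)) + r09 N D (PL8 q t s i i) := by
      have h1 : ∀ j, (r09 N D (PL8 q t s i j) : ℝ) = (if i = j then 0 else (r09 N D (PL8 q t s i j) : ℝ)) +
          (if i = j then (r09 N D (PL8 q t s i j) : ℝ) else 0) := fun j => by split_ifs <;> simp
      rw [Finset.sum_congr rfl fun j _ => h1 j, Finset.sum_add_distrib]
      simp
    refine le_of_mul_le_mul_right (hsum.trans ?_) hP
    refine le_trans ?_ (mul_le_mul_of_nonneg_right hdiag hP.le)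
    rw [sub_mul, div_mul_cancel₀ _ hP.ne']
    rw [hd, hR] at hrow
    nlinarith [mul_le_mul_of_nonneg_left hrow hx0.le]

end PLT
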