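import Pool.Agent.PLT.AnYS
import Pool.Agent.PLT.BYM
import Pool.Agent.PLT.STRAll
import Pool.Agent.PLT.MonoT
import Pool.Agent.PLT.PhysY
import Pool.Agent.PLN.PlaxTheta

/-!
# The outputs of the blocks in one direction, and the two-point function of the plane

* `DirI a0 b0` : what the blocks deliver in the direction `(a0, b0)`, multiplicity `Fil.q`: (B-f) `ubd`, (S-W) `wim`,
  (B-Y) `by'`, (S-TR) `str`;
* **`thH_of`** : the structure `ThH` of `EndT`;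
* **`theta_of`** : the critical two-point function of the plane in every direction.
-/

set_option autoImplicit false
set_option linter.unusedSectionVars false
set_option linter.unusedVariables false

noncomputable section

open Complex MeasureTheory Filter Topology Finset

namespace PLT.TI

open NUP1 (l)
open PLX (Fil)
open PLT.BY PLT.Pa PLT.AY
open PLT.FS (ThH UBD WIM)
open Pool.Agent.PLC.Res

section
variable [Fil]

/-- **the outputs of the blocks** in one direction -/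
structure DirI (a0 b0 : ℕ) : Prop where
  /-- (B-f) -/
  ubd : ∃ d : ℝ, 0 < d ∧ UBD Fil.q a0 b0 d
  /-- (S-W) -/
  wim : ∃ c e0 d : ℝ, 0 < c ∧ 0 < e0 ∧ 0 < d ∧ WIM Fil.q a0 b0 c e0 d
  /-- (B-Y) -/
  by' : ∃ de : ℝ, 0 < de ∧ ∀ ep : ℝ, 0 < ep → ep ≤ 1 / 100 → ∀ ε : ℝ, 0 < ε → ∀ᶠ k : ℕ in atTop,
    ∀ D ∈ Nz de, ‖SB a0 b0 ep (k * (a0 + b0)) D‖ ≤ (k : ℝ) ^ ε
  /-- (S-TR) -/
  str : St.Sm3 fun ep _ _ => St.StrO ep

theorem Rc_mono {δ δ' : ℝ} (h : δ ≤ δ') : PLT.TwoC.Rc 0 l δ ⊆ PLT.TwoC.Rc 0 l δ' := by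
  rintro D ⟨h1, h2, h3⟩
  exact ⟨by linarith, by linarith, by linarith⟩

theorem Rc_Nz {δ : ℝ} {D : ℂ} (h : D ∈ PLT.TwoC.Rc 0 l δ) : D ∈ Nz δ :=
  ⟨by have := h.1; linarith, h.2.1, h.2.2⟩

/-- **one direction** -/
theorem thH_of {a0 b0 : ℕ} (ha : 1 ≤ a0) (hab : a0 < b0) (H : DirI a0 b0) : ∃ ep : ℝ,
    ThH Fil.q a0 b0 (wJ a0 b0) (wI Fil.q a0 b0) (fun k => YT a0 b0 ep (k * (a0 + b0)))
      (fun k => (-1) ^ Fil.xn (k * (a0 + b0))) := by
  have hb : 1 ≤ b0 := ha.trans hab.le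
  obtain ⟨ep, e1, J, hep, -, -, ⟨-, hep1, -⟩, hS⟩ :=
    ((St.Sm3.le (a := 1 / 100) (by norm_num)).and H.str).exists
  obtain ⟨d1, hd1, hU⟩ := H.ubd
  obtain ⟨c, e0, d2, hc, he0, hd2, hW⟩ := H.wim
  obtain ⟨d, hd, hd', hU', hW'⟩ := FS.common hd1 hd2 hU hW
  refine ⟨ep, wds_fB ha _, ⟨d, c, e0, hd, hd', hc, he0, hU', hW'⟩, Eventually.of_forall fun k => ?_, ?_, ?_, ?_⟩
  · rw [norm_pow, norm_neg, norm_one, one_pow]
  · obtain ⟨δ1, hδ1, -, h1⟩ := diff_YT (a0 := a0) (b0 := b0) ha hab.le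
    obtain ⟨δ2, hδ2, h2⟩ := H.by'
    refine ⟨min δ1 δ2, lt_min hδ1 hδ2, Eventually.of_forall fun k D hD => ?_, fun ε hε => ?_⟩
    · exact h1 ep hep.le (by linarith) _ D (Rc_mono (min_le_left _ _) hD)
    · filter_upwards [h2 ep hep hep1 ε hε] with k hk D hD
      exact hk D (Rc_Nz (Rc_mono (min_le_right _ _) hD))
  · obtain ⟨c', C, hc', hS'⟩ := hS
    exact str_YT ha hb hep.le (by linarith) (by norm_num) (by norm_num) hc' hS'
  · have hβ : 1 < NUGC.PLX.beC ep := beC_gt (by linarith)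
    have hβ' : NUGC.PLX.beC ep ≤ 4 / 3 := by
      unfold NUGC.PLX.beC
      linarith
    exact phys_YB ha hab.le hβ hβ'

end

/-- **the critical two-point function of the plane in every direction** from the outputs of the blocks -/
theorem theta_of (H : ∀ (q : ℕ) (hq : 1 ≤ q) (a b : ℕ), 1 ≤ a → a < b → @DirI ⟨q, hq⟩ a b) :
    ∃ A : ℝ, 0 < A ∧ ∀ ε : ℝ, 0 < ε → ∃ δ : ℝ, 0 < δ ∧ ∀ x ∈ vertices, 1 / δ ≤ ‖x‖ →
      |G zc x * ‖x‖ ^ (5 / 24 : ℝ) - A| ≤ ε := by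
  refine Pool.Agent.PLN.pubAll_of fun a b q ha hab hq => ?_
  obtain ⟨ep, h⟩ := @thH_of ⟨q, hq⟩ a b ha hab (H q hq a b ha hab)
  exact ⟨_, _, _, _, h⟩

end PLT.TI

end
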