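import Pool.Agent.PLT.ThInst
import Pool.Agent.PLT.DirAll
import Pool.Agent.PLT.EnvLT
import Pool.Agent.PLT.BYT
import Pool.Agent.PHK.RaysX

/-!
# The critical two-point function of the plane in every direction, from the gas theorems (helper51)

The four gas theorems: `S4C` and `S4MC` at the two points `parTh` (content of a tilted direction, class
`SBAB a0 b0`) and `par6` (rows on the imaginary axis, class `seaIB`).

* **`dirI_of`**: the outputs of the blocks in the direction `(a0, b0)`, `1 ≤ a0 < b0`;
* **`plaxTheta_of`**: `G(x) |x|^(5/24) → A > 0` as `|x| → ∞`, every direction.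
-/

set_option autoImplicit false
set_option linter.unusedSectionVars false

noncomputable section

open Complex MeasureTheory Filter Topology Finset

namespace PLT.TI

open PLX (Fil Ends)
open PLT.BY (seasB)
open Pool.Agent.PLC.Res

/-- **the gas theorems** of one direction -/
structure GasI [Fil] (a0 b0 : ℕ) : Prop where
  /-- the state sums of the tilted content -/
  gT : @S4C _ _root_.PLX.ends0 (SBAB a0 b0) parTh (enT parTh)
  /-- the measures of the tilted content -/
  mT : @S4MC _ _root_.PLX.ends0 (SBAB a0 b0) parTh (enT parTh)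
  /-- the state sums of the rows on the axis -/
  gI : @S4C _ _root_.PLX.ends0 seaIB PHK.par6 (enT PHK.par6)
  /-- the measures of the rows on the axis -/
  mI : @S4MC _ _root_.PLX.ends0 seaIB PHK.par6 (enT PHK.par6)

/-- **the outputs of the blocks** in one direction -/
theorem dirI_of [Fil] {a0 b0 : ℕ} (ha : 1 ≤ a0) (hab : a0 < b0) (H : GasI a0 b0) : DirI a0 b0 where
  ubd := by
    let _ := _root_.PLX.ends0
    have h := (seasB ha hab).de0
    exact ⟨deAB a0 b0 / 2, half_pos h, ubd_AB rfl rfl ha hab (half_lt_self h) H.mT⟩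
  wim := Top.wim_fin Pool.Agent.PLX.ffth_P H.mI ha (ha.trans hab.le)
  by' := BY.by_main ha hab H.gT
  str := Top.str_fin Pool.Agent.PLX.ffth_P H.gI H.mI

/-- **the critical two-point function of the plane in every direction** from the gas theorems -/
theorem plaxTheta_of (H : ∀ (q : ℕ) (hq : 1 ≤ q) (a b : ℕ), 1 ≤ a → a < b → @GasI ⟨q, hq⟩ a b) :
    ∃ A : ℝ, 0 < A ∧ ∀ ε : ℝ, 0 < ε → ∃ δ : ℝ, 0 < δ ∧ ∀ x ∈ vertices, 1 / δ ≤ ‖x‖ →
      |G zc x * ‖x‖ ^ (5 / 24 : ℝ) - A| ≤ ε :=
  theta_of fun q hq a b ha hab => @dirI_of ⟨q, hq⟩ a b ha hab (H q hq a b ha hab)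

end PLT.TI

end
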