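import Pool.Agent.PLT.GasF
import Pool.Agent.PLT.TopIC
import Pool.Agent.PLT.GeoC
import Pool.Agent.PHK.TopC6

/-!
# Sea on a curve: the functional of a family is bounded by its gas

For every family `F : FamC ι` with one body data `B`, exponents `one` of the objects, energies `en` and exponent `lin`:

* **`StabF F P en`**: stability of the pairs, constants uniform in the index;
* **`OneTF F P B one`**: one body factor of an object against the activity, the gain of the tent kept (34's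
  `OneRTC`, uniform in the index); **`ValF F lin`**: `‖Pf‖ exp lin ≤ C exp (- (1 - e1) Tb (log m)) bd`;
* **`ClsF F P B h1 h0`**: the class functions are bounded by the one body data in the strip of the curves, which
  contains the curves; the number of quanta;
* **`topFC_of`**: these give `TopFC F P B (∑ j, one .. j + en) lin`; `topFC_EcC`: for the exponents of `GasF`;
* **`ux_ofSG`**: the bounds `UXC F P` from the gas theorem, the environment and the four statements above.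
-/

set_option autoImplicit false
set_option linter.unusedSectionVars false
set_option linter.unusedVariables false

noncomputable section

open Complex MeasureTheory Finset
open scoped ENNReal
open PLX (Fil Ends)

namespace PLT

open NUO NUP1 NUP1S NUP1S.Ab NUP1S.AbC NUStabP NUDispW
open NUGC.PLX (OB pE qE)
open PHK
open PBF.PLX (InsE dN)
open PBP.PLX (gT)
open PotH.PLX (sN)

/-! ### one configuration -/

/-- **the bound of one configuration** from the bound of its gas, the one body bounds, the stability -/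
theorem perHKC {P : Par6} (hP : GoodP6 P) {C2 c1 : ℝ} (hc1 : 0 < c1) (K K2 : ℝ) {c2 aS τ : ℝ}
    (haS : 0 ≤ aS) (hc2 : 0 < c2) : ∃ K6 : ℝ, 1 ≤ K6 ∧ ∀ (B : OB), B.Nn →
    ∀ (C c : ℝ) (k : ℕ) (L ep e1 J : ℝ), 0 ≤ C → 1 ≤ L → ∀ (r : ℕ) (O : Fin r → Xo)
      (D D1 : Bool → ℝ → ℂ) (nX nY : ℕ) (ψ : (a b : ℕ) → (Fin a → ℝ) × (Fin b → ℝ) → ℝ≥0∞)
      (u g : Fin r → ℝ) (en A lin Q Bw w : ℝ), 0 ≤ A → 0 ≤ Q → 0 ≤ w → 0 ≤ Bw →
      (∀ W : Finset ℤ, (∏ i, ∏ j, if i < j then pairN6 P O i j else 1) * Real.exp en ≤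
        Real.exp (C2 * r) * Real.exp (-(c1 * ∑ w ∈ W, (cnt (fun i => ht (O i)) w : ℝ) ^ 2))) →
      w ≤ Bw * Real.exp (K2 * r) * Real.exp (∑ i, g i) →
      (∀ i, ob6 B P (O i) * Real.exp (u i + (K + K2 + C2)) ≤
        act6 C c c2 aS τ k L ep e1 J r (k6 (O i)) (ht (O i)) * Real.exp (-g i)) →
      (chgO6 O true ≤ nX → chgO6 O false ≤ nY → cnt6 O →
        ENNReal.ofReal A * gasIC B P D D1 O (nA6 nX O true) (nA6 nY O false)
          (ψ (nA6 nX O true) (nA6 nY O false)) ≤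
        ENNReal.ofReal (w * (Q * Real.exp (lin + (∑ i, u i + en + (K * r +
          c1 / 4 * win univ fun i => ht (O i))))))) →
    ∀ W : Finset ℤ, ENNReal.ofReal A * FnIC B P D D1 nX nY O ψ ≤
      ENNReal.ofReal (K6 * (Bw * (Q * Real.exp lin)) *
        (∏ i, act (C * K6) 1 c (1 / 10) (k + 1) L ep e1 J r (ht (O i))) *
        Real.exp (-(c1 / 4 * ∑ w ∈ W, (cO O w : ℝ) ^ 2))) := by
  obtain ⟨K6, hK6, H⟩ := asmK6 hP (c1 := c1) (τ := τ) C2 (K + K2) 0 haS hc2 hc1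
  refine ⟨K6, hK6, ?_⟩
  intro B hB C c k L ep e1 J hC hL r O D D1 nX nY ψ u g en A lin Q Bw w hA hQ hw hBw hstab hwB hone
    hgas W
  by_cases hc : chgO6 O true ≤ nX ∧ chgO6 O false ≤ nY ∧ cnt6 O
  swap
  · unfold FnIC
    rw [if_neg hc, mul_zero]
    exact zero_le
  have hobj : 0 ≤ objWc6 B P O := objWc6_nonneg hB P O
  have hQl : 0 ≤ Q * Real.exp lin := mul_nonneg hQ (Real.exp_pos _).le
  have key := H C c k L ep e1 J r O W (fun i => ob6 B P (O i)) (fun _ => 1) (fun i => u i + g i)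
    (fun _ => 0) (∏ i, ∏ j, if i < j then pairN6 P O i j else 1) en (Bw * (Q * Real.exp lin))
    (c1 / 4) hC hL
    (fun i => ob6_nonneg hB P (O i)) (fun _ => zero_le_one) (mul_nonneg hBw hQl) le_rfl
    hstab (fun _ => by simp) (fun i => by
      have h1 := mul_le_mul_of_nonneg_right (hone i) (Real.exp_pos (g i)).le
      calc ob6 B P (O i) * Real.exp (u i + g i + (K + K2 + C2 + 0))
          = ob6 B P (O i) * Real.exp (u i + (K + K2 + C2)) * Real.exp (g i) := by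
            rw [mul_assoc, ← Real.exp_add]
            ring_nf
        _ ≤ _ := h1
        _ = _ := by
            rw [mul_assoc, ← Real.exp_add, neg_add_cancel, Real.exp_zero, mul_one])
  simp only [Finset.prod_const_one, mul_one, Finset.sum_const_zero, add_zero] at key
  rw [FnIC_eq _ _ _ _ _ _ hc]
  have hg := hgas hc.1 hc.2.1 hc.2.2
  have e0 : ∀ a b c : ℝ≥0∞, a * (b * c) = b * (a * c) := fun a b c => by ring
  rw [e0]
  refine (mul_le_mul' le_rfl hg).trans ?_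
  rw [← ENNReal.ofReal_mul hobj]
  refine ENNReal.ofReal_le_ofReal (le_trans ?_ key)
  have hE : Real.exp (∑ i, (u i + g i) + (K + K2) * r + en + c1 / 4 * win univ fun i => ht (O i)) =
      Real.exp (K2 * r) * Real.exp (∑ i, g i) *
        Real.exp (∑ i, u i + en + (K * r + c1 / 4 * win univ fun i => ht (O i))) := by
    rw [← Real.exp_add, ← Real.exp_add, Finset.sum_add_distrib]
    congr 1
    ring
  rw [hE, Real.exp_add lin]
  obtain ⟨X, hX⟩ : ∃ X, X = Real.exp (∑ i, u i + en + (K * r +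
    c1 / 4 * win univ fun i => ht (O i))) := ⟨_, rfl⟩
  have hX0 : 0 < X := by
    rw [hX]
    exact Real.exp_pos _
  rw [← hX]
  have e : objWc6 B P O = (∏ i, ob6 B P (O i)) * (∏ i, loc6 (gH6 P O) P (O i)) *
      ∏ i, ∏ j, if i < j then pairN6 P O i j else 1 := rfl
  rw [← e]
  calc objWc6 B P O * (w * (Q * (Real.exp lin * X))) ≤ objWc6 B P O *
        ((Bw * Real.exp (K2 * r) * Real.exp (∑ i, g i)) * (Q * (Real.exp lin * X))) := by
        refine mul_le_mul_of_nonneg_left ?_ hobj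
        exact mul_le_mul_of_nonneg_right hwB (by positivity)
    _ = _ := by ring

variable [Fil] [Ends] {ι : Type}

/-! ### the inputs -/

/-- **stability** of the pairs of objects of a family, constants uniform in the index -/
def StabF (F : FamC ι) (P : Par6) (en : ℕ → ι → (r : ℕ) → (Fin r → Xo) → ℝ) : Prop :=
  ∃ C2 c1 : ℝ, 0 < c1 ∧ ∀ (m : ℕ) (i : ι), F.ok m i → ∀ (r : ℕ) (O : Fin r → Xo) (W : Finset ℤ),
    (∏ i, ∏ j, if i < j then pairN6 P O i j else 1) * Real.exp (en m i r O) ≤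
      Real.exp (C2 * r) * Real.exp (-(c1 * ∑ w ∈ W, (cnt (fun i => ht (O i)) w : ℝ) ^ 2))

/-- **one body factor of an object against the activity**, uniform in the index, the gain of the tent kept -/
def OneTF (F : FamC ι) (P : Par6) (B : ℝ → ℕ → ι → OB)
    (one : ℝ → ℝ → ℝ → ℕ → ι → (r : ℕ) → (Fin r → Xo) → Fin r → ℝ) : Prop :=
  ∃ aS c2 τ : ℝ, 0 ≤ aS ∧ 0 < c2 ∧ ∀ K0 : ℝ, ∃ C c : ℝ, 0 < C ∧ 0 < c ∧
  ∀ ep : ℝ, 0 < ep → ep ≤ 1 / 100 → ∀ e1 : ℝ, 0 < e1 → e1 ≤ 1 / 100 → ∀ J : ℝ, 0 ≤ J →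
  ∃ m1 : ℕ, ∀ m ≥ m1, ∀ i : ι, F.ok m i → ∀ (r : ℕ) (O : Fin r → Xo) (j : Fin r),
    ob6 (B ep m i) P (O j) * Real.exp (one ep e1 J m i r O j + K0) ≤
    act6 C c c2 aS τ 6 (Real.log m) ep e1 J r (k6 (O j)) (ht (O j)) *
      Real.exp (-gT e1 (Real.log m) (ht (O j)))

/-- **the value of the mean field of the family** -/
def ValF (F : FamC ι) (lin : ℝ → ℝ → ℕ → ι → ℝ) : Prop :=
  ∀ e1 : ℝ, 0 < e1 → e1 ≤ 1 / 100 → ∀ J : ℝ, 0 ≤ J → ∃ C : ℝ, 0 ≤ C ∧ ∃ m0 : ℕ, ∀ m ≥ m0,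
    ∀ i : ι, F.ok m i → ‖F.Pf m i‖ * Real.exp (lin e1 J m i) ≤
      C * Real.exp (-((1 - e1) * Tb (Real.log m))) * F.bd m i

/-- **the class of the family**: numbers of quanta, class functions against one body data, strip of the curves -/
structure ClsF (F : FamC ι) (P : Par6) (B : ℝ → ℕ → ι → OB) (h1 h0 : ℝ) : Prop where
  top : ∀ m, F.top m ≤ 2 * m
  xe : ∀ m, dN (F.top m) = Fil.xe m
  nn : ∀ ep m i, F.ok m i → (B ep m i).Nn
  bd : ∀ m i, F.ok m i → 0 ≤ F.bd m i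
  cls : ∀ ep : ℝ, 0 < ep → ep ≤ 1 / 300 → ∀ m i, F.ok m i → ∃ (κ x0 : ℝ) (Q : ℤ) (E : Set ℝ),
    OneCC (F.Z ep m i) (B ep m i) P (-(h1 + ep / 4)) (h0 + ep / 4) κ x0 Q E
  cur : ∀ ep : ℝ, 0 < ep → ep ≤ 1 / 100 → ∀ e1 : ℝ, 0 < e1 → e1 ≤ 1 / 100 → ∀ J : ℝ, 0 ≤ J →
    ∃ m1 : ℕ, ∀ m ≥ m1, ∀ i, F.ok m i →
      CurC (-(h1 + ep / 4)) (h0 + ep / 4) (F.D e1 J m i) (F.D1 e1 J m i)

private theorem two_div_exp {d : ℝ} (hd : 0 < d) : 4 * (1 + 1 / d) ≤ 4 * (2 / (1 - Real.exp (-d))) := by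
  have h1 : Real.exp (-d) < 1 := by
    rw [← Real.exp_zero]
    exact Real.exp_lt_exp.2 (by linarith)
  have h2 : 1 - Real.exp (-d) ≤ d := by
    have := Real.add_one_le_exp (-d)
    linarith
  have h3 : 1 - Real.exp (-d) ≤ 1 := by
    have := Real.exp_pos (-d)
    linarith
  have h0 : 0 < 1 - Real.exp (-d) := by linarith
  have k1 : 1 ≤ 1 / (1 - Real.exp (-d)) := by
    rw [le_div_iff₀ h0]
    linarith
  have k2 : 1 / d ≤ 1 / (1 - Real.exp (-d)) := one_div_le_one_div_of_le h0 h2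
  have e : 2 / (1 - Real.exp (-d)) = 1 / (1 - Real.exp (-d)) + 1 / (1 - Real.exp (-d)) := by ring
  rw [e]
  linarith

/-- **the functional of a family is bounded by its gas** -/
theorem topFC_of {F : FamC ι} {P : Par6} (hP : GoodP6 P) {B : ℝ → ℕ → ι → OB}
    {one : ℝ → ℝ → ℝ → ℕ → ι → (r : ℕ) → (Fin r → Xo) → Fin r → ℝ}
    {en : ℕ → ι → (r : ℕ) → (Fin r → Xo) → ℝ} {lin : ℝ → ℝ → ℕ → ι → ℝ} {h1 h0 : ℝ}
    (hS : StabF F P en) (hO : OneTF F P B one) (hV : ValF F lin) (hC : ClsF F P B h1 h0) :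
    TopFC F P B (fun ep e1 J m i r O => ∑ j, one ep e1 J m i r O j + en m i r O) lin := by
  intro K K2
  obtain ⟨C2, cs, hcs, hS⟩ := hS
  obtain ⟨aS, c2, τ, haS, hc2, hO⟩ := hO
  obtain ⟨Co, co, hCo, hco, hO⟩ := hO (K + K2 + C2)
  obtain ⟨K6, hK6, hper⟩ := perHKC hP hcs K K2 (C2 := C2) (τ := τ) haS hc2
  have hK60 : 0 < K6 := by linarith
  refine ⟨cs / 4, by positivity, fun c' hc' δ hδ => ?_⟩
  obtain ⟨a0, ha0, hsum⟩ := fe_sumC (C := Co * K6) (c := co) (b := 1 / 10) (c1 := cs / 4) (c' := c')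
    (k := 7) (by positivity) hco (by norm_num) (by positivity) hc' (δ := δ / 2) (by positivity)
  refine ⟨min a0 (min (1 / 100) (4 * δ)), by positivity, ?_⟩
  intro ep hep hep1 e1 he he1 J hJ hsm
  have hexpJ := Real.exp_pos (-(2 * Real.pi * J))
  have s1 : Real.exp (-(2 * Real.pi * J)) + 3 * e1 + 3 * ep ≤ a0 := hsm.trans (min_le_left _ _)
  have s2 : Real.exp (-(2 * Real.pi * J)) + 3 * e1 + 3 * ep ≤ 1 / 100 :=
    hsm.trans ((min_le_right _ _).trans (min_le_left _ _))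
  have s3 : Real.exp (-(2 * Real.pi * J)) + 3 * e1 + 3 * ep ≤ 4 * δ :=
    hsm.trans ((min_le_right _ _).trans (min_le_right _ _))
  have hep3 : ep ≤ 1 / 300 := by linarith
  have he3 : 3 * e1 ≤ 4 * δ := by linarith
  obtain ⟨L0, hsum⟩ := hsum 1 zero_le_one
  obtain ⟨m1, hO⟩ := hO ep hep hep1 e1 he he1 J hJ
  obtain ⟨CV, hCV, m2, hV⟩ := hV e1 he he1 J hJ
  obtain ⟨m3, hcur⟩ := hC.cur ep hep hep1 e1 he he1 J hJ
  obtain ⟨m4, hm4⟩ := Filter.eventually_atTop.1
    ((Real.tendsto_log_atTop.comp tendsto_natCast_atTop_atTop).eventually_ge_atTop (max L0 1))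
  refine ⟨4 * (K6 * CV), by positivity, max (max m1 m2) (max (max m3 m4) (8 + 2 * Fil.qo + 1)), ?_⟩
  intro m hm i hi φ w Q Bw d hQ hBw hd hw hgas
  have k1 : m1 ≤ m := ((le_max_left _ _).trans (le_max_left _ _)).trans hm
  have k2 : m2 ≤ m := ((le_max_right _ _).trans (le_max_left _ _)).trans hm
  have k3 : m3 ≤ m :=
    (((le_max_left _ _).trans (le_max_left _ _)).trans (le_max_right _ _)).trans hm
  have k4 : m4 ≤ m :=
    (((le_max_right _ _).trans (le_max_left _ _)).trans (le_max_right _ _)).trans hm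
  have k5 : 8 + 2 * Fil.qo + 1 ≤ m := ((le_max_right _ _).trans (le_max_right _ _)).trans hm
  have hmp : (0 : ℝ) < m := by
    have : 0 < m := by omega
    exact_mod_cast this
  have hL := hm4 m k4
  simp only [Function.comp_apply] at hL
  have hL0 : L0 ≤ Real.log m := (le_max_left _ _).trans hL
  have hL1 : 1 ≤ Real.log m := (le_max_right _ _).trans hL
  obtain ⟨κ, x0, Qz, E, hcls⟩ := hC.cls ep hep hep3 m i hi
  have htop := hC.top m
  have hnum : ((2 * (2 * (F.top m) + (0 + Fil.xe m)) + 1 : ℕ) : ℝ) ≤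
      Real.exp (2 * Real.log m) := by
    have e1 : Real.exp (2 * Real.log m) = ((m * m : ℕ) : ℝ) := by
      rw [two_mul, Real.exp_add, Real.exp_log hmp]
      push_cast
      ring
    have h1 : Fil.xe m ≤ Fil.qo * m := Fil.xe_le_qo (by omega)
    have h2 : 2 * (2 * (F.top m) + (0 + Fil.xe m)) + 1 ≤ m * m := by
      calc 2 * (2 * (F.top m) + (0 + Fil.xe m)) + 1 ≤ (8 + 2 * Fil.qo + 1) * m := by nlinarith
        _ ≤ m * m := Nat.mul_le_mul_right _ k5
    rw [e1]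
    exact_mod_cast h2
  have key := hsum (Real.log m) hL0 ep hep.le (by linarith) e1 he (by linarith) J hJ s1 m d
    (K6 * (Bw * (Q * Real.exp (lin e1 J m i)))) (F.top m) 0 (Fil.xe m) (F.Z ep m i) (B ep m i) P
    _ _ κ x0 Qz E (fun _ => F.cr e1 J m i) (fun _ => F.cr' e1 J m i) φ hd (by positivity) hnum hcls
    (fun n _ r O => hcur m k3 i hi) ?_
  · rw [hC.xe m]
    simp only [add_zero] at key
    refine (mul_le_mul' le_rfl key).trans ?_
    rw [← ENNReal.ofReal_mul (norm_nonneg _)]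
    refine ENNReal.ofReal_le_ofReal ?_
    have hv := hV m k2 i hi
    have hb := hC.bd m i hi
    have e2 : Real.exp (δ / 2 * Real.log m) = (m : ℝ) ^ (δ / 2) := by
      rw [Real.rpow_def_of_pos hmp, mul_comm]
    have e3 : Real.exp (-((1 - e1) * Tb (Real.log m))) = (m : ℝ) ^ (-(3 / 8 * (1 - e1))) := by
      rw [Real.rpow_def_of_pos hmp]
      congr 1
      unfold Tb
      ring
    have hm1 : (1 : ℝ) ≤ m := by exact_mod_cast (by omega : 1 ≤ m)
    have e4 : (m : ℝ) ^ (-(3 / 8 * (1 - e1))) * (m : ℝ) ^ (δ / 2) ≤ (m : ℝ) ^ (-(3 / 8 : ℝ) + δ) := by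
      rw [← Real.rpow_add hmp]
      exact Real.rpow_le_rpow_of_exponent_le hm1 (by linarith)
    have hde := two_div_exp hd
    rw [e2]
    rw [e3] at hv
    obtain ⟨N, hN⟩ : ∃ N, N = ‖F.Pf m i‖ * Real.exp (lin e1 J m i) := ⟨_, rfl⟩
    rw [← hN] at hv
    have hN0 : 0 ≤ N := by
      rw [hN]
      positivity
    have hd1 : 0 ≤ 4 * (1 + 1 / d) := by positivity
    calc ‖F.Pf m i‖ * (4 * (1 + 1 / d) * (K6 * (Bw * (Q * Real.exp (lin e1 J m i))) *
          (m : ℝ) ^ (δ / 2)))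
        = N * (4 * (1 + 1 / d)) * (K6 * Bw * Q * (m : ℝ) ^ (δ / 2)) := by
          rw [hN]
          ring
      _ ≤ (CV * (m : ℝ) ^ (-(3 / 8 * (1 - e1))) * F.bd m i) *
          (4 * (2 / (1 - Real.exp (-d)))) * (K6 * Bw * Q * (m : ℝ) ^ (δ / 2)) := by
          refine mul_le_mul_of_nonneg_right ?_ (by positivity)
          exact mul_le_mul hv hde hd1 (by positivity)
      _ = 4 * (K6 * CV) * Bw * Q * ((m : ℝ) ^ (-(3 / 8 * (1 - e1))) * (m : ℝ) ^ (δ / 2)) *
          F.bd m i * (2 / (1 - Real.exp (-d))) := by ring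
      _ ≤ 4 * (K6 * CV) * Bw * Q * (m : ℝ) ^ (-(3 / 8 : ℝ) + δ) *
          F.bd m i * (2 / (1 - Real.exp (-d))) := by
          have hx : 0 ≤ 2 / (1 - Real.exp (-d)) := by
            have : 0 ≤ 4 * (2 / (1 - Real.exp (-d))) := hd1.trans hde
            linarith
          gcongr
  · intro n hn b' hb' r hr O W
    have hn2 : n ≤ 2 * m := hn.trans htop
    obtain ⟨hw0, hw1⟩ := hw n hn2 r (by omega) O
    have hBw' : 0 ≤ (if (r : ℝ) ≤ Real.log m then Bw else Bw * Real.exp (c' * Real.log m)) := by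
      split_ifs
      · exact hBw
      · exact mul_nonneg hBw (Real.exp_pos _).le
    have hb2 : |b'| = d := by
      rcases hb' with h | h
      · rw [h, abs_of_pos hd]
      · rw [h, abs_neg, abs_of_pos hd]
    have h5 := hper (B ep m i) (hC.nn ep m i hi) Co co 6 (Real.log m) ep e1 J hCo.le hL1 r O
      (F.D e1 J m i) (F.D1 e1 J m i) (n + 0) (n + Fil.xe m) (fun a b x => φ n r O a b x)
      (fun j => one ep e1 J m i r O j) (fun j => gT e1 (Real.log m) (ht (O j))) (en m i r O)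
      (Real.exp (b' * ((m : ℝ) - n))) (lin e1 J m i) Q
      (if (r : ℝ) ≤ Real.log m then Bw else Bw * Real.exp (c' * Real.log m)) (w n r O)
      (Real.exp_pos _).le hQ hw0 hBw' (fun W => hS m i hi r O W) hw1
      (fun j => hO m k1 i hi r O j) (fun q1 q2 q3 => by
        refine (hgas b' hb2 n hn2 r (by omega) O (by simpa using q1) (by exact_mod_cast q2)
          q3).trans (le_of_eq ?_)
        congr 4
        ring) W
    refine h5.trans (ENNReal.ofReal_le_ofReal (le_of_eq ?_))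
    split_ifs <;> ring

/-- **the functional of a family is bounded by its gas**, exponents of `GasF` -/
theorem topFC_EcC {F : FamC ι} {P : Par6} (hP : GoodP6 P) {B : ℝ → ℕ → ι → OB} {en : EnC}
    {S : ℕ → ι → SeaC} {lin : ℝ → ℝ → ℕ → ι → ℝ} {h1 h0 : ℝ}
    (hS : StabF F P fun m i => en (S m i))
    (hO : OneTF F P B fun ep e1 J m i r O j =>
      @oneHC (S m i) _ _ P m (@Cv.etaC (S m i) e1 J m m) (TW ep e1 m) r O j)
    (hV : ValF F lin) (hC : ClsF F P B h1 h0) : TopFC F P B (EcC P en S) lin :=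
  topFC_of hP hS hO hV hC

/-- **U1, U3, U4 of a family**: gas theorem, environment, stability, one body bound, value, class -/
theorem ux_ofSG {SB : SeaCB} {F : FamC ι} {P : Par6} (hP : GoodP6 P) {en : EnC} {S : ℕ → ι → SeaC}
    {B : ℝ → ℕ → ι → OB} {lin : ℝ → ℝ → ℕ → ι → ℝ} {h1 h0 : ℝ}
    (hu : ∀ m i, F.ok m i → @SeaCU SB (S m i))
    (hw : ∀ m i, F.ok m i → @WinC (S m i) F.lo F.hi)
    (hdc : ∀ m i, F.ok m i → F.dc m i = fun t : ℝ => @Cv.Pc (S m i) t)
    (hc : CurFC F S) (hM : S4MC SB P en) (hE : EnvFC F S B lin)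
    (hS : StabF F P fun m i => en (S m i))
    (hO : OneTF F P B fun ep e1 J m i r O j =>
      @oneHC (S m i) _ _ P m (@Cv.etaC (S m i) e1 J m m) (TW ep e1 m) r O j)
    (hV : ValF F lin) (hC : ClsF F P B h1 h0) : UXC F P :=
  ux_ofSC hC.bd hu hw hdc hc hM hE (topFC_EcC hP hS hO hV hC)

end PLT

end
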