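import Pool.Agent.PLT.TopRC
import Pool.Agent.PLT.S4RCof

/-!
# Sea on a curve: the normalised class `W W` at fixed half quanta, with statistics

Twin of the general part of `PHK/TopR06` for any geometry `G : GeoC` (sequence of seas).

* **`topR0C`**: the normalised sum over the numbers of quanta of the functional with moduli, with a statistic
  `Φ i` and a weight `w ≤ Bw e^{K2 r} ∏ exp gT` of the objects, is at most
  `Bw m ^ e exp (- 2|τ| - 2|τ'| - |τ - τ'| / 2)`; the smallness of `ep`, `e1`, `exp (-2πJ)` only depends on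
  `A0`, `K2`, `e`; `m0` only on the bounds `Cn` (normaliser), `C0` (own kernels), `Cg` (direct factor);
* **`topR0C_val`**: the same for the value (no statistic), the sum over `n ≤ M` for every `M ≤ 2 m`.
-/

set_option autoImplicit false
set_option linter.unusedSectionVars false

noncomputable section

open Complex MeasureTheory Finset
open scoped ENNReal

open PLX (Fil Ends)

namespace PLT

open NUGC NUGC.PLX PBO PBO.PLX PBF PBF.PLX PBR PBR.PLX PHK PBI PBI.PLX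
open NUO NUP1 NUP1S NUP1S.Ab NUP1S.AbC NUP1S.AbG NURow NUP1.Leg NUStabP NUDispW
open PBP.PLX (gT)

variable [Fil] [Ends]

/-- **the class `W W` at fixed half quanta in the window**, normalised, with statistics -/
theorem topR0C {P : Par6} (hP : GoodP6 P) {G : GeoC} (hB : ∀ m β, (G.B m β).Nn)
    {h1 h0 : ℝ} (hh0 : h0 ≤ 1 / 5) (hcu : CurG h1 h0 G) (hS : StabU P G.en) {C3 : ℝ}
    (hspec : SpecPinC P C3) (hone : OneRTC P G) {SB : SeaCB} {en : EnC} {S : ℕ → SeaC}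
    (hG : GOkC SB P en S G) (h4 : S4MC SB P en) (A0 K2 : ℝ) {e : ℝ} (he : 0 < e) :
    ∃ κ0 : ℝ, 0 < κ0 ∧ κ0 ≤ 1 / 100 ∧
      ∀ (ι : Type*) (ok : ℕ → ι → Prop) (Φ : ι → ℕ → ℕ → InsE), StatFamC S A0 ok Φ →
      ∀ ep : ℝ, 0 < ep → ep ≤ κ0 → ∀ e1 : ℝ, 0 < e1 → e1 ≤ κ0 →
      ∀ J : ℝ, 0 ≤ J → Real.exp (-(2 * Real.pi * J)) ≤ κ0 →
      ∀ Cn C0 Cg : ℝ, 0 ≤ Cn → 0 ≤ C0 →
      ∃ m0 : ℕ, 2 ≤ m0 ∧ ∀ m ≥ m0,
      CurC (-(h1 + ep / 4)) (h0 + ep / 4) (G.D e1 J m) (G.D1 e1 J m) ∧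
      ∀ (X : Bool → Option O3 → ℂ → ℂ) (κ : ℝ) (er : ℕ) (E0 : Set ℝ),
      BsC X (fun g => (G.B m (beC ep)).mul g) P (-(h1 + ep / 4)) (h0 + ep / 4) κ er E0 →
      ∀ y : ℝ × ℝ, |y.1| ≤ TW ep e1 m → |y.2| ≤ TW ep e1 m → ∀ i : ι, ok m i →
      ∀ (w : (r : ℕ) → (Fin r → Xo) → ℝ) (Bw : ℝ), 0 ≤ Bw → (∀ r O, 0 ≤ w r O) →
      (∀ (r : ℕ) (O : Fin r → Xo), w r O ≤ Bw * Real.exp (K2 * r) *
          Real.exp (∑ i, gT e1 (Real.log m) (ht (O i)))) →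
      ∀ c k1 k2 gg : ℝ, 0 ≤ c → 0 ≤ k1 → 0 ≤ k2 → 0 ≤ gg → c * Real.exp (G.EM m) ≤ Cn →
      k1 * Real.exp (G.MF m true .w (vl (htL .W) y.1)) ≤ C0 * Real.exp (-|y.1|) →
      k2 * Real.exp (G.MF m false .w (vl (htL .W) y.2)) ≤ C0 * Real.exp (-|y.2|) →
      gg ≤ Cg * Real.exp (-|y.1 - y.2|) →
      ENNReal.ofReal (c * (k1 * k2 * gg)) *
        ∑ n ∈ range (2 * m + 1), FEC (ZW6 X y) P n (n + Fil.xe m)
          (fun _ _ => G.D e1 J m) (fun _ _ => G.D1 e1 J m) (fun r O a b x => ENNReal.ofReal (w r O) *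
            Φ i m n r O a b x) ≤
        ENNReal.ofReal (Bw * ((m : ℝ) ^ e * Real.exp (-(2 * |y.1| + 2 * |y.2| + |y.1 - y.2| / 2)))) := by
  obtain ⟨K, Ca, hK, hCa, hS4⟩ := s4K_ofC hG h4
  obtain ⟨κ0, hκ, hκ1, htop⟩ := topRC hP hB hh0 hcu hS hspec hone (K + A0) K2 hCa (e := e / 2)
    (by linarith)
  refine ⟨κ0, hκ, hκ1, ?_⟩
  intro ι ok Φ hst ep hep hep1 e1 he1 he11 J hJ hJ1 Cn C0 Cg hCn hC0
  obtain ⟨Cst, hCst, m0, hm0, htop⟩ := htop ι ok Φ (hS4 A0 ι ok Φ hst) ep hep hep1 e1 he1 he11 J hJ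
    hJ1
  obtain ⟨m1, hm1⟩ := Filter.eventually_atTop.1
    (((tendsto_rpow_atTop (show (0 : ℝ) < e / 2 by linarith)).comp
      tendsto_natCast_atTop_atTop).eventually_ge_atTop (C0 * C0 * Cg * Cst * Cn))
  refine ⟨max m0 m1, hm0.trans (le_max_left _ _), fun m hm => ?_⟩
  have hk0 : m0 ≤ m := (le_max_left _ _).trans hm
  have hk1 : m1 ≤ m := (le_max_right _ _).trans hm
  have h1k : 1 ≤ m := by omega
  have hkp : (0 : ℝ) < m := by exact_mod_cast h1k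
  obtain ⟨hcur, htop⟩ := htop m hk0
  refine ⟨hcur, fun X κ er E0 hX y hy1 hy2 i hok w Bw hBw hw0 hwB c k1 k2 gg hc hk1' hk2' hgg hcn g1
    g2 g3 => ?_⟩
  have hCg : 0 ≤ Cg := by
    have := hgg.trans g3
    exact nonneg_of_mul_nonneg_left this (Real.exp_pos _)
  have key := htop X κ er E0 hX y hy1 hy2 i hok w Bw hBw hw0 hwB C0 Cg k1 k2 gg hC0 hk1' hk2' hgg g1
    g2 g3
  rw [ENNReal.ofReal_mul hc, mul_assoc]
  refine (mul_le_mul' le_rfl key).trans ?_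
  rw [← ENNReal.ofReal_mul hc]
  refine ENNReal.ofReal_le_ofReal ?_
  obtain ⟨X0, hX0⟩ : ∃ X0, X0 = Real.exp (G.EM m) := ⟨_, rfl⟩
  rw [← hX0] at hcn ⊢
  have hX00 : 0 ≤ X0 := by
    rw [hX0]
    exact (Real.exp_pos _).le
  have hpow : (m : ℝ) ^ e = (m : ℝ) ^ (e / 2) * (m : ℝ) ^ (e / 2) := by
    rw [← Real.rpow_add hkp]
    congr 1
    ring
  have hbig : C0 * C0 * Cg * Cst * Cn ≤ (m : ℝ) ^ (e / 2) := hm1 m hk1
  have hp0 : 0 ≤ (m : ℝ) ^ (e / 2) := by positivity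
  obtain ⟨Y, hY⟩ : ∃ Y, Y = Real.exp (-(2 * |y.1| + 2 * |y.2| + |y.1 - y.2| / 2)) := ⟨_, rfl⟩
  rw [← hY]
  have hE0 : 0 ≤ Y := by
    rw [hY]
    exact (Real.exp_pos _).le
  calc c * (C0 * C0 * Cg * Bw * (Cst * (m : ℝ) ^ (e / 2) * X0 * Y))
      = Bw * (C0 * C0 * Cg * Cst * (c * X0)) * (m : ℝ) ^ (e / 2) * Y := by ring
    _ ≤ Bw * (C0 * C0 * Cg * Cst * Cn) * (m : ℝ) ^ (e / 2) * Y := by gcongr
    _ ≤ Bw * (m : ℝ) ^ (e / 2) * (m : ℝ) ^ (e / 2) * Y := by gcongr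
    _ = _ := by
        rw [hpow]
        ring

/-- **the value without statistic**, every partial sum over the number of quanta -/
theorem topR0C_val {P : Par6} (hP : GoodP6 P) {G : GeoC} (hB : ∀ m β, (G.B m β).Nn)
    {h1 h0 : ℝ} (hh0 : h0 ≤ 1 / 5) (hcu : CurG h1 h0 G) (hS : StabU P G.en) {C3 : ℝ}
    (hspec : SpecPinC P C3) (hone : OneRTC P G) {SB : SeaCB} {en : EnC} {S : ℕ → SeaC}
    (hG : GOkC SB P en S G) (h4 : S4MC SB P en) {e : ℝ} (he : 0 < e) :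
    ∃ κ0 : ℝ, 0 < κ0 ∧ κ0 ≤ 1 / 100 ∧
      ∀ ep : ℝ, 0 < ep → ep ≤ κ0 → ∀ e1 : ℝ, 0 < e1 → e1 ≤ κ0 →
      ∀ J : ℝ, 0 ≤ J → Real.exp (-(2 * Real.pi * J)) ≤ κ0 →
      ∀ Cn C0 Cg : ℝ, 0 ≤ Cn → 0 ≤ C0 →
      ∃ m0 : ℕ, 2 ≤ m0 ∧ ∀ m ≥ m0,
      CurC (-(h1 + ep / 4)) (h0 + ep / 4) (G.D e1 J m) (G.D1 e1 J m) ∧
      ∀ (X : Bool → Option O3 → ℂ → ℂ) (κ : ℝ) (er : ℕ) (E0 : Set ℝ),
      BsC X (fun g => (G.B m (beC ep)).mul g) P (-(h1 + ep / 4)) (h0 + ep / 4) κ er E0 →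
      ∀ y : ℝ × ℝ, |y.1| ≤ TW ep e1 m → |y.2| ≤ TW ep e1 m →
      ∀ c k1 k2 gg : ℂ, ‖c‖ * Real.exp (G.EM m) ≤ Cn →
      ‖k1‖ * Real.exp (G.MF m true .w (vl (htL .W) y.1)) ≤ C0 * Real.exp (-|y.1|) →
      ‖k2‖ * Real.exp (G.MF m false .w (vl (htL .W) y.2)) ≤ C0 * Real.exp (-|y.2|) →
      ‖gg‖ ≤ Cg * Real.exp (-|y.1 - y.2|) → ∀ M ≤ 2 * m,
      ‖c * (k1 * k2 * gg) * ∑ n ∈ range (M + 1), FFC (ZW6 X y) P n (n + Fil.xe m)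
          (fun _ _ => G.D e1 J m) (fun _ _ => G.D1 e1 J m) (fun _ _ _ _ _ => 1)‖ ≤
        (m : ℝ) ^ e * Real.exp (-(2 * |y.1| + 2 * |y.2| + |y.1 - y.2| / 2)) := by
  obtain ⟨κ0, hκ, hκ1, h⟩ := topR0C hP hB hh0 hcu hS hspec hone hG h4 0 0 he
  refine ⟨κ0, hκ, hκ1, fun ep hep hep1 e1 he1 he11 J hJ hJ1 Cn C0 Cg hCn hC0 => ?_⟩
  obtain ⟨m0, hm0, h⟩ := h Unit (fun _ _ => True) _ (statFam_oneC S _) ep hep hep1 e1 he1 he11 J hJ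
    hJ1 Cn C0 Cg hCn hC0
  refine ⟨m0, hm0, fun m hm => ?_⟩
  obtain ⟨hcur, h⟩ := h m hm
  refine ⟨hcur, fun X κ er E0 hX y hy1 hy2 c k1 k2 gg hc g1 g2 g3 M hM => ?_⟩
  have key := h X κ er E0 hX y hy1 hy2 () trivial (fun _ _ => 1) 1 zero_le_one
    (fun _ _ => zero_le_one)
    (fun r O => by
      rw [zero_mul, Real.exp_zero, one_mul, one_mul]
      exact Real.one_le_exp (Finset.sum_nonneg fun i _ => PBP.PLX.gT_nonneg _ _ _))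
    ‖c‖ ‖k1‖ ‖k2‖ ‖gg‖ (norm_nonneg _) (norm_nonneg _) (norm_nonneg _) (norm_nonneg _) hc g1 g2 g3
  have hR : 0 ≤ (m : ℝ) ^ e * Real.exp (-(2 * |y.1| + 2 * |y.2| + |y.1 - y.2| / 2)) := by positivity
  have en1 : ‖c * (k1 * k2 * gg)‖ = ‖c‖ * (‖k1‖ * ‖k2‖ * ‖gg‖) := by
    rw [norm_mul, norm_mul, norm_mul]
  rw [← ENNReal.ofReal_le_ofReal_iff hR, norm_mul, ENNReal.ofReal_mul (norm_nonneg _), en1]
  rw [one_mul] at key
  refine le_trans (mul_le_mul' le_rfl ?_) key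
  rw [ofReal_norm]
  refine (enorm_sum_le _ _).trans ?_
  refine le_trans (Finset.sum_le_sum fun n _ => FFC_le _) ?_
  refine (Finset.sum_le_sum_of_subset (f := fun n =>
    FAC (ZW6 X y) P n (n + Fil.xe m) (fun _ _ => G.D e1 J m) (fun _ _ => G.D1 e1 J m)
      (fun _ _ _ _ _ => 1))
    (show range (M + 1) ⊆ range (2 * m + 1) from Finset.range_subset_range.2 (by omega))).trans ?_
  refine Finset.sum_le_sum fun n _ => ?_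
  rw [FAC_eq_FEC]
  exact FEC_mono fun r O a b x => by simp

end PLT

end
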