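import Pool.Agent.PLT.AsmIC
import Pool.Agent.PLT.LtC
import Pool.Agent.PHK.TopR6

/-!
# Sea on a curve: the class `W1 W1'` at fixed half quanta, with statistics and pinned objects

Twin of `PHK/TopR6`.  Abstract geometry `G : GeoC` (sequence of seas), base functions `X` (`BsC`, any number `e` of
additional rows), half quanta at `5/4 l + i y.1`, `5/4 l + i y.2`, both heights in the window `TW`, curves of the
geometry (`CurG h1 h0 G`).

* `oneC_WWC`: the class functions `ZW6 X y` are bounded by the one body data;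
* **`topR_gasC`**: the sum over the numbers of quanta and the configurations of the functional with moduli, with a
  statistic `Φ i` and a weight of the objects `w ≤ Bw e^{K2 r} ∏ exp gT`, is at most
  `Bw Cst m^(Ca (ep + e1) + δ) exp EM exp MF exp MF' exp (- gnP) exp (|τ - τ'| / 2)`;
* **`topRC`**: times the kernels: `Bw Cst m^e exp EM exp (- 2|τ| - 2|τ'| - |τ - τ'| / 2)`.
-/

set_option autoImplicit false
set_option linter.unusedSectionVars false

noncomputable section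

open Complex MeasureTheory Finset
open scoped ENNReal

open PLX (Fil Ends)

namespace PLT

open NUGC NUGC.PLX PBO PBO.PLX PBF PBF.PLX PBR PBR.PLX PHK PBI PBI.PLX
open NUO NUP1 NUP1S NUP1S.Ab NUP1S.AbC NUP1S.AbG NURow NUP1.Leg NUStabP NUDispW
open NUSea.PLX.H0 (Gd)
open NUSp (qc)
open PBP.PLX (gT)

theorem oneC_WWC {X : Bool → Option O3 → ℂ → ℂ} {ob : (Bool → ℂ → ℝ) → OB} {P : Par6}
    {lo hi κ : ℝ} {e : ℕ} {E0 : Set ℝ} (hhi : hi ≤ 1 / 4) (hB : BsC X ob P lo hi κ e E0) (y : ℝ × ℝ) :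
    OneCC (ZW6 X y) (ob (gW6 y)) P lo hi κ ((1 - hi) * l) (((0 : ℕ) : ℤ) - (e : ℕ))
      ({(vl (htL .W) y.1).im, (vl (htL .W) y.2).im} ∪ E0) := by
  have hw : (vl (htL .W) y.1).re = htL .W := by simp [vl]
  have hw' : (vl (htL .W) y.2).re = htL .W := by simp [vl]
  exact cls_oneC hhi hB (ltC_ht hhi .W) (ltC_ht hhi .W) hw hw' (aX := 0) (aY := e) (by
    push_cast
    ring)

variable [Fil] [Ends]

/-- **the class `W1 W1'` at fixed half quanta, the gas side**; the smallness of `ep`, `e1`, `exp (-2πJ)` is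
independent of the statistic -/
theorem topR_gasC {P : Par6} (hP : GoodP6 P) {G : GeoC} (hB : ∀ m β, (G.B m β).Nn)
    {h1 h0 : ℝ} (hh0 : h0 ≤ 1 / 5) (hcu : CurG h1 h0 G) (hS : StabU P G.en) {C3 : ℝ}
    (hspec : SpecPinC P C3) (hone : OneRTC P G) (K K2 : ℝ)
    {δ : ℝ} (hδ : 0 < δ) : ∃ a0 : ℝ, 0 < a0 ∧
      ∀ (ι : Type*) (ok : ℕ → ι → Prop) (Φ : ι → ℕ → ℕ → InsE) (Ca : ℝ), S4KC P G ok Φ K Ca →
      ∀ ep : ℝ, 0 < ep → ep ≤ 1 / 100 → ∀ e1 : ℝ, 0 < e1 → e1 ≤ 1 / 100 → ∀ J : ℝ, 0 ≤ J →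
      Real.exp (-(2 * Real.pi * J)) + 3 * e1 + 3 * ep ≤ a0 →
      ∃ Cst : ℝ, 0 ≤ Cst ∧ ∃ m0 : ℕ, 2 ≤ m0 ∧ ∀ m ≥ m0,
      CurC (-(h1 + ep / 4)) (h0 + ep / 4) (G.D e1 J m) (G.D1 e1 J m) ∧
      ∀ (X : Bool → Option O3 → ℂ → ℂ) (κ : ℝ) (er : ℕ) (E0 : Set ℝ),
      BsC X (fun g => (G.B m (beC ep)).mul g) P (-(h1 + ep / 4)) (h0 + ep / 4) κ er E0 →
      ∀ y : ℝ × ℝ, |y.1| ≤ TW ep e1 m → |y.2| ≤ TW ep e1 m → ∀ i : ι, ok m i →
      ∀ (w : (r : ℕ) → (Fin r → Xo) → ℝ) (Bw : ℝ), 0 ≤ Bw → (∀ r O, 0 ≤ w r O) →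
      (∀ (r : ℕ) (O : Fin r → Xo), w r O ≤ Bw * Real.exp (K2 * r) *
          Real.exp (∑ i, gT e1 (Real.log m) (ht (O i)))) →
      ∑ N ∈ range (2 * m + 1), FEC (ZW6 X y) P N (N + Fil.xe m)
          (fun _ _ => G.D e1 J m) (fun _ _ => G.D1 e1 J m) (fun r O a b x => ENNReal.ofReal (w r O) *
            Φ i m N r O a b x) ≤
        ENNReal.ofReal (Bw * (Cst * (m : ℝ) ^ (Ca * (ep + e1) + δ) *
          Real.exp (G.EM m) *
          (Real.exp (G.MF m true .w (vl (htL .W) y.1)) * Real.exp (G.MF m false .w (vl (htL .W) y.2))) *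
          Real.exp (-gnP e1 J m (-(3 * NUMF.l)) (-(3 * NUMF.l)) y) *
          Real.exp (|y.1 - y.2| / 2))) := by
  obtain ⟨C, c, b, c1, k, hC, hc, hb, hc1, hper⟩ := perI_ofKC hP hB hS hspec hone K K2
  obtain ⟨K3, hK3, hQ2⟩ := grp_QX
  obtain ⟨a0, ha0, hsum⟩ := fe_sumC (k := k) hC hc hb hc1 le_rfl (δ := δ / 2) (by linarith)
  refine ⟨a0, ha0, fun ι ok Φ Ca h4 ep hep hep1 e1 he1 he11 J hJ hsm => ?_⟩
  have hper := hper ι ok Φ Ca h4
  obtain ⟨L0, hsum⟩ := hsum 1 zero_le_one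
  obtain ⟨d, Cst, hd, hCst, M0, hper⟩ := hper ep hep hep1 e1 he1 he11 J hJ (δ / 2) (by linarith)
  obtain ⟨m1, hcur⟩ := hcu ep hep hep1 e1 he1 he11 J hJ
  obtain ⟨m2, hm2⟩ := Filter.eventually_atTop.1
    ((Real.tendsto_log_atTop.comp tendsto_natCast_atTop_atTop).eventually_ge_atTop L0)
  obtain ⟨c0, hxe⟩ : ∃ c : ℕ, ∀ m, Fil.xe m ≤ Fil.q * m + c := ⟨Ends.o, Fil.xe_le⟩
  refine ⟨4 * (1 + 1 / d) * (Cst * Real.exp K3), by positivity,
    max (max M0 m1) (max m2 (2 * Fil.q + 2 * c0 + 9)), ?_, fun m hm => ?_⟩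
  · have := le_max_right (max M0 m1) (max m2 (2 * Fil.q + 2 * c0 + 9))
    have := le_max_right m2 (Fil.q + c0 + 6)
    omega
  have hM0 : M0 ≤ m := ((le_max_left _ _).trans (le_max_left _ _)).trans hm
  have hM1 : m1 ≤ m := ((le_max_right _ _).trans (le_max_left _ _)).trans hm
  have hM2 : m2 ≤ m := ((le_max_left _ _).trans (le_max_right _ _)).trans hm
  have hMq : 2 * Fil.q + 2 * c0 + 9 ≤ m := ((le_max_right _ _).trans (le_max_right _ _)).trans hm
  have hM5 : 5 ≤ m := by omega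
  have hmp : (0 : ℝ) < m := by
    have : 0 < m := by omega
    exact_mod_cast this
  have hcurm : CurC (-(h1 + ep / 4)) (h0 + ep / 4) (G.D e1 J m) (G.D1 e1 J m) := hcur m hM1
  refine ⟨hcurm, fun X κ er E0 hX y hy1 hy2 i hok w Bw hBw hw0 hwB => ?_⟩
  have hTW0 : 0 ≤ TW ep e1 m := (abs_nonneg _).trans hy1
  have key := hper m hM0 2 (gdK .W .W (false, false) y) 0 (Fil.xe m) m
    (Real.exp K3 * QX (TW ep e1 m) (qh .W false) (qh .W false) y.1 y.2) le_rfl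
    (by
      intro i j hij
      fin_cases i <;> fin_cases j
      · exact absurd rfl hij
      · show true ≠ false
        simp
      · show false ≠ true
        simp
      · exact absurd rfl hij)
    (by norm_num) (Nat.le_add_right _ _) (Nat.le_add_right _ _)
    (by
      rw [Fin.sum_univ_two]
      show ((0 : ℕ) : ℝ) + Fil.xe m - ((Fil.xe m : ℕ) : ℝ) = -(NUC43.sg true * qc (clh .W false) / 2 +
        NUC43.sg false * qc (clh .W false) / 2)
      unfold NUC43.sg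
      simp only [if_true, Bool.false_eq_true, if_false, Nat.cast_zero]
      ring)
    (by
      rw [sub_self, abs_zero]
      norm_num)
    (by
      intro i
      fin_cases i
      · exact hy1
      · exact hy2)
    (mul_nonneg (Real.exp_pos _).le (QX_nonneg _ _ _ _ _))
    (by
      intro T1 hT1
      have k1 := hQ2 (gdK .W .W (false, false) y) rfl rfl (by
        intro i
        fin_cases i <;> simp [gdK, clh]) (TW ep e1 m) T1 hTW0 hT1 (by
        intro i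
        left
        fin_cases i <;> rfl)
      refine le_trans (le_of_eq ?_) k1
      unfold enQ
      congr 1
      have x1 : xs T1 y.1 = 0 := by
        unfold xs
        exact max_eq_right (by linarith)
      have x2 : xs T1 y.2 = 0 := by
        unfold xs
        exact max_eq_right (by linarith)
      show _ = 1 / 2 * _ + NUSea.PLX.H0.cstF T1 (gdK .W .W (false, false) y) true *
        (-∑ i, NUC43.sg ((gdK .W .W (false, false) y) i).σ *
          qc ((gdK .W .W (false, false) y) i).c / 2) + 37 / 20 * max (xs T1 y.1) (xs T1 y.2) +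
        12 / 5 * max (ex (TW ep e1 m) (qc (clh .W false)) y.1)
          (ex (TW ep e1 m) (qc (clh .W false)) y.2)
      have x3 : ∀ τ, ex (TW ep e1 m) (qc (clh .W false)) τ = 0 := by
        intro τ
        unfold ex
        rw [if_pos]
        simp [clh, qc]
      have x4 : (∑ i, NUC43.sg ((gdK .W .W (false, false) y) i).σ *
          qc ((gdK .W .W (false, false) y) i).c / 2) = 0 := by
        rw [Fin.sum_univ_two]
        show NUC43.sg true * qc (clh .W false) / 2 +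
          NUC43.sg false * qc (clh .W false) / 2 = 0
        unfold NUC43.sg
        simp only [if_true, Bool.false_eq_true, if_false]
        ring
      rw [x1, x2, x3, x3, x4]
      simp)
    i hok w Bw hBw hw0 hwB
  have hgnF : gnF e1 J m (gdK .W .W (false, false) y) =
      gnP e1 J m (-(3 * NUMF.l)) (-(3 * NUMF.l)) y := by
    unfold gnF gnP
    rw [Fin.sum_univ_two]
    show 12 * NUMF.l * NUGC.PLX.hC e1 J m 0 + (2 * (phC .w * NUGC.PLX.hC e1 J m y.1) +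
      2 * (phC .w * NUGC.PLX.hC e1 J m y.2)) = _
    unfold phC
    ring
  have hMF : ∑ i, G.MF m (gdK .W .W (false, false) y i).σ (gdK .W .W (false, false) y i).c
      (gdK .W .W (false, false) y i).w =
      G.MF m true .w (vl (htL .W) y.1) + G.MF m false .w (vl (htL .W) y.2) := by
    rw [Fin.sum_univ_two, ← w_gd true .W false y.1, ← w_gd false .W false y.2]
    rfl
  have hqh : qh .W false = 1 := by simp [qh, clh, qc]
  rw [hgnF, hMF, hqh, QX_ww6 hy1 hy2] at key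
  rw [show ((G.B m (4 / 3 * (1 - ep))).mul (spF (gdK .W .W (false, false) y))) =
    (G.B m (beC ep)).mul (gW6 y) from gW_eq6 (G.B m (beC ep)) y] at key
  have hL0 : L0 ≤ Real.log m := hm2 m hM2
  have hnum : ((2 * (2 * (2 * m) + (0 + Fil.xe m)) + 1 : ℕ) : ℝ) ≤ Real.exp (2 * Real.log m) := by
    have e : Real.exp (2 * Real.log m) = (m : ℝ) * m := by
      rw [two_mul, Real.exp_add, Real.exp_log hmp]
    rw [e]
    have h2 := hxe m
    have h3 : (2 * Fil.q + 2 * c0 + 9) * m ≤ m * m := Nat.mul_le_mul_right _ hMq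
    have h4 : (2 * Fil.q + 2 * c0 + 9) * m = 2 * (Fil.q * m) + 2 * (c0 * m) + 9 * m := by ring
    have h5 : c0 * 1 ≤ c0 * m := Nat.mul_le_mul_left _ (by omega)
    have : 2 * (2 * (2 * m) + (0 + Fil.xe m)) + 1 ≤ m * m := by omega
    exact_mod_cast this
  have hoc := oneC_WWC (by linarith) hX y
  have h5 := hsum (Real.log m) hL0 ep hep.le (hep1.trans (by norm_num)) e1 he1 (by linarith) J hJ hsm m d _ (2 * m) 0 (Fil.xe m)
    (ZW6 X y) ((G.B m (beC ep)).mul (gW6 y)) P _ _ κ _ _ _ _ _ _ hd ?_ hnum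
    hoc (fun n _ r O => hcurm) key
  swap
  · positivity
  simp only [add_zero] at h5
  refine h5.trans (ENNReal.ofReal_le_ofReal (le_of_eq ?_))
  have hm1' : 1 ≤ m := by omega
  rw [exp_log_mul6 hm1']
  have hpow : (m : ℝ) ^ (Ca * (ep + e1) + δ) =
      (m : ℝ) ^ (Ca * (ep + e1) + δ / 2) * (m : ℝ) ^ (δ / 2) := by
    rw [← Real.rpow_add hmp]
    congr 1
    ring
  rw [hpow, Real.exp_add (G.MF m true .w (vl (htL .W) y.1))]
  ring

/-- **the class `W1 W1'` at fixed half quanta, with the kernels (U5N)**: `k1`, `k2` = moduli of the own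
kernels, `gg` = modulus of the direct factor; the smallness of `ep`, `e1`, `exp (-2πJ)` is independent of
the statistic -/
theorem topRC {P : Par6} (hP : GoodP6 P) {G : GeoC} (hB : ∀ m β, (G.B m β).Nn)
    {h1 h0 : ℝ} (hh0 : h0 ≤ 1 / 5) (hcu : CurG h1 h0 G) (hS : StabU P G.en) {C3 : ℝ}
    (hspec : SpecPinC P C3) (hone : OneRTC P G) (K K2 : ℝ)
    {Ca : ℝ} (hCa : 0 ≤ Ca) {e : ℝ} (he : 0 < e) :
    ∃ κ0 : ℝ, 0 < κ0 ∧ κ0 ≤ 1 / 100 ∧
      ∀ (ι : Type*) (ok : ℕ → ι → Prop) (Φ : ι → ℕ → ℕ → InsE), S4KC P G ok Φ K Ca →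
      ∀ ep : ℝ, 0 < ep → ep ≤ κ0 → ∀ e1 : ℝ, 0 < e1 → e1 ≤ κ0 →
      ∀ J : ℝ, 0 ≤ J → Real.exp (-(2 * Real.pi * J)) ≤ κ0 →
      ∃ Cst : ℝ, 0 ≤ Cst ∧ ∃ m0 : ℕ, 2 ≤ m0 ∧ ∀ m ≥ m0,
      CurC (-(h1 + ep / 4)) (h0 + ep / 4) (G.D e1 J m) (G.D1 e1 J m) ∧
      ∀ (X : Bool → Option O3 → ℂ → ℂ) (κ : ℝ) (er : ℕ) (E0 : Set ℝ),
      BsC X (fun g => (G.B m (beC ep)).mul g) P (-(h1 + ep / 4)) (h0 + ep / 4) κ er E0 →
      ∀ y : ℝ × ℝ, |y.1| ≤ TW ep e1 m → |y.2| ≤ TW ep e1 m → ∀ i : ι, ok m i →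
      ∀ (w : (r : ℕ) → (Fin r → Xo) → ℝ) (Bw : ℝ), 0 ≤ Bw → (∀ r O, 0 ≤ w r O) →
      (∀ (r : ℕ) (O : Fin r → Xo), w r O ≤ Bw * Real.exp (K2 * r) *
          Real.exp (∑ i, gT e1 (Real.log m) (ht (O i)))) →
      ∀ C0 Cg k1 k2 gg : ℝ, 0 ≤ C0 → 0 ≤ k1 → 0 ≤ k2 → 0 ≤ gg →
      k1 * Real.exp (G.MF m true .w (vl (htL .W) y.1)) ≤ C0 * Real.exp (-|y.1|) →
      k2 * Real.exp (G.MF m false .w (vl (htL .W) y.2)) ≤ C0 * Real.exp (-|y.2|) →
      gg ≤ Cg * Real.exp (-|y.1 - y.2|) →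
      ENNReal.ofReal (k1 * k2 * gg) *
        ∑ N ∈ range (2 * m + 1), FEC (ZW6 X y) P N (N + Fil.xe m)
          (fun _ _ => G.D e1 J m) (fun _ _ => G.D1 e1 J m) (fun r O a b x => ENNReal.ofReal (w r O) *
            Φ i m N r O a b x) ≤
        ENNReal.ofReal (C0 * C0 * Cg * Bw * (Cst * (m : ℝ) ^ e * Real.exp (G.EM m) *
          Real.exp (-(2 * |y.1| + 2 * |y.2| + |y.1 - y.2| / 2)))) := by
  obtain ⟨a0, ha0, hgas⟩ := topR_gasC hP hB hh0 hcu hS hspec hone K K2 (δ := e / 2) (by linarith)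
  refine ⟨min (1 / 100) (min (a0 / 7) (e / (4 * (Ca + 3)))), by positivity, min_le_left _ _, ?_⟩
  intro ι ok Φ h4 ep hep hep1 e1 he1 he11 J hJ hJ1
  have b1 : ep ≤ 1 / 100 := hep1.trans (min_le_left _ _)
  have b2 : ep ≤ a0 / 7 := hep1.trans ((min_le_right _ _).trans (min_le_left _ _))
  have b3 : ep ≤ e / (4 * (Ca + 3)) := hep1.trans ((min_le_right _ _).trans (min_le_right _ _))
  have c1 : e1 ≤ 1 / 100 := he11.trans (min_le_left _ _)
  have c2 : e1 ≤ a0 / 7 := he11.trans ((min_le_right _ _).trans (min_le_left _ _))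
  have c3 : e1 ≤ e / (4 * (Ca + 3)) := he11.trans ((min_le_right _ _).trans (min_le_right _ _))
  have d2 : Real.exp (-(2 * Real.pi * J)) ≤ a0 / 7 :=
    hJ1.trans ((min_le_right _ _).trans (min_le_left _ _))
  obtain ⟨Cst, hCst, m0, hm0, hgas⟩ := hgas ι ok Φ Ca h4 ep hep b1 e1 he1 c1 J hJ (by linarith)
  obtain ⟨m2, hm2⟩ := Filter.eventually_atTop.1
    ((Real.tendsto_log_atTop.comp tendsto_natCast_atTop_atTop).eventually_ge_atTop
      (60 : ℝ))
  refine ⟨Cst * Real.exp 20, by positivity, max m0 m2,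
    hm0.trans (le_max_left _ _), fun m hm => ?_⟩
  have hM0 : m0 ≤ m := (le_max_left _ _).trans hm
  have hM2 : m2 ≤ m := (le_max_right _ _).trans hm
  have hm1 : 1 ≤ m := by omega
  have hmp : (0 : ℝ) < m := by exact_mod_cast hm1
  have hm1' : (1 : ℝ) ≤ m := by exact_mod_cast hm1
  have hL60 : (60 : ℝ) ≤ Real.log m := hm2 m hM2
  have hTb : Tb (Real.log m) = 3 / 8 * Real.log m := rfl
  have hT : 20 ≤ Tb (Real.log m) := by
    rw [hTb]
    linarith
  obtain ⟨hcur, hgas⟩ := hgas m hM0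
  refine ⟨hcur, fun X κ er E0 hX y hy1 hy2 i hok w Bw hBw hw0 hwB C0 Cg k1 k2 gg hC0 hk1 hk2 hgg g1 g2
    h3 => ?_⟩
  have hCg : 0 ≤ Cg := by
    have := hgg.trans h3
    exact nonneg_of_mul_nonneg_left this (Real.exp_pos _)
  have key := hgas X κ er E0 hX y hy1 hy2 i hok w Bw hBw hw0 hwB
  have hgn := @gnP_near6 _ NUSea.seaP _ ep e1 J m he1 c1 hJ hT hep.le y hy1 hy2
  refine (mul_le_mul' le_rfl key).trans ?_
  rw [← ENNReal.ofReal_mul (by positivity)]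
  refine ENNReal.ofReal_le_ofReal ?_
  obtain ⟨E1, hE1⟩ : ∃ E1, E1 = Real.exp (G.MF m true .w (vl (htL .W) y.1)) := ⟨_, rfl⟩
  obtain ⟨E2, hE2⟩ : ∃ E2, E2 = Real.exp (G.MF m false .w (vl (htL .W) y.2)) := ⟨_, rfl⟩
  obtain ⟨X0, hX0⟩ : ∃ X0, X0 = Real.exp (G.EM m) := ⟨_, rfl⟩
  rw [← hE1] at g1 ⊢
  rw [← hE2] at g2 ⊢
  rw [← hX0]
  have hE10 : 0 ≤ E1 := by
    rw [hE1]
    exact (Real.exp_pos _).le
  have hE20 : 0 ≤ E2 := by
    rw [hE2]
    exact (Real.exp_pos _).le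
  have hX00 : 0 ≤ X0 := by
    rw [hX0]
    exact (Real.exp_pos _).le
  have hp0 : 0 ≤ (m : ℝ) ^ (Ca * (ep + e1) + e / 2) := by positivity
  have hk : k1 * E1 * (k2 * E2) * gg ≤ (C0 * Real.exp (-|y.1|)) * (C0 * Real.exp (-|y.2|)) *
      (Cg * Real.exp (-|y.1 - y.2|)) :=
    mul_le_mul (mul_le_mul g1 g2 (by positivity) (by positivity)) h3 hgg (by positivity)
  -- the gain
  have hgain : Real.exp (-gnP e1 J m (-(3 * NUMF.l)) (-(3 * NUMF.l)) y) ≤
      Real.exp 20 * Real.exp (-|y.1| - |y.2|) * (m : ℝ) ^ (9 / 4 * (ep + e1)) := by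
    rw [← exp_log_mul6 hm1, ← Real.exp_add, ← Real.exp_add]
    refine Real.exp_le_exp.2 ?_
    have : (6 * e1 + 4 * ep) * Tb (Real.log m) ≤ 9 / 4 * (ep + e1) * Real.log m := by
      rw [hTb]
      have : 0 ≤ Real.log m := by linarith
      nlinarith [mul_nonneg hep.le this, mul_nonneg he1.le this]
    linarith
  have hpow : (m : ℝ) ^ (Ca * (ep + e1) + e / 2) * (m : ℝ) ^ (9 / 4 * (ep + e1)) ≤ (m : ℝ) ^ e := by
    rw [← Real.rpow_add hmp]
    refine Real.rpow_le_rpow_of_exponent_le hm1' ?_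
    have h4 : ep + e1 ≤ e / (2 * (Ca + 3)) := by
      have : e / (2 * (Ca + 3)) = e / (4 * (Ca + 3)) + e / (4 * (Ca + 3)) := by
        field_simp
        norm_num
      linarith
    rw [le_div_iff₀ (by positivity)] at h4
    nlinarith
  have hexp : Real.exp (-|y.1|) * Real.exp (-|y.2|) * Real.exp (-|y.1 - y.2|) *
      Real.exp (-|y.1| - |y.2|) * Real.exp (|y.1 - y.2| / 2) =
      Real.exp (-(2 * |y.1| + 2 * |y.2| + |y.1 - y.2| / 2)) := by
    rw [← Real.exp_add, ← Real.exp_add, ← Real.exp_add, ← Real.exp_add]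
    congr 1
    ring
  calc k1 * k2 * gg * (Bw * (Cst * (m : ℝ) ^ (Ca * (ep + e1) + e / 2) * X0 * (E1 * E2) *
        Real.exp (-gnP e1 J m (-(3 * NUMF.l)) (-(3 * NUMF.l)) y) * Real.exp (|y.1 - y.2| / 2)))
      = Bw * (k1 * E1 * (k2 * E2) * gg) * (Cst * (m : ℝ) ^ (Ca * (ep + e1) + e / 2) * X0) *
        Real.exp (-gnP e1 J m (-(3 * NUMF.l)) (-(3 * NUMF.l)) y) *
        Real.exp (|y.1 - y.2| / 2) := by ring
    _ ≤ Bw * ((C0 * Real.exp (-|y.1|)) * (C0 * Real.exp (-|y.2|)) *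
        (Cg * Real.exp (-|y.1 - y.2|))) * (Cst * (m : ℝ) ^ (Ca * (ep + e1) + e / 2) * X0) *
        (Real.exp 20 * Real.exp (-|y.1| - |y.2|) * (m : ℝ) ^ (9 / 4 * (ep + e1))) *
        Real.exp (|y.1 - y.2| / 2) := by gcongr
    _ = C0 * C0 * Cg * Bw * (Cst * Real.exp 20 *
        ((m : ℝ) ^ (Ca * (ep + e1) + e / 2) * (m : ℝ) ^ (9 / 4 * (ep + e1))) * X0 *
        (Real.exp (-|y.1|) * Real.exp (-|y.2|) * Real.exp (-|y.1 - y.2|) *
      Real.exp (-|y.1| - |y.2|) * Real.exp (|y.1 - y.2| / 2))) := by ring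
    _ ≤ C0 * C0 * Cg * Bw * (Cst * Real.exp 20 * (m : ℝ) ^ e * X0 *
        (Real.exp (-|y.1|) * Real.exp (-|y.2|) * Real.exp (-|y.1 - y.2|) *
      Real.exp (-|y.1| - |y.2|) * Real.exp (|y.1 - y.2| / 2))) := by gcongr
    _ = _ := by rw [hexp]

end PLT

end
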