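import Pool.Agent.NUC43.Chg
import Mathlib.Analysis.Complex.RemovableSingularity

/-!
# Exact densities of a smoothed point potential (helper8, row B1d)

Symbols of the two channels divided by the Gaussian: `Fp δ`, `Fm δ` with
`Uh k * Fp δ k = exp (-(δ² k²) / 2) = (Uh k + 2 Lh k) * Fm δ k`; analytic in the strip `|Im z| ≤ 5/2`.

**`chg_gau`**: the charge data with the potential `gau δ` (the Gaussian of width `δ`) on the own species and `0` on
the other one: `NUC43.Chg` gives the densities, their decay, total charge `0` and the potentials.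
-/

set_option autoImplicit false

open MeasureTheory Set Filter Topology

namespace PLT.Tri

noncomputable section

open NUMF (l l_pos g h V Lh Uh ck1 sk sk_pos)
open NUC43

/-! ### `sinh z / z` -/

/-- `sinh z / z` -/
def shc (z : ℂ) : ℂ := dslope Complex.sinh 0 z

lemma shc_of_ne {z : ℂ} (hz : z ≠ 0) : shc z = Complex.sinh z / z := by
  unfold shc
  rw [dslope_of_ne _ hz, slope_def_field]
  simp

lemma shc_zero : shc 0 = 1 := by
  unfold shc
  rw [dslope_same]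
  simp

lemma shc_mul (z : ℂ) : z * shc z = Complex.sinh z := by
  rcases eq_or_ne z 0 with rfl | hz
  · simp
  · rw [shc_of_ne hz]
    field_simp

lemma shc_diff : Differentiable ℂ shc := by
  have h1 : DifferentiableOn ℂ (dslope Complex.sinh 0) univ :=
    (Complex.differentiableOn_dslope univ_mem).2 Complex.differentiable_sinh.differentiableOn
  exact fun z => (h1 z (mem_univ z)).differentiableAt univ_mem

lemma shc_neg (z : ℂ) : shc (-z) = shc z := by
  rcases eq_or_ne z 0 with rfl | hz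
  · simp
  · rw [shc_of_ne hz, shc_of_ne (neg_ne_zero.2 hz), Complex.sinh_neg, neg_div_neg_eq]

lemma shc_real (x : ℝ) : (shc x).im = 0 := by
  rcases eq_or_ne x 0 with rfl | hx
  · rw [Complex.ofReal_zero, shc_zero]
    simp
  · rw [shc_of_ne (Complex.ofReal_ne_zero.2 hx), ← Complex.ofReal_sinh, ← Complex.ofReal_div,
      Complex.ofReal_im]

lemma shc_le (z : ℂ) : ‖shc z‖ ≤ Real.cosh z.re := by
  rcases eq_or_ne z 0 with rfl | hz
  · rw [shc_zero]
    simp
  · rw [shc_of_ne hz, norm_div, div_le_iff₀ (norm_pos_iff.2 hz)]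
    exact NUMF.norm_sinh_le z

lemma norm_sinh_sq (x y : ℝ) : ‖Complex.sinh (x + y * Complex.I)‖ ^ 2 =
    Real.sinh x ^ 2 + Real.sin y ^ 2 := by
  rw [Complex.sinh_add, Complex.cosh_mul_I, Complex.sinh_mul_I, ← Complex.ofReal_sinh,
    ← Complex.ofReal_cosh, ← Complex.ofReal_cos, ← Complex.ofReal_sin]
  have e : (((Real.sinh x : ℝ) : ℂ) * ((Real.cos y : ℝ) : ℂ) +
      ((Real.cosh x : ℝ) : ℂ) * (((Real.sin y : ℝ) : ℂ) * Complex.I)) =
      ((Real.sinh x * Real.cos y : ℝ) : ℂ) + ((Real.cosh x * Real.sin y : ℝ) : ℂ) * Complex.I := by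
    push_cast; ring
  rw [e, Complex.sq_norm, Complex.normSq_add_mul_I]
  have h1 := Real.cosh_sq x
  have h2 := Real.sin_sq_add_cos_sq y
  rw [mul_pow, mul_pow, h1]
  linear_combination (Real.sinh x ^ 2) * h2

/-- lower bound in the strip `|Im z| ≤ π / 2` -/
lemma shc_ge {z : ℂ} (hz : |z.im| ≤ Real.pi / 2) : 2 / Real.pi ≤ ‖shc z‖ := by
  have hpi := Real.pi_gt_three
  rcases eq_or_ne z 0 with rfl | hz0
  · rw [shc_zero, norm_one, div_le_one (by linarith)]
    linarith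
  have h1 : ‖Complex.sinh z‖ ^ 2 = Real.sinh z.re ^ 2 + Real.sin z.im ^ 2 := by
    have h2 := norm_sinh_sq z.re z.im
    rwa [Complex.re_add_im] at h2
  have h3 : z.re ^ 2 ≤ Real.sinh z.re ^ 2 := NUMF.sq_le_sinh_sq _
  have h4 : (2 / Real.pi * |z.im|) ^ 2 ≤ Real.sin z.im ^ 2 := by
    rw [← sq_abs (Real.sin z.im)]
    have h5 := Real.mul_le_sin (abs_nonneg z.im) hz
    have h6 : |Real.sin z.im| = Real.sin |z.im| := by
      rcases abs_cases z.im with ⟨h7, h8⟩ | ⟨h7, h8⟩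
      · rw [h7] at hz ⊢
        exact abs_of_nonneg (Real.sin_nonneg_of_nonneg_of_le_pi h8 (by linarith))
      · rw [h7] at hz ⊢
        rw [Real.sin_neg, abs_of_nonpos]
        have := Real.sin_nonneg_of_nonneg_of_le_pi (x := -z.im) (by linarith) (by linarith)
        rw [Real.sin_neg] at this
        linarith
    rw [h6]
    have h7 : 0 ≤ 2 / Real.pi * |z.im| := by positivity
    gcongr
  have h5 : (2 / Real.pi * ‖z‖) ^ 2 ≤ ‖Complex.sinh z‖ ^ 2 := by
    rw [h1, mul_pow, Complex.sq_norm, Complex.normSq_apply]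
    have h6 : (2 / Real.pi) ^ 2 ≤ 1 := by
      have : 2 / Real.pi ≤ 1 := by
        rw [div_le_one (by linarith)]
        linarith
      have h0 : 0 ≤ 2 / Real.pi := by positivity
      nlinarith
    have h7 := mul_le_mul_of_nonneg_right h6 (sq_nonneg z.re)
    rw [mul_pow, sq_abs] at h4
    nlinarith
  have h6 : 2 / Real.pi * ‖z‖ ≤ ‖Complex.sinh z‖ :=
    (pow_le_pow_iff_left₀ (by positivity) (norm_nonneg _) two_ne_zero).1 h5
  rw [shc_of_ne hz0, norm_div, le_div_iff₀ (norm_pos_iff.2 hz0)]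
  exact h6

/-! ### symbols -/

/-- the Gaussian symbol -/
def gs (δ : ℝ) (z : ℂ) : ℂ := Complex.exp (((-(δ ^ 2 / 2) : ℝ) : ℂ) * (z * z))

lemma gs_real (δ k : ℝ) : gs δ k = ((Real.exp (-(δ ^ 2 / 2) * (k * k)) : ℝ) : ℂ) := by
  unfold gs
  rw [← Complex.ofReal_mul k k, ← Complex.ofReal_mul, ← Complex.ofReal_exp]

lemma gr_gs {δ : ℝ} (hδ : 0 < δ) (N : ℝ) : Gr (-N) (gs δ) := by
  have hl := l_pos
  refine ⟨fun z _ => by unfold gs; fun_prop, ⟨Real.exp (δ ^ 2 / 2 * (5 / 2) ^ 2 + (N * l) ^ 2 / (2 * δ ^ 2)),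
    fun z hz => ?_⟩, fun z => ?_, fun x => ?_⟩
  · unfold gs
    rw [Complex.norm_exp, ← Real.exp_add, Complex.re_ofReal_mul, Complex.mul_re]
    refine Real.exp_le_exp.2 ?_
    have h1 : z.im * z.im ≤ (5 / 2) ^ 2 := by
      rw [← abs_mul_abs_self z.im]
      nlinarith [abs_nonneg z.im]
    have h2 : N * l * |z.re| ≤ δ ^ 2 / 2 * (z.re * z.re) + (N * l) ^ 2 / (2 * δ ^ 2) := by
      have h3 : 0 ≤ (δ * |z.re| - N * l / δ) ^ 2 / 2 := by positivity
      have h4 : (δ * |z.re| - N * l / δ) ^ 2 / 2 = δ ^ 2 / 2 * (|z.re| * |z.re|) - N * l * |z.re| +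
          (N * l) ^ 2 / (2 * δ ^ 2) := by
        field_simp
        ring
      rw [h4, abs_mul_abs_self] at h3
      linarith
    have h5 : 0 ≤ δ ^ 2 / 2 := by positivity
    have h6 := mul_le_mul_of_nonneg_left h1 h5
    nlinarith
  · unfold gs
    congr 2
    ring
  · rw [gs_real, Complex.ofReal_im]

lemma gr_shc {a : ℝ} (ha : 0 ≤ a) : Gr a (fun z => shc ((a * l : ℝ) * z)) := by
  have hl := l_pos
  refine ⟨fun z _ => (shc_diff _).comp z (by fun_prop), ⟨1, fun z _ => ?_⟩, fun z => ?_, fun x => ?_⟩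
  · refine (shc_le _).trans ((cosh_le_exp_abs _).trans (le_of_eq ?_))
    rw [re_al, one_mul, abs_mul, abs_of_nonneg (by positivity), mul_assoc]
  · rw [mul_neg, shc_neg]
  · rw [← Complex.ofReal_mul, shc_real]

lemma gr_inv_shc : Gr 0 (fun z => (shc ((3 / 2 * l : ℝ) * z))⁻¹) := by
  have hl := l_pos
  have hpi := Real.pi_pos
  have h0 : Gr (-0) (fun z => (shc ((3 / 2 * l : ℝ) * z))⁻¹) := by
    refine gr_inv (κ := 2 / Real.pi) (fun z _ => (shc_diff _).comp z (by fun_prop))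
      (fun z => by rw [mul_neg, shc_neg]) (fun x => by rw [← Complex.ofReal_mul, shc_real])
      (by positivity) fun z hz => ?_
    rw [zero_mul, Real.exp_zero, mul_one]
    refine shc_ge ?_
    rw [im_al, abs_mul, abs_of_pos (by positivity : (0 : ℝ) < 3 / 2 * l)]
    have h1 : 3 / 2 * l * |z.im| ≤ 3 / 2 * l * (5 / 2) := by gcongr
    refine h1.trans ?_
    unfold NUMF.l
    linarith
  rwa [neg_zero] at h0

/-- `z sinh (4 l z)` -/
def zs (z : ℂ) : ℂ := z * Complex.sinh ((4 * l : ℝ) * z)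

lemma gr_zs : Gr 6 zs := by
  have hl := l_pos
  obtain ⟨C, hC⟩ : ∃ C, C = 5 / 2 + 1 / l := ⟨_, rfl⟩
  have hC0 : 0 < C := by rw [hC]; positivity
  refine ⟨fun z _ => by unfold zs; fun_prop, ⟨C * (4 * l * C), fun z hz => ?_⟩, fun z => ?_, fun x => ?_⟩
  · unfold zs
    have h1 : ‖z‖ ≤ |z.re| + |z.im| := Complex.norm_le_abs_re_add_abs_im z
    have h2 := NUMF.norm_sinh_le (((4 * l : ℝ) : ℂ) * z)
    rw [re_al, norm_mul, Complex.norm_real, Real.norm_eq_abs, abs_of_pos (by positivity : (0 : ℝ) < 4 * l)] at h2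
    have h3 := cosh_le_exp_abs (4 * l * z.re)
    rw [abs_mul, abs_of_pos (by positivity : (0 : ℝ) < 4 * l)] at h3
    have h4 : ‖z‖ ≤ C * Real.exp (l * |z.re|) := by
      have h5 := Real.add_one_le_exp (l * |z.re|)
      have h6 : |z.re| = 1 / l * (l * |z.re|) := by field_simp
      have h7 : 1 ≤ Real.exp (l * |z.re|) := Real.one_le_exp (by positivity)
      calc ‖z‖ ≤ |z.re| + 5 / 2 := by linarith
        _ = 1 / l * (l * |z.re|) + 5 / 2 * 1 := by rw [← h6]; ring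
        _ ≤ 1 / l * Real.exp (l * |z.re|) + 5 / 2 * Real.exp (l * |z.re|) := by
            gcongr
            linarith
        _ = _ := by rw [hC]; ring
    rw [norm_mul]
    have hc := (Real.cosh_pos (4 * l * z.re)).le
    calc ‖z‖ * ‖Complex.sinh (((4 * l : ℝ) : ℂ) * z)‖ ≤ (C * Real.exp (l * |z.re|)) *
          (Real.cosh (4 * l * z.re) * (4 * l * ‖z‖)) := by gcongr
      _ ≤ (C * Real.exp (l * |z.re|)) *
          (Real.exp (4 * l * |z.re|) * (4 * l * (C * Real.exp (l * |z.re|)))) := by gcongr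
      _ = C * (4 * l * C) * (Real.exp (l * |z.re|) * Real.exp (4 * l * |z.re|) * Real.exp (l * |z.re|)) := by
          ring
      _ = _ := by
          rw [← Real.exp_add, ← Real.exp_add]
          congr 2
          ring
  · unfold zs
    rw [mul_neg, Complex.sinh_neg]
    ring
  · unfold zs
    rw [← Complex.ofReal_mul, ← Complex.ofReal_sinh, ← Complex.ofReal_mul, Complex.ofReal_im]

/-- symbol of the sum channel -/
def Fp (δ : ℝ) (z : ℂ) : ℂ := ((4 / (9 * Real.pi * l) : ℝ) : ℂ) * (gs δ z *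
  (shc ((4 * l : ℝ) * z) * ((shc ((3 / 2 * l : ℝ) * z))⁻¹ * (shc ((3 / 2 * l : ℝ) * z))⁻¹ * NUC43.im z)))

/-- symbol of the difference channel -/
def Fm (δ : ℝ) (z : ℂ) : ℂ := ((1 / (4 * Real.pi) : ℝ) : ℂ) * (gs δ z *
  (zs z * ((cc (3 / 2) z)⁻¹ * (cc (3 / 2) z)⁻¹ * NUC43.im z)))

variable {δ : ℝ}

theorem gr_Fp (hδ : 0 < δ) : Gr (-1) (Fp δ) := by
  have h1 : Gr (-1) (fun z => (shc ((3 / 2 * l : ℝ) * z))⁻¹ * (shc ((3 / 2 * l : ℝ) * z))⁻¹ * NUC43.im z) :=
    (gr_inv_shc.mul' gr_inv_shc (γ := 0) (by norm_num)).mul' gr_im (by norm_num)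
  exact ((gr_gs hδ 4).mul' ((gr_shc (a := 4) (by norm_num)).mul' h1 (γ := 3) (by norm_num)) (by norm_num)).smul _

theorem gr_Fm (hδ : 0 < δ) : Gr (-1) (Fm δ) := by
  have h1 : Gr (-4) (fun z => (cc (3 / 2) z)⁻¹ * (cc (3 / 2) z)⁻¹ * NUC43.im z) :=
    ((gr_inv_cc (a := 3 / 2) (by norm_num) le_rfl).mul' (gr_inv_cc (a := 3 / 2) (by norm_num) le_rfl)
      (γ := -3) (by norm_num)).mul' gr_im (by norm_num)
  exact ((gr_gs hδ 3).mul' (gr_zs.mul' h1 (γ := 2) (by norm_num)) (by norm_num)).smul _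

/-- the Gaussian symbol on the real line -/
def ge (δ k : ℝ) : ℝ := Real.exp (-(δ ^ 2 / 2) * (k * k))

theorem Fp_re {k : ℝ} (hk : 0 < k) : Uh k * (Fp δ k).re = ge δ k := by
  have hl := l_pos
  have hpi := Real.pi_pos
  have h3 : (3 / 2 * l * k : ℝ) ≠ 0 := by positivity
  have h4 : (4 * l * k : ℝ) ≠ 0 := by positivity
  have s4 : 0 < Real.sinh (4 * l * k) := Real.sinh_pos_iff.2 (by positivity)
  have s3 : 0 < Real.sinh (3 / 2 * l * k) := Real.sinh_pos_iff.2 (by positivity)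
  have e4 : shc (((4 * l : ℝ) : ℂ) * k) = ((Real.sinh (4 * l * k) / (4 * l * k) : ℝ) : ℂ) := by
    rw [← Complex.ofReal_mul, shc_of_ne (Complex.ofReal_ne_zero.2 h4), ← Complex.ofReal_sinh,
      ← Complex.ofReal_div]
  have e3 : shc (((3 / 2 * l : ℝ) : ℂ) * k) = ((Real.sinh (3 / 2 * l * k) / (3 / 2 * l * k) : ℝ) : ℂ) := by
    rw [← Complex.ofReal_mul, shc_of_ne (Complex.ofReal_ne_zero.2 h3), ← Complex.ofReal_sinh,
      ← Complex.ofReal_div]
  have hc : 1 < ck1 k := by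
    unfold ck1
    exact Real.one_lt_cosh.2 (by positivity)
  have c1 : Real.cosh (1 * l * k) = ck1 k := by unfold ck1; rw [one_mul]
  have hs : 2 * Real.sinh (3 / 2 * l * k) ^ 2 = (ck1 k - 1) * (2 * ck1 k + 1) ^ 2 := by
    have h1 : Real.cosh (3 * l * k) = 1 + 2 * Real.sinh (3 / 2 * l * k) ^ 2 := by
      rw [show 3 * l * k = 2 * (3 / 2 * l * k) by ring, Real.cosh_two_mul, Real.cosh_sq]
      ring
    rw [NUMF.cosh3] at h1
    linear_combination (-1 : ℝ) * h1
  have e0 : Fp δ k = ((4 / (9 * Real.pi * l) * (ge δ k * ((Real.sinh (4 * l * k) / (4 * l * k)) *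
      ((Real.sinh (3 / 2 * l * k) / (3 / 2 * l * k))⁻¹ * (Real.sinh (3 / 2 * l * k) / (3 / 2 * l * k))⁻¹ *
      (1 / (2 * ck1 k - 1))))) : ℝ) : ℂ) := by
    unfold Fp
    rw [gs_real, e4, e3, im_real, c1]
    unfold ge
    push_cast
    ring
  have hsk : sk k = Real.sinh (4 * l * k) := by
    unfold sk
    congr 1
    unfold NUMF.l
    ring
  rw [e0, Complex.ofReal_re]
  unfold Uh
  rw [hsk]
  have h5 : 0 < 2 * ck1 k - 1 := by linarith
  have h6 : 0 < (ck1 k - 1) * (2 * ck1 k + 1) ^ 2 := by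
    have : 0 < ck1 k - 1 := by linarith
    positivity
  have h7 : Real.sinh (3 / 2 * l * k) ^ 2 = (ck1 k - 1) * (2 * ck1 k + 1) ^ 2 / 2 := by linarith
  have e7 : (Real.sinh (3 / 2 * l * k) / (3 / 2 * l * k))⁻¹ * (Real.sinh (3 / 2 * l * k) / (3 / 2 * l * k))⁻¹ =
      (3 / 2 * l * k) ^ 2 * 2 / ((ck1 k - 1) * (2 * ck1 k + 1) ^ 2) := by
    rw [inv_div, div_mul_div_comm, ← sq, ← sq, h7]
    field_simp
  rw [e7]
  have h8 : 2 * ck1 k - 1 ≠ 0 := h5.ne'
  have h9 : ck1 k - 1 ≠ 0 := by linarith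
  have h10 : 2 * ck1 k + 1 ≠ 0 := by linarith
  have h11 := s4.ne'
  field_simp
  ring

theorem Fm_re {k : ℝ} (hk : 0 < k) : (Uh k + 2 * Lh k) * (Fm δ k).re = ge δ k := by
  have hl := l_pos
  have hpi := Real.pi_pos
  have s4 : 0 < Real.sinh (4 * l * k) := Real.sinh_pos_iff.2 (by positivity)
  have hc : 1 < ck1 k := by
    unfold ck1
    exact Real.one_lt_cosh.2 (by positivity)
  have c1 : Real.cosh (1 * l * k) = ck1 k := by unfold ck1; rw [one_mul]
  have hs : 2 * Real.cosh (3 / 2 * l * k) ^ 2 = 4 * ck1 k ^ 3 - 3 * ck1 k + 1 := by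
    have h1 : Real.cosh (3 * l * k) = 2 * Real.cosh (3 / 2 * l * k) ^ 2 - 1 := by
      rw [show 3 * l * k = 2 * (3 / 2 * l * k) by ring, Real.cosh_two_mul, Real.sinh_sq]
      ring
    rw [NUMF.cosh3] at h1
    linear_combination (-1 : ℝ) * h1
  have e0 : Fm δ k = ((1 / (4 * Real.pi) * (ge δ k * ((k * Real.sinh (4 * l * k)) *
      ((Real.cosh (3 / 2 * l * k))⁻¹ * (Real.cosh (3 / 2 * l * k))⁻¹ *
      (1 / (2 * ck1 k - 1))))) : ℝ) : ℂ) := by
    unfold Fm zs
    rw [gs_real, cc_real, im_real, c1, ← Complex.ofReal_mul (4 * l) k, ← Complex.ofReal_sinh]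
    unfold ge
    push_cast
    ring
  have hsk : sk k = Real.sinh (4 * l * k) := by
    unfold sk
    congr 1
    unfold NUMF.l
    ring
  rw [e0, Complex.ofReal_re]
  unfold Uh Lh
  rw [hsk]
  have hcc := Real.cosh_pos (3 / 2 * l * k)
  have h7 : Real.cosh (3 / 2 * l * k) ^ 2 = (4 * ck1 k ^ 3 - 3 * ck1 k + 1) / 2 := by linarith
  have h6 : 0 < 4 * ck1 k ^ 3 - 3 * ck1 k + 1 := by
    rw [← hs]
    positivity
  have e7 : (Real.cosh (3 / 2 * l * k))⁻¹ * (Real.cosh (3 / 2 * l * k))⁻¹ =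
      2 / (4 * ck1 k ^ 3 - 3 * ck1 k + 1) := by
    rw [← mul_inv, ← sq, h7, inv_div]
  rw [e7]
  have h8 : 2 * ck1 k - 1 ≠ 0 := by linarith
  have h11 := s4.ne'
  have e9 : 2 * Real.pi * ((ck1 k - 1) * (2 * ck1 k - 1) * (2 * ck1 k + 1) ^ 2 / (k * Real.sinh (4 * l * k))) +
      2 * (2 * Real.pi * ((2 * ck1 k - 1) / (k * Real.sinh (4 * l * k)))) =
      2 * Real.pi * ((2 * ck1 k - 1) * (4 * ck1 k ^ 3 - 3 * ck1 k + 1) / (k * Real.sinh (4 * l * k))) := by
    field_simp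
    ring
  rw [e9]
  obtain ⟨D, hD⟩ : ∃ D, D = 4 * ck1 k ^ 3 - 3 * ck1 k + 1 := ⟨_, rfl⟩
  rw [← hD] at h6 ⊢
  have h12 := h6.ne'
  field_simp
  ring

/-- the Gaussian of width `δ` -/
def gau (δ : ℝ) : ℝ → ℝ := inv (gs δ)

theorem Fm_zero : (Fm δ 0).re = 0 := by
  unfold Fm zs
  simp

lemma ge_int (hδ : 0 < δ) : IntegrableOn (ge δ) (Ioi 0) := by
  have h := ((gr_gs hδ 1).re_integrable (by norm_num)).integrableOn (s := Ioi 0)
  refine h.congr_fun (fun k _ => ?_) measurableSet_Ioi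
  simp only
  rw [gs_real, Complex.ofReal_re]
  rfl

/-- **the charge data of the Gaussian potential** -/
theorem chg_gau (hδ : 0 < δ) : Chg (-1) 0 (gau δ) (fun _ => 0) (fun k => -ge δ k) (fun _ => 0)
    (Fp δ) (Fm δ) where
  neg := by norm_num
  gF := gr_Fp hδ
  gG := gr_Fm hδ
  q0 := by rw [Fm_zero, neg_zero]
  iA := (ge_int hδ).neg.congr_fun (fun k _ => by simp) measurableSet_Ioi
  iB := by
    have h0 : (fun k : ℝ => (0 : ℝ) - -0 * Lh k) = fun _ => 0 := by
      funext k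
      ring
    rw [h0]
    exact integrableOn_zero
  ra t := by
    rw [zero_mul, add_zero]
    unfold gau inv
    rw [← integral_neg]
    refine setIntegral_congr_fun measurableSet_Ioi fun k _ => ?_
    rw [gs_real, Complex.ofReal_re]
    unfold ge
    ring
  rb t := by
    have h0 : ∀ k : ℝ, 2 * Real.cos (t * k) * (((0 : ℝ) - -0 * Lh k) / (2 * Real.pi)) = 0 := by
      intro k
      ring
    simp only [h0, integral_zero]
    ring
  hp k hk := by rw [Fp_re hk]; ring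
  hm k hk := by rw [Fm_re hk]; ring

end

end PLT.Tri
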