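import Pool.Agent.PLT.TriA
import Pool.Agent.NUC43.Cfg

/-!
# The exact response to a smoothed potential (helper8, row B1d)

* `W2 M f f1 f2`: `f`, `f' = f1`, `f'' = f2` are at most `M exp (-|t|)`;
* `Nd M ν`: continuous density, at most `M exp (-|t|)`;
* `Ad δ g a = dO * g a + dX * g (!a)` (`δ` the width of the Gaussian): the density of the smoothed potential `g`;
* `Ad_nd`, `Ad_cpt` (decay `5/2` if `g` is supported in `[-L, L]`), `Ad_tau`, `Ad_zero` (neutral);
* **`Ad_eq`**: `cv (gau δ) (g a) = V * Ad δ g a + sg a * lgp (tau)`.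
-/

set_option autoImplicit false

open MeasureTheory Set Filter Topology

namespace PLT.Tri

noncomputable section

open NUMF (l l_pos g h V Lh Uh ck1 sk sk_pos)
open NUC43
open NUC37 (cv)

/-! ### exponential weights -/

lemma exp_int : Integrable fun t : ℝ => Real.exp (-|t|) := by
  have := NUMF.int_exp_abs (b := 1) one_pos
  refine this.congr (ae_of_all _ fun t => ?_)
  simp

/-- `∫ exp (-|t|)` -/
def cE : ℝ := ∫ t : ℝ, Real.exp (-|t|)

lemma cE_pos : 0 < cE := by
  unfold cE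
  rw [integral_pos_iff_support_of_nonneg (fun t => (Real.exp_pos _).le) exp_int]
  have : (Function.support fun t : ℝ => Real.exp (-|t|)) = univ := by
    ext t
    simp
  rw [this]
  simp

/-- `C¹` densities -/
structure Nd (M : ℝ) (ν : ℝ → ℝ) : Prop where
  cont : Continuous ν
  bd : ∀ t, |ν t| ≤ M * Real.exp (-|t|)

/-- twice differentiable functions with the weight `exp (-|t|)` -/
structure W2 (M : ℝ) (f f1 f2 : ℝ → ℝ) : Prop where
  d1 : ∀ t, HasDerivAt f (f1 t) t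
  d2 : ∀ t, HasDerivAt f1 (f2 t) t
  c2 : Continuous f2
  b0 : ∀ t, |f t| ≤ M * Real.exp (-|t|)
  b1 : ∀ t, |f1 t| ≤ M * Real.exp (-|t|)
  b2 : ∀ t, |f2 t| ≤ M * Real.exp (-|t|)

variable {M M' c : ℝ} {f f1 f2 f' f1' f2' ν ν' : ℝ → ℝ}

lemma Nd.M0 (h : Nd M ν) : 0 ≤ M := by
  have := (abs_nonneg _).trans (h.bd 0)
  simpa using this

lemma Nd.int (h : Nd M ν) : Integrable ν :=
  (exp_int.const_mul M).mono' h.cont.aestronglyMeasurable (ae_of_all _ fun t => h.bd t)

lemma Nd.le (h : Nd M ν) (t : ℝ) : |ν t| ≤ M := by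
  refine (h.bd t).trans ?_
  have h1 : Real.exp (-|t|) ≤ 1 := Real.exp_le_one_iff.2 (by have := abs_nonneg t; linarith)
  exact mul_le_of_le_one_right h.M0 h1

lemma Nd.l1 (h : Nd M ν) : ∫ t, |ν t| ≤ M * cE := by
  unfold cE
  rw [← integral_const_mul]
  exact integral_mono h.int.abs (exp_int.const_mul M) h.bd

lemma Nd.mono (h : Nd M ν) (hM : M ≤ M') : Nd M' ν :=
  ⟨h.cont, fun t => (h.bd t).trans (mul_le_mul_of_nonneg_right hM (Real.exp_pos _).le)⟩

lemma Nd.add (h : Nd M ν) (h' : Nd M' ν') : Nd (M + M') (fun t => ν t + ν' t) :=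
  ⟨h.cont.add h'.cont, fun t => by
    rw [add_mul]
    exact (abs_add_le _ _).trans (add_le_add (h.bd t) (h'.bd t))⟩

lemma Nd.smul (h : Nd M ν) (c : ℝ) : Nd (|c| * M) (fun t => c * ν t) :=
  ⟨h.cont.const_mul c, fun t => by
    rw [abs_mul, mul_assoc]
    exact mul_le_mul_of_nonneg_left (h.bd t) (abs_nonneg c)⟩

lemma Nd.sub (h : Nd M ν) (h' : Nd M' ν') : Nd (M + M') (fun t => ν t - ν' t) :=
  ⟨h.cont.sub h'.cont, fun t => by
    rw [add_mul]
    exact (abs_sub _ _).trans (add_le_add (h.bd t) (h'.bd t))⟩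

lemma Nd.wint (h : Nd M ν) : Integrable fun t => (1 + |t|) * ν t := by
  have h1 := (NUMF.int_exp_abs (b := 1 / 2) (by norm_num)).const_mul (2 * M)
  have hc := h.cont
  refine h1.mono' (Continuous.aestronglyMeasurable (by fun_prop)) (ae_of_all _ fun t => ?_)
  rw [Real.norm_eq_abs, abs_mul, abs_of_nonneg (by positivity : 0 ≤ 1 + |t|)]
  have h2 : 1 + |t| ≤ 2 * Real.exp (1 / 2 * |t|) := by
    have := Real.add_one_le_exp (1 / 2 * |t|)
    linarith
  calc (1 + |t|) * |ν t| ≤ 2 * Real.exp (1 / 2 * |t|) * (M * Real.exp (-|t|)) := by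
        gcongr
        exact h.bd t
    _ = 2 * M * (Real.exp (1 / 2 * |t|) * Real.exp (-|t|)) := by ring
    _ = _ := by
      rw [← Real.exp_add]
      congr 2
      ring

lemma W2.nd (h : W2 M f f1 f2) : Nd M f :=
  ⟨continuous_iff_continuousAt.2 fun t => (h.d1 t).continuousAt, h.b0⟩

lemma W2.nd1 (h : W2 M f f1 f2) : Nd M f1 :=
  ⟨continuous_iff_continuousAt.2 fun t => (h.d2 t).continuousAt, h.b1⟩

lemma W2.nd2 (h : W2 M f f1 f2) : Nd M f2 := ⟨h.c2, h.b2⟩

lemma W2.mono (h : W2 M f f1 f2) (hM : M ≤ M') : W2 M' f f1 f2 :=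
  ⟨h.d1, h.d2, h.c2, (h.nd.mono hM).bd, (h.nd1.mono hM).bd, (h.nd2.mono hM).bd⟩

lemma W2.sub (h : W2 M f f1 f2) (h' : W2 M' f' f1' f2') :
    W2 (M + M') (fun t => f t - f' t) (fun t => f1 t - f1' t) (fun t => f2 t - f2' t) :=
  ⟨fun t => (h.d1 t).sub (h'.d1 t), fun t => (h.d2 t).sub (h'.d2 t), h.c2.sub h'.c2,
    (h.nd.sub h'.nd).bd, (h.nd1.sub h'.nd1).bd, (h.nd2.sub h'.nd2).bd⟩

/-! ### convolutions -/

/-- kernels with decay `5/2` -/
structure Kd (K : ℝ) (n : ℝ → ℝ) : Prop where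
  cont : Continuous n
  bd : ∀ t, |n t| ≤ K * Real.exp (-(5 / 2) * |t|)

variable {K : ℝ} {n : ℝ → ℝ}

lemma Kd.K0 (h : Kd K n) : 0 ≤ K := by
  have := (abs_nonneg _).trans (h.bd 0)
  simpa using this

lemma Kd.dn (h : Kd K n) : Dn n := ⟨h.cont, K, h.K0, h.bd⟩

lemma Kd.int (h : Kd K n) : Integrable n := h.dn.int

lemma Kd.le (h : Kd K n) (t : ℝ) : |n t| ≤ K := by
  refine (h.bd t).trans ?_
  have h1 : Real.exp (-(5 / 2) * |t|) ≤ 1 := Real.exp_le_one_iff.2 (by have := abs_nonneg t; linarith)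
  exact mul_le_of_le_one_right h.K0 h1

lemma Kd.mono {K' : ℝ} (h : Kd K n) (hK : K ≤ K') : Kd K' n :=
  ⟨h.cont, fun t => (h.bd t).trans (mul_le_mul_of_nonneg_right hK (Real.exp_pos _).le)⟩

lemma Kd.nd (h : Kd K n) : Nd K n := ⟨h.cont, fun t => (h.bd t).trans
  (mul_le_mul_of_nonneg_left (Real.exp_le_exp.2 (by have := abs_nonneg t; linarith)) h.K0)⟩

lemma cv_cont' (h : Kd K n) (hν : Nd M ν) : Continuous (cv n ν) :=
  NUC37.cv_cont h.int hν.cont hν.le

/-- the weight is kept -/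
theorem cv_nd (h : Kd K n) (hν : Nd M ν) : Nd (K * M * cE) (cv n ν) := by
  refine ⟨cv_cont' h hν, fun t => ?_⟩
  have hK := h.K0
  have hM := hν.M0
  have i1 : Integrable fun u : ℝ => Real.exp (-|t - u|) := exp_int.comp_sub_left t
  have h1 : |cv n ν t| ≤ ∫ u, (K * M * Real.exp (-|t|)) * Real.exp (-|t - u|) := by
    unfold cv
    rw [← Real.norm_eq_abs]
    refine norm_integral_le_of_norm_le (i1.const_mul _) (ae_of_all _ fun u => ?_)
    rw [norm_mul, Real.norm_eq_abs, Real.norm_eq_abs]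
    have e1 : Real.exp (-(5 / 2) * |t - u|) * Real.exp (-|u|) ≤ Real.exp (-|t|) * Real.exp (-|t - u|) := by
      rw [← Real.exp_add, ← Real.exp_add]
      refine Real.exp_le_exp.2 ?_
      have h2 : |t| ≤ |t - u| + |u| := by
        have := abs_add_le (t - u) u
        rwa [sub_add_cancel] at this
      have h3 := abs_nonneg (t - u)
      linarith
    calc |n (t - u)| * |ν u| ≤ (K * Real.exp (-(5 / 2) * |t - u|)) * (M * Real.exp (-|u|)) :=
          mul_le_mul (h.bd _) (hν.bd _) (abs_nonneg _) (by positivity)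
      _ = K * M * (Real.exp (-(5 / 2) * |t - u|) * Real.exp (-|u|)) := by ring
      _ ≤ K * M * (Real.exp (-|t|) * Real.exp (-|t - u|)) := by gcongr
      _ = _ := by ring
  rw [integral_const_mul, integral_sub_left_eq_self (fun u : ℝ => Real.exp (-|u|)) volume t] at h1
  refine h1.trans (le_of_eq ?_)
  unfold cE
  ring

/-- compact support gives back the decay of the kernel -/
theorem cv_cpt {L : ℝ} (h : Kd K n) (hν : Nd M ν) (hs : ∀ u, L < |u| → ν u = 0) (t : ℝ) :
    |cv n ν t| ≤ K * M * cE * Real.exp (5 / 2 * L) * Real.exp (-(5 / 2) * |t|) := by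
  have hK := h.K0
  have hM := hν.M0
  have h1 : |cv n ν t| ≤ ∫ u, (K * M * Real.exp (5 / 2 * L) * Real.exp (-(5 / 2) * |t|)) * Real.exp (-|u|) := by
    unfold cv
    rw [← Real.norm_eq_abs]
    refine norm_integral_le_of_norm_le (exp_int.const_mul _) (ae_of_all _ fun u => ?_)
    rw [norm_mul, Real.norm_eq_abs, Real.norm_eq_abs]
    rcases lt_or_ge L |u| with hu | hu
    · rw [hs u hu, abs_zero, mul_zero]
      positivity
    have e1 : Real.exp (-(5 / 2) * |t - u|) ≤ Real.exp (5 / 2 * L) * Real.exp (-(5 / 2) * |t|) := by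
      rw [← Real.exp_add]
      refine Real.exp_le_exp.2 ?_
      have h2 : |t| ≤ |t - u| + |u| := by
        have := abs_add_le (t - u) u
        rwa [sub_add_cancel] at this
      linarith
    calc |n (t - u)| * |ν u| ≤ (K * (Real.exp (5 / 2 * L) * Real.exp (-(5 / 2) * |t|))) *
          (M * Real.exp (-|u|)) :=
          mul_le_mul ((h.bd _).trans (mul_le_mul_of_nonneg_left e1 hK)) (hν.bd _) (abs_nonneg _)
            (by positivity)
      _ = _ := by ring
  rw [integral_const_mul] at h1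
  refine h1.trans (le_of_eq ?_)
  unfold cE
  ring

/-- convolution with an integrable kernel -/
theorem cv_assoc {W : ℝ → ℝ} (hW : Integrable W) (h : Kd K n) (hν : Nd M ν) (t : ℝ) :
    ∫ u, W (t - u) * cv n ν u = ∫ s, ν s * ∫ v, W v * n (t - s - v) := by
  have hWm := (hW.comp_sub_left t).aestronglyMeasurable
  have hWt := hW.comp_sub_left t
  have hI : Integrable (fun p : ℝ × ℝ => W (t - p.1) * n (p.1 - p.2) * ν p.2)
      ((volume : Measure ℝ).prod volume) := by
    have h0 : Integrable (fun p : ℝ × ℝ => W (t - p.1) * ν p.2) ((volume : Measure ℝ).prod volume) :=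
      hWt.mul_prod hν.int
    have h1 := h0.mul_bdd (c := K) (g := fun p : ℝ × ℝ => n (p.1 - p.2))
      (Continuous.aestronglyMeasurable (by have := h.cont; fun_prop)) (ae_of_all _ fun p => h.le _)
    refine h1.congr (ae_of_all _ fun p => ?_)
    simp only
    ring
  have e1 : ∀ u, W (t - u) * cv n ν u = ∫ s, W (t - u) * n (u - s) * ν s := by
    intro u
    unfold cv
    rw [← integral_const_mul]
    congr 1
    funext s
    ring
  simp_rw [e1]
  rw [integral_integral_swap hI]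
  congr 1
  funext s
  rw [integral_mul_const, mul_comm (ν s), ← integral_sub_left_eq_self (fun v => W v * n (t - s - v)) volume t]
  congr 2
  funext u
  rw [show t - s - (t - u) = u - s by ring]

/-- convolution with a kernel of linear growth -/
theorem cv_assoc_lin {W : ℝ → ℝ} {B : ℝ} (hW : Continuous W) (hB : ∀ x, |W x| ≤ B * (1 + |x|)) (h : Kd K n)
    (hν : Nd M ν) (t : ℝ) :
    ∫ u, cv n ν u * W (t - u) = ∫ s, ν s * ∫ v, n v * W (t - s - v) := by
  have hB0 : 0 ≤ B := by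
    have := (abs_nonneg _).trans (hB 0)
    simpa using this
  have hK := h.K0
  have hM := hν.M0
  have hI : Integrable (fun p : ℝ × ℝ => n (p.1 - p.2) * ν p.2 * W (t - p.1))
      ((volume : Measure ℝ).prod volume) := by
    have hd : Integrable (fun p : ℝ × ℝ => (K * M * B * (4 * (1 + |t|))) *
        (Real.exp (-(1 / 4) * |p.1|) * Real.exp (-(1 / 2) * |p.2|))) ((volume : Measure ℝ).prod volume) :=
      ((NUMF.int_exp_abs (b := 1 / 4) (by norm_num)).mul_prod
        (NUMF.int_exp_abs (b := 1 / 2) (by norm_num))).const_mul _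
    refine hd.mono' ?_ (ae_of_all _ fun p => ?_)
    · have h1 := h.cont
      have h2 := hν.cont
      exact Continuous.aestronglyMeasurable (by fun_prop)
    · rw [Real.norm_eq_abs, abs_mul, abs_mul]
      have g1 := h.bd (p.1 - p.2)
      have g2 := hν.bd p.2
      have g3 := hB (t - p.1)
      have g4 : 1 + |t - p.1| ≤ (1 + |t|) * (1 + |p.1|) := by
        have := abs_sub t p.1
        nlinarith [abs_nonneg t, abs_nonneg p.1]
      have g5 : 1 + |p.1| ≤ 4 * Real.exp (1 / 4 * |p.1|) := by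
        have := Real.add_one_le_exp (1 / 4 * |p.1|)
        linarith [abs_nonneg p.1]
      have g6 : |p.1| ≤ |p.1 - p.2| + |p.2| := by
        have := abs_add_le (p.1 - p.2) p.2
        rwa [sub_add_cancel] at this
      have g7 : Real.exp (-(5 / 2) * |p.1 - p.2|) * Real.exp (-|p.2|) * Real.exp (1 / 4 * |p.1|) ≤
          Real.exp (-(1 / 4) * |p.1|) * Real.exp (-(1 / 2) * |p.2|) := by
        rw [← Real.exp_add, ← Real.exp_add, ← Real.exp_add]
        refine Real.exp_le_exp.2 ?_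
        have := abs_nonneg (p.1 - p.2)
        linarith
      have hE := Real.exp_pos (-(5 / 2) * |p.1 - p.2|)
      calc |n (p.1 - p.2)| * |ν p.2| * |W (t - p.1)| ≤
            (K * Real.exp (-(5 / 2) * |p.1 - p.2|)) * (M * Real.exp (-|p.2|)) *
              (B * ((1 + |t|) * (4 * Real.exp (1 / 4 * |p.1|)))) := by
            refine mul_le_mul (mul_le_mul g1 g2 (abs_nonneg _) (by positivity)) (g3.trans ?_)
              (abs_nonneg _) (by positivity)
            refine mul_le_mul_of_nonneg_left (g4.trans ?_) hB0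
            exact mul_le_mul_of_nonneg_left g5 (by positivity)
        _ = K * M * B * (4 * (1 + |t|)) * (Real.exp (-(5 / 2) * |p.1 - p.2|) * Real.exp (-|p.2|) *
              Real.exp (1 / 4 * |p.1|)) := by ring
        _ ≤ _ := mul_le_mul_of_nonneg_left g7 (by positivity)
  have e1 : ∀ u, cv n ν u * W (t - u) = ∫ s, n (u - s) * ν s * W (t - u) := by
    intro u
    unfold cv
    rw [← integral_mul_const]
  simp_rw [e1]
  rw [integral_integral_swap hI]
  congr 1
  funext s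
  rw [← integral_const_mul, ← integral_add_right_eq_self _ s]
  congr 1
  funext v
  rw [show v + s - s = v by ring, show t - (v + s) = t - s - v by ring]
  ring

/-! ### the response -/

variable {δ : ℝ}

lemma kd_dO (hδ : 0 < δ) : ∃ K : ℝ, 0 < K ∧ Kd K (dO (Fp δ) (Fm δ)) ∧ Kd K (dX (Fp δ) (Fm δ)) ∧
    Kd K (dT (Fm δ)) := by
  have h := chg_gau hδ
  obtain ⟨K, hK, H⟩ := h.decay
  refine ⟨K + 1, by linarith, ⟨h.contO, fun t => (H t).1.trans ?_⟩, ⟨h.contX, fun t => (H t).2.1.trans ?_⟩,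
    ⟨h.contT, fun t => (H t).2.2.trans ?_⟩⟩ <;>
    exact mul_le_mul_of_nonneg_right (by linarith) (Real.exp_pos _).le

/-- **the density of the smoothed potential** `g` -/
def Ad (δ : ℝ) (g : Bool → ℝ → ℝ) (a : Bool) (t : ℝ) : ℝ :=
  cv (dO (Fp δ) (Fm δ)) (g a) t + cv (dX (Fp δ) (Fm δ)) (g !a) t

variable {g : Bool → ℝ → ℝ}

theorem Ad_nd (hδ : 0 < δ) : ∃ K : ℝ, 0 < K ∧ ∀ {M : ℝ} {g : Bool → ℝ → ℝ}, (∀ a, Nd M (g a)) → ∀ a,
    Nd (K * M) (Ad δ g a) := by
  obtain ⟨K, hK, h1, h2, -⟩ := kd_dO hδ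
  have hc := cE_pos
  refine ⟨2 * K * cE, by positivity, fun {M g} h a => ?_⟩
  have h3 := (cv_nd h1 (h a)).add (cv_nd h2 (h !a))
  exact h3.mono (by linarith)

theorem Ad_cpt (hδ : 0 < δ) (L : ℝ) : ∃ K : ℝ, 0 < K ∧ ∀ {M : ℝ} {g : Bool → ℝ → ℝ}, (∀ a, Nd M (g a)) →
    (∀ a u, L < |u| → g a u = 0) → ∀ a t, |Ad δ g a t| ≤ K * M * Real.exp (-(5 / 2) * |t|) := by
  obtain ⟨K, hK, h1, h2, -⟩ := kd_dO hδ
  have hc := cE_pos
  refine ⟨2 * K * cE * Real.exp (5 / 2 * L), by positivity, fun {M g} h hs a t => ?_⟩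
  have h3 := cv_cpt h1 (h a) (hs a) t
  have h4 := cv_cpt h2 (h !a) (hs !a) t
  have h5 := abs_add_le (cv (dO (Fp δ) (Fm δ)) (g a) t) (cv (dX (Fp δ) (Fm δ)) (g !a) t)
  unfold Ad
  refine h5.trans ?_
  have e : 2 * K * cE * Real.exp (5 / 2 * L) * M * Real.exp (-(5 / 2) * |t|) =
      2 * (K * M * cE * Real.exp (5 / 2 * L) * Real.exp (-(5 / 2) * |t|)) := by ring
  rw [e]
  linarith

lemma cv_sub_right {n f f' : ℝ → ℝ} (h1 : ∀ t, Integrable fun u => n (t - u) * f u)
    (h2 : ∀ t, Integrable fun u => n (t - u) * f' u) (t : ℝ) :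
    cv n (fun u => f u - f' u) t = cv n f t - cv n f' t := by
  unfold cv
  rw [← integral_sub (h1 t) (h2 t)]
  congr 1
  funext u
  ring

lemma Kd.cvi {n : ℝ → ℝ} (h : Kd K n) (hν : Nd M ν) (t : ℝ) : Integrable fun u => n (t - u) * ν u := by
  have h1 := hν.int.mul_bdd (c := K) (g := fun u => n (t - u))
    (Continuous.aestronglyMeasurable (by have := h.cont; fun_prop)) (ae_of_all _ fun u => h.le _)
  exact h1.congr (ae_of_all _ fun u => mul_comm _ _)

/-- the difference of the densities of the two species -/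
theorem Ad_tau (hδ : 0 < δ) (h : ∀ a, Nd M (g a)) (t : ℝ) :
    Ad δ g true t - Ad δ g false t = cv (dT (Fm δ)) (fun u => g true u - g false u) t := by
  obtain ⟨K, hK, h1, h2, h3⟩ := kd_dO hδ
  rw [cv_sub_right (h3.cvi (h true)) (h3.cvi (h false))]
  have hs := (chg_gau hδ).split
  have e : ∀ a, cv (dT (Fm δ)) (g a) t = cv (dO (Fp δ) (Fm δ)) (g a) t - cv (dX (Fp δ) (Fm δ)) (g a) t := by
    intro a
    unfold cv
    rw [← integral_sub (h1.cvi (h a) t) (h2.cvi (h a) t)]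
    congr 1
    funext u
    rw [← hs]
    ring
  rw [e, e]
  unfold Ad
  simp only [Bool.not_true, Bool.not_false]
  ring

lemma cv_integral {n : ℝ → ℝ} (h : Kd K n) (hν : Nd M ν) : ∫ t, cv n ν t = (∫ t, n t) * ∫ t, ν t := by
  rw [NUC37.cv_eq, integral_convolution _ h.int hν.int]
  rfl

/-- the response is neutral -/
theorem Ad_zero (hδ : 0 < δ) (h : ∀ a, Nd M (g a)) : ∫ t, (Ad δ g true t - Ad δ g false t) = 0 := by
  obtain ⟨K, hK, h1, h2, h3⟩ := kd_dO hδ
  simp_rw [Ad_tau hδ h]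
  rw [cv_integral h3 ((h true).sub (h false)), (chg_gau hδ).intT]
  simp

lemma logg_lin (x : ℝ) : |Real.log (NUMF.g x)| ≤ (|Real.log (NUMF.g 0)| + 2) * (1 + |x|) := by
  have h1 := lgm_abs x
  unfold NUE.lgm at h1
  have h2 := abs_sub_abs_le_abs_sub (Real.log (NUMF.g x)) (Real.log (NUMF.g 0))
  rw [abs_sub_comm] at h2
  have h3 := abs_nonneg (Real.log (NUMF.g 0))
  have h4 := abs_nonneg x
  nlinarith

lemma logg_cont : Continuous fun x : ℝ => Real.log (NUMF.g x) := by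
  have h1 := NUE.lgm_cont
  have h2 : (fun x : ℝ => Real.log (NUMF.g x)) = fun x => Real.log (NUMF.g 0) - NUE.lgm x := by
    funext x
    unfold NUE.lgm
    ring
  rw [h2]
  exact continuous_const.sub h1

/-- the `log g` potential of a convolution -/
theorem lgp_cv {n : ℝ → ℝ} (h : Kd K n) (hν : Nd M ν) (t : ℝ) :
    lgp (cv n ν) t = ∫ s, ν s * lgp n (t - s) := by
  unfold lgp
  exact cv_assoc_lin logg_cont logg_lin h hν t

lemma lgp_lin {n : ℝ → ℝ} (h : Kd K n) : ∃ B : ℝ, ∀ x, |lgp n x| ≤ B * (1 + |x|) := by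
  have i1 := h.nd.wint.abs
  refine ⟨(|Real.log (NUMF.g 0)| + 2) * ∫ s, |(1 + |s|) * n s|, fun x => ?_⟩
  unfold lgp
  rw [← Real.norm_eq_abs, mul_right_comm, ← integral_const_mul]
  refine norm_integral_le_of_norm_le (i1.const_mul _) (ae_of_all _ fun s => ?_)
  rw [norm_mul, Real.norm_eq_abs, Real.norm_eq_abs]
  have h1 := logg_lin (x - s)
  have h2 : 1 + |x - s| ≤ (1 + |x|) * (1 + |s|) := by
    have := abs_sub x s
    nlinarith [abs_nonneg x, abs_nonneg s]
  have h3 : 0 ≤ |Real.log (NUMF.g 0)| + 2 := by positivity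
  calc |n s| * |Real.log (NUMF.g (x - s))| ≤ |n s| * ((|Real.log (NUMF.g 0)| + 2) * ((1 + |x|) * (1 + |s|))) := by
        refine mul_le_mul_of_nonneg_left (h1.trans ?_) (abs_nonneg _)
        exact mul_le_mul_of_nonneg_left h2 h3
    _ = _ := by
        rw [abs_mul, abs_of_nonneg (by positivity : 0 ≤ 1 + |s|)]
        ring

/-! ### the equation -/

lemma gau_cont (hδ : 0 < δ) : Continuous (gau δ) := (gr_gs hδ 1).inv_cont (by norm_num)

lemma gau_kd (hδ : 0 < δ) : ∃ K : ℝ, Kd K (gau δ) := by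
  obtain ⟨M, h0, hM⟩ := (gr_gs hδ 1).inv_decay (by norm_num)
  exact ⟨M, gau_cont hδ, hM⟩

lemma gau_zero_int (hδ : 0 < δ) : ∫ t, gau δ t = 1 := by
  unfold gau
  rw [(gr_gs hδ 1).inv_int (by norm_num)]
  unfold gs
  simp

lemma V_cv_eq (n : ℝ → ℝ) (t : ℝ) : ∫ s, V s * n (t - s) = cv V n t := by
  unfold cv
  rw [← integral_sub_left_eq_self (fun s => V s * n (t - s)) volume t]
  congr 1
  funext u
  rw [show t - (t - u) = u by ring]

/-- `lgp` of the splitting kernel -/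
lemma lgpT (hδ : 0 < δ) (t : ℝ) : lgp (dT (Fm δ)) t = gau δ t - cv V (dO (Fp δ) (Fm δ)) t := by
  have h1 := (chg_gau hδ).own t
  rw [V_cv_eq] at h1
  linarith

lemma lgpT' (hδ : 0 < δ) (t : ℝ) : lgp (dT (Fm δ)) t = cv V (dX (Fp δ) (Fm δ)) t := by
  have h1 := (chg_gau hδ).oth t
  rw [V_cv_eq] at h1
  linarith

lemma lgpT_cont (hδ : 0 < δ) : Continuous (lgp (dT (Fm δ))) := by
  obtain ⟨K, hK, h1, h2, h3⟩ := kd_dO hδ
  have e : lgp (dT (Fm δ)) = cv V (dX (Fp δ) (Fm δ)) := funext (lgpT' hδ)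
  rw [e]
  exact NUC37.cv_cont V_integrable h2.cont h2.le

lemma lgpT_le (hδ : 0 < δ) : ∃ B : ℝ, ∀ t, |lgp (dT (Fm δ)) t| ≤ B := by
  obtain ⟨K, hK, h1, h2, h3⟩ := kd_dO hδ
  refine ⟨(∫ t, |V t|) * K, fun t => ?_⟩
  rw [lgpT' hδ]
  exact NUC37.cv_bound V_integrable h2.le t

lemma bd_int {W : ℝ → ℝ} {B : ℝ} (hW : Continuous W) (hB : ∀ x, |W x| ≤ B) (hν : Nd M ν) (t : ℝ) :
    Integrable fun s => ν s * W (t - s) :=
  hν.int.mul_bdd (c := B) (g := fun s => W (t - s)) (Continuous.aestronglyMeasurable (by fun_prop))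
    (ae_of_all _ fun u => hB _)

lemma V_nd (hν : Nd M ν) (t : ℝ) : Integrable fun u => V (t - u) * ν u :=
  (V_integrable.comp_sub_left t).mul_bdd (c := M) hν.cont.aestronglyMeasurable (ae_of_all _ hν.le)

/-- **the potentials of the response are the smoothed potentials** -/
theorem Ad_eq (hδ : 0 < δ) (h : ∀ a, Nd M (g a)) (a : Bool) (t : ℝ) :
    cv (gau δ) (g a) t - sg a * lgp (fun u => Ad δ g true u - Ad δ g false u) t =
      ∫ u, Ad δ g a u * V (t - u) := by
  obtain ⟨K, hK, h1, h2, h3⟩ := kd_dO hδ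
  obtain ⟨Kg, hg⟩ := gau_kd hδ
  obtain ⟨B, hB⟩ := lgpT_le hδ
  have hc := lgpT_cont hδ
  have hT : lgp (fun u => Ad δ g true u - Ad δ g false u) t =
      ∫ s, (g true s - g false s) * lgp (dT (Fm δ)) (t - s) := by
    have e : (fun u => Ad δ g true u - Ad δ g false u) =
        cv (dT (Fm δ)) (fun u => g true u - g false u) := funext (Ad_tau hδ h)
    rw [e]
    exact lgp_cv h3 ((h true).sub (h false)) t
  have i1 := fun b => bd_int hc hB (h b) t
  have i2 := fun b => bd_int hg.cont hg.le (h b) t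
  have eT : ∫ s, (g true s - g false s) * lgp (dT (Fm δ)) (t - s) =
      (∫ s, g true s * lgp (dT (Fm δ)) (t - s)) - ∫ s, g false s * lgp (dT (Fm δ)) (t - s) := by
    rw [← integral_sub (i1 true) (i1 false)]
    congr 1
    funext s
    ring
  have eO : ∀ b, ∫ u, V (t - u) * cv (dO (Fp δ) (Fm δ)) (g b) u =
      cv (gau δ) (g b) t - ∫ s, g b s * lgp (dT (Fm δ)) (t - s) := by
    intro b
    rw [cv_assoc V_integrable h1 (h b)]
    have e1 : ∀ s, g b s * ∫ v, V v * dO (Fp δ) (Fm δ) (t - s - v) =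
        g b s * gau δ (t - s) - g b s * lgp (dT (Fm δ)) (t - s) := by
      intro s
      rw [V_cv_eq, lgpT hδ]
      ring
    simp_rw [e1]
    rw [integral_sub (i2 b) (i1 b)]
    congr 1
    unfold cv
    congr 1
    funext u
    ring
  have eX : ∀ b, ∫ u, V (t - u) * cv (dX (Fp δ) (Fm δ)) (g b) u =
      ∫ s, g b s * lgp (dT (Fm δ)) (t - s) := by
    intro b
    rw [cv_assoc V_integrable h2 (h b)]
    congr 1
    funext s
    rw [V_cv_eq, lgpT' hδ]
  have j1 : Integrable fun u => V (t - u) * cv (dO (Fp δ) (Fm δ)) (g a) u :=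
    (V_nd (cv_nd h1 (h a)) t)
  have j2 : Integrable fun u => V (t - u) * cv (dX (Fp δ) (Fm δ)) (g !a) u :=
    (V_nd (cv_nd h2 (h !a)) t)
  have e3 : ∫ u, Ad δ g a u * V (t - u) = (∫ u, V (t - u) * cv (dO (Fp δ) (Fm δ)) (g a) u) +
      ∫ u, V (t - u) * cv (dX (Fp δ) (Fm δ)) (g !a) u := by
    rw [← integral_add j1 j2]
    congr 1
    funext u
    unfold Ad
    ring
  rw [e3, eO, eX, hT, eT]
  unfold sg
  cases a <;> simp <;> ring

end

end PLT.Tri
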