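import Pool.Agent.PLT.TriF
import Pool.Agent.PLT.KokC
import Pool.Agent.PLT.RefP
import Pool.Agent.PLT.DatOc

/-!
# The densities of the objects on a static curve (helper8, row B1d)

**`exists_ocA`**: `kd` depends on `δ` only; for a point `P` (`PGC δ lo hi P`) and every `ε > 0` there is `A`, such that over every sea
whose curve has room `ρ` in the strip, slope and curvature at most `Cη exp (-|t| / 2)`, kernels `ksC` with three bounded
derivatives (`KsD C (1/2)`) and form bound `3/4` (`O1`), every object `x` has data `X x : Oc` with `Ok lo hi kd A ε (1/20)`, and all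
pairs satisfy `Pr ε (1/20)`, `PrK ε (1/20)`.
-/

set_option autoImplicit false

open MeasureTheory Set Filter Topology

namespace PLT.Tri

noncomputable section

open NUMF (l l_pos V)
open NUC43
open NUO (Xo ht sp)
open PHK (Par6 Kd6 k6 kq6 fO6 offK6)
open PLT.Cv (OffS PGC SAsy KS Oc ga eta ksC KsP)

variable {δ lo hi ρ : ℝ}

/-- the potential of an object is analytic in the strip -/
lemma fO6_diff {P : Par6} (hP : PGC δ lo hi P) (x : Xo) (a : Bool) (z : ℂ) (h1 : lo ≤ z.im) (h2 : z.im ≤ hi) :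
    DifferentiableAt ℂ (fO6 P x a) z := by
  have key : ∀ L : List (Bool × ℝ × ℤ), (∀ p ∈ L, OffS δ lo hi p.2.1) →
      DifferentiableAt ℂ (fun z => (L.map fun p =>
        ((p.2.2 : ℝ) : ℂ) * PLT.Cv.gq (PLT.Cv.qsp p.1 (sp x)) p.2.1 (ht x) a z).sum) z := by
    intro L
    induction L with
    | nil =>
      intro _
      simp only [List.map_nil, List.sum_nil]
      exact differentiableAt_const _
    | cons p L ih =>
      intro hL
      simp only [List.map_cons, List.sum_cons]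
      exact ((PLT.Cv.gqS_diff (hL p List.mem_cons_self) hP.δ0 hP.lo0 hP.hi0 h1 h2).const_mul _).add
        (ih fun r hr => hL r (List.mem_cons_of_mem _ hr))
  have e : fO6 P x a = fun z => ((offK6 P (k6 x)).map fun p =>
      ((p.2.2 : ℝ) : ℂ) * PLT.Cv.gq (PLT.Cv.qsp p.1 (sp x)) p.2.1 (ht x) a z).sum := by
    funext z
    exact PLT.Cv.fO6_gq P x a z
  rw [e]
  exact key _ (hP.off (k6 x))

/-- one species -/
lemma kop_one {C M : ℝ} {ks k1 k2 : Bool → Bool → ℝ → ℝ → ℝ} {n : ℝ → ℝ} (h : KOk C ks k1 k2) (hn : Nd M n)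
    (a b : Bool) : Nd (2 * C * cH * M) (fun t => ∫ u, ks a b t u * n u) := by
  have h1 : ∀ b', Nd M (if b' = b then n else fun _ => 0) := by
    intro b'
    by_cases hb : b' = b
    · rw [if_pos hb]
      exact hn
    · rw [if_neg hb]
      exact ⟨continuous_const, fun t => by
        rw [abs_zero]
        exact mul_nonneg hn.M0 (Real.exp_pos _).le⟩
  have h2 := (kop_w2 h h1 a).nd
  have e : kop ks (fun b' => if b' = b then n else fun _ => 0) a = fun t => ∫ u, ks a b t u * n u := by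
    funext t
    unfold kop
    cases b <;> simp
  rwa [e] at h2

/-- the pair form by species -/
lemma prs_kop {C M M' : ℝ} {ks k1 k2 : Bool → Bool → ℝ → ℝ → ℝ} {ν ν' : Bool → ℝ → ℝ} (h : KOk C ks k1 k2)
    (hν : ∀ a, Nd M (ν a)) (hν' : ∀ a, Nd M' (ν' a)) :
    (∑ a, ∑ b, ∫ t, ν a t * ∫ u, ks a b t u * ν' b u) = prs ν (kop ks ν') := by
  have hi : ∀ a b, Integrable fun t => ν a t * ∫ u, ks a b t u * ν' b u := by
    intro a b
    have h1 := kop_one h (hν' b) a b
    have h2 := (hν a).int.mul_bdd (c := 2 * C * cH * M') h1.cont.aestronglyMeasurable (ae_of_all _ fun t => h1.le t)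
    exact h2
  unfold prs kop
  rw [Fintype.sum_bool, Fintype.sum_bool, Fintype.sum_bool, ← integral_add (hi true true) (hi true false),
    ← integral_add (hi false true) (hi false false)]
  simp_rw [mul_add]

/-- **the densities of the objects** -/
theorem exists_ocA (hδ0 : 0 < δ) (hδ1 : δ ≤ 1) : ∃ kd : ℝ, 0 ≤ kd ∧ ∀ {P : Par6} {lo hi ρ Cη C : ℝ},
    PGC δ lo hi P → 0 < ρ → -1 ≤ lo → hi ≤ 1 → 0 ≤ C → ∀ {ε : ℝ}, 0 < ε → ∃ A : ℝ, 0 ≤ A ∧ ∀ [SeaC],
      (∀ t, lo + ρ ≤ eta t ∧ eta t ≤ hi - ρ) → (∀ t, |deriv eta t| ≤ Cη * Real.exp (-(1 / 2 * |t|))) →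
      (∀ t, |iteratedDeriv 2 eta t| ≤ Cη * Real.exp (-(1 / 2 * |t|))) →
      (∃ D : ℕ → Bool → Bool → ℝ → ℝ → ℝ, D 0 = ksC ∧ KsD C (1 / 2) D) → O1 (3 / 4) ksC →
      ∃ X : Xo → Oc, (∀ x, ((X x).F = fun a z => fO6 P x a z) ∧ (X x).h = ht x ∧
          (X x).q = sg (sp x) * kq6 (k6 x) ∧ (X x).Ok lo hi kd A ε (1 / 20)) ∧
        ∀ x y, Oc.Pr ε (1 / 20) (X x) (X y) ∧ Oc.PrK ε (1 / 20) (X x) (X y) := by
  obtain ⟨C0, hC0, HR⟩ := refO
  have hJ := Jk0 δ
  have hKS := (PLT.Cv.KS_pos hδ0 hδ1).le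
  obtain ⟨K, hK⟩ : ∃ K, K = C0 * Jk δ := ⟨_, rfl⟩
  have hK0 : 0 ≤ K := by rw [hK]; positivity
  obtain ⟨kd, hkd⟩ : ∃ kd, kd = 10 + 5 * KS δ + 2 * K := ⟨_, rfl⟩
  have hkd0 : 0 ≤ kd := by rw [hkd]; positivity
  refine ⟨kd, hkd0, fun {P lo hi ρ Cη C} hP hρ h1 h2 hC {ε} hε => ?_⟩
  obtain ⟨M1, hM1, HF⟩ := exists_fd (lo := lo) (hi := hi) (ρ := ρ) (kd := kd) (c := 1 / 2) (Ce := Cη) (a := 1 / 8)
    hρ h1 h2 (by norm_num) (by norm_num) (by norm_num)
  obtain ⟨A1, hA1, HT⟩ := exists_trial (th := 3 / 4) (ε := ε) (c := 1 / 20) (a := 1 / 8)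
    (M := M1 + 8 * (C * K)) (Ck := C) (by norm_num) (by norm_num) hC (by positivity) (by norm_num)
    (by norm_num) (by norm_num) hε
  refine ⟨2 * A1, by positivity, fun {_} hη hη1 hη2 hD hO => ?_⟩
  obtain ⟨D, hD0, hD⟩ := hD
  have hl := l_pos
  have hve : ∀ t, eta t / l * l = eta t := fun t => div_mul_cancel₀ _ hl.ne'
  -- reference densities
  have hR : ∀ x : Xo, ∃ μ, Rf K (sg (sp x) * kq6 (k6 x)) (ht x)
      (fun a t => (fO6 P x a ((t : ℂ) + (eta (ht x) : ℂ) * Complex.I)).re) μ := by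
    intro x
    have := HR hP (v := eta (ht x) / l) (by rw [hve]; linarith [(hη (ht x)).1])
      (by rw [hve]; linarith [(hη (ht x)).2]) x
    rw [hve, ← hK] at this
    exact this
  choose μ hμ using hR
  have hA' : ∀ (x : Xo) (a : Bool), ∃ c₀ a₀ f₀ : ℝ, |c₀| ≤ kd ∧ SAsy lo hi kd c₀ a₀ f₀ (ht x) (fO6 P x a) := by
    intro x a
    obtain ⟨c₀, a₀, f₀, b₀, s₀⟩ := asyO hP x a
    exact ⟨c₀, a₀, f₀, by rw [hkd]; linarith [mul_nonneg (by norm_num : (0 : ℝ) ≤ 5) hKS],
      s₀.mono (by rw [hkd]; linarith)⟩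
  have hsm : ContDiff ℝ 2 eta := by exact_mod_cast contDiff_infty.1 PLT.Cv.eta_smooth 2
  have hf : ∀ (x : Xo) (a : Bool), ∃ f1 f2 : ℝ → ℝ, W2 (M1 * Real.exp (-(1 / 8 * |ht x|)))
      (fun s => (fO6 P x a (((s + ht x : ℝ) : ℂ) + eta (s + ht x) * Complex.I)).re -
        (fO6 P x a (((s + ht x : ℝ) : ℂ) + eta (ht x) * Complex.I)).re) f1 f2 := by
    intro x a
    obtain ⟨c₀, a₀, f₀, b₀, s₀⟩ := hA' x a
    exact HF hsm hη hη1 hη2 b₀ (fun z z1 z2 => fO6_diff hP x a z z1 z2) s₀
  choose f1 f2 hf using hf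
  have hw : ∀ (x : Xo) (b : Bool), W2 ((M1 + 8 * (C * K)) * Real.exp (-(1 / 8 * |ht x|)))
      (fun s => ((fO6 P x b (((s + ht x : ℝ) : ℂ) + eta (s + ht x) * Complex.I)).re -
        (fO6 P x b (((s + ht x : ℝ) : ℂ) + eta (ht x) * Complex.I)).re) + kop (D 0) (μ x) b (s + ht x))
      (fun s => f1 x b (s + ht x - ht x) + kop (D 1) (μ x) b (s + ht x))
      (fun s => f2 x b (s + ht x - ht x) + kop (D 2) (μ x) b (s + ht x)) := by
    intro x b
    have w1 := hf x b
    have w2 := hD.ref_w2 (by norm_num) (by norm_num) (hμ x).c (hμ x).b b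
    have w3 := w1.addF w2
    simp only [add_sub_cancel_right]
    refine w3.mono (le_of_eq ?_)
    rw [show (1 : ℝ) / 2 / 4 = 1 / 8 by norm_num]
    ring
  obtain ⟨q, p, φ, φ1, HT1, HT2⟩ := HT (D 0) (D 1) (D 2) hD.kok (by rw [hD0]; exact hO) ht
    (fun x b t => ((fO6 P x b ((t : ℂ) + eta t * Complex.I)).re -
        (fO6 P x b ((t : ℂ) + eta (ht x) * Complex.I)).re) + kop (D 0) (μ x) b t)
    (fun x b t => f1 x b (t - ht x) + kop (D 1) (μ x) b t)
    (fun x b t => f2 x b (t - ht x) + kop (D 2) (μ x) b t) hw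
  rw [hD0] at HT1 HT2
  have hKs : ∀ (ν : Bool → ℝ → ℝ) (a : Bool) (t : ℝ), (∑ b, ∫ u, ksC a b t u * ν b u) = kop ksC ν a t := by
    intro ν a t
    rw [Fintype.sum_bool]
    rfl
  have hpn : ∀ x a, Nd (A1 * Real.exp (-(1 / 20 * |ht x|)) * Real.exp |ht x|) (p x a) := fun x a =>
    nd_of_dec ((HT1 x).pc a) ((HT1 x).pb a)
  have hqn : ∀ x a, Nd (A1 * Real.exp (-(1 / 20 * |ht x|)) * Real.exp |ht x|) (q x a) := fun x a =>
    nd_of_dec ((HT1 x).qc a) ((HT1 x).qb a)
  refine ⟨fun x => ⟨fun a z => fO6 P x a z, fun a t => μ x a t + p x a t, fun a t => μ x a t + q x a t,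
    fun t => (μ x true t + p x true t) - (μ x false t + p x false t), φ x, φ1 x, ht x,
    sg (sp x) * kq6 (k6 x)⟩, fun x => ⟨rfl, rfl, rfl, ?_⟩, fun x y => ⟨?_, ?_⟩⟩
  · -- Ok
    have hμn := fun a => (hμ x).nd a
    have hE0 : 0 < Real.exp (-(1 / 20 * |ht x|)) := Real.exp_pos _
    have hbd : ∀ {n : ℝ → ℝ} {a : Bool} {t : ℝ}, |n t| ≤ A1 * Real.exp (-(1 / 20 * |ht x|)) *
        Real.exp (-(5 / 2) * |t - ht x|) → |μ x a t + n t| ≤
        (K + A1 * Real.exp (-(1 / 20 * |ht x|))) * Real.exp (-(5 / 2) * |t - ht x|) := by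
      intro n a t hn
      rw [add_mul]
      exact (abs_add_le _ _).trans (add_le_add ((hμ x).b a t) hn)
    have hle : ∀ t, (K + A1 * Real.exp (-(1 / 20 * |ht x|))) * Real.exp (-(5 / 2) * |t - ht x|) ≤
        (kd + 2 * A1 * Real.exp (-(1 / 20 * |ht x|))) * Real.exp (-(5 / 2) * |t - ht x|) := by
      intro t
      refine mul_le_mul_of_nonneg_right ?_ (Real.exp_pos _).le
      have := mul_nonneg hA1 hE0.le
      rw [hkd]
      linarith
    refine ⟨fun a z z1 z2 => fO6_diff hP x a z z1 z2, hA' x, fun a t => ?_, fun a => ?_, fun a => ?_, ?_,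
      by positivity, by norm_num, hε.le, fun a t => ?_, fun a t => ?_, fun t => ?_, ?_, fun t => rfl,
      (HT1 x).d, (HT1 x).c1, (HT1 x).b0, (HT1 x).b1⟩
    · -- the field equation
      have e1 := (hμ x).e a t
      have e2 := (HT1 x).eq a t
      have e3 : lgp (fun u => (μ x true u + p x true u) - (μ x false u + p x false u)) t =
          lgp (fun u => μ x true u - μ x false u) t + lgp (fun u => p x true u - p x false u) t := by
        rw [← lgp_add ((hμn true).sub (hμn false)) ((hpn x true).sub (hpn x false)) t]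
        congr 1
        funext u
        ring
      have e4 : KsP (fun a t => μ x a t + q x a t) a t = kop ksC (μ x) a t + kop ksC (q x) a t := by
        unfold PLT.Cv.KsP
        rw [hKs]
        have h3 := kop_add hD.kok hμn (hqn x) 1 a t
        rw [hD0] at h3
        simp only [one_mul] at h3
        exact h3
      have e5 : (∫ u, (μ x a u + p x a u) * V (t - u)) =
          (∫ u, μ x a u * V (t - u)) + ∫ u, p x a u * V (t - u) := by
        rw [← integral_add (V_in (hμn a) t) (V_in (hpn x a) t)]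
        congr 1
        funext u
        ring
      show (fO6 P x a (ga t)).re - Gs.Dat.sg a *
        NUC43.lgp (fun u => (μ x true u + p x true u) - (μ x false u + p x false u)) t +
        KsP (fun a t => μ x a t + q x a t) a t = (∫ u, (μ x a u + p x a u) * V (t - u)) + φ x a t
      have e6 : Gs.Dat.sg a = sg a := rfl
      have e7 : ga t = (t : ℂ) + eta t * Complex.I := rfl
      rw [e3, e4, e5, e6, e7]
      linear_combination e1 + e2
    · exact ((hμ x).c a).add ((HT1 x).pc a)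
    · exact ((hμ x).c a).add ((HT1 x).qc a)
    · exact (((hμ x).c true).add ((HT1 x).pc true)).sub (((hμ x).c false).add ((HT1 x).pc false))
    · exact (hbd ((HT1 x).pb a t)).trans (hle t)
    · exact (hbd ((HT1 x).qb a t)).trans (hle t)
    · have b1 := hbd (n := p x true) (a := true) ((HT1 x).pb true t)
      have b2 := hbd (n := p x false) (a := false) ((HT1 x).pb false t)
      refine (abs_sub _ _).trans ((add_le_add b1 b2).trans ?_)
      rw [← two_mul, ← mul_assoc]
      refine mul_le_mul_of_nonneg_right ?_ (Real.exp_pos _).le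
      rw [hkd]
      linarith
    · show (∫ t, ((μ x true t + p x true t) - (μ x false t + p x false t))) = -(sg (sp x) * kq6 (k6 x))
      have e1 : ∀ t, (μ x true t + p x true t) - (μ x false t + p x false t) =
          (μ x true t - μ x false t) + (p x true t - p x false t) := fun t => by ring
      simp_rw [e1]
      have i1 : Integrable fun t => μ x true t - μ x false t := (hμn true).int.sub (hμn false).int
      have i2 : Integrable fun t => p x true t - p x false t := (hpn x true).int.sub (hpn x false).int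
      rw [integral_add i1 i2, (hμ x).n, (HT1 x).p0, add_zero]
  · -- pairs, V
    have h3 := (HT2 x y).1
    unfold Oc.Pr
    simp only
    have e1 : ∀ (z : Xo) (a : Bool) (t : ℝ), μ z a t + p z a t - (μ z a t + q z a t) = p z a t - q z a t :=
      fun z a t => by ring
    simp_rw [e1]
    rw [Fintype.sum_bool]
    exact h3
  · have h3 := (HT2 x y).2
    unfold Oc.PrK
    simp only
    have e1 : ∀ (z : Xo) (a : Bool) (t : ℝ), μ z a t + p z a t - (μ z a t + q z a t) = p z a t - q z a t :=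
      fun z a t => by ring
    simp_rw [e1]
    have hpq : ∀ z a, Nd (A1 * Real.exp (-(1 / 20 * |ht z|)) * Real.exp |ht z| +
        A1 * Real.exp (-(1 / 20 * |ht z|)) * Real.exp |ht z|) (fun t => p z a t - q z a t) := fun z a =>
      (hpn z a).sub (hqn z a)
    have e2 := prs_kop hD.kok (hpq x) (hpq y)
    rw [hD0] at e2
    rw [e2]
    exact h3

end

end PLT.Tri
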