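import Pool.Agent.PLT.TriC
import Pool.Agent.PLT.DatCC
import Pool.Agent.PLT.EnId

/-!
# The objects of the gas on a static curve (helper8, row B1d)

`Oc.Ok.mono`, `Oc.Pr.mono`, `Oc.PrK.mono`: larger `kd`, smaller decay `c`.
**`exists_objsA`**: for a point and numbers `Q : Par7` with `kd δ ≤ Q.kd`, `Q.c ≤ 1/20`: every object of the six kinds has
data over every sea of the class.
-/

set_option autoImplicit false

open MeasureTheory Set Filter Topology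

namespace PLT.Tri

noncomputable section

open NUMF (l l_pos V)
open NUC43
open NUO (Xo ht sp)
open PHK (Par6 Kd6 k6 kq6 fO6 offK6)
open PLT.Cv (PGC SAsy Oc OcL Par7 eta ksC)

variable {lo hi kd kd' A ε c c' δ : ℝ} {X Y : Oc}

section

variable [SeaC]

lemma _root_.PLT.Cv.Oc.Ok.mono (h : X.Ok lo hi kd A ε c) (hk : kd ≤ kd') (hc : 0 ≤ c') (hcc : c' ≤ c) :
    X.Ok lo hi kd' A ε c' := by
  have hA := h.A0
  have hε := h.ε0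
  have he : ∀ x : ℝ, 0 ≤ x → Real.exp (-(c * x)) ≤ Real.exp (-(c' * x)) := fun x hx =>
    Real.exp_le_exp.2 (by have := mul_le_mul_of_nonneg_right hcc hx; linarith)
  have hm : ∀ t : ℝ, (kd + A * Real.exp (-(c * |X.h|))) * Real.exp (-(5 / 2) * |t - X.h|) ≤
      (kd' + A * Real.exp (-(c' * |X.h|))) * Real.exp (-(5 / 2) * |t - X.h|) := fun t => by
    refine mul_le_mul_of_nonneg_right (add_le_add hk ?_) (Real.exp_pos _).le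
    exact mul_le_mul_of_nonneg_left (he _ (abs_nonneg _)) hA
  have hf : ∀ t : ℝ, ε * Real.exp (-(c * |t|) - c * |X.h|) ≤ ε * Real.exp (-(c' * |t|) - c' * |X.h|) := fun t =>
    mul_le_mul_of_nonneg_left (Real.exp_le_exp.2 (by
      have h1 := mul_le_mul_of_nonneg_right hcc (abs_nonneg t)
      have h2 := mul_le_mul_of_nonneg_right hcc (abs_nonneg X.h)
      linarith)) hε
  refine ⟨h.diff, fun a => ?_, h.eq, h.μc, h.rc, h.τc, hA, hc, hε, fun a t => (h.μb a t).trans (hm t),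
    fun a t => (h.rb a t).trans (hm t), fun t => (h.τb t).trans (hm t), h.τq, h.τe, h.φd, h.φc,
    fun a t => (h.φb a t).trans (hf t), fun a t => (h.φb' a t).trans (hf t)⟩
  obtain ⟨c₀, a₀, f₀, b, s⟩ := h.asy a
  exact ⟨c₀, a₀, f₀, b.trans hk, s.mono hk⟩

omit [SeaC] in
lemma exp_cc (hcc : c' ≤ c) (x y : ℝ) (hε : 0 ≤ ε) :
    ε * Real.exp (-(c * |x|) - c * |y|) ≤ ε * Real.exp (-(c' * |x|) - c' * |y|) :=
  mul_le_mul_of_nonneg_left (Real.exp_le_exp.2 (by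
    have h1 := mul_le_mul_of_nonneg_right hcc (abs_nonneg x)
    have h2 := mul_le_mul_of_nonneg_right hcc (abs_nonneg y)
    linarith)) hε

omit [SeaC] in
lemma _root_.PLT.Cv.Oc.Pr.mono (h : Oc.Pr ε c X Y) (hε : 0 ≤ ε) (hcc : c' ≤ c) : Oc.Pr ε c' X Y := by
  unfold Oc.Pr at h ⊢
  exact h.trans (exp_cc hcc _ _ hε)

lemma _root_.PLT.Cv.Oc.PrK.mono (h : Oc.PrK ε c X Y) (hε : 0 ≤ ε) (hcc : c' ≤ c) : Oc.PrK ε c' X Y := by
  unfold Oc.PrK at h ⊢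
  exact h.trans (exp_cc hcc _ _ hε)

end

/-- **the objects of the gas** -/
theorem exists_objsA (hδ0 : 0 < δ) (hδ1 : δ ≤ 1) : ∃ kd : ℝ, 0 ≤ kd ∧ ∀ {P : Par6} {Q : Par7} {ρ Cη C : ℝ},
    PGC δ (Q.lo - Q.w) (Q.hi + Q.w) P → 0 < ρ → -1 ≤ Q.lo - Q.w → Q.hi + Q.w ≤ 1 → 0 ≤ C → kd ≤ Q.kd →
    0 ≤ Q.c → Q.c ≤ 1 / 20 → ∀ {ε : ℝ}, 0 < ε → ∃ A : ℝ, 0 ≤ A ∧ ∀ [SeaC],
      (∀ t, Q.lo - Q.w + ρ ≤ eta t ∧ eta t ≤ Q.hi + Q.w - ρ) →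
      (∀ t, |deriv eta t| ≤ Cη * Real.exp (-(1 / 2 * |t|))) →
      (∀ t, |iteratedDeriv 2 eta t| ≤ Cη * Real.exp (-(1 / 2 * |t|))) →
      (∃ D : ℕ → Bool → Bool → ℝ → ℝ → ℝ, D 0 = ksC ∧ KsD C (1 / 2) D) → O1 (3 / 4) ksC →
      ∃ T : Xo → Oc, (∀ x, OcL P x (T x)) ∧ (∀ x, (T x).Ok (Q.lo - Q.w) (Q.hi + Q.w) Q.kd A ε Q.c) ∧
        (∀ x y, Oc.Pr ε Q.c (T x) (T y)) ∧ ∀ x y, Oc.PrK ε Q.c (T x) (T y) := by
  obtain ⟨kd, hkd, H⟩ := exists_ocA hδ0 hδ1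
  refine ⟨kd, hkd, fun {P Q ρ Cη C} hP hρ h1 h2 hC hk hc0 hc {ε} hε => ?_⟩
  obtain ⟨A, hA, HA⟩ := H hP hρ h1 h2 (Cη := Cη) hC hε
  refine ⟨A, hA, fun {_} a1 a2 a3 a4 a5 => ?_⟩
  obtain ⟨X, HX, HP⟩ := HA a1 a2 a3 a4 a5
  refine ⟨X, fun x => ?_, fun x => ?_, fun x y => ?_, fun x y => ?_⟩
  · obtain ⟨e1, e2, e3, _⟩ := HX x
    exact ⟨fun a z => by rw [e1], e2, e3⟩
  · exact (HX x).2.2.2.mono hk hc0 hc
  · exact (HP x y).1.mono hε.le hc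
  · exact (HP x y).2.mono hε.le hc

end

end PLT.Tri
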