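import Pool.Agent.PLT.DatFC
import Pool.Agent.PLT.TriT

/-!
# The potential of an object on a curve against its reference line

* `DB.deriv3`: Cauchy, third derivative;
* `Crv2 C a η η1 η2`: curves with two derivatives, increments and derivatives `≤ C e^{|t - h| - |h|}`, `≤ C e^{-|t|}`;
* **`w2_fld`**: `Re F (t + i η t) - Re F (t + i η h)` in the frame of the height `h` of the object: `W2 (M e^{-|h|})`;
* **`w2_ker`**: the potential of a kernel with decay along the line: `W2 (M e^{-c |h|})`;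
* **`w2_obj`**: the sum of both, the data of `exists_trial`.
-/

set_option autoImplicit false
set_option linter.unusedSectionVars false
set_option linter.unusedVariables false

open MeasureTheory Set Filter Topology Complex

namespace PLT.Tri

open PLT.Cv (DB SAsy dcc_of disc_strip exp_shift kA kB kA_nonneg kB_nonneg)

noncomputable section

/-! ### the third derivative -/

section cauchy

variable {lo hi r k k1 k2 h : ℝ} {F : ℂ → ℂ}

/-- the constant of the third derivative -/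
def kC (r k2 : ℝ) : ℝ := 2 * k2 * Real.exp r / r

lemma kC_nonneg (hr : 0 < r) (hk : 0 ≤ k2) : 0 ≤ kC r k2 := by
  unfold kC
  positivity

/-- **Cauchy for the second derivative** -/
theorem DB.deriv3 (hF : DB (lo - r) (hi + r) k k1 k2 h F) (hr : 0 < r) (hk2 : 0 ≤ k2) :
    DB lo hi 0 k2 (kC r k2) h (deriv F) := by
  have hU : IsOpen {z : ℂ | lo - r < z.im ∧ z.im < hi + r} :=
    (isOpen_lt continuous_const Complex.continuous_im).inter
      (isOpen_lt Complex.continuous_im continuous_const)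
  have hD : ∀ z : ℂ, lo - r < z.im → z.im < hi + r → DifferentiableAt ℂ (deriv (deriv F)) z := by
    intro z h1 h2
    have h3 : DifferentiableOn ℂ (deriv F) {z : ℂ | lo - r < z.im ∧ z.im < hi + r} := fun w hw =>
      (hF.dd w hw.1.le hw.2.le).differentiableWithinAt
    exact (h3.deriv hU).differentiableAt (hU.mem_nhds ⟨h1, h2⟩)
  refine ⟨fun z h1 h2 => hF.dd z (by linarith) (by linarith),
    fun z h1 h2 => hD z (by linarith) (by linarith),
    fun z h1 h2 => ⟨0, by simp, ?_⟩, fun z h1 h2 => ?_⟩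
  · simpa using hF.d2 z (by linarith) (by linarith)
  · have hρ : 0 < r / 2 := by linarith
    have key := Complex.norm_deriv_le_of_forall_mem_sphere_norm_le (c := z) (R := r / 2)
      (C := k2 * Real.exp r * Real.exp (-2 * |z.re - h|)) (f := deriv (deriv F)) hρ
      (dcc_of hρ h1 h2 fun w h3 h4 => hD w (by linarith) (by linarith)) (fun w hw => by
        rw [mem_sphere_iff_norm] at hw
        obtain ⟨h3, h4, h5⟩ := disc_strip h1 h2 hw.le
        refine (hF.d2 w (by linarith) (by linarith)).trans ?_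
        rw [mul_assoc]
        refine mul_le_mul_of_nonneg_left ?_ hk2
        refine (exp_shift h5).trans (le_of_eq ?_)
        rw [show 2 * (r / 2) = r by ring])
    refine key.trans (le_of_eq ?_)
    unfold kC
    field_simp

end cauchy

/-! ### the potential along the curve -/

/-- curves with two derivatives whose increments are small far out -/
structure Crv2 (C a : ℝ) (η η1 η2 : ℝ → ℝ) : Prop where
  a0 : 0 ≤ a
  a1 : a ≤ 1
  d1 : ∀ t, HasDerivAt η (η1 t) t
  d2 : ∀ t, HasDerivAt η1 (η2 t) t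
  c2 : Continuous η2
  b : ∀ t h, |η t - η h| ≤ C * Real.exp (|t - h| - a * |h|)
  b1 : ∀ t, |η1 t| ≤ C * Real.exp (-(a * |t|))
  b2 : ∀ t, |η2 t| ≤ C * Real.exp (-(a * |t|))

section fld

variable {lo hi k k1 k2 k3 h C a β : ℝ} {F : ℂ → ℂ} {η η1 η2 : ℝ → ℝ}

lemma Crv2.C0 (hη : Crv2 C a η η1 η2) : 0 ≤ C := by
  have := (abs_nonneg _).trans (hη.b1 0)
  simpa using this

/-- the difference of the potentials on the curve and on the line -/
def gF (F : ℂ → ℂ) (η : ℝ → ℝ) (β t : ℝ) : ℝ := (F ((t : ℂ) + η t * I)).re - (F ((t : ℂ) + β * I)).re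

/-- its derivative -/
def gF1 (F : ℂ → ℂ) (η η1 : ℝ → ℝ) (β t : ℝ) : ℝ :=
  (deriv F ((t : ℂ) + η t * I) * (1 + η1 t * I)).re - (deriv F ((t : ℂ) + β * I)).re

/-- its second derivative -/
def gF2 (F : ℂ → ℂ) (η η1 η2 : ℝ → ℝ) (β t : ℝ) : ℝ :=
  (deriv (deriv F) ((t : ℂ) + η t * I) * (1 + η1 t * I) * (1 + η1 t * I) +
    deriv F ((t : ℂ) + η t * I) * (η2 t * I)).re - (deriv (deriv F) ((t : ℂ) + β * I)).re

lemma pathF_d (hη : Crv2 C a η η1 η2) (t : ℝ) :
    HasDerivAt (fun t : ℝ => (t : ℂ) + η t * I) (1 + η1 t * I) t := by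
  have h1 : HasDerivAt (fun t : ℝ => (t : ℂ)) 1 t := Complex.ofRealCLM.hasDerivAt
  exact h1.add ((hη.d1 t).ofReal_comp.mul_const I)

lemma pathF1_d (hη : Crv2 C a η η1 η2) (t : ℝ) :
    HasDerivAt (fun t : ℝ => (1 : ℂ) + η1 t * I) (η2 t * I) t :=
  ((hη.d2 t).ofReal_comp.mul_const I).const_add 1

lemma lineF_d (β t : ℝ) : HasDerivAt (fun t : ℝ => (t : ℂ) + β * I) 1 t := by
  have h1 : HasDerivAt (fun t : ℝ => (t : ℂ)) 1 t := Complex.ofRealCLM.hasDerivAt
  exact h1.add_const _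

lemma reF_d {u : ℝ → ℂ} {u' : ℂ} {t : ℝ} (h : HasDerivAt u u' t) : HasDerivAt (fun t => (u t).re) u'.re t :=
  Complex.reCLM.hasFDerivAt.comp_hasDerivAt t h

theorem gF_d (hη : Crv2 C a η η1 η2) (hF : DB lo hi k k1 k2 h F) (he : ∀ t, lo ≤ η t ∧ η t ≤ hi)
    (hβ : lo ≤ β ∧ β ≤ hi) (t : ℝ) : HasDerivAt (gF F η β) (gF1 F η η1 β t) t := by
  have h1 := (hF.d ((t : ℂ) + η t * I) (by simpa using (he t).1) (by simpa using (he t).2)).hasDerivAt.comp t
    (pathF_d hη t)
  have h2 := (hF.d ((t : ℂ) + β * I) (by simpa using hβ.1) (by simpa using hβ.2)).hasDerivAt.comp t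
    (lineF_d β t)
  rw [mul_one] at h2
  exact (reF_d h1).sub (reF_d h2)

theorem gF1_d (hη : Crv2 C a η η1 η2) (hF : DB lo hi k k1 k2 h F) (he : ∀ t, lo ≤ η t ∧ η t ≤ hi)
    (hβ : lo ≤ β ∧ β ≤ hi) (t : ℝ) : HasDerivAt (gF1 F η η1 β) (gF2 F η η1 η2 β t) t := by
  have h1 := (hF.dd ((t : ℂ) + η t * I) (by simpa using (he t).1) (by simpa using (he t).2)).hasDerivAt.comp t
    (pathF_d hη t)
  have h2 := (hF.dd ((t : ℂ) + β * I) (by simpa using hβ.1) (by simpa using hβ.2)).hasDerivAt.comp t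
    (lineF_d β t)
  rw [mul_one] at h2
  exact (reF_d (h1.mul (pathF1_d hη t))).sub (reF_d h2)

theorem gF2_c (hη : Crv2 C a η η1 η2) (hF : DB lo hi k k1 k2 h F) (hF' : DB lo hi 0 k2 k3 h (deriv F))
    (he : ∀ t, lo ≤ η t ∧ η t ≤ hi) (hβ : lo ≤ β ∧ β ≤ hi) : Continuous (gF2 F η η1 η2 β) := by
  have cη1 : Continuous η1 := continuous_iff_continuousAt.2 fun t => (hη.d2 t).continuousAt
  have cp : Continuous fun t : ℝ => (t : ℂ) + η t * I :=
    continuous_iff_continuousAt.2 fun t => (pathF_d hη t).continuousAt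
  have c1 : Continuous fun t : ℝ => deriv F ((t : ℂ) + η t * I) :=
    continuous_iff_continuousAt.2 fun t =>
      ((hF.dd _ (by simpa using (he t).1) (by simpa using (he t).2)).hasDerivAt.comp t (pathF_d hη t)).continuousAt
  have c2 : Continuous fun t : ℝ => deriv (deriv F) ((t : ℂ) + η t * I) :=
    continuous_iff_continuousAt.2 fun t =>
      ((hF'.dd _ (by simpa using (he t).1) (by simpa using (he t).2)).hasDerivAt.comp t (pathF_d hη t)).continuousAt
  have c3 : Continuous fun t : ℝ => deriv (deriv F) ((t : ℂ) + β * I) :=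
    continuous_iff_continuousAt.2 fun t =>
      ((hF'.dd _ (by simpa using hβ.1) (by simpa using hβ.2)).hasDerivAt.comp t (lineF_d β t)).continuousAt
  have c4 : Continuous fun t : ℝ => (1 : ℂ) + η1 t * I :=
    continuous_const.add ((Complex.continuous_ofReal.comp cη1).mul continuous_const)
  have c5 : Continuous fun t : ℝ => ((η2 t : ℝ) : ℂ) * I :=
    (Complex.continuous_ofReal.comp hη.c2).mul continuous_const
  exact (Complex.continuous_re.comp (((c2.mul c4).mul c4).add (c1.mul c5))).sub (Complex.continuous_re.comp c3)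

/-- **the potential of the object on the curve against its reference line** -/
theorem w2_fld (hη : Crv2 C a η η1 η2) (hF : DB lo hi k k1 k2 h F) (hF' : DB lo hi 0 k2 k3 h (deriv F))
    (hk1 : 0 ≤ k1) (hk2 : 0 ≤ k2) (hk3 : 0 ≤ k3) (he : ∀ t, lo ≤ η t ∧ η t ≤ hi) :
    W2 ((2 * k1 + (C + 4) * k2 + k3) * C * Real.exp (-(a * |h|))) (fun s => gF F η (η h) (s + h))
      (fun s => gF1 F η η1 (η h) (s + h)) (fun s => gF2 F η η1 η2 (η h) (s + h)) := by
  have hC := hη.C0
  have hsh : ∀ {u u1 : ℝ → ℝ}, (∀ t, HasDerivAt u (u1 t) t) → ∀ t,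
      HasDerivAt (fun t => u (t + h)) (u1 (t + h)) t := by
    intro u u1 hu t
    have h1 : HasDerivAt (fun x : ℝ => x + h) 1 t := (hasDerivAt_id t).add_const h
    have h2 := (hu (t + h)).comp t h1
    rw [mul_one] at h2
    exact h2
  have hc : Continuous fun t : ℝ => t + h := by fun_prop
  -- sizes
  have q0 : ∀ t, Real.exp (-2 * |t - h|) * Real.exp (|t - h| - a * |h|) = Real.exp (-(a * |h|)) * Real.exp (-|t - h|) := by
    intro t
    rw [← Real.exp_add, ← Real.exp_add]
    congr 1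
    ring
  have ha0 := hη.a0
  have ha1 := hη.a1
  have q1 : ∀ t, Real.exp (-(a * |t|)) ≤ Real.exp (|t - h| - a * |h|) := by
    intro t
    refine Real.exp_le_exp.2 ?_
    have h1 : |h| ≤ |t - h| + |t| := by
      have := abs_sub t (t - h)
      rw [sub_sub_cancel] at this
      linarith
    nlinarith [abs_nonneg (t - h)]
  have n0 : ∀ t, ‖((η t - η h : ℝ) : ℂ) * I‖ ≤ C * Real.exp (|t - h| - a * |h|) := by
    intro t
    rw [norm_mul, Complex.norm_I, mul_one, Complex.norm_real, Real.norm_eq_abs]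
    exact hη.b t h
  have n1 : ∀ t, ‖((η1 t : ℝ) : ℂ) * I‖ ≤ C * Real.exp (|t - h| - a * |h|) := by
    intro t
    rw [norm_mul, Complex.norm_I, mul_one, Complex.norm_real, Real.norm_eq_abs]
    exact (hη.b1 t).trans (mul_le_mul_of_nonneg_left (q1 t) hC)
  have n2 : ∀ t, ‖((η2 t : ℝ) : ℂ) * I‖ ≤ C * Real.exp (|t - h| - a * |h|) := by
    intro t
    rw [norm_mul, Complex.norm_I, mul_one, Complex.norm_real, Real.norm_eq_abs]
    exact (hη.b2 t).trans (mul_le_mul_of_nonneg_left (q1 t) hC)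
  have n1' : ∀ t, ‖((η1 t : ℝ) : ℂ) * I‖ ≤ C := by
    intro t
    rw [norm_mul, Complex.norm_I, mul_one, Complex.norm_real, Real.norm_eq_abs]
    refine (hη.b1 t).trans (mul_le_of_le_one_right hC (Real.exp_le_one_iff.2 ?_))
    have := mul_nonneg ha0 (abs_nonneg t)
    linarith
  have ez : ∀ t : ℝ, (t : ℂ) + η t * I = ((t : ℂ) + η h * I) + ((η t - η h : ℝ) : ℂ) * I := by
    intro t
    push_cast
    ring
  have im0 : ∀ t : ℝ, lo ≤ ((t : ℂ) + η h * I).im ∧ ((t : ℂ) + η h * I).im ≤ hi := by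
    intro t
    simpa using he h
  have im1 : ∀ t : ℝ, lo ≤ (((t : ℂ) + η h * I) + ((η t - η h : ℝ) : ℂ) * I).im ∧
      (((t : ℂ) + η h * I) + ((η t - η h : ℝ) : ℂ) * I).im ≤ hi := by
    intro t
    rw [← ez t]
    simpa using he t
  have re0 : ∀ t : ℝ, (((η t - η h : ℝ) : ℂ) * I).re = 0 := by
    intro t
    simp
  have re1 : ∀ t : ℝ, (((η1 t : ℝ) : ℂ) * I).re = 0 := by
    intro t
    simp
  have rez : ∀ t : ℝ, ((t : ℂ) + η h * I).re = t := by
    intro t
    simp
  have rez' : ∀ t : ℝ, (((t : ℂ) + η h * I) + ((η t - η h : ℝ) : ℂ) * I).re = t := by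
    intro t
    simp
  have E0 : ∀ t, 0 ≤ Real.exp (-2 * |t - h|) := fun t => (Real.exp_pos _).le
  have b0 : ∀ t, |gF F η (η h) t| ≤ (2 * k1 + (C + 4) * k2 + k3) * C * Real.exp (-(a * |h|)) * Real.exp (-|t - h|) := by
    intro t
    have h1 := hF.re_disp hk1 (im0 t).1 (im0 t).2 (im1 t).1 (im1 t).2
    rw [re0, abs_zero, mul_zero, mul_zero, Real.exp_zero, mul_one, zero_add, ← ez t, rez] at h1
    unfold gF
    refine h1.trans ?_
    calc k1 * Real.exp (-2 * |t - h|) * ‖((η t - η h : ℝ) : ℂ) * I‖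
        ≤ k1 * Real.exp (-2 * |t - h|) * (C * Real.exp (|t - h| - a * |h|)) :=
          mul_le_mul_of_nonneg_left (n0 t) (by positivity)
      _ = k1 * C * (Real.exp (-2 * |t - h|) * Real.exp (|t - h| - a * |h|)) := by ring
      _ = k1 * C * (Real.exp (-(a * |h|)) * Real.exp (-|t - h|)) := by rw [q0]
      _ ≤ (2 * k1 + (C + 4) * k2 + k3) * C * (Real.exp (-(a * |h|)) * Real.exp (-|t - h|)) :=
          mul_le_mul_of_nonneg_right (mul_le_mul_of_nonneg_right (by nlinarith) hC) (by positivity)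
      _ = _ := by ring
  have b1 : ∀ t, |gF1 F η η1 (η h) t| ≤ (2 * k1 + (C + 4) * k2 + k3) * C * Real.exp (-(a * |h|)) * Real.exp (-|t - h|) := by
    intro t
    have h1 := hF.dre_disp (z1 := 1) (d1 := ((η1 t : ℝ) : ℂ) * I) hk1 hk2 (im0 t).1 (im0 t).2 (im1 t).1 (im1 t).2
    rw [re0, re1, abs_zero, mul_zero, mul_zero, Real.exp_zero, mul_one, zero_add, norm_one, mul_one, mul_one,
      ← ez t, rez] at h1
    unfold gF1
    refine h1.trans ?_
    calc (k2 * ‖((η t - η h : ℝ) : ℂ) * I‖ + k1 * ‖((η1 t : ℝ) : ℂ) * I‖) * Real.exp (-2 * |t - h|)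
        ≤ (k2 * (C * Real.exp (|t - h| - a * |h|)) + k1 * (C * Real.exp (|t - h| - a * |h|))) *
          Real.exp (-2 * |t - h|) := by
          refine mul_le_mul_of_nonneg_right (add_le_add ?_ ?_) (E0 t)
          · exact mul_le_mul_of_nonneg_left (n0 t) hk2
          · exact mul_le_mul_of_nonneg_left (n1 t) hk1
      _ = (k2 + k1) * C * (Real.exp (-2 * |t - h|) * Real.exp (|t - h| - a * |h|)) := by ring
      _ = (k2 + k1) * C * (Real.exp (-(a * |h|)) * Real.exp (-|t - h|)) := by rw [q0]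
      _ ≤ (2 * k1 + (C + 4) * k2 + k3) * C * (Real.exp (-(a * |h|)) * Real.exp (-|t - h|)) :=
          mul_le_mul_of_nonneg_right (mul_le_mul_of_nonneg_right (by nlinarith) hC) (by positivity)
      _ = _ := by ring
  have b2 : ∀ t, |gF2 F η η1 η2 (η h) t| ≤ (2 * k1 + (C + 4) * k2 + k3) * C * Real.exp (-(a * |h|)) * Real.exp (-|t - h|) := by
    intro t
    have h1 := hF'.d_disp hk3 (im0 t).1 (im0 t).2 (im1 t).1 (im1 t).2
    rw [re0, abs_zero, mul_zero, Real.exp_zero, mul_one, ← ez t, rez] at h1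
    have h2 := hF.d2 ((t : ℂ) + η t * I) (by rw [ez t]; exact (im1 t).1) (by rw [ez t]; exact (im1 t).2)
    obtain ⟨σ, hσ, h3⟩ := hF.d1 ((t : ℂ) + η t * I) (by rw [ez t]; exact (im1 t).1) (by rw [ez t]; exact (im1 t).2)
    have ere : ((t : ℂ) + η t * I).re = t := by simp
    rw [ere] at h2 h3
    have e : gF2 F η η1 η2 (η h) t = (deriv (deriv F) ((t : ℂ) + η t * I) -
        deriv (deriv F) ((t : ℂ) + η h * I) +
        deriv (deriv F) ((t : ℂ) + η t * I) * (((η1 t : ℝ) : ℂ) * I * (2 + ((η1 t : ℝ) : ℂ) * I)) +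
        (deriv F ((t : ℂ) + η t * I) - σ) * (((η2 t : ℝ) : ℂ) * I)).re := by
      have e1 : ((σ : ℂ) * (((η2 t : ℝ) : ℂ) * I)).re = 0 := by simp
      have e2 : (deriv F ((t : ℂ) + η t * I) - σ) * (((η2 t : ℝ) : ℂ) * I) =
          deriv F ((t : ℂ) + η t * I) * (((η2 t : ℝ) : ℂ) * I) - σ * (((η2 t : ℝ) : ℂ) * I) := by ring
      rw [e2]
      unfold gF2
      simp only [Complex.add_re, Complex.sub_re]
      rw [e1]
      have e3 : deriv (deriv F) ((t : ℂ) + η t * I) * (1 + η1 t * I) * (1 + η1 t * I) =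
          deriv (deriv F) ((t : ℂ) + η t * I) +
          deriv (deriv F) ((t : ℂ) + η t * I) * (((η1 t : ℝ) : ℂ) * I * (2 + ((η1 t : ℝ) : ℂ) * I)) := by ring
      rw [e3, Complex.add_re]
      ring
    rw [e]
    refine (Complex.abs_re_le_norm _).trans ?_
    have t2 : ‖deriv (deriv F) ((t : ℂ) + η t * I) * (((η1 t : ℝ) : ℂ) * I * (2 + ((η1 t : ℝ) : ℂ) * I))‖ ≤
        (k2 * Real.exp (-2 * |t - h|)) * (C * Real.exp (|t - h| - a * |h|) * (2 + C)) := by
      rw [norm_mul, norm_mul]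
      refine mul_le_mul h2 (mul_le_mul (n1 t) ?_ (norm_nonneg _) (by positivity)) (by positivity)
        (by positivity)
      refine (norm_add_le _ _).trans ?_
      have : ‖(2 : ℂ)‖ = 2 := by simp
      rw [this]
      linarith [n1' t]
    have t3 : ‖(deriv F ((t : ℂ) + η t * I) - σ) * (((η2 t : ℝ) : ℂ) * I)‖ ≤
        (k1 * Real.exp (-2 * |t - h|)) * (C * Real.exp (|t - h| - a * |h|)) := by
      rw [norm_mul]
      exact mul_le_mul h3 (n2 t) (norm_nonneg _) (by positivity)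
    have t1 : ‖deriv (deriv F) ((t : ℂ) + η t * I) - deriv (deriv F) ((t : ℂ) + η h * I)‖ ≤
        k3 * Real.exp (-2 * |t - h|) * (C * Real.exp (|t - h| - a * |h|)) :=
      h1.trans (mul_le_mul_of_nonneg_left (n0 t) (by positivity))
    calc _ ≤ k3 * Real.exp (-2 * |t - h|) * (C * Real.exp (|t - h| - a * |h|)) +
          (k2 * Real.exp (-2 * |t - h|)) * (C * Real.exp (|t - h| - a * |h|) * (2 + C)) +
          (k1 * Real.exp (-2 * |t - h|)) * (C * Real.exp (|t - h| - a * |h|)) :=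
          (norm_add_le _ _).trans (add_le_add ((norm_add_le _ _).trans (add_le_add t1 t2)) t3)
      _ = (k1 + (2 + C) * k2 + k3) * C * (Real.exp (-2 * |t - h|) * Real.exp (|t - h| - a * |h|)) := by ring
      _ = (k1 + (2 + C) * k2 + k3) * C * (Real.exp (-(a * |h|)) * Real.exp (-|t - h|)) := by rw [q0]
      _ ≤ (2 * k1 + (C + 4) * k2 + k3) * C * (Real.exp (-(a * |h|)) * Real.exp (-|t - h|)) :=
          mul_le_mul_of_nonneg_right (mul_le_mul_of_nonneg_right (by nlinarith) hC) (by positivity)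
      _ = _ := by ring
  refine ⟨hsh (gF_d hη hF he (he h)), hsh (gF1_d hη hF he (he h)), (gF2_c hη hF hF' he (he h)).comp hc,
    fun t => ?_, fun t => ?_, fun t => ?_⟩
  · have := b0 (t + h)
    rwa [add_sub_cancel_right] at this
  · have := b1 (t + h)
    rwa [add_sub_cancel_right] at this
  · have := b2 (t + h)
    rwa [add_sub_cancel_right] at this

/-- curves from bounds of two derivatives -/
theorem crv2_of {e : ℝ → ℝ} {c Ce : ℝ} (ha : 0 ≤ a) (hac : a ≤ c) (ha2 : a ≤ 1 / 2) (he : ContDiff ℝ 2 e)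
    (h1 : ∀ t, |deriv e t| ≤ Ce * Real.exp (-(c * |t|)))
    (h2 : ∀ t, |iteratedDeriv 2 e t| ≤ Ce * Real.exp (-(c * |t|))) :
    Crv2 (2 * |Ce|) a e (deriv e) (deriv (deriv e)) := by
  have hCe := le_abs_self Ce
  have hCa := abs_nonneg Ce
  have q : ∀ t, Ce * Real.exp (-(c * |t|)) ≤ |Ce| * Real.exp (-(a * |t|)) := by
    intro t
    refine mul_le_mul hCe (Real.exp_le_exp.2 ?_) (Real.exp_pos _).le hCa
    nlinarith [abs_nonneg t]
  have q2 : ∀ t, |Ce| * Real.exp (-(a * |t|)) ≤ 2 * |Ce| * Real.exp (-(a * |t|)) := by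
    intro t
    refine mul_le_mul_of_nonneg_right ?_ (Real.exp_pos _).le
    linarith
  have hd : ContDiff ℝ 1 (deriv e) := by
    have := (contDiff_succ_iff_deriv (n := 1) (f := e)).1 (by simpa [one_add_one_eq_two] using he)
    exact this.2.2
  have e2 : iteratedDeriv 2 e = deriv (deriv e) := by
    rw [iteratedDeriv_succ, iteratedDeriv_one]
  rw [e2] at h2
  refine ⟨ha, by linarith, fun t => (he.differentiable (by norm_num) t).hasDerivAt,
    fun t => (hd.differentiable (by norm_num) t).hasDerivAt, hd.continuous_deriv le_rfl, fun t h => ?_,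
    fun t => ((h1 t).trans (q t)).trans (q2 t), fun t => ((h2 t).trans (q t)).trans (q2 t)⟩
  have key := Convex.norm_image_sub_le_of_norm_hasDerivWithin_le (f := e) (f' := deriv e) (s := uIcc h t)
    (C := |Ce| * Real.exp (a * |t - h| - a * |h|))
    (fun x _ => (he.differentiable (by norm_num) x).hasDerivAt.hasDerivWithinAt) (fun x hx => by
      rw [Real.norm_eq_abs]
      refine ((h1 x).trans (q x)).trans (mul_le_mul_of_nonneg_left (Real.exp_le_exp.2 ?_) hCa)
      have h3 : |x - h| ≤ |t - h| := by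
        have := abs_sub_left_of_mem_uIcc hx
        exact this
      have h4 : |h| ≤ |x - h| + |x| := by
        have := abs_sub x (x - h)
        rw [sub_sub_cancel] at this
        linarith
      nlinarith) (convex_uIcc _ _) left_mem_uIcc right_mem_uIcc
  rw [Real.norm_eq_abs, Real.norm_eq_abs] at key
  refine key.trans ?_
  have h5 : |t - h| ≤ 2 * Real.exp (|t - h| / 2) := by
    have := Real.add_one_le_exp (|t - h| / 2)
    linarith
  calc |Ce| * Real.exp (a * |t - h| - a * |h|) * |t - h|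
      ≤ |Ce| * Real.exp (a * |t - h| - a * |h|) * (2 * Real.exp (|t - h| / 2)) :=
        mul_le_mul_of_nonneg_left h5 (by positivity)
    _ = 2 * |Ce| * Real.exp (a * |t - h| - a * |h| + |t - h| / 2) := by
        rw [Real.exp_add]
        ring
    _ ≤ 2 * |Ce| * Real.exp (|t - h| - a * |h|) := by
        refine mul_le_mul_of_nonneg_left (Real.exp_le_exp.2 ?_) (by positivity)
        nlinarith [abs_nonneg (t - h)]

/-- **the data of an object from its asymptotics** -/
theorem exists_fd {lo hi ρ kd c Ce a : ℝ} (hρ : 0 < ρ) (h1 : -1 ≤ lo) (h2 : hi ≤ 1) (ha : 0 ≤ a) (hac : a ≤ c)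
    (ha2 : a ≤ 1 / 2) : ∃ M : ℝ, 0 ≤ M ∧ ∀ {e : ℝ → ℝ}, ContDiff ℝ 2 e → (∀ t, lo + ρ ≤ e t ∧ e t ≤ hi - ρ) →
      (∀ t, |deriv e t| ≤ Ce * Real.exp (-(c * |t|))) →
      (∀ t, |iteratedDeriv 2 e t| ≤ Ce * Real.exp (-(c * |t|))) → ∀ {F : ℂ → ℂ} {c₀ a₀ f₀ h : ℝ}, |c₀| ≤ kd →
      (∀ z : ℂ, lo ≤ z.im → z.im ≤ hi → DifferentiableAt ℂ F z) → SAsy lo hi kd c₀ a₀ f₀ h F →
      ∃ f1 f2 : ℝ → ℝ, W2 (M * Real.exp (-(a * |h|))) (fun s => (F (((s + h : ℝ) : ℂ) + e (s + h) * I)).re -
        (F (((s + h : ℝ) : ℂ) + e h * I)).re) f1 f2 := by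
  set r : ℝ := min ρ (1 / 2) / 3 with hr
  have hm : 0 < min ρ (1 / 2) := lt_min hρ (by norm_num)
  have hr0 : 0 < r := by rw [hr]; linarith
  have hr3 : 3 * r ≤ ρ := by
    have := min_le_left ρ (1 / 2)
    rw [hr]
    linarith
  have hr2 : r ≤ 1 / 2 := by
    have := min_le_right ρ (1 / 2)
    rw [hr]
    linarith
  have hk := abs_nonneg kd
  have hkA := kA_nonneg hr0 hk
  have hkB := kB_nonneg hr0 hk
  have hkC := kC_nonneg hr0 hkB
  refine ⟨(2 * kA r |kd| + (2 * |Ce| + 4) * kB r |kd| + kC r (kB r |kd|)) * (2 * |Ce|), by positivity,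
    fun {e} he hs he1 he2 {F c₀ a₀ f₀ h} hc hd hF => ?_⟩
  have hη := crv2_of ha hac ha2 he he1 he2
  have hs0 := hs 0
  have e1 : lo + 2 * r - 2 * r = lo := by ring
  have e2 : hi - 2 * r + 2 * r = hi := by ring
  have D := SAsy.db (lo := lo + 2 * r) (hi := hi - 2 * r) (r := r) (k := |kd|) (κ := kd) (c := c₀) (a := a₀)
    (φ := f₀) (τ := h) (f := F) (by rw [e1, e2]; exact hF) hr0 (le_abs_self kd) (hc.trans (le_abs_self kd))
    (by linarith) (by rw [e1]; exact h1) (by rw [e2]; exact h2) hr2 (by rw [e1, e2]; exact hd)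
  have e3 : lo + 3 * r - r = lo + 2 * r := by ring
  have e4 : hi - 3 * r + r = hi - 2 * r := by ring
  have D3 := DB.deriv3 (lo := lo + 3 * r) (hi := hi - 3 * r) (r := r) (by rw [e3, e4]; exact D) hr0 hkB
  have D2 : DB (lo + 3 * r) (hi - 3 * r) |kd| (kA r |kd|) (kB r |kd|) h F :=
    ⟨fun z a b => D.d z (by linarith) (by linarith), fun z a b => D.dd z (by linarith) (by linarith),
      fun z a b => D.d1 z (by linarith) (by linarith), fun z a b => D.d2 z (by linarith) (by linarith)⟩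
  exact ⟨_, _, w2_fld hη D2 D3 hkA hkB hkC fun t => ⟨by linarith [(hs t).1], by linarith [(hs t).2]⟩⟩

end fld

/-! ### the potential of the kernels -/

section ker

variable {C D A c h : ℝ} {ks k1 k2 : Bool → Bool → ℝ → ℝ → ℝ} {ν : Bool → ℝ → ℝ}

/-- kernels with decay along the line -/
structure KDec (D c : ℝ) (ks k1 k2 : Bool → Bool → ℝ → ℝ → ℝ) : Prop where
  b0 : ∀ a b t s, |ks a b t s| ≤ D * Real.exp (-(3 / 2) * |t - s|) * Real.exp (-(c * |s|))
  b1 : ∀ a b t s, |k1 a b t s| ≤ D * Real.exp (-(3 / 2) * |t - s|) * Real.exp (-(c * |s|))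
  b2 : ∀ a b t s, |k2 a b t s| ≤ D * Real.exp (-(3 / 2) * |t - s|) * Real.exp (-(c * |s|))

lemma KDec.D0 (h : KDec D c ks k1 k2) : 0 ≤ D := by
  have := (abs_nonneg _).trans (h.b0 true true 0 0)
  simpa using this

/-- interpolation of two bounds -/
lemma interp34 {x D A B : ℝ} (hD : 0 ≤ D) (h1 : x ≤ D * Real.exp (-A)) (h2 : x ≤ D * Real.exp (-B)) :
    x ≤ D * Real.exp (-(3 / 4 * A + 1 / 4 * B)) := by
  rcases le_total A B with h | h
  · exact h2.trans (mul_le_mul_of_nonneg_left (Real.exp_le_exp.2 (by linarith)) hD)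
  · exact h1.trans (mul_le_mul_of_nonneg_left (Real.exp_le_exp.2 (by linarith)) hD)

/-- kernels with decay across the diagonal and along the line -/
theorem KDec.of (hD : 0 ≤ D) (hc : 0 ≤ c)
    (h : ∀ k ∈ ({ks, k1, k2} : Set (Bool → Bool → ℝ → ℝ → ℝ)), ∀ a b t s,
      |k a b t s| ≤ D * Real.exp (-(2 * |t - s|)) ∧ |k a b t s| ≤ D * Real.exp (-(c * (|t| + |s|)))) :
    KDec D (c / 4) ks k1 k2 := by
  have key : ∀ k ∈ ({ks, k1, k2} : Set (Bool → Bool → ℝ → ℝ → ℝ)), ∀ a b t s,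
      |k a b t s| ≤ D * Real.exp (-(3 / 2) * |t - s|) * Real.exp (-(c / 4 * |s|)) := by
    intro k hk a b t s
    obtain ⟨h1, h2⟩ := h k hk a b t s
    refine (interp34 hD h1 h2).trans ?_
    rw [mul_assoc, ← Real.exp_add]
    refine mul_le_mul_of_nonneg_left (Real.exp_le_exp.2 ?_) hD
    have := mul_nonneg hc (abs_nonneg t)
    linarith
  exact ⟨key ks (by simp), key k1 (by simp), key k2 (by simp)⟩

/-- **the potential of the kernels, frame of the object** -/
theorem w2_ker (hk : KOk C ks k1 k2) (hd : KDec D c ks k1 k2) (hc0 : 0 ≤ c) (hc1 : c ≤ 3 / 2)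
    (hν : ∀ a, Continuous (ν a)) (hνb : ∀ a t, |ν a t| ≤ A * Real.exp (-(5 / 2) * |t - h|)) (a : Bool) :
    W2 (2 * D * cH * A * Real.exp (-(c * |h|))) (fun s => kop ks ν a (s + h)) (fun s => kop k1 ν a (s + h))
      (fun s => kop k2 ν a (s + h)) := by
  have hD := hd.D0
  have hA : 0 ≤ A := by
    have := (abs_nonneg _).trans (hνb true h)
    simpa using this
  -- the transferred densities
  have hn : ∀ b, Nd A fun s => ν b (s + h) * Real.exp (c * |s|) := by
    intro b
    refine ⟨((hν b).comp (by fun_prop)).mul (by fun_prop), fun s => ?_⟩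
    rw [abs_mul, abs_of_pos (Real.exp_pos _)]
    have h1 := hνb b (s + h)
    rw [add_sub_cancel_right] at h1
    calc |ν b (s + h)| * Real.exp (c * |s|) ≤ A * Real.exp (-(5 / 2) * |s|) * Real.exp (c * |s|) :=
          mul_le_mul_of_nonneg_right h1 (Real.exp_pos _).le
      _ = A * Real.exp (-(5 / 2) * |s| + c * |s|) := by rw [mul_assoc, ← Real.exp_add]
      _ ≤ A * Real.exp (-|s|) := by
          refine mul_le_mul_of_nonneg_left (Real.exp_le_exp.2 ?_) hA
          nlinarith [abs_nonneg s]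
  -- the transferred kernels
  have kc : ∀ {k : ℝ → ℝ → ℝ}, (Continuous fun p : ℝ × ℝ => k p.1 p.2) →
      Continuous fun p : ℝ × ℝ => k (p.1 + h) (p.2 + h) * Real.exp (c * |h| - c * |p.2|) := by
    intro k hk
    exact (hk.comp (by fun_prop : Continuous fun p : ℝ × ℝ => ((p.1 + h, p.2 + h) : ℝ × ℝ))).mul (by fun_prop)
  have kb : ∀ {k : ℝ → ℝ → ℝ}, (∀ t s, |k t s| ≤ D * Real.exp (-(3 / 2) * |t - s|) * Real.exp (-(c * |s|))) →
      ∀ t s, |k (t + h) (s + h) * Real.exp (c * |h| - c * |s|)| ≤ D * Real.exp (-(3 / 2) * |t - s|) := by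
    intro k hk t s
    rw [abs_mul, abs_of_pos (Real.exp_pos _)]
    have h1 := hk (t + h) (s + h)
    rw [add_sub_add_right_eq_sub] at h1
    calc |k (t + h) (s + h)| * Real.exp (c * |h| - c * |s|)
        ≤ D * Real.exp (-(3 / 2) * |t - s|) * Real.exp (-(c * |s + h|)) * Real.exp (c * |h| - c * |s|) :=
          mul_le_mul_of_nonneg_right h1 (Real.exp_pos _).le
      _ = D * Real.exp (-(3 / 2) * |t - s|) * Real.exp (-(c * |s + h|) + (c * |h| - c * |s|)) := by
          rw [mul_assoc, ← Real.exp_add]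
      _ ≤ D * Real.exp (-(3 / 2) * |t - s|) * 1 := by
          refine mul_le_mul_of_nonneg_left (Real.exp_le_one_iff.2 ?_) (by positivity)
          have h2 : |h| ≤ |s + h| + |s| := by
            have := abs_sub (s + h) s
            rw [add_sub_cancel_left] at this
            linarith
          nlinarith
      _ = _ := mul_one _
  have kd : ∀ {k k' : ℝ → ℝ → ℝ}, (∀ t s, HasDerivAt (fun x => k x s) (k' t s) t) → ∀ t s,
      HasDerivAt (fun x => k (x + h) (s + h) * Real.exp (c * |h| - c * |s|))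
        (k' (t + h) (s + h) * Real.exp (c * |h| - c * |s|)) t := by
    intro k k' hk t s
    have h1 : HasDerivAt (fun x : ℝ => x + h) 1 t := (hasDerivAt_id t).add_const h
    have h2 := (hk (t + h) (s + h)).comp t h1
    rw [mul_one] at h2
    exact h2.mul_const _
  -- the integrals
  have eI : ∀ (k : ℝ → ℝ → ℝ) (b : Bool) (t : ℝ), ∫ s, k (t + h) s * ν b s = Real.exp (-(c * |h|)) *
      ∫ s, k (t + h) (s + h) * Real.exp (c * |h| - c * |s|) * (ν b (s + h) * Real.exp (c * |s|)) := by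
    intro k b t
    rw [← integral_add_right_eq_self (fun s => k (t + h) s * ν b s) h, ← integral_const_mul]
    congr 1
    funext s
    have e1 : Real.exp (c * |h| - c * |s|) * Real.exp (c * |s|) = Real.exp (c * |h|) := by
      rw [← Real.exp_add]
      congr 1
      ring
    have e2 : Real.exp (-(c * |h|)) * Real.exp (c * |h|) = 1 := by
      rw [← Real.exp_add, neg_add_cancel, Real.exp_zero]
    calc k (t + h) (s + h) * ν b (s + h) =
          (Real.exp (-(c * |h|)) * Real.exp (c * |h|)) * (k (t + h) (s + h) * ν b (s + h)) := by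
          rw [e2, one_mul]
      _ = Real.exp (-(c * |h|)) * ((k (t + h) (s + h) * ν b (s + h)) *
          (Real.exp (c * |h| - c * |s|) * Real.exp (c * |s|))) := by
          rw [e1]
          ring
      _ = _ := by ring
  have eK : ∀ (k : Bool → Bool → ℝ → ℝ → ℝ) (t : ℝ), kop k ν a (t + h) = Real.exp (-(c * |h|)) *
      ((∫ s, k a true (t + h) (s + h) * Real.exp (c * |h| - c * |s|) * (ν true (s + h) * Real.exp (c * |s|))) +
       ∫ s, k a false (t + h) (s + h) * Real.exp (c * |h| - c * |s|) * (ν false (s + h) * Real.exp (c * |s|))) := by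
    intro k t
    unfold kop
    rw [eI (k a true), eI (k a false)]
    ring
  have hB : ∀ {k : Bool → Bool → ℝ → ℝ → ℝ},
      (∀ a b t s, |k a b t s| ≤ D * Real.exp (-(3 / 2) * |t - s|) * Real.exp (-(c * |s|))) → ∀ t,
      |kop k ν a (t + h)| ≤ 2 * D * cH * A * Real.exp (-(c * |h|)) * Real.exp (-|t|) := by
    intro k hk t
    have h1 := kn_bd (k := fun t s => k a true (t + h) (s + h) * Real.exp (c * |h| - c * |s|)) hD
      (kb (hk a true)) (hn true) t
    have h2 := kn_bd (k := fun t s => k a false (t + h) (s + h) * Real.exp (c * |h| - c * |s|)) hD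
      (kb (hk a false)) (hn false) t
    rw [eK, abs_mul, abs_of_pos (Real.exp_pos _)]
    calc _ ≤ Real.exp (-(c * |h|)) * (D * cH * A * Real.exp (-|t|) + D * cH * A * Real.exp (-|t|)) :=
          mul_le_mul_of_nonneg_left ((abs_add_le _ _).trans (add_le_add h1 h2)) (Real.exp_pos _).le
      _ = _ := by ring
  have hDv : ∀ {k k' : Bool → Bool → ℝ → ℝ → ℝ},
      (∀ a b t s, |k a b t s| ≤ D * Real.exp (-(3 / 2) * |t - s|) * Real.exp (-(c * |s|))) →
      (∀ a b t s, |k' a b t s| ≤ D * Real.exp (-(3 / 2) * |t - s|) * Real.exp (-(c * |s|))) →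
      (∀ a b, Continuous fun p : ℝ × ℝ => k a b p.1 p.2) → (∀ a b, Continuous fun p : ℝ × ℝ => k' a b p.1 p.2) →
      (∀ a b t s, HasDerivAt (fun x => k a b x s) (k' a b t s) t) → ∀ t,
      HasDerivAt (fun s => kop k ν a (s + h)) (kop k' ν a (t + h)) t := by
    intro k k' hk hk' hc hc' hdv t
    have h1 := kn_deriv (kc (hc a true)) (kc (hc' a true)) hD (kb (hk a true)) (kb (hk' a true))
      (kd (hdv a true)) (hn true) t
    have h2 := kn_deriv (kc (hc a false)) (kc (hc' a false)) hD (kb (hk a false)) (kb (hk' a false))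
      (kd (hdv a false)) (hn false) t
    have h3 := (h1.add h2).const_mul (Real.exp (-(c * |h|)))
    rw [eK k' t]
    refine h3.congr_of_eventuallyEq (Eventually.of_forall fun x => ?_)
    exact eK k x
  refine ⟨hDv hd.b0 hd.b1 hk.c0 hk.c1 hk.d1, hDv hd.b1 hd.b2 hk.c1 hk.c2 hk.d2, ?_, hB hd.b0, hB hd.b1, hB hd.b2⟩
  have h1 := kn_cont (kc (hk.c2 a true)) hD (kb (hd.b2 a true)) (hn true)
  have h2 := kn_cont (kc (hk.c2 a false)) hD (kb (hd.b2 a false)) (hn false)
  have h3 := (h1.add h2).const_mul (Real.exp (-(c * |h|)))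
  have e : (fun s => kop k2 ν a (s + h)) = fun s => Real.exp (-(c * |h|)) *
      ((∫ u, k2 a true (s + h) (u + h) * Real.exp (c * |h| - c * |u|) * (ν true (u + h) * Real.exp (c * |u|))) +
       ∫ u, k2 a false (s + h) (u + h) * Real.exp (c * |h| - c * |u|) * (ν false (u + h) * Real.exp (c * |u|))) :=
    funext fun s => eK k2 s
  rw [e]
  exact h3

end ker

section add

variable {M M' : ℝ} {f f1 f2 f' f1' f2' : ℝ → ℝ}

theorem W2.addF (h : W2 M f f1 f2) (h' : W2 M' f' f1' f2') :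
    W2 (M + M') (fun t => f t + f' t) (fun t => f1 t + f1' t) (fun t => f2 t + f2' t) := by
  have q : ∀ {x y t : ℝ}, |x| ≤ M * Real.exp (-|t|) → |y| ≤ M' * Real.exp (-|t|) →
      |x + y| ≤ (M + M') * Real.exp (-|t|) := by
    intro x y t hx hy
    refine (abs_add_le _ _).trans ?_
    rw [add_mul]
    exact add_le_add hx hy
  exact ⟨fun t => (h.d1 t).add (h'.d1 t), fun t => (h.d2 t).add (h'.d2 t), h.c2.add h'.c2,
    fun t => q (h.b0 t) (h'.b0 t), fun t => q (h.b1 t) (h'.b1 t), fun t => q (h.b2 t) (h'.b2 t)⟩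

end add

end

end PLT.Tri
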