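import Pool.Agent.PLT.TriQ

/-!
# Smoothing and cutting of a potential (helper8, row B1d)

* `Wh B f f1 f2`: as `W2` with the weight `exp (-|t| / 2)`; `Wh.hq`: control of the transforms;
* `gau_scale`, `moll`: `|g - G_δ g| ≤ C δ M exp (-|t|)`; `cv_gau_deriv`;
* `chL L`: smooth cut, `cut_w2`: the cut potential, `cut_wh`: the rest is small.
-/

set_option autoImplicit false

open MeasureTheory Set Filter Topology

namespace PLT.Tri

noncomputable section

open NUMF (l l_pos V Lh Uh)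
open NUC43
open NUC37 (cv)

variable {M M' B B' δ : ℝ} {f f1 f2 f' f1' f2' : ℝ → ℝ}

/-! ### control of the transforms -/

/-- twice differentiable functions with the weight `exp (-|t| / 2)` -/
structure Wh (B : ℝ) (f f1 f2 : ℝ → ℝ) : Prop where
  d1 : ∀ t, HasDerivAt f (f1 t) t
  d2 : ∀ t, HasDerivAt f1 (f2 t) t
  c2 : Continuous f2
  b0 : ∀ t, |f t| ≤ B * Real.exp (-(1 / 2) * |t|)
  b1 : ∀ t, |f1 t| ≤ B * Real.exp (-(1 / 2) * |t|)
  b2 : ∀ t, |f2 t| ≤ B * Real.exp (-(1 / 2) * |t|)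

/-- `∫ exp (-|t| / 2)` -/
def cH : ℝ := ∫ t : ℝ, Real.exp (-(1 / 2) * |t|)

lemma exph_int : Integrable fun t : ℝ => Real.exp (-(1 / 2) * |t|) := NUMF.int_exp_abs (by norm_num)

lemma cH_pos : 0 < cH := by
  unfold cH
  rw [integral_pos_iff_support_of_nonneg (fun t => (Real.exp_pos _).le) exph_int]
  have : (Function.support fun t : ℝ => Real.exp (-(1 / 2) * |t|)) = univ := by
    ext t
    simp
  rw [this]
  simp

lemma Wh.B0 (h : Wh B f f1 f2) : 0 ≤ B := by
  have := (abs_nonneg _).trans (h.b0 0)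
  simpa using this

lemma exp_half (t : ℝ) : Real.exp (-|t|) ≤ Real.exp (-(1 / 2) * |t|) :=
  Real.exp_le_exp.2 (by have := abs_nonneg t; linarith)

lemma W2.M0 (h : W2 M f f1 f2) : 0 ≤ M := h.nd.M0

lemma W2.wh (h : W2 M f f1 f2) : Wh M f f1 f2 :=
  ⟨h.d1, h.d2, h.c2, fun t => (h.b0 t).trans (mul_le_mul_of_nonneg_left (exp_half t) h.M0),
    fun t => (h.b1 t).trans (mul_le_mul_of_nonneg_left (exp_half t) h.M0),
    fun t => (h.b2 t).trans (mul_le_mul_of_nonneg_left (exp_half t) h.M0)⟩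

lemma Wh.c0 (h : Wh B f f1 f2) : Continuous f := continuous_iff_continuousAt.2 fun t => (h.d1 t).continuousAt
lemma Wh.c1 (h : Wh B f f1 f2) : Continuous f1 := continuous_iff_continuousAt.2 fun t => (h.d2 t).continuousAt

lemma wh_int (hc : Continuous f) (hb : ∀ t, |f t| ≤ B * Real.exp (-(1 / 2) * |t|)) : Integrable f :=
  (exph_int.const_mul B).mono' hc.aestronglyMeasurable (ae_of_all _ fun t => hb t)

lemma wh_l1 (hc : Continuous f) (hb : ∀ t, |f t| ≤ B * Real.exp (-(1 / 2) * |t|)) : ∫ t, |f t| ≤ B * cH := by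
  unfold cH
  rw [← integral_const_mul]
  exact integral_mono (wh_int hc hb).abs (exph_int.const_mul B) hb

lemma ct_deriv2 (h : Wh B f f1 f2) (k : ℝ) : ct f2 k = -(k ^ 2 * ct f k) ∧ st f2 k = -(k ^ 2 * st f k) := by
  have i0 := wh_int h.c0 h.b0
  have i1 := wh_int h.c1 h.b1
  have i2 := wh_int h.c2 h.b2
  have dc : ∀ t : ℝ, HasDerivAt (fun t => Real.cos (k * t)) (-(k * Real.sin (k * t))) t := by
    intro t
    have h1 := ((hasDerivAt_id t).const_mul k).cos
    simp only [id, mul_one] at h1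
    exact h1.congr_deriv (by ring)
  have ds : ∀ t : ℝ, HasDerivAt (fun t => Real.sin (k * t)) (k * Real.cos (k * t)) t := by
    intro t
    have h1 := ((hasDerivAt_id t).const_mul k).sin
    simp only [id, mul_one] at h1
    exact h1.congr_deriv (by ring)
  have jc : ∀ {u : ℝ → ℝ}, Integrable u → Integrable fun t => Real.cos (k * t) * u t := fun hu =>
    (mul_cos_int hu k).congr (ae_of_all _ fun t => mul_comm _ _)
  have js : ∀ {u : ℝ → ℝ}, Integrable u → Integrable fun t => Real.sin (k * t) * u t := fun hu =>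
    (mul_sin_int hu k).congr (ae_of_all _ fun t => mul_comm _ _)
  have jc' : ∀ {u : ℝ → ℝ}, Integrable u → Integrable fun t => (k * Real.cos (k * t)) * u t := fun hu =>
    ((jc hu).const_mul k).congr (ae_of_all _ fun t => (mul_assoc _ _ _).symm)
  have js' : ∀ {u : ℝ → ℝ}, Integrable u → Integrable fun t => (-(k * Real.sin (k * t))) * u t := fun hu =>
    ((js hu).const_mul (-k)).congr (ae_of_all _ fun t => by ring)
  have a1 := integral_mul_deriv_eq_deriv_mul_of_integrable (u := fun t => Real.cos (k * t)) (v := f1) (fun x _ => dc x) (fun x _ => h.d2 x)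
    (jc i2) (js' i1) (jc i1)
  have a2 := integral_mul_deriv_eq_deriv_mul_of_integrable (u := fun t => Real.sin (k * t)) (v := f1) (fun x _ => ds x) (fun x _ => h.d2 x)
    (js i2) (jc' i1) (js i1)
  have a3 := integral_mul_deriv_eq_deriv_mul_of_integrable (u := fun t => Real.cos (k * t)) (v := f) (fun x _ => dc x) (fun x _ => h.d1 x)
    (jc i1) (js' i0) (jc i0)
  have a4 := integral_mul_deriv_eq_deriv_mul_of_integrable (u := fun t => Real.sin (k * t)) (v := f) (fun x _ => ds x) (fun x _ => h.d1 x)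
    (js i1) (jc' i0) (js i0)
  have e1 : ∀ u : ℝ → ℝ, ∫ t, Real.cos (k * t) * u t = ct u k := fun u => by
    unfold ct; congr 1; funext t; ring
  have e2 : ∀ u : ℝ → ℝ, ∫ t, Real.sin (k * t) * u t = st u k := fun u => by
    unfold st; congr 1; funext t; ring
  have e3 : ∀ u : ℝ → ℝ, ∫ t, (k * Real.cos (k * t)) * u t = k * ct u k := fun u => by
    unfold ct; rw [← integral_const_mul]; congr 1; funext t; ring
  have e4 : ∀ u : ℝ → ℝ, ∫ t, (-(k * Real.sin (k * t))) * u t = -(k * st u k) := fun u => by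
    unfold st; rw [← integral_const_mul, ← integral_neg]; congr 1; funext t; ring
  rw [e1, e4] at a1
  rw [e2, e3] at a2
  rw [e1, e4] at a3
  rw [e2, e3] at a4
  constructor
  · rw [a1, a4]; ring
  · rw [a2, a3]; ring

/-- **control of the transforms** -/
theorem wh_hq {f f1 f2 : Bool → ℝ → ℝ} (h : ∀ a, Wh B (f a) (f1 a) (f2 a)) : Hq (2 * (B * cH)) f := by
  refine ⟨fun a => wh_int (h a).c0 (h a).b0, fun a k hk => ?_, fun a k hk => ?_⟩
  · have h1 := ct_le (wh_int (h a).c0 (h a).b0) k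
    have h2 := ct_le (wh_int (h a).c2 (h a).b2) k
    have h3 := wh_l1 (h a).c0 (h a).b0
    have h4 := wh_l1 (h a).c2 (h a).b2
    rw [(ct_deriv2 (h a) k).1, abs_neg, abs_mul, abs_of_nonneg (sq_nonneg k)] at h2
    nlinarith
  · have h1 := st_le (wh_int (h a).c0 (h a).b0) k
    have h2 := st_le (wh_int (h a).c2 (h a).b2) k
    have h3 := wh_l1 (h a).c0 (h a).b0
    have h4 := wh_l1 (h a).c2 (h a).b2
    rw [(ct_deriv2 (h a) k).2, abs_neg, abs_mul, abs_of_nonneg (sq_nonneg k)] at h2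
    nlinarith

/-! ### smoothing -/

lemma gau_scale (hδ : 0 < δ) (t : ℝ) : gau δ t = δ⁻¹ * gau 1 (t / δ) := by
  unfold gau inv
  have h1 := integral_comp_mul_left_Ioi (fun k : ℝ => 2 * Real.cos (t / δ * k) * ((gs 1 k).re / (2 * Real.pi))) 0 hδ
  rw [mul_zero, smul_eq_mul] at h1
  rw [← h1]
  refine setIntegral_congr_fun measurableSet_Ioi fun k _ => ?_
  rw [gs_real, gs_real, Complex.ofReal_re, Complex.ofReal_re, show t / δ * (δ * k) = t * k by field_simp,
    show -(1 ^ 2 / 2) * (δ * k * (δ * k)) = -(δ ^ 2 / 2) * (k * k) by ring]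

/-- the smoothing moments -/
lemma gau_mom : ∃ C : ℝ, 0 < C ∧ ∀ {δ : ℝ}, 0 < δ → δ ≤ 1 →
    Integrable (fun s => |gau δ s| * (|s| * Real.exp |s|)) ∧ ∫ s, |gau δ s| * (|s| * Real.exp |s|) ≤ C * δ := by
  obtain ⟨K, hK⟩ := gau_kd one_pos
  have hK0 := hK.K0
  have hH := cH_pos
  refine ⟨(K + 1) * cH, by positivity, fun {δ} hδ hδ1 => ?_⟩
  have hb : ∀ u : ℝ, |gau 1 u| * (|u| * Real.exp (δ * |u|)) ≤ (K + 1) * Real.exp (-(1 / 2) * |u|) := by
    intro u
    have h1 := hK.bd u
    have h2 : |u| ≤ Real.exp |u| := by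
      have := Real.add_one_le_exp |u|
      linarith
    have h3 : Real.exp (δ * |u|) ≤ Real.exp |u| := Real.exp_le_exp.2 (by nlinarith [abs_nonneg u])
    calc |gau 1 u| * (|u| * Real.exp (δ * |u|)) ≤ ((K + 1) * Real.exp (-(5 / 2) * |u|)) *
          (Real.exp |u| * Real.exp |u|) := by
          refine mul_le_mul (h1.trans ?_) (mul_le_mul h2 h3 (Real.exp_pos _).le (Real.exp_pos _).le)
            (by positivity) (by positivity)
          exact mul_le_mul_of_nonneg_right (by linarith) (Real.exp_pos _).le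
      _ = (K + 1) * (Real.exp (-(5 / 2) * |u|) * (Real.exp |u| * Real.exp |u|)) := by ring
      _ = _ := by
        rw [← Real.exp_add, ← Real.exp_add]
        congr 2
        ring
  have hg := hK.cont
  have i1 : Integrable fun u => |gau 1 u| * (|u| * Real.exp (δ * |u|)) := by
    refine (exph_int.const_mul (K + 1)).mono' (Continuous.aestronglyMeasurable (by fun_prop))
      (ae_of_all _ fun u => ?_)
    rw [Real.norm_eq_abs, abs_of_nonneg (by positivity)]
    exact hb u
  have e1 : ∀ s : ℝ, |gau δ s| * (|s| * Real.exp |s|) =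
      (fun u => |gau 1 u| * (|u| * Real.exp (δ * |u|))) (s / δ) := by
    intro s
    beta_reduce
    rw [gau_scale hδ, abs_mul, abs_div, abs_inv, abs_of_pos hδ]
    have h2 : δ * (|s| / δ) = |s| := by field_simp
    rw [h2]
    field_simp
  refine ⟨(i1.comp_div hδ.ne').congr (ae_of_all _ fun s => (e1 s).symm), ?_⟩
  simp_rw [e1]
  rw [Measure.integral_comp_div (fun u => |gau 1 u| * (|u| * Real.exp (δ * |u|))) δ, abs_of_pos hδ, smul_eq_mul,
    mul_comm]
  refine mul_le_mul_of_nonneg_right ?_ hδ.le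
  unfold cH
  rw [← integral_const_mul]
  exact integral_mono i1 (exph_int.const_mul (K + 1)) hb

/-- increments -/
lemma incr_wt {g g1 : ℝ → ℝ} (hd : ∀ t, HasDerivAt g (g1 t) t) (hb : ∀ t, |g1 t| ≤ M * Real.exp (-|t|)) (t s : ℝ) :
    |g t - g (t - s)| ≤ M * Real.exp (-|t|) * (|s| * Real.exp |s|) := by
  have hM : 0 ≤ M := by
    have := (abs_nonneg _).trans (hb 0)
    simpa using this
  have h1 := (convex_uIcc (t - s) t).norm_image_sub_le_of_norm_hasDerivWithin_le (f := g) (f' := g1)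
    (C := M * (Real.exp (-|t|) * Real.exp |s|)) (fun x _ => (hd x).hasDerivWithinAt) (fun x hx => by
      rw [Real.norm_eq_abs]
      refine (hb x).trans (mul_le_mul_of_nonneg_left ?_ hM)
      rw [← Real.exp_add]
      refine Real.exp_le_exp.2 ?_
      have h2 : |t - x| ≤ |s| := by
        rcases le_total (t - s) t with h | h
        · rw [uIcc_of_le h] at hx
          have h0 : 0 ≤ s := by linarith
          rw [abs_of_nonneg (by linarith [hx.2]), abs_of_nonneg h0]
          linarith [hx.1]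
        · rw [uIcc_of_ge h] at hx
          have h0 : s ≤ 0 := by linarith
          rw [abs_of_nonpos (by linarith [hx.1]), abs_of_nonpos h0]
          linarith [hx.2]
      have h3 : |t| ≤ |t - x| + |x| := by
        have := abs_add_le (t - x) x
        rwa [sub_add_cancel] at this
      linarith) left_mem_uIcc right_mem_uIcc
  rw [Real.norm_eq_abs, Real.norm_eq_abs, sub_sub_cancel] at h1
  refine h1.trans (le_of_eq ?_)
  ring

/-- **smoothing changes little** -/
theorem moll : ∃ C : ℝ, 0 < C ∧ ∀ {δ M : ℝ} {g g1 : ℝ → ℝ}, 0 < δ → δ ≤ 1 → Nd M g → (∀ t, HasDerivAt g (g1 t) t) →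
    (∀ t, |g1 t| ≤ M * Real.exp (-|t|)) → ∀ t, |g t - cv (gau δ) g t| ≤ C * δ * (M * Real.exp (-|t|)) := by
  obtain ⟨C, hC, H⟩ := gau_mom
  refine ⟨C, hC, fun {δ M g g1} hδ hδ1 hg hd hb t => ?_⟩
  obtain ⟨i1, h1⟩ := H hδ hδ1
  obtain ⟨K, hK⟩ := gau_kd hδ
  have e1 : cv (gau δ) g t = ∫ s, gau δ s * g (t - s) := by
    rw [cv_comm' (fun x => g x) (gau δ) t]
  have j1 : Integrable fun s => gau δ s * g (t - s) := by
    have := hg.cont
    exact hK.int.mul_bdd (c := M) (g := fun s => g (t - s)) (Continuous.aestronglyMeasurable (by fun_prop))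
      (ae_of_all _ fun s => hg.le _)
  have e2 : g t - cv (gau δ) g t = ∫ s, gau δ s * (g t - g (t - s)) := by
    have e3 : ∀ s, gau δ s * (g t - g (t - s)) = gau δ s * g t - gau δ s * g (t - s) := fun s => by ring
    simp_rw [e3]
    rw [integral_sub (hK.int.mul_const _) j1, integral_mul_const, gau_zero_int hδ, one_mul, e1]
  rw [e2, ← Real.norm_eq_abs]
  have h2 : ‖∫ s, gau δ s * (g t - g (t - s))‖ ≤
      ∫ s, (M * Real.exp (-|t|)) * (|gau δ s| * (|s| * Real.exp |s|)) := by
    refine norm_integral_le_of_norm_le (i1.const_mul _) (ae_of_all _ fun s => ?_)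
    rw [norm_mul, Real.norm_eq_abs, Real.norm_eq_abs]
    calc |gau δ s| * |g t - g (t - s)| ≤ |gau δ s| * (M * Real.exp (-|t|) * (|s| * Real.exp |s|)) :=
          mul_le_mul_of_nonneg_left (incr_wt hd hb t s) (abs_nonneg _)
      _ = _ := by ring
  rw [integral_const_mul] at h2
  have hM0 : 0 ≤ M * Real.exp (-|t|) := mul_nonneg hg.M0 (Real.exp_pos _).le
  calc _ ≤ (M * Real.exp (-|t|)) * (C * δ) := h2.trans (mul_le_mul_of_nonneg_left h1 hM0)
    _ = _ := by ring

/-- derivative of a smoothed function -/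
theorem cv_deriv {K : ℝ} {n g g1 : ℝ → ℝ} (hn : Kd K n) (hg : Nd M g) (hd : ∀ t, HasDerivAt g (g1 t) t)
    (hg1 : Nd M' g1) (t : ℝ) : HasDerivAt (cv n g) (cv n g1 t) t := by
  have hgc := hg.cont
  have hg1c := hg1.cont
  have hnc := hn.cont
  have e1 : cv n g = fun t => ∫ s, n s * g (t - s) := by
    funext t
    rw [cv_comm' (fun x => g x) n t]
  have e2 : cv n g1 t = ∫ s, n s * g1 (t - s) := by
    rw [cv_comm' (fun x => g1 x) n t]
  rw [e1, e2]
  refine (hasDerivAt_integral_of_dominated_loc_of_deriv_le (F := fun t s => n s * g (t - s))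
    (F' := fun t s => n s * g1 (t - s)) (s := univ) (bound := fun s => |n s| * M') univ_mem ?_ ?_ ?_ ?_ ?_ ?_).2
  · exact Eventually.of_forall fun x => Continuous.aestronglyMeasurable (by fun_prop)
  · exact hn.int.mul_bdd (c := M) (g := fun s => g (t - s)) (Continuous.aestronglyMeasurable (by fun_prop))
      (ae_of_all _ fun s => hg.le _)
  · exact Continuous.aestronglyMeasurable (by fun_prop)
  · refine ae_of_all _ fun s x _ => ?_
    rw [norm_mul, Real.norm_eq_abs, Real.norm_eq_abs]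
    exact mul_le_mul_of_nonneg_left (hg1.le _) (abs_nonneg _)
  · exact hn.int.abs.mul_const _
  · refine ae_of_all _ fun s x _ => ?_
    have h1 : HasDerivAt (fun x => x - s) 1 x := (hasDerivAt_id x).sub_const s
    have h2 := (hd (x - s)).comp x h1
    rw [mul_one] at h2
    exact h2.const_mul (n s)

/-! ### cutting -/

/-- first derivative of the smooth step -/
def S1 : ℝ → ℝ := deriv Real.smoothTransition
/-- second derivative of the smooth step -/
def S2 : ℝ → ℝ := deriv S1

lemma S_cd : ContDiff ℝ 2 Real.smoothTransition := Real.smoothTransition.contDiff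

lemma S1_cd : ContDiff ℝ 1 S1 := by
  have h := S_cd
  rw [show (2 : WithTop ℕ∞) = 1 + 1 by norm_num, contDiff_succ_iff_deriv] at h
  exact h.2.2

lemma S_d (x : ℝ) : HasDerivAt Real.smoothTransition (S1 x) x :=
  (S_cd.differentiable (by norm_num) x).hasDerivAt

lemma S1_d (x : ℝ) : HasDerivAt S1 (S2 x) x :=
  (S1_cd.differentiable (by norm_num) x).hasDerivAt

lemma S1_cont : Continuous S1 := S1_cd.continuous
lemma S2_cont : Continuous S2 := S1_cd.continuous_deriv le_rfl

lemma S1_out {x : ℝ} (hx : x < 0 ∨ 1 < x) : S1 x = 0 := by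
  rcases hx with hx | hx
  · have h1 : Real.smoothTransition =ᶠ[𝓝 x] fun _ => 0 := by
      filter_upwards [Iio_mem_nhds hx] with y hy
      exact Real.smoothTransition.zero_of_nonpos (le_of_lt hy)
    unfold S1
    rw [h1.deriv_eq, deriv_const]
  · have h1 : Real.smoothTransition =ᶠ[𝓝 x] fun _ => 1 := by
      filter_upwards [Ioi_mem_nhds hx] with y hy
      exact Real.smoothTransition.one_of_one_le (le_of_lt hy)
    unfold S1
    rw [h1.deriv_eq, deriv_const]

lemma S2_out {x : ℝ} (hx : x < 0 ∨ 1 < x) : S2 x = 0 := by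
  have h1 : S1 =ᶠ[𝓝 x] fun _ => 0 := by
    rcases hx with hx | hx
    · filter_upwards [Iio_mem_nhds hx] with y hy
      exact S1_out (Or.inl hy)
    · filter_upwards [Ioi_mem_nhds hx] with y hy
      exact S1_out (Or.inr hy)
  unfold S2
  rw [h1.deriv_eq, deriv_const]

lemma S_bd : ∃ B : ℝ, 1 ≤ B ∧ ∀ x, |S1 x| ≤ B ∧ |S2 x| ≤ B := by
  obtain ⟨B1, h1⟩ := isCompact_Icc.exists_bound_of_continuousOn (s := Icc (0 : ℝ) 1) S1_cont.continuousOn
  obtain ⟨B2, h2⟩ := isCompact_Icc.exists_bound_of_continuousOn (s := Icc (0 : ℝ) 1) S2_cont.continuousOn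
  refine ⟨1 + |B1| + |B2|, by linarith [abs_nonneg B1, abs_nonneg B2], fun x => ?_⟩
  by_cases hx : x ∈ Icc (0 : ℝ) 1
  · have g1 := h1 x hx
    have g2 := h2 x hx
    rw [Real.norm_eq_abs] at g1 g2
    exact ⟨by linarith [le_abs_self B1, abs_nonneg B2], by linarith [le_abs_self B2, abs_nonneg B1]⟩
  · have hx' : x < 0 ∨ 1 < x := by
      by_contra hc
      push Not at hc
      exact hx ⟨hc.1, hc.2⟩
    rw [S1_out hx', S2_out hx', abs_zero]
    exact ⟨by positivity, by positivity⟩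

/-- the smooth cut -/
def chL (L t : ℝ) : ℝ := Real.smoothTransition (L + 1 - t) * Real.smoothTransition (L + 1 + t)
/-- its first derivative -/
def ch1 (L t : ℝ) : ℝ := -S1 (L + 1 - t) * Real.smoothTransition (L + 1 + t) +
  Real.smoothTransition (L + 1 - t) * S1 (L + 1 + t)
/-- its second derivative -/
def ch2 (L t : ℝ) : ℝ := S2 (L + 1 - t) * Real.smoothTransition (L + 1 + t) - 2 * (S1 (L + 1 - t) * S1 (L + 1 + t)) +
  Real.smoothTransition (L + 1 - t) * S2 (L + 1 + t)

lemma chL_d (L t : ℝ) : HasDerivAt (chL L) (ch1 L t) t := by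
  have h1 : HasDerivAt (fun t => L + 1 - t) (-1) t := by
    simpa using (hasDerivAt_id t).const_sub (L + 1)
  have h2 : HasDerivAt (fun t => L + 1 + t) 1 t := by
    simpa using (hasDerivAt_id t).const_add (L + 1)
  have h3 := ((S_d (L + 1 - t)).comp t h1).mul ((S_d (L + 1 + t)).comp t h2)
  refine h3.congr_deriv ?_
  unfold ch1
  simp only [Function.comp_apply]
  ring

lemma ch1_d (L t : ℝ) : HasDerivAt (ch1 L) (ch2 L t) t := by
  have h1 : HasDerivAt (fun t => L + 1 - t) (-1) t := by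
    simpa using (hasDerivAt_id t).const_sub (L + 1)
  have h2 : HasDerivAt (fun t => L + 1 + t) 1 t := by
    simpa using (hasDerivAt_id t).const_add (L + 1)
  have a1 := (S_d (L + 1 - t)).comp t h1
  have a2 := (S_d (L + 1 + t)).comp t h2
  have b1 := (S1_d (L + 1 - t)).comp t h1
  have b2 := (S1_d (L + 1 + t)).comp t h2
  have h3 := (b1.neg.mul a2).add (a1.mul b2)
  refine h3.congr_deriv ?_
  unfold ch2
  simp only [Function.comp_apply, Pi.neg_apply]
  ring

lemma chL_01 (L t : ℝ) : 0 ≤ chL L t ∧ chL L t ≤ 1 := by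
  have a1 := Real.smoothTransition.nonneg (L + 1 - t)
  have a2 := Real.smoothTransition.nonneg (L + 1 + t)
  have b1 := Real.smoothTransition.le_one (L + 1 - t)
  have b2 := Real.smoothTransition.le_one (L + 1 + t)
  unfold chL
  exact ⟨mul_nonneg a1 a2, mul_le_one₀ b1 a2 b2⟩

lemma chL_in {L t : ℝ} (h : |t| < L) : chL L t = 1 ∧ ch1 L t = 0 ∧ ch2 L t = 0 := by
  obtain ⟨h1, h2⟩ := abs_lt.1 h
  have a1 : Real.smoothTransition (L + 1 - t) = 1 := Real.smoothTransition.one_of_one_le (by linarith)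
  have a2 : Real.smoothTransition (L + 1 + t) = 1 := Real.smoothTransition.one_of_one_le (by linarith)
  have b1 := S1_out (x := L + 1 - t) (Or.inr (by linarith))
  have b2 := S1_out (x := L + 1 + t) (Or.inr (by linarith))
  have c1 := S2_out (x := L + 1 - t) (Or.inr (by linarith))
  have c2 := S2_out (x := L + 1 + t) (Or.inr (by linarith))
  unfold chL ch1 ch2
  rw [a1, a2, b1, b2, c1, c2]
  norm_num

lemma chL_out {L t : ℝ} (h : L + 1 < |t|) : chL L t = 0 := by
  unfold chL
  rcases lt_abs.1 h with h1 | h1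
  · rw [Real.smoothTransition.zero_of_nonpos (by linarith : L + 1 - t ≤ 0), zero_mul]
  · rw [Real.smoothTransition.zero_of_nonpos (by linarith : L + 1 + t ≤ 0), mul_zero]

lemma ch_bd : ∃ D : ℝ, 1 ≤ D ∧ ∀ L t, |ch1 L t| ≤ D ∧ |ch2 L t| ≤ D := by
  obtain ⟨B, hB, H⟩ := S_bd
  refine ⟨2 * B + 2 * B ^ 2, by nlinarith, fun L t => ?_⟩
  have a1 := Real.smoothTransition.nonneg (L + 1 - t)
  have a2 := Real.smoothTransition.nonneg (L + 1 + t)
  have b1 := Real.smoothTransition.le_one (L + 1 - t)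
  have b2 := Real.smoothTransition.le_one (L + 1 + t)
  obtain ⟨s1, s2⟩ := H (L + 1 - t)
  obtain ⟨u1, u2⟩ := H (L + 1 + t)
  have e1 : |S1 (L + 1 - t) * Real.smoothTransition (L + 1 + t)| ≤ B := by
    rw [abs_mul, abs_of_nonneg a2]
    nlinarith [abs_nonneg (S1 (L + 1 - t))]
  have e2 : |Real.smoothTransition (L + 1 - t) * S1 (L + 1 + t)| ≤ B := by
    rw [abs_mul, abs_of_nonneg a1]
    nlinarith [abs_nonneg (S1 (L + 1 + t))]
  have e3 : |S2 (L + 1 - t) * Real.smoothTransition (L + 1 + t)| ≤ B := by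
    rw [abs_mul, abs_of_nonneg a2]
    nlinarith [abs_nonneg (S2 (L + 1 - t))]
  have e4 : |Real.smoothTransition (L + 1 - t) * S2 (L + 1 + t)| ≤ B := by
    rw [abs_mul, abs_of_nonneg a1]
    nlinarith [abs_nonneg (S2 (L + 1 + t))]
  have e5 : |S1 (L + 1 - t) * S1 (L + 1 + t)| ≤ B ^ 2 := by
    rw [abs_mul, sq]
    exact mul_le_mul s1 u1 (abs_nonneg _) (by linarith)
  rw [abs_le] at e1 e2 e3 e4 e5
  constructor
  · unfold ch1
    rw [abs_le]
    constructor <;> nlinarith [sq_nonneg B]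
  · unfold ch2
    rw [abs_le]
    constructor <;> nlinarith [sq_nonneg B]

/-- **cutting a potential** -/
theorem cut : ∃ D : ℝ, 1 ≤ D ∧ ∀ {L M : ℝ} {f f1 f2 : ℝ → ℝ}, W2 M f f1 f2 → ∃ g g1 g2 : ℝ → ℝ,
    W2 (D * M) g g1 g2 ∧ (∀ t, L + 1 < |t| → g t = 0) ∧
    Wh (D * M * Real.exp (-(L / 2))) (fun t => f t - g t) (fun t => f1 t - g1 t) (fun t => f2 t - g2 t) := by
  obtain ⟨D, hD, H⟩ := ch_bd
  refine ⟨4 * D, by linarith, fun {L M f f1 f2} h => ?_⟩
  have hM := h.M0
  have dc := chL_d L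
  have dc1 := ch1_d L
  have cc : Continuous (chL L) := continuous_iff_continuousAt.2 fun t => (dc t).continuousAt
  have cc1 : Continuous (ch1 L) := continuous_iff_continuousAt.2 fun t => (dc1 t).continuousAt
  have cc2 : Continuous (ch2 L) := by
    have k1 := S1_cont
    have k2 := S2_cont
    have k0 : Continuous Real.smoothTransition := Real.smoothTransition.continuous
    unfold ch2
    fun_prop
  have c0 := h.nd.cont
  have c1 := h.nd1.cont
  have c2 := h.c2
  have d1 : ∀ t, HasDerivAt (fun t => chL L t * f t) (ch1 L t * f t + chL L t * f1 t) t := fun t =>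
    (dc t).mul (h.d1 t)
  have d2 : ∀ t, HasDerivAt (fun t => ch1 L t * f t + chL L t * f1 t)
      (ch2 L t * f t + ch1 L t * f1 t + (ch1 L t * f1 t + chL L t * f2 t)) t := fun t =>
    ((dc1 t).mul (h.d1 t)).add ((dc t).mul (h.d2 t))
  have b0 : ∀ t, |chL L t * f t| ≤ M * Real.exp (-|t|) ∧ |(1 - chL L t) * f t| ≤ M * Real.exp (-|t|) := by
    intro t
    obtain ⟨a, b⟩ := chL_01 L t
    rw [abs_mul, abs_mul, abs_of_nonneg a, abs_of_nonneg (by linarith : 0 ≤ 1 - chL L t)]
    have := h.b0 t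
    exact ⟨(mul_le_of_le_one_left (abs_nonneg _) b).trans this,
      (mul_le_of_le_one_left (abs_nonneg _) (by linarith)).trans this⟩
  have b1 : ∀ t, |chL L t * f1 t| ≤ M * Real.exp (-|t|) ∧ |(1 - chL L t) * f1 t| ≤ M * Real.exp (-|t|) := by
    intro t
    obtain ⟨a, b⟩ := chL_01 L t
    rw [abs_mul, abs_mul, abs_of_nonneg a, abs_of_nonneg (by linarith : 0 ≤ 1 - chL L t)]
    have := h.b1 t
    exact ⟨(mul_le_of_le_one_left (abs_nonneg _) b).trans this,
      (mul_le_of_le_one_left (abs_nonneg _) (by linarith)).trans this⟩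
  have b2 : ∀ t, |chL L t * f2 t| ≤ M * Real.exp (-|t|) ∧ |(1 - chL L t) * f2 t| ≤ M * Real.exp (-|t|) := by
    intro t
    obtain ⟨a, b⟩ := chL_01 L t
    rw [abs_mul, abs_mul, abs_of_nonneg a, abs_of_nonneg (by linarith : 0 ≤ 1 - chL L t)]
    have := h.b2 t
    exact ⟨(mul_le_of_le_one_left (abs_nonneg _) b).trans this,
      (mul_le_of_le_one_left (abs_nonneg _) (by linarith)).trans this⟩
  have pr : ∀ {x y E : ℝ}, |x| ≤ D → |y| ≤ M * E → |x * y| ≤ D * (M * E) := by
    intro x y E hx hy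
    rw [abs_mul]
    exact mul_le_mul hx hy (abs_nonneg _) (by linarith)
  have e10 : ∀ t, |ch1 L t * f t| ≤ D * (M * Real.exp (-|t|)) := fun t => pr (H L t).1 (h.b0 t)
  have e20 : ∀ t, |ch2 L t * f t| ≤ D * (M * Real.exp (-|t|)) := fun t => pr (H L t).2 (h.b0 t)
  have e11 : ∀ t, |ch1 L t * f1 t| ≤ D * (M * Real.exp (-|t|)) := fun t => pr (H L t).1 (h.b1 t)
  have hE : ∀ t : ℝ, 0 ≤ M * Real.exp (-|t|) := fun t => by positivity
  have hDE : ∀ t : ℝ, M * Real.exp (-|t|) ≤ D * (M * Real.exp (-|t|)) := fun t =>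
    le_mul_of_one_le_left (hE t) hD
  refine ⟨fun t => chL L t * f t, fun t => ch1 L t * f t + chL L t * f1 t,
    fun t => ch2 L t * f t + ch1 L t * f1 t + (ch1 L t * f1 t + chL L t * f2 t),
    ⟨d1, d2, by fun_prop, fun t => ?_, fun t => ?_, fun t => ?_⟩,
    fun t ht => by beta_reduce; rw [chL_out ht, zero_mul],
    ⟨fun t => (h.d1 t).sub (d1 t), fun t => (h.d2 t).sub (d2 t), by fun_prop, fun t => ?_, fun t => ?_,
      fun t => ?_⟩⟩
  · have h1 := (b0 t).1
    have h2 := hDE t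
    linarith [hE t]
  · have h1 := (b1 t).1
    have h2 := hDE t
    have h3 := e10 t
    have h4 := abs_add_le (ch1 L t * f t) (chL L t * f1 t)
    linarith [hE t]
  · have h1 := (b2 t).1
    have h2 := hDE t
    have h3 := e20 t
    have h4 := e11 t
    have h5 := abs_add_le (ch2 L t * f t + ch1 L t * f1 t) (ch1 L t * f1 t + chL L t * f2 t)
    have h6 := abs_add_le (ch2 L t * f t) (ch1 L t * f1 t)
    have h7 := abs_add_le (ch1 L t * f1 t) (chL L t * f2 t)
    linarith [hE t]
  all_goals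
    beta_reduce
    rcases lt_or_ge |t| L with ht | ht
    · obtain ⟨g0, g1, g2⟩ := chL_in ht
      rw [g0]
      try rw [g1]
      try rw [g2]
      have : (0 : ℝ) ≤ 4 * D * M * Real.exp (-(L / 2)) * Real.exp (-(1 / 2) * |t|) := by positivity
      simpa using this
  all_goals
    have hw : M * Real.exp (-|t|) ≤ M * (Real.exp (-(L / 2)) * Real.exp (-(1 / 2) * |t|)) := by
      refine mul_le_mul_of_nonneg_left ?_ hM
      rw [← Real.exp_add]
      exact Real.exp_le_exp.2 (by linarith)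
    have hw2 : D * (M * Real.exp (-|t|)) ≤ D * (M * (Real.exp (-(L / 2)) * Real.exp (-(1 / 2) * |t|))) :=
      mul_le_mul_of_nonneg_left hw (by linarith)
    have hz := hE t
    have hD2 := hDE t
  · have h1 := (b0 t).2
    have e : f t - chL L t * f t = (1 - chL L t) * f t := by ring
    rw [e]
    linarith
  · have h1 := (b1 t).2
    have h3 := e10 t
    have e : f1 t - (ch1 L t * f t + chL L t * f1 t) = (1 - chL L t) * f1 t - ch1 L t * f t := by ring
    rw [e]
    have h4 := abs_sub ((1 - chL L t) * f1 t) (ch1 L t * f t)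
    linarith
  · have h1 := (b2 t).2
    have h3 := e20 t
    have h4 := e11 t
    have e : f2 t - (ch2 L t * f t + ch1 L t * f1 t + (ch1 L t * f1 t + chL L t * f2 t)) =
      (1 - chL L t) * f2 t - (ch2 L t * f t + (ch1 L t * f1 t + ch1 L t * f1 t)) := by ring
    rw [e]
    have h5 := abs_sub ((1 - chL L t) * f2 t) (ch2 L t * f t + (ch1 L t * f1 t + ch1 L t * f1 t))
    have h6 := abs_add_le (ch2 L t * f t) (ch1 L t * f1 t + ch1 L t * f1 t)
    have h7 := abs_add_le (ch1 L t * f1 t) (ch1 L t * f1 t)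
    linarith

end

end PLT.Tri
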