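import Pool.Agent.PLT.TriB

/-!
# Energies of smoothed potentials (helper8, row B1d)

* `st`: sine transform; `pair_inv`: pairing of a convolution in Fourier space;
* `Qs s g f`: the smoothed dual energy of two pairs of potentials;
* **`pair_Ad`**: `<Ad δ g, f> = Qs (δ²) g f`; **`EU_Ad`**: `EU (Ad δ g) (Ad δ' f) = Qs (δ² + δ'²) g f`;
* `Qs_le`, `Qs_mono`, `Qs_amgm`, `Qs_add`: bounds.
-/

set_option autoImplicit false

open MeasureTheory Set Filter Topology

namespace PLT.Tri

noncomputable section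

open NUMF (l l_pos V Lh Uh ck1 sk sk_pos)
open NUC43
open NUC37 (cv)

variable {M M' δ δ' : ℝ}

/-! ### transforms -/

/-- sine transform -/
def st (f : ℝ → ℝ) (k : ℝ) : ℝ := ∫ t, f t * Real.sin (k * t)

lemma st_le {f : ℝ → ℝ} (hf : Integrable f) (k : ℝ) : |st f k| ≤ ∫ t, |f t| := by
  unfold st
  refine (abs_integral_le_integral_abs).trans (integral_mono (mul_sin_int hf k).abs hf.abs fun t => ?_)
  simp only [abs_mul]
  have := Real.abs_sin_le_one (k * t)
  nlinarith [abs_nonneg (f t)]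

lemma st_cont {f : ℝ → ℝ} (hf : Integrable f) : Continuous (st f) := by
  unfold st
  refine continuous_of_dominated (bound := fun t => |f t|) ?_ ?_ ?_ ?_
  · intro k
    exact (mul_sin_int hf k).aestronglyMeasurable
  · intro k
    refine Eventually.of_forall fun t => ?_
    rw [Real.norm_eq_abs, abs_mul]
    have := Real.abs_sin_le_one (k * t)
    nlinarith [abs_nonneg (f t)]
  · exact hf.abs
  · exact Eventually.of_forall fun t => by fun_prop

lemma ct_sub {f f' : ℝ → ℝ} (hf : Integrable f) (hf' : Integrable f') (k : ℝ) :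
    ct (fun t => f t - f' t) k = ct f k - ct f' k := by
  unfold ct
  rw [← integral_sub (mul_cos_int hf k) (mul_cos_int hf' k)]
  congr 1
  funext t
  ring

lemma st_sub {f f' : ℝ → ℝ} (hf : Integrable f) (hf' : Integrable f') (k : ℝ) :
    st (fun t => f t - f' t) k = st f k - st f' k := by
  unfold st
  rw [← integral_sub (mul_sin_int hf k) (mul_sin_int hf' k)]
  congr 1
  funext t
  ring

lemma shift_sin {f : ℝ → ℝ} (hf : Integrable f) (he : ∀ t, f (-t) = f t) (k s : ℝ) :
    ∫ t, f (t - s) * Real.sin (k * t) = Real.sin (k * s) * ct f k := by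
  have h1 : ∫ t, f (t - s) * Real.sin (k * t) = ∫ t, f t * Real.sin (k * (t + s)) := by
    rw [← integral_sub_right_eq_self (fun t => f t * Real.sin (k * (t + s))) s]
    refine integral_congr_ae (Eventually.of_forall fun t => ?_)
    simp
  rw [h1]
  have h2 : ∀ t, f t * Real.sin (k * (t + s)) = Real.cos (k * s) * (f t * Real.sin (k * t)) +
      Real.sin (k * s) * (f t * Real.cos (k * t)) := by
    intro t
    rw [mul_add, Real.sin_add]
    ring
  simp_rw [h2]
  rw [integral_add ((mul_sin_int hf k).const_mul _) ((mul_cos_int hf k).const_mul _),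
    integral_const_mul, integral_const_mul, NUC43.sin_zero he, mul_zero, zero_add]
  rfl

lemma kn_prod {K : ℝ} {n ν : ℝ → ℝ} (h : Kd K n) (hν : Nd M ν) :
    Integrable (fun p : ℝ × ℝ => n (p.1 - p.2) * ν p.2) ((volume : Measure ℝ).prod volume) := by
  have hK := h.K0
  have hM := hν.M0
  have hd : Integrable (fun p : ℝ × ℝ => (K * M) *
      (Real.exp (-(1 / 2) * |p.1|) * Real.exp (-(1 / 2) * |p.2|))) ((volume : Measure ℝ).prod volume) :=
    ((NUMF.int_exp_abs (b := 1 / 2) (by norm_num)).mul_prod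
      (NUMF.int_exp_abs (b := 1 / 2) (by norm_num))).const_mul _
  refine hd.mono' ?_ (ae_of_all _ fun p => ?_)
  · have h1 := h.cont
    have h2 := hν.cont
    exact Continuous.aestronglyMeasurable (by fun_prop)
  · rw [Real.norm_eq_abs, abs_mul]
    have g1 := h.bd (p.1 - p.2)
    have g2 := hν.bd p.2
    have g6 : |p.1| ≤ |p.1 - p.2| + |p.2| := by
      have := abs_add_le (p.1 - p.2) p.2
      rwa [sub_add_cancel] at this
    have g7 : Real.exp (-(5 / 2) * |p.1 - p.2|) * Real.exp (-|p.2|) ≤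
        Real.exp (-(1 / 2) * |p.1|) * Real.exp (-(1 / 2) * |p.2|) := by
      rw [← Real.exp_add, ← Real.exp_add]
      refine Real.exp_le_exp.2 ?_
      have := abs_nonneg (p.1 - p.2)
      linarith
    calc |n (p.1 - p.2)| * |ν p.2| ≤
          (K * Real.exp (-(5 / 2) * |p.1 - p.2|)) * (M * Real.exp (-|p.2|)) :=
          mul_le_mul g1 g2 (abs_nonneg _) (by positivity)
      _ = K * M * (Real.exp (-(5 / 2) * |p.1 - p.2|) * Real.exp (-|p.2|)) := by ring
      _ ≤ _ := mul_le_mul_of_nonneg_left g7 (by positivity)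

/-- transforms of a convolution with an even kernel -/
theorem ct_cv {K : ℝ} {n ν : ℝ → ℝ} (h : Kd K n) (he : ∀ t, n (-t) = n t) (hν : Nd M ν) (k : ℝ) :
    ct (cv n ν) k = ct n k * ct ν k := by
  have hI : Integrable (fun p : ℝ × ℝ => n (p.1 - p.2) * ν p.2 * Real.cos (k * p.1))
      ((volume : Measure ℝ).prod volume) :=
    (kn_prod h hν).mul_bdd (c := 1) (Continuous.aestronglyMeasurable (by fun_prop))
      (ae_of_all _ fun p => Real.abs_cos_le_one _)
  have e0 : ct (cv n ν) k = ∫ t, ∫ s, n (t - s) * ν s * Real.cos (k * t) := by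
    unfold ct cv
    congr 1
    funext t
    rw [← integral_mul_const]
  have e1 : ct n k * ct ν k = ∫ s, ct n k * (ν s * Real.cos (k * s)) := by
    rw [integral_const_mul]
    rfl
  rw [e0, e1, integral_integral_swap hI]
  congr 1
  funext s
  have e : ∀ t, n (t - s) * ν s * Real.cos (k * t) = ν s * (n (t - s) * Real.cos (k * t)) := fun t => by ring
  simp_rw [e]
  rw [integral_const_mul, shift_cos h.int he]
  ring

theorem st_cv {K : ℝ} {n ν : ℝ → ℝ} (h : Kd K n) (he : ∀ t, n (-t) = n t) (hν : Nd M ν) (k : ℝ) :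
    st (cv n ν) k = ct n k * st ν k := by
  have hI : Integrable (fun p : ℝ × ℝ => n (p.1 - p.2) * ν p.2 * Real.sin (k * p.1))
      ((volume : Measure ℝ).prod volume) :=
    (kn_prod h hν).mul_bdd (c := 1) (Continuous.aestronglyMeasurable (by fun_prop))
      (ae_of_all _ fun p => Real.abs_sin_le_one _)
  have e0 : st (cv n ν) k = ∫ t, ∫ s, n (t - s) * ν s * Real.sin (k * t) := by
    unfold st cv
    congr 1
    funext t
    rw [← integral_mul_const]
  have e1 : ct n k * st ν k = ∫ s, ct n k * (ν s * Real.sin (k * s)) := by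
    rw [integral_const_mul]
    rfl
  rw [e0, e1, integral_integral_swap hI]
  congr 1
  funext s
  have e : ∀ t, n (t - s) * ν s * Real.sin (k * t) = ν s * (n (t - s) * Real.sin (k * t)) := fun t => by ring
  simp_rw [e]
  rw [integral_const_mul, shift_sin h.int he]
  ring

/-- pairing with a convolution of a cosine integral -/
theorem pair_rep {m W : ℝ → ℝ} (hm : IntegrableOn m (Ioi 0))
    (hW : ∀ x, W x = ∫ k in Ioi (0 : ℝ), 2 * Real.cos (x * k) * (m k / (2 * Real.pi))) {f h : ℝ → ℝ}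
    (hf : Integrable f) (hh : Integrable h) : ∫ t, cv W f t * h t =
      ∫ k in Ioi (0 : ℝ), m k / Real.pi * (ct f k * ct h k + st f k * st h k) := by
  have hFi : Integrable (fun k : ℝ => m k / (2 * Real.pi)) (volume.restrict (Ioi 0)) := hm.div_const _
  have hI : Integrable (fun p : (ℝ × ℝ) × ℝ => (f p.1.2 * h p.1.1) *
      (2 * Real.cos ((p.1.1 - p.1.2) * p.2) * (m p.2 / (2 * Real.pi))))
      (((volume : Measure ℝ).prod volume).prod (volume.restrict (Ioi 0))) := by
    have h0 := (hh.mul_prod hf).mul_prod hFi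
    have h1 := h0.mul_bdd (c := 2) (g := fun p : (ℝ × ℝ) × ℝ => 2 * Real.cos ((p.1.1 - p.1.2) * p.2))
      (Continuous.aestronglyMeasurable (by fun_prop)) (ae_of_all _ fun p => by
        rw [Real.norm_eq_abs, abs_mul, abs_two]
        have := Real.abs_cos_le_one ((p.1.1 - p.1.2) * p.2)
        linarith)
    refine h1.congr (ae_of_all _ fun p => ?_)
    simp only
    ring
  have e1 : ∀ t, cv W f t * h t = ∫ u, ∫ k in Ioi (0 : ℝ), (f u * h t) *
      (2 * Real.cos ((t - u) * k) * (m k / (2 * Real.pi))) := by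
    intro t
    unfold cv
    rw [← integral_mul_const]
    congr 1
    funext u
    rw [integral_const_mul, hW]
    ring
  simp_rw [e1]
  have h2 := hI.integral_prod_left
  rw [← integral_prod (μ := volume) (ν := volume) (f := fun p : ℝ × ℝ => ∫ k in Ioi (0 : ℝ), (f p.2 * h p.1) *
      (2 * Real.cos ((p.1 - p.2) * k) * (m k / (2 * Real.pi)))) h2]
  rw [integral_integral_swap hI]
  refine setIntegral_congr_fun measurableSet_Ioi fun k _ => ?_
  have i1 : Integrable (fun p : ℝ × ℝ => (h p.1 * Real.cos (k * p.1)) * (f p.2 * Real.cos (k * p.2)))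
      ((volume : Measure ℝ).prod volume) := (mul_cos_int hh k).mul_prod (mul_cos_int hf k)
  have i2 : Integrable (fun p : ℝ × ℝ => (h p.1 * Real.sin (k * p.1)) * (f p.2 * Real.sin (k * p.2)))
      ((volume : Measure ℝ).prod volume) := (mul_sin_int hh k).mul_prod (mul_sin_int hf k)
  have e2 : ∀ p : ℝ × ℝ, f p.2 * h p.1 * (2 * Real.cos ((p.1 - p.2) * k) * (m k / (2 * Real.pi))) =
      m k / Real.pi * ((h p.1 * Real.cos (k * p.1)) * (f p.2 * Real.cos (k * p.2)) +
        (h p.1 * Real.sin (k * p.1)) * (f p.2 * Real.sin (k * p.2))) := by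
    intro p
    rw [show (p.1 - p.2) * k = k * p.1 - k * p.2 by ring, Real.cos_sub]
    have := Real.pi_pos
    field_simp
  simp_rw [e2]
  rw [integral_const_mul, integral_add i1 i2,
    integral_prod_mul (fun x => h x * Real.cos (k * x)) (fun x => f x * Real.cos (k * x)),
    integral_prod_mul (fun x => h x * Real.sin (k * x)) (fun x => f x * Real.sin (k * x))]
  unfold ct st
  ring

/-- pairing with a convolution of an inverse transform -/
theorem pair_inv {α : ℝ} {F : ℂ → ℂ} (hF : Gr α F) (hα : α < 0) {f h : ℝ → ℝ} (hf : Integrable f)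
    (hh : Integrable h) : ∫ t, cv (inv F) f t * h t =
      ∫ k in Ioi (0 : ℝ), (F k).re / Real.pi * (ct f k * ct h k + st f k * st h k) :=
  pair_rep (hF.re_integrable hα).integrableOn (fun _ => rfl) hf hh

/-! ### the dual energy -/

/-- symbol of the inverse of the sum channel -/
def mp (k : ℝ) : ℝ := 1 / Uh k
/-- symbol of the inverse of the difference channel -/
def mm (k : ℝ) : ℝ := 1 / (Uh k + 2 * Lh k)

/-- products of the sums -/
def PP (g f : Bool → ℝ → ℝ) (k : ℝ) : ℝ :=
  (ct (g true) k + ct (g false) k) * (ct (f true) k + ct (f false) k) +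
    (st (g true) k + st (g false) k) * (st (f true) k + st (f false) k)

/-- products of the differences -/
def MM (g f : Bool → ℝ → ℝ) (k : ℝ) : ℝ :=
  (ct (g true) k - ct (g false) k) * (ct (f true) k - ct (f false) k) +
    (st (g true) k - st (g false) k) * (st (f true) k - st (f false) k)

/-- density of the dual energy -/
def Qi (g f : Bool → ℝ → ℝ) (k : ℝ) : ℝ := mp k * PP g f k + mm k * MM g f k

/-- **the smoothed dual energy** -/
def Qs (s : ℝ) (g f : Bool → ℝ → ℝ) : ℝ :=
  ∫ k in Ioi (0 : ℝ), Real.exp (-(s / 2) * (k * k)) * Qi g f k / (2 * Real.pi)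

lemma mp_pos {k : ℝ} (hk : 0 < k) : 0 < mp k := one_div_pos.2 (NUMF.Uh_pos hk.ne')

lemma mm_pos {k : ℝ} (hk : 0 < k) : 0 < mm k := by
  have := NUMF.Uh_pos hk.ne'
  have := NUMF.Lh_pos hk.ne'
  unfold mm
  positivity

lemma mm_le {k : ℝ} (hk : 0 < k) : mm k ≤ mp k := by
  have h1 := NUMF.Uh_pos hk.ne'
  have h2 := NUMF.Lh_pos hk.ne'
  unfold mm mp
  exact one_div_le_one_div_of_le h1 (by linarith)

lemma mp_le {k : ℝ} (hk : 0 < k) : mp k ≤ (k + 2 / l) / (2 * Real.pi) := by
  have hl := l_pos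
  have hpi := Real.pi_pos
  obtain ⟨x, hx⟩ : ∃ x, x = l * k := ⟨_, rfl⟩
  have hx0 : 0 < x := by rw [hx]; positivity
  obtain ⟨c, hc⟩ : ∃ c, c = Real.cosh x := ⟨_, rfl⟩
  obtain ⟨s, hs⟩ : ∃ s, s = Real.sinh x := ⟨_, rfl⟩
  have hc1 : 1 < c := by rw [hc]; exact Real.one_lt_cosh.2 hx0.ne'
  have hs0 : x ≤ s := by rw [hs]; exact (Real.self_le_sinh_iff.2 hx0.le)
  have hcs : c ^ 2 - s ^ 2 = 1 := by rw [hc, hs]; exact Real.cosh_sq_sub_sinh_sq x
  have hce : c - s ≤ 1 := by
    rw [hc, hs, Real.cosh_sub_sinh]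
    exact Real.exp_le_one_iff.2 (by linarith)
  have h4 : sk k = 4 * s * c * (2 * c ^ 2 - 1) := by
    unfold sk
    rw [show Real.pi / 2 * k = 2 * (2 * x) by rw [hx]; unfold NUMF.l; ring, Real.sinh_two_mul,
      Real.sinh_two_mul, Real.cosh_two_mul, ← hc, ← hs]
    linear_combination (-4 * s * c) * hcs
  have hck : ck1 k = c := by rw [hc, hx]; rfl
  have hspos : 0 < s := by linarith
  unfold mp Uh
  rw [h4, hck]
  have h5 : 0 < c - 1 := by linarith
  have h6 : 0 < 2 * c - 1 := by linarith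
  have h7 : 0 < 2 * c ^ 2 - 1 := by nlinarith
  have e1 : 1 / (2 * Real.pi * ((c - 1) * (2 * c - 1) * (2 * c + 1) ^ 2 / (k * (4 * s * c * (2 * c ^ 2 - 1))))) =
      k / (2 * Real.pi) * ((4 * s * c * (2 * c ^ 2 - 1)) / ((c - 1) * ((2 * c - 1) * (2 * c + 1) ^ 2))) := by
    field_simp
  rw [e1]
  have e2 : (4 * s * c * (2 * c ^ 2 - 1)) / ((c - 1) * ((2 * c - 1) * (2 * c + 1) ^ 2)) ≤ (c + 1) / s := by
    rw [div_le_div_iff₀ (by positivity) hspos]
    have h8 : 4 * c * (2 * c ^ 2 - 1) ≤ (2 * c - 1) * (2 * c + 1) ^ 2 := by nlinarith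
    have h9 : (4 * s * c * (2 * c ^ 2 - 1)) * s = (c - 1) * (c + 1) * (4 * c * (2 * c ^ 2 - 1)) := by
      linear_combination (-(4 * c * (2 * c ^ 2 - 1))) * hcs
    rw [h9]
    have h10 : (c - 1) * (c + 1) * (4 * c * (2 * c ^ 2 - 1)) ≤ (c - 1) * (c + 1) * ((2 * c - 1) * (2 * c + 1) ^ 2) :=
      mul_le_mul_of_nonneg_left h8 (by nlinarith)
    linarith
  have e3 : (c + 1) / s ≤ 1 + 2 / x := by
    have h8 : (c + 1) / s ≤ (s + 2) / s := by
      refine (div_le_div_iff_of_pos_right hspos).2 (by linarith)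
    have h9 : (s + 2) / s = 1 + 2 / s := by field_simp
    have h10 : 2 / s ≤ 2 / x := div_le_div_of_nonneg_left (by norm_num) hx0 hs0
    linarith
  have h11 : k / (2 * Real.pi) * (1 + 2 / x) = (k + 2 / l) / (2 * Real.pi) := by
    rw [hx]
    field_simp
  rw [← h11]
  exact mul_le_mul_of_nonneg_left (e2.trans e3) (by positivity)

lemma mp_meas : Measurable mp := by
  unfold mp NUMF.Uh NUMF.ck1 NUMF.sk
  fun_prop

lemma mm_meas : Measurable mm := by
  unfold mm NUMF.Uh NUMF.Lh NUMF.ck1 NUMF.sk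
  fun_prop

/-- control of the transforms -/
structure Hq (N : ℝ) (g : Bool → ℝ → ℝ) : Prop where
  int : ∀ a, Integrable (g a)
  c : ∀ a k, 0 < k → (1 + k ^ 2) * |ct (g a) k| ≤ N
  s : ∀ a k, 0 < k → (1 + k ^ 2) * |st (g a) k| ≤ N

variable {N N' : ℝ} {g f : Bool → ℝ → ℝ}

lemma Hq.N0 (h : Hq N g) : 0 ≤ N := (by positivity : (0 : ℝ) ≤ (1 + 1 ^ 2) * |ct (g true) 1|).trans
  (h.c true 1 one_pos)

lemma Hq.mono (h : Hq N g) (hN : N ≤ N') : Hq N' g :=
  ⟨h.int, fun a k hk => (h.c a k hk).trans hN, fun a k hk => (h.s a k hk).trans hN⟩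

lemma Hq.sub (h : Hq N g) (h' : Hq N' f) : Hq (N + N') (fun a t => g a t - f a t) := by
  refine ⟨fun a => (h.int a).sub (h'.int a), fun a k hk => ?_, fun a k hk => ?_⟩
  · rw [ct_sub (h.int a) (h'.int a)]
    have h1 := h.c a k hk
    have h2 := h'.c a k hk
    have h3 := abs_sub (ct (g a) k) (ct (f a) k)
    have h4 : (0 : ℝ) ≤ 1 + k ^ 2 := by positivity
    nlinarith
  · rw [st_sub (h.int a) (h'.int a)]
    have h1 := h.s a k hk
    have h2 := h'.s a k hk
    have h3 := abs_sub (st (g a) k) (st (f a) k)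
    have h4 : (0 : ℝ) ≤ 1 + k ^ 2 := by positivity
    nlinarith

lemma PP_cont (hg : Hq N g) (hf : Hq N' f) : Continuous (PP g f) := by
  unfold PP
  have h1 := fun a => ct_cont (hg.int a)
  have h2 := fun a => ct_cont (hf.int a)
  have h3 := fun a => st_cont (hg.int a)
  have h4 := fun a => st_cont (hf.int a)
  exact ((((h1 true).add (h1 false)).mul ((h2 true).add (h2 false)))).add
    (((h3 true).add (h3 false)).mul ((h4 true).add (h4 false)))

lemma MM_cont (hg : Hq N g) (hf : Hq N' f) : Continuous (MM g f) := by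
  unfold MM
  have h1 := fun a => ct_cont (hg.int a)
  have h2 := fun a => ct_cont (hf.int a)
  have h3 := fun a => st_cont (hg.int a)
  have h4 := fun a => st_cont (hf.int a)
  exact ((((h1 true).sub (h1 false)).mul ((h2 true).sub (h2 false)))).add
    (((h3 true).sub (h3 false)).mul ((h4 true).sub (h4 false)))

lemma Hq.cle (h : Hq N g) (a : Bool) {k : ℝ} (hk : 0 < k) : |ct (g a) k| ≤ N / (1 + k ^ 2) := by
  rw [le_div_iff₀ (by positivity), mul_comm]
  exact h.c a k hk

lemma Hq.sle (h : Hq N g) (a : Bool) {k : ℝ} (hk : 0 < k) : |st (g a) k| ≤ N / (1 + k ^ 2) := by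
  rw [le_div_iff₀ (by positivity), mul_comm]
  exact h.s a k hk

lemma prod_le {a b c d x y : ℝ} (ha : |a| ≤ x) (hb : |b| ≤ x) (hc : |c| ≤ y) (hd : |d| ≤ y) :
    |(a + b) * (c + d)| ≤ 4 * (x * y) ∧ |(a - b) * (c - d)| ≤ 4 * (x * y) := by
  have h1 := abs_add_le a b
  have h2 := abs_add_le c d
  have h3 := abs_sub a b
  have h4 := abs_sub c d
  have hx : 0 ≤ x := (abs_nonneg _).trans ha
  constructor
  · rw [abs_mul]
    calc |a + b| * |c + d| ≤ (2 * x) * (2 * y) :=
          mul_le_mul (by linarith) (by linarith) (abs_nonneg _) (by linarith)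
      _ = _ := by ring
  · rw [abs_mul]
    calc |a - b| * |c - d| ≤ (2 * x) * (2 * y) :=
          mul_le_mul (by linarith) (by linarith) (abs_nonneg _) (by linarith)
      _ = _ := by ring

lemma PP_le (hg : Hq N g) (hf : Hq N' f) {k : ℝ} (hk : 0 < k) :
    |PP g f k| ≤ 8 * (N * N') / (1 + k ^ 2) ^ 2 ∧ |MM g f k| ≤ 8 * (N * N') / (1 + k ^ 2) ^ 2 := by
  have h1 := prod_le (hg.cle true hk) (hg.cle false hk) (hf.cle true hk) (hf.cle false hk)
  have h2 := prod_le (hg.sle true hk) (hg.sle false hk) (hf.sle true hk) (hf.sle false hk)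
  have e : N / (1 + k ^ 2) * (N' / (1 + k ^ 2)) = N * N' / (1 + k ^ 2) ^ 2 := by
    rw [div_mul_div_comm, sq (1 + k ^ 2)]
  rw [e] at h1 h2
  have e2 : 8 * (N * N') / (1 + k ^ 2) ^ 2 = 8 * (N * N' / (1 + k ^ 2) ^ 2) := by ring
  rw [e2]
  unfold PP MM
  exact ⟨(abs_add_le _ _).trans (by linarith [h1.1, h2.1]), (abs_add_le _ _).trans (by linarith [h1.2, h2.2])⟩

/-- the constant of the dual energy -/
def cQ : ℝ := 16 * ((1 + 2 / l) / Real.pi) * ∫ k in Ioi (0 : ℝ), (1 + k ^ 2)⁻¹

lemma Qi_le (hg : Hq N g) (hf : Hq N' f) {k : ℝ} (hk : 0 < k) :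
    |Qi g f k| ≤ 16 * ((1 + 2 / l) / Real.pi) * (N * N') * (1 + k ^ 2)⁻¹ := by
  have hl := l_pos
  have hpi := Real.pi_pos
  have h1 := mp_le hk
  have h2 := mm_le hk
  have h3 := mp_pos hk
  have h4 := mm_pos hk
  obtain ⟨h5, h6⟩ := PP_le hg hf hk
  have hN := hg.N0
  have hN' := hf.N0
  have hD : 0 ≤ 8 * (N * N') / (1 + k ^ 2) ^ 2 := by positivity
  have h7 : |Qi g f k| ≤ 2 * ((k + 2 / l) / (2 * Real.pi)) * (8 * (N * N') / (1 + k ^ 2) ^ 2) := by
    unfold Qi
    refine (abs_add_le _ _).trans ?_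
    rw [abs_mul, abs_mul, abs_of_pos h3, abs_of_pos h4]
    have g1 : mp k * |PP g f k| ≤ ((k + 2 / l) / (2 * Real.pi)) * (8 * (N * N') / (1 + k ^ 2) ^ 2) :=
      mul_le_mul h1 h5 (abs_nonneg _) (by positivity)
    have g2 : mm k * |MM g f k| ≤ ((k + 2 / l) / (2 * Real.pi)) * (8 * (N * N') / (1 + k ^ 2) ^ 2) :=
      mul_le_mul (h2.trans h1) h6 (abs_nonneg _) (by positivity)
    linarith
  refine h7.trans ?_
  have h8 : k + 2 / l ≤ (1 + 2 / l) * (2 * (1 + k ^ 2)) := by
    have h9 : 0 < 2 / l := by positivity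
    nlinarith [sq_nonneg (k - 1), mul_pos h9 (by positivity : (0 : ℝ) < 1 + k ^ 2)]
  have e : 2 * ((k + 2 / l) / (2 * Real.pi)) * (8 * (N * N') / (1 + k ^ 2) ^ 2) =
      (k + 2 / l) * (8 / Real.pi * (N * N') / (1 + k ^ 2) ^ 2) := by field_simp
  rw [e]
  have h10 : 0 ≤ 8 / Real.pi * (N * N') / (1 + k ^ 2) ^ 2 := by positivity
  refine (mul_le_mul_of_nonneg_right h8 h10).trans (le_of_eq ?_)
  field_simp
  ring

lemma Qi_meas (hg : Hq N g) (hf : Hq N' f) : Measurable (Qi g f) := by
  unfold Qi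
  exact (mp_meas.mul (PP_cont hg hf).measurable).add (mm_meas.mul (MM_cont hg hf).measurable)

lemma inv_int_on : IntegrableOn (fun k : ℝ => (1 + k ^ 2)⁻¹) (Ioi 0) :=
  integrable_inv_one_add_sq.integrableOn

lemma Qs_int {s : ℝ} (hs : 0 ≤ s) (hg : Hq N g) (hf : Hq N' f) :
    IntegrableOn (fun k : ℝ => Real.exp (-(s / 2) * (k * k)) * Qi g f k / (2 * Real.pi)) (Ioi 0) := by
  have hpi := Real.pi_gt_three
  have h1 := inv_int_on.const_mul (16 * ((1 + 2 / l) / Real.pi) * (N * N'))
  refine h1.mono' ?_ ?_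
  · have := Qi_meas hg hf
    exact Measurable.aestronglyMeasurable (by fun_prop)
  · rw [ae_restrict_iff' measurableSet_Ioi]
    refine ae_of_all _ fun k hk => ?_
    have h2 := Qi_le hg hf hk
    have h3 : Real.exp (-(s / 2) * (k * k)) ≤ 1 := Real.exp_le_one_iff.2 (by
      have : 0 ≤ s / 2 * (k * k) := mul_nonneg (by linarith) (mul_self_nonneg k)
      linarith)
    have h4 := Real.exp_pos (-(s / 2) * (k * k))
    rw [norm_div, norm_mul, Real.norm_eq_abs, Real.norm_eq_abs, Real.norm_eq_abs, abs_of_pos h4,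
      abs_of_pos (by linarith : 0 < 2 * Real.pi), div_le_iff₀ (by linarith)]
    have h5 : Real.exp (-(s / 2) * (k * k)) * |Qi g f k| ≤ |Qi g f k| :=
      mul_le_of_le_one_left (abs_nonneg _) h3
    have h6 := abs_nonneg (Qi g f k)
    nlinarith

theorem Qs_le {s : ℝ} (hs : 0 ≤ s) (hg : Hq N g) (hf : Hq N' f) : |Qs s g f| ≤ cQ * (N * N') := by
  have hpi := Real.pi_gt_three
  have h1 := inv_int_on.const_mul (16 * ((1 + 2 / l) / Real.pi) * (N * N'))
  unfold Qs
  rw [← Real.norm_eq_abs]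
  have h2 : ‖∫ k in Ioi (0 : ℝ), Real.exp (-(s / 2) * (k * k)) * Qi g f k / (2 * Real.pi)‖ ≤
      ∫ k in Ioi (0 : ℝ), 16 * ((1 + 2 / l) / Real.pi) * (N * N') * (1 + k ^ 2)⁻¹ := by
    refine norm_integral_le_of_norm_le h1 ?_
    rw [ae_restrict_iff' measurableSet_Ioi]
    refine ae_of_all _ fun k hk => ?_
    have h2 := Qi_le hg hf hk
    have h3 : Real.exp (-(s / 2) * (k * k)) ≤ 1 := Real.exp_le_one_iff.2 (by
      have : 0 ≤ s / 2 * (k * k) := mul_nonneg (by linarith) (mul_self_nonneg k)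
      linarith)
    have h4 := Real.exp_pos (-(s / 2) * (k * k))
    rw [norm_div, norm_mul, Real.norm_eq_abs, Real.norm_eq_abs, Real.norm_eq_abs, abs_of_pos h4,
      abs_of_pos (by linarith : 0 < 2 * Real.pi), div_le_iff₀ (by linarith)]
    have h5 : Real.exp (-(s / 2) * (k * k)) * |Qi g f k| ≤ |Qi g f k| :=
      mul_le_of_le_one_left (abs_nonneg _) h3
    have h6 := abs_nonneg (Qi g f k)
    nlinarith
  refine h2.trans (le_of_eq ?_)
  rw [integral_const_mul]
  unfold cQ
  ring

lemma PP_self (g : Bool → ℝ → ℝ) (k : ℝ) : 0 ≤ PP g g k := by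
  unfold PP
  nlinarith [mul_self_nonneg (ct (g true) k + ct (g false) k), mul_self_nonneg (st (g true) k + st (g false) k)]

lemma MM_self (g : Bool → ℝ → ℝ) (k : ℝ) : 0 ≤ MM g g k := by
  unfold MM
  nlinarith [mul_self_nonneg (ct (g true) k - ct (g false) k), mul_self_nonneg (st (g true) k - st (g false) k)]

lemma Qi_self (g : Bool → ℝ → ℝ) {k : ℝ} (hk : 0 < k) : 0 ≤ Qi g g k := by
  have h1 := mp_pos hk
  have h2 := mm_pos hk
  have h3 := PP_self g k
  have h4 := MM_self g k
  unfold Qi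
  positivity

theorem Qs_self (s : ℝ) (g : Bool → ℝ → ℝ) : 0 ≤ Qs s g g := by
  have hpi := Real.pi_pos
  unfold Qs
  refine setIntegral_nonneg measurableSet_Ioi fun k hk => ?_
  have := Qi_self g hk
  positivity

theorem Qs_mono {s s' : ℝ} (hs : 0 ≤ s) (hss : s ≤ s') (hg : Hq N g) : Qs s' g g ≤ Qs s g g := by
  have hpi := Real.pi_pos
  unfold Qs
  refine setIntegral_mono_on (Qs_int (hs.trans hss) hg hg) (Qs_int hs hg hg) measurableSet_Ioi fun k hk => ?_
  have h1 := Qi_self g hk
  gcongr ?_ * _ / _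
  refine Real.exp_le_exp.2 ?_
  have := mul_nonneg (sub_nonneg.2 hss) (mul_self_nonneg k)
  nlinarith

/-- the pairing against the two energies -/
theorem Qs_amgm {s : ℝ} (hs : 0 ≤ s) (hg : Hq N g) (hf : Hq N' f) :
    |Qs s g f| ≤ (Qs s g g + Qs s f f) / 2 := by
  have hpi := Real.pi_pos
  have i1 := Qs_int hs hg hg
  have i2 := Qs_int hs hf hf
  have e : (Qs s g g + Qs s f f) / 2 = ∫ k in Ioi (0 : ℝ),
      (Real.exp (-(s / 2) * (k * k)) * Qi g g k / (2 * Real.pi) +
        Real.exp (-(s / 2) * (k * k)) * Qi f f k / (2 * Real.pi)) / 2 := by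
    rw [integral_div, integral_add i1 i2]
    rfl
  rw [e]
  unfold Qs
  rw [← Real.norm_eq_abs]
  refine norm_integral_le_of_norm_le ((i1.add i2).div_const 2) ?_
  rw [ae_restrict_iff' measurableSet_Ioi]
  refine ae_of_all _ fun k hk => ?_
  have h1 := mp_pos hk
  have h2 := mm_pos hk
  have h4 := Real.exp_pos (-(s / 2) * (k * k))
  have a1 : |PP g f k| ≤ (PP g g k + PP f f k) / 2 := by
    unfold PP
    rw [abs_le]
    constructor <;>
    nlinarith [sq_nonneg ((ct (g true) k + ct (g false) k) - (ct (f true) k + ct (f false) k)),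
      sq_nonneg ((st (g true) k + st (g false) k) - (st (f true) k + st (f false) k)),
      sq_nonneg ((ct (g true) k + ct (g false) k) + (ct (f true) k + ct (f false) k)),
      sq_nonneg ((st (g true) k + st (g false) k) + (st (f true) k + st (f false) k))]
  have a2 : |MM g f k| ≤ (MM g g k + MM f f k) / 2 := by
    unfold MM
    rw [abs_le]
    constructor <;>
    nlinarith [sq_nonneg ((ct (g true) k - ct (g false) k) - (ct (f true) k - ct (f false) k)),
      sq_nonneg ((st (g true) k - st (g false) k) - (st (f true) k - st (f false) k)),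
      sq_nonneg ((ct (g true) k - ct (g false) k) + (ct (f true) k - ct (f false) k)),
      sq_nonneg ((st (g true) k - st (g false) k) + (st (f true) k - st (f false) k))]
  have a3 : |Qi g f k| ≤ (Qi g g k + Qi f f k) / 2 := by
    unfold Qi
    refine (abs_add_le _ _).trans ?_
    rw [abs_mul, abs_mul, abs_of_pos h1, abs_of_pos h2]
    nlinarith
  rw [norm_div, norm_mul, Real.norm_eq_abs, Real.norm_eq_abs, Real.norm_eq_abs, abs_of_pos h4,
    abs_of_pos (by linarith : 0 < 2 * Real.pi)]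
  have e2 : (Real.exp (-(s / 2) * (k * k)) * Qi g g k / (2 * Real.pi) +
      Real.exp (-(s / 2) * (k * k)) * Qi f f k / (2 * Real.pi)) / 2 =
      Real.exp (-(s / 2) * (k * k)) * ((Qi g g k + Qi f f k) / 2) / (2 * Real.pi) := by ring
  rw [e2]
  gcongr

/-- energies of a difference -/
theorem Qs_split {s η : ℝ} (hs : 0 ≤ s) (hη : 0 < η) (hg : Hq N g) (hf : Hq N' f) :
    Qs s (fun a t => g a t - f a t) (fun a t => g a t - f a t) ≤ (1 + η) * Qs s g g + (1 + 1 / η) * Qs s f f := by
  have hpi := Real.pi_pos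
  have i1 := Qs_int hs hg hg
  have i2 := Qs_int hs hf hf
  have i3 := Qs_int hs (hg.sub hf) (hg.sub hf)
  have e : (1 + η) * Qs s g g + (1 + 1 / η) * Qs s f f = ∫ k in Ioi (0 : ℝ),
      ((1 + η) * (Real.exp (-(s / 2) * (k * k)) * Qi g g k / (2 * Real.pi)) +
        (1 + 1 / η) * (Real.exp (-(s / 2) * (k * k)) * Qi f f k / (2 * Real.pi))) := by
    rw [integral_add (i1.const_mul _) (i2.const_mul _), integral_const_mul, integral_const_mul]
    rfl
  rw [e]
  unfold Qs
  refine setIntegral_mono_on i3 ((i1.const_mul _).add (i2.const_mul _)) measurableSet_Ioi fun k hk => ?_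
  have h1 := mp_pos hk
  have h2 := mm_pos hk
  have h4 := Real.exp_pos (-(s / 2) * (k * k))
  have key : ∀ x y : ℝ, (x - y) * (x - y) ≤ (1 + η) * (x * x) + (1 + 1 / η) * (y * y) := by
    intro x y
    have h5 : 0 ≤ (η * x + y) ^ 2 / η := by positivity
    have h6 : (η * x + y) ^ 2 / η = η * (x * x) + 2 * (x * y) + 1 / η * (y * y) := by
      field_simp
      ring
    nlinarith
  have a1 : PP (fun a t => g a t - f a t) (fun a t => g a t - f a t) k ≤
      (1 + η) * PP g g k + (1 + 1 / η) * PP f f k := by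
    unfold PP
    simp only
    rw [ct_sub (hg.int true) (hf.int true), ct_sub (hg.int false) (hf.int false),
      st_sub (hg.int true) (hf.int true), st_sub (hg.int false) (hf.int false)]
    have k1 := key (ct (g true) k + ct (g false) k) (ct (f true) k + ct (f false) k)
    have k2 := key (st (g true) k + st (g false) k) (st (f true) k + st (f false) k)
    have e1 : ct (g true) k - ct (f true) k + (ct (g false) k - ct (f false) k) =
      (ct (g true) k + ct (g false) k) - (ct (f true) k + ct (f false) k) := by ring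
    have e2 : st (g true) k - st (f true) k + (st (g false) k - st (f false) k) =
      (st (g true) k + st (g false) k) - (st (f true) k + st (f false) k) := by ring
    rw [e1, e2]
    linarith
  have a2 : MM (fun a t => g a t - f a t) (fun a t => g a t - f a t) k ≤
      (1 + η) * MM g g k + (1 + 1 / η) * MM f f k := by
    unfold MM
    simp only
    rw [ct_sub (hg.int true) (hf.int true), ct_sub (hg.int false) (hf.int false),
      st_sub (hg.int true) (hf.int true), st_sub (hg.int false) (hf.int false)]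
    have k1 := key (ct (g true) k - ct (g false) k) (ct (f true) k - ct (f false) k)
    have k2 := key (st (g true) k - st (g false) k) (st (f true) k - st (f false) k)
    have e1 : ct (g true) k - ct (f true) k - (ct (g false) k - ct (f false) k) =
      (ct (g true) k - ct (g false) k) - (ct (f true) k - ct (f false) k) := by ring
    have e2 : st (g true) k - st (f true) k - (st (g false) k - st (f false) k) =
      (st (g true) k - st (g false) k) - (st (f true) k - st (f false) k) := by ring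
    rw [e1, e2]
    linarith
  have a3 : Qi (fun a t => g a t - f a t) (fun a t => g a t - f a t) k ≤
      (1 + η) * Qi g g k + (1 + 1 / η) * Qi f f k := by
    have b1 := mul_le_mul_of_nonneg_left a1 h1.le
    have b2 := mul_le_mul_of_nonneg_left a2 h2.le
    have e3 : (1 + η) * Qi g g k + (1 + 1 / η) * Qi f f k =
        mp k * ((1 + η) * PP g g k + (1 + 1 / η) * PP f f k) +
          mm k * ((1 + η) * MM g g k + (1 + 1 / η) * MM f f k) := by
      unfold Qi
      ring
    rw [e3]
    unfold Qi at b1 b2 ⊢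
    linarith
  have e4 : (1 + η) * (Real.exp (-(s / 2) * (k * k)) * Qi g g k / (2 * Real.pi)) +
      (1 + 1 / η) * (Real.exp (-(s / 2) * (k * k)) * Qi f f k / (2 * Real.pi)) =
      Real.exp (-(s / 2) * (k * k)) * ((1 + η) * Qi g g k + (1 + 1 / η) * Qi f f k) / (2 * Real.pi) := by ring
  rw [e4]
  gcongr

/-! ### transforms of twice differentiable functions -/

/-- pairing over the two species -/
def prs (ν f : Bool → ℝ → ℝ) : ℝ := (∫ t, ν true t * f true t) + ∫ t, ν false t * f false t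

/-- **pairing of the response with a potential** -/
theorem pair_Ad (hδ : 0 < δ) (hg : ∀ a, Nd M (g a)) (hf : ∀ a, Nd M' (f a)) :
    prs (Ad δ g) f = Qs (δ ^ 2) g f := by
  have hpi := Real.pi_pos
  obtain ⟨K, hK, h1, h2, h3⟩ := kd_dO hδ
  have hc := chg_gau hδ
  have i1 : ∀ a b, Integrable fun t => cv (dO (Fp δ) (Fm δ)) (g a) t * f b t := fun a b =>
    (hf b).int.bdd_mul (c := K * M * cE) (cv_nd h1 (hg a)).cont.aestronglyMeasurable
      (ae_of_all _ (cv_nd h1 (hg a)).le)
  have i2 : ∀ a b, Integrable fun t => cv (dX (Fp δ) (Fm δ)) (g a) t * f b t := fun a b =>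
    (hf b).int.bdd_mul (c := K * M * cE) (cv_nd h2 (hg a)).cont.aestronglyMeasurable
      (ae_of_all _ (cv_nd h2 (hg a)).le)
  have eO : ∀ a b, ∫ t, cv (dO (Fp δ) (Fm δ)) (g a) t * f b t = ∫ k in Ioi (0 : ℝ),
      ((Fp δ k).re + (Fm δ k).re) / 2 / Real.pi * (ct (g a) k * ct (f b) k + st (g a) k * st (f b) k) := by
    intro a b
    have := pair_inv hc.gO hc.neg (hg a).int (hf b).int
    simp_rw [re_half_add] at this
    exact this
  have eX : ∀ a b, ∫ t, cv (dX (Fp δ) (Fm δ)) (g a) t * f b t = ∫ k in Ioi (0 : ℝ),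
      ((Fp δ k).re - (Fm δ k).re) / 2 / Real.pi * (ct (g a) k * ct (f b) k + st (g a) k * st (f b) k) := by
    intro a b
    have := pair_inv hc.gX hc.neg (hg a).int (hf b).int
    simp_rw [re_half_sub] at this
    exact this
  have bdd : ∀ a b (k : ℝ), |ct (g a) k * ct (f b) k + st (g a) k * st (f b) k| ≤
      2 * ((∫ t, |g a t|) * ∫ t, |f b t|) := by
    intro a b k
    have g1 := ct_le (hg a).int k
    have g2 := ct_le (hf b).int k
    have g3 := st_le (hg a).int k
    have g4 := st_le (hf b).int k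
    refine (abs_add_le _ _).trans ?_
    rw [abs_mul, abs_mul]
    have g5 := mul_le_mul g1 g2 (abs_nonneg _) ((abs_nonneg _).trans g1)
    have g6 := mul_le_mul g3 g4 (abs_nonneg _) ((abs_nonneg _).trans g3)
    linarith
  have cc : ∀ a b, Continuous fun k => ct (g a) k * ct (f b) k + st (g a) k * st (f b) k := fun a b =>
    ((ct_cont (hg a).int).mul (ct_cont (hf b).int)).add ((st_cont (hg a).int).mul (st_cont (hf b).int))
  have iP := ((gr_Fp hδ).re_integrable (by norm_num)).integrableOn (s := Ioi (0 : ℝ))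
  have iM := ((gr_Fm hδ).re_integrable (by norm_num)).integrableOn (s := Ioi (0 : ℝ))
  have jO : ∀ a b, IntegrableOn (fun k : ℝ => ((Fp δ k).re + (Fm δ k).re) / 2 / Real.pi *
      (ct (g a) k * ct (f b) k + st (g a) k * st (f b) k)) (Ioi 0) := fun a b =>
    (((iP.add iM).div_const 2).div_const Real.pi).mul_bdd (c := 2 * ((∫ t, |g a t|) * ∫ t, |f b t|))
      (cc a b).aestronglyMeasurable (ae_of_all _ (bdd a b))
  have jX : ∀ a b, IntegrableOn (fun k : ℝ => ((Fp δ k).re - (Fm δ k).re) / 2 / Real.pi *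
      (ct (g a) k * ct (f b) k + st (g a) k * st (f b) k)) (Ioi 0) := fun a b =>
    (((iP.sub iM).div_const 2).div_const Real.pi).mul_bdd (c := 2 * ((∫ t, |g a t|) * ∫ t, |f b t|))
      (cc a b).aestronglyMeasurable (ae_of_all _ (bdd a b))
  have e1 : ∀ a, ∫ t, Ad δ g a t * f a t = (∫ t, cv (dO (Fp δ) (Fm δ)) (g a) t * f a t) +
      ∫ t, cv (dX (Fp δ) (Fm δ)) (g !a) t * f a t := by
    intro a
    rw [← integral_add (i1 a a) (i2 (!a) a)]
    congr 1
    funext t
    unfold Ad
    ring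
  unfold prs
  rw [e1, e1, eO, eO, eX, eX, ← integral_add (jO true true) (jX (!true) true),
    ← integral_add (jO false false) (jX (!false) false), ← integral_add
      (f := fun k : ℝ => ((Fp δ k).re + (Fm δ k).re) / 2 / Real.pi *
        (ct (g true) k * ct (f true) k + st (g true) k * st (f true) k) + ((Fp δ k).re - (Fm δ k).re) / 2 / Real.pi *
        (ct (g !true) k * ct (f true) k + st (g !true) k * st (f true) k))
      (g := fun k : ℝ => ((Fp δ k).re + (Fm δ k).re) / 2 / Real.pi *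
        (ct (g false) k * ct (f false) k + st (g false) k * st (f false) k) + ((Fp δ k).re - (Fm δ k).re) / 2 / Real.pi *
        (ct (g !false) k * ct (f false) k + st (g !false) k * st (f false) k))
      ((jO true true).add (jX (!true) true)) ((jO false false).add (jX (!false) false))]
  unfold Qs
  refine setIntegral_congr_fun measurableSet_Ioi fun k hk => ?_
  have hk : 0 < k := hk
  have hU := NUMF.Uh_pos hk.ne'
  have hL := NUMF.Lh_pos hk.ne'
  have e2 : (Fp δ k).re = ge δ k * mp k := by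
    have := Fp_re (δ := δ) hk
    unfold mp
    field_simp
    linarith
  have e3 : (Fm δ k).re = ge δ k * mm k := by
    have := Fm_re (δ := δ) hk
    unfold mm
    have h5 : Uh k + 2 * Lh k ≠ 0 := by positivity
    field_simp
    linarith
  simp only [Bool.not_true, Bool.not_false]
  rw [e2, e3]
  unfold Qi PP MM ge
  field_simp
  ring

/-! ### the energy of the straight pair -/

/-- own part of the energy -/
def EV (ν ν' : Bool → ℝ → ℝ) : ℝ := prs ν fun a t => ∫ u, ν' a u * V (t - u)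

/-- the `log g` part of the energy -/
def EL (ν ν' : Bool → ℝ → ℝ) : ℝ :=
  ∫ t, (ν true t - ν false t) * lgp (fun u => ν' true u - ν' false u) t

/-- **energy of neutral densities on the straight pair** -/
def EU (ν ν' : Bool → ℝ → ℝ) : ℝ := EV ν ν' + EL ν ν'

lemma cv_comm' (W f : ℝ → ℝ) (t : ℝ) : ∫ s, f s * W (t - s) = cv f W t := by
  unfold cv
  rw [← integral_sub_left_eq_self (fun s => f s * W (t - s)) volume t]
  congr 1
  funext u
  rw [show t - (t - u) = u by ring]

/-- potential of the charge of a response -/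
lemma lgp_Ad (hδ : 0 < δ) (hg : ∀ a, Nd M (g a)) (t : ℝ) :
    lgp (fun u => Ad δ g true u - Ad δ g false u) t =
      cv (lgp (dT (Fm δ))) (fun u => g true u - g false u) t := by
  obtain ⟨K, hK, h1, h2, h3⟩ := kd_dO hδ
  have e : (fun u => Ad δ g true u - Ad δ g false u) =
      cv (dT (Fm δ)) (fun u => g true u - g false u) := funext (Ad_tau hδ hg)
  rw [e, lgp_cv h3 ((hg true).sub (hg false)) t]
  unfold cv
  congr 1
  funext u
  ring

lemma lgp_Ad_cont (hδ : 0 < δ) (hg : ∀ a, Nd M (g a)) :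
    Continuous (lgp (fun u => Ad δ g true u - Ad δ g false u)) := by
  have hd := (hg true).sub (hg false)
  obtain ⟨B, hB⟩ := lgpT_le hδ
  have e : lgp (fun u => Ad δ g true u - Ad δ g false u) =
      cv (fun u => g true u - g false u) (lgp (dT (Fm δ))) := by
    funext t
    rw [lgp_Ad hδ hg, ← cv_comm']
    unfold cv
    congr 1
    funext u
    ring
  rw [e]
  exact NUC37.cv_cont hd.int (lgpT_cont hδ) hB

lemma lgp_Ad_bd (hδ : 0 < δ) (hg : ∀ a, Nd M (g a)) :
    ∃ B : ℝ, ∀ t, |lgp (fun u => Ad δ g true u - Ad δ g false u) t| ≤ B := by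
  have hd := (hg true).sub (hg false)
  obtain ⟨B, hB⟩ := lgpT_le hδ
  refine ⟨(∫ t, |g true t - g false t|) * B, fun t => ?_⟩
  have e : lgp (fun u => Ad δ g true u - Ad δ g false u) t =
      cv (fun u => g true u - g false u) (lgp (dT (Fm δ))) t := by
    rw [lgp_Ad hδ hg, ← cv_comm']
    unfold cv
    congr 1
    funext u
    ring
  rw [e]
  exact NUC37.cv_bound hd.int hB t

lemma V_pot_cont {ν : ℝ → ℝ} (hν : Nd M ν) : Continuous fun t => ∫ u, ν u * V (t - u) := by
  have e : (fun t => ∫ u, ν u * V (t - u)) = cv V ν := by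
    funext t
    unfold cv
    congr 1
    funext u
    ring
  rw [e]
  exact NUC37.cv_cont V_integrable hν.cont hν.le

lemma V_pot_le {ν : ℝ → ℝ} (hν : Nd M ν) (t : ℝ) : |∫ u, ν u * V (t - u)| ≤ (∫ t, |V t|) * M := by
  have e : (∫ u, ν u * V (t - u)) = cv V ν t := by
    unfold cv
    congr 1
    funext u
    ring
  rw [e]
  exact NUC37.cv_bound V_integrable hν.le t

/-- energy against a response -/
theorem EU_right (hδ : 0 < δ) {ν : Bool → ℝ → ℝ} (hν : ∀ a, Nd M' (ν a)) (hg : ∀ a, Nd M (g a)) :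
    EU ν (Ad δ g) = prs ν fun a => cv (gau δ) (g a) := by
  obtain ⟨B, hB⟩ := lgp_Ad_bd hδ hg
  have hc := lgp_Ad_cont hδ hg
  obtain ⟨K, hK⟩ := gau_kd hδ
  have iL : ∀ a, Integrable fun t => ν a t * lgp (fun u => Ad δ g true u - Ad δ g false u) t := fun a =>
    (hν a).int.mul_bdd (c := B) hc.aestronglyMeasurable (ae_of_all _ hB)
  have iG : ∀ a, Integrable fun t => ν a t * cv (gau δ) (g a) t := fun a =>
    (hν a).int.mul_bdd (c := K * M * cE) (cv_nd hK (hg a)).cont.aestronglyMeasurable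
      (ae_of_all _ (cv_nd hK (hg a)).le)
  have e1 : ∀ a, ∫ t, ν a t * ∫ u, Ad δ g a u * V (t - u) = (∫ t, ν a t * cv (gau δ) (g a) t) -
      sg a * ∫ t, ν a t * lgp (fun u => Ad δ g true u - Ad δ g false u) t := by
    intro a
    rw [← integral_const_mul, ← integral_sub (iG a) ((iL a).const_mul _)]
    congr 1
    funext t
    rw [← Ad_eq hδ hg]
    ring
  have e2 : ∫ t, (ν true t - ν false t) * lgp (fun u => Ad δ g true u - Ad δ g false u) t =
      (∫ t, ν true t * lgp (fun u => Ad δ g true u - Ad δ g false u) t) -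
      ∫ t, ν false t * lgp (fun u => Ad δ g true u - Ad δ g false u) t := by
    rw [← integral_sub (iL true) (iL false)]
    congr 1
    funext t
    ring
  unfold EU EV EL prs
  simp only
  rw [e1, e1, e2]
  unfold sg
  simp only [if_true]
  norm_num
  ring

lemma ct_gau (hδ : 0 < δ) (k : ℝ) : ct (gau δ) k = ge δ k := by
  unfold ct gau
  rw [(gr_gs hδ 1).inv_forward (by norm_num) k, gs_real, Complex.ofReal_re]
  rfl

/-- **energy of two responses** -/
theorem EU_Ad (hδ : 0 < δ) (hδ' : 0 < δ') (hg : ∀ a, Nd M (g a)) (hf : ∀ a, Nd M' (f a)) :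
    EU (Ad δ g) (Ad δ' f) = Qs (δ ^ 2 + δ' ^ 2) g f := by
  obtain ⟨K, hK, H⟩ := Ad_nd hδ
  obtain ⟨K', hK'⟩ := gau_kd hδ'
  rw [EU_right hδ' (H hg) hf, pair_Ad hδ hg fun a => cv_nd hK' (hf a)]
  unfold Qs
  refine setIntegral_congr_fun measurableSet_Ioi fun k _ => ?_
  have he : ∀ t, gau δ' (-t) = gau δ' t := fun t => inv_neg' _ t
  have e1 : ∀ a, ct (cv (gau δ') (f a)) k = ge δ' k * ct (f a) k := fun a => by
    rw [ct_cv hK' he (hf a), ct_gau hδ']
  have e2 : ∀ a, st (cv (gau δ') (f a)) k = ge δ' k * st (f a) k := fun a => by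
    rw [st_cv hK' he (hf a), ct_gau hδ']
  have e3 : Real.exp (-((δ ^ 2 + δ' ^ 2) / 2) * (k * k)) = Real.exp (-(δ ^ 2 / 2) * (k * k)) * ge δ' k := by
    unfold ge
    rw [← Real.exp_add]
    congr 1
    ring
  have e4 : Qi g (fun a => cv (gau δ') (f a)) k = ge δ' k * Qi g f k := by
    unfold Qi PP MM
    rw [e1, e1, e2, e2]
    ring
  rw [e3, e4]
  ring

/-- the `log g` part of a response is positive -/
theorem EL_pos (hδ : 0 < δ) (hg : ∀ a, Nd M (g a)) : 0 ≤ EL (Ad δ g) (Ad δ g) := by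
  have hpi := Real.pi_pos
  obtain ⟨K, hK, h1, h2, h3⟩ := kd_dO hδ
  have hc := chg_gau hδ
  have hd := (hg true).sub (hg false)
  have iP := ((gr_Fp hδ).re_integrable (by norm_num)).integrableOn (s := Ioi (0 : ℝ))
  have iM := ((gr_Fm hδ).re_integrable (by norm_num)).integrableOn (s := Ioi (0 : ℝ))
  have hE : ∀ k : ℝ, 0 < k → Uh k * ((Fp δ k).re - (Fm δ k).re) / 2 = Lh k * (Fm δ k).re := by
    intro k hk
    have g1 := Fp_re (δ := δ) hk
    have g2 := Fm_re (δ := δ) hk
    linear_combination (1 / 2) * g1 - (1 / 2) * g2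
  have iW : IntegrableOn (fun k : ℝ => ct V k * (((1 / 2 : ℝ) : ℂ) * (Fp δ k - Fm δ k)).re) (Ioi 0) := by
    have i1 := (hc.gX.re_integrable hc.neg).integrableOn (s := Ioi (0 : ℝ))
    exact i1.bdd_mul (c := ∫ t, |V t|) (ct_cont V_integrable).aestronglyMeasurable
      (ae_of_all _ (ct_le V_integrable))
  have hW : ∀ x, lgp (dT (Fm δ)) x = ∫ k in Ioi (0 : ℝ), 2 * Real.cos (x * k) *
      (ct V k * (((1 / 2 : ℝ) : ℂ) * (Fp δ k - Fm δ k)).re / (2 * Real.pi)) := by
    intro x
    rw [lgpT' hδ, ← V_cv_eq]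
    exact hc.gX.conv_inv hc.neg V_integrable V_even x
  have eA : EL (Ad δ g) (Ad δ g) = ∫ t, cv (lgp (dT (Fm δ))) (fun u => g true u - g false u) t *
      cv (dT (Fm δ)) (fun u => g true u - g false u) t := by
    unfold EL
    congr 1
    funext t
    rw [lgp_Ad hδ hg, Ad_tau hδ hg]
    ring
  rw [eA, pair_rep iW hW hd.int (cv_nd h3 hd).int]
  refine setIntegral_nonneg measurableSet_Ioi fun k hk => ?_
  have hk : 0 < k := hk
  have he : ∀ t, dT (Fm δ) (-t) = dT (Fm δ) t := fun t => inv_neg' _ t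
  have cT : ct (dT (Fm δ)) k = (Fm δ k).re := (gr_Fm hδ).inv_forward (by norm_num) k
  have cV : ct V k = Uh k := NUC37.CT_V.ft k hk
  rw [ct_cv h3 he hd, st_cv h3 he hd, cT, cV, re_half_sub]
  have e5 : Uh k * (((Fp δ k).re - (Fm δ k).re) / 2) = Lh k * (Fm δ k).re := by
    rw [← hE k hk]
    ring
  rw [e5]
  have hL := NUMF.Lh_pos hk.ne'
  have e6 : Lh k * (Fm δ k).re / Real.pi * (ct (fun u => g true u - g false u) k *
      ((Fm δ k).re * ct (fun u => g true u - g false u) k) + st (fun u => g true u - g false u) k *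
      ((Fm δ k).re * st (fun u => g true u - g false u) k)) = Lh k / Real.pi *
      (((Fm δ k).re * ct (fun u => g true u - g false u) k) ^ 2 +
        ((Fm δ k).re * st (fun u => g true u - g false u) k) ^ 2) := by
    ring
  rw [e6]
  positivity

end

end PLT.Tri
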