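import Pool.Agent.PLT.TriN

/-!
# The iteration for the trial densities (helper8, row B1d)

* `Cs ε φ φ1`: small in `C¹` with the weight `exp (-|t| / 2)`;
* `St`: state of the iteration; `st_step`, `st_iter`;
* **`solve`**: for every `ε > 0` there are `A`, `δ` such that every datum of the class has `q`, `g`, `φ` with
  `f - sg lgp τ + ks q = V (q + Ad δ g) + φ`, `Qs s g g ≤ ε` for all `s`.
-/

set_option autoImplicit false

open MeasureTheory Set Filter Topology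

namespace PLT.Tri

noncomputable section

open NUMF (l l_pos V Lh Uh)
open NUC43
open NUC37 (cv)

variable {C M M' δ th A β ε : ℝ} {ks k1 k2 : Bool → Bool → ℝ → ℝ → ℝ} {ν ν' : Bool → ℝ → ℝ}

/-- small remainders -/
structure Cs (ε : ℝ) (φ φ1 : ℝ → ℝ) : Prop where
  d : ∀ t, HasDerivAt φ (φ1 t) t
  c : Continuous φ1
  b0 : ∀ t, |φ t| ≤ ε * Real.exp (-(1 / 2) * |t|)
  b1 : ∀ t, |φ1 t| ≤ ε * Real.exp (-(1 / 2) * |t|)

lemma Cs.zero : Cs 0 (fun _ => 0) (fun _ => 0) :=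
  ⟨fun t => hasDerivAt_const t 0, continuous_const, fun t => by simp, fun t => by simp⟩

lemma Cs.mono {ε' : ℝ} {φ φ1 : ℝ → ℝ} (h : Cs ε φ φ1) (he : ε ≤ ε') : Cs ε' φ φ1 :=
  ⟨h.d, h.c, fun t => (h.b0 t).trans (mul_le_mul_of_nonneg_right he (Real.exp_pos _).le),
    fun t => (h.b1 t).trans (mul_le_mul_of_nonneg_right he (Real.exp_pos _).le)⟩

lemma Cs.add {ε' : ℝ} {φ φ1 ψ ψ1 : ℝ → ℝ} (h : Cs ε φ φ1) (h' : Cs ε' ψ ψ1) :
    Cs (ε + ε') (fun t => φ t + ψ t) (fun t => φ1 t + ψ1 t) :=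
  ⟨fun t => (h.d t).add (h'.d t), h.c.add h'.c, fun t => by
    rw [add_mul]
    exact (abs_add_le _ _).trans (add_le_add (h.b0 t) (h'.b0 t)), fun t => by
    rw [add_mul]
    exact (abs_add_le _ _).trans (add_le_add (h.b1 t) (h'.b1 t))⟩

/-- the field equation -/
def FEq (ks : Bool → Bool → ℝ → ℝ → ℝ) (f q p φ : Bool → ℝ → ℝ) : Prop :=
  ∀ a t, f a t - sg a * lgp (fun u => p true u - p false u) t + kop ks q a t =
    (∫ u, p a u * V (t - u)) + φ a t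

/-- state of the iteration -/
def St (ks : Bool → Bool → ℝ → ℝ → ℝ) (f : Bool → ℝ → ℝ) (A β ε : ℝ) : Prop :=
  ∃ q R R1 R2 φ φ1 : Bool → ℝ → ℝ, (∀ a, Kd A (q a)) ∧ (∫ t, (q true t - q false t)) = 0 ∧
    (∀ a, W2 A (R a) (R1 a) (R2 a)) ∧ (∀ a, Cs ε (φ a) (φ1 a)) ∧
    FEq ks f q q (fun a t => φ a t + R a t) ∧ ∀ s, 0 < s → Qs s R R ≤ β

lemma lgp_in {τ : ℝ → ℝ} (h : Nd M τ) (t : ℝ) : Integrable fun s => τ s * Real.log (NUMF.g (t - s)) := by
  have h1 := h.wint.abs.const_mul ((|Real.log (NUMF.g 0)| + 2) * (1 + |t|))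
  have hc := h.cont
  have hl := logg_cont
  refine h1.mono' (Continuous.aestronglyMeasurable (hc.mul (hl.comp (by fun_prop)))) (ae_of_all _ fun s => ?_)
  rw [norm_mul, Real.norm_eq_abs, Real.norm_eq_abs, abs_mul, abs_of_nonneg (by positivity : 0 ≤ 1 + |s|)]
  have h2 := logg_lin (t - s)
  have h3 : 1 + |t - s| ≤ (1 + |t|) * (1 + |s|) := by
    have := abs_sub t s
    nlinarith [abs_nonneg t, abs_nonneg s]
  have h4 : 0 ≤ |Real.log (NUMF.g 0)| + 2 := by positivity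
  calc |τ s| * |Real.log (NUMF.g (t - s))| ≤ |τ s| * ((|Real.log (NUMF.g 0)| + 2) * ((1 + |t|) * (1 + |s|))) :=
        mul_le_mul_of_nonneg_left (h2.trans (mul_le_mul_of_nonneg_left h3 h4)) (abs_nonneg _)
    _ = _ := by ring

lemma lgp_add {τ τ' : ℝ → ℝ} (h : Nd M τ) (h' : Nd M' τ') (t : ℝ) :
    lgp (fun u => τ u + τ' u) t = lgp τ t + lgp τ' t := by
  unfold lgp
  rw [← integral_add (lgp_in h t) (lgp_in h' t)]
  congr 1
  funext s
  ring

/-- the smoothing of a cut potential changes it little -/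
theorem smooth_step (A ε : ℝ) (hA : 0 ≤ A) (hε : 0 < ε) : ∃ L δ A' : ℝ, 0 < L ∧ 0 < δ ∧ δ ≤ 1 ∧ 0 ≤ A' ∧
    ∀ R R1 R2 : Bool → ℝ → ℝ, (∀ a, W2 A (R a) (R1 a) (R2 a)) → ∃ g ψ ψ1 : Bool → ℝ → ℝ,
      (∀ a, Nd A' (g a)) ∧ (∀ a t, L < |t| → g a t = 0) ∧ Hq A' g ∧
      (∀ a, Cs ε (ψ a) (ψ1 a)) ∧ (∀ a t, R a t = cv (gau δ) (g a) t + ψ a t) ∧
      ∀ s, 0 < s → ∀ β, Qs s R R ≤ β → 0 ≤ β → Qs s g g ≤ β + ε * (1 + β) := by
  obtain ⟨D, hD, hcut⟩ := cut
  obtain ⟨Cm, hCm, hm⟩ := moll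
  have hH := cH_pos
  have hcQ : 0 ≤ cQ := by
    have := l_pos
    have := Real.pi_pos
    unfold cQ
    refine mul_nonneg (by positivity) (setIntegral_nonneg measurableSet_Ioi fun k _ => by positivity)
  -- choice of L
  obtain ⟨E0, hE0⟩ : ∃ E0, E0 = min (ε / 2) (ε / ((1 + 1 / ε) * (cQ * (4 * cH ^ 2)) + 1)) := ⟨_, rfl⟩
  have hden : 0 < (1 + 1 / ε) * (cQ * (4 * cH ^ 2)) + 1 := by positivity
  have hE0p : 0 < E0 := by
    rw [hE0]
    exact lt_min (by positivity) (by positivity)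
  obtain ⟨E, hE⟩ : ∃ E, E = min E0 1 := ⟨_, rfl⟩
  have hEp : 0 < E := by rw [hE]; exact lt_min hE0p one_pos
  obtain ⟨L, hL0, hL⟩ : ∃ L : ℝ, 0 < L ∧ D * A * Real.exp (-(L / 2)) ≤ E := by
    have h1 : Tendsto (fun L : ℝ => D * A * Real.exp (-(L / 2))) atTop (𝓝 (D * A * 0)) := by
      refine Tendsto.const_mul _ (Real.tendsto_exp_atBot.comp ?_)
      exact tendsto_neg_atTop_atBot.comp (tendsto_id.atTop_div_const (by norm_num))
    rw [mul_zero] at h1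
    obtain ⟨L, h2, h3⟩ := ((h1.eventually_lt_const hEp).and (eventually_gt_atTop 0)).exists
    exact ⟨L, h3, h2.le⟩
  obtain ⟨δ, hδ0, hδ1, hδ⟩ : ∃ δ : ℝ, 0 < δ ∧ δ ≤ 1 ∧ Cm * δ * (D * A) ≤ ε / 2 := by
    refine ⟨min 1 (ε / 2 / (Cm * (D * A) + 1)), lt_min one_pos (by positivity), min_le_left _ _, ?_⟩
    have h1 : min 1 (ε / 2 / (Cm * (D * A) + 1)) ≤ ε / 2 / (Cm * (D * A) + 1) := min_le_right _ _
    have h2 : 0 < Cm * (D * A) + 1 := by positivity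
    have h3 : 0 ≤ Cm * (D * A) := by positivity
    calc Cm * min 1 (ε / 2 / (Cm * (D * A) + 1)) * (D * A) = (Cm * (D * A)) * min 1 (ε / 2 / (Cm * (D * A) + 1)) := by
          ring
      _ ≤ (Cm * (D * A)) * (ε / 2 / (Cm * (D * A) + 1)) := mul_le_mul_of_nonneg_left h1 h3
      _ ≤ (Cm * (D * A) + 1) * (ε / 2 / (Cm * (D * A) + 1)) :=
          mul_le_mul_of_nonneg_right (by linarith) (by positivity)
      _ = ε / 2 := by field_simp
  refine ⟨L + 1, δ, D * A + 2 * (D * A * cH), by linarith, hδ0, hδ1, by positivity, fun R R1 R2 hR => ?_⟩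
  choose g g1 g2 hg hgs hgr using fun a => hcut (L := L) (hR a)
  have hgn : ∀ a, Nd (D * A) (g a) := fun a => (hg a).nd
  obtain ⟨K, hK⟩ := gau_kd hδ0
  have hDA : 0 ≤ D * A := by positivity
  refine ⟨g, fun a t => (R a t - g a t) + (g a t - cv (gau δ) (g a) t),
    fun a t => (R1 a t - g1 a t) + (g1 a t - cv (gau δ) (g1 a) t), fun a => (hgn a).mono (by
      have : 0 ≤ 2 * (D * A * cH) := by positivity
      linarith), hgs, (wh_hq fun a => (hg a).wh).mono (by linarith), fun a => ?_, fun a t => by ring,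
    fun s hs β hβ hβ0 => ?_⟩
  · have h1 : Cs (ε / 2) (fun t => R a t - g a t) (fun t => R1 a t - g1 a t) := by
      have h2 := hgr a
      have h3 : D * A * Real.exp (-(L / 2)) ≤ ε / 2 := hL.trans ((by rw [hE]; exact min_le_left _ _ : E ≤ E0).trans
        (by rw [hE0]; exact min_le_left _ _))
      exact ⟨h2.d1, h2.c1, fun t => (h2.b0 t).trans (mul_le_mul_of_nonneg_right h3 (Real.exp_pos _).le),
        fun t => (h2.b1 t).trans (mul_le_mul_of_nonneg_right h3 (Real.exp_pos _).le)⟩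
    have h4 : Cs (ε / 2) (fun t => g a t - cv (gau δ) (g a) t) (fun t => g1 a t - cv (gau δ) (g1 a) t) := by
      refine ⟨fun t => ((hg a).d1 t).sub (cv_deriv hK (hgn a) (hg a).d1 (hg a).nd1 t),
        (hg a).nd1.cont.sub (cv_cont' hK (hg a).nd1), fun t => ?_, fun t => ?_⟩
      · have h5 := hm hδ0 hδ1 (hgn a) (hg a).d1 (hg a).b1 t
        have h6 : Cm * δ * (D * A * Real.exp (-|t|)) = Cm * δ * (D * A) * Real.exp (-|t|) := by ring
        rw [h6] at h5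
        exact h5.trans (mul_le_mul hδ (exp_half t) (Real.exp_pos _).le (by positivity))
      · have h5 := hm hδ0 hδ1 (hg a).nd1 (hg a).d2 (hg a).b2 t
        have h6 : Cm * δ * (D * A * Real.exp (-|t|)) = Cm * δ * (D * A) * Real.exp (-|t|) := by ring
        rw [h6] at h5
        exact h5.trans (mul_le_mul hδ (exp_half t) (Real.exp_pos _).le (by positivity))
    have h7 := h1.add h4
    exact h7.mono (by linarith)
  · have hqR : Hq (2 * (A * cH)) R := wh_hq fun a => (hR a).wh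
    have hqr : Hq (2 * (D * A * Real.exp (-(L / 2)) * cH)) (fun a t => R a t - g a t) := wh_hq hgr
    have h1 := Qs_split (s := s) hs.le hε hqR hqr
    have e1 : (fun (a : Bool) (t : ℝ) => R a t - (R a t - g a t)) = g := by
      funext a t
      ring
    rw [e1] at h1
    have h2 := (le_abs_self _).trans (Qs_le hs.le hqr hqr)
    have h3 : cQ * (2 * (D * A * Real.exp (-(L / 2)) * cH) * (2 * (D * A * Real.exp (-(L / 2)) * cH))) =
        cQ * (4 * cH ^ 2) * (D * A * Real.exp (-(L / 2))) ^ 2 := by ring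
    rw [h3] at h2
    have h4 : (D * A * Real.exp (-(L / 2))) ^ 2 ≤ E0 := by
      have g1 : 0 ≤ D * A * Real.exp (-(L / 2)) := by positivity
      have g2 : E ≤ 1 := by rw [hE]; exact min_le_right _ _
      have g3 : E ≤ E0 := by rw [hE]; exact min_le_left _ _
      nlinarith
    have h5 : (1 + 1 / ε) * (cQ * (4 * cH ^ 2)) * E0 ≤ ε := by
      have g1 : E0 ≤ ε / ((1 + 1 / ε) * (cQ * (4 * cH ^ 2)) + 1) := by rw [hE0]; exact min_le_right _ _
      rw [le_div_iff₀ hden] at g1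
      nlinarith
    have h6 : (1 + 1 / ε) * Qs s (fun a t => R a t - g a t) (fun a t => R a t - g a t) ≤ ε := by
      calc _ ≤ (1 + 1 / ε) * (cQ * (4 * cH ^ 2) * (D * A * Real.exp (-(L / 2))) ^ 2) := by gcongr
        _ ≤ (1 + 1 / ε) * (cQ * (4 * cH ^ 2) * E0) := by gcongr
        _ = (1 + 1 / ε) * (cQ * (4 * cH ^ 2)) * E0 := by ring
        _ ≤ ε := h5
    have h7 : (1 + ε) * Qs s R R ≤ (1 + ε) * β := mul_le_mul_of_nonneg_left hβ (by linarith)
    linarith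

lemma Kd.add {K K' : ℝ} {n n' : ℝ → ℝ} (h : Kd K n) (h' : Kd K' n') : Kd (K + K') (fun t => n t + n' t) :=
  ⟨h.cont.add h'.cont, fun t => by
    rw [add_mul]
    exact (abs_add_le _ _).trans (add_le_add (h.bd t) (h'.bd t))⟩

lemma V_add {n n' : ℝ → ℝ} (h : Nd M n) (h' : Nd M' n') (t : ℝ) :
    ∫ u, (n u + n' u) * V (t - u) = (∫ u, n u * V (t - u)) + ∫ u, n' u * V (t - u) := by
  rw [← integral_add (V_in' h t) (V_in' h' t)]
  congr 1
  funext u
  ring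

/-- adding a response to the field equation -/
theorem feq_add (hδ : 0 < δ) {f q R g ψ φ : Bool → ℝ → ℝ} (hq : ∀ a, Nd M (q a)) (hg : ∀ a, Nd M' (g a))
    (hR : ∀ a t, R a t = cv (gau δ) (g a) t + ψ a t) (h : FEq ks f q q (fun a t => φ a t + R a t)) :
    FEq ks f q (fun a t => q a t + Ad δ g a t) (fun a t => φ a t + ψ a t) := by
  intro a t
  obtain ⟨K, hK, H⟩ := Ad_nd hδ
  have hν := H hg
  have h1 := h a t
  have e1 : (fun u => (q true u + Ad δ g true u) - (q false u + Ad δ g false u)) =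
      fun u => (q true u - q false u) + (Ad δ g true u - Ad δ g false u) := by
    funext u
    ring
  have e2 := lgp_add ((hq true).sub (hq false)) ((hν true).sub (hν false)) t
  have e3 := V_add (hq a) (hν a) t
  have e4 := Ad_eq hδ hg a t
  simp only at h1 ⊢
  rw [e1, e2, e3, ← e4]
  rw [hR a t] at h1
  linarith

lemma feq_kop (h : KOk C ks k1 k2) {f q p φ ν : Bool → ℝ → ℝ} (hq : ∀ a, Nd M (q a)) (hν : ∀ a, Nd M' (ν a))
    (hf : FEq ks f q p φ) :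
    FEq ks f (fun a t => q a t + ν a t) p (fun a t => φ a t + kop ks ν a t) := by
  intro a t
  have h1 := hf a t
  have h2 := kop_add h hq hν 1 a t
  simp only [one_mul] at h2
  simp only
  rw [h2]
  linarith

/-- **one step** -/
theorem st_step {Ck : ℝ} (hth : 0 < th) (hth1 : th ≤ 1) (hCk : 0 ≤ Ck) (A β ε0 ε1 κ : ℝ) (hA : 0 ≤ A) (hβ : 0 ≤ β)
    (hε : ε0 < ε1) (hκ : 0 < κ) : ∃ A' : ℝ, 0 ≤ A' ∧ ∀ (ks k1 k2 : Bool → Bool → ℝ → ℝ → ℝ) (f : Bool → ℝ → ℝ),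
      KOk Ck ks k1 k2 → O1 th ks → St ks f A β ε0 → St ks f A' (th ^ 2 * β + κ) ε1 := by
  obtain ⟨e, he⟩ : ∃ e, e = min (ε1 - ε0) (κ / (1 + β)) := ⟨_, rfl⟩
  have he0 : 0 < e := by
    rw [he]
    exact lt_min (by linarith) (by positivity)
  obtain ⟨L, δ, B, hL, hδ, hδ1, hB, H⟩ := smooth_step A e hA he0
  obtain ⟨K1, hK1, H1⟩ := Ad_nd hδ
  obtain ⟨K2, hK2, H2⟩ := Ad_cpt hδ L
  have hcE := cH_pos
  refine ⟨A + K2 * B + 2 * Ck * cH * (K1 * B), by positivity, fun ks k1 k2 f hk hO hS => ?_⟩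
  obtain ⟨q, R, R1, R2, φ, φ1, hq, hq0, hR, hφ, hf, hQ⟩ := hS
  obtain ⟨g, ψ, ψ1, hg, hgs, hgq, hψ, hRg, hQg⟩ := H R R1 R2 hR
  have hν := H1 hg
  have hqn : ∀ a, Nd A (q a) := fun a => (hq a).nd
  have hw := kop_w2 hk hν
  have hν0 := Ad_zero hδ hg
  have hB1 : 0 ≤ K2 * B := by positivity
  have hB2 : 0 ≤ 2 * Ck * cH * (K1 * B) := by positivity
  refine ⟨fun a t => q a t + Ad δ g a t, kop ks (Ad δ g), kop k1 (Ad δ g), kop k2 (Ad δ g),
    fun a t => φ a t + ψ a t, fun a t => φ1 a t + ψ1 a t, fun a => ?_, ?_, fun a => ?_, fun a => ?_, ?_,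
    fun s hs => ?_⟩
  · have h1 : Kd (K2 * B) (Ad δ g a) := ⟨(hν a).cont, H2 hg hgs a⟩
    exact ((hq a).add h1).mono (by linarith)
  · have e1 : ∀ t, (q true t + Ad δ g true t) - (q false t + Ad δ g false t) =
        (q true t - q false t) + (Ad δ g true t - Ad δ g false t) := fun t => by ring
    simp_rw [e1]
    have i1 : Integrable fun t => q true t - q false t := (hqn true).int.sub (hqn false).int
    have i2 : Integrable fun t => Ad δ g true t - Ad δ g false t := (hν true).int.sub (hν false).int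
    rw [integral_add i1 i2, hq0, hν0, add_zero]
  · exact (hw a).mono (by linarith)
  · exact ((hφ a).add (hψ a)).mono (by
      have : e ≤ ε1 - ε0 := by rw [he]; exact min_le_left _ _
      linarith)
  · exact feq_kop hk hqn hν (feq_add hδ hqn hg hRg hf)
  · have h1 := contr hth hk hO hδ hg hs
    have h2 := hQg (2 * δ ^ 2) (by positivity) β (hQ _ (by positivity)) hβ
    have h3 : e * (1 + β) ≤ κ := by
      have : e ≤ κ / (1 + β) := by rw [he]; exact min_le_right _ _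
      rw [le_div_iff₀ (by positivity)] at this
      exact this
    have h4 : th ^ 2 ≤ 1 := by nlinarith
    calc _ ≤ th ^ 2 * (β + κ) := h1.trans (mul_le_mul_of_nonneg_left (by linarith) (by positivity))
      _ ≤ th ^ 2 * β + κ := by nlinarith

lemma St.mono {f : Bool → ℝ → ℝ} {A β β' ε : ℝ} (h : St ks f A β ε) (hb : β ≤ β') : St ks f A β' ε := by
  obtain ⟨q, R, R1, R2, φ, φ1, hq, hq0, hR, hφ, hf, hQ⟩ := h
  exact ⟨q, R, R1, R2, φ, φ1, hq, hq0, hR, hφ, hf, fun s hs => (hQ s hs).trans hb⟩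

lemma W2.nonneg {f f1 f2 : ℝ → ℝ} (h : W2 M f f1 f2) : 0 ≤ M := h.nd.M0

/-- the first state -/
theorem st_zero {f f1 f2 : Bool → ℝ → ℝ} (hf : ∀ a, W2 M (f a) (f1 a) (f2 a)) :
    St ks f M (cQ * (2 * (M * cH) * (2 * (M * cH)))) 0 := by
  have hM := (hf true).nonneg
  have h0 : ∀ t, lgp (fun _ : ℝ => (0 : ℝ) - 0) t = 0 := by
    intro t
    unfold lgp
    simp
  refine ⟨fun _ _ => 0, f, f1, f2, fun _ _ => 0, fun _ _ => 0,
    fun _ => ⟨continuous_const, fun t => by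
      rw [abs_zero]
      positivity⟩, by simp, hf, fun _ => Cs.zero, fun a t => ?_, fun s hs => ?_⟩
  · simp only
    rw [h0]
    unfold kop
    simp
  · exact (le_abs_self _).trans (Qs_le hs.le (wh_hq fun a => (hf a).wh) (wh_hq fun a => (hf a).wh))

/-- **the iteration** -/
theorem st_iter {Ck : ℝ} (hth : 0 < th) (hth1 : th ≤ 1) (hCk : 0 ≤ Ck) (hM : 0 ≤ M) (n : ℕ) :
    ∀ κ ε : ℝ, 0 < κ → 0 < ε → ∃ A : ℝ, 0 ≤ A ∧ ∀ (ks k1 k2 : Bool → Bool → ℝ → ℝ → ℝ) (f f1 f2 : Bool → ℝ → ℝ),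
      KOk Ck ks k1 k2 → O1 th ks → (∀ a, W2 M (f a) (f1 a) (f2 a)) →
      St ks f A (th ^ (2 * n) * (cQ * (2 * (M * cH) * (2 * (M * cH)))) + κ) ε := by
  have hH := cH_pos
  have hcQ : 0 ≤ cQ := by
    have := l_pos
    have := Real.pi_pos
    unfold cQ
    refine mul_nonneg (by positivity) (setIntegral_nonneg measurableSet_Ioi fun k _ => by positivity)
  obtain ⟨β0, hβ0⟩ : ∃ β0, β0 = cQ * (2 * (M * cH) * (2 * (M * cH))) := ⟨_, rfl⟩
  have hβ0p : 0 ≤ β0 := by rw [hβ0]; positivity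
  rw [← hβ0]
  induction n with
  | zero =>
    intro κ ε hκ hε
    refine ⟨M, hM, fun ks k1 k2 f f1 f2 _ _ hf => ?_⟩
    have h1 := st_zero (ks := ks) hf
    rw [← hβ0] at h1
    obtain ⟨q, R, R1, R2, φ, φ1, hq, hq0, hR, hφ, hf, hQ⟩ := h1
    refine ⟨q, R, R1, R2, φ, φ1, hq, hq0, hR, fun a => (hφ a).mono hε.le, hf, fun s hs => (hQ s hs).trans ?_⟩
    rw [Nat.mul_zero, pow_zero, one_mul]
    linarith
  | succ n ih =>
    intro κ ε hκ hε
    obtain ⟨A, hA, H⟩ := ih (κ / 2) (ε / 2) (by positivity) (by positivity)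
    obtain ⟨A', hA', H'⟩ := st_step (th := th) hth hth1 hCk A (th ^ (2 * n) * β0 + κ / 2) (ε / 2) ε (κ / 2) hA
      (by positivity) (by linarith) (by positivity)
    refine ⟨A', hA', fun ks k1 k2 f f1 f2 hk hO hf => ?_⟩
    refine (H' ks k1 k2 f hk hO (H ks k1 k2 f f1 f2 hk hO hf)).mono ?_
    have e : th ^ (2 * (n + 1)) = th ^ 2 * th ^ (2 * n) := by
      rw [← pow_add]
      congr 1
      ring
    have h4 : th ^ 2 ≤ 1 := by nlinarith
    rw [e]
    nlinarith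

/-- **the solver** -/
theorem solve {Ck : ℝ} (hth : 0 < th) (hth1 : th < 1) (hCk : 0 ≤ Ck) (hM : 0 ≤ M) (ε : ℝ) (hε : 0 < ε) :
    ∃ A L δ : ℝ, 0 ≤ A ∧ 0 < L ∧ 0 < δ ∧ δ ≤ 1 ∧ ∀ (ks k1 k2 : Bool → Bool → ℝ → ℝ → ℝ) (f f1 f2 : Bool → ℝ → ℝ),
      KOk Ck ks k1 k2 → O1 th ks → (∀ a, W2 M (f a) (f1 a) (f2 a)) → ∃ q g φ φ1 : Bool → ℝ → ℝ,
      (∀ a, Kd A (q a)) ∧ (∫ t, (q true t - q false t)) = 0 ∧ (∀ a, Nd A (g a)) ∧ (∀ a t, L < |t| → g a t = 0) ∧
      Hq A g ∧ (∀ a, Kd A (Ad δ g a)) ∧ (∀ a, Cs ε (φ a) (φ1 a)) ∧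
      FEq ks f q (fun a t => q a t + Ad δ g a t) φ ∧ ∀ s, 0 < s → Qs s g g ≤ ε := by
  have hH := cH_pos
  have hcQ : 0 ≤ cQ := by
    have := l_pos
    have := Real.pi_pos
    unfold cQ
    refine mul_nonneg (by positivity) (setIntegral_nonneg measurableSet_Ioi fun k _ => by positivity)
  obtain ⟨β0, hβ0⟩ : ∃ β0, β0 = cQ * (2 * (M * cH) * (2 * (M * cH))) := ⟨_, rfl⟩
  have hβ0p : 0 ≤ β0 := by rw [hβ0]; positivity
  obtain ⟨x, hx⟩ : ∃ x, x = min (ε / 8) 1 := ⟨_, rfl⟩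
  have hx0 : 0 < x := by rw [hx]; exact lt_min (by positivity) one_pos
  have hx1 : x ≤ ε / 8 := by rw [hx]; exact min_le_left _ _
  have hx2 : x ≤ 1 := by rw [hx]; exact min_le_right _ _
  obtain ⟨n, hn⟩ : ∃ n : ℕ, th ^ (2 * n) * β0 ≤ x := by
    have h1 : Tendsto (fun n : ℕ => th ^ (2 * n) * β0) atTop (𝓝 (0 * β0)) := by
      refine Tendsto.mul_const _ ?_
      have h2 : ∀ n : ℕ, th ^ (2 * n) = (th ^ 2) ^ n := fun n => pow_mul _ _ _
      simp_rw [h2]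
      exact tendsto_pow_atTop_nhds_zero_of_lt_one (by positivity) (by nlinarith)
    rw [zero_mul] at h1
    obtain ⟨n, hn⟩ := (h1.eventually_lt_const hx0).exists
    exact ⟨n, hn.le⟩
  obtain ⟨A, hA, H⟩ := st_iter (th := th) (M := M) hth hth1.le hCk hM n x (ε / 2) hx0 (by positivity)
  obtain ⟨L, δ, B, hL, hδ, hδ1, hB, H'⟩ := smooth_step A x hA hx0
  obtain ⟨K1, hK1, H1⟩ := Ad_nd hδ
  obtain ⟨K2, hK2, H2⟩ := Ad_cpt hδ L
  refine ⟨A + B + K2 * B, L, δ, by positivity, hL, hδ, hδ1, fun ks k1 k2 f f1 f2 hk hO hf => ?_⟩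
  obtain ⟨q, R, R1, R2, φ, φ1, hq, hq0, hR, hφ, hfe, hQ⟩ := H ks k1 k2 f f1 f2 hk hO hf
  obtain ⟨g, ψ, ψ1, hg, hgs, hgq, hψ, hRg, hQg⟩ := H' R R1 R2 hR
  have hB1 : 0 ≤ K2 * B := by positivity
  rw [← hβ0] at hQ
  refine ⟨q, g, fun a t => φ a t + ψ a t, fun a t => φ1 a t + ψ1 a t, fun a => (hq a).mono (by linarith), hq0,
    fun a => (hg a).mono (by linarith), hgs, hgq.mono (by linarith),
    fun a => ⟨(H1 hg a).cont, fun t => (H2 hg hgs a t).trans ?_⟩,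
    fun a => ((hφ a).add (hψ a)).mono (by linarith), feq_add hδ (fun a => (hq a).nd) hg hRg hfe, fun s hs => ?_⟩
  · exact mul_le_mul_of_nonneg_right (by linarith) (Real.exp_pos _).le
  · have h2 := hQg s hs (2 * x) ((hQ s hs).trans (by linarith)) (by linarith)
    nlinarith

end

end PLT.Tri
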