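import Pool.Agent.PLT.TopRC
import Pool.Agent.PLT.S4RCof
import Pool.Agent.PLT.GasF
import Pool.Agent.PLT.Sel
import Pool.Agent.PHK.UXR6

/-!
# Sea on a curve: the bounds `UXC` of the class `W W` at fixed half quanta, uniformly in a family of seas

Twin of `PHK/UXR6` for any family `F` with index `(k, y)`: `k : κ` = content (sea, geometry `G k`, base functions
`X ep m k`), `y` = heights of the two half quanta.

* `okS`, `phS`, **`statFam_S`**: the statistics of `UBC` over a sequence of seas are a family `StatFamC (p + 1)`;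
* **`RegF`**: what the family has to satisfy (class functions, numbers of quanta, curves, normaliser with the two
  kernels, bound `exp (- mTR y)`);
* **`uxR_of`**: `RegF`, `GOkF`, `S4MC`, stability, spectrum, one body bounds of every selection give `UXC F P`.
-/

set_option autoImplicit false
set_option linter.unusedSectionVars false
set_option linter.unusedVariables false

noncomputable section

open Complex MeasureTheory Finset
open scoped ENNReal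

open PLX (Fil Ends)

namespace PLT.UR

open NUGC NUGC.PLX PBO PBO.PLX PBF PBF.PLX PBR PBR.PLX PHK
open NUO NUP1 NUCR NUP1S NUP1S.Ab NUP1S.AbC NUP1S.AbG NURow NUP1.Leg NUStabP NUDispW
open PBP.PLX (gT)
open PBU.PLX (BC)
open PBI.PLX (ZW6)
open PBI.PLX (StI num_le6)

variable [Fil]

/-! ### the statistics -/

/-- the admissible statistics -/
def okS (S : ℕ → SeaC) (C0 y₁ y₂ : ℝ) {p : ℕ} (m : ℕ) (i : StI p) : Prop :=
  DNC C0 m (fun t : ℝ => @Cv.Pc (S m) t) i.1 ∧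
    ∀ r O j, BC y₁ y₂ 1 (i.2.1 r O j) ∧ BC y₁ y₂ 1 (i.2.2 r O j)

/-- the statistics of `UBC` -/
def phS (S : ℕ → SeaC) (e1 J : ℝ) {p : ℕ} (i : StI p) (m _N : ℕ) : InsE := fun r O _ _ x =>
  ∏ j, nuEC i.1 (@dsp (S m) _ (@Cv.etaC (S m) e1 J m m)) (i.2.1 r O j) (i.2.2 r O j) x

theorem phS_congr {S S' : ℕ → SeaC} {e1 J : ℝ} {p : ℕ} {m : ℕ} (h : S m = S' m) (i : StI p)
    (n n' : ℕ) : phS S e1 J i m n = phS S' e1 J i m n' := by
  have e : ∀ (X Y : SeaC), X = Y →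
      (fun (r : ℕ) (O : Fin r → Xo) (_ _ : ℕ) (x : _) =>
        ∏ j, nuEC i.1 (@dsp X _ (@Cv.etaC X e1 J m m)) (i.2.1 r O j) (i.2.2 r O j) x : InsE) =
      fun r O _ _ x =>
        ∏ j, nuEC i.1 (@dsp Y _ (@Cv.etaC Y e1 J m m)) (i.2.1 r O j) (i.2.2 r O j) x := by
    rintro X Y rfl
    rfl
  exact e _ _ h

theorem statFam_S [Ends] {SB : SeaCB} {S : ℕ → SeaC} (hu : ∃ m0 : ℕ, ∀ m ≥ m0, @SeaCU SB (S m))
    {lo hi : ℝ} (hw : ∃ m0 : ℕ, ∀ m ≥ m0, @WinC (S m) lo hi) {e1 : ℝ} (he1 : 0 < e1)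
    (he11 : e1 ≤ 1 / 100) {J : ℝ} (hJ : 0 ≤ J) (C0 : ℝ) {y₁ y₂ : ℝ} (hy1 : y₁ < lo) (hy2 : hi < y₂)
    (p : ℕ) : StatFamC S ((p : ℝ) + 1) (okS S C0 y₁ y₂ (p := p)) (phS S e1 J) := by
  obtain ⟨mu, hu⟩ := hu
  obtain ⟨mw, hw⟩ := hw
  obtain ⟨rr, hrr⟩ : ∃ rr, rr = min 1 (min ((lo - y₁) / 5) ((y₂ - hi) / 5)) := ⟨_, rfl⟩
  have hr0 : 0 < rr := by
    rw [hrr]
    exact lt_min one_pos (lt_min (by linarith) (by linarith))
  have hr1 : rr ≤ 1 := by rw [hrr]; exact min_le_left _ _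
  have hyr1 : y₁ ≤ lo - 5 * rr := by
    have : rr ≤ (lo - y₁) / 5 := by rw [hrr]; exact (min_le_right _ _).trans (min_le_left _ _)
    linarith
  have hyr2 : hi + 5 * rr ≤ y₂ := by
    have : rr ≤ (y₂ - hi) / 5 := by
      rw [hrr]; exact (min_le_right _ _).trans (min_le_right _ _)
    linarith
  obtain ⟨W, C1, hW, hC1, md, hdis⟩ := disKH he1 he11 hJ hr0 SB
  let _ : NUSea.Sea := NUSea.seaP
  constructor
  · positivity
  · obtain ⟨m0, h⟩ := statUC SB C0 hr0 hr1 hyr1 hyr2 hW hC1 p (Cg := 1) (ε := 1)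
      (Cn := 5 + ((Fil.qo : ℕ) : ℝ)) le_rfl zero_lt_one (by positivity)
    refine ⟨max (max m0 1) (max md (max mu mw)), fun m hm i hi N hN r O a b y _ ha hb => ?_⟩
    simp only [ge_iff_le, max_le_iff] at hm
    obtain ⟨⟨hm0, hm1⟩, hm2, hm3, hm4⟩ := hm
    have hmp : (0 : ℝ) < m := by exact_mod_cast hm1
    have hx := num_le6 hm1 hN ha hb
    have key := (@h (S m) (hu m hm3) (hw m hm4) m hm0 _ (fun a => @hdis (S m) (hu m hm3) m hm2 a) a b
      hx.1 hx.2 i.1 hi.1 (i.2.1 r O) (i.2.2 r O) (hi.2 r O)).poly y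
    refine key.trans (ENNReal.ofReal_le_ofReal (le_of_eq ?_))
    rw [mul_comm, Real.exp_mul, Real.exp_log hmp, ← Real.rpow_natCast]
    push_cast
    rfl
  · intro Cg hCg ε hε
    obtain ⟨m0, h⟩ := statUC SB C0 hr0 hr1 hyr1 hyr2 hW hC1 p hCg hε
      (Cn := 5 + ((Fil.qo : ℕ) : ℝ)) (by positivity)
    refine ⟨max (max m0 1) (max md (max mu mw)), fun m hm i hi N hN r O a b _ _ _ ha hb => ?_⟩
    simp only [ge_iff_le, max_le_iff] at hm
    obtain ⟨⟨hm0, hm1⟩, hm2, hm3, hm4⟩ := hm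
    have hx := num_le6 hm1 hN ha hb
    exact ⟨_, @h (S m) (hu m hm3) (hw m hm4) m hm0 _ (fun a => @hdis (S m) (hu m hm3) m hm2 a) a b
      hx.1 hx.2 i.1 hi.1 (i.2.1 r O) (i.2.2 r O) (hi.2 r O)⟩

/-! ### the family -/

variable [Ends] {κ : Type}

/-- **the family of the class `W W`** over the geometries `G k`, base functions `X ep m k` -/
structure RegF (F : FamC (κ × (ℝ × ℝ))) (P : Par6) (okk : ℕ → κ → Prop) (S : ℕ → κ → SeaC)
    (G : κ → GeoC) (X : ℝ → ℕ → κ → Bool → Option O3 → ℂ → ℂ) (h1 h0 : ℝ) : Prop where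
  ok : ∀ m i, F.ok m i → okk m i.1 ∧ |i.2.1| ≤ 3 / 8 * Real.log m ∧ |i.2.2| ≤ 3 / 8 * Real.log m
  top : ∀ m, F.top m ≤ 2 * m
  xe : ∀ m, dN (F.top m) = Fil.xe m
  D : ∀ e1 J m i, F.ok m i → F.D e1 J m i = @dsp (S m i.1) _ (@Cv.etaC (S m i.1) e1 J m m)
  D1 : ∀ e1 J m i, F.ok m i → F.D1 e1 J m i =
    @dsp1 (S m i.1) _ (@Cv.etaC (S m i.1) e1 J m m) (@Cv.etaC' (S m i.1) e1 J m m)
  dc : ∀ m i, F.ok m i → F.dc m i = fun t : ℝ => @Cv.Pc (S m i.1) t
  bs : ∀ ep : ℝ, 0 < ep → ep ≤ 1 / 100 → ∃ m0 : ℕ, ∀ m ≥ m0, ∀ k, okk m k →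
    ∃ (kp : ℝ) (er : ℕ) (E0 : Set ℝ), BsC (X ep m k) (fun g => ((G k).B m (NUGC.PLX.beC ep)).mul g) P
      (-(h1 + ep / 4)) (h0 + ep / 4) kp er E0
  /-- the functional with moduli of the family is at most the one of the class -/
  fe : ∀ ep : ℝ, 0 < ep → ep ≤ 1 / 100 → ∀ e1 : ℝ, 0 < e1 → e1 ≤ 1 / 100 → ∀ J : ℝ, 0 ≤ J →
    ∃ m0 : ℕ, ∀ m ≥ m0, ∀ i, F.ok m i → ∀ n ≤ F.top m, ∀ φ : InsE,
      FEC (F.Z ep m i) P n (n + Fil.xe m) (F.cr e1 J m i) (F.cr' e1 J m i) φ ≤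
        FEC (ZW6 (X ep m i.1) i.2) P n (n + Fil.xe m) (F.cr e1 J m i) (F.cr' e1 J m i) φ
  bd : ∀ m i, F.ok m i → Real.exp (-(2 * |i.2.1| + 2 * |i.2.2| + |i.2.1 - i.2.2| / 2)) ≤ F.bd m i
  /-- normaliser and kernels -/
  pf : ∃ C : ℝ, 0 ≤ C ∧ ∃ m0 : ℕ, ∀ m ≥ m0, ∀ i, F.ok m i → ∃ cn k1 k2 gg : ℝ, 0 ≤ cn ∧ 0 ≤ k1 ∧
    0 ≤ k2 ∧ 0 ≤ gg ∧ ‖F.Pf m i‖ ≤ cn * (k1 * k2 * gg) ∧ cn * Real.exp ((G i.1).EM m) ≤ C ∧
    k1 * Real.exp ((G i.1).MF m true .w (vl (PLX.htL .W) i.2.1)) ≤ C * Real.exp (-|i.2.1|) ∧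
    k2 * Real.exp ((G i.1).MF m false .w (vl (PLX.htL .W) i.2.2)) ≤ C * Real.exp (-|i.2.2|) ∧
    gg ≤ C * Real.exp (-|i.2.1 - i.2.2|)

/-- the parameters of the selection -/
def SmR (lo hi a : ℝ) (e : (ℝ × ℝ × ℝ) × (ℝ × ℝ × ℝ)) : Prop :=
  0 < e.1.1 ∧ 0 < e.1.2.1 ∧ 0 ≤ e.1.2.2 ∧
    Real.exp (-(2 * Real.pi * e.1.2.2)) + 3 * e.1.2.1 + 3 * e.1.1 ≤ a ∧ e.2.2.1 < lo ∧ hi < e.2.2.2

/-- **U1, U3, U4 of the class `W W` at fixed half quanta**, uniformly in the family of the seas -/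
theorem uxR_of {SB : SeaCB} {P : Par6} (hP : GoodP6 P) {en : EnC} {okk : ℕ → κ → Prop}
    (hne : ∀ m, ∃ k, okk m k) {S : ℕ → κ → SeaC} {G : κ → GeoC}
    {X : ℝ → ℕ → κ → Bool → Option O3 → ℂ → ℂ} {h1 h0 : ℝ} (hh0 : h0 ≤ 1 / 5)
    {F : FamC (κ × (ℝ × ℝ))} (hF : RegF F P okk S G X h1 h0) (hG : GOkF SB P en okk S G)
    (h4 : S4MC SB P en) (hw : ∀ m k, okk m k → @WinC (S m k) F.lo F.hi) {C3 : ℝ}
    (hspec : SpecPinC P C3)
    (hcur : ∀ i : ℕ → κ, (∀ m, okk m (i m)) → CurG h1 h0 (GeoC.sel G i))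
    (hS : ∀ i : ℕ → κ, (∀ m, okk m (i m)) → StabU P (GeoC.sel G i).en)
    (hone : ∀ i : ℕ → κ, (∀ m, okk m (i m)) → OneRTC P (GeoC.sel G i)) : UXC F P := by
  classical
  intro p K ε hε
  obtain ⟨K', hK'⟩ : ∃ K', K' = max |K| 1 := ⟨_, rfl⟩
  have hK1 : 1 ≤ K' := by rw [hK']; exact le_max_right _ _
  obtain ⟨CF, hCF, mF, hpf⟩ := hF.pf
  have hκ : Nonempty κ := ⟨(hne 0).choose⟩
  -- the bound of the class, uniform by selection
  have hsel : ∃ a : ℝ, 0 < a ∧ ∀ e : (ℝ × ℝ × ℝ) × (ℝ × ℝ × ℝ), SmR F.lo F.hi a e →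
      ∃ C : ℝ, 0 ≤ C ∧ ∃ m0 : ℕ, ∀ m ≥ m0, ∀ k : κ, ∀ y : ℝ × ℝ, F.ok m (k, y) →
      ∀ st : StI p, okS (fun m => S m k) e.2.1 e.2.2.1 e.2.2.2 m st →
      ∀ (w : (r : ℕ) → (Fin r → Xo) → ℝ) (Bw : ℝ), 0 ≤ Bw → (∀ r O, 0 ≤ w r O) →
      (∀ (r : ℕ) (O : Fin r → Xo), w r O ≤ Bw * Real.exp (Real.log K' * r) *
          Real.exp (∑ i, gT e.1.2.1 (Real.log m) (ht (O i)))) →
      FSC F P e.1.1 e.1.2.1 e.1.2.2 m (k, y) (fun _ => 1) (fun r O a b x =>
          ENNReal.ofReal (w r O) * phS (fun m => S m k) e.1.2.1 e.1.2.2 st m 0 r O a b x) ≤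
        ENNReal.ofReal (C * (Bw * ((m : ℝ) ^ (ε / 2) * F.bd m (k, y)))) := by
    refine sel2R (S := κ) (E := (ℝ × ℝ × ℝ) × (ℝ × ℝ × ℝ)) (Sm := SmR F.lo F.hi)
      (A := fun e m k C => ∀ y : ℝ × ℝ, F.ok m (k, y) →
        ∀ st : StI p, okS (fun m => S m k) e.2.1 e.2.2.1 e.2.2.2 m st →
        ∀ (w : (r : ℕ) → (Fin r → Xo) → ℝ) (Bw : ℝ), 0 ≤ Bw → (∀ r O, 0 ≤ w r O) →
        (∀ (r : ℕ) (O : Fin r → Xo), w r O ≤ Bw * Real.exp (Real.log K' * r) *
            Real.exp (∑ i, gT e.1.2.1 (Real.log m) (ht (O i)))) →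
        FSC F P e.1.1 e.1.2.1 e.1.2.2 m (k, y) (fun _ => 1) (fun r O a b x =>
            ENNReal.ofReal (w r O) * phS (fun m => S m k) e.1.2.1 e.1.2.2 st m 0 r O a b x) ≤
          ENNReal.ofReal (C * (Bw * ((m : ℝ) ^ (ε / 2) * F.bd m (k, y)))))
      ?_ ?_ ?_
    · intro a a' e haa h
      exact ⟨h.1, h.2.1, h.2.2.1, h.2.2.2.1.trans haa, h.2.2.2.2⟩
    · intro e m k C C' hC h y hy st hst w Bw hBw hw0 hwB
      refine (h y hy st hst w Bw hBw hw0 hwB).trans (ENNReal.ofReal_le_ofReal ?_)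
      have hb : 0 ≤ F.bd m (k, y) := (Real.exp_pos _).le.trans (hF.bd m (k, y) hy)
      exact mul_le_mul_of_nonneg_right hC (by positivity)
    · intro σ
      choose k0 hk0 using hne
      obtain ⟨τ, hτ⟩ : ∃ τ : ℕ → κ, τ = fun m => if okk m (σ m) then σ m else k0 m := ⟨_, rfl⟩
      have hτok : ∀ m, okk m (τ m) := by
        intro m
        rw [hτ]
        by_cases h : okk m (σ m)
        · simp only [h, if_true]
        · simp only [h, if_false]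
          exact hk0 m
      have hτσ : ∀ m, okk m (σ m) → τ m = σ m := by
        intro m h
        rw [hτ]
        simp only [h, if_true]
      have hGs := hG.sel τ ⟨0, fun m _ => hτok m⟩
      obtain ⟨K4, Ca, hK4, hCa, hst4⟩ := s4K_ofC hGs h4
      obtain ⟨κ0, hκ0, hκ1, htop⟩ := topRC hP hGs.nn hh0 (hcur τ hτok) (hS τ hτok) hspec
        (hone τ hτok) (K4 + ((p : ℝ) + 1)) (Real.log K') hCa (e := ε / 2) (by positivity)
      refine ⟨κ0, hκ0, fun e he => ?_⟩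
      obtain ⟨⟨ep, e1, J⟩, C0, y₁, y₂⟩ := e
      obtain ⟨hep, he1, hJ, hsm, hy1, hy2⟩ := he
      simp only at hep he1 hJ hsm hy1 hy2 ⊢
      have hexpJ := Real.exp_pos (-(2 * Real.pi * J))
      have a1 : ep ≤ κ0 := by linarith
      have a2 : e1 ≤ κ0 := by linarith
      have a3 : Real.exp (-(2 * Real.pi * J)) ≤ κ0 := by linarith
      have b1 : ep ≤ 1 / 100 := a1.trans hκ1
      have b2 : e1 ≤ 1 / 100 := a2.trans hκ1
      have hstat := statFam_S (SB := SB) (S := fun m => S m (τ m)) hGs.sea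
        ⟨0, fun m _ => hw m (τ m) (hτok m)⟩ he1 b2 hJ C0 hy1 hy2 p
      obtain ⟨Cst, hCst, m1, hm1, htop⟩ := htop (StI p) _ _ (hst4 _ _ _ _ hstat) ep hep a1 e1 he1 a2 J
        hJ a3
      obtain ⟨mb, hbs⟩ := hF.bs ep hep b1
      obtain ⟨mf, hfe⟩ := hF.fe ep hep b1 e1 he1 b2 J hJ
      obtain ⟨mc, hcrv⟩ := hG.crv
      refine ⟨CF * CF * CF * (Cst * CF), max (max m1 mb) (max (max mf mc) (max mF 1)), ?_⟩
      intro m hm y hy st hst w Bw hBw hw0 hwB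
      simp only [ge_iff_le, max_le_iff] at hm
      obtain ⟨⟨q1, q2⟩, ⟨q3, q4⟩, q5, q6⟩ := hm
      obtain ⟨hk, hyt1, hyt2⟩ := hF.ok m (σ m, y) hy
      have eτ := hτσ m hk
      have hmp : (0 : ℝ) < m := by exact_mod_cast q6
      have hL : 0 ≤ Real.log m := Real.log_nonneg (by exact_mod_cast q6)
      have hTW : 3 / 8 * Real.log m ≤ TW ep e1 m := by
        have h : TW ep e1 m = (1 + 2 * e1 + 2 * ep) * (3 / 8 * Real.log m) := rfl
        rw [h]
        nlinarith [mul_nonneg he1.le hL, mul_nonneg hep.le hL]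
      obtain ⟨-, htop⟩ := htop m q1
      obtain ⟨kp, er, E0, hB⟩ := hbs m q2 (σ m) hk
      obtain ⟨cn, k1, k2, gg, hcn, hk1, hk2, hgg, hpf1, hpf2, hpf3, hpf4, hpf5⟩ :=
        hpf m q5 (σ m, y) hy
      have eG : ∀ {β : Type} (f : ℕ → κ → β), f m (τ m) = f m (σ m) := fun f => by rw [eτ]
      have hB' : BsC (X ep m (σ m)) (fun g => (((GeoC.sel G τ).B m (NUGC.PLX.beC ep)).mul g)) P
          (-(h1 + ep / 4)) (h0 + ep / 4) kp er E0 := by
        show BsC (X ep m (σ m)) (fun g => (((G (τ m)).B m (NUGC.PLX.beC ep)).mul g)) P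
          (-(h1 + ep / 4)) (h0 + ep / 4) kp er E0
        rw [eτ]
        exact hB
      have hst' : okS (fun m => S m (τ m)) C0 y₁ y₂ m st := by
        show DNC C0 m (fun t : ℝ => @Cv.Pc (S m (τ m)) t) st.1 ∧ _
        rw [eτ]
        exact hst
      have key := htop (X ep m (σ m)) kp er E0 hB' y (hyt1.trans hTW) (hyt2.trans hTW) st hst' w Bw
        hBw hw0 hwB CF CF k1 k2 gg hCF hk1 hk2 hgg
        (by
          show k1 * Real.exp ((G (τ m)).MF m true .w (vl (PLX.htL .W) y.1)) ≤ _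
          rw [eτ]
          exact hpf3)
        (by
          show k2 * Real.exp ((G (τ m)).MF m false .w (vl (PLX.htL .W) y.2)) ≤ _
          rw [eτ]
          exact hpf4) hpf5
      -- the functional of the family
      have hcr := hcrv m q4 (σ m) hk e1 J
      have hfam : FSC F P ep e1 J m (σ m, y) (fun _ => 1) (fun r O a b x =>
          ENNReal.ofReal (w r O) * phS (fun m => S m (σ m)) e1 J st m 0 r O a b x) ≤
          ENNReal.ofReal cn * (ENNReal.ofReal (k1 * k2 * gg) *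
          ∑ n ∈ range (2 * m + 1), FEC (ZW6 (X ep m (σ m)) y) P n (n + Fil.xe m)
            (fun _ _ => (GeoC.sel G τ).D e1 J m) (fun _ _ => (GeoC.sel G τ).D1 e1 J m)
            (fun r O a b x => ENNReal.ofReal (w r O) *
              phS (fun m => S m (τ m)) e1 J st m n r O a b x)) := by
        rw [FSC_eq, ← mul_assoc, ← ENNReal.ofReal_mul hcn]
        have hn : ‖F.Pf m (σ m, y)‖ₑ ≤ ENNReal.ofReal (cn * (k1 * k2 * gg)) := by
          rw [← ofReal_norm]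
          exact ENNReal.ofReal_le_ofReal hpf1
        refine mul_le_mul' hn ?_
        refine le_trans ?_ (Finset.sum_le_sum_of_subset (Finset.range_subset_range.2
          (show F.top m + 1 ≤ 2 * m + 1 by have := hF.top m; omega)))
        refine Finset.sum_le_sum fun n hn => ?_
        have hn' : n ≤ F.top m := by
          have := Finset.mem_range.1 hn
          omega
        rw [hF.xe m]
        refine (hfe m q3 (σ m, y) hy n hn' _).trans (le_of_eq ?_)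
        have e1' : F.cr e1 J m (σ m, y) = fun _ _ => (GeoC.sel G τ).D e1 J m := by
          funext r O
          show F.D e1 J m (σ m, y) = (G (τ m)).D e1 J m
          rw [eτ, hcr.1]
          exact hF.D e1 J m (σ m, y) hy
        have e2' : F.cr' e1 J m (σ m, y) = fun _ _ => (GeoC.sel G τ).D1 e1 J m := by
          funext r O
          show F.D1 e1 J m (σ m, y) = (G (τ m)).D1 e1 J m
          rw [eτ, hcr.2]
          exact hF.D1 e1 J m (σ m, y) hy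
        rw [e1', e2']
        have e3 : phS (fun m => S m (σ m)) e1 J st m 0 = phS (fun m => S m (τ m)) e1 J st m n :=
          phS_congr (S := fun m => S m (σ m)) (S' := fun m => S m (τ m))
            (by show S m (σ m) = S m (τ m); rw [eτ]) st 0 n
        rw [e3]
      refine hfam.trans ((mul_le_mul' le_rfl key).trans ?_)
      rw [← ENNReal.ofReal_mul hcn]
      refine ENNReal.ofReal_le_ofReal ?_
      have hbd := hF.bd m (σ m, y) hy
      have hEM : Real.exp ((GeoC.sel G τ).EM m) = Real.exp ((G (σ m)).EM m) := by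
        show Real.exp ((G (τ m)).EM m) = _
        rw [eτ]
      rw [hEM]
      have h5 : 0 ≤ CF * CF * CF * Bw * (Cst * (m : ℝ) ^ (ε / 2)) := by positivity
      have h6 := Real.exp_pos (-(2 * |y.1| + 2 * |y.2| + |y.1 - y.2| / 2))
      calc cn * (CF * CF * CF * Bw * (Cst * (m : ℝ) ^ (ε / 2) * Real.exp ((G (σ m)).EM m) *
            Real.exp (-(2 * |y.1| + 2 * |y.2| + |y.1 - y.2| / 2))))
          = CF * CF * CF * Bw * (Cst * (m : ℝ) ^ (ε / 2)) * (cn * Real.exp ((G (σ m)).EM m)) *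
            Real.exp (-(2 * |y.1| + 2 * |y.2| + |y.1 - y.2| / 2)) := by ring
        _ ≤ CF * CF * CF * Bw * (Cst * (m : ℝ) ^ (ε / 2)) * CF * F.bd m (σ m, y) := by
            refine mul_le_mul (mul_le_mul_of_nonneg_left hpf2 h5) hbd h6.le (by positivity)
        _ = _ := by ring
  obtain ⟨a, ha, H⟩ := hsel
  refine ⟨a, ha, fun ep e1 J hep he1 hJ hsm => ?_⟩
  intro C0 y₁ y₂ hy1 hy2
  obtain ⟨C, hC, m0, H⟩ := H ((ep, e1, J), (C0, y₁, y₂)) ⟨hep, he1, hJ, hsm, hy1, hy2⟩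
  obtain ⟨m1, hm1⟩ := Filter.eventually_atTop.1
    (((tendsto_rpow_atTop (show (0 : ℝ) < ε / 2 by linarith)).comp
      tendsto_natCast_atTop_atTop).eventually_ge_atTop C)
  refine ⟨max (max m0 m1) 1, fun m hm i hi ρ hρ Bw hBw w hw' g g' hg => ?_⟩
  simp only [ge_iff_le, max_le_iff] at hm
  obtain ⟨⟨q1, q2⟩, q3⟩ := hm
  have hmp : (0 : ℝ) < m := by exact_mod_cast q3
  obtain ⟨k, y⟩ := i
  -- the weight of the objects
  obtain ⟨w', hw1⟩ : ∃ w' : (r : ℕ) → (Fin r → Xo) → ℝ, w' = fun r O => max (w r O) 0 := ⟨_, rfl⟩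
  have hw0 : ∀ r O, 0 ≤ w' r O := fun r O => by rw [hw1]; exact le_max_right _ _
  have hwB : ∀ (r : ℕ) (O : Fin r → Xo), w' r O ≤ Bw * Real.exp (Real.log K' * r) *
      Real.exp (∑ i, gT e1 (Real.log m) (ht (O i))) := by
    intro r O
    have e : w' r O = max (w r O) 0 := by rw [hw1]
    rw [e]
    have hk : Real.exp (Real.log K' * r) = K' ^ r := by
      rw [Real.exp_mul, Real.exp_log (by linarith), Real.rpow_natCast]
    rw [hk]
    refine max_le ((hw' r O).trans ?_) (by positivity)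
    rw [Real.exp_sum]
    refine mul_le_mul_of_nonneg_right (mul_le_mul_of_nonneg_left ?_ hBw)
      (Finset.prod_nonneg fun i _ => (Real.exp_pos _).le)
    have h1 : K ^ r ≤ |K| ^ r := by
      rw [← abs_pow]
      exact le_abs_self _
    refine h1.trans (pow_le_pow_left₀ (abs_nonneg _) ?_ r)
    rw [hK']
    exact le_max_left _ _
  have hww : ∀ r O, ENNReal.ofReal (w r O) = ENNReal.ofReal (w' r O) := by
    intro r O
    have e : w' r O = max (w r O) 0 := by rw [hw1]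
    rw [e]
    rcases le_total (w r O) 0 with h | h
    · rw [max_eq_right h, ENNReal.ofReal_of_nonpos h, ENNReal.ofReal_zero]
    · rw [max_eq_left h]
  rw [hF.dc m (k, y) hi] at hρ
  have key := H m q1 k y hi (ρ, g, g') ⟨hρ, hg⟩ w' Bw hBw hw0 hwB
  have e0 : FSC F P ep e1 J m (k, y) (fun _ => 1) (fun r O _ _ x => ENNReal.ofReal (w r O) *
      ∏ j, nuEC ρ (F.D e1 J m (k, y)) (g r O j) (g' r O j) x) =
      FSC F P ep e1 J m (k, y) (fun _ => 1) (fun r O a b x =>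
          ENNReal.ofReal (w' r O) * phS (fun m => S m k) e1 J (ρ, g, g') m 0 r O a b x) := by
    unfold phS
    simp only [hww, hF.D e1 J m (k, y) hi]
  rw [e0]
  refine key.trans (ENNReal.ofReal_le_ofReal ?_)
  have hb : 0 ≤ F.bd m (k, y) := (Real.exp_pos _).le.trans (hF.bd m (k, y) hi)
  have hCm : C ≤ (m : ℝ) ^ (ε / 2) := hm1 m q2
  have hpow : (m : ℝ) ^ ε = (m : ℝ) ^ (ε / 2) * (m : ℝ) ^ (ε / 2) := by
    rw [← Real.rpow_add hmp]
    congr 1
    ring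
  have hp0 : 0 ≤ (m : ℝ) ^ (ε / 2) := by positivity
  calc C * (Bw * ((m : ℝ) ^ (ε / 2) * F.bd m (k, y)))
      ≤ (m : ℝ) ^ (ε / 2) * (Bw * ((m : ℝ) ^ (ε / 2) * F.bd m (k, y))) := by gcongr
    _ = _ := by
        rw [hpow]
        ring

end PLT.UR

end
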