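import Pool.Agent.PLT.ZKG

/-!
# Families of rows in the strip `-l < Re < 51/100 l`: uniform bounds on lines

`FP lo U w` : a family of points, differentiable in the parameter `θ ∈ U`, real parts in a compact part of
`(lo, 51/100 l)`, imaginary parts bounded.

* `FP.ub` : one variable bounds give uniform bounds of `f (z - w θ)` on a line;
* `ub_RRF`, `ub_phF` : row factor, cutoff; `ub_TTF` : the strings T on `-l/2`; `ub_thF` : the ends;
* `CutA`, `CutO` : families of cutoffs; `cutA_gP`, `cutA_const`, `cutO_gO`.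
-/

set_option autoImplicit false
set_option linter.unusedSectionVars false
set_option linter.unusedVariables false

noncomputable section

open Complex MeasureTheory Filter Topology

namespace PLTX

open NUP1 NUP1S NUP1.Bd NURow
open NUP1.Leg (hr)
open PBX (Rws ph GOk gP measurable_ph im_le bdd_glueR Bdd_of_Gr Lg)
open Pool.Agent.PLX
open PHK (phO om omA gO pP)

variable {m M : ℕ}

/-! ### one variable -/

theorem bdd_isin {K : Set ℝ} (hK : IsCompact K) (q : ℝ) (h : ∀ d ∈ K, Real.sin (d + q) ≠ 0) :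
    Bdd K (-1) fun z => 1 / sin (z + q) := by
  have h1 := (PB_inv_sinW hK (-q) fun d hd => by rw [sub_neg_eq_add]; exact h d hd).1
  refine NURow.Bdd.cg h1 fun z _ => ?_
  push_cast
  rw [sub_neg_eq_add, one_div]

theorem bdd_sin1 (K : Set ℝ) (q : ℝ) : Bdd K 1 fun z => sin (z + q) := by
  refine ⟨1, zero_le_one, fun z _ => ?_⟩
  rw [one_mul, one_mul]
  refine (Bd.norm_sin_le_exp _).trans (le_of_eq ?_)
  rw [add_im, ofReal_im, add_zero]

theorem bdd_qs {β : ℝ} (hβ : 0 < β) {K : Set ℝ} (hK : IsCompact K) (h : ∀ d ∈ K, NQ β d)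
    (hs : ∀ d ∈ K, d = 0 ∨ Real.sin d ≠ 0) : Bdd K (-1) (qs β) := by
  obtain ⟨C, hC, h1⟩ := bdd_psi0 (w := 0) hβ hK (fun d hd => by simpa using h d hd)
  obtain ⟨D, R, hD, h2⟩ := Gr.inv_sin (α := sSup K) (β := sInf K) 0
  refine bdd_glueR (R := max R 1) hK (fun z hz => ?_) ⟨C * D, by positivity, fun z hz hi => ?_⟩
  · refine (differentiableAt_qs (h _ hz) ?_).continuousAt
    rcases hs _ hz with h3 | h3
    · by_cases h4 : z = 0
      · exact Or.inl h4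
      · right
        refine NUP1.sin_ne_im fun h5 => h4 (Complex.ext ?_ ?_)
        · rw [h3, zero_re]
        · rw [h5, zero_im]
    · exact Or.inr (Bd.sin_ne_zero_of_re h3)
  · have hi1 := (le_max_left _ _).trans hi
    have hi2 := (le_max_right _ _).trans hi
    have hs : sin z ≠ 0 := NUP1.sin_ne_im fun h5 => by
      rw [h5, abs_zero] at hi2
      linarith
    have e : qs β z = psi β z * (sin z)⁻¹ := by
      rw [← qs_mul (h _ hz) hs, mul_assoc, mul_inv_cancel₀ hs, mul_one]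
    have a1 := h1 z hz
    have a2 := h2 z (csInf_le hK.bddBelow hz) (le_csSup hK.bddAbove hz) hi1
    simp only [sub_zero, zero_mul, Real.exp_zero, mul_one] at a1 a2
    rw [e, norm_mul]
    calc _ ≤ C * (D * Real.exp (-1 * |z.im|)) := mul_le_mul a1 a2 (norm_nonneg _) hC
      _ = _ := by ring

/-! ### families of points -/

/-- a family of points -/
structure FP (lo : ℝ) (U : Set ℂ) (w : ℂ → ℂ) : Prop where
  df : ∀ θ ∈ U, DifferentiableAt ℂ w θ
  bx : ∃ a b ρ : ℝ, lo < a ∧ b < 51 / 100 * l ∧ ∀ θ ∈ U, a ≤ (w θ).re ∧ (w θ).re ≤ b ∧ |(w θ).im| ≤ ρ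

section fp

variable {lo : ℝ} {U : Set ℂ} {w : ℂ → ℂ}

theorem FP.mono {U' : Set ℂ} (h : FP lo U w) (hU : U' ⊆ U) : FP lo U' w := by
  obtain ⟨a, b, ρ, h1, h2, h3⟩ := h.bx
  exact ⟨fun θ hθ => h.df θ (hU hθ), a, b, ρ, h1, h2, fun θ hθ => h3 θ (hU hθ)⟩

theorem FP.lower {lo' : ℝ} (h : FP lo U w) (hl : lo' ≤ lo) : FP lo' U w := by
  obtain ⟨a, b, ρ, h1, h2, h3⟩ := h.bx
  exact ⟨h.df, a, b, ρ, by linarith, h2, h3⟩

theorem FP.const {w : ℂ} (U : Set ℂ) (h1 : lo < w.re) (h2 : w.re < 51 / 100 * l) : FP lo U fun _ => w :=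
  ⟨fun _ _ => differentiableAt_const _, w.re, w.re, |w.im|, h1, h2, fun _ _ => ⟨le_rfl, le_rfl, le_rfl⟩⟩

theorem FP.re (h : FP lo U w) {θ : ℂ} (hθ : θ ∈ U) : lo < (w θ).re ∧ (w θ).re < 51 / 100 * l := by
  obtain ⟨a, b, ρ, h1, h2, h3⟩ := h.bx
  obtain ⟨h4, h5, h6⟩ := h3 θ hθ
  constructor <;> linarith

/-- **one variable bounds give uniform bounds** -/
theorem FP.ub (h : FP lo U w) {a s : ℝ} {f : ℂ → ℂ}
    (hf : ∀ a0 b0 : ℝ, lo < a0 → b0 < 51 / 100 * l → Bdd (Set.Icc (a - b0) (a - a0)) s f) :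
    UB U {a} s fun θ z => f (z - w θ) := by
  obtain ⟨a0, b0, ρ, h1, h2, h3⟩ := h.bx
  obtain ⟨C, hC, h4⟩ := hf a0 b0 h1 h2
  refine ⟨C * Real.exp (|s| * ρ), by positivity, fun θ hθ z hz => ?_⟩
  obtain ⟨h5, h6, h7⟩ := h3 θ hθ
  rw [Set.mem_singleton_iff] at hz
  have h8 := h4 (z - w θ) (by
    rw [sub_re, hz]
    exact ⟨by linarith, by linarith⟩)
  refine h8.trans ?_
  rw [mul_assoc, ← Real.exp_add]
  refine mul_le_mul_of_nonneg_left (Real.exp_le_exp.2 ?_) hC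
  rw [sub_im]
  have h9 : |(|z.im - (w θ).im| - |z.im|)| ≤ ρ := by
    refine (abs_abs_sub_abs_le _ _).trans ?_
    rw [show z.im - (w θ).im - z.im = -(w θ).im by ring, abs_neg]
    exact h7
  have h10 : s * (|z.im - (w θ).im| - |z.im|) ≤ |s| * ρ := by
    refine (le_abs_self _).trans ?_
    rw [abs_mul]
    exact mul_le_mul_of_nonneg_left h9 (abs_nonneg _)
  linarith

/-- an inverse sine -/
theorem FP.isin (h : FP lo U w) (a q : ℝ)
    (hs : ∀ d : ℝ, a - 51 / 100 * l < d → d < a - lo → Real.sin (d + q) ≠ 0) :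
    UB U {a} (-1) fun θ z => 1 / sin (z - w θ + q) :=
  h.ub fun a0 b0 h1 h2 => bdd_isin isCompact_Icc q fun d hd => hs d (by linarith [hd.1]) (by linarith [hd.2])

theorem FP.sin (h : FP lo U w) (a q : ℝ) : UB U {a} 1 fun θ z => Complex.sin (z - w θ + q) :=
  h.ub fun a0 b0 h1 h2 => bdd_sin1 _ q

/-- the differences are in the strip without poles of the cutoff -/
theorem NQ_d {a d β : ℝ} (hβ : 0 < β) (hβ' : β ≤ 4 / 3) (ha : a ∈ KT) (hlo : -l ≤ lo) (h1 : a - 51 / 100 * l < d)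
    (h2 : d < a - lo) : NQ β d := by
  have hl := Bd.l_pos
  obtain ⟨a1, a2⟩ := ha
  exact NQ_strip hβ hβ' (by linarith) (by linarith)

theorem FP.psi1 (h : FP lo U w) (hlo : -l ≤ lo) {a β : ℝ} (hβ : 0 < β) (hβ' : β ≤ 4 / 3) (ha : a ∈ KT) :
    UB U {a} (-(2 * β)) fun θ z => 1 - psi β (z - w θ) :=
  h.ub (f := fun z => 1 - psi β z) fun a0 b0 h1 h2 => by
    have := bdd_psi1 (K := Set.Icc (a - b0) (a - a0)) (w := 0) hβ isCompact_Icc (fun d hd => by
      rw [zero_re, sub_zero]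
      exact NQ_d hβ hβ' ha hlo (by linarith [hd.1]) (by linarith [hd.2]))
    simpa using this

theorem FP.psi0 (h : FP lo U w) (hlo : -l ≤ lo) {a β : ℝ} (hβ : 0 < β) (hβ' : β ≤ 4 / 3) (ha : a ∈ KT) :
    UB U {a} 0 fun θ z => psi β (z - w θ) :=
  h.ub (f := psi β) fun a0 b0 h1 h2 => by
    have := bdd_psi0 (K := Set.Icc (a - b0) (a - a0)) (w := 0) hβ isCompact_Icc (fun d hd => by
      rw [zero_re, sub_zero]
      exact NQ_d hβ hβ' ha hlo (by linarith [hd.1]) (by linarith [hd.2]))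
    simpa using this

theorem FP.nq (h : FP lo U w) (hlo : -l ≤ lo) {β : ℝ} (hβ : 0 < β) (hβ' : β ≤ 4 / 3) {θ z : ℂ} (hθ : θ ∈ U)
    (hz : z.re ∈ KT) : NQ β (z - w θ).re := by
  obtain ⟨h1, h2⟩ := h.re hθ
  rw [sub_re]
  exact NQ_d hβ hβ' hz hlo (by linarith) (by linarith)

theorem FP.dpsi (h : FP lo U w) (hlo : -l ≤ lo) {β : ℝ} (hβ : 0 < β) (hβ' : β ≤ 4 / 3) {θ z : ℂ} (hθ : θ ∈ U)
    (hz : z.re ∈ KT) : DifferentiableAt ℂ (fun θ => psi β (z - w θ)) θ :=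
  DifferentiableAt.comp (g := psi β) (f := fun θ => z - w θ) θ (diff_psi' (h.nq hlo hβ hβ' hθ hz))
    ((h.df θ hθ).const_sub z)

end fp

/-! ### cutoffs -/

/-- a family of cutoffs of the quanta -/
structure CutA (U : Set ℂ) (β : ℝ) (g : ℂ → ℂ → ℂ) : Prop where
  ms : ∀ θ ∈ U, Measurable (g θ)
  df : ∀ θ ∈ U, ∀ z : ℂ, z.re ∈ KT → DifferentiableAt ℂ (fun θ => g θ z) θ
  ub : ∀ a ∈ KT, UB U {a} (-(2 * β)) fun θ z => 1 - g θ z

theorem CutA.mono {U U' : Set ℂ} {β : ℝ} {g : ℂ → ℂ → ℂ} (h : CutA U β g) (hU : U' ⊆ U) : CutA U' β g :=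
  ⟨fun θ hθ => h.ms θ (hU hθ), fun θ hθ => h.df θ (hU hθ), fun a ha => (h.ub a ha).mono hU le_rfl⟩

theorem CutA.b0 {U : Set ℂ} {β : ℝ} (hβ : 0 < β) {g : ℂ → ℂ → ℂ} (h : CutA U β g) {a : ℝ} (ha : a ∈ KT) :
    UB U {a} 0 fun θ z => g θ z := by
  have h1 := (UB.const U {a} 1).sub ((h.ub a ha).mono_rate (s' := 0) (by linarith))
  exact h1.congr fun θ _ z _ => by ring

/-- fixed cutoffs -/
theorem cutA_const {U : Set ℂ} {β : ℝ} {g : ℂ → ℂ} (h : GOn KT β g) : CutA U β fun _ => g := by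
  obtain ⟨C, hC, h1⟩ := h.bd
  exact ⟨fun _ _ => h.meas, fun _ _ _ _ => differentiableAt_const _, fun a ha =>
    ⟨C, hC, fun θ _ z hz => h1 z (by rw [Set.mem_singleton_iff.1 hz]; exact ha)⟩⟩

/-- products of `psi` -/
theorem ub_prodF {U : Set ℂ} {lo β a : ℝ} (hlo : -l ≤ lo) (hβ : 0 < β) (hβ' : β ≤ 4 / 3) (ha : a ∈ KT)
    {r : ℕ} {w : ℂ → Fin r → ℂ} (h : ∀ i, FP lo U fun θ => w θ i) :
    UB U {a} (-(2 * β)) (fun θ z => 1 - ∏ i, psi β (z - w θ i)) ∧ UB U {a} 0 (fun θ z => ∏ i, psi β (z - w θ i)) := by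
  induction r with
  | zero =>
    refine ⟨⟨0, le_rfl, fun θ _ z _ => by simp⟩, (UB.const U {a} 1).congr fun θ _ z _ => by simp⟩
  | succ r ih =>
    obtain ⟨h1, h2⟩ := ih (w := fun θ i => w θ i.succ) fun i => h i.succ
    have a1 := (h 0).psi1 hlo hβ hβ' ha
    have a2 := (h 0).psi0 hlo hβ hβ' ha
    refine ⟨(a1.add ((a2.mul h1).rate (by ring))).congr fun θ _ z _ => ?_,
      ((a2.mul h2).rate (by ring)).congr fun θ _ z _ => ?_⟩
    · rw [Fin.prod_univ_succ]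
      ring
    · rw [Fin.prod_univ_succ]

/-- cutoffs of families of points -/
theorem cutA_gP {U : Set ℂ} {lo β : ℝ} (hlo : -l ≤ lo) (hβ : 0 < β) (hβ' : β ≤ 4 / 3) {r : ℕ}
    {w : ℂ → Fin r → ℂ} (h : ∀ i, FP lo U fun θ => w θ i) : CutA U β fun θ => gP β (List.ofFn (w θ)) where
  ms θ hθ := PBX.measurable_gP β _
  df θ hθ z hz := by
    simp only [← prod_gP]
    exact DifferentiableAt.fun_finsetProd fun i _ => (h i).dpsi hlo hβ hβ' hθ hz
  ub a ha := (ub_prodF hlo hβ hβ' ha h).1.congr fun θ _ z _ => by rw [prod_gP]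

/-! ### the row factor -/

/-- the lines -/
def LnO (a : ℝ) : Prop := a = 51 / 100 * l ∨ (-(49 / 20 * l) ≤ a ∧ a ≤ -l)

theorem LnO.kt {a : ℝ} (h : LnO a) : a ∈ KT := by
  have hl := Bd.l_pos
  rcases h with rfl | ⟨h1, h2⟩ <;> constructor <;> linarith

theorem LnO.np {a d : ℝ} (h : LnO a) (h1 : a - 51 / 100 * l < d) (h2 : d < a - -l) : NP d := by
  have hl := Bd.l_pos
  rcases h with rfl | ⟨h3, h4⟩
  · exact NP_pos (by linarith) (by linarith)
  · exact NP_neg (by linarith) (by linarith)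

section row

variable {U : Set ℂ} {x : ℂ → Fin m → ℂ} {y : ℂ → Fin M → ℂ}

/-- **the row factor** -/
theorem ub_RRF (c : ℂ) (hx : ∀ i, FP (-l) U fun θ => x θ i) (hy : ∀ i, FP (-l) U fun θ => y θ i) {a : ℝ}
    (ha : LnO a) : UB U {a} (2 * ((M : ℝ) - m)) fun θ z => RRU c (x θ) (y θ) z := by
  have h1 : UB U {a} _ (fun θ z => ∏ i : Fin m, 1 / sin (z - x θ i + ((0 : ℝ) : ℂ))) :=
    UB.prod Finset.univ fun i _ => (hx i).isin a 0 fun d h1 h2 => by
      rw [add_zero]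
      exact (ha.np h1 h2).1
  have h2 : UB U {a} _ (fun θ z => ∏ i : Fin m, 1 / sin (z - x θ i + ((-(2 * l) : ℝ) : ℂ))) :=
    UB.prod Finset.univ fun i _ => (hx i).isin a (-(2 * l)) fun d h1 h2 => by
      rw [← sub_eq_add_neg]
      exact (ha.np h1 h2).2
  have h3 : UB U {a} _ (fun θ z => ∏ i : Fin M, sin (z - y θ i + ((3 * l : ℝ) : ℂ)) ^ 2) :=
    UB.prod Finset.univ fun i _ => ((hy i).sin a (3 * l)).pow 2
  have h4 := ((((UB.const U {a} c).mul h1).mul h2).mul h3).rate (s' := 2 * ((M : ℝ) - m)) (by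
    simp only [Finset.card_univ, Fintype.card_fin]
    push_cast
    ring)
  refine h4.congr fun θ _ z _ => ?_
  unfold Pool.Agent.PLX.RRU
  push_cast
  simp only [add_zero, ← sub_eq_add_neg]

theorem diff_RRF (c : ℂ) {θ z : ℂ} (hx : ∀ i, DifferentiableAt ℂ (fun θ => x θ i) θ)
    (hy : ∀ i, DifferentiableAt ℂ (fun θ => y θ i) θ) (h : ∀ i, NP (z.re - (x θ i).re)) :
    DifferentiableAt ℂ (fun θ => RRU c (x θ) (y θ) z) θ := by
  have hN : ∀ i, NP (z - x θ i).re := fun i => by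
    rw [sub_re]
    exact h i
  unfold Pool.Agent.PLX.RRU
  have d1 := DifferentiableAt.fun_finsetProd (𝕜 := ℂ) (u := Finset.univ)
    (f := fun (i : Fin m) s => 1 / sin (z - x s i)) (x := θ) (fun i _ => by
      have h0 : sin (z - x θ i) ≠ 0 := Bd.sin_ne_zero_of_re (hN i).1
      exact (differentiableAt_const 1).div ((hx i).const_sub z).csin h0)
  have d2 := DifferentiableAt.fun_finsetProd (𝕜 := ℂ) (u := Finset.univ)
    (f := fun (i : Fin m) s => 1 / sin (z - x s i - 2 * l)) (x := θ) (fun i _ => by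
      have h0 : sin (z - x θ i - 2 * l) ≠ 0 := Bd.sin_ne_zero_of_re (by
        have := (hN i).2
        simpa using this)
      exact (differentiableAt_const 1).div (((hx i).const_sub z).sub_const _).csin h0)
  have d3 := DifferentiableAt.fun_finsetProd (𝕜 := ℂ) (u := Finset.univ)
    (f := fun (i : Fin M) s => sin (z - y s i + 3 * l) ^ 2) (x := θ) (fun i _ =>
      (((hy i).const_sub z).add_const _).csin.pow 2)
  exact (((differentiableAt_const c).mul d1).mul d2).mul d3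

theorem diff_RRF' (c : ℂ) (hx : ∀ i, FP (-l) U fun θ => x θ i) (hy : ∀ i, FP (-l) U fun θ => y θ i) {a : ℝ}
    (ha : LnO a) {θ z : ℂ} (hθ : θ ∈ U) (hz : z.re = a) : DifferentiableAt ℂ (fun θ => RRU c (x θ) (y θ) z) θ :=
  diff_RRF c (fun i => (hx i).df θ hθ) (fun i => (hy i).df θ hθ) fun i => by
    obtain ⟨h1, h2⟩ := (hx i).re hθ
    rw [hz]
    exact ha.np (by linarith) (by linarith)

/-- **the cutoff** -/
theorem ub_phF {β : ℝ} (hβ : 0 < β) (hβ' : β ≤ 4 / 3) (hx : ∀ i, FP (-l) U fun θ => x θ i) {g : ℂ → ℂ → ℂ}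
    (hg : CutA U β g) {a : ℝ} (ha : a ∈ KT) : UB U {a} (-(2 * β)) fun θ z => ph β (x θ) (g θ) z := by
  obtain ⟨h1, h2⟩ := ub_prodF le_rfl hβ hβ' ha hx
  refine (h1.add ((h2.mul (hg.ub a ha)).rate (by ring))).congr fun θ _ z _ => ?_
  unfold PBX.ph
  ring

theorem diff_phF {β : ℝ} (hβ : 0 < β) (hβ' : β ≤ 4 / 3) (hx : ∀ i, FP (-l) U fun θ => x θ i) {g : ℂ → ℂ → ℂ}
    {θ z : ℂ} (hg : DifferentiableAt ℂ (fun θ => g θ z) θ) (hθ : θ ∈ U) (hz : z.re ∈ KT) :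
    DifferentiableAt ℂ (fun θ => ph β (x θ) (g θ) z) θ := by
  unfold PBX.ph
  exact ((DifferentiableAt.fun_finsetProd fun i _ => (hx i).dpsi le_rfl hβ hβ' hθ hz).mul hg).const_sub 1

end row

end PLTX

end
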