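import Pool.Agent.PLT.H1One
import Pool.Agent.PLT.OwnGI
import Pool.Agent.PLT.StabP6

/-!
# The families of the classes `W W` over the rows on the axis (helper85)

* `stab_GI`: stability of every selection of the geometries of the rows on the axis, energy `enT par6`;
* **`uxRI_I`**: `UXC (famRI seaI) par6` (rows on the axis, class `W W`, wide window) from the gas;
* **`uxWI_I`**: `UXC (famWI seaI) par6` (the dislocated end) from the gas.
-/

set_option autoImplicit false
set_option linter.unusedSectionVars false
set_option linter.unusedVariables false

noncomputable section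

open Complex

namespace PLT.St

open PHK (par6)
open PLX (Fil)

attribute [local instance] _root_.PLX.ends0

variable [Fil]

/-- **stability** -/
theorem stab_GI (i : ℕ → HI) : StabU par6 (GeoC.sel (GI seaI (enT par6)) i).en :=
  stabP6 fun m => winP6_of (S := SH seaI m (i m)) fun x => by
    have e : @Cv.eta (SH seaI m (i m)) = fun _ => 0 := seaI_eta m (i m).1
    have hl := NUMF.l_pos
    rw [e, abs_zero]
    positivity

/-- **U1, U3, U4 of the class `W W`, rows on the axis, wide window** -/
theorem uxRI_I (h4 : S4MC seaIB par6 (enT par6)) : UXC (famRI seaI) par6 :=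
  ux_famRI (SB := seaIB) (S := seaI) (en := enT par6) (fun m h _ t => by rw [seaI_eta])
    (G := GI seaI (enT par6)) (gOk_I rfl rfl seaH_I (enT par6)) h4 stab_GI
    (fun i => oneRT_I rfl rfl (enT par6) i) (ownI_GI par6 (enT par6))

/-- **the same for the dislocated end** -/
theorem uxWI_I (h4 : S4MC seaIB par6 (enT par6)) : UXC (famWI seaI) par6 :=
  ux_famWI (SB := seaIB) (fun m h hh => seaH_I.sea m h hh) (fun m h _ t => by rw [seaI_eta])
    (uxRI_I h4)

end PLT.St

end
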