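import Pool.Agent.PLT.TriB

/-!
# The density of a Gaussian potential of one species (helper8, for 93)

**`exists_vinv`**: for every `d > 0` a continuous density `a` with decay `5/2` and
`∫ a u V (t - u) = exp (-t² / (2 d²))`; `gau_eq`: the closed form of the Gaussian.
-/

set_option autoImplicit false

open MeasureTheory Set Filter Topology

namespace PLT.Tri

noncomputable section

open NUMF (l l_pos V Lh Uh)
open NUC43
open NUC37 (cv)

variable {δ : ℝ}

theorem gau_eq (hδ : 0 < δ) (t : ℝ) : gau δ t = 1 / (δ * √(2 * Real.pi)) * Real.exp (-(t ^ 2 / (2 * δ ^ 2))) := by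
  have hpi := Real.pi_pos
  have hb : 0 < ((δ ^ 2 / 2 : ℝ) : ℂ).re := by
    rw [Complex.ofReal_re]
    positivity
  have h1 := fourierIntegral_gaussian hb (t : ℂ)
  have e1 : ∀ x : ℝ, Complex.exp (Complex.I * t * x) * Complex.exp (-((δ ^ 2 / 2 : ℝ) : ℂ) * x ^ 2) =
      ((Real.cos (t * x) * Real.exp (-(δ ^ 2 / 2) * (x * x)) : ℝ) : ℂ) +
        ((Real.sin (t * x) * Real.exp (-(δ ^ 2 / 2) * (x * x)) : ℝ) : ℂ) * Complex.I := by
    intro x
    rw [show Complex.I * t * x = ((t * x : ℝ) : ℂ) * Complex.I by push_cast; ring, Complex.exp_mul_I,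
      show (-((δ ^ 2 / 2 : ℝ) : ℂ) * x ^ 2) = ((-(δ ^ 2 / 2) * (x * x) : ℝ) : ℂ) by push_cast; ring,
      ← Complex.ofReal_exp, ← Complex.ofReal_cos, ← Complex.ofReal_sin]
    push_cast
    ring
  have hi : Integrable fun x : ℝ => Complex.exp (Complex.I * t * x) * Complex.exp (-((δ ^ 2 / 2 : ℝ) : ℂ) * x ^ 2) := by
    have h2 : Integrable fun x : ℝ => Real.exp (-(δ ^ 2 / 2) * (x * x)) := by
      have := integrable_exp_neg_mul_sq (b := δ ^ 2 / 2) (by positivity)
      refine this.congr (ae_of_all _ fun x => ?_)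
      simp only
      rw [sq x]
    have h3 : Integrable fun x : ℝ => ((Real.cos (t * x) * Real.exp (-(δ ^ 2 / 2) * (x * x)) : ℝ) : ℂ) +
        ((Real.sin (t * x) * Real.exp (-(δ ^ 2 / 2) * (x * x)) : ℝ) : ℂ) * Complex.I := by
      have hc : Integrable fun x : ℝ => Real.cos (t * x) * Real.exp (-(δ ^ 2 / 2) * (x * x)) :=
        h2.bdd_mul (c := 1) (Continuous.aestronglyMeasurable (by fun_prop))
          (ae_of_all _ fun x => Real.abs_cos_le_one _)
      have hs : Integrable fun x : ℝ => Real.sin (t * x) * Real.exp (-(δ ^ 2 / 2) * (x * x)) :=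
        h2.bdd_mul (c := 1) (Continuous.aestronglyMeasurable (by fun_prop))
          (ae_of_all _ fun x => Real.abs_sin_le_one _)
      exact hc.ofReal.add (hs.ofReal.mul_const _)
    exact h3.congr (ae_of_all _ fun x => (e1 x).symm)
  have h4 : ∫ x : ℝ, Real.cos (t * x) * Real.exp (-(δ ^ 2 / 2) * (x * x)) =
      √(2 * Real.pi) / δ * Real.exp (-(t ^ 2 / (2 * δ ^ 2))) := by
    have h5 := congrArg Complex.re h1
    have h6 : (∫ x : ℝ, Complex.exp (Complex.I * t * x) * Complex.exp (-((δ ^ 2 / 2 : ℝ) : ℂ) * x ^ 2)).re =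
        ∫ x : ℝ, Real.cos (t * x) * Real.exp (-(δ ^ 2 / 2) * (x * x)) := by
      rw [← Complex.reCLM_apply, ← Complex.reCLM.integral_comp_comm hi]
      congr 1
      funext x
      rw [e1, Complex.reCLM_apply, Complex.add_re, Complex.ofReal_re, Complex.re_ofReal_mul, Complex.I_re,
        mul_zero, add_zero]
    rw [h6] at h5
    rw [h5]
    have e2 : ((Real.pi : ℂ) / ((δ ^ 2 / 2 : ℝ) : ℂ)) ^ (1 / 2 : ℂ) = ((√(2 * Real.pi) / δ : ℝ) : ℂ) := by
      rw [← Complex.ofReal_div, show (1 / 2 : ℂ) = ((1 / 2 : ℝ) : ℂ) by push_cast; ring,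
        ← Complex.ofReal_cpow (by positivity), ← Real.sqrt_eq_rpow]
      congr 1
      rw [show Real.pi / (δ ^ 2 / 2) = 2 * Real.pi / δ ^ 2 by field_simp, Real.sqrt_div (by positivity),
        Real.sqrt_sq hδ.le]
    have e3 : -(t : ℂ) ^ 2 / (4 * ((δ ^ 2 / 2 : ℝ) : ℂ)) = ((-(t ^ 2 / (2 * δ ^ 2)) : ℝ) : ℂ) := by
      push_cast
      field_simp
      ring
    rw [e2, e3, ← Complex.ofReal_exp, ← Complex.ofReal_mul, Complex.ofReal_re]
  have h7 : ∫ x : ℝ, Real.cos (t * x) * Real.exp (-(δ ^ 2 / 2) * (x * x)) =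
      2 * ∫ x in Ioi (0 : ℝ), Real.cos (t * x) * Real.exp (-(δ ^ 2 / 2) * (x * x)) := by
    rw [← integral_comp_abs (f := fun x => Real.cos (t * x) * Real.exp (-(δ ^ 2 / 2) * (x * x)))]
    congr 1
    funext x
    rcases abs_cases x with ⟨h, _⟩ | ⟨h, _⟩
    · rw [h]
    · rw [h]
      simp only [mul_neg, Real.cos_neg, neg_mul, neg_neg]
  unfold gau inv
  have e4 : ∀ k : ℝ, 2 * Real.cos (t * k) * ((gs δ k).re / (2 * Real.pi)) =
      1 / Real.pi * (Real.cos (t * k) * Real.exp (-(δ ^ 2 / 2) * (k * k))) := by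
    intro k
    rw [gs_real, Complex.ofReal_re]
    field_simp
  simp_rw [e4]
  rw [integral_const_mul]
  have h8 : ∫ x in Ioi (0 : ℝ), Real.cos (t * x) * Real.exp (-(δ ^ 2 / 2) * (x * x)) =
      √(2 * Real.pi) / δ * Real.exp (-(t ^ 2 / (2 * δ ^ 2))) / 2 := by
    rw [← h4, h7]
    ring
  rw [h8]
  have h9 : √(2 * Real.pi) * √(2 * Real.pi) = 2 * Real.pi := Real.mul_self_sqrt (by positivity)
  have h10 : √(2 * Real.pi) ≠ 0 := by positivity
  field_simp
  rw [sq, mul_comm Real.pi 2, h9]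

theorem gau_nonneg (hδ : 0 < δ) (t : ℝ) : 0 ≤ gau δ t := by
  rw [gau_eq hδ]
  positivity

/-- **the density of a Gaussian potential** -/
theorem exists_vinv {d : ℝ} (hd : 0 < d) : ∃ a : ℝ → ℝ, ∃ M : ℝ, Continuous a ∧ (∀ t, a (-t) = a t) ∧
    (∀ t, |a t| ≤ M * Real.exp (-(5 / 2) * |t|)) ∧
    ∀ t, ∫ u, a u * V (t - u) = Real.exp (-(t ^ 2 / (2 * d ^ 2))) := by
  have hpi := Real.pi_pos
  have hG := gr_Fp hd
  have hn : (-1 : ℝ) < 0 := by norm_num
  obtain ⟨M, hM, H⟩ := hG.inv_decay hn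
  obtain ⟨C, hC⟩ : ∃ C, C = d * √(2 * Real.pi) := ⟨_, rfl⟩
  have hC0 : 0 < C := by rw [hC]; positivity
  refine ⟨fun t => C * inv (Fp d) t, C * M, (hG.inv_cont hn).const_mul C, fun t => by
    beta_reduce; rw [inv_neg'], fun t => ?_, fun t => ?_⟩
  · rw [abs_mul, abs_of_pos hC0, mul_assoc]
    exact mul_le_mul_of_nonneg_left (H t) hC0.le
  · have e1 : ∫ u, C * inv (Fp d) u * V (t - u) = C * ∫ s, V s * inv (Fp d) (t - s) := by
      rw [← integral_const_mul, ← integral_sub_left_eq_self (fun s => C * (V s * inv (Fp d) (t - s))) volume t]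
      congr 1
      funext u
      rw [show t - (t - u) = u by ring]
      ring
    rw [e1, hG.conv_inv hn V_integrable V_even t]
    have e2 : ∫ k in Ioi (0 : ℝ), 2 * Real.cos (t * k) * (ct V k * (Fp d k).re / (2 * Real.pi)) = gau d t := by
      unfold gau inv
      refine setIntegral_congr_fun measurableSet_Ioi fun k hk => ?_
      have cV : ct V k = Uh k := NUC37.CT_V.ft k hk
      rw [cV, Fp_re hk, gs_real, Complex.ofReal_re]
      rfl
    rw [e2, gau_eq hd, ← hC, ← mul_assoc]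
    have : C * (1 / C) = 1 := by field_simp
    rw [this, one_mul]

end

end PLT.Tri
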