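import Pool.Agent.PLT.ValC0
import Pool.Agent.PLT.GasF
import Pool.Agent.PLX.PB.TopG0

/-!
# The value of the dislocated function of a content

* `cur_numC`: the exponents of the current over a sea on a static curve, as `PBT.PLX.cur_num`;
* **`valLC`**: for the sea of a content, `x` the rows of the content (exact numbers), legs at `z`:
  `‖Pf z x (yq x)‖ exp (MF (sN m) + linN (Hlg 1 z)) ≤ C exp (-(1 - e1) Tb (log m) + 2 |Im z|)`,
  uniformly in the sea of the class, `-(9/10) l ≤ Re z ≤ (31/10) l`, `|Im z| ≤ (3/20) log m + 2`.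
-/

set_option autoImplicit false
set_option linter.unusedSectionVars false
set_option linter.unusedVariables false

open MeasureTheory Set Filter Topology Complex
open PLX (Fil Ends)

noncomputable section

namespace PLT.Le

open NUMF (l l_pos)
open NUO (Tb)
open PBO.PLX (thZ)
open NUGC.PLX (ThN pE qE hC)
open Pool.Agent.PLX (yq)
open PotH.PLX (sN sN_nonneg sN_true)
open Cv (ga hd etaC etaC')

/-- **the exponents of the current**: `-(1 - e1) Tb + 2 |Im z| + O(1)` -/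
theorem cur_numC (B : SeaCB) {e1 : ℝ} (he : 0 < e1) (he1 : e1 ≤ 1 / 100) {J : ℝ} (hJ : 0 ≤ J) :
    ∃ C : ℝ, 0 ≤ C ∧ ∃ m0 : ℕ, 1 ≤ m0 ∧ ∀ [SeaC] [SeaCU B], ∀ m : ℕ, m0 ≤ m →
      (∀ t, |hd m (etaC e1 J m m) (etaC' e1 J m m) t| ≤ 1) ∧
      ∀ y : ℝ, |y| ≤ 3 / 20 * Real.log m + 2 →
        NUCR.bil (hd m (etaC e1 J m m) (etaC' e1 J m m)) (hd m (etaC e1 J m m) (etaC' e1 J m m)) -
          12 * l * (m * Cv.P y * etaC e1 J m m y) ≤
            -((1 - e1) * Tb (Real.log m)) + 2 * |y| + C := by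
  let _ := NUSea.seaP
  obtain ⟨C, hC0, m0, hm0, H⟩ := PBT.PLX.cur_num he he1 hJ
  refine ⟨C, hC0, m0, hm0, @fun _ hS m hm => ?_⟩
  obtain ⟨-, h1, h2⟩ := H m hm
  have hm1 : 1 ≤ m := hm0.trans hm
  have hmp : (0 : ℝ) < m := by exact_mod_cast hm1
  have e1' : hd (m : ℝ) (etaC e1 J m m) (etaC' e1 J m m) = deriv (hC e1 J m) :=
    Cv.hd_curC B hmp
  have e2 : NUSea.PLX.hd (m : ℝ) (PBT.PLX.etL e1 J m) (PBT.PLX.etL' e1 J m) =
      deriv (hC e1 J m) := NUGC.PLX.hd_curC hmp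
  rw [e2] at h1 h2
  rw [e1']
  refine ⟨h1, fun y hy => ?_⟩
  have h3 := h2 y hy
  rw [PBT.PLX.mul_etL e1 J hm1] at h3
  rw [Cv.mul_etaC B hmp]
  exact h3

variable [Fil] [Ends]

/-- **the value of the dislocated function of a content** -/
theorem valLC (B : SeaCB) (ho : Ends.o = 0) (hoe : Ends.e = 0) {e1 : ℝ} (he : 0 < e1)
    (he1 : e1 ≤ 1 / 100) {J : ℝ} (hJ : 0 ≤ J) :
    ∃ C : ℝ, 0 ≤ C ∧ ∃ m0 : ℕ, ∀ [SeaC] [SeaCU B], ∀ {ι : Type} [Fintype ι] {w : ι → ℝ}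
      {X : ι → ℂ},
      SeaV w X → ∀ m : ℕ, m0 ≤ m → ∀ x : Fin m → ℂ, CntV w X x → ∀ z : ℂ,
      -(9 / 10 * l) ≤ z.re → z.re ≤ 31 / 10 * l → |z.im| ≤ 3 / 20 * Real.log m + 2 →
      ‖Pool.Agent.PB.Pf z x (yq x)‖ * Real.exp (Cv.MF (sN m) +
          linN (etaC e1 J m m) (etaC' e1 J m m) m (Hlg 1 z (etaC e1 J m m))) ≤
        C * Real.exp (-((1 - e1) * Tb (Real.log m)) + 2 * |z.im|) := by
  obtain ⟨Cc, hCc, mc, hmc, Hc⟩ := exists_crvC B he he1 hJ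
  obtain ⟨C1, hC1, m1, hm1, H1⟩ := cur_numC B he he1 hJ
  obtain ⟨C2, hC2, m2, hm2, H2⟩ := exists_HDC B he (by linarith : e1 ≤ 1) (by linarith : 0 ≤ Cc)
  obtain ⟨c0, hc0⟩ : ∃ c0 : ℝ, c0 = Real.log (3 / 2 * ‖sin (NUP1.l : ℂ)‖ / ‖PBR.rh 0‖) := ⟨_, rfl⟩
  refine ⟨Real.exp (c0 + C1 + C2), (Real.exp_pos _).le, max mc (max m1 m2), ?_⟩
  intro S hS ι _ w X hw m hm x hx z z1 z2 z3
  have k1 : mc ≤ m := (le_max_left _ _).trans hm
  have k2 : m1 ≤ m := ((le_max_left _ _).trans (le_max_right _ _)).trans hm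
  have k3 : m2 ≤ m := ((le_max_right _ _).trans (le_max_right _ _)).trans hm
  have hm' : 1 ≤ m := hmc.trans k1
  have hmp : (0 : ℝ) < m := by exact_mod_cast hm'
  have hl := l_pos
  obtain ⟨-, hcv⟩ := Hc m k1
  obtain ⟨hd1, hb⟩ := H1 m k2
  obtain ⟨i1, i2, hD⟩ := H2 m k3 _ _ hcv hd1 1 z (by norm_num) z1 (by linarith)
  obtain ⟨hne, hv⟩ := log_Pf_C hw hx z1 z2
  rw [← hc0] at hv
  have hb' := hb z.im z3
  have hs : ∀ a : Bool, sN m a = Fil.b a * m := by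
    intro a
    unfold PotH.PLX.sN
    rw [Fil.cast_ne a hm', ho, hoe]
    push_cast
    cases a <;> simp
  have hsf : (sN m : Bool → ℝ) = fun a => Fil.b a * m := funext hs
  -- the static potential
  have jl := (int_leg hw z1 z2).1
  have hDD : ∀ (a : Bool) (t : ℝ), (NUSp.DD pE qE [] a (ga t)).re = Real.log (ThN (l + I * ga t)) := by
    intro a t
    refine DD0_th a ?_
    rw [Cv.ga_im, abs_lt]
    have := Cv.eta_nn t
    have := Cv.eta_le t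
    constructor <;> linarith
  have jth : ∀ a, Integrable fun t => sN m a * Cv.P t * (NUSp.DD pE qE [] a (ga t)).re := by
    intro a
    have h3 := (jl.const_mul (sN m a)).sub (i2 a)
    refine h3.congr (Eventually.of_forall fun t => ?_)
    simp only [Pi.sub_apply]
    rw [hDD]
    unfold Hst
    ring
  have e3 : ∀ a, ∫ t, sN m a * Cv.P t * ((NUSp.DD pE qE [] a (ga t)).re +
      Hlg 1 z (etaC e1 J m m) a t) =
      (sN m a * ∫ t, Cv.P t * Real.log (thZ z (l + I * ga t))) +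
        ((∫ t, sN m a * Cv.P t * Hlg 1 z (etaC e1 J m m) a t) -
          ∫ t, sN m a * Cv.P t * Hst 1 z t) := by
    intro a
    have f1 : (fun t => sN m a * Cv.P t * ((NUSp.DD pE qE [] a (ga t)).re +
        Hlg 1 z (etaC e1 J m m) a t)) = fun t =>
        sN m a * Cv.P t * (NUSp.DD pE qE [] a (ga t)).re +
          sN m a * Cv.P t * Hlg 1 z (etaC e1 J m m) a t := by
      funext t
      ring
    have f2 : ∫ t, sN m a * Cv.P t * (NUSp.DD pE qE [] a (ga t)).re =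
        (sN m a * ∫ t, Cv.P t * Real.log (thZ z (l + I * ga t))) -
          ∫ t, sN m a * Cv.P t * Hst 1 z t := by
      rw [← integral_const_mul, ← integral_sub (jl.const_mul _) (i2 a)]
      refine integral_congr_ae (Eventually.of_forall fun t => ?_)
      simp only
      rw [hDD]
      unfold Hst
      ring
    rw [f1, integral_add (jth a) (i1 a), f2]
    ring
  have e4 : linN (etaC e1 J m m) (etaC' e1 J m m) m (Hlg 1 z (etaC e1 J m m)) =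
      (NUCR.bil (hd m (etaC e1 J m m) (etaC' e1 J m m)) (hd m (etaC e1 J m m) (etaC' e1 J m m)) -
        24 * l * (m * Cv.P 0 * etaC e1 J m m 0)) +
      ((∑ a, sN m a * ∫ t, Cv.P t * Real.log (thZ z (l + I * ga t))) +
        ((∑ a, ∫ t, sN m a * Cv.P t * Hlg 1 z (etaC e1 J m m) a t) -
          ∑ a, ∫ t, sN m a * Cv.P t * Hst 1 z t)) := by
    unfold linN crC
    simp only [e3]
    rw [Finset.sum_add_distrib, Finset.sum_sub_distrib]
  have hN := norm_pos_iff.2 hne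
  have e5 : (∑ a, Fil.b a * (m : ℝ) * ∫ t, Cv.P t * Real.log (thZ z (l + I * ga t))) =
      ∑ a, sN m a * ∫ t, Cv.P t * Real.log (thZ z (l + I * ga t)) :=
    Finset.sum_congr rfl fun a _ => by rw [hs a]
  rw [e5] at hv
  rw [e4, hsf, ← Real.exp_log hN, ← Real.exp_add, ← Real.exp_add]
  refine Real.exp_le_exp.2 ?_
  have h5 := (abs_le.1 hD).2
  rw [hsf] at h5 hv
  obtain ⟨N, hNd⟩ : ∃ N, N = Real.log ‖Pool.Agent.PB.Pf z x (yq x)‖ := ⟨_, rfl⟩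
  obtain ⟨M, hM⟩ : ∃ M, M = Cv.MF fun a => Fil.b a * (m : ℝ) := ⟨_, rfl⟩
  obtain ⟨Λ, hΛ⟩ : ∃ Λ, Λ = ∑ a, Fil.b a * (m : ℝ) *
    ∫ t, Cv.P t * Real.log (thZ z (l + I * ga t)) := ⟨_, rfl⟩
  obtain ⟨I1, hI1⟩ : ∃ I1, I1 = ∑ a, ∫ t, Fil.b a * (m : ℝ) * Cv.P t *
    Hlg 1 z (etaC e1 J m m) a t := ⟨_, rfl⟩
  obtain ⟨I2, hI2⟩ : ∃ I2, I2 = ∑ a, ∫ t, Fil.b a * (m : ℝ) * Cv.P t * Hst 1 z t := ⟨_, rfl⟩
  obtain ⟨bl, hbl⟩ : ∃ bl, bl = NUCR.bil (hd m (etaC e1 J m m) (etaC' e1 J m m))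
    (hd m (etaC e1 J m m) (etaC' e1 J m m)) := ⟨_, rfl⟩
  rw [← hNd, ← hM, ← hΛ] at hv
  rw [← hI1, ← hI2] at h5
  rw [← hbl] at hb'
  rw [← hNd, ← hM, ← hΛ, ← hI1, ← hI2, ← hbl]
  linarith only [hv, h5, hb']

end PLT.Le

end
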