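import Pool.Agent.PLT.WardCfC
import Pool.Agent.PLX.PB.WPc

/-!
# The second Ward identity on the curves `D`, pieces of the remainder

Field `X s = β s / (b s (ρ + 1))`, `ρ` one fold, `g = rsp β`, `e = rsp (b X)`; force
`leg + cut + obFC` (legs, cutoff, objects); shifted height `w = z - i y0`.
* `obFC y0 LP`, `PpC y0 LP β`, `QpC y0 D ρ X e leg cut LP` (`obFC_zero`, `PpC_zero`: the landed ones for
  `y0 = 0`); `pc_eqC`;
* `FdWC`: the data of a field; `FdWC.eq`, `FdWC.evN_eq`, `FdWC.vy_sub`, `FdWC.mP`, `FdWC.mQ`;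
* **`ward_pcC`**: for every differentiable insertion
  `F[V g Ψ] = (∑ ∫ β leg) F[Ψ] + F[(Qp + Pp) Ψ] + F[D_X Ψ]`; `ward_pc_oneC`, `ward_pc_vhC`.
-/

set_option autoImplicit false
set_option linter.unusedSectionVars false

noncomputable section

open Complex MeasureTheory Finset
open scoped ENNReal

open PLX (Fil)

namespace PLT

open NUO NUP1 NUCR NUP1S NUP1S.Ab NUP1S.AbC NUGC NUGC.PLX PBFunc PBFunc.PLX PHK
open PBF.PLX (gK Ins DIns Flds FldD DX LT lamY MIn dN dSm spQ)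
open PBWP.PLX (obF Pp mB sum_rho)

/-- the force of the objects at the shifted height `z` -/
def obFC (y0 : ℝ) (LP : (r : ℕ) → (Fin r → Xo) → Bool → ℂ → ℂ) (r : ℕ) (O : Fin r → Xo) (s : Bool)
    (z : ℂ) : ℂ := I * LP r O s (NUP1.l + I * (z + I * y0))

theorem obFC_zero (LP : (r : ℕ) → (Fin r → Xo) → Bool → ℂ → ℂ) : obFC 0 LP = obF LP := by
  funext r O s z
  unfold obFC obF
  rw [ofReal_zero, mul_zero, add_zero]

/-- the response of the objects to `β` -/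
def PpC (y0 : ℝ) (LP : (r : ℕ) → (Fin r → Xo) → Bool → ℂ → ℂ) (β : Bool → ℂ → ℂ) : Ins :=
  fun r O _ _ _ => ∑ s, ∫ t : ℝ, β s t * obFC y0 LP r O s t

theorem PpC_zero (LP : (r : ℕ) → (Fin r → Xo) → Bool → ℂ → ℂ) (β : Bool → ℂ → ℂ) :
    PpC 0 LP β = Pp LP β := by
  unfold PpC Pp
  rw [obFC_zero]

variable [Fil]

/-- the remainder without the response of the objects to `β` -/
def QpC (y0 : ℝ) (D : CrsC) (ρ : ℂ → ℂ) (X e leg cut : Bool → ℂ → ℂ)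
    (LP : (r : ℕ) → (Fin r → Xo) → Bool → ℂ → ℂ) : Ins := fun r O a b x =>
  VyC y0 D ρ e r O a b x + QyC y0 D ρ X r O a b x +
  VyC y0 D ρ (fun s z => X s z * leg s z) r O a b x +
  VyC y0 D ρ (fun s z => X s z * cut s z) r O a b x +
  VyC y0 D ρ (fun s z => X s z * obFC y0 LP r O s z) r O a b x +
  ((∑ s, ∫ t : ℝ, (Fil.b s : ℂ) * ρ t * (X s t * cut s t)) -
    (∑ s, ∫ t : ℝ, (Fil.b s : ℂ) * X s t * leg s t) -
    ∑ s, ∫ t : ℝ, (Fil.b s : ℂ) * X s t * obFC y0 LP r O s t)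

/-- **the remainder in pieces** -/
theorem pc_eqC {y0 : ℝ} {D : CrsC} {ρ : ℂ → ℂ} {β X e leg cut : Bool → ℂ → ℂ} {LZ : Bool → ℂ → ℂ}
    {LP : (r : ℕ) → (Fin r → Xo) → Bool → ℂ → ℂ} {r a b : ℕ} {O : Fin r → Xo}
    {x : (Fin a → ℝ) × (Fin b → ℝ)}
    (hβ : ∀ s (t : ℝ), (Fil.b s : ℂ) * ρ t * X s t = β s t - (Fil.b s : ℂ) * X s t)
    (hl : ∀ k : Fin a ⊕ Fin b, I * LZ (spQ a b k) (NUP1.l + I * (zqyC y0 D r O x k + I * y0)) -
      PB.kp2 ρ (spQ a b k) (zqyC y0 D r O x k) =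
      leg (spQ a b k) (zqyC y0 D r O x k) + cut (spQ a b k) (zqyC y0 D r O x k))
    (i1 : ∀ s, Integrable fun t : ℝ => β s t * leg s t)
    (i2 : ∀ s, Integrable fun t : ℝ => X s t * leg s t)
    (i3 : ∀ s, Integrable fun t : ℝ => β s t * obFC y0 LP r O s t)
    (i4 : ∀ s, Integrable fun t : ℝ => X s t * obFC y0 LP r O s t) :
    VyC y0 D ρ e r O a b x + RmYC y0 D ρ X (LT LZ LP) r O a b x =
      (∑ s, ∫ t : ℝ, β s t * leg s t) +
        (QpC y0 D ρ X e leg cut LP r O a b x + PpC y0 LP β r O a b x) := by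
  have e1 : SyC y0 D (fun r O s z => X s z * lamY y0 ρ (LT LZ LP) r O s z) r O a b x =
      SyC y0 D (fun _ _ s z => X s z * leg s z) r O a b x +
      SyC y0 D (fun _ _ s z => X s z * cut s z) r O a b x +
      SyC y0 D (fun _ _ s z => X s z * obFC y0 LP r O s z) r O a b x := by
    unfold SyC
    rw [← Finset.sum_add_distrib, ← Finset.sum_add_distrib]
    refine Finset.sum_congr rfl fun k _ => ?_
    have h1 := hl k
    unfold PBF.PLX.lamY PBF.PLX.LT obFC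
    linear_combination (X (spQ a b k) (zqyC y0 D r O x k)) * h1
  have e2 := sum_rho (f := leg) hβ i1 i2
  have e3 := sum_rho (f := obFC y0 LP r O) hβ i3 i4
  unfold RmYC QpC PpC
  rw [e1, SyC_eq (ρ := ρ), SyC_eq (ρ := ρ), SyC_eq (ρ := ρ), e2, e3]
  ring

/-! ### measurability -/

section meas

variable {LP : (r : ℕ) → (Fin r → Xo) → Bool → ℂ → ℂ}

theorem meas_obFC (y0 : ℝ) (mP : ∀ r s, Measurable fun p : (Fin r → Xo) × ℂ => LP r p.1 s p.2)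
    (r : ℕ) (s : Bool) : Measurable fun p : (Fin r → Xo) × ℂ => obFC y0 LP r p.1 s p.2 := by
  unfold obFC
  exact measurable_const.mul ((mP r s).comp (measurable_fst.prodMk
    (measurable_const.add (measurable_const.mul (measurable_snd.add measurable_const)))))

theorem mPpC (y0 : ℝ) (mP : ∀ r s, Measurable fun p : (Fin r → Xo) × ℂ => LP r p.1 s p.2)
    {β : Bool → ℂ → ℂ} (hβ : ∀ s, Measurable fun t : ℝ => β s t) : MIn (PpC y0 LP β) := by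
  intro r a b
  unfold PpC
  refine Finset.measurable_fun_sum _ fun s _ => ?_
  have h1 : Measurable fun p : (Fin r → Xo) × ℝ => β s p.2 * obFC y0 LP r p.1 s p.2 :=
    ((hβ s).comp measurable_snd).mul ((meas_obFC y0 mP r s).comp
      (measurable_fst.prodMk (Complex.measurable_ofReal.comp measurable_snd)))
  exact (h1.stronglyMeasurable.integral_prod_right').measurable.comp measurable_fst

end meas

/-! ### the identity of the functional -/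

section ward

variable {N : ℕ} {Z : ℕ → Bool → Option O3 → ℂ → ℂ} {P : ℕ → Par6} {D D1 : ℕ → CrsC}
  {c : ℕ → ℂ} {lo hi y0 b0 b1 : ℝ} {κ : ℕ → ℝ} {LZ : ℕ → Bool → ℂ → ℂ}
  {LP : ℕ → (r : ℕ) → (Fin r → Xo) → Bool → ℂ → ℂ} {ρ : ℂ → ℂ}
  {β X g e leg cut : Bool → ℂ → ℂ}

/-- **the data of a field**: `b X = β / (ρ + 1)`, `g = rsp β`, `e = rsp (b X)`, force `leg + cut`
on the curves -/
structure FdWC (N : ℕ) (D : ℕ → CrsC) (y0 b1 : ℝ) (LZ : ℕ → Bool → ℂ → ℂ)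
    (LP : ℕ → (r : ℕ) → (Fin r → Xo) → Bool → ℂ → ℂ) (ρ : ℂ → ℂ)
    (β X g e leg cut : Bool → ℂ → ℂ) : Prop where
  fX : PB.FldF b1 X
  rs : ∀ s (z : ℂ), |z.im| < b1 → g s z - e s z = PB.rsp (PB.mulF2 ρ X) s z
  gd : ∀ s (z : ℂ), |z.im| < b1 → DifferentiableAt ℂ (g s) z
  ed : ∀ s (z : ℂ), |z.im| < b1 → DifferentiableAt ℂ (e s) z
  ig : ∀ s, Integrable fun t : ℝ => ρ t * g s t
  ie : ∀ s, Integrable fun t : ℝ => ρ t * e s t
  mβ : ∀ s, Measurable fun t : ℝ => β s t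
  hβ : ∀ s (t : ℝ), (Fil.b s : ℂ) * ρ t * X s t = β s t - (Fil.b s : ℂ) * X s t
  hl : ∀ n ≤ N, ∀ r O s (t : ℝ), I * LZ n s (ptC (D n r O) s t) -
    PB.kp2 ρ s (zyC y0 (D n r O) s t) =
    leg s (zyC y0 (D n r O) s t) + cut s (zyC y0 (D n r O) s t)
  i1 : ∀ s, Integrable fun t : ℝ => β s t * leg s t
  i2 : ∀ s, Integrable fun t : ℝ => X s t * leg s t
  i3 : ∀ n ≤ N, ∀ r O s, Integrable fun t : ℝ => β s t * obFC y0 (LP n) r O s t
  i4 : ∀ n ≤ N, ∀ r O s, Integrable fun t : ℝ => X s t * obFC y0 (LP n) r O s t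

theorem FdWC.eq (w : FdWC N D y0 b1 LZ LP ρ β X g e leg cut) {n : ℕ} (hn : n ≤ N) (r : ℕ)
    (O : Fin r → Xo) (a b : ℕ) (x : (Fin a → ℝ) × (Fin b → ℝ)) :
    VyC y0 (D n) ρ e r O a b x + RmYC y0 (D n) ρ X (LT (LZ n) (LP n)) r O a b x = mB β leg +
      (QpC y0 (D n) ρ X e leg cut (LP n) r O a b x + PpC y0 (LP n) β r O a b x) :=
  pc_eqC w.hβ (fun k => by
    have h1 := w.hl n hn r O (spQ a b k) (Sum.elim x.1 x.2 k)
    rw [ptC_zyC y0] at h1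
    exact h1) w.i1 w.i2 (w.i3 n hn r O) (w.i4 n hn r O)

theorem FdWC.evN_eq (w : FdWC N D y0 b1 LZ LP ρ β X g e leg cut) (ω : CfN6 N) :
    evN6 (fun n => VyC y0 (D n) ρ e) ω +
        evN6 (fun n => RmYC y0 (D n) ρ X (LT (LZ n) (LP n))) ω =
      mB β leg + (evN6 (fun n => QpC y0 (D n) ρ X e leg cut (LP n)) ω +
        evN6 (fun n => PpC y0 (LP n) β) ω) :=
  w.eq (by have := ω.1.2; omega) _ _ _ _ _

theorem FdWC.vy_sub (w : FdWC N D y0 b1 LZ LP ρ β X g e leg cut) (D0 : CrsC) (r : ℕ)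
    (O : Fin r → Xo) (a b : ℕ) (x : (Fin a → ℝ) × (Fin b → ℝ)) :
    VyC y0 D0 ρ (fun s z => g s z - e s z) r O a b x =
      VyC y0 D0 ρ g r O a b x - VyC y0 D0 ρ e r O a b x := by
  unfold VyC PB.NX.nuL PB.rS2 PB.eR
  have h1 : ∑ s, ∫ u : ℝ, (Fil.b s : ℂ) * ρ u * (g s u - e s u) =
      (∑ s, ∫ u : ℝ, (Fil.b s : ℂ) * ρ u * g s u) -
        ∑ s, ∫ u : ℝ, (Fil.b s : ℂ) * ρ u * e s u := by
    rw [← Finset.sum_sub_distrib]
    refine Finset.sum_congr rfl fun s _ => ?_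
    have jg : Integrable fun u : ℝ => (Fil.b s : ℂ) * ρ u * g s u := by
      refine ((w.ig s).const_mul (Fil.b s : ℂ)).congr (Filter.Eventually.of_forall fun t => ?_)
      simp only []
      ring
    have je : Integrable fun u : ℝ => (Fil.b s : ℂ) * ρ u * e s u := by
      refine ((w.ie s).const_mul (Fil.b s : ℂ)).congr (Filter.Eventually.of_forall fun t => ?_)
      simp only []
      ring
    rw [← integral_sub jg je]
    refine integral_congr_ae (Filter.Eventually.of_forall fun u => ?_)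
    simp only []
    ring
  rw [h1, Finset.sum_sub_distrib]
  ring

theorem FdWC.mP (h : FibNC N Z P D D1 lo hi y0 b0 b1 κ LZ LP ρ)
    (w : FdWC N D y0 b1 LZ LP ρ β X g e leg cut) {n : ℕ} (hn : n ≤ N) :
    MIn (PpC y0 (LP n) β) := mPpC y0 (h.mP n hn) w.mβ

theorem FdWC.mQ (h : FibNC N Z P D D1 lo hi y0 b0 b1 κ LZ LP ρ)
    (w : FdWC N D y0 b1 LZ LP ρ β X g e leg cut) {n : ℕ} (hn : n ≤ N) :
    MIn (QpC y0 (D n) ρ X e leg cut (LP n)) := by
  have h1 := MIn.vyC (h.mc n hn) (h.hs n hn) h.b01 ρ w.ed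
  have h2 := h.mRm w.fX hn
  have h3 := w.mP h hn
  intro r a b
  have e1 : (fun p : (Fin r → Xo) × ((Fin a → ℝ) × (Fin b → ℝ)) =>
      QpC y0 (D n) ρ X e leg cut (LP n) r p.1 a b p.2) = fun p =>
      VyC y0 (D n) ρ e r p.1 a b p.2 + RmYC y0 (D n) ρ X (LT (LZ n) (LP n)) r p.1 a b p.2 -
        mB β leg - PpC y0 (LP n) β r p.1 a b p.2 := by
    funext p
    rw [w.eq hn]
    ring
  rw [e1]
  exact (((h1 r a b).add (h2 r a b)).sub measurable_const).sub (h3 r a b)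

/-- **the second Ward identity in pieces** -/
theorem ward_pcC (h : FibNC N Z P D D1 lo hi y0 b0 b1 κ LZ LP ρ)
    (w : FdWC N D y0 b1 LZ LP ρ β X g e leg cut) {Ψ : ℕ → Ins} {dΨ : ℕ → DIns}
    (hΨ : ∀ n ≤ N, InsDC (D1 n) (Ψ n) (dΨ n)) (mΨ : ∀ n ≤ N, MIn (Ψ n))
    (mdΨ : ∀ n ≤ N, ∀ r a b (k : Fin a ⊕ Fin b), Measurable
      fun p : (Fin r → Xo) × ((Fin a → ℝ) × (Fin b → ℝ)) => dΨ n r p.1 a b k p.2)
    (j1 : WI (mN6 N) (wNC Z P N D D1 c) fun ω => evN6 (fun n => VyC y0 (D n) ρ g) ω * evN6 Ψ ω)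
    (j2 : WI (mN6 N) (wNC Z P N D D1 c) fun ω => evN6 (fun n => VyC y0 (D n) ρ e) ω * evN6 Ψ ω)
    (j3 : WI (mN6 N) (wNC Z P N D D1 c) fun ω =>
      (evN6 (fun n => QpC y0 (D n) ρ X e leg cut (LP n)) ω + evN6 (fun n => PpC y0 (LP n) β) ω) *
        evN6 Ψ ω)
    (j4 : WI (mN6 N) (wNC Z P N D D1 c) (evN6 Ψ))
    (j5 : WI (mN6 N) (wNC Z P N D D1 c) (evN6 fun n => DX (XCyC y0 (D n) X) (dΨ n))) :
    F (mN6 N) (wNC Z P N D D1 c) (fun ω => evN6 (fun n => VyC y0 (D n) ρ g) ω * evN6 Ψ ω) =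
      mB β leg * F (mN6 N) (wNC Z P N D D1 c) (evN6 Ψ) +
      F (mN6 N) (wNC Z P N D D1 c) (fun ω =>
        (evN6 (fun n => QpC y0 (D n) ρ X e leg cut (LP n)) ω +
          evN6 (fun n => PpC y0 (LP n) β) ω) * evN6 Ψ ω) +
      F (mN6 N) (wNC Z P N D D1 c) (evN6 fun n => DX (XCyC y0 (D n) X) (dΨ n)) := by
  set μ := mN6 N
  set ww := wNC Z P N D D1 c
  have e1 : (fun ω : CfN6 N => evN6 (fun n => VyC y0 (D n) ρ fun s z => g s z - e s z) ω *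
      evN6 Ψ ω) = fun ω => evN6 (fun n => VyC y0 (D n) ρ g) ω * evN6 Ψ ω +
        -1 * (evN6 (fun n => VyC y0 (D n) ρ e) ω * evN6 Ψ ω) := by
    funext ω
    simp only [evN6, ev6]
    rw [w.vy_sub]
    ring
  have e2 : (fun ω : CfN6 N => evN6 (fun n => RmYC y0 (D n) ρ X (LT (LZ n) (LP n))) ω *
      evN6 Ψ ω) = fun ω => mB β leg * evN6 Ψ ω +
        ((evN6 (fun n => QpC y0 (D n) ρ X e leg cut (LP n)) ω +
          evN6 (fun n => PpC y0 (LP n) β) ω) * evN6 Ψ ω +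
          -1 * (evN6 (fun n => VyC y0 (D n) ρ e) ω * evN6 Ψ ω)) := by
    funext ω
    have := w.evN_eq ω
    linear_combination (evN6 Ψ ω) * this
  have key := ward_NC (c := c) h w.fX w.rs (fun s z hz => (w.gd s z hz).sub (w.ed s z hz)) hΨ mΨ
    mdΨ (by rw [e1]; exact j1.add (j2.smul (-1)))
    (by rw [e2]; exact (j4.smul _).add (j3.add (j2.smul (-1)))) j5
  rw [e1, e2, F_add j1 (j2.smul (-1)), F_add (j4.smul _) (j3.add (j2.smul (-1))),
    F_add j3 (j2.smul (-1)), F_smul, F_smul] at key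
  linear_combination key

/-- **insertion `1`** -/
theorem ward_pc_oneC (h : FibNC N Z P D D1 lo hi y0 b0 b1 κ LZ LP ρ)
    (w : FdWC N D y0 b1 LZ LP ρ β X g e leg cut)
    (j1 : WI (mN6 N) (wNC Z P N D D1 c) (evN6 fun n => VyC y0 (D n) ρ g))
    (j2 : WI (mN6 N) (wNC Z P N D D1 c) (evN6 fun n => VyC y0 (D n) ρ e))
    (j3 : WI (mN6 N) (wNC Z P N D D1 c) fun ω =>
      evN6 (fun n => QpC y0 (D n) ρ X e leg cut (LP n)) ω + evN6 (fun n => PpC y0 (LP n) β) ω)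
    (j4 : WI (mN6 N) (wNC Z P N D D1 c) fun _ => 1) :
    F (mN6 N) (wNC Z P N D D1 c) (evN6 fun n => VyC y0 (D n) ρ g) =
      mB β leg * F (mN6 N) (wNC Z P N D D1 c) (fun _ => 1) +
      F (mN6 N) (wNC Z P N D D1 c) (fun ω =>
        evN6 (fun n => QpC y0 (D n) ρ X e leg cut (LP n)) ω +
          evN6 (fun n => PpC y0 (LP n) β) ω) := by
  have e1 : ∀ A : CfN6 N → ℂ, (fun ω => A ω * evN6 (fun _ _ _ _ _ _ => (1 : ℂ)) ω) = A := by
    intro A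
    funext ω
    exact mul_one _
  have e0 : (evN6 (fun _ _ _ _ _ _ => (1 : ℂ)) : CfN6 N → ℂ) = fun _ => 1 := rfl
  have e2 : (evN6 fun n => DX (XCyC y0 (D n) X) fun _ _ _ _ _ _ => (0 : ℂ)) =
      fun _ : CfN6 N => (0 : ℂ) := by
    funext ω
    simp only [evN6, ev6, PBF.PLX.DX, mul_zero, Finset.sum_const_zero]
  have key := ward_pcC (c := c) h w (Ψ := fun _ _ _ _ _ _ => 1)
    (dΨ := fun _ _ _ _ _ _ _ => 0) (fun n _ => InsDC.const _ 1) (fun n _ => MIn.one)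
    (fun n _ r a b _ => measurable_const) (by rw [e1]; exact j1) (by rw [e1]; exact j2)
    (by rw [e1]; exact j3) (by rw [e0]; exact j4)
    (by
      rw [e2]
      unfold WI
      simp only [mul_zero]
      exact integrable_zero _ _ _)
  rw [e1, e1, e0, e2] at key
  rw [key]
  unfold F
  simp

/-- **insertion `V f`** -/
theorem ward_pc_vhC (h : FibNC N Z P D D1 lo hi y0 b0 b1 κ LZ LP ρ)
    (w : FdWC N D y0 b1 LZ LP ρ β X g e leg cut) {f : Bool → ℂ → ℂ} (hf : PB.FldF b1 f)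
    (j1 : WI (mN6 N) (wNC Z P N D D1 c)
      fun ω => evN6 (fun n => VyC y0 (D n) ρ g) ω * evN6 (fun n => VyC y0 (D n) ρ f) ω)
    (j2 : WI (mN6 N) (wNC Z P N D D1 c)
      fun ω => evN6 (fun n => VyC y0 (D n) ρ e) ω * evN6 (fun n => VyC y0 (D n) ρ f) ω)
    (j3 : WI (mN6 N) (wNC Z P N D D1 c) fun ω =>
      (evN6 (fun n => QpC y0 (D n) ρ X e leg cut (LP n)) ω + evN6 (fun n => PpC y0 (LP n) β) ω) *
        evN6 (fun n => VyC y0 (D n) ρ f) ω)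
    (j4 : WI (mN6 N) (wNC Z P N D D1 c) (evN6 fun n => VyC y0 (D n) ρ f))
    (j5 : WI (mN6 N) (wNC Z P N D D1 c)
      (evN6 fun n => VyC y0 (D n) ρ fun s z => X s z * deriv (f s) z))
    (j6 : WI (mN6 N) (wNC Z P N D D1 c) fun _ => 1) :
    F (mN6 N) (wNC Z P N D D1 c)
        (fun ω => evN6 (fun n => VyC y0 (D n) ρ g) ω * evN6 (fun n => VyC y0 (D n) ρ f) ω) =
      mB β leg * F (mN6 N) (wNC Z P N D D1 c) (evN6 fun n => VyC y0 (D n) ρ f) +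
      F (mN6 N) (wNC Z P N D D1 c) (fun ω =>
        (evN6 (fun n => QpC y0 (D n) ρ X e leg cut (LP n)) ω +
          evN6 (fun n => PpC y0 (LP n) β) ω) * evN6 (fun n => VyC y0 (D n) ρ f) ω) +
      ((∑ s, ∫ u : ℝ, (Fil.b s : ℂ) * ρ u * (X s u * deriv (f s) u)) *
        F (mN6 N) (wNC Z P N D D1 c) (fun _ => 1) +
      F (mN6 N) (wNC Z P N D D1 c)
        (evN6 fun n => VyC y0 (D n) ρ fun s z => X s z * deriv (f s) z)) := by
  set C : ℂ := ∑ s, ∫ u : ℝ, (Fil.b s : ℂ) * ρ u * (X s u * deriv (f s) u) with hC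
  have e2 : (evN6 fun n => DX (XCyC y0 (D n) X) (dSm (XCyC y0 (D n) fun s => deriv (f s)))) =
      fun ω : CfN6 N => C * 1 +
        evN6 (fun n => VyC y0 (D n) ρ fun s z => X s z * deriv (f s) z) ω := by
    funext ω
    show DX (XCyC y0 (D ω.1) X) (dSm (XCyC y0 (D ω.1) fun s => deriv (f s))) ω.2.1.1 ω.2.2.1
      ω.2.1.2.1 ω.2.1.2.2 ω.2.2.2 = _
    rw [DX_vyC, SyC_eq (ρ := ρ), mul_one]
    rfl
  have j7 : WI (mN6 N) (wNC Z P N D D1 c) fun ω : CfN6 N => C * 1 +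
      evN6 (fun n => VyC y0 (D n) ρ fun s z => X s z * deriv (f s) z) ω := (j6.smul C).add j5
  have key := ward_pcC (c := c) h w (Ψ := fun n => VyC y0 (D n) ρ f)
    (dΨ := fun n => dSm (XCyC y0 (D n) fun s => deriv (f s)))
    (fun n hn => InsDC.vy (h.crv n hn) (h.hs n hn) h.b01 ρ hf)
    (fun n hn => MIn.vyC (h.mc n hn) (h.hs n hn) h.b01 ρ hf.d)
    (fun n hn r a b k => meas_dvyC (h.mc n hn) (h.hs n hn) h.b01 hf.d r a b k) j1 j2 j3 j4
    (by rw [e2]; exact j7)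
  rw [key, e2, F_add (j6.smul C) j5, F_smul]

end ward

end PLT

end
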