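import Pool.Agent.PLT.WardFyC
import Pool.Agent.PLT.ConfC

/-!
# Sea on a curve: the second Ward identity as an identity of `F (mN6 N) (wNC ..)`

* `F_zeroC`: all inner integrals vanish;
* `FibNC`: the data of all fibres; `RmYC`; **`ward_NC`**: for a differentiable insertion
  `F[V Ψ] = F[(Q + S) Ψ] + F[D_X Ψ]` for the functional summed over the numbers of quanta;
* `ward_oneC`, `ward_vhC`.
-/

set_option autoImplicit false
set_option linter.unusedSectionVars false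

noncomputable section

open Complex MeasureTheory Finset
open scoped ENNReal

open PLX (Fil)

namespace PLT

open NUO NUP1 NUCR NUP1S NUP1S.Ab NUP1S.AbC NUGC NUGC.PLX PBFunc PBFunc.PLX PHK
open PBF.PLX (Ins DIns Flds FldD DX LT spQ spl Sm dSm lamY MIn dN)

variable [Fil]

variable {N : ℕ} {Z : ℕ → Bool → Option O3 → ℂ → ℂ} {P : ℕ → Par6} {D D1 : ℕ → CrsC} {c : ℕ → ℂ}

/-- an insertion whose functionals all vanish -/
theorem F_zeroC (h : ∀ n ≤ N, MCC (Z n) (P n) (D n) (D1 n)) {Ψ : ℕ → Ins}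
    (hΨ : ∀ n ≤ N, MIn (Ψ n)) (hW : WI (mN6 N) (wNC Z P N D D1 c) (evN6 Ψ))
    (hz : ∀ n ≤ N, FFC (Z n) (P n) n (n + dN N) (D n) (D1 n) (Ψ n) = 0) :
    F (mN6 N) (wNC Z P N D D1 c) (evN6 Ψ) = 0 := by
  have hf : FANC Z P N D D1 c Ψ < ∞ := by
    rw [FANC_eq h hΨ]
    have := hW.2
    unfold HasFiniteIntegral at this
    simpa only [enorm_mul] using this
  rw [← FFNC_eq h hΨ hf]
  unfold FFNC
  refine Finset.sum_eq_zero fun n hn => ?_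
  rw [hz n (by have := Finset.mem_range.1 hn; omega), mul_zero]

variable (N Z P D D1) in
/-- the data of all fibres: weights, curves, log derivatives, the sea -/
structure FibNC (lo hi y0 b0 b1 : ℝ) (κ : ℕ → ℝ) (LZ : ℕ → Bool → ℂ → ℂ)
    (LP : ℕ → (r : ℕ) → (Fin r → Xo) → Bool → ℂ → ℂ) (ρ : ℂ → ℂ) : Prop where
  hQ : ∀ n ≤ N, QOkC (Z n) lo hi (κ n) (-(dN N : ℤ))
  hS : ∀ n ≤ N, StC lo hi (P n)
  crv : ∀ n ≤ N, ∀ r O, CurWC lo hi (D n r O) (D1 n r O)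
  hL : ∀ n ≤ N, LogDC (Z n) (P n) lo hi (LZ n) (LP n)
  hs : ∀ n ≤ N, InSC y0 b0 (D n)
  b1p : 0 < b1
  b01 : b0 < b1
  b1l : 2 * b1 ≤ NUP1.l
  sea : PB.SeaF b1 ρ
  mc : ∀ n ≤ N, MCrC (D n) (D1 n)
  mZ : ∀ n ≤ N, MCC (Z n) (P n) (D n) (D1 n)
  mP : ∀ n ≤ N, ∀ r s, Measurable fun p : (Fin r → Xo) × ℂ => LP n r p.1 s p.2

variable {lo hi y0 b0 b1 : ℝ} {κ : ℕ → ℝ} {LZ : ℕ → Bool → ℂ → ℂ}
  {LP : ℕ → (r : ℕ) → (Fin r → Xo) → Bool → ℂ → ℂ} {ρ : ℂ → ℂ}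

/-- the remainder of the Ward identity of the field `X`: quadratic statistic and forces -/
def RmYC (y0 : ℝ) (D : CrsC) (ρ : ℂ → ℂ) (X : Bool → ℂ → ℂ)
    (L : (r : ℕ) → (Fin r → Xo) → Bool → ℂ → ℂ) : Ins := fun r O a b x =>
  QyC y0 D ρ X r O a b x + SyC y0 D (fun r O s z => X s z * lamY y0 ρ L r O s z) r O a b x

theorem FibNC.mRm (h : FibNC N Z P D D1 lo hi y0 b0 b1 κ LZ LP ρ) {X : Bool → ℂ → ℂ}
    (hX : PB.FldF b1 X) {n : ℕ} (hn : n ≤ N) :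
    MIn (RmYC y0 (D n) ρ X (LT (LZ n) (LP n))) := by
  refine (MIn.qyC (h.mc n hn) (h.hs n hn) h.b1p h.b01 h.sea hX).add' (MIn.syC fun r s => ?_)
  exact (meas_fldC (h.mc n hn) (h.hs n hn) h.b01 hX.d r s).mul
    (meas_lamYC (h.mc n hn) (h.hs n hn) h.b01 h.sea (h.hL n hn).mZ (h.mP n hn) r s)

/-- **the second Ward identity**, insertion `Ψ` -/
theorem ward_NC (h : FibNC N Z P D D1 lo hi y0 b0 b1 κ LZ LP ρ) {X g : Bool → ℂ → ℂ}
    (hX : PB.FldF b1 X)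
    (hg : ∀ s (z : ℂ), |z.im| < b1 → g s z = PB.rsp (PB.mulF2 ρ X) s z)
    (hgd : ∀ s (z : ℂ), |z.im| < b1 → DifferentiableAt ℂ (g s) z) {Ψ : ℕ → Ins} {dΨ : ℕ → DIns}
    (hΨ : ∀ n ≤ N, InsDC (D1 n) (Ψ n) (dΨ n)) (mΨ : ∀ n ≤ N, MIn (Ψ n))
    (mdΨ : ∀ n ≤ N, ∀ r a b (k : Fin a ⊕ Fin b), Measurable
      fun p : (Fin r → Xo) × ((Fin a → ℝ) × (Fin b → ℝ)) => dΨ n r p.1 a b k p.2)
    (i1 : WI (mN6 N) (wNC Z P N D D1 c)
      fun ω => evN6 (fun n => VyC y0 (D n) ρ g) ω * evN6 Ψ ω)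
    (i2 : WI (mN6 N) (wNC Z P N D D1 c)
      fun ω => evN6 (fun n => RmYC y0 (D n) ρ X (LT (LZ n) (LP n))) ω * evN6 Ψ ω)
    (i3 : WI (mN6 N) (wNC Z P N D D1 c) (evN6 fun n => DX (XCyC y0 (D n) X) (dΨ n))) :
    F (mN6 N) (wNC Z P N D D1 c) (fun ω => evN6 (fun n => VyC y0 (D n) ρ g) ω * evN6 Ψ ω) =
      F (mN6 N) (wNC Z P N D D1 c)
        (fun ω => evN6 (fun n => RmYC y0 (D n) ρ X (LT (LZ n) (LP n))) ω * evN6 Ψ ω) +
      F (mN6 N) (wNC Z P N D D1 c) (evN6 fun n => DX (XCyC y0 (D n) X) (dΨ n)) := by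
  obtain ⟨μ, hμ⟩ : ∃ μ, μ = mN6 N := ⟨_, rfl⟩
  obtain ⟨w, hw⟩ : ∃ w, w = wNC Z P N D D1 c := ⟨_, rfl⟩
  have hVy : ∀ n ≤ N, VyC y0 (D n) ρ (PB.rsp (PB.mulF2 ρ X)) = VyC y0 (D n) ρ g := by
    intro n hn
    funext r O a b x
    unfold VyC PB.NX.nuL
    congr 1
    · refine Finset.sum_congr rfl fun k _ => ?_
      exact (hg _ _ ((zyC_strip (h.hs n hn) r O _ _).trans_lt h.b01)).symm
    · refine Finset.sum_congr rfl fun s _ => integral_congr_ae (Filter.Eventually.of_forall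
        fun u => ?_)
      simp only []
      rw [hg s (PB.eR u) (by simp [PB.eR, h.b1p])]
  have hI := (i1.smul (-1)).add (i2.add i3)
  have hz : F (mN6 N) (wNC Z P N D D1 c) (evN6 fun n => fun r O a b x =>
      (-VyC y0 (D n) ρ g r O a b x +
        RmYC y0 (D n) ρ X (LT (LZ n) (LP n)) r O a b x) * Ψ n r O a b x +
      DX (XCyC y0 (D n) X) (dΨ n) r O a b x) = 0 := by
    refine F_zeroC h.mZ (fun n hn => ?_) ?_ fun n hn => ?_
    · refine MIn.add' (MIn.mul' (MIn.add' (MIn.neg' ?_) (h.mRm hX hn)) (mΨ n hn)) ?_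
      · exact MIn.vyC (h.mc n hn) (h.hs n hn) h.b01 ρ hgd
      · exact MIn.dxC (h.mc n hn) (h.hs n hn) h.b01 hX (mdΨ n hn)
    · refine hI.congr (Filter.Eventually.of_forall fun ω => ?_)
      simp only [evN6, ev6]
      ring
    · have key := ward_VyC (h.hQ n hn) (h.hS n hn) (h.crv n hn)
        (n := n) (n' := n + dN N) (by push_cast; ring) (h.hL n hn) (h.hs n hn) h.b1p h.b01 h.b1l
        h.sea hX (hΨ n hn)
      rw [hVy n hn] at key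
      rw [← key]
      congr 1
      funext r O a b x
      unfold RmYC
      ring
  have e : F (mN6 N) (wNC Z P N D D1 c) (fun ω =>
      -1 * (evN6 (fun n => VyC y0 (D n) ρ g) ω * evN6 Ψ ω) +
      (evN6 (fun n => RmYC y0 (D n) ρ X (LT (LZ n) (LP n))) ω * evN6 Ψ ω +
        (evN6 fun n => DX (XCyC y0 (D n) X) (dΨ n)) ω)) = 0 := by
    rw [← hz]
    congr 1
    funext ω
    simp only [evN6, ev6]
    ring
  rw [F_add (i1.smul (-1)) (i2.add i3), F_add i2 i3, F_smul] at e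
  linear_combination -e

/-- **insertion `1`** -/
theorem ward_oneC (h : FibNC N Z P D D1 lo hi y0 b0 b1 κ LZ LP ρ) {X g : Bool → ℂ → ℂ}
    (hX : PB.FldF b1 X)
    (hg : ∀ s (z : ℂ), |z.im| < b1 → g s z = PB.rsp (PB.mulF2 ρ X) s z)
    (hgd : ∀ s (z : ℂ), |z.im| < b1 → DifferentiableAt ℂ (g s) z)
    (i1 : WI (mN6 N) (wNC Z P N D D1 c) (evN6 fun n => VyC y0 (D n) ρ g))
    (i2 : WI (mN6 N) (wNC Z P N D D1 c)
      (evN6 fun n => RmYC y0 (D n) ρ X (LT (LZ n) (LP n)))) :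
    F (mN6 N) (wNC Z P N D D1 c) (evN6 fun n => VyC y0 (D n) ρ g) =
      F (mN6 N) (wNC Z P N D D1 c) (evN6 fun n => RmYC y0 (D n) ρ X (LT (LZ n) (LP n))) := by
  have e1 : ∀ A : CfN6 N → ℂ, (fun ω => A ω * evN6 (fun _ _ _ _ _ _ => (1 : ℂ)) ω) = A := by
    intro A
    funext ω
    exact mul_one _
  have e2 : (evN6 fun n => DX (XCyC y0 (D n) X) fun _ _ _ _ _ _ => (0 : ℂ)) =
      fun _ : CfN6 N => (0 : ℂ) := by
    funext ω
    simp only [evN6, ev6, PBF.PLX.DX, mul_zero, Finset.sum_const_zero]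
  have key := ward_NC (c := c) h hX hg hgd (Ψ := fun _ _ _ _ _ _ => 1)
    (dΨ := fun _ _ _ _ _ _ _ => 0) (fun n _ => InsDC.const _ 1) (fun n _ => MIn.one)
    (fun n _ r a b k => measurable_const) (by rw [e1]; exact i1) (by rw [e1]; exact i2)
    (by
      rw [e2]
      unfold WI
      simp only [mul_zero]
      exact integrable_zero _ _ _)
  rw [e1, e1, e2] at key
  rw [key]
  unfold F
  simp

/-- **insertion `V h`** -/
theorem ward_vhC (h : FibNC N Z P D D1 lo hi y0 b0 b1 κ LZ LP ρ) {X g f : Bool → ℂ → ℂ}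
    (hX : PB.FldF b1 X)
    (hg : ∀ s (z : ℂ), |z.im| < b1 → g s z = PB.rsp (PB.mulF2 ρ X) s z)
    (hgd : ∀ s (z : ℂ), |z.im| < b1 → DifferentiableAt ℂ (g s) z) (hf : PB.FldF b1 f)
    (i1 : WI (mN6 N) (wNC Z P N D D1 c)
      fun ω => evN6 (fun n => VyC y0 (D n) ρ g) ω * evN6 (fun n => VyC y0 (D n) ρ f) ω)
    (i2 : WI (mN6 N) (wNC Z P N D D1 c)
      fun ω => evN6 (fun n => RmYC y0 (D n) ρ X (LT (LZ n) (LP n))) ω *
        evN6 (fun n => VyC y0 (D n) ρ f) ω)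
    (i3 : WI (mN6 N) (wNC Z P N D D1 c)
      (evN6 fun n => VyC y0 (D n) ρ fun s z => X s z * deriv (f s) z))
    (i4 : WI (mN6 N) (wNC Z P N D D1 c) fun _ => 1) :
    F (mN6 N) (wNC Z P N D D1 c)
        (fun ω => evN6 (fun n => VyC y0 (D n) ρ g) ω * evN6 (fun n => VyC y0 (D n) ρ f) ω) =
      F (mN6 N) (wNC Z P N D D1 c)
        (fun ω => evN6 (fun n => RmYC y0 (D n) ρ X (LT (LZ n) (LP n))) ω *
          evN6 (fun n => VyC y0 (D n) ρ f) ω) +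
      ((∑ s, ∫ u : ℝ, (Fil.b s : ℂ) * ρ u * (X s u * deriv (f s) u)) *
        F (mN6 N) (wNC Z P N D D1 c) (fun _ => 1) +
      F (mN6 N) (wNC Z P N D D1 c)
        (evN6 fun n => VyC y0 (D n) ρ fun s z => X s z * deriv (f s) z)) := by
  obtain ⟨C, hC⟩ : ∃ C : ℂ, C = ∑ s, ∫ u : ℝ, (Fil.b s : ℂ) * ρ u * (X s u * deriv (f s) u) :=
    ⟨_, rfl⟩
  rw [← hC]
  have e2 : (evN6 fun n => DX (XCyC y0 (D n) X) (dSm (XCyC y0 (D n) fun s => deriv (f s)))) =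
      fun ω : CfN6 N => C * 1 +
        evN6 (fun n => VyC y0 (D n) ρ fun s z => X s z * deriv (f s) z) ω := by
    funext ω
    show DX (XCyC y0 (D ω.1) X) (dSm (XCyC y0 (D ω.1) fun s => deriv (f s))) ω.2.1.1 ω.2.2.1
      ω.2.1.2.1 ω.2.1.2.2 ω.2.2.2 = _
    rw [DX_vyC, SyC_eq (ρ := ρ), mul_one, hC]
    rfl
  have i5 : WI (mN6 N) (wNC Z P N D D1 c) fun ω : CfN6 N => C * 1 +
      evN6 (fun n => VyC y0 (D n) ρ fun s z => X s z * deriv (f s) z) ω := (i4.smul C).add i3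
  have key := ward_NC (c := c) h hX hg hgd (Ψ := fun n => VyC y0 (D n) ρ f)
    (dΨ := fun n => dSm (XCyC y0 (D n) fun s => deriv (f s)))
    (fun n hn => InsDC.vy (h.crv n hn) (h.hs n hn) h.b01 ρ hf)
    (fun n hn => MIn.vyC (h.mc n hn) (h.hs n hn) h.b01 ρ hf.d)
    (fun n hn r a b k => meas_dvyC (h.mc n hn) (h.hs n hn) h.b01 hf.d r a b k) i1 i2
    (by rw [e2]; exact i5)
  rw [key, e2, F_add (i4.smul C) i3, F_smul]

end PLT

end
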