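import Pool.Agent.PLT.WardFcC
import Pool.Agent.PLT.ClsCrvC
import Pool.Agent.PLT.CurD
import Pool.Agent.PLT.UPropsC
import Pool.Agent.PLT.LogPC
import Pool.Agent.PLX.PB.WardFF

/-!
# Sea on a curve: the Ward identity for the functional `FFC`

The objects (six kinds), legs and half quanta are fixed, only the quanta on the curves are moved. The
curves of the two species are given by complex displacements (`CrsC`); fields, insertions in the
variables and their derivatives (`Flds`, `DIns`, `DX`, `Sm`, `dSm`) are the landed ones.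

* `ptZ D s t = t + D s t`: complex height of the curve; `MonC`, `CurWC`: the curves of a Ward identity;
* `wdSC`, **`ward_gKC`**: the identity of one configuration of objects;
* `InsDC`, `WSC`, `WdC`; `FFC_zero`; **`ward_FFC`**: `FFC (WdC ..) = 0`;
* `InsDC.const`, `.mul`, `.add`, `.obj`, `.sm`; `FunDC`.
-/

set_option autoImplicit false
set_option linter.unusedSectionVars false

noncomputable section

open Complex MeasureTheory Finset
open scoped ENNReal

open PLX (Fil)

namespace PLT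

open NUO NUP1 NUCR NUP1S NUP1S.Ab NUP1S.AbC NUGC NUGC.PLX PHK
open PBF.PLX (Ins DIns Flds FldD DX LT spQ cCt_spQ sum_spQ integral_prod_sum spl Sm dSm)

variable {r : ℕ}

/-! ### the curves -/

theorem ptZ_im (D : Bool → ℝ → ℂ) (s : Bool) (t : ℝ) : (ptZ D s t).im = (D s t).im := by
  unfold ptZ
  simp

theorem ptZ_re (D : Bool → ℝ → ℂ) (s : Bool) (t : ℝ) : (ptZ D s t).re = t + (D s t).re := by
  unfold ptZ
  simp

/-- the curves run upwards -/
def MonC (D1 : Bool → ℝ → ℂ) : Prop := ∀ s t, 1 / 2 ≤ 1 + (D1 s t).re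

theorem MonC.norm {D1 : Bool → ℝ → ℂ} (h : MonC D1) (s : Bool) (t : ℝ) : 1 / 2 ≤ ‖1 + D1 s t‖ := by
  have h1 : |(1 + D1 s t).re| ≤ ‖1 + D1 s t‖ := Complex.abs_re_le_norm _
  have h2 : (1 + D1 s t).re = 1 + (D1 s t).re := by simp
  rw [h2] at h1
  exact (h s t).trans ((le_abs_self _).trans h1)

theorem MonC.ne {D1 : Bool → ℝ → ℂ} (h : MonC D1) (s : Bool) (t : ℝ) : 1 + D1 s t ≠ 0 := by
  intro h0
  have h1 := h.norm s t
  rw [h0, norm_zero] at h1
  linarith

/-- different parameters: different points -/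
theorem MonC.inj {D D1 : Bool → ℝ → ℂ} (h : MonC D1) (hd : ∀ s t, HasDerivAt (D s) (D1 s t) t)
    (s : Bool) {t u : ℝ} (htu : t ≠ u) : ptZ D s t ≠ ptZ D s u := by
  intro he
  have h1 : StrictMono fun t : ℝ => t + (D s t).re := by
    refine strictMono_of_deriv_pos fun x => ?_
    have h2 : HasDerivAt (fun t : ℝ => t + (D s t).re) (1 + (D1 s x).re) x := by
      have h3 := (hd s x)
      have h4 : HasDerivAt (fun t : ℝ => (D s t).re) (D1 s x).re x := by
        have := (Complex.reCLM.hasFDerivAt (x := D s x)).comp_hasDerivAt x h3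
        exact this
      exact (hasDerivAt_id x).add h4
    rw [h2.deriv]
    linarith [h s x]
  have h2 := congrArg Complex.re he
  rw [ptZ_re, ptZ_re] at h2
  exact htu (h1.injective h2)

/-- the curves of a Ward identity -/
structure CurWC (lo hi : ℝ) (D D1 : Bool → ℝ → ℂ) : Prop where
  c : CurC lo hi D D1
  mono : MonC D1

theorem CurWC.sub {lo hi lo' hi' : ℝ} {D D1 : Bool → ℝ → ℂ} (h : CurWC lo' hi' D D1) (h1 : lo ≤ lo')
    (h2 : hi' ≤ hi) : CurWC lo hi D D1 := ⟨h.c.sub h1 h2, h.mono⟩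

/-- displacements which are purely imaginary -/
theorem monC_of_re {D1 : Bool → ℝ → ℂ} (h : ∀ s t, (D1 s t).re = 0) : MonC D1 := fun s t => by
  rw [h s t]
  norm_num

/-! ### one configuration of objects -/

open scoped Classical in
/-- the kernel, the divergence and the force of a field `X` with the derivative `X1` along the
curves of the two species, one body functions with log derivative `L` -/
def wdSC (D D1 : Bool → ℝ → ℂ) (X X1 : Bool → ℝ → ℂ) (L : Bool → ℂ → ℂ) (a b : ℕ)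
    (x : (Fin a → ℝ) × (Fin b → ℝ)) : ℂ :=
  (∑ k, (X1 (spQ a b k) (Sum.elim x.1 x.2 k) * (1 + D1 (spQ a b k) (Sum.elim x.1 x.2 k))⁻¹ +
      X (spQ a b k) (Sum.elim x.1 x.2 k) *
        (I * L (spQ a b k) (ptC D (spQ a b k) (Sum.elim x.1 x.2 k))))) +
    ∑ p ∈ PB.prs (er (Fin a ⊕ Fin b)), PLC.aF2 D D1 X X1 (spQ a b p.1) (spQ a b p.2)
      (Sum.elim x.1 x.2 p.1) (Sum.elim x.1 x.2 p.2)

/-- **the Ward identity for the quanta of one configuration of objects** -/
theorem ward_gKC {D D1 : Bool → ℝ → ℂ} {κ α β : ℝ} (hκ : 0 < κ)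
    (C : ∀ s, Crv α β NUP1.l (D s) (D1 s)) (hm : MonC D1)
    (hw : β - α < NUP1.l) {a b : ℕ} {G L : Bool → ℂ → ℂ} (hg : Reg p0 κ α β ((a : ℤ) - b) G)
    (hL : ∀ s t, HasDerivAt (G s) (L s (ptC D s t) * G s (ptC D s t)) (ptC D s t))
    (hLm : ∀ s, Measurable (L s)) {B : ℝ} (hLB : ∀ s t, ‖L s (ptC D s t)‖ ≤ B)
    {X X1 : Bool → ℝ → ℂ} (hX : ∀ s x, HasDerivAt (X s) (X1 s x) x)
    (hXc : ∀ s, Continuous (X1 s)) (hXB : ∀ s x, ‖X s x‖ ≤ B) (hX1B : ∀ s x, ‖X1 s x‖ ≤ B)
    {Ψ : (Fin a → ℝ) × (Fin b → ℝ) → ℂ}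
    {dΨ : Fin a ⊕ Fin b → (Fin a → ℝ) × (Fin b → ℝ) → ℂ}
    (hO : ∀ k (t : Fin a ⊕ Fin b → ℝ), HasDerivAt
      (fun s => Ψ (fun i => Function.update t k s (Sum.inl i), fun j => Function.update t k s (Sum.inr j)))
      ((1 + D1 (spQ a b k) (t k)) *
        dΨ k (fun i => t (Sum.inl i), fun j => t (Sum.inr j))) (t k))
    (hOm : Measurable Ψ) (hdOm : ∀ k, Measurable (dΨ k))
    {B' : ℝ} (hOB : ∀ x, ‖Ψ x‖ ≤ B') (hdOB : ∀ k x, ‖dΨ k x‖ ≤ B') :
    ∫ x : (Fin a → ℝ) × (Fin b → ℝ), gKC G D D1 a b x *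
      (wdSC D D1 X X1 L a b x * Ψ x +
        ∑ k, X (spQ a b k) (Sum.elim x.1 x.2 k) * dΨ k x) = 0 := by
  classical
  let φ : (Fin a ⊕ Fin b → ℝ) → (Fin a → ℝ) × (Fin b → ℝ) :=
    fun t => (fun i => t (Sum.inl i), fun j => t (Sum.inr j))
  have hφ : Measurable φ := by
    refine Measurable.prodMk ?_ ?_ <;>
      exact measurable_pi_lambda _ fun i => measurable_pi_apply _
  have key := ward_FcC (ι := Fin a ⊕ Fin b) (D := D) (D1 := D1) hκ C hw
    (c0 := 1 / 2) (by norm_num) hm.norm (sp := spQ a b) (g := G) (L := L)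
    (by rw [sum_spQ]; exact hg)
    (fun s t => hL s t) hLm (B := B) (fun s t => hLB s t)
    hX hXc hXB hX1B (O := fun t => Ψ (φ t)) (dO := fun k t => dΨ k (φ t))
    (fun k t => by
      have e : (fun i j : Fin a ⊕ Fin b => Classical.propDecidable (i = j)) = instDecidableEqSum :=
        Subsingleton.elim _ _
      rw [e]
      exact hO k t)
    (hOm.comp hφ).aestronglyMeasurable (fun k => ((hdOm k).comp hφ).aestronglyMeasurable)
    (B' := B') (fun t => hOB _) (fun k t => hdOB k _)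
  rw [← integral_prod_sum] at key
  rw [← key]
  refine integral_congr_ae (Filter.Eventually.of_forall fun x => ?_)
  simp only []
  have e1 : φ (Sum.elim x.1 x.2) = x := rfl
  rw [e1]
  unfold gKC wdSC
  have e2 := cCt_spQ a b NUP1.l D D1
  rw [e2, mul_comm]
  rfl

/-! ### the functional -/

/-- differentiable insertions -/
structure InsDC (D1 : CrsC) (Ψ : Ins) (dΨ : DIns) : Prop where
  d : ∀ r O a b k (t : Fin a ⊕ Fin b → ℝ), HasDerivAt
    (fun s => Ψ r O a b (spl (Function.update t k s)))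
    ((1 + D1 r O (spQ a b k) (t k)) * dΨ r O a b k (spl t)) (t k)
  m : ∀ r O a b, Measurable (Ψ r O a b)
  md : ∀ r O a b k, Measurable (dΨ r O a b k)
  bd : ∀ r O a b, ∃ B, (∀ x, ‖Ψ r O a b x‖ ≤ B) ∧ ∀ k x, ‖dΨ r O a b k x‖ ≤ B

/-- divergence, force and pair kernel of the field -/
def WSC (D D1 : CrsC) (X X1 : Flds) (L : (r : ℕ) → (Fin r → Xo) → Bool → ℂ → ℂ) : Ins :=
  fun r O a b x => wdSC (D r O) (D1 r O) (X r O) (X1 r O) (L r O) a b x

/-- **the Ward insertion** -/
def WdC (D D1 : CrsC) (X X1 : Flds) (L : (r : ℕ) → (Fin r → Xo) → Bool → ℂ → ℂ) (Ψ : Ins)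
    (dΨ : DIns) : Ins := fun r O a b x =>
  WSC D D1 X X1 L r O a b x * Ψ r O a b x + DX X dΨ r O a b x

variable {Z : Bool → Option O3 → ℂ → ℂ} {P : Par6} {n n' : ℕ} {D D1 : CrsC} {lo hi : ℝ}

/-- a functional all whose inner integrals vanish -/
theorem FFC_zero {Ψ : Ins} (h : ∀ r (O : Fin r → Xo), chgO6 O true ≤ n → chgO6 O false ≤ n' →
    ∫ x, gKC (gF6 Z P O) (D r O) (D1 r O) (nA6 n O true) (nA6 n' O false) x *
      Ψ r O (nA6 n O true) (nA6 n' O false) x = 0) : FFC Z P n n' D D1 Ψ = 0 := by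
  unfold FFC
  refine Finset.sum_eq_zero fun r _ => ?_
  have e : ∀ O : Fin r → Xo, trmC Z P n n' D D1 Ψ r O = 0 := by
    intro O
    unfold trmC
    split_ifs with hc
    · rw [h r O hc.1 hc.2.1, mul_zero, mul_zero]
    · rfl
  simp only [e, integral_zero, mul_zero]

/-- **the Ward identity for the functional** -/
theorem ward_FFC {κ : ℝ} {Q : ℤ} (hQ : QOkC Z lo hi κ Q) (hS : StC lo hi P)
    (hc : ∀ r O, CurWC lo hi (D r O) (D1 r O)) (hn : (n : ℤ) - n' = Q) {LZ : Bool → ℂ → ℂ}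
    {LP : (r : ℕ) → (Fin r → Xo) → Bool → ℂ → ℂ} (hL : LogDC Z P lo hi LZ LP) {X X1 : Flds}
    (hX : FldD X X1) {Ψ : Ins} {dΨ : DIns} (hΨ : InsDC D1 Ψ dΨ) :
    FFC Z P n n' D D1 (WdC D D1 X X1 (LT LZ LP) Ψ dΨ) = 0 := by
  have hl := Bd.l_pos
  have hd := hS.d1
  refine FFC_zero fun r O h1 h2 => ?_
  have e1 : (((sg true * Q : ℤ)) : ℝ) = Q := by simp [sg]
  have e2 : (((sg false * Q : ℤ)) : ℝ) = -(Q : ℝ) := by simp [sg]
  have a1 := nA6_coe h1
  have a2 := nA6_coe h2
  have hreg := reg_potC hS O (hQ.m true) (hQ.m false) (hQ.d true) (hQ.d false)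
    ((hQ.b true).rate (by rw [e1])) ((hQ.b false).rate (by rw [e2]; ring))
    (a := nA6 n O true) (b := nA6 n' O false) (Q := Q) (κ := κ) (by omega)
  obtain ⟨B1, hB1⟩ := hL.bZ
  obtain ⟨B2, hB2⟩ := hL.bP r O
  obtain ⟨B3, hB3⟩ := hX.bd r O
  obtain ⟨B4, hB4, hB4'⟩ := hΨ.bd r O (nA6 n O true) (nA6 n' O false)
  have hm := fun s t => (hc r O).c.re s t
  have eG : g2 (fun z => Z true none z * potO6 P O true z) (fun z => Z false none z * potO6 P O false z) =
      gF6 Z P O := by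
    funext s z
    cases s <;> rfl
  rw [eG] at hreg
  have hG : ∀ s t, HasDerivAt (gF6 Z P O s) (LT LZ LP r O s (ptC (D r O) s t) *
      gF6 Z P O s (ptC (D r O) s t)) (ptC (D r O) s t) := by
    intro s t
    have h3 := (hL.dZ s _ (hm s t)).mul (hL.dP r O s _ (hm s t))
    refine h3.congr_deriv ?_
    unfold PBF.PLX.LT gF6
    ring
  exact ward_gKC (κ := κ) hQ.kpos (hc r O).c (hc r O).mono (by nlinarith) hreg hG
    (fun s => (hL.mZ s).add (hL.mP r O s)) (B := max (B1 + B2) B3)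
    (fun s t => (norm_add_le _ _).trans
      ((add_le_add (hB1 s _ (hm s t)) (hB2 s _ (hm s t))).trans (le_max_left _ _)))
    (hX.d r O) (hX.c r O) (fun s t => (hB3 s t).1.trans (le_max_right _ _))
    (fun s t => (hB3 s t).2.trans (le_max_right _ _))
    (fun k t => hΨ.d r O _ _ k t) (hΨ.m r O _ _) (fun k => hΨ.md r O _ _ k) hB4 hB4'

/-! ### insertions -/

theorem InsDC.const (D1 : CrsC) (c : ℂ) : InsDC D1 (fun _ _ _ _ _ => c) (fun _ _ _ _ _ _ => 0) where
  d r O a b k t := by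
    rw [mul_zero]
    exact hasDerivAt_const _ _
  m _ _ _ _ := measurable_const
  md _ _ _ _ _ := measurable_const
  bd r O a b := ⟨‖c‖, fun _ => le_rfl, fun _ _ => by simp⟩

/-- the product of two insertions -/
theorem InsDC.mul {D1 : CrsC} {Ψ Φ : Ins} {dΨ dΦ : DIns} (h : InsDC D1 Ψ dΨ) (h' : InsDC D1 Φ dΦ) :
    InsDC D1 (fun r O a b x => Ψ r O a b x * Φ r O a b x)
      (fun r O a b k x => dΨ r O a b k x * Φ r O a b x + Ψ r O a b x * dΦ r O a b k x) where
  d r O a b k t := by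
    have h1 := (h.d r O a b k t).mul (h'.d r O a b k t)
    refine h1.congr_deriv ?_
    simp only [Function.update_eq_self]
    ring
  m r O a b := (h.m r O a b).mul (h'.m r O a b)
  md r O a b k := ((h.md r O a b k).mul (h'.m r O a b)).add ((h.m r O a b).mul (h'.md r O a b k))
  bd r O a b := by
    obtain ⟨B, h1, h2⟩ := h.bd r O a b
    obtain ⟨B', h3, h4⟩ := h'.bd r O a b
    have hB : 0 ≤ B := (norm_nonneg _).trans (h1 (0, 0))
    have hB' : 0 ≤ B' := (norm_nonneg _).trans (h3 (0, 0))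
    refine ⟨B * B' + B * B', fun x => ?_, fun k x => ?_⟩
    · rw [norm_mul]
      have := mul_le_mul (h1 x) (h3 x) (norm_nonneg _) hB
      nlinarith [mul_nonneg hB hB']
    · refine (norm_add_le _ _).trans ?_
      rw [norm_mul, norm_mul]
      exact add_le_add (mul_le_mul (h2 k x) (h3 x) (norm_nonneg _) hB)
        (mul_le_mul (h1 x) (h4 k x) (norm_nonneg _) hB)

/-- linear combination of two insertions -/
theorem InsDC.add {D1 : CrsC} {Ψ Φ : Ins} {dΨ dΦ : DIns} (h : InsDC D1 Ψ dΨ) (h' : InsDC D1 Φ dΦ) :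
    InsDC D1 (fun r O a b x => Ψ r O a b x + Φ r O a b x)
      (fun r O a b k x => dΨ r O a b k x + dΦ r O a b k x) where
  d r O a b k t := by
    refine ((h.d r O a b k t).add (h'.d r O a b k t)).congr_deriv ?_
    ring
  m r O a b := (h.m r O a b).add (h'.m r O a b)
  md r O a b k := (h.md r O a b k).add (h'.md r O a b k)
  bd r O a b := by
    obtain ⟨B, h1, h2⟩ := h.bd r O a b
    obtain ⟨B', h3, h4⟩ := h'.bd r O a b
    exact ⟨B + B', fun x => (norm_add_le _ _).trans (add_le_add (h1 x) (h3 x)),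
      fun k x => (norm_add_le _ _).trans (add_le_add (h2 k x) (h4 k x))⟩

/-- a function of the objects only -/
theorem InsDC.obj (D1 : CrsC) (c : (r : ℕ) → (Fin r → Xo) → ℂ) :
    InsDC D1 (fun r O _ _ _ => c r O) (fun _ _ _ _ _ _ => 0) where
  d r O a b k t := by
    rw [mul_zero]
    exact hasDerivAt_const _ _
  m _ _ _ _ := measurable_const
  md _ _ _ _ _ := measurable_const
  bd r O a b := ⟨‖c r O‖, fun _ => le_rfl, fun _ _ => by simp⟩

/-- functions on the curves with bounded derivative in the complex position -/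
structure FunDC (D1 : CrsC) (f f' : Flds) : Prop where
  d : ∀ r O s t, HasDerivAt (f r O s) ((1 + D1 r O s t) * f' r O s t) t
  md : ∀ r O s, Measurable (f' r O s)
  bd : ∀ r O, ∃ B, ∀ s t, ‖f r O s t‖ ≤ B ∧ ‖f' r O s t‖ ≤ B

theorem FunDC.m {D1 : CrsC} {f f' : Flds} (h : FunDC D1 f f') (r : ℕ) (O : Fin r → Xo) (s : Bool) :
    Measurable (f r O s) :=
  (continuous_iff_continuousAt.2 fun t => (h.d r O s t).continuousAt).measurable

theorem elim_splC {a b : ℕ} (t : Fin a ⊕ Fin b → ℝ) (k : Fin a ⊕ Fin b) :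
    Sum.elim (spl t).1 (spl t).2 k = t k := by
  rcases k with k | k <;> rfl

theorem meas_elimC {a b : ℕ} (k : Fin a ⊕ Fin b) :
    Measurable fun x : (Fin a → ℝ) × (Fin b → ℝ) => (Sum.elim x.1 x.2 k : ℝ) := by
  rcases k with k | k
  · exact (measurable_pi_apply k).comp measurable_fst
  · exact (measurable_pi_apply k).comp measurable_snd

theorem InsDC.sm {D1 : CrsC} {f f' : Flds} (h : FunDC D1 f f') : InsDC D1 (Sm f) (dSm f') where
  d r O a b k t := by
    unfold PBF.PLX.Sm PBF.PLX.dSm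
    simp only [elim_splC]
    have h1 : ∀ i ∈ (Finset.univ : Finset (Fin a ⊕ Fin b)), HasDerivAt
        (fun s => f r O (spQ a b i) (Function.update t k s i))
        (if i = k then (1 + D1 r O (spQ a b k) (t k)) *
          f' r O (spQ a b k) (t k) else 0) (t k) := by
      intro i _
      split_ifs with hik
      · subst hik
        simp only [Function.update_self]
        exact h.d r O _ _
      · simp only [Function.update_of_ne hik]
        exact hasDerivAt_const _ _
    have h2 := HasDerivAt.fun_sum h1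
    rw [Finset.sum_ite_eq' Finset.univ k, if_pos (Finset.mem_univ k)] at h2
    exact h2
  m r O a b := by
    unfold PBF.PLX.Sm
    exact Finset.measurable_fun_sum _ fun k _ => (h.m r O _).comp (meas_elimC k)
  md r O a b k := (h.md r O _).comp (meas_elimC k)
  bd r O a b := by
    obtain ⟨B, hB⟩ := h.bd r O
    have hB0 : 0 ≤ B := (norm_nonneg _).trans (hB true 0).1
    refine ⟨((a : ℝ) + b) * B + B, fun x => ?_, fun k x => ?_⟩
    · unfold PBF.PLX.Sm
      refine (norm_sum_le _ _).trans ?_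
      refine (Finset.sum_le_sum fun k _ => (hB _ _).1).trans ?_
      rw [Finset.sum_const, Finset.card_univ, Fintype.card_sum, Fintype.card_fin, Fintype.card_fin,
        nsmul_eq_mul]
      push_cast
      linarith
    · refine (hB _ _).2.trans ?_
      have : 0 ≤ ((a : ℝ) + b) * B := by positivity
      linarith

end PLT

end
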