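import Pool.Agent.PLX.WardFc2

/-!
# The Ward identity for the quanta on two curves, general complex displacements

`PLX/WardFc2` without the condition that the displacements are purely imaginary: the displacements
`D s t` of the two species are bounded, `c ≤ ‖1 + D1 s t‖` for some `c > 0`. The kernels and one body
functions are the landed ones.

* **`ward_FcC`** : the Ward identity of the quanta on the two curves.
-/

set_option autoImplicit false
set_option linter.unusedSectionVars false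

noncomputable section

open Complex MeasureTheory
open scoped Classical

namespace PLT

open NUP1 NUP1.Bd NUP1S NUKer PBK PB PLC

variable {ι : Type*} [Fintype ι]

variable {a b τ κ : ℝ} {D D1 : Bool → ℝ → ℂ}

theorem abs_sr (c : Bool) : |sr c| = 1 := by
  cases c <;> simp [sr]

/-- one bound for both displacements -/
theorem exists_bddC (C : ∀ s, Crv a b τ (D s) (D1 s)) :
    ∃ M : ℝ, 0 ≤ M ∧ ∀ s t, ‖D s t‖ ≤ M ∧ ‖D1 s t‖ ≤ M := by
  obtain ⟨M, hM, h1⟩ := (C true).bdd
  obtain ⟨M', hM', h2⟩ := (C false).bdd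
  refine ⟨max M M', le_max_of_le_left hM, fun s t => ?_⟩
  cases s
  · exact ⟨(h2 t).1.trans (le_max_right _ _), (h2 t).2.trans (le_max_right _ _)⟩
  · exact ⟨(h1 t).1.trans (le_max_left _ _), (h1 t).2.trans (le_max_left _ _)⟩

/-- an exponential rate at a moved point -/
theorem exp_move (R x y : ℝ) : Real.exp (-(R * |x + y|)) ≤ Real.exp (|R| * |y|) * Real.exp (-(R * |x|)) := by
  rw [← Real.exp_add]
  refine Real.exp_le_exp.2 ?_
  have h1 : |x + y| ≤ |x| + |y| := abs_add_le x y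
  have h2 : |x| ≤ |x + y| + |y| := by
    have h3 := abs_add_le (x + y) (-y)
    rw [abs_neg, add_neg_cancel_right] at h3
    exact h3
  have h3 : |(|x + y| - |x|)| ≤ |y| := by
    rw [abs_le]
    constructor <;> linarith
  have h4 : |R * (|x| - |x + y|)| ≤ |R| * |y| := by
    rw [abs_mul, abs_sub_comm |x|]
    exact mul_le_mul_of_nonneg_left h3 (abs_nonneg R)
  have h5 := (abs_le.1 h4).2
  linarith

/-- bound of the one body factors on the curves -/
theorem hF2_leC (C : ∀ s, Crv a b τ (D s) (D1 s)) {sp : ι → Bool}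
    {g : Bool → ℂ → ℂ} (hg : Reg p0 κ a b (∑ i, sg (sp i)) g) : ∃ M : ℝ, 0 ≤ M ∧ ∀ i t,
    ‖(1 + D1 (sp i) t) * hF2 sp g τ D i t‖ ≤
      M * Real.exp (-((κ + 2 * (sr (sp i) * ∑ j, sr (sp j))) * |t|)) := by
  obtain ⟨K, hK, hb⟩ := hg.bd
  obtain ⟨M0, hM0, hM⟩ := exists_bddC C
  obtain ⟨S, hS⟩ : ∃ S : ℝ, S = |κ| + 2 * |∑ j, sr (sp j)| := ⟨_, rfl⟩
  have hS0 : 0 ≤ S := by rw [hS]; positivity
  refine ⟨(1 + M0) * K * Real.exp (S * M0), by positivity, fun i t => ?_⟩
  have hre1 : a ≤ (vl τ t + I * D (sp i) t).re := by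
    have e' : (vl τ t + I * D (sp i) t).re = τ - (D (sp i) t).im :=
      crv_re true τ (D (sp i)) (D1 (sp i)) t
    rw [e']
    exact (C (sp i)).re1 t
  have hre2 : (vl τ t + I * D (sp i) t).re ≤ b := by
    have e' : (vl τ t + I * D (sp i) t).re = τ - (D (sp i) t).im :=
      crv_re true τ (D (sp i)) (D1 (sp i)) t
    rw [e']
    exact (C (sp i)).re2 t
  have him : (vl τ t + I * D (sp i) t).im = t + (D (sp i) t).re :=
    crv_im true τ (D (sp i)) (D1 (sp i)) t
  have h1 := hb (sp i) _ hre1 hre2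
  rw [him] at h1
  have e1 : (κ + 2 * ((sg (sp i) * ∑ i, sg (sp i) : ℤ) : ℝ) - 2 * ((p0 (sp i)).card : ℝ)) =
      κ + 2 * (sr (sp i) * ∑ j, sr (sp j)) := by
    rw [Int.cast_mul, sum_sr, sg_sr]
    simp [p0]
  rw [e1] at h1
  obtain ⟨R, hR⟩ : ∃ R : ℝ, R = κ + 2 * (sr (sp i) * ∑ j, sr (sp j)) := ⟨_, rfl⟩
  rw [← hR] at h1 ⊢
  have hRS : |R| ≤ S := by
    rw [hR, hS]
    refine (abs_add_le _ _).trans ?_
    rw [abs_mul, abs_mul, abs_sr, one_mul, abs_two]
  have hD : |(D (sp i) t).re| ≤ M0 := (Complex.abs_re_le_norm _).trans (hM (sp i) t).1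
  have h1' : ‖g (sp i) (vl τ t + I * D (sp i) t)‖ ≤ K * (Real.exp (S * M0) * Real.exp (-(R * |t|))) := by
    refine h1.trans (mul_le_mul_of_nonneg_left ?_ hK)
    refine (exp_move R t _).trans (mul_le_mul_of_nonneg_right ?_ (Real.exp_pos _).le)
    exact Real.exp_le_exp.2 (mul_le_mul hRS hD (abs_nonneg _) hS0)
  have h2 : ‖(2 * Real.pi : ℂ)⁻¹‖ ≤ 1 := by
    rw [norm_inv]
    have e : ‖(2 * Real.pi : ℂ)‖ = 2 * Real.pi := by
      rw [norm_mul, Complex.norm_real, Real.norm_of_nonneg Real.pi_pos.le]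
      simp
    rw [e]
    exact inv_le_one_of_one_le₀ (by linarith [Real.pi_gt_three])
  have h3 : ‖1 + D1 (sp i) t‖ ≤ 1 + M0 := by
    refine (norm_add_le _ _).trans ?_
    rw [norm_one]
    linarith [(hM (sp i) t).2]
  unfold hF2
  rw [norm_mul, norm_mul]
  calc _ ≤ (1 + M0) * (1 * (K * (Real.exp (S * M0) * Real.exp (-(R * |t|))))) :=
        mul_le_mul h3 (mul_le_mul h2 h1' (norm_nonneg _) zero_le_one) (by positivity)
          (by positivity)
    _ = _ := by ring

theorem zd2_reC (C : ∀ s, Crv a b τ (D s) (D1 s)) : ∃ M : ℝ, 0 ≤ M ∧ ∀ (c c' : Bool) (s u : ℝ),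
    |(|(zd2 D c c' s u).re| - |s - u|)| ≤ M := by
  obtain ⟨M0, hM0, hM⟩ := exists_bddC C
  refine ⟨M0 + M0, by linarith, fun c c' s u => ?_⟩
  have e : (zd2 D c c' s u).re = (s - u) + ((D c s).re - (D c' u).re) := by
    unfold zd2
    simp
    ring
  rw [e]
  have h0 := (Complex.abs_re_le_norm (D c s)).trans (hM c s).1
  have h0' := (Complex.abs_re_le_norm (D c' u)).trans (hM c' u).1
  have h1 : |(D c s).re - (D c' u).re| ≤ M0 + M0 := (abs_sub _ _).trans (add_le_add h0 h0')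
  refine (abs_abs_sub_abs_le_abs_sub _ _).trans ?_
  rw [add_sub_cancel_left]
  exact h1

/-- the pair bounds at the parameters -/
theorem pair_moveC (C : ∀ s, Crv a b τ (D s) (D1 s)) {f : Bool → Bool → ℂ → ℂ} {w K : ℝ}
    (hw : b - a ≤ w) (hK : 1 ≤ K)
    (hf : ∀ (c c' : Bool) (z : ℂ), |z.im| ≤ w → ‖f c c' z‖ ≤ K * Real.exp (2 * (sr c * sr c' * |z.re|))) :
    ∃ K' : ℝ, 1 ≤ K' ∧ ∀ (c c' : Bool) (s u : ℝ),
      ‖f c c' (zd2 D c c' s u)‖ ≤ K' * Real.exp (2 * (sr c * sr c' * |s - u|)) := by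
  obtain ⟨M, hM0, hM⟩ := zd2_reC C
  have hE : 1 ≤ Real.exp (2 * M) := Real.one_le_exp (by positivity)
  refine ⟨K * Real.exp (2 * M), by nlinarith, fun c c' s u => ?_⟩
  refine (hf c c' _ ((zd2_im C _ _ _ _).trans hw)).trans ?_
  rw [mul_assoc K, ← Real.exp_add]
  refine mul_le_mul_of_nonneg_left (Real.exp_le_exp.2 ?_) (by linarith)
  have h1 := abs_le.1 (hM c c' s u)
  cases c <;> cases c' <;> simp only [sr, if_true, if_false, Bool.false_eq_true] <;> linarith [h1.1, h1.2]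

/-- the product weight with a general pair function is integrable -/
theorem int_genC (hκ : 0 < κ) (C : ∀ s, Crv a b τ (D s) (D1 s)) {sp : ι → Bool}
    {g : Bool → ℂ → ℂ} (hg : Reg p0 κ a b (∑ i, sg (sp i)) g) {f : (ι → ℝ) → ι → ι → ℂ}
    (hfm : Measurable fun t => PU (f t)) {K : ℝ} (hK : 1 ≤ K)
    (hf : ∀ t i j, i ≠ j → ‖f t i j‖ ≤ K * Real.exp (2 * (sr (sp i) * sr (sp j) * |t i - t j|))) :
    Integrable fun t : ι → ℝ =>
      (∏ i, (1 + D1 (sp i) (t i)) * hF2 sp g τ D i (t i)) * PU (f t) := by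
  obtain ⟨M, hM, hb⟩ := hF2_leC C hg
  refine ((integrable_prod_exp' (ι := ι) hκ).const_mul
    (M ^ Fintype.card ι * K ^ (Fintype.card ι * Fintype.card ι))).mono' ?_
    (Filter.Eventually.of_forall fun t => ?_)
  · refine ((Finset.measurable_prod _ fun i _ => ?_).mul hfm).aestronglyMeasurable
    have h1 : Measurable fun s : ℝ => (1 + D1 (sp i) s) * hF2 sp g τ D i s := by
      unfold hF2
      have hcD := (C (sp i)).contD
      have hcD1 := (C (sp i)).cont
      have h2 : Measurable fun s : ℝ => vl τ s + I * D (sp i) s := by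
        unfold vl
        fun_prop
      exact (measurable_const.add hcD1.measurable).mul (((hg.meas (sp i)).comp h2).const_mul _)
    exact h1.comp (measurable_pi_apply i)
  · exact gen_le (σ := fun i => sr (sp i)) (t := t) (h := fun i => (1 + D1 (sp i) (t i)) *
      hF2 sp g τ D i (t i)) (f := f t) hK (fun i => hb i (t i)) (hf t)

/-- **the integrand is integrable** -/
theorem int_PhiCC (hκ : 0 < κ) (C : ∀ s, Crv a b τ (D s) (D1 s)) (hw : b - a < l)
    {sp : ι → Bool} {g : Bool → ℂ → ℂ} (hg : Reg p0 κ a b (∑ i, sg (sp i)) g) :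
    Integrable (PhiC (er ι) (fun i s => 1 + D1 (sp i) s) (hF2 sp g τ D) (wF2 sp D)) := by
  have hab : 0 ≤ b - a := by linarith [(C true).tau.1, (C true).tau.2]
  obtain ⟨K, hK, hb⟩ := wb_bound hab hw
  obtain ⟨K', hK', hb'⟩ := pair_moveC C le_rfl hK hb
  have h1 := int_genC hκ C hg (f := fun t i j => wF2 sp D i j (t i) (t j))
    (measurable_PU fun i j => measurable_wF2 (fun s => (C s).contD.measurable) sp i j) hK'
    (fun t i j _ => hb' (sp i) (sp j) (t i) (t j))
  refine h1.congr (Filter.Eventually.of_forall fun t => ?_)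
  simp only []
  rw [prod_J2, PU_prs]
  rfl

/-- **integrability with one pair differentiated** -/
theorem int_PhiNPC (hκ : 0 < κ) (C : ∀ s, Crv a b τ (D s) (D1 s)) (hw : b - a < l)
    {sp : ι → Bool} {g : Bool → ℂ → ℂ} (hg : Reg p0 κ a b (∑ i, sg (sp i)) g) (p : ι × ι)
    (hp : p ∈ prs (er ι)) :
    Integrable fun t : ι → ℝ => (∏ i, (1 + D1 (sp i) (t i))) *
      PhiNP (er ι) (hF2 sp g τ D) (wF2 sp D) (wF2' sp D) t p := by
  have hab : 0 ≤ b - a := by linarith [(C true).tau.1, (C true).tau.2]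
  obtain ⟨K, hK, hb⟩ := wb_bound hab hw
  obtain ⟨K', hK', hb'⟩ := dwb_bound hab hw
  obtain ⟨L, hL, hc⟩ := pair_moveC C le_rfl hK hb
  obtain ⟨L', hL', hc'⟩ := pair_moveC C (f := fun b c z => kb b c z * wb b c z) le_rfl hK' hb'
  have h1 := int_genC hκ C hg (K := L + L')
    (f := fun t i j => if (i, j) = p then wF2' sp D i j (t i) (t j)
      else wF2 sp D i j (t i) (t j))
    (measurable_PU fun i j => by
      split_ifs
      · exact measurable_wF2' (fun s => (C s).contD.measurable) sp i j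
      · exact measurable_wF2 (fun s => (C s).contD.measurable) sp i j) (by linarith)
    (fun t i j _ => by
      have h2 := hc (sp i) (sp j) (t i) (t j)
      have h3 := hc' (sp i) (sp j) (t i) (t j)
      have hE := Real.exp_pos (2 * (sr (sp i) * sr (sp j) * |t i - t j|))
      split_ifs
      · exact h3.trans (mul_le_mul_of_nonneg_right (by linarith) hE.le)
      · exact h2.trans (mul_le_mul_of_nonneg_right (by linarith) hE.le))
  refine h1.congr (Filter.Eventually.of_forall fun t => ?_)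
  simp only []
  rw [prod_J2, ← PhiNP_eq2 sp g t p hp]

/-- integrability of the derivatives of the weight -/
theorem int_dPhiCC (hκ : 0 < κ) (C : ∀ s, Crv a b τ (D s) (D1 s)) (hw : b - a < l)
    {sp : ι → Bool} {g : Bool → ℂ → ℂ} (hg : Reg p0 κ a b (∑ i, sg (sp i)) g)
    {L : Bool → ℂ → ℂ} (hLm : ∀ b, Measurable (L b)) {B : ℝ}
    (hLB : ∀ b t, ‖L b (vl τ t + I * D b t)‖ ≤ B) (k : ι) :
    Integrable fun t : ι → ℝ => dPhiC (er ι) (fun i s => 1 + D1 (sp i) s) (hF2 sp g τ D)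
      (fun i t => I * L (sp i) (vl τ t + I * D (sp i) t)) (wF2 sp D) (wF2' sp D) k t := by
  unfold dPhiC dPhiN
  have hcD := (C (sp k)).contD
  have e : ∀ t : ι → ℝ, (∏ i, (1 + D1 (sp i) (t i))) *
      (I * L (sp k) (vl τ (t k) + I * D (sp k) (t k)) *
      PhiN (er ι) (hF2 sp g τ D) (wF2 sp D) t + ∑ p ∈ prs (er ι),
        ((if p.1 = k then (1 : ℂ) else 0) - (if p.2 = k then (1 : ℂ) else 0)) *
        PhiNP (er ι) (hF2 sp g τ D) (wF2 sp D) (wF2' sp D) t p) =
      I * L (sp k) (vl τ (t k) + I * D (sp k) (t k)) *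
        PhiC (er ι) (fun i s => 1 + D1 (sp i) s) (hF2 sp g τ D) (wF2 sp D) t +
        ∑ p ∈ prs (er ι),
        ((if p.1 = k then (1 : ℂ) else 0) - (if p.2 = k then (1 : ℂ) else 0)) *
        ((∏ i, (1 + D1 (sp i) (t i))) *
          PhiNP (er ι) (hF2 sp g τ D) (wF2 sp D) (wF2' sp D) t p) := by
    intro t
    unfold PhiC
    rw [mul_add, Finset.mul_sum]
    congr 1
    · ring
    · exact Finset.sum_congr rfl fun p _ => by ring
  simp_rw [e]
  refine Integrable.add ?_ (integrable_finsetSum _ fun p hp =>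
    (int_PhiNPC hκ C hw hg p hp).const_mul _)
  refine (int_PhiCC hκ C hw hg).bdd_mul (c := B) ?_
    (Filter.Eventually.of_forall fun t => ?_)
  · refine Measurable.aestronglyMeasurable ?_
    refine measurable_const.mul ((hLm (sp k)).comp ?_)
    have h1 : Measurable fun t : ι → ℝ => D (sp k) (t k) :=
      hcD.measurable.comp (measurable_pi_apply k)
    unfold vl
    fun_prop
  · rw [norm_mul, norm_I, one_mul]
    exact hLB _ _

/-- **the Ward identity of the quanta on the two curves**, general displacements -/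
theorem ward_FcC (hκ : 0 < κ) (C : ∀ s, Crv a b τ (D s) (D1 s)) (hw : b - a < l)
    {c0 : ℝ} (hc0 : 0 < c0)
    (hJ : ∀ s t, c0 ≤ ‖1 + D1 s t‖) {sp : ι → Bool}
    {g L : Bool → ℂ → ℂ} (hg : Reg p0 κ a b (∑ i, sg (sp i)) g)
    (hL : ∀ b t, HasDerivAt (g b) (L b (vl τ t + I * D b t) * g b (vl τ t + I * D b t))
      (vl τ t + I * D b t)) (hLm : ∀ b, Measurable (L b)) {B : ℝ}
    (hLB : ∀ b t, ‖L b (vl τ t + I * D b t)‖ ≤ B)
    {X X1 : Bool → ℝ → ℂ} (hX : ∀ b x, HasDerivAt (X b) (X1 b x) x)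
    (hXc : ∀ b, Continuous (X1 b)) (hXB : ∀ b x, ‖X b x‖ ≤ B) (hX1B : ∀ b x, ‖X1 b x‖ ≤ B)
    {O : (ι → ℝ) → ℂ} {dO : ι → (ι → ℝ) → ℂ}
    (hO : ∀ k t, HasDerivAt (fun s => O (Function.update t k s))
      ((1 + D1 (sp k) (t k)) * dO k t) (t k))
    (hOm : AEStronglyMeasurable O) (hdOm : ∀ k, AEStronglyMeasurable (dO k))
    {B' : ℝ} (hOB : ∀ t, ‖O t‖ ≤ B') (hdOB : ∀ k t, ‖dO k t‖ ≤ B') :
    ∫ t : ι → ℝ, ((∑ k, (X1 (sp k) (t k) * (1 + D1 (sp k) (t k))⁻¹ + X (sp k) (t k) *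
        (I * L (sp k) (vl τ (t k) + I * D (sp k) (t k)))) +
      ∑ p ∈ prs (er ι), aF2 D D1 X X1 (sp p.1) (sp p.2) (t p.1) (t p.2)) * O t +
      ∑ k, X (sp k) (t k) * dO k t) *
        Fc p0 g (fun i => crvC (sp i) τ (D (sp i)) (D1 (sp i))) t = 0 := by
  have iP := int_PhiCC hκ C hw hg
  have iD := int_dPhiCC hκ C hw hg hLm hLB
  have hJ0 : ∀ s t, 1 + D1 s t ≠ 0 := fun s t h0 => by
    have := hJ s t
    rw [h0, norm_zero] at this
    linarith
  have hJi : ∀ s t, ‖(1 + D1 s t)⁻¹‖ ≤ c0⁻¹ := fun s t => by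
    rw [norm_inv]
    exact inv_anti₀ hc0 (hJ s t)
  have hcX : ∀ b, Continuous (X b) := fun b =>
    continuous_iff_continuousAt.2 fun x => (hX b x).continuousAt
  have mX : ∀ k, AEStronglyMeasurable fun t : ι → ℝ => X (sp k) (t k) := fun k =>
    ((hcX (sp k)).measurable.comp (measurable_pi_apply k)).aestronglyMeasurable
  have mX1 : ∀ k, AEStronglyMeasurable
      fun t : ι → ℝ => X1 (sp k) (t k) * (1 + D1 (sp k) (t k))⁻¹ :=
    fun k => by
      have h1 : Measurable fun s : ℝ => X1 (sp k) s * (1 + D1 (sp k) s)⁻¹ :=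
        (hXc (sp k)).measurable.mul (measurable_const.add (C (sp k)).cont.measurable).inv
      exact (h1.comp (measurable_pi_apply k)).aestronglyMeasurable
  have mJi : ∀ k, AEStronglyMeasurable fun t : ι → ℝ => (1 + D1 (sp k) (t k))⁻¹ := fun k => by
    have h1 : Measurable fun s : ℝ => (1 + D1 (sp k) s)⁻¹ :=
      (measurable_const.add (C (sp k)).cont.measurable).inv
    exact (h1.comp (measurable_pi_apply k)).aestronglyMeasurable
  have key := wardC (r := er ι) (tour_er ι).irr (J := fun i s => 1 + D1 (sp i) s)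
    (h := hF2 sp g τ D)
    (κ := fun i t => I * L (sp i) (vl τ t + I * D (sp i) t)) (w := wF2 sp D) (w' := wF2' sp D)
    (X := fun i => X (sp i)) (dX := fun i t => X1 (sp i) t * (1 + D1 (sp i) t)⁻¹)
    (a := fun i j => aF2 D D1 X X1 (sp i) (sp j)) (O := O) (dO := dO)
    (fun i t => hasDerivAt_hF2 (fun b => (C b).der) hL sp i t)
    (fun i j s u => hasDerivAt_wF21 C hw sp i j s u)
    (fun i j s u => hasDerivAt_wF22 C hw sp i j s u)
    (fun i s => (hX (sp i) s).congr_deriv (by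
      have := hJ0 (sp i) s
      field_simp))
    (fun i j s u => aF2_rel (fun b => (C b).der) (fun b => (C b).cont) hX hXc (sp i) (sp j) s u)
    hO
    (fun k => by
      have h1 := int_mul (int_mul (int_mul iP hOm hOB) (mX k) fun t => hXB _ _) (mJi k)
        fun t => hJi (sp k) (t k)
      refine h1.congr (Filter.Eventually.of_forall fun t => ?_)
      simp only []
      unfold PhiC
      rw [← Finset.mul_prod_erase Finset.univ (fun i => 1 + D1 (sp i) (t i)) (Finset.mem_univ k)]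
      have := hJ0 (sp k) (t k)
      field_simp)
    (fun k => by
      have h2 : ∀ t : ι → ℝ, ‖X1 (sp k) (t k) * (1 + D1 (sp k) (t k))⁻¹‖ ≤ B * c0⁻¹ := fun t => by
        rw [norm_mul]
        have h3 := hX1B (sp k) (t k)
        have h4 := hJi (sp k) (t k)
        exact mul_le_mul h3 h4 (norm_nonneg _) ((norm_nonneg _).trans h3)
      exact int_mul (int_mul iP hOm hOB) (mX1 k) h2)
    (fun k => int_mul (int_mul iP (hdOm k) (hdOB k)) (mX k) fun t => hXB _ _)
    (fun k => int_mul (int_mul (iD k) hOm hOB) (mX k) fun t => hXB _ _)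
  simp_rw [Fc_eq_PhiC2]
  exact key

end PLT

end
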