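import Pool.Agent.PLT.AnY
import Pool.Agent.PLT.AnF

/-!
# The function `Y` of the tilted content does not depend on the width of the cutoffs

* **`YT_ep`** : `YT a0 b0 ep m = YT a0 b0 ep' m` on `Nz δ` : on the slit `D = i s` all rows and ends are on the imaginary
  axis and the final sum depends only on the rows, the ends and the constants; both sides are analytic on `Nz δ`.
-/

set_option autoImplicit false
set_option linter.unusedSectionVars false
set_option linter.unusedVariables false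

noncomputable section

open Complex MeasureTheory Filter Topology Finset

namespace PLT.AY

open NUP1 (l)
open PLX (Fil)
open PLT.BY PLT.Pa
open _root_.Pool.Agent.PLX (yq rwq RU)

variable [Fil] {a0 b0 : ℕ}

/-- admissible parameters of the lines of the base words -/
private def PY : NUO.Par := ⟨9 / 4, 1 / 4, fun _ => 1 / 40, fun r _ => l * (1 / 40) / (8 * (r + 1))⟩

private theorem parPY : NURow.ParP PY := ⟨rfl, le_rfl, fun _ => by norm_num [PY], fun _ => by norm_num [PY]⟩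

private theorem lnHY : NURow.LnH (NUP1S.lX PY) (NUP1S.lY PY) := by
  have hl := NUP1.lpos
  refine NURow.LnH_P ⟨by norm_num [PY], by norm_num [PY], by norm_num [PY], fun _ => by norm_num [PY],
    fun _ => by norm_num [PY], fun r t => ?_, fun r t => ?_⟩ (by norm_num [PY]) (by norm_num [PY])
    fun r => by norm_num [PY]
  · show 0 < l * (1 / 40) / (8 * ((r : ℝ) + 1))
    positivity
  · exact le_rfl

private theorem lnThY (k : NUP1S.O3) : PHK.lnP parTh k ∈ Set.Icc (PHK.loV (some k)) (PHK.hiV (some k)) := by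
  have hl := NUP1.lpos
  cases k <;> simp only [PHK.lnP, PHK.loV, PHK.hiV, parTh, Set.mem_Icc] <;> constructor <;> nlinarith

/-- records with all rows and ends on the imaginary axis are admissible -/
private theorem ok6Y {m M : ℕ} {c c' : ℂ} {β T1 T1' : ℝ} (h0 : 0 < β) (h1 : β ≤ 4 / 3) {x : Fin m → ℂ}
    {y : Fin M → ℂ} {p q : ℂ} (hx : ∀ i, (x i).re = 0) (hy : ∀ i, (y i).re = 0) (hp : p.re = 0) (hq : q.re = 0) :
    (⟨c, c', β, x, y, p, q, PBX.gP β [I, -I], PBX.gP β [I, -I], PHK.gO T1 [] x, PHK.gO T1' [] y⟩ : RU m M).Ok6 := by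
  have hl := NUP1.lpos
  have r0 : ∀ {w : ℂ}, w.re = 0 → |w.re| ≤ l / 2 := fun h => by rw [h, abs_zero]; positivity
  have n0 : ∀ {w : ℂ}, w.re = 0 → w.re ≠ l / 4 := fun h => by rw [h]; exact (by positivity : (0 : ℝ) < l / 4).ne
  have hE : ∀ w ∈ ([I, -I] : List ℂ), |w.re| ≤ l / 2 := by
    intro w hw
    simp only [List.mem_cons, List.not_mem_nil, or_false] at hw
    rcases hw with rfl | rfl
    · exact r0 (by simp)
    · exact r0 (by simp)
  exact ⟨h0, h1, fun i => r0 (hx i), fun i => r0 (hy i), r0 hp, r0 hq, fun i => n0 (hx i), fun i => n0 (hy i),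
    PBX.GOk.gP h0 h1 hE, PBX.GOk.gP h0 h1 hE, PHK.goN_gO (fun i => r0 (hx i)) (by simp),
    PHK.goN_gO (fun i => r0 (hy i)) (by simp)⟩

/-- on the slit the rows are on the imaginary axis -/
theorem xB_re0 (ha : 1 ≤ a0) (hb : 1 ≤ b0) (m : ℕ) (s : ℝ) (i : Fin m) : (xB a0 b0 m (I * s) i).re = 0 := by
  have hA : (0 : ℝ) < a0 := by exact_mod_cast ha
  have hB : (0 : ℝ) < b0 := by exact_mod_cast hb
  unfold xB
  split_ifs
  · rw [pz_slit hA hB]; simp
  · rw [qz_slit hA hB]; simp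
  · simp

/-- so are the ends -/
theorem eB_re0 (ha : 1 ≤ a0) (hb : 1 ≤ b0) (m : ℕ) (s : ℝ) : (eB a0 b0 m (I * s)).re = 0 := by
  have hA : (0 : ℝ) < a0 := by exact_mod_cast ha
  have hB : (0 : ℝ) < b0 := by exact_mod_cast hb
  unfold eB
  split_ifs
  · rw [qz_slit hA hB]; simp
  · simp

theorem RB_okS (ha : 1 ≤ a0) (hb : 1 ≤ b0) {ep : ℝ} (h0 : 0 ≤ ep) (h1 : ep < 1 / 4) (m : ℕ) (s : ℝ) :
    (RB a0 b0 ep m (I * s)).Ok6 := by
  have b0' : 0 < NUGC.PLX.beC ep := by unfold NUGC.PLX.beC; linarith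
  have b1 : NUGC.PLX.beC ep ≤ 4 / 3 := by unfold NUGC.PLX.beC; linarith
  exact ok6Y b0' b1 (xB_re0 ha hb m s) (fun j => xB_re0 ha hb m s j.modNat) (eB_re0 ha hb m s) (eB_re0 ha hb m s)

/-- on the slit the terms do not depend on the width -/
theorem YB_cut (ha : 1 ≤ a0) (hb : 1 ≤ b0) {ep ep' : ℝ} (h0 : 0 ≤ ep) (h1 : ep < 1 / 4) (h0' : 0 ≤ ep')
    (h1' : ep' < 1 / 4) (m n : ℕ) (s : ℝ) : YB a0 b0 ep m (I * s) n = YB a0 b0 ep' m (I * s) n := by
  have b2 : 1 < NUGC.PLX.beC ep := by unfold NUGC.PLX.beC; linarith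
  have b2' : 1 < NUGC.PLX.beC ep' := by unfold NUGC.PLX.beC; linarith
  have hn : n + Fil.q * m = n + Fil.xn m + m := by
    have := Fil.add_xn m
    omega
  have h : (RB a0 b0 ep m (I * s)).fin parTh n (n + Fil.xn m) =
      (RB a0 b0 ep' m (I * s)).fin parTh n (n + Fil.xn m) :=
    (RB_okS ha hb h0 h1 m s).fin_cut (RB_okS ha hb h0' h1' m s) b2 b2' rfl rfl rfl rfl rfl rfl hn parPY lnHY lnThY
  exact congrArg (fun z => preB a0 b0 m (I * s) * z) h

theorem Nz_pre (de : ℝ) : IsPreconnected (Nz de) := by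
  have e : Nz de = {D : ℂ | -de < D.re} ∩ ({D : ℂ | D.re < l + de} ∩ ({D : ℂ | -de < D.im} ∩ {D : ℂ | D.im < de})) := by
    ext D
    simp only [Nz, Set.mem_inter_iff, abs_lt, Set.mem_ofPred_eq]
  rw [e]
  exact ((convex_halfSpace_re_gt _).inter ((convex_halfSpace_re_lt _).inter
    ((convex_halfSpace_im_gt _).inter (convex_halfSpace_im_lt _)))).isPreconnected

theorem Rc_Nz {δ : ℝ} {D : ℂ} (hD : D ∈ PLT.TwoC.Rc 0 l δ) : D ∈ Nz δ :=
  ⟨by have := hD.1; linarith, hD.2.1, hD.2.2⟩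

/-- **no dependence on the width of the cutoffs** -/
theorem YT_ep (ha : 1 ≤ a0) (hb : a0 ≤ b0) : ∃ δ : ℝ, 0 < δ ∧ δ ≤ 1 / 20 ∧ ∀ ep ep' : ℝ, 0 ≤ ep → ep < 1 / 4 →
    0 ≤ ep' → ep' < 1 / 4 → ∀ m : ℕ, ∀ D ∈ Nz δ, YT a0 b0 ep m D = YT a0 b0 ep' m D := by
  have hl := NUP1.lpos
  obtain ⟨de, H⟩ := exists_plc ha hb
  refine ⟨de, H.d0, H.d1, fun ep ep' h0 h1 h0' h1' m => ?_⟩
  have hb1 : 1 ≤ b0 := ha.trans hb
  have key : ∀ e : ℝ, 0 ≤ e → e < 1 / 4 → AnalyticOnNhd ℂ (YT a0 b0 e m) (Nz de) := by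
    intro e g0 g1
    refine DifferentiableOn.analyticOnNhd (fun D hD => ?_) (Nz_open de)
    have : DifferentiableAt ℂ (YT a0 b0 e m) D := by
      unfold YT
      exact DifferentiableAt.fun_sum fun n _ => diff_YB H ha hb1 g0 (by linarith) m n hD
    exact this.differentiableWithinAt
  have h00 : (0 : ℂ) ∈ Nz de := by
    have := H.d0
    exact ⟨by simpa using this, by simp; linarith, by simpa using this⟩
  have hS : ∀ s : ℝ, YT a0 b0 ep m (I * s) = YT a0 b0 ep' m (I * s) := by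
    intro s
    unfold YT
    exact Finset.sum_congr rfl fun n _ => YB_cut ha hb1 h0 h1 h0' h1' m n s
  have ht : Tendsto (fun s : ℝ => I * (s : ℂ)) (𝓝[≠] 0) (𝓝[≠] 0) := by
    refine tendsto_nhdsWithin_iff.2 ⟨?_, ?_⟩
    · have : Continuous fun s : ℝ => I * (s : ℂ) := by fun_prop
      have h := this.tendsto (0 : ℝ)
      rw [ofReal_zero, mul_zero] at h
      exact h.mono_left nhdsWithin_le_nhds
    · filter_upwards [self_mem_nhdsWithin] with s hs
      exact mul_ne_zero I_ne_zero (ofReal_ne_zero.2 hs)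
  have hf : ∃ᶠ z in 𝓝[≠] (0 : ℂ), YT a0 b0 ep m z = YT a0 b0 ep' m z :=
    ht.frequently (Eventually.of_forall hS).frequently
  exact (key ep h0 h1).eqOn_of_preconnected_of_frequently_eq (key ep' h0' h1') (Nz_pre de) h00 hf

end PLT.AY

end
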