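import Pool.Agent.PLT.ExG

/-!
# Rows without a condition on their distance: the landed class functions `ZK6`

Complex rows `RwG` (real parts in `(-l, 101/200 l]`), extra points of the cutoffs `PtG`.

* **`gF6_G`** : `GF6 x (gO T1 W x)` for such rows and points;
* **`decZG`** (`DecZ6`), `diffAG`, **`invG_an`**, `invG_bd`, `invG_ne`, **`difZG`** (`PHK.DifZ6`),
  **`decQG`** (`PHK.DecZ6`);
* `GX_ZobjG` : the contour integral on the start lines is `ZobjQ (ZK6 ..)`.
-/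

set_option autoImplicit false
set_option linter.unusedSectionVars false
set_option linter.unusedVariables false

noncomputable section

open Complex MeasureTheory Filter Topology

namespace PLTX

open NUP1 NUP1S NUP1.Bd NURow
open NUP1.N (Z3 Gr0)
open NUP1.Leg (hr)
open PBX (Rws ph GOk gP measurable_ph im_le bdd_glueR Bdd_of_Gr Lg)
open Pool.Agent.PLX
open PHK (Par6 GoodP6 DifZ6 pP phO om omA gO)

/-! ### the cutoff of the strings with the factor `om` -/

section om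

variable {X : List ℂ}

theorem K2G_KT {t : ℝ} (h : t ∈ K2P (-(29 / 20 * l))) : t ∈ KT := by
  have hl := Bd.l_pos
  obtain ⟨h1, h2⟩ := h
  constructor <;> linarith

/-- the product of the points is bounded -/
theorem pP_bdG (hX : ∀ w ∈ X, PtG w) : ∃ C : ℝ, 0 ≤ C ∧ ∀ u : ℂ, u.re ∈ KT → ‖pP X u‖ ≤ C := by
  obtain ⟨C, hC, h⟩ := (bdd_gPG (β := 4 / 3) (W := X) (by norm_num) isCompact_KT fun w hw d hd =>
    NQ_pt (by norm_num) le_rfl (hX w hw) hd).2
  refine ⟨C, hC, fun u hu => ?_⟩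
  have := h u hu
  rw [PHK.pP_gP]
  simpa using this

/-- **the vacuum** -/
theorem pP_oneG (hX : ∀ w ∈ X, PtG w) : ∃ T : ℝ, 0 ≤ T ∧ ∀ u : ℂ, u.re ∈ KT → T ≤ |u.im| →
    ‖pP X u - 1‖ ≤ 1 / 5 := by
  obtain ⟨C, hC, h⟩ := (bdd_gPG (β := 4 / 3) (W := X) (by norm_num) isCompact_KT fun w hw d hd =>
    NQ_pt (by norm_num) le_rfl (hX w hw) hd).1
  refine ⟨5 * C, by positivity, fun u hu hT => ?_⟩
  have h1 := h u hu
  have h2 : ‖pP X u - 1‖ ≤ C * Real.exp (-(2 * (4 / 3)) * |u.im|) := by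
    rw [norm_sub_rev]
    exact h1
  refine h2.trans ?_
  have h3 : 1 + 5 * C ≤ Real.exp (2 * (4 / 3) * |u.im|) := by
    have := Real.add_one_le_exp (2 * (4 / 3) * |u.im|)
    nlinarith [abs_nonneg u.im]
  have h4 : Real.exp (-(2 * (4 / 3)) * |u.im|) = (Real.exp (2 * (4 / 3) * |u.im|))⁻¹ := by
    rw [← Real.exp_neg]
    congr 1
    ring
  rw [h4, ← div_eq_mul_inv, div_le_iff₀ (Real.exp_pos _)]
  linarith

theorem dec_omG' (T1 : ℝ) (hX : ∀ w ∈ X, PtG w) {a : ℝ} (ha : 0 ≤ a) :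
    DecOn a (K2P (-(29 / 20 * l))) (om T1 (pP X)) := by
  obtain ⟨T, hT, H⟩ := pP_oneG hX
  obtain ⟨C, hC, HC⟩ := pP_bdG hX
  obtain ⟨D1, hD1⟩ : ∃ D1, D1 = Real.exp (2 * Real.exp (11 / 2 * (T - T1)) * C) * Real.exp (a * T) := ⟨_, rfl⟩
  obtain ⟨D2, hD2⟩ : ∃ D2, D2 = Real.exp (5 * a ^ 2 + a * T1) := ⟨_, rfl⟩
  refine ⟨D1 + D2, fun u hu => ?_⟩
  have hE := Real.exp_pos (-(a * |u.im|))
  have hD10 : 0 ≤ D1 := by rw [hD1]; positivity
  have hD20 : 0 ≤ D2 := by rw [hD2]; positivity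
  rcases le_total |u.im| T with h | h
  · have h1 : ‖om T1 (pP X) u‖ ≤ Real.exp (2 * Real.exp (11 / 2 * (T - T1)) * C) := by
      unfold om
      refine (Complex.norm_exp_le_exp_norm _).trans (Real.exp_le_exp.2 ?_)
      rw [norm_neg, norm_mul]
      calc ‖omA T1 u‖ * ‖pP X u‖ ≤ 2 * Real.exp (11 / 2 * (|u.im| - T1)) * C :=
            mul_le_mul (PHK.norm_omA_le T1 u) (HC u (K2G_KT hu)) (norm_nonneg _) (by positivity)
        _ ≤ _ := by
            refine mul_le_mul_of_nonneg_right ?_ hC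
            refine mul_le_mul_of_nonneg_left (Real.exp_le_exp.2 ?_) (by norm_num)
            linarith
    have h2 : 1 ≤ Real.exp (a * T) * Real.exp (-(a * |u.im|)) := by
      rw [← Real.exp_add]
      refine Real.one_le_exp ?_
      nlinarith
    calc ‖om T1 (pP X) u‖ ≤ Real.exp (2 * Real.exp (11 / 2 * (T - T1)) * C) * 1 := by rw [mul_one]; exact h1
      _ ≤ Real.exp (2 * Real.exp (11 / 2 * (T - T1)) * C) * (Real.exp (a * T) * Real.exp (-(a * |u.im|))) :=
          mul_le_mul_of_nonneg_left h2 (Real.exp_pos _).le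
      _ = D1 * Real.exp (-(a * |u.im|)) := by rw [hD1]; ring
      _ ≤ _ := mul_le_mul_of_nonneg_right (by linarith) hE.le
  · have h1 := PHK.norm_om_vac (T1 := T1) (P := pP X) (PHK.range_win hu.1 hu.2) (H u (K2G_KT hu) h)
    have h3 := PHK.dexp_le (a := a) (y := |u.im| - T1) ha
    have h4 : |u.im| - T1 ≤ max (|u.im| - T1) 0 := le_max_left _ _
    have h5 : Real.exp (-(Real.exp (11 / 2 * (|u.im| - T1)) / 5)) ≤ D2 * Real.exp (-(a * |u.im|)) := by
      rw [hD2, ← Real.exp_add]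
      refine Real.exp_le_exp.2 ?_
      nlinarith
    exact (h1.trans h5).trans (mul_le_mul_of_nonneg_right (by linarith) hE.le)

/-- **the cutoff of the strings decays at every rate** -/
theorem dec_phOG (T1 : ℝ) (hX : ∀ w ∈ X, PtG w) {a : ℝ} (ha : 0 ≤ a) :
    DecOn a (K2P (-(29 / 20 * l))) (phO T1 X) := by
  obtain ⟨D, hD⟩ := dec_omG' T1 hX ha
  obtain ⟨C, hC, HC⟩ := pP_bdG hX
  refine ⟨(1 + C) * D, fun u hu => ?_⟩
  unfold PHK.phO
  rw [norm_mul, mul_assoc]
  refine mul_le_mul ?_ (hD u hu) (norm_nonneg _) (by positivity)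
  rw [PHK.phi_pP]
  refine (norm_sub_le _ _).trans ?_
  rw [norm_one]
  linarith [HC u (K2G_KT hu)]

end om

section gO

variable {m : ℕ} {x : Fin m → ℂ} {W : List ℂ} {T1 : ℝ}

theorem pt_app (hx : RwG x) (hW : ∀ w ∈ W, PtG w) : ∀ w ∈ List.ofFn x ++ W, PtG w := by
  intro w hw
  rcases List.mem_append.1 hw with h | h
  · obtain ⟨i, rfl⟩ := (List.mem_ofFn).1 h
    exact hx i
  · exact hW w h

theorem pt_ofFn (hx : RwG x) : ∀ w ∈ List.ofFn x, PtG w := by
  intro w h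
  obtain ⟨i, rfl⟩ := (List.mem_ofFn).1 h
  exact hx i

theorem measurable_pP (X : List ℂ) : Measurable (pP X) := PBX.measurable_gP (4 / 3) X

theorem diffAt_pP {X : List ℂ} (hX : ∀ w ∈ X, PtG w) {z : ℂ} (hz : z.re ∈ KT) : DifferentiableAt ℂ (pP X) z :=
  diffAt_gPG (β := 4 / 3) fun w hw => by
    rw [sub_re]
    exact NQ_pt (by norm_num) le_rfl (hX w hw) hz

theorem meas_gOG (T1 : ℝ) (W : List ℂ) (x : Fin m → ℂ) : Measurable (gO T1 W x) := by
  have m1 : Measurable (gP (4 / 3) W) := PBX.measurable_gP (4 / 3) W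
  have m2 : Measurable (pP (List.ofFn x ++ W)) := measurable_pP _
  have m3 : Measurable (omA T1) := (PHK.diff_omA T1).continuous.measurable
  have m4 : Measurable PHK.Ez := PHK.diff_Ez.continuous.measurable
  exact m1.mul (((m3.mul m2).neg.cexp).add (m3.mul (m4.comp (m3.mul m2))))

theorem diff_gOG (hx : RwG x) (hW : ∀ w ∈ W, PtG w) {z : ℂ} (hz : z.re ∈ KT) :
    DifferentiableAt ℂ (gO T1 W x) z := by
  have d1 : DifferentiableAt ℂ (gP (4 / 3) W) z := diffAt_pP hW hz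
  have d2 : DifferentiableAt ℂ (pP (List.ofFn x ++ W)) z := diffAt_pP (pt_app hx hW) hz
  have d3 : DifferentiableAt ℂ (omA T1) z := (PHK.diff_omA T1) z
  have d5 : DifferentiableAt ℂ (fun u => PHK.Ez (omA T1 u * pP (List.ofFn x ++ W) u)) z :=
    (PHK.diff_Ez _).comp z (d3.mul d2)
  exact d1.mul (((d3.mul d2).neg.cexp).add (d3.mul d5))

/-- **the correction is admissible** -/
theorem goN_G (hx : RwG x) (hW : ∀ w ∈ W, PtG w) : GOn (K2P (-(29 / 20 * l))) (4 / 3) (gO T1 W x) where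
  meas := meas_gOG T1 W x
  diff z hz := diff_gOG hx hW (K2G_KT hz)
  bd := by
    have hl := lpos
    have hX := pt_app hx hW
    have hx' := pt_ofFn hx
    obtain ⟨D, hD⟩ := dec_phOG T1 hX (a := 8 / 3) (by norm_num)
    obtain ⟨C, hC, hC1⟩ := (bdd_gPG (β := 4 / 3) (W := List.ofFn x) (by norm_num) isCompact_KT fun w hw d hd =>
      NQ_pt (by norm_num) le_rfl (hx' w hw) hd).1
    obtain ⟨T, hT, H⟩ := pP_oneG hx'
    -- the box
    have hcpt : IsCompact (Set.Icc (-(29 / 20 * l)) (-(l / 2)) ×ℂ Set.Icc (-T) T) :=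
      isCompact_Icc.reProdIm isCompact_Icc
    have hcon : ContinuousOn (fun z => 1 - gO T1 W x z)
        (Set.Icc (-(29 / 20 * l)) (-(l / 2)) ×ℂ Set.Icc (-T) T) := fun z hz =>
      ((diff_gOG hx hW (K2G_KT (t := z.re) hz.1)).const_sub 1).continuousAt.continuousWithinAt
    obtain ⟨M, hM⟩ := hcpt.exists_bound_of_continuousOn hcon
    refine ⟨|M| * Real.exp (8 / 3 * T) + 5 / 4 * (C + |D|), by positivity, fun z hz => ?_⟩
    have hE := Real.exp_pos (-(2 * (4 / 3)) * |z.im|)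
    rcases le_total |z.im| T with h | h
    · have h1 := hM z ⟨hz, (abs_le.1 h)⟩
      have h2 : 1 ≤ Real.exp (8 / 3 * T) * Real.exp (-(2 * (4 / 3)) * |z.im|) := by
        rw [← Real.exp_add]
        refine Real.one_le_exp ?_
        linarith
      calc ‖1 - gO T1 W x z‖ ≤ |M| * 1 := by rw [mul_one]; exact h1.trans (le_abs_self _)
        _ ≤ |M| * (Real.exp (8 / 3 * T) * Real.exp (-(2 * (4 / 3)) * |z.im|)) :=
            mul_le_mul_of_nonneg_left h2 (abs_nonneg _)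
        _ = |M| * Real.exp (8 / 3 * T) * Real.exp (-(2 * (4 / 3)) * |z.im|) := by ring
        _ ≤ _ := mul_le_mul_of_nonneg_right (by
            have : 0 ≤ 5 / 4 * (C + |D|) := by positivity
            linarith) hE.le
    · have h1 := H z (K2G_KT hz) h
      obtain ⟨Q, hQ⟩ : ∃ Q, Q = pP (List.ofFn x) z := ⟨_, rfl⟩
      rw [← hQ] at h1
      have hQ1 : 4 / 5 ≤ ‖Q‖ := by
        have := norm_sub_norm_le (1 : ℂ) (1 - Q)
        rw [norm_one, sub_sub_cancel, norm_sub_rev] at this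
        linarith
      have e : (1 - gO T1 W x z) * Q = (Q - 1) + phO T1 (List.ofFn x ++ W) z := by
        have h2 := PHK.ph_gO T1 W x z
        have h3 : Q = ∏ i, psi (4 / 3) (z - x i) := by
          rw [hQ]
          have := PHK.pP_append x [] z
          rw [List.append_nil] at this
          rw [this]
          unfold PBX.gP
          simp
        unfold PBX.ph at h2
        rw [← h3] at h2
        rw [← h2]
        ring
      have e2 : ‖1 - gO T1 W x z‖ * ‖Q‖ ≤ (C + |D|) * Real.exp (-(2 * (4 / 3)) * |z.im|) := by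
        rw [← norm_mul, e, add_mul]
        refine (norm_add_le _ _).trans (add_le_add ?_ ?_)
        · rw [norm_sub_rev, hQ]
          exact hC1 z (K2G_KT hz)
        · refine (hD z hz).trans ?_
          have e3 : -(8 / 3 * |z.im|) = -(2 * (4 / 3)) * |z.im| := by ring
          rw [e3]
          exact mul_le_mul_of_nonneg_right (le_abs_self _) hE.le
      have h4 : ‖1 - gO T1 W x z‖ ≤ 5 / 4 * (‖1 - gO T1 W x z‖ * ‖Q‖) := by
        nlinarith [norm_nonneg (1 - gO T1 W x z)]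
      calc ‖1 - gO T1 W x z‖ ≤ 5 / 4 * ((C + |D|) * Real.exp (-(2 * (4 / 3)) * |z.im|)) := by linarith
        _ = 5 / 4 * (C + |D|) * Real.exp (-(2 * (4 / 3)) * |z.im|) := by ring
        _ ≤ _ := mul_le_mul_of_nonneg_right (by
            have : 0 ≤ |M| * Real.exp (8 / 3 * T) := by positivity
            linarith) hE.le

/-- **the cutoff of the strings for rows of a general direction** -/
theorem gF6_G (T1 : ℝ) (hx : RwG x) (hW : ∀ w ∈ W, PtG w) : GF6 x (gO T1 W x) :=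
  ⟨goN_G hx hW, fun M => by
    rw [PHK.ph_gO_fun]
    exact dec_phOG T1 (pt_app hx hW) (Nat.cast_nonneg M)⟩

end gO

/-! ### the row factor -/

section row

variable {m M : ℕ} {c : ℂ} {x : Fin m → ℂ} {y : Fin M → ℂ}

theorem sin_row3G (hy : RwG y) {u : ℂ} (h2 : 0 ≤ u.re) (h3 : u.re < l) (j : Fin M) :
    sin (u - y j + 3 * l) ≠ 0 := by
  have hl := lpos
  obtain ⟨a, b⟩ := hy j
  exact sin_ne_re (a := u.re - (y j).re + 3 * l) (by simp) (sin_pos_of (by linarith) (by linarith)).ne'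

theorem diffAt_RRG_inv (hy : RwG y) {u : ℂ} (h2 : 0 ≤ u.re) (h3 : u.re < l) :
    DifferentiableAt ℂ (fun u => (RRU c x y u)⁻¹) u := by
  have e : (fun u => (RRU c x y u)⁻¹) = fun u =>
    c⁻¹ * (∏ i, sin (u - x i)) * (∏ i, sin (u - x i - 2 * l)) * ∏ j, (sin (u - y j + 3 * l) ^ 2)⁻¹ :=
    funext fun u => RRU_inv u
  rw [e]
  refine ((((differentiableAt_const _).mul ?_)).mul ?_).mul ?_
  · exact DifferentiableAt.fun_finsetProd fun i _ => by fun_prop
  · exact DifferentiableAt.fun_finsetProd fun i _ => by fun_prop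
  · refine DifferentiableAt.fun_finsetProd fun j _ => ?_
    have hs := pow_ne_zero 2 (sin_row3G hy h2 h3 j)
    fun_prop (disch := exact hs)

theorem RRG_ne (hc : c ≠ 0) (hx : RwG x) (hy : RwG y) {u : ℂ}
    (h2 : 51 / 100 * l ≤ u.re) (h3 : u.re < l) : RRU c x y u ≠ 0 := by
  have hl := lpos
  intro hz
  have h00 : (RRU c x y u)⁻¹ = 0 := by rw [hz, inv_zero]
  revert h00
  rw [RRU_inv]
  refine mul_ne_zero (mul_ne_zero (mul_ne_zero (inv_ne_zero hc) ?_) ?_) ?_
  · refine Finset.prod_ne_zero_iff.2 fun i _ => ?_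
    obtain ⟨a, b⟩ := hx i
    exact sin_ne_re (a := u.re - (x i).re) (by simp) (sin_pos_of (by linarith) (by linarith)).ne'
  · refine Finset.prod_ne_zero_iff.2 fun i _ => ?_
    obtain ⟨a, b⟩ := hx i
    have e : Real.sin (u.re - (x i).re - 2 * l) ≠ 0 := by
      have h5 := sin_pos_of (x := 2 * l - (u.re - (x i).re)) (by linarith) (by linarith)
      have e6 : u.re - (x i).re - 2 * l = -(2 * l - (u.re - (x i).re)) := by ring
      rw [e6, Real.sin_neg]
      exact neg_ne_zero.2 h5.ne'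
    exact sin_ne_re (a := u.re - (x i).re - 2 * l) (by simp) e
  · refine Finset.prod_ne_zero_iff.2 fun j _ => inv_ne_zero (pow_ne_zero 2
      (sin_row3G hy (by linarith) h3 j))

theorem bdd_RRG_inv (hy : RwG y) {r r' : ℝ} (hr : 0 ≤ r) (hr' : r' < l) :
    Bdd (Set.Icc r r') (2 * ((m : ℝ) - M)) fun u => (RRU c x y u)⁻¹ := by
  refine Bdd_of_Gr (K := Set.Icc r r') isCompact_Icc (α := r')
    (β := r) (s := 2 * ((m : ℝ) - M)) (fun r hr => hr) (Gr_RRU_inv _ _) fun z hz =>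
      (diffAt_RRG_inv hy (by linarith [hz.1]) (by linarith [hz.2])).continuousAt

end row

/-! ### the class functions -/

variable {N : Bool → ℕ} {P : Par6} {ep β : ℝ} {c : Bool → ℂ} {ro : ∀ a, Fin (N a) → ℂ}
  {ex : Bool → List ℂ} {g0 : Bool → ℂ → ℂ} {s : Bool → ℂ → ℂ} {q : ℤ}

theorem ZKT_ZK6G (hβ : 0 < β) (hβ' : β ≤ 4 / 3) (hr : ∀ a, RwG (ro a)) (a : Bool)
    (k : Option O3) {z : ℂ} (hz : k = some .T → z.re = -(l / 2)) :
    ZK6 c β ro ex g0 s a k z = ZKT c β ro ex g0 s a k z :=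
  XXT_XXG hβ hβ' (hr a) k hz

/-- the data of the class functions on the strips -/
theorem famZKG (hβ : 0 < β) (hβ' : β ≤ 4 / 3)
    (hr : ∀ a, RwG (ro a)) (hex : ∀ a, ∀ w ∈ ex a, PtG w) (hg0 : ∀ a, GO6 (g0 a))
    (hs : ∀ a, SpW6 (sc (a, .A) * (q : ℝ)) (s a)) (a : Bool) :
    FamA a (51 / 100 * l) l (-(201 / 100 * l)) (-(102 / 100 * l)) (-(29 / 20 * l))
      (-(101 / 100 * l)) (-(101 / 100 * l)) (-(l / 2)) (2 * β) (-(q : ℝ) + N true - N false)
      (ZKT c β ro ex g0 s a) :=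
  famXG hβ hβ' (hr a) (gonG hβ hβ' (hex a)) (hg0 a) (SpW6.specT (hs a)) (charge_ZK a)

theorem ln6_strip (hP : GoodT P) (k : O3) : ln6 P k ∈ Set.Icc
      (lo4 0 (-(201 / 100 * l)) (-(29 / 20 * l)) (-(101 / 100 * l)) (some k))
      (lo4 0 (-(102 / 100 * l)) (-(101 / 100 * l)) (-(l / 2)) (some k)) := by
  have hl := lpos
  have hj1 := hP.jL'
  have he3 := hP.e13
  have he := hP.e45
  have hj : P.jL ≤ 27 / 10 := by linarith [hP.Lj, hP.j1e]
  cases k <;> simp only [ln6, lo4] <;> constructor <;> nlinarith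

/-- **the contour integral on the start lines is `ZobjQ` on the lines of (P)** -/
theorem GX_ZobjG (hP : GoodT P) (hβ : 0 < β) (hβ' : β ≤ 4 / 3)
    (hr : ∀ a, RwG (ro a)) (hex : ∀ a, ∀ w ∈ ex a, PtG w) (hg0 : ∀ a, GO6 (g0 a))
    (hs : ∀ a, SpW6 (sc (a, .A) * (q : ℝ)) (s a)) {n n' : ℕ} (hn : (n' : ℤ) + N true = n + N false + q) :
    Z3 (51 / 100 * l) (-(201 / 100 * l)) n n'
        (GXU (c true) β (ro true) (ro false) (gP β (ex true)) (s true))
        (GXU (c false) β (ro false) (ro true) (gP β (ex false)) (s false)) =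
      ZobjQ (ZK6 c β ro ex g0 s true) (ZK6 c β ro ex g0 s false) (51 / 100 * l) n n'
        (fun _ _ k _ i => ln6 P (k i)) (fun _ _ _ k' i => ln6 P (k' i)) := by
  have hn' : (n' : ℝ) + N true = n + N false + (q : ℝ) := by exact_mod_cast hn
  have hln := ln6_strip hP
  have gon := fun a => gonG hβ hβ' (hex a)
  have A2 := stageXG (c := c true) (c' := c false) (g0 := g0 true) (g0' := g0 false) hβ hβ' (hr true)
    (hr false) (gon true) (hg0 true) (gon false) (hg0 false) n n' hn'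
    (SpW6.specT (hs true)) (SpW6.specT (hs false)) (fun _ _ k _ i => ln6 P (k i)) (fun _ _ _ k' i => ln6 P (k' i))
    (fun _ _ k _ i => hln (k i)) (fun _ _ _ k' i => hln (k' i))
  have A3 := ZobjQ_congr (ln := ln6 P) (α := 51 / 100 * l) (n := n) (n' := n') (X := ZK6 c β ro ex g0 s true)
    (Y := ZK6 c β ro ex g0 s false) (X' := ZKT c β ro ex g0 s true) (Y' := ZKT c β ro ex g0 s false)
    (funext fun z => ZKT_ZK6G hβ hβ' hr true none fun hk => by cases hk)
    (funext fun z => ZKT_ZK6G hβ hβ' hr false none fun hk => by cases hk)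
    (fun k z hz => ZKT_ZK6G hβ hβ' hr true (some k) fun hk => by
      cases hk
      exact hz)
    (fun k z hz => ZKT_ZK6G hβ hβ' hr false (some k) fun hk => by
      cases hk
      exact hz)
  rw [A3]
  exact A2

/-- **decay on the lines** -/
theorem decZG (hP : GoodT P) (hβ : 0 < β) (hβ' : β ≤ 4 / 3)
    (hr : ∀ a, RwG (ro a)) (hex : ∀ a, ∀ w ∈ ex a, PtG w) (hg0 : ∀ a, GF6 (ro a) (g0 a))
    (hs : ∀ a, SpW6 (sc (a, .A) * (q : ℝ)) (s a)) :
    Pool.Agent.PLX.DecZ6 (ZK6 c β ro ex g0 s) P (51 / 100 * l) (2 * β) (-(q : ℝ) + N true - N false) := by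
  have hl := lpos
  have hj1 := hP.jL'
  have he3 := hP.e13
  have he := hP.e45
  have hj : P.jL ≤ 27 / 10 := by linarith [hP.Lj, hP.j1e]
  have hsp := fun a => SpW6.specT (hs a)
  have F := fun a => famZKG (c := c) hβ hβ' hr hex (fun a => (hg0 a).gn) hs a
  refine ⟨fun a => (F a).dec none, fun a => ?_, fun a => ?_, fun a M => ?_⟩
  · refine DecOn.mono ((F a).dec (some .L)) ?_
    rw [Set.singleton_subset_iff]
    constructor
    · show -(201 / 100 * l) ≤ (1 - P.jL) * l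
      nlinarith
    · show (1 - P.jL) * l ≤ -(102 / 100 * l)
      nlinarith
  · obtain ⟨D, hD⟩ := (F a).dec (some .T)
    refine ⟨D, fun z hz => ?_⟩
    have hz' : z.re = -(l / 2) := hz
    rw [ZKT_ZK6G hβ hβ' hr a (some .T) fun _ => hz']
    refine hD z ?_
    rw [hz']
    constructor
    · show -(101 / 100 * l) ≤ -(l / 2)
      linarith
    · show -(l / 2) ≤ -(l / 2)
      linarith
  · have b1 := bdd_RRGS (y := ro (!a)) (c a) (hr a)
    have b2 : Bdd (Set.Icc (-(29 / 20 * l)) (-(101 / 100 * l))) _ (fun w => RRU (c a) (ro a) (ro (!a)) (w - l)) :=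
      Bdd.mono_set (RRG_shift_bdd (y := ro (!a)) (c a) (hr a)) fun x hx => S_K2G hx
    have b3 : Bdd (Set.Icc (-(29 / 20 * l)) (-(101 / 100 * l))) _ (fun w => s a w * s a (w - l)) :=
      Bdd.mono_set (hsp a).b2 fun x hx => S_K2G hx
    have b4 : ∀ M : ℕ, DecOn (M : ℝ) (Set.Icc (-(29 / 20 * l)) (-(101 / 100 * l))) (ph (4 / 3) (ro a) (g0 a)) :=
      fun M => DecOn.mono ((hg0 a).fast M) fun x hx => S_K2G hx
    have b5 := DecOn_fast ((b1.mul b2).mul b3) b4 M
    refine DecOn.mono (K' := Set.Icc (-(29 / 20 * l)) (-(101 / 100 * l))) ?_ ?_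
    · obtain ⟨D, hD⟩ := b5
      refine ⟨D, fun z hz => ?_⟩
      have e : ZK6 c β ro ex g0 s a (some .S) z = RRU (c a) (ro a) (ro (!a)) z *
          RRU (c a) (ro a) (ro (!a)) (z - l) * (s a z * s a (z - l)) * ph (4 / 3) (ro a) (g0 a) z := by
        show RRU (c a) (ro a) (ro (!a)) z * RRU (c a) (ro a) (ro (!a)) (z - l) * ph (4 / 3) (ro a) (g0 a) z *
          (s a z * s a (z - l)) = _
        ring
      rw [e]
      exact hD z hz
    · rw [Set.singleton_subset_iff]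
      constructor
      · show -(29 / 20 * l) ≤ -((1 + P.e) * l)
        nlinarith
      · show -((1 + P.e) * l) ≤ -(101 / 100 * l)
        nlinarith

/-- **holomorphy of the quanta on `[51/100 l, l]`** -/
theorem diffAG (hβ : 0 < β) (hβ' : β ≤ 4 / 3)
    (hr : ∀ a, RwG (ro a)) (hex : ∀ a, ∀ w ∈ ex a, PtG w)
    (hs : ∀ a, SpW6 (sc (a, .A) * (q : ℝ)) (s a)) (a : Bool) {u : ℂ} (h2 : 51 / 100 * l ≤ u.re) (h3 : u.re ≤ l) :
    DifferentiableAt ℂ (ZK6 c β ro ex g0 s a none) u :=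
  diffAt_GXG (y := ro (!a)) hβ hβ' (hr a) (gonG hβ hβ' (hex a)) (SpW6.specT (hs a)) (Or.inl ⟨h2, h3⟩)

section inv

variable {xa xb : ℝ} (hβ : 0 < β) (hβ' : β ≤ 4 / 3)
  (hr : ∀ a, RwG (ro a)) (hex : ∀ a, ∀ w ∈ ex a, PtG w) (hφ : PhT xa xb β ro ex)
  (hc : ∀ a, c a ≠ 0) (hs : ∀ a, SpWx xa (sc (a, .A) * (q : ℝ)) (s a)) (hxa : 0 ≤ xa) (hxb : xb ≤ l)

include hβ hβ' hr hex hφ hs hxa hxb

theorem invG_an (a : Bool) {u : ℂ} (h2 : xa < u.re) (h3 : u.re < xb) :
    DifferentiableAt ℂ (fun u => (ZK6 c β ro ex g0 s a none u)⁻¹) u := by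
  have hl := lpos
  rw [ZK6_inv]
  refine ((diffAt_RRG_inv (hr (!a)) (by linarith) (by linarith)).mul ?_).mul
    ((hs a).inv_diff (by linarith) (by linarith) (by linarith))
  exact (diffAt_phG hβ hβ' (hr a) (fun t ht => ht) (gonG hβ hβ' (hex a)) (z := u)
    ⟨by linarith, by linarith⟩).inv (hφ.ne a u h2 h3)

theorem invG_bd (a : Bool) {r r' : ℝ} (h2 : xa < r) (h3 : r' < xb) :
    Bdd (Set.Icc r r') (2 * β + 2 * (-(q : ℝ) + N true - N false) * sc (a, Ob.A))
      fun u => (ZK6 c β ro ex g0 s a none u)⁻¹ := by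
  have hl := lpos
  rw [ZK6_inv]
  have a1 := bdd_RRG_inv (c := c a) (x := ro a) (hr (!a)) (r := r) (r' := r') (by linarith) (by linarith)
  have a3 := Bdd.mono_set ((hs a).inv_bdd (by linarith) h2) (K := Set.Icc r r')
    fun t ht => ⟨ht.1, by linarith [ht.2]⟩
  refine ((a1.mul (hφ.bd a r r' h2 h3)).mul a3).rate ?_
  have := charge_ZK (N := N) (q := q) a
  linarith

include hc

theorem invG_ne (hxa' : xa < 51 / 100 * l) (a : Bool) {u : ℂ} (h2 : 51 / 100 * l ≤ u.re) (h3 : u.re < xb) :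
    ZK6 c β ro ex g0 s a none u ≠ 0 := by
  have hl := lpos
  show RRU (c a) (ro a) (ro (!a)) u * ph β (ro a) (gP β (ex a)) u * s a u ≠ 0
  exact mul_ne_zero (mul_ne_zero (RRG_ne (hc a) (hr a) (hr (!a)) h2 (by linarith))
    (hφ.ne a u (by linarith) h3)) ((hs a).ne u (by linarith) (by linarith))

/-- **holomorphy**, `xa + δ ≤ (1 - j2) l`, `(1 - j1) l + δ ≤ xb` -/
theorem difZG (ha6 : xa ≤ 1 / 10 * l) {δ : ℝ} (d1 : xa + δ ≤ (1 - P.j2) * l) (d2 : (1 - P.j1) * l + δ ≤ xb) :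
    DifZ6 (ZK6 c β ro ex g0 s) P (51 / 100 * l) δ := by
  have hl := lpos
  refine ⟨fun a u h2 h3 => ?_, fun a u h2 h3 => ?_, fun a u h2 h3 => ?_⟩
  · exact diffAG hβ hβ' hr hex (fun a => (hs a).to6 ha6) a h2 h3
  · exact invG_an hβ hβ' hr hex hφ hs hxa hxb a (by linarith) (by linarith)
  · exact invG_ne hβ hβ' hr hex hφ hc hs hxa hxb (by linarith) a h2 (by linarith)

/-- **the record of the class formula** -/
theorem decQG (hP : GoodT P) (ha6 : xa ≤ 1 / 10 * l) (hg0 : ∀ a, GF6 (ro a) (g0 a)) {δ : ℝ} (hδ : 0 < δ)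
    (d1 : xa + δ ≤ (1 - P.j2) * l) (d2 : (1 - P.j1) * l + δ ≤ xb) :
    PHK.DecZ6 (ZK6 c β ro ex g0 s) P (51 / 100 * l) (2 * β) (2 * β) (-(q : ℝ) + N true - N false) := by
  have hl := lpos
  have h := decZG (c := c) hP hβ hβ' hr hex hg0 (fun a => (hs a).to6 ha6)
  refine ⟨h.A, h.L, fun a => ?_, h.S, fun a => ?_⟩
  · have e : -(1 / 2 * l) = -(l / 2) := by ring
    rw [e]
    exact h.T a
  · exact invG_bd hβ hβ' hr hex hφ hs hxa hxb a (by linarith) (by linarith)

end inv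

end PLTX

end
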