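import Pool.Agent.PLT.ZcBI
import Pool.Agent.PHK.ZcOkX6

/-!
# The cut term at arbitrary rows on the imaginary axis: the hypotheses of the cut estimate

Rows `rwq x` (real parts at most `l / 10`), any velocities `v`.

* `OkX.dWI`, `OkX.dRI`, `OkX.dSI`, `OkX.dph`, `OkX.dTI`: regularity;
* `zcI_T_dec`: the cut term of `T` decays;
* **`zcOkI_X`**: `ZcOk6` for the one body functions and the cut term from `CutHI`.
-/

set_option autoImplicit false
set_option linter.unusedVariables false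
set_option linter.unusedSectionVars false

noncomputable section

open Complex Set

namespace PLT.Fr

open NUP1 NUP1S.AbC NURow NUO NUGC NUGC.PLX PBX PBX.PLX
open NUP1S hiding R0
open PBFar (psiD prd prd1 wE vE Hyp th den_ne' re_pt hyp_43)
open PBC.PLX (FlX6 diff_prd1 diff_prd diff_psi XXF6 diff_RRU_pt norm_RRU_T)
open PHK (om omA pP phO gO Par6 GoodP6 diff_omA)
open PBI.PLX (ZcOk6)
open _root_.PLX (Fil)
open _root_.Pool.Agent.PLX (XXU RRU TTU rwq)

/-! ## regularity -/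

section reg
variable {n : ℕ} {b : ℝ} {y v : Fin n → ℂ} {ξe : ℝ → ℂ} {T1 : ℝ} {X : ℂ → ℂ}

theorem OkX.dWI {s : ℝ} (h : Hyp b s) (hy : ∀ i, |(y i).re| ≤ l / 2) {u : ℂ}
    (hX : DifferentiableAt ℂ X u) (hu : |u.re + l / 2| ≤ s) :
    DifferentiableAt ℂ (fun u => DWI b y v ξe (X u) u) u := by
  have hl := Bd.l_pos
  unfold DWI
  refine diff_prd1 (a := fun u i => Sum.elim v (vE b 0 0 y v ξe) i - I * X u)
    (fun i => (hX.const_mul I).const_sub _) ?_
  rintro (i | i)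
  · exact den_ne' h.wide (re_pt h hu (hy i))
  · refine den_ne' h.wide (re_pt h hu ?_)
    fin_cases i <;> simp [PBFar.wE] <;> positivity

theorem OkX.dRI (hy : ∀ i, |(y i).re| ≤ l / 2) {u : ℂ} (hX : DifferentiableAt ℂ X u)
    (hu : |u.re + l / 2| ≤ l) : DifferentiableAt ℂ (fun u => DRI y v (X u) u) u := by
  unfold DRI
  exact diff_prd1 (a := fun u i => v i - I * X u) (fun i => (hX.const_mul I).const_sub _)
    fun i => den_ne' hyp_43.wide (re_pt hyp_43 hu (hy i))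

theorem OkX.dSI (hy : ∀ i, |(y i).re| ≤ l / 2) {u : ℂ} (hX : DifferentiableAt ℂ X u)
    (hu : |u.re + l / 2| ≤ l) : DifferentiableAt ℂ (fun u => DSI y v T1 (X u) u) u := by
  have hp : DifferentiableAt ℂ (prd (4 / 3) y) u :=
    diff_prd fun i => den_ne' hyp_43.wide (re_pt hyp_43 hu (hy i))
  have hP : DifferentiableAt ℂ (pP (List.ofFn y)) u := by
    have e : pP (List.ofFn y) = prd (4 / 3) y := funext fun u => pP_ofFn y u
    rw [e]
    exact hp
  have hφ : DifferentiableAt ℂ (NUP1.phi (4 / 3) (List.ofFn y)) u := by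
    have e : NUP1.phi (4 / 3) (List.ofFn y) = fun u => 1 - prd (4 / 3) y u :=
      funext fun u => phi_ofFn (4 / 3) y u
    rw [e]
    exact hp.const_sub 1
  have ho : DifferentiableAt ℂ (om T1 (pP (List.ofFn y))) u := by
    unfold PHK.om
    exact (((diff_omA T1) u).mul hP).neg.cexp
  unfold DSI
  exact (OkX.dRI hy hX hu).mul (ho.mul ((((diff_omA T1) u).mul hφ).const_add 1))

theorem OkX.dph {s : ℝ} (hH : Hyp b s) (hy : ∀ i, |(y i).re| ≤ l / 2) {u : ℂ}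
    (hu : |u.re + l / 2| ≤ s) : DifferentiableAt ℂ (fun u => ph b y (gP b [I, -I]) u) u := by
  have hl := Bd.l_pos
  have e : (fun u => ph b y (gP b [I, -I]) u) = fun u => 1 - prd b (Sum.elim y wE) u :=
    funext fun u => ph_wE b y u
  rw [e]
  refine DifferentiableAt.const_sub (diff_prd ?_) 1
  rintro (i | i)
  · exact den_ne' hH.wide (re_pt hH hu (hy i))
  · refine den_ne' hH.wide (re_pt hH hu ?_)
    fin_cases i <;> simp [PBFar.wE] <;> positivity

theorem OkX.dTI {s : ℝ} (hH : Hyp b s) (hy : ∀ i, |(y i).re| ≤ l / 2) {u : ℂ}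
    (hX : DifferentiableAt ℂ X u) (hu : |u.re + l / 2| ≤ l) (hus : |u.re + l / 2| ≤ s)
    (hul : |(u - l).re + l / 2| ≤ s) :
    DifferentiableAt ℂ (fun u => DTI b y v ξe T1 (X u) u) u := by
  have h1 : DifferentiableAt ℂ (fun u => DWI b y v ξe (X u) u) u := OkX.dWI hH hy hX hus
  have hs : DifferentiableAt ℂ (fun u : ℂ => u - (l : ℂ)) u :=
    differentiableAt_id.sub_const (l : ℂ)
  have h2 : DifferentiableAt ℂ (fun u => DWI b y v ξe (X u) (u - l)) u := by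
    have hX' : DifferentiableAt ℂ (fun z => X (z + l)) (u - l) := by
      have hX2 : DifferentiableAt ℂ X ((u - l) + l) := by rwa [sub_add_cancel]
      exact hX2.comp (u - l) (differentiableAt_id.add_const _)
    have h3 := DifferentiableAt.comp (f := fun u : ℂ => u - (l : ℂ)) u
      (OkX.dWI (v := v) (ξe := ξe) hH hy hX' hul) hs
    refine h3.congr_of_eventuallyEq (Filter.Eventually.of_forall fun z => ?_)
    simp
  have h5 : DifferentiableAt ℂ (fun u => ph b y (gP b [I, -I]) (u - l)) u :=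
    DifferentiableAt.comp (f := fun u : ℂ => u - (l : ℂ)) u (OkX.dph hH hy hul) hs
  unfold DTI
  exact ((h1.mul h5).add ((OkX.dph hH hy hus).mul h2)).sub (OkX.dSI hy hX hu)

end reg

variable [Fil] {m : ℕ} {x : Fin m → ℂ} {c : Bool → ℂ}

/-- the cut term of `T` decays -/
theorem zcI_T_dec {v : ∀ a : Bool, Fin (cond a m (Fil.q * m)) → ℂ} {b : ℝ} {ξe : ℝ → ℂ} {T1 : ℝ}
    {X : ℂ → ℂ} {cc δ : ℝ} {M : Bool → ℝ → ℝ} {s1 s2 : Bool → ℂ → ℂ} {h0 : ℝ}
    (hx : ∀ i, PBO.PtZ h0 (x i)) {S2 : ℝ} (hS2 : ∀ a t, ‖s2 a (posT t)‖ ≤ S2) {D0 κ : ℝ}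
    (hM : ∀ a t, M a t ≤ D0 * Real.exp (-(κ * |t|)))
    (h : CutHI b (rwq x) v ξe T1 X cc M δ) :
    ∃ D : ℝ, ∀ (a : Bool) (t : ℝ),
      ‖ZcFI c (rwq x) v b ξe T1 X s1 s2 a (some .T) (posT t)‖ ≤
      D * Real.exp (-((κ + 2 * (-(Fil.xn m : ℝ)) * sc (a, .S)) * |t|)) := by
  have hl := Bd.l_pos
  obtain ⟨D1, hD1, H⟩ := norm_RRU_T c hx
  have hS0 : 0 ≤ S2 := (norm_nonneg _).trans (hS2 true 0)
  have hD0 : 0 ≤ D0 := by
    have := (h.M0 true 0).trans (hM true 0)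
    simpa using this
  refine ⟨D1 * D1 * S2 * D0, fun a t => ?_⟩
  have r1 : (posT t).re = -(1 / 2 * l) := PBC.PLX.posT_re t
  have r2 : (posT t - l).re = -(3 / 2 * l) := by
    rw [sub_re, r1, ofReal_re]
    ring
  have i1 : (posT t).im = t := PBC.PLX.posT_im t
  have i2 : (posT t - l).im = t := by rw [sub_im, i1, ofReal_im, sub_zero]
  have a1 := H a (posT t) (by rw [r1]; linarith) (by rw [r1])
  have a2 := H a (posT t - l) (by rw [r2]) (by rw [r2]; linarith)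
  rw [i1] at a1
  rw [i2] at a2
  show ‖RRU (c a) (rwq x a) (rwq x !a) (posT t) * RRU (c a) (rwq x a) (rwq x !a) (posT t - l) *
    DTI b (rwq x a) (v a) ξe T1 (X (posT t + 2 * l)) (posT t) * s2 a (posT t)‖ ≤ _
  rw [norm_mul, norm_mul, norm_mul]
  have hT := (h.T a t).trans (hM a t)
  have hs := hS2 a t
  have scS : sc (a, .S) = 2 * sc (a, .A) := Pool.Agent.PLX.sc_S a
  have ee : Real.exp (2 * (Fil.xn m : ℝ) * sc (a, .A) * |t|) *
      Real.exp (2 * (Fil.xn m : ℝ) * sc (a, .A) * |t|) * Real.exp (-(κ * |t|)) =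
      Real.exp (-((κ + 2 * (-(Fil.xn m : ℝ)) * sc (a, .S)) * |t|)) := by
    rw [← Real.exp_add, ← Real.exp_add, scS]
    congr 1
    ring
  calc _ ≤ (D1 * Real.exp (2 * (Fil.xn m : ℝ) * sc (a, .A) * |t|)) *
        (D1 * Real.exp (2 * (Fil.xn m : ℝ) * sc (a, .A) * |t|)) *
        (D0 * Real.exp (-(κ * |t|))) * S2 := by
        gcongr
    _ = D1 * D1 * S2 * D0 * (Real.exp (2 * (Fil.xn m : ℝ) * sc (a, .A) * |t|) *
      Real.exp (2 * (Fil.xn m : ℝ) * sc (a, .A) * |t|) * Real.exp (-(κ * |t|))) := by ring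
    _ = _ := by rw [ee]

/-- **the hypotheses of the cut estimate** -/
theorem zcOkI_X {P : Par6} {v : ∀ a : Bool, Fin (cond a m (Fil.q * m)) → ℂ} {k : ℕ} {b : ℝ}
    {ξe : ℝ → ℂ} {T1 : ℝ} {X : ℂ → ℂ} {cc δ : ℝ} {M : Bool → ℝ → ℝ} {s1 s2 : Bool → ℂ → ℂ}
    {h0 s : ℝ} (hP : GoodP6 P)
    (hj : P.jL ≤ 9 / 4) (hδ0 : 0 ≤ δ) (hδ : δ ≤ 1 / 20) (hH : Hyp b s) (hs : (3 / 2 + δ) * l ≤ s)
    (hr : ∀ i, |(x i).re| ≤ l / 10) (hx : ∀ i, PBO.PtZ h0 (x i)) {C0 : ℝ} (hF : FlX6 k C0 X ξe)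
    (hm1 : ∀ a, Measurable (s1 a)) (hm2 : ∀ a, Measurable (s2 a))
    (hd : ∀ a (u : ℂ), 99 / 800 * l ≤ u.re → u.re ≤ (1 + δ) * l → DifferentiableAt ℂ (s1 a) u)
    (hdL : ∀ a (u : ℂ), -(5 / 4 * l) ≤ u.re → u.re ≤ -l → DifferentiableAt ℂ (s1 a) u)
    (hd2 : ∀ a (u : ℂ), -(29 / 20 * l) ≤ u.re → u.re ≤ -(1 / 2 * l) → DifferentiableAt ℂ (s2 a) u)
    {S2 : ℝ} (hS2 : ∀ a t, ‖s2 a (posT t)‖ ≤ S2) {D0 κ : ℝ}
    (hM : ∀ a t, M a t ≤ D0 * Real.exp (-(κ * |t|))) (h : CutHI b (rwq x) v ξe T1 X cc M δ) :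
    ZcOk6 (XXF6 c b (rwq x) T1 s1 s2) (ZcFI c (rwq x) v b ξe T1 X s1 s2) P κ δ cc
      (-(Fil.xn m : ℤ)) := by
  have hl := Bd.l_pos
  have hrq : ∀ (a : Bool) i, |(rwq x a i).re| ≤ l / 10 := fun a i =>
    Pool.Agent.PLX.forall_rwq (P := fun w : ℂ => |w.re| ≤ l / 10) hr a i
  have hrq2 : ∀ (a : Bool) i, |(rwq x a i).re| ≤ l / 2 := fun a i =>
    (hrq a i).trans (by linarith)
  have e1 := hP.e13
  have e2 := hP.e45
  have j1 := hP.L2
  have hs0 : 3 / 2 * l ≤ s := le_trans (by nlinarith) hs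
  -- the row factors
  have dR : ∀ (a : Bool) (u : ℂ), 99 / 800 * l ≤ u.re → u.re ≤ (1 + δ) * l →
      DifferentiableAt ℂ (RRU (c a) (rwq x a) (rwq x !a)) u := by
    intro a u u1 u2
    refine diff_RRU_pt (c a) fun i => ?_
    obtain ⟨r1, r2⟩ := abs_le.1 (hrq a i)
    rw [sub_re]
    exact NP_pos (by linarith) (by nlinarith)
  have dRn : ∀ (a : Bool) (u : ℂ), -(5 / 2 * l) ≤ u.re → u.re ≤ -(1 / 2 * l) →
      DifferentiableAt ℂ (RRU (c a) (rwq x a) (rwq x !a)) u := by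
    intro a u u1 u2
    refine diff_RRU_pt (c a) fun i => ?_
    obtain ⟨r1, r2⟩ := abs_le.1 (hrq a i)
    rw [sub_re]
    exact NP_neg (by linarith) (by linarith)
  have dRl : ∀ (a : Bool) (u : ℂ), -(3 / 2 * l) ≤ u.re → u.re ≤ -(1 / 2 * l) →
      DifferentiableAt ℂ (fun u => RRU (c a) (rwq x a) (rwq x !a) (u - l)) u := by
    intro a u u1 u2
    refine DifferentiableAt.comp u (dRn a (u - l) ?_ ?_) (differentiableAt_id.sub_const _)
    · rw [sub_re, ofReal_re]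
      linarith
    · rw [sub_re, ofReal_re]
      linarith
  have dX2 : ∀ u : ℂ, -(17 / 9 * l) ≤ u.re → u.re ≤ -(9 / 20 * l) →
      DifferentiableAt ℂ (fun u => X (u + 2 * l)) u := by
    intro u u1 u2
    have hre : (u + 2 * l).re = u.re + 2 * l := by simp
    exact DifferentiableAt.comp u (hF.df (u + 2 * l) (by rw [hre]; linarith) (by rw [hre]; linarith))
      (differentiableAt_id.add_const _)
  refine ⟨fun a o => zcI_meas hF.me hm1 hm2 a o, fun a u u1 u2 => ?_, fun a u u1 u2 => ?_,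
    fun a o u hu => ?_, fun a u hu => ?_, fun a u hu => ?_, fun a => ?_⟩
  · have h4 : DifferentiableAt ℂ (fun u => DWI b (rwq x a) (v a) ξe (X u) u) u :=
      OkX.dWI hH (hrq2 a) (hF.df u (by linarith) (by nlinarith)) (by
        rw [abs_of_pos (by linarith)]
        nlinarith)
    exact ((dR a u u1 u2).mul h4).mul (hd a u u1 u2)
  · exact zcI_A h a (by linarith) u2
  · rcases o with _ | _ | _
    · -- `L`
      have h1 : -(5 / 4 * l) ≤ u.re := hu.1
      have h2 : u.re ≤ (1 - P.jL) * l := hu.2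
      have h3 : u.re ≤ -l := h2.trans (by nlinarith)
      have h4 : DifferentiableAt ℂ (fun u => DWI b (rwq x a) (v a) ξe (X (u + 2 * l)) u) u :=
        OkX.dWI (X := fun u => X (u + 2 * l)) hH (hrq2 a) (dX2 u (by linarith) (by linarith)) (by
          rw [abs_le]
          constructor <;> linarith)
      exact ((dRn a u (by linarith) (by linarith)).mul h4).mul (hdL a u h1 h3)
    · -- `S`
      have h1 : -((1 + P.e) * l) ≤ u.re := hu.1
      have h2 : u.re ≤ -(5 / 4 * l) := hu.2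
      have h1' : -(29 / 20 * l) ≤ u.re := le_trans (by nlinarith) h1
      have h4 : DifferentiableAt ℂ (fun u => DSI (rwq x a) (v a) T1 (X (u + 2 * l)) u) u :=
        OkX.dSI (X := fun u => X (u + 2 * l)) (hrq2 a) (dX2 u (by linarith) (by linarith)) (by
          rw [abs_le]
          constructor <;> linarith)
      exact (((dRn a u (by linarith) (by linarith)).mul (dRl a u (by linarith) (by linarith))).mul
        h4).mul (hd2 a u h1' (by linarith))
    · -- `T`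
      have h1 : -(1 / 2 * l) ≤ u.re := hu.1
      have h2 : u.re ≤ -(1 / 2 * l) := hu.2
      have h3 : u.re = -(1 / 2 * l) := le_antisymm h2 h1
      have hul : (u - l).re = -(3 / 2 * l) := by
        rw [sub_re, ofReal_re, h3]
        ring
      have h4 : DifferentiableAt ℂ (fun u => DTI b (rwq x a) (v a) ξe T1 (X (u + 2 * l)) u) u :=
        OkX.dTI (X := fun u => X (u + 2 * l)) hH (hrq2 a) (dX2 u (by linarith) (by linarith))
          (by rw [h3, show -(1 / 2 * l) + l / 2 = 0 by ring, abs_zero]; exact hl.le)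
          (by rw [h3, show -(1 / 2 * l) + l / 2 = 0 by ring, abs_zero]; linarith)
          (by
            rw [hul, show -(3 / 2 * l) + l / 2 = -l by ring, abs_neg, abs_of_pos hl]
            linarith)
      exact (((dRn a u (by linarith) h2).mul (dRl a u (by linarith) h2)).mul
        h4).mul (hd2 a u (by linarith) h2)
  · have h1 : -(5 / 4 * l) ≤ u.re := hu.1
    have h2 : u.re ≤ (1 - P.jL) * l := hu.2
    exact zcI_L h a (by linarith) (h2.trans (by nlinarith))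
  · have h1 : -((1 + P.e) * l) ≤ u.re := hu.1
    have h2 : u.re ≤ -(5 / 4 * l) := hu.2
    exact zcI_S h a (le_trans (by nlinarith) h1) (by linarith)
  · obtain ⟨D, hD⟩ := zcI_T_dec (c := c) (s1 := s1) hx hS2 hM h
    refine ⟨D, fun u hu => ?_⟩
    have hu' : u.re = -(1 / 2 * l) := hu
    have e : u = posT u.im := by
      apply Complex.ext
      · rw [hu', PBC.PLX.posT_re]
      · rw [PBC.PLX.posT_im]
    have key := hD a u.im
    rw [← e] at key
    push_cast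
    exact key

/-- **rows on the axis** -/
theorem zcOk_I {P : Par6} {v : ∀ a : Bool, Fin (cond a m (Fil.q * m)) → ℂ} {k : ℕ} {b : ℝ}
    {ξe : ℝ → ℂ} {T1 : ℝ} {X : ℂ → ℂ} {cc δ : ℝ} {M : Bool → ℝ → ℝ} {s1 s2 : Bool → ℂ → ℂ}
    {s : ℝ} (hP : GoodP6 P)
    (hj : P.jL ≤ 9 / 4) (hδ0 : 0 ≤ δ) (hδ : δ ≤ 1 / 20) (hH : Hyp b s) (hs : (3 / 2 + δ) * l ≤ s)
    (hx : PBForce.Rws0 x) {C0 : ℝ} (hF : FlX6 k C0 X ξe)
    (hm1 : ∀ a, Measurable (s1 a)) (hm2 : ∀ a, Measurable (s2 a))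
    (hd : ∀ a (u : ℂ), 99 / 800 * l ≤ u.re → u.re ≤ (1 + δ) * l → DifferentiableAt ℂ (s1 a) u)
    (hdL : ∀ a (u : ℂ), -(5 / 4 * l) ≤ u.re → u.re ≤ -l → DifferentiableAt ℂ (s1 a) u)
    (hd2 : ∀ a (u : ℂ), -(29 / 20 * l) ≤ u.re → u.re ≤ -(1 / 2 * l) → DifferentiableAt ℂ (s2 a) u)
    {S2 : ℝ} (hS2 : ∀ a t, ‖s2 a (posT t)‖ ≤ S2) {D0 κ : ℝ}
    (hM : ∀ a t, M a t ≤ D0 * Real.exp (-(κ * |t|))) (h : CutHI b (rwq x) v ξe T1 X cc M δ) :
    ZcOk6 (XXF6 c b (rwq x) T1 s1 s2) (ZcFI c (rwq x) v b ξe T1 X s1 s2) P κ δ cc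
      (-(Fil.xn m : ℤ)) := by
  have hl := Bd.l_pos
  refine zcOkI_X (h0 := 1) hP hj hδ0 hδ hH hs (fun i => ?_) (fun i => ⟨?_, hx.im i⟩) hF hm1 hm2 hd
    hdL hd2 hS2 hM h
  · rw [hx.re i, abs_zero]
    positivity
  · rw [hx.re i, abs_zero]
    positivity

end PLT.Fr

end
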