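import Pool.Agent.NUP.MF.Strip

/-!
# Zeros of the density of a content with real places

`PC s m x z = ∑ m_i Pc (z + I x_i l)`: the density of a content with multiplicities `m_i ≥ 0` and
places `x_i` (units `l`), `|x_i| < 1`; `z.re` is the height, `z.im` the offset.

* `Pc_sn`, `Pc_shift` : partial fractions
* `PC_re` : the real part of `PC z sinh (8 z / 3)`, its sign is the sign of the height
* `PC_ne` : no zero off the axis `z.re = 0`, whatever the offset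
* `PC_lower` : lower bound off the axis
-/

set_option autoImplicit false

open Finset

namespace PLTZ

noncomputable section

/-- `sin (π a / 3 + i 8 z / 3)`, zero at offset `a` -/
def sn (a : ℝ) (z : ℂ) : ℂ := Complex.sin ((Real.pi / 3 * a : ℝ) + Complex.I * (8 / 3 * z))

/-- squared modulus of `sn` -/
def nn (a : ℝ) (z : ℂ) : ℝ :=
  Real.sin (Real.pi / 3 * a - 8 / 3 * z.im) ^ 2 + Real.sinh (8 / 3 * z.re) ^ 2

lemma arg_re (a : ℝ) (z : ℂ) :
    (((Real.pi / 3 * a : ℝ) : ℂ) + Complex.I * (8 / 3 * z)).re = Real.pi / 3 * a - 8 / 3 * z.im := by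
  rw [Complex.add_re, Complex.ofReal_re, Complex.I_mul_re, NUMF.im83s]
  ring

lemma arg_im (a : ℝ) (z : ℂ) :
    (((Real.pi / 3 * a : ℝ) : ℂ) + Complex.I * (8 / 3 * z)).im = 8 / 3 * z.re := by
  rw [Complex.add_im, Complex.ofReal_im, Complex.I_mul_im, NUMF.re83s, zero_add]

lemma sin_re (w : ℂ) : (Complex.sin w).re = Real.sin w.re * Real.cosh w.im := by
  conv_lhs => rw [← Complex.re_add_im w]
  rw [Complex.sin_add_mul_I]
  simp only [Complex.add_re, Complex.mul_re, Complex.I_re, Complex.I_im, mul_zero, mul_one,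
    Complex.sin_ofReal_re, Complex.cosh_ofReal_re, Complex.sin_ofReal_im, Complex.cosh_ofReal_im,
    Complex.cos_ofReal_re, Complex.sinh_ofReal_re, Complex.cos_ofReal_im, Complex.sinh_ofReal_im,
    Complex.mul_im]
  ring

lemma sin_im (w : ℂ) : (Complex.sin w).im = Real.cos w.re * Real.sinh w.im := by
  conv_lhs => rw [← Complex.re_add_im w]
  rw [Complex.sin_add_mul_I]
  simp only [Complex.add_im, Complex.mul_re, Complex.I_re, Complex.I_im, mul_zero, mul_one,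
    Complex.sin_ofReal_re, Complex.cosh_ofReal_re, Complex.sin_ofReal_im, Complex.cosh_ofReal_im,
    Complex.cos_ofReal_re, Complex.sinh_ofReal_re, Complex.cos_ofReal_im, Complex.sinh_ofReal_im,
    Complex.mul_im]
  ring

lemma sn_re (a : ℝ) (z : ℂ) :
    (sn a z).re = Real.sin (Real.pi / 3 * a - 8 / 3 * z.im) * Real.cosh (8 / 3 * z.re) := by
  unfold sn
  rw [sin_re, arg_re, arg_im]

lemma sn_im (a : ℝ) (z : ℂ) :
    (sn a z).im = Real.cos (Real.pi / 3 * a - 8 / 3 * z.im) * Real.sinh (8 / 3 * z.re) := by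
  unfold sn
  rw [sin_im, arg_re, arg_im]

lemma normSq_sn (a : ℝ) (z : ℂ) : Complex.normSq (sn a z) = nn a z := by
  rw [Complex.normSq_apply, sn_re, sn_im]
  unfold nn
  have h1 := Real.sin_sq_add_cos_sq (Real.pi / 3 * a - 8 / 3 * z.im)
  have h2 := Real.cosh_sq (8 / 3 * z.re)
  nlinarith [h1, h2]

lemma norm_sn_sq (a : ℝ) (z : ℂ) : ‖sn a z‖ ^ 2 = nn a z := by
  rw [← Complex.normSq_eq_norm_sq, normSq_sn]

lemma nn_nonneg (a : ℝ) (z : ℂ) : 0 ≤ nn a z := by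
  unfold nn
  positivity

lemma nn_pos {a : ℝ} {z : ℂ} (hz : z.re ≠ 0) : 0 < nn a z := by
  unfold nn
  have h1 : Real.sinh (8 / 3 * z.re) ≠ 0 := by
    rw [Ne, Real.sinh_eq_zero]
    simpa using hz
  have h2 : 0 < Real.sinh (8 / 3 * z.re) ^ 2 := by positivity
  have h3 := sq_nonneg (Real.sin (Real.pi / 3 * a - 8 / 3 * z.im))
  linarith

lemma nn_le (a : ℝ) (z : ℂ) : nn a z ≤ Real.cosh (8 / 3 * z.re) ^ 2 := by
  unfold nn
  rw [Real.cosh_sq]
  have := Real.sin_sq_le_one (Real.pi / 3 * a - 8 / 3 * z.im)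
  linarith

lemma sn_ne {a : ℝ} {z : ℂ} (h : nn a z ≠ 0) : sn a z ≠ 0 := by
  intro h1
  apply h
  rw [← normSq_sn, h1, map_zero]

lemma sn_expand (a : ℝ) (z : ℂ) : sn a z =
    (Real.sin (Real.pi / 3 * a) : ℂ) * Complex.cosh (8 / 3 * z) +
      Complex.I * (Real.cos (Real.pi / 3 * a) : ℂ) * Complex.sinh (8 / 3 * z) := by
  unfold sn
  rw [mul_comm Complex.I, Complex.sin_add_mul_I, Complex.ofReal_sin, Complex.ofReal_cos]
  ring

lemma sn_shift (a x : ℝ) (z : ℂ) : sn a (z + Complex.I * (x * NUMF.l : ℝ)) = sn (a - x) z := by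
  unfold sn
  congr 1
  have h : ((NUMF.l : ℝ) : ℂ) = (Real.pi : ℂ) / 8 := by
    unfold NUMF.l
    push_cast
    ring
  push_cast
  rw [h]
  have hI : Complex.I * Complex.I = -1 := Complex.I_mul_I
  linear_combination (8 / 3 * x * (Real.pi : ℂ) / 8) * hI

lemma prod12 (z : ℂ) : sn 1 z * sn 2 z =
    (2 * Complex.cosh (8 / 3 * z) - 1) * (2 * Complex.cosh (8 / 3 * z) + 1) / 4 := by
  rw [sn_expand, sn_expand]
  have h1 : Real.pi / 3 * 1 = Real.pi / 3 := by ring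
  have h2 : Real.pi / 3 * 2 = Real.pi - Real.pi / 3 := by ring
  rw [h1, h2, Real.sin_pi_sub, Real.cos_pi_sub, Real.sin_pi_div_three, Real.cos_pi_div_three]
  have h3 : ((√3 : ℝ) : ℂ) * ((√3 : ℝ) : ℂ) = 3 := by
    rw [← Complex.ofReal_mul, NUMF.sq3]
    norm_num
  have h4 := Complex.cosh_sq (8 / 3 * z)
  have hI : Complex.I * Complex.I = -1 := Complex.I_mul_I
  push_cast
  linear_combination (Complex.cosh (8 / 3 * z) ^ 2 / 4) * h3 -
    (Complex.sinh (8 / 3 * z) ^ 2 / 4) * hI - (1 / 4 : ℂ) * h4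

lemma sum12 (z : ℂ) : sn 1 z + sn 2 z = ((√3 : ℝ) : ℂ) * Complex.cosh (8 / 3 * z) := by
  rw [sn_expand, sn_expand]
  have h1 : Real.pi / 3 * 1 = Real.pi / 3 := by ring
  have h2 : Real.pi / 3 * 2 = Real.pi - Real.pi / 3 := by ring
  rw [h1, h2, Real.sin_pi_sub, Real.cos_pi_sub, Real.sin_pi_div_three, Real.cos_pi_div_three]
  push_cast
  ring

/-- partial fractions of the density of one row -/
lemma Pc_sn {z : ℂ} (h1 : sn 1 z ≠ 0) (h2 : sn 2 z ≠ 0) :
    NUMF.Pc z = 4 / (3 * Real.pi : ℝ) * (1 / sn 1 z + 1 / sn 2 z) := by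
  have hp := prod12 z
  have hs := sum12 z
  have h3 : ((√3 : ℝ) : ℂ) * ((√3 : ℝ) : ℂ) = 3 := by
    rw [← Complex.ofReal_mul, NUMF.sq3]
    norm_num
  have h30 : ((√3 : ℝ) : ℂ) ≠ 0 := Complex.ofReal_ne_zero.2 NUMF.sq3_pos.ne'
  have hpi : (Real.pi : ℂ) ≠ 0 := Complex.ofReal_ne_zero.2 Real.pi_ne_zero
  have hne : (2 * Complex.cosh (8 / 3 * z) - 1) * (2 * Complex.cosh (8 / 3 * z) + 1) ≠ 0 := by
    intro h
    rw [h, zero_div] at hp
    exact mul_ne_zero h1 h2 hp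
  have m1 : 2 * Complex.cosh (8 / 3 * z) - 1 ≠ 0 := left_ne_zero_of_mul hne
  have m2 : 2 * Complex.cosh (8 / 3 * z) + 1 ≠ 0 := right_ne_zero_of_mul hne
  have e1 : 1 / sn 1 z + 1 / sn 2 z = (sn 1 z + sn 2 z) / (sn 1 z * sn 2 z) := by
    field_simp
    ring
  rw [e1, hp, hs]
  unfold NUMF.Pc
  push_cast
  generalize Complex.cosh (8 / 3 * z) = c at *
  field_simp
  linear_combination (-4 * c) * h3

lemma Pc_shift {x : ℝ} {z : ℂ} (h1 : sn (1 - x) z ≠ 0) (h2 : sn (2 - x) z ≠ 0) :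
    NUMF.Pc (z + Complex.I * (x * NUMF.l : ℝ)) =
      4 / (3 * Real.pi : ℝ) * (1 / sn (1 - x) z + 1 / sn (2 - x) z) := by
  rw [← sn_shift] at h1 h2
  rw [Pc_sn h1 h2, sn_shift, sn_shift]

/-- the real part of `sinh (8 z / 3) / sn a z` -/
lemma re_frac (a : ℝ) (z : ℂ) :
    (1 / sn a z * Complex.sinh (8 / 3 * z)).re =
      Real.sin (Real.pi / 3 * a) * (Real.sinh (8 / 3 * z.re) * Real.cosh (8 / 3 * z.re)) / nn a z := by
  have h0 : 1 / sn a z * Complex.sinh (8 / 3 * z) =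
      Complex.sinh (8 / 3 * z) * (starRingEnd ℂ) (sn a z) * ((nn a z)⁻¹ : ℝ) := by
    rw [one_div, Complex.inv_def, normSq_sn]
    ring
  rw [h0, Complex.re_mul_ofReal, ← div_eq_mul_inv]
  congr 1
  rw [sn_expand]
  have hs : (8 / 3 * z : ℂ) = ((8 / 3 * z.re : ℝ) : ℂ) + ((8 / 3 * z.im : ℝ) : ℂ) * Complex.I := by
    conv_lhs => rw [← Complex.re_add_im z]
    push_cast
    ring
  rw [hs, Complex.sinh_add, Complex.cosh_add, Complex.sinh_mul_I, Complex.cosh_mul_I]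
  simp only [← Complex.ofReal_sinh, ← Complex.ofReal_cosh, ← Complex.ofReal_sin,
    ← Complex.ofReal_cos, map_add, map_mul, Complex.conj_ofReal, Complex.conj_I]
  generalize Real.sinh (8 / 3 * z.re) = S
  generalize Real.cosh (8 / 3 * z.re) = K
  have h1 := Real.sin_sq_add_cos_sq (8 / 3 * z.im)
  generalize Real.sin (8 / 3 * z.im) = b at *
  generalize Real.cos (8 / 3 * z.im) = c at *
  simp only [Complex.add_re, Complex.add_im, Complex.mul_re, Complex.mul_im, Complex.neg_re,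
    Complex.neg_im, Complex.I_re, Complex.I_im, Complex.ofReal_re, Complex.ofReal_im]
  linear_combination (Real.sin (Real.pi / 3 * a) * S * K) * h1

lemma norm_sinh_sq (z : ℂ) : ‖Complex.sinh (8 / 3 * z)‖ ^ 2 = nn 0 z := by
  rw [← norm_sn_sq, sn_expand]
  simp

lemma norm_sinh_le (z : ℂ) : ‖Complex.sinh (8 / 3 * z)‖ ≤ Real.cosh (8 / 3 * z.re) := by
  refine abs_le_of_sq_le_sq' ?_ (Real.cosh_pos _).le |>.2
  rw [norm_sinh_sq]
  exact nn_le _ _

/-! ### contents -/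

variable {ι : Type*}

/-- the density of a content -/
def PC (s : Finset ι) (m x : ι → ℝ) (z : ℂ) : ℂ :=
  ∑ i ∈ s, (m i : ℂ) * NUMF.Pc (z + Complex.I * (x i * NUMF.l : ℝ))

/-- the weight of a pole pair -/
def wt (x : ℝ) (z : ℂ) : ℝ :=
  Real.sin (Real.pi / 3 * (1 - x)) / nn (1 - x) z + Real.sin (Real.pi / 3 * (2 - x)) / nn (2 - x) z

theorem PC_re (s : Finset ι) (m x : ι → ℝ) {z : ℂ} (hz : z.re ≠ 0) :
    (PC s m x z * Complex.sinh (8 / 3 * z)).re = 4 / (3 * Real.pi) *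
      (Real.sinh (8 / 3 * z.re) * Real.cosh (8 / 3 * z.re)) * ∑ i ∈ s, m i * wt (x i) z := by
  unfold PC
  rw [Finset.sum_mul, Complex.re_sum, Finset.mul_sum]
  refine Finset.sum_congr rfl fun i _ => ?_
  have n1 : nn (1 - x i) z ≠ 0 := (nn_pos hz).ne'
  have n2 : nn (2 - x i) z ≠ 0 := (nn_pos hz).ne'
  rw [Pc_shift (sn_ne n1) (sn_ne n2)]
  have e1 : (m i : ℂ) * (4 / (3 * Real.pi : ℝ) * (1 / sn (1 - x i) z + 1 / sn (2 - x i) z)) *
      Complex.sinh (8 / 3 * z) = ((m i * (4 / (3 * Real.pi)) : ℝ) : ℂ) *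
      (1 / sn (1 - x i) z * Complex.sinh (8 / 3 * z) +
        1 / sn (2 - x i) z * Complex.sinh (8 / 3 * z)) := by
    push_cast
    ring
  rw [e1, Complex.re_ofReal_mul, Complex.add_re, re_frac, re_frac]
  unfold wt
  ring

lemma sin1_pos {x : ℝ} (hx : |x| < 1) : 0 < Real.sin (Real.pi / 3 * (1 - x)) := by
  have hpi := Real.pi_pos
  rw [abs_lt] at hx
  refine Real.sin_pos_of_pos_of_lt_pi (mul_pos (by positivity) (by linarith)) ?_
  have : Real.pi / 3 * (1 - x) < Real.pi / 3 * 3 := mul_lt_mul_of_pos_left (by linarith) (by positivity)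
  linarith

lemma sin2_pos {x : ℝ} (hx : |x| < 1) : 0 < Real.sin (Real.pi / 3 * (2 - x)) := by
  have hpi := Real.pi_pos
  rw [abs_lt] at hx
  refine Real.sin_pos_of_pos_of_lt_pi (mul_pos (by positivity) (by linarith)) ?_
  have : Real.pi / 3 * (2 - x) < Real.pi / 3 * 3 := mul_lt_mul_of_pos_left (by linarith) (by positivity)
  linarith

lemma wt_pos {x : ℝ} (hx : |x| < 1) {z : ℂ} (hz : z.re ≠ 0) : 0 < wt x z :=
  add_pos (div_pos (sin1_pos hx) (nn_pos hz)) (div_pos (sin2_pos hx) (nn_pos hz))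

lemma sin12 (x : ℝ) : Real.sin (Real.pi / 3 * (1 - x)) + Real.sin (Real.pi / 3 * (2 - x)) =
    √3 * Real.cos (Real.pi / 3 * x) := by
  have h1 : Real.pi / 3 * (1 - x) = Real.pi / 3 - Real.pi / 3 * x := by ring
  have h2 : Real.pi / 3 * (2 - x) = Real.pi - (Real.pi / 3 + Real.pi / 3 * x) := by ring
  rw [h1, h2, Real.sin_pi_sub, Real.sin_sub, Real.sin_add, Real.sin_pi_div_three]
  ring

lemma cos_ge {x : ℝ} (hx : |x| < 1) : 1 / 2 ≤ Real.cos (Real.pi / 3 * x) := by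
  have hpi := Real.pi_pos
  rw [← Real.cos_pi_div_three, ← Real.cos_abs (Real.pi / 3 * x)]
  refine Real.cos_le_cos_of_nonneg_of_le_pi (abs_nonneg _) (by linarith) ?_
  rw [abs_mul, abs_of_pos (by positivity : 0 < Real.pi / 3)]
  nlinarith [abs_nonneg x]

lemma wt_ge {x : ℝ} (hx : |x| < 1) {z : ℂ} (hz : z.re ≠ 0) :
    √3 / 2 / Real.cosh (8 / 3 * z.re) ^ 2 ≤ wt x z := by
  have hc : 0 < Real.cosh (8 / 3 * z.re) ^ 2 := by
    have := Real.cosh_pos (8 / 3 * z.re)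
    positivity
  have h1 : Real.sin (Real.pi / 3 * (1 - x)) / Real.cosh (8 / 3 * z.re) ^ 2 ≤
      Real.sin (Real.pi / 3 * (1 - x)) / nn (1 - x) z :=
    div_le_div_of_nonneg_left (sin1_pos hx).le (nn_pos hz) (nn_le _ _)
  have h2 : Real.sin (Real.pi / 3 * (2 - x)) / Real.cosh (8 / 3 * z.re) ^ 2 ≤
      Real.sin (Real.pi / 3 * (2 - x)) / nn (2 - x) z :=
    div_le_div_of_nonneg_left (sin2_pos hx).le (nn_pos hz) (nn_le _ _)
  have h3 : √3 / 2 / Real.cosh (8 / 3 * z.re) ^ 2 ≤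
      (Real.sin (Real.pi / 3 * (1 - x)) + Real.sin (Real.pi / 3 * (2 - x))) /
        Real.cosh (8 / 3 * z.re) ^ 2 := by
    rw [sin12]
    refine div_le_div_of_nonneg_right ?_ hc.le
    have := cos_ge hx
    have h3 := NUMF.sq3_pos
    nlinarith
  unfold wt
  rw [add_div] at h3
  linarith

/-- no zero of the density of a content off the axis -/
theorem PC_ne {s : Finset ι} {m x : ι → ℝ} (hm : ∀ i ∈ s, 0 ≤ m i) (hx : ∀ i ∈ s, |x i| < 1)
    (hM : 0 < ∑ i ∈ s, m i) {z : ℂ} (hz : z.re ≠ 0) : PC s m x z ≠ 0 := by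
  intro h
  have h1 := PC_re s m x hz
  rw [h, zero_mul, Complex.zero_re] at h1
  have h2 : 0 < ∑ i ∈ s, m i * wt (x i) z := by
    obtain ⟨j, hj, hj2⟩ : ∃ j ∈ s, 0 < m j := by
      by_contra hn
      push Not at hn
      exact absurd hM (not_lt.2 (Finset.sum_nonpos hn))
    exact Finset.sum_pos' (fun i hi => mul_nonneg (hm i hi) (wt_pos (hx i hi) hz).le)
      ⟨j, hj, mul_pos hj2 (wt_pos (hx j hj) hz)⟩
  have h3 : Real.sinh (8 / 3 * z.re) ≠ 0 := by
    rw [Ne, Real.sinh_eq_zero]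
    simpa using hz
  have h4 := (Real.cosh_pos (8 / 3 * z.re)).ne'
  have h5 := Real.pi_pos.ne'
  have : 4 / (3 * Real.pi) * (Real.sinh (8 / 3 * z.re) * Real.cosh (8 / 3 * z.re)) *
      ∑ i ∈ s, m i * wt (x i) z ≠ 0 := by
    have := h2.ne'
    positivity
  exact this h1.symm

/-- lower bound off the axis, for every offset -/
theorem PC_lower {s : Finset ι} {m x : ι → ℝ} (hm : ∀ i ∈ s, 0 ≤ m i) (hx : ∀ i ∈ s, |x i| < 1)
    {z : ℂ} (hz : z.re ≠ 0) :
    2 / (√3 * Real.pi) * (|Real.sinh (8 / 3 * z.re)| / Real.cosh (8 / 3 * z.re) ^ 2) *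
      ∑ i ∈ s, m i ≤ ‖PC s m x z‖ := by
  have h1 := PC_re s m x hz
  have hc := Real.cosh_pos (8 / 3 * z.re)
  have hsh := norm_sinh_le z
  have h2 : |(PC s m x z * Complex.sinh (8 / 3 * z)).re| ≤ ‖PC s m x z‖ * Real.cosh (8 / 3 * z.re) := by
    refine (Complex.abs_re_le_norm _).trans ?_
    rw [norm_mul]
    exact mul_le_mul_of_nonneg_left hsh (norm_nonneg _)
  have h3 : √3 / 2 / Real.cosh (8 / 3 * z.re) ^ 2 * ∑ i ∈ s, m i ≤ ∑ i ∈ s, m i * wt (x i) z := by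
    rw [Finset.mul_sum]
    refine Finset.sum_le_sum fun i hi => ?_
    rw [mul_comm]
    exact mul_le_mul_of_nonneg_left (wt_ge (hx i hi) hz) (hm i hi)
  have hW : 0 ≤ ∑ i ∈ s, m i * wt (x i) z :=
    Finset.sum_nonneg fun i hi => mul_nonneg (hm i hi) (wt_pos (hx i hi) hz).le
  have hpi := Real.pi_pos
  rw [h1, abs_mul, abs_mul, abs_mul, abs_of_pos hc, abs_of_pos (by positivity : 0 < 4 / (3 * Real.pi)),
    abs_of_nonneg hW] at h2
  have h4 : 4 / (3 * Real.pi) * |Real.sinh (8 / 3 * z.re)| * ∑ i ∈ s, m i * wt (x i) z ≤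
      ‖PC s m x z‖ := by
    refine le_of_mul_le_mul_right ?_ hc
    calc 4 / (3 * Real.pi) * |Real.sinh (8 / 3 * z.re)| * (∑ i ∈ s, m i * wt (x i) z) *
          Real.cosh (8 / 3 * z.re)
        = 4 / (3 * Real.pi) * (|Real.sinh (8 / 3 * z.re)| * Real.cosh (8 / 3 * z.re)) *
          ∑ i ∈ s, m i * wt (x i) z := by ring
      _ ≤ _ := h2
  have h5 : 4 / (3 * Real.pi) * |Real.sinh (8 / 3 * z.re)| *
      (√3 / 2 / Real.cosh (8 / 3 * z.re) ^ 2 * ∑ i ∈ s, m i) ≤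
      4 / (3 * Real.pi) * |Real.sinh (8 / 3 * z.re)| * ∑ i ∈ s, m i * wt (x i) z :=
    mul_le_mul_of_nonneg_left h3 (by positivity)
  refine le_trans (le_of_eq ?_) (h5.trans h4)
  have h6 : 2 / (√3 * Real.pi) = 4 / (3 * Real.pi) * (√3 / 2) := by
    have h7 := NUMF.sq3
    have h8 := NUMF.sq3_pos.ne'
    field_simp
    nlinarith
  rw [h6]
  ring

end

end PLTZ
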